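import Pool.Agent.Lib.MP_5854e1_co.Cz.P
import Pool.Agent.Lib.MP_5854e1_co.AntiRun

/-!
# A part of the check of the values
-/

set_option autoImplicit false
set_option maxRecDepth 100000
set_option deprecated.oldSectionVars true

namespace Pool.Agent.Lib.MP_5854e1_co.Cz

open Pool.Agent.Lib.MP_5854e1_co PB

noncomputable def u0 : Un := .mk (nat_lit 0) (nat_lit 1) (nat_lit 0) (nat_lit 1) (nat_lit 0) (nat_lit 81)

theorem cu0 : PT.runU u0 = true := by decide +kernel

noncomputable def u1 : Un := .mk (nat_lit 0) (nat_lit 1) (nat_lit 0) (nat_lit 1) (nat_lit 81) (nat_lit 157)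

theorem cu1 : PT.runU u1 = true := by decide +kernel

noncomputable def u2 : Un := .mk (nat_lit 0) (nat_lit 1) (nat_lit 0) (nat_lit 1) (nat_lit 157) (nat_lit 233)

theorem cu2 : PT.runU u2 = true := by decide +kernel

noncomputable def u3 : Un := .mk (nat_lit 0) (nat_lit 1) (nat_lit 0) (nat_lit 1) (nat_lit 233) (nat_lit 257)

theorem cu3 : PT.runU u3 = true := by decide +kernel

noncomputable def u4 : Un := .mk (nat_lit 0) (nat_lit 1) (nat_lit 0) (nat_lit 1) (nat_lit 257) (nat_lit 287)

theorem cu4 : PT.runU u4 = true := by decide +kernel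


end Pool.Agent.Lib.MP_5854e1_co.Cz

namespace Pool.Agent.Lib.MP_5854e1_co.Cz

open Pool.Agent.Lib.MP_5854e1_co PB

noncomputable def u49 : Un := .mk (nat_lit 28) (nat_lit 29) (nat_lit 20) (nat_lit 101) (nat_lit 0) (nat_lit 512)

theorem cu49 : PT.runU u49 = true := by decide +kernel

noncomputable def u50 : Un := .mk (nat_lit 29) (nat_lit 40) (nat_lit 0) (nat_lit 101) (nat_lit 0) (nat_lit 512)

theorem cu50 : PT.runU u50 = true := by decide +kernel

noncomputable def u51 : Un := .mk (nat_lit 40) (nat_lit 47) (nat_lit 0) (nat_lit 101) (nat_lit 0) (nat_lit 512)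

theorem cu51 : PT.runU u51 = true := by decide +kernel

noncomputable def u52 : Un := .mk (nat_lit 47) (nat_lit 52) (nat_lit 0) (nat_lit 101) (nat_lit 0) (nat_lit 512)

theorem cu52 : PT.runU u52 = true := by decide +kernel

noncomputable def u53 : Un := .mk (nat_lit 52) (nat_lit 58) (nat_lit 0) (nat_lit 101) (nat_lit 0) (nat_lit 512)

theorem cu53 : PT.runU u53 = true := by decide +kernel

noncomputable def u54 : Un := .mk (nat_lit 58) (nat_lit 64) (nat_lit 0) (nat_lit 101) (nat_lit 0) (nat_lit 512)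

theorem cu54 : PT.runU u54 = true := by decide +kernel


end Pool.Agent.Lib.MP_5854e1_co.Cz
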