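import Pool.Agent.Lib.MP_5854e1_co.Cz.P
import Pool.Agent.Lib.MP_5854e1_co.AntiRun

/-!
# A part of the check of the values
-/

set_option autoImplicit false
set_option maxRecDepth 100000
set_option deprecated.oldSectionVars true

namespace Pool.Agent.Lib.MP_5854e1_co.Cz

open Pool.Agent.Lib.MP_5854e1_co PB

noncomputable def u5 : Un := .mk (nat_lit 0) (nat_lit 1) (nat_lit 0) (nat_lit 1) (nat_lit 287) (nat_lit 312)

theorem cu5 : PT.runU u5 = true := by decide +kernel

noncomputable def u6 : Un := .mk (nat_lit 0) (nat_lit 1) (nat_lit 0) (nat_lit 1) (nat_lit 312) (nat_lit 337)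

theorem cu6 : PT.runU u6 = true := by decide +kernel

noncomputable def u7 : Un := .mk (nat_lit 0) (nat_lit 1) (nat_lit 0) (nat_lit 1) (nat_lit 337) (nat_lit 371)

theorem cu7 : PT.runU u7 = true := by decide +kernel

noncomputable def u8 : Un := .mk (nat_lit 0) (nat_lit 1) (nat_lit 0) (nat_lit 1) (nat_lit 371) (nat_lit 396)

theorem cu8 : PT.runU u8 = true := by decide +kernel

noncomputable def u9 : Un := .mk (nat_lit 0) (nat_lit 1) (nat_lit 0) (nat_lit 1) (nat_lit 396) (nat_lit 512)

theorem cu9 : PT.runU u9 = true := by decide +kernel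

noncomputable def u10 : Un := .mk (nat_lit 0) (nat_lit 1) (nat_lit 1) (nat_lit 5) (nat_lit 0) (nat_lit 512)

theorem cu10 : PT.runU u10 = true := by decide +kernel

noncomputable def u11 : Un := .mk (nat_lit 0) (nat_lit 1) (nat_lit 5) (nat_lit 7) (nat_lit 0) (nat_lit 512)

theorem cu11 : PT.runU u11 = true := by decide +kernel


end Pool.Agent.Lib.MP_5854e1_co.Cz

namespace Pool.Agent.Lib.MP_5854e1_co.Cz

open Pool.Agent.Lib.MP_5854e1_co PB

noncomputable def u25 : Un := .mk (nat_lit 0) (nat_lit 1) (nat_lit 88) (nat_lit 95) (nat_lit 0) (nat_lit 512)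

theorem cu25 : PT.runU u25 = true := by decide +kernel

noncomputable def u26 : Un := .mk (nat_lit 0) (nat_lit 1) (nat_lit 95) (nat_lit 101) (nat_lit 0) (nat_lit 512)

theorem cu26 : PT.runU u26 = true := by decide +kernel

noncomputable def u27 : Un := .mk (nat_lit 1) (nat_lit 2) (nat_lit 0) (nat_lit 20) (nat_lit 0) (nat_lit 512)

theorem cu27 : PT.runU u27 = true := by decide +kernel

noncomputable def u28 : Un := .mk (nat_lit 1) (nat_lit 2) (nat_lit 20) (nat_lit 101) (nat_lit 0) (nat_lit 512)

theorem cu28 : PT.runU u28 = true := by decide +kernel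

noncomputable def u29 : Un := .mk (nat_lit 2) (nat_lit 5) (nat_lit 0) (nat_lit 101) (nat_lit 0) (nat_lit 512)

theorem cu29 : PT.runU u29 = true := by decide +kernel

noncomputable def u30 : Un := .mk (nat_lit 5) (nat_lit 7) (nat_lit 0) (nat_lit 101) (nat_lit 0) (nat_lit 512)

theorem cu30 : PT.runU u30 = true := by decide +kernel

noncomputable def u31 : Un := .mk (nat_lit 7) (nat_lit 8) (nat_lit 0) (nat_lit 1) (nat_lit 0) (nat_lit 367)

theorem cu31 : PT.runU u31 = true := by decide +kernel

noncomputable def u32 : Un := .mk (nat_lit 7) (nat_lit 8) (nat_lit 0) (nat_lit 1) (nat_lit 367) (nat_lit 512)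

theorem cu32 : PT.runU u32 = true := by decide +kernel


end Pool.Agent.Lib.MP_5854e1_co.Cz
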