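import Pool.Agent.Lib.MP_5854e1_co.Cz.P
import Pool.Agent.Lib.MP_5854e1_co.AntiRun

/-!
# A part of the check of the values
-/

set_option autoImplicit false
set_option maxRecDepth 100000
set_option deprecated.oldSectionVars true

namespace Pool.Agent.Lib.MP_5854e1_co.Cz

open Pool.Agent.Lib.MP_5854e1_co PB

noncomputable def u12 : Un := .mk (nat_lit 0) (nat_lit 1) (nat_lit 7) (nat_lit 10) (nat_lit 0) (nat_lit 512)

theorem cu12 : PT.runU u12 = true := by decide +kernel

noncomputable def u13 : Un := .mk (nat_lit 0) (nat_lit 1) (nat_lit 10) (nat_lit 15) (nat_lit 0) (nat_lit 512)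

theorem cu13 : PT.runU u13 = true := by decide +kernel

noncomputable def u14 : Un := .mk (nat_lit 0) (nat_lit 1) (nat_lit 15) (nat_lit 20) (nat_lit 0) (nat_lit 512)

theorem cu14 : PT.runU u14 = true := by decide +kernel

noncomputable def u15 : Un := .mk (nat_lit 0) (nat_lit 1) (nat_lit 20) (nat_lit 23) (nat_lit 0) (nat_lit 512)

theorem cu15 : PT.runU u15 = true := by decide +kernel

noncomputable def u16 : Un := .mk (nat_lit 0) (nat_lit 1) (nat_lit 23) (nat_lit 28) (nat_lit 0) (nat_lit 512)

theorem cu16 : PT.runU u16 = true := by decide +kernel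

noncomputable def u17 : Un := .mk (nat_lit 0) (nat_lit 1) (nat_lit 28) (nat_lit 33) (nat_lit 0) (nat_lit 512)

theorem cu17 : PT.runU u17 = true := by decide +kernel

noncomputable def u18 : Un := .mk (nat_lit 0) (nat_lit 1) (nat_lit 33) (nat_lit 42) (nat_lit 0) (nat_lit 512)

theorem cu18 : PT.runU u18 = true := by decide +kernel


end Pool.Agent.Lib.MP_5854e1_co.Cz
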