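import Pool.Agent.Lib.MP_5854e1_co.Cz.P
import Pool.Agent.Lib.MP_5854e1_co.AntiRun

/-!
# A part of the check of the values
-/

set_option autoImplicit false
set_option maxRecDepth 100000
set_option deprecated.oldSectionVars true

namespace Pool.Agent.Lib.MP_5854e1_co.Cz

open Pool.Agent.Lib.MP_5854e1_co PB

noncomputable def u19 : Un := .mk (nat_lit 0) (nat_lit 1) (nat_lit 42) (nat_lit 52) (nat_lit 0) (nat_lit 512)

theorem cu19 : PT.runU u19 = true := by decide +kernel

noncomputable def u20 : Un := .mk (nat_lit 0) (nat_lit 1) (nat_lit 52) (nat_lit 60) (nat_lit 0) (nat_lit 512)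

theorem cu20 : PT.runU u20 = true := by decide +kernel

noncomputable def u21 : Un := .mk (nat_lit 0) (nat_lit 1) (nat_lit 60) (nat_lit 65) (nat_lit 0) (nat_lit 512)

theorem cu21 : PT.runU u21 = true := by decide +kernel

noncomputable def u22 : Un := .mk (nat_lit 0) (nat_lit 1) (nat_lit 65) (nat_lit 74) (nat_lit 0) (nat_lit 512)

theorem cu22 : PT.runU u22 = true := by decide +kernel

noncomputable def u23 : Un := .mk (nat_lit 0) (nat_lit 1) (nat_lit 74) (nat_lit 83) (nat_lit 0) (nat_lit 512)

theorem cu23 : PT.runU u23 = true := by decide +kernel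

noncomputable def u24 : Un := .mk (nat_lit 0) (nat_lit 1) (nat_lit 83) (nat_lit 88) (nat_lit 0) (nat_lit 512)

theorem cu24 : PT.runU u24 = true := by decide +kernel


end Pool.Agent.Lib.MP_5854e1_co.Cz

namespace Pool.Agent.Lib.MP_5854e1_co.Cz

open Pool.Agent.Lib.MP_5854e1_co PB

noncomputable def u55 : Un := .mk (nat_lit 64) (nat_lit 76) (nat_lit 0) (nat_lit 101) (nat_lit 0) (nat_lit 512)

theorem cu55 : PT.runU u55 = true := by decide +kernel

noncomputable def u56 : Un := .mk (nat_lit 76) (nat_lit 93) (nat_lit 0) (nat_lit 101) (nat_lit 0) (nat_lit 512)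

theorem cu56 : PT.runU u56 = true := by decide +kernel

noncomputable def u57 : Un := .mk (nat_lit 93) (nat_lit 101) (nat_lit 0) (nat_lit 101) (nat_lit 0) (nat_lit 512)

theorem cu57 : PT.runU u57 = true := by decide +kernel


end Pool.Agent.Lib.MP_5854e1_co.Cz
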