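import Pool.Agent.Lib.MP_5854e1_co.Cz.P
import Pool.Agent.Lib.MP_5854e1_co.AntiRun

/-!
# A part of the check of the values
-/

set_option autoImplicit false
set_option maxRecDepth 100000
set_option deprecated.oldSectionVars true

namespace Pool.Agent.Lib.MP_5854e1_co.Cz

open Pool.Agent.Lib.MP_5854e1_co PB

noncomputable def u33 : Un := .mk (nat_lit 7) (nat_lit 8) (nat_lit 1) (nat_lit 28) (nat_lit 0) (nat_lit 512)

theorem cu33 : PT.runU u33 = true := by decide +kernel

noncomputable def u34 : Un := .mk (nat_lit 7) (nat_lit 8) (nat_lit 28) (nat_lit 84) (nat_lit 0) (nat_lit 512)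

theorem cu34 : PT.runU u34 = true := by decide +kernel

noncomputable def u35 : Un := .mk (nat_lit 7) (nat_lit 8) (nat_lit 84) (nat_lit 101) (nat_lit 0) (nat_lit 512)

theorem cu35 : PT.runU u35 = true := by decide +kernel

noncomputable def u36 : Un := .mk (nat_lit 8) (nat_lit 12) (nat_lit 0) (nat_lit 101) (nat_lit 0) (nat_lit 512)

theorem cu36 : PT.runU u36 = true := by decide +kernel

noncomputable def u37 : Un := .mk (nat_lit 12) (nat_lit 15) (nat_lit 0) (nat_lit 101) (nat_lit 0) (nat_lit 512)

theorem cu37 : PT.runU u37 = true := by decide +kernel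

noncomputable def u38 : Un := .mk (nat_lit 15) (nat_lit 16) (nat_lit 0) (nat_lit 20) (nat_lit 0) (nat_lit 512)

theorem cu38 : PT.runU u38 = true := by decide +kernel

noncomputable def u39 : Un := .mk (nat_lit 15) (nat_lit 16) (nat_lit 20) (nat_lit 101) (nat_lit 0) (nat_lit 512)

theorem cu39 : PT.runU u39 = true := by decide +kernel

noncomputable def u40 : Un := .mk (nat_lit 16) (nat_lit 20) (nat_lit 0) (nat_lit 101) (nat_lit 0) (nat_lit 512)

theorem cu40 : PT.runU u40 = true := by decide +kernel


end Pool.Agent.Lib.MP_5854e1_co.Cz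

namespace Pool.Agent.Lib.MP_5854e1_co.Cz

open Pool.Agent.Lib.MP_5854e1_co PB

noncomputable def u41 : Un := .mk (nat_lit 20) (nat_lit 21) (nat_lit 0) (nat_lit 1) (nat_lit 0) (nat_lit 380)

theorem cu41 : PT.runU u41 = true := by decide +kernel

noncomputable def u42 : Un := .mk (nat_lit 20) (nat_lit 21) (nat_lit 0) (nat_lit 1) (nat_lit 380) (nat_lit 512)

theorem cu42 : PT.runU u42 = true := by decide +kernel

noncomputable def u43 : Un := .mk (nat_lit 20) (nat_lit 21) (nat_lit 1) (nat_lit 28) (nat_lit 0) (nat_lit 512)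

theorem cu43 : PT.runU u43 = true := by decide +kernel

noncomputable def u44 : Un := .mk (nat_lit 20) (nat_lit 21) (nat_lit 28) (nat_lit 81) (nat_lit 0) (nat_lit 512)

theorem cu44 : PT.runU u44 = true := by decide +kernel

noncomputable def u45 : Un := .mk (nat_lit 20) (nat_lit 21) (nat_lit 81) (nat_lit 101) (nat_lit 0) (nat_lit 512)

theorem cu45 : PT.runU u45 = true := by decide +kernel

noncomputable def u46 : Un := .mk (nat_lit 21) (nat_lit 25) (nat_lit 0) (nat_lit 101) (nat_lit 0) (nat_lit 512)

theorem cu46 : PT.runU u46 = true := by decide +kernel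

noncomputable def u47 : Un := .mk (nat_lit 25) (nat_lit 28) (nat_lit 0) (nat_lit 101) (nat_lit 0) (nat_lit 512)

theorem cu47 : PT.runU u47 = true := by decide +kernel

noncomputable def u48 : Un := .mk (nat_lit 28) (nat_lit 29) (nat_lit 0) (nat_lit 20) (nat_lit 0) (nat_lit 512)

theorem cu48 : PT.runU u48 = true := by decide +kernel


end Pool.Agent.Lib.MP_5854e1_co.Cz
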