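import Pool.Agent.Lib.MP_5854e1_co.Cz.P
import Pool.Agent.Lib.MP_5854e1_co.TabRun

/-!
# Parts of the check of the values
-/

set_option autoImplicit false
set_option maxRecDepth 100000
set_option deprecated.oldSectionVars true

namespace Pool.Agent.Lib.MP_5854e1_co.Cz

open Pool.Agent.Lib.MP_5854e1_co PB

noncomputable def clu0 : Pr := .mk (nat_lit 0) (nat_lit 1) (nat_lit 0) (nat_lit 81)

theorem cl0 : AP.runP optN (cloB PT.R nl PT.Pn RvT) clu0 = true := by decide +kernel

noncomputable def clu1 : Pr := .mk (nat_lit 0) (nat_lit 1) (nat_lit 81) (nat_lit 157)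

theorem cl1 : AP.runP optN (cloB PT.R nl PT.Pn RvT) clu1 = true := by decide +kernel

noncomputable def clu2 : Pr := .mk (nat_lit 0) (nat_lit 1) (nat_lit 157) (nat_lit 253)

theorem cl2 : AP.runP optN (cloB PT.R nl PT.Pn RvT) clu2 = true := by decide +kernel

noncomputable def clu3 : Pr := .mk (nat_lit 0) (nat_lit 1) (nat_lit 253) (nat_lit 388)

theorem cl3 : AP.runP optN (cloB PT.R nl PT.Pn RvT) clu3 = true := by decide +kernel

noncomputable def clu4 : Pr := .mk (nat_lit 0) (nat_lit 1) (nat_lit 388) (nat_lit 512)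

theorem cl4 : AP.runP optN (cloB PT.R nl PT.Pn RvT) clu4 = true := by decide +kernel

noncomputable def clu5 : Pr := .mk (nat_lit 1) (nat_lit 3) (nat_lit 0) (nat_lit 512)

theorem cl5 : AP.runP optN (cloB PT.R nl PT.Pn RvT) clu5 = true := by decide +kernel

noncomputable def clu6 : Pr := .mk (nat_lit 3) (nat_lit 7) (nat_lit 0) (nat_lit 512)

theorem cl6 : AP.runP optN (cloB PT.R nl PT.Pn RvT) clu6 = true := by decide +kernel

noncomputable def clu7 : Pr := .mk (nat_lit 7) (nat_lit 8) (nat_lit 0) (nat_lit 512)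

theorem cl7 : AP.runP optN (cloB PT.R nl PT.Pn RvT) clu7 = true := by decide +kernel


end Pool.Agent.Lib.MP_5854e1_co.Cz

namespace Pool.Agent.Lib.MP_5854e1_co.Cz

open Pool.Agent.Lib.MP_5854e1_co PB

noncomputable def clu8 : Pr := .mk (nat_lit 8) (nat_lit 15) (nat_lit 0) (nat_lit 512)

theorem cl8 : AP.runP optN (cloB PT.R nl PT.Pn RvT) clu8 = true := by decide +kernel

noncomputable def clu9 : Pr := .mk (nat_lit 15) (nat_lit 17) (nat_lit 0) (nat_lit 512)

theorem cl9 : AP.runP optN (cloB PT.R nl PT.Pn RvT) clu9 = true := by decide +kernel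

noncomputable def clu10 : Pr := .mk (nat_lit 17) (nat_lit 20) (nat_lit 0) (nat_lit 512)

theorem cl10 : AP.runP optN (cloB PT.R nl PT.Pn RvT) clu10 = true := by decide +kernel

noncomputable def clu11 : Pr := .mk (nat_lit 20) (nat_lit 21) (nat_lit 0) (nat_lit 512)

theorem cl11 : AP.runP optN (cloB PT.R nl PT.Pn RvT) clu11 = true := by decide +kernel

noncomputable def clu12 : Pr := .mk (nat_lit 21) (nat_lit 28) (nat_lit 0) (nat_lit 512)

theorem cl12 : AP.runP optN (cloB PT.R nl PT.Pn RvT) clu12 = true := by decide +kernel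

noncomputable def clu13 : Pr := .mk (nat_lit 28) (nat_lit 30) (nat_lit 0) (nat_lit 512)

theorem cl13 : AP.runP optN (cloB PT.R nl PT.Pn RvT) clu13 = true := by decide +kernel

noncomputable def clu14 : Pr := .mk (nat_lit 30) (nat_lit 41) (nat_lit 0) (nat_lit 512)

theorem cl14 : AP.runP optN (cloB PT.R nl PT.Pn RvT) clu14 = true := by decide +kernel


end Pool.Agent.Lib.MP_5854e1_co.Cz

namespace Pool.Agent.Lib.MP_5854e1_co.Cz

open Pool.Agent.Lib.MP_5854e1_co PB

noncomputable def clu15 : Pr := .mk (nat_lit 41) (nat_lit 49) (nat_lit 0) (nat_lit 512)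

theorem cl15 : AP.runP optN (cloB PT.R nl PT.Pn RvT) clu15 = true := by decide +kernel

noncomputable def clu16 : Pr := .mk (nat_lit 49) (nat_lit 58) (nat_lit 0) (nat_lit 512)

theorem cl16 : AP.runP optN (cloB PT.R nl PT.Pn RvT) clu16 = true := by decide +kernel

noncomputable def clu17 : Pr := .mk (nat_lit 58) (nat_lit 66) (nat_lit 0) (nat_lit 512)

theorem cl17 : AP.runP optN (cloB PT.R nl PT.Pn RvT) clu17 = true := by decide +kernel

noncomputable def clu18 : Pr := .mk (nat_lit 66) (nat_lit 78) (nat_lit 0) (nat_lit 512)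

theorem cl18 : AP.runP optN (cloB PT.R nl PT.Pn RvT) clu18 = true := by decide +kernel

noncomputable def clu19 : Pr := .mk (nat_lit 78) (nat_lit 89) (nat_lit 0) (nat_lit 512)

theorem cl19 : AP.runP optN (cloB PT.R nl PT.Pn RvT) clu19 = true := by decide +kernel

noncomputable def clu20 : Pr := .mk (nat_lit 89) (nat_lit 100) (nat_lit 0) (nat_lit 512)

theorem cl20 : AP.runP optN (cloB PT.R nl PT.Pn RvT) clu20 = true := by decide +kernel

noncomputable def clu21 : Pr := .mk (nat_lit 100) (nat_lit 101) (nat_lit 0) (nat_lit 512)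

theorem cl21 : AP.runP optN (cloB PT.R nl PT.Pn RvT) clu21 = true := by decide +kernel


end Pool.Agent.Lib.MP_5854e1_co.Cz
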