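import Pool.Agent.Lib.MP_5854e1_co.Cz.P
import Pool.Agent.Lib.MP_5854e1_co.AntiRun

/-!
# Parts of the check of the values
-/

set_option autoImplicit false
set_option maxRecDepth 100000
set_option deprecated.oldSectionVars true

namespace Pool.Agent.Lib.MP_5854e1_co.Cz

open Pool.Agent.Lib.MP_5854e1_co PB

theorem pr0 : AP.rgN PT.prK 0 8 = true := by decide +kernel

theorem pr1 : AP.rgN PT.prK 8 101 = true := by decide +kernel

theorem psi : PT.psiC = true := by decide +kernel

theorem symN : AP.rgN (symVK PT.Pn) 0 101 = true := by decide +kernel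

theorem symG : AP.rgN (symVK PT.PG) 0 101 = true := by decide +kernel

theorem symH : AP.rgN (AP.symPK PT) 0 101 = true := by decide +kernel

theorem symP : AP.symS PT = true := by decide +kernel

theorem symQT : AP.rgN (symTK PT.q) 0 101 = true := by decide +kernel

theorem symPW : AP.rgN (symVK PT.PW) 0 101 = true := by decide +kernel

theorem symSP : AP.rgN (symVK SPT) 0 101 = true := by decide +kernel

end Pool.Agent.Lib.MP_5854e1_co.Cz
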