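import Pool.Agent.Lib.MP_5854e1_co.Cz.P
import Pool.Agent.Lib.MP_5854e1_co.TabRun

/-!
# Parts of the check of the values
-/

set_option autoImplicit false
set_option maxRecDepth 100000
set_option deprecated.oldSectionVars true

namespace Pool.Agent.Lib.MP_5854e1_co.Cz

open Pool.Agent.Lib.MP_5854e1_co PB

noncomputable def sbu0 : Pr := .mk (nat_lit 0) (nat_lit 1) (nat_lit 0) (nat_lit 1)

theorem sb0 : AP.runP optN (fun k o => rIf (cnn k o) (symR PT.R k o) true) sbu0 = true := by decide +kernel

noncomputable def sbu1 : Pr := .mk (nat_lit 0) (nat_lit 1) (nat_lit 1) (nat_lit 81)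

theorem sb1 : AP.runP optN (fun k o => rIf (cnn k o) (symR PT.R k o) true) sbu1 = true := by decide +kernel

noncomputable def sbu2 : Pr := .mk (nat_lit 0) (nat_lit 1) (nat_lit 81) (nat_lit 158)

theorem sb2 : AP.runP optN (fun k o => rIf (cnn k o) (symR PT.R k o) true) sbu2 = true := by decide +kernel

noncomputable def sbu3 : Pr := .mk (nat_lit 0) (nat_lit 1) (nat_lit 158) (nat_lit 244)

theorem sb3 : AP.runP optN (fun k o => rIf (cnn k o) (symR PT.R k o) true) sbu3 = true := by decide +kernel


end Pool.Agent.Lib.MP_5854e1_co.Cz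

namespace Pool.Agent.Lib.MP_5854e1_co.Cz

open Pool.Agent.Lib.MP_5854e1_co PB

noncomputable def sbu4 : Pr := .mk (nat_lit 0) (nat_lit 1) (nat_lit 244) (nat_lit 287)

theorem sb4 : AP.runP optN (fun k o => rIf (cnn k o) (symR PT.R k o) true) sbu4 = true := by decide +kernel

noncomputable def sbu5 : Pr := .mk (nat_lit 0) (nat_lit 1) (nat_lit 287) (nat_lit 358)

theorem sb5 : AP.runP optN (fun k o => rIf (cnn k o) (symR PT.R k o) true) sbu5 = true := by decide +kernel

noncomputable def sbu6 : Pr := .mk (nat_lit 0) (nat_lit 1) (nat_lit 358) (nat_lit 512)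

theorem sb6 : AP.runP optN (fun k o => rIf (cnn k o) (symR PT.R k o) true) sbu6 = true := by decide +kernel

noncomputable def sbu7 : Pr := .mk (nat_lit 1) (nat_lit 2) (nat_lit 0) (nat_lit 156)

theorem sb7 : AP.runP optN (fun k o => rIf (cnn k o) (symR PT.R k o) true) sbu7 = true := by decide +kernel

noncomputable def sbu8 : Pr := .mk (nat_lit 1) (nat_lit 2) (nat_lit 156) (nat_lit 512)

theorem sb8 : AP.runP optN (fun k o => rIf (cnn k o) (symR PT.R k o) true) sbu8 = true := by decide +kernel

noncomputable def sbu9 : Pr := .mk (nat_lit 2) (nat_lit 7) (nat_lit 0) (nat_lit 512)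

theorem sb9 : AP.runP optN (fun k o => rIf (cnn k o) (symR PT.R k o) true) sbu9 = true := by decide +kernel

noncomputable def sbu10 : Pr := .mk (nat_lit 7) (nat_lit 8) (nat_lit 0) (nat_lit 166)

theorem sb10 : AP.runP optN (fun k o => rIf (cnn k o) (symR PT.R k o) true) sbu10 = true := by decide +kernel


end Pool.Agent.Lib.MP_5854e1_co.Cz

namespace Pool.Agent.Lib.MP_5854e1_co.Cz

open Pool.Agent.Lib.MP_5854e1_co PB

noncomputable def sbu11 : Pr := .mk (nat_lit 7) (nat_lit 8) (nat_lit 166) (nat_lit 512)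

theorem sb11 : AP.runP optN (fun k o => rIf (cnn k o) (symR PT.R k o) true) sbu11 = true := by decide +kernel

noncomputable def sbu12 : Pr := .mk (nat_lit 8) (nat_lit 13) (nat_lit 0) (nat_lit 512)

theorem sb12 : AP.runP optN (fun k o => rIf (cnn k o) (symR PT.R k o) true) sbu12 = true := by decide +kernel

noncomputable def sbu13 : Pr := .mk (nat_lit 13) (nat_lit 15) (nat_lit 0) (nat_lit 512)

theorem sb13 : AP.runP optN (fun k o => rIf (cnn k o) (symR PT.R k o) true) sbu13 = true := by decide +kernel

noncomputable def sbu14 : Pr := .mk (nat_lit 15) (nat_lit 16) (nat_lit 0) (nat_lit 166)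

theorem sb14 : AP.runP optN (fun k o => rIf (cnn k o) (symR PT.R k o) true) sbu14 = true := by decide +kernel

noncomputable def sbu15 : Pr := .mk (nat_lit 15) (nat_lit 16) (nat_lit 166) (nat_lit 512)

theorem sb15 : AP.runP optN (fun k o => rIf (cnn k o) (symR PT.R k o) true) sbu15 = true := by decide +kernel

noncomputable def sbu16 : Pr := .mk (nat_lit 16) (nat_lit 20) (nat_lit 0) (nat_lit 512)

theorem sb16 : AP.runP optN (fun k o => rIf (cnn k o) (symR PT.R k o) true) sbu16 = true := by decide +kernel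

noncomputable def sbu17 : Pr := .mk (nat_lit 20) (nat_lit 21) (nat_lit 0) (nat_lit 166)

theorem sb17 : AP.runP optN (fun k o => rIf (cnn k o) (symR PT.R k o) true) sbu17 = true := by decide +kernel

noncomputable def sbu18 : Pr := .mk (nat_lit 20) (nat_lit 21) (nat_lit 166) (nat_lit 512)

theorem sb18 : AP.runP optN (fun k o => rIf (cnn k o) (symR PT.R k o) true) sbu18 = true := by decide +kernel


end Pool.Agent.Lib.MP_5854e1_co.Cz
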