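import Pool.Agent.Lib.MP_5854e1_co.Cz.P
import Pool.Agent.Lib.MP_5854e1_co.TabRun

/-!
# Parts of the check of the values
-/

set_option autoImplicit false
set_option maxRecDepth 100000
set_option deprecated.oldSectionVars true

namespace Pool.Agent.Lib.MP_5854e1_co.Cz

open Pool.Agent.Lib.MP_5854e1_co PB

noncomputable def sbu19 : Pr := .mk (nat_lit 21) (nat_lit 26) (nat_lit 0) (nat_lit 512)

theorem sb19 : AP.runP optN (fun k o => rIf (cnn k o) (symR PT.R k o) true) sbu19 = true := by decide +kernel

noncomputable def sbu20 : Pr := .mk (nat_lit 26) (nat_lit 28) (nat_lit 0) (nat_lit 512)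

theorem sb20 : AP.runP optN (fun k o => rIf (cnn k o) (symR PT.R k o) true) sbu20 = true := by decide +kernel

noncomputable def sbu21 : Pr := .mk (nat_lit 28) (nat_lit 29) (nat_lit 0) (nat_lit 166)

theorem sb21 : AP.runP optN (fun k o => rIf (cnn k o) (symR PT.R k o) true) sbu21 = true := by decide +kernel

noncomputable def sbu22 : Pr := .mk (nat_lit 28) (nat_lit 29) (nat_lit 166) (nat_lit 512)

theorem sb22 : AP.runP optN (fun k o => rIf (cnn k o) (symR PT.R k o) true) sbu22 = true := by decide +kernel

noncomputable def sbu23 : Pr := .mk (nat_lit 29) (nat_lit 35) (nat_lit 0) (nat_lit 512)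

theorem sb23 : AP.runP optN (fun k o => rIf (cnn k o) (symR PT.R k o) true) sbu23 = true := by decide +kernel

noncomputable def sbu24 : Pr := .mk (nat_lit 35) (nat_lit 39) (nat_lit 0) (nat_lit 512)

theorem sb24 : AP.runP optN (fun k o => rIf (cnn k o) (symR PT.R k o) true) sbu24 = true := by decide +kernel

noncomputable def sbu25 : Pr := .mk (nat_lit 39) (nat_lit 45) (nat_lit 0) (nat_lit 512)

theorem sb25 : AP.runP optN (fun k o => rIf (cnn k o) (symR PT.R k o) true) sbu25 = true := by decide +kernel


end Pool.Agent.Lib.MP_5854e1_co.Cz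

namespace Pool.Agent.Lib.MP_5854e1_co.Cz

open Pool.Agent.Lib.MP_5854e1_co PB

noncomputable def sbu26 : Pr := .mk (nat_lit 45) (nat_lit 50) (nat_lit 0) (nat_lit 512)

theorem sb26 : AP.runP optN (fun k o => rIf (cnn k o) (symR PT.R k o) true) sbu26 = true := by decide +kernel

noncomputable def sbu27 : Pr := .mk (nat_lit 50) (nat_lit 56) (nat_lit 0) (nat_lit 512)

theorem sb27 : AP.runP optN (fun k o => rIf (cnn k o) (symR PT.R k o) true) sbu27 = true := by decide +kernel

noncomputable def sbu28 : Pr := .mk (nat_lit 56) (nat_lit 61) (nat_lit 0) (nat_lit 512)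

theorem sb28 : AP.runP optN (fun k o => rIf (cnn k o) (symR PT.R k o) true) sbu28 = true := by decide +kernel

noncomputable def sbu29 : Pr := .mk (nat_lit 61) (nat_lit 65) (nat_lit 0) (nat_lit 512)

theorem sb29 : AP.runP optN (fun k o => rIf (cnn k o) (symR PT.R k o) true) sbu29 = true := by decide +kernel

noncomputable def sbu30 : Pr := .mk (nat_lit 65) (nat_lit 70) (nat_lit 0) (nat_lit 512)

theorem sb30 : AP.runP optN (fun k o => rIf (cnn k o) (symR PT.R k o) true) sbu30 = true := by decide +kernel

noncomputable def sbu31 : Pr := .mk (nat_lit 70) (nat_lit 76) (nat_lit 0) (nat_lit 512)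

theorem sb31 : AP.runP optN (fun k o => rIf (cnn k o) (symR PT.R k o) true) sbu31 = true := by decide +kernel


end Pool.Agent.Lib.MP_5854e1_co.Cz

namespace Pool.Agent.Lib.MP_5854e1_co.Cz

open Pool.Agent.Lib.MP_5854e1_co PB

noncomputable def sbu32 : Pr := .mk (nat_lit 76) (nat_lit 82) (nat_lit 0) (nat_lit 512)

theorem sb32 : AP.runP optN (fun k o => rIf (cnn k o) (symR PT.R k o) true) sbu32 = true := by decide +kernel

noncomputable def sbu33 : Pr := .mk (nat_lit 82) (nat_lit 88) (nat_lit 0) (nat_lit 512)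

theorem sb33 : AP.runP optN (fun k o => rIf (cnn k o) (symR PT.R k o) true) sbu33 = true := by decide +kernel

noncomputable def sbu34 : Pr := .mk (nat_lit 88) (nat_lit 94) (nat_lit 0) (nat_lit 512)

theorem sb34 : AP.runP optN (fun k o => rIf (cnn k o) (symR PT.R k o) true) sbu34 = true := by decide +kernel

noncomputable def sbu35 : Pr := .mk (nat_lit 94) (nat_lit 99) (nat_lit 0) (nat_lit 512)

theorem sb35 : AP.runP optN (fun k o => rIf (cnn k o) (symR PT.R k o) true) sbu35 = true := by decide +kernel

noncomputable def sbu36 : Pr := .mk (nat_lit 99) (nat_lit 101) (nat_lit 0) (nat_lit 512)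

theorem sb36 : AP.runP optN (fun k o => rIf (cnn k o) (symR PT.R k o) true) sbu36 = true := by decide +kernel


end Pool.Agent.Lib.MP_5854e1_co.Cz
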