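import Pool.Agent.Lib.MP_5854e1_co.Cz.Ca00
import Pool.Agent.Lib.MP_5854e1_co.Cz.Ca01
import Pool.Agent.Lib.MP_5854e1_co.Cz.Ca02
import Pool.Agent.Lib.MP_5854e1_co.Cz.Ca03
import Pool.Agent.Lib.MP_5854e1_co.Cz.Ca05
import Pool.Agent.Lib.MP_5854e1_co.Cz.Cp0
import Pool.Agent.Lib.MP_5854e1_co.Cz.Cs0
import Pool.Agent.Lib.MP_5854e1_co.Cz.Cs3
import Pool.Agent.Lib.MP_5854e1_co.Cz.Cl0

/-!
# The check of the values
-/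

set_option autoImplicit false
set_option maxRecDepth 100000
set_option deprecated.oldSectionVars true

namespace Pool.Agent.Lib.MP_5854e1_co.Cz

open Pool.Agent.Lib.MP_5854e1_co PB

theorem rows : ∀ k0 < 101, ∀ o0 < optN k0, PT.row (optA k0 o0 / 72) k0 o0 = true :=
  AP.rows_of_parts (L := [u0, u1, u2, u3, u4, u5, u6, u7, u8, u9, u10, u11, u12, u13, u14, u15, u16, u17, u18, u19, u20, u21, u22, u23, u24, u25, u26, u27, u28, u29, u30, u31, u32, u33, u34, u35, u36, u37, u38, u39, u40, u41, u42, u43, u44, u45, u46, u47, u48, u49, u50, u51, u52, u53, u54, u55, u56, u57]) (List.forall_mem_cons.2 ⟨cu0, (List.forall_mem_cons.2 ⟨cu1, (List.forall_mem_cons.2 ⟨cu2, (List.forall_mem_cons.2 ⟨cu3, (List.forall_mem_cons.2 ⟨cu4, (List.forall_mem_cons.2 ⟨cu5, (List.forall_mem_cons.2 ⟨cu6, (List.forall_mem_cons.2 ⟨cu7, (List.forall_mem_cons.2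 ⟨cu8, (List.forall_mem_cons.2 ⟨cu9, (List.forall_mem_cons.2 ⟨cu10, (List.forall_mem_cons.2 ⟨cu11, (List.forall_mem_cons.2 ⟨cu12, (List.forall_mem_cons.2 ⟨cu13, (List.forall_mem_cons.2 ⟨cu14, (List.forall_mem_cons.2 ⟨cu15, (List.forall_mem_cons.2 ⟨cu16, (List.forall_mem_cons.2 ⟨cu17, (List.forall_mem_cons.2 ⟨cu18, (List.forall_mem_cons.2 ⟨cu19, (List.forall_mem_cons.2 ⟨cu20, (List.forall_mem_cons.2 ⟨cu21, (List.forall_mem_cons.2 ⟨cu22, (List.forall_mem_cons.2 ⟨cu23, (List.forall_mem_cons.2 ⟨cu24, (List.forall_mem_cons.2 ⟨cu25, (List.forall_mem_cons.2 ⟨cu26, (List.forall_mem_cons.2 ⟨cu27, (List.forall_mem_cons.2 ⟨cu28, (List.forall_mem_cons.2 ⟨cu29, (List.forall_mem_cons.2 ⟨cu30, (List.forall_mem_cons.2 ⟨cu31, (List.forall_mem_cons.2 ⟨cu32, (List.forall_mem_cons.2 ⟨cu33, (List.forall_mem_cons.2 ⟨cu34, (List.forall_mem_cons.2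 ⟨cu35, (List.forall_mem_cons.2 ⟨cu36, (List.forall_mem_cons.2 ⟨cu37, (List.forall_mem_cons.2 ⟨cu38, (List.forall_mem_cons.2 ⟨cu39, (List.forall_mem_cons.2 ⟨cu40, (List.forall_mem_cons.2 ⟨cu41, (List.forall_mem_cons.2 ⟨cu42, (List.forall_mem_cons.2 ⟨cu43, (List.forall_mem_cons.2 ⟨cu44, (List.forall_mem_cons.2 ⟨cu45, (List.forall_mem_cons.2 ⟨cu46, (List.forall_mem_cons.2 ⟨cu47, (List.forall_mem_cons.2 ⟨cu48, (List.forall_mem_cons.2 ⟨cu49, (List.forall_mem_cons.2 ⟨cu50, (List.forall_mem_cons.2 ⟨cu51, (List.forall_mem_cons.2 ⟨cu52, (List.forall_mem_cons.2 ⟨cu53, (List.forall_mem_cons.2 ⟨cu54, (List.forall_mem_cons.2 ⟨cu55, (List.forall_mem_cons.2 ⟨cu56, (List.forall_mem_cons.2 ⟨cu57, List.forall_mem_nil _⟩)⟩)⟩)⟩)⟩)⟩)⟩)⟩)⟩)⟩)⟩)⟩)⟩)⟩)⟩)⟩)⟩)⟩)⟩)⟩)⟩)⟩)⟩)⟩)⟩)⟩)⟩)⟩)⟩)⟩)⟩)⟩)⟩)⟩)⟩)⟩)⟩)⟩)⟩)⟩)⟩)⟩)⟩)⟩)⟩)⟩)⟩)⟩)⟩)⟩)⟩)⟩)⟩)⟩)⟩)⟩)⟩)⟩) (by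 decide +kernel)

theorem cloT : ∀ k < 101, ∀ o < optN k, cloB PT.R nl PT.Pn RvT k o = true :=
  AP.pairs_of_parts (L := [clu0, clu1, clu2, clu3, clu4, clu5, clu6, clu7, clu8, clu9, clu10, clu11, clu12, clu13, clu14, clu15, clu16, clu17, clu18, clu19, clu20, clu21])
    (List.forall_mem_cons.2 ⟨cl0, (List.forall_mem_cons.2 ⟨cl1, (List.forall_mem_cons.2 ⟨cl2, (List.forall_mem_cons.2 ⟨cl3, (List.forall_mem_cons.2 ⟨cl4, (List.forall_mem_cons.2 ⟨cl5, (List.forall_mem_cons.2 ⟨cl6, (List.forall_mem_cons.2 ⟨cl7, (List.forall_mem_cons.2 ⟨cl8, (List.forall_mem_cons.2 ⟨cl9, (List.forall_mem_cons.2 ⟨cl10, (List.forall_mem_cons.2 ⟨cl11, (List.forall_mem_cons.2 ⟨cl12, (List.forall_mem_cons.2 ⟨cl13, (List.forall_mem_cons.2 ⟨cl14, (List.forall_mem_cons.2 ⟨cl15, (List.forall_mem_cons.2 ⟨cl16, (List.forall_mem_cons.2 ⟨cl17, (List.forall_mem_cons.2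 ⟨cl18, (List.forall_mem_cons.2 ⟨cl19, (List.forall_mem_cons.2 ⟨cl20, (List.forall_mem_cons.2 ⟨cl21, List.forall_mem_nil _⟩)⟩)⟩)⟩)⟩)⟩)⟩)⟩)⟩)⟩)⟩)⟩)⟩)⟩)⟩)⟩)⟩)⟩)⟩)⟩)⟩)⟩) (by decide +kernel)

theorem clo : ∀ k < 101, cloK PT.R nl PT.Pn RvT k = true := fun k hk => rAllN_iff.2 (cloT k hk)

theorem blkT : ∀ k < 101, ∀ o < optN k, (fun k o => rIf (cnn k o) (symR PT.R k o) true) k o = true :=
  AP.pairs_of_parts (L := [sbu0, sbu1, sbu2, sbu3, sbu4, sbu5, sbu6, sbu7, sbu8, sbu9, sbu10, sbu11, sbu12, sbu13, sbu14, sbu15, sbu16, sbu17, sbu18, sbu19, sbu20, sbu21, sbu22, sbu23, sbu24, sbu25, sbu26, sbu27, sbu28, sbu29, sbu30, sbu31, sbu32, sbu33, sbu34, sbu35, sbu36])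
    (List.forall_mem_cons.2 ⟨sb0, (List.forall_mem_cons.2 ⟨sb1, (List.forall_mem_cons.2 ⟨sb2, (List.forall_mem_cons.2 ⟨sb3, (List.forall_mem_cons.2 ⟨sb4, (List.forall_mem_cons.2 ⟨sb5, (List.forall_mem_cons.2 ⟨sb6, (List.forall_mem_cons.2 ⟨sb7, (List.forall_mem_cons.2 ⟨sb8, (List.forall_mem_cons.2 ⟨sb9, (List.forall_mem_cons.2 ⟨sb10, (List.forall_mem_cons.2 ⟨sb11, (List.forall_mem_cons.2 ⟨sb12, (List.forall_mem_cons.2 ⟨sb13, (List.forall_mem_cons.2 ⟨sb14, (List.forall_mem_cons.2 ⟨sb15, (List.forall_mem_cons.2 ⟨sb16, (List.forall_mem_cons.2 ⟨sb17, (List.forall_mem_cons.2 ⟨sb18, (List.forall_mem_cons.2 ⟨sb19, (List.forall_mem_cons.2 ⟨sb20, (List.forall_mem_cons.2 ⟨sb21, (List.forall_mem_cons.2 ⟨sb22, (List.forall_mem_cons.2 ⟨sb23, (List.forall_mem_cons.2 ⟨sb24, (List.forall_mem_cons.2 ⟨sb25, (List.forall_mem_cons.2 ⟨sb26,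 (List.forall_mem_cons.2 ⟨sb27, (List.forall_mem_cons.2 ⟨sb28, (List.forall_mem_cons.2 ⟨sb29, (List.forall_mem_cons.2 ⟨sb30, (List.forall_mem_cons.2 ⟨sb31, (List.forall_mem_cons.2 ⟨sb32, (List.forall_mem_cons.2 ⟨sb33, (List.forall_mem_cons.2 ⟨sb34, (List.forall_mem_cons.2 ⟨sb35, (List.forall_mem_cons.2 ⟨sb36, List.forall_mem_nil _⟩)⟩)⟩)⟩)⟩)⟩)⟩)⟩)⟩)⟩)⟩)⟩)⟩)⟩)⟩)⟩)⟩)⟩)⟩)⟩)⟩)⟩)⟩)⟩)⟩)⟩)⟩)⟩)⟩)⟩)⟩)⟩)⟩)⟩)⟩)⟩)⟩) (by decide +kernel)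

theorem syW : ∀ k < 101, symVK PT.PW k = true := fun k hk => AP.rgN_sound symPW (Nat.zero_le k) hk

theorem syS : ∀ k < 101, symVK SPT k = true := fun k hk => AP.rgN_sound symSP (Nat.zero_le k) hk

theorem chk : PT.Chk RvT where
  clo := clo
  row := rows
  pr := fun k hk => if h0 : k < 8 then AP.rgN_sound pr0 (by omega) h0 else AP.rgN_sound pr1 (by omega) hk
  u6 := by decide +kernel
  u6' := by decide +kernel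

theorem sym : PT.Sym where
  blk := fun k hk => rAllN_iff.2 (blkT k hk)
  need := fun k hk => AP.rgN_sound symN (by omega) hk
  gau := fun k hk => AP.rgN_sound symG (by omega) hk
  ph := fun k hk => AP.rgN_sound symH (by omega) hk
  ps := symP
  q := fun k hk => AP.rgN_sound symQT (by omega) hk


end Pool.Agent.Lib.MP_5854e1_co.Cz
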