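import Pool.Agent.Lib.MP_5854e1_co.RwD

/-!
# The bounds of the corrections
-/

set_option autoImplicit false
set_option maxRecDepth 100000

namespace Pool.Agent.Lib.MP_5854e1_co.Cz

noncomputable section

noncomputable def mt0 : Ix Nat := (.node (.node (.node (.node (.node (.node (.node (.node (.node 
(.leaf (nat_lit 0x2e5)) (.leaf (nat_lit 0x48000))) (.node (.leaf (nat_lit 0)) 
(.leaf (nat_lit 0x33)))) (.node (.node (.leaf (nat_lit 0x204c7fc)) 
(.leaf (nat_lit 0x4100f00000000015))) (.leaf (nat_lit 0x9)))) (.node (.node (.node 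
(.leaf (nat_lit 0x9807600008400ab40001080958)) (.leaf (nat_lit 0))) (.leaf (nat_lit 0x4c000))) 
(.node (.node (.leaf (nat_lit 0xa6035c000)) (.leaf (nat_lit 0))) (.leaf (nat_lit 0x3b))))) (.node 
(.node (.node (.node (.leaf (nat_lit 0xd8)) (.leaf (nat_lit 0x29))) (.node (.leaf (nat_lit 0)) 
(.leaf (nat_lit 0)))) (.node (.node (.leaf (nat_lit 0)) (.leaf (nat_lit 0))) 
(.leaf (nat_lit 0x128000)))) (.node (.node (.node (.leaf (nat_lit 0xaa0000000)) 
(.leaf (nat_lit 0x19fc000))) (.leaf (nat_lit 0))) (.node (.node (.leaf (nat_lit 0)) 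
(.leaf (nat_lit 0x100000))) (.leaf (nat_lit 0)))))) (.node (.node (.node (.node (.node 
(.leaf (nat_lit 0x66)) (.leaf (nat_lit 0))) (.node (.leaf (nat_lit 0)) 
(.leaf (nat_lit 0x27c875f)))) (.node (.node (.leaf (nat_lit 0)) (.leaf (nat_lit 0))) 
(.leaf (nat_lit 0x9bc7b4)))) (.node (.node (.node (.leaf (nat_lit 0xb)) (.leaf (nat_lit 0))) 
(.leaf (nat_lit 0x7018b))) (.node (.node (.leaf (nat_lit 0xe47a4)) (.leaf (nat_lit 0x795))) 
(.leaf (nat_lit 0))))) (.node (.node (.node (.node (.leaf (nat_lit 0x24e07f8a7c)) 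
(.leaf (nat_lit 0x29))) (.node (.leaf (nat_lit 0x15837f)) (.leaf (nat_lit 0)))) (.node (.node 
(.leaf (nat_lit 0x222c6a1)) (.leaf (nat_lit 0x35c0a8))) (.leaf (nat_lit 0x1d4c19c)))) (.node (.node 
(.node (.leaf (nat_lit 0)) (.leaf (nat_lit 0xe390958000361881d))) (.leaf (nat_lit 0))) (.node 
(.node (.leaf (nat_lit 0xeb0000)) (.leaf (nat_lit 0))) (.leaf (nat_lit 0x48000))))))) (.node (.node 
(.node (.node (.node (.node (.leaf (nat_lit 0x370000)) (.leaf (nat_lit 0))) (.node 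
(.leaf (nat_lit 0x128000)) (.leaf (nat_lit 0x6b0000000184c06b184c0cc)))) (.node (.node 
(.leaf (nat_lit 0)) (.leaf (nat_lit 0))) (.leaf (nat_lit 0)))) (.node (.node (.node 
(.leaf (nat_lit 0xbe84bc)) (.leaf (nat_lit 0))) (.leaf (nat_lit 0x222c6a1))) (.node (.node 
(.leaf (nat_lit 0)) (.leaf (nat_lit 0))) (.leaf (nat_lit 0x4c3))))) (.node (.node (.node (.node 
(.leaf (nat_lit 0x1ac)) (.leaf (nat_lit 0))) (.node (.leaf (nat_lit 0)) 
(.leaf (nat_lit 0xd3c381)))) (.node (.node (.leaf (nat_lit 0x4c000)) (.leaf (nat_lit 0))) 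
(.leaf (nat_lit 0)))) (.node (.node (.node (.leaf (nat_lit 0)) (.leaf (nat_lit 0))) 
(.leaf (nat_lit 0x17acbf7))) (.node (.node (.leaf (nat_lit 0x9)) (.leaf (nat_lit 0))) 
(.leaf (nat_lit 0x1800a)))))) (.node (.node (.node (.node (.node (.leaf (nat_lit 0x41)) 
(.leaf (nat_lit 0))) (.node (.leaf (nat_lit 0x170000)) (.leaf (nat_lit 0)))) (.node (.node 
(.leaf (nat_lit 0x1)) (.leaf (nat_lit 0xe393618000095881d))) (.leaf (nat_lit 0)))) (.node (.node 
(.node (.leaf (nat_lit 0x1b047e0)) (.leaf (nat_lit 0x21201ff))) (.leaf (nat_lit 0xa6035c000))) 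
(.node (.node (.leaf (nat_lit 0)) (.leaf (nat_lit 0xe80e6))) (.leaf (nat_lit 0))))) (.node (.node 
(.node (.node (.leaf (nat_lit 0xb44438)) (.leaf (nat_lit 0))) (.node (.leaf (nat_lit 0)) 
(.leaf (nat_lit 0x3c)))) (.node (.node (.leaf (nat_lit 0x7018b)) (.leaf (nat_lit 0xc407d0))) 
(.leaf (nat_lit 0xdd80261f50000)))) (.node (.node (.node (.leaf (nat_lit 0xce)) 
(.leaf (nat_lit 0))) (.leaf (nat_lit 0))) (.node (.node (.leaf (nat_lit 0x3504e4)) 
(.leaf (nat_lit 0x4ea))) (.leaf (nat_lit 0)))))))) (.node (.node (.node (.node (.node (.node (.node 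
(.leaf (nat_lit 0x8bf)) (.leaf (nat_lit 0))) (.node (.leaf (nat_lit 0)) (.leaf (nat_lit 0)))) 
(.node (.node (.leaf (nat_lit 0)) (.leaf (nat_lit 0x53c014))) (.leaf (nat_lit 0)))) (.node (.node 
(.node (.leaf (nat_lit 0xe9f14f02610270a58)) (.leaf (nat_lit 0))) (.leaf (nat_lit 0x17))) (.node 
(.node (.leaf (nat_lit 0x1f101c1)) (.leaf (nat_lit 0))) (.leaf (nat_lit 0))))) (.node (.node (.node 
(.node (.leaf (nat_lit 0)) (.leaf (nat_lit 0))) (.node (.leaf (nat_lit 0)) 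
(.leaf (nat_lit 0x4105f41a305f51ab285c1a3285c85f)))) (.node (.node (.leaf (nat_lit 0x354000)) 
(.leaf (nat_lit 0))) (.leaf (nat_lit 0xa0000)))) (.node (.node (.node (.leaf (nat_lit 0xaa0000000)) 
(.leaf (nat_lit 0x4100f00000000015))) (.leaf (nat_lit 0xe47a4))) (.node (.node 
(.leaf (nat_lit 0x4b)) (.leaf (nat_lit 0))) (.leaf (nat_lit 0x1800a)))))) (.node (.node (.node 
(.node (.node (.leaf (nat_lit 0x29c000)) (.leaf (nat_lit 0))) (.node (.leaf (nat_lit 0)) 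
(.leaf (nat_lit 0)))) (.node (.node (.leaf (nat_lit 0x127)) (.leaf (nat_lit 0x10430e))) 
(.leaf (nat_lit 0x3504e4)))) (.node (.node (.node (.leaf (nat_lit 0)) 
(.leaf (nat_lit 0xe390958000361881d))) (.leaf (nat_lit 0x7c0331))) (.node (.node 
(.leaf (nat_lit 0x148000)) (.leaf (nat_lit 0x2204daa))) (.leaf (nat_lit 0))))) (.node (.node (.node 
(.node (.leaf (nat_lit 0x11e08da)) (.leaf (nat_lit 0))) (.node (.leaf (nat_lit 0x315)) 
(.leaf (nat_lit 0)))) (.node (.node (.leaf (nat_lit 0xbb2a90e7e)) (.leaf (nat_lit 0x5c0224000))) 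
(.leaf (nat_lit 0x3e)))) (.node (.node (.node (.leaf (nat_lit 0)) (.leaf (nat_lit 0x21201ff))) 
(.leaf (nat_lit 0x1238000))) (.node (.node (.leaf (nat_lit 0)) (.leaf (nat_lit 0))) 
(.leaf (nat_lit 0))))))) (.node (.node (.node (.node (.node (.node (.leaf (nat_lit 0)) 
(.leaf (nat_lit 0))) (.node (.leaf (nat_lit 0xa0000)) (.leaf (nat_lit 0x55b8802)))) (.node (.node 
(.leaf (nat_lit 0)) (.leaf (nat_lit 0))) (.leaf (nat_lit 0xeb0000)))) (.node (.node (.node 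
(.leaf (nat_lit 0)) (.leaf (nat_lit 0))) (.leaf (nat_lit 0xbb2a90e7e))) (.node (.node 
(.leaf (nat_lit 0x17acbf7)) (.leaf (nat_lit 0))) (.leaf (nat_lit 0))))) (.node (.node (.node (.node 
(.leaf (nat_lit 0xa8a2b44000056ce2a)) (.leaf (nat_lit 0))) (.node (.leaf (nat_lit 0x265)) 
(.leaf (nat_lit 0x17118b8706)))) (.node (.node (.leaf (nat_lit 0x2a8270)) (.leaf (nat_lit 0))) 
(.leaf (nat_lit 0)))) (.node (.node (.node (.leaf (nat_lit 0)) (.leaf (nat_lit 0x53c014))) 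
(.leaf (nat_lit 0x148000))) (.node (.node (.leaf (nat_lit 0)) (.leaf (nat_lit 0))) 
(.leaf (nat_lit 0)))))) (.node (.node (.node (.node (.node (.leaf (nat_lit 0x5d8031)) 
(.leaf (nat_lit 0))) (.node (.leaf (nat_lit 0x8b80000000093)) (.leaf (nat_lit 0)))) (.node (.node 
(.leaf (nat_lit 0)) (.leaf (nat_lit 0xf5813e))) (.leaf (nat_lit 0)))) (.node (.node (.node 
(.leaf (nat_lit 0x1b047e0)) (.leaf (nat_lit 0))) (.leaf (nat_lit 0x1f101c1))) (.node (.node 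
(.leaf (nat_lit 0x1238000)) (.leaf (nat_lit 0))) (.leaf (nat_lit 0))))) (.node (.node (.node (.node 
(.leaf (nat_lit 0x169)) (.leaf (nat_lit 0))) (.node (.leaf (nat_lit 0x354000)) 
(.leaf (nat_lit 0)))) (.node (.node (.leaf (nat_lit 0x7c0331)) (.leaf (nat_lit 0))) 
(.leaf (nat_lit 0x106)))) (.node (.node (.node (.leaf (nat_lit 0xce)) (.leaf (nat_lit 0x19fc000))) 
(.leaf (nat_lit 0x4b))) (.node (.node (.leaf (nat_lit 0x9bc7b4)) 
(.leaf (nat_lit 0x41000000000f0015))) (.leaf (nat_lit 0))))))))) (.node (.node (.node (.node (.node 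
(.node (.node (.node (.leaf (nat_lit 0x29c000)) (.leaf (nat_lit 0))) (.node 
(.leaf (nat_lit 0x768000)) (.leaf (nat_lit 0)))) (.node (.node (.leaf (nat_lit 0x127)) 
(.leaf (nat_lit 0x364000))) (.leaf (nat_lit 0x2400000000000)))) (.node (.node (.node 
(.leaf (nat_lit 0xa8a2b44000056ce2a)) (.leaf (nat_lit 0))) (.leaf (nat_lit 0x2a8270))) (.node 
(.node (.leaf (nat_lit 0)) (.leaf (nat_lit 0))) (.leaf (nat_lit 0x170000))))) (.node (.node (.node 
(.node (.leaf (nat_lit 0x66)) (.leaf (nat_lit 0))) (.node (.leaf (nat_lit 0)) (.leaf (nat_lit 0)))) 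
(.node (.node (.leaf (nat_lit 0xc16540001654588)) (.leaf (nat_lit 0x41000000000f0015))) 
(.leaf (nat_lit 0)))) (.node (.node (.node (.leaf (nat_lit 0)) (.leaf (nat_lit 0))) 
(.leaf (nat_lit 0))) (.node (.node (.leaf (nat_lit 0)) (.leaf (nat_lit 0x3c))) 
(.leaf (nat_lit 0x37)))))) (.node (.node (.node (.node (.node (.leaf (nat_lit 0)) 
(.leaf (nat_lit 0))) (.node (.leaf (nat_lit 0)) (.leaf (nat_lit 0xc407d0)))) (.node (.node 
(.leaf (nat_lit 0x204c7fc)) (.leaf (nat_lit 0))) (.leaf (nat_lit 0)))) (.node (.node (.node 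
(.leaf (nat_lit 0xcd3000000000001a2)) (.leaf (nat_lit 0))) (.leaf (nat_lit 0x45814d))) (.node 
(.node (.leaf (nat_lit 0xe58000)) (.leaf (nat_lit 0x17118b8706))) (.leaf (nat_lit 0))))) (.node 
(.node (.node (.node (.leaf (nat_lit 0xbe84bc)) (.leaf (nat_lit 0))) (.node 
(.leaf (nat_lit 0xdd80261f50000)) (.leaf (nat_lit 0xe80e6)))) (.node (.node 
(.leaf (nat_lit 0x2198509)) (.leaf (nat_lit 0x55b8802))) (.leaf (nat_lit 0x265)))) (.node (.node 
(.node (.leaf (nat_lit 0)) (.leaf (nat_lit 0x343c033))) (.leaf (nat_lit 0))) (.node (.node 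
(.leaf (nat_lit 0x11d400006480ae)) (.leaf (nat_lit 0xe393618000095881d))) (.leaf (nat_lit 0))))))) 
(.node (.node (.node (.node (.node (.node (.leaf (nat_lit 0x5d8031)) (.leaf (nat_lit 0))) (.node 
(.leaf (nat_lit 0)) (.leaf (nat_lit 0x35c0a8)))) (.node (.node (.leaf (nat_lit 0)) 
(.leaf (nat_lit 0x50000))) (.leaf (nat_lit 0x4c88185ab82e41bb0000)))) (.node (.node (.node 
(.leaf (nat_lit 0x11e08da)) (.leaf (nat_lit 0))) (.leaf (nat_lit 0x2198509))) (.node (.node 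
(.leaf (nat_lit 0)) (.leaf (nat_lit 0x4105f41a305f51ab285c1a3285c85f))) (.leaf (nat_lit 0))))) 
(.node (.node (.node (.node (.leaf (nat_lit 0x9807600008400ab40001080958)) (.leaf (nat_lit 0))) 
(.node (.leaf (nat_lit 0x1d4c19c)) (.leaf (nat_lit 0x795)))) (.node (.node (.leaf (nat_lit 0x17)) 
(.leaf (nat_lit 0x33))) (.leaf (nat_lit 0x76)))) (.node (.node (.node (.leaf (nat_lit 0)) 
(.leaf (nat_lit 0x50000))) (.leaf (nat_lit 0xa883ba))) (.node (.node 
(.leaf (nat_lit 0x2400000000000)) (.leaf (nat_lit 0x10430e))) (.leaf (nat_lit 0x5c000005c000)))))) 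
(.node (.node (.node (.node (.node (.leaf (nat_lit 0x370000)) (.leaf (nat_lit 0))) (.node 
(.leaf (nat_lit 0)) (.leaf (nat_lit 0)))) (.node (.node (.leaf (nat_lit 0)) 
(.leaf (nat_lit 0x4ea))) (.leaf (nat_lit 0x768000)))) (.node (.node (.node 
(.leaf (nat_lit 0xcb80c200a01f70232)) (.leaf (nat_lit 0x45a017f))) (.leaf (nat_lit 0))) (.node 
(.node (.leaf (nat_lit 0)) (.leaf (nat_lit 0))) (.leaf (nat_lit 0x3e0000))))) (.node (.node (.node 
(.node (.leaf (nat_lit 0xb)) (.leaf (nat_lit 0x35c0db))) (.node (.leaf (nat_lit 0xc16540001654588)) 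
(.leaf (nat_lit 0)))) (.node (.node (.leaf (nat_lit 0x45814d)) (.leaf (nat_lit 0))) 
(.leaf (nat_lit 0x315)))) (.node (.node (.node (.leaf (nat_lit 0x53)) (.leaf (nat_lit 0x5c))) 
(.leaf (nat_lit 0))) (.node (.node (.leaf (nat_lit 0)) (.leaf (nat_lit 0xf5813e))) 
(.leaf (nat_lit 0)))))))) (.node (.node (.node (.node (.node (.node (.node (.leaf (nat_lit 0x41)) 
(.leaf (nat_lit 0))) (.node (.leaf (nat_lit 0)) (.leaf (nat_lit 0)))) (.node (.node 
(.leaf (nat_lit 0x1)) (.leaf (nat_lit 0x5000e))) (.leaf (nat_lit 0x11d400006480ae)))) (.node (.node 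
(.node (.leaf (nat_lit 0x24e07f8a7c)) (.leaf (nat_lit 0))) (.leaf (nat_lit 0x1f48233))) (.node 
(.node (.leaf (nat_lit 0)) (.leaf (nat_lit 0))) (.leaf (nat_lit 0x8b80000000093))))) (.node (.node 
(.node (.node (.leaf (nat_lit 0x169)) (.leaf (nat_lit 0))) (.node (.leaf (nat_lit 0)) 
(.leaf (nat_lit 0)))) (.node (.node (.leaf (nat_lit 0)) (.leaf (nat_lit 0))) (.leaf (nat_lit 0)))) 
(.node (.node (.node (.leaf (nat_lit 0)) (.leaf (nat_lit 0x364000))) (.leaf (nat_lit 0xe58000))) 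
(.node (.node (.leaf (nat_lit 0x2bc467c)) (.leaf (nat_lit 0))) (.leaf (nat_lit 0x37)))))) (.node 
(.node (.node (.node (.node (.leaf (nat_lit 0x8bf)) (.leaf (nat_lit 0))) (.node 
(.leaf (nat_lit 0x3b)) (.leaf (nat_lit 0)))) (.node (.node (.leaf (nat_lit 0)) (.leaf (nat_lit 0))) 
(.leaf (nat_lit 0)))) (.node (.node (.node (.leaf (nat_lit 0xcb80c200a01f70232)) 
(.leaf (nat_lit 0x343c033))) (.leaf (nat_lit 0x1250000))) (.node (.node (.leaf (nat_lit 0)) 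
(.leaf (nat_lit 0))) (.leaf (nat_lit 0x3e0000))))) (.node (.node (.node (.node (.leaf (nat_lit 0)) 
(.leaf (nat_lit 0x35c0db))) (.node (.leaf (nat_lit 0x106)) (.leaf (nat_lit 0)))) (.node (.node 
(.leaf (nat_lit 0xadc000)) (.leaf (nat_lit 0x27c875f))) (.leaf (nat_lit 0x15837f)))) (.node (.node 
(.node (.leaf (nat_lit 0x53)) (.leaf (nat_lit 0x45a017f))) (.leaf (nat_lit 0x3200a68000))) (.node 
(.node (.leaf (nat_lit 0)) (.leaf (nat_lit 0))) (.leaf (nat_lit 0x5c000005c000))))))) (.node (.node 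
(.node (.node (.node (.node (.leaf (nat_lit 0xd8)) (.leaf (nat_lit 0))) (.node 
(.leaf (nat_lit 0x76)) (.leaf (nat_lit 0x5c0224000)))) (.node (.node (.leaf (nat_lit 0)) 
(.leaf (nat_lit 0))) (.leaf (nat_lit 0)))) (.node (.node (.node (.leaf (nat_lit 0xb44438)) 
(.leaf (nat_lit 0))) (.leaf (nat_lit 0xadc000))) (.node (.node (.leaf (nat_lit 0xa883ba)) 
(.leaf (nat_lit 0xd3c381))) (.leaf (nat_lit 0))))) (.node (.node (.node (.node 
(.leaf (nat_lit 0xe9f14f02610270a58)) (.leaf (nat_lit 0x84000))) (.node (.leaf (nat_lit 0x3e)) 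
(.leaf (nat_lit 0x2204daa)))) (.node (.node (.leaf (nat_lit 0x1f48233)) 
(.leaf (nat_lit 0x6b0000000184c06b184c0cc))) (.leaf (nat_lit 0)))) (.node (.node (.node 
(.leaf (nat_lit 0)) (.leaf (nat_lit 0x5000e))) (.leaf (nat_lit 0))) (.node (.node 
(.leaf (nat_lit 0x4c88185ab82e41bb0000)) (.leaf (nat_lit 0))) (.leaf (nat_lit 0x8000)))))) (.node 
(.node (.node (.node (.node (.leaf (nat_lit 0)) (.leaf (nat_lit 0x84000))) (.node 
(.leaf (nat_lit 0x4c3)) (.leaf (nat_lit 0)))) (.node (.node (.leaf (nat_lit 0)) 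
(.leaf (nat_lit 0))) (.leaf (nat_lit 0)))) (.node (.node (.node (.leaf (nat_lit 0)) 
(.leaf (nat_lit 0x5c))) (.leaf (nat_lit 0))) (.node (.node (.leaf (nat_lit 0x3200a68000)) 
(.leaf (nat_lit 0))) (.leaf (nat_lit 0))))) (.node (.node (.node (.node (.leaf (nat_lit 0x1ac)) 
(.leaf (nat_lit 0))) (.node (.leaf (nat_lit 0)) (.leaf (nat_lit 0x100000)))) (.node (.node 
(.leaf (nat_lit 0x1250000)) (.leaf (nat_lit 0))) (.leaf (nat_lit 0)))) (.node (.node (.node 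
(.leaf (nat_lit 0)) (.leaf (nat_lit 0))) (.leaf (nat_lit 0x2bc467c))) (.node (.node 
(.leaf (nat_lit 0)) (.leaf (nat_lit 0))) (.leaf (nat_lit 0x8000))))))))))
noncomputable def mt1 : Ix Nat := (.node (.node (.node (.node (.node (.node (.node (.node (.node 
(.leaf (nat_lit 0x3540000000000)) (.leaf (nat_lit 0))) (.leaf (nat_lit 0))) (.node 
(.leaf (nat_lit 0x9b)) (.leaf (nat_lit 0)))) (.node (.node (.leaf (nat_lit 0)) (.leaf (nat_lit 0))) 
(.node (.leaf (nat_lit 0)) (.leaf (nat_lit 0))))) (.node (.node (.node (.leaf (nat_lit 0)) 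
(.leaf (nat_lit 0))) (.node (.leaf (nat_lit 0)) (.leaf (nat_lit 0)))) (.node (.node 
(.leaf (nat_lit 0)) (.leaf (nat_lit 0))) (.node (.leaf (nat_lit 0)) (.leaf (nat_lit 0x1c5)))))) 
(.node (.node (.node (.node (.leaf (nat_lit 0)) (.leaf (nat_lit 0))) (.node (.leaf (nat_lit 0)) 
(.leaf (nat_lit 0)))) (.node (.node (.leaf (nat_lit 0)) (.leaf (nat_lit 0))) (.node 
(.leaf (nat_lit 0)) (.leaf (nat_lit 0))))) (.node (.node (.node (.leaf (nat_lit 0)) 
(.leaf (nat_lit 0))) (.node (.leaf (nat_lit 0)) (.leaf (nat_lit 0)))) (.node (.node 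
(.leaf (nat_lit 0)) (.leaf (nat_lit 0))) (.node (.leaf (nat_lit 0)) (.leaf (nat_lit 0))))))) (.node 
(.node (.node (.node (.node (.node (.leaf (nat_lit 0)) (.leaf (nat_lit 0))) (.leaf (nat_lit 0))) 
(.node (.leaf (nat_lit 0)) (.leaf (nat_lit 0x115)))) (.node (.node (.leaf (nat_lit 0)) 
(.leaf (nat_lit 0))) (.node (.leaf (nat_lit 0)) (.leaf (nat_lit 0x234))))) (.node (.node (.node 
(.leaf (nat_lit 0)) (.leaf (nat_lit 0))) (.node (.leaf (nat_lit 0)) (.leaf (nat_lit 0)))) (.node 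
(.node (.leaf (nat_lit 0)) (.leaf (nat_lit 0x343c0000000033))) (.node (.leaf (nat_lit 0)) 
(.leaf (nat_lit 0)))))) (.node (.node (.node (.node (.leaf (nat_lit 0)) (.leaf (nat_lit 0))) (.node 
(.leaf (nat_lit 0)) (.leaf (nat_lit 0)))) (.node (.node (.leaf (nat_lit 0)) (.leaf (nat_lit 0))) 
(.node (.leaf (nat_lit 0)) (.leaf (nat_lit 0))))) (.node (.node (.node (.leaf (nat_lit 0)) 
(.leaf (nat_lit 0))) (.node (.leaf (nat_lit 0)) (.leaf (nat_lit 0)))) (.node (.node 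
(.leaf (nat_lit 0x192)) (.leaf (nat_lit 0))) (.node (.leaf (nat_lit 0)) (.leaf (nat_lit 0)))))))) 
(.node (.node (.node (.node (.node (.node (.node (.leaf (nat_lit 0)) (.leaf (nat_lit 0))) 
(.leaf (nat_lit 0))) (.node (.leaf (nat_lit 0x8c)) (.leaf (nat_lit 0x4d0)))) (.node (.node 
(.leaf (nat_lit 0)) (.leaf (nat_lit 0))) (.node (.leaf (nat_lit 0)) (.leaf (nat_lit 0xb))))) (.node 
(.node (.node (.leaf (nat_lit 0x12)) (.leaf (nat_lit 0))) (.node (.leaf (nat_lit 0)) 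
(.leaf (nat_lit 0x297)))) (.node (.node (.leaf (nat_lit 0)) (.leaf (nat_lit 0))) (.node 
(.leaf (nat_lit 0)) (.leaf (nat_lit 0)))))) (.node (.node (.node (.node (.leaf (nat_lit 0)) 
(.leaf (nat_lit 0))) (.node (.leaf (nat_lit 0)) (.leaf (nat_lit 0)))) (.node (.node 
(.leaf (nat_lit 0)) (.leaf (nat_lit 0))) (.node (.leaf (nat_lit 0)) (.leaf (nat_lit 0))))) (.node 
(.node (.node (.leaf (nat_lit 0)) (.leaf (nat_lit 0))) (.node (.leaf (nat_lit 0)) 
(.leaf (nat_lit 0)))) (.node (.node (.leaf (nat_lit 0)) (.leaf (nat_lit 0))) (.node 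
(.leaf (nat_lit 0)) (.leaf (nat_lit 0x35c00000000a8))))))) (.node (.node (.node (.node (.node 
(.node (.leaf (nat_lit 0)) (.leaf (nat_lit 0))) (.leaf (nat_lit 0))) (.node (.leaf (nat_lit 0)) 
(.leaf (nat_lit 0)))) (.node (.node (.leaf (nat_lit 0)) (.leaf (nat_lit 0))) (.node 
(.leaf (nat_lit 0)) (.leaf (nat_lit 0x3640000000000))))) (.node (.node (.node (.leaf (nat_lit 0)) 
(.leaf (nat_lit 0))) (.node (.leaf (nat_lit 0)) (.leaf (nat_lit 0)))) (.node (.node 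
(.leaf (nat_lit 0)) (.leaf (nat_lit 0))) (.node (.leaf (nat_lit 0)) (.leaf (nat_lit 0)))))) (.node 
(.node (.node (.node (.leaf (nat_lit 0)) (.leaf (nat_lit 0))) (.node (.leaf (nat_lit 0)) 
(.leaf (nat_lit 0)))) (.node (.node (.leaf (nat_lit 0)) (.leaf (nat_lit 0))) (.node 
(.leaf (nat_lit 0)) (.leaf (nat_lit 0))))) (.node (.node (.node (.leaf (nat_lit 0)) 
(.leaf (nat_lit 0))) (.node (.leaf (nat_lit 0)) (.leaf (nat_lit 0)))) (.node (.node 
(.leaf (nat_lit 0)) (.leaf (nat_lit 0x101))) (.node (.leaf (nat_lit 0)) (.leaf (nat_lit 0))))))))) 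
(.node (.node (.node (.node (.node (.node (.node (.node (.leaf (nat_lit 0)) (.leaf (nat_lit 0))) 
(.leaf (nat_lit 0))) (.node (.leaf (nat_lit 0)) (.leaf (nat_lit 0)))) (.node (.node 
(.leaf (nat_lit 0)) (.leaf (nat_lit 0))) (.node (.leaf (nat_lit 0)) 
(.leaf (nat_lit 0x343c0000000033))))) (.node (.node (.node (.leaf (nat_lit 0)) (.leaf (nat_lit 0))) 
(.node (.leaf (nat_lit 0)) (.leaf (nat_lit 0)))) (.node (.node (.leaf (nat_lit 0)) 
(.leaf (nat_lit 0))) (.node (.leaf (nat_lit 0)) (.leaf (nat_lit 0x115)))))) (.node (.node (.node 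
(.node (.leaf (nat_lit 0)) (.leaf (nat_lit 0))) (.node (.leaf (nat_lit 0)) (.leaf (nat_lit 0)))) 
(.node (.node (.leaf (nat_lit 0)) (.leaf (nat_lit 0))) (.node (.leaf (nat_lit 0)) 
(.leaf (nat_lit 0x101))))) (.node (.node (.node (.leaf (nat_lit 0)) (.leaf (nat_lit 0))) (.node 
(.leaf (nat_lit 0)) (.leaf (nat_lit 0)))) (.node (.node (.leaf (nat_lit 0)) 
(.leaf (nat_lit 0x3640000000000))) (.node (.leaf (nat_lit 0)) (.leaf (nat_lit 0))))))) (.node 
(.node (.node (.node (.node (.node (.leaf (nat_lit 0)) (.leaf (nat_lit 0))) (.leaf (nat_lit 0))) 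
(.node (.leaf (nat_lit 0)) (.leaf (nat_lit 0)))) (.node (.node (.leaf (nat_lit 0)) 
(.leaf (nat_lit 0))) (.node (.leaf (nat_lit 0)) (.leaf (nat_lit 0))))) (.node (.node (.node 
(.leaf (nat_lit 0)) (.leaf (nat_lit 0))) (.node (.leaf (nat_lit 0)) (.leaf (nat_lit 0)))) (.node 
(.node (.leaf (nat_lit 0)) (.leaf (nat_lit 0x234))) (.node (.leaf (nat_lit 0)) 
(.leaf (nat_lit 0)))))) (.node (.node (.node (.node (.leaf (nat_lit 0x8c)) (.leaf (nat_lit 0))) 
(.node (.leaf (nat_lit 0)) (.leaf (nat_lit 0x35c00000000a8)))) (.node (.node (.leaf (nat_lit 0)) 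
(.leaf (nat_lit 0))) (.node (.leaf (nat_lit 0)) (.leaf (nat_lit 0))))) (.node (.node (.node 
(.leaf (nat_lit 0)) (.leaf (nat_lit 0))) (.node (.leaf (nat_lit 0)) (.leaf (nat_lit 0)))) (.node 
(.node (.leaf (nat_lit 0)) (.leaf (nat_lit 0))) (.node (.leaf (nat_lit 0)) 
(.leaf (nat_lit 0)))))))) (.node (.node (.node (.node (.node (.node (.node (.leaf (nat_lit 0)) 
(.leaf (nat_lit 0))) (.leaf (nat_lit 0))) (.node (.leaf (nat_lit 0)) (.leaf (nat_lit 0x1c5)))) 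
(.node (.node (.leaf (nat_lit 0)) (.leaf (nat_lit 0))) (.node (.leaf (nat_lit 0)) 
(.leaf (nat_lit 0))))) (.node (.node (.node (.leaf (nat_lit 0)) (.leaf (nat_lit 0))) (.node 
(.leaf (nat_lit 0)) (.leaf (nat_lit 0)))) (.node (.node (.leaf (nat_lit 0x3540000000000)) 
(.leaf (nat_lit 0))) (.node (.leaf (nat_lit 0)) (.leaf (nat_lit 0)))))) (.node (.node (.node (.node 
(.leaf (nat_lit 0)) (.leaf (nat_lit 0))) (.node (.leaf (nat_lit 0)) (.leaf (nat_lit 0)))) (.node 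
(.node (.leaf (nat_lit 0)) (.leaf (nat_lit 0))) (.node (.leaf (nat_lit 0)) (.leaf (nat_lit 0))))) 
(.node (.node (.node (.leaf (nat_lit 0)) (.leaf (nat_lit 0))) (.node (.leaf (nat_lit 0)) 
(.leaf (nat_lit 0)))) (.node (.node (.leaf (nat_lit 0)) (.leaf (nat_lit 0))) (.node 
(.leaf (nat_lit 0)) (.leaf (nat_lit 0))))))) (.node (.node (.node (.node (.node (.node 
(.leaf (nat_lit 0x192)) (.leaf (nat_lit 0))) (.leaf (nat_lit 0))) (.node (.leaf (nat_lit 0x12)) 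
(.leaf (nat_lit 0)))) (.node (.node (.leaf (nat_lit 0)) (.leaf (nat_lit 0))) (.node 
(.leaf (nat_lit 0)) (.leaf (nat_lit 0))))) (.node (.node (.node (.leaf (nat_lit 0)) 
(.leaf (nat_lit 0))) (.node (.leaf (nat_lit 0)) (.leaf (nat_lit 0)))) (.node (.node 
(.leaf (nat_lit 0)) (.leaf (nat_lit 0xb))) (.node (.leaf (nat_lit 0)) (.leaf (nat_lit 0)))))) 
(.node (.node (.node (.node (.leaf (nat_lit 0x9b)) (.leaf (nat_lit 0))) (.node (.leaf (nat_lit 0)) 
(.leaf (nat_lit 0)))) (.node (.node (.leaf (nat_lit 0)) (.leaf (nat_lit 0))) (.node 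
(.leaf (nat_lit 0)) (.leaf (nat_lit 0x4d0))))) (.node (.node (.node (.leaf (nat_lit 0)) 
(.leaf (nat_lit 0))) (.node (.leaf (nat_lit 0)) (.leaf (nat_lit 0)))) (.node (.node 
(.leaf (nat_lit 0)) (.leaf (nat_lit 0))) (.node (.leaf (nat_lit 0)) (.leaf (nat_lit 0x297))))))))))
noncomputable def mt2 : Ix Nat := (.node (.node (.node (.node (.node (.node (.leaf (nat_lit 0x4b)) 
(.leaf (nat_lit 0x4a7))) (.leaf (nat_lit 0))) (.node (.leaf (nat_lit 0)) (.leaf (nat_lit 0)))) 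
(.node (.node (.leaf (nat_lit 0)) (.leaf (nat_lit 0x3e7))) (.node (.leaf (nat_lit 0x882)) 
(.leaf (nat_lit 0))))) (.node (.node (.node (.node (.leaf (nat_lit 0)) (.leaf (nat_lit 0x582))) 
(.leaf (nat_lit 0x5c5))) (.node (.leaf (nat_lit 0)) (.leaf (nat_lit 0)))) (.node (.node 
(.leaf (nat_lit 0)) (.leaf (nat_lit 0))) (.node (.leaf (nat_lit 0)) (.leaf (nat_lit 0x552)))))) 
(.node (.node (.node (.node (.node (.leaf (nat_lit 0xc9)) (.leaf (nat_lit 0))) 
(.leaf (nat_lit 0x5b))) (.node (.leaf (nat_lit 0xf40000000000000000007cd)) 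
(.leaf (nat_lit 0x263)))) (.node (.node (.leaf (nat_lit 0)) (.leaf (nat_lit 0))) (.node 
(.leaf (nat_lit 0x40e)) (.leaf (nat_lit 0x22f80000000477))))) (.node (.node (.node (.node 
(.leaf (nat_lit 0xa8e)) (.leaf (nat_lit 0x49))) (.leaf (nat_lit 0))) (.node (.leaf (nat_lit 0)) 
(.leaf (nat_lit 0x69400000000dc)))) (.node (.node (.leaf (nat_lit 0)) (.leaf (nat_lit 0))) (.node 
(.leaf (nat_lit 0)) (.leaf (nat_lit 0)))))))
noncomputable def mt3 : Ix Nat := (.node (.node (.node (.node (.node (.node (.leaf (nat_lit 0x4b)) 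
(.leaf (nat_lit 0x4a7))) (.leaf (nat_lit 0))) (.node (.leaf (nat_lit 0)) (.leaf (nat_lit 0)))) 
(.node (.node (.leaf (nat_lit 0)) (.leaf (nat_lit 0x3e7))) (.node (.leaf (nat_lit 0x882)) 
(.leaf (nat_lit 0))))) (.node (.node (.node (.node (.leaf (nat_lit 0)) (.leaf (nat_lit 0x582))) 
(.leaf (nat_lit 0x5c5))) (.node (.leaf (nat_lit 0)) (.leaf (nat_lit 0)))) (.node (.node 
(.leaf (nat_lit 0)) (.leaf (nat_lit 0))) (.node (.leaf (nat_lit 0)) (.leaf (nat_lit 0x552)))))) 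
(.node (.node (.node (.node (.node (.leaf (nat_lit 0xc9)) (.leaf (nat_lit 0))) 
(.leaf (nat_lit 0x5b))) (.node (.leaf (nat_lit 0xf40000000000000000007cd)) 
(.leaf (nat_lit 0x263)))) (.node (.node (.leaf (nat_lit 0)) (.leaf (nat_lit 0))) (.node 
(.leaf (nat_lit 0x40e)) (.leaf (nat_lit 0x22f80000000477))))) (.node (.node (.node (.node 
(.leaf (nat_lit 0xa8e)) (.leaf (nat_lit 0x49))) (.leaf (nat_lit 0))) (.node (.leaf (nat_lit 0)) 
(.leaf (nat_lit 0x69400000000dc)))) (.node (.node (.leaf (nat_lit 0)) (.leaf (nat_lit 0))) (.node 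
(.leaf (nat_lit 0)) (.leaf (nat_lit 0)))))))
noncomputable def mt4 : Ix Nat := (.node (.node (.node (.node (.node (.leaf (nat_lit 0)) 
(.leaf (nat_lit 0))) (.leaf (nat_lit 0))) (.node (.node (.leaf (nat_lit 0)) (.leaf (nat_lit 0x2))) 
(.leaf (nat_lit 0)))) (.node (.node (.node (.leaf (nat_lit 0)) (.leaf (nat_lit 0))) 
(.leaf (nat_lit 0))) (.node (.node (.leaf (nat_lit 0)) (.leaf (nat_lit 0))) (.leaf (nat_lit 0))))) 
(.node (.node (.node (.node (.leaf (nat_lit 0)) (.leaf (nat_lit 0))) (.leaf (nat_lit 0))) (.node 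
(.node (.leaf (nat_lit 0)) (.leaf (nat_lit 0))) (.leaf (nat_lit 0)))) (.node (.node (.node 
(.leaf (nat_lit 0)) (.leaf (nat_lit 0))) (.leaf (nat_lit 0x2))) (.node (.leaf (nat_lit 0)) 
(.leaf (nat_lit 0))))))
noncomputable def mt5 : Ix Nat := (.node (.node (.node (.node (.node (.leaf (nat_lit 0x106)) 
(.leaf (nat_lit 0))) (.leaf (nat_lit 0))) (.node (.leaf (nat_lit 0x4)) (.leaf (nat_lit 0)))) (.node 
(.node (.node (.leaf (nat_lit 0)) (.leaf (nat_lit 0))) (.leaf (nat_lit 0))) (.node 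
(.leaf (nat_lit 0x7c8)) (.leaf (nat_lit 0))))) (.node (.node (.node (.node (.leaf (nat_lit 0)) 
(.leaf (nat_lit 0))) (.leaf (nat_lit 0))) (.node (.leaf (nat_lit 0)) (.leaf (nat_lit 0)))) (.node 
(.node (.leaf (nat_lit 0x2)) (.leaf (nat_lit 0))) (.node (.leaf (nat_lit 0)) (.leaf (nat_lit 0))))))
noncomputable def mt6 : Ix Nat := (.node (.node (.node (.node (.node (.leaf (nat_lit 0x106)) 
(.leaf (nat_lit 0))) (.leaf (nat_lit 0))) (.node (.leaf (nat_lit 0x4)) (.leaf (nat_lit 0)))) (.node 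
(.node (.node (.leaf (nat_lit 0)) (.leaf (nat_lit 0))) (.leaf (nat_lit 0))) (.node 
(.leaf (nat_lit 0x7c8)) (.leaf (nat_lit 0))))) (.node (.node (.node (.node (.leaf (nat_lit 0)) 
(.leaf (nat_lit 0))) (.leaf (nat_lit 0))) (.node (.leaf (nat_lit 0)) (.leaf (nat_lit 0)))) (.node 
(.node (.leaf (nat_lit 0x2)) (.leaf (nat_lit 0))) (.node (.leaf (nat_lit 0)) (.leaf (nat_lit 0))))))
noncomputable def mt7 : Ix Nat := (.node (.node (.node (.node (.node (.node (.node (.node (.node 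
(.leaf (nat_lit 0x1f480000000233)) (.leaf (nat_lit 0))) (.leaf (nat_lit 0))) (.node 
(.leaf (nat_lit 0xad6)) (.leaf (nat_lit 0x37c)))) (.node (.node (.leaf (nat_lit 0)) 
(.leaf (nat_lit 0))) (.node (.leaf (nat_lit 0)) (.leaf (nat_lit 0x117))))) (.node (.node (.node 
(.node (.leaf (nat_lit 0)) (.leaf (nat_lit 0x216))) (.leaf (nat_lit 0))) (.node 
(.leaf (nat_lit 0x624)) (.leaf (nat_lit 0x15b)))) (.node (.node (.leaf (nat_lit 0)) 
(.leaf (nat_lit 0x45a0000000017f))) (.node (.leaf (nat_lit 0)) (.leaf (nat_lit 0)))))) (.node 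
(.node (.node (.node (.node (.leaf (nat_lit 0)) (.leaf (nat_lit 0x33))) (.leaf (nat_lit 0))) (.node 
(.leaf (nat_lit 0)) (.leaf (nat_lit 0)))) (.node (.node (.leaf (nat_lit 0)) 
(.leaf (nat_lit 0x18d))) (.node (.leaf (nat_lit 0)) (.leaf (nat_lit 0))))) (.node (.node (.node 
(.node (.leaf (nat_lit 0)) (.leaf (nat_lit 0))) (.leaf (nat_lit 0x53c0000000014))) (.node 
(.leaf (nat_lit 0)) (.leaf (nat_lit 0)))) (.node (.node (.leaf (nat_lit 0)) (.leaf (nat_lit 0))) 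
(.node (.leaf (nat_lit 0)) (.leaf (nat_lit 0))))))) (.node (.node (.node (.node (.node (.node 
(.leaf (nat_lit 0x4b5)) (.leaf (nat_lit 0))) (.leaf (nat_lit 0))) (.node (.leaf (nat_lit 0)) 
(.leaf (nat_lit 0)))) (.node (.node (.leaf (nat_lit 0)) (.leaf (nat_lit 0))) (.node 
(.leaf (nat_lit 0)) (.leaf (nat_lit 0))))) (.node (.node (.node (.node (.leaf (nat_lit 0)) 
(.leaf (nat_lit 0))) (.leaf (nat_lit 0))) (.node (.leaf (nat_lit 0x6d)) (.leaf (nat_lit 0)))) 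
(.node (.node (.leaf (nat_lit 0)) (.leaf (nat_lit 0))) (.node (.leaf (nat_lit 0)) 
(.leaf (nat_lit 0)))))) (.node (.node (.node (.node (.node 
(.leaf (nat_lit 0x20b0000000000000000009fd)) (.leaf (nat_lit 0))) (.leaf (nat_lit 0x37))) (.node 
(.leaf (nat_lit 0)) (.leaf (nat_lit 0)))) (.node (.node (.leaf (nat_lit 0)) (.leaf (nat_lit 0))) 
(.node (.leaf (nat_lit 0)) (.leaf (nat_lit 0))))) (.node (.node (.node (.leaf (nat_lit 0)) 
(.leaf (nat_lit 0))) (.node (.leaf (nat_lit 0)) (.leaf (nat_lit 0x10)))) (.node (.node 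
(.leaf (nat_lit 0)) (.leaf (nat_lit 0))) (.node (.leaf (nat_lit 0)) (.leaf (nat_lit 0)))))))) 
(.node (.node (.node (.node (.node (.node (.node (.leaf (nat_lit 0)) (.leaf (nat_lit 0xb4))) 
(.leaf (nat_lit 0))) (.node (.leaf (nat_lit 0x2ee)) (.leaf (nat_lit 0)))) (.node (.node 
(.leaf (nat_lit 0)) (.leaf (nat_lit 0))) (.node (.leaf (nat_lit 0)) (.leaf (nat_lit 0))))) (.node 
(.node (.node (.node (.leaf (nat_lit 0xc9)) (.leaf (nat_lit 0))) (.leaf (nat_lit 0x840000000000))) 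
(.node (.leaf (nat_lit 0x2e00000000000)) (.leaf (nat_lit 0)))) (.node (.node (.leaf (nat_lit 0)) 
(.leaf (nat_lit 0x13b))) (.node (.leaf (nat_lit 0x3f)) (.leaf (nat_lit 0)))))) (.node (.node (.node 
(.node (.node (.leaf (nat_lit 0)) (.leaf (nat_lit 0))) (.leaf (nat_lit 0))) (.node 
(.leaf (nat_lit 0x1a00000000000)) (.leaf (nat_lit 0x4d0)))) (.node (.node (.leaf (nat_lit 0)) 
(.leaf (nat_lit 0))) (.node (.leaf (nat_lit 0)) (.leaf (nat_lit 0))))) (.node (.node (.node (.node 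
(.leaf (nat_lit 0)) (.leaf (nat_lit 0))) (.leaf (nat_lit 0))) (.node (.leaf (nat_lit 0)) 
(.leaf (nat_lit 0)))) (.node (.node (.leaf (nat_lit 0x291)) (.leaf (nat_lit 0))) (.node 
(.leaf (nat_lit 0x80000000000)) (.leaf (nat_lit 0))))))) (.node (.node (.node (.node (.node (.node 
(.leaf (nat_lit 0)) (.leaf (nat_lit 0))) (.leaf (nat_lit 0x3e00000000000))) (.node 
(.leaf (nat_lit 0)) (.leaf (nat_lit 0)))) (.node (.node (.leaf (nat_lit 0)) (.leaf (nat_lit 0x34))) 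
(.node (.leaf (nat_lit 0)) (.leaf (nat_lit 0))))) (.node (.node (.node (.node (.leaf (nat_lit 0)) 
(.leaf (nat_lit 0))) (.leaf (nat_lit 0x1c))) (.node (.leaf (nat_lit 0xc0000000001ef)) 
(.leaf (nat_lit 0)))) (.node (.node (.leaf (nat_lit 0)) (.leaf (nat_lit 0))) (.node 
(.leaf (nat_lit 0)) (.leaf (nat_lit 0)))))) (.node (.node (.node (.node (.node (.leaf (nat_lit 0)) 
(.leaf (nat_lit 0x4ea))) (.leaf (nat_lit 0))) (.node (.leaf (nat_lit 0x13b)) 
(.leaf (nat_lit 0x7b1)))) (.node (.node (.leaf (nat_lit 0)) (.leaf (nat_lit 0x26))) (.node 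
(.leaf (nat_lit 0)) (.leaf (nat_lit 0x171))))) (.node (.node (.node (.leaf (nat_lit 0x59)) 
(.leaf (nat_lit 0))) (.node (.leaf (nat_lit 0)) (.leaf (nat_lit 0)))) (.node (.node 
(.leaf (nat_lit 0x83)) (.leaf (nat_lit 0))) (.node (.leaf (nat_lit 0)) (.leaf (nat_lit 0))))))))) 
(.node (.node (.node (.node (.node (.node (.node (.node (.leaf (nat_lit 0)) 
(.leaf (nat_lit 0x234))) (.leaf (nat_lit 0))) (.node (.leaf (nat_lit 0x4a)) (.leaf (nat_lit 0)))) 
(.node (.node (.leaf (nat_lit 0)) (.leaf (nat_lit 0))) (.node (.leaf (nat_lit 0)) 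
(.leaf (nat_lit 0))))) (.node (.node (.node (.node (.leaf (nat_lit 0)) (.leaf (nat_lit 0x5a))) 
(.leaf (nat_lit 0))) (.node (.leaf (nat_lit 0)) (.leaf (nat_lit 0x3c)))) (.node (.node 
(.leaf (nat_lit 0)) (.leaf (nat_lit 0x5a))) (.node (.leaf (nat_lit 0)) (.leaf (nat_lit 0)))))) 
(.node (.node (.node (.node (.node (.leaf (nat_lit 0)) (.leaf (nat_lit 0))) (.leaf (nat_lit 0))) 
(.node (.leaf (nat_lit 0xd300000000000)) (.leaf (nat_lit 0x795)))) (.node (.node 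
(.leaf (nat_lit 0)) (.leaf (nat_lit 0))) (.node (.leaf (nat_lit 0x540)) 
(.leaf (nat_lit 0x104000000030e))))) (.node (.node (.node (.node (.leaf (nat_lit 0xf8c0000000084)) 
(.leaf (nat_lit 0))) (.leaf (nat_lit 0))) (.node (.leaf (nat_lit 0x1a7)) (.leaf (nat_lit 0)))) 
(.node (.node (.leaf (nat_lit 0x26980000000000)) (.leaf (nat_lit 0))) (.node (.leaf (nat_lit 0)) 
(.leaf (nat_lit 0))))))) (.node (.node (.node (.node (.node (.node (.leaf (nat_lit 0)) 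
(.leaf (nat_lit 0))) (.leaf (nat_lit 0))) (.node (.leaf (nat_lit 0)) (.leaf (nat_lit 0)))) (.node 
(.node (.leaf (nat_lit 0)) (.leaf (nat_lit 0))) (.node (.leaf (nat_lit 0)) (.leaf (nat_lit 0))))) 
(.node (.node (.node (.node (.leaf (nat_lit 0)) (.leaf (nat_lit 0))) (.leaf (nat_lit 0))) (.node 
(.leaf (nat_lit 0)) (.leaf (nat_lit 0)))) (.node (.node (.leaf (nat_lit 0)) (.leaf (nat_lit 0))) 
(.node (.leaf (nat_lit 0)) (.leaf (nat_lit 0)))))) (.node (.node (.node (.node (.node 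
(.leaf (nat_lit 0x10a)) (.leaf (nat_lit 0))) (.leaf (nat_lit 0))) (.node (.leaf (nat_lit 0x396)) 
(.leaf (nat_lit 0x38d)))) (.node (.node (.leaf (nat_lit 0)) (.leaf (nat_lit 0))) (.node 
(.leaf (nat_lit 0x42)) (.leaf (nat_lit 0x26))))) (.node (.node (.node (.leaf (nat_lit 0)) 
(.leaf (nat_lit 0))) (.node (.leaf (nat_lit 0)) (.leaf (nat_lit 0x35c00000000db)))) (.node (.node 
(.leaf (nat_lit 0x29c0000000000)) (.leaf (nat_lit 0))) (.node (.leaf (nat_lit 0)) 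
(.leaf (nat_lit 0)))))))) (.node (.node (.node (.node (.node (.node (.node (.leaf (nat_lit 0)) 
(.leaf (nat_lit 0))) (.leaf (nat_lit 0x6))) (.node (.leaf (nat_lit 0)) (.leaf (nat_lit 0)))) (.node 
(.node (.leaf (nat_lit 0)) (.leaf (nat_lit 0))) (.node (.leaf (nat_lit 0)) (.leaf (nat_lit 0))))) 
(.node (.node (.node (.node (.leaf (nat_lit 0x553)) (.leaf (nat_lit 0))) (.leaf (nat_lit 0))) 
(.node (.leaf (nat_lit 0)) (.leaf (nat_lit 0x34)))) (.node (.node (.leaf (nat_lit 0)) 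
(.leaf (nat_lit 0))) (.node (.leaf (nat_lit 0)) (.leaf (nat_lit 0)))))) (.node (.node (.node (.node 
(.node (.leaf (nat_lit 0)) (.leaf (nat_lit 0))) (.leaf (nat_lit 0))) (.node (.leaf (nat_lit 0)) 
(.leaf (nat_lit 0x1d0)))) (.node (.node (.leaf (nat_lit 0)) (.leaf (nat_lit 0))) (.node 
(.leaf (nat_lit 0)) (.leaf (nat_lit 0))))) (.node (.node (.node (.node (.leaf (nat_lit 0)) 
(.leaf (nat_lit 0))) (.leaf (nat_lit 0x722))) (.node (.leaf (nat_lit 0x7)) (.leaf (nat_lit 0xac)))) 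
(.node (.node (.leaf (nat_lit 0x2)) (.leaf (nat_lit 0x5c000000002240000000000))) (.node 
(.leaf (nat_lit 0)) (.leaf (nat_lit 0))))))) (.node (.node (.node (.node (.node (.node 
(.leaf (nat_lit 0)) (.leaf (nat_lit 0))) (.leaf (nat_lit 0))) (.node (.leaf (nat_lit 0)) 
(.leaf (nat_lit 0)))) (.node (.node (.leaf (nat_lit 0)) (.leaf (nat_lit 0x5a))) (.node 
(.leaf (nat_lit 0)) (.leaf (nat_lit 0x1c))))) (.node (.node (.node (.node (.leaf (nat_lit 0xd9)) 
(.leaf (nat_lit 0))) (.leaf (nat_lit 0))) (.node (.leaf (nat_lit 0xc9)) (.leaf (nat_lit 0)))) 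
(.node (.node (.leaf (nat_lit 0x31f000000018500000000097)) (.leaf (nat_lit 0))) (.node 
(.leaf (nat_lit 0)) (.leaf (nat_lit 0)))))) (.node (.node (.node (.node (.node (.leaf (nat_lit 0)) 
(.leaf (nat_lit 0xb))) (.leaf (nat_lit 0x66))) (.node (.leaf (nat_lit 0)) (.leaf (nat_lit 0)))) 
(.node (.node (.leaf (nat_lit 0)) (.leaf (nat_lit 0))) (.node (.leaf (nat_lit 0)) 
(.leaf (nat_lit 0))))) (.node (.node (.node (.leaf (nat_lit 0)) (.leaf (nat_lit 0))) (.node 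
(.leaf (nat_lit 0)) (.leaf (nat_lit 0)))) (.node (.node (.leaf (nat_lit 0x5f6)) 
(.leaf (nat_lit 0x1f6))) (.node (.leaf (nat_lit 0)) (.leaf (nat_lit 0))))))))))
noncomputable def mt8 : Ix Nat := (.node (.node (.node (.node (.node (.node (.leaf (nat_lit 0)) 
(.leaf (nat_lit 0x30745cc))) (.leaf (nat_lit 0x1a0000))) (.node (.leaf (nat_lit 0)) 
(.leaf (nat_lit 0x9b8)))) (.node (.node (.leaf (nat_lit 0)) (.leaf (nat_lit 0x19f8982))) (.node 
(.leaf (nat_lit 0)) (.leaf (nat_lit 0x47e00000000000000))))) (.node (.node (.node (.node 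
(.leaf (nat_lit 0x2e1)) (.leaf (nat_lit 0x9a8538))) (.leaf (nat_lit 0x1acc164))) (.node 
(.leaf (nat_lit 0xd5c0000d5c017)) (.leaf (nat_lit 0x5a5)))) (.node (.node (.leaf (nat_lit 0)) 
(.leaf (nat_lit 0x2e2))) (.node (.leaf (nat_lit 0)) (.leaf (nat_lit 0x1170000)))))) (.node (.node 
(.node (.node (.node (.leaf (nat_lit 0x10a)) (.leaf (nat_lit 0))) (.leaf (nat_lit 0x318012))) 
(.node (.leaf (nat_lit 0x9c000000003100000000000)) (.leaf (nat_lit 0x22)))) (.node (.node 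
(.leaf (nat_lit 0x2)) (.leaf (nat_lit 0))) (.node (.leaf (nat_lit 0)) 
(.leaf (nat_lit 0x7f10000000210c000))))) (.node (.node (.node (.node (.leaf (nat_lit 0x2)) 
(.leaf (nat_lit 0))) (.leaf (nat_lit 0x6b))) (.node (.leaf (nat_lit 0)) 
(.leaf (nat_lit 0x178000000029900000000220164)))) (.node (.node (.leaf (nat_lit 0)) 
(.leaf (nat_lit 0x284))) (.node (.leaf (nat_lit 0xa8a056c0002b44e2a)) 
(.leaf (nat_lit 0x4b4000)))))))
noncomputable def mt9 : Ix Nat := (.node (.node (.node (.node (.node (.node 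
(.leaf (nat_lit 0x21980000000509)) (.leaf (nat_lit 0x22040000000daa))) (.node (.leaf (nat_lit 0)) 
(.leaf (nat_lit 0)))) (.node (.node (.leaf (nat_lit 0)) (.leaf (nat_lit 0xc4000000007d0))) 
(.leaf (nat_lit 0)))) (.node (.node (.node (.leaf (nat_lit 0)) (.leaf (nat_lit 0xb72))) 
(.leaf (nat_lit 0))) (.node (.node (.leaf (nat_lit 0)) (.leaf (nat_lit 0))) 
(.leaf (nat_lit 0x12d40000000000))))) (.node (.node (.node (.node (.leaf (nat_lit 0)) 
(.leaf (nat_lit 0xb66))) (.leaf (nat_lit 0))) (.node (.node (.leaf (nat_lit 0x4b0)) 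
(.leaf (nat_lit 0x552))) (.leaf (nat_lit 0x1140000000009e)))) (.node (.node (.node 
(.leaf (nat_lit 0)) (.leaf (nat_lit 0x492))) (.leaf (nat_lit 0))) (.node (.node (.leaf (nat_lit 0)) 
(.leaf (nat_lit 0))) (.leaf (nat_lit 0)))))) (.node (.node (.node (.node (.node 
(.leaf (nat_lit 0x1f900000000000)) (.leaf (nat_lit 0x115))) (.node (.leaf (nat_lit 0)) 
(.leaf (nat_lit 0)))) (.node (.node (.leaf (nat_lit 0)) (.leaf (nat_lit 0x297))) 
(.leaf (nat_lit 0)))) (.node (.node (.node (.leaf (nat_lit 0x29a40000000010)) 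
(.leaf (nat_lit 0xc6))) (.leaf (nat_lit 0x1da))) (.node (.node (.leaf (nat_lit 0)) 
(.leaf (nat_lit 0x5c))) (.leaf (nat_lit 0x1e9))))) (.node (.node (.node (.node 
(.leaf (nat_lit 0x2cc000000002a)) (.leaf (nat_lit 0x7b1))) (.leaf (nat_lit 0))) (.node (.node 
(.leaf (nat_lit 0)) (.leaf (nat_lit 0x37c))) (.leaf (nat_lit 0x146)))) (.node (.node (.node 
(.leaf (nat_lit 0)) (.leaf (nat_lit 0xb8b))) (.leaf (nat_lit 0))) (.node (.node (.leaf (nat_lit 0)) 
(.leaf (nat_lit 0))) (.leaf (nat_lit 0)))))))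
noncomputable def mt10 : Ix Nat := (.node (.node (.node (.node (.node 
(.leaf (nat_lit 0x24e000000007f80000000a7c)) (.leaf (nat_lit 0x84e))) (.node 
(.leaf (nat_lit 0x1438)) (.leaf (nat_lit 0)))) (.node (.node (.leaf (nat_lit 0x62e)) 
(.leaf (nat_lit 0x32000000000a680000000000))) (.leaf (nat_lit 0x11700000000000)))) (.node (.node 
(.node (.leaf (nat_lit 0x248)) (.leaf (nat_lit 0xbd5))) (.node (.leaf (nat_lit 0x141b)) 
(.leaf (nat_lit 0)))) (.node (.node (.leaf (nat_lit 0)) (.leaf (nat_lit 0))) (.leaf (nat_lit 0))))) 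
(.node (.node (.node (.node (.leaf (nat_lit 0)) (.leaf (nat_lit 0x552))) (.node 
(.leaf (nat_lit 0x6ef)) (.leaf (nat_lit 0)))) (.node (.node (.leaf (nat_lit 0x2d0)) 
(.leaf (nat_lit 0))) (.leaf (nat_lit 0)))) (.node (.node (.node (.leaf (nat_lit 0x7d4)) 
(.leaf (nat_lit 0x14b2))) (.leaf (nat_lit 0x62000000002cc00000003d0))) (.node (.node 
(.leaf (nat_lit 0x1422)) (.leaf (nat_lit 0x174))) (.leaf (nat_lit 0x5ed))))))
noncomputable def mt11 : Ix Nat := (.node (.node (.node (.node (.node 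
(.leaf (nat_lit 0x64800011d40ae)) (.leaf (nat_lit 0x133))) (.leaf (nat_lit 0x3e8000))) (.node 
(.node (.leaf (nat_lit 0xe4c1d0)) (.leaf (nat_lit 0x7d))) (.leaf (nat_lit 0xd9)))) (.node (.node 
(.node (.leaf (nat_lit 0xa8086e)) (.leaf (nat_lit 0xa00000cb81f700000c20232))) 
(.leaf (nat_lit 0x9b))) (.node (.node (.leaf (nat_lit 0x1760178)) (.leaf (nat_lit 0x4b))) 
(.leaf (nat_lit 0x2cc02a))))) (.node (.node (.node (.node (.leaf (nat_lit 0x8c)) 
(.leaf (nat_lit 0))) (.leaf (nat_lit 0x4c82e400008181bb00005ab8000))) (.node (.node 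
(.leaf (nat_lit 0x29a4010)) (.leaf (nat_lit 0x6d))) (.leaf (nat_lit 0xb90000)))) (.node (.node 
(.node (.leaf (nat_lit 0xf8c084)) (.leaf (nat_lit 0xc001ef))) (.leaf (nat_lit 0))) (.node 
(.leaf (nat_lit 0x6b)) (.leaf (nat_lit 0x390002))))))
noncomputable def mt12 : Ix Nat := (.node (.node (.node (.node (.node (.node (.leaf (nat_lit 0x41)) 
(.leaf (nat_lit 0xa8e))) (.leaf (nat_lit 0x2b4))) (.node (.leaf (nat_lit 0)) 
(.leaf (nat_lit 0x7)))) (.node (.node (.leaf (nat_lit 0x12e)) (.leaf (nat_lit 0xaac))) (.node 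
(.leaf (nat_lit 0x7d4)) (.leaf (nat_lit 0x5e0000000002a))))) (.node (.node (.node 
(.leaf (nat_lit 0x30b)) (.leaf (nat_lit 0))) (.node (.leaf (nat_lit 0x1acc0000000164)) 
(.leaf (nat_lit 0x17b000000000000000000171)))) (.node (.node (.leaf (nat_lit 0)) 
(.leaf (nat_lit 0))) (.node (.leaf (nat_lit 0x85c)) (.leaf (nat_lit 0)))))) (.node (.node (.node 
(.node (.node (.leaf (nat_lit 0xad6)) (.leaf (nat_lit 0x5f))) (.leaf (nat_lit 0x70000000018b))) 
(.node (.leaf (nat_lit 0x24100000000970000000036b)) (.leaf (nat_lit 0)))) (.node (.node 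
(.leaf (nat_lit 0x4b)) (.leaf (nat_lit 0))) (.node (.leaf (nat_lit 0x253)) 
(.leaf (nat_lit 0x174))))) (.node (.node (.node (.leaf (nat_lit 0xb0a)) (.leaf (nat_lit 0x6ab))) 
(.node (.leaf (nat_lit 0x431c000000037b)) (.leaf (nat_lit 0x2)))) (.node (.node 
(.leaf (nat_lit 0x5cf)) (.leaf (nat_lit 0))) (.node (.leaf (nat_lit 0x5c5)) 
(.leaf (nat_lit 0x203)))))))
noncomputable def mt13 : Ix Nat := (.node (.node (.node (.node (.node 
(.leaf (nat_lit 0x2600000001f500000dd8000)) (.leaf (nat_lit 0))) (.leaf (nat_lit 0x524000))) (.node 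
(.leaf (nat_lit 0x17f4000)) (.leaf (nat_lit 0)))) (.node (.node (.node (.leaf (nat_lit 0x21c06d)) 
(.leaf (nat_lit 0))) (.leaf (nat_lit 0))) (.node (.leaf (nat_lit 0x1344000)) (.leaf (nat_lit 0))))) 
(.node (.node (.node (.node (.leaf (nat_lit 0)) (.leaf (nat_lit 0))) (.leaf (nat_lit 0))) (.node 
(.leaf (nat_lit 0x12d4000)) (.leaf (nat_lit 0x3a0000)))) (.node (.node (.leaf (nat_lit 0x2698000)) 
(.leaf (nat_lit 0xf4000))) (.node (.leaf (nat_lit 0)) (.leaf (nat_lit 0x42))))))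
noncomputable def mt14 : Ix Nat := (.node (.node (.node (.node (.node 
(.leaf (nat_lit 0x5d80000000031)) (.leaf (nat_lit 0xc34))) (.node (.leaf (nat_lit 0x3)) 
(.leaf (nat_lit 0)))) (.node (.node (.leaf (nat_lit 0x70a)) (.leaf (nat_lit 0x7c00000000331))) 
(.node (.leaf (nat_lit 0x19f80000000982)) (.leaf (nat_lit 0))))) (.node (.node (.node 
(.leaf (nat_lit 0x54b)) (.leaf (nat_lit 0xb13))) (.node (.leaf (nat_lit 0)) (.leaf (nat_lit 0)))) 
(.node (.node (.leaf (nat_lit 0)) (.leaf (nat_lit 0))) (.leaf (nat_lit 0x2d0))))) (.node (.node 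
(.node (.node (.leaf (nat_lit 0x2ee)) (.leaf (nat_lit 0x3e7))) (.node (.leaf (nat_lit 0x33d)) 
(.leaf (nat_lit 0)))) (.node (.node (.leaf (nat_lit 0xc87)) (.leaf (nat_lit 0))) (.node 
(.leaf (nat_lit 0x2a600000000ef1)) (.leaf (nat_lit 0))))) (.node (.node (.node 
(.leaf (nat_lit 0xb0a)) (.leaf (nat_lit 0))) (.node (.leaf (nat_lit 0x2a500000000d100000000cf4)) 
(.leaf (nat_lit 0)))) (.node (.node (.leaf (nat_lit 0x173)) (.leaf (nat_lit 0xaac))) 
(.leaf (nat_lit 0x476))))))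
noncomputable def mt15 : Ix Nat := (.node (.node (.node (.node (.node (.node (.node (.node (.node 
(.leaf (nat_lit 0x12500000000000)) (.leaf (nat_lit 0))) (.leaf (nat_lit 0))) (.node 
(.leaf (nat_lit 0x12e)) (.leaf (nat_lit 0)))) (.node (.node (.leaf (nat_lit 0)) 
(.leaf (nat_lit 0))) (.node (.leaf (nat_lit 0)) (.leaf (nat_lit 0))))) (.node (.node (.node (.node 
(.leaf (nat_lit 0)) (.leaf (nat_lit 0))) (.leaf (nat_lit 0))) (.node (.leaf (nat_lit 0x61)) 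
(.leaf (nat_lit 0)))) (.node (.node (.leaf (nat_lit 0x3a00000000000)) 
(.leaf (nat_lit 0x19fc0000000000))) (.node (.leaf (nat_lit 0)) (.leaf (nat_lit 0)))))) (.node 
(.node (.node (.node (.node (.leaf (nat_lit 0)) (.leaf (nat_lit 0))) (.leaf (nat_lit 0))) (.node 
(.leaf (nat_lit 0)) (.leaf (nat_lit 0)))) (.node (.node (.leaf (nat_lit 0)) (.leaf (nat_lit 0))) 
(.node (.leaf (nat_lit 0)) (.leaf (nat_lit 0))))) (.node (.node (.node (.node (.leaf (nat_lit 0)) 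
(.leaf (nat_lit 0))) (.leaf (nat_lit 0x50000000000e))) (.node (.leaf (nat_lit 0)) 
(.leaf (nat_lit 0)))) (.node (.node (.leaf (nat_lit 0)) (.leaf (nat_lit 0))) (.node 
(.leaf (nat_lit 0)) (.leaf (nat_lit 0))))))) (.node (.node (.node (.node (.node (.node 
(.leaf (nat_lit 0)) (.leaf (nat_lit 0))) (.leaf (nat_lit 0))) (.node (.leaf (nat_lit 0)) 
(.leaf (nat_lit 0)))) (.node (.node (.leaf (nat_lit 0)) (.leaf (nat_lit 0x1000000000000))) (.node 
(.leaf (nat_lit 0)) (.leaf (nat_lit 0))))) (.node (.node (.node (.node (.leaf (nat_lit 0)) 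
(.leaf (nat_lit 0))) (.leaf (nat_lit 0))) (.node (.leaf (nat_lit 0x4b)) (.leaf (nat_lit 0)))) 
(.node (.node (.leaf (nat_lit 0)) (.leaf (nat_lit 0))) (.node (.leaf (nat_lit 0)) 
(.leaf (nat_lit 0)))))) (.node (.node (.node (.node (.node (.leaf (nat_lit 0)) (.leaf (nat_lit 0))) 
(.leaf (nat_lit 0x18000000000a))) (.node (.leaf (nat_lit 0)) (.leaf (nat_lit 0)))) (.node (.node 
(.leaf (nat_lit 0)) (.leaf (nat_lit 0))) (.node (.leaf (nat_lit 0xe)) (.leaf (nat_lit 0))))) (.node 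
(.node (.node (.leaf (nat_lit 0)) (.leaf (nat_lit 0))) (.node (.leaf (nat_lit 0)) 
(.leaf (nat_lit 0)))) (.node (.node (.leaf (nat_lit 0)) (.leaf (nat_lit 0))) (.node 
(.leaf (nat_lit 0x6)) (.leaf (nat_lit 0)))))))) (.node (.node (.node (.node (.node (.node (.node 
(.leaf (nat_lit 0)) (.leaf (nat_lit 0))) (.leaf (nat_lit 0))) (.node (.leaf (nat_lit 0)) 
(.leaf (nat_lit 0)))) (.node (.node (.leaf (nat_lit 0)) (.leaf (nat_lit 0))) (.node 
(.leaf (nat_lit 0)) (.leaf (nat_lit 0))))) (.node (.node (.node (.node (.leaf (nat_lit 0)) 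
(.leaf (nat_lit 0))) (.leaf (nat_lit 0x29))) (.node (.leaf (nat_lit 0)) (.leaf (nat_lit 0)))) 
(.node (.node (.leaf (nat_lit 0)) (.leaf (nat_lit 0))) (.node (.leaf (nat_lit 0xa2)) 
(.leaf (nat_lit 0)))))) (.node (.node (.node (.node (.node (.leaf (nat_lit 0)) 
(.leaf (nat_lit 0x722))) (.leaf (nat_lit 0))) (.node (.leaf (nat_lit 0)) (.leaf (nat_lit 0)))) 
(.node (.node (.leaf (nat_lit 0)) (.leaf (nat_lit 0))) (.node (.leaf (nat_lit 0)) 
(.leaf (nat_lit 0))))) (.node (.node (.node (.node (.leaf (nat_lit 0)) (.leaf (nat_lit 0))) 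
(.leaf (nat_lit 0))) (.node (.leaf (nat_lit 0)) (.leaf (nat_lit 0)))) (.node (.node 
(.leaf (nat_lit 0)) (.leaf (nat_lit 0))) (.node (.leaf (nat_lit 0x480000000000)) 
(.leaf (nat_lit 0))))))) (.node (.node (.node (.node (.node (.node (.leaf (nat_lit 0)) 
(.leaf (nat_lit 0))) (.leaf (nat_lit 0))) (.node (.leaf (nat_lit 0)) (.leaf (nat_lit 0)))) (.node 
(.node (.leaf (nat_lit 0)) (.leaf (nat_lit 0))) (.node (.leaf (nat_lit 0)) (.leaf (nat_lit 0))))) 
(.node (.node (.node (.node (.leaf (nat_lit 0)) (.leaf (nat_lit 0))) (.leaf (nat_lit 0))) (.node 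
(.leaf (nat_lit 0x7d)) (.leaf (nat_lit 0)))) (.node (.node (.leaf (nat_lit 0)) (.leaf (nat_lit 0))) 
(.node (.leaf (nat_lit 0)) (.leaf (nat_lit 0)))))) (.node (.node (.node (.node (.node 
(.leaf (nat_lit 0)) (.leaf (nat_lit 0xf58000000013e))) (.leaf (nat_lit 0x66))) (.node 
(.leaf (nat_lit 0)) (.leaf (nat_lit 0x492)))) (.node (.node (.leaf (nat_lit 0)) 
(.leaf (nat_lit 0x171))) (.node (.leaf (nat_lit 0)) (.leaf (nat_lit 0))))) (.node (.node (.node 
(.leaf (nat_lit 0)) (.leaf (nat_lit 0))) (.node (.leaf (nat_lit 0)) (.leaf (nat_lit 0)))) (.node 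
(.node (.leaf (nat_lit 0)) (.leaf (nat_lit 0))) (.node (.leaf (nat_lit 0)) 
(.leaf (nat_lit 0))))))))) (.node (.node (.node (.node (.node (.node (.node (.node 
(.leaf (nat_lit 0)) (.leaf (nat_lit 0))) (.leaf (nat_lit 0))) (.node (.leaf (nat_lit 0x48)) 
(.leaf (nat_lit 0)))) (.node (.node (.leaf (nat_lit 0)) (.leaf (nat_lit 0))) (.node 
(.leaf (nat_lit 0)) (.leaf (nat_lit 0))))) (.node (.node (.node (.node (.leaf (nat_lit 0)) 
(.leaf (nat_lit 0x13b))) (.leaf (nat_lit 0x48))) (.node (.leaf (nat_lit 0)) (.leaf (nat_lit 0)))) 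
(.node (.node (.leaf (nat_lit 0)) (.leaf (nat_lit 0))) (.node (.leaf (nat_lit 0)) 
(.leaf (nat_lit 0x117)))))) (.node (.node (.node (.node (.node (.leaf (nat_lit 0)) 
(.leaf (nat_lit 0))) (.leaf (nat_lit 0))) (.node (.leaf (nat_lit 0)) (.leaf (nat_lit 0)))) (.node 
(.node (.leaf (nat_lit 0)) (.leaf (nat_lit 0xe))) (.node (.leaf (nat_lit 0x76)) 
(.leaf (nat_lit 0))))) (.node (.node (.node (.node (.leaf (nat_lit 0x6b)) (.leaf (nat_lit 0))) 
(.leaf (nat_lit 0))) (.node (.leaf (nat_lit 0)) (.leaf (nat_lit 0)))) (.node (.node 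
(.leaf (nat_lit 0)) (.leaf (nat_lit 0))) (.node (.leaf (nat_lit 0)) (.leaf (nat_lit 0))))))) (.node 
(.node (.node (.node (.node (.node (.leaf (nat_lit 0)) (.leaf (nat_lit 0))) (.leaf (nat_lit 0))) 
(.node (.leaf (nat_lit 0)) (.leaf (nat_lit 0)))) (.node (.node (.leaf (nat_lit 0)) 
(.leaf (nat_lit 0))) (.node (.leaf (nat_lit 0)) (.leaf (nat_lit 0))))) (.node (.node (.node (.node 
(.leaf (nat_lit 0)) (.leaf (nat_lit 0xf))) (.leaf (nat_lit 0))) (.node (.leaf (nat_lit 0)) 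
(.leaf (nat_lit 0)))) (.node (.node (.leaf (nat_lit 0)) (.leaf (nat_lit 0x500000000000))) (.node 
(.leaf (nat_lit 0)) (.leaf (nat_lit 0)))))) (.node (.node (.node (.node (.node (.leaf (nat_lit 0)) 
(.leaf (nat_lit 0))) (.leaf (nat_lit 0))) (.node (.leaf (nat_lit 0)) (.leaf (nat_lit 0x7)))) (.node 
(.node (.leaf (nat_lit 0)) (.leaf (nat_lit 0))) (.node (.leaf (nat_lit 0)) (.leaf (nat_lit 0))))) 
(.node (.node (.node (.leaf (nat_lit 0)) (.leaf (nat_lit 0))) (.node (.leaf (nat_lit 0)) 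
(.leaf (nat_lit 0)))) (.node (.node (.leaf (nat_lit 0)) (.leaf (nat_lit 0))) (.node 
(.leaf (nat_lit 0)) (.leaf (nat_lit 0)))))))) (.node (.node (.node (.node (.node (.node (.node 
(.leaf (nat_lit 0)) (.leaf (nat_lit 0))) (.leaf (nat_lit 0))) (.node (.leaf (nat_lit 0)) 
(.leaf (nat_lit 0)))) (.node (.node (.leaf (nat_lit 0)) (.leaf (nat_lit 0))) (.node 
(.leaf (nat_lit 0)) (.leaf (nat_lit 0))))) (.node (.node (.node (.node (.leaf (nat_lit 0)) 
(.leaf (nat_lit 0))) (.leaf (nat_lit 0))) (.node (.leaf (nat_lit 0)) (.leaf (nat_lit 0x5a)))) 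
(.node (.node (.leaf (nat_lit 0)) (.leaf (nat_lit 0))) (.node (.leaf (nat_lit 0)) 
(.leaf (nat_lit 0)))))) (.node (.node (.node (.node (.node (.leaf (nat_lit 0)) (.leaf (nat_lit 0))) 
(.leaf (nat_lit 0))) (.node (.leaf (nat_lit 0)) (.leaf (nat_lit 0)))) (.node (.node 
(.leaf (nat_lit 0)) (.leaf (nat_lit 0))) (.node (.leaf (nat_lit 0)) (.leaf (nat_lit 0))))) (.node 
(.node (.node (.node (.leaf (nat_lit 0)) (.leaf (nat_lit 0))) (.leaf (nat_lit 0))) (.node 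
(.leaf (nat_lit 0)) (.leaf (nat_lit 0x10)))) (.node (.node (.leaf (nat_lit 0)) (.leaf (nat_lit 0))) 
(.node (.leaf (nat_lit 0)) (.leaf (nat_lit 0))))))) (.node (.node (.node (.node (.node (.node 
(.leaf (nat_lit 0)) (.leaf (nat_lit 0))) (.leaf (nat_lit 0))) (.node (.leaf (nat_lit 0)) 
(.leaf (nat_lit 0)))) (.node (.node (.leaf (nat_lit 0)) (.leaf (nat_lit 0))) (.node 
(.leaf (nat_lit 0)) (.leaf (nat_lit 0))))) (.node (.node (.node (.node (.leaf (nat_lit 0x133)) 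
(.leaf (nat_lit 0x101))) (.leaf (nat_lit 0))) (.node (.leaf (nat_lit 0)) (.leaf (nat_lit 0)))) 
(.node (.node (.leaf (nat_lit 0)) (.leaf (nat_lit 0))) (.node (.leaf (nat_lit 0)) 
(.leaf (nat_lit 0)))))) (.node (.node (.node (.node (.node (.leaf (nat_lit 0)) (.leaf (nat_lit 0))) 
(.leaf (nat_lit 0))) (.node (.leaf (nat_lit 0)) (.leaf (nat_lit 0)))) (.node (.node 
(.leaf (nat_lit 0)) (.leaf (nat_lit 0))) (.node (.leaf (nat_lit 0)) (.leaf (nat_lit 0))))) (.node 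
(.node (.node (.leaf (nat_lit 0)) (.leaf (nat_lit 0))) (.node (.leaf (nat_lit 0)) 
(.leaf (nat_lit 0)))) (.node (.node (.leaf (nat_lit 0)) (.leaf (nat_lit 0))) (.node 
(.leaf (nat_lit 0)) (.leaf (nat_lit 0x20a))))))))))
noncomputable def mt16 : Ix Nat := (.node (.node (.node (.node (.node (.node (.leaf (nat_lit 0)) 
(.leaf (nat_lit 0x58d))) (.leaf (nat_lit 0x396))) (.node (.leaf (nat_lit 0)) (.leaf (nat_lit 0)))) 
(.node (.node (.leaf (nat_lit 0)) (.leaf (nat_lit 0x476))) (.node (.leaf (nat_lit 0)) 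
(.leaf (nat_lit 0x4b40000000000))))) (.node (.node (.node (.node (.leaf (nat_lit 0)) 
(.leaf (nat_lit 0x628))) (.leaf (nat_lit 0x253))) (.node (.leaf (nat_lit 0)) 
(.leaf (nat_lit 0x1f)))) (.node (.node (.leaf (nat_lit 0)) (.leaf (nat_lit 0))) (.node 
(.leaf (nat_lit 0)) (.leaf (nat_lit 0x5ed)))))) (.node (.node (.node (.node (.node 
(.leaf (nat_lit 0)) (.leaf (nat_lit 0))) (.leaf (nat_lit 0))) (.node (.leaf (nat_lit 0)) 
(.leaf (nat_lit 0x852)))) (.node (.node (.leaf (nat_lit 0)) (.leaf (nat_lit 0))) (.node 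
(.leaf (nat_lit 0)) (.leaf (nat_lit 0x24480000000520))))) (.node (.node (.node (.node 
(.leaf (nat_lit 0)) (.leaf (nat_lit 0))) (.leaf (nat_lit 0))) (.node (.leaf (nat_lit 0)) 
(.leaf (nat_lit 0x390000000037c0000000000)))) (.node (.node (.leaf (nat_lit 0)) 
(.leaf (nat_lit 0))) (.node (.leaf (nat_lit 0xbe800000004bc)) (.leaf (nat_lit 0x107)))))))
noncomputable def mt17 : Ix Nat := (.node (.node (.node (.node (.node (.leaf (nat_lit 0)) 
(.leaf (nat_lit 0))) (.leaf (nat_lit 0))) (.node (.node (.leaf (nat_lit 0)) (.leaf (nat_lit 0))) 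
(.leaf (nat_lit 0)))) (.node (.node (.node (.leaf (nat_lit 0)) (.leaf (nat_lit 0x1b0400000007e0))) 
(.leaf (nat_lit 0))) (.node (.node (.leaf (nat_lit 0x2)) (.leaf (nat_lit 0))) 
(.leaf (nat_lit 0))))) (.node (.node (.node (.node (.leaf (nat_lit 0)) (.leaf (nat_lit 0))) 
(.leaf (nat_lit 0xeb00000000000))) (.node (.node (.leaf (nat_lit 0)) (.leaf (nat_lit 0))) 
(.leaf (nat_lit 0)))) (.node (.node (.node (.leaf (nat_lit 0)) (.leaf (nat_lit 0xc9))) 
(.leaf (nat_lit 0))) (.node (.leaf (nat_lit 0)) (.leaf (nat_lit 0x95))))))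
noncomputable def mt18 : Ix Nat := (.node (.node (.node (.node (.node 
(.leaf (nat_lit 0x158000000037f)) (.leaf (nat_lit 0))) (.leaf (nat_lit 0))) (.node 
(.leaf (nat_lit 0x96d)) (.leaf (nat_lit 0)))) (.node (.node (.node (.leaf (nat_lit 0)) 
(.leaf (nat_lit 0xe))) (.leaf (nat_lit 0))) (.node (.leaf (nat_lit 0x184)) (.leaf (nat_lit 0x1))))) 
(.node (.node (.node (.node (.leaf (nat_lit 0)) (.leaf (nat_lit 0))) (.leaf (nat_lit 0x4c3))) 
(.node (.leaf (nat_lit 0x146)) (.leaf (nat_lit 0)))) (.node (.node (.leaf (nat_lit 0)) 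
(.leaf (nat_lit 0))) (.node (.leaf (nat_lit 0)) (.leaf (nat_lit 0))))))
noncomputable def mt19 : Ix Nat := (.node (.node (.node (.node (.node (.leaf (nat_lit 0x315)) 
(.leaf (nat_lit 0))) (.leaf (nat_lit 0))) (.node (.leaf (nat_lit 0x773)) (.leaf (nat_lit 0)))) 
(.node (.node (.node (.leaf (nat_lit 0)) (.leaf (nat_lit 0))) (.leaf (nat_lit 0))) (.node 
(.leaf (nat_lit 0x1423)) (.leaf (nat_lit 0))))) (.node (.node (.node (.node (.leaf (nat_lit 0)) 
(.leaf (nat_lit 0))) (.leaf (nat_lit 0))) (.node (.leaf (nat_lit 0x1e9)) (.leaf (nat_lit 0)))) 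
(.node (.node (.leaf (nat_lit 0x291)) (.leaf (nat_lit 0))) (.node (.leaf (nat_lit 0)) 
(.leaf (nat_lit 0))))))
noncomputable def mt20 : Ix Nat := (.node (.node (.node (.node (.node (.node (.node (.node (.node 
(.leaf (nat_lit 0x1f480000000233)) (.leaf (nat_lit 0))) (.leaf (nat_lit 0))) (.node 
(.leaf (nat_lit 0xad6)) (.leaf (nat_lit 0x7b1)))) (.node (.node (.leaf (nat_lit 0)) 
(.leaf (nat_lit 0x18d))) (.node (.leaf (nat_lit 0)) (.leaf (nat_lit 0))))) (.node (.node (.node 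
(.node (.leaf (nat_lit 0)) (.leaf (nat_lit 0))) (.leaf (nat_lit 0))) (.node (.leaf (nat_lit 0x624)) 
(.leaf (nat_lit 0)))) (.node (.node (.leaf (nat_lit 0x26980000000000)) 
(.leaf (nat_lit 0x45a0000000017f))) (.node (.leaf (nat_lit 0)) (.leaf (nat_lit 0x33)))))) (.node 
(.node (.node (.node (.node (.leaf (nat_lit 0)) (.leaf (nat_lit 0))) (.leaf (nat_lit 0))) (.node 
(.leaf (nat_lit 0)) (.leaf (nat_lit 0)))) (.node (.node (.leaf (nat_lit 0)) (.leaf (nat_lit 0))) 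
(.node (.leaf (nat_lit 0)) (.leaf (nat_lit 0))))) (.node (.node (.node (.node (.leaf (nat_lit 0)) 
(.leaf (nat_lit 0x26))) (.leaf (nat_lit 0x53c0000000014))) (.node (.leaf (nat_lit 0)) 
(.leaf (nat_lit 0)))) (.node (.node (.leaf (nat_lit 0)) (.leaf (nat_lit 0))) (.node 
(.leaf (nat_lit 0)) (.leaf (nat_lit 0x216))))))) (.node (.node (.node (.node (.node (.node 
(.leaf (nat_lit 0x4b5)) (.leaf (nat_lit 0))) (.leaf (nat_lit 0))) (.node (.leaf (nat_lit 0)) 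
(.leaf (nat_lit 0)))) (.node (.node (.leaf (nat_lit 0)) (.leaf (nat_lit 0))) (.node 
(.leaf (nat_lit 0)) (.leaf (nat_lit 0))))) (.node (.node (.node (.node (.leaf (nat_lit 0)) 
(.leaf (nat_lit 0))) (.leaf (nat_lit 0x1c))) (.node (.leaf (nat_lit 0xc0000000001ef)) 
(.leaf (nat_lit 0)))) (.node (.node (.leaf (nat_lit 0)) (.leaf (nat_lit 0x13b))) (.node 
(.leaf (nat_lit 0)) (.leaf (nat_lit 0)))))) (.node (.node (.node (.node (.node 
(.leaf (nat_lit 0x20b0000000000000000009fd)) (.leaf (nat_lit 0))) 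
(.leaf (nat_lit 0x3e00000000000))) (.node (.leaf (nat_lit 0)) (.leaf (nat_lit 0)))) (.node (.node 
(.leaf (nat_lit 0)) (.leaf (nat_lit 0x26))) (.node (.leaf (nat_lit 0)) (.leaf (nat_lit 0))))) 
(.node (.node (.node (.leaf (nat_lit 0x59)) (.leaf (nat_lit 0))) (.node (.leaf (nat_lit 0)) 
(.leaf (nat_lit 0)))) (.node (.node (.leaf (nat_lit 0)) (.leaf (nat_lit 0x4d0))) (.node 
(.leaf (nat_lit 0)) (.leaf (nat_lit 0)))))))) (.node (.node (.node (.node (.node (.node (.node 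
(.leaf (nat_lit 0)) (.leaf (nat_lit 0))) (.leaf (nat_lit 0))) (.node (.leaf (nat_lit 0x2ee)) 
(.leaf (nat_lit 0x15b)))) (.node (.node (.leaf (nat_lit 0)) (.leaf (nat_lit 0x34))) (.node 
(.leaf (nat_lit 0)) (.leaf (nat_lit 0))))) (.node (.node (.node (.node (.leaf (nat_lit 0xc9)) 
(.leaf (nat_lit 0x1c))) (.leaf (nat_lit 0x840000000000))) (.node (.leaf (nat_lit 0x2e00000000000)) 
(.leaf (nat_lit 0)))) (.node (.node (.leaf (nat_lit 0x2)) (.leaf (nat_lit 0))) (.node 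
(.leaf (nat_lit 0x540)) (.leaf (nat_lit 0)))))) (.node (.node (.node (.node (.node 
(.leaf (nat_lit 0)) (.leaf (nat_lit 0x35c00000000db))) (.leaf (nat_lit 0))) (.node 
(.leaf (nat_lit 0x1a00000000000)) (.leaf (nat_lit 0)))) (.node (.node (.leaf (nat_lit 0)) 
(.leaf (nat_lit 0))) (.node (.leaf (nat_lit 0)) (.leaf (nat_lit 0xb4))))) (.node (.node (.node 
(.node (.leaf (nat_lit 0)) (.leaf (nat_lit 0))) (.leaf (nat_lit 0))) (.node (.leaf (nat_lit 0)) 
(.leaf (nat_lit 0)))) (.node (.node (.leaf (nat_lit 0)) (.leaf (nat_lit 0))) (.node 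
(.leaf (nat_lit 0x80000000000)) (.leaf (nat_lit 0))))))) (.node (.node (.node (.node (.node (.node 
(.leaf (nat_lit 0)) (.leaf (nat_lit 0xac))) (.leaf (nat_lit 0x37))) (.node (.leaf (nat_lit 0)) 
(.leaf (nat_lit 0)))) (.node (.node (.leaf (nat_lit 0)) (.leaf (nat_lit 0))) (.node 
(.leaf (nat_lit 0)) (.leaf (nat_lit 0))))) (.node (.node (.node (.node (.leaf (nat_lit 0)) 
(.leaf (nat_lit 0x104000000030e))) (.leaf (nat_lit 0))) (.node (.leaf (nat_lit 0x6d)) 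
(.leaf (nat_lit 0)))) (.node (.node (.leaf (nat_lit 0)) (.leaf (nat_lit 0))) (.node 
(.leaf (nat_lit 0x42)) (.leaf (nat_lit 0x4ea)))))) (.node (.node (.node (.node (.node 
(.leaf (nat_lit 0)) (.leaf (nat_lit 0))) (.leaf (nat_lit 0))) (.node (.leaf (nat_lit 0x13b)) 
(.leaf (nat_lit 0x37c)))) (.node (.node (.leaf (nat_lit 0x31f000000018500000000097)) 
(.leaf (nat_lit 0))) (.node (.leaf (nat_lit 0)) (.leaf (nat_lit 0))))) (.node (.node (.node 
(.leaf (nat_lit 0)) (.leaf (nat_lit 0))) (.node (.leaf (nat_lit 0)) (.leaf (nat_lit 0)))) (.node 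
(.node (.leaf (nat_lit 0x83)) (.leaf (nat_lit 0))) (.node (.leaf (nat_lit 0)) 
(.leaf (nat_lit 0))))))))) (.node (.node (.node (.node (.node (.node (.node (.node 
(.leaf (nat_lit 0)) (.leaf (nat_lit 0))) (.leaf (nat_lit 0))) (.node (.leaf (nat_lit 0x4a)) 
(.leaf (nat_lit 0)))) (.node (.node (.leaf (nat_lit 0)) (.leaf (nat_lit 0))) (.node 
(.leaf (nat_lit 0)) (.leaf (nat_lit 0))))) (.node (.node (.node (.node (.leaf (nat_lit 0)) 
(.leaf (nat_lit 0))) (.leaf (nat_lit 0))) (.node (.leaf (nat_lit 0)) (.leaf (nat_lit 0)))) (.node 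
(.node (.leaf (nat_lit 0x291)) (.leaf (nat_lit 0))) (.node (.leaf (nat_lit 0)) 
(.leaf (nat_lit 0)))))) (.node (.node (.node (.node (.node (.leaf (nat_lit 0)) (.leaf (nat_lit 0))) 
(.leaf (nat_lit 0))) (.node (.leaf (nat_lit 0xd300000000000)) 
(.leaf (nat_lit 0x5c000000002240000000000)))) (.node (.node (.leaf (nat_lit 0)) 
(.leaf (nat_lit 0))) (.node (.leaf (nat_lit 0x3f)) (.leaf (nat_lit 0x234))))) (.node (.node (.node 
(.node (.leaf (nat_lit 0xd9)) (.leaf (nat_lit 0x171))) (.leaf (nat_lit 0))) (.node 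
(.leaf (nat_lit 0x7)) (.leaf (nat_lit 0)))) (.node (.node (.leaf (nat_lit 0)) (.leaf (nat_lit 0))) 
(.node (.leaf (nat_lit 0)) (.leaf (nat_lit 0x5a))))))) (.node (.node (.node (.node (.node (.node 
(.leaf (nat_lit 0)) (.leaf (nat_lit 0))) (.leaf (nat_lit 0x6))) (.node (.leaf (nat_lit 0)) 
(.leaf (nat_lit 0)))) (.node (.node (.leaf (nat_lit 0)) (.leaf (nat_lit 0))) (.node 
(.leaf (nat_lit 0)) (.leaf (nat_lit 0))))) (.node (.node (.node (.node (.leaf (nat_lit 0)) 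
(.leaf (nat_lit 0))) (.leaf (nat_lit 0))) (.node (.leaf (nat_lit 0xc9)) (.leaf (nat_lit 0)))) 
(.node (.node (.leaf (nat_lit 0)) (.leaf (nat_lit 0))) (.node (.leaf (nat_lit 0)) 
(.leaf (nat_lit 0)))))) (.node (.node (.node (.node (.node (.leaf (nat_lit 0x10a)) 
(.leaf (nat_lit 0))) (.leaf (nat_lit 0))) (.node (.leaf (nat_lit 0x396)) (.leaf (nat_lit 0x1f6)))) 
(.node (.node (.leaf (nat_lit 0)) (.leaf (nat_lit 0))) (.node (.leaf (nat_lit 0)) 
(.leaf (nat_lit 0))))) (.node (.node (.node (.leaf (nat_lit 0)) (.leaf (nat_lit 0x722))) (.node 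
(.leaf (nat_lit 0)) (.leaf (nat_lit 0)))) (.node (.node (.leaf (nat_lit 0x29c0000000000)) 
(.leaf (nat_lit 0x1d0))) (.node (.leaf (nat_lit 0)) (.leaf (nat_lit 0)))))))) (.node (.node (.node 
(.node (.node (.node (.node (.leaf (nat_lit 0)) (.leaf (nat_lit 0))) (.leaf (nat_lit 0))) (.node 
(.leaf (nat_lit 0)) (.leaf (nat_lit 0x3c)))) (.node (.node (.leaf (nat_lit 0)) 
(.leaf (nat_lit 0x5a))) (.node (.leaf (nat_lit 0)) (.leaf (nat_lit 0))))) (.node (.node (.node 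
(.node (.leaf (nat_lit 0x553)) (.leaf (nat_lit 0))) (.leaf (nat_lit 0))) (.node (.leaf (nat_lit 0)) 
(.leaf (nat_lit 0)))) (.node (.node (.leaf (nat_lit 0)) (.leaf (nat_lit 0x5a))) (.node 
(.leaf (nat_lit 0)) (.leaf (nat_lit 0)))))) (.node (.node (.node (.node (.node (.leaf (nat_lit 0)) 
(.leaf (nat_lit 0))) (.leaf (nat_lit 0x66))) (.node (.leaf (nat_lit 0)) (.leaf (nat_lit 0)))) 
(.node (.node (.leaf (nat_lit 0)) (.leaf (nat_lit 0))) (.node (.leaf (nat_lit 0)) 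
(.leaf (nat_lit 0))))) (.node (.node (.node (.node (.leaf (nat_lit 0)) (.leaf (nat_lit 0))) 
(.leaf (nat_lit 0))) (.node (.leaf (nat_lit 0x1a7)) (.leaf (nat_lit 0)))) (.node (.node 
(.leaf (nat_lit 0)) (.leaf (nat_lit 0x795))) (.node (.leaf (nat_lit 0)) (.leaf (nat_lit 0))))))) 
(.node (.node (.node (.node (.node (.node (.leaf (nat_lit 0)) (.leaf (nat_lit 0x10))) 
(.leaf (nat_lit 0))) (.node (.leaf (nat_lit 0)) (.leaf (nat_lit 0x34)))) (.node (.node 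
(.leaf (nat_lit 0)) (.leaf (nat_lit 0))) (.node (.leaf (nat_lit 0)) (.leaf (nat_lit 0))))) (.node 
(.node (.node (.node (.leaf (nat_lit 0xf8c0000000084)) (.leaf (nat_lit 0))) (.leaf (nat_lit 0))) 
(.node (.leaf (nat_lit 0)) (.leaf (nat_lit 0)))) (.node (.node (.leaf (nat_lit 0)) 
(.leaf (nat_lit 0))) (.node (.leaf (nat_lit 0)) (.leaf (nat_lit 0xb)))))) (.node (.node (.node 
(.node (.node (.leaf (nat_lit 0)) (.leaf (nat_lit 0x117))) (.leaf (nat_lit 0))) (.node 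
(.leaf (nat_lit 0)) (.leaf (nat_lit 0)))) (.node (.node (.leaf (nat_lit 0)) (.leaf (nat_lit 0))) 
(.node (.leaf (nat_lit 0)) (.leaf (nat_lit 0))))) (.node (.node (.node (.leaf (nat_lit 0)) 
(.leaf (nat_lit 0))) (.node (.leaf (nat_lit 0)) (.leaf (nat_lit 0)))) (.node (.node 
(.leaf (nat_lit 0x5f6)) (.leaf (nat_lit 0x38d))) (.node (.leaf (nat_lit 0)) 
(.leaf (nat_lit 0))))))))))
noncomputable def mt21 : Ix Nat := (.node (.node (.node (.node (.node (.node (.leaf (nat_lit 0)) 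
(.leaf (nat_lit 0x30745cc))) (.leaf (nat_lit 0x1a0000))) (.node (.leaf (nat_lit 0)) 
(.leaf (nat_lit 0x9b8)))) (.node (.node (.leaf (nat_lit 0)) (.leaf (nat_lit 0x19f8982))) (.node 
(.leaf (nat_lit 0)) (.leaf (nat_lit 0x47e00000000000000))))) (.node (.node (.node (.node 
(.leaf (nat_lit 0x2e1)) (.leaf (nat_lit 0x9a8538))) (.leaf (nat_lit 0x1acc164))) (.node 
(.leaf (nat_lit 0xd5c0000d5c017)) (.leaf (nat_lit 0x5a5)))) (.node (.node (.leaf (nat_lit 0)) 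
(.leaf (nat_lit 0x2e2))) (.node (.leaf (nat_lit 0)) (.leaf (nat_lit 0x1170000)))))) (.node (.node 
(.node (.node (.node (.leaf (nat_lit 0x10a)) (.leaf (nat_lit 0))) (.leaf (nat_lit 0x318012))) 
(.node (.leaf (nat_lit 0x9c000000003100000000000)) (.leaf (nat_lit 0x22)))) (.node (.node 
(.leaf (nat_lit 0x2)) (.leaf (nat_lit 0))) (.node (.leaf (nat_lit 0)) 
(.leaf (nat_lit 0x7f10000000210c000))))) (.node (.node (.node (.node (.leaf (nat_lit 0x2)) 
(.leaf (nat_lit 0))) (.leaf (nat_lit 0x6b))) (.node (.leaf (nat_lit 0)) 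
(.leaf (nat_lit 0x178000000029900000000220164)))) (.node (.node (.leaf (nat_lit 0)) 
(.leaf (nat_lit 0x284))) (.node (.leaf (nat_lit 0xa8a056c0002b44e2a)) 
(.leaf (nat_lit 0x4b4000)))))))
noncomputable def mt22 : Ix Nat := (.node (.node (.node (.node (.node (.node 
(.leaf (nat_lit 0x21980000000509)) (.leaf (nat_lit 0x22040000000daa))) (.node (.leaf (nat_lit 0)) 
(.leaf (nat_lit 0)))) (.node (.node (.leaf (nat_lit 0x4b0)) (.leaf (nat_lit 0xc4000000007d0))) 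
(.leaf (nat_lit 0)))) (.node (.node (.node (.leaf (nat_lit 0)) (.leaf (nat_lit 0xb72))) 
(.leaf (nat_lit 0))) (.node (.node (.leaf (nat_lit 0)) (.leaf (nat_lit 0))) 
(.leaf (nat_lit 0x12d40000000000))))) (.node (.node (.node (.node (.leaf (nat_lit 0)) 
(.leaf (nat_lit 0xb66))) (.leaf (nat_lit 0))) (.node (.node (.leaf (nat_lit 0)) 
(.leaf (nat_lit 0x552))) (.leaf (nat_lit 0x1140000000009e)))) (.node (.node (.node 
(.leaf (nat_lit 0)) (.leaf (nat_lit 0x492))) (.leaf (nat_lit 0))) (.node (.node (.leaf (nat_lit 0)) 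
(.leaf (nat_lit 0))) (.leaf (nat_lit 0)))))) (.node (.node (.node (.node (.node 
(.leaf (nat_lit 0x1f900000000000)) (.leaf (nat_lit 0x115))) (.node (.leaf (nat_lit 0)) 
(.leaf (nat_lit 0)))) (.node (.node (.leaf (nat_lit 0)) (.leaf (nat_lit 0x297))) 
(.leaf (nat_lit 0)))) (.node (.node (.node (.leaf (nat_lit 0x2cc000000002a)) 
(.leaf (nat_lit 0xc6))) (.leaf (nat_lit 0))) (.node (.node (.leaf (nat_lit 0)) 
(.leaf (nat_lit 0x5c))) (.leaf (nat_lit 0x1e9))))) (.node (.node (.node (.node 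
(.leaf (nat_lit 0x29a40000000010)) (.leaf (nat_lit 0x7b1))) (.leaf (nat_lit 0x1da))) (.node (.node 
(.leaf (nat_lit 0)) (.leaf (nat_lit 0x37c))) (.leaf (nat_lit 0x146)))) (.node (.node (.node 
(.leaf (nat_lit 0)) (.leaf (nat_lit 0xb8b))) (.leaf (nat_lit 0))) (.node (.node (.leaf (nat_lit 0)) 
(.leaf (nat_lit 0))) (.leaf (nat_lit 0)))))))
noncomputable def mt23 : Ix Nat := (.node (.node (.node (.node (.node 
(.leaf (nat_lit 0x24e000000007f80000000a7c)) (.leaf (nat_lit 0x84e))) (.node 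
(.leaf (nat_lit 0x1438)) (.leaf (nat_lit 0)))) (.node (.node (.leaf (nat_lit 0x62e)) 
(.leaf (nat_lit 0x32000000000a680000000000))) (.leaf (nat_lit 0x11700000000000)))) (.node (.node 
(.node (.leaf (nat_lit 0x248)) (.leaf (nat_lit 0xbd5))) (.node (.leaf (nat_lit 0x141b)) 
(.leaf (nat_lit 0)))) (.node (.node (.leaf (nat_lit 0)) (.leaf (nat_lit 0))) (.leaf (nat_lit 0))))) 
(.node (.node (.node (.node (.leaf (nat_lit 0)) (.leaf (nat_lit 0x552))) (.node 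
(.leaf (nat_lit 0x6ef)) (.leaf (nat_lit 0)))) (.node (.node (.leaf (nat_lit 0x2d0)) 
(.leaf (nat_lit 0))) (.leaf (nat_lit 0)))) (.node (.node (.node (.leaf (nat_lit 0x7d4)) 
(.leaf (nat_lit 0x14b2))) (.leaf (nat_lit 0x62000000002cc00000003d0))) (.node (.node 
(.leaf (nat_lit 0x1422)) (.leaf (nat_lit 0x174))) (.leaf (nat_lit 0x5ed))))))
noncomputable def mt24 : Ix Nat := (.node (.node (.node (.node (.node 
(.leaf (nat_lit 0x64800011d40ae)) (.leaf (nat_lit 0x133))) (.leaf (nat_lit 0x3e8000))) (.node 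
(.node (.leaf (nat_lit 0xe4c1d0)) (.leaf (nat_lit 0x4b))) (.leaf (nat_lit 0xd9)))) (.node (.node 
(.node (.leaf (nat_lit 0xa8086e)) (.leaf (nat_lit 0xa00000cb81f700000c20232))) 
(.leaf (nat_lit 0x9b))) (.node (.node (.leaf (nat_lit 0x1760178)) (.leaf (nat_lit 0x7d))) 
(.leaf (nat_lit 0x2cc02a))))) (.node (.node (.node (.node (.leaf (nat_lit 0x8c)) 
(.leaf (nat_lit 0))) (.leaf (nat_lit 0x4c82e400008181bb00005ab8000))) (.node (.node 
(.leaf (nat_lit 0x29a4010)) (.leaf (nat_lit 0xc001ef))) (.leaf (nat_lit 0xb90000)))) (.node (.node 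
(.node (.leaf (nat_lit 0xf8c084)) (.leaf (nat_lit 0x6d))) (.leaf (nat_lit 0))) (.node 
(.leaf (nat_lit 0x6b)) (.leaf (nat_lit 0x390002))))))
noncomputable def mt25 : Ix Nat := (.node (.node (.node (.node (.node (.node (.leaf (nat_lit 0x41)) 
(.leaf (nat_lit 0xa8e))) (.leaf (nat_lit 0x2b4))) (.node (.leaf (nat_lit 0)) 
(.leaf (nat_lit 0x7)))) (.node (.node (.leaf (nat_lit 0x12e)) (.leaf (nat_lit 0xaac))) (.node 
(.leaf (nat_lit 0x7d4)) (.leaf (nat_lit 0x5e0000000002a))))) (.node (.node (.node 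
(.leaf (nat_lit 0x30b)) (.leaf (nat_lit 0))) (.node (.leaf (nat_lit 0x1acc0000000164)) 
(.leaf (nat_lit 0x17b000000000000000000171)))) (.node (.node (.leaf (nat_lit 0)) 
(.leaf (nat_lit 0))) (.node (.leaf (nat_lit 0x85c)) (.leaf (nat_lit 0)))))) (.node (.node (.node 
(.node (.node (.leaf (nat_lit 0xad6)) (.leaf (nat_lit 0x5f))) (.leaf (nat_lit 0x70000000018b))) 
(.node (.leaf (nat_lit 0x24100000000970000000036b)) (.leaf (nat_lit 0)))) (.node (.node 
(.leaf (nat_lit 0x4b)) (.leaf (nat_lit 0))) (.node (.leaf (nat_lit 0x253)) 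
(.leaf (nat_lit 0x174))))) (.node (.node (.node (.leaf (nat_lit 0xb0a)) (.leaf (nat_lit 0x6ab))) 
(.node (.leaf (nat_lit 0x431c000000037b)) (.leaf (nat_lit 0x2)))) (.node (.node 
(.leaf (nat_lit 0x5cf)) (.leaf (nat_lit 0))) (.node (.leaf (nat_lit 0x5c5)) 
(.leaf (nat_lit 0x203)))))))
noncomputable def mt26 : Ix Nat := (.node (.node (.node (.node (.node 
(.leaf (nat_lit 0x2600000001f500000dd8000)) (.leaf (nat_lit 0))) (.leaf (nat_lit 0x524000))) (.node 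
(.leaf (nat_lit 0x17f4000)) (.leaf (nat_lit 0)))) (.node (.node (.node (.leaf (nat_lit 0x21c06d)) 
(.leaf (nat_lit 0))) (.leaf (nat_lit 0))) (.node (.leaf (nat_lit 0x1344000)) (.leaf (nat_lit 0))))) 
(.node (.node (.node (.node (.leaf (nat_lit 0)) (.leaf (nat_lit 0x42))) (.leaf (nat_lit 0))) (.node 
(.leaf (nat_lit 0x12d4000)) (.leaf (nat_lit 0x3a0000)))) (.node (.node (.leaf (nat_lit 0x2698000)) 
(.leaf (nat_lit 0xf4000))) (.node (.leaf (nat_lit 0)) (.leaf (nat_lit 0))))))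
noncomputable def mt27 : Ix Nat := (.node (.node (.node (.node (.node 
(.leaf (nat_lit 0x5d80000000031)) (.leaf (nat_lit 0xc34))) (.node (.leaf (nat_lit 0x3)) 
(.leaf (nat_lit 0)))) (.node (.node (.leaf (nat_lit 0x70a)) (.leaf (nat_lit 0x7c00000000331))) 
(.node (.leaf (nat_lit 0x19f80000000982)) (.leaf (nat_lit 0))))) (.node (.node (.node 
(.leaf (nat_lit 0x54b)) (.leaf (nat_lit 0xb13))) (.node (.leaf (nat_lit 0)) (.leaf (nat_lit 0)))) 
(.node (.node (.leaf (nat_lit 0)) (.leaf (nat_lit 0))) (.leaf (nat_lit 0x2d0))))) (.node (.node 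
(.node (.node (.leaf (nat_lit 0x2ee)) (.leaf (nat_lit 0x3e7))) (.node (.leaf (nat_lit 0x33d)) 
(.leaf (nat_lit 0)))) (.node (.node (.leaf (nat_lit 0xc87)) (.leaf (nat_lit 0))) (.node 
(.leaf (nat_lit 0x2a600000000ef1)) (.leaf (nat_lit 0))))) (.node (.node (.node 
(.leaf (nat_lit 0xb0a)) (.leaf (nat_lit 0))) (.node (.leaf (nat_lit 0x2a500000000d100000000cf4)) 
(.leaf (nat_lit 0)))) (.node (.node (.leaf (nat_lit 0x173)) (.leaf (nat_lit 0xaac))) 
(.leaf (nat_lit 0x476))))))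
noncomputable def mt28 : Ix Nat := (.node (.node (.node (.node (.node (.node (.node (.node (.node 
(.leaf (nat_lit 0x12500000000000)) (.leaf (nat_lit 0))) (.leaf (nat_lit 0))) (.node 
(.leaf (nat_lit 0x12e)) (.leaf (nat_lit 0x492)))) (.node (.node (.leaf (nat_lit 0)) 
(.leaf (nat_lit 0))) (.node (.leaf (nat_lit 0)) (.leaf (nat_lit 0))))) (.node (.node (.node (.node 
(.leaf (nat_lit 0)) (.leaf (nat_lit 0))) (.leaf (nat_lit 0))) (.node (.leaf (nat_lit 0x61)) 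
(.leaf (nat_lit 0)))) (.node (.node (.leaf (nat_lit 0)) (.leaf (nat_lit 0x19fc0000000000))) (.node 
(.leaf (nat_lit 0)) (.leaf (nat_lit 0)))))) (.node (.node (.node (.node (.node (.leaf (nat_lit 0)) 
(.leaf (nat_lit 0))) (.leaf (nat_lit 0))) (.node (.leaf (nat_lit 0)) (.leaf (nat_lit 0)))) (.node 
(.node (.leaf (nat_lit 0)) (.leaf (nat_lit 0))) (.node (.leaf (nat_lit 0)) (.leaf (nat_lit 0))))) 
(.node (.node (.node (.node (.leaf (nat_lit 0)) (.leaf (nat_lit 0))) 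
(.leaf (nat_lit 0x50000000000e))) (.node (.leaf (nat_lit 0)) (.leaf (nat_lit 0)))) (.node (.node 
(.leaf (nat_lit 0)) (.leaf (nat_lit 0))) (.node (.leaf (nat_lit 0)) (.leaf (nat_lit 0))))))) (.node 
(.node (.node (.node (.node (.node (.leaf (nat_lit 0)) (.leaf (nat_lit 0))) (.leaf (nat_lit 0))) 
(.node (.leaf (nat_lit 0)) (.leaf (nat_lit 0)))) (.node (.node (.leaf (nat_lit 0)) 
(.leaf (nat_lit 0))) (.node (.leaf (nat_lit 0)) (.leaf (nat_lit 0))))) (.node (.node (.node (.node 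
(.leaf (nat_lit 0)) (.leaf (nat_lit 0))) (.leaf (nat_lit 0))) (.node (.leaf (nat_lit 0x7d)) 
(.leaf (nat_lit 0)))) (.node (.node (.leaf (nat_lit 0)) (.leaf (nat_lit 0))) (.node 
(.leaf (nat_lit 0)) (.leaf (nat_lit 0x722)))))) (.node (.node (.node (.node (.node 
(.leaf (nat_lit 0)) (.leaf (nat_lit 0))) (.leaf (nat_lit 0))) (.node (.leaf (nat_lit 0)) 
(.leaf (nat_lit 0)))) (.node (.node (.leaf (nat_lit 0)) (.leaf (nat_lit 0x171))) (.node 
(.leaf (nat_lit 0)) (.leaf (nat_lit 0))))) (.node (.node (.node (.leaf (nat_lit 0)) 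
(.leaf (nat_lit 0))) (.node (.leaf (nat_lit 0)) (.leaf (nat_lit 0)))) (.node (.node 
(.leaf (nat_lit 0)) (.leaf (nat_lit 0))) (.node (.leaf (nat_lit 0)) (.leaf (nat_lit 0)))))))) 
(.node (.node (.node (.node (.node (.node (.node (.leaf (nat_lit 0)) (.leaf (nat_lit 0))) 
(.leaf (nat_lit 0))) (.node (.leaf (nat_lit 0)) (.leaf (nat_lit 0)))) (.node (.node 
(.leaf (nat_lit 0)) (.leaf (nat_lit 0))) (.node (.leaf (nat_lit 0)) (.leaf (nat_lit 0))))) (.node 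
(.node (.node (.node (.leaf (nat_lit 0)) (.leaf (nat_lit 0))) (.leaf (nat_lit 0x29))) (.node 
(.leaf (nat_lit 0)) (.leaf (nat_lit 0)))) (.node (.node (.leaf (nat_lit 0)) (.leaf (nat_lit 0))) 
(.node (.leaf (nat_lit 0x76)) (.leaf (nat_lit 0)))))) (.node (.node (.node (.node (.node 
(.leaf (nat_lit 0)) (.leaf (nat_lit 0))) (.leaf (nat_lit 0x66))) (.node (.leaf (nat_lit 0)) 
(.leaf (nat_lit 0)))) (.node (.node (.leaf (nat_lit 0)) (.leaf (nat_lit 0))) (.node 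
(.leaf (nat_lit 0)) (.leaf (nat_lit 0))))) (.node (.node (.node (.node (.leaf (nat_lit 0)) 
(.leaf (nat_lit 0))) (.leaf (nat_lit 0))) (.node (.leaf (nat_lit 0)) (.leaf (nat_lit 0)))) (.node 
(.node (.leaf (nat_lit 0)) (.leaf (nat_lit 0))) (.node (.leaf (nat_lit 0x480000000000)) 
(.leaf (nat_lit 0))))))) (.node (.node (.node (.node (.node (.node (.leaf (nat_lit 0)) 
(.leaf (nat_lit 0x10))) (.leaf (nat_lit 0x18000000000a))) (.node (.leaf (nat_lit 0)) 
(.leaf (nat_lit 0)))) (.node (.node (.leaf (nat_lit 0)) (.leaf (nat_lit 0))) (.node 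
(.leaf (nat_lit 0)) (.leaf (nat_lit 0))))) (.node (.node (.node (.node (.leaf (nat_lit 0)) 
(.leaf (nat_lit 0))) (.leaf (nat_lit 0))) (.node (.leaf (nat_lit 0x4b)) (.leaf (nat_lit 0)))) 
(.node (.node (.leaf (nat_lit 0)) (.leaf (nat_lit 0))) (.node (.leaf (nat_lit 0)) 
(.leaf (nat_lit 0xf58000000013e)))))) (.node (.node (.node (.node (.node (.leaf (nat_lit 0)) 
(.leaf (nat_lit 0))) (.leaf (nat_lit 0))) (.node (.leaf (nat_lit 0)) (.leaf (nat_lit 0)))) (.node 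
(.node (.leaf (nat_lit 0)) (.leaf (nat_lit 0))) (.node (.leaf (nat_lit 0)) (.leaf (nat_lit 0))))) 
(.node (.node (.node (.leaf (nat_lit 0)) (.leaf (nat_lit 0x1000000000000))) (.node 
(.leaf (nat_lit 0)) (.leaf (nat_lit 0)))) (.node (.node (.leaf (nat_lit 0)) (.leaf (nat_lit 0))) 
(.node (.leaf (nat_lit 0x6)) (.leaf (nat_lit 0))))))))) (.node (.node (.node (.node (.node (.node 
(.node (.node (.leaf (nat_lit 0)) (.leaf (nat_lit 0))) (.leaf (nat_lit 0))) (.node 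
(.leaf (nat_lit 0x48)) (.leaf (nat_lit 0)))) (.node (.node (.leaf (nat_lit 0)) 
(.leaf (nat_lit 0xe))) (.node (.leaf (nat_lit 0)) (.leaf (nat_lit 0))))) (.node (.node (.node 
(.node (.leaf (nat_lit 0)) (.leaf (nat_lit 0))) (.leaf (nat_lit 0))) (.node (.leaf (nat_lit 0)) 
(.leaf (nat_lit 0)))) (.node (.node (.leaf (nat_lit 0)) (.leaf (nat_lit 0))) (.node 
(.leaf (nat_lit 0)) (.leaf (nat_lit 0)))))) (.node (.node (.node (.node (.node (.leaf (nat_lit 0)) 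
(.leaf (nat_lit 0))) (.leaf (nat_lit 0x48))) (.node (.leaf (nat_lit 0)) (.leaf (nat_lit 0)))) 
(.node (.node (.leaf (nat_lit 0)) (.leaf (nat_lit 0))) (.node (.leaf (nat_lit 0xa2)) 
(.leaf (nat_lit 0))))) (.node (.node (.node (.node (.leaf (nat_lit 0x133)) (.leaf (nat_lit 0))) 
(.leaf (nat_lit 0))) (.node (.leaf (nat_lit 0)) (.leaf (nat_lit 0)))) (.node (.node 
(.leaf (nat_lit 0x3a00000000000)) (.leaf (nat_lit 0))) (.node (.leaf (nat_lit 0)) 
(.leaf (nat_lit 0x13b))))))) (.node (.node (.node (.node (.node (.node (.leaf (nat_lit 0)) 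
(.leaf (nat_lit 0))) (.leaf (nat_lit 0))) (.node (.leaf (nat_lit 0)) (.leaf (nat_lit 0)))) (.node 
(.node (.leaf (nat_lit 0)) (.leaf (nat_lit 0))) (.node (.leaf (nat_lit 0)) 
(.leaf (nat_lit 0x20a))))) (.node (.node (.node (.node (.leaf (nat_lit 0)) (.leaf (nat_lit 0))) 
(.leaf (nat_lit 0))) (.node (.leaf (nat_lit 0)) (.leaf (nat_lit 0)))) (.node (.node 
(.leaf (nat_lit 0)) (.leaf (nat_lit 0x500000000000))) (.node (.leaf (nat_lit 0xe)) 
(.leaf (nat_lit 0)))))) (.node (.node (.node (.node (.node (.leaf (nat_lit 0)) (.leaf (nat_lit 0))) 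
(.leaf (nat_lit 0))) (.node (.leaf (nat_lit 0)) (.leaf (nat_lit 0)))) (.node (.node 
(.leaf (nat_lit 0)) (.leaf (nat_lit 0))) (.node (.leaf (nat_lit 0)) (.leaf (nat_lit 0))))) (.node 
(.node (.node (.leaf (nat_lit 0)) (.leaf (nat_lit 0))) (.node (.leaf (nat_lit 0)) 
(.leaf (nat_lit 0)))) (.node (.node (.leaf (nat_lit 0)) (.leaf (nat_lit 0))) (.node 
(.leaf (nat_lit 0)) (.leaf (nat_lit 0xf)))))))) (.node (.node (.node (.node (.node (.node (.node 
(.leaf (nat_lit 0)) (.leaf (nat_lit 0))) (.leaf (nat_lit 0))) (.node (.leaf (nat_lit 0)) 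
(.leaf (nat_lit 0)))) (.node (.node (.leaf (nat_lit 0)) (.leaf (nat_lit 0))) (.node 
(.leaf (nat_lit 0)) (.leaf (nat_lit 0))))) (.node (.node (.node (.node (.leaf (nat_lit 0)) 
(.leaf (nat_lit 0))) (.leaf (nat_lit 0))) (.node (.leaf (nat_lit 0)) (.leaf (nat_lit 0)))) (.node 
(.node (.leaf (nat_lit 0)) (.leaf (nat_lit 0))) (.node (.leaf (nat_lit 0)) (.leaf (nat_lit 0)))))) 
(.node (.node (.node (.node (.node (.leaf (nat_lit 0)) (.leaf (nat_lit 0))) (.leaf (nat_lit 0))) 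
(.node (.leaf (nat_lit 0)) (.leaf (nat_lit 0)))) (.node (.node (.leaf (nat_lit 0)) 
(.leaf (nat_lit 0))) (.node (.leaf (nat_lit 0)) (.leaf (nat_lit 0))))) (.node (.node (.node (.node 
(.leaf (nat_lit 0)) (.leaf (nat_lit 0))) (.leaf (nat_lit 0))) (.node (.leaf (nat_lit 0)) 
(.leaf (nat_lit 0x117)))) (.node (.node (.leaf (nat_lit 0)) (.leaf (nat_lit 0))) (.node 
(.leaf (nat_lit 0)) (.leaf (nat_lit 0))))))) (.node (.node (.node (.node (.node (.node 
(.leaf (nat_lit 0)) (.leaf (nat_lit 0))) (.leaf (nat_lit 0))) (.node (.leaf (nat_lit 0)) 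
(.leaf (nat_lit 0x5a)))) (.node (.node (.leaf (nat_lit 0)) (.leaf (nat_lit 0))) (.node 
(.leaf (nat_lit 0)) (.leaf (nat_lit 0))))) (.node (.node (.node (.node (.leaf (nat_lit 0x6b)) 
(.leaf (nat_lit 0))) (.leaf (nat_lit 0))) (.node (.leaf (nat_lit 0)) (.leaf (nat_lit 0)))) (.node 
(.node (.leaf (nat_lit 0)) (.leaf (nat_lit 0))) (.node (.leaf (nat_lit 0)) (.leaf (nat_lit 0)))))) 
(.node (.node (.node (.node (.node (.leaf (nat_lit 0)) (.leaf (nat_lit 0))) (.leaf (nat_lit 0))) 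
(.node (.leaf (nat_lit 0)) (.leaf (nat_lit 0)))) (.node (.node (.leaf (nat_lit 0)) 
(.leaf (nat_lit 0))) (.node (.leaf (nat_lit 0)) (.leaf (nat_lit 0))))) (.node (.node (.node 
(.leaf (nat_lit 0)) (.leaf (nat_lit 0))) (.node (.leaf (nat_lit 0)) (.leaf (nat_lit 0)))) (.node 
(.node (.leaf (nat_lit 0)) (.leaf (nat_lit 0x7))) (.node (.leaf (nat_lit 0)) 
(.leaf (nat_lit 0x101))))))))))
noncomputable def mt29 : Ix Nat := (.node (.node (.node (.node (.node (.node (.leaf (nat_lit 0)) 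
(.leaf (nat_lit 0x58d))) (.leaf (nat_lit 0x396))) (.node (.leaf (nat_lit 0)) (.leaf (nat_lit 0)))) 
(.node (.node (.leaf (nat_lit 0)) (.leaf (nat_lit 0x476))) (.node (.leaf (nat_lit 0)) 
(.leaf (nat_lit 0x4b40000000000))))) (.node (.node (.node (.node (.leaf (nat_lit 0)) 
(.leaf (nat_lit 0x628))) (.leaf (nat_lit 0x253))) (.node (.leaf (nat_lit 0)) 
(.leaf (nat_lit 0x1f)))) (.node (.node (.leaf (nat_lit 0)) (.leaf (nat_lit 0))) (.node 
(.leaf (nat_lit 0)) (.leaf (nat_lit 0x5ed)))))) (.node (.node (.node (.node (.node 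
(.leaf (nat_lit 0)) (.leaf (nat_lit 0))) (.leaf (nat_lit 0))) (.node (.leaf (nat_lit 0)) 
(.leaf (nat_lit 0x852)))) (.node (.node (.leaf (nat_lit 0)) (.leaf (nat_lit 0))) (.node 
(.leaf (nat_lit 0)) (.leaf (nat_lit 0x24480000000520))))) (.node (.node (.node (.node 
(.leaf (nat_lit 0)) (.leaf (nat_lit 0))) (.leaf (nat_lit 0))) (.node (.leaf (nat_lit 0)) 
(.leaf (nat_lit 0x390000000037c0000000000)))) (.node (.node (.leaf (nat_lit 0)) 
(.leaf (nat_lit 0))) (.node (.leaf (nat_lit 0xbe800000004bc)) (.leaf (nat_lit 0x107)))))))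
noncomputable def mt30 : Ix Nat := (.node (.node (.node (.node (.node (.leaf (nat_lit 0)) 
(.leaf (nat_lit 0))) (.leaf (nat_lit 0))) (.node (.node (.leaf (nat_lit 0)) (.leaf (nat_lit 0))) 
(.leaf (nat_lit 0)))) (.node (.node (.node (.leaf (nat_lit 0)) (.leaf (nat_lit 0x1b0400000007e0))) 
(.leaf (nat_lit 0))) (.node (.node (.leaf (nat_lit 0x2)) (.leaf (nat_lit 0))) 
(.leaf (nat_lit 0))))) (.node (.node (.node (.node (.leaf (nat_lit 0)) (.leaf (nat_lit 0))) 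
(.leaf (nat_lit 0xeb00000000000))) (.node (.node (.leaf (nat_lit 0)) (.leaf (nat_lit 0xc9))) 
(.leaf (nat_lit 0)))) (.node (.node (.node (.leaf (nat_lit 0)) (.leaf (nat_lit 0))) 
(.leaf (nat_lit 0))) (.node (.leaf (nat_lit 0)) (.leaf (nat_lit 0x95))))))
noncomputable def mt31 : Ix Nat := (.node (.node (.node (.node (.node 
(.leaf (nat_lit 0x158000000037f)) (.leaf (nat_lit 0xe))) (.leaf (nat_lit 0))) (.node 
(.leaf (nat_lit 0x96d)) (.leaf (nat_lit 0)))) (.node (.node (.node (.leaf (nat_lit 0)) 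
(.leaf (nat_lit 0))) (.leaf (nat_lit 0))) (.node (.leaf (nat_lit 0x184)) (.leaf (nat_lit 0x1))))) 
(.node (.node (.node (.node (.leaf (nat_lit 0)) (.leaf (nat_lit 0))) (.leaf (nat_lit 0x4c3))) 
(.node (.leaf (nat_lit 0x146)) (.leaf (nat_lit 0)))) (.node (.node (.leaf (nat_lit 0)) 
(.leaf (nat_lit 0))) (.node (.leaf (nat_lit 0)) (.leaf (nat_lit 0))))))
noncomputable def mt32 : Ix Nat := (.node (.node (.node (.node (.node (.leaf (nat_lit 0x315)) 
(.leaf (nat_lit 0))) (.leaf (nat_lit 0))) (.node (.leaf (nat_lit 0x773)) (.leaf (nat_lit 0)))) 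
(.node (.node (.node (.leaf (nat_lit 0)) (.leaf (nat_lit 0))) (.leaf (nat_lit 0))) (.node 
(.leaf (nat_lit 0x1423)) (.leaf (nat_lit 0))))) (.node (.node (.node (.node (.leaf (nat_lit 0)) 
(.leaf (nat_lit 0))) (.leaf (nat_lit 0))) (.node (.leaf (nat_lit 0x1e9)) (.leaf (nat_lit 0)))) 
(.node (.node (.leaf (nat_lit 0x291)) (.leaf (nat_lit 0))) (.node (.leaf (nat_lit 0)) 
(.leaf (nat_lit 0))))))
noncomputable def mt33 : Ix Nat := (.node (.node (.node (.node (.node (.leaf (nat_lit 0)) 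
(.leaf (nat_lit 0))) (.leaf (nat_lit 0))) (.node (.leaf (nat_lit 0)) (.leaf (nat_lit 0)))) (.node 
(.node (.node (.leaf (nat_lit 0)) (.leaf (nat_lit 0))) (.leaf (nat_lit 0))) (.node 
(.leaf (nat_lit 0)) (.leaf (nat_lit 0))))) (.node (.node (.node (.node (.leaf (nat_lit 0)) 
(.leaf (nat_lit 0))) (.leaf (nat_lit 0))) (.node (.leaf (nat_lit 0)) (.leaf (nat_lit 0)))) (.node 
(.node (.node (.leaf (nat_lit 0)) (.leaf (nat_lit 0))) (.leaf (nat_lit 0))) (.node 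
(.leaf (nat_lit 0)) (.leaf (nat_lit 0))))))
noncomputable def mt34 : Ix Nat := (.node (.node (.node (.node (.node (.leaf (nat_lit 0)) 
(.leaf (nat_lit 0))) (.leaf (nat_lit 0))) (.node (.leaf (nat_lit 0)) (.leaf (nat_lit 0)))) (.node 
(.node (.node (.leaf (nat_lit 0)) (.leaf (nat_lit 0))) (.leaf (nat_lit 0))) (.node 
(.leaf (nat_lit 0)) (.leaf (nat_lit 0))))) (.node (.node (.node (.node (.leaf (nat_lit 0)) 
(.leaf (nat_lit 0))) (.leaf (nat_lit 0))) (.node (.leaf (nat_lit 0)) (.leaf (nat_lit 0)))) (.node 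
(.node (.node (.leaf (nat_lit 0)) (.leaf (nat_lit 0))) (.leaf (nat_lit 0))) (.node 
(.leaf (nat_lit 0)) (.leaf (nat_lit 0))))))
noncomputable def mt35 : Ix Nat := (.node (.node (.node (.node (.node (.node 
(.leaf (nat_lit 0x1480000000000)) (.leaf (nat_lit 0))) (.leaf (nat_lit 0))) (.node 
(.leaf (nat_lit 0)) (.leaf (nat_lit 0)))) (.node (.node (.leaf (nat_lit 0)) 
(.leaf (nat_lit 0x33d))) (.node (.leaf (nat_lit 0)) (.leaf (nat_lit 0x22))))) (.node (.node (.node 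
(.node (.leaf (nat_lit 0)) (.leaf (nat_lit 0x612))) (.leaf (nat_lit 0x5cf))) (.node 
(.leaf (nat_lit 0)) (.leaf (nat_lit 0x9a0)))) (.node (.node (.leaf (nat_lit 0)) 
(.leaf (nat_lit 0x2e2))) (.node (.leaf (nat_lit 0)) (.leaf (nat_lit 0x6ef)))))) (.node (.node 
(.node (.node (.node (.leaf (nat_lit 0)) (.leaf (nat_lit 0x263))) (.leaf (nat_lit 0x51c))) (.node 
(.leaf (nat_lit 0)) (.leaf (nat_lit 0xb33)))) (.node (.node (.leaf (nat_lit 0)) 
(.leaf (nat_lit 0))) (.node (.leaf (nat_lit 0)) (.leaf (nat_lit 0x9b))))) (.node (.node (.node 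
(.node (.leaf (nat_lit 0x7)) (.leaf (nat_lit 0xa56))) (.leaf (nat_lit 0))) (.node 
(.leaf (nat_lit 0)) (.leaf (nat_lit 0xc4400000006f9)))) (.node (.node (.leaf (nat_lit 0)) 
(.leaf (nat_lit 0))) (.node (.leaf (nat_lit 0x169)) (.leaf (nat_lit 0x852)))))))
noncomputable def mt36 : Ix Nat := (.node (.node (.node (.node (.node (.node (.leaf (nat_lit 0)) 
(.leaf (nat_lit 0xab))) (.leaf (nat_lit 0))) (.node (.leaf (nat_lit 0)) (.leaf (nat_lit 0)))) 
(.node (.node (.leaf (nat_lit 0)) (.leaf (nat_lit 0))) (.node (.leaf (nat_lit 0)) 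
(.leaf (nat_lit 0x5a5))))) (.node (.node (.node (.node (.leaf (nat_lit 0)) (.leaf (nat_lit 0x217))) 
(.leaf (nat_lit 0))) (.node (.leaf (nat_lit 0)) (.leaf (nat_lit 0)))) (.node (.node 
(.leaf (nat_lit 0)) (.leaf (nat_lit 0))) (.node (.leaf (nat_lit 0)) (.leaf (nat_lit 0x141b)))))) 
(.node (.node (.node (.node (.node (.leaf (nat_lit 0)) (.leaf (nat_lit 0))) (.leaf (nat_lit 0))) 
(.node (.leaf (nat_lit 0)) (.leaf (nat_lit 0x9a0)))) (.node (.node (.leaf (nat_lit 0)) 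
(.leaf (nat_lit 0))) (.node (.leaf (nat_lit 0)) (.leaf (nat_lit 0x18d))))) (.node (.node (.node 
(.node (.leaf (nat_lit 0)) (.leaf (nat_lit 0x100))) (.leaf (nat_lit 0))) (.node (.leaf (nat_lit 0)) 
(.leaf (nat_lit 0x1a)))) (.node (.node (.leaf (nat_lit 0)) (.leaf (nat_lit 0))) (.node 
(.leaf (nat_lit 0x1ac)) (.leaf (nat_lit 0x1f)))))))
noncomputable def mt37 : Ix Nat := (.node (.node (.node (.node (.node (.node 
(.leaf (nat_lit 0x1480000000000)) (.leaf (nat_lit 0))) (.leaf (nat_lit 0))) (.node 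
(.leaf (nat_lit 0)) (.leaf (nat_lit 0)))) (.node (.node (.leaf (nat_lit 0)) 
(.leaf (nat_lit 0x33d))) (.node (.leaf (nat_lit 0)) (.leaf (nat_lit 0x22))))) (.node (.node (.node 
(.node (.leaf (nat_lit 0)) (.leaf (nat_lit 0x612))) (.leaf (nat_lit 0x5cf))) (.node 
(.leaf (nat_lit 0)) (.leaf (nat_lit 0x9a0)))) (.node (.node (.leaf (nat_lit 0)) 
(.leaf (nat_lit 0x2e2))) (.node (.leaf (nat_lit 0)) (.leaf (nat_lit 0x6ef)))))) (.node (.node 
(.node (.node (.node (.leaf (nat_lit 0)) (.leaf (nat_lit 0x263))) (.leaf (nat_lit 0x51c))) (.node 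
(.leaf (nat_lit 0)) (.leaf (nat_lit 0xb33)))) (.node (.node (.leaf (nat_lit 0)) 
(.leaf (nat_lit 0))) (.node (.leaf (nat_lit 0)) (.leaf (nat_lit 0x9b))))) (.node (.node (.node 
(.node (.leaf (nat_lit 0x7)) (.leaf (nat_lit 0xa56))) (.leaf (nat_lit 0))) (.node 
(.leaf (nat_lit 0)) (.leaf (nat_lit 0xc4400000006f9)))) (.node (.node (.leaf (nat_lit 0)) 
(.leaf (nat_lit 0))) (.node (.leaf (nat_lit 0x169)) (.leaf (nat_lit 0x852)))))))
noncomputable def mt38 : Ix Nat := (.node (.node (.node (.node (.node (.node (.leaf (nat_lit 0)) 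
(.leaf (nat_lit 0xab))) (.leaf (nat_lit 0))) (.node (.leaf (nat_lit 0)) (.leaf (nat_lit 0)))) 
(.node (.node (.leaf (nat_lit 0)) (.leaf (nat_lit 0))) (.node (.leaf (nat_lit 0)) 
(.leaf (nat_lit 0x5a5))))) (.node (.node (.node (.node (.leaf (nat_lit 0)) (.leaf (nat_lit 0x217))) 
(.leaf (nat_lit 0))) (.node (.leaf (nat_lit 0)) (.leaf (nat_lit 0)))) (.node (.node 
(.leaf (nat_lit 0)) (.leaf (nat_lit 0))) (.node (.leaf (nat_lit 0)) (.leaf (nat_lit 0x141b)))))) 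
(.node (.node (.node (.node (.node (.leaf (nat_lit 0)) (.leaf (nat_lit 0))) (.leaf (nat_lit 0))) 
(.node (.leaf (nat_lit 0)) (.leaf (nat_lit 0x9a0)))) (.node (.node (.leaf (nat_lit 0)) 
(.leaf (nat_lit 0))) (.node (.leaf (nat_lit 0)) (.leaf (nat_lit 0x18d))))) (.node (.node (.node 
(.node (.leaf (nat_lit 0)) (.leaf (nat_lit 0x100))) (.leaf (nat_lit 0))) (.node (.leaf (nat_lit 0)) 
(.leaf (nat_lit 0x1a)))) (.node (.node (.leaf (nat_lit 0)) (.leaf (nat_lit 0))) (.node 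
(.leaf (nat_lit 0x1ac)) (.leaf (nat_lit 0x1f)))))))
noncomputable def mt39 : Ix Nat := (.node (.node (.node (.node (.node 
(.leaf (nat_lit 0xe400000007a4)) (.leaf (nat_lit 0xc03))) (.leaf (nat_lit 0xb11))) (.node 
(.leaf (nat_lit 0)) (.leaf (nat_lit 0)))) (.node (.node (.node (.leaf (nat_lit 0)) 
(.leaf (nat_lit 0xb11))) (.leaf (nat_lit 0x17ac0000000bf7))) (.node (.leaf (nat_lit 0x72f)) 
(.leaf (nat_lit 0))))) (.node (.node (.node (.node (.leaf (nat_lit 0x192)) (.leaf (nat_lit 0x17f))) 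
(.leaf (nat_lit 0x4a9))) (.node (.leaf (nat_lit 0)) (.leaf (nat_lit 0)))) (.node (.node (.node 
(.leaf (nat_lit 0x4d0)) (.leaf (nat_lit 0))) (.leaf (nat_lit 0))) (.node (.leaf (nat_lit 0)) 
(.leaf (nat_lit 0))))))
noncomputable def mt40 : Ix Nat := (.node (.node (.node (.node (.node 
(.leaf (nat_lit 0xe580000000000)) (.leaf (nat_lit 0x17f))) (.leaf (nat_lit 0))) (.node 
(.leaf (nat_lit 0)) (.leaf (nat_lit 0)))) (.node (.node (.node (.leaf (nat_lit 0xa)) 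
(.leaf (nat_lit 0x4a9))) (.leaf (nat_lit 0xa8800000003ba))) (.node (.leaf (nat_lit 0)) 
(.leaf (nat_lit 0))))) (.node (.node (.node (.node (.leaf (nat_lit 0)) (.leaf (nat_lit 0x749))) 
(.leaf (nat_lit 0x8c))) (.node (.leaf (nat_lit 0)) (.leaf (nat_lit 0)))) (.node (.node (.node 
(.leaf (nat_lit 0)) (.leaf (nat_lit 0x8c))) (.leaf (nat_lit 0))) (.node (.leaf (nat_lit 0)) 
(.leaf (nat_lit 0))))))
noncomputable def mt41 : Ix Nat := (.node (.node (.node (.node (.node (.node (.leaf (nat_lit 0)) 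
(.leaf (nat_lit 0x1770cd03a0))) (.leaf (nat_lit 0xd30000))) (.node (.leaf (nat_lit 0)) 
(.leaf (nat_lit 0x2df00002d8)))) (.node (.node (.leaf (nat_lit 0)) (.leaf (nat_lit 0x2a50d10cf4))) 
(.node (.leaf (nat_lit 0xf400007cd)) (.leaf (nat_lit 0x17829902200000000164))))) (.node (.node 
(.node (.node (.leaf (nat_lit 0x2a0000000)) (.leaf (nat_lit 0x3a304a4ad3))) 
(.leaf (nat_lit 0x241097036b))) (.node (.leaf (nat_lit 0x9c0310000)) (.leaf (nat_lit 0x1a)))) 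
(.node (.node (.leaf (nat_lit 0)) (.leaf (nat_lit 0x3b))) (.node (.leaf (nat_lit 0x1a7)) 
(.leaf (nat_lit 0x6202cc3d0)))))) (.node (.node (.node (.node (.node (.leaf (nat_lit 0x20b00009fd)) 
(.leaf (nat_lit 0x6940dc))) (.leaf (nat_lit 0x280000406))) (.node 
(.leaf (nat_lit 0xd0000000000000d0000086)) (.leaf (nat_lit 0xc446f9)))) (.node (.node 
(.leaf (nat_lit 0)) (.leaf (nat_lit 0))) (.node (.leaf (nat_lit 0x24a000014b)) 
(.leaf (nat_lit 0xc6818d05ac00000b8143))))) (.node (.node (.node (.node 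
(.leaf (nat_lit 0x17b0000171)) (.leaf (nat_lit 0x494))) (.leaf (nat_lit 0x35a00086fe))) (.node 
(.leaf (nat_lit 0)) (.leaf (nat_lit 0x9c000009c22f0000000000012f)))) (.node (.node 
(.leaf (nat_lit 0)) (.leaf (nat_lit 0))) (.node (.leaf (nat_lit 0x9884010800760ab4958)) 
(.leaf (nat_lit 0x39037c000)))))))
noncomputable def mt42 : Ix Nat := (.node (.node (.node (.node (.node (.node 
(.leaf (nat_lit 0x171000000018b80000000706)) (.leaf (nat_lit 0))) (.node (.leaf (nat_lit 0)) 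
(.leaf (nat_lit 0x4)))) (.node (.node (.leaf (nat_lit 0x27c8000000075f)) (.leaf (nat_lit 0))) 
(.leaf (nat_lit 0)))) (.node (.node (.node (.leaf (nat_lit 0x6f0)) (.leaf (nat_lit 0))) 
(.leaf (nat_lit 0))) (.node (.node (.leaf (nat_lit 0)) (.leaf (nat_lit 0x2200000000e7c000000005c))) 
(.leaf (nat_lit 0x780))))) (.node (.node (.node (.node (.leaf (nat_lit 0x2b1)) (.leaf (nat_lit 0))) 
(.leaf (nat_lit 0x222c00000006a1))) (.node (.node (.leaf (nat_lit 0x4ee)) (.leaf (nat_lit 0))) 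
(.leaf (nat_lit 0)))) (.node (.node (.node (.leaf (nat_lit 0x7)) (.leaf (nat_lit 0))) 
(.leaf (nat_lit 0))) (.node (.node (.leaf (nat_lit 0)) (.leaf (nat_lit 0x17f40000000000))) 
(.leaf (nat_lit 0)))))) (.node (.node (.node (.node (.node (.leaf (nat_lit 0x1c5)) 
(.leaf (nat_lit 0))) (.node (.leaf (nat_lit 0)) (.leaf (nat_lit 0)))) (.node (.node 
(.leaf (nat_lit 0)) (.leaf (nat_lit 0))) (.leaf (nat_lit 0)))) (.node (.node (.node 
(.leaf (nat_lit 0xb72)) (.leaf (nat_lit 0))) (.leaf (nat_lit 0xb900000000000))) (.node (.node 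
(.leaf (nat_lit 0)) (.leaf (nat_lit 0x96d))) (.leaf (nat_lit 0))))) (.node (.node (.node (.node 
(.leaf (nat_lit 0x38d)) (.leaf (nat_lit 0))) (.leaf (nat_lit 0xe8000000023f))) (.node (.node 
(.leaf (nat_lit 0x1f6)) (.leaf (nat_lit 0))) (.leaf (nat_lit 0)))) (.node (.node (.node 
(.leaf (nat_lit 0x3a2)) (.leaf (nat_lit 0x90c))) (.leaf (nat_lit 0xe4c00000001d0))) (.node (.node 
(.leaf (nat_lit 0)) (.leaf (nat_lit 0x773))) (.leaf (nat_lit 0)))))))
noncomputable def mt43 : Ix Nat := (.node (.node (.node (.node (.node 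
(.leaf (nat_lit 0x2610000e9f027000014f0a58)) (.leaf (nat_lit 0x244c67d))) (.node 
(.leaf (nat_lit 0x412)) (.leaf (nat_lit 0)))) (.node (.node (.leaf (nat_lit 0x244846e)) 
(.leaf (nat_lit 0x12380000000000))) (.leaf (nat_lit 0x7f1210c0000000000)))) (.node (.node (.node 
(.leaf (nat_lit 0x26d03b8)) (.leaf (nat_lit 0x26c48a3))) (.node (.leaf (nat_lit 0x18d)) 
(.leaf (nat_lit 0)))) (.node (.node (.leaf (nat_lit 0)) (.leaf (nat_lit 0))) (.leaf (nat_lit 0))))) 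
(.node (.node (.node (.node (.leaf (nat_lit 0)) (.leaf (nat_lit 0x22f8477))) (.node 
(.leaf (nat_lit 0x9b)) (.leaf (nat_lit 0)))) (.node (.node (.leaf (nat_lit 0x2a60ef1)) 
(.leaf (nat_lit 0))) (.leaf (nat_lit 0x54200000000000000)))) (.node (.node (.node 
(.leaf (nat_lit 0x431c37b)) (.leaf (nat_lit 0x255))) 
(.leaf (nat_lit 0xc68000000018d00b800005ac143))) (.node (.node (.leaf (nat_lit 0x1b0)) 
(.leaf (nat_lit 0x5e002a))) (.leaf (nat_lit 0x2448520))))))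
noncomputable def mt44 : Ix Nat := (.node (.node (.node (.node (.node 
(.leaf (nat_lit 0xbb00000002a900000000e7e)) (.leaf (nat_lit 0))) (.node (.leaf (nat_lit 0x10e)) 
(.leaf (nat_lit 0x13440000000000)))) (.node (.node (.leaf (nat_lit 0x95)) (.leaf (nat_lit 0))) 
(.leaf (nat_lit 0)))) (.node (.node (.node (.leaf (nat_lit 0x2)) (.leaf (nat_lit 0))) (.node 
(.leaf (nat_lit 0x4ab)) (.leaf (nat_lit 0x7c8)))) (.node (.node (.leaf (nat_lit 0x2)) 
(.leaf (nat_lit 0x1ca000000003d00000000229))) (.leaf (nat_lit 0))))) (.node (.node (.node (.node 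
(.leaf (nat_lit 0x1ae00000001cf00000000000)) (.leaf (nat_lit 0x141b))) (.node (.leaf (nat_lit 0)) 
(.leaf (nat_lit 0x1423)))) (.node (.node (.leaf (nat_lit 0x17600000000178)) (.leaf (nat_lit 0x1))) 
(.leaf (nat_lit 0x47)))) (.node (.node (.node (.leaf (nat_lit 0x3900000000002)) 
(.leaf (nat_lit 0))) (.node (.leaf (nat_lit 0)) (.leaf (nat_lit 0)))) (.node (.node 
(.leaf (nat_lit 0x107)) (.leaf (nat_lit 0x184))) (.leaf (nat_lit 0x488))))))
noncomputable def mt45 : Ix Nat := (.node (.node (.node (.node (.node (.node 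
(.leaf (nat_lit 0xe800000000e6)) (.leaf (nat_lit 0))) (.node (.leaf (nat_lit 0)) 
(.leaf (nat_lit 0)))) (.node (.node (.leaf (nat_lit 0)) (.leaf (nat_lit 0x13))) 
(.leaf (nat_lit 0)))) (.node (.node (.node (.leaf (nat_lit 0x3a2)) (.leaf (nat_lit 0))) 
(.leaf (nat_lit 0))) (.node (.node (.leaf (nat_lit 0)) (.leaf (nat_lit 0x1740000000000))) 
(.leaf (nat_lit 0))))) (.node (.node (.node (.node (.leaf (nat_lit 0x47)) (.leaf (nat_lit 0))) 
(.leaf (nat_lit 0xa60000000035c0000000000))) (.node (.node (.leaf (nat_lit 0x2a)) 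
(.leaf (nat_lit 0))) (.leaf (nat_lit 0)))) (.node (.node (.node (.leaf (nat_lit 0)) 
(.leaf (nat_lit 0))) (.leaf (nat_lit 0))) (.node (.node (.leaf (nat_lit 0)) 
(.leaf (nat_lit 0x5240000000000))) (.leaf (nat_lit 0)))))) (.node (.node (.node (.node (.node 
(.leaf (nat_lit 0)) (.leaf (nat_lit 0))) (.node (.leaf (nat_lit 0)) (.leaf (nat_lit 0)))) (.node 
(.node (.leaf (nat_lit 0)) (.leaf (nat_lit 0))) (.leaf (nat_lit 0)))) (.node (.node (.node 
(.leaf (nat_lit 0xb8b)) (.leaf (nat_lit 0))) (.leaf (nat_lit 0))) (.node (.node (.leaf (nat_lit 0)) 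
(.leaf (nat_lit 0))) (.leaf (nat_lit 0))))) (.node (.node (.node (.node (.leaf (nat_lit 0x15b)) 
(.leaf (nat_lit 0))) (.leaf (nat_lit 0x1400000000000))) (.node (.node (.leaf (nat_lit 0)) 
(.leaf (nat_lit 0))) (.leaf (nat_lit 0)))) (.node (.node (.node (.leaf (nat_lit 0)) 
(.leaf (nat_lit 0x5))) (.leaf (nat_lit 0x3e80000000000))) (.node (.node (.leaf (nat_lit 0xf)) 
(.leaf (nat_lit 0))) (.leaf (nat_lit 0)))))))
noncomputable def mt46 : Ix Nat := (.node (.node (.node (.node (.node 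
(.leaf (nat_lit 0x11e000000008da)) (.leaf (nat_lit 0x66d))) (.node (.leaf (nat_lit 0x16)) 
(.leaf (nat_lit 0)))) (.node (.node (.leaf (nat_lit 0x8e6)) (.leaf (nat_lit 0))) 
(.leaf (nat_lit 0x307400000005cc)))) (.node (.node (.node (.leaf (nat_lit 0x68c)) 
(.leaf (nat_lit 0x9a9))) (.node (.leaf (nat_lit 0xab)) (.leaf (nat_lit 0)))) (.node (.node 
(.leaf (nat_lit 0)) (.leaf (nat_lit 0))) (.leaf (nat_lit 0x84e))))) (.node (.node (.node (.node 
(.leaf (nat_lit 0x13b)) (.leaf (nat_lit 0x4a7))) (.node (.leaf (nat_lit 0)) (.leaf (nat_lit 0)))) 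
(.node (.node (.leaf (nat_lit 0xc34)) (.leaf (nat_lit 0))) (.leaf (nat_lit 0x244c000000067d)))) 
(.node (.node (.node (.leaf (nat_lit 0x85c)) (.leaf (nat_lit 0x88))) 
(.leaf (nat_lit 0x17700000000cd000000003a0))) (.node (.node (.leaf (nat_lit 0)) 
(.leaf (nat_lit 0x203))) (.leaf (nat_lit 0x58d))))))
noncomputable def mt47 : Ix Nat := (.node (.node (.node (.node (.node (.node 
(.leaf (nat_lit 0xd3c0000000381)) (.leaf (nat_lit 0))) (.node (.leaf (nat_lit 0x212000000001ff)) 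
(.leaf (nat_lit 0)))) (.node (.node (.leaf (nat_lit 0x55b80000000802)) 
(.leaf (nat_lit 0xb80000000000))) (.leaf (nat_lit 0xa80000000086e)))) (.node (.node (.node 
(.leaf (nat_lit 0x2b1)) (.leaf (nat_lit 0))) (.node (.leaf (nat_lit 0)) (.leaf (nat_lit 0)))) 
(.node (.node (.leaf (nat_lit 0x4ee)) (.leaf (nat_lit 0))) (.leaf (nat_lit 0))))) (.node (.node 
(.node (.node (.leaf (nat_lit 0x7d1)) (.leaf (nat_lit 0))) (.node (.leaf (nat_lit 0)) 
(.leaf (nat_lit 0)))) (.node (.node (.leaf (nat_lit 0x18e)) (.leaf (nat_lit 0x21c000000006d))) 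
(.leaf (nat_lit 0)))) (.node (.node (.node (.leaf (nat_lit 0)) (.leaf (nat_lit 0))) (.node 
(.leaf (nat_lit 0x3680000000000)) (.leaf (nat_lit 0x52)))) (.node (.node (.leaf (nat_lit 0)) 
(.leaf (nat_lit 0))) (.leaf (nat_lit 0)))))) (.node (.node (.node (.node (.node (.leaf (nat_lit 0)) 
(.leaf (nat_lit 0))) (.node (.leaf (nat_lit 0xb4)) (.leaf (nat_lit 0x1e)))) (.node (.node 
(.leaf (nat_lit 0)) (.leaf (nat_lit 0))) (.leaf (nat_lit 0)))) (.node (.node (.node 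
(.leaf (nat_lit 0xb66)) (.leaf (nat_lit 0))) (.node (.leaf (nat_lit 0)) (.leaf (nat_lit 0)))) 
(.node (.node (.leaf (nat_lit 0x552)) (.leaf (nat_lit 0))) (.leaf (nat_lit 0))))) (.node (.node 
(.node (.node (.leaf (nat_lit 0x1d0)) (.leaf (nat_lit 0))) (.node (.leaf (nat_lit 0x216)) 
(.leaf (nat_lit 0xf40000000000)))) (.node (.node (.leaf (nat_lit 0)) (.leaf (nat_lit 0))) 
(.leaf (nat_lit 0)))) (.node (.node (.node (.leaf (nat_lit 0x47)) (.leaf (nat_lit 0))) 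
(.leaf (nat_lit 0))) (.node (.node (.leaf (nat_lit 0x2a)) (.leaf (nat_lit 0x11c))) 
(.leaf (nat_lit 0x2e)))))))
noncomputable def mt48 : Ix Nat := (.node (.node (.node (.node (.node 
(.leaf (nat_lit 0xb440000000438)) (.leaf (nat_lit 0x983))) (.node (.leaf (nat_lit 0x217)) 
(.leaf (nat_lit 0)))) (.node (.node (.leaf (nat_lit 0x61)) (.leaf (nat_lit 0))) 
(.leaf (nat_lit 0xbd5)))) (.node (.node (.node (.leaf (nat_lit 0x9e)) (.leaf (nat_lit 0x553))) 
(.node (.leaf (nat_lit 0x9a80000000538)) (.leaf (nat_lit 0x40e)))) (.node (.node 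
(.leaf (nat_lit 0x26)) (.leaf (nat_lit 0))) (.leaf (nat_lit 0x9a9))))) (.node (.node (.node (.node 
(.leaf (nat_lit 0x624)) (.leaf (nat_lit 0x2bc4000000067c))) (.node 
(.leaf (nat_lit 0x3a3000000004a40000000ad3)) (.leaf (nat_lit 0)))) (.node (.node 
(.leaf (nat_lit 0)) (.leaf (nat_lit 0))) (.leaf (nat_lit 0x628)))) (.node (.node (.node 
(.leaf (nat_lit 0xb13)) (.leaf (nat_lit 0))) (.node (.leaf (nat_lit 0x26c400000008a3)) 
(.leaf (nat_lit 0)))) (.node (.node (.leaf (nat_lit 0x612)) 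
(.leaf (nat_lit 0x24a00000000000000000014b))) (.leaf (nat_lit 0x582))))))
noncomputable def mt49 : Ix Nat := (.node (.node (.node (.node (.node (.node (.leaf (nat_lit 0x9)) 
(.leaf (nat_lit 0x88))) (.leaf (nat_lit 0))) (.node (.leaf (nat_lit 0)) (.leaf (nat_lit 0)))) 
(.node (.node (.leaf (nat_lit 0)) (.leaf (nat_lit 0))) (.node (.leaf (nat_lit 0)) 
(.leaf (nat_lit 0))))) (.node (.node (.node (.node (.leaf (nat_lit 0)) (.leaf (nat_lit 0x983))) 
(.leaf (nat_lit 0x2b4))) (.node (.leaf (nat_lit 0)) (.leaf (nat_lit 0x100)))) (.node (.node 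
(.leaf (nat_lit 0)) (.leaf (nat_lit 0))) (.node (.leaf (nat_lit 0)) (.leaf (nat_lit 0x14b2)))))) 
(.node (.node (.node (.node (.node (.leaf (nat_lit 0)) (.leaf (nat_lit 0x49))) 
(.leaf (nat_lit 0x40f))) (.node (.leaf (nat_lit 0x1a7)) (.leaf (nat_lit 0xa56)))) (.node (.node 
(.leaf (nat_lit 0)) (.leaf (nat_lit 0))) (.node (.leaf (nat_lit 0)) (.leaf (nat_lit 0x255))))) 
(.node (.node (.node (.node (.leaf (nat_lit 0x5f)) (.leaf (nat_lit 0))) (.leaf (nat_lit 0))) (.node 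
(.leaf (nat_lit 0)) (.leaf (nat_lit 0x494)))) (.node (.node (.leaf (nat_lit 0)) 
(.leaf (nat_lit 0x199))) (.node (.leaf (nat_lit 0xb)) (.leaf (nat_lit 0)))))))
noncomputable def mt50 : Ix Nat := (.node (.node (.node (.node (.node 
(.leaf (nat_lit 0xe400000007a4)) (.leaf (nat_lit 0xb11))) (.leaf (nat_lit 0x72f))) (.node 
(.leaf (nat_lit 0)) (.leaf (nat_lit 0)))) (.node (.node (.node (.leaf (nat_lit 0)) 
(.leaf (nat_lit 0xc03))) (.leaf (nat_lit 0x17ac0000000bf7))) (.node (.leaf (nat_lit 0xb11)) 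
(.leaf (nat_lit 0))))) (.node (.node (.node (.node (.leaf (nat_lit 0x192)) (.leaf (nat_lit 0))) 
(.leaf (nat_lit 0))) (.node (.leaf (nat_lit 0)) (.leaf (nat_lit 0)))) (.node (.node (.node 
(.leaf (nat_lit 0x4d0)) (.leaf (nat_lit 0x17f))) (.leaf (nat_lit 0))) (.node 
(.leaf (nat_lit 0x4a9)) (.leaf (nat_lit 0))))))
noncomputable def mt51 : Ix Nat := (.node (.node (.node (.node (.node 
(.leaf (nat_lit 0xe580000000000)) (.leaf (nat_lit 0x4a9))) (.leaf (nat_lit 0))) (.node 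
(.leaf (nat_lit 0)) (.leaf (nat_lit 0)))) (.node (.node (.node (.leaf (nat_lit 0xa)) 
(.leaf (nat_lit 0x17f))) (.leaf (nat_lit 0xa8800000003ba))) (.node (.leaf (nat_lit 0)) 
(.leaf (nat_lit 0))))) (.node (.node (.node (.node (.leaf (nat_lit 0)) (.leaf (nat_lit 0x8c))) 
(.leaf (nat_lit 0))) (.node (.leaf (nat_lit 0)) (.leaf (nat_lit 0)))) (.node (.node (.node 
(.leaf (nat_lit 0)) (.leaf (nat_lit 0x749))) (.leaf (nat_lit 0))) (.node (.leaf (nat_lit 0x8c)) 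
(.leaf (nat_lit 0))))))
noncomputable def mt52 : Ix Nat := (.node (.node (.node (.node (.node (.node (.leaf (nat_lit 0)) 
(.leaf (nat_lit 0x1770cd03a0))) (.leaf (nat_lit 0xd30000))) (.node (.leaf (nat_lit 0)) 
(.leaf (nat_lit 0x2df00002d8)))) (.node (.node (.leaf (nat_lit 0)) (.leaf (nat_lit 0x2a50d10cf4))) 
(.node (.leaf (nat_lit 0xf400007cd)) (.leaf (nat_lit 0x17829902200000000164))))) (.node (.node 
(.node (.node (.leaf (nat_lit 0x2a0000000)) (.leaf (nat_lit 0x3a304a4ad3))) 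
(.leaf (nat_lit 0x241097036b))) (.node (.leaf (nat_lit 0x9c0310000)) (.leaf (nat_lit 0x1a)))) 
(.node (.node (.leaf (nat_lit 0)) (.leaf (nat_lit 0x3b))) (.node (.leaf (nat_lit 0x1a7)) 
(.leaf (nat_lit 0x6202cc3d0)))))) (.node (.node (.node (.node (.node (.leaf (nat_lit 0x20b00009fd)) 
(.leaf (nat_lit 0x6940dc))) (.leaf (nat_lit 0x280000406))) (.node 
(.leaf (nat_lit 0xd0000000000000d0000086)) (.leaf (nat_lit 0xc446f9)))) (.node (.node 
(.leaf (nat_lit 0)) (.leaf (nat_lit 0))) (.node (.leaf (nat_lit 0x24a000014b)) 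
(.leaf (nat_lit 0xc6818d05ac00000b8143))))) (.node (.node (.node (.node 
(.leaf (nat_lit 0x17b0000171)) (.leaf (nat_lit 0x494))) (.leaf (nat_lit 0x35a00086fe))) (.node 
(.leaf (nat_lit 0)) (.leaf (nat_lit 0x9c000009c22f0000000000012f)))) (.node (.node 
(.leaf (nat_lit 0)) (.leaf (nat_lit 0))) (.node (.leaf (nat_lit 0x9884010800760ab4958)) 
(.leaf (nat_lit 0x39037c000)))))))
noncomputable def mt53 : Ix Nat := (.node (.node (.node (.node (.node (.node 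
(.leaf (nat_lit 0x171000000018b80000000706)) (.leaf (nat_lit 0))) (.node (.leaf (nat_lit 0)) 
(.leaf (nat_lit 0x4)))) (.node (.node (.leaf (nat_lit 0x27c8000000075f)) (.leaf (nat_lit 0))) 
(.leaf (nat_lit 0)))) (.node (.node (.node (.leaf (nat_lit 0x6f0)) (.leaf (nat_lit 0))) 
(.leaf (nat_lit 0))) (.node (.node (.leaf (nat_lit 0)) (.leaf (nat_lit 0x2200000000e7c000000005c))) 
(.leaf (nat_lit 0))))) (.node (.node (.node (.node (.leaf (nat_lit 0x2b1)) (.leaf (nat_lit 0))) 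
(.leaf (nat_lit 0x222c00000006a1))) (.node (.node (.leaf (nat_lit 0x4ee)) (.leaf (nat_lit 0))) 
(.leaf (nat_lit 0x780)))) (.node (.node (.node (.leaf (nat_lit 0x7)) (.leaf (nat_lit 0))) 
(.leaf (nat_lit 0))) (.node (.node (.leaf (nat_lit 0)) (.leaf (nat_lit 0x17f40000000000))) 
(.leaf (nat_lit 0)))))) (.node (.node (.node (.node (.node (.leaf (nat_lit 0x1c5)) 
(.leaf (nat_lit 0))) (.node (.leaf (nat_lit 0)) (.leaf (nat_lit 0)))) (.node (.node 
(.leaf (nat_lit 0)) (.leaf (nat_lit 0))) (.leaf (nat_lit 0)))) (.node (.node (.node 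
(.leaf (nat_lit 0xb72)) (.leaf (nat_lit 0x90c))) (.leaf (nat_lit 0xe4c00000001d0))) (.node (.node 
(.leaf (nat_lit 0)) (.leaf (nat_lit 0x96d))) (.leaf (nat_lit 0))))) (.node (.node (.node (.node 
(.leaf (nat_lit 0x38d)) (.leaf (nat_lit 0))) (.leaf (nat_lit 0xe8000000023f))) (.node (.node 
(.leaf (nat_lit 0x1f6)) (.leaf (nat_lit 0))) (.leaf (nat_lit 0)))) (.node (.node (.node 
(.leaf (nat_lit 0x3a2)) (.leaf (nat_lit 0))) (.leaf (nat_lit 0xb900000000000))) (.node (.node 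
(.leaf (nat_lit 0)) (.leaf (nat_lit 0x773))) (.leaf (nat_lit 0)))))))
noncomputable def mt54 : Ix Nat := (.node (.node (.node (.node (.node 
(.leaf (nat_lit 0x2610000e9f027000014f0a58)) (.leaf (nat_lit 0x244c67d))) (.node 
(.leaf (nat_lit 0x412)) (.leaf (nat_lit 0)))) (.node (.node (.leaf (nat_lit 0x244846e)) 
(.leaf (nat_lit 0x12380000000000))) (.leaf (nat_lit 0x7f1210c0000000000)))) (.node (.node (.node 
(.leaf (nat_lit 0x26d03b8)) (.leaf (nat_lit 0x26c48a3))) (.node (.leaf (nat_lit 0x18d)) 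
(.leaf (nat_lit 0)))) (.node (.node (.leaf (nat_lit 0)) (.leaf (nat_lit 0))) (.leaf (nat_lit 0))))) 
(.node (.node (.node (.node (.leaf (nat_lit 0)) (.leaf (nat_lit 0x22f8477))) (.node 
(.leaf (nat_lit 0x9b)) (.leaf (nat_lit 0)))) (.node (.node (.leaf (nat_lit 0x2a60ef1)) 
(.leaf (nat_lit 0))) (.leaf (nat_lit 0x54200000000000000)))) (.node (.node (.node 
(.leaf (nat_lit 0x431c37b)) (.leaf (nat_lit 0x255))) 
(.leaf (nat_lit 0xc68000000018d00b800005ac143))) (.node (.node (.leaf (nat_lit 0x1b0)) 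
(.leaf (nat_lit 0x5e002a))) (.leaf (nat_lit 0x2448520))))))
noncomputable def mt55 : Ix Nat := (.node (.node (.node (.node (.node 
(.leaf (nat_lit 0xbb00000002a900000000e7e)) (.leaf (nat_lit 0))) (.node (.leaf (nat_lit 0x4ab)) 
(.leaf (nat_lit 0x13440000000000)))) (.node (.node (.leaf (nat_lit 0x2)) (.leaf (nat_lit 0))) 
(.leaf (nat_lit 0)))) (.node (.node (.node (.leaf (nat_lit 0x2)) (.leaf (nat_lit 0))) (.node 
(.leaf (nat_lit 0x10e)) (.leaf (nat_lit 0x7c8)))) (.node (.node (.leaf (nat_lit 0x95)) 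
(.leaf (nat_lit 0x1ca000000003d00000000229))) (.leaf (nat_lit 0))))) (.node (.node (.node (.node 
(.leaf (nat_lit 0x1ae00000001cf00000000000)) (.leaf (nat_lit 0x488))) (.node (.leaf (nat_lit 0)) 
(.leaf (nat_lit 0x1423)))) (.node (.node (.leaf (nat_lit 0x3900000000002)) (.leaf (nat_lit 0x1))) 
(.leaf (nat_lit 0x47)))) (.node (.node (.node (.leaf (nat_lit 0x17600000000178)) 
(.leaf (nat_lit 0))) (.node (.leaf (nat_lit 0)) (.leaf (nat_lit 0)))) (.node (.node 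
(.leaf (nat_lit 0x107)) (.leaf (nat_lit 0x184))) (.leaf (nat_lit 0x141b))))))
noncomputable def mt56 : Ix Nat := (.node (.node (.node (.node (.node (.node 
(.leaf (nat_lit 0xe800000000e6)) (.leaf (nat_lit 0))) (.node (.leaf (nat_lit 0)) 
(.leaf (nat_lit 0)))) (.node (.node (.leaf (nat_lit 0)) (.leaf (nat_lit 0))) (.leaf (nat_lit 0)))) 
(.node (.node (.node (.leaf (nat_lit 0x3a2)) (.leaf (nat_lit 0))) (.leaf (nat_lit 0))) (.node 
(.node (.leaf (nat_lit 0)) (.leaf (nat_lit 0x1740000000000))) (.leaf (nat_lit 0))))) (.node (.node 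
(.node (.node (.leaf (nat_lit 0x47)) (.leaf (nat_lit 0))) 
(.leaf (nat_lit 0xa60000000035c0000000000))) (.node (.node (.leaf (nat_lit 0x2a)) 
(.leaf (nat_lit 0))) (.leaf (nat_lit 0)))) (.node (.node (.node (.leaf (nat_lit 0)) 
(.leaf (nat_lit 0x13))) (.leaf (nat_lit 0))) (.node (.node (.leaf (nat_lit 0)) 
(.leaf (nat_lit 0x5240000000000))) (.leaf (nat_lit 0)))))) (.node (.node (.node (.node (.node 
(.leaf (nat_lit 0)) (.leaf (nat_lit 0))) (.node (.leaf (nat_lit 0xf)) (.leaf (nat_lit 0)))) (.node 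
(.node (.leaf (nat_lit 0)) (.leaf (nat_lit 0))) (.leaf (nat_lit 0)))) (.node (.node (.node 
(.leaf (nat_lit 0xb8b)) (.leaf (nat_lit 0x5))) (.leaf (nat_lit 0x3e80000000000))) (.node (.node 
(.leaf (nat_lit 0)) (.leaf (nat_lit 0))) (.leaf (nat_lit 0))))) (.node (.node (.node (.node 
(.leaf (nat_lit 0x15b)) (.leaf (nat_lit 0))) (.leaf (nat_lit 0x1400000000000))) (.node (.node 
(.leaf (nat_lit 0)) (.leaf (nat_lit 0))) (.leaf (nat_lit 0)))) (.node (.node (.node 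
(.leaf (nat_lit 0)) (.leaf (nat_lit 0))) (.leaf (nat_lit 0))) (.node (.node (.leaf (nat_lit 0)) 
(.leaf (nat_lit 0))) (.leaf (nat_lit 0)))))))
noncomputable def mt57 : Ix Nat := (.node (.node (.node (.node (.node 
(.leaf (nat_lit 0x11e000000008da)) (.leaf (nat_lit 0x66d))) (.node (.leaf (nat_lit 0x16)) 
(.leaf (nat_lit 0)))) (.node (.node (.leaf (nat_lit 0x8e6)) (.leaf (nat_lit 0))) 
(.leaf (nat_lit 0x307400000005cc)))) (.node (.node (.node (.leaf (nat_lit 0x68c)) 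
(.leaf (nat_lit 0x9a9))) (.node (.leaf (nat_lit 0xab)) (.leaf (nat_lit 0)))) (.node (.node 
(.leaf (nat_lit 0)) (.leaf (nat_lit 0))) (.leaf (nat_lit 0x84e))))) (.node (.node (.node (.node 
(.leaf (nat_lit 0x13b)) (.leaf (nat_lit 0x4a7))) (.node (.leaf (nat_lit 0)) (.leaf (nat_lit 0)))) 
(.node (.node (.leaf (nat_lit 0xc34)) (.leaf (nat_lit 0))) (.leaf (nat_lit 0x244c000000067d)))) 
(.node (.node (.node (.leaf (nat_lit 0x85c)) (.leaf (nat_lit 0x88))) 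
(.leaf (nat_lit 0x17700000000cd000000003a0))) (.node (.node (.leaf (nat_lit 0)) 
(.leaf (nat_lit 0x203))) (.leaf (nat_lit 0x58d))))))
noncomputable def mt58 : Ix Nat := (.node (.node (.node (.node (.node (.node 
(.leaf (nat_lit 0xd3c0000000381)) (.leaf (nat_lit 0))) (.node (.leaf (nat_lit 0x212000000001ff)) 
(.leaf (nat_lit 0)))) (.node (.node (.leaf (nat_lit 0x55b80000000802)) (.leaf (nat_lit 0x1e))) 
(.leaf (nat_lit 0)))) (.node (.node (.node (.leaf (nat_lit 0x2b1)) (.leaf (nat_lit 0))) (.node 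
(.leaf (nat_lit 0)) (.leaf (nat_lit 0)))) (.node (.node (.leaf (nat_lit 0x4ee)) 
(.leaf (nat_lit 0))) (.leaf (nat_lit 0))))) (.node (.node (.node (.node (.leaf (nat_lit 0x7d1)) 
(.leaf (nat_lit 0))) (.node (.leaf (nat_lit 0)) (.leaf (nat_lit 0)))) (.node (.node 
(.leaf (nat_lit 0x18e)) (.leaf (nat_lit 0xf40000000000))) (.leaf (nat_lit 0xa80000000086e)))) 
(.node (.node (.node (.leaf (nat_lit 0)) (.leaf (nat_lit 0x11c))) (.node 
(.leaf (nat_lit 0x3680000000000)) (.leaf (nat_lit 0)))) (.node (.node (.leaf (nat_lit 0)) 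
(.leaf (nat_lit 0))) (.leaf (nat_lit 0)))))) (.node (.node (.node (.node (.node (.leaf (nat_lit 0)) 
(.leaf (nat_lit 0))) (.node (.leaf (nat_lit 0x216)) (.leaf (nat_lit 0xb80000000000)))) (.node 
(.node (.leaf (nat_lit 0)) (.leaf (nat_lit 0))) (.leaf (nat_lit 0)))) (.node (.node (.node 
(.leaf (nat_lit 0xb66)) (.leaf (nat_lit 0))) (.node (.leaf (nat_lit 0)) (.leaf (nat_lit 0)))) 
(.node (.node (.leaf (nat_lit 0x552)) (.leaf (nat_lit 0x52))) (.leaf (nat_lit 0x2e))))) (.node 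
(.node (.node (.node (.leaf (nat_lit 0x1d0)) (.leaf (nat_lit 0))) (.node (.leaf (nat_lit 0xb4)) 
(.leaf (nat_lit 0x21c000000006d)))) (.node (.node (.leaf (nat_lit 0)) (.leaf (nat_lit 0))) 
(.leaf (nat_lit 0)))) (.node (.node (.node (.leaf (nat_lit 0x47)) (.leaf (nat_lit 0))) 
(.leaf (nat_lit 0))) (.node (.node (.leaf (nat_lit 0x2a)) (.leaf (nat_lit 0))) 
(.leaf (nat_lit 0)))))))
noncomputable def mt59 : Ix Nat := (.node (.node (.node (.node (.node 
(.leaf (nat_lit 0xb440000000438)) (.leaf (nat_lit 0x983))) (.node (.leaf (nat_lit 0x217)) 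
(.leaf (nat_lit 0)))) (.node (.node (.leaf (nat_lit 0x61)) (.leaf (nat_lit 0))) 
(.leaf (nat_lit 0xbd5)))) (.node (.node (.node (.leaf (nat_lit 0x9e)) (.leaf (nat_lit 0x553))) 
(.node (.leaf (nat_lit 0x9a80000000538)) (.leaf (nat_lit 0x40e)))) (.node (.node 
(.leaf (nat_lit 0x26)) (.leaf (nat_lit 0))) (.leaf (nat_lit 0x9a9))))) (.node (.node (.node (.node 
(.leaf (nat_lit 0x624)) (.leaf (nat_lit 0x2bc4000000067c))) (.node 
(.leaf (nat_lit 0x3a3000000004a40000000ad3)) (.leaf (nat_lit 0)))) (.node (.node 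
(.leaf (nat_lit 0)) (.leaf (nat_lit 0))) (.leaf (nat_lit 0x628)))) (.node (.node (.node 
(.leaf (nat_lit 0xb13)) (.leaf (nat_lit 0))) (.node (.leaf (nat_lit 0x26c400000008a3)) 
(.leaf (nat_lit 0)))) (.node (.node (.leaf (nat_lit 0x612)) 
(.leaf (nat_lit 0x24a00000000000000000014b))) (.leaf (nat_lit 0x582))))))
noncomputable def mt60 : Ix Nat := (.node (.node (.node (.node (.node (.node (.leaf (nat_lit 0x9)) 
(.leaf (nat_lit 0x88))) (.leaf (nat_lit 0))) (.node (.leaf (nat_lit 0)) (.leaf (nat_lit 0)))) 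
(.node (.node (.leaf (nat_lit 0)) (.leaf (nat_lit 0))) (.node (.leaf (nat_lit 0)) 
(.leaf (nat_lit 0))))) (.node (.node (.node (.node (.leaf (nat_lit 0)) (.leaf (nat_lit 0x983))) 
(.leaf (nat_lit 0x2b4))) (.node (.leaf (nat_lit 0)) (.leaf (nat_lit 0x100)))) (.node (.node 
(.leaf (nat_lit 0)) (.leaf (nat_lit 0))) (.node (.leaf (nat_lit 0)) (.leaf (nat_lit 0x14b2)))))) 
(.node (.node (.node (.node (.node (.leaf (nat_lit 0)) (.leaf (nat_lit 0x49))) 
(.leaf (nat_lit 0x40f))) (.node (.leaf (nat_lit 0x1a7)) (.leaf (nat_lit 0xa56)))) (.node (.node 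
(.leaf (nat_lit 0)) (.leaf (nat_lit 0))) (.node (.leaf (nat_lit 0)) (.leaf (nat_lit 0x255))))) 
(.node (.node (.node (.node (.leaf (nat_lit 0x5f)) (.leaf (nat_lit 0))) (.leaf (nat_lit 0))) (.node 
(.leaf (nat_lit 0)) (.leaf (nat_lit 0x494)))) (.node (.node (.leaf (nat_lit 0)) 
(.leaf (nat_lit 0x199))) (.node (.leaf (nat_lit 0xb)) (.leaf (nat_lit 0)))))))
noncomputable def mt61 : Ix Nat := (.node (.node (.node (.node (.node 
(.leaf (nat_lit 0xcd3000000000001a2)) (.leaf (nat_lit 0x368000))) (.leaf (nat_lit 0))) (.node 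
(.node (.leaf (nat_lit 0)) (.leaf (nat_lit 0x1ae1cf0000))) (.leaf (nat_lit 0)))) (.node (.node 
(.node (.leaf (nat_lit 0)) (.leaf (nat_lit 0xe823f))) (.leaf (nat_lit 0x1f90000))) (.node (.node 
(.leaf (nat_lit 0)) (.leaf (nat_lit 0x140000))) (.leaf (nat_lit 0x240000))))) (.node (.node (.node 
(.node (.leaf (nat_lit 0x2e0000)) (.leaf (nat_lit 0))) (.leaf (nat_lit 0xe823f))) (.node (.node 
(.leaf (nat_lit 0x240000)) (.leaf (nat_lit 0))) (.leaf (nat_lit 0x140000)))) (.node (.node (.node 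
(.leaf (nat_lit 0x2e0000)) (.leaf (nat_lit 0x1f90000))) (.leaf (nat_lit 0x1ae1cf0000))) (.node 
(.leaf (nat_lit 0x368000)) (.leaf (nat_lit 0))))))
noncomputable def mt62 : Ix Nat := (.node (.node (.node (.node (.node 
(.leaf (nat_lit 0x4c0000000000)) (.leaf (nat_lit 0))) (.leaf (nat_lit 0))) (.node 
(.leaf (nat_lit 0)) (.leaf (nat_lit 0)))) (.node (.node (.node (.leaf (nat_lit 0)) 
(.leaf (nat_lit 0))) (.leaf (nat_lit 0x4c0000000000))) (.node (.leaf (nat_lit 0)) 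
(.leaf (nat_lit 0))))) (.node (.node (.node (.node (.leaf (nat_lit 0)) (.leaf (nat_lit 0xa))) 
(.leaf (nat_lit 0xa))) (.node (.leaf (nat_lit 0)) (.leaf (nat_lit 0)))) (.node (.node (.node 
(.leaf (nat_lit 0)) (.leaf (nat_lit 0))) (.leaf (nat_lit 0))) (.node (.leaf (nat_lit 0)) 
(.leaf (nat_lit 0))))))
noncomputable def mt63 : Ix Nat := (.node (.node (.node (.node (.node (.node 
(.leaf (nat_lit 0xadc0000000000)) (.leaf (nat_lit 0x5b))) (.leaf (nat_lit 0))) (.node 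
(.leaf (nat_lit 0)) (.leaf (nat_lit 0x51c)))) (.node (.node (.leaf (nat_lit 0)) 
(.leaf (nat_lit 0x54b))) (.node (.leaf (nat_lit 0)) (.leaf (nat_lit 0x26d000000003b8))))) (.node 
(.node (.node (.leaf (nat_lit 0)) (.leaf (nat_lit 0x5f6))) (.node (.leaf (nat_lit 0x2e1)) 
(.leaf (nat_lit 0x28000000000000000000406)))) (.node (.node (.leaf (nat_lit 0)) 
(.leaf (nat_lit 0))) (.node (.leaf (nat_lit 0)) (.leaf (nat_lit 0)))))) (.node (.node (.node (.node 
(.node (.leaf (nat_lit 0)) (.leaf (nat_lit 0x40f))) (.leaf (nat_lit 0x8bf))) (.node 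
(.leaf (nat_lit 0x2a000000000000000000000)) (.leaf (nat_lit 0)))) (.node (.node (.leaf (nat_lit 0)) 
(.leaf (nat_lit 0))) (.node (.leaf (nat_lit 0)) (.leaf (nat_lit 0x248))))) (.node (.node (.node 
(.leaf (nat_lit 0)) (.leaf (nat_lit 0x3))) (.node (.leaf (nat_lit 0)) 
(.leaf (nat_lit 0x3180000000012)))) (.node (.node (.leaf (nat_lit 0)) (.leaf (nat_lit 0))) (.node 
(.leaf (nat_lit 0)) (.leaf (nat_lit 0x68c)))))))
noncomputable def mt64 : Ix Nat := (.node (.node (.node (.node (.node (.node (.leaf (nat_lit 0)) 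
(.leaf (nat_lit 0))) (.leaf (nat_lit 0))) (.node (.leaf (nat_lit 0)) (.leaf (nat_lit 0x2e2)))) 
(.node (.node (.leaf (nat_lit 0)) (.leaf (nat_lit 0x173))) (.node (.leaf (nat_lit 0)) 
(.leaf (nat_lit 0x1b0))))) (.node (.node (.node (.leaf (nat_lit 0)) (.leaf (nat_lit 0))) (.node 
(.leaf (nat_lit 0x2)) (.leaf (nat_lit 0x3b)))) (.node (.node (.leaf (nat_lit 0)) 
(.leaf (nat_lit 0x122))) (.node (.leaf (nat_lit 0)) (.leaf (nat_lit 0)))))) (.node (.node (.node 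
(.node (.node (.leaf (nat_lit 0)) (.leaf (nat_lit 0))) (.leaf (nat_lit 0xd8))) (.node 
(.leaf (nat_lit 0)) (.leaf (nat_lit 0)))) (.node (.node (.leaf (nat_lit 0)) (.leaf (nat_lit 0))) 
(.node (.leaf (nat_lit 0)) (.leaf (nat_lit 0x1422))))) (.node (.node (.node (.leaf (nat_lit 0)) 
(.leaf (nat_lit 0))) (.node (.leaf (nat_lit 0)) (.leaf (nat_lit 0x2e2)))) (.node (.node 
(.leaf (nat_lit 0)) (.leaf (nat_lit 0))) (.node (.leaf (nat_lit 0)) (.leaf (nat_lit 0)))))))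
noncomputable def mt65 : Ix Nat := (.node (.node (.node (.node (.node (.node 
(.leaf (nat_lit 0xadc0000000000)) (.leaf (nat_lit 0x5b))) (.leaf (nat_lit 0))) (.node 
(.leaf (nat_lit 0)) (.leaf (nat_lit 0x51c)))) (.node (.node (.leaf (nat_lit 0)) 
(.leaf (nat_lit 0x54b))) (.node (.leaf (nat_lit 0)) (.leaf (nat_lit 0x26d000000003b8))))) (.node 
(.node (.node (.leaf (nat_lit 0)) (.leaf (nat_lit 0x5f6))) (.node (.leaf (nat_lit 0x2e1)) 
(.leaf (nat_lit 0x28000000000000000000406)))) (.node (.node (.leaf (nat_lit 0)) 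
(.leaf (nat_lit 0))) (.node (.leaf (nat_lit 0)) (.leaf (nat_lit 0)))))) (.node (.node (.node (.node 
(.node (.leaf (nat_lit 0)) (.leaf (nat_lit 0x40f))) (.leaf (nat_lit 0x8bf))) (.node 
(.leaf (nat_lit 0x2a000000000000000000000)) (.leaf (nat_lit 0)))) (.node (.node (.leaf (nat_lit 0)) 
(.leaf (nat_lit 0))) (.node (.leaf (nat_lit 0)) (.leaf (nat_lit 0x248))))) (.node (.node (.node 
(.leaf (nat_lit 0)) (.leaf (nat_lit 0x3))) (.node (.leaf (nat_lit 0)) 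
(.leaf (nat_lit 0x3180000000012)))) (.node (.node (.leaf (nat_lit 0)) (.leaf (nat_lit 0))) (.node 
(.leaf (nat_lit 0)) (.leaf (nat_lit 0x68c)))))))
noncomputable def mt66 : Ix Nat := (.node (.node (.node (.node (.node (.node (.leaf (nat_lit 0)) 
(.leaf (nat_lit 0))) (.leaf (nat_lit 0))) (.node (.leaf (nat_lit 0)) (.leaf (nat_lit 0x2e2)))) 
(.node (.node (.leaf (nat_lit 0)) (.leaf (nat_lit 0x173))) (.node (.leaf (nat_lit 0)) 
(.leaf (nat_lit 0x1b0))))) (.node (.node (.node (.leaf (nat_lit 0)) (.leaf (nat_lit 0))) (.node 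
(.leaf (nat_lit 0x2)) (.leaf (nat_lit 0x3b)))) (.node (.node (.leaf (nat_lit 0)) 
(.leaf (nat_lit 0x122))) (.node (.leaf (nat_lit 0)) (.leaf (nat_lit 0)))))) (.node (.node (.node 
(.node (.node (.leaf (nat_lit 0)) (.leaf (nat_lit 0))) (.leaf (nat_lit 0xd8))) (.node 
(.leaf (nat_lit 0)) (.leaf (nat_lit 0)))) (.node (.node (.leaf (nat_lit 0)) (.leaf (nat_lit 0))) 
(.node (.leaf (nat_lit 0)) (.leaf (nat_lit 0x1422))))) (.node (.node (.node (.leaf (nat_lit 0)) 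
(.leaf (nat_lit 0))) (.node (.leaf (nat_lit 0)) (.leaf (nat_lit 0x2e2)))) (.node (.node 
(.leaf (nat_lit 0)) (.leaf (nat_lit 0))) (.node (.leaf (nat_lit 0)) (.leaf (nat_lit 0)))))))
noncomputable def mt67 : Ix Nat := (.node (.node (.node (.node (.node (.leaf (nat_lit 0)) 
(.leaf (nat_lit 0))) (.leaf (nat_lit 0))) (.node (.node (.leaf (nat_lit 0)) 
(.leaf (nat_lit 0x107))) (.leaf (nat_lit 0)))) (.node (.node (.node (.leaf (nat_lit 0)) 
(.leaf (nat_lit 0))) (.leaf (nat_lit 0))) (.node (.node (.leaf (nat_lit 0)) (.leaf (nat_lit 0))) 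
(.leaf (nat_lit 0))))) (.node (.node (.node (.node (.leaf (nat_lit 0)) (.leaf (nat_lit 0))) 
(.leaf (nat_lit 0))) (.node (.node (.leaf (nat_lit 0)) (.leaf (nat_lit 0))) (.leaf (nat_lit 0)))) 
(.node (.node (.node (.leaf (nat_lit 0)) (.leaf (nat_lit 0))) (.leaf (nat_lit 0x107))) (.node 
(.leaf (nat_lit 0)) (.leaf (nat_lit 0))))))
noncomputable def mt68 : Ix Nat := (.node (.node (.node (.node (.node 
(.leaf (nat_lit 0x9bc00000007b4)) (.leaf (nat_lit 0))) (.leaf (nat_lit 0))) (.node (.node 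
(.leaf (nat_lit 0x780)) (.leaf (nat_lit 0))) (.leaf (nat_lit 0)))) (.node (.node (.node 
(.leaf (nat_lit 0)) (.leaf (nat_lit 0xaa000000000000000000000))) (.leaf (nat_lit 0))) (.node (.node 
(.leaf (nat_lit 0x4ab)) (.leaf (nat_lit 0))) (.leaf (nat_lit 0))))) (.node (.node (.node (.node 
(.leaf (nat_lit 0x12)) (.leaf (nat_lit 0))) (.leaf (nat_lit 0x35000000004e4))) (.node (.node 
(.leaf (nat_lit 0x4b0)) (.leaf (nat_lit 0x1a7))) (.leaf (nat_lit 0)))) (.node (.node (.node 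
(.leaf (nat_lit 0x59)) (.leaf (nat_lit 0x7))) (.leaf (nat_lit 0x2e))) (.node (.leaf (nat_lit 0)) 
(.leaf (nat_lit 0x10e))))))
noncomputable def mt69 : Ix Nat := (.node (.node (.node (.node (.node (.leaf (nat_lit 0)) 
(.leaf (nat_lit 0))) (.leaf (nat_lit 0))) (.node (.node (.leaf (nat_lit 0)) (.leaf (nat_lit 0))) 
(.leaf (nat_lit 0)))) (.node (.node (.node (.leaf (nat_lit 0)) (.leaf (nat_lit 0))) 
(.leaf (nat_lit 0))) (.node (.node (.leaf (nat_lit 0)) (.leaf (nat_lit 0))) (.leaf (nat_lit 0))))) 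
(.node (.node (.node (.node (.leaf (nat_lit 0)) (.leaf (nat_lit 0))) (.leaf (nat_lit 0))) (.node 
(.node (.leaf (nat_lit 0)) (.leaf (nat_lit 0))) (.leaf (nat_lit 0)))) (.node (.node (.node 
(.leaf (nat_lit 0)) (.leaf (nat_lit 0))) (.leaf (nat_lit 0))) (.node (.leaf (nat_lit 0)) 
(.leaf (nat_lit 0))))))
noncomputable def mt70 : Ix Nat := (.node (.node (.node (.node (.node 
(.leaf (nat_lit 0x9bc00000007b4)) (.leaf (nat_lit 0))) (.leaf (nat_lit 0))) (.node (.node 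
(.leaf (nat_lit 0x780)) (.leaf (nat_lit 0))) (.leaf (nat_lit 0)))) (.node (.node (.node 
(.leaf (nat_lit 0)) (.leaf (nat_lit 0xaa000000000000000000000))) (.leaf (nat_lit 0))) (.node (.node 
(.leaf (nat_lit 0x4ab)) (.leaf (nat_lit 0))) (.leaf (nat_lit 0))))) (.node (.node (.node (.node 
(.leaf (nat_lit 0x12)) (.leaf (nat_lit 0))) (.leaf (nat_lit 0x35000000004e4))) (.node (.node 
(.leaf (nat_lit 0x4b0)) (.leaf (nat_lit 0x7))) (.leaf (nat_lit 0)))) (.node (.node (.node 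
(.leaf (nat_lit 0x59)) (.leaf (nat_lit 0x1a7))) (.leaf (nat_lit 0x2e))) (.node (.leaf (nat_lit 0)) 
(.leaf (nat_lit 0x10e))))))
noncomputable def mt71 : Ix Nat := (.node (.node (.node (.node (.node (.leaf (nat_lit 0)) 
(.leaf (nat_lit 0))) (.leaf (nat_lit 0))) (.node (.node (.leaf (nat_lit 0)) (.leaf (nat_lit 0))) 
(.leaf (nat_lit 0)))) (.node (.node (.node (.leaf (nat_lit 0)) (.leaf (nat_lit 0))) 
(.leaf (nat_lit 0))) (.node (.node (.leaf (nat_lit 0)) (.leaf (nat_lit 0))) (.leaf (nat_lit 0))))) 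
(.node (.node (.node (.node (.leaf (nat_lit 0)) (.leaf (nat_lit 0))) (.leaf (nat_lit 0))) (.node 
(.node (.leaf (nat_lit 0)) (.leaf (nat_lit 0))) (.leaf (nat_lit 0)))) (.node (.node (.node 
(.leaf (nat_lit 0)) (.leaf (nat_lit 0))) (.leaf (nat_lit 0))) (.node (.leaf (nat_lit 0)) 
(.leaf (nat_lit 0))))))
noncomputable def mt72 : Ix Nat := (.node (.node (.node (.node (.node (.leaf (nat_lit 0)) 
(.leaf (nat_lit 0))) (.leaf (nat_lit 0))) (.node (.node (.leaf (nat_lit 0)) (.leaf (nat_lit 0))) 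
(.leaf (nat_lit 0)))) (.node (.node (.node (.leaf (nat_lit 0)) (.leaf (nat_lit 0))) 
(.leaf (nat_lit 0))) (.node (.leaf (nat_lit 0)) (.leaf (nat_lit 0))))) (.node (.node (.node (.node 
(.leaf (nat_lit 0)) (.leaf (nat_lit 0))) (.leaf (nat_lit 0))) (.node (.leaf (nat_lit 0)) 
(.leaf (nat_lit 0)))) (.node (.node (.node (.leaf (nat_lit 0)) (.leaf (nat_lit 0))) 
(.leaf (nat_lit 0))) (.node (.leaf (nat_lit 0)) (.leaf (nat_lit 0))))))
noncomputable def mt73 : Ix Nat := (.node (.node (.node (.node (.node (.leaf (nat_lit 0)) 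
(.leaf (nat_lit 0))) (.leaf (nat_lit 0))) (.node (.node (.leaf (nat_lit 0)) (.leaf (nat_lit 0))) 
(.leaf (nat_lit 0)))) (.node (.node (.node (.leaf (nat_lit 0)) (.leaf (nat_lit 0))) 
(.leaf (nat_lit 0))) (.node (.leaf (nat_lit 0)) (.leaf (nat_lit 0))))) (.node (.node (.node (.node 
(.leaf (nat_lit 0)) (.leaf (nat_lit 0))) (.leaf (nat_lit 0))) (.node 
(.leaf (nat_lit 0x1280000000000)) (.leaf (nat_lit 0x1280000000000)))) (.node (.node (.node 
(.leaf (nat_lit 0)) (.leaf (nat_lit 0))) (.leaf (nat_lit 0))) (.node (.leaf (nat_lit 0)) 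
(.leaf (nat_lit 0))))))
noncomputable def mt74 : Ix Nat := (.node (.node (.node (.node (.node (.leaf (nat_lit 0)) 
(.leaf (nat_lit 0))) (.leaf (nat_lit 0))) (.node (.leaf (nat_lit 0)) (.leaf (nat_lit 0)))) (.node 
(.node (.node (.leaf (nat_lit 0)) (.leaf (nat_lit 0))) (.leaf (nat_lit 0))) (.node 
(.leaf (nat_lit 0)) (.leaf (nat_lit 0))))) (.node (.node (.node (.node (.leaf (nat_lit 0)) 
(.leaf (nat_lit 0))) (.leaf (nat_lit 0x3b))) (.node (.leaf (nat_lit 0)) (.leaf (nat_lit 0)))) 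
(.node (.node (.leaf (nat_lit 0)) (.leaf (nat_lit 0))) (.node (.leaf (nat_lit 0)) 
(.leaf (nat_lit 0))))))
noncomputable def mt75 : Ix Nat := (.node (.node (.node (.node (.node (.leaf (nat_lit 0)) 
(.leaf (nat_lit 0))) (.leaf (nat_lit 0))) (.node (.leaf (nat_lit 0)) (.leaf (nat_lit 0)))) (.node 
(.node (.node (.leaf (nat_lit 0)) (.leaf (nat_lit 0))) (.leaf (nat_lit 0))) (.node 
(.leaf (nat_lit 0)) (.leaf (nat_lit 0))))) (.node (.node (.node (.node (.leaf (nat_lit 0)) 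
(.leaf (nat_lit 0))) (.leaf (nat_lit 0x3b))) (.node (.leaf (nat_lit 0)) (.leaf (nat_lit 0)))) 
(.node (.node (.leaf (nat_lit 0)) (.leaf (nat_lit 0))) (.node (.leaf (nat_lit 0)) 
(.leaf (nat_lit 0))))))
noncomputable def mt76 : Ix Nat := (.node (.node (.node (.node (.node (.leaf (nat_lit 0)) 
(.leaf (nat_lit 0))) (.leaf (nat_lit 0))) (.node (.node (.leaf (nat_lit 0)) (.leaf (nat_lit 0))) 
(.leaf (nat_lit 0)))) (.node (.node (.node (.leaf (nat_lit 0)) (.leaf (nat_lit 0))) 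
(.leaf (nat_lit 0))) (.node (.leaf (nat_lit 0)) (.leaf (nat_lit 0))))) (.node (.node (.node (.node 
(.leaf (nat_lit 0)) (.leaf (nat_lit 0))) (.leaf (nat_lit 0))) (.node 
(.leaf (nat_lit 0x7680000000000)) (.leaf (nat_lit 0x7680000000000)))) (.node (.node (.node 
(.leaf (nat_lit 0)) (.leaf (nat_lit 0))) (.leaf (nat_lit 0))) (.node (.leaf (nat_lit 0)) 
(.leaf (nat_lit 0))))))
noncomputable def mt77 : Ix Nat := (.node (.node (.node (.node (.node (.leaf (nat_lit 0)) 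
(.leaf (nat_lit 0))) (.leaf (nat_lit 0))) (.node (.node (.leaf (nat_lit 0)) (.leaf (nat_lit 0))) 
(.leaf (nat_lit 0)))) (.node (.node (.node (.leaf (nat_lit 0)) (.leaf (nat_lit 0x47))) 
(.leaf (nat_lit 0x47))) (.node (.leaf (nat_lit 0)) (.leaf (nat_lit 0))))) (.node (.node (.node 
(.node (.leaf (nat_lit 0)) (.leaf (nat_lit 0))) (.leaf (nat_lit 0))) (.node (.leaf (nat_lit 0)) 
(.leaf (nat_lit 0)))) (.node (.node (.node (.leaf (nat_lit 0)) (.leaf (nat_lit 0))) 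
(.leaf (nat_lit 0))) (.node (.leaf (nat_lit 0)) (.leaf (nat_lit 0))))))
noncomputable def mt78 : Ix Nat := (.node (.node (.node (.node (.node (.leaf (nat_lit 0)) 
(.leaf (nat_lit 0))) (.leaf (nat_lit 0))) (.node (.node (.leaf (nat_lit 0)) (.leaf (nat_lit 0))) 
(.leaf (nat_lit 0)))) (.node (.node (.node (.leaf (nat_lit 0)) (.leaf (nat_lit 0))) 
(.leaf (nat_lit 0))) (.node (.leaf (nat_lit 0)) (.leaf (nat_lit 0))))) (.node (.node (.node (.node 
(.leaf (nat_lit 0)) (.leaf (nat_lit 0))) (.leaf (nat_lit 0))) (.node 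
(.leaf (nat_lit 0xa00000000000)) (.leaf (nat_lit 0xa00000000000)))) (.node (.node (.node 
(.leaf (nat_lit 0)) (.leaf (nat_lit 0))) (.leaf (nat_lit 0))) (.node (.leaf (nat_lit 0)) 
(.leaf (nat_lit 0))))))
noncomputable def mt79 : Ix Nat := (.node (.node (.node (.node (.node 
(.leaf (nat_lit 0x1d4c000000019c)) (.leaf (nat_lit 0x76))) (.leaf (nat_lit 0))) (.node 
(.leaf (nat_lit 0)) (.leaf (nat_lit 0)))) (.node (.node (.node (.leaf (nat_lit 0)) 
(.leaf (nat_lit 0xa2))) (.leaf (nat_lit 0))) (.node (.leaf (nat_lit 0)) 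
(.leaf (nat_lit 0x204c00000007fc))))) (.node (.node (.node (.node (.leaf (nat_lit 0)) 
(.leaf (nat_lit 0x3f))) (.leaf (nat_lit 0x1700000000000))) (.node (.leaf (nat_lit 0)) 
(.leaf (nat_lit 0)))) (.node (.node (.leaf (nat_lit 0)) (.leaf (nat_lit 0x11c))) (.node 
(.leaf (nat_lit 0)) (.leaf (nat_lit 0x540))))))
noncomputable def mt80 : Ix Nat := (.node (.node (.node (.node (.node (.leaf (nat_lit 0x265)) 
(.leaf (nat_lit 0))) (.leaf (nat_lit 0))) (.node (.leaf (nat_lit 0)) (.leaf (nat_lit 0)))) (.node 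
(.node (.node (.leaf (nat_lit 0)) (.leaf (nat_lit 0))) (.leaf (nat_lit 0))) (.node 
(.leaf (nat_lit 0x1)) (.leaf (nat_lit 0x127))))) (.node (.node (.node (.node (.leaf (nat_lit 0)) 
(.leaf (nat_lit 0))) (.leaf (nat_lit 0))) (.node (.leaf (nat_lit 0)) (.leaf (nat_lit 0)))) (.node 
(.node (.leaf (nat_lit 0)) (.leaf (nat_lit 0))) (.node (.leaf (nat_lit 0)) (.leaf (nat_lit 0))))))
noncomputable def mt81 : Ix Nat := (.node (.node (.node (.node (.node 
(.leaf (nat_lit 0x1d4c000000019c)) (.leaf (nat_lit 0xa2))) (.leaf (nat_lit 0))) (.node 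
(.leaf (nat_lit 0)) (.leaf (nat_lit 0)))) (.node (.node (.node (.leaf (nat_lit 0)) 
(.leaf (nat_lit 0x76))) (.leaf (nat_lit 0))) (.node (.leaf (nat_lit 0)) 
(.leaf (nat_lit 0x204c00000007fc))))) (.node (.node (.node (.node (.leaf (nat_lit 0)) 
(.leaf (nat_lit 0x540))) (.leaf (nat_lit 0x1700000000000))) (.node (.leaf (nat_lit 0)) 
(.leaf (nat_lit 0)))) (.node (.node (.leaf (nat_lit 0)) (.leaf (nat_lit 0x11c))) (.node 
(.leaf (nat_lit 0)) (.leaf (nat_lit 0x3f))))))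
noncomputable def mt82 : Ix Nat := (.node (.node (.node (.node (.node (.leaf (nat_lit 0x265)) 
(.leaf (nat_lit 0))) (.leaf (nat_lit 0))) (.node (.leaf (nat_lit 0)) (.leaf (nat_lit 0)))) (.node 
(.node (.node (.leaf (nat_lit 0)) (.leaf (nat_lit 0))) (.leaf (nat_lit 0))) (.node 
(.leaf (nat_lit 0x1)) (.leaf (nat_lit 0x127))))) (.node (.node (.node (.node (.leaf (nat_lit 0)) 
(.leaf (nat_lit 0))) (.leaf (nat_lit 0))) (.node (.leaf (nat_lit 0)) (.leaf (nat_lit 0)))) (.node 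
(.node (.leaf (nat_lit 0)) (.leaf (nat_lit 0))) (.node (.leaf (nat_lit 0)) (.leaf (nat_lit 0))))))
noncomputable def mt83 : Ix Nat := (.node (.node (.node (.node (.node (.leaf (nat_lit 0)) 
(.leaf (nat_lit 0))) (.leaf (nat_lit 0))) (.node (.node (.leaf (nat_lit 0)) (.leaf (nat_lit 0))) 
(.leaf (nat_lit 0)))) (.node (.node (.node (.leaf (nat_lit 0)) (.leaf (nat_lit 0))) 
(.leaf (nat_lit 0))) (.node (.leaf (nat_lit 0)) (.leaf (nat_lit 0))))) (.node (.node (.node (.node 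
(.leaf (nat_lit 0)) (.leaf (nat_lit 0))) (.leaf (nat_lit 0))) (.node (.leaf (nat_lit 0)) 
(.leaf (nat_lit 0)))) (.node (.node (.node (.leaf (nat_lit 0)) (.leaf (nat_lit 0))) 
(.leaf (nat_lit 0))) (.node (.leaf (nat_lit 0)) (.leaf (nat_lit 0))))))
noncomputable def mt84 : Ix Nat := (.node (.node (.node (.node (.node (.leaf (nat_lit 0x53)) 
(.leaf (nat_lit 0))) (.leaf (nat_lit 0x90c))) (.node (.node (.leaf (nat_lit 0)) 
(.leaf (nat_lit 0))) (.leaf (nat_lit 0x5)))) (.node (.node (.node (.leaf (nat_lit 0)) 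
(.leaf (nat_lit 0x488))) (.leaf (nat_lit 0x141b))) (.node (.leaf (nat_lit 0)) 
(.leaf (nat_lit 0))))) (.node (.node (.node (.node (.leaf (nat_lit 0)) (.leaf (nat_lit 0))) 
(.leaf (nat_lit 0x1da))) (.node (.leaf (nat_lit 0)) (.leaf (nat_lit 0x76)))) (.node (.node (.node 
(.leaf (nat_lit 0)) (.leaf (nat_lit 0))) (.leaf (nat_lit 0))) (.node (.leaf (nat_lit 0)) 
(.leaf (nat_lit 0))))))
noncomputable def mt85 : Ix Nat := (.node (.node (.node (.node (.node (.leaf (nat_lit 0xce)) 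
(.leaf (nat_lit 0))) (.leaf (nat_lit 0))) (.node (.node (.leaf (nat_lit 0)) (.leaf (nat_lit 0))) 
(.leaf (nat_lit 0x13)))) (.node (.node (.node (.leaf (nat_lit 0)) (.leaf (nat_lit 0))) 
(.leaf (nat_lit 0))) (.node (.leaf (nat_lit 0)) (.leaf (nat_lit 0))))) (.node (.node (.node (.node 
(.leaf (nat_lit 0)) (.leaf (nat_lit 0))) (.leaf (nat_lit 0))) (.node (.leaf (nat_lit 0)) 
(.leaf (nat_lit 0)))) (.node (.node (.node (.leaf (nat_lit 0)) (.leaf (nat_lit 0))) 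
(.leaf (nat_lit 0))) (.node (.leaf (nat_lit 0)) (.leaf (nat_lit 0))))))
noncomputable def mt86 : Ix Nat := (.node (.node (.node (.node (.node (.leaf (nat_lit 0x3e)) 
(.leaf (nat_lit 0))) (.leaf (nat_lit 0x174000))) (.node (.leaf (nat_lit 0x220e7c05c)) 
(.leaf (nat_lit 0)))) (.node (.node (.node (.leaf (nat_lit 0xb8000)) (.leaf (nat_lit 0))) 
(.leaf (nat_lit 0))) (.node (.leaf (nat_lit 0x1ca03d0229)) (.leaf (nat_lit 0))))) (.node (.node 
(.node (.node (.leaf (nat_lit 0)) (.leaf (nat_lit 0))) (.leaf (nat_lit 0x8b8093))) (.node 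
(.leaf (nat_lit 0x114009e)) (.leaf (nat_lit 0)))) (.node (.node (.leaf (nat_lit 0x31f1850097)) 
(.leaf (nat_lit 0x1e))) (.node (.leaf (nat_lit 0)) (.leaf (nat_lit 0))))))
noncomputable def mt87 : Ix Nat := (.node (.node (.node (.node (.node (.node (.leaf (nat_lit 0x66)) 
(.leaf (nat_lit 0))) (.leaf (nat_lit 0))) (.node (.leaf (nat_lit 0)) (.leaf (nat_lit 0)))) (.node 
(.node (.leaf (nat_lit 0)) (.leaf (nat_lit 0))) (.node (.leaf (nat_lit 0)) (.leaf (nat_lit 0))))) 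
(.node (.node (.node (.node (.leaf (nat_lit 0)) (.leaf (nat_lit 0))) (.leaf (nat_lit 0))) (.node 
(.leaf (nat_lit 0x284)) (.leaf (nat_lit 0)))) (.node (.node (.leaf (nat_lit 0)) 
(.leaf (nat_lit 0))) (.node (.leaf (nat_lit 0x199)) (.leaf (nat_lit 0)))))) (.node (.node (.node 
(.node (.node (.leaf (nat_lit 0)) (.leaf (nat_lit 0))) (.leaf (nat_lit 0))) (.node 
(.leaf (nat_lit 0)) (.leaf (nat_lit 0)))) (.node (.node (.leaf (nat_lit 0x122)) 
(.leaf (nat_lit 0))) (.node (.leaf (nat_lit 0)) (.leaf (nat_lit 0))))) (.node (.node (.node (.node 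
(.leaf (nat_lit 0x4b)) (.leaf (nat_lit 0))) (.leaf (nat_lit 0))) (.node (.leaf (nat_lit 0)) 
(.leaf (nat_lit 0)))) (.node (.node (.leaf (nat_lit 0)) (.leaf (nat_lit 0))) (.node 
(.leaf (nat_lit 0x1f1000000001c1)) (.leaf (nat_lit 0)))))))
noncomputable def mt88 : Ix Nat := (.node (.node (.node (.node (.node 
(.leaf (nat_lit 0x3700000000000)) (.leaf (nat_lit 0x8e6))) (.node (.leaf (nat_lit 0x37)) 
(.leaf (nat_lit 0)))) (.node (.node (.leaf (nat_lit 0xe3)) (.leaf (nat_lit 0x458000000014d))) 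
(.node (.leaf (nat_lit 0x6b)) (.leaf (nat_lit 0))))) (.node (.node (.node (.leaf (nat_lit 0x3)) 
(.leaf (nat_lit 0x9e))) (.node (.leaf (nat_lit 0)) (.leaf (nat_lit 0)))) (.node (.node 
(.leaf (nat_lit 0x48)) (.leaf (nat_lit 0))) (.leaf (nat_lit 0x62e))))) (.node (.node (.node (.node 
(.leaf (nat_lit 0x4a)) (.leaf (nat_lit 0))) (.node (.leaf (nat_lit 0)) (.leaf (nat_lit 0)))) (.node 
(.node (.leaf (nat_lit 0x70a)) (.leaf (nat_lit 0x4b5))) (.node (.leaf (nat_lit 0x2448000000046e)) 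
(.leaf (nat_lit 0))))) (.node (.node (.node (.leaf (nat_lit 0x30b)) (.leaf (nat_lit 0))) (.node 
(.leaf (nat_lit 0x35a0000000000800000006fe)) (.leaf (nat_lit 0)))) (.node (.node 
(.leaf (nat_lit 0)) (.leaf (nat_lit 0x6ab))) (.leaf (nat_lit 0))))))
noncomputable def mt89 : Ix Nat := (.node (.node (.node (.node (.node (.leaf (nat_lit 0)) 
(.leaf (nat_lit 0x16))) (.node (.leaf (nat_lit 0)) (.leaf (nat_lit 0)))) (.node (.node 
(.leaf (nat_lit 0x37)) (.leaf (nat_lit 0))) (.node (.leaf (nat_lit 0x9b8)) (.leaf (nat_lit 0))))) 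
(.node (.node (.node (.leaf (nat_lit 0)) (.leaf (nat_lit 0x26))) (.node (.leaf (nat_lit 0)) 
(.leaf (nat_lit 0)))) (.node (.node (.leaf (nat_lit 0)) (.leaf (nat_lit 0))) 
(.leaf (nat_lit 0x1438))))) (.node (.node (.node (.node (.leaf (nat_lit 0)) (.leaf (nat_lit 0))) 
(.node (.leaf (nat_lit 0)) (.leaf (nat_lit 0)))) (.node (.node (.leaf (nat_lit 0x3)) 
(.leaf (nat_lit 0))) (.node (.leaf (nat_lit 0x412)) (.leaf (nat_lit 0))))) (.node (.node (.node 
(.leaf (nat_lit 0)) (.leaf (nat_lit 0))) (.node (.leaf (nat_lit 0x2df0000000000000000002d8)) 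
(.leaf (nat_lit 0)))) (.node (.node (.leaf (nat_lit 0)) (.leaf (nat_lit 0))) (.leaf (nat_lit 0))))))
noncomputable def mt90 : Ix Nat := (.node (.node (.node (.node (.leaf (nat_lit 0x2a80000000270)) 
(.leaf (nat_lit 0))) (.node (.leaf (nat_lit 0)) (.leaf (nat_lit 0)))) (.node (.node 
(.leaf (nat_lit 0)) (.leaf (nat_lit 0))) (.node (.leaf (nat_lit 0)) (.leaf (nat_lit 0))))) (.node 
(.node (.node (.leaf (nat_lit 0)) (.leaf (nat_lit 0x4d0))) (.node (.leaf (nat_lit 0)) 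
(.leaf (nat_lit 0)))) (.node (.node (.leaf (nat_lit 0)) (.leaf (nat_lit 0x17))) (.node 
(.leaf (nat_lit 0)) (.leaf (nat_lit 0x11c))))))
noncomputable def mt91 : Ix Nat := (.node (.node (.node (.node (.node (.leaf (nat_lit 0)) 
(.leaf (nat_lit 0))) (.leaf (nat_lit 0))) (.node (.leaf (nat_lit 0)) (.leaf (nat_lit 0)))) (.node 
(.node (.node (.leaf (nat_lit 0)) (.leaf (nat_lit 0))) (.leaf (nat_lit 0))) (.node 
(.leaf (nat_lit 0)) (.leaf (nat_lit 0))))) (.node (.node (.node (.node (.leaf (nat_lit 0)) 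
(.leaf (nat_lit 0))) (.leaf (nat_lit 0))) (.node (.leaf (nat_lit 0)) (.leaf (nat_lit 0)))) (.node 
(.node (.leaf (nat_lit 0)) (.leaf (nat_lit 0x52))) (.node (.leaf (nat_lit 0)) 
(.leaf (nat_lit 0))))))
noncomputable def mt92 : Ix Nat := (.node (.node (.node (.node (.node (.leaf (nat_lit 0)) 
(.leaf (nat_lit 0))) (.leaf (nat_lit 0))) (.node (.node (.leaf (nat_lit 0)) (.leaf (nat_lit 0))) 
(.leaf (nat_lit 0)))) (.node (.node (.node (.leaf (nat_lit 0)) (.leaf (nat_lit 0))) 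
(.leaf (nat_lit 0))) (.node (.leaf (nat_lit 0)) (.leaf (nat_lit 0))))) (.node (.node (.node (.node 
(.leaf (nat_lit 0)) (.leaf (nat_lit 0))) (.leaf (nat_lit 0))) (.node (.leaf (nat_lit 0)) 
(.leaf (nat_lit 0)))) (.node (.node (.node (.leaf (nat_lit 0)) (.leaf (nat_lit 0))) 
(.leaf (nat_lit 0))) (.node (.leaf (nat_lit 0)) (.leaf (nat_lit 0))))))
noncomputable def mt93 : Ix Nat := (.node (.node (.node (.node (.node (.leaf (nat_lit 0x53)) 
(.leaf (nat_lit 0))) (.leaf (nat_lit 0x90c))) (.node (.node (.leaf (nat_lit 0)) 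
(.leaf (nat_lit 0))) (.leaf (nat_lit 0x5)))) (.node (.node (.node (.leaf (nat_lit 0)) 
(.leaf (nat_lit 0x488))) (.leaf (nat_lit 0x141b))) (.node (.leaf (nat_lit 0)) 
(.leaf (nat_lit 0))))) (.node (.node (.node (.node (.leaf (nat_lit 0)) (.leaf (nat_lit 0))) 
(.leaf (nat_lit 0x1da))) (.node (.leaf (nat_lit 0)) (.leaf (nat_lit 0x76)))) (.node (.node (.node 
(.leaf (nat_lit 0)) (.leaf (nat_lit 0))) (.leaf (nat_lit 0))) (.node (.leaf (nat_lit 0)) 
(.leaf (nat_lit 0))))))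
noncomputable def mt94 : Ix Nat := (.node (.node (.node (.node (.node (.leaf (nat_lit 0xce)) 
(.leaf (nat_lit 0))) (.leaf (nat_lit 0))) (.node (.node (.leaf (nat_lit 0)) (.leaf (nat_lit 0))) 
(.leaf (nat_lit 0x13)))) (.node (.node (.node (.leaf (nat_lit 0)) (.leaf (nat_lit 0))) 
(.leaf (nat_lit 0))) (.node (.leaf (nat_lit 0)) (.leaf (nat_lit 0))))) (.node (.node (.node (.node 
(.leaf (nat_lit 0)) (.leaf (nat_lit 0))) (.leaf (nat_lit 0))) (.node (.leaf (nat_lit 0)) 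
(.leaf (nat_lit 0)))) (.node (.node (.node (.leaf (nat_lit 0)) (.leaf (nat_lit 0))) 
(.leaf (nat_lit 0))) (.node (.leaf (nat_lit 0)) (.leaf (nat_lit 0))))))
noncomputable def mt95 : Ix Nat := (.node (.node (.node (.node (.node (.leaf (nat_lit 0x3e)) 
(.leaf (nat_lit 0))) (.leaf (nat_lit 0x174000))) (.node (.leaf (nat_lit 0x220e7c05c)) 
(.leaf (nat_lit 0)))) (.node (.node (.node (.leaf (nat_lit 0xb8000)) (.leaf (nat_lit 0))) 
(.leaf (nat_lit 0))) (.node (.leaf (nat_lit 0x1ca03d0229)) (.leaf (nat_lit 0))))) (.node (.node 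
(.node (.node (.leaf (nat_lit 0)) (.leaf (nat_lit 0))) (.leaf (nat_lit 0x8b8093))) (.node 
(.leaf (nat_lit 0x114009e)) (.leaf (nat_lit 0)))) (.node (.node (.leaf (nat_lit 0x31f1850097)) 
(.leaf (nat_lit 0x1e))) (.node (.leaf (nat_lit 0)) (.leaf (nat_lit 0))))))
noncomputable def mt96 : Ix Nat := (.node (.node (.node (.node (.node (.node (.leaf (nat_lit 0x66)) 
(.leaf (nat_lit 0))) (.leaf (nat_lit 0))) (.node (.leaf (nat_lit 0)) (.leaf (nat_lit 0)))) (.node 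
(.node (.leaf (nat_lit 0)) (.leaf (nat_lit 0))) (.node (.leaf (nat_lit 0)) (.leaf (nat_lit 0))))) 
(.node (.node (.node (.node (.leaf (nat_lit 0)) (.leaf (nat_lit 0))) (.leaf (nat_lit 0))) (.node 
(.leaf (nat_lit 0x284)) (.leaf (nat_lit 0)))) (.node (.node (.leaf (nat_lit 0)) 
(.leaf (nat_lit 0))) (.node (.leaf (nat_lit 0x199)) (.leaf (nat_lit 0)))))) (.node (.node (.node 
(.node (.node (.leaf (nat_lit 0)) (.leaf (nat_lit 0))) (.leaf (nat_lit 0))) (.node 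
(.leaf (nat_lit 0)) (.leaf (nat_lit 0)))) (.node (.node (.leaf (nat_lit 0x122)) 
(.leaf (nat_lit 0))) (.node (.leaf (nat_lit 0)) (.leaf (nat_lit 0))))) (.node (.node (.node (.node 
(.leaf (nat_lit 0x4b)) (.leaf (nat_lit 0))) (.leaf (nat_lit 0))) (.node (.leaf (nat_lit 0)) 
(.leaf (nat_lit 0)))) (.node (.node (.leaf (nat_lit 0)) (.leaf (nat_lit 0))) (.node 
(.leaf (nat_lit 0x1f1000000001c1)) (.leaf (nat_lit 0)))))))
noncomputable def mt97 : Ix Nat := (.node (.node (.node (.node (.node 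
(.leaf (nat_lit 0x3700000000000)) (.leaf (nat_lit 0x8e6))) (.node (.leaf (nat_lit 0x37)) 
(.leaf (nat_lit 0)))) (.node (.node (.leaf (nat_lit 0xe3)) (.leaf (nat_lit 0x458000000014d))) 
(.node (.leaf (nat_lit 0x6b)) (.leaf (nat_lit 0))))) (.node (.node (.node (.leaf (nat_lit 0x3)) 
(.leaf (nat_lit 0x9e))) (.node (.leaf (nat_lit 0)) (.leaf (nat_lit 0)))) (.node (.node 
(.leaf (nat_lit 0x48)) (.leaf (nat_lit 0))) (.leaf (nat_lit 0x62e))))) (.node (.node (.node (.node 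
(.leaf (nat_lit 0x4a)) (.leaf (nat_lit 0))) (.node (.leaf (nat_lit 0)) (.leaf (nat_lit 0)))) (.node 
(.node (.leaf (nat_lit 0x70a)) (.leaf (nat_lit 0x4b5))) (.node (.leaf (nat_lit 0x2448000000046e)) 
(.leaf (nat_lit 0))))) (.node (.node (.node (.leaf (nat_lit 0x30b)) (.leaf (nat_lit 0))) (.node 
(.leaf (nat_lit 0x35a0000000000800000006fe)) (.leaf (nat_lit 0)))) (.node (.node 
(.leaf (nat_lit 0)) (.leaf (nat_lit 0x6ab))) (.leaf (nat_lit 0))))))
noncomputable def mt98 : Ix Nat := (.node (.node (.node (.node (.node (.leaf (nat_lit 0)) 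
(.leaf (nat_lit 0x16))) (.node (.leaf (nat_lit 0)) (.leaf (nat_lit 0)))) (.node (.node 
(.leaf (nat_lit 0x37)) (.leaf (nat_lit 0))) (.node (.leaf (nat_lit 0x9b8)) (.leaf (nat_lit 0))))) 
(.node (.node (.node (.leaf (nat_lit 0)) (.leaf (nat_lit 0x26))) (.node (.leaf (nat_lit 0)) 
(.leaf (nat_lit 0)))) (.node (.node (.leaf (nat_lit 0)) (.leaf (nat_lit 0))) 
(.leaf (nat_lit 0x1438))))) (.node (.node (.node (.node (.leaf (nat_lit 0)) (.leaf (nat_lit 0))) 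
(.node (.leaf (nat_lit 0)) (.leaf (nat_lit 0)))) (.node (.node (.leaf (nat_lit 0x3)) 
(.leaf (nat_lit 0))) (.node (.leaf (nat_lit 0x412)) (.leaf (nat_lit 0))))) (.node (.node (.node 
(.leaf (nat_lit 0)) (.leaf (nat_lit 0))) (.node (.leaf (nat_lit 0x2df0000000000000000002d8)) 
(.leaf (nat_lit 0)))) (.node (.node (.leaf (nat_lit 0)) (.leaf (nat_lit 0))) (.leaf (nat_lit 0))))))
noncomputable def mt99 : Ix Nat := (.node (.node (.node (.node (.leaf (nat_lit 0x2a80000000270)) 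
(.leaf (nat_lit 0))) (.node (.leaf (nat_lit 0)) (.leaf (nat_lit 0)))) (.node (.node 
(.leaf (nat_lit 0)) (.leaf (nat_lit 0))) (.node (.leaf (nat_lit 0)) (.leaf (nat_lit 0x11c))))) 
(.node (.node (.node (.leaf (nat_lit 0)) (.leaf (nat_lit 0))) (.node (.leaf (nat_lit 0)) 
(.leaf (nat_lit 0)))) (.node (.node (.leaf (nat_lit 0)) (.leaf (nat_lit 0x17))) (.node 
(.leaf (nat_lit 0x4d0)) (.leaf (nat_lit 0))))))
noncomputable def mt100 : Ix Nat := (.node (.node (.node (.node (.node (.leaf (nat_lit 0)) 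
(.leaf (nat_lit 0))) (.leaf (nat_lit 0))) (.node (.leaf (nat_lit 0)) (.leaf (nat_lit 0)))) (.node 
(.node (.node (.leaf (nat_lit 0)) (.leaf (nat_lit 0))) (.leaf (nat_lit 0))) (.node 
(.leaf (nat_lit 0)) (.leaf (nat_lit 0))))) (.node (.node (.node (.node (.leaf (nat_lit 0)) 
(.leaf (nat_lit 0))) (.leaf (nat_lit 0))) (.node (.leaf (nat_lit 0)) (.leaf (nat_lit 0)))) (.node 
(.node (.leaf (nat_lit 0)) (.leaf (nat_lit 0x52))) (.node (.leaf (nat_lit 0)) 
(.leaf (nat_lit 0))))))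

noncomputable def mtx : Ix (Ix Nat) := (.node (.node (.node (.node (.node (.node (.node (.leaf mt0) 
(.leaf mt64)) (.node (.leaf mt32) (.leaf mt96))) (.node (.node (.leaf mt16) (.leaf mt80)) 
(.leaf mt48))) (.node (.node (.node (.leaf mt8) (.leaf mt72)) (.leaf mt40)) (.node (.node 
(.leaf mt24) (.leaf mt88)) (.leaf mt56)))) (.node (.node (.node (.node (.leaf mt4) (.leaf mt68)) 
(.node (.leaf mt36) (.leaf mt100))) (.node (.node (.leaf mt20) (.leaf mt84)) (.leaf mt52))) (.node 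
(.node (.node (.leaf mt12) (.leaf mt76)) (.leaf mt44)) (.node (.node (.leaf mt28) (.leaf mt92)) 
(.leaf mt60))))) (.node (.node (.node (.node (.node (.leaf mt2) (.leaf mt66)) (.node (.leaf mt34) 
(.leaf mt98))) (.node (.node (.leaf mt18) (.leaf mt82)) (.leaf mt50))) (.node (.node (.node 
(.leaf mt10) (.leaf mt74)) (.leaf mt42)) (.node (.node (.leaf mt26) (.leaf mt90)) (.leaf mt58)))) 
(.node (.node (.node (.node (.leaf mt6) (.leaf mt70)) (.leaf mt38)) (.node (.node (.leaf mt22) 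
(.leaf mt86)) (.leaf mt54))) (.node (.node (.node (.leaf mt14) (.leaf mt78)) (.leaf mt46)) (.node 
(.node (.leaf mt30) (.leaf mt94)) (.leaf mt62)))))) (.node (.node (.node (.node (.node (.node 
(.leaf mt1) (.leaf mt65)) (.node (.leaf mt33) (.leaf mt97))) (.node (.node (.leaf mt17) 
(.leaf mt81)) (.leaf mt49))) (.node (.node (.node (.leaf mt9) (.leaf mt73)) (.leaf mt41)) (.node 
(.node (.leaf mt25) (.leaf mt89)) (.leaf mt57)))) (.node (.node (.node (.node (.leaf mt5) 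
(.leaf mt69)) (.leaf mt37)) (.node (.node (.leaf mt21) (.leaf mt85)) (.leaf mt53))) (.node (.node 
(.node (.leaf mt13) (.leaf mt77)) (.leaf mt45)) (.node (.node (.leaf mt29) (.leaf mt93)) 
(.leaf mt61))))) (.node (.node (.node (.node (.node (.leaf mt3) (.leaf mt67)) (.node (.leaf mt35) 
(.leaf mt99))) (.node (.node (.leaf mt19) (.leaf mt83)) (.leaf mt51))) (.node (.node (.node 
(.leaf mt11) (.leaf mt75)) (.leaf mt43)) (.node (.node (.leaf mt27) (.leaf mt91)) (.leaf mt59)))) 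
(.node (.node (.node (.node (.leaf mt7) (.leaf mt71)) (.leaf mt39)) (.node (.node (.leaf mt23) 
(.leaf mt87)) (.leaf mt55))) (.node (.node (.node (.leaf mt15) (.leaf mt79)) (.leaf mt47)) (.node 
(.node (.leaf mt31) (.leaf mt95)) (.leaf mt63)))))))

/-- The bounds of the corrections. -/
noncomputable def mmT (k o : Nat) : Nat := (Ix.get mtx k).get o

end

end Pool.Agent.Lib.MP_5854e1_co.Cz
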