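import Pool.Agent.Lib.MP_5854e1_co.Cz.P
import Pool.Agent.Lib.MP_5854e1_co.Cz.Zm
import Pool.Agent.Lib.MP_5854e1_co.QuadTok2

/-!
# The bounds of the corrections
-/

set_option autoImplicit false
set_option maxRecDepth 100000
set_option deprecated.oldSectionVars true

namespace Pool.Agent.Lib.MP_5854e1_co.Cz

open Pool.Agent.Lib.MP_5854e1_co PB

theorem zk : DT.all (zB mmT (nat_lit 14) (nat_lit 16384)) Cz.tq = true := by decide +kernel

noncomputable def zpu : Pr := .mk (nat_lit 0) (nat_lit 101) (nat_lit 0) (nat_lit 512)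

theorem zp0 : AP.runP optN (zC PT.q mmT (nat_lit 14) (nat_lit 16384)) zpu = true := by decide +kernel

theorem zok : ZOK PT.q mmT (nat_lit 14) (nat_lit 16384) Cz.tq where
  pair := AP.pairs_of_parts (L := [zpu]) (List.forall_mem_cons.2 ⟨zp0, List.forall_mem_nil _⟩)
    (by decide +kernel)
  key := zk

end Pool.Agent.Lib.MP_5854e1_co.Cz
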