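import Pool.Agent.Lib.MP_5854e1_co.Cz.P

/-!
# The closures over the triangles
-/

set_option autoImplicit false
set_option maxRecDepth 100000
set_option deprecated.oldSectionVars true

namespace Pool.Agent.Lib.MP_5854e1_co.Cz

open Pool.Agent.Lib.MP_5854e1_co PB

noncomputable def kdu0 : Pr := .mk (nat_lit 0) (nat_lit 1) (nat_lit 0) (nat_lit 90)

theorem kd0 : AP.runP optN (stH PT.D spT PT.ps Cz.tt rtT) kdu0 = true := by decide +kernel

noncomputable def kdu1 : Pr := .mk (nat_lit 0) (nat_lit 1) (nat_lit 90) (nat_lit 111)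

theorem kd1 : AP.runP optN (stH PT.D spT PT.ps Cz.tt rtT) kdu1 = true := by decide +kernel

noncomputable def kdu2 : Pr := .mk (nat_lit 0) (nat_lit 1) (nat_lit 111) (nat_lit 140)

theorem kd2 : AP.runP optN (stH PT.D spT PT.ps Cz.tt rtT) kdu2 = true := by decide +kernel

noncomputable def kdu3 : Pr := .mk (nat_lit 0) (nat_lit 1) (nat_lit 140) (nat_lit 362)

theorem kd3 : AP.runP optN (stH PT.D spT PT.ps Cz.tt rtT) kdu3 = true := by decide +kernel

noncomputable def kdu4 : Pr := .mk (nat_lit 0) (nat_lit 1) (nat_lit 362) (nat_lit 512)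

theorem kd4 : AP.runP optN (stH PT.D spT PT.ps Cz.tt rtT) kdu4 = true := by decide +kernel

noncomputable def kdu5 : Pr := .mk (nat_lit 1) (nat_lit 2) (nat_lit 0) (nat_lit 512)

theorem kd5 : AP.runP optN (stH PT.D spT PT.ps Cz.tt rtT) kdu5 = true := by decide +kernel


end Pool.Agent.Lib.MP_5854e1_co.Cz

namespace Pool.Agent.Lib.MP_5854e1_co.Cz

open Pool.Agent.Lib.MP_5854e1_co PB

noncomputable def kdu16 : Pr := .mk (nat_lit 8) (nat_lit 9) (nat_lit 14) (nat_lit 22)

theorem kd16 : AP.runP optN (stH PT.D spT PT.ps Cz.tt rtT) kdu16 = true := by decide +kernel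

noncomputable def kdu17 : Pr := .mk (nat_lit 8) (nat_lit 9) (nat_lit 22) (nat_lit 512)

theorem kd17 : AP.runP optN (stH PT.D spT PT.ps Cz.tt rtT) kdu17 = true := by decide +kernel

noncomputable def kdu18 : Pr := .mk (nat_lit 9) (nat_lit 10) (nat_lit 0) (nat_lit 512)

theorem kd18 : AP.runP optN (stH PT.D spT PT.ps Cz.tt rtT) kdu18 = true := by decide +kernel

noncomputable def kdu19 : Pr := .mk (nat_lit 10) (nat_lit 11) (nat_lit 0) (nat_lit 512)

theorem kd19 : AP.runP optN (stH PT.D spT PT.ps Cz.tt rtT) kdu19 = true := by decide +kernel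

noncomputable def kdu20 : Pr := .mk (nat_lit 11) (nat_lit 12) (nat_lit 0) (nat_lit 15)

theorem kd20 : AP.runP optN (stH PT.D spT PT.ps Cz.tt rtT) kdu20 = true := by decide +kernel


end Pool.Agent.Lib.MP_5854e1_co.Cz

namespace Pool.Agent.Lib.MP_5854e1_co.Cz

open Pool.Agent.Lib.MP_5854e1_co PB

noncomputable def kdu26 : Pr := .mk (nat_lit 13) (nat_lit 15) (nat_lit 0) (nat_lit 512)

theorem kd26 : AP.runP optN (stH PT.D spT PT.ps Cz.tt rtT) kdu26 = true := by decide +kernel

noncomputable def kdu27 : Pr := .mk (nat_lit 15) (nat_lit 35) (nat_lit 0) (nat_lit 512)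

theorem kd27 : AP.runP optN (stH PT.D spT PT.ps Cz.tt rtT) kdu27 = true := by decide +kernel

noncomputable def kdu28 : Pr := .mk (nat_lit 35) (nat_lit 36) (nat_lit 0) (nat_lit 13)

theorem kd28 : AP.runP optN (stH PT.D spT PT.ps Cz.tt rtT) kdu28 = true := by decide +kernel

noncomputable def kdu29 : Pr := .mk (nat_lit 35) (nat_lit 36) (nat_lit 13) (nat_lit 512)

theorem kd29 : AP.runP optN (stH PT.D spT PT.ps Cz.tt rtT) kdu29 = true := by decide +kernel

noncomputable def kdu30 : Pr := .mk (nat_lit 36) (nat_lit 39) (nat_lit 0) (nat_lit 512)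

theorem kd30 : AP.runP optN (stH PT.D spT PT.ps Cz.tt rtT) kdu30 = true := by decide +kernel

noncomputable def kdu31 : Pr := .mk (nat_lit 39) (nat_lit 40) (nat_lit 0) (nat_lit 512)

theorem kd31 : AP.runP optN (stH PT.D spT PT.ps Cz.tt rtT) kdu31 = true := by decide +kernel

noncomputable def kdu32 : Pr := .mk (nat_lit 40) (nat_lit 41) (nat_lit 0) (nat_lit 512)

theorem kd32 : AP.runP optN (stH PT.D spT PT.ps Cz.tt rtT) kdu32 = true := by decide +kernel


end Pool.Agent.Lib.MP_5854e1_co.Cz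

namespace Pool.Agent.Lib.MP_5854e1_co.Cz

open Pool.Agent.Lib.MP_5854e1_co PB

noncomputable def kdu47 : Pr := .mk (nat_lit 47) (nat_lit 48) (nat_lit 49) (nat_lit 512)

theorem kd47 : AP.runP optN (stH PT.D spT PT.ps Cz.tt rtT) kdu47 = true := by decide +kernel

noncomputable def kdu48 : Pr := .mk (nat_lit 48) (nat_lit 49) (nat_lit 0) (nat_lit 18)

theorem kd48 : AP.runP optN (stH PT.D spT PT.ps Cz.tt rtT) kdu48 = true := by decide +kernel

noncomputable def kdu49 : Pr := .mk (nat_lit 48) (nat_lit 49) (nat_lit 18) (nat_lit 26)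

theorem kd49 : AP.runP optN (stH PT.D spT PT.ps Cz.tt rtT) kdu49 = true := by decide +kernel

noncomputable def kdu50 : Pr := .mk (nat_lit 48) (nat_lit 49) (nat_lit 26) (nat_lit 27)

theorem kd50 : AP.runP optN (stH PT.D spT PT.ps Cz.tt rtT) kdu50 = true := by decide +kernel

noncomputable def kdu51 : Pr := .mk (nat_lit 48) (nat_lit 49) (nat_lit 27) (nat_lit 512)

theorem kd51 : AP.runP optN (stH PT.D spT PT.ps Cz.tt rtT) kdu51 = true := by decide +kernel


end Pool.Agent.Lib.MP_5854e1_co.Cz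

namespace Pool.Agent.Lib.MP_5854e1_co.Cz

open Pool.Agent.Lib.MP_5854e1_co PB

noncomputable def kdu58 : Pr := .mk (nat_lit 68) (nat_lit 69) (nat_lit 0) (nat_lit 14)

theorem kd58 : AP.runP optN (stH PT.D spT PT.ps Cz.tt rtT) kdu58 = true := by decide +kernel

noncomputable def kdu59 : Pr := .mk (nat_lit 68) (nat_lit 69) (nat_lit 14) (nat_lit 512)

theorem kd59 : AP.runP optN (stH PT.D spT PT.ps Cz.tt rtT) kdu59 = true := by decide +kernel

noncomputable def kdu60 : Pr := .mk (nat_lit 69) (nat_lit 87) (nat_lit 0) (nat_lit 512)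

theorem kd60 : AP.runP optN (stH PT.D spT PT.ps Cz.tt rtT) kdu60 = true := by decide +kernel

noncomputable def kdu61 : Pr := .mk (nat_lit 87) (nat_lit 101) (nat_lit 0) (nat_lit 512)

theorem kd61 : AP.runP optN (stH PT.D spT PT.ps Cz.tt rtT) kdu61 = true := by decide +kernel


end Pool.Agent.Lib.MP_5854e1_co.Cz
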