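import Pool.Agent.Lib.MP_5854e1_co.Cz.P

/-!
# The closures over the triangles
-/

set_option autoImplicit false
set_option maxRecDepth 100000
set_option deprecated.oldSectionVars true

namespace Pool.Agent.Lib.MP_5854e1_co.Cz

open Pool.Agent.Lib.MP_5854e1_co PB

noncomputable def kdu6 : Pr := .mk (nat_lit 2) (nat_lit 3) (nat_lit 0) (nat_lit 13)

theorem kd6 : AP.runP optN (stH PT.D spT PT.ps Cz.tt rtT) kdu6 = true := by decide +kernel

noncomputable def kdu7 : Pr := .mk (nat_lit 2) (nat_lit 3) (nat_lit 13) (nat_lit 512)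

theorem kd7 : AP.runP optN (stH PT.D spT PT.ps Cz.tt rtT) kdu7 = true := by decide +kernel

noncomputable def kdu8 : Pr := .mk (nat_lit 3) (nat_lit 7) (nat_lit 0) (nat_lit 512)

theorem kd8 : AP.runP optN (stH PT.D spT PT.ps Cz.tt rtT) kdu8 = true := by decide +kernel

noncomputable def kdu9 : Pr := .mk (nat_lit 7) (nat_lit 8) (nat_lit 0) (nat_lit 12)

theorem kd9 : AP.runP optN (stH PT.D spT PT.ps Cz.tt rtT) kdu9 = true := by decide +kernel

noncomputable def kdu10 : Pr := .mk (nat_lit 7) (nat_lit 8) (nat_lit 12) (nat_lit 19)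

theorem kd10 : AP.runP optN (stH PT.D spT PT.ps Cz.tt rtT) kdu10 = true := by decide +kernel


end Pool.Agent.Lib.MP_5854e1_co.Cz

namespace Pool.Agent.Lib.MP_5854e1_co.Cz

open Pool.Agent.Lib.MP_5854e1_co PB

noncomputable def kdu11 : Pr := .mk (nat_lit 7) (nat_lit 8) (nat_lit 19) (nat_lit 156)

theorem kd11 : AP.runP optN (stH PT.D spT PT.ps Cz.tt rtT) kdu11 = true := by decide +kernel

noncomputable def kdu12 : Pr := .mk (nat_lit 7) (nat_lit 8) (nat_lit 156) (nat_lit 252)

theorem kd12 : AP.runP optN (stH PT.D spT PT.ps Cz.tt rtT) kdu12 = true := by decide +kernel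

noncomputable def kdu13 : Pr := .mk (nat_lit 7) (nat_lit 8) (nat_lit 252) (nat_lit 264)

theorem kd13 : AP.runP optN (stH PT.D spT PT.ps Cz.tt rtT) kdu13 = true := by decide +kernel

noncomputable def kdu14 : Pr := .mk (nat_lit 7) (nat_lit 8) (nat_lit 264) (nat_lit 512)

theorem kd14 : AP.runP optN (stH PT.D spT PT.ps Cz.tt rtT) kdu14 = true := by decide +kernel

noncomputable def kdu15 : Pr := .mk (nat_lit 8) (nat_lit 9) (nat_lit 0) (nat_lit 14)

theorem kd15 : AP.runP optN (stH PT.D spT PT.ps Cz.tt rtT) kdu15 = true := by decide +kernel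


end Pool.Agent.Lib.MP_5854e1_co.Cz

namespace Pool.Agent.Lib.MP_5854e1_co.Cz

open Pool.Agent.Lib.MP_5854e1_co PB

noncomputable def kdu21 : Pr := .mk (nat_lit 11) (nat_lit 12) (nat_lit 15) (nat_lit 512)

theorem kd21 : AP.runP optN (stH PT.D spT PT.ps Cz.tt rtT) kdu21 = true := by decide +kernel

noncomputable def kdu22 : Pr := .mk (nat_lit 12) (nat_lit 13) (nat_lit 0) (nat_lit 24)

theorem kd22 : AP.runP optN (stH PT.D spT PT.ps Cz.tt rtT) kdu22 = true := by decide +kernel

noncomputable def kdu23 : Pr := .mk (nat_lit 12) (nat_lit 13) (nat_lit 24) (nat_lit 28)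

theorem kd23 : AP.runP optN (stH PT.D spT PT.ps Cz.tt rtT) kdu23 = true := by decide +kernel

noncomputable def kdu24 : Pr := .mk (nat_lit 12) (nat_lit 13) (nat_lit 28) (nat_lit 32)

theorem kd24 : AP.runP optN (stH PT.D spT PT.ps Cz.tt rtT) kdu24 = true := by decide +kernel

noncomputable def kdu25 : Pr := .mk (nat_lit 12) (nat_lit 13) (nat_lit 32) (nat_lit 512)

theorem kd25 : AP.runP optN (stH PT.D spT PT.ps Cz.tt rtT) kdu25 = true := by decide +kernel


end Pool.Agent.Lib.MP_5854e1_co.Cz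

namespace Pool.Agent.Lib.MP_5854e1_co.Cz

open Pool.Agent.Lib.MP_5854e1_co PB

noncomputable def kdu33 : Pr := .mk (nat_lit 41) (nat_lit 42) (nat_lit 0) (nat_lit 3)

theorem kd33 : AP.runP optN (stH PT.D spT PT.ps Cz.tt rtT) kdu33 = true := by decide +kernel

noncomputable def kdu34 : Pr := .mk (nat_lit 41) (nat_lit 42) (nat_lit 3) (nat_lit 12)

theorem kd34 : AP.runP optN (stH PT.D spT PT.ps Cz.tt rtT) kdu34 = true := by decide +kernel

noncomputable def kdu35 : Pr := .mk (nat_lit 41) (nat_lit 42) (nat_lit 12) (nat_lit 14)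

theorem kd35 : AP.runP optN (stH PT.D spT PT.ps Cz.tt rtT) kdu35 = true := by decide +kernel

noncomputable def kdu36 : Pr := .mk (nat_lit 41) (nat_lit 42) (nat_lit 14) (nat_lit 19)

theorem kd36 : AP.runP optN (stH PT.D spT PT.ps Cz.tt rtT) kdu36 = true := by decide +kernel


end Pool.Agent.Lib.MP_5854e1_co.Cz

namespace Pool.Agent.Lib.MP_5854e1_co.Cz

open Pool.Agent.Lib.MP_5854e1_co PB

noncomputable def kdu37 : Pr := .mk (nat_lit 41) (nat_lit 42) (nat_lit 19) (nat_lit 34)

theorem kd37 : AP.runP optN (stH PT.D spT PT.ps Cz.tt rtT) kdu37 = true := by decide +kernel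

noncomputable def kdu38 : Pr := .mk (nat_lit 41) (nat_lit 42) (nat_lit 34) (nat_lit 512)

theorem kd38 : AP.runP optN (stH PT.D spT PT.ps Cz.tt rtT) kdu38 = true := by decide +kernel

noncomputable def kdu39 : Pr := .mk (nat_lit 42) (nat_lit 43) (nat_lit 0) (nat_lit 36)

theorem kd39 : AP.runP optN (stH PT.D spT PT.ps Cz.tt rtT) kdu39 = true := by decide +kernel

noncomputable def kdu40 : Pr := .mk (nat_lit 42) (nat_lit 43) (nat_lit 36) (nat_lit 512)

theorem kd40 : AP.runP optN (stH PT.D spT PT.ps Cz.tt rtT) kdu40 = true := by decide +kernel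

noncomputable def kdu41 : Pr := .mk (nat_lit 43) (nat_lit 44) (nat_lit 0) (nat_lit 512)

theorem kd41 : AP.runP optN (stH PT.D spT PT.ps Cz.tt rtT) kdu41 = true := by decide +kernel


end Pool.Agent.Lib.MP_5854e1_co.Cz

namespace Pool.Agent.Lib.MP_5854e1_co.Cz

open Pool.Agent.Lib.MP_5854e1_co PB

noncomputable def kdu42 : Pr := .mk (nat_lit 44) (nat_lit 45) (nat_lit 0) (nat_lit 8)

theorem kd42 : AP.runP optN (stH PT.D spT PT.ps Cz.tt rtT) kdu42 = true := by decide +kernel

noncomputable def kdu43 : Pr := .mk (nat_lit 44) (nat_lit 45) (nat_lit 8) (nat_lit 512)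

theorem kd43 : AP.runP optN (stH PT.D spT PT.ps Cz.tt rtT) kdu43 = true := by decide +kernel

noncomputable def kdu44 : Pr := .mk (nat_lit 45) (nat_lit 47) (nat_lit 0) (nat_lit 512)

theorem kd44 : AP.runP optN (stH PT.D spT PT.ps Cz.tt rtT) kdu44 = true := by decide +kernel

noncomputable def kdu45 : Pr := .mk (nat_lit 47) (nat_lit 48) (nat_lit 0) (nat_lit 31)

theorem kd45 : AP.runP optN (stH PT.D spT PT.ps Cz.tt rtT) kdu45 = true := by decide +kernel

noncomputable def kdu46 : Pr := .mk (nat_lit 47) (nat_lit 48) (nat_lit 31) (nat_lit 49)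

theorem kd46 : AP.runP optN (stH PT.D spT PT.ps Cz.tt rtT) kdu46 = true := by decide +kernel


end Pool.Agent.Lib.MP_5854e1_co.Cz

namespace Pool.Agent.Lib.MP_5854e1_co.Cz

open Pool.Agent.Lib.MP_5854e1_co PB

noncomputable def kdu52 : Pr := .mk (nat_lit 49) (nat_lit 50) (nat_lit 0) (nat_lit 12)

theorem kd52 : AP.runP optN (stH PT.D spT PT.ps Cz.tt rtT) kdu52 = true := by decide +kernel

noncomputable def kdu53 : Pr := .mk (nat_lit 49) (nat_lit 50) (nat_lit 12) (nat_lit 512)

theorem kd53 : AP.runP optN (stH PT.D spT PT.ps Cz.tt rtT) kdu53 = true := by decide +kernel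

noncomputable def kdu54 : Pr := .mk (nat_lit 50) (nat_lit 63) (nat_lit 0) (nat_lit 512)

theorem kd54 : AP.runP optN (stH PT.D spT PT.ps Cz.tt rtT) kdu54 = true := by decide +kernel

noncomputable def kdu55 : Pr := .mk (nat_lit 63) (nat_lit 64) (nat_lit 0) (nat_lit 9)

theorem kd55 : AP.runP optN (stH PT.D spT PT.ps Cz.tt rtT) kdu55 = true := by decide +kernel

noncomputable def kdu56 : Pr := .mk (nat_lit 63) (nat_lit 64) (nat_lit 9) (nat_lit 512)

theorem kd56 : AP.runP optN (stH PT.D spT PT.ps Cz.tt rtT) kdu56 = true := by decide +kernel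

noncomputable def kdu57 : Pr := .mk (nat_lit 64) (nat_lit 68) (nat_lit 0) (nat_lit 512)

theorem kd57 : AP.runP optN (stH PT.D spT PT.ps Cz.tt rtT) kdu57 = true := by decide +kernel


end Pool.Agent.Lib.MP_5854e1_co.Cz
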