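import Pool.Agent.Lib.MP_5854e1_co.Cz.P

/-!
# The further shares of the triangles
-/

set_option autoImplicit false
set_option maxRecDepth 100000
set_option deprecated.oldSectionVars true

namespace Pool.Agent.Lib.MP_5854e1_co.Cz

open Pool.Agent.Lib.MP_5854e1_co PB

noncomputable def keu0 : Pr := .mk (nat_lit 0) (nat_lit 6) (nat_lit 0) (nat_lit 512)

theorem ke0 : AP.runP optN (kjO PT.D spT PT.ps Cz.tt rtT Cz.tp Cz.tk) keu0 = true := by decide +kernel

noncomputable def keu1 : Pr := .mk (nat_lit 6) (nat_lit 38) (nat_lit 0) (nat_lit 512)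

theorem ke1 : AP.runP optN (kjO PT.D spT PT.ps Cz.tt rtT Cz.tp Cz.tk) keu1 = true := by decide +kernel

noncomputable def keu2 : Pr := .mk (nat_lit 38) (nat_lit 55) (nat_lit 0) (nat_lit 512)

theorem ke2 : AP.runP optN (kjO PT.D spT PT.ps Cz.tt rtT Cz.tp Cz.tk) keu2 = true := by decide +kernel


end Pool.Agent.Lib.MP_5854e1_co.Cz

namespace Pool.Agent.Lib.MP_5854e1_co.Cz

open Pool.Agent.Lib.MP_5854e1_co PB

noncomputable def keu3 : Pr := .mk (nat_lit 55) (nat_lit 101) (nat_lit 0) (nat_lit 512)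

theorem ke3 : AP.runP optN (kjO PT.D spT PT.ps Cz.tt rtT Cz.tp Cz.tk) keu3 = true := by decide +kernel


end Pool.Agent.Lib.MP_5854e1_co.Cz
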