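import Pool.Agent.Lib.MP_5854e1_co.Cz.P

/-!
# The rows of the cells with further shares
-/

set_option autoImplicit false
set_option maxRecDepth 100000
set_option deprecated.oldSectionVars true

namespace Pool.Agent.Lib.MP_5854e1_co.Cz

open Pool.Agent.Lib.MP_5854e1_co PB

theorem ytu010 : DT.all (wkR cT Cz.tj Cz.tp Cz.tk Cz.tu) Cz.tu010 = true := by decide +kernel


end Pool.Agent.Lib.MP_5854e1_co.Cz

namespace Pool.Agent.Lib.MP_5854e1_co.Cz

open Pool.Agent.Lib.MP_5854e1_co PB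

theorem ytu028 : DT.all (wkR cT Cz.tj Cz.tp Cz.tk Cz.tu) Cz.tu028 = true := by decide +kernel


end Pool.Agent.Lib.MP_5854e1_co.Cz

namespace Pool.Agent.Lib.MP_5854e1_co.Cz

open Pool.Agent.Lib.MP_5854e1_co PB

theorem ytu034 : DT.all (wkR cT Cz.tj Cz.tp Cz.tk Cz.tu) Cz.tu034 = true := by decide +kernel


end Pool.Agent.Lib.MP_5854e1_co.Cz

namespace Pool.Agent.Lib.MP_5854e1_co.Cz

open Pool.Agent.Lib.MP_5854e1_co PB

theorem ytu074 : DT.all (wkR cT Cz.tj Cz.tp Cz.tk Cz.tu) Cz.tu074 = true := by decide +kernel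


end Pool.Agent.Lib.MP_5854e1_co.Cz

namespace Pool.Agent.Lib.MP_5854e1_co.Cz

open Pool.Agent.Lib.MP_5854e1_co PB

theorem ytu102 : DT.all (wkR cT Cz.tj Cz.tp Cz.tk Cz.tu) Cz.tu102 = true := by decide +kernel


end Pool.Agent.Lib.MP_5854e1_co.Cz

namespace Pool.Agent.Lib.MP_5854e1_co.Cz

open Pool.Agent.Lib.MP_5854e1_co PB

theorem ytu122 : DT.all (wkR cT Cz.tj Cz.tp Cz.tk Cz.tu) Cz.tu122 = true := by decide +kernel


end Pool.Agent.Lib.MP_5854e1_co.Cz
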