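import Pool.Agent.Lib.MP_5854e1_co.Cz.P

/-!
# The rows of the cells with further shares
-/

set_option autoImplicit false
set_option maxRecDepth 100000
set_option deprecated.oldSectionVars true

namespace Pool.Agent.Lib.MP_5854e1_co.Cz

open Pool.Agent.Lib.MP_5854e1_co PB

theorem ytu013 : DT.all (wkR cT Cz.tj Cz.tp Cz.tk Cz.tu) Cz.tu013 = true := by decide +kernel


end Pool.Agent.Lib.MP_5854e1_co.Cz

namespace Pool.Agent.Lib.MP_5854e1_co.Cz

open Pool.Agent.Lib.MP_5854e1_co PB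

theorem ytu030 : DT.all (wkR cT Cz.tj Cz.tp Cz.tk Cz.tu) Cz.tu030 = true := by decide +kernel


end Pool.Agent.Lib.MP_5854e1_co.Cz

namespace Pool.Agent.Lib.MP_5854e1_co.Cz

open Pool.Agent.Lib.MP_5854e1_co PB

theorem ytu067 : DT.all (wkR cT Cz.tj Cz.tp Cz.tk Cz.tu) Cz.tu067 = true := by decide +kernel


end Pool.Agent.Lib.MP_5854e1_co.Cz

namespace Pool.Agent.Lib.MP_5854e1_co.Cz

open Pool.Agent.Lib.MP_5854e1_co PB

theorem ytu093 : DT.all (wkR cT Cz.tj Cz.tp Cz.tk Cz.tu) Cz.tu093 = true := by decide +kernel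


end Pool.Agent.Lib.MP_5854e1_co.Cz

namespace Pool.Agent.Lib.MP_5854e1_co.Cz

open Pool.Agent.Lib.MP_5854e1_co PB

theorem ytu095 : DT.all (wkR cT Cz.tj Cz.tp Cz.tk Cz.tu) Cz.tu095 = true := by decide +kernel


end Pool.Agent.Lib.MP_5854e1_co.Cz

namespace Pool.Agent.Lib.MP_5854e1_co.Cz

open Pool.Agent.Lib.MP_5854e1_co PB

theorem ytu100 : DT.all (wkR cT Cz.tj Cz.tp Cz.tk Cz.tu) Cz.tu100 = true := by decide +kernel


end Pool.Agent.Lib.MP_5854e1_co.Cz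

namespace Pool.Agent.Lib.MP_5854e1_co.Cz

open Pool.Agent.Lib.MP_5854e1_co PB

theorem ytu105 : DT.all (wkR cT Cz.tj Cz.tp Cz.tk Cz.tu) Cz.tu105 = true := by decide +kernel


end Pool.Agent.Lib.MP_5854e1_co.Cz

namespace Pool.Agent.Lib.MP_5854e1_co.Cz

open Pool.Agent.Lib.MP_5854e1_co PB

theorem ytu109 : DT.all (wkR cT Cz.tj Cz.tp Cz.tk Cz.tu) Cz.tu109 = true := by decide +kernel


end Pool.Agent.Lib.MP_5854e1_co.Cz

namespace Pool.Agent.Lib.MP_5854e1_co.Cz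

open Pool.Agent.Lib.MP_5854e1_co PB

theorem ytu114 : DT.all (wkR cT Cz.tj Cz.tp Cz.tk Cz.tu) Cz.tu114 = true := by decide +kernel


end Pool.Agent.Lib.MP_5854e1_co.Cz

namespace Pool.Agent.Lib.MP_5854e1_co.Cz

open Pool.Agent.Lib.MP_5854e1_co PB

theorem ytu138 : DT.all (wkR cT Cz.tj Cz.tp Cz.tk Cz.tu) Cz.tu138 = true := by decide +kernel


end Pool.Agent.Lib.MP_5854e1_co.Cz
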