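import Pool.Agent.Lib.MP_5854e1_co.Cz.P

/-!
# The listed shares of the regions
-/

set_option autoImplicit false
set_option maxRecDepth 100000
set_option deprecated.oldSectionVars true

namespace Pool.Agent.Lib.MP_5854e1_co.Cz

open Pool.Agent.Lib.MP_5854e1_co PB

theorem jtj00 : DT.all (qjH PT.gp PT.gm spT PT.ps Cz.rtT Cz.tz Cz.tw Cz.tj) Cz.tj00 = true := by decide +kernel

theorem jtj01 : DT.all (qjH PT.gp PT.gm spT PT.ps Cz.rtT Cz.tz Cz.tw Cz.tj) Cz.tj01 = true := by decide +kernel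

theorem jtj02 : DT.all (qjH PT.gp PT.gm spT PT.ps Cz.rtT Cz.tz Cz.tw Cz.tj) Cz.tj02 = true := by decide +kernel

theorem jtj03 : DT.all (qjH PT.gp PT.gm spT PT.ps Cz.rtT Cz.tz Cz.tw Cz.tj) Cz.tj03 = true := by decide +kernel

theorem jtj04 : DT.all (qjH PT.gp PT.gm spT PT.ps Cz.rtT Cz.tz Cz.tw Cz.tj) Cz.tj04 = true := by decide +kernel

theorem jtj05 : DT.all (qjH PT.gp PT.gm spT PT.ps Cz.rtT Cz.tz Cz.tw Cz.tj) Cz.tj05 = true := by decide +kernel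

theorem jtj06 : DT.all (qjH PT.gp PT.gm spT PT.ps Cz.rtT Cz.tz Cz.tw Cz.tj) Cz.tj06 = true := by decide +kernel

theorem jtj07 : DT.all (qjH PT.gp PT.gm spT PT.ps Cz.rtT Cz.tz Cz.tw Cz.tj) Cz.tj07 = true := by decide +kernel

theorem jtj08 : DT.all (qjH PT.gp PT.gm spT PT.ps Cz.rtT Cz.tz Cz.tw Cz.tj) Cz.tj08 = true := by decide +kernel

theorem jtj09 : DT.all (qjH PT.gp PT.gm spT PT.ps Cz.rtT Cz.tz Cz.tw Cz.tj) Cz.tj09 = true := by decide +kernel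

theorem jtj10 : DT.all (qjH PT.gp PT.gm spT PT.ps Cz.rtT Cz.tz Cz.tw Cz.tj) Cz.tj10 = true := by decide +kernel

theorem jtj11 : DT.all (qjH PT.gp PT.gm spT PT.ps Cz.rtT Cz.tz Cz.tw Cz.tj) Cz.tj11 = true := by decide +kernel

theorem jtj12 : DT.all (qjH PT.gp PT.gm spT PT.ps Cz.rtT Cz.tz Cz.tw Cz.tj) Cz.tj12 = true := by decide +kernel

theorem jtj13 : DT.all (qjH PT.gp PT.gm spT PT.ps Cz.rtT Cz.tz Cz.tw Cz.tj) Cz.tj13 = true := by decide +kernel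

theorem jtj14 : DT.all (qjH PT.gp PT.gm spT PT.ps Cz.rtT Cz.tz Cz.tw Cz.tj) Cz.tj14 = true := by decide +kernel


end Pool.Agent.Lib.MP_5854e1_co.Cz

namespace Pool.Agent.Lib.MP_5854e1_co.Cz

open Pool.Agent.Lib.MP_5854e1_co PB

theorem jtj285 : DT.all (qjH PT.gp PT.gm spT PT.ps Cz.rtT Cz.tz Cz.tw Cz.tj) Cz.tj285 = true := by decide +kernel

theorem jtj286 : DT.all (qjH PT.gp PT.gm spT PT.ps Cz.rtT Cz.tz Cz.tw Cz.tj) Cz.tj286 = true := by decide +kernel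

theorem jtj287 : DT.all (qjH PT.gp PT.gm spT PT.ps Cz.rtT Cz.tz Cz.tw Cz.tj) Cz.tj287 = true := by decide +kernel

theorem jtj288 : DT.all (qjH PT.gp PT.gm spT PT.ps Cz.rtT Cz.tz Cz.tw Cz.tj) Cz.tj288 = true := by decide +kernel

theorem jtj289 : DT.all (qjH PT.gp PT.gm spT PT.ps Cz.rtT Cz.tz Cz.tw Cz.tj) Cz.tj289 = true := by decide +kernel

theorem jtj290 : DT.all (qjH PT.gp PT.gm spT PT.ps Cz.rtT Cz.tz Cz.tw Cz.tj) Cz.tj290 = true := by decide +kernel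

theorem jtj291 : DT.all (qjH PT.gp PT.gm spT PT.ps Cz.rtT Cz.tz Cz.tw Cz.tj) Cz.tj291 = true := by decide +kernel

theorem jtj292 : DT.all (qjH PT.gp PT.gm spT PT.ps Cz.rtT Cz.tz Cz.tw Cz.tj) Cz.tj292 = true := by decide +kernel

theorem jtj293 : DT.all (qjH PT.gp PT.gm spT PT.ps Cz.rtT Cz.tz Cz.tw Cz.tj) Cz.tj293 = true := by decide +kernel

theorem jtj294 : DT.all (qjH PT.gp PT.gm spT PT.ps Cz.rtT Cz.tz Cz.tw Cz.tj) Cz.tj294 = true := by decide +kernel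

theorem jtj295 : DT.all (qjH PT.gp PT.gm spT PT.ps Cz.rtT Cz.tz Cz.tw Cz.tj) Cz.tj295 = true := by decide +kernel

theorem jtj296 : DT.all (qjH PT.gp PT.gm spT PT.ps Cz.rtT Cz.tz Cz.tw Cz.tj) Cz.tj296 = true := by decide +kernel

theorem jtj297 : DT.all (qjH PT.gp PT.gm spT PT.ps Cz.rtT Cz.tz Cz.tw Cz.tj) Cz.tj297 = true := by decide +kernel

theorem jtj298 : DT.all (qjH PT.gp PT.gm spT PT.ps Cz.rtT Cz.tz Cz.tw Cz.tj) Cz.tj298 = true := by decide +kernel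

theorem jtj299 : DT.all (qjH PT.gp PT.gm spT PT.ps Cz.rtT Cz.tz Cz.tw Cz.tj) Cz.tj299 = true := by decide +kernel


end Pool.Agent.Lib.MP_5854e1_co.Cz
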