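import Pool.Agent.Lib.MP_5854e1_co.Cz.P

/-!
# The listed shares of the regions
-/

set_option autoImplicit false
set_option maxRecDepth 100000
set_option deprecated.oldSectionVars true

namespace Pool.Agent.Lib.MP_5854e1_co.Cz

open Pool.Agent.Lib.MP_5854e1_co PB

theorem jtj15 : DT.all (qjH PT.gp PT.gm spT PT.ps Cz.rtT Cz.tz Cz.tw Cz.tj) Cz.tj15 = true := by decide +kernel

theorem jtj16 : DT.all (qjH PT.gp PT.gm spT PT.ps Cz.rtT Cz.tz Cz.tw Cz.tj) Cz.tj16 = true := by decide +kernel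

theorem jtj17 : DT.all (qjH PT.gp PT.gm spT PT.ps Cz.rtT Cz.tz Cz.tw Cz.tj) Cz.tj17 = true := by decide +kernel

theorem jtj18 : DT.all (qjH PT.gp PT.gm spT PT.ps Cz.rtT Cz.tz Cz.tw Cz.tj) Cz.tj18 = true := by decide +kernel

theorem jtj19 : DT.all (qjH PT.gp PT.gm spT PT.ps Cz.rtT Cz.tz Cz.tw Cz.tj) Cz.tj19 = true := by decide +kernel

theorem jtj20 : DT.all (qjH PT.gp PT.gm spT PT.ps Cz.rtT Cz.tz Cz.tw Cz.tj) Cz.tj20 = true := by decide +kernel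

theorem jtj21 : DT.all (qjH PT.gp PT.gm spT PT.ps Cz.rtT Cz.tz Cz.tw Cz.tj) Cz.tj21 = true := by decide +kernel

theorem jtj22 : DT.all (qjH PT.gp PT.gm spT PT.ps Cz.rtT Cz.tz Cz.tw Cz.tj) Cz.tj22 = true := by decide +kernel

theorem jtj23 : DT.all (qjH PT.gp PT.gm spT PT.ps Cz.rtT Cz.tz Cz.tw Cz.tj) Cz.tj23 = true := by decide +kernel

theorem jtj24 : DT.all (qjH PT.gp PT.gm spT PT.ps Cz.rtT Cz.tz Cz.tw Cz.tj) Cz.tj24 = true := by decide +kernel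

theorem jtj25 : DT.all (qjH PT.gp PT.gm spT PT.ps Cz.rtT Cz.tz Cz.tw Cz.tj) Cz.tj25 = true := by decide +kernel

theorem jtj26 : DT.all (qjH PT.gp PT.gm spT PT.ps Cz.rtT Cz.tz Cz.tw Cz.tj) Cz.tj26 = true := by decide +kernel

theorem jtj27 : DT.all (qjH PT.gp PT.gm spT PT.ps Cz.rtT Cz.tz Cz.tw Cz.tj) Cz.tj27 = true := by decide +kernel

theorem jtj28 : DT.all (qjH PT.gp PT.gm spT PT.ps Cz.rtT Cz.tz Cz.tw Cz.tj) Cz.tj28 = true := by decide +kernel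

theorem jtj29 : DT.all (qjH PT.gp PT.gm spT PT.ps Cz.rtT Cz.tz Cz.tw Cz.tj) Cz.tj29 = true := by decide +kernel


end Pool.Agent.Lib.MP_5854e1_co.Cz

namespace Pool.Agent.Lib.MP_5854e1_co.Cz

open Pool.Agent.Lib.MP_5854e1_co PB

theorem jtj45 : DT.all (qjH PT.gp PT.gm spT PT.ps Cz.rtT Cz.tz Cz.tw Cz.tj) Cz.tj45 = true := by decide +kernel

theorem jtj46 : DT.all (qjH PT.gp PT.gm spT PT.ps Cz.rtT Cz.tz Cz.tw Cz.tj) Cz.tj46 = true := by decide +kernel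

theorem jtj47 : DT.all (qjH PT.gp PT.gm spT PT.ps Cz.rtT Cz.tz Cz.tw Cz.tj) Cz.tj47 = true := by decide +kernel

theorem jtj48 : DT.all (qjH PT.gp PT.gm spT PT.ps Cz.rtT Cz.tz Cz.tw Cz.tj) Cz.tj48 = true := by decide +kernel

theorem jtj49 : DT.all (qjH PT.gp PT.gm spT PT.ps Cz.rtT Cz.tz Cz.tw Cz.tj) Cz.tj49 = true := by decide +kernel

theorem jtj50 : DT.all (qjH PT.gp PT.gm spT PT.ps Cz.rtT Cz.tz Cz.tw Cz.tj) Cz.tj50 = true := by decide +kernel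

theorem jtj51 : DT.all (qjH PT.gp PT.gm spT PT.ps Cz.rtT Cz.tz Cz.tw Cz.tj) Cz.tj51 = true := by decide +kernel

theorem jtj52 : DT.all (qjH PT.gp PT.gm spT PT.ps Cz.rtT Cz.tz Cz.tw Cz.tj) Cz.tj52 = true := by decide +kernel

theorem jtj53 : DT.all (qjH PT.gp PT.gm spT PT.ps Cz.rtT Cz.tz Cz.tw Cz.tj) Cz.tj53 = true := by decide +kernel

theorem jtj54 : DT.all (qjH PT.gp PT.gm spT PT.ps Cz.rtT Cz.tz Cz.tw Cz.tj) Cz.tj54 = true := by decide +kernel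

theorem jtj55 : DT.all (qjH PT.gp PT.gm spT PT.ps Cz.rtT Cz.tz Cz.tw Cz.tj) Cz.tj55 = true := by decide +kernel

theorem jtj56 : DT.all (qjH PT.gp PT.gm spT PT.ps Cz.rtT Cz.tz Cz.tw Cz.tj) Cz.tj56 = true := by decide +kernel

theorem jtj57 : DT.all (qjH PT.gp PT.gm spT PT.ps Cz.rtT Cz.tz Cz.tw Cz.tj) Cz.tj57 = true := by decide +kernel

theorem jtj58 : DT.all (qjH PT.gp PT.gm spT PT.ps Cz.rtT Cz.tz Cz.tw Cz.tj) Cz.tj58 = true := by decide +kernel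

theorem jtj59 : DT.all (qjH PT.gp PT.gm spT PT.ps Cz.rtT Cz.tz Cz.tw Cz.tj) Cz.tj59 = true := by decide +kernel


end Pool.Agent.Lib.MP_5854e1_co.Cz
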