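import Pool.Agent.Lib.MP_5854e1_co.Cz.P

/-!
# The listed shares of the regions
-/

set_option autoImplicit false
set_option maxRecDepth 100000
set_option deprecated.oldSectionVars true

namespace Pool.Agent.Lib.MP_5854e1_co.Cz

open Pool.Agent.Lib.MP_5854e1_co PB

theorem jtj30 : DT.all (qjH PT.gp PT.gm spT PT.ps Cz.rtT Cz.tz Cz.tw Cz.tj) Cz.tj30 = true := by decide +kernel

theorem jtj31 : DT.all (qjH PT.gp PT.gm spT PT.ps Cz.rtT Cz.tz Cz.tw Cz.tj) Cz.tj31 = true := by decide +kernel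

theorem jtj32 : DT.all (qjH PT.gp PT.gm spT PT.ps Cz.rtT Cz.tz Cz.tw Cz.tj) Cz.tj32 = true := by decide +kernel

theorem jtj33 : DT.all (qjH PT.gp PT.gm spT PT.ps Cz.rtT Cz.tz Cz.tw Cz.tj) Cz.tj33 = true := by decide +kernel

theorem jtj34 : DT.all (qjH PT.gp PT.gm spT PT.ps Cz.rtT Cz.tz Cz.tw Cz.tj) Cz.tj34 = true := by decide +kernel

theorem jtj35 : DT.all (qjH PT.gp PT.gm spT PT.ps Cz.rtT Cz.tz Cz.tw Cz.tj) Cz.tj35 = true := by decide +kernel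

theorem jtj36 : DT.all (qjH PT.gp PT.gm spT PT.ps Cz.rtT Cz.tz Cz.tw Cz.tj) Cz.tj36 = true := by decide +kernel

theorem jtj37 : DT.all (qjH PT.gp PT.gm spT PT.ps Cz.rtT Cz.tz Cz.tw Cz.tj) Cz.tj37 = true := by decide +kernel

theorem jtj38 : DT.all (qjH PT.gp PT.gm spT PT.ps Cz.rtT Cz.tz Cz.tw Cz.tj) Cz.tj38 = true := by decide +kernel

theorem jtj39 : DT.all (qjH PT.gp PT.gm spT PT.ps Cz.rtT Cz.tz Cz.tw Cz.tj) Cz.tj39 = true := by decide +kernel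

theorem jtj40 : DT.all (qjH PT.gp PT.gm spT PT.ps Cz.rtT Cz.tz Cz.tw Cz.tj) Cz.tj40 = true := by decide +kernel

theorem jtj41 : DT.all (qjH PT.gp PT.gm spT PT.ps Cz.rtT Cz.tz Cz.tw Cz.tj) Cz.tj41 = true := by decide +kernel

theorem jtj42 : DT.all (qjH PT.gp PT.gm spT PT.ps Cz.rtT Cz.tz Cz.tw Cz.tj) Cz.tj42 = true := by decide +kernel

theorem jtj43 : DT.all (qjH PT.gp PT.gm spT PT.ps Cz.rtT Cz.tz Cz.tw Cz.tj) Cz.tj43 = true := by decide +kernel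

theorem jtj44 : DT.all (qjH PT.gp PT.gm spT PT.ps Cz.rtT Cz.tz Cz.tw Cz.tj) Cz.tj44 = true := by decide +kernel


end Pool.Agent.Lib.MP_5854e1_co.Cz

namespace Pool.Agent.Lib.MP_5854e1_co.Cz

open Pool.Agent.Lib.MP_5854e1_co PB

theorem jtj225 : DT.all (qjH PT.gp PT.gm spT PT.ps Cz.rtT Cz.tz Cz.tw Cz.tj) Cz.tj225 = true := by decide +kernel

theorem jtj226 : DT.all (qjH PT.gp PT.gm spT PT.ps Cz.rtT Cz.tz Cz.tw Cz.tj) Cz.tj226 = true := by decide +kernel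

theorem jtj227 : DT.all (qjH PT.gp PT.gm spT PT.ps Cz.rtT Cz.tz Cz.tw Cz.tj) Cz.tj227 = true := by decide +kernel

theorem jtj228 : DT.all (qjH PT.gp PT.gm spT PT.ps Cz.rtT Cz.tz Cz.tw Cz.tj) Cz.tj228 = true := by decide +kernel

theorem jtj229 : DT.all (qjH PT.gp PT.gm spT PT.ps Cz.rtT Cz.tz Cz.tw Cz.tj) Cz.tj229 = true := by decide +kernel

theorem jtj230 : DT.all (qjH PT.gp PT.gm spT PT.ps Cz.rtT Cz.tz Cz.tw Cz.tj) Cz.tj230 = true := by decide +kernel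

theorem jtj231 : DT.all (qjH PT.gp PT.gm spT PT.ps Cz.rtT Cz.tz Cz.tw Cz.tj) Cz.tj231 = true := by decide +kernel

theorem jtj232 : DT.all (qjH PT.gp PT.gm spT PT.ps Cz.rtT Cz.tz Cz.tw Cz.tj) Cz.tj232 = true := by decide +kernel

theorem jtj233 : DT.all (qjH PT.gp PT.gm spT PT.ps Cz.rtT Cz.tz Cz.tw Cz.tj) Cz.tj233 = true := by decide +kernel

theorem jtj234 : DT.all (qjH PT.gp PT.gm spT PT.ps Cz.rtT Cz.tz Cz.tw Cz.tj) Cz.tj234 = true := by decide +kernel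

theorem jtj235 : DT.all (qjH PT.gp PT.gm spT PT.ps Cz.rtT Cz.tz Cz.tw Cz.tj) Cz.tj235 = true := by decide +kernel

theorem jtj236 : DT.all (qjH PT.gp PT.gm spT PT.ps Cz.rtT Cz.tz Cz.tw Cz.tj) Cz.tj236 = true := by decide +kernel

theorem jtj237 : DT.all (qjH PT.gp PT.gm spT PT.ps Cz.rtT Cz.tz Cz.tw Cz.tj) Cz.tj237 = true := by decide +kernel

theorem jtj238 : DT.all (qjH PT.gp PT.gm spT PT.ps Cz.rtT Cz.tz Cz.tw Cz.tj) Cz.tj238 = true := by decide +kernel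

theorem jtj239 : DT.all (qjH PT.gp PT.gm spT PT.ps Cz.rtT Cz.tz Cz.tw Cz.tj) Cz.tj239 = true := by decide +kernel


end Pool.Agent.Lib.MP_5854e1_co.Cz
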