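import Pool.Agent.Lib.MP_5854e1_co.Cz.P

/-!
# The listed shares of the regions
-/

set_option autoImplicit false
set_option maxRecDepth 100000
set_option deprecated.oldSectionVars true

namespace Pool.Agent.Lib.MP_5854e1_co.Cz

open Pool.Agent.Lib.MP_5854e1_co PB

theorem jtj60 : DT.all (qjH PT.gp PT.gm spT PT.ps Cz.rtT Cz.tz Cz.tw Cz.tj) Cz.tj60 = true := by decide +kernel

theorem jtj61 : DT.all (qjH PT.gp PT.gm spT PT.ps Cz.rtT Cz.tz Cz.tw Cz.tj) Cz.tj61 = true := by decide +kernel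

theorem jtj62 : DT.all (qjH PT.gp PT.gm spT PT.ps Cz.rtT Cz.tz Cz.tw Cz.tj) Cz.tj62 = true := by decide +kernel

theorem jtj63 : DT.all (qjH PT.gp PT.gm spT PT.ps Cz.rtT Cz.tz Cz.tw Cz.tj) Cz.tj63 = true := by decide +kernel

theorem jtj64 : DT.all (qjH PT.gp PT.gm spT PT.ps Cz.rtT Cz.tz Cz.tw Cz.tj) Cz.tj64 = true := by decide +kernel

theorem jtj65 : DT.all (qjH PT.gp PT.gm spT PT.ps Cz.rtT Cz.tz Cz.tw Cz.tj) Cz.tj65 = true := by decide +kernel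

theorem jtj66 : DT.all (qjH PT.gp PT.gm spT PT.ps Cz.rtT Cz.tz Cz.tw Cz.tj) Cz.tj66 = true := by decide +kernel

theorem jtj67 : DT.all (qjH PT.gp PT.gm spT PT.ps Cz.rtT Cz.tz Cz.tw Cz.tj) Cz.tj67 = true := by decide +kernel

theorem jtj68 : DT.all (qjH PT.gp PT.gm spT PT.ps Cz.rtT Cz.tz Cz.tw Cz.tj) Cz.tj68 = true := by decide +kernel

theorem jtj69 : DT.all (qjH PT.gp PT.gm spT PT.ps Cz.rtT Cz.tz Cz.tw Cz.tj) Cz.tj69 = true := by decide +kernel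

theorem jtj70 : DT.all (qjH PT.gp PT.gm spT PT.ps Cz.rtT Cz.tz Cz.tw Cz.tj) Cz.tj70 = true := by decide +kernel

theorem jtj71 : DT.all (qjH PT.gp PT.gm spT PT.ps Cz.rtT Cz.tz Cz.tw Cz.tj) Cz.tj71 = true := by decide +kernel

theorem jtj72 : DT.all (qjH PT.gp PT.gm spT PT.ps Cz.rtT Cz.tz Cz.tw Cz.tj) Cz.tj72 = true := by decide +kernel

theorem jtj73 : DT.all (qjH PT.gp PT.gm spT PT.ps Cz.rtT Cz.tz Cz.tw Cz.tj) Cz.tj73 = true := by decide +kernel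

theorem jtj74 : DT.all (qjH PT.gp PT.gm spT PT.ps Cz.rtT Cz.tz Cz.tw Cz.tj) Cz.tj74 = true := by decide +kernel


end Pool.Agent.Lib.MP_5854e1_co.Cz

namespace Pool.Agent.Lib.MP_5854e1_co.Cz

open Pool.Agent.Lib.MP_5854e1_co PB

theorem jtj555 : DT.all (qjH PT.gp PT.gm spT PT.ps Cz.rtT Cz.tz Cz.tw Cz.tj) Cz.tj555 = true := by decide +kernel

theorem jtj556 : DT.all (qjH PT.gp PT.gm spT PT.ps Cz.rtT Cz.tz Cz.tw Cz.tj) Cz.tj556 = true := by decide +kernel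

theorem jtj557 : DT.all (qjH PT.gp PT.gm spT PT.ps Cz.rtT Cz.tz Cz.tw Cz.tj) Cz.tj557 = true := by decide +kernel

theorem jtj558 : DT.all (qjH PT.gp PT.gm spT PT.ps Cz.rtT Cz.tz Cz.tw Cz.tj) Cz.tj558 = true := by decide +kernel

theorem jtj559 : DT.all (qjH PT.gp PT.gm spT PT.ps Cz.rtT Cz.tz Cz.tw Cz.tj) Cz.tj559 = true := by decide +kernel

theorem jtj560 : DT.all (qjH PT.gp PT.gm spT PT.ps Cz.rtT Cz.tz Cz.tw Cz.tj) Cz.tj560 = true := by decide +kernel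

theorem jtj561 : DT.all (qjH PT.gp PT.gm spT PT.ps Cz.rtT Cz.tz Cz.tw Cz.tj) Cz.tj561 = true := by decide +kernel

theorem jtj562 : DT.all (qjH PT.gp PT.gm spT PT.ps Cz.rtT Cz.tz Cz.tw Cz.tj) Cz.tj562 = true := by decide +kernel

theorem jtj563 : DT.all (qjH PT.gp PT.gm spT PT.ps Cz.rtT Cz.tz Cz.tw Cz.tj) Cz.tj563 = true := by decide +kernel

theorem jtj564 : DT.all (qjH PT.gp PT.gm spT PT.ps Cz.rtT Cz.tz Cz.tw Cz.tj) Cz.tj564 = true := by decide +kernel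

theorem jtj565 : DT.all (qjH PT.gp PT.gm spT PT.ps Cz.rtT Cz.tz Cz.tw Cz.tj) Cz.tj565 = true := by decide +kernel

theorem jtj566 : DT.all (qjH PT.gp PT.gm spT PT.ps Cz.rtT Cz.tz Cz.tw Cz.tj) Cz.tj566 = true := by decide +kernel

theorem jtj567 : DT.all (qjH PT.gp PT.gm spT PT.ps Cz.rtT Cz.tz Cz.tw Cz.tj) Cz.tj567 = true := by decide +kernel

theorem jtj568 : DT.all (qjH PT.gp PT.gm spT PT.ps Cz.rtT Cz.tz Cz.tw Cz.tj) Cz.tj568 = true := by decide +kernel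

theorem jtj569 : DT.all (qjH PT.gp PT.gm spT PT.ps Cz.rtT Cz.tz Cz.tw Cz.tj) Cz.tj569 = true := by decide +kernel


end Pool.Agent.Lib.MP_5854e1_co.Cz
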