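import Pool.Agent.Lib.MP_5854e1_co.Cz.P

/-!
# The listed shares of the regions
-/

set_option autoImplicit false
set_option maxRecDepth 100000
set_option deprecated.oldSectionVars true

namespace Pool.Agent.Lib.MP_5854e1_co.Cz

open Pool.Agent.Lib.MP_5854e1_co PB

theorem jtj75 : DT.all (qjH PT.gp PT.gm spT PT.ps Cz.rtT Cz.tz Cz.tw Cz.tj) Cz.tj75 = true := by decide +kernel

theorem jtj76 : DT.all (qjH PT.gp PT.gm spT PT.ps Cz.rtT Cz.tz Cz.tw Cz.tj) Cz.tj76 = true := by decide +kernel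

theorem jtj77 : DT.all (qjH PT.gp PT.gm spT PT.ps Cz.rtT Cz.tz Cz.tw Cz.tj) Cz.tj77 = true := by decide +kernel

theorem jtj78 : DT.all (qjH PT.gp PT.gm spT PT.ps Cz.rtT Cz.tz Cz.tw Cz.tj) Cz.tj78 = true := by decide +kernel

theorem jtj79 : DT.all (qjH PT.gp PT.gm spT PT.ps Cz.rtT Cz.tz Cz.tw Cz.tj) Cz.tj79 = true := by decide +kernel

theorem jtj80 : DT.all (qjH PT.gp PT.gm spT PT.ps Cz.rtT Cz.tz Cz.tw Cz.tj) Cz.tj80 = true := by decide +kernel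

theorem jtj81 : DT.all (qjH PT.gp PT.gm spT PT.ps Cz.rtT Cz.tz Cz.tw Cz.tj) Cz.tj81 = true := by decide +kernel

theorem jtj82 : DT.all (qjH PT.gp PT.gm spT PT.ps Cz.rtT Cz.tz Cz.tw Cz.tj) Cz.tj82 = true := by decide +kernel

theorem jtj83 : DT.all (qjH PT.gp PT.gm spT PT.ps Cz.rtT Cz.tz Cz.tw Cz.tj) Cz.tj83 = true := by decide +kernel

theorem jtj84 : DT.all (qjH PT.gp PT.gm spT PT.ps Cz.rtT Cz.tz Cz.tw Cz.tj) Cz.tj84 = true := by decide +kernel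

theorem jtj85 : DT.all (qjH PT.gp PT.gm spT PT.ps Cz.rtT Cz.tz Cz.tw Cz.tj) Cz.tj85 = true := by decide +kernel

theorem jtj86 : DT.all (qjH PT.gp PT.gm spT PT.ps Cz.rtT Cz.tz Cz.tw Cz.tj) Cz.tj86 = true := by decide +kernel

theorem jtj87 : DT.all (qjH PT.gp PT.gm spT PT.ps Cz.rtT Cz.tz Cz.tw Cz.tj) Cz.tj87 = true := by decide +kernel

theorem jtj88 : DT.all (qjH PT.gp PT.gm spT PT.ps Cz.rtT Cz.tz Cz.tw Cz.tj) Cz.tj88 = true := by decide +kernel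

theorem jtj89 : DT.all (qjH PT.gp PT.gm spT PT.ps Cz.rtT Cz.tz Cz.tw Cz.tj) Cz.tj89 = true := by decide +kernel


end Pool.Agent.Lib.MP_5854e1_co.Cz

namespace Pool.Agent.Lib.MP_5854e1_co.Cz

open Pool.Agent.Lib.MP_5854e1_co PB

theorem jtj405 : DT.all (qjH PT.gp PT.gm spT PT.ps Cz.rtT Cz.tz Cz.tw Cz.tj) Cz.tj405 = true := by decide +kernel

theorem jtj406 : DT.all (qjH PT.gp PT.gm spT PT.ps Cz.rtT Cz.tz Cz.tw Cz.tj) Cz.tj406 = true := by decide +kernel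

theorem jtj407 : DT.all (qjH PT.gp PT.gm spT PT.ps Cz.rtT Cz.tz Cz.tw Cz.tj) Cz.tj407 = true := by decide +kernel

theorem jtj408 : DT.all (qjH PT.gp PT.gm spT PT.ps Cz.rtT Cz.tz Cz.tw Cz.tj) Cz.tj408 = true := by decide +kernel

theorem jtj409 : DT.all (qjH PT.gp PT.gm spT PT.ps Cz.rtT Cz.tz Cz.tw Cz.tj) Cz.tj409 = true := by decide +kernel

theorem jtj410 : DT.all (qjH PT.gp PT.gm spT PT.ps Cz.rtT Cz.tz Cz.tw Cz.tj) Cz.tj410 = true := by decide +kernel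

theorem jtj411 : DT.all (qjH PT.gp PT.gm spT PT.ps Cz.rtT Cz.tz Cz.tw Cz.tj) Cz.tj411 = true := by decide +kernel

theorem jtj412 : DT.all (qjH PT.gp PT.gm spT PT.ps Cz.rtT Cz.tz Cz.tw Cz.tj) Cz.tj412 = true := by decide +kernel

theorem jtj413 : DT.all (qjH PT.gp PT.gm spT PT.ps Cz.rtT Cz.tz Cz.tw Cz.tj) Cz.tj413 = true := by decide +kernel

theorem jtj414 : DT.all (qjH PT.gp PT.gm spT PT.ps Cz.rtT Cz.tz Cz.tw Cz.tj) Cz.tj414 = true := by decide +kernel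

theorem jtj415 : DT.all (qjH PT.gp PT.gm spT PT.ps Cz.rtT Cz.tz Cz.tw Cz.tj) Cz.tj415 = true := by decide +kernel

theorem jtj416 : DT.all (qjH PT.gp PT.gm spT PT.ps Cz.rtT Cz.tz Cz.tw Cz.tj) Cz.tj416 = true := by decide +kernel

theorem jtj417 : DT.all (qjH PT.gp PT.gm spT PT.ps Cz.rtT Cz.tz Cz.tw Cz.tj) Cz.tj417 = true := by decide +kernel

theorem jtj418 : DT.all (qjH PT.gp PT.gm spT PT.ps Cz.rtT Cz.tz Cz.tw Cz.tj) Cz.tj418 = true := by decide +kernel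

theorem jtj419 : DT.all (qjH PT.gp PT.gm spT PT.ps Cz.rtT Cz.tz Cz.tw Cz.tj) Cz.tj419 = true := by decide +kernel


end Pool.Agent.Lib.MP_5854e1_co.Cz
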