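import Pool.Agent.Lib.MP_5854e1_co.Cz.P

/-!
# The longer faces
-/

set_option autoImplicit false
set_option maxRecDepth 100000
set_option deprecated.oldSectionVars true

namespace Pool.Agent.Lib.MP_5854e1_co.Cz

open Pool.Agent.Lib.MP_5854e1_co PB

theorem low : AP.rgN (lowK PT.q q5T (nat_lit 14) (nat_lit 16384) Cz.tq) 0 101 = true := by decide +kernel

theorem pz : AP.rgN (pZ q5T (nat_lit 14) (nat_lit 16384) (nat_lit 0)) 0 101 = true := by decide +kernel


theorem tm : AP.rgN (tmChk trT mT) 0 101 = true := by decide +kernel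

theorem tok : rAllN (tokChk trT tlT) 101 = true := by decide +kernel

theorem symq : AP.rgN (symQ mT Cz.tq) 0 101 = true := by decide +kernel

theorem tkd : AP.rgN (symTK PT.D) 0 101 = true := by decide +kernel

end Pool.Agent.Lib.MP_5854e1_co.Cz
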