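import Pool.Agent.Lib.MP_5854e1_co.Cz.P

/-!
# The pentagons
-/

set_option autoImplicit false
set_option maxRecDepth 100000
set_option deprecated.oldSectionVars true

namespace Pool.Agent.Lib.MP_5854e1_co.Cz

open Pool.Agent.Lib.MP_5854e1_co PB

theorem pl0 : AP.rgN (pL0 q5T (nat_lit 14) (nat_lit 16384) (nat_lit 24580) (nat_lit 24576) (nat_lit 0) (nat_lit 1) (nat_lit 4)) 0 101 = true := by decide +kernel


end Pool.Agent.Lib.MP_5854e1_co.Cz
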