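import Pool.Agent.Lib.MP_5854e1_co.Cz.P

/-!
# The sums over the quadrilaterals
-/

set_option autoImplicit false
set_option maxRecDepth 100000
set_option deprecated.oldSectionVars true

namespace Pool.Agent.Lib.MP_5854e1_co.Cz

open Pool.Agent.Lib.MP_5854e1_co PB

noncomputable def kqu0 : Pr := .mk (nat_lit 0) (nat_lit 12) (nat_lit 0) (nat_lit 512)

theorem kq0 : AP.runP Nat.succ (qPair PT.q (nat_lit 14) (nat_lit 16384) (nat_lit 4398046511104) (nat_lit 19664)) kqu0 = true := by decide +kernel

noncomputable def kqu1 : Pr := .mk (nat_lit 12) (nat_lit 17) (nat_lit 0) (nat_lit 512)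

theorem kq1 : AP.runP Nat.succ (qPair PT.q (nat_lit 14) (nat_lit 16384) (nat_lit 4398046511104) (nat_lit 19664)) kqu1 = true := by decide +kernel

noncomputable def kqu2 : Pr := .mk (nat_lit 17) (nat_lit 21) (nat_lit 0) (nat_lit 512)

theorem kq2 : AP.runP Nat.succ (qPair PT.q (nat_lit 14) (nat_lit 16384) (nat_lit 4398046511104) (nat_lit 19664)) kqu2 = true := by decide +kernel

noncomputable def kqu3 : Pr := .mk (nat_lit 21) (nat_lit 24) (nat_lit 0) (nat_lit 512)

theorem kq3 : AP.runP Nat.succ (qPair PT.q (nat_lit 14) (nat_lit 16384) (nat_lit 4398046511104) (nat_lit 19664)) kqu3 = true := by decide +kernel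

noncomputable def kqu4 : Pr := .mk (nat_lit 24) (nat_lit 27) (nat_lit 0) (nat_lit 512)

theorem kq4 : AP.runP Nat.succ (qPair PT.q (nat_lit 14) (nat_lit 16384) (nat_lit 4398046511104) (nat_lit 19664)) kqu4 = true := by decide +kernel

noncomputable def kqu5 : Pr := .mk (nat_lit 27) (nat_lit 28) (nat_lit 0) (nat_lit 512)

theorem kq5 : AP.runP Nat.succ (qPair PT.q (nat_lit 14) (nat_lit 16384) (nat_lit 4398046511104) (nat_lit 19664)) kqu5 = true := by decide +kernel

noncomputable def kqu6 : Pr := .mk (nat_lit 28) (nat_lit 29) (nat_lit 0) (nat_lit 512)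

theorem kq6 : AP.runP Nat.succ (qPair PT.q (nat_lit 14) (nat_lit 16384) (nat_lit 4398046511104) (nat_lit 19664)) kqu6 = true := by decide +kernel


end Pool.Agent.Lib.MP_5854e1_co.Cz

namespace Pool.Agent.Lib.MP_5854e1_co.Cz

open Pool.Agent.Lib.MP_5854e1_co PB

noncomputable def kqu110 : Pr := .mk (nat_lit 95) (nat_lit 96) (nat_lit 64) (nat_lit 512)

theorem kq110 : AP.runP Nat.succ (qPair PT.q (nat_lit 14) (nat_lit 16384) (nat_lit 4398046511104) (nat_lit 19664)) kqu110 = true := by decide +kernel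

noncomputable def kqu111 : Pr := .mk (nat_lit 96) (nat_lit 97) (nat_lit 0) (nat_lit 49)

theorem kq111 : AP.runP Nat.succ (qPair PT.q (nat_lit 14) (nat_lit 16384) (nat_lit 4398046511104) (nat_lit 19664)) kqu111 = true := by decide +kernel

noncomputable def kqu112 : Pr := .mk (nat_lit 96) (nat_lit 97) (nat_lit 49) (nat_lit 512)

theorem kq112 : AP.runP Nat.succ (qPair PT.q (nat_lit 14) (nat_lit 16384) (nat_lit 4398046511104) (nat_lit 19664)) kqu112 = true := by decide +kernel

noncomputable def kqu113 : Pr := .mk (nat_lit 97) (nat_lit 98) (nat_lit 0) (nat_lit 33)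

theorem kq113 : AP.runP Nat.succ (qPair PT.q (nat_lit 14) (nat_lit 16384) (nat_lit 4398046511104) (nat_lit 19664)) kqu113 = true := by decide +kernel

noncomputable def kqu114 : Pr := .mk (nat_lit 97) (nat_lit 98) (nat_lit 33) (nat_lit 66)

theorem kq114 : AP.runP Nat.succ (qPair PT.q (nat_lit 14) (nat_lit 16384) (nat_lit 4398046511104) (nat_lit 19664)) kqu114 = true := by decide +kernel

noncomputable def kqu115 : Pr := .mk (nat_lit 97) (nat_lit 98) (nat_lit 66) (nat_lit 512)

theorem kq115 : AP.runP Nat.succ (qPair PT.q (nat_lit 14) (nat_lit 16384) (nat_lit 4398046511104) (nat_lit 19664)) kqu115 = true := by decide +kernel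

noncomputable def kqu116 : Pr := .mk (nat_lit 98) (nat_lit 99) (nat_lit 0) (nat_lit 33)

theorem kq116 : AP.runP Nat.succ (qPair PT.q (nat_lit 14) (nat_lit 16384) (nat_lit 4398046511104) (nat_lit 19664)) kqu116 = true := by decide +kernel


end Pool.Agent.Lib.MP_5854e1_co.Cz
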