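import Pool.Agent.Lib.MP_5854e1_co.Cz.P

/-!
# The sums over the quadrilaterals
-/

set_option autoImplicit false
set_option maxRecDepth 100000
set_option deprecated.oldSectionVars true

namespace Pool.Agent.Lib.MP_5854e1_co.Cz

open Pool.Agent.Lib.MP_5854e1_co PB

noncomputable def kqu7 : Pr := .mk (nat_lit 29) (nat_lit 31) (nat_lit 0) (nat_lit 512)

theorem kq7 : AP.runP Nat.succ (qPair PT.q (nat_lit 14) (nat_lit 16384) (nat_lit 4398046511104) (nat_lit 19664)) kqu7 = true := by decide +kernel

noncomputable def kqu8 : Pr := .mk (nat_lit 31) (nat_lit 33) (nat_lit 0) (nat_lit 512)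

theorem kq8 : AP.runP Nat.succ (qPair PT.q (nat_lit 14) (nat_lit 16384) (nat_lit 4398046511104) (nat_lit 19664)) kqu8 = true := by decide +kernel

noncomputable def kqu9 : Pr := .mk (nat_lit 33) (nat_lit 35) (nat_lit 0) (nat_lit 512)

theorem kq9 : AP.runP Nat.succ (qPair PT.q (nat_lit 14) (nat_lit 16384) (nat_lit 4398046511104) (nat_lit 19664)) kqu9 = true := by decide +kernel

noncomputable def kqu10 : Pr := .mk (nat_lit 35) (nat_lit 36) (nat_lit 0) (nat_lit 512)

theorem kq10 : AP.runP Nat.succ (qPair PT.q (nat_lit 14) (nat_lit 16384) (nat_lit 4398046511104) (nat_lit 19664)) kqu10 = true := by decide +kernel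

noncomputable def kqu11 : Pr := .mk (nat_lit 36) (nat_lit 37) (nat_lit 0) (nat_lit 512)

theorem kq11 : AP.runP Nat.succ (qPair PT.q (nat_lit 14) (nat_lit 16384) (nat_lit 4398046511104) (nat_lit 19664)) kqu11 = true := by decide +kernel

noncomputable def kqu12 : Pr := .mk (nat_lit 37) (nat_lit 38) (nat_lit 0) (nat_lit 512)

theorem kq12 : AP.runP Nat.succ (qPair PT.q (nat_lit 14) (nat_lit 16384) (nat_lit 4398046511104) (nat_lit 19664)) kqu12 = true := by decide +kernel

noncomputable def kqu13 : Pr := .mk (nat_lit 38) (nat_lit 39) (nat_lit 0) (nat_lit 512)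

theorem kq13 : AP.runP Nat.succ (qPair PT.q (nat_lit 14) (nat_lit 16384) (nat_lit 4398046511104) (nat_lit 19664)) kqu13 = true := by decide +kernel

noncomputable def kqu14 : Pr := .mk (nat_lit 39) (nat_lit 40) (nat_lit 0) (nat_lit 512)

theorem kq14 : AP.runP Nat.succ (qPair PT.q (nat_lit 14) (nat_lit 16384) (nat_lit 4398046511104) (nat_lit 19664)) kqu14 = true := by decide +kernel


end Pool.Agent.Lib.MP_5854e1_co.Cz
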