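import Pool.Agent.Lib.MP_5854e1_co.Cz.P

/-!
# The sums over the quadrilaterals
-/

set_option autoImplicit false
set_option maxRecDepth 100000
set_option deprecated.oldSectionVars true

namespace Pool.Agent.Lib.MP_5854e1_co.Cz

open Pool.Agent.Lib.MP_5854e1_co PB

noncomputable def kqu15 : Pr := .mk (nat_lit 40) (nat_lit 41) (nat_lit 0) (nat_lit 512)

theorem kq15 : AP.runP Nat.succ (qPair PT.q (nat_lit 14) (nat_lit 16384) (nat_lit 4398046511104) (nat_lit 19664)) kqu15 = true := by decide +kernel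

noncomputable def kqu16 : Pr := .mk (nat_lit 41) (nat_lit 42) (nat_lit 0) (nat_lit 21)

theorem kq16 : AP.runP Nat.succ (qPair PT.q (nat_lit 14) (nat_lit 16384) (nat_lit 4398046511104) (nat_lit 19664)) kqu16 = true := by decide +kernel

noncomputable def kqu17 : Pr := .mk (nat_lit 41) (nat_lit 42) (nat_lit 21) (nat_lit 512)

theorem kq17 : AP.runP Nat.succ (qPair PT.q (nat_lit 14) (nat_lit 16384) (nat_lit 4398046511104) (nat_lit 19664)) kqu17 = true := by decide +kernel

noncomputable def kqu18 : Pr := .mk (nat_lit 42) (nat_lit 43) (nat_lit 0) (nat_lit 512)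

theorem kq18 : AP.runP Nat.succ (qPair PT.q (nat_lit 14) (nat_lit 16384) (nat_lit 4398046511104) (nat_lit 19664)) kqu18 = true := by decide +kernel

noncomputable def kqu19 : Pr := .mk (nat_lit 43) (nat_lit 44) (nat_lit 0) (nat_lit 512)

theorem kq19 : AP.runP Nat.succ (qPair PT.q (nat_lit 14) (nat_lit 16384) (nat_lit 4398046511104) (nat_lit 19664)) kqu19 = true := by decide +kernel

noncomputable def kqu20 : Pr := .mk (nat_lit 44) (nat_lit 45) (nat_lit 0) (nat_lit 512)

theorem kq20 : AP.runP Nat.succ (qPair PT.q (nat_lit 14) (nat_lit 16384) (nat_lit 4398046511104) (nat_lit 19664)) kqu20 = true := by decide +kernel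

noncomputable def kqu21 : Pr := .mk (nat_lit 45) (nat_lit 46) (nat_lit 0) (nat_lit 512)

theorem kq21 : AP.runP Nat.succ (qPair PT.q (nat_lit 14) (nat_lit 16384) (nat_lit 4398046511104) (nat_lit 19664)) kqu21 = true := by decide +kernel

noncomputable def kqu22 : Pr := .mk (nat_lit 46) (nat_lit 47) (nat_lit 0) (nat_lit 512)

theorem kq22 : AP.runP Nat.succ (qPair PT.q (nat_lit 14) (nat_lit 16384) (nat_lit 4398046511104) (nat_lit 19664)) kqu22 = true := by decide +kernel


end Pool.Agent.Lib.MP_5854e1_co.Cz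

namespace Pool.Agent.Lib.MP_5854e1_co.Cz

open Pool.Agent.Lib.MP_5854e1_co PB

noncomputable def kqu90 : Pr := .mk (nat_lit 86) (nat_lit 87) (nat_lit 29) (nat_lit 58)

theorem kq90 : AP.runP Nat.succ (qPair PT.q (nat_lit 14) (nat_lit 16384) (nat_lit 4398046511104) (nat_lit 19664)) kqu90 = true := by decide +kernel

noncomputable def kqu91 : Pr := .mk (nat_lit 86) (nat_lit 87) (nat_lit 58) (nat_lit 512)

theorem kq91 : AP.runP Nat.succ (qPair PT.q (nat_lit 14) (nat_lit 16384) (nat_lit 4398046511104) (nat_lit 19664)) kqu91 = true := by decide +kernel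

noncomputable def kqu92 : Pr := .mk (nat_lit 87) (nat_lit 88) (nat_lit 0) (nat_lit 44)

theorem kq92 : AP.runP Nat.succ (qPair PT.q (nat_lit 14) (nat_lit 16384) (nat_lit 4398046511104) (nat_lit 19664)) kqu92 = true := by decide +kernel

noncomputable def kqu93 : Pr := .mk (nat_lit 87) (nat_lit 88) (nat_lit 44) (nat_lit 512)

theorem kq93 : AP.runP Nat.succ (qPair PT.q (nat_lit 14) (nat_lit 16384) (nat_lit 4398046511104) (nat_lit 19664)) kqu93 = true := by decide +kernel

noncomputable def kqu94 : Pr := .mk (nat_lit 88) (nat_lit 89) (nat_lit 0) (nat_lit 45)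

theorem kq94 : AP.runP Nat.succ (qPair PT.q (nat_lit 14) (nat_lit 16384) (nat_lit 4398046511104) (nat_lit 19664)) kqu94 = true := by decide +kernel

noncomputable def kqu95 : Pr := .mk (nat_lit 88) (nat_lit 89) (nat_lit 45) (nat_lit 512)

theorem kq95 : AP.runP Nat.succ (qPair PT.q (nat_lit 14) (nat_lit 16384) (nat_lit 4398046511104) (nat_lit 19664)) kqu95 = true := by decide +kernel


end Pool.Agent.Lib.MP_5854e1_co.Cz
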