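import Pool.Agent.Lib.MP_5854e1_co.Cz.P

/-!
# The sums over the quadrilaterals
-/

set_option autoImplicit false
set_option maxRecDepth 100000
set_option deprecated.oldSectionVars true

namespace Pool.Agent.Lib.MP_5854e1_co.Cz

open Pool.Agent.Lib.MP_5854e1_co PB

noncomputable def kqu23 : Pr := .mk (nat_lit 47) (nat_lit 48) (nat_lit 0) (nat_lit 512)

theorem kq23 : AP.runP Nat.succ (qPair PT.q (nat_lit 14) (nat_lit 16384) (nat_lit 4398046511104) (nat_lit 19664)) kqu23 = true := by decide +kernel

noncomputable def kqu24 : Pr := .mk (nat_lit 48) (nat_lit 49) (nat_lit 0) (nat_lit 512)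

theorem kq24 : AP.runP Nat.succ (qPair PT.q (nat_lit 14) (nat_lit 16384) (nat_lit 4398046511104) (nat_lit 19664)) kqu24 = true := by decide +kernel

noncomputable def kqu25 : Pr := .mk (nat_lit 49) (nat_lit 50) (nat_lit 0) (nat_lit 512)

theorem kq25 : AP.runP Nat.succ (qPair PT.q (nat_lit 14) (nat_lit 16384) (nat_lit 4398046511104) (nat_lit 19664)) kqu25 = true := by decide +kernel

noncomputable def kqu26 : Pr := .mk (nat_lit 50) (nat_lit 51) (nat_lit 0) (nat_lit 512)

theorem kq26 : AP.runP Nat.succ (qPair PT.q (nat_lit 14) (nat_lit 16384) (nat_lit 4398046511104) (nat_lit 19664)) kqu26 = true := by decide +kernel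

noncomputable def kqu27 : Pr := .mk (nat_lit 51) (nat_lit 52) (nat_lit 0) (nat_lit 512)

theorem kq27 : AP.runP Nat.succ (qPair PT.q (nat_lit 14) (nat_lit 16384) (nat_lit 4398046511104) (nat_lit 19664)) kqu27 = true := by decide +kernel

noncomputable def kqu28 : Pr := .mk (nat_lit 52) (nat_lit 53) (nat_lit 0) (nat_lit 27)

theorem kq28 : AP.runP Nat.succ (qPair PT.q (nat_lit 14) (nat_lit 16384) (nat_lit 4398046511104) (nat_lit 19664)) kqu28 = true := by decide +kernel

noncomputable def kqu29 : Pr := .mk (nat_lit 52) (nat_lit 53) (nat_lit 27) (nat_lit 512)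

theorem kq29 : AP.runP Nat.succ (qPair PT.q (nat_lit 14) (nat_lit 16384) (nat_lit 4398046511104) (nat_lit 19664)) kqu29 = true := by decide +kernel


end Pool.Agent.Lib.MP_5854e1_co.Cz

namespace Pool.Agent.Lib.MP_5854e1_co.Cz

open Pool.Agent.Lib.MP_5854e1_co PB

noncomputable def kqu64 : Pr := .mk (nat_lit 73) (nat_lit 74) (nat_lit 37) (nat_lit 512)

theorem kq64 : AP.runP Nat.succ (qPair PT.q (nat_lit 14) (nat_lit 16384) (nat_lit 4398046511104) (nat_lit 19664)) kqu64 = true := by decide +kernel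

noncomputable def kqu65 : Pr := .mk (nat_lit 74) (nat_lit 75) (nat_lit 0) (nat_lit 38)

theorem kq65 : AP.runP Nat.succ (qPair PT.q (nat_lit 14) (nat_lit 16384) (nat_lit 4398046511104) (nat_lit 19664)) kqu65 = true := by decide +kernel

noncomputable def kqu66 : Pr := .mk (nat_lit 74) (nat_lit 75) (nat_lit 38) (nat_lit 512)

theorem kq66 : AP.runP Nat.succ (qPair PT.q (nat_lit 14) (nat_lit 16384) (nat_lit 4398046511104) (nat_lit 19664)) kqu66 = true := by decide +kernel

noncomputable def kqu67 : Pr := .mk (nat_lit 75) (nat_lit 76) (nat_lit 0) (nat_lit 38)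

theorem kq67 : AP.runP Nat.succ (qPair PT.q (nat_lit 14) (nat_lit 16384) (nat_lit 4398046511104) (nat_lit 19664)) kqu67 = true := by decide +kernel

noncomputable def kqu68 : Pr := .mk (nat_lit 75) (nat_lit 76) (nat_lit 38) (nat_lit 512)

theorem kq68 : AP.runP Nat.succ (qPair PT.q (nat_lit 14) (nat_lit 16384) (nat_lit 4398046511104) (nat_lit 19664)) kqu68 = true := by decide +kernel

noncomputable def kqu69 : Pr := .mk (nat_lit 76) (nat_lit 77) (nat_lit 0) (nat_lit 39)

theorem kq69 : AP.runP Nat.succ (qPair PT.q (nat_lit 14) (nat_lit 16384) (nat_lit 4398046511104) (nat_lit 19664)) kqu69 = true := by decide +kernel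

noncomputable def kqu70 : Pr := .mk (nat_lit 76) (nat_lit 77) (nat_lit 39) (nat_lit 512)

theorem kq70 : AP.runP Nat.succ (qPair PT.q (nat_lit 14) (nat_lit 16384) (nat_lit 4398046511104) (nat_lit 19664)) kqu70 = true := by decide +kernel

noncomputable def kqu71 : Pr := .mk (nat_lit 77) (nat_lit 78) (nat_lit 0) (nat_lit 39)

theorem kq71 : AP.runP Nat.succ (qPair PT.q (nat_lit 14) (nat_lit 16384) (nat_lit 4398046511104) (nat_lit 19664)) kqu71 = true := by decide +kernel

noncomputable def kqu72 : Pr := .mk (nat_lit 77) (nat_lit 78) (nat_lit 39) (nat_lit 512)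

theorem kq72 : AP.runP Nat.succ (qPair PT.q (nat_lit 14) (nat_lit 16384) (nat_lit 4398046511104) (nat_lit 19664)) kqu72 = true := by decide +kernel


end Pool.Agent.Lib.MP_5854e1_co.Cz
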