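import Pool.Agent.Lib.MP_5854e1_co.Cz.P

/-!
# The sums over the quadrilaterals
-/

set_option autoImplicit false
set_option maxRecDepth 100000
set_option deprecated.oldSectionVars true

namespace Pool.Agent.Lib.MP_5854e1_co.Cz

open Pool.Agent.Lib.MP_5854e1_co PB

noncomputable def kqu30 : Pr := .mk (nat_lit 53) (nat_lit 54) (nat_lit 0) (nat_lit 512)

theorem kq30 : AP.runP Nat.succ (qPair PT.q (nat_lit 14) (nat_lit 16384) (nat_lit 4398046511104) (nat_lit 19664)) kqu30 = true := by decide +kernel

noncomputable def kqu31 : Pr := .mk (nat_lit 54) (nat_lit 55) (nat_lit 0) (nat_lit 512)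

theorem kq31 : AP.runP Nat.succ (qPair PT.q (nat_lit 14) (nat_lit 16384) (nat_lit 4398046511104) (nat_lit 19664)) kqu31 = true := by decide +kernel

noncomputable def kqu32 : Pr := .mk (nat_lit 55) (nat_lit 56) (nat_lit 0) (nat_lit 512)

theorem kq32 : AP.runP Nat.succ (qPair PT.q (nat_lit 14) (nat_lit 16384) (nat_lit 4398046511104) (nat_lit 19664)) kqu32 = true := by decide +kernel

noncomputable def kqu33 : Pr := .mk (nat_lit 56) (nat_lit 57) (nat_lit 0) (nat_lit 512)

theorem kq33 : AP.runP Nat.succ (qPair PT.q (nat_lit 14) (nat_lit 16384) (nat_lit 4398046511104) (nat_lit 19664)) kqu33 = true := by decide +kernel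

noncomputable def kqu34 : Pr := .mk (nat_lit 57) (nat_lit 58) (nat_lit 0) (nat_lit 512)

theorem kq34 : AP.runP Nat.succ (qPair PT.q (nat_lit 14) (nat_lit 16384) (nat_lit 4398046511104) (nat_lit 19664)) kqu34 = true := by decide +kernel

noncomputable def kqu35 : Pr := .mk (nat_lit 58) (nat_lit 59) (nat_lit 0) (nat_lit 30)

theorem kq35 : AP.runP Nat.succ (qPair PT.q (nat_lit 14) (nat_lit 16384) (nat_lit 4398046511104) (nat_lit 19664)) kqu35 = true := by decide +kernel

noncomputable def kqu36 : Pr := .mk (nat_lit 58) (nat_lit 59) (nat_lit 30) (nat_lit 512)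

theorem kq36 : AP.runP Nat.succ (qPair PT.q (nat_lit 14) (nat_lit 16384) (nat_lit 4398046511104) (nat_lit 19664)) kqu36 = true := by decide +kernel


end Pool.Agent.Lib.MP_5854e1_co.Cz

namespace Pool.Agent.Lib.MP_5854e1_co.Cz

open Pool.Agent.Lib.MP_5854e1_co PB

noncomputable def kqu96 : Pr := .mk (nat_lit 89) (nat_lit 90) (nat_lit 0) (nat_lit 45)

theorem kq96 : AP.runP Nat.succ (qPair PT.q (nat_lit 14) (nat_lit 16384) (nat_lit 4398046511104) (nat_lit 19664)) kqu96 = true := by decide +kernel

noncomputable def kqu97 : Pr := .mk (nat_lit 89) (nat_lit 90) (nat_lit 45) (nat_lit 512)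

theorem kq97 : AP.runP Nat.succ (qPair PT.q (nat_lit 14) (nat_lit 16384) (nat_lit 4398046511104) (nat_lit 19664)) kqu97 = true := by decide +kernel

noncomputable def kqu98 : Pr := .mk (nat_lit 90) (nat_lit 91) (nat_lit 0) (nat_lit 46)

theorem kq98 : AP.runP Nat.succ (qPair PT.q (nat_lit 14) (nat_lit 16384) (nat_lit 4398046511104) (nat_lit 19664)) kqu98 = true := by decide +kernel

noncomputable def kqu99 : Pr := .mk (nat_lit 90) (nat_lit 91) (nat_lit 46) (nat_lit 512)

theorem kq99 : AP.runP Nat.succ (qPair PT.q (nat_lit 14) (nat_lit 16384) (nat_lit 4398046511104) (nat_lit 19664)) kqu99 = true := by decide +kernel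

noncomputable def kqu100 : Pr := .mk (nat_lit 91) (nat_lit 92) (nat_lit 0) (nat_lit 46)

theorem kq100 : AP.runP Nat.succ (qPair PT.q (nat_lit 14) (nat_lit 16384) (nat_lit 4398046511104) (nat_lit 19664)) kqu100 = true := by decide +kernel

noncomputable def kqu101 : Pr := .mk (nat_lit 91) (nat_lit 92) (nat_lit 46) (nat_lit 512)

theorem kq101 : AP.runP Nat.succ (qPair PT.q (nat_lit 14) (nat_lit 16384) (nat_lit 4398046511104) (nat_lit 19664)) kqu101 = true := by decide +kernel

noncomputable def kqu102 : Pr := .mk (nat_lit 92) (nat_lit 93) (nat_lit 0) (nat_lit 47)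

theorem kq102 : AP.runP Nat.succ (qPair PT.q (nat_lit 14) (nat_lit 16384) (nat_lit 4398046511104) (nat_lit 19664)) kqu102 = true := by decide +kernel


end Pool.Agent.Lib.MP_5854e1_co.Cz
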