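import Pool.Agent.Lib.MP_5854e1_co.Cz.P

/-!
# The sums over the quadrilaterals
-/

set_option autoImplicit false
set_option maxRecDepth 100000
set_option deprecated.oldSectionVars true

namespace Pool.Agent.Lib.MP_5854e1_co.Cz

open Pool.Agent.Lib.MP_5854e1_co PB

noncomputable def kqu37 : Pr := .mk (nat_lit 59) (nat_lit 60) (nat_lit 0) (nat_lit 512)

theorem kq37 : AP.runP Nat.succ (qPair PT.q (nat_lit 14) (nat_lit 16384) (nat_lit 4398046511104) (nat_lit 19664)) kqu37 = true := by decide +kernel

noncomputable def kqu38 : Pr := .mk (nat_lit 60) (nat_lit 61) (nat_lit 0) (nat_lit 31)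

theorem kq38 : AP.runP Nat.succ (qPair PT.q (nat_lit 14) (nat_lit 16384) (nat_lit 4398046511104) (nat_lit 19664)) kqu38 = true := by decide +kernel

noncomputable def kqu39 : Pr := .mk (nat_lit 60) (nat_lit 61) (nat_lit 31) (nat_lit 512)

theorem kq39 : AP.runP Nat.succ (qPair PT.q (nat_lit 14) (nat_lit 16384) (nat_lit 4398046511104) (nat_lit 19664)) kqu39 = true := by decide +kernel

noncomputable def kqu40 : Pr := .mk (nat_lit 61) (nat_lit 62) (nat_lit 0) (nat_lit 31)

theorem kq40 : AP.runP Nat.succ (qPair PT.q (nat_lit 14) (nat_lit 16384) (nat_lit 4398046511104) (nat_lit 19664)) kqu40 = true := by decide +kernel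

noncomputable def kqu41 : Pr := .mk (nat_lit 61) (nat_lit 62) (nat_lit 31) (nat_lit 512)

theorem kq41 : AP.runP Nat.succ (qPair PT.q (nat_lit 14) (nat_lit 16384) (nat_lit 4398046511104) (nat_lit 19664)) kqu41 = true := by decide +kernel

noncomputable def kqu42 : Pr := .mk (nat_lit 62) (nat_lit 63) (nat_lit 0) (nat_lit 512)

theorem kq42 : AP.runP Nat.succ (qPair PT.q (nat_lit 14) (nat_lit 16384) (nat_lit 4398046511104) (nat_lit 19664)) kqu42 = true := by decide +kernel

noncomputable def kqu43 : Pr := .mk (nat_lit 63) (nat_lit 64) (nat_lit 0) (nat_lit 32)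

theorem kq43 : AP.runP Nat.succ (qPair PT.q (nat_lit 14) (nat_lit 16384) (nat_lit 4398046511104) (nat_lit 19664)) kqu43 = true := by decide +kernel

noncomputable def kqu44 : Pr := .mk (nat_lit 63) (nat_lit 64) (nat_lit 32) (nat_lit 512)

theorem kq44 : AP.runP Nat.succ (qPair PT.q (nat_lit 14) (nat_lit 16384) (nat_lit 4398046511104) (nat_lit 19664)) kqu44 = true := by decide +kernel

noncomputable def kqu45 : Pr := .mk (nat_lit 64) (nat_lit 65) (nat_lit 0) (nat_lit 33)

theorem kq45 : AP.runP Nat.succ (qPair PT.q (nat_lit 14) (nat_lit 16384) (nat_lit 4398046511104) (nat_lit 19664)) kqu45 = true := by decide +kernel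


end Pool.Agent.Lib.MP_5854e1_co.Cz

namespace Pool.Agent.Lib.MP_5854e1_co.Cz

open Pool.Agent.Lib.MP_5854e1_co PB

noncomputable def kqu117 : Pr := .mk (nat_lit 98) (nat_lit 99) (nat_lit 33) (nat_lit 66)

theorem kq117 : AP.runP Nat.succ (qPair PT.q (nat_lit 14) (nat_lit 16384) (nat_lit 4398046511104) (nat_lit 19664)) kqu117 = true := by decide +kernel

noncomputable def kqu118 : Pr := .mk (nat_lit 98) (nat_lit 99) (nat_lit 66) (nat_lit 512)

theorem kq118 : AP.runP Nat.succ (qPair PT.q (nat_lit 14) (nat_lit 16384) (nat_lit 4398046511104) (nat_lit 19664)) kqu118 = true := by decide +kernel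

noncomputable def kqu119 : Pr := .mk (nat_lit 99) (nat_lit 100) (nat_lit 0) (nat_lit 50)

theorem kq119 : AP.runP Nat.succ (qPair PT.q (nat_lit 14) (nat_lit 16384) (nat_lit 4398046511104) (nat_lit 19664)) kqu119 = true := by decide +kernel

noncomputable def kqu120 : Pr := .mk (nat_lit 99) (nat_lit 100) (nat_lit 50) (nat_lit 512)

theorem kq120 : AP.runP Nat.succ (qPair PT.q (nat_lit 14) (nat_lit 16384) (nat_lit 4398046511104) (nat_lit 19664)) kqu120 = true := by decide +kernel

noncomputable def kqu121 : Pr := .mk (nat_lit 100) (nat_lit 101) (nat_lit 0) (nat_lit 51)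

theorem kq121 : AP.runP Nat.succ (qPair PT.q (nat_lit 14) (nat_lit 16384) (nat_lit 4398046511104) (nat_lit 19664)) kqu121 = true := by decide +kernel

noncomputable def kqu122 : Pr := .mk (nat_lit 100) (nat_lit 101) (nat_lit 51) (nat_lit 512)

theorem kq122 : AP.runP Nat.succ (qPair PT.q (nat_lit 14) (nat_lit 16384) (nat_lit 4398046511104) (nat_lit 19664)) kqu122 = true := by decide +kernel


end Pool.Agent.Lib.MP_5854e1_co.Cz
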