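import Pool.Agent.Lib.MP_5854e1_co.Cz.P

/-!
# The sums over the quadrilaterals
-/

set_option autoImplicit false
set_option maxRecDepth 100000
set_option deprecated.oldSectionVars true

namespace Pool.Agent.Lib.MP_5854e1_co.Cz

open Pool.Agent.Lib.MP_5854e1_co PB

noncomputable def kqu46 : Pr := .mk (nat_lit 64) (nat_lit 65) (nat_lit 33) (nat_lit 512)

theorem kq46 : AP.runP Nat.succ (qPair PT.q (nat_lit 14) (nat_lit 16384) (nat_lit 4398046511104) (nat_lit 19664)) kqu46 = true := by decide +kernel

noncomputable def kqu47 : Pr := .mk (nat_lit 65) (nat_lit 66) (nat_lit 0) (nat_lit 33)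

theorem kq47 : AP.runP Nat.succ (qPair PT.q (nat_lit 14) (nat_lit 16384) (nat_lit 4398046511104) (nat_lit 19664)) kqu47 = true := by decide +kernel

noncomputable def kqu48 : Pr := .mk (nat_lit 65) (nat_lit 66) (nat_lit 33) (nat_lit 512)

theorem kq48 : AP.runP Nat.succ (qPair PT.q (nat_lit 14) (nat_lit 16384) (nat_lit 4398046511104) (nat_lit 19664)) kqu48 = true := by decide +kernel

noncomputable def kqu49 : Pr := .mk (nat_lit 66) (nat_lit 67) (nat_lit 0) (nat_lit 34)

theorem kq49 : AP.runP Nat.succ (qPair PT.q (nat_lit 14) (nat_lit 16384) (nat_lit 4398046511104) (nat_lit 19664)) kqu49 = true := by decide +kernel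

noncomputable def kqu50 : Pr := .mk (nat_lit 66) (nat_lit 67) (nat_lit 34) (nat_lit 512)

theorem kq50 : AP.runP Nat.succ (qPair PT.q (nat_lit 14) (nat_lit 16384) (nat_lit 4398046511104) (nat_lit 19664)) kqu50 = true := by decide +kernel

noncomputable def kqu51 : Pr := .mk (nat_lit 67) (nat_lit 68) (nat_lit 0) (nat_lit 34)

theorem kq51 : AP.runP Nat.succ (qPair PT.q (nat_lit 14) (nat_lit 16384) (nat_lit 4398046511104) (nat_lit 19664)) kqu51 = true := by decide +kernel

noncomputable def kqu52 : Pr := .mk (nat_lit 67) (nat_lit 68) (nat_lit 34) (nat_lit 512)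

theorem kq52 : AP.runP Nat.succ (qPair PT.q (nat_lit 14) (nat_lit 16384) (nat_lit 4398046511104) (nat_lit 19664)) kqu52 = true := by decide +kernel

noncomputable def kqu53 : Pr := .mk (nat_lit 68) (nat_lit 69) (nat_lit 0) (nat_lit 35)

theorem kq53 : AP.runP Nat.succ (qPair PT.q (nat_lit 14) (nat_lit 16384) (nat_lit 4398046511104) (nat_lit 19664)) kqu53 = true := by decide +kernel

noncomputable def kqu54 : Pr := .mk (nat_lit 68) (nat_lit 69) (nat_lit 35) (nat_lit 512)

theorem kq54 : AP.runP Nat.succ (qPair PT.q (nat_lit 14) (nat_lit 16384) (nat_lit 4398046511104) (nat_lit 19664)) kqu54 = true := by decide +kernel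


end Pool.Agent.Lib.MP_5854e1_co.Cz

namespace Pool.Agent.Lib.MP_5854e1_co.Cz

open Pool.Agent.Lib.MP_5854e1_co PB

noncomputable def kqu103 : Pr := .mk (nat_lit 92) (nat_lit 93) (nat_lit 47) (nat_lit 512)

theorem kq103 : AP.runP Nat.succ (qPair PT.q (nat_lit 14) (nat_lit 16384) (nat_lit 4398046511104) (nat_lit 19664)) kqu103 = true := by decide +kernel

noncomputable def kqu104 : Pr := .mk (nat_lit 93) (nat_lit 94) (nat_lit 0) (nat_lit 47)

theorem kq104 : AP.runP Nat.succ (qPair PT.q (nat_lit 14) (nat_lit 16384) (nat_lit 4398046511104) (nat_lit 19664)) kqu104 = true := by decide +kernel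

noncomputable def kqu105 : Pr := .mk (nat_lit 93) (nat_lit 94) (nat_lit 47) (nat_lit 512)

theorem kq105 : AP.runP Nat.succ (qPair PT.q (nat_lit 14) (nat_lit 16384) (nat_lit 4398046511104) (nat_lit 19664)) kqu105 = true := by decide +kernel

noncomputable def kqu106 : Pr := .mk (nat_lit 94) (nat_lit 95) (nat_lit 0) (nat_lit 48)

theorem kq106 : AP.runP Nat.succ (qPair PT.q (nat_lit 14) (nat_lit 16384) (nat_lit 4398046511104) (nat_lit 19664)) kqu106 = true := by decide +kernel

noncomputable def kqu107 : Pr := .mk (nat_lit 94) (nat_lit 95) (nat_lit 48) (nat_lit 512)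

theorem kq107 : AP.runP Nat.succ (qPair PT.q (nat_lit 14) (nat_lit 16384) (nat_lit 4398046511104) (nat_lit 19664)) kqu107 = true := by decide +kernel

noncomputable def kqu108 : Pr := .mk (nat_lit 95) (nat_lit 96) (nat_lit 0) (nat_lit 32)

theorem kq108 : AP.runP Nat.succ (qPair PT.q (nat_lit 14) (nat_lit 16384) (nat_lit 4398046511104) (nat_lit 19664)) kqu108 = true := by decide +kernel

noncomputable def kqu109 : Pr := .mk (nat_lit 95) (nat_lit 96) (nat_lit 32) (nat_lit 64)

theorem kq109 : AP.runP Nat.succ (qPair PT.q (nat_lit 14) (nat_lit 16384) (nat_lit 4398046511104) (nat_lit 19664)) kqu109 = true := by decide +kernel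


end Pool.Agent.Lib.MP_5854e1_co.Cz
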