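import Pool.Agent.Lib.MP_5854e1_co.Cz.P

/-!
# The sums over the quadrilaterals
-/

set_option autoImplicit false
set_option maxRecDepth 100000
set_option deprecated.oldSectionVars true

namespace Pool.Agent.Lib.MP_5854e1_co.Cz

open Pool.Agent.Lib.MP_5854e1_co PB

noncomputable def kqu55 : Pr := .mk (nat_lit 69) (nat_lit 70) (nat_lit 0) (nat_lit 35)

theorem kq55 : AP.runP Nat.succ (qPair PT.q (nat_lit 14) (nat_lit 16384) (nat_lit 4398046511104) (nat_lit 19664)) kqu55 = true := by decide +kernel

noncomputable def kqu56 : Pr := .mk (nat_lit 69) (nat_lit 70) (nat_lit 35) (nat_lit 512)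

theorem kq56 : AP.runP Nat.succ (qPair PT.q (nat_lit 14) (nat_lit 16384) (nat_lit 4398046511104) (nat_lit 19664)) kqu56 = true := by decide +kernel

noncomputable def kqu57 : Pr := .mk (nat_lit 70) (nat_lit 71) (nat_lit 0) (nat_lit 36)

theorem kq57 : AP.runP Nat.succ (qPair PT.q (nat_lit 14) (nat_lit 16384) (nat_lit 4398046511104) (nat_lit 19664)) kqu57 = true := by decide +kernel

noncomputable def kqu58 : Pr := .mk (nat_lit 70) (nat_lit 71) (nat_lit 36) (nat_lit 512)

theorem kq58 : AP.runP Nat.succ (qPair PT.q (nat_lit 14) (nat_lit 16384) (nat_lit 4398046511104) (nat_lit 19664)) kqu58 = true := by decide +kernel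

noncomputable def kqu59 : Pr := .mk (nat_lit 71) (nat_lit 72) (nat_lit 0) (nat_lit 36)

theorem kq59 : AP.runP Nat.succ (qPair PT.q (nat_lit 14) (nat_lit 16384) (nat_lit 4398046511104) (nat_lit 19664)) kqu59 = true := by decide +kernel

noncomputable def kqu60 : Pr := .mk (nat_lit 71) (nat_lit 72) (nat_lit 36) (nat_lit 512)

theorem kq60 : AP.runP Nat.succ (qPair PT.q (nat_lit 14) (nat_lit 16384) (nat_lit 4398046511104) (nat_lit 19664)) kqu60 = true := by decide +kernel

noncomputable def kqu61 : Pr := .mk (nat_lit 72) (nat_lit 73) (nat_lit 0) (nat_lit 37)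

theorem kq61 : AP.runP Nat.succ (qPair PT.q (nat_lit 14) (nat_lit 16384) (nat_lit 4398046511104) (nat_lit 19664)) kqu61 = true := by decide +kernel

noncomputable def kqu62 : Pr := .mk (nat_lit 72) (nat_lit 73) (nat_lit 37) (nat_lit 512)

theorem kq62 : AP.runP Nat.succ (qPair PT.q (nat_lit 14) (nat_lit 16384) (nat_lit 4398046511104) (nat_lit 19664)) kqu62 = true := by decide +kernel

noncomputable def kqu63 : Pr := .mk (nat_lit 73) (nat_lit 74) (nat_lit 0) (nat_lit 37)

theorem kq63 : AP.runP Nat.succ (qPair PT.q (nat_lit 14) (nat_lit 16384) (nat_lit 4398046511104) (nat_lit 19664)) kqu63 = true := by decide +kernel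


end Pool.Agent.Lib.MP_5854e1_co.Cz

namespace Pool.Agent.Lib.MP_5854e1_co.Cz

open Pool.Agent.Lib.MP_5854e1_co PB

noncomputable def kqu82 : Pr := .mk (nat_lit 82) (nat_lit 83) (nat_lit 42) (nat_lit 512)

theorem kq82 : AP.runP Nat.succ (qPair PT.q (nat_lit 14) (nat_lit 16384) (nat_lit 4398046511104) (nat_lit 19664)) kqu82 = true := by decide +kernel

noncomputable def kqu83 : Pr := .mk (nat_lit 83) (nat_lit 84) (nat_lit 0) (nat_lit 42)

theorem kq83 : AP.runP Nat.succ (qPair PT.q (nat_lit 14) (nat_lit 16384) (nat_lit 4398046511104) (nat_lit 19664)) kqu83 = true := by decide +kernel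

noncomputable def kqu84 : Pr := .mk (nat_lit 83) (nat_lit 84) (nat_lit 42) (nat_lit 512)

theorem kq84 : AP.runP Nat.succ (qPair PT.q (nat_lit 14) (nat_lit 16384) (nat_lit 4398046511104) (nat_lit 19664)) kqu84 = true := by decide +kernel

noncomputable def kqu85 : Pr := .mk (nat_lit 84) (nat_lit 85) (nat_lit 0) (nat_lit 43)

theorem kq85 : AP.runP Nat.succ (qPair PT.q (nat_lit 14) (nat_lit 16384) (nat_lit 4398046511104) (nat_lit 19664)) kqu85 = true := by decide +kernel

noncomputable def kqu86 : Pr := .mk (nat_lit 84) (nat_lit 85) (nat_lit 43) (nat_lit 512)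

theorem kq86 : AP.runP Nat.succ (qPair PT.q (nat_lit 14) (nat_lit 16384) (nat_lit 4398046511104) (nat_lit 19664)) kqu86 = true := by decide +kernel

noncomputable def kqu87 : Pr := .mk (nat_lit 85) (nat_lit 86) (nat_lit 0) (nat_lit 43)

theorem kq87 : AP.runP Nat.succ (qPair PT.q (nat_lit 14) (nat_lit 16384) (nat_lit 4398046511104) (nat_lit 19664)) kqu87 = true := by decide +kernel

noncomputable def kqu88 : Pr := .mk (nat_lit 85) (nat_lit 86) (nat_lit 43) (nat_lit 512)

theorem kq88 : AP.runP Nat.succ (qPair PT.q (nat_lit 14) (nat_lit 16384) (nat_lit 4398046511104) (nat_lit 19664)) kqu88 = true := by decide +kernel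

noncomputable def kqu89 : Pr := .mk (nat_lit 86) (nat_lit 87) (nat_lit 0) (nat_lit 29)

theorem kq89 : AP.runP Nat.succ (qPair PT.q (nat_lit 14) (nat_lit 16384) (nat_lit 4398046511104) (nat_lit 19664)) kqu89 = true := by decide +kernel


end Pool.Agent.Lib.MP_5854e1_co.Cz
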