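import Pool.Agent.Lib.MP_5854e1_co.Cz.P

/-!
# The sums over the quadrilaterals
-/

set_option autoImplicit false
set_option maxRecDepth 100000
set_option deprecated.oldSectionVars true

namespace Pool.Agent.Lib.MP_5854e1_co.Cz

open Pool.Agent.Lib.MP_5854e1_co PB

noncomputable def kqu73 : Pr := .mk (nat_lit 78) (nat_lit 79) (nat_lit 0) (nat_lit 40)

theorem kq73 : AP.runP Nat.succ (qPair PT.q (nat_lit 14) (nat_lit 16384) (nat_lit 4398046511104) (nat_lit 19664)) kqu73 = true := by decide +kernel

noncomputable def kqu74 : Pr := .mk (nat_lit 78) (nat_lit 79) (nat_lit 40) (nat_lit 512)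

theorem kq74 : AP.runP Nat.succ (qPair PT.q (nat_lit 14) (nat_lit 16384) (nat_lit 4398046511104) (nat_lit 19664)) kqu74 = true := by decide +kernel

noncomputable def kqu75 : Pr := .mk (nat_lit 79) (nat_lit 80) (nat_lit 0) (nat_lit 40)

theorem kq75 : AP.runP Nat.succ (qPair PT.q (nat_lit 14) (nat_lit 16384) (nat_lit 4398046511104) (nat_lit 19664)) kqu75 = true := by decide +kernel

noncomputable def kqu76 : Pr := .mk (nat_lit 79) (nat_lit 80) (nat_lit 40) (nat_lit 512)

theorem kq76 : AP.runP Nat.succ (qPair PT.q (nat_lit 14) (nat_lit 16384) (nat_lit 4398046511104) (nat_lit 19664)) kqu76 = true := by decide +kernel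

noncomputable def kqu77 : Pr := .mk (nat_lit 80) (nat_lit 81) (nat_lit 0) (nat_lit 41)

theorem kq77 : AP.runP Nat.succ (qPair PT.q (nat_lit 14) (nat_lit 16384) (nat_lit 4398046511104) (nat_lit 19664)) kqu77 = true := by decide +kernel

noncomputable def kqu78 : Pr := .mk (nat_lit 80) (nat_lit 81) (nat_lit 41) (nat_lit 512)

theorem kq78 : AP.runP Nat.succ (qPair PT.q (nat_lit 14) (nat_lit 16384) (nat_lit 4398046511104) (nat_lit 19664)) kqu78 = true := by decide +kernel

noncomputable def kqu79 : Pr := .mk (nat_lit 81) (nat_lit 82) (nat_lit 0) (nat_lit 41)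

theorem kq79 : AP.runP Nat.succ (qPair PT.q (nat_lit 14) (nat_lit 16384) (nat_lit 4398046511104) (nat_lit 19664)) kqu79 = true := by decide +kernel

noncomputable def kqu80 : Pr := .mk (nat_lit 81) (nat_lit 82) (nat_lit 41) (nat_lit 512)

theorem kq80 : AP.runP Nat.succ (qPair PT.q (nat_lit 14) (nat_lit 16384) (nat_lit 4398046511104) (nat_lit 19664)) kqu80 = true := by decide +kernel

noncomputable def kqu81 : Pr := .mk (nat_lit 82) (nat_lit 83) (nat_lit 0) (nat_lit 42)

theorem kq81 : AP.runP Nat.succ (qPair PT.q (nat_lit 14) (nat_lit 16384) (nat_lit 4398046511104) (nat_lit 19664)) kqu81 = true := by decide +kernel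


end Pool.Agent.Lib.MP_5854e1_co.Cz
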