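import Pool.Agent.Lib.MP_5854e1_co.Cz.P

/-!
# The reserves
-/

set_option autoImplicit false
set_option maxRecDepth 100000
set_option deprecated.oldSectionVars true

namespace Pool.Agent.Lib.MP_5854e1_co.Cz

open Pool.Agent.Lib.MP_5854e1_co PB

theorem vtr00 : DT.all (rtR Cz.tz) Cz.tr00 = true := by decide +kernel

theorem vtr01 : DT.all (rtR Cz.tz) Cz.tr01 = true := by decide +kernel

theorem vtr02 : DT.all (rtR Cz.tz) Cz.tr02 = true := by decide +kernel

theorem vtr03 : DT.all (rtR Cz.tz) Cz.tr03 = true := by decide +kernel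

theorem vtr04 : DT.all (rtR Cz.tz) Cz.tr04 = true := by decide +kernel

theorem vtr05 : DT.all (rtR Cz.tz) Cz.tr05 = true := by decide +kernel

theorem vtr06 : DT.all (rtR Cz.tz) Cz.tr06 = true := by decide +kernel


end Pool.Agent.Lib.MP_5854e1_co.Cz

namespace Pool.Agent.Lib.MP_5854e1_co.Cz

open Pool.Agent.Lib.MP_5854e1_co PB

theorem vtr07 : DT.all (rtR Cz.tz) Cz.tr07 = true := by decide +kernel

theorem vtr08 : DT.all (rtR Cz.tz) Cz.tr08 = true := by decide +kernel

theorem vtr09 : DT.all (rtR Cz.tz) Cz.tr09 = true := by decide +kernel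

theorem vtr10 : DT.all (rtR Cz.tz) Cz.tr10 = true := by decide +kernel

theorem vtr11 : DT.all (rtR Cz.tz) Cz.tr11 = true := by decide +kernel

theorem vtr12 : DT.all (rtR Cz.tz) Cz.tr12 = true := by decide +kernel


end Pool.Agent.Lib.MP_5854e1_co.Cz

namespace Pool.Agent.Lib.MP_5854e1_co.Cz

open Pool.Agent.Lib.MP_5854e1_co PB

theorem vtr13 : DT.all (rtR Cz.tz) Cz.tr13 = true := by decide +kernel

theorem vtr14 : DT.all (rtR Cz.tz) Cz.tr14 = true := by decide +kernel

theorem vtr15 : DT.all (rtR Cz.tz) Cz.tr15 = true := by decide +kernel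

theorem vtr16 : DT.all (rtR Cz.tz) Cz.tr16 = true := by decide +kernel

theorem vtr17 : DT.all (rtR Cz.tz) Cz.tr17 = true := by decide +kernel

theorem vtr18 : DT.all (rtR Cz.tz) Cz.tr18 = true := by decide +kernel


end Pool.Agent.Lib.MP_5854e1_co.Cz
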