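import Pool.Agent.Lib.MP_5854e1_co.Cz.P

/-!
# The reserves
-/

set_option autoImplicit false
set_option maxRecDepth 100000
set_option deprecated.oldSectionVars true

namespace Pool.Agent.Lib.MP_5854e1_co.Cz

open Pool.Agent.Lib.MP_5854e1_co PB

theorem vtr19 : DT.all (rtR Cz.tz) Cz.tr19 = true := by decide +kernel

theorem vtr20 : DT.all (rtR Cz.tz) Cz.tr20 = true := by decide +kernel

theorem vtr21 : DT.all (rtR Cz.tz) Cz.tr21 = true := by decide +kernel


end Pool.Agent.Lib.MP_5854e1_co.Cz
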