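import Pool.Agent.Lib.MP_5854e1_co.Cz.P

/-!
# The reflection of the fans
-/

set_option autoImplicit false
set_option maxRecDepth 100000
set_option deprecated.oldSectionVars true

namespace Pool.Agent.Lib.MP_5854e1_co.Cz

open Pool.Agent.Lib.MP_5854e1_co PB

noncomputable def ksu0 : Pr := .mk (nat_lit 0) (nat_lit 1) (nat_lit 0) (nat_lit 102)

theorem ks0 : AP.runP optN (sH Cz.tt) ksu0 = true := by decide +kernel

noncomputable def ksu1 : Pr := .mk (nat_lit 0) (nat_lit 1) (nat_lit 102) (nat_lit 161)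

theorem ks1 : AP.runP optN (sH Cz.tt) ksu1 = true := by decide +kernel

noncomputable def ksu2 : Pr := .mk (nat_lit 0) (nat_lit 1) (nat_lit 161) (nat_lit 212)

theorem ks2 : AP.runP optN (sH Cz.tt) ksu2 = true := by decide +kernel

noncomputable def ksu3 : Pr := .mk (nat_lit 0) (nat_lit 1) (nat_lit 212) (nat_lit 357)

theorem ks3 : AP.runP optN (sH Cz.tt) ksu3 = true := by decide +kernel


end Pool.Agent.Lib.MP_5854e1_co.Cz

namespace Pool.Agent.Lib.MP_5854e1_co.Cz

open Pool.Agent.Lib.MP_5854e1_co PB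

noncomputable def ksu4 : Pr := .mk (nat_lit 0) (nat_lit 1) (nat_lit 357) (nat_lit 512)

theorem ks4 : AP.runP optN (sH Cz.tt) ksu4 = true := by decide +kernel

noncomputable def ksu5 : Pr := .mk (nat_lit 1) (nat_lit 7) (nat_lit 0) (nat_lit 512)

theorem ks5 : AP.runP optN (sH Cz.tt) ksu5 = true := by decide +kernel

noncomputable def ksu6 : Pr := .mk (nat_lit 7) (nat_lit 8) (nat_lit 0) (nat_lit 271)

theorem ks6 : AP.runP optN (sH Cz.tt) ksu6 = true := by decide +kernel

noncomputable def ksu7 : Pr := .mk (nat_lit 7) (nat_lit 8) (nat_lit 271) (nat_lit 512)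

theorem ks7 : AP.runP optN (sH Cz.tt) ksu7 = true := by decide +kernel

noncomputable def ksu8 : Pr := .mk (nat_lit 8) (nat_lit 12) (nat_lit 0) (nat_lit 512)

theorem ks8 : AP.runP optN (sH Cz.tt) ksu8 = true := by decide +kernel


end Pool.Agent.Lib.MP_5854e1_co.Cz

namespace Pool.Agent.Lib.MP_5854e1_co.Cz

open Pool.Agent.Lib.MP_5854e1_co PB

noncomputable def ksu9 : Pr := .mk (nat_lit 12) (nat_lit 20) (nat_lit 0) (nat_lit 512)

theorem ks9 : AP.runP optN (sH Cz.tt) ksu9 = true := by decide +kernel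

noncomputable def ksu10 : Pr := .mk (nat_lit 20) (nat_lit 21) (nat_lit 0) (nat_lit 250)

theorem ks10 : AP.runP optN (sH Cz.tt) ksu10 = true := by decide +kernel

noncomputable def ksu11 : Pr := .mk (nat_lit 20) (nat_lit 21) (nat_lit 250) (nat_lit 512)

theorem ks11 : AP.runP optN (sH Cz.tt) ksu11 = true := by decide +kernel

noncomputable def ksu12 : Pr := .mk (nat_lit 21) (nat_lit 25) (nat_lit 0) (nat_lit 512)

theorem ks12 : AP.runP optN (sH Cz.tt) ksu12 = true := by decide +kernel

noncomputable def ksu13 : Pr := .mk (nat_lit 25) (nat_lit 35) (nat_lit 0) (nat_lit 512)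

theorem ks13 : AP.runP optN (sH Cz.tt) ksu13 = true := by decide +kernel


end Pool.Agent.Lib.MP_5854e1_co.Cz

namespace Pool.Agent.Lib.MP_5854e1_co.Cz

open Pool.Agent.Lib.MP_5854e1_co PB

noncomputable def ksu14 : Pr := .mk (nat_lit 35) (nat_lit 41) (nat_lit 0) (nat_lit 512)

theorem ks14 : AP.runP optN (sH Cz.tt) ksu14 = true := by decide +kernel

noncomputable def ksu15 : Pr := .mk (nat_lit 41) (nat_lit 42) (nat_lit 0) (nat_lit 27)

theorem ks15 : AP.runP optN (sH Cz.tt) ksu15 = true := by decide +kernel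

noncomputable def ksu16 : Pr := .mk (nat_lit 41) (nat_lit 42) (nat_lit 27) (nat_lit 512)

theorem ks16 : AP.runP optN (sH Cz.tt) ksu16 = true := by decide +kernel

noncomputable def ksu17 : Pr := .mk (nat_lit 42) (nat_lit 47) (nat_lit 0) (nat_lit 512)

theorem ks17 : AP.runP optN (sH Cz.tt) ksu17 = true := by decide +kernel

noncomputable def ksu18 : Pr := .mk (nat_lit 47) (nat_lit 49) (nat_lit 0) (nat_lit 512)

theorem ks18 : AP.runP optN (sH Cz.tt) ksu18 = true := by decide +kernel

noncomputable def ksu19 : Pr := .mk (nat_lit 49) (nat_lit 52) (nat_lit 0) (nat_lit 512)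

theorem ks19 : AP.runP optN (sH Cz.tt) ksu19 = true := by decide +kernel


end Pool.Agent.Lib.MP_5854e1_co.Cz

namespace Pool.Agent.Lib.MP_5854e1_co.Cz

open Pool.Agent.Lib.MP_5854e1_co PB

noncomputable def ksu20 : Pr := .mk (nat_lit 52) (nat_lit 53) (nat_lit 0) (nat_lit 27)

theorem ks20 : AP.runP optN (sH Cz.tt) ksu20 = true := by decide +kernel

noncomputable def ksu21 : Pr := .mk (nat_lit 52) (nat_lit 53) (nat_lit 27) (nat_lit 512)

theorem ks21 : AP.runP optN (sH Cz.tt) ksu21 = true := by decide +kernel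

noncomputable def ksu22 : Pr := .mk (nat_lit 53) (nat_lit 58) (nat_lit 0) (nat_lit 512)

theorem ks22 : AP.runP optN (sH Cz.tt) ksu22 = true := by decide +kernel

noncomputable def ksu23 : Pr := .mk (nat_lit 58) (nat_lit 60) (nat_lit 0) (nat_lit 512)

theorem ks23 : AP.runP optN (sH Cz.tt) ksu23 = true := by decide +kernel

noncomputable def ksu24 : Pr := .mk (nat_lit 60) (nat_lit 65) (nat_lit 0) (nat_lit 512)

theorem ks24 : AP.runP optN (sH Cz.tt) ksu24 = true := by decide +kernel


end Pool.Agent.Lib.MP_5854e1_co.Cz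

namespace Pool.Agent.Lib.MP_5854e1_co.Cz

open Pool.Agent.Lib.MP_5854e1_co PB

noncomputable def ksu25 : Pr := .mk (nat_lit 65) (nat_lit 75) (nat_lit 0) (nat_lit 512)

theorem ks25 : AP.runP optN (sH Cz.tt) ksu25 = true := by decide +kernel

noncomputable def ksu26 : Pr := .mk (nat_lit 75) (nat_lit 95) (nat_lit 0) (nat_lit 512)

theorem ks26 : AP.runP optN (sH Cz.tt) ksu26 = true := by decide +kernel

noncomputable def ksu27 : Pr := .mk (nat_lit 95) (nat_lit 101) (nat_lit 0) (nat_lit 512)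

theorem ks27 : AP.runP optN (sH Cz.tt) ksu27 = true := by decide +kernel


end Pool.Agent.Lib.MP_5854e1_co.Cz
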