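import Pool.Agent.Lib.MP_5854e1_co.Cz.P
import Pool.Agent.Lib.MP_5854e1_co.Cz.Zm
import Pool.Agent.Lib.MP_5854e1_co.QuadTok2

/-!
# The corrections over the quadrilaterals
-/

set_option autoImplicit false
set_option maxRecDepth 100000
set_option deprecated.oldSectionVars true

namespace Pool.Agent.Lib.MP_5854e1_co.Cz

open Pool.Agent.Lib.MP_5854e1_co PB

noncomputable def ktu0 : Pr := .mk (nat_lit 0) (nat_lit 1) (nat_lit 0) (nat_lit 21)

theorem kt0 : AP.runP optN (vO PT.q mmT (nat_lit 14) (nat_lit 16384) (nat_lit 19664) Cz.tq) ktu0 = true := by decide +kernel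

noncomputable def ktu1 : Pr := .mk (nat_lit 0) (nat_lit 1) (nat_lit 21) (nat_lit 28)

theorem kt1 : AP.runP optN (vO PT.q mmT (nat_lit 14) (nat_lit 16384) (nat_lit 19664) Cz.tq) ktu1 = true := by decide +kernel

noncomputable def ktu2 : Pr := .mk (nat_lit 0) (nat_lit 1) (nat_lit 28) (nat_lit 36)

theorem kt2 : AP.runP optN (vO PT.q mmT (nat_lit 14) (nat_lit 16384) (nat_lit 19664) Cz.tq) ktu2 = true := by decide +kernel

noncomputable def ktu3 : Pr := .mk (nat_lit 0) (nat_lit 1) (nat_lit 36) (nat_lit 73)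

theorem kt3 : AP.runP optN (vO PT.q mmT (nat_lit 14) (nat_lit 16384) (nat_lit 19664) Cz.tq) ktu3 = true := by decide +kernel


end Pool.Agent.Lib.MP_5854e1_co.Cz

namespace Pool.Agent.Lib.MP_5854e1_co.Cz

open Pool.Agent.Lib.MP_5854e1_co PB

noncomputable def ktu47 : Pr := .mk (nat_lit 49) (nat_lit 52) (nat_lit 0) (nat_lit 512)

theorem kt47 : AP.runP optN (vO PT.q mmT (nat_lit 14) (nat_lit 16384) (nat_lit 19664) Cz.tq) ktu47 = true := by decide +kernel

noncomputable def ktu48 : Pr := .mk (nat_lit 52) (nat_lit 53) (nat_lit 0) (nat_lit 19)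

theorem kt48 : AP.runP optN (vO PT.q mmT (nat_lit 14) (nat_lit 16384) (nat_lit 19664) Cz.tq) ktu48 = true := by decide +kernel

noncomputable def ktu49 : Pr := .mk (nat_lit 52) (nat_lit 53) (nat_lit 19) (nat_lit 512)

theorem kt49 : AP.runP optN (vO PT.q mmT (nat_lit 14) (nat_lit 16384) (nat_lit 19664) Cz.tq) ktu49 = true := by decide +kernel

noncomputable def ktu50 : Pr := .mk (nat_lit 53) (nat_lit 54) (nat_lit 0) (nat_lit 512)

theorem kt50 : AP.runP optN (vO PT.q mmT (nat_lit 14) (nat_lit 16384) (nat_lit 19664) Cz.tq) ktu50 = true := by decide +kernel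


end Pool.Agent.Lib.MP_5854e1_co.Cz
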