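import Pool.Agent.Lib.MP_5854e1_co.Cz.P
import Pool.Agent.Lib.MP_5854e1_co.Cz.Zm
import Pool.Agent.Lib.MP_5854e1_co.QuadTok2

/-!
# The corrections over the quadrilaterals
-/

set_option autoImplicit false
set_option maxRecDepth 100000
set_option deprecated.oldSectionVars true

namespace Pool.Agent.Lib.MP_5854e1_co.Cz

open Pool.Agent.Lib.MP_5854e1_co PB

noncomputable def ktu4 : Pr := .mk (nat_lit 0) (nat_lit 1) (nat_lit 73) (nat_lit 110)

theorem kt4 : AP.runP optN (vO PT.q mmT (nat_lit 14) (nat_lit 16384) (nat_lit 19664) Cz.tq) ktu4 = true := by decide +kernel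

noncomputable def ktu5 : Pr := .mk (nat_lit 0) (nat_lit 1) (nat_lit 110) (nat_lit 157)

theorem kt5 : AP.runP optN (vO PT.q mmT (nat_lit 14) (nat_lit 16384) (nat_lit 19664) Cz.tq) ktu5 = true := by decide +kernel

noncomputable def ktu6 : Pr := .mk (nat_lit 0) (nat_lit 1) (nat_lit 157) (nat_lit 192)

theorem kt6 : AP.runP optN (vO PT.q mmT (nat_lit 14) (nat_lit 16384) (nat_lit 19664) Cz.tq) ktu6 = true := by decide +kernel


end Pool.Agent.Lib.MP_5854e1_co.Cz

namespace Pool.Agent.Lib.MP_5854e1_co.Cz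

open Pool.Agent.Lib.MP_5854e1_co PB

noncomputable def ktu16 : Pr := .mk (nat_lit 1) (nat_lit 3) (nat_lit 0) (nat_lit 512)

theorem kt16 : AP.runP optN (vO PT.q mmT (nat_lit 14) (nat_lit 16384) (nat_lit 19664) Cz.tq) ktu16 = true := by decide +kernel

noncomputable def ktu17 : Pr := .mk (nat_lit 3) (nat_lit 7) (nat_lit 0) (nat_lit 512)

theorem kt17 : AP.runP optN (vO PT.q mmT (nat_lit 14) (nat_lit 16384) (nat_lit 19664) Cz.tq) ktu17 = true := by decide +kernel

noncomputable def ktu18 : Pr := .mk (nat_lit 7) (nat_lit 8) (nat_lit 0) (nat_lit 176)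

theorem kt18 : AP.runP optN (vO PT.q mmT (nat_lit 14) (nat_lit 16384) (nat_lit 19664) Cz.tq) ktu18 = true := by decide +kernel

noncomputable def ktu19 : Pr := .mk (nat_lit 7) (nat_lit 8) (nat_lit 176) (nat_lit 512)

theorem kt19 : AP.runP optN (vO PT.q mmT (nat_lit 14) (nat_lit 16384) (nat_lit 19664) Cz.tq) ktu19 = true := by decide +kernel


end Pool.Agent.Lib.MP_5854e1_co.Cz
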