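import Pool.Agent.Lib.MP_5854e1_co.Cz.P
import Pool.Agent.Lib.MP_5854e1_co.Cz.Zm
import Pool.Agent.Lib.MP_5854e1_co.QuadTok2

/-!
# The corrections over the quadrilaterals
-/

set_option autoImplicit false
set_option maxRecDepth 100000
set_option deprecated.oldSectionVars true

namespace Pool.Agent.Lib.MP_5854e1_co.Cz

open Pool.Agent.Lib.MP_5854e1_co PB

noncomputable def ktu51 : Pr := .mk (nat_lit 54) (nat_lit 55) (nat_lit 0) (nat_lit 512)

theorem kt51 : AP.runP optN (vO PT.q mmT (nat_lit 14) (nat_lit 16384) (nat_lit 19664) Cz.tq) ktu51 = true := by decide +kernel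

noncomputable def ktu52 : Pr := .mk (nat_lit 55) (nat_lit 57) (nat_lit 0) (nat_lit 512)

theorem kt52 : AP.runP optN (vO PT.q mmT (nat_lit 14) (nat_lit 16384) (nat_lit 19664) Cz.tq) ktu52 = true := by decide +kernel

noncomputable def ktu53 : Pr := .mk (nat_lit 57) (nat_lit 58) (nat_lit 0) (nat_lit 512)

theorem kt53 : AP.runP optN (vO PT.q mmT (nat_lit 14) (nat_lit 16384) (nat_lit 19664) Cz.tq) ktu53 = true := by decide +kernel

noncomputable def ktu54 : Pr := .mk (nat_lit 58) (nat_lit 59) (nat_lit 0) (nat_lit 512)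

theorem kt54 : AP.runP optN (vO PT.q mmT (nat_lit 14) (nat_lit 16384) (nat_lit 19664) Cz.tq) ktu54 = true := by decide +kernel

noncomputable def ktu55 : Pr := .mk (nat_lit 59) (nat_lit 60) (nat_lit 0) (nat_lit 512)

theorem kt55 : AP.runP optN (vO PT.q mmT (nat_lit 14) (nat_lit 16384) (nat_lit 19664) Cz.tq) ktu55 = true := by decide +kernel


end Pool.Agent.Lib.MP_5854e1_co.Cz
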