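import Pool.Agent.Lib.MP_5854e1_co.Cz.P
import Pool.Agent.Lib.MP_5854e1_co.Cz.Zm
import Pool.Agent.Lib.MP_5854e1_co.QuadTok2

/-!
# The corrections over the quadrilaterals
-/

set_option autoImplicit false
set_option maxRecDepth 100000
set_option deprecated.oldSectionVars true

namespace Pool.Agent.Lib.MP_5854e1_co.Cz

open Pool.Agent.Lib.MP_5854e1_co PB

noncomputable def ktu7 : Pr := .mk (nat_lit 0) (nat_lit 1) (nat_lit 192) (nat_lit 248)

theorem kt7 : AP.runP optN (vO PT.q mmT (nat_lit 14) (nat_lit 16384) (nat_lit 19664) Cz.tq) ktu7 = true := by decide +kernel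

noncomputable def ktu8 : Pr := .mk (nat_lit 0) (nat_lit 1) (nat_lit 248) (nat_lit 312)

theorem kt8 : AP.runP optN (vO PT.q mmT (nat_lit 14) (nat_lit 16384) (nat_lit 19664) Cz.tq) ktu8 = true := by decide +kernel

noncomputable def ktu9 : Pr := .mk (nat_lit 0) (nat_lit 1) (nat_lit 312) (nat_lit 337)

theorem kt9 : AP.runP optN (vO PT.q mmT (nat_lit 14) (nat_lit 16384) (nat_lit 19664) Cz.tq) ktu9 = true := by decide +kernel

noncomputable def ktu10 : Pr := .mk (nat_lit 0) (nat_lit 1) (nat_lit 337) (nat_lit 357)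

theorem kt10 : AP.runP optN (vO PT.q mmT (nat_lit 14) (nat_lit 16384) (nat_lit 19664) Cz.tq) ktu10 = true := by decide +kernel


end Pool.Agent.Lib.MP_5854e1_co.Cz

namespace Pool.Agent.Lib.MP_5854e1_co.Cz

open Pool.Agent.Lib.MP_5854e1_co PB

noncomputable def ktu56 : Pr := .mk (nat_lit 60) (nat_lit 63) (nat_lit 0) (nat_lit 512)

theorem kt56 : AP.runP optN (vO PT.q mmT (nat_lit 14) (nat_lit 16384) (nat_lit 19664) Cz.tq) ktu56 = true := by decide +kernel

noncomputable def ktu57 : Pr := .mk (nat_lit 63) (nat_lit 65) (nat_lit 0) (nat_lit 512)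

theorem kt57 : AP.runP optN (vO PT.q mmT (nat_lit 14) (nat_lit 16384) (nat_lit 19664) Cz.tq) ktu57 = true := by decide +kernel

noncomputable def ktu58 : Pr := .mk (nat_lit 65) (nat_lit 70) (nat_lit 0) (nat_lit 512)

theorem kt58 : AP.runP optN (vO PT.q mmT (nat_lit 14) (nat_lit 16384) (nat_lit 19664) Cz.tq) ktu58 = true := by decide +kernel

noncomputable def ktu59 : Pr := .mk (nat_lit 70) (nat_lit 84) (nat_lit 0) (nat_lit 512)

theorem kt59 : AP.runP optN (vO PT.q mmT (nat_lit 14) (nat_lit 16384) (nat_lit 19664) Cz.tq) ktu59 = true := by decide +kernel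


end Pool.Agent.Lib.MP_5854e1_co.Cz

namespace Pool.Agent.Lib.MP_5854e1_co.Cz

open Pool.Agent.Lib.MP_5854e1_co PB

noncomputable def ktu60 : Pr := .mk (nat_lit 84) (nat_lit 88) (nat_lit 0) (nat_lit 512)

theorem kt60 : AP.runP optN (vO PT.q mmT (nat_lit 14) (nat_lit 16384) (nat_lit 19664) Cz.tq) ktu60 = true := by decide +kernel

noncomputable def ktu61 : Pr := .mk (nat_lit 88) (nat_lit 94) (nat_lit 0) (nat_lit 512)

theorem kt61 : AP.runP optN (vO PT.q mmT (nat_lit 14) (nat_lit 16384) (nat_lit 19664) Cz.tq) ktu61 = true := by decide +kernel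

noncomputable def ktu62 : Pr := .mk (nat_lit 94) (nat_lit 97) (nat_lit 0) (nat_lit 512)

theorem kt62 : AP.runP optN (vO PT.q mmT (nat_lit 14) (nat_lit 16384) (nat_lit 19664) Cz.tq) ktu62 = true := by decide +kernel

noncomputable def ktu63 : Pr := .mk (nat_lit 97) (nat_lit 101) (nat_lit 0) (nat_lit 512)

theorem kt63 : AP.runP optN (vO PT.q mmT (nat_lit 14) (nat_lit 16384) (nat_lit 19664) Cz.tq) ktu63 = true := by decide +kernel


end Pool.Agent.Lib.MP_5854e1_co.Cz
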