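import Pool.Agent.Lib.MP_5854e1_co.Cz.P
import Pool.Agent.Lib.MP_5854e1_co.Cz.Zm
import Pool.Agent.Lib.MP_5854e1_co.QuadTok2

/-!
# The corrections over the quadrilaterals
-/

set_option autoImplicit false
set_option maxRecDepth 100000
set_option deprecated.oldSectionVars true

namespace Pool.Agent.Lib.MP_5854e1_co.Cz

open Pool.Agent.Lib.MP_5854e1_co PB

noncomputable def ktu11 : Pr := .mk (nat_lit 0) (nat_lit 1) (nat_lit 357) (nat_lit 361)

theorem kt11 : AP.runP optN (vO PT.q mmT (nat_lit 14) (nat_lit 16384) (nat_lit 19664) Cz.tq) ktu11 = true := by decide +kernel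

noncomputable def ktu12 : Pr := .mk (nat_lit 0) (nat_lit 1) (nat_lit 361) (nat_lit 388)

theorem kt12 : AP.runP optN (vO PT.q mmT (nat_lit 14) (nat_lit 16384) (nat_lit 19664) Cz.tq) ktu12 = true := by decide +kernel

noncomputable def ktu13 : Pr := .mk (nat_lit 0) (nat_lit 1) (nat_lit 388) (nat_lit 402)

theorem kt13 : AP.runP optN (vO PT.q mmT (nat_lit 14) (nat_lit 16384) (nat_lit 19664) Cz.tq) ktu13 = true := by decide +kernel

noncomputable def ktu14 : Pr := .mk (nat_lit 0) (nat_lit 1) (nat_lit 402) (nat_lit 406)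

theorem kt14 : AP.runP optN (vO PT.q mmT (nat_lit 14) (nat_lit 16384) (nat_lit 19664) Cz.tq) ktu14 = true := by decide +kernel

noncomputable def ktu15 : Pr := .mk (nat_lit 0) (nat_lit 1) (nat_lit 406) (nat_lit 512)

theorem kt15 : AP.runP optN (vO PT.q mmT (nat_lit 14) (nat_lit 16384) (nat_lit 19664) Cz.tq) ktu15 = true := by decide +kernel


end Pool.Agent.Lib.MP_5854e1_co.Cz

namespace Pool.Agent.Lib.MP_5854e1_co.Cz

open Pool.Agent.Lib.MP_5854e1_co PB

noncomputable def ktu42 : Pr := .mk (nat_lit 43) (nat_lit 44) (nat_lit 0) (nat_lit 512)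

theorem kt42 : AP.runP optN (vO PT.q mmT (nat_lit 14) (nat_lit 16384) (nat_lit 19664) Cz.tq) ktu42 = true := by decide +kernel

noncomputable def ktu43 : Pr := .mk (nat_lit 44) (nat_lit 46) (nat_lit 0) (nat_lit 512)

theorem kt43 : AP.runP optN (vO PT.q mmT (nat_lit 14) (nat_lit 16384) (nat_lit 19664) Cz.tq) ktu43 = true := by decide +kernel

noncomputable def ktu44 : Pr := .mk (nat_lit 46) (nat_lit 47) (nat_lit 0) (nat_lit 512)

theorem kt44 : AP.runP optN (vO PT.q mmT (nat_lit 14) (nat_lit 16384) (nat_lit 19664) Cz.tq) ktu44 = true := by decide +kernel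

noncomputable def ktu45 : Pr := .mk (nat_lit 47) (nat_lit 48) (nat_lit 0) (nat_lit 512)

theorem kt45 : AP.runP optN (vO PT.q mmT (nat_lit 14) (nat_lit 16384) (nat_lit 19664) Cz.tq) ktu45 = true := by decide +kernel

noncomputable def ktu46 : Pr := .mk (nat_lit 48) (nat_lit 49) (nat_lit 0) (nat_lit 512)

theorem kt46 : AP.runP optN (vO PT.q mmT (nat_lit 14) (nat_lit 16384) (nat_lit 19664) Cz.tq) ktu46 = true := by decide +kernel


end Pool.Agent.Lib.MP_5854e1_co.Cz
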