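import Pool.Agent.Lib.MP_5854e1_co.Cz.P
import Pool.Agent.Lib.MP_5854e1_co.Cz.Zm
import Pool.Agent.Lib.MP_5854e1_co.QuadTok2

/-!
# The corrections over the quadrilaterals
-/

set_option autoImplicit false
set_option maxRecDepth 100000
set_option deprecated.oldSectionVars true

namespace Pool.Agent.Lib.MP_5854e1_co.Cz

open Pool.Agent.Lib.MP_5854e1_co PB

noncomputable def ktu20 : Pr := .mk (nat_lit 8) (nat_lit 9) (nat_lit 0) (nat_lit 512)

theorem kt20 : AP.runP optN (vO PT.q mmT (nat_lit 14) (nat_lit 16384) (nat_lit 19664) Cz.tq) ktu20 = true := by decide +kernel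

noncomputable def ktu21 : Pr := .mk (nat_lit 9) (nat_lit 10) (nat_lit 0) (nat_lit 512)

theorem kt21 : AP.runP optN (vO PT.q mmT (nat_lit 14) (nat_lit 16384) (nat_lit 19664) Cz.tq) ktu21 = true := by decide +kernel

noncomputable def ktu22 : Pr := .mk (nat_lit 10) (nat_lit 11) (nat_lit 0) (nat_lit 512)

theorem kt22 : AP.runP optN (vO PT.q mmT (nat_lit 14) (nat_lit 16384) (nat_lit 19664) Cz.tq) ktu22 = true := by decide +kernel

noncomputable def ktu23 : Pr := .mk (nat_lit 11) (nat_lit 12) (nat_lit 0) (nat_lit 512)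

theorem kt23 : AP.runP optN (vO PT.q mmT (nat_lit 14) (nat_lit 16384) (nat_lit 19664) Cz.tq) ktu23 = true := by decide +kernel

noncomputable def ktu24 : Pr := .mk (nat_lit 12) (nat_lit 14) (nat_lit 0) (nat_lit 512)

theorem kt24 : AP.runP optN (vO PT.q mmT (nat_lit 14) (nat_lit 16384) (nat_lit 19664) Cz.tq) ktu24 = true := by decide +kernel


end Pool.Agent.Lib.MP_5854e1_co.Cz

namespace Pool.Agent.Lib.MP_5854e1_co.Cz

open Pool.Agent.Lib.MP_5854e1_co PB

noncomputable def ktu38 : Pr := .mk (nat_lit 37) (nat_lit 41) (nat_lit 0) (nat_lit 512)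

theorem kt38 : AP.runP optN (vO PT.q mmT (nat_lit 14) (nat_lit 16384) (nat_lit 19664) Cz.tq) ktu38 = true := by decide +kernel

noncomputable def ktu39 : Pr := .mk (nat_lit 41) (nat_lit 42) (nat_lit 0) (nat_lit 19)

theorem kt39 : AP.runP optN (vO PT.q mmT (nat_lit 14) (nat_lit 16384) (nat_lit 19664) Cz.tq) ktu39 = true := by decide +kernel

noncomputable def ktu40 : Pr := .mk (nat_lit 41) (nat_lit 42) (nat_lit 19) (nat_lit 512)

theorem kt40 : AP.runP optN (vO PT.q mmT (nat_lit 14) (nat_lit 16384) (nat_lit 19664) Cz.tq) ktu40 = true := by decide +kernel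

noncomputable def ktu41 : Pr := .mk (nat_lit 42) (nat_lit 43) (nat_lit 0) (nat_lit 512)

theorem kt41 : AP.runP optN (vO PT.q mmT (nat_lit 14) (nat_lit 16384) (nat_lit 19664) Cz.tq) ktu41 = true := by decide +kernel


end Pool.Agent.Lib.MP_5854e1_co.Cz
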