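import Pool.Agent.Lib.MP_5854e1_co.Cz.P
import Pool.Agent.Lib.MP_5854e1_co.Cz.Zm
import Pool.Agent.Lib.MP_5854e1_co.QuadTok2

/-!
# The corrections over the quadrilaterals
-/

set_option autoImplicit false
set_option maxRecDepth 100000
set_option deprecated.oldSectionVars true

namespace Pool.Agent.Lib.MP_5854e1_co.Cz

open Pool.Agent.Lib.MP_5854e1_co PB

noncomputable def ktu25 : Pr := .mk (nat_lit 14) (nat_lit 15) (nat_lit 0) (nat_lit 512)

theorem kt25 : AP.runP optN (vO PT.q mmT (nat_lit 14) (nat_lit 16384) (nat_lit 19664) Cz.tq) ktu25 = true := by decide +kernel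

noncomputable def ktu26 : Pr := .mk (nat_lit 15) (nat_lit 18) (nat_lit 0) (nat_lit 512)

theorem kt26 : AP.runP optN (vO PT.q mmT (nat_lit 14) (nat_lit 16384) (nat_lit 19664) Cz.tq) ktu26 = true := by decide +kernel

noncomputable def ktu27 : Pr := .mk (nat_lit 18) (nat_lit 20) (nat_lit 0) (nat_lit 512)

theorem kt27 : AP.runP optN (vO PT.q mmT (nat_lit 14) (nat_lit 16384) (nat_lit 19664) Cz.tq) ktu27 = true := by decide +kernel

noncomputable def ktu28 : Pr := .mk (nat_lit 20) (nat_lit 21) (nat_lit 0) (nat_lit 176)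

theorem kt28 : AP.runP optN (vO PT.q mmT (nat_lit 14) (nat_lit 16384) (nat_lit 19664) Cz.tq) ktu28 = true := by decide +kernel


end Pool.Agent.Lib.MP_5854e1_co.Cz

namespace Pool.Agent.Lib.MP_5854e1_co.Cz

open Pool.Agent.Lib.MP_5854e1_co PB

noncomputable def ktu29 : Pr := .mk (nat_lit 20) (nat_lit 21) (nat_lit 176) (nat_lit 512)

theorem kt29 : AP.runP optN (vO PT.q mmT (nat_lit 14) (nat_lit 16384) (nat_lit 19664) Cz.tq) ktu29 = true := by decide +kernel

noncomputable def ktu30 : Pr := .mk (nat_lit 21) (nat_lit 22) (nat_lit 0) (nat_lit 512)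

theorem kt30 : AP.runP optN (vO PT.q mmT (nat_lit 14) (nat_lit 16384) (nat_lit 19664) Cz.tq) ktu30 = true := by decide +kernel

noncomputable def ktu31 : Pr := .mk (nat_lit 22) (nat_lit 23) (nat_lit 0) (nat_lit 512)

theorem kt31 : AP.runP optN (vO PT.q mmT (nat_lit 14) (nat_lit 16384) (nat_lit 19664) Cz.tq) ktu31 = true := by decide +kernel

noncomputable def ktu32 : Pr := .mk (nat_lit 23) (nat_lit 24) (nat_lit 0) (nat_lit 512)

theorem kt32 : AP.runP optN (vO PT.q mmT (nat_lit 14) (nat_lit 16384) (nat_lit 19664) Cz.tq) ktu32 = true := by decide +kernel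

noncomputable def ktu33 : Pr := .mk (nat_lit 24) (nat_lit 25) (nat_lit 0) (nat_lit 512)

theorem kt33 : AP.runP optN (vO PT.q mmT (nat_lit 14) (nat_lit 16384) (nat_lit 19664) Cz.tq) ktu33 = true := by decide +kernel


end Pool.Agent.Lib.MP_5854e1_co.Cz
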