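import Pool.Agent.Lib.MP_5854e1_co.Cz.P
import Pool.Agent.Lib.MP_5854e1_co.Cz.Zm
import Pool.Agent.Lib.MP_5854e1_co.QuadTok2

/-!
# The corrections over the quadrilaterals
-/

set_option autoImplicit false
set_option maxRecDepth 100000
set_option deprecated.oldSectionVars true

namespace Pool.Agent.Lib.MP_5854e1_co.Cz

open Pool.Agent.Lib.MP_5854e1_co PB

noncomputable def ktu34 : Pr := .mk (nat_lit 25) (nat_lit 27) (nat_lit 0) (nat_lit 512)

theorem kt34 : AP.runP optN (vO PT.q mmT (nat_lit 14) (nat_lit 16384) (nat_lit 19664) Cz.tq) ktu34 = true := by decide +kernel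

noncomputable def ktu35 : Pr := .mk (nat_lit 27) (nat_lit 28) (nat_lit 0) (nat_lit 512)

theorem kt35 : AP.runP optN (vO PT.q mmT (nat_lit 14) (nat_lit 16384) (nat_lit 19664) Cz.tq) ktu35 = true := by decide +kernel

noncomputable def ktu36 : Pr := .mk (nat_lit 28) (nat_lit 31) (nat_lit 0) (nat_lit 512)

theorem kt36 : AP.runP optN (vO PT.q mmT (nat_lit 14) (nat_lit 16384) (nat_lit 19664) Cz.tq) ktu36 = true := by decide +kernel

noncomputable def ktu37 : Pr := .mk (nat_lit 31) (nat_lit 37) (nat_lit 0) (nat_lit 512)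

theorem kt37 : AP.runP optN (vO PT.q mmT (nat_lit 14) (nat_lit 16384) (nat_lit 19664) Cz.tq) ktu37 = true := by decide +kernel


end Pool.Agent.Lib.MP_5854e1_co.Cz
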