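import Pool.Agent.Lib.MP_5854e1_co.Cz.P

/-!
# The reflection of the fans
-/

set_option autoImplicit false
set_option maxRecDepth 100000
set_option deprecated.oldSectionVars true

namespace Pool.Agent.Lib.MP_5854e1_co.Cz

open Pool.Agent.Lib.MP_5854e1_co PB

noncomputable def kvu0 : Pr := .mk (nat_lit 0) (nat_lit 1) (nat_lit 0) (nat_lit 103)

theorem kv0 : AP.runP optN (sH Cz.tw) kvu0 = true := by decide +kernel

noncomputable def kvu1 : Pr := .mk (nat_lit 0) (nat_lit 1) (nat_lit 103) (nat_lit 164)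

theorem kv1 : AP.runP optN (sH Cz.tw) kvu1 = true := by decide +kernel

noncomputable def kvu2 : Pr := .mk (nat_lit 0) (nat_lit 1) (nat_lit 164) (nat_lit 227)

theorem kv2 : AP.runP optN (sH Cz.tw) kvu2 = true := by decide +kernel

noncomputable def kvu3 : Pr := .mk (nat_lit 0) (nat_lit 1) (nat_lit 227) (nat_lit 378)

theorem kv3 : AP.runP optN (sH Cz.tw) kvu3 = true := by decide +kernel


end Pool.Agent.Lib.MP_5854e1_co.Cz

namespace Pool.Agent.Lib.MP_5854e1_co.Cz

open Pool.Agent.Lib.MP_5854e1_co PB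

noncomputable def kvu4 : Pr := .mk (nat_lit 0) (nat_lit 1) (nat_lit 378) (nat_lit 512)

theorem kv4 : AP.runP optN (sH Cz.tw) kvu4 = true := by decide +kernel

noncomputable def kvu5 : Pr := .mk (nat_lit 1) (nat_lit 7) (nat_lit 0) (nat_lit 512)

theorem kv5 : AP.runP optN (sH Cz.tw) kvu5 = true := by decide +kernel

noncomputable def kvu6 : Pr := .mk (nat_lit 7) (nat_lit 8) (nat_lit 0) (nat_lit 512)

theorem kv6 : AP.runP optN (sH Cz.tw) kvu6 = true := by decide +kernel

noncomputable def kvu7 : Pr := .mk (nat_lit 8) (nat_lit 12) (nat_lit 0) (nat_lit 512)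

theorem kv7 : AP.runP optN (sH Cz.tw) kvu7 = true := by decide +kernel

noncomputable def kvu8 : Pr := .mk (nat_lit 12) (nat_lit 20) (nat_lit 0) (nat_lit 512)

theorem kv8 : AP.runP optN (sH Cz.tw) kvu8 = true := by decide +kernel


end Pool.Agent.Lib.MP_5854e1_co.Cz

namespace Pool.Agent.Lib.MP_5854e1_co.Cz

open Pool.Agent.Lib.MP_5854e1_co PB

noncomputable def kvu9 : Pr := .mk (nat_lit 20) (nat_lit 21) (nat_lit 0) (nat_lit 512)

theorem kv9 : AP.runP optN (sH Cz.tw) kvu9 = true := by decide +kernel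

noncomputable def kvu10 : Pr := .mk (nat_lit 21) (nat_lit 25) (nat_lit 0) (nat_lit 512)

theorem kv10 : AP.runP optN (sH Cz.tw) kvu10 = true := by decide +kernel

noncomputable def kvu11 : Pr := .mk (nat_lit 25) (nat_lit 35) (nat_lit 0) (nat_lit 512)

theorem kv11 : AP.runP optN (sH Cz.tw) kvu11 = true := by decide +kernel

noncomputable def kvu12 : Pr := .mk (nat_lit 35) (nat_lit 41) (nat_lit 0) (nat_lit 512)

theorem kv12 : AP.runP optN (sH Cz.tw) kvu12 = true := by decide +kernel


end Pool.Agent.Lib.MP_5854e1_co.Cz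

namespace Pool.Agent.Lib.MP_5854e1_co.Cz

open Pool.Agent.Lib.MP_5854e1_co PB

noncomputable def kvu13 : Pr := .mk (nat_lit 41) (nat_lit 42) (nat_lit 0) (nat_lit 33)

theorem kv13 : AP.runP optN (sH Cz.tw) kvu13 = true := by decide +kernel

noncomputable def kvu14 : Pr := .mk (nat_lit 41) (nat_lit 42) (nat_lit 33) (nat_lit 512)

theorem kv14 : AP.runP optN (sH Cz.tw) kvu14 = true := by decide +kernel

noncomputable def kvu15 : Pr := .mk (nat_lit 42) (nat_lit 47) (nat_lit 0) (nat_lit 512)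

theorem kv15 : AP.runP optN (sH Cz.tw) kvu15 = true := by decide +kernel

noncomputable def kvu16 : Pr := .mk (nat_lit 47) (nat_lit 50) (nat_lit 0) (nat_lit 512)

theorem kv16 : AP.runP optN (sH Cz.tw) kvu16 = true := by decide +kernel

noncomputable def kvu17 : Pr := .mk (nat_lit 50) (nat_lit 52) (nat_lit 0) (nat_lit 512)

theorem kv17 : AP.runP optN (sH Cz.tw) kvu17 = true := by decide +kernel

noncomputable def kvu18 : Pr := .mk (nat_lit 52) (nat_lit 53) (nat_lit 0) (nat_lit 33)

theorem kv18 : AP.runP optN (sH Cz.tw) kvu18 = true := by decide +kernel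


end Pool.Agent.Lib.MP_5854e1_co.Cz

namespace Pool.Agent.Lib.MP_5854e1_co.Cz

open Pool.Agent.Lib.MP_5854e1_co PB

noncomputable def kvu19 : Pr := .mk (nat_lit 52) (nat_lit 53) (nat_lit 33) (nat_lit 512)

theorem kv19 : AP.runP optN (sH Cz.tw) kvu19 = true := by decide +kernel

noncomputable def kvu20 : Pr := .mk (nat_lit 53) (nat_lit 58) (nat_lit 0) (nat_lit 512)

theorem kv20 : AP.runP optN (sH Cz.tw) kvu20 = true := by decide +kernel

noncomputable def kvu21 : Pr := .mk (nat_lit 58) (nat_lit 61) (nat_lit 0) (nat_lit 512)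

theorem kv21 : AP.runP optN (sH Cz.tw) kvu21 = true := by decide +kernel

noncomputable def kvu22 : Pr := .mk (nat_lit 61) (nat_lit 68) (nat_lit 0) (nat_lit 512)

theorem kv22 : AP.runP optN (sH Cz.tw) kvu22 = true := by decide +kernel

noncomputable def kvu23 : Pr := .mk (nat_lit 68) (nat_lit 85) (nat_lit 0) (nat_lit 512)

theorem kv23 : AP.runP optN (sH Cz.tw) kvu23 = true := by decide +kernel


end Pool.Agent.Lib.MP_5854e1_co.Cz

namespace Pool.Agent.Lib.MP_5854e1_co.Cz

open Pool.Agent.Lib.MP_5854e1_co PB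

noncomputable def kvu24 : Pr := .mk (nat_lit 85) (nat_lit 101) (nat_lit 0) (nat_lit 512)

theorem kv24 : AP.runP optN (sH Cz.tw) kvu24 = true := by decide +kernel


end Pool.Agent.Lib.MP_5854e1_co.Cz
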