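import Pool.Agent.Lib.MP_5854e1_co.Cz.P

/-!
# The fans of the opposite corners
-/

set_option autoImplicit false
set_option maxRecDepth 100000
set_option deprecated.oldSectionVars true

namespace Pool.Agent.Lib.MP_5854e1_co.Cz

open Pool.Agent.Lib.MP_5854e1_co PB

noncomputable def kwu0 : Pr := .mk (nat_lit 0) (nat_lit 1) (nat_lit 0) (nat_lit 357)

theorem kw0 : AP.runP optN (wH spT PT.ps rtT Cz.tw) kwu0 = true := by decide +kernel

noncomputable def kwu1 : Pr := .mk (nat_lit 0) (nat_lit 1) (nat_lit 357) (nat_lit 512)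

theorem kw1 : AP.runP optN (wH spT PT.ps rtT Cz.tw) kwu1 = true := by decide +kernel

noncomputable def kwu2 : Pr := .mk (nat_lit 1) (nat_lit 11) (nat_lit 0) (nat_lit 512)

theorem kw2 : AP.runP optN (wH spT PT.ps rtT Cz.tw) kwu2 = true := by decide +kernel

noncomputable def kwu3 : Pr := .mk (nat_lit 11) (nat_lit 41) (nat_lit 0) (nat_lit 512)

theorem kw3 : AP.runP optN (wH spT PT.ps rtT Cz.tw) kwu3 = true := by decide +kernel

noncomputable def kwu4 : Pr := .mk (nat_lit 41) (nat_lit 48) (nat_lit 0) (nat_lit 512)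

theorem kw4 : AP.runP optN (wH spT PT.ps rtT Cz.tw) kwu4 = true := by decide +kernel


end Pool.Agent.Lib.MP_5854e1_co.Cz

namespace Pool.Agent.Lib.MP_5854e1_co.Cz

open Pool.Agent.Lib.MP_5854e1_co PB

noncomputable def kwu5 : Pr := .mk (nat_lit 48) (nat_lit 101) (nat_lit 0) (nat_lit 512)

theorem kw5 : AP.runP optN (wH spT PT.ps rtT Cz.tw) kwu5 = true := by decide +kernel


end Pool.Agent.Lib.MP_5854e1_co.Cz
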