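import Pool.Agent.Lib.MP_5854e1_co.Cz.P

/-!
# The listed shares of the triangles
-/

set_option autoImplicit false
set_option maxRecDepth 100000
set_option deprecated.oldSectionVars true

namespace Pool.Agent.Lib.MP_5854e1_co.Cz

open Pool.Agent.Lib.MP_5854e1_co PB

noncomputable def kxu0 : Pr := .mk (nat_lit 0) (nat_lit 1) (nat_lit 0) (nat_lit 3)

theorem kx0 : AP.runP optN (pjO PT.D spT PT.ps Cz.tt rtT Cz.tp) kxu0 = true := by decide +kernel

noncomputable def kxu1 : Pr := .mk (nat_lit 0) (nat_lit 1) (nat_lit 3) (nat_lit 21)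

theorem kx1 : AP.runP optN (pjO PT.D spT PT.ps Cz.tt rtT Cz.tp) kxu1 = true := by decide +kernel

noncomputable def kxu2 : Pr := .mk (nat_lit 0) (nat_lit 1) (nat_lit 21) (nat_lit 22)

theorem kx2 : AP.runP optN (pjO PT.D spT PT.ps Cz.tt rtT Cz.tp) kxu2 = true := by decide +kernel

noncomputable def kxu3 : Pr := .mk (nat_lit 0) (nat_lit 1) (nat_lit 22) (nat_lit 24)

theorem kx3 : AP.runP optN (pjO PT.D spT PT.ps Cz.tt rtT Cz.tp) kxu3 = true := by decide +kernel


end Pool.Agent.Lib.MP_5854e1_co.Cz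

namespace Pool.Agent.Lib.MP_5854e1_co.Cz

open Pool.Agent.Lib.MP_5854e1_co PB

noncomputable def kxu63 : Pr := .mk (nat_lit 0) (nat_lit 1) (nat_lit 360) (nat_lit 365)

theorem kx63 : AP.runP optN (pjO PT.D spT PT.ps Cz.tt rtT Cz.tp) kxu63 = true := by decide +kernel

noncomputable def kxu64 : Pr := .mk (nat_lit 0) (nat_lit 1) (nat_lit 365) (nat_lit 378)

theorem kx64 : AP.runP optN (pjO PT.D spT PT.ps Cz.tt rtT Cz.tp) kxu64 = true := by decide +kernel

noncomputable def kxu65 : Pr := .mk (nat_lit 0) (nat_lit 1) (nat_lit 378) (nat_lit 382)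

theorem kx65 : AP.runP optN (pjO PT.D spT PT.ps Cz.tt rtT Cz.tp) kxu65 = true := by decide +kernel

noncomputable def kxu66 : Pr := .mk (nat_lit 0) (nat_lit 1) (nat_lit 382) (nat_lit 384)

theorem kx66 : AP.runP optN (pjO PT.D spT PT.ps Cz.tt rtT Cz.tp) kxu66 = true := by decide +kernel


end Pool.Agent.Lib.MP_5854e1_co.Cz

namespace Pool.Agent.Lib.MP_5854e1_co.Cz

open Pool.Agent.Lib.MP_5854e1_co PB

noncomputable def kxu116 : Pr := .mk (nat_lit 11) (nat_lit 12) (nat_lit 13) (nat_lit 16)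

theorem kx116 : AP.runP optN (pjO PT.D spT PT.ps Cz.tt rtT Cz.tp) kxu116 = true := by decide +kernel

noncomputable def kxu117 : Pr := .mk (nat_lit 11) (nat_lit 12) (nat_lit 16) (nat_lit 512)

theorem kx117 : AP.runP optN (pjO PT.D spT PT.ps Cz.tt rtT Cz.tp) kxu117 = true := by decide +kernel

noncomputable def kxu118 : Pr := .mk (nat_lit 12) (nat_lit 13) (nat_lit 0) (nat_lit 17)

theorem kx118 : AP.runP optN (pjO PT.D spT PT.ps Cz.tt rtT Cz.tp) kxu118 = true := by decide +kernel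

noncomputable def kxu119 : Pr := .mk (nat_lit 12) (nat_lit 13) (nat_lit 17) (nat_lit 22)

theorem kx119 : AP.runP optN (pjO PT.D spT PT.ps Cz.tt rtT Cz.tp) kxu119 = true := by decide +kernel

noncomputable def kxu120 : Pr := .mk (nat_lit 12) (nat_lit 13) (nat_lit 22) (nat_lit 26)

theorem kx120 : AP.runP optN (pjO PT.D spT PT.ps Cz.tt rtT Cz.tp) kxu120 = true := by decide +kernel


end Pool.Agent.Lib.MP_5854e1_co.Cz
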