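import Pool.Agent.Lib.MP_5854e1_co.Cz.P

/-!
# The listed shares of the triangles
-/

set_option autoImplicit false
set_option maxRecDepth 100000
set_option deprecated.oldSectionVars true

namespace Pool.Agent.Lib.MP_5854e1_co.Cz

open Pool.Agent.Lib.MP_5854e1_co PB

noncomputable def kxu4 : Pr := .mk (nat_lit 0) (nat_lit 1) (nat_lit 24) (nat_lit 32)

theorem kx4 : AP.runP optN (pjO PT.D spT PT.ps Cz.tt rtT Cz.tp) kxu4 = true := by decide +kernel

noncomputable def kxu5 : Pr := .mk (nat_lit 0) (nat_lit 1) (nat_lit 32) (nat_lit 33)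

theorem kx5 : AP.runP optN (pjO PT.D spT PT.ps Cz.tt rtT Cz.tp) kxu5 = true := by decide +kernel

noncomputable def kxu6 : Pr := .mk (nat_lit 0) (nat_lit 1) (nat_lit 33) (nat_lit 35)

theorem kx6 : AP.runP optN (pjO PT.D spT PT.ps Cz.tt rtT Cz.tp) kxu6 = true := by decide +kernel

noncomputable def kxu7 : Pr := .mk (nat_lit 0) (nat_lit 1) (nat_lit 35) (nat_lit 50)

theorem kx7 : AP.runP optN (pjO PT.D spT PT.ps Cz.tt rtT Cz.tp) kxu7 = true := by decide +kernel


end Pool.Agent.Lib.MP_5854e1_co.Cz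

namespace Pool.Agent.Lib.MP_5854e1_co.Cz

open Pool.Agent.Lib.MP_5854e1_co PB

noncomputable def kxu171 : Pr := .mk (nat_lit 27) (nat_lit 28) (nat_lit 0) (nat_lit 23)

theorem kx171 : AP.runP optN (pjO PT.D spT PT.ps Cz.tt rtT Cz.tp) kxu171 = true := by decide +kernel

noncomputable def kxu172 : Pr := .mk (nat_lit 27) (nat_lit 28) (nat_lit 23) (nat_lit 512)

theorem kx172 : AP.runP optN (pjO PT.D spT PT.ps Cz.tt rtT Cz.tp) kxu172 = true := by decide +kernel

noncomputable def kxu173 : Pr := .mk (nat_lit 28) (nat_lit 29) (nat_lit 0) (nat_lit 222)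

theorem kx173 : AP.runP optN (pjO PT.D spT PT.ps Cz.tt rtT Cz.tp) kxu173 = true := by decide +kernel

noncomputable def kxu174 : Pr := .mk (nat_lit 28) (nat_lit 29) (nat_lit 222) (nat_lit 251)

theorem kx174 : AP.runP optN (pjO PT.D spT PT.ps Cz.tt rtT Cz.tp) kxu174 = true := by decide +kernel

noncomputable def kxu175 : Pr := .mk (nat_lit 28) (nat_lit 29) (nat_lit 251) (nat_lit 512)

theorem kx175 : AP.runP optN (pjO PT.D spT PT.ps Cz.tt rtT Cz.tp) kxu175 = true := by decide +kernel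


end Pool.Agent.Lib.MP_5854e1_co.Cz

namespace Pool.Agent.Lib.MP_5854e1_co.Cz

open Pool.Agent.Lib.MP_5854e1_co PB

noncomputable def kxu286 : Pr := .mk (nat_lit 60) (nat_lit 61) (nat_lit 10) (nat_lit 13)

theorem kx286 : AP.runP optN (pjO PT.D spT PT.ps Cz.tt rtT Cz.tp) kxu286 = true := by decide +kernel

noncomputable def kxu287 : Pr := .mk (nat_lit 60) (nat_lit 61) (nat_lit 13) (nat_lit 512)

theorem kx287 : AP.runP optN (pjO PT.D spT PT.ps Cz.tt rtT Cz.tp) kxu287 = true := by decide +kernel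

noncomputable def kxu288 : Pr := .mk (nat_lit 61) (nat_lit 62) (nat_lit 0) (nat_lit 22)

theorem kx288 : AP.runP optN (pjO PT.D spT PT.ps Cz.tt rtT Cz.tp) kxu288 = true := by decide +kernel

noncomputable def kxu289 : Pr := .mk (nat_lit 61) (nat_lit 62) (nat_lit 22) (nat_lit 512)

theorem kx289 : AP.runP optN (pjO PT.D spT PT.ps Cz.tt rtT Cz.tp) kxu289 = true := by decide +kernel

noncomputable def kxu290 : Pr := .mk (nat_lit 62) (nat_lit 63) (nat_lit 0) (nat_lit 512)

theorem kx290 : AP.runP optN (pjO PT.D spT PT.ps Cz.tt rtT Cz.tp) kxu290 = true := by decide +kernel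


end Pool.Agent.Lib.MP_5854e1_co.Cz
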