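import Pool.Agent.Lib.MP_5854e1_co.Cz.P

/-!
# The listed shares of the triangles
-/

set_option autoImplicit false
set_option maxRecDepth 100000
set_option deprecated.oldSectionVars true

namespace Pool.Agent.Lib.MP_5854e1_co.Cz

open Pool.Agent.Lib.MP_5854e1_co PB

noncomputable def kxu49 : Pr := .mk (nat_lit 0) (nat_lit 1) (nat_lit 229) (nat_lit 288)

theorem kx49 : AP.runP optN (pjO PT.D spT PT.ps Cz.tt rtT Cz.tp) kxu49 = true := by decide +kernel

noncomputable def kxu50 : Pr := .mk (nat_lit 0) (nat_lit 1) (nat_lit 288) (nat_lit 298)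

theorem kx50 : AP.runP optN (pjO PT.D spT PT.ps Cz.tt rtT Cz.tp) kxu50 = true := by decide +kernel

noncomputable def kxu51 : Pr := .mk (nat_lit 0) (nat_lit 1) (nat_lit 298) (nat_lit 303)

theorem kx51 : AP.runP optN (pjO PT.D spT PT.ps Cz.tt rtT Cz.tp) kxu51 = true := by decide +kernel

noncomputable def kxu52 : Pr := .mk (nat_lit 0) (nat_lit 1) (nat_lit 303) (nat_lit 310)

theorem kx52 : AP.runP optN (pjO PT.D spT PT.ps Cz.tt rtT Cz.tp) kxu52 = true := by decide +kernel


end Pool.Agent.Lib.MP_5854e1_co.Cz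

namespace Pool.Agent.Lib.MP_5854e1_co.Cz

open Pool.Agent.Lib.MP_5854e1_co PB

noncomputable def kxu107 : Pr := .mk (nat_lit 9) (nat_lit 10) (nat_lit 0) (nat_lit 8)

theorem kx107 : AP.runP optN (pjO PT.D spT PT.ps Cz.tt rtT Cz.tp) kxu107 = true := by decide +kernel

noncomputable def kxu108 : Pr := .mk (nat_lit 9) (nat_lit 10) (nat_lit 8) (nat_lit 31)

theorem kx108 : AP.runP optN (pjO PT.D spT PT.ps Cz.tt rtT Cz.tp) kxu108 = true := by decide +kernel

noncomputable def kxu109 : Pr := .mk (nat_lit 9) (nat_lit 10) (nat_lit 31) (nat_lit 512)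

theorem kx109 : AP.runP optN (pjO PT.D spT PT.ps Cz.tt rtT Cz.tp) kxu109 = true := by decide +kernel

noncomputable def kxu110 : Pr := .mk (nat_lit 10) (nat_lit 11) (nat_lit 0) (nat_lit 20)

theorem kx110 : AP.runP optN (pjO PT.D spT PT.ps Cz.tt rtT Cz.tp) kxu110 = true := by decide +kernel


end Pool.Agent.Lib.MP_5854e1_co.Cz

namespace Pool.Agent.Lib.MP_5854e1_co.Cz

open Pool.Agent.Lib.MP_5854e1_co PB

noncomputable def kxu111 : Pr := .mk (nat_lit 10) (nat_lit 11) (nat_lit 20) (nat_lit 21)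

theorem kx111 : AP.runP optN (pjO PT.D spT PT.ps Cz.tt rtT Cz.tp) kxu111 = true := by decide +kernel

noncomputable def kxu112 : Pr := .mk (nat_lit 10) (nat_lit 11) (nat_lit 21) (nat_lit 24)

theorem kx112 : AP.runP optN (pjO PT.D spT PT.ps Cz.tt rtT Cz.tp) kxu112 = true := by decide +kernel

noncomputable def kxu113 : Pr := .mk (nat_lit 10) (nat_lit 11) (nat_lit 24) (nat_lit 512)

theorem kx113 : AP.runP optN (pjO PT.D spT PT.ps Cz.tt rtT Cz.tp) kxu113 = true := by decide +kernel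

noncomputable def kxu114 : Pr := .mk (nat_lit 11) (nat_lit 12) (nat_lit 0) (nat_lit 11)

theorem kx114 : AP.runP optN (pjO PT.D spT PT.ps Cz.tt rtT Cz.tp) kxu114 = true := by decide +kernel

noncomputable def kxu115 : Pr := .mk (nat_lit 11) (nat_lit 12) (nat_lit 11) (nat_lit 13)

theorem kx115 : AP.runP optN (pjO PT.D spT PT.ps Cz.tt rtT Cz.tp) kxu115 = true := by decide +kernel


end Pool.Agent.Lib.MP_5854e1_co.Cz

namespace Pool.Agent.Lib.MP_5854e1_co.Cz

open Pool.Agent.Lib.MP_5854e1_co PB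

noncomputable def kxu305 : Pr := .mk (nat_lit 68) (nat_lit 69) (nat_lit 13) (nat_lit 15)

theorem kx305 : AP.runP optN (pjO PT.D spT PT.ps Cz.tt rtT Cz.tp) kxu305 = true := by decide +kernel

noncomputable def kxu306 : Pr := .mk (nat_lit 68) (nat_lit 69) (nat_lit 15) (nat_lit 512)

theorem kx306 : AP.runP optN (pjO PT.D spT PT.ps Cz.tt rtT Cz.tp) kxu306 = true := by decide +kernel

noncomputable def kxu307 : Pr := .mk (nat_lit 69) (nat_lit 70) (nat_lit 0) (nat_lit 512)

theorem kx307 : AP.runP optN (pjO PT.D spT PT.ps Cz.tt rtT Cz.tp) kxu307 = true := by decide +kernel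

noncomputable def kxu308 : Pr := .mk (nat_lit 70) (nat_lit 71) (nat_lit 0) (nat_lit 11)

theorem kx308 : AP.runP optN (pjO PT.D spT PT.ps Cz.tt rtT Cz.tp) kxu308 = true := by decide +kernel

noncomputable def kxu309 : Pr := .mk (nat_lit 70) (nat_lit 71) (nat_lit 11) (nat_lit 13)

theorem kx309 : AP.runP optN (pjO PT.D spT PT.ps Cz.tt rtT Cz.tp) kxu309 = true := by decide +kernel


end Pool.Agent.Lib.MP_5854e1_co.Cz
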