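import Pool.Agent.Lib.MP_5854e1_co.Cz.P

/-!
# The listed shares of the triangles
-/

set_option autoImplicit false
set_option maxRecDepth 100000
set_option deprecated.oldSectionVars true

namespace Pool.Agent.Lib.MP_5854e1_co.Cz

open Pool.Agent.Lib.MP_5854e1_co PB

noncomputable def kxu53 : Pr := .mk (nat_lit 0) (nat_lit 1) (nat_lit 310) (nat_lit 312)

theorem kx53 : AP.runP optN (pjO PT.D spT PT.ps Cz.tt rtT Cz.tp) kxu53 = true := by decide +kernel

noncomputable def kxu54 : Pr := .mk (nat_lit 0) (nat_lit 1) (nat_lit 312) (nat_lit 317)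

theorem kx54 : AP.runP optN (pjO PT.D spT PT.ps Cz.tt rtT Cz.tp) kxu54 = true := by decide +kernel

noncomputable def kxu55 : Pr := .mk (nat_lit 0) (nat_lit 1) (nat_lit 317) (nat_lit 322)

theorem kx55 : AP.runP optN (pjO PT.D spT PT.ps Cz.tt rtT Cz.tp) kxu55 = true := by decide +kernel

noncomputable def kxu56 : Pr := .mk (nat_lit 0) (nat_lit 1) (nat_lit 322) (nat_lit 332)

theorem kx56 : AP.runP optN (pjO PT.D spT PT.ps Cz.tt rtT Cz.tp) kxu56 = true := by decide +kernel

noncomputable def kxu57 : Pr := .mk (nat_lit 0) (nat_lit 1) (nat_lit 332) (nat_lit 333)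

theorem kx57 : AP.runP optN (pjO PT.D spT PT.ps Cz.tt rtT Cz.tp) kxu57 = true := by decide +kernel


end Pool.Agent.Lib.MP_5854e1_co.Cz

namespace Pool.Agent.Lib.MP_5854e1_co.Cz

open Pool.Agent.Lib.MP_5854e1_co PB

noncomputable def kxu87 : Pr := .mk (nat_lit 7) (nat_lit 8) (nat_lit 2) (nat_lit 10)

theorem kx87 : AP.runP optN (pjO PT.D spT PT.ps Cz.tt rtT Cz.tp) kxu87 = true := by decide +kernel

noncomputable def kxu88 : Pr := .mk (nat_lit 7) (nat_lit 8) (nat_lit 10) (nat_lit 14)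

theorem kx88 : AP.runP optN (pjO PT.D spT PT.ps Cz.tt rtT Cz.tp) kxu88 = true := by decide +kernel

noncomputable def kxu89 : Pr := .mk (nat_lit 7) (nat_lit 8) (nat_lit 14) (nat_lit 20)

theorem kx89 : AP.runP optN (pjO PT.D spT PT.ps Cz.tt rtT Cz.tp) kxu89 = true := by decide +kernel


end Pool.Agent.Lib.MP_5854e1_co.Cz

namespace Pool.Agent.Lib.MP_5854e1_co.Cz

open Pool.Agent.Lib.MP_5854e1_co PB

noncomputable def kxu130 : Pr := .mk (nat_lit 16) (nat_lit 17) (nat_lit 0) (nat_lit 512)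

theorem kx130 : AP.runP optN (pjO PT.D spT PT.ps Cz.tt rtT Cz.tp) kxu130 = true := by decide +kernel

noncomputable def kxu131 : Pr := .mk (nat_lit 17) (nat_lit 18) (nat_lit 0) (nat_lit 512)

theorem kx131 : AP.runP optN (pjO PT.D spT PT.ps Cz.tt rtT Cz.tp) kxu131 = true := by decide +kernel

noncomputable def kxu132 : Pr := .mk (nat_lit 18) (nat_lit 20) (nat_lit 0) (nat_lit 512)

theorem kx132 : AP.runP optN (pjO PT.D spT PT.ps Cz.tt rtT Cz.tp) kxu132 = true := by decide +kernel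

noncomputable def kxu133 : Pr := .mk (nat_lit 20) (nat_lit 21) (nat_lit 0) (nat_lit 2)

theorem kx133 : AP.runP optN (pjO PT.D spT PT.ps Cz.tt rtT Cz.tp) kxu133 = true := by decide +kernel


end Pool.Agent.Lib.MP_5854e1_co.Cz
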