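import Pool.Agent.Lib.MP_5854e1_co.Cz.P

/-!
# The listed shares of the triangles
-/

set_option autoImplicit false
set_option maxRecDepth 100000
set_option deprecated.oldSectionVars true

namespace Pool.Agent.Lib.MP_5854e1_co.Cz

open Pool.Agent.Lib.MP_5854e1_co PB

noncomputable def kxu58 : Pr := .mk (nat_lit 0) (nat_lit 1) (nat_lit 333) (nat_lit 337)

theorem kx58 : AP.runP optN (pjO PT.D spT PT.ps Cz.tt rtT Cz.tp) kxu58 = true := by decide +kernel

noncomputable def kxu59 : Pr := .mk (nat_lit 0) (nat_lit 1) (nat_lit 337) (nat_lit 341)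

theorem kx59 : AP.runP optN (pjO PT.D spT PT.ps Cz.tt rtT Cz.tp) kxu59 = true := by decide +kernel

noncomputable def kxu60 : Pr := .mk (nat_lit 0) (nat_lit 1) (nat_lit 341) (nat_lit 342)

theorem kx60 : AP.runP optN (pjO PT.D spT PT.ps Cz.tt rtT Cz.tp) kxu60 = true := by decide +kernel

noncomputable def kxu61 : Pr := .mk (nat_lit 0) (nat_lit 1) (nat_lit 342) (nat_lit 357)

theorem kx61 : AP.runP optN (pjO PT.D spT PT.ps Cz.tt rtT Cz.tp) kxu61 = true := by decide +kernel

noncomputable def kxu62 : Pr := .mk (nat_lit 0) (nat_lit 1) (nat_lit 357) (nat_lit 360)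

theorem kx62 : AP.runP optN (pjO PT.D spT PT.ps Cz.tt rtT Cz.tp) kxu62 = true := by decide +kernel


end Pool.Agent.Lib.MP_5854e1_co.Cz

namespace Pool.Agent.Lib.MP_5854e1_co.Cz

open Pool.Agent.Lib.MP_5854e1_co PB

noncomputable def kxu142 : Pr := .mk (nat_lit 20) (nat_lit 21) (nat_lit 224) (nat_lit 230)

theorem kx142 : AP.runP optN (pjO PT.D spT PT.ps Cz.tt rtT Cz.tp) kxu142 = true := by decide +kernel

noncomputable def kxu143 : Pr := .mk (nat_lit 20) (nat_lit 21) (nat_lit 230) (nat_lit 231)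

theorem kx143 : AP.runP optN (pjO PT.D spT PT.ps Cz.tt rtT Cz.tp) kxu143 = true := by decide +kernel

noncomputable def kxu144 : Pr := .mk (nat_lit 20) (nat_lit 21) (nat_lit 231) (nat_lit 246)

theorem kx144 : AP.runP optN (pjO PT.D spT PT.ps Cz.tt rtT Cz.tp) kxu144 = true := by decide +kernel


end Pool.Agent.Lib.MP_5854e1_co.Cz

namespace Pool.Agent.Lib.MP_5854e1_co.Cz

open Pool.Agent.Lib.MP_5854e1_co PB

noncomputable def kxu149 : Pr := .mk (nat_lit 21) (nat_lit 22) (nat_lit 10) (nat_lit 12)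

theorem kx149 : AP.runP optN (pjO PT.D spT PT.ps Cz.tt rtT Cz.tp) kxu149 = true := by decide +kernel

noncomputable def kxu150 : Pr := .mk (nat_lit 21) (nat_lit 22) (nat_lit 12) (nat_lit 14)

theorem kx150 : AP.runP optN (pjO PT.D spT PT.ps Cz.tt rtT Cz.tp) kxu150 = true := by decide +kernel

noncomputable def kxu151 : Pr := .mk (nat_lit 21) (nat_lit 22) (nat_lit 14) (nat_lit 27)

theorem kx151 : AP.runP optN (pjO PT.D spT PT.ps Cz.tt rtT Cz.tp) kxu151 = true := by decide +kernel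

noncomputable def kxu152 : Pr := .mk (nat_lit 21) (nat_lit 22) (nat_lit 27) (nat_lit 512)

theorem kx152 : AP.runP optN (pjO PT.D spT PT.ps Cz.tt rtT Cz.tp) kxu152 = true := by decide +kernel


end Pool.Agent.Lib.MP_5854e1_co.Cz

namespace Pool.Agent.Lib.MP_5854e1_co.Cz

open Pool.Agent.Lib.MP_5854e1_co PB

noncomputable def kxu191 : Pr := .mk (nat_lit 40) (nat_lit 41) (nat_lit 0) (nat_lit 512)

theorem kx191 : AP.runP optN (pjO PT.D spT PT.ps Cz.tt rtT Cz.tp) kxu191 = true := by decide +kernel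

noncomputable def kxu192 : Pr := .mk (nat_lit 41) (nat_lit 42) (nat_lit 0) (nat_lit 1)

theorem kx192 : AP.runP optN (pjO PT.D spT PT.ps Cz.tt rtT Cz.tp) kxu192 = true := by decide +kernel

noncomputable def kxu193 : Pr := .mk (nat_lit 41) (nat_lit 42) (nat_lit 1) (nat_lit 2)

theorem kx193 : AP.runP optN (pjO PT.D spT PT.ps Cz.tt rtT Cz.tp) kxu193 = true := by decide +kernel

noncomputable def kxu194 : Pr := .mk (nat_lit 41) (nat_lit 42) (nat_lit 2) (nat_lit 3)

theorem kx194 : AP.runP optN (pjO PT.D spT PT.ps Cz.tt rtT Cz.tp) kxu194 = true := by decide +kernel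


end Pool.Agent.Lib.MP_5854e1_co.Cz
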