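import Pool.Agent.Lib.MP_5854e1_co.Cz.P

/-!
# The listed shares of the triangles
-/

set_option autoImplicit false
set_option maxRecDepth 100000
set_option deprecated.oldSectionVars true

namespace Pool.Agent.Lib.MP_5854e1_co.Cz

open Pool.Agent.Lib.MP_5854e1_co PB

noncomputable def kxu67 : Pr := .mk (nat_lit 0) (nat_lit 1) (nat_lit 384) (nat_lit 385)

theorem kx67 : AP.runP optN (pjO PT.D spT PT.ps Cz.tt rtT Cz.tp) kxu67 = true := by decide +kernel

noncomputable def kxu68 : Pr := .mk (nat_lit 0) (nat_lit 1) (nat_lit 385) (nat_lit 402)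

theorem kx68 : AP.runP optN (pjO PT.D spT PT.ps Cz.tt rtT Cz.tp) kxu68 = true := by decide +kernel

noncomputable def kxu69 : Pr := .mk (nat_lit 0) (nat_lit 1) (nat_lit 402) (nat_lit 405)

theorem kx69 : AP.runP optN (pjO PT.D spT PT.ps Cz.tt rtT Cz.tp) kxu69 = true := by decide +kernel

noncomputable def kxu70 : Pr := .mk (nat_lit 0) (nat_lit 1) (nat_lit 405) (nat_lit 410)

theorem kx70 : AP.runP optN (pjO PT.D spT PT.ps Cz.tt rtT Cz.tp) kxu70 = true := by decide +kernel

noncomputable def kxu71 : Pr := .mk (nat_lit 0) (nat_lit 1) (nat_lit 410) (nat_lit 512)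

theorem kx71 : AP.runP optN (pjO PT.D spT PT.ps Cz.tt rtT Cz.tp) kxu71 = true := by decide +kernel


end Pool.Agent.Lib.MP_5854e1_co.Cz

namespace Pool.Agent.Lib.MP_5854e1_co.Cz

open Pool.Agent.Lib.MP_5854e1_co PB

noncomputable def kxu209 : Pr := .mk (nat_lit 42) (nat_lit 43) (nat_lit 0) (nat_lit 18)

theorem kx209 : AP.runP optN (pjO PT.D spT PT.ps Cz.tt rtT Cz.tp) kxu209 = true := by decide +kernel

noncomputable def kxu210 : Pr := .mk (nat_lit 42) (nat_lit 43) (nat_lit 18) (nat_lit 21)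

theorem kx210 : AP.runP optN (pjO PT.D spT PT.ps Cz.tt rtT Cz.tp) kxu210 = true := by decide +kernel

noncomputable def kxu211 : Pr := .mk (nat_lit 42) (nat_lit 43) (nat_lit 21) (nat_lit 26)

theorem kx211 : AP.runP optN (pjO PT.D spT PT.ps Cz.tt rtT Cz.tp) kxu211 = true := by decide +kernel

noncomputable def kxu212 : Pr := .mk (nat_lit 42) (nat_lit 43) (nat_lit 26) (nat_lit 40)

theorem kx212 : AP.runP optN (pjO PT.D spT PT.ps Cz.tt rtT Cz.tp) kxu212 = true := by decide +kernel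


end Pool.Agent.Lib.MP_5854e1_co.Cz

namespace Pool.Agent.Lib.MP_5854e1_co.Cz

open Pool.Agent.Lib.MP_5854e1_co PB

noncomputable def kxu316 : Pr := .mk (nat_lit 79) (nat_lit 80) (nat_lit 0) (nat_lit 512)

theorem kx316 : AP.runP optN (pjO PT.D spT PT.ps Cz.tt rtT Cz.tp) kxu316 = true := by decide +kernel

noncomputable def kxu317 : Pr := .mk (nat_lit 80) (nat_lit 81) (nat_lit 0) (nat_lit 512)

theorem kx317 : AP.runP optN (pjO PT.D spT PT.ps Cz.tt rtT Cz.tp) kxu317 = true := by decide +kernel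

noncomputable def kxu318 : Pr := .mk (nat_lit 81) (nat_lit 82) (nat_lit 0) (nat_lit 512)

theorem kx318 : AP.runP optN (pjO PT.D spT PT.ps Cz.tt rtT Cz.tp) kxu318 = true := by decide +kernel

noncomputable def kxu319 : Pr := .mk (nat_lit 82) (nat_lit 83) (nat_lit 0) (nat_lit 512)

theorem kx319 : AP.runP optN (pjO PT.D spT PT.ps Cz.tt rtT Cz.tp) kxu319 = true := by decide +kernel


end Pool.Agent.Lib.MP_5854e1_co.Cz

namespace Pool.Agent.Lib.MP_5854e1_co.Cz

open Pool.Agent.Lib.MP_5854e1_co PB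

noncomputable def kxu328 : Pr := .mk (nat_lit 93) (nat_lit 94) (nat_lit 0) (nat_lit 512)

theorem kx328 : AP.runP optN (pjO PT.D spT PT.ps Cz.tt rtT Cz.tp) kxu328 = true := by decide +kernel

noncomputable def kxu329 : Pr := .mk (nat_lit 94) (nat_lit 95) (nat_lit 0) (nat_lit 512)

theorem kx329 : AP.runP optN (pjO PT.D spT PT.ps Cz.tt rtT Cz.tp) kxu329 = true := by decide +kernel

noncomputable def kxu330 : Pr := .mk (nat_lit 95) (nat_lit 96) (nat_lit 0) (nat_lit 9)

theorem kx330 : AP.runP optN (pjO PT.D spT PT.ps Cz.tt rtT Cz.tp) kxu330 = true := by decide +kernel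

noncomputable def kxu331 : Pr := .mk (nat_lit 95) (nat_lit 96) (nat_lit 9) (nat_lit 11)

theorem kx331 : AP.runP optN (pjO PT.D spT PT.ps Cz.tt rtT Cz.tp) kxu331 = true := by decide +kernel


end Pool.Agent.Lib.MP_5854e1_co.Cz
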