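import Pool.Agent.Lib.MP_5854e1_co.Cz.P

/-!
# The listed shares of the triangles
-/

set_option autoImplicit false
set_option maxRecDepth 100000
set_option deprecated.oldSectionVars true

namespace Pool.Agent.Lib.MP_5854e1_co.Cz

open Pool.Agent.Lib.MP_5854e1_co PB

noncomputable def kxu72 : Pr := .mk (nat_lit 1) (nat_lit 2) (nat_lit 0) (nat_lit 250)

theorem kx72 : AP.runP optN (pjO PT.D spT PT.ps Cz.tt rtT Cz.tp) kxu72 = true := by decide +kernel

noncomputable def kxu73 : Pr := .mk (nat_lit 1) (nat_lit 2) (nat_lit 250) (nat_lit 512)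

theorem kx73 : AP.runP optN (pjO PT.D spT PT.ps Cz.tt rtT Cz.tp) kxu73 = true := by decide +kernel

noncomputable def kxu74 : Pr := .mk (nat_lit 2) (nat_lit 3) (nat_lit 0) (nat_lit 9)

theorem kx74 : AP.runP optN (pjO PT.D spT PT.ps Cz.tt rtT Cz.tp) kxu74 = true := by decide +kernel

noncomputable def kxu75 : Pr := .mk (nat_lit 2) (nat_lit 3) (nat_lit 9) (nat_lit 10)

theorem kx75 : AP.runP optN (pjO PT.D spT PT.ps Cz.tt rtT Cz.tp) kxu75 = true := by decide +kernel

noncomputable def kxu76 : Pr := .mk (nat_lit 2) (nat_lit 3) (nat_lit 10) (nat_lit 13)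

theorem kx76 : AP.runP optN (pjO PT.D spT PT.ps Cz.tt rtT Cz.tp) kxu76 = true := by decide +kernel


end Pool.Agent.Lib.MP_5854e1_co.Cz

namespace Pool.Agent.Lib.MP_5854e1_co.Cz

open Pool.Agent.Lib.MP_5854e1_co PB

noncomputable def kxu222 : Pr := .mk (nat_lit 46) (nat_lit 47) (nat_lit 0) (nat_lit 23)

theorem kx222 : AP.runP optN (pjO PT.D spT PT.ps Cz.tt rtT Cz.tp) kxu222 = true := by decide +kernel

noncomputable def kxu223 : Pr := .mk (nat_lit 46) (nat_lit 47) (nat_lit 23) (nat_lit 512)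

theorem kx223 : AP.runP optN (pjO PT.D spT PT.ps Cz.tt rtT Cz.tp) kxu223 = true := by decide +kernel

noncomputable def kxu224 : Pr := .mk (nat_lit 47) (nat_lit 48) (nat_lit 0) (nat_lit 31)

theorem kx224 : AP.runP optN (pjO PT.D spT PT.ps Cz.tt rtT Cz.tp) kxu224 = true := by decide +kernel

noncomputable def kxu225 : Pr := .mk (nat_lit 47) (nat_lit 48) (nat_lit 31) (nat_lit 49)

theorem kx225 : AP.runP optN (pjO PT.D spT PT.ps Cz.tt rtT Cz.tp) kxu225 = true := by decide +kernel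

noncomputable def kxu226 : Pr := .mk (nat_lit 47) (nat_lit 48) (nat_lit 49) (nat_lit 51)

theorem kx226 : AP.runP optN (pjO PT.D spT PT.ps Cz.tt rtT Cz.tp) kxu226 = true := by decide +kernel


end Pool.Agent.Lib.MP_5854e1_co.Cz

namespace Pool.Agent.Lib.MP_5854e1_co.Cz

open Pool.Agent.Lib.MP_5854e1_co PB

noncomputable def kxu245 : Pr := .mk (nat_lit 52) (nat_lit 53) (nat_lit 3) (nat_lit 7)

theorem kx245 : AP.runP optN (pjO PT.D spT PT.ps Cz.tt rtT Cz.tp) kxu245 = true := by decide +kernel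

noncomputable def kxu246 : Pr := .mk (nat_lit 52) (nat_lit 53) (nat_lit 7) (nat_lit 9)

theorem kx246 : AP.runP optN (pjO PT.D spT PT.ps Cz.tt rtT Cz.tp) kxu246 = true := by decide +kernel

noncomputable def kxu247 : Pr := .mk (nat_lit 52) (nat_lit 53) (nat_lit 9) (nat_lit 10)

theorem kx247 : AP.runP optN (pjO PT.D spT PT.ps Cz.tt rtT Cz.tp) kxu247 = true := by decide +kernel

noncomputable def kxu248 : Pr := .mk (nat_lit 52) (nat_lit 53) (nat_lit 10) (nat_lit 12)

theorem kx248 : AP.runP optN (pjO PT.D spT PT.ps Cz.tt rtT Cz.tp) kxu248 = true := by decide +kernel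

noncomputable def kxu249 : Pr := .mk (nat_lit 52) (nat_lit 53) (nat_lit 12) (nat_lit 13)

theorem kx249 : AP.runP optN (pjO PT.D spT PT.ps Cz.tt rtT Cz.tp) kxu249 = true := by decide +kernel


end Pool.Agent.Lib.MP_5854e1_co.Cz
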