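import Pool.Agent.Lib.MP_5854e1_co.Cz.P

/-!
# The listed shares of the triangles
-/

set_option autoImplicit false
set_option maxRecDepth 100000
set_option deprecated.oldSectionVars true

namespace Pool.Agent.Lib.MP_5854e1_co.Cz

open Pool.Agent.Lib.MP_5854e1_co PB

noncomputable def kxu77 : Pr := .mk (nat_lit 2) (nat_lit 3) (nat_lit 13) (nat_lit 27)

theorem kx77 : AP.runP optN (pjO PT.D spT PT.ps Cz.tt rtT Cz.tp) kxu77 = true := by decide +kernel

noncomputable def kxu78 : Pr := .mk (nat_lit 2) (nat_lit 3) (nat_lit 27) (nat_lit 512)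

theorem kx78 : AP.runP optN (pjO PT.D spT PT.ps Cz.tt rtT Cz.tp) kxu78 = true := by decide +kernel

noncomputable def kxu79 : Pr := .mk (nat_lit 3) (nat_lit 4) (nat_lit 0) (nat_lit 9)

theorem kx79 : AP.runP optN (pjO PT.D spT PT.ps Cz.tt rtT Cz.tp) kxu79 = true := by decide +kernel

noncomputable def kxu80 : Pr := .mk (nat_lit 3) (nat_lit 4) (nat_lit 9) (nat_lit 10)

theorem kx80 : AP.runP optN (pjO PT.D spT PT.ps Cz.tt rtT Cz.tp) kxu80 = true := by decide +kernel

noncomputable def kxu81 : Pr := .mk (nat_lit 3) (nat_lit 4) (nat_lit 10) (nat_lit 13)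

theorem kx81 : AP.runP optN (pjO PT.D spT PT.ps Cz.tt rtT Cz.tp) kxu81 = true := by decide +kernel


end Pool.Agent.Lib.MP_5854e1_co.Cz

namespace Pool.Agent.Lib.MP_5854e1_co.Cz

open Pool.Agent.Lib.MP_5854e1_co PB

noncomputable def kxu272 : Pr := .mk (nat_lit 57) (nat_lit 58) (nat_lit 0) (nat_lit 23)

theorem kx272 : AP.runP optN (pjO PT.D spT PT.ps Cz.tt rtT Cz.tp) kxu272 = true := by decide +kernel

noncomputable def kxu273 : Pr := .mk (nat_lit 57) (nat_lit 58) (nat_lit 23) (nat_lit 512)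

theorem kx273 : AP.runP optN (pjO PT.D spT PT.ps Cz.tt rtT Cz.tp) kxu273 = true := by decide +kernel

noncomputable def kxu274 : Pr := .mk (nat_lit 58) (nat_lit 59) (nat_lit 0) (nat_lit 29)

theorem kx274 : AP.runP optN (pjO PT.D spT PT.ps Cz.tt rtT Cz.tp) kxu274 = true := by decide +kernel

noncomputable def kxu275 : Pr := .mk (nat_lit 58) (nat_lit 59) (nat_lit 29) (nat_lit 40)

theorem kx275 : AP.runP optN (pjO PT.D spT PT.ps Cz.tt rtT Cz.tp) kxu275 = true := by decide +kernel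

noncomputable def kxu276 : Pr := .mk (nat_lit 58) (nat_lit 59) (nat_lit 40) (nat_lit 42)

theorem kx276 : AP.runP optN (pjO PT.D spT PT.ps Cz.tt rtT Cz.tp) kxu276 = true := by decide +kernel


end Pool.Agent.Lib.MP_5854e1_co.Cz

namespace Pool.Agent.Lib.MP_5854e1_co.Cz

open Pool.Agent.Lib.MP_5854e1_co PB

noncomputable def kxu291 : Pr := .mk (nat_lit 63) (nat_lit 64) (nat_lit 0) (nat_lit 3)

theorem kx291 : AP.runP optN (pjO PT.D spT PT.ps Cz.tt rtT Cz.tp) kxu291 = true := by decide +kernel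

noncomputable def kxu292 : Pr := .mk (nat_lit 63) (nat_lit 64) (nat_lit 3) (nat_lit 9)

theorem kx292 : AP.runP optN (pjO PT.D spT PT.ps Cz.tt rtT Cz.tp) kxu292 = true := by decide +kernel

noncomputable def kxu293 : Pr := .mk (nat_lit 63) (nat_lit 64) (nat_lit 9) (nat_lit 14)

theorem kx293 : AP.runP optN (pjO PT.D spT PT.ps Cz.tt rtT Cz.tp) kxu293 = true := by decide +kernel

noncomputable def kxu294 : Pr := .mk (nat_lit 63) (nat_lit 64) (nat_lit 14) (nat_lit 512)

theorem kx294 : AP.runP optN (pjO PT.D spT PT.ps Cz.tt rtT Cz.tp) kxu294 = true := by decide +kernel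

noncomputable def kxu295 : Pr := .mk (nat_lit 64) (nat_lit 65) (nat_lit 0) (nat_lit 512)

theorem kx295 : AP.runP optN (pjO PT.D spT PT.ps Cz.tt rtT Cz.tp) kxu295 = true := by decide +kernel


end Pool.Agent.Lib.MP_5854e1_co.Cz

namespace Pool.Agent.Lib.MP_5854e1_co.Cz

open Pool.Agent.Lib.MP_5854e1_co PB

noncomputable def kxu324 : Pr := .mk (nat_lit 86) (nat_lit 87) (nat_lit 11) (nat_lit 512)

theorem kx324 : AP.runP optN (pjO PT.D spT PT.ps Cz.tt rtT Cz.tp) kxu324 = true := by decide +kernel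

noncomputable def kxu325 : Pr := .mk (nat_lit 87) (nat_lit 88) (nat_lit 0) (nat_lit 512)

theorem kx325 : AP.runP optN (pjO PT.D spT PT.ps Cz.tt rtT Cz.tp) kxu325 = true := by decide +kernel

noncomputable def kxu326 : Pr := .mk (nat_lit 88) (nat_lit 90) (nat_lit 0) (nat_lit 512)

theorem kx326 : AP.runP optN (pjO PT.D spT PT.ps Cz.tt rtT Cz.tp) kxu326 = true := by decide +kernel

noncomputable def kxu327 : Pr := .mk (nat_lit 90) (nat_lit 93) (nat_lit 0) (nat_lit 512)

theorem kx327 : AP.runP optN (pjO PT.D spT PT.ps Cz.tt rtT Cz.tp) kxu327 = true := by decide +kernel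


end Pool.Agent.Lib.MP_5854e1_co.Cz
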