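import Pool.Agent.Lib.MP_5854e1_co.Cz.P

/-!
# The listed shares of the triangles
-/

set_option autoImplicit false
set_option maxRecDepth 100000
set_option deprecated.oldSectionVars true

namespace Pool.Agent.Lib.MP_5854e1_co.Cz

open Pool.Agent.Lib.MP_5854e1_co PB

noncomputable def kxu82 : Pr := .mk (nat_lit 3) (nat_lit 4) (nat_lit 13) (nat_lit 27)

theorem kx82 : AP.runP optN (pjO PT.D spT PT.ps Cz.tt rtT Cz.tp) kxu82 = true := by decide +kernel

noncomputable def kxu83 : Pr := .mk (nat_lit 3) (nat_lit 4) (nat_lit 27) (nat_lit 512)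

theorem kx83 : AP.runP optN (pjO PT.D spT PT.ps Cz.tt rtT Cz.tp) kxu83 = true := by decide +kernel

noncomputable def kxu84 : Pr := .mk (nat_lit 4) (nat_lit 6) (nat_lit 0) (nat_lit 512)

theorem kx84 : AP.runP optN (pjO PT.D spT PT.ps Cz.tt rtT Cz.tp) kxu84 = true := by decide +kernel

noncomputable def kxu85 : Pr := .mk (nat_lit 6) (nat_lit 7) (nat_lit 0) (nat_lit 512)

theorem kx85 : AP.runP optN (pjO PT.D spT PT.ps Cz.tt rtT Cz.tp) kxu85 = true := by decide +kernel

noncomputable def kxu86 : Pr := .mk (nat_lit 7) (nat_lit 8) (nat_lit 0) (nat_lit 2)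

theorem kx86 : AP.runP optN (pjO PT.D spT PT.ps Cz.tt rtT Cz.tp) kxu86 = true := by decide +kernel


end Pool.Agent.Lib.MP_5854e1_co.Cz

namespace Pool.Agent.Lib.MP_5854e1_co.Cz

open Pool.Agent.Lib.MP_5854e1_co PB

noncomputable def kxu254 : Pr := .mk (nat_lit 52) (nat_lit 53) (nat_lit 19) (nat_lit 27)

theorem kx254 : AP.runP optN (pjO PT.D spT PT.ps Cz.tt rtT Cz.tp) kxu254 = true := by decide +kernel

noncomputable def kxu255 : Pr := .mk (nat_lit 52) (nat_lit 53) (nat_lit 27) (nat_lit 28)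

theorem kx255 : AP.runP optN (pjO PT.D spT PT.ps Cz.tt rtT Cz.tp) kxu255 = true := by decide +kernel

noncomputable def kxu256 : Pr := .mk (nat_lit 52) (nat_lit 53) (nat_lit 28) (nat_lit 30)

theorem kx256 : AP.runP optN (pjO PT.D spT PT.ps Cz.tt rtT Cz.tp) kxu256 = true := by decide +kernel

noncomputable def kxu257 : Pr := .mk (nat_lit 52) (nat_lit 53) (nat_lit 30) (nat_lit 34)

theorem kx257 : AP.runP optN (pjO PT.D spT PT.ps Cz.tt rtT Cz.tp) kxu257 = true := by decide +kernel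

noncomputable def kxu258 : Pr := .mk (nat_lit 52) (nat_lit 53) (nat_lit 34) (nat_lit 512)

theorem kx258 : AP.runP optN (pjO PT.D spT PT.ps Cz.tt rtT Cz.tp) kxu258 = true := by decide +kernel


end Pool.Agent.Lib.MP_5854e1_co.Cz

namespace Pool.Agent.Lib.MP_5854e1_co.Cz

open Pool.Agent.Lib.MP_5854e1_co PB

noncomputable def kxu332 : Pr := .mk (nat_lit 95) (nat_lit 96) (nat_lit 11) (nat_lit 512)

theorem kx332 : AP.runP optN (pjO PT.D spT PT.ps Cz.tt rtT Cz.tp) kxu332 = true := by decide +kernel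

noncomputable def kxu333 : Pr := .mk (nat_lit 96) (nat_lit 97) (nat_lit 0) (nat_lit 512)

theorem kx333 : AP.runP optN (pjO PT.D spT PT.ps Cz.tt rtT Cz.tp) kxu333 = true := by decide +kernel

noncomputable def kxu334 : Pr := .mk (nat_lit 97) (nat_lit 99) (nat_lit 0) (nat_lit 512)

theorem kx334 : AP.runP optN (pjO PT.D spT PT.ps Cz.tt rtT Cz.tp) kxu334 = true := by decide +kernel

noncomputable def kxu335 : Pr := .mk (nat_lit 99) (nat_lit 101) (nat_lit 0) (nat_lit 512)

theorem kx335 : AP.runP optN (pjO PT.D spT PT.ps Cz.tt rtT Cz.tp) kxu335 = true := by decide +kernel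


end Pool.Agent.Lib.MP_5854e1_co.Cz
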