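import Pool.Agent.Lib.MP_5854e1_co.Cz.P

/-!
# The listed shares of the triangles
-/

set_option autoImplicit false
set_option maxRecDepth 100000
set_option deprecated.oldSectionVars true

namespace Pool.Agent.Lib.MP_5854e1_co.Cz

open Pool.Agent.Lib.MP_5854e1_co PB

noncomputable def kxu8 : Pr := .mk (nat_lit 0) (nat_lit 1) (nat_lit 50) (nat_lit 81)

theorem kx8 : AP.runP optN (pjO PT.D spT PT.ps Cz.tt rtT Cz.tp) kxu8 = true := by decide +kernel

noncomputable def kxu9 : Pr := .mk (nat_lit 0) (nat_lit 1) (nat_lit 81) (nat_lit 82)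

theorem kx9 : AP.runP optN (pjO PT.D spT PT.ps Cz.tt rtT Cz.tp) kxu9 = true := by decide +kernel

noncomputable def kxu10 : Pr := .mk (nat_lit 0) (nat_lit 1) (nat_lit 82) (nat_lit 87)

theorem kx10 : AP.runP optN (pjO PT.D spT PT.ps Cz.tt rtT Cz.tp) kxu10 = true := by decide +kernel

noncomputable def kxu11 : Pr := .mk (nat_lit 0) (nat_lit 1) (nat_lit 87) (nat_lit 88)

theorem kx11 : AP.runP optN (pjO PT.D spT PT.ps Cz.tt rtT Cz.tp) kxu11 = true := by decide +kernel


end Pool.Agent.Lib.MP_5854e1_co.Cz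

namespace Pool.Agent.Lib.MP_5854e1_co.Cz

open Pool.Agent.Lib.MP_5854e1_co PB

noncomputable def kxu28 : Pr := .mk (nat_lit 0) (nat_lit 1) (nat_lit 149) (nat_lit 157)

theorem kx28 : AP.runP optN (pjO PT.D spT PT.ps Cz.tt rtT Cz.tp) kxu28 = true := by decide +kernel

noncomputable def kxu29 : Pr := .mk (nat_lit 0) (nat_lit 1) (nat_lit 157) (nat_lit 158)

theorem kx29 : AP.runP optN (pjO PT.D spT PT.ps Cz.tt rtT Cz.tp) kxu29 = true := by decide +kernel

noncomputable def kxu30 : Pr := .mk (nat_lit 0) (nat_lit 1) (nat_lit 158) (nat_lit 163)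

theorem kx30 : AP.runP optN (pjO PT.D spT PT.ps Cz.tt rtT Cz.tp) kxu30 = true := by decide +kernel

noncomputable def kxu31 : Pr := .mk (nat_lit 0) (nat_lit 1) (nat_lit 163) (nat_lit 164)

theorem kx31 : AP.runP optN (pjO PT.D spT PT.ps Cz.tt rtT Cz.tp) kxu31 = true := by decide +kernel


end Pool.Agent.Lib.MP_5854e1_co.Cz

namespace Pool.Agent.Lib.MP_5854e1_co.Cz

open Pool.Agent.Lib.MP_5854e1_co PB

noncomputable def kxu176 : Pr := .mk (nat_lit 29) (nat_lit 30) (nat_lit 0) (nat_lit 512)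

theorem kx176 : AP.runP optN (pjO PT.D spT PT.ps Cz.tt rtT Cz.tp) kxu176 = true := by decide +kernel

noncomputable def kxu177 : Pr := .mk (nat_lit 30) (nat_lit 31) (nat_lit 0) (nat_lit 512)

theorem kx177 : AP.runP optN (pjO PT.D spT PT.ps Cz.tt rtT Cz.tp) kxu177 = true := by decide +kernel

noncomputable def kxu178 : Pr := .mk (nat_lit 31) (nat_lit 33) (nat_lit 0) (nat_lit 512)

theorem kx178 : AP.runP optN (pjO PT.D spT PT.ps Cz.tt rtT Cz.tp) kxu178 = true := by decide +kernel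

noncomputable def kxu179 : Pr := .mk (nat_lit 33) (nat_lit 35) (nat_lit 0) (nat_lit 512)

theorem kx179 : AP.runP optN (pjO PT.D spT PT.ps Cz.tt rtT Cz.tp) kxu179 = true := by decide +kernel

noncomputable def kxu180 : Pr := .mk (nat_lit 35) (nat_lit 36) (nat_lit 0) (nat_lit 9)

theorem kx180 : AP.runP optN (pjO PT.D spT PT.ps Cz.tt rtT Cz.tp) kxu180 = true := by decide +kernel


end Pool.Agent.Lib.MP_5854e1_co.Cz
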