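import Pool.Agent.Lib.MP_5854e1_co.Cz.P

/-!
# The listed shares of the triangles
-/

set_option autoImplicit false
set_option maxRecDepth 100000
set_option deprecated.oldSectionVars true

namespace Pool.Agent.Lib.MP_5854e1_co.Cz

open Pool.Agent.Lib.MP_5854e1_co PB

noncomputable def kxu90 : Pr := .mk (nat_lit 7) (nat_lit 8) (nat_lit 20) (nat_lit 42)

theorem kx90 : AP.runP optN (pjO PT.D spT PT.ps Cz.tt rtT Cz.tp) kxu90 = true := by decide +kernel

noncomputable def kxu91 : Pr := .mk (nat_lit 7) (nat_lit 8) (nat_lit 42) (nat_lit 152)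

theorem kx91 : AP.runP optN (pjO PT.D spT PT.ps Cz.tt rtT Cz.tp) kxu91 = true := by decide +kernel

noncomputable def kxu92 : Pr := .mk (nat_lit 7) (nat_lit 8) (nat_lit 152) (nat_lit 156)

theorem kx92 : AP.runP optN (pjO PT.D spT PT.ps Cz.tt rtT Cz.tp) kxu92 = true := by decide +kernel


end Pool.Agent.Lib.MP_5854e1_co.Cz

namespace Pool.Agent.Lib.MP_5854e1_co.Cz

open Pool.Agent.Lib.MP_5854e1_co PB

noncomputable def kxu121 : Pr := .mk (nat_lit 12) (nat_lit 13) (nat_lit 26) (nat_lit 27)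

theorem kx121 : AP.runP optN (pjO PT.D spT PT.ps Cz.tt rtT Cz.tp) kxu121 = true := by decide +kernel

noncomputable def kxu122 : Pr := .mk (nat_lit 12) (nat_lit 13) (nat_lit 27) (nat_lit 30)

theorem kx122 : AP.runP optN (pjO PT.D spT PT.ps Cz.tt rtT Cz.tp) kxu122 = true := by decide +kernel

noncomputable def kxu123 : Pr := .mk (nat_lit 12) (nat_lit 13) (nat_lit 30) (nat_lit 512)

theorem kx123 : AP.runP optN (pjO PT.D spT PT.ps Cz.tt rtT Cz.tp) kxu123 = true := by decide +kernel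

noncomputable def kxu124 : Pr := .mk (nat_lit 13) (nat_lit 14) (nat_lit 0) (nat_lit 512)

theorem kx124 : AP.runP optN (pjO PT.D spT PT.ps Cz.tt rtT Cz.tp) kxu124 = true := by decide +kernel


end Pool.Agent.Lib.MP_5854e1_co.Cz

namespace Pool.Agent.Lib.MP_5854e1_co.Cz

open Pool.Agent.Lib.MP_5854e1_co PB

noncomputable def kxu153 : Pr := .mk (nat_lit 22) (nat_lit 23) (nat_lit 0) (nat_lit 10)

theorem kx153 : AP.runP optN (pjO PT.D spT PT.ps Cz.tt rtT Cz.tp) kxu153 = true := by decide +kernel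

noncomputable def kxu154 : Pr := .mk (nat_lit 22) (nat_lit 23) (nat_lit 10) (nat_lit 32)

theorem kx154 : AP.runP optN (pjO PT.D spT PT.ps Cz.tt rtT Cz.tp) kxu154 = true := by decide +kernel

noncomputable def kxu155 : Pr := .mk (nat_lit 22) (nat_lit 23) (nat_lit 32) (nat_lit 512)

theorem kx155 : AP.runP optN (pjO PT.D spT PT.ps Cz.tt rtT Cz.tp) kxu155 = true := by decide +kernel

noncomputable def kxu156 : Pr := .mk (nat_lit 23) (nat_lit 24) (nat_lit 0) (nat_lit 20)

theorem kx156 : AP.runP optN (pjO PT.D spT PT.ps Cz.tt rtT Cz.tp) kxu156 = true := by decide +kernel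


end Pool.Agent.Lib.MP_5854e1_co.Cz

namespace Pool.Agent.Lib.MP_5854e1_co.Cz

open Pool.Agent.Lib.MP_5854e1_co PB

noncomputable def kxu218 : Pr := .mk (nat_lit 44) (nat_lit 45) (nat_lit 0) (nat_lit 2)

theorem kx218 : AP.runP optN (pjO PT.D spT PT.ps Cz.tt rtT Cz.tp) kxu218 = true := by decide +kernel

noncomputable def kxu219 : Pr := .mk (nat_lit 44) (nat_lit 45) (nat_lit 2) (nat_lit 13)

theorem kx219 : AP.runP optN (pjO PT.D spT PT.ps Cz.tt rtT Cz.tp) kxu219 = true := by decide +kernel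

noncomputable def kxu220 : Pr := .mk (nat_lit 44) (nat_lit 45) (nat_lit 13) (nat_lit 512)

theorem kx220 : AP.runP optN (pjO PT.D spT PT.ps Cz.tt rtT Cz.tp) kxu220 = true := by decide +kernel

noncomputable def kxu221 : Pr := .mk (nat_lit 45) (nat_lit 46) (nat_lit 0) (nat_lit 512)

theorem kx221 : AP.runP optN (pjO PT.D spT PT.ps Cz.tt rtT Cz.tp) kxu221 = true := by decide +kernel


end Pool.Agent.Lib.MP_5854e1_co.Cz
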