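import Pool.Agent.Lib.MP_5854e1_co.Cz.P

/-!
# The listed shares of the triangles
-/

set_option autoImplicit false
set_option maxRecDepth 100000
set_option deprecated.oldSectionVars true

namespace Pool.Agent.Lib.MP_5854e1_co.Cz

open Pool.Agent.Lib.MP_5854e1_co PB

noncomputable def kxu93 : Pr := .mk (nat_lit 7) (nat_lit 8) (nat_lit 156) (nat_lit 177)

theorem kx93 : AP.runP optN (pjO PT.D spT PT.ps Cz.tt rtT Cz.tp) kxu93 = true := by decide +kernel

noncomputable def kxu94 : Pr := .mk (nat_lit 7) (nat_lit 8) (nat_lit 177) (nat_lit 246)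

theorem kx94 : AP.runP optN (pjO PT.D spT PT.ps Cz.tt rtT Cz.tp) kxu94 = true := by decide +kernel

noncomputable def kxu95 : Pr := .mk (nat_lit 7) (nat_lit 8) (nat_lit 246) (nat_lit 252)

theorem kx95 : AP.runP optN (pjO PT.D spT PT.ps Cz.tt rtT Cz.tp) kxu95 = true := by decide +kernel

noncomputable def kxu96 : Pr := .mk (nat_lit 7) (nat_lit 8) (nat_lit 252) (nat_lit 253)

theorem kx96 : AP.runP optN (pjO PT.D spT PT.ps Cz.tt rtT Cz.tp) kxu96 = true := by decide +kernel

noncomputable def kxu97 : Pr := .mk (nat_lit 7) (nat_lit 8) (nat_lit 253) (nat_lit 264)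

theorem kx97 : AP.runP optN (pjO PT.D spT PT.ps Cz.tt rtT Cz.tp) kxu97 = true := by decide +kernel


end Pool.Agent.Lib.MP_5854e1_co.Cz

namespace Pool.Agent.Lib.MP_5854e1_co.Cz

open Pool.Agent.Lib.MP_5854e1_co PB

noncomputable def kxu134 : Pr := .mk (nat_lit 20) (nat_lit 21) (nat_lit 2) (nat_lit 10)

theorem kx134 : AP.runP optN (pjO PT.D spT PT.ps Cz.tt rtT Cz.tp) kxu134 = true := by decide +kernel

noncomputable def kxu135 : Pr := .mk (nat_lit 20) (nat_lit 21) (nat_lit 10) (nat_lit 14)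

theorem kx135 : AP.runP optN (pjO PT.D spT PT.ps Cz.tt rtT Cz.tp) kxu135 = true := by decide +kernel

noncomputable def kxu136 : Pr := .mk (nat_lit 20) (nat_lit 21) (nat_lit 14) (nat_lit 20)

theorem kx136 : AP.runP optN (pjO PT.D spT PT.ps Cz.tt rtT Cz.tp) kxu136 = true := by decide +kernel

noncomputable def kxu137 : Pr := .mk (nat_lit 20) (nat_lit 21) (nat_lit 20) (nat_lit 41)

theorem kx137 : AP.runP optN (pjO PT.D spT PT.ps Cz.tt rtT Cz.tp) kxu137 = true := by decide +kernel


end Pool.Agent.Lib.MP_5854e1_co.Cz
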