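import Pool.Agent.Lib.MP_5854e1_co.Cz.P

/-!
# The listed shares of the triangles
-/

set_option autoImplicit false
set_option maxRecDepth 100000
set_option deprecated.oldSectionVars true

namespace Pool.Agent.Lib.MP_5854e1_co.Cz

open Pool.Agent.Lib.MP_5854e1_co PB

noncomputable def kxu98 : Pr := .mk (nat_lit 7) (nat_lit 8) (nat_lit 264) (nat_lit 270)

theorem kx98 : AP.runP optN (pjO PT.D spT PT.ps Cz.tt rtT Cz.tp) kxu98 = true := by decide +kernel

noncomputable def kxu99 : Pr := .mk (nat_lit 7) (nat_lit 8) (nat_lit 270) (nat_lit 282)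

theorem kx99 : AP.runP optN (pjO PT.D spT PT.ps Cz.tt rtT Cz.tp) kxu99 = true := by decide +kernel

noncomputable def kxu100 : Pr := .mk (nat_lit 7) (nat_lit 8) (nat_lit 282) (nat_lit 512)

theorem kx100 : AP.runP optN (pjO PT.D spT PT.ps Cz.tt rtT Cz.tp) kxu100 = true := by decide +kernel

noncomputable def kxu101 : Pr := .mk (nat_lit 8) (nat_lit 9) (nat_lit 0) (nat_lit 7)

theorem kx101 : AP.runP optN (pjO PT.D spT PT.ps Cz.tt rtT Cz.tp) kxu101 = true := by decide +kernel


end Pool.Agent.Lib.MP_5854e1_co.Cz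

namespace Pool.Agent.Lib.MP_5854e1_co.Cz

open Pool.Agent.Lib.MP_5854e1_co PB

noncomputable def kxu145 : Pr := .mk (nat_lit 20) (nat_lit 21) (nat_lit 246) (nat_lit 256)

theorem kx145 : AP.runP optN (pjO PT.D spT PT.ps Cz.tt rtT Cz.tp) kxu145 = true := by decide +kernel

noncomputable def kxu146 : Pr := .mk (nat_lit 20) (nat_lit 21) (nat_lit 256) (nat_lit 512)

theorem kx146 : AP.runP optN (pjO PT.D spT PT.ps Cz.tt rtT Cz.tp) kxu146 = true := by decide +kernel

noncomputable def kxu147 : Pr := .mk (nat_lit 21) (nat_lit 22) (nat_lit 0) (nat_lit 7)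

theorem kx147 : AP.runP optN (pjO PT.D spT PT.ps Cz.tt rtT Cz.tp) kxu147 = true := by decide +kernel

noncomputable def kxu148 : Pr := .mk (nat_lit 21) (nat_lit 22) (nat_lit 7) (nat_lit 10)

theorem kx148 : AP.runP optN (pjO PT.D spT PT.ps Cz.tt rtT Cz.tp) kxu148 = true := by decide +kernel


end Pool.Agent.Lib.MP_5854e1_co.Cz

namespace Pool.Agent.Lib.MP_5854e1_co.Cz

open Pool.Agent.Lib.MP_5854e1_co PB

noncomputable def kxu241 : Pr := .mk (nat_lit 51) (nat_lit 52) (nat_lit 0) (nat_lit 512)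

theorem kx241 : AP.runP optN (pjO PT.D spT PT.ps Cz.tt rtT Cz.tp) kxu241 = true := by decide +kernel

noncomputable def kxu242 : Pr := .mk (nat_lit 52) (nat_lit 53) (nat_lit 0) (nat_lit 1)

theorem kx242 : AP.runP optN (pjO PT.D spT PT.ps Cz.tt rtT Cz.tp) kxu242 = true := by decide +kernel

noncomputable def kxu243 : Pr := .mk (nat_lit 52) (nat_lit 53) (nat_lit 1) (nat_lit 2)

theorem kx243 : AP.runP optN (pjO PT.D spT PT.ps Cz.tt rtT Cz.tp) kxu243 = true := by decide +kernel

noncomputable def kxu244 : Pr := .mk (nat_lit 52) (nat_lit 53) (nat_lit 2) (nat_lit 3)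

theorem kx244 : AP.runP optN (pjO PT.D spT PT.ps Cz.tt rtT Cz.tp) kxu244 = true := by decide +kernel


end Pool.Agent.Lib.MP_5854e1_co.Cz
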