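import Pool.Agent.Lib.MP_5854e1_co.Cz.P

/-!
# The listed shares of the triangles
-/

set_option autoImplicit false
set_option maxRecDepth 100000
set_option deprecated.oldSectionVars true

namespace Pool.Agent.Lib.MP_5854e1_co.Cz

open Pool.Agent.Lib.MP_5854e1_co PB

noncomputable def kxu102 : Pr := .mk (nat_lit 8) (nat_lit 9) (nat_lit 7) (nat_lit 10)

theorem kx102 : AP.runP optN (pjO PT.D spT PT.ps Cz.tt rtT Cz.tp) kxu102 = true := by decide +kernel

noncomputable def kxu103 : Pr := .mk (nat_lit 8) (nat_lit 9) (nat_lit 10) (nat_lit 12)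

theorem kx103 : AP.runP optN (pjO PT.D spT PT.ps Cz.tt rtT Cz.tp) kxu103 = true := by decide +kernel

noncomputable def kxu104 : Pr := .mk (nat_lit 8) (nat_lit 9) (nat_lit 12) (nat_lit 14)

theorem kx104 : AP.runP optN (pjO PT.D spT PT.ps Cz.tt rtT Cz.tp) kxu104 = true := by decide +kernel

noncomputable def kxu105 : Pr := .mk (nat_lit 8) (nat_lit 9) (nat_lit 14) (nat_lit 27)

theorem kx105 : AP.runP optN (pjO PT.D spT PT.ps Cz.tt rtT Cz.tp) kxu105 = true := by decide +kernel

noncomputable def kxu106 : Pr := .mk (nat_lit 8) (nat_lit 9) (nat_lit 27) (nat_lit 512)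

theorem kx106 : AP.runP optN (pjO PT.D spT PT.ps Cz.tt rtT Cz.tp) kxu106 = true := by decide +kernel


end Pool.Agent.Lib.MP_5854e1_co.Cz

namespace Pool.Agent.Lib.MP_5854e1_co.Cz

open Pool.Agent.Lib.MP_5854e1_co PB

noncomputable def kxu186 : Pr := .mk (nat_lit 37) (nat_lit 38) (nat_lit 15) (nat_lit 512)

theorem kx186 : AP.runP optN (pjO PT.D spT PT.ps Cz.tt rtT Cz.tp) kxu186 = true := by decide +kernel

noncomputable def kxu187 : Pr := .mk (nat_lit 38) (nat_lit 39) (nat_lit 0) (nat_lit 512)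

theorem kx187 : AP.runP optN (pjO PT.D spT PT.ps Cz.tt rtT Cz.tp) kxu187 = true := by decide +kernel

noncomputable def kxu188 : Pr := .mk (nat_lit 39) (nat_lit 40) (nat_lit 0) (nat_lit 16)

theorem kx188 : AP.runP optN (pjO PT.D spT PT.ps Cz.tt rtT Cz.tp) kxu188 = true := by decide +kernel

noncomputable def kxu189 : Pr := .mk (nat_lit 39) (nat_lit 40) (nat_lit 16) (nat_lit 19)

theorem kx189 : AP.runP optN (pjO PT.D spT PT.ps Cz.tt rtT Cz.tp) kxu189 = true := by decide +kernel

noncomputable def kxu190 : Pr := .mk (nat_lit 39) (nat_lit 40) (nat_lit 19) (nat_lit 512)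

theorem kx190 : AP.runP optN (pjO PT.D spT PT.ps Cz.tt rtT Cz.tp) kxu190 = true := by decide +kernel


end Pool.Agent.Lib.MP_5854e1_co.Cz

namespace Pool.Agent.Lib.MP_5854e1_co.Cz

open Pool.Agent.Lib.MP_5854e1_co PB

noncomputable def kxu232 : Pr := .mk (nat_lit 48) (nat_lit 49) (nat_lit 24) (nat_lit 27)

theorem kx232 : AP.runP optN (pjO PT.D spT PT.ps Cz.tt rtT Cz.tp) kxu232 = true := by decide +kernel

noncomputable def kxu233 : Pr := .mk (nat_lit 48) (nat_lit 49) (nat_lit 27) (nat_lit 512)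

theorem kx233 : AP.runP optN (pjO PT.D spT PT.ps Cz.tt rtT Cz.tp) kxu233 = true := by decide +kernel

noncomputable def kxu234 : Pr := .mk (nat_lit 49) (nat_lit 50) (nat_lit 0) (nat_lit 9)

theorem kx234 : AP.runP optN (pjO PT.D spT PT.ps Cz.tt rtT Cz.tp) kxu234 = true := by decide +kernel

noncomputable def kxu235 : Pr := .mk (nat_lit 49) (nat_lit 50) (nat_lit 9) (nat_lit 10)

theorem kx235 : AP.runP optN (pjO PT.D spT PT.ps Cz.tt rtT Cz.tp) kxu235 = true := by decide +kernel


end Pool.Agent.Lib.MP_5854e1_co.Cz
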