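import Pool.Agent.Lib.MP_5854e1_co.Cz.P

/-!
# The listed shares of the triangles
-/

set_option autoImplicit false
set_option maxRecDepth 100000
set_option deprecated.oldSectionVars true

namespace Pool.Agent.Lib.MP_5854e1_co.Cz

open Pool.Agent.Lib.MP_5854e1_co PB

noncomputable def kxu12 : Pr := .mk (nat_lit 0) (nat_lit 1) (nat_lit 88) (nat_lit 89)

theorem kx12 : AP.runP optN (pjO PT.D spT PT.ps Cz.tt rtT Cz.tp) kxu12 = true := by decide +kernel

noncomputable def kxu13 : Pr := .mk (nat_lit 0) (nat_lit 1) (nat_lit 89) (nat_lit 90)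

theorem kx13 : AP.runP optN (pjO PT.D spT PT.ps Cz.tt rtT Cz.tp) kxu13 = true := by decide +kernel

noncomputable def kxu14 : Pr := .mk (nat_lit 0) (nat_lit 1) (nat_lit 90) (nat_lit 91)

theorem kx14 : AP.runP optN (pjO PT.D spT PT.ps Cz.tt rtT Cz.tp) kxu14 = true := by decide +kernel

noncomputable def kxu15 : Pr := .mk (nat_lit 0) (nat_lit 1) (nat_lit 91) (nat_lit 95)

theorem kx15 : AP.runP optN (pjO PT.D spT PT.ps Cz.tt rtT Cz.tp) kxu15 = true := by decide +kernel


end Pool.Agent.Lib.MP_5854e1_co.Cz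

namespace Pool.Agent.Lib.MP_5854e1_co.Cz

open Pool.Agent.Lib.MP_5854e1_co PB

noncomputable def kxu195 : Pr := .mk (nat_lit 41) (nat_lit 42) (nat_lit 3) (nat_lit 7)

theorem kx195 : AP.runP optN (pjO PT.D spT PT.ps Cz.tt rtT Cz.tp) kxu195 = true := by decide +kernel

noncomputable def kxu196 : Pr := .mk (nat_lit 41) (nat_lit 42) (nat_lit 7) (nat_lit 9)

theorem kx196 : AP.runP optN (pjO PT.D spT PT.ps Cz.tt rtT Cz.tp) kxu196 = true := by decide +kernel

noncomputable def kxu197 : Pr := .mk (nat_lit 41) (nat_lit 42) (nat_lit 9) (nat_lit 10)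

theorem kx197 : AP.runP optN (pjO PT.D spT PT.ps Cz.tt rtT Cz.tp) kxu197 = true := by decide +kernel

noncomputable def kxu198 : Pr := .mk (nat_lit 41) (nat_lit 42) (nat_lit 10) (nat_lit 12)

theorem kx198 : AP.runP optN (pjO PT.D spT PT.ps Cz.tt rtT Cz.tp) kxu198 = true := by decide +kernel

noncomputable def kxu199 : Pr := .mk (nat_lit 41) (nat_lit 42) (nat_lit 12) (nat_lit 13)

theorem kx199 : AP.runP optN (pjO PT.D spT PT.ps Cz.tt rtT Cz.tp) kxu199 = true := by decide +kernel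


end Pool.Agent.Lib.MP_5854e1_co.Cz

namespace Pool.Agent.Lib.MP_5854e1_co.Cz

open Pool.Agent.Lib.MP_5854e1_co PB

noncomputable def kxu200 : Pr := .mk (nat_lit 41) (nat_lit 42) (nat_lit 13) (nat_lit 14)

theorem kx200 : AP.runP optN (pjO PT.D spT PT.ps Cz.tt rtT Cz.tp) kxu200 = true := by decide +kernel

noncomputable def kxu201 : Pr := .mk (nat_lit 41) (nat_lit 42) (nat_lit 14) (nat_lit 15)

theorem kx201 : AP.runP optN (pjO PT.D spT PT.ps Cz.tt rtT Cz.tp) kxu201 = true := by decide +kernel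

noncomputable def kxu202 : Pr := .mk (nat_lit 41) (nat_lit 42) (nat_lit 15) (nat_lit 16)

theorem kx202 : AP.runP optN (pjO PT.D spT PT.ps Cz.tt rtT Cz.tp) kxu202 = true := by decide +kernel

noncomputable def kxu203 : Pr := .mk (nat_lit 41) (nat_lit 42) (nat_lit 16) (nat_lit 19)

theorem kx203 : AP.runP optN (pjO PT.D spT PT.ps Cz.tt rtT Cz.tp) kxu203 = true := by decide +kernel


end Pool.Agent.Lib.MP_5854e1_co.Cz
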