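import Pool.Agent.Lib.MP_5854e1_co.Cz.P

/-!
# The listed shares of the triangles
-/

set_option autoImplicit false
set_option maxRecDepth 100000
set_option deprecated.oldSectionVars true

namespace Pool.Agent.Lib.MP_5854e1_co.Cz

open Pool.Agent.Lib.MP_5854e1_co PB

noncomputable def kxu138 : Pr := .mk (nat_lit 20) (nat_lit 21) (nat_lit 41) (nat_lit 116)

theorem kx138 : AP.runP optN (pjO PT.D spT PT.ps Cz.tt rtT Cz.tp) kxu138 = true := by decide +kernel

noncomputable def kxu139 : Pr := .mk (nat_lit 20) (nat_lit 21) (nat_lit 116) (nat_lit 154)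

theorem kx139 : AP.runP optN (pjO PT.D spT PT.ps Cz.tt rtT Cz.tp) kxu139 = true := by decide +kernel

noncomputable def kxu140 : Pr := .mk (nat_lit 20) (nat_lit 21) (nat_lit 154) (nat_lit 157)

theorem kx140 : AP.runP optN (pjO PT.D spT PT.ps Cz.tt rtT Cz.tp) kxu140 = true := by decide +kernel

noncomputable def kxu141 : Pr := .mk (nat_lit 20) (nat_lit 21) (nat_lit 157) (nat_lit 224)

theorem kx141 : AP.runP optN (pjO PT.D spT PT.ps Cz.tt rtT Cz.tp) kxu141 = true := by decide +kernel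


end Pool.Agent.Lib.MP_5854e1_co.Cz

namespace Pool.Agent.Lib.MP_5854e1_co.Cz

open Pool.Agent.Lib.MP_5854e1_co PB

noncomputable def kxu296 : Pr := .mk (nat_lit 65) (nat_lit 66) (nat_lit 0) (nat_lit 3)

theorem kx296 : AP.runP optN (pjO PT.D spT PT.ps Cz.tt rtT Cz.tp) kxu296 = true := by decide +kernel

noncomputable def kxu297 : Pr := .mk (nat_lit 65) (nat_lit 66) (nat_lit 3) (nat_lit 9)

theorem kx297 : AP.runP optN (pjO PT.D spT PT.ps Cz.tt rtT Cz.tp) kxu297 = true := by decide +kernel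

noncomputable def kxu298 : Pr := .mk (nat_lit 65) (nat_lit 66) (nat_lit 9) (nat_lit 14)

theorem kx298 : AP.runP optN (pjO PT.D spT PT.ps Cz.tt rtT Cz.tp) kxu298 = true := by decide +kernel

noncomputable def kxu299 : Pr := .mk (nat_lit 65) (nat_lit 66) (nat_lit 14) (nat_lit 512)

theorem kx299 : AP.runP optN (pjO PT.D spT PT.ps Cz.tt rtT Cz.tp) kxu299 = true := by decide +kernel

noncomputable def kxu300 : Pr := .mk (nat_lit 66) (nat_lit 67) (nat_lit 0) (nat_lit 512)

theorem kx300 : AP.runP optN (pjO PT.D spT PT.ps Cz.tt rtT Cz.tp) kxu300 = true := by decide +kernel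


end Pool.Agent.Lib.MP_5854e1_co.Cz

namespace Pool.Agent.Lib.MP_5854e1_co.Cz

open Pool.Agent.Lib.MP_5854e1_co PB

noncomputable def kxu320 : Pr := .mk (nat_lit 83) (nat_lit 85) (nat_lit 0) (nat_lit 512)

theorem kx320 : AP.runP optN (pjO PT.D spT PT.ps Cz.tt rtT Cz.tp) kxu320 = true := by decide +kernel

noncomputable def kxu321 : Pr := .mk (nat_lit 85) (nat_lit 86) (nat_lit 0) (nat_lit 512)

theorem kx321 : AP.runP optN (pjO PT.D spT PT.ps Cz.tt rtT Cz.tp) kxu321 = true := by decide +kernel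

noncomputable def kxu322 : Pr := .mk (nat_lit 86) (nat_lit 87) (nat_lit 0) (nat_lit 9)

theorem kx322 : AP.runP optN (pjO PT.D spT PT.ps Cz.tt rtT Cz.tp) kxu322 = true := by decide +kernel

noncomputable def kxu323 : Pr := .mk (nat_lit 86) (nat_lit 87) (nat_lit 9) (nat_lit 11)

theorem kx323 : AP.runP optN (pjO PT.D spT PT.ps Cz.tt rtT Cz.tp) kxu323 = true := by decide +kernel


end Pool.Agent.Lib.MP_5854e1_co.Cz
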