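import Pool.Agent.Lib.MP_5854e1_co.Cz.P

/-!
# The listed shares of the triangles
-/

set_option autoImplicit false
set_option maxRecDepth 100000
set_option deprecated.oldSectionVars true

namespace Pool.Agent.Lib.MP_5854e1_co.Cz

open Pool.Agent.Lib.MP_5854e1_co PB

noncomputable def kxu162 : Pr := .mk (nat_lit 24) (nat_lit 25) (nat_lit 13) (nat_lit 16)

theorem kx162 : AP.runP optN (pjO PT.D spT PT.ps Cz.tt rtT Cz.tp) kxu162 = true := by decide +kernel

noncomputable def kxu163 : Pr := .mk (nat_lit 24) (nat_lit 25) (nat_lit 16) (nat_lit 512)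

theorem kx163 : AP.runP optN (pjO PT.D spT PT.ps Cz.tt rtT Cz.tp) kxu163 = true := by decide +kernel

noncomputable def kxu164 : Pr := .mk (nat_lit 25) (nat_lit 26) (nat_lit 0) (nat_lit 17)

theorem kx164 : AP.runP optN (pjO PT.D spT PT.ps Cz.tt rtT Cz.tp) kxu164 = true := by decide +kernel

noncomputable def kxu165 : Pr := .mk (nat_lit 25) (nat_lit 26) (nat_lit 17) (nat_lit 22)

theorem kx165 : AP.runP optN (pjO PT.D spT PT.ps Cz.tt rtT Cz.tp) kxu165 = true := by decide +kernel

noncomputable def kxu166 : Pr := .mk (nat_lit 25) (nat_lit 26) (nat_lit 22) (nat_lit 26)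

theorem kx166 : AP.runP optN (pjO PT.D spT PT.ps Cz.tt rtT Cz.tp) kxu166 = true := by decide +kernel


end Pool.Agent.Lib.MP_5854e1_co.Cz

namespace Pool.Agent.Lib.MP_5854e1_co.Cz

open Pool.Agent.Lib.MP_5854e1_co PB

noncomputable def kxu268 : Pr := .mk (nat_lit 55) (nat_lit 56) (nat_lit 0) (nat_lit 2)

theorem kx268 : AP.runP optN (pjO PT.D spT PT.ps Cz.tt rtT Cz.tp) kxu268 = true := by decide +kernel

noncomputable def kxu269 : Pr := .mk (nat_lit 55) (nat_lit 56) (nat_lit 2) (nat_lit 13)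

theorem kx269 : AP.runP optN (pjO PT.D spT PT.ps Cz.tt rtT Cz.tp) kxu269 = true := by decide +kernel

noncomputable def kxu270 : Pr := .mk (nat_lit 55) (nat_lit 56) (nat_lit 13) (nat_lit 512)

theorem kx270 : AP.runP optN (pjO PT.D spT PT.ps Cz.tt rtT Cz.tp) kxu270 = true := by decide +kernel

noncomputable def kxu271 : Pr := .mk (nat_lit 56) (nat_lit 57) (nat_lit 0) (nat_lit 512)

theorem kx271 : AP.runP optN (pjO PT.D spT PT.ps Cz.tt rtT Cz.tp) kxu271 = true := by decide +kernel


end Pool.Agent.Lib.MP_5854e1_co.Cz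

namespace Pool.Agent.Lib.MP_5854e1_co.Cz

open Pool.Agent.Lib.MP_5854e1_co PB

noncomputable def kxu310 : Pr := .mk (nat_lit 70) (nat_lit 71) (nat_lit 13) (nat_lit 15)

theorem kx310 : AP.runP optN (pjO PT.D spT PT.ps Cz.tt rtT Cz.tp) kxu310 = true := by decide +kernel

noncomputable def kxu311 : Pr := .mk (nat_lit 70) (nat_lit 71) (nat_lit 15) (nat_lit 512)

theorem kx311 : AP.runP optN (pjO PT.D spT PT.ps Cz.tt rtT Cz.tp) kxu311 = true := by decide +kernel

noncomputable def kxu312 : Pr := .mk (nat_lit 71) (nat_lit 77) (nat_lit 0) (nat_lit 512)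

theorem kx312 : AP.runP optN (pjO PT.D spT PT.ps Cz.tt rtT Cz.tp) kxu312 = true := by decide +kernel

noncomputable def kxu313 : Pr := .mk (nat_lit 77) (nat_lit 78) (nat_lit 0) (nat_lit 512)

theorem kx313 : AP.runP optN (pjO PT.D spT PT.ps Cz.tt rtT Cz.tp) kxu313 = true := by decide +kernel

noncomputable def kxu314 : Pr := .mk (nat_lit 78) (nat_lit 79) (nat_lit 0) (nat_lit 18)

theorem kx314 : AP.runP optN (pjO PT.D spT PT.ps Cz.tt rtT Cz.tp) kxu314 = true := by decide +kernel

noncomputable def kxu315 : Pr := .mk (nat_lit 78) (nat_lit 79) (nat_lit 18) (nat_lit 512)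

theorem kx315 : AP.runP optN (pjO PT.D spT PT.ps Cz.tt rtT Cz.tp) kxu315 = true := by decide +kernel


end Pool.Agent.Lib.MP_5854e1_co.Cz
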