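import Pool.Agent.Lib.MP_5854e1_co.Cz.P

/-!
# The listed shares of the triangles
-/

set_option autoImplicit false
set_option maxRecDepth 100000
set_option deprecated.oldSectionVars true

namespace Pool.Agent.Lib.MP_5854e1_co.Cz

open Pool.Agent.Lib.MP_5854e1_co PB

noncomputable def kxu16 : Pr := .mk (nat_lit 0) (nat_lit 1) (nat_lit 95) (nat_lit 103)

theorem kx16 : AP.runP optN (pjO PT.D spT PT.ps Cz.tt rtT Cz.tp) kxu16 = true := by decide +kernel

noncomputable def kxu17 : Pr := .mk (nat_lit 0) (nat_lit 1) (nat_lit 103) (nat_lit 108)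

theorem kx17 : AP.runP optN (pjO PT.D spT PT.ps Cz.tt rtT Cz.tp) kxu17 = true := by decide +kernel

noncomputable def kxu18 : Pr := .mk (nat_lit 0) (nat_lit 1) (nat_lit 108) (nat_lit 109)

theorem kx18 : AP.runP optN (pjO PT.D spT PT.ps Cz.tt rtT Cz.tp) kxu18 = true := by decide +kernel

noncomputable def kxu19 : Pr := .mk (nat_lit 0) (nat_lit 1) (nat_lit 109) (nat_lit 111)

theorem kx19 : AP.runP optN (pjO PT.D spT PT.ps Cz.tt rtT Cz.tp) kxu19 = true := by decide +kernel


end Pool.Agent.Lib.MP_5854e1_co.Cz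

namespace Pool.Agent.Lib.MP_5854e1_co.Cz

open Pool.Agent.Lib.MP_5854e1_co PB

noncomputable def kxu40 : Pr := .mk (nat_lit 0) (nat_lit 1) (nat_lit 187) (nat_lit 190)

theorem kx40 : AP.runP optN (pjO PT.D spT PT.ps Cz.tt rtT Cz.tp) kxu40 = true := by decide +kernel

noncomputable def kxu41 : Pr := .mk (nat_lit 0) (nat_lit 1) (nat_lit 190) (nat_lit 191)

theorem kx41 : AP.runP optN (pjO PT.D spT PT.ps Cz.tt rtT Cz.tp) kxu41 = true := by decide +kernel

noncomputable def kxu42 : Pr := .mk (nat_lit 0) (nat_lit 1) (nat_lit 191) (nat_lit 193)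

theorem kx42 : AP.runP optN (pjO PT.D spT PT.ps Cz.tt rtT Cz.tp) kxu42 = true := by decide +kernel

noncomputable def kxu43 : Pr := .mk (nat_lit 0) (nat_lit 1) (nat_lit 193) (nat_lit 199)

theorem kx43 : AP.runP optN (pjO PT.D spT PT.ps Cz.tt rtT Cz.tp) kxu43 = true := by decide +kernel

noncomputable def kxu44 : Pr := .mk (nat_lit 0) (nat_lit 1) (nat_lit 199) (nat_lit 202)

theorem kx44 : AP.runP optN (pjO PT.D spT PT.ps Cz.tt rtT Cz.tp) kxu44 = true := by decide +kernel


end Pool.Agent.Lib.MP_5854e1_co.Cz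

namespace Pool.Agent.Lib.MP_5854e1_co.Cz

open Pool.Agent.Lib.MP_5854e1_co PB

noncomputable def kxu259 : Pr := .mk (nat_lit 53) (nat_lit 54) (nat_lit 0) (nat_lit 18)

theorem kx259 : AP.runP optN (pjO PT.D spT PT.ps Cz.tt rtT Cz.tp) kxu259 = true := by decide +kernel

noncomputable def kxu260 : Pr := .mk (nat_lit 53) (nat_lit 54) (nat_lit 18) (nat_lit 22)

theorem kx260 : AP.runP optN (pjO PT.D spT PT.ps Cz.tt rtT Cz.tp) kxu260 = true := by decide +kernel

noncomputable def kxu261 : Pr := .mk (nat_lit 53) (nat_lit 54) (nat_lit 22) (nat_lit 28)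

theorem kx261 : AP.runP optN (pjO PT.D spT PT.ps Cz.tt rtT Cz.tp) kxu261 = true := by decide +kernel

noncomputable def kxu262 : Pr := .mk (nat_lit 53) (nat_lit 54) (nat_lit 28) (nat_lit 39)

theorem kx262 : AP.runP optN (pjO PT.D spT PT.ps Cz.tt rtT Cz.tp) kxu262 = true := by decide +kernel


end Pool.Agent.Lib.MP_5854e1_co.Cz
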