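import Pool.Agent.Lib.MP_5854e1_co.Cz.P

/-!
# The listed shares of the triangles
-/

set_option autoImplicit false
set_option maxRecDepth 100000
set_option deprecated.oldSectionVars true

namespace Pool.Agent.Lib.MP_5854e1_co.Cz

open Pool.Agent.Lib.MP_5854e1_co PB

noncomputable def kxu204 : Pr := .mk (nat_lit 41) (nat_lit 42) (nat_lit 19) (nat_lit 27)

theorem kx204 : AP.runP optN (pjO PT.D spT PT.ps Cz.tt rtT Cz.tp) kxu204 = true := by decide +kernel

noncomputable def kxu205 : Pr := .mk (nat_lit 41) (nat_lit 42) (nat_lit 27) (nat_lit 28)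

theorem kx205 : AP.runP optN (pjO PT.D spT PT.ps Cz.tt rtT Cz.tp) kxu205 = true := by decide +kernel

noncomputable def kxu206 : Pr := .mk (nat_lit 41) (nat_lit 42) (nat_lit 28) (nat_lit 30)

theorem kx206 : AP.runP optN (pjO PT.D spT PT.ps Cz.tt rtT Cz.tp) kxu206 = true := by decide +kernel

noncomputable def kxu207 : Pr := .mk (nat_lit 41) (nat_lit 42) (nat_lit 30) (nat_lit 34)

theorem kx207 : AP.runP optN (pjO PT.D spT PT.ps Cz.tt rtT Cz.tp) kxu207 = true := by decide +kernel

noncomputable def kxu208 : Pr := .mk (nat_lit 41) (nat_lit 42) (nat_lit 34) (nat_lit 512)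

theorem kx208 : AP.runP optN (pjO PT.D spT PT.ps Cz.tt rtT Cz.tp) kxu208 = true := by decide +kernel


end Pool.Agent.Lib.MP_5854e1_co.Cz

namespace Pool.Agent.Lib.MP_5854e1_co.Cz

open Pool.Agent.Lib.MP_5854e1_co PB

noncomputable def kxu250 : Pr := .mk (nat_lit 52) (nat_lit 53) (nat_lit 13) (nat_lit 14)

theorem kx250 : AP.runP optN (pjO PT.D spT PT.ps Cz.tt rtT Cz.tp) kxu250 = true := by decide +kernel

noncomputable def kxu251 : Pr := .mk (nat_lit 52) (nat_lit 53) (nat_lit 14) (nat_lit 15)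

theorem kx251 : AP.runP optN (pjO PT.D spT PT.ps Cz.tt rtT Cz.tp) kxu251 = true := by decide +kernel

noncomputable def kxu252 : Pr := .mk (nat_lit 52) (nat_lit 53) (nat_lit 15) (nat_lit 16)

theorem kx252 : AP.runP optN (pjO PT.D spT PT.ps Cz.tt rtT Cz.tp) kxu252 = true := by decide +kernel

noncomputable def kxu253 : Pr := .mk (nat_lit 52) (nat_lit 53) (nat_lit 16) (nat_lit 19)

theorem kx253 : AP.runP optN (pjO PT.D spT PT.ps Cz.tt rtT Cz.tp) kxu253 = true := by decide +kernel


end Pool.Agent.Lib.MP_5854e1_co.Cz
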