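import Pool.Agent.Lib.MP_5854e1_co.Cz.P

/-!
# The listed shares of the triangles
-/

set_option autoImplicit false
set_option maxRecDepth 100000
set_option deprecated.oldSectionVars true

namespace Pool.Agent.Lib.MP_5854e1_co.Cz

open Pool.Agent.Lib.MP_5854e1_co PB

noncomputable def kxu213 : Pr := .mk (nat_lit 42) (nat_lit 43) (nat_lit 40) (nat_lit 512)

theorem kx213 : AP.runP optN (pjO PT.D spT PT.ps Cz.tt rtT Cz.tp) kxu213 = true := by decide +kernel

noncomputable def kxu214 : Pr := .mk (nat_lit 43) (nat_lit 44) (nat_lit 0) (nat_lit 11)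

theorem kx214 : AP.runP optN (pjO PT.D spT PT.ps Cz.tt rtT Cz.tp) kxu214 = true := by decide +kernel

noncomputable def kxu215 : Pr := .mk (nat_lit 43) (nat_lit 44) (nat_lit 11) (nat_lit 20)

theorem kx215 : AP.runP optN (pjO PT.D spT PT.ps Cz.tt rtT Cz.tp) kxu215 = true := by decide +kernel

noncomputable def kxu216 : Pr := .mk (nat_lit 43) (nat_lit 44) (nat_lit 20) (nat_lit 23)

theorem kx216 : AP.runP optN (pjO PT.D spT PT.ps Cz.tt rtT Cz.tp) kxu216 = true := by decide +kernel

noncomputable def kxu217 : Pr := .mk (nat_lit 43) (nat_lit 44) (nat_lit 23) (nat_lit 512)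

theorem kx217 : AP.runP optN (pjO PT.D spT PT.ps Cz.tt rtT Cz.tp) kxu217 = true := by decide +kernel


end Pool.Agent.Lib.MP_5854e1_co.Cz

namespace Pool.Agent.Lib.MP_5854e1_co.Cz

open Pool.Agent.Lib.MP_5854e1_co PB

noncomputable def kxu263 : Pr := .mk (nat_lit 53) (nat_lit 54) (nat_lit 39) (nat_lit 512)

theorem kx263 : AP.runP optN (pjO PT.D spT PT.ps Cz.tt rtT Cz.tp) kxu263 = true := by decide +kernel

noncomputable def kxu264 : Pr := .mk (nat_lit 54) (nat_lit 55) (nat_lit 0) (nat_lit 11)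

theorem kx264 : AP.runP optN (pjO PT.D spT PT.ps Cz.tt rtT Cz.tp) kxu264 = true := by decide +kernel

noncomputable def kxu265 : Pr := .mk (nat_lit 54) (nat_lit 55) (nat_lit 11) (nat_lit 20)

theorem kx265 : AP.runP optN (pjO PT.D spT PT.ps Cz.tt rtT Cz.tp) kxu265 = true := by decide +kernel

noncomputable def kxu266 : Pr := .mk (nat_lit 54) (nat_lit 55) (nat_lit 20) (nat_lit 23)

theorem kx266 : AP.runP optN (pjO PT.D spT PT.ps Cz.tt rtT Cz.tp) kxu266 = true := by decide +kernel

noncomputable def kxu267 : Pr := .mk (nat_lit 54) (nat_lit 55) (nat_lit 23) (nat_lit 512)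

theorem kx267 : AP.runP optN (pjO PT.D spT PT.ps Cz.tt rtT Cz.tp) kxu267 = true := by decide +kernel


end Pool.Agent.Lib.MP_5854e1_co.Cz

namespace Pool.Agent.Lib.MP_5854e1_co.Cz

open Pool.Agent.Lib.MP_5854e1_co PB

noncomputable def kxu301 : Pr := .mk (nat_lit 67) (nat_lit 68) (nat_lit 0) (nat_lit 18)

theorem kx301 : AP.runP optN (pjO PT.D spT PT.ps Cz.tt rtT Cz.tp) kxu301 = true := by decide +kernel

noncomputable def kxu302 : Pr := .mk (nat_lit 67) (nat_lit 68) (nat_lit 18) (nat_lit 512)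

theorem kx302 : AP.runP optN (pjO PT.D spT PT.ps Cz.tt rtT Cz.tp) kxu302 = true := by decide +kernel

noncomputable def kxu303 : Pr := .mk (nat_lit 68) (nat_lit 69) (nat_lit 0) (nat_lit 11)

theorem kx303 : AP.runP optN (pjO PT.D spT PT.ps Cz.tt rtT Cz.tp) kxu303 = true := by decide +kernel

noncomputable def kxu304 : Pr := .mk (nat_lit 68) (nat_lit 69) (nat_lit 11) (nat_lit 13)

theorem kx304 : AP.runP optN (pjO PT.D spT PT.ps Cz.tt rtT Cz.tp) kxu304 = true := by decide +kernel


end Pool.Agent.Lib.MP_5854e1_co.Cz
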