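import Pool.Agent.Lib.MP_5854e1_co.Cz.P

/-!
# The listed shares of the triangles
-/

set_option autoImplicit false
set_option maxRecDepth 100000
set_option deprecated.oldSectionVars true

namespace Pool.Agent.Lib.MP_5854e1_co.Cz

open Pool.Agent.Lib.MP_5854e1_co PB

noncomputable def kxu20 : Pr := .mk (nat_lit 0) (nat_lit 1) (nat_lit 111) (nat_lit 114)

theorem kx20 : AP.runP optN (pjO PT.D spT PT.ps Cz.tt rtT Cz.tp) kxu20 = true := by decide +kernel

noncomputable def kxu21 : Pr := .mk (nat_lit 0) (nat_lit 1) (nat_lit 114) (nat_lit 115)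

theorem kx21 : AP.runP optN (pjO PT.D spT PT.ps Cz.tt rtT Cz.tp) kxu21 = true := by decide +kernel

noncomputable def kxu22 : Pr := .mk (nat_lit 0) (nat_lit 1) (nat_lit 115) (nat_lit 117)

theorem kx22 : AP.runP optN (pjO PT.D spT PT.ps Cz.tt rtT Cz.tp) kxu22 = true := by decide +kernel

noncomputable def kxu23 : Pr := .mk (nat_lit 0) (nat_lit 1) (nat_lit 117) (nat_lit 123)

theorem kx23 : AP.runP optN (pjO PT.D spT PT.ps Cz.tt rtT Cz.tp) kxu23 = true := by decide +kernel


end Pool.Agent.Lib.MP_5854e1_co.Cz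

namespace Pool.Agent.Lib.MP_5854e1_co.Cz

open Pool.Agent.Lib.MP_5854e1_co PB

noncomputable def kxu125 : Pr := .mk (nat_lit 14) (nat_lit 15) (nat_lit 0) (nat_lit 23)

theorem kx125 : AP.runP optN (pjO PT.D spT PT.ps Cz.tt rtT Cz.tp) kxu125 = true := by decide +kernel

noncomputable def kxu126 : Pr := .mk (nat_lit 14) (nat_lit 15) (nat_lit 23) (nat_lit 512)

theorem kx126 : AP.runP optN (pjO PT.D spT PT.ps Cz.tt rtT Cz.tp) kxu126 = true := by decide +kernel

noncomputable def kxu127 : Pr := .mk (nat_lit 15) (nat_lit 16) (nat_lit 0) (nat_lit 245)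

theorem kx127 : AP.runP optN (pjO PT.D spT PT.ps Cz.tt rtT Cz.tp) kxu127 = true := by decide +kernel

noncomputable def kxu128 : Pr := .mk (nat_lit 15) (nat_lit 16) (nat_lit 245) (nat_lit 275)

theorem kx128 : AP.runP optN (pjO PT.D spT PT.ps Cz.tt rtT Cz.tp) kxu128 = true := by decide +kernel

noncomputable def kxu129 : Pr := .mk (nat_lit 15) (nat_lit 16) (nat_lit 275) (nat_lit 512)

theorem kx129 : AP.runP optN (pjO PT.D spT PT.ps Cz.tt rtT Cz.tp) kxu129 = true := by decide +kernel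


end Pool.Agent.Lib.MP_5854e1_co.Cz

namespace Pool.Agent.Lib.MP_5854e1_co.Cz

open Pool.Agent.Lib.MP_5854e1_co PB

noncomputable def kxu157 : Pr := .mk (nat_lit 23) (nat_lit 24) (nat_lit 20) (nat_lit 21)

theorem kx157 : AP.runP optN (pjO PT.D spT PT.ps Cz.tt rtT Cz.tp) kxu157 = true := by decide +kernel

noncomputable def kxu158 : Pr := .mk (nat_lit 23) (nat_lit 24) (nat_lit 21) (nat_lit 24)

theorem kx158 : AP.runP optN (pjO PT.D spT PT.ps Cz.tt rtT Cz.tp) kxu158 = true := by decide +kernel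

noncomputable def kxu159 : Pr := .mk (nat_lit 23) (nat_lit 24) (nat_lit 24) (nat_lit 512)

theorem kx159 : AP.runP optN (pjO PT.D spT PT.ps Cz.tt rtT Cz.tp) kxu159 = true := by decide +kernel

noncomputable def kxu160 : Pr := .mk (nat_lit 24) (nat_lit 25) (nat_lit 0) (nat_lit 11)

theorem kx160 : AP.runP optN (pjO PT.D spT PT.ps Cz.tt rtT Cz.tp) kxu160 = true := by decide +kernel

noncomputable def kxu161 : Pr := .mk (nat_lit 24) (nat_lit 25) (nat_lit 11) (nat_lit 13)

theorem kx161 : AP.runP optN (pjO PT.D spT PT.ps Cz.tt rtT Cz.tp) kxu161 = true := by decide +kernel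


end Pool.Agent.Lib.MP_5854e1_co.Cz
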