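import Pool.Agent.Lib.MP_5854e1_co.Cz.P

/-!
# The listed shares of the triangles
-/

set_option autoImplicit false
set_option maxRecDepth 100000
set_option deprecated.oldSectionVars true

namespace Pool.Agent.Lib.MP_5854e1_co.Cz

open Pool.Agent.Lib.MP_5854e1_co PB

noncomputable def kxu227 : Pr := .mk (nat_lit 47) (nat_lit 48) (nat_lit 51) (nat_lit 512)

theorem kx227 : AP.runP optN (pjO PT.D spT PT.ps Cz.tt rtT Cz.tp) kxu227 = true := by decide +kernel

noncomputable def kxu228 : Pr := .mk (nat_lit 48) (nat_lit 49) (nat_lit 0) (nat_lit 17)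

theorem kx228 : AP.runP optN (pjO PT.D spT PT.ps Cz.tt rtT Cz.tp) kxu228 = true := by decide +kernel

noncomputable def kxu229 : Pr := .mk (nat_lit 48) (nat_lit 49) (nat_lit 17) (nat_lit 18)

theorem kx229 : AP.runP optN (pjO PT.D spT PT.ps Cz.tt rtT Cz.tp) kxu229 = true := by decide +kernel

noncomputable def kxu230 : Pr := .mk (nat_lit 48) (nat_lit 49) (nat_lit 18) (nat_lit 23)

theorem kx230 : AP.runP optN (pjO PT.D spT PT.ps Cz.tt rtT Cz.tp) kxu230 = true := by decide +kernel

noncomputable def kxu231 : Pr := .mk (nat_lit 48) (nat_lit 49) (nat_lit 23) (nat_lit 24)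

theorem kx231 : AP.runP optN (pjO PT.D spT PT.ps Cz.tt rtT Cz.tp) kxu231 = true := by decide +kernel


end Pool.Agent.Lib.MP_5854e1_co.Cz

namespace Pool.Agent.Lib.MP_5854e1_co.Cz

open Pool.Agent.Lib.MP_5854e1_co PB

noncomputable def kxu277 : Pr := .mk (nat_lit 58) (nat_lit 59) (nat_lit 42) (nat_lit 512)

theorem kx277 : AP.runP optN (pjO PT.D spT PT.ps Cz.tt rtT Cz.tp) kxu277 = true := by decide +kernel

noncomputable def kxu278 : Pr := .mk (nat_lit 59) (nat_lit 60) (nat_lit 0) (nat_lit 17)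

theorem kx278 : AP.runP optN (pjO PT.D spT PT.ps Cz.tt rtT Cz.tp) kxu278 = true := by decide +kernel

noncomputable def kxu279 : Pr := .mk (nat_lit 59) (nat_lit 60) (nat_lit 17) (nat_lit 18)

theorem kx279 : AP.runP optN (pjO PT.D spT PT.ps Cz.tt rtT Cz.tp) kxu279 = true := by decide +kernel

noncomputable def kxu280 : Pr := .mk (nat_lit 59) (nat_lit 60) (nat_lit 18) (nat_lit 23)

theorem kx280 : AP.runP optN (pjO PT.D spT PT.ps Cz.tt rtT Cz.tp) kxu280 = true := by decide +kernel

noncomputable def kxu281 : Pr := .mk (nat_lit 59) (nat_lit 60) (nat_lit 23) (nat_lit 24)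

theorem kx281 : AP.runP optN (pjO PT.D spT PT.ps Cz.tt rtT Cz.tp) kxu281 = true := by decide +kernel


end Pool.Agent.Lib.MP_5854e1_co.Cz
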