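import Pool.Agent.Lib.MP_5854e1_co.Cz.P

/-!
# The listed shares of the triangles
-/

set_option autoImplicit false
set_option maxRecDepth 100000
set_option deprecated.oldSectionVars true

namespace Pool.Agent.Lib.MP_5854e1_co.Cz

open Pool.Agent.Lib.MP_5854e1_co PB

noncomputable def kxu24 : Pr := .mk (nat_lit 0) (nat_lit 1) (nat_lit 123) (nat_lit 126)

theorem kx24 : AP.runP optN (pjO PT.D spT PT.ps Cz.tt rtT Cz.tp) kxu24 = true := by decide +kernel

noncomputable def kxu25 : Pr := .mk (nat_lit 0) (nat_lit 1) (nat_lit 126) (nat_lit 138)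

theorem kx25 : AP.runP optN (pjO PT.D spT PT.ps Cz.tt rtT Cz.tp) kxu25 = true := by decide +kernel

noncomputable def kxu26 : Pr := .mk (nat_lit 0) (nat_lit 1) (nat_lit 138) (nat_lit 142)

theorem kx26 : AP.runP optN (pjO PT.D spT PT.ps Cz.tt rtT Cz.tp) kxu26 = true := by decide +kernel

noncomputable def kxu27 : Pr := .mk (nat_lit 0) (nat_lit 1) (nat_lit 142) (nat_lit 149)

theorem kx27 : AP.runP optN (pjO PT.D spT PT.ps Cz.tt rtT Cz.tp) kxu27 = true := by decide +kernel


end Pool.Agent.Lib.MP_5854e1_co.Cz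

namespace Pool.Agent.Lib.MP_5854e1_co.Cz

open Pool.Agent.Lib.MP_5854e1_co PB

noncomputable def kxu181 : Pr := .mk (nat_lit 35) (nat_lit 36) (nat_lit 9) (nat_lit 15)

theorem kx181 : AP.runP optN (pjO PT.D spT PT.ps Cz.tt rtT Cz.tp) kxu181 = true := by decide +kernel

noncomputable def kxu182 : Pr := .mk (nat_lit 35) (nat_lit 36) (nat_lit 15) (nat_lit 512)

theorem kx182 : AP.runP optN (pjO PT.D spT PT.ps Cz.tt rtT Cz.tp) kxu182 = true := by decide +kernel

noncomputable def kxu183 : Pr := .mk (nat_lit 36) (nat_lit 37) (nat_lit 0) (nat_lit 512)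

theorem kx183 : AP.runP optN (pjO PT.D spT PT.ps Cz.tt rtT Cz.tp) kxu183 = true := by decide +kernel

noncomputable def kxu184 : Pr := .mk (nat_lit 37) (nat_lit 38) (nat_lit 0) (nat_lit 9)

theorem kx184 : AP.runP optN (pjO PT.D spT PT.ps Cz.tt rtT Cz.tp) kxu184 = true := by decide +kernel

noncomputable def kxu185 : Pr := .mk (nat_lit 37) (nat_lit 38) (nat_lit 9) (nat_lit 15)

theorem kx185 : AP.runP optN (pjO PT.D spT PT.ps Cz.tt rtT Cz.tp) kxu185 = true := by decide +kernel


end Pool.Agent.Lib.MP_5854e1_co.Cz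

namespace Pool.Agent.Lib.MP_5854e1_co.Cz

open Pool.Agent.Lib.MP_5854e1_co PB

noncomputable def kxu282 : Pr := .mk (nat_lit 59) (nat_lit 60) (nat_lit 24) (nat_lit 27)

theorem kx282 : AP.runP optN (pjO PT.D spT PT.ps Cz.tt rtT Cz.tp) kxu282 = true := by decide +kernel

noncomputable def kxu283 : Pr := .mk (nat_lit 59) (nat_lit 60) (nat_lit 27) (nat_lit 512)

theorem kx283 : AP.runP optN (pjO PT.D spT PT.ps Cz.tt rtT Cz.tp) kxu283 = true := by decide +kernel

noncomputable def kxu284 : Pr := .mk (nat_lit 60) (nat_lit 61) (nat_lit 0) (nat_lit 9)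

theorem kx284 : AP.runP optN (pjO PT.D spT PT.ps Cz.tt rtT Cz.tp) kxu284 = true := by decide +kernel

noncomputable def kxu285 : Pr := .mk (nat_lit 60) (nat_lit 61) (nat_lit 9) (nat_lit 10)

theorem kx285 : AP.runP optN (pjO PT.D spT PT.ps Cz.tt rtT Cz.tp) kxu285 = true := by decide +kernel


end Pool.Agent.Lib.MP_5854e1_co.Cz
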