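import Pool.Agent.Lib.MP_5854e1_co.Cz.P

/-!
# The listed shares of the triangles
-/

set_option autoImplicit false
set_option maxRecDepth 100000
set_option deprecated.oldSectionVars true

namespace Pool.Agent.Lib.MP_5854e1_co.Cz

open Pool.Agent.Lib.MP_5854e1_co PB

noncomputable def kxu32 : Pr := .mk (nat_lit 0) (nat_lit 1) (nat_lit 164) (nat_lit 165)

theorem kx32 : AP.runP optN (pjO PT.D spT PT.ps Cz.tt rtT Cz.tp) kxu32 = true := by decide +kernel

noncomputable def kxu33 : Pr := .mk (nat_lit 0) (nat_lit 1) (nat_lit 165) (nat_lit 166)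

theorem kx33 : AP.runP optN (pjO PT.D spT PT.ps Cz.tt rtT Cz.tp) kxu33 = true := by decide +kernel

noncomputable def kxu34 : Pr := .mk (nat_lit 0) (nat_lit 1) (nat_lit 166) (nat_lit 167)

theorem kx34 : AP.runP optN (pjO PT.D spT PT.ps Cz.tt rtT Cz.tp) kxu34 = true := by decide +kernel

noncomputable def kxu35 : Pr := .mk (nat_lit 0) (nat_lit 1) (nat_lit 167) (nat_lit 171)

theorem kx35 : AP.runP optN (pjO PT.D spT PT.ps Cz.tt rtT Cz.tp) kxu35 = true := by decide +kernel


end Pool.Agent.Lib.MP_5854e1_co.Cz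

namespace Pool.Agent.Lib.MP_5854e1_co.Cz

open Pool.Agent.Lib.MP_5854e1_co PB

noncomputable def kxu167 : Pr := .mk (nat_lit 25) (nat_lit 26) (nat_lit 26) (nat_lit 27)

theorem kx167 : AP.runP optN (pjO PT.D spT PT.ps Cz.tt rtT Cz.tp) kxu167 = true := by decide +kernel

noncomputable def kxu168 : Pr := .mk (nat_lit 25) (nat_lit 26) (nat_lit 27) (nat_lit 30)

theorem kx168 : AP.runP optN (pjO PT.D spT PT.ps Cz.tt rtT Cz.tp) kxu168 = true := by decide +kernel

noncomputable def kxu169 : Pr := .mk (nat_lit 25) (nat_lit 26) (nat_lit 30) (nat_lit 512)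

theorem kx169 : AP.runP optN (pjO PT.D spT PT.ps Cz.tt rtT Cz.tp) kxu169 = true := by decide +kernel

noncomputable def kxu170 : Pr := .mk (nat_lit 26) (nat_lit 27) (nat_lit 0) (nat_lit 512)

theorem kx170 : AP.runP optN (pjO PT.D spT PT.ps Cz.tt rtT Cz.tp) kxu170 = true := by decide +kernel


end Pool.Agent.Lib.MP_5854e1_co.Cz
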