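import Pool.Agent.Lib.MP_5854e1_co.Cz.P

/-!
# The listed shares of the triangles
-/

set_option autoImplicit false
set_option maxRecDepth 100000
set_option deprecated.oldSectionVars true

namespace Pool.Agent.Lib.MP_5854e1_co.Cz

open Pool.Agent.Lib.MP_5854e1_co PB

noncomputable def kxu36 : Pr := .mk (nat_lit 0) (nat_lit 1) (nat_lit 171) (nat_lit 180)

theorem kx36 : AP.runP optN (pjO PT.D spT PT.ps Cz.tt rtT Cz.tp) kxu36 = true := by decide +kernel

noncomputable def kxu37 : Pr := .mk (nat_lit 0) (nat_lit 1) (nat_lit 180) (nat_lit 184)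

theorem kx37 : AP.runP optN (pjO PT.D spT PT.ps Cz.tt rtT Cz.tp) kxu37 = true := by decide +kernel

noncomputable def kxu38 : Pr := .mk (nat_lit 0) (nat_lit 1) (nat_lit 184) (nat_lit 185)

theorem kx38 : AP.runP optN (pjO PT.D spT PT.ps Cz.tt rtT Cz.tp) kxu38 = true := by decide +kernel

noncomputable def kxu39 : Pr := .mk (nat_lit 0) (nat_lit 1) (nat_lit 185) (nat_lit 187)

theorem kx39 : AP.runP optN (pjO PT.D spT PT.ps Cz.tt rtT Cz.tp) kxu39 = true := by decide +kernel


end Pool.Agent.Lib.MP_5854e1_co.Cz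

namespace Pool.Agent.Lib.MP_5854e1_co.Cz

open Pool.Agent.Lib.MP_5854e1_co PB

noncomputable def kxu45 : Pr := .mk (nat_lit 0) (nat_lit 1) (nat_lit 202) (nat_lit 210)

theorem kx45 : AP.runP optN (pjO PT.D spT PT.ps Cz.tt rtT Cz.tp) kxu45 = true := by decide +kernel

noncomputable def kxu46 : Pr := .mk (nat_lit 0) (nat_lit 1) (nat_lit 210) (nat_lit 216)

theorem kx46 : AP.runP optN (pjO PT.D spT PT.ps Cz.tt rtT Cz.tp) kxu46 = true := by decide +kernel

noncomputable def kxu47 : Pr := .mk (nat_lit 0) (nat_lit 1) (nat_lit 216) (nat_lit 225)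

theorem kx47 : AP.runP optN (pjO PT.D spT PT.ps Cz.tt rtT Cz.tp) kxu47 = true := by decide +kernel

noncomputable def kxu48 : Pr := .mk (nat_lit 0) (nat_lit 1) (nat_lit 225) (nat_lit 229)

theorem kx48 : AP.runP optN (pjO PT.D spT PT.ps Cz.tt rtT Cz.tp) kxu48 = true := by decide +kernel


end Pool.Agent.Lib.MP_5854e1_co.Cz

namespace Pool.Agent.Lib.MP_5854e1_co.Cz

open Pool.Agent.Lib.MP_5854e1_co PB

noncomputable def kxu236 : Pr := .mk (nat_lit 49) (nat_lit 50) (nat_lit 10) (nat_lit 13)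

theorem kx236 : AP.runP optN (pjO PT.D spT PT.ps Cz.tt rtT Cz.tp) kxu236 = true := by decide +kernel

noncomputable def kxu237 : Pr := .mk (nat_lit 49) (nat_lit 50) (nat_lit 13) (nat_lit 512)

theorem kx237 : AP.runP optN (pjO PT.D spT PT.ps Cz.tt rtT Cz.tp) kxu237 = true := by decide +kernel

noncomputable def kxu238 : Pr := .mk (nat_lit 50) (nat_lit 51) (nat_lit 0) (nat_lit 17)

theorem kx238 : AP.runP optN (pjO PT.D spT PT.ps Cz.tt rtT Cz.tp) kxu238 = true := by decide +kernel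

noncomputable def kxu239 : Pr := .mk (nat_lit 50) (nat_lit 51) (nat_lit 17) (nat_lit 18)

theorem kx239 : AP.runP optN (pjO PT.D spT PT.ps Cz.tt rtT Cz.tp) kxu239 = true := by decide +kernel

noncomputable def kxu240 : Pr := .mk (nat_lit 50) (nat_lit 51) (nat_lit 18) (nat_lit 512)

theorem kx240 : AP.runP optN (pjO PT.D spT PT.ps Cz.tt rtT Cz.tp) kxu240 = true := by decide +kernel


end Pool.Agent.Lib.MP_5854e1_co.Cz
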