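import Pool.Agent.Lib.MP_5854e1_co.Cz.P

/-!
# The rows of the rings
-/

set_option autoImplicit false
set_option maxRecDepth 100000
set_option deprecated.oldSectionVars true

namespace Pool.Agent.Lib.MP_5854e1_co.Cz

open Pool.Agent.Lib.MP_5854e1_co PB

theorem ytv000 : DT.all (wzR cT Cz.tj Cz.tp Cz.tv) Cz.tv000 = true := by decide +kernel

theorem ytv001 : DT.all (wzR cT Cz.tj Cz.tp Cz.tv) Cz.tv001 = true := by decide +kernel

theorem ytv002 : DT.all (wzR cT Cz.tj Cz.tp Cz.tv) Cz.tv002 = true := by decide +kernel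

theorem ytv003 : DT.all (wzR cT Cz.tj Cz.tp Cz.tv) Cz.tv003 = true := by decide +kernel


end Pool.Agent.Lib.MP_5854e1_co.Cz

namespace Pool.Agent.Lib.MP_5854e1_co.Cz

open Pool.Agent.Lib.MP_5854e1_co PB

theorem ytv648 : DT.all (wzR cT Cz.tj Cz.tp Cz.tv) Cz.tv648 = true := by decide +kernel

theorem ytv649 : DT.all (wzR cT Cz.tj Cz.tp Cz.tv) Cz.tv649 = true := by decide +kernel

theorem ytv650 : DT.all (wzR cT Cz.tj Cz.tp Cz.tv) Cz.tv650 = true := by decide +kernel

theorem ytv651 : DT.all (wzR cT Cz.tj Cz.tp Cz.tv) Cz.tv651 = true := by decide +kernel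

theorem ytv652 : DT.all (wzR cT Cz.tj Cz.tp Cz.tv) Cz.tv652 = true := by decide +kernel

theorem ytv653 : DT.all (wzR cT Cz.tj Cz.tp Cz.tv) Cz.tv653 = true := by decide +kernel

theorem ytv654 : DT.all (wzR cT Cz.tj Cz.tp Cz.tv) Cz.tv654 = true := by decide +kernel

theorem ytv655 : DT.all (wzR cT Cz.tj Cz.tp Cz.tv) Cz.tv655 = true := by decide +kernel

theorem ytv656 : DT.all (wzR cT Cz.tj Cz.tp Cz.tv) Cz.tv656 = true := by decide +kernel

theorem ytv657 : DT.all (wzR cT Cz.tj Cz.tp Cz.tv) Cz.tv657 = true := by decide +kernel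


end Pool.Agent.Lib.MP_5854e1_co.Cz
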