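import Pool.Agent.Lib.MP_5854e1_co.Cz.P

/-!
# The rows of the rings
-/

set_option autoImplicit false
set_option maxRecDepth 100000
set_option deprecated.oldSectionVars true

namespace Pool.Agent.Lib.MP_5854e1_co.Cz

open Pool.Agent.Lib.MP_5854e1_co PB

theorem ytv004 : DT.all (wzR cT Cz.tj Cz.tp Cz.tv) Cz.tv004 = true := by decide +kernel

theorem ytv005 : DT.all (wzR cT Cz.tj Cz.tp Cz.tv) Cz.tv005 = true := by decide +kernel

theorem ytv006 : DT.all (wzR cT Cz.tj Cz.tp Cz.tv) Cz.tv006 = true := by decide +kernel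


end Pool.Agent.Lib.MP_5854e1_co.Cz

namespace Pool.Agent.Lib.MP_5854e1_co.Cz

open Pool.Agent.Lib.MP_5854e1_co PB

theorem ytv1261 : DT.all (wzR cT Cz.tj Cz.tp Cz.tv) Cz.tv1261 = true := by decide +kernel

theorem ytv1262 : DT.all (wzR cT Cz.tj Cz.tp Cz.tv) Cz.tv1262 = true := by decide +kernel

theorem ytv1263 : DT.all (wzR cT Cz.tj Cz.tp Cz.tv) Cz.tv1263 = true := by decide +kernel

theorem ytv1264 : DT.all (wzR cT Cz.tj Cz.tp Cz.tv) Cz.tv1264 = true := by decide +kernel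

theorem ytv1265 : DT.all (wzR cT Cz.tj Cz.tp Cz.tv) Cz.tv1265 = true := by decide +kernel

theorem ytv1266 : DT.all (wzR cT Cz.tj Cz.tp Cz.tv) Cz.tv1266 = true := by decide +kernel

theorem ytv1267 : DT.all (wzR cT Cz.tj Cz.tp Cz.tv) Cz.tv1267 = true := by decide +kernel

theorem ytv1268 : DT.all (wzR cT Cz.tj Cz.tp Cz.tv) Cz.tv1268 = true := by decide +kernel

theorem ytv1269 : DT.all (wzR cT Cz.tj Cz.tp Cz.tv) Cz.tv1269 = true := by decide +kernel


end Pool.Agent.Lib.MP_5854e1_co.Cz
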