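import Pool.Agent.Lib.MP_5854e1_co.Cz.P

/-!
# The rows of the rings
-/

set_option autoImplicit false
set_option maxRecDepth 100000
set_option deprecated.oldSectionVars true

namespace Pool.Agent.Lib.MP_5854e1_co.Cz

open Pool.Agent.Lib.MP_5854e1_co PB

theorem ytv007 : DT.all (wzR cT Cz.tj Cz.tp Cz.tv) Cz.tv007 = true := by decide +kernel

theorem ytv008 : DT.all (wzR cT Cz.tj Cz.tp Cz.tv) Cz.tv008 = true := by decide +kernel

theorem ytv009 : DT.all (wzR cT Cz.tj Cz.tp Cz.tv) Cz.tv009 = true := by decide +kernel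

theorem ytv010 : DT.all (wzR cT Cz.tj Cz.tp Cz.tv) Cz.tv010 = true := by decide +kernel

theorem ytv011 : DT.all (wzR cT Cz.tj Cz.tp Cz.tv) Cz.tv011 = true := by decide +kernel

theorem ytv012 : DT.all (wzR cT Cz.tj Cz.tp Cz.tv) Cz.tv012 = true := by decide +kernel

theorem ytv013 : DT.all (wzR cT Cz.tj Cz.tp Cz.tv) Cz.tv013 = true := by decide +kernel

theorem ytv014 : DT.all (wzR cT Cz.tj Cz.tp Cz.tv) Cz.tv014 = true := by decide +kernel


end Pool.Agent.Lib.MP_5854e1_co.Cz
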