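import Pool.Agent.Lib.MP_5854e1_co.Cz.P

/-!
# The rows of the rings
-/

set_option autoImplicit false
set_option maxRecDepth 100000
set_option deprecated.oldSectionVars true

namespace Pool.Agent.Lib.MP_5854e1_co.Cz

open Pool.Agent.Lib.MP_5854e1_co PB

theorem ytv015 : DT.all (wzR cT Cz.tj Cz.tp Cz.tv) Cz.tv015 = true := by decide +kernel

theorem ytv016 : DT.all (wzR cT Cz.tj Cz.tp Cz.tv) Cz.tv016 = true := by decide +kernel

theorem ytv017 : DT.all (wzR cT Cz.tj Cz.tp Cz.tv) Cz.tv017 = true := by decide +kernel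

theorem ytv018 : DT.all (wzR cT Cz.tj Cz.tp Cz.tv) Cz.tv018 = true := by decide +kernel

theorem ytv019 : DT.all (wzR cT Cz.tj Cz.tp Cz.tv) Cz.tv019 = true := by decide +kernel

theorem ytv020 : DT.all (wzR cT Cz.tj Cz.tp Cz.tv) Cz.tv020 = true := by decide +kernel

theorem ytv021 : DT.all (wzR cT Cz.tj Cz.tp Cz.tv) Cz.tv021 = true := by decide +kernel

theorem ytv022 : DT.all (wzR cT Cz.tj Cz.tp Cz.tv) Cz.tv022 = true := by decide +kernel

theorem ytv023 : DT.all (wzR cT Cz.tj Cz.tp Cz.tv) Cz.tv023 = true := by decide +kernel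


end Pool.Agent.Lib.MP_5854e1_co.Cz

namespace Pool.Agent.Lib.MP_5854e1_co.Cz

open Pool.Agent.Lib.MP_5854e1_co PB

theorem ytv1836 : DT.all (wzR cT Cz.tj Cz.tp Cz.tv) Cz.tv1836 = true := by decide +kernel

theorem ytv1837 : DT.all (wzR cT Cz.tj Cz.tp Cz.tv) Cz.tv1837 = true := by decide +kernel

theorem ytv1838 : DT.all (wzR cT Cz.tj Cz.tp Cz.tv) Cz.tv1838 = true := by decide +kernel

theorem ytv1839 : DT.all (wzR cT Cz.tj Cz.tp Cz.tv) Cz.tv1839 = true := by decide +kernel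


end Pool.Agent.Lib.MP_5854e1_co.Cz
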