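import Pool.Agent.Lib.MP_5854e1_co.Cz.P

/-!
# The rows of the rings
-/

set_option autoImplicit false
set_option maxRecDepth 100000
set_option deprecated.oldSectionVars true

namespace Pool.Agent.Lib.MP_5854e1_co.Cz

open Pool.Agent.Lib.MP_5854e1_co PB

theorem ytv024 : DT.all (wzR cT Cz.tj Cz.tp Cz.tv) Cz.tv024 = true := by decide +kernel

theorem ytv025 : DT.all (wzR cT Cz.tj Cz.tp Cz.tv) Cz.tv025 = true := by decide +kernel

theorem ytv026 : DT.all (wzR cT Cz.tj Cz.tp Cz.tv) Cz.tv026 = true := by decide +kernel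

theorem ytv027 : DT.all (wzR cT Cz.tj Cz.tp Cz.tv) Cz.tv027 = true := by decide +kernel

theorem ytv028 : DT.all (wzR cT Cz.tj Cz.tp Cz.tv) Cz.tv028 = true := by decide +kernel

theorem ytv029 : DT.all (wzR cT Cz.tj Cz.tp Cz.tv) Cz.tv029 = true := by decide +kernel

theorem ytv030 : DT.all (wzR cT Cz.tj Cz.tp Cz.tv) Cz.tv030 = true := by decide +kernel

theorem ytv031 : DT.all (wzR cT Cz.tj Cz.tp Cz.tv) Cz.tv031 = true := by decide +kernel


end Pool.Agent.Lib.MP_5854e1_co.Cz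

namespace Pool.Agent.Lib.MP_5854e1_co.Cz

open Pool.Agent.Lib.MP_5854e1_co PB

theorem ytv2676 : DT.all (wzR cT Cz.tj Cz.tp Cz.tv) Cz.tv2676 = true := by decide +kernel

theorem ytv2677 : DT.all (wzR cT Cz.tj Cz.tp Cz.tv) Cz.tv2677 = true := by decide +kernel

theorem ytv2678 : DT.all (wzR cT Cz.tj Cz.tp Cz.tv) Cz.tv2678 = true := by decide +kernel

theorem ytv2679 : DT.all (wzR cT Cz.tj Cz.tp Cz.tv) Cz.tv2679 = true := by decide +kernel

theorem ytv2680 : DT.all (wzR cT Cz.tj Cz.tp Cz.tv) Cz.tv2680 = true := by decide +kernel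

theorem ytv2681 : DT.all (wzR cT Cz.tj Cz.tp Cz.tv) Cz.tv2681 = true := by decide +kernel

theorem ytv2682 : DT.all (wzR cT Cz.tj Cz.tp Cz.tv) Cz.tv2682 = true := by decide +kernel

theorem ytv2683 : DT.all (wzR cT Cz.tj Cz.tp Cz.tv) Cz.tv2683 = true := by decide +kernel

theorem ytv2684 : DT.all (wzR cT Cz.tj Cz.tp Cz.tv) Cz.tv2684 = true := by decide +kernel


end Pool.Agent.Lib.MP_5854e1_co.Cz
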