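import Pool.Agent.Lib.MP_5854e1_co.Cz.P

/-!
# The rows of the rings
-/

set_option autoImplicit false
set_option maxRecDepth 100000
set_option deprecated.oldSectionVars true

namespace Pool.Agent.Lib.MP_5854e1_co.Cz

open Pool.Agent.Lib.MP_5854e1_co PB

theorem ytv032 : DT.all (wzR cT Cz.tj Cz.tp Cz.tv) Cz.tv032 = true := by decide +kernel

theorem ytv033 : DT.all (wzR cT Cz.tj Cz.tp Cz.tv) Cz.tv033 = true := by decide +kernel

theorem ytv034 : DT.all (wzR cT Cz.tj Cz.tp Cz.tv) Cz.tv034 = true := by decide +kernel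

theorem ytv035 : DT.all (wzR cT Cz.tj Cz.tp Cz.tv) Cz.tv035 = true := by decide +kernel

theorem ytv036 : DT.all (wzR cT Cz.tj Cz.tp Cz.tv) Cz.tv036 = true := by decide +kernel

theorem ytv037 : DT.all (wzR cT Cz.tj Cz.tp Cz.tv) Cz.tv037 = true := by decide +kernel

theorem ytv038 : DT.all (wzR cT Cz.tj Cz.tp Cz.tv) Cz.tv038 = true := by decide +kernel

theorem ytv039 : DT.all (wzR cT Cz.tj Cz.tp Cz.tv) Cz.tv039 = true := by decide +kernel


end Pool.Agent.Lib.MP_5854e1_co.Cz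

namespace Pool.Agent.Lib.MP_5854e1_co.Cz

open Pool.Agent.Lib.MP_5854e1_co PB

theorem ytv3324 : DT.all (wzR cT Cz.tj Cz.tp Cz.tv) Cz.tv3324 = true := by decide +kernel

theorem ytv3325 : DT.all (wzR cT Cz.tj Cz.tp Cz.tv) Cz.tv3325 = true := by decide +kernel

theorem ytv3326 : DT.all (wzR cT Cz.tj Cz.tp Cz.tv) Cz.tv3326 = true := by decide +kernel

theorem ytv3327 : DT.all (wzR cT Cz.tj Cz.tp Cz.tv) Cz.tv3327 = true := by decide +kernel

theorem ytv3328 : DT.all (wzR cT Cz.tj Cz.tp Cz.tv) Cz.tv3328 = true := by decide +kernel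

theorem ytv3329 : DT.all (wzR cT Cz.tj Cz.tp Cz.tv) Cz.tv3329 = true := by decide +kernel

theorem ytv3330 : DT.all (wzR cT Cz.tj Cz.tp Cz.tv) Cz.tv3330 = true := by decide +kernel

theorem ytv3331 : DT.all (wzR cT Cz.tj Cz.tp Cz.tv) Cz.tv3331 = true := by decide +kernel

theorem ytv3332 : DT.all (wzR cT Cz.tj Cz.tp Cz.tv) Cz.tv3332 = true := by decide +kernel


end Pool.Agent.Lib.MP_5854e1_co.Cz
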