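import Pool.Agent.Lib.MP_5854e1_co.Cz.P

/-!
# The rows of the rings
-/

set_option autoImplicit false
set_option maxRecDepth 100000
set_option deprecated.oldSectionVars true

namespace Pool.Agent.Lib.MP_5854e1_co.Cz

open Pool.Agent.Lib.MP_5854e1_co PB

theorem ytv040 : DT.all (wzR cT Cz.tj Cz.tp Cz.tv) Cz.tv040 = true := by decide +kernel

theorem ytv041 : DT.all (wzR cT Cz.tj Cz.tp Cz.tv) Cz.tv041 = true := by decide +kernel

theorem ytv042 : DT.all (wzR cT Cz.tj Cz.tp Cz.tv) Cz.tv042 = true := by decide +kernel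

theorem ytv043 : DT.all (wzR cT Cz.tj Cz.tp Cz.tv) Cz.tv043 = true := by decide +kernel

theorem ytv044 : DT.all (wzR cT Cz.tj Cz.tp Cz.tv) Cz.tv044 = true := by decide +kernel

theorem ytv045 : DT.all (wzR cT Cz.tj Cz.tp Cz.tv) Cz.tv045 = true := by decide +kernel

theorem ytv046 : DT.all (wzR cT Cz.tj Cz.tp Cz.tv) Cz.tv046 = true := by decide +kernel

theorem ytv047 : DT.all (wzR cT Cz.tj Cz.tp Cz.tv) Cz.tv047 = true := by decide +kernel


end Pool.Agent.Lib.MP_5854e1_co.Cz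

namespace Pool.Agent.Lib.MP_5854e1_co.Cz

open Pool.Agent.Lib.MP_5854e1_co PB

theorem ytv1049 : DT.all (wzR cT Cz.tj Cz.tp Cz.tv) Cz.tv1049 = true := by decide +kernel

theorem ytv1050 : DT.all (wzR cT Cz.tj Cz.tp Cz.tv) Cz.tv1050 = true := by decide +kernel

theorem ytv1051 : DT.all (wzR cT Cz.tj Cz.tp Cz.tv) Cz.tv1051 = true := by decide +kernel

theorem ytv1052 : DT.all (wzR cT Cz.tj Cz.tp Cz.tv) Cz.tv1052 = true := by decide +kernel

theorem ytv1053 : DT.all (wzR cT Cz.tj Cz.tp Cz.tv) Cz.tv1053 = true := by decide +kernel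

theorem ytv1054 : DT.all (wzR cT Cz.tj Cz.tp Cz.tv) Cz.tv1054 = true := by decide +kernel

theorem ytv1055 : DT.all (wzR cT Cz.tj Cz.tp Cz.tv) Cz.tv1055 = true := by decide +kernel

theorem ytv1056 : DT.all (wzR cT Cz.tj Cz.tp Cz.tv) Cz.tv1056 = true := by decide +kernel


end Pool.Agent.Lib.MP_5854e1_co.Cz
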