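import Pool.Agent.Lib.MP_5854e1_co.Cz.P

/-!
# The rows of the rings
-/

set_option autoImplicit false
set_option maxRecDepth 100000
set_option deprecated.oldSectionVars true

namespace Pool.Agent.Lib.MP_5854e1_co.Cz

open Pool.Agent.Lib.MP_5854e1_co PB

theorem ytv048 : DT.all (wzR cT Cz.tj Cz.tp Cz.tv) Cz.tv048 = true := by decide +kernel

theorem ytv049 : DT.all (wzR cT Cz.tj Cz.tp Cz.tv) Cz.tv049 = true := by decide +kernel

theorem ytv050 : DT.all (wzR cT Cz.tj Cz.tp Cz.tv) Cz.tv050 = true := by decide +kernel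

theorem ytv051 : DT.all (wzR cT Cz.tj Cz.tp Cz.tv) Cz.tv051 = true := by decide +kernel

theorem ytv052 : DT.all (wzR cT Cz.tj Cz.tp Cz.tv) Cz.tv052 = true := by decide +kernel

theorem ytv053 : DT.all (wzR cT Cz.tj Cz.tp Cz.tv) Cz.tv053 = true := by decide +kernel

theorem ytv054 : DT.all (wzR cT Cz.tj Cz.tp Cz.tv) Cz.tv054 = true := by decide +kernel

theorem ytv055 : DT.all (wzR cT Cz.tj Cz.tp Cz.tv) Cz.tv055 = true := by decide +kernel

theorem ytv056 : DT.all (wzR cT Cz.tj Cz.tp Cz.tv) Cz.tv056 = true := by decide +kernel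


end Pool.Agent.Lib.MP_5854e1_co.Cz

namespace Pool.Agent.Lib.MP_5854e1_co.Cz

open Pool.Agent.Lib.MP_5854e1_co PB

theorem ytv3888 : DT.all (wzR cT Cz.tj Cz.tp Cz.tv) Cz.tv3888 = true := by decide +kernel

theorem ytv3889 : DT.all (wzR cT Cz.tj Cz.tp Cz.tv) Cz.tv3889 = true := by decide +kernel

theorem ytv3890 : DT.all (wzR cT Cz.tj Cz.tp Cz.tv) Cz.tv3890 = true := by decide +kernel


end Pool.Agent.Lib.MP_5854e1_co.Cz
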