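import Pool.Agent.Lib.MP_5854e1_co.Cz.P

/-!
# The rows of the rings
-/

set_option autoImplicit false
set_option maxRecDepth 100000
set_option deprecated.oldSectionVars true

namespace Pool.Agent.Lib.MP_5854e1_co.Cz

open Pool.Agent.Lib.MP_5854e1_co PB

theorem ytv057 : DT.all (wzR cT Cz.tj Cz.tp Cz.tv) Cz.tv057 = true := by decide +kernel

theorem ytv058 : DT.all (wzR cT Cz.tj Cz.tp Cz.tv) Cz.tv058 = true := by decide +kernel

theorem ytv059 : DT.all (wzR cT Cz.tj Cz.tp Cz.tv) Cz.tv059 = true := by decide +kernel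

theorem ytv060 : DT.all (wzR cT Cz.tj Cz.tp Cz.tv) Cz.tv060 = true := by decide +kernel


end Pool.Agent.Lib.MP_5854e1_co.Cz

namespace Pool.Agent.Lib.MP_5854e1_co.Cz

open Pool.Agent.Lib.MP_5854e1_co PB

theorem ytv2044 : DT.all (wzR cT Cz.tj Cz.tp Cz.tv) Cz.tv2044 = true := by decide +kernel

theorem ytv2045 : DT.all (wzR cT Cz.tj Cz.tp Cz.tv) Cz.tv2045 = true := by decide +kernel

theorem ytv2046 : DT.all (wzR cT Cz.tj Cz.tp Cz.tv) Cz.tv2046 = true := by decide +kernel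

theorem ytv2047 : DT.all (wzR cT Cz.tj Cz.tp Cz.tv) Cz.tv2047 = true := by decide +kernel

theorem ytv2048 : DT.all (wzR cT Cz.tj Cz.tp Cz.tv) Cz.tv2048 = true := by decide +kernel

theorem ytv2049 : DT.all (wzR cT Cz.tj Cz.tp Cz.tv) Cz.tv2049 = true := by decide +kernel

theorem ytv2050 : DT.all (wzR cT Cz.tj Cz.tp Cz.tv) Cz.tv2050 = true := by decide +kernel

theorem ytv2051 : DT.all (wzR cT Cz.tj Cz.tp Cz.tv) Cz.tv2051 = true := by decide +kernel


end Pool.Agent.Lib.MP_5854e1_co.Cz
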