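import Pool.Agent.Lib.MP_5854e1_co.Cz.P

/-!
# The rows of the rings
-/

set_option autoImplicit false
set_option maxRecDepth 100000
set_option deprecated.oldSectionVars true

namespace Pool.Agent.Lib.MP_5854e1_co.Cz

open Pool.Agent.Lib.MP_5854e1_co PB

theorem ytv069 : DT.all (wzR cT Cz.tj Cz.tp Cz.tv) Cz.tv069 = true := by decide +kernel

theorem ytv070 : DT.all (wzR cT Cz.tj Cz.tp Cz.tv) Cz.tv070 = true := by decide +kernel

theorem ytv071 : DT.all (wzR cT Cz.tj Cz.tp Cz.tv) Cz.tv071 = true := by decide +kernel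

theorem ytv072 : DT.all (wzR cT Cz.tj Cz.tp Cz.tv) Cz.tv072 = true := by decide +kernel

theorem ytv073 : DT.all (wzR cT Cz.tj Cz.tp Cz.tv) Cz.tv073 = true := by decide +kernel


end Pool.Agent.Lib.MP_5854e1_co.Cz

namespace Pool.Agent.Lib.MP_5854e1_co.Cz

open Pool.Agent.Lib.MP_5854e1_co PB

theorem ytv3106 : DT.all (wzR cT Cz.tj Cz.tp Cz.tv) Cz.tv3106 = true := by decide +kernel

theorem ytv3107 : DT.all (wzR cT Cz.tj Cz.tp Cz.tv) Cz.tv3107 = true := by decide +kernel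

theorem ytv3108 : DT.all (wzR cT Cz.tj Cz.tp Cz.tv) Cz.tv3108 = true := by decide +kernel

theorem ytv3109 : DT.all (wzR cT Cz.tj Cz.tp Cz.tv) Cz.tv3109 = true := by decide +kernel

theorem ytv3110 : DT.all (wzR cT Cz.tj Cz.tp Cz.tv) Cz.tv3110 = true := by decide +kernel

theorem ytv3111 : DT.all (wzR cT Cz.tj Cz.tp Cz.tv) Cz.tv3111 = true := by decide +kernel

theorem ytv3112 : DT.all (wzR cT Cz.tj Cz.tp Cz.tv) Cz.tv3112 = true := by decide +kernel

theorem ytv3113 : DT.all (wzR cT Cz.tj Cz.tp Cz.tv) Cz.tv3113 = true := by decide +kernel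

theorem ytv3114 : DT.all (wzR cT Cz.tj Cz.tp Cz.tv) Cz.tv3114 = true := by decide +kernel

theorem ytv3115 : DT.all (wzR cT Cz.tj Cz.tp Cz.tv) Cz.tv3115 = true := by decide +kernel


end Pool.Agent.Lib.MP_5854e1_co.Cz
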