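import Pool.Agent.Lib.MP_5854e1_co.Cz.P

/-!
# The rows of the rings
-/

set_option autoImplicit false
set_option maxRecDepth 100000
set_option deprecated.oldSectionVars true

namespace Pool.Agent.Lib.MP_5854e1_co.Cz

open Pool.Agent.Lib.MP_5854e1_co PB

theorem ytv074 : DT.all (wzR cT Cz.tj Cz.tp Cz.tv) Cz.tv074 = true := by decide +kernel

theorem ytv075 : DT.all (wzR cT Cz.tj Cz.tp Cz.tv) Cz.tv075 = true := by decide +kernel

theorem ytv076 : DT.all (wzR cT Cz.tj Cz.tp Cz.tv) Cz.tv076 = true := by decide +kernel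

theorem ytv077 : DT.all (wzR cT Cz.tj Cz.tp Cz.tv) Cz.tv077 = true := by decide +kernel

theorem ytv078 : DT.all (wzR cT Cz.tj Cz.tp Cz.tv) Cz.tv078 = true := by decide +kernel

theorem ytv079 : DT.all (wzR cT Cz.tj Cz.tp Cz.tv) Cz.tv079 = true := by decide +kernel

theorem ytv080 : DT.all (wzR cT Cz.tj Cz.tp Cz.tv) Cz.tv080 = true := by decide +kernel

theorem ytv081 : DT.all (wzR cT Cz.tj Cz.tp Cz.tv) Cz.tv081 = true := by decide +kernel


end Pool.Agent.Lib.MP_5854e1_co.Cz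

namespace Pool.Agent.Lib.MP_5854e1_co.Cz

open Pool.Agent.Lib.MP_5854e1_co PB

theorem ytv3427 : DT.all (wzR cT Cz.tj Cz.tp Cz.tv) Cz.tv3427 = true := by decide +kernel

theorem ytv3428 : DT.all (wzR cT Cz.tj Cz.tp Cz.tv) Cz.tv3428 = true := by decide +kernel

theorem ytv3429 : DT.all (wzR cT Cz.tj Cz.tp Cz.tv) Cz.tv3429 = true := by decide +kernel

theorem ytv3430 : DT.all (wzR cT Cz.tj Cz.tp Cz.tv) Cz.tv3430 = true := by decide +kernel

theorem ytv3431 : DT.all (wzR cT Cz.tj Cz.tp Cz.tv) Cz.tv3431 = true := by decide +kernel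

theorem ytv3432 : DT.all (wzR cT Cz.tj Cz.tp Cz.tv) Cz.tv3432 = true := by decide +kernel

theorem ytv3433 : DT.all (wzR cT Cz.tj Cz.tp Cz.tv) Cz.tv3433 = true := by decide +kernel

theorem ytv3434 : DT.all (wzR cT Cz.tj Cz.tp Cz.tv) Cz.tv3434 = true := by decide +kernel


end Pool.Agent.Lib.MP_5854e1_co.Cz
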