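import Pool.Agent.Lib.MP_5854e1_co.Cz.P

/-!
# The rows of the rings
-/

set_option autoImplicit false
set_option maxRecDepth 100000
set_option deprecated.oldSectionVars true

namespace Pool.Agent.Lib.MP_5854e1_co.Cz

open Pool.Agent.Lib.MP_5854e1_co PB

theorem ytv082 : DT.all (wzR cT Cz.tj Cz.tp Cz.tv) Cz.tv082 = true := by decide +kernel

theorem ytv083 : DT.all (wzR cT Cz.tj Cz.tp Cz.tv) Cz.tv083 = true := by decide +kernel

theorem ytv084 : DT.all (wzR cT Cz.tj Cz.tp Cz.tv) Cz.tv084 = true := by decide +kernel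

theorem ytv085 : DT.all (wzR cT Cz.tj Cz.tp Cz.tv) Cz.tv085 = true := by decide +kernel

theorem ytv086 : DT.all (wzR cT Cz.tj Cz.tp Cz.tv) Cz.tv086 = true := by decide +kernel

theorem ytv087 : DT.all (wzR cT Cz.tj Cz.tp Cz.tv) Cz.tv087 = true := by decide +kernel

theorem ytv088 : DT.all (wzR cT Cz.tj Cz.tp Cz.tv) Cz.tv088 = true := by decide +kernel

theorem ytv089 : DT.all (wzR cT Cz.tj Cz.tp Cz.tv) Cz.tv089 = true := by decide +kernel

theorem ytv090 : DT.all (wzR cT Cz.tj Cz.tp Cz.tv) Cz.tv090 = true := by decide +kernel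

theorem ytv091 : DT.all (wzR cT Cz.tj Cz.tp Cz.tv) Cz.tv091 = true := by decide +kernel


end Pool.Agent.Lib.MP_5854e1_co.Cz
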