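import Pool.Agent.Lib.MP_5854e1_co.Cz.P

/-!
# The rows of the rings
-/

set_option autoImplicit false
set_option maxRecDepth 100000
set_option deprecated.oldSectionVars true

namespace Pool.Agent.Lib.MP_5854e1_co.Cz

open Pool.Agent.Lib.MP_5854e1_co PB

theorem ytv853 : DT.all (wzR cT Cz.tj Cz.tp Cz.tv) Cz.tv853 = true := by decide +kernel

theorem ytv854 : DT.all (wzR cT Cz.tj Cz.tp Cz.tv) Cz.tv854 = true := by decide +kernel

theorem ytv855 : DT.all (wzR cT Cz.tj Cz.tp Cz.tv) Cz.tv855 = true := by decide +kernel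

theorem ytv856 : DT.all (wzR cT Cz.tj Cz.tp Cz.tv) Cz.tv856 = true := by decide +kernel

theorem ytv857 : DT.all (wzR cT Cz.tj Cz.tp Cz.tv) Cz.tv857 = true := by decide +kernel

theorem ytv858 : DT.all (wzR cT Cz.tj Cz.tp Cz.tv) Cz.tv858 = true := by decide +kernel

theorem ytv859 : DT.all (wzR cT Cz.tj Cz.tp Cz.tv) Cz.tv859 = true := by decide +kernel

theorem ytv860 : DT.all (wzR cT Cz.tj Cz.tp Cz.tv) Cz.tv860 = true := by decide +kernel

theorem ytv861 : DT.all (wzR cT Cz.tj Cz.tp Cz.tv) Cz.tv861 = true := by decide +kernel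


end Pool.Agent.Lib.MP_5854e1_co.Cz

namespace Pool.Agent.Lib.MP_5854e1_co.Cz

open Pool.Agent.Lib.MP_5854e1_co PB

theorem ytv4125 : DT.all (wzR cT Cz.tj Cz.tp Cz.tv) Cz.tv4125 = true := by decide +kernel

theorem ytv4126 : DT.all (wzR cT Cz.tj Cz.tp Cz.tv) Cz.tv4126 = true := by decide +kernel

theorem ytv4127 : DT.all (wzR cT Cz.tj Cz.tp Cz.tv) Cz.tv4127 = true := by decide +kernel

theorem ytv4128 : DT.all (wzR cT Cz.tj Cz.tp Cz.tv) Cz.tv4128 = true := by decide +kernel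

theorem ytv4129 : DT.all (wzR cT Cz.tj Cz.tp Cz.tv) Cz.tv4129 = true := by decide +kernel

theorem ytv4130 : DT.all (wzR cT Cz.tj Cz.tp Cz.tv) Cz.tv4130 = true := by decide +kernel

theorem ytv4131 : DT.all (wzR cT Cz.tj Cz.tp Cz.tv) Cz.tv4131 = true := by decide +kernel


end Pool.Agent.Lib.MP_5854e1_co.Cz
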