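import Pool.Agent.Lib.MP_5854e1_co.Cz.P

/-!
# The rows of the rings
-/

set_option autoImplicit false
set_option maxRecDepth 100000
set_option deprecated.oldSectionVars true

namespace Pool.Agent.Lib.MP_5854e1_co.Cz

open Pool.Agent.Lib.MP_5854e1_co PB

theorem ytv862 : DT.all (wzR cT Cz.tj Cz.tp Cz.tv) Cz.tv862 = true := by decide +kernel

theorem ytv863 : DT.all (wzR cT Cz.tj Cz.tp Cz.tv) Cz.tv863 = true := by decide +kernel

theorem ytv864 : DT.all (wzR cT Cz.tj Cz.tp Cz.tv) Cz.tv864 = true := by decide +kernel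

theorem ytv865 : DT.all (wzR cT Cz.tj Cz.tp Cz.tv) Cz.tv865 = true := by decide +kernel

theorem ytv866 : DT.all (wzR cT Cz.tj Cz.tp Cz.tv) Cz.tv866 = true := by decide +kernel

theorem ytv867 : DT.all (wzR cT Cz.tj Cz.tp Cz.tv) Cz.tv867 = true := by decide +kernel

theorem ytv868 : DT.all (wzR cT Cz.tj Cz.tp Cz.tv) Cz.tv868 = true := by decide +kernel

theorem ytv869 : DT.all (wzR cT Cz.tj Cz.tp Cz.tv) Cz.tv869 = true := by decide +kernel

theorem ytv870 : DT.all (wzR cT Cz.tj Cz.tp Cz.tv) Cz.tv870 = true := by decide +kernel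


end Pool.Agent.Lib.MP_5854e1_co.Cz

namespace Pool.Agent.Lib.MP_5854e1_co.Cz

open Pool.Agent.Lib.MP_5854e1_co PB

theorem ytv2558 : DT.all (wzR cT Cz.tj Cz.tp Cz.tv) Cz.tv2558 = true := by decide +kernel

theorem ytv2559 : DT.all (wzR cT Cz.tj Cz.tp Cz.tv) Cz.tv2559 = true := by decide +kernel

theorem ytv2560 : DT.all (wzR cT Cz.tj Cz.tp Cz.tv) Cz.tv2560 = true := by decide +kernel

theorem ytv2561 : DT.all (wzR cT Cz.tj Cz.tp Cz.tv) Cz.tv2561 = true := by decide +kernel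


end Pool.Agent.Lib.MP_5854e1_co.Cz
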