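import Pool.Agent.Lib.MP_5854e1_co.Cz.P

/-!
# The rows of the rings
-/

set_option autoImplicit false
set_option maxRecDepth 100000
set_option deprecated.oldSectionVars true

namespace Pool.Agent.Lib.MP_5854e1_co.Cz

open Pool.Agent.Lib.MP_5854e1_co PB

theorem ytv871 : DT.all (wzR cT Cz.tj Cz.tp Cz.tv) Cz.tv871 = true := by decide +kernel

theorem ytv872 : DT.all (wzR cT Cz.tj Cz.tp Cz.tv) Cz.tv872 = true := by decide +kernel

theorem ytv873 : DT.all (wzR cT Cz.tj Cz.tp Cz.tv) Cz.tv873 = true := by decide +kernel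

theorem ytv874 : DT.all (wzR cT Cz.tj Cz.tp Cz.tv) Cz.tv874 = true := by decide +kernel

theorem ytv875 : DT.all (wzR cT Cz.tj Cz.tp Cz.tv) Cz.tv875 = true := by decide +kernel

theorem ytv876 : DT.all (wzR cT Cz.tj Cz.tp Cz.tv) Cz.tv876 = true := by decide +kernel

theorem ytv877 : DT.all (wzR cT Cz.tj Cz.tp Cz.tv) Cz.tv877 = true := by decide +kernel

theorem ytv878 : DT.all (wzR cT Cz.tj Cz.tp Cz.tv) Cz.tv878 = true := by decide +kernel

theorem ytv879 : DT.all (wzR cT Cz.tj Cz.tp Cz.tv) Cz.tv879 = true := by decide +kernel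


end Pool.Agent.Lib.MP_5854e1_co.Cz
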