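import Pool.Agent.Lib.MP_5854e1_co.Cz.P

/-!
# The rows of the rings
-/

set_option autoImplicit false
set_option maxRecDepth 100000
set_option deprecated.oldSectionVars true

namespace Pool.Agent.Lib.MP_5854e1_co.Cz

open Pool.Agent.Lib.MP_5854e1_co PB

theorem ytv880 : DT.all (wzR cT Cz.tj Cz.tp Cz.tv) Cz.tv880 = true := by decide +kernel

theorem ytv881 : DT.all (wzR cT Cz.tj Cz.tp Cz.tv) Cz.tv881 = true := by decide +kernel

theorem ytv882 : DT.all (wzR cT Cz.tj Cz.tp Cz.tv) Cz.tv882 = true := by decide +kernel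

theorem ytv883 : DT.all (wzR cT Cz.tj Cz.tp Cz.tv) Cz.tv883 = true := by decide +kernel

theorem ytv884 : DT.all (wzR cT Cz.tj Cz.tp Cz.tv) Cz.tv884 = true := by decide +kernel

theorem ytv885 : DT.all (wzR cT Cz.tj Cz.tp Cz.tv) Cz.tv885 = true := by decide +kernel

theorem ytv886 : DT.all (wzR cT Cz.tj Cz.tp Cz.tv) Cz.tv886 = true := by decide +kernel

theorem ytv887 : DT.all (wzR cT Cz.tj Cz.tp Cz.tv) Cz.tv887 = true := by decide +kernel

theorem ytv888 : DT.all (wzR cT Cz.tj Cz.tp Cz.tv) Cz.tv888 = true := by decide +kernel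

theorem ytv889 : DT.all (wzR cT Cz.tj Cz.tp Cz.tv) Cz.tv889 = true := by decide +kernel


end Pool.Agent.Lib.MP_5854e1_co.Cz
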