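import Pool.Agent.Lib.MP_5854e1_co.Cz.P

/-!
# The rows of the rings
-/

set_option autoImplicit false
set_option maxRecDepth 100000
set_option deprecated.oldSectionVars true

namespace Pool.Agent.Lib.MP_5854e1_co.Cz

open Pool.Agent.Lib.MP_5854e1_co PB

theorem ytv890 : DT.all (wzR cT Cz.tj Cz.tp Cz.tv) Cz.tv890 = true := by decide +kernel

theorem ytv891 : DT.all (wzR cT Cz.tj Cz.tp Cz.tv) Cz.tv891 = true := by decide +kernel

theorem ytv892 : DT.all (wzR cT Cz.tj Cz.tp Cz.tv) Cz.tv892 = true := by decide +kernel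

theorem ytv893 : DT.all (wzR cT Cz.tj Cz.tp Cz.tv) Cz.tv893 = true := by decide +kernel

theorem ytv894 : DT.all (wzR cT Cz.tj Cz.tp Cz.tv) Cz.tv894 = true := by decide +kernel

theorem ytv895 : DT.all (wzR cT Cz.tj Cz.tp Cz.tv) Cz.tv895 = true := by decide +kernel

theorem ytv896 : DT.all (wzR cT Cz.tj Cz.tp Cz.tv) Cz.tv896 = true := by decide +kernel

theorem ytv897 : DT.all (wzR cT Cz.tj Cz.tp Cz.tv) Cz.tv897 = true := by decide +kernel


end Pool.Agent.Lib.MP_5854e1_co.Cz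

namespace Pool.Agent.Lib.MP_5854e1_co.Cz

open Pool.Agent.Lib.MP_5854e1_co PB

theorem ytv4551 : DT.all (wzR cT Cz.tj Cz.tp Cz.tv) Cz.tv4551 = true := by decide +kernel

theorem ytv4552 : DT.all (wzR cT Cz.tj Cz.tp Cz.tv) Cz.tv4552 = true := by decide +kernel

theorem ytv4553 : DT.all (wzR cT Cz.tj Cz.tp Cz.tv) Cz.tv4553 = true := by decide +kernel

theorem ytv4554 : DT.all (wzR cT Cz.tj Cz.tp Cz.tv) Cz.tv4554 = true := by decide +kernel

theorem ytv4555 : DT.all (wzR cT Cz.tj Cz.tp Cz.tv) Cz.tv4555 = true := by decide +kernel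


end Pool.Agent.Lib.MP_5854e1_co.Cz
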