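import Pool.Agent.Lib.MP_5854e1_co.Cz.P

/-!
# The rows of the rings
-/

set_option autoImplicit false
set_option maxRecDepth 100000
set_option deprecated.oldSectionVars true

namespace Pool.Agent.Lib.MP_5854e1_co.Cz

open Pool.Agent.Lib.MP_5854e1_co PB

theorem ytv906 : DT.all (wzR cT Cz.tj Cz.tp Cz.tv) Cz.tv906 = true := by decide +kernel

theorem ytv907 : DT.all (wzR cT Cz.tj Cz.tp Cz.tv) Cz.tv907 = true := by decide +kernel

theorem ytv908 : DT.all (wzR cT Cz.tj Cz.tp Cz.tv) Cz.tv908 = true := by decide +kernel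

theorem ytv909 : DT.all (wzR cT Cz.tj Cz.tp Cz.tv) Cz.tv909 = true := by decide +kernel

theorem ytv910 : DT.all (wzR cT Cz.tj Cz.tp Cz.tv) Cz.tv910 = true := by decide +kernel

theorem ytv911 : DT.all (wzR cT Cz.tj Cz.tp Cz.tv) Cz.tv911 = true := by decide +kernel

theorem ytv912 : DT.all (wzR cT Cz.tj Cz.tp Cz.tv) Cz.tv912 = true := by decide +kernel

theorem ytv913 : DT.all (wzR cT Cz.tj Cz.tp Cz.tv) Cz.tv913 = true := by decide +kernel

theorem ytv914 : DT.all (wzR cT Cz.tj Cz.tp Cz.tv) Cz.tv914 = true := by decide +kernel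

theorem ytv915 : DT.all (wzR cT Cz.tj Cz.tp Cz.tv) Cz.tv915 = true := by decide +kernel


end Pool.Agent.Lib.MP_5854e1_co.Cz

namespace Pool.Agent.Lib.MP_5854e1_co.Cz

open Pool.Agent.Lib.MP_5854e1_co PB

theorem ytv2000 : DT.all (wzR cT Cz.tj Cz.tp Cz.tv) Cz.tv2000 = true := by decide +kernel

theorem ytv2001 : DT.all (wzR cT Cz.tj Cz.tp Cz.tv) Cz.tv2001 = true := by decide +kernel

theorem ytv2002 : DT.all (wzR cT Cz.tj Cz.tp Cz.tv) Cz.tv2002 = true := by decide +kernel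

theorem ytv2003 : DT.all (wzR cT Cz.tj Cz.tp Cz.tv) Cz.tv2003 = true := by decide +kernel

theorem ytv2004 : DT.all (wzR cT Cz.tj Cz.tp Cz.tv) Cz.tv2004 = true := by decide +kernel

theorem ytv2005 : DT.all (wzR cT Cz.tj Cz.tp Cz.tv) Cz.tv2005 = true := by decide +kernel

theorem ytv2006 : DT.all (wzR cT Cz.tj Cz.tp Cz.tv) Cz.tv2006 = true := by decide +kernel

theorem ytv2007 : DT.all (wzR cT Cz.tj Cz.tp Cz.tv) Cz.tv2007 = true := by decide +kernel


end Pool.Agent.Lib.MP_5854e1_co.Cz
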