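import Pool.Agent.Lib.MP_5854e1_co.Cz.P

/-!
# The rows of the rings
-/

set_option autoImplicit false
set_option maxRecDepth 100000
set_option deprecated.oldSectionVars true

namespace Pool.Agent.Lib.MP_5854e1_co.Cz

open Pool.Agent.Lib.MP_5854e1_co PB

theorem ytv924 : DT.all (wzR cT Cz.tj Cz.tp Cz.tv) Cz.tv924 = true := by decide +kernel

theorem ytv925 : DT.all (wzR cT Cz.tj Cz.tp Cz.tv) Cz.tv925 = true := by decide +kernel

theorem ytv926 : DT.all (wzR cT Cz.tj Cz.tp Cz.tv) Cz.tv926 = true := by decide +kernel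

theorem ytv927 : DT.all (wzR cT Cz.tj Cz.tp Cz.tv) Cz.tv927 = true := by decide +kernel

theorem ytv928 : DT.all (wzR cT Cz.tj Cz.tp Cz.tv) Cz.tv928 = true := by decide +kernel

theorem ytv929 : DT.all (wzR cT Cz.tj Cz.tp Cz.tv) Cz.tv929 = true := by decide +kernel

theorem ytv930 : DT.all (wzR cT Cz.tj Cz.tp Cz.tv) Cz.tv930 = true := by decide +kernel

theorem ytv931 : DT.all (wzR cT Cz.tj Cz.tp Cz.tv) Cz.tv931 = true := by decide +kernel

theorem ytv932 : DT.all (wzR cT Cz.tj Cz.tp Cz.tv) Cz.tv932 = true := by decide +kernel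


end Pool.Agent.Lib.MP_5854e1_co.Cz
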