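import Pool.Agent.Lib.MP_5854e1_co.Cz.P

/-!
# The rows of the rings
-/

set_option autoImplicit false
set_option maxRecDepth 100000
set_option deprecated.oldSectionVars true

namespace Pool.Agent.Lib.MP_5854e1_co.Cz

open Pool.Agent.Lib.MP_5854e1_co PB

theorem ytv092 : DT.all (wzR cT Cz.tj Cz.tp Cz.tv) Cz.tv092 = true := by decide +kernel

theorem ytv093 : DT.all (wzR cT Cz.tj Cz.tp Cz.tv) Cz.tv093 = true := by decide +kernel

theorem ytv094 : DT.all (wzR cT Cz.tj Cz.tp Cz.tv) Cz.tv094 = true := by decide +kernel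

theorem ytv095 : DT.all (wzR cT Cz.tj Cz.tp Cz.tv) Cz.tv095 = true := by decide +kernel

theorem ytv096 : DT.all (wzR cT Cz.tj Cz.tp Cz.tv) Cz.tv096 = true := by decide +kernel

theorem ytv097 : DT.all (wzR cT Cz.tj Cz.tp Cz.tv) Cz.tv097 = true := by decide +kernel

theorem ytv098 : DT.all (wzR cT Cz.tj Cz.tp Cz.tv) Cz.tv098 = true := by decide +kernel

theorem ytv099 : DT.all (wzR cT Cz.tj Cz.tp Cz.tv) Cz.tv099 = true := by decide +kernel


end Pool.Agent.Lib.MP_5854e1_co.Cz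

namespace Pool.Agent.Lib.MP_5854e1_co.Cz

open Pool.Agent.Lib.MP_5854e1_co PB

theorem ytv3442 : DT.all (wzR cT Cz.tj Cz.tp Cz.tv) Cz.tv3442 = true := by decide +kernel

theorem ytv3443 : DT.all (wzR cT Cz.tj Cz.tp Cz.tv) Cz.tv3443 = true := by decide +kernel

theorem ytv3444 : DT.all (wzR cT Cz.tj Cz.tp Cz.tv) Cz.tv3444 = true := by decide +kernel

theorem ytv3445 : DT.all (wzR cT Cz.tj Cz.tp Cz.tv) Cz.tv3445 = true := by decide +kernel

theorem ytv3446 : DT.all (wzR cT Cz.tj Cz.tp Cz.tv) Cz.tv3446 = true := by decide +kernel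

theorem ytv3447 : DT.all (wzR cT Cz.tj Cz.tp Cz.tv) Cz.tv3447 = true := by decide +kernel

theorem ytv3448 : DT.all (wzR cT Cz.tj Cz.tp Cz.tv) Cz.tv3448 = true := by decide +kernel

theorem ytv3449 : DT.all (wzR cT Cz.tj Cz.tp Cz.tv) Cz.tv3449 = true := by decide +kernel

theorem ytv3450 : DT.all (wzR cT Cz.tj Cz.tp Cz.tv) Cz.tv3450 = true := by decide +kernel


end Pool.Agent.Lib.MP_5854e1_co.Cz
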