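import Pool.Agent.Lib.MP_5854e1_co.Cz.P

/-!
# The rows of the rings
-/

set_option autoImplicit false
set_option maxRecDepth 100000
set_option deprecated.oldSectionVars true

namespace Pool.Agent.Lib.MP_5854e1_co.Cz

open Pool.Agent.Lib.MP_5854e1_co PB

theorem ytv940 : DT.all (wzR cT Cz.tj Cz.tp Cz.tv) Cz.tv940 = true := by decide +kernel

theorem ytv941 : DT.all (wzR cT Cz.tj Cz.tp Cz.tv) Cz.tv941 = true := by decide +kernel

theorem ytv942 : DT.all (wzR cT Cz.tj Cz.tp Cz.tv) Cz.tv942 = true := by decide +kernel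

theorem ytv943 : DT.all (wzR cT Cz.tj Cz.tp Cz.tv) Cz.tv943 = true := by decide +kernel

theorem ytv944 : DT.all (wzR cT Cz.tj Cz.tp Cz.tv) Cz.tv944 = true := by decide +kernel

theorem ytv945 : DT.all (wzR cT Cz.tj Cz.tp Cz.tv) Cz.tv945 = true := by decide +kernel

theorem ytv946 : DT.all (wzR cT Cz.tj Cz.tp Cz.tv) Cz.tv946 = true := by decide +kernel

theorem ytv947 : DT.all (wzR cT Cz.tj Cz.tp Cz.tv) Cz.tv947 = true := by decide +kernel

theorem ytv948 : DT.all (wzR cT Cz.tj Cz.tp Cz.tv) Cz.tv948 = true := by decide +kernel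


end Pool.Agent.Lib.MP_5854e1_co.Cz
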