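import Pool.Agent.Lib.MP_5854e1_co.Cz.P

/-!
# The rows of the rings
-/

set_option autoImplicit false
set_option maxRecDepth 100000
set_option deprecated.oldSectionVars true

namespace Pool.Agent.Lib.MP_5854e1_co.Cz

open Pool.Agent.Lib.MP_5854e1_co PB

theorem ytv949 : DT.all (wzR cT Cz.tj Cz.tp Cz.tv) Cz.tv949 = true := by decide +kernel

theorem ytv950 : DT.all (wzR cT Cz.tj Cz.tp Cz.tv) Cz.tv950 = true := by decide +kernel

theorem ytv951 : DT.all (wzR cT Cz.tj Cz.tp Cz.tv) Cz.tv951 = true := by decide +kernel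

theorem ytv952 : DT.all (wzR cT Cz.tj Cz.tp Cz.tv) Cz.tv952 = true := by decide +kernel

theorem ytv953 : DT.all (wzR cT Cz.tj Cz.tp Cz.tv) Cz.tv953 = true := by decide +kernel

theorem ytv954 : DT.all (wzR cT Cz.tj Cz.tp Cz.tv) Cz.tv954 = true := by decide +kernel

theorem ytv955 : DT.all (wzR cT Cz.tj Cz.tp Cz.tv) Cz.tv955 = true := by decide +kernel

theorem ytv956 : DT.all (wzR cT Cz.tj Cz.tp Cz.tv) Cz.tv956 = true := by decide +kernel


end Pool.Agent.Lib.MP_5854e1_co.Cz
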