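import Pool.Agent.Lib.MP_5854e1_co.Cz.P

/-!
# The rows of the rings
-/

set_option autoImplicit false
set_option maxRecDepth 100000
set_option deprecated.oldSectionVars true

namespace Pool.Agent.Lib.MP_5854e1_co.Cz

open Pool.Agent.Lib.MP_5854e1_co PB

theorem ytv957 : DT.all (wzR cT Cz.tj Cz.tp Cz.tv) Cz.tv957 = true := by decide +kernel

theorem ytv958 : DT.all (wzR cT Cz.tj Cz.tp Cz.tv) Cz.tv958 = true := by decide +kernel

theorem ytv959 : DT.all (wzR cT Cz.tj Cz.tp Cz.tv) Cz.tv959 = true := by decide +kernel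

theorem ytv960 : DT.all (wzR cT Cz.tj Cz.tp Cz.tv) Cz.tv960 = true := by decide +kernel

theorem ytv961 : DT.all (wzR cT Cz.tj Cz.tp Cz.tv) Cz.tv961 = true := by decide +kernel

theorem ytv962 : DT.all (wzR cT Cz.tj Cz.tp Cz.tv) Cz.tv962 = true := by decide +kernel

theorem ytv963 : DT.all (wzR cT Cz.tj Cz.tp Cz.tv) Cz.tv963 = true := by decide +kernel

theorem ytv964 : DT.all (wzR cT Cz.tj Cz.tp Cz.tv) Cz.tv964 = true := by decide +kernel

theorem ytv965 : DT.all (wzR cT Cz.tj Cz.tp Cz.tv) Cz.tv965 = true := by decide +kernel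


end Pool.Agent.Lib.MP_5854e1_co.Cz

namespace Pool.Agent.Lib.MP_5854e1_co.Cz

open Pool.Agent.Lib.MP_5854e1_co PB

theorem ytv1863 : DT.all (wzR cT Cz.tj Cz.tp Cz.tv) Cz.tv1863 = true := by decide +kernel

theorem ytv1864 : DT.all (wzR cT Cz.tj Cz.tp Cz.tv) Cz.tv1864 = true := by decide +kernel

theorem ytv1865 : DT.all (wzR cT Cz.tj Cz.tp Cz.tv) Cz.tv1865 = true := by decide +kernel

theorem ytv1866 : DT.all (wzR cT Cz.tj Cz.tp Cz.tv) Cz.tv1866 = true := by decide +kernel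

theorem ytv1867 : DT.all (wzR cT Cz.tj Cz.tp Cz.tv) Cz.tv1867 = true := by decide +kernel


end Pool.Agent.Lib.MP_5854e1_co.Cz
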