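import Pool.Agent.Lib.MP_5854e1_co.Cz.P

/-!
# The rows of the rings
-/

set_option autoImplicit false
set_option maxRecDepth 100000
set_option deprecated.oldSectionVars true

namespace Pool.Agent.Lib.MP_5854e1_co.Cz

open Pool.Agent.Lib.MP_5854e1_co PB

theorem ytv966 : DT.all (wzR cT Cz.tj Cz.tp Cz.tv) Cz.tv966 = true := by decide +kernel

theorem ytv967 : DT.all (wzR cT Cz.tj Cz.tp Cz.tv) Cz.tv967 = true := by decide +kernel

theorem ytv968 : DT.all (wzR cT Cz.tj Cz.tp Cz.tv) Cz.tv968 = true := by decide +kernel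

theorem ytv969 : DT.all (wzR cT Cz.tj Cz.tp Cz.tv) Cz.tv969 = true := by decide +kernel

theorem ytv970 : DT.all (wzR cT Cz.tj Cz.tp Cz.tv) Cz.tv970 = true := by decide +kernel

theorem ytv971 : DT.all (wzR cT Cz.tj Cz.tp Cz.tv) Cz.tv971 = true := by decide +kernel

theorem ytv972 : DT.all (wzR cT Cz.tj Cz.tp Cz.tv) Cz.tv972 = true := by decide +kernel

theorem ytv973 : DT.all (wzR cT Cz.tj Cz.tp Cz.tv) Cz.tv973 = true := by decide +kernel


end Pool.Agent.Lib.MP_5854e1_co.Cz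

namespace Pool.Agent.Lib.MP_5854e1_co.Cz

open Pool.Agent.Lib.MP_5854e1_co PB

theorem ytv3881 : DT.all (wzR cT Cz.tj Cz.tp Cz.tv) Cz.tv3881 = true := by decide +kernel

theorem ytv3882 : DT.all (wzR cT Cz.tj Cz.tp Cz.tv) Cz.tv3882 = true := by decide +kernel

theorem ytv3883 : DT.all (wzR cT Cz.tj Cz.tp Cz.tv) Cz.tv3883 = true := by decide +kernel


end Pool.Agent.Lib.MP_5854e1_co.Cz
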