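import Pool.Agent.Lib.MP_5854e1_co.Cz.P

/-!
# The rows of the rings
-/

set_option autoImplicit false
set_option maxRecDepth 100000
set_option deprecated.oldSectionVars true

namespace Pool.Agent.Lib.MP_5854e1_co.Cz

open Pool.Agent.Lib.MP_5854e1_co PB

theorem ytv974 : DT.all (wzR cT Cz.tj Cz.tp Cz.tv) Cz.tv974 = true := by decide +kernel

theorem ytv975 : DT.all (wzR cT Cz.tj Cz.tp Cz.tv) Cz.tv975 = true := by decide +kernel

theorem ytv976 : DT.all (wzR cT Cz.tj Cz.tp Cz.tv) Cz.tv976 = true := by decide +kernel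

theorem ytv977 : DT.all (wzR cT Cz.tj Cz.tp Cz.tv) Cz.tv977 = true := by decide +kernel

theorem ytv978 : DT.all (wzR cT Cz.tj Cz.tp Cz.tv) Cz.tv978 = true := by decide +kernel

theorem ytv979 : DT.all (wzR cT Cz.tj Cz.tp Cz.tv) Cz.tv979 = true := by decide +kernel

theorem ytv980 : DT.all (wzR cT Cz.tj Cz.tp Cz.tv) Cz.tv980 = true := by decide +kernel

theorem ytv981 : DT.all (wzR cT Cz.tj Cz.tp Cz.tv) Cz.tv981 = true := by decide +kernel


end Pool.Agent.Lib.MP_5854e1_co.Cz
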