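import Pool.Agent.Lib.MP_5854e1_co.Cz.P

/-!
# The rows of the rings
-/

set_option autoImplicit false
set_option maxRecDepth 100000
set_option deprecated.oldSectionVars true

namespace Pool.Agent.Lib.MP_5854e1_co.Cz

open Pool.Agent.Lib.MP_5854e1_co PB

theorem ytv982 : DT.all (wzR cT Cz.tj Cz.tp Cz.tv) Cz.tv982 = true := by decide +kernel

theorem ytv983 : DT.all (wzR cT Cz.tj Cz.tp Cz.tv) Cz.tv983 = true := by decide +kernel

theorem ytv984 : DT.all (wzR cT Cz.tj Cz.tp Cz.tv) Cz.tv984 = true := by decide +kernel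

theorem ytv985 : DT.all (wzR cT Cz.tj Cz.tp Cz.tv) Cz.tv985 = true := by decide +kernel

theorem ytv986 : DT.all (wzR cT Cz.tj Cz.tp Cz.tv) Cz.tv986 = true := by decide +kernel

theorem ytv987 : DT.all (wzR cT Cz.tj Cz.tp Cz.tv) Cz.tv987 = true := by decide +kernel

theorem ytv988 : DT.all (wzR cT Cz.tj Cz.tp Cz.tv) Cz.tv988 = true := by decide +kernel

theorem ytv989 : DT.all (wzR cT Cz.tj Cz.tp Cz.tv) Cz.tv989 = true := by decide +kernel


end Pool.Agent.Lib.MP_5854e1_co.Cz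

namespace Pool.Agent.Lib.MP_5854e1_co.Cz

open Pool.Agent.Lib.MP_5854e1_co PB

theorem ytv3284 : DT.all (wzR cT Cz.tj Cz.tp Cz.tv) Cz.tv3284 = true := by decide +kernel

theorem ytv3285 : DT.all (wzR cT Cz.tj Cz.tp Cz.tv) Cz.tv3285 = true := by decide +kernel


end Pool.Agent.Lib.MP_5854e1_co.Cz
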