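import Pool.Agent.Lib.MP_5854e1_co.Cz.P

/-!
# The rows of the rings
-/

set_option autoImplicit false
set_option maxRecDepth 100000
set_option deprecated.oldSectionVars true

namespace Pool.Agent.Lib.MP_5854e1_co.Cz

open Pool.Agent.Lib.MP_5854e1_co PB

theorem ytv990 : DT.all (wzR cT Cz.tj Cz.tp Cz.tv) Cz.tv990 = true := by decide +kernel

theorem ytv991 : DT.all (wzR cT Cz.tj Cz.tp Cz.tv) Cz.tv991 = true := by decide +kernel

theorem ytv992 : DT.all (wzR cT Cz.tj Cz.tp Cz.tv) Cz.tv992 = true := by decide +kernel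

theorem ytv993 : DT.all (wzR cT Cz.tj Cz.tp Cz.tv) Cz.tv993 = true := by decide +kernel

theorem ytv994 : DT.all (wzR cT Cz.tj Cz.tp Cz.tv) Cz.tv994 = true := by decide +kernel

theorem ytv995 : DT.all (wzR cT Cz.tj Cz.tp Cz.tv) Cz.tv995 = true := by decide +kernel

theorem ytv996 : DT.all (wzR cT Cz.tj Cz.tp Cz.tv) Cz.tv996 = true := by decide +kernel

theorem ytv997 : DT.all (wzR cT Cz.tj Cz.tp Cz.tv) Cz.tv997 = true := by decide +kernel


end Pool.Agent.Lib.MP_5854e1_co.Cz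

namespace Pool.Agent.Lib.MP_5854e1_co.Cz

open Pool.Agent.Lib.MP_5854e1_co PB

theorem ytv5130 : DT.all (wzR cT Cz.tj Cz.tp Cz.tv) Cz.tv5130 = true := by decide +kernel

theorem ytv5131 : DT.all (wzR cT Cz.tj Cz.tp Cz.tv) Cz.tv5131 = true := by decide +kernel

theorem ytv5132 : DT.all (wzR cT Cz.tj Cz.tp Cz.tv) Cz.tv5132 = true := by decide +kernel

theorem ytv5133 : DT.all (wzR cT Cz.tj Cz.tp Cz.tv) Cz.tv5133 = true := by decide +kernel

theorem ytv5134 : DT.all (wzR cT Cz.tj Cz.tp Cz.tv) Cz.tv5134 = true := by decide +kernel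

theorem ytv5135 : DT.all (wzR cT Cz.tj Cz.tp Cz.tv) Cz.tv5135 = true := by decide +kernel

theorem ytv5136 : DT.all (wzR cT Cz.tj Cz.tp Cz.tv) Cz.tv5136 = true := by decide +kernel

theorem ytv5137 : DT.all (wzR cT Cz.tj Cz.tp Cz.tv) Cz.tv5137 = true := by decide +kernel

theorem ytv5138 : DT.all (wzR cT Cz.tj Cz.tp Cz.tv) Cz.tv5138 = true := by decide +kernel


end Pool.Agent.Lib.MP_5854e1_co.Cz
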