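import Pool.Agent.Lib.MP_5854e1_co.Cz.P

/-!
# The rows of the rings
-/

set_option autoImplicit false
set_option maxRecDepth 100000
set_option deprecated.oldSectionVars true

namespace Pool.Agent.Lib.MP_5854e1_co.Cz

open Pool.Agent.Lib.MP_5854e1_co PB

theorem ytv1005 : DT.all (wzR cT Cz.tj Cz.tp Cz.tv) Cz.tv1005 = true := by decide +kernel

theorem ytv1006 : DT.all (wzR cT Cz.tj Cz.tp Cz.tv) Cz.tv1006 = true := by decide +kernel

theorem ytv1007 : DT.all (wzR cT Cz.tj Cz.tp Cz.tv) Cz.tv1007 = true := by decide +kernel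

theorem ytv1008 : DT.all (wzR cT Cz.tj Cz.tp Cz.tv) Cz.tv1008 = true := by decide +kernel

theorem ytv1009 : DT.all (wzR cT Cz.tj Cz.tp Cz.tv) Cz.tv1009 = true := by decide +kernel

theorem ytv1010 : DT.all (wzR cT Cz.tj Cz.tp Cz.tv) Cz.tv1010 = true := by decide +kernel

theorem ytv1011 : DT.all (wzR cT Cz.tj Cz.tp Cz.tv) Cz.tv1011 = true := by decide +kernel

theorem ytv1012 : DT.all (wzR cT Cz.tj Cz.tp Cz.tv) Cz.tv1012 = true := by decide +kernel

theorem ytv1013 : DT.all (wzR cT Cz.tj Cz.tp Cz.tv) Cz.tv1013 = true := by decide +kernel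


end Pool.Agent.Lib.MP_5854e1_co.Cz

namespace Pool.Agent.Lib.MP_5854e1_co.Cz

open Pool.Agent.Lib.MP_5854e1_co PB

theorem ytv3063 : DT.all (wzR cT Cz.tj Cz.tp Cz.tv) Cz.tv3063 = true := by decide +kernel

theorem ytv3064 : DT.all (wzR cT Cz.tj Cz.tp Cz.tv) Cz.tv3064 = true := by decide +kernel

theorem ytv3065 : DT.all (wzR cT Cz.tj Cz.tp Cz.tv) Cz.tv3065 = true := by decide +kernel

theorem ytv3066 : DT.all (wzR cT Cz.tj Cz.tp Cz.tv) Cz.tv3066 = true := by decide +kernel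

theorem ytv3067 : DT.all (wzR cT Cz.tj Cz.tp Cz.tv) Cz.tv3067 = true := by decide +kernel

theorem ytv3068 : DT.all (wzR cT Cz.tj Cz.tp Cz.tv) Cz.tv3068 = true := by decide +kernel

theorem ytv3069 : DT.all (wzR cT Cz.tj Cz.tp Cz.tv) Cz.tv3069 = true := by decide +kernel

theorem ytv3070 : DT.all (wzR cT Cz.tj Cz.tp Cz.tv) Cz.tv3070 = true := by decide +kernel


end Pool.Agent.Lib.MP_5854e1_co.Cz
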