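import Pool.Agent.Lib.MP_5854e1_co.Cz.P

/-!
# The rows of the rings
-/

set_option autoImplicit false
set_option maxRecDepth 100000
set_option deprecated.oldSectionVars true

namespace Pool.Agent.Lib.MP_5854e1_co.Cz

open Pool.Agent.Lib.MP_5854e1_co PB

theorem ytv1014 : DT.all (wzR cT Cz.tj Cz.tp Cz.tv) Cz.tv1014 = true := by decide +kernel

theorem ytv1015 : DT.all (wzR cT Cz.tj Cz.tp Cz.tv) Cz.tv1015 = true := by decide +kernel

theorem ytv1016 : DT.all (wzR cT Cz.tj Cz.tp Cz.tv) Cz.tv1016 = true := by decide +kernel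

theorem ytv1017 : DT.all (wzR cT Cz.tj Cz.tp Cz.tv) Cz.tv1017 = true := by decide +kernel

theorem ytv1018 : DT.all (wzR cT Cz.tj Cz.tp Cz.tv) Cz.tv1018 = true := by decide +kernel

theorem ytv1019 : DT.all (wzR cT Cz.tj Cz.tp Cz.tv) Cz.tv1019 = true := by decide +kernel

theorem ytv1020 : DT.all (wzR cT Cz.tj Cz.tp Cz.tv) Cz.tv1020 = true := by decide +kernel

theorem ytv1021 : DT.all (wzR cT Cz.tj Cz.tp Cz.tv) Cz.tv1021 = true := by decide +kernel

theorem ytv1022 : DT.all (wzR cT Cz.tj Cz.tp Cz.tv) Cz.tv1022 = true := by decide +kernel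


end Pool.Agent.Lib.MP_5854e1_co.Cz
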