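import Pool.Agent.Lib.MP_5854e1_co.Cz.P

/-!
# The rows of the rings
-/

set_option autoImplicit false
set_option maxRecDepth 100000
set_option deprecated.oldSectionVars true

namespace Pool.Agent.Lib.MP_5854e1_co.Cz

open Pool.Agent.Lib.MP_5854e1_co PB

theorem ytv1023 : DT.all (wzR cT Cz.tj Cz.tp Cz.tv) Cz.tv1023 = true := by decide +kernel

theorem ytv1024 : DT.all (wzR cT Cz.tj Cz.tp Cz.tv) Cz.tv1024 = true := by decide +kernel

theorem ytv1025 : DT.all (wzR cT Cz.tj Cz.tp Cz.tv) Cz.tv1025 = true := by decide +kernel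

theorem ytv1026 : DT.all (wzR cT Cz.tj Cz.tp Cz.tv) Cz.tv1026 = true := by decide +kernel

theorem ytv1027 : DT.all (wzR cT Cz.tj Cz.tp Cz.tv) Cz.tv1027 = true := by decide +kernel

theorem ytv1028 : DT.all (wzR cT Cz.tj Cz.tp Cz.tv) Cz.tv1028 = true := by decide +kernel

theorem ytv1029 : DT.all (wzR cT Cz.tj Cz.tp Cz.tv) Cz.tv1029 = true := by decide +kernel

theorem ytv1030 : DT.all (wzR cT Cz.tj Cz.tp Cz.tv) Cz.tv1030 = true := by decide +kernel

theorem ytv1031 : DT.all (wzR cT Cz.tj Cz.tp Cz.tv) Cz.tv1031 = true := by decide +kernel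


end Pool.Agent.Lib.MP_5854e1_co.Cz

namespace Pool.Agent.Lib.MP_5854e1_co.Cz

open Pool.Agent.Lib.MP_5854e1_co PB

theorem ytv3729 : DT.all (wzR cT Cz.tj Cz.tp Cz.tv) Cz.tv3729 = true := by decide +kernel

theorem ytv3730 : DT.all (wzR cT Cz.tj Cz.tp Cz.tv) Cz.tv3730 = true := by decide +kernel

theorem ytv3731 : DT.all (wzR cT Cz.tj Cz.tp Cz.tv) Cz.tv3731 = true := by decide +kernel

theorem ytv3732 : DT.all (wzR cT Cz.tj Cz.tp Cz.tv) Cz.tv3732 = true := by decide +kernel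


end Pool.Agent.Lib.MP_5854e1_co.Cz
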