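import Pool.Agent.Lib.MP_5854e1_co.Cz.P

/-!
# The rows of the rings
-/

set_option autoImplicit false
set_option maxRecDepth 100000
set_option deprecated.oldSectionVars true

namespace Pool.Agent.Lib.MP_5854e1_co.Cz

open Pool.Agent.Lib.MP_5854e1_co PB

theorem ytv1032 : DT.all (wzR cT Cz.tj Cz.tp Cz.tv) Cz.tv1032 = true := by decide +kernel

theorem ytv1033 : DT.all (wzR cT Cz.tj Cz.tp Cz.tv) Cz.tv1033 = true := by decide +kernel

theorem ytv1034 : DT.all (wzR cT Cz.tj Cz.tp Cz.tv) Cz.tv1034 = true := by decide +kernel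

theorem ytv1035 : DT.all (wzR cT Cz.tj Cz.tp Cz.tv) Cz.tv1035 = true := by decide +kernel

theorem ytv1036 : DT.all (wzR cT Cz.tj Cz.tp Cz.tv) Cz.tv1036 = true := by decide +kernel

theorem ytv1037 : DT.all (wzR cT Cz.tj Cz.tp Cz.tv) Cz.tv1037 = true := by decide +kernel

theorem ytv1038 : DT.all (wzR cT Cz.tj Cz.tp Cz.tv) Cz.tv1038 = true := by decide +kernel

theorem ytv1039 : DT.all (wzR cT Cz.tj Cz.tp Cz.tv) Cz.tv1039 = true := by decide +kernel

theorem ytv1040 : DT.all (wzR cT Cz.tj Cz.tp Cz.tv) Cz.tv1040 = true := by decide +kernel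


end Pool.Agent.Lib.MP_5854e1_co.Cz

namespace Pool.Agent.Lib.MP_5854e1_co.Cz

open Pool.Agent.Lib.MP_5854e1_co PB

theorem ytv4855 : DT.all (wzR cT Cz.tj Cz.tp Cz.tv) Cz.tv4855 = true := by decide +kernel

theorem ytv4856 : DT.all (wzR cT Cz.tj Cz.tp Cz.tv) Cz.tv4856 = true := by decide +kernel

theorem ytv4857 : DT.all (wzR cT Cz.tj Cz.tp Cz.tv) Cz.tv4857 = true := by decide +kernel

theorem ytv4858 : DT.all (wzR cT Cz.tj Cz.tp Cz.tv) Cz.tv4858 = true := by decide +kernel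


end Pool.Agent.Lib.MP_5854e1_co.Cz
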