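import Pool.Agent.Lib.MP_5854e1_co.Cz.P

/-!
# The rows of the rings
-/

set_option autoImplicit false
set_option maxRecDepth 100000
set_option deprecated.oldSectionVars true

namespace Pool.Agent.Lib.MP_5854e1_co.Cz

open Pool.Agent.Lib.MP_5854e1_co PB

theorem ytv1041 : DT.all (wzR cT Cz.tj Cz.tp Cz.tv) Cz.tv1041 = true := by decide +kernel

theorem ytv1042 : DT.all (wzR cT Cz.tj Cz.tp Cz.tv) Cz.tv1042 = true := by decide +kernel

theorem ytv1043 : DT.all (wzR cT Cz.tj Cz.tp Cz.tv) Cz.tv1043 = true := by decide +kernel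

theorem ytv1044 : DT.all (wzR cT Cz.tj Cz.tp Cz.tv) Cz.tv1044 = true := by decide +kernel

theorem ytv1045 : DT.all (wzR cT Cz.tj Cz.tp Cz.tv) Cz.tv1045 = true := by decide +kernel

theorem ytv1046 : DT.all (wzR cT Cz.tj Cz.tp Cz.tv) Cz.tv1046 = true := by decide +kernel

theorem ytv1047 : DT.all (wzR cT Cz.tj Cz.tp Cz.tv) Cz.tv1047 = true := by decide +kernel

theorem ytv1048 : DT.all (wzR cT Cz.tj Cz.tp Cz.tv) Cz.tv1048 = true := by decide +kernel


end Pool.Agent.Lib.MP_5854e1_co.Cz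

namespace Pool.Agent.Lib.MP_5854e1_co.Cz

open Pool.Agent.Lib.MP_5854e1_co PB

theorem ytv1400 : DT.all (wzR cT Cz.tj Cz.tp Cz.tv) Cz.tv1400 = true := by decide +kernel

theorem ytv1401 : DT.all (wzR cT Cz.tj Cz.tp Cz.tv) Cz.tv1401 = true := by decide +kernel

theorem ytv1402 : DT.all (wzR cT Cz.tj Cz.tp Cz.tv) Cz.tv1402 = true := by decide +kernel

theorem ytv1403 : DT.all (wzR cT Cz.tj Cz.tp Cz.tv) Cz.tv1403 = true := by decide +kernel

theorem ytv1404 : DT.all (wzR cT Cz.tj Cz.tp Cz.tv) Cz.tv1404 = true := by decide +kernel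

theorem ytv1405 : DT.all (wzR cT Cz.tj Cz.tp Cz.tv) Cz.tv1405 = true := by decide +kernel

theorem ytv1406 : DT.all (wzR cT Cz.tj Cz.tp Cz.tv) Cz.tv1406 = true := by decide +kernel

theorem ytv1407 : DT.all (wzR cT Cz.tj Cz.tp Cz.tv) Cz.tv1407 = true := by decide +kernel


end Pool.Agent.Lib.MP_5854e1_co.Cz
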