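import Pool.Agent.Lib.MP_5854e1_co.Cz.P

/-!
# The rows of the rings
-/

set_option autoImplicit false
set_option maxRecDepth 100000
set_option deprecated.oldSectionVars true

namespace Pool.Agent.Lib.MP_5854e1_co.Cz

open Pool.Agent.Lib.MP_5854e1_co PB

theorem ytv1065 : DT.all (wzR cT Cz.tj Cz.tp Cz.tv) Cz.tv1065 = true := by decide +kernel

theorem ytv1066 : DT.all (wzR cT Cz.tj Cz.tp Cz.tv) Cz.tv1066 = true := by decide +kernel

theorem ytv1067 : DT.all (wzR cT Cz.tj Cz.tp Cz.tv) Cz.tv1067 = true := by decide +kernel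

theorem ytv1068 : DT.all (wzR cT Cz.tj Cz.tp Cz.tv) Cz.tv1068 = true := by decide +kernel

theorem ytv1069 : DT.all (wzR cT Cz.tj Cz.tp Cz.tv) Cz.tv1069 = true := by decide +kernel

theorem ytv1070 : DT.all (wzR cT Cz.tj Cz.tp Cz.tv) Cz.tv1070 = true := by decide +kernel

theorem ytv1071 : DT.all (wzR cT Cz.tj Cz.tp Cz.tv) Cz.tv1071 = true := by decide +kernel

theorem ytv1072 : DT.all (wzR cT Cz.tj Cz.tp Cz.tv) Cz.tv1072 = true := by decide +kernel

theorem ytv1073 : DT.all (wzR cT Cz.tj Cz.tp Cz.tv) Cz.tv1073 = true := by decide +kernel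


end Pool.Agent.Lib.MP_5854e1_co.Cz
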