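import Pool.Agent.Lib.MP_5854e1_co.Cz.P

/-!
# The rows of the rings
-/

set_option autoImplicit false
set_option maxRecDepth 100000
set_option deprecated.oldSectionVars true

namespace Pool.Agent.Lib.MP_5854e1_co.Cz

open Pool.Agent.Lib.MP_5854e1_co PB

theorem ytv1074 : DT.all (wzR cT Cz.tj Cz.tp Cz.tv) Cz.tv1074 = true := by decide +kernel

theorem ytv1075 : DT.all (wzR cT Cz.tj Cz.tp Cz.tv) Cz.tv1075 = true := by decide +kernel

theorem ytv1076 : DT.all (wzR cT Cz.tj Cz.tp Cz.tv) Cz.tv1076 = true := by decide +kernel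

theorem ytv1077 : DT.all (wzR cT Cz.tj Cz.tp Cz.tv) Cz.tv1077 = true := by decide +kernel

theorem ytv1078 : DT.all (wzR cT Cz.tj Cz.tp Cz.tv) Cz.tv1078 = true := by decide +kernel

theorem ytv1079 : DT.all (wzR cT Cz.tj Cz.tp Cz.tv) Cz.tv1079 = true := by decide +kernel

theorem ytv1080 : DT.all (wzR cT Cz.tj Cz.tp Cz.tv) Cz.tv1080 = true := by decide +kernel

theorem ytv1081 : DT.all (wzR cT Cz.tj Cz.tp Cz.tv) Cz.tv1081 = true := by decide +kernel


end Pool.Agent.Lib.MP_5854e1_co.Cz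

namespace Pool.Agent.Lib.MP_5854e1_co.Cz

open Pool.Agent.Lib.MP_5854e1_co PB

theorem ytv5247 : DT.all (wzR cT Cz.tj Cz.tp Cz.tv) Cz.tv5247 = true := by decide +kernel

theorem ytv5248 : DT.all (wzR cT Cz.tj Cz.tp Cz.tv) Cz.tv5248 = true := by decide +kernel

theorem ytv5249 : DT.all (wzR cT Cz.tj Cz.tp Cz.tv) Cz.tv5249 = true := by decide +kernel

theorem ytv5250 : DT.all (wzR cT Cz.tj Cz.tp Cz.tv) Cz.tv5250 = true := by decide +kernel

theorem ytv5251 : DT.all (wzR cT Cz.tj Cz.tp Cz.tv) Cz.tv5251 = true := by decide +kernel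

theorem ytv5252 : DT.all (wzR cT Cz.tj Cz.tp Cz.tv) Cz.tv5252 = true := by decide +kernel

theorem ytv5253 : DT.all (wzR cT Cz.tj Cz.tp Cz.tv) Cz.tv5253 = true := by decide +kernel

theorem ytv5254 : DT.all (wzR cT Cz.tj Cz.tp Cz.tv) Cz.tv5254 = true := by decide +kernel


end Pool.Agent.Lib.MP_5854e1_co.Cz
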