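import Pool.Agent.Lib.MP_5854e1_co.Cz.P

/-!
# The rows of the rings
-/

set_option autoImplicit false
set_option maxRecDepth 100000
set_option deprecated.oldSectionVars true

namespace Pool.Agent.Lib.MP_5854e1_co.Cz

open Pool.Agent.Lib.MP_5854e1_co PB

theorem ytv1082 : DT.all (wzR cT Cz.tj Cz.tp Cz.tv) Cz.tv1082 = true := by decide +kernel

theorem ytv1083 : DT.all (wzR cT Cz.tj Cz.tp Cz.tv) Cz.tv1083 = true := by decide +kernel

theorem ytv1084 : DT.all (wzR cT Cz.tj Cz.tp Cz.tv) Cz.tv1084 = true := by decide +kernel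

theorem ytv1085 : DT.all (wzR cT Cz.tj Cz.tp Cz.tv) Cz.tv1085 = true := by decide +kernel


end Pool.Agent.Lib.MP_5854e1_co.Cz

namespace Pool.Agent.Lib.MP_5854e1_co.Cz

open Pool.Agent.Lib.MP_5854e1_co PB

theorem ytv5577 : DT.all (wzR cT Cz.tj Cz.tp Cz.tv) Cz.tv5577 = true := by decide +kernel

theorem ytv5578 : DT.all (wzR cT Cz.tj Cz.tp Cz.tv) Cz.tv5578 = true := by decide +kernel

theorem ytv5579 : DT.all (wzR cT Cz.tj Cz.tp Cz.tv) Cz.tv5579 = true := by decide +kernel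

theorem ytv5580 : DT.all (wzR cT Cz.tj Cz.tp Cz.tv) Cz.tv5580 = true := by decide +kernel

theorem ytv5581 : DT.all (wzR cT Cz.tj Cz.tp Cz.tv) Cz.tv5581 = true := by decide +kernel

theorem ytv5582 : DT.all (wzR cT Cz.tj Cz.tp Cz.tv) Cz.tv5582 = true := by decide +kernel

theorem ytv5583 : DT.all (wzR cT Cz.tj Cz.tp Cz.tv) Cz.tv5583 = true := by decide +kernel

theorem ytv5584 : DT.all (wzR cT Cz.tj Cz.tp Cz.tv) Cz.tv5584 = true := by decide +kernel

theorem ytv5585 : DT.all (wzR cT Cz.tj Cz.tp Cz.tv) Cz.tv5585 = true := by decide +kernel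

theorem ytv5586 : DT.all (wzR cT Cz.tj Cz.tp Cz.tv) Cz.tv5586 = true := by decide +kernel

theorem ytv5587 : DT.all (wzR cT Cz.tj Cz.tp Cz.tv) Cz.tv5587 = true := by decide +kernel

theorem ytv5588 : DT.all (wzR cT Cz.tj Cz.tp Cz.tv) Cz.tv5588 = true := by decide +kernel

theorem ytv5589 : DT.all (wzR cT Cz.tj Cz.tp Cz.tv) Cz.tv5589 = true := by decide +kernel

theorem ytv5590 : DT.all (wzR cT Cz.tj Cz.tp Cz.tv) Cz.tv5590 = true := by decide +kernel

theorem ytv5591 : DT.all (wzR cT Cz.tj Cz.tp Cz.tv) Cz.tv5591 = true := by decide +kernel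

theorem ytv5592 : DT.all (wzR cT Cz.tj Cz.tp Cz.tv) Cz.tv5592 = true := by decide +kernel

theorem ytv5593 : DT.all (wzR cT Cz.tj Cz.tp Cz.tv) Cz.tv5593 = true := by decide +kernel

theorem ytv5594 : DT.all (wzR cT Cz.tj Cz.tp Cz.tv) Cz.tv5594 = true := by decide +kernel

theorem ytv5595 : DT.all (wzR cT Cz.tj Cz.tp Cz.tv) Cz.tv5595 = true := by decide +kernel


end Pool.Agent.Lib.MP_5854e1_co.Cz
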