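import Pool.Agent.Lib.MP_5854e1_co.Cz.P

/-!
# The rows of the rings
-/

set_option autoImplicit false
set_option maxRecDepth 100000
set_option deprecated.oldSectionVars true

namespace Pool.Agent.Lib.MP_5854e1_co.Cz

open Pool.Agent.Lib.MP_5854e1_co PB

theorem ytv1086 : DT.all (wzR cT Cz.tj Cz.tp Cz.tv) Cz.tv1086 = true := by decide +kernel

theorem ytv1087 : DT.all (wzR cT Cz.tj Cz.tp Cz.tv) Cz.tv1087 = true := by decide +kernel

theorem ytv1088 : DT.all (wzR cT Cz.tj Cz.tp Cz.tv) Cz.tv1088 = true := by decide +kernel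

theorem ytv1089 : DT.all (wzR cT Cz.tj Cz.tp Cz.tv) Cz.tv1089 = true := by decide +kernel


end Pool.Agent.Lib.MP_5854e1_co.Cz

namespace Pool.Agent.Lib.MP_5854e1_co.Cz

open Pool.Agent.Lib.MP_5854e1_co PB

theorem ytv3780 : DT.all (wzR cT Cz.tj Cz.tp Cz.tv) Cz.tv3780 = true := by decide +kernel

theorem ytv3781 : DT.all (wzR cT Cz.tj Cz.tp Cz.tv) Cz.tv3781 = true := by decide +kernel

theorem ytv3782 : DT.all (wzR cT Cz.tj Cz.tp Cz.tv) Cz.tv3782 = true := by decide +kernel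

theorem ytv3783 : DT.all (wzR cT Cz.tj Cz.tp Cz.tv) Cz.tv3783 = true := by decide +kernel

theorem ytv3784 : DT.all (wzR cT Cz.tj Cz.tp Cz.tv) Cz.tv3784 = true := by decide +kernel

theorem ytv3785 : DT.all (wzR cT Cz.tj Cz.tp Cz.tv) Cz.tv3785 = true := by decide +kernel

theorem ytv3786 : DT.all (wzR cT Cz.tj Cz.tp Cz.tv) Cz.tv3786 = true := by decide +kernel

theorem ytv3787 : DT.all (wzR cT Cz.tj Cz.tp Cz.tv) Cz.tv3787 = true := by decide +kernel

theorem ytv3788 : DT.all (wzR cT Cz.tj Cz.tp Cz.tv) Cz.tv3788 = true := by decide +kernel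


end Pool.Agent.Lib.MP_5854e1_co.Cz
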