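import Pool.Agent.Lib.MP_5854e1_co.Cz.P

/-!
# The rows of the rings
-/

set_option autoImplicit false
set_option maxRecDepth 100000
set_option deprecated.oldSectionVars true

namespace Pool.Agent.Lib.MP_5854e1_co.Cz

open Pool.Agent.Lib.MP_5854e1_co PB

theorem ytv1090 : DT.all (wzR cT Cz.tj Cz.tp Cz.tv) Cz.tv1090 = true := by decide +kernel

theorem ytv1091 : DT.all (wzR cT Cz.tj Cz.tp Cz.tv) Cz.tv1091 = true := by decide +kernel

theorem ytv1092 : DT.all (wzR cT Cz.tj Cz.tp Cz.tv) Cz.tv1092 = true := by decide +kernel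

theorem ytv1093 : DT.all (wzR cT Cz.tj Cz.tp Cz.tv) Cz.tv1093 = true := by decide +kernel

theorem ytv1094 : DT.all (wzR cT Cz.tj Cz.tp Cz.tv) Cz.tv1094 = true := by decide +kernel

theorem ytv1095 : DT.all (wzR cT Cz.tj Cz.tp Cz.tv) Cz.tv1095 = true := by decide +kernel

theorem ytv1096 : DT.all (wzR cT Cz.tj Cz.tp Cz.tv) Cz.tv1096 = true := by decide +kernel

theorem ytv1097 : DT.all (wzR cT Cz.tj Cz.tp Cz.tv) Cz.tv1097 = true := by decide +kernel

theorem ytv1098 : DT.all (wzR cT Cz.tj Cz.tp Cz.tv) Cz.tv1098 = true := by decide +kernel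


end Pool.Agent.Lib.MP_5854e1_co.Cz

namespace Pool.Agent.Lib.MP_5854e1_co.Cz

open Pool.Agent.Lib.MP_5854e1_co PB

theorem ytv2263 : DT.all (wzR cT Cz.tj Cz.tp Cz.tv) Cz.tv2263 = true := by decide +kernel

theorem ytv2264 : DT.all (wzR cT Cz.tj Cz.tp Cz.tv) Cz.tv2264 = true := by decide +kernel

theorem ytv2265 : DT.all (wzR cT Cz.tj Cz.tp Cz.tv) Cz.tv2265 = true := by decide +kernel

theorem ytv2266 : DT.all (wzR cT Cz.tj Cz.tp Cz.tv) Cz.tv2266 = true := by decide +kernel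

theorem ytv2267 : DT.all (wzR cT Cz.tj Cz.tp Cz.tv) Cz.tv2267 = true := by decide +kernel

theorem ytv2268 : DT.all (wzR cT Cz.tj Cz.tp Cz.tv) Cz.tv2268 = true := by decide +kernel

theorem ytv2269 : DT.all (wzR cT Cz.tj Cz.tp Cz.tv) Cz.tv2269 = true := by decide +kernel

theorem ytv2270 : DT.all (wzR cT Cz.tj Cz.tp Cz.tv) Cz.tv2270 = true := by decide +kernel

theorem ytv2271 : DT.all (wzR cT Cz.tj Cz.tp Cz.tv) Cz.tv2271 = true := by decide +kernel


end Pool.Agent.Lib.MP_5854e1_co.Cz
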