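import Pool.Agent.Lib.MP_5854e1_co.Cz.P

/-!
# The rows of the rings
-/

set_option autoImplicit false
set_option maxRecDepth 100000
set_option deprecated.oldSectionVars true

namespace Pool.Agent.Lib.MP_5854e1_co.Cz

open Pool.Agent.Lib.MP_5854e1_co PB

theorem ytv1099 : DT.all (wzR cT Cz.tj Cz.tp Cz.tv) Cz.tv1099 = true := by decide +kernel

theorem ytv1100 : DT.all (wzR cT Cz.tj Cz.tp Cz.tv) Cz.tv1100 = true := by decide +kernel

theorem ytv1101 : DT.all (wzR cT Cz.tj Cz.tp Cz.tv) Cz.tv1101 = true := by decide +kernel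

theorem ytv1102 : DT.all (wzR cT Cz.tj Cz.tp Cz.tv) Cz.tv1102 = true := by decide +kernel

theorem ytv1103 : DT.all (wzR cT Cz.tj Cz.tp Cz.tv) Cz.tv1103 = true := by decide +kernel

theorem ytv1104 : DT.all (wzR cT Cz.tj Cz.tp Cz.tv) Cz.tv1104 = true := by decide +kernel

theorem ytv1105 : DT.all (wzR cT Cz.tj Cz.tp Cz.tv) Cz.tv1105 = true := by decide +kernel

theorem ytv1106 : DT.all (wzR cT Cz.tj Cz.tp Cz.tv) Cz.tv1106 = true := by decide +kernel

theorem ytv1107 : DT.all (wzR cT Cz.tj Cz.tp Cz.tv) Cz.tv1107 = true := by decide +kernel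


end Pool.Agent.Lib.MP_5854e1_co.Cz

namespace Pool.Agent.Lib.MP_5854e1_co.Cz

open Pool.Agent.Lib.MP_5854e1_co PB

theorem ytv5634 : DT.all (wzR cT Cz.tj Cz.tp Cz.tv) Cz.tv5634 = true := by decide +kernel

theorem ytv5635 : DT.all (wzR cT Cz.tj Cz.tp Cz.tv) Cz.tv5635 = true := by decide +kernel

theorem ytv5636 : DT.all (wzR cT Cz.tj Cz.tp Cz.tv) Cz.tv5636 = true := by decide +kernel

theorem ytv5637 : DT.all (wzR cT Cz.tj Cz.tp Cz.tv) Cz.tv5637 = true := by decide +kernel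

theorem ytv5638 : DT.all (wzR cT Cz.tj Cz.tp Cz.tv) Cz.tv5638 = true := by decide +kernel

theorem ytv5639 : DT.all (wzR cT Cz.tj Cz.tp Cz.tv) Cz.tv5639 = true := by decide +kernel

theorem ytv5640 : DT.all (wzR cT Cz.tj Cz.tp Cz.tv) Cz.tv5640 = true := by decide +kernel

theorem ytv5641 : DT.all (wzR cT Cz.tj Cz.tp Cz.tv) Cz.tv5641 = true := by decide +kernel

theorem ytv5642 : DT.all (wzR cT Cz.tj Cz.tp Cz.tv) Cz.tv5642 = true := by decide +kernel

theorem ytv5643 : DT.all (wzR cT Cz.tj Cz.tp Cz.tv) Cz.tv5643 = true := by decide +kernel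

theorem ytv5644 : DT.all (wzR cT Cz.tj Cz.tp Cz.tv) Cz.tv5644 = true := by decide +kernel

theorem ytv5645 : DT.all (wzR cT Cz.tj Cz.tp Cz.tv) Cz.tv5645 = true := by decide +kernel

theorem ytv5646 : DT.all (wzR cT Cz.tj Cz.tp Cz.tv) Cz.tv5646 = true := by decide +kernel

theorem ytv5647 : DT.all (wzR cT Cz.tj Cz.tp Cz.tv) Cz.tv5647 = true := by decide +kernel

theorem ytv5648 : DT.all (wzR cT Cz.tj Cz.tp Cz.tv) Cz.tv5648 = true := by decide +kernel

theorem ytv5649 : DT.all (wzR cT Cz.tj Cz.tp Cz.tv) Cz.tv5649 = true := by decide +kernel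

theorem ytv5650 : DT.all (wzR cT Cz.tj Cz.tp Cz.tv) Cz.tv5650 = true := by decide +kernel

theorem ytv5651 : DT.all (wzR cT Cz.tj Cz.tp Cz.tv) Cz.tv5651 = true := by decide +kernel

theorem ytv5652 : DT.all (wzR cT Cz.tj Cz.tp Cz.tv) Cz.tv5652 = true := by decide +kernel


end Pool.Agent.Lib.MP_5854e1_co.Cz
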