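import Pool.Agent.Lib.MP_5854e1_co.Cz.P

/-!
# The rows of the rings
-/

set_option autoImplicit false
set_option maxRecDepth 100000
set_option deprecated.oldSectionVars true

namespace Pool.Agent.Lib.MP_5854e1_co.Cz

open Pool.Agent.Lib.MP_5854e1_co PB

theorem ytv1108 : DT.all (wzR cT Cz.tj Cz.tp Cz.tv) Cz.tv1108 = true := by decide +kernel

theorem ytv1109 : DT.all (wzR cT Cz.tj Cz.tp Cz.tv) Cz.tv1109 = true := by decide +kernel

theorem ytv1110 : DT.all (wzR cT Cz.tj Cz.tp Cz.tv) Cz.tv1110 = true := by decide +kernel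

theorem ytv1111 : DT.all (wzR cT Cz.tj Cz.tp Cz.tv) Cz.tv1111 = true := by decide +kernel

theorem ytv1112 : DT.all (wzR cT Cz.tj Cz.tp Cz.tv) Cz.tv1112 = true := by decide +kernel

theorem ytv1113 : DT.all (wzR cT Cz.tj Cz.tp Cz.tv) Cz.tv1113 = true := by decide +kernel

theorem ytv1114 : DT.all (wzR cT Cz.tj Cz.tp Cz.tv) Cz.tv1114 = true := by decide +kernel

theorem ytv1115 : DT.all (wzR cT Cz.tj Cz.tp Cz.tv) Cz.tv1115 = true := by decide +kernel

theorem ytv1116 : DT.all (wzR cT Cz.tj Cz.tp Cz.tv) Cz.tv1116 = true := by decide +kernel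


end Pool.Agent.Lib.MP_5854e1_co.Cz

namespace Pool.Agent.Lib.MP_5854e1_co.Cz

open Pool.Agent.Lib.MP_5854e1_co PB

theorem ytv3564 : DT.all (wzR cT Cz.tj Cz.tp Cz.tv) Cz.tv3564 = true := by decide +kernel

theorem ytv3565 : DT.all (wzR cT Cz.tj Cz.tp Cz.tv) Cz.tv3565 = true := by decide +kernel

theorem ytv3566 : DT.all (wzR cT Cz.tj Cz.tp Cz.tv) Cz.tv3566 = true := by decide +kernel

theorem ytv3567 : DT.all (wzR cT Cz.tj Cz.tp Cz.tv) Cz.tv3567 = true := by decide +kernel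

theorem ytv3568 : DT.all (wzR cT Cz.tj Cz.tp Cz.tv) Cz.tv3568 = true := by decide +kernel

theorem ytv3569 : DT.all (wzR cT Cz.tj Cz.tp Cz.tv) Cz.tv3569 = true := by decide +kernel

theorem ytv3570 : DT.all (wzR cT Cz.tj Cz.tp Cz.tv) Cz.tv3570 = true := by decide +kernel

theorem ytv3571 : DT.all (wzR cT Cz.tj Cz.tp Cz.tv) Cz.tv3571 = true := by decide +kernel

theorem ytv3572 : DT.all (wzR cT Cz.tj Cz.tp Cz.tv) Cz.tv3572 = true := by decide +kernel


end Pool.Agent.Lib.MP_5854e1_co.Cz
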