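import Pool.Agent.Lib.MP_5854e1_co.Cz.P

/-!
# The rows of the rings
-/

set_option autoImplicit false
set_option maxRecDepth 100000
set_option deprecated.oldSectionVars true

namespace Pool.Agent.Lib.MP_5854e1_co.Cz

open Pool.Agent.Lib.MP_5854e1_co PB

theorem ytv1117 : DT.all (wzR cT Cz.tj Cz.tp Cz.tv) Cz.tv1117 = true := by decide +kernel

theorem ytv1118 : DT.all (wzR cT Cz.tj Cz.tp Cz.tv) Cz.tv1118 = true := by decide +kernel

theorem ytv1119 : DT.all (wzR cT Cz.tj Cz.tp Cz.tv) Cz.tv1119 = true := by decide +kernel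

theorem ytv1120 : DT.all (wzR cT Cz.tj Cz.tp Cz.tv) Cz.tv1120 = true := by decide +kernel

theorem ytv1121 : DT.all (wzR cT Cz.tj Cz.tp Cz.tv) Cz.tv1121 = true := by decide +kernel

theorem ytv1122 : DT.all (wzR cT Cz.tj Cz.tp Cz.tv) Cz.tv1122 = true := by decide +kernel

theorem ytv1123 : DT.all (wzR cT Cz.tj Cz.tp Cz.tv) Cz.tv1123 = true := by decide +kernel

theorem ytv1124 : DT.all (wzR cT Cz.tj Cz.tp Cz.tv) Cz.tv1124 = true := by decide +kernel


end Pool.Agent.Lib.MP_5854e1_co.Cz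

namespace Pool.Agent.Lib.MP_5854e1_co.Cz

open Pool.Agent.Lib.MP_5854e1_co PB

theorem ytv1217 : DT.all (wzR cT Cz.tj Cz.tp Cz.tv) Cz.tv1217 = true := by decide +kernel

theorem ytv1218 : DT.all (wzR cT Cz.tj Cz.tp Cz.tv) Cz.tv1218 = true := by decide +kernel

theorem ytv1219 : DT.all (wzR cT Cz.tj Cz.tp Cz.tv) Cz.tv1219 = true := by decide +kernel

theorem ytv1220 : DT.all (wzR cT Cz.tj Cz.tp Cz.tv) Cz.tv1220 = true := by decide +kernel

theorem ytv1221 : DT.all (wzR cT Cz.tj Cz.tp Cz.tv) Cz.tv1221 = true := by decide +kernel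

theorem ytv1222 : DT.all (wzR cT Cz.tj Cz.tp Cz.tv) Cz.tv1222 = true := by decide +kernel

theorem ytv1223 : DT.all (wzR cT Cz.tj Cz.tp Cz.tv) Cz.tv1223 = true := by decide +kernel

theorem ytv1224 : DT.all (wzR cT Cz.tj Cz.tp Cz.tv) Cz.tv1224 = true := by decide +kernel

theorem ytv1225 : DT.all (wzR cT Cz.tj Cz.tp Cz.tv) Cz.tv1225 = true := by decide +kernel


end Pool.Agent.Lib.MP_5854e1_co.Cz
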