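import Pool.Agent.Lib.MP_5854e1_co.Cz.P

/-!
# The rows of the rings
-/

set_option autoImplicit false
set_option maxRecDepth 100000
set_option deprecated.oldSectionVars true

namespace Pool.Agent.Lib.MP_5854e1_co.Cz

open Pool.Agent.Lib.MP_5854e1_co PB

theorem ytv1125 : DT.all (wzR cT Cz.tj Cz.tp Cz.tv) Cz.tv1125 = true := by decide +kernel

theorem ytv1126 : DT.all (wzR cT Cz.tj Cz.tp Cz.tv) Cz.tv1126 = true := by decide +kernel

theorem ytv1127 : DT.all (wzR cT Cz.tj Cz.tp Cz.tv) Cz.tv1127 = true := by decide +kernel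

theorem ytv1128 : DT.all (wzR cT Cz.tj Cz.tp Cz.tv) Cz.tv1128 = true := by decide +kernel

theorem ytv1129 : DT.all (wzR cT Cz.tj Cz.tp Cz.tv) Cz.tv1129 = true := by decide +kernel

theorem ytv1130 : DT.all (wzR cT Cz.tj Cz.tp Cz.tv) Cz.tv1130 = true := by decide +kernel

theorem ytv1131 : DT.all (wzR cT Cz.tj Cz.tp Cz.tv) Cz.tv1131 = true := by decide +kernel


end Pool.Agent.Lib.MP_5854e1_co.Cz

namespace Pool.Agent.Lib.MP_5854e1_co.Cz

open Pool.Agent.Lib.MP_5854e1_co PB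

theorem ytv3537 : DT.all (wzR cT Cz.tj Cz.tp Cz.tv) Cz.tv3537 = true := by decide +kernel

theorem ytv3538 : DT.all (wzR cT Cz.tj Cz.tp Cz.tv) Cz.tv3538 = true := by decide +kernel

theorem ytv3539 : DT.all (wzR cT Cz.tj Cz.tp Cz.tv) Cz.tv3539 = true := by decide +kernel

theorem ytv3540 : DT.all (wzR cT Cz.tj Cz.tp Cz.tv) Cz.tv3540 = true := by decide +kernel

theorem ytv3541 : DT.all (wzR cT Cz.tj Cz.tp Cz.tv) Cz.tv3541 = true := by decide +kernel

theorem ytv3542 : DT.all (wzR cT Cz.tj Cz.tp Cz.tv) Cz.tv3542 = true := by decide +kernel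

theorem ytv3543 : DT.all (wzR cT Cz.tj Cz.tp Cz.tv) Cz.tv3543 = true := by decide +kernel

theorem ytv3544 : DT.all (wzR cT Cz.tj Cz.tp Cz.tv) Cz.tv3544 = true := by decide +kernel

theorem ytv3545 : DT.all (wzR cT Cz.tj Cz.tp Cz.tv) Cz.tv3545 = true := by decide +kernel

theorem ytv3546 : DT.all (wzR cT Cz.tj Cz.tp Cz.tv) Cz.tv3546 = true := by decide +kernel


end Pool.Agent.Lib.MP_5854e1_co.Cz
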