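import Pool.Agent.Lib.MP_5854e1_co.Cz.P

/-!
# The rows of the rings
-/

set_option autoImplicit false
set_option maxRecDepth 100000
set_option deprecated.oldSectionVars true

namespace Pool.Agent.Lib.MP_5854e1_co.Cz

open Pool.Agent.Lib.MP_5854e1_co PB

theorem ytv1132 : DT.all (wzR cT Cz.tj Cz.tp Cz.tv) Cz.tv1132 = true := by decide +kernel

theorem ytv1133 : DT.all (wzR cT Cz.tj Cz.tp Cz.tv) Cz.tv1133 = true := by decide +kernel

theorem ytv1134 : DT.all (wzR cT Cz.tj Cz.tp Cz.tv) Cz.tv1134 = true := by decide +kernel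

theorem ytv1135 : DT.all (wzR cT Cz.tj Cz.tp Cz.tv) Cz.tv1135 = true := by decide +kernel

theorem ytv1136 : DT.all (wzR cT Cz.tj Cz.tp Cz.tv) Cz.tv1136 = true := by decide +kernel

theorem ytv1137 : DT.all (wzR cT Cz.tj Cz.tp Cz.tv) Cz.tv1137 = true := by decide +kernel

theorem ytv1138 : DT.all (wzR cT Cz.tj Cz.tp Cz.tv) Cz.tv1138 = true := by decide +kernel

theorem ytv1139 : DT.all (wzR cT Cz.tj Cz.tp Cz.tv) Cz.tv1139 = true := by decide +kernel

theorem ytv1140 : DT.all (wzR cT Cz.tj Cz.tp Cz.tv) Cz.tv1140 = true := by decide +kernel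


end Pool.Agent.Lib.MP_5854e1_co.Cz

namespace Pool.Agent.Lib.MP_5854e1_co.Cz

open Pool.Agent.Lib.MP_5854e1_co PB

theorem ytv4095 : DT.all (wzR cT Cz.tj Cz.tp Cz.tv) Cz.tv4095 = true := by decide +kernel

theorem ytv4096 : DT.all (wzR cT Cz.tj Cz.tp Cz.tv) Cz.tv4096 = true := by decide +kernel

theorem ytv4097 : DT.all (wzR cT Cz.tj Cz.tp Cz.tv) Cz.tv4097 = true := by decide +kernel

theorem ytv4098 : DT.all (wzR cT Cz.tj Cz.tp Cz.tv) Cz.tv4098 = true := by decide +kernel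

theorem ytv4099 : DT.all (wzR cT Cz.tj Cz.tp Cz.tv) Cz.tv4099 = true := by decide +kernel


end Pool.Agent.Lib.MP_5854e1_co.Cz
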