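import Pool.Agent.Lib.MP_5854e1_co.Cz.P

/-!
# The rows of the rings
-/

set_option autoImplicit false
set_option maxRecDepth 100000
set_option deprecated.oldSectionVars true

namespace Pool.Agent.Lib.MP_5854e1_co.Cz

open Pool.Agent.Lib.MP_5854e1_co PB

theorem ytv1150 : DT.all (wzR cT Cz.tj Cz.tp Cz.tv) Cz.tv1150 = true := by decide +kernel

theorem ytv1151 : DT.all (wzR cT Cz.tj Cz.tp Cz.tv) Cz.tv1151 = true := by decide +kernel

theorem ytv1152 : DT.all (wzR cT Cz.tj Cz.tp Cz.tv) Cz.tv1152 = true := by decide +kernel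

theorem ytv1153 : DT.all (wzR cT Cz.tj Cz.tp Cz.tv) Cz.tv1153 = true := by decide +kernel

theorem ytv1154 : DT.all (wzR cT Cz.tj Cz.tp Cz.tv) Cz.tv1154 = true := by decide +kernel

theorem ytv1155 : DT.all (wzR cT Cz.tj Cz.tp Cz.tv) Cz.tv1155 = true := by decide +kernel

theorem ytv1156 : DT.all (wzR cT Cz.tj Cz.tp Cz.tv) Cz.tv1156 = true := by decide +kernel

theorem ytv1157 : DT.all (wzR cT Cz.tj Cz.tp Cz.tv) Cz.tv1157 = true := by decide +kernel

theorem ytv1158 : DT.all (wzR cT Cz.tj Cz.tp Cz.tv) Cz.tv1158 = true := by decide +kernel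


end Pool.Agent.Lib.MP_5854e1_co.Cz
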