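import Pool.Agent.Lib.MP_5854e1_co.Cz.P

/-!
# The rows of the rings
-/

set_option autoImplicit false
set_option maxRecDepth 100000
set_option deprecated.oldSectionVars true

namespace Pool.Agent.Lib.MP_5854e1_co.Cz

open Pool.Agent.Lib.MP_5854e1_co PB

theorem ytv1159 : DT.all (wzR cT Cz.tj Cz.tp Cz.tv) Cz.tv1159 = true := by decide +kernel

theorem ytv1160 : DT.all (wzR cT Cz.tj Cz.tp Cz.tv) Cz.tv1160 = true := by decide +kernel

theorem ytv1161 : DT.all (wzR cT Cz.tj Cz.tp Cz.tv) Cz.tv1161 = true := by decide +kernel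

theorem ytv1162 : DT.all (wzR cT Cz.tj Cz.tp Cz.tv) Cz.tv1162 = true := by decide +kernel

theorem ytv1163 : DT.all (wzR cT Cz.tj Cz.tp Cz.tv) Cz.tv1163 = true := by decide +kernel

theorem ytv1164 : DT.all (wzR cT Cz.tj Cz.tp Cz.tv) Cz.tv1164 = true := by decide +kernel

theorem ytv1165 : DT.all (wzR cT Cz.tj Cz.tp Cz.tv) Cz.tv1165 = true := by decide +kernel

theorem ytv1166 : DT.all (wzR cT Cz.tj Cz.tp Cz.tv) Cz.tv1166 = true := by decide +kernel


end Pool.Agent.Lib.MP_5854e1_co.Cz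

namespace Pool.Agent.Lib.MP_5854e1_co.Cz

open Pool.Agent.Lib.MP_5854e1_co PB

theorem ytv4162 : DT.all (wzR cT Cz.tj Cz.tp Cz.tv) Cz.tv4162 = true := by decide +kernel

theorem ytv4163 : DT.all (wzR cT Cz.tj Cz.tp Cz.tv) Cz.tv4163 = true := by decide +kernel

theorem ytv4164 : DT.all (wzR cT Cz.tj Cz.tp Cz.tv) Cz.tv4164 = true := by decide +kernel

theorem ytv4165 : DT.all (wzR cT Cz.tj Cz.tp Cz.tv) Cz.tv4165 = true := by decide +kernel

theorem ytv4166 : DT.all (wzR cT Cz.tj Cz.tp Cz.tv) Cz.tv4166 = true := by decide +kernel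


end Pool.Agent.Lib.MP_5854e1_co.Cz
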