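import Pool.Agent.Lib.MP_5854e1_co.Cz.P

/-!
# The rows of the rings
-/

set_option autoImplicit false
set_option maxRecDepth 100000
set_option deprecated.oldSectionVars true

namespace Pool.Agent.Lib.MP_5854e1_co.Cz

open Pool.Agent.Lib.MP_5854e1_co PB

theorem ytv1167 : DT.all (wzR cT Cz.tj Cz.tp Cz.tv) Cz.tv1167 = true := by decide +kernel

theorem ytv1168 : DT.all (wzR cT Cz.tj Cz.tp Cz.tv) Cz.tv1168 = true := by decide +kernel

theorem ytv1169 : DT.all (wzR cT Cz.tj Cz.tp Cz.tv) Cz.tv1169 = true := by decide +kernel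

theorem ytv1170 : DT.all (wzR cT Cz.tj Cz.tp Cz.tv) Cz.tv1170 = true := by decide +kernel

theorem ytv1171 : DT.all (wzR cT Cz.tj Cz.tp Cz.tv) Cz.tv1171 = true := by decide +kernel

theorem ytv1172 : DT.all (wzR cT Cz.tj Cz.tp Cz.tv) Cz.tv1172 = true := by decide +kernel

theorem ytv1173 : DT.all (wzR cT Cz.tj Cz.tp Cz.tv) Cz.tv1173 = true := by decide +kernel

theorem ytv1174 : DT.all (wzR cT Cz.tj Cz.tp Cz.tv) Cz.tv1174 = true := by decide +kernel

theorem ytv1175 : DT.all (wzR cT Cz.tj Cz.tp Cz.tv) Cz.tv1175 = true := by decide +kernel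


end Pool.Agent.Lib.MP_5854e1_co.Cz

namespace Pool.Agent.Lib.MP_5854e1_co.Cz

open Pool.Agent.Lib.MP_5854e1_co PB

theorem ytv1948 : DT.all (wzR cT Cz.tj Cz.tp Cz.tv) Cz.tv1948 = true := by decide +kernel

theorem ytv1949 : DT.all (wzR cT Cz.tj Cz.tp Cz.tv) Cz.tv1949 = true := by decide +kernel

theorem ytv1950 : DT.all (wzR cT Cz.tj Cz.tp Cz.tv) Cz.tv1950 = true := by decide +kernel

theorem ytv1951 : DT.all (wzR cT Cz.tj Cz.tp Cz.tv) Cz.tv1951 = true := by decide +kernel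

theorem ytv1952 : DT.all (wzR cT Cz.tj Cz.tp Cz.tv) Cz.tv1952 = true := by decide +kernel

theorem ytv1953 : DT.all (wzR cT Cz.tj Cz.tp Cz.tv) Cz.tv1953 = true := by decide +kernel

theorem ytv1954 : DT.all (wzR cT Cz.tj Cz.tp Cz.tv) Cz.tv1954 = true := by decide +kernel

theorem ytv1955 : DT.all (wzR cT Cz.tj Cz.tp Cz.tv) Cz.tv1955 = true := by decide +kernel

theorem ytv1956 : DT.all (wzR cT Cz.tj Cz.tp Cz.tv) Cz.tv1956 = true := by decide +kernel


end Pool.Agent.Lib.MP_5854e1_co.Cz
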