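import Pool.Agent.Lib.MP_5854e1_co.Cz.P

/-!
# The rows of the rings
-/

set_option autoImplicit false
set_option maxRecDepth 100000
set_option deprecated.oldSectionVars true

namespace Pool.Agent.Lib.MP_5854e1_co.Cz

open Pool.Agent.Lib.MP_5854e1_co PB

theorem ytv1176 : DT.all (wzR cT Cz.tj Cz.tp Cz.tv) Cz.tv1176 = true := by decide +kernel

theorem ytv1177 : DT.all (wzR cT Cz.tj Cz.tp Cz.tv) Cz.tv1177 = true := by decide +kernel

theorem ytv1178 : DT.all (wzR cT Cz.tj Cz.tp Cz.tv) Cz.tv1178 = true := by decide +kernel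

theorem ytv1179 : DT.all (wzR cT Cz.tj Cz.tp Cz.tv) Cz.tv1179 = true := by decide +kernel

theorem ytv1180 : DT.all (wzR cT Cz.tj Cz.tp Cz.tv) Cz.tv1180 = true := by decide +kernel

theorem ytv1181 : DT.all (wzR cT Cz.tj Cz.tp Cz.tv) Cz.tv1181 = true := by decide +kernel

theorem ytv1182 : DT.all (wzR cT Cz.tj Cz.tp Cz.tv) Cz.tv1182 = true := by decide +kernel

theorem ytv1183 : DT.all (wzR cT Cz.tj Cz.tp Cz.tv) Cz.tv1183 = true := by decide +kernel

theorem ytv1184 : DT.all (wzR cT Cz.tj Cz.tp Cz.tv) Cz.tv1184 = true := by decide +kernel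


end Pool.Agent.Lib.MP_5854e1_co.Cz

namespace Pool.Agent.Lib.MP_5854e1_co.Cz

open Pool.Agent.Lib.MP_5854e1_co PB

theorem ytv3770 : DT.all (wzR cT Cz.tj Cz.tp Cz.tv) Cz.tv3770 = true := by decide +kernel

theorem ytv3771 : DT.all (wzR cT Cz.tj Cz.tp Cz.tv) Cz.tv3771 = true := by decide +kernel

theorem ytv3772 : DT.all (wzR cT Cz.tj Cz.tp Cz.tv) Cz.tv3772 = true := by decide +kernel

theorem ytv3773 : DT.all (wzR cT Cz.tj Cz.tp Cz.tv) Cz.tv3773 = true := by decide +kernel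

theorem ytv3774 : DT.all (wzR cT Cz.tj Cz.tp Cz.tv) Cz.tv3774 = true := by decide +kernel

theorem ytv3775 : DT.all (wzR cT Cz.tj Cz.tp Cz.tv) Cz.tv3775 = true := by decide +kernel

theorem ytv3776 : DT.all (wzR cT Cz.tj Cz.tp Cz.tv) Cz.tv3776 = true := by decide +kernel

theorem ytv3777 : DT.all (wzR cT Cz.tj Cz.tp Cz.tv) Cz.tv3777 = true := by decide +kernel

theorem ytv3778 : DT.all (wzR cT Cz.tj Cz.tp Cz.tv) Cz.tv3778 = true := by decide +kernel

theorem ytv3779 : DT.all (wzR cT Cz.tj Cz.tp Cz.tv) Cz.tv3779 = true := by decide +kernel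


end Pool.Agent.Lib.MP_5854e1_co.Cz
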