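import Pool.Agent.Lib.MP_5854e1_co.Cz.P

/-!
# The rows of the rings
-/

set_option autoImplicit false
set_option maxRecDepth 100000
set_option deprecated.oldSectionVars true

namespace Pool.Agent.Lib.MP_5854e1_co.Cz

open Pool.Agent.Lib.MP_5854e1_co PB

theorem ytv116 : DT.all (wzR cT Cz.tj Cz.tp Cz.tv) Cz.tv116 = true := by decide +kernel

theorem ytv117 : DT.all (wzR cT Cz.tj Cz.tp Cz.tv) Cz.tv117 = true := by decide +kernel

theorem ytv118 : DT.all (wzR cT Cz.tj Cz.tp Cz.tv) Cz.tv118 = true := by decide +kernel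

theorem ytv119 : DT.all (wzR cT Cz.tj Cz.tp Cz.tv) Cz.tv119 = true := by decide +kernel

theorem ytv120 : DT.all (wzR cT Cz.tj Cz.tp Cz.tv) Cz.tv120 = true := by decide +kernel

theorem ytv121 : DT.all (wzR cT Cz.tj Cz.tp Cz.tv) Cz.tv121 = true := by decide +kernel

theorem ytv122 : DT.all (wzR cT Cz.tj Cz.tp Cz.tv) Cz.tv122 = true := by decide +kernel

theorem ytv123 : DT.all (wzR cT Cz.tj Cz.tp Cz.tv) Cz.tv123 = true := by decide +kernel

theorem ytv124 : DT.all (wzR cT Cz.tj Cz.tp Cz.tv) Cz.tv124 = true := by decide +kernel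


end Pool.Agent.Lib.MP_5854e1_co.Cz

namespace Pool.Agent.Lib.MP_5854e1_co.Cz

open Pool.Agent.Lib.MP_5854e1_co PB

theorem ytv3879 : DT.all (wzR cT Cz.tj Cz.tp Cz.tv) Cz.tv3879 = true := by decide +kernel

theorem ytv3880 : DT.all (wzR cT Cz.tj Cz.tp Cz.tv) Cz.tv3880 = true := by decide +kernel


end Pool.Agent.Lib.MP_5854e1_co.Cz
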