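import Pool.Agent.Lib.MP_5854e1_co.Cz.P

/-!
# The rows of the rings
-/

set_option autoImplicit false
set_option maxRecDepth 100000
set_option deprecated.oldSectionVars true

namespace Pool.Agent.Lib.MP_5854e1_co.Cz

open Pool.Agent.Lib.MP_5854e1_co PB

theorem ytv1185 : DT.all (wzR cT Cz.tj Cz.tp Cz.tv) Cz.tv1185 = true := by decide +kernel

theorem ytv1186 : DT.all (wzR cT Cz.tj Cz.tp Cz.tv) Cz.tv1186 = true := by decide +kernel

theorem ytv1187 : DT.all (wzR cT Cz.tj Cz.tp Cz.tv) Cz.tv1187 = true := by decide +kernel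

theorem ytv1188 : DT.all (wzR cT Cz.tj Cz.tp Cz.tv) Cz.tv1188 = true := by decide +kernel

theorem ytv1189 : DT.all (wzR cT Cz.tj Cz.tp Cz.tv) Cz.tv1189 = true := by decide +kernel

theorem ytv1190 : DT.all (wzR cT Cz.tj Cz.tp Cz.tv) Cz.tv1190 = true := by decide +kernel

theorem ytv1191 : DT.all (wzR cT Cz.tj Cz.tp Cz.tv) Cz.tv1191 = true := by decide +kernel

theorem ytv1192 : DT.all (wzR cT Cz.tj Cz.tp Cz.tv) Cz.tv1192 = true := by decide +kernel


end Pool.Agent.Lib.MP_5854e1_co.Cz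

namespace Pool.Agent.Lib.MP_5854e1_co.Cz

open Pool.Agent.Lib.MP_5854e1_co PB

theorem ytv1557 : DT.all (wzR cT Cz.tj Cz.tp Cz.tv) Cz.tv1557 = true := by decide +kernel

theorem ytv1558 : DT.all (wzR cT Cz.tj Cz.tp Cz.tv) Cz.tv1558 = true := by decide +kernel

theorem ytv1559 : DT.all (wzR cT Cz.tj Cz.tp Cz.tv) Cz.tv1559 = true := by decide +kernel

theorem ytv1560 : DT.all (wzR cT Cz.tj Cz.tp Cz.tv) Cz.tv1560 = true := by decide +kernel

theorem ytv1561 : DT.all (wzR cT Cz.tj Cz.tp Cz.tv) Cz.tv1561 = true := by decide +kernel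

theorem ytv1562 : DT.all (wzR cT Cz.tj Cz.tp Cz.tv) Cz.tv1562 = true := by decide +kernel

theorem ytv1563 : DT.all (wzR cT Cz.tj Cz.tp Cz.tv) Cz.tv1563 = true := by decide +kernel


end Pool.Agent.Lib.MP_5854e1_co.Cz
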