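import Pool.Agent.Lib.MP_5854e1_co.Cz.P

/-!
# The rows of the rings
-/

set_option autoImplicit false
set_option maxRecDepth 100000
set_option deprecated.oldSectionVars true

namespace Pool.Agent.Lib.MP_5854e1_co.Cz

open Pool.Agent.Lib.MP_5854e1_co PB

theorem ytv1201 : DT.all (wzR cT Cz.tj Cz.tp Cz.tv) Cz.tv1201 = true := by decide +kernel

theorem ytv1202 : DT.all (wzR cT Cz.tj Cz.tp Cz.tv) Cz.tv1202 = true := by decide +kernel

theorem ytv1203 : DT.all (wzR cT Cz.tj Cz.tp Cz.tv) Cz.tv1203 = true := by decide +kernel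

theorem ytv1204 : DT.all (wzR cT Cz.tj Cz.tp Cz.tv) Cz.tv1204 = true := by decide +kernel

theorem ytv1205 : DT.all (wzR cT Cz.tj Cz.tp Cz.tv) Cz.tv1205 = true := by decide +kernel

theorem ytv1206 : DT.all (wzR cT Cz.tj Cz.tp Cz.tv) Cz.tv1206 = true := by decide +kernel

theorem ytv1207 : DT.all (wzR cT Cz.tj Cz.tp Cz.tv) Cz.tv1207 = true := by decide +kernel

theorem ytv1208 : DT.all (wzR cT Cz.tj Cz.tp Cz.tv) Cz.tv1208 = true := by decide +kernel


end Pool.Agent.Lib.MP_5854e1_co.Cz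

namespace Pool.Agent.Lib.MP_5854e1_co.Cz

open Pool.Agent.Lib.MP_5854e1_co PB

theorem ytv2342 : DT.all (wzR cT Cz.tj Cz.tp Cz.tv) Cz.tv2342 = true := by decide +kernel

theorem ytv2343 : DT.all (wzR cT Cz.tj Cz.tp Cz.tv) Cz.tv2343 = true := by decide +kernel

theorem ytv2344 : DT.all (wzR cT Cz.tj Cz.tp Cz.tv) Cz.tv2344 = true := by decide +kernel

theorem ytv2345 : DT.all (wzR cT Cz.tj Cz.tp Cz.tv) Cz.tv2345 = true := by decide +kernel

theorem ytv2346 : DT.all (wzR cT Cz.tj Cz.tp Cz.tv) Cz.tv2346 = true := by decide +kernel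

theorem ytv2347 : DT.all (wzR cT Cz.tj Cz.tp Cz.tv) Cz.tv2347 = true := by decide +kernel

theorem ytv2348 : DT.all (wzR cT Cz.tj Cz.tp Cz.tv) Cz.tv2348 = true := by decide +kernel

theorem ytv2349 : DT.all (wzR cT Cz.tj Cz.tp Cz.tv) Cz.tv2349 = true := by decide +kernel

theorem ytv2350 : DT.all (wzR cT Cz.tj Cz.tp Cz.tv) Cz.tv2350 = true := by decide +kernel


end Pool.Agent.Lib.MP_5854e1_co.Cz
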