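import Pool.Agent.Lib.MP_5854e1_co.Cz.P

/-!
# The rows of the rings
-/

set_option autoImplicit false
set_option maxRecDepth 100000
set_option deprecated.oldSectionVars true

namespace Pool.Agent.Lib.MP_5854e1_co.Cz

open Pool.Agent.Lib.MP_5854e1_co PB

theorem ytv1209 : DT.all (wzR cT Cz.tj Cz.tp Cz.tv) Cz.tv1209 = true := by decide +kernel

theorem ytv1210 : DT.all (wzR cT Cz.tj Cz.tp Cz.tv) Cz.tv1210 = true := by decide +kernel

theorem ytv1211 : DT.all (wzR cT Cz.tj Cz.tp Cz.tv) Cz.tv1211 = true := by decide +kernel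

theorem ytv1212 : DT.all (wzR cT Cz.tj Cz.tp Cz.tv) Cz.tv1212 = true := by decide +kernel

theorem ytv1213 : DT.all (wzR cT Cz.tj Cz.tp Cz.tv) Cz.tv1213 = true := by decide +kernel

theorem ytv1214 : DT.all (wzR cT Cz.tj Cz.tp Cz.tv) Cz.tv1214 = true := by decide +kernel

theorem ytv1215 : DT.all (wzR cT Cz.tj Cz.tp Cz.tv) Cz.tv1215 = true := by decide +kernel

theorem ytv1216 : DT.all (wzR cT Cz.tj Cz.tp Cz.tv) Cz.tv1216 = true := by decide +kernel


end Pool.Agent.Lib.MP_5854e1_co.Cz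

namespace Pool.Agent.Lib.MP_5854e1_co.Cz

open Pool.Agent.Lib.MP_5854e1_co PB

theorem ytv5070 : DT.all (wzR cT Cz.tj Cz.tp Cz.tv) Cz.tv5070 = true := by decide +kernel

theorem ytv5071 : DT.all (wzR cT Cz.tj Cz.tp Cz.tv) Cz.tv5071 = true := by decide +kernel

theorem ytv5072 : DT.all (wzR cT Cz.tj Cz.tp Cz.tv) Cz.tv5072 = true := by decide +kernel

theorem ytv5073 : DT.all (wzR cT Cz.tj Cz.tp Cz.tv) Cz.tv5073 = true := by decide +kernel

theorem ytv5074 : DT.all (wzR cT Cz.tj Cz.tp Cz.tv) Cz.tv5074 = true := by decide +kernel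

theorem ytv5075 : DT.all (wzR cT Cz.tj Cz.tp Cz.tv) Cz.tv5075 = true := by decide +kernel

theorem ytv5076 : DT.all (wzR cT Cz.tj Cz.tp Cz.tv) Cz.tv5076 = true := by decide +kernel

theorem ytv5077 : DT.all (wzR cT Cz.tj Cz.tp Cz.tv) Cz.tv5077 = true := by decide +kernel

theorem ytv5078 : DT.all (wzR cT Cz.tj Cz.tp Cz.tv) Cz.tv5078 = true := by decide +kernel


end Pool.Agent.Lib.MP_5854e1_co.Cz
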