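import Pool.Agent.Lib.MP_5854e1_co.Cz.P

/-!
# The rows of the rings
-/

set_option autoImplicit false
set_option maxRecDepth 100000
set_option deprecated.oldSectionVars true

namespace Pool.Agent.Lib.MP_5854e1_co.Cz

open Pool.Agent.Lib.MP_5854e1_co PB

theorem ytv1243 : DT.all (wzR cT Cz.tj Cz.tp Cz.tv) Cz.tv1243 = true := by decide +kernel

theorem ytv1244 : DT.all (wzR cT Cz.tj Cz.tp Cz.tv) Cz.tv1244 = true := by decide +kernel

theorem ytv1245 : DT.all (wzR cT Cz.tj Cz.tp Cz.tv) Cz.tv1245 = true := by decide +kernel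

theorem ytv1246 : DT.all (wzR cT Cz.tj Cz.tp Cz.tv) Cz.tv1246 = true := by decide +kernel

theorem ytv1247 : DT.all (wzR cT Cz.tj Cz.tp Cz.tv) Cz.tv1247 = true := by decide +kernel

theorem ytv1248 : DT.all (wzR cT Cz.tj Cz.tp Cz.tv) Cz.tv1248 = true := by decide +kernel

theorem ytv1249 : DT.all (wzR cT Cz.tj Cz.tp Cz.tv) Cz.tv1249 = true := by decide +kernel

theorem ytv1250 : DT.all (wzR cT Cz.tj Cz.tp Cz.tv) Cz.tv1250 = true := by decide +kernel

theorem ytv1251 : DT.all (wzR cT Cz.tj Cz.tp Cz.tv) Cz.tv1251 = true := by decide +kernel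


end Pool.Agent.Lib.MP_5854e1_co.Cz

namespace Pool.Agent.Lib.MP_5854e1_co.Cz

open Pool.Agent.Lib.MP_5854e1_co PB

theorem ytv4270 : DT.all (wzR cT Cz.tj Cz.tp Cz.tv) Cz.tv4270 = true := by decide +kernel

theorem ytv4271 : DT.all (wzR cT Cz.tj Cz.tp Cz.tv) Cz.tv4271 = true := by decide +kernel

theorem ytv4272 : DT.all (wzR cT Cz.tj Cz.tp Cz.tv) Cz.tv4272 = true := by decide +kernel

theorem ytv4273 : DT.all (wzR cT Cz.tj Cz.tp Cz.tv) Cz.tv4273 = true := by decide +kernel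

theorem ytv4274 : DT.all (wzR cT Cz.tj Cz.tp Cz.tv) Cz.tv4274 = true := by decide +kernel

theorem ytv4275 : DT.all (wzR cT Cz.tj Cz.tp Cz.tv) Cz.tv4275 = true := by decide +kernel

theorem ytv4276 : DT.all (wzR cT Cz.tj Cz.tp Cz.tv) Cz.tv4276 = true := by decide +kernel

theorem ytv4277 : DT.all (wzR cT Cz.tj Cz.tp Cz.tv) Cz.tv4277 = true := by decide +kernel

theorem ytv4278 : DT.all (wzR cT Cz.tj Cz.tp Cz.tv) Cz.tv4278 = true := by decide +kernel


end Pool.Agent.Lib.MP_5854e1_co.Cz
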