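import Pool.Agent.Lib.MP_5854e1_co.Cz.P

/-!
# The rows of the rings
-/

set_option autoImplicit false
set_option maxRecDepth 100000
set_option deprecated.oldSectionVars true

namespace Pool.Agent.Lib.MP_5854e1_co.Cz

open Pool.Agent.Lib.MP_5854e1_co PB

theorem ytv125 : DT.all (wzR cT Cz.tj Cz.tp Cz.tv) Cz.tv125 = true := by decide +kernel

theorem ytv126 : DT.all (wzR cT Cz.tj Cz.tp Cz.tv) Cz.tv126 = true := by decide +kernel

theorem ytv127 : DT.all (wzR cT Cz.tj Cz.tp Cz.tv) Cz.tv127 = true := by decide +kernel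

theorem ytv128 : DT.all (wzR cT Cz.tj Cz.tp Cz.tv) Cz.tv128 = true := by decide +kernel

theorem ytv129 : DT.all (wzR cT Cz.tj Cz.tp Cz.tv) Cz.tv129 = true := by decide +kernel

theorem ytv130 : DT.all (wzR cT Cz.tj Cz.tp Cz.tv) Cz.tv130 = true := by decide +kernel

theorem ytv131 : DT.all (wzR cT Cz.tj Cz.tp Cz.tv) Cz.tv131 = true := by decide +kernel

theorem ytv132 : DT.all (wzR cT Cz.tj Cz.tp Cz.tv) Cz.tv132 = true := by decide +kernel

theorem ytv133 : DT.all (wzR cT Cz.tj Cz.tp Cz.tv) Cz.tv133 = true := by decide +kernel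


end Pool.Agent.Lib.MP_5854e1_co.Cz
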