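import Pool.Agent.Lib.MP_5854e1_co.Cz.P

/-!
# The rows of the rings
-/

set_option autoImplicit false
set_option maxRecDepth 100000
set_option deprecated.oldSectionVars true

namespace Pool.Agent.Lib.MP_5854e1_co.Cz

open Pool.Agent.Lib.MP_5854e1_co PB

theorem ytv1270 : DT.all (wzR cT Cz.tj Cz.tp Cz.tv) Cz.tv1270 = true := by decide +kernel

theorem ytv1271 : DT.all (wzR cT Cz.tj Cz.tp Cz.tv) Cz.tv1271 = true := by decide +kernel

theorem ytv1272 : DT.all (wzR cT Cz.tj Cz.tp Cz.tv) Cz.tv1272 = true := by decide +kernel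

theorem ytv1273 : DT.all (wzR cT Cz.tj Cz.tp Cz.tv) Cz.tv1273 = true := by decide +kernel

theorem ytv1274 : DT.all (wzR cT Cz.tj Cz.tp Cz.tv) Cz.tv1274 = true := by decide +kernel

theorem ytv1275 : DT.all (wzR cT Cz.tj Cz.tp Cz.tv) Cz.tv1275 = true := by decide +kernel

theorem ytv1276 : DT.all (wzR cT Cz.tj Cz.tp Cz.tv) Cz.tv1276 = true := by decide +kernel

theorem ytv1277 : DT.all (wzR cT Cz.tj Cz.tp Cz.tv) Cz.tv1277 = true := by decide +kernel


end Pool.Agent.Lib.MP_5854e1_co.Cz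

namespace Pool.Agent.Lib.MP_5854e1_co.Cz

open Pool.Agent.Lib.MP_5854e1_co PB

theorem ytv2736 : DT.all (wzR cT Cz.tj Cz.tp Cz.tv) Cz.tv2736 = true := by decide +kernel

theorem ytv2737 : DT.all (wzR cT Cz.tj Cz.tp Cz.tv) Cz.tv2737 = true := by decide +kernel

theorem ytv2738 : DT.all (wzR cT Cz.tj Cz.tp Cz.tv) Cz.tv2738 = true := by decide +kernel

theorem ytv2739 : DT.all (wzR cT Cz.tj Cz.tp Cz.tv) Cz.tv2739 = true := by decide +kernel

theorem ytv2740 : DT.all (wzR cT Cz.tj Cz.tp Cz.tv) Cz.tv2740 = true := by decide +kernel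

theorem ytv2741 : DT.all (wzR cT Cz.tj Cz.tp Cz.tv) Cz.tv2741 = true := by decide +kernel

theorem ytv2742 : DT.all (wzR cT Cz.tj Cz.tp Cz.tv) Cz.tv2742 = true := by decide +kernel

theorem ytv2743 : DT.all (wzR cT Cz.tj Cz.tp Cz.tv) Cz.tv2743 = true := by decide +kernel

theorem ytv2744 : DT.all (wzR cT Cz.tj Cz.tp Cz.tv) Cz.tv2744 = true := by decide +kernel


end Pool.Agent.Lib.MP_5854e1_co.Cz
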