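import Pool.Agent.Lib.MP_5854e1_co.Cz.P

/-!
# The rows of the rings
-/

set_option autoImplicit false
set_option maxRecDepth 100000
set_option deprecated.oldSectionVars true

namespace Pool.Agent.Lib.MP_5854e1_co.Cz

open Pool.Agent.Lib.MP_5854e1_co PB

theorem ytv1286 : DT.all (wzR cT Cz.tj Cz.tp Cz.tv) Cz.tv1286 = true := by decide +kernel

theorem ytv1287 : DT.all (wzR cT Cz.tj Cz.tp Cz.tv) Cz.tv1287 = true := by decide +kernel

theorem ytv1288 : DT.all (wzR cT Cz.tj Cz.tp Cz.tv) Cz.tv1288 = true := by decide +kernel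

theorem ytv1289 : DT.all (wzR cT Cz.tj Cz.tp Cz.tv) Cz.tv1289 = true := by decide +kernel

theorem ytv1290 : DT.all (wzR cT Cz.tj Cz.tp Cz.tv) Cz.tv1290 = true := by decide +kernel

theorem ytv1291 : DT.all (wzR cT Cz.tj Cz.tp Cz.tv) Cz.tv1291 = true := by decide +kernel

theorem ytv1292 : DT.all (wzR cT Cz.tj Cz.tp Cz.tv) Cz.tv1292 = true := by decide +kernel

theorem ytv1293 : DT.all (wzR cT Cz.tj Cz.tp Cz.tv) Cz.tv1293 = true := by decide +kernel


end Pool.Agent.Lib.MP_5854e1_co.Cz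

namespace Pool.Agent.Lib.MP_5854e1_co.Cz

open Pool.Agent.Lib.MP_5854e1_co PB

theorem ytv5223 : DT.all (wzR cT Cz.tj Cz.tp Cz.tv) Cz.tv5223 = true := by decide +kernel

theorem ytv5224 : DT.all (wzR cT Cz.tj Cz.tp Cz.tv) Cz.tv5224 = true := by decide +kernel

theorem ytv5225 : DT.all (wzR cT Cz.tj Cz.tp Cz.tv) Cz.tv5225 = true := by decide +kernel

theorem ytv5226 : DT.all (wzR cT Cz.tj Cz.tp Cz.tv) Cz.tv5226 = true := by decide +kernel


end Pool.Agent.Lib.MP_5854e1_co.Cz
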