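import Pool.Agent.Lib.MP_5854e1_co.Cz.P

/-!
# The rows of the rings
-/

set_option autoImplicit false
set_option maxRecDepth 100000
set_option deprecated.oldSectionVars true

namespace Pool.Agent.Lib.MP_5854e1_co.Cz

open Pool.Agent.Lib.MP_5854e1_co PB

theorem ytv1294 : DT.all (wzR cT Cz.tj Cz.tp Cz.tv) Cz.tv1294 = true := by decide +kernel

theorem ytv1295 : DT.all (wzR cT Cz.tj Cz.tp Cz.tv) Cz.tv1295 = true := by decide +kernel

theorem ytv1296 : DT.all (wzR cT Cz.tj Cz.tp Cz.tv) Cz.tv1296 = true := by decide +kernel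

theorem ytv1297 : DT.all (wzR cT Cz.tj Cz.tp Cz.tv) Cz.tv1297 = true := by decide +kernel

theorem ytv1298 : DT.all (wzR cT Cz.tj Cz.tp Cz.tv) Cz.tv1298 = true := by decide +kernel

theorem ytv1299 : DT.all (wzR cT Cz.tj Cz.tp Cz.tv) Cz.tv1299 = true := by decide +kernel

theorem ytv1300 : DT.all (wzR cT Cz.tj Cz.tp Cz.tv) Cz.tv1300 = true := by decide +kernel

theorem ytv1301 : DT.all (wzR cT Cz.tj Cz.tp Cz.tv) Cz.tv1301 = true := by decide +kernel


end Pool.Agent.Lib.MP_5854e1_co.Cz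

namespace Pool.Agent.Lib.MP_5854e1_co.Cz

open Pool.Agent.Lib.MP_5854e1_co PB

theorem ytv2803 : DT.all (wzR cT Cz.tj Cz.tp Cz.tv) Cz.tv2803 = true := by decide +kernel

theorem ytv2804 : DT.all (wzR cT Cz.tj Cz.tp Cz.tv) Cz.tv2804 = true := by decide +kernel

theorem ytv2805 : DT.all (wzR cT Cz.tj Cz.tp Cz.tv) Cz.tv2805 = true := by decide +kernel

theorem ytv2806 : DT.all (wzR cT Cz.tj Cz.tp Cz.tv) Cz.tv2806 = true := by decide +kernel

theorem ytv2807 : DT.all (wzR cT Cz.tj Cz.tp Cz.tv) Cz.tv2807 = true := by decide +kernel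

theorem ytv2808 : DT.all (wzR cT Cz.tj Cz.tp Cz.tv) Cz.tv2808 = true := by decide +kernel

theorem ytv2809 : DT.all (wzR cT Cz.tj Cz.tp Cz.tv) Cz.tv2809 = true := by decide +kernel

theorem ytv2810 : DT.all (wzR cT Cz.tj Cz.tp Cz.tv) Cz.tv2810 = true := by decide +kernel

theorem ytv2811 : DT.all (wzR cT Cz.tj Cz.tp Cz.tv) Cz.tv2811 = true := by decide +kernel

theorem ytv2812 : DT.all (wzR cT Cz.tj Cz.tp Cz.tv) Cz.tv2812 = true := by decide +kernel


end Pool.Agent.Lib.MP_5854e1_co.Cz
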