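import Pool.Agent.Lib.MP_5854e1_co.Cz.P

/-!
# The rows of the rings
-/

set_option autoImplicit false
set_option maxRecDepth 100000
set_option deprecated.oldSectionVars true

namespace Pool.Agent.Lib.MP_5854e1_co.Cz

open Pool.Agent.Lib.MP_5854e1_co PB

theorem ytv1302 : DT.all (wzR cT Cz.tj Cz.tp Cz.tv) Cz.tv1302 = true := by decide +kernel

theorem ytv1303 : DT.all (wzR cT Cz.tj Cz.tp Cz.tv) Cz.tv1303 = true := by decide +kernel

theorem ytv1304 : DT.all (wzR cT Cz.tj Cz.tp Cz.tv) Cz.tv1304 = true := by decide +kernel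

theorem ytv1305 : DT.all (wzR cT Cz.tj Cz.tp Cz.tv) Cz.tv1305 = true := by decide +kernel

theorem ytv1306 : DT.all (wzR cT Cz.tj Cz.tp Cz.tv) Cz.tv1306 = true := by decide +kernel

theorem ytv1307 : DT.all (wzR cT Cz.tj Cz.tp Cz.tv) Cz.tv1307 = true := by decide +kernel

theorem ytv1308 : DT.all (wzR cT Cz.tj Cz.tp Cz.tv) Cz.tv1308 = true := by decide +kernel

theorem ytv1309 : DT.all (wzR cT Cz.tj Cz.tp Cz.tv) Cz.tv1309 = true := by decide +kernel


end Pool.Agent.Lib.MP_5854e1_co.Cz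

namespace Pool.Agent.Lib.MP_5854e1_co.Cz

open Pool.Agent.Lib.MP_5854e1_co PB

theorem ytv2463 : DT.all (wzR cT Cz.tj Cz.tp Cz.tv) Cz.tv2463 = true := by decide +kernel

theorem ytv2464 : DT.all (wzR cT Cz.tj Cz.tp Cz.tv) Cz.tv2464 = true := by decide +kernel

theorem ytv2465 : DT.all (wzR cT Cz.tj Cz.tp Cz.tv) Cz.tv2465 = true := by decide +kernel

theorem ytv2466 : DT.all (wzR cT Cz.tj Cz.tp Cz.tv) Cz.tv2466 = true := by decide +kernel


end Pool.Agent.Lib.MP_5854e1_co.Cz
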