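import Pool.Agent.Lib.MP_5854e1_co.Cz.P

/-!
# The rows of the rings
-/

set_option autoImplicit false
set_option maxRecDepth 100000
set_option deprecated.oldSectionVars true

namespace Pool.Agent.Lib.MP_5854e1_co.Cz

open Pool.Agent.Lib.MP_5854e1_co PB

theorem ytv1327 : DT.all (wzR cT Cz.tj Cz.tp Cz.tv) Cz.tv1327 = true := by decide +kernel

theorem ytv1328 : DT.all (wzR cT Cz.tj Cz.tp Cz.tv) Cz.tv1328 = true := by decide +kernel

theorem ytv1329 : DT.all (wzR cT Cz.tj Cz.tp Cz.tv) Cz.tv1329 = true := by decide +kernel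

theorem ytv1330 : DT.all (wzR cT Cz.tj Cz.tp Cz.tv) Cz.tv1330 = true := by decide +kernel

theorem ytv1331 : DT.all (wzR cT Cz.tj Cz.tp Cz.tv) Cz.tv1331 = true := by decide +kernel

theorem ytv1332 : DT.all (wzR cT Cz.tj Cz.tp Cz.tv) Cz.tv1332 = true := by decide +kernel

theorem ytv1333 : DT.all (wzR cT Cz.tj Cz.tp Cz.tv) Cz.tv1333 = true := by decide +kernel

theorem ytv1334 : DT.all (wzR cT Cz.tj Cz.tp Cz.tv) Cz.tv1334 = true := by decide +kernel

theorem ytv1335 : DT.all (wzR cT Cz.tj Cz.tp Cz.tv) Cz.tv1335 = true := by decide +kernel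

theorem ytv1336 : DT.all (wzR cT Cz.tj Cz.tp Cz.tv) Cz.tv1336 = true := by decide +kernel


end Pool.Agent.Lib.MP_5854e1_co.Cz
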