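import Pool.Agent.Lib.MP_5854e1_co.Cz.P

/-!
# The rows of the rings
-/

set_option autoImplicit false
set_option maxRecDepth 100000
set_option deprecated.oldSectionVars true

namespace Pool.Agent.Lib.MP_5854e1_co.Cz

open Pool.Agent.Lib.MP_5854e1_co PB

theorem ytv1345 : DT.all (wzR cT Cz.tj Cz.tp Cz.tv) Cz.tv1345 = true := by decide +kernel

theorem ytv1346 : DT.all (wzR cT Cz.tj Cz.tp Cz.tv) Cz.tv1346 = true := by decide +kernel

theorem ytv1347 : DT.all (wzR cT Cz.tj Cz.tp Cz.tv) Cz.tv1347 = true := by decide +kernel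

theorem ytv1348 : DT.all (wzR cT Cz.tj Cz.tp Cz.tv) Cz.tv1348 = true := by decide +kernel

theorem ytv1349 : DT.all (wzR cT Cz.tj Cz.tp Cz.tv) Cz.tv1349 = true := by decide +kernel

theorem ytv1350 : DT.all (wzR cT Cz.tj Cz.tp Cz.tv) Cz.tv1350 = true := by decide +kernel

theorem ytv1351 : DT.all (wzR cT Cz.tj Cz.tp Cz.tv) Cz.tv1351 = true := by decide +kernel

theorem ytv1352 : DT.all (wzR cT Cz.tj Cz.tp Cz.tv) Cz.tv1352 = true := by decide +kernel

theorem ytv1353 : DT.all (wzR cT Cz.tj Cz.tp Cz.tv) Cz.tv1353 = true := by decide +kernel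

theorem ytv1354 : DT.all (wzR cT Cz.tj Cz.tp Cz.tv) Cz.tv1354 = true := by decide +kernel


end Pool.Agent.Lib.MP_5854e1_co.Cz
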