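import Pool.Agent.Lib.MP_5854e1_co.Cz.P

/-!
# The rows of the rings
-/

set_option autoImplicit false
set_option maxRecDepth 100000
set_option deprecated.oldSectionVars true

namespace Pool.Agent.Lib.MP_5854e1_co.Cz

open Pool.Agent.Lib.MP_5854e1_co PB

theorem ytv1355 : DT.all (wzR cT Cz.tj Cz.tp Cz.tv) Cz.tv1355 = true := by decide +kernel

theorem ytv1356 : DT.all (wzR cT Cz.tj Cz.tp Cz.tv) Cz.tv1356 = true := by decide +kernel

theorem ytv1357 : DT.all (wzR cT Cz.tj Cz.tp Cz.tv) Cz.tv1357 = true := by decide +kernel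

theorem ytv1358 : DT.all (wzR cT Cz.tj Cz.tp Cz.tv) Cz.tv1358 = true := by decide +kernel

theorem ytv1359 : DT.all (wzR cT Cz.tj Cz.tp Cz.tv) Cz.tv1359 = true := by decide +kernel

theorem ytv1360 : DT.all (wzR cT Cz.tj Cz.tp Cz.tv) Cz.tv1360 = true := by decide +kernel

theorem ytv1361 : DT.all (wzR cT Cz.tj Cz.tp Cz.tv) Cz.tv1361 = true := by decide +kernel

theorem ytv1362 : DT.all (wzR cT Cz.tj Cz.tp Cz.tv) Cz.tv1362 = true := by decide +kernel

theorem ytv1363 : DT.all (wzR cT Cz.tj Cz.tp Cz.tv) Cz.tv1363 = true := by decide +kernel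


end Pool.Agent.Lib.MP_5854e1_co.Cz

namespace Pool.Agent.Lib.MP_5854e1_co.Cz

open Pool.Agent.Lib.MP_5854e1_co PB

theorem ytv1598 : DT.all (wzR cT Cz.tj Cz.tp Cz.tv) Cz.tv1598 = true := by decide +kernel

theorem ytv1599 : DT.all (wzR cT Cz.tj Cz.tp Cz.tv) Cz.tv1599 = true := by decide +kernel

theorem ytv1600 : DT.all (wzR cT Cz.tj Cz.tp Cz.tv) Cz.tv1600 = true := by decide +kernel

theorem ytv1601 : DT.all (wzR cT Cz.tj Cz.tp Cz.tv) Cz.tv1601 = true := by decide +kernel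


end Pool.Agent.Lib.MP_5854e1_co.Cz
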