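import Pool.Agent.Lib.MP_5854e1_co.Cz.P

/-!
# The rows of the rings
-/

set_option autoImplicit false
set_option maxRecDepth 100000
set_option deprecated.oldSectionVars true

namespace Pool.Agent.Lib.MP_5854e1_co.Cz

open Pool.Agent.Lib.MP_5854e1_co PB

theorem ytv1364 : DT.all (wzR cT Cz.tj Cz.tp Cz.tv) Cz.tv1364 = true := by decide +kernel

theorem ytv1365 : DT.all (wzR cT Cz.tj Cz.tp Cz.tv) Cz.tv1365 = true := by decide +kernel

theorem ytv1366 : DT.all (wzR cT Cz.tj Cz.tp Cz.tv) Cz.tv1366 = true := by decide +kernel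

theorem ytv1367 : DT.all (wzR cT Cz.tj Cz.tp Cz.tv) Cz.tv1367 = true := by decide +kernel

theorem ytv1368 : DT.all (wzR cT Cz.tj Cz.tp Cz.tv) Cz.tv1368 = true := by decide +kernel

theorem ytv1369 : DT.all (wzR cT Cz.tj Cz.tp Cz.tv) Cz.tv1369 = true := by decide +kernel

theorem ytv1370 : DT.all (wzR cT Cz.tj Cz.tp Cz.tv) Cz.tv1370 = true := by decide +kernel

theorem ytv1371 : DT.all (wzR cT Cz.tj Cz.tp Cz.tv) Cz.tv1371 = true := by decide +kernel


end Pool.Agent.Lib.MP_5854e1_co.Cz
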