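import Pool.Agent.Lib.MP_5854e1_co.Cz.P

/-!
# The rows of the rings
-/

set_option autoImplicit false
set_option maxRecDepth 100000
set_option deprecated.oldSectionVars true

namespace Pool.Agent.Lib.MP_5854e1_co.Cz

open Pool.Agent.Lib.MP_5854e1_co PB

theorem ytv1372 : DT.all (wzR cT Cz.tj Cz.tp Cz.tv) Cz.tv1372 = true := by decide +kernel

theorem ytv1373 : DT.all (wzR cT Cz.tj Cz.tp Cz.tv) Cz.tv1373 = true := by decide +kernel

theorem ytv1374 : DT.all (wzR cT Cz.tj Cz.tp Cz.tv) Cz.tv1374 = true := by decide +kernel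

theorem ytv1375 : DT.all (wzR cT Cz.tj Cz.tp Cz.tv) Cz.tv1375 = true := by decide +kernel

theorem ytv1376 : DT.all (wzR cT Cz.tj Cz.tp Cz.tv) Cz.tv1376 = true := by decide +kernel

theorem ytv1377 : DT.all (wzR cT Cz.tj Cz.tp Cz.tv) Cz.tv1377 = true := by decide +kernel

theorem ytv1378 : DT.all (wzR cT Cz.tj Cz.tp Cz.tv) Cz.tv1378 = true := by decide +kernel

theorem ytv1379 : DT.all (wzR cT Cz.tj Cz.tp Cz.tv) Cz.tv1379 = true := by decide +kernel

theorem ytv1380 : DT.all (wzR cT Cz.tj Cz.tp Cz.tv) Cz.tv1380 = true := by decide +kernel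


end Pool.Agent.Lib.MP_5854e1_co.Cz

namespace Pool.Agent.Lib.MP_5854e1_co.Cz

open Pool.Agent.Lib.MP_5854e1_co PB

theorem ytv2575 : DT.all (wzR cT Cz.tj Cz.tp Cz.tv) Cz.tv2575 = true := by decide +kernel

theorem ytv2576 : DT.all (wzR cT Cz.tj Cz.tp Cz.tv) Cz.tv2576 = true := by decide +kernel

theorem ytv2577 : DT.all (wzR cT Cz.tj Cz.tp Cz.tv) Cz.tv2577 = true := by decide +kernel


end Pool.Agent.Lib.MP_5854e1_co.Cz
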