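import Pool.Agent.Lib.MP_5854e1_co.Cz.P

/-!
# The rows of the rings
-/

set_option autoImplicit false
set_option maxRecDepth 100000
set_option deprecated.oldSectionVars true

namespace Pool.Agent.Lib.MP_5854e1_co.Cz

open Pool.Agent.Lib.MP_5854e1_co PB

theorem ytv1381 : DT.all (wzR cT Cz.tj Cz.tp Cz.tv) Cz.tv1381 = true := by decide +kernel

theorem ytv1382 : DT.all (wzR cT Cz.tj Cz.tp Cz.tv) Cz.tv1382 = true := by decide +kernel

theorem ytv1383 : DT.all (wzR cT Cz.tj Cz.tp Cz.tv) Cz.tv1383 = true := by decide +kernel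

theorem ytv1384 : DT.all (wzR cT Cz.tj Cz.tp Cz.tv) Cz.tv1384 = true := by decide +kernel

theorem ytv1385 : DT.all (wzR cT Cz.tj Cz.tp Cz.tv) Cz.tv1385 = true := by decide +kernel

theorem ytv1386 : DT.all (wzR cT Cz.tj Cz.tp Cz.tv) Cz.tv1386 = true := by decide +kernel

theorem ytv1387 : DT.all (wzR cT Cz.tj Cz.tp Cz.tv) Cz.tv1387 = true := by decide +kernel

theorem ytv1388 : DT.all (wzR cT Cz.tj Cz.tp Cz.tv) Cz.tv1388 = true := by decide +kernel

theorem ytv1389 : DT.all (wzR cT Cz.tj Cz.tp Cz.tv) Cz.tv1389 = true := by decide +kernel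

theorem ytv1390 : DT.all (wzR cT Cz.tj Cz.tp Cz.tv) Cz.tv1390 = true := by decide +kernel


end Pool.Agent.Lib.MP_5854e1_co.Cz
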