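import Pool.Agent.Lib.MP_5854e1_co.Cz.P

/-!
# The rows of the rings
-/

set_option autoImplicit false
set_option maxRecDepth 100000
set_option deprecated.oldSectionVars true

namespace Pool.Agent.Lib.MP_5854e1_co.Cz

open Pool.Agent.Lib.MP_5854e1_co PB

theorem ytv1391 : DT.all (wzR cT Cz.tj Cz.tp Cz.tv) Cz.tv1391 = true := by decide +kernel

theorem ytv1392 : DT.all (wzR cT Cz.tj Cz.tp Cz.tv) Cz.tv1392 = true := by decide +kernel

theorem ytv1393 : DT.all (wzR cT Cz.tj Cz.tp Cz.tv) Cz.tv1393 = true := by decide +kernel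

theorem ytv1394 : DT.all (wzR cT Cz.tj Cz.tp Cz.tv) Cz.tv1394 = true := by decide +kernel

theorem ytv1395 : DT.all (wzR cT Cz.tj Cz.tp Cz.tv) Cz.tv1395 = true := by decide +kernel

theorem ytv1396 : DT.all (wzR cT Cz.tj Cz.tp Cz.tv) Cz.tv1396 = true := by decide +kernel

theorem ytv1397 : DT.all (wzR cT Cz.tj Cz.tp Cz.tv) Cz.tv1397 = true := by decide +kernel

theorem ytv1398 : DT.all (wzR cT Cz.tj Cz.tp Cz.tv) Cz.tv1398 = true := by decide +kernel

theorem ytv1399 : DT.all (wzR cT Cz.tj Cz.tp Cz.tv) Cz.tv1399 = true := by decide +kernel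


end Pool.Agent.Lib.MP_5854e1_co.Cz

namespace Pool.Agent.Lib.MP_5854e1_co.Cz

open Pool.Agent.Lib.MP_5854e1_co PB

theorem ytv3250 : DT.all (wzR cT Cz.tj Cz.tp Cz.tv) Cz.tv3250 = true := by decide +kernel

theorem ytv3251 : DT.all (wzR cT Cz.tj Cz.tp Cz.tv) Cz.tv3251 = true := by decide +kernel

theorem ytv3252 : DT.all (wzR cT Cz.tj Cz.tp Cz.tv) Cz.tv3252 = true := by decide +kernel

theorem ytv3253 : DT.all (wzR cT Cz.tj Cz.tp Cz.tv) Cz.tv3253 = true := by decide +kernel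

theorem ytv3254 : DT.all (wzR cT Cz.tj Cz.tp Cz.tv) Cz.tv3254 = true := by decide +kernel

theorem ytv3255 : DT.all (wzR cT Cz.tj Cz.tp Cz.tv) Cz.tv3255 = true := by decide +kernel

theorem ytv3256 : DT.all (wzR cT Cz.tj Cz.tp Cz.tv) Cz.tv3256 = true := by decide +kernel

theorem ytv3257 : DT.all (wzR cT Cz.tj Cz.tp Cz.tv) Cz.tv3257 = true := by decide +kernel


end Pool.Agent.Lib.MP_5854e1_co.Cz
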