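import Pool.Agent.Lib.MP_5854e1_co.Cz.P

/-!
# The rows of the rings
-/

set_option autoImplicit false
set_option maxRecDepth 100000
set_option deprecated.oldSectionVars true

namespace Pool.Agent.Lib.MP_5854e1_co.Cz

open Pool.Agent.Lib.MP_5854e1_co PB

theorem ytv1408 : DT.all (wzR cT Cz.tj Cz.tp Cz.tv) Cz.tv1408 = true := by decide +kernel

theorem ytv1409 : DT.all (wzR cT Cz.tj Cz.tp Cz.tv) Cz.tv1409 = true := by decide +kernel

theorem ytv1410 : DT.all (wzR cT Cz.tj Cz.tp Cz.tv) Cz.tv1410 = true := by decide +kernel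

theorem ytv1411 : DT.all (wzR cT Cz.tj Cz.tp Cz.tv) Cz.tv1411 = true := by decide +kernel

theorem ytv1412 : DT.all (wzR cT Cz.tj Cz.tp Cz.tv) Cz.tv1412 = true := by decide +kernel

theorem ytv1413 : DT.all (wzR cT Cz.tj Cz.tp Cz.tv) Cz.tv1413 = true := by decide +kernel

theorem ytv1414 : DT.all (wzR cT Cz.tj Cz.tp Cz.tv) Cz.tv1414 = true := by decide +kernel

theorem ytv1415 : DT.all (wzR cT Cz.tj Cz.tp Cz.tv) Cz.tv1415 = true := by decide +kernel


end Pool.Agent.Lib.MP_5854e1_co.Cz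

namespace Pool.Agent.Lib.MP_5854e1_co.Cz

open Pool.Agent.Lib.MP_5854e1_co PB

theorem ytv5434 : DT.all (wzR cT Cz.tj Cz.tp Cz.tv) Cz.tv5434 = true := by decide +kernel

theorem ytv5435 : DT.all (wzR cT Cz.tj Cz.tp Cz.tv) Cz.tv5435 = true := by decide +kernel

theorem ytv5436 : DT.all (wzR cT Cz.tj Cz.tp Cz.tv) Cz.tv5436 = true := by decide +kernel

theorem ytv5437 : DT.all (wzR cT Cz.tj Cz.tp Cz.tv) Cz.tv5437 = true := by decide +kernel

theorem ytv5438 : DT.all (wzR cT Cz.tj Cz.tp Cz.tv) Cz.tv5438 = true := by decide +kernel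

theorem ytv5439 : DT.all (wzR cT Cz.tj Cz.tp Cz.tv) Cz.tv5439 = true := by decide +kernel

theorem ytv5440 : DT.all (wzR cT Cz.tj Cz.tp Cz.tv) Cz.tv5440 = true := by decide +kernel

theorem ytv5441 : DT.all (wzR cT Cz.tj Cz.tp Cz.tv) Cz.tv5441 = true := by decide +kernel

theorem ytv5442 : DT.all (wzR cT Cz.tj Cz.tp Cz.tv) Cz.tv5442 = true := by decide +kernel


end Pool.Agent.Lib.MP_5854e1_co.Cz
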