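import Pool.Agent.Lib.MP_5854e1_co.Cz.P

/-!
# The rows of the rings
-/

set_option autoImplicit false
set_option maxRecDepth 100000
set_option deprecated.oldSectionVars true

namespace Pool.Agent.Lib.MP_5854e1_co.Cz

open Pool.Agent.Lib.MP_5854e1_co PB

theorem ytv138 : DT.all (wzR cT Cz.tj Cz.tp Cz.tv) Cz.tv138 = true := by decide +kernel

theorem ytv139 : DT.all (wzR cT Cz.tj Cz.tp Cz.tv) Cz.tv139 = true := by decide +kernel

theorem ytv140 : DT.all (wzR cT Cz.tj Cz.tp Cz.tv) Cz.tv140 = true := by decide +kernel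

theorem ytv141 : DT.all (wzR cT Cz.tj Cz.tp Cz.tv) Cz.tv141 = true := by decide +kernel

theorem ytv142 : DT.all (wzR cT Cz.tj Cz.tp Cz.tv) Cz.tv142 = true := by decide +kernel


end Pool.Agent.Lib.MP_5854e1_co.Cz

namespace Pool.Agent.Lib.MP_5854e1_co.Cz

open Pool.Agent.Lib.MP_5854e1_co PB

theorem ytv3521 : DT.all (wzR cT Cz.tj Cz.tp Cz.tv) Cz.tv3521 = true := by decide +kernel

theorem ytv3522 : DT.all (wzR cT Cz.tj Cz.tp Cz.tv) Cz.tv3522 = true := by decide +kernel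

theorem ytv3523 : DT.all (wzR cT Cz.tj Cz.tp Cz.tv) Cz.tv3523 = true := by decide +kernel

theorem ytv3524 : DT.all (wzR cT Cz.tj Cz.tp Cz.tv) Cz.tv3524 = true := by decide +kernel

theorem ytv3525 : DT.all (wzR cT Cz.tj Cz.tp Cz.tv) Cz.tv3525 = true := by decide +kernel

theorem ytv3526 : DT.all (wzR cT Cz.tj Cz.tp Cz.tv) Cz.tv3526 = true := by decide +kernel

theorem ytv3527 : DT.all (wzR cT Cz.tj Cz.tp Cz.tv) Cz.tv3527 = true := by decide +kernel

theorem ytv3528 : DT.all (wzR cT Cz.tj Cz.tp Cz.tv) Cz.tv3528 = true := by decide +kernel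


end Pool.Agent.Lib.MP_5854e1_co.Cz
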