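import Pool.Agent.Lib.MP_5854e1_co.Cz.P

/-!
# The rows of the rings
-/

set_option autoImplicit false
set_option maxRecDepth 100000
set_option deprecated.oldSectionVars true

namespace Pool.Agent.Lib.MP_5854e1_co.Cz

open Pool.Agent.Lib.MP_5854e1_co PB

theorem ytv143 : DT.all (wzR cT Cz.tj Cz.tp Cz.tv) Cz.tv143 = true := by decide +kernel

theorem ytv144 : DT.all (wzR cT Cz.tj Cz.tp Cz.tv) Cz.tv144 = true := by decide +kernel

theorem ytv145 : DT.all (wzR cT Cz.tj Cz.tp Cz.tv) Cz.tv145 = true := by decide +kernel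

theorem ytv146 : DT.all (wzR cT Cz.tj Cz.tp Cz.tv) Cz.tv146 = true := by decide +kernel

theorem ytv147 : DT.all (wzR cT Cz.tj Cz.tp Cz.tv) Cz.tv147 = true := by decide +kernel

theorem ytv148 : DT.all (wzR cT Cz.tj Cz.tp Cz.tv) Cz.tv148 = true := by decide +kernel

theorem ytv149 : DT.all (wzR cT Cz.tj Cz.tp Cz.tv) Cz.tv149 = true := by decide +kernel

theorem ytv150 : DT.all (wzR cT Cz.tj Cz.tp Cz.tv) Cz.tv150 = true := by decide +kernel

theorem ytv151 : DT.all (wzR cT Cz.tj Cz.tp Cz.tv) Cz.tv151 = true := by decide +kernel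


end Pool.Agent.Lib.MP_5854e1_co.Cz
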