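import Pool.Agent.Lib.MP_5854e1_co.Cz.P

/-!
# The rows of the rings
-/

set_option autoImplicit false
set_option maxRecDepth 100000
set_option deprecated.oldSectionVars true

namespace Pool.Agent.Lib.MP_5854e1_co.Cz

open Pool.Agent.Lib.MP_5854e1_co PB

theorem ytv1440 : DT.all (wzR cT Cz.tj Cz.tp Cz.tv) Cz.tv1440 = true := by decide +kernel

theorem ytv1441 : DT.all (wzR cT Cz.tj Cz.tp Cz.tv) Cz.tv1441 = true := by decide +kernel

theorem ytv1442 : DT.all (wzR cT Cz.tj Cz.tp Cz.tv) Cz.tv1442 = true := by decide +kernel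

theorem ytv1443 : DT.all (wzR cT Cz.tj Cz.tp Cz.tv) Cz.tv1443 = true := by decide +kernel

theorem ytv1444 : DT.all (wzR cT Cz.tj Cz.tp Cz.tv) Cz.tv1444 = true := by decide +kernel

theorem ytv1445 : DT.all (wzR cT Cz.tj Cz.tp Cz.tv) Cz.tv1445 = true := by decide +kernel

theorem ytv1446 : DT.all (wzR cT Cz.tj Cz.tp Cz.tv) Cz.tv1446 = true := by decide +kernel

theorem ytv1447 : DT.all (wzR cT Cz.tj Cz.tp Cz.tv) Cz.tv1447 = true := by decide +kernel


end Pool.Agent.Lib.MP_5854e1_co.Cz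

namespace Pool.Agent.Lib.MP_5854e1_co.Cz

open Pool.Agent.Lib.MP_5854e1_co PB

theorem ytv2580 : DT.all (wzR cT Cz.tj Cz.tp Cz.tv) Cz.tv2580 = true := by decide +kernel

theorem ytv2581 : DT.all (wzR cT Cz.tj Cz.tp Cz.tv) Cz.tv2581 = true := by decide +kernel

theorem ytv2582 : DT.all (wzR cT Cz.tj Cz.tp Cz.tv) Cz.tv2582 = true := by decide +kernel


end Pool.Agent.Lib.MP_5854e1_co.Cz
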