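import Pool.Agent.Lib.MP_5854e1_co.Cz.P

/-!
# The rows of the rings
-/

set_option autoImplicit false
set_option maxRecDepth 100000
set_option deprecated.oldSectionVars true

namespace Pool.Agent.Lib.MP_5854e1_co.Cz

open Pool.Agent.Lib.MP_5854e1_co PB

theorem ytv1456 : DT.all (wzR cT Cz.tj Cz.tp Cz.tv) Cz.tv1456 = true := by decide +kernel

theorem ytv1457 : DT.all (wzR cT Cz.tj Cz.tp Cz.tv) Cz.tv1457 = true := by decide +kernel

theorem ytv1458 : DT.all (wzR cT Cz.tj Cz.tp Cz.tv) Cz.tv1458 = true := by decide +kernel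

theorem ytv1459 : DT.all (wzR cT Cz.tj Cz.tp Cz.tv) Cz.tv1459 = true := by decide +kernel

theorem ytv1460 : DT.all (wzR cT Cz.tj Cz.tp Cz.tv) Cz.tv1460 = true := by decide +kernel

theorem ytv1461 : DT.all (wzR cT Cz.tj Cz.tp Cz.tv) Cz.tv1461 = true := by decide +kernel

theorem ytv1462 : DT.all (wzR cT Cz.tj Cz.tp Cz.tv) Cz.tv1462 = true := by decide +kernel


end Pool.Agent.Lib.MP_5854e1_co.Cz

namespace Pool.Agent.Lib.MP_5854e1_co.Cz

open Pool.Agent.Lib.MP_5854e1_co PB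

theorem ytv2008 : DT.all (wzR cT Cz.tj Cz.tp Cz.tv) Cz.tv2008 = true := by decide +kernel

theorem ytv2009 : DT.all (wzR cT Cz.tj Cz.tp Cz.tv) Cz.tv2009 = true := by decide +kernel

theorem ytv2010 : DT.all (wzR cT Cz.tj Cz.tp Cz.tv) Cz.tv2010 = true := by decide +kernel

theorem ytv2011 : DT.all (wzR cT Cz.tj Cz.tp Cz.tv) Cz.tv2011 = true := by decide +kernel

theorem ytv2012 : DT.all (wzR cT Cz.tj Cz.tp Cz.tv) Cz.tv2012 = true := by decide +kernel

theorem ytv2013 : DT.all (wzR cT Cz.tj Cz.tp Cz.tv) Cz.tv2013 = true := by decide +kernel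

theorem ytv2014 : DT.all (wzR cT Cz.tj Cz.tp Cz.tv) Cz.tv2014 = true := by decide +kernel

theorem ytv2015 : DT.all (wzR cT Cz.tj Cz.tp Cz.tv) Cz.tv2015 = true := by decide +kernel

theorem ytv2016 : DT.all (wzR cT Cz.tj Cz.tp Cz.tv) Cz.tv2016 = true := by decide +kernel

theorem ytv2017 : DT.all (wzR cT Cz.tj Cz.tp Cz.tv) Cz.tv2017 = true := by decide +kernel


end Pool.Agent.Lib.MP_5854e1_co.Cz
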