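import Pool.Agent.Lib.MP_5854e1_co.Cz.P

/-!
# The rows of the rings
-/

set_option autoImplicit false
set_option maxRecDepth 100000
set_option deprecated.oldSectionVars true

namespace Pool.Agent.Lib.MP_5854e1_co.Cz

open Pool.Agent.Lib.MP_5854e1_co PB

theorem ytv1463 : DT.all (wzR cT Cz.tj Cz.tp Cz.tv) Cz.tv1463 = true := by decide +kernel

theorem ytv1464 : DT.all (wzR cT Cz.tj Cz.tp Cz.tv) Cz.tv1464 = true := by decide +kernel

theorem ytv1465 : DT.all (wzR cT Cz.tj Cz.tp Cz.tv) Cz.tv1465 = true := by decide +kernel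

theorem ytv1466 : DT.all (wzR cT Cz.tj Cz.tp Cz.tv) Cz.tv1466 = true := by decide +kernel

theorem ytv1467 : DT.all (wzR cT Cz.tj Cz.tp Cz.tv) Cz.tv1467 = true := by decide +kernel

theorem ytv1468 : DT.all (wzR cT Cz.tj Cz.tp Cz.tv) Cz.tv1468 = true := by decide +kernel

theorem ytv1469 : DT.all (wzR cT Cz.tj Cz.tp Cz.tv) Cz.tv1469 = true := by decide +kernel

theorem ytv1470 : DT.all (wzR cT Cz.tj Cz.tp Cz.tv) Cz.tv1470 = true := by decide +kernel

theorem ytv1471 : DT.all (wzR cT Cz.tj Cz.tp Cz.tv) Cz.tv1471 = true := by decide +kernel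


end Pool.Agent.Lib.MP_5854e1_co.Cz

namespace Pool.Agent.Lib.MP_5854e1_co.Cz

open Pool.Agent.Lib.MP_5854e1_co PB

theorem ytv2999 : DT.all (wzR cT Cz.tj Cz.tp Cz.tv) Cz.tv2999 = true := by decide +kernel

theorem ytv3000 : DT.all (wzR cT Cz.tj Cz.tp Cz.tv) Cz.tv3000 = true := by decide +kernel

theorem ytv3001 : DT.all (wzR cT Cz.tj Cz.tp Cz.tv) Cz.tv3001 = true := by decide +kernel

theorem ytv3002 : DT.all (wzR cT Cz.tj Cz.tp Cz.tv) Cz.tv3002 = true := by decide +kernel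

theorem ytv3003 : DT.all (wzR cT Cz.tj Cz.tp Cz.tv) Cz.tv3003 = true := by decide +kernel

theorem ytv3004 : DT.all (wzR cT Cz.tj Cz.tp Cz.tv) Cz.tv3004 = true := by decide +kernel

theorem ytv3005 : DT.all (wzR cT Cz.tj Cz.tp Cz.tv) Cz.tv3005 = true := by decide +kernel

theorem ytv3006 : DT.all (wzR cT Cz.tj Cz.tp Cz.tv) Cz.tv3006 = true := by decide +kernel

theorem ytv3007 : DT.all (wzR cT Cz.tj Cz.tp Cz.tv) Cz.tv3007 = true := by decide +kernel

theorem ytv3008 : DT.all (wzR cT Cz.tj Cz.tp Cz.tv) Cz.tv3008 = true := by decide +kernel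


end Pool.Agent.Lib.MP_5854e1_co.Cz
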