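import Pool.Agent.Lib.MP_5854e1_co.Cz.P

/-!
# The rows of the rings
-/

set_option autoImplicit false
set_option maxRecDepth 100000
set_option deprecated.oldSectionVars true

namespace Pool.Agent.Lib.MP_5854e1_co.Cz

open Pool.Agent.Lib.MP_5854e1_co PB

theorem ytv1472 : DT.all (wzR cT Cz.tj Cz.tp Cz.tv) Cz.tv1472 = true := by decide +kernel

theorem ytv1473 : DT.all (wzR cT Cz.tj Cz.tp Cz.tv) Cz.tv1473 = true := by decide +kernel

theorem ytv1474 : DT.all (wzR cT Cz.tj Cz.tp Cz.tv) Cz.tv1474 = true := by decide +kernel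

theorem ytv1475 : DT.all (wzR cT Cz.tj Cz.tp Cz.tv) Cz.tv1475 = true := by decide +kernel

theorem ytv1476 : DT.all (wzR cT Cz.tj Cz.tp Cz.tv) Cz.tv1476 = true := by decide +kernel

theorem ytv1477 : DT.all (wzR cT Cz.tj Cz.tp Cz.tv) Cz.tv1477 = true := by decide +kernel

theorem ytv1478 : DT.all (wzR cT Cz.tj Cz.tp Cz.tv) Cz.tv1478 = true := by decide +kernel

theorem ytv1479 : DT.all (wzR cT Cz.tj Cz.tp Cz.tv) Cz.tv1479 = true := by decide +kernel


end Pool.Agent.Lib.MP_5854e1_co.Cz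

namespace Pool.Agent.Lib.MP_5854e1_co.Cz

open Pool.Agent.Lib.MP_5854e1_co PB

theorem ytv1939 : DT.all (wzR cT Cz.tj Cz.tp Cz.tv) Cz.tv1939 = true := by decide +kernel

theorem ytv1940 : DT.all (wzR cT Cz.tj Cz.tp Cz.tv) Cz.tv1940 = true := by decide +kernel

theorem ytv1941 : DT.all (wzR cT Cz.tj Cz.tp Cz.tv) Cz.tv1941 = true := by decide +kernel

theorem ytv1942 : DT.all (wzR cT Cz.tj Cz.tp Cz.tv) Cz.tv1942 = true := by decide +kernel

theorem ytv1943 : DT.all (wzR cT Cz.tj Cz.tp Cz.tv) Cz.tv1943 = true := by decide +kernel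

theorem ytv1944 : DT.all (wzR cT Cz.tj Cz.tp Cz.tv) Cz.tv1944 = true := by decide +kernel

theorem ytv1945 : DT.all (wzR cT Cz.tj Cz.tp Cz.tv) Cz.tv1945 = true := by decide +kernel

theorem ytv1946 : DT.all (wzR cT Cz.tj Cz.tp Cz.tv) Cz.tv1946 = true := by decide +kernel

theorem ytv1947 : DT.all (wzR cT Cz.tj Cz.tp Cz.tv) Cz.tv1947 = true := by decide +kernel


end Pool.Agent.Lib.MP_5854e1_co.Cz
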