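import Pool.Agent.Lib.MP_5854e1_co.Cz.P

/-!
# The rows of the rings
-/

set_option autoImplicit false
set_option maxRecDepth 100000
set_option deprecated.oldSectionVars true

namespace Pool.Agent.Lib.MP_5854e1_co.Cz

open Pool.Agent.Lib.MP_5854e1_co PB

theorem ytv1488 : DT.all (wzR cT Cz.tj Cz.tp Cz.tv) Cz.tv1488 = true := by decide +kernel

theorem ytv1489 : DT.all (wzR cT Cz.tj Cz.tp Cz.tv) Cz.tv1489 = true := by decide +kernel

theorem ytv1490 : DT.all (wzR cT Cz.tj Cz.tp Cz.tv) Cz.tv1490 = true := by decide +kernel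

theorem ytv1491 : DT.all (wzR cT Cz.tj Cz.tp Cz.tv) Cz.tv1491 = true := by decide +kernel

theorem ytv1492 : DT.all (wzR cT Cz.tj Cz.tp Cz.tv) Cz.tv1492 = true := by decide +kernel

theorem ytv1493 : DT.all (wzR cT Cz.tj Cz.tp Cz.tv) Cz.tv1493 = true := by decide +kernel

theorem ytv1494 : DT.all (wzR cT Cz.tj Cz.tp Cz.tv) Cz.tv1494 = true := by decide +kernel

theorem ytv1495 : DT.all (wzR cT Cz.tj Cz.tp Cz.tv) Cz.tv1495 = true := by decide +kernel

theorem ytv1496 : DT.all (wzR cT Cz.tj Cz.tp Cz.tv) Cz.tv1496 = true := by decide +kernel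


end Pool.Agent.Lib.MP_5854e1_co.Cz

namespace Pool.Agent.Lib.MP_5854e1_co.Cz

open Pool.Agent.Lib.MP_5854e1_co PB

theorem ytv3867 : DT.all (wzR cT Cz.tj Cz.tp Cz.tv) Cz.tv3867 = true := by decide +kernel

theorem ytv3868 : DT.all (wzR cT Cz.tj Cz.tp Cz.tv) Cz.tv3868 = true := by decide +kernel

theorem ytv3869 : DT.all (wzR cT Cz.tj Cz.tp Cz.tv) Cz.tv3869 = true := by decide +kernel

theorem ytv3870 : DT.all (wzR cT Cz.tj Cz.tp Cz.tv) Cz.tv3870 = true := by decide +kernel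

theorem ytv3871 : DT.all (wzR cT Cz.tj Cz.tp Cz.tv) Cz.tv3871 = true := by decide +kernel

theorem ytv3872 : DT.all (wzR cT Cz.tj Cz.tp Cz.tv) Cz.tv3872 = true := by decide +kernel

theorem ytv3873 : DT.all (wzR cT Cz.tj Cz.tp Cz.tv) Cz.tv3873 = true := by decide +kernel

theorem ytv3874 : DT.all (wzR cT Cz.tj Cz.tp Cz.tv) Cz.tv3874 = true := by decide +kernel

theorem ytv3875 : DT.all (wzR cT Cz.tj Cz.tp Cz.tv) Cz.tv3875 = true := by decide +kernel


end Pool.Agent.Lib.MP_5854e1_co.Cz
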