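import Pool.Agent.Lib.MP_5854e1_co.Cz.P

/-!
# The rows of the rings
-/

set_option autoImplicit false
set_option maxRecDepth 100000
set_option deprecated.oldSectionVars true

namespace Pool.Agent.Lib.MP_5854e1_co.Cz

open Pool.Agent.Lib.MP_5854e1_co PB

theorem ytv1497 : DT.all (wzR cT Cz.tj Cz.tp Cz.tv) Cz.tv1497 = true := by decide +kernel

theorem ytv1498 : DT.all (wzR cT Cz.tj Cz.tp Cz.tv) Cz.tv1498 = true := by decide +kernel

theorem ytv1499 : DT.all (wzR cT Cz.tj Cz.tp Cz.tv) Cz.tv1499 = true := by decide +kernel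

theorem ytv1500 : DT.all (wzR cT Cz.tj Cz.tp Cz.tv) Cz.tv1500 = true := by decide +kernel

theorem ytv1501 : DT.all (wzR cT Cz.tj Cz.tp Cz.tv) Cz.tv1501 = true := by decide +kernel

theorem ytv1502 : DT.all (wzR cT Cz.tj Cz.tp Cz.tv) Cz.tv1502 = true := by decide +kernel

theorem ytv1503 : DT.all (wzR cT Cz.tj Cz.tp Cz.tv) Cz.tv1503 = true := by decide +kernel

theorem ytv1504 : DT.all (wzR cT Cz.tj Cz.tp Cz.tv) Cz.tv1504 = true := by decide +kernel


end Pool.Agent.Lib.MP_5854e1_co.Cz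

namespace Pool.Agent.Lib.MP_5854e1_co.Cz

open Pool.Agent.Lib.MP_5854e1_co PB

theorem ytv3911 : DT.all (wzR cT Cz.tj Cz.tp Cz.tv) Cz.tv3911 = true := by decide +kernel

theorem ytv3912 : DT.all (wzR cT Cz.tj Cz.tp Cz.tv) Cz.tv3912 = true := by decide +kernel

theorem ytv3913 : DT.all (wzR cT Cz.tj Cz.tp Cz.tv) Cz.tv3913 = true := by decide +kernel

theorem ytv3914 : DT.all (wzR cT Cz.tj Cz.tp Cz.tv) Cz.tv3914 = true := by decide +kernel


end Pool.Agent.Lib.MP_5854e1_co.Cz
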