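import Pool.Agent.Lib.MP_5854e1_co.Cz.P

/-!
# The rows of the rings
-/

set_option autoImplicit false
set_option maxRecDepth 100000
set_option deprecated.oldSectionVars true

namespace Pool.Agent.Lib.MP_5854e1_co.Cz

open Pool.Agent.Lib.MP_5854e1_co PB

theorem ytv152 : DT.all (wzR cT Cz.tj Cz.tp Cz.tv) Cz.tv152 = true := by decide +kernel

theorem ytv153 : DT.all (wzR cT Cz.tj Cz.tp Cz.tv) Cz.tv153 = true := by decide +kernel

theorem ytv154 : DT.all (wzR cT Cz.tj Cz.tp Cz.tv) Cz.tv154 = true := by decide +kernel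

theorem ytv155 : DT.all (wzR cT Cz.tj Cz.tp Cz.tv) Cz.tv155 = true := by decide +kernel

theorem ytv156 : DT.all (wzR cT Cz.tj Cz.tp Cz.tv) Cz.tv156 = true := by decide +kernel

theorem ytv157 : DT.all (wzR cT Cz.tj Cz.tp Cz.tv) Cz.tv157 = true := by decide +kernel

theorem ytv158 : DT.all (wzR cT Cz.tj Cz.tp Cz.tv) Cz.tv158 = true := by decide +kernel

theorem ytv159 : DT.all (wzR cT Cz.tj Cz.tp Cz.tv) Cz.tv159 = true := by decide +kernel

theorem ytv160 : DT.all (wzR cT Cz.tj Cz.tp Cz.tv) Cz.tv160 = true := by decide +kernel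


end Pool.Agent.Lib.MP_5854e1_co.Cz
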