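import Pool.Agent.Lib.MP_5854e1_co.Cz.P

/-!
# The rows of the rings
-/

set_option autoImplicit false
set_option maxRecDepth 100000
set_option deprecated.oldSectionVars true

namespace Pool.Agent.Lib.MP_5854e1_co.Cz

open Pool.Agent.Lib.MP_5854e1_co PB

theorem ytv1532 : DT.all (wzR cT Cz.tj Cz.tp Cz.tv) Cz.tv1532 = true := by decide +kernel

theorem ytv1533 : DT.all (wzR cT Cz.tj Cz.tp Cz.tv) Cz.tv1533 = true := by decide +kernel

theorem ytv1534 : DT.all (wzR cT Cz.tj Cz.tp Cz.tv) Cz.tv1534 = true := by decide +kernel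

theorem ytv1535 : DT.all (wzR cT Cz.tj Cz.tp Cz.tv) Cz.tv1535 = true := by decide +kernel

theorem ytv1536 : DT.all (wzR cT Cz.tj Cz.tp Cz.tv) Cz.tv1536 = true := by decide +kernel

theorem ytv1537 : DT.all (wzR cT Cz.tj Cz.tp Cz.tv) Cz.tv1537 = true := by decide +kernel

theorem ytv1538 : DT.all (wzR cT Cz.tj Cz.tp Cz.tv) Cz.tv1538 = true := by decide +kernel

theorem ytv1539 : DT.all (wzR cT Cz.tj Cz.tp Cz.tv) Cz.tv1539 = true := by decide +kernel

theorem ytv1540 : DT.all (wzR cT Cz.tj Cz.tp Cz.tv) Cz.tv1540 = true := by decide +kernel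


end Pool.Agent.Lib.MP_5854e1_co.Cz
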