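import Pool.Agent.Lib.MP_5854e1_co.Cz.P

/-!
# The rows of the rings
-/

set_option autoImplicit false
set_option maxRecDepth 100000
set_option deprecated.oldSectionVars true

namespace Pool.Agent.Lib.MP_5854e1_co.Cz

open Pool.Agent.Lib.MP_5854e1_co PB

theorem ytv1541 : DT.all (wzR cT Cz.tj Cz.tp Cz.tv) Cz.tv1541 = true := by decide +kernel

theorem ytv1542 : DT.all (wzR cT Cz.tj Cz.tp Cz.tv) Cz.tv1542 = true := by decide +kernel

theorem ytv1543 : DT.all (wzR cT Cz.tj Cz.tp Cz.tv) Cz.tv1543 = true := by decide +kernel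

theorem ytv1544 : DT.all (wzR cT Cz.tj Cz.tp Cz.tv) Cz.tv1544 = true := by decide +kernel

theorem ytv1545 : DT.all (wzR cT Cz.tj Cz.tp Cz.tv) Cz.tv1545 = true := by decide +kernel

theorem ytv1546 : DT.all (wzR cT Cz.tj Cz.tp Cz.tv) Cz.tv1546 = true := by decide +kernel

theorem ytv1547 : DT.all (wzR cT Cz.tj Cz.tp Cz.tv) Cz.tv1547 = true := by decide +kernel

theorem ytv1548 : DT.all (wzR cT Cz.tj Cz.tp Cz.tv) Cz.tv1548 = true := by decide +kernel

theorem ytv1549 : DT.all (wzR cT Cz.tj Cz.tp Cz.tv) Cz.tv1549 = true := by decide +kernel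


end Pool.Agent.Lib.MP_5854e1_co.Cz

namespace Pool.Agent.Lib.MP_5854e1_co.Cz

open Pool.Agent.Lib.MP_5854e1_co PB

theorem ytv2578 : DT.all (wzR cT Cz.tj Cz.tp Cz.tv) Cz.tv2578 = true := by decide +kernel

theorem ytv2579 : DT.all (wzR cT Cz.tj Cz.tp Cz.tv) Cz.tv2579 = true := by decide +kernel


end Pool.Agent.Lib.MP_5854e1_co.Cz
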