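import Pool.Agent.Lib.MP_5854e1_co.Cz.P

/-!
# The rows of the rings
-/

set_option autoImplicit false
set_option maxRecDepth 100000
set_option deprecated.oldSectionVars true

namespace Pool.Agent.Lib.MP_5854e1_co.Cz

open Pool.Agent.Lib.MP_5854e1_co PB

theorem ytv1550 : DT.all (wzR cT Cz.tj Cz.tp Cz.tv) Cz.tv1550 = true := by decide +kernel

theorem ytv1551 : DT.all (wzR cT Cz.tj Cz.tp Cz.tv) Cz.tv1551 = true := by decide +kernel

theorem ytv1552 : DT.all (wzR cT Cz.tj Cz.tp Cz.tv) Cz.tv1552 = true := by decide +kernel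

theorem ytv1553 : DT.all (wzR cT Cz.tj Cz.tp Cz.tv) Cz.tv1553 = true := by decide +kernel

theorem ytv1554 : DT.all (wzR cT Cz.tj Cz.tp Cz.tv) Cz.tv1554 = true := by decide +kernel

theorem ytv1555 : DT.all (wzR cT Cz.tj Cz.tp Cz.tv) Cz.tv1555 = true := by decide +kernel

theorem ytv1556 : DT.all (wzR cT Cz.tj Cz.tp Cz.tv) Cz.tv1556 = true := by decide +kernel


end Pool.Agent.Lib.MP_5854e1_co.Cz

namespace Pool.Agent.Lib.MP_5854e1_co.Cz

open Pool.Agent.Lib.MP_5854e1_co PB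

theorem ytv2077 : DT.all (wzR cT Cz.tj Cz.tp Cz.tv) Cz.tv2077 = true := by decide +kernel

theorem ytv2078 : DT.all (wzR cT Cz.tj Cz.tp Cz.tv) Cz.tv2078 = true := by decide +kernel

theorem ytv2079 : DT.all (wzR cT Cz.tj Cz.tp Cz.tv) Cz.tv2079 = true := by decide +kernel

theorem ytv2080 : DT.all (wzR cT Cz.tj Cz.tp Cz.tv) Cz.tv2080 = true := by decide +kernel

theorem ytv2081 : DT.all (wzR cT Cz.tj Cz.tp Cz.tv) Cz.tv2081 = true := by decide +kernel

theorem ytv2082 : DT.all (wzR cT Cz.tj Cz.tp Cz.tv) Cz.tv2082 = true := by decide +kernel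

theorem ytv2083 : DT.all (wzR cT Cz.tj Cz.tp Cz.tv) Cz.tv2083 = true := by decide +kernel

theorem ytv2084 : DT.all (wzR cT Cz.tj Cz.tp Cz.tv) Cz.tv2084 = true := by decide +kernel


end Pool.Agent.Lib.MP_5854e1_co.Cz
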