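import Pool.Agent.Lib.MP_5854e1_co.Cz.P

/-!
# The rows of the rings
-/

set_option autoImplicit false
set_option maxRecDepth 100000
set_option deprecated.oldSectionVars true

namespace Pool.Agent.Lib.MP_5854e1_co.Cz

open Pool.Agent.Lib.MP_5854e1_co PB

theorem ytv1564 : DT.all (wzR cT Cz.tj Cz.tp Cz.tv) Cz.tv1564 = true := by decide +kernel

theorem ytv1565 : DT.all (wzR cT Cz.tj Cz.tp Cz.tv) Cz.tv1565 = true := by decide +kernel

theorem ytv1566 : DT.all (wzR cT Cz.tj Cz.tp Cz.tv) Cz.tv1566 = true := by decide +kernel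

theorem ytv1567 : DT.all (wzR cT Cz.tj Cz.tp Cz.tv) Cz.tv1567 = true := by decide +kernel

theorem ytv1568 : DT.all (wzR cT Cz.tj Cz.tp Cz.tv) Cz.tv1568 = true := by decide +kernel

theorem ytv1569 : DT.all (wzR cT Cz.tj Cz.tp Cz.tv) Cz.tv1569 = true := by decide +kernel

theorem ytv1570 : DT.all (wzR cT Cz.tj Cz.tp Cz.tv) Cz.tv1570 = true := by decide +kernel

theorem ytv1571 : DT.all (wzR cT Cz.tj Cz.tp Cz.tv) Cz.tv1571 = true := by decide +kernel

theorem ytv1572 : DT.all (wzR cT Cz.tj Cz.tp Cz.tv) Cz.tv1572 = true := by decide +kernel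


end Pool.Agent.Lib.MP_5854e1_co.Cz

namespace Pool.Agent.Lib.MP_5854e1_co.Cz

open Pool.Agent.Lib.MP_5854e1_co PB

theorem ytv2745 : DT.all (wzR cT Cz.tj Cz.tp Cz.tv) Cz.tv2745 = true := by decide +kernel

theorem ytv2746 : DT.all (wzR cT Cz.tj Cz.tp Cz.tv) Cz.tv2746 = true := by decide +kernel

theorem ytv2747 : DT.all (wzR cT Cz.tj Cz.tp Cz.tv) Cz.tv2747 = true := by decide +kernel

theorem ytv2748 : DT.all (wzR cT Cz.tj Cz.tp Cz.tv) Cz.tv2748 = true := by decide +kernel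

theorem ytv2749 : DT.all (wzR cT Cz.tj Cz.tp Cz.tv) Cz.tv2749 = true := by decide +kernel

theorem ytv2750 : DT.all (wzR cT Cz.tj Cz.tp Cz.tv) Cz.tv2750 = true := by decide +kernel

theorem ytv2751 : DT.all (wzR cT Cz.tj Cz.tp Cz.tv) Cz.tv2751 = true := by decide +kernel

theorem ytv2752 : DT.all (wzR cT Cz.tj Cz.tp Cz.tv) Cz.tv2752 = true := by decide +kernel


end Pool.Agent.Lib.MP_5854e1_co.Cz
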