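import Pool.Agent.Lib.MP_5854e1_co.Cz.P

/-!
# The rows of the rings
-/

set_option autoImplicit false
set_option maxRecDepth 100000
set_option deprecated.oldSectionVars true

namespace Pool.Agent.Lib.MP_5854e1_co.Cz

open Pool.Agent.Lib.MP_5854e1_co PB

theorem ytv1586 : DT.all (wzR cT Cz.tj Cz.tp Cz.tv) Cz.tv1586 = true := by decide +kernel

theorem ytv1587 : DT.all (wzR cT Cz.tj Cz.tp Cz.tv) Cz.tv1587 = true := by decide +kernel

theorem ytv1588 : DT.all (wzR cT Cz.tj Cz.tp Cz.tv) Cz.tv1588 = true := by decide +kernel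

theorem ytv1589 : DT.all (wzR cT Cz.tj Cz.tp Cz.tv) Cz.tv1589 = true := by decide +kernel

theorem ytv1590 : DT.all (wzR cT Cz.tj Cz.tp Cz.tv) Cz.tv1590 = true := by decide +kernel

theorem ytv1591 : DT.all (wzR cT Cz.tj Cz.tp Cz.tv) Cz.tv1591 = true := by decide +kernel

theorem ytv1592 : DT.all (wzR cT Cz.tj Cz.tp Cz.tv) Cz.tv1592 = true := by decide +kernel

theorem ytv1593 : DT.all (wzR cT Cz.tj Cz.tp Cz.tv) Cz.tv1593 = true := by decide +kernel


end Pool.Agent.Lib.MP_5854e1_co.Cz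

namespace Pool.Agent.Lib.MP_5854e1_co.Cz

open Pool.Agent.Lib.MP_5854e1_co PB

theorem ytv5056 : DT.all (wzR cT Cz.tj Cz.tp Cz.tv) Cz.tv5056 = true := by decide +kernel

theorem ytv5057 : DT.all (wzR cT Cz.tj Cz.tp Cz.tv) Cz.tv5057 = true := by decide +kernel

theorem ytv5058 : DT.all (wzR cT Cz.tj Cz.tp Cz.tv) Cz.tv5058 = true := by decide +kernel

theorem ytv5059 : DT.all (wzR cT Cz.tj Cz.tp Cz.tv) Cz.tv5059 = true := by decide +kernel

theorem ytv5060 : DT.all (wzR cT Cz.tj Cz.tp Cz.tv) Cz.tv5060 = true := by decide +kernel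


end Pool.Agent.Lib.MP_5854e1_co.Cz
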