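import Pool.Agent.Lib.MP_5854e1_co.Cz.P

/-!
# The rows of the rings
-/

set_option autoImplicit false
set_option maxRecDepth 100000
set_option deprecated.oldSectionVars true

namespace Pool.Agent.Lib.MP_5854e1_co.Cz

open Pool.Agent.Lib.MP_5854e1_co PB

theorem ytv1610 : DT.all (wzR cT Cz.tj Cz.tp Cz.tv) Cz.tv1610 = true := by decide +kernel

theorem ytv1611 : DT.all (wzR cT Cz.tj Cz.tp Cz.tv) Cz.tv1611 = true := by decide +kernel

theorem ytv1612 : DT.all (wzR cT Cz.tj Cz.tp Cz.tv) Cz.tv1612 = true := by decide +kernel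

theorem ytv1613 : DT.all (wzR cT Cz.tj Cz.tp Cz.tv) Cz.tv1613 = true := by decide +kernel

theorem ytv1614 : DT.all (wzR cT Cz.tj Cz.tp Cz.tv) Cz.tv1614 = true := by decide +kernel

theorem ytv1615 : DT.all (wzR cT Cz.tj Cz.tp Cz.tv) Cz.tv1615 = true := by decide +kernel

theorem ytv1616 : DT.all (wzR cT Cz.tj Cz.tp Cz.tv) Cz.tv1616 = true := by decide +kernel

theorem ytv1617 : DT.all (wzR cT Cz.tj Cz.tp Cz.tv) Cz.tv1617 = true := by decide +kernel


end Pool.Agent.Lib.MP_5854e1_co.Cz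

namespace Pool.Agent.Lib.MP_5854e1_co.Cz

open Pool.Agent.Lib.MP_5854e1_co PB

theorem ytv4825 : DT.all (wzR cT Cz.tj Cz.tp Cz.tv) Cz.tv4825 = true := by decide +kernel

theorem ytv4826 : DT.all (wzR cT Cz.tj Cz.tp Cz.tv) Cz.tv4826 = true := by decide +kernel

theorem ytv4827 : DT.all (wzR cT Cz.tj Cz.tp Cz.tv) Cz.tv4827 = true := by decide +kernel

theorem ytv4828 : DT.all (wzR cT Cz.tj Cz.tp Cz.tv) Cz.tv4828 = true := by decide +kernel


end Pool.Agent.Lib.MP_5854e1_co.Cz
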