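import Pool.Agent.Lib.MP_5854e1_co.Cz.P

/-!
# The rows of the rings
-/

set_option autoImplicit false
set_option maxRecDepth 100000
set_option deprecated.oldSectionVars true

namespace Pool.Agent.Lib.MP_5854e1_co.Cz

open Pool.Agent.Lib.MP_5854e1_co PB

theorem ytv1637 : DT.all (wzR cT Cz.tj Cz.tp Cz.tv) Cz.tv1637 = true := by decide +kernel

theorem ytv1638 : DT.all (wzR cT Cz.tj Cz.tp Cz.tv) Cz.tv1638 = true := by decide +kernel

theorem ytv1639 : DT.all (wzR cT Cz.tj Cz.tp Cz.tv) Cz.tv1639 = true := by decide +kernel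

theorem ytv1640 : DT.all (wzR cT Cz.tj Cz.tp Cz.tv) Cz.tv1640 = true := by decide +kernel

theorem ytv1641 : DT.all (wzR cT Cz.tj Cz.tp Cz.tv) Cz.tv1641 = true := by decide +kernel

theorem ytv1642 : DT.all (wzR cT Cz.tj Cz.tp Cz.tv) Cz.tv1642 = true := by decide +kernel

theorem ytv1643 : DT.all (wzR cT Cz.tj Cz.tp Cz.tv) Cz.tv1643 = true := by decide +kernel

theorem ytv1644 : DT.all (wzR cT Cz.tj Cz.tp Cz.tv) Cz.tv1644 = true := by decide +kernel


end Pool.Agent.Lib.MP_5854e1_co.Cz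

namespace Pool.Agent.Lib.MP_5854e1_co.Cz

open Pool.Agent.Lib.MP_5854e1_co PB

theorem ytv4686 : DT.all (wzR cT Cz.tj Cz.tp Cz.tv) Cz.tv4686 = true := by decide +kernel

theorem ytv4687 : DT.all (wzR cT Cz.tj Cz.tp Cz.tv) Cz.tv4687 = true := by decide +kernel

theorem ytv4688 : DT.all (wzR cT Cz.tj Cz.tp Cz.tv) Cz.tv4688 = true := by decide +kernel

theorem ytv4689 : DT.all (wzR cT Cz.tj Cz.tp Cz.tv) Cz.tv4689 = true := by decide +kernel


end Pool.Agent.Lib.MP_5854e1_co.Cz
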