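import Pool.Agent.Lib.MP_5854e1_co.Cz.P

/-!
# The rows of the rings
-/

set_option autoImplicit false
set_option maxRecDepth 100000
set_option deprecated.oldSectionVars true

namespace Pool.Agent.Lib.MP_5854e1_co.Cz

open Pool.Agent.Lib.MP_5854e1_co PB

theorem ytv1653 : DT.all (wzR cT Cz.tj Cz.tp Cz.tv) Cz.tv1653 = true := by decide +kernel

theorem ytv1654 : DT.all (wzR cT Cz.tj Cz.tp Cz.tv) Cz.tv1654 = true := by decide +kernel

theorem ytv1655 : DT.all (wzR cT Cz.tj Cz.tp Cz.tv) Cz.tv1655 = true := by decide +kernel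

theorem ytv1656 : DT.all (wzR cT Cz.tj Cz.tp Cz.tv) Cz.tv1656 = true := by decide +kernel

theorem ytv1657 : DT.all (wzR cT Cz.tj Cz.tp Cz.tv) Cz.tv1657 = true := by decide +kernel

theorem ytv1658 : DT.all (wzR cT Cz.tj Cz.tp Cz.tv) Cz.tv1658 = true := by decide +kernel

theorem ytv1659 : DT.all (wzR cT Cz.tj Cz.tp Cz.tv) Cz.tv1659 = true := by decide +kernel


end Pool.Agent.Lib.MP_5854e1_co.Cz

namespace Pool.Agent.Lib.MP_5854e1_co.Cz

open Pool.Agent.Lib.MP_5854e1_co PB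

theorem ytv1930 : DT.all (wzR cT Cz.tj Cz.tp Cz.tv) Cz.tv1930 = true := by decide +kernel

theorem ytv1931 : DT.all (wzR cT Cz.tj Cz.tp Cz.tv) Cz.tv1931 = true := by decide +kernel

theorem ytv1932 : DT.all (wzR cT Cz.tj Cz.tp Cz.tv) Cz.tv1932 = true := by decide +kernel

theorem ytv1933 : DT.all (wzR cT Cz.tj Cz.tp Cz.tv) Cz.tv1933 = true := by decide +kernel

theorem ytv1934 : DT.all (wzR cT Cz.tj Cz.tp Cz.tv) Cz.tv1934 = true := by decide +kernel

theorem ytv1935 : DT.all (wzR cT Cz.tj Cz.tp Cz.tv) Cz.tv1935 = true := by decide +kernel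

theorem ytv1936 : DT.all (wzR cT Cz.tj Cz.tp Cz.tv) Cz.tv1936 = true := by decide +kernel

theorem ytv1937 : DT.all (wzR cT Cz.tj Cz.tp Cz.tv) Cz.tv1937 = true := by decide +kernel

theorem ytv1938 : DT.all (wzR cT Cz.tj Cz.tp Cz.tv) Cz.tv1938 = true := by decide +kernel


end Pool.Agent.Lib.MP_5854e1_co.Cz
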