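import Pool.Agent.Lib.MP_5854e1_co.Cz.P

/-!
# The rows of the rings
-/

set_option autoImplicit false
set_option maxRecDepth 100000
set_option deprecated.oldSectionVars true

namespace Pool.Agent.Lib.MP_5854e1_co.Cz

open Pool.Agent.Lib.MP_5854e1_co PB

theorem ytv1668 : DT.all (wzR cT Cz.tj Cz.tp Cz.tv) Cz.tv1668 = true := by decide +kernel

theorem ytv1669 : DT.all (wzR cT Cz.tj Cz.tp Cz.tv) Cz.tv1669 = true := by decide +kernel

theorem ytv1670 : DT.all (wzR cT Cz.tj Cz.tp Cz.tv) Cz.tv1670 = true := by decide +kernel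

theorem ytv1671 : DT.all (wzR cT Cz.tj Cz.tp Cz.tv) Cz.tv1671 = true := by decide +kernel

theorem ytv1672 : DT.all (wzR cT Cz.tj Cz.tp Cz.tv) Cz.tv1672 = true := by decide +kernel

theorem ytv1673 : DT.all (wzR cT Cz.tj Cz.tp Cz.tv) Cz.tv1673 = true := by decide +kernel

theorem ytv1674 : DT.all (wzR cT Cz.tj Cz.tp Cz.tv) Cz.tv1674 = true := by decide +kernel

theorem ytv1675 : DT.all (wzR cT Cz.tj Cz.tp Cz.tv) Cz.tv1675 = true := by decide +kernel


end Pool.Agent.Lib.MP_5854e1_co.Cz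

namespace Pool.Agent.Lib.MP_5854e1_co.Cz

open Pool.Agent.Lib.MP_5854e1_co PB

theorem ytv3411 : DT.all (wzR cT Cz.tj Cz.tp Cz.tv) Cz.tv3411 = true := by decide +kernel

theorem ytv3412 : DT.all (wzR cT Cz.tj Cz.tp Cz.tv) Cz.tv3412 = true := by decide +kernel

theorem ytv3413 : DT.all (wzR cT Cz.tj Cz.tp Cz.tv) Cz.tv3413 = true := by decide +kernel

theorem ytv3414 : DT.all (wzR cT Cz.tj Cz.tp Cz.tv) Cz.tv3414 = true := by decide +kernel

theorem ytv3415 : DT.all (wzR cT Cz.tj Cz.tp Cz.tv) Cz.tv3415 = true := by decide +kernel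

theorem ytv3416 : DT.all (wzR cT Cz.tj Cz.tp Cz.tv) Cz.tv3416 = true := by decide +kernel

theorem ytv3417 : DT.all (wzR cT Cz.tj Cz.tp Cz.tv) Cz.tv3417 = true := by decide +kernel

theorem ytv3418 : DT.all (wzR cT Cz.tj Cz.tp Cz.tv) Cz.tv3418 = true := by decide +kernel

theorem ytv3419 : DT.all (wzR cT Cz.tj Cz.tp Cz.tv) Cz.tv3419 = true := by decide +kernel


end Pool.Agent.Lib.MP_5854e1_co.Cz
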