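import Pool.Agent.Lib.MP_5854e1_co.Cz.P

/-!
# The rows of the rings
-/

set_option autoImplicit false
set_option maxRecDepth 100000
set_option deprecated.oldSectionVars true

namespace Pool.Agent.Lib.MP_5854e1_co.Cz

open Pool.Agent.Lib.MP_5854e1_co PB

theorem ytv1676 : DT.all (wzR cT Cz.tj Cz.tp Cz.tv) Cz.tv1676 = true := by decide +kernel

theorem ytv1677 : DT.all (wzR cT Cz.tj Cz.tp Cz.tv) Cz.tv1677 = true := by decide +kernel

theorem ytv1678 : DT.all (wzR cT Cz.tj Cz.tp Cz.tv) Cz.tv1678 = true := by decide +kernel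

theorem ytv1679 : DT.all (wzR cT Cz.tj Cz.tp Cz.tv) Cz.tv1679 = true := by decide +kernel


end Pool.Agent.Lib.MP_5854e1_co.Cz

namespace Pool.Agent.Lib.MP_5854e1_co.Cz

open Pool.Agent.Lib.MP_5854e1_co PB

theorem ytv3695 : DT.all (wzR cT Cz.tj Cz.tp Cz.tv) Cz.tv3695 = true := by decide +kernel

theorem ytv3696 : DT.all (wzR cT Cz.tj Cz.tp Cz.tv) Cz.tv3696 = true := by decide +kernel

theorem ytv3697 : DT.all (wzR cT Cz.tj Cz.tp Cz.tv) Cz.tv3697 = true := by decide +kernel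

theorem ytv3698 : DT.all (wzR cT Cz.tj Cz.tp Cz.tv) Cz.tv3698 = true := by decide +kernel

theorem ytv3699 : DT.all (wzR cT Cz.tj Cz.tp Cz.tv) Cz.tv3699 = true := by decide +kernel

theorem ytv3700 : DT.all (wzR cT Cz.tj Cz.tp Cz.tv) Cz.tv3700 = true := by decide +kernel

theorem ytv3701 : DT.all (wzR cT Cz.tj Cz.tp Cz.tv) Cz.tv3701 = true := by decide +kernel


end Pool.Agent.Lib.MP_5854e1_co.Cz
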