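import Pool.Agent.Lib.MP_5854e1_co.Cz.P

/-!
# The rows of the rings
-/

set_option autoImplicit false
set_option maxRecDepth 100000
set_option deprecated.oldSectionVars true

namespace Pool.Agent.Lib.MP_5854e1_co.Cz

open Pool.Agent.Lib.MP_5854e1_co PB

theorem ytv169 : DT.all (wzR cT Cz.tj Cz.tp Cz.tv) Cz.tv169 = true := by decide +kernel

theorem ytv170 : DT.all (wzR cT Cz.tj Cz.tp Cz.tv) Cz.tv170 = true := by decide +kernel

theorem ytv171 : DT.all (wzR cT Cz.tj Cz.tp Cz.tv) Cz.tv171 = true := by decide +kernel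

theorem ytv172 : DT.all (wzR cT Cz.tj Cz.tp Cz.tv) Cz.tv172 = true := by decide +kernel

theorem ytv173 : DT.all (wzR cT Cz.tj Cz.tp Cz.tv) Cz.tv173 = true := by decide +kernel

theorem ytv174 : DT.all (wzR cT Cz.tj Cz.tp Cz.tv) Cz.tv174 = true := by decide +kernel

theorem ytv175 : DT.all (wzR cT Cz.tj Cz.tp Cz.tv) Cz.tv175 = true := by decide +kernel

theorem ytv176 : DT.all (wzR cT Cz.tj Cz.tp Cz.tv) Cz.tv176 = true := by decide +kernel

theorem ytv177 : DT.all (wzR cT Cz.tj Cz.tp Cz.tv) Cz.tv177 = true := by decide +kernel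

theorem ytv178 : DT.all (wzR cT Cz.tj Cz.tp Cz.tv) Cz.tv178 = true := by decide +kernel


end Pool.Agent.Lib.MP_5854e1_co.Cz

namespace Pool.Agent.Lib.MP_5854e1_co.Cz

open Pool.Agent.Lib.MP_5854e1_co PB

theorem ytv1141 : DT.all (wzR cT Cz.tj Cz.tp Cz.tv) Cz.tv1141 = true := by decide +kernel

theorem ytv1142 : DT.all (wzR cT Cz.tj Cz.tp Cz.tv) Cz.tv1142 = true := by decide +kernel

theorem ytv1143 : DT.all (wzR cT Cz.tj Cz.tp Cz.tv) Cz.tv1143 = true := by decide +kernel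

theorem ytv1144 : DT.all (wzR cT Cz.tj Cz.tp Cz.tv) Cz.tv1144 = true := by decide +kernel

theorem ytv1145 : DT.all (wzR cT Cz.tj Cz.tp Cz.tv) Cz.tv1145 = true := by decide +kernel

theorem ytv1146 : DT.all (wzR cT Cz.tj Cz.tp Cz.tv) Cz.tv1146 = true := by decide +kernel

theorem ytv1147 : DT.all (wzR cT Cz.tj Cz.tp Cz.tv) Cz.tv1147 = true := by decide +kernel

theorem ytv1148 : DT.all (wzR cT Cz.tj Cz.tp Cz.tv) Cz.tv1148 = true := by decide +kernel

theorem ytv1149 : DT.all (wzR cT Cz.tj Cz.tp Cz.tv) Cz.tv1149 = true := by decide +kernel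


end Pool.Agent.Lib.MP_5854e1_co.Cz
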