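import Pool.Agent.Lib.MP_5854e1_co.Cz.P

/-!
# The rows of the rings
-/

set_option autoImplicit false
set_option maxRecDepth 100000
set_option deprecated.oldSectionVars true

namespace Pool.Agent.Lib.MP_5854e1_co.Cz

open Pool.Agent.Lib.MP_5854e1_co PB

theorem ytv1689 : DT.all (wzR cT Cz.tj Cz.tp Cz.tv) Cz.tv1689 = true := by decide +kernel

theorem ytv1690 : DT.all (wzR cT Cz.tj Cz.tp Cz.tv) Cz.tv1690 = true := by decide +kernel

theorem ytv1691 : DT.all (wzR cT Cz.tj Cz.tp Cz.tv) Cz.tv1691 = true := by decide +kernel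

theorem ytv1692 : DT.all (wzR cT Cz.tj Cz.tp Cz.tv) Cz.tv1692 = true := by decide +kernel


end Pool.Agent.Lib.MP_5854e1_co.Cz

namespace Pool.Agent.Lib.MP_5854e1_co.Cz

open Pool.Agent.Lib.MP_5854e1_co PB

theorem ytv4556 : DT.all (wzR cT Cz.tj Cz.tp Cz.tv) Cz.tv4556 = true := by decide +kernel

theorem ytv4557 : DT.all (wzR cT Cz.tj Cz.tp Cz.tv) Cz.tv4557 = true := by decide +kernel

theorem ytv4558 : DT.all (wzR cT Cz.tj Cz.tp Cz.tv) Cz.tv4558 = true := by decide +kernel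

theorem ytv4559 : DT.all (wzR cT Cz.tj Cz.tp Cz.tv) Cz.tv4559 = true := by decide +kernel

theorem ytv4560 : DT.all (wzR cT Cz.tj Cz.tp Cz.tv) Cz.tv4560 = true := by decide +kernel


end Pool.Agent.Lib.MP_5854e1_co.Cz
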