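import Pool.Agent.Lib.MP_5854e1_co.Cz.P

/-!
# The rows of the rings
-/

set_option autoImplicit false
set_option maxRecDepth 100000
set_option deprecated.oldSectionVars true

namespace Pool.Agent.Lib.MP_5854e1_co.Cz

open Pool.Agent.Lib.MP_5854e1_co PB

theorem ytv1693 : DT.all (wzR cT Cz.tj Cz.tp Cz.tv) Cz.tv1693 = true := by decide +kernel

theorem ytv1694 : DT.all (wzR cT Cz.tj Cz.tp Cz.tv) Cz.tv1694 = true := by decide +kernel

theorem ytv1695 : DT.all (wzR cT Cz.tj Cz.tp Cz.tv) Cz.tv1695 = true := by decide +kernel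

theorem ytv1696 : DT.all (wzR cT Cz.tj Cz.tp Cz.tv) Cz.tv1696 = true := by decide +kernel

theorem ytv1697 : DT.all (wzR cT Cz.tj Cz.tp Cz.tv) Cz.tv1697 = true := by decide +kernel

theorem ytv1698 : DT.all (wzR cT Cz.tj Cz.tp Cz.tv) Cz.tv1698 = true := by decide +kernel

theorem ytv1699 : DT.all (wzR cT Cz.tj Cz.tp Cz.tv) Cz.tv1699 = true := by decide +kernel

theorem ytv1700 : DT.all (wzR cT Cz.tj Cz.tp Cz.tv) Cz.tv1700 = true := by decide +kernel

theorem ytv1701 : DT.all (wzR cT Cz.tj Cz.tp Cz.tv) Cz.tv1701 = true := by decide +kernel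


end Pool.Agent.Lib.MP_5854e1_co.Cz

namespace Pool.Agent.Lib.MP_5854e1_co.Cz

open Pool.Agent.Lib.MP_5854e1_co PB

theorem ytv3097 : DT.all (wzR cT Cz.tj Cz.tp Cz.tv) Cz.tv3097 = true := by decide +kernel

theorem ytv3098 : DT.all (wzR cT Cz.tj Cz.tp Cz.tv) Cz.tv3098 = true := by decide +kernel

theorem ytv3099 : DT.all (wzR cT Cz.tj Cz.tp Cz.tv) Cz.tv3099 = true := by decide +kernel

theorem ytv3100 : DT.all (wzR cT Cz.tj Cz.tp Cz.tv) Cz.tv3100 = true := by decide +kernel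

theorem ytv3101 : DT.all (wzR cT Cz.tj Cz.tp Cz.tv) Cz.tv3101 = true := by decide +kernel

theorem ytv3102 : DT.all (wzR cT Cz.tj Cz.tp Cz.tv) Cz.tv3102 = true := by decide +kernel

theorem ytv3103 : DT.all (wzR cT Cz.tj Cz.tp Cz.tv) Cz.tv3103 = true := by decide +kernel

theorem ytv3104 : DT.all (wzR cT Cz.tj Cz.tp Cz.tv) Cz.tv3104 = true := by decide +kernel

theorem ytv3105 : DT.all (wzR cT Cz.tj Cz.tp Cz.tv) Cz.tv3105 = true := by decide +kernel


end Pool.Agent.Lib.MP_5854e1_co.Cz
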