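import Pool.Agent.Lib.MP_5854e1_co.Cz.P

/-!
# The rows of the rings
-/

set_option autoImplicit false
set_option maxRecDepth 100000
set_option deprecated.oldSectionVars true

namespace Pool.Agent.Lib.MP_5854e1_co.Cz

open Pool.Agent.Lib.MP_5854e1_co PB

theorem ytv1702 : DT.all (wzR cT Cz.tj Cz.tp Cz.tv) Cz.tv1702 = true := by decide +kernel

theorem ytv1703 : DT.all (wzR cT Cz.tj Cz.tp Cz.tv) Cz.tv1703 = true := by decide +kernel

theorem ytv1704 : DT.all (wzR cT Cz.tj Cz.tp Cz.tv) Cz.tv1704 = true := by decide +kernel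

theorem ytv1705 : DT.all (wzR cT Cz.tj Cz.tp Cz.tv) Cz.tv1705 = true := by decide +kernel

theorem ytv1706 : DT.all (wzR cT Cz.tj Cz.tp Cz.tv) Cz.tv1706 = true := by decide +kernel

theorem ytv1707 : DT.all (wzR cT Cz.tj Cz.tp Cz.tv) Cz.tv1707 = true := by decide +kernel

theorem ytv1708 : DT.all (wzR cT Cz.tj Cz.tp Cz.tv) Cz.tv1708 = true := by decide +kernel

theorem ytv1709 : DT.all (wzR cT Cz.tj Cz.tp Cz.tv) Cz.tv1709 = true := by decide +kernel

theorem ytv1710 : DT.all (wzR cT Cz.tj Cz.tp Cz.tv) Cz.tv1710 = true := by decide +kernel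


end Pool.Agent.Lib.MP_5854e1_co.Cz

namespace Pool.Agent.Lib.MP_5854e1_co.Cz

open Pool.Agent.Lib.MP_5854e1_co PB

theorem ytv4940 : DT.all (wzR cT Cz.tj Cz.tp Cz.tv) Cz.tv4940 = true := by decide +kernel

theorem ytv4941 : DT.all (wzR cT Cz.tj Cz.tp Cz.tv) Cz.tv4941 = true := by decide +kernel

theorem ytv4942 : DT.all (wzR cT Cz.tj Cz.tp Cz.tv) Cz.tv4942 = true := by decide +kernel

theorem ytv4943 : DT.all (wzR cT Cz.tj Cz.tp Cz.tv) Cz.tv4943 = true := by decide +kernel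

theorem ytv4944 : DT.all (wzR cT Cz.tj Cz.tp Cz.tv) Cz.tv4944 = true := by decide +kernel

theorem ytv4945 : DT.all (wzR cT Cz.tj Cz.tp Cz.tv) Cz.tv4945 = true := by decide +kernel

theorem ytv4946 : DT.all (wzR cT Cz.tj Cz.tp Cz.tv) Cz.tv4946 = true := by decide +kernel

theorem ytv4947 : DT.all (wzR cT Cz.tj Cz.tp Cz.tv) Cz.tv4947 = true := by decide +kernel

theorem ytv4948 : DT.all (wzR cT Cz.tj Cz.tp Cz.tv) Cz.tv4948 = true := by decide +kernel


end Pool.Agent.Lib.MP_5854e1_co.Cz
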