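import Pool.Agent.Lib.MP_5854e1_co.Cz.P

/-!
# The rows of the rings
-/

set_option autoImplicit false
set_option maxRecDepth 100000
set_option deprecated.oldSectionVars true

namespace Pool.Agent.Lib.MP_5854e1_co.Cz

open Pool.Agent.Lib.MP_5854e1_co PB

theorem ytv1735 : DT.all (wzR cT Cz.tj Cz.tp Cz.tv) Cz.tv1735 = true := by decide +kernel

theorem ytv1736 : DT.all (wzR cT Cz.tj Cz.tp Cz.tv) Cz.tv1736 = true := by decide +kernel

theorem ytv1737 : DT.all (wzR cT Cz.tj Cz.tp Cz.tv) Cz.tv1737 = true := by decide +kernel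

theorem ytv1738 : DT.all (wzR cT Cz.tj Cz.tp Cz.tv) Cz.tv1738 = true := by decide +kernel

theorem ytv1739 : DT.all (wzR cT Cz.tj Cz.tp Cz.tv) Cz.tv1739 = true := by decide +kernel

theorem ytv1740 : DT.all (wzR cT Cz.tj Cz.tp Cz.tv) Cz.tv1740 = true := by decide +kernel

theorem ytv1741 : DT.all (wzR cT Cz.tj Cz.tp Cz.tv) Cz.tv1741 = true := by decide +kernel

theorem ytv1742 : DT.all (wzR cT Cz.tj Cz.tp Cz.tv) Cz.tv1742 = true := by decide +kernel

theorem ytv1743 : DT.all (wzR cT Cz.tj Cz.tp Cz.tv) Cz.tv1743 = true := by decide +kernel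

theorem ytv1744 : DT.all (wzR cT Cz.tj Cz.tp Cz.tv) Cz.tv1744 = true := by decide +kernel


end Pool.Agent.Lib.MP_5854e1_co.Cz

namespace Pool.Agent.Lib.MP_5854e1_co.Cz

open Pool.Agent.Lib.MP_5854e1_co PB

theorem ytv3529 : DT.all (wzR cT Cz.tj Cz.tp Cz.tv) Cz.tv3529 = true := by decide +kernel

theorem ytv3530 : DT.all (wzR cT Cz.tj Cz.tp Cz.tv) Cz.tv3530 = true := by decide +kernel

theorem ytv3531 : DT.all (wzR cT Cz.tj Cz.tp Cz.tv) Cz.tv3531 = true := by decide +kernel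

theorem ytv3532 : DT.all (wzR cT Cz.tj Cz.tp Cz.tv) Cz.tv3532 = true := by decide +kernel

theorem ytv3533 : DT.all (wzR cT Cz.tj Cz.tp Cz.tv) Cz.tv3533 = true := by decide +kernel

theorem ytv3534 : DT.all (wzR cT Cz.tj Cz.tp Cz.tv) Cz.tv3534 = true := by decide +kernel

theorem ytv3535 : DT.all (wzR cT Cz.tj Cz.tp Cz.tv) Cz.tv3535 = true := by decide +kernel

theorem ytv3536 : DT.all (wzR cT Cz.tj Cz.tp Cz.tv) Cz.tv3536 = true := by decide +kernel


end Pool.Agent.Lib.MP_5854e1_co.Cz
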