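import Pool.Agent.Lib.MP_5854e1_co.Cz.P

/-!
# The rows of the rings
-/

set_option autoImplicit false
set_option maxRecDepth 100000
set_option deprecated.oldSectionVars true

namespace Pool.Agent.Lib.MP_5854e1_co.Cz

open Pool.Agent.Lib.MP_5854e1_co PB

theorem ytv1745 : DT.all (wzR cT Cz.tj Cz.tp Cz.tv) Cz.tv1745 = true := by decide +kernel

theorem ytv1746 : DT.all (wzR cT Cz.tj Cz.tp Cz.tv) Cz.tv1746 = true := by decide +kernel

theorem ytv1747 : DT.all (wzR cT Cz.tj Cz.tp Cz.tv) Cz.tv1747 = true := by decide +kernel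

theorem ytv1748 : DT.all (wzR cT Cz.tj Cz.tp Cz.tv) Cz.tv1748 = true := by decide +kernel

theorem ytv1749 : DT.all (wzR cT Cz.tj Cz.tp Cz.tv) Cz.tv1749 = true := by decide +kernel

theorem ytv1750 : DT.all (wzR cT Cz.tj Cz.tp Cz.tv) Cz.tv1750 = true := by decide +kernel

theorem ytv1751 : DT.all (wzR cT Cz.tj Cz.tp Cz.tv) Cz.tv1751 = true := by decide +kernel

theorem ytv1752 : DT.all (wzR cT Cz.tj Cz.tp Cz.tv) Cz.tv1752 = true := by decide +kernel

theorem ytv1753 : DT.all (wzR cT Cz.tj Cz.tp Cz.tv) Cz.tv1753 = true := by decide +kernel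

theorem ytv1754 : DT.all (wzR cT Cz.tj Cz.tp Cz.tv) Cz.tv1754 = true := by decide +kernel


end Pool.Agent.Lib.MP_5854e1_co.Cz
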