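import Pool.Agent.Lib.MP_5854e1_co.Cz.P

/-!
# The rows of the rings
-/

set_option autoImplicit false
set_option maxRecDepth 100000
set_option deprecated.oldSectionVars true

namespace Pool.Agent.Lib.MP_5854e1_co.Cz

open Pool.Agent.Lib.MP_5854e1_co PB

theorem ytv1764 : DT.all (wzR cT Cz.tj Cz.tp Cz.tv) Cz.tv1764 = true := by decide +kernel

theorem ytv1765 : DT.all (wzR cT Cz.tj Cz.tp Cz.tv) Cz.tv1765 = true := by decide +kernel

theorem ytv1766 : DT.all (wzR cT Cz.tj Cz.tp Cz.tv) Cz.tv1766 = true := by decide +kernel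

theorem ytv1767 : DT.all (wzR cT Cz.tj Cz.tp Cz.tv) Cz.tv1767 = true := by decide +kernel

theorem ytv1768 : DT.all (wzR cT Cz.tj Cz.tp Cz.tv) Cz.tv1768 = true := by decide +kernel

theorem ytv1769 : DT.all (wzR cT Cz.tj Cz.tp Cz.tv) Cz.tv1769 = true := by decide +kernel

theorem ytv1770 : DT.all (wzR cT Cz.tj Cz.tp Cz.tv) Cz.tv1770 = true := by decide +kernel

theorem ytv1771 : DT.all (wzR cT Cz.tj Cz.tp Cz.tv) Cz.tv1771 = true := by decide +kernel


end Pool.Agent.Lib.MP_5854e1_co.Cz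

namespace Pool.Agent.Lib.MP_5854e1_co.Cz

open Pool.Agent.Lib.MP_5854e1_co PB

theorem ytv2982 : DT.all (wzR cT Cz.tj Cz.tp Cz.tv) Cz.tv2982 = true := by decide +kernel

theorem ytv2983 : DT.all (wzR cT Cz.tj Cz.tp Cz.tv) Cz.tv2983 = true := by decide +kernel

theorem ytv2984 : DT.all (wzR cT Cz.tj Cz.tp Cz.tv) Cz.tv2984 = true := by decide +kernel

theorem ytv2985 : DT.all (wzR cT Cz.tj Cz.tp Cz.tv) Cz.tv2985 = true := by decide +kernel

theorem ytv2986 : DT.all (wzR cT Cz.tj Cz.tp Cz.tv) Cz.tv2986 = true := by decide +kernel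

theorem ytv2987 : DT.all (wzR cT Cz.tj Cz.tp Cz.tv) Cz.tv2987 = true := by decide +kernel

theorem ytv2988 : DT.all (wzR cT Cz.tj Cz.tp Cz.tv) Cz.tv2988 = true := by decide +kernel

theorem ytv2989 : DT.all (wzR cT Cz.tj Cz.tp Cz.tv) Cz.tv2989 = true := by decide +kernel

theorem ytv2990 : DT.all (wzR cT Cz.tj Cz.tp Cz.tv) Cz.tv2990 = true := by decide +kernel


end Pool.Agent.Lib.MP_5854e1_co.Cz
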