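import Pool.Agent.Lib.MP_5854e1_co.Cz.P

/-!
# The rows of the rings
-/

set_option autoImplicit false
set_option maxRecDepth 100000
set_option deprecated.oldSectionVars true

namespace Pool.Agent.Lib.MP_5854e1_co.Cz

open Pool.Agent.Lib.MP_5854e1_co PB

theorem ytv1772 : DT.all (wzR cT Cz.tj Cz.tp Cz.tv) Cz.tv1772 = true := by decide +kernel

theorem ytv1773 : DT.all (wzR cT Cz.tj Cz.tp Cz.tv) Cz.tv1773 = true := by decide +kernel

theorem ytv1774 : DT.all (wzR cT Cz.tj Cz.tp Cz.tv) Cz.tv1774 = true := by decide +kernel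

theorem ytv1775 : DT.all (wzR cT Cz.tj Cz.tp Cz.tv) Cz.tv1775 = true := by decide +kernel

theorem ytv1776 : DT.all (wzR cT Cz.tj Cz.tp Cz.tv) Cz.tv1776 = true := by decide +kernel

theorem ytv1777 : DT.all (wzR cT Cz.tj Cz.tp Cz.tv) Cz.tv1777 = true := by decide +kernel

theorem ytv1778 : DT.all (wzR cT Cz.tj Cz.tp Cz.tv) Cz.tv1778 = true := by decide +kernel

theorem ytv1779 : DT.all (wzR cT Cz.tj Cz.tp Cz.tv) Cz.tv1779 = true := by decide +kernel


end Pool.Agent.Lib.MP_5854e1_co.Cz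

namespace Pool.Agent.Lib.MP_5854e1_co.Cz

open Pool.Agent.Lib.MP_5854e1_co PB

theorem ytv2599 : DT.all (wzR cT Cz.tj Cz.tp Cz.tv) Cz.tv2599 = true := by decide +kernel

theorem ytv2600 : DT.all (wzR cT Cz.tj Cz.tp Cz.tv) Cz.tv2600 = true := by decide +kernel

theorem ytv2601 : DT.all (wzR cT Cz.tj Cz.tp Cz.tv) Cz.tv2601 = true := by decide +kernel

theorem ytv2602 : DT.all (wzR cT Cz.tj Cz.tp Cz.tv) Cz.tv2602 = true := by decide +kernel


end Pool.Agent.Lib.MP_5854e1_co.Cz
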