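import Pool.Agent.Lib.MP_5854e1_co.Cz.P

/-!
# The rows of the rings
-/

set_option autoImplicit false
set_option maxRecDepth 100000
set_option deprecated.oldSectionVars true

namespace Pool.Agent.Lib.MP_5854e1_co.Cz

open Pool.Agent.Lib.MP_5854e1_co PB

theorem ytv1780 : DT.all (wzR cT Cz.tj Cz.tp Cz.tv) Cz.tv1780 = true := by decide +kernel

theorem ytv1781 : DT.all (wzR cT Cz.tj Cz.tp Cz.tv) Cz.tv1781 = true := by decide +kernel

theorem ytv1782 : DT.all (wzR cT Cz.tj Cz.tp Cz.tv) Cz.tv1782 = true := by decide +kernel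

theorem ytv1783 : DT.all (wzR cT Cz.tj Cz.tp Cz.tv) Cz.tv1783 = true := by decide +kernel

theorem ytv1784 : DT.all (wzR cT Cz.tj Cz.tp Cz.tv) Cz.tv1784 = true := by decide +kernel

theorem ytv1785 : DT.all (wzR cT Cz.tj Cz.tp Cz.tv) Cz.tv1785 = true := by decide +kernel

theorem ytv1786 : DT.all (wzR cT Cz.tj Cz.tp Cz.tv) Cz.tv1786 = true := by decide +kernel

theorem ytv1787 : DT.all (wzR cT Cz.tj Cz.tp Cz.tv) Cz.tv1787 = true := by decide +kernel

theorem ytv1788 : DT.all (wzR cT Cz.tj Cz.tp Cz.tv) Cz.tv1788 = true := by decide +kernel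


end Pool.Agent.Lib.MP_5854e1_co.Cz

namespace Pool.Agent.Lib.MP_5854e1_co.Cz

open Pool.Agent.Lib.MP_5854e1_co PB

theorem ytv3843 : DT.all (wzR cT Cz.tj Cz.tp Cz.tv) Cz.tv3843 = true := by decide +kernel

theorem ytv3844 : DT.all (wzR cT Cz.tj Cz.tp Cz.tv) Cz.tv3844 = true := by decide +kernel

theorem ytv3845 : DT.all (wzR cT Cz.tj Cz.tp Cz.tv) Cz.tv3845 = true := by decide +kernel

theorem ytv3846 : DT.all (wzR cT Cz.tj Cz.tp Cz.tv) Cz.tv3846 = true := by decide +kernel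

theorem ytv3847 : DT.all (wzR cT Cz.tj Cz.tp Cz.tv) Cz.tv3847 = true := by decide +kernel


end Pool.Agent.Lib.MP_5854e1_co.Cz
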