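import Pool.Agent.Lib.MP_5854e1_co.Cz.P

/-!
# The rows of the rings
-/

set_option autoImplicit false
set_option maxRecDepth 100000
set_option deprecated.oldSectionVars true

namespace Pool.Agent.Lib.MP_5854e1_co.Cz

open Pool.Agent.Lib.MP_5854e1_co PB

theorem ytv1789 : DT.all (wzR cT Cz.tj Cz.tp Cz.tv) Cz.tv1789 = true := by decide +kernel

theorem ytv1790 : DT.all (wzR cT Cz.tj Cz.tp Cz.tv) Cz.tv1790 = true := by decide +kernel

theorem ytv1791 : DT.all (wzR cT Cz.tj Cz.tp Cz.tv) Cz.tv1791 = true := by decide +kernel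

theorem ytv1792 : DT.all (wzR cT Cz.tj Cz.tp Cz.tv) Cz.tv1792 = true := by decide +kernel

theorem ytv1793 : DT.all (wzR cT Cz.tj Cz.tp Cz.tv) Cz.tv1793 = true := by decide +kernel

theorem ytv1794 : DT.all (wzR cT Cz.tj Cz.tp Cz.tv) Cz.tv1794 = true := by decide +kernel

theorem ytv1795 : DT.all (wzR cT Cz.tj Cz.tp Cz.tv) Cz.tv1795 = true := by decide +kernel

theorem ytv1796 : DT.all (wzR cT Cz.tj Cz.tp Cz.tv) Cz.tv1796 = true := by decide +kernel

theorem ytv1797 : DT.all (wzR cT Cz.tj Cz.tp Cz.tv) Cz.tv1797 = true := by decide +kernel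


end Pool.Agent.Lib.MP_5854e1_co.Cz
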