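import Pool.Agent.Lib.MP_5854e1_co.Cz.P

/-!
# The rows of the rings
-/

set_option autoImplicit false
set_option maxRecDepth 100000
set_option deprecated.oldSectionVars true

namespace Pool.Agent.Lib.MP_5854e1_co.Cz

open Pool.Agent.Lib.MP_5854e1_co PB

theorem ytv1804 : DT.all (wzR cT Cz.tj Cz.tp Cz.tv) Cz.tv1804 = true := by decide +kernel

theorem ytv1805 : DT.all (wzR cT Cz.tj Cz.tp Cz.tv) Cz.tv1805 = true := by decide +kernel

theorem ytv1806 : DT.all (wzR cT Cz.tj Cz.tp Cz.tv) Cz.tv1806 = true := by decide +kernel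

theorem ytv1807 : DT.all (wzR cT Cz.tj Cz.tp Cz.tv) Cz.tv1807 = true := by decide +kernel

theorem ytv1808 : DT.all (wzR cT Cz.tj Cz.tp Cz.tv) Cz.tv1808 = true := by decide +kernel

theorem ytv1809 : DT.all (wzR cT Cz.tj Cz.tp Cz.tv) Cz.tv1809 = true := by decide +kernel

theorem ytv1810 : DT.all (wzR cT Cz.tj Cz.tp Cz.tv) Cz.tv1810 = true := by decide +kernel

theorem ytv1811 : DT.all (wzR cT Cz.tj Cz.tp Cz.tv) Cz.tv1811 = true := by decide +kernel


end Pool.Agent.Lib.MP_5854e1_co.Cz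

namespace Pool.Agent.Lib.MP_5854e1_co.Cz

open Pool.Agent.Lib.MP_5854e1_co PB

theorem ytv2351 : DT.all (wzR cT Cz.tj Cz.tp Cz.tv) Cz.tv2351 = true := by decide +kernel

theorem ytv2352 : DT.all (wzR cT Cz.tj Cz.tp Cz.tv) Cz.tv2352 = true := by decide +kernel

theorem ytv2353 : DT.all (wzR cT Cz.tj Cz.tp Cz.tv) Cz.tv2353 = true := by decide +kernel

theorem ytv2354 : DT.all (wzR cT Cz.tj Cz.tp Cz.tv) Cz.tv2354 = true := by decide +kernel

theorem ytv2355 : DT.all (wzR cT Cz.tj Cz.tp Cz.tv) Cz.tv2355 = true := by decide +kernel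

theorem ytv2356 : DT.all (wzR cT Cz.tj Cz.tp Cz.tv) Cz.tv2356 = true := by decide +kernel

theorem ytv2357 : DT.all (wzR cT Cz.tj Cz.tp Cz.tv) Cz.tv2357 = true := by decide +kernel

theorem ytv2358 : DT.all (wzR cT Cz.tj Cz.tp Cz.tv) Cz.tv2358 = true := by decide +kernel

theorem ytv2359 : DT.all (wzR cT Cz.tj Cz.tp Cz.tv) Cz.tv2359 = true := by decide +kernel


end Pool.Agent.Lib.MP_5854e1_co.Cz
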