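import Pool.Agent.Lib.MP_5854e1_co.Cz.P

/-!
# The rows of the rings
-/

set_option autoImplicit false
set_option maxRecDepth 100000
set_option deprecated.oldSectionVars true

namespace Pool.Agent.Lib.MP_5854e1_co.Cz

open Pool.Agent.Lib.MP_5854e1_co PB

theorem ytv1812 : DT.all (wzR cT Cz.tj Cz.tp Cz.tv) Cz.tv1812 = true := by decide +kernel

theorem ytv1813 : DT.all (wzR cT Cz.tj Cz.tp Cz.tv) Cz.tv1813 = true := by decide +kernel

theorem ytv1814 : DT.all (wzR cT Cz.tj Cz.tp Cz.tv) Cz.tv1814 = true := by decide +kernel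

theorem ytv1815 : DT.all (wzR cT Cz.tj Cz.tp Cz.tv) Cz.tv1815 = true := by decide +kernel

theorem ytv1816 : DT.all (wzR cT Cz.tj Cz.tp Cz.tv) Cz.tv1816 = true := by decide +kernel

theorem ytv1817 : DT.all (wzR cT Cz.tj Cz.tp Cz.tv) Cz.tv1817 = true := by decide +kernel

theorem ytv1818 : DT.all (wzR cT Cz.tj Cz.tp Cz.tv) Cz.tv1818 = true := by decide +kernel

theorem ytv1819 : DT.all (wzR cT Cz.tj Cz.tp Cz.tv) Cz.tv1819 = true := by decide +kernel


end Pool.Agent.Lib.MP_5854e1_co.Cz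

namespace Pool.Agent.Lib.MP_5854e1_co.Cz

open Pool.Agent.Lib.MP_5854e1_co PB

theorem ytv2325 : DT.all (wzR cT Cz.tj Cz.tp Cz.tv) Cz.tv2325 = true := by decide +kernel

theorem ytv2326 : DT.all (wzR cT Cz.tj Cz.tp Cz.tv) Cz.tv2326 = true := by decide +kernel

theorem ytv2327 : DT.all (wzR cT Cz.tj Cz.tp Cz.tv) Cz.tv2327 = true := by decide +kernel

theorem ytv2328 : DT.all (wzR cT Cz.tj Cz.tp Cz.tv) Cz.tv2328 = true := by decide +kernel

theorem ytv2329 : DT.all (wzR cT Cz.tj Cz.tp Cz.tv) Cz.tv2329 = true := by decide +kernel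

theorem ytv2330 : DT.all (wzR cT Cz.tj Cz.tp Cz.tv) Cz.tv2330 = true := by decide +kernel

theorem ytv2331 : DT.all (wzR cT Cz.tj Cz.tp Cz.tv) Cz.tv2331 = true := by decide +kernel

theorem ytv2332 : DT.all (wzR cT Cz.tj Cz.tp Cz.tv) Cz.tv2332 = true := by decide +kernel


end Pool.Agent.Lib.MP_5854e1_co.Cz
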