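import Pool.Agent.Lib.MP_5854e1_co.Cz.P

/-!
# The rows of the rings
-/

set_option autoImplicit false
set_option maxRecDepth 100000
set_option deprecated.oldSectionVars true

namespace Pool.Agent.Lib.MP_5854e1_co.Cz

open Pool.Agent.Lib.MP_5854e1_co PB

theorem ytv1820 : DT.all (wzR cT Cz.tj Cz.tp Cz.tv) Cz.tv1820 = true := by decide +kernel

theorem ytv1821 : DT.all (wzR cT Cz.tj Cz.tp Cz.tv) Cz.tv1821 = true := by decide +kernel

theorem ytv1822 : DT.all (wzR cT Cz.tj Cz.tp Cz.tv) Cz.tv1822 = true := by decide +kernel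

theorem ytv1823 : DT.all (wzR cT Cz.tj Cz.tp Cz.tv) Cz.tv1823 = true := by decide +kernel

theorem ytv1824 : DT.all (wzR cT Cz.tj Cz.tp Cz.tv) Cz.tv1824 = true := by decide +kernel

theorem ytv1825 : DT.all (wzR cT Cz.tj Cz.tp Cz.tv) Cz.tv1825 = true := by decide +kernel

theorem ytv1826 : DT.all (wzR cT Cz.tj Cz.tp Cz.tv) Cz.tv1826 = true := by decide +kernel


end Pool.Agent.Lib.MP_5854e1_co.Cz

namespace Pool.Agent.Lib.MP_5854e1_co.Cz

open Pool.Agent.Lib.MP_5854e1_co PB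

theorem ytv3556 : DT.all (wzR cT Cz.tj Cz.tp Cz.tv) Cz.tv3556 = true := by decide +kernel

theorem ytv3557 : DT.all (wzR cT Cz.tj Cz.tp Cz.tv) Cz.tv3557 = true := by decide +kernel

theorem ytv3558 : DT.all (wzR cT Cz.tj Cz.tp Cz.tv) Cz.tv3558 = true := by decide +kernel

theorem ytv3559 : DT.all (wzR cT Cz.tj Cz.tp Cz.tv) Cz.tv3559 = true := by decide +kernel

theorem ytv3560 : DT.all (wzR cT Cz.tj Cz.tp Cz.tv) Cz.tv3560 = true := by decide +kernel

theorem ytv3561 : DT.all (wzR cT Cz.tj Cz.tp Cz.tv) Cz.tv3561 = true := by decide +kernel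

theorem ytv3562 : DT.all (wzR cT Cz.tj Cz.tp Cz.tv) Cz.tv3562 = true := by decide +kernel

theorem ytv3563 : DT.all (wzR cT Cz.tj Cz.tp Cz.tv) Cz.tv3563 = true := by decide +kernel


end Pool.Agent.Lib.MP_5854e1_co.Cz
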