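import Pool.Agent.Lib.MP_5854e1_co.Cz.P

/-!
# The rows of the rings
-/

set_option autoImplicit false
set_option maxRecDepth 100000
set_option deprecated.oldSectionVars true

namespace Pool.Agent.Lib.MP_5854e1_co.Cz

open Pool.Agent.Lib.MP_5854e1_co PB

theorem ytv188 : DT.all (wzR cT Cz.tj Cz.tp Cz.tv) Cz.tv188 = true := by decide +kernel

theorem ytv189 : DT.all (wzR cT Cz.tj Cz.tp Cz.tv) Cz.tv189 = true := by decide +kernel

theorem ytv190 : DT.all (wzR cT Cz.tj Cz.tp Cz.tv) Cz.tv190 = true := by decide +kernel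

theorem ytv191 : DT.all (wzR cT Cz.tj Cz.tp Cz.tv) Cz.tv191 = true := by decide +kernel

theorem ytv192 : DT.all (wzR cT Cz.tj Cz.tp Cz.tv) Cz.tv192 = true := by decide +kernel

theorem ytv193 : DT.all (wzR cT Cz.tj Cz.tp Cz.tv) Cz.tv193 = true := by decide +kernel

theorem ytv194 : DT.all (wzR cT Cz.tj Cz.tp Cz.tv) Cz.tv194 = true := by decide +kernel

theorem ytv195 : DT.all (wzR cT Cz.tj Cz.tp Cz.tv) Cz.tv195 = true := by decide +kernel


end Pool.Agent.Lib.MP_5854e1_co.Cz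

namespace Pool.Agent.Lib.MP_5854e1_co.Cz

open Pool.Agent.Lib.MP_5854e1_co PB

theorem ytv2255 : DT.all (wzR cT Cz.tj Cz.tp Cz.tv) Cz.tv2255 = true := by decide +kernel

theorem ytv2256 : DT.all (wzR cT Cz.tj Cz.tp Cz.tv) Cz.tv2256 = true := by decide +kernel

theorem ytv2257 : DT.all (wzR cT Cz.tj Cz.tp Cz.tv) Cz.tv2257 = true := by decide +kernel

theorem ytv2258 : DT.all (wzR cT Cz.tj Cz.tp Cz.tv) Cz.tv2258 = true := by decide +kernel

theorem ytv2259 : DT.all (wzR cT Cz.tj Cz.tp Cz.tv) Cz.tv2259 = true := by decide +kernel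

theorem ytv2260 : DT.all (wzR cT Cz.tj Cz.tp Cz.tv) Cz.tv2260 = true := by decide +kernel

theorem ytv2261 : DT.all (wzR cT Cz.tj Cz.tp Cz.tv) Cz.tv2261 = true := by decide +kernel

theorem ytv2262 : DT.all (wzR cT Cz.tj Cz.tp Cz.tv) Cz.tv2262 = true := by decide +kernel


end Pool.Agent.Lib.MP_5854e1_co.Cz
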