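import Pool.Agent.Lib.MP_5854e1_co.Cz.P

/-!
# The rows of the rings
-/

set_option autoImplicit false
set_option maxRecDepth 100000
set_option deprecated.oldSectionVars true

namespace Pool.Agent.Lib.MP_5854e1_co.Cz

open Pool.Agent.Lib.MP_5854e1_co PB

theorem ytv1852 : DT.all (wzR cT Cz.tj Cz.tp Cz.tv) Cz.tv1852 = true := by decide +kernel

theorem ytv1853 : DT.all (wzR cT Cz.tj Cz.tp Cz.tv) Cz.tv1853 = true := by decide +kernel

theorem ytv1854 : DT.all (wzR cT Cz.tj Cz.tp Cz.tv) Cz.tv1854 = true := by decide +kernel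

theorem ytv1855 : DT.all (wzR cT Cz.tj Cz.tp Cz.tv) Cz.tv1855 = true := by decide +kernel

theorem ytv1856 : DT.all (wzR cT Cz.tj Cz.tp Cz.tv) Cz.tv1856 = true := by decide +kernel

theorem ytv1857 : DT.all (wzR cT Cz.tj Cz.tp Cz.tv) Cz.tv1857 = true := by decide +kernel

theorem ytv1858 : DT.all (wzR cT Cz.tj Cz.tp Cz.tv) Cz.tv1858 = true := by decide +kernel


end Pool.Agent.Lib.MP_5854e1_co.Cz

namespace Pool.Agent.Lib.MP_5854e1_co.Cz

open Pool.Agent.Lib.MP_5854e1_co PB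

theorem ytv2333 : DT.all (wzR cT Cz.tj Cz.tp Cz.tv) Cz.tv2333 = true := by decide +kernel

theorem ytv2334 : DT.all (wzR cT Cz.tj Cz.tp Cz.tv) Cz.tv2334 = true := by decide +kernel

theorem ytv2335 : DT.all (wzR cT Cz.tj Cz.tp Cz.tv) Cz.tv2335 = true := by decide +kernel

theorem ytv2336 : DT.all (wzR cT Cz.tj Cz.tp Cz.tv) Cz.tv2336 = true := by decide +kernel

theorem ytv2337 : DT.all (wzR cT Cz.tj Cz.tp Cz.tv) Cz.tv2337 = true := by decide +kernel

theorem ytv2338 : DT.all (wzR cT Cz.tj Cz.tp Cz.tv) Cz.tv2338 = true := by decide +kernel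

theorem ytv2339 : DT.all (wzR cT Cz.tj Cz.tp Cz.tv) Cz.tv2339 = true := by decide +kernel

theorem ytv2340 : DT.all (wzR cT Cz.tj Cz.tp Cz.tv) Cz.tv2340 = true := by decide +kernel

theorem ytv2341 : DT.all (wzR cT Cz.tj Cz.tp Cz.tv) Cz.tv2341 = true := by decide +kernel


end Pool.Agent.Lib.MP_5854e1_co.Cz
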