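import Pool.Agent.Lib.MP_5854e1_co.Cz.P

/-!
# The rows of the rings
-/

set_option autoImplicit false
set_option maxRecDepth 100000
set_option deprecated.oldSectionVars true

namespace Pool.Agent.Lib.MP_5854e1_co.Cz

open Pool.Agent.Lib.MP_5854e1_co PB

theorem ytv1859 : DT.all (wzR cT Cz.tj Cz.tp Cz.tv) Cz.tv1859 = true := by decide +kernel

theorem ytv1860 : DT.all (wzR cT Cz.tj Cz.tp Cz.tv) Cz.tv1860 = true := by decide +kernel

theorem ytv1861 : DT.all (wzR cT Cz.tj Cz.tp Cz.tv) Cz.tv1861 = true := by decide +kernel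

theorem ytv1862 : DT.all (wzR cT Cz.tj Cz.tp Cz.tv) Cz.tv1862 = true := by decide +kernel


end Pool.Agent.Lib.MP_5854e1_co.Cz

namespace Pool.Agent.Lib.MP_5854e1_co.Cz

open Pool.Agent.Lib.MP_5854e1_co PB

theorem ytv3258 : DT.all (wzR cT Cz.tj Cz.tp Cz.tv) Cz.tv3258 = true := by decide +kernel

theorem ytv3259 : DT.all (wzR cT Cz.tj Cz.tp Cz.tv) Cz.tv3259 = true := by decide +kernel

theorem ytv3260 : DT.all (wzR cT Cz.tj Cz.tp Cz.tv) Cz.tv3260 = true := by decide +kernel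

theorem ytv3261 : DT.all (wzR cT Cz.tj Cz.tp Cz.tv) Cz.tv3261 = true := by decide +kernel

theorem ytv3262 : DT.all (wzR cT Cz.tj Cz.tp Cz.tv) Cz.tv3262 = true := by decide +kernel

theorem ytv3263 : DT.all (wzR cT Cz.tj Cz.tp Cz.tv) Cz.tv3263 = true := by decide +kernel

theorem ytv3264 : DT.all (wzR cT Cz.tj Cz.tp Cz.tv) Cz.tv3264 = true := by decide +kernel

theorem ytv3265 : DT.all (wzR cT Cz.tj Cz.tp Cz.tv) Cz.tv3265 = true := by decide +kernel


end Pool.Agent.Lib.MP_5854e1_co.Cz
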