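import Pool.Agent.Lib.MP_5854e1_co.Cz.P

/-!
# The rows of the rings
-/

set_option autoImplicit false
set_option maxRecDepth 100000
set_option deprecated.oldSectionVars true

namespace Pool.Agent.Lib.MP_5854e1_co.Cz

open Pool.Agent.Lib.MP_5854e1_co PB

theorem ytv1877 : DT.all (wzR cT Cz.tj Cz.tp Cz.tv) Cz.tv1877 = true := by decide +kernel

theorem ytv1878 : DT.all (wzR cT Cz.tj Cz.tp Cz.tv) Cz.tv1878 = true := by decide +kernel

theorem ytv1879 : DT.all (wzR cT Cz.tj Cz.tp Cz.tv) Cz.tv1879 = true := by decide +kernel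

theorem ytv1880 : DT.all (wzR cT Cz.tj Cz.tp Cz.tv) Cz.tv1880 = true := by decide +kernel

theorem ytv1881 : DT.all (wzR cT Cz.tj Cz.tp Cz.tv) Cz.tv1881 = true := by decide +kernel

theorem ytv1882 : DT.all (wzR cT Cz.tj Cz.tp Cz.tv) Cz.tv1882 = true := by decide +kernel

theorem ytv1883 : DT.all (wzR cT Cz.tj Cz.tp Cz.tv) Cz.tv1883 = true := by decide +kernel

theorem ytv1884 : DT.all (wzR cT Cz.tj Cz.tp Cz.tv) Cz.tv1884 = true := by decide +kernel

theorem ytv1885 : DT.all (wzR cT Cz.tj Cz.tp Cz.tv) Cz.tv1885 = true := by decide +kernel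


end Pool.Agent.Lib.MP_5854e1_co.Cz

namespace Pool.Agent.Lib.MP_5854e1_co.Cz

open Pool.Agent.Lib.MP_5854e1_co PB

theorem ytv4916 : DT.all (wzR cT Cz.tj Cz.tp Cz.tv) Cz.tv4916 = true := by decide +kernel

theorem ytv4917 : DT.all (wzR cT Cz.tj Cz.tp Cz.tv) Cz.tv4917 = true := by decide +kernel

theorem ytv4918 : DT.all (wzR cT Cz.tj Cz.tp Cz.tv) Cz.tv4918 = true := by decide +kernel

theorem ytv4919 : DT.all (wzR cT Cz.tj Cz.tp Cz.tv) Cz.tv4919 = true := by decide +kernel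

theorem ytv4920 : DT.all (wzR cT Cz.tj Cz.tp Cz.tv) Cz.tv4920 = true := by decide +kernel

theorem ytv4921 : DT.all (wzR cT Cz.tj Cz.tp Cz.tv) Cz.tv4921 = true := by decide +kernel

theorem ytv4922 : DT.all (wzR cT Cz.tj Cz.tp Cz.tv) Cz.tv4922 = true := by decide +kernel

theorem ytv4923 : DT.all (wzR cT Cz.tj Cz.tp Cz.tv) Cz.tv4923 = true := by decide +kernel


end Pool.Agent.Lib.MP_5854e1_co.Cz
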