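import Pool.Agent.Lib.MP_5854e1_co.Cz.P

/-!
# The rows of the rings
-/

set_option autoImplicit false
set_option maxRecDepth 100000
set_option deprecated.oldSectionVars true

namespace Pool.Agent.Lib.MP_5854e1_co.Cz

open Pool.Agent.Lib.MP_5854e1_co PB

theorem ytv1895 : DT.all (wzR cT Cz.tj Cz.tp Cz.tv) Cz.tv1895 = true := by decide +kernel

theorem ytv1896 : DT.all (wzR cT Cz.tj Cz.tp Cz.tv) Cz.tv1896 = true := by decide +kernel

theorem ytv1897 : DT.all (wzR cT Cz.tj Cz.tp Cz.tv) Cz.tv1897 = true := by decide +kernel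

theorem ytv1898 : DT.all (wzR cT Cz.tj Cz.tp Cz.tv) Cz.tv1898 = true := by decide +kernel

theorem ytv1899 : DT.all (wzR cT Cz.tj Cz.tp Cz.tv) Cz.tv1899 = true := by decide +kernel

theorem ytv1900 : DT.all (wzR cT Cz.tj Cz.tp Cz.tv) Cz.tv1900 = true := by decide +kernel

theorem ytv1901 : DT.all (wzR cT Cz.tj Cz.tp Cz.tv) Cz.tv1901 = true := by decide +kernel

theorem ytv1902 : DT.all (wzR cT Cz.tj Cz.tp Cz.tv) Cz.tv1902 = true := by decide +kernel


end Pool.Agent.Lib.MP_5854e1_co.Cz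

namespace Pool.Agent.Lib.MP_5854e1_co.Cz

open Pool.Agent.Lib.MP_5854e1_co PB

theorem ytv2428 : DT.all (wzR cT Cz.tj Cz.tp Cz.tv) Cz.tv2428 = true := by decide +kernel

theorem ytv2429 : DT.all (wzR cT Cz.tj Cz.tp Cz.tv) Cz.tv2429 = true := by decide +kernel

theorem ytv2430 : DT.all (wzR cT Cz.tj Cz.tp Cz.tv) Cz.tv2430 = true := by decide +kernel


end Pool.Agent.Lib.MP_5854e1_co.Cz
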