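import Pool.Agent.Lib.MP_5854e1_co.Cz.P

/-!
# The rows of the rings
-/

set_option autoImplicit false
set_option maxRecDepth 100000
set_option deprecated.oldSectionVars true

namespace Pool.Agent.Lib.MP_5854e1_co.Cz

open Pool.Agent.Lib.MP_5854e1_co PB

theorem ytv1903 : DT.all (wzR cT Cz.tj Cz.tp Cz.tv) Cz.tv1903 = true := by decide +kernel

theorem ytv1904 : DT.all (wzR cT Cz.tj Cz.tp Cz.tv) Cz.tv1904 = true := by decide +kernel

theorem ytv1905 : DT.all (wzR cT Cz.tj Cz.tp Cz.tv) Cz.tv1905 = true := by decide +kernel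

theorem ytv1906 : DT.all (wzR cT Cz.tj Cz.tp Cz.tv) Cz.tv1906 = true := by decide +kernel

theorem ytv1907 : DT.all (wzR cT Cz.tj Cz.tp Cz.tv) Cz.tv1907 = true := by decide +kernel

theorem ytv1908 : DT.all (wzR cT Cz.tj Cz.tp Cz.tv) Cz.tv1908 = true := by decide +kernel

theorem ytv1909 : DT.all (wzR cT Cz.tj Cz.tp Cz.tv) Cz.tv1909 = true := by decide +kernel

theorem ytv1910 : DT.all (wzR cT Cz.tj Cz.tp Cz.tv) Cz.tv1910 = true := by decide +kernel

theorem ytv1911 : DT.all (wzR cT Cz.tj Cz.tp Cz.tv) Cz.tv1911 = true := by decide +kernel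


end Pool.Agent.Lib.MP_5854e1_co.Cz

namespace Pool.Agent.Lib.MP_5854e1_co.Cz

open Pool.Agent.Lib.MP_5854e1_co PB

theorem ytv2496 : DT.all (wzR cT Cz.tj Cz.tp Cz.tv) Cz.tv2496 = true := by decide +kernel

theorem ytv2497 : DT.all (wzR cT Cz.tj Cz.tp Cz.tv) Cz.tv2497 = true := by decide +kernel

theorem ytv2498 : DT.all (wzR cT Cz.tj Cz.tp Cz.tv) Cz.tv2498 = true := by decide +kernel

theorem ytv2499 : DT.all (wzR cT Cz.tj Cz.tp Cz.tv) Cz.tv2499 = true := by decide +kernel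

theorem ytv2500 : DT.all (wzR cT Cz.tj Cz.tp Cz.tv) Cz.tv2500 = true := by decide +kernel

theorem ytv2501 : DT.all (wzR cT Cz.tj Cz.tp Cz.tv) Cz.tv2501 = true := by decide +kernel

theorem ytv2502 : DT.all (wzR cT Cz.tj Cz.tp Cz.tv) Cz.tv2502 = true := by decide +kernel

theorem ytv2503 : DT.all (wzR cT Cz.tj Cz.tp Cz.tv) Cz.tv2503 = true := by decide +kernel


end Pool.Agent.Lib.MP_5854e1_co.Cz
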