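import Pool.Agent.Lib.MP_5854e1_co.Cz.P

/-!
# The rows of the rings
-/

set_option autoImplicit false
set_option maxRecDepth 100000
set_option deprecated.oldSectionVars true

namespace Pool.Agent.Lib.MP_5854e1_co.Cz

open Pool.Agent.Lib.MP_5854e1_co PB

theorem ytv1912 : DT.all (wzR cT Cz.tj Cz.tp Cz.tv) Cz.tv1912 = true := by decide +kernel

theorem ytv1913 : DT.all (wzR cT Cz.tj Cz.tp Cz.tv) Cz.tv1913 = true := by decide +kernel

theorem ytv1914 : DT.all (wzR cT Cz.tj Cz.tp Cz.tv) Cz.tv1914 = true := by decide +kernel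

theorem ytv1915 : DT.all (wzR cT Cz.tj Cz.tp Cz.tv) Cz.tv1915 = true := by decide +kernel

theorem ytv1916 : DT.all (wzR cT Cz.tj Cz.tp Cz.tv) Cz.tv1916 = true := by decide +kernel

theorem ytv1917 : DT.all (wzR cT Cz.tj Cz.tp Cz.tv) Cz.tv1917 = true := by decide +kernel

theorem ytv1918 : DT.all (wzR cT Cz.tj Cz.tp Cz.tv) Cz.tv1918 = true := by decide +kernel

theorem ytv1919 : DT.all (wzR cT Cz.tj Cz.tp Cz.tv) Cz.tv1919 = true := by decide +kernel

theorem ytv1920 : DT.all (wzR cT Cz.tj Cz.tp Cz.tv) Cz.tv1920 = true := by decide +kernel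


end Pool.Agent.Lib.MP_5854e1_co.Cz

namespace Pool.Agent.Lib.MP_5854e1_co.Cz

open Pool.Agent.Lib.MP_5854e1_co PB

theorem ytv5255 : DT.all (wzR cT Cz.tj Cz.tp Cz.tv) Cz.tv5255 = true := by decide +kernel

theorem ytv5256 : DT.all (wzR cT Cz.tj Cz.tp Cz.tv) Cz.tv5256 = true := by decide +kernel

theorem ytv5257 : DT.all (wzR cT Cz.tj Cz.tp Cz.tv) Cz.tv5257 = true := by decide +kernel

theorem ytv5258 : DT.all (wzR cT Cz.tj Cz.tp Cz.tv) Cz.tv5258 = true := by decide +kernel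

theorem ytv5259 : DT.all (wzR cT Cz.tj Cz.tp Cz.tv) Cz.tv5259 = true := by decide +kernel

theorem ytv5260 : DT.all (wzR cT Cz.tj Cz.tp Cz.tv) Cz.tv5260 = true := by decide +kernel

theorem ytv5261 : DT.all (wzR cT Cz.tj Cz.tp Cz.tv) Cz.tv5261 = true := by decide +kernel

theorem ytv5262 : DT.all (wzR cT Cz.tj Cz.tp Cz.tv) Cz.tv5262 = true := by decide +kernel


end Pool.Agent.Lib.MP_5854e1_co.Cz
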