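import Pool.Agent.Lib.MP_5854e1_co.Cz.P

/-!
# The rows of the rings
-/

set_option autoImplicit false
set_option maxRecDepth 100000
set_option deprecated.oldSectionVars true

namespace Pool.Agent.Lib.MP_5854e1_co.Cz

open Pool.Agent.Lib.MP_5854e1_co PB

theorem ytv1957 : DT.all (wzR cT Cz.tj Cz.tp Cz.tv) Cz.tv1957 = true := by decide +kernel

theorem ytv1958 : DT.all (wzR cT Cz.tj Cz.tp Cz.tv) Cz.tv1958 = true := by decide +kernel

theorem ytv1959 : DT.all (wzR cT Cz.tj Cz.tp Cz.tv) Cz.tv1959 = true := by decide +kernel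

theorem ytv1960 : DT.all (wzR cT Cz.tj Cz.tp Cz.tv) Cz.tv1960 = true := by decide +kernel

theorem ytv1961 : DT.all (wzR cT Cz.tj Cz.tp Cz.tv) Cz.tv1961 = true := by decide +kernel

theorem ytv1962 : DT.all (wzR cT Cz.tj Cz.tp Cz.tv) Cz.tv1962 = true := by decide +kernel

theorem ytv1963 : DT.all (wzR cT Cz.tj Cz.tp Cz.tv) Cz.tv1963 = true := by decide +kernel

theorem ytv1964 : DT.all (wzR cT Cz.tj Cz.tp Cz.tv) Cz.tv1964 = true := by decide +kernel


end Pool.Agent.Lib.MP_5854e1_co.Cz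

namespace Pool.Agent.Lib.MP_5854e1_co.Cz

open Pool.Agent.Lib.MP_5854e1_co PB

theorem ytv4422 : DT.all (wzR cT Cz.tj Cz.tp Cz.tv) Cz.tv4422 = true := by decide +kernel

theorem ytv4423 : DT.all (wzR cT Cz.tj Cz.tp Cz.tv) Cz.tv4423 = true := by decide +kernel

theorem ytv4424 : DT.all (wzR cT Cz.tj Cz.tp Cz.tv) Cz.tv4424 = true := by decide +kernel

theorem ytv4425 : DT.all (wzR cT Cz.tj Cz.tp Cz.tv) Cz.tv4425 = true := by decide +kernel

theorem ytv4426 : DT.all (wzR cT Cz.tj Cz.tp Cz.tv) Cz.tv4426 = true := by decide +kernel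

theorem ytv4427 : DT.all (wzR cT Cz.tj Cz.tp Cz.tv) Cz.tv4427 = true := by decide +kernel

theorem ytv4428 : DT.all (wzR cT Cz.tj Cz.tp Cz.tv) Cz.tv4428 = true := by decide +kernel

theorem ytv4429 : DT.all (wzR cT Cz.tj Cz.tp Cz.tv) Cz.tv4429 = true := by decide +kernel

theorem ytv4430 : DT.all (wzR cT Cz.tj Cz.tp Cz.tv) Cz.tv4430 = true := by decide +kernel


end Pool.Agent.Lib.MP_5854e1_co.Cz
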