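import Pool.Agent.Lib.MP_5854e1_co.Cz.P

/-!
# The rows of the rings
-/

set_option autoImplicit false
set_option maxRecDepth 100000
set_option deprecated.oldSectionVars true

namespace Pool.Agent.Lib.MP_5854e1_co.Cz

open Pool.Agent.Lib.MP_5854e1_co PB

theorem ytv1965 : DT.all (wzR cT Cz.tj Cz.tp Cz.tv) Cz.tv1965 = true := by decide +kernel

theorem ytv1966 : DT.all (wzR cT Cz.tj Cz.tp Cz.tv) Cz.tv1966 = true := by decide +kernel

theorem ytv1967 : DT.all (wzR cT Cz.tj Cz.tp Cz.tv) Cz.tv1967 = true := by decide +kernel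

theorem ytv1968 : DT.all (wzR cT Cz.tj Cz.tp Cz.tv) Cz.tv1968 = true := by decide +kernel

theorem ytv1969 : DT.all (wzR cT Cz.tj Cz.tp Cz.tv) Cz.tv1969 = true := by decide +kernel

theorem ytv1970 : DT.all (wzR cT Cz.tj Cz.tp Cz.tv) Cz.tv1970 = true := by decide +kernel

theorem ytv1971 : DT.all (wzR cT Cz.tj Cz.tp Cz.tv) Cz.tv1971 = true := by decide +kernel

theorem ytv1972 : DT.all (wzR cT Cz.tj Cz.tp Cz.tv) Cz.tv1972 = true := by decide +kernel

theorem ytv1973 : DT.all (wzR cT Cz.tj Cz.tp Cz.tv) Cz.tv1973 = true := by decide +kernel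

theorem ytv1974 : DT.all (wzR cT Cz.tj Cz.tp Cz.tv) Cz.tv1974 = true := by decide +kernel


end Pool.Agent.Lib.MP_5854e1_co.Cz

namespace Pool.Agent.Lib.MP_5854e1_co.Cz

open Pool.Agent.Lib.MP_5854e1_co PB

theorem ytv4381 : DT.all (wzR cT Cz.tj Cz.tp Cz.tv) Cz.tv4381 = true := by decide +kernel

theorem ytv4382 : DT.all (wzR cT Cz.tj Cz.tp Cz.tv) Cz.tv4382 = true := by decide +kernel

theorem ytv4383 : DT.all (wzR cT Cz.tj Cz.tp Cz.tv) Cz.tv4383 = true := by decide +kernel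

theorem ytv4384 : DT.all (wzR cT Cz.tj Cz.tp Cz.tv) Cz.tv4384 = true := by decide +kernel

theorem ytv4385 : DT.all (wzR cT Cz.tj Cz.tp Cz.tv) Cz.tv4385 = true := by decide +kernel

theorem ytv4386 : DT.all (wzR cT Cz.tj Cz.tp Cz.tv) Cz.tv4386 = true := by decide +kernel

theorem ytv4387 : DT.all (wzR cT Cz.tj Cz.tp Cz.tv) Cz.tv4387 = true := by decide +kernel


end Pool.Agent.Lib.MP_5854e1_co.Cz
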