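import Pool.Agent.Lib.MP_5854e1_co.Cz.P

/-!
# The rows of the rings
-/

set_option autoImplicit false
set_option maxRecDepth 100000
set_option deprecated.oldSectionVars true

namespace Pool.Agent.Lib.MP_5854e1_co.Cz

open Pool.Agent.Lib.MP_5854e1_co PB

theorem ytv1992 : DT.all (wzR cT Cz.tj Cz.tp Cz.tv) Cz.tv1992 = true := by decide +kernel

theorem ytv1993 : DT.all (wzR cT Cz.tj Cz.tp Cz.tv) Cz.tv1993 = true := by decide +kernel

theorem ytv1994 : DT.all (wzR cT Cz.tj Cz.tp Cz.tv) Cz.tv1994 = true := by decide +kernel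

theorem ytv1995 : DT.all (wzR cT Cz.tj Cz.tp Cz.tv) Cz.tv1995 = true := by decide +kernel

theorem ytv1996 : DT.all (wzR cT Cz.tj Cz.tp Cz.tv) Cz.tv1996 = true := by decide +kernel

theorem ytv1997 : DT.all (wzR cT Cz.tj Cz.tp Cz.tv) Cz.tv1997 = true := by decide +kernel

theorem ytv1998 : DT.all (wzR cT Cz.tj Cz.tp Cz.tv) Cz.tv1998 = true := by decide +kernel

theorem ytv1999 : DT.all (wzR cT Cz.tj Cz.tp Cz.tv) Cz.tv1999 = true := by decide +kernel


end Pool.Agent.Lib.MP_5854e1_co.Cz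

namespace Pool.Agent.Lib.MP_5854e1_co.Cz

open Pool.Agent.Lib.MP_5854e1_co PB

theorem ytv2204 : DT.all (wzR cT Cz.tj Cz.tp Cz.tv) Cz.tv2204 = true := by decide +kernel

theorem ytv2205 : DT.all (wzR cT Cz.tj Cz.tp Cz.tv) Cz.tv2205 = true := by decide +kernel

theorem ytv2206 : DT.all (wzR cT Cz.tj Cz.tp Cz.tv) Cz.tv2206 = true := by decide +kernel

theorem ytv2207 : DT.all (wzR cT Cz.tj Cz.tp Cz.tv) Cz.tv2207 = true := by decide +kernel

theorem ytv2208 : DT.all (wzR cT Cz.tj Cz.tp Cz.tv) Cz.tv2208 = true := by decide +kernel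

theorem ytv2209 : DT.all (wzR cT Cz.tj Cz.tp Cz.tv) Cz.tv2209 = true := by decide +kernel

theorem ytv2210 : DT.all (wzR cT Cz.tj Cz.tp Cz.tv) Cz.tv2210 = true := by decide +kernel

theorem ytv2211 : DT.all (wzR cT Cz.tj Cz.tp Cz.tv) Cz.tv2211 = true := by decide +kernel

theorem ytv2212 : DT.all (wzR cT Cz.tj Cz.tp Cz.tv) Cz.tv2212 = true := by decide +kernel

theorem ytv2213 : DT.all (wzR cT Cz.tj Cz.tp Cz.tv) Cz.tv2213 = true := by decide +kernel


end Pool.Agent.Lib.MP_5854e1_co.Cz
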