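import Pool.Agent.Lib.MP_5854e1_co.Cz.P

/-!
# The rows of the rings
-/

set_option autoImplicit false
set_option maxRecDepth 100000
set_option deprecated.oldSectionVars true

namespace Pool.Agent.Lib.MP_5854e1_co.Cz

open Pool.Agent.Lib.MP_5854e1_co PB

theorem ytv2018 : DT.all (wzR cT Cz.tj Cz.tp Cz.tv) Cz.tv2018 = true := by decide +kernel

theorem ytv2019 : DT.all (wzR cT Cz.tj Cz.tp Cz.tv) Cz.tv2019 = true := by decide +kernel

theorem ytv2020 : DT.all (wzR cT Cz.tj Cz.tp Cz.tv) Cz.tv2020 = true := by decide +kernel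

theorem ytv2021 : DT.all (wzR cT Cz.tj Cz.tp Cz.tv) Cz.tv2021 = true := by decide +kernel

theorem ytv2022 : DT.all (wzR cT Cz.tj Cz.tp Cz.tv) Cz.tv2022 = true := by decide +kernel

theorem ytv2023 : DT.all (wzR cT Cz.tj Cz.tp Cz.tv) Cz.tv2023 = true := by decide +kernel

theorem ytv2024 : DT.all (wzR cT Cz.tj Cz.tp Cz.tv) Cz.tv2024 = true := by decide +kernel

theorem ytv2025 : DT.all (wzR cT Cz.tj Cz.tp Cz.tv) Cz.tv2025 = true := by decide +kernel

theorem ytv2026 : DT.all (wzR cT Cz.tj Cz.tp Cz.tv) Cz.tv2026 = true := by decide +kernel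


end Pool.Agent.Lib.MP_5854e1_co.Cz
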