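import Pool.Agent.Lib.MP_5854e1_co.Cz.P

/-!
# The rows of the rings
-/

set_option autoImplicit false
set_option maxRecDepth 100000
set_option deprecated.oldSectionVars true

namespace Pool.Agent.Lib.MP_5854e1_co.Cz

open Pool.Agent.Lib.MP_5854e1_co PB

theorem ytv205 : DT.all (wzR cT Cz.tj Cz.tp Cz.tv) Cz.tv205 = true := by decide +kernel

theorem ytv206 : DT.all (wzR cT Cz.tj Cz.tp Cz.tv) Cz.tv206 = true := by decide +kernel

theorem ytv207 : DT.all (wzR cT Cz.tj Cz.tp Cz.tv) Cz.tv207 = true := by decide +kernel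

theorem ytv208 : DT.all (wzR cT Cz.tj Cz.tp Cz.tv) Cz.tv208 = true := by decide +kernel

theorem ytv209 : DT.all (wzR cT Cz.tj Cz.tp Cz.tv) Cz.tv209 = true := by decide +kernel

theorem ytv210 : DT.all (wzR cT Cz.tj Cz.tp Cz.tv) Cz.tv210 = true := by decide +kernel

theorem ytv211 : DT.all (wzR cT Cz.tj Cz.tp Cz.tv) Cz.tv211 = true := by decide +kernel

theorem ytv212 : DT.all (wzR cT Cz.tj Cz.tp Cz.tv) Cz.tv212 = true := by decide +kernel


end Pool.Agent.Lib.MP_5854e1_co.Cz
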