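import Pool.Agent.Lib.MP_5854e1_co.Cz.P

/-!
# The rows of the rings
-/

set_option autoImplicit false
set_option maxRecDepth 100000
set_option deprecated.oldSectionVars true

namespace Pool.Agent.Lib.MP_5854e1_co.Cz

open Pool.Agent.Lib.MP_5854e1_co PB

theorem ytv2027 : DT.all (wzR cT Cz.tj Cz.tp Cz.tv) Cz.tv2027 = true := by decide +kernel

theorem ytv2028 : DT.all (wzR cT Cz.tj Cz.tp Cz.tv) Cz.tv2028 = true := by decide +kernel

theorem ytv2029 : DT.all (wzR cT Cz.tj Cz.tp Cz.tv) Cz.tv2029 = true := by decide +kernel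

theorem ytv2030 : DT.all (wzR cT Cz.tj Cz.tp Cz.tv) Cz.tv2030 = true := by decide +kernel

theorem ytv2031 : DT.all (wzR cT Cz.tj Cz.tp Cz.tv) Cz.tv2031 = true := by decide +kernel

theorem ytv2032 : DT.all (wzR cT Cz.tj Cz.tp Cz.tv) Cz.tv2032 = true := by decide +kernel

theorem ytv2033 : DT.all (wzR cT Cz.tj Cz.tp Cz.tv) Cz.tv2033 = true := by decide +kernel

theorem ytv2034 : DT.all (wzR cT Cz.tj Cz.tp Cz.tv) Cz.tv2034 = true := by decide +kernel

theorem ytv2035 : DT.all (wzR cT Cz.tj Cz.tp Cz.tv) Cz.tv2035 = true := by decide +kernel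


end Pool.Agent.Lib.MP_5854e1_co.Cz

namespace Pool.Agent.Lib.MP_5854e1_co.Cz

open Pool.Agent.Lib.MP_5854e1_co PB

theorem ytv5007 : DT.all (wzR cT Cz.tj Cz.tp Cz.tv) Cz.tv5007 = true := by decide +kernel

theorem ytv5008 : DT.all (wzR cT Cz.tj Cz.tp Cz.tv) Cz.tv5008 = true := by decide +kernel

theorem ytv5009 : DT.all (wzR cT Cz.tj Cz.tp Cz.tv) Cz.tv5009 = true := by decide +kernel

theorem ytv5010 : DT.all (wzR cT Cz.tj Cz.tp Cz.tv) Cz.tv5010 = true := by decide +kernel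


end Pool.Agent.Lib.MP_5854e1_co.Cz
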