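import Pool.Agent.Lib.MP_5854e1_co.Cz.P

/-!
# The rows of the rings
-/

set_option autoImplicit false
set_option maxRecDepth 100000
set_option deprecated.oldSectionVars true

namespace Pool.Agent.Lib.MP_5854e1_co.Cz

open Pool.Agent.Lib.MP_5854e1_co PB

theorem ytv2036 : DT.all (wzR cT Cz.tj Cz.tp Cz.tv) Cz.tv2036 = true := by decide +kernel

theorem ytv2037 : DT.all (wzR cT Cz.tj Cz.tp Cz.tv) Cz.tv2037 = true := by decide +kernel

theorem ytv2038 : DT.all (wzR cT Cz.tj Cz.tp Cz.tv) Cz.tv2038 = true := by decide +kernel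

theorem ytv2039 : DT.all (wzR cT Cz.tj Cz.tp Cz.tv) Cz.tv2039 = true := by decide +kernel

theorem ytv2040 : DT.all (wzR cT Cz.tj Cz.tp Cz.tv) Cz.tv2040 = true := by decide +kernel

theorem ytv2041 : DT.all (wzR cT Cz.tj Cz.tp Cz.tv) Cz.tv2041 = true := by decide +kernel

theorem ytv2042 : DT.all (wzR cT Cz.tj Cz.tp Cz.tv) Cz.tv2042 = true := by decide +kernel

theorem ytv2043 : DT.all (wzR cT Cz.tj Cz.tp Cz.tv) Cz.tv2043 = true := by decide +kernel


end Pool.Agent.Lib.MP_5854e1_co.Cz
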