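import Pool.Agent.Lib.MP_5854e1_co.Cz.P

/-!
# The rows of the rings
-/

set_option autoImplicit false
set_option maxRecDepth 100000
set_option deprecated.oldSectionVars true

namespace Pool.Agent.Lib.MP_5854e1_co.Cz

open Pool.Agent.Lib.MP_5854e1_co PB

theorem ytv2060 : DT.all (wzR cT Cz.tj Cz.tp Cz.tv) Cz.tv2060 = true := by decide +kernel

theorem ytv2061 : DT.all (wzR cT Cz.tj Cz.tp Cz.tv) Cz.tv2061 = true := by decide +kernel

theorem ytv2062 : DT.all (wzR cT Cz.tj Cz.tp Cz.tv) Cz.tv2062 = true := by decide +kernel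

theorem ytv2063 : DT.all (wzR cT Cz.tj Cz.tp Cz.tv) Cz.tv2063 = true := by decide +kernel

theorem ytv2064 : DT.all (wzR cT Cz.tj Cz.tp Cz.tv) Cz.tv2064 = true := by decide +kernel

theorem ytv2065 : DT.all (wzR cT Cz.tj Cz.tp Cz.tv) Cz.tv2065 = true := by decide +kernel

theorem ytv2066 : DT.all (wzR cT Cz.tj Cz.tp Cz.tv) Cz.tv2066 = true := by decide +kernel

theorem ytv2067 : DT.all (wzR cT Cz.tj Cz.tp Cz.tv) Cz.tv2067 = true := by decide +kernel


end Pool.Agent.Lib.MP_5854e1_co.Cz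

namespace Pool.Agent.Lib.MP_5854e1_co.Cz

open Pool.Agent.Lib.MP_5854e1_co PB

theorem ytv5424 : DT.all (wzR cT Cz.tj Cz.tp Cz.tv) Cz.tv5424 = true := by decide +kernel

theorem ytv5425 : DT.all (wzR cT Cz.tj Cz.tp Cz.tv) Cz.tv5425 = true := by decide +kernel

theorem ytv5426 : DT.all (wzR cT Cz.tj Cz.tp Cz.tv) Cz.tv5426 = true := by decide +kernel

theorem ytv5427 : DT.all (wzR cT Cz.tj Cz.tp Cz.tv) Cz.tv5427 = true := by decide +kernel

theorem ytv5428 : DT.all (wzR cT Cz.tj Cz.tp Cz.tv) Cz.tv5428 = true := by decide +kernel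

theorem ytv5429 : DT.all (wzR cT Cz.tj Cz.tp Cz.tv) Cz.tv5429 = true := by decide +kernel

theorem ytv5430 : DT.all (wzR cT Cz.tj Cz.tp Cz.tv) Cz.tv5430 = true := by decide +kernel

theorem ytv5431 : DT.all (wzR cT Cz.tj Cz.tp Cz.tv) Cz.tv5431 = true := by decide +kernel

theorem ytv5432 : DT.all (wzR cT Cz.tj Cz.tp Cz.tv) Cz.tv5432 = true := by decide +kernel

theorem ytv5433 : DT.all (wzR cT Cz.tj Cz.tp Cz.tv) Cz.tv5433 = true := by decide +kernel


end Pool.Agent.Lib.MP_5854e1_co.Cz
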