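import Pool.Agent.Lib.MP_5854e1_co.Cz.P

/-!
# The rows of the rings
-/

set_option autoImplicit false
set_option maxRecDepth 100000
set_option deprecated.oldSectionVars true

namespace Pool.Agent.Lib.MP_5854e1_co.Cz

open Pool.Agent.Lib.MP_5854e1_co PB

theorem ytv2068 : DT.all (wzR cT Cz.tj Cz.tp Cz.tv) Cz.tv2068 = true := by decide +kernel

theorem ytv2069 : DT.all (wzR cT Cz.tj Cz.tp Cz.tv) Cz.tv2069 = true := by decide +kernel

theorem ytv2070 : DT.all (wzR cT Cz.tj Cz.tp Cz.tv) Cz.tv2070 = true := by decide +kernel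

theorem ytv2071 : DT.all (wzR cT Cz.tj Cz.tp Cz.tv) Cz.tv2071 = true := by decide +kernel

theorem ytv2072 : DT.all (wzR cT Cz.tj Cz.tp Cz.tv) Cz.tv2072 = true := by decide +kernel

theorem ytv2073 : DT.all (wzR cT Cz.tj Cz.tp Cz.tv) Cz.tv2073 = true := by decide +kernel

theorem ytv2074 : DT.all (wzR cT Cz.tj Cz.tp Cz.tv) Cz.tv2074 = true := by decide +kernel

theorem ytv2075 : DT.all (wzR cT Cz.tj Cz.tp Cz.tv) Cz.tv2075 = true := by decide +kernel

theorem ytv2076 : DT.all (wzR cT Cz.tj Cz.tp Cz.tv) Cz.tv2076 = true := by decide +kernel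


end Pool.Agent.Lib.MP_5854e1_co.Cz

namespace Pool.Agent.Lib.MP_5854e1_co.Cz

open Pool.Agent.Lib.MP_5854e1_co PB

theorem ytv5615 : DT.all (wzR cT Cz.tj Cz.tp Cz.tv) Cz.tv5615 = true := by decide +kernel

theorem ytv5616 : DT.all (wzR cT Cz.tj Cz.tp Cz.tv) Cz.tv5616 = true := by decide +kernel

theorem ytv5617 : DT.all (wzR cT Cz.tj Cz.tp Cz.tv) Cz.tv5617 = true := by decide +kernel

theorem ytv5618 : DT.all (wzR cT Cz.tj Cz.tp Cz.tv) Cz.tv5618 = true := by decide +kernel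

theorem ytv5619 : DT.all (wzR cT Cz.tj Cz.tp Cz.tv) Cz.tv5619 = true := by decide +kernel

theorem ytv5620 : DT.all (wzR cT Cz.tj Cz.tp Cz.tv) Cz.tv5620 = true := by decide +kernel

theorem ytv5621 : DT.all (wzR cT Cz.tj Cz.tp Cz.tv) Cz.tv5621 = true := by decide +kernel

theorem ytv5622 : DT.all (wzR cT Cz.tj Cz.tp Cz.tv) Cz.tv5622 = true := by decide +kernel

theorem ytv5623 : DT.all (wzR cT Cz.tj Cz.tp Cz.tv) Cz.tv5623 = true := by decide +kernel

theorem ytv5624 : DT.all (wzR cT Cz.tj Cz.tp Cz.tv) Cz.tv5624 = true := by decide +kernel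

theorem ytv5625 : DT.all (wzR cT Cz.tj Cz.tp Cz.tv) Cz.tv5625 = true := by decide +kernel

theorem ytv5626 : DT.all (wzR cT Cz.tj Cz.tp Cz.tv) Cz.tv5626 = true := by decide +kernel

theorem ytv5627 : DT.all (wzR cT Cz.tj Cz.tp Cz.tv) Cz.tv5627 = true := by decide +kernel

theorem ytv5628 : DT.all (wzR cT Cz.tj Cz.tp Cz.tv) Cz.tv5628 = true := by decide +kernel

theorem ytv5629 : DT.all (wzR cT Cz.tj Cz.tp Cz.tv) Cz.tv5629 = true := by decide +kernel

theorem ytv5630 : DT.all (wzR cT Cz.tj Cz.tp Cz.tv) Cz.tv5630 = true := by decide +kernel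

theorem ytv5631 : DT.all (wzR cT Cz.tj Cz.tp Cz.tv) Cz.tv5631 = true := by decide +kernel

theorem ytv5632 : DT.all (wzR cT Cz.tj Cz.tp Cz.tv) Cz.tv5632 = true := by decide +kernel

theorem ytv5633 : DT.all (wzR cT Cz.tj Cz.tp Cz.tv) Cz.tv5633 = true := by decide +kernel


end Pool.Agent.Lib.MP_5854e1_co.Cz
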