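import Pool.Agent.Lib.MP_5854e1_co.Cz.P

/-!
# The rows of the rings
-/

set_option autoImplicit false
set_option maxRecDepth 100000
set_option deprecated.oldSectionVars true

namespace Pool.Agent.Lib.MP_5854e1_co.Cz

open Pool.Agent.Lib.MP_5854e1_co PB

theorem ytv2085 : DT.all (wzR cT Cz.tj Cz.tp Cz.tv) Cz.tv2085 = true := by decide +kernel

theorem ytv2086 : DT.all (wzR cT Cz.tj Cz.tp Cz.tv) Cz.tv2086 = true := by decide +kernel

theorem ytv2087 : DT.all (wzR cT Cz.tj Cz.tp Cz.tv) Cz.tv2087 = true := by decide +kernel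

theorem ytv2088 : DT.all (wzR cT Cz.tj Cz.tp Cz.tv) Cz.tv2088 = true := by decide +kernel


end Pool.Agent.Lib.MP_5854e1_co.Cz

namespace Pool.Agent.Lib.MP_5854e1_co.Cz

open Pool.Agent.Lib.MP_5854e1_co PB

theorem ytv5163 : DT.all (wzR cT Cz.tj Cz.tp Cz.tv) Cz.tv5163 = true := by decide +kernel

theorem ytv5164 : DT.all (wzR cT Cz.tj Cz.tp Cz.tv) Cz.tv5164 = true := by decide +kernel

theorem ytv5165 : DT.all (wzR cT Cz.tj Cz.tp Cz.tv) Cz.tv5165 = true := by decide +kernel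

theorem ytv5166 : DT.all (wzR cT Cz.tj Cz.tp Cz.tv) Cz.tv5166 = true := by decide +kernel

theorem ytv5167 : DT.all (wzR cT Cz.tj Cz.tp Cz.tv) Cz.tv5167 = true := by decide +kernel

theorem ytv5168 : DT.all (wzR cT Cz.tj Cz.tp Cz.tv) Cz.tv5168 = true := by decide +kernel

theorem ytv5169 : DT.all (wzR cT Cz.tj Cz.tp Cz.tv) Cz.tv5169 = true := by decide +kernel

theorem ytv5170 : DT.all (wzR cT Cz.tj Cz.tp Cz.tv) Cz.tv5170 = true := by decide +kernel

theorem ytv5171 : DT.all (wzR cT Cz.tj Cz.tp Cz.tv) Cz.tv5171 = true := by decide +kernel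

theorem ytv5172 : DT.all (wzR cT Cz.tj Cz.tp Cz.tv) Cz.tv5172 = true := by decide +kernel

theorem ytv5173 : DT.all (wzR cT Cz.tj Cz.tp Cz.tv) Cz.tv5173 = true := by decide +kernel


end Pool.Agent.Lib.MP_5854e1_co.Cz
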