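import Pool.Agent.Lib.MP_5854e1_co.Cz.P

/-!
# The rows of the rings
-/

set_option autoImplicit false
set_option maxRecDepth 100000
set_option deprecated.oldSectionVars true

namespace Pool.Agent.Lib.MP_5854e1_co.Cz

open Pool.Agent.Lib.MP_5854e1_co PB

theorem ytv2089 : DT.all (wzR cT Cz.tj Cz.tp Cz.tv) Cz.tv2089 = true := by decide +kernel

theorem ytv2090 : DT.all (wzR cT Cz.tj Cz.tp Cz.tv) Cz.tv2090 = true := by decide +kernel

theorem ytv2091 : DT.all (wzR cT Cz.tj Cz.tp Cz.tv) Cz.tv2091 = true := by decide +kernel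

theorem ytv2092 : DT.all (wzR cT Cz.tj Cz.tp Cz.tv) Cz.tv2092 = true := by decide +kernel

theorem ytv2093 : DT.all (wzR cT Cz.tj Cz.tp Cz.tv) Cz.tv2093 = true := by decide +kernel


end Pool.Agent.Lib.MP_5854e1_co.Cz

namespace Pool.Agent.Lib.MP_5854e1_co.Cz

open Pool.Agent.Lib.MP_5854e1_co PB

theorem ytv2223 : DT.all (wzR cT Cz.tj Cz.tp Cz.tv) Cz.tv2223 = true := by decide +kernel

theorem ytv2224 : DT.all (wzR cT Cz.tj Cz.tp Cz.tv) Cz.tv2224 = true := by decide +kernel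

theorem ytv2225 : DT.all (wzR cT Cz.tj Cz.tp Cz.tv) Cz.tv2225 = true := by decide +kernel

theorem ytv2226 : DT.all (wzR cT Cz.tj Cz.tp Cz.tv) Cz.tv2226 = true := by decide +kernel

theorem ytv2227 : DT.all (wzR cT Cz.tj Cz.tp Cz.tv) Cz.tv2227 = true := by decide +kernel

theorem ytv2228 : DT.all (wzR cT Cz.tj Cz.tp Cz.tv) Cz.tv2228 = true := by decide +kernel

theorem ytv2229 : DT.all (wzR cT Cz.tj Cz.tp Cz.tv) Cz.tv2229 = true := by decide +kernel

theorem ytv2230 : DT.all (wzR cT Cz.tj Cz.tp Cz.tv) Cz.tv2230 = true := by decide +kernel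


end Pool.Agent.Lib.MP_5854e1_co.Cz
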