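import Pool.Agent.Lib.MP_5854e1_co.Cz.P

/-!
# The rows of the rings
-/

set_option autoImplicit false
set_option maxRecDepth 100000
set_option deprecated.oldSectionVars true

namespace Pool.Agent.Lib.MP_5854e1_co.Cz

open Pool.Agent.Lib.MP_5854e1_co PB

theorem ytv2094 : DT.all (wzR cT Cz.tj Cz.tp Cz.tv) Cz.tv2094 = true := by decide +kernel

theorem ytv2095 : DT.all (wzR cT Cz.tj Cz.tp Cz.tv) Cz.tv2095 = true := by decide +kernel

theorem ytv2096 : DT.all (wzR cT Cz.tj Cz.tp Cz.tv) Cz.tv2096 = true := by decide +kernel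

theorem ytv2097 : DT.all (wzR cT Cz.tj Cz.tp Cz.tv) Cz.tv2097 = true := by decide +kernel

theorem ytv2098 : DT.all (wzR cT Cz.tj Cz.tp Cz.tv) Cz.tv2098 = true := by decide +kernel

theorem ytv2099 : DT.all (wzR cT Cz.tj Cz.tp Cz.tv) Cz.tv2099 = true := by decide +kernel

theorem ytv2100 : DT.all (wzR cT Cz.tj Cz.tp Cz.tv) Cz.tv2100 = true := by decide +kernel

theorem ytv2101 : DT.all (wzR cT Cz.tj Cz.tp Cz.tv) Cz.tv2101 = true := by decide +kernel

theorem ytv2102 : DT.all (wzR cT Cz.tj Cz.tp Cz.tv) Cz.tv2102 = true := by decide +kernel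


end Pool.Agent.Lib.MP_5854e1_co.Cz

namespace Pool.Agent.Lib.MP_5854e1_co.Cz

open Pool.Agent.Lib.MP_5854e1_co PB

theorem ytv5362 : DT.all (wzR cT Cz.tj Cz.tp Cz.tv) Cz.tv5362 = true := by decide +kernel

theorem ytv5363 : DT.all (wzR cT Cz.tj Cz.tp Cz.tv) Cz.tv5363 = true := by decide +kernel

theorem ytv5364 : DT.all (wzR cT Cz.tj Cz.tp Cz.tv) Cz.tv5364 = true := by decide +kernel

theorem ytv5365 : DT.all (wzR cT Cz.tj Cz.tp Cz.tv) Cz.tv5365 = true := by decide +kernel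

theorem ytv5366 : DT.all (wzR cT Cz.tj Cz.tp Cz.tv) Cz.tv5366 = true := by decide +kernel

theorem ytv5367 : DT.all (wzR cT Cz.tj Cz.tp Cz.tv) Cz.tv5367 = true := by decide +kernel

theorem ytv5368 : DT.all (wzR cT Cz.tj Cz.tp Cz.tv) Cz.tv5368 = true := by decide +kernel

theorem ytv5369 : DT.all (wzR cT Cz.tj Cz.tp Cz.tv) Cz.tv5369 = true := by decide +kernel

theorem ytv5370 : DT.all (wzR cT Cz.tj Cz.tp Cz.tv) Cz.tv5370 = true := by decide +kernel


end Pool.Agent.Lib.MP_5854e1_co.Cz
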