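import Pool.Agent.Lib.MP_5854e1_co.Cz.P

/-!
# The rows of the rings
-/

set_option autoImplicit false
set_option maxRecDepth 100000
set_option deprecated.oldSectionVars true

namespace Pool.Agent.Lib.MP_5854e1_co.Cz

open Pool.Agent.Lib.MP_5854e1_co PB

theorem ytv2103 : DT.all (wzR cT Cz.tj Cz.tp Cz.tv) Cz.tv2103 = true := by decide +kernel

theorem ytv2104 : DT.all (wzR cT Cz.tj Cz.tp Cz.tv) Cz.tv2104 = true := by decide +kernel

theorem ytv2105 : DT.all (wzR cT Cz.tj Cz.tp Cz.tv) Cz.tv2105 = true := by decide +kernel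

theorem ytv2106 : DT.all (wzR cT Cz.tj Cz.tp Cz.tv) Cz.tv2106 = true := by decide +kernel

theorem ytv2107 : DT.all (wzR cT Cz.tj Cz.tp Cz.tv) Cz.tv2107 = true := by decide +kernel

theorem ytv2108 : DT.all (wzR cT Cz.tj Cz.tp Cz.tv) Cz.tv2108 = true := by decide +kernel

theorem ytv2109 : DT.all (wzR cT Cz.tj Cz.tp Cz.tv) Cz.tv2109 = true := by decide +kernel

theorem ytv2110 : DT.all (wzR cT Cz.tj Cz.tp Cz.tv) Cz.tv2110 = true := by decide +kernel

theorem ytv2111 : DT.all (wzR cT Cz.tj Cz.tp Cz.tv) Cz.tv2111 = true := by decide +kernel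


end Pool.Agent.Lib.MP_5854e1_co.Cz
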