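import Pool.Agent.Lib.MP_5854e1_co.Cz.P

/-!
# The rows of the rings
-/

set_option autoImplicit false
set_option maxRecDepth 100000
set_option deprecated.oldSectionVars true

namespace Pool.Agent.Lib.MP_5854e1_co.Cz

open Pool.Agent.Lib.MP_5854e1_co PB

theorem ytv213 : DT.all (wzR cT Cz.tj Cz.tp Cz.tv) Cz.tv213 = true := by decide +kernel

theorem ytv214 : DT.all (wzR cT Cz.tj Cz.tp Cz.tv) Cz.tv214 = true := by decide +kernel

theorem ytv215 : DT.all (wzR cT Cz.tj Cz.tp Cz.tv) Cz.tv215 = true := by decide +kernel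

theorem ytv216 : DT.all (wzR cT Cz.tj Cz.tp Cz.tv) Cz.tv216 = true := by decide +kernel

theorem ytv217 : DT.all (wzR cT Cz.tj Cz.tp Cz.tv) Cz.tv217 = true := by decide +kernel

theorem ytv218 : DT.all (wzR cT Cz.tj Cz.tp Cz.tv) Cz.tv218 = true := by decide +kernel

theorem ytv219 : DT.all (wzR cT Cz.tj Cz.tp Cz.tv) Cz.tv219 = true := by decide +kernel

theorem ytv220 : DT.all (wzR cT Cz.tj Cz.tp Cz.tv) Cz.tv220 = true := by decide +kernel


end Pool.Agent.Lib.MP_5854e1_co.Cz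

namespace Pool.Agent.Lib.MP_5854e1_co.Cz

open Pool.Agent.Lib.MP_5854e1_co PB

theorem ytv1448 : DT.all (wzR cT Cz.tj Cz.tp Cz.tv) Cz.tv1448 = true := by decide +kernel

theorem ytv1449 : DT.all (wzR cT Cz.tj Cz.tp Cz.tv) Cz.tv1449 = true := by decide +kernel

theorem ytv1450 : DT.all (wzR cT Cz.tj Cz.tp Cz.tv) Cz.tv1450 = true := by decide +kernel

theorem ytv1451 : DT.all (wzR cT Cz.tj Cz.tp Cz.tv) Cz.tv1451 = true := by decide +kernel

theorem ytv1452 : DT.all (wzR cT Cz.tj Cz.tp Cz.tv) Cz.tv1452 = true := by decide +kernel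

theorem ytv1453 : DT.all (wzR cT Cz.tj Cz.tp Cz.tv) Cz.tv1453 = true := by decide +kernel

theorem ytv1454 : DT.all (wzR cT Cz.tj Cz.tp Cz.tv) Cz.tv1454 = true := by decide +kernel

theorem ytv1455 : DT.all (wzR cT Cz.tj Cz.tp Cz.tv) Cz.tv1455 = true := by decide +kernel


end Pool.Agent.Lib.MP_5854e1_co.Cz
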