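import Pool.Agent.Lib.MP_5854e1_co.Cz.P

/-!
# The rows of the rings
-/

set_option autoImplicit false
set_option maxRecDepth 100000
set_option deprecated.oldSectionVars true

namespace Pool.Agent.Lib.MP_5854e1_co.Cz

open Pool.Agent.Lib.MP_5854e1_co PB

theorem ytv2112 : DT.all (wzR cT Cz.tj Cz.tp Cz.tv) Cz.tv2112 = true := by decide +kernel

theorem ytv2113 : DT.all (wzR cT Cz.tj Cz.tp Cz.tv) Cz.tv2113 = true := by decide +kernel

theorem ytv2114 : DT.all (wzR cT Cz.tj Cz.tp Cz.tv) Cz.tv2114 = true := by decide +kernel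

theorem ytv2115 : DT.all (wzR cT Cz.tj Cz.tp Cz.tv) Cz.tv2115 = true := by decide +kernel

theorem ytv2116 : DT.all (wzR cT Cz.tj Cz.tp Cz.tv) Cz.tv2116 = true := by decide +kernel

theorem ytv2117 : DT.all (wzR cT Cz.tj Cz.tp Cz.tv) Cz.tv2117 = true := by decide +kernel

theorem ytv2118 : DT.all (wzR cT Cz.tj Cz.tp Cz.tv) Cz.tv2118 = true := by decide +kernel

theorem ytv2119 : DT.all (wzR cT Cz.tj Cz.tp Cz.tv) Cz.tv2119 = true := by decide +kernel

theorem ytv2120 : DT.all (wzR cT Cz.tj Cz.tp Cz.tv) Cz.tv2120 = true := by decide +kernel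


end Pool.Agent.Lib.MP_5854e1_co.Cz

namespace Pool.Agent.Lib.MP_5854e1_co.Cz

open Pool.Agent.Lib.MP_5854e1_co PB

theorem ytv5288 : DT.all (wzR cT Cz.tj Cz.tp Cz.tv) Cz.tv5288 = true := by decide +kernel

theorem ytv5289 : DT.all (wzR cT Cz.tj Cz.tp Cz.tv) Cz.tv5289 = true := by decide +kernel

theorem ytv5290 : DT.all (wzR cT Cz.tj Cz.tp Cz.tv) Cz.tv5290 = true := by decide +kernel

theorem ytv5291 : DT.all (wzR cT Cz.tj Cz.tp Cz.tv) Cz.tv5291 = true := by decide +kernel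

theorem ytv5292 : DT.all (wzR cT Cz.tj Cz.tp Cz.tv) Cz.tv5292 = true := by decide +kernel

theorem ytv5293 : DT.all (wzR cT Cz.tj Cz.tp Cz.tv) Cz.tv5293 = true := by decide +kernel

theorem ytv5294 : DT.all (wzR cT Cz.tj Cz.tp Cz.tv) Cz.tv5294 = true := by decide +kernel

theorem ytv5295 : DT.all (wzR cT Cz.tj Cz.tp Cz.tv) Cz.tv5295 = true := by decide +kernel

theorem ytv5296 : DT.all (wzR cT Cz.tj Cz.tp Cz.tv) Cz.tv5296 = true := by decide +kernel


end Pool.Agent.Lib.MP_5854e1_co.Cz
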