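import Pool.Agent.Lib.MP_5854e1_co.Cz.P

/-!
# The rows of the rings
-/

set_option autoImplicit false
set_option maxRecDepth 100000
set_option deprecated.oldSectionVars true

namespace Pool.Agent.Lib.MP_5854e1_co.Cz

open Pool.Agent.Lib.MP_5854e1_co PB

theorem ytv2170 : DT.all (wzR cT Cz.tj Cz.tp Cz.tv) Cz.tv2170 = true := by decide +kernel

theorem ytv2171 : DT.all (wzR cT Cz.tj Cz.tp Cz.tv) Cz.tv2171 = true := by decide +kernel

theorem ytv2172 : DT.all (wzR cT Cz.tj Cz.tp Cz.tv) Cz.tv2172 = true := by decide +kernel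

theorem ytv2173 : DT.all (wzR cT Cz.tj Cz.tp Cz.tv) Cz.tv2173 = true := by decide +kernel

theorem ytv2174 : DT.all (wzR cT Cz.tj Cz.tp Cz.tv) Cz.tv2174 = true := by decide +kernel

theorem ytv2175 : DT.all (wzR cT Cz.tj Cz.tp Cz.tv) Cz.tv2175 = true := by decide +kernel

theorem ytv2176 : DT.all (wzR cT Cz.tj Cz.tp Cz.tv) Cz.tv2176 = true := by decide +kernel

theorem ytv2177 : DT.all (wzR cT Cz.tj Cz.tp Cz.tv) Cz.tv2177 = true := by decide +kernel


end Pool.Agent.Lib.MP_5854e1_co.Cz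

namespace Pool.Agent.Lib.MP_5854e1_co.Cz

open Pool.Agent.Lib.MP_5854e1_co PB

theorem ytv5179 : DT.all (wzR cT Cz.tj Cz.tp Cz.tv) Cz.tv5179 = true := by decide +kernel

theorem ytv5180 : DT.all (wzR cT Cz.tj Cz.tp Cz.tv) Cz.tv5180 = true := by decide +kernel

theorem ytv5181 : DT.all (wzR cT Cz.tj Cz.tp Cz.tv) Cz.tv5181 = true := by decide +kernel

theorem ytv5182 : DT.all (wzR cT Cz.tj Cz.tp Cz.tv) Cz.tv5182 = true := by decide +kernel

theorem ytv5183 : DT.all (wzR cT Cz.tj Cz.tp Cz.tv) Cz.tv5183 = true := by decide +kernel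


end Pool.Agent.Lib.MP_5854e1_co.Cz
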