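import Pool.Agent.Lib.MP_5854e1_co.Cz.P

/-!
# The rows of the rings
-/

set_option autoImplicit false
set_option maxRecDepth 100000
set_option deprecated.oldSectionVars true

namespace Pool.Agent.Lib.MP_5854e1_co.Cz

open Pool.Agent.Lib.MP_5854e1_co PB

theorem ytv2178 : DT.all (wzR cT Cz.tj Cz.tp Cz.tv) Cz.tv2178 = true := by decide +kernel

theorem ytv2179 : DT.all (wzR cT Cz.tj Cz.tp Cz.tv) Cz.tv2179 = true := by decide +kernel

theorem ytv2180 : DT.all (wzR cT Cz.tj Cz.tp Cz.tv) Cz.tv2180 = true := by decide +kernel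

theorem ytv2181 : DT.all (wzR cT Cz.tj Cz.tp Cz.tv) Cz.tv2181 = true := by decide +kernel

theorem ytv2182 : DT.all (wzR cT Cz.tj Cz.tp Cz.tv) Cz.tv2182 = true := by decide +kernel

theorem ytv2183 : DT.all (wzR cT Cz.tj Cz.tp Cz.tv) Cz.tv2183 = true := by decide +kernel

theorem ytv2184 : DT.all (wzR cT Cz.tj Cz.tp Cz.tv) Cz.tv2184 = true := by decide +kernel

theorem ytv2185 : DT.all (wzR cT Cz.tj Cz.tp Cz.tv) Cz.tv2185 = true := by decide +kernel

theorem ytv2186 : DT.all (wzR cT Cz.tj Cz.tp Cz.tv) Cz.tv2186 = true := by decide +kernel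


end Pool.Agent.Lib.MP_5854e1_co.Cz

namespace Pool.Agent.Lib.MP_5854e1_co.Cz

open Pool.Agent.Lib.MP_5854e1_co PB

theorem ytv4234 : DT.all (wzR cT Cz.tj Cz.tp Cz.tv) Cz.tv4234 = true := by decide +kernel

theorem ytv4235 : DT.all (wzR cT Cz.tj Cz.tp Cz.tv) Cz.tv4235 = true := by decide +kernel

theorem ytv4236 : DT.all (wzR cT Cz.tj Cz.tp Cz.tv) Cz.tv4236 = true := by decide +kernel

theorem ytv4237 : DT.all (wzR cT Cz.tj Cz.tp Cz.tv) Cz.tv4237 = true := by decide +kernel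

theorem ytv4238 : DT.all (wzR cT Cz.tj Cz.tp Cz.tv) Cz.tv4238 = true := by decide +kernel

theorem ytv4239 : DT.all (wzR cT Cz.tj Cz.tp Cz.tv) Cz.tv4239 = true := by decide +kernel

theorem ytv4240 : DT.all (wzR cT Cz.tj Cz.tp Cz.tv) Cz.tv4240 = true := by decide +kernel

theorem ytv4241 : DT.all (wzR cT Cz.tj Cz.tp Cz.tv) Cz.tv4241 = true := by decide +kernel


end Pool.Agent.Lib.MP_5854e1_co.Cz
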