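import Pool.Agent.Lib.MP_5854e1_co.Cz.P

/-!
# The rows of the rings
-/

set_option autoImplicit false
set_option maxRecDepth 100000
set_option deprecated.oldSectionVars true

namespace Pool.Agent.Lib.MP_5854e1_co.Cz

open Pool.Agent.Lib.MP_5854e1_co PB

theorem ytv2187 : DT.all (wzR cT Cz.tj Cz.tp Cz.tv) Cz.tv2187 = true := by decide +kernel

theorem ytv2188 : DT.all (wzR cT Cz.tj Cz.tp Cz.tv) Cz.tv2188 = true := by decide +kernel

theorem ytv2189 : DT.all (wzR cT Cz.tj Cz.tp Cz.tv) Cz.tv2189 = true := by decide +kernel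

theorem ytv2190 : DT.all (wzR cT Cz.tj Cz.tp Cz.tv) Cz.tv2190 = true := by decide +kernel

theorem ytv2191 : DT.all (wzR cT Cz.tj Cz.tp Cz.tv) Cz.tv2191 = true := by decide +kernel

theorem ytv2192 : DT.all (wzR cT Cz.tj Cz.tp Cz.tv) Cz.tv2192 = true := by decide +kernel

theorem ytv2193 : DT.all (wzR cT Cz.tj Cz.tp Cz.tv) Cz.tv2193 = true := by decide +kernel


end Pool.Agent.Lib.MP_5854e1_co.Cz

namespace Pool.Agent.Lib.MP_5854e1_co.Cz

open Pool.Agent.Lib.MP_5854e1_co PB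

theorem ytv3044 : DT.all (wzR cT Cz.tj Cz.tp Cz.tv) Cz.tv3044 = true := by decide +kernel

theorem ytv3045 : DT.all (wzR cT Cz.tj Cz.tp Cz.tv) Cz.tv3045 = true := by decide +kernel

theorem ytv3046 : DT.all (wzR cT Cz.tj Cz.tp Cz.tv) Cz.tv3046 = true := by decide +kernel

theorem ytv3047 : DT.all (wzR cT Cz.tj Cz.tp Cz.tv) Cz.tv3047 = true := by decide +kernel


end Pool.Agent.Lib.MP_5854e1_co.Cz
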