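import Pool.Agent.Lib.MP_5854e1_co.Cz.P

/-!
# The rows of the rings
-/

set_option autoImplicit false
set_option maxRecDepth 100000
set_option deprecated.oldSectionVars true

namespace Pool.Agent.Lib.MP_5854e1_co.Cz

open Pool.Agent.Lib.MP_5854e1_co PB

theorem ytv221 : DT.all (wzR cT Cz.tj Cz.tp Cz.tv) Cz.tv221 = true := by decide +kernel

theorem ytv222 : DT.all (wzR cT Cz.tj Cz.tp Cz.tv) Cz.tv222 = true := by decide +kernel

theorem ytv223 : DT.all (wzR cT Cz.tj Cz.tp Cz.tv) Cz.tv223 = true := by decide +kernel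

theorem ytv224 : DT.all (wzR cT Cz.tj Cz.tp Cz.tv) Cz.tv224 = true := by decide +kernel

theorem ytv225 : DT.all (wzR cT Cz.tj Cz.tp Cz.tv) Cz.tv225 = true := by decide +kernel

theorem ytv226 : DT.all (wzR cT Cz.tj Cz.tp Cz.tv) Cz.tv226 = true := by decide +kernel

theorem ytv227 : DT.all (wzR cT Cz.tj Cz.tp Cz.tv) Cz.tv227 = true := by decide +kernel


end Pool.Agent.Lib.MP_5854e1_co.Cz

namespace Pool.Agent.Lib.MP_5854e1_co.Cz

open Pool.Agent.Lib.MP_5854e1_co PB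

theorem ytv2316 : DT.all (wzR cT Cz.tj Cz.tp Cz.tv) Cz.tv2316 = true := by decide +kernel

theorem ytv2317 : DT.all (wzR cT Cz.tj Cz.tp Cz.tv) Cz.tv2317 = true := by decide +kernel

theorem ytv2318 : DT.all (wzR cT Cz.tj Cz.tp Cz.tv) Cz.tv2318 = true := by decide +kernel

theorem ytv2319 : DT.all (wzR cT Cz.tj Cz.tp Cz.tv) Cz.tv2319 = true := by decide +kernel

theorem ytv2320 : DT.all (wzR cT Cz.tj Cz.tp Cz.tv) Cz.tv2320 = true := by decide +kernel

theorem ytv2321 : DT.all (wzR cT Cz.tj Cz.tp Cz.tv) Cz.tv2321 = true := by decide +kernel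

theorem ytv2322 : DT.all (wzR cT Cz.tj Cz.tp Cz.tv) Cz.tv2322 = true := by decide +kernel

theorem ytv2323 : DT.all (wzR cT Cz.tj Cz.tp Cz.tv) Cz.tv2323 = true := by decide +kernel

theorem ytv2324 : DT.all (wzR cT Cz.tj Cz.tp Cz.tv) Cz.tv2324 = true := by decide +kernel


end Pool.Agent.Lib.MP_5854e1_co.Cz
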