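import Pool.Agent.Lib.MP_5854e1_co.Cz.P

/-!
# The rows of the rings
-/

set_option autoImplicit false
set_option maxRecDepth 100000
set_option deprecated.oldSectionVars true

namespace Pool.Agent.Lib.MP_5854e1_co.Cz

open Pool.Agent.Lib.MP_5854e1_co PB

theorem ytv2214 : DT.all (wzR cT Cz.tj Cz.tp Cz.tv) Cz.tv2214 = true := by decide +kernel

theorem ytv2215 : DT.all (wzR cT Cz.tj Cz.tp Cz.tv) Cz.tv2215 = true := by decide +kernel

theorem ytv2216 : DT.all (wzR cT Cz.tj Cz.tp Cz.tv) Cz.tv2216 = true := by decide +kernel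

theorem ytv2217 : DT.all (wzR cT Cz.tj Cz.tp Cz.tv) Cz.tv2217 = true := by decide +kernel

theorem ytv2218 : DT.all (wzR cT Cz.tj Cz.tp Cz.tv) Cz.tv2218 = true := by decide +kernel

theorem ytv2219 : DT.all (wzR cT Cz.tj Cz.tp Cz.tv) Cz.tv2219 = true := by decide +kernel

theorem ytv2220 : DT.all (wzR cT Cz.tj Cz.tp Cz.tv) Cz.tv2220 = true := by decide +kernel

theorem ytv2221 : DT.all (wzR cT Cz.tj Cz.tp Cz.tv) Cz.tv2221 = true := by decide +kernel

theorem ytv2222 : DT.all (wzR cT Cz.tj Cz.tp Cz.tv) Cz.tv2222 = true := by decide +kernel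


end Pool.Agent.Lib.MP_5854e1_co.Cz

namespace Pool.Agent.Lib.MP_5854e1_co.Cz

open Pool.Agent.Lib.MP_5854e1_co PB

theorem ytv3135 : DT.all (wzR cT Cz.tj Cz.tp Cz.tv) Cz.tv3135 = true := by decide +kernel

theorem ytv3136 : DT.all (wzR cT Cz.tj Cz.tp Cz.tv) Cz.tv3136 = true := by decide +kernel

theorem ytv3137 : DT.all (wzR cT Cz.tj Cz.tp Cz.tv) Cz.tv3137 = true := by decide +kernel

theorem ytv3138 : DT.all (wzR cT Cz.tj Cz.tp Cz.tv) Cz.tv3138 = true := by decide +kernel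

theorem ytv3139 : DT.all (wzR cT Cz.tj Cz.tp Cz.tv) Cz.tv3139 = true := by decide +kernel

theorem ytv3140 : DT.all (wzR cT Cz.tj Cz.tp Cz.tv) Cz.tv3140 = true := by decide +kernel

theorem ytv3141 : DT.all (wzR cT Cz.tj Cz.tp Cz.tv) Cz.tv3141 = true := by decide +kernel

theorem ytv3142 : DT.all (wzR cT Cz.tj Cz.tp Cz.tv) Cz.tv3142 = true := by decide +kernel


end Pool.Agent.Lib.MP_5854e1_co.Cz
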