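import Pool.Agent.Lib.MP_5854e1_co.Cz.P

/-!
# The rows of the rings
-/

set_option autoImplicit false
set_option maxRecDepth 100000
set_option deprecated.oldSectionVars true

namespace Pool.Agent.Lib.MP_5854e1_co.Cz

open Pool.Agent.Lib.MP_5854e1_co PB

theorem ytv2231 : DT.all (wzR cT Cz.tj Cz.tp Cz.tv) Cz.tv2231 = true := by decide +kernel

theorem ytv2232 : DT.all (wzR cT Cz.tj Cz.tp Cz.tv) Cz.tv2232 = true := by decide +kernel

theorem ytv2233 : DT.all (wzR cT Cz.tj Cz.tp Cz.tv) Cz.tv2233 = true := by decide +kernel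

theorem ytv2234 : DT.all (wzR cT Cz.tj Cz.tp Cz.tv) Cz.tv2234 = true := by decide +kernel

theorem ytv2235 : DT.all (wzR cT Cz.tj Cz.tp Cz.tv) Cz.tv2235 = true := by decide +kernel

theorem ytv2236 : DT.all (wzR cT Cz.tj Cz.tp Cz.tv) Cz.tv2236 = true := by decide +kernel


end Pool.Agent.Lib.MP_5854e1_co.Cz

namespace Pool.Agent.Lib.MP_5854e1_co.Cz

open Pool.Agent.Lib.MP_5854e1_co PB

theorem ytv2837 : DT.all (wzR cT Cz.tj Cz.tp Cz.tv) Cz.tv2837 = true := by decide +kernel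

theorem ytv2838 : DT.all (wzR cT Cz.tj Cz.tp Cz.tv) Cz.tv2838 = true := by decide +kernel

theorem ytv2839 : DT.all (wzR cT Cz.tj Cz.tp Cz.tv) Cz.tv2839 = true := by decide +kernel

theorem ytv2840 : DT.all (wzR cT Cz.tj Cz.tp Cz.tv) Cz.tv2840 = true := by decide +kernel

theorem ytv2841 : DT.all (wzR cT Cz.tj Cz.tp Cz.tv) Cz.tv2841 = true := by decide +kernel

theorem ytv2842 : DT.all (wzR cT Cz.tj Cz.tp Cz.tv) Cz.tv2842 = true := by decide +kernel

theorem ytv2843 : DT.all (wzR cT Cz.tj Cz.tp Cz.tv) Cz.tv2843 = true := by decide +kernel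

theorem ytv2844 : DT.all (wzR cT Cz.tj Cz.tp Cz.tv) Cz.tv2844 = true := by decide +kernel

theorem ytv2845 : DT.all (wzR cT Cz.tj Cz.tp Cz.tv) Cz.tv2845 = true := by decide +kernel


end Pool.Agent.Lib.MP_5854e1_co.Cz
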