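import Pool.Agent.Lib.MP_5854e1_co.Cz.P

/-!
# The rows of the rings
-/

set_option autoImplicit false
set_option maxRecDepth 100000
set_option deprecated.oldSectionVars true

namespace Pool.Agent.Lib.MP_5854e1_co.Cz

open Pool.Agent.Lib.MP_5854e1_co PB

theorem ytv2237 : DT.all (wzR cT Cz.tj Cz.tp Cz.tv) Cz.tv2237 = true := by decide +kernel

theorem ytv2238 : DT.all (wzR cT Cz.tj Cz.tp Cz.tv) Cz.tv2238 = true := by decide +kernel

theorem ytv2239 : DT.all (wzR cT Cz.tj Cz.tp Cz.tv) Cz.tv2239 = true := by decide +kernel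

theorem ytv2240 : DT.all (wzR cT Cz.tj Cz.tp Cz.tv) Cz.tv2240 = true := by decide +kernel

theorem ytv2241 : DT.all (wzR cT Cz.tj Cz.tp Cz.tv) Cz.tv2241 = true := by decide +kernel

theorem ytv2242 : DT.all (wzR cT Cz.tj Cz.tp Cz.tv) Cz.tv2242 = true := by decide +kernel

theorem ytv2243 : DT.all (wzR cT Cz.tj Cz.tp Cz.tv) Cz.tv2243 = true := by decide +kernel

theorem ytv2244 : DT.all (wzR cT Cz.tj Cz.tp Cz.tv) Cz.tv2244 = true := by decide +kernel

theorem ytv2245 : DT.all (wzR cT Cz.tj Cz.tp Cz.tv) Cz.tv2245 = true := by decide +kernel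


end Pool.Agent.Lib.MP_5854e1_co.Cz

namespace Pool.Agent.Lib.MP_5854e1_co.Cz

open Pool.Agent.Lib.MP_5854e1_co PB

theorem ytv4755 : DT.all (wzR cT Cz.tj Cz.tp Cz.tv) Cz.tv4755 = true := by decide +kernel

theorem ytv4756 : DT.all (wzR cT Cz.tj Cz.tp Cz.tv) Cz.tv4756 = true := by decide +kernel

theorem ytv4757 : DT.all (wzR cT Cz.tj Cz.tp Cz.tv) Cz.tv4757 = true := by decide +kernel

theorem ytv4758 : DT.all (wzR cT Cz.tj Cz.tp Cz.tv) Cz.tv4758 = true := by decide +kernel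

theorem ytv4759 : DT.all (wzR cT Cz.tj Cz.tp Cz.tv) Cz.tv4759 = true := by decide +kernel

theorem ytv4760 : DT.all (wzR cT Cz.tj Cz.tp Cz.tv) Cz.tv4760 = true := by decide +kernel

theorem ytv4761 : DT.all (wzR cT Cz.tj Cz.tp Cz.tv) Cz.tv4761 = true := by decide +kernel


end Pool.Agent.Lib.MP_5854e1_co.Cz
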