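import Pool.Agent.Lib.MP_5854e1_co.Cz.P

/-!
# The rows of the rings
-/

set_option autoImplicit false
set_option maxRecDepth 100000
set_option deprecated.oldSectionVars true

namespace Pool.Agent.Lib.MP_5854e1_co.Cz

open Pool.Agent.Lib.MP_5854e1_co PB

theorem ytv2246 : DT.all (wzR cT Cz.tj Cz.tp Cz.tv) Cz.tv2246 = true := by decide +kernel

theorem ytv2247 : DT.all (wzR cT Cz.tj Cz.tp Cz.tv) Cz.tv2247 = true := by decide +kernel

theorem ytv2248 : DT.all (wzR cT Cz.tj Cz.tp Cz.tv) Cz.tv2248 = true := by decide +kernel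

theorem ytv2249 : DT.all (wzR cT Cz.tj Cz.tp Cz.tv) Cz.tv2249 = true := by decide +kernel

theorem ytv2250 : DT.all (wzR cT Cz.tj Cz.tp Cz.tv) Cz.tv2250 = true := by decide +kernel

theorem ytv2251 : DT.all (wzR cT Cz.tj Cz.tp Cz.tv) Cz.tv2251 = true := by decide +kernel

theorem ytv2252 : DT.all (wzR cT Cz.tj Cz.tp Cz.tv) Cz.tv2252 = true := by decide +kernel

theorem ytv2253 : DT.all (wzR cT Cz.tj Cz.tp Cz.tv) Cz.tv2253 = true := by decide +kernel

theorem ytv2254 : DT.all (wzR cT Cz.tj Cz.tp Cz.tv) Cz.tv2254 = true := by decide +kernel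


end Pool.Agent.Lib.MP_5854e1_co.Cz
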