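import Pool.Agent.Lib.MP_5854e1_co.Cz.P

/-!
# The rows of the rings
-/

set_option autoImplicit false
set_option maxRecDepth 100000
set_option deprecated.oldSectionVars true

namespace Pool.Agent.Lib.MP_5854e1_co.Cz

open Pool.Agent.Lib.MP_5854e1_co PB

theorem ytv2272 : DT.all (wzR cT Cz.tj Cz.tp Cz.tv) Cz.tv2272 = true := by decide +kernel

theorem ytv2273 : DT.all (wzR cT Cz.tj Cz.tp Cz.tv) Cz.tv2273 = true := by decide +kernel

theorem ytv2274 : DT.all (wzR cT Cz.tj Cz.tp Cz.tv) Cz.tv2274 = true := by decide +kernel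

theorem ytv2275 : DT.all (wzR cT Cz.tj Cz.tp Cz.tv) Cz.tv2275 = true := by decide +kernel

theorem ytv2276 : DT.all (wzR cT Cz.tj Cz.tp Cz.tv) Cz.tv2276 = true := by decide +kernel

theorem ytv2277 : DT.all (wzR cT Cz.tj Cz.tp Cz.tv) Cz.tv2277 = true := by decide +kernel

theorem ytv2278 : DT.all (wzR cT Cz.tj Cz.tp Cz.tv) Cz.tv2278 = true := by decide +kernel

theorem ytv2279 : DT.all (wzR cT Cz.tj Cz.tp Cz.tv) Cz.tv2279 = true := by decide +kernel

theorem ytv2280 : DT.all (wzR cT Cz.tj Cz.tp Cz.tv) Cz.tv2280 = true := by decide +kernel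


end Pool.Agent.Lib.MP_5854e1_co.Cz
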