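import Pool.Agent.Lib.MP_5854e1_co.Cz.P

/-!
# The rows of the rings
-/

set_option autoImplicit false
set_option maxRecDepth 100000
set_option deprecated.oldSectionVars true

namespace Pool.Agent.Lib.MP_5854e1_co.Cz

open Pool.Agent.Lib.MP_5854e1_co PB

theorem ytv228 : DT.all (wzR cT Cz.tj Cz.tp Cz.tv) Cz.tv228 = true := by decide +kernel

theorem ytv229 : DT.all (wzR cT Cz.tj Cz.tp Cz.tv) Cz.tv229 = true := by decide +kernel

theorem ytv230 : DT.all (wzR cT Cz.tj Cz.tp Cz.tv) Cz.tv230 = true := by decide +kernel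

theorem ytv231 : DT.all (wzR cT Cz.tj Cz.tp Cz.tv) Cz.tv231 = true := by decide +kernel

theorem ytv232 : DT.all (wzR cT Cz.tj Cz.tp Cz.tv) Cz.tv232 = true := by decide +kernel

theorem ytv233 : DT.all (wzR cT Cz.tj Cz.tp Cz.tv) Cz.tv233 = true := by decide +kernel

theorem ytv234 : DT.all (wzR cT Cz.tj Cz.tp Cz.tv) Cz.tv234 = true := by decide +kernel

theorem ytv235 : DT.all (wzR cT Cz.tj Cz.tp Cz.tv) Cz.tv235 = true := by decide +kernel


end Pool.Agent.Lib.MP_5854e1_co.Cz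

namespace Pool.Agent.Lib.MP_5854e1_co.Cz

open Pool.Agent.Lib.MP_5854e1_co PB

theorem ytv2685 : DT.all (wzR cT Cz.tj Cz.tp Cz.tv) Cz.tv2685 = true := by decide +kernel

theorem ytv2686 : DT.all (wzR cT Cz.tj Cz.tp Cz.tv) Cz.tv2686 = true := by decide +kernel

theorem ytv2687 : DT.all (wzR cT Cz.tj Cz.tp Cz.tv) Cz.tv2687 = true := by decide +kernel

theorem ytv2688 : DT.all (wzR cT Cz.tj Cz.tp Cz.tv) Cz.tv2688 = true := by decide +kernel

theorem ytv2689 : DT.all (wzR cT Cz.tj Cz.tp Cz.tv) Cz.tv2689 = true := by decide +kernel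

theorem ytv2690 : DT.all (wzR cT Cz.tj Cz.tp Cz.tv) Cz.tv2690 = true := by decide +kernel

theorem ytv2691 : DT.all (wzR cT Cz.tj Cz.tp Cz.tv) Cz.tv2691 = true := by decide +kernel

theorem ytv2692 : DT.all (wzR cT Cz.tj Cz.tp Cz.tv) Cz.tv2692 = true := by decide +kernel


end Pool.Agent.Lib.MP_5854e1_co.Cz
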