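import Pool.Agent.Lib.MP_5854e1_co.Cz.P

/-!
# The rows of the rings
-/

set_option autoImplicit false
set_option maxRecDepth 100000
set_option deprecated.oldSectionVars true

namespace Pool.Agent.Lib.MP_5854e1_co.Cz

open Pool.Agent.Lib.MP_5854e1_co PB

theorem ytv2281 : DT.all (wzR cT Cz.tj Cz.tp Cz.tv) Cz.tv2281 = true := by decide +kernel

theorem ytv2282 : DT.all (wzR cT Cz.tj Cz.tp Cz.tv) Cz.tv2282 = true := by decide +kernel

theorem ytv2283 : DT.all (wzR cT Cz.tj Cz.tp Cz.tv) Cz.tv2283 = true := by decide +kernel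

theorem ytv2284 : DT.all (wzR cT Cz.tj Cz.tp Cz.tv) Cz.tv2284 = true := by decide +kernel

theorem ytv2285 : DT.all (wzR cT Cz.tj Cz.tp Cz.tv) Cz.tv2285 = true := by decide +kernel

theorem ytv2286 : DT.all (wzR cT Cz.tj Cz.tp Cz.tv) Cz.tv2286 = true := by decide +kernel

theorem ytv2287 : DT.all (wzR cT Cz.tj Cz.tp Cz.tv) Cz.tv2287 = true := by decide +kernel

theorem ytv2288 : DT.all (wzR cT Cz.tj Cz.tp Cz.tv) Cz.tv2288 = true := by decide +kernel

theorem ytv2289 : DT.all (wzR cT Cz.tj Cz.tp Cz.tv) Cz.tv2289 = true := by decide +kernel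


end Pool.Agent.Lib.MP_5854e1_co.Cz

namespace Pool.Agent.Lib.MP_5854e1_co.Cz

open Pool.Agent.Lib.MP_5854e1_co PB

theorem ytv5147 : DT.all (wzR cT Cz.tj Cz.tp Cz.tv) Cz.tv5147 = true := by decide +kernel

theorem ytv5148 : DT.all (wzR cT Cz.tj Cz.tp Cz.tv) Cz.tv5148 = true := by decide +kernel

theorem ytv5149 : DT.all (wzR cT Cz.tj Cz.tp Cz.tv) Cz.tv5149 = true := by decide +kernel

theorem ytv5150 : DT.all (wzR cT Cz.tj Cz.tp Cz.tv) Cz.tv5150 = true := by decide +kernel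

theorem ytv5151 : DT.all (wzR cT Cz.tj Cz.tp Cz.tv) Cz.tv5151 = true := by decide +kernel

theorem ytv5152 : DT.all (wzR cT Cz.tj Cz.tp Cz.tv) Cz.tv5152 = true := by decide +kernel

theorem ytv5153 : DT.all (wzR cT Cz.tj Cz.tp Cz.tv) Cz.tv5153 = true := by decide +kernel

theorem ytv5154 : DT.all (wzR cT Cz.tj Cz.tp Cz.tv) Cz.tv5154 = true := by decide +kernel

theorem ytv5155 : DT.all (wzR cT Cz.tj Cz.tp Cz.tv) Cz.tv5155 = true := by decide +kernel


end Pool.Agent.Lib.MP_5854e1_co.Cz
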