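import Pool.Agent.Lib.MP_5854e1_co.Cz.P

/-!
# The rows of the rings
-/

set_option autoImplicit false
set_option maxRecDepth 100000
set_option deprecated.oldSectionVars true

namespace Pool.Agent.Lib.MP_5854e1_co.Cz

open Pool.Agent.Lib.MP_5854e1_co PB

theorem ytv2298 : DT.all (wzR cT Cz.tj Cz.tp Cz.tv) Cz.tv2298 = true := by decide +kernel

theorem ytv2299 : DT.all (wzR cT Cz.tj Cz.tp Cz.tv) Cz.tv2299 = true := by decide +kernel

theorem ytv2300 : DT.all (wzR cT Cz.tj Cz.tp Cz.tv) Cz.tv2300 = true := by decide +kernel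

theorem ytv2301 : DT.all (wzR cT Cz.tj Cz.tp Cz.tv) Cz.tv2301 = true := by decide +kernel

theorem ytv2302 : DT.all (wzR cT Cz.tj Cz.tp Cz.tv) Cz.tv2302 = true := by decide +kernel

theorem ytv2303 : DT.all (wzR cT Cz.tj Cz.tp Cz.tv) Cz.tv2303 = true := by decide +kernel

theorem ytv2304 : DT.all (wzR cT Cz.tj Cz.tp Cz.tv) Cz.tv2304 = true := by decide +kernel

theorem ytv2305 : DT.all (wzR cT Cz.tj Cz.tp Cz.tv) Cz.tv2305 = true := by decide +kernel

theorem ytv2306 : DT.all (wzR cT Cz.tj Cz.tp Cz.tv) Cz.tv2306 = true := by decide +kernel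


end Pool.Agent.Lib.MP_5854e1_co.Cz

namespace Pool.Agent.Lib.MP_5854e1_co.Cz

open Pool.Agent.Lib.MP_5854e1_co PB

theorem ytv3612 : DT.all (wzR cT Cz.tj Cz.tp Cz.tv) Cz.tv3612 = true := by decide +kernel

theorem ytv3613 : DT.all (wzR cT Cz.tj Cz.tp Cz.tv) Cz.tv3613 = true := by decide +kernel

theorem ytv3614 : DT.all (wzR cT Cz.tj Cz.tp Cz.tv) Cz.tv3614 = true := by decide +kernel

theorem ytv3615 : DT.all (wzR cT Cz.tj Cz.tp Cz.tv) Cz.tv3615 = true := by decide +kernel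

theorem ytv3616 : DT.all (wzR cT Cz.tj Cz.tp Cz.tv) Cz.tv3616 = true := by decide +kernel

theorem ytv3617 : DT.all (wzR cT Cz.tj Cz.tp Cz.tv) Cz.tv3617 = true := by decide +kernel

theorem ytv3618 : DT.all (wzR cT Cz.tj Cz.tp Cz.tv) Cz.tv3618 = true := by decide +kernel


end Pool.Agent.Lib.MP_5854e1_co.Cz
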