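import Pool.Agent.Lib.MP_5854e1_co.Cz.P

/-!
# The rows of the rings
-/

set_option autoImplicit false
set_option maxRecDepth 100000
set_option deprecated.oldSectionVars true

namespace Pool.Agent.Lib.MP_5854e1_co.Cz

open Pool.Agent.Lib.MP_5854e1_co PB

theorem ytv2307 : DT.all (wzR cT Cz.tj Cz.tp Cz.tv) Cz.tv2307 = true := by decide +kernel

theorem ytv2308 : DT.all (wzR cT Cz.tj Cz.tp Cz.tv) Cz.tv2308 = true := by decide +kernel

theorem ytv2309 : DT.all (wzR cT Cz.tj Cz.tp Cz.tv) Cz.tv2309 = true := by decide +kernel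

theorem ytv2310 : DT.all (wzR cT Cz.tj Cz.tp Cz.tv) Cz.tv2310 = true := by decide +kernel

theorem ytv2311 : DT.all (wzR cT Cz.tj Cz.tp Cz.tv) Cz.tv2311 = true := by decide +kernel

theorem ytv2312 : DT.all (wzR cT Cz.tj Cz.tp Cz.tv) Cz.tv2312 = true := by decide +kernel

theorem ytv2313 : DT.all (wzR cT Cz.tj Cz.tp Cz.tv) Cz.tv2313 = true := by decide +kernel

theorem ytv2314 : DT.all (wzR cT Cz.tj Cz.tp Cz.tv) Cz.tv2314 = true := by decide +kernel

theorem ytv2315 : DT.all (wzR cT Cz.tj Cz.tp Cz.tv) Cz.tv2315 = true := by decide +kernel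


end Pool.Agent.Lib.MP_5854e1_co.Cz

namespace Pool.Agent.Lib.MP_5854e1_co.Cz

open Pool.Agent.Lib.MP_5854e1_co PB

theorem ytv4698 : DT.all (wzR cT Cz.tj Cz.tp Cz.tv) Cz.tv4698 = true := by decide +kernel

theorem ytv4699 : DT.all (wzR cT Cz.tj Cz.tp Cz.tv) Cz.tv4699 = true := by decide +kernel

theorem ytv4700 : DT.all (wzR cT Cz.tj Cz.tp Cz.tv) Cz.tv4700 = true := by decide +kernel

theorem ytv4701 : DT.all (wzR cT Cz.tj Cz.tp Cz.tv) Cz.tv4701 = true := by decide +kernel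

theorem ytv4702 : DT.all (wzR cT Cz.tj Cz.tp Cz.tv) Cz.tv4702 = true := by decide +kernel

theorem ytv4703 : DT.all (wzR cT Cz.tj Cz.tp Cz.tv) Cz.tv4703 = true := by decide +kernel

theorem ytv4704 : DT.all (wzR cT Cz.tj Cz.tp Cz.tv) Cz.tv4704 = true := by decide +kernel

theorem ytv4705 : DT.all (wzR cT Cz.tj Cz.tp Cz.tv) Cz.tv4705 = true := by decide +kernel


end Pool.Agent.Lib.MP_5854e1_co.Cz
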