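import Pool.Agent.Lib.MP_5854e1_co.Cz.P

/-!
# The rows of the rings
-/

set_option autoImplicit false
set_option maxRecDepth 100000
set_option deprecated.oldSectionVars true

namespace Pool.Agent.Lib.MP_5854e1_co.Cz

open Pool.Agent.Lib.MP_5854e1_co PB

theorem ytv2367 : DT.all (wzR cT Cz.tj Cz.tp Cz.tv) Cz.tv2367 = true := by decide +kernel

theorem ytv2368 : DT.all (wzR cT Cz.tj Cz.tp Cz.tv) Cz.tv2368 = true := by decide +kernel

theorem ytv2369 : DT.all (wzR cT Cz.tj Cz.tp Cz.tv) Cz.tv2369 = true := by decide +kernel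

theorem ytv2370 : DT.all (wzR cT Cz.tj Cz.tp Cz.tv) Cz.tv2370 = true := by decide +kernel


end Pool.Agent.Lib.MP_5854e1_co.Cz

namespace Pool.Agent.Lib.MP_5854e1_co.Cz

open Pool.Agent.Lib.MP_5854e1_co PB

theorem ytv2720 : DT.all (wzR cT Cz.tj Cz.tp Cz.tv) Cz.tv2720 = true := by decide +kernel

theorem ytv2721 : DT.all (wzR cT Cz.tj Cz.tp Cz.tv) Cz.tv2721 = true := by decide +kernel

theorem ytv2722 : DT.all (wzR cT Cz.tj Cz.tp Cz.tv) Cz.tv2722 = true := by decide +kernel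

theorem ytv2723 : DT.all (wzR cT Cz.tj Cz.tp Cz.tv) Cz.tv2723 = true := by decide +kernel

theorem ytv2724 : DT.all (wzR cT Cz.tj Cz.tp Cz.tv) Cz.tv2724 = true := by decide +kernel

theorem ytv2725 : DT.all (wzR cT Cz.tj Cz.tp Cz.tv) Cz.tv2725 = true := by decide +kernel

theorem ytv2726 : DT.all (wzR cT Cz.tj Cz.tp Cz.tv) Cz.tv2726 = true := by decide +kernel

theorem ytv2727 : DT.all (wzR cT Cz.tj Cz.tp Cz.tv) Cz.tv2727 = true := by decide +kernel


end Pool.Agent.Lib.MP_5854e1_co.Cz
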