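import Pool.Agent.Lib.MP_5854e1_co.Cz.P

/-!
# The rows of the rings
-/

set_option autoImplicit false
set_option maxRecDepth 100000
set_option deprecated.oldSectionVars true

namespace Pool.Agent.Lib.MP_5854e1_co.Cz

open Pool.Agent.Lib.MP_5854e1_co PB

theorem ytv2371 : DT.all (wzR cT Cz.tj Cz.tp Cz.tv) Cz.tv2371 = true := by decide +kernel

theorem ytv2372 : DT.all (wzR cT Cz.tj Cz.tp Cz.tv) Cz.tv2372 = true := by decide +kernel

theorem ytv2373 : DT.all (wzR cT Cz.tj Cz.tp Cz.tv) Cz.tv2373 = true := by decide +kernel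

theorem ytv2374 : DT.all (wzR cT Cz.tj Cz.tp Cz.tv) Cz.tv2374 = true := by decide +kernel

theorem ytv2375 : DT.all (wzR cT Cz.tj Cz.tp Cz.tv) Cz.tv2375 = true := by decide +kernel


end Pool.Agent.Lib.MP_5854e1_co.Cz

namespace Pool.Agent.Lib.MP_5854e1_co.Cz

open Pool.Agent.Lib.MP_5854e1_co PB

theorem ytv3071 : DT.all (wzR cT Cz.tj Cz.tp Cz.tv) Cz.tv3071 = true := by decide +kernel

theorem ytv3072 : DT.all (wzR cT Cz.tj Cz.tp Cz.tv) Cz.tv3072 = true := by decide +kernel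

theorem ytv3073 : DT.all (wzR cT Cz.tj Cz.tp Cz.tv) Cz.tv3073 = true := by decide +kernel

theorem ytv3074 : DT.all (wzR cT Cz.tj Cz.tp Cz.tv) Cz.tv3074 = true := by decide +kernel

theorem ytv3075 : DT.all (wzR cT Cz.tj Cz.tp Cz.tv) Cz.tv3075 = true := by decide +kernel

theorem ytv3076 : DT.all (wzR cT Cz.tj Cz.tp Cz.tv) Cz.tv3076 = true := by decide +kernel

theorem ytv3077 : DT.all (wzR cT Cz.tj Cz.tp Cz.tv) Cz.tv3077 = true := by decide +kernel

theorem ytv3078 : DT.all (wzR cT Cz.tj Cz.tp Cz.tv) Cz.tv3078 = true := by decide +kernel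


end Pool.Agent.Lib.MP_5854e1_co.Cz
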