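import Pool.Agent.Lib.MP_5854e1_co.Cz.P

/-!
# The rows of the rings
-/

set_option autoImplicit false
set_option maxRecDepth 100000
set_option deprecated.oldSectionVars true

namespace Pool.Agent.Lib.MP_5854e1_co.Cz

open Pool.Agent.Lib.MP_5854e1_co PB

theorem ytv2376 : DT.all (wzR cT Cz.tj Cz.tp Cz.tv) Cz.tv2376 = true := by decide +kernel

theorem ytv2377 : DT.all (wzR cT Cz.tj Cz.tp Cz.tv) Cz.tv2377 = true := by decide +kernel

theorem ytv2378 : DT.all (wzR cT Cz.tj Cz.tp Cz.tv) Cz.tv2378 = true := by decide +kernel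

theorem ytv2379 : DT.all (wzR cT Cz.tj Cz.tp Cz.tv) Cz.tv2379 = true := by decide +kernel

theorem ytv2380 : DT.all (wzR cT Cz.tj Cz.tp Cz.tv) Cz.tv2380 = true := by decide +kernel

theorem ytv2381 : DT.all (wzR cT Cz.tj Cz.tp Cz.tv) Cz.tv2381 = true := by decide +kernel

theorem ytv2382 : DT.all (wzR cT Cz.tj Cz.tp Cz.tv) Cz.tv2382 = true := by decide +kernel

theorem ytv2383 : DT.all (wzR cT Cz.tj Cz.tp Cz.tv) Cz.tv2383 = true := by decide +kernel


end Pool.Agent.Lib.MP_5854e1_co.Cz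

namespace Pool.Agent.Lib.MP_5854e1_co.Cz

open Pool.Agent.Lib.MP_5854e1_co PB

theorem ytv2913 : DT.all (wzR cT Cz.tj Cz.tp Cz.tv) Cz.tv2913 = true := by decide +kernel

theorem ytv2914 : DT.all (wzR cT Cz.tj Cz.tp Cz.tv) Cz.tv2914 = true := by decide +kernel

theorem ytv2915 : DT.all (wzR cT Cz.tj Cz.tp Cz.tv) Cz.tv2915 = true := by decide +kernel

theorem ytv2916 : DT.all (wzR cT Cz.tj Cz.tp Cz.tv) Cz.tv2916 = true := by decide +kernel

theorem ytv2917 : DT.all (wzR cT Cz.tj Cz.tp Cz.tv) Cz.tv2917 = true := by decide +kernel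

theorem ytv2918 : DT.all (wzR cT Cz.tj Cz.tp Cz.tv) Cz.tv2918 = true := by decide +kernel

theorem ytv2919 : DT.all (wzR cT Cz.tj Cz.tp Cz.tv) Cz.tv2919 = true := by decide +kernel

theorem ytv2920 : DT.all (wzR cT Cz.tj Cz.tp Cz.tv) Cz.tv2920 = true := by decide +kernel


end Pool.Agent.Lib.MP_5854e1_co.Cz
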