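import Pool.Agent.Lib.MP_5854e1_co.Cz.P

/-!
# The rows of the rings
-/

set_option autoImplicit false
set_option maxRecDepth 100000
set_option deprecated.oldSectionVars true

namespace Pool.Agent.Lib.MP_5854e1_co.Cz

open Pool.Agent.Lib.MP_5854e1_co PB

theorem ytv2407 : DT.all (wzR cT Cz.tj Cz.tp Cz.tv) Cz.tv2407 = true := by decide +kernel

theorem ytv2408 : DT.all (wzR cT Cz.tj Cz.tp Cz.tv) Cz.tv2408 = true := by decide +kernel

theorem ytv2409 : DT.all (wzR cT Cz.tj Cz.tp Cz.tv) Cz.tv2409 = true := by decide +kernel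

theorem ytv2410 : DT.all (wzR cT Cz.tj Cz.tp Cz.tv) Cz.tv2410 = true := by decide +kernel

theorem ytv2411 : DT.all (wzR cT Cz.tj Cz.tp Cz.tv) Cz.tv2411 = true := by decide +kernel

theorem ytv2412 : DT.all (wzR cT Cz.tj Cz.tp Cz.tv) Cz.tv2412 = true := by decide +kernel

theorem ytv2413 : DT.all (wzR cT Cz.tj Cz.tp Cz.tv) Cz.tv2413 = true := by decide +kernel

theorem ytv2414 : DT.all (wzR cT Cz.tj Cz.tp Cz.tv) Cz.tv2414 = true := by decide +kernel


end Pool.Agent.Lib.MP_5854e1_co.Cz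

namespace Pool.Agent.Lib.MP_5854e1_co.Cz

open Pool.Agent.Lib.MP_5854e1_co PB

theorem ytv2728 : DT.all (wzR cT Cz.tj Cz.tp Cz.tv) Cz.tv2728 = true := by decide +kernel

theorem ytv2729 : DT.all (wzR cT Cz.tj Cz.tp Cz.tv) Cz.tv2729 = true := by decide +kernel

theorem ytv2730 : DT.all (wzR cT Cz.tj Cz.tp Cz.tv) Cz.tv2730 = true := by decide +kernel

theorem ytv2731 : DT.all (wzR cT Cz.tj Cz.tp Cz.tv) Cz.tv2731 = true := by decide +kernel

theorem ytv2732 : DT.all (wzR cT Cz.tj Cz.tp Cz.tv) Cz.tv2732 = true := by decide +kernel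

theorem ytv2733 : DT.all (wzR cT Cz.tj Cz.tp Cz.tv) Cz.tv2733 = true := by decide +kernel

theorem ytv2734 : DT.all (wzR cT Cz.tj Cz.tp Cz.tv) Cz.tv2734 = true := by decide +kernel

theorem ytv2735 : DT.all (wzR cT Cz.tj Cz.tp Cz.tv) Cz.tv2735 = true := by decide +kernel


end Pool.Agent.Lib.MP_5854e1_co.Cz
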