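import Pool.Agent.Lib.MP_5854e1_co.Cz.P

/-!
# The rows of the rings
-/

set_option autoImplicit false
set_option maxRecDepth 100000
set_option deprecated.oldSectionVars true

namespace Pool.Agent.Lib.MP_5854e1_co.Cz

open Pool.Agent.Lib.MP_5854e1_co PB

theorem ytv2415 : DT.all (wzR cT Cz.tj Cz.tp Cz.tv) Cz.tv2415 = true := by decide +kernel

theorem ytv2416 : DT.all (wzR cT Cz.tj Cz.tp Cz.tv) Cz.tv2416 = true := by decide +kernel

theorem ytv2417 : DT.all (wzR cT Cz.tj Cz.tp Cz.tv) Cz.tv2417 = true := by decide +kernel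

theorem ytv2418 : DT.all (wzR cT Cz.tj Cz.tp Cz.tv) Cz.tv2418 = true := by decide +kernel

theorem ytv2419 : DT.all (wzR cT Cz.tj Cz.tp Cz.tv) Cz.tv2419 = true := by decide +kernel

theorem ytv2420 : DT.all (wzR cT Cz.tj Cz.tp Cz.tv) Cz.tv2420 = true := by decide +kernel

theorem ytv2421 : DT.all (wzR cT Cz.tj Cz.tp Cz.tv) Cz.tv2421 = true := by decide +kernel

theorem ytv2422 : DT.all (wzR cT Cz.tj Cz.tp Cz.tv) Cz.tv2422 = true := by decide +kernel

theorem ytv2423 : DT.all (wzR cT Cz.tj Cz.tp Cz.tv) Cz.tv2423 = true := by decide +kernel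


end Pool.Agent.Lib.MP_5854e1_co.Cz
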