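import Pool.Agent.Lib.MP_5854e1_co.Cz.P

/-!
# The rows of the rings
-/

set_option autoImplicit false
set_option maxRecDepth 100000
set_option deprecated.oldSectionVars true

namespace Pool.Agent.Lib.MP_5854e1_co.Cz

open Pool.Agent.Lib.MP_5854e1_co PB

theorem ytv2438 : DT.all (wzR cT Cz.tj Cz.tp Cz.tv) Cz.tv2438 = true := by decide +kernel

theorem ytv2439 : DT.all (wzR cT Cz.tj Cz.tp Cz.tv) Cz.tv2439 = true := by decide +kernel

theorem ytv2440 : DT.all (wzR cT Cz.tj Cz.tp Cz.tv) Cz.tv2440 = true := by decide +kernel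

theorem ytv2441 : DT.all (wzR cT Cz.tj Cz.tp Cz.tv) Cz.tv2441 = true := by decide +kernel

theorem ytv2442 : DT.all (wzR cT Cz.tj Cz.tp Cz.tv) Cz.tv2442 = true := by decide +kernel

theorem ytv2443 : DT.all (wzR cT Cz.tj Cz.tp Cz.tv) Cz.tv2443 = true := by decide +kernel

theorem ytv2444 : DT.all (wzR cT Cz.tj Cz.tp Cz.tv) Cz.tv2444 = true := by decide +kernel

theorem ytv2445 : DT.all (wzR cT Cz.tj Cz.tp Cz.tv) Cz.tv2445 = true := by decide +kernel

theorem ytv2446 : DT.all (wzR cT Cz.tj Cz.tp Cz.tv) Cz.tv2446 = true := by decide +kernel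

theorem ytv2447 : DT.all (wzR cT Cz.tj Cz.tp Cz.tv) Cz.tv2447 = true := by decide +kernel


end Pool.Agent.Lib.MP_5854e1_co.Cz
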