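import Pool.Agent.Lib.MP_5854e1_co.Cz.P

/-!
# The rows of the rings
-/

set_option autoImplicit false
set_option maxRecDepth 100000
set_option deprecated.oldSectionVars true

namespace Pool.Agent.Lib.MP_5854e1_co.Cz

open Pool.Agent.Lib.MP_5854e1_co PB

theorem ytv244 : DT.all (wzR cT Cz.tj Cz.tp Cz.tv) Cz.tv244 = true := by decide +kernel

theorem ytv245 : DT.all (wzR cT Cz.tj Cz.tp Cz.tv) Cz.tv245 = true := by decide +kernel

theorem ytv246 : DT.all (wzR cT Cz.tj Cz.tp Cz.tv) Cz.tv246 = true := by decide +kernel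

theorem ytv247 : DT.all (wzR cT Cz.tj Cz.tp Cz.tv) Cz.tv247 = true := by decide +kernel

theorem ytv248 : DT.all (wzR cT Cz.tj Cz.tp Cz.tv) Cz.tv248 = true := by decide +kernel

theorem ytv249 : DT.all (wzR cT Cz.tj Cz.tp Cz.tv) Cz.tv249 = true := by decide +kernel

theorem ytv250 : DT.all (wzR cT Cz.tj Cz.tp Cz.tv) Cz.tv250 = true := by decide +kernel

theorem ytv251 : DT.all (wzR cT Cz.tj Cz.tp Cz.tv) Cz.tv251 = true := by decide +kernel


end Pool.Agent.Lib.MP_5854e1_co.Cz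

namespace Pool.Agent.Lib.MP_5854e1_co.Cz

open Pool.Agent.Lib.MP_5854e1_co PB

theorem ytv3821 : DT.all (wzR cT Cz.tj Cz.tp Cz.tv) Cz.tv3821 = true := by decide +kernel

theorem ytv3822 : DT.all (wzR cT Cz.tj Cz.tp Cz.tv) Cz.tv3822 = true := by decide +kernel

theorem ytv3823 : DT.all (wzR cT Cz.tj Cz.tp Cz.tv) Cz.tv3823 = true := by decide +kernel

theorem ytv3824 : DT.all (wzR cT Cz.tj Cz.tp Cz.tv) Cz.tv3824 = true := by decide +kernel


end Pool.Agent.Lib.MP_5854e1_co.Cz
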