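import Pool.Agent.Lib.MP_5854e1_co.Cz.P

/-!
# The rows of the rings
-/

set_option autoImplicit false
set_option maxRecDepth 100000
set_option deprecated.oldSectionVars true

namespace Pool.Agent.Lib.MP_5854e1_co.Cz

open Pool.Agent.Lib.MP_5854e1_co PB

theorem ytv2467 : DT.all (wzR cT Cz.tj Cz.tp Cz.tv) Cz.tv2467 = true := by decide +kernel

theorem ytv2468 : DT.all (wzR cT Cz.tj Cz.tp Cz.tv) Cz.tv2468 = true := by decide +kernel

theorem ytv2469 : DT.all (wzR cT Cz.tj Cz.tp Cz.tv) Cz.tv2469 = true := by decide +kernel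


end Pool.Agent.Lib.MP_5854e1_co.Cz

namespace Pool.Agent.Lib.MP_5854e1_co.Cz

open Pool.Agent.Lib.MP_5854e1_co PB

theorem ytv4211 : DT.all (wzR cT Cz.tj Cz.tp Cz.tv) Cz.tv4211 = true := by decide +kernel

theorem ytv4212 : DT.all (wzR cT Cz.tj Cz.tp Cz.tv) Cz.tv4212 = true := by decide +kernel

theorem ytv4213 : DT.all (wzR cT Cz.tj Cz.tp Cz.tv) Cz.tv4213 = true := by decide +kernel

theorem ytv4214 : DT.all (wzR cT Cz.tj Cz.tp Cz.tv) Cz.tv4214 = true := by decide +kernel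

theorem ytv4215 : DT.all (wzR cT Cz.tj Cz.tp Cz.tv) Cz.tv4215 = true := by decide +kernel

theorem ytv4216 : DT.all (wzR cT Cz.tj Cz.tp Cz.tv) Cz.tv4216 = true := by decide +kernel

theorem ytv4217 : DT.all (wzR cT Cz.tj Cz.tp Cz.tv) Cz.tv4217 = true := by decide +kernel

theorem ytv4218 : DT.all (wzR cT Cz.tj Cz.tp Cz.tv) Cz.tv4218 = true := by decide +kernel

theorem ytv4219 : DT.all (wzR cT Cz.tj Cz.tp Cz.tv) Cz.tv4219 = true := by decide +kernel


end Pool.Agent.Lib.MP_5854e1_co.Cz
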