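import Pool.Agent.Lib.MP_5854e1_co.Cz.P

/-!
# The rows of the rings
-/

set_option autoImplicit false
set_option maxRecDepth 100000
set_option deprecated.oldSectionVars true

namespace Pool.Agent.Lib.MP_5854e1_co.Cz

open Pool.Agent.Lib.MP_5854e1_co PB

theorem ytv2470 : DT.all (wzR cT Cz.tj Cz.tp Cz.tv) Cz.tv2470 = true := by decide +kernel

theorem ytv2471 : DT.all (wzR cT Cz.tj Cz.tp Cz.tv) Cz.tv2471 = true := by decide +kernel

theorem ytv2472 : DT.all (wzR cT Cz.tj Cz.tp Cz.tv) Cz.tv2472 = true := by decide +kernel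

theorem ytv2473 : DT.all (wzR cT Cz.tj Cz.tp Cz.tv) Cz.tv2473 = true := by decide +kernel

theorem ytv2474 : DT.all (wzR cT Cz.tj Cz.tp Cz.tv) Cz.tv2474 = true := by decide +kernel

theorem ytv2475 : DT.all (wzR cT Cz.tj Cz.tp Cz.tv) Cz.tv2475 = true := by decide +kernel

theorem ytv2476 : DT.all (wzR cT Cz.tj Cz.tp Cz.tv) Cz.tv2476 = true := by decide +kernel

theorem ytv2477 : DT.all (wzR cT Cz.tj Cz.tp Cz.tv) Cz.tv2477 = true := by decide +kernel

theorem ytv2478 : DT.all (wzR cT Cz.tj Cz.tp Cz.tv) Cz.tv2478 = true := by decide +kernel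


end Pool.Agent.Lib.MP_5854e1_co.Cz

namespace Pool.Agent.Lib.MP_5854e1_co.Cz

open Pool.Agent.Lib.MP_5854e1_co PB

theorem ytv5297 : DT.all (wzR cT Cz.tj Cz.tp Cz.tv) Cz.tv5297 = true := by decide +kernel

theorem ytv5298 : DT.all (wzR cT Cz.tj Cz.tp Cz.tv) Cz.tv5298 = true := by decide +kernel

theorem ytv5299 : DT.all (wzR cT Cz.tj Cz.tp Cz.tv) Cz.tv5299 = true := by decide +kernel

theorem ytv5300 : DT.all (wzR cT Cz.tj Cz.tp Cz.tv) Cz.tv5300 = true := by decide +kernel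

theorem ytv5301 : DT.all (wzR cT Cz.tj Cz.tp Cz.tv) Cz.tv5301 = true := by decide +kernel

theorem ytv5302 : DT.all (wzR cT Cz.tj Cz.tp Cz.tv) Cz.tv5302 = true := by decide +kernel

theorem ytv5303 : DT.all (wzR cT Cz.tj Cz.tp Cz.tv) Cz.tv5303 = true := by decide +kernel

theorem ytv5304 : DT.all (wzR cT Cz.tj Cz.tp Cz.tv) Cz.tv5304 = true := by decide +kernel

theorem ytv5305 : DT.all (wzR cT Cz.tj Cz.tp Cz.tv) Cz.tv5305 = true := by decide +kernel


end Pool.Agent.Lib.MP_5854e1_co.Cz
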