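import Pool.Agent.Lib.MP_5854e1_co.Cz.P

/-!
# The rows of the rings
-/

set_option autoImplicit false
set_option maxRecDepth 100000
set_option deprecated.oldSectionVars true

namespace Pool.Agent.Lib.MP_5854e1_co.Cz

open Pool.Agent.Lib.MP_5854e1_co PB

theorem ytv2479 : DT.all (wzR cT Cz.tj Cz.tp Cz.tv) Cz.tv2479 = true := by decide +kernel

theorem ytv2480 : DT.all (wzR cT Cz.tj Cz.tp Cz.tv) Cz.tv2480 = true := by decide +kernel

theorem ytv2481 : DT.all (wzR cT Cz.tj Cz.tp Cz.tv) Cz.tv2481 = true := by decide +kernel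

theorem ytv2482 : DT.all (wzR cT Cz.tj Cz.tp Cz.tv) Cz.tv2482 = true := by decide +kernel

theorem ytv2483 : DT.all (wzR cT Cz.tj Cz.tp Cz.tv) Cz.tv2483 = true := by decide +kernel

theorem ytv2484 : DT.all (wzR cT Cz.tj Cz.tp Cz.tv) Cz.tv2484 = true := by decide +kernel

theorem ytv2485 : DT.all (wzR cT Cz.tj Cz.tp Cz.tv) Cz.tv2485 = true := by decide +kernel

theorem ytv2486 : DT.all (wzR cT Cz.tj Cz.tp Cz.tv) Cz.tv2486 = true := by decide +kernel


end Pool.Agent.Lib.MP_5854e1_co.Cz
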