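import Pool.Agent.Lib.MP_5854e1_co.Cz.P

/-!
# The rows of the rings
-/

set_option autoImplicit false
set_option maxRecDepth 100000
set_option deprecated.oldSectionVars true

namespace Pool.Agent.Lib.MP_5854e1_co.Cz

open Pool.Agent.Lib.MP_5854e1_co PB

theorem ytv2487 : DT.all (wzR cT Cz.tj Cz.tp Cz.tv) Cz.tv2487 = true := by decide +kernel

theorem ytv2488 : DT.all (wzR cT Cz.tj Cz.tp Cz.tv) Cz.tv2488 = true := by decide +kernel

theorem ytv2489 : DT.all (wzR cT Cz.tj Cz.tp Cz.tv) Cz.tv2489 = true := by decide +kernel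

theorem ytv2490 : DT.all (wzR cT Cz.tj Cz.tp Cz.tv) Cz.tv2490 = true := by decide +kernel

theorem ytv2491 : DT.all (wzR cT Cz.tj Cz.tp Cz.tv) Cz.tv2491 = true := by decide +kernel

theorem ytv2492 : DT.all (wzR cT Cz.tj Cz.tp Cz.tv) Cz.tv2492 = true := by decide +kernel

theorem ytv2493 : DT.all (wzR cT Cz.tj Cz.tp Cz.tv) Cz.tv2493 = true := by decide +kernel

theorem ytv2494 : DT.all (wzR cT Cz.tj Cz.tp Cz.tv) Cz.tv2494 = true := by decide +kernel

theorem ytv2495 : DT.all (wzR cT Cz.tj Cz.tp Cz.tv) Cz.tv2495 = true := by decide +kernel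


end Pool.Agent.Lib.MP_5854e1_co.Cz
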