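import Pool.Agent.Lib.MP_5854e1_co.Cz.P

/-!
# The rows of the rings
-/

set_option autoImplicit false
set_option maxRecDepth 100000
set_option deprecated.oldSectionVars true

namespace Pool.Agent.Lib.MP_5854e1_co.Cz

open Pool.Agent.Lib.MP_5854e1_co PB

theorem ytv2512 : DT.all (wzR cT Cz.tj Cz.tp Cz.tv) Cz.tv2512 = true := by decide +kernel

theorem ytv2513 : DT.all (wzR cT Cz.tj Cz.tp Cz.tv) Cz.tv2513 = true := by decide +kernel

theorem ytv2514 : DT.all (wzR cT Cz.tj Cz.tp Cz.tv) Cz.tv2514 = true := by decide +kernel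

theorem ytv2515 : DT.all (wzR cT Cz.tj Cz.tp Cz.tv) Cz.tv2515 = true := by decide +kernel

theorem ytv2516 : DT.all (wzR cT Cz.tj Cz.tp Cz.tv) Cz.tv2516 = true := by decide +kernel

theorem ytv2517 : DT.all (wzR cT Cz.tj Cz.tp Cz.tv) Cz.tv2517 = true := by decide +kernel

theorem ytv2518 : DT.all (wzR cT Cz.tj Cz.tp Cz.tv) Cz.tv2518 = true := by decide +kernel

theorem ytv2519 : DT.all (wzR cT Cz.tj Cz.tp Cz.tv) Cz.tv2519 = true := by decide +kernel

theorem ytv2520 : DT.all (wzR cT Cz.tj Cz.tp Cz.tv) Cz.tv2520 = true := by decide +kernel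


end Pool.Agent.Lib.MP_5854e1_co.Cz
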