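import Pool.Agent.Lib.MP_5854e1_co.Cz.P

/-!
# The rows of the rings
-/

set_option autoImplicit false
set_option maxRecDepth 100000
set_option deprecated.oldSectionVars true

namespace Pool.Agent.Lib.MP_5854e1_co.Cz

open Pool.Agent.Lib.MP_5854e1_co PB

theorem ytv2521 : DT.all (wzR cT Cz.tj Cz.tp Cz.tv) Cz.tv2521 = true := by decide +kernel

theorem ytv2522 : DT.all (wzR cT Cz.tj Cz.tp Cz.tv) Cz.tv2522 = true := by decide +kernel

theorem ytv2523 : DT.all (wzR cT Cz.tj Cz.tp Cz.tv) Cz.tv2523 = true := by decide +kernel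

theorem ytv2524 : DT.all (wzR cT Cz.tj Cz.tp Cz.tv) Cz.tv2524 = true := by decide +kernel

theorem ytv2525 : DT.all (wzR cT Cz.tj Cz.tp Cz.tv) Cz.tv2525 = true := by decide +kernel

theorem ytv2526 : DT.all (wzR cT Cz.tj Cz.tp Cz.tv) Cz.tv2526 = true := by decide +kernel

theorem ytv2527 : DT.all (wzR cT Cz.tj Cz.tp Cz.tv) Cz.tv2527 = true := by decide +kernel

theorem ytv2528 : DT.all (wzR cT Cz.tj Cz.tp Cz.tv) Cz.tv2528 = true := by decide +kernel

theorem ytv2529 : DT.all (wzR cT Cz.tj Cz.tp Cz.tv) Cz.tv2529 = true := by decide +kernel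


end Pool.Agent.Lib.MP_5854e1_co.Cz
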