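import Pool.Agent.Lib.MP_5854e1_co.Cz.P

/-!
# The rows of the rings
-/

set_option autoImplicit false
set_option maxRecDepth 100000
set_option deprecated.oldSectionVars true

namespace Pool.Agent.Lib.MP_5854e1_co.Cz

open Pool.Agent.Lib.MP_5854e1_co PB

theorem ytv252 : DT.all (wzR cT Cz.tj Cz.tp Cz.tv) Cz.tv252 = true := by decide +kernel

theorem ytv253 : DT.all (wzR cT Cz.tj Cz.tp Cz.tv) Cz.tv253 = true := by decide +kernel

theorem ytv254 : DT.all (wzR cT Cz.tj Cz.tp Cz.tv) Cz.tv254 = true := by decide +kernel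

theorem ytv255 : DT.all (wzR cT Cz.tj Cz.tp Cz.tv) Cz.tv255 = true := by decide +kernel

theorem ytv256 : DT.all (wzR cT Cz.tj Cz.tp Cz.tv) Cz.tv256 = true := by decide +kernel

theorem ytv257 : DT.all (wzR cT Cz.tj Cz.tp Cz.tv) Cz.tv257 = true := by decide +kernel

theorem ytv258 : DT.all (wzR cT Cz.tj Cz.tp Cz.tv) Cz.tv258 = true := by decide +kernel

theorem ytv259 : DT.all (wzR cT Cz.tj Cz.tp Cz.tv) Cz.tv259 = true := by decide +kernel

theorem ytv260 : DT.all (wzR cT Cz.tj Cz.tp Cz.tv) Cz.tv260 = true := by decide +kernel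


end Pool.Agent.Lib.MP_5854e1_co.Cz

namespace Pool.Agent.Lib.MP_5854e1_co.Cz

open Pool.Agent.Lib.MP_5854e1_co PB

theorem ytv2667 : DT.all (wzR cT Cz.tj Cz.tp Cz.tv) Cz.tv2667 = true := by decide +kernel

theorem ytv2668 : DT.all (wzR cT Cz.tj Cz.tp Cz.tv) Cz.tv2668 = true := by decide +kernel

theorem ytv2669 : DT.all (wzR cT Cz.tj Cz.tp Cz.tv) Cz.tv2669 = true := by decide +kernel

theorem ytv2670 : DT.all (wzR cT Cz.tj Cz.tp Cz.tv) Cz.tv2670 = true := by decide +kernel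

theorem ytv2671 : DT.all (wzR cT Cz.tj Cz.tp Cz.tv) Cz.tv2671 = true := by decide +kernel

theorem ytv2672 : DT.all (wzR cT Cz.tj Cz.tp Cz.tv) Cz.tv2672 = true := by decide +kernel

theorem ytv2673 : DT.all (wzR cT Cz.tj Cz.tp Cz.tv) Cz.tv2673 = true := by decide +kernel

theorem ytv2674 : DT.all (wzR cT Cz.tj Cz.tp Cz.tv) Cz.tv2674 = true := by decide +kernel

theorem ytv2675 : DT.all (wzR cT Cz.tj Cz.tp Cz.tv) Cz.tv2675 = true := by decide +kernel


end Pool.Agent.Lib.MP_5854e1_co.Cz
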