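import Pool.Agent.Lib.MP_5854e1_co.Cz.P

/-!
# The rows of the rings
-/

set_option autoImplicit false
set_option maxRecDepth 100000
set_option deprecated.oldSectionVars true

namespace Pool.Agent.Lib.MP_5854e1_co.Cz

open Pool.Agent.Lib.MP_5854e1_co PB

theorem ytv2583 : DT.all (wzR cT Cz.tj Cz.tp Cz.tv) Cz.tv2583 = true := by decide +kernel

theorem ytv2584 : DT.all (wzR cT Cz.tj Cz.tp Cz.tv) Cz.tv2584 = true := by decide +kernel

theorem ytv2585 : DT.all (wzR cT Cz.tj Cz.tp Cz.tv) Cz.tv2585 = true := by decide +kernel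

theorem ytv2586 : DT.all (wzR cT Cz.tj Cz.tp Cz.tv) Cz.tv2586 = true := by decide +kernel

theorem ytv2587 : DT.all (wzR cT Cz.tj Cz.tp Cz.tv) Cz.tv2587 = true := by decide +kernel

theorem ytv2588 : DT.all (wzR cT Cz.tj Cz.tp Cz.tv) Cz.tv2588 = true := by decide +kernel

theorem ytv2589 : DT.all (wzR cT Cz.tj Cz.tp Cz.tv) Cz.tv2589 = true := by decide +kernel

theorem ytv2590 : DT.all (wzR cT Cz.tj Cz.tp Cz.tv) Cz.tv2590 = true := by decide +kernel

theorem ytv2591 : DT.all (wzR cT Cz.tj Cz.tp Cz.tv) Cz.tv2591 = true := by decide +kernel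


end Pool.Agent.Lib.MP_5854e1_co.Cz

namespace Pool.Agent.Lib.MP_5854e1_co.Cz

open Pool.Agent.Lib.MP_5854e1_co PB

theorem ytv3944 : DT.all (wzR cT Cz.tj Cz.tp Cz.tv) Cz.tv3944 = true := by decide +kernel

theorem ytv3945 : DT.all (wzR cT Cz.tj Cz.tp Cz.tv) Cz.tv3945 = true := by decide +kernel

theorem ytv3946 : DT.all (wzR cT Cz.tj Cz.tp Cz.tv) Cz.tv3946 = true := by decide +kernel

theorem ytv3947 : DT.all (wzR cT Cz.tj Cz.tp Cz.tv) Cz.tv3947 = true := by decide +kernel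


end Pool.Agent.Lib.MP_5854e1_co.Cz
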