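import Pool.Agent.Lib.MP_5854e1_co.Cz.P

/-!
# The rows of the rings
-/

set_option autoImplicit false
set_option maxRecDepth 100000
set_option deprecated.oldSectionVars true

namespace Pool.Agent.Lib.MP_5854e1_co.Cz

open Pool.Agent.Lib.MP_5854e1_co PB

theorem ytv2592 : DT.all (wzR cT Cz.tj Cz.tp Cz.tv) Cz.tv2592 = true := by decide +kernel

theorem ytv2593 : DT.all (wzR cT Cz.tj Cz.tp Cz.tv) Cz.tv2593 = true := by decide +kernel

theorem ytv2594 : DT.all (wzR cT Cz.tj Cz.tp Cz.tv) Cz.tv2594 = true := by decide +kernel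

theorem ytv2595 : DT.all (wzR cT Cz.tj Cz.tp Cz.tv) Cz.tv2595 = true := by decide +kernel

theorem ytv2596 : DT.all (wzR cT Cz.tj Cz.tp Cz.tv) Cz.tv2596 = true := by decide +kernel

theorem ytv2597 : DT.all (wzR cT Cz.tj Cz.tp Cz.tv) Cz.tv2597 = true := by decide +kernel

theorem ytv2598 : DT.all (wzR cT Cz.tj Cz.tp Cz.tv) Cz.tv2598 = true := by decide +kernel


end Pool.Agent.Lib.MP_5854e1_co.Cz

namespace Pool.Agent.Lib.MP_5854e1_co.Cz

open Pool.Agent.Lib.MP_5854e1_co PB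

theorem ytv5558 : DT.all (wzR cT Cz.tj Cz.tp Cz.tv) Cz.tv5558 = true := by decide +kernel

theorem ytv5559 : DT.all (wzR cT Cz.tj Cz.tp Cz.tv) Cz.tv5559 = true := by decide +kernel

theorem ytv5560 : DT.all (wzR cT Cz.tj Cz.tp Cz.tv) Cz.tv5560 = true := by decide +kernel

theorem ytv5561 : DT.all (wzR cT Cz.tj Cz.tp Cz.tv) Cz.tv5561 = true := by decide +kernel

theorem ytv5562 : DT.all (wzR cT Cz.tj Cz.tp Cz.tv) Cz.tv5562 = true := by decide +kernel

theorem ytv5563 : DT.all (wzR cT Cz.tj Cz.tp Cz.tv) Cz.tv5563 = true := by decide +kernel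

theorem ytv5564 : DT.all (wzR cT Cz.tj Cz.tp Cz.tv) Cz.tv5564 = true := by decide +kernel

theorem ytv5565 : DT.all (wzR cT Cz.tj Cz.tp Cz.tv) Cz.tv5565 = true := by decide +kernel

theorem ytv5566 : DT.all (wzR cT Cz.tj Cz.tp Cz.tv) Cz.tv5566 = true := by decide +kernel

theorem ytv5567 : DT.all (wzR cT Cz.tj Cz.tp Cz.tv) Cz.tv5567 = true := by decide +kernel

theorem ytv5568 : DT.all (wzR cT Cz.tj Cz.tp Cz.tv) Cz.tv5568 = true := by decide +kernel

theorem ytv5569 : DT.all (wzR cT Cz.tj Cz.tp Cz.tv) Cz.tv5569 = true := by decide +kernel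

theorem ytv5570 : DT.all (wzR cT Cz.tj Cz.tp Cz.tv) Cz.tv5570 = true := by decide +kernel

theorem ytv5571 : DT.all (wzR cT Cz.tj Cz.tp Cz.tv) Cz.tv5571 = true := by decide +kernel

theorem ytv5572 : DT.all (wzR cT Cz.tj Cz.tp Cz.tv) Cz.tv5572 = true := by decide +kernel

theorem ytv5573 : DT.all (wzR cT Cz.tj Cz.tp Cz.tv) Cz.tv5573 = true := by decide +kernel

theorem ytv5574 : DT.all (wzR cT Cz.tj Cz.tp Cz.tv) Cz.tv5574 = true := by decide +kernel

theorem ytv5575 : DT.all (wzR cT Cz.tj Cz.tp Cz.tv) Cz.tv5575 = true := by decide +kernel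

theorem ytv5576 : DT.all (wzR cT Cz.tj Cz.tp Cz.tv) Cz.tv5576 = true := by decide +kernel


end Pool.Agent.Lib.MP_5854e1_co.Cz
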