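import Pool.Agent.Lib.MP_5854e1_co.Cz.P

/-!
# The rows of the rings
-/

set_option autoImplicit false
set_option maxRecDepth 100000
set_option deprecated.oldSectionVars true

namespace Pool.Agent.Lib.MP_5854e1_co.Cz

open Pool.Agent.Lib.MP_5854e1_co PB

theorem ytv2608 : DT.all (wzR cT Cz.tj Cz.tp Cz.tv) Cz.tv2608 = true := by decide +kernel

theorem ytv2609 : DT.all (wzR cT Cz.tj Cz.tp Cz.tv) Cz.tv2609 = true := by decide +kernel

theorem ytv2610 : DT.all (wzR cT Cz.tj Cz.tp Cz.tv) Cz.tv2610 = true := by decide +kernel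

theorem ytv2611 : DT.all (wzR cT Cz.tj Cz.tp Cz.tv) Cz.tv2611 = true := by decide +kernel

theorem ytv2612 : DT.all (wzR cT Cz.tj Cz.tp Cz.tv) Cz.tv2612 = true := by decide +kernel

theorem ytv2613 : DT.all (wzR cT Cz.tj Cz.tp Cz.tv) Cz.tv2613 = true := by decide +kernel

theorem ytv2614 : DT.all (wzR cT Cz.tj Cz.tp Cz.tv) Cz.tv2614 = true := by decide +kernel

theorem ytv2615 : DT.all (wzR cT Cz.tj Cz.tp Cz.tv) Cz.tv2615 = true := by decide +kernel


end Pool.Agent.Lib.MP_5854e1_co.Cz
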