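import Pool.Agent.Lib.MP_5854e1_co.Cz.P

/-!
# The rows of the rings
-/

set_option autoImplicit false
set_option maxRecDepth 100000
set_option deprecated.oldSectionVars true

namespace Pool.Agent.Lib.MP_5854e1_co.Cz

open Pool.Agent.Lib.MP_5854e1_co PB

theorem ytv2625 : DT.all (wzR cT Cz.tj Cz.tp Cz.tv) Cz.tv2625 = true := by decide +kernel

theorem ytv2626 : DT.all (wzR cT Cz.tj Cz.tp Cz.tv) Cz.tv2626 = true := by decide +kernel

theorem ytv2627 : DT.all (wzR cT Cz.tj Cz.tp Cz.tv) Cz.tv2627 = true := by decide +kernel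

theorem ytv2628 : DT.all (wzR cT Cz.tj Cz.tp Cz.tv) Cz.tv2628 = true := by decide +kernel

theorem ytv2629 : DT.all (wzR cT Cz.tj Cz.tp Cz.tv) Cz.tv2629 = true := by decide +kernel

theorem ytv2630 : DT.all (wzR cT Cz.tj Cz.tp Cz.tv) Cz.tv2630 = true := by decide +kernel

theorem ytv2631 : DT.all (wzR cT Cz.tj Cz.tp Cz.tv) Cz.tv2631 = true := by decide +kernel

theorem ytv2632 : DT.all (wzR cT Cz.tj Cz.tp Cz.tv) Cz.tv2632 = true := by decide +kernel


end Pool.Agent.Lib.MP_5854e1_co.Cz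

namespace Pool.Agent.Lib.MP_5854e1_co.Cz

open Pool.Agent.Lib.MP_5854e1_co PB

theorem ytv3884 : DT.all (wzR cT Cz.tj Cz.tp Cz.tv) Cz.tv3884 = true := by decide +kernel

theorem ytv3885 : DT.all (wzR cT Cz.tj Cz.tp Cz.tv) Cz.tv3885 = true := by decide +kernel

theorem ytv3886 : DT.all (wzR cT Cz.tj Cz.tp Cz.tv) Cz.tv3886 = true := by decide +kernel

theorem ytv3887 : DT.all (wzR cT Cz.tj Cz.tp Cz.tv) Cz.tv3887 = true := by decide +kernel


end Pool.Agent.Lib.MP_5854e1_co.Cz
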