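import Pool.Agent.Lib.MP_5854e1_co.Cz.P

/-!
# The rows of the rings
-/

set_option autoImplicit false
set_option maxRecDepth 100000
set_option deprecated.oldSectionVars true

namespace Pool.Agent.Lib.MP_5854e1_co.Cz

open Pool.Agent.Lib.MP_5854e1_co PB

theorem ytv2641 : DT.all (wzR cT Cz.tj Cz.tp Cz.tv) Cz.tv2641 = true := by decide +kernel

theorem ytv2642 : DT.all (wzR cT Cz.tj Cz.tp Cz.tv) Cz.tv2642 = true := by decide +kernel

theorem ytv2643 : DT.all (wzR cT Cz.tj Cz.tp Cz.tv) Cz.tv2643 = true := by decide +kernel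

theorem ytv2644 : DT.all (wzR cT Cz.tj Cz.tp Cz.tv) Cz.tv2644 = true := by decide +kernel

theorem ytv2645 : DT.all (wzR cT Cz.tj Cz.tp Cz.tv) Cz.tv2645 = true := by decide +kernel

theorem ytv2646 : DT.all (wzR cT Cz.tj Cz.tp Cz.tv) Cz.tv2646 = true := by decide +kernel

theorem ytv2647 : DT.all (wzR cT Cz.tj Cz.tp Cz.tv) Cz.tv2647 = true := by decide +kernel

theorem ytv2648 : DT.all (wzR cT Cz.tj Cz.tp Cz.tv) Cz.tv2648 = true := by decide +kernel


end Pool.Agent.Lib.MP_5854e1_co.Cz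

namespace Pool.Agent.Lib.MP_5854e1_co.Cz

open Pool.Agent.Lib.MP_5854e1_co PB

theorem ytv3797 : DT.all (wzR cT Cz.tj Cz.tp Cz.tv) Cz.tv3797 = true := by decide +kernel

theorem ytv3798 : DT.all (wzR cT Cz.tj Cz.tp Cz.tv) Cz.tv3798 = true := by decide +kernel

theorem ytv3799 : DT.all (wzR cT Cz.tj Cz.tp Cz.tv) Cz.tv3799 = true := by decide +kernel

theorem ytv3800 : DT.all (wzR cT Cz.tj Cz.tp Cz.tv) Cz.tv3800 = true := by decide +kernel

theorem ytv3801 : DT.all (wzR cT Cz.tj Cz.tp Cz.tv) Cz.tv3801 = true := by decide +kernel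

theorem ytv3802 : DT.all (wzR cT Cz.tj Cz.tp Cz.tv) Cz.tv3802 = true := by decide +kernel

theorem ytv3803 : DT.all (wzR cT Cz.tj Cz.tp Cz.tv) Cz.tv3803 = true := by decide +kernel

theorem ytv3804 : DT.all (wzR cT Cz.tj Cz.tp Cz.tv) Cz.tv3804 = true := by decide +kernel


end Pool.Agent.Lib.MP_5854e1_co.Cz
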