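import Pool.Agent.Lib.MP_5854e1_co.Cz.P

/-!
# The rows of the rings
-/

set_option autoImplicit false
set_option maxRecDepth 100000
set_option deprecated.oldSectionVars true

namespace Pool.Agent.Lib.MP_5854e1_co.Cz

open Pool.Agent.Lib.MP_5854e1_co PB

theorem ytv2649 : DT.all (wzR cT Cz.tj Cz.tp Cz.tv) Cz.tv2649 = true := by decide +kernel

theorem ytv2650 : DT.all (wzR cT Cz.tj Cz.tp Cz.tv) Cz.tv2650 = true := by decide +kernel

theorem ytv2651 : DT.all (wzR cT Cz.tj Cz.tp Cz.tv) Cz.tv2651 = true := by decide +kernel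

theorem ytv2652 : DT.all (wzR cT Cz.tj Cz.tp Cz.tv) Cz.tv2652 = true := by decide +kernel

theorem ytv2653 : DT.all (wzR cT Cz.tj Cz.tp Cz.tv) Cz.tv2653 = true := by decide +kernel

theorem ytv2654 : DT.all (wzR cT Cz.tj Cz.tp Cz.tv) Cz.tv2654 = true := by decide +kernel

theorem ytv2655 : DT.all (wzR cT Cz.tj Cz.tp Cz.tv) Cz.tv2655 = true := by decide +kernel

theorem ytv2656 : DT.all (wzR cT Cz.tj Cz.tp Cz.tv) Cz.tv2656 = true := by decide +kernel

theorem ytv2657 : DT.all (wzR cT Cz.tj Cz.tp Cz.tv) Cz.tv2657 = true := by decide +kernel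


end Pool.Agent.Lib.MP_5854e1_co.Cz
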