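import Pool.Agent.Lib.MP_5854e1_co.Cz.P

/-!
# The rows of the rings
-/

set_option autoImplicit false
set_option maxRecDepth 100000
set_option deprecated.oldSectionVars true

namespace Pool.Agent.Lib.MP_5854e1_co.Cz

open Pool.Agent.Lib.MP_5854e1_co PB

theorem ytv2658 : DT.all (wzR cT Cz.tj Cz.tp Cz.tv) Cz.tv2658 = true := by decide +kernel

theorem ytv2659 : DT.all (wzR cT Cz.tj Cz.tp Cz.tv) Cz.tv2659 = true := by decide +kernel

theorem ytv2660 : DT.all (wzR cT Cz.tj Cz.tp Cz.tv) Cz.tv2660 = true := by decide +kernel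

theorem ytv2661 : DT.all (wzR cT Cz.tj Cz.tp Cz.tv) Cz.tv2661 = true := by decide +kernel

theorem ytv2662 : DT.all (wzR cT Cz.tj Cz.tp Cz.tv) Cz.tv2662 = true := by decide +kernel

theorem ytv2663 : DT.all (wzR cT Cz.tj Cz.tp Cz.tv) Cz.tv2663 = true := by decide +kernel

theorem ytv2664 : DT.all (wzR cT Cz.tj Cz.tp Cz.tv) Cz.tv2664 = true := by decide +kernel

theorem ytv2665 : DT.all (wzR cT Cz.tj Cz.tp Cz.tv) Cz.tv2665 = true := by decide +kernel

theorem ytv2666 : DT.all (wzR cT Cz.tj Cz.tp Cz.tv) Cz.tv2666 = true := by decide +kernel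


end Pool.Agent.Lib.MP_5854e1_co.Cz

namespace Pool.Agent.Lib.MP_5854e1_co.Cz

open Pool.Agent.Lib.MP_5854e1_co PB

theorem ytv4608 : DT.all (wzR cT Cz.tj Cz.tp Cz.tv) Cz.tv4608 = true := by decide +kernel

theorem ytv4609 : DT.all (wzR cT Cz.tj Cz.tp Cz.tv) Cz.tv4609 = true := by decide +kernel

theorem ytv4610 : DT.all (wzR cT Cz.tj Cz.tp Cz.tv) Cz.tv4610 = true := by decide +kernel

theorem ytv4611 : DT.all (wzR cT Cz.tj Cz.tp Cz.tv) Cz.tv4611 = true := by decide +kernel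

theorem ytv4612 : DT.all (wzR cT Cz.tj Cz.tp Cz.tv) Cz.tv4612 = true := by decide +kernel

theorem ytv4613 : DT.all (wzR cT Cz.tj Cz.tp Cz.tv) Cz.tv4613 = true := by decide +kernel

theorem ytv4614 : DT.all (wzR cT Cz.tj Cz.tp Cz.tv) Cz.tv4614 = true := by decide +kernel

theorem ytv4615 : DT.all (wzR cT Cz.tj Cz.tp Cz.tv) Cz.tv4615 = true := by decide +kernel

theorem ytv4616 : DT.all (wzR cT Cz.tj Cz.tp Cz.tv) Cz.tv4616 = true := by decide +kernel


end Pool.Agent.Lib.MP_5854e1_co.Cz
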