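import Pool.Agent.Lib.MP_5854e1_co.Cz.P

/-!
# The rows of the rings
-/

set_option autoImplicit false
set_option maxRecDepth 100000
set_option deprecated.oldSectionVars true

namespace Pool.Agent.Lib.MP_5854e1_co.Cz

open Pool.Agent.Lib.MP_5854e1_co PB

theorem ytv2693 : DT.all (wzR cT Cz.tj Cz.tp Cz.tv) Cz.tv2693 = true := by decide +kernel

theorem ytv2694 : DT.all (wzR cT Cz.tj Cz.tp Cz.tv) Cz.tv2694 = true := by decide +kernel

theorem ytv2695 : DT.all (wzR cT Cz.tj Cz.tp Cz.tv) Cz.tv2695 = true := by decide +kernel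

theorem ytv2696 : DT.all (wzR cT Cz.tj Cz.tp Cz.tv) Cz.tv2696 = true := by decide +kernel

theorem ytv2697 : DT.all (wzR cT Cz.tj Cz.tp Cz.tv) Cz.tv2697 = true := by decide +kernel

theorem ytv2698 : DT.all (wzR cT Cz.tj Cz.tp Cz.tv) Cz.tv2698 = true := by decide +kernel

theorem ytv2699 : DT.all (wzR cT Cz.tj Cz.tp Cz.tv) Cz.tv2699 = true := by decide +kernel

theorem ytv2700 : DT.all (wzR cT Cz.tj Cz.tp Cz.tv) Cz.tv2700 = true := by decide +kernel

theorem ytv2701 : DT.all (wzR cT Cz.tj Cz.tp Cz.tv) Cz.tv2701 = true := by decide +kernel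

theorem ytv2702 : DT.all (wzR cT Cz.tj Cz.tp Cz.tv) Cz.tv2702 = true := by decide +kernel


end Pool.Agent.Lib.MP_5854e1_co.Cz
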