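import Pool.Agent.Lib.MP_5854e1_co.Cz.P

/-!
# The rows of the rings
-/

set_option autoImplicit false
set_option maxRecDepth 100000
set_option deprecated.oldSectionVars true

namespace Pool.Agent.Lib.MP_5854e1_co.Cz

open Pool.Agent.Lib.MP_5854e1_co PB

theorem ytv270 : DT.all (wzR cT Cz.tj Cz.tp Cz.tv) Cz.tv270 = true := by decide +kernel

theorem ytv271 : DT.all (wzR cT Cz.tj Cz.tp Cz.tv) Cz.tv271 = true := by decide +kernel

theorem ytv272 : DT.all (wzR cT Cz.tj Cz.tp Cz.tv) Cz.tv272 = true := by decide +kernel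

theorem ytv273 : DT.all (wzR cT Cz.tj Cz.tp Cz.tv) Cz.tv273 = true := by decide +kernel

theorem ytv274 : DT.all (wzR cT Cz.tj Cz.tp Cz.tv) Cz.tv274 = true := by decide +kernel

theorem ytv275 : DT.all (wzR cT Cz.tj Cz.tp Cz.tv) Cz.tv275 = true := by decide +kernel

theorem ytv276 : DT.all (wzR cT Cz.tj Cz.tp Cz.tv) Cz.tv276 = true := by decide +kernel


end Pool.Agent.Lib.MP_5854e1_co.Cz

namespace Pool.Agent.Lib.MP_5854e1_co.Cz

open Pool.Agent.Lib.MP_5854e1_co PB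

theorem ytv1416 : DT.all (wzR cT Cz.tj Cz.tp Cz.tv) Cz.tv1416 = true := by decide +kernel

theorem ytv1417 : DT.all (wzR cT Cz.tj Cz.tp Cz.tv) Cz.tv1417 = true := by decide +kernel

theorem ytv1418 : DT.all (wzR cT Cz.tj Cz.tp Cz.tv) Cz.tv1418 = true := by decide +kernel

theorem ytv1419 : DT.all (wzR cT Cz.tj Cz.tp Cz.tv) Cz.tv1419 = true := by decide +kernel

theorem ytv1420 : DT.all (wzR cT Cz.tj Cz.tp Cz.tv) Cz.tv1420 = true := by decide +kernel

theorem ytv1421 : DT.all (wzR cT Cz.tj Cz.tp Cz.tv) Cz.tv1421 = true := by decide +kernel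

theorem ytv1422 : DT.all (wzR cT Cz.tj Cz.tp Cz.tv) Cz.tv1422 = true := by decide +kernel

theorem ytv1423 : DT.all (wzR cT Cz.tj Cz.tp Cz.tv) Cz.tv1423 = true := by decide +kernel


end Pool.Agent.Lib.MP_5854e1_co.Cz
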