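import Pool.Agent.Lib.MP_5854e1_co.Cz.P

/-!
# The rows of the rings
-/

set_option autoImplicit false
set_option maxRecDepth 100000
set_option deprecated.oldSectionVars true

namespace Pool.Agent.Lib.MP_5854e1_co.Cz

open Pool.Agent.Lib.MP_5854e1_co PB

theorem ytv2703 : DT.all (wzR cT Cz.tj Cz.tp Cz.tv) Cz.tv2703 = true := by decide +kernel

theorem ytv2704 : DT.all (wzR cT Cz.tj Cz.tp Cz.tv) Cz.tv2704 = true := by decide +kernel

theorem ytv2705 : DT.all (wzR cT Cz.tj Cz.tp Cz.tv) Cz.tv2705 = true := by decide +kernel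

theorem ytv2706 : DT.all (wzR cT Cz.tj Cz.tp Cz.tv) Cz.tv2706 = true := by decide +kernel

theorem ytv2707 : DT.all (wzR cT Cz.tj Cz.tp Cz.tv) Cz.tv2707 = true := by decide +kernel

theorem ytv2708 : DT.all (wzR cT Cz.tj Cz.tp Cz.tv) Cz.tv2708 = true := by decide +kernel

theorem ytv2709 : DT.all (wzR cT Cz.tj Cz.tp Cz.tv) Cz.tv2709 = true := by decide +kernel

theorem ytv2710 : DT.all (wzR cT Cz.tj Cz.tp Cz.tv) Cz.tv2710 = true := by decide +kernel

theorem ytv2711 : DT.all (wzR cT Cz.tj Cz.tp Cz.tv) Cz.tv2711 = true := by decide +kernel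


end Pool.Agent.Lib.MP_5854e1_co.Cz
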