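import Pool.Agent.Lib.MP_5854e1_co.Cz.P

/-!
# The rows of the rings
-/

set_option autoImplicit false
set_option maxRecDepth 100000
set_option deprecated.oldSectionVars true

namespace Pool.Agent.Lib.MP_5854e1_co.Cz

open Pool.Agent.Lib.MP_5854e1_co PB

theorem ytv2753 : DT.all (wzR cT Cz.tj Cz.tp Cz.tv) Cz.tv2753 = true := by decide +kernel

theorem ytv2754 : DT.all (wzR cT Cz.tj Cz.tp Cz.tv) Cz.tv2754 = true := by decide +kernel

theorem ytv2755 : DT.all (wzR cT Cz.tj Cz.tp Cz.tv) Cz.tv2755 = true := by decide +kernel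

theorem ytv2756 : DT.all (wzR cT Cz.tj Cz.tp Cz.tv) Cz.tv2756 = true := by decide +kernel

theorem ytv2757 : DT.all (wzR cT Cz.tj Cz.tp Cz.tv) Cz.tv2757 = true := by decide +kernel

theorem ytv2758 : DT.all (wzR cT Cz.tj Cz.tp Cz.tv) Cz.tv2758 = true := by decide +kernel

theorem ytv2759 : DT.all (wzR cT Cz.tj Cz.tp Cz.tv) Cz.tv2759 = true := by decide +kernel

theorem ytv2760 : DT.all (wzR cT Cz.tj Cz.tp Cz.tv) Cz.tv2760 = true := by decide +kernel


end Pool.Agent.Lib.MP_5854e1_co.Cz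

namespace Pool.Agent.Lib.MP_5854e1_co.Cz

open Pool.Agent.Lib.MP_5854e1_co PB

theorem ytv5103 : DT.all (wzR cT Cz.tj Cz.tp Cz.tv) Cz.tv5103 = true := by decide +kernel

theorem ytv5104 : DT.all (wzR cT Cz.tj Cz.tp Cz.tv) Cz.tv5104 = true := by decide +kernel

theorem ytv5105 : DT.all (wzR cT Cz.tj Cz.tp Cz.tv) Cz.tv5105 = true := by decide +kernel

theorem ytv5106 : DT.all (wzR cT Cz.tj Cz.tp Cz.tv) Cz.tv5106 = true := by decide +kernel

theorem ytv5107 : DT.all (wzR cT Cz.tj Cz.tp Cz.tv) Cz.tv5107 = true := by decide +kernel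

theorem ytv5108 : DT.all (wzR cT Cz.tj Cz.tp Cz.tv) Cz.tv5108 = true := by decide +kernel

theorem ytv5109 : DT.all (wzR cT Cz.tj Cz.tp Cz.tv) Cz.tv5109 = true := by decide +kernel

theorem ytv5110 : DT.all (wzR cT Cz.tj Cz.tp Cz.tv) Cz.tv5110 = true := by decide +kernel

theorem ytv5111 : DT.all (wzR cT Cz.tj Cz.tp Cz.tv) Cz.tv5111 = true := by decide +kernel

theorem ytv5112 : DT.all (wzR cT Cz.tj Cz.tp Cz.tv) Cz.tv5112 = true := by decide +kernel


end Pool.Agent.Lib.MP_5854e1_co.Cz
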