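import Pool.Agent.Lib.MP_5854e1_co.Cz.P

/-!
# The rows of the rings
-/

set_option autoImplicit false
set_option maxRecDepth 100000
set_option deprecated.oldSectionVars true

namespace Pool.Agent.Lib.MP_5854e1_co.Cz

open Pool.Agent.Lib.MP_5854e1_co PB

theorem ytv2761 : DT.all (wzR cT Cz.tj Cz.tp Cz.tv) Cz.tv2761 = true := by decide +kernel

theorem ytv2762 : DT.all (wzR cT Cz.tj Cz.tp Cz.tv) Cz.tv2762 = true := by decide +kernel

theorem ytv2763 : DT.all (wzR cT Cz.tj Cz.tp Cz.tv) Cz.tv2763 = true := by decide +kernel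

theorem ytv2764 : DT.all (wzR cT Cz.tj Cz.tp Cz.tv) Cz.tv2764 = true := by decide +kernel

theorem ytv2765 : DT.all (wzR cT Cz.tj Cz.tp Cz.tv) Cz.tv2765 = true := by decide +kernel

theorem ytv2766 : DT.all (wzR cT Cz.tj Cz.tp Cz.tv) Cz.tv2766 = true := by decide +kernel

theorem ytv2767 : DT.all (wzR cT Cz.tj Cz.tp Cz.tv) Cz.tv2767 = true := by decide +kernel


end Pool.Agent.Lib.MP_5854e1_co.Cz

namespace Pool.Agent.Lib.MP_5854e1_co.Cz

open Pool.Agent.Lib.MP_5854e1_co PB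

theorem ytv3030 : DT.all (wzR cT Cz.tj Cz.tp Cz.tv) Cz.tv3030 = true := by decide +kernel

theorem ytv3031 : DT.all (wzR cT Cz.tj Cz.tp Cz.tv) Cz.tv3031 = true := by decide +kernel

theorem ytv3032 : DT.all (wzR cT Cz.tj Cz.tp Cz.tv) Cz.tv3032 = true := by decide +kernel

theorem ytv3033 : DT.all (wzR cT Cz.tj Cz.tp Cz.tv) Cz.tv3033 = true := by decide +kernel

theorem ytv3034 : DT.all (wzR cT Cz.tj Cz.tp Cz.tv) Cz.tv3034 = true := by decide +kernel


end Pool.Agent.Lib.MP_5854e1_co.Cz
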