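import Pool.Agent.Lib.MP_5854e1_co.Cz.P

/-!
# The rows of the rings
-/

set_option autoImplicit false
set_option maxRecDepth 100000
set_option deprecated.oldSectionVars true

namespace Pool.Agent.Lib.MP_5854e1_co.Cz

open Pool.Agent.Lib.MP_5854e1_co PB

theorem ytv2777 : DT.all (wzR cT Cz.tj Cz.tp Cz.tv) Cz.tv2777 = true := by decide +kernel

theorem ytv2778 : DT.all (wzR cT Cz.tj Cz.tp Cz.tv) Cz.tv2778 = true := by decide +kernel

theorem ytv2779 : DT.all (wzR cT Cz.tj Cz.tp Cz.tv) Cz.tv2779 = true := by decide +kernel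

theorem ytv2780 : DT.all (wzR cT Cz.tj Cz.tp Cz.tv) Cz.tv2780 = true := by decide +kernel


end Pool.Agent.Lib.MP_5854e1_co.Cz

namespace Pool.Agent.Lib.MP_5854e1_co.Cz

open Pool.Agent.Lib.MP_5854e1_co PB

theorem ytv3805 : DT.all (wzR cT Cz.tj Cz.tp Cz.tv) Cz.tv3805 = true := by decide +kernel

theorem ytv3806 : DT.all (wzR cT Cz.tj Cz.tp Cz.tv) Cz.tv3806 = true := by decide +kernel

theorem ytv3807 : DT.all (wzR cT Cz.tj Cz.tp Cz.tv) Cz.tv3807 = true := by decide +kernel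

theorem ytv3808 : DT.all (wzR cT Cz.tj Cz.tp Cz.tv) Cz.tv3808 = true := by decide +kernel

theorem ytv3809 : DT.all (wzR cT Cz.tj Cz.tp Cz.tv) Cz.tv3809 = true := by decide +kernel

theorem ytv3810 : DT.all (wzR cT Cz.tj Cz.tp Cz.tv) Cz.tv3810 = true := by decide +kernel

theorem ytv3811 : DT.all (wzR cT Cz.tj Cz.tp Cz.tv) Cz.tv3811 = true := by decide +kernel

theorem ytv3812 : DT.all (wzR cT Cz.tj Cz.tp Cz.tv) Cz.tv3812 = true := by decide +kernel

theorem ytv3813 : DT.all (wzR cT Cz.tj Cz.tp Cz.tv) Cz.tv3813 = true := by decide +kernel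


end Pool.Agent.Lib.MP_5854e1_co.Cz
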