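import Pool.Agent.Lib.MP_5854e1_co.Cz.P

/-!
# The rows of the rings
-/

set_option autoImplicit false
set_option maxRecDepth 100000
set_option deprecated.oldSectionVars true

namespace Pool.Agent.Lib.MP_5854e1_co.Cz

open Pool.Agent.Lib.MP_5854e1_co PB

theorem ytv2781 : DT.all (wzR cT Cz.tj Cz.tp Cz.tv) Cz.tv2781 = true := by decide +kernel

theorem ytv2782 : DT.all (wzR cT Cz.tj Cz.tp Cz.tv) Cz.tv2782 = true := by decide +kernel

theorem ytv2783 : DT.all (wzR cT Cz.tj Cz.tp Cz.tv) Cz.tv2783 = true := by decide +kernel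


end Pool.Agent.Lib.MP_5854e1_co.Cz

namespace Pool.Agent.Lib.MP_5854e1_co.Cz

open Pool.Agent.Lib.MP_5854e1_co PB

theorem ytv3372 : DT.all (wzR cT Cz.tj Cz.tp Cz.tv) Cz.tv3372 = true := by decide +kernel

theorem ytv3373 : DT.all (wzR cT Cz.tj Cz.tp Cz.tv) Cz.tv3373 = true := by decide +kernel

theorem ytv3374 : DT.all (wzR cT Cz.tj Cz.tp Cz.tv) Cz.tv3374 = true := by decide +kernel

theorem ytv3375 : DT.all (wzR cT Cz.tj Cz.tp Cz.tv) Cz.tv3375 = true := by decide +kernel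

theorem ytv3376 : DT.all (wzR cT Cz.tj Cz.tp Cz.tv) Cz.tv3376 = true := by decide +kernel

theorem ytv3377 : DT.all (wzR cT Cz.tj Cz.tp Cz.tv) Cz.tv3377 = true := by decide +kernel

theorem ytv3378 : DT.all (wzR cT Cz.tj Cz.tp Cz.tv) Cz.tv3378 = true := by decide +kernel

theorem ytv3379 : DT.all (wzR cT Cz.tj Cz.tp Cz.tv) Cz.tv3379 = true := by decide +kernel


end Pool.Agent.Lib.MP_5854e1_co.Cz
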