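import Pool.Agent.Lib.MP_5854e1_co.Cz.P

/-!
# The rows of the rings
-/

set_option autoImplicit false
set_option maxRecDepth 100000
set_option deprecated.oldSectionVars true

namespace Pool.Agent.Lib.MP_5854e1_co.Cz

open Pool.Agent.Lib.MP_5854e1_co PB

theorem ytv277 : DT.all (wzR cT Cz.tj Cz.tp Cz.tv) Cz.tv277 = true := by decide +kernel

theorem ytv278 : DT.all (wzR cT Cz.tj Cz.tp Cz.tv) Cz.tv278 = true := by decide +kernel

theorem ytv279 : DT.all (wzR cT Cz.tj Cz.tp Cz.tv) Cz.tv279 = true := by decide +kernel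

theorem ytv280 : DT.all (wzR cT Cz.tj Cz.tp Cz.tv) Cz.tv280 = true := by decide +kernel

theorem ytv281 : DT.all (wzR cT Cz.tj Cz.tp Cz.tv) Cz.tv281 = true := by decide +kernel

theorem ytv282 : DT.all (wzR cT Cz.tj Cz.tp Cz.tv) Cz.tv282 = true := by decide +kernel

theorem ytv283 : DT.all (wzR cT Cz.tj Cz.tp Cz.tv) Cz.tv283 = true := by decide +kernel

theorem ytv284 : DT.all (wzR cT Cz.tj Cz.tp Cz.tv) Cz.tv284 = true := by decide +kernel

theorem ytv285 : DT.all (wzR cT Cz.tj Cz.tp Cz.tv) Cz.tv285 = true := by decide +kernel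


end Pool.Agent.Lib.MP_5854e1_co.Cz
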