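import Pool.Agent.Lib.MP_5854e1_co.Cz.P

/-!
# The rows of the rings
-/

set_option autoImplicit false
set_option maxRecDepth 100000
set_option deprecated.oldSectionVars true

namespace Pool.Agent.Lib.MP_5854e1_co.Cz

open Pool.Agent.Lib.MP_5854e1_co PB

theorem ytv2813 : DT.all (wzR cT Cz.tj Cz.tp Cz.tv) Cz.tv2813 = true := by decide +kernel

theorem ytv2814 : DT.all (wzR cT Cz.tj Cz.tp Cz.tv) Cz.tv2814 = true := by decide +kernel

theorem ytv2815 : DT.all (wzR cT Cz.tj Cz.tp Cz.tv) Cz.tv2815 = true := by decide +kernel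

theorem ytv2816 : DT.all (wzR cT Cz.tj Cz.tp Cz.tv) Cz.tv2816 = true := by decide +kernel

theorem ytv2817 : DT.all (wzR cT Cz.tj Cz.tp Cz.tv) Cz.tv2817 = true := by decide +kernel

theorem ytv2818 : DT.all (wzR cT Cz.tj Cz.tp Cz.tv) Cz.tv2818 = true := by decide +kernel

theorem ytv2819 : DT.all (wzR cT Cz.tj Cz.tp Cz.tv) Cz.tv2819 = true := by decide +kernel


end Pool.Agent.Lib.MP_5854e1_co.Cz

namespace Pool.Agent.Lib.MP_5854e1_co.Cz

open Pool.Agent.Lib.MP_5854e1_co PB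

theorem ytv3907 : DT.all (wzR cT Cz.tj Cz.tp Cz.tv) Cz.tv3907 = true := by decide +kernel

theorem ytv3908 : DT.all (wzR cT Cz.tj Cz.tp Cz.tv) Cz.tv3908 = true := by decide +kernel

theorem ytv3909 : DT.all (wzR cT Cz.tj Cz.tp Cz.tv) Cz.tv3909 = true := by decide +kernel

theorem ytv3910 : DT.all (wzR cT Cz.tj Cz.tp Cz.tv) Cz.tv3910 = true := by decide +kernel


end Pool.Agent.Lib.MP_5854e1_co.Cz
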