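import Pool.Agent.Lib.MP_5854e1_co.Cz.P

/-!
# The rows of the rings
-/

set_option autoImplicit false
set_option maxRecDepth 100000
set_option deprecated.oldSectionVars true

namespace Pool.Agent.Lib.MP_5854e1_co.Cz

open Pool.Agent.Lib.MP_5854e1_co PB

theorem ytv2828 : DT.all (wzR cT Cz.tj Cz.tp Cz.tv) Cz.tv2828 = true := by decide +kernel

theorem ytv2829 : DT.all (wzR cT Cz.tj Cz.tp Cz.tv) Cz.tv2829 = true := by decide +kernel

theorem ytv2830 : DT.all (wzR cT Cz.tj Cz.tp Cz.tv) Cz.tv2830 = true := by decide +kernel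

theorem ytv2831 : DT.all (wzR cT Cz.tj Cz.tp Cz.tv) Cz.tv2831 = true := by decide +kernel

theorem ytv2832 : DT.all (wzR cT Cz.tj Cz.tp Cz.tv) Cz.tv2832 = true := by decide +kernel

theorem ytv2833 : DT.all (wzR cT Cz.tj Cz.tp Cz.tv) Cz.tv2833 = true := by decide +kernel

theorem ytv2834 : DT.all (wzR cT Cz.tj Cz.tp Cz.tv) Cz.tv2834 = true := by decide +kernel

theorem ytv2835 : DT.all (wzR cT Cz.tj Cz.tp Cz.tv) Cz.tv2835 = true := by decide +kernel

theorem ytv2836 : DT.all (wzR cT Cz.tj Cz.tp Cz.tv) Cz.tv2836 = true := by decide +kernel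


end Pool.Agent.Lib.MP_5854e1_co.Cz

namespace Pool.Agent.Lib.MP_5854e1_co.Cz

open Pool.Agent.Lib.MP_5854e1_co PB

theorem ytv3915 : DT.all (wzR cT Cz.tj Cz.tp Cz.tv) Cz.tv3915 = true := by decide +kernel

theorem ytv3916 : DT.all (wzR cT Cz.tj Cz.tp Cz.tv) Cz.tv3916 = true := by decide +kernel

theorem ytv3917 : DT.all (wzR cT Cz.tj Cz.tp Cz.tv) Cz.tv3917 = true := by decide +kernel

theorem ytv3918 : DT.all (wzR cT Cz.tj Cz.tp Cz.tv) Cz.tv3918 = true := by decide +kernel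

theorem ytv3919 : DT.all (wzR cT Cz.tj Cz.tp Cz.tv) Cz.tv3919 = true := by decide +kernel

theorem ytv3920 : DT.all (wzR cT Cz.tj Cz.tp Cz.tv) Cz.tv3920 = true := by decide +kernel

theorem ytv3921 : DT.all (wzR cT Cz.tj Cz.tp Cz.tv) Cz.tv3921 = true := by decide +kernel

theorem ytv3922 : DT.all (wzR cT Cz.tj Cz.tp Cz.tv) Cz.tv3922 = true := by decide +kernel


end Pool.Agent.Lib.MP_5854e1_co.Cz
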