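import Pool.Agent.Lib.MP_5854e1_co.Cz.P

/-!
# The rows of the rings
-/

set_option autoImplicit false
set_option maxRecDepth 100000
set_option deprecated.oldSectionVars true

namespace Pool.Agent.Lib.MP_5854e1_co.Cz

open Pool.Agent.Lib.MP_5854e1_co PB

theorem ytv2846 : DT.all (wzR cT Cz.tj Cz.tp Cz.tv) Cz.tv2846 = true := by decide +kernel

theorem ytv2847 : DT.all (wzR cT Cz.tj Cz.tp Cz.tv) Cz.tv2847 = true := by decide +kernel

theorem ytv2848 : DT.all (wzR cT Cz.tj Cz.tp Cz.tv) Cz.tv2848 = true := by decide +kernel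

theorem ytv2849 : DT.all (wzR cT Cz.tj Cz.tp Cz.tv) Cz.tv2849 = true := by decide +kernel

theorem ytv2850 : DT.all (wzR cT Cz.tj Cz.tp Cz.tv) Cz.tv2850 = true := by decide +kernel

theorem ytv2851 : DT.all (wzR cT Cz.tj Cz.tp Cz.tv) Cz.tv2851 = true := by decide +kernel

theorem ytv2852 : DT.all (wzR cT Cz.tj Cz.tp Cz.tv) Cz.tv2852 = true := by decide +kernel


end Pool.Agent.Lib.MP_5854e1_co.Cz

namespace Pool.Agent.Lib.MP_5854e1_co.Cz

open Pool.Agent.Lib.MP_5854e1_co PB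

theorem ytv5094 : DT.all (wzR cT Cz.tj Cz.tp Cz.tv) Cz.tv5094 = true := by decide +kernel

theorem ytv5095 : DT.all (wzR cT Cz.tj Cz.tp Cz.tv) Cz.tv5095 = true := by decide +kernel

theorem ytv5096 : DT.all (wzR cT Cz.tj Cz.tp Cz.tv) Cz.tv5096 = true := by decide +kernel

theorem ytv5097 : DT.all (wzR cT Cz.tj Cz.tp Cz.tv) Cz.tv5097 = true := by decide +kernel

theorem ytv5098 : DT.all (wzR cT Cz.tj Cz.tp Cz.tv) Cz.tv5098 = true := by decide +kernel

theorem ytv5099 : DT.all (wzR cT Cz.tj Cz.tp Cz.tv) Cz.tv5099 = true := by decide +kernel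

theorem ytv5100 : DT.all (wzR cT Cz.tj Cz.tp Cz.tv) Cz.tv5100 = true := by decide +kernel

theorem ytv5101 : DT.all (wzR cT Cz.tj Cz.tp Cz.tv) Cz.tv5101 = true := by decide +kernel

theorem ytv5102 : DT.all (wzR cT Cz.tj Cz.tp Cz.tv) Cz.tv5102 = true := by decide +kernel


end Pool.Agent.Lib.MP_5854e1_co.Cz
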