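import Pool.Agent.Lib.MP_5854e1_co.Cz.P

/-!
# The rows of the rings
-/

set_option autoImplicit false
set_option maxRecDepth 100000
set_option deprecated.oldSectionVars true

namespace Pool.Agent.Lib.MP_5854e1_co.Cz

open Pool.Agent.Lib.MP_5854e1_co PB

theorem ytv2853 : DT.all (wzR cT Cz.tj Cz.tp Cz.tv) Cz.tv2853 = true := by decide +kernel

theorem ytv2854 : DT.all (wzR cT Cz.tj Cz.tp Cz.tv) Cz.tv2854 = true := by decide +kernel

theorem ytv2855 : DT.all (wzR cT Cz.tj Cz.tp Cz.tv) Cz.tv2855 = true := by decide +kernel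

theorem ytv2856 : DT.all (wzR cT Cz.tj Cz.tp Cz.tv) Cz.tv2856 = true := by decide +kernel

theorem ytv2857 : DT.all (wzR cT Cz.tj Cz.tp Cz.tv) Cz.tv2857 = true := by decide +kernel

theorem ytv2858 : DT.all (wzR cT Cz.tj Cz.tp Cz.tv) Cz.tv2858 = true := by decide +kernel

theorem ytv2859 : DT.all (wzR cT Cz.tj Cz.tp Cz.tv) Cz.tv2859 = true := by decide +kernel

theorem ytv2860 : DT.all (wzR cT Cz.tj Cz.tp Cz.tv) Cz.tv2860 = true := by decide +kernel

theorem ytv2861 : DT.all (wzR cT Cz.tj Cz.tp Cz.tv) Cz.tv2861 = true := by decide +kernel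


end Pool.Agent.Lib.MP_5854e1_co.Cz
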