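import Pool.Agent.Lib.MP_5854e1_co.Cz.P

/-!
# The rows of the rings
-/

set_option autoImplicit false
set_option maxRecDepth 100000
set_option deprecated.oldSectionVars true

namespace Pool.Agent.Lib.MP_5854e1_co.Cz

open Pool.Agent.Lib.MP_5854e1_co PB

theorem ytv2862 : DT.all (wzR cT Cz.tj Cz.tp Cz.tv) Cz.tv2862 = true := by decide +kernel

theorem ytv2863 : DT.all (wzR cT Cz.tj Cz.tp Cz.tv) Cz.tv2863 = true := by decide +kernel

theorem ytv2864 : DT.all (wzR cT Cz.tj Cz.tp Cz.tv) Cz.tv2864 = true := by decide +kernel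

theorem ytv2865 : DT.all (wzR cT Cz.tj Cz.tp Cz.tv) Cz.tv2865 = true := by decide +kernel

theorem ytv2866 : DT.all (wzR cT Cz.tj Cz.tp Cz.tv) Cz.tv2866 = true := by decide +kernel

theorem ytv2867 : DT.all (wzR cT Cz.tj Cz.tp Cz.tv) Cz.tv2867 = true := by decide +kernel

theorem ytv2868 : DT.all (wzR cT Cz.tj Cz.tp Cz.tv) Cz.tv2868 = true := by decide +kernel

theorem ytv2869 : DT.all (wzR cT Cz.tj Cz.tp Cz.tv) Cz.tv2869 = true := by decide +kernel

theorem ytv2870 : DT.all (wzR cT Cz.tj Cz.tp Cz.tv) Cz.tv2870 = true := by decide +kernel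


end Pool.Agent.Lib.MP_5854e1_co.Cz

namespace Pool.Agent.Lib.MP_5854e1_co.Cz

open Pool.Agent.Lib.MP_5854e1_co PB

theorem ytv3396 : DT.all (wzR cT Cz.tj Cz.tp Cz.tv) Cz.tv3396 = true := by decide +kernel

theorem ytv3397 : DT.all (wzR cT Cz.tj Cz.tp Cz.tv) Cz.tv3397 = true := by decide +kernel

theorem ytv3398 : DT.all (wzR cT Cz.tj Cz.tp Cz.tv) Cz.tv3398 = true := by decide +kernel

theorem ytv3399 : DT.all (wzR cT Cz.tj Cz.tp Cz.tv) Cz.tv3399 = true := by decide +kernel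

theorem ytv3400 : DT.all (wzR cT Cz.tj Cz.tp Cz.tv) Cz.tv3400 = true := by decide +kernel

theorem ytv3401 : DT.all (wzR cT Cz.tj Cz.tp Cz.tv) Cz.tv3401 = true := by decide +kernel

theorem ytv3402 : DT.all (wzR cT Cz.tj Cz.tp Cz.tv) Cz.tv3402 = true := by decide +kernel

theorem ytv3403 : DT.all (wzR cT Cz.tj Cz.tp Cz.tv) Cz.tv3403 = true := by decide +kernel


end Pool.Agent.Lib.MP_5854e1_co.Cz
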