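import Pool.Agent.Lib.MP_5854e1_co.Cz.P

/-!
# The rows of the rings
-/

set_option autoImplicit false
set_option maxRecDepth 100000
set_option deprecated.oldSectionVars true

namespace Pool.Agent.Lib.MP_5854e1_co.Cz

open Pool.Agent.Lib.MP_5854e1_co PB

theorem ytv2888 : DT.all (wzR cT Cz.tj Cz.tp Cz.tv) Cz.tv2888 = true := by decide +kernel

theorem ytv2889 : DT.all (wzR cT Cz.tj Cz.tp Cz.tv) Cz.tv2889 = true := by decide +kernel

theorem ytv2890 : DT.all (wzR cT Cz.tj Cz.tp Cz.tv) Cz.tv2890 = true := by decide +kernel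

theorem ytv2891 : DT.all (wzR cT Cz.tj Cz.tp Cz.tv) Cz.tv2891 = true := by decide +kernel

theorem ytv2892 : DT.all (wzR cT Cz.tj Cz.tp Cz.tv) Cz.tv2892 = true := by decide +kernel

theorem ytv2893 : DT.all (wzR cT Cz.tj Cz.tp Cz.tv) Cz.tv2893 = true := by decide +kernel

theorem ytv2894 : DT.all (wzR cT Cz.tj Cz.tp Cz.tv) Cz.tv2894 = true := by decide +kernel

theorem ytv2895 : DT.all (wzR cT Cz.tj Cz.tp Cz.tv) Cz.tv2895 = true := by decide +kernel


end Pool.Agent.Lib.MP_5854e1_co.Cz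

namespace Pool.Agent.Lib.MP_5854e1_co.Cz

open Pool.Agent.Lib.MP_5854e1_co PB

theorem ytv3316 : DT.all (wzR cT Cz.tj Cz.tp Cz.tv) Cz.tv3316 = true := by decide +kernel

theorem ytv3317 : DT.all (wzR cT Cz.tj Cz.tp Cz.tv) Cz.tv3317 = true := by decide +kernel

theorem ytv3318 : DT.all (wzR cT Cz.tj Cz.tp Cz.tv) Cz.tv3318 = true := by decide +kernel

theorem ytv3319 : DT.all (wzR cT Cz.tj Cz.tp Cz.tv) Cz.tv3319 = true := by decide +kernel

theorem ytv3320 : DT.all (wzR cT Cz.tj Cz.tp Cz.tv) Cz.tv3320 = true := by decide +kernel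

theorem ytv3321 : DT.all (wzR cT Cz.tj Cz.tp Cz.tv) Cz.tv3321 = true := by decide +kernel

theorem ytv3322 : DT.all (wzR cT Cz.tj Cz.tp Cz.tv) Cz.tv3322 = true := by decide +kernel

theorem ytv3323 : DT.all (wzR cT Cz.tj Cz.tp Cz.tv) Cz.tv3323 = true := by decide +kernel


end Pool.Agent.Lib.MP_5854e1_co.Cz
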