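import Pool.Agent.Lib.MP_5854e1_co.Cz.P

/-!
# The rows of the rings
-/

set_option autoImplicit false
set_option maxRecDepth 100000
set_option deprecated.oldSectionVars true

namespace Pool.Agent.Lib.MP_5854e1_co.Cz

open Pool.Agent.Lib.MP_5854e1_co PB

theorem ytv2921 : DT.all (wzR cT Cz.tj Cz.tp Cz.tv) Cz.tv2921 = true := by decide +kernel

theorem ytv2922 : DT.all (wzR cT Cz.tj Cz.tp Cz.tv) Cz.tv2922 = true := by decide +kernel

theorem ytv2923 : DT.all (wzR cT Cz.tj Cz.tp Cz.tv) Cz.tv2923 = true := by decide +kernel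

theorem ytv2924 : DT.all (wzR cT Cz.tj Cz.tp Cz.tv) Cz.tv2924 = true := by decide +kernel

theorem ytv2925 : DT.all (wzR cT Cz.tj Cz.tp Cz.tv) Cz.tv2925 = true := by decide +kernel

theorem ytv2926 : DT.all (wzR cT Cz.tj Cz.tp Cz.tv) Cz.tv2926 = true := by decide +kernel

theorem ytv2927 : DT.all (wzR cT Cz.tj Cz.tp Cz.tv) Cz.tv2927 = true := by decide +kernel

theorem ytv2928 : DT.all (wzR cT Cz.tj Cz.tp Cz.tv) Cz.tv2928 = true := by decide +kernel

theorem ytv2929 : DT.all (wzR cT Cz.tj Cz.tp Cz.tv) Cz.tv2929 = true := by decide +kernel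


end Pool.Agent.Lib.MP_5854e1_co.Cz

namespace Pool.Agent.Lib.MP_5854e1_co.Cz

open Pool.Agent.Lib.MP_5854e1_co PB

theorem ytv4889 : DT.all (wzR cT Cz.tj Cz.tp Cz.tv) Cz.tv4889 = true := by decide +kernel

theorem ytv4890 : DT.all (wzR cT Cz.tj Cz.tp Cz.tv) Cz.tv4890 = true := by decide +kernel

theorem ytv4891 : DT.all (wzR cT Cz.tj Cz.tp Cz.tv) Cz.tv4891 = true := by decide +kernel

theorem ytv4892 : DT.all (wzR cT Cz.tj Cz.tp Cz.tv) Cz.tv4892 = true := by decide +kernel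

theorem ytv4893 : DT.all (wzR cT Cz.tj Cz.tp Cz.tv) Cz.tv4893 = true := by decide +kernel

theorem ytv4894 : DT.all (wzR cT Cz.tj Cz.tp Cz.tv) Cz.tv4894 = true := by decide +kernel

theorem ytv4895 : DT.all (wzR cT Cz.tj Cz.tp Cz.tv) Cz.tv4895 = true := by decide +kernel

theorem ytv4896 : DT.all (wzR cT Cz.tj Cz.tp Cz.tv) Cz.tv4896 = true := by decide +kernel

theorem ytv4897 : DT.all (wzR cT Cz.tj Cz.tp Cz.tv) Cz.tv4897 = true := by decide +kernel


end Pool.Agent.Lib.MP_5854e1_co.Cz
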