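import Pool.Agent.Lib.MP_5854e1_co.Cz.P

/-!
# The rows of the rings
-/

set_option autoImplicit false
set_option maxRecDepth 100000
set_option deprecated.oldSectionVars true

namespace Pool.Agent.Lib.MP_5854e1_co.Cz

open Pool.Agent.Lib.MP_5854e1_co PB

theorem ytv2947 : DT.all (wzR cT Cz.tj Cz.tp Cz.tv) Cz.tv2947 = true := by decide +kernel

theorem ytv2948 : DT.all (wzR cT Cz.tj Cz.tp Cz.tv) Cz.tv2948 = true := by decide +kernel

theorem ytv2949 : DT.all (wzR cT Cz.tj Cz.tp Cz.tv) Cz.tv2949 = true := by decide +kernel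

theorem ytv2950 : DT.all (wzR cT Cz.tj Cz.tp Cz.tv) Cz.tv2950 = true := by decide +kernel

theorem ytv2951 : DT.all (wzR cT Cz.tj Cz.tp Cz.tv) Cz.tv2951 = true := by decide +kernel

theorem ytv2952 : DT.all (wzR cT Cz.tj Cz.tp Cz.tv) Cz.tv2952 = true := by decide +kernel

theorem ytv2953 : DT.all (wzR cT Cz.tj Cz.tp Cz.tv) Cz.tv2953 = true := by decide +kernel

theorem ytv2954 : DT.all (wzR cT Cz.tj Cz.tp Cz.tv) Cz.tv2954 = true := by decide +kernel

theorem ytv2955 : DT.all (wzR cT Cz.tj Cz.tp Cz.tv) Cz.tv2955 = true := by decide +kernel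

theorem ytv2956 : DT.all (wzR cT Cz.tj Cz.tp Cz.tv) Cz.tv2956 = true := by decide +kernel


end Pool.Agent.Lib.MP_5854e1_co.Cz

namespace Pool.Agent.Lib.MP_5854e1_co.Cz

open Pool.Agent.Lib.MP_5854e1_co PB

theorem ytv3356 : DT.all (wzR cT Cz.tj Cz.tp Cz.tv) Cz.tv3356 = true := by decide +kernel

theorem ytv3357 : DT.all (wzR cT Cz.tj Cz.tp Cz.tv) Cz.tv3357 = true := by decide +kernel

theorem ytv3358 : DT.all (wzR cT Cz.tj Cz.tp Cz.tv) Cz.tv3358 = true := by decide +kernel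

theorem ytv3359 : DT.all (wzR cT Cz.tj Cz.tp Cz.tv) Cz.tv3359 = true := by decide +kernel

theorem ytv3360 : DT.all (wzR cT Cz.tj Cz.tp Cz.tv) Cz.tv3360 = true := by decide +kernel

theorem ytv3361 : DT.all (wzR cT Cz.tj Cz.tp Cz.tv) Cz.tv3361 = true := by decide +kernel

theorem ytv3362 : DT.all (wzR cT Cz.tj Cz.tp Cz.tv) Cz.tv3362 = true := by decide +kernel

theorem ytv3363 : DT.all (wzR cT Cz.tj Cz.tp Cz.tv) Cz.tv3363 = true := by decide +kernel


end Pool.Agent.Lib.MP_5854e1_co.Cz
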