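import Pool.Agent.Lib.MP_5854e1_co.Cz.P

/-!
# The rows of the rings
-/

set_option autoImplicit false
set_option maxRecDepth 100000
set_option deprecated.oldSectionVars true

namespace Pool.Agent.Lib.MP_5854e1_co.Cz

open Pool.Agent.Lib.MP_5854e1_co PB

theorem ytv295 : DT.all (wzR cT Cz.tj Cz.tp Cz.tv) Cz.tv295 = true := by decide +kernel

theorem ytv296 : DT.all (wzR cT Cz.tj Cz.tp Cz.tv) Cz.tv296 = true := by decide +kernel

theorem ytv297 : DT.all (wzR cT Cz.tj Cz.tp Cz.tv) Cz.tv297 = true := by decide +kernel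

theorem ytv298 : DT.all (wzR cT Cz.tj Cz.tp Cz.tv) Cz.tv298 = true := by decide +kernel

theorem ytv299 : DT.all (wzR cT Cz.tj Cz.tp Cz.tv) Cz.tv299 = true := by decide +kernel

theorem ytv300 : DT.all (wzR cT Cz.tj Cz.tp Cz.tv) Cz.tv300 = true := by decide +kernel

theorem ytv301 : DT.all (wzR cT Cz.tj Cz.tp Cz.tv) Cz.tv301 = true := by decide +kernel


end Pool.Agent.Lib.MP_5854e1_co.Cz

namespace Pool.Agent.Lib.MP_5854e1_co.Cz

open Pool.Agent.Lib.MP_5854e1_co PB

theorem ytv1680 : DT.all (wzR cT Cz.tj Cz.tp Cz.tv) Cz.tv1680 = true := by decide +kernel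

theorem ytv1681 : DT.all (wzR cT Cz.tj Cz.tp Cz.tv) Cz.tv1681 = true := by decide +kernel

theorem ytv1682 : DT.all (wzR cT Cz.tj Cz.tp Cz.tv) Cz.tv1682 = true := by decide +kernel

theorem ytv1683 : DT.all (wzR cT Cz.tj Cz.tp Cz.tv) Cz.tv1683 = true := by decide +kernel

theorem ytv1684 : DT.all (wzR cT Cz.tj Cz.tp Cz.tv) Cz.tv1684 = true := by decide +kernel


end Pool.Agent.Lib.MP_5854e1_co.Cz
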