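import Pool.Agent.Lib.MP_5854e1_co.Cz.P

/-!
# The rows of the rings
-/

set_option autoImplicit false
set_option maxRecDepth 100000
set_option deprecated.oldSectionVars true

namespace Pool.Agent.Lib.MP_5854e1_co.Cz

open Pool.Agent.Lib.MP_5854e1_co PB

theorem ytv2991 : DT.all (wzR cT Cz.tj Cz.tp Cz.tv) Cz.tv2991 = true := by decide +kernel

theorem ytv2992 : DT.all (wzR cT Cz.tj Cz.tp Cz.tv) Cz.tv2992 = true := by decide +kernel

theorem ytv2993 : DT.all (wzR cT Cz.tj Cz.tp Cz.tv) Cz.tv2993 = true := by decide +kernel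

theorem ytv2994 : DT.all (wzR cT Cz.tj Cz.tp Cz.tv) Cz.tv2994 = true := by decide +kernel

theorem ytv2995 : DT.all (wzR cT Cz.tj Cz.tp Cz.tv) Cz.tv2995 = true := by decide +kernel

theorem ytv2996 : DT.all (wzR cT Cz.tj Cz.tp Cz.tv) Cz.tv2996 = true := by decide +kernel

theorem ytv2997 : DT.all (wzR cT Cz.tj Cz.tp Cz.tv) Cz.tv2997 = true := by decide +kernel

theorem ytv2998 : DT.all (wzR cT Cz.tj Cz.tp Cz.tv) Cz.tv2998 = true := by decide +kernel


end Pool.Agent.Lib.MP_5854e1_co.Cz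

namespace Pool.Agent.Lib.MP_5854e1_co.Cz

open Pool.Agent.Lib.MP_5854e1_co PB

theorem ytv3298 : DT.all (wzR cT Cz.tj Cz.tp Cz.tv) Cz.tv3298 = true := by decide +kernel

theorem ytv3299 : DT.all (wzR cT Cz.tj Cz.tp Cz.tv) Cz.tv3299 = true := by decide +kernel

theorem ytv3300 : DT.all (wzR cT Cz.tj Cz.tp Cz.tv) Cz.tv3300 = true := by decide +kernel

theorem ytv3301 : DT.all (wzR cT Cz.tj Cz.tp Cz.tv) Cz.tv3301 = true := by decide +kernel

theorem ytv3302 : DT.all (wzR cT Cz.tj Cz.tp Cz.tv) Cz.tv3302 = true := by decide +kernel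

theorem ytv3303 : DT.all (wzR cT Cz.tj Cz.tp Cz.tv) Cz.tv3303 = true := by decide +kernel

theorem ytv3304 : DT.all (wzR cT Cz.tj Cz.tp Cz.tv) Cz.tv3304 = true := by decide +kernel

theorem ytv3305 : DT.all (wzR cT Cz.tj Cz.tp Cz.tv) Cz.tv3305 = true := by decide +kernel

theorem ytv3306 : DT.all (wzR cT Cz.tj Cz.tp Cz.tv) Cz.tv3306 = true := by decide +kernel


end Pool.Agent.Lib.MP_5854e1_co.Cz
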