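import Pool.Agent.Lib.MP_5854e1_co.Cz.P

/-!
# The rows of the rings
-/

set_option autoImplicit false
set_option maxRecDepth 100000
set_option deprecated.oldSectionVars true

namespace Pool.Agent.Lib.MP_5854e1_co.Cz

open Pool.Agent.Lib.MP_5854e1_co PB

theorem ytv3009 : DT.all (wzR cT Cz.tj Cz.tp Cz.tv) Cz.tv3009 = true := by decide +kernel

theorem ytv3010 : DT.all (wzR cT Cz.tj Cz.tp Cz.tv) Cz.tv3010 = true := by decide +kernel

theorem ytv3011 : DT.all (wzR cT Cz.tj Cz.tp Cz.tv) Cz.tv3011 = true := by decide +kernel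

theorem ytv3012 : DT.all (wzR cT Cz.tj Cz.tp Cz.tv) Cz.tv3012 = true := by decide +kernel

theorem ytv3013 : DT.all (wzR cT Cz.tj Cz.tp Cz.tv) Cz.tv3013 = true := by decide +kernel

theorem ytv3014 : DT.all (wzR cT Cz.tj Cz.tp Cz.tv) Cz.tv3014 = true := by decide +kernel

theorem ytv3015 : DT.all (wzR cT Cz.tj Cz.tp Cz.tv) Cz.tv3015 = true := by decide +kernel

theorem ytv3016 : DT.all (wzR cT Cz.tj Cz.tp Cz.tv) Cz.tv3016 = true := by decide +kernel

theorem ytv3017 : DT.all (wzR cT Cz.tj Cz.tp Cz.tv) Cz.tv3017 = true := by decide +kernel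


end Pool.Agent.Lib.MP_5854e1_co.Cz

namespace Pool.Agent.Lib.MP_5854e1_co.Cz

open Pool.Agent.Lib.MP_5854e1_co PB

theorem ytv4665 : DT.all (wzR cT Cz.tj Cz.tp Cz.tv) Cz.tv4665 = true := by decide +kernel

theorem ytv4666 : DT.all (wzR cT Cz.tj Cz.tp Cz.tv) Cz.tv4666 = true := by decide +kernel

theorem ytv4667 : DT.all (wzR cT Cz.tj Cz.tp Cz.tv) Cz.tv4667 = true := by decide +kernel

theorem ytv4668 : DT.all (wzR cT Cz.tj Cz.tp Cz.tv) Cz.tv4668 = true := by decide +kernel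

theorem ytv4669 : DT.all (wzR cT Cz.tj Cz.tp Cz.tv) Cz.tv4669 = true := by decide +kernel

theorem ytv4670 : DT.all (wzR cT Cz.tj Cz.tp Cz.tv) Cz.tv4670 = true := by decide +kernel

theorem ytv4671 : DT.all (wzR cT Cz.tj Cz.tp Cz.tv) Cz.tv4671 = true := by decide +kernel

theorem ytv4672 : DT.all (wzR cT Cz.tj Cz.tp Cz.tv) Cz.tv4672 = true := by decide +kernel

theorem ytv4673 : DT.all (wzR cT Cz.tj Cz.tp Cz.tv) Cz.tv4673 = true := by decide +kernel


end Pool.Agent.Lib.MP_5854e1_co.Cz
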