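import Pool.Agent.Lib.MP_5854e1_co.Cz.P

/-!
# The rows of the rings
-/

set_option autoImplicit false
set_option maxRecDepth 100000
set_option deprecated.oldSectionVars true

namespace Pool.Agent.Lib.MP_5854e1_co.Cz

open Pool.Agent.Lib.MP_5854e1_co PB

theorem ytv3026 : DT.all (wzR cT Cz.tj Cz.tp Cz.tv) Cz.tv3026 = true := by decide +kernel

theorem ytv3027 : DT.all (wzR cT Cz.tj Cz.tp Cz.tv) Cz.tv3027 = true := by decide +kernel

theorem ytv3028 : DT.all (wzR cT Cz.tj Cz.tp Cz.tv) Cz.tv3028 = true := by decide +kernel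

theorem ytv3029 : DT.all (wzR cT Cz.tj Cz.tp Cz.tv) Cz.tv3029 = true := by decide +kernel


end Pool.Agent.Lib.MP_5854e1_co.Cz

namespace Pool.Agent.Lib.MP_5854e1_co.Cz

open Pool.Agent.Lib.MP_5854e1_co PB

theorem ytv4706 : DT.all (wzR cT Cz.tj Cz.tp Cz.tv) Cz.tv4706 = true := by decide +kernel

theorem ytv4707 : DT.all (wzR cT Cz.tj Cz.tp Cz.tv) Cz.tv4707 = true := by decide +kernel

theorem ytv4708 : DT.all (wzR cT Cz.tj Cz.tp Cz.tv) Cz.tv4708 = true := by decide +kernel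

theorem ytv4709 : DT.all (wzR cT Cz.tj Cz.tp Cz.tv) Cz.tv4709 = true := by decide +kernel


end Pool.Agent.Lib.MP_5854e1_co.Cz
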