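import Pool.Agent.Lib.MP_5854e1_co.Cz.P

/-!
# The rows of the rings
-/

set_option autoImplicit false
set_option maxRecDepth 100000
set_option deprecated.oldSectionVars true

namespace Pool.Agent.Lib.MP_5854e1_co.Cz

open Pool.Agent.Lib.MP_5854e1_co PB

theorem ytv3035 : DT.all (wzR cT Cz.tj Cz.tp Cz.tv) Cz.tv3035 = true := by decide +kernel

theorem ytv3036 : DT.all (wzR cT Cz.tj Cz.tp Cz.tv) Cz.tv3036 = true := by decide +kernel

theorem ytv3037 : DT.all (wzR cT Cz.tj Cz.tp Cz.tv) Cz.tv3037 = true := by decide +kernel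

theorem ytv3038 : DT.all (wzR cT Cz.tj Cz.tp Cz.tv) Cz.tv3038 = true := by decide +kernel

theorem ytv3039 : DT.all (wzR cT Cz.tj Cz.tp Cz.tv) Cz.tv3039 = true := by decide +kernel

theorem ytv3040 : DT.all (wzR cT Cz.tj Cz.tp Cz.tv) Cz.tv3040 = true := by decide +kernel

theorem ytv3041 : DT.all (wzR cT Cz.tj Cz.tp Cz.tv) Cz.tv3041 = true := by decide +kernel

theorem ytv3042 : DT.all (wzR cT Cz.tj Cz.tp Cz.tv) Cz.tv3042 = true := by decide +kernel

theorem ytv3043 : DT.all (wzR cT Cz.tj Cz.tp Cz.tv) Cz.tv3043 = true := by decide +kernel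


end Pool.Agent.Lib.MP_5854e1_co.Cz
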