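import Pool.Agent.Lib.MP_5854e1_co.Cz.P

/-!
# The rows of the rings
-/

set_option autoImplicit false
set_option maxRecDepth 100000
set_option deprecated.oldSectionVars true

namespace Pool.Agent.Lib.MP_5854e1_co.Cz

open Pool.Agent.Lib.MP_5854e1_co PB

theorem ytv302 : DT.all (wzR cT Cz.tj Cz.tp Cz.tv) Cz.tv302 = true := by decide +kernel

theorem ytv303 : DT.all (wzR cT Cz.tj Cz.tp Cz.tv) Cz.tv303 = true := by decide +kernel

theorem ytv304 : DT.all (wzR cT Cz.tj Cz.tp Cz.tv) Cz.tv304 = true := by decide +kernel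

theorem ytv305 : DT.all (wzR cT Cz.tj Cz.tp Cz.tv) Cz.tv305 = true := by decide +kernel

theorem ytv306 : DT.all (wzR cT Cz.tj Cz.tp Cz.tv) Cz.tv306 = true := by decide +kernel

theorem ytv307 : DT.all (wzR cT Cz.tj Cz.tp Cz.tv) Cz.tv307 = true := by decide +kernel

theorem ytv308 : DT.all (wzR cT Cz.tj Cz.tp Cz.tv) Cz.tv308 = true := by decide +kernel

theorem ytv309 : DT.all (wzR cT Cz.tj Cz.tp Cz.tv) Cz.tv309 = true := by decide +kernel

theorem ytv310 : DT.all (wzR cT Cz.tj Cz.tp Cz.tv) Cz.tv310 = true := by decide +kernel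


end Pool.Agent.Lib.MP_5854e1_co.Cz

namespace Pool.Agent.Lib.MP_5854e1_co.Cz

open Pool.Agent.Lib.MP_5854e1_co PB

theorem ytv5034 : DT.all (wzR cT Cz.tj Cz.tp Cz.tv) Cz.tv5034 = true := by decide +kernel

theorem ytv5035 : DT.all (wzR cT Cz.tj Cz.tp Cz.tv) Cz.tv5035 = true := by decide +kernel

theorem ytv5036 : DT.all (wzR cT Cz.tj Cz.tp Cz.tv) Cz.tv5036 = true := by decide +kernel

theorem ytv5037 : DT.all (wzR cT Cz.tj Cz.tp Cz.tv) Cz.tv5037 = true := by decide +kernel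

theorem ytv5038 : DT.all (wzR cT Cz.tj Cz.tp Cz.tv) Cz.tv5038 = true := by decide +kernel

theorem ytv5039 : DT.all (wzR cT Cz.tj Cz.tp Cz.tv) Cz.tv5039 = true := by decide +kernel

theorem ytv5040 : DT.all (wzR cT Cz.tj Cz.tp Cz.tv) Cz.tv5040 = true := by decide +kernel

theorem ytv5041 : DT.all (wzR cT Cz.tj Cz.tp Cz.tv) Cz.tv5041 = true := by decide +kernel

theorem ytv5042 : DT.all (wzR cT Cz.tj Cz.tp Cz.tv) Cz.tv5042 = true := by decide +kernel


end Pool.Agent.Lib.MP_5854e1_co.Cz
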