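import Pool.Agent.Lib.MP_5854e1_co.Cz.P

/-!
# The rows of the rings
-/

set_option autoImplicit false
set_option maxRecDepth 100000
set_option deprecated.oldSectionVars true

namespace Pool.Agent.Lib.MP_5854e1_co.Cz

open Pool.Agent.Lib.MP_5854e1_co PB

theorem ytv3053 : DT.all (wzR cT Cz.tj Cz.tp Cz.tv) Cz.tv3053 = true := by decide +kernel

theorem ytv3054 : DT.all (wzR cT Cz.tj Cz.tp Cz.tv) Cz.tv3054 = true := by decide +kernel

theorem ytv3055 : DT.all (wzR cT Cz.tj Cz.tp Cz.tv) Cz.tv3055 = true := by decide +kernel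

theorem ytv3056 : DT.all (wzR cT Cz.tj Cz.tp Cz.tv) Cz.tv3056 = true := by decide +kernel

theorem ytv3057 : DT.all (wzR cT Cz.tj Cz.tp Cz.tv) Cz.tv3057 = true := by decide +kernel

theorem ytv3058 : DT.all (wzR cT Cz.tj Cz.tp Cz.tv) Cz.tv3058 = true := by decide +kernel

theorem ytv3059 : DT.all (wzR cT Cz.tj Cz.tp Cz.tv) Cz.tv3059 = true := by decide +kernel

theorem ytv3060 : DT.all (wzR cT Cz.tj Cz.tp Cz.tv) Cz.tv3060 = true := by decide +kernel

theorem ytv3061 : DT.all (wzR cT Cz.tj Cz.tp Cz.tv) Cz.tv3061 = true := by decide +kernel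

theorem ytv3062 : DT.all (wzR cT Cz.tj Cz.tp Cz.tv) Cz.tv3062 = true := by decide +kernel


end Pool.Agent.Lib.MP_5854e1_co.Cz
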