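import Pool.Agent.Lib.MP_5854e1_co.Cz.P

/-!
# The rows of the rings
-/

set_option autoImplicit false
set_option maxRecDepth 100000
set_option deprecated.oldSectionVars true

namespace Pool.Agent.Lib.MP_5854e1_co.Cz

open Pool.Agent.Lib.MP_5854e1_co PB

theorem ytv3079 : DT.all (wzR cT Cz.tj Cz.tp Cz.tv) Cz.tv3079 = true := by decide +kernel

theorem ytv3080 : DT.all (wzR cT Cz.tj Cz.tp Cz.tv) Cz.tv3080 = true := by decide +kernel

theorem ytv3081 : DT.all (wzR cT Cz.tj Cz.tp Cz.tv) Cz.tv3081 = true := by decide +kernel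

theorem ytv3082 : DT.all (wzR cT Cz.tj Cz.tp Cz.tv) Cz.tv3082 = true := by decide +kernel

theorem ytv3083 : DT.all (wzR cT Cz.tj Cz.tp Cz.tv) Cz.tv3083 = true := by decide +kernel

theorem ytv3084 : DT.all (wzR cT Cz.tj Cz.tp Cz.tv) Cz.tv3084 = true := by decide +kernel

theorem ytv3085 : DT.all (wzR cT Cz.tj Cz.tp Cz.tv) Cz.tv3085 = true := by decide +kernel

theorem ytv3086 : DT.all (wzR cT Cz.tj Cz.tp Cz.tv) Cz.tv3086 = true := by decide +kernel

theorem ytv3087 : DT.all (wzR cT Cz.tj Cz.tp Cz.tv) Cz.tv3087 = true := by decide +kernel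


end Pool.Agent.Lib.MP_5854e1_co.Cz

namespace Pool.Agent.Lib.MP_5854e1_co.Cz

open Pool.Agent.Lib.MP_5854e1_co PB

theorem ytv5280 : DT.all (wzR cT Cz.tj Cz.tp Cz.tv) Cz.tv5280 = true := by decide +kernel

theorem ytv5281 : DT.all (wzR cT Cz.tj Cz.tp Cz.tv) Cz.tv5281 = true := by decide +kernel

theorem ytv5282 : DT.all (wzR cT Cz.tj Cz.tp Cz.tv) Cz.tv5282 = true := by decide +kernel

theorem ytv5283 : DT.all (wzR cT Cz.tj Cz.tp Cz.tv) Cz.tv5283 = true := by decide +kernel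

theorem ytv5284 : DT.all (wzR cT Cz.tj Cz.tp Cz.tv) Cz.tv5284 = true := by decide +kernel

theorem ytv5285 : DT.all (wzR cT Cz.tj Cz.tp Cz.tv) Cz.tv5285 = true := by decide +kernel

theorem ytv5286 : DT.all (wzR cT Cz.tj Cz.tp Cz.tv) Cz.tv5286 = true := by decide +kernel

theorem ytv5287 : DT.all (wzR cT Cz.tj Cz.tp Cz.tv) Cz.tv5287 = true := by decide +kernel


end Pool.Agent.Lib.MP_5854e1_co.Cz
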