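import Pool.Agent.Lib.MP_5854e1_co.Cz.P

/-!
# The rows of the rings
-/

set_option autoImplicit false
set_option maxRecDepth 100000
set_option deprecated.oldSectionVars true

namespace Pool.Agent.Lib.MP_5854e1_co.Cz

open Pool.Agent.Lib.MP_5854e1_co PB

theorem ytv3088 : DT.all (wzR cT Cz.tj Cz.tp Cz.tv) Cz.tv3088 = true := by decide +kernel

theorem ytv3089 : DT.all (wzR cT Cz.tj Cz.tp Cz.tv) Cz.tv3089 = true := by decide +kernel

theorem ytv3090 : DT.all (wzR cT Cz.tj Cz.tp Cz.tv) Cz.tv3090 = true := by decide +kernel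

theorem ytv3091 : DT.all (wzR cT Cz.tj Cz.tp Cz.tv) Cz.tv3091 = true := by decide +kernel

theorem ytv3092 : DT.all (wzR cT Cz.tj Cz.tp Cz.tv) Cz.tv3092 = true := by decide +kernel

theorem ytv3093 : DT.all (wzR cT Cz.tj Cz.tp Cz.tv) Cz.tv3093 = true := by decide +kernel

theorem ytv3094 : DT.all (wzR cT Cz.tj Cz.tp Cz.tv) Cz.tv3094 = true := by decide +kernel

theorem ytv3095 : DT.all (wzR cT Cz.tj Cz.tp Cz.tv) Cz.tv3095 = true := by decide +kernel

theorem ytv3096 : DT.all (wzR cT Cz.tj Cz.tp Cz.tv) Cz.tv3096 = true := by decide +kernel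


end Pool.Agent.Lib.MP_5854e1_co.Cz

namespace Pool.Agent.Lib.MP_5854e1_co.Cz

open Pool.Agent.Lib.MP_5854e1_co PB

theorem ytv3205 : DT.all (wzR cT Cz.tj Cz.tp Cz.tv) Cz.tv3205 = true := by decide +kernel

theorem ytv3206 : DT.all (wzR cT Cz.tj Cz.tp Cz.tv) Cz.tv3206 = true := by decide +kernel

theorem ytv3207 : DT.all (wzR cT Cz.tj Cz.tp Cz.tv) Cz.tv3207 = true := by decide +kernel

theorem ytv3208 : DT.all (wzR cT Cz.tj Cz.tp Cz.tv) Cz.tv3208 = true := by decide +kernel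

theorem ytv3209 : DT.all (wzR cT Cz.tj Cz.tp Cz.tv) Cz.tv3209 = true := by decide +kernel

theorem ytv3210 : DT.all (wzR cT Cz.tj Cz.tp Cz.tv) Cz.tv3210 = true := by decide +kernel

theorem ytv3211 : DT.all (wzR cT Cz.tj Cz.tp Cz.tv) Cz.tv3211 = true := by decide +kernel

theorem ytv3212 : DT.all (wzR cT Cz.tj Cz.tp Cz.tv) Cz.tv3212 = true := by decide +kernel

theorem ytv3213 : DT.all (wzR cT Cz.tj Cz.tp Cz.tv) Cz.tv3213 = true := by decide +kernel


end Pool.Agent.Lib.MP_5854e1_co.Cz
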