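import Pool.Agent.Lib.MP_5854e1_co.Cz.P

/-!
# The rows of the rings
-/

set_option autoImplicit false
set_option maxRecDepth 100000
set_option deprecated.oldSectionVars true

namespace Pool.Agent.Lib.MP_5854e1_co.Cz

open Pool.Agent.Lib.MP_5854e1_co PB

theorem ytv3116 : DT.all (wzR cT Cz.tj Cz.tp Cz.tv) Cz.tv3116 = true := by decide +kernel

theorem ytv3117 : DT.all (wzR cT Cz.tj Cz.tp Cz.tv) Cz.tv3117 = true := by decide +kernel

theorem ytv3118 : DT.all (wzR cT Cz.tj Cz.tp Cz.tv) Cz.tv3118 = true := by decide +kernel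

theorem ytv3119 : DT.all (wzR cT Cz.tj Cz.tp Cz.tv) Cz.tv3119 = true := by decide +kernel

theorem ytv3120 : DT.all (wzR cT Cz.tj Cz.tp Cz.tv) Cz.tv3120 = true := by decide +kernel

theorem ytv3121 : DT.all (wzR cT Cz.tj Cz.tp Cz.tv) Cz.tv3121 = true := by decide +kernel

theorem ytv3122 : DT.all (wzR cT Cz.tj Cz.tp Cz.tv) Cz.tv3122 = true := by decide +kernel

theorem ytv3123 : DT.all (wzR cT Cz.tj Cz.tp Cz.tv) Cz.tv3123 = true := by decide +kernel

theorem ytv3124 : DT.all (wzR cT Cz.tj Cz.tp Cz.tv) Cz.tv3124 = true := by decide +kernel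


end Pool.Agent.Lib.MP_5854e1_co.Cz
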