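import Pool.Agent.Lib.MP_5854e1_co.Cz.P

/-!
# The rows of the rings
-/

set_option autoImplicit false
set_option maxRecDepth 100000
set_option deprecated.oldSectionVars true

namespace Pool.Agent.Lib.MP_5854e1_co.Cz

open Pool.Agent.Lib.MP_5854e1_co PB

theorem ytv3125 : DT.all (wzR cT Cz.tj Cz.tp Cz.tv) Cz.tv3125 = true := by decide +kernel

theorem ytv3126 : DT.all (wzR cT Cz.tj Cz.tp Cz.tv) Cz.tv3126 = true := by decide +kernel

theorem ytv3127 : DT.all (wzR cT Cz.tj Cz.tp Cz.tv) Cz.tv3127 = true := by decide +kernel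

theorem ytv3128 : DT.all (wzR cT Cz.tj Cz.tp Cz.tv) Cz.tv3128 = true := by decide +kernel

theorem ytv3129 : DT.all (wzR cT Cz.tj Cz.tp Cz.tv) Cz.tv3129 = true := by decide +kernel

theorem ytv3130 : DT.all (wzR cT Cz.tj Cz.tp Cz.tv) Cz.tv3130 = true := by decide +kernel

theorem ytv3131 : DT.all (wzR cT Cz.tj Cz.tp Cz.tv) Cz.tv3131 = true := by decide +kernel

theorem ytv3132 : DT.all (wzR cT Cz.tj Cz.tp Cz.tv) Cz.tv3132 = true := by decide +kernel

theorem ytv3133 : DT.all (wzR cT Cz.tj Cz.tp Cz.tv) Cz.tv3133 = true := by decide +kernel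

theorem ytv3134 : DT.all (wzR cT Cz.tj Cz.tp Cz.tv) Cz.tv3134 = true := by decide +kernel


end Pool.Agent.Lib.MP_5854e1_co.Cz

namespace Pool.Agent.Lib.MP_5854e1_co.Cz

open Pool.Agent.Lib.MP_5854e1_co PB

theorem ytv5231 : DT.all (wzR cT Cz.tj Cz.tp Cz.tv) Cz.tv5231 = true := by decide +kernel

theorem ytv5232 : DT.all (wzR cT Cz.tj Cz.tp Cz.tv) Cz.tv5232 = true := by decide +kernel

theorem ytv5233 : DT.all (wzR cT Cz.tj Cz.tp Cz.tv) Cz.tv5233 = true := by decide +kernel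

theorem ytv5234 : DT.all (wzR cT Cz.tj Cz.tp Cz.tv) Cz.tv5234 = true := by decide +kernel

theorem ytv5235 : DT.all (wzR cT Cz.tj Cz.tp Cz.tv) Cz.tv5235 = true := by decide +kernel

theorem ytv5236 : DT.all (wzR cT Cz.tj Cz.tp Cz.tv) Cz.tv5236 = true := by decide +kernel

theorem ytv5237 : DT.all (wzR cT Cz.tj Cz.tp Cz.tv) Cz.tv5237 = true := by decide +kernel

theorem ytv5238 : DT.all (wzR cT Cz.tj Cz.tp Cz.tv) Cz.tv5238 = true := by decide +kernel


end Pool.Agent.Lib.MP_5854e1_co.Cz
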