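import Pool.Agent.Lib.MP_5854e1_co.Cz.P

/-!
# The rows of the rings
-/

set_option autoImplicit false
set_option maxRecDepth 100000
set_option deprecated.oldSectionVars true

namespace Pool.Agent.Lib.MP_5854e1_co.Cz

open Pool.Agent.Lib.MP_5854e1_co PB

theorem ytv311 : DT.all (wzR cT Cz.tj Cz.tp Cz.tv) Cz.tv311 = true := by decide +kernel

theorem ytv312 : DT.all (wzR cT Cz.tj Cz.tp Cz.tv) Cz.tv312 = true := by decide +kernel

theorem ytv313 : DT.all (wzR cT Cz.tj Cz.tp Cz.tv) Cz.tv313 = true := by decide +kernel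

theorem ytv314 : DT.all (wzR cT Cz.tj Cz.tp Cz.tv) Cz.tv314 = true := by decide +kernel

theorem ytv315 : DT.all (wzR cT Cz.tj Cz.tp Cz.tv) Cz.tv315 = true := by decide +kernel

theorem ytv316 : DT.all (wzR cT Cz.tj Cz.tp Cz.tv) Cz.tv316 = true := by decide +kernel

theorem ytv317 : DT.all (wzR cT Cz.tj Cz.tp Cz.tv) Cz.tv317 = true := by decide +kernel

theorem ytv318 : DT.all (wzR cT Cz.tj Cz.tp Cz.tv) Cz.tv318 = true := by decide +kernel


end Pool.Agent.Lib.MP_5854e1_co.Cz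

namespace Pool.Agent.Lib.MP_5854e1_co.Cz

open Pool.Agent.Lib.MP_5854e1_co PB

theorem ytv1886 : DT.all (wzR cT Cz.tj Cz.tp Cz.tv) Cz.tv1886 = true := by decide +kernel

theorem ytv1887 : DT.all (wzR cT Cz.tj Cz.tp Cz.tv) Cz.tv1887 = true := by decide +kernel

theorem ytv1888 : DT.all (wzR cT Cz.tj Cz.tp Cz.tv) Cz.tv1888 = true := by decide +kernel

theorem ytv1889 : DT.all (wzR cT Cz.tj Cz.tp Cz.tv) Cz.tv1889 = true := by decide +kernel

theorem ytv1890 : DT.all (wzR cT Cz.tj Cz.tp Cz.tv) Cz.tv1890 = true := by decide +kernel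

theorem ytv1891 : DT.all (wzR cT Cz.tj Cz.tp Cz.tv) Cz.tv1891 = true := by decide +kernel

theorem ytv1892 : DT.all (wzR cT Cz.tj Cz.tp Cz.tv) Cz.tv1892 = true := by decide +kernel

theorem ytv1893 : DT.all (wzR cT Cz.tj Cz.tp Cz.tv) Cz.tv1893 = true := by decide +kernel

theorem ytv1894 : DT.all (wzR cT Cz.tj Cz.tp Cz.tv) Cz.tv1894 = true := by decide +kernel


end Pool.Agent.Lib.MP_5854e1_co.Cz
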