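import Pool.Agent.Lib.MP_5854e1_co.Cz.P

/-!
# The rows of the rings
-/

set_option autoImplicit false
set_option maxRecDepth 100000
set_option deprecated.oldSectionVars true

namespace Pool.Agent.Lib.MP_5854e1_co.Cz

open Pool.Agent.Lib.MP_5854e1_co PB

theorem ytv3143 : DT.all (wzR cT Cz.tj Cz.tp Cz.tv) Cz.tv3143 = true := by decide +kernel

theorem ytv3144 : DT.all (wzR cT Cz.tj Cz.tp Cz.tv) Cz.tv3144 = true := by decide +kernel

theorem ytv3145 : DT.all (wzR cT Cz.tj Cz.tp Cz.tv) Cz.tv3145 = true := by decide +kernel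

theorem ytv3146 : DT.all (wzR cT Cz.tj Cz.tp Cz.tv) Cz.tv3146 = true := by decide +kernel

theorem ytv3147 : DT.all (wzR cT Cz.tj Cz.tp Cz.tv) Cz.tv3147 = true := by decide +kernel

theorem ytv3148 : DT.all (wzR cT Cz.tj Cz.tp Cz.tv) Cz.tv3148 = true := by decide +kernel

theorem ytv3149 : DT.all (wzR cT Cz.tj Cz.tp Cz.tv) Cz.tv3149 = true := by decide +kernel

theorem ytv3150 : DT.all (wzR cT Cz.tj Cz.tp Cz.tv) Cz.tv3150 = true := by decide +kernel


end Pool.Agent.Lib.MP_5854e1_co.Cz
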