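import Pool.Agent.Lib.MP_5854e1_co.Cz.P

/-!
# The rows of the rings
-/

set_option autoImplicit false
set_option maxRecDepth 100000
set_option deprecated.oldSectionVars true

namespace Pool.Agent.Lib.MP_5854e1_co.Cz

open Pool.Agent.Lib.MP_5854e1_co PB

theorem ytv3151 : DT.all (wzR cT Cz.tj Cz.tp Cz.tv) Cz.tv3151 = true := by decide +kernel

theorem ytv3152 : DT.all (wzR cT Cz.tj Cz.tp Cz.tv) Cz.tv3152 = true := by decide +kernel

theorem ytv3153 : DT.all (wzR cT Cz.tj Cz.tp Cz.tv) Cz.tv3153 = true := by decide +kernel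

theorem ytv3154 : DT.all (wzR cT Cz.tj Cz.tp Cz.tv) Cz.tv3154 = true := by decide +kernel

theorem ytv3155 : DT.all (wzR cT Cz.tj Cz.tp Cz.tv) Cz.tv3155 = true := by decide +kernel

theorem ytv3156 : DT.all (wzR cT Cz.tj Cz.tp Cz.tv) Cz.tv3156 = true := by decide +kernel

theorem ytv3157 : DT.all (wzR cT Cz.tj Cz.tp Cz.tv) Cz.tv3157 = true := by decide +kernel

theorem ytv3158 : DT.all (wzR cT Cz.tj Cz.tp Cz.tv) Cz.tv3158 = true := by decide +kernel

theorem ytv3159 : DT.all (wzR cT Cz.tj Cz.tp Cz.tv) Cz.tv3159 = true := by decide +kernel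


end Pool.Agent.Lib.MP_5854e1_co.Cz

namespace Pool.Agent.Lib.MP_5854e1_co.Cz

open Pool.Agent.Lib.MP_5854e1_co PB

theorem ytv4821 : DT.all (wzR cT Cz.tj Cz.tp Cz.tv) Cz.tv4821 = true := by decide +kernel

theorem ytv4822 : DT.all (wzR cT Cz.tj Cz.tp Cz.tv) Cz.tv4822 = true := by decide +kernel

theorem ytv4823 : DT.all (wzR cT Cz.tj Cz.tp Cz.tv) Cz.tv4823 = true := by decide +kernel

theorem ytv4824 : DT.all (wzR cT Cz.tj Cz.tp Cz.tv) Cz.tv4824 = true := by decide +kernel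


end Pool.Agent.Lib.MP_5854e1_co.Cz
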