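import Pool.Agent.Lib.MP_5854e1_co.Cz.P

/-!
# The rows of the rings
-/

set_option autoImplicit false
set_option maxRecDepth 100000
set_option deprecated.oldSectionVars true

namespace Pool.Agent.Lib.MP_5854e1_co.Cz

open Pool.Agent.Lib.MP_5854e1_co PB

theorem ytv3160 : DT.all (wzR cT Cz.tj Cz.tp Cz.tv) Cz.tv3160 = true := by decide +kernel

theorem ytv3161 : DT.all (wzR cT Cz.tj Cz.tp Cz.tv) Cz.tv3161 = true := by decide +kernel

theorem ytv3162 : DT.all (wzR cT Cz.tj Cz.tp Cz.tv) Cz.tv3162 = true := by decide +kernel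

theorem ytv3163 : DT.all (wzR cT Cz.tj Cz.tp Cz.tv) Cz.tv3163 = true := by decide +kernel

theorem ytv3164 : DT.all (wzR cT Cz.tj Cz.tp Cz.tv) Cz.tv3164 = true := by decide +kernel

theorem ytv3165 : DT.all (wzR cT Cz.tj Cz.tp Cz.tv) Cz.tv3165 = true := by decide +kernel

theorem ytv3166 : DT.all (wzR cT Cz.tj Cz.tp Cz.tv) Cz.tv3166 = true := by decide +kernel

theorem ytv3167 : DT.all (wzR cT Cz.tj Cz.tp Cz.tv) Cz.tv3167 = true := by decide +kernel


end Pool.Agent.Lib.MP_5854e1_co.Cz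

namespace Pool.Agent.Lib.MP_5854e1_co.Cz

open Pool.Agent.Lib.MP_5854e1_co PB

theorem ytv4242 : DT.all (wzR cT Cz.tj Cz.tp Cz.tv) Cz.tv4242 = true := by decide +kernel

theorem ytv4243 : DT.all (wzR cT Cz.tj Cz.tp Cz.tv) Cz.tv4243 = true := by decide +kernel

theorem ytv4244 : DT.all (wzR cT Cz.tj Cz.tp Cz.tv) Cz.tv4244 = true := by decide +kernel

theorem ytv4245 : DT.all (wzR cT Cz.tj Cz.tp Cz.tv) Cz.tv4245 = true := by decide +kernel

theorem ytv4246 : DT.all (wzR cT Cz.tj Cz.tp Cz.tv) Cz.tv4246 = true := by decide +kernel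

theorem ytv4247 : DT.all (wzR cT Cz.tj Cz.tp Cz.tv) Cz.tv4247 = true := by decide +kernel

theorem ytv4248 : DT.all (wzR cT Cz.tj Cz.tp Cz.tv) Cz.tv4248 = true := by decide +kernel

theorem ytv4249 : DT.all (wzR cT Cz.tj Cz.tp Cz.tv) Cz.tv4249 = true := by decide +kernel

theorem ytv4250 : DT.all (wzR cT Cz.tj Cz.tp Cz.tv) Cz.tv4250 = true := by decide +kernel

theorem ytv4251 : DT.all (wzR cT Cz.tj Cz.tp Cz.tv) Cz.tv4251 = true := by decide +kernel


end Pool.Agent.Lib.MP_5854e1_co.Cz
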