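import Pool.Agent.Lib.MP_5854e1_co.Cz.P

/-!
# The rows of the rings
-/

set_option autoImplicit false
set_option maxRecDepth 100000
set_option deprecated.oldSectionVars true

namespace Pool.Agent.Lib.MP_5854e1_co.Cz

open Pool.Agent.Lib.MP_5854e1_co PB

theorem ytv3183 : DT.all (wzR cT Cz.tj Cz.tp Cz.tv) Cz.tv3183 = true := by decide +kernel

theorem ytv3184 : DT.all (wzR cT Cz.tj Cz.tp Cz.tv) Cz.tv3184 = true := by decide +kernel

theorem ytv3185 : DT.all (wzR cT Cz.tj Cz.tp Cz.tv) Cz.tv3185 = true := by decide +kernel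

theorem ytv3186 : DT.all (wzR cT Cz.tj Cz.tp Cz.tv) Cz.tv3186 = true := by decide +kernel

theorem ytv3187 : DT.all (wzR cT Cz.tj Cz.tp Cz.tv) Cz.tv3187 = true := by decide +kernel

theorem ytv3188 : DT.all (wzR cT Cz.tj Cz.tp Cz.tv) Cz.tv3188 = true := by decide +kernel

theorem ytv3189 : DT.all (wzR cT Cz.tj Cz.tp Cz.tv) Cz.tv3189 = true := by decide +kernel

theorem ytv3190 : DT.all (wzR cT Cz.tj Cz.tp Cz.tv) Cz.tv3190 = true := by decide +kernel


end Pool.Agent.Lib.MP_5854e1_co.Cz
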