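import Pool.Agent.Lib.MP_5854e1_co.Cz.P

/-!
# The rows of the rings
-/

set_option autoImplicit false
set_option maxRecDepth 100000
set_option deprecated.oldSectionVars true

namespace Pool.Agent.Lib.MP_5854e1_co.Cz

open Pool.Agent.Lib.MP_5854e1_co PB

theorem ytv319 : DT.all (wzR cT Cz.tj Cz.tp Cz.tv) Cz.tv319 = true := by decide +kernel

theorem ytv320 : DT.all (wzR cT Cz.tj Cz.tp Cz.tv) Cz.tv320 = true := by decide +kernel

theorem ytv321 : DT.all (wzR cT Cz.tj Cz.tp Cz.tv) Cz.tv321 = true := by decide +kernel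

theorem ytv322 : DT.all (wzR cT Cz.tj Cz.tp Cz.tv) Cz.tv322 = true := by decide +kernel

theorem ytv323 : DT.all (wzR cT Cz.tj Cz.tp Cz.tv) Cz.tv323 = true := by decide +kernel

theorem ytv324 : DT.all (wzR cT Cz.tj Cz.tp Cz.tv) Cz.tv324 = true := by decide +kernel

theorem ytv325 : DT.all (wzR cT Cz.tj Cz.tp Cz.tv) Cz.tv325 = true := by decide +kernel

theorem ytv326 : DT.all (wzR cT Cz.tj Cz.tp Cz.tv) Cz.tv326 = true := by decide +kernel

theorem ytv327 : DT.all (wzR cT Cz.tj Cz.tp Cz.tv) Cz.tv327 = true := by decide +kernel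


end Pool.Agent.Lib.MP_5854e1_co.Cz

namespace Pool.Agent.Lib.MP_5854e1_co.Cz

open Pool.Agent.Lib.MP_5854e1_co PB

theorem ytv503 : DT.all (wzR cT Cz.tj Cz.tp Cz.tv) Cz.tv503 = true := by decide +kernel

theorem ytv504 : DT.all (wzR cT Cz.tj Cz.tp Cz.tv) Cz.tv504 = true := by decide +kernel

theorem ytv505 : DT.all (wzR cT Cz.tj Cz.tp Cz.tv) Cz.tv505 = true := by decide +kernel

theorem ytv506 : DT.all (wzR cT Cz.tj Cz.tp Cz.tv) Cz.tv506 = true := by decide +kernel

theorem ytv507 : DT.all (wzR cT Cz.tj Cz.tp Cz.tv) Cz.tv507 = true := by decide +kernel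

theorem ytv508 : DT.all (wzR cT Cz.tj Cz.tp Cz.tv) Cz.tv508 = true := by decide +kernel

theorem ytv509 : DT.all (wzR cT Cz.tj Cz.tp Cz.tv) Cz.tv509 = true := by decide +kernel


end Pool.Agent.Lib.MP_5854e1_co.Cz
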