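import Pool.Agent.Lib.MP_5854e1_co.Cz.P

/-!
# The rows of the rings
-/

set_option autoImplicit false
set_option maxRecDepth 100000
set_option deprecated.oldSectionVars true

namespace Pool.Agent.Lib.MP_5854e1_co.Cz

open Pool.Agent.Lib.MP_5854e1_co PB

theorem ytv3223 : DT.all (wzR cT Cz.tj Cz.tp Cz.tv) Cz.tv3223 = true := by decide +kernel

theorem ytv3224 : DT.all (wzR cT Cz.tj Cz.tp Cz.tv) Cz.tv3224 = true := by decide +kernel

theorem ytv3225 : DT.all (wzR cT Cz.tj Cz.tp Cz.tv) Cz.tv3225 = true := by decide +kernel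

theorem ytv3226 : DT.all (wzR cT Cz.tj Cz.tp Cz.tv) Cz.tv3226 = true := by decide +kernel

theorem ytv3227 : DT.all (wzR cT Cz.tj Cz.tp Cz.tv) Cz.tv3227 = true := by decide +kernel

theorem ytv3228 : DT.all (wzR cT Cz.tj Cz.tp Cz.tv) Cz.tv3228 = true := by decide +kernel

theorem ytv3229 : DT.all (wzR cT Cz.tj Cz.tp Cz.tv) Cz.tv3229 = true := by decide +kernel

theorem ytv3230 : DT.all (wzR cT Cz.tj Cz.tp Cz.tv) Cz.tv3230 = true := by decide +kernel

theorem ytv3231 : DT.all (wzR cT Cz.tj Cz.tp Cz.tv) Cz.tv3231 = true := by decide +kernel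


end Pool.Agent.Lib.MP_5854e1_co.Cz

namespace Pool.Agent.Lib.MP_5854e1_co.Cz

open Pool.Agent.Lib.MP_5854e1_co PB

theorem ytv4083 : DT.all (wzR cT Cz.tj Cz.tp Cz.tv) Cz.tv4083 = true := by decide +kernel

theorem ytv4084 : DT.all (wzR cT Cz.tj Cz.tp Cz.tv) Cz.tv4084 = true := by decide +kernel

theorem ytv4085 : DT.all (wzR cT Cz.tj Cz.tp Cz.tv) Cz.tv4085 = true := by decide +kernel

theorem ytv4086 : DT.all (wzR cT Cz.tj Cz.tp Cz.tv) Cz.tv4086 = true := by decide +kernel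

theorem ytv4087 : DT.all (wzR cT Cz.tj Cz.tp Cz.tv) Cz.tv4087 = true := by decide +kernel

theorem ytv4088 : DT.all (wzR cT Cz.tj Cz.tp Cz.tv) Cz.tv4088 = true := by decide +kernel

theorem ytv4089 : DT.all (wzR cT Cz.tj Cz.tp Cz.tv) Cz.tv4089 = true := by decide +kernel

theorem ytv4090 : DT.all (wzR cT Cz.tj Cz.tp Cz.tv) Cz.tv4090 = true := by decide +kernel


end Pool.Agent.Lib.MP_5854e1_co.Cz
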