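import Pool.Agent.Lib.MP_5854e1_co.Cz.P

/-!
# The rows of the rings
-/

set_option autoImplicit false
set_option maxRecDepth 100000
set_option deprecated.oldSectionVars true

namespace Pool.Agent.Lib.MP_5854e1_co.Cz

open Pool.Agent.Lib.MP_5854e1_co PB

theorem ytv3232 : DT.all (wzR cT Cz.tj Cz.tp Cz.tv) Cz.tv3232 = true := by decide +kernel

theorem ytv3233 : DT.all (wzR cT Cz.tj Cz.tp Cz.tv) Cz.tv3233 = true := by decide +kernel

theorem ytv3234 : DT.all (wzR cT Cz.tj Cz.tp Cz.tv) Cz.tv3234 = true := by decide +kernel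

theorem ytv3235 : DT.all (wzR cT Cz.tj Cz.tp Cz.tv) Cz.tv3235 = true := by decide +kernel

theorem ytv3236 : DT.all (wzR cT Cz.tj Cz.tp Cz.tv) Cz.tv3236 = true := by decide +kernel

theorem ytv3237 : DT.all (wzR cT Cz.tj Cz.tp Cz.tv) Cz.tv3237 = true := by decide +kernel

theorem ytv3238 : DT.all (wzR cT Cz.tj Cz.tp Cz.tv) Cz.tv3238 = true := by decide +kernel

theorem ytv3239 : DT.all (wzR cT Cz.tj Cz.tp Cz.tv) Cz.tv3239 = true := by decide +kernel

theorem ytv3240 : DT.all (wzR cT Cz.tj Cz.tp Cz.tv) Cz.tv3240 = true := by decide +kernel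


end Pool.Agent.Lib.MP_5854e1_co.Cz

namespace Pool.Agent.Lib.MP_5854e1_co.Cz

open Pool.Agent.Lib.MP_5854e1_co PB

theorem ytv3404 : DT.all (wzR cT Cz.tj Cz.tp Cz.tv) Cz.tv3404 = true := by decide +kernel

theorem ytv3405 : DT.all (wzR cT Cz.tj Cz.tp Cz.tv) Cz.tv3405 = true := by decide +kernel

theorem ytv3406 : DT.all (wzR cT Cz.tj Cz.tp Cz.tv) Cz.tv3406 = true := by decide +kernel

theorem ytv3407 : DT.all (wzR cT Cz.tj Cz.tp Cz.tv) Cz.tv3407 = true := by decide +kernel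

theorem ytv3408 : DT.all (wzR cT Cz.tj Cz.tp Cz.tv) Cz.tv3408 = true := by decide +kernel

theorem ytv3409 : DT.all (wzR cT Cz.tj Cz.tp Cz.tv) Cz.tv3409 = true := by decide +kernel

theorem ytv3410 : DT.all (wzR cT Cz.tj Cz.tp Cz.tv) Cz.tv3410 = true := by decide +kernel


end Pool.Agent.Lib.MP_5854e1_co.Cz
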