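import Pool.Agent.Lib.MP_5854e1_co.Cz.P

/-!
# The rows of the rings
-/

set_option autoImplicit false
set_option maxRecDepth 100000
set_option deprecated.oldSectionVars true

namespace Pool.Agent.Lib.MP_5854e1_co.Cz

open Pool.Agent.Lib.MP_5854e1_co PB

theorem ytv3241 : DT.all (wzR cT Cz.tj Cz.tp Cz.tv) Cz.tv3241 = true := by decide +kernel

theorem ytv3242 : DT.all (wzR cT Cz.tj Cz.tp Cz.tv) Cz.tv3242 = true := by decide +kernel

theorem ytv3243 : DT.all (wzR cT Cz.tj Cz.tp Cz.tv) Cz.tv3243 = true := by decide +kernel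

theorem ytv3244 : DT.all (wzR cT Cz.tj Cz.tp Cz.tv) Cz.tv3244 = true := by decide +kernel

theorem ytv3245 : DT.all (wzR cT Cz.tj Cz.tp Cz.tv) Cz.tv3245 = true := by decide +kernel

theorem ytv3246 : DT.all (wzR cT Cz.tj Cz.tp Cz.tv) Cz.tv3246 = true := by decide +kernel

theorem ytv3247 : DT.all (wzR cT Cz.tj Cz.tp Cz.tv) Cz.tv3247 = true := by decide +kernel

theorem ytv3248 : DT.all (wzR cT Cz.tj Cz.tp Cz.tv) Cz.tv3248 = true := by decide +kernel

theorem ytv3249 : DT.all (wzR cT Cz.tj Cz.tp Cz.tv) Cz.tv3249 = true := by decide +kernel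


end Pool.Agent.Lib.MP_5854e1_co.Cz

namespace Pool.Agent.Lib.MP_5854e1_co.Cz

open Pool.Agent.Lib.MP_5854e1_co PB

theorem ytv5086 : DT.all (wzR cT Cz.tj Cz.tp Cz.tv) Cz.tv5086 = true := by decide +kernel

theorem ytv5087 : DT.all (wzR cT Cz.tj Cz.tp Cz.tv) Cz.tv5087 = true := by decide +kernel

theorem ytv5088 : DT.all (wzR cT Cz.tj Cz.tp Cz.tv) Cz.tv5088 = true := by decide +kernel

theorem ytv5089 : DT.all (wzR cT Cz.tj Cz.tp Cz.tv) Cz.tv5089 = true := by decide +kernel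

theorem ytv5090 : DT.all (wzR cT Cz.tj Cz.tp Cz.tv) Cz.tv5090 = true := by decide +kernel

theorem ytv5091 : DT.all (wzR cT Cz.tj Cz.tp Cz.tv) Cz.tv5091 = true := by decide +kernel

theorem ytv5092 : DT.all (wzR cT Cz.tj Cz.tp Cz.tv) Cz.tv5092 = true := by decide +kernel

theorem ytv5093 : DT.all (wzR cT Cz.tj Cz.tp Cz.tv) Cz.tv5093 = true := by decide +kernel


end Pool.Agent.Lib.MP_5854e1_co.Cz
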