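import Pool.Agent.Lib.MP_5854e1_co.Cz.P

/-!
# The rows of the rings
-/

set_option autoImplicit false
set_option maxRecDepth 100000
set_option deprecated.oldSectionVars true

namespace Pool.Agent.Lib.MP_5854e1_co.Cz

open Pool.Agent.Lib.MP_5854e1_co PB

theorem ytv3274 : DT.all (wzR cT Cz.tj Cz.tp Cz.tv) Cz.tv3274 = true := by decide +kernel

theorem ytv3275 : DT.all (wzR cT Cz.tj Cz.tp Cz.tv) Cz.tv3275 = true := by decide +kernel

theorem ytv3276 : DT.all (wzR cT Cz.tj Cz.tp Cz.tv) Cz.tv3276 = true := by decide +kernel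

theorem ytv3277 : DT.all (wzR cT Cz.tj Cz.tp Cz.tv) Cz.tv3277 = true := by decide +kernel

theorem ytv3278 : DT.all (wzR cT Cz.tj Cz.tp Cz.tv) Cz.tv3278 = true := by decide +kernel

theorem ytv3279 : DT.all (wzR cT Cz.tj Cz.tp Cz.tv) Cz.tv3279 = true := by decide +kernel

theorem ytv3280 : DT.all (wzR cT Cz.tj Cz.tp Cz.tv) Cz.tv3280 = true := by decide +kernel


end Pool.Agent.Lib.MP_5854e1_co.Cz

namespace Pool.Agent.Lib.MP_5854e1_co.Cz

open Pool.Agent.Lib.MP_5854e1_co PB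

theorem ytv5539 : DT.all (wzR cT Cz.tj Cz.tp Cz.tv) Cz.tv5539 = true := by decide +kernel

theorem ytv5540 : DT.all (wzR cT Cz.tj Cz.tp Cz.tv) Cz.tv5540 = true := by decide +kernel

theorem ytv5541 : DT.all (wzR cT Cz.tj Cz.tp Cz.tv) Cz.tv5541 = true := by decide +kernel

theorem ytv5542 : DT.all (wzR cT Cz.tj Cz.tp Cz.tv) Cz.tv5542 = true := by decide +kernel

theorem ytv5543 : DT.all (wzR cT Cz.tj Cz.tp Cz.tv) Cz.tv5543 = true := by decide +kernel

theorem ytv5544 : DT.all (wzR cT Cz.tj Cz.tp Cz.tv) Cz.tv5544 = true := by decide +kernel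

theorem ytv5545 : DT.all (wzR cT Cz.tj Cz.tp Cz.tv) Cz.tv5545 = true := by decide +kernel

theorem ytv5546 : DT.all (wzR cT Cz.tj Cz.tp Cz.tv) Cz.tv5546 = true := by decide +kernel

theorem ytv5547 : DT.all (wzR cT Cz.tj Cz.tp Cz.tv) Cz.tv5547 = true := by decide +kernel

theorem ytv5548 : DT.all (wzR cT Cz.tj Cz.tp Cz.tv) Cz.tv5548 = true := by decide +kernel

theorem ytv5549 : DT.all (wzR cT Cz.tj Cz.tp Cz.tv) Cz.tv5549 = true := by decide +kernel

theorem ytv5550 : DT.all (wzR cT Cz.tj Cz.tp Cz.tv) Cz.tv5550 = true := by decide +kernel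

theorem ytv5551 : DT.all (wzR cT Cz.tj Cz.tp Cz.tv) Cz.tv5551 = true := by decide +kernel

theorem ytv5552 : DT.all (wzR cT Cz.tj Cz.tp Cz.tv) Cz.tv5552 = true := by decide +kernel

theorem ytv5553 : DT.all (wzR cT Cz.tj Cz.tp Cz.tv) Cz.tv5553 = true := by decide +kernel

theorem ytv5554 : DT.all (wzR cT Cz.tj Cz.tp Cz.tv) Cz.tv5554 = true := by decide +kernel

theorem ytv5555 : DT.all (wzR cT Cz.tj Cz.tp Cz.tv) Cz.tv5555 = true := by decide +kernel

theorem ytv5556 : DT.all (wzR cT Cz.tj Cz.tp Cz.tv) Cz.tv5556 = true := by decide +kernel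

theorem ytv5557 : DT.all (wzR cT Cz.tj Cz.tp Cz.tv) Cz.tv5557 = true := by decide +kernel


end Pool.Agent.Lib.MP_5854e1_co.Cz
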