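import Pool.Agent.Lib.MP_5854e1_co.Cz.P

/-!
# The rows of the rings
-/

set_option autoImplicit false
set_option maxRecDepth 100000
set_option deprecated.oldSectionVars true

namespace Pool.Agent.Lib.MP_5854e1_co.Cz

open Pool.Agent.Lib.MP_5854e1_co PB

theorem ytv3281 : DT.all (wzR cT Cz.tj Cz.tp Cz.tv) Cz.tv3281 = true := by decide +kernel

theorem ytv3282 : DT.all (wzR cT Cz.tj Cz.tp Cz.tv) Cz.tv3282 = true := by decide +kernel

theorem ytv3283 : DT.all (wzR cT Cz.tj Cz.tp Cz.tv) Cz.tv3283 = true := by decide +kernel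


end Pool.Agent.Lib.MP_5854e1_co.Cz

namespace Pool.Agent.Lib.MP_5854e1_co.Cz

open Pool.Agent.Lib.MP_5854e1_co PB

theorem ytv5263 : DT.all (wzR cT Cz.tj Cz.tp Cz.tv) Cz.tv5263 = true := by decide +kernel

theorem ytv5264 : DT.all (wzR cT Cz.tj Cz.tp Cz.tv) Cz.tv5264 = true := by decide +kernel

theorem ytv5265 : DT.all (wzR cT Cz.tj Cz.tp Cz.tv) Cz.tv5265 = true := by decide +kernel

theorem ytv5266 : DT.all (wzR cT Cz.tj Cz.tp Cz.tv) Cz.tv5266 = true := by decide +kernel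

theorem ytv5267 : DT.all (wzR cT Cz.tj Cz.tp Cz.tv) Cz.tv5267 = true := by decide +kernel

theorem ytv5268 : DT.all (wzR cT Cz.tj Cz.tp Cz.tv) Cz.tv5268 = true := by decide +kernel

theorem ytv5269 : DT.all (wzR cT Cz.tj Cz.tp Cz.tv) Cz.tv5269 = true := by decide +kernel

theorem ytv5270 : DT.all (wzR cT Cz.tj Cz.tp Cz.tv) Cz.tv5270 = true := by decide +kernel

theorem ytv5271 : DT.all (wzR cT Cz.tj Cz.tp Cz.tv) Cz.tv5271 = true := by decide +kernel


end Pool.Agent.Lib.MP_5854e1_co.Cz
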