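import Pool.Agent.Lib.MP_5854e1_co.Cz.P

/-!
# The rows of the rings
-/

set_option autoImplicit false
set_option maxRecDepth 100000
set_option deprecated.oldSectionVars true

namespace Pool.Agent.Lib.MP_5854e1_co.Cz

open Pool.Agent.Lib.MP_5854e1_co PB

theorem ytv3286 : DT.all (wzR cT Cz.tj Cz.tp Cz.tv) Cz.tv3286 = true := by decide +kernel

theorem ytv3287 : DT.all (wzR cT Cz.tj Cz.tp Cz.tv) Cz.tv3287 = true := by decide +kernel

theorem ytv3288 : DT.all (wzR cT Cz.tj Cz.tp Cz.tv) Cz.tv3288 = true := by decide +kernel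


end Pool.Agent.Lib.MP_5854e1_co.Cz

namespace Pool.Agent.Lib.MP_5854e1_co.Cz

open Pool.Agent.Lib.MP_5854e1_co PB

theorem ytv3512 : DT.all (wzR cT Cz.tj Cz.tp Cz.tv) Cz.tv3512 = true := by decide +kernel

theorem ytv3513 : DT.all (wzR cT Cz.tj Cz.tp Cz.tv) Cz.tv3513 = true := by decide +kernel

theorem ytv3514 : DT.all (wzR cT Cz.tj Cz.tp Cz.tv) Cz.tv3514 = true := by decide +kernel

theorem ytv3515 : DT.all (wzR cT Cz.tj Cz.tp Cz.tv) Cz.tv3515 = true := by decide +kernel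

theorem ytv3516 : DT.all (wzR cT Cz.tj Cz.tp Cz.tv) Cz.tv3516 = true := by decide +kernel

theorem ytv3517 : DT.all (wzR cT Cz.tj Cz.tp Cz.tv) Cz.tv3517 = true := by decide +kernel

theorem ytv3518 : DT.all (wzR cT Cz.tj Cz.tp Cz.tv) Cz.tv3518 = true := by decide +kernel

theorem ytv3519 : DT.all (wzR cT Cz.tj Cz.tp Cz.tv) Cz.tv3519 = true := by decide +kernel

theorem ytv3520 : DT.all (wzR cT Cz.tj Cz.tp Cz.tv) Cz.tv3520 = true := by decide +kernel


end Pool.Agent.Lib.MP_5854e1_co.Cz
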