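import Pool.Agent.Lib.MP_5854e1_co.Cz.P

/-!
# The rows of the rings
-/

set_option autoImplicit false
set_option maxRecDepth 100000
set_option deprecated.oldSectionVars true

namespace Pool.Agent.Lib.MP_5854e1_co.Cz

open Pool.Agent.Lib.MP_5854e1_co PB

theorem ytv328 : DT.all (wzR cT Cz.tj Cz.tp Cz.tv) Cz.tv328 = true := by decide +kernel

theorem ytv329 : DT.all (wzR cT Cz.tj Cz.tp Cz.tv) Cz.tv329 = true := by decide +kernel

theorem ytv330 : DT.all (wzR cT Cz.tj Cz.tp Cz.tv) Cz.tv330 = true := by decide +kernel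

theorem ytv331 : DT.all (wzR cT Cz.tj Cz.tp Cz.tv) Cz.tv331 = true := by decide +kernel

theorem ytv332 : DT.all (wzR cT Cz.tj Cz.tp Cz.tv) Cz.tv332 = true := by decide +kernel

theorem ytv333 : DT.all (wzR cT Cz.tj Cz.tp Cz.tv) Cz.tv333 = true := by decide +kernel

theorem ytv334 : DT.all (wzR cT Cz.tj Cz.tp Cz.tv) Cz.tv334 = true := by decide +kernel


end Pool.Agent.Lib.MP_5854e1_co.Cz

namespace Pool.Agent.Lib.MP_5854e1_co.Cz

open Pool.Agent.Lib.MP_5854e1_co PB

theorem ytv1594 : DT.all (wzR cT Cz.tj Cz.tp Cz.tv) Cz.tv1594 = true := by decide +kernel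

theorem ytv1595 : DT.all (wzR cT Cz.tj Cz.tp Cz.tv) Cz.tv1595 = true := by decide +kernel

theorem ytv1596 : DT.all (wzR cT Cz.tj Cz.tp Cz.tv) Cz.tv1596 = true := by decide +kernel

theorem ytv1597 : DT.all (wzR cT Cz.tj Cz.tp Cz.tv) Cz.tv1597 = true := by decide +kernel


end Pool.Agent.Lib.MP_5854e1_co.Cz
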