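import Pool.Agent.Lib.MP_5854e1_co.Cz.P

/-!
# The rows of the rings
-/

set_option autoImplicit false
set_option maxRecDepth 100000
set_option deprecated.oldSectionVars true

namespace Pool.Agent.Lib.MP_5854e1_co.Cz

open Pool.Agent.Lib.MP_5854e1_co PB

theorem ytv3307 : DT.all (wzR cT Cz.tj Cz.tp Cz.tv) Cz.tv3307 = true := by decide +kernel

theorem ytv3308 : DT.all (wzR cT Cz.tj Cz.tp Cz.tv) Cz.tv3308 = true := by decide +kernel

theorem ytv3309 : DT.all (wzR cT Cz.tj Cz.tp Cz.tv) Cz.tv3309 = true := by decide +kernel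

theorem ytv3310 : DT.all (wzR cT Cz.tj Cz.tp Cz.tv) Cz.tv3310 = true := by decide +kernel

theorem ytv3311 : DT.all (wzR cT Cz.tj Cz.tp Cz.tv) Cz.tv3311 = true := by decide +kernel

theorem ytv3312 : DT.all (wzR cT Cz.tj Cz.tp Cz.tv) Cz.tv3312 = true := by decide +kernel

theorem ytv3313 : DT.all (wzR cT Cz.tj Cz.tp Cz.tv) Cz.tv3313 = true := by decide +kernel

theorem ytv3314 : DT.all (wzR cT Cz.tj Cz.tp Cz.tv) Cz.tv3314 = true := by decide +kernel

theorem ytv3315 : DT.all (wzR cT Cz.tj Cz.tp Cz.tv) Cz.tv3315 = true := by decide +kernel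


end Pool.Agent.Lib.MP_5854e1_co.Cz
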