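import Pool.Agent.Lib.MP_5854e1_co.Cz.P

/-!
# The rows of the rings
-/

set_option autoImplicit false
set_option maxRecDepth 100000
set_option deprecated.oldSectionVars true

namespace Pool.Agent.Lib.MP_5854e1_co.Cz

open Pool.Agent.Lib.MP_5854e1_co PB

theorem ytv3340 : DT.all (wzR cT Cz.tj Cz.tp Cz.tv) Cz.tv3340 = true := by decide +kernel

theorem ytv3341 : DT.all (wzR cT Cz.tj Cz.tp Cz.tv) Cz.tv3341 = true := by decide +kernel

theorem ytv3342 : DT.all (wzR cT Cz.tj Cz.tp Cz.tv) Cz.tv3342 = true := by decide +kernel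

theorem ytv3343 : DT.all (wzR cT Cz.tj Cz.tp Cz.tv) Cz.tv3343 = true := by decide +kernel

theorem ytv3344 : DT.all (wzR cT Cz.tj Cz.tp Cz.tv) Cz.tv3344 = true := by decide +kernel

theorem ytv3345 : DT.all (wzR cT Cz.tj Cz.tp Cz.tv) Cz.tv3345 = true := by decide +kernel

theorem ytv3346 : DT.all (wzR cT Cz.tj Cz.tp Cz.tv) Cz.tv3346 = true := by decide +kernel

theorem ytv3347 : DT.all (wzR cT Cz.tj Cz.tp Cz.tv) Cz.tv3347 = true := by decide +kernel


end Pool.Agent.Lib.MP_5854e1_co.Cz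

namespace Pool.Agent.Lib.MP_5854e1_co.Cz

open Pool.Agent.Lib.MP_5854e1_co PB

theorem ytv3624 : DT.all (wzR cT Cz.tj Cz.tp Cz.tv) Cz.tv3624 = true := by decide +kernel

theorem ytv3625 : DT.all (wzR cT Cz.tj Cz.tp Cz.tv) Cz.tv3625 = true := by decide +kernel


end Pool.Agent.Lib.MP_5854e1_co.Cz
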