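import Pool.Agent.Lib.MP_5854e1_co.Cz.P

/-!
# The rows of the rings
-/

set_option autoImplicit false
set_option maxRecDepth 100000
set_option deprecated.oldSectionVars true

namespace Pool.Agent.Lib.MP_5854e1_co.Cz

open Pool.Agent.Lib.MP_5854e1_co PB

theorem ytv3348 : DT.all (wzR cT Cz.tj Cz.tp Cz.tv) Cz.tv3348 = true := by decide +kernel

theorem ytv3349 : DT.all (wzR cT Cz.tj Cz.tp Cz.tv) Cz.tv3349 = true := by decide +kernel

theorem ytv3350 : DT.all (wzR cT Cz.tj Cz.tp Cz.tv) Cz.tv3350 = true := by decide +kernel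

theorem ytv3351 : DT.all (wzR cT Cz.tj Cz.tp Cz.tv) Cz.tv3351 = true := by decide +kernel

theorem ytv3352 : DT.all (wzR cT Cz.tj Cz.tp Cz.tv) Cz.tv3352 = true := by decide +kernel

theorem ytv3353 : DT.all (wzR cT Cz.tj Cz.tp Cz.tv) Cz.tv3353 = true := by decide +kernel

theorem ytv3354 : DT.all (wzR cT Cz.tj Cz.tp Cz.tv) Cz.tv3354 = true := by decide +kernel

theorem ytv3355 : DT.all (wzR cT Cz.tj Cz.tp Cz.tv) Cz.tv3355 = true := by decide +kernel


end Pool.Agent.Lib.MP_5854e1_co.Cz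

namespace Pool.Agent.Lib.MP_5854e1_co.Cz

open Pool.Agent.Lib.MP_5854e1_co PB

theorem ytv3626 : DT.all (wzR cT Cz.tj Cz.tp Cz.tv) Cz.tv3626 = true := by decide +kernel

theorem ytv3627 : DT.all (wzR cT Cz.tj Cz.tp Cz.tv) Cz.tv3627 = true := by decide +kernel

theorem ytv3628 : DT.all (wzR cT Cz.tj Cz.tp Cz.tv) Cz.tv3628 = true := by decide +kernel

theorem ytv3629 : DT.all (wzR cT Cz.tj Cz.tp Cz.tv) Cz.tv3629 = true := by decide +kernel


end Pool.Agent.Lib.MP_5854e1_co.Cz
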