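import Pool.Agent.Lib.MP_5854e1_co.Cz.P

/-!
# The rows of the rings
-/

set_option autoImplicit false
set_option maxRecDepth 100000
set_option deprecated.oldSectionVars true

namespace Pool.Agent.Lib.MP_5854e1_co.Cz

open Pool.Agent.Lib.MP_5854e1_co PB

theorem ytv335 : DT.all (wzR cT Cz.tj Cz.tp Cz.tv) Cz.tv335 = true := by decide +kernel

theorem ytv336 : DT.all (wzR cT Cz.tj Cz.tp Cz.tv) Cz.tv336 = true := by decide +kernel

theorem ytv337 : DT.all (wzR cT Cz.tj Cz.tp Cz.tv) Cz.tv337 = true := by decide +kernel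

theorem ytv338 : DT.all (wzR cT Cz.tj Cz.tp Cz.tv) Cz.tv338 = true := by decide +kernel

theorem ytv339 : DT.all (wzR cT Cz.tj Cz.tp Cz.tv) Cz.tv339 = true := by decide +kernel

theorem ytv340 : DT.all (wzR cT Cz.tj Cz.tp Cz.tv) Cz.tv340 = true := by decide +kernel

theorem ytv341 : DT.all (wzR cT Cz.tj Cz.tp Cz.tv) Cz.tv341 = true := by decide +kernel

theorem ytv342 : DT.all (wzR cT Cz.tj Cz.tp Cz.tv) Cz.tv342 = true := by decide +kernel


end Pool.Agent.Lib.MP_5854e1_co.Cz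

namespace Pool.Agent.Lib.MP_5854e1_co.Cz

open Pool.Agent.Lib.MP_5854e1_co PB

theorem ytv2424 : DT.all (wzR cT Cz.tj Cz.tp Cz.tv) Cz.tv2424 = true := by decide +kernel

theorem ytv2425 : DT.all (wzR cT Cz.tj Cz.tp Cz.tv) Cz.tv2425 = true := by decide +kernel

theorem ytv2426 : DT.all (wzR cT Cz.tj Cz.tp Cz.tv) Cz.tv2426 = true := by decide +kernel

theorem ytv2427 : DT.all (wzR cT Cz.tj Cz.tp Cz.tv) Cz.tv2427 = true := by decide +kernel


end Pool.Agent.Lib.MP_5854e1_co.Cz
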