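import Pool.Agent.Lib.MP_5854e1_co.Cz.P

/-!
# The rows of the rings
-/

set_option autoImplicit false
set_option maxRecDepth 100000
set_option deprecated.oldSectionVars true

namespace Pool.Agent.Lib.MP_5854e1_co.Cz

open Pool.Agent.Lib.MP_5854e1_co PB

theorem ytv3380 : DT.all (wzR cT Cz.tj Cz.tp Cz.tv) Cz.tv3380 = true := by decide +kernel

theorem ytv3381 : DT.all (wzR cT Cz.tj Cz.tp Cz.tv) Cz.tv3381 = true := by decide +kernel

theorem ytv3382 : DT.all (wzR cT Cz.tj Cz.tp Cz.tv) Cz.tv3382 = true := by decide +kernel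

theorem ytv3383 : DT.all (wzR cT Cz.tj Cz.tp Cz.tv) Cz.tv3383 = true := by decide +kernel

theorem ytv3384 : DT.all (wzR cT Cz.tj Cz.tp Cz.tv) Cz.tv3384 = true := by decide +kernel

theorem ytv3385 : DT.all (wzR cT Cz.tj Cz.tp Cz.tv) Cz.tv3385 = true := by decide +kernel

theorem ytv3386 : DT.all (wzR cT Cz.tj Cz.tp Cz.tv) Cz.tv3386 = true := by decide +kernel

theorem ytv3387 : DT.all (wzR cT Cz.tj Cz.tp Cz.tv) Cz.tv3387 = true := by decide +kernel

theorem ytv3388 : DT.all (wzR cT Cz.tj Cz.tp Cz.tv) Cz.tv3388 = true := by decide +kernel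


end Pool.Agent.Lib.MP_5854e1_co.Cz
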