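import Pool.Agent.Lib.MP_5854e1_co.Cz.P

/-!
# The rows of the rings
-/

set_option autoImplicit false
set_option maxRecDepth 100000
set_option deprecated.oldSectionVars true

namespace Pool.Agent.Lib.MP_5854e1_co.Cz

open Pool.Agent.Lib.MP_5854e1_co PB

theorem ytv3420 : DT.all (wzR cT Cz.tj Cz.tp Cz.tv) Cz.tv3420 = true := by decide +kernel

theorem ytv3421 : DT.all (wzR cT Cz.tj Cz.tp Cz.tv) Cz.tv3421 = true := by decide +kernel

theorem ytv3422 : DT.all (wzR cT Cz.tj Cz.tp Cz.tv) Cz.tv3422 = true := by decide +kernel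

theorem ytv3423 : DT.all (wzR cT Cz.tj Cz.tp Cz.tv) Cz.tv3423 = true := by decide +kernel

theorem ytv3424 : DT.all (wzR cT Cz.tj Cz.tp Cz.tv) Cz.tv3424 = true := by decide +kernel

theorem ytv3425 : DT.all (wzR cT Cz.tj Cz.tp Cz.tv) Cz.tv3425 = true := by decide +kernel

theorem ytv3426 : DT.all (wzR cT Cz.tj Cz.tp Cz.tv) Cz.tv3426 = true := by decide +kernel


end Pool.Agent.Lib.MP_5854e1_co.Cz

namespace Pool.Agent.Lib.MP_5854e1_co.Cz

open Pool.Agent.Lib.MP_5854e1_co PB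

theorem ytv4958 : DT.all (wzR cT Cz.tj Cz.tp Cz.tv) Cz.tv4958 = true := by decide +kernel

theorem ytv4959 : DT.all (wzR cT Cz.tj Cz.tp Cz.tv) Cz.tv4959 = true := by decide +kernel

theorem ytv4960 : DT.all (wzR cT Cz.tj Cz.tp Cz.tv) Cz.tv4960 = true := by decide +kernel

theorem ytv4961 : DT.all (wzR cT Cz.tj Cz.tp Cz.tv) Cz.tv4961 = true := by decide +kernel

theorem ytv4962 : DT.all (wzR cT Cz.tj Cz.tp Cz.tv) Cz.tv4962 = true := by decide +kernel

theorem ytv4963 : DT.all (wzR cT Cz.tj Cz.tp Cz.tv) Cz.tv4963 = true := by decide +kernel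

theorem ytv4964 : DT.all (wzR cT Cz.tj Cz.tp Cz.tv) Cz.tv4964 = true := by decide +kernel

theorem ytv4965 : DT.all (wzR cT Cz.tj Cz.tp Cz.tv) Cz.tv4965 = true := by decide +kernel


end Pool.Agent.Lib.MP_5854e1_co.Cz
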