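import Pool.Agent.Lib.MP_5854e1_co.Cz.P

/-!
# The rows of the rings
-/

set_option autoImplicit false
set_option maxRecDepth 100000
set_option deprecated.oldSectionVars true

namespace Pool.Agent.Lib.MP_5854e1_co.Cz

open Pool.Agent.Lib.MP_5854e1_co PB

theorem ytv3435 : DT.all (wzR cT Cz.tj Cz.tp Cz.tv) Cz.tv3435 = true := by decide +kernel

theorem ytv3436 : DT.all (wzR cT Cz.tj Cz.tp Cz.tv) Cz.tv3436 = true := by decide +kernel

theorem ytv3437 : DT.all (wzR cT Cz.tj Cz.tp Cz.tv) Cz.tv3437 = true := by decide +kernel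

theorem ytv3438 : DT.all (wzR cT Cz.tj Cz.tp Cz.tv) Cz.tv3438 = true := by decide +kernel

theorem ytv3439 : DT.all (wzR cT Cz.tj Cz.tp Cz.tv) Cz.tv3439 = true := by decide +kernel

theorem ytv3440 : DT.all (wzR cT Cz.tj Cz.tp Cz.tv) Cz.tv3440 = true := by decide +kernel

theorem ytv3441 : DT.all (wzR cT Cz.tj Cz.tp Cz.tv) Cz.tv3441 = true := by decide +kernel


end Pool.Agent.Lib.MP_5854e1_co.Cz

namespace Pool.Agent.Lib.MP_5854e1_co.Cz

open Pool.Agent.Lib.MP_5854e1_co PB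

theorem ytv4658 : DT.all (wzR cT Cz.tj Cz.tp Cz.tv) Cz.tv4658 = true := by decide +kernel

theorem ytv4659 : DT.all (wzR cT Cz.tj Cz.tp Cz.tv) Cz.tv4659 = true := by decide +kernel

theorem ytv4660 : DT.all (wzR cT Cz.tj Cz.tp Cz.tv) Cz.tv4660 = true := by decide +kernel

theorem ytv4661 : DT.all (wzR cT Cz.tj Cz.tp Cz.tv) Cz.tv4661 = true := by decide +kernel

theorem ytv4662 : DT.all (wzR cT Cz.tj Cz.tp Cz.tv) Cz.tv4662 = true := by decide +kernel

theorem ytv4663 : DT.all (wzR cT Cz.tj Cz.tp Cz.tv) Cz.tv4663 = true := by decide +kernel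

theorem ytv4664 : DT.all (wzR cT Cz.tj Cz.tp Cz.tv) Cz.tv4664 = true := by decide +kernel


end Pool.Agent.Lib.MP_5854e1_co.Cz
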