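import Pool.Agent.Lib.MP_5854e1_co.Cz.P

/-!
# The rows of the rings
-/

set_option autoImplicit false
set_option maxRecDepth 100000
set_option deprecated.oldSectionVars true

namespace Pool.Agent.Lib.MP_5854e1_co.Cz

open Pool.Agent.Lib.MP_5854e1_co PB

theorem ytv3451 : DT.all (wzR cT Cz.tj Cz.tp Cz.tv) Cz.tv3451 = true := by decide +kernel

theorem ytv3452 : DT.all (wzR cT Cz.tj Cz.tp Cz.tv) Cz.tv3452 = true := by decide +kernel

theorem ytv3453 : DT.all (wzR cT Cz.tj Cz.tp Cz.tv) Cz.tv3453 = true := by decide +kernel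

theorem ytv3454 : DT.all (wzR cT Cz.tj Cz.tp Cz.tv) Cz.tv3454 = true := by decide +kernel

theorem ytv3455 : DT.all (wzR cT Cz.tj Cz.tp Cz.tv) Cz.tv3455 = true := by decide +kernel

theorem ytv3456 : DT.all (wzR cT Cz.tj Cz.tp Cz.tv) Cz.tv3456 = true := by decide +kernel

theorem ytv3457 : DT.all (wzR cT Cz.tj Cz.tp Cz.tv) Cz.tv3457 = true := by decide +kernel

theorem ytv3458 : DT.all (wzR cT Cz.tj Cz.tp Cz.tv) Cz.tv3458 = true := by decide +kernel

theorem ytv3459 : DT.all (wzR cT Cz.tj Cz.tp Cz.tv) Cz.tv3459 = true := by decide +kernel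


end Pool.Agent.Lib.MP_5854e1_co.Cz
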