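import Pool.Agent.Lib.MP_5854e1_co.Cz.P

/-!
# The rows of the rings
-/

set_option autoImplicit false
set_option maxRecDepth 100000
set_option deprecated.oldSectionVars true

namespace Pool.Agent.Lib.MP_5854e1_co.Cz

open Pool.Agent.Lib.MP_5854e1_co PB

theorem ytv343 : DT.all (wzR cT Cz.tj Cz.tp Cz.tv) Cz.tv343 = true := by decide +kernel

theorem ytv344 : DT.all (wzR cT Cz.tj Cz.tp Cz.tv) Cz.tv344 = true := by decide +kernel

theorem ytv345 : DT.all (wzR cT Cz.tj Cz.tp Cz.tv) Cz.tv345 = true := by decide +kernel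

theorem ytv346 : DT.all (wzR cT Cz.tj Cz.tp Cz.tv) Cz.tv346 = true := by decide +kernel

theorem ytv347 : DT.all (wzR cT Cz.tj Cz.tp Cz.tv) Cz.tv347 = true := by decide +kernel

theorem ytv348 : DT.all (wzR cT Cz.tj Cz.tp Cz.tv) Cz.tv348 = true := by decide +kernel

theorem ytv349 : DT.all (wzR cT Cz.tj Cz.tp Cz.tv) Cz.tv349 = true := by decide +kernel

theorem ytv350 : DT.all (wzR cT Cz.tj Cz.tp Cz.tv) Cz.tv350 = true := by decide +kernel

theorem ytv351 : DT.all (wzR cT Cz.tj Cz.tp Cz.tv) Cz.tv351 = true := by decide +kernel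


end Pool.Agent.Lib.MP_5854e1_co.Cz

namespace Pool.Agent.Lib.MP_5854e1_co.Cz

open Pool.Agent.Lib.MP_5854e1_co PB

theorem ytv3818 : DT.all (wzR cT Cz.tj Cz.tp Cz.tv) Cz.tv3818 = true := by decide +kernel

theorem ytv3819 : DT.all (wzR cT Cz.tj Cz.tp Cz.tv) Cz.tv3819 = true := by decide +kernel

theorem ytv3820 : DT.all (wzR cT Cz.tj Cz.tp Cz.tv) Cz.tv3820 = true := by decide +kernel


end Pool.Agent.Lib.MP_5854e1_co.Cz
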