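import Pool.Agent.Lib.MP_5854e1_co.Cz.P

/-!
# The rows of the rings
-/

set_option autoImplicit false
set_option maxRecDepth 100000
set_option deprecated.oldSectionVars true

namespace Pool.Agent.Lib.MP_5854e1_co.Cz

open Pool.Agent.Lib.MP_5854e1_co PB

theorem ytv3486 : DT.all (wzR cT Cz.tj Cz.tp Cz.tv) Cz.tv3486 = true := by decide +kernel

theorem ytv3487 : DT.all (wzR cT Cz.tj Cz.tp Cz.tv) Cz.tv3487 = true := by decide +kernel

theorem ytv3488 : DT.all (wzR cT Cz.tj Cz.tp Cz.tv) Cz.tv3488 = true := by decide +kernel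

theorem ytv3489 : DT.all (wzR cT Cz.tj Cz.tp Cz.tv) Cz.tv3489 = true := by decide +kernel

theorem ytv3490 : DT.all (wzR cT Cz.tj Cz.tp Cz.tv) Cz.tv3490 = true := by decide +kernel

theorem ytv3491 : DT.all (wzR cT Cz.tj Cz.tp Cz.tv) Cz.tv3491 = true := by decide +kernel

theorem ytv3492 : DT.all (wzR cT Cz.tj Cz.tp Cz.tv) Cz.tv3492 = true := by decide +kernel

theorem ytv3493 : DT.all (wzR cT Cz.tj Cz.tp Cz.tv) Cz.tv3493 = true := by decide +kernel

theorem ytv3494 : DT.all (wzR cT Cz.tj Cz.tp Cz.tv) Cz.tv3494 = true := by decide +kernel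


end Pool.Agent.Lib.MP_5854e1_co.Cz

namespace Pool.Agent.Lib.MP_5854e1_co.Cz

open Pool.Agent.Lib.MP_5854e1_co PB

theorem ytv5501 : DT.all (wzR cT Cz.tj Cz.tp Cz.tv) Cz.tv5501 = true := by decide +kernel

theorem ytv5502 : DT.all (wzR cT Cz.tj Cz.tp Cz.tv) Cz.tv5502 = true := by decide +kernel

theorem ytv5503 : DT.all (wzR cT Cz.tj Cz.tp Cz.tv) Cz.tv5503 = true := by decide +kernel

theorem ytv5504 : DT.all (wzR cT Cz.tj Cz.tp Cz.tv) Cz.tv5504 = true := by decide +kernel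

theorem ytv5505 : DT.all (wzR cT Cz.tj Cz.tp Cz.tv) Cz.tv5505 = true := by decide +kernel

theorem ytv5506 : DT.all (wzR cT Cz.tj Cz.tp Cz.tv) Cz.tv5506 = true := by decide +kernel

theorem ytv5507 : DT.all (wzR cT Cz.tj Cz.tp Cz.tv) Cz.tv5507 = true := by decide +kernel

theorem ytv5508 : DT.all (wzR cT Cz.tj Cz.tp Cz.tv) Cz.tv5508 = true := by decide +kernel

theorem ytv5509 : DT.all (wzR cT Cz.tj Cz.tp Cz.tv) Cz.tv5509 = true := by decide +kernel

theorem ytv5510 : DT.all (wzR cT Cz.tj Cz.tp Cz.tv) Cz.tv5510 = true := by decide +kernel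

theorem ytv5511 : DT.all (wzR cT Cz.tj Cz.tp Cz.tv) Cz.tv5511 = true := by decide +kernel

theorem ytv5512 : DT.all (wzR cT Cz.tj Cz.tp Cz.tv) Cz.tv5512 = true := by decide +kernel

theorem ytv5513 : DT.all (wzR cT Cz.tj Cz.tp Cz.tv) Cz.tv5513 = true := by decide +kernel

theorem ytv5514 : DT.all (wzR cT Cz.tj Cz.tp Cz.tv) Cz.tv5514 = true := by decide +kernel

theorem ytv5515 : DT.all (wzR cT Cz.tj Cz.tp Cz.tv) Cz.tv5515 = true := by decide +kernel

theorem ytv5516 : DT.all (wzR cT Cz.tj Cz.tp Cz.tv) Cz.tv5516 = true := by decide +kernel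

theorem ytv5517 : DT.all (wzR cT Cz.tj Cz.tp Cz.tv) Cz.tv5517 = true := by decide +kernel

theorem ytv5518 : DT.all (wzR cT Cz.tj Cz.tp Cz.tv) Cz.tv5518 = true := by decide +kernel

theorem ytv5519 : DT.all (wzR cT Cz.tj Cz.tp Cz.tv) Cz.tv5519 = true := by decide +kernel


end Pool.Agent.Lib.MP_5854e1_co.Cz
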