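import Pool.Agent.Lib.MP_5854e1_co.Cz.P

/-!
# The rows of the rings
-/

set_option autoImplicit false
set_option maxRecDepth 100000
set_option deprecated.oldSectionVars true

namespace Pool.Agent.Lib.MP_5854e1_co.Cz

open Pool.Agent.Lib.MP_5854e1_co PB

theorem ytv3495 : DT.all (wzR cT Cz.tj Cz.tp Cz.tv) Cz.tv3495 = true := by decide +kernel

theorem ytv3496 : DT.all (wzR cT Cz.tj Cz.tp Cz.tv) Cz.tv3496 = true := by decide +kernel

theorem ytv3497 : DT.all (wzR cT Cz.tj Cz.tp Cz.tv) Cz.tv3497 = true := by decide +kernel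

theorem ytv3498 : DT.all (wzR cT Cz.tj Cz.tp Cz.tv) Cz.tv3498 = true := by decide +kernel

theorem ytv3499 : DT.all (wzR cT Cz.tj Cz.tp Cz.tv) Cz.tv3499 = true := by decide +kernel

theorem ytv3500 : DT.all (wzR cT Cz.tj Cz.tp Cz.tv) Cz.tv3500 = true := by decide +kernel

theorem ytv3501 : DT.all (wzR cT Cz.tj Cz.tp Cz.tv) Cz.tv3501 = true := by decide +kernel

theorem ytv3502 : DT.all (wzR cT Cz.tj Cz.tp Cz.tv) Cz.tv3502 = true := by decide +kernel


end Pool.Agent.Lib.MP_5854e1_co.Cz
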