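import Pool.Agent.Lib.MP_5854e1_co.Cz.P

/-!
# The rows of the rings
-/

set_option autoImplicit false
set_option maxRecDepth 100000
set_option deprecated.oldSectionVars true

namespace Pool.Agent.Lib.MP_5854e1_co.Cz

open Pool.Agent.Lib.MP_5854e1_co PB

theorem ytv3503 : DT.all (wzR cT Cz.tj Cz.tp Cz.tv) Cz.tv3503 = true := by decide +kernel

theorem ytv3504 : DT.all (wzR cT Cz.tj Cz.tp Cz.tv) Cz.tv3504 = true := by decide +kernel

theorem ytv3505 : DT.all (wzR cT Cz.tj Cz.tp Cz.tv) Cz.tv3505 = true := by decide +kernel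

theorem ytv3506 : DT.all (wzR cT Cz.tj Cz.tp Cz.tv) Cz.tv3506 = true := by decide +kernel

theorem ytv3507 : DT.all (wzR cT Cz.tj Cz.tp Cz.tv) Cz.tv3507 = true := by decide +kernel

theorem ytv3508 : DT.all (wzR cT Cz.tj Cz.tp Cz.tv) Cz.tv3508 = true := by decide +kernel

theorem ytv3509 : DT.all (wzR cT Cz.tj Cz.tp Cz.tv) Cz.tv3509 = true := by decide +kernel

theorem ytv3510 : DT.all (wzR cT Cz.tj Cz.tp Cz.tv) Cz.tv3510 = true := by decide +kernel

theorem ytv3511 : DT.all (wzR cT Cz.tj Cz.tp Cz.tv) Cz.tv3511 = true := by decide +kernel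


end Pool.Agent.Lib.MP_5854e1_co.Cz
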