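import Pool.Agent.Lib.MP_5854e1_co.Cz.P

/-!
# The rows of the rings
-/

set_option autoImplicit false
set_option maxRecDepth 100000
set_option deprecated.oldSectionVars true

namespace Pool.Agent.Lib.MP_5854e1_co.Cz

open Pool.Agent.Lib.MP_5854e1_co PB

theorem ytv352 : DT.all (wzR cT Cz.tj Cz.tp Cz.tv) Cz.tv352 = true := by decide +kernel

theorem ytv353 : DT.all (wzR cT Cz.tj Cz.tp Cz.tv) Cz.tv353 = true := by decide +kernel

theorem ytv354 : DT.all (wzR cT Cz.tj Cz.tp Cz.tv) Cz.tv354 = true := by decide +kernel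

theorem ytv355 : DT.all (wzR cT Cz.tj Cz.tp Cz.tv) Cz.tv355 = true := by decide +kernel

theorem ytv356 : DT.all (wzR cT Cz.tj Cz.tp Cz.tv) Cz.tv356 = true := by decide +kernel

theorem ytv357 : DT.all (wzR cT Cz.tj Cz.tp Cz.tv) Cz.tv357 = true := by decide +kernel

theorem ytv358 : DT.all (wzR cT Cz.tj Cz.tp Cz.tv) Cz.tv358 = true := by decide +kernel

theorem ytv359 : DT.all (wzR cT Cz.tj Cz.tp Cz.tv) Cz.tv359 = true := by decide +kernel

theorem ytv360 : DT.all (wzR cT Cz.tj Cz.tp Cz.tv) Cz.tv360 = true := by decide +kernel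


end Pool.Agent.Lib.MP_5854e1_co.Cz

namespace Pool.Agent.Lib.MP_5854e1_co.Cz

open Pool.Agent.Lib.MP_5854e1_co PB

theorem ytv5113 : DT.all (wzR cT Cz.tj Cz.tp Cz.tv) Cz.tv5113 = true := by decide +kernel

theorem ytv5114 : DT.all (wzR cT Cz.tj Cz.tp Cz.tv) Cz.tv5114 = true := by decide +kernel

theorem ytv5115 : DT.all (wzR cT Cz.tj Cz.tp Cz.tv) Cz.tv5115 = true := by decide +kernel

theorem ytv5116 : DT.all (wzR cT Cz.tj Cz.tp Cz.tv) Cz.tv5116 = true := by decide +kernel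

theorem ytv5117 : DT.all (wzR cT Cz.tj Cz.tp Cz.tv) Cz.tv5117 = true := by decide +kernel

theorem ytv5118 : DT.all (wzR cT Cz.tj Cz.tp Cz.tv) Cz.tv5118 = true := by decide +kernel

theorem ytv5119 : DT.all (wzR cT Cz.tj Cz.tp Cz.tv) Cz.tv5119 = true := by decide +kernel

theorem ytv5120 : DT.all (wzR cT Cz.tj Cz.tp Cz.tv) Cz.tv5120 = true := by decide +kernel

theorem ytv5121 : DT.all (wzR cT Cz.tj Cz.tp Cz.tv) Cz.tv5121 = true := by decide +kernel


end Pool.Agent.Lib.MP_5854e1_co.Cz
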