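import Pool.Agent.Lib.MP_5854e1_co.Cz.P

/-!
# The rows of the rings
-/

set_option autoImplicit false
set_option maxRecDepth 100000
set_option deprecated.oldSectionVars true

namespace Pool.Agent.Lib.MP_5854e1_co.Cz

open Pool.Agent.Lib.MP_5854e1_co PB

theorem ytv3547 : DT.all (wzR cT Cz.tj Cz.tp Cz.tv) Cz.tv3547 = true := by decide +kernel

theorem ytv3548 : DT.all (wzR cT Cz.tj Cz.tp Cz.tv) Cz.tv3548 = true := by decide +kernel

theorem ytv3549 : DT.all (wzR cT Cz.tj Cz.tp Cz.tv) Cz.tv3549 = true := by decide +kernel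

theorem ytv3550 : DT.all (wzR cT Cz.tj Cz.tp Cz.tv) Cz.tv3550 = true := by decide +kernel

theorem ytv3551 : DT.all (wzR cT Cz.tj Cz.tp Cz.tv) Cz.tv3551 = true := by decide +kernel

theorem ytv3552 : DT.all (wzR cT Cz.tj Cz.tp Cz.tv) Cz.tv3552 = true := by decide +kernel

theorem ytv3553 : DT.all (wzR cT Cz.tj Cz.tp Cz.tv) Cz.tv3553 = true := by decide +kernel

theorem ytv3554 : DT.all (wzR cT Cz.tj Cz.tp Cz.tv) Cz.tv3554 = true := by decide +kernel

theorem ytv3555 : DT.all (wzR cT Cz.tj Cz.tp Cz.tv) Cz.tv3555 = true := by decide +kernel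


end Pool.Agent.Lib.MP_5854e1_co.Cz
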