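import Pool.Agent.Lib.MP_5854e1_co.Cz.P

/-!
# The rows of the rings
-/

set_option autoImplicit false
set_option maxRecDepth 100000
set_option deprecated.oldSectionVars true

namespace Pool.Agent.Lib.MP_5854e1_co.Cz

open Pool.Agent.Lib.MP_5854e1_co PB

theorem ytv3573 : DT.all (wzR cT Cz.tj Cz.tp Cz.tv) Cz.tv3573 = true := by decide +kernel

theorem ytv3574 : DT.all (wzR cT Cz.tj Cz.tp Cz.tv) Cz.tv3574 = true := by decide +kernel

theorem ytv3575 : DT.all (wzR cT Cz.tj Cz.tp Cz.tv) Cz.tv3575 = true := by decide +kernel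

theorem ytv3576 : DT.all (wzR cT Cz.tj Cz.tp Cz.tv) Cz.tv3576 = true := by decide +kernel

theorem ytv3577 : DT.all (wzR cT Cz.tj Cz.tp Cz.tv) Cz.tv3577 = true := by decide +kernel

theorem ytv3578 : DT.all (wzR cT Cz.tj Cz.tp Cz.tv) Cz.tv3578 = true := by decide +kernel

theorem ytv3579 : DT.all (wzR cT Cz.tj Cz.tp Cz.tv) Cz.tv3579 = true := by decide +kernel

theorem ytv3580 : DT.all (wzR cT Cz.tj Cz.tp Cz.tv) Cz.tv3580 = true := by decide +kernel


end Pool.Agent.Lib.MP_5854e1_co.Cz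

namespace Pool.Agent.Lib.MP_5854e1_co.Cz

open Pool.Agent.Lib.MP_5854e1_co PB

theorem ytv3876 : DT.all (wzR cT Cz.tj Cz.tp Cz.tv) Cz.tv3876 = true := by decide +kernel

theorem ytv3877 : DT.all (wzR cT Cz.tj Cz.tp Cz.tv) Cz.tv3877 = true := by decide +kernel

theorem ytv3878 : DT.all (wzR cT Cz.tj Cz.tp Cz.tv) Cz.tv3878 = true := by decide +kernel


end Pool.Agent.Lib.MP_5854e1_co.Cz
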