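import Pool.Agent.Lib.MP_5854e1_co.Cz.P

/-!
# The rows of the rings
-/

set_option autoImplicit false
set_option maxRecDepth 100000
set_option deprecated.oldSectionVars true

namespace Pool.Agent.Lib.MP_5854e1_co.Cz

open Pool.Agent.Lib.MP_5854e1_co PB

theorem ytv3590 : DT.all (wzR cT Cz.tj Cz.tp Cz.tv) Cz.tv3590 = true := by decide +kernel

theorem ytv3591 : DT.all (wzR cT Cz.tj Cz.tp Cz.tv) Cz.tv3591 = true := by decide +kernel

theorem ytv3592 : DT.all (wzR cT Cz.tj Cz.tp Cz.tv) Cz.tv3592 = true := by decide +kernel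

theorem ytv3593 : DT.all (wzR cT Cz.tj Cz.tp Cz.tv) Cz.tv3593 = true := by decide +kernel

theorem ytv3594 : DT.all (wzR cT Cz.tj Cz.tp Cz.tv) Cz.tv3594 = true := by decide +kernel

theorem ytv3595 : DT.all (wzR cT Cz.tj Cz.tp Cz.tv) Cz.tv3595 = true := by decide +kernel

theorem ytv3596 : DT.all (wzR cT Cz.tj Cz.tp Cz.tv) Cz.tv3596 = true := by decide +kernel

theorem ytv3597 : DT.all (wzR cT Cz.tj Cz.tp Cz.tv) Cz.tv3597 = true := by decide +kernel


end Pool.Agent.Lib.MP_5854e1_co.Cz
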