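import Pool.Agent.Lib.MP_5854e1_co.Cz.P

/-!
# The rows of the rings
-/

set_option autoImplicit false
set_option maxRecDepth 100000
set_option deprecated.oldSectionVars true

namespace Pool.Agent.Lib.MP_5854e1_co.Cz

open Pool.Agent.Lib.MP_5854e1_co PB

theorem ytv3605 : DT.all (wzR cT Cz.tj Cz.tp Cz.tv) Cz.tv3605 = true := by decide +kernel

theorem ytv3606 : DT.all (wzR cT Cz.tj Cz.tp Cz.tv) Cz.tv3606 = true := by decide +kernel

theorem ytv3607 : DT.all (wzR cT Cz.tj Cz.tp Cz.tv) Cz.tv3607 = true := by decide +kernel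

theorem ytv3608 : DT.all (wzR cT Cz.tj Cz.tp Cz.tv) Cz.tv3608 = true := by decide +kernel

theorem ytv3609 : DT.all (wzR cT Cz.tj Cz.tp Cz.tv) Cz.tv3609 = true := by decide +kernel

theorem ytv3610 : DT.all (wzR cT Cz.tj Cz.tp Cz.tv) Cz.tv3610 = true := by decide +kernel

theorem ytv3611 : DT.all (wzR cT Cz.tj Cz.tp Cz.tv) Cz.tv3611 = true := by decide +kernel


end Pool.Agent.Lib.MP_5854e1_co.Cz
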