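import Pool.Agent.Lib.MP_5854e1_co.Cz.P

/-!
# The rows of the rings
-/

set_option autoImplicit false
set_option maxRecDepth 100000
set_option deprecated.oldSectionVars true

namespace Pool.Agent.Lib.MP_5854e1_co.Cz

open Pool.Agent.Lib.MP_5854e1_co PB

theorem ytv3619 : DT.all (wzR cT Cz.tj Cz.tp Cz.tv) Cz.tv3619 = true := by decide +kernel

theorem ytv3620 : DT.all (wzR cT Cz.tj Cz.tp Cz.tv) Cz.tv3620 = true := by decide +kernel


end Pool.Agent.Lib.MP_5854e1_co.Cz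

namespace Pool.Agent.Lib.MP_5854e1_co.Cz

open Pool.Agent.Lib.MP_5854e1_co PB

theorem ytv5414 : DT.all (wzR cT Cz.tj Cz.tp Cz.tv) Cz.tv5414 = true := by decide +kernel

theorem ytv5415 : DT.all (wzR cT Cz.tj Cz.tp Cz.tv) Cz.tv5415 = true := by decide +kernel

theorem ytv5416 : DT.all (wzR cT Cz.tj Cz.tp Cz.tv) Cz.tv5416 = true := by decide +kernel

theorem ytv5417 : DT.all (wzR cT Cz.tj Cz.tp Cz.tv) Cz.tv5417 = true := by decide +kernel

theorem ytv5418 : DT.all (wzR cT Cz.tj Cz.tp Cz.tv) Cz.tv5418 = true := by decide +kernel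

theorem ytv5419 : DT.all (wzR cT Cz.tj Cz.tp Cz.tv) Cz.tv5419 = true := by decide +kernel

theorem ytv5420 : DT.all (wzR cT Cz.tj Cz.tp Cz.tv) Cz.tv5420 = true := by decide +kernel

theorem ytv5421 : DT.all (wzR cT Cz.tj Cz.tp Cz.tv) Cz.tv5421 = true := by decide +kernel

theorem ytv5422 : DT.all (wzR cT Cz.tj Cz.tp Cz.tv) Cz.tv5422 = true := by decide +kernel

theorem ytv5423 : DT.all (wzR cT Cz.tj Cz.tp Cz.tv) Cz.tv5423 = true := by decide +kernel


end Pool.Agent.Lib.MP_5854e1_co.Cz
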