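import Pool.Agent.Lib.MP_5854e1_co.Cz.P

/-!
# The rows of the rings
-/

set_option autoImplicit false
set_option maxRecDepth 100000
set_option deprecated.oldSectionVars true

namespace Pool.Agent.Lib.MP_5854e1_co.Cz

open Pool.Agent.Lib.MP_5854e1_co PB

theorem ytv3621 : DT.all (wzR cT Cz.tj Cz.tp Cz.tv) Cz.tv3621 = true := by decide +kernel

theorem ytv3622 : DT.all (wzR cT Cz.tj Cz.tp Cz.tv) Cz.tv3622 = true := by decide +kernel

theorem ytv3623 : DT.all (wzR cT Cz.tj Cz.tp Cz.tv) Cz.tv3623 = true := by decide +kernel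


end Pool.Agent.Lib.MP_5854e1_co.Cz

namespace Pool.Agent.Lib.MP_5854e1_co.Cz

open Pool.Agent.Lib.MP_5854e1_co PB

theorem ytv4070 : DT.all (wzR cT Cz.tj Cz.tp Cz.tv) Cz.tv4070 = true := by decide +kernel

theorem ytv4071 : DT.all (wzR cT Cz.tj Cz.tp Cz.tv) Cz.tv4071 = true := by decide +kernel

theorem ytv4072 : DT.all (wzR cT Cz.tj Cz.tp Cz.tv) Cz.tv4072 = true := by decide +kernel

theorem ytv4073 : DT.all (wzR cT Cz.tj Cz.tp Cz.tv) Cz.tv4073 = true := by decide +kernel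


end Pool.Agent.Lib.MP_5854e1_co.Cz
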