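import Pool.Agent.Lib.MP_5854e1_co.Cz.P

/-!
# The rows of the rings
-/

set_option autoImplicit false
set_option maxRecDepth 100000
set_option deprecated.oldSectionVars true

namespace Pool.Agent.Lib.MP_5854e1_co.Cz

open Pool.Agent.Lib.MP_5854e1_co PB

theorem ytv3642 : DT.all (wzR cT Cz.tj Cz.tp Cz.tv) Cz.tv3642 = true := by decide +kernel

theorem ytv3643 : DT.all (wzR cT Cz.tj Cz.tp Cz.tv) Cz.tv3643 = true := by decide +kernel

theorem ytv3644 : DT.all (wzR cT Cz.tj Cz.tp Cz.tv) Cz.tv3644 = true := by decide +kernel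

theorem ytv3645 : DT.all (wzR cT Cz.tj Cz.tp Cz.tv) Cz.tv3645 = true := by decide +kernel

theorem ytv3646 : DT.all (wzR cT Cz.tj Cz.tp Cz.tv) Cz.tv3646 = true := by decide +kernel

theorem ytv3647 : DT.all (wzR cT Cz.tj Cz.tp Cz.tv) Cz.tv3647 = true := by decide +kernel

theorem ytv3648 : DT.all (wzR cT Cz.tj Cz.tp Cz.tv) Cz.tv3648 = true := by decide +kernel

theorem ytv3649 : DT.all (wzR cT Cz.tj Cz.tp Cz.tv) Cz.tv3649 = true := by decide +kernel

theorem ytv3650 : DT.all (wzR cT Cz.tj Cz.tp Cz.tv) Cz.tv3650 = true := by decide +kernel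


end Pool.Agent.Lib.MP_5854e1_co.Cz

namespace Pool.Agent.Lib.MP_5854e1_co.Cz

open Pool.Agent.Lib.MP_5854e1_co PB

theorem ytv5490 : DT.all (wzR cT Cz.tj Cz.tp Cz.tv) Cz.tv5490 = true := by decide +kernel

theorem ytv5491 : DT.all (wzR cT Cz.tj Cz.tp Cz.tv) Cz.tv5491 = true := by decide +kernel

theorem ytv5492 : DT.all (wzR cT Cz.tj Cz.tp Cz.tv) Cz.tv5492 = true := by decide +kernel

theorem ytv5493 : DT.all (wzR cT Cz.tj Cz.tp Cz.tv) Cz.tv5493 = true := by decide +kernel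

theorem ytv5494 : DT.all (wzR cT Cz.tj Cz.tp Cz.tv) Cz.tv5494 = true := by decide +kernel

theorem ytv5495 : DT.all (wzR cT Cz.tj Cz.tp Cz.tv) Cz.tv5495 = true := by decide +kernel

theorem ytv5496 : DT.all (wzR cT Cz.tj Cz.tp Cz.tv) Cz.tv5496 = true := by decide +kernel

theorem ytv5497 : DT.all (wzR cT Cz.tj Cz.tp Cz.tv) Cz.tv5497 = true := by decide +kernel

theorem ytv5498 : DT.all (wzR cT Cz.tj Cz.tp Cz.tv) Cz.tv5498 = true := by decide +kernel

theorem ytv5499 : DT.all (wzR cT Cz.tj Cz.tp Cz.tv) Cz.tv5499 = true := by decide +kernel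

theorem ytv5500 : DT.all (wzR cT Cz.tj Cz.tp Cz.tv) Cz.tv5500 = true := by decide +kernel


end Pool.Agent.Lib.MP_5854e1_co.Cz
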