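import Pool.Agent.Lib.MP_5854e1_co.Cz.P

/-!
# The rows of the rings
-/

set_option autoImplicit false
set_option maxRecDepth 100000
set_option deprecated.oldSectionVars true

namespace Pool.Agent.Lib.MP_5854e1_co.Cz

open Pool.Agent.Lib.MP_5854e1_co PB

theorem ytv3679 : DT.all (wzR cT Cz.tj Cz.tp Cz.tv) Cz.tv3679 = true := by decide +kernel

theorem ytv3680 : DT.all (wzR cT Cz.tj Cz.tp Cz.tv) Cz.tv3680 = true := by decide +kernel

theorem ytv3681 : DT.all (wzR cT Cz.tj Cz.tp Cz.tv) Cz.tv3681 = true := by decide +kernel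

theorem ytv3682 : DT.all (wzR cT Cz.tj Cz.tp Cz.tv) Cz.tv3682 = true := by decide +kernel

theorem ytv3683 : DT.all (wzR cT Cz.tj Cz.tp Cz.tv) Cz.tv3683 = true := by decide +kernel

theorem ytv3684 : DT.all (wzR cT Cz.tj Cz.tp Cz.tv) Cz.tv3684 = true := by decide +kernel

theorem ytv3685 : DT.all (wzR cT Cz.tj Cz.tp Cz.tv) Cz.tv3685 = true := by decide +kernel

theorem ytv3686 : DT.all (wzR cT Cz.tj Cz.tp Cz.tv) Cz.tv3686 = true := by decide +kernel


end Pool.Agent.Lib.MP_5854e1_co.Cz
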