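import Pool.Agent.Lib.MP_5854e1_co.Cz.P

/-!
# The rows of the rings
-/

set_option autoImplicit false
set_option maxRecDepth 100000
set_option deprecated.oldSectionVars true

namespace Pool.Agent.Lib.MP_5854e1_co.Cz

open Pool.Agent.Lib.MP_5854e1_co PB

theorem ytv3687 : DT.all (wzR cT Cz.tj Cz.tp Cz.tv) Cz.tv3687 = true := by decide +kernel

theorem ytv3688 : DT.all (wzR cT Cz.tj Cz.tp Cz.tv) Cz.tv3688 = true := by decide +kernel

theorem ytv3689 : DT.all (wzR cT Cz.tj Cz.tp Cz.tv) Cz.tv3689 = true := by decide +kernel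

theorem ytv3690 : DT.all (wzR cT Cz.tj Cz.tp Cz.tv) Cz.tv3690 = true := by decide +kernel

theorem ytv3691 : DT.all (wzR cT Cz.tj Cz.tp Cz.tv) Cz.tv3691 = true := by decide +kernel

theorem ytv3692 : DT.all (wzR cT Cz.tj Cz.tp Cz.tv) Cz.tv3692 = true := by decide +kernel

theorem ytv3693 : DT.all (wzR cT Cz.tj Cz.tp Cz.tv) Cz.tv3693 = true := by decide +kernel

theorem ytv3694 : DT.all (wzR cT Cz.tj Cz.tp Cz.tv) Cz.tv3694 = true := by decide +kernel


end Pool.Agent.Lib.MP_5854e1_co.Cz
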