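import Pool.Agent.Lib.MP_5854e1_co.Cz.P

/-!
# The rows of the rings
-/

set_option autoImplicit false
set_option maxRecDepth 100000
set_option deprecated.oldSectionVars true

namespace Pool.Agent.Lib.MP_5854e1_co.Cz

open Pool.Agent.Lib.MP_5854e1_co PB

theorem ytv3702 : DT.all (wzR cT Cz.tj Cz.tp Cz.tv) Cz.tv3702 = true := by decide +kernel

theorem ytv3703 : DT.all (wzR cT Cz.tj Cz.tp Cz.tv) Cz.tv3703 = true := by decide +kernel

theorem ytv3704 : DT.all (wzR cT Cz.tj Cz.tp Cz.tv) Cz.tv3704 = true := by decide +kernel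

theorem ytv3705 : DT.all (wzR cT Cz.tj Cz.tp Cz.tv) Cz.tv3705 = true := by decide +kernel

theorem ytv3706 : DT.all (wzR cT Cz.tj Cz.tp Cz.tv) Cz.tv3706 = true := by decide +kernel

theorem ytv3707 : DT.all (wzR cT Cz.tj Cz.tp Cz.tv) Cz.tv3707 = true := by decide +kernel

theorem ytv3708 : DT.all (wzR cT Cz.tj Cz.tp Cz.tv) Cz.tv3708 = true := by decide +kernel

theorem ytv3709 : DT.all (wzR cT Cz.tj Cz.tp Cz.tv) Cz.tv3709 = true := by decide +kernel

theorem ytv3710 : DT.all (wzR cT Cz.tj Cz.tp Cz.tv) Cz.tv3710 = true := by decide +kernel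


end Pool.Agent.Lib.MP_5854e1_co.Cz
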