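import Pool.Agent.Lib.MP_5854e1_co.Cz.P

/-!
# The rows of the rings
-/

set_option autoImplicit false
set_option maxRecDepth 100000
set_option deprecated.oldSectionVars true

namespace Pool.Agent.Lib.MP_5854e1_co.Cz

open Pool.Agent.Lib.MP_5854e1_co PB

theorem ytv369 : DT.all (wzR cT Cz.tj Cz.tp Cz.tv) Cz.tv369 = true := by decide +kernel

theorem ytv370 : DT.all (wzR cT Cz.tj Cz.tp Cz.tv) Cz.tv370 = true := by decide +kernel

theorem ytv371 : DT.all (wzR cT Cz.tj Cz.tp Cz.tv) Cz.tv371 = true := by decide +kernel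

theorem ytv372 : DT.all (wzR cT Cz.tj Cz.tp Cz.tv) Cz.tv372 = true := by decide +kernel

theorem ytv373 : DT.all (wzR cT Cz.tj Cz.tp Cz.tv) Cz.tv373 = true := by decide +kernel

theorem ytv374 : DT.all (wzR cT Cz.tj Cz.tp Cz.tv) Cz.tv374 = true := by decide +kernel

theorem ytv375 : DT.all (wzR cT Cz.tj Cz.tp Cz.tv) Cz.tv375 = true := by decide +kernel

theorem ytv376 : DT.all (wzR cT Cz.tj Cz.tp Cz.tv) Cz.tv376 = true := by decide +kernel


end Pool.Agent.Lib.MP_5854e1_co.Cz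

namespace Pool.Agent.Lib.MP_5854e1_co.Cz

open Pool.Agent.Lib.MP_5854e1_co PB

theorem ytv1226 : DT.all (wzR cT Cz.tj Cz.tp Cz.tv) Cz.tv1226 = true := by decide +kernel

theorem ytv1227 : DT.all (wzR cT Cz.tj Cz.tp Cz.tv) Cz.tv1227 = true := by decide +kernel

theorem ytv1228 : DT.all (wzR cT Cz.tj Cz.tp Cz.tv) Cz.tv1228 = true := by decide +kernel

theorem ytv1229 : DT.all (wzR cT Cz.tj Cz.tp Cz.tv) Cz.tv1229 = true := by decide +kernel

theorem ytv1230 : DT.all (wzR cT Cz.tj Cz.tp Cz.tv) Cz.tv1230 = true := by decide +kernel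

theorem ytv1231 : DT.all (wzR cT Cz.tj Cz.tp Cz.tv) Cz.tv1231 = true := by decide +kernel

theorem ytv1232 : DT.all (wzR cT Cz.tj Cz.tp Cz.tv) Cz.tv1232 = true := by decide +kernel

theorem ytv1233 : DT.all (wzR cT Cz.tj Cz.tp Cz.tv) Cz.tv1233 = true := by decide +kernel

theorem ytv1234 : DT.all (wzR cT Cz.tj Cz.tp Cz.tv) Cz.tv1234 = true := by decide +kernel


end Pool.Agent.Lib.MP_5854e1_co.Cz
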