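import Pool.Agent.Lib.MP_5854e1_co.Cz.P

/-!
# The rows of the rings
-/

set_option autoImplicit false
set_option maxRecDepth 100000
set_option deprecated.oldSectionVars true

namespace Pool.Agent.Lib.MP_5854e1_co.Cz

open Pool.Agent.Lib.MP_5854e1_co PB

theorem ytv3711 : DT.all (wzR cT Cz.tj Cz.tp Cz.tv) Cz.tv3711 = true := by decide +kernel

theorem ytv3712 : DT.all (wzR cT Cz.tj Cz.tp Cz.tv) Cz.tv3712 = true := by decide +kernel

theorem ytv3713 : DT.all (wzR cT Cz.tj Cz.tp Cz.tv) Cz.tv3713 = true := by decide +kernel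

theorem ytv3714 : DT.all (wzR cT Cz.tj Cz.tp Cz.tv) Cz.tv3714 = true := by decide +kernel

theorem ytv3715 : DT.all (wzR cT Cz.tj Cz.tp Cz.tv) Cz.tv3715 = true := by decide +kernel

theorem ytv3716 : DT.all (wzR cT Cz.tj Cz.tp Cz.tv) Cz.tv3716 = true := by decide +kernel

theorem ytv3717 : DT.all (wzR cT Cz.tj Cz.tp Cz.tv) Cz.tv3717 = true := by decide +kernel

theorem ytv3718 : DT.all (wzR cT Cz.tj Cz.tp Cz.tv) Cz.tv3718 = true := by decide +kernel

theorem ytv3719 : DT.all (wzR cT Cz.tj Cz.tp Cz.tv) Cz.tv3719 = true := by decide +kernel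

theorem ytv3720 : DT.all (wzR cT Cz.tj Cz.tp Cz.tv) Cz.tv3720 = true := by decide +kernel


end Pool.Agent.Lib.MP_5854e1_co.Cz
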