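import Pool.Agent.Lib.MP_5854e1_co.Cz.P

/-!
# The rows of the rings
-/

set_option autoImplicit false
set_option maxRecDepth 100000
set_option deprecated.oldSectionVars true

namespace Pool.Agent.Lib.MP_5854e1_co.Cz

open Pool.Agent.Lib.MP_5854e1_co PB

theorem ytv3744 : DT.all (wzR cT Cz.tj Cz.tp Cz.tv) Cz.tv3744 = true := by decide +kernel

theorem ytv3745 : DT.all (wzR cT Cz.tj Cz.tp Cz.tv) Cz.tv3745 = true := by decide +kernel

theorem ytv3746 : DT.all (wzR cT Cz.tj Cz.tp Cz.tv) Cz.tv3746 = true := by decide +kernel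

theorem ytv3747 : DT.all (wzR cT Cz.tj Cz.tp Cz.tv) Cz.tv3747 = true := by decide +kernel

theorem ytv3748 : DT.all (wzR cT Cz.tj Cz.tp Cz.tv) Cz.tv3748 = true := by decide +kernel

theorem ytv3749 : DT.all (wzR cT Cz.tj Cz.tp Cz.tv) Cz.tv3749 = true := by decide +kernel

theorem ytv3750 : DT.all (wzR cT Cz.tj Cz.tp Cz.tv) Cz.tv3750 = true := by decide +kernel

theorem ytv3751 : DT.all (wzR cT Cz.tj Cz.tp Cz.tv) Cz.tv3751 = true := by decide +kernel


end Pool.Agent.Lib.MP_5854e1_co.Cz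

namespace Pool.Agent.Lib.MP_5854e1_co.Cz

open Pool.Agent.Lib.MP_5854e1_co PB

theorem ytv4066 : DT.all (wzR cT Cz.tj Cz.tp Cz.tv) Cz.tv4066 = true := by decide +kernel

theorem ytv4067 : DT.all (wzR cT Cz.tj Cz.tp Cz.tv) Cz.tv4067 = true := by decide +kernel

theorem ytv4068 : DT.all (wzR cT Cz.tj Cz.tp Cz.tv) Cz.tv4068 = true := by decide +kernel

theorem ytv4069 : DT.all (wzR cT Cz.tj Cz.tp Cz.tv) Cz.tv4069 = true := by decide +kernel


end Pool.Agent.Lib.MP_5854e1_co.Cz
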