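import Pool.Agent.Lib.MP_5854e1_co.Cz.P

/-!
# The rows of the rings
-/

set_option autoImplicit false
set_option maxRecDepth 100000
set_option deprecated.oldSectionVars true

namespace Pool.Agent.Lib.MP_5854e1_co.Cz

open Pool.Agent.Lib.MP_5854e1_co PB

theorem ytv3752 : DT.all (wzR cT Cz.tj Cz.tp Cz.tv) Cz.tv3752 = true := by decide +kernel

theorem ytv3753 : DT.all (wzR cT Cz.tj Cz.tp Cz.tv) Cz.tv3753 = true := by decide +kernel

theorem ytv3754 : DT.all (wzR cT Cz.tj Cz.tp Cz.tv) Cz.tv3754 = true := by decide +kernel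

theorem ytv3755 : DT.all (wzR cT Cz.tj Cz.tp Cz.tv) Cz.tv3755 = true := by decide +kernel

theorem ytv3756 : DT.all (wzR cT Cz.tj Cz.tp Cz.tv) Cz.tv3756 = true := by decide +kernel

theorem ytv3757 : DT.all (wzR cT Cz.tj Cz.tp Cz.tv) Cz.tv3757 = true := by decide +kernel

theorem ytv3758 : DT.all (wzR cT Cz.tj Cz.tp Cz.tv) Cz.tv3758 = true := by decide +kernel

theorem ytv3759 : DT.all (wzR cT Cz.tj Cz.tp Cz.tv) Cz.tv3759 = true := by decide +kernel

theorem ytv3760 : DT.all (wzR cT Cz.tj Cz.tp Cz.tv) Cz.tv3760 = true := by decide +kernel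


end Pool.Agent.Lib.MP_5854e1_co.Cz

namespace Pool.Agent.Lib.MP_5854e1_co.Cz

open Pool.Agent.Lib.MP_5854e1_co PB

theorem ytv4533 : DT.all (wzR cT Cz.tj Cz.tp Cz.tv) Cz.tv4533 = true := by decide +kernel

theorem ytv4534 : DT.all (wzR cT Cz.tj Cz.tp Cz.tv) Cz.tv4534 = true := by decide +kernel

theorem ytv4535 : DT.all (wzR cT Cz.tj Cz.tp Cz.tv) Cz.tv4535 = true := by decide +kernel

theorem ytv4536 : DT.all (wzR cT Cz.tj Cz.tp Cz.tv) Cz.tv4536 = true := by decide +kernel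


end Pool.Agent.Lib.MP_5854e1_co.Cz
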