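import Pool.Agent.Lib.MP_5854e1_co.Cz.P

/-!
# The rows of the rings
-/

set_option autoImplicit false
set_option maxRecDepth 100000
set_option deprecated.oldSectionVars true

namespace Pool.Agent.Lib.MP_5854e1_co.Cz

open Pool.Agent.Lib.MP_5854e1_co PB

theorem ytv3789 : DT.all (wzR cT Cz.tj Cz.tp Cz.tv) Cz.tv3789 = true := by decide +kernel

theorem ytv3790 : DT.all (wzR cT Cz.tj Cz.tp Cz.tv) Cz.tv3790 = true := by decide +kernel

theorem ytv3791 : DT.all (wzR cT Cz.tj Cz.tp Cz.tv) Cz.tv3791 = true := by decide +kernel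

theorem ytv3792 : DT.all (wzR cT Cz.tj Cz.tp Cz.tv) Cz.tv3792 = true := by decide +kernel

theorem ytv3793 : DT.all (wzR cT Cz.tj Cz.tp Cz.tv) Cz.tv3793 = true := by decide +kernel

theorem ytv3794 : DT.all (wzR cT Cz.tj Cz.tp Cz.tv) Cz.tv3794 = true := by decide +kernel

theorem ytv3795 : DT.all (wzR cT Cz.tj Cz.tp Cz.tv) Cz.tv3795 = true := by decide +kernel

theorem ytv3796 : DT.all (wzR cT Cz.tj Cz.tp Cz.tv) Cz.tv3796 = true := by decide +kernel


end Pool.Agent.Lib.MP_5854e1_co.Cz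

namespace Pool.Agent.Lib.MP_5854e1_co.Cz

open Pool.Agent.Lib.MP_5854e1_co PB

theorem ytv4227 : DT.all (wzR cT Cz.tj Cz.tp Cz.tv) Cz.tv4227 = true := by decide +kernel

theorem ytv4228 : DT.all (wzR cT Cz.tj Cz.tp Cz.tv) Cz.tv4228 = true := by decide +kernel

theorem ytv4229 : DT.all (wzR cT Cz.tj Cz.tp Cz.tv) Cz.tv4229 = true := by decide +kernel

theorem ytv4230 : DT.all (wzR cT Cz.tj Cz.tp Cz.tv) Cz.tv4230 = true := by decide +kernel

theorem ytv4231 : DT.all (wzR cT Cz.tj Cz.tp Cz.tv) Cz.tv4231 = true := by decide +kernel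

theorem ytv4232 : DT.all (wzR cT Cz.tj Cz.tp Cz.tv) Cz.tv4232 = true := by decide +kernel

theorem ytv4233 : DT.all (wzR cT Cz.tj Cz.tp Cz.tv) Cz.tv4233 = true := by decide +kernel


end Pool.Agent.Lib.MP_5854e1_co.Cz
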