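import Pool.Agent.Lib.MP_5854e1_co.Cz.P

/-!
# The rows of the rings
-/

set_option autoImplicit false
set_option maxRecDepth 100000
set_option deprecated.oldSectionVars true

namespace Pool.Agent.Lib.MP_5854e1_co.Cz

open Pool.Agent.Lib.MP_5854e1_co PB

theorem ytv377 : DT.all (wzR cT Cz.tj Cz.tp Cz.tv) Cz.tv377 = true := by decide +kernel

theorem ytv378 : DT.all (wzR cT Cz.tj Cz.tp Cz.tv) Cz.tv378 = true := by decide +kernel

theorem ytv379 : DT.all (wzR cT Cz.tj Cz.tp Cz.tv) Cz.tv379 = true := by decide +kernel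

theorem ytv380 : DT.all (wzR cT Cz.tj Cz.tp Cz.tv) Cz.tv380 = true := by decide +kernel

theorem ytv381 : DT.all (wzR cT Cz.tj Cz.tp Cz.tv) Cz.tv381 = true := by decide +kernel

theorem ytv382 : DT.all (wzR cT Cz.tj Cz.tp Cz.tv) Cz.tv382 = true := by decide +kernel

theorem ytv383 : DT.all (wzR cT Cz.tj Cz.tp Cz.tv) Cz.tv383 = true := by decide +kernel

theorem ytv384 : DT.all (wzR cT Cz.tj Cz.tp Cz.tv) Cz.tv384 = true := by decide +kernel


end Pool.Agent.Lib.MP_5854e1_co.Cz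

namespace Pool.Agent.Lib.MP_5854e1_co.Cz

open Pool.Agent.Lib.MP_5854e1_co PB

theorem ytv5345 : DT.all (wzR cT Cz.tj Cz.tp Cz.tv) Cz.tv5345 = true := by decide +kernel

theorem ytv5346 : DT.all (wzR cT Cz.tj Cz.tp Cz.tv) Cz.tv5346 = true := by decide +kernel

theorem ytv5347 : DT.all (wzR cT Cz.tj Cz.tp Cz.tv) Cz.tv5347 = true := by decide +kernel

theorem ytv5348 : DT.all (wzR cT Cz.tj Cz.tp Cz.tv) Cz.tv5348 = true := by decide +kernel

theorem ytv5349 : DT.all (wzR cT Cz.tj Cz.tp Cz.tv) Cz.tv5349 = true := by decide +kernel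

theorem ytv5350 : DT.all (wzR cT Cz.tj Cz.tp Cz.tv) Cz.tv5350 = true := by decide +kernel

theorem ytv5351 : DT.all (wzR cT Cz.tj Cz.tp Cz.tv) Cz.tv5351 = true := by decide +kernel

theorem ytv5352 : DT.all (wzR cT Cz.tj Cz.tp Cz.tv) Cz.tv5352 = true := by decide +kernel

theorem ytv5353 : DT.all (wzR cT Cz.tj Cz.tp Cz.tv) Cz.tv5353 = true := by decide +kernel


end Pool.Agent.Lib.MP_5854e1_co.Cz
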