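import Pool.Agent.Lib.MP_5854e1_co.Cz.P

/-!
# The rows of the rings
-/

set_option autoImplicit false
set_option maxRecDepth 100000
set_option deprecated.oldSectionVars true

namespace Pool.Agent.Lib.MP_5854e1_co.Cz

open Pool.Agent.Lib.MP_5854e1_co PB

theorem ytv3825 : DT.all (wzR cT Cz.tj Cz.tp Cz.tv) Cz.tv3825 = true := by decide +kernel

theorem ytv3826 : DT.all (wzR cT Cz.tj Cz.tp Cz.tv) Cz.tv3826 = true := by decide +kernel

theorem ytv3827 : DT.all (wzR cT Cz.tj Cz.tp Cz.tv) Cz.tv3827 = true := by decide +kernel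

theorem ytv3828 : DT.all (wzR cT Cz.tj Cz.tp Cz.tv) Cz.tv3828 = true := by decide +kernel

theorem ytv3829 : DT.all (wzR cT Cz.tj Cz.tp Cz.tv) Cz.tv3829 = true := by decide +kernel


end Pool.Agent.Lib.MP_5854e1_co.Cz

namespace Pool.Agent.Lib.MP_5854e1_co.Cz

open Pool.Agent.Lib.MP_5854e1_co PB

theorem ytv4516 : DT.all (wzR cT Cz.tj Cz.tp Cz.tv) Cz.tv4516 = true := by decide +kernel

theorem ytv4517 : DT.all (wzR cT Cz.tj Cz.tp Cz.tv) Cz.tv4517 = true := by decide +kernel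

theorem ytv4518 : DT.all (wzR cT Cz.tj Cz.tp Cz.tv) Cz.tv4518 = true := by decide +kernel

theorem ytv4519 : DT.all (wzR cT Cz.tj Cz.tp Cz.tv) Cz.tv4519 = true := by decide +kernel

theorem ytv4520 : DT.all (wzR cT Cz.tj Cz.tp Cz.tv) Cz.tv4520 = true := by decide +kernel

theorem ytv4521 : DT.all (wzR cT Cz.tj Cz.tp Cz.tv) Cz.tv4521 = true := by decide +kernel

theorem ytv4522 : DT.all (wzR cT Cz.tj Cz.tp Cz.tv) Cz.tv4522 = true := by decide +kernel

theorem ytv4523 : DT.all (wzR cT Cz.tj Cz.tp Cz.tv) Cz.tv4523 = true := by decide +kernel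


end Pool.Agent.Lib.MP_5854e1_co.Cz
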