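import Pool.Agent.Lib.MP_5854e1_co.Cz.P

/-!
# The rows of the rings
-/

set_option autoImplicit false
set_option maxRecDepth 100000
set_option deprecated.oldSectionVars true

namespace Pool.Agent.Lib.MP_5854e1_co.Cz

open Pool.Agent.Lib.MP_5854e1_co PB

theorem ytv3848 : DT.all (wzR cT Cz.tj Cz.tp Cz.tv) Cz.tv3848 = true := by decide +kernel

theorem ytv3849 : DT.all (wzR cT Cz.tj Cz.tp Cz.tv) Cz.tv3849 = true := by decide +kernel

theorem ytv3850 : DT.all (wzR cT Cz.tj Cz.tp Cz.tv) Cz.tv3850 = true := by decide +kernel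

theorem ytv3851 : DT.all (wzR cT Cz.tj Cz.tp Cz.tv) Cz.tv3851 = true := by decide +kernel

theorem ytv3852 : DT.all (wzR cT Cz.tj Cz.tp Cz.tv) Cz.tv3852 = true := by decide +kernel

theorem ytv3853 : DT.all (wzR cT Cz.tj Cz.tp Cz.tv) Cz.tv3853 = true := by decide +kernel

theorem ytv3854 : DT.all (wzR cT Cz.tj Cz.tp Cz.tv) Cz.tv3854 = true := by decide +kernel

theorem ytv3855 : DT.all (wzR cT Cz.tj Cz.tp Cz.tv) Cz.tv3855 = true := by decide +kernel

theorem ytv3856 : DT.all (wzR cT Cz.tj Cz.tp Cz.tv) Cz.tv3856 = true := by decide +kernel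

theorem ytv3857 : DT.all (wzR cT Cz.tj Cz.tp Cz.tv) Cz.tv3857 = true := by decide +kernel


end Pool.Agent.Lib.MP_5854e1_co.Cz

namespace Pool.Agent.Lib.MP_5854e1_co.Cz

open Pool.Agent.Lib.MP_5854e1_co PB

theorem ytv4440 : DT.all (wzR cT Cz.tj Cz.tp Cz.tv) Cz.tv4440 = true := by decide +kernel

theorem ytv4441 : DT.all (wzR cT Cz.tj Cz.tp Cz.tv) Cz.tv4441 = true := by decide +kernel

theorem ytv4442 : DT.all (wzR cT Cz.tj Cz.tp Cz.tv) Cz.tv4442 = true := by decide +kernel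

theorem ytv4443 : DT.all (wzR cT Cz.tj Cz.tp Cz.tv) Cz.tv4443 = true := by decide +kernel

theorem ytv4444 : DT.all (wzR cT Cz.tj Cz.tp Cz.tv) Cz.tv4444 = true := by decide +kernel

theorem ytv4445 : DT.all (wzR cT Cz.tj Cz.tp Cz.tv) Cz.tv4445 = true := by decide +kernel

theorem ytv4446 : DT.all (wzR cT Cz.tj Cz.tp Cz.tv) Cz.tv4446 = true := by decide +kernel

theorem ytv4447 : DT.all (wzR cT Cz.tj Cz.tp Cz.tv) Cz.tv4447 = true := by decide +kernel

theorem ytv4448 : DT.all (wzR cT Cz.tj Cz.tp Cz.tv) Cz.tv4448 = true := by decide +kernel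

theorem ytv4449 : DT.all (wzR cT Cz.tj Cz.tp Cz.tv) Cz.tv4449 = true := by decide +kernel


end Pool.Agent.Lib.MP_5854e1_co.Cz
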