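import Pool.Agent.Lib.MP_5854e1_co.Cz.P

/-!
# The rows of the rings
-/

set_option autoImplicit false
set_option maxRecDepth 100000
set_option deprecated.oldSectionVars true

namespace Pool.Agent.Lib.MP_5854e1_co.Cz

open Pool.Agent.Lib.MP_5854e1_co PB

theorem ytv385 : DT.all (wzR cT Cz.tj Cz.tp Cz.tv) Cz.tv385 = true := by decide +kernel

theorem ytv386 : DT.all (wzR cT Cz.tj Cz.tp Cz.tv) Cz.tv386 = true := by decide +kernel

theorem ytv387 : DT.all (wzR cT Cz.tj Cz.tp Cz.tv) Cz.tv387 = true := by decide +kernel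

theorem ytv388 : DT.all (wzR cT Cz.tj Cz.tp Cz.tv) Cz.tv388 = true := by decide +kernel

theorem ytv389 : DT.all (wzR cT Cz.tj Cz.tp Cz.tv) Cz.tv389 = true := by decide +kernel

theorem ytv390 : DT.all (wzR cT Cz.tj Cz.tp Cz.tv) Cz.tv390 = true := by decide +kernel

theorem ytv391 : DT.all (wzR cT Cz.tj Cz.tp Cz.tv) Cz.tv391 = true := by decide +kernel

theorem ytv392 : DT.all (wzR cT Cz.tj Cz.tp Cz.tv) Cz.tv392 = true := by decide +kernel

theorem ytv393 : DT.all (wzR cT Cz.tj Cz.tp Cz.tv) Cz.tv393 = true := by decide +kernel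


end Pool.Agent.Lib.MP_5854e1_co.Cz

namespace Pool.Agent.Lib.MP_5854e1_co.Cz

open Pool.Agent.Lib.MP_5854e1_co PB

theorem ytv1337 : DT.all (wzR cT Cz.tj Cz.tp Cz.tv) Cz.tv1337 = true := by decide +kernel

theorem ytv1338 : DT.all (wzR cT Cz.tj Cz.tp Cz.tv) Cz.tv1338 = true := by decide +kernel

theorem ytv1339 : DT.all (wzR cT Cz.tj Cz.tp Cz.tv) Cz.tv1339 = true := by decide +kernel

theorem ytv1340 : DT.all (wzR cT Cz.tj Cz.tp Cz.tv) Cz.tv1340 = true := by decide +kernel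

theorem ytv1341 : DT.all (wzR cT Cz.tj Cz.tp Cz.tv) Cz.tv1341 = true := by decide +kernel

theorem ytv1342 : DT.all (wzR cT Cz.tj Cz.tp Cz.tv) Cz.tv1342 = true := by decide +kernel

theorem ytv1343 : DT.all (wzR cT Cz.tj Cz.tp Cz.tv) Cz.tv1343 = true := by decide +kernel

theorem ytv1344 : DT.all (wzR cT Cz.tj Cz.tp Cz.tv) Cz.tv1344 = true := by decide +kernel


end Pool.Agent.Lib.MP_5854e1_co.Cz
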