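import Pool.Agent.Lib.MP_5854e1_co.Cz.P

/-!
# The rows of the rings
-/

set_option autoImplicit false
set_option maxRecDepth 100000
set_option deprecated.oldSectionVars true

namespace Pool.Agent.Lib.MP_5854e1_co.Cz

open Pool.Agent.Lib.MP_5854e1_co PB

theorem ytv3923 : DT.all (wzR cT Cz.tj Cz.tp Cz.tv) Cz.tv3923 = true := by decide +kernel

theorem ytv3924 : DT.all (wzR cT Cz.tj Cz.tp Cz.tv) Cz.tv3924 = true := by decide +kernel

theorem ytv3925 : DT.all (wzR cT Cz.tj Cz.tp Cz.tv) Cz.tv3925 = true := by decide +kernel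

theorem ytv3926 : DT.all (wzR cT Cz.tj Cz.tp Cz.tv) Cz.tv3926 = true := by decide +kernel

theorem ytv3927 : DT.all (wzR cT Cz.tj Cz.tp Cz.tv) Cz.tv3927 = true := by decide +kernel

theorem ytv3928 : DT.all (wzR cT Cz.tj Cz.tp Cz.tv) Cz.tv3928 = true := by decide +kernel

theorem ytv3929 : DT.all (wzR cT Cz.tj Cz.tp Cz.tv) Cz.tv3929 = true := by decide +kernel


end Pool.Agent.Lib.MP_5854e1_co.Cz

namespace Pool.Agent.Lib.MP_5854e1_co.Cz

open Pool.Agent.Lib.MP_5854e1_co PB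

theorem ytv4091 : DT.all (wzR cT Cz.tj Cz.tp Cz.tv) Cz.tv4091 = true := by decide +kernel

theorem ytv4092 : DT.all (wzR cT Cz.tj Cz.tp Cz.tv) Cz.tv4092 = true := by decide +kernel

theorem ytv4093 : DT.all (wzR cT Cz.tj Cz.tp Cz.tv) Cz.tv4093 = true := by decide +kernel

theorem ytv4094 : DT.all (wzR cT Cz.tj Cz.tp Cz.tv) Cz.tv4094 = true := by decide +kernel


end Pool.Agent.Lib.MP_5854e1_co.Cz
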