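import Pool.Agent.Lib.MP_5854e1_co.Cz.P

/-!
# The rows of the rings
-/

set_option autoImplicit false
set_option maxRecDepth 100000
set_option deprecated.oldSectionVars true

namespace Pool.Agent.Lib.MP_5854e1_co.Cz

open Pool.Agent.Lib.MP_5854e1_co PB

theorem ytv3940 : DT.all (wzR cT Cz.tj Cz.tp Cz.tv) Cz.tv3940 = true := by decide +kernel

theorem ytv3941 : DT.all (wzR cT Cz.tj Cz.tp Cz.tv) Cz.tv3941 = true := by decide +kernel

theorem ytv3942 : DT.all (wzR cT Cz.tj Cz.tp Cz.tv) Cz.tv3942 = true := by decide +kernel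

theorem ytv3943 : DT.all (wzR cT Cz.tj Cz.tp Cz.tv) Cz.tv3943 = true := by decide +kernel


end Pool.Agent.Lib.MP_5854e1_co.Cz
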