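import Pool.Agent.Lib.MP_5854e1_co.Cz.P

/-!
# The rows of the rings
-/

set_option autoImplicit false
set_option maxRecDepth 100000
set_option deprecated.oldSectionVars true

namespace Pool.Agent.Lib.MP_5854e1_co.Cz

open Pool.Agent.Lib.MP_5854e1_co PB

theorem ytv3948 : DT.all (wzR cT Cz.tj Cz.tp Cz.tv) Cz.tv3948 = true := by decide +kernel

theorem ytv3949 : DT.all (wzR cT Cz.tj Cz.tp Cz.tv) Cz.tv3949 = true := by decide +kernel

theorem ytv3950 : DT.all (wzR cT Cz.tj Cz.tp Cz.tv) Cz.tv3950 = true := by decide +kernel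

theorem ytv3951 : DT.all (wzR cT Cz.tj Cz.tp Cz.tv) Cz.tv3951 = true := by decide +kernel

theorem ytv3952 : DT.all (wzR cT Cz.tj Cz.tp Cz.tv) Cz.tv3952 = true := by decide +kernel

theorem ytv3953 : DT.all (wzR cT Cz.tj Cz.tp Cz.tv) Cz.tv3953 = true := by decide +kernel

theorem ytv3954 : DT.all (wzR cT Cz.tj Cz.tp Cz.tv) Cz.tv3954 = true := by decide +kernel

theorem ytv3955 : DT.all (wzR cT Cz.tj Cz.tp Cz.tv) Cz.tv3955 = true := by decide +kernel

theorem ytv3956 : DT.all (wzR cT Cz.tj Cz.tp Cz.tv) Cz.tv3956 = true := by decide +kernel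


end Pool.Agent.Lib.MP_5854e1_co.Cz
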