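import Pool.Agent.Lib.MP_5854e1_co.Cz.P

/-!
# The rows of the rings
-/

set_option autoImplicit false
set_option maxRecDepth 100000
set_option deprecated.oldSectionVars true

namespace Pool.Agent.Lib.MP_5854e1_co.Cz

open Pool.Agent.Lib.MP_5854e1_co PB

theorem ytv394 : DT.all (wzR cT Cz.tj Cz.tp Cz.tv) Cz.tv394 = true := by decide +kernel

theorem ytv395 : DT.all (wzR cT Cz.tj Cz.tp Cz.tv) Cz.tv395 = true := by decide +kernel

theorem ytv396 : DT.all (wzR cT Cz.tj Cz.tp Cz.tv) Cz.tv396 = true := by decide +kernel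

theorem ytv397 : DT.all (wzR cT Cz.tj Cz.tp Cz.tv) Cz.tv397 = true := by decide +kernel

theorem ytv398 : DT.all (wzR cT Cz.tj Cz.tp Cz.tv) Cz.tv398 = true := by decide +kernel

theorem ytv399 : DT.all (wzR cT Cz.tj Cz.tp Cz.tv) Cz.tv399 = true := by decide +kernel

theorem ytv400 : DT.all (wzR cT Cz.tj Cz.tp Cz.tv) Cz.tv400 = true := by decide +kernel

theorem ytv401 : DT.all (wzR cT Cz.tj Cz.tp Cz.tv) Cz.tv401 = true := by decide +kernel

theorem ytv402 : DT.all (wzR cT Cz.tj Cz.tp Cz.tv) Cz.tv402 = true := by decide +kernel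


end Pool.Agent.Lib.MP_5854e1_co.Cz

namespace Pool.Agent.Lib.MP_5854e1_co.Cz

open Pool.Agent.Lib.MP_5854e1_co PB

theorem ytv519 : DT.all (wzR cT Cz.tj Cz.tp Cz.tv) Cz.tv519 = true := by decide +kernel

theorem ytv520 : DT.all (wzR cT Cz.tj Cz.tp Cz.tv) Cz.tv520 = true := by decide +kernel

theorem ytv521 : DT.all (wzR cT Cz.tj Cz.tp Cz.tv) Cz.tv521 = true := by decide +kernel

theorem ytv522 : DT.all (wzR cT Cz.tj Cz.tp Cz.tv) Cz.tv522 = true := by decide +kernel

theorem ytv523 : DT.all (wzR cT Cz.tj Cz.tp Cz.tv) Cz.tv523 = true := by decide +kernel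

theorem ytv524 : DT.all (wzR cT Cz.tj Cz.tp Cz.tv) Cz.tv524 = true := by decide +kernel

theorem ytv525 : DT.all (wzR cT Cz.tj Cz.tp Cz.tv) Cz.tv525 = true := by decide +kernel


end Pool.Agent.Lib.MP_5854e1_co.Cz
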