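import Pool.Agent.Lib.MP_5854e1_co.Cz.P

/-!
# The rows of the rings
-/

set_option autoImplicit false
set_option maxRecDepth 100000
set_option deprecated.oldSectionVars true

namespace Pool.Agent.Lib.MP_5854e1_co.Cz

open Pool.Agent.Lib.MP_5854e1_co PB

theorem ytv3980 : DT.all (wzR cT Cz.tj Cz.tp Cz.tv) Cz.tv3980 = true := by decide +kernel

theorem ytv3981 : DT.all (wzR cT Cz.tj Cz.tp Cz.tv) Cz.tv3981 = true := by decide +kernel

theorem ytv3982 : DT.all (wzR cT Cz.tj Cz.tp Cz.tv) Cz.tv3982 = true := by decide +kernel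

theorem ytv3983 : DT.all (wzR cT Cz.tj Cz.tp Cz.tv) Cz.tv3983 = true := by decide +kernel

theorem ytv3984 : DT.all (wzR cT Cz.tj Cz.tp Cz.tv) Cz.tv3984 = true := by decide +kernel

theorem ytv3985 : DT.all (wzR cT Cz.tj Cz.tp Cz.tv) Cz.tv3985 = true := by decide +kernel

theorem ytv3986 : DT.all (wzR cT Cz.tj Cz.tp Cz.tv) Cz.tv3986 = true := by decide +kernel

theorem ytv3987 : DT.all (wzR cT Cz.tj Cz.tp Cz.tv) Cz.tv3987 = true := by decide +kernel

theorem ytv3988 : DT.all (wzR cT Cz.tj Cz.tp Cz.tv) Cz.tv3988 = true := by decide +kernel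


end Pool.Agent.Lib.MP_5854e1_co.Cz
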