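import Pool.Agent.Lib.MP_5854e1_co.Cz.P

/-!
# The rows of the rings
-/

set_option autoImplicit false
set_option maxRecDepth 100000
set_option deprecated.oldSectionVars true

namespace Pool.Agent.Lib.MP_5854e1_co.Cz

open Pool.Agent.Lib.MP_5854e1_co PB

theorem ytv4006 : DT.all (wzR cT Cz.tj Cz.tp Cz.tv) Cz.tv4006 = true := by decide +kernel

theorem ytv4007 : DT.all (wzR cT Cz.tj Cz.tp Cz.tv) Cz.tv4007 = true := by decide +kernel

theorem ytv4008 : DT.all (wzR cT Cz.tj Cz.tp Cz.tv) Cz.tv4008 = true := by decide +kernel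

theorem ytv4009 : DT.all (wzR cT Cz.tj Cz.tp Cz.tv) Cz.tv4009 = true := by decide +kernel

theorem ytv4010 : DT.all (wzR cT Cz.tj Cz.tp Cz.tv) Cz.tv4010 = true := by decide +kernel

theorem ytv4011 : DT.all (wzR cT Cz.tj Cz.tp Cz.tv) Cz.tv4011 = true := by decide +kernel

theorem ytv4012 : DT.all (wzR cT Cz.tj Cz.tp Cz.tv) Cz.tv4012 = true := by decide +kernel

theorem ytv4013 : DT.all (wzR cT Cz.tj Cz.tp Cz.tv) Cz.tv4013 = true := by decide +kernel

theorem ytv4014 : DT.all (wzR cT Cz.tj Cz.tp Cz.tv) Cz.tv4014 = true := by decide +kernel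


end Pool.Agent.Lib.MP_5854e1_co.Cz
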