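import Pool.Agent.Lib.MP_5854e1_co.Cz.P

/-!
# The rows of the rings
-/

set_option autoImplicit false
set_option maxRecDepth 100000
set_option deprecated.oldSectionVars true

namespace Pool.Agent.Lib.MP_5854e1_co.Cz

open Pool.Agent.Lib.MP_5854e1_co PB

theorem ytv4030 : DT.all (wzR cT Cz.tj Cz.tp Cz.tv) Cz.tv4030 = true := by decide +kernel

theorem ytv4031 : DT.all (wzR cT Cz.tj Cz.tp Cz.tv) Cz.tv4031 = true := by decide +kernel

theorem ytv4032 : DT.all (wzR cT Cz.tj Cz.tp Cz.tv) Cz.tv4032 = true := by decide +kernel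

theorem ytv4033 : DT.all (wzR cT Cz.tj Cz.tp Cz.tv) Cz.tv4033 = true := by decide +kernel

theorem ytv4034 : DT.all (wzR cT Cz.tj Cz.tp Cz.tv) Cz.tv4034 = true := by decide +kernel

theorem ytv4035 : DT.all (wzR cT Cz.tj Cz.tp Cz.tv) Cz.tv4035 = true := by decide +kernel

theorem ytv4036 : DT.all (wzR cT Cz.tj Cz.tp Cz.tv) Cz.tv4036 = true := by decide +kernel

theorem ytv4037 : DT.all (wzR cT Cz.tj Cz.tp Cz.tv) Cz.tv4037 = true := by decide +kernel

theorem ytv4038 : DT.all (wzR cT Cz.tj Cz.tp Cz.tv) Cz.tv4038 = true := by decide +kernel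


end Pool.Agent.Lib.MP_5854e1_co.Cz
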