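import Pool.Agent.Lib.MP_5854e1_co.Cz.P

/-!
# The rows of the rings
-/

set_option autoImplicit false
set_option maxRecDepth 100000
set_option deprecated.oldSectionVars true

namespace Pool.Agent.Lib.MP_5854e1_co.Cz

open Pool.Agent.Lib.MP_5854e1_co PB

theorem ytv403 : DT.all (wzR cT Cz.tj Cz.tp Cz.tv) Cz.tv403 = true := by decide +kernel

theorem ytv404 : DT.all (wzR cT Cz.tj Cz.tp Cz.tv) Cz.tv404 = true := by decide +kernel

theorem ytv405 : DT.all (wzR cT Cz.tj Cz.tp Cz.tv) Cz.tv405 = true := by decide +kernel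

theorem ytv406 : DT.all (wzR cT Cz.tj Cz.tp Cz.tv) Cz.tv406 = true := by decide +kernel

theorem ytv407 : DT.all (wzR cT Cz.tj Cz.tp Cz.tv) Cz.tv407 = true := by decide +kernel

theorem ytv408 : DT.all (wzR cT Cz.tj Cz.tp Cz.tv) Cz.tv408 = true := by decide +kernel

theorem ytv409 : DT.all (wzR cT Cz.tj Cz.tp Cz.tv) Cz.tv409 = true := by decide +kernel

theorem ytv410 : DT.all (wzR cT Cz.tj Cz.tp Cz.tv) Cz.tv410 = true := by decide +kernel


end Pool.Agent.Lib.MP_5854e1_co.Cz
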