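import Pool.Agent.Lib.MP_5854e1_co.Cz.P

/-!
# The rows of the rings
-/

set_option autoImplicit false
set_option maxRecDepth 100000
set_option deprecated.oldSectionVars true

namespace Pool.Agent.Lib.MP_5854e1_co.Cz

open Pool.Agent.Lib.MP_5854e1_co PB

theorem ytv4108 : DT.all (wzR cT Cz.tj Cz.tp Cz.tv) Cz.tv4108 = true := by decide +kernel

theorem ytv4109 : DT.all (wzR cT Cz.tj Cz.tp Cz.tv) Cz.tv4109 = true := by decide +kernel

theorem ytv4110 : DT.all (wzR cT Cz.tj Cz.tp Cz.tv) Cz.tv4110 = true := by decide +kernel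

theorem ytv4111 : DT.all (wzR cT Cz.tj Cz.tp Cz.tv) Cz.tv4111 = true := by decide +kernel

theorem ytv4112 : DT.all (wzR cT Cz.tj Cz.tp Cz.tv) Cz.tv4112 = true := by decide +kernel

theorem ytv4113 : DT.all (wzR cT Cz.tj Cz.tp Cz.tv) Cz.tv4113 = true := by decide +kernel

theorem ytv4114 : DT.all (wzR cT Cz.tj Cz.tp Cz.tv) Cz.tv4114 = true := by decide +kernel

theorem ytv4115 : DT.all (wzR cT Cz.tj Cz.tp Cz.tv) Cz.tv4115 = true := by decide +kernel


end Pool.Agent.Lib.MP_5854e1_co.Cz
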