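import Pool.Agent.Lib.MP_5854e1_co.Cz.P

/-!
# The rows of the rings
-/

set_option autoImplicit false
set_option maxRecDepth 100000
set_option deprecated.oldSectionVars true

namespace Pool.Agent.Lib.MP_5854e1_co.Cz

open Pool.Agent.Lib.MP_5854e1_co PB

theorem ytv4119 : DT.all (wzR cT Cz.tj Cz.tp Cz.tv) Cz.tv4119 = true := by decide +kernel

theorem ytv4120 : DT.all (wzR cT Cz.tj Cz.tp Cz.tv) Cz.tv4120 = true := by decide +kernel

theorem ytv4121 : DT.all (wzR cT Cz.tj Cz.tp Cz.tv) Cz.tv4121 = true := by decide +kernel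


end Pool.Agent.Lib.MP_5854e1_co.Cz

namespace Pool.Agent.Lib.MP_5854e1_co.Cz

open Pool.Agent.Lib.MP_5854e1_co PB

theorem ytv5272 : DT.all (wzR cT Cz.tj Cz.tp Cz.tv) Cz.tv5272 = true := by decide +kernel

theorem ytv5273 : DT.all (wzR cT Cz.tj Cz.tp Cz.tv) Cz.tv5273 = true := by decide +kernel

theorem ytv5274 : DT.all (wzR cT Cz.tj Cz.tp Cz.tv) Cz.tv5274 = true := by decide +kernel

theorem ytv5275 : DT.all (wzR cT Cz.tj Cz.tp Cz.tv) Cz.tv5275 = true := by decide +kernel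

theorem ytv5276 : DT.all (wzR cT Cz.tj Cz.tp Cz.tv) Cz.tv5276 = true := by decide +kernel

theorem ytv5277 : DT.all (wzR cT Cz.tj Cz.tp Cz.tv) Cz.tv5277 = true := by decide +kernel

theorem ytv5278 : DT.all (wzR cT Cz.tj Cz.tp Cz.tv) Cz.tv5278 = true := by decide +kernel

theorem ytv5279 : DT.all (wzR cT Cz.tj Cz.tp Cz.tv) Cz.tv5279 = true := by decide +kernel


end Pool.Agent.Lib.MP_5854e1_co.Cz
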