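import Pool.Agent.Lib.MP_5854e1_co.Cz.P

/-!
# The rows of the rings
-/

set_option autoImplicit false
set_option maxRecDepth 100000
set_option deprecated.oldSectionVars true

namespace Pool.Agent.Lib.MP_5854e1_co.Cz

open Pool.Agent.Lib.MP_5854e1_co PB

theorem ytv4122 : DT.all (wzR cT Cz.tj Cz.tp Cz.tv) Cz.tv4122 = true := by decide +kernel

theorem ytv4123 : DT.all (wzR cT Cz.tj Cz.tp Cz.tv) Cz.tv4123 = true := by decide +kernel

theorem ytv4124 : DT.all (wzR cT Cz.tj Cz.tp Cz.tv) Cz.tv4124 = true := by decide +kernel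


end Pool.Agent.Lib.MP_5854e1_co.Cz

namespace Pool.Agent.Lib.MP_5854e1_co.Cz

open Pool.Agent.Lib.MP_5854e1_co PB

theorem ytv5321 : DT.all (wzR cT Cz.tj Cz.tp Cz.tv) Cz.tv5321 = true := by decide +kernel

theorem ytv5322 : DT.all (wzR cT Cz.tj Cz.tp Cz.tv) Cz.tv5322 = true := by decide +kernel

theorem ytv5323 : DT.all (wzR cT Cz.tj Cz.tp Cz.tv) Cz.tv5323 = true := by decide +kernel

theorem ytv5324 : DT.all (wzR cT Cz.tj Cz.tp Cz.tv) Cz.tv5324 = true := by decide +kernel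

theorem ytv5325 : DT.all (wzR cT Cz.tj Cz.tp Cz.tv) Cz.tv5325 = true := by decide +kernel

theorem ytv5326 : DT.all (wzR cT Cz.tj Cz.tp Cz.tv) Cz.tv5326 = true := by decide +kernel

theorem ytv5327 : DT.all (wzR cT Cz.tj Cz.tp Cz.tv) Cz.tv5327 = true := by decide +kernel

theorem ytv5328 : DT.all (wzR cT Cz.tj Cz.tp Cz.tv) Cz.tv5328 = true := by decide +kernel


end Pool.Agent.Lib.MP_5854e1_co.Cz
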