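import Pool.Agent.Lib.MP_5854e1_co.Cz.P

/-!
# The rows of the rings
-/

set_option autoImplicit false
set_option maxRecDepth 100000
set_option deprecated.oldSectionVars true

namespace Pool.Agent.Lib.MP_5854e1_co.Cz

open Pool.Agent.Lib.MP_5854e1_co PB

theorem ytv411 : DT.all (wzR cT Cz.tj Cz.tp Cz.tv) Cz.tv411 = true := by decide +kernel

theorem ytv412 : DT.all (wzR cT Cz.tj Cz.tp Cz.tv) Cz.tv412 = true := by decide +kernel

theorem ytv413 : DT.all (wzR cT Cz.tj Cz.tp Cz.tv) Cz.tv413 = true := by decide +kernel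

theorem ytv414 : DT.all (wzR cT Cz.tj Cz.tp Cz.tv) Cz.tv414 = true := by decide +kernel

theorem ytv415 : DT.all (wzR cT Cz.tj Cz.tp Cz.tv) Cz.tv415 = true := by decide +kernel

theorem ytv416 : DT.all (wzR cT Cz.tj Cz.tp Cz.tv) Cz.tv416 = true := by decide +kernel

theorem ytv417 : DT.all (wzR cT Cz.tj Cz.tp Cz.tv) Cz.tv417 = true := by decide +kernel

theorem ytv418 : DT.all (wzR cT Cz.tj Cz.tp Cz.tv) Cz.tv418 = true := by decide +kernel

theorem ytv419 : DT.all (wzR cT Cz.tj Cz.tp Cz.tv) Cz.tv419 = true := by decide +kernel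


end Pool.Agent.Lib.MP_5854e1_co.Cz

namespace Pool.Agent.Lib.MP_5854e1_co.Cz

open Pool.Agent.Lib.MP_5854e1_co PB

theorem ytv1921 : DT.all (wzR cT Cz.tj Cz.tp Cz.tv) Cz.tv1921 = true := by decide +kernel

theorem ytv1922 : DT.all (wzR cT Cz.tj Cz.tp Cz.tv) Cz.tv1922 = true := by decide +kernel

theorem ytv1923 : DT.all (wzR cT Cz.tj Cz.tp Cz.tv) Cz.tv1923 = true := by decide +kernel

theorem ytv1924 : DT.all (wzR cT Cz.tj Cz.tp Cz.tv) Cz.tv1924 = true := by decide +kernel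

theorem ytv1925 : DT.all (wzR cT Cz.tj Cz.tp Cz.tv) Cz.tv1925 = true := by decide +kernel

theorem ytv1926 : DT.all (wzR cT Cz.tj Cz.tp Cz.tv) Cz.tv1926 = true := by decide +kernel

theorem ytv1927 : DT.all (wzR cT Cz.tj Cz.tp Cz.tv) Cz.tv1927 = true := by decide +kernel

theorem ytv1928 : DT.all (wzR cT Cz.tj Cz.tp Cz.tv) Cz.tv1928 = true := by decide +kernel

theorem ytv1929 : DT.all (wzR cT Cz.tj Cz.tp Cz.tv) Cz.tv1929 = true := by decide +kernel


end Pool.Agent.Lib.MP_5854e1_co.Cz
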