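import Pool.Agent.Lib.MP_5854e1_co.Cz.P

/-!
# The rows of the rings
-/

set_option autoImplicit false
set_option maxRecDepth 100000
set_option deprecated.oldSectionVars true

namespace Pool.Agent.Lib.MP_5854e1_co.Cz

open Pool.Agent.Lib.MP_5854e1_co PB

theorem ytv4132 : DT.all (wzR cT Cz.tj Cz.tp Cz.tv) Cz.tv4132 = true := by decide +kernel

theorem ytv4133 : DT.all (wzR cT Cz.tj Cz.tp Cz.tv) Cz.tv4133 = true := by decide +kernel

theorem ytv4134 : DT.all (wzR cT Cz.tj Cz.tp Cz.tv) Cz.tv4134 = true := by decide +kernel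

theorem ytv4135 : DT.all (wzR cT Cz.tj Cz.tp Cz.tv) Cz.tv4135 = true := by decide +kernel

theorem ytv4136 : DT.all (wzR cT Cz.tj Cz.tp Cz.tv) Cz.tv4136 = true := by decide +kernel

theorem ytv4137 : DT.all (wzR cT Cz.tj Cz.tp Cz.tv) Cz.tv4137 = true := by decide +kernel

theorem ytv4138 : DT.all (wzR cT Cz.tj Cz.tp Cz.tv) Cz.tv4138 = true := by decide +kernel

theorem ytv4139 : DT.all (wzR cT Cz.tj Cz.tp Cz.tv) Cz.tv4139 = true := by decide +kernel


end Pool.Agent.Lib.MP_5854e1_co.Cz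

namespace Pool.Agent.Lib.MP_5854e1_co.Cz

open Pool.Agent.Lib.MP_5854e1_co PB

theorem ytv5443 : DT.all (wzR cT Cz.tj Cz.tp Cz.tv) Cz.tv5443 = true := by decide +kernel

theorem ytv5444 : DT.all (wzR cT Cz.tj Cz.tp Cz.tv) Cz.tv5444 = true := by decide +kernel

theorem ytv5445 : DT.all (wzR cT Cz.tj Cz.tp Cz.tv) Cz.tv5445 = true := by decide +kernel

theorem ytv5446 : DT.all (wzR cT Cz.tj Cz.tp Cz.tv) Cz.tv5446 = true := by decide +kernel

theorem ytv5447 : DT.all (wzR cT Cz.tj Cz.tp Cz.tv) Cz.tv5447 = true := by decide +kernel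

theorem ytv5448 : DT.all (wzR cT Cz.tj Cz.tp Cz.tv) Cz.tv5448 = true := by decide +kernel

theorem ytv5449 : DT.all (wzR cT Cz.tj Cz.tp Cz.tv) Cz.tv5449 = true := by decide +kernel

theorem ytv5450 : DT.all (wzR cT Cz.tj Cz.tp Cz.tv) Cz.tv5450 = true := by decide +kernel


end Pool.Agent.Lib.MP_5854e1_co.Cz
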