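import Pool.Agent.Lib.MP_5854e1_co.Cz.P

/-!
# The rows of the rings
-/

set_option autoImplicit false
set_option maxRecDepth 100000
set_option deprecated.oldSectionVars true

namespace Pool.Agent.Lib.MP_5854e1_co.Cz

open Pool.Agent.Lib.MP_5854e1_co PB

theorem ytv4140 : DT.all (wzR cT Cz.tj Cz.tp Cz.tv) Cz.tv4140 = true := by decide +kernel

theorem ytv4141 : DT.all (wzR cT Cz.tj Cz.tp Cz.tv) Cz.tv4141 = true := by decide +kernel

theorem ytv4142 : DT.all (wzR cT Cz.tj Cz.tp Cz.tv) Cz.tv4142 = true := by decide +kernel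

theorem ytv4143 : DT.all (wzR cT Cz.tj Cz.tp Cz.tv) Cz.tv4143 = true := by decide +kernel

theorem ytv4144 : DT.all (wzR cT Cz.tj Cz.tp Cz.tv) Cz.tv4144 = true := by decide +kernel

theorem ytv4145 : DT.all (wzR cT Cz.tj Cz.tp Cz.tv) Cz.tv4145 = true := by decide +kernel

theorem ytv4146 : DT.all (wzR cT Cz.tj Cz.tp Cz.tv) Cz.tv4146 = true := by decide +kernel

theorem ytv4147 : DT.all (wzR cT Cz.tj Cz.tp Cz.tv) Cz.tv4147 = true := by decide +kernel

theorem ytv4148 : DT.all (wzR cT Cz.tj Cz.tp Cz.tv) Cz.tv4148 = true := by decide +kernel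


end Pool.Agent.Lib.MP_5854e1_co.Cz

namespace Pool.Agent.Lib.MP_5854e1_co.Cz

open Pool.Agent.Lib.MP_5854e1_co PB

theorem ytv4932 : DT.all (wzR cT Cz.tj Cz.tp Cz.tv) Cz.tv4932 = true := by decide +kernel

theorem ytv4933 : DT.all (wzR cT Cz.tj Cz.tp Cz.tv) Cz.tv4933 = true := by decide +kernel

theorem ytv4934 : DT.all (wzR cT Cz.tj Cz.tp Cz.tv) Cz.tv4934 = true := by decide +kernel

theorem ytv4935 : DT.all (wzR cT Cz.tj Cz.tp Cz.tv) Cz.tv4935 = true := by decide +kernel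

theorem ytv4936 : DT.all (wzR cT Cz.tj Cz.tp Cz.tv) Cz.tv4936 = true := by decide +kernel

theorem ytv4937 : DT.all (wzR cT Cz.tj Cz.tp Cz.tv) Cz.tv4937 = true := by decide +kernel

theorem ytv4938 : DT.all (wzR cT Cz.tj Cz.tp Cz.tv) Cz.tv4938 = true := by decide +kernel

theorem ytv4939 : DT.all (wzR cT Cz.tj Cz.tp Cz.tv) Cz.tv4939 = true := by decide +kernel


end Pool.Agent.Lib.MP_5854e1_co.Cz
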