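import Pool.Agent.Lib.MP_5854e1_co.Cz.P

/-!
# The rows of the rings
-/

set_option autoImplicit false
set_option maxRecDepth 100000
set_option deprecated.oldSectionVars true

namespace Pool.Agent.Lib.MP_5854e1_co.Cz

open Pool.Agent.Lib.MP_5854e1_co PB

theorem ytv4149 : DT.all (wzR cT Cz.tj Cz.tp Cz.tv) Cz.tv4149 = true := by decide +kernel

theorem ytv4150 : DT.all (wzR cT Cz.tj Cz.tp Cz.tv) Cz.tv4150 = true := by decide +kernel

theorem ytv4151 : DT.all (wzR cT Cz.tj Cz.tp Cz.tv) Cz.tv4151 = true := by decide +kernel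

theorem ytv4152 : DT.all (wzR cT Cz.tj Cz.tp Cz.tv) Cz.tv4152 = true := by decide +kernel

theorem ytv4153 : DT.all (wzR cT Cz.tj Cz.tp Cz.tv) Cz.tv4153 = true := by decide +kernel

theorem ytv4154 : DT.all (wzR cT Cz.tj Cz.tp Cz.tv) Cz.tv4154 = true := by decide +kernel

theorem ytv4155 : DT.all (wzR cT Cz.tj Cz.tp Cz.tv) Cz.tv4155 = true := by decide +kernel

theorem ytv4156 : DT.all (wzR cT Cz.tj Cz.tp Cz.tv) Cz.tv4156 = true := by decide +kernel

theorem ytv4157 : DT.all (wzR cT Cz.tj Cz.tp Cz.tv) Cz.tv4157 = true := by decide +kernel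


end Pool.Agent.Lib.MP_5854e1_co.Cz
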