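import Pool.Agent.Lib.MP_5854e1_co.Cz.P

/-!
# The rows of the rings
-/

set_option autoImplicit false
set_option maxRecDepth 100000
set_option deprecated.oldSectionVars true

namespace Pool.Agent.Lib.MP_5854e1_co.Cz

open Pool.Agent.Lib.MP_5854e1_co PB

theorem ytv4167 : DT.all (wzR cT Cz.tj Cz.tp Cz.tv) Cz.tv4167 = true := by decide +kernel

theorem ytv4168 : DT.all (wzR cT Cz.tj Cz.tp Cz.tv) Cz.tv4168 = true := by decide +kernel

theorem ytv4169 : DT.all (wzR cT Cz.tj Cz.tp Cz.tv) Cz.tv4169 = true := by decide +kernel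

theorem ytv4170 : DT.all (wzR cT Cz.tj Cz.tp Cz.tv) Cz.tv4170 = true := by decide +kernel

theorem ytv4171 : DT.all (wzR cT Cz.tj Cz.tp Cz.tv) Cz.tv4171 = true := by decide +kernel

theorem ytv4172 : DT.all (wzR cT Cz.tj Cz.tp Cz.tv) Cz.tv4172 = true := by decide +kernel

theorem ytv4173 : DT.all (wzR cT Cz.tj Cz.tp Cz.tv) Cz.tv4173 = true := by decide +kernel

theorem ytv4174 : DT.all (wzR cT Cz.tj Cz.tp Cz.tv) Cz.tv4174 = true := by decide +kernel

theorem ytv4175 : DT.all (wzR cT Cz.tj Cz.tp Cz.tv) Cz.tv4175 = true := by decide +kernel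

theorem ytv4176 : DT.all (wzR cT Cz.tj Cz.tp Cz.tv) Cz.tv4176 = true := by decide +kernel


end Pool.Agent.Lib.MP_5854e1_co.Cz
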