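import Pool.Agent.Lib.MP_5854e1_co.Cz.P

/-!
# The rows of the rings
-/

set_option autoImplicit false
set_option maxRecDepth 100000
set_option deprecated.oldSectionVars true

namespace Pool.Agent.Lib.MP_5854e1_co.Cz

open Pool.Agent.Lib.MP_5854e1_co PB

theorem ytv4177 : DT.all (wzR cT Cz.tj Cz.tp Cz.tv) Cz.tv4177 = true := by decide +kernel

theorem ytv4178 : DT.all (wzR cT Cz.tj Cz.tp Cz.tv) Cz.tv4178 = true := by decide +kernel

theorem ytv4179 : DT.all (wzR cT Cz.tj Cz.tp Cz.tv) Cz.tv4179 = true := by decide +kernel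

theorem ytv4180 : DT.all (wzR cT Cz.tj Cz.tp Cz.tv) Cz.tv4180 = true := by decide +kernel

theorem ytv4181 : DT.all (wzR cT Cz.tj Cz.tp Cz.tv) Cz.tv4181 = true := by decide +kernel

theorem ytv4182 : DT.all (wzR cT Cz.tj Cz.tp Cz.tv) Cz.tv4182 = true := by decide +kernel

theorem ytv4183 : DT.all (wzR cT Cz.tj Cz.tp Cz.tv) Cz.tv4183 = true := by decide +kernel

theorem ytv4184 : DT.all (wzR cT Cz.tj Cz.tp Cz.tv) Cz.tv4184 = true := by decide +kernel

theorem ytv4185 : DT.all (wzR cT Cz.tj Cz.tp Cz.tv) Cz.tv4185 = true := by decide +kernel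

theorem ytv4186 : DT.all (wzR cT Cz.tj Cz.tp Cz.tv) Cz.tv4186 = true := by decide +kernel


end Pool.Agent.Lib.MP_5854e1_co.Cz

namespace Pool.Agent.Lib.MP_5854e1_co.Cz

open Pool.Agent.Lib.MP_5854e1_co PB

theorem ytv5354 : DT.all (wzR cT Cz.tj Cz.tp Cz.tv) Cz.tv5354 = true := by decide +kernel

theorem ytv5355 : DT.all (wzR cT Cz.tj Cz.tp Cz.tv) Cz.tv5355 = true := by decide +kernel

theorem ytv5356 : DT.all (wzR cT Cz.tj Cz.tp Cz.tv) Cz.tv5356 = true := by decide +kernel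

theorem ytv5357 : DT.all (wzR cT Cz.tj Cz.tp Cz.tv) Cz.tv5357 = true := by decide +kernel

theorem ytv5358 : DT.all (wzR cT Cz.tj Cz.tp Cz.tv) Cz.tv5358 = true := by decide +kernel

theorem ytv5359 : DT.all (wzR cT Cz.tj Cz.tp Cz.tv) Cz.tv5359 = true := by decide +kernel

theorem ytv5360 : DT.all (wzR cT Cz.tj Cz.tp Cz.tv) Cz.tv5360 = true := by decide +kernel

theorem ytv5361 : DT.all (wzR cT Cz.tj Cz.tp Cz.tv) Cz.tv5361 = true := by decide +kernel


end Pool.Agent.Lib.MP_5854e1_co.Cz
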