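import Pool.Agent.Lib.MP_5854e1_co.Cz.P

/-!
# The rows of the rings
-/

set_option autoImplicit false
set_option maxRecDepth 100000
set_option deprecated.oldSectionVars true

namespace Pool.Agent.Lib.MP_5854e1_co.Cz

open Pool.Agent.Lib.MP_5854e1_co PB

theorem ytv4194 : DT.all (wzR cT Cz.tj Cz.tp Cz.tv) Cz.tv4194 = true := by decide +kernel

theorem ytv4195 : DT.all (wzR cT Cz.tj Cz.tp Cz.tv) Cz.tv4195 = true := by decide +kernel

theorem ytv4196 : DT.all (wzR cT Cz.tj Cz.tp Cz.tv) Cz.tv4196 = true := by decide +kernel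

theorem ytv4197 : DT.all (wzR cT Cz.tj Cz.tp Cz.tv) Cz.tv4197 = true := by decide +kernel

theorem ytv4198 : DT.all (wzR cT Cz.tj Cz.tp Cz.tv) Cz.tv4198 = true := by decide +kernel

theorem ytv4199 : DT.all (wzR cT Cz.tj Cz.tp Cz.tv) Cz.tv4199 = true := by decide +kernel

theorem ytv4200 : DT.all (wzR cT Cz.tj Cz.tp Cz.tv) Cz.tv4200 = true := by decide +kernel

theorem ytv4201 : DT.all (wzR cT Cz.tj Cz.tp Cz.tv) Cz.tv4201 = true := by decide +kernel

theorem ytv4202 : DT.all (wzR cT Cz.tj Cz.tp Cz.tv) Cz.tv4202 = true := by decide +kernel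


end Pool.Agent.Lib.MP_5854e1_co.Cz
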