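import Pool.Agent.Lib.MP_5854e1_co.Cz.P

/-!
# The rows of the rings
-/

set_option autoImplicit false
set_option maxRecDepth 100000
set_option deprecated.oldSectionVars true

namespace Pool.Agent.Lib.MP_5854e1_co.Cz

open Pool.Agent.Lib.MP_5854e1_co PB

theorem ytv4203 : DT.all (wzR cT Cz.tj Cz.tp Cz.tv) Cz.tv4203 = true := by decide +kernel

theorem ytv4204 : DT.all (wzR cT Cz.tj Cz.tp Cz.tv) Cz.tv4204 = true := by decide +kernel

theorem ytv4205 : DT.all (wzR cT Cz.tj Cz.tp Cz.tv) Cz.tv4205 = true := by decide +kernel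

theorem ytv4206 : DT.all (wzR cT Cz.tj Cz.tp Cz.tv) Cz.tv4206 = true := by decide +kernel

theorem ytv4207 : DT.all (wzR cT Cz.tj Cz.tp Cz.tv) Cz.tv4207 = true := by decide +kernel

theorem ytv4208 : DT.all (wzR cT Cz.tj Cz.tp Cz.tv) Cz.tv4208 = true := by decide +kernel

theorem ytv4209 : DT.all (wzR cT Cz.tj Cz.tp Cz.tv) Cz.tv4209 = true := by decide +kernel

theorem ytv4210 : DT.all (wzR cT Cz.tj Cz.tp Cz.tv) Cz.tv4210 = true := by decide +kernel


end Pool.Agent.Lib.MP_5854e1_co.Cz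

namespace Pool.Agent.Lib.MP_5854e1_co.Cz

open Pool.Agent.Lib.MP_5854e1_co PB

theorem ytv4305 : DT.all (wzR cT Cz.tj Cz.tp Cz.tv) Cz.tv4305 = true := by decide +kernel

theorem ytv4306 : DT.all (wzR cT Cz.tj Cz.tp Cz.tv) Cz.tv4306 = true := by decide +kernel

theorem ytv4307 : DT.all (wzR cT Cz.tj Cz.tp Cz.tv) Cz.tv4307 = true := by decide +kernel

theorem ytv4308 : DT.all (wzR cT Cz.tj Cz.tp Cz.tv) Cz.tv4308 = true := by decide +kernel

theorem ytv4309 : DT.all (wzR cT Cz.tj Cz.tp Cz.tv) Cz.tv4309 = true := by decide +kernel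

theorem ytv4310 : DT.all (wzR cT Cz.tj Cz.tp Cz.tv) Cz.tv4310 = true := by decide +kernel

theorem ytv4311 : DT.all (wzR cT Cz.tj Cz.tp Cz.tv) Cz.tv4311 = true := by decide +kernel

theorem ytv4312 : DT.all (wzR cT Cz.tj Cz.tp Cz.tv) Cz.tv4312 = true := by decide +kernel


end Pool.Agent.Lib.MP_5854e1_co.Cz
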