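import Pool.Agent.Lib.MP_5854e1_co.Cz.P

/-!
# The rows of the rings
-/

set_option autoImplicit false
set_option maxRecDepth 100000
set_option deprecated.oldSectionVars true

namespace Pool.Agent.Lib.MP_5854e1_co.Cz

open Pool.Agent.Lib.MP_5854e1_co PB

theorem ytv420 : DT.all (wzR cT Cz.tj Cz.tp Cz.tv) Cz.tv420 = true := by decide +kernel

theorem ytv421 : DT.all (wzR cT Cz.tj Cz.tp Cz.tv) Cz.tv421 = true := by decide +kernel

theorem ytv422 : DT.all (wzR cT Cz.tj Cz.tp Cz.tv) Cz.tv422 = true := by decide +kernel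

theorem ytv423 : DT.all (wzR cT Cz.tj Cz.tp Cz.tv) Cz.tv423 = true := by decide +kernel

theorem ytv424 : DT.all (wzR cT Cz.tj Cz.tp Cz.tv) Cz.tv424 = true := by decide +kernel

theorem ytv425 : DT.all (wzR cT Cz.tj Cz.tp Cz.tv) Cz.tv425 = true := by decide +kernel

theorem ytv426 : DT.all (wzR cT Cz.tj Cz.tp Cz.tv) Cz.tv426 = true := by decide +kernel

theorem ytv427 : DT.all (wzR cT Cz.tj Cz.tp Cz.tv) Cz.tv427 = true := by decide +kernel


end Pool.Agent.Lib.MP_5854e1_co.Cz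

namespace Pool.Agent.Lib.MP_5854e1_co.Cz

open Pool.Agent.Lib.MP_5854e1_co PB

theorem ytv2712 : DT.all (wzR cT Cz.tj Cz.tp Cz.tv) Cz.tv2712 = true := by decide +kernel

theorem ytv2713 : DT.all (wzR cT Cz.tj Cz.tp Cz.tv) Cz.tv2713 = true := by decide +kernel

theorem ytv2714 : DT.all (wzR cT Cz.tj Cz.tp Cz.tv) Cz.tv2714 = true := by decide +kernel

theorem ytv2715 : DT.all (wzR cT Cz.tj Cz.tp Cz.tv) Cz.tv2715 = true := by decide +kernel

theorem ytv2716 : DT.all (wzR cT Cz.tj Cz.tp Cz.tv) Cz.tv2716 = true := by decide +kernel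

theorem ytv2717 : DT.all (wzR cT Cz.tj Cz.tp Cz.tv) Cz.tv2717 = true := by decide +kernel

theorem ytv2718 : DT.all (wzR cT Cz.tj Cz.tp Cz.tv) Cz.tv2718 = true := by decide +kernel

theorem ytv2719 : DT.all (wzR cT Cz.tj Cz.tp Cz.tv) Cz.tv2719 = true := by decide +kernel


end Pool.Agent.Lib.MP_5854e1_co.Cz
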