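import Pool.Agent.Lib.MP_5854e1_co.Cz.P

/-!
# The rows of the rings
-/

set_option autoImplicit false
set_option maxRecDepth 100000
set_option deprecated.oldSectionVars true

namespace Pool.Agent.Lib.MP_5854e1_co.Cz

open Pool.Agent.Lib.MP_5854e1_co PB

theorem ytv4261 : DT.all (wzR cT Cz.tj Cz.tp Cz.tv) Cz.tv4261 = true := by decide +kernel

theorem ytv4262 : DT.all (wzR cT Cz.tj Cz.tp Cz.tv) Cz.tv4262 = true := by decide +kernel

theorem ytv4263 : DT.all (wzR cT Cz.tj Cz.tp Cz.tv) Cz.tv4263 = true := by decide +kernel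

theorem ytv4264 : DT.all (wzR cT Cz.tj Cz.tp Cz.tv) Cz.tv4264 = true := by decide +kernel


end Pool.Agent.Lib.MP_5854e1_co.Cz

namespace Pool.Agent.Lib.MP_5854e1_co.Cz

open Pool.Agent.Lib.MP_5854e1_co PB

theorem ytv4847 : DT.all (wzR cT Cz.tj Cz.tp Cz.tv) Cz.tv4847 = true := by decide +kernel

theorem ytv4848 : DT.all (wzR cT Cz.tj Cz.tp Cz.tv) Cz.tv4848 = true := by decide +kernel

theorem ytv4849 : DT.all (wzR cT Cz.tj Cz.tp Cz.tv) Cz.tv4849 = true := by decide +kernel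

theorem ytv4850 : DT.all (wzR cT Cz.tj Cz.tp Cz.tv) Cz.tv4850 = true := by decide +kernel

theorem ytv4851 : DT.all (wzR cT Cz.tj Cz.tp Cz.tv) Cz.tv4851 = true := by decide +kernel

theorem ytv4852 : DT.all (wzR cT Cz.tj Cz.tp Cz.tv) Cz.tv4852 = true := by decide +kernel

theorem ytv4853 : DT.all (wzR cT Cz.tj Cz.tp Cz.tv) Cz.tv4853 = true := by decide +kernel

theorem ytv4854 : DT.all (wzR cT Cz.tj Cz.tp Cz.tv) Cz.tv4854 = true := by decide +kernel


end Pool.Agent.Lib.MP_5854e1_co.Cz
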