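import Pool.Agent.Lib.MP_5854e1_co.Cz.P

/-!
# The rows of the rings
-/

set_option autoImplicit false
set_option maxRecDepth 100000
set_option deprecated.oldSectionVars true

namespace Pool.Agent.Lib.MP_5854e1_co.Cz

open Pool.Agent.Lib.MP_5854e1_co PB

theorem ytv4279 : DT.all (wzR cT Cz.tj Cz.tp Cz.tv) Cz.tv4279 = true := by decide +kernel

theorem ytv4280 : DT.all (wzR cT Cz.tj Cz.tp Cz.tv) Cz.tv4280 = true := by decide +kernel

theorem ytv4281 : DT.all (wzR cT Cz.tj Cz.tp Cz.tv) Cz.tv4281 = true := by decide +kernel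

theorem ytv4282 : DT.all (wzR cT Cz.tj Cz.tp Cz.tv) Cz.tv4282 = true := by decide +kernel

theorem ytv4283 : DT.all (wzR cT Cz.tj Cz.tp Cz.tv) Cz.tv4283 = true := by decide +kernel

theorem ytv4284 : DT.all (wzR cT Cz.tj Cz.tp Cz.tv) Cz.tv4284 = true := by decide +kernel

theorem ytv4285 : DT.all (wzR cT Cz.tj Cz.tp Cz.tv) Cz.tv4285 = true := by decide +kernel

theorem ytv4286 : DT.all (wzR cT Cz.tj Cz.tp Cz.tv) Cz.tv4286 = true := by decide +kernel

theorem ytv4287 : DT.all (wzR cT Cz.tj Cz.tp Cz.tv) Cz.tv4287 = true := by decide +kernel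


end Pool.Agent.Lib.MP_5854e1_co.Cz
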