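import Pool.Agent.Lib.MP_5854e1_co.Cz.P

/-!
# The rows of the rings
-/

set_option autoImplicit false
set_option maxRecDepth 100000
set_option deprecated.oldSectionVars true

namespace Pool.Agent.Lib.MP_5854e1_co.Cz

open Pool.Agent.Lib.MP_5854e1_co PB

theorem ytv428 : DT.all (wzR cT Cz.tj Cz.tp Cz.tv) Cz.tv428 = true := by decide +kernel

theorem ytv429 : DT.all (wzR cT Cz.tj Cz.tp Cz.tv) Cz.tv429 = true := by decide +kernel

theorem ytv430 : DT.all (wzR cT Cz.tj Cz.tp Cz.tv) Cz.tv430 = true := by decide +kernel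

theorem ytv431 : DT.all (wzR cT Cz.tj Cz.tp Cz.tv) Cz.tv431 = true := by decide +kernel

theorem ytv432 : DT.all (wzR cT Cz.tj Cz.tp Cz.tv) Cz.tv432 = true := by decide +kernel

theorem ytv433 : DT.all (wzR cT Cz.tj Cz.tp Cz.tv) Cz.tv433 = true := by decide +kernel

theorem ytv434 : DT.all (wzR cT Cz.tj Cz.tp Cz.tv) Cz.tv434 = true := by decide +kernel


end Pool.Agent.Lib.MP_5854e1_co.Cz

namespace Pool.Agent.Lib.MP_5854e1_co.Cz

open Pool.Agent.Lib.MP_5854e1_co PB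

theorem ytv2939 : DT.all (wzR cT Cz.tj Cz.tp Cz.tv) Cz.tv2939 = true := by decide +kernel

theorem ytv2940 : DT.all (wzR cT Cz.tj Cz.tp Cz.tv) Cz.tv2940 = true := by decide +kernel

theorem ytv2941 : DT.all (wzR cT Cz.tj Cz.tp Cz.tv) Cz.tv2941 = true := by decide +kernel

theorem ytv2942 : DT.all (wzR cT Cz.tj Cz.tp Cz.tv) Cz.tv2942 = true := by decide +kernel

theorem ytv2943 : DT.all (wzR cT Cz.tj Cz.tp Cz.tv) Cz.tv2943 = true := by decide +kernel

theorem ytv2944 : DT.all (wzR cT Cz.tj Cz.tp Cz.tv) Cz.tv2944 = true := by decide +kernel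

theorem ytv2945 : DT.all (wzR cT Cz.tj Cz.tp Cz.tv) Cz.tv2945 = true := by decide +kernel

theorem ytv2946 : DT.all (wzR cT Cz.tj Cz.tp Cz.tv) Cz.tv2946 = true := by decide +kernel


end Pool.Agent.Lib.MP_5854e1_co.Cz
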