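import Pool.Agent.Lib.MP_5854e1_co.Cz.P

/-!
# The rows of the rings
-/

set_option autoImplicit false
set_option maxRecDepth 100000
set_option deprecated.oldSectionVars true

namespace Pool.Agent.Lib.MP_5854e1_co.Cz

open Pool.Agent.Lib.MP_5854e1_co PB

theorem ytv4313 : DT.all (wzR cT Cz.tj Cz.tp Cz.tv) Cz.tv4313 = true := by decide +kernel

theorem ytv4314 : DT.all (wzR cT Cz.tj Cz.tp Cz.tv) Cz.tv4314 = true := by decide +kernel

theorem ytv4315 : DT.all (wzR cT Cz.tj Cz.tp Cz.tv) Cz.tv4315 = true := by decide +kernel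

theorem ytv4316 : DT.all (wzR cT Cz.tj Cz.tp Cz.tv) Cz.tv4316 = true := by decide +kernel

theorem ytv4317 : DT.all (wzR cT Cz.tj Cz.tp Cz.tv) Cz.tv4317 = true := by decide +kernel

theorem ytv4318 : DT.all (wzR cT Cz.tj Cz.tp Cz.tv) Cz.tv4318 = true := by decide +kernel

theorem ytv4319 : DT.all (wzR cT Cz.tj Cz.tp Cz.tv) Cz.tv4319 = true := by decide +kernel

theorem ytv4320 : DT.all (wzR cT Cz.tj Cz.tp Cz.tv) Cz.tv4320 = true := by decide +kernel

theorem ytv4321 : DT.all (wzR cT Cz.tj Cz.tp Cz.tv) Cz.tv4321 = true := by decide +kernel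


end Pool.Agent.Lib.MP_5854e1_co.Cz

namespace Pool.Agent.Lib.MP_5854e1_co.Cz

open Pool.Agent.Lib.MP_5854e1_co PB

theorem ytv5139 : DT.all (wzR cT Cz.tj Cz.tp Cz.tv) Cz.tv5139 = true := by decide +kernel

theorem ytv5140 : DT.all (wzR cT Cz.tj Cz.tp Cz.tv) Cz.tv5140 = true := by decide +kernel

theorem ytv5141 : DT.all (wzR cT Cz.tj Cz.tp Cz.tv) Cz.tv5141 = true := by decide +kernel

theorem ytv5142 : DT.all (wzR cT Cz.tj Cz.tp Cz.tv) Cz.tv5142 = true := by decide +kernel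

theorem ytv5143 : DT.all (wzR cT Cz.tj Cz.tp Cz.tv) Cz.tv5143 = true := by decide +kernel

theorem ytv5144 : DT.all (wzR cT Cz.tj Cz.tp Cz.tv) Cz.tv5144 = true := by decide +kernel

theorem ytv5145 : DT.all (wzR cT Cz.tj Cz.tp Cz.tv) Cz.tv5145 = true := by decide +kernel

theorem ytv5146 : DT.all (wzR cT Cz.tj Cz.tp Cz.tv) Cz.tv5146 = true := by decide +kernel


end Pool.Agent.Lib.MP_5854e1_co.Cz
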