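import Pool.Agent.Lib.MP_5854e1_co.Cz.P

/-!
# The rows of the rings
-/

set_option autoImplicit false
set_option maxRecDepth 100000
set_option deprecated.oldSectionVars true

namespace Pool.Agent.Lib.MP_5854e1_co.Cz

open Pool.Agent.Lib.MP_5854e1_co PB

theorem ytv4322 : DT.all (wzR cT Cz.tj Cz.tp Cz.tv) Cz.tv4322 = true := by decide +kernel

theorem ytv4323 : DT.all (wzR cT Cz.tj Cz.tp Cz.tv) Cz.tv4323 = true := by decide +kernel

theorem ytv4324 : DT.all (wzR cT Cz.tj Cz.tp Cz.tv) Cz.tv4324 = true := by decide +kernel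

theorem ytv4325 : DT.all (wzR cT Cz.tj Cz.tp Cz.tv) Cz.tv4325 = true := by decide +kernel

theorem ytv4326 : DT.all (wzR cT Cz.tj Cz.tp Cz.tv) Cz.tv4326 = true := by decide +kernel

theorem ytv4327 : DT.all (wzR cT Cz.tj Cz.tp Cz.tv) Cz.tv4327 = true := by decide +kernel

theorem ytv4328 : DT.all (wzR cT Cz.tj Cz.tp Cz.tv) Cz.tv4328 = true := by decide +kernel

theorem ytv4329 : DT.all (wzR cT Cz.tj Cz.tp Cz.tv) Cz.tv4329 = true := by decide +kernel

theorem ytv4330 : DT.all (wzR cT Cz.tj Cz.tp Cz.tv) Cz.tv4330 = true := by decide +kernel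


end Pool.Agent.Lib.MP_5854e1_co.Cz
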