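import Pool.Agent.Lib.MP_5854e1_co.Cz.P

/-!
# The rows of the rings
-/

set_option autoImplicit false
set_option maxRecDepth 100000
set_option deprecated.oldSectionVars true

namespace Pool.Agent.Lib.MP_5854e1_co.Cz

open Pool.Agent.Lib.MP_5854e1_co PB

theorem ytv4340 : DT.all (wzR cT Cz.tj Cz.tp Cz.tv) Cz.tv4340 = true := by decide +kernel

theorem ytv4341 : DT.all (wzR cT Cz.tj Cz.tp Cz.tv) Cz.tv4341 = true := by decide +kernel

theorem ytv4342 : DT.all (wzR cT Cz.tj Cz.tp Cz.tv) Cz.tv4342 = true := by decide +kernel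

theorem ytv4343 : DT.all (wzR cT Cz.tj Cz.tp Cz.tv) Cz.tv4343 = true := by decide +kernel

theorem ytv4344 : DT.all (wzR cT Cz.tj Cz.tp Cz.tv) Cz.tv4344 = true := by decide +kernel

theorem ytv4345 : DT.all (wzR cT Cz.tj Cz.tp Cz.tv) Cz.tv4345 = true := by decide +kernel

theorem ytv4346 : DT.all (wzR cT Cz.tj Cz.tp Cz.tv) Cz.tv4346 = true := by decide +kernel

theorem ytv4347 : DT.all (wzR cT Cz.tj Cz.tp Cz.tv) Cz.tv4347 = true := by decide +kernel

theorem ytv4348 : DT.all (wzR cT Cz.tj Cz.tp Cz.tv) Cz.tv4348 = true := by decide +kernel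


end Pool.Agent.Lib.MP_5854e1_co.Cz

namespace Pool.Agent.Lib.MP_5854e1_co.Cz

open Pool.Agent.Lib.MP_5854e1_co PB

theorem ytv4710 : DT.all (wzR cT Cz.tj Cz.tp Cz.tv) Cz.tv4710 = true := by decide +kernel

theorem ytv4711 : DT.all (wzR cT Cz.tj Cz.tp Cz.tv) Cz.tv4711 = true := by decide +kernel

theorem ytv4712 : DT.all (wzR cT Cz.tj Cz.tp Cz.tv) Cz.tv4712 = true := by decide +kernel


end Pool.Agent.Lib.MP_5854e1_co.Cz
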