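import Pool.Agent.Lib.MP_5854e1_co.Cz.P

/-!
# The rows of the rings
-/

set_option autoImplicit false
set_option maxRecDepth 100000
set_option deprecated.oldSectionVars true

namespace Pool.Agent.Lib.MP_5854e1_co.Cz

open Pool.Agent.Lib.MP_5854e1_co PB

theorem ytv4349 : DT.all (wzR cT Cz.tj Cz.tp Cz.tv) Cz.tv4349 = true := by decide +kernel

theorem ytv4350 : DT.all (wzR cT Cz.tj Cz.tp Cz.tv) Cz.tv4350 = true := by decide +kernel

theorem ytv4351 : DT.all (wzR cT Cz.tj Cz.tp Cz.tv) Cz.tv4351 = true := by decide +kernel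

theorem ytv4352 : DT.all (wzR cT Cz.tj Cz.tp Cz.tv) Cz.tv4352 = true := by decide +kernel

theorem ytv4353 : DT.all (wzR cT Cz.tj Cz.tp Cz.tv) Cz.tv4353 = true := by decide +kernel

theorem ytv4354 : DT.all (wzR cT Cz.tj Cz.tp Cz.tv) Cz.tv4354 = true := by decide +kernel

theorem ytv4355 : DT.all (wzR cT Cz.tj Cz.tp Cz.tv) Cz.tv4355 = true := by decide +kernel

theorem ytv4356 : DT.all (wzR cT Cz.tj Cz.tp Cz.tv) Cz.tv4356 = true := by decide +kernel


end Pool.Agent.Lib.MP_5854e1_co.Cz
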