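import Pool.Agent.Lib.MP_5854e1_co.Cz.P

/-!
# The rows of the rings
-/

set_option autoImplicit false
set_option maxRecDepth 100000
set_option deprecated.oldSectionVars true

namespace Pool.Agent.Lib.MP_5854e1_co.Cz

open Pool.Agent.Lib.MP_5854e1_co PB

theorem ytv435 : DT.all (wzR cT Cz.tj Cz.tp Cz.tv) Cz.tv435 = true := by decide +kernel

theorem ytv436 : DT.all (wzR cT Cz.tj Cz.tp Cz.tv) Cz.tv436 = true := by decide +kernel

theorem ytv437 : DT.all (wzR cT Cz.tj Cz.tp Cz.tv) Cz.tv437 = true := by decide +kernel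

theorem ytv438 : DT.all (wzR cT Cz.tj Cz.tp Cz.tv) Cz.tv438 = true := by decide +kernel

theorem ytv439 : DT.all (wzR cT Cz.tj Cz.tp Cz.tv) Cz.tv439 = true := by decide +kernel

theorem ytv440 : DT.all (wzR cT Cz.tj Cz.tp Cz.tv) Cz.tv440 = true := by decide +kernel

theorem ytv441 : DT.all (wzR cT Cz.tj Cz.tp Cz.tv) Cz.tv441 = true := by decide +kernel

theorem ytv442 : DT.all (wzR cT Cz.tj Cz.tp Cz.tv) Cz.tv442 = true := by decide +kernel


end Pool.Agent.Lib.MP_5854e1_co.Cz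

namespace Pool.Agent.Lib.MP_5854e1_co.Cz

open Pool.Agent.Lib.MP_5854e1_co PB

theorem ytv1057 : DT.all (wzR cT Cz.tj Cz.tp Cz.tv) Cz.tv1057 = true := by decide +kernel

theorem ytv1058 : DT.all (wzR cT Cz.tj Cz.tp Cz.tv) Cz.tv1058 = true := by decide +kernel

theorem ytv1059 : DT.all (wzR cT Cz.tj Cz.tp Cz.tv) Cz.tv1059 = true := by decide +kernel

theorem ytv1060 : DT.all (wzR cT Cz.tj Cz.tp Cz.tv) Cz.tv1060 = true := by decide +kernel

theorem ytv1061 : DT.all (wzR cT Cz.tj Cz.tp Cz.tv) Cz.tv1061 = true := by decide +kernel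

theorem ytv1062 : DT.all (wzR cT Cz.tj Cz.tp Cz.tv) Cz.tv1062 = true := by decide +kernel

theorem ytv1063 : DT.all (wzR cT Cz.tj Cz.tp Cz.tv) Cz.tv1063 = true := by decide +kernel

theorem ytv1064 : DT.all (wzR cT Cz.tj Cz.tp Cz.tv) Cz.tv1064 = true := by decide +kernel


end Pool.Agent.Lib.MP_5854e1_co.Cz
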