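import Pool.Agent.Lib.MP_5854e1_co.Cz.P

/-!
# The rows of the rings
-/

set_option autoImplicit false
set_option maxRecDepth 100000
set_option deprecated.oldSectionVars true

namespace Pool.Agent.Lib.MP_5854e1_co.Cz

open Pool.Agent.Lib.MP_5854e1_co PB

theorem ytv4397 : DT.all (wzR cT Cz.tj Cz.tp Cz.tv) Cz.tv4397 = true := by decide +kernel

theorem ytv4398 : DT.all (wzR cT Cz.tj Cz.tp Cz.tv) Cz.tv4398 = true := by decide +kernel

theorem ytv4399 : DT.all (wzR cT Cz.tj Cz.tp Cz.tv) Cz.tv4399 = true := by decide +kernel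

theorem ytv4400 : DT.all (wzR cT Cz.tj Cz.tp Cz.tv) Cz.tv4400 = true := by decide +kernel

theorem ytv4401 : DT.all (wzR cT Cz.tj Cz.tp Cz.tv) Cz.tv4401 = true := by decide +kernel

theorem ytv4402 : DT.all (wzR cT Cz.tj Cz.tp Cz.tv) Cz.tv4402 = true := by decide +kernel

theorem ytv4403 : DT.all (wzR cT Cz.tj Cz.tp Cz.tv) Cz.tv4403 = true := by decide +kernel

theorem ytv4404 : DT.all (wzR cT Cz.tj Cz.tp Cz.tv) Cz.tv4404 = true := by decide +kernel


end Pool.Agent.Lib.MP_5854e1_co.Cz
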