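import Pool.Agent.Lib.MP_5854e1_co.Cz.P

/-!
# The rows of the rings
-/

set_option autoImplicit false
set_option maxRecDepth 100000
set_option deprecated.oldSectionVars true

namespace Pool.Agent.Lib.MP_5854e1_co.Cz

open Pool.Agent.Lib.MP_5854e1_co PB

theorem ytv4413 : DT.all (wzR cT Cz.tj Cz.tp Cz.tv) Cz.tv4413 = true := by decide +kernel

theorem ytv4414 : DT.all (wzR cT Cz.tj Cz.tp Cz.tv) Cz.tv4414 = true := by decide +kernel

theorem ytv4415 : DT.all (wzR cT Cz.tj Cz.tp Cz.tv) Cz.tv4415 = true := by decide +kernel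

theorem ytv4416 : DT.all (wzR cT Cz.tj Cz.tp Cz.tv) Cz.tv4416 = true := by decide +kernel

theorem ytv4417 : DT.all (wzR cT Cz.tj Cz.tp Cz.tv) Cz.tv4417 = true := by decide +kernel

theorem ytv4418 : DT.all (wzR cT Cz.tj Cz.tp Cz.tv) Cz.tv4418 = true := by decide +kernel

theorem ytv4419 : DT.all (wzR cT Cz.tj Cz.tp Cz.tv) Cz.tv4419 = true := by decide +kernel

theorem ytv4420 : DT.all (wzR cT Cz.tj Cz.tp Cz.tv) Cz.tv4420 = true := by decide +kernel

theorem ytv4421 : DT.all (wzR cT Cz.tj Cz.tp Cz.tv) Cz.tv4421 = true := by decide +kernel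


end Pool.Agent.Lib.MP_5854e1_co.Cz

namespace Pool.Agent.Lib.MP_5854e1_co.Cz

open Pool.Agent.Lib.MP_5854e1_co PB

theorem ytv5011 : DT.all (wzR cT Cz.tj Cz.tp Cz.tv) Cz.tv5011 = true := by decide +kernel

theorem ytv5012 : DT.all (wzR cT Cz.tj Cz.tp Cz.tv) Cz.tv5012 = true := by decide +kernel

theorem ytv5013 : DT.all (wzR cT Cz.tj Cz.tp Cz.tv) Cz.tv5013 = true := by decide +kernel

theorem ytv5014 : DT.all (wzR cT Cz.tj Cz.tp Cz.tv) Cz.tv5014 = true := by decide +kernel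

theorem ytv5015 : DT.all (wzR cT Cz.tj Cz.tp Cz.tv) Cz.tv5015 = true := by decide +kernel


end Pool.Agent.Lib.MP_5854e1_co.Cz
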