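import Pool.Agent.Lib.MP_5854e1_co.Cz.P

/-!
# The rows of the rings
-/

set_option autoImplicit false
set_option maxRecDepth 100000
set_option deprecated.oldSectionVars true

namespace Pool.Agent.Lib.MP_5854e1_co.Cz

open Pool.Agent.Lib.MP_5854e1_co PB

theorem ytv4431 : DT.all (wzR cT Cz.tj Cz.tp Cz.tv) Cz.tv4431 = true := by decide +kernel

theorem ytv4432 : DT.all (wzR cT Cz.tj Cz.tp Cz.tv) Cz.tv4432 = true := by decide +kernel

theorem ytv4433 : DT.all (wzR cT Cz.tj Cz.tp Cz.tv) Cz.tv4433 = true := by decide +kernel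

theorem ytv4434 : DT.all (wzR cT Cz.tj Cz.tp Cz.tv) Cz.tv4434 = true := by decide +kernel

theorem ytv4435 : DT.all (wzR cT Cz.tj Cz.tp Cz.tv) Cz.tv4435 = true := by decide +kernel

theorem ytv4436 : DT.all (wzR cT Cz.tj Cz.tp Cz.tv) Cz.tv4436 = true := by decide +kernel

theorem ytv4437 : DT.all (wzR cT Cz.tj Cz.tp Cz.tv) Cz.tv4437 = true := by decide +kernel

theorem ytv4438 : DT.all (wzR cT Cz.tj Cz.tp Cz.tv) Cz.tv4438 = true := by decide +kernel

theorem ytv4439 : DT.all (wzR cT Cz.tj Cz.tp Cz.tv) Cz.tv4439 = true := by decide +kernel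


end Pool.Agent.Lib.MP_5854e1_co.Cz
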