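import Pool.Agent.Lib.MP_5854e1_co.Cz.P

/-!
# The rows of the rings
-/

set_option autoImplicit false
set_option maxRecDepth 100000
set_option deprecated.oldSectionVars true

namespace Pool.Agent.Lib.MP_5854e1_co.Cz

open Pool.Agent.Lib.MP_5854e1_co PB

theorem ytv443 : DT.all (wzR cT Cz.tj Cz.tp Cz.tv) Cz.tv443 = true := by decide +kernel

theorem ytv444 : DT.all (wzR cT Cz.tj Cz.tp Cz.tv) Cz.tv444 = true := by decide +kernel

theorem ytv445 : DT.all (wzR cT Cz.tj Cz.tp Cz.tv) Cz.tv445 = true := by decide +kernel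

theorem ytv446 : DT.all (wzR cT Cz.tj Cz.tp Cz.tv) Cz.tv446 = true := by decide +kernel

theorem ytv447 : DT.all (wzR cT Cz.tj Cz.tp Cz.tv) Cz.tv447 = true := by decide +kernel

theorem ytv448 : DT.all (wzR cT Cz.tj Cz.tp Cz.tv) Cz.tv448 = true := by decide +kernel

theorem ytv449 : DT.all (wzR cT Cz.tj Cz.tp Cz.tv) Cz.tv449 = true := by decide +kernel

theorem ytv450 : DT.all (wzR cT Cz.tj Cz.tp Cz.tv) Cz.tv450 = true := by decide +kernel

theorem ytv451 : DT.all (wzR cT Cz.tj Cz.tp Cz.tv) Cz.tv451 = true := by decide +kernel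


end Pool.Agent.Lib.MP_5854e1_co.Cz
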