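import Pool.Agent.Lib.MP_5854e1_co.Cz.P

/-!
# The rows of the rings
-/

set_option autoImplicit false
set_option maxRecDepth 100000
set_option deprecated.oldSectionVars true

namespace Pool.Agent.Lib.MP_5854e1_co.Cz

open Pool.Agent.Lib.MP_5854e1_co PB

theorem ytv4478 : DT.all (wzR cT Cz.tj Cz.tp Cz.tv) Cz.tv4478 = true := by decide +kernel

theorem ytv4479 : DT.all (wzR cT Cz.tj Cz.tp Cz.tv) Cz.tv4479 = true := by decide +kernel

theorem ytv4480 : DT.all (wzR cT Cz.tj Cz.tp Cz.tv) Cz.tv4480 = true := by decide +kernel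

theorem ytv4481 : DT.all (wzR cT Cz.tj Cz.tp Cz.tv) Cz.tv4481 = true := by decide +kernel

theorem ytv4482 : DT.all (wzR cT Cz.tj Cz.tp Cz.tv) Cz.tv4482 = true := by decide +kernel

theorem ytv4483 : DT.all (wzR cT Cz.tj Cz.tp Cz.tv) Cz.tv4483 = true := by decide +kernel

theorem ytv4484 : DT.all (wzR cT Cz.tj Cz.tp Cz.tv) Cz.tv4484 = true := by decide +kernel


end Pool.Agent.Lib.MP_5854e1_co.Cz

namespace Pool.Agent.Lib.MP_5854e1_co.Cz

open Pool.Agent.Lib.MP_5854e1_co PB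

theorem ytv5306 : DT.all (wzR cT Cz.tj Cz.tp Cz.tv) Cz.tv5306 = true := by decide +kernel

theorem ytv5307 : DT.all (wzR cT Cz.tj Cz.tp Cz.tv) Cz.tv5307 = true := by decide +kernel

theorem ytv5308 : DT.all (wzR cT Cz.tj Cz.tp Cz.tv) Cz.tv5308 = true := by decide +kernel

theorem ytv5309 : DT.all (wzR cT Cz.tj Cz.tp Cz.tv) Cz.tv5309 = true := by decide +kernel

theorem ytv5310 : DT.all (wzR cT Cz.tj Cz.tp Cz.tv) Cz.tv5310 = true := by decide +kernel

theorem ytv5311 : DT.all (wzR cT Cz.tj Cz.tp Cz.tv) Cz.tv5311 = true := by decide +kernel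

theorem ytv5312 : DT.all (wzR cT Cz.tj Cz.tp Cz.tv) Cz.tv5312 = true := by decide +kernel


end Pool.Agent.Lib.MP_5854e1_co.Cz
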