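import Pool.Agent.Lib.MP_5854e1_co.Cz.P

/-!
# The rows of the rings
-/

set_option autoImplicit false
set_option maxRecDepth 100000
set_option deprecated.oldSectionVars true

namespace Pool.Agent.Lib.MP_5854e1_co.Cz

open Pool.Agent.Lib.MP_5854e1_co PB

theorem ytv4494 : DT.all (wzR cT Cz.tj Cz.tp Cz.tv) Cz.tv4494 = true := by decide +kernel

theorem ytv4495 : DT.all (wzR cT Cz.tj Cz.tp Cz.tv) Cz.tv4495 = true := by decide +kernel

theorem ytv4496 : DT.all (wzR cT Cz.tj Cz.tp Cz.tv) Cz.tv4496 = true := by decide +kernel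

theorem ytv4497 : DT.all (wzR cT Cz.tj Cz.tp Cz.tv) Cz.tv4497 = true := by decide +kernel

theorem ytv4498 : DT.all (wzR cT Cz.tj Cz.tp Cz.tv) Cz.tv4498 = true := by decide +kernel

theorem ytv4499 : DT.all (wzR cT Cz.tj Cz.tp Cz.tv) Cz.tv4499 = true := by decide +kernel

theorem ytv4500 : DT.all (wzR cT Cz.tj Cz.tp Cz.tv) Cz.tv4500 = true := by decide +kernel


end Pool.Agent.Lib.MP_5854e1_co.Cz

namespace Pool.Agent.Lib.MP_5854e1_co.Cz

open Pool.Agent.Lib.MP_5854e1_co PB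

theorem ytv4546 : DT.all (wzR cT Cz.tj Cz.tp Cz.tv) Cz.tv4546 = true := by decide +kernel

theorem ytv4547 : DT.all (wzR cT Cz.tj Cz.tp Cz.tv) Cz.tv4547 = true := by decide +kernel

theorem ytv4548 : DT.all (wzR cT Cz.tj Cz.tp Cz.tv) Cz.tv4548 = true := by decide +kernel

theorem ytv4549 : DT.all (wzR cT Cz.tj Cz.tp Cz.tv) Cz.tv4549 = true := by decide +kernel

theorem ytv4550 : DT.all (wzR cT Cz.tj Cz.tp Cz.tv) Cz.tv4550 = true := by decide +kernel


end Pool.Agent.Lib.MP_5854e1_co.Cz
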