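import Pool.Agent.Lib.MP_5854e1_co.Cz.P

/-!
# The rows of the rings
-/

set_option autoImplicit false
set_option maxRecDepth 100000
set_option deprecated.oldSectionVars true

namespace Pool.Agent.Lib.MP_5854e1_co.Cz

open Pool.Agent.Lib.MP_5854e1_co PB

theorem ytv4524 : DT.all (wzR cT Cz.tj Cz.tp Cz.tv) Cz.tv4524 = true := by decide +kernel

theorem ytv4525 : DT.all (wzR cT Cz.tj Cz.tp Cz.tv) Cz.tv4525 = true := by decide +kernel

theorem ytv4526 : DT.all (wzR cT Cz.tj Cz.tp Cz.tv) Cz.tv4526 = true := by decide +kernel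

theorem ytv4527 : DT.all (wzR cT Cz.tj Cz.tp Cz.tv) Cz.tv4527 = true := by decide +kernel

theorem ytv4528 : DT.all (wzR cT Cz.tj Cz.tp Cz.tv) Cz.tv4528 = true := by decide +kernel

theorem ytv4529 : DT.all (wzR cT Cz.tj Cz.tp Cz.tv) Cz.tv4529 = true := by decide +kernel

theorem ytv4530 : DT.all (wzR cT Cz.tj Cz.tp Cz.tv) Cz.tv4530 = true := by decide +kernel

theorem ytv4531 : DT.all (wzR cT Cz.tj Cz.tp Cz.tv) Cz.tv4531 = true := by decide +kernel

theorem ytv4532 : DT.all (wzR cT Cz.tj Cz.tp Cz.tv) Cz.tv4532 = true := by decide +kernel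


end Pool.Agent.Lib.MP_5854e1_co.Cz
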