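import Pool.Agent.Lib.MP_5854e1_co.Cz.P

/-!
# The rows of the rings
-/

set_option autoImplicit false
set_option maxRecDepth 100000
set_option deprecated.oldSectionVars true

namespace Pool.Agent.Lib.MP_5854e1_co.Cz

open Pool.Agent.Lib.MP_5854e1_co PB

theorem ytv4542 : DT.all (wzR cT Cz.tj Cz.tp Cz.tv) Cz.tv4542 = true := by decide +kernel

theorem ytv4543 : DT.all (wzR cT Cz.tj Cz.tp Cz.tv) Cz.tv4543 = true := by decide +kernel

theorem ytv4544 : DT.all (wzR cT Cz.tj Cz.tp Cz.tv) Cz.tv4544 = true := by decide +kernel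

theorem ytv4545 : DT.all (wzR cT Cz.tj Cz.tp Cz.tv) Cz.tv4545 = true := by decide +kernel


end Pool.Agent.Lib.MP_5854e1_co.Cz

namespace Pool.Agent.Lib.MP_5854e1_co.Cz

open Pool.Agent.Lib.MP_5854e1_co PB

theorem ytv5239 : DT.all (wzR cT Cz.tj Cz.tp Cz.tv) Cz.tv5239 = true := by decide +kernel

theorem ytv5240 : DT.all (wzR cT Cz.tj Cz.tp Cz.tv) Cz.tv5240 = true := by decide +kernel

theorem ytv5241 : DT.all (wzR cT Cz.tj Cz.tp Cz.tv) Cz.tv5241 = true := by decide +kernel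

theorem ytv5242 : DT.all (wzR cT Cz.tj Cz.tp Cz.tv) Cz.tv5242 = true := by decide +kernel

theorem ytv5243 : DT.all (wzR cT Cz.tj Cz.tp Cz.tv) Cz.tv5243 = true := by decide +kernel

theorem ytv5244 : DT.all (wzR cT Cz.tj Cz.tp Cz.tv) Cz.tv5244 = true := by decide +kernel

theorem ytv5245 : DT.all (wzR cT Cz.tj Cz.tp Cz.tv) Cz.tv5245 = true := by decide +kernel

theorem ytv5246 : DT.all (wzR cT Cz.tj Cz.tp Cz.tv) Cz.tv5246 = true := by decide +kernel


end Pool.Agent.Lib.MP_5854e1_co.Cz
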