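import Pool.Agent.Lib.MP_5854e1_co.Cz.P

/-!
# The rows of the rings
-/

set_option autoImplicit false
set_option maxRecDepth 100000
set_option deprecated.oldSectionVars true

namespace Pool.Agent.Lib.MP_5854e1_co.Cz

open Pool.Agent.Lib.MP_5854e1_co PB

theorem ytv452 : DT.all (wzR cT Cz.tj Cz.tp Cz.tv) Cz.tv452 = true := by decide +kernel

theorem ytv453 : DT.all (wzR cT Cz.tj Cz.tp Cz.tv) Cz.tv453 = true := by decide +kernel

theorem ytv454 : DT.all (wzR cT Cz.tj Cz.tp Cz.tv) Cz.tv454 = true := by decide +kernel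

theorem ytv455 : DT.all (wzR cT Cz.tj Cz.tp Cz.tv) Cz.tv455 = true := by decide +kernel

theorem ytv456 : DT.all (wzR cT Cz.tj Cz.tp Cz.tv) Cz.tv456 = true := by decide +kernel

theorem ytv457 : DT.all (wzR cT Cz.tj Cz.tp Cz.tv) Cz.tv457 = true := by decide +kernel

theorem ytv458 : DT.all (wzR cT Cz.tj Cz.tp Cz.tv) Cz.tv458 = true := by decide +kernel

theorem ytv459 : DT.all (wzR cT Cz.tj Cz.tp Cz.tv) Cz.tv459 = true := by decide +kernel


end Pool.Agent.Lib.MP_5854e1_co.Cz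

namespace Pool.Agent.Lib.MP_5854e1_co.Cz

open Pool.Agent.Lib.MP_5854e1_co PB

theorem ytv4074 : DT.all (wzR cT Cz.tj Cz.tp Cz.tv) Cz.tv4074 = true := by decide +kernel

theorem ytv4075 : DT.all (wzR cT Cz.tj Cz.tp Cz.tv) Cz.tv4075 = true := by decide +kernel

theorem ytv4076 : DT.all (wzR cT Cz.tj Cz.tp Cz.tv) Cz.tv4076 = true := by decide +kernel

theorem ytv4077 : DT.all (wzR cT Cz.tj Cz.tp Cz.tv) Cz.tv4077 = true := by decide +kernel

theorem ytv4078 : DT.all (wzR cT Cz.tj Cz.tp Cz.tv) Cz.tv4078 = true := by decide +kernel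

theorem ytv4079 : DT.all (wzR cT Cz.tj Cz.tp Cz.tv) Cz.tv4079 = true := by decide +kernel

theorem ytv4080 : DT.all (wzR cT Cz.tj Cz.tp Cz.tv) Cz.tv4080 = true := by decide +kernel

theorem ytv4081 : DT.all (wzR cT Cz.tj Cz.tp Cz.tv) Cz.tv4081 = true := by decide +kernel

theorem ytv4082 : DT.all (wzR cT Cz.tj Cz.tp Cz.tv) Cz.tv4082 = true := by decide +kernel


end Pool.Agent.Lib.MP_5854e1_co.Cz
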