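import Pool.Agent.Lib.MP_5854e1_co.Cz.P

/-!
# The rows of the rings
-/

set_option autoImplicit false
set_option maxRecDepth 100000
set_option deprecated.oldSectionVars true

namespace Pool.Agent.Lib.MP_5854e1_co.Cz

open Pool.Agent.Lib.MP_5854e1_co PB

theorem ytv4584 : DT.all (wzR cT Cz.tj Cz.tp Cz.tv) Cz.tv4584 = true := by decide +kernel

theorem ytv4585 : DT.all (wzR cT Cz.tj Cz.tp Cz.tv) Cz.tv4585 = true := by decide +kernel

theorem ytv4586 : DT.all (wzR cT Cz.tj Cz.tp Cz.tv) Cz.tv4586 = true := by decide +kernel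

theorem ytv4587 : DT.all (wzR cT Cz.tj Cz.tp Cz.tv) Cz.tv4587 = true := by decide +kernel

theorem ytv4588 : DT.all (wzR cT Cz.tj Cz.tp Cz.tv) Cz.tv4588 = true := by decide +kernel

theorem ytv4589 : DT.all (wzR cT Cz.tj Cz.tp Cz.tv) Cz.tv4589 = true := by decide +kernel

theorem ytv4590 : DT.all (wzR cT Cz.tj Cz.tp Cz.tv) Cz.tv4590 = true := by decide +kernel

theorem ytv4591 : DT.all (wzR cT Cz.tj Cz.tp Cz.tv) Cz.tv4591 = true := by decide +kernel


end Pool.Agent.Lib.MP_5854e1_co.Cz
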