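import Pool.Agent.Lib.MP_5854e1_co.Cz.P

/-!
# The rows of the rings
-/

set_option autoImplicit false
set_option maxRecDepth 100000
set_option deprecated.oldSectionVars true

namespace Pool.Agent.Lib.MP_5854e1_co.Cz

open Pool.Agent.Lib.MP_5854e1_co PB

theorem ytv4592 : DT.all (wzR cT Cz.tj Cz.tp Cz.tv) Cz.tv4592 = true := by decide +kernel

theorem ytv4593 : DT.all (wzR cT Cz.tj Cz.tp Cz.tv) Cz.tv4593 = true := by decide +kernel

theorem ytv4594 : DT.all (wzR cT Cz.tj Cz.tp Cz.tv) Cz.tv4594 = true := by decide +kernel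

theorem ytv4595 : DT.all (wzR cT Cz.tj Cz.tp Cz.tv) Cz.tv4595 = true := by decide +kernel

theorem ytv4596 : DT.all (wzR cT Cz.tj Cz.tp Cz.tv) Cz.tv4596 = true := by decide +kernel

theorem ytv4597 : DT.all (wzR cT Cz.tj Cz.tp Cz.tv) Cz.tv4597 = true := by decide +kernel

theorem ytv4598 : DT.all (wzR cT Cz.tj Cz.tp Cz.tv) Cz.tv4598 = true := by decide +kernel

theorem ytv4599 : DT.all (wzR cT Cz.tj Cz.tp Cz.tv) Cz.tv4599 = true := by decide +kernel


end Pool.Agent.Lib.MP_5854e1_co.Cz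

namespace Pool.Agent.Lib.MP_5854e1_co.Cz

open Pool.Agent.Lib.MP_5854e1_co PB

theorem ytv5596 : DT.all (wzR cT Cz.tj Cz.tp Cz.tv) Cz.tv5596 = true := by decide +kernel

theorem ytv5597 : DT.all (wzR cT Cz.tj Cz.tp Cz.tv) Cz.tv5597 = true := by decide +kernel

theorem ytv5598 : DT.all (wzR cT Cz.tj Cz.tp Cz.tv) Cz.tv5598 = true := by decide +kernel

theorem ytv5599 : DT.all (wzR cT Cz.tj Cz.tp Cz.tv) Cz.tv5599 = true := by decide +kernel

theorem ytv5600 : DT.all (wzR cT Cz.tj Cz.tp Cz.tv) Cz.tv5600 = true := by decide +kernel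

theorem ytv5601 : DT.all (wzR cT Cz.tj Cz.tp Cz.tv) Cz.tv5601 = true := by decide +kernel

theorem ytv5602 : DT.all (wzR cT Cz.tj Cz.tp Cz.tv) Cz.tv5602 = true := by decide +kernel

theorem ytv5603 : DT.all (wzR cT Cz.tj Cz.tp Cz.tv) Cz.tv5603 = true := by decide +kernel

theorem ytv5604 : DT.all (wzR cT Cz.tj Cz.tp Cz.tv) Cz.tv5604 = true := by decide +kernel

theorem ytv5605 : DT.all (wzR cT Cz.tj Cz.tp Cz.tv) Cz.tv5605 = true := by decide +kernel

theorem ytv5606 : DT.all (wzR cT Cz.tj Cz.tp Cz.tv) Cz.tv5606 = true := by decide +kernel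

theorem ytv5607 : DT.all (wzR cT Cz.tj Cz.tp Cz.tv) Cz.tv5607 = true := by decide +kernel

theorem ytv5608 : DT.all (wzR cT Cz.tj Cz.tp Cz.tv) Cz.tv5608 = true := by decide +kernel

theorem ytv5609 : DT.all (wzR cT Cz.tj Cz.tp Cz.tv) Cz.tv5609 = true := by decide +kernel

theorem ytv5610 : DT.all (wzR cT Cz.tj Cz.tp Cz.tv) Cz.tv5610 = true := by decide +kernel

theorem ytv5611 : DT.all (wzR cT Cz.tj Cz.tp Cz.tv) Cz.tv5611 = true := by decide +kernel

theorem ytv5612 : DT.all (wzR cT Cz.tj Cz.tp Cz.tv) Cz.tv5612 = true := by decide +kernel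

theorem ytv5613 : DT.all (wzR cT Cz.tj Cz.tp Cz.tv) Cz.tv5613 = true := by decide +kernel

theorem ytv5614 : DT.all (wzR cT Cz.tj Cz.tp Cz.tv) Cz.tv5614 = true := by decide +kernel


end Pool.Agent.Lib.MP_5854e1_co.Cz
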