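import Pool.Agent.Lib.MP_5854e1_co.Cz.P

/-!
# The rows of the rings
-/

set_option autoImplicit false
set_option maxRecDepth 100000
set_option deprecated.oldSectionVars true

namespace Pool.Agent.Lib.MP_5854e1_co.Cz

open Pool.Agent.Lib.MP_5854e1_co PB

theorem ytv4600 : DT.all (wzR cT Cz.tj Cz.tp Cz.tv) Cz.tv4600 = true := by decide +kernel

theorem ytv4601 : DT.all (wzR cT Cz.tj Cz.tp Cz.tv) Cz.tv4601 = true := by decide +kernel

theorem ytv4602 : DT.all (wzR cT Cz.tj Cz.tp Cz.tv) Cz.tv4602 = true := by decide +kernel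

theorem ytv4603 : DT.all (wzR cT Cz.tj Cz.tp Cz.tv) Cz.tv4603 = true := by decide +kernel

theorem ytv4604 : DT.all (wzR cT Cz.tj Cz.tp Cz.tv) Cz.tv4604 = true := by decide +kernel

theorem ytv4605 : DT.all (wzR cT Cz.tj Cz.tp Cz.tv) Cz.tv4605 = true := by decide +kernel

theorem ytv4606 : DT.all (wzR cT Cz.tj Cz.tp Cz.tv) Cz.tv4606 = true := by decide +kernel

theorem ytv4607 : DT.all (wzR cT Cz.tj Cz.tp Cz.tv) Cz.tv4607 = true := by decide +kernel


end Pool.Agent.Lib.MP_5854e1_co.Cz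

namespace Pool.Agent.Lib.MP_5854e1_co.Cz

open Pool.Agent.Lib.MP_5854e1_co PB

theorem ytv5520 : DT.all (wzR cT Cz.tj Cz.tp Cz.tv) Cz.tv5520 = true := by decide +kernel

theorem ytv5521 : DT.all (wzR cT Cz.tj Cz.tp Cz.tv) Cz.tv5521 = true := by decide +kernel

theorem ytv5522 : DT.all (wzR cT Cz.tj Cz.tp Cz.tv) Cz.tv5522 = true := by decide +kernel

theorem ytv5523 : DT.all (wzR cT Cz.tj Cz.tp Cz.tv) Cz.tv5523 = true := by decide +kernel

theorem ytv5524 : DT.all (wzR cT Cz.tj Cz.tp Cz.tv) Cz.tv5524 = true := by decide +kernel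

theorem ytv5525 : DT.all (wzR cT Cz.tj Cz.tp Cz.tv) Cz.tv5525 = true := by decide +kernel

theorem ytv5526 : DT.all (wzR cT Cz.tj Cz.tp Cz.tv) Cz.tv5526 = true := by decide +kernel

theorem ytv5527 : DT.all (wzR cT Cz.tj Cz.tp Cz.tv) Cz.tv5527 = true := by decide +kernel

theorem ytv5528 : DT.all (wzR cT Cz.tj Cz.tp Cz.tv) Cz.tv5528 = true := by decide +kernel

theorem ytv5529 : DT.all (wzR cT Cz.tj Cz.tp Cz.tv) Cz.tv5529 = true := by decide +kernel

theorem ytv5530 : DT.all (wzR cT Cz.tj Cz.tp Cz.tv) Cz.tv5530 = true := by decide +kernel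

theorem ytv5531 : DT.all (wzR cT Cz.tj Cz.tp Cz.tv) Cz.tv5531 = true := by decide +kernel

theorem ytv5532 : DT.all (wzR cT Cz.tj Cz.tp Cz.tv) Cz.tv5532 = true := by decide +kernel

theorem ytv5533 : DT.all (wzR cT Cz.tj Cz.tp Cz.tv) Cz.tv5533 = true := by decide +kernel

theorem ytv5534 : DT.all (wzR cT Cz.tj Cz.tp Cz.tv) Cz.tv5534 = true := by decide +kernel

theorem ytv5535 : DT.all (wzR cT Cz.tj Cz.tp Cz.tv) Cz.tv5535 = true := by decide +kernel

theorem ytv5536 : DT.all (wzR cT Cz.tj Cz.tp Cz.tv) Cz.tv5536 = true := by decide +kernel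

theorem ytv5537 : DT.all (wzR cT Cz.tj Cz.tp Cz.tv) Cz.tv5537 = true := by decide +kernel

theorem ytv5538 : DT.all (wzR cT Cz.tj Cz.tp Cz.tv) Cz.tv5538 = true := by decide +kernel


end Pool.Agent.Lib.MP_5854e1_co.Cz
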