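import Pool.Agent.Lib.MP_5854e1_co.Cz.P

/-!
# The rows of the rings
-/

set_option autoImplicit false
set_option maxRecDepth 100000
set_option deprecated.oldSectionVars true

namespace Pool.Agent.Lib.MP_5854e1_co.Cz

open Pool.Agent.Lib.MP_5854e1_co PB

theorem ytv4617 : DT.all (wzR cT Cz.tj Cz.tp Cz.tv) Cz.tv4617 = true := by decide +kernel

theorem ytv4618 : DT.all (wzR cT Cz.tj Cz.tp Cz.tv) Cz.tv4618 = true := by decide +kernel

theorem ytv4619 : DT.all (wzR cT Cz.tj Cz.tp Cz.tv) Cz.tv4619 = true := by decide +kernel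

theorem ytv4620 : DT.all (wzR cT Cz.tj Cz.tp Cz.tv) Cz.tv4620 = true := by decide +kernel

theorem ytv4621 : DT.all (wzR cT Cz.tj Cz.tp Cz.tv) Cz.tv4621 = true := by decide +kernel

theorem ytv4622 : DT.all (wzR cT Cz.tj Cz.tp Cz.tv) Cz.tv4622 = true := by decide +kernel

theorem ytv4623 : DT.all (wzR cT Cz.tj Cz.tp Cz.tv) Cz.tv4623 = true := by decide +kernel

theorem ytv4624 : DT.all (wzR cT Cz.tj Cz.tp Cz.tv) Cz.tv4624 = true := by decide +kernel


end Pool.Agent.Lib.MP_5854e1_co.Cz
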