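import Pool.Agent.Lib.MP_5854e1_co.Cz.P

/-!
# The rows of the rings
-/

set_option autoImplicit false
set_option maxRecDepth 100000
set_option deprecated.oldSectionVars true

namespace Pool.Agent.Lib.MP_5854e1_co.Cz

open Pool.Agent.Lib.MP_5854e1_co PB

theorem ytv4633 : DT.all (wzR cT Cz.tj Cz.tp Cz.tv) Cz.tv4633 = true := by decide +kernel

theorem ytv4634 : DT.all (wzR cT Cz.tj Cz.tp Cz.tv) Cz.tv4634 = true := by decide +kernel

theorem ytv4635 : DT.all (wzR cT Cz.tj Cz.tp Cz.tv) Cz.tv4635 = true := by decide +kernel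

theorem ytv4636 : DT.all (wzR cT Cz.tj Cz.tp Cz.tv) Cz.tv4636 = true := by decide +kernel

theorem ytv4637 : DT.all (wzR cT Cz.tj Cz.tp Cz.tv) Cz.tv4637 = true := by decide +kernel

theorem ytv4638 : DT.all (wzR cT Cz.tj Cz.tp Cz.tv) Cz.tv4638 = true := by decide +kernel

theorem ytv4639 : DT.all (wzR cT Cz.tj Cz.tp Cz.tv) Cz.tv4639 = true := by decide +kernel

theorem ytv4640 : DT.all (wzR cT Cz.tj Cz.tp Cz.tv) Cz.tv4640 = true := by decide +kernel

theorem ytv4641 : DT.all (wzR cT Cz.tj Cz.tp Cz.tv) Cz.tv4641 = true := by decide +kernel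


end Pool.Agent.Lib.MP_5854e1_co.Cz

namespace Pool.Agent.Lib.MP_5854e1_co.Cz

open Pool.Agent.Lib.MP_5854e1_co PB

theorem ytv5464 : DT.all (wzR cT Cz.tj Cz.tp Cz.tv) Cz.tv5464 = true := by decide +kernel

theorem ytv5465 : DT.all (wzR cT Cz.tj Cz.tp Cz.tv) Cz.tv5465 = true := by decide +kernel

theorem ytv5466 : DT.all (wzR cT Cz.tj Cz.tp Cz.tv) Cz.tv5466 = true := by decide +kernel


end Pool.Agent.Lib.MP_5854e1_co.Cz
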