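import Pool.Agent.Lib.MP_5854e1_co.Cz.P

/-!
# The rows of the rings
-/

set_option autoImplicit false
set_option maxRecDepth 100000
set_option deprecated.oldSectionVars true

namespace Pool.Agent.Lib.MP_5854e1_co.Cz

open Pool.Agent.Lib.MP_5854e1_co PB

theorem ytv460 : DT.all (wzR cT Cz.tj Cz.tp Cz.tv) Cz.tv460 = true := by decide +kernel

theorem ytv461 : DT.all (wzR cT Cz.tj Cz.tp Cz.tv) Cz.tv461 = true := by decide +kernel

theorem ytv462 : DT.all (wzR cT Cz.tj Cz.tp Cz.tv) Cz.tv462 = true := by decide +kernel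

theorem ytv463 : DT.all (wzR cT Cz.tj Cz.tp Cz.tv) Cz.tv463 = true := by decide +kernel

theorem ytv464 : DT.all (wzR cT Cz.tj Cz.tp Cz.tv) Cz.tv464 = true := by decide +kernel

theorem ytv465 : DT.all (wzR cT Cz.tj Cz.tp Cz.tv) Cz.tv465 = true := by decide +kernel

theorem ytv466 : DT.all (wzR cT Cz.tj Cz.tp Cz.tv) Cz.tv466 = true := by decide +kernel

theorem ytv467 : DT.all (wzR cT Cz.tj Cz.tp Cz.tv) Cz.tv467 = true := by decide +kernel


end Pool.Agent.Lib.MP_5854e1_co.Cz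

namespace Pool.Agent.Lib.MP_5854e1_co.Cz

open Pool.Agent.Lib.MP_5854e1_co PB

theorem ytv3761 : DT.all (wzR cT Cz.tj Cz.tp Cz.tv) Cz.tv3761 = true := by decide +kernel

theorem ytv3762 : DT.all (wzR cT Cz.tj Cz.tp Cz.tv) Cz.tv3762 = true := by decide +kernel

theorem ytv3763 : DT.all (wzR cT Cz.tj Cz.tp Cz.tv) Cz.tv3763 = true := by decide +kernel

theorem ytv3764 : DT.all (wzR cT Cz.tj Cz.tp Cz.tv) Cz.tv3764 = true := by decide +kernel

theorem ytv3765 : DT.all (wzR cT Cz.tj Cz.tp Cz.tv) Cz.tv3765 = true := by decide +kernel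

theorem ytv3766 : DT.all (wzR cT Cz.tj Cz.tp Cz.tv) Cz.tv3766 = true := by decide +kernel

theorem ytv3767 : DT.all (wzR cT Cz.tj Cz.tp Cz.tv) Cz.tv3767 = true := by decide +kernel

theorem ytv3768 : DT.all (wzR cT Cz.tj Cz.tp Cz.tv) Cz.tv3768 = true := by decide +kernel

theorem ytv3769 : DT.all (wzR cT Cz.tj Cz.tp Cz.tv) Cz.tv3769 = true := by decide +kernel


end Pool.Agent.Lib.MP_5854e1_co.Cz
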