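import Pool.Agent.Lib.MP_5854e1_co.Cz.P

/-!
# The rows of the rings
-/

set_option autoImplicit false
set_option maxRecDepth 100000
set_option deprecated.oldSectionVars true

namespace Pool.Agent.Lib.MP_5854e1_co.Cz

open Pool.Agent.Lib.MP_5854e1_co PB

theorem ytv4650 : DT.all (wzR cT Cz.tj Cz.tp Cz.tv) Cz.tv4650 = true := by decide +kernel

theorem ytv4651 : DT.all (wzR cT Cz.tj Cz.tp Cz.tv) Cz.tv4651 = true := by decide +kernel

theorem ytv4652 : DT.all (wzR cT Cz.tj Cz.tp Cz.tv) Cz.tv4652 = true := by decide +kernel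

theorem ytv4653 : DT.all (wzR cT Cz.tj Cz.tp Cz.tv) Cz.tv4653 = true := by decide +kernel

theorem ytv4654 : DT.all (wzR cT Cz.tj Cz.tp Cz.tv) Cz.tv4654 = true := by decide +kernel

theorem ytv4655 : DT.all (wzR cT Cz.tj Cz.tp Cz.tv) Cz.tv4655 = true := by decide +kernel

theorem ytv4656 : DT.all (wzR cT Cz.tj Cz.tp Cz.tv) Cz.tv4656 = true := by decide +kernel

theorem ytv4657 : DT.all (wzR cT Cz.tj Cz.tp Cz.tv) Cz.tv4657 = true := by decide +kernel


end Pool.Agent.Lib.MP_5854e1_co.Cz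

namespace Pool.Agent.Lib.MP_5854e1_co.Cz

open Pool.Agent.Lib.MP_5854e1_co PB

theorem ytv4859 : DT.all (wzR cT Cz.tj Cz.tp Cz.tv) Cz.tv4859 = true := by decide +kernel

theorem ytv4860 : DT.all (wzR cT Cz.tj Cz.tp Cz.tv) Cz.tv4860 = true := by decide +kernel

theorem ytv4861 : DT.all (wzR cT Cz.tj Cz.tp Cz.tv) Cz.tv4861 = true := by decide +kernel

theorem ytv4862 : DT.all (wzR cT Cz.tj Cz.tp Cz.tv) Cz.tv4862 = true := by decide +kernel


end Pool.Agent.Lib.MP_5854e1_co.Cz
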