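import Pool.Agent.Lib.MP_5854e1_co.Cz.P

/-!
# The rows of the rings
-/

set_option autoImplicit false
set_option maxRecDepth 100000
set_option deprecated.oldSectionVars true

namespace Pool.Agent.Lib.MP_5854e1_co.Cz

open Pool.Agent.Lib.MP_5854e1_co PB

theorem ytv4690 : DT.all (wzR cT Cz.tj Cz.tp Cz.tv) Cz.tv4690 = true := by decide +kernel

theorem ytv4691 : DT.all (wzR cT Cz.tj Cz.tp Cz.tv) Cz.tv4691 = true := by decide +kernel

theorem ytv4692 : DT.all (wzR cT Cz.tj Cz.tp Cz.tv) Cz.tv4692 = true := by decide +kernel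

theorem ytv4693 : DT.all (wzR cT Cz.tj Cz.tp Cz.tv) Cz.tv4693 = true := by decide +kernel

theorem ytv4694 : DT.all (wzR cT Cz.tj Cz.tp Cz.tv) Cz.tv4694 = true := by decide +kernel

theorem ytv4695 : DT.all (wzR cT Cz.tj Cz.tp Cz.tv) Cz.tv4695 = true := by decide +kernel

theorem ytv4696 : DT.all (wzR cT Cz.tj Cz.tp Cz.tv) Cz.tv4696 = true := by decide +kernel

theorem ytv4697 : DT.all (wzR cT Cz.tj Cz.tp Cz.tv) Cz.tv4697 = true := by decide +kernel


end Pool.Agent.Lib.MP_5854e1_co.Cz
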