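import Pool.Agent.Lib.MP_5854e1_co.Cz.P

/-!
# The rows of the rings
-/

set_option autoImplicit false
set_option maxRecDepth 100000
set_option deprecated.oldSectionVars true

namespace Pool.Agent.Lib.MP_5854e1_co.Cz

open Pool.Agent.Lib.MP_5854e1_co PB

theorem ytv4713 : DT.all (wzR cT Cz.tj Cz.tp Cz.tv) Cz.tv4713 = true := by decide +kernel

theorem ytv4714 : DT.all (wzR cT Cz.tj Cz.tp Cz.tv) Cz.tv4714 = true := by decide +kernel

theorem ytv4715 : DT.all (wzR cT Cz.tj Cz.tp Cz.tv) Cz.tv4715 = true := by decide +kernel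

theorem ytv4716 : DT.all (wzR cT Cz.tj Cz.tp Cz.tv) Cz.tv4716 = true := by decide +kernel

theorem ytv4717 : DT.all (wzR cT Cz.tj Cz.tp Cz.tv) Cz.tv4717 = true := by decide +kernel

theorem ytv4718 : DT.all (wzR cT Cz.tj Cz.tp Cz.tv) Cz.tv4718 = true := by decide +kernel

theorem ytv4719 : DT.all (wzR cT Cz.tj Cz.tp Cz.tv) Cz.tv4719 = true := by decide +kernel

theorem ytv4720 : DT.all (wzR cT Cz.tj Cz.tp Cz.tv) Cz.tv4720 = true := by decide +kernel

theorem ytv4721 : DT.all (wzR cT Cz.tj Cz.tp Cz.tv) Cz.tv4721 = true := by decide +kernel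


end Pool.Agent.Lib.MP_5854e1_co.Cz

namespace Pool.Agent.Lib.MP_5854e1_co.Cz

open Pool.Agent.Lib.MP_5854e1_co PB

theorem ytv5227 : DT.all (wzR cT Cz.tj Cz.tp Cz.tv) Cz.tv5227 = true := by decide +kernel

theorem ytv5228 : DT.all (wzR cT Cz.tj Cz.tp Cz.tv) Cz.tv5228 = true := by decide +kernel

theorem ytv5229 : DT.all (wzR cT Cz.tj Cz.tp Cz.tv) Cz.tv5229 = true := by decide +kernel

theorem ytv5230 : DT.all (wzR cT Cz.tj Cz.tp Cz.tv) Cz.tv5230 = true := by decide +kernel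


end Pool.Agent.Lib.MP_5854e1_co.Cz
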