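import Pool.Agent.Lib.MP_5854e1_co.Cz.P

/-!
# The rows of the rings
-/

set_option autoImplicit false
set_option maxRecDepth 100000
set_option deprecated.oldSectionVars true

namespace Pool.Agent.Lib.MP_5854e1_co.Cz

open Pool.Agent.Lib.MP_5854e1_co PB

theorem ytv468 : DT.all (wzR cT Cz.tj Cz.tp Cz.tv) Cz.tv468 = true := by decide +kernel

theorem ytv469 : DT.all (wzR cT Cz.tj Cz.tp Cz.tv) Cz.tv469 = true := by decide +kernel

theorem ytv470 : DT.all (wzR cT Cz.tj Cz.tp Cz.tv) Cz.tv470 = true := by decide +kernel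

theorem ytv471 : DT.all (wzR cT Cz.tj Cz.tp Cz.tv) Cz.tv471 = true := by decide +kernel

theorem ytv472 : DT.all (wzR cT Cz.tj Cz.tp Cz.tv) Cz.tv472 = true := by decide +kernel

theorem ytv473 : DT.all (wzR cT Cz.tj Cz.tp Cz.tv) Cz.tv473 = true := by decide +kernel

theorem ytv474 : DT.all (wzR cT Cz.tj Cz.tp Cz.tv) Cz.tv474 = true := by decide +kernel


end Pool.Agent.Lib.MP_5854e1_co.Cz

namespace Pool.Agent.Lib.MP_5854e1_co.Cz

open Pool.Agent.Lib.MP_5854e1_co PB

theorem ytv1983 : DT.all (wzR cT Cz.tj Cz.tp Cz.tv) Cz.tv1983 = true := by decide +kernel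

theorem ytv1984 : DT.all (wzR cT Cz.tj Cz.tp Cz.tv) Cz.tv1984 = true := by decide +kernel

theorem ytv1985 : DT.all (wzR cT Cz.tj Cz.tp Cz.tv) Cz.tv1985 = true := by decide +kernel

theorem ytv1986 : DT.all (wzR cT Cz.tj Cz.tp Cz.tv) Cz.tv1986 = true := by decide +kernel


end Pool.Agent.Lib.MP_5854e1_co.Cz
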