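import Pool.Agent.Lib.MP_5854e1_co.Cz.P

/-!
# The rows of the rings
-/

set_option autoImplicit false
set_option maxRecDepth 100000
set_option deprecated.oldSectionVars true

namespace Pool.Agent.Lib.MP_5854e1_co.Cz

open Pool.Agent.Lib.MP_5854e1_co PB

theorem ytv4730 : DT.all (wzR cT Cz.tj Cz.tp Cz.tv) Cz.tv4730 = true := by decide +kernel

theorem ytv4731 : DT.all (wzR cT Cz.tj Cz.tp Cz.tv) Cz.tv4731 = true := by decide +kernel

theorem ytv4732 : DT.all (wzR cT Cz.tj Cz.tp Cz.tv) Cz.tv4732 = true := by decide +kernel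

theorem ytv4733 : DT.all (wzR cT Cz.tj Cz.tp Cz.tv) Cz.tv4733 = true := by decide +kernel

theorem ytv4734 : DT.all (wzR cT Cz.tj Cz.tp Cz.tv) Cz.tv4734 = true := by decide +kernel

theorem ytv4735 : DT.all (wzR cT Cz.tj Cz.tp Cz.tv) Cz.tv4735 = true := by decide +kernel

theorem ytv4736 : DT.all (wzR cT Cz.tj Cz.tp Cz.tv) Cz.tv4736 = true := by decide +kernel

theorem ytv4737 : DT.all (wzR cT Cz.tj Cz.tp Cz.tv) Cz.tv4737 = true := by decide +kernel

theorem ytv4738 : DT.all (wzR cT Cz.tj Cz.tp Cz.tv) Cz.tv4738 = true := by decide +kernel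


end Pool.Agent.Lib.MP_5854e1_co.Cz
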