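import Pool.Agent.Lib.MP_5854e1_co.Cz.P

/-!
# The rows of the rings
-/

set_option autoImplicit false
set_option maxRecDepth 100000
set_option deprecated.oldSectionVars true

namespace Pool.Agent.Lib.MP_5854e1_co.Cz

open Pool.Agent.Lib.MP_5854e1_co PB

theorem ytv4747 : DT.all (wzR cT Cz.tj Cz.tp Cz.tv) Cz.tv4747 = true := by decide +kernel

theorem ytv4748 : DT.all (wzR cT Cz.tj Cz.tp Cz.tv) Cz.tv4748 = true := by decide +kernel

theorem ytv4749 : DT.all (wzR cT Cz.tj Cz.tp Cz.tv) Cz.tv4749 = true := by decide +kernel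

theorem ytv4750 : DT.all (wzR cT Cz.tj Cz.tp Cz.tv) Cz.tv4750 = true := by decide +kernel

theorem ytv4751 : DT.all (wzR cT Cz.tj Cz.tp Cz.tv) Cz.tv4751 = true := by decide +kernel

theorem ytv4752 : DT.all (wzR cT Cz.tj Cz.tp Cz.tv) Cz.tv4752 = true := by decide +kernel

theorem ytv4753 : DT.all (wzR cT Cz.tj Cz.tp Cz.tv) Cz.tv4753 = true := by decide +kernel

theorem ytv4754 : DT.all (wzR cT Cz.tj Cz.tp Cz.tv) Cz.tv4754 = true := by decide +kernel


end Pool.Agent.Lib.MP_5854e1_co.Cz
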