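import Pool.Agent.Lib.MP_5854e1_co.Cz.P

/-!
# The rows of the rings
-/

set_option autoImplicit false
set_option maxRecDepth 100000
set_option deprecated.oldSectionVars true

namespace Pool.Agent.Lib.MP_5854e1_co.Cz

open Pool.Agent.Lib.MP_5854e1_co PB

theorem ytv4762 : DT.all (wzR cT Cz.tj Cz.tp Cz.tv) Cz.tv4762 = true := by decide +kernel

theorem ytv4763 : DT.all (wzR cT Cz.tj Cz.tp Cz.tv) Cz.tv4763 = true := by decide +kernel

theorem ytv4764 : DT.all (wzR cT Cz.tj Cz.tp Cz.tv) Cz.tv4764 = true := by decide +kernel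

theorem ytv4765 : DT.all (wzR cT Cz.tj Cz.tp Cz.tv) Cz.tv4765 = true := by decide +kernel

theorem ytv4766 : DT.all (wzR cT Cz.tj Cz.tp Cz.tv) Cz.tv4766 = true := by decide +kernel

theorem ytv4767 : DT.all (wzR cT Cz.tj Cz.tp Cz.tv) Cz.tv4767 = true := by decide +kernel

theorem ytv4768 : DT.all (wzR cT Cz.tj Cz.tp Cz.tv) Cz.tv4768 = true := by decide +kernel

theorem ytv4769 : DT.all (wzR cT Cz.tj Cz.tp Cz.tv) Cz.tv4769 = true := by decide +kernel


end Pool.Agent.Lib.MP_5854e1_co.Cz
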