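import Pool.Agent.Lib.MP_5854e1_co.Cz.P

/-!
# The rows of the rings
-/

set_option autoImplicit false
set_option maxRecDepth 100000
set_option deprecated.oldSectionVars true

namespace Pool.Agent.Lib.MP_5854e1_co.Cz

open Pool.Agent.Lib.MP_5854e1_co PB

theorem ytv4795 : DT.all (wzR cT Cz.tj Cz.tp Cz.tv) Cz.tv4795 = true := by decide +kernel

theorem ytv4796 : DT.all (wzR cT Cz.tj Cz.tp Cz.tv) Cz.tv4796 = true := by decide +kernel

theorem ytv4797 : DT.all (wzR cT Cz.tj Cz.tp Cz.tv) Cz.tv4797 = true := by decide +kernel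

theorem ytv4798 : DT.all (wzR cT Cz.tj Cz.tp Cz.tv) Cz.tv4798 = true := by decide +kernel

theorem ytv4799 : DT.all (wzR cT Cz.tj Cz.tp Cz.tv) Cz.tv4799 = true := by decide +kernel

theorem ytv4800 : DT.all (wzR cT Cz.tj Cz.tp Cz.tv) Cz.tv4800 = true := by decide +kernel

theorem ytv4801 : DT.all (wzR cT Cz.tj Cz.tp Cz.tv) Cz.tv4801 = true := by decide +kernel

theorem ytv4802 : DT.all (wzR cT Cz.tj Cz.tp Cz.tv) Cz.tv4802 = true := by decide +kernel

theorem ytv4803 : DT.all (wzR cT Cz.tj Cz.tp Cz.tv) Cz.tv4803 = true := by decide +kernel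


end Pool.Agent.Lib.MP_5854e1_co.Cz
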