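import Pool.Agent.Lib.MP_5854e1_co.Cz.P

/-!
# The rows of the rings
-/

set_option autoImplicit false
set_option maxRecDepth 100000
set_option deprecated.oldSectionVars true

namespace Pool.Agent.Lib.MP_5854e1_co.Cz

open Pool.Agent.Lib.MP_5854e1_co PB

theorem ytv475 : DT.all (wzR cT Cz.tj Cz.tp Cz.tv) Cz.tv475 = true := by decide +kernel

theorem ytv476 : DT.all (wzR cT Cz.tj Cz.tp Cz.tv) Cz.tv476 = true := by decide +kernel

theorem ytv477 : DT.all (wzR cT Cz.tj Cz.tp Cz.tv) Cz.tv477 = true := by decide +kernel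

theorem ytv478 : DT.all (wzR cT Cz.tj Cz.tp Cz.tv) Cz.tv478 = true := by decide +kernel

theorem ytv479 : DT.all (wzR cT Cz.tj Cz.tp Cz.tv) Cz.tv479 = true := by decide +kernel

theorem ytv480 : DT.all (wzR cT Cz.tj Cz.tp Cz.tv) Cz.tv480 = true := by decide +kernel

theorem ytv481 : DT.all (wzR cT Cz.tj Cz.tp Cz.tv) Cz.tv481 = true := by decide +kernel

theorem ytv482 : DT.all (wzR cT Cz.tj Cz.tp Cz.tv) Cz.tv482 = true := by decide +kernel

theorem ytv483 : DT.all (wzR cT Cz.tj Cz.tp Cz.tv) Cz.tv483 = true := by decide +kernel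


end Pool.Agent.Lib.MP_5854e1_co.Cz

namespace Pool.Agent.Lib.MP_5854e1_co.Cz

open Pool.Agent.Lib.MP_5854e1_co PB

theorem ytv1505 : DT.all (wzR cT Cz.tj Cz.tp Cz.tv) Cz.tv1505 = true := by decide +kernel

theorem ytv1506 : DT.all (wzR cT Cz.tj Cz.tp Cz.tv) Cz.tv1506 = true := by decide +kernel

theorem ytv1507 : DT.all (wzR cT Cz.tj Cz.tp Cz.tv) Cz.tv1507 = true := by decide +kernel

theorem ytv1508 : DT.all (wzR cT Cz.tj Cz.tp Cz.tv) Cz.tv1508 = true := by decide +kernel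

theorem ytv1509 : DT.all (wzR cT Cz.tj Cz.tp Cz.tv) Cz.tv1509 = true := by decide +kernel

theorem ytv1510 : DT.all (wzR cT Cz.tj Cz.tp Cz.tv) Cz.tv1510 = true := by decide +kernel

theorem ytv1511 : DT.all (wzR cT Cz.tj Cz.tp Cz.tv) Cz.tv1511 = true := by decide +kernel

theorem ytv1512 : DT.all (wzR cT Cz.tj Cz.tp Cz.tv) Cz.tv1512 = true := by decide +kernel

theorem ytv1513 : DT.all (wzR cT Cz.tj Cz.tp Cz.tv) Cz.tv1513 = true := by decide +kernel


end Pool.Agent.Lib.MP_5854e1_co.Cz
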