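import Pool.Agent.Lib.MP_5854e1_co.Cz.P

/-!
# The rows of the rings
-/

set_option autoImplicit false
set_option maxRecDepth 100000
set_option deprecated.oldSectionVars true

namespace Pool.Agent.Lib.MP_5854e1_co.Cz

open Pool.Agent.Lib.MP_5854e1_co PB

theorem ytv4829 : DT.all (wzR cT Cz.tj Cz.tp Cz.tv) Cz.tv4829 = true := by decide +kernel

theorem ytv4830 : DT.all (wzR cT Cz.tj Cz.tp Cz.tv) Cz.tv4830 = true := by decide +kernel

theorem ytv4831 : DT.all (wzR cT Cz.tj Cz.tp Cz.tv) Cz.tv4831 = true := by decide +kernel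

theorem ytv4832 : DT.all (wzR cT Cz.tj Cz.tp Cz.tv) Cz.tv4832 = true := by decide +kernel

theorem ytv4833 : DT.all (wzR cT Cz.tj Cz.tp Cz.tv) Cz.tv4833 = true := by decide +kernel

theorem ytv4834 : DT.all (wzR cT Cz.tj Cz.tp Cz.tv) Cz.tv4834 = true := by decide +kernel

theorem ytv4835 : DT.all (wzR cT Cz.tj Cz.tp Cz.tv) Cz.tv4835 = true := by decide +kernel

theorem ytv4836 : DT.all (wzR cT Cz.tj Cz.tp Cz.tv) Cz.tv4836 = true := by decide +kernel

theorem ytv4837 : DT.all (wzR cT Cz.tj Cz.tp Cz.tv) Cz.tv4837 = true := by decide +kernel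


end Pool.Agent.Lib.MP_5854e1_co.Cz
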