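import Pool.Agent.Lib.MP_5854e1_co.Cz.P

/-!
# The rows of the rings
-/

set_option autoImplicit false
set_option maxRecDepth 100000
set_option deprecated.oldSectionVars true

namespace Pool.Agent.Lib.MP_5854e1_co.Cz

open Pool.Agent.Lib.MP_5854e1_co PB

theorem ytv4871 : DT.all (wzR cT Cz.tj Cz.tp Cz.tv) Cz.tv4871 = true := by decide +kernel

theorem ytv4872 : DT.all (wzR cT Cz.tj Cz.tp Cz.tv) Cz.tv4872 = true := by decide +kernel

theorem ytv4873 : DT.all (wzR cT Cz.tj Cz.tp Cz.tv) Cz.tv4873 = true := by decide +kernel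

theorem ytv4874 : DT.all (wzR cT Cz.tj Cz.tp Cz.tv) Cz.tv4874 = true := by decide +kernel

theorem ytv4875 : DT.all (wzR cT Cz.tj Cz.tp Cz.tv) Cz.tv4875 = true := by decide +kernel

theorem ytv4876 : DT.all (wzR cT Cz.tj Cz.tp Cz.tv) Cz.tv4876 = true := by decide +kernel

theorem ytv4877 : DT.all (wzR cT Cz.tj Cz.tp Cz.tv) Cz.tv4877 = true := by decide +kernel

theorem ytv4878 : DT.all (wzR cT Cz.tj Cz.tp Cz.tv) Cz.tv4878 = true := by decide +kernel

theorem ytv4879 : DT.all (wzR cT Cz.tj Cz.tp Cz.tv) Cz.tv4879 = true := by decide +kernel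


end Pool.Agent.Lib.MP_5854e1_co.Cz

namespace Pool.Agent.Lib.MP_5854e1_co.Cz

open Pool.Agent.Lib.MP_5854e1_co PB

theorem ytv5460 : DT.all (wzR cT Cz.tj Cz.tp Cz.tv) Cz.tv5460 = true := by decide +kernel

theorem ytv5461 : DT.all (wzR cT Cz.tj Cz.tp Cz.tv) Cz.tv5461 = true := by decide +kernel

theorem ytv5462 : DT.all (wzR cT Cz.tj Cz.tp Cz.tv) Cz.tv5462 = true := by decide +kernel

theorem ytv5463 : DT.all (wzR cT Cz.tj Cz.tp Cz.tv) Cz.tv5463 = true := by decide +kernel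


end Pool.Agent.Lib.MP_5854e1_co.Cz
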