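import Pool.Agent.Lib.MP_5854e1_co.Cz.P

/-!
# The rows of the rings
-/

set_option autoImplicit false
set_option maxRecDepth 100000
set_option deprecated.oldSectionVars true

namespace Pool.Agent.Lib.MP_5854e1_co.Cz

open Pool.Agent.Lib.MP_5854e1_co PB

theorem ytv4880 : DT.all (wzR cT Cz.tj Cz.tp Cz.tv) Cz.tv4880 = true := by decide +kernel

theorem ytv4881 : DT.all (wzR cT Cz.tj Cz.tp Cz.tv) Cz.tv4881 = true := by decide +kernel

theorem ytv4882 : DT.all (wzR cT Cz.tj Cz.tp Cz.tv) Cz.tv4882 = true := by decide +kernel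

theorem ytv4883 : DT.all (wzR cT Cz.tj Cz.tp Cz.tv) Cz.tv4883 = true := by decide +kernel

theorem ytv4884 : DT.all (wzR cT Cz.tj Cz.tp Cz.tv) Cz.tv4884 = true := by decide +kernel

theorem ytv4885 : DT.all (wzR cT Cz.tj Cz.tp Cz.tv) Cz.tv4885 = true := by decide +kernel

theorem ytv4886 : DT.all (wzR cT Cz.tj Cz.tp Cz.tv) Cz.tv4886 = true := by decide +kernel

theorem ytv4887 : DT.all (wzR cT Cz.tj Cz.tp Cz.tv) Cz.tv4887 = true := by decide +kernel

theorem ytv4888 : DT.all (wzR cT Cz.tj Cz.tp Cz.tv) Cz.tv4888 = true := by decide +kernel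


end Pool.Agent.Lib.MP_5854e1_co.Cz
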