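import Pool.Agent.Lib.MP_5854e1_co.Cz.P

/-!
# The rows of the rings
-/

set_option autoImplicit false
set_option maxRecDepth 100000
set_option deprecated.oldSectionVars true

namespace Pool.Agent.Lib.MP_5854e1_co.Cz

open Pool.Agent.Lib.MP_5854e1_co PB

theorem ytv484 : DT.all (wzR cT Cz.tj Cz.tp Cz.tv) Cz.tv484 = true := by decide +kernel

theorem ytv485 : DT.all (wzR cT Cz.tj Cz.tp Cz.tv) Cz.tv485 = true := by decide +kernel

theorem ytv486 : DT.all (wzR cT Cz.tj Cz.tp Cz.tv) Cz.tv486 = true := by decide +kernel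

theorem ytv487 : DT.all (wzR cT Cz.tj Cz.tp Cz.tv) Cz.tv487 = true := by decide +kernel

theorem ytv488 : DT.all (wzR cT Cz.tj Cz.tp Cz.tv) Cz.tv488 = true := by decide +kernel

theorem ytv489 : DT.all (wzR cT Cz.tj Cz.tp Cz.tv) Cz.tv489 = true := by decide +kernel

theorem ytv490 : DT.all (wzR cT Cz.tj Cz.tp Cz.tv) Cz.tv490 = true := by decide +kernel

theorem ytv491 : DT.all (wzR cT Cz.tj Cz.tp Cz.tv) Cz.tv491 = true := by decide +kernel

theorem ytv492 : DT.all (wzR cT Cz.tj Cz.tp Cz.tv) Cz.tv492 = true := by decide +kernel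

theorem ytv493 : DT.all (wzR cT Cz.tj Cz.tp Cz.tv) Cz.tv493 = true := by decide +kernel


end Pool.Agent.Lib.MP_5854e1_co.Cz

namespace Pool.Agent.Lib.MP_5854e1_co.Cz

open Pool.Agent.Lib.MP_5854e1_co PB

theorem ytv2138 : DT.all (wzR cT Cz.tj Cz.tp Cz.tv) Cz.tv2138 = true := by decide +kernel

theorem ytv2139 : DT.all (wzR cT Cz.tj Cz.tp Cz.tv) Cz.tv2139 = true := by decide +kernel

theorem ytv2140 : DT.all (wzR cT Cz.tj Cz.tp Cz.tv) Cz.tv2140 = true := by decide +kernel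

theorem ytv2141 : DT.all (wzR cT Cz.tj Cz.tp Cz.tv) Cz.tv2141 = true := by decide +kernel

theorem ytv2142 : DT.all (wzR cT Cz.tj Cz.tp Cz.tv) Cz.tv2142 = true := by decide +kernel

theorem ytv2143 : DT.all (wzR cT Cz.tj Cz.tp Cz.tv) Cz.tv2143 = true := by decide +kernel

theorem ytv2144 : DT.all (wzR cT Cz.tj Cz.tp Cz.tv) Cz.tv2144 = true := by decide +kernel

theorem ytv2145 : DT.all (wzR cT Cz.tj Cz.tp Cz.tv) Cz.tv2145 = true := by decide +kernel


end Pool.Agent.Lib.MP_5854e1_co.Cz
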