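import Pool.Agent.Lib.MP_5854e1_co.Cz.P

/-!
# The rows of the rings
-/

set_option autoImplicit false
set_option maxRecDepth 100000
set_option deprecated.oldSectionVars true

namespace Pool.Agent.Lib.MP_5854e1_co.Cz

open Pool.Agent.Lib.MP_5854e1_co PB

theorem ytv4908 : DT.all (wzR cT Cz.tj Cz.tp Cz.tv) Cz.tv4908 = true := by decide +kernel

theorem ytv4909 : DT.all (wzR cT Cz.tj Cz.tp Cz.tv) Cz.tv4909 = true := by decide +kernel

theorem ytv4910 : DT.all (wzR cT Cz.tj Cz.tp Cz.tv) Cz.tv4910 = true := by decide +kernel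

theorem ytv4911 : DT.all (wzR cT Cz.tj Cz.tp Cz.tv) Cz.tv4911 = true := by decide +kernel

theorem ytv4912 : DT.all (wzR cT Cz.tj Cz.tp Cz.tv) Cz.tv4912 = true := by decide +kernel

theorem ytv4913 : DT.all (wzR cT Cz.tj Cz.tp Cz.tv) Cz.tv4913 = true := by decide +kernel

theorem ytv4914 : DT.all (wzR cT Cz.tj Cz.tp Cz.tv) Cz.tv4914 = true := by decide +kernel

theorem ytv4915 : DT.all (wzR cT Cz.tj Cz.tp Cz.tv) Cz.tv4915 = true := by decide +kernel


end Pool.Agent.Lib.MP_5854e1_co.Cz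

namespace Pool.Agent.Lib.MP_5854e1_co.Cz

open Pool.Agent.Lib.MP_5854e1_co PB

theorem ytv5380 : DT.all (wzR cT Cz.tj Cz.tp Cz.tv) Cz.tv5380 = true := by decide +kernel

theorem ytv5381 : DT.all (wzR cT Cz.tj Cz.tp Cz.tv) Cz.tv5381 = true := by decide +kernel

theorem ytv5382 : DT.all (wzR cT Cz.tj Cz.tp Cz.tv) Cz.tv5382 = true := by decide +kernel

theorem ytv5383 : DT.all (wzR cT Cz.tj Cz.tp Cz.tv) Cz.tv5383 = true := by decide +kernel

theorem ytv5384 : DT.all (wzR cT Cz.tj Cz.tp Cz.tv) Cz.tv5384 = true := by decide +kernel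

theorem ytv5385 : DT.all (wzR cT Cz.tj Cz.tp Cz.tv) Cz.tv5385 = true := by decide +kernel

theorem ytv5386 : DT.all (wzR cT Cz.tj Cz.tp Cz.tv) Cz.tv5386 = true := by decide +kernel

theorem ytv5387 : DT.all (wzR cT Cz.tj Cz.tp Cz.tv) Cz.tv5387 = true := by decide +kernel


end Pool.Agent.Lib.MP_5854e1_co.Cz
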