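import Pool.Agent.Lib.MP_5854e1_co.Cz.P

/-!
# The rows of the rings
-/

set_option autoImplicit false
set_option maxRecDepth 100000
set_option deprecated.oldSectionVars true

namespace Pool.Agent.Lib.MP_5854e1_co.Cz

open Pool.Agent.Lib.MP_5854e1_co PB

theorem ytv4924 : DT.all (wzR cT Cz.tj Cz.tp Cz.tv) Cz.tv4924 = true := by decide +kernel

theorem ytv4925 : DT.all (wzR cT Cz.tj Cz.tp Cz.tv) Cz.tv4925 = true := by decide +kernel

theorem ytv4926 : DT.all (wzR cT Cz.tj Cz.tp Cz.tv) Cz.tv4926 = true := by decide +kernel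

theorem ytv4927 : DT.all (wzR cT Cz.tj Cz.tp Cz.tv) Cz.tv4927 = true := by decide +kernel

theorem ytv4928 : DT.all (wzR cT Cz.tj Cz.tp Cz.tv) Cz.tv4928 = true := by decide +kernel

theorem ytv4929 : DT.all (wzR cT Cz.tj Cz.tp Cz.tv) Cz.tv4929 = true := by decide +kernel

theorem ytv4930 : DT.all (wzR cT Cz.tj Cz.tp Cz.tv) Cz.tv4930 = true := by decide +kernel

theorem ytv4931 : DT.all (wzR cT Cz.tj Cz.tp Cz.tv) Cz.tv4931 = true := by decide +kernel


end Pool.Agent.Lib.MP_5854e1_co.Cz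

namespace Pool.Agent.Lib.MP_5854e1_co.Cz

open Pool.Agent.Lib.MP_5854e1_co PB

theorem ytv5329 : DT.all (wzR cT Cz.tj Cz.tp Cz.tv) Cz.tv5329 = true := by decide +kernel

theorem ytv5330 : DT.all (wzR cT Cz.tj Cz.tp Cz.tv) Cz.tv5330 = true := by decide +kernel

theorem ytv5331 : DT.all (wzR cT Cz.tj Cz.tp Cz.tv) Cz.tv5331 = true := by decide +kernel

theorem ytv5332 : DT.all (wzR cT Cz.tj Cz.tp Cz.tv) Cz.tv5332 = true := by decide +kernel

theorem ytv5333 : DT.all (wzR cT Cz.tj Cz.tp Cz.tv) Cz.tv5333 = true := by decide +kernel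

theorem ytv5334 : DT.all (wzR cT Cz.tj Cz.tp Cz.tv) Cz.tv5334 = true := by decide +kernel

theorem ytv5335 : DT.all (wzR cT Cz.tj Cz.tp Cz.tv) Cz.tv5335 = true := by decide +kernel

theorem ytv5336 : DT.all (wzR cT Cz.tj Cz.tp Cz.tv) Cz.tv5336 = true := by decide +kernel


end Pool.Agent.Lib.MP_5854e1_co.Cz
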