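import Pool.Agent.Lib.MP_5854e1_co.Cz.P

/-!
# The rows of the rings
-/

set_option autoImplicit false
set_option maxRecDepth 100000
set_option deprecated.oldSectionVars true

namespace Pool.Agent.Lib.MP_5854e1_co.Cz

open Pool.Agent.Lib.MP_5854e1_co PB

theorem ytv4949 : DT.all (wzR cT Cz.tj Cz.tp Cz.tv) Cz.tv4949 = true := by decide +kernel

theorem ytv4950 : DT.all (wzR cT Cz.tj Cz.tp Cz.tv) Cz.tv4950 = true := by decide +kernel

theorem ytv4951 : DT.all (wzR cT Cz.tj Cz.tp Cz.tv) Cz.tv4951 = true := by decide +kernel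

theorem ytv4952 : DT.all (wzR cT Cz.tj Cz.tp Cz.tv) Cz.tv4952 = true := by decide +kernel

theorem ytv4953 : DT.all (wzR cT Cz.tj Cz.tp Cz.tv) Cz.tv4953 = true := by decide +kernel

theorem ytv4954 : DT.all (wzR cT Cz.tj Cz.tp Cz.tv) Cz.tv4954 = true := by decide +kernel

theorem ytv4955 : DT.all (wzR cT Cz.tj Cz.tp Cz.tv) Cz.tv4955 = true := by decide +kernel

theorem ytv4956 : DT.all (wzR cT Cz.tj Cz.tp Cz.tv) Cz.tv4956 = true := by decide +kernel

theorem ytv4957 : DT.all (wzR cT Cz.tj Cz.tp Cz.tv) Cz.tv4957 = true := by decide +kernel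


end Pool.Agent.Lib.MP_5854e1_co.Cz
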