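import Pool.Agent.Lib.MP_5854e1_co.Cz.P

/-!
# The rows of the rings
-/

set_option autoImplicit false
set_option maxRecDepth 100000
set_option deprecated.oldSectionVars true

namespace Pool.Agent.Lib.MP_5854e1_co.Cz

open Pool.Agent.Lib.MP_5854e1_co PB

theorem ytv4966 : DT.all (wzR cT Cz.tj Cz.tp Cz.tv) Cz.tv4966 = true := by decide +kernel

theorem ytv4967 : DT.all (wzR cT Cz.tj Cz.tp Cz.tv) Cz.tv4967 = true := by decide +kernel

theorem ytv4968 : DT.all (wzR cT Cz.tj Cz.tp Cz.tv) Cz.tv4968 = true := by decide +kernel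

theorem ytv4969 : DT.all (wzR cT Cz.tj Cz.tp Cz.tv) Cz.tv4969 = true := by decide +kernel

theorem ytv4970 : DT.all (wzR cT Cz.tj Cz.tp Cz.tv) Cz.tv4970 = true := by decide +kernel

theorem ytv4971 : DT.all (wzR cT Cz.tj Cz.tp Cz.tv) Cz.tv4971 = true := by decide +kernel

theorem ytv4972 : DT.all (wzR cT Cz.tj Cz.tp Cz.tv) Cz.tv4972 = true := by decide +kernel

theorem ytv4973 : DT.all (wzR cT Cz.tj Cz.tp Cz.tv) Cz.tv4973 = true := by decide +kernel


end Pool.Agent.Lib.MP_5854e1_co.Cz
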