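import Pool.Agent.Lib.MP_5854e1_co.Cz.P

/-!
# The rows of the rings
-/

set_option autoImplicit false
set_option maxRecDepth 100000
set_option deprecated.oldSectionVars true

namespace Pool.Agent.Lib.MP_5854e1_co.Cz

open Pool.Agent.Lib.MP_5854e1_co PB

theorem ytv5016 : DT.all (wzR cT Cz.tj Cz.tp Cz.tv) Cz.tv5016 = true := by decide +kernel

theorem ytv5017 : DT.all (wzR cT Cz.tj Cz.tp Cz.tv) Cz.tv5017 = true := by decide +kernel

theorem ytv5018 : DT.all (wzR cT Cz.tj Cz.tp Cz.tv) Cz.tv5018 = true := by decide +kernel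

theorem ytv5019 : DT.all (wzR cT Cz.tj Cz.tp Cz.tv) Cz.tv5019 = true := by decide +kernel

theorem ytv5020 : DT.all (wzR cT Cz.tj Cz.tp Cz.tv) Cz.tv5020 = true := by decide +kernel

theorem ytv5021 : DT.all (wzR cT Cz.tj Cz.tp Cz.tv) Cz.tv5021 = true := by decide +kernel

theorem ytv5022 : DT.all (wzR cT Cz.tj Cz.tp Cz.tv) Cz.tv5022 = true := by decide +kernel

theorem ytv5023 : DT.all (wzR cT Cz.tj Cz.tp Cz.tv) Cz.tv5023 = true := by decide +kernel

theorem ytv5024 : DT.all (wzR cT Cz.tj Cz.tp Cz.tv) Cz.tv5024 = true := by decide +kernel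


end Pool.Agent.Lib.MP_5854e1_co.Cz
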