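import Pool.Agent.Lib.MP_5854e1_co.Cz.P

/-!
# The rows of the rings
-/

set_option autoImplicit false
set_option maxRecDepth 100000
set_option deprecated.oldSectionVars true

namespace Pool.Agent.Lib.MP_5854e1_co.Cz

open Pool.Agent.Lib.MP_5854e1_co PB

theorem ytv5025 : DT.all (wzR cT Cz.tj Cz.tp Cz.tv) Cz.tv5025 = true := by decide +kernel

theorem ytv5026 : DT.all (wzR cT Cz.tj Cz.tp Cz.tv) Cz.tv5026 = true := by decide +kernel

theorem ytv5027 : DT.all (wzR cT Cz.tj Cz.tp Cz.tv) Cz.tv5027 = true := by decide +kernel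

theorem ytv5028 : DT.all (wzR cT Cz.tj Cz.tp Cz.tv) Cz.tv5028 = true := by decide +kernel

theorem ytv5029 : DT.all (wzR cT Cz.tj Cz.tp Cz.tv) Cz.tv5029 = true := by decide +kernel

theorem ytv5030 : DT.all (wzR cT Cz.tj Cz.tp Cz.tv) Cz.tv5030 = true := by decide +kernel

theorem ytv5031 : DT.all (wzR cT Cz.tj Cz.tp Cz.tv) Cz.tv5031 = true := by decide +kernel

theorem ytv5032 : DT.all (wzR cT Cz.tj Cz.tp Cz.tv) Cz.tv5032 = true := by decide +kernel

theorem ytv5033 : DT.all (wzR cT Cz.tj Cz.tp Cz.tv) Cz.tv5033 = true := by decide +kernel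


end Pool.Agent.Lib.MP_5854e1_co.Cz
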