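import Pool.Agent.Lib.MP_5854e1_co.Cz.P

/-!
# The rows of the rings
-/

set_option autoImplicit false
set_option maxRecDepth 100000
set_option deprecated.oldSectionVars true

namespace Pool.Agent.Lib.MP_5854e1_co.Cz

open Pool.Agent.Lib.MP_5854e1_co PB

theorem ytv5061 : DT.all (wzR cT Cz.tj Cz.tp Cz.tv) Cz.tv5061 = true := by decide +kernel

theorem ytv5062 : DT.all (wzR cT Cz.tj Cz.tp Cz.tv) Cz.tv5062 = true := by decide +kernel

theorem ytv5063 : DT.all (wzR cT Cz.tj Cz.tp Cz.tv) Cz.tv5063 = true := by decide +kernel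

theorem ytv5064 : DT.all (wzR cT Cz.tj Cz.tp Cz.tv) Cz.tv5064 = true := by decide +kernel

theorem ytv5065 : DT.all (wzR cT Cz.tj Cz.tp Cz.tv) Cz.tv5065 = true := by decide +kernel

theorem ytv5066 : DT.all (wzR cT Cz.tj Cz.tp Cz.tv) Cz.tv5066 = true := by decide +kernel

theorem ytv5067 : DT.all (wzR cT Cz.tj Cz.tp Cz.tv) Cz.tv5067 = true := by decide +kernel

theorem ytv5068 : DT.all (wzR cT Cz.tj Cz.tp Cz.tv) Cz.tv5068 = true := by decide +kernel

theorem ytv5069 : DT.all (wzR cT Cz.tj Cz.tp Cz.tv) Cz.tv5069 = true := by decide +kernel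


end Pool.Agent.Lib.MP_5854e1_co.Cz
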