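import Pool.Agent.Lib.MP_5854e1_co.Cz.P

/-!
# The rows of the rings
-/

set_option autoImplicit false
set_option maxRecDepth 100000
set_option deprecated.oldSectionVars true

namespace Pool.Agent.Lib.MP_5854e1_co.Cz

open Pool.Agent.Lib.MP_5854e1_co PB

theorem ytv510 : DT.all (wzR cT Cz.tj Cz.tp Cz.tv) Cz.tv510 = true := by decide +kernel

theorem ytv511 : DT.all (wzR cT Cz.tj Cz.tp Cz.tv) Cz.tv511 = true := by decide +kernel

theorem ytv512 : DT.all (wzR cT Cz.tj Cz.tp Cz.tv) Cz.tv512 = true := by decide +kernel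

theorem ytv513 : DT.all (wzR cT Cz.tj Cz.tp Cz.tv) Cz.tv513 = true := by decide +kernel

theorem ytv514 : DT.all (wzR cT Cz.tj Cz.tp Cz.tv) Cz.tv514 = true := by decide +kernel

theorem ytv515 : DT.all (wzR cT Cz.tj Cz.tp Cz.tv) Cz.tv515 = true := by decide +kernel

theorem ytv516 : DT.all (wzR cT Cz.tj Cz.tp Cz.tv) Cz.tv516 = true := by decide +kernel

theorem ytv517 : DT.all (wzR cT Cz.tj Cz.tp Cz.tv) Cz.tv517 = true := by decide +kernel

theorem ytv518 : DT.all (wzR cT Cz.tj Cz.tp Cz.tv) Cz.tv518 = true := by decide +kernel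


end Pool.Agent.Lib.MP_5854e1_co.Cz

namespace Pool.Agent.Lib.MP_5854e1_co.Cz

open Pool.Agent.Lib.MP_5854e1_co PB

theorem ytv4104 : DT.all (wzR cT Cz.tj Cz.tp Cz.tv) Cz.tv4104 = true := by decide +kernel

theorem ytv4105 : DT.all (wzR cT Cz.tj Cz.tp Cz.tv) Cz.tv4105 = true := by decide +kernel

theorem ytv4106 : DT.all (wzR cT Cz.tj Cz.tp Cz.tv) Cz.tv4106 = true := by decide +kernel

theorem ytv4107 : DT.all (wzR cT Cz.tj Cz.tp Cz.tv) Cz.tv4107 = true := by decide +kernel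


end Pool.Agent.Lib.MP_5854e1_co.Cz
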