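import Pool.Agent.Lib.MP_5854e1_co.Cz.P

/-!
# The rows of the rings
-/

set_option autoImplicit false
set_option maxRecDepth 100000
set_option deprecated.oldSectionVars true

namespace Pool.Agent.Lib.MP_5854e1_co.Cz

open Pool.Agent.Lib.MP_5854e1_co PB

theorem ytv5160 : DT.all (wzR cT Cz.tj Cz.tp Cz.tv) Cz.tv5160 = true := by decide +kernel

theorem ytv5161 : DT.all (wzR cT Cz.tj Cz.tp Cz.tv) Cz.tv5161 = true := by decide +kernel

theorem ytv5162 : DT.all (wzR cT Cz.tj Cz.tp Cz.tv) Cz.tv5162 = true := by decide +kernel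


end Pool.Agent.Lib.MP_5854e1_co.Cz

namespace Pool.Agent.Lib.MP_5854e1_co.Cz

open Pool.Agent.Lib.MP_5854e1_co PB

theorem ytv5201 : DT.all (wzR cT Cz.tj Cz.tp Cz.tv) Cz.tv5201 = true := by decide +kernel

theorem ytv5202 : DT.all (wzR cT Cz.tj Cz.tp Cz.tv) Cz.tv5202 = true := by decide +kernel

theorem ytv5203 : DT.all (wzR cT Cz.tj Cz.tp Cz.tv) Cz.tv5203 = true := by decide +kernel

theorem ytv5204 : DT.all (wzR cT Cz.tj Cz.tp Cz.tv) Cz.tv5204 = true := by decide +kernel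

theorem ytv5205 : DT.all (wzR cT Cz.tj Cz.tp Cz.tv) Cz.tv5205 = true := by decide +kernel

theorem ytv5206 : DT.all (wzR cT Cz.tj Cz.tp Cz.tv) Cz.tv5206 = true := by decide +kernel

theorem ytv5207 : DT.all (wzR cT Cz.tj Cz.tp Cz.tv) Cz.tv5207 = true := by decide +kernel


end Pool.Agent.Lib.MP_5854e1_co.Cz
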