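import Pool.Agent.Lib.MP_5854e1_co.Cz.P

/-!
# The rows of the rings
-/

set_option autoImplicit false
set_option maxRecDepth 100000
set_option deprecated.oldSectionVars true

namespace Pool.Agent.Lib.MP_5854e1_co.Cz

open Pool.Agent.Lib.MP_5854e1_co PB

theorem ytv5184 : DT.all (wzR cT Cz.tj Cz.tp Cz.tv) Cz.tv5184 = true := by decide +kernel

theorem ytv5185 : DT.all (wzR cT Cz.tj Cz.tp Cz.tv) Cz.tv5185 = true := by decide +kernel

theorem ytv5186 : DT.all (wzR cT Cz.tj Cz.tp Cz.tv) Cz.tv5186 = true := by decide +kernel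

theorem ytv5187 : DT.all (wzR cT Cz.tj Cz.tp Cz.tv) Cz.tv5187 = true := by decide +kernel

theorem ytv5188 : DT.all (wzR cT Cz.tj Cz.tp Cz.tv) Cz.tv5188 = true := by decide +kernel

theorem ytv5189 : DT.all (wzR cT Cz.tj Cz.tp Cz.tv) Cz.tv5189 = true := by decide +kernel

theorem ytv5190 : DT.all (wzR cT Cz.tj Cz.tp Cz.tv) Cz.tv5190 = true := by decide +kernel

theorem ytv5191 : DT.all (wzR cT Cz.tj Cz.tp Cz.tv) Cz.tv5191 = true := by decide +kernel

theorem ytv5192 : DT.all (wzR cT Cz.tj Cz.tp Cz.tv) Cz.tv5192 = true := by decide +kernel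

theorem ytv5193 : DT.all (wzR cT Cz.tj Cz.tp Cz.tv) Cz.tv5193 = true := by decide +kernel


end Pool.Agent.Lib.MP_5854e1_co.Cz
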