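import Pool.Agent.Lib.MP_5854e1_co.Cz.P

/-!
# The rows of the rings
-/

set_option autoImplicit false
set_option maxRecDepth 100000
set_option deprecated.oldSectionVars true

namespace Pool.Agent.Lib.MP_5854e1_co.Cz

open Pool.Agent.Lib.MP_5854e1_co PB

theorem ytv526 : DT.all (wzR cT Cz.tj Cz.tp Cz.tv) Cz.tv526 = true := by decide +kernel

theorem ytv527 : DT.all (wzR cT Cz.tj Cz.tp Cz.tv) Cz.tv527 = true := by decide +kernel

theorem ytv528 : DT.all (wzR cT Cz.tj Cz.tp Cz.tv) Cz.tv528 = true := by decide +kernel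

theorem ytv529 : DT.all (wzR cT Cz.tj Cz.tp Cz.tv) Cz.tv529 = true := by decide +kernel

theorem ytv530 : DT.all (wzR cT Cz.tj Cz.tp Cz.tv) Cz.tv530 = true := by decide +kernel

theorem ytv531 : DT.all (wzR cT Cz.tj Cz.tp Cz.tv) Cz.tv531 = true := by decide +kernel

theorem ytv532 : DT.all (wzR cT Cz.tj Cz.tp Cz.tv) Cz.tv532 = true := by decide +kernel

theorem ytv533 : DT.all (wzR cT Cz.tj Cz.tp Cz.tv) Cz.tv533 = true := by decide +kernel


end Pool.Agent.Lib.MP_5854e1_co.Cz
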