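import Pool.Agent.Lib.MP_5854e1_co.Cz.P

/-!
# The rows of the rings
-/

set_option autoImplicit false
set_option maxRecDepth 100000
set_option deprecated.oldSectionVars true

namespace Pool.Agent.Lib.MP_5854e1_co.Cz

open Pool.Agent.Lib.MP_5854e1_co PB

theorem ytv5371 : DT.all (wzR cT Cz.tj Cz.tp Cz.tv) Cz.tv5371 = true := by decide +kernel

theorem ytv5372 : DT.all (wzR cT Cz.tj Cz.tp Cz.tv) Cz.tv5372 = true := by decide +kernel

theorem ytv5373 : DT.all (wzR cT Cz.tj Cz.tp Cz.tv) Cz.tv5373 = true := by decide +kernel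

theorem ytv5374 : DT.all (wzR cT Cz.tj Cz.tp Cz.tv) Cz.tv5374 = true := by decide +kernel

theorem ytv5375 : DT.all (wzR cT Cz.tj Cz.tp Cz.tv) Cz.tv5375 = true := by decide +kernel

theorem ytv5376 : DT.all (wzR cT Cz.tj Cz.tp Cz.tv) Cz.tv5376 = true := by decide +kernel

theorem ytv5377 : DT.all (wzR cT Cz.tj Cz.tp Cz.tv) Cz.tv5377 = true := by decide +kernel

theorem ytv5378 : DT.all (wzR cT Cz.tj Cz.tp Cz.tv) Cz.tv5378 = true := by decide +kernel

theorem ytv5379 : DT.all (wzR cT Cz.tj Cz.tp Cz.tv) Cz.tv5379 = true := by decide +kernel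


end Pool.Agent.Lib.MP_5854e1_co.Cz
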