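import Pool.Agent.Lib.MP_5854e1_co.Cz.P

/-!
# The rows of the rings
-/

set_option autoImplicit false
set_option maxRecDepth 100000
set_option deprecated.oldSectionVars true

namespace Pool.Agent.Lib.MP_5854e1_co.Cz

open Pool.Agent.Lib.MP_5854e1_co PB

theorem ytv534 : DT.all (wzR cT Cz.tj Cz.tp Cz.tv) Cz.tv534 = true := by decide +kernel

theorem ytv535 : DT.all (wzR cT Cz.tj Cz.tp Cz.tv) Cz.tv535 = true := by decide +kernel

theorem ytv536 : DT.all (wzR cT Cz.tj Cz.tp Cz.tv) Cz.tv536 = true := by decide +kernel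

theorem ytv537 : DT.all (wzR cT Cz.tj Cz.tp Cz.tv) Cz.tv537 = true := by decide +kernel

theorem ytv538 : DT.all (wzR cT Cz.tj Cz.tp Cz.tv) Cz.tv538 = true := by decide +kernel

theorem ytv539 : DT.all (wzR cT Cz.tj Cz.tp Cz.tv) Cz.tv539 = true := by decide +kernel

theorem ytv540 : DT.all (wzR cT Cz.tj Cz.tp Cz.tv) Cz.tv540 = true := by decide +kernel


end Pool.Agent.Lib.MP_5854e1_co.Cz

namespace Pool.Agent.Lib.MP_5854e1_co.Cz

open Pool.Agent.Lib.MP_5854e1_co PB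

theorem ytv2146 : DT.all (wzR cT Cz.tj Cz.tp Cz.tv) Cz.tv2146 = true := by decide +kernel

theorem ytv2147 : DT.all (wzR cT Cz.tj Cz.tp Cz.tv) Cz.tv2147 = true := by decide +kernel

theorem ytv2148 : DT.all (wzR cT Cz.tj Cz.tp Cz.tv) Cz.tv2148 = true := by decide +kernel

theorem ytv2149 : DT.all (wzR cT Cz.tj Cz.tp Cz.tv) Cz.tv2149 = true := by decide +kernel

theorem ytv2150 : DT.all (wzR cT Cz.tj Cz.tp Cz.tv) Cz.tv2150 = true := by decide +kernel

theorem ytv2151 : DT.all (wzR cT Cz.tj Cz.tp Cz.tv) Cz.tv2151 = true := by decide +kernel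

theorem ytv2152 : DT.all (wzR cT Cz.tj Cz.tp Cz.tv) Cz.tv2152 = true := by decide +kernel

theorem ytv2153 : DT.all (wzR cT Cz.tj Cz.tp Cz.tv) Cz.tv2153 = true := by decide +kernel


end Pool.Agent.Lib.MP_5854e1_co.Cz
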