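import Pool.Agent.Lib.MP_5854e1_co.Cz.P

/-!
# The rows of the rings
-/

set_option autoImplicit false
set_option maxRecDepth 100000
set_option deprecated.oldSectionVars true

namespace Pool.Agent.Lib.MP_5854e1_co.Cz

open Pool.Agent.Lib.MP_5854e1_co PB

theorem ytv549 : DT.all (wzR cT Cz.tj Cz.tp Cz.tv) Cz.tv549 = true := by decide +kernel

theorem ytv550 : DT.all (wzR cT Cz.tj Cz.tp Cz.tv) Cz.tv550 = true := by decide +kernel

theorem ytv551 : DT.all (wzR cT Cz.tj Cz.tp Cz.tv) Cz.tv551 = true := by decide +kernel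

theorem ytv552 : DT.all (wzR cT Cz.tj Cz.tp Cz.tv) Cz.tv552 = true := by decide +kernel

theorem ytv553 : DT.all (wzR cT Cz.tj Cz.tp Cz.tv) Cz.tv553 = true := by decide +kernel


end Pool.Agent.Lib.MP_5854e1_co.Cz

namespace Pool.Agent.Lib.MP_5854e1_co.Cz

open Pool.Agent.Lib.MP_5854e1_co PB

theorem ytv4485 : DT.all (wzR cT Cz.tj Cz.tp Cz.tv) Cz.tv4485 = true := by decide +kernel

theorem ytv4486 : DT.all (wzR cT Cz.tj Cz.tp Cz.tv) Cz.tv4486 = true := by decide +kernel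

theorem ytv4487 : DT.all (wzR cT Cz.tj Cz.tp Cz.tv) Cz.tv4487 = true := by decide +kernel

theorem ytv4488 : DT.all (wzR cT Cz.tj Cz.tp Cz.tv) Cz.tv4488 = true := by decide +kernel

theorem ytv4489 : DT.all (wzR cT Cz.tj Cz.tp Cz.tv) Cz.tv4489 = true := by decide +kernel

theorem ytv4490 : DT.all (wzR cT Cz.tj Cz.tp Cz.tv) Cz.tv4490 = true := by decide +kernel

theorem ytv4491 : DT.all (wzR cT Cz.tj Cz.tp Cz.tv) Cz.tv4491 = true := by decide +kernel

theorem ytv4492 : DT.all (wzR cT Cz.tj Cz.tp Cz.tv) Cz.tv4492 = true := by decide +kernel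

theorem ytv4493 : DT.all (wzR cT Cz.tj Cz.tp Cz.tv) Cz.tv4493 = true := by decide +kernel


end Pool.Agent.Lib.MP_5854e1_co.Cz
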