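import Pool.Agent.Lib.MP_5854e1_co.Cz.P

/-!
# The rows of the rings
-/

set_option autoImplicit false
set_option maxRecDepth 100000
set_option deprecated.oldSectionVars true

namespace Pool.Agent.Lib.MP_5854e1_co.Cz

open Pool.Agent.Lib.MP_5854e1_co PB

theorem ytv554 : DT.all (wzR cT Cz.tj Cz.tp Cz.tv) Cz.tv554 = true := by decide +kernel

theorem ytv555 : DT.all (wzR cT Cz.tj Cz.tp Cz.tv) Cz.tv555 = true := by decide +kernel

theorem ytv556 : DT.all (wzR cT Cz.tj Cz.tp Cz.tv) Cz.tv556 = true := by decide +kernel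

theorem ytv557 : DT.all (wzR cT Cz.tj Cz.tp Cz.tv) Cz.tv557 = true := by decide +kernel

theorem ytv558 : DT.all (wzR cT Cz.tj Cz.tp Cz.tv) Cz.tv558 = true := by decide +kernel


end Pool.Agent.Lib.MP_5854e1_co.Cz

namespace Pool.Agent.Lib.MP_5854e1_co.Cz

open Pool.Agent.Lib.MP_5854e1_co PB

theorem ytv5194 : DT.all (wzR cT Cz.tj Cz.tp Cz.tv) Cz.tv5194 = true := by decide +kernel

theorem ytv5195 : DT.all (wzR cT Cz.tj Cz.tp Cz.tv) Cz.tv5195 = true := by decide +kernel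

theorem ytv5196 : DT.all (wzR cT Cz.tj Cz.tp Cz.tv) Cz.tv5196 = true := by decide +kernel

theorem ytv5197 : DT.all (wzR cT Cz.tj Cz.tp Cz.tv) Cz.tv5197 = true := by decide +kernel

theorem ytv5198 : DT.all (wzR cT Cz.tj Cz.tp Cz.tv) Cz.tv5198 = true := by decide +kernel

theorem ytv5199 : DT.all (wzR cT Cz.tj Cz.tp Cz.tv) Cz.tv5199 = true := by decide +kernel

theorem ytv5200 : DT.all (wzR cT Cz.tj Cz.tp Cz.tv) Cz.tv5200 = true := by decide +kernel


end Pool.Agent.Lib.MP_5854e1_co.Cz
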