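import Pool.Agent.Lib.MP_5854e1_co.Cz.P

/-!
# The rows of the rings
-/

set_option autoImplicit false
set_option maxRecDepth 100000
set_option deprecated.oldSectionVars true

namespace Pool.Agent.Lib.MP_5854e1_co.Cz

open Pool.Agent.Lib.MP_5854e1_co PB

theorem ytv559 : DT.all (wzR cT Cz.tj Cz.tp Cz.tv) Cz.tv559 = true := by decide +kernel

theorem ytv560 : DT.all (wzR cT Cz.tj Cz.tp Cz.tv) Cz.tv560 = true := by decide +kernel

theorem ytv561 : DT.all (wzR cT Cz.tj Cz.tp Cz.tv) Cz.tv561 = true := by decide +kernel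

theorem ytv562 : DT.all (wzR cT Cz.tj Cz.tp Cz.tv) Cz.tv562 = true := by decide +kernel

theorem ytv563 : DT.all (wzR cT Cz.tj Cz.tp Cz.tv) Cz.tv563 = true := by decide +kernel

theorem ytv564 : DT.all (wzR cT Cz.tj Cz.tp Cz.tv) Cz.tv564 = true := by decide +kernel

theorem ytv565 : DT.all (wzR cT Cz.tj Cz.tp Cz.tv) Cz.tv565 = true := by decide +kernel

theorem ytv566 : DT.all (wzR cT Cz.tj Cz.tp Cz.tv) Cz.tv566 = true := by decide +kernel

theorem ytv567 : DT.all (wzR cT Cz.tj Cz.tp Cz.tv) Cz.tv567 = true := by decide +kernel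


end Pool.Agent.Lib.MP_5854e1_co.Cz

namespace Pool.Agent.Lib.MP_5854e1_co.Cz

open Pool.Agent.Lib.MP_5854e1_co PB

theorem ytv2616 : DT.all (wzR cT Cz.tj Cz.tp Cz.tv) Cz.tv2616 = true := by decide +kernel

theorem ytv2617 : DT.all (wzR cT Cz.tj Cz.tp Cz.tv) Cz.tv2617 = true := by decide +kernel

theorem ytv2618 : DT.all (wzR cT Cz.tj Cz.tp Cz.tv) Cz.tv2618 = true := by decide +kernel

theorem ytv2619 : DT.all (wzR cT Cz.tj Cz.tp Cz.tv) Cz.tv2619 = true := by decide +kernel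

theorem ytv2620 : DT.all (wzR cT Cz.tj Cz.tp Cz.tv) Cz.tv2620 = true := by decide +kernel

theorem ytv2621 : DT.all (wzR cT Cz.tj Cz.tp Cz.tv) Cz.tv2621 = true := by decide +kernel

theorem ytv2622 : DT.all (wzR cT Cz.tj Cz.tp Cz.tv) Cz.tv2622 = true := by decide +kernel

theorem ytv2623 : DT.all (wzR cT Cz.tj Cz.tp Cz.tv) Cz.tv2623 = true := by decide +kernel

theorem ytv2624 : DT.all (wzR cT Cz.tj Cz.tp Cz.tv) Cz.tv2624 = true := by decide +kernel


end Pool.Agent.Lib.MP_5854e1_co.Cz
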