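import Pool.Agent.Lib.MP_5854e1_co.Cz.P

/-!
# The rows of the rings
-/

set_option autoImplicit false
set_option maxRecDepth 100000
set_option deprecated.oldSectionVars true

namespace Pool.Agent.Lib.MP_5854e1_co.Cz

open Pool.Agent.Lib.MP_5854e1_co PB

theorem ytv577 : DT.all (wzR cT Cz.tj Cz.tp Cz.tv) Cz.tv577 = true := by decide +kernel

theorem ytv578 : DT.all (wzR cT Cz.tj Cz.tp Cz.tv) Cz.tv578 = true := by decide +kernel

theorem ytv579 : DT.all (wzR cT Cz.tj Cz.tp Cz.tv) Cz.tv579 = true := by decide +kernel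

theorem ytv580 : DT.all (wzR cT Cz.tj Cz.tp Cz.tv) Cz.tv580 = true := by decide +kernel

theorem ytv581 : DT.all (wzR cT Cz.tj Cz.tp Cz.tv) Cz.tv581 = true := by decide +kernel

theorem ytv582 : DT.all (wzR cT Cz.tj Cz.tp Cz.tv) Cz.tv582 = true := by decide +kernel

theorem ytv583 : DT.all (wzR cT Cz.tj Cz.tp Cz.tv) Cz.tv583 = true := by decide +kernel

theorem ytv584 : DT.all (wzR cT Cz.tj Cz.tp Cz.tv) Cz.tv584 = true := by decide +kernel


end Pool.Agent.Lib.MP_5854e1_co.Cz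

namespace Pool.Agent.Lib.MP_5854e1_co.Cz

open Pool.Agent.Lib.MP_5854e1_co PB

theorem ytv1827 : DT.all (wzR cT Cz.tj Cz.tp Cz.tv) Cz.tv1827 = true := by decide +kernel

theorem ytv1828 : DT.all (wzR cT Cz.tj Cz.tp Cz.tv) Cz.tv1828 = true := by decide +kernel

theorem ytv1829 : DT.all (wzR cT Cz.tj Cz.tp Cz.tv) Cz.tv1829 = true := by decide +kernel

theorem ytv1830 : DT.all (wzR cT Cz.tj Cz.tp Cz.tv) Cz.tv1830 = true := by decide +kernel

theorem ytv1831 : DT.all (wzR cT Cz.tj Cz.tp Cz.tv) Cz.tv1831 = true := by decide +kernel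

theorem ytv1832 : DT.all (wzR cT Cz.tj Cz.tp Cz.tv) Cz.tv1832 = true := by decide +kernel

theorem ytv1833 : DT.all (wzR cT Cz.tj Cz.tp Cz.tv) Cz.tv1833 = true := by decide +kernel

theorem ytv1834 : DT.all (wzR cT Cz.tj Cz.tp Cz.tv) Cz.tv1834 = true := by decide +kernel

theorem ytv1835 : DT.all (wzR cT Cz.tj Cz.tp Cz.tv) Cz.tv1835 = true := by decide +kernel


end Pool.Agent.Lib.MP_5854e1_co.Cz
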