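import Pool.Agent.Lib.MP_5854e1_co.Cz.P

/-!
# The rows of the rings
-/

set_option autoImplicit false
set_option maxRecDepth 100000
set_option deprecated.oldSectionVars true

namespace Pool.Agent.Lib.MP_5854e1_co.Cz

open Pool.Agent.Lib.MP_5854e1_co PB

theorem ytv585 : DT.all (wzR cT Cz.tj Cz.tp Cz.tv) Cz.tv585 = true := by decide +kernel

theorem ytv586 : DT.all (wzR cT Cz.tj Cz.tp Cz.tv) Cz.tv586 = true := by decide +kernel

theorem ytv587 : DT.all (wzR cT Cz.tj Cz.tp Cz.tv) Cz.tv587 = true := by decide +kernel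

theorem ytv588 : DT.all (wzR cT Cz.tj Cz.tp Cz.tv) Cz.tv588 = true := by decide +kernel

theorem ytv589 : DT.all (wzR cT Cz.tj Cz.tp Cz.tv) Cz.tv589 = true := by decide +kernel

theorem ytv590 : DT.all (wzR cT Cz.tj Cz.tp Cz.tv) Cz.tv590 = true := by decide +kernel

theorem ytv591 : DT.all (wzR cT Cz.tj Cz.tp Cz.tv) Cz.tv591 = true := by decide +kernel

theorem ytv592 : DT.all (wzR cT Cz.tj Cz.tp Cz.tv) Cz.tv592 = true := by decide +kernel

theorem ytv593 : DT.all (wzR cT Cz.tj Cz.tp Cz.tv) Cz.tv593 = true := by decide +kernel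


end Pool.Agent.Lib.MP_5854e1_co.Cz
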