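import Pool.Agent.Lib.MP_5854e1_co.Cz.P

/-!
# The rows of the rings
-/

set_option autoImplicit false
set_option maxRecDepth 100000
set_option deprecated.oldSectionVars true

namespace Pool.Agent.Lib.MP_5854e1_co.Cz

open Pool.Agent.Lib.MP_5854e1_co PB

theorem ytv594 : DT.all (wzR cT Cz.tj Cz.tp Cz.tv) Cz.tv594 = true := by decide +kernel

theorem ytv595 : DT.all (wzR cT Cz.tj Cz.tp Cz.tv) Cz.tv595 = true := by decide +kernel

theorem ytv596 : DT.all (wzR cT Cz.tj Cz.tp Cz.tv) Cz.tv596 = true := by decide +kernel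

theorem ytv597 : DT.all (wzR cT Cz.tj Cz.tp Cz.tv) Cz.tv597 = true := by decide +kernel

theorem ytv598 : DT.all (wzR cT Cz.tj Cz.tp Cz.tv) Cz.tv598 = true := by decide +kernel

theorem ytv599 : DT.all (wzR cT Cz.tj Cz.tp Cz.tv) Cz.tv599 = true := by decide +kernel

theorem ytv600 : DT.all (wzR cT Cz.tj Cz.tp Cz.tv) Cz.tv600 = true := by decide +kernel

theorem ytv601 : DT.all (wzR cT Cz.tj Cz.tp Cz.tv) Cz.tv601 = true := by decide +kernel

theorem ytv602 : DT.all (wzR cT Cz.tj Cz.tp Cz.tv) Cz.tv602 = true := by decide +kernel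


end Pool.Agent.Lib.MP_5854e1_co.Cz

namespace Pool.Agent.Lib.MP_5854e1_co.Cz

open Pool.Agent.Lib.MP_5854e1_co PB

theorem ytv5474 : DT.all (wzR cT Cz.tj Cz.tp Cz.tv) Cz.tv5474 = true := by decide +kernel

theorem ytv5475 : DT.all (wzR cT Cz.tj Cz.tp Cz.tv) Cz.tv5475 = true := by decide +kernel

theorem ytv5476 : DT.all (wzR cT Cz.tj Cz.tp Cz.tv) Cz.tv5476 = true := by decide +kernel

theorem ytv5477 : DT.all (wzR cT Cz.tj Cz.tp Cz.tv) Cz.tv5477 = true := by decide +kernel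

theorem ytv5478 : DT.all (wzR cT Cz.tj Cz.tp Cz.tv) Cz.tv5478 = true := by decide +kernel

theorem ytv5479 : DT.all (wzR cT Cz.tj Cz.tp Cz.tv) Cz.tv5479 = true := by decide +kernel

theorem ytv5480 : DT.all (wzR cT Cz.tj Cz.tp Cz.tv) Cz.tv5480 = true := by decide +kernel

theorem ytv5481 : DT.all (wzR cT Cz.tj Cz.tp Cz.tv) Cz.tv5481 = true := by decide +kernel

theorem ytv5482 : DT.all (wzR cT Cz.tj Cz.tp Cz.tv) Cz.tv5482 = true := by decide +kernel


end Pool.Agent.Lib.MP_5854e1_co.Cz
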