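import Pool.Agent.Lib.MP_5854e1_co.Cz.P

/-!
# The rows of the rings
-/

set_option autoImplicit false
set_option maxRecDepth 100000
set_option deprecated.oldSectionVars true

namespace Pool.Agent.Lib.MP_5854e1_co.Cz

open Pool.Agent.Lib.MP_5854e1_co PB

theorem ytv603 : DT.all (wzR cT Cz.tj Cz.tp Cz.tv) Cz.tv603 = true := by decide +kernel

theorem ytv604 : DT.all (wzR cT Cz.tj Cz.tp Cz.tv) Cz.tv604 = true := by decide +kernel

theorem ytv605 : DT.all (wzR cT Cz.tj Cz.tp Cz.tv) Cz.tv605 = true := by decide +kernel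

theorem ytv606 : DT.all (wzR cT Cz.tj Cz.tp Cz.tv) Cz.tv606 = true := by decide +kernel

theorem ytv607 : DT.all (wzR cT Cz.tj Cz.tp Cz.tv) Cz.tv607 = true := by decide +kernel

theorem ytv608 : DT.all (wzR cT Cz.tj Cz.tp Cz.tv) Cz.tv608 = true := by decide +kernel

theorem ytv609 : DT.all (wzR cT Cz.tj Cz.tp Cz.tv) Cz.tv609 = true := by decide +kernel

theorem ytv610 : DT.all (wzR cT Cz.tj Cz.tp Cz.tv) Cz.tv610 = true := by decide +kernel


end Pool.Agent.Lib.MP_5854e1_co.Cz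

namespace Pool.Agent.Lib.MP_5854e1_co.Cz

open Pool.Agent.Lib.MP_5854e1_co PB

theorem ytv713 : DT.all (wzR cT Cz.tj Cz.tp Cz.tv) Cz.tv713 = true := by decide +kernel

theorem ytv714 : DT.all (wzR cT Cz.tj Cz.tp Cz.tv) Cz.tv714 = true := by decide +kernel

theorem ytv715 : DT.all (wzR cT Cz.tj Cz.tp Cz.tv) Cz.tv715 = true := by decide +kernel

theorem ytv716 : DT.all (wzR cT Cz.tj Cz.tp Cz.tv) Cz.tv716 = true := by decide +kernel


end Pool.Agent.Lib.MP_5854e1_co.Cz
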