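import Pool.Agent.Lib.MP_5854e1_co.Cz.P

/-!
# The rows of the rings
-/

set_option autoImplicit false
set_option maxRecDepth 100000
set_option deprecated.oldSectionVars true

namespace Pool.Agent.Lib.MP_5854e1_co.Cz

open Pool.Agent.Lib.MP_5854e1_co PB

theorem ytv611 : DT.all (wzR cT Cz.tj Cz.tp Cz.tv) Cz.tv611 = true := by decide +kernel

theorem ytv612 : DT.all (wzR cT Cz.tj Cz.tp Cz.tv) Cz.tv612 = true := by decide +kernel

theorem ytv613 : DT.all (wzR cT Cz.tj Cz.tp Cz.tv) Cz.tv613 = true := by decide +kernel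

theorem ytv614 : DT.all (wzR cT Cz.tj Cz.tp Cz.tv) Cz.tv614 = true := by decide +kernel

theorem ytv615 : DT.all (wzR cT Cz.tj Cz.tp Cz.tv) Cz.tv615 = true := by decide +kernel

theorem ytv616 : DT.all (wzR cT Cz.tj Cz.tp Cz.tv) Cz.tv616 = true := by decide +kernel

theorem ytv617 : DT.all (wzR cT Cz.tj Cz.tp Cz.tv) Cz.tv617 = true := by decide +kernel

theorem ytv618 : DT.all (wzR cT Cz.tj Cz.tp Cz.tv) Cz.tv618 = true := by decide +kernel

theorem ytv619 : DT.all (wzR cT Cz.tj Cz.tp Cz.tv) Cz.tv619 = true := by decide +kernel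


end Pool.Agent.Lib.MP_5854e1_co.Cz
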