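import Pool.Agent.Lib.MP_5854e1_co.Cz.P

/-!
# The rows of the rings
-/

set_option autoImplicit false
set_option maxRecDepth 100000
set_option deprecated.oldSectionVars true

namespace Pool.Agent.Lib.MP_5854e1_co.Cz

open Pool.Agent.Lib.MP_5854e1_co PB

theorem ytv620 : DT.all (wzR cT Cz.tj Cz.tp Cz.tv) Cz.tv620 = true := by decide +kernel

theorem ytv621 : DT.all (wzR cT Cz.tj Cz.tp Cz.tv) Cz.tv621 = true := by decide +kernel

theorem ytv622 : DT.all (wzR cT Cz.tj Cz.tp Cz.tv) Cz.tv622 = true := by decide +kernel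

theorem ytv623 : DT.all (wzR cT Cz.tj Cz.tp Cz.tv) Cz.tv623 = true := by decide +kernel

theorem ytv624 : DT.all (wzR cT Cz.tj Cz.tp Cz.tv) Cz.tv624 = true := by decide +kernel

theorem ytv625 : DT.all (wzR cT Cz.tj Cz.tp Cz.tv) Cz.tv625 = true := by decide +kernel

theorem ytv626 : DT.all (wzR cT Cz.tj Cz.tp Cz.tv) Cz.tv626 = true := by decide +kernel

theorem ytv627 : DT.all (wzR cT Cz.tj Cz.tp Cz.tv) Cz.tv627 = true := by decide +kernel

theorem ytv628 : DT.all (wzR cT Cz.tj Cz.tp Cz.tv) Cz.tv628 = true := by decide +kernel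

theorem ytv629 : DT.all (wzR cT Cz.tj Cz.tp Cz.tv) Cz.tv629 = true := by decide +kernel


end Pool.Agent.Lib.MP_5854e1_co.Cz
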