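import Pool.Agent.Lib.MP_5854e1_co.Cz.P

/-!
# The rows of the rings
-/

set_option autoImplicit false
set_option maxRecDepth 100000
set_option deprecated.oldSectionVars true

namespace Pool.Agent.Lib.MP_5854e1_co.Cz

open Pool.Agent.Lib.MP_5854e1_co PB

theorem ytv630 : DT.all (wzR cT Cz.tj Cz.tp Cz.tv) Cz.tv630 = true := by decide +kernel

theorem ytv631 : DT.all (wzR cT Cz.tj Cz.tp Cz.tv) Cz.tv631 = true := by decide +kernel

theorem ytv632 : DT.all (wzR cT Cz.tj Cz.tp Cz.tv) Cz.tv632 = true := by decide +kernel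

theorem ytv633 : DT.all (wzR cT Cz.tj Cz.tp Cz.tv) Cz.tv633 = true := by decide +kernel

theorem ytv634 : DT.all (wzR cT Cz.tj Cz.tp Cz.tv) Cz.tv634 = true := by decide +kernel

theorem ytv635 : DT.all (wzR cT Cz.tj Cz.tp Cz.tv) Cz.tv635 = true := by decide +kernel

theorem ytv636 : DT.all (wzR cT Cz.tj Cz.tp Cz.tv) Cz.tv636 = true := by decide +kernel

theorem ytv637 : DT.all (wzR cT Cz.tj Cz.tp Cz.tv) Cz.tv637 = true := by decide +kernel

theorem ytv638 : DT.all (wzR cT Cz.tj Cz.tp Cz.tv) Cz.tv638 = true := by decide +kernel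


end Pool.Agent.Lib.MP_5854e1_co.Cz

namespace Pool.Agent.Lib.MP_5854e1_co.Cz

open Pool.Agent.Lib.MP_5854e1_co PB

theorem ytv5404 : DT.all (wzR cT Cz.tj Cz.tp Cz.tv) Cz.tv5404 = true := by decide +kernel

theorem ytv5405 : DT.all (wzR cT Cz.tj Cz.tp Cz.tv) Cz.tv5405 = true := by decide +kernel

theorem ytv5406 : DT.all (wzR cT Cz.tj Cz.tp Cz.tv) Cz.tv5406 = true := by decide +kernel

theorem ytv5407 : DT.all (wzR cT Cz.tj Cz.tp Cz.tv) Cz.tv5407 = true := by decide +kernel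

theorem ytv5408 : DT.all (wzR cT Cz.tj Cz.tp Cz.tv) Cz.tv5408 = true := by decide +kernel

theorem ytv5409 : DT.all (wzR cT Cz.tj Cz.tp Cz.tv) Cz.tv5409 = true := by decide +kernel

theorem ytv5410 : DT.all (wzR cT Cz.tj Cz.tp Cz.tv) Cz.tv5410 = true := by decide +kernel

theorem ytv5411 : DT.all (wzR cT Cz.tj Cz.tp Cz.tv) Cz.tv5411 = true := by decide +kernel

theorem ytv5412 : DT.all (wzR cT Cz.tj Cz.tp Cz.tv) Cz.tv5412 = true := by decide +kernel

theorem ytv5413 : DT.all (wzR cT Cz.tj Cz.tp Cz.tv) Cz.tv5413 = true := by decide +kernel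


end Pool.Agent.Lib.MP_5854e1_co.Cz
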