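import Pool.Agent.Lib.MP_5854e1_co.Cz.P

/-!
# The rows of the rings
-/

set_option autoImplicit false
set_option maxRecDepth 100000
set_option deprecated.oldSectionVars true

namespace Pool.Agent.Lib.MP_5854e1_co.Cz

open Pool.Agent.Lib.MP_5854e1_co PB

theorem ytv685 : DT.all (wzR cT Cz.tj Cz.tp Cz.tv) Cz.tv685 = true := by decide +kernel

theorem ytv686 : DT.all (wzR cT Cz.tj Cz.tp Cz.tv) Cz.tv686 = true := by decide +kernel

theorem ytv687 : DT.all (wzR cT Cz.tj Cz.tp Cz.tv) Cz.tv687 = true := by decide +kernel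

theorem ytv688 : DT.all (wzR cT Cz.tj Cz.tp Cz.tv) Cz.tv688 = true := by decide +kernel

theorem ytv689 : DT.all (wzR cT Cz.tj Cz.tp Cz.tv) Cz.tv689 = true := by decide +kernel

theorem ytv690 : DT.all (wzR cT Cz.tj Cz.tp Cz.tv) Cz.tv690 = true := by decide +kernel

theorem ytv691 : DT.all (wzR cT Cz.tj Cz.tp Cz.tv) Cz.tv691 = true := by decide +kernel

theorem ytv692 : DT.all (wzR cT Cz.tj Cz.tp Cz.tv) Cz.tv692 = true := by decide +kernel

theorem ytv693 : DT.all (wzR cT Cz.tj Cz.tp Cz.tv) Cz.tv693 = true := by decide +kernel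

theorem ytv694 : DT.all (wzR cT Cz.tj Cz.tp Cz.tv) Cz.tv694 = true := by decide +kernel


end Pool.Agent.Lib.MP_5854e1_co.Cz

namespace Pool.Agent.Lib.MP_5854e1_co.Cz

open Pool.Agent.Lib.MP_5854e1_co PB

theorem ytv5653 : DT.all (wzR cT Cz.tj Cz.tp Cz.tv) Cz.tv5653 = true := by decide +kernel

theorem ytv5654 : DT.all (wzR cT Cz.tj Cz.tp Cz.tv) Cz.tv5654 = true := by decide +kernel

theorem ytv5655 : DT.all (wzR cT Cz.tj Cz.tp Cz.tv) Cz.tv5655 = true := by decide +kernel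


end Pool.Agent.Lib.MP_5854e1_co.Cz
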