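import Pool.Agent.Lib.MP_5854e1_co.Cz.P

/-!
# The rows of the rings
-/

set_option autoImplicit false
set_option maxRecDepth 100000
set_option deprecated.oldSectionVars true

namespace Pool.Agent.Lib.MP_5854e1_co.Cz

open Pool.Agent.Lib.MP_5854e1_co PB

theorem ytv703 : DT.all (wzR cT Cz.tj Cz.tp Cz.tv) Cz.tv703 = true := by decide +kernel

theorem ytv704 : DT.all (wzR cT Cz.tj Cz.tp Cz.tv) Cz.tv704 = true := by decide +kernel

theorem ytv705 : DT.all (wzR cT Cz.tj Cz.tp Cz.tv) Cz.tv705 = true := by decide +kernel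

theorem ytv706 : DT.all (wzR cT Cz.tj Cz.tp Cz.tv) Cz.tv706 = true := by decide +kernel

theorem ytv707 : DT.all (wzR cT Cz.tj Cz.tp Cz.tv) Cz.tv707 = true := by decide +kernel

theorem ytv708 : DT.all (wzR cT Cz.tj Cz.tp Cz.tv) Cz.tv708 = true := by decide +kernel

theorem ytv709 : DT.all (wzR cT Cz.tj Cz.tp Cz.tv) Cz.tv709 = true := by decide +kernel

theorem ytv710 : DT.all (wzR cT Cz.tj Cz.tp Cz.tv) Cz.tv710 = true := by decide +kernel

theorem ytv711 : DT.all (wzR cT Cz.tj Cz.tp Cz.tv) Cz.tv711 = true := by decide +kernel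

theorem ytv712 : DT.all (wzR cT Cz.tj Cz.tp Cz.tv) Cz.tv712 = true := by decide +kernel


end Pool.Agent.Lib.MP_5854e1_co.Cz
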