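import Pool.Agent.Lib.MP_5854e1_co.Cz.P

/-!
# The rows of the rings
-/

set_option autoImplicit false
set_option maxRecDepth 100000
set_option deprecated.oldSectionVars true

namespace Pool.Agent.Lib.MP_5854e1_co.Cz

open Pool.Agent.Lib.MP_5854e1_co PB

theorem ytv717 : DT.all (wzR cT Cz.tj Cz.tp Cz.tv) Cz.tv717 = true := by decide +kernel

theorem ytv718 : DT.all (wzR cT Cz.tj Cz.tp Cz.tv) Cz.tv718 = true := by decide +kernel

theorem ytv719 : DT.all (wzR cT Cz.tj Cz.tp Cz.tv) Cz.tv719 = true := by decide +kernel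

theorem ytv720 : DT.all (wzR cT Cz.tj Cz.tp Cz.tv) Cz.tv720 = true := by decide +kernel

theorem ytv721 : DT.all (wzR cT Cz.tj Cz.tp Cz.tv) Cz.tv721 = true := by decide +kernel


end Pool.Agent.Lib.MP_5854e1_co.Cz

namespace Pool.Agent.Lib.MP_5854e1_co.Cz

open Pool.Agent.Lib.MP_5854e1_co PB

theorem ytv4898 : DT.all (wzR cT Cz.tj Cz.tp Cz.tv) Cz.tv4898 = true := by decide +kernel

theorem ytv4899 : DT.all (wzR cT Cz.tj Cz.tp Cz.tv) Cz.tv4899 = true := by decide +kernel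

theorem ytv4900 : DT.all (wzR cT Cz.tj Cz.tp Cz.tv) Cz.tv4900 = true := by decide +kernel

theorem ytv4901 : DT.all (wzR cT Cz.tj Cz.tp Cz.tv) Cz.tv4901 = true := by decide +kernel

theorem ytv4902 : DT.all (wzR cT Cz.tj Cz.tp Cz.tv) Cz.tv4902 = true := by decide +kernel

theorem ytv4903 : DT.all (wzR cT Cz.tj Cz.tp Cz.tv) Cz.tv4903 = true := by decide +kernel

theorem ytv4904 : DT.all (wzR cT Cz.tj Cz.tp Cz.tv) Cz.tv4904 = true := by decide +kernel

theorem ytv4905 : DT.all (wzR cT Cz.tj Cz.tp Cz.tv) Cz.tv4905 = true := by decide +kernel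

theorem ytv4906 : DT.all (wzR cT Cz.tj Cz.tp Cz.tv) Cz.tv4906 = true := by decide +kernel

theorem ytv4907 : DT.all (wzR cT Cz.tj Cz.tp Cz.tv) Cz.tv4907 = true := by decide +kernel


end Pool.Agent.Lib.MP_5854e1_co.Cz
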