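import Pool.Agent.Lib.MP_5854e1_co.Cz.P

/-!
# The rows of the rings
-/

set_option autoImplicit false
set_option maxRecDepth 100000
set_option deprecated.oldSectionVars true

namespace Pool.Agent.Lib.MP_5854e1_co.Cz

open Pool.Agent.Lib.MP_5854e1_co PB

theorem ytv722 : DT.all (wzR cT Cz.tj Cz.tp Cz.tv) Cz.tv722 = true := by decide +kernel

theorem ytv723 : DT.all (wzR cT Cz.tj Cz.tp Cz.tv) Cz.tv723 = true := by decide +kernel

theorem ytv724 : DT.all (wzR cT Cz.tj Cz.tp Cz.tv) Cz.tv724 = true := by decide +kernel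

theorem ytv725 : DT.all (wzR cT Cz.tj Cz.tp Cz.tv) Cz.tv725 = true := by decide +kernel


end Pool.Agent.Lib.MP_5854e1_co.Cz

namespace Pool.Agent.Lib.MP_5854e1_co.Cz

open Pool.Agent.Lib.MP_5854e1_co PB

theorem ytv1627 : DT.all (wzR cT Cz.tj Cz.tp Cz.tv) Cz.tv1627 = true := by decide +kernel

theorem ytv1628 : DT.all (wzR cT Cz.tj Cz.tp Cz.tv) Cz.tv1628 = true := by decide +kernel

theorem ytv1629 : DT.all (wzR cT Cz.tj Cz.tp Cz.tv) Cz.tv1629 = true := by decide +kernel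

theorem ytv1630 : DT.all (wzR cT Cz.tj Cz.tp Cz.tv) Cz.tv1630 = true := by decide +kernel

theorem ytv1631 : DT.all (wzR cT Cz.tj Cz.tp Cz.tv) Cz.tv1631 = true := by decide +kernel

theorem ytv1632 : DT.all (wzR cT Cz.tj Cz.tp Cz.tv) Cz.tv1632 = true := by decide +kernel

theorem ytv1633 : DT.all (wzR cT Cz.tj Cz.tp Cz.tv) Cz.tv1633 = true := by decide +kernel

theorem ytv1634 : DT.all (wzR cT Cz.tj Cz.tp Cz.tv) Cz.tv1634 = true := by decide +kernel

theorem ytv1635 : DT.all (wzR cT Cz.tj Cz.tp Cz.tv) Cz.tv1635 = true := by decide +kernel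

theorem ytv1636 : DT.all (wzR cT Cz.tj Cz.tp Cz.tv) Cz.tv1636 = true := by decide +kernel


end Pool.Agent.Lib.MP_5854e1_co.Cz
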