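import Pool.Agent.Lib.MP_5854e1_co.Cz.P

/-!
# The rows of the rings
-/

set_option autoImplicit false
set_option maxRecDepth 100000
set_option deprecated.oldSectionVars true

namespace Pool.Agent.Lib.MP_5854e1_co.Cz

open Pool.Agent.Lib.MP_5854e1_co PB

theorem ytv731 : DT.all (wzR cT Cz.tj Cz.tp Cz.tv) Cz.tv731 = true := by decide +kernel

theorem ytv732 : DT.all (wzR cT Cz.tj Cz.tp Cz.tv) Cz.tv732 = true := by decide +kernel

theorem ytv733 : DT.all (wzR cT Cz.tj Cz.tp Cz.tv) Cz.tv733 = true := by decide +kernel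

theorem ytv734 : DT.all (wzR cT Cz.tj Cz.tp Cz.tv) Cz.tv734 = true := by decide +kernel

theorem ytv735 : DT.all (wzR cT Cz.tj Cz.tp Cz.tv) Cz.tv735 = true := by decide +kernel

theorem ytv736 : DT.all (wzR cT Cz.tj Cz.tp Cz.tv) Cz.tv736 = true := by decide +kernel

theorem ytv737 : DT.all (wzR cT Cz.tj Cz.tp Cz.tv) Cz.tv737 = true := by decide +kernel

theorem ytv738 : DT.all (wzR cT Cz.tj Cz.tp Cz.tv) Cz.tv738 = true := by decide +kernel

theorem ytv739 : DT.all (wzR cT Cz.tj Cz.tp Cz.tv) Cz.tv739 = true := by decide +kernel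


end Pool.Agent.Lib.MP_5854e1_co.Cz

namespace Pool.Agent.Lib.MP_5854e1_co.Cz

open Pool.Agent.Lib.MP_5854e1_co PB

theorem ytv2871 : DT.all (wzR cT Cz.tj Cz.tp Cz.tv) Cz.tv2871 = true := by decide +kernel

theorem ytv2872 : DT.all (wzR cT Cz.tj Cz.tp Cz.tv) Cz.tv2872 = true := by decide +kernel

theorem ytv2873 : DT.all (wzR cT Cz.tj Cz.tp Cz.tv) Cz.tv2873 = true := by decide +kernel

theorem ytv2874 : DT.all (wzR cT Cz.tj Cz.tp Cz.tv) Cz.tv2874 = true := by decide +kernel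

theorem ytv2875 : DT.all (wzR cT Cz.tj Cz.tp Cz.tv) Cz.tv2875 = true := by decide +kernel

theorem ytv2876 : DT.all (wzR cT Cz.tj Cz.tp Cz.tv) Cz.tv2876 = true := by decide +kernel

theorem ytv2877 : DT.all (wzR cT Cz.tj Cz.tp Cz.tv) Cz.tv2877 = true := by decide +kernel

theorem ytv2878 : DT.all (wzR cT Cz.tj Cz.tp Cz.tv) Cz.tv2878 = true := by decide +kernel

theorem ytv2879 : DT.all (wzR cT Cz.tj Cz.tp Cz.tv) Cz.tv2879 = true := by decide +kernel


end Pool.Agent.Lib.MP_5854e1_co.Cz
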