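import Pool.Agent.Lib.MP_5854e1_co.Cz.P

/-!
# The rows of the rings
-/

set_option autoImplicit false
set_option maxRecDepth 100000
set_option deprecated.oldSectionVars true

namespace Pool.Agent.Lib.MP_5854e1_co.Cz

open Pool.Agent.Lib.MP_5854e1_co PB

theorem ytv740 : DT.all (wzR cT Cz.tj Cz.tp Cz.tv) Cz.tv740 = true := by decide +kernel

theorem ytv741 : DT.all (wzR cT Cz.tj Cz.tp Cz.tv) Cz.tv741 = true := by decide +kernel

theorem ytv742 : DT.all (wzR cT Cz.tj Cz.tp Cz.tv) Cz.tv742 = true := by decide +kernel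

theorem ytv743 : DT.all (wzR cT Cz.tj Cz.tp Cz.tv) Cz.tv743 = true := by decide +kernel

theorem ytv744 : DT.all (wzR cT Cz.tj Cz.tp Cz.tv) Cz.tv744 = true := by decide +kernel

theorem ytv745 : DT.all (wzR cT Cz.tj Cz.tp Cz.tv) Cz.tv745 = true := by decide +kernel

theorem ytv746 : DT.all (wzR cT Cz.tj Cz.tp Cz.tv) Cz.tv746 = true := by decide +kernel

theorem ytv747 : DT.all (wzR cT Cz.tj Cz.tp Cz.tv) Cz.tv747 = true := by decide +kernel

theorem ytv748 : DT.all (wzR cT Cz.tj Cz.tp Cz.tv) Cz.tv748 = true := by decide +kernel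


end Pool.Agent.Lib.MP_5854e1_co.Cz

namespace Pool.Agent.Lib.MP_5854e1_co.Cz

open Pool.Agent.Lib.MP_5854e1_co PB

theorem ytv2194 : DT.all (wzR cT Cz.tj Cz.tp Cz.tv) Cz.tv2194 = true := by decide +kernel

theorem ytv2195 : DT.all (wzR cT Cz.tj Cz.tp Cz.tv) Cz.tv2195 = true := by decide +kernel

theorem ytv2196 : DT.all (wzR cT Cz.tj Cz.tp Cz.tv) Cz.tv2196 = true := by decide +kernel

theorem ytv2197 : DT.all (wzR cT Cz.tj Cz.tp Cz.tv) Cz.tv2197 = true := by decide +kernel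

theorem ytv2198 : DT.all (wzR cT Cz.tj Cz.tp Cz.tv) Cz.tv2198 = true := by decide +kernel

theorem ytv2199 : DT.all (wzR cT Cz.tj Cz.tp Cz.tv) Cz.tv2199 = true := by decide +kernel

theorem ytv2200 : DT.all (wzR cT Cz.tj Cz.tp Cz.tv) Cz.tv2200 = true := by decide +kernel

theorem ytv2201 : DT.all (wzR cT Cz.tj Cz.tp Cz.tv) Cz.tv2201 = true := by decide +kernel

theorem ytv2202 : DT.all (wzR cT Cz.tj Cz.tp Cz.tv) Cz.tv2202 = true := by decide +kernel

theorem ytv2203 : DT.all (wzR cT Cz.tj Cz.tp Cz.tv) Cz.tv2203 = true := by decide +kernel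


end Pool.Agent.Lib.MP_5854e1_co.Cz
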