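import Pool.Agent.Lib.MP_5854e1_co.Cz.P

/-!
# The rows of the rings
-/

set_option autoImplicit false
set_option maxRecDepth 100000
set_option deprecated.oldSectionVars true

namespace Pool.Agent.Lib.MP_5854e1_co.Cz

open Pool.Agent.Lib.MP_5854e1_co PB

theorem ytv749 : DT.all (wzR cT Cz.tj Cz.tp Cz.tv) Cz.tv749 = true := by decide +kernel

theorem ytv750 : DT.all (wzR cT Cz.tj Cz.tp Cz.tv) Cz.tv750 = true := by decide +kernel

theorem ytv751 : DT.all (wzR cT Cz.tj Cz.tp Cz.tv) Cz.tv751 = true := by decide +kernel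

theorem ytv752 : DT.all (wzR cT Cz.tj Cz.tp Cz.tv) Cz.tv752 = true := by decide +kernel

theorem ytv753 : DT.all (wzR cT Cz.tj Cz.tp Cz.tv) Cz.tv753 = true := by decide +kernel

theorem ytv754 : DT.all (wzR cT Cz.tj Cz.tp Cz.tv) Cz.tv754 = true := by decide +kernel

theorem ytv755 : DT.all (wzR cT Cz.tj Cz.tp Cz.tv) Cz.tv755 = true := by decide +kernel


end Pool.Agent.Lib.MP_5854e1_co.Cz

namespace Pool.Agent.Lib.MP_5854e1_co.Cz

open Pool.Agent.Lib.MP_5854e1_co PB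

theorem ytv4459 : DT.all (wzR cT Cz.tj Cz.tp Cz.tv) Cz.tv4459 = true := by decide +kernel

theorem ytv4460 : DT.all (wzR cT Cz.tj Cz.tp Cz.tv) Cz.tv4460 = true := by decide +kernel

theorem ytv4461 : DT.all (wzR cT Cz.tj Cz.tp Cz.tv) Cz.tv4461 = true := by decide +kernel

theorem ytv4462 : DT.all (wzR cT Cz.tj Cz.tp Cz.tv) Cz.tv4462 = true := by decide +kernel

theorem ytv4463 : DT.all (wzR cT Cz.tj Cz.tp Cz.tv) Cz.tv4463 = true := by decide +kernel

theorem ytv4464 : DT.all (wzR cT Cz.tj Cz.tp Cz.tv) Cz.tv4464 = true := by decide +kernel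

theorem ytv4465 : DT.all (wzR cT Cz.tj Cz.tp Cz.tv) Cz.tv4465 = true := by decide +kernel

theorem ytv4466 : DT.all (wzR cT Cz.tj Cz.tp Cz.tv) Cz.tv4466 = true := by decide +kernel

theorem ytv4467 : DT.all (wzR cT Cz.tj Cz.tp Cz.tv) Cz.tv4467 = true := by decide +kernel

theorem ytv4468 : DT.all (wzR cT Cz.tj Cz.tp Cz.tv) Cz.tv4468 = true := by decide +kernel


end Pool.Agent.Lib.MP_5854e1_co.Cz
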