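import Pool.Agent.Lib.MP_5854e1_co.Cz.P

/-!
# The rows of the rings
-/

set_option autoImplicit false
set_option maxRecDepth 100000
set_option deprecated.oldSectionVars true

namespace Pool.Agent.Lib.MP_5854e1_co.Cz

open Pool.Agent.Lib.MP_5854e1_co PB

theorem ytv764 : DT.all (wzR cT Cz.tj Cz.tp Cz.tv) Cz.tv764 = true := by decide +kernel

theorem ytv765 : DT.all (wzR cT Cz.tj Cz.tp Cz.tv) Cz.tv765 = true := by decide +kernel

theorem ytv766 : DT.all (wzR cT Cz.tj Cz.tp Cz.tv) Cz.tv766 = true := by decide +kernel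

theorem ytv767 : DT.all (wzR cT Cz.tj Cz.tp Cz.tv) Cz.tv767 = true := by decide +kernel

theorem ytv768 : DT.all (wzR cT Cz.tj Cz.tp Cz.tv) Cz.tv768 = true := by decide +kernel

theorem ytv769 : DT.all (wzR cT Cz.tj Cz.tp Cz.tv) Cz.tv769 = true := by decide +kernel

theorem ytv770 : DT.all (wzR cT Cz.tj Cz.tp Cz.tv) Cz.tv770 = true := by decide +kernel

theorem ytv771 : DT.all (wzR cT Cz.tj Cz.tp Cz.tv) Cz.tv771 = true := by decide +kernel

theorem ytv772 : DT.all (wzR cT Cz.tj Cz.tp Cz.tv) Cz.tv772 = true := by decide +kernel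


end Pool.Agent.Lib.MP_5854e1_co.Cz

namespace Pool.Agent.Lib.MP_5854e1_co.Cz

open Pool.Agent.Lib.MP_5854e1_co PB

theorem ytv2930 : DT.all (wzR cT Cz.tj Cz.tp Cz.tv) Cz.tv2930 = true := by decide +kernel

theorem ytv2931 : DT.all (wzR cT Cz.tj Cz.tp Cz.tv) Cz.tv2931 = true := by decide +kernel

theorem ytv2932 : DT.all (wzR cT Cz.tj Cz.tp Cz.tv) Cz.tv2932 = true := by decide +kernel

theorem ytv2933 : DT.all (wzR cT Cz.tj Cz.tp Cz.tv) Cz.tv2933 = true := by decide +kernel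

theorem ytv2934 : DT.all (wzR cT Cz.tj Cz.tp Cz.tv) Cz.tv2934 = true := by decide +kernel

theorem ytv2935 : DT.all (wzR cT Cz.tj Cz.tp Cz.tv) Cz.tv2935 = true := by decide +kernel

theorem ytv2936 : DT.all (wzR cT Cz.tj Cz.tp Cz.tv) Cz.tv2936 = true := by decide +kernel

theorem ytv2937 : DT.all (wzR cT Cz.tj Cz.tp Cz.tv) Cz.tv2937 = true := by decide +kernel

theorem ytv2938 : DT.all (wzR cT Cz.tj Cz.tp Cz.tv) Cz.tv2938 = true := by decide +kernel


end Pool.Agent.Lib.MP_5854e1_co.Cz
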