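import Pool.Agent.Lib.MP_5854e1_co.Cz.P

/-!
# The rows of the rings
-/

set_option autoImplicit false
set_option maxRecDepth 100000
set_option deprecated.oldSectionVars true

namespace Pool.Agent.Lib.MP_5854e1_co.Cz

open Pool.Agent.Lib.MP_5854e1_co PB

theorem ytv780 : DT.all (wzR cT Cz.tj Cz.tp Cz.tv) Cz.tv780 = true := by decide +kernel

theorem ytv781 : DT.all (wzR cT Cz.tj Cz.tp Cz.tv) Cz.tv781 = true := by decide +kernel

theorem ytv782 : DT.all (wzR cT Cz.tj Cz.tp Cz.tv) Cz.tv782 = true := by decide +kernel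

theorem ytv783 : DT.all (wzR cT Cz.tj Cz.tp Cz.tv) Cz.tv783 = true := by decide +kernel

theorem ytv784 : DT.all (wzR cT Cz.tj Cz.tp Cz.tv) Cz.tv784 = true := by decide +kernel

theorem ytv785 : DT.all (wzR cT Cz.tj Cz.tp Cz.tv) Cz.tv785 = true := by decide +kernel

theorem ytv786 : DT.all (wzR cT Cz.tj Cz.tp Cz.tv) Cz.tv786 = true := by decide +kernel

theorem ytv787 : DT.all (wzR cT Cz.tj Cz.tp Cz.tv) Cz.tv787 = true := by decide +kernel

theorem ytv788 : DT.all (wzR cT Cz.tj Cz.tp Cz.tv) Cz.tv788 = true := by decide +kernel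


end Pool.Agent.Lib.MP_5854e1_co.Cz
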