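import Pool.Agent.Lib.MP_5854e1_co.Cz.P

/-!
# The rows of the rings
-/

set_option autoImplicit false
set_option maxRecDepth 100000
set_option deprecated.oldSectionVars true

namespace Pool.Agent.Lib.MP_5854e1_co.Cz

open Pool.Agent.Lib.MP_5854e1_co PB

theorem ytv789 : DT.all (wzR cT Cz.tj Cz.tp Cz.tv) Cz.tv789 = true := by decide +kernel

theorem ytv790 : DT.all (wzR cT Cz.tj Cz.tp Cz.tv) Cz.tv790 = true := by decide +kernel

theorem ytv791 : DT.all (wzR cT Cz.tj Cz.tp Cz.tv) Cz.tv791 = true := by decide +kernel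

theorem ytv792 : DT.all (wzR cT Cz.tj Cz.tp Cz.tv) Cz.tv792 = true := by decide +kernel

theorem ytv793 : DT.all (wzR cT Cz.tj Cz.tp Cz.tv) Cz.tv793 = true := by decide +kernel

theorem ytv794 : DT.all (wzR cT Cz.tj Cz.tp Cz.tv) Cz.tv794 = true := by decide +kernel

theorem ytv795 : DT.all (wzR cT Cz.tj Cz.tp Cz.tv) Cz.tv795 = true := by decide +kernel

theorem ytv796 : DT.all (wzR cT Cz.tj Cz.tp Cz.tv) Cz.tv796 = true := by decide +kernel


end Pool.Agent.Lib.MP_5854e1_co.Cz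

namespace Pool.Agent.Lib.MP_5854e1_co.Cz

open Pool.Agent.Lib.MP_5854e1_co PB

theorem ytv5208 : DT.all (wzR cT Cz.tj Cz.tp Cz.tv) Cz.tv5208 = true := by decide +kernel

theorem ytv5209 : DT.all (wzR cT Cz.tj Cz.tp Cz.tv) Cz.tv5209 = true := by decide +kernel

theorem ytv5210 : DT.all (wzR cT Cz.tj Cz.tp Cz.tv) Cz.tv5210 = true := by decide +kernel

theorem ytv5211 : DT.all (wzR cT Cz.tj Cz.tp Cz.tv) Cz.tv5211 = true := by decide +kernel

theorem ytv5212 : DT.all (wzR cT Cz.tj Cz.tp Cz.tv) Cz.tv5212 = true := by decide +kernel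

theorem ytv5213 : DT.all (wzR cT Cz.tj Cz.tp Cz.tv) Cz.tv5213 = true := by decide +kernel

theorem ytv5214 : DT.all (wzR cT Cz.tj Cz.tp Cz.tv) Cz.tv5214 = true := by decide +kernel

theorem ytv5215 : DT.all (wzR cT Cz.tj Cz.tp Cz.tv) Cz.tv5215 = true := by decide +kernel


end Pool.Agent.Lib.MP_5854e1_co.Cz
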