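import Pool.Agent.Lib.MP_5854e1_co.Cz.P

/-!
# The rows of the rings
-/

set_option autoImplicit false
set_option maxRecDepth 100000
set_option deprecated.oldSectionVars true

namespace Pool.Agent.Lib.MP_5854e1_co.Cz

open Pool.Agent.Lib.MP_5854e1_co PB

theorem ytv797 : DT.all (wzR cT Cz.tj Cz.tp Cz.tv) Cz.tv797 = true := by decide +kernel

theorem ytv798 : DT.all (wzR cT Cz.tj Cz.tp Cz.tv) Cz.tv798 = true := by decide +kernel

theorem ytv799 : DT.all (wzR cT Cz.tj Cz.tp Cz.tv) Cz.tv799 = true := by decide +kernel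

theorem ytv800 : DT.all (wzR cT Cz.tj Cz.tp Cz.tv) Cz.tv800 = true := by decide +kernel

theorem ytv801 : DT.all (wzR cT Cz.tj Cz.tp Cz.tv) Cz.tv801 = true := by decide +kernel

theorem ytv802 : DT.all (wzR cT Cz.tj Cz.tp Cz.tv) Cz.tv802 = true := by decide +kernel

theorem ytv803 : DT.all (wzR cT Cz.tj Cz.tp Cz.tv) Cz.tv803 = true := by decide +kernel

theorem ytv804 : DT.all (wzR cT Cz.tj Cz.tp Cz.tv) Cz.tv804 = true := by decide +kernel

theorem ytv805 : DT.all (wzR cT Cz.tj Cz.tp Cz.tv) Cz.tv805 = true := by decide +kernel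


end Pool.Agent.Lib.MP_5854e1_co.Cz

namespace Pool.Agent.Lib.MP_5854e1_co.Cz

open Pool.Agent.Lib.MP_5854e1_co PB

theorem ytv2633 : DT.all (wzR cT Cz.tj Cz.tp Cz.tv) Cz.tv2633 = true := by decide +kernel

theorem ytv2634 : DT.all (wzR cT Cz.tj Cz.tp Cz.tv) Cz.tv2634 = true := by decide +kernel

theorem ytv2635 : DT.all (wzR cT Cz.tj Cz.tp Cz.tv) Cz.tv2635 = true := by decide +kernel

theorem ytv2636 : DT.all (wzR cT Cz.tj Cz.tp Cz.tv) Cz.tv2636 = true := by decide +kernel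

theorem ytv2637 : DT.all (wzR cT Cz.tj Cz.tp Cz.tv) Cz.tv2637 = true := by decide +kernel

theorem ytv2638 : DT.all (wzR cT Cz.tj Cz.tp Cz.tv) Cz.tv2638 = true := by decide +kernel

theorem ytv2639 : DT.all (wzR cT Cz.tj Cz.tp Cz.tv) Cz.tv2639 = true := by decide +kernel

theorem ytv2640 : DT.all (wzR cT Cz.tj Cz.tp Cz.tv) Cz.tv2640 = true := by decide +kernel


end Pool.Agent.Lib.MP_5854e1_co.Cz
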