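import Pool.Agent.Lib.MP_5854e1_co.Cz.P

/-!
# The rows of the rings
-/

set_option autoImplicit false
set_option maxRecDepth 100000
set_option deprecated.oldSectionVars true

namespace Pool.Agent.Lib.MP_5854e1_co.Cz

open Pool.Agent.Lib.MP_5854e1_co PB

theorem ytv806 : DT.all (wzR cT Cz.tj Cz.tp Cz.tv) Cz.tv806 = true := by decide +kernel

theorem ytv807 : DT.all (wzR cT Cz.tj Cz.tp Cz.tv) Cz.tv807 = true := by decide +kernel

theorem ytv808 : DT.all (wzR cT Cz.tj Cz.tp Cz.tv) Cz.tv808 = true := by decide +kernel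

theorem ytv809 : DT.all (wzR cT Cz.tj Cz.tp Cz.tv) Cz.tv809 = true := by decide +kernel

theorem ytv810 : DT.all (wzR cT Cz.tj Cz.tp Cz.tv) Cz.tv810 = true := by decide +kernel

theorem ytv811 : DT.all (wzR cT Cz.tj Cz.tp Cz.tv) Cz.tv811 = true := by decide +kernel

theorem ytv812 : DT.all (wzR cT Cz.tj Cz.tp Cz.tv) Cz.tv812 = true := by decide +kernel

theorem ytv813 : DT.all (wzR cT Cz.tj Cz.tp Cz.tv) Cz.tv813 = true := by decide +kernel


end Pool.Agent.Lib.MP_5854e1_co.Cz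

namespace Pool.Agent.Lib.MP_5854e1_co.Cz

open Pool.Agent.Lib.MP_5854e1_co PB

theorem ytv1252 : DT.all (wzR cT Cz.tj Cz.tp Cz.tv) Cz.tv1252 = true := by decide +kernel

theorem ytv1253 : DT.all (wzR cT Cz.tj Cz.tp Cz.tv) Cz.tv1253 = true := by decide +kernel

theorem ytv1254 : DT.all (wzR cT Cz.tj Cz.tp Cz.tv) Cz.tv1254 = true := by decide +kernel

theorem ytv1255 : DT.all (wzR cT Cz.tj Cz.tp Cz.tv) Cz.tv1255 = true := by decide +kernel

theorem ytv1256 : DT.all (wzR cT Cz.tj Cz.tp Cz.tv) Cz.tv1256 = true := by decide +kernel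

theorem ytv1257 : DT.all (wzR cT Cz.tj Cz.tp Cz.tv) Cz.tv1257 = true := by decide +kernel

theorem ytv1258 : DT.all (wzR cT Cz.tj Cz.tp Cz.tv) Cz.tv1258 = true := by decide +kernel

theorem ytv1259 : DT.all (wzR cT Cz.tj Cz.tp Cz.tv) Cz.tv1259 = true := by decide +kernel

theorem ytv1260 : DT.all (wzR cT Cz.tj Cz.tp Cz.tv) Cz.tv1260 = true := by decide +kernel


end Pool.Agent.Lib.MP_5854e1_co.Cz
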