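import Pool.Agent.Lib.MP_5854e1_co.Cz.P

/-!
# The rows of the rings
-/

set_option autoImplicit false
set_option maxRecDepth 100000
set_option deprecated.oldSectionVars true

namespace Pool.Agent.Lib.MP_5854e1_co.Cz

open Pool.Agent.Lib.MP_5854e1_co PB

theorem ytv829 : DT.all (wzR cT Cz.tj Cz.tp Cz.tv) Cz.tv829 = true := by decide +kernel

theorem ytv830 : DT.all (wzR cT Cz.tj Cz.tp Cz.tv) Cz.tv830 = true := by decide +kernel

theorem ytv831 : DT.all (wzR cT Cz.tj Cz.tp Cz.tv) Cz.tv831 = true := by decide +kernel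

theorem ytv832 : DT.all (wzR cT Cz.tj Cz.tp Cz.tv) Cz.tv832 = true := by decide +kernel

theorem ytv833 : DT.all (wzR cT Cz.tj Cz.tp Cz.tv) Cz.tv833 = true := by decide +kernel

theorem ytv834 : DT.all (wzR cT Cz.tj Cz.tp Cz.tv) Cz.tv834 = true := by decide +kernel

theorem ytv835 : DT.all (wzR cT Cz.tj Cz.tp Cz.tv) Cz.tv835 = true := by decide +kernel

theorem ytv836 : DT.all (wzR cT Cz.tj Cz.tp Cz.tv) Cz.tv836 = true := by decide +kernel

theorem ytv837 : DT.all (wzR cT Cz.tj Cz.tp Cz.tv) Cz.tv837 = true := by decide +kernel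


end Pool.Agent.Lib.MP_5854e1_co.Cz

namespace Pool.Agent.Lib.MP_5854e1_co.Cz

open Pool.Agent.Lib.MP_5854e1_co PB

theorem ytv2530 : DT.all (wzR cT Cz.tj Cz.tp Cz.tv) Cz.tv2530 = true := by decide +kernel

theorem ytv2531 : DT.all (wzR cT Cz.tj Cz.tp Cz.tv) Cz.tv2531 = true := by decide +kernel

theorem ytv2532 : DT.all (wzR cT Cz.tj Cz.tp Cz.tv) Cz.tv2532 = true := by decide +kernel

theorem ytv2533 : DT.all (wzR cT Cz.tj Cz.tp Cz.tv) Cz.tv2533 = true := by decide +kernel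

theorem ytv2534 : DT.all (wzR cT Cz.tj Cz.tp Cz.tv) Cz.tv2534 = true := by decide +kernel

theorem ytv2535 : DT.all (wzR cT Cz.tj Cz.tp Cz.tv) Cz.tv2535 = true := by decide +kernel

theorem ytv2536 : DT.all (wzR cT Cz.tj Cz.tp Cz.tv) Cz.tv2536 = true := by decide +kernel

theorem ytv2537 : DT.all (wzR cT Cz.tj Cz.tp Cz.tv) Cz.tv2537 = true := by decide +kernel

theorem ytv2538 : DT.all (wzR cT Cz.tj Cz.tp Cz.tv) Cz.tv2538 = true := by decide +kernel


end Pool.Agent.Lib.MP_5854e1_co.Cz
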