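import Pool.Agent.Lib.MP_5854e1_co.Cz.P

/-!
# The rows of the rings
-/

set_option autoImplicit false
set_option maxRecDepth 100000
set_option deprecated.oldSectionVars true

namespace Pool.Agent.Lib.MP_5854e1_co.Cz

open Pool.Agent.Lib.MP_5854e1_co PB

theorem ytv838 : DT.all (wzR cT Cz.tj Cz.tp Cz.tv) Cz.tv838 = true := by decide +kernel

theorem ytv839 : DT.all (wzR cT Cz.tj Cz.tp Cz.tv) Cz.tv839 = true := by decide +kernel

theorem ytv840 : DT.all (wzR cT Cz.tj Cz.tp Cz.tv) Cz.tv840 = true := by decide +kernel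

theorem ytv841 : DT.all (wzR cT Cz.tj Cz.tp Cz.tv) Cz.tv841 = true := by decide +kernel

theorem ytv842 : DT.all (wzR cT Cz.tj Cz.tp Cz.tv) Cz.tv842 = true := by decide +kernel

theorem ytv843 : DT.all (wzR cT Cz.tj Cz.tp Cz.tv) Cz.tv843 = true := by decide +kernel

theorem ytv844 : DT.all (wzR cT Cz.tj Cz.tp Cz.tv) Cz.tv844 = true := by decide +kernel

theorem ytv845 : DT.all (wzR cT Cz.tj Cz.tp Cz.tv) Cz.tv845 = true := by decide +kernel


end Pool.Agent.Lib.MP_5854e1_co.Cz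

namespace Pool.Agent.Lib.MP_5854e1_co.Cz

open Pool.Agent.Lib.MP_5854e1_co PB

theorem ytv1755 : DT.all (wzR cT Cz.tj Cz.tp Cz.tv) Cz.tv1755 = true := by decide +kernel

theorem ytv1756 : DT.all (wzR cT Cz.tj Cz.tp Cz.tv) Cz.tv1756 = true := by decide +kernel

theorem ytv1757 : DT.all (wzR cT Cz.tj Cz.tp Cz.tv) Cz.tv1757 = true := by decide +kernel

theorem ytv1758 : DT.all (wzR cT Cz.tj Cz.tp Cz.tv) Cz.tv1758 = true := by decide +kernel

theorem ytv1759 : DT.all (wzR cT Cz.tj Cz.tp Cz.tv) Cz.tv1759 = true := by decide +kernel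

theorem ytv1760 : DT.all (wzR cT Cz.tj Cz.tp Cz.tv) Cz.tv1760 = true := by decide +kernel

theorem ytv1761 : DT.all (wzR cT Cz.tj Cz.tp Cz.tv) Cz.tv1761 = true := by decide +kernel

theorem ytv1762 : DT.all (wzR cT Cz.tj Cz.tp Cz.tv) Cz.tv1762 = true := by decide +kernel

theorem ytv1763 : DT.all (wzR cT Cz.tj Cz.tp Cz.tv) Cz.tv1763 = true := by decide +kernel


end Pool.Agent.Lib.MP_5854e1_co.Cz
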