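import Pool.Agent.Lib.MP_5854e1_co.Cz.P

/-!
# The regions of strips
-/

set_option autoImplicit false
set_option maxRecDepth 100000
set_option deprecated.oldSectionVars true

namespace Pool.Agent.Lib.MP_5854e1_co.Cz

open Pool.Agent.Lib.MP_5854e1_co PB

theorem rtz00 : DT.all (regH PT.gp PT.gm spT PT.ps Cz.rtT Cz.tz Cz.tw) Cz.tz00 = true := by decide +kernel

theorem ytz00 : DT.all (symY Cz.tz) Cz.tz00 = true := by decide +kernel

theorem rtz01 : DT.all (regH PT.gp PT.gm spT PT.ps Cz.rtT Cz.tz Cz.tw) Cz.tz01 = true := by decide +kernel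

theorem ytz01 : DT.all (symY Cz.tz) Cz.tz01 = true := by decide +kernel

theorem rtz02 : DT.all (regH PT.gp PT.gm spT PT.ps Cz.rtT Cz.tz Cz.tw) Cz.tz02 = true := by decide +kernel

theorem ytz02 : DT.all (symY Cz.tz) Cz.tz02 = true := by decide +kernel

theorem rtz03 : DT.all (regH PT.gp PT.gm spT PT.ps Cz.rtT Cz.tz Cz.tw) Cz.tz03 = true := by decide +kernel

theorem ytz03 : DT.all (symY Cz.tz) Cz.tz03 = true := by decide +kernel

theorem rtz04 : DT.all (regH PT.gp PT.gm spT PT.ps Cz.rtT Cz.tz Cz.tw) Cz.tz04 = true := by decide +kernel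

theorem ytz04 : DT.all (symY Cz.tz) Cz.tz04 = true := by decide +kernel

theorem rtz05 : DT.all (regH PT.gp PT.gm spT PT.ps Cz.rtT Cz.tz Cz.tw) Cz.tz05 = true := by decide +kernel

theorem ytz05 : DT.all (symY Cz.tz) Cz.tz05 = true := by decide +kernel


end Pool.Agent.Lib.MP_5854e1_co.Cz

namespace Pool.Agent.Lib.MP_5854e1_co.Cz

open Pool.Agent.Lib.MP_5854e1_co PB

theorem rtz176 : DT.all (regH PT.gp PT.gm spT PT.ps Cz.rtT Cz.tz Cz.tw) Cz.tz176 = true := by decide +kernel

theorem ytz176 : DT.all (symY Cz.tz) Cz.tz176 = true := by decide +kernel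

theorem rtz177 : DT.all (regH PT.gp PT.gm spT PT.ps Cz.rtT Cz.tz Cz.tw) Cz.tz177 = true := by decide +kernel

theorem ytz177 : DT.all (symY Cz.tz) Cz.tz177 = true := by decide +kernel

theorem rtz178 : DT.all (regH PT.gp PT.gm spT PT.ps Cz.rtT Cz.tz Cz.tw) Cz.tz178 = true := by decide +kernel

theorem ytz178 : DT.all (symY Cz.tz) Cz.tz178 = true := by decide +kernel

theorem rtz179 : DT.all (regH PT.gp PT.gm spT PT.ps Cz.rtT Cz.tz Cz.tw) Cz.tz179 = true := by decide +kernel

theorem ytz179 : DT.all (symY Cz.tz) Cz.tz179 = true := by decide +kernel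

theorem rtz180 : DT.all (regH PT.gp PT.gm spT PT.ps Cz.rtT Cz.tz Cz.tw) Cz.tz180 = true := by decide +kernel

theorem ytz180 : DT.all (symY Cz.tz) Cz.tz180 = true := by decide +kernel

theorem rtz181 : DT.all (regH PT.gp PT.gm spT PT.ps Cz.rtT Cz.tz Cz.tw) Cz.tz181 = true := by decide +kernel

theorem ytz181 : DT.all (symY Cz.tz) Cz.tz181 = true := by decide +kernel


end Pool.Agent.Lib.MP_5854e1_co.Cz
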