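import Pool.Agent.Lib.MP_5854e1_co.Cz.P

/-!
# The regions of strips
-/

set_option autoImplicit false
set_option maxRecDepth 100000
set_option deprecated.oldSectionVars true

namespace Pool.Agent.Lib.MP_5854e1_co.Cz

open Pool.Agent.Lib.MP_5854e1_co PB

theorem rtz06 : DT.all (regH PT.gp PT.gm spT PT.ps Cz.rtT Cz.tz Cz.tw) Cz.tz06 = true := by decide +kernel

theorem ytz06 : DT.all (symY Cz.tz) Cz.tz06 = true := by decide +kernel

theorem rtz07 : DT.all (regH PT.gp PT.gm spT PT.ps Cz.rtT Cz.tz Cz.tw) Cz.tz07 = true := by decide +kernel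

theorem ytz07 : DT.all (symY Cz.tz) Cz.tz07 = true := by decide +kernel

theorem rtz08 : DT.all (regH PT.gp PT.gm spT PT.ps Cz.rtT Cz.tz Cz.tw) Cz.tz08 = true := by decide +kernel

theorem ytz08 : DT.all (symY Cz.tz) Cz.tz08 = true := by decide +kernel

theorem rtz09 : DT.all (regH PT.gp PT.gm spT PT.ps Cz.rtT Cz.tz Cz.tw) Cz.tz09 = true := by decide +kernel

theorem ytz09 : DT.all (symY Cz.tz) Cz.tz09 = true := by decide +kernel

theorem rtz10 : DT.all (regH PT.gp PT.gm spT PT.ps Cz.rtT Cz.tz Cz.tw) Cz.tz10 = true := by decide +kernel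

theorem ytz10 : DT.all (symY Cz.tz) Cz.tz10 = true := by decide +kernel

theorem rtz11 : DT.all (regH PT.gp PT.gm spT PT.ps Cz.rtT Cz.tz Cz.tw) Cz.tz11 = true := by decide +kernel

theorem ytz11 : DT.all (symY Cz.tz) Cz.tz11 = true := by decide +kernel


end Pool.Agent.Lib.MP_5854e1_co.Cz

namespace Pool.Agent.Lib.MP_5854e1_co.Cz

open Pool.Agent.Lib.MP_5854e1_co PB

theorem rtz152 : DT.all (regH PT.gp PT.gm spT PT.ps Cz.rtT Cz.tz Cz.tw) Cz.tz152 = true := by decide +kernel

theorem ytz152 : DT.all (symY Cz.tz) Cz.tz152 = true := by decide +kernel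

theorem rtz153 : DT.all (regH PT.gp PT.gm spT PT.ps Cz.rtT Cz.tz Cz.tw) Cz.tz153 = true := by decide +kernel

theorem ytz153 : DT.all (symY Cz.tz) Cz.tz153 = true := by decide +kernel

theorem rtz154 : DT.all (regH PT.gp PT.gm spT PT.ps Cz.rtT Cz.tz Cz.tw) Cz.tz154 = true := by decide +kernel

theorem ytz154 : DT.all (symY Cz.tz) Cz.tz154 = true := by decide +kernel

theorem rtz155 : DT.all (regH PT.gp PT.gm spT PT.ps Cz.rtT Cz.tz Cz.tw) Cz.tz155 = true := by decide +kernel

theorem ytz155 : DT.all (symY Cz.tz) Cz.tz155 = true := by decide +kernel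

theorem rtz156 : DT.all (regH PT.gp PT.gm spT PT.ps Cz.rtT Cz.tz Cz.tw) Cz.tz156 = true := by decide +kernel

theorem ytz156 : DT.all (symY Cz.tz) Cz.tz156 = true := by decide +kernel

theorem rtz157 : DT.all (regH PT.gp PT.gm spT PT.ps Cz.rtT Cz.tz Cz.tw) Cz.tz157 = true := by decide +kernel

theorem ytz157 : DT.all (symY Cz.tz) Cz.tz157 = true := by decide +kernel


end Pool.Agent.Lib.MP_5854e1_co.Cz

namespace Pool.Agent.Lib.MP_5854e1_co.Cz

open Pool.Agent.Lib.MP_5854e1_co PB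

theorem rtz158 : DT.all (regH PT.gp PT.gm spT PT.ps Cz.rtT Cz.tz Cz.tw) Cz.tz158 = true := by decide +kernel

theorem ytz158 : DT.all (symY Cz.tz) Cz.tz158 = true := by decide +kernel

theorem rtz159 : DT.all (regH PT.gp PT.gm spT PT.ps Cz.rtT Cz.tz Cz.tw) Cz.tz159 = true := by decide +kernel

theorem ytz159 : DT.all (symY Cz.tz) Cz.tz159 = true := by decide +kernel

theorem rtz160 : DT.all (regH PT.gp PT.gm spT PT.ps Cz.rtT Cz.tz Cz.tw) Cz.tz160 = true := by decide +kernel

theorem ytz160 : DT.all (symY Cz.tz) Cz.tz160 = true := by decide +kernel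

theorem rtz161 : DT.all (regH PT.gp PT.gm spT PT.ps Cz.rtT Cz.tz Cz.tw) Cz.tz161 = true := by decide +kernel

theorem ytz161 : DT.all (symY Cz.tz) Cz.tz161 = true := by decide +kernel

theorem rtz162 : DT.all (regH PT.gp PT.gm spT PT.ps Cz.rtT Cz.tz Cz.tw) Cz.tz162 = true := by decide +kernel

theorem ytz162 : DT.all (symY Cz.tz) Cz.tz162 = true := by decide +kernel

theorem rtz163 : DT.all (regH PT.gp PT.gm spT PT.ps Cz.rtT Cz.tz Cz.tw) Cz.tz163 = true := by decide +kernel

theorem ytz163 : DT.all (symY Cz.tz) Cz.tz163 = true := by decide +kernel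


end Pool.Agent.Lib.MP_5854e1_co.Cz
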