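import Pool.Agent.Lib.MP_5854e1_co.Cz.P

/-!
# The regions of strips
-/

set_option autoImplicit false
set_option maxRecDepth 100000
set_option deprecated.oldSectionVars true

namespace Pool.Agent.Lib.MP_5854e1_co.Cz

open Pool.Agent.Lib.MP_5854e1_co PB

theorem rtz12 : DT.all (regH PT.gp PT.gm spT PT.ps Cz.rtT Cz.tz Cz.tw) Cz.tz12 = true := by decide +kernel

theorem ytz12 : DT.all (symY Cz.tz) Cz.tz12 = true := by decide +kernel

theorem rtz13 : DT.all (regH PT.gp PT.gm spT PT.ps Cz.rtT Cz.tz Cz.tw) Cz.tz13 = true := by decide +kernel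

theorem ytz13 : DT.all (symY Cz.tz) Cz.tz13 = true := by decide +kernel

theorem rtz14 : DT.all (regH PT.gp PT.gm spT PT.ps Cz.rtT Cz.tz Cz.tw) Cz.tz14 = true := by decide +kernel

theorem ytz14 : DT.all (symY Cz.tz) Cz.tz14 = true := by decide +kernel

theorem rtz15 : DT.all (regH PT.gp PT.gm spT PT.ps Cz.rtT Cz.tz Cz.tw) Cz.tz15 = true := by decide +kernel

theorem ytz15 : DT.all (symY Cz.tz) Cz.tz15 = true := by decide +kernel

theorem rtz16 : DT.all (regH PT.gp PT.gm spT PT.ps Cz.rtT Cz.tz Cz.tw) Cz.tz16 = true := by decide +kernel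

theorem ytz16 : DT.all (symY Cz.tz) Cz.tz16 = true := by decide +kernel

theorem rtz17 : DT.all (regH PT.gp PT.gm spT PT.ps Cz.rtT Cz.tz Cz.tw) Cz.tz17 = true := by decide +kernel

theorem ytz17 : DT.all (symY Cz.tz) Cz.tz17 = true := by decide +kernel


end Pool.Agent.Lib.MP_5854e1_co.Cz

namespace Pool.Agent.Lib.MP_5854e1_co.Cz

open Pool.Agent.Lib.MP_5854e1_co PB

theorem rtz97 : DT.all (regH PT.gp PT.gm spT PT.ps Cz.rtT Cz.tz Cz.tw) Cz.tz97 = true := by decide +kernel

theorem ytz97 : DT.all (symY Cz.tz) Cz.tz97 = true := by decide +kernel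

theorem rtz98 : DT.all (regH PT.gp PT.gm spT PT.ps Cz.rtT Cz.tz Cz.tw) Cz.tz98 = true := by decide +kernel

theorem ytz98 : DT.all (symY Cz.tz) Cz.tz98 = true := by decide +kernel

theorem rtz99 : DT.all (regH PT.gp PT.gm spT PT.ps Cz.rtT Cz.tz Cz.tw) Cz.tz99 = true := by decide +kernel

theorem ytz99 : DT.all (symY Cz.tz) Cz.tz99 = true := by decide +kernel

theorem rtz100 : DT.all (regH PT.gp PT.gm spT PT.ps Cz.rtT Cz.tz Cz.tw) Cz.tz100 = true := by decide +kernel

theorem ytz100 : DT.all (symY Cz.tz) Cz.tz100 = true := by decide +kernel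

theorem rtz101 : DT.all (regH PT.gp PT.gm spT PT.ps Cz.rtT Cz.tz Cz.tw) Cz.tz101 = true := by decide +kernel

theorem ytz101 : DT.all (symY Cz.tz) Cz.tz101 = true := by decide +kernel

theorem rtz102 : DT.all (regH PT.gp PT.gm spT PT.ps Cz.rtT Cz.tz Cz.tw) Cz.tz102 = true := by decide +kernel

theorem ytz102 : DT.all (symY Cz.tz) Cz.tz102 = true := by decide +kernel


end Pool.Agent.Lib.MP_5854e1_co.Cz
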