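import Pool.Agent.Lib.MP_5854e1_co.Cz.P

/-!
# The regions of strips
-/

set_option autoImplicit false
set_option maxRecDepth 100000
set_option deprecated.oldSectionVars true

namespace Pool.Agent.Lib.MP_5854e1_co.Cz

open Pool.Agent.Lib.MP_5854e1_co PB

theorem rtz18 : DT.all (regH PT.gp PT.gm spT PT.ps Cz.rtT Cz.tz Cz.tw) Cz.tz18 = true := by decide +kernel

theorem ytz18 : DT.all (symY Cz.tz) Cz.tz18 = true := by decide +kernel

theorem rtz19 : DT.all (regH PT.gp PT.gm spT PT.ps Cz.rtT Cz.tz Cz.tw) Cz.tz19 = true := by decide +kernel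

theorem ytz19 : DT.all (symY Cz.tz) Cz.tz19 = true := by decide +kernel

theorem rtz20 : DT.all (regH PT.gp PT.gm spT PT.ps Cz.rtT Cz.tz Cz.tw) Cz.tz20 = true := by decide +kernel

theorem ytz20 : DT.all (symY Cz.tz) Cz.tz20 = true := by decide +kernel

theorem rtz21 : DT.all (regH PT.gp PT.gm spT PT.ps Cz.rtT Cz.tz Cz.tw) Cz.tz21 = true := by decide +kernel

theorem ytz21 : DT.all (symY Cz.tz) Cz.tz21 = true := by decide +kernel

theorem rtz22 : DT.all (regH PT.gp PT.gm spT PT.ps Cz.rtT Cz.tz Cz.tw) Cz.tz22 = true := by decide +kernel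

theorem ytz22 : DT.all (symY Cz.tz) Cz.tz22 = true := by decide +kernel

theorem rtz23 : DT.all (regH PT.gp PT.gm spT PT.ps Cz.rtT Cz.tz Cz.tw) Cz.tz23 = true := by decide +kernel

theorem ytz23 : DT.all (symY Cz.tz) Cz.tz23 = true := by decide +kernel


end Pool.Agent.Lib.MP_5854e1_co.Cz

namespace Pool.Agent.Lib.MP_5854e1_co.Cz

open Pool.Agent.Lib.MP_5854e1_co PB

theorem rtz230 : DT.all (regH PT.gp PT.gm spT PT.ps Cz.rtT Cz.tz Cz.tw) Cz.tz230 = true := by decide +kernel

theorem ytz230 : DT.all (symY Cz.tz) Cz.tz230 = true := by decide +kernel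

theorem rtz231 : DT.all (regH PT.gp PT.gm spT PT.ps Cz.rtT Cz.tz Cz.tw) Cz.tz231 = true := by decide +kernel

theorem ytz231 : DT.all (symY Cz.tz) Cz.tz231 = true := by decide +kernel

theorem rtz232 : DT.all (regH PT.gp PT.gm spT PT.ps Cz.rtT Cz.tz Cz.tw) Cz.tz232 = true := by decide +kernel

theorem ytz232 : DT.all (symY Cz.tz) Cz.tz232 = true := by decide +kernel

theorem rtz233 : DT.all (regH PT.gp PT.gm spT PT.ps Cz.rtT Cz.tz Cz.tw) Cz.tz233 = true := by decide +kernel

theorem ytz233 : DT.all (symY Cz.tz) Cz.tz233 = true := by decide +kernel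

theorem rtz234 : DT.all (regH PT.gp PT.gm spT PT.ps Cz.rtT Cz.tz Cz.tw) Cz.tz234 = true := by decide +kernel

theorem ytz234 : DT.all (symY Cz.tz) Cz.tz234 = true := by decide +kernel

theorem rtz235 : DT.all (regH PT.gp PT.gm spT PT.ps Cz.rtT Cz.tz Cz.tw) Cz.tz235 = true := by decide +kernel

theorem ytz235 : DT.all (symY Cz.tz) Cz.tz235 = true := by decide +kernel


end Pool.Agent.Lib.MP_5854e1_co.Cz

namespace Pool.Agent.Lib.MP_5854e1_co.Cz

open Pool.Agent.Lib.MP_5854e1_co PB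

theorem rtz254 : DT.all (regH PT.gp PT.gm spT PT.ps Cz.rtT Cz.tz Cz.tw) Cz.tz254 = true := by decide +kernel

theorem ytz254 : DT.all (symY Cz.tz) Cz.tz254 = true := by decide +kernel

theorem rtz255 : DT.all (regH PT.gp PT.gm spT PT.ps Cz.rtT Cz.tz Cz.tw) Cz.tz255 = true := by decide +kernel

theorem ytz255 : DT.all (symY Cz.tz) Cz.tz255 = true := by decide +kernel


end Pool.Agent.Lib.MP_5854e1_co.Cz
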