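import Pool.Agent.Lib.MP_5854e1_co.Cz.P

/-!
# The regions of strips
-/

set_option autoImplicit false
set_option maxRecDepth 100000
set_option deprecated.oldSectionVars true

namespace Pool.Agent.Lib.MP_5854e1_co.Cz

open Pool.Agent.Lib.MP_5854e1_co PB

theorem rtz24 : DT.all (regH PT.gp PT.gm spT PT.ps Cz.rtT Cz.tz Cz.tw) Cz.tz24 = true := by decide +kernel

theorem ytz24 : DT.all (symY Cz.tz) Cz.tz24 = true := by decide +kernel

theorem rtz25 : DT.all (regH PT.gp PT.gm spT PT.ps Cz.rtT Cz.tz Cz.tw) Cz.tz25 = true := by decide +kernel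

theorem ytz25 : DT.all (symY Cz.tz) Cz.tz25 = true := by decide +kernel

theorem rtz26 : DT.all (regH PT.gp PT.gm spT PT.ps Cz.rtT Cz.tz Cz.tw) Cz.tz26 = true := by decide +kernel

theorem ytz26 : DT.all (symY Cz.tz) Cz.tz26 = true := by decide +kernel

theorem rtz27 : DT.all (regH PT.gp PT.gm spT PT.ps Cz.rtT Cz.tz Cz.tw) Cz.tz27 = true := by decide +kernel

theorem ytz27 : DT.all (symY Cz.tz) Cz.tz27 = true := by decide +kernel

theorem rtz28 : DT.all (regH PT.gp PT.gm spT PT.ps Cz.rtT Cz.tz Cz.tw) Cz.tz28 = true := by decide +kernel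

theorem ytz28 : DT.all (symY Cz.tz) Cz.tz28 = true := by decide +kernel

theorem rtz29 : DT.all (regH PT.gp PT.gm spT PT.ps Cz.rtT Cz.tz Cz.tw) Cz.tz29 = true := by decide +kernel

theorem ytz29 : DT.all (symY Cz.tz) Cz.tz29 = true := by decide +kernel


end Pool.Agent.Lib.MP_5854e1_co.Cz

namespace Pool.Agent.Lib.MP_5854e1_co.Cz

open Pool.Agent.Lib.MP_5854e1_co PB

theorem rtz194 : DT.all (regH PT.gp PT.gm spT PT.ps Cz.rtT Cz.tz Cz.tw) Cz.tz194 = true := by decide +kernel

theorem ytz194 : DT.all (symY Cz.tz) Cz.tz194 = true := by decide +kernel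

theorem rtz195 : DT.all (regH PT.gp PT.gm spT PT.ps Cz.rtT Cz.tz Cz.tw) Cz.tz195 = true := by decide +kernel

theorem ytz195 : DT.all (symY Cz.tz) Cz.tz195 = true := by decide +kernel

theorem rtz196 : DT.all (regH PT.gp PT.gm spT PT.ps Cz.rtT Cz.tz Cz.tw) Cz.tz196 = true := by decide +kernel

theorem ytz196 : DT.all (symY Cz.tz) Cz.tz196 = true := by decide +kernel

theorem rtz197 : DT.all (regH PT.gp PT.gm spT PT.ps Cz.rtT Cz.tz Cz.tw) Cz.tz197 = true := by decide +kernel

theorem ytz197 : DT.all (symY Cz.tz) Cz.tz197 = true := by decide +kernel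

theorem rtz198 : DT.all (regH PT.gp PT.gm spT PT.ps Cz.rtT Cz.tz Cz.tw) Cz.tz198 = true := by decide +kernel

theorem ytz198 : DT.all (symY Cz.tz) Cz.tz198 = true := by decide +kernel

theorem rtz199 : DT.all (regH PT.gp PT.gm spT PT.ps Cz.rtT Cz.tz Cz.tw) Cz.tz199 = true := by decide +kernel

theorem ytz199 : DT.all (symY Cz.tz) Cz.tz199 = true := by decide +kernel


end Pool.Agent.Lib.MP_5854e1_co.Cz
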