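import Pool.Agent.Lib.MP_5854e1_co.Cz.P

/-!
# The regions of strips
-/

set_option autoImplicit false
set_option maxRecDepth 100000
set_option deprecated.oldSectionVars true

namespace Pool.Agent.Lib.MP_5854e1_co.Cz

open Pool.Agent.Lib.MP_5854e1_co PB

theorem rtz30 : DT.all (regH PT.gp PT.gm spT PT.ps Cz.rtT Cz.tz Cz.tw) Cz.tz30 = true := by decide +kernel

theorem ytz30 : DT.all (symY Cz.tz) Cz.tz30 = true := by decide +kernel

theorem rtz31 : DT.all (regH PT.gp PT.gm spT PT.ps Cz.rtT Cz.tz Cz.tw) Cz.tz31 = true := by decide +kernel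

theorem ytz31 : DT.all (symY Cz.tz) Cz.tz31 = true := by decide +kernel

theorem rtz32 : DT.all (regH PT.gp PT.gm spT PT.ps Cz.rtT Cz.tz Cz.tw) Cz.tz32 = true := by decide +kernel

theorem ytz32 : DT.all (symY Cz.tz) Cz.tz32 = true := by decide +kernel

theorem rtz33 : DT.all (regH PT.gp PT.gm spT PT.ps Cz.rtT Cz.tz Cz.tw) Cz.tz33 = true := by decide +kernel

theorem ytz33 : DT.all (symY Cz.tz) Cz.tz33 = true := by decide +kernel

theorem rtz34 : DT.all (regH PT.gp PT.gm spT PT.ps Cz.rtT Cz.tz Cz.tw) Cz.tz34 = true := by decide +kernel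

theorem ytz34 : DT.all (symY Cz.tz) Cz.tz34 = true := by decide +kernel

theorem rtz35 : DT.all (regH PT.gp PT.gm spT PT.ps Cz.rtT Cz.tz Cz.tw) Cz.tz35 = true := by decide +kernel

theorem ytz35 : DT.all (symY Cz.tz) Cz.tz35 = true := by decide +kernel


end Pool.Agent.Lib.MP_5854e1_co.Cz

namespace Pool.Agent.Lib.MP_5854e1_co.Cz

open Pool.Agent.Lib.MP_5854e1_co PB

theorem rtz115 : DT.all (regH PT.gp PT.gm spT PT.ps Cz.rtT Cz.tz Cz.tw) Cz.tz115 = true := by decide +kernel

theorem ytz115 : DT.all (symY Cz.tz) Cz.tz115 = true := by decide +kernel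

theorem rtz116 : DT.all (regH PT.gp PT.gm spT PT.ps Cz.rtT Cz.tz Cz.tw) Cz.tz116 = true := by decide +kernel

theorem ytz116 : DT.all (symY Cz.tz) Cz.tz116 = true := by decide +kernel

theorem rtz117 : DT.all (regH PT.gp PT.gm spT PT.ps Cz.rtT Cz.tz Cz.tw) Cz.tz117 = true := by decide +kernel

theorem ytz117 : DT.all (symY Cz.tz) Cz.tz117 = true := by decide +kernel

theorem rtz118 : DT.all (regH PT.gp PT.gm spT PT.ps Cz.rtT Cz.tz Cz.tw) Cz.tz118 = true := by decide +kernel

theorem ytz118 : DT.all (symY Cz.tz) Cz.tz118 = true := by decide +kernel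

theorem rtz119 : DT.all (regH PT.gp PT.gm spT PT.ps Cz.rtT Cz.tz Cz.tw) Cz.tz119 = true := by decide +kernel

theorem ytz119 : DT.all (symY Cz.tz) Cz.tz119 = true := by decide +kernel

theorem rtz120 : DT.all (regH PT.gp PT.gm spT PT.ps Cz.rtT Cz.tz Cz.tw) Cz.tz120 = true := by decide +kernel

theorem ytz120 : DT.all (symY Cz.tz) Cz.tz120 = true := by decide +kernel


end Pool.Agent.Lib.MP_5854e1_co.Cz

namespace Pool.Agent.Lib.MP_5854e1_co.Cz

open Pool.Agent.Lib.MP_5854e1_co PB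

theorem rtz170 : DT.all (regH PT.gp PT.gm spT PT.ps Cz.rtT Cz.tz Cz.tw) Cz.tz170 = true := by decide +kernel

theorem ytz170 : DT.all (symY Cz.tz) Cz.tz170 = true := by decide +kernel

theorem rtz171 : DT.all (regH PT.gp PT.gm spT PT.ps Cz.rtT Cz.tz Cz.tw) Cz.tz171 = true := by decide +kernel

theorem ytz171 : DT.all (symY Cz.tz) Cz.tz171 = true := by decide +kernel

theorem rtz172 : DT.all (regH PT.gp PT.gm spT PT.ps Cz.rtT Cz.tz Cz.tw) Cz.tz172 = true := by decide +kernel

theorem ytz172 : DT.all (symY Cz.tz) Cz.tz172 = true := by decide +kernel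

theorem rtz173 : DT.all (regH PT.gp PT.gm spT PT.ps Cz.rtT Cz.tz Cz.tw) Cz.tz173 = true := by decide +kernel

theorem ytz173 : DT.all (symY Cz.tz) Cz.tz173 = true := by decide +kernel

theorem rtz174 : DT.all (regH PT.gp PT.gm spT PT.ps Cz.rtT Cz.tz Cz.tw) Cz.tz174 = true := by decide +kernel

theorem ytz174 : DT.all (symY Cz.tz) Cz.tz174 = true := by decide +kernel

theorem rtz175 : DT.all (regH PT.gp PT.gm spT PT.ps Cz.rtT Cz.tz Cz.tw) Cz.tz175 = true := by decide +kernel

theorem ytz175 : DT.all (symY Cz.tz) Cz.tz175 = true := by decide +kernel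


end Pool.Agent.Lib.MP_5854e1_co.Cz
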