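import Pool.Agent.Lib.MP_5854e1_co.Cz.P

/-!
# The regions of strips
-/

set_option autoImplicit false
set_option maxRecDepth 100000
set_option deprecated.oldSectionVars true

namespace Pool.Agent.Lib.MP_5854e1_co.Cz

open Pool.Agent.Lib.MP_5854e1_co PB

theorem rtz36 : DT.all (regH PT.gp PT.gm spT PT.ps Cz.rtT Cz.tz Cz.tw) Cz.tz36 = true := by decide +kernel

theorem ytz36 : DT.all (symY Cz.tz) Cz.tz36 = true := by decide +kernel

theorem rtz37 : DT.all (regH PT.gp PT.gm spT PT.ps Cz.rtT Cz.tz Cz.tw) Cz.tz37 = true := by decide +kernel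

theorem ytz37 : DT.all (symY Cz.tz) Cz.tz37 = true := by decide +kernel

theorem rtz38 : DT.all (regH PT.gp PT.gm spT PT.ps Cz.rtT Cz.tz Cz.tw) Cz.tz38 = true := by decide +kernel

theorem ytz38 : DT.all (symY Cz.tz) Cz.tz38 = true := by decide +kernel

theorem rtz39 : DT.all (regH PT.gp PT.gm spT PT.ps Cz.rtT Cz.tz Cz.tw) Cz.tz39 = true := by decide +kernel

theorem ytz39 : DT.all (symY Cz.tz) Cz.tz39 = true := by decide +kernel

theorem rtz40 : DT.all (regH PT.gp PT.gm spT PT.ps Cz.rtT Cz.tz Cz.tw) Cz.tz40 = true := by decide +kernel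

theorem ytz40 : DT.all (symY Cz.tz) Cz.tz40 = true := by decide +kernel

theorem rtz41 : DT.all (regH PT.gp PT.gm spT PT.ps Cz.rtT Cz.tz Cz.tw) Cz.tz41 = true := by decide +kernel

theorem ytz41 : DT.all (symY Cz.tz) Cz.tz41 = true := by decide +kernel


end Pool.Agent.Lib.MP_5854e1_co.Cz

namespace Pool.Agent.Lib.MP_5854e1_co.Cz

open Pool.Agent.Lib.MP_5854e1_co PB

theorem rtz109 : DT.all (regH PT.gp PT.gm spT PT.ps Cz.rtT Cz.tz Cz.tw) Cz.tz109 = true := by decide +kernel

theorem ytz109 : DT.all (symY Cz.tz) Cz.tz109 = true := by decide +kernel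

theorem rtz110 : DT.all (regH PT.gp PT.gm spT PT.ps Cz.rtT Cz.tz Cz.tw) Cz.tz110 = true := by decide +kernel

theorem ytz110 : DT.all (symY Cz.tz) Cz.tz110 = true := by decide +kernel

theorem rtz111 : DT.all (regH PT.gp PT.gm spT PT.ps Cz.rtT Cz.tz Cz.tw) Cz.tz111 = true := by decide +kernel

theorem ytz111 : DT.all (symY Cz.tz) Cz.tz111 = true := by decide +kernel

theorem rtz112 : DT.all (regH PT.gp PT.gm spT PT.ps Cz.rtT Cz.tz Cz.tw) Cz.tz112 = true := by decide +kernel

theorem ytz112 : DT.all (symY Cz.tz) Cz.tz112 = true := by decide +kernel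

theorem rtz113 : DT.all (regH PT.gp PT.gm spT PT.ps Cz.rtT Cz.tz Cz.tw) Cz.tz113 = true := by decide +kernel

theorem ytz113 : DT.all (symY Cz.tz) Cz.tz113 = true := by decide +kernel

theorem rtz114 : DT.all (regH PT.gp PT.gm spT PT.ps Cz.rtT Cz.tz Cz.tw) Cz.tz114 = true := by decide +kernel

theorem ytz114 : DT.all (symY Cz.tz) Cz.tz114 = true := by decide +kernel


end Pool.Agent.Lib.MP_5854e1_co.Cz

namespace Pool.Agent.Lib.MP_5854e1_co.Cz

open Pool.Agent.Lib.MP_5854e1_co PB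

theorem rtz236 : DT.all (regH PT.gp PT.gm spT PT.ps Cz.rtT Cz.tz Cz.tw) Cz.tz236 = true := by decide +kernel

theorem ytz236 : DT.all (symY Cz.tz) Cz.tz236 = true := by decide +kernel

theorem rtz237 : DT.all (regH PT.gp PT.gm spT PT.ps Cz.rtT Cz.tz Cz.tw) Cz.tz237 = true := by decide +kernel

theorem ytz237 : DT.all (symY Cz.tz) Cz.tz237 = true := by decide +kernel

theorem rtz238 : DT.all (regH PT.gp PT.gm spT PT.ps Cz.rtT Cz.tz Cz.tw) Cz.tz238 = true := by decide +kernel

theorem ytz238 : DT.all (symY Cz.tz) Cz.tz238 = true := by decide +kernel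

theorem rtz239 : DT.all (regH PT.gp PT.gm spT PT.ps Cz.rtT Cz.tz Cz.tw) Cz.tz239 = true := by decide +kernel

theorem ytz239 : DT.all (symY Cz.tz) Cz.tz239 = true := by decide +kernel

theorem rtz240 : DT.all (regH PT.gp PT.gm spT PT.ps Cz.rtT Cz.tz Cz.tw) Cz.tz240 = true := by decide +kernel

theorem ytz240 : DT.all (symY Cz.tz) Cz.tz240 = true := by decide +kernel

theorem rtz241 : DT.all (regH PT.gp PT.gm spT PT.ps Cz.rtT Cz.tz Cz.tw) Cz.tz241 = true := by decide +kernel

theorem ytz241 : DT.all (symY Cz.tz) Cz.tz241 = true := by decide +kernel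


end Pool.Agent.Lib.MP_5854e1_co.Cz
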