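import Pool.Agent.Lib.MP_5854e1_co.Cz.P

/-!
# The regions of strips
-/

set_option autoImplicit false
set_option maxRecDepth 100000
set_option deprecated.oldSectionVars true

namespace Pool.Agent.Lib.MP_5854e1_co.Cz

open Pool.Agent.Lib.MP_5854e1_co PB

theorem rtz42 : DT.all (regH PT.gp PT.gm spT PT.ps Cz.rtT Cz.tz Cz.tw) Cz.tz42 = true := by decide +kernel

theorem ytz42 : DT.all (symY Cz.tz) Cz.tz42 = true := by decide +kernel

theorem rtz43 : DT.all (regH PT.gp PT.gm spT PT.ps Cz.rtT Cz.tz Cz.tw) Cz.tz43 = true := by decide +kernel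

theorem ytz43 : DT.all (symY Cz.tz) Cz.tz43 = true := by decide +kernel

theorem rtz44 : DT.all (regH PT.gp PT.gm spT PT.ps Cz.rtT Cz.tz Cz.tw) Cz.tz44 = true := by decide +kernel

theorem ytz44 : DT.all (symY Cz.tz) Cz.tz44 = true := by decide +kernel

theorem rtz45 : DT.all (regH PT.gp PT.gm spT PT.ps Cz.rtT Cz.tz Cz.tw) Cz.tz45 = true := by decide +kernel

theorem ytz45 : DT.all (symY Cz.tz) Cz.tz45 = true := by decide +kernel

theorem rtz46 : DT.all (regH PT.gp PT.gm spT PT.ps Cz.rtT Cz.tz Cz.tw) Cz.tz46 = true := by decide +kernel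

theorem ytz46 : DT.all (symY Cz.tz) Cz.tz46 = true := by decide +kernel

theorem rtz47 : DT.all (regH PT.gp PT.gm spT PT.ps Cz.rtT Cz.tz Cz.tw) Cz.tz47 = true := by decide +kernel

theorem ytz47 : DT.all (symY Cz.tz) Cz.tz47 = true := by decide +kernel


end Pool.Agent.Lib.MP_5854e1_co.Cz

namespace Pool.Agent.Lib.MP_5854e1_co.Cz

open Pool.Agent.Lib.MP_5854e1_co PB

theorem rtz103 : DT.all (regH PT.gp PT.gm spT PT.ps Cz.rtT Cz.tz Cz.tw) Cz.tz103 = true := by decide +kernel

theorem ytz103 : DT.all (symY Cz.tz) Cz.tz103 = true := by decide +kernel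

theorem rtz104 : DT.all (regH PT.gp PT.gm spT PT.ps Cz.rtT Cz.tz Cz.tw) Cz.tz104 = true := by decide +kernel

theorem ytz104 : DT.all (symY Cz.tz) Cz.tz104 = true := by decide +kernel

theorem rtz105 : DT.all (regH PT.gp PT.gm spT PT.ps Cz.rtT Cz.tz Cz.tw) Cz.tz105 = true := by decide +kernel

theorem ytz105 : DT.all (symY Cz.tz) Cz.tz105 = true := by decide +kernel

theorem rtz106 : DT.all (regH PT.gp PT.gm spT PT.ps Cz.rtT Cz.tz Cz.tw) Cz.tz106 = true := by decide +kernel

theorem ytz106 : DT.all (symY Cz.tz) Cz.tz106 = true := by decide +kernel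

theorem rtz107 : DT.all (regH PT.gp PT.gm spT PT.ps Cz.rtT Cz.tz Cz.tw) Cz.tz107 = true := by decide +kernel

theorem ytz107 : DT.all (symY Cz.tz) Cz.tz107 = true := by decide +kernel

theorem rtz108 : DT.all (regH PT.gp PT.gm spT PT.ps Cz.rtT Cz.tz Cz.tw) Cz.tz108 = true := by decide +kernel

theorem ytz108 : DT.all (symY Cz.tz) Cz.tz108 = true := by decide +kernel


end Pool.Agent.Lib.MP_5854e1_co.Cz

namespace Pool.Agent.Lib.MP_5854e1_co.Cz

open Pool.Agent.Lib.MP_5854e1_co PB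

theorem rtz164 : DT.all (regH PT.gp PT.gm spT PT.ps Cz.rtT Cz.tz Cz.tw) Cz.tz164 = true := by decide +kernel

theorem ytz164 : DT.all (symY Cz.tz) Cz.tz164 = true := by decide +kernel

theorem rtz165 : DT.all (regH PT.gp PT.gm spT PT.ps Cz.rtT Cz.tz Cz.tw) Cz.tz165 = true := by decide +kernel

theorem ytz165 : DT.all (symY Cz.tz) Cz.tz165 = true := by decide +kernel

theorem rtz166 : DT.all (regH PT.gp PT.gm spT PT.ps Cz.rtT Cz.tz Cz.tw) Cz.tz166 = true := by decide +kernel

theorem ytz166 : DT.all (symY Cz.tz) Cz.tz166 = true := by decide +kernel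

theorem rtz167 : DT.all (regH PT.gp PT.gm spT PT.ps Cz.rtT Cz.tz Cz.tw) Cz.tz167 = true := by decide +kernel

theorem ytz167 : DT.all (symY Cz.tz) Cz.tz167 = true := by decide +kernel

theorem rtz168 : DT.all (regH PT.gp PT.gm spT PT.ps Cz.rtT Cz.tz Cz.tw) Cz.tz168 = true := by decide +kernel

theorem ytz168 : DT.all (symY Cz.tz) Cz.tz168 = true := by decide +kernel

theorem rtz169 : DT.all (regH PT.gp PT.gm spT PT.ps Cz.rtT Cz.tz Cz.tw) Cz.tz169 = true := by decide +kernel

theorem ytz169 : DT.all (symY Cz.tz) Cz.tz169 = true := by decide +kernel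


end Pool.Agent.Lib.MP_5854e1_co.Cz
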