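import Pool.Agent.Lib.MP_5854e1_co.Cz.P

/-!
# The regions of strips
-/

set_option autoImplicit false
set_option maxRecDepth 100000
set_option deprecated.oldSectionVars true

namespace Pool.Agent.Lib.MP_5854e1_co.Cz

open Pool.Agent.Lib.MP_5854e1_co PB

theorem rtz48 : DT.all (regH PT.gp PT.gm spT PT.ps Cz.rtT Cz.tz Cz.tw) Cz.tz48 = true := by decide +kernel

theorem ytz48 : DT.all (symY Cz.tz) Cz.tz48 = true := by decide +kernel

theorem rtz49 : DT.all (regH PT.gp PT.gm spT PT.ps Cz.rtT Cz.tz Cz.tw) Cz.tz49 = true := by decide +kernel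

theorem ytz49 : DT.all (symY Cz.tz) Cz.tz49 = true := by decide +kernel

theorem rtz50 : DT.all (regH PT.gp PT.gm spT PT.ps Cz.rtT Cz.tz Cz.tw) Cz.tz50 = true := by decide +kernel

theorem ytz50 : DT.all (symY Cz.tz) Cz.tz50 = true := by decide +kernel

theorem rtz51 : DT.all (regH PT.gp PT.gm spT PT.ps Cz.rtT Cz.tz Cz.tw) Cz.tz51 = true := by decide +kernel

theorem ytz51 : DT.all (symY Cz.tz) Cz.tz51 = true := by decide +kernel

theorem rtz52 : DT.all (regH PT.gp PT.gm spT PT.ps Cz.rtT Cz.tz Cz.tw) Cz.tz52 = true := by decide +kernel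

theorem ytz52 : DT.all (symY Cz.tz) Cz.tz52 = true := by decide +kernel

theorem rtz53 : DT.all (regH PT.gp PT.gm spT PT.ps Cz.rtT Cz.tz Cz.tw) Cz.tz53 = true := by decide +kernel

theorem ytz53 : DT.all (symY Cz.tz) Cz.tz53 = true := by decide +kernel


end Pool.Agent.Lib.MP_5854e1_co.Cz

namespace Pool.Agent.Lib.MP_5854e1_co.Cz

open Pool.Agent.Lib.MP_5854e1_co PB

theorem rtz140 : DT.all (regH PT.gp PT.gm spT PT.ps Cz.rtT Cz.tz Cz.tw) Cz.tz140 = true := by decide +kernel

theorem ytz140 : DT.all (symY Cz.tz) Cz.tz140 = true := by decide +kernel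

theorem rtz141 : DT.all (regH PT.gp PT.gm spT PT.ps Cz.rtT Cz.tz Cz.tw) Cz.tz141 = true := by decide +kernel

theorem ytz141 : DT.all (symY Cz.tz) Cz.tz141 = true := by decide +kernel

theorem rtz142 : DT.all (regH PT.gp PT.gm spT PT.ps Cz.rtT Cz.tz Cz.tw) Cz.tz142 = true := by decide +kernel

theorem ytz142 : DT.all (symY Cz.tz) Cz.tz142 = true := by decide +kernel

theorem rtz143 : DT.all (regH PT.gp PT.gm spT PT.ps Cz.rtT Cz.tz Cz.tw) Cz.tz143 = true := by decide +kernel

theorem ytz143 : DT.all (symY Cz.tz) Cz.tz143 = true := by decide +kernel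

theorem rtz144 : DT.all (regH PT.gp PT.gm spT PT.ps Cz.rtT Cz.tz Cz.tw) Cz.tz144 = true := by decide +kernel

theorem ytz144 : DT.all (symY Cz.tz) Cz.tz144 = true := by decide +kernel

theorem rtz145 : DT.all (regH PT.gp PT.gm spT PT.ps Cz.rtT Cz.tz Cz.tw) Cz.tz145 = true := by decide +kernel

theorem ytz145 : DT.all (symY Cz.tz) Cz.tz145 = true := by decide +kernel


end Pool.Agent.Lib.MP_5854e1_co.Cz

namespace Pool.Agent.Lib.MP_5854e1_co.Cz

open Pool.Agent.Lib.MP_5854e1_co PB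

theorem rtz218 : DT.all (regH PT.gp PT.gm spT PT.ps Cz.rtT Cz.tz Cz.tw) Cz.tz218 = true := by decide +kernel

theorem ytz218 : DT.all (symY Cz.tz) Cz.tz218 = true := by decide +kernel

theorem rtz219 : DT.all (regH PT.gp PT.gm spT PT.ps Cz.rtT Cz.tz Cz.tw) Cz.tz219 = true := by decide +kernel

theorem ytz219 : DT.all (symY Cz.tz) Cz.tz219 = true := by decide +kernel

theorem rtz220 : DT.all (regH PT.gp PT.gm spT PT.ps Cz.rtT Cz.tz Cz.tw) Cz.tz220 = true := by decide +kernel

theorem ytz220 : DT.all (symY Cz.tz) Cz.tz220 = true := by decide +kernel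

theorem rtz221 : DT.all (regH PT.gp PT.gm spT PT.ps Cz.rtT Cz.tz Cz.tw) Cz.tz221 = true := by decide +kernel

theorem ytz221 : DT.all (symY Cz.tz) Cz.tz221 = true := by decide +kernel

theorem rtz222 : DT.all (regH PT.gp PT.gm spT PT.ps Cz.rtT Cz.tz Cz.tw) Cz.tz222 = true := by decide +kernel

theorem ytz222 : DT.all (symY Cz.tz) Cz.tz222 = true := by decide +kernel

theorem rtz223 : DT.all (regH PT.gp PT.gm spT PT.ps Cz.rtT Cz.tz Cz.tw) Cz.tz223 = true := by decide +kernel

theorem ytz223 : DT.all (symY Cz.tz) Cz.tz223 = true := by decide +kernel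


end Pool.Agent.Lib.MP_5854e1_co.Cz
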