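import Pool.Agent.Lib.MP_5854e1_co.Cz.P

/-!
# The regions of strips
-/

set_option autoImplicit false
set_option maxRecDepth 100000
set_option deprecated.oldSectionVars true

namespace Pool.Agent.Lib.MP_5854e1_co.Cz

open Pool.Agent.Lib.MP_5854e1_co PB

theorem rtz54 : DT.all (regH PT.gp PT.gm spT PT.ps Cz.rtT Cz.tz Cz.tw) Cz.tz54 = true := by decide +kernel

theorem ytz54 : DT.all (symY Cz.tz) Cz.tz54 = true := by decide +kernel

theorem rtz55 : DT.all (regH PT.gp PT.gm spT PT.ps Cz.rtT Cz.tz Cz.tw) Cz.tz55 = true := by decide +kernel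

theorem ytz55 : DT.all (symY Cz.tz) Cz.tz55 = true := by decide +kernel

theorem rtz56 : DT.all (regH PT.gp PT.gm spT PT.ps Cz.rtT Cz.tz Cz.tw) Cz.tz56 = true := by decide +kernel

theorem ytz56 : DT.all (symY Cz.tz) Cz.tz56 = true := by decide +kernel

theorem rtz57 : DT.all (regH PT.gp PT.gm spT PT.ps Cz.rtT Cz.tz Cz.tw) Cz.tz57 = true := by decide +kernel

theorem ytz57 : DT.all (symY Cz.tz) Cz.tz57 = true := by decide +kernel

theorem rtz58 : DT.all (regH PT.gp PT.gm spT PT.ps Cz.rtT Cz.tz Cz.tw) Cz.tz58 = true := by decide +kernel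

theorem ytz58 : DT.all (symY Cz.tz) Cz.tz58 = true := by decide +kernel

theorem rtz59 : DT.all (regH PT.gp PT.gm spT PT.ps Cz.rtT Cz.tz Cz.tw) Cz.tz59 = true := by decide +kernel

theorem ytz59 : DT.all (symY Cz.tz) Cz.tz59 = true := by decide +kernel


end Pool.Agent.Lib.MP_5854e1_co.Cz

namespace Pool.Agent.Lib.MP_5854e1_co.Cz

open Pool.Agent.Lib.MP_5854e1_co PB

theorem rtz146 : DT.all (regH PT.gp PT.gm spT PT.ps Cz.rtT Cz.tz Cz.tw) Cz.tz146 = true := by decide +kernel

theorem ytz146 : DT.all (symY Cz.tz) Cz.tz146 = true := by decide +kernel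

theorem rtz147 : DT.all (regH PT.gp PT.gm spT PT.ps Cz.rtT Cz.tz Cz.tw) Cz.tz147 = true := by decide +kernel

theorem ytz147 : DT.all (symY Cz.tz) Cz.tz147 = true := by decide +kernel

theorem rtz148 : DT.all (regH PT.gp PT.gm spT PT.ps Cz.rtT Cz.tz Cz.tw) Cz.tz148 = true := by decide +kernel

theorem ytz148 : DT.all (symY Cz.tz) Cz.tz148 = true := by decide +kernel

theorem rtz149 : DT.all (regH PT.gp PT.gm spT PT.ps Cz.rtT Cz.tz Cz.tw) Cz.tz149 = true := by decide +kernel

theorem ytz149 : DT.all (symY Cz.tz) Cz.tz149 = true := by decide +kernel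

theorem rtz150 : DT.all (regH PT.gp PT.gm spT PT.ps Cz.rtT Cz.tz Cz.tw) Cz.tz150 = true := by decide +kernel

theorem ytz150 : DT.all (symY Cz.tz) Cz.tz150 = true := by decide +kernel

theorem rtz151 : DT.all (regH PT.gp PT.gm spT PT.ps Cz.rtT Cz.tz Cz.tw) Cz.tz151 = true := by decide +kernel

theorem ytz151 : DT.all (symY Cz.tz) Cz.tz151 = true := by decide +kernel


end Pool.Agent.Lib.MP_5854e1_co.Cz
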