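import Pool.Agent.Lib.MP_5854e1_co.Cz.P

/-!
# The regions of strips
-/

set_option autoImplicit false
set_option maxRecDepth 100000
set_option deprecated.oldSectionVars true

namespace Pool.Agent.Lib.MP_5854e1_co.Cz

open Pool.Agent.Lib.MP_5854e1_co PB

theorem rtz60 : DT.all (regH PT.gp PT.gm spT PT.ps Cz.rtT Cz.tz Cz.tw) Cz.tz60 = true := by decide +kernel

theorem ytz60 : DT.all (symY Cz.tz) Cz.tz60 = true := by decide +kernel

theorem rtz61 : DT.all (regH PT.gp PT.gm spT PT.ps Cz.rtT Cz.tz Cz.tw) Cz.tz61 = true := by decide +kernel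

theorem ytz61 : DT.all (symY Cz.tz) Cz.tz61 = true := by decide +kernel

theorem rtz62 : DT.all (regH PT.gp PT.gm spT PT.ps Cz.rtT Cz.tz Cz.tw) Cz.tz62 = true := by decide +kernel

theorem ytz62 : DT.all (symY Cz.tz) Cz.tz62 = true := by decide +kernel

theorem rtz63 : DT.all (regH PT.gp PT.gm spT PT.ps Cz.rtT Cz.tz Cz.tw) Cz.tz63 = true := by decide +kernel

theorem ytz63 : DT.all (symY Cz.tz) Cz.tz63 = true := by decide +kernel

theorem rtz64 : DT.all (regH PT.gp PT.gm spT PT.ps Cz.rtT Cz.tz Cz.tw) Cz.tz64 = true := by decide +kernel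

theorem ytz64 : DT.all (symY Cz.tz) Cz.tz64 = true := by decide +kernel

theorem rtz65 : DT.all (regH PT.gp PT.gm spT PT.ps Cz.rtT Cz.tz Cz.tw) Cz.tz65 = true := by decide +kernel

theorem ytz65 : DT.all (symY Cz.tz) Cz.tz65 = true := by decide +kernel

theorem rtz66 : DT.all (regH PT.gp PT.gm spT PT.ps Cz.rtT Cz.tz Cz.tw) Cz.tz66 = true := by decide +kernel

theorem ytz66 : DT.all (symY Cz.tz) Cz.tz66 = true := by decide +kernel


end Pool.Agent.Lib.MP_5854e1_co.Cz

namespace Pool.Agent.Lib.MP_5854e1_co.Cz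

open Pool.Agent.Lib.MP_5854e1_co PB

theorem rtz67 : DT.all (regH PT.gp PT.gm spT PT.ps Cz.rtT Cz.tz Cz.tw) Cz.tz67 = true := by decide +kernel

theorem ytz67 : DT.all (symY Cz.tz) Cz.tz67 = true := by decide +kernel

theorem rtz68 : DT.all (regH PT.gp PT.gm spT PT.ps Cz.rtT Cz.tz Cz.tw) Cz.tz68 = true := by decide +kernel

theorem ytz68 : DT.all (symY Cz.tz) Cz.tz68 = true := by decide +kernel

theorem rtz69 : DT.all (regH PT.gp PT.gm spT PT.ps Cz.rtT Cz.tz Cz.tw) Cz.tz69 = true := by decide +kernel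

theorem ytz69 : DT.all (symY Cz.tz) Cz.tz69 = true := by decide +kernel

theorem rtz70 : DT.all (regH PT.gp PT.gm spT PT.ps Cz.rtT Cz.tz Cz.tw) Cz.tz70 = true := by decide +kernel

theorem ytz70 : DT.all (symY Cz.tz) Cz.tz70 = true := by decide +kernel

theorem rtz71 : DT.all (regH PT.gp PT.gm spT PT.ps Cz.rtT Cz.tz Cz.tw) Cz.tz71 = true := by decide +kernel

theorem ytz71 : DT.all (symY Cz.tz) Cz.tz71 = true := by decide +kernel

theorem rtz72 : DT.all (regH PT.gp PT.gm spT PT.ps Cz.rtT Cz.tz Cz.tw) Cz.tz72 = true := by decide +kernel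

theorem ytz72 : DT.all (symY Cz.tz) Cz.tz72 = true := by decide +kernel


end Pool.Agent.Lib.MP_5854e1_co.Cz
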