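import Pool.Agent.Lib.MP_5854e1_co.Cz.P

/-!
# The regions of strips
-/

set_option autoImplicit false
set_option maxRecDepth 100000
set_option deprecated.oldSectionVars true

namespace Pool.Agent.Lib.MP_5854e1_co.Cz

open Pool.Agent.Lib.MP_5854e1_co PB

theorem rtz73 : DT.all (regH PT.gp PT.gm spT PT.ps Cz.rtT Cz.tz Cz.tw) Cz.tz73 = true := by decide +kernel

theorem ytz73 : DT.all (symY Cz.tz) Cz.tz73 = true := by decide +kernel

theorem rtz74 : DT.all (regH PT.gp PT.gm spT PT.ps Cz.rtT Cz.tz Cz.tw) Cz.tz74 = true := by decide +kernel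

theorem ytz74 : DT.all (symY Cz.tz) Cz.tz74 = true := by decide +kernel

theorem rtz75 : DT.all (regH PT.gp PT.gm spT PT.ps Cz.rtT Cz.tz Cz.tw) Cz.tz75 = true := by decide +kernel

theorem ytz75 : DT.all (symY Cz.tz) Cz.tz75 = true := by decide +kernel

theorem rtz76 : DT.all (regH PT.gp PT.gm spT PT.ps Cz.rtT Cz.tz Cz.tw) Cz.tz76 = true := by decide +kernel

theorem ytz76 : DT.all (symY Cz.tz) Cz.tz76 = true := by decide +kernel

theorem rtz77 : DT.all (regH PT.gp PT.gm spT PT.ps Cz.rtT Cz.tz Cz.tw) Cz.tz77 = true := by decide +kernel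

theorem ytz77 : DT.all (symY Cz.tz) Cz.tz77 = true := by decide +kernel

theorem rtz78 : DT.all (regH PT.gp PT.gm spT PT.ps Cz.rtT Cz.tz Cz.tw) Cz.tz78 = true := by decide +kernel

theorem ytz78 : DT.all (symY Cz.tz) Cz.tz78 = true := by decide +kernel


end Pool.Agent.Lib.MP_5854e1_co.Cz

namespace Pool.Agent.Lib.MP_5854e1_co.Cz

open Pool.Agent.Lib.MP_5854e1_co PB

theorem rtz121 : DT.all (regH PT.gp PT.gm spT PT.ps Cz.rtT Cz.tz Cz.tw) Cz.tz121 = true := by decide +kernel

theorem ytz121 : DT.all (symY Cz.tz) Cz.tz121 = true := by decide +kernel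

theorem rtz122 : DT.all (regH PT.gp PT.gm spT PT.ps Cz.rtT Cz.tz Cz.tw) Cz.tz122 = true := by decide +kernel

theorem ytz122 : DT.all (symY Cz.tz) Cz.tz122 = true := by decide +kernel

theorem rtz123 : DT.all (regH PT.gp PT.gm spT PT.ps Cz.rtT Cz.tz Cz.tw) Cz.tz123 = true := by decide +kernel

theorem ytz123 : DT.all (symY Cz.tz) Cz.tz123 = true := by decide +kernel

theorem rtz124 : DT.all (regH PT.gp PT.gm spT PT.ps Cz.rtT Cz.tz Cz.tw) Cz.tz124 = true := by decide +kernel

theorem ytz124 : DT.all (symY Cz.tz) Cz.tz124 = true := by decide +kernel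

theorem rtz125 : DT.all (regH PT.gp PT.gm spT PT.ps Cz.rtT Cz.tz Cz.tw) Cz.tz125 = true := by decide +kernel

theorem ytz125 : DT.all (symY Cz.tz) Cz.tz125 = true := by decide +kernel

theorem rtz126 : DT.all (regH PT.gp PT.gm spT PT.ps Cz.rtT Cz.tz Cz.tw) Cz.tz126 = true := by decide +kernel

theorem ytz126 : DT.all (symY Cz.tz) Cz.tz126 = true := by decide +kernel

theorem rtz127 : DT.all (regH PT.gp PT.gm spT PT.ps Cz.rtT Cz.tz Cz.tw) Cz.tz127 = true := by decide +kernel

theorem ytz127 : DT.all (symY Cz.tz) Cz.tz127 = true := by decide +kernel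


end Pool.Agent.Lib.MP_5854e1_co.Cz

namespace Pool.Agent.Lib.MP_5854e1_co.Cz

open Pool.Agent.Lib.MP_5854e1_co PB

theorem rtz134 : DT.all (regH PT.gp PT.gm spT PT.ps Cz.rtT Cz.tz Cz.tw) Cz.tz134 = true := by decide +kernel

theorem ytz134 : DT.all (symY Cz.tz) Cz.tz134 = true := by decide +kernel

theorem rtz135 : DT.all (regH PT.gp PT.gm spT PT.ps Cz.rtT Cz.tz Cz.tw) Cz.tz135 = true := by decide +kernel

theorem ytz135 : DT.all (symY Cz.tz) Cz.tz135 = true := by decide +kernel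

theorem rtz136 : DT.all (regH PT.gp PT.gm spT PT.ps Cz.rtT Cz.tz Cz.tw) Cz.tz136 = true := by decide +kernel

theorem ytz136 : DT.all (symY Cz.tz) Cz.tz136 = true := by decide +kernel

theorem rtz137 : DT.all (regH PT.gp PT.gm spT PT.ps Cz.rtT Cz.tz Cz.tw) Cz.tz137 = true := by decide +kernel

theorem ytz137 : DT.all (symY Cz.tz) Cz.tz137 = true := by decide +kernel

theorem rtz138 : DT.all (regH PT.gp PT.gm spT PT.ps Cz.rtT Cz.tz Cz.tw) Cz.tz138 = true := by decide +kernel

theorem ytz138 : DT.all (symY Cz.tz) Cz.tz138 = true := by decide +kernel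

theorem rtz139 : DT.all (regH PT.gp PT.gm spT PT.ps Cz.rtT Cz.tz Cz.tw) Cz.tz139 = true := by decide +kernel

theorem ytz139 : DT.all (symY Cz.tz) Cz.tz139 = true := by decide +kernel


end Pool.Agent.Lib.MP_5854e1_co.Cz
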