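import Pool.Agent.Lib.MP_5854e1_co.Cz.P

/-!
# The regions of strips
-/

set_option autoImplicit false
set_option maxRecDepth 100000
set_option deprecated.oldSectionVars true

namespace Pool.Agent.Lib.MP_5854e1_co.Cz

open Pool.Agent.Lib.MP_5854e1_co PB

theorem rtz79 : DT.all (regH PT.gp PT.gm spT PT.ps Cz.rtT Cz.tz Cz.tw) Cz.tz79 = true := by decide +kernel

theorem ytz79 : DT.all (symY Cz.tz) Cz.tz79 = true := by decide +kernel

theorem rtz80 : DT.all (regH PT.gp PT.gm spT PT.ps Cz.rtT Cz.tz Cz.tw) Cz.tz80 = true := by decide +kernel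

theorem ytz80 : DT.all (symY Cz.tz) Cz.tz80 = true := by decide +kernel

theorem rtz81 : DT.all (regH PT.gp PT.gm spT PT.ps Cz.rtT Cz.tz Cz.tw) Cz.tz81 = true := by decide +kernel

theorem ytz81 : DT.all (symY Cz.tz) Cz.tz81 = true := by decide +kernel

theorem rtz82 : DT.all (regH PT.gp PT.gm spT PT.ps Cz.rtT Cz.tz Cz.tw) Cz.tz82 = true := by decide +kernel

theorem ytz82 : DT.all (symY Cz.tz) Cz.tz82 = true := by decide +kernel

theorem rtz83 : DT.all (regH PT.gp PT.gm spT PT.ps Cz.rtT Cz.tz Cz.tw) Cz.tz83 = true := by decide +kernel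

theorem ytz83 : DT.all (symY Cz.tz) Cz.tz83 = true := by decide +kernel

theorem rtz84 : DT.all (regH PT.gp PT.gm spT PT.ps Cz.rtT Cz.tz Cz.tw) Cz.tz84 = true := by decide +kernel

theorem ytz84 : DT.all (symY Cz.tz) Cz.tz84 = true := by decide +kernel


end Pool.Agent.Lib.MP_5854e1_co.Cz

namespace Pool.Agent.Lib.MP_5854e1_co.Cz

open Pool.Agent.Lib.MP_5854e1_co PB

theorem rtz85 : DT.all (regH PT.gp PT.gm spT PT.ps Cz.rtT Cz.tz Cz.tw) Cz.tz85 = true := by decide +kernel

theorem ytz85 : DT.all (symY Cz.tz) Cz.tz85 = true := by decide +kernel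

theorem rtz86 : DT.all (regH PT.gp PT.gm spT PT.ps Cz.rtT Cz.tz Cz.tw) Cz.tz86 = true := by decide +kernel

theorem ytz86 : DT.all (symY Cz.tz) Cz.tz86 = true := by decide +kernel

theorem rtz87 : DT.all (regH PT.gp PT.gm spT PT.ps Cz.rtT Cz.tz Cz.tw) Cz.tz87 = true := by decide +kernel

theorem ytz87 : DT.all (symY Cz.tz) Cz.tz87 = true := by decide +kernel

theorem rtz88 : DT.all (regH PT.gp PT.gm spT PT.ps Cz.rtT Cz.tz Cz.tw) Cz.tz88 = true := by decide +kernel

theorem ytz88 : DT.all (symY Cz.tz) Cz.tz88 = true := by decide +kernel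

theorem rtz89 : DT.all (regH PT.gp PT.gm spT PT.ps Cz.rtT Cz.tz Cz.tw) Cz.tz89 = true := by decide +kernel

theorem ytz89 : DT.all (symY Cz.tz) Cz.tz89 = true := by decide +kernel

theorem rtz90 : DT.all (regH PT.gp PT.gm spT PT.ps Cz.rtT Cz.tz Cz.tw) Cz.tz90 = true := by decide +kernel

theorem ytz90 : DT.all (symY Cz.tz) Cz.tz90 = true := by decide +kernel


end Pool.Agent.Lib.MP_5854e1_co.Cz

namespace Pool.Agent.Lib.MP_5854e1_co.Cz

open Pool.Agent.Lib.MP_5854e1_co PB

theorem rtz200 : DT.all (regH PT.gp PT.gm spT PT.ps Cz.rtT Cz.tz Cz.tw) Cz.tz200 = true := by decide +kernel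

theorem ytz200 : DT.all (symY Cz.tz) Cz.tz200 = true := by decide +kernel

theorem rtz201 : DT.all (regH PT.gp PT.gm spT PT.ps Cz.rtT Cz.tz Cz.tw) Cz.tz201 = true := by decide +kernel

theorem ytz201 : DT.all (symY Cz.tz) Cz.tz201 = true := by decide +kernel

theorem rtz202 : DT.all (regH PT.gp PT.gm spT PT.ps Cz.rtT Cz.tz Cz.tw) Cz.tz202 = true := by decide +kernel

theorem ytz202 : DT.all (symY Cz.tz) Cz.tz202 = true := by decide +kernel

theorem rtz203 : DT.all (regH PT.gp PT.gm spT PT.ps Cz.rtT Cz.tz Cz.tw) Cz.tz203 = true := by decide +kernel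

theorem ytz203 : DT.all (symY Cz.tz) Cz.tz203 = true := by decide +kernel

theorem rtz204 : DT.all (regH PT.gp PT.gm spT PT.ps Cz.rtT Cz.tz Cz.tw) Cz.tz204 = true := by decide +kernel

theorem ytz204 : DT.all (symY Cz.tz) Cz.tz204 = true := by decide +kernel

theorem rtz205 : DT.all (regH PT.gp PT.gm spT PT.ps Cz.rtT Cz.tz Cz.tw) Cz.tz205 = true := by decide +kernel

theorem ytz205 : DT.all (symY Cz.tz) Cz.tz205 = true := by decide +kernel


end Pool.Agent.Lib.MP_5854e1_co.Cz
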