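import Pool.Agent.Lib.MP_5854e1_co.Cz.P

/-!
# The regions of strips
-/

set_option autoImplicit false
set_option maxRecDepth 100000
set_option deprecated.oldSectionVars true

namespace Pool.Agent.Lib.MP_5854e1_co.Cz

open Pool.Agent.Lib.MP_5854e1_co PB

theorem rtz91 : DT.all (regH PT.gp PT.gm spT PT.ps Cz.rtT Cz.tz Cz.tw) Cz.tz91 = true := by decide +kernel

theorem ytz91 : DT.all (symY Cz.tz) Cz.tz91 = true := by decide +kernel

theorem rtz92 : DT.all (regH PT.gp PT.gm spT PT.ps Cz.rtT Cz.tz Cz.tw) Cz.tz92 = true := by decide +kernel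

theorem ytz92 : DT.all (symY Cz.tz) Cz.tz92 = true := by decide +kernel

theorem rtz93 : DT.all (regH PT.gp PT.gm spT PT.ps Cz.rtT Cz.tz Cz.tw) Cz.tz93 = true := by decide +kernel

theorem ytz93 : DT.all (symY Cz.tz) Cz.tz93 = true := by decide +kernel

theorem rtz94 : DT.all (regH PT.gp PT.gm spT PT.ps Cz.rtT Cz.tz Cz.tw) Cz.tz94 = true := by decide +kernel

theorem ytz94 : DT.all (symY Cz.tz) Cz.tz94 = true := by decide +kernel

theorem rtz95 : DT.all (regH PT.gp PT.gm spT PT.ps Cz.rtT Cz.tz Cz.tw) Cz.tz95 = true := by decide +kernel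

theorem ytz95 : DT.all (symY Cz.tz) Cz.tz95 = true := by decide +kernel

theorem rtz96 : DT.all (regH PT.gp PT.gm spT PT.ps Cz.rtT Cz.tz Cz.tw) Cz.tz96 = true := by decide +kernel

theorem ytz96 : DT.all (symY Cz.tz) Cz.tz96 = true := by decide +kernel


end Pool.Agent.Lib.MP_5854e1_co.Cz

namespace Pool.Agent.Lib.MP_5854e1_co.Cz

open Pool.Agent.Lib.MP_5854e1_co PB

theorem rtz242 : DT.all (regH PT.gp PT.gm spT PT.ps Cz.rtT Cz.tz Cz.tw) Cz.tz242 = true := by decide +kernel

theorem ytz242 : DT.all (symY Cz.tz) Cz.tz242 = true := by decide +kernel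

theorem rtz243 : DT.all (regH PT.gp PT.gm spT PT.ps Cz.rtT Cz.tz Cz.tw) Cz.tz243 = true := by decide +kernel

theorem ytz243 : DT.all (symY Cz.tz) Cz.tz243 = true := by decide +kernel

theorem rtz244 : DT.all (regH PT.gp PT.gm spT PT.ps Cz.rtT Cz.tz Cz.tw) Cz.tz244 = true := by decide +kernel

theorem ytz244 : DT.all (symY Cz.tz) Cz.tz244 = true := by decide +kernel

theorem rtz245 : DT.all (regH PT.gp PT.gm spT PT.ps Cz.rtT Cz.tz Cz.tw) Cz.tz245 = true := by decide +kernel

theorem ytz245 : DT.all (symY Cz.tz) Cz.tz245 = true := by decide +kernel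

theorem rtz246 : DT.all (regH PT.gp PT.gm spT PT.ps Cz.rtT Cz.tz Cz.tw) Cz.tz246 = true := by decide +kernel

theorem ytz246 : DT.all (symY Cz.tz) Cz.tz246 = true := by decide +kernel

theorem rtz247 : DT.all (regH PT.gp PT.gm spT PT.ps Cz.rtT Cz.tz Cz.tw) Cz.tz247 = true := by decide +kernel

theorem ytz247 : DT.all (symY Cz.tz) Cz.tz247 = true := by decide +kernel


end Pool.Agent.Lib.MP_5854e1_co.Cz

namespace Pool.Agent.Lib.MP_5854e1_co.Cz

open Pool.Agent.Lib.MP_5854e1_co PB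

theorem rtz248 : DT.all (regH PT.gp PT.gm spT PT.ps Cz.rtT Cz.tz Cz.tw) Cz.tz248 = true := by decide +kernel

theorem ytz248 : DT.all (symY Cz.tz) Cz.tz248 = true := by decide +kernel

theorem rtz249 : DT.all (regH PT.gp PT.gm spT PT.ps Cz.rtT Cz.tz Cz.tw) Cz.tz249 = true := by decide +kernel

theorem ytz249 : DT.all (symY Cz.tz) Cz.tz249 = true := by decide +kernel

theorem rtz250 : DT.all (regH PT.gp PT.gm spT PT.ps Cz.rtT Cz.tz Cz.tw) Cz.tz250 = true := by decide +kernel

theorem ytz250 : DT.all (symY Cz.tz) Cz.tz250 = true := by decide +kernel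

theorem rtz251 : DT.all (regH PT.gp PT.gm spT PT.ps Cz.rtT Cz.tz Cz.tw) Cz.tz251 = true := by decide +kernel

theorem ytz251 : DT.all (symY Cz.tz) Cz.tz251 = true := by decide +kernel

theorem rtz252 : DT.all (regH PT.gp PT.gm spT PT.ps Cz.rtT Cz.tz Cz.tw) Cz.tz252 = true := by decide +kernel

theorem ytz252 : DT.all (symY Cz.tz) Cz.tz252 = true := by decide +kernel

theorem rtz253 : DT.all (regH PT.gp PT.gm spT PT.ps Cz.rtT Cz.tz Cz.tw) Cz.tz253 = true := by decide +kernel

theorem ytz253 : DT.all (symY Cz.tz) Cz.tz253 = true := by decide +kernel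


end Pool.Agent.Lib.MP_5854e1_co.Cz
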