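import Pool.Agent.Lib.MP_5854e1_co.Cz.P

/-!
# The regions of strips
-/

set_option autoImplicit false
set_option maxRecDepth 100000
set_option deprecated.oldSectionVars true

namespace Pool.Agent.Lib.MP_5854e1_co.Cz

open Pool.Agent.Lib.MP_5854e1_co PB

theorem rtz128 : DT.all (regH PT.gp PT.gm spT PT.ps Cz.rtT Cz.tz Cz.tw) Cz.tz128 = true := by decide +kernel

theorem ytz128 : DT.all (symY Cz.tz) Cz.tz128 = true := by decide +kernel

theorem rtz129 : DT.all (regH PT.gp PT.gm spT PT.ps Cz.rtT Cz.tz Cz.tw) Cz.tz129 = true := by decide +kernel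

theorem ytz129 : DT.all (symY Cz.tz) Cz.tz129 = true := by decide +kernel

theorem rtz130 : DT.all (regH PT.gp PT.gm spT PT.ps Cz.rtT Cz.tz Cz.tw) Cz.tz130 = true := by decide +kernel

theorem ytz130 : DT.all (symY Cz.tz) Cz.tz130 = true := by decide +kernel

theorem rtz131 : DT.all (regH PT.gp PT.gm spT PT.ps Cz.rtT Cz.tz Cz.tw) Cz.tz131 = true := by decide +kernel

theorem ytz131 : DT.all (symY Cz.tz) Cz.tz131 = true := by decide +kernel

theorem rtz132 : DT.all (regH PT.gp PT.gm spT PT.ps Cz.rtT Cz.tz Cz.tw) Cz.tz132 = true := by decide +kernel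

theorem ytz132 : DT.all (symY Cz.tz) Cz.tz132 = true := by decide +kernel

theorem rtz133 : DT.all (regH PT.gp PT.gm spT PT.ps Cz.rtT Cz.tz Cz.tw) Cz.tz133 = true := by decide +kernel

theorem ytz133 : DT.all (symY Cz.tz) Cz.tz133 = true := by decide +kernel


end Pool.Agent.Lib.MP_5854e1_co.Cz

namespace Pool.Agent.Lib.MP_5854e1_co.Cz

open Pool.Agent.Lib.MP_5854e1_co PB

theorem rtz206 : DT.all (regH PT.gp PT.gm spT PT.ps Cz.rtT Cz.tz Cz.tw) Cz.tz206 = true := by decide +kernel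

theorem ytz206 : DT.all (symY Cz.tz) Cz.tz206 = true := by decide +kernel

theorem rtz207 : DT.all (regH PT.gp PT.gm spT PT.ps Cz.rtT Cz.tz Cz.tw) Cz.tz207 = true := by decide +kernel

theorem ytz207 : DT.all (symY Cz.tz) Cz.tz207 = true := by decide +kernel

theorem rtz208 : DT.all (regH PT.gp PT.gm spT PT.ps Cz.rtT Cz.tz Cz.tw) Cz.tz208 = true := by decide +kernel

theorem ytz208 : DT.all (symY Cz.tz) Cz.tz208 = true := by decide +kernel

theorem rtz209 : DT.all (regH PT.gp PT.gm spT PT.ps Cz.rtT Cz.tz Cz.tw) Cz.tz209 = true := by decide +kernel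

theorem ytz209 : DT.all (symY Cz.tz) Cz.tz209 = true := by decide +kernel

theorem rtz210 : DT.all (regH PT.gp PT.gm spT PT.ps Cz.rtT Cz.tz Cz.tw) Cz.tz210 = true := by decide +kernel

theorem ytz210 : DT.all (symY Cz.tz) Cz.tz210 = true := by decide +kernel

theorem rtz211 : DT.all (regH PT.gp PT.gm spT PT.ps Cz.rtT Cz.tz Cz.tw) Cz.tz211 = true := by decide +kernel

theorem ytz211 : DT.all (symY Cz.tz) Cz.tz211 = true := by decide +kernel


end Pool.Agent.Lib.MP_5854e1_co.Cz

namespace Pool.Agent.Lib.MP_5854e1_co.Cz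

open Pool.Agent.Lib.MP_5854e1_co PB

theorem rtz224 : DT.all (regH PT.gp PT.gm spT PT.ps Cz.rtT Cz.tz Cz.tw) Cz.tz224 = true := by decide +kernel

theorem ytz224 : DT.all (symY Cz.tz) Cz.tz224 = true := by decide +kernel

theorem rtz225 : DT.all (regH PT.gp PT.gm spT PT.ps Cz.rtT Cz.tz Cz.tw) Cz.tz225 = true := by decide +kernel

theorem ytz225 : DT.all (symY Cz.tz) Cz.tz225 = true := by decide +kernel

theorem rtz226 : DT.all (regH PT.gp PT.gm spT PT.ps Cz.rtT Cz.tz Cz.tw) Cz.tz226 = true := by decide +kernel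

theorem ytz226 : DT.all (symY Cz.tz) Cz.tz226 = true := by decide +kernel

theorem rtz227 : DT.all (regH PT.gp PT.gm spT PT.ps Cz.rtT Cz.tz Cz.tw) Cz.tz227 = true := by decide +kernel

theorem ytz227 : DT.all (symY Cz.tz) Cz.tz227 = true := by decide +kernel

theorem rtz228 : DT.all (regH PT.gp PT.gm spT PT.ps Cz.rtT Cz.tz Cz.tw) Cz.tz228 = true := by decide +kernel

theorem ytz228 : DT.all (symY Cz.tz) Cz.tz228 = true := by decide +kernel

theorem rtz229 : DT.all (regH PT.gp PT.gm spT PT.ps Cz.rtT Cz.tz Cz.tw) Cz.tz229 = true := by decide +kernel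

theorem ytz229 : DT.all (symY Cz.tz) Cz.tz229 = true := by decide +kernel


end Pool.Agent.Lib.MP_5854e1_co.Cz
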