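import Pool.Agent.Lib.MP_5854e1_co.Cz.P

/-!
# The regions of strips
-/

set_option autoImplicit false
set_option maxRecDepth 100000
set_option deprecated.oldSectionVars true

namespace Pool.Agent.Lib.MP_5854e1_co.Cz

open Pool.Agent.Lib.MP_5854e1_co PB

theorem rtz182 : DT.all (regH PT.gp PT.gm spT PT.ps Cz.rtT Cz.tz Cz.tw) Cz.tz182 = true := by decide +kernel

theorem ytz182 : DT.all (symY Cz.tz) Cz.tz182 = true := by decide +kernel

theorem rtz183 : DT.all (regH PT.gp PT.gm spT PT.ps Cz.rtT Cz.tz Cz.tw) Cz.tz183 = true := by decide +kernel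

theorem ytz183 : DT.all (symY Cz.tz) Cz.tz183 = true := by decide +kernel

theorem rtz184 : DT.all (regH PT.gp PT.gm spT PT.ps Cz.rtT Cz.tz Cz.tw) Cz.tz184 = true := by decide +kernel

theorem ytz184 : DT.all (symY Cz.tz) Cz.tz184 = true := by decide +kernel

theorem rtz185 : DT.all (regH PT.gp PT.gm spT PT.ps Cz.rtT Cz.tz Cz.tw) Cz.tz185 = true := by decide +kernel

theorem ytz185 : DT.all (symY Cz.tz) Cz.tz185 = true := by decide +kernel

theorem rtz186 : DT.all (regH PT.gp PT.gm spT PT.ps Cz.rtT Cz.tz Cz.tw) Cz.tz186 = true := by decide +kernel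

theorem ytz186 : DT.all (symY Cz.tz) Cz.tz186 = true := by decide +kernel

theorem rtz187 : DT.all (regH PT.gp PT.gm spT PT.ps Cz.rtT Cz.tz Cz.tw) Cz.tz187 = true := by decide +kernel

theorem ytz187 : DT.all (symY Cz.tz) Cz.tz187 = true := by decide +kernel


end Pool.Agent.Lib.MP_5854e1_co.Cz

namespace Pool.Agent.Lib.MP_5854e1_co.Cz

open Pool.Agent.Lib.MP_5854e1_co PB

theorem rtz188 : DT.all (regH PT.gp PT.gm spT PT.ps Cz.rtT Cz.tz Cz.tw) Cz.tz188 = true := by decide +kernel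

theorem ytz188 : DT.all (symY Cz.tz) Cz.tz188 = true := by decide +kernel

theorem rtz189 : DT.all (regH PT.gp PT.gm spT PT.ps Cz.rtT Cz.tz Cz.tw) Cz.tz189 = true := by decide +kernel

theorem ytz189 : DT.all (symY Cz.tz) Cz.tz189 = true := by decide +kernel

theorem rtz190 : DT.all (regH PT.gp PT.gm spT PT.ps Cz.rtT Cz.tz Cz.tw) Cz.tz190 = true := by decide +kernel

theorem ytz190 : DT.all (symY Cz.tz) Cz.tz190 = true := by decide +kernel

theorem rtz191 : DT.all (regH PT.gp PT.gm spT PT.ps Cz.rtT Cz.tz Cz.tw) Cz.tz191 = true := by decide +kernel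

theorem ytz191 : DT.all (symY Cz.tz) Cz.tz191 = true := by decide +kernel

theorem rtz192 : DT.all (regH PT.gp PT.gm spT PT.ps Cz.rtT Cz.tz Cz.tw) Cz.tz192 = true := by decide +kernel

theorem ytz192 : DT.all (symY Cz.tz) Cz.tz192 = true := by decide +kernel

theorem rtz193 : DT.all (regH PT.gp PT.gm spT PT.ps Cz.rtT Cz.tz Cz.tw) Cz.tz193 = true := by decide +kernel

theorem ytz193 : DT.all (symY Cz.tz) Cz.tz193 = true := by decide +kernel


end Pool.Agent.Lib.MP_5854e1_co.Cz

namespace Pool.Agent.Lib.MP_5854e1_co.Cz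

open Pool.Agent.Lib.MP_5854e1_co PB

theorem rtz212 : DT.all (regH PT.gp PT.gm spT PT.ps Cz.rtT Cz.tz Cz.tw) Cz.tz212 = true := by decide +kernel

theorem ytz212 : DT.all (symY Cz.tz) Cz.tz212 = true := by decide +kernel

theorem rtz213 : DT.all (regH PT.gp PT.gm spT PT.ps Cz.rtT Cz.tz Cz.tw) Cz.tz213 = true := by decide +kernel

theorem ytz213 : DT.all (symY Cz.tz) Cz.tz213 = true := by decide +kernel

theorem rtz214 : DT.all (regH PT.gp PT.gm spT PT.ps Cz.rtT Cz.tz Cz.tw) Cz.tz214 = true := by decide +kernel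

theorem ytz214 : DT.all (symY Cz.tz) Cz.tz214 = true := by decide +kernel

theorem rtz215 : DT.all (regH PT.gp PT.gm spT PT.ps Cz.rtT Cz.tz Cz.tw) Cz.tz215 = true := by decide +kernel

theorem ytz215 : DT.all (symY Cz.tz) Cz.tz215 = true := by decide +kernel

theorem rtz216 : DT.all (regH PT.gp PT.gm spT PT.ps Cz.rtT Cz.tz Cz.tw) Cz.tz216 = true := by decide +kernel

theorem ytz216 : DT.all (symY Cz.tz) Cz.tz216 = true := by decide +kernel

theorem rtz217 : DT.all (regH PT.gp PT.gm spT PT.ps Cz.rtT Cz.tz Cz.tw) Cz.tz217 = true := by decide +kernel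

theorem ytz217 : DT.all (symY Cz.tz) Cz.tz217 = true := by decide +kernel


end Pool.Agent.Lib.MP_5854e1_co.Cz
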