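import Pool.Agent.Lib.MP_5854e1_co.Cz.P
import Pool.Agent.Lib.MP_5854e1_co.Tkx
import Pool.Agent.Lib.MP_5854e1_co.RunAll

/-!
# Search, part 0
-/

set_option autoImplicit false
set_option deprecated.oldSectionVars true
set_option maxRecDepth 100000

namespace Pool.Agent.Lib.MP_5854e1_co.Cz.Sr000

open PB

theorem t0 : runX PT.R (Wk.frw PT.R) nl RvT (SMap.evl cT tlT PT.vx ringF) [
  .mk 0 0 0 [],
  .mk 0 1 7 [],
  .mk 0 2 11 [],
  .mk 0 3 12 [],
  .mk 0 4 13 [],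
  .mk 0 5 14 [],
  .mk 0 6 15 [],
  .mk 0 7 17 [],
  .mk 0 8 18 [],
  .mk 0 9 19 [],
  .mk 0 19 39 [],
  .mk 0 20 40 [],
  .mk 0 21 41 [0x7]] = true := by
  decide +kernel

theorem t1 : runX PT.R (Wk.frw PT.R) nl RvT (SMap.evl cT tlT PT.vx ringF) [
  .mk 0 21 41 [0x8]] = true := by
  decide +kernel

theorem t2 : runX PT.R (Wk.frw PT.R) nl RvT (SMap.evl cT tlT PT.vx ringF) [
  .mk 0 21 41 [0xfffffdff0]] = true := by
  decide +kernel

theorem t3 : runX PT.R (Wk.frw PT.R) nl RvT (SMap.evl cT tlT PT.vx ringF) [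
  .mk 0 21 41 [0x2000, 0x1fa7b3]] = true := by
  decide +kernel

theorem t4 : runX PT.R (Wk.frw PT.R) nl RvT (SMap.evl cT tlT PT.vx ringF) [
  .mk 0 21 41 [0x2000, 0xfe0584c],
  .mk 0 22 42 []] = true := by
  decide +kernel

/-- The tasks. -/
noncomputable def P : List (List Tk) := [
[
  .mk 0 0 0 [],
  .mk 0 1 7 [],
  .mk 0 2 11 [],
  .mk 0 3 12 [],
  .mk 0 4 13 [],
  .mk 0 5 14 [],
  .mk 0 6 15 [],
  .mk 0 7 17 [],
  .mk 0 8 18 [],
  .mk 0 9 19 [],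
  .mk 0 19 39 [],
  .mk 0 20 40 [],
  .mk 0 21 41 [0x7]],
[
  .mk 0 21 41 [0x8]],
[
  .mk 0 21 41 [0xfffffdff0]],
[
  .mk 0 21 41 [0x2000, 0x1fa7b3]],
[
  .mk 0 21 41 [0x2000, 0xfe0584c],
  .mk 0 22 42 []]]

theorem run : RunAll (runX PT.R (Wk.frw PT.R) nl RvT (SMap.evl cT tlT PT.vx ringF)) P :=
  .cons t0 (.cons t1 (.cons t2 (.cons t3 (.cons t4 (.nil)))))

end Pool.Agent.Lib.MP_5854e1_co.Cz.Sr000

namespace Pool.Agent.Lib.MP_5854e1_co.Cz.Sr049

open PB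

theorem t0 : runX PT.R (Wk.frw PT.R) nl RvT (SMap.evl cT tlT PT.vx ringF) [
  .mk 0 111 44 [0x100, 0x1000, 0x1000000001]] = true := by
  decide +kernel

theorem t1 : runX PT.R (Wk.frw PT.R) nl RvT (SMap.evl cT tlT PT.vx ringF) [
  .mk 0 111 44 [0x100, 0x1000, 0x3fe000000000]] = true := by
  decide +kernel

theorem t2 : runX PT.R (Wk.frw PT.R) nl RvT (SMap.evl cT tlT PT.vx ringF) [
  .mk 0 111 44 [0x100, 0x1000, 0xfffffffffffffffffffffffffffffffffffffffffffffffffffffffffffc00ffffffffe],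
  .mk 0 111 44 [0x400000, 0x7bf]] = true := by
  decide +kernel

theorem t3 : runX PT.R (Wk.frw PT.R) nl RvT (SMap.evl cT tlT PT.vx ringF) [
  .mk 0 111 44 [0x400000, 0x7f840]] = true := by
  decide +kernel

theorem t4 : runX PT.R (Wk.frw PT.R) nl RvT (SMap.evl cT tlT PT.vx ringF) [
  .mk 0 112 45 [0x7]] = true := by
  decide +kernel

/-- The tasks. -/
noncomputable def P : List (List Tk) := [
[
  .mk 0 111 44 [0x100, 0x1000, 0x1000000001]],
[
  .mk 0 111 44 [0x100, 0x1000, 0x3fe000000000]],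
[
  .mk 0 111 44 [0x100, 0x1000, 0xfffffffffffffffffffffffffffffffffffffffffffffffffffffffffffc00ffffffffe],
  .mk 0 111 44 [0x400000, 0x7bf]],
[
  .mk 0 111 44 [0x400000, 0x7f840]],
[
  .mk 0 112 45 [0x7]]]

theorem run : RunAll (runX PT.R (Wk.frw PT.R) nl RvT (SMap.evl cT tlT PT.vx ringF)) P :=
  .cons t0 (.cons t1 (.cons t2 (.cons t3 (.cons t4 (.nil)))))

end Pool.Agent.Lib.MP_5854e1_co.Cz.Sr049

namespace Pool.Agent.Lib.MP_5854e1_co.Cz.Sr315

open PB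

theorem t0 : runX PT.R (Wk.frw PT.R) nl RvT (SMap.evl cT tlT PT.vx ringF) [
  .mk 15 23 63 [0x200, 0x1af]] = true := by
  decide +kernel

theorem t1 : runX PT.R (Wk.frw PT.R) nl RvT (SMap.evl cT tlT PT.vx ringF) [
  .mk 15 23 63 [0x200, 0xe00]] = true := by
  decide +kernel

theorem t2 : runX PT.R (Wk.frw PT.R) nl RvT (SMap.evl cT tlT PT.vx ringF) [
  .mk 15 23 63 [0x200, 0x3f000]] = true := by
  decide +kernel

theorem t3 : runX PT.R (Wk.frw PT.R) nl RvT (SMap.evl cT tlT PT.vx ringF) [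
  .mk 15 23 63 [0x200, 0xffffc0050],
  .mk 15 24 64 [],
  .mk 15 25 65 [],
  .mk 15 26 66 [],
  .mk 15 27 67 [],
  .mk 15 28 68 [],
  .mk 15 29 69 [],
  .mk 15 30 70 [],
  .mk 15 31 71 [],
  .mk 15 32 72 [],
  .mk 15 33 73 [],
  .mk 15 34 74 [],
  .mk 15 35 75 [],
  .mk 15 36 76 [],
  .mk 15 37 77 [],
  .mk 15 38 78 [],
  .mk 15 39 79 [],
  .mk 15 40 80 [],
  .mk 15 41 81 [],
  .mk 15 42 82 [],
  .mk 15 43 83 [],
  .mk 15 44 84 [],
  .mk 15 45 85 [],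
  .mk 15 46 86 []] = true := by
  decide +kernel

theorem t4 : runX PT.R (Wk.frw PT.R) nl RvT (SMap.evl cT tlT PT.vx ringF) [
  .mk 15 47 87 [0x30000000]] = true := by
  decide +kernel

theorem t5 : runX PT.R (Wk.frw PT.R) nl RvT (SMap.evl cT tlT PT.vx ringF) [
  .mk 15 47 87 [0xfcfffffff]] = true := by
  decide +kernel

/-- The tasks. -/
noncomputable def P : List (List Tk) := [
[
  .mk 15 23 63 [0x200, 0x1af]],
[
  .mk 15 23 63 [0x200, 0xe00]],
[
  .mk 15 23 63 [0x200, 0x3f000]],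
[
  .mk 15 23 63 [0x200, 0xffffc0050],
  .mk 15 24 64 [],
  .mk 15 25 65 [],
  .mk 15 26 66 [],
  .mk 15 27 67 [],
  .mk 15 28 68 [],
  .mk 15 29 69 [],
  .mk 15 30 70 [],
  .mk 15 31 71 [],
  .mk 15 32 72 [],
  .mk 15 33 73 [],
  .mk 15 34 74 [],
  .mk 15 35 75 [],
  .mk 15 36 76 [],
  .mk 15 37 77 [],
  .mk 15 38 78 [],
  .mk 15 39 79 [],
  .mk 15 40 80 [],
  .mk 15 41 81 [],
  .mk 15 42 82 [],
  .mk 15 43 83 [],
  .mk 15 44 84 [],
  .mk 15 45 85 [],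
  .mk 15 46 86 []],
[
  .mk 15 47 87 [0x30000000]],
[
  .mk 15 47 87 [0xfcfffffff]]]

theorem run : RunAll (runX PT.R (Wk.frw PT.R) nl RvT (SMap.evl cT tlT PT.vx ringF)) P :=
  .cons t0 (.cons t1 (.cons t2 (.cons t3 (.cons t4 (.cons t5 (.nil))))))

end Pool.Agent.Lib.MP_5854e1_co.Cz.Sr315

namespace Pool.Agent.Lib.MP_5854e1_co.Cz.Sr377

open PB

theorem t0 : runX PT.R (Wk.frw PT.R) nl RvT (SMap.evl cT tlT PT.vx ringF) [
  .mk 41 3 12 [0x20000000, 0x400, 0x1000, 0x1, 0x400000000000000000000000000000000000000000000000000000000000000000000000000000000000000000000000, 0xffffffffffffffffffffffffffffffffffffffffffffffffffffffffffffffffffffffffffffffffffffffffffffffffffffffff]] = true := by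
  decide +kernel

/-- The tasks. -/
noncomputable def P : List (List Tk) := [
[
  .mk 41 3 12 [0x20000000, 0x400, 0x1000, 0x1, 0x400000000000000000000000000000000000000000000000000000000000000000000000000000000000000000000000, 0xffffffffffffffffffffffffffffffffffffffffffffffffffffffffffffffffffffffffffffffffffffffffffffffffffffffff]]]

theorem run : RunAll (runX PT.R (Wk.frw PT.R) nl RvT (SMap.evl cT tlT PT.vx ringF)) P :=
  .cons t0 (.nil)

end Pool.Agent.Lib.MP_5854e1_co.Cz.Sr377
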