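import Pool.Agent.Lib.MP_5854e1_co.Cz.P
import Pool.Agent.Lib.MP_5854e1_co.Tkx
import Pool.Agent.Lib.MP_5854e1_co.RunAll

/-!
# Search, part 1
-/

set_option autoImplicit false
set_option deprecated.oldSectionVars true
set_option maxRecDepth 100000

namespace Pool.Agent.Lib.MP_5854e1_co.Cz.Sr001

open PB

theorem t0 : runX PT.R (Wk.frw PT.R) nl RvT (SMap.evl cT tlT PT.vx ringF) [
  .mk 0 23 43 [0x1bd]] = true := by
  decide +kernel

theorem t1 : runX PT.R (Wk.frw PT.R) nl RvT (SMap.evl cT tlT PT.vx ringF) [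
  .mk 0 23 43 [0x600]] = true := by
  decide +kernel

theorem t2 : runX PT.R (Wk.frw PT.R) nl RvT (SMap.evl cT tlT PT.vx ringF) [
  .mk 0 23 43 [0x800]] = true := by
  decide +kernel

theorem t3 : runX PT.R (Wk.frw PT.R) nl RvT (SMap.evl cT tlT PT.vx ringF) [
  .mk 0 23 43 [0xff000]] = true := by
  decide +kernel

theorem t4 : runX PT.R (Wk.frw PT.R) nl RvT (SMap.evl cT tlT PT.vx ringF) [
  .mk 0 23 43 [0x300000]] = true := by
  decide +kernel

theorem t5 : runX PT.R (Wk.frw PT.R) nl RvT (SMap.evl cT tlT PT.vx ringF) [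
  .mk 0 23 43 [0x400000]] = true := by
  decide +kernel

/-- The tasks. -/
noncomputable def P : List (List Tk) := [
[
  .mk 0 23 43 [0x1bd]],
[
  .mk 0 23 43 [0x600]],
[
  .mk 0 23 43 [0x800]],
[
  .mk 0 23 43 [0xff000]],
[
  .mk 0 23 43 [0x300000]],
[
  .mk 0 23 43 [0x400000]]]

theorem run : RunAll (runX PT.R (Wk.frw PT.R) nl RvT (SMap.evl cT tlT PT.vx ringF)) P :=
  .cons t0 (.cons t1 (.cons t2 (.cons t3 (.cons t4 (.cons t5 (.nil))))))

end Pool.Agent.Lib.MP_5854e1_co.Cz.Sr001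

namespace Pool.Agent.Lib.MP_5854e1_co.Cz.Sr016

open PB

theorem t0 : runX PT.R (Wk.frw PT.R) nl RvT (SMap.evl cT tlT PT.vx ringF) [
  .mk 0 89 9 [0x100, 0x200, 0xfffffffffffffffffffffffffffffffffffffffffffffffffffffffffe3fffffdfffffffffffffffffffffffffffffffd79ffcbe]] = true := by
  decide +kernel

theorem t1 : runX PT.R (Wk.frw PT.R) nl RvT (SMap.evl cT tlT PT.vx ringF) [
  .mk 0 89 9 [0x100, 0x2000, 0x3]] = true := by
  decide +kernel

theorem t2 : runX PT.R (Wk.frw PT.R) nl RvT (SMap.evl cT tlT PT.vx ringF) [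
  .mk 0 89 9 [0x100, 0x2000, 0x3c]] = true := by
  decide +kernel

theorem t3 : runX PT.R (Wk.frw PT.R) nl RvT (SMap.evl cT tlT PT.vx ringF) [
  .mk 0 89 9 [0x100, 0x2000, 0xfffffffc0]] = true := by
  decide +kernel

theorem t4 : runX PT.R (Wk.frw PT.R) nl RvT (SMap.evl cT tlT PT.vx ringF) [
  .mk 0 89 9 [0x100, 0x4000, 0x3]] = true := by
  decide +kernel

theorem t5 : runX PT.R (Wk.frw PT.R) nl RvT (SMap.evl cT tlT PT.vx ringF) [
  .mk 0 89 9 [0x100, 0x4000, 0x3fc]] = true := by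
  decide +kernel

/-- The tasks. -/
noncomputable def P : List (List Tk) := [
[
  .mk 0 89 9 [0x100, 0x200, 0xfffffffffffffffffffffffffffffffffffffffffffffffffffffffffe3fffffdfffffffffffffffffffffffffffffffd79ffcbe]],
[
  .mk 0 89 9 [0x100, 0x2000, 0x3]],
[
  .mk 0 89 9 [0x100, 0x2000, 0x3c]],
[
  .mk 0 89 9 [0x100, 0x2000, 0xfffffffc0]],
[
  .mk 0 89 9 [0x100, 0x4000, 0x3]],
[
  .mk 0 89 9 [0x100, 0x4000, 0x3fc]]]

theorem run : RunAll (runX PT.R (Wk.frw PT.R) nl RvT (SMap.evl cT tlT PT.vx ringF)) P :=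
  .cons t0 (.cons t1 (.cons t2 (.cons t3 (.cons t4 (.cons t5 (.nil))))))

end Pool.Agent.Lib.MP_5854e1_co.Cz.Sr016

namespace Pool.Agent.Lib.MP_5854e1_co.Cz.Sr040

open PB

theorem t0 : runX PT.R (Wk.frw PT.R) nl RvT (SMap.evl cT tlT PT.vx ringF) [
  .mk 0 108 41 [0x200, 0x4, 0x1e8f]] = true := by
  decide +kernel

theorem t1 : runX PT.R (Wk.frw PT.R) nl RvT (SMap.evl cT tlT PT.vx ringF) [
  .mk 0 108 41 [0x200, 0x4, 0x7fe170]] = true := by
  decide +kernel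

theorem t2 : runX PT.R (Wk.frw PT.R) nl RvT (SMap.evl cT tlT PT.vx ringF) [
  .mk 0 108 41 [0x400, 0x3fc0000]] = true := by
  decide +kernel

theorem t3 : runX PT.R (Wk.frw PT.R) nl RvT (SMap.evl cT tlT PT.vx ringF) [
  .mk 0 108 41 [0x400, 0x7fc3c000000]] = true := by
  decide +kernel

theorem t4 : runX PT.R (Wk.frw PT.R) nl RvT (SMap.evl cT tlT PT.vx ringF) [
  .mk 0 108 41 [0x400, 0x3f803c003ffff],
  .mk 0 108 41 [0x800, 0x1c0000]] = true := by
  decide +kernel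

/-- The tasks. -/
noncomputable def P : List (List Tk) := [
[
  .mk 0 108 41 [0x200, 0x4, 0x1e8f]],
[
  .mk 0 108 41 [0x200, 0x4, 0x7fe170]],
[
  .mk 0 108 41 [0x400, 0x3fc0000]],
[
  .mk 0 108 41 [0x400, 0x7fc3c000000]],
[
  .mk 0 108 41 [0x400, 0x3f803c003ffff],
  .mk 0 108 41 [0x800, 0x1c0000]]]

theorem run : RunAll (runX PT.R (Wk.frw PT.R) nl RvT (SMap.evl cT tlT PT.vx ringF)) P :=
  .cons t0 (.cons t1 (.cons t2 (.cons t3 (.cons t4 (.nil)))))

end Pool.Agent.Lib.MP_5854e1_co.Cz.Sr040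

namespace Pool.Agent.Lib.MP_5854e1_co.Cz.Sr555

open PB

theorem t0 : runX PT.R (Wk.frw PT.R) nl RvT (SMap.evl cT tlT PT.vx ringF) [
  .mk 68 13 21 [0x400, 0x10000000, 0x1000, 0x1, 0xfc1f800000000000000000000000000000000000000000000000000000000000000000000000000000000000000000000]] = true := by
  decide +kernel

theorem t1 : runX PT.R (Wk.frw PT.R) nl RvT (SMap.evl cT tlT PT.vx ringF) [
  .mk 68 13 21 [0x400, 0x10000000, 0x1000, 0x1, 0xfffffff03e07ffffffffffffffffffffffffffffffffffffffffffffffffffffffffffffffffffffffffffffffffffffffffffff],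
  .mk 68 13 21 [0x4000, 0xffffffff3]] = true := by
  decide +kernel

theorem t2 : runX PT.R (Wk.frw PT.R) nl RvT (SMap.evl cT tlT PT.vx ringF) [
  .mk 68 13 21 [0x4000, 0x4, 0x68b]] = true := by
  decide +kernel

theorem t3 : runX PT.R (Wk.frw PT.R) nl RvT (SMap.evl cT tlT PT.vx ringF) [
  .mk 68 13 21 [0x4000, 0x4, 0x7ff974]] = true := by
  decide +kernel

theorem t4 : runX PT.R (Wk.frw PT.R) nl RvT (SMap.evl cT tlT PT.vx ringF) [
  .mk 68 13 21 [0x4000, 0x8, 0x7260033]] = true := by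
  decide +kernel

theorem t5 : runX PT.R (Wk.frw PT.R) nl RvT (SMap.evl cT tlT PT.vx ringF) [
  .mk 68 13 21 [0x4000, 0x8, 0x3f8d9ffcc],
  .mk 68 14 22 [0x1f]] = true := by
  decide +kernel

/-- The tasks. -/
noncomputable def P : List (List Tk) := [
[
  .mk 68 13 21 [0x400, 0x10000000, 0x1000, 0x1, 0xfc1f800000000000000000000000000000000000000000000000000000000000000000000000000000000000000000000]],
[
  .mk 68 13 21 [0x400, 0x10000000, 0x1000, 0x1, 0xfffffff03e07ffffffffffffffffffffffffffffffffffffffffffffffffffffffffffffffffffffffffffffffffffffffffffff],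
  .mk 68 13 21 [0x4000, 0xffffffff3]],
[
  .mk 68 13 21 [0x4000, 0x4, 0x68b]],
[
  .mk 68 13 21 [0x4000, 0x4, 0x7ff974]],
[
  .mk 68 13 21 [0x4000, 0x8, 0x7260033]],
[
  .mk 68 13 21 [0x4000, 0x8, 0x3f8d9ffcc],
  .mk 68 14 22 [0x1f]]]

theorem run : RunAll (runX PT.R (Wk.frw PT.R) nl RvT (SMap.evl cT tlT PT.vx ringF)) P :=
  .cons t0 (.cons t1 (.cons t2 (.cons t3 (.cons t4 (.cons t5 (.nil))))))

end Pool.Agent.Lib.MP_5854e1_co.Cz.Sr555
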