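import Pool.Agent.Lib.MP_5854e1_co.Cz.P
import Pool.Agent.Lib.MP_5854e1_co.Tkx
import Pool.Agent.Lib.MP_5854e1_co.RunAll

/-!
# Search, part 2
-/

set_option autoImplicit false
set_option deprecated.oldSectionVars true
set_option maxRecDepth 100000

namespace Pool.Agent.Lib.MP_5854e1_co.Cz.Sr002

open PB

theorem t0 : runX PT.R (Wk.frw PT.R) nl RvT (SMap.evl cT tlT PT.vx ringF) [
  .mk 0 23 43 [0x7800042],
  .mk 0 24 44 [],
  .mk 0 25 45 [],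
  .mk 0 26 46 [],
  .mk 0 27 47 []] = true := by
  decide +kernel

theorem t1 : runX PT.R (Wk.frw PT.R) nl RvT (SMap.evl cT tlT PT.vx ringF) [
  .mk 0 28 48 [0xfaf]] = true := by
  decide +kernel

theorem t2 : runX PT.R (Wk.frw PT.R) nl RvT (SMap.evl cT tlT PT.vx ringF) [
  .mk 0 28 48 [0x3ff000]] = true := by
  decide +kernel

theorem t3 : runX PT.R (Wk.frw PT.R) nl RvT (SMap.evl cT tlT PT.vx ringF) [
  .mk 0 28 48 [0x1c00000]] = true := by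
  decide +kernel

theorem t4 : runX PT.R (Wk.frw PT.R) nl RvT (SMap.evl cT tlT PT.vx ringF) [
  .mk 0 28 48 [0xe000050],
  .mk 0 29 49 [],
  .mk 0 41 61 [],
  .mk 0 42 62 [],
  .mk 0 43 63 [],
  .mk 0 44 64 [],
  .mk 0 47 67 [],
  .mk 0 48 68 [],
  .mk 0 49 69 [],
  .mk 0 52 72 [],
  .mk 0 53 73 [],
  .mk 0 54 74 [],
  .mk 0 56 76 [],
  .mk 0 57 77 [],
  .mk 0 58 78 [],
  .mk 0 59 79 [],
  .mk 0 60 80 [],
  .mk 0 63 83 [],
  .mk 0 64 84 [],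
  .mk 0 65 85 [],
  .mk 0 66 86 [],
  .mk 0 67 87 [],
  .mk 0 68 88 [],
  .mk 0 69 89 [],
  .mk 0 70 90 [],
  .mk 0 71 91 [],
  .mk 0 81 0 [],
  .mk 0 82 1 []] = true := by
  decide +kernel

/-- The tasks. -/
noncomputable def P : List (List Tk) := [
[
  .mk 0 23 43 [0x7800042],
  .mk 0 24 44 [],
  .mk 0 25 45 [],
  .mk 0 26 46 [],
  .mk 0 27 47 []],
[
  .mk 0 28 48 [0xfaf]],
[
  .mk 0 28 48 [0x3ff000]],
[
  .mk 0 28 48 [0x1c00000]],
[
  .mk 0 28 48 [0xe000050],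
  .mk 0 29 49 [],
  .mk 0 41 61 [],
  .mk 0 42 62 [],
  .mk 0 43 63 [],
  .mk 0 44 64 [],
  .mk 0 47 67 [],
  .mk 0 48 68 [],
  .mk 0 49 69 [],
  .mk 0 52 72 [],
  .mk 0 53 73 [],
  .mk 0 54 74 [],
  .mk 0 56 76 [],
  .mk 0 57 77 [],
  .mk 0 58 78 [],
  .mk 0 59 79 [],
  .mk 0 60 80 [],
  .mk 0 63 83 [],
  .mk 0 64 84 [],
  .mk 0 65 85 [],
  .mk 0 66 86 [],
  .mk 0 67 87 [],
  .mk 0 68 88 [],
  .mk 0 69 89 [],
  .mk 0 70 90 [],
  .mk 0 71 91 [],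
  .mk 0 81 0 [],
  .mk 0 82 1 []]]

theorem run : RunAll (runX PT.R (Wk.frw PT.R) nl RvT (SMap.evl cT tlT PT.vx ringF)) P :=
  .cons t0 (.cons t1 (.cons t2 (.cons t3 (.cons t4 (.nil)))))

end Pool.Agent.Lib.MP_5854e1_co.Cz.Sr002

namespace Pool.Agent.Lib.MP_5854e1_co.Cz.Sr135

open PB

theorem t0 : runX PT.R (Wk.frw PT.R) nl RvT (SMap.evl cT tlT PT.vx ringF) [
  .mk 7 23 63 [0x400, 0x3fffff42040b0]] = true := by
  decide +kernel

theorem t1 : runX PT.R (Wk.frw PT.R) nl RvT (SMap.evl cT tlT PT.vx ringF) [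
  .mk 7 23 63 [0x800, 0x3e9ecf]] = true := by
  decide +kernel

theorem t2 : runX PT.R (Wk.frw PT.R) nl RvT (SMap.evl cT tlT PT.vx ringF) [
  .mk 7 23 63 [0x800, 0x7c16130]] = true := by
  decide +kernel

theorem t3 : runX PT.R (Wk.frw PT.R) nl RvT (SMap.evl cT tlT PT.vx ringF) [
  .mk 7 23 63 [0x1000, 0x1f]] = true := by
  decide +kernel

theorem t4 : runX PT.R (Wk.frw PT.R) nl RvT (SMap.evl cT tlT PT.vx ringF) [
  .mk 7 23 63 [0x1000, 0xffffbe0]] = true := by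
  decide +kernel

theorem t5 : runX PT.R (Wk.frw PT.R) nl RvT (SMap.evl cT tlT PT.vx ringF) [
  .mk 7 23 63 [0x1000, 0x400, 0xe8f]] = true := by
  decide +kernel

/-- The tasks. -/
noncomputable def P : List (List Tk) := [
[
  .mk 7 23 63 [0x400, 0x3fffff42040b0]],
[
  .mk 7 23 63 [0x800, 0x3e9ecf]],
[
  .mk 7 23 63 [0x800, 0x7c16130]],
[
  .mk 7 23 63 [0x1000, 0x1f]],
[
  .mk 7 23 63 [0x1000, 0xffffbe0]],
[
  .mk 7 23 63 [0x1000, 0x400, 0xe8f]]]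

theorem run : RunAll (runX PT.R (Wk.frw PT.R) nl RvT (SMap.evl cT tlT PT.vx ringF)) P :=
  .cons t0 (.cons t1 (.cons t2 (.cons t3 (.cons t4 (.cons t5 (.nil))))))

end Pool.Agent.Lib.MP_5854e1_co.Cz.Sr135

namespace Pool.Agent.Lib.MP_5854e1_co.Cz.Sr550

open PB

theorem t0 : runX PT.R (Wk.frw PT.R) nl RvT (SMap.evl cT tlT PT.vx ringF) [
  .mk 68 13 21 [0x400, 0x800000, 0x200, 0x1, 0x200000000000000000000, 0x100000000000000000000000000000000000000000000000000000000000000000000000000000000]] = true := by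
  decide +kernel

/-- The tasks. -/
noncomputable def P : List (List Tk) := [
[
  .mk 68 13 21 [0x400, 0x800000, 0x200, 0x1, 0x200000000000000000000, 0x100000000000000000000000000000000000000000000000000000000000000000000000000000000]]]

theorem run : RunAll (runX PT.R (Wk.frw PT.R) nl RvT (SMap.evl cT tlT PT.vx ringF)) P :=
  .cons t0 (.nil)

end Pool.Agent.Lib.MP_5854e1_co.Cz.Sr550
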