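import Pool.Agent.Lib.MP_5854e1_co.Cz.P
import Pool.Agent.Lib.MP_5854e1_co.Tkx
import Pool.Agent.Lib.MP_5854e1_co.RunAll

/-!
# Search, part 3
-/

set_option autoImplicit false
set_option deprecated.oldSectionVars true
set_option maxRecDepth 100000

namespace Pool.Agent.Lib.MP_5854e1_co.Cz.Sr003

open PB

theorem t0 : runX PT.R (Wk.frw PT.R) nl RvT (SMap.evl cT tlT PT.vx ringF) [
  .mk 0 83 2 [0x1]] = true := by
  decide +kernel

theorem t1 : runX PT.R (Wk.frw PT.R) nl RvT (SMap.evl cT tlT PT.vx ringF) [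
  .mk 0 83 2 [0x144]] = true := by
  decide +kernel

theorem t2 : runX PT.R (Wk.frw PT.R) nl RvT (SMap.evl cT tlT PT.vx ringF) [
  .mk 0 83 2 [0x400]] = true := by
  decide +kernel

theorem t3 : runX PT.R (Wk.frw PT.R) nl RvT (SMap.evl cT tlT PT.vx ringF) [
  .mk 0 83 2 [0xfffff9832]] = true := by
  decide +kernel

theorem t4 : runX PT.R (Wk.frw PT.R) nl RvT (SMap.evl cT tlT PT.vx ringF) [
  .mk 0 83 2 [0x8, 0x1fde0700]] = true := by
  decide +kernel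

/-- The tasks. -/
noncomputable def P : List (List Tk) := [
[
  .mk 0 83 2 [0x1]],
[
  .mk 0 83 2 [0x144]],
[
  .mk 0 83 2 [0x400]],
[
  .mk 0 83 2 [0xfffff9832]],
[
  .mk 0 83 2 [0x8, 0x1fde0700]]]

theorem run : RunAll (runX PT.R (Wk.frw PT.R) nl RvT (SMap.evl cT tlT PT.vx ringF)) P :=
  .cons t0 (.cons t1 (.cons t2 (.cons t3 (.cons t4 (.nil)))))

end Pool.Agent.Lib.MP_5854e1_co.Cz.Sr003

namespace Pool.Agent.Lib.MP_5854e1_co.Cz.Sr028

open PB

theorem t0 : runX PT.R (Wk.frw PT.R) nl RvT (SMap.evl cT tlT PT.vx ringF) [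
  .mk 0 96 16 [0x4, 0x7a00]] = true := by
  decide +kernel

theorem t1 : runX PT.R (Wk.frw PT.R) nl RvT (SMap.evl cT tlT PT.vx ringF) [
  .mk 0 96 16 [0x4, 0x7f85ff]] = true := by
  decide +kernel

theorem t2 : runX PT.R (Wk.frw PT.R) nl RvT (SMap.evl cT tlT PT.vx ringF) [
  .mk 0 96 16 [0x8, 0x1fde0200]] = true := by
  decide +kernel

theorem t3 : runX PT.R (Wk.frw PT.R) nl RvT (SMap.evl cT tlT PT.vx ringF) [
  .mk 0 96 16 [0x8, 0x3e021fdff]] = true := by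
  decide +kernel

theorem t4 : runX PT.R (Wk.frw PT.R) nl RvT (SMap.evl cT tlT PT.vx ringF) [
  .mk 0 96 16 [0x200, 0x217806f]] = true := by
  decide +kernel

/-- The tasks. -/
noncomputable def P : List (List Tk) := [
[
  .mk 0 96 16 [0x4, 0x7a00]],
[
  .mk 0 96 16 [0x4, 0x7f85ff]],
[
  .mk 0 96 16 [0x8, 0x1fde0200]],
[
  .mk 0 96 16 [0x8, 0x3e021fdff]],
[
  .mk 0 96 16 [0x200, 0x217806f]]]

theorem run : RunAll (runX PT.R (Wk.frw PT.R) nl RvT (SMap.evl cT tlT PT.vx ringF)) P :=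
  .cons t0 (.cons t1 (.cons t2 (.cons t3 (.cons t4 (.nil)))))

end Pool.Agent.Lib.MP_5854e1_co.Cz.Sr028

namespace Pool.Agent.Lib.MP_5854e1_co.Cz.Sr123

open PB

theorem t0 : runX PT.R (Wk.frw PT.R) nl RvT (SMap.evl cT tlT PT.vx ringF) [
  .mk 7 3 12 [0xc0000000]] = true := by
  decide +kernel

theorem t1 : runX PT.R (Wk.frw PT.R) nl RvT (SMap.evl cT tlT PT.vx ringF) [
  .mk 7 3 12 [0x300a1fdff]] = true := by
  decide +kernel

theorem t2 : runX PT.R (Wk.frw PT.R) nl RvT (SMap.evl cT tlT PT.vx ringF) [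
  .mk 7 3 12 [0x4000000, 0x1af]] = true := by
  decide +kernel

theorem t3 : runX PT.R (Wk.frw PT.R) nl RvT (SMap.evl cT tlT PT.vx ringF) [
  .mk 7 3 12 [0x4000000, 0xe00]] = true := by
  decide +kernel

theorem t4 : runX PT.R (Wk.frw PT.R) nl RvT (SMap.evl cT tlT PT.vx ringF) [
  .mk 7 3 12 [0x4000000, 0xffffff050]] = true := by
  decide +kernel

theorem t5 : runX PT.R (Wk.frw PT.R) nl RvT (SMap.evl cT tlT PT.vx ringF) [
  .mk 7 3 12 [0x8000000, 0xbdfaf4f]] = true := by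
  decide +kernel

/-- The tasks. -/
noncomputable def P : List (List Tk) := [
[
  .mk 7 3 12 [0xc0000000]],
[
  .mk 7 3 12 [0x300a1fdff]],
[
  .mk 7 3 12 [0x4000000, 0x1af]],
[
  .mk 7 3 12 [0x4000000, 0xe00]],
[
  .mk 7 3 12 [0x4000000, 0xffffff050]],
[
  .mk 7 3 12 [0x8000000, 0xbdfaf4f]]]

theorem run : RunAll (runX PT.R (Wk.frw PT.R) nl RvT (SMap.evl cT tlT PT.vx ringF)) P :=
  .cons t0 (.cons t1 (.cons t2 (.cons t3 (.cons t4 (.cons t5 (.nil))))))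

end Pool.Agent.Lib.MP_5854e1_co.Cz.Sr123

namespace Pool.Agent.Lib.MP_5854e1_co.Cz.Sr161

open PB

theorem t0 : runX PT.R (Wk.frw PT.R) nl RvT (SMap.evl cT tlT PT.vx ringF) [
  .mk 7 203 3 [],
  .mk 7 204 20 [],
  .mk 7 205 21 [],
  .mk 7 206 22 [],
  .mk 7 207 28 []] = true := by
  decide +kernel

theorem t1 : runX PT.R (Wk.frw PT.R) nl RvT (SMap.evl cT tlT PT.vx ringF) [
  .mk 7 208 29 [],
  .mk 7 209 0 [],
  .mk 7 210 1 [],
  .mk 7 211 7 [],
  .mk 7 212 15 [],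
  .mk 7 213 20 [],
  .mk 7 214 28 [],
  .mk 7 215 0 [],
  .mk 7 216 1 [],
  .mk 7 217 7 [],
  .mk 7 218 15 [],
  .mk 7 219 20 [],
  .mk 7 220 28 [],
  .mk 7 221 0 [],
  .mk 7 222 1 [],
  .mk 7 223 7 [],
  .mk 7 224 15 [],
  .mk 7 225 20 [],
  .mk 7 226 28 [],
  .mk 7 227 0 [],
  .mk 7 228 1 [],
  .mk 7 229 7 [],
  .mk 7 230 15 [],
  .mk 7 231 20 [],
  .mk 7 232 28 [],
  .mk 7 233 0 [],
  .mk 7 234 1 [],
  .mk 7 235 7 [],
  .mk 7 236 15 [],
  .mk 7 237 20 [],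
  .mk 7 238 28 [],
  .mk 7 239 0 [],
  .mk 7 240 1 [],
  .mk 7 241 7 [],
  .mk 7 242 15 [],
  .mk 7 243 20 [],
  .mk 7 244 28 []] = true := by
  decide +kernel

theorem t2 : runX PT.R (Wk.frw PT.R) nl RvT (SMap.evl cT tlT PT.vx ringF) [
  .mk 7 245 0 [0x10000200000000000000000000]] = true := by
  decide +kernel

theorem t3 : runX PT.R (Wk.frw PT.R) nl RvT (SMap.evl cT tlT PT.vx ringF) [
  .mk 7 245 0 [0xc0000000000000000000000000]] = true := by
  decide +kernel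

theorem t4 : runX PT.R (Wk.frw PT.R) nl RvT (SMap.evl cT tlT PT.vx ringF) [
  .mk 7 245 0 [0xffffffffffffffffffffffffffffffffffffffffffffffffffffffffffffffffffffffffffffff2ffffdffffffffffffffffffff]] = true := by
  decide +kernel

theorem t5 : runX PT.R (Wk.frw PT.R) nl RvT (SMap.evl cT tlT PT.vx ringF) [
  .mk 7 246 7 [0xe0000000000000000000000000000000000000001400000000000000000000]] = true := by
  decide +kernel

theorem t6 : runX PT.R (Wk.frw PT.R) nl RvT (SMap.evl cT tlT PT.vx ringF) [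
  .mk 7 246 7 [0x300000000000000000000000000000000000000000000000000000000000000]] = true := by
  decide +kernel

/-- The tasks. -/
noncomputable def P : List (List Tk) := [
[
  .mk 7 203 3 [],
  .mk 7 204 20 [],
  .mk 7 205 21 [],
  .mk 7 206 22 [],
  .mk 7 207 28 []],
[
  .mk 7 208 29 [],
  .mk 7 209 0 [],
  .mk 7 210 1 [],
  .mk 7 211 7 [],
  .mk 7 212 15 [],
  .mk 7 213 20 [],
  .mk 7 214 28 [],
  .mk 7 215 0 [],
  .mk 7 216 1 [],
  .mk 7 217 7 [],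
  .mk 7 218 15 [],
  .mk 7 219 20 [],
  .mk 7 220 28 [],
  .mk 7 221 0 [],
  .mk 7 222 1 [],
  .mk 7 223 7 [],
  .mk 7 224 15 [],
  .mk 7 225 20 [],
  .mk 7 226 28 [],
  .mk 7 227 0 [],
  .mk 7 228 1 [],
  .mk 7 229 7 [],
  .mk 7 230 15 [],
  .mk 7 231 20 [],
  .mk 7 232 28 [],
  .mk 7 233 0 [],
  .mk 7 234 1 [],
  .mk 7 235 7 [],
  .mk 7 236 15 [],
  .mk 7 237 20 [],
  .mk 7 238 28 [],
  .mk 7 239 0 [],
  .mk 7 240 1 [],
  .mk 7 241 7 [],
  .mk 7 242 15 [],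
  .mk 7 243 20 [],
  .mk 7 244 28 []],
[
  .mk 7 245 0 [0x10000200000000000000000000]],
[
  .mk 7 245 0 [0xc0000000000000000000000000]],
[
  .mk 7 245 0 [0xffffffffffffffffffffffffffffffffffffffffffffffffffffffffffffffffffffffffffffff2ffffdffffffffffffffffffff]],
[
  .mk 7 246 7 [0xe0000000000000000000000000000000000000001400000000000000000000]],
[
  .mk 7 246 7 [0x300000000000000000000000000000000000000000000000000000000000000]]]

theorem run : RunAll (runX PT.R (Wk.frw PT.R) nl RvT (SMap.evl cT tlT PT.vx ringF)) P :=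
  .cons t0 (.cons t1 (.cons t2 (.cons t3 (.cons t4 (.cons t5 (.cons t6 (.nil)))))))

end Pool.Agent.Lib.MP_5854e1_co.Cz.Sr161

namespace Pool.Agent.Lib.MP_5854e1_co.Cz.Sr331

open PB

theorem t0 : runX PT.R (Wk.frw PT.R) nl RvT (SMap.evl cT tlT PT.vx ringF) [
  .mk 35 3 12 [0x1000000, 0x3cc00]] = true := by
  decide +kernel

theorem t1 : runX PT.R (Wk.frw PT.R) nl RvT (SMap.evl cT tlT PT.vx ringF) [
  .mk 35 3 12 [0x1000000, 0xc300e]] = true := by
  decide +kernel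

theorem t2 : runX PT.R (Wk.frw PT.R) nl RvT (SMap.evl cT tlT PT.vx ringF) [
  .mk 35 3 12 [0x4000000, 0x583]] = true := by
  decide +kernel

theorem t3 : runX PT.R (Wk.frw PT.R) nl RvT (SMap.evl cT tlT PT.vx ringF) [
  .mk 35 3 12 [0x4000000, 0xffffff87c]] = true := by
  decide +kernel

theorem t4 : runX PT.R (Wk.frw PT.R) nl RvT (SMap.evl cT tlT PT.vx ringF) [
  .mk 35 3 12 [0x4000000, 0x200, 0xffffffffb]] = true := by
  decide +kernel

theorem t5 : runX PT.R (Wk.frw PT.R) nl RvT (SMap.evl cT tlT PT.vx ringF) [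
  .mk 35 3 12 [0x4000000, 0x200, 0x4, 0x1168b]] = true := by
  decide +kernel

/-- The tasks. -/
noncomputable def P : List (List Tk) := [
[
  .mk 35 3 12 [0x1000000, 0x3cc00]],
[
  .mk 35 3 12 [0x1000000, 0xc300e]],
[
  .mk 35 3 12 [0x4000000, 0x583]],
[
  .mk 35 3 12 [0x4000000, 0xffffff87c]],
[
  .mk 35 3 12 [0x4000000, 0x200, 0xffffffffb]],
[
  .mk 35 3 12 [0x4000000, 0x200, 0x4, 0x1168b]]]

theorem run : RunAll (runX PT.R (Wk.frw PT.R) nl RvT (SMap.evl cT tlT PT.vx ringF)) P :=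
  .cons t0 (.cons t1 (.cons t2 (.cons t3 (.cons t4 (.cons t5 (.nil))))))

end Pool.Agent.Lib.MP_5854e1_co.Cz.Sr331
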