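import Pool.Agent.Lib.MP_5854e1_co.Cz.P
import Pool.Agent.Lib.MP_5854e1_co.Tkx
import Pool.Agent.Lib.MP_5854e1_co.RunAll

/-!
# Search, part 4
-/

set_option autoImplicit false
set_option deprecated.oldSectionVars true
set_option maxRecDepth 100000

namespace Pool.Agent.Lib.MP_5854e1_co.Cz.Sr004

open PB

theorem t0 : runX PT.R (Wk.frw PT.R) nl RvT (SMap.evl cT tlT PT.vx ringF) [
  .mk 0 83 2 [0x8, 0x3e021f8ff],
  .mk 0 83 2 [0x80, 0x3fc0d]] = true := by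
  decide +kernel

theorem t1 : runX PT.R (Wk.frw PT.R) nl RvT (SMap.evl cT tlT PT.vx ringF) [
  .mk 0 83 2 [0x80, 0xc03f2]] = true := by
  decide +kernel

theorem t2 : runX PT.R (Wk.frw PT.R) nl RvT (SMap.evl cT tlT PT.vx ringF) [
  .mk 0 83 2 [0x200, 0xe1f806f]] = true := by
  decide +kernel

theorem t3 : runX PT.R (Wk.frw PT.R) nl RvT (SMap.evl cT tlT PT.vx ringF) [
  .mk 0 83 2 [0x200, 0xff1e07f90]] = true := by
  decide +kernel

theorem t4 : runX PT.R (Wk.frw PT.R) nl RvT (SMap.evl cT tlT PT.vx ringF) [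
  .mk 0 83 2 [0x2000, 0x7ffa7b3]] = true := by
  decide +kernel

/-- The tasks. -/
noncomputable def P : List (List Tk) := [
[
  .mk 0 83 2 [0x8, 0x3e021f8ff],
  .mk 0 83 2 [0x80, 0x3fc0d]],
[
  .mk 0 83 2 [0x80, 0xc03f2]],
[
  .mk 0 83 2 [0x200, 0xe1f806f]],
[
  .mk 0 83 2 [0x200, 0xff1e07f90]],
[
  .mk 0 83 2 [0x2000, 0x7ffa7b3]]]

theorem run : RunAll (runX PT.R (Wk.frw PT.R) nl RvT (SMap.evl cT tlT PT.vx ringF)) P :=
  .cons t0 (.cons t1 (.cons t2 (.cons t3 (.cons t4 (.nil)))))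

end Pool.Agent.Lib.MP_5854e1_co.Cz.Sr004

namespace Pool.Agent.Lib.MP_5854e1_co.Cz.Sr048

open PB

theorem t0 : runX PT.R (Wk.frw PT.R) nl RvT (SMap.evl cT tlT PT.vx ringF) [
  .mk 0 111 44 [0x8, 0x3ffff584c]] = true := by
  decide +kernel

theorem t1 : runX PT.R (Wk.frw PT.R) nl RvT (SMap.evl cT tlT PT.vx ringF) [
  .mk 0 111 44 [0x100, 0x105bf]] = true := by
  decide +kernel

theorem t2 : runX PT.R (Wk.frw PT.R) nl RvT (SMap.evl cT tlT PT.vx ringF) [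
  .mk 0 111 44 [0x100, 0x7ee040]] = true := by
  decide +kernel

theorem t3 : runX PT.R (Wk.frw PT.R) nl RvT (SMap.evl cT tlT PT.vx ringF) [
  .mk 0 111 44 [0x100, 0x200, 0x3f80273]] = true := by
  decide +kernel

theorem t4 : runX PT.R (Wk.frw PT.R) nl RvT (SMap.evl cT tlT PT.vx ringF) [
  .mk 0 111 44 [0x100, 0x200, 0xfffffffffffffffffffffffffffffffffffffffffffffffffffffffffffffffffffffffffffffffffffffffffffffffffc07fd8c]] = true := by
  decide +kernel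

theorem t5 : runX PT.R (Wk.frw PT.R) nl RvT (SMap.evl cT tlT PT.vx ringF) [
  .mk 0 111 44 [0x100, 0x800, 0xf93]] = true := by
  decide +kernel

theorem t6 : runX PT.R (Wk.frw PT.R) nl RvT (SMap.evl cT tlT PT.vx ringF) [
  .mk 0 111 44 [0x100, 0x800, 0xffffff06c]] = true := by
  decide +kernel

/-- The tasks. -/
noncomputable def P : List (List Tk) := [
[
  .mk 0 111 44 [0x8, 0x3ffff584c]],
[
  .mk 0 111 44 [0x100, 0x105bf]],
[
  .mk 0 111 44 [0x100, 0x7ee040]],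
[
  .mk 0 111 44 [0x100, 0x200, 0x3f80273]],
[
  .mk 0 111 44 [0x100, 0x200, 0xfffffffffffffffffffffffffffffffffffffffffffffffffffffffffffffffffffffffffffffffffffffffffffffffffc07fd8c]],
[
  .mk 0 111 44 [0x100, 0x800, 0xf93]],
[
  .mk 0 111 44 [0x100, 0x800, 0xffffff06c]]]

theorem run : RunAll (runX PT.R (Wk.frw PT.R) nl RvT (SMap.evl cT tlT PT.vx ringF)) P :=
  .cons t0 (.cons t1 (.cons t2 (.cons t3 (.cons t4 (.cons t5 (.cons t6 (.nil)))))))

end Pool.Agent.Lib.MP_5854e1_co.Cz.Sr048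

namespace Pool.Agent.Lib.MP_5854e1_co.Cz.Sr170

open PB

theorem t0 : runX PT.R (Wk.frw PT.R) nl RvT (SMap.evl cT tlT PT.vx ringF) [
  .mk 7 252 7 [0x20000, 0x800, 0x600]] = true := by
  decide +kernel

theorem t1 : runX PT.R (Wk.frw PT.R) nl RvT (SMap.evl cT tlT PT.vx ringF) [
  .mk 7 252 7 [0x20000, 0x800, 0xffffff86c]] = true := by
  decide +kernel

theorem t2 : runX PT.R (Wk.frw PT.R) nl RvT (SMap.evl cT tlT PT.vx ringF) [
  .mk 7 252 7 [0x80000, 0x1fddf]] = true := by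
  decide +kernel

theorem t3 : runX PT.R (Wk.frw PT.R) nl RvT (SMap.evl cT tlT PT.vx ringF) [
  .mk 7 252 7 [0x80000, 0x20000]] = true := by
  decide +kernel

theorem t4 : runX PT.R (Wk.frw PT.R) nl RvT (SMap.evl cT tlT PT.vx ringF) [
  .mk 7 252 7 [0x80000, 0xffc0020]] = true := by
  decide +kernel

theorem t5 : runX PT.R (Wk.frw PT.R) nl RvT (SMap.evl cT tlT PT.vx ringF) [
  .mk 7 252 7 [0x80000, 0x200, 0x1d93]] = true := by
  decide +kernel

/-- The tasks. -/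
noncomputable def P : List (List Tk) := [
[
  .mk 7 252 7 [0x20000, 0x800, 0x600]],
[
  .mk 7 252 7 [0x20000, 0x800, 0xffffff86c]],
[
  .mk 7 252 7 [0x80000, 0x1fddf]],
[
  .mk 7 252 7 [0x80000, 0x20000]],
[
  .mk 7 252 7 [0x80000, 0xffc0020]],
[
  .mk 7 252 7 [0x80000, 0x200, 0x1d93]]]

theorem run : RunAll (runX PT.R (Wk.frw PT.R) nl RvT (SMap.evl cT tlT PT.vx ringF)) P :=
  .cons t0 (.cons t1 (.cons t2 (.cons t3 (.cons t4 (.cons t5 (.nil))))))

end Pool.Agent.Lib.MP_5854e1_co.Cz.Sr170
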