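import Pool.Agent.Lib.MP_5854e1_co.Cz.P
import Pool.Agent.Lib.MP_5854e1_co.Tkx
import Pool.Agent.Lib.MP_5854e1_co.RunAll

/-!
# Search, part 5
-/

set_option autoImplicit false
set_option deprecated.oldSectionVars true
set_option maxRecDepth 100000

namespace Pool.Agent.Lib.MP_5854e1_co.Cz.Sr005

open PB

theorem t0 : runX PT.R (Wk.frw PT.R) nl RvT (SMap.evl cT tlT PT.vx ringF) [
  .mk 0 83 2 [0x2000, 0x800584c],
  .mk 0 83 2 [0x4000, 0x3cd]] = true := by
  decide +kernel

theorem t1 : runX PT.R (Wk.frw PT.R) nl RvT (SMap.evl cT tlT PT.vx ringF) [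
  .mk 0 83 2 [0x4000, 0xffffffc32],
  .mk 0 84 4 [],
  .mk 0 85 5 [],
  .mk 0 86 6 [],
  .mk 0 87 7 []] = true := by
  decide +kernel

theorem t2 : runX PT.R (Wk.frw PT.R) nl RvT (SMap.evl cT tlT PT.vx ringF) [
  .mk 0 88 8 [0x960]] = true := by
  decide +kernel

theorem t3 : runX PT.R (Wk.frw PT.R) nl RvT (SMap.evl cT tlT PT.vx ringF) [
  .mk 0 88 8 [0x1000]] = true := by
  decide +kernel

theorem t4 : runX PT.R (Wk.frw PT.R) nl RvT (SMap.evl cT tlT PT.vx ringF) [
  .mk 0 88 8 [0x4d08000]] = true := by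
  decide +kernel

theorem t5 : runX PT.R (Wk.frw PT.R) nl RvT (SMap.evl cT tlT PT.vx ringF) [
  .mk 0 88 8 [0xff32f0012]] = true := by
  decide +kernel

/-- The tasks. -/
noncomputable def P : List (List Tk) := [
[
  .mk 0 83 2 [0x2000, 0x800584c],
  .mk 0 83 2 [0x4000, 0x3cd]],
[
  .mk 0 83 2 [0x4000, 0xffffffc32],
  .mk 0 84 4 [],
  .mk 0 85 5 [],
  .mk 0 86 6 [],
  .mk 0 87 7 []],
[
  .mk 0 88 8 [0x960]],
[
  .mk 0 88 8 [0x1000]],
[
  .mk 0 88 8 [0x4d08000]],
[
  .mk 0 88 8 [0xff32f0012]]]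

theorem run : RunAll (runX PT.R (Wk.frw PT.R) nl RvT (SMap.evl cT tlT PT.vx ringF)) P :=
  .cons t0 (.cons t1 (.cons t2 (.cons t3 (.cons t4 (.cons t5 (.nil))))))

end Pool.Agent.Lib.MP_5854e1_co.Cz.Sr005

namespace Pool.Agent.Lib.MP_5854e1_co.Cz.Sr174

open PB

theorem t0 : runX PT.R (Wk.frw PT.R) nl RvT (SMap.evl cT tlT PT.vx ringF) [
  .mk 7 270 0 [0x7c00000000]] = true := by
  decide +kernel

theorem t1 : runX PT.R (Wk.frw PT.R) nl RvT (SMap.evl cT tlT PT.vx ringF) [
  .mk 7 270 0 [0x8000000000]] = true := by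
  decide +kernel

theorem t2 : runX PT.R (Wk.frw PT.R) nl RvT (SMap.evl cT tlT PT.vx ringF) [
  .mk 7 270 0 [0x3000000000000000000000000000]] = true := by
  decide +kernel

theorem t3 : runX PT.R (Wk.frw PT.R) nl RvT (SMap.evl cT tlT PT.vx ringF) [
  .mk 7 270 0 [0xffffffffffffffffffffffffffffffffffffffffffffffffffffffffffffffffffffffffffffcfffffffffffffffff00ffffffff]] = true := by
  decide +kernel

theorem t4 : runX PT.R (Wk.frw PT.R) nl RvT (SMap.evl cT tlT PT.vx ringF) [
  .mk 7 271 1 []] = true := by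
  decide +kernel

theorem t5 : runX PT.R (Wk.frw PT.R) nl RvT (SMap.evl cT tlT PT.vx ringF) [
  .mk 7 272 2 [0x1fc3]] = true := by
  decide +kernel

/-- The tasks. -/
noncomputable def P : List (List Tk) := [
[
  .mk 7 270 0 [0x7c00000000]],
[
  .mk 7 270 0 [0x8000000000]],
[
  .mk 7 270 0 [0x3000000000000000000000000000]],
[
  .mk 7 270 0 [0xffffffffffffffffffffffffffffffffffffffffffffffffffffffffffffffffffffffffffffcfffffffffffffffff00ffffffff]],
[
  .mk 7 271 1 []],
[
  .mk 7 272 2 [0x1fc3]]]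

theorem run : RunAll (runX PT.R (Wk.frw PT.R) nl RvT (SMap.evl cT tlT PT.vx ringF)) P :=
  .cons t0 (.cons t1 (.cons t2 (.cons t3 (.cons t4 (.cons t5 (.nil))))))

end Pool.Agent.Lib.MP_5854e1_co.Cz.Sr174

namespace Pool.Agent.Lib.MP_5854e1_co.Cz.Sr376

open PB

theorem t0 : runX PT.R (Wk.frw PT.R) nl RvT (SMap.evl cT tlT PT.vx ringF) [
  .mk 41 3 12 [0x20000000, 0x400, 0x200, 0x200000000000000000000, 0x60000000000000000200000000000000000000]] = true := by
  decide +kernel

theorem t1 : runX PT.R (Wk.frw PT.R) nl RvT (SMap.evl cT tlT PT.vx ringF) [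
  .mk 41 3 12 [0x20000000, 0x400, 0x200, 0x200000000000000000000, 0xffffffffffffffffffffffffffffffffffffffffffffffffffffffffffffffffff9ffffffffffffffffdffffffffffffffffffff]] = true := by
  decide +kernel

theorem t2 : runX PT.R (Wk.frw PT.R) nl RvT (SMap.evl cT tlT PT.vx ringF) [
  .mk 41 3 12 [0x20000000, 0x400, 0x1000, 0xfffffffffffffffffffffffffffffffffffffffffffffffffffffffff3ffffffffffffe]] = true := by
  decide +kernel

theorem t3 : runX PT.R (Wk.frw PT.R) nl RvT (SMap.evl cT tlT PT.vx ringF) [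
  .mk 41 3 12 [0x20000000, 0x400, 0x1000, 0x1, 0x1000000000000000000000000000000000000000000000000000000000000000000000000000000000000000000000000]] = true := by
  decide +kernel

theorem t4 : runX PT.R (Wk.frw PT.R) nl RvT (SMap.evl cT tlT PT.vx ringF) [
  .mk 41 3 12 [0x20000000, 0x400, 0x1000, 0x1, 0xffffeffebfffffffffffffffffffffffffffffffffffffffffffffffffffffffffffffffffffffffffffffffffffffffffffffff]] = true := by
  decide +kernel

/-- The tasks. -/
noncomputable def P : List (List Tk) := [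
[
  .mk 41 3 12 [0x20000000, 0x400, 0x200, 0x200000000000000000000, 0x60000000000000000200000000000000000000]],
[
  .mk 41 3 12 [0x20000000, 0x400, 0x200, 0x200000000000000000000, 0xffffffffffffffffffffffffffffffffffffffffffffffffffffffffffffffffff9ffffffffffffffffdffffffffffffffffffff]],
[
  .mk 41 3 12 [0x20000000, 0x400, 0x1000, 0xfffffffffffffffffffffffffffffffffffffffffffffffffffffffff3ffffffffffffe]],
[
  .mk 41 3 12 [0x20000000, 0x400, 0x1000, 0x1, 0x1000000000000000000000000000000000000000000000000000000000000000000000000000000000000000000000000]],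
[
  .mk 41 3 12 [0x20000000, 0x400, 0x1000, 0x1, 0xffffeffebfffffffffffffffffffffffffffffffffffffffffffffffffffffffffffffffffffffffffffffffffffffffffffffff]]]

theorem run : RunAll (runX PT.R (Wk.frw PT.R) nl RvT (SMap.evl cT tlT PT.vx ringF)) P :=
  .cons t0 (.cons t1 (.cons t2 (.cons t3 (.cons t4 (.nil)))))

end Pool.Agent.Lib.MP_5854e1_co.Cz.Sr376

namespace Pool.Agent.Lib.MP_5854e1_co.Cz.Sr380

open PB

theorem t0 : runX PT.R (Wk.frw PT.R) nl RvT (SMap.evl cT tlT PT.vx ringF) [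
  .mk 41 6 18 [0x800, 0x1fbf]] = true := by
  decide +kernel

theorem t1 : runX PT.R (Wk.frw PT.R) nl RvT (SMap.evl cT tlT PT.vx ringF) [
  .mk 41 6 18 [0x800, 0xfffffe040]] = true := by
  decide +kernel

theorem t2 : runX PT.R (Wk.frw PT.R) nl RvT (SMap.evl cT tlT PT.vx ringF) [
  .mk 41 7 39 [0x6f80d]] = true := by
  decide +kernel

theorem t3 : runX PT.R (Wk.frw PT.R) nl RvT (SMap.evl cT tlT PT.vx ringF) [
  .mk 41 7 39 [0x803f2]] = true := by
  decide +kernel

theorem t4 : runX PT.R (Wk.frw PT.R) nl RvT (SMap.evl cT tlT PT.vx ringF) [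
  .mk 41 7 39 [0x400, 0x38000000000000000000000000000000000000000000000000000007d002abe0000000001]] = true := by
  decide +kernel

theorem t5 : runX PT.R (Wk.frw PT.R) nl RvT (SMap.evl cT tlT PT.vx ringF) [
  .mk 41 7 39 [0x400, 0x303fc0c000000000000000000000000000000000000000000000000000000000000000000000000]] = true := by
  decide +kernel

/-- The tasks. -/
noncomputable def P : List (List Tk) := [
[
  .mk 41 6 18 [0x800, 0x1fbf]],
[
  .mk 41 6 18 [0x800, 0xfffffe040]],
[
  .mk 41 7 39 [0x6f80d]],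
[
  .mk 41 7 39 [0x803f2]],
[
  .mk 41 7 39 [0x400, 0x38000000000000000000000000000000000000000000000000000007d002abe0000000001]],
[
  .mk 41 7 39 [0x400, 0x303fc0c000000000000000000000000000000000000000000000000000000000000000000000000]]]

theorem run : RunAll (runX PT.R (Wk.frw PT.R) nl RvT (SMap.evl cT tlT PT.vx ringF)) P :=
  .cons t0 (.cons t1 (.cons t2 (.cons t3 (.cons t4 (.cons t5 (.nil))))))

end Pool.Agent.Lib.MP_5854e1_co.Cz.Sr380
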