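import Pool.Agent.Lib.MP_5854e1_co.Cz.P
import Pool.Agent.Lib.MP_5854e1_co.Tkx
import Pool.Agent.Lib.MP_5854e1_co.RunAll

/-!
# Search, part 6
-/

set_option autoImplicit false
set_option deprecated.oldSectionVars true
set_option maxRecDepth 100000

namespace Pool.Agent.Lib.MP_5854e1_co.Cz.Sr006

open PB

theorem t0 : runX PT.R (Wk.frw PT.R) nl RvT (SMap.evl cT tlT PT.vx ringF) [
  .mk 0 88 8 [0x1, 0xca00000000000000000000000000000]] = true := by
  decide +kernel

theorem t1 : runX PT.R (Wk.frw PT.R) nl RvT (SMap.evl cT tlT PT.vx ringF) [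
  .mk 0 88 8 [0x1, 0x100000000000000000000000000000000000000000000040004010000000000000000000000000000000]] = true := by
  decide +kernel

theorem t2 : runX PT.R (Wk.frw PT.R) nl RvT (SMap.evl cT tlT PT.vx ringF) [
  .mk 0 88 8 [0x1, 0xffffffffffffffffffffefffffffffffffffffffffffffffffffffffffffffffffbfffbfe35fffffffffffffffffffffffffffff]] = true := by
  decide +kernel

theorem t3 : runX PT.R (Wk.frw PT.R) nl RvT (SMap.evl cT tlT PT.vx ringF) [
  .mk 0 88 8 [0x4, 0x1fa04]] = true := by
  decide +kernel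

theorem t4 : runX PT.R (Wk.frw PT.R) nl RvT (SMap.evl cT tlT PT.vx ringF) [
  .mk 0 88 8 [0x4, 0x7e05fb],
  .mk 0 88 8 [0x8, 0xde0201]] = true := by
  decide +kernel

theorem t5 : runX PT.R (Wk.frw PT.R) nl RvT (SMap.evl cT tlT PT.vx ringF) [
  .mk 0 88 8 [0x8, 0x3000000]] = true := by
  decide +kernel

/-- The tasks. -/
noncomputable def P : List (List Tk) := [
[
  .mk 0 88 8 [0x1, 0xca00000000000000000000000000000]],
[
  .mk 0 88 8 [0x1, 0x100000000000000000000000000000000000000000000040004010000000000000000000000000000000]],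
[
  .mk 0 88 8 [0x1, 0xffffffffffffffffffffefffffffffffffffffffffffffffffffffffffffffffffbfffbfe35fffffffffffffffffffffffffffff]],
[
  .mk 0 88 8 [0x4, 0x1fa04]],
[
  .mk 0 88 8 [0x4, 0x7e05fb],
  .mk 0 88 8 [0x8, 0xde0201]],
[
  .mk 0 88 8 [0x8, 0x3000000]]]

theorem run : RunAll (runX PT.R (Wk.frw PT.R) nl RvT (SMap.evl cT tlT PT.vx ringF)) P :=
  .cons t0 (.cons t1 (.cons t2 (.cons t3 (.cons t4 (.cons t5 (.nil))))))

end Pool.Agent.Lib.MP_5854e1_co.Cz.Sr006

namespace Pool.Agent.Lib.MP_5854e1_co.Cz.Sr210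

open PB

theorem t0 : runX PT.R (Wk.frw PT.R) nl RvT (SMap.evl cT tlT PT.vx ringF) [
  .mk 8 14 49 [0x2000, 0x200000, 0x400, 0x1, 0x20000000000000000000000000000000000000000000000000000000000000000000, 0xffffffffffffffffffffffffffffffffffffffffffffffffffffffffffffffffffffffffffffffffffffffffffffffffffffffff]] = true := by
  decide +kernel

theorem t1 : runX PT.R (Wk.frw PT.R) nl RvT (SMap.evl cT tlT PT.vx ringF) [
  .mk 8 14 49 [0x2000, 0x800000, 0x90012]] = true := by
  decide +kernel

theorem t2 : runX PT.R (Wk.frw PT.R) nl RvT (SMap.evl cT tlT PT.vx ringF) [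
  .mk 8 14 49 [0x2000, 0x800000, 0xffff67fec],
  .mk 8 14 49 [0x2000, 0x800000, 0x1, 0xfffffffffffffffffffffffffffffffffffffffffffffffffffffffffffffffffffffffffffffffffffdffffffffffffffffffff],
  .mk 8 14 49 [0x2000, 0x800000, 0x1, 0x200000000000000000000, 0xfffffffffffffffffffffffeffffffffffffffffffffffffffffffffffffffffffffffffffffffffffffffffffffffffffffffff]] = true := by
  decide +kernel

/-- The tasks. -/
noncomputable def P : List (List Tk) := [
[
  .mk 8 14 49 [0x2000, 0x200000, 0x400, 0x1, 0x20000000000000000000000000000000000000000000000000000000000000000000, 0xffffffffffffffffffffffffffffffffffffffffffffffffffffffffffffffffffffffffffffffffffffffffffffffffffffffff]],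
[
  .mk 8 14 49 [0x2000, 0x800000, 0x90012]],
[
  .mk 8 14 49 [0x2000, 0x800000, 0xffff67fec],
  .mk 8 14 49 [0x2000, 0x800000, 0x1, 0xfffffffffffffffffffffffffffffffffffffffffffffffffffffffffffffffffffffffffffffffffffdffffffffffffffffffff],
  .mk 8 14 49 [0x2000, 0x800000, 0x1, 0x200000000000000000000, 0xfffffffffffffffffffffffeffffffffffffffffffffffffffffffffffffffffffffffffffffffffffffffffffffffffffffffff]]]

theorem run : RunAll (runX PT.R (Wk.frw PT.R) nl RvT (SMap.evl cT tlT PT.vx ringF)) P :=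
  .cons t0 (.cons t1 (.cons t2 (.nil)))

end Pool.Agent.Lib.MP_5854e1_co.Cz.Sr210

namespace Pool.Agent.Lib.MP_5854e1_co.Cz.Sr339

open PB

theorem t0 : runX PT.R (Wk.frw PT.R) nl RvT (SMap.evl cT tlT PT.vx ringF) [
  .mk 35 13 48 [0x400000]] = true := by
  decide +kernel

theorem t1 : runX PT.R (Wk.frw PT.R) nl RvT (SMap.evl cT tlT PT.vx ringF) [
  .mk 35 13 48 [0x3800000]] = true := by
  decide +kernel

theorem t2 : runX PT.R (Wk.frw PT.R) nl RvT (SMap.evl cT tlT PT.vx ringF) [
  .mk 35 13 48 [0x400584c]] = true := by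
  decide +kernel

theorem t3 : runX PT.R (Wk.frw PT.R) nl RvT (SMap.evl cT tlT PT.vx ringF) [
  .mk 35 13 48 [0x20000, 0xff80f000000000002000000000000000000000000000000000000000]] = true := by
  decide +kernel

theorem t4 : runX PT.R (Wk.frw PT.R) nl RvT (SMap.evl cT tlT PT.vx ringF) [
  .mk 35 13 48 [0x20000, 0x4b03e0000000000000000000000000000000000000000000000000000000000000000000000000000000000000000000000]] = true := by
  decide +kernel

/-- The tasks. -/
noncomputable def P : List (List Tk) := [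
[
  .mk 35 13 48 [0x400000]],
[
  .mk 35 13 48 [0x3800000]],
[
  .mk 35 13 48 [0x400584c]],
[
  .mk 35 13 48 [0x20000, 0xff80f000000000002000000000000000000000000000000000000000]],
[
  .mk 35 13 48 [0x20000, 0x4b03e0000000000000000000000000000000000000000000000000000000000000000000000000000000000000000000000]]]

theorem run : RunAll (runX PT.R (Wk.frw PT.R) nl RvT (SMap.evl cT tlT PT.vx ringF)) P :=
  .cons t0 (.cons t1 (.cons t2 (.cons t3 (.cons t4 (.nil)))))

end Pool.Agent.Lib.MP_5854e1_co.Cz.Sr339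

namespace Pool.Agent.Lib.MP_5854e1_co.Cz.Sr386

open PB

theorem t0 : runX PT.R (Wk.frw PT.R) nl RvT (SMap.evl cT tlT PT.vx ringF) [
  .mk 41 9 41 [0x4, 0x200, 0x1c000000000000000000000000000000000000000000000]] = true := by
  decide +kernel

theorem t1 : runX PT.R (Wk.frw PT.R) nl RvT (SMap.evl cT tlT PT.vx ringF) [
  .mk 41 9 41 [0x4, 0x200, 0xfffffffffffffffffffffffffffffffffffffffffffffffffffffffffe3fb7f7dfffffffffffffffffffffffffffffffd587febc]] = true := by
  decide +kernel

theorem t2 : runX PT.R (Wk.frw PT.R) nl RvT (SMap.evl cT tlT PT.vx ringF) [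
  .mk 41 9 41 [0x4, 0x1000, 0x1e0000000000000000000000000000000ff80f00000001]] = true := by
  decide +kernel

theorem t3 : runX PT.R (Wk.frw PT.R) nl RvT (SMap.evl cT tlT PT.vx ringF) [
  .mk 41 9 41 [0x4, 0x1000, 0xfffffffffffffffffffffffffe0fffffffffffffffffffffffffffffff007f0fffffffe]] = true := by
  decide +kernel

theorem t4 : runX PT.R (Wk.frw PT.R) nl RvT (SMap.evl cT tlT PT.vx ringF) [
  .mk 41 9 41 [0x4, 0x1000, 0x100000000000000000000000000000000000000000000, 0x100006000000000000000000600000000000000000000]] = true := by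
  decide +kernel

/-- The tasks. -/
noncomputable def P : List (List Tk) := [
[
  .mk 41 9 41 [0x4, 0x200, 0x1c000000000000000000000000000000000000000000000]],
[
  .mk 41 9 41 [0x4, 0x200, 0xfffffffffffffffffffffffffffffffffffffffffffffffffffffffffe3fb7f7dfffffffffffffffffffffffffffffffd587febc]],
[
  .mk 41 9 41 [0x4, 0x1000, 0x1e0000000000000000000000000000000ff80f00000001]],
[
  .mk 41 9 41 [0x4, 0x1000, 0xfffffffffffffffffffffffffe0fffffffffffffffffffffffffffffff007f0fffffffe]],
[
  .mk 41 9 41 [0x4, 0x1000, 0x100000000000000000000000000000000000000000000, 0x100006000000000000000000600000000000000000000]]]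

theorem run : RunAll (runX PT.R (Wk.frw PT.R) nl RvT (SMap.evl cT tlT PT.vx ringF)) P :=
  .cons t0 (.cons t1 (.cons t2 (.cons t3 (.cons t4 (.nil)))))

end Pool.Agent.Lib.MP_5854e1_co.Cz.Sr386
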