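import Pool.Agent.Lib.MP_5854e1_co.Cz.P
import Pool.Agent.Lib.MP_5854e1_co.Tkx
import Pool.Agent.Lib.MP_5854e1_co.RunAll

/-!
# Search, part 7
-/

set_option autoImplicit false
set_option deprecated.oldSectionVars true
set_option maxRecDepth 100000

namespace Pool.Agent.Lib.MP_5854e1_co.Cz.Sr007

open PB

theorem t0 : runX PT.R (Wk.frw PT.R) nl RvT (SMap.evl cT tlT PT.vx ringF) [
  .mk 0 88 8 [0x8, 0x4000000]] = true := by
  decide +kernel

theorem t1 : runX PT.R (Wk.frw PT.R) nl RvT (SMap.evl cT tlT PT.vx ringF) [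
  .mk 0 88 8 [0x8, 0x18000000]] = true := by
  decide +kernel

theorem t2 : runX PT.R (Wk.frw PT.R) nl RvT (SMap.evl cT tlT PT.vx ringF) [
  .mk 0 88 8 [0x8, 0x1e0000000]] = true := by
  decide +kernel

theorem t3 : runX PT.R (Wk.frw PT.R) nl RvT (SMap.evl cT tlT PT.vx ringF) [
  .mk 0 88 8 [0x8, 0x20021fdfe],
  .mk 0 88 8 [0x80, 0xeffff]] = true := by
  decide +kernel

theorem t4 : runX PT.R (Wk.frw PT.R) nl RvT (SMap.evl cT tlT PT.vx ringF) [
  .mk 0 88 8 [0x80, 0x10000, 0x9d3]] = true := by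
  decide +kernel

/-- The tasks. -/
noncomputable def P : List (List Tk) := [
[
  .mk 0 88 8 [0x8, 0x4000000]],
[
  .mk 0 88 8 [0x8, 0x18000000]],
[
  .mk 0 88 8 [0x8, 0x1e0000000]],
[
  .mk 0 88 8 [0x8, 0x20021fdfe],
  .mk 0 88 8 [0x80, 0xeffff]],
[
  .mk 0 88 8 [0x80, 0x10000, 0x9d3]]]

theorem run : RunAll (runX PT.R (Wk.frw PT.R) nl RvT (SMap.evl cT tlT PT.vx ringF)) P :=
  .cons t0 (.cons t1 (.cons t2 (.cons t3 (.cons t4 (.nil)))))

end Pool.Agent.Lib.MP_5854e1_co.Cz.Sr007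

namespace Pool.Agent.Lib.MP_5854e1_co.Cz.Sr445

open PB

theorem t0 : runX PT.R (Wk.frw PT.R) nl RvT (SMap.evl cT tlT PT.vx ringF) [
  .mk 42 26 68 [0x4000, 0x400, 0x1000, 0x8000000000, 0x7fff4],
  .mk 42 27 69 [],
  .mk 42 28 70 [],
  .mk 42 29 71 [],
  .mk 42 30 72 [],
  .mk 42 31 73 [],
  .mk 42 32 74 []] = true := by
  decide +kernel

theorem t1 : runX PT.R (Wk.frw PT.R) nl RvT (SMap.evl cT tlT PT.vx ringF) [
  .mk 42 33 75 [],
  .mk 42 34 76 [],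
  .mk 42 35 77 [],
  .mk 42 36 78 []] = true := by
  decide +kernel

theorem t2 : runX PT.R (Wk.frw PT.R) nl RvT (SMap.evl cT tlT PT.vx ringF) [
  .mk 42 37 79 [],
  .mk 42 38 80 [],
  .mk 42 39 81 []] = true := by
  decide +kernel

theorem t3 : runX PT.R (Wk.frw PT.R) nl RvT (SMap.evl cT tlT PT.vx ringF) [
  .mk 42 40 82 [],
  .mk 42 41 92 []] = true := by
  decide +kernel

theorem t4 : runX PT.R (Wk.frw PT.R) nl RvT (SMap.evl cT tlT PT.vx ringF) [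
  .mk 42 42 93 [],
  .mk 42 43 94 []] = true := by
  decide +kernel

/-- The tasks. -/
noncomputable def P : List (List Tk) := [
[
  .mk 42 26 68 [0x4000, 0x400, 0x1000, 0x8000000000, 0x7fff4],
  .mk 42 27 69 [],
  .mk 42 28 70 [],
  .mk 42 29 71 [],
  .mk 42 30 72 [],
  .mk 42 31 73 [],
  .mk 42 32 74 []],
[
  .mk 42 33 75 [],
  .mk 42 34 76 [],
  .mk 42 35 77 [],
  .mk 42 36 78 []],
[
  .mk 42 37 79 [],
  .mk 42 38 80 [],
  .mk 42 39 81 []],
[
  .mk 42 40 82 [],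
  .mk 42 41 92 []],
[
  .mk 42 42 93 [],
  .mk 42 43 94 []]]

theorem run : RunAll (runX PT.R (Wk.frw PT.R) nl RvT (SMap.evl cT tlT PT.vx ringF)) P :=
  .cons t0 (.cons t1 (.cons t2 (.cons t3 (.cons t4 (.nil)))))

end Pool.Agent.Lib.MP_5854e1_co.Cz.Sr445

namespace Pool.Agent.Lib.MP_5854e1_co.Cz.Sr532

open PB

theorem t0 : runX PT.R (Wk.frw PT.R) nl RvT (SMap.evl cT tlT PT.vx ringF) [
  .mk 63 15 58 [0x1000000, 0x600]] = true := by
  decide +kernel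

theorem t1 : runX PT.R (Wk.frw PT.R) nl RvT (SMap.evl cT tlT PT.vx ringF) [
  .mk 63 15 58 [0x1000000, 0x3fffff87c],
  .mk 63 16 60 [0x8d]] = true := by
  decide +kernel

theorem t2 : runX PT.R (Wk.frw PT.R) nl RvT (SMap.evl cT tlT PT.vx ringF) [
  .mk 63 16 60 [0x200]] = true := by
  decide +kernel

theorem t3 : runX PT.R (Wk.frw PT.R) nl RvT (SMap.evl cT tlT PT.vx ringF) [
  .mk 63 16 60 [0xfffffe972]] = true := by
  decide +kernel

theorem t4 : runX PT.R (Wk.frw PT.R) nl RvT (SMap.evl cT tlT PT.vx ringF) [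
  .mk 63 16 60 [0x400, 0x3fffff9dfffff]] = true := by
  decide +kernel

theorem t5 : runX PT.R (Wk.frw PT.R) nl RvT (SMap.evl cT tlT PT.vx ringF) [
  .mk 63 16 60 [0x400, 0x200000, 0x792]] = true := by
  decide +kernel

/-- The tasks. -/
noncomputable def P : List (List Tk) := [
[
  .mk 63 15 58 [0x1000000, 0x600]],
[
  .mk 63 15 58 [0x1000000, 0x3fffff87c],
  .mk 63 16 60 [0x8d]],
[
  .mk 63 16 60 [0x200]],
[
  .mk 63 16 60 [0xfffffe972]],
[
  .mk 63 16 60 [0x400, 0x3fffff9dfffff]],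
[
  .mk 63 16 60 [0x400, 0x200000, 0x792]]]

theorem run : RunAll (runX PT.R (Wk.frw PT.R) nl RvT (SMap.evl cT tlT PT.vx ringF)) P :=
  .cons t0 (.cons t1 (.cons t2 (.cons t3 (.cons t4 (.cons t5 (.nil))))))

end Pool.Agent.Lib.MP_5854e1_co.Cz.Sr532

namespace Pool.Agent.Lib.MP_5854e1_co.Cz.Sr536

open PB

theorem t0 : runX PT.R (Wk.frw PT.R) nl RvT (SMap.evl cT tlT PT.vx ringF) [
  .mk 64 12 55 [0x400, 0x7fe970]] = true := by
  decide +kernel

theorem t1 : runX PT.R (Wk.frw PT.R) nl RvT (SMap.evl cT tlT PT.vx ringF) [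
  .mk 64 12 55 [0x400, 0x1000, 0x70000000000000]] = true := by
  decide +kernel

theorem t2 : runX PT.R (Wk.frw PT.R) nl RvT (SMap.evl cT tlT PT.vx ringF) [
  .mk 64 12 55 [0x400, 0x1000, 0xfffffffffffffffffffffffffffffffffffffffffffffffffffffffff8ffffffffffffe]] = true := by
  decide +kernel

theorem t3 : runX PT.R (Wk.frw PT.R) nl RvT (SMap.evl cT tlT PT.vx ringF) [
  .mk 64 12 55 [0x400, 0x1000, 0x1, 0x1c1f800000000000000000000000000000000000000000000000000000000000000000000000000000000000000000000]] = true := by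
  decide +kernel

theorem t4 : runX PT.R (Wk.frw PT.R) nl RvT (SMap.evl cT tlT PT.vx ringF) [
  .mk 64 12 55 [0x400, 0x1000, 0x1, 0xfffffffe3e07ffffffffffffffffffffffffffffffffffffffffffffffffffffffffffffffffffffffffffffffffffffffffffff],
  .mk 64 13 56 [],
  .mk 64 14 57 [],
  .mk 64 15 58 [],
  .mk 64 16 60 [],
  .mk 64 17 0 [],
  .mk 64 18 7 [],
  .mk 64 19 13 [],
  .mk 64 20 14 [],
  .mk 64 21 15 [],
  .mk 64 22 18 [],
  .mk 64 23 19 [],
  .mk 64 24 39 [],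
  .mk 64 25 40 [],
  .mk 64 26 41 [],
  .mk 64 27 42 [],
  .mk 64 28 43 [],
  .mk 64 29 44 [],
  .mk 64 30 45 [],
  .mk 64 31 46 [],
  .mk 64 32 47 [],
  .mk 64 33 49 [],
  .mk 67 0 0 [],
  .mk 67 1 7 [],
  .mk 67 2 15 [],
  .mk 67 5 0 [],
  .mk 67 6 1 [],
  .mk 67 7 2 [],
  .mk 67 8 7 [],
  .mk 67 9 8 [0x1ad]] = true := by
  decide +kernel

theorem t5 : runX PT.R (Wk.frw PT.R) nl RvT (SMap.evl cT tlT PT.vx ringF) [
  .mk 67 9 8 [0x200]] = true := by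
  decide +kernel

/-- The tasks. -/
noncomputable def P : List (List Tk) := [
[
  .mk 64 12 55 [0x400, 0x7fe970]],
[
  .mk 64 12 55 [0x400, 0x1000, 0x70000000000000]],
[
  .mk 64 12 55 [0x400, 0x1000, 0xfffffffffffffffffffffffffffffffffffffffffffffffffffffffff8ffffffffffffe]],
[
  .mk 64 12 55 [0x400, 0x1000, 0x1, 0x1c1f800000000000000000000000000000000000000000000000000000000000000000000000000000000000000000000]],
[
  .mk 64 12 55 [0x400, 0x1000, 0x1, 0xfffffffe3e07ffffffffffffffffffffffffffffffffffffffffffffffffffffffffffffffffffffffffffffffffffffffffffff],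
  .mk 64 13 56 [],
  .mk 64 14 57 [],
  .mk 64 15 58 [],
  .mk 64 16 60 [],
  .mk 64 17 0 [],
  .mk 64 18 7 [],
  .mk 64 19 13 [],
  .mk 64 20 14 [],
  .mk 64 21 15 [],
  .mk 64 22 18 [],
  .mk 64 23 19 [],
  .mk 64 24 39 [],
  .mk 64 25 40 [],
  .mk 64 26 41 [],
  .mk 64 27 42 [],
  .mk 64 28 43 [],
  .mk 64 29 44 [],
  .mk 64 30 45 [],
  .mk 64 31 46 [],
  .mk 64 32 47 [],
  .mk 64 33 49 [],
  .mk 67 0 0 [],
  .mk 67 1 7 [],
  .mk 67 2 15 [],
  .mk 67 5 0 [],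
  .mk 67 6 1 [],
  .mk 67 7 2 [],
  .mk 67 8 7 [],
  .mk 67 9 8 [0x1ad]],
[
  .mk 67 9 8 [0x200]]]

theorem run : RunAll (runX PT.R (Wk.frw PT.R) nl RvT (SMap.evl cT tlT PT.vx ringF)) P :=
  .cons t0 (.cons t1 (.cons t2 (.cons t3 (.cons t4 (.cons t5 (.nil))))))

end Pool.Agent.Lib.MP_5854e1_co.Cz.Sr536
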