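import Pool.Agent.Lib.MP_5854e1_co.Cz.P
import Pool.Agent.Lib.MP_5854e1_co.Tkx
import Pool.Agent.Lib.MP_5854e1_co.RunAll

/-!
# Search, part 9
-/

set_option autoImplicit false
set_option deprecated.oldSectionVars true
set_option maxRecDepth 100000

namespace Pool.Agent.Lib.MP_5854e1_co.Cz.Sr009

open PB

theorem t0 : runX PT.R (Wk.frw PT.R) nl RvT (SMap.evl cT tlT PT.vx ringF) [
  .mk 0 88 8 [0x200, 0x33]] = true := by
  decide +kernel

theorem t1 : runX PT.R (Wk.frw PT.R) nl RvT (SMap.evl cT tlT PT.vx ringF) [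
  .mk 0 88 8 [0x200, 0x7f5e8040]] = true := by
  decide +kernel

theorem t2 : runX PT.R (Wk.frw PT.R) nl RvT (SMap.evl cT tlT PT.vx ringF) [
  .mk 0 88 8 [0x200, 0xf80a17f80],
  .mk 0 88 8 [0x200, 0x4, 0xe8f]] = true := by
  decide +kernel

theorem t3 : runX PT.R (Wk.frw PT.R) nl RvT (SMap.evl cT tlT PT.vx ringF) [
  .mk 0 88 8 [0x200, 0x4, 0x77000]] = true := by
  decide +kernel

theorem t4 : runX PT.R (Wk.frw PT.R) nl RvT (SMap.evl cT tlT PT.vx ringF) [
  .mk 0 88 8 [0x200, 0x4, 0x788170]] = true := by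
  decide +kernel

theorem t5 : runX PT.R (Wk.frw PT.R) nl RvT (SMap.evl cT tlT PT.vx ringF) [
  .mk 0 88 8 [0x200, 0x8, 0x4f67a7b3]] = true := by
  decide +kernel

/-- The tasks. -/
noncomputable def P : List (List Tk) := [
[
  .mk 0 88 8 [0x200, 0x33]],
[
  .mk 0 88 8 [0x200, 0x7f5e8040]],
[
  .mk 0 88 8 [0x200, 0xf80a17f80],
  .mk 0 88 8 [0x200, 0x4, 0xe8f]],
[
  .mk 0 88 8 [0x200, 0x4, 0x77000]],
[
  .mk 0 88 8 [0x200, 0x4, 0x788170]],
[
  .mk 0 88 8 [0x200, 0x8, 0x4f67a7b3]]]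

theorem run : RunAll (runX PT.R (Wk.frw PT.R) nl RvT (SMap.evl cT tlT PT.vx ringF)) P :=
  .cons t0 (.cons t1 (.cons t2 (.cons t3 (.cons t4 (.cons t5 (.nil))))))

end Pool.Agent.Lib.MP_5854e1_co.Cz.Sr009

namespace Pool.Agent.Lib.MP_5854e1_co.Cz.Sr286

open PB

theorem t0 : runX PT.R (Wk.frw PT.R) nl RvT (SMap.evl cT tlT PT.vx ringF) [
  .mk 12 26 52 [0x400, 0x7c0000]] = true := by
  decide +kernel

theorem t1 : runX PT.R (Wk.frw PT.R) nl RvT (SMap.evl cT tlT PT.vx ringF) [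
  .mk 12 26 52 [0x400, 0x3ffffef83ffff]] = true := by
  decide +kernel

theorem t2 : runX PT.R (Wk.frw PT.R) nl RvT (SMap.evl cT tlT PT.vx ringF) [
  .mk 12 26 52 [0x400, 0x10000000, 0x68f]] = true := by
  decide +kernel

theorem t3 : runX PT.R (Wk.frw PT.R) nl RvT (SMap.evl cT tlT PT.vx ringF) [
  .mk 12 26 52 [0x400, 0x10000000, 0x7fe970]] = true := by
  decide +kernel

theorem t4 : runX PT.R (Wk.frw PT.R) nl RvT (SMap.evl cT tlT PT.vx ringF) [
  .mk 12 26 52 [0x400, 0x10000000, 0x1000, 0x30000000000001]] = true := by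
  decide +kernel

theorem t5 : runX PT.R (Wk.frw PT.R) nl RvT (SMap.evl cT tlT PT.vx ringF) [
  .mk 12 26 52 [0x400, 0x10000000, 0x1000, 0xfffffffffffffffffffffffffffffffffffffffffffffffffffffffffcffffffffffffe]] = true := by
  decide +kernel

/-- The tasks. -/
noncomputable def P : List (List Tk) := [
[
  .mk 12 26 52 [0x400, 0x7c0000]],
[
  .mk 12 26 52 [0x400, 0x3ffffef83ffff]],
[
  .mk 12 26 52 [0x400, 0x10000000, 0x68f]],
[
  .mk 12 26 52 [0x400, 0x10000000, 0x7fe970]],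
[
  .mk 12 26 52 [0x400, 0x10000000, 0x1000, 0x30000000000001]],
[
  .mk 12 26 52 [0x400, 0x10000000, 0x1000, 0xfffffffffffffffffffffffffffffffffffffffffffffffffffffffffcffffffffffffe]]]

theorem run : RunAll (runX PT.R (Wk.frw PT.R) nl RvT (SMap.evl cT tlT PT.vx ringF)) P :=
  .cons t0 (.cons t1 (.cons t2 (.cons t3 (.cons t4 (.cons t5 (.nil))))))

end Pool.Agent.Lib.MP_5854e1_co.Cz.Sr286

namespace Pool.Agent.Lib.MP_5854e1_co.Cz.Sr312

open PB

theorem t0 : runX PT.R (Wk.frw PT.R) nl RvT (SMap.evl cT tlT PT.vx ringF) [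
  .mk 15 15 44 [0x1, 0x1000000000000000000000000000000000000000000000000000000000000000000000000000000000000000000000000, 0x1000, 0x393]] = true := by
  decide +kernel

theorem t1 : runX PT.R (Wk.frw PT.R) nl RvT (SMap.evl cT tlT PT.vx ringF) [
  .mk 15 15 44 [0x1, 0x1000000000000000000000000000000000000000000000000000000000000000000000000000000000000000000000000, 0x1000, 0xffffffc6c]] = true := by
  decide +kernel

theorem t2 : runX PT.R (Wk.frw PT.R) nl RvT (SMap.evl cT tlT PT.vx ringF) [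
  .mk 15 15 44 [0x8, 0xa7b3]] = true := by
  decide +kernel

theorem t3 : runX PT.R (Wk.frw PT.R) nl RvT (SMap.evl cT tlT PT.vx ringF) [
  .mk 15 15 44 [0x8, 0x3ffff584c],
  .mk 15 15 44 [0x100, 0x1bf]] = true := by
  decide +kernel

theorem t4 : runX PT.R (Wk.frw PT.R) nl RvT (SMap.evl cT tlT PT.vx ringF) [
  .mk 15 15 44 [0x100, 0x600]] = true := by
  decide +kernel

theorem t5 : runX PT.R (Wk.frw PT.R) nl RvT (SMap.evl cT tlT PT.vx ringF) [
  .mk 15 15 44 [0x100, 0x7fe840]] = true := by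
  decide +kernel

/-- The tasks. -/
noncomputable def P : List (List Tk) := [
[
  .mk 15 15 44 [0x1, 0x1000000000000000000000000000000000000000000000000000000000000000000000000000000000000000000000000, 0x1000, 0x393]],
[
  .mk 15 15 44 [0x1, 0x1000000000000000000000000000000000000000000000000000000000000000000000000000000000000000000000000, 0x1000, 0xffffffc6c]],
[
  .mk 15 15 44 [0x8, 0xa7b3]],
[
  .mk 15 15 44 [0x8, 0x3ffff584c],
  .mk 15 15 44 [0x100, 0x1bf]],
[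
  .mk 15 15 44 [0x100, 0x600]],
[
  .mk 15 15 44 [0x100, 0x7fe840]]]

theorem run : RunAll (runX PT.R (Wk.frw PT.R) nl RvT (SMap.evl cT tlT PT.vx ringF)) P :=
  .cons t0 (.cons t1 (.cons t2 (.cons t3 (.cons t4 (.cons t5 (.nil))))))

end Pool.Agent.Lib.MP_5854e1_co.Cz.Sr312
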