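import Pool.Agent.Lib.MP_5854e1_co.Cz.P
import Pool.Agent.Lib.MP_5854e1_co.Tkx
import Pool.Agent.Lib.MP_5854e1_co.RunAll

/-!
# Search, part 11
-/

set_option autoImplicit false
set_option deprecated.oldSectionVars true
set_option maxRecDepth 100000

namespace Pool.Agent.Lib.MP_5854e1_co.Cz.Sr011

open PB

theorem t0 : runX PT.R (Wk.frw PT.R) nl RvT (SMap.evl cT tlT PT.vx ringF) [
  .mk 0 88 8 [0x400, 0x200000, 0x1b2]] = true := by
  decide +kernel

theorem t1 : runX PT.R (Wk.frw PT.R) nl RvT (SMap.evl cT tlT PT.vx ringF) [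
  .mk 0 88 8 [0x400, 0x200000, 0xa600]] = true := by
  decide +kernel

theorem t2 : runX PT.R (Wk.frw PT.R) nl RvT (SMap.evl cT tlT PT.vx ringF) [
  .mk 0 88 8 [0x400, 0x200000, 0x3ffff584c]] = true := by
  decide +kernel

theorem t3 : runX PT.R (Wk.frw PT.R) nl RvT (SMap.evl cT tlT PT.vx ringF) [
  .mk 0 88 8 [0x400, 0x200000, 0x1, 0x4b03e00000000000000000000000000000000000000ff80f000000000002000000000000000000000000000000000000000]] = true := by
  decide +kernel

theorem t4 : runX PT.R (Wk.frw PT.R) nl RvT (SMap.evl cT tlT PT.vx ringF) [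
  .mk 0 88 8 [0x400, 0x200000, 0x1, 0xfffffb4fc1ffffffffffffffffffffffffffffffffffffff007f0fffffffffffdfffffffffffffffffffffffffffffffffffffff]] = true := by
  decide +kernel

theorem t5 : runX PT.R (Wk.frw PT.R) nl RvT (SMap.evl cT tlT PT.vx ringF) [
  .mk 0 88 8 [0x400, 0x4000000, 0xfbf]] = true := by
  decide +kernel

/-- The tasks. -/
noncomputable def P : List (List Tk) := [
[
  .mk 0 88 8 [0x400, 0x200000, 0x1b2]],
[
  .mk 0 88 8 [0x400, 0x200000, 0xa600]],
[
  .mk 0 88 8 [0x400, 0x200000, 0x3ffff584c]],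
[
  .mk 0 88 8 [0x400, 0x200000, 0x1, 0x4b03e00000000000000000000000000000000000000ff80f000000000002000000000000000000000000000000000000000]],
[
  .mk 0 88 8 [0x400, 0x200000, 0x1, 0xfffffb4fc1ffffffffffffffffffffffffffffffffffffff007f0fffffffffffdfffffffffffffffffffffffffffffffffffffff]],
[
  .mk 0 88 8 [0x400, 0x4000000, 0xfbf]]]

theorem run : RunAll (runX PT.R (Wk.frw PT.R) nl RvT (SMap.evl cT tlT PT.vx ringF)) P :=
  .cons t0 (.cons t1 (.cons t2 (.cons t3 (.cons t4 (.cons t5 (.nil))))))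

end Pool.Agent.Lib.MP_5854e1_co.Cz.Sr011

namespace Pool.Agent.Lib.MP_5854e1_co.Cz.Sr398

open PB

theorem t0 : runX PT.R (Wk.frw PT.R) nl RvT (SMap.evl cT tlT PT.vx ringF) [
  .mk 41 12 47 [0x7bffff310000b0]] = true := by
  decide +kernel

theorem t1 : runX PT.R (Wk.frw PT.R) nl RvT (SMap.evl cT tlT PT.vx ringF) [
  .mk 41 12 47 [0x4000000, 0x3fffffffd],
  .mk 41 12 47 [0x4000000, 0x2, 0xc0080000002000005e000000000000000000000000000000000000000000000]] = true := by
  decide +kernel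

theorem t2 : runX PT.R (Wk.frw PT.R) nl RvT (SMap.evl cT tlT PT.vx ringF) [
  .mk 41 12 47 [0x4000000, 0x2, 0xffffffff3ff7ffffffdfffffa1fffffffffffffffffffffffffffffffffffffffffffff]] = true := by
  decide +kernel

theorem t3 : runX PT.R (Wk.frw PT.R) nl RvT (SMap.evl cT tlT PT.vx ringF) [
  .mk 41 12 47 [0x80000000, 0x5601]] = true := by
  decide +kernel

theorem t4 : runX PT.R (Wk.frw PT.R) nl RvT (SMap.evl cT tlT PT.vx ringF) [
  .mk 41 12 47 [0x80000000, 0x7f89fe]] = true := by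
  decide +kernel

theorem t5 : runX PT.R (Wk.frw PT.R) nl RvT (SMap.evl cT tlT PT.vx ringF) [
  .mk 41 12 47 [0x80000000, 0x2000, 0x1f93]] = true := by
  decide +kernel

/-- The tasks. -/
noncomputable def P : List (List Tk) := [
[
  .mk 41 12 47 [0x7bffff310000b0]],
[
  .mk 41 12 47 [0x4000000, 0x3fffffffd],
  .mk 41 12 47 [0x4000000, 0x2, 0xc0080000002000005e000000000000000000000000000000000000000000000]],
[
  .mk 41 12 47 [0x4000000, 0x2, 0xffffffff3ff7ffffffdfffffa1fffffffffffffffffffffffffffffffffffffffffffff]],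
[
  .mk 41 12 47 [0x80000000, 0x5601]],
[
  .mk 41 12 47 [0x80000000, 0x7f89fe]],
[
  .mk 41 12 47 [0x80000000, 0x2000, 0x1f93]]]

theorem run : RunAll (runX PT.R (Wk.frw PT.R) nl RvT (SMap.evl cT tlT PT.vx ringF)) P :=
  .cons t0 (.cons t1 (.cons t2 (.cons t3 (.cons t4 (.cons t5 (.nil))))))

end Pool.Agent.Lib.MP_5854e1_co.Cz.Sr398
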