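import Pool.Agent.Lib.MP_5854e1_co.Cz.P
import Pool.Agent.Lib.MP_5854e1_co.Tkx
import Pool.Agent.Lib.MP_5854e1_co.RunAll

/-!
# Search, part 12
-/

set_option autoImplicit false
set_option deprecated.oldSectionVars true
set_option maxRecDepth 100000

namespace Pool.Agent.Lib.MP_5854e1_co.Cz.Sr012

open PB

theorem t0 : runX PT.R (Wk.frw PT.R) nl RvT (SMap.evl cT tlT PT.vx ringF) [
  .mk 0 88 8 [0x400, 0x4000000, 0x7ff040]] = true := by
  decide +kernel

theorem t1 : runX PT.R (Wk.frw PT.R) nl RvT (SMap.evl cT tlT PT.vx ringF) [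
  .mk 0 88 8 [0x2000, 0x7ffa7b3]] = true := by
  decide +kernel

theorem t2 : runX PT.R (Wk.frw PT.R) nl RvT (SMap.evl cT tlT PT.vx ringF) [
  .mk 0 88 8 [0x2000, 0x800584c]] = true := by
  decide +kernel

theorem t3 : runX PT.R (Wk.frw PT.R) nl RvT (SMap.evl cT tlT PT.vx ringF) [
  .mk 0 88 8 [0x4000, 0x24d]] = true := by
  decide +kernel

theorem t4 : runX PT.R (Wk.frw PT.R) nl RvT (SMap.evl cT tlT PT.vx ringF) [
  .mk 0 88 8 [0x4000, 0x1c00]] = true := by
  decide +kernel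

theorem t5 : runX PT.R (Wk.frw PT.R) nl RvT (SMap.evl cT tlT PT.vx ringF) [
  .mk 0 88 8 [0x4000, 0xfffffe1b2]] = true := by
  decide +kernel

/-- The tasks. -/
noncomputable def P : List (List Tk) := [
[
  .mk 0 88 8 [0x400, 0x4000000, 0x7ff040]],
[
  .mk 0 88 8 [0x2000, 0x7ffa7b3]],
[
  .mk 0 88 8 [0x2000, 0x800584c]],
[
  .mk 0 88 8 [0x4000, 0x24d]],
[
  .mk 0 88 8 [0x4000, 0x1c00]],
[
  .mk 0 88 8 [0x4000, 0xfffffe1b2]]]

theorem run : RunAll (runX PT.R (Wk.frw PT.R) nl RvT (SMap.evl cT tlT PT.vx ringF)) P :=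
  .cons t0 (.cons t1 (.cons t2 (.cons t3 (.cons t4 (.cons t5 (.nil))))))

end Pool.Agent.Lib.MP_5854e1_co.Cz.Sr012

namespace Pool.Agent.Lib.MP_5854e1_co.Cz.Sr491

open PB

theorem t0 : runX PT.R (Wk.frw PT.R) nl RvT (SMap.evl cT tlT PT.vx ringF) [
  .mk 48 25 56 [0x3ffffff83ffff]] = true := by
  decide +kernel

theorem t1 : runX PT.R (Wk.frw PT.R) nl RvT (SMap.evl cT tlT PT.vx ringF) [
  .mk 48 26 58 [0xe1fee00000]] = true := by
  decide +kernel

theorem t2 : runX PT.R (Wk.frw PT.R) nl RvT (SMap.evl cT tlT PT.vx ringF) [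
  .mk 48 26 58 [0x30000000000]] = true := by
  decide +kernel

theorem t3 : runX PT.R (Wk.frw PT.R) nl RvT (SMap.evl cT tlT PT.vx ringF) [
  .mk 48 26 58 [0x7ffc1e001fffff],
  .mk 48 26 58 [0x1000000, 0x3fffffffd]] = true := by
  decide +kernel

theorem t4 : runX PT.R (Wk.frw PT.R) nl RvT (SMap.evl cT tlT PT.vx ringF) [
  .mk 48 26 58 [0x1000000, 0x2, 0x3c1f800000000000000000000000000000000000000000000000000000]] = true := by
  decide +kernel

theorem t5 : runX PT.R (Wk.frw PT.R) nl RvT (SMap.evl cT tlT PT.vx ringF) [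
  .mk 48 26 58 [0x1000000, 0x2, 0xfffffffffffffc3e07fffffffffffffffffffffffffffffffffffffffffffffffffffff]] = true := by
  decide +kernel

/-- The tasks. -/
noncomputable def P : List (List Tk) := [
[
  .mk 48 25 56 [0x3ffffff83ffff]],
[
  .mk 48 26 58 [0xe1fee00000]],
[
  .mk 48 26 58 [0x30000000000]],
[
  .mk 48 26 58 [0x7ffc1e001fffff],
  .mk 48 26 58 [0x1000000, 0x3fffffffd]],
[
  .mk 48 26 58 [0x1000000, 0x2, 0x3c1f800000000000000000000000000000000000000000000000000000]],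
[
  .mk 48 26 58 [0x1000000, 0x2, 0xfffffffffffffc3e07fffffffffffffffffffffffffffffffffffffffffffffffffffff]]]

theorem run : RunAll (runX PT.R (Wk.frw PT.R) nl RvT (SMap.evl cT tlT PT.vx ringF)) P :=
  .cons t0 (.cons t1 (.cons t2 (.cons t3 (.cons t4 (.cons t5 (.nil))))))

end Pool.Agent.Lib.MP_5854e1_co.Cz.Sr491
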