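import Pool.Agent.Lib.MP_5854e1_co.Cz.P
import Pool.Agent.Lib.MP_5854e1_co.Tkx
import Pool.Agent.Lib.MP_5854e1_co.RunAll

/-!
# Search, part 13
-/

set_option autoImplicit false
set_option deprecated.oldSectionVars true
set_option maxRecDepth 100000

namespace Pool.Agent.Lib.MP_5854e1_co.Cz.Sr013

open PB

theorem t0 : runX PT.R (Wk.frw PT.R) nl RvT (SMap.evl cT tlT PT.vx ringF) [
  .mk 0 88 8 [0x8000000, 0x1fd3]] = true := by
  decide +kernel

theorem t1 : runX PT.R (Wk.frw PT.R) nl RvT (SMap.evl cT tlT PT.vx ringF) [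
  .mk 0 88 8 [0x8000000, 0xfffffe02c]] = true := by
  decide +kernel

theorem t2 : runX PT.R (Wk.frw PT.R) nl RvT (SMap.evl cT tlT PT.vx ringF) [
  .mk 0 89 9 [0x1]] = true := by
  decide +kernel

theorem t3 : runX PT.R (Wk.frw PT.R) nl RvT (SMap.evl cT tlT PT.vx ringF) [
  .mk 0 89 9 [0x28d6]] = true := by
  decide +kernel

theorem t4 : runX PT.R (Wk.frw PT.R) nl RvT (SMap.evl cT tlT PT.vx ringF) [
  .mk 0 89 9 [0x204888000]] = true := by
  decide +kernel

theorem t5 : runX PT.R (Wk.frw PT.R) nl RvT (SMap.evl cT tlT PT.vx ringF) [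
  .mk 0 89 9 [0x1c00000000]] = true := by
  decide +kernel

/-- The tasks. -/
noncomputable def P : List (List Tk) := [
[
  .mk 0 88 8 [0x8000000, 0x1fd3]],
[
  .mk 0 88 8 [0x8000000, 0xfffffe02c]],
[
  .mk 0 89 9 [0x1]],
[
  .mk 0 89 9 [0x28d6]],
[
  .mk 0 89 9 [0x204888000]],
[
  .mk 0 89 9 [0x1c00000000]]]

theorem run : RunAll (runX PT.R (Wk.frw PT.R) nl RvT (SMap.evl cT tlT PT.vx ringF)) P :=
  .cons t0 (.cons t1 (.cons t2 (.cons t3 (.cons t4 (.cons t5 (.nil))))))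

end Pool.Agent.Lib.MP_5854e1_co.Cz.Sr013

namespace Pool.Agent.Lib.MP_5854e1_co.Cz.Sr382

open PB

theorem t0 : runX PT.R (Wk.frw PT.R) nl RvT (SMap.evl cT tlT PT.vx ringF) [
  .mk 41 7 39 [0x10000, 0x200, 0xfffffffec]] = true := by
  decide +kernel

theorem t1 : runX PT.R (Wk.frw PT.R) nl RvT (SMap.evl cT tlT PT.vx ringF) [
  .mk 41 7 39 [0x10000, 0x400, 0x3fedffffbffff]] = true := by
  decide +kernel

theorem t2 : runX PT.R (Wk.frw PT.R) nl RvT (SMap.evl cT tlT PT.vx ringF) [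
  .mk 41 7 39 [0x10000, 0x400, 0x40000, 0x307e0000000000000000000000000000000000000000000000000000000000000000000000]] = true := by
  decide +kernel

theorem t3 : runX PT.R (Wk.frw PT.R) nl RvT (SMap.evl cT tlT PT.vx ringF) [
  .mk 41 7 39 [0x10000, 0x400, 0x40000, 0x3c0000000000000000000000000000000000000000000000000000000000000000000000000]] = true := by
  decide +kernel

theorem t4 : runX PT.R (Wk.frw PT.R) nl RvT (SMap.evl cT tlT PT.vx ringF) [
  .mk 41 7 39 [0x10000, 0x400, 0x40000, 0xfffffffffffffffffffffffffffffc0f81ffffffffffffffffffffffffffffffffffffffffffffffffffffffffffffffffffffff]] = true := by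
  decide +kernel

theorem t5 : runX PT.R (Wk.frw PT.R) nl RvT (SMap.evl cT tlT PT.vx ringF) [
  .mk 41 7 39 [0x10000, 0x400, 0x2000000000, 0x348b]] = true := by
  decide +kernel

/-- The tasks. -/
noncomputable def P : List (List Tk) := [
[
  .mk 41 7 39 [0x10000, 0x200, 0xfffffffec]],
[
  .mk 41 7 39 [0x10000, 0x400, 0x3fedffffbffff]],
[
  .mk 41 7 39 [0x10000, 0x400, 0x40000, 0x307e0000000000000000000000000000000000000000000000000000000000000000000000]],
[
  .mk 41 7 39 [0x10000, 0x400, 0x40000, 0x3c0000000000000000000000000000000000000000000000000000000000000000000000000]],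
[
  .mk 41 7 39 [0x10000, 0x400, 0x40000, 0xfffffffffffffffffffffffffffffc0f81ffffffffffffffffffffffffffffffffffffffffffffffffffffffffffffffffffffff]],
[
  .mk 41 7 39 [0x10000, 0x400, 0x2000000000, 0x348b]]]

theorem run : RunAll (runX PT.R (Wk.frw PT.R) nl RvT (SMap.evl cT tlT PT.vx ringF)) P :=
  .cons t0 (.cons t1 (.cons t2 (.cons t3 (.cons t4 (.cons t5 (.nil))))))

end Pool.Agent.Lib.MP_5854e1_co.Cz.Sr382

namespace Pool.Agent.Lib.MP_5854e1_co.Cz.Sr521

open PB

theorem t0 : runX PT.R (Wk.frw PT.R) nl RvT (SMap.evl cT tlT PT.vx ringF) [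
  .mk 63 9 52 [0x400, 0x800000, 0x93]] = true := by
  decide +kernel

theorem t1 : runX PT.R (Wk.frw PT.R) nl RvT (SMap.evl cT tlT PT.vx ringF) [
  .mk 63 9 52 [0x400, 0x800000, 0x3ffffff6c],
  .mk 63 9 52 [0x400, 0x10000000, 0x7fe5ff]] = true := by
  decide +kernel

theorem t2 : runX PT.R (Wk.frw PT.R) nl RvT (SMap.evl cT tlT PT.vx ringF) [
  .mk 63 9 52 [0x400, 0x10000000, 0x200, 0x1c0008401]] = true := by
  decide +kernel

theorem t3 : runX PT.R (Wk.frw PT.R) nl RvT (SMap.evl cT tlT PT.vx ringF) [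
  .mk 63 9 52 [0x400, 0x10000000, 0x200, 0xfffffffffffffffffffffffffffffffffffffffffffffffffffffffffffffffffffffffffffffffffffffffffffffffe3fff7bfe]] = true := by
  decide +kernel

theorem t4 : runX PT.R (Wk.frw PT.R) nl RvT (SMap.evl cT tlT PT.vx ringF) [
  .mk 63 9 52 [0x400, 0x10000000, 0x800, 0x13]] = true := by
  decide +kernel

theorem t5 : runX PT.R (Wk.frw PT.R) nl RvT (SMap.evl cT tlT PT.vx ringF) [
  .mk 63 9 52 [0x400, 0x10000000, 0x800, 0xfffffffec]] = true := by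
  decide +kernel

/-- The tasks. -/
noncomputable def P : List (List Tk) := [
[
  .mk 63 9 52 [0x400, 0x800000, 0x93]],
[
  .mk 63 9 52 [0x400, 0x800000, 0x3ffffff6c],
  .mk 63 9 52 [0x400, 0x10000000, 0x7fe5ff]],
[
  .mk 63 9 52 [0x400, 0x10000000, 0x200, 0x1c0008401]],
[
  .mk 63 9 52 [0x400, 0x10000000, 0x200, 0xfffffffffffffffffffffffffffffffffffffffffffffffffffffffffffffffffffffffffffffffffffffffffffffffe3fff7bfe]],
[
  .mk 63 9 52 [0x400, 0x10000000, 0x800, 0x13]],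
[
  .mk 63 9 52 [0x400, 0x10000000, 0x800, 0xfffffffec]]]

theorem run : RunAll (runX PT.R (Wk.frw PT.R) nl RvT (SMap.evl cT tlT PT.vx ringF)) P :=
  .cons t0 (.cons t1 (.cons t2 (.cons t3 (.cons t4 (.cons t5 (.nil))))))

end Pool.Agent.Lib.MP_5854e1_co.Cz.Sr521
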