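import Pool.Agent.Lib.MP_5854e1_co.Cz.P
import Pool.Agent.Lib.MP_5854e1_co.Tkx
import Pool.Agent.Lib.MP_5854e1_co.RunAll

/-!
# Search, part 14
-/

set_option autoImplicit false
set_option deprecated.oldSectionVars true
set_option maxRecDepth 100000

namespace Pool.Agent.Lib.MP_5854e1_co.Cz.Sr014

open PB

theorem t0 : runX PT.R (Wk.frw PT.R) nl RvT (SMap.evl cT tlT PT.vx ringF) [
  .mk 0 89 9 [0xe000000000]] = true := by
  decide +kernel

theorem t1 : runX PT.R (Wk.frw PT.R) nl RvT (SMap.evl cT tlT PT.vx ringF) [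
  .mk 0 89 9 [0x1f0000000000]] = true := by
  decide +kernel

theorem t2 : runX PT.R (Wk.frw PT.R) nl RvT (SMap.evl cT tlT PT.vx ringF) [
  .mk 0 89 9 [0x200000000000]] = true := by
  decide +kernel

theorem t3 : runX PT.R (Wk.frw PT.R) nl RvT (SMap.evl cT tlT PT.vx ringF) [
  .mk 0 89 9 [0x3c000fb775620]] = true := by
  decide +kernel

theorem t4 : runX PT.R (Wk.frw PT.R) nl RvT (SMap.evl cT tlT PT.vx ringF) [
  .mk 0 89 9 [0x8, 0x7]] = true := by
  decide +kernel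

theorem t5 : runX PT.R (Wk.frw PT.R) nl RvT (SMap.evl cT tlT PT.vx ringF) [
  .mk 0 89 9 [0x8, 0x1f8]] = true := by
  decide +kernel

/-- The tasks. -/
noncomputable def P : List (List Tk) := [
[
  .mk 0 89 9 [0xe000000000]],
[
  .mk 0 89 9 [0x1f0000000000]],
[
  .mk 0 89 9 [0x200000000000]],
[
  .mk 0 89 9 [0x3c000fb775620]],
[
  .mk 0 89 9 [0x8, 0x7]],
[
  .mk 0 89 9 [0x8, 0x1f8]]]

theorem run : RunAll (runX PT.R (Wk.frw PT.R) nl RvT (SMap.evl cT tlT PT.vx ringF)) P :=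
  .cons t0 (.cons t1 (.cons t2 (.cons t3 (.cons t4 (.cons t5 (.nil))))))

end Pool.Agent.Lib.MP_5854e1_co.Cz.Sr014

namespace Pool.Agent.Lib.MP_5854e1_co.Cz.Sr467

open PB

theorem t0 : runX PT.R (Wk.frw PT.R) nl RvT (SMap.evl cT tlT PT.vx ringF) [
  .mk 45 21 63 [0x200, 0x393]] = true := by
  decide +kernel

theorem t1 : runX PT.R (Wk.frw PT.R) nl RvT (SMap.evl cT tlT PT.vx ringF) [
  .mk 45 21 63 [0x200, 0xdc00]] = true := by
  decide +kernel

theorem t2 : runX PT.R (Wk.frw PT.R) nl RvT (SMap.evl cT tlT PT.vx ringF) [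
  .mk 45 21 63 [0x200, 0xfffff206c],
  .mk 45 21 63 [0x1000, 0xffffbff],
  .mk 45 21 63 [0x1000, 0x400, 0x68b]] = true := by
  decide +kernel

theorem t3 : runX PT.R (Wk.frw PT.R) nl RvT (SMap.evl cT tlT PT.vx ringF) [
  .mk 45 21 63 [0x1000, 0x400, 0x7ff974]] = true := by
  decide +kernel

theorem t4 : runX PT.R (Wk.frw PT.R) nl RvT (SMap.evl cT tlT PT.vx ringF) [
  .mk 45 21 63 [0x4000, 0x2000cf]] = true := by
  decide +kernel

/-- The tasks. -/
noncomputable def P : List (List Tk) := [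
[
  .mk 45 21 63 [0x200, 0x393]],
[
  .mk 45 21 63 [0x200, 0xdc00]],
[
  .mk 45 21 63 [0x200, 0xfffff206c],
  .mk 45 21 63 [0x1000, 0xffffbff],
  .mk 45 21 63 [0x1000, 0x400, 0x68b]],
[
  .mk 45 21 63 [0x1000, 0x400, 0x7ff974]],
[
  .mk 45 21 63 [0x4000, 0x2000cf]]]

theorem run : RunAll (runX PT.R (Wk.frw PT.R) nl RvT (SMap.evl cT tlT PT.vx ringF)) P :=
  .cons t0 (.cons t1 (.cons t2 (.cons t3 (.cons t4 (.nil)))))

end Pool.Agent.Lib.MP_5854e1_co.Cz.Sr467

namespace Pool.Agent.Lib.MP_5854e1_co.Cz.Sr539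

open PB

theorem t0 : runX PT.R (Wk.frw PT.R) nl RvT (SMap.evl cT tlT PT.vx ringF) [
  .mk 68 9 0 [0x80000000000000000000000000000000000000000000000, 0x3ff]] = true := by
  decide +kernel

theorem t1 : runX PT.R (Wk.frw PT.R) nl RvT (SMap.evl cT tlT PT.vx ringF) [
  .mk 68 9 0 [0x80000000000000000000000000000000000000000000000, 0xffffc00]] = true := by
  decide +kernel

theorem t2 : runX PT.R (Wk.frw PT.R) nl RvT (SMap.evl cT tlT PT.vx ringF) [
  .mk 68 9 0 [0x200000000000000000000000000000000000000000000000, 0x7e9e8f]] = true := by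
  decide +kernel

theorem t3 : runX PT.R (Wk.frw PT.R) nl RvT (SMap.evl cT tlT PT.vx ringF) [
  .mk 68 9 0 [0x200000000000000000000000000000000000000000000000, 0x7816170],
  .mk 68 10 1 [],
  .mk 68 11 3 [0xf]] = true := by
  decide +kernel

theorem t4 : runX PT.R (Wk.frw PT.R) nl RvT (SMap.evl cT tlT PT.vx ringF) [
  .mk 68 11 3 [0x180]] = true := by
  decide +kernel

theorem t5 : runX PT.R (Wk.frw PT.R) nl RvT (SMap.evl cT tlT PT.vx ringF) [
  .mk 68 11 3 [0xa00]] = true := by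
  decide +kernel

/-- The tasks. -/
noncomputable def P : List (List Tk) := [
[
  .mk 68 9 0 [0x80000000000000000000000000000000000000000000000, 0x3ff]],
[
  .mk 68 9 0 [0x80000000000000000000000000000000000000000000000, 0xffffc00]],
[
  .mk 68 9 0 [0x200000000000000000000000000000000000000000000000, 0x7e9e8f]],
[
  .mk 68 9 0 [0x200000000000000000000000000000000000000000000000, 0x7816170],
  .mk 68 10 1 [],
  .mk 68 11 3 [0xf]],
[
  .mk 68 11 3 [0x180]],
[
  .mk 68 11 3 [0xa00]]]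

theorem run : RunAll (runX PT.R (Wk.frw PT.R) nl RvT (SMap.evl cT tlT PT.vx ringF)) P :=
  .cons t0 (.cons t1 (.cons t2 (.cons t3 (.cons t4 (.cons t5 (.nil))))))

end Pool.Agent.Lib.MP_5854e1_co.Cz.Sr539
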