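import Pool.Agent.Lib.MP_5854e1_co.Cz.P
import Pool.Agent.Lib.MP_5854e1_co.Tkx
import Pool.Agent.Lib.MP_5854e1_co.RunAll

/-!
# Search, part 15
-/

set_option autoImplicit false
set_option deprecated.oldSectionVars true
set_option maxRecDepth 100000

namespace Pool.Agent.Lib.MP_5854e1_co.Cz.Sr015

open PB

theorem t0 : runX PT.R (Wk.frw PT.R) nl RvT (SMap.evl cT tlT PT.vx ringF) [
  .mk 0 89 9 [0x8, 0x600]] = true := by
  decide +kernel

theorem t1 : runX PT.R (Wk.frw PT.R) nl RvT (SMap.evl cT tlT PT.vx ringF) [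
  .mk 0 89 9 [0x8, 0x3f800]] = true := by
  decide +kernel

theorem t2 : runX PT.R (Wk.frw PT.R) nl RvT (SMap.evl cT tlT PT.vx ringF) [
  .mk 0 89 9 [0x8, 0x3fffc0000],
  .mk 0 89 9 [0x100, 0xd35]] = true := by
  decide +kernel

theorem t3 : runX PT.R (Wk.frw PT.R) nl RvT (SMap.evl cT tlT PT.vx ringF) [
  .mk 0 89 9 [0x100, 0x1000]] = true := by
  decide +kernel

theorem t4 : runX PT.R (Wk.frw PT.R) nl RvT (SMap.evl cT tlT PT.vx ringF) [
  .mk 0 89 9 [0x100, 0x7f80ca]] = true := by
  decide +kernel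

theorem t5 : runX PT.R (Wk.frw PT.R) nl RvT (SMap.evl cT tlT PT.vx ringF) [
  .mk 0 89 9 [0x100, 0x200, 0x1c000002000000000000000000000000000000028600341]] = true := by
  decide +kernel

/-- The tasks. -/
noncomputable def P : List (List Tk) := [
[
  .mk 0 89 9 [0x8, 0x600]],
[
  .mk 0 89 9 [0x8, 0x3f800]],
[
  .mk 0 89 9 [0x8, 0x3fffc0000],
  .mk 0 89 9 [0x100, 0xd35]],
[
  .mk 0 89 9 [0x100, 0x1000]],
[
  .mk 0 89 9 [0x100, 0x7f80ca]],
[
  .mk 0 89 9 [0x100, 0x200, 0x1c000002000000000000000000000000000000028600341]]]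

theorem run : RunAll (runX PT.R (Wk.frw PT.R) nl RvT (SMap.evl cT tlT PT.vx ringF)) P :=
  .cons t0 (.cons t1 (.cons t2 (.cons t3 (.cons t4 (.cons t5 (.nil))))))

end Pool.Agent.Lib.MP_5854e1_co.Cz.Sr015

namespace Pool.Agent.Lib.MP_5854e1_co.Cz.Sr279

open PB

theorem t0 : runX PT.R (Wk.frw PT.R) nl RvT (SMap.evl cT tlT PT.vx ringF) [
  .mk 12 17 0 [0x2000000000000000000000000000000000000000000000000000000000, 0x3fbfffff],
  .mk 12 18 20 [0xfffffffffffffbfffffffffffffffffffffffffffffffffffffffffffffffffffffffff]] = true := by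
  decide +kernel

theorem t1 : runX PT.R (Wk.frw PT.R) nl RvT (SMap.evl cT tlT PT.vx ringF) [
  .mk 12 18 20 [0x4000000000000000000000000000000000000000000000000000000000, 0x12c0d]] = true := by
  decide +kernel

theorem t2 : runX PT.R (Wk.frw PT.R) nl RvT (SMap.evl cT tlT PT.vx ringF) [
  .mk 12 18 20 [0x4000000000000000000000000000000000000000000000000000000000, 0x40000]] = true := by
  decide +kernel

theorem t3 : runX PT.R (Wk.frw PT.R) nl RvT (SMap.evl cT tlT PT.vx ringF) [
  .mk 12 18 20 [0x4000000000000000000000000000000000000000000000000000000000, 0xffffffffffffffffffffffffffffffffffffffffffffffffffffffffffffffffffac3f2]] = true := by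
  decide +kernel

theorem t4 : runX PT.R (Wk.frw PT.R) nl RvT (SMap.evl cT tlT PT.vx ringF) [
  .mk 12 18 20 [0x4000000000000000000000000000000000000000000000000000000000, 0x1000, 0x9e06806f]] = true := by
  decide +kernel

theorem t5 : runX PT.R (Wk.frw PT.R) nl RvT (SMap.evl cT tlT PT.vx ringF) [
  .mk 12 18 20 [0x4000000000000000000000000000000000000000000000000000000000, 0x1000, 0xf61f97f90]] = true := by
  decide +kernel

/-- The tasks. -/
noncomputable def P : List (List Tk) := [
[
  .mk 12 17 0 [0x2000000000000000000000000000000000000000000000000000000000, 0x3fbfffff],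
  .mk 12 18 20 [0xfffffffffffffbfffffffffffffffffffffffffffffffffffffffffffffffffffffffff]],
[
  .mk 12 18 20 [0x4000000000000000000000000000000000000000000000000000000000, 0x12c0d]],
[
  .mk 12 18 20 [0x4000000000000000000000000000000000000000000000000000000000, 0x40000]],
[
  .mk 12 18 20 [0x4000000000000000000000000000000000000000000000000000000000, 0xffffffffffffffffffffffffffffffffffffffffffffffffffffffffffffffffffac3f2]],
[
  .mk 12 18 20 [0x4000000000000000000000000000000000000000000000000000000000, 0x1000, 0x9e06806f]],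
[
  .mk 12 18 20 [0x4000000000000000000000000000000000000000000000000000000000, 0x1000, 0xf61f97f90]]]

theorem run : RunAll (runX PT.R (Wk.frw PT.R) nl RvT (SMap.evl cT tlT PT.vx ringF)) P :=
  .cons t0 (.cons t1 (.cons t2 (.cons t3 (.cons t4 (.cons t5 (.nil))))))

end Pool.Agent.Lib.MP_5854e1_co.Cz.Sr279
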