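import Pool.Agent.Lib.MP_5854e1_co.Cz.P
import Pool.Agent.Lib.MP_5854e1_co.Tkx
import Pool.Agent.Lib.MP_5854e1_co.RunAll

/-!
# Search, part 17
-/

set_option autoImplicit false
set_option deprecated.oldSectionVars true
set_option maxRecDepth 100000

namespace Pool.Agent.Lib.MP_5854e1_co.Cz.Sr017

open PB

theorem t0 : runX PT.R (Wk.frw PT.R) nl RvT (SMap.evl cT tlT PT.vx ringF) [
  .mk 0 89 9 [0x100, 0x4000, 0x1f0c00]] = true := by
  decide +kernel

theorem t1 : runX PT.R (Wk.frw PT.R) nl RvT (SMap.evl cT tlT PT.vx ringF) [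
  .mk 0 89 9 [0x100, 0x4000, 0x3ffffffe0f000]] = true := by
  decide +kernel

theorem t2 : runX PT.R (Wk.frw PT.R) nl RvT (SMap.evl cT tlT PT.vx ringF) [
  .mk 0 89 9 [0x100000000, 0x53802180200000000000000000000000000000003a600000]] = true := by
  decide +kernel

theorem t3 : runX PT.R (Wk.frw PT.R) nl RvT (SMap.evl cT tlT PT.vx ringF) [
  .mk 0 89 9 [0x100000000, 0xffffffffffffffffffffffffffffffffffffffffffffffffffffffffac7fde7fdfffffffffffffffffffffffffffffffc59fffff]] = true := by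
  decide +kernel

theorem t4 : runX PT.R (Wk.frw PT.R) nl RvT (SMap.evl cT tlT PT.vx ringF) [
  .mk 0 90 10 [0x1d]] = true := by
  decide +kernel

theorem t5 : runX PT.R (Wk.frw PT.R) nl RvT (SMap.evl cT tlT PT.vx ringF) [
  .mk 0 90 10 [0x7e0]] = true := by
  decide +kernel

/-- The tasks. -/
noncomputable def P : List (List Tk) := [
[
  .mk 0 89 9 [0x100, 0x4000, 0x1f0c00]],
[
  .mk 0 89 9 [0x100, 0x4000, 0x3ffffffe0f000]],
[
  .mk 0 89 9 [0x100000000, 0x53802180200000000000000000000000000000003a600000]],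
[
  .mk 0 89 9 [0x100000000, 0xffffffffffffffffffffffffffffffffffffffffffffffffffffffffac7fde7fdfffffffffffffffffffffffffffffffc59fffff]],
[
  .mk 0 90 10 [0x1d]],
[
  .mk 0 90 10 [0x7e0]]]

theorem run : RunAll (runX PT.R (Wk.frw PT.R) nl RvT (SMap.evl cT tlT PT.vx ringF)) P :=
  .cons t0 (.cons t1 (.cons t2 (.cons t3 (.cons t4 (.cons t5 (.nil))))))

end Pool.Agent.Lib.MP_5854e1_co.Cz.Sr017

namespace Pool.Agent.Lib.MP_5854e1_co.Cz.Sr060

open PB

theorem t0 : runX PT.R (Wk.frw PT.R) nl RvT (SMap.evl cT tlT PT.vx ringF) [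
  .mk 0 115 48 [0x8000000, 0x1bf]] = true := by
  decide +kernel

theorem t1 : runX PT.R (Wk.frw PT.R) nl RvT (SMap.evl cT tlT PT.vx ringF) [
  .mk 0 115 48 [0x8000000, 0x7a00]] = true := by
  decide +kernel

theorem t2 : runX PT.R (Wk.frw PT.R) nl RvT (SMap.evl cT tlT PT.vx ringF) [
  .mk 0 115 48 [0x8000000, 0xfffff8040]] = true := by
  decide +kernel

theorem t3 : runX PT.R (Wk.frw PT.R) nl RvT (SMap.evl cT tlT PT.vx ringF) [
  .mk 0 115 48 [0x8000000, 0x400, 0x3e0000040000]] = true := by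
  decide +kernel

theorem t4 : runX PT.R (Wk.frw PT.R) nl RvT (SMap.evl cT tlT PT.vx ringF) [
  .mk 0 115 48 [0x8000000, 0x400, 0x3c1fffffbffff]] = true := by
  decide +kernel

theorem t5 : runX PT.R (Wk.frw PT.R) nl RvT (SMap.evl cT tlT PT.vx ringF) [
  .mk 0 116 49 [0x8]] = true := by
  decide +kernel

theorem t6 : runX PT.R (Wk.frw PT.R) nl RvT (SMap.evl cT tlT PT.vx ringF) [
  .mk 0 116 49 [0xfffffcdf3]] = true := by
  decide +kernel

/-- The tasks. -/
noncomputable def P : List (List Tk) := [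
[
  .mk 0 115 48 [0x8000000, 0x1bf]],
[
  .mk 0 115 48 [0x8000000, 0x7a00]],
[
  .mk 0 115 48 [0x8000000, 0xfffff8040]],
[
  .mk 0 115 48 [0x8000000, 0x400, 0x3e0000040000]],
[
  .mk 0 115 48 [0x8000000, 0x400, 0x3c1fffffbffff]],
[
  .mk 0 116 49 [0x8]],
[
  .mk 0 116 49 [0xfffffcdf3]]]

theorem run : RunAll (runX PT.R (Wk.frw PT.R) nl RvT (SMap.evl cT tlT PT.vx ringF)) P :=
  .cons t0 (.cons t1 (.cons t2 (.cons t3 (.cons t4 (.cons t5 (.cons t6 (.nil)))))))

end Pool.Agent.Lib.MP_5854e1_co.Cz.Sr060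

namespace Pool.Agent.Lib.MP_5854e1_co.Cz.Sr562

open PB

theorem t0 : runX PT.R (Wk.frw PT.R) nl RvT (SMap.evl cT tlT PT.vx ringF) [
  .mk 68 15 23 [0x1016130]] = true := by
  decide +kernel

theorem t1 : runX PT.R (Wk.frw PT.R) nl RvT (SMap.evl cT tlT PT.vx ringF) [
  .mk 68 15 23 [0x100000, 0x35c000000002000000000000000000000000000000000000000]] = true := by
  decide +kernel

theorem t2 : runX PT.R (Wk.frw PT.R) nl RvT (SMap.evl cT tlT PT.vx ringF) [
  .mk 68 15 23 [0x100000, 0x7800c00000000000000000000000000000000000000000000000000]] = true := by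
  decide +kernel

theorem t3 : runX PT.R (Wk.frw PT.R) nl RvT (SMap.evl cT tlT PT.vx ringF) [
  .mk 68 15 23 [0x100000, 0xfffffffffffffffffffffffffffffffffffffffffffffffff87ff001ffffffffdfffffffffffffffffffffffffffffffffffffff]] = true := by
  decide +kernel

theorem t4 : runX PT.R (Wk.frw PT.R) nl RvT (SMap.evl cT tlT PT.vx ringF) [
  .mk 68 15 23 [0x100000, 0x2000000000000000000000000000000000000000000000000, 0x6917f]] = true := by
  decide +kernel

theorem t5 : runX PT.R (Wk.frw PT.R) nl RvT (SMap.evl cT tlT PT.vx ringF) [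
  .mk 68 15 23 [0x100000, 0x2000000000000000000000000000000000000000000000000, 0x792e80],
  .mk 68 15 23 [0x100000, 0x2000000000000000000000000000000000000000000000000, 0x4000, 0x13c00808200000000000000028401]] = true := by
  decide +kernel

/-- The tasks. -/
noncomputable def P : List (List Tk) := [
[
  .mk 68 15 23 [0x1016130]],
[
  .mk 68 15 23 [0x100000, 0x35c000000002000000000000000000000000000000000000000]],
[
  .mk 68 15 23 [0x100000, 0x7800c00000000000000000000000000000000000000000000000000]],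
[
  .mk 68 15 23 [0x100000, 0xfffffffffffffffffffffffffffffffffffffffffffffffff87ff001ffffffffdfffffffffffffffffffffffffffffffffffffff]],
[
  .mk 68 15 23 [0x100000, 0x2000000000000000000000000000000000000000000000000, 0x6917f]],
[
  .mk 68 15 23 [0x100000, 0x2000000000000000000000000000000000000000000000000, 0x792e80],
  .mk 68 15 23 [0x100000, 0x2000000000000000000000000000000000000000000000000, 0x4000, 0x13c00808200000000000000028401]]]

theorem run : RunAll (runX PT.R (Wk.frw PT.R) nl RvT (SMap.evl cT tlT PT.vx ringF)) P :=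
  .cons t0 (.cons t1 (.cons t2 (.cons t3 (.cons t4 (.cons t5 (.nil))))))

end Pool.Agent.Lib.MP_5854e1_co.Cz.Sr562
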