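import Pool.Agent.Lib.MP_5854e1_co.Cz.P
import Pool.Agent.Lib.MP_5854e1_co.Tkx
import Pool.Agent.Lib.MP_5854e1_co.RunAll

/-!
# Search, part 19
-/

set_option autoImplicit false
set_option deprecated.oldSectionVars true
set_option maxRecDepth 100000

namespace Pool.Agent.Lib.MP_5854e1_co.Cz.Sr019

open PB

theorem t0 : runX PT.R (Wk.frw PT.R) nl RvT (SMap.evl cT tlT PT.vx ringF) [
  .mk 0 90 10 [0x100000, 0x70040000000000000000000000000000000000]] = true := by
  decide +kernel

theorem t1 : runX PT.R (Wk.frw PT.R) nl RvT (SMap.evl cT tlT PT.vx ringF) [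
  .mk 0 90 10 [0x100000, 0xffffffffffffffffffffffffffffffffffffffffffffffffffffffffffffffffff8ff80f001ffffffffdffffffffffffffffffff]] = true := by
  decide +kernel

theorem t2 : runX PT.R (Wk.frw PT.R) nl RvT (SMap.evl cT tlT PT.vx ringF) [
  .mk 0 90 10 [0x200000, 0x3c08800000000000000000127f468f7ba4000000000000000000000000000000]] = true := by
  decide +kernel

theorem t3 : runX PT.R (Wk.frw PT.R) nl RvT (SMap.evl cT tlT PT.vx ringF) [
  .mk 0 90 10 [0x200000, 0x3400d00c000000000000000000000000000000000000000000000000000000000000000]] = true := by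
  decide +kernel

theorem t4 : runX PT.R (Wk.frw PT.R) nl RvT (SMap.evl cT tlT PT.vx ringF) [
  .mk 0 90 10 [0x200000, 0xcbff2ff03f77fffffffffffffffffed80b970845bffffffffffffffffffffffffffffff],
  .mk 0 90 10 [0x400000, 0x8f]] = true := by
  decide +kernel

theorem t5 : runX PT.R (Wk.frw PT.R) nl RvT (SMap.evl cT tlT PT.vx ringF) [
  .mk 0 90 10 [0x400000, 0x600]] = true := by
  decide +kernel

/-- The tasks. -/
noncomputable def P : List (List Tk) := [
[
  .mk 0 90 10 [0x100000, 0x70040000000000000000000000000000000000]],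
[
  .mk 0 90 10 [0x100000, 0xffffffffffffffffffffffffffffffffffffffffffffffffffffffffffffffffff8ff80f001ffffffffdffffffffffffffffffff]],
[
  .mk 0 90 10 [0x200000, 0x3c08800000000000000000127f468f7ba4000000000000000000000000000000]],
[
  .mk 0 90 10 [0x200000, 0x3400d00c000000000000000000000000000000000000000000000000000000000000000]],
[
  .mk 0 90 10 [0x200000, 0xcbff2ff03f77fffffffffffffffffed80b970845bffffffffffffffffffffffffffffff],
  .mk 0 90 10 [0x400000, 0x8f]],
[
  .mk 0 90 10 [0x400000, 0x600]]]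

theorem run : RunAll (runX PT.R (Wk.frw PT.R) nl RvT (SMap.evl cT tlT PT.vx ringF)) P :=
  .cons t0 (.cons t1 (.cons t2 (.cons t3 (.cons t4 (.cons t5 (.nil))))))

end Pool.Agent.Lib.MP_5854e1_co.Cz.Sr019

namespace Pool.Agent.Lib.MP_5854e1_co.Cz.Sr522

open PB

theorem t0 : runX PT.R (Wk.frw PT.R) nl RvT (SMap.evl cT tlT PT.vx ringF) [
  .mk 63 9 52 [0x400, 0x10000000, 0x1000, 0x70000000000000]] = true := by
  decide +kernel

theorem t1 : runX PT.R (Wk.frw PT.R) nl RvT (SMap.evl cT tlT PT.vx ringF) [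
  .mk 63 9 52 [0x400, 0x10000000, 0x1000, 0xfffffffffffffffffffffffffffffffffffffffffffffffffffffffff8ffffffffffffe]] = true := by
  decide +kernel

theorem t2 : runX PT.R (Wk.frw PT.R) nl RvT (SMap.evl cT tlT PT.vx ringF) [
  .mk 63 9 52 [0x400, 0x10000000, 0x1000, 0x1, 0xc1f800000000000000000000000000000000000000000000000000000000000000000000000000000000000000000000]] = true := by
  decide +kernel

theorem t3 : runX PT.R (Wk.frw PT.R) nl RvT (SMap.evl cT tlT PT.vx ringF) [
  .mk 63 9 52 [0x400, 0x10000000, 0x1000, 0x1, 0xffffffff3e07ffffffffffffffffffffffffffffffffffffffffffffffffffffffffffffffffffffffffffffffffffffffffffff]] = true := by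
  decide +kernel

theorem t4 : runX PT.R (Wk.frw PT.R) nl RvT (SMap.evl cT tlT PT.vx ringF) [
  .mk 63 9 52 [0x2000, 0x3a793]] = true := by
  decide +kernel

theorem t5 : runX PT.R (Wk.frw PT.R) nl RvT (SMap.evl cT tlT PT.vx ringF) [
  .mk 63 9 52 [0x2000, 0xffc586c]] = true := by
  decide +kernel

/-- The tasks. -/
noncomputable def P : List (List Tk) := [
[
  .mk 63 9 52 [0x400, 0x10000000, 0x1000, 0x70000000000000]],
[
  .mk 63 9 52 [0x400, 0x10000000, 0x1000, 0xfffffffffffffffffffffffffffffffffffffffffffffffffffffffff8ffffffffffffe]],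
[
  .mk 63 9 52 [0x400, 0x10000000, 0x1000, 0x1, 0xc1f800000000000000000000000000000000000000000000000000000000000000000000000000000000000000000000]],
[
  .mk 63 9 52 [0x400, 0x10000000, 0x1000, 0x1, 0xffffffff3e07ffffffffffffffffffffffffffffffffffffffffffffffffffffffffffffffffffffffffffffffffffffffffffff]],
[
  .mk 63 9 52 [0x2000, 0x3a793]],
[
  .mk 63 9 52 [0x2000, 0xffc586c]]]

theorem run : RunAll (runX PT.R (Wk.frw PT.R) nl RvT (SMap.evl cT tlT PT.vx ringF)) P :=
  .cons t0 (.cons t1 (.cons t2 (.cons t3 (.cons t4 (.cons t5 (.nil))))))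

end Pool.Agent.Lib.MP_5854e1_co.Cz.Sr522
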