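import Pool.Agent.Lib.MP_5854e1_co.Cz.P
import Pool.Agent.Lib.MP_5854e1_co.Tkx
import Pool.Agent.Lib.MP_5854e1_co.RunAll

/-!
# Search, part 21
-/

set_option autoImplicit false
set_option deprecated.oldSectionVars true
set_option maxRecDepth 100000

namespace Pool.Agent.Lib.MP_5854e1_co.Cz.Sr021

open PB

theorem t0 : runX PT.R (Wk.frw PT.R) nl RvT (SMap.evl cT tlT PT.vx ringF) [
  .mk 0 90 10 [0x800000, 0x3f098584c]] = true := by
  decide +kernel

theorem t1 : runX PT.R (Wk.frw PT.R) nl RvT (SMap.evl cT tlT PT.vx ringF) [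
  .mk 0 90 10 [0x800000, 0x20000, 0x4b03e00000000000000000000000000000000000000ff80f000000000002000000000000000000000000000000000000000]] = true := by
  decide +kernel

theorem t2 : runX PT.R (Wk.frw PT.R) nl RvT (SMap.evl cT tlT PT.vx ringF) [
  .mk 0 90 10 [0x800000, 0x20000, 0xfffffb4fc1ffffffffffffffffffffffffffffffffffffff007f0fffffffffffdfffffffffffffffffffffffffffffffffffffff]] = true := by
  decide +kernel

theorem t3 : runX PT.R (Wk.frw PT.R) nl RvT (SMap.evl cT tlT PT.vx ringF) [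
  .mk 0 90 10 [0x1000000, 0xffffff7ffc000000000000000000000000000000]] = true := by
  decide +kernel

theorem t4 : runX PT.R (Wk.frw PT.R) nl RvT (SMap.evl cT tlT PT.vx ringF) [
  .mk 0 90 10 [0x1000000, 0x7c1f800000000000000003ff0000000000000000000000000000000000000000]] = true := by
  decide +kernel

theorem t5 : runX PT.R (Wk.frw PT.R) nl RvT (SMap.evl cT tlT PT.vx ringF) [
  .mk 0 90 10 [0x1000000, 0x3c03a008000000000000000000000000000000000000000000000000000000000000000]] = true := by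
  decide +kernel

/-- The tasks. -/
noncomputable def P : List (List Tk) := [
[
  .mk 0 90 10 [0x800000, 0x3f098584c]],
[
  .mk 0 90 10 [0x800000, 0x20000, 0x4b03e00000000000000000000000000000000000000ff80f000000000002000000000000000000000000000000000000000]],
[
  .mk 0 90 10 [0x800000, 0x20000, 0xfffffb4fc1ffffffffffffffffffffffffffffffffffffff007f0fffffffffffdfffffffffffffffffffffffffffffffffffffff]],
[
  .mk 0 90 10 [0x1000000, 0xffffff7ffc000000000000000000000000000000]],
[
  .mk 0 90 10 [0x1000000, 0x7c1f800000000000000003ff0000000000000000000000000000000000000000]],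
[
  .mk 0 90 10 [0x1000000, 0x3c03a008000000000000000000000000000000000000000000000000000000000000000]]]

theorem run : RunAll (runX PT.R (Wk.frw PT.R) nl RvT (SMap.evl cT tlT PT.vx ringF)) P :=
  .cons t0 (.cons t1 (.cons t2 (.cons t3 (.cons t4 (.cons t5 (.nil))))))

end Pool.Agent.Lib.MP_5854e1_co.Cz.Sr021

namespace Pool.Agent.Lib.MP_5854e1_co.Cz.Sr045

open PB

theorem t0 : runX PT.R (Wk.frw PT.R) nl RvT (SMap.evl cT tlT PT.vx ringF) [
  .mk 0 111 44 [0x74]] = true := by
  decide +kernel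

theorem t1 : runX PT.R (Wk.frw PT.R) nl RvT (SMap.evl cT tlT PT.vx ringF) [
  .mk 0 111 44 [0xe80]] = true := by
  decide +kernel

theorem t2 : runX PT.R (Wk.frw PT.R) nl RvT (SMap.evl cT tlT PT.vx ringF) [
  .mk 0 111 44 [0x7000]] = true := by
  decide +kernel

theorem t3 : runX PT.R (Wk.frw PT.R) nl RvT (SMap.evl cT tlT PT.vx ringF) [
  .mk 0 111 44 [0x38000]] = true := by
  decide +kernel

theorem t4 : runX PT.R (Wk.frw PT.R) nl RvT (SMap.evl cT tlT PT.vx ringF) [
  .mk 0 111 44 [0x1c0000]] = true := by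
  decide +kernel

theorem t5 : runX PT.R (Wk.frw PT.R) nl RvT (SMap.evl cT tlT PT.vx ringF) [
  .mk 0 111 44 [0x1a00000]] = true := by
  decide +kernel

/-- The tasks. -/
noncomputable def P : List (List Tk) := [
[
  .mk 0 111 44 [0x74]],
[
  .mk 0 111 44 [0xe80]],
[
  .mk 0 111 44 [0x7000]],
[
  .mk 0 111 44 [0x38000]],
[
  .mk 0 111 44 [0x1c0000]],
[
  .mk 0 111 44 [0x1a00000]]]

theorem run : RunAll (runX PT.R (Wk.frw PT.R) nl RvT (SMap.evl cT tlT PT.vx ringF)) P :=
  .cons t0 (.cons t1 (.cons t2 (.cons t3 (.cons t4 (.cons t5 (.nil))))))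

end Pool.Agent.Lib.MP_5854e1_co.Cz.Sr045

namespace Pool.Agent.Lib.MP_5854e1_co.Cz.Sr546

open PB

theorem t0 : runX PT.R (Wk.frw PT.R) nl RvT (SMap.evl cT tlT PT.vx ringF) [
  .mk 68 13 21 [0x400, 0x800000, 0x12]] = true := by
  decide +kernel

theorem t1 : runX PT.R (Wk.frw PT.R) nl RvT (SMap.evl cT tlT PT.vx ringF) [
  .mk 68 13 21 [0x400, 0x800000, 0x80]] = true := by
  decide +kernel

theorem t2 : runX PT.R (Wk.frw PT.R) nl RvT (SMap.evl cT tlT PT.vx ringF) [
  .mk 68 13 21 [0x400, 0x800000, 0x100]] = true := by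
  decide +kernel

theorem t3 : runX PT.R (Wk.frw PT.R) nl RvT (SMap.evl cT tlT PT.vx ringF) [
  .mk 68 13 21 [0x400, 0x800000, 0x2000]] = true := by
  decide +kernel

theorem t4 : runX PT.R (Wk.frw PT.R) nl RvT (SMap.evl cT tlT PT.vx ringF) [
  .mk 68 13 21 [0x400, 0x800000, 0x10000]] = true := by
  decide +kernel

theorem t5 : runX PT.R (Wk.frw PT.R) nl RvT (SMap.evl cT tlT PT.vx ringF) [
  .mk 68 13 21 [0x400, 0x800000, 0x3fffe586c]] = true := by
  decide +kernel

/-- The tasks. -/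
noncomputable def P : List (List Tk) := [
[
  .mk 68 13 21 [0x400, 0x800000, 0x12]],
[
  .mk 68 13 21 [0x400, 0x800000, 0x80]],
[
  .mk 68 13 21 [0x400, 0x800000, 0x100]],
[
  .mk 68 13 21 [0x400, 0x800000, 0x2000]],
[
  .mk 68 13 21 [0x400, 0x800000, 0x10000]],
[
  .mk 68 13 21 [0x400, 0x800000, 0x3fffe586c]]]

theorem run : RunAll (runX PT.R (Wk.frw PT.R) nl RvT (SMap.evl cT tlT PT.vx ringF)) P :=
  .cons t0 (.cons t1 (.cons t2 (.cons t3 (.cons t4 (.cons t5 (.nil))))))

end Pool.Agent.Lib.MP_5854e1_co.Cz.Sr546
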