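import Pool.Agent.Lib.MP_5854e1_co.Cz.P
import Pool.Agent.Lib.MP_5854e1_co.Tkx
import Pool.Agent.Lib.MP_5854e1_co.RunAll

/-!
# Search, part 23
-/

set_option autoImplicit false
set_option deprecated.oldSectionVars true
set_option maxRecDepth 100000

namespace Pool.Agent.Lib.MP_5854e1_co.Cz.Sr023

open PB

theorem t0 : runX PT.R (Wk.frw PT.R) nl RvT (SMap.evl cT tlT PT.vx ringF) [
  .mk 0 90 10 [0x1000000, 0x1000000000000000000000000000000000000000000000000000000000000000000, 0x200000000000000000000, 0x1000000000000000000000000000, 0xffffffc6c]] = true := by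
  decide +kernel

theorem t1 : runX PT.R (Wk.frw PT.R) nl RvT (SMap.evl cT tlT PT.vx ringF) [
  .mk 0 90 10 [0x1000000, 0x1000000000000000000000000000000000000000000000000000000000000000000, 0x10000000000000000000000, 0x393]] = true := by
  decide +kernel

theorem t2 : runX PT.R (Wk.frw PT.R) nl RvT (SMap.evl cT tlT PT.vx ringF) [
  .mk 0 90 10 [0x1000000, 0x1000000000000000000000000000000000000000000000000000000000000000000, 0x10000000000000000000000, 0xffffffc6c]] = true := by
  decide +kernel

theorem t3 : runX PT.R (Wk.frw PT.R) nl RvT (SMap.evl cT tlT PT.vx ringF) [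
  .mk 0 90 10 [0x1000000, 0x4000000000000000000000000000000000000000000000000000000000000000000, 0x2e73]] = true := by
  decide +kernel

theorem t4 : runX PT.R (Wk.frw PT.R) nl RvT (SMap.evl cT tlT PT.vx ringF) [
  .mk 0 90 10 [0x1000000, 0x4000000000000000000000000000000000000000000000000000000000000000000, 0xfffffffffffffffffffffffffffffffffffffffffffffffffffffffffffffffffffc18c]] = true := by
  decide +kernel

theorem t5 : runX PT.R (Wk.frw PT.R) nl RvT (SMap.evl cT tlT PT.vx ringF) [
  .mk 0 90 10 [0x1000000, 0x4000000000000000000000000000000000000000000000000000000000000000000, 0x1000, 0x793]] = true := by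
  decide +kernel

/-- The tasks. -/
noncomputable def P : List (List Tk) := [
[
  .mk 0 90 10 [0x1000000, 0x1000000000000000000000000000000000000000000000000000000000000000000, 0x200000000000000000000, 0x1000000000000000000000000000, 0xffffffc6c]],
[
  .mk 0 90 10 [0x1000000, 0x1000000000000000000000000000000000000000000000000000000000000000000, 0x10000000000000000000000, 0x393]],
[
  .mk 0 90 10 [0x1000000, 0x1000000000000000000000000000000000000000000000000000000000000000000, 0x10000000000000000000000, 0xffffffc6c]],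
[
  .mk 0 90 10 [0x1000000, 0x4000000000000000000000000000000000000000000000000000000000000000000, 0x2e73]],
[
  .mk 0 90 10 [0x1000000, 0x4000000000000000000000000000000000000000000000000000000000000000000, 0xfffffffffffffffffffffffffffffffffffffffffffffffffffffffffffffffffffc18c]],
[
  .mk 0 90 10 [0x1000000, 0x4000000000000000000000000000000000000000000000000000000000000000000, 0x1000, 0x793]]]

theorem run : RunAll (runX PT.R (Wk.frw PT.R) nl RvT (SMap.evl cT tlT PT.vx ringF)) P :=
  .cons t0 (.cons t1 (.cons t2 (.cons t3 (.cons t4 (.cons t5 (.nil))))))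

end Pool.Agent.Lib.MP_5854e1_co.Cz.Sr023

namespace Pool.Agent.Lib.MP_5854e1_co.Cz.Sr525

open PB

theorem t0 : runX PT.R (Wk.frw PT.R) nl RvT (SMap.evl cT tlT PT.vx ringF) [
  .mk 63 11 54 [0xe9ecf]] = true := by
  decide +kernel

theorem t1 : runX PT.R (Wk.frw PT.R) nl RvT (SMap.evl cT tlT PT.vx ringF) [
  .mk 63 11 54 [0x100000]] = true := by
  decide +kernel

theorem t2 : runX PT.R (Wk.frw PT.R) nl RvT (SMap.evl cT tlT PT.vx ringF) [
  .mk 63 11 54 [0x7216130]] = true := by
  decide +kernel

theorem t3 : runX PT.R (Wk.frw PT.R) nl RvT (SMap.evl cT tlT PT.vx ringF) [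
  .mk 63 11 54 [0x400000, 0x168b]] = true := by
  decide +kernel

theorem t4 : runX PT.R (Wk.frw PT.R) nl RvT (SMap.evl cT tlT PT.vx ringF) [
  .mk 63 11 54 [0x400000, 0x7fe974]] = true := by
  decide +kernel

/-- The tasks. -/
noncomputable def P : List (List Tk) := [
[
  .mk 63 11 54 [0xe9ecf]],
[
  .mk 63 11 54 [0x100000]],
[
  .mk 63 11 54 [0x7216130]],
[
  .mk 63 11 54 [0x400000, 0x168b]],
[
  .mk 63 11 54 [0x400000, 0x7fe974]]]

theorem run : RunAll (runX PT.R (Wk.frw PT.R) nl RvT (SMap.evl cT tlT PT.vx ringF)) P :=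
  .cons t0 (.cons t1 (.cons t2 (.cons t3 (.cons t4 (.nil)))))

end Pool.Agent.Lib.MP_5854e1_co.Cz.Sr525

namespace Pool.Agent.Lib.MP_5854e1_co.Cz.Sr576

open PB

theorem t0 : runX PT.R (Wk.frw PT.R) nl RvT (SMap.evl cT tlT PT.vx ringF) [
  .mk 68 15 23 [0x2000000, 0x200, 0x1000000000000000000000000000, 0xffffffffe]] = true := by
  decide +kernel

theorem t1 : runX PT.R (Wk.frw PT.R) nl RvT (SMap.evl cT tlT PT.vx ringF) [
  .mk 68 15 23 [0x4000000, 0x3ba]] = true := by
  decide +kernel

theorem t2 : runX PT.R (Wk.frw PT.R) nl RvT (SMap.evl cT tlT PT.vx ringF) [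
  .mk 68 15 23 [0x4000000, 0x3400]] = true := by
  decide +kernel

theorem t3 : runX PT.R (Wk.frw PT.R) nl RvT (SMap.evl cT tlT PT.vx ringF) [
  .mk 68 15 23 [0x4000000, 0x7c844]] = true := by
  decide +kernel

theorem t4 : runX PT.R (Wk.frw PT.R) nl RvT (SMap.evl cT tlT PT.vx ringF) [
  .mk 68 15 23 [0x4000000, 0x1, 0x13c008082000000000000000000000000000000000000143]] = true := by
  decide +kernel

theorem t5 : runX PT.R (Wk.frw PT.R) nl RvT (SMap.evl cT tlT PT.vx ringF) [
  .mk 68 15 23 [0x4000000, 0x1, 0xffffffffffffffffffffffffffffffffffffffffffffffffffffffffec3ff7f7dffffffffffffffffffffffffffffffffffffebc],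
  .mk 68 16 28 []] = true := by
  decide +kernel

/-- The tasks. -/
noncomputable def P : List (List Tk) := [
[
  .mk 68 15 23 [0x2000000, 0x200, 0x1000000000000000000000000000, 0xffffffffe]],
[
  .mk 68 15 23 [0x4000000, 0x3ba]],
[
  .mk 68 15 23 [0x4000000, 0x3400]],
[
  .mk 68 15 23 [0x4000000, 0x7c844]],
[
  .mk 68 15 23 [0x4000000, 0x1, 0x13c008082000000000000000000000000000000000000143]],
[
  .mk 68 15 23 [0x4000000, 0x1, 0xffffffffffffffffffffffffffffffffffffffffffffffffffffffffec3ff7f7dffffffffffffffffffffffffffffffffffffebc],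
  .mk 68 16 28 []]]

theorem run : RunAll (runX PT.R (Wk.frw PT.R) nl RvT (SMap.evl cT tlT PT.vx ringF)) P :=
  .cons t0 (.cons t1 (.cons t2 (.cons t3 (.cons t4 (.cons t5 (.nil))))))

end Pool.Agent.Lib.MP_5854e1_co.Cz.Sr576
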