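import Pool.Agent.Lib.MP_5854e1_co.Cz.P
import Pool.Agent.Lib.MP_5854e1_co.Tkx
import Pool.Agent.Lib.MP_5854e1_co.RunAll

/-!
# Search, part 24
-/

set_option autoImplicit false
set_option deprecated.oldSectionVars true
set_option maxRecDepth 100000

namespace Pool.Agent.Lib.MP_5854e1_co.Cz.Sr024

open PB

theorem t0 : runX PT.R (Wk.frw PT.R) nl RvT (SMap.evl cT tlT PT.vx ringF) [
  .mk 0 90 10 [0x1000000, 0x4000000000000000000000000000000000000000000000000000000000000000000, 0x1000, 0xffffff86c]] = true := by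
  decide +kernel

theorem t1 : runX PT.R (Wk.frw PT.R) nl RvT (SMap.evl cT tlT PT.vx ringF) [
  .mk 0 90 10 [0x2000000, 0x28f]] = true := by
  decide +kernel

theorem t2 : runX PT.R (Wk.frw PT.R) nl RvT (SMap.evl cT tlT PT.vx ringF) [
  .mk 0 90 10 [0x2000000, 0x7ffd70]] = true := by
  decide +kernel

theorem t3 : runX PT.R (Wk.frw PT.R) nl RvT (SMap.evl cT tlT PT.vx ringF) [
  .mk 0 90 10 [0x4000000, 0x5bf]] = true := by
  decide +kernel

theorem t4 : runX PT.R (Wk.frw PT.R) nl RvT (SMap.evl cT tlT PT.vx ringF) [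
  .mk 0 90 10 [0x4000000, 0x800]] = true := by
  decide +kernel

theorem t5 : runX PT.R (Wk.frw PT.R) nl RvT (SMap.evl cT tlT PT.vx ringF) [
  .mk 0 90 10 [0x4000000, 0x7f040]] = true := by
  decide +kernel

/-- The tasks. -/
noncomputable def P : List (List Tk) := [
[
  .mk 0 90 10 [0x1000000, 0x4000000000000000000000000000000000000000000000000000000000000000000, 0x1000, 0xffffff86c]],
[
  .mk 0 90 10 [0x2000000, 0x28f]],
[
  .mk 0 90 10 [0x2000000, 0x7ffd70]],
[
  .mk 0 90 10 [0x4000000, 0x5bf]],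
[
  .mk 0 90 10 [0x4000000, 0x800]],
[
  .mk 0 90 10 [0x4000000, 0x7f040]]]

theorem run : RunAll (runX PT.R (Wk.frw PT.R) nl RvT (SMap.evl cT tlT PT.vx ringF)) P :=
  .cons t0 (.cons t1 (.cons t2 (.cons t3 (.cons t4 (.cons t5 (.nil))))))

end Pool.Agent.Lib.MP_5854e1_co.Cz.Sr024

namespace Pool.Agent.Lib.MP_5854e1_co.Cz.Sr456

open PB

theorem t0 : runX PT.R (Wk.frw PT.R) nl RvT (SMap.evl cT tlT PT.vx ringF) [
  .mk 44 0 0 [0x1000000000000000000000000000000000000000000000000000000000000000000000000000000000000000000000000, 0x1000, 0xffffff86c],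
  .mk 44 0 0 [0x2000000000000000000000000000000000000000000000000000000000000000000000000000000000000000000000000, 0x7401]] = true := by
  decide +kernel

theorem t1 : runX PT.R (Wk.frw PT.R) nl RvT (SMap.evl cT tlT PT.vx ringF) [
  .mk 44 0 0 [0x2000000000000000000000000000000000000000000000000000000000000000000000000000000000000000000000000, 0xfffffffffffffffffffffffffffffffffffffffffffffffffffffffffffffffffff8bfe]] = true := by
  decide +kernel

theorem t2 : runX PT.R (Wk.frw PT.R) nl RvT (SMap.evl cT tlT PT.vx ringF) [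
  .mk 44 1 61 [0x37ff]] = true := by
  decide +kernel

theorem t3 : runX PT.R (Wk.frw PT.R) nl RvT (SMap.evl cT tlT PT.vx ringF) [
  .mk 44 1 61 [0x7fc800],
  .mk 44 2 62 []] = true := by
  decide +kernel

theorem t4 : runX PT.R (Wk.frw PT.R) nl RvT (SMap.evl cT tlT PT.vx ringF) [
  .mk 44 3 63 [0x31]] = true := by
  decide +kernel

theorem t5 : runX PT.R (Wk.frw PT.R) nl RvT (SMap.evl cT tlT PT.vx ringF) [
  .mk 44 3 63 [0x2500]] = true := by
  decide +kernel

/-- The tasks. -/
noncomputable def P : List (List Tk) := [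
[
  .mk 44 0 0 [0x1000000000000000000000000000000000000000000000000000000000000000000000000000000000000000000000000, 0x1000, 0xffffff86c],
  .mk 44 0 0 [0x2000000000000000000000000000000000000000000000000000000000000000000000000000000000000000000000000, 0x7401]],
[
  .mk 44 0 0 [0x2000000000000000000000000000000000000000000000000000000000000000000000000000000000000000000000000, 0xfffffffffffffffffffffffffffffffffffffffffffffffffffffffffffffffffff8bfe]],
[
  .mk 44 1 61 [0x37ff]],
[
  .mk 44 1 61 [0x7fc800],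
  .mk 44 2 62 []],
[
  .mk 44 3 63 [0x31]],
[
  .mk 44 3 63 [0x2500]]]

theorem run : RunAll (runX PT.R (Wk.frw PT.R) nl RvT (SMap.evl cT tlT PT.vx ringF)) P :=
  .cons t0 (.cons t1 (.cons t2 (.cons t3 (.cons t4 (.cons t5 (.nil))))))

end Pool.Agent.Lib.MP_5854e1_co.Cz.Sr456
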