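import Pool.Agent.Lib.MP_5854e1_co.Cz.P
import Pool.Agent.Lib.MP_5854e1_co.Tkx
import Pool.Agent.Lib.MP_5854e1_co.RunAll

/-!
# Search, part 26
-/

set_option autoImplicit false
set_option deprecated.oldSectionVars true
set_option maxRecDepth 100000

namespace Pool.Agent.Lib.MP_5854e1_co.Cz.Sr026

open PB

theorem t0 : runX PT.R (Wk.frw PT.R) nl RvT (SMap.evl cT tlT PT.vx ringF) [
  .mk 0 92 12 [0x80000000]] = true := by
  decide +kernel

theorem t1 : runX PT.R (Wk.frw PT.R) nl RvT (SMap.evl cT tlT PT.vx ringF) [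
  .mk 0 92 12 [0x300a1fdff]] = true := by
  decide +kernel

theorem t2 : runX PT.R (Wk.frw PT.R) nl RvT (SMap.evl cT tlT PT.vx ringF) [
  .mk 0 92 12 [0x20000, 0x440b101a0000000000000000000000000000000000003200000000000000000000000000000000000000000000000000000000]] = true := by
  decide +kernel

theorem t3 : runX PT.R (Wk.frw PT.R) nl RvT (SMap.evl cT tlT PT.vx ringF) [
  .mk 0 92 12 [0x20000, 0xffbbf4efe5ffffffffffffffffffffffffffffffffffffcdffffffffffffffffffffffffffffffffffffffffffffffffffffffff],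
  .mk 0 92 12 [0x100000, 0x741801]] = true := by
  decide +kernel

theorem t4 : runX PT.R (Wk.frw PT.R) nl RvT (SMap.evl cT tlT PT.vx ringF) [
  .mk 0 92 12 [0x100000, 0x3f8be7fe]] = true := by
  decide +kernel

theorem t5 : runX PT.R (Wk.frw PT.R) nl RvT (SMap.evl cT tlT PT.vx ringF) [
  .mk 0 92 12 [0x4000000, 0x7af]] = true := by
  decide +kernel

/-- The tasks. -/
noncomputable def P : List (List Tk) := [
[
  .mk 0 92 12 [0x80000000]],
[
  .mk 0 92 12 [0x300a1fdff]],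
[
  .mk 0 92 12 [0x20000, 0x440b101a0000000000000000000000000000000000003200000000000000000000000000000000000000000000000000000000]],
[
  .mk 0 92 12 [0x20000, 0xffbbf4efe5ffffffffffffffffffffffffffffffffffffcdffffffffffffffffffffffffffffffffffffffffffffffffffffffff],
  .mk 0 92 12 [0x100000, 0x741801]],
[
  .mk 0 92 12 [0x100000, 0x3f8be7fe]],
[
  .mk 0 92 12 [0x4000000, 0x7af]]]

theorem run : RunAll (runX PT.R (Wk.frw PT.R) nl RvT (SMap.evl cT tlT PT.vx ringF)) P :=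
  .cons t0 (.cons t1 (.cons t2 (.cons t3 (.cons t4 (.cons t5 (.nil))))))

end Pool.Agent.Lib.MP_5854e1_co.Cz.Sr026

namespace Pool.Agent.Lib.MP_5854e1_co.Cz.Sr146

open PB

theorem t0 : runX PT.R (Wk.frw PT.R) nl RvT (SMap.evl cT tlT PT.vx ringF) [
  .mk 7 28 68 [0x4000, 0x20, 0x3f8fdff80],
  .mk 7 28 68 [0x4000, 0x400, 0x7f8dff]] = true := by
  decide +kernel

theorem t1 : runX PT.R (Wk.frw PT.R) nl RvT (SMap.evl cT tlT PT.vx ringF) [
  .mk 7 28 68 [0x4000, 0x400, 0x200, 0x13c0080820000000000000006e401]] = true := by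
  decide +kernel

theorem t2 : runX PT.R (Wk.frw PT.R) nl RvT (SMap.evl cT tlT PT.vx ringF) [
  .mk 7 28 68 [0x4000, 0x400, 0x200, 0xfffffffffffffffffffffffffffffffffffffffffffffffffffffffffffffffffffffffffffec3ff7f7dfffffffffffffff91bfe]] = true := by
  decide +kernel

theorem t3 : runX PT.R (Wk.frw PT.R) nl RvT (SMap.evl cT tlT PT.vx ringF) [
  .mk 7 28 68 [0x4000, 0x400, 0x1000, 0x602581f0000000000000000000000000000000007ff00000001]] = true := by
  decide +kernel

theorem t4 : runX PT.R (Wk.frw PT.R) nl RvT (SMap.evl cT tlT PT.vx ringF) [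
  .mk 7 28 68 [0x4000, 0x400, 0x1000, 0xffffffffffffffffffff9fda7e0fffffffffffffffffffffffffffffffff800fffffffe]] = true := by
  decide +kernel

theorem t5 : runX PT.R (Wk.frw PT.R) nl RvT (SMap.evl cT tlT PT.vx ringF) [
  .mk 7 28 68 [0x4000, 0x400, 0x2000, 0x36]] = true := by
  decide +kernel

theorem t6 : runX PT.R (Wk.frw PT.R) nl RvT (SMap.evl cT tlT PT.vx ringF) [
  .mk 7 28 68 [0x4000, 0x400, 0x2000, 0xfffffffc0]] = true := by
  decide +kernel

theorem t7 : runX PT.R (Wk.frw PT.R) nl RvT (SMap.evl cT tlT PT.vx ringF) [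
  .mk 7 28 68 [0x4000, 0x400, 0x2000, 0x1, 0x600000000200000000000000000000]] = true := by
  decide +kernel

/-- The tasks. -/
noncomputable def P : List (List Tk) := [
[
  .mk 7 28 68 [0x4000, 0x20, 0x3f8fdff80],
  .mk 7 28 68 [0x4000, 0x400, 0x7f8dff]],
[
  .mk 7 28 68 [0x4000, 0x400, 0x200, 0x13c0080820000000000000006e401]],
[
  .mk 7 28 68 [0x4000, 0x400, 0x200, 0xfffffffffffffffffffffffffffffffffffffffffffffffffffffffffffffffffffffffffffec3ff7f7dfffffffffffffff91bfe]],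
[
  .mk 7 28 68 [0x4000, 0x400, 0x1000, 0x602581f0000000000000000000000000000000007ff00000001]],
[
  .mk 7 28 68 [0x4000, 0x400, 0x1000, 0xffffffffffffffffffff9fda7e0fffffffffffffffffffffffffffffffff800fffffffe]],
[
  .mk 7 28 68 [0x4000, 0x400, 0x2000, 0x36]],
[
  .mk 7 28 68 [0x4000, 0x400, 0x2000, 0xfffffffc0]],
[
  .mk 7 28 68 [0x4000, 0x400, 0x2000, 0x1, 0x600000000200000000000000000000]]]

theorem run : RunAll (runX PT.R (Wk.frw PT.R) nl RvT (SMap.evl cT tlT PT.vx ringF)) P :=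
  .cons t0 (.cons t1 (.cons t2 (.cons t3 (.cons t4 (.cons t5 (.cons t6 (.cons t7 (.nil))))))))

end Pool.Agent.Lib.MP_5854e1_co.Cz.Sr146

namespace Pool.Agent.Lib.MP_5854e1_co.Cz.Sr337

open PB

theorem t0 : runX PT.R (Wk.frw PT.R) nl RvT (SMap.evl cT tlT PT.vx ringF) [
  .mk 35 12 47 [0x80000000, 0x2000, 0x200, 0xffffffffe]] = true := by
  decide +kernel

theorem t1 : runX PT.R (Wk.frw PT.R) nl RvT (SMap.evl cT tlT PT.vx ringF) [
  .mk 35 12 47 [0x80000000, 0x2000, 0x200, 0x1, 0x200000000200000000000000000000]] = true := by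
  decide +kernel

theorem t2 : runX PT.R (Wk.frw PT.R) nl RvT (SMap.evl cT tlT PT.vx ringF) [
  .mk 35 12 47 [0x80000000, 0x2000, 0x200, 0x1, 0xffffffffffffffffffffffffffffffffffffffffffffffffffffffffffffffffffffffffffdffffffffdffffffffffffffffffff]] = true := by
  decide +kernel

theorem t3 : runX PT.R (Wk.frw PT.R) nl RvT (SMap.evl cT tlT PT.vx ringF) [
  .mk 35 12 47 [0x80000000, 0x2000, 0x400, 0xc0000]] = true := by
  decide +kernel

theorem t4 : runX PT.R (Wk.frw PT.R) nl RvT (SMap.evl cT tlT PT.vx ringF) [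
  .mk 35 12 47 [0x80000000, 0x2000, 0x400, 0x3fffffff3ffff],
  .mk 35 12 47 [0x80000000, 0x8000, 0x7efffff],
  .mk 35 12 47 [0x80000000, 0x8000, 0x100000, 0xffffffffffffffffffffffffffffffffffffffffffffffffffffffffffffffffffffffffffdfffffffffffffffffffffffffffff],
  .mk 35 12 47 [0x80000000, 0x8000, 0x100000, 0x200000000000000000000000000000, 0x7ffffe]] = true := by
  decide +kernel

/-- The tasks. -/
noncomputable def P : List (List Tk) := [
[
  .mk 35 12 47 [0x80000000, 0x2000, 0x200, 0xffffffffe]],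
[
  .mk 35 12 47 [0x80000000, 0x2000, 0x200, 0x1, 0x200000000200000000000000000000]],
[
  .mk 35 12 47 [0x80000000, 0x2000, 0x200, 0x1, 0xffffffffffffffffffffffffffffffffffffffffffffffffffffffffffffffffffffffffffdffffffffdffffffffffffffffffff]],
[
  .mk 35 12 47 [0x80000000, 0x2000, 0x400, 0xc0000]],
[
  .mk 35 12 47 [0x80000000, 0x2000, 0x400, 0x3fffffff3ffff],
  .mk 35 12 47 [0x80000000, 0x8000, 0x7efffff],
  .mk 35 12 47 [0x80000000, 0x8000, 0x100000, 0xffffffffffffffffffffffffffffffffffffffffffffffffffffffffffffffffffffffffffdfffffffffffffffffffffffffffff],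
  .mk 35 12 47 [0x80000000, 0x8000, 0x100000, 0x200000000000000000000000000000, 0x7ffffe]]]

theorem run : RunAll (runX PT.R (Wk.frw PT.R) nl RvT (SMap.evl cT tlT PT.vx ringF)) P :=
  .cons t0 (.cons t1 (.cons t2 (.cons t3 (.cons t4 (.nil)))))

end Pool.Agent.Lib.MP_5854e1_co.Cz.Sr337

namespace Pool.Agent.Lib.MP_5854e1_co.Cz.Sr348

open PB

theorem t0 : runX PT.R (Wk.frw PT.R) nl RvT (SMap.evl cT tlT PT.vx ringF) [
  .mk 39 16 35 [0x8, 0x60023]] = true := by
  decide +kernel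

theorem t1 : runX PT.R (Wk.frw PT.R) nl RvT (SMap.evl cT tlT PT.vx ringF) [
  .mk 39 16 35 [0x8, 0x3b80000]] = true := by
  decide +kernel

theorem t2 : runX PT.R (Wk.frw PT.R) nl RvT (SMap.evl cT tlT PT.vx ringF) [
  .mk 39 16 35 [0x8, 0x8000000]] = true := by
  decide +kernel

theorem t3 : runX PT.R (Wk.frw PT.R) nl RvT (SMap.evl cT tlT PT.vx ringF) [
  .mk 39 16 35 [0x8, 0x10000000]] = true := by
  decide +kernel

theorem t4 : runX PT.R (Wk.frw PT.R) nl RvT (SMap.evl cT tlT PT.vx ringF) [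
  .mk 39 16 35 [0x8, 0x60000000]] = true := by
  decide +kernel

theorem t5 : runX PT.R (Wk.frw PT.R) nl RvT (SMap.evl cT tlT PT.vx ringF) [
  .mk 39 16 35 [0x8, 0x38041ffdc]] = true := by
  decide +kernel

theorem t6 : runX PT.R (Wk.frw PT.R) nl RvT (SMap.evl cT tlT PT.vx ringF) [
  .mk 39 16 35 [0x8, 0x4000000, 0x593]] = true := by
  decide +kernel

/-- The tasks. -/
noncomputable def P : List (List Tk) := [
[
  .mk 39 16 35 [0x8, 0x60023]],
[
  .mk 39 16 35 [0x8, 0x3b80000]],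
[
  .mk 39 16 35 [0x8, 0x8000000]],
[
  .mk 39 16 35 [0x8, 0x10000000]],
[
  .mk 39 16 35 [0x8, 0x60000000]],
[
  .mk 39 16 35 [0x8, 0x38041ffdc]],
[
  .mk 39 16 35 [0x8, 0x4000000, 0x593]]]

theorem run : RunAll (runX PT.R (Wk.frw PT.R) nl RvT (SMap.evl cT tlT PT.vx ringF)) P :=
  .cons t0 (.cons t1 (.cons t2 (.cons t3 (.cons t4 (.cons t5 (.cons t6 (.nil)))))))

end Pool.Agent.Lib.MP_5854e1_co.Cz.Sr348
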