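import Pool.Agent.Lib.MP_5854e1_co.Cz.P
import Pool.Agent.Lib.MP_5854e1_co.Tkx
import Pool.Agent.Lib.MP_5854e1_co.RunAll

/-!
# Search, part 27
-/

set_option autoImplicit false
set_option deprecated.oldSectionVars true
set_option maxRecDepth 100000

namespace Pool.Agent.Lib.MP_5854e1_co.Cz.Sr027

open PB

theorem t0 : runX PT.R (Wk.frw PT.R) nl RvT (SMap.evl cT tlT PT.vx ringF) [
  .mk 0 92 12 [0x4000000, 0x2f800]] = true := by
  decide +kernel

theorem t1 : runX PT.R (Wk.frw PT.R) nl RvT (SMap.evl cT tlT PT.vx ringF) [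
  .mk 0 92 12 [0x4000000, 0xffffd0050]] = true := by
  decide +kernel

theorem t2 : runX PT.R (Wk.frw PT.R) nl RvT (SMap.evl cT tlT PT.vx ringF) [
  .mk 0 92 12 [0x20000000, 0x3ff]] = true := by
  decide +kernel

theorem t3 : runX PT.R (Wk.frw PT.R) nl RvT (SMap.evl cT tlT PT.vx ringF) [
  .mk 0 92 12 [0x20000000, 0xffffc00],
  .mk 0 93 13 [],
  .mk 0 94 14 [],
  .mk 0 95 15 []] = true := by
  decide +kernel

theorem t4 : runX PT.R (Wk.frw PT.R) nl RvT (SMap.evl cT tlT PT.vx ringF) [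
  .mk 0 96 16 [0x1c80]] = true := by
  decide +kernel

theorem t5 : runX PT.R (Wk.frw PT.R) nl RvT (SMap.evl cT tlT PT.vx ringF) [
  .mk 0 96 16 [0x2000]] = true := by
  decide +kernel

theorem t6 : runX PT.R (Wk.frw PT.R) nl RvT (SMap.evl cT tlT PT.vx ringF) [
  .mk 0 96 16 [0xfffffc173]] = true := by
  decide +kernel

/-- The tasks. -/
noncomputable def P : List (List Tk) := [
[
  .mk 0 92 12 [0x4000000, 0x2f800]],
[
  .mk 0 92 12 [0x4000000, 0xffffd0050]],
[
  .mk 0 92 12 [0x20000000, 0x3ff]],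
[
  .mk 0 92 12 [0x20000000, 0xffffc00],
  .mk 0 93 13 [],
  .mk 0 94 14 [],
  .mk 0 95 15 []],
[
  .mk 0 96 16 [0x1c80]],
[
  .mk 0 96 16 [0x2000]],
[
  .mk 0 96 16 [0xfffffc173]]]

theorem run : RunAll (runX PT.R (Wk.frw PT.R) nl RvT (SMap.evl cT tlT PT.vx ringF)) P :=
  .cons t0 (.cons t1 (.cons t2 (.cons t3 (.cons t4 (.cons t5 (.cons t6 (.nil)))))))

end Pool.Agent.Lib.MP_5854e1_co.Cz.Sr027

namespace Pool.Agent.Lib.MP_5854e1_co.Cz.Sr080

open PB

theorem t0 : runX PT.R (Wk.frw PT.R) nl RvT (SMap.evl cT tlT PT.vx ringF) [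
  .mk 0 288 7 [0x10300000000000000000000000000000000000000000000000000000000000000]] = true := by
  decide +kernel

theorem t1 : runX PT.R (Wk.frw PT.R) nl RvT (SMap.evl cT tlT PT.vx ringF) [
  .mk 0 288 7 [0x1804c0000000000000000000000000000000000000000000000000000000000000000]] = true := by
  decide +kernel

theorem t2 : runX PT.R (Wk.frw PT.R) nl RvT (SMap.evl cT tlT PT.vx ringF) [
  .mk 0 288 7 [0x1e00000000000000000000000000000000000000000000000000000000000000000000]] = true := by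
  decide +kernel

theorem t3 : runX PT.R (Wk.frw PT.R) nl RvT (SMap.evl cT tlT PT.vx ringF) [
  .mk 0 288 7 [0xfe03fb2fc1fffffffffffffffffffffffffffffffffffffffefffffffffffffffffffff]] = true := by
  decide +kernel

theorem t4 : runX PT.R (Wk.frw PT.R) nl RvT (SMap.evl cT tlT PT.vx ringF) [
  .mk 0 288 7 [0x40000000000000000000000000000000000000000000000000000000000000000000, 0x8000000000001d380021c01]] = true := by
  decide +kernel

theorem t5 : runX PT.R (Wk.frw PT.R) nl RvT (SMap.evl cT tlT PT.vx ringF) [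
  .mk 0 288 7 [0x40000000000000000000000000000000000000000000000000000000000000000000, 0xfffffffffffffffffffffffffffffffffffffffffffffffffffffffffffffffffffffffffffffffff7fffffffffffe2c7ffde3fe]] = true := by
  decide +kernel

/-- The tasks. -/
noncomputable def P : List (List Tk) := [
[
  .mk 0 288 7 [0x10300000000000000000000000000000000000000000000000000000000000000]],
[
  .mk 0 288 7 [0x1804c0000000000000000000000000000000000000000000000000000000000000000]],
[
  .mk 0 288 7 [0x1e00000000000000000000000000000000000000000000000000000000000000000000]],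
[
  .mk 0 288 7 [0xfe03fb2fc1fffffffffffffffffffffffffffffffffffffffefffffffffffffffffffff]],
[
  .mk 0 288 7 [0x40000000000000000000000000000000000000000000000000000000000000000000, 0x8000000000001d380021c01]],
[
  .mk 0 288 7 [0x40000000000000000000000000000000000000000000000000000000000000000000, 0xfffffffffffffffffffffffffffffffffffffffffffffffffffffffffffffffffffffffffffffffff7fffffffffffe2c7ffde3fe]]]

theorem run : RunAll (runX PT.R (Wk.frw PT.R) nl RvT (SMap.evl cT tlT PT.vx ringF)) P :=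
  .cons t0 (.cons t1 (.cons t2 (.cons t3 (.cons t4 (.cons t5 (.nil))))))

end Pool.Agent.Lib.MP_5854e1_co.Cz.Sr080

namespace Pool.Agent.Lib.MP_5854e1_co.Cz.Sr151

open PB

theorem t0 : runX PT.R (Wk.frw PT.R) nl RvT (SMap.evl cT tlT PT.vx ringF) [
  .mk 7 28 68 [0x8000, 0x400000, 0x7c8974]] = true := by
  decide +kernel

theorem t1 : runX PT.R (Wk.frw PT.R) nl RvT (SMap.evl cT tlT PT.vx ringF) [
  .mk 7 28 68 [0x8000, 0x400000, 0x200, 0xc00808200000000000000028401]] = true := by
  decide +kernel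

theorem t2 : runX PT.R (Wk.frw PT.R) nl RvT (SMap.evl cT tlT PT.vx ringF) [
  .mk 7 28 68 [0x8000, 0x400000, 0x200, 0x12000000000000000000000000000]] = true := by
  decide +kernel

theorem t3 : runX PT.R (Wk.frw PT.R) nl RvT (SMap.evl cT tlT PT.vx ringF) [
  .mk 7 28 68 [0x8000, 0x400000, 0x200, 0xfffffffffffffffffffffffffffffffffffffffffffffffffffffffffffffffffffffffffffec3ff7f7dfffffffffffffffd7bfe],
  .mk 7 28 68 [0x8000, 0x400000, 0x200, 0x1000000000000000000000000000, 0x1]] = true := by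
  decide +kernel

theorem t4 : runX PT.R (Wk.frw PT.R) nl RvT (SMap.evl cT tlT PT.vx ringF) [
  .mk 7 28 68 [0x8000, 0x400000, 0x200, 0x1000000000000000000000000000, 0x12]] = true := by
  decide +kernel

theorem t5 : runX PT.R (Wk.frw PT.R) nl RvT (SMap.evl cT tlT PT.vx ringF) [
  .mk 7 28 68 [0x8000, 0x400000, 0x200, 0x1000000000000000000000000000, 0xfffffffec],
  .mk 7 28 68 [0x8000, 0x400000, 0x2000, 0xffffffffe]] = true := by
  decide +kernel

/-- The tasks. -/
noncomputable def P : List (List Tk) := [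
[
  .mk 7 28 68 [0x8000, 0x400000, 0x7c8974]],
[
  .mk 7 28 68 [0x8000, 0x400000, 0x200, 0xc00808200000000000000028401]],
[
  .mk 7 28 68 [0x8000, 0x400000, 0x200, 0x12000000000000000000000000000]],
[
  .mk 7 28 68 [0x8000, 0x400000, 0x200, 0xfffffffffffffffffffffffffffffffffffffffffffffffffffffffffffffffffffffffffffec3ff7f7dfffffffffffffffd7bfe],
  .mk 7 28 68 [0x8000, 0x400000, 0x200, 0x1000000000000000000000000000, 0x1]],
[
  .mk 7 28 68 [0x8000, 0x400000, 0x200, 0x1000000000000000000000000000, 0x12]],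
[
  .mk 7 28 68 [0x8000, 0x400000, 0x200, 0x1000000000000000000000000000, 0xfffffffec],
  .mk 7 28 68 [0x8000, 0x400000, 0x2000, 0xffffffffe]]]

theorem run : RunAll (runX PT.R (Wk.frw PT.R) nl RvT (SMap.evl cT tlT PT.vx ringF)) P :=
  .cons t0 (.cons t1 (.cons t2 (.cons t3 (.cons t4 (.cons t5 (.nil))))))

end Pool.Agent.Lib.MP_5854e1_co.Cz.Sr151

namespace Pool.Agent.Lib.MP_5854e1_co.Cz.Sr223

open PB

theorem t0 : runX PT.R (Wk.frw PT.R) nl RvT (SMap.evl cT tlT PT.vx ringF) [
  .mk 9 35 20 [0xffffffffffffffffffffffffffaffffffffffffffffffffffffffffffffffffbc9fffff],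
  .mk 9 36 21 []] = true := by
  decide +kernel

theorem t1 : runX PT.R (Wk.frw PT.R) nl RvT (SMap.evl cT tlT PT.vx ringF) [
  .mk 9 37 22 [],
  .mk 9 38 28 []] = true := by
  decide +kernel

theorem t2 : runX PT.R (Wk.frw PT.R) nl RvT (SMap.evl cT tlT PT.vx ringF) [
  .mk 9 39 29 []] = true := by
  decide +kernel

theorem t3 : runX PT.R (Wk.frw PT.R) nl RvT (SMap.evl cT tlT PT.vx ringF) [
  .mk 9 40 0 [],
  .mk 9 41 1 []] = true := by
  decide +kernel

theorem t4 : runX PT.R (Wk.frw PT.R) nl RvT (SMap.evl cT tlT PT.vx ringF) [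
  .mk 9 42 2 [],
  .mk 9 43 7 [],
  .mk 9 44 15 []] = true := by
  decide +kernel

theorem t5 : runX PT.R (Wk.frw PT.R) nl RvT (SMap.evl cT tlT PT.vx ringF) [
  .mk 9 45 0 [0x10005600000000000000000000]] = true := by
  decide +kernel

/-- The tasks. -/
noncomputable def P : List (List Tk) := [
[
  .mk 9 35 20 [0xffffffffffffffffffffffffffaffffffffffffffffffffffffffffffffffffbc9fffff],
  .mk 9 36 21 []],
[
  .mk 9 37 22 [],
  .mk 9 38 28 []],
[
  .mk 9 39 29 []],
[
  .mk 9 40 0 [],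
  .mk 9 41 1 []],
[
  .mk 9 42 2 [],
  .mk 9 43 7 [],
  .mk 9 44 15 []],
[
  .mk 9 45 0 [0x10005600000000000000000000]]]

theorem run : RunAll (runX PT.R (Wk.frw PT.R) nl RvT (SMap.evl cT tlT PT.vx ringF)) P :=
  .cons t0 (.cons t1 (.cons t2 (.cons t3 (.cons t4 (.cons t5 (.nil))))))

end Pool.Agent.Lib.MP_5854e1_co.Cz.Sr223
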