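import Pool.Agent.Lib.MP_5854e1_co.Cz.P
import Pool.Agent.Lib.MP_5854e1_co.Tkx
import Pool.Agent.Lib.MP_5854e1_co.RunAll

/-!
# Search, part 29
-/

set_option autoImplicit false
set_option deprecated.oldSectionVars true
set_option maxRecDepth 100000

namespace Pool.Agent.Lib.MP_5854e1_co.Cz.Sr029

open PB

theorem t0 : runX PT.R (Wk.frw PT.R) nl RvT (SMap.evl cT tlT PT.vx ringF) [
  .mk 0 96 16 [0x200, 0xffde87f90],
  .mk 0 97 17 [],
  .mk 0 98 18 [],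
  .mk 0 99 19 [],
  .mk 0 100 33 [],
  .mk 0 101 34 []] = true := by
  decide +kernel

theorem t1 : runX PT.R (Wk.frw PT.R) nl RvT (SMap.evl cT tlT PT.vx ringF) [
  .mk 0 102 35 [0xfffffc9f3]] = true := by
  decide +kernel

theorem t2 : runX PT.R (Wk.frw PT.R) nl RvT (SMap.evl cT tlT PT.vx ringF) [
  .mk 0 102 35 [0x4, 0x1a00]] = true := by
  decide +kernel

theorem t3 : runX PT.R (Wk.frw PT.R) nl RvT (SMap.evl cT tlT PT.vx ringF) [
  .mk 0 102 35 [0x4, 0x7fe5ff]] = true := by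
  decide +kernel

theorem t4 : runX PT.R (Wk.frw PT.R) nl RvT (SMap.evl cT tlT PT.vx ringF) [
  .mk 0 102 35 [0x8, 0xe0301]] = true := by
  decide +kernel

theorem t5 : runX PT.R (Wk.frw PT.R) nl RvT (SMap.evl cT tlT PT.vx ringF) [
  .mk 0 102 35 [0x8, 0x3d00000]] = true := by
  decide +kernel

/-- The tasks. -/
noncomputable def P : List (List Tk) := [
[
  .mk 0 96 16 [0x200, 0xffde87f90],
  .mk 0 97 17 [],
  .mk 0 98 18 [],
  .mk 0 99 19 [],
  .mk 0 100 33 [],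
  .mk 0 101 34 []],
[
  .mk 0 102 35 [0xfffffc9f3]],
[
  .mk 0 102 35 [0x4, 0x1a00]],
[
  .mk 0 102 35 [0x4, 0x7fe5ff]],
[
  .mk 0 102 35 [0x8, 0xe0301]],
[
  .mk 0 102 35 [0x8, 0x3d00000]]]

theorem run : RunAll (runX PT.R (Wk.frw PT.R) nl RvT (SMap.evl cT tlT PT.vx ringF)) P :=
  .cons t0 (.cons t1 (.cons t2 (.cons t3 (.cons t4 (.cons t5 (.nil))))))

end Pool.Agent.Lib.MP_5854e1_co.Cz.Sr029

namespace Pool.Agent.Lib.MP_5854e1_co.Cz.Sr294

open PB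

theorem t0 : runX PT.R (Wk.frw PT.R) nl RvT (SMap.evl cT tlT PT.vx ringF) [
  .mk 12 29 55 [0x20, 0x192]] = true := by
  decide +kernel

theorem t1 : runX PT.R (Wk.frw PT.R) nl RvT (SMap.evl cT tlT PT.vx ringF) [
  .mk 12 29 55 [0x20, 0x200]] = true := by
  decide +kernel

theorem t2 : runX PT.R (Wk.frw PT.R) nl RvT (SMap.evl cT tlT PT.vx ringF) [
  .mk 12 29 55 [0x20, 0x3fffffc6c]] = true := by
  decide +kernel

theorem t3 : runX PT.R (Wk.frw PT.R) nl RvT (SMap.evl cT tlT PT.vx ringF) [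
  .mk 12 29 55 [0x400, 0x1048f]] = true := by
  decide +kernel

theorem t4 : runX PT.R (Wk.frw PT.R) nl RvT (SMap.evl cT tlT PT.vx ringF) [
  .mk 12 29 55 [0x400, 0x7ee170]] = true := by
  decide +kernel

theorem t5 : runX PT.R (Wk.frw PT.R) nl RvT (SMap.evl cT tlT PT.vx ringF) [
  .mk 12 29 55 [0x400, 0x200, 0x52c0008400]] = true := by
  decide +kernel

/-- The tasks. -/
noncomputable def P : List (List Tk) := [
[
  .mk 12 29 55 [0x20, 0x192]],
[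
  .mk 12 29 55 [0x20, 0x200]],
[
  .mk 12 29 55 [0x20, 0x3fffffc6c]],
[
  .mk 12 29 55 [0x400, 0x1048f]],
[
  .mk 12 29 55 [0x400, 0x7ee170]],
[
  .mk 12 29 55 [0x400, 0x200, 0x52c0008400]]]

theorem run : RunAll (runX PT.R (Wk.frw PT.R) nl RvT (SMap.evl cT tlT PT.vx ringF)) P :=
  .cons t0 (.cons t1 (.cons t2 (.cons t3 (.cons t4 (.cons t5 (.nil))))))

end Pool.Agent.Lib.MP_5854e1_co.Cz.Sr294

namespace Pool.Agent.Lib.MP_5854e1_co.Cz.Sr472

open PB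

theorem t0 : runX PT.R (Wk.frw PT.R) nl RvT (SMap.evl cT tlT PT.vx ringF) [
  .mk 46 22 11 [0x1800]] = true := by
  decide +kernel

theorem t1 : runX PT.R (Wk.frw PT.R) nl RvT (SMap.evl cT tlT PT.vx ringF) [
  .mk 46 22 11 [0x6000]] = true := by
  decide +kernel

theorem t2 : runX PT.R (Wk.frw PT.R) nl RvT (SMap.evl cT tlT PT.vx ringF) [
  .mk 46 22 11 [0x7d8170],
  .mk 46 22 11 [0x20000, 0x1]] = true := by
  decide +kernel

theorem t3 : runX PT.R (Wk.frw PT.R) nl RvT (SMap.evl cT tlT PT.vx ringF) [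
  .mk 46 22 11 [0x20000, 0x18012]] = true := by
  decide +kernel

theorem t4 : runX PT.R (Wk.frw PT.R) nl RvT (SMap.evl cT tlT PT.vx ringF) [
  .mk 46 22 11 [0x20000, 0xffffe7fec],
  .mk 46 23 12 [0x67a7b3]] = true := by
  decide +kernel

theorem t5 : runX PT.R (Wk.frw PT.R) nl RvT (SMap.evl cT tlT PT.vx ringF) [
  .mk 46 23 12 [0x3000000]] = true := by
  decide +kernel

/-- The tasks. -/
noncomputable def P : List (List Tk) := [
[
  .mk 46 22 11 [0x1800]],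
[
  .mk 46 22 11 [0x6000]],
[
  .mk 46 22 11 [0x7d8170],
  .mk 46 22 11 [0x20000, 0x1]],
[
  .mk 46 22 11 [0x20000, 0x18012]],
[
  .mk 46 22 11 [0x20000, 0xffffe7fec],
  .mk 46 23 12 [0x67a7b3]],
[
  .mk 46 23 12 [0x3000000]]]

theorem run : RunAll (runX PT.R (Wk.frw PT.R) nl RvT (SMap.evl cT tlT PT.vx ringF)) P :=
  .cons t0 (.cons t1 (.cons t2 (.cons t3 (.cons t4 (.cons t5 (.nil))))))

end Pool.Agent.Lib.MP_5854e1_co.Cz.Sr472
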