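import Pool.Agent.Lib.MP_5854e1_co.Cz.P
import Pool.Agent.Lib.MP_5854e1_co.Tkx
import Pool.Agent.Lib.MP_5854e1_co.RunAll

/-!
# Search, part 31
-/

set_option autoImplicit false
set_option deprecated.oldSectionVars true
set_option maxRecDepth 100000

namespace Pool.Agent.Lib.MP_5854e1_co.Cz.Sr031

open PB

theorem t0 : runX PT.R (Wk.frw PT.R) nl RvT (SMap.evl cT tlT PT.vx ringF) [
  .mk 0 102 35 [0x200, 0x8000000, 0xfd3]] = true := by
  decide +kernel

theorem t1 : runX PT.R (Wk.frw PT.R) nl RvT (SMap.evl cT tlT PT.vx ringF) [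
  .mk 0 102 35 [0x200, 0x8000000, 0xffffff02c]] = true := by
  decide +kernel

theorem t2 : runX PT.R (Wk.frw PT.R) nl RvT (SMap.evl cT tlT PT.vx ringF) [
  .mk 0 102 35 [0x400, 0x3fc0000]] = true := by
  decide +kernel

theorem t3 : runX PT.R (Wk.frw PT.R) nl RvT (SMap.evl cT tlT PT.vx ringF) [
  .mk 0 102 35 [0x400, 0x3fffffc03ffff]] = true := by
  decide +kernel

theorem t4 : runX PT.R (Wk.frw PT.R) nl RvT (SMap.evl cT tlT PT.vx ringF) [
  .mk 0 102 35 [0x1000, 0xa5dffff4f]] = true := by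
  decide +kernel

theorem t5 : runX PT.R (Wk.frw PT.R) nl RvT (SMap.evl cT tlT PT.vx ringF) [
  .mk 0 102 35 [0x1000, 0x7ffff5220000b0]] = true := by
  decide +kernel

/-- The tasks. -/
noncomputable def P : List (List Tk) := [
[
  .mk 0 102 35 [0x200, 0x8000000, 0xfd3]],
[
  .mk 0 102 35 [0x200, 0x8000000, 0xffffff02c]],
[
  .mk 0 102 35 [0x400, 0x3fc0000]],
[
  .mk 0 102 35 [0x400, 0x3fffffc03ffff]],
[
  .mk 0 102 35 [0x1000, 0xa5dffff4f]],
[
  .mk 0 102 35 [0x1000, 0x7ffff5220000b0]]]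

theorem run : RunAll (runX PT.R (Wk.frw PT.R) nl RvT (SMap.evl cT tlT PT.vx ringF)) P :=
  .cons t0 (.cons t1 (.cons t2 (.cons t3 (.cons t4 (.cons t5 (.nil))))))

end Pool.Agent.Lib.MP_5854e1_co.Cz.Sr031

namespace Pool.Agent.Lib.MP_5854e1_co.Cz.Sr322

open PB

theorem t0 : runX PT.R (Wk.frw PT.R) nl RvT (SMap.evl cT tlT PT.vx ringF) [
  .mk 15 273 7 [0x800000, 0x3ffffc010]] = true := by
  decide +kernel

theorem t1 : runX PT.R (Wk.frw PT.R) nl RvT (SMap.evl cT tlT PT.vx ringF) [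
  .mk 15 274 8 [0x1f54807d]] = true := by
  decide +kernel

theorem t2 : runX PT.R (Wk.frw PT.R) nl RvT (SMap.evl cT tlT PT.vx ringF) [
  .mk 15 274 8 [0xfe0ab7f82]] = true := by
  decide +kernel

theorem t3 : runX PT.R (Wk.frw PT.R) nl RvT (SMap.evl cT tlT PT.vx ringF) [
  .mk 15 275 9 [0xff]] = true := by
  decide +kernel

theorem t4 : runX PT.R (Wk.frw PT.R) nl RvT (SMap.evl cT tlT PT.vx ringF) [
  .mk 15 275 9 [0x3ffffffffff00],
  .mk 15 276 15 []] = true := by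
  decide +kernel

theorem t5 : runX PT.R (Wk.frw PT.R) nl RvT (SMap.evl cT tlT PT.vx ringF) [
  .mk 15 277 16 [],
  .mk 15 278 0 [],
  .mk 15 279 1 [],
  .mk 15 280 7 [],
  .mk 15 281 15 [],
  .mk 15 282 20 [],
  .mk 15 283 28 []] = true := by
  decide +kernel

theorem t6 : runX PT.R (Wk.frw PT.R) nl RvT (SMap.evl cT tlT PT.vx ringF) [
  .mk 16 0 0 [0xa00281f00000000000000000000000000000000000000000000000000010800000000000000000000000000000]] = true := by
  decide +kernel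

theorem t7 : runX PT.R (Wk.frw PT.R) nl RvT (SMap.evl cT tlT PT.vx ringF) [
  .mk 16 0 0 [0xffffffffffffff5ffd7e0fffffffffffffffffffffffffffffffffffffffffffffffffffef7fffffffffffffffffffffffffffff],
  .mk 16 1 7 []] = true := by
  decide +kernel

/-- The tasks. -/
noncomputable def P : List (List Tk) := [
[
  .mk 15 273 7 [0x800000, 0x3ffffc010]],
[
  .mk 15 274 8 [0x1f54807d]],
[
  .mk 15 274 8 [0xfe0ab7f82]],
[
  .mk 15 275 9 [0xff]],
[
  .mk 15 275 9 [0x3ffffffffff00],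
  .mk 15 276 15 []],
[
  .mk 15 277 16 [],
  .mk 15 278 0 [],
  .mk 15 279 1 [],
  .mk 15 280 7 [],
  .mk 15 281 15 [],
  .mk 15 282 20 [],
  .mk 15 283 28 []],
[
  .mk 16 0 0 [0xa00281f00000000000000000000000000000000000000000000000000010800000000000000000000000000000]],
[
  .mk 16 0 0 [0xffffffffffffff5ffd7e0fffffffffffffffffffffffffffffffffffffffffffffffffffef7fffffffffffffffffffffffffffff],
  .mk 16 1 7 []]]

theorem run : RunAll (runX PT.R (Wk.frw PT.R) nl RvT (SMap.evl cT tlT PT.vx ringF)) P :=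
  .cons t0 (.cons t1 (.cons t2 (.cons t3 (.cons t4 (.cons t5 (.cons t6 (.cons t7 (.nil))))))))

end Pool.Agent.Lib.MP_5854e1_co.Cz.Sr322
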