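import Pool.Agent.Lib.MP_5854e1_co.Cz.P
import Pool.Agent.Lib.MP_5854e1_co.Tkx
import Pool.Agent.Lib.MP_5854e1_co.RunAll

/-!
# Search, part 32
-/

set_option autoImplicit false
set_option deprecated.oldSectionVars true
set_option maxRecDepth 100000

namespace Pool.Agent.Lib.MP_5854e1_co.Cz.Sr032

open PB

theorem t0 : runX PT.R (Wk.frw PT.R) nl RvT (SMap.evl cT tlT PT.vx ringF) [
  .mk 0 102 35 [0x1000, 0x80000000, 0x1ff681]] = true := by
  decide +kernel

theorem t1 : runX PT.R (Wk.frw PT.R) nl RvT (SMap.evl cT tlT PT.vx ringF) [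
  .mk 0 102 35 [0x1000, 0x80000000, 0x60097e],
  .mk 0 102 35 [0x2000, 0x3da7b3]] = true := by
  decide +kernel

theorem t2 : runX PT.R (Wk.frw PT.R) nl RvT (SMap.evl cT tlT PT.vx ringF) [
  .mk 0 102 35 [0x2000, 0x7c00000]] = true := by
  decide +kernel

theorem t3 : runX PT.R (Wk.frw PT.R) nl RvT (SMap.evl cT tlT PT.vx ringF) [
  .mk 0 102 35 [0x2000, 0x800584c]] = true := by
  decide +kernel

theorem t4 : runX PT.R (Wk.frw PT.R) nl RvT (SMap.evl cT tlT PT.vx ringF) [
  .mk 0 102 35 [0x2000, 0x20000, 0x6c04b03e00000000000000000000000000000000000000ff80f000000000002000000000000000000000000000000000000000]] = true := by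
  decide +kernel

/-- The tasks. -/
noncomputable def P : List (List Tk) := [
[
  .mk 0 102 35 [0x1000, 0x80000000, 0x1ff681]],
[
  .mk 0 102 35 [0x1000, 0x80000000, 0x60097e],
  .mk 0 102 35 [0x2000, 0x3da7b3]],
[
  .mk 0 102 35 [0x2000, 0x7c00000]],
[
  .mk 0 102 35 [0x2000, 0x800584c]],
[
  .mk 0 102 35 [0x2000, 0x20000, 0x6c04b03e00000000000000000000000000000000000000ff80f000000000002000000000000000000000000000000000000000]]]

theorem run : RunAll (runX PT.R (Wk.frw PT.R) nl RvT (SMap.evl cT tlT PT.vx ringF)) P :=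
  .cons t0 (.cons t1 (.cons t2 (.cons t3 (.cons t4 (.nil)))))

end Pool.Agent.Lib.MP_5854e1_co.Cz.Sr032

namespace Pool.Agent.Lib.MP_5854e1_co.Cz.Sr229

open PB

theorem t0 : runX PT.R (Wk.frw PT.R) nl RvT (SMap.evl cT tlT PT.vx ringF) [
  .mk 10 23 12 [0x640000]] = true := by
  decide +kernel

theorem t1 : runX PT.R (Wk.frw PT.R) nl RvT (SMap.evl cT tlT PT.vx ringF) [
  .mk 10 23 12 [0x4a000000]] = true := by
  decide +kernel

theorem t2 : runX PT.R (Wk.frw PT.R) nl RvT (SMap.evl cT tlT PT.vx ringF) [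
  .mk 10 23 12 [0x1b098584c]] = true := by
  decide +kernel

theorem t3 : runX PT.R (Wk.frw PT.R) nl RvT (SMap.evl cT tlT PT.vx ringF) [
  .mk 10 23 12 [0x20000, 0xff80f000000000002000000000000000000000000000000000000000]] = true := by
  decide +kernel

theorem t4 : runX PT.R (Wk.frw PT.R) nl RvT (SMap.evl cT tlT PT.vx ringF) [
  .mk 10 23 12 [0x20000, 0x4b03e0000000000000000000000000000000000000000000000000000000000000000000000000000000000000000000000]] = true := by
  decide +kernel

theorem t5 : runX PT.R (Wk.frw PT.R) nl RvT (SMap.evl cT tlT PT.vx ringF) [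
  .mk 10 23 12 [0x20000, 0xfffffb4fc1ffffffffffffffffffffffffffffffffffffff007f0fffffffffffdfffffffffffffffffffffffffffffffffffffff]] = true := by
  decide +kernel

theorem t6 : runX PT.R (Wk.frw PT.R) nl RvT (SMap.evl cT tlT PT.vx ringF) [
  .mk 10 23 12 [0x1000000, 0x3c803]] = true := by
  decide +kernel

/-- The tasks. -/
noncomputable def P : List (List Tk) := [
[
  .mk 10 23 12 [0x640000]],
[
  .mk 10 23 12 [0x4a000000]],
[
  .mk 10 23 12 [0x1b098584c]],
[
  .mk 10 23 12 [0x20000, 0xff80f000000000002000000000000000000000000000000000000000]],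
[
  .mk 10 23 12 [0x20000, 0x4b03e0000000000000000000000000000000000000000000000000000000000000000000000000000000000000000000000]],
[
  .mk 10 23 12 [0x20000, 0xfffffb4fc1ffffffffffffffffffffffffffffffffffffff007f0fffffffffffdfffffffffffffffffffffffffffffffffffffff]],
[
  .mk 10 23 12 [0x1000000, 0x3c803]]]

theorem run : RunAll (runX PT.R (Wk.frw PT.R) nl RvT (SMap.evl cT tlT PT.vx ringF)) P :=
  .cons t0 (.cons t1 (.cons t2 (.cons t3 (.cons t4 (.cons t5 (.cons t6 (.nil)))))))

end Pool.Agent.Lib.MP_5854e1_co.Cz.Sr229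

namespace Pool.Agent.Lib.MP_5854e1_co.Cz.Sr450

open PB

theorem t0 : runX PT.R (Wk.frw PT.R) nl RvT (SMap.evl cT tlT PT.vx ringF) [
  .mk 43 20 0 [0x780000000000000000000000000000000000000]] = true := by
  decide +kernel

theorem t1 : runX PT.R (Wk.frw PT.R) nl RvT (SMap.evl cT tlT PT.vx ringF) [
  .mk 43 20 0 [0xfffffffffffffffffffffffffffffffffffffffffffffffffffffffffffffffff80ff80f001ffffffffdffffffffffffffffffff]] = true := by
  decide +kernel

theorem t2 : runX PT.R (Wk.frw PT.R) nl RvT (SMap.evl cT tlT PT.vx ringF) [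
  .mk 43 20 0 [0x800000000000000000000000000000, 0xa7b3]] = true := by
  decide +kernel

theorem t3 : runX PT.R (Wk.frw PT.R) nl RvT (SMap.evl cT tlT PT.vx ringF) [
  .mk 43 20 0 [0x800000000000000000000000000000, 0x3ffff584c]] = true := by
  decide +kernel

theorem t4 : runX PT.R (Wk.frw PT.R) nl RvT (SMap.evl cT tlT PT.vx ringF) [
  .mk 43 20 0 [0x10000000000000000000000000000000, 0xd1fb5]] = true := by
  decide +kernel

theorem t5 : runX PT.R (Wk.frw PT.R) nl RvT (SMap.evl cT tlT PT.vx ringF) [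
  .mk 43 20 0 [0x10000000000000000000000000000000, 0x72e04a],
  .mk 43 21 7 [0xc00800000000000000000003b00103900000000000000000000000000000000]] = true := by
  decide +kernel

/-- The tasks. -/
noncomputable def P : List (List Tk) := [
[
  .mk 43 20 0 [0x780000000000000000000000000000000000000]],
[
  .mk 43 20 0 [0xfffffffffffffffffffffffffffffffffffffffffffffffffffffffffffffffff80ff80f001ffffffffdffffffffffffffffffff]],
[
  .mk 43 20 0 [0x800000000000000000000000000000, 0xa7b3]],
[
  .mk 43 20 0 [0x800000000000000000000000000000, 0x3ffff584c]],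
[
  .mk 43 20 0 [0x10000000000000000000000000000000, 0xd1fb5]],
[
  .mk 43 20 0 [0x10000000000000000000000000000000, 0x72e04a],
  .mk 43 21 7 [0xc00800000000000000000003b00103900000000000000000000000000000000]]]

theorem run : RunAll (runX PT.R (Wk.frw PT.R) nl RvT (SMap.evl cT tlT PT.vx ringF)) P :=
  .cons t0 (.cons t1 (.cons t2 (.cons t3 (.cons t4 (.cons t5 (.nil))))))

end Pool.Agent.Lib.MP_5854e1_co.Cz.Sr450
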