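import Pool.Agent.Lib.MP_5854e1_co.Cz.P
import Pool.Agent.Lib.MP_5854e1_co.Tkx
import Pool.Agent.Lib.MP_5854e1_co.RunAll

/-!
# Search, part 34
-/

set_option autoImplicit false
set_option deprecated.oldSectionVars true
set_option maxRecDepth 100000

namespace Pool.Agent.Lib.MP_5854e1_co.Cz.Sr034

open PB

theorem t0 : runX PT.R (Wk.frw PT.R) nl RvT (SMap.evl cT tlT PT.vx ringF) [
  .mk 0 104 37 [0x2000, 0xfc0584c],
  .mk 0 105 38 [0xfffffddff]] = true := by
  decide +kernel

theorem t1 : runX PT.R (Wk.frw PT.R) nl RvT (SMap.evl cT tlT PT.vx ringF) [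
  .mk 0 105 38 [0x200, 0x1e1e806d]] = true := by
  decide +kernel

theorem t2 : runX PT.R (Wk.frw PT.R) nl RvT (SMap.evl cT tlT PT.vx ringF) [
  .mk 0 105 38 [0x200, 0xfe1e17f92]] = true := by
  decide +kernel

theorem t3 : runX PT.R (Wk.frw PT.R) nl RvT (SMap.evl cT tlT PT.vx ringF) [
  .mk 0 105 38 [0x2000, 0x1fa7b3]] = true := by
  decide +kernel

theorem t4 : runX PT.R (Wk.frw PT.R) nl RvT (SMap.evl cT tlT PT.vx ringF) [
  .mk 0 105 38 [0x2000, 0xfe0584c]] = true := by
  decide +kernel

/-- The tasks. -/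
noncomputable def P : List (List Tk) := [
[
  .mk 0 104 37 [0x2000, 0xfc0584c],
  .mk 0 105 38 [0xfffffddff]],
[
  .mk 0 105 38 [0x200, 0x1e1e806d]],
[
  .mk 0 105 38 [0x200, 0xfe1e17f92]],
[
  .mk 0 105 38 [0x2000, 0x1fa7b3]],
[
  .mk 0 105 38 [0x2000, 0xfe0584c]]]

theorem run : RunAll (runX PT.R (Wk.frw PT.R) nl RvT (SMap.evl cT tlT PT.vx ringF)) P :=
  .cons t0 (.cons t1 (.cons t2 (.cons t3 (.cons t4 (.nil)))))

end Pool.Agent.Lib.MP_5854e1_co.Cz.Sr034

namespace Pool.Agent.Lib.MP_5854e1_co.Cz.Sr074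

open PB

theorem t0 : runX PT.R (Wk.frw PT.R) nl RvT (SMap.evl cT tlT PT.vx ringF) [
  .mk 0 124 68 [0x8000, 0x4016130]] = true := by
  decide +kernel

theorem t1 : runX PT.R (Wk.frw PT.R) nl RvT (SMap.evl cT tlT PT.vx ringF) [
  .mk 0 124 68 [0x8000, 0x100000, 0x800ffe000000002000000000000000000000000000000000000000]] = true := by
  decide +kernel

theorem t2 : runX PT.R (Wk.frw PT.R) nl RvT (SMap.evl cT tlT PT.vx ringF) [
  .mk 0 124 68 [0x8000, 0x100000, 0xffffffffffffffffffffffffffffffffffffffffffffffffff7ff001ffffffffdfffffffffffffffffffffffffffffffffffffff]] = true := by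
  decide +kernel

theorem t3 : runX PT.R (Wk.frw PT.R) nl RvT (SMap.evl cT tlT PT.vx ringF) [
  .mk 0 124 68 [0x8000, 0x400000, 0x168b]] = true := by
  decide +kernel

theorem t4 : runX PT.R (Wk.frw PT.R) nl RvT (SMap.evl cT tlT PT.vx ringF) [
  .mk 0 124 68 [0x8000, 0x400000, 0x7fe974]] = true := by
  decide +kernel

/-- The tasks. -/
noncomputable def P : List (List Tk) := [
[
  .mk 0 124 68 [0x8000, 0x4016130]],
[
  .mk 0 124 68 [0x8000, 0x100000, 0x800ffe000000002000000000000000000000000000000000000000]],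
[
  .mk 0 124 68 [0x8000, 0x100000, 0xffffffffffffffffffffffffffffffffffffffffffffffffff7ff001ffffffffdfffffffffffffffffffffffffffffffffffffff]],
[
  .mk 0 124 68 [0x8000, 0x400000, 0x168b]],
[
  .mk 0 124 68 [0x8000, 0x400000, 0x7fe974]]]

theorem run : RunAll (runX PT.R (Wk.frw PT.R) nl RvT (SMap.evl cT tlT PT.vx ringF)) P :=
  .cons t0 (.cons t1 (.cons t2 (.cons t3 (.cons t4 (.nil)))))

end Pool.Agent.Lib.MP_5854e1_co.Cz.Sr074

namespace Pool.Agent.Lib.MP_5854e1_co.Cz.Sr162

open PB

theorem t0 : runX PT.R (Wk.frw PT.R) nl RvT (SMap.evl cT tlT PT.vx ringF) [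
  .mk 7 246 7 [0x4d0000000000000000000000000000000000000000000000000000000000000000]] = true := by
  decide +kernel

theorem t1 : runX PT.R (Wk.frw PT.R) nl RvT (SMap.evl cT tlT PT.vx ringF) [
  .mk 7 246 7 [0x180000000000000000000000000000000000000000000000000000000000000000000]] = true := by
  decide +kernel

theorem t2 : runX PT.R (Wk.frw PT.R) nl RvT (SMap.evl cT tlT PT.vx ringF) [
  .mk 7 246 7 [0x1e00000000000000000000000000000000000000000000000000000000000000000000]] = true := by
  decide +kernel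

theorem t3 : runX PT.R (Wk.frw PT.R) nl RvT (SMap.evl cT tlT PT.vx ringF) [
  .mk 7 246 7 [0xfe03fb2fc1fffffffffffffffffffffffffffffffffffffffebffffffffffffffffffff]] = true := by
  decide +kernel

theorem t4 : runX PT.R (Wk.frw PT.R) nl RvT (SMap.evl cT tlT PT.vx ringF) [
  .mk 7 246 7 [0x40000000000000000000000000000000000000000000000000000000000000000000, 0xc0618020000000001d380021c01]] = true := by
  decide +kernel

theorem t5 : runX PT.R (Wk.frw PT.R) nl RvT (SMap.evl cT tlT PT.vx ringF) [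
  .mk 7 246 7 [0x40000000000000000000000000000000000000000000000000000000000000000000, 0xfffffffffffffffffffffffffffffffffffffffffffffffffffffffffffffffffffffffffffff3f9e7fdfffffffffe2c7ffde3fe],
  .mk 7 247 15 []] = true := by
  decide +kernel

/-- The tasks. -/
noncomputable def P : List (List Tk) := [
[
  .mk 7 246 7 [0x4d0000000000000000000000000000000000000000000000000000000000000000]],
[
  .mk 7 246 7 [0x180000000000000000000000000000000000000000000000000000000000000000000]],
[
  .mk 7 246 7 [0x1e00000000000000000000000000000000000000000000000000000000000000000000]],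
[
  .mk 7 246 7 [0xfe03fb2fc1fffffffffffffffffffffffffffffffffffffffebffffffffffffffffffff]],
[
  .mk 7 246 7 [0x40000000000000000000000000000000000000000000000000000000000000000000, 0xc0618020000000001d380021c01]],
[
  .mk 7 246 7 [0x40000000000000000000000000000000000000000000000000000000000000000000, 0xfffffffffffffffffffffffffffffffffffffffffffffffffffffffffffffffffffffffffffff3f9e7fdfffffffffe2c7ffde3fe],
  .mk 7 247 15 []]]

theorem run : RunAll (runX PT.R (Wk.frw PT.R) nl RvT (SMap.evl cT tlT PT.vx ringF)) P :=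
  .cons t0 (.cons t1 (.cons t2 (.cons t3 (.cons t4 (.cons t5 (.nil))))))

end Pool.Agent.Lib.MP_5854e1_co.Cz.Sr162
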