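import Pool.Agent.Lib.MP_5854e1_co.Cz.P
import Pool.Agent.Lib.MP_5854e1_co.Tkx
import Pool.Agent.Lib.MP_5854e1_co.RunAll

/-!
# Search, part 35
-/

set_option autoImplicit false
set_option deprecated.oldSectionVars true
set_option maxRecDepth 100000

namespace Pool.Agent.Lib.MP_5854e1_co.Cz.Sr035

open PB

theorem t0 : runX PT.R (Wk.frw PT.R) nl RvT (SMap.evl cT tlT PT.vx ringF) [
  .mk 0 106 39 [0x2f400]] = true := by
  decide +kernel

theorem t1 : runX PT.R (Wk.frw PT.R) nl RvT (SMap.evl cT tlT PT.vx ringF) [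
  .mk 0 106 39 [0xc0bff]] = true := by
  decide +kernel

theorem t2 : runX PT.R (Wk.frw PT.R) nl RvT (SMap.evl cT tlT PT.vx ringF) [
  .mk 0 106 39 [0x10000, 0x7]] = true := by
  decide +kernel

theorem t3 : runX PT.R (Wk.frw PT.R) nl RvT (SMap.evl cT tlT PT.vx ringF) [
  .mk 0 106 39 [0x10000, 0x1c8]] = true := by
  decide +kernel

theorem t4 : runX PT.R (Wk.frw PT.R) nl RvT (SMap.evl cT tlT PT.vx ringF) [
  .mk 0 106 39 [0x10000, 0x200]] = true := by
  decide +kernel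

theorem t5 : runX PT.R (Wk.frw PT.R) nl RvT (SMap.evl cT tlT PT.vx ringF) [
  .mk 0 106 39 [0x10000, 0x1c00]] = true := by
  decide +kernel

/-- The tasks. -/
noncomputable def P : List (List Tk) := [
[
  .mk 0 106 39 [0x2f400]],
[
  .mk 0 106 39 [0xc0bff]],
[
  .mk 0 106 39 [0x10000, 0x7]],
[
  .mk 0 106 39 [0x10000, 0x1c8]],
[
  .mk 0 106 39 [0x10000, 0x200]],
[
  .mk 0 106 39 [0x10000, 0x1c00]]]

theorem run : RunAll (runX PT.R (Wk.frw PT.R) nl RvT (SMap.evl cT tlT PT.vx ringF)) P :=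
  .cons t0 (.cons t1 (.cons t2 (.cons t3 (.cons t4 (.cons t5 (.nil))))))

end Pool.Agent.Lib.MP_5854e1_co.Cz.Sr035

namespace Pool.Agent.Lib.MP_5854e1_co.Cz.Sr529

open PB

theorem t0 : runX PT.R (Wk.frw PT.R) nl RvT (SMap.evl cT tlT PT.vx ringF) [
  .mk 63 12 55 [0x400, 0x1000, 0x1, 0x1000000000000000000000000000000000000000000000000000000000000000000000000000000000000000000000000, 0x1000]] = true := by
  decide +kernel

theorem t1 : runX PT.R (Wk.frw PT.R) nl RvT (SMap.evl cT tlT PT.vx ringF) [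
  .mk 63 12 55 [0x400, 0x1000, 0x1, 0x1000000000000000000000000000000000000000000000000000000000000000000000000000000000000000000000000, 0xfffffffffffffffffffffffffffffffffffffffffffffffffffffffffffffffffffe3bc],
  .mk 63 12 55 [0x400, 0x1000, 0x40000000000000, 0x1fffdf]] = true := by
  decide +kernel

theorem t2 : runX PT.R (Wk.frw PT.R) nl RvT (SMap.evl cT tlT PT.vx ringF) [
  .mk 63 12 55 [0x400, 0x1000, 0x40000000000000, 0x20, 0xffffffffffffffffffffffffffffffffffffffffffffffffffffffffffffffffffffffffffffefffffffffffffffffffffffffff]] = true := by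
  decide +kernel

theorem t3 : runX PT.R (Wk.frw PT.R) nl RvT (SMap.evl cT tlT PT.vx ringF) [
  .mk 63 12 55 [0x400, 0x1000, 0x40000000000000, 0x20, 0x1000000000000000000000000000, 0xfffffffff]] = true := by
  decide +kernel

theorem t4 : runX PT.R (Wk.frw PT.R) nl RvT (SMap.evl cT tlT PT.vx ringF) [
  .mk 63 12 55 [0x400, 0x1000, 0x80000000000000, 0x68b]] = true := by
  decide +kernel

theorem t5 : runX PT.R (Wk.frw PT.R) nl RvT (SMap.evl cT tlT PT.vx ringF) [
  .mk 63 12 55 [0x400, 0x1000, 0x80000000000000, 0x7f974]] = true := by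
  decide +kernel

theorem t6 : runX PT.R (Wk.frw PT.R) nl RvT (SMap.evl cT tlT PT.vx ringF) [
  .mk 63 13 56 [0x3ffffff7fffff]] = true := by
  decide +kernel

/-- The tasks. -/
noncomputable def P : List (List Tk) := [
[
  .mk 63 12 55 [0x400, 0x1000, 0x1, 0x1000000000000000000000000000000000000000000000000000000000000000000000000000000000000000000000000, 0x1000]],
[
  .mk 63 12 55 [0x400, 0x1000, 0x1, 0x1000000000000000000000000000000000000000000000000000000000000000000000000000000000000000000000000, 0xfffffffffffffffffffffffffffffffffffffffffffffffffffffffffffffffffffe3bc],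
  .mk 63 12 55 [0x400, 0x1000, 0x40000000000000, 0x1fffdf]],
[
  .mk 63 12 55 [0x400, 0x1000, 0x40000000000000, 0x20, 0xffffffffffffffffffffffffffffffffffffffffffffffffffffffffffffffffffffffffffffefffffffffffffffffffffffffff]],
[
  .mk 63 12 55 [0x400, 0x1000, 0x40000000000000, 0x20, 0x1000000000000000000000000000, 0xfffffffff]],
[
  .mk 63 12 55 [0x400, 0x1000, 0x80000000000000, 0x68b]],
[
  .mk 63 12 55 [0x400, 0x1000, 0x80000000000000, 0x7f974]],
[
  .mk 63 13 56 [0x3ffffff7fffff]]]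

theorem run : RunAll (runX PT.R (Wk.frw PT.R) nl RvT (SMap.evl cT tlT PT.vx ringF)) P :=
  .cons t0 (.cons t1 (.cons t2 (.cons t3 (.cons t4 (.cons t5 (.cons t6 (.nil)))))))

end Pool.Agent.Lib.MP_5854e1_co.Cz.Sr529

namespace Pool.Agent.Lib.MP_5854e1_co.Cz.Sr535

open PB

theorem t0 : runX PT.R (Wk.frw PT.R) nl RvT (SMap.evl cT tlT PT.vx ringF) [
  .mk 63 26 41 [0x2000, 0x3a793]] = true := by
  decide +kernel

theorem t1 : runX PT.R (Wk.frw PT.R) nl RvT (SMap.evl cT tlT PT.vx ringF) [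
  .mk 63 26 41 [0x2000, 0xffc586c],
  .mk 63 27 42 [],
  .mk 63 28 43 [],
  .mk 63 29 44 [],
  .mk 63 30 45 [],
  .mk 63 31 46 [],
  .mk 63 32 47 [],
  .mk 63 33 49 [],
  .mk 64 0 0 [],
  .mk 64 1 20 [],
  .mk 64 2 26 [],
  .mk 64 3 27 [],
  .mk 64 4 28 [],
  .mk 64 5 31 [],
  .mk 64 6 32 [],
  .mk 64 7 50 [],
  .mk 64 8 51 [],
  .mk 64 9 52 [],
  .mk 64 10 53 [],
  .mk 64 11 54 [0x7e9ecd]] = true := by
  decide +kernel

theorem t2 : runX PT.R (Wk.frw PT.R) nl RvT (SMap.evl cT tlT PT.vx ringF) [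
  .mk 64 11 54 [0x7816132]] = true := by
  decide +kernel

theorem t3 : runX PT.R (Wk.frw PT.R) nl RvT (SMap.evl cT tlT PT.vx ringF) [
  .mk 64 12 55 [0x1f]] = true := by
  decide +kernel

theorem t4 : runX PT.R (Wk.frw PT.R) nl RvT (SMap.evl cT tlT PT.vx ringF) [
  .mk 64 12 55 [0xffffbe0]] = true := by
  decide +kernel

theorem t5 : runX PT.R (Wk.frw PT.R) nl RvT (SMap.evl cT tlT PT.vx ringF) [
  .mk 64 12 55 [0x400, 0x68f]] = true := by
  decide +kernel

/-- The tasks. -/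
noncomputable def P : List (List Tk) := [
[
  .mk 63 26 41 [0x2000, 0x3a793]],
[
  .mk 63 26 41 [0x2000, 0xffc586c],
  .mk 63 27 42 [],
  .mk 63 28 43 [],
  .mk 63 29 44 [],
  .mk 63 30 45 [],
  .mk 63 31 46 [],
  .mk 63 32 47 [],
  .mk 63 33 49 [],
  .mk 64 0 0 [],
  .mk 64 1 20 [],
  .mk 64 2 26 [],
  .mk 64 3 27 [],
  .mk 64 4 28 [],
  .mk 64 5 31 [],
  .mk 64 6 32 [],
  .mk 64 7 50 [],
  .mk 64 8 51 [],
  .mk 64 9 52 [],
  .mk 64 10 53 [],
  .mk 64 11 54 [0x7e9ecd]],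
[
  .mk 64 11 54 [0x7816132]],
[
  .mk 64 12 55 [0x1f]],
[
  .mk 64 12 55 [0xffffbe0]],
[
  .mk 64 12 55 [0x400, 0x68f]]]

theorem run : RunAll (runX PT.R (Wk.frw PT.R) nl RvT (SMap.evl cT tlT PT.vx ringF)) P :=
  .cons t0 (.cons t1 (.cons t2 (.cons t3 (.cons t4 (.cons t5 (.nil))))))

end Pool.Agent.Lib.MP_5854e1_co.Cz.Sr535
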