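import Pool.Agent.Lib.MP_5854e1_co.Cz.P
import Pool.Agent.Lib.MP_5854e1_co.Tkx
import Pool.Agent.Lib.MP_5854e1_co.RunAll

/-!
# Search, part 36
-/

set_option autoImplicit false
set_option deprecated.oldSectionVars true
set_option maxRecDepth 100000

namespace Pool.Agent.Lib.MP_5854e1_co.Cz.Sr036

open PB

theorem t0 : runX PT.R (Wk.frw PT.R) nl RvT (SMap.evl cT tlT PT.vx ringF) [
  .mk 0 106 39 [0x10000, 0xfffffe030],
  .mk 0 107 40 [],
  .mk 0 108 41 [0x142]] = true := by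
  decide +kernel

theorem t1 : runX PT.R (Wk.frw PT.R) nl RvT (SMap.evl cT tlT PT.vx ringF) [
  .mk 0 108 41 [0x1000]] = true := by
  decide +kernel

theorem t2 : runX PT.R (Wk.frw PT.R) nl RvT (SMap.evl cT tlT PT.vx ringF) [
  .mk 0 108 41 [0xc000]] = true := by
  decide +kernel

theorem t3 : runX PT.R (Wk.frw PT.R) nl RvT (SMap.evl cT tlT PT.vx ringF) [
  .mk 0 108 41 [0x140000]] = true := by
  decide +kernel

theorem t4 : runX PT.R (Wk.frw PT.R) nl RvT (SMap.evl cT tlT PT.vx ringF) [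
  .mk 0 108 41 [0x10000000]] = true := by
  decide +kernel

/-- The tasks. -/
noncomputable def P : List (List Tk) := [
[
  .mk 0 106 39 [0x10000, 0xfffffe030],
  .mk 0 107 40 [],
  .mk 0 108 41 [0x142]],
[
  .mk 0 108 41 [0x1000]],
[
  .mk 0 108 41 [0xc000]],
[
  .mk 0 108 41 [0x140000]],
[
  .mk 0 108 41 [0x10000000]]]

theorem run : RunAll (runX PT.R (Wk.frw PT.R) nl RvT (SMap.evl cT tlT PT.vx ringF)) P :=
  .cons t0 (.cons t1 (.cons t2 (.cons t3 (.cons t4 (.nil)))))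

end Pool.Agent.Lib.MP_5854e1_co.Cz.Sr036

namespace Pool.Agent.Lib.MP_5854e1_co.Cz.Sr303

open PB

theorem t0 : runX PT.R (Wk.frw PT.R) nl RvT (SMap.evl cT tlT PT.vx ringF) [
  .mk 13 11 2 [0x80, 0x81bfe],
  .mk 13 11 2 [0x200, 0xff198043]] = true := by
  decide +kernel

theorem t1 : runX PT.R (Wk.frw PT.R) nl RvT (SMap.evl cT tlT PT.vx ringF) [
  .mk 13 11 2 [0x200, 0xf00e67fbc],
  .mk 13 12 7 [],
  .mk 13 13 15 [],
  .mk 13 14 0 [],
  .mk 13 15 7 [],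
  .mk 13 16 15 [],
  .mk 13 17 20 [],
  .mk 13 18 28 [],
  .mk 14 0 0 [],
  .mk 14 1 20 [],
  .mk 14 2 24 [],
  .mk 14 3 25 [],
  .mk 14 4 26 [],
  .mk 14 5 27 [],
  .mk 14 6 28 [],
  .mk 14 7 30 [],
  .mk 14 8 32 [],
  .mk 14 9 50 [],
  .mk 14 10 51 []] = true := by
  decide +kernel

theorem t2 : runX PT.R (Wk.frw PT.R) nl RvT (SMap.evl cT tlT PT.vx ringF) [
  .mk 14 11 52 [0x18f]] = true := by
  decide +kernel

theorem t3 : runX PT.R (Wk.frw PT.R) nl RvT (SMap.evl cT tlT PT.vx ringF) [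
  .mk 14 11 52 [0xffffffe70],
  .mk 14 12 53 [],
  .mk 14 13 54 [],
  .mk 14 14 55 [],
  .mk 14 15 56 [],
  .mk 14 16 57 [],
  .mk 14 17 58 [],
  .mk 14 18 59 [],
  .mk 14 19 60 [],
  .mk 14 20 0 [],
  .mk 14 21 7 []] = true := by
  decide +kernel

theorem t4 : runX PT.R (Wk.frw PT.R) nl RvT (SMap.evl cT tlT PT.vx ringF) [
  .mk 14 22 11 [0x11600]] = true := by
  decide +kernel

theorem t5 : runX PT.R (Wk.frw PT.R) nl RvT (SMap.evl cT tlT PT.vx ringF) [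
  .mk 14 22 11 [0x7e81ff]] = true := by
  decide +kernel

/-- The tasks. -/
noncomputable def P : List (List Tk) := [
[
  .mk 13 11 2 [0x80, 0x81bfe],
  .mk 13 11 2 [0x200, 0xff198043]],
[
  .mk 13 11 2 [0x200, 0xf00e67fbc],
  .mk 13 12 7 [],
  .mk 13 13 15 [],
  .mk 13 14 0 [],
  .mk 13 15 7 [],
  .mk 13 16 15 [],
  .mk 13 17 20 [],
  .mk 13 18 28 [],
  .mk 14 0 0 [],
  .mk 14 1 20 [],
  .mk 14 2 24 [],
  .mk 14 3 25 [],
  .mk 14 4 26 [],
  .mk 14 5 27 [],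
  .mk 14 6 28 [],
  .mk 14 7 30 [],
  .mk 14 8 32 [],
  .mk 14 9 50 [],
  .mk 14 10 51 []],
[
  .mk 14 11 52 [0x18f]],
[
  .mk 14 11 52 [0xffffffe70],
  .mk 14 12 53 [],
  .mk 14 13 54 [],
  .mk 14 14 55 [],
  .mk 14 15 56 [],
  .mk 14 16 57 [],
  .mk 14 17 58 [],
  .mk 14 18 59 [],
  .mk 14 19 60 [],
  .mk 14 20 0 [],
  .mk 14 21 7 []],
[
  .mk 14 22 11 [0x11600]],
[
  .mk 14 22 11 [0x7e81ff]]]

theorem run : RunAll (runX PT.R (Wk.frw PT.R) nl RvT (SMap.evl cT tlT PT.vx ringF)) P :=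
  .cons t0 (.cons t1 (.cons t2 (.cons t3 (.cons t4 (.cons t5 (.nil))))))

end Pool.Agent.Lib.MP_5854e1_co.Cz.Sr303

namespace Pool.Agent.Lib.MP_5854e1_co.Cz.Sr492

open PB

theorem t0 : runX PT.R (Wk.frw PT.R) nl RvT (SMap.evl cT tlT PT.vx ringF) [
  .mk 48 27 60 [0x9be]] = true := by
  decide +kernel

theorem t1 : runX PT.R (Wk.frw PT.R) nl RvT (SMap.evl cT tlT PT.vx ringF) [
  .mk 48 27 60 [0x1000]] = true := by
  decide +kernel

theorem t2 : runX PT.R (Wk.frw PT.R) nl RvT (SMap.evl cT tlT PT.vx ringF) [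
  .mk 48 27 60 [0x6000]] = true := by
  decide +kernel

theorem t3 : runX PT.R (Wk.frw PT.R) nl RvT (SMap.evl cT tlT PT.vx ringF) [
  .mk 48 27 60 [0xfffff8040]] = true := by
  decide +kernel

theorem t4 : runX PT.R (Wk.frw PT.R) nl RvT (SMap.evl cT tlT PT.vx ringF) [
  .mk 48 27 60 [0x1, 0x1f00000000000000000000000000000000000000000000000000fffe00000000200000000000000000000]] = true := by
  decide +kernel

theorem t5 : runX PT.R (Wk.frw PT.R) nl RvT (SMap.evl cT tlT PT.vx ringF) [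
  .mk 48 27 60 [0x1, 0xfffffffffffffffffffe0ffffffffffffffffffffffffffffffffffffffffffffffffff0001ffffffffdffffffffffffffffffff]] = true := by
  decide +kernel

/-- The tasks. -/
noncomputable def P : List (List Tk) := [
[
  .mk 48 27 60 [0x9be]],
[
  .mk 48 27 60 [0x1000]],
[
  .mk 48 27 60 [0x6000]],
[
  .mk 48 27 60 [0xfffff8040]],
[
  .mk 48 27 60 [0x1, 0x1f00000000000000000000000000000000000000000000000000fffe00000000200000000000000000000]],
[
  .mk 48 27 60 [0x1, 0xfffffffffffffffffffe0ffffffffffffffffffffffffffffffffffffffffffffffffff0001ffffffffdffffffffffffffffffff]]]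

theorem run : RunAll (runX PT.R (Wk.frw PT.R) nl RvT (SMap.evl cT tlT PT.vx ringF)) P :=
  .cons t0 (.cons t1 (.cons t2 (.cons t3 (.cons t4 (.cons t5 (.nil))))))

end Pool.Agent.Lib.MP_5854e1_co.Cz.Sr492
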