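import Pool.Agent.Lib.MP_5854e1_co.Cz.P
import Pool.Agent.Lib.MP_5854e1_co.Tkx
import Pool.Agent.Lib.MP_5854e1_co.RunAll

/-!
# Search, part 37
-/

set_option autoImplicit false
set_option deprecated.oldSectionVars true
set_option maxRecDepth 100000

namespace Pool.Agent.Lib.MP_5854e1_co.Cz.Sr037

open PB

theorem t0 : runX PT.R (Wk.frw PT.R) nl RvT (SMap.evl cT tlT PT.vx ringF) [
  .mk 0 108 41 [0xe0000000]] = true := by
  decide +kernel

theorem t1 : runX PT.R (Wk.frw PT.R) nl RvT (SMap.evl cT tlT PT.vx ringF) [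
  .mk 0 108 41 [0xb07eb0030]] = true := by
  decide +kernel

theorem t2 : runX PT.R (Wk.frw PT.R) nl RvT (SMap.evl cT tlT PT.vx ringF) [
  .mk 0 108 41 [0x1, 0x300000000000000000000000000000000000000000000000000016a00000000000000000000000000000]] = true := by
  decide +kernel

theorem t3 : runX PT.R (Wk.frw PT.R) nl RvT (SMap.evl cT tlT PT.vx ringF) [
  .mk 0 108 41 [0x1, 0xe00781c00000000000000000000000000000000000000000000000000000000000000000000000000000000000]] = true := by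
  decide +kernel

theorem t4 : runX PT.R (Wk.frw PT.R) nl RvT (SMap.evl cT tlT PT.vx ringF) [
  .mk 0 108 41 [0x1, 0xffffffffffffff1ff87e0fffffffffffffffffffffffffffffffffffffffffffffffffffe95fffffffffffffffffffffffffffff]] = true := by
  decide +kernel

/-- The tasks. -/
noncomputable def P : List (List Tk) := [
[
  .mk 0 108 41 [0xe0000000]],
[
  .mk 0 108 41 [0xb07eb0030]],
[
  .mk 0 108 41 [0x1, 0x300000000000000000000000000000000000000000000000000016a00000000000000000000000000000]],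
[
  .mk 0 108 41 [0x1, 0xe00781c00000000000000000000000000000000000000000000000000000000000000000000000000000000000]],
[
  .mk 0 108 41 [0x1, 0xffffffffffffff1ff87e0fffffffffffffffffffffffffffffffffffffffffffffffffffe95fffffffffffffffffffffffffffff]]]

theorem run : RunAll (runX PT.R (Wk.frw PT.R) nl RvT (SMap.evl cT tlT PT.vx ringF)) P :=
  .cons t0 (.cons t1 (.cons t2 (.cons t3 (.cons t4 (.nil)))))

end Pool.Agent.Lib.MP_5854e1_co.Cz.Sr037

namespace Pool.Agent.Lib.MP_5854e1_co.Cz.Sr126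

open PB

theorem t0 : runX PT.R (Wk.frw PT.R) nl RvT (SMap.evl cT tlT PT.vx ringF) [
  .mk 7 15 44 [0x100, 0x7ff040],
  .mk 7 16 45 []] = true := by
  decide +kernel

theorem t1 : runX PT.R (Wk.frw PT.R) nl RvT (SMap.evl cT tlT PT.vx ringF) [
  .mk 7 17 46 [0x7bd]] = true := by
  decide +kernel

theorem t2 : runX PT.R (Wk.frw PT.R) nl RvT (SMap.evl cT tlT PT.vx ringF) [
  .mk 7 17 46 [0x1f800]] = true := by
  decide +kernel

theorem t3 : runX PT.R (Wk.frw PT.R) nl RvT (SMap.evl cT tlT PT.vx ringF) [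
  .mk 7 17 46 [0x1e0000]] = true := by
  decide +kernel

theorem t4 : runX PT.R (Wk.frw PT.R) nl RvT (SMap.evl cT tlT PT.vx ringF) [
  .mk 7 17 46 [0x200000]] = true := by
  decide +kernel

theorem t5 : runX PT.R (Wk.frw PT.R) nl RvT (SMap.evl cT tlT PT.vx ringF) [
  .mk 7 17 46 [0x400000]] = true := by
  decide +kernel

theorem t6 : runX PT.R (Wk.frw PT.R) nl RvT (SMap.evl cT tlT PT.vx ringF) [
  .mk 7 17 46 [0x7800042],
  .mk 7 18 47 []] = true := by
  decide +kernel

/-- The tasks. -/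
noncomputable def P : List (List Tk) := [
[
  .mk 7 15 44 [0x100, 0x7ff040],
  .mk 7 16 45 []],
[
  .mk 7 17 46 [0x7bd]],
[
  .mk 7 17 46 [0x1f800]],
[
  .mk 7 17 46 [0x1e0000]],
[
  .mk 7 17 46 [0x200000]],
[
  .mk 7 17 46 [0x400000]],
[
  .mk 7 17 46 [0x7800042],
  .mk 7 18 47 []]]

theorem run : RunAll (runX PT.R (Wk.frw PT.R) nl RvT (SMap.evl cT tlT PT.vx ringF)) P :=
  .cons t0 (.cons t1 (.cons t2 (.cons t3 (.cons t4 (.cons t5 (.cons t6 (.nil)))))))

end Pool.Agent.Lib.MP_5854e1_co.Cz.Sr126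

namespace Pool.Agent.Lib.MP_5854e1_co.Cz.Sr402

open PB

theorem t0 : runX PT.R (Wk.frw PT.R) nl RvT (SMap.evl cT tlT PT.vx ringF) [
  .mk 41 13 48 [0x200000, 0x40000, 0xffffffffe]] = true := by
  decide +kernel

theorem t1 : runX PT.R (Wk.frw PT.R) nl RvT (SMap.evl cT tlT PT.vx ringF) [
  .mk 41 13 48 [0x200000, 0x40000, 0x1, 0x3000000000000002000000000000000000000000000000000000000]] = true := by
  decide +kernel

theorem t2 : runX PT.R (Wk.frw PT.R) nl RvT (SMap.evl cT tlT PT.vx ringF) [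
  .mk 41 13 48 [0x200000, 0x40000, 0x1, 0xfffffffffffffffffffffffffffffffffffffffffffffffffcffffffffffffffdfffffffffffffffffffffffffffffffffffffff]] = true := by
  decide +kernel

theorem t3 : runX PT.R (Wk.frw PT.R) nl RvT (SMap.evl cT tlT PT.vx ringF) [
  .mk 41 13 48 [0x800000, 0x18011]] = true := by
  decide +kernel

theorem t4 : runX PT.R (Wk.frw PT.R) nl RvT (SMap.evl cT tlT PT.vx ringF) [
  .mk 41 13 48 [0x800000, 0xffffe7fec]] = true := by
  decide +kernel

theorem t5 : runX PT.R (Wk.frw PT.R) nl RvT (SMap.evl cT tlT PT.vx ringF) [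
  .mk 41 13 48 [0x800000, 0x2, 0xfffffffffffffbfffffffffffffffffffffffffffffffffffffffffffffffffffffffff]] = true := by
  decide +kernel

theorem t6 : runX PT.R (Wk.frw PT.R) nl RvT (SMap.evl cT tlT PT.vx ringF) [
  .mk 41 13 48 [0x800000, 0x2, 0x4000000000000000000000000000000000000000000000000000000000, 0x13]] = true := by
  decide +kernel

/-- The tasks. -/
noncomputable def P : List (List Tk) := [
[
  .mk 41 13 48 [0x200000, 0x40000, 0xffffffffe]],
[
  .mk 41 13 48 [0x200000, 0x40000, 0x1, 0x3000000000000002000000000000000000000000000000000000000]],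
[
  .mk 41 13 48 [0x200000, 0x40000, 0x1, 0xfffffffffffffffffffffffffffffffffffffffffffffffffcffffffffffffffdfffffffffffffffffffffffffffffffffffffff]],
[
  .mk 41 13 48 [0x800000, 0x18011]],
[
  .mk 41 13 48 [0x800000, 0xffffe7fec]],
[
  .mk 41 13 48 [0x800000, 0x2, 0xfffffffffffffbfffffffffffffffffffffffffffffffffffffffffffffffffffffffff]],
[
  .mk 41 13 48 [0x800000, 0x2, 0x4000000000000000000000000000000000000000000000000000000000, 0x13]]]

theorem run : RunAll (runX PT.R (Wk.frw PT.R) nl RvT (SMap.evl cT tlT PT.vx ringF)) P :=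
  .cons t0 (.cons t1 (.cons t2 (.cons t3 (.cons t4 (.cons t5 (.cons t6 (.nil)))))))

end Pool.Agent.Lib.MP_5854e1_co.Cz.Sr402

namespace Pool.Agent.Lib.MP_5854e1_co.Cz.Sr497

open PB

theorem t0 : runX PT.R (Wk.frw PT.R) nl RvT (SMap.evl cT tlT PT.vx ringF) [
  .mk 49 10 53 [0xddc10000000]] = true := by
  decide +kernel

theorem t1 : runX PT.R (Wk.frw PT.R) nl RvT (SMap.evl cT tlT PT.vx ringF) [
  .mk 49 10 53 [0x3f223e423ffff]] = true := by
  decide +kernel

theorem t2 : runX PT.R (Wk.frw PT.R) nl RvT (SMap.evl cT tlT PT.vx ringF) [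
  .mk 49 10 53 [0x800000, 0x27b3]] = true := by
  decide +kernel

theorem t3 : runX PT.R (Wk.frw PT.R) nl RvT (SMap.evl cT tlT PT.vx ringF) [
  .mk 49 10 53 [0x800000, 0x3ffffd84c],
  .mk 49 11 56 [],
  .mk 49 12 58 [0xffbf4f]] = true := by
  decide +kernel

theorem t4 : runX PT.R (Wk.frw PT.R) nl RvT (SMap.evl cT tlT PT.vx ringF) [
  .mk 49 12 58 [0x531b000000]] = true := by
  decide +kernel

theorem t5 : runX PT.R (Wk.frw PT.R) nl RvT (SMap.evl cT tlT PT.vx ringF) [
  .mk 49 12 58 [0x10000000000]] = true := by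
  decide +kernel

/-- The tasks. -/
noncomputable def P : List (List Tk) := [
[
  .mk 49 10 53 [0xddc10000000]],
[
  .mk 49 10 53 [0x3f223e423ffff]],
[
  .mk 49 10 53 [0x800000, 0x27b3]],
[
  .mk 49 10 53 [0x800000, 0x3ffffd84c],
  .mk 49 11 56 [],
  .mk 49 12 58 [0xffbf4f]],
[
  .mk 49 12 58 [0x531b000000]],
[
  .mk 49 12 58 [0x10000000000]]]

theorem run : RunAll (runX PT.R (Wk.frw PT.R) nl RvT (SMap.evl cT tlT PT.vx ringF)) P :=
  .cons t0 (.cons t1 (.cons t2 (.cons t3 (.cons t4 (.cons t5 (.nil))))))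

end Pool.Agent.Lib.MP_5854e1_co.Cz.Sr497
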