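import Pool.Agent.Lib.MP_5854e1_co.Cz.P
import Pool.Agent.Lib.MP_5854e1_co.Tkx
import Pool.Agent.Lib.MP_5854e1_co.RunAll

/-!
# Search, part 38
-/

set_option autoImplicit false
set_option deprecated.oldSectionVars true
set_option maxRecDepth 100000

namespace Pool.Agent.Lib.MP_5854e1_co.Cz.Sr038

open PB

theorem t0 : runX PT.R (Wk.frw PT.R) nl RvT (SMap.evl cT tlT PT.vx ringF) [
  .mk 0 108 41 [0x4, 0x1da00]] = true := by
  decide +kernel

theorem t1 : runX PT.R (Wk.frw PT.R) nl RvT (SMap.evl cT tlT PT.vx ringF) [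
  .mk 0 108 41 [0x4, 0x7e05ff]] = true := by
  decide +kernel

theorem t2 : runX PT.R (Wk.frw PT.R) nl RvT (SMap.evl cT tlT PT.vx ringF) [
  .mk 0 108 41 [0x4, 0x2000, 0x781]] = true := by
  decide +kernel

theorem t3 : runX PT.R (Wk.frw PT.R) nl RvT (SMap.evl cT tlT PT.vx ringF) [
  .mk 0 108 41 [0x4, 0x2000, 0xffffff87e],
  .mk 0 108 41 [0x8, 0x3de0300]] = true := by
  decide +kernel

theorem t4 : runX PT.R (Wk.frw PT.R) nl RvT (SMap.evl cT tlT PT.vx ringF) [
  .mk 0 108 41 [0x8, 0x7c000000]] = true := by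
  decide +kernel

theorem t5 : runX PT.R (Wk.frw PT.R) nl RvT (SMap.evl cT tlT PT.vx ringF) [
  .mk 0 108 41 [0x8, 0x38021fcff],
  .mk 0 108 41 [0x80, 0xeffff]] = true := by
  decide +kernel

/-- The tasks. -/
noncomputable def P : List (List Tk) := [
[
  .mk 0 108 41 [0x4, 0x1da00]],
[
  .mk 0 108 41 [0x4, 0x7e05ff]],
[
  .mk 0 108 41 [0x4, 0x2000, 0x781]],
[
  .mk 0 108 41 [0x4, 0x2000, 0xffffff87e],
  .mk 0 108 41 [0x8, 0x3de0300]],
[
  .mk 0 108 41 [0x8, 0x7c000000]],
[
  .mk 0 108 41 [0x8, 0x38021fcff],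
  .mk 0 108 41 [0x80, 0xeffff]]]

theorem run : RunAll (runX PT.R (Wk.frw PT.R) nl RvT (SMap.evl cT tlT PT.vx ringF)) P :=
  .cons t0 (.cons t1 (.cons t2 (.cons t3 (.cons t4 (.cons t5 (.nil))))))

end Pool.Agent.Lib.MP_5854e1_co.Cz.Sr038

namespace Pool.Agent.Lib.MP_5854e1_co.Cz.Sr238

open PB

theorem t0 : runX PT.R (Wk.frw PT.R) nl RvT (SMap.evl cT tlT PT.vx ringF) [
  .mk 11 12 20 [0x5881000000000000000000000000000000000000000000000]] = true := by
  decide +kernel

theorem t1 : runX PT.R (Wk.frw PT.R) nl RvT (SMap.evl cT tlT PT.vx ringF) [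
  .mk 11 12 20 [0xffffffffffffffffffffffa77e2fffffffffffffffffffffffffffffe5fbfffffffffff]] = true := by
  decide +kernel

theorem t2 : runX PT.R (Wk.frw PT.R) nl RvT (SMap.evl cT tlT PT.vx ringF) [
  .mk 11 13 21 [0x1]] = true := by
  decide +kernel

theorem t3 : runX PT.R (Wk.frw PT.R) nl RvT (SMap.evl cT tlT PT.vx ringF) [
  .mk 11 13 21 [0x1a4]] = true := by
  decide +kernel

theorem t4 : runX PT.R (Wk.frw PT.R) nl RvT (SMap.evl cT tlT PT.vx ringF) [
  .mk 11 13 21 [0xfffff8852]] = true := by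
  decide +kernel

theorem t5 : runX PT.R (Wk.frw PT.R) nl RvT (SMap.evl cT tlT PT.vx ringF) [
  .mk 11 13 21 [0x8, 0x7a781]] = true := by
  decide +kernel

/-- The tasks. -/
noncomputable def P : List (List Tk) := [
[
  .mk 11 12 20 [0x5881000000000000000000000000000000000000000000000]],
[
  .mk 11 12 20 [0xffffffffffffffffffffffa77e2fffffffffffffffffffffffffffffe5fbfffffffffff]],
[
  .mk 11 13 21 [0x1]],
[
  .mk 11 13 21 [0x1a4]],
[
  .mk 11 13 21 [0xfffff8852]],
[
  .mk 11 13 21 [0x8, 0x7a781]]]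

theorem run : RunAll (runX PT.R (Wk.frw PT.R) nl RvT (SMap.evl cT tlT PT.vx ringF)) P :=
  .cons t0 (.cons t1 (.cons t2 (.cons t3 (.cons t4 (.cons t5 (.nil))))))

end Pool.Agent.Lib.MP_5854e1_co.Cz.Sr238

namespace Pool.Agent.Lib.MP_5854e1_co.Cz.Sr401

open PB

theorem t0 : runX PT.R (Wk.frw PT.R) nl RvT (SMap.evl cT tlT PT.vx ringF) [
  .mk 41 13 48 [0x20000, 0x4b03e00000000000000000000000000000000000000ff80f000000000002000000000000000000000000000000000000000]] = true := by
  decide +kernel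

theorem t1 : runX PT.R (Wk.frw PT.R) nl RvT (SMap.evl cT tlT PT.vx ringF) [
  .mk 41 13 48 [0x20000, 0xff7ffb4fc1ffffffffffffffffffffffffffffffffffffff007f0fffffffffffdfffffffffffffffffffffffffffffffffffffff]] = true := by
  decide +kernel

theorem t2 : runX PT.R (Wk.frw PT.R) nl RvT (SMap.evl cT tlT PT.vx ringF) [
  .mk 41 13 48 [0x20000, 0x800000000000000000000000000000000000000000000000000000000000000000000000000000000000000000000000000000, 0x3000001]] = true := by
  decide +kernel

theorem t3 : runX PT.R (Wk.frw PT.R) nl RvT (SMap.evl cT tlT PT.vx ringF) [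
  .mk 41 13 48 [0x20000, 0x800000000000000000000000000000000000000000000000000000000000000000000000000000000000000000000000000000, 0x3fffffcfffffe],
  .mk 41 13 48 [0x40000, 0x354000000000000000000000000000000000000]] = true := by
  decide +kernel

theorem t4 : runX PT.R (Wk.frw PT.R) nl RvT (SMap.evl cT tlT PT.vx ringF) [
  .mk 41 13 48 [0x40000, 0x1c00000000000000000000000000000000000000]] = true := by
  decide +kernel

theorem t5 : runX PT.R (Wk.frw PT.R) nl RvT (SMap.evl cT tlT PT.vx ringF) [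
  .mk 41 13 48 [0x40000, 0xfffffffffffffffffffffffffffffffe0abffffffffffffffffffffffffffffffffffff],
  .mk 41 13 48 [0x200000, 0xbffff]] = true := by
  decide +kernel

/-- The tasks. -/
noncomputable def P : List (List Tk) := [
[
  .mk 41 13 48 [0x20000, 0x4b03e00000000000000000000000000000000000000ff80f000000000002000000000000000000000000000000000000000]],
[
  .mk 41 13 48 [0x20000, 0xff7ffb4fc1ffffffffffffffffffffffffffffffffffffff007f0fffffffffffdfffffffffffffffffffffffffffffffffffffff]],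
[
  .mk 41 13 48 [0x20000, 0x800000000000000000000000000000000000000000000000000000000000000000000000000000000000000000000000000000, 0x3000001]],
[
  .mk 41 13 48 [0x20000, 0x800000000000000000000000000000000000000000000000000000000000000000000000000000000000000000000000000000, 0x3fffffcfffffe],
  .mk 41 13 48 [0x40000, 0x354000000000000000000000000000000000000]],
[
  .mk 41 13 48 [0x40000, 0x1c00000000000000000000000000000000000000]],
[
  .mk 41 13 48 [0x40000, 0xfffffffffffffffffffffffffffffffe0abffffffffffffffffffffffffffffffffffff],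
  .mk 41 13 48 [0x200000, 0xbffff]]]

theorem run : RunAll (runX PT.R (Wk.frw PT.R) nl RvT (SMap.evl cT tlT PT.vx ringF)) P :=
  .cons t0 (.cons t1 (.cons t2 (.cons t3 (.cons t4 (.cons t5 (.nil))))))

end Pool.Agent.Lib.MP_5854e1_co.Cz.Sr401
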