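import Pool.Agent.Lib.MP_5854e1_co.Cz.P
import Pool.Agent.Lib.MP_5854e1_co.Tkx
import Pool.Agent.Lib.MP_5854e1_co.RunAll

/-!
# Search, part 39
-/

set_option autoImplicit false
set_option deprecated.oldSectionVars true
set_option maxRecDepth 100000

namespace Pool.Agent.Lib.MP_5854e1_co.Cz.Sr039

open PB

theorem t0 : runX PT.R (Wk.frw PT.R) nl RvT (SMap.evl cT tlT PT.vx ringF) [
  .mk 0 108 41 [0x80, 0x10000, 0xfd3]] = true := by
  decide +kernel

theorem t1 : runX PT.R (Wk.frw PT.R) nl RvT (SMap.evl cT tlT PT.vx ringF) [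
  .mk 0 108 41 [0x80, 0x10000, 0xffffff02c]] = true := by
  decide +kernel

theorem t2 : runX PT.R (Wk.frw PT.R) nl RvT (SMap.evl cT tlT PT.vx ringF) [
  .mk 0 108 41 [0x200, 0x7b]] = true := by
  decide +kernel

theorem t3 : runX PT.R (Wk.frw PT.R) nl RvT (SMap.evl cT tlT PT.vx ringF) [
  .mk 0 108 41 [0x200, 0x75f8000]] = true := by
  decide +kernel

theorem t4 : runX PT.R (Wk.frw PT.R) nl RvT (SMap.evl cT tlT PT.vx ringF) [
  .mk 0 108 41 [0x200, 0xf8000000]] = true := by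
  decide +kernel

theorem t5 : runX PT.R (Wk.frw PT.R) nl RvT (SMap.evl cT tlT PT.vx ringF) [
  .mk 0 108 41 [0x200, 0xf00a07f80]] = true := by
  decide +kernel

/-- The tasks. -/
noncomputable def P : List (List Tk) := [
[
  .mk 0 108 41 [0x80, 0x10000, 0xfd3]],
[
  .mk 0 108 41 [0x80, 0x10000, 0xffffff02c]],
[
  .mk 0 108 41 [0x200, 0x7b]],
[
  .mk 0 108 41 [0x200, 0x75f8000]],
[
  .mk 0 108 41 [0x200, 0xf8000000]],
[
  .mk 0 108 41 [0x200, 0xf00a07f80]]]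

theorem run : RunAll (runX PT.R (Wk.frw PT.R) nl RvT (SMap.evl cT tlT PT.vx ringF)) P :=
  .cons t0 (.cons t1 (.cons t2 (.cons t3 (.cons t4 (.cons t5 (.nil))))))

end Pool.Agent.Lib.MP_5854e1_co.Cz.Sr039

namespace Pool.Agent.Lib.MP_5854e1_co.Cz.Sr064

open PB

theorem t0 : runX PT.R (Wk.frw PT.R) nl RvT (SMap.evl cT tlT PT.vx ringF) [
  .mk 0 118 62 [0x40, 0x28d]] = true := by
  decide +kernel

theorem t1 : runX PT.R (Wk.frw PT.R) nl RvT (SMap.evl cT tlT PT.vx ringF) [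
  .mk 0 118 62 [0x40, 0xffffffd72]] = true := by
  decide +kernel

theorem t2 : runX PT.R (Wk.frw PT.R) nl RvT (SMap.evl cT tlT PT.vx ringF) [
  .mk 0 119 63 [0x1]] = true := by
  decide +kernel

theorem t3 : runX PT.R (Wk.frw PT.R) nl RvT (SMap.evl cT tlT PT.vx ringF) [
  .mk 0 119 63 [0x6]] = true := by
  decide +kernel

theorem t4 : runX PT.R (Wk.frw PT.R) nl RvT (SMap.evl cT tlT PT.vx ringF) [
  .mk 0 119 63 [0x80]] = true := by
  decide +kernel

theorem t5 : runX PT.R (Wk.frw PT.R) nl RvT (SMap.evl cT tlT PT.vx ringF) [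
  .mk 0 119 63 [0x100]] = true := by
  decide +kernel

/-- The tasks. -/
noncomputable def P : List (List Tk) := [
[
  .mk 0 118 62 [0x40, 0x28d]],
[
  .mk 0 118 62 [0x40, 0xffffffd72]],
[
  .mk 0 119 63 [0x1]],
[
  .mk 0 119 63 [0x6]],
[
  .mk 0 119 63 [0x80]],
[
  .mk 0 119 63 [0x100]]]

theorem run : RunAll (runX PT.R (Wk.frw PT.R) nl RvT (SMap.evl cT tlT PT.vx ringF)) P :=
  .cons t0 (.cons t1 (.cons t2 (.cons t3 (.cons t4 (.cons t5 (.nil))))))

end Pool.Agent.Lib.MP_5854e1_co.Cz.Sr064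

namespace Pool.Agent.Lib.MP_5854e1_co.Cz.Sr075

open PB

theorem t0 : runX PT.R (Wk.frw PT.R) nl RvT (SMap.evl cT tlT PT.vx ringF) [
  .mk 0 124 68 [0x8000, 0x800000, 0x1260033]] = true := by
  decide +kernel

theorem t1 : runX PT.R (Wk.frw PT.R) nl RvT (SMap.evl cT tlT PT.vx ringF) [
  .mk 0 124 68 [0x8000, 0x800000, 0x3fed9ffcc],
  .mk 0 125 69 [],
  .mk 0 126 70 [],
  .mk 0 127 71 [],
  .mk 0 128 72 [],
  .mk 0 129 73 [],
  .mk 0 130 74 [],
  .mk 0 131 75 [],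
  .mk 0 132 76 [],
  .mk 0 133 77 [],
  .mk 0 134 78 [],
  .mk 0 135 79 [],
  .mk 0 136 80 [],
  .mk 0 137 81 [],
  .mk 0 138 82 [],
  .mk 0 139 83 [],
  .mk 0 140 84 [0x1affff]] = true := by
  decide +kernel

theorem t2 : runX PT.R (Wk.frw PT.R) nl RvT (SMap.evl cT tlT PT.vx ringF) [
  .mk 0 140 84 [0x10000, 0x5]] = true := by
  decide +kernel

theorem t3 : runX PT.R (Wk.frw PT.R) nl RvT (SMap.evl cT tlT PT.vx ringF) [
  .mk 0 140 84 [0x10000, 0x178]] = true := by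
  decide +kernel

theorem t4 : runX PT.R (Wk.frw PT.R) nl RvT (SMap.evl cT tlT PT.vx ringF) [
  .mk 0 140 84 [0x10000, 0xe00]] = true := by
  decide +kernel

/-- The tasks. -/
noncomputable def P : List (List Tk) := [
[
  .mk 0 124 68 [0x8000, 0x800000, 0x1260033]],
[
  .mk 0 124 68 [0x8000, 0x800000, 0x3fed9ffcc],
  .mk 0 125 69 [],
  .mk 0 126 70 [],
  .mk 0 127 71 [],
  .mk 0 128 72 [],
  .mk 0 129 73 [],
  .mk 0 130 74 [],
  .mk 0 131 75 [],
  .mk 0 132 76 [],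
  .mk 0 133 77 [],
  .mk 0 134 78 [],
  .mk 0 135 79 [],
  .mk 0 136 80 [],
  .mk 0 137 81 [],
  .mk 0 138 82 [],
  .mk 0 139 83 [],
  .mk 0 140 84 [0x1affff]],
[
  .mk 0 140 84 [0x10000, 0x5]],
[
  .mk 0 140 84 [0x10000, 0x178]],
[
  .mk 0 140 84 [0x10000, 0xe00]]]

theorem run : RunAll (runX PT.R (Wk.frw PT.R) nl RvT (SMap.evl cT tlT PT.vx ringF)) P :=
  .cons t0 (.cons t1 (.cons t2 (.cons t3 (.cons t4 (.nil)))))

end Pool.Agent.Lib.MP_5854e1_co.Cz.Sr075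

namespace Pool.Agent.Lib.MP_5854e1_co.Cz.Sr094

open PB

theorem t0 : runX PT.R (Wk.frw PT.R) nl RvT (SMap.evl cT tlT PT.vx ringF) [
  .mk 0 306 0 [0x400000000000000000000000000000000000000000, 0x60ffe02],
  .mk 0 307 1 [],
  .mk 0 308 7 [],
  .mk 0 309 15 [],
  .mk 0 310 20 [0x20]] = true := by
  decide +kernel

theorem t1 : runX PT.R (Wk.frw PT.R) nl RvT (SMap.evl cT tlT PT.vx ringF) [
  .mk 0 310 20 [0x1000]] = true := by
  decide +kernel

theorem t2 : runX PT.R (Wk.frw PT.R) nl RvT (SMap.evl cT tlT PT.vx ringF) [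
  .mk 0 310 20 [0xffffffffffffffffffffffffffffffffffffffffffffffffffffffffffffffffff7efdf]] = true := by
  decide +kernel

theorem t3 : runX PT.R (Wk.frw PT.R) nl RvT (SMap.evl cT tlT PT.vx ringF) [
  .mk 0 310 20 [0x80000, 0x1ee006f]] = true := by
  decide +kernel

theorem t4 : runX PT.R (Wk.frw PT.R) nl RvT (SMap.evl cT tlT PT.vx ringF) [
  .mk 0 310 20 [0x80000, 0xe11ff90],
  .mk 0 311 28 [],
  .mk 0 326 0 [],
  .mk 0 327 1 [],
  .mk 0 328 7 [],
  .mk 0 329 15 [],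
  .mk 0 330 20 [],
  .mk 0 331 28 []] = true := by
  decide +kernel

theorem t5 : runX PT.R (Wk.frw PT.R) nl RvT (SMap.evl cT tlT PT.vx ringF) [
  .mk 0 332 0 [0x300000000000000000280004000000000000000000000]] = true := by
  decide +kernel

/-- The tasks. -/
noncomputable def P : List (List Tk) := [
[
  .mk 0 306 0 [0x400000000000000000000000000000000000000000, 0x60ffe02],
  .mk 0 307 1 [],
  .mk 0 308 7 [],
  .mk 0 309 15 [],
  .mk 0 310 20 [0x20]],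
[
  .mk 0 310 20 [0x1000]],
[
  .mk 0 310 20 [0xffffffffffffffffffffffffffffffffffffffffffffffffffffffffffffffffff7efdf]],
[
  .mk 0 310 20 [0x80000, 0x1ee006f]],
[
  .mk 0 310 20 [0x80000, 0xe11ff90],
  .mk 0 311 28 [],
  .mk 0 326 0 [],
  .mk 0 327 1 [],
  .mk 0 328 7 [],
  .mk 0 329 15 [],
  .mk 0 330 20 [],
  .mk 0 331 28 []],
[
  .mk 0 332 0 [0x300000000000000000280004000000000000000000000]]]

theorem run : RunAll (runX PT.R (Wk.frw PT.R) nl RvT (SMap.evl cT tlT PT.vx ringF)) P :=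
  .cons t0 (.cons t1 (.cons t2 (.cons t3 (.cons t4 (.cons t5 (.nil))))))

end Pool.Agent.Lib.MP_5854e1_co.Cz.Sr094
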