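import Pool.Agent.Lib.MP_5854e1_co.Cz.P
import Pool.Agent.Lib.MP_5854e1_co.Tkx
import Pool.Agent.Lib.MP_5854e1_co.RunAll

/-!
# Search, part 42
-/

set_option autoImplicit false
set_option deprecated.oldSectionVars true
set_option maxRecDepth 100000

namespace Pool.Agent.Lib.MP_5854e1_co.Cz.Sr042

open PB

theorem t0 : runX PT.R (Wk.frw PT.R) nl RvT (SMap.evl cT tlT PT.vx ringF) [
  .mk 0 108 41 [0x400000000, 0x3ee006f]] = true := by
  decide +kernel

theorem t1 : runX PT.R (Wk.frw PT.R) nl RvT (SMap.evl cT tlT PT.vx ringF) [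
  .mk 0 108 41 [0x400000000, 0xc11ff90],
  .mk 0 109 42 []] = true := by
  decide +kernel

theorem t2 : runX PT.R (Wk.frw PT.R) nl RvT (SMap.evl cT tlT PT.vx ringF) [
  .mk 0 110 43 [0xfe]] = true := by
  decide +kernel

theorem t3 : runX PT.R (Wk.frw PT.R) nl RvT (SMap.evl cT tlT PT.vx ringF) [
  .mk 0 110 43 [0x1700]] = true := by
  decide +kernel

theorem t4 : runX PT.R (Wk.frw PT.R) nl RvT (SMap.evl cT tlT PT.vx ringF) [
  .mk 0 110 43 [0x3e000]] = true := by
  decide +kernel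

theorem t5 : runX PT.R (Wk.frw PT.R) nl RvT (SMap.evl cT tlT PT.vx ringF) [
  .mk 0 110 43 [0xc0000]] = true := by
  decide +kernel

/-- The tasks. -/
noncomputable def P : List (List Tk) := [
[
  .mk 0 108 41 [0x400000000, 0x3ee006f]],
[
  .mk 0 108 41 [0x400000000, 0xc11ff90],
  .mk 0 109 42 []],
[
  .mk 0 110 43 [0xfe]],
[
  .mk 0 110 43 [0x1700]],
[
  .mk 0 110 43 [0x3e000]],
[
  .mk 0 110 43 [0xc0000]]]

theorem run : RunAll (runX PT.R (Wk.frw PT.R) nl RvT (SMap.evl cT tlT PT.vx ringF)) P :=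
  .cons t0 (.cons t1 (.cons t2 (.cons t3 (.cons t4 (.cons t5 (.nil))))))

end Pool.Agent.Lib.MP_5854e1_co.Cz.Sr042

namespace Pool.Agent.Lib.MP_5854e1_co.Cz.Sr482

open PB

theorem t0 : runX PT.R (Wk.frw PT.R) nl RvT (SMap.evl cT tlT PT.vx ringF) [
  .mk 48 9 41 [0x800, 0x200000, 0x3fffffffe]] = true := by
  decide +kernel

theorem t1 : runX PT.R (Wk.frw PT.R) nl RvT (SMap.evl cT tlT PT.vx ringF) [
  .mk 48 9 41 [0x1000, 0x7ffffffbffffff]] = true := by
  decide +kernel

theorem t2 : runX PT.R (Wk.frw PT.R) nl RvT (SMap.evl cT tlT PT.vx ringF) [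
  .mk 48 9 41 [0x1000, 0x4000000, 0x13]] = true := by
  decide +kernel

theorem t3 : runX PT.R (Wk.frw PT.R) nl RvT (SMap.evl cT tlT PT.vx ringF) [
  .mk 48 9 41 [0x1000, 0x4000000, 0x3ffffffec],
  .mk 48 10 42 []] = true := by
  decide +kernel

theorem t4 : runX PT.R (Wk.frw PT.R) nl RvT (SMap.evl cT tlT PT.vx ringF) [
  .mk 48 11 43 [0x7000cf]] = true := by
  decide +kernel

theorem t5 : runX PT.R (Wk.frw PT.R) nl RvT (SMap.evl cT tlT PT.vx ringF) [
  .mk 48 11 43 [0x78fff30]] = true := by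
  decide +kernel

/-- The tasks. -/
noncomputable def P : List (List Tk) := [
[
  .mk 48 9 41 [0x800, 0x200000, 0x3fffffffe]],
[
  .mk 48 9 41 [0x1000, 0x7ffffffbffffff]],
[
  .mk 48 9 41 [0x1000, 0x4000000, 0x13]],
[
  .mk 48 9 41 [0x1000, 0x4000000, 0x3ffffffec],
  .mk 48 10 42 []],
[
  .mk 48 11 43 [0x7000cf]],
[
  .mk 48 11 43 [0x78fff30]]]

theorem run : RunAll (runX PT.R (Wk.frw PT.R) nl RvT (SMap.evl cT tlT PT.vx ringF)) P :=
  .cons t0 (.cons t1 (.cons t2 (.cons t3 (.cons t4 (.cons t5 (.nil))))))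

end Pool.Agent.Lib.MP_5854e1_co.Cz.Sr482

namespace Pool.Agent.Lib.MP_5854e1_co.Cz.Sr571

open PB

theorem t0 : runX PT.R (Wk.frw PT.R) nl RvT (SMap.evl cT tlT PT.vx ringF) [
  .mk 68 15 23 [0x800000, 0x4000000, 0x10010]] = true := by
  decide +kernel

theorem t1 : runX PT.R (Wk.frw PT.R) nl RvT (SMap.evl cT tlT PT.vx ringF) [
  .mk 68 15 23 [0x800000, 0x4000000, 0xffffe7fec]] = true := by
  decide +kernel

theorem t2 : runX PT.R (Wk.frw PT.R) nl RvT (SMap.evl cT tlT PT.vx ringF) [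
  .mk 68 15 23 [0x800000, 0x4000000, 0x1, 0x39000000000000000000000000000000000]] = true := by
  decide +kernel

theorem t3 : runX PT.R (Wk.frw PT.R) nl RvT (SMap.evl cT tlT PT.vx ringF) [
  .mk 68 15 23 [0x800000, 0x4000000, 0x1, 0xfffffffffffffffffffffffffffffffffffffffffffffffffffffffffffffffffffffc6ffffffffffffdffffffffffffffffffff]] = true := by
  decide +kernel

theorem t4 : runX PT.R (Wk.frw PT.R) nl RvT (SMap.evl cT tlT PT.vx ringF) [
  .mk 68 15 23 [0x800000, 0x4000000, 0x1, 0x200000000000000000000, 0xfffffffffffffffffffffffeffffffffffffffffffffffffffffffffffffffffffffffffffffffffffffffffffffffffffffffff],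
  .mk 68 15 23 [0x800000, 0x4000000, 0x1, 0x200000000000000000000, 0x100000000000000000000000000000000000000000000000000000000000000000000000000000000, 0x200000000000000008401]] = true := by
  decide +kernel

/-- The tasks. -/
noncomputable def P : List (List Tk) := [
[
  .mk 68 15 23 [0x800000, 0x4000000, 0x10010]],
[
  .mk 68 15 23 [0x800000, 0x4000000, 0xffffe7fec]],
[
  .mk 68 15 23 [0x800000, 0x4000000, 0x1, 0x39000000000000000000000000000000000]],
[
  .mk 68 15 23 [0x800000, 0x4000000, 0x1, 0xfffffffffffffffffffffffffffffffffffffffffffffffffffffffffffffffffffffc6ffffffffffffdffffffffffffffffffff]],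
[
  .mk 68 15 23 [0x800000, 0x4000000, 0x1, 0x200000000000000000000, 0xfffffffffffffffffffffffeffffffffffffffffffffffffffffffffffffffffffffffffffffffffffffffffffffffffffffffff],
  .mk 68 15 23 [0x800000, 0x4000000, 0x1, 0x200000000000000000000, 0x100000000000000000000000000000000000000000000000000000000000000000000000000000000, 0x200000000000000008401]]]

theorem run : RunAll (runX PT.R (Wk.frw PT.R) nl RvT (SMap.evl cT tlT PT.vx ringF)) P :=
  .cons t0 (.cons t1 (.cons t2 (.cons t3 (.cons t4 (.nil)))))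

end Pool.Agent.Lib.MP_5854e1_co.Cz.Sr571
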