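import Pool.Agent.Lib.MP_5854e1_co.Cz.P
import Pool.Agent.Lib.MP_5854e1_co.Tkx
import Pool.Agent.Lib.MP_5854e1_co.RunAll

/-!
# Search, part 43
-/

set_option autoImplicit false
set_option deprecated.oldSectionVars true
set_option maxRecDepth 100000

namespace Pool.Agent.Lib.MP_5854e1_co.Cz.Sr043

open PB

theorem t0 : runX PT.R (Wk.frw PT.R) nl RvT (SMap.evl cT tlT PT.vx ringF) [
  .mk 0 110 43 [0x1200000]] = true := by
  decide +kernel

theorem t1 : runX PT.R (Wk.frw PT.R) nl RvT (SMap.evl cT tlT PT.vx ringF) [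
  .mk 0 110 43 [0x6000000]] = true := by
  decide +kernel

theorem t2 : runX PT.R (Wk.frw PT.R) nl RvT (SMap.evl cT tlT PT.vx ringF) [
  .mk 0 110 43 [0x1, 0x6000000000000000000000000000000000000fa00000df6000000002000000000000000000000000000000000000000]] = true := by
  decide +kernel

theorem t3 : runX PT.R (Wk.frw PT.R) nl RvT (SMap.evl cT tlT PT.vx ringF) [
  .mk 0 110 43 [0x1, 0xfffffffff9ffffffffffffffffffffffffffffffffffff05fffff209ffffffffdfffffffffffffffffffffffffffffffffffffff]] = true := by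
  decide +kernel

theorem t4 : runX PT.R (Wk.frw PT.R) nl RvT (SMap.evl cT tlT PT.vx ringF) [
  .mk 0 110 43 [0x800, 0x1fd3]] = true := by
  decide +kernel

theorem t5 : runX PT.R (Wk.frw PT.R) nl RvT (SMap.evl cT tlT PT.vx ringF) [
  .mk 0 110 43 [0x800, 0xfffffe02c]] = true := by
  decide +kernel

/-- The tasks. -/
noncomputable def P : List (List Tk) := [
[
  .mk 0 110 43 [0x1200000]],
[
  .mk 0 110 43 [0x6000000]],
[
  .mk 0 110 43 [0x1, 0x6000000000000000000000000000000000000fa00000df6000000002000000000000000000000000000000000000000]],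
[
  .mk 0 110 43 [0x1, 0xfffffffff9ffffffffffffffffffffffffffffffffffff05fffff209ffffffffdfffffffffffffffffffffffffffffffffffffff]],
[
  .mk 0 110 43 [0x800, 0x1fd3]],
[
  .mk 0 110 43 [0x800, 0xfffffe02c]]]

theorem run : RunAll (runX PT.R (Wk.frw PT.R) nl RvT (SMap.evl cT tlT PT.vx ringF)) P :=
  .cons t0 (.cons t1 (.cons t2 (.cons t3 (.cons t4 (.cons t5 (.nil))))))

end Pool.Agent.Lib.MP_5854e1_co.Cz.Sr043

namespace Pool.Agent.Lib.MP_5854e1_co.Cz.Sr055

open PB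

theorem t0 : runX PT.R (Wk.frw PT.R) nl RvT (SMap.evl cT tlT PT.vx ringF) [
  .mk 0 114 47 [0x4000000, 0x200, 0x7fbf]] = true := by
  decide +kernel

theorem t1 : runX PT.R (Wk.frw PT.R) nl RvT (SMap.evl cT tlT PT.vx ringF) [
  .mk 0 114 47 [0x4000000, 0x200, 0xfffff8040],
  .mk 0 114 47 [0x80000000, 0x5a00]] = true := by
  decide +kernel

theorem t2 : runX PT.R (Wk.frw PT.R) nl RvT (SMap.evl cT tlT PT.vx ringF) [
  .mk 0 114 47 [0x80000000, 0x7f85ff]] = true := by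
  decide +kernel

theorem t3 : runX PT.R (Wk.frw PT.R) nl RvT (SMap.evl cT tlT PT.vx ringF) [
  .mk 0 114 47 [0x80000000, 0x2000, 0x393]] = true := by
  decide +kernel

theorem t4 : runX PT.R (Wk.frw PT.R) nl RvT (SMap.evl cT tlT PT.vx ringF) [
  .mk 0 114 47 [0x80000000, 0x2000, 0xffffffc6c]] = true := by
  decide +kernel

theorem t5 : runX PT.R (Wk.frw PT.R) nl RvT (SMap.evl cT tlT PT.vx ringF) [
  .mk 0 114 47 [0x2000000000000, 0x39]] = true := by
  decide +kernel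

/-- The tasks. -/
noncomputable def P : List (List Tk) := [
[
  .mk 0 114 47 [0x4000000, 0x200, 0x7fbf]],
[
  .mk 0 114 47 [0x4000000, 0x200, 0xfffff8040],
  .mk 0 114 47 [0x80000000, 0x5a00]],
[
  .mk 0 114 47 [0x80000000, 0x7f85ff]],
[
  .mk 0 114 47 [0x80000000, 0x2000, 0x393]],
[
  .mk 0 114 47 [0x80000000, 0x2000, 0xffffffc6c]],
[
  .mk 0 114 47 [0x2000000000000, 0x39]]]

theorem run : RunAll (runX PT.R (Wk.frw PT.R) nl RvT (SMap.evl cT tlT PT.vx ringF)) P :=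
  .cons t0 (.cons t1 (.cons t2 (.cons t3 (.cons t4 (.cons t5 (.nil))))))

end Pool.Agent.Lib.MP_5854e1_co.Cz.Sr055

namespace Pool.Agent.Lib.MP_5854e1_co.Cz.Sr164

open PB

theorem t0 : runX PT.R (Wk.frw PT.R) nl RvT (SMap.evl cT tlT PT.vx ringF) [
  .mk 7 252 7 [0x8000]] = true := by
  decide +kernel

theorem t1 : runX PT.R (Wk.frw PT.R) nl RvT (SMap.evl cT tlT PT.vx ringF) [
  .mk 7 252 7 [0xffffffffffffffffffffffffffffffffffffffffffffffffffffffffffffffffff423c2]] = true := by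
  decide +kernel

theorem t2 : runX PT.R (Wk.frw PT.R) nl RvT (SMap.evl cT tlT PT.vx ringF) [
  .mk 7 252 7 [0x4, 0x575]] = true := by
  decide +kernel

theorem t3 : runX PT.R (Wk.frw PT.R) nl RvT (SMap.evl cT tlT PT.vx ringF) [
  .mk 7 252 7 [0x4, 0x7ff08a]] = true := by
  decide +kernel

theorem t4 : runX PT.R (Wk.frw PT.R) nl RvT (SMap.evl cT tlT PT.vx ringF) [
  .mk 7 252 7 [0x4, 0x200, 0x700031]] = true := by
  decide +kernel

/-- The tasks. -/
noncomputable def P : List (List Tk) := [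
[
  .mk 7 252 7 [0x8000]],
[
  .mk 7 252 7 [0xffffffffffffffffffffffffffffffffffffffffffffffffffffffffffffffffff423c2]],
[
  .mk 7 252 7 [0x4, 0x575]],
[
  .mk 7 252 7 [0x4, 0x7ff08a]],
[
  .mk 7 252 7 [0x4, 0x200, 0x700031]]]

theorem run : RunAll (runX PT.R (Wk.frw PT.R) nl RvT (SMap.evl cT tlT PT.vx ringF)) P :=
  .cons t0 (.cons t1 (.cons t2 (.cons t3 (.cons t4 (.nil)))))

end Pool.Agent.Lib.MP_5854e1_co.Cz.Sr164

namespace Pool.Agent.Lib.MP_5854e1_co.Cz.Sr466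

open PB

theorem t0 : runX PT.R (Wk.frw PT.R) nl RvT (SMap.evl cT tlT PT.vx ringF) [
  .mk 45 14 7 [],
  .mk 45 15 15 [],
  .mk 45 16 20 [],
  .mk 45 17 28 [],
  .mk 45 18 0 []] = true := by
  decide +kernel

theorem t1 : runX PT.R (Wk.frw PT.R) nl RvT (SMap.evl cT tlT PT.vx ringF) [
  .mk 45 19 61 [],
  .mk 45 20 62 []] = true := by
  decide +kernel

theorem t2 : runX PT.R (Wk.frw PT.R) nl RvT (SMap.evl cT tlT PT.vx ringF) [
  .mk 45 21 63 [0xe7]] = true := by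
  decide +kernel

theorem t3 : runX PT.R (Wk.frw PT.R) nl RvT (SMap.evl cT tlT PT.vx ringF) [
  .mk 45 21 63 [0x22d00]] = true := by
  decide +kernel

theorem t4 : runX PT.R (Wk.frw PT.R) nl RvT (SMap.evl cT tlT PT.vx ringF) [
  .mk 45 21 63 [0x3fffc0010]] = true := by
  decide +kernel

theorem t5 : runX PT.R (Wk.frw PT.R) nl RvT (SMap.evl cT tlT PT.vx ringF) [
  .mk 45 21 63 [0x8, 0xf0008f]] = true := by
  decide +kernel

theorem t6 : runX PT.R (Wk.frw PT.R) nl RvT (SMap.evl cT tlT PT.vx ringF) [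
  .mk 45 21 63 [0x8, 0x3f0fff70]] = true := by
  decide +kernel

/-- The tasks. -/
noncomputable def P : List (List Tk) := [
[
  .mk 45 14 7 [],
  .mk 45 15 15 [],
  .mk 45 16 20 [],
  .mk 45 17 28 [],
  .mk 45 18 0 []],
[
  .mk 45 19 61 [],
  .mk 45 20 62 []],
[
  .mk 45 21 63 [0xe7]],
[
  .mk 45 21 63 [0x22d00]],
[
  .mk 45 21 63 [0x3fffc0010]],
[
  .mk 45 21 63 [0x8, 0xf0008f]],
[
  .mk 45 21 63 [0x8, 0x3f0fff70]]]

theorem run : RunAll (runX PT.R (Wk.frw PT.R) nl RvT (SMap.evl cT tlT PT.vx ringF)) P :=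
  .cons t0 (.cons t1 (.cons t2 (.cons t3 (.cons t4 (.cons t5 (.cons t6 (.nil)))))))

end Pool.Agent.Lib.MP_5854e1_co.Cz.Sr466
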