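import Pool.Agent.Lib.MP_5854e1_co.Cz.P
import Pool.Agent.Lib.MP_5854e1_co.Tkx
import Pool.Agent.Lib.MP_5854e1_co.RunAll

/-!
# Search, part 44
-/

set_option autoImplicit false
set_option deprecated.oldSectionVars true
set_option maxRecDepth 100000

namespace Pool.Agent.Lib.MP_5854e1_co.Cz.Sr044

open PB

theorem t0 : runX PT.R (Wk.frw PT.R) nl RvT (SMap.evl cT tlT PT.vx ringF) [
  .mk 0 110 43 [0x100000, 0x7e00000000200000000000000000000]] = true := by
  decide +kernel

theorem t1 : runX PT.R (Wk.frw PT.R) nl RvT (SMap.evl cT tlT PT.vx ringF) [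
  .mk 0 110 43 [0x100000, 0x3007f0f8000000000000000000000000000000]] = true := by
  decide +kernel

theorem t2 : runX PT.R (Wk.frw PT.R) nl RvT (SMap.evl cT tlT PT.vx ringF) [
  .mk 0 110 43 [0x100000, 0xffffffffffffffffffffffffffffffffffffffffffffffffffffffffffffffffffcff80f001ffffffffdffffffffffffffffffff]] = true := by
  decide +kernel

theorem t3 : runX PT.R (Wk.frw PT.R) nl RvT (SMap.evl cT tlT PT.vx ringF) [
  .mk 0 110 43 [0x400000, 0x77e8f]] = true := by
  decide +kernel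

theorem t4 : runX PT.R (Wk.frw PT.R) nl RvT (SMap.evl cT tlT PT.vx ringF) [
  .mk 0 110 43 [0x400000, 0x788170],
  .mk 0 110 43 [0x800000, 0x767a7b3]] = true := by
  decide +kernel

theorem t5 : runX PT.R (Wk.frw PT.R) nl RvT (SMap.evl cT tlT PT.vx ringF) [
  .mk 0 110 43 [0x800000, 0x3f898584c]] = true := by
  decide +kernel

/-- The tasks. -/
noncomputable def P : List (List Tk) := [
[
  .mk 0 110 43 [0x100000, 0x7e00000000200000000000000000000]],
[
  .mk 0 110 43 [0x100000, 0x3007f0f8000000000000000000000000000000]],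
[
  .mk 0 110 43 [0x100000, 0xffffffffffffffffffffffffffffffffffffffffffffffffffffffffffffffffffcff80f001ffffffffdffffffffffffffffffff]],
[
  .mk 0 110 43 [0x400000, 0x77e8f]],
[
  .mk 0 110 43 [0x400000, 0x788170],
  .mk 0 110 43 [0x800000, 0x767a7b3]],
[
  .mk 0 110 43 [0x800000, 0x3f898584c]]]

theorem run : RunAll (runX PT.R (Wk.frw PT.R) nl RvT (SMap.evl cT tlT PT.vx ringF)) P :=
  .cons t0 (.cons t1 (.cons t2 (.cons t3 (.cons t4 (.cons t5 (.nil))))))

end Pool.Agent.Lib.MP_5854e1_co.Cz.Sr044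

namespace Pool.Agent.Lib.MP_5854e1_co.Cz.Sr099

open PB

theorem t0 : runX PT.R (Wk.frw PT.R) nl RvT (SMap.evl cT tlT PT.vx ringF) [
  .mk 0 342 28 [0x8000, 0xffffffe]] = true := by
  decide +kernel

theorem t1 : runX PT.R (Wk.frw PT.R) nl RvT (SMap.evl cT tlT PT.vx ringF) [
  .mk 0 342 28 [0x8000, 0x1, 0x1e0fff00f403f07e0000000000000000000000000000000000000000000000000000000000000000000000]] = true := by
  decide +kernel

theorem t2 : runX PT.R (Wk.frw PT.R) nl RvT (SMap.evl cT tlT PT.vx ringF) [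
  .mk 0 342 28 [0x8000, 0x1, 0xffffffffffffffffffe1f000ff0bfc0f81ffffffffffffffffffffffffffffffffffffffffffffffffffffffffffffffffffffff]] = true := by
  decide +kernel

theorem t3 : runX PT.R (Wk.frw PT.R) nl RvT (SMap.evl cT tlT PT.vx ringF) [
  .mk 0 343 0 [],
  .mk 0 344 1 []] = true := by
  decide +kernel

theorem t4 : runX PT.R (Wk.frw PT.R) nl RvT (SMap.evl cT tlT PT.vx ringF) [
  .mk 0 345 2 [],
  .mk 0 346 7 []] = true := by
  decide +kernel

theorem t5 : runX PT.R (Wk.frw PT.R) nl RvT (SMap.evl cT tlT PT.vx ringF) [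
  .mk 0 347 8 [0x654807d]] = true := by
  decide +kernel

theorem t6 : runX PT.R (Wk.frw PT.R) nl RvT (SMap.evl cT tlT PT.vx ringF) [
  .mk 0 347 8 [0xff9ab7f82]] = true := by
  decide +kernel

/-- The tasks. -/
noncomputable def P : List (List Tk) := [
[
  .mk 0 342 28 [0x8000, 0xffffffe]],
[
  .mk 0 342 28 [0x8000, 0x1, 0x1e0fff00f403f07e0000000000000000000000000000000000000000000000000000000000000000000000]],
[
  .mk 0 342 28 [0x8000, 0x1, 0xffffffffffffffffffe1f000ff0bfc0f81ffffffffffffffffffffffffffffffffffffffffffffffffffffffffffffffffffffff]],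
[
  .mk 0 343 0 [],
  .mk 0 344 1 []],
[
  .mk 0 345 2 [],
  .mk 0 346 7 []],
[
  .mk 0 347 8 [0x654807d]],
[
  .mk 0 347 8 [0xff9ab7f82]]]

theorem run : RunAll (runX PT.R (Wk.frw PT.R) nl RvT (SMap.evl cT tlT PT.vx ringF)) P :=
  .cons t0 (.cons t1 (.cons t2 (.cons t3 (.cons t4 (.cons t5 (.cons t6 (.nil)))))))

end Pool.Agent.Lib.MP_5854e1_co.Cz.Sr099

namespace Pool.Agent.Lib.MP_5854e1_co.Cz.Sr561

open PB

theorem t0 : runX PT.R (Wk.frw PT.R) nl RvT (SMap.evl cT tlT PT.vx ringF) [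
  .mk 68 14 22 [0x400, 0x4000, 0x100, 0x1000, 0x1, 0xffffffffffffffffffffffffffffff0f99ffffffffffffffffffffffffffffffffffffffffffffffffffffffffffffffffffffff]] = true := by
  decide +kernel

theorem t1 : runX PT.R (Wk.frw PT.R) nl RvT (SMap.evl cT tlT PT.vx ringF) [
  .mk 68 14 22 [0x100000000, 0x8820000000001d380001001]] = true := by
  decide +kernel

theorem t2 : runX PT.R (Wk.frw PT.R) nl RvT (SMap.evl cT tlT PT.vx ringF) [
  .mk 68 14 22 [0x100000000, 0xfffffffffffffffffffffffffffffffffffffffffffffffffffffffffffffffffffffffffffffffff77dfffffffffe2c7fffeffe]] = true := by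
  decide +kernel

theorem t3 : runX PT.R (Wk.frw PT.R) nl RvT (SMap.evl cT tlT PT.vx ringF) [
  .mk 68 15 23 [0x6cf]] = true := by
  decide +kernel

theorem t4 : runX PT.R (Wk.frw PT.R) nl RvT (SMap.evl cT tlT PT.vx ringF) [
  .mk 68 15 23 [0x29800]] = true := by
  decide +kernel

theorem t5 : runX PT.R (Wk.frw PT.R) nl RvT (SMap.evl cT tlT PT.vx ringF) [
  .mk 68 15 23 [0xc0000]] = true := by
  decide +kernel

theorem t6 : runX PT.R (Wk.frw PT.R) nl RvT (SMap.evl cT tlT PT.vx ringF) [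
  .mk 68 15 23 [0x200000]] = true := by
  decide +kernel

/-- The tasks. -/
noncomputable def P : List (List Tk) := [
[
  .mk 68 14 22 [0x400, 0x4000, 0x100, 0x1000, 0x1, 0xffffffffffffffffffffffffffffff0f99ffffffffffffffffffffffffffffffffffffffffffffffffffffffffffffffffffffff]],
[
  .mk 68 14 22 [0x100000000, 0x8820000000001d380001001]],
[
  .mk 68 14 22 [0x100000000, 0xfffffffffffffffffffffffffffffffffffffffffffffffffffffffffffffffffffffffffffffffff77dfffffffffe2c7fffeffe]],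
[
  .mk 68 15 23 [0x6cf]],
[
  .mk 68 15 23 [0x29800]],
[
  .mk 68 15 23 [0xc0000]],
[
  .mk 68 15 23 [0x200000]]]

theorem run : RunAll (runX PT.R (Wk.frw PT.R) nl RvT (SMap.evl cT tlT PT.vx ringF)) P :=
  .cons t0 (.cons t1 (.cons t2 (.cons t3 (.cons t4 (.cons t5 (.cons t6 (.nil)))))))

end Pool.Agent.Lib.MP_5854e1_co.Cz.Sr561
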