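import Pool.Agent.Lib.MP_5854e1_co.Cz.P
import Pool.Agent.Lib.MP_5854e1_co.Tkx
import Pool.Agent.Lib.MP_5854e1_co.RunAll

/-!
# Search, part 50
-/

set_option autoImplicit false
set_option deprecated.oldSectionVars true
set_option maxRecDepth 100000

namespace Pool.Agent.Lib.MP_5854e1_co.Cz.Sr050

open PB

theorem t0 : runX PT.R (Wk.frw PT.R) nl RvT (SMap.evl cT tlT PT.vx ringF) [
  .mk 0 112 45 [0x18]] = true := by
  decide +kernel

theorem t1 : runX PT.R (Wk.frw PT.R) nl RvT (SMap.evl cT tlT PT.vx ringF) [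
  .mk 0 112 45 [0x7e0]] = true := by
  decide +kernel

theorem t2 : runX PT.R (Wk.frw PT.R) nl RvT (SMap.evl cT tlT PT.vx ringF) [
  .mk 0 112 45 [0x3800]] = true := by
  decide +kernel

theorem t3 : runX PT.R (Wk.frw PT.R) nl RvT (SMap.evl cT tlT PT.vx ringF) [
  .mk 0 112 45 [0x49c000]] = true := by
  decide +kernel

theorem t4 : runX PT.R (Wk.frw PT.R) nl RvT (SMap.evl cT tlT PT.vx ringF) [
  .mk 0 112 45 [0x3ffffff960000]] = true := by
  decide +kernel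

theorem t5 : runX PT.R (Wk.frw PT.R) nl RvT (SMap.evl cT tlT PT.vx ringF) [
  .mk 0 112 45 [0x200000, 0xf6f]] = true := by
  decide +kernel

/-- The tasks. -/
noncomputable def P : List (List Tk) := [
[
  .mk 0 112 45 [0x18]],
[
  .mk 0 112 45 [0x7e0]],
[
  .mk 0 112 45 [0x3800]],
[
  .mk 0 112 45 [0x49c000]],
[
  .mk 0 112 45 [0x3ffffff960000]],
[
  .mk 0 112 45 [0x200000, 0xf6f]]]

theorem run : RunAll (runX PT.R (Wk.frw PT.R) nl RvT (SMap.evl cT tlT PT.vx ringF)) P :=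
  .cons t0 (.cons t1 (.cons t2 (.cons t3 (.cons t4 (.cons t5 (.nil))))))

end Pool.Agent.Lib.MP_5854e1_co.Cz.Sr050

namespace Pool.Agent.Lib.MP_5854e1_co.Cz.Sr105

open PB

theorem t0 : runX PT.R (Wk.frw PT.R) nl RvT (SMap.evl cT tlT PT.vx ringF) [
  .mk 1 138 0 [0x40000000000000000000000, 0x70ffe00],
  .mk 1 139 1 []] = true := by
  decide +kernel

theorem t1 : runX PT.R (Wk.frw PT.R) nl RvT (SMap.evl cT tlT PT.vx ringF) [
  .mk 1 140 7 [0x1020]] = true := by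
  decide +kernel

theorem t2 : runX PT.R (Wk.frw PT.R) nl RvT (SMap.evl cT tlT PT.vx ringF) [
  .mk 1 140 7 [0x4000]] = true := by
  decide +kernel

theorem t3 : runX PT.R (Wk.frw PT.R) nl RvT (SMap.evl cT tlT PT.vx ringF) [
  .mk 1 140 7 [0x28000]] = true := by
  decide +kernel

theorem t4 : runX PT.R (Wk.frw PT.R) nl RvT (SMap.evl cT tlT PT.vx ringF) [
  .mk 1 140 7 [0x2000000000000080000]] = true := by
  decide +kernel

theorem t5 : runX PT.R (Wk.frw PT.R) nl RvT (SMap.evl cT tlT PT.vx ringF) [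
  .mk 1 140 7 [0xffffffffffffffffffffffffffffffffffffffffffffffffffffdfffffffffffff52fdf],
  .mk 1 141 15 [],
  .mk 1 142 20 [],
  .mk 1 143 28 [],
  .mk 1 150 0 [],
  .mk 1 151 1 [],
  .mk 1 152 7 [],
  .mk 1 153 15 [],
  .mk 1 156 0 [],
  .mk 1 157 1 [],
  .mk 1 158 7 [],
  .mk 1 159 15 [],
  .mk 1 162 0 [],
  .mk 1 163 1 [],
  .mk 1 164 7 [],
  .mk 1 165 15 [],
  .mk 1 166 20 [],
  .mk 1 167 28 [],
  .mk 1 174 0 [],
  .mk 1 175 1 [],
  .mk 1 176 7 [],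
  .mk 1 177 15 [],
  .mk 1 178 20 [],
  .mk 1 179 28 []] = true := by
  decide +kernel

/-- The tasks. -/
noncomputable def P : List (List Tk) := [
[
  .mk 1 138 0 [0x40000000000000000000000, 0x70ffe00],
  .mk 1 139 1 []],
[
  .mk 1 140 7 [0x1020]],
[
  .mk 1 140 7 [0x4000]],
[
  .mk 1 140 7 [0x28000]],
[
  .mk 1 140 7 [0x2000000000000080000]],
[
  .mk 1 140 7 [0xffffffffffffffffffffffffffffffffffffffffffffffffffffdfffffffffffff52fdf],
  .mk 1 141 15 [],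
  .mk 1 142 20 [],
  .mk 1 143 28 [],
  .mk 1 150 0 [],
  .mk 1 151 1 [],
  .mk 1 152 7 [],
  .mk 1 153 15 [],
  .mk 1 156 0 [],
  .mk 1 157 1 [],
  .mk 1 158 7 [],
  .mk 1 159 15 [],
  .mk 1 162 0 [],
  .mk 1 163 1 [],
  .mk 1 164 7 [],
  .mk 1 165 15 [],
  .mk 1 166 20 [],
  .mk 1 167 28 [],
  .mk 1 174 0 [],
  .mk 1 175 1 [],
  .mk 1 176 7 [],
  .mk 1 177 15 [],
  .mk 1 178 20 [],
  .mk 1 179 28 []]]

theorem run : RunAll (runX PT.R (Wk.frw PT.R) nl RvT (SMap.evl cT tlT PT.vx ringF)) P :=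
  .cons t0 (.cons t1 (.cons t2 (.cons t3 (.cons t4 (.cons t5 (.nil))))))

end Pool.Agent.Lib.MP_5854e1_co.Cz.Sr105

namespace Pool.Agent.Lib.MP_5854e1_co.Cz.Sr305

open PB

theorem t0 : runX PT.R (Wk.frw PT.R) nl RvT (SMap.evl cT tlT PT.vx ringF) [
  .mk 14 22 11 [0x4000, 0x20, 0x13]] = true := by
  decide +kernel

theorem t1 : runX PT.R (Wk.frw PT.R) nl RvT (SMap.evl cT tlT PT.vx ringF) [
  .mk 14 22 11 [0x4000, 0x20, 0x3ffffffec],
  .mk 14 23 12 [0x43460000]] = true := by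
  decide +kernel

theorem t2 : runX PT.R (Wk.frw PT.R) nl RvT (SMap.evl cT tlT PT.vx ringF) [
  .mk 14 23 12 [0x3b0b9fdff]] = true := by
  decide +kernel

theorem t3 : runX PT.R (Wk.frw PT.R) nl RvT (SMap.evl cT tlT PT.vx ringF) [
  .mk 14 23 12 [0x200, 0x593]] = true := by
  decide +kernel

theorem t4 : runX PT.R (Wk.frw PT.R) nl RvT (SMap.evl cT tlT PT.vx ringF) [
  .mk 14 23 12 [0x200, 0xffffff86c]] = true := by
  decide +kernel

theorem t5 : runX PT.R (Wk.frw PT.R) nl RvT (SMap.evl cT tlT PT.vx ringF) [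
  .mk 14 23 12 [0x200, 0x200, 0x3803f]] = true := by
  decide +kernel

/-- The tasks. -/
noncomputable def P : List (List Tk) := [
[
  .mk 14 22 11 [0x4000, 0x20, 0x13]],
[
  .mk 14 22 11 [0x4000, 0x20, 0x3ffffffec],
  .mk 14 23 12 [0x43460000]],
[
  .mk 14 23 12 [0x3b0b9fdff]],
[
  .mk 14 23 12 [0x200, 0x593]],
[
  .mk 14 23 12 [0x200, 0xffffff86c]],
[
  .mk 14 23 12 [0x200, 0x200, 0x3803f]]]

theorem run : RunAll (runX PT.R (Wk.frw PT.R) nl RvT (SMap.evl cT tlT PT.vx ringF)) P :=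
  .cons t0 (.cons t1 (.cons t2 (.cons t3 (.cons t4 (.cons t5 (.nil))))))

end Pool.Agent.Lib.MP_5854e1_co.Cz.Sr305
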