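import Pool.Agent.Lib.MP_5854e1_co.Cz.P
import Pool.Agent.Lib.MP_5854e1_co.Tkx
import Pool.Agent.Lib.MP_5854e1_co.RunAll

/-!
# Search, part 52
-/

set_option autoImplicit false
set_option deprecated.oldSectionVars true
set_option maxRecDepth 100000

namespace Pool.Agent.Lib.MP_5854e1_co.Cz.Sr052

open PB

theorem t0 : runX PT.R (Wk.frw PT.R) nl RvT (SMap.evl cT tlT PT.vx ringF) [
  .mk 0 113 46 [0x100000, 0xfe00000000200000000000000000000]] = true := by
  decide +kernel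

theorem t1 : runX PT.R (Wk.frw PT.R) nl RvT (SMap.evl cT tlT PT.vx ringF) [
  .mk 0 113 46 [0x100000, 0xfffffffffffffffffffffffffffffffffffffffffffffffffffffffffffffffffffffffff01ffffffffdffffffffffffffffffff]] = true := by
  decide +kernel

theorem t2 : runX PT.R (Wk.frw PT.R) nl RvT (SMap.evl cT tlT PT.vx ringF) [
  .mk 0 113 46 [0x200000, 0x3c08800000000000000000527f469f7ff4000000000000000000000000000000]] = true := by
  decide +kernel

theorem t3 : runX PT.R (Wk.frw PT.R) nl RvT (SMap.evl cT tlT PT.vx ringF) [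
  .mk 0 113 46 [0x200000, 0xfffffffc3f77fffffffffffffffffad80b960800bffffffffffffffffffffffffffffff]] = true := by
  decide +kernel

theorem t4 : runX PT.R (Wk.frw PT.R) nl RvT (SMap.evl cT tlT PT.vx ringF) [
  .mk 0 113 46 [0x400000, 0xe8f]] = true := by
  decide +kernel

theorem t5 : runX PT.R (Wk.frw PT.R) nl RvT (SMap.evl cT tlT PT.vx ringF) [
  .mk 0 113 46 [0x400000, 0x7000]] = true := by
  decide +kernel

/-- The tasks. -/
noncomputable def P : List (List Tk) := [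
[
  .mk 0 113 46 [0x100000, 0xfe00000000200000000000000000000]],
[
  .mk 0 113 46 [0x100000, 0xfffffffffffffffffffffffffffffffffffffffffffffffffffffffffffffffffffffffff01ffffffffdffffffffffffffffffff]],
[
  .mk 0 113 46 [0x200000, 0x3c08800000000000000000527f469f7ff4000000000000000000000000000000]],
[
  .mk 0 113 46 [0x200000, 0xfffffffc3f77fffffffffffffffffad80b960800bffffffffffffffffffffffffffffff]],
[
  .mk 0 113 46 [0x400000, 0xe8f]],
[
  .mk 0 113 46 [0x400000, 0x7000]]]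

theorem run : RunAll (runX PT.R (Wk.frw PT.R) nl RvT (SMap.evl cT tlT PT.vx ringF)) P :=
  .cons t0 (.cons t1 (.cons t2 (.cons t3 (.cons t4 (.cons t5 (.nil))))))

end Pool.Agent.Lib.MP_5854e1_co.Cz.Sr052

namespace Pool.Agent.Lib.MP_5854e1_co.Cz.Sr287

open PB

theorem t0 : runX PT.R (Wk.frw PT.R) nl RvT (SMap.evl cT tlT PT.vx ringF) [
  .mk 12 26 52 [0x800, 0x3ffffff7fffff]] = true := by
  decide +kernel

theorem t1 : runX PT.R (Wk.frw PT.R) nl RvT (SMap.evl cT tlT PT.vx ringF) [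
  .mk 12 26 52 [0x800, 0x800000, 0x3a793]] = true := by
  decide +kernel

theorem t2 : runX PT.R (Wk.frw PT.R) nl RvT (SMap.evl cT tlT PT.vx ringF) [
  .mk 12 26 52 [0x800, 0x800000, 0x3fffc586c],
  .mk 12 26 52 [0x1000, 0x7ffffffeffffff]] = true := by
  decide +kernel

theorem t3 : runX PT.R (Wk.frw PT.R) nl RvT (SMap.evl cT tlT PT.vx ringF) [
  .mk 12 26 52 [0x1000, 0x1000000, 0x3]] = true := by
  decide +kernel

theorem t4 : runX PT.R (Wk.frw PT.R) nl RvT (SMap.evl cT tlT PT.vx ringF) [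
  .mk 12 26 52 [0x1000, 0x1000000, 0x3fffffffc]] = true := by
  decide +kernel

theorem t5 : runX PT.R (Wk.frw PT.R) nl RvT (SMap.evl cT tlT PT.vx ringF) [
  .mk 12 26 52 [0x2000, 0x3a593]] = true := by
  decide +kernel

/-- The tasks. -/
noncomputable def P : List (List Tk) := [
[
  .mk 12 26 52 [0x800, 0x3ffffff7fffff]],
[
  .mk 12 26 52 [0x800, 0x800000, 0x3a793]],
[
  .mk 12 26 52 [0x800, 0x800000, 0x3fffc586c],
  .mk 12 26 52 [0x1000, 0x7ffffffeffffff]],
[
  .mk 12 26 52 [0x1000, 0x1000000, 0x3]],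
[
  .mk 12 26 52 [0x1000, 0x1000000, 0x3fffffffc]],
[
  .mk 12 26 52 [0x2000, 0x3a593]]]

theorem run : RunAll (runX PT.R (Wk.frw PT.R) nl RvT (SMap.evl cT tlT PT.vx ringF)) P :=
  .cons t0 (.cons t1 (.cons t2 (.cons t3 (.cons t4 (.cons t5 (.nil))))))

end Pool.Agent.Lib.MP_5854e1_co.Cz.Sr287

namespace Pool.Agent.Lib.MP_5854e1_co.Cz.Sr354

open PB

theorem t0 : runX PT.R (Wk.frw PT.R) nl RvT (SMap.evl cT tlT PT.vx ringF) [
  .mk 40 0 0 [],
  .mk 40 1 1 [],
  .mk 40 2 4 [],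
  .mk 40 3 5 [],
  .mk 40 4 33 [],
  .mk 40 5 34 [],
  .mk 40 6 35 [],
  .mk 40 7 36 []] = true := by
  decide +kernel

theorem t1 : runX PT.R (Wk.frw PT.R) nl RvT (SMap.evl cT tlT PT.vx ringF) [
  .mk 40 8 37 [0x1e8d]] = true := by
  decide +kernel

theorem t2 : runX PT.R (Wk.frw PT.R) nl RvT (SMap.evl cT tlT PT.vx ringF) [
  .mk 40 8 37 [0xfffffe172],
  .mk 40 9 38 [],
  .mk 40 10 0 [],
  .mk 40 11 1 [],
  .mk 40 12 4 [],
  .mk 40 13 6 [],
  .mk 40 14 33 [],
  .mk 40 15 34 [],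
  .mk 40 16 35 [],
  .mk 40 17 36 [],
  .mk 40 18 37 []] = true := by
  decide +kernel

theorem t3 : runX PT.R (Wk.frw PT.R) nl RvT (SMap.evl cT tlT PT.vx ringF) [
  .mk 40 19 38 []] = true := by
  decide +kernel

theorem t4 : runX PT.R (Wk.frw PT.R) nl RvT (SMap.evl cT tlT PT.vx ringF) [
  .mk 41 0 0 [0x100000000000000000000000000000000000000000000000000013000000000000000000000000000000]] = true := by
  decide +kernel

theorem t5 : runX PT.R (Wk.frw PT.R) nl RvT (SMap.evl cT tlT PT.vx ringF) [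
  .mk 41 0 0 [0x600681e00000000000000000000000000000000000000000000000000000000000000000000000000000000000]] = true := by
  decide +kernel

/-- The tasks. -/
noncomputable def P : List (List Tk) := [
[
  .mk 40 0 0 [],
  .mk 40 1 1 [],
  .mk 40 2 4 [],
  .mk 40 3 5 [],
  .mk 40 4 33 [],
  .mk 40 5 34 [],
  .mk 40 6 35 [],
  .mk 40 7 36 []],
[
  .mk 40 8 37 [0x1e8d]],
[
  .mk 40 8 37 [0xfffffe172],
  .mk 40 9 38 [],
  .mk 40 10 0 [],
  .mk 40 11 1 [],
  .mk 40 12 4 [],
  .mk 40 13 6 [],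
  .mk 40 14 33 [],
  .mk 40 15 34 [],
  .mk 40 16 35 [],
  .mk 40 17 36 [],
  .mk 40 18 37 []],
[
  .mk 40 19 38 []],
[
  .mk 41 0 0 [0x100000000000000000000000000000000000000000000000000013000000000000000000000000000000]],
[
  .mk 41 0 0 [0x600681e00000000000000000000000000000000000000000000000000000000000000000000000000000000000]]]

theorem run : RunAll (runX PT.R (Wk.frw PT.R) nl RvT (SMap.evl cT tlT PT.vx ringF)) P :=
  .cons t0 (.cons t1 (.cons t2 (.cons t3 (.cons t4 (.cons t5 (.nil))))))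

end Pool.Agent.Lib.MP_5854e1_co.Cz.Sr354
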