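import Pool.Agent.Lib.MP_5854e1_co.Cz.P
import Pool.Agent.Lib.MP_5854e1_co.Tkx
import Pool.Agent.Lib.MP_5854e1_co.RunAll

/-!
# Search, part 53
-/

set_option autoImplicit false
set_option deprecated.oldSectionVars true
set_option maxRecDepth 100000

namespace Pool.Agent.Lib.MP_5854e1_co.Cz.Sr053

open PB

theorem t0 : runX PT.R (Wk.frw PT.R) nl RvT (SMap.evl cT tlT PT.vx ringF) [
  .mk 0 113 46 [0x400000, 0x7d8170]] = true := by
  decide +kernel

theorem t1 : runX PT.R (Wk.frw PT.R) nl RvT (SMap.evl cT tlT PT.vx ringF) [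
  .mk 0 113 46 [0x400000, 0x20000, 0x18013]] = true := by
  decide +kernel

theorem t2 : runX PT.R (Wk.frw PT.R) nl RvT (SMap.evl cT tlT PT.vx ringF) [
  .mk 0 113 46 [0x400000, 0x20000, 0xffffe7fec],
  .mk 0 113 46 [0x800000, 0x367a7b3]] = true := by
  decide +kernel

theorem t3 : runX PT.R (Wk.frw PT.R) nl RvT (SMap.evl cT tlT PT.vx ringF) [
  .mk 0 113 46 [0x800000, 0x4c000000]] = true := by
  decide +kernel

theorem t4 : runX PT.R (Wk.frw PT.R) nl RvT (SMap.evl cT tlT PT.vx ringF) [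
  .mk 0 113 46 [0x800000, 0x3b098584c]] = true := by
  decide +kernel

theorem t5 : runX PT.R (Wk.frw PT.R) nl RvT (SMap.evl cT tlT PT.vx ringF) [
  .mk 0 114 47 [0x5da5ff]] = true := by
  decide +kernel

/-- The tasks. -/
noncomputable def P : List (List Tk) := [
[
  .mk 0 113 46 [0x400000, 0x7d8170]],
[
  .mk 0 113 46 [0x400000, 0x20000, 0x18013]],
[
  .mk 0 113 46 [0x400000, 0x20000, 0xffffe7fec],
  .mk 0 113 46 [0x800000, 0x367a7b3]],
[
  .mk 0 113 46 [0x800000, 0x4c000000]],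
[
  .mk 0 113 46 [0x800000, 0x3b098584c]],
[
  .mk 0 114 47 [0x5da5ff]]]

theorem run : RunAll (runX PT.R (Wk.frw PT.R) nl RvT (SMap.evl cT tlT PT.vx ringF)) P :=
  .cons t0 (.cons t1 (.cons t2 (.cons t3 (.cons t4 (.cons t5 (.nil))))))

end Pool.Agent.Lib.MP_5854e1_co.Cz.Sr053

namespace Pool.Agent.Lib.MP_5854e1_co.Cz.Sr369

open PB

theorem t0 : runX PT.R (Wk.frw PT.R) nl RvT (SMap.evl cT tlT PT.vx ringF) [
  .mk 41 2 11 [0x8000, 0x4f]] = true := by
  decide +kernel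

theorem t1 : runX PT.R (Wk.frw PT.R) nl RvT (SMap.evl cT tlT PT.vx ringF) [
  .mk 41 2 11 [0x8000, 0x76fffb0]] = true := by
  decide +kernel

theorem t2 : runX PT.R (Wk.frw PT.R) nl RvT (SMap.evl cT tlT PT.vx ringF) [
  .mk 41 2 11 [0x8000, 0x100000, 0x3fe000000002000000000000000000000000000000000000000]] = true := by
  decide +kernel

theorem t3 : runX PT.R (Wk.frw PT.R) nl RvT (SMap.evl cT tlT PT.vx ringF) [
  .mk 41 2 11 [0x8000, 0x100000, 0xfffffffffffffffffffffffffffffffffffffffffffffffffffffc01ffffffffdfffffffffffffffffffffffffffffffffffffff]] = true := by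
  decide +kernel

theorem t4 : runX PT.R (Wk.frw PT.R) nl RvT (SMap.evl cT tlT PT.vx ringF) [
  .mk 41 2 11 [0x8000, 0x800000, 0x20013]] = true := by
  decide +kernel

theorem t5 : runX PT.R (Wk.frw PT.R) nl RvT (SMap.evl cT tlT PT.vx ringF) [
  .mk 41 2 11 [0x8000, 0x800000, 0x3fffdffec],
  .mk 41 2 11 [0x20000, 0xffffffdff]] = true := by
  decide +kernel

/-- The tasks. -/
noncomputable def P : List (List Tk) := [
[
  .mk 41 2 11 [0x8000, 0x4f]],
[
  .mk 41 2 11 [0x8000, 0x76fffb0]],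
[
  .mk 41 2 11 [0x8000, 0x100000, 0x3fe000000002000000000000000000000000000000000000000]],
[
  .mk 41 2 11 [0x8000, 0x100000, 0xfffffffffffffffffffffffffffffffffffffffffffffffffffffc01ffffffffdfffffffffffffffffffffffffffffffffffffff]],
[
  .mk 41 2 11 [0x8000, 0x800000, 0x20013]],
[
  .mk 41 2 11 [0x8000, 0x800000, 0x3fffdffec],
  .mk 41 2 11 [0x20000, 0xffffffdff]]]

theorem run : RunAll (runX PT.R (Wk.frw PT.R) nl RvT (SMap.evl cT tlT PT.vx ringF)) P :=
  .cons t0 (.cons t1 (.cons t2 (.cons t3 (.cons t4 (.cons t5 (.nil))))))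

end Pool.Agent.Lib.MP_5854e1_co.Cz.Sr369

namespace Pool.Agent.Lib.MP_5854e1_co.Cz.Sr464

open PB

theorem t0 : runX PT.R (Wk.frw PT.R) nl RvT (SMap.evl cT tlT PT.vx ringF) [
  .mk 44 18 82 [],
  .mk 44 19 92 []] = true := by
  decide +kernel

theorem t1 : runX PT.R (Wk.frw PT.R) nl RvT (SMap.evl cT tlT PT.vx ringF) [
  .mk 44 20 93 []] = true := by
  decide +kernel

theorem t2 : runX PT.R (Wk.frw PT.R) nl RvT (SMap.evl cT tlT PT.vx ringF) [
  .mk 44 21 94 []] = true := by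
  decide +kernel

theorem t3 : runX PT.R (Wk.frw PT.R) nl RvT (SMap.evl cT tlT PT.vx ringF) [
  .mk 44 22 95 [0x7f7ff]] = true := by
  decide +kernel

theorem t4 : runX PT.R (Wk.frw PT.R) nl RvT (SMap.evl cT tlT PT.vx ringF) [
  .mk 44 22 95 [0x800, 0x193]] = true := by
  decide +kernel

theorem t5 : runX PT.R (Wk.frw PT.R) nl RvT (SMap.evl cT tlT PT.vx ringF) [
  .mk 44 22 95 [0x800, 0x200]] = true := by
  decide +kernel

/-- The tasks. -/
noncomputable def P : List (List Tk) := [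
[
  .mk 44 18 82 [],
  .mk 44 19 92 []],
[
  .mk 44 20 93 []],
[
  .mk 44 21 94 []],
[
  .mk 44 22 95 [0x7f7ff]],
[
  .mk 44 22 95 [0x800, 0x193]],
[
  .mk 44 22 95 [0x800, 0x200]]]

theorem run : RunAll (runX PT.R (Wk.frw PT.R) nl RvT (SMap.evl cT tlT PT.vx ringF)) P :=
  .cons t0 (.cons t1 (.cons t2 (.cons t3 (.cons t4 (.cons t5 (.nil))))))

end Pool.Agent.Lib.MP_5854e1_co.Cz.Sr464
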