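import Pool.Agent.Lib.MP_5854e1_co.Cz.P
import Pool.Agent.Lib.MP_5854e1_co.Tkx
import Pool.Agent.Lib.MP_5854e1_co.RunAll

/-!
# Search, part 54
-/

set_option autoImplicit false
set_option deprecated.oldSectionVars true
set_option maxRecDepth 100000

namespace Pool.Agent.Lib.MP_5854e1_co.Cz.Sr054

open PB

theorem t0 : runX PT.R (Wk.frw PT.R) nl RvT (SMap.evl cT tlT PT.vx ringF) [
  .mk 0 114 47 [0x4000000000000]] = true := by
  decide +kernel

theorem t1 : runX PT.R (Wk.frw PT.R) nl RvT (SMap.evl cT tlT PT.vx ringF) [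
  .mk 0 114 47 [0x79ffff7ba25a00],
  .mk 0 114 47 [0x4000000, 0x7]] = true := by
  decide +kernel

theorem t2 : runX PT.R (Wk.frw PT.R) nl RvT (SMap.evl cT tlT PT.vx ringF) [
  .mk 0 114 47 [0x4000000, 0x5c8]] = true := by
  decide +kernel

theorem t3 : runX PT.R (Wk.frw PT.R) nl RvT (SMap.evl cT tlT PT.vx ringF) [
  .mk 0 114 47 [0x4000000, 0x1800]] = true := by
  decide +kernel

theorem t4 : runX PT.R (Wk.frw PT.R) nl RvT (SMap.evl cT tlT PT.vx ringF) [
  .mk 0 114 47 [0x4000000, 0x2000]] = true := by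
  decide +kernel

theorem t5 : runX PT.R (Wk.frw PT.R) nl RvT (SMap.evl cT tlT PT.vx ringF) [
  .mk 0 114 47 [0x4000000, 0x3ffffc030]] = true := by
  decide +kernel

/-- The tasks. -/
noncomputable def P : List (List Tk) := [
[
  .mk 0 114 47 [0x4000000000000]],
[
  .mk 0 114 47 [0x79ffff7ba25a00],
  .mk 0 114 47 [0x4000000, 0x7]],
[
  .mk 0 114 47 [0x4000000, 0x5c8]],
[
  .mk 0 114 47 [0x4000000, 0x1800]],
[
  .mk 0 114 47 [0x4000000, 0x2000]],
[
  .mk 0 114 47 [0x4000000, 0x3ffffc030]]]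

theorem run : RunAll (runX PT.R (Wk.frw PT.R) nl RvT (SMap.evl cT tlT PT.vx ringF)) P :=
  .cons t0 (.cons t1 (.cons t2 (.cons t3 (.cons t4 (.cons t5 (.nil))))))

end Pool.Agent.Lib.MP_5854e1_co.Cz.Sr054

namespace Pool.Agent.Lib.MP_5854e1_co.Cz.Sr462

open PB

theorem t0 : runX PT.R (Wk.frw PT.R) nl RvT (SMap.evl cT tlT PT.vx ringF) [
  .mk 44 8 68 [0x1000, 0x1, 0xffffffffffffffffffc1f000ff03fc0f81ffffffffffffffffffffffffffffffffffffffffffffffffffffffffffffffffffffff],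
  .mk 44 8 68 [0x1000, 0x200000000000, 0x1ffedf]] = true := by
  decide +kernel

theorem t1 : runX PT.R (Wk.frw PT.R) nl RvT (SMap.evl cT tlT PT.vx ringF) [
  .mk 44 8 68 [0x1000, 0x200000000000, 0x20, 0x1c008082000000000000000000000000000000000000100]] = true := by
  decide +kernel

theorem t2 : runX PT.R (Wk.frw PT.R) nl RvT (SMap.evl cT tlT PT.vx ringF) [
  .mk 44 8 68 [0x1000, 0x200000000000, 0x20, 0xfffffffffffffffffffffffffffffffffffffffffffffffffffffffffe3ff7f7dffffffffffffffffffffffffffffffffffffeff]] = true := by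
  decide +kernel

theorem t3 : runX PT.R (Wk.frw PT.R) nl RvT (SMap.evl cT tlT PT.vx ringF) [
  .mk 44 8 68 [0x1000, 0x200000000000, 0x100, 0x1f]] = true := by
  decide +kernel

theorem t4 : runX PT.R (Wk.frw PT.R) nl RvT (SMap.evl cT tlT PT.vx ringF) [
  .mk 44 8 68 [0x1000, 0x200000000000, 0x100, 0xfffffffe0],
  .mk 44 8 68 [0x1000, 0x400000000000, 0x7f7ff]] = true := by
  decide +kernel

theorem t5 : runX PT.R (Wk.frw PT.R) nl RvT (SMap.evl cT tlT PT.vx ringF) [
  .mk 44 8 68 [0x1000, 0x400000000000, 0x800, 0x3]] = true := by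
  decide +kernel

/-- The tasks. -/
noncomputable def P : List (List Tk) := [
[
  .mk 44 8 68 [0x1000, 0x1, 0xffffffffffffffffffc1f000ff03fc0f81ffffffffffffffffffffffffffffffffffffffffffffffffffffffffffffffffffffff],
  .mk 44 8 68 [0x1000, 0x200000000000, 0x1ffedf]],
[
  .mk 44 8 68 [0x1000, 0x200000000000, 0x20, 0x1c008082000000000000000000000000000000000000100]],
[
  .mk 44 8 68 [0x1000, 0x200000000000, 0x20, 0xfffffffffffffffffffffffffffffffffffffffffffffffffffffffffe3ff7f7dffffffffffffffffffffffffffffffffffffeff]],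
[
  .mk 44 8 68 [0x1000, 0x200000000000, 0x100, 0x1f]],
[
  .mk 44 8 68 [0x1000, 0x200000000000, 0x100, 0xfffffffe0],
  .mk 44 8 68 [0x1000, 0x400000000000, 0x7f7ff]],
[
  .mk 44 8 68 [0x1000, 0x400000000000, 0x800, 0x3]]]

theorem run : RunAll (runX PT.R (Wk.frw PT.R) nl RvT (SMap.evl cT tlT PT.vx ringF)) P :=
  .cons t0 (.cons t1 (.cons t2 (.cons t3 (.cons t4 (.cons t5 (.nil))))))

end Pool.Agent.Lib.MP_5854e1_co.Cz.Sr462
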