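import Pool.Agent.Lib.MP_5854e1_co.Cz.P
import Pool.Agent.Lib.MP_5854e1_co.Tkx
import Pool.Agent.Lib.MP_5854e1_co.RunAll

/-!
# Search, part 57
-/

set_option autoImplicit false
set_option deprecated.oldSectionVars true
set_option maxRecDepth 100000

namespace Pool.Agent.Lib.MP_5854e1_co.Cz.Sr057

open PB

theorem t0 : runX PT.R (Wk.frw PT.R) nl RvT (SMap.evl cT tlT PT.vx ringF) [
  .mk 0 115 48 [0x4000010]] = true := by
  decide +kernel

theorem t1 : runX PT.R (Wk.frw PT.R) nl RvT (SMap.evl cT tlT PT.vx ringF) [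
  .mk 0 115 48 [0x200, 0x193]] = true := by
  decide +kernel

theorem t2 : runX PT.R (Wk.frw PT.R) nl RvT (SMap.evl cT tlT PT.vx ringF) [
  .mk 0 115 48 [0x200, 0x600]] = true := by
  decide +kernel

theorem t3 : runX PT.R (Wk.frw PT.R) nl RvT (SMap.evl cT tlT PT.vx ringF) [
  .mk 0 115 48 [0x200, 0xffffff86c]] = true := by
  decide +kernel

theorem t4 : runX PT.R (Wk.frw PT.R) nl RvT (SMap.evl cT tlT PT.vx ringF) [
  .mk 0 115 48 [0x20000, 0xfffff000000000002000000000000000000000000000000000000000]] = true := by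
  decide +kernel

theorem t5 : runX PT.R (Wk.frw PT.R) nl RvT (SMap.evl cT tlT PT.vx ringF) [
  .mk 0 115 48 [0x20000, 0x103e0000000000000000000000000000000000000000000000000000000000000000000000000000000000000000000000]] = true := by
  decide +kernel

/-- The tasks. -/
noncomputable def P : List (List Tk) := [
[
  .mk 0 115 48 [0x4000010]],
[
  .mk 0 115 48 [0x200, 0x193]],
[
  .mk 0 115 48 [0x200, 0x600]],
[
  .mk 0 115 48 [0x200, 0xffffff86c]],
[
  .mk 0 115 48 [0x20000, 0xfffff000000000002000000000000000000000000000000000000000]],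
[
  .mk 0 115 48 [0x20000, 0x103e0000000000000000000000000000000000000000000000000000000000000000000000000000000000000000000000]]]

theorem run : RunAll (runX PT.R (Wk.frw PT.R) nl RvT (SMap.evl cT tlT PT.vx ringF)) P :=
  .cons t0 (.cons t1 (.cons t2 (.cons t3 (.cons t4 (.cons t5 (.nil))))))

end Pool.Agent.Lib.MP_5854e1_co.Cz.Sr057

namespace Pool.Agent.Lib.MP_5854e1_co.Cz.Sr101

open PB

theorem t0 : runX PT.R (Wk.frw PT.R) nl RvT (SMap.evl cT tlT PT.vx ringF) [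
  .mk 0 362 22 [0x3fffffffffd80],
  .mk 0 363 28 []] = true := by
  decide +kernel

theorem t1 : runX PT.R (Wk.frw PT.R) nl RvT (SMap.evl cT tlT PT.vx ringF) [
  .mk 0 364 29 [],
  .mk 0 365 0 [],
  .mk 0 366 1 [],
  .mk 0 367 7 [],
  .mk 0 368 15 [],
  .mk 0 369 20 [],
  .mk 0 370 28 [],
  .mk 1 0 0 [],
  .mk 1 1 1 [],
  .mk 1 2 4 [],
  .mk 1 3 5 [],
  .mk 1 4 6 [],
  .mk 1 5 33 [],
  .mk 1 6 34 [],
  .mk 1 7 35 [],
  .mk 1 8 36 [],
  .mk 1 9 37 [0x4]] = true := by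
  decide +kernel

theorem t2 : runX PT.R (Wk.frw PT.R) nl RvT (SMap.evl cT tlT PT.vx ringF) [
  .mk 1 9 37 [0x88]] = true := by
  decide +kernel

theorem t3 : runX PT.R (Wk.frw PT.R) nl RvT (SMap.evl cT tlT PT.vx ringF) [
  .mk 1 9 37 [0xffffff973]] = true := by
  decide +kernel

theorem t4 : runX PT.R (Wk.frw PT.R) nl RvT (SMap.evl cT tlT PT.vx ringF) [
  .mk 1 9 37 [0x200, 0x656806f]] = true := by
  decide +kernel

theorem t5 : runX PT.R (Wk.frw PT.R) nl RvT (SMap.evl cT tlT PT.vx ringF) [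
  .mk 1 9 37 [0x200, 0xff9a97f90]] = true := by
  decide +kernel

/-- The tasks. -/
noncomputable def P : List (List Tk) := [
[
  .mk 0 362 22 [0x3fffffffffd80],
  .mk 0 363 28 []],
[
  .mk 0 364 29 [],
  .mk 0 365 0 [],
  .mk 0 366 1 [],
  .mk 0 367 7 [],
  .mk 0 368 15 [],
  .mk 0 369 20 [],
  .mk 0 370 28 [],
  .mk 1 0 0 [],
  .mk 1 1 1 [],
  .mk 1 2 4 [],
  .mk 1 3 5 [],
  .mk 1 4 6 [],
  .mk 1 5 33 [],
  .mk 1 6 34 [],
  .mk 1 7 35 [],
  .mk 1 8 36 [],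
  .mk 1 9 37 [0x4]],
[
  .mk 1 9 37 [0x88]],
[
  .mk 1 9 37 [0xffffff973]],
[
  .mk 1 9 37 [0x200, 0x656806f]],
[
  .mk 1 9 37 [0x200, 0xff9a97f90]]]

theorem run : RunAll (runX PT.R (Wk.frw PT.R) nl RvT (SMap.evl cT tlT PT.vx ringF)) P :=
  .cons t0 (.cons t1 (.cons t2 (.cons t3 (.cons t4 (.cons t5 (.nil))))))

end Pool.Agent.Lib.MP_5854e1_co.Cz.Sr101
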