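import Pool.Agent.Lib.MP_5854e1_co.Cz.P
import Pool.Agent.Lib.MP_5854e1_co.Tkx
import Pool.Agent.Lib.MP_5854e1_co.RunAll

/-!
# Search, part 59
-/

set_option autoImplicit false
set_option deprecated.oldSectionVars true
set_option maxRecDepth 100000

namespace Pool.Agent.Lib.MP_5854e1_co.Cz.Sr059

open PB

theorem t0 : runX PT.R (Wk.frw PT.R) nl RvT (SMap.evl cT tlT PT.vx ringF) [
  .mk 0 115 48 [0x200000, 0x400, 0xfffffffffffffffffffffffffffffff07fffffffffffffffffffffffffffffffffffffffffffffffffffffffff0001fffffffffe]] = true := by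
  decide +kernel

theorem t1 : runX PT.R (Wk.frw PT.R) nl RvT (SMap.evl cT tlT PT.vx ringF) [
  .mk 0 115 48 [0x200000, 0x40000, 0x6218053]] = true := by
  decide +kernel

theorem t2 : runX PT.R (Wk.frw PT.R) nl RvT (SMap.evl cT tlT PT.vx ringF) [
  .mk 0 115 48 [0x200000, 0x40000, 0xff9de7fac]] = true := by
  decide +kernel

theorem t3 : runX PT.R (Wk.frw PT.R) nl RvT (SMap.evl cT tlT PT.vx ringF) [
  .mk 0 115 48 [0x800000, 0x1803f]] = true := by
  decide +kernel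

theorem t4 : runX PT.R (Wk.frw PT.R) nl RvT (SMap.evl cT tlT PT.vx ringF) [
  .mk 0 115 48 [0x800000, 0xffffe7fc0]] = true := by
  decide +kernel

/-- The tasks. -/
noncomputable def P : List (List Tk) := [
[
  .mk 0 115 48 [0x200000, 0x400, 0xfffffffffffffffffffffffffffffff07fffffffffffffffffffffffffffffffffffffffffffffffffffffffff0001fffffffffe]],
[
  .mk 0 115 48 [0x200000, 0x40000, 0x6218053]],
[
  .mk 0 115 48 [0x200000, 0x40000, 0xff9de7fac]],
[
  .mk 0 115 48 [0x800000, 0x1803f]],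
[
  .mk 0 115 48 [0x800000, 0xffffe7fc0]]]

theorem run : RunAll (runX PT.R (Wk.frw PT.R) nl RvT (SMap.evl cT tlT PT.vx ringF)) P :=
  .cons t0 (.cons t1 (.cons t2 (.cons t3 (.cons t4 (.nil)))))

end Pool.Agent.Lib.MP_5854e1_co.Cz.Sr059

namespace Pool.Agent.Lib.MP_5854e1_co.Cz.Sr302

open PB

theorem t0 : runX PT.R (Wk.frw PT.R) nl RvT (SMap.evl cT tlT PT.vx ringF) [
  .mk 13 11 2 [0x4, 0x1f600]] = true := by
  decide +kernel

theorem t1 : runX PT.R (Wk.frw PT.R) nl RvT (SMap.evl cT tlT PT.vx ringF) [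
  .mk 13 11 2 [0x4, 0x7e09ff]] = true := by
  decide +kernel

theorem t2 : runX PT.R (Wk.frw PT.R) nl RvT (SMap.evl cT tlT PT.vx ringF) [
  .mk 13 11 2 [0x8, 0x3fbffffff]] = true := by
  decide +kernel

theorem t3 : runX PT.R (Wk.frw PT.R) nl RvT (SMap.evl cT tlT PT.vx ringF) [
  .mk 13 11 2 [0x8, 0x4000000, 0xf93]] = true := by
  decide +kernel

theorem t4 : runX PT.R (Wk.frw PT.R) nl RvT (SMap.evl cT tlT PT.vx ringF) [
  .mk 13 11 2 [0x8, 0x4000000, 0xffffff06c]] = true := by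
  decide +kernel

theorem t5 : runX PT.R (Wk.frw PT.R) nl RvT (SMap.evl cT tlT PT.vx ringF) [
  .mk 13 11 2 [0x80, 0x7e401]] = true := by
  decide +kernel

/-- The tasks. -/
noncomputable def P : List (List Tk) := [
[
  .mk 13 11 2 [0x4, 0x1f600]],
[
  .mk 13 11 2 [0x4, 0x7e09ff]],
[
  .mk 13 11 2 [0x8, 0x3fbffffff]],
[
  .mk 13 11 2 [0x8, 0x4000000, 0xf93]],
[
  .mk 13 11 2 [0x8, 0x4000000, 0xffffff06c]],
[
  .mk 13 11 2 [0x80, 0x7e401]]]

theorem run : RunAll (runX PT.R (Wk.frw PT.R) nl RvT (SMap.evl cT tlT PT.vx ringF)) P :=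
  .cons t0 (.cons t1 (.cons t2 (.cons t3 (.cons t4 (.cons t5 (.nil))))))

end Pool.Agent.Lib.MP_5854e1_co.Cz.Sr302

namespace Pool.Agent.Lib.MP_5854e1_co.Cz.Sr313

open PB

theorem t0 : runX PT.R (Wk.frw PT.R) nl RvT (SMap.evl cT tlT PT.vx ringF) [
  .mk 15 15 44 [0x100, 0x1000, 0x1ff000000001]] = true := by
  decide +kernel

theorem t1 : runX PT.R (Wk.frw PT.R) nl RvT (SMap.evl cT tlT PT.vx ringF) [
  .mk 15 15 44 [0x100, 0x1000, 0xfffffffffffffffffffffffffffffffffffffffffffffffffffffffffffe00ffffffffe],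
  .mk 15 16 45 [],
  .mk 15 17 46 [],
  .mk 15 18 47 [],
  .mk 15 19 48 [],
  .mk 15 20 49 [],
  .mk 15 21 61 [],
  .mk 15 22 62 []] = true := by
  decide +kernel

theorem t2 : runX PT.R (Wk.frw PT.R) nl RvT (SMap.evl cT tlT PT.vx ringF) [
  .mk 15 23 63 [0x1]] = true := by
  decide +kernel

theorem t3 : runX PT.R (Wk.frw PT.R) nl RvT (SMap.evl cT tlT PT.vx ringF) [
  .mk 15 23 63 [0x2]] = true := by
  decide +kernel

theorem t4 : runX PT.R (Wk.frw PT.R) nl RvT (SMap.evl cT tlT PT.vx ringF) [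
  .mk 15 23 63 [0x904]] = true := by
  decide +kernel

theorem t5 : runX PT.R (Wk.frw PT.R) nl RvT (SMap.evl cT tlT PT.vx ringF) [
  .mk 15 23 63 [0x1000]] = true := by
  decide +kernel

theorem t6 : runX PT.R (Wk.frw PT.R) nl RvT (SMap.evl cT tlT PT.vx ringF) [
  .mk 15 23 63 [0x2000]] = true := by
  decide +kernel

/-- The tasks. -/
noncomputable def P : List (List Tk) := [
[
  .mk 15 15 44 [0x100, 0x1000, 0x1ff000000001]],
[
  .mk 15 15 44 [0x100, 0x1000, 0xfffffffffffffffffffffffffffffffffffffffffffffffffffffffffffe00ffffffffe],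
  .mk 15 16 45 [],
  .mk 15 17 46 [],
  .mk 15 18 47 [],
  .mk 15 19 48 [],
  .mk 15 20 49 [],
  .mk 15 21 61 [],
  .mk 15 22 62 []],
[
  .mk 15 23 63 [0x1]],
[
  .mk 15 23 63 [0x2]],
[
  .mk 15 23 63 [0x904]],
[
  .mk 15 23 63 [0x1000]],
[
  .mk 15 23 63 [0x2000]]]

theorem run : RunAll (runX PT.R (Wk.frw PT.R) nl RvT (SMap.evl cT tlT PT.vx ringF)) P :=
  .cons t0 (.cons t1 (.cons t2 (.cons t3 (.cons t4 (.cons t5 (.cons t6 (.nil)))))))

end Pool.Agent.Lib.MP_5854e1_co.Cz.Sr313
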