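import Pool.Agent.Lib.MP_5854e1_co.Cz.P
import Pool.Agent.Lib.MP_5854e1_co.Tkx
import Pool.Agent.Lib.MP_5854e1_co.RunAll

/-!
# Search, part 61
-/

set_option autoImplicit false
set_option deprecated.oldSectionVars true
set_option maxRecDepth 100000

namespace Pool.Agent.Lib.MP_5854e1_co.Cz.Sr061

open PB

theorem t0 : runX PT.R (Wk.frw PT.R) nl RvT (SMap.evl cT tlT PT.vx ringF) [
  .mk 0 116 49 [0x4, 0x1e00]] = true := by
  decide +kernel

theorem t1 : runX PT.R (Wk.frw PT.R) nl RvT (SMap.evl cT tlT PT.vx ringF) [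
  .mk 0 116 49 [0x4, 0x1e000]] = true := by
  decide +kernel

theorem t2 : runX PT.R (Wk.frw PT.R) nl RvT (SMap.evl cT tlT PT.vx ringF) [
  .mk 0 116 49 [0x4, 0x7e01ff]] = true := by
  decide +kernel

theorem t3 : runX PT.R (Wk.frw PT.R) nl RvT (SMap.evl cT tlT PT.vx ringF) [
  .mk 0 116 49 [0x200, 0x3814004d]] = true := by
  decide +kernel

theorem t4 : runX PT.R (Wk.frw PT.R) nl RvT (SMap.evl cT tlT PT.vx ringF) [
  .mk 0 116 49 [0x200, 0xfc7ebffb2],
  .mk 0 116 49 [0x1000, 0xffff4f]] = true := by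
  decide +kernel

theorem t5 : runX PT.R (Wk.frw PT.R) nl RvT (SMap.evl cT tlT PT.vx ringF) [
  .mk 0 116 49 [0x1000, 0xf000000]] = true := by
  decide +kernel

/-- The tasks. -/
noncomputable def P : List (List Tk) := [
[
  .mk 0 116 49 [0x4, 0x1e00]],
[
  .mk 0 116 49 [0x4, 0x1e000]],
[
  .mk 0 116 49 [0x4, 0x7e01ff]],
[
  .mk 0 116 49 [0x200, 0x3814004d]],
[
  .mk 0 116 49 [0x200, 0xfc7ebffb2],
  .mk 0 116 49 [0x1000, 0xffff4f]],
[
  .mk 0 116 49 [0x1000, 0xf000000]]]

theorem run : RunAll (runX PT.R (Wk.frw PT.R) nl RvT (SMap.evl cT tlT PT.vx ringF)) P :=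
  .cons t0 (.cons t1 (.cons t2 (.cons t3 (.cons t4 (.cons t5 (.nil))))))

end Pool.Agent.Lib.MP_5854e1_co.Cz.Sr061

namespace Pool.Agent.Lib.MP_5854e1_co.Cz.Sr434

open PB

theorem t0 : runX PT.R (Wk.frw PT.R) nl RvT (SMap.evl cT tlT PT.vx ringF) [
  .mk 42 21 63 [0x1000, 0x400, 0x200, 0xfffffffffffffffffffffffffffffffffffffffffffffffffffffffffffffffffffffffffffffffffffdffffffffffffffff7bfe]] = true := by
  decide +kernel

theorem t1 : runX PT.R (Wk.frw PT.R) nl RvT (SMap.evl cT tlT PT.vx ringF) [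
  .mk 42 21 63 [0x1000, 0x400, 0x1000, 0xffffffffffffffffffffffffffffffffffffffffffffffffffffffffffffffffffffffe]] = true := by
  decide +kernel

theorem t2 : runX PT.R (Wk.frw PT.R) nl RvT (SMap.evl cT tlT PT.vx ringF) [
  .mk 42 21 63 [0x1000, 0x400, 0x1000, 0x1, 0xffffffffbfffffffffffffffffffffffffffffffffffffffffffffffffffffffffffffffffffffffffffffffffffffffffffffff]] = true := by
  decide +kernel

/-- The tasks. -/
noncomputable def P : List (List Tk) := [
[
  .mk 42 21 63 [0x1000, 0x400, 0x200, 0xfffffffffffffffffffffffffffffffffffffffffffffffffffffffffffffffffffffffffffffffffffdffffffffffffffff7bfe]],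
[
  .mk 42 21 63 [0x1000, 0x400, 0x1000, 0xffffffffffffffffffffffffffffffffffffffffffffffffffffffffffffffffffffffe]],
[
  .mk 42 21 63 [0x1000, 0x400, 0x1000, 0x1, 0xffffffffbfffffffffffffffffffffffffffffffffffffffffffffffffffffffffffffffffffffffffffffffffffffffffffffff]]]

theorem run : RunAll (runX PT.R (Wk.frw PT.R) nl RvT (SMap.evl cT tlT PT.vx ringF)) P :=
  .cons t0 (.cons t1 (.cons t2 (.nil)))

end Pool.Agent.Lib.MP_5854e1_co.Cz.Sr434

namespace Pool.Agent.Lib.MP_5854e1_co.Cz.Sr483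

open PB

theorem t0 : runX PT.R (Wk.frw PT.R) nl RvT (SMap.evl cT tlT PT.vx ringF) [
  .mk 48 12 44 [0xff]] = true := by
  decide +kernel

theorem t1 : runX PT.R (Wk.frw PT.R) nl RvT (SMap.evl cT tlT PT.vx ringF) [
  .mk 48 12 44 [0xfffff00],
  .mk 48 13 45 []] = true := by
  decide +kernel

theorem t2 : runX PT.R (Wk.frw PT.R) nl RvT (SMap.evl cT tlT PT.vx ringF) [
  .mk 48 14 46 [],
  .mk 48 15 47 [],
  .mk 48 16 49 []] = true := by
  decide +kernel

theorem t3 : runX PT.R (Wk.frw PT.R) nl RvT (SMap.evl cT tlT PT.vx ringF) [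
  .mk 48 17 0 [0x1c00000000000000000000000000000000000000ffffe000000000002000000000000000000000000000000000000000]] = true := by
  decide +kernel

theorem t4 : runX PT.R (Wk.frw PT.R) nl RvT (SMap.evl cT tlT PT.vx ringF) [
  .mk 48 17 0 [0xc04b0200000000000000000000000000000000000000000000000000000000000000000000000000000000000000000000000]] = true := by
  decide +kernel

/-- The tasks. -/
noncomputable def P : List (List Tk) := [
[
  .mk 48 12 44 [0xff]],
[
  .mk 48 12 44 [0xfffff00],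
  .mk 48 13 45 []],
[
  .mk 48 14 46 [],
  .mk 48 15 47 [],
  .mk 48 16 49 []],
[
  .mk 48 17 0 [0x1c00000000000000000000000000000000000000ffffe000000000002000000000000000000000000000000000000000]],
[
  .mk 48 17 0 [0xc04b0200000000000000000000000000000000000000000000000000000000000000000000000000000000000000000000000]]]

theorem run : RunAll (runX PT.R (Wk.frw PT.R) nl RvT (SMap.evl cT tlT PT.vx ringF)) P :=
  .cons t0 (.cons t1 (.cons t2 (.cons t3 (.cons t4 (.nil)))))

end Pool.Agent.Lib.MP_5854e1_co.Cz.Sr483
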