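import Pool.Agent.Lib.MP_5854e1_co.Cz.P
import Pool.Agent.Lib.MP_5854e1_co.Tkx
import Pool.Agent.Lib.MP_5854e1_co.RunAll

/-!
# Search, part 67
-/

set_option autoImplicit false
set_option deprecated.oldSectionVars true
set_option maxRecDepth 100000

namespace Pool.Agent.Lib.MP_5854e1_co.Cz.Sr067

open PB

theorem t0 : runX PT.R (Wk.frw PT.R) nl RvT (SMap.evl cT tlT PT.vx ringF) [
  .mk 0 119 63 [0x800, 0x3e9ecf]] = true := by
  decide +kernel

theorem t1 : runX PT.R (Wk.frw PT.R) nl RvT (SMap.evl cT tlT PT.vx ringF) [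
  .mk 0 119 63 [0x800, 0x1c00000]] = true := by
  decide +kernel

theorem t2 : runX PT.R (Wk.frw PT.R) nl RvT (SMap.evl cT tlT PT.vx ringF) [
  .mk 0 119 63 [0x800, 0x6016130]] = true := by
  decide +kernel

theorem t3 : runX PT.R (Wk.frw PT.R) nl RvT (SMap.evl cT tlT PT.vx ringF) [
  .mk 0 119 63 [0x1000, 0x1f]] = true := by
  decide +kernel

theorem t4 : runX PT.R (Wk.frw PT.R) nl RvT (SMap.evl cT tlT PT.vx ringF) [
  .mk 0 119 63 [0x1000, 0xffffbe0]] = true := by
  decide +kernel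

theorem t5 : runX PT.R (Wk.frw PT.R) nl RvT (SMap.evl cT tlT PT.vx ringF) [
  .mk 0 119 63 [0x1000, 0x400, 0xe8f]] = true := by
  decide +kernel

/-- The tasks. -/
noncomputable def P : List (List Tk) := [
[
  .mk 0 119 63 [0x800, 0x3e9ecf]],
[
  .mk 0 119 63 [0x800, 0x1c00000]],
[
  .mk 0 119 63 [0x800, 0x6016130]],
[
  .mk 0 119 63 [0x1000, 0x1f]],
[
  .mk 0 119 63 [0x1000, 0xffffbe0]],
[
  .mk 0 119 63 [0x1000, 0x400, 0xe8f]]]

theorem run : RunAll (runX PT.R (Wk.frw PT.R) nl RvT (SMap.evl cT tlT PT.vx ringF)) P :=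
  .cons t0 (.cons t1 (.cons t2 (.cons t3 (.cons t4 (.cons t5 (.nil))))))

end Pool.Agent.Lib.MP_5854e1_co.Cz.Sr067

namespace Pool.Agent.Lib.MP_5854e1_co.Cz.Sr148

open PB

theorem t0 : runX PT.R (Wk.frw PT.R) nl RvT (SMap.evl cT tlT PT.vx ringF) [
  .mk 7 28 68 [0x4000, 0x400, 0x4000, 0x100, 0x200]] = true := by
  decide +kernel

theorem t1 : runX PT.R (Wk.frw PT.R) nl RvT (SMap.evl cT tlT PT.vx ringF) [
  .mk 7 28 68 [0x4000, 0x400, 0x4000, 0x100, 0x11400]] = true := by
  decide +kernel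

theorem t2 : runX PT.R (Wk.frw PT.R) nl RvT (SMap.evl cT tlT PT.vx ringF) [
  .mk 7 28 68 [0x4000, 0x400, 0x4000, 0x100, 0x7ee974]] = true := by
  decide +kernel

theorem t3 : runX PT.R (Wk.frw PT.R) nl RvT (SMap.evl cT tlT PT.vx ringF) [
  .mk 7 28 68 [0x8000, 0xcf]] = true := by
  decide +kernel

theorem t4 : runX PT.R (Wk.frw PT.R) nl RvT (SMap.evl cT tlT PT.vx ringF) [
  .mk 7 28 68 [0x8000, 0x29e00]] = true := by
  decide +kernel

theorem t5 : runX PT.R (Wk.frw PT.R) nl RvT (SMap.evl cT tlT PT.vx ringF) [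
  .mk 7 28 68 [0x8000, 0xd6130]] = true := by
  decide +kernel

/-- The tasks. -/
noncomputable def P : List (List Tk) := [
[
  .mk 7 28 68 [0x4000, 0x400, 0x4000, 0x100, 0x200]],
[
  .mk 7 28 68 [0x4000, 0x400, 0x4000, 0x100, 0x11400]],
[
  .mk 7 28 68 [0x4000, 0x400, 0x4000, 0x100, 0x7ee974]],
[
  .mk 7 28 68 [0x8000, 0xcf]],
[
  .mk 7 28 68 [0x8000, 0x29e00]],
[
  .mk 7 28 68 [0x8000, 0xd6130]]]

theorem run : RunAll (runX PT.R (Wk.frw PT.R) nl RvT (SMap.evl cT tlT PT.vx ringF)) P :=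
  .cons t0 (.cons t1 (.cons t2 (.cons t3 (.cons t4 (.cons t5 (.nil))))))

end Pool.Agent.Lib.MP_5854e1_co.Cz.Sr148

namespace Pool.Agent.Lib.MP_5854e1_co.Cz.Sr243

open PB

theorem t0 : runX PT.R (Wk.frw PT.R) nl RvT (SMap.evl cT tlT PT.vx ringF) [
  .mk 11 13 21 [0x400, 0x800000, 0x1, 0x81e00000000000000000000000000000000000000000000000000000000000000000000000000000000000]] = true := by
  decide +kernel

theorem t1 : runX PT.R (Wk.frw PT.R) nl RvT (SMap.evl cT tlT PT.vx ringF) [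
  .mk 11 13 21 [0x400, 0x800000, 0x1, 0xffffffffffffffdfff7e0ffffffffffffffffffffffffffffffffffffffffffffffffff0fffffffffffdffffffffffffffffffff]] = true := by
  decide +kernel

theorem t2 : runX PT.R (Wk.frw PT.R) nl RvT (SMap.evl cT tlT PT.vx ringF) [
  .mk 11 13 21 [0x400, 0x800000, 0x1, 0x200000000000000000000, 0x20000000000000000000000000000000000000000000000000000000000000000]] = true := by
  decide +kernel

theorem t3 : runX PT.R (Wk.frw PT.R) nl RvT (SMap.evl cT tlT PT.vx ringF) [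
  .mk 11 13 21 [0x400, 0x800000, 0x1, 0x200000000000000000000, 0x37c0000000000000000000000000000000000000000000000000000000000000000]] = true := by
  decide +kernel

theorem t4 : runX PT.R (Wk.frw PT.R) nl RvT (SMap.evl cT tlT PT.vx ringF) [
  .mk 11 13 21 [0x400, 0x800000, 0x1, 0x200000000000000000000, 0xffffffffffffffffffffffffffffffffffffdc01ffffffffffffffffffffffffffffffffffffffffffffffffffffffffffffffff]] = true := by
  decide +kernel

/-- The tasks. -/
noncomputable def P : List (List Tk) := [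
[
  .mk 11 13 21 [0x400, 0x800000, 0x1, 0x81e00000000000000000000000000000000000000000000000000000000000000000000000000000000000]],
[
  .mk 11 13 21 [0x400, 0x800000, 0x1, 0xffffffffffffffdfff7e0ffffffffffffffffffffffffffffffffffffffffffffffffff0fffffffffffdffffffffffffffffffff]],
[
  .mk 11 13 21 [0x400, 0x800000, 0x1, 0x200000000000000000000, 0x20000000000000000000000000000000000000000000000000000000000000000]],
[
  .mk 11 13 21 [0x400, 0x800000, 0x1, 0x200000000000000000000, 0x37c0000000000000000000000000000000000000000000000000000000000000000]],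
[
  .mk 11 13 21 [0x400, 0x800000, 0x1, 0x200000000000000000000, 0xffffffffffffffffffffffffffffffffffffdc01ffffffffffffffffffffffffffffffffffffffffffffffffffffffffffffffff]]]

theorem run : RunAll (runX PT.R (Wk.frw PT.R) nl RvT (SMap.evl cT tlT PT.vx ringF)) P :=
  .cons t0 (.cons t1 (.cons t2 (.cons t3 (.cons t4 (.nil)))))

end Pool.Agent.Lib.MP_5854e1_co.Cz.Sr243
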