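import Pool.Agent.Lib.MP_5854e1_co.Cz.P
import Pool.Agent.Lib.MP_5854e1_co.Tkx
import Pool.Agent.Lib.MP_5854e1_co.RunAll

/-!
# Search, part 68
-/

set_option autoImplicit false
set_option deprecated.oldSectionVars true
set_option maxRecDepth 100000

namespace Pool.Agent.Lib.MP_5854e1_co.Cz.Sr068

open PB

theorem t0 : runX PT.R (Wk.frw PT.R) nl RvT (SMap.evl cT tlT PT.vx ringF) [
  .mk 0 119 63 [0x1000, 0x400, 0x7ff170]] = true := by
  decide +kernel

theorem t1 : runX PT.R (Wk.frw PT.R) nl RvT (SMap.evl cT tlT PT.vx ringF) [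
  .mk 0 119 63 [0x4000, 0x1e9ecf]] = true := by
  decide +kernel

theorem t2 : runX PT.R (Wk.frw PT.R) nl RvT (SMap.evl cT tlT PT.vx ringF) [
  .mk 0 119 63 [0x4000, 0x7e16130]] = true := by
  decide +kernel

theorem t3 : runX PT.R (Wk.frw PT.R) nl RvT (SMap.evl cT tlT PT.vx ringF) [
  .mk 0 119 63 [0x10000, 0x1a8d]] = true := by
  decide +kernel

theorem t4 : runX PT.R (Wk.frw PT.R) nl RvT (SMap.evl cT tlT PT.vx ringF) [
  .mk 0 119 63 [0x10000, 0xfffffe172]] = true := by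
  decide +kernel

theorem t5 : runX PT.R (Wk.frw PT.R) nl RvT (SMap.evl cT tlT PT.vx ringF) [
  .mk 0 119 63 [0x10000, 0x400, 0x3fc0000]] = true := by
  decide +kernel

theorem t6 : runX PT.R (Wk.frw PT.R) nl RvT (SMap.evl cT tlT PT.vx ringF) [
  .mk 0 119 63 [0x10000, 0x400, 0x3fffffc03ffff]] = true := by
  decide +kernel

/-- The tasks. -/
noncomputable def P : List (List Tk) := [
[
  .mk 0 119 63 [0x1000, 0x400, 0x7ff170]],
[
  .mk 0 119 63 [0x4000, 0x1e9ecf]],
[
  .mk 0 119 63 [0x4000, 0x7e16130]],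
[
  .mk 0 119 63 [0x10000, 0x1a8d]],
[
  .mk 0 119 63 [0x10000, 0xfffffe172]],
[
  .mk 0 119 63 [0x10000, 0x400, 0x3fc0000]],
[
  .mk 0 119 63 [0x10000, 0x400, 0x3fffffc03ffff]]]

theorem run : RunAll (runX PT.R (Wk.frw PT.R) nl RvT (SMap.evl cT tlT PT.vx ringF)) P :=
  .cons t0 (.cons t1 (.cons t2 (.cons t3 (.cons t4 (.cons t5 (.cons t6 (.nil)))))))

end Pool.Agent.Lib.MP_5854e1_co.Cz.Sr068

namespace Pool.Agent.Lib.MP_5854e1_co.Cz.Sr085

open PB

theorem t0 : runX PT.R (Wk.frw PT.R) nl RvT (SMap.evl cT tlT PT.vx ringF) [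
  .mk 0 298 0 [0x200000000000000000000, 0x800000000000000000000000000000, 0xf8f]] = true := by
  decide +kernel

theorem t1 : runX PT.R (Wk.frw PT.R) nl RvT (SMap.evl cT tlT PT.vx ringF) [
  .mk 0 298 0 [0x200000000000000000000, 0x800000000000000000000000000000, 0x3fffff070]] = true := by
  decide +kernel

theorem t2 : runX PT.R (Wk.frw PT.R) nl RvT (SMap.evl cT tlT PT.vx ringF) [
  .mk 0 298 0 [0x100000000000000000000000, 0x3de0200]] = true := by
  decide +kernel

theorem t3 : runX PT.R (Wk.frw PT.R) nl RvT (SMap.evl cT tlT PT.vx ringF) [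
  .mk 0 298 0 [0x100000000000000000000000, 0x1c000000]] = true := by
  decide +kernel

theorem t4 : runX PT.R (Wk.frw PT.R) nl RvT (SMap.evl cT tlT PT.vx ringF) [
  .mk 0 298 0 [0x100000000000000000000000, 0x3e021fdff]] = true := by
  decide +kernel

theorem t5 : runX PT.R (Wk.frw PT.R) nl RvT (SMap.evl cT tlT PT.vx ringF) [
  .mk 0 298 0 [0x1000000000000000000000000000, 0x7]] = true := by
  decide +kernel

/-- The tasks. -/
noncomputable def P : List (List Tk) := [
[
  .mk 0 298 0 [0x200000000000000000000, 0x800000000000000000000000000000, 0xf8f]],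
[
  .mk 0 298 0 [0x200000000000000000000, 0x800000000000000000000000000000, 0x3fffff070]],
[
  .mk 0 298 0 [0x100000000000000000000000, 0x3de0200]],
[
  .mk 0 298 0 [0x100000000000000000000000, 0x1c000000]],
[
  .mk 0 298 0 [0x100000000000000000000000, 0x3e021fdff]],
[
  .mk 0 298 0 [0x1000000000000000000000000000, 0x7]]]

theorem run : RunAll (runX PT.R (Wk.frw PT.R) nl RvT (SMap.evl cT tlT PT.vx ringF)) P :=
  .cons t0 (.cons t1 (.cons t2 (.cons t3 (.cons t4 (.cons t5 (.nil))))))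

end Pool.Agent.Lib.MP_5854e1_co.Cz.Sr085

namespace Pool.Agent.Lib.MP_5854e1_co.Cz.Sr178

open PB

theorem t0 : runX PT.R (Wk.frw PT.R) nl RvT (SMap.evl cT tlT PT.vx ringF) [
  .mk 8 0 0 [0x40000010800000000000000000000000000000]] = true := by
  decide +kernel

theorem t1 : runX PT.R (Wk.frw PT.R) nl RvT (SMap.evl cT tlT PT.vx ringF) [
  .mk 8 0 0 [0xffffffffffffffffffffffffffffffffffffffffffffffffffffffffffffffffffbfffffef7fffffffffffffffffffffffffffff],
  .mk 8 1 7 []] = true := by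
  decide +kernel

theorem t2 : runX PT.R (Wk.frw PT.R) nl RvT (SMap.evl cT tlT PT.vx ringF) [
  .mk 8 2 11 [0x7fdfff]] = true := by
  decide +kernel

theorem t3 : runX PT.R (Wk.frw PT.R) nl RvT (SMap.evl cT tlT PT.vx ringF) [
  .mk 8 2 11 [0x2000, 0x393]] = true := by
  decide +kernel

theorem t4 : runX PT.R (Wk.frw PT.R) nl RvT (SMap.evl cT tlT PT.vx ringF) [
  .mk 8 2 11 [0x2000, 0x5c00]] = true := by
  decide +kernel

theorem t5 : runX PT.R (Wk.frw PT.R) nl RvT (SMap.evl cT tlT PT.vx ringF) [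
  .mk 8 2 11 [0x2000, 0xfffffa06c],
  .mk 8 3 12 [0xe0200]] = true := by
  decide +kernel

/-- The tasks. -/
noncomputable def P : List (List Tk) := [
[
  .mk 8 0 0 [0x40000010800000000000000000000000000000]],
[
  .mk 8 0 0 [0xffffffffffffffffffffffffffffffffffffffffffffffffffffffffffffffffffbfffffef7fffffffffffffffffffffffffffff],
  .mk 8 1 7 []],
[
  .mk 8 2 11 [0x7fdfff]],
[
  .mk 8 2 11 [0x2000, 0x393]],
[
  .mk 8 2 11 [0x2000, 0x5c00]],
[
  .mk 8 2 11 [0x2000, 0xfffffa06c],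
  .mk 8 3 12 [0xe0200]]]

theorem run : RunAll (runX PT.R (Wk.frw PT.R) nl RvT (SMap.evl cT tlT PT.vx ringF)) P :=
  .cons t0 (.cons t1 (.cons t2 (.cons t3 (.cons t4 (.cons t5 (.nil))))))

end Pool.Agent.Lib.MP_5854e1_co.Cz.Sr178

namespace Pool.Agent.Lib.MP_5854e1_co.Cz.Sr308

open PB

theorem t0 : runX PT.R (Wk.frw PT.R) nl RvT (SMap.evl cT tlT PT.vx ringF) [
  .mk 15 14 43 [0x200000, 0xfc00800000000000000000107f449a7ba4000000000000000000000000000000]] = true := by
  decide +kernel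

theorem t1 : runX PT.R (Wk.frw PT.R) nl RvT (SMap.evl cT tlT PT.vx ringF) [
  .mk 15 14 43 [0x200000, 0xfffffff03ff7fffffffffffffffffef80bb65845bffffffffffffffffffffffffffffff]] = true := by
  decide +kernel

theorem t2 : runX PT.R (Wk.frw PT.R) nl RvT (SMap.evl cT tlT PT.vx ringF) [
  .mk 15 14 43 [0x400000, 0x1e8f]] = true := by
  decide +kernel

theorem t3 : runX PT.R (Wk.frw PT.R) nl RvT (SMap.evl cT tlT PT.vx ringF) [
  .mk 15 14 43 [0x400000, 0x7fe170]] = true := by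
  decide +kernel

theorem t4 : runX PT.R (Wk.frw PT.R) nl RvT (SMap.evl cT tlT PT.vx ringF) [
  .mk 15 14 43 [0x800000, 0x367a7b3]] = true := by
  decide +kernel

theorem t5 : runX PT.R (Wk.frw PT.R) nl RvT (SMap.evl cT tlT PT.vx ringF) [
  .mk 15 14 43 [0x800000, 0x3fc98584c]] = true := by
  decide +kernel

/-- The tasks. -/
noncomputable def P : List (List Tk) := [
[
  .mk 15 14 43 [0x200000, 0xfc00800000000000000000107f449a7ba4000000000000000000000000000000]],
[
  .mk 15 14 43 [0x200000, 0xfffffff03ff7fffffffffffffffffef80bb65845bffffffffffffffffffffffffffffff]],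
[
  .mk 15 14 43 [0x400000, 0x1e8f]],
[
  .mk 15 14 43 [0x400000, 0x7fe170]],
[
  .mk 15 14 43 [0x800000, 0x367a7b3]],
[
  .mk 15 14 43 [0x800000, 0x3fc98584c]]]

theorem run : RunAll (runX PT.R (Wk.frw PT.R) nl RvT (SMap.evl cT tlT PT.vx ringF)) P :=
  .cons t0 (.cons t1 (.cons t2 (.cons t3 (.cons t4 (.cons t5 (.nil))))))

end Pool.Agent.Lib.MP_5854e1_co.Cz.Sr308
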