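import Pool.Agent.Lib.MP_5854e1_co.Cz.P
import Pool.Agent.Lib.MP_5854e1_co.Tkx
import Pool.Agent.Lib.MP_5854e1_co.RunAll

/-!
# Search, part 69
-/

set_option autoImplicit false
set_option deprecated.oldSectionVars true
set_option maxRecDepth 100000

namespace Pool.Agent.Lib.MP_5854e1_co.Cz.Sr069

open PB

theorem t0 : runX PT.R (Wk.frw PT.R) nl RvT (SMap.evl cT tlT PT.vx ringF) [
  .mk 0 120 64 [0x3ffffefff]] = true := by
  decide +kernel

theorem t1 : runX PT.R (Wk.frw PT.R) nl RvT (SMap.evl cT tlT PT.vx ringF) [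
  .mk 0 120 64 [0x1000, 0x1]] = true := by
  decide +kernel

theorem t2 : runX PT.R (Wk.frw PT.R) nl RvT (SMap.evl cT tlT PT.vx ringF) [
  .mk 0 120 64 [0x1000, 0x780bfe]] = true := by
  decide +kernel

theorem t3 : runX PT.R (Wk.frw PT.R) nl RvT (SMap.evl cT tlT PT.vx ringF) [
  .mk 0 120 64 [0x1000, 0xf87f000],
  .mk 0 120 64 [0x1000, 0x400, 0x8f]] = true := by
  decide +kernel

theorem t4 : runX PT.R (Wk.frw PT.R) nl RvT (SMap.evl cT tlT PT.vx ringF) [
  .mk 0 120 64 [0x1000, 0x400, 0x200]] = true := by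
  decide +kernel

theorem t5 : runX PT.R (Wk.frw PT.R) nl RvT (SMap.evl cT tlT PT.vx ringF) [
  .mk 0 120 64 [0x1000, 0x400, 0x7fed70]] = true := by
  decide +kernel

/-- The tasks. -/
noncomputable def P : List (List Tk) := [
[
  .mk 0 120 64 [0x3ffffefff]],
[
  .mk 0 120 64 [0x1000, 0x1]],
[
  .mk 0 120 64 [0x1000, 0x780bfe]],
[
  .mk 0 120 64 [0x1000, 0xf87f000],
  .mk 0 120 64 [0x1000, 0x400, 0x8f]],
[
  .mk 0 120 64 [0x1000, 0x400, 0x200]],
[
  .mk 0 120 64 [0x1000, 0x400, 0x7fed70]]]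

theorem run : RunAll (runX PT.R (Wk.frw PT.R) nl RvT (SMap.evl cT tlT PT.vx ringF)) P :=
  .cons t0 (.cons t1 (.cons t2 (.cons t3 (.cons t4 (.cons t5 (.nil))))))

end Pool.Agent.Lib.MP_5854e1_co.Cz.Sr069

namespace Pool.Agent.Lib.MP_5854e1_co.Cz.Sr070

open PB

theorem t0 : runX PT.R (Wk.frw PT.R) nl RvT (SMap.evl cT tlT PT.vx ringF) [
  .mk 0 120 64 [0x1000, 0x400, 0x1000, 0x1f0000000000001]] = true := by
  decide +kernel

theorem t1 : runX PT.R (Wk.frw PT.R) nl RvT (SMap.evl cT tlT PT.vx ringF) [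
  .mk 0 120 64 [0x1000, 0x400, 0x1000, 0xffffffffffffffffffffffffffffffffffffffffffffffffffffffffe0ffffffffffffe],
  .mk 0 121 65 [],
  .mk 0 122 66 [0x3ffffefff]] = true := by
  decide +kernel

theorem t2 : runX PT.R (Wk.frw PT.R) nl RvT (SMap.evl cT tlT PT.vx ringF) [
  .mk 0 122 66 [0x1000, 0x780fff]] = true := by
  decide +kernel

theorem t3 : runX PT.R (Wk.frw PT.R) nl RvT (SMap.evl cT tlT PT.vx ringF) [
  .mk 0 122 66 [0x1000, 0xf87f000],
  .mk 0 123 67 [],
  .mk 0 124 68 [0x7f1fff]] = true := by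
  decide +kernel

theorem t4 : runX PT.R (Wk.frw PT.R) nl RvT (SMap.evl cT tlT PT.vx ringF) [
  .mk 0 124 68 [0x2000, 0x19ad]] = true := by
  decide +kernel

/-- The tasks. -/
noncomputable def P : List (List Tk) := [
[
  .mk 0 120 64 [0x1000, 0x400, 0x1000, 0x1f0000000000001]],
[
  .mk 0 120 64 [0x1000, 0x400, 0x1000, 0xffffffffffffffffffffffffffffffffffffffffffffffffffffffffe0ffffffffffffe],
  .mk 0 121 65 [],
  .mk 0 122 66 [0x3ffffefff]],
[
  .mk 0 122 66 [0x1000, 0x780fff]],
[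
  .mk 0 122 66 [0x1000, 0xf87f000],
  .mk 0 123 67 [],
  .mk 0 124 68 [0x7f1fff]],
[
  .mk 0 124 68 [0x2000, 0x19ad]]]

theorem run : RunAll (runX PT.R (Wk.frw PT.R) nl RvT (SMap.evl cT tlT PT.vx ringF)) P :=
  .cons t0 (.cons t1 (.cons t2 (.cons t3 (.cons t4 (.nil)))))

end Pool.Agent.Lib.MP_5854e1_co.Cz.Sr070

namespace Pool.Agent.Lib.MP_5854e1_co.Cz.Sr548

open PB

theorem t0 : runX PT.R (Wk.frw PT.R) nl RvT (SMap.evl cT tlT PT.vx ringF) [
  .mk 68 13 21 [0x400, 0x800000, 0x1, 0x100000000000000000000000000000000000000000000000000000000000000000000000000000000000, 0xffffffffffffffffffffffffffffffffffffffffffffffffffffffffffffffffffffffffffffff3ffff9ffffffffffffffffffff]] = true := by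
  decide +kernel

theorem t1 : runX PT.R (Wk.frw PT.R) nl RvT (SMap.evl cT tlT PT.vx ringF) [
  .mk 68 13 21 [0x400, 0x800000, 0x1, 0x200000000000000000000000000000000000000000000000000000000000000000000000000000000000000000, 0xfffffffffffffffffffffffffffffffffffffffffffffffffffffffffeffffffffffffffffffffffffffffffffffffffffffffff]] = true := by
  decide +kernel

theorem t2 : runX PT.R (Wk.frw PT.R) nl RvT (SMap.evl cT tlT PT.vx ringF) [
  .mk 68 13 21 [0x400, 0x800000, 0x1, 0x200000000000000000000000000000000000000000000000000000000000000000000000000000000000000000, 0x10000000000000000000000000000000000000000000000, 0xfffffffff]] = true := by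
  decide +kernel

theorem t3 : runX PT.R (Wk.frw PT.R) nl RvT (SMap.evl cT tlT PT.vx ringF) [
  .mk 68 13 21 [0x400, 0x800000, 0x200, 0x10002]] = true := by
  decide +kernel

theorem t4 : runX PT.R (Wk.frw PT.R) nl RvT (SMap.evl cT tlT PT.vx ringF) [
  .mk 68 13 21 [0x400, 0x800000, 0x200, 0xffffe7fec]] = true := by
  decide +kernel

/-- The tasks. -/
noncomputable def P : List (List Tk) := [
[
  .mk 68 13 21 [0x400, 0x800000, 0x1, 0x100000000000000000000000000000000000000000000000000000000000000000000000000000000000, 0xffffffffffffffffffffffffffffffffffffffffffffffffffffffffffffffffffffffffffffff3ffff9ffffffffffffffffffff]],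
[
  .mk 68 13 21 [0x400, 0x800000, 0x1, 0x200000000000000000000000000000000000000000000000000000000000000000000000000000000000000000, 0xfffffffffffffffffffffffffffffffffffffffffffffffffffffffffeffffffffffffffffffffffffffffffffffffffffffffff]],
[
  .mk 68 13 21 [0x400, 0x800000, 0x1, 0x200000000000000000000000000000000000000000000000000000000000000000000000000000000000000000, 0x10000000000000000000000000000000000000000000000, 0xfffffffff]],
[
  .mk 68 13 21 [0x400, 0x800000, 0x200, 0x10002]],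
[
  .mk 68 13 21 [0x400, 0x800000, 0x200, 0xffffe7fec]]]

theorem run : RunAll (runX PT.R (Wk.frw PT.R) nl RvT (SMap.evl cT tlT PT.vx ringF)) P :=
  .cons t0 (.cons t1 (.cons t2 (.cons t3 (.cons t4 (.nil)))))

end Pool.Agent.Lib.MP_5854e1_co.Cz.Sr548
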