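import Pool.Agent.Lib.MP_5854e1_co.Cz.P
import Pool.Agent.Lib.MP_5854e1_co.Tkx
import Pool.Agent.Lib.MP_5854e1_co.RunAll

/-!
# Search, part 71
-/

set_option autoImplicit false
set_option deprecated.oldSectionVars true
set_option maxRecDepth 100000

namespace Pool.Agent.Lib.MP_5854e1_co.Cz.Sr071

open PB

theorem t0 : runX PT.R (Wk.frw PT.R) nl RvT (SMap.evl cT tlT PT.vx ringF) [
  .mk 0 124 68 [0x2000, 0xfffffe052]] = true := by
  decide +kernel

theorem t1 : runX PT.R (Wk.frw PT.R) nl RvT (SMap.evl cT tlT PT.vx ringF) [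
  .mk 0 124 68 [0x2000, 0x200, 0x3]] = true := by
  decide +kernel

theorem t2 : runX PT.R (Wk.frw PT.R) nl RvT (SMap.evl cT tlT PT.vx ringF) [
  .mk 0 124 68 [0x2000, 0x200, 0x4]] = true := by
  decide +kernel

theorem t3 : runX PT.R (Wk.frw PT.R) nl RvT (SMap.evl cT tlT PT.vx ringF) [
  .mk 0 124 68 [0x2000, 0x200, 0xffffffff8]] = true := by
  decide +kernel

theorem t4 : runX PT.R (Wk.frw PT.R) nl RvT (SMap.evl cT tlT PT.vx ringF) [
  .mk 0 124 68 [0x2000, 0x400, 0xe002f7c0000]] = true := by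
  decide +kernel

theorem t5 : runX PT.R (Wk.frw PT.R) nl RvT (SMap.evl cT tlT PT.vx ringF) [
  .mk 0 124 68 [0x2000, 0x400, 0x3f1ffc003ffff]] = true := by
  decide +kernel

theorem t6 : runX PT.R (Wk.frw PT.R) nl RvT (SMap.evl cT tlT PT.vx ringF) [
  .mk 0 124 68 [0x2000, 0x400, 0x800000, 0x93]] = true := by
  decide +kernel

/-- The tasks. -/
noncomputable def P : List (List Tk) := [
[
  .mk 0 124 68 [0x2000, 0xfffffe052]],
[
  .mk 0 124 68 [0x2000, 0x200, 0x3]],
[
  .mk 0 124 68 [0x2000, 0x200, 0x4]],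
[
  .mk 0 124 68 [0x2000, 0x200, 0xffffffff8]],
[
  .mk 0 124 68 [0x2000, 0x400, 0xe002f7c0000]],
[
  .mk 0 124 68 [0x2000, 0x400, 0x3f1ffc003ffff]],
[
  .mk 0 124 68 [0x2000, 0x400, 0x800000, 0x93]]]

theorem run : RunAll (runX PT.R (Wk.frw PT.R) nl RvT (SMap.evl cT tlT PT.vx ringF)) P :=
  .cons t0 (.cons t1 (.cons t2 (.cons t3 (.cons t4 (.cons t5 (.cons t6 (.nil)))))))

end Pool.Agent.Lib.MP_5854e1_co.Cz.Sr071

namespace Pool.Agent.Lib.MP_5854e1_co.Cz.Sr378

open PB

theorem t0 : runX PT.R (Wk.frw PT.R) nl RvT (SMap.evl cT tlT PT.vx ringF) [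
  .mk 41 3 12 [0x20000000, 0x400, 0x1000, 0x1, 0x1000000000000000000000000000000000000000000000000000000000000000000000000000000000000000000000000000, 0xffffffffffffffffffffffffffffffffffffffffffffffffffffffffffffffffffffffffffffffffffffffffffffffffffffffff]] = true := by
  decide +kernel

theorem t1 : runX PT.R (Wk.frw PT.R) nl RvT (SMap.evl cT tlT PT.vx ringF) [
  .mk 41 3 12 [0x20000000, 0x400, 0x1000, 0x40000000000000, 0x1fffdf]] = true := by
  decide +kernel

theorem t2 : runX PT.R (Wk.frw PT.R) nl RvT (SMap.evl cT tlT PT.vx ringF) [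
  .mk 41 3 12 [0x20000000, 0x400, 0x1000, 0x40000000000000, 0x20, 0xffffffffffffffffffffffffffffffffffffffffffffffffffffffffffffffffffffffffffffffffffffffffffffffffffffffff]] = true := by
  decide +kernel

theorem t3 : runX PT.R (Wk.frw PT.R) nl RvT (SMap.evl cT tlT PT.vx ringF) [
  .mk 41 3 12 [0x20000000, 0x400, 0x1000, 0x80000000000000, 0x7fdff]] = true := by
  decide +kernel

theorem t4 : runX PT.R (Wk.frw PT.R) nl RvT (SMap.evl cT tlT PT.vx ringF) [
  .mk 41 3 12 [0x20000000, 0x400, 0x1000, 0x80000000000000, 0x200, 0xffffffffffffffffffffffffffffffffffffffffffffffffffffffffffffffffffffffffffffffffffffffffffffffffffffffff]] = true := by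
  decide +kernel

theorem t5 : runX PT.R (Wk.frw PT.R) nl RvT (SMap.evl cT tlT PT.vx ringF) [
  .mk 41 3 12 [0x80000000, 0x3000cf]] = true := by
  decide +kernel

/-- The tasks. -/
noncomputable def P : List (List Tk) := [
[
  .mk 41 3 12 [0x20000000, 0x400, 0x1000, 0x1, 0x1000000000000000000000000000000000000000000000000000000000000000000000000000000000000000000000000000, 0xffffffffffffffffffffffffffffffffffffffffffffffffffffffffffffffffffffffffffffffffffffffffffffffffffffffff]],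
[
  .mk 41 3 12 [0x20000000, 0x400, 0x1000, 0x40000000000000, 0x1fffdf]],
[
  .mk 41 3 12 [0x20000000, 0x400, 0x1000, 0x40000000000000, 0x20, 0xffffffffffffffffffffffffffffffffffffffffffffffffffffffffffffffffffffffffffffffffffffffffffffffffffffffff]],
[
  .mk 41 3 12 [0x20000000, 0x400, 0x1000, 0x80000000000000, 0x7fdff]],
[
  .mk 41 3 12 [0x20000000, 0x400, 0x1000, 0x80000000000000, 0x200, 0xffffffffffffffffffffffffffffffffffffffffffffffffffffffffffffffffffffffffffffffffffffffffffffffffffffffff]],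
[
  .mk 41 3 12 [0x80000000, 0x3000cf]]]

theorem run : RunAll (runX PT.R (Wk.frw PT.R) nl RvT (SMap.evl cT tlT PT.vx ringF)) P :=
  .cons t0 (.cons t1 (.cons t2 (.cons t3 (.cons t4 (.cons t5 (.nil))))))

end Pool.Agent.Lib.MP_5854e1_co.Cz.Sr378

namespace Pool.Agent.Lib.MP_5854e1_co.Cz.Sr414

open PB

theorem t0 : runX PT.R (Wk.frw PT.R) nl RvT (SMap.evl cT tlT PT.vx ringF) [
  .mk 41 27 52 [0x8000000, 0x200, 0xffffbffff],
  .mk 41 27 52 [0x8000000, 0x200, 0x40000, 0x3fffbffff]] = true := by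
  decide +kernel

theorem t1 : runX PT.R (Wk.frw PT.R) nl RvT (SMap.evl cT tlT PT.vx ringF) [
  .mk 41 27 52 [0x8000000, 0x200, 0x40000, 0x40000, 0xfffffffefffffffffffffffffffffffffffffffffffffffffffffffffffffffffffffff]] = true := by
  decide +kernel

theorem t2 : runX PT.R (Wk.frw PT.R) nl RvT (SMap.evl cT tlT PT.vx ringF) [
  .mk 41 27 52 [0x8000000, 0x200, 0x40000, 0x40000, 0x1000000000000000000000000000000000000000000000000000000000000000, 0xfffffffffffffffffffffffffffffffffffffffffffffffffffffffffffffffffffffff]] = true := by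
  decide +kernel

theorem t3 : runX PT.R (Wk.frw PT.R) nl RvT (SMap.evl cT tlT PT.vx ringF) [
  .mk 41 28 53 [0x3b]] = true := by
  decide +kernel

theorem t4 : runX PT.R (Wk.frw PT.R) nl RvT (SMap.evl cT tlT PT.vx ringF) [
  .mk 41 28 53 [0x1bbc0]] = true := by
  decide +kernel

theorem t5 : runX PT.R (Wk.frw PT.R) nl RvT (SMap.evl cT tlT PT.vx ringF) [
  .mk 41 28 53 [0x3fffffffe4404]] = true := by
  decide +kernel

/-- The tasks. -/
noncomputable def P : List (List Tk) := [
[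
  .mk 41 27 52 [0x8000000, 0x200, 0xffffbffff],
  .mk 41 27 52 [0x8000000, 0x200, 0x40000, 0x3fffbffff]],
[
  .mk 41 27 52 [0x8000000, 0x200, 0x40000, 0x40000, 0xfffffffefffffffffffffffffffffffffffffffffffffffffffffffffffffffffffffff]],
[
  .mk 41 27 52 [0x8000000, 0x200, 0x40000, 0x40000, 0x1000000000000000000000000000000000000000000000000000000000000000, 0xfffffffffffffffffffffffffffffffffffffffffffffffffffffffffffffffffffffff]],
[
  .mk 41 28 53 [0x3b]],
[
  .mk 41 28 53 [0x1bbc0]],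
[
  .mk 41 28 53 [0x3fffffffe4404]]]

theorem run : RunAll (runX PT.R (Wk.frw PT.R) nl RvT (SMap.evl cT tlT PT.vx ringF)) P :=
  .cons t0 (.cons t1 (.cons t2 (.cons t3 (.cons t4 (.cons t5 (.nil))))))

end Pool.Agent.Lib.MP_5854e1_co.Cz.Sr414
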