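import Pool.Agent.Lib.MP_5854e1_co.Cz.P
import Pool.Agent.Lib.MP_5854e1_co.Tkx
import Pool.Agent.Lib.MP_5854e1_co.RunAll

/-!
# Search, part 72
-/

set_option autoImplicit false
set_option deprecated.oldSectionVars true
set_option maxRecDepth 100000

namespace Pool.Agent.Lib.MP_5854e1_co.Cz.Sr072

open PB

theorem t0 : runX PT.R (Wk.frw PT.R) nl RvT (SMap.evl cT tlT PT.vx ringF) [
  .mk 0 124 68 [0x2000, 0x400, 0x800000, 0x700]] = true := by
  decide +kernel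

theorem t1 : runX PT.R (Wk.frw PT.R) nl RvT (SMap.evl cT tlT PT.vx ringF) [
  .mk 0 124 68 [0x2000, 0x400, 0x800000, 0x3fffff86c]] = true := by
  decide +kernel

theorem t2 : runX PT.R (Wk.frw PT.R) nl RvT (SMap.evl cT tlT PT.vx ringF) [
  .mk 0 124 68 [0x2000, 0x400, 0x10000000, 0x11e8f]] = true := by
  decide +kernel

theorem t3 : runX PT.R (Wk.frw PT.R) nl RvT (SMap.evl cT tlT PT.vx ringF) [
  .mk 0 124 68 [0x2000, 0x400, 0x10000000, 0x7ee170]] = true := by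
  decide +kernel

theorem t4 : runX PT.R (Wk.frw PT.R) nl RvT (SMap.evl cT tlT PT.vx ringF) [
  .mk 0 124 68 [0x4000, 0xf00377aff]] = true := by
  decide +kernel

theorem t5 : runX PT.R (Wk.frw PT.R) nl RvT (SMap.evl cT tlT PT.vx ringF) [
  .mk 0 124 68 [0x4000, 0x3fff0ffc88100]] = true := by
  decide +kernel

theorem t6 : runX PT.R (Wk.frw PT.R) nl RvT (SMap.evl cT tlT PT.vx ringF) [
  .mk 0 124 68 [0x4000, 0x400, 0x17b1]] = true := by
  decide +kernel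

/-- The tasks. -/
noncomputable def P : List (List Tk) := [
[
  .mk 0 124 68 [0x2000, 0x400, 0x800000, 0x700]],
[
  .mk 0 124 68 [0x2000, 0x400, 0x800000, 0x3fffff86c]],
[
  .mk 0 124 68 [0x2000, 0x400, 0x10000000, 0x11e8f]],
[
  .mk 0 124 68 [0x2000, 0x400, 0x10000000, 0x7ee170]],
[
  .mk 0 124 68 [0x4000, 0xf00377aff]],
[
  .mk 0 124 68 [0x4000, 0x3fff0ffc88100]],
[
  .mk 0 124 68 [0x4000, 0x400, 0x17b1]]]

theorem run : RunAll (runX PT.R (Wk.frw PT.R) nl RvT (SMap.evl cT tlT PT.vx ringF)) P :=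
  .cons t0 (.cons t1 (.cons t2 (.cons t3 (.cons t4 (.cons t5 (.cons t6 (.nil)))))))

end Pool.Agent.Lib.MP_5854e1_co.Cz.Sr072

namespace Pool.Agent.Lib.MP_5854e1_co.Cz.Sr206

open PB

theorem t0 : runX PT.R (Wk.frw PT.R) nl RvT (SMap.evl cT tlT PT.vx ringF) [
  .mk 8 14 49 [0x8, 0x3e041ffcc]] = true := by
  decide +kernel

theorem t1 : runX PT.R (Wk.frw PT.R) nl RvT (SMap.evl cT tlT PT.vx ringF) [
  .mk 8 14 49 [0x8, 0x4000000, 0x193]] = true := by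
  decide +kernel

theorem t2 : runX PT.R (Wk.frw PT.R) nl RvT (SMap.evl cT tlT PT.vx ringF) [
  .mk 8 14 49 [0x8, 0x4000000, 0xe00]] = true := by
  decide +kernel

theorem t3 : runX PT.R (Wk.frw PT.R) nl RvT (SMap.evl cT tlT PT.vx ringF) [
  .mk 8 14 49 [0x8, 0x4000000, 0xffffff06c]] = true := by
  decide +kernel

theorem t4 : runX PT.R (Wk.frw PT.R) nl RvT (SMap.evl cT tlT PT.vx ringF) [
  .mk 8 14 49 [0x200, 0xd7198053]] = true := by
  decide +kernel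

theorem t5 : runX PT.R (Wk.frw PT.R) nl RvT (SMap.evl cT tlT PT.vx ringF) [
  .mk 8 14 49 [0x200, 0xf00e67fac]] = true := by
  decide +kernel

theorem t6 : runX PT.R (Wk.frw PT.R) nl RvT (SMap.evl cT tlT PT.vx ringF) [
  .mk 8 14 49 [0x200, 0x8000000, 0x193]] = true := by
  decide +kernel

/-- The tasks. -/
noncomputable def P : List (List Tk) := [
[
  .mk 8 14 49 [0x8, 0x3e041ffcc]],
[
  .mk 8 14 49 [0x8, 0x4000000, 0x193]],
[
  .mk 8 14 49 [0x8, 0x4000000, 0xe00]],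
[
  .mk 8 14 49 [0x8, 0x4000000, 0xffffff06c]],
[
  .mk 8 14 49 [0x200, 0xd7198053]],
[
  .mk 8 14 49 [0x200, 0xf00e67fac]],
[
  .mk 8 14 49 [0x200, 0x8000000, 0x193]]]

theorem run : RunAll (runX PT.R (Wk.frw PT.R) nl RvT (SMap.evl cT tlT PT.vx ringF)) P :=
  .cons t0 (.cons t1 (.cons t2 (.cons t3 (.cons t4 (.cons t5 (.cons t6 (.nil)))))))

end Pool.Agent.Lib.MP_5854e1_co.Cz.Sr206

namespace Pool.Agent.Lib.MP_5854e1_co.Cz.Sr342

open PB

theorem t0 : runX PT.R (Wk.frw PT.R) nl RvT (SMap.evl cT tlT PT.vx ringF) [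
  .mk 35 13 48 [0x8000000, 0x400, 0x40000, 0x400000000000000000000000000000000000000000000000000000000000000000000000000000000000000000000000, 0x1, 0xffffffffffffffffffffffffffffffffffffffffffffffffffffffffffffffffffffffffffffffffffffffffffffffffffffffff]] = true := by
  decide +kernel

theorem t1 : runX PT.R (Wk.frw PT.R) nl RvT (SMap.evl cT tlT PT.vx ringF) [
  .mk 35 14 49 [],
  .mk 35 15 0 [],
  .mk 35 16 20 [],
  .mk 35 17 24 [],
  .mk 35 18 25 [],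
  .mk 35 19 26 [],
  .mk 35 20 27 [],
  .mk 35 21 28 [],
  .mk 35 22 30 [],
  .mk 35 23 31 [],
  .mk 35 24 32 [],
  .mk 35 25 50 [],
  .mk 35 26 51 [],
  .mk 35 27 52 [],
  .mk 35 28 53 []] = true := by
  decide +kernel

theorem t2 : runX PT.R (Wk.frw PT.R) nl RvT (SMap.evl cT tlT PT.vx ringF) [
  .mk 35 29 54 [],
  .mk 35 30 55 [],
  .mk 35 31 56 [],
  .mk 35 32 57 [],
  .mk 35 33 58 [],
  .mk 35 34 59 [],
  .mk 35 35 60 [],
  .mk 36 0 0 [],
  .mk 36 1 7 []] = true := by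
  decide +kernel

theorem t3 : runX PT.R (Wk.frw PT.R) nl RvT (SMap.evl cT tlT PT.vx ringF) [
  .mk 36 2 11 [0x1f800]] = true := by
  decide +kernel

theorem t4 : runX PT.R (Wk.frw PT.R) nl RvT (SMap.evl cT tlT PT.vx ringF) [
  .mk 36 2 11 [0x7e07ff],
  .mk 36 3 12 [0x1f5e0700]] = true := by
  decide +kernel

theorem t5 : runX PT.R (Wk.frw PT.R) nl RvT (SMap.evl cT tlT PT.vx ringF) [
  .mk 36 3 12 [0x3e0a1f8ff],
  .mk 36 4 15 [],
  .mk 36 5 17 [],
  .mk 36 6 18 [],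
  .mk 36 7 39 [],
  .mk 36 8 40 []] = true := by
  decide +kernel

/-- The tasks. -/
noncomputable def P : List (List Tk) := [
[
  .mk 35 13 48 [0x8000000, 0x400, 0x40000, 0x400000000000000000000000000000000000000000000000000000000000000000000000000000000000000000000000, 0x1, 0xffffffffffffffffffffffffffffffffffffffffffffffffffffffffffffffffffffffffffffffffffffffffffffffffffffffff]],
[
  .mk 35 14 49 [],
  .mk 35 15 0 [],
  .mk 35 16 20 [],
  .mk 35 17 24 [],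
  .mk 35 18 25 [],
  .mk 35 19 26 [],
  .mk 35 20 27 [],
  .mk 35 21 28 [],
  .mk 35 22 30 [],
  .mk 35 23 31 [],
  .mk 35 24 32 [],
  .mk 35 25 50 [],
  .mk 35 26 51 [],
  .mk 35 27 52 [],
  .mk 35 28 53 []],
[
  .mk 35 29 54 [],
  .mk 35 30 55 [],
  .mk 35 31 56 [],
  .mk 35 32 57 [],
  .mk 35 33 58 [],
  .mk 35 34 59 [],
  .mk 35 35 60 [],
  .mk 36 0 0 [],
  .mk 36 1 7 []],
[
  .mk 36 2 11 [0x1f800]],
[
  .mk 36 2 11 [0x7e07ff],
  .mk 36 3 12 [0x1f5e0700]],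
[
  .mk 36 3 12 [0x3e0a1f8ff],
  .mk 36 4 15 [],
  .mk 36 5 17 [],
  .mk 36 6 18 [],
  .mk 36 7 39 [],
  .mk 36 8 40 []]]

theorem run : RunAll (runX PT.R (Wk.frw PT.R) nl RvT (SMap.evl cT tlT PT.vx ringF)) P :=
  .cons t0 (.cons t1 (.cons t2 (.cons t3 (.cons t4 (.cons t5 (.nil))))))

end Pool.Agent.Lib.MP_5854e1_co.Cz.Sr342
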