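import Pool.Agent.Lib.MP_5854e1_co.Cz.P
import Pool.Agent.Lib.MP_5854e1_co.Tkx
import Pool.Agent.Lib.MP_5854e1_co.RunAll

/-!
# Search, part 73
-/

set_option autoImplicit false
set_option deprecated.oldSectionVars true
set_option maxRecDepth 100000

namespace Pool.Agent.Lib.MP_5854e1_co.Cz.Sr073

open PB

theorem t0 : runX PT.R (Wk.frw PT.R) nl RvT (SMap.evl cT tlT PT.vx ringF) [
  .mk 0 124 68 [0x4000, 0x400, 0x2000]] = true := by
  decide +kernel

theorem t1 : runX PT.R (Wk.frw PT.R) nl RvT (SMap.evl cT tlT PT.vx ringF) [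
  .mk 0 124 68 [0x4000, 0x400, 0x4000]] = true := by
  decide +kernel

theorem t2 : runX PT.R (Wk.frw PT.R) nl RvT (SMap.evl cT tlT PT.vx ringF) [
  .mk 0 124 68 [0x4000, 0x400, 0x7f884e]] = true := by
  decide +kernel

theorem t3 : runX PT.R (Wk.frw PT.R) nl RvT (SMap.evl cT tlT PT.vx ringF) [
  .mk 0 124 68 [0x8000, 0xe9ecf]] = true := by
  decide +kernel

theorem t4 : runX PT.R (Wk.frw PT.R) nl RvT (SMap.evl cT tlT PT.vx ringF) [
  .mk 0 124 68 [0x8000, 0x1200000]] = true := by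
  decide +kernel

theorem t5 : runX PT.R (Wk.frw PT.R) nl RvT (SMap.evl cT tlT PT.vx ringF) [
  .mk 0 124 68 [0x8000, 0x2000000]] = true := by
  decide +kernel

/-- The tasks. -/
noncomputable def P : List (List Tk) := [
[
  .mk 0 124 68 [0x4000, 0x400, 0x2000]],
[
  .mk 0 124 68 [0x4000, 0x400, 0x4000]],
[
  .mk 0 124 68 [0x4000, 0x400, 0x7f884e]],
[
  .mk 0 124 68 [0x8000, 0xe9ecf]],
[
  .mk 0 124 68 [0x8000, 0x1200000]],
[
  .mk 0 124 68 [0x8000, 0x2000000]]]

theorem run : RunAll (runX PT.R (Wk.frw PT.R) nl RvT (SMap.evl cT tlT PT.vx ringF)) P :=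
  .cons t0 (.cons t1 (.cons t2 (.cons t3 (.cons t4 (.cons t5 (.nil))))))

end Pool.Agent.Lib.MP_5854e1_co.Cz.Sr073

namespace Pool.Agent.Lib.MP_5854e1_co.Cz.Sr183

open PB

theorem t0 : runX PT.R (Wk.frw PT.R) nl RvT (SMap.evl cT tlT PT.vx ringF) [
  .mk 8 7 39 [0x10000, 0x400, 0x3fedffffbffff]] = true := by
  decide +kernel

theorem t1 : runX PT.R (Wk.frw PT.R) nl RvT (SMap.evl cT tlT PT.vx ringF) [
  .mk 8 7 39 [0x10000, 0x400, 0x40000, 0x307e0000000000000000000000000000000000000000000000000000000000000000000000]] = true := by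
  decide +kernel

theorem t2 : runX PT.R (Wk.frw PT.R) nl RvT (SMap.evl cT tlT PT.vx ringF) [
  .mk 8 7 39 [0x10000, 0x400, 0x40000, 0xc0000000000000000000000000000000000000000000000000000000000000000000000000]] = true := by
  decide +kernel

theorem t3 : runX PT.R (Wk.frw PT.R) nl RvT (SMap.evl cT tlT PT.vx ringF) [
  .mk 8 7 39 [0x10000, 0x400, 0x40000, 0xfc0300000000000000000000000000000000000000000000000000000000000000000000000000]] = true := by
  decide +kernel

theorem t4 : runX PT.R (Wk.frw PT.R) nl RvT (SMap.evl cT tlT PT.vx ringF) [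
  .mk 8 7 39 [0x10000, 0x400, 0x40000, 0xffffffffffffffffffffffffff03fc0f81ffffffffffffffffffffffffffffffffffffffffffffffffffffffffffffffffffffff]] = true := by
  decide +kernel

/-- The tasks. -/
noncomputable def P : List (List Tk) := [
[
  .mk 8 7 39 [0x10000, 0x400, 0x3fedffffbffff]],
[
  .mk 8 7 39 [0x10000, 0x400, 0x40000, 0x307e0000000000000000000000000000000000000000000000000000000000000000000000]],
[
  .mk 8 7 39 [0x10000, 0x400, 0x40000, 0xc0000000000000000000000000000000000000000000000000000000000000000000000000]],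
[
  .mk 8 7 39 [0x10000, 0x400, 0x40000, 0xfc0300000000000000000000000000000000000000000000000000000000000000000000000000]],
[
  .mk 8 7 39 [0x10000, 0x400, 0x40000, 0xffffffffffffffffffffffffff03fc0f81ffffffffffffffffffffffffffffffffffffffffffffffffffffffffffffffffffffff]]]

theorem run : RunAll (runX PT.R (Wk.frw PT.R) nl RvT (SMap.evl cT tlT PT.vx ringF)) P :=
  .cons t0 (.cons t1 (.cons t2 (.cons t3 (.cons t4 (.nil)))))

end Pool.Agent.Lib.MP_5854e1_co.Cz.Sr183

namespace Pool.Agent.Lib.MP_5854e1_co.Cz.Sr334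

open PB

theorem t0 : runX PT.R (Wk.frw PT.R) nl RvT (SMap.evl cT tlT PT.vx ringF) [
  .mk 35 9 41 [0x8000, 0x400000400000000000000000000000000000000000000000000000000]] = true := by
  decide +kernel

theorem t1 : runX PT.R (Wk.frw PT.R) nl RvT (SMap.evl cT tlT PT.vx ringF) [
  .mk 35 9 41 [0x8000, 0xfffffffffffffffffffffffffffffffffffffffffffffffbfffffa91ffffffffdfffffffffffffffffffffffffffffffffffffff]] = true := by
  decide +kernel

theorem t2 : runX PT.R (Wk.frw PT.R) nl RvT (SMap.evl cT tlT PT.vx ringF) [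
  .mk 35 9 41 [0x8000000, 0xd3]] = true := by
  decide +kernel

theorem t3 : runX PT.R (Wk.frw PT.R) nl RvT (SMap.evl cT tlT PT.vx ringF) [
  .mk 35 9 41 [0x8000000, 0xf00]] = true := by
  decide +kernel

theorem t4 : runX PT.R (Wk.frw PT.R) nl RvT (SMap.evl cT tlT PT.vx ringF) [
  .mk 35 9 41 [0x8000000, 0x681d000]] = true := by
  decide +kernel

theorem t5 : runX PT.R (Wk.frw PT.R) nl RvT (SMap.evl cT tlT PT.vx ringF) [
  .mk 35 9 41 [0x8000000, 0xff97e202c]] = true := by
  decide +kernel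

/-- The tasks. -/
noncomputable def P : List (List Tk) := [
[
  .mk 35 9 41 [0x8000, 0x400000400000000000000000000000000000000000000000000000000]],
[
  .mk 35 9 41 [0x8000, 0xfffffffffffffffffffffffffffffffffffffffffffffffbfffffa91ffffffffdfffffffffffffffffffffffffffffffffffffff]],
[
  .mk 35 9 41 [0x8000000, 0xd3]],
[
  .mk 35 9 41 [0x8000000, 0xf00]],
[
  .mk 35 9 41 [0x8000000, 0x681d000]],
[
  .mk 35 9 41 [0x8000000, 0xff97e202c]]]

theorem run : RunAll (runX PT.R (Wk.frw PT.R) nl RvT (SMap.evl cT tlT PT.vx ringF)) P :=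
  .cons t0 (.cons t1 (.cons t2 (.cons t3 (.cons t4 (.cons t5 (.nil))))))

end Pool.Agent.Lib.MP_5854e1_co.Cz.Sr334

namespace Pool.Agent.Lib.MP_5854e1_co.Cz.Sr477

open PB

theorem t0 : runX PT.R (Wk.frw PT.R) nl RvT (SMap.evl cT tlT PT.vx ringF) [
  .mk 47 31 70 [0x2000, 0x400, 0x3fffffbdfffff]] = true := by
  decide +kernel

theorem t1 : runX PT.R (Wk.frw PT.R) nl RvT (SMap.evl cT tlT PT.vx ringF) [
  .mk 47 31 70 [0x2000, 0x400, 0x200000, 0x3fffffffe]] = true := by
  decide +kernel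

theorem t2 : runX PT.R (Wk.frw PT.R) nl RvT (SMap.evl cT tlT PT.vx ringF) [
  .mk 47 31 70 [0x2000, 0x400, 0x200000, 0x1, 0x9000000000002000000000000000000000000000000000000000]] = true := by
  decide +kernel

theorem t3 : runX PT.R (Wk.frw PT.R) nl RvT (SMap.evl cT tlT PT.vx ringF) [
  .mk 47 31 70 [0x2000, 0x400, 0x200000, 0x1, 0xffffffffffffffffffffffffffffffffffffffffffffffffffff6fffffffffffdfffffffffffffffffffffffffffffffffffffff],
  .mk 47 31 70 [0x2000, 0x400, 0x4000000, 0xe8b]] = true := by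
  decide +kernel

theorem t4 : runX PT.R (Wk.frw PT.R) nl RvT (SMap.evl cT tlT PT.vx ringF) [
  .mk 47 31 70 [0x2000, 0x400, 0x4000000, 0x7ff174]] = true := by
  decide +kernel

theorem t5 : runX PT.R (Wk.frw PT.R) nl RvT (SMap.evl cT tlT PT.vx ringF) [
  .mk 47 31 70 [0x8000, 0x3000cf]] = true := by
  decide +kernel

theorem t6 : runX PT.R (Wk.frw PT.R) nl RvT (SMap.evl cT tlT PT.vx ringF) [
  .mk 47 31 70 [0x8000, 0x400000]] = true := by
  decide +kernel

/-- The tasks. -/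
noncomputable def P : List (List Tk) := [
[
  .mk 47 31 70 [0x2000, 0x400, 0x3fffffbdfffff]],
[
  .mk 47 31 70 [0x2000, 0x400, 0x200000, 0x3fffffffe]],
[
  .mk 47 31 70 [0x2000, 0x400, 0x200000, 0x1, 0x9000000000002000000000000000000000000000000000000000]],
[
  .mk 47 31 70 [0x2000, 0x400, 0x200000, 0x1, 0xffffffffffffffffffffffffffffffffffffffffffffffffffff6fffffffffffdfffffffffffffffffffffffffffffffffffffff],
  .mk 47 31 70 [0x2000, 0x400, 0x4000000, 0xe8b]],
[
  .mk 47 31 70 [0x2000, 0x400, 0x4000000, 0x7ff174]],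
[
  .mk 47 31 70 [0x8000, 0x3000cf]],
[
  .mk 47 31 70 [0x8000, 0x400000]]]

theorem run : RunAll (runX PT.R (Wk.frw PT.R) nl RvT (SMap.evl cT tlT PT.vx ringF)) P :=
  .cons t0 (.cons t1 (.cons t2 (.cons t3 (.cons t4 (.cons t5 (.cons t6 (.nil)))))))

end Pool.Agent.Lib.MP_5854e1_co.Cz.Sr477
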