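import Pool.Agent.Lib.MP_5854e1_co.Cz.P
import Pool.Agent.Lib.MP_5854e1_co.Tkx
import Pool.Agent.Lib.MP_5854e1_co.RunAll

/-!
# Search, part 76
-/

set_option autoImplicit false
set_option deprecated.oldSectionVars true
set_option maxRecDepth 100000

namespace Pool.Agent.Lib.MP_5854e1_co.Cz.Sr076

open PB

theorem t0 : runX PT.R (Wk.frw PT.R) nl RvT (SMap.evl cT tlT PT.vx ringF) [
  .mk 0 140 84 [0x10000, 0xffffff002],
  .mk 0 140 84 [0x10000, 0x80, 0xec09]] = true := by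
  decide +kernel

theorem t1 : runX PT.R (Wk.frw PT.R) nl RvT (SMap.evl cT tlT PT.vx ringF) [
  .mk 0 140 84 [0x10000, 0x80, 0x70000]] = true := by
  decide +kernel

theorem t2 : runX PT.R (Wk.frw PT.R) nl RvT (SMap.evl cT tlT PT.vx ringF) [
  .mk 0 140 84 [0x10000, 0x80, 0x813f6],
  .mk 0 140 84 [0x40000, 0x13bff73]] = true := by
  decide +kernel

theorem t3 : runX PT.R (Wk.frw PT.R) nl RvT (SMap.evl cT tlT PT.vx ringF) [
  .mk 0 140 84 [0x40000, 0x6c4008c],
  .mk 0 141 85 [],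
  .mk 0 142 86 [],
  .mk 0 143 87 [0x18000000]] = true := by
  decide +kernel

theorem t4 : runX PT.R (Wk.frw PT.R) nl RvT (SMap.evl cT tlT PT.vx ringF) [
  .mk 0 143 87 [0xfa7ffffff]] = true := by
  decide +kernel

/-- The tasks. -/
noncomputable def P : List (List Tk) := [
[
  .mk 0 140 84 [0x10000, 0xffffff002],
  .mk 0 140 84 [0x10000, 0x80, 0xec09]],
[
  .mk 0 140 84 [0x10000, 0x80, 0x70000]],
[
  .mk 0 140 84 [0x10000, 0x80, 0x813f6],
  .mk 0 140 84 [0x40000, 0x13bff73]],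
[
  .mk 0 140 84 [0x40000, 0x6c4008c],
  .mk 0 141 85 [],
  .mk 0 142 86 [],
  .mk 0 143 87 [0x18000000]],
[
  .mk 0 143 87 [0xfa7ffffff]]]

theorem run : RunAll (runX PT.R (Wk.frw PT.R) nl RvT (SMap.evl cT tlT PT.vx ringF)) P :=
  .cons t0 (.cons t1 (.cons t2 (.cons t3 (.cons t4 (.nil)))))

end Pool.Agent.Lib.MP_5854e1_co.Cz.Sr076

namespace Pool.Agent.Lib.MP_5854e1_co.Cz.Sr086

open PB

theorem t0 : runX PT.R (Wk.frw PT.R) nl RvT (SMap.evl cT tlT PT.vx ringF) [
  .mk 0 298 0 [0x1000000000000000000000000000, 0xf8078]] = true := by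
  decide +kernel

theorem t1 : runX PT.R (Wk.frw PT.R) nl RvT (SMap.evl cT tlT PT.vx ringF) [
  .mk 0 298 0 [0x1000000000000000000000000000, 0xf500000]] = true := by
  decide +kernel

theorem t2 : runX PT.R (Wk.frw PT.R) nl RvT (SMap.evl cT tlT PT.vx ringF) [
  .mk 0 298 0 [0x1000000000000000000000000000, 0x3f0000000]] = true := by
  decide +kernel

theorem t3 : runX PT.R (Wk.frw PT.R) nl RvT (SMap.evl cT tlT PT.vx ringF) [
  .mk 0 298 0 [0x1000000000000000000000000000, 0xc00a07f80],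
  .mk 0 298 0 [0x40000000000000000000000000000, 0x800e5dffff4f]] = true := by
  decide +kernel

theorem t4 : runX PT.R (Wk.frw PT.R) nl RvT (SMap.evl cT tlT PT.vx ringF) [
  .mk 0 298 0 [0x40000000000000000000000000000, 0x7f7ff1220000b0]] = true := by
  decide +kernel

/-- The tasks. -/
noncomputable def P : List (List Tk) := [
[
  .mk 0 298 0 [0x1000000000000000000000000000, 0xf8078]],
[
  .mk 0 298 0 [0x1000000000000000000000000000, 0xf500000]],
[
  .mk 0 298 0 [0x1000000000000000000000000000, 0x3f0000000]],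
[
  .mk 0 298 0 [0x1000000000000000000000000000, 0xc00a07f80],
  .mk 0 298 0 [0x40000000000000000000000000000, 0x800e5dffff4f]],
[
  .mk 0 298 0 [0x40000000000000000000000000000, 0x7f7ff1220000b0]]]

theorem run : RunAll (runX PT.R (Wk.frw PT.R) nl RvT (SMap.evl cT tlT PT.vx ringF)) P :=
  .cons t0 (.cons t1 (.cons t2 (.cons t3 (.cons t4 (.nil)))))

end Pool.Agent.Lib.MP_5854e1_co.Cz.Sr086

namespace Pool.Agent.Lib.MP_5854e1_co.Cz.Sr087

open PB

theorem t0 : runX PT.R (Wk.frw PT.R) nl RvT (SMap.evl cT tlT PT.vx ringF) [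
  .mk 0 298 0 [0x40000000000000000000000000000, 0x80000000, 0x7601]] = true := by
  decide +kernel

theorem t1 : runX PT.R (Wk.frw PT.R) nl RvT (SMap.evl cT tlT PT.vx ringF) [
  .mk 0 298 0 [0x40000000000000000000000000000, 0x80000000, 0x7f89fe],
  .mk 0 298 0 [0x80000000000000000000000000000, 0x1da7b3]] = true := by
  decide +kernel

theorem t2 : runX PT.R (Wk.frw PT.R) nl RvT (SMap.evl cT tlT PT.vx ringF) [
  .mk 0 298 0 [0x80000000000000000000000000000, 0x1c00000]] = true := by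
  decide +kernel

theorem t3 : runX PT.R (Wk.frw PT.R) nl RvT (SMap.evl cT tlT PT.vx ringF) [
  .mk 0 298 0 [0x80000000000000000000000000000, 0x600584c]] = true := by
  decide +kernel

theorem t4 : runX PT.R (Wk.frw PT.R) nl RvT (SMap.evl cT tlT PT.vx ringF) [
  .mk 0 298 0 [0x80000000000000000000000000000, 0x20000, 0x4b03e00000000000000000000000000000000000000ff80f000000000002000000000000000000000000000000000000000]] = true := by
  decide +kernel

theorem t5 : runX PT.R (Wk.frw PT.R) nl RvT (SMap.evl cT tlT PT.vx ringF) [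
  .mk 0 298 0 [0x80000000000000000000000000000, 0x20000, 0xfffffb4fc1ffffffffffffffffffffffffffffffffffffff007f0fffffffffffdfffffffffffffffffffffffffffffffffffffff],
  .mk 0 298 0 [0x80000000000000000000000000000, 0x200000, 0x3cc03]] = true := by
  decide +kernel

/-- The tasks. -/
noncomputable def P : List (List Tk) := [
[
  .mk 0 298 0 [0x40000000000000000000000000000, 0x80000000, 0x7601]],
[
  .mk 0 298 0 [0x40000000000000000000000000000, 0x80000000, 0x7f89fe],
  .mk 0 298 0 [0x80000000000000000000000000000, 0x1da7b3]],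
[
  .mk 0 298 0 [0x80000000000000000000000000000, 0x1c00000]],
[
  .mk 0 298 0 [0x80000000000000000000000000000, 0x600584c]],
[
  .mk 0 298 0 [0x80000000000000000000000000000, 0x20000, 0x4b03e00000000000000000000000000000000000000ff80f000000000002000000000000000000000000000000000000000]],
[
  .mk 0 298 0 [0x80000000000000000000000000000, 0x20000, 0xfffffb4fc1ffffffffffffffffffffffffffffffffffffff007f0fffffffffffdfffffffffffffffffffffffffffffffffffffff],
  .mk 0 298 0 [0x80000000000000000000000000000, 0x200000, 0x3cc03]]]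

theorem run : RunAll (runX PT.R (Wk.frw PT.R) nl RvT (SMap.evl cT tlT PT.vx ringF)) P :=
  .cons t0 (.cons t1 (.cons t2 (.cons t3 (.cons t4 (.cons t5 (.nil))))))

end Pool.Agent.Lib.MP_5854e1_co.Cz.Sr087

namespace Pool.Agent.Lib.MP_5854e1_co.Cz.Sr329

open PB

theorem t0 : runX PT.R (Wk.frw PT.R) nl RvT (SMap.evl cT tlT PT.vx ringF) [
  .mk 35 2 11 [0x7f85ff]] = true := by
  decide +kernel

theorem t1 : runX PT.R (Wk.frw PT.R) nl RvT (SMap.evl cT tlT PT.vx ringF) [
  .mk 35 2 11 [0x2000, 0x1b81]] = true := by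
  decide +kernel

theorem t2 : runX PT.R (Wk.frw PT.R) nl RvT (SMap.evl cT tlT PT.vx ringF) [
  .mk 35 2 11 [0x2000, 0xfffffe07e]] = true := by
  decide +kernel

theorem t3 : runX PT.R (Wk.frw PT.R) nl RvT (SMap.evl cT tlT PT.vx ringF) [
  .mk 35 2 11 [0x2000, 0x400, 0xf7c0000]] = true := by
  decide +kernel

theorem t4 : runX PT.R (Wk.frw PT.R) nl RvT (SMap.evl cT tlT PT.vx ringF) [
  .mk 35 2 11 [0x2000, 0x400, 0x3fffff003ffff]] = true := by
  decide +kernel

theorem t5 : runX PT.R (Wk.frw PT.R) nl RvT (SMap.evl cT tlT PT.vx ringF) [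
  .mk 35 2 11 [0x2000, 0x400, 0x800000, 0x1]] = true := by
  decide +kernel

theorem t6 : runX PT.R (Wk.frw PT.R) nl RvT (SMap.evl cT tlT PT.vx ringF) [
  .mk 35 2 11 [0x2000, 0x400, 0x800000, 0x3fffffffe],
  .mk 35 3 12 [0x200]] = true := by
  decide +kernel

/-- The tasks. -/
noncomputable def P : List (List Tk) := [
[
  .mk 35 2 11 [0x7f85ff]],
[
  .mk 35 2 11 [0x2000, 0x1b81]],
[
  .mk 35 2 11 [0x2000, 0xfffffe07e]],
[
  .mk 35 2 11 [0x2000, 0x400, 0xf7c0000]],
[
  .mk 35 2 11 [0x2000, 0x400, 0x3fffff003ffff]],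
[
  .mk 35 2 11 [0x2000, 0x400, 0x800000, 0x1]],
[
  .mk 35 2 11 [0x2000, 0x400, 0x800000, 0x3fffffffe],
  .mk 35 3 12 [0x200]]]

theorem run : RunAll (runX PT.R (Wk.frw PT.R) nl RvT (SMap.evl cT tlT PT.vx ringF)) P :=
  .cons t0 (.cons t1 (.cons t2 (.cons t3 (.cons t4 (.cons t5 (.cons t6 (.nil)))))))

end Pool.Agent.Lib.MP_5854e1_co.Cz.Sr329

namespace Pool.Agent.Lib.MP_5854e1_co.Cz.Sr502

open PB

theorem t0 : runX PT.R (Wk.frw PT.R) nl RvT (SMap.evl cT tlT PT.vx ringF) [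
  .mk 61 7 3 [0x200, 0xd61b97f90],
  .mk 61 8 20 []] = true := by
  decide +kernel

theorem t1 : runX PT.R (Wk.frw PT.R) nl RvT (SMap.evl cT tlT PT.vx ringF) [
  .mk 61 9 21 [0x2d]] = true := by
  decide +kernel

theorem t2 : runX PT.R (Wk.frw PT.R) nl RvT (SMap.evl cT tlT PT.vx ringF) [
  .mk 61 9 21 [0xfffffb9d2]] = true := by
  decide +kernel

theorem t3 : runX PT.R (Wk.frw PT.R) nl RvT (SMap.evl cT tlT PT.vx ringF) [
  .mk 61 9 21 [0x200, 0x7]] = true := by
  decide +kernel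

theorem t4 : runX PT.R (Wk.frw PT.R) nl RvT (SMap.evl cT tlT PT.vx ringF) [
  .mk 61 9 21 [0x200, 0xffffffff8],
  .mk 61 9 21 [0x400, 0x3ffffef7fffff]] = true := by
  decide +kernel

theorem t5 : runX PT.R (Wk.frw PT.R) nl RvT (SMap.evl cT tlT PT.vx ringF) [
  .mk 61 9 21 [0x400, 0x800000, 0x13]] = true := by
  decide +kernel

/-- The tasks. -/
noncomputable def P : List (List Tk) := [
[
  .mk 61 7 3 [0x200, 0xd61b97f90],
  .mk 61 8 20 []],
[
  .mk 61 9 21 [0x2d]],
[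
  .mk 61 9 21 [0xfffffb9d2]],
[
  .mk 61 9 21 [0x200, 0x7]],
[
  .mk 61 9 21 [0x200, 0xffffffff8],
  .mk 61 9 21 [0x400, 0x3ffffef7fffff]],
[
  .mk 61 9 21 [0x400, 0x800000, 0x13]]]

theorem run : RunAll (runX PT.R (Wk.frw PT.R) nl RvT (SMap.evl cT tlT PT.vx ringF)) P :=
  .cons t0 (.cons t1 (.cons t2 (.cons t3 (.cons t4 (.cons t5 (.nil))))))

end Pool.Agent.Lib.MP_5854e1_co.Cz.Sr502
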