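import Pool.Agent.Lib.MP_5854e1_co.Cz.P
import Pool.Agent.Lib.MP_5854e1_co.Tkx
import Pool.Agent.Lib.MP_5854e1_co.RunAll

/-!
# Search, part 77
-/

set_option autoImplicit false
set_option deprecated.oldSectionVars true
set_option maxRecDepth 100000

namespace Pool.Agent.Lib.MP_5854e1_co.Cz.Sr077

open PB

theorem t0 : runX PT.R (Wk.frw PT.R) nl RvT (SMap.evl cT tlT PT.vx ringF) [
  .mk 0 143 87 [0x40000000, 0x3ff]] = true := by
  decide +kernel

theorem t1 : runX PT.R (Wk.frw PT.R) nl RvT (SMap.evl cT tlT PT.vx ringF) [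
  .mk 0 143 87 [0x40000000, 0xffffc00]] = true := by
  decide +kernel

theorem t2 : runX PT.R (Wk.frw PT.R) nl RvT (SMap.evl cT tlT PT.vx ringF) [
  .mk 0 144 88 [0x3f3fffff]] = true := by
  decide +kernel

theorem t3 : runX PT.R (Wk.frw PT.R) nl RvT (SMap.evl cT tlT PT.vx ringF) [
  .mk 0 144 88 [0x400000, 0x1e00]] = true := by
  decide +kernel

theorem t4 : runX PT.R (Wk.frw PT.R) nl RvT (SMap.evl cT tlT PT.vx ringF) [
  .mk 0 144 88 [0x400000, 0x2000]] = true := by
  decide +kernel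

theorem t5 : runX PT.R (Wk.frw PT.R) nl RvT (SMap.evl cT tlT PT.vx ringF) [
  .mk 0 144 88 [0x400000, 0x14000]] = true := by
  decide +kernel

/-- The tasks. -/
noncomputable def P : List (List Tk) := [
[
  .mk 0 143 87 [0x40000000, 0x3ff]],
[
  .mk 0 143 87 [0x40000000, 0xffffc00]],
[
  .mk 0 144 88 [0x3f3fffff]],
[
  .mk 0 144 88 [0x400000, 0x1e00]],
[
  .mk 0 144 88 [0x400000, 0x2000]],
[
  .mk 0 144 88 [0x400000, 0x14000]]]

theorem run : RunAll (runX PT.R (Wk.frw PT.R) nl RvT (SMap.evl cT tlT PT.vx ringF)) P :=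
  .cons t0 (.cons t1 (.cons t2 (.cons t3 (.cons t4 (.cons t5 (.nil))))))

end Pool.Agent.Lib.MP_5854e1_co.Cz.Sr077

namespace Pool.Agent.Lib.MP_5854e1_co.Cz.Sr110

open PB

theorem t0 : runX PT.R (Wk.frw PT.R) nl RvT (SMap.evl cT tlT PT.vx ringF) [
  .mk 2 7 50 [0x40000, 0x400, 0x40000, 0xe00fc0000000000000000000000000000000000000000000000000000000000000000000000000000]] = true := by
  decide +kernel

theorem t1 : runX PT.R (Wk.frw PT.R) nl RvT (SMap.evl cT tlT PT.vx ringF) [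
  .mk 2 7 50 [0x40000, 0x400, 0x40000, 0xfffffffffffffffffffffff0ff03fc0f81ffffffffffffffffffffffffffffffffffffffffffffffffffffffffffffffffffffff]] = true := by
  decide +kernel

theorem t2 : runX PT.R (Wk.frw PT.R) nl RvT (SMap.evl cT tlT PT.vx ringF) [
  .mk 2 7 50 [0x40000, 0x400, 0x40000, 0x100000000000000000000000000000000000000000000000000000000000000000000000000000000, 0x6000000000000000808600000000000000008443]] = true := by
  decide +kernel

theorem t3 : runX PT.R (Wk.frw PT.R) nl RvT (SMap.evl cT tlT PT.vx ringF) [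
  .mk 2 7 50 [0x40000, 0x400, 0x40000, 0x100000000000000000000000000000000000000000000000000000000000000000000000000000000, 0xffffffffffffffffffffffffffffffffffffffffffffffffffffffffffffffff9fffffffffffffff7f79ffffffffffffffff7bbc]] = true := by
  decide +kernel

theorem t4 : runX PT.R (Wk.frw PT.R) nl RvT (SMap.evl cT tlT PT.vx ringF) [
  .mk 2 7 50 [0x40000, 0x400, 0x4000000000, 0x368b]] = true := by
  decide +kernel

theorem t5 : runX PT.R (Wk.frw PT.R) nl RvT (SMap.evl cT tlT PT.vx ringF) [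
  .mk 2 7 50 [0x40000, 0x400, 0x4000000000, 0x7c974],
  .mk 2 7 50 [0x40000, 0x400, 0x8000000000, 0x8b]] = true := by
  decide +kernel

theorem t6 : runX PT.R (Wk.frw PT.R) nl RvT (SMap.evl cT tlT PT.vx ringF) [
  .mk 2 7 50 [0x40000, 0x400, 0x8000000000, 0x200]] = true := by
  decide +kernel

/-- The tasks. -/
noncomputable def P : List (List Tk) := [
[
  .mk 2 7 50 [0x40000, 0x400, 0x40000, 0xe00fc0000000000000000000000000000000000000000000000000000000000000000000000000000]],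
[
  .mk 2 7 50 [0x40000, 0x400, 0x40000, 0xfffffffffffffffffffffff0ff03fc0f81ffffffffffffffffffffffffffffffffffffffffffffffffffffffffffffffffffffff]],
[
  .mk 2 7 50 [0x40000, 0x400, 0x40000, 0x100000000000000000000000000000000000000000000000000000000000000000000000000000000, 0x6000000000000000808600000000000000008443]],
[
  .mk 2 7 50 [0x40000, 0x400, 0x40000, 0x100000000000000000000000000000000000000000000000000000000000000000000000000000000, 0xffffffffffffffffffffffffffffffffffffffffffffffffffffffffffffffff9fffffffffffffff7f79ffffffffffffffff7bbc]],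
[
  .mk 2 7 50 [0x40000, 0x400, 0x4000000000, 0x368b]],
[
  .mk 2 7 50 [0x40000, 0x400, 0x4000000000, 0x7c974],
  .mk 2 7 50 [0x40000, 0x400, 0x8000000000, 0x8b]],
[
  .mk 2 7 50 [0x40000, 0x400, 0x8000000000, 0x200]]]

theorem run : RunAll (runX PT.R (Wk.frw PT.R) nl RvT (SMap.evl cT tlT PT.vx ringF)) P :=
  .cons t0 (.cons t1 (.cons t2 (.cons t3 (.cons t4 (.cons t5 (.cons t6 (.nil)))))))

end Pool.Agent.Lib.MP_5854e1_co.Cz.Sr110

namespace Pool.Agent.Lib.MP_5854e1_co.Cz.Sr274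

open PB

theorem t0 : runX PT.R (Wk.frw PT.R) nl RvT (SMap.evl cT tlT PT.vx ringF) [
  .mk 11 17 29 [0x200, 0xb61987f80]] = true := by
  decide +kernel

theorem t1 : runX PT.R (Wk.frw PT.R) nl RvT (SMap.evl cT tlT PT.vx ringF) [
  .mk 11 17 29 [0x200, 0x8, 0x3260033]] = true := by
  decide +kernel

theorem t2 : runX PT.R (Wk.frw PT.R) nl RvT (SMap.evl cT tlT PT.vx ringF) [
  .mk 11 17 29 [0x200, 0x8, 0x3fcd9ffcc]] = true := by
  decide +kernel

theorem t3 : runX PT.R (Wk.frw PT.R) nl RvT (SMap.evl cT tlT PT.vx ringF) [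
  .mk 11 17 29 [0x200, 0x40000, 0xe0013]] = true := by
  decide +kernel

theorem t4 : runX PT.R (Wk.frw PT.R) nl RvT (SMap.evl cT tlT PT.vx ringF) [
  .mk 11 17 29 [0x200, 0x40000, 0x3fff1ffec]] = true := by
  decide +kernel

theorem t5 : runX PT.R (Wk.frw PT.R) nl RvT (SMap.evl cT tlT PT.vx ringF) [
  .mk 11 17 29 [0x200, 0x400000000, 0x20013]] = true := by
  decide +kernel

theorem t6 : runX PT.R (Wk.frw PT.R) nl RvT (SMap.evl cT tlT PT.vx ringF) [
  .mk 11 17 29 [0x200, 0x400000000, 0xffdffec]] = true := by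
  decide +kernel

/-- The tasks. -/
noncomputable def P : List (List Tk) := [
[
  .mk 11 17 29 [0x200, 0xb61987f80]],
[
  .mk 11 17 29 [0x200, 0x8, 0x3260033]],
[
  .mk 11 17 29 [0x200, 0x8, 0x3fcd9ffcc]],
[
  .mk 11 17 29 [0x200, 0x40000, 0xe0013]],
[
  .mk 11 17 29 [0x200, 0x40000, 0x3fff1ffec]],
[
  .mk 11 17 29 [0x200, 0x400000000, 0x20013]],
[
  .mk 11 17 29 [0x200, 0x400000000, 0xffdffec]]]

theorem run : RunAll (runX PT.R (Wk.frw PT.R) nl RvT (SMap.evl cT tlT PT.vx ringF)) P :=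
  .cons t0 (.cons t1 (.cons t2 (.cons t3 (.cons t4 (.cons t5 (.cons t6 (.nil)))))))

end Pool.Agent.Lib.MP_5854e1_co.Cz.Sr274
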