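import Pool.Agent.Lib.MP_5854e1_co.Cz.P
import Pool.Agent.Lib.MP_5854e1_co.Tkx
import Pool.Agent.Lib.MP_5854e1_co.RunAll

/-!
# Search, part 81
-/

set_option autoImplicit false
set_option deprecated.oldSectionVars true
set_option maxRecDepth 100000

namespace Pool.Agent.Lib.MP_5854e1_co.Cz.Sr081

open PB

theorem t0 : runX PT.R (Wk.frw PT.R) nl RvT (SMap.evl cT tlT PT.vx ringF) [
  .mk 0 289 15 [],
  .mk 0 292 0 [],
  .mk 0 293 1 []] = true := by
  decide +kernel

theorem t1 : runX PT.R (Wk.frw PT.R) nl RvT (SMap.evl cT tlT PT.vx ringF) [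
  .mk 0 294 7 [0xc420]] = true := by
  decide +kernel

theorem t2 : runX PT.R (Wk.frw PT.R) nl RvT (SMap.evl cT tlT PT.vx ringF) [
  .mk 0 294 7 [0xffffffffffffffffffffffffffffffffffffffffffffffffffffffffffffffffff52bd3]] = true := by
  decide +kernel

theorem t3 : runX PT.R (Wk.frw PT.R) nl RvT (SMap.evl cT tlT PT.vx ringF) [
  .mk 0 294 7 [0x4, 0x7ff7ff]] = true := by
  decide +kernel

theorem t4 : runX PT.R (Wk.frw PT.R) nl RvT (SMap.evl cT tlT PT.vx ringF) [
  .mk 0 294 7 [0x4, 0x800, 0xfbf]] = true := by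
  decide +kernel

theorem t5 : runX PT.R (Wk.frw PT.R) nl RvT (SMap.evl cT tlT PT.vx ringF) [
  .mk 0 294 7 [0x4, 0x800, 0xffffff040]] = true := by
  decide +kernel

/-- The tasks. -/
noncomputable def P : List (List Tk) := [
[
  .mk 0 289 15 [],
  .mk 0 292 0 [],
  .mk 0 293 1 []],
[
  .mk 0 294 7 [0xc420]],
[
  .mk 0 294 7 [0xffffffffffffffffffffffffffffffffffffffffffffffffffffffffffffffffff52bd3]],
[
  .mk 0 294 7 [0x4, 0x7ff7ff]],
[
  .mk 0 294 7 [0x4, 0x800, 0xfbf]],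
[
  .mk 0 294 7 [0x4, 0x800, 0xffffff040]]]

theorem run : RunAll (runX PT.R (Wk.frw PT.R) nl RvT (SMap.evl cT tlT PT.vx ringF)) P :=
  .cons t0 (.cons t1 (.cons t2 (.cons t3 (.cons t4 (.cons t5 (.nil))))))

end Pool.Agent.Lib.MP_5854e1_co.Cz.Sr081

namespace Pool.Agent.Lib.MP_5854e1_co.Cz.Sr155

open PB

theorem t0 : runX PT.R (Wk.frw PT.R) nl RvT (SMap.evl cT tlT PT.vx ringF) [
  .mk 7 28 68 [0x8000, 0x800000, 0x4000000, 0x1, 0x200000000000000000000, 0xffffffffffffffffffffffffffffffffffffffffffffffffffffffffffffffffffffffffffffffffffffffffffffffffffffffff]] = true := by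
  decide +kernel

/-- The tasks. -/
noncomputable def P : List (List Tk) := [
[
  .mk 7 28 68 [0x8000, 0x800000, 0x4000000, 0x1, 0x200000000000000000000, 0xffffffffffffffffffffffffffffffffffffffffffffffffffffffffffffffffffffffffffffffffffffffffffffffffffffffff]]]

theorem run : RunAll (runX PT.R (Wk.frw PT.R) nl RvT (SMap.evl cT tlT PT.vx ringF)) P :=
  .cons t0 (.nil)

end Pool.Agent.Lib.MP_5854e1_co.Cz.Sr155

namespace Pool.Agent.Lib.MP_5854e1_co.Cz.Sr188

open PB

theorem t0 : runX PT.R (Wk.frw PT.R) nl RvT (SMap.evl cT tlT PT.vx ringF) [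
  .mk 8 9 41 [0x4, 0x1000, 0xf0000000000000000000000000000000ff80f00000001]] = true := by
  decide +kernel

theorem t1 : runX PT.R (Wk.frw PT.R) nl RvT (SMap.evl cT tlT PT.vx ringF) [
  .mk 8 9 41 [0x4, 0x1000, 0xffffffffffffffffffffffffff0fffffffffffffffffffffffffffffff007f0fffffffe]] = true := by
  decide +kernel

theorem t2 : runX PT.R (Wk.frw PT.R) nl RvT (SMap.evl cT tlT PT.vx ringF) [
  .mk 8 9 41 [0x4, 0x2000, 0x198012]] = true := by
  decide +kernel

theorem t3 : runX PT.R (Wk.frw PT.R) nl RvT (SMap.evl cT tlT PT.vx ringF) [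
  .mk 8 9 41 [0x4, 0x2000, 0xfffe67fec]] = true := by
  decide +kernel

theorem t4 : runX PT.R (Wk.frw PT.R) nl RvT (SMap.evl cT tlT PT.vx ringF) [
  .mk 8 9 41 [0x4, 0x2000, 0x1, 0x70000000000002000000000000000000000000000000000000000]] = true := by
  decide +kernel

theorem t5 : runX PT.R (Wk.frw PT.R) nl RvT (SMap.evl cT tlT PT.vx ringF) [
  .mk 8 9 41 [0x4, 0x2000, 0x1, 0xfffffffffffffffffffffffffffffffffffffffffffffffffff8ffffffffffffdfffffffffffffffffffffffffffffffffffffff]] = true := by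
  decide +kernel

/-- The tasks. -/
noncomputable def P : List (List Tk) := [
[
  .mk 8 9 41 [0x4, 0x1000, 0xf0000000000000000000000000000000ff80f00000001]],
[
  .mk 8 9 41 [0x4, 0x1000, 0xffffffffffffffffffffffffff0fffffffffffffffffffffffffffffff007f0fffffffe]],
[
  .mk 8 9 41 [0x4, 0x2000, 0x198012]],
[
  .mk 8 9 41 [0x4, 0x2000, 0xfffe67fec]],
[
  .mk 8 9 41 [0x4, 0x2000, 0x1, 0x70000000000002000000000000000000000000000000000000000]],
[
  .mk 8 9 41 [0x4, 0x2000, 0x1, 0xfffffffffffffffffffffffffffffffffffffffffffffffffff8ffffffffffffdfffffffffffffffffffffffffffffffffffffff]]]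

theorem run : RunAll (runX PT.R (Wk.frw PT.R) nl RvT (SMap.evl cT tlT PT.vx ringF)) P :=
  .cons t0 (.cons t1 (.cons t2 (.cons t3 (.cons t4 (.cons t5 (.nil))))))

end Pool.Agent.Lib.MP_5854e1_co.Cz.Sr188
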