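import Pool.Agent.Lib.MP_5854e1_co.Cz.P
import Pool.Agent.Lib.MP_5854e1_co.Tkx
import Pool.Agent.Lib.MP_5854e1_co.RunAll

/-!
# Search, part 83
-/

set_option autoImplicit false
set_option deprecated.oldSectionVars true
set_option maxRecDepth 100000

namespace Pool.Agent.Lib.MP_5854e1_co.Cz.Sr083

open PB

theorem t0 : runX PT.R (Wk.frw PT.R) nl RvT (SMap.evl cT tlT PT.vx ringF) [
  .mk 0 294 7 [0x1000, 0x1e00]] = true := by
  decide +kernel

theorem t1 : runX PT.R (Wk.frw PT.R) nl RvT (SMap.evl cT tlT PT.vx ringF) [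
  .mk 0 294 7 [0x1000, 0x2e000]] = true := by
  decide +kernel

theorem t2 : runX PT.R (Wk.frw PT.R) nl RvT (SMap.evl cT tlT PT.vx ringF) [
  .mk 0 294 7 [0x1000, 0x29c040000]] = true := by
  decide +kernel

theorem t3 : runX PT.R (Wk.frw PT.R) nl RvT (SMap.evl cT tlT PT.vx ringF) [
  .mk 0 294 7 [0x1000, 0xd63f900f2]] = true := by
  decide +kernel

theorem t4 : runX PT.R (Wk.frw PT.R) nl RvT (SMap.evl cT tlT PT.vx ringF) [
  .mk 0 294 7 [0x20000, 0xbff33]] = true := by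
  decide +kernel

theorem t5 : runX PT.R (Wk.frw PT.R) nl RvT (SMap.evl cT tlT PT.vx ringF) [
  .mk 0 294 7 [0x20000, 0x7f400cc]] = true := by
  decide +kernel

/-- The tasks. -/
noncomputable def P : List (List Tk) := [
[
  .mk 0 294 7 [0x1000, 0x1e00]],
[
  .mk 0 294 7 [0x1000, 0x2e000]],
[
  .mk 0 294 7 [0x1000, 0x29c040000]],
[
  .mk 0 294 7 [0x1000, 0xd63f900f2]],
[
  .mk 0 294 7 [0x20000, 0xbff33]],
[
  .mk 0 294 7 [0x20000, 0x7f400cc]]]

theorem run : RunAll (runX PT.R (Wk.frw PT.R) nl RvT (SMap.evl cT tlT PT.vx ringF)) P :=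
  .cons t0 (.cons t1 (.cons t2 (.cons t3 (.cons t4 (.cons t5 (.nil))))))

end Pool.Agent.Lib.MP_5854e1_co.Cz.Sr083

namespace Pool.Agent.Lib.MP_5854e1_co.Cz.Sr272

open PB

theorem t0 : runX PT.R (Wk.frw PT.R) nl RvT (SMap.evl cT tlT PT.vx ringF) [
  .mk 11 15 23 [0x800000, 0x3000000]] = true := by
  decide +kernel

theorem t1 : runX PT.R (Wk.frw PT.R) nl RvT (SMap.evl cT tlT PT.vx ringF) [
  .mk 11 15 23 [0x800000, 0x4000000]] = true := by
  decide +kernel

theorem t2 : runX PT.R (Wk.frw PT.R) nl RvT (SMap.evl cT tlT PT.vx ringF) [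
  .mk 11 15 23 [0x800000, 0x3f8d9ffcc]] = true := by
  decide +kernel

theorem t3 : runX PT.R (Wk.frw PT.R) nl RvT (SMap.evl cT tlT PT.vx ringF) [
  .mk 11 15 23 [0x800000, 0x20000, 0xf00000000000200000000000000000000]] = true := by
  decide +kernel

theorem t4 : runX PT.R (Wk.frw PT.R) nl RvT (SMap.evl cT tlT PT.vx ringF) [
  .mk 11 15 23 [0x800000, 0x20000, 0xfffffffffffffffffffffffffffffffffffffffffffffffffffffffffffffffffffffff0fffffffffffdffffffffffffffffffff]] = true := by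
  decide +kernel

theorem t5 : runX PT.R (Wk.frw PT.R) nl RvT (SMap.evl cT tlT PT.vx ringF) [
  .mk 11 16 28 [],
  .mk 11 17 29 [0x3]] = true := by
  decide +kernel

theorem t6 : runX PT.R (Wk.frw PT.R) nl RvT (SMap.evl cT tlT PT.vx ringF) [
  .mk 11 17 29 [0x5a4]] = true := by
  decide +kernel

/-- The tasks. -/
noncomputable def P : List (List Tk) := [
[
  .mk 11 15 23 [0x800000, 0x3000000]],
[
  .mk 11 15 23 [0x800000, 0x4000000]],
[
  .mk 11 15 23 [0x800000, 0x3f8d9ffcc]],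
[
  .mk 11 15 23 [0x800000, 0x20000, 0xf00000000000200000000000000000000]],
[
  .mk 11 15 23 [0x800000, 0x20000, 0xfffffffffffffffffffffffffffffffffffffffffffffffffffffffffffffffffffffff0fffffffffffdffffffffffffffffffff]],
[
  .mk 11 16 28 [],
  .mk 11 17 29 [0x3]],
[
  .mk 11 17 29 [0x5a4]]]

theorem run : RunAll (runX PT.R (Wk.frw PT.R) nl RvT (SMap.evl cT tlT PT.vx ringF)) P :=
  .cons t0 (.cons t1 (.cons t2 (.cons t3 (.cons t4 (.cons t5 (.cons t6 (.nil)))))))

end Pool.Agent.Lib.MP_5854e1_co.Cz.Sr272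

namespace Pool.Agent.Lib.MP_5854e1_co.Cz.Sr403

open PB

theorem t0 : runX PT.R (Wk.frw PT.R) nl RvT (SMap.evl cT tlT PT.vx ringF) [
  .mk 41 13 48 [0x800000, 0x2, 0x4000000000000000000000000000000000000000000000000000000000, 0xfffffffffffffffffffffffffffffffffffffffffffffffffffffffffffffffffffffec],
  .mk 41 13 48 [0x4000000, 0x3e000200000]] = true := by
  decide +kernel

theorem t1 : runX PT.R (Wk.frw PT.R) nl RvT (SMap.evl cT tlT PT.vx ringF) [
  .mk 41 13 48 [0x4000000, 0x7ffc1fffdfffff]] = true := by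
  decide +kernel

theorem t2 : runX PT.R (Wk.frw PT.R) nl RvT (SMap.evl cT tlT PT.vx ringF) [
  .mk 41 13 48 [0x8000000, 0xb93]] = true := by
  decide +kernel

theorem t3 : runX PT.R (Wk.frw PT.R) nl RvT (SMap.evl cT tlT PT.vx ringF) [
  .mk 41 13 48 [0x8000000, 0xffffff06c],
  .mk 41 13 48 [0x8000000, 0x400, 0x40000000000]] = true := by
  decide +kernel

theorem t4 : runX PT.R (Wk.frw PT.R) nl RvT (SMap.evl cT tlT PT.vx ringF) [
  .mk 41 13 48 [0x8000000, 0x400, 0x80000000000]] = true := by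
  decide +kernel

/-- The tasks. -/
noncomputable def P : List (List Tk) := [
[
  .mk 41 13 48 [0x800000, 0x2, 0x4000000000000000000000000000000000000000000000000000000000, 0xfffffffffffffffffffffffffffffffffffffffffffffffffffffffffffffffffffffec],
  .mk 41 13 48 [0x4000000, 0x3e000200000]],
[
  .mk 41 13 48 [0x4000000, 0x7ffc1fffdfffff]],
[
  .mk 41 13 48 [0x8000000, 0xb93]],
[
  .mk 41 13 48 [0x8000000, 0xffffff06c],
  .mk 41 13 48 [0x8000000, 0x400, 0x40000000000]],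
[
  .mk 41 13 48 [0x8000000, 0x400, 0x80000000000]]]

theorem run : RunAll (runX PT.R (Wk.frw PT.R) nl RvT (SMap.evl cT tlT PT.vx ringF)) P :=
  .cons t0 (.cons t1 (.cons t2 (.cons t3 (.cons t4 (.nil)))))

end Pool.Agent.Lib.MP_5854e1_co.Cz.Sr403
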