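import Pool.Agent.Lib.MP_5854e1_co.Cz.P
import Pool.Agent.Lib.MP_5854e1_co.Tkx
import Pool.Agent.Lib.MP_5854e1_co.RunAll

/-!
# Search, part 84
-/

set_option autoImplicit false
set_option deprecated.oldSectionVars true
set_option maxRecDepth 100000

namespace Pool.Agent.Lib.MP_5854e1_co.Cz.Sr084

open PB

theorem t0 : runX PT.R (Wk.frw PT.R) nl RvT (SMap.evl cT tlT PT.vx ringF) [
  .mk 0 294 7 [0x80000, 0x1ffcf]] = true := by
  decide +kernel

theorem t1 : runX PT.R (Wk.frw PT.R) nl RvT (SMap.evl cT tlT PT.vx ringF) [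
  .mk 0 294 7 [0x80000, 0x20000]] = true := by
  decide +kernel

theorem t2 : runX PT.R (Wk.frw PT.R) nl RvT (SMap.evl cT tlT PT.vx ringF) [
  .mk 0 294 7 [0x80000, 0xffc0030],
  .mk 0 295 15 []] = true := by
  decide +kernel

theorem t3 : runX PT.R (Wk.frw PT.R) nl RvT (SMap.evl cT tlT PT.vx ringF) [
  .mk 0 298 0 [0x100004000]] = true := by
  decide +kernel

theorem t4 : runX PT.R (Wk.frw PT.R) nl RvT (SMap.evl cT tlT PT.vx ringF) [
  .mk 0 298 0 [0xc00000000]] = true := by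
  decide +kernel

theorem t5 : runX PT.R (Wk.frw PT.R) nl RvT (SMap.evl cT tlT PT.vx ringF) [
  .mk 0 298 0 [0xa000000000]] = true := by
  decide +kernel

theorem t6 : runX PT.R (Wk.frw PT.R) nl RvT (SMap.evl cT tlT PT.vx ringF) [
  .mk 0 298 0 [0xfffffffffffffffffffffffffffffffffffffffffffffffffffffffffffffffffffffffffff3efffeffdffffffffff52ffffbfff],
  .mk 0 298 0 [0x200000000000000000000, 0xffffffffffffffffffffffffffffffffffffffffffffffffffffffffffffffffffffffffff7fffffffffffffffffffffffffffff]] = true := by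
  decide +kernel

/-- The tasks. -/
noncomputable def P : List (List Tk) := [
[
  .mk 0 294 7 [0x80000, 0x1ffcf]],
[
  .mk 0 294 7 [0x80000, 0x20000]],
[
  .mk 0 294 7 [0x80000, 0xffc0030],
  .mk 0 295 15 []],
[
  .mk 0 298 0 [0x100004000]],
[
  .mk 0 298 0 [0xc00000000]],
[
  .mk 0 298 0 [0xa000000000]],
[
  .mk 0 298 0 [0xfffffffffffffffffffffffffffffffffffffffffffffffffffffffffffffffffffffffffff3efffeffdffffffffff52ffffbfff],
  .mk 0 298 0 [0x200000000000000000000, 0xffffffffffffffffffffffffffffffffffffffffffffffffffffffffffffffffffffffffff7fffffffffffffffffffffffffffff]]]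

theorem run : RunAll (runX PT.R (Wk.frw PT.R) nl RvT (SMap.evl cT tlT PT.vx ringF)) P :=
  .cons t0 (.cons t1 (.cons t2 (.cons t3 (.cons t4 (.cons t5 (.cons t6 (.nil)))))))

end Pool.Agent.Lib.MP_5854e1_co.Cz.Sr084

namespace Pool.Agent.Lib.MP_5854e1_co.Cz.Sr098

open PB

theorem t0 : runX PT.R (Wk.frw PT.R) nl RvT (SMap.evl cT tlT PT.vx ringF) [
  .mk 0 339 7 [0x20024]] = true := by
  decide +kernel

theorem t1 : runX PT.R (Wk.frw PT.R) nl RvT (SMap.evl cT tlT PT.vx ringF) [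
  .mk 0 339 7 [0xffffffffffffffffffffffffffffffffffffffffffffffffffffffffffffffffffdffdb],
  .mk 0 340 15 []] = true := by
  decide +kernel

theorem t2 : runX PT.R (Wk.frw PT.R) nl RvT (SMap.evl cT tlT PT.vx ringF) [
  .mk 0 341 20 [0x24]] = true := by
  decide +kernel

theorem t3 : runX PT.R (Wk.frw PT.R) nl RvT (SMap.evl cT tlT PT.vx ringF) [
  .mk 0 341 20 [0x1000]] = true := by
  decide +kernel

theorem t4 : runX PT.R (Wk.frw PT.R) nl RvT (SMap.evl cT tlT PT.vx ringF) [
  .mk 0 341 20 [0xfffffffffffffffffffffffffffffffffffffffffffffffffffffffffffffffffffefdb]] = true := by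
  decide +kernel

theorem t5 : runX PT.R (Wk.frw PT.R) nl RvT (SMap.evl cT tlT PT.vx ringF) [
  .mk 0 342 28 [0xfffffffffffffffffffffffffffffffffffffffffffffffffffffffffffffffffff7fff]] = true := by
  decide +kernel

/-- The tasks. -/
noncomputable def P : List (List Tk) := [
[
  .mk 0 339 7 [0x20024]],
[
  .mk 0 339 7 [0xffffffffffffffffffffffffffffffffffffffffffffffffffffffffffffffffffdffdb],
  .mk 0 340 15 []],
[
  .mk 0 341 20 [0x24]],
[
  .mk 0 341 20 [0x1000]],
[
  .mk 0 341 20 [0xfffffffffffffffffffffffffffffffffffffffffffffffffffffffffffffffffffefdb]],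
[
  .mk 0 342 28 [0xfffffffffffffffffffffffffffffffffffffffffffffffffffffffffffffffffff7fff]]]

theorem run : RunAll (runX PT.R (Wk.frw PT.R) nl RvT (SMap.evl cT tlT PT.vx ringF)) P :=
  .cons t0 (.cons t1 (.cons t2 (.cons t3 (.cons t4 (.cons t5 (.nil))))))

end Pool.Agent.Lib.MP_5854e1_co.Cz.Sr098

namespace Pool.Agent.Lib.MP_5854e1_co.Cz.Sr171

open PB

theorem t0 : runX PT.R (Wk.frw PT.R) nl RvT (SMap.evl cT tlT PT.vx ringF) [
  .mk 7 252 7 [0x80000, 0x200, 0xfffffe06c],
  .mk 7 252 7 [0x80000, 0x200, 0x200, 0xfffff7fff],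
  .mk 7 252 7 [0x80000, 0x200, 0x200, 0x8000, 0xffffffffffffffffffffffffffffffffffffffffffffffffffffffdfffffffffffffffffffffffffffffffffffffffffffffffff]] = true := by
  decide +kernel

theorem t1 : runX PT.R (Wk.frw PT.R) nl RvT (SMap.evl cT tlT PT.vx ringF) [
  .mk 7 252 7 [0x80000, 0x200, 0x200, 0x8000, 0x20000000000000000000000000000000000000000000000000, 0x3ffffffff]] = true := by
  decide +kernel

theorem t2 : runX PT.R (Wk.frw PT.R) nl RvT (SMap.evl cT tlT PT.vx ringF) [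
  .mk 7 253 15 [],
  .mk 7 254 20 [],
  .mk 7 255 28 []] = true := by
  decide +kernel

theorem t3 : runX PT.R (Wk.frw PT.R) nl RvT (SMap.evl cT tlT PT.vx ringF) [
  .mk 7 256 0 [0x4e00000]] = true := by
  decide +kernel

theorem t4 : runX PT.R (Wk.frw PT.R) nl RvT (SMap.evl cT tlT PT.vx ringF) [
  .mk 7 256 0 [0x110000000000000000000000000000000000000000000000]] = true := by
  decide +kernel

/-- The tasks. -/
noncomputable def P : List (List Tk) := [
[
  .mk 7 252 7 [0x80000, 0x200, 0xfffffe06c],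
  .mk 7 252 7 [0x80000, 0x200, 0x200, 0xfffff7fff],
  .mk 7 252 7 [0x80000, 0x200, 0x200, 0x8000, 0xffffffffffffffffffffffffffffffffffffffffffffffffffffffdfffffffffffffffffffffffffffffffffffffffffffffffff]],
[
  .mk 7 252 7 [0x80000, 0x200, 0x200, 0x8000, 0x20000000000000000000000000000000000000000000000000, 0x3ffffffff]],
[
  .mk 7 253 15 [],
  .mk 7 254 20 [],
  .mk 7 255 28 []],
[
  .mk 7 256 0 [0x4e00000]],
[
  .mk 7 256 0 [0x110000000000000000000000000000000000000000000000]]]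

theorem run : RunAll (runX PT.R (Wk.frw PT.R) nl RvT (SMap.evl cT tlT PT.vx ringF)) P :=
  .cons t0 (.cons t1 (.cons t2 (.cons t3 (.cons t4 (.nil)))))

end Pool.Agent.Lib.MP_5854e1_co.Cz.Sr171
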