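import Pool.Agent.Lib.MP_5854e1_co.Cz.P
import Pool.Agent.Lib.MP_5854e1_co.Tkx
import Pool.Agent.Lib.MP_5854e1_co.RunAll

/-!
# Search, part 88
-/

set_option autoImplicit false
set_option deprecated.oldSectionVars true
set_option maxRecDepth 100000

namespace Pool.Agent.Lib.MP_5854e1_co.Cz.Sr088

open PB

theorem t0 : runX PT.R (Wk.frw PT.R) nl RvT (SMap.evl cT tlT PT.vx ringF) [
  .mk 0 298 0 [0x80000000000000000000000000000, 0x200000, 0xc33fc]] = true := by
  decide +kernel

theorem t1 : runX PT.R (Wk.frw PT.R) nl RvT (SMap.evl cT tlT PT.vx ringF) [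
  .mk 0 298 0 [0x80000000000000000000000000000, 0x8000000, 0x393]] = true := by
  decide +kernel

theorem t2 : runX PT.R (Wk.frw PT.R) nl RvT (SMap.evl cT tlT PT.vx ringF) [
  .mk 0 298 0 [0x80000000000000000000000000000, 0x8000000, 0xc00]] = true := by
  decide +kernel

theorem t3 : runX PT.R (Wk.frw PT.R) nl RvT (SMap.evl cT tlT PT.vx ringF) [
  .mk 0 298 0 [0x80000000000000000000000000000, 0x8000000, 0xffffff06c],
  .mk 0 299 1 []] = true := by
  decide +kernel

theorem t4 : runX PT.R (Wk.frw PT.R) nl RvT (SMap.evl cT tlT PT.vx ringF) [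
  .mk 0 300 2 [0x1fc3]] = true := by
  decide +kernel

theorem t5 : runX PT.R (Wk.frw PT.R) nl RvT (SMap.evl cT tlT PT.vx ringF) [
  .mk 0 300 2 [0xc000]] = true := by
  decide +kernel

theorem t6 : runX PT.R (Wk.frw PT.R) nl RvT (SMap.evl cT tlT PT.vx ringF) [
  .mk 0 300 2 [0xfffff203c],
  .mk 0 301 7 [0xfffffffffffffffffffffffffffffffffffffffffffffffffffffffffffffffef7fffff]] = true := by
  decide +kernel

/-- The tasks. -/
noncomputable def P : List (List Tk) := [
[
  .mk 0 298 0 [0x80000000000000000000000000000, 0x200000, 0xc33fc]],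
[
  .mk 0 298 0 [0x80000000000000000000000000000, 0x8000000, 0x393]],
[
  .mk 0 298 0 [0x80000000000000000000000000000, 0x8000000, 0xc00]],
[
  .mk 0 298 0 [0x80000000000000000000000000000, 0x8000000, 0xffffff06c],
  .mk 0 299 1 []],
[
  .mk 0 300 2 [0x1fc3]],
[
  .mk 0 300 2 [0xc000]],
[
  .mk 0 300 2 [0xfffff203c],
  .mk 0 301 7 [0xfffffffffffffffffffffffffffffffffffffffffffffffffffffffffffffffef7fffff]]]

theorem run : RunAll (runX PT.R (Wk.frw PT.R) nl RvT (SMap.evl cT tlT PT.vx ringF)) P :=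
  .cons t0 (.cons t1 (.cons t2 (.cons t3 (.cons t4 (.cons t5 (.cons t6 (.nil)))))))

end Pool.Agent.Lib.MP_5854e1_co.Cz.Sr088

namespace Pool.Agent.Lib.MP_5854e1_co.Cz.Sr461

open PB

theorem t0 : runX PT.R (Wk.frw PT.R) nl RvT (SMap.evl cT tlT PT.vx ringF) [
  .mk 44 8 68 [0x1000, 0xf000000000]] = true := by
  decide +kernel

theorem t1 : runX PT.R (Wk.frw PT.R) nl RvT (SMap.evl cT tlT PT.vx ringF) [
  .mk 44 8 68 [0x1000, 0xf0000000000]] = true := by
  decide +kernel

theorem t2 : runX PT.R (Wk.frw PT.R) nl RvT (SMap.evl cT tlT PT.vx ringF) [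
  .mk 44 8 68 [0x1000, 0xfffffffffffffffffffffffffffffffffffffffffffffffffffffffffff900ffffffffe]] = true := by
  decide +kernel

theorem t3 : runX PT.R (Wk.frw PT.R) nl RvT (SMap.evl cT tlT PT.vx ringF) [
  .mk 44 8 68 [0x1000, 0x1, 0xfff00fc03f07e0000000000000000000000000000000000000000000000000000000000000000000000]] = true := by
  decide +kernel

theorem t4 : runX PT.R (Wk.frw PT.R) nl RvT (SMap.evl cT tlT PT.vx ringF) [
  .mk 44 8 68 [0x1000, 0x1, 0x1e000000000000000000000000000000000000000000000000000000000000000000000000000000000000]] = true := by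
  decide +kernel

theorem t5 : runX PT.R (Wk.frw PT.R) nl RvT (SMap.evl cT tlT PT.vx ringF) [
  .mk 44 8 68 [0x1000, 0x1, 0x20000000000000000000000000000000000000000000000000000000000000000000000000000000000000]] = true := by
  decide +kernel

/-- The tasks. -/
noncomputable def P : List (List Tk) := [
[
  .mk 44 8 68 [0x1000, 0xf000000000]],
[
  .mk 44 8 68 [0x1000, 0xf0000000000]],
[
  .mk 44 8 68 [0x1000, 0xfffffffffffffffffffffffffffffffffffffffffffffffffffffffffff900ffffffffe]],
[
  .mk 44 8 68 [0x1000, 0x1, 0xfff00fc03f07e0000000000000000000000000000000000000000000000000000000000000000000000]],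
[
  .mk 44 8 68 [0x1000, 0x1, 0x1e000000000000000000000000000000000000000000000000000000000000000000000000000000000000]],
[
  .mk 44 8 68 [0x1000, 0x1, 0x20000000000000000000000000000000000000000000000000000000000000000000000000000000000000]]]

theorem run : RunAll (runX PT.R (Wk.frw PT.R) nl RvT (SMap.evl cT tlT PT.vx ringF)) P :=
  .cons t0 (.cons t1 (.cons t2 (.cons t3 (.cons t4 (.cons t5 (.nil))))))

end Pool.Agent.Lib.MP_5854e1_co.Cz.Sr461
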