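import Pool.Agent.Lib.MP_5854e1_co.Cz.P
import Pool.Agent.Lib.MP_5854e1_co.Tkx
import Pool.Agent.Lib.MP_5854e1_co.RunAll

/-!
# Search, part 89
-/

set_option autoImplicit false
set_option deprecated.oldSectionVars true
set_option maxRecDepth 100000

namespace Pool.Agent.Lib.MP_5854e1_co.Cz.Sr089

open PB

theorem t0 : runX PT.R (Wk.frw PT.R) nl RvT (SMap.evl cT tlT PT.vx ringF) [
  .mk 0 301 7 [0x800000, 0xef]] = true := by
  decide +kernel

theorem t1 : runX PT.R (Wk.frw PT.R) nl RvT (SMap.evl cT tlT PT.vx ringF) [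
  .mk 0 301 7 [0x800000, 0xd00]] = true := by
  decide +kernel

theorem t2 : runX PT.R (Wk.frw PT.R) nl RvT (SMap.evl cT tlT PT.vx ringF) [
  .mk 0 301 7 [0x800000, 0xf000]] = true := by
  decide +kernel

theorem t3 : runX PT.R (Wk.frw PT.R) nl RvT (SMap.evl cT tlT PT.vx ringF) [
  .mk 0 301 7 [0x800000, 0x3ffff0010]] = true := by
  decide +kernel

theorem t4 : runX PT.R (Wk.frw PT.R) nl RvT (SMap.evl cT tlT PT.vx ringF) [
  .mk 0 301 7 [0x800000, 0x200, 0x593]] = true := by
  decide +kernel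

theorem t5 : runX PT.R (Wk.frw PT.R) nl RvT (SMap.evl cT tlT PT.vx ringF) [
  .mk 0 301 7 [0x800000, 0x200, 0xffffff86c],
  .mk 0 301 7 [0x800000, 0x200, 0x200, 0x3]] = true := by
  decide +kernel

/-- The tasks. -/
noncomputable def P : List (List Tk) := [
[
  .mk 0 301 7 [0x800000, 0xef]],
[
  .mk 0 301 7 [0x800000, 0xd00]],
[
  .mk 0 301 7 [0x800000, 0xf000]],
[
  .mk 0 301 7 [0x800000, 0x3ffff0010]],
[
  .mk 0 301 7 [0x800000, 0x200, 0x593]],
[
  .mk 0 301 7 [0x800000, 0x200, 0xffffff86c],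
  .mk 0 301 7 [0x800000, 0x200, 0x200, 0x3]]]

theorem run : RunAll (runX PT.R (Wk.frw PT.R) nl RvT (SMap.evl cT tlT PT.vx ringF)) P :=
  .cons t0 (.cons t1 (.cons t2 (.cons t3 (.cons t4 (.cons t5 (.nil))))))

end Pool.Agent.Lib.MP_5854e1_co.Cz.Sr089

namespace Pool.Agent.Lib.MP_5854e1_co.Cz.Sr121

open PB

theorem t0 : runX PT.R (Wk.frw PT.R) nl RvT (SMap.evl cT tlT PT.vx ringF) [
  .mk 7 2 11 [0x8000, 0xe9ecf]] = true := by
  decide +kernel

theorem t1 : runX PT.R (Wk.frw PT.R) nl RvT (SMap.evl cT tlT PT.vx ringF) [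
  .mk 7 2 11 [0x8000, 0x1e00000]] = true := by
  decide +kernel

theorem t2 : runX PT.R (Wk.frw PT.R) nl RvT (SMap.evl cT tlT PT.vx ringF) [
  .mk 7 2 11 [0x8000, 0x6016130]] = true := by
  decide +kernel

theorem t3 : runX PT.R (Wk.frw PT.R) nl RvT (SMap.evl cT tlT PT.vx ringF) [
  .mk 7 2 11 [0x8000, 0x100000, 0x1f800ffe000000002000000000000000000000000000000000000000]] = true := by
  decide +kernel

theorem t4 : runX PT.R (Wk.frw PT.R) nl RvT (SMap.evl cT tlT PT.vx ringF) [
  .mk 7 2 11 [0x8000, 0x100000, 0xffffffffffffffffffffffffffffffffffffffffffffffffe07ff001ffffffffdfffffffffffffffffffffffffffffffffffffff]] = true := by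
  decide +kernel

theorem t5 : runX PT.R (Wk.frw PT.R) nl RvT (SMap.evl cT tlT PT.vx ringF) [
  .mk 7 2 11 [0x20000, 0x1af]] = true := by
  decide +kernel

/-- The tasks. -/
noncomputable def P : List (List Tk) := [
[
  .mk 7 2 11 [0x8000, 0xe9ecf]],
[
  .mk 7 2 11 [0x8000, 0x1e00000]],
[
  .mk 7 2 11 [0x8000, 0x6016130]],
[
  .mk 7 2 11 [0x8000, 0x100000, 0x1f800ffe000000002000000000000000000000000000000000000000]],
[
  .mk 7 2 11 [0x8000, 0x100000, 0xffffffffffffffffffffffffffffffffffffffffffffffffe07ff001ffffffffdfffffffffffffffffffffffffffffffffffffff]],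
[
  .mk 7 2 11 [0x20000, 0x1af]]]

theorem run : RunAll (runX PT.R (Wk.frw PT.R) nl RvT (SMap.evl cT tlT PT.vx ringF)) P :=
  .cons t0 (.cons t1 (.cons t2 (.cons t3 (.cons t4 (.cons t5 (.nil))))))

end Pool.Agent.Lib.MP_5854e1_co.Cz.Sr121

namespace Pool.Agent.Lib.MP_5854e1_co.Cz.Sr531

open PB

theorem t0 : runX PT.R (Wk.frw PT.R) nl RvT (SMap.evl cT tlT PT.vx ringF) [
  .mk 63 14 57 [0x800, 0x2, 0xffffffffffffffffffffffffffffffff00bffffffffffffffffffffffffffffffffffff]] = true := by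
  decide +kernel

theorem t1 : runX PT.R (Wk.frw PT.R) nl RvT (SMap.evl cT tlT PT.vx ringF) [
  .mk 63 14 57 [0x100000, 0x3fe000000002000000000000000000000000000000000000000]] = true := by
  decide +kernel

theorem t2 : runX PT.R (Wk.frw PT.R) nl RvT (SMap.evl cT tlT PT.vx ringF) [
  .mk 63 14 57 [0x100000, 0xfffffffffffffffffffffffffffffffffffffffffffffffffffffc01ffffffffdfffffffffffffffffffffffffffffffffffffff]] = true := by
  decide +kernel

theorem t3 : runX PT.R (Wk.frw PT.R) nl RvT (SMap.evl cT tlT PT.vx ringF) [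
  .mk 63 14 57 [0x400000, 0x1768b]] = true := by
  decide +kernel

theorem t4 : runX PT.R (Wk.frw PT.R) nl RvT (SMap.evl cT tlT PT.vx ringF) [
  .mk 63 14 57 [0x400000, 0x7e8974]] = true := by
  decide +kernel

theorem t5 : runX PT.R (Wk.frw PT.R) nl RvT (SMap.evl cT tlT PT.vx ringF) [
  .mk 63 15 58 [0x7ffffffeffffff]] = true := by
  decide +kernel

theorem t6 : runX PT.R (Wk.frw PT.R) nl RvT (SMap.evl cT tlT PT.vx ringF) [
  .mk 63 15 58 [0x1000000, 0x183]] = true := by
  decide +kernel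

/-- The tasks. -/
noncomputable def P : List (List Tk) := [
[
  .mk 63 14 57 [0x800, 0x2, 0xffffffffffffffffffffffffffffffff00bffffffffffffffffffffffffffffffffffff]],
[
  .mk 63 14 57 [0x100000, 0x3fe000000002000000000000000000000000000000000000000]],
[
  .mk 63 14 57 [0x100000, 0xfffffffffffffffffffffffffffffffffffffffffffffffffffffc01ffffffffdfffffffffffffffffffffffffffffffffffffff]],
[
  .mk 63 14 57 [0x400000, 0x1768b]],
[
  .mk 63 14 57 [0x400000, 0x7e8974]],
[
  .mk 63 15 58 [0x7ffffffeffffff]],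
[
  .mk 63 15 58 [0x1000000, 0x183]]]

theorem run : RunAll (runX PT.R (Wk.frw PT.R) nl RvT (SMap.evl cT tlT PT.vx ringF)) P :=
  .cons t0 (.cons t1 (.cons t2 (.cons t3 (.cons t4 (.cons t5 (.cons t6 (.nil)))))))

end Pool.Agent.Lib.MP_5854e1_co.Cz.Sr531

namespace Pool.Agent.Lib.MP_5854e1_co.Cz.Sr549

open PB

theorem t0 : runX PT.R (Wk.frw PT.R) nl RvT (SMap.evl cT tlT PT.vx ringF) [
  .mk 68 13 21 [0x400, 0x800000, 0x200, 0x1, 0x19000000000000000000000000000000000]] = true := by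
  decide +kernel

theorem t1 : runX PT.R (Wk.frw PT.R) nl RvT (SMap.evl cT tlT PT.vx ringF) [
  .mk 68 13 21 [0x400, 0x800000, 0x200, 0x1, 0xfffffffffffffffffffffffffffffffffffffffffffffffffffffffffffffffffffffa6ffffffffffffdffffffffffffffffffff]] = true := by
  decide +kernel

theorem t2 : runX PT.R (Wk.frw PT.R) nl RvT (SMap.evl cT tlT PT.vx ringF) [
  .mk 68 13 21 [0x400, 0x800000, 0x200, 0x1, 0x200000000000000000000, 0x20000000000000000000000000000000000000000000000000000000000000000000000]] = true := by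
  decide +kernel

theorem t3 : runX PT.R (Wk.frw PT.R) nl RvT (SMap.evl cT tlT PT.vx ringF) [
  .mk 68 13 21 [0x400, 0x800000, 0x200, 0x1, 0x200000000000000000000, 0xcc0000780000000000000000000000000000000000000000000000000000000000000000000000]] = true := by
  decide +kernel

/-- The tasks. -/
noncomputable def P : List (List Tk) := [
[
  .mk 68 13 21 [0x400, 0x800000, 0x200, 0x1, 0x19000000000000000000000000000000000]],
[
  .mk 68 13 21 [0x400, 0x800000, 0x200, 0x1, 0xfffffffffffffffffffffffffffffffffffffffffffffffffffffffffffffffffffffa6ffffffffffffdffffffffffffffffffff]],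
[
  .mk 68 13 21 [0x400, 0x800000, 0x200, 0x1, 0x200000000000000000000, 0x20000000000000000000000000000000000000000000000000000000000000000000000]],
[
  .mk 68 13 21 [0x400, 0x800000, 0x200, 0x1, 0x200000000000000000000, 0xcc0000780000000000000000000000000000000000000000000000000000000000000000000000]]]

theorem run : RunAll (runX PT.R (Wk.frw PT.R) nl RvT (SMap.evl cT tlT PT.vx ringF)) P :=
  .cons t0 (.cons t1 (.cons t2 (.cons t3 (.nil))))

end Pool.Agent.Lib.MP_5854e1_co.Cz.Sr549
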