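import Pool.Agent.Lib.MP_5854e1_co.Cz.P
import Pool.Agent.Lib.MP_5854e1_co.Tkx
import Pool.Agent.Lib.MP_5854e1_co.RunAll

/-!
# Search, part 90
-/

set_option autoImplicit false
set_option deprecated.oldSectionVars true
set_option maxRecDepth 100000

namespace Pool.Agent.Lib.MP_5854e1_co.Cz.Sr090

open PB

theorem t0 : runX PT.R (Wk.frw PT.R) nl RvT (SMap.evl cT tlT PT.vx ringF) [
  .mk 0 301 7 [0x800000, 0x200, 0x200, 0x1c]] = true := by
  decide +kernel

theorem t1 : runX PT.R (Wk.frw PT.R) nl RvT (SMap.evl cT tlT PT.vx ringF) [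
  .mk 0 301 7 [0x800000, 0x200, 0x200, 0xfffffffe0],
  .mk 0 301 7 [0x10000000, 0x1a00]] = true := by
  decide +kernel

theorem t2 : runX PT.R (Wk.frw PT.R) nl RvT (SMap.evl cT tlT PT.vx ringF) [
  .mk 0 301 7 [0x10000000, 0x2000]] = true := by
  decide +kernel

theorem t3 : runX PT.R (Wk.frw PT.R) nl RvT (SMap.evl cT tlT PT.vx ringF) [
  .mk 0 301 7 [0x10000000, 0x7fc5ff]] = true := by
  decide +kernel

theorem t4 : runX PT.R (Wk.frw PT.R) nl RvT (SMap.evl cT tlT PT.vx ringF) [
  .mk 0 302 8 [0x5]] = true := by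
  decide +kernel

theorem t5 : runX PT.R (Wk.frw PT.R) nl RvT (SMap.evl cT tlT PT.vx ringF) [
  .mk 0 302 8 [0x78]] = true := by
  decide +kernel

/-- The tasks. -/
noncomputable def P : List (List Tk) := [
[
  .mk 0 301 7 [0x800000, 0x200, 0x200, 0x1c]],
[
  .mk 0 301 7 [0x800000, 0x200, 0x200, 0xfffffffe0],
  .mk 0 301 7 [0x10000000, 0x1a00]],
[
  .mk 0 301 7 [0x10000000, 0x2000]],
[
  .mk 0 301 7 [0x10000000, 0x7fc5ff]],
[
  .mk 0 302 8 [0x5]],
[
  .mk 0 302 8 [0x78]]]

theorem run : RunAll (runX PT.R (Wk.frw PT.R) nl RvT (SMap.evl cT tlT PT.vx ringF)) P :=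
  .cons t0 (.cons t1 (.cons t2 (.cons t3 (.cons t4 (.cons t5 (.nil))))))

end Pool.Agent.Lib.MP_5854e1_co.Cz.Sr090

namespace Pool.Agent.Lib.MP_5854e1_co.Cz.Sr095

open PB

theorem t0 : runX PT.R (Wk.frw PT.R) nl RvT (SMap.evl cT tlT PT.vx ringF) [
  .mk 0 332 0 [0xffffffffffffffffffffffffffffffffffffffffffffffffffffffffffecffffdffffffffffffc3fffbfffffffffffffffffffff]] = true := by
  decide +kernel

theorem t1 : runX PT.R (Wk.frw PT.R) nl RvT (SMap.evl cT tlT PT.vx ringF) [
  .mk 0 332 0 [0x40000000000000000000000000, 0x60c]] = true := by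
  decide +kernel

theorem t2 : runX PT.R (Wk.frw PT.R) nl RvT (SMap.evl cT tlT PT.vx ringF) [
  .mk 0 332 0 [0x40000000000000000000000000, 0xffffff9f3]] = true := by
  decide +kernel

theorem t3 : runX PT.R (Wk.frw PT.R) nl RvT (SMap.evl cT tlT PT.vx ringF) [
  .mk 0 332 0 [0x100000000000000000000000000, 0x810000f]] = true := by
  decide +kernel

theorem t4 : runX PT.R (Wk.frw PT.R) nl RvT (SMap.evl cT tlT PT.vx ringF) [
  .mk 0 332 0 [0x100000000000000000000000000, 0xff7effff0]] = true := by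
  decide +kernel

theorem t5 : runX PT.R (Wk.frw PT.R) nl RvT (SMap.evl cT tlT PT.vx ringF) [
  .mk 0 332 0 [0x2000000000000000000000000000000000000000, 0x5001400800000000000000000000000000000000000000000000000000000000000000000000000]] = true := by
  decide +kernel

/-- The tasks. -/
noncomputable def P : List (List Tk) := [
[
  .mk 0 332 0 [0xffffffffffffffffffffffffffffffffffffffffffffffffffffffffffecffffdffffffffffffc3fffbfffffffffffffffffffff]],
[
  .mk 0 332 0 [0x40000000000000000000000000, 0x60c]],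
[
  .mk 0 332 0 [0x40000000000000000000000000, 0xffffff9f3]],
[
  .mk 0 332 0 [0x100000000000000000000000000, 0x810000f]],
[
  .mk 0 332 0 [0x100000000000000000000000000, 0xff7effff0]],
[
  .mk 0 332 0 [0x2000000000000000000000000000000000000000, 0x5001400800000000000000000000000000000000000000000000000000000000000000000000000]]]

theorem run : RunAll (runX PT.R (Wk.frw PT.R) nl RvT (SMap.evl cT tlT PT.vx ringF)) P :=
  .cons t0 (.cons t1 (.cons t2 (.cons t3 (.cons t4 (.cons t5 (.nil))))))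

end Pool.Agent.Lib.MP_5854e1_co.Cz.Sr095

namespace Pool.Agent.Lib.MP_5854e1_co.Cz.Sr360

open PB

theorem t0 : runX PT.R (Wk.frw PT.R) nl RvT (SMap.evl cT tlT PT.vx ringF) [
  .mk 41 2 11 [0x2000, 0x400, 0x800000, 0x1, 0x200000000000000000000, 0x6000000000000000000000000000000000000000000000000000000000000000000]] = true := by
  decide +kernel

theorem t1 : runX PT.R (Wk.frw PT.R) nl RvT (SMap.evl cT tlT PT.vx ringF) [
  .mk 41 2 11 [0x2000, 0x400, 0x800000, 0x1, 0x200000000000000000000, 0x20000000000000000000000000000000000000000000000000000000000000000000]] = true := by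
  decide +kernel

theorem t2 : runX PT.R (Wk.frw PT.R) nl RvT (SMap.evl cT tlT PT.vx ringF) [
  .mk 41 2 11 [0x2000, 0x400, 0x800000, 0x1, 0x200000000000000000000, 0xffffffffffffffffffffffffffffffffffffd97fffffffffffffffffffffffffffffffffffffffffffffffffffffffffffffffff]] = true := by
  decide +kernel

/-- The tasks. -/
noncomputable def P : List (List Tk) := [
[
  .mk 41 2 11 [0x2000, 0x400, 0x800000, 0x1, 0x200000000000000000000, 0x6000000000000000000000000000000000000000000000000000000000000000000]],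
[
  .mk 41 2 11 [0x2000, 0x400, 0x800000, 0x1, 0x200000000000000000000, 0x20000000000000000000000000000000000000000000000000000000000000000000]],
[
  .mk 41 2 11 [0x2000, 0x400, 0x800000, 0x1, 0x200000000000000000000, 0xffffffffffffffffffffffffffffffffffffd97fffffffffffffffffffffffffffffffffffffffffffffffffffffffffffffffff]]]

theorem run : RunAll (runX PT.R (Wk.frw PT.R) nl RvT (SMap.evl cT tlT PT.vx ringF)) P :=
  .cons t0 (.cons t1 (.cons t2 (.nil)))

end Pool.Agent.Lib.MP_5854e1_co.Cz.Sr360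

namespace Pool.Agent.Lib.MP_5854e1_co.Cz.Sr592

open PB

theorem t0 : runX PT.R (Wk.frw PT.R) nl RvT (SMap.evl cT tlT PT.vx ringF) [
  .mk 87 28 53 []] = true := by
  decide +kernel

theorem t1 : runX PT.R (Wk.frw PT.R) nl RvT (SMap.evl cT tlT PT.vx ringF) [
  .mk 87 29 54 [0x1001ff]] = true := by
  decide +kernel

theorem t2 : runX PT.R (Wk.frw PT.R) nl RvT (SMap.evl cT tlT PT.vx ringF) [
  .mk 87 29 54 [0x600000]] = true := by
  decide +kernel

theorem t3 : runX PT.R (Wk.frw PT.R) nl RvT (SMap.evl cT tlT PT.vx ringF) [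
  .mk 87 29 54 [0x78ffe00]] = true := by
  decide +kernel

theorem t4 : runX PT.R (Wk.frw PT.R) nl RvT (SMap.evl cT tlT PT.vx ringF) [
  .mk 87 30 55 [0x1e]] = true := by
  decide +kernel

theorem t5 : runX PT.R (Wk.frw PT.R) nl RvT (SMap.evl cT tlT PT.vx ringF) [
  .mk 87 30 55 [0x7be0]] = true := by
  decide +kernel

/-- The tasks. -/
noncomputable def P : List (List Tk) := [
[
  .mk 87 28 53 []],
[
  .mk 87 29 54 [0x1001ff]],
[
  .mk 87 29 54 [0x600000]],
[
  .mk 87 29 54 [0x78ffe00]],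
[
  .mk 87 30 55 [0x1e]],
[
  .mk 87 30 55 [0x7be0]]]

theorem run : RunAll (runX PT.R (Wk.frw PT.R) nl RvT (SMap.evl cT tlT PT.vx ringF)) P :=
  .cons t0 (.cons t1 (.cons t2 (.cons t3 (.cons t4 (.cons t5 (.nil))))))

end Pool.Agent.Lib.MP_5854e1_co.Cz.Sr592
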