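import Pool.Agent.Lib.MP_5854e1_co.Cz.P
import Pool.Agent.Lib.MP_5854e1_co.Tkx
import Pool.Agent.Lib.MP_5854e1_co.RunAll

/-!
# Search, part 91
-/

set_option autoImplicit false
set_option deprecated.oldSectionVars true
set_option maxRecDepth 100000

namespace Pool.Agent.Lib.MP_5854e1_co.Cz.Sr091

open PB

theorem t0 : runX PT.R (Wk.frw PT.R) nl RvT (SMap.evl cT tlT PT.vx ringF) [
  .mk 0 302 8 [0x7548000]] = true := by
  decide +kernel

theorem t1 : runX PT.R (Wk.frw PT.R) nl RvT (SMap.evl cT tlT PT.vx ringF) [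
  .mk 0 302 8 [0xff0ab7f82]] = true := by
  decide +kernel

theorem t2 : runX PT.R (Wk.frw PT.R) nl RvT (SMap.evl cT tlT PT.vx ringF) [
  .mk 0 302 8 [0x8000000, 0xea1dfd3]] = true := by
  decide +kernel

theorem t3 : runX PT.R (Wk.frw PT.R) nl RvT (SMap.evl cT tlT PT.vx ringF) [
  .mk 0 302 8 [0x8000000, 0xff15e202c],
  .mk 0 303 9 [0x1]] = true := by
  decide +kernel

theorem t4 : runX PT.R (Wk.frw PT.R) nl RvT (SMap.evl cT tlT PT.vx ringF) [
  .mk 0 303 9 [0x30ef6]] = true := by
  decide +kernel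

theorem t5 : runX PT.R (Wk.frw PT.R) nl RvT (SMap.evl cT tlT PT.vx ringF) [
  .mk 0 303 9 [0x3fc0000]] = true := by
  decide +kernel

/-- The tasks. -/
noncomputable def P : List (List Tk) := [
[
  .mk 0 302 8 [0x7548000]],
[
  .mk 0 302 8 [0xff0ab7f82]],
[
  .mk 0 302 8 [0x8000000, 0xea1dfd3]],
[
  .mk 0 302 8 [0x8000000, 0xff15e202c],
  .mk 0 303 9 [0x1]],
[
  .mk 0 303 9 [0x30ef6]],
[
  .mk 0 303 9 [0x3fc0000]]]

theorem run : RunAll (runX PT.R (Wk.frw PT.R) nl RvT (SMap.evl cT tlT PT.vx ringF)) P :=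
  .cons t0 (.cons t1 (.cons t2 (.cons t3 (.cons t4 (.cons t5 (.nil))))))

end Pool.Agent.Lib.MP_5854e1_co.Cz.Sr091

namespace Pool.Agent.Lib.MP_5854e1_co.Cz.Sr244

open PB

theorem t0 : runX PT.R (Wk.frw PT.R) nl RvT (SMap.evl cT tlT PT.vx ringF) [
  .mk 11 13 21 [0x400, 0x800000, 0x1, 0x200000000000000000000, 0x800000000000000000000000000000000000000000000000000000000000000000, 0x8443]] = true := by
  decide +kernel

/-- The tasks. -/
noncomputable def P : List (List Tk) := [
[
  .mk 11 13 21 [0x400, 0x800000, 0x1, 0x200000000000000000000, 0x800000000000000000000000000000000000000000000000000000000000000000, 0x8443]]]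

theorem run : RunAll (runX PT.R (Wk.frw PT.R) nl RvT (SMap.evl cT tlT PT.vx ringF)) P :=
  .cons t0 (.nil)

end Pool.Agent.Lib.MP_5854e1_co.Cz.Sr244

namespace Pool.Agent.Lib.MP_5854e1_co.Cz.Sr400

open PB

theorem t0 : runX PT.R (Wk.frw PT.R) nl RvT (SMap.evl cT tlT PT.vx ringF) [
  .mk 41 13 48 [0x200, 0x1, 0x200000000000000000000, 0x3c03f07e0000000000000000000000000000000000000000000000000000000000000000000000]] = true := by
  decide +kernel

theorem t1 : runX PT.R (Wk.frw PT.R) nl RvT (SMap.evl cT tlT PT.vx ringF) [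
  .mk 41 13 48 [0x200, 0x1, 0x200000000000000000000, 0xffffffffffffffffffffffffffc3fc0f81ffffffffffffffffffffffffffffffffffffffffffffffffffffffffffffffffffffff],
  .mk 41 13 48 [0x200, 0x2, 0x3c03f00ec1f800000000000000000000000000000000000000000000000000000000000]] = true := by
  decide +kernel

theorem t2 : runX PT.R (Wk.frw PT.R) nl RvT (SMap.evl cT tlT PT.vx ringF) [
  .mk 41 13 48 [0x200, 0x2, 0xc3fc0ff03e07fffffffffffffffffffffffffffffffffffffffffffffffffffffffffff]] = true := by
  decide +kernel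

theorem t3 : runX PT.R (Wk.frw PT.R) nl RvT (SMap.evl cT tlT PT.vx ringF) [
  .mk 41 13 48 [0x200, 0x2, 0x1000000000000000000000000000000000000000000000000000000000000000, 0xffffffffffffffffffffffffffffffffffffffffffffffffffffffffffffffffffffffb],
  .mk 41 13 48 [0x200, 0x2, 0x1000000000000000000000000000000000000000000000000000000000000000, 0x4, 0x7ffdff]] = true := by
  decide +kernel

theorem t4 : runX PT.R (Wk.frw PT.R) nl RvT (SMap.evl cT tlT PT.vx ringF) [
  .mk 41 13 48 [0x200, 0x2, 0x1000000000000000000000000000000000000000000000000000000000000000, 0x4, 0x200, 0xffffffffffffffffffffffffffffffffffffffffffffffffffffffffffffffffffffffffffffffffffffffffffffffffffffffff]] = true := by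
  decide +kernel

/-- The tasks. -/
noncomputable def P : List (List Tk) := [
[
  .mk 41 13 48 [0x200, 0x1, 0x200000000000000000000, 0x3c03f07e0000000000000000000000000000000000000000000000000000000000000000000000]],
[
  .mk 41 13 48 [0x200, 0x1, 0x200000000000000000000, 0xffffffffffffffffffffffffffc3fc0f81ffffffffffffffffffffffffffffffffffffffffffffffffffffffffffffffffffffff],
  .mk 41 13 48 [0x200, 0x2, 0x3c03f00ec1f800000000000000000000000000000000000000000000000000000000000]],
[
  .mk 41 13 48 [0x200, 0x2, 0xc3fc0ff03e07fffffffffffffffffffffffffffffffffffffffffffffffffffffffffff]],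
[
  .mk 41 13 48 [0x200, 0x2, 0x1000000000000000000000000000000000000000000000000000000000000000, 0xffffffffffffffffffffffffffffffffffffffffffffffffffffffffffffffffffffffb],
  .mk 41 13 48 [0x200, 0x2, 0x1000000000000000000000000000000000000000000000000000000000000000, 0x4, 0x7ffdff]],
[
  .mk 41 13 48 [0x200, 0x2, 0x1000000000000000000000000000000000000000000000000000000000000000, 0x4, 0x200, 0xffffffffffffffffffffffffffffffffffffffffffffffffffffffffffffffffffffffffffffffffffffffffffffffffffffffff]]]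

theorem run : RunAll (runX PT.R (Wk.frw PT.R) nl RvT (SMap.evl cT tlT PT.vx ringF)) P :=
  .cons t0 (.cons t1 (.cons t2 (.cons t3 (.cons t4 (.nil)))))

end Pool.Agent.Lib.MP_5854e1_co.Cz.Sr400
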