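import Pool.Agent.Lib.MP_5854e1_co.Cz.P
import Pool.Agent.Lib.MP_5854e1_co.Tkx
import Pool.Agent.Lib.MP_5854e1_co.RunAll

/-!
# Search, part 92
-/

set_option autoImplicit false
set_option deprecated.oldSectionVars true
set_option maxRecDepth 100000

namespace Pool.Agent.Lib.MP_5854e1_co.Cz.Sr092

open PB

theorem t0 : runX PT.R (Wk.frw PT.R) nl RvT (SMap.evl cT tlT PT.vx ringF) [
  .mk 0 303 9 [0x3c000000]] = true := by
  decide +kernel

theorem t1 : runX PT.R (Wk.frw PT.R) nl RvT (SMap.evl cT tlT PT.vx ringF) [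
  .mk 0 303 9 [0x3ffffc000f000]] = true := by
  decide +kernel

theorem t2 : runX PT.R (Wk.frw PT.R) nl RvT (SMap.evl cT tlT PT.vx ringF) [
  .mk 0 303 9 [0x8, 0x1b3]] = true := by
  decide +kernel

theorem t3 : runX PT.R (Wk.frw PT.R) nl RvT (SMap.evl cT tlT PT.vx ringF) [
  .mk 0 303 9 [0x8, 0xa600]] = true := by
  decide +kernel

theorem t4 : runX PT.R (Wk.frw PT.R) nl RvT (SMap.evl cT tlT PT.vx ringF) [
  .mk 0 303 9 [0x8, 0x3ffff584c]] = true := by
  decide +kernel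

theorem t5 : runX PT.R (Wk.frw PT.R) nl RvT (SMap.evl cT tlT PT.vx ringF) [
  .mk 0 303 9 [0x100, 0x7bf]] = true := by
  decide +kernel

theorem t6 : runX PT.R (Wk.frw PT.R) nl RvT (SMap.evl cT tlT PT.vx ringF) [
  .mk 0 303 9 [0x100, 0x800]] = true := by
  decide +kernel

/-- The tasks. -/
noncomputable def P : List (List Tk) := [
[
  .mk 0 303 9 [0x3c000000]],
[
  .mk 0 303 9 [0x3ffffc000f000]],
[
  .mk 0 303 9 [0x8, 0x1b3]],
[
  .mk 0 303 9 [0x8, 0xa600]],
[
  .mk 0 303 9 [0x8, 0x3ffff584c]],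
[
  .mk 0 303 9 [0x100, 0x7bf]],
[
  .mk 0 303 9 [0x100, 0x800]]]

theorem run : RunAll (runX PT.R (Wk.frw PT.R) nl RvT (SMap.evl cT tlT PT.vx ringF)) P :=
  .cons t0 (.cons t1 (.cons t2 (.cons t3 (.cons t4 (.cons t5 (.cons t6 (.nil)))))))

end Pool.Agent.Lib.MP_5854e1_co.Cz.Sr092

namespace Pool.Agent.Lib.MP_5854e1_co.Cz.Sr295

open PB

theorem t0 : runX PT.R (Wk.frw PT.R) nl RvT (SMap.evl cT tlT PT.vx ringF) [
  .mk 12 29 55 [0x400, 0x200, 0xfffffffffffffffffffffffffffffffffffffffffffffffffffffffffffffffffffffffffffffffffffdffffffffffac3fff7bfe]] = true := by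
  decide +kernel

theorem t1 : runX PT.R (Wk.frw PT.R) nl RvT (SMap.evl cT tlT PT.vx ringF) [
  .mk 12 29 55 [0x400, 0x200, 0x1, 0x6000000000000000000000000000000000000000000f000000000002000000000000000000000000000000000000000]] = true := by
  decide +kernel

theorem t2 : runX PT.R (Wk.frw PT.R) nl RvT (SMap.evl cT tlT PT.vx ringF) [
  .mk 12 29 55 [0x400, 0x200, 0x1, 0xfffffffff9ffffffffffffffffffffffffffffffffffffffffff0fffffffffffdfffffffffffffffffffffffffffffffffffffff]] = true := by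
  decide +kernel

theorem t3 : runX PT.R (Wk.frw PT.R) nl RvT (SMap.evl cT tlT PT.vx ringF) [
  .mk 12 29 55 [0x400, 0x200, 0x100000000, 0x13]] = true := by
  decide +kernel

theorem t4 : runX PT.R (Wk.frw PT.R) nl RvT (SMap.evl cT tlT PT.vx ringF) [
  .mk 12 29 55 [0x400, 0x200, 0x100000000, 0xfffffffec]] = true := by
  decide +kernel

theorem t5 : runX PT.R (Wk.frw PT.R) nl RvT (SMap.evl cT tlT PT.vx ringF) [
  .mk 12 29 55 [0x400, 0x200, 0x200000000000000000000, 0x3f0000000000000000200000000000000000000]] = true := by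
  decide +kernel

theorem t6 : runX PT.R (Wk.frw PT.R) nl RvT (SMap.evl cT tlT PT.vx ringF) [
  .mk 12 29 55 [0x400, 0x200, 0x200000000000000000000, 0xfffffffffffffffffffffffffffffffffffffffffffffffffffffffffffffffffc0ffffffffffffffffdffffffffffffffffffff]] = true := by
  decide +kernel

/-- The tasks. -/
noncomputable def P : List (List Tk) := [
[
  .mk 12 29 55 [0x400, 0x200, 0xfffffffffffffffffffffffffffffffffffffffffffffffffffffffffffffffffffffffffffffffffffdffffffffffac3fff7bfe]],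
[
  .mk 12 29 55 [0x400, 0x200, 0x1, 0x6000000000000000000000000000000000000000000f000000000002000000000000000000000000000000000000000]],
[
  .mk 12 29 55 [0x400, 0x200, 0x1, 0xfffffffff9ffffffffffffffffffffffffffffffffffffffffff0fffffffffffdfffffffffffffffffffffffffffffffffffffff]],
[
  .mk 12 29 55 [0x400, 0x200, 0x100000000, 0x13]],
[
  .mk 12 29 55 [0x400, 0x200, 0x100000000, 0xfffffffec]],
[
  .mk 12 29 55 [0x400, 0x200, 0x200000000000000000000, 0x3f0000000000000000200000000000000000000]],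
[
  .mk 12 29 55 [0x400, 0x200, 0x200000000000000000000, 0xfffffffffffffffffffffffffffffffffffffffffffffffffffffffffffffffffc0ffffffffffffffffdffffffffffffffffffff]]]

theorem run : RunAll (runX PT.R (Wk.frw PT.R) nl RvT (SMap.evl cT tlT PT.vx ringF)) P :=
  .cons t0 (.cons t1 (.cons t2 (.cons t3 (.cons t4 (.cons t5 (.cons t6 (.nil)))))))

end Pool.Agent.Lib.MP_5854e1_co.Cz.Sr295

namespace Pool.Agent.Lib.MP_5854e1_co.Cz.Sr540

open PB

theorem t0 : runX PT.R (Wk.frw PT.R) nl RvT (SMap.evl cT tlT PT.vx ringF) [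
  .mk 68 11 3 [0xfffffb070]] = true := by
  decide +kernel

theorem t1 : runX PT.R (Wk.frw PT.R) nl RvT (SMap.evl cT tlT PT.vx ringF) [
  .mk 68 11 3 [0x400, 0x17c0000]] = true := by
  decide +kernel

theorem t2 : runX PT.R (Wk.frw PT.R) nl RvT (SMap.evl cT tlT PT.vx ringF) [
  .mk 68 11 3 [0x400, 0x3fffffe83ffff]] = true := by
  decide +kernel

theorem t3 : runX PT.R (Wk.frw PT.R) nl RvT (SMap.evl cT tlT PT.vx ringF) [
  .mk 68 11 3 [0x4000, 0x5]] = true := by
  decide +kernel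

theorem t4 : runX PT.R (Wk.frw PT.R) nl RvT (SMap.evl cT tlT PT.vx ringF) [
  .mk 68 11 3 [0x4000, 0xffffffffa],
  .mk 68 12 20 []] = true := by
  decide +kernel

theorem t5 : runX PT.R (Wk.frw PT.R) nl RvT (SMap.evl cT tlT PT.vx ringF) [
  .mk 68 13 21 [0x5]] = true := by
  decide +kernel

theorem t6 : runX PT.R (Wk.frw PT.R) nl RvT (SMap.evl cT tlT PT.vx ringF) [
  .mk 68 13 21 [0x1a8]] = true := by
  decide +kernel

/-- The tasks. -/
noncomputable def P : List (List Tk) := [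
[
  .mk 68 11 3 [0xfffffb070]],
[
  .mk 68 11 3 [0x400, 0x17c0000]],
[
  .mk 68 11 3 [0x400, 0x3fffffe83ffff]],
[
  .mk 68 11 3 [0x4000, 0x5]],
[
  .mk 68 11 3 [0x4000, 0xffffffffa],
  .mk 68 12 20 []],
[
  .mk 68 13 21 [0x5]],
[
  .mk 68 13 21 [0x1a8]]]

theorem run : RunAll (runX PT.R (Wk.frw PT.R) nl RvT (SMap.evl cT tlT PT.vx ringF)) P :=
  .cons t0 (.cons t1 (.cons t2 (.cons t3 (.cons t4 (.cons t5 (.cons t6 (.nil)))))))

end Pool.Agent.Lib.MP_5854e1_co.Cz.Sr540
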