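import Pool.Agent.Lib.MP_5854e1_co.Cz.P
import Pool.Agent.Lib.MP_5854e1_co.Tkx
import Pool.Agent.Lib.MP_5854e1_co.RunAll

/-!
# Search, part 93
-/

set_option autoImplicit false
set_option deprecated.oldSectionVars true
set_option maxRecDepth 100000

namespace Pool.Agent.Lib.MP_5854e1_co.Cz.Sr093

open PB

theorem t0 : runX PT.R (Wk.frw PT.R) nl RvT (SMap.evl cT tlT PT.vx ringF) [
  .mk 0 303 9 [0x100, 0x7ff040],
  .mk 0 304 15 []] = true := by
  decide +kernel

theorem t1 : runX PT.R (Wk.frw PT.R) nl RvT (SMap.evl cT tlT PT.vx ringF) [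
  .mk 0 305 16 [0xa10806f]] = true := by
  decide +kernel

theorem t2 : runX PT.R (Wk.frw PT.R) nl RvT (SMap.evl cT tlT PT.vx ringF) [
  .mk 0 305 16 [0xff5ef7f90]] = true := by
  decide +kernel

theorem t3 : runX PT.R (Wk.frw PT.R) nl RvT (SMap.evl cT tlT PT.vx ringF) [
  .mk 0 306 0 [0xffffffffffffffffffffffffffffffffffffffffffffffffffffffffffffffbfffffffffffffffffffffffffffffffffffffffff]] = true := by
  decide +kernel

theorem t4 : runX PT.R (Wk.frw PT.R) nl RvT (SMap.evl cT tlT PT.vx ringF) [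
  .mk 0 306 0 [0x400000000000000000000000000000000000000000, 0x7001fd]] = true := by
  decide +kernel

theorem t5 : runX PT.R (Wk.frw PT.R) nl RvT (SMap.evl cT tlT PT.vx ringF) [
  .mk 0 306 0 [0x400000000000000000000000000000000000000000, 0x800000]] = true := by
  decide +kernel

theorem t6 : runX PT.R (Wk.frw PT.R) nl RvT (SMap.evl cT tlT PT.vx ringF) [
  .mk 0 306 0 [0x400000000000000000000000000000000000000000, 0x1000000]] = true := by
  decide +kernel

/-- The tasks. -/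
noncomputable def P : List (List Tk) := [
[
  .mk 0 303 9 [0x100, 0x7ff040],
  .mk 0 304 15 []],
[
  .mk 0 305 16 [0xa10806f]],
[
  .mk 0 305 16 [0xff5ef7f90]],
[
  .mk 0 306 0 [0xffffffffffffffffffffffffffffffffffffffffffffffffffffffffffffffbfffffffffffffffffffffffffffffffffffffffff]],
[
  .mk 0 306 0 [0x400000000000000000000000000000000000000000, 0x7001fd]],
[
  .mk 0 306 0 [0x400000000000000000000000000000000000000000, 0x800000]],
[
  .mk 0 306 0 [0x400000000000000000000000000000000000000000, 0x1000000]]]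

theorem run : RunAll (runX PT.R (Wk.frw PT.R) nl RvT (SMap.evl cT tlT PT.vx ringF)) P :=
  .cons t0 (.cons t1 (.cons t2 (.cons t3 (.cons t4 (.cons t5 (.cons t6 (.nil)))))))

end Pool.Agent.Lib.MP_5854e1_co.Cz.Sr093

namespace Pool.Agent.Lib.MP_5854e1_co.Cz.Sr330

open PB

theorem t0 : runX PT.R (Wk.frw PT.R) nl RvT (SMap.evl cT tlT PT.vx ringF) [
  .mk 35 3 12 [0xe0000]] = true := by
  decide +kernel

theorem t1 : runX PT.R (Wk.frw PT.R) nl RvT (SMap.evl cT tlT PT.vx ringF) [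
  .mk 35 3 12 [0x2d00000]] = true := by
  decide +kernel

theorem t2 : runX PT.R (Wk.frw PT.R) nl RvT (SMap.evl cT tlT PT.vx ringF) [
  .mk 35 3 12 [0x8000000]] = true := by
  decide +kernel

theorem t3 : runX PT.R (Wk.frw PT.R) nl RvT (SMap.evl cT tlT PT.vx ringF) [
  .mk 35 3 12 [0x50000000]] = true := by
  decide +kernel

theorem t4 : runX PT.R (Wk.frw PT.R) nl RvT (SMap.evl cT tlT PT.vx ringF) [
  .mk 35 3 12 [0x38021fdff]] = true := by
  decide +kernel

theorem t5 : runX PT.R (Wk.frw PT.R) nl RvT (SMap.evl cT tlT PT.vx ringF) [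
  .mk 35 3 12 [0x1000000, 0x3f1]] = true := by
  decide +kernel

/-- The tasks. -/
noncomputable def P : List (List Tk) := [
[
  .mk 35 3 12 [0xe0000]],
[
  .mk 35 3 12 [0x2d00000]],
[
  .mk 35 3 12 [0x8000000]],
[
  .mk 35 3 12 [0x50000000]],
[
  .mk 35 3 12 [0x38021fdff]],
[
  .mk 35 3 12 [0x1000000, 0x3f1]]]

theorem run : RunAll (runX PT.R (Wk.frw PT.R) nl RvT (SMap.evl cT tlT PT.vx ringF)) P :=
  .cons t0 (.cons t1 (.cons t2 (.cons t3 (.cons t4 (.cons t5 (.nil))))))

end Pool.Agent.Lib.MP_5854e1_co.Cz.Sr330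

namespace Pool.Agent.Lib.MP_5854e1_co.Cz.Sr356

open PB

theorem t0 : runX PT.R (Wk.frw PT.R) nl RvT (SMap.evl cT tlT PT.vx ringF) [
  .mk 41 2 11 [0x200, 0xffffffffffffffffffffffffffffffffffffffffffffffffffffffffc0bfbfffdfffffffffffffffffffffffffffffffffdfffff],
  .mk 41 2 11 [0x800, 0x7]] = true := by
  decide +kernel

theorem t1 : runX PT.R (Wk.frw PT.R) nl RvT (SMap.evl cT tlT PT.vx ringF) [
  .mk 41 2 11 [0x800, 0xffffffff8]] = true := by
  decide +kernel

theorem t2 : runX PT.R (Wk.frw PT.R) nl RvT (SMap.evl cT tlT PT.vx ringF) [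
  .mk 41 2 11 [0x1000, 0xd81f00000000000000000000000000000da1400400000001]] = true := by
  decide +kernel

theorem t3 : runX PT.R (Wk.frw PT.R) nl RvT (SMap.evl cT tlT PT.vx ringF) [
  .mk 41 2 11 [0x1000, 0xfffffffffffffffffffffff27e0fffffffffffffffffffffffffffff25ebffbfffffffe]] = true := by
  decide +kernel

theorem t4 : runX PT.R (Wk.frw PT.R) nl RvT (SMap.evl cT tlT PT.vx ringF) [
  .mk 41 2 11 [0x2000, 0x98993]] = true := by
  decide +kernel

theorem t5 : runX PT.R (Wk.frw PT.R) nl RvT (SMap.evl cT tlT PT.vx ringF) [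
  .mk 41 2 11 [0x2000, 0xffff6206c]] = true := by
  decide +kernel

/-- The tasks. -/
noncomputable def P : List (List Tk) := [
[
  .mk 41 2 11 [0x200, 0xffffffffffffffffffffffffffffffffffffffffffffffffffffffffc0bfbfffdfffffffffffffffffffffffffffffffffdfffff],
  .mk 41 2 11 [0x800, 0x7]],
[
  .mk 41 2 11 [0x800, 0xffffffff8]],
[
  .mk 41 2 11 [0x1000, 0xd81f00000000000000000000000000000da1400400000001]],
[
  .mk 41 2 11 [0x1000, 0xfffffffffffffffffffffff27e0fffffffffffffffffffffffffffff25ebffbfffffffe]],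
[
  .mk 41 2 11 [0x2000, 0x98993]],
[
  .mk 41 2 11 [0x2000, 0xffff6206c]]]

theorem run : RunAll (runX PT.R (Wk.frw PT.R) nl RvT (SMap.evl cT tlT PT.vx ringF)) P :=
  .cons t0 (.cons t1 (.cons t2 (.cons t3 (.cons t4 (.cons t5 (.nil))))))

end Pool.Agent.Lib.MP_5854e1_co.Cz.Sr356

namespace Pool.Agent.Lib.MP_5854e1_co.Cz.Sr408

open PB

theorem t0 : runX PT.R (Wk.frw PT.R) nl RvT (SMap.evl cT tlT PT.vx ringF) [
  .mk 41 18 25 [0x31a0000]] = true := by
  decide +kernel

theorem t1 : runX PT.R (Wk.frw PT.R) nl RvT (SMap.evl cT tlT PT.vx ringF) [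
  .mk 41 18 25 [0x18000000]] = true := by
  decide +kernel

theorem t2 : runX PT.R (Wk.frw PT.R) nl RvT (SMap.evl cT tlT PT.vx ringF) [
  .mk 41 18 25 [0x60000000]] = true := by
  decide +kernel

theorem t3 : runX PT.R (Wk.frw PT.R) nl RvT (SMap.evl cT tlT PT.vx ringF) [
  .mk 41 18 25 [0x80000000]] = true := by
  decide +kernel

theorem t4 : runX PT.R (Wk.frw PT.R) nl RvT (SMap.evl cT tlT PT.vx ringF) [
  .mk 41 18 25 [0x300e1ffff],
  .mk 41 18 25 [0x40000, 0xfffffffefffffffffffffffffffffffffffffffffffffffffffffffffffffffffffffff]] = true := by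
  decide +kernel

theorem t5 : runX PT.R (Wk.frw PT.R) nl RvT (SMap.evl cT tlT PT.vx ringF) [
  .mk 41 18 25 [0x40000, 0x1000000000000000000000000000000000000000000000000000000000000000, 0xc0d]] = true := by
  decide +kernel

/-- The tasks. -/
noncomputable def P : List (List Tk) := [
[
  .mk 41 18 25 [0x31a0000]],
[
  .mk 41 18 25 [0x18000000]],
[
  .mk 41 18 25 [0x60000000]],
[
  .mk 41 18 25 [0x80000000]],
[
  .mk 41 18 25 [0x300e1ffff],
  .mk 41 18 25 [0x40000, 0xfffffffefffffffffffffffffffffffffffffffffffffffffffffffffffffffffffffff]],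
[
  .mk 41 18 25 [0x40000, 0x1000000000000000000000000000000000000000000000000000000000000000, 0xc0d]]]

theorem run : RunAll (runX PT.R (Wk.frw PT.R) nl RvT (SMap.evl cT tlT PT.vx ringF)) P :=
  .cons t0 (.cons t1 (.cons t2 (.cons t3 (.cons t4 (.cons t5 (.nil))))))

end Pool.Agent.Lib.MP_5854e1_co.Cz.Sr408
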