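import Pool.Agent.Lib.MP_5854e1_co.Cz.P
import Pool.Agent.Lib.MP_5854e1_co.Tkx
import Pool.Agent.Lib.MP_5854e1_co.RunAll

/-!
# Search, part 96
-/

set_option autoImplicit false
set_option deprecated.oldSectionVars true
set_option maxRecDepth 100000

namespace Pool.Agent.Lib.MP_5854e1_co.Cz.Sr096

open PB

theorem t0 : runX PT.R (Wk.frw PT.R) nl RvT (SMap.evl cT tlT PT.vx ringF) [
  .mk 0 332 0 [0x2000000000000000000000000000000000000000, 0xfffffffffffffffffffffffffaffebff7fffffffffffffffffffffffffffffffffffffffffffffffffffffffffffffffffffffff],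
  .mk 0 332 0 [0x1000000000000000000000000000000000000000000000, 0x7]] = true := by
  decide +kernel

theorem t1 : runX PT.R (Wk.frw PT.R) nl RvT (SMap.evl cT tlT PT.vx ringF) [
  .mk 0 332 0 [0x1000000000000000000000000000000000000000000000, 0x48]] = true := by
  decide +kernel

theorem t2 : runX PT.R (Wk.frw PT.R) nl RvT (SMap.evl cT tlT PT.vx ringF) [
  .mk 0 332 0 [0x1000000000000000000000000000000000000000000000, 0xe00]] = true := by
  decide +kernel

theorem t3 : runX PT.R (Wk.frw PT.R) nl RvT (SMap.evl cT tlT PT.vx ringF) [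
  .mk 0 332 0 [0x1000000000000000000000000000000000000000000000, 0xffffff1b0]] = true := by
  decide +kernel

theorem t4 : runX PT.R (Wk.frw PT.R) nl RvT (SMap.evl cT tlT PT.vx ringF) [
  .mk 0 333 7 [0x3e0000000000000000000000000000000000000001400000000000000000000]] = true := by
  decide +kernel

/-- The tasks. -/
noncomputable def P : List (List Tk) := [
[
  .mk 0 332 0 [0x2000000000000000000000000000000000000000, 0xfffffffffffffffffffffffffaffebff7fffffffffffffffffffffffffffffffffffffffffffffffffffffffffffffffffffffff],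
  .mk 0 332 0 [0x1000000000000000000000000000000000000000000000, 0x7]],
[
  .mk 0 332 0 [0x1000000000000000000000000000000000000000000000, 0x48]],
[
  .mk 0 332 0 [0x1000000000000000000000000000000000000000000000, 0xe00]],
[
  .mk 0 332 0 [0x1000000000000000000000000000000000000000000000, 0xffffff1b0]],
[
  .mk 0 333 7 [0x3e0000000000000000000000000000000000000001400000000000000000000]]]

theorem run : RunAll (runX PT.R (Wk.frw PT.R) nl RvT (SMap.evl cT tlT PT.vx ringF)) P :=
  .cons t0 (.cons t1 (.cons t2 (.cons t3 (.cons t4 (.nil)))))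

end Pool.Agent.Lib.MP_5854e1_co.Cz.Sr096

namespace Pool.Agent.Lib.MP_5854e1_co.Cz.Sr187

open PB

theorem t0 : runX PT.R (Wk.frw PT.R) nl RvT (SMap.evl cT tlT PT.vx ringF) [
  .mk 8 9 41 [0xff1a97f80]] = true := by
  decide +kernel

theorem t1 : runX PT.R (Wk.frw PT.R) nl RvT (SMap.evl cT tlT PT.vx ringF) [
  .mk 8 9 41 [0x1, 0x1f0ffe00000000200000000000000000000]] = true := by
  decide +kernel

theorem t2 : runX PT.R (Wk.frw PT.R) nl RvT (SMap.evl cT tlT PT.vx ringF) [
  .mk 8 9 41 [0x1, 0xfffffffffffffffffffffffffffffffffffffffffffffffffffffffffffffffffffffe0f001ffffffffdffffffffffffffffffff]] = true := by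
  decide +kernel

theorem t3 : runX PT.R (Wk.frw PT.R) nl RvT (SMap.evl cT tlT PT.vx ringF) [
  .mk 8 9 41 [0x4, 0x34c8f]] = true := by
  decide +kernel

theorem t4 : runX PT.R (Wk.frw PT.R) nl RvT (SMap.evl cT tlT PT.vx ringF) [
  .mk 8 9 41 [0x4, 0x7c8170]] = true := by
  decide +kernel

theorem t5 : runX PT.R (Wk.frw PT.R) nl RvT (SMap.evl cT tlT PT.vx ringF) [
  .mk 8 9 41 [0x4, 0x200, 0x53c04808200000000000000000000000000000002a780143]] = true := by
  decide +kernel

theorem t6 : runX PT.R (Wk.frw PT.R) nl RvT (SMap.evl cT tlT PT.vx ringF) [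
  .mk 8 9 41 [0x4, 0x200, 0xffffffffffffffffffffffffffffffffffffffffffffffffffffffffac3fb7f7dfffffffffffffffffffffffffffffffd587febc]] = true := by
  decide +kernel

/-- The tasks. -/
noncomputable def P : List (List Tk) := [
[
  .mk 8 9 41 [0xff1a97f80]],
[
  .mk 8 9 41 [0x1, 0x1f0ffe00000000200000000000000000000]],
[
  .mk 8 9 41 [0x1, 0xfffffffffffffffffffffffffffffffffffffffffffffffffffffffffffffffffffffe0f001ffffffffdffffffffffffffffffff]],
[
  .mk 8 9 41 [0x4, 0x34c8f]],
[
  .mk 8 9 41 [0x4, 0x7c8170]],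
[
  .mk 8 9 41 [0x4, 0x200, 0x53c04808200000000000000000000000000000002a780143]],
[
  .mk 8 9 41 [0x4, 0x200, 0xffffffffffffffffffffffffffffffffffffffffffffffffffffffffac3fb7f7dfffffffffffffffffffffffffffffffd587febc]]]

theorem run : RunAll (runX PT.R (Wk.frw PT.R) nl RvT (SMap.evl cT tlT PT.vx ringF)) P :=
  .cons t0 (.cons t1 (.cons t2 (.cons t3 (.cons t4 (.cons t5 (.cons t6 (.nil)))))))

end Pool.Agent.Lib.MP_5854e1_co.Cz.Sr187

namespace Pool.Agent.Lib.MP_5854e1_co.Cz.Sr225

open PB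

theorem t0 : runX PT.R (Wk.frw PT.R) nl RvT (SMap.evl cT tlT PT.vx ringF) [
  .mk 10 8 32 [],
  .mk 10 9 50 [],
  .mk 10 10 51 []] = true := by
  decide +kernel

theorem t1 : runX PT.R (Wk.frw PT.R) nl RvT (SMap.evl cT tlT PT.vx ringF) [
  .mk 10 11 52 [0x1d3]] = true := by
  decide +kernel

theorem t2 : runX PT.R (Wk.frw PT.R) nl RvT (SMap.evl cT tlT PT.vx ringF) [
  .mk 10 11 52 [0x1e00]] = true := by
  decide +kernel

theorem t3 : runX PT.R (Wk.frw PT.R) nl RvT (SMap.evl cT tlT PT.vx ringF) [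
  .mk 10 11 52 [0xfffffe02c],
  .mk 10 12 53 []] = true := by
  decide +kernel

theorem t4 : runX PT.R (Wk.frw PT.R) nl RvT (SMap.evl cT tlT PT.vx ringF) [
  .mk 10 13 54 [],
  .mk 10 14 55 [],
  .mk 10 15 56 [],
  .mk 10 16 57 [],
  .mk 10 17 58 [],
  .mk 10 18 59 [],
  .mk 10 19 60 []] = true := by
  decide +kernel

theorem t5 : runX PT.R (Wk.frw PT.R) nl RvT (SMap.evl cT tlT PT.vx ringF) [
  .mk 10 20 0 [0x600000000200000000000000000000]] = true := by
  decide +kernel

/-- The tasks. -/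
noncomputable def P : List (List Tk) := [
[
  .mk 10 8 32 [],
  .mk 10 9 50 [],
  .mk 10 10 51 []],
[
  .mk 10 11 52 [0x1d3]],
[
  .mk 10 11 52 [0x1e00]],
[
  .mk 10 11 52 [0xfffffe02c],
  .mk 10 12 53 []],
[
  .mk 10 13 54 [],
  .mk 10 14 55 [],
  .mk 10 15 56 [],
  .mk 10 16 57 [],
  .mk 10 17 58 [],
  .mk 10 18 59 [],
  .mk 10 19 60 []],
[
  .mk 10 20 0 [0x600000000200000000000000000000]]]

theorem run : RunAll (runX PT.R (Wk.frw PT.R) nl RvT (SMap.evl cT tlT PT.vx ringF)) P :=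
  .cons t0 (.cons t1 (.cons t2 (.cons t3 (.cons t4 (.cons t5 (.nil))))))

end Pool.Agent.Lib.MP_5854e1_co.Cz.Sr225
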