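import Pool.Agent.Lib.MP_5854e1_co.Cz.P
import Pool.Agent.Lib.MP_5854e1_co.Tkx
import Pool.Agent.Lib.MP_5854e1_co.RunAll

/-!
# Search, part 100
-/

set_option autoImplicit false
set_option deprecated.oldSectionVars true
set_option maxRecDepth 100000

namespace Pool.Agent.Lib.MP_5854e1_co.Cz.Sr100

open PB

theorem t0 : runX PT.R (Wk.frw PT.R) nl RvT (SMap.evl cT tlT PT.vx ringF) [
  .mk 0 348 9 [0x90f7f]] = true := by
  decide +kernel

theorem t1 : runX PT.R (Wk.frw PT.R) nl RvT (SMap.evl cT tlT PT.vx ringF) [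
  .mk 0 348 9 [0x3fffffff6f080],
  .mk 0 349 15 [],
  .mk 0 350 16 [],
  .mk 0 351 0 [],
  .mk 0 352 1 [],
  .mk 0 353 7 [],
  .mk 0 354 15 [],
  .mk 0 355 20 [],
  .mk 0 356 28 []] = true := by
  decide +kernel

theorem t2 : runX PT.R (Wk.frw PT.R) nl RvT (SMap.evl cT tlT PT.vx ringF) [
  .mk 0 357 0 [],
  .mk 0 358 1 []] = true := by
  decide +kernel

theorem t3 : runX PT.R (Wk.frw PT.R) nl RvT (SMap.evl cT tlT PT.vx ringF) [
  .mk 0 359 3 [],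
  .mk 0 360 20 []] = true := by
  decide +kernel

theorem t4 : runX PT.R (Wk.frw PT.R) nl RvT (SMap.evl cT tlT PT.vx ringF) [
  .mk 0 361 21 []] = true := by
  decide +kernel

theorem t5 : runX PT.R (Wk.frw PT.R) nl RvT (SMap.evl cT tlT PT.vx ringF) [
  .mk 0 362 22 [0x1f]] = true := by
  decide +kernel

theorem t6 : runX PT.R (Wk.frw PT.R) nl RvT (SMap.evl cT tlT PT.vx ringF) [
  .mk 0 362 22 [0x260]] = true := by
  decide +kernel

/-- The tasks. -/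
noncomputable def P : List (List Tk) := [
[
  .mk 0 348 9 [0x90f7f]],
[
  .mk 0 348 9 [0x3fffffff6f080],
  .mk 0 349 15 [],
  .mk 0 350 16 [],
  .mk 0 351 0 [],
  .mk 0 352 1 [],
  .mk 0 353 7 [],
  .mk 0 354 15 [],
  .mk 0 355 20 [],
  .mk 0 356 28 []],
[
  .mk 0 357 0 [],
  .mk 0 358 1 []],
[
  .mk 0 359 3 [],
  .mk 0 360 20 []],
[
  .mk 0 361 21 []],
[
  .mk 0 362 22 [0x1f]],
[
  .mk 0 362 22 [0x260]]]

theorem run : RunAll (runX PT.R (Wk.frw PT.R) nl RvT (SMap.evl cT tlT PT.vx ringF)) P :=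
  .cons t0 (.cons t1 (.cons t2 (.cons t3 (.cons t4 (.cons t5 (.cons t6 (.nil)))))))

end Pool.Agent.Lib.MP_5854e1_co.Cz.Sr100

namespace Pool.Agent.Lib.MP_5854e1_co.Cz.Sr117

open PB

theorem t0 : runX PT.R (Wk.frw PT.R) nl RvT (SMap.evl cT tlT PT.vx ringF) [
  .mk 4 9 8 [0x400, 0x3fffffc03ffff],
  .mk 4 10 9 [],
  .mk 4 11 10 [],
  .mk 4 12 15 [],
  .mk 4 13 16 []] = true := by
  decide +kernel

theorem t1 : runX PT.R (Wk.frw PT.R) nl RvT (SMap.evl cT tlT PT.vx ringF) [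
  .mk 5 0 0 [],
  .mk 5 1 1 [],
  .mk 5 2 2 [],
  .mk 5 3 7 [],
  .mk 5 4 8 [],
  .mk 5 5 9 [],
  .mk 5 6 10 [],
  .mk 5 7 15 [],
  .mk 5 8 16 [],
  .mk 5 9 0 [],
  .mk 5 10 1 []] = true := by
  decide +kernel

theorem t2 : runX PT.R (Wk.frw PT.R) nl RvT (SMap.evl cT tlT PT.vx ringF) [
  .mk 5 11 3 [0xf4d]] = true := by
  decide +kernel

theorem t3 : runX PT.R (Wk.frw PT.R) nl RvT (SMap.evl cT tlT PT.vx ringF) [
  .mk 5 11 3 [0xffffff032],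
  .mk 5 11 3 [0x80, 0xec09]] = true := by
  decide +kernel

theorem t4 : runX PT.R (Wk.frw PT.R) nl RvT (SMap.evl cT tlT PT.vx ringF) [
  .mk 5 11 3 [0x80, 0xf13f6]] = true := by
  decide +kernel

theorem t5 : runX PT.R (Wk.frw PT.R) nl RvT (SMap.evl cT tlT PT.vx ringF) [
  .mk 5 12 20 [],
  .mk 5 13 28 [],
  .mk 5 14 0 [],
  .mk 5 15 7 [],
  .mk 5 16 15 [],
  .mk 5 17 20 [],
  .mk 5 18 28 [],
  .mk 7 0 0 [],
  .mk 7 1 7 []] = true := by
  decide +kernel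

/-- The tasks. -/
noncomputable def P : List (List Tk) := [
[
  .mk 4 9 8 [0x400, 0x3fffffc03ffff],
  .mk 4 10 9 [],
  .mk 4 11 10 [],
  .mk 4 12 15 [],
  .mk 4 13 16 []],
[
  .mk 5 0 0 [],
  .mk 5 1 1 [],
  .mk 5 2 2 [],
  .mk 5 3 7 [],
  .mk 5 4 8 [],
  .mk 5 5 9 [],
  .mk 5 6 10 [],
  .mk 5 7 15 [],
  .mk 5 8 16 [],
  .mk 5 9 0 [],
  .mk 5 10 1 []],
[
  .mk 5 11 3 [0xf4d]],
[
  .mk 5 11 3 [0xffffff032],
  .mk 5 11 3 [0x80, 0xec09]],
[
  .mk 5 11 3 [0x80, 0xf13f6]],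
[
  .mk 5 12 20 [],
  .mk 5 13 28 [],
  .mk 5 14 0 [],
  .mk 5 15 7 [],
  .mk 5 16 15 [],
  .mk 5 17 20 [],
  .mk 5 18 28 [],
  .mk 7 0 0 [],
  .mk 7 1 7 []]]

theorem run : RunAll (runX PT.R (Wk.frw PT.R) nl RvT (SMap.evl cT tlT PT.vx ringF)) P :=
  .cons t0 (.cons t1 (.cons t2 (.cons t3 (.cons t4 (.cons t5 (.nil))))))

end Pool.Agent.Lib.MP_5854e1_co.Cz.Sr117

namespace Pool.Agent.Lib.MP_5854e1_co.Cz.Sr145

open PB

theorem t0 : runX PT.R (Wk.frw PT.R) nl RvT (SMap.evl cT tlT PT.vx ringF) [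
  .mk 7 28 68 [0x4000, 0x3df]] = true := by
  decide +kernel

theorem t1 : runX PT.R (Wk.frw PT.R) nl RvT (SMap.evl cT tlT PT.vx ringF) [
  .mk 7 28 68 [0x4000, 0x7007ff800]] = true := by
  decide +kernel

theorem t2 : runX PT.R (Wk.frw PT.R) nl RvT (SMap.evl cT tlT PT.vx ringF) [
  .mk 7 28 68 [0x4000, 0x1f4800000000]] = true := by
  decide +kernel

theorem t3 : runX PT.R (Wk.frw PT.R) nl RvT (SMap.evl cT tlT PT.vx ringF) [
  .mk 7 28 68 [0x4000, 0x3e0b0ff800000]] = true := by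
  decide +kernel

theorem t4 : runX PT.R (Wk.frw PT.R) nl RvT (SMap.evl cT tlT PT.vx ringF) [
  .mk 7 28 68 [0x4000, 0x20, 0x702007f]] = true := by
  decide +kernel

/-- The tasks. -/
noncomputable def P : List (List Tk) := [
[
  .mk 7 28 68 [0x4000, 0x3df]],
[
  .mk 7 28 68 [0x4000, 0x7007ff800]],
[
  .mk 7 28 68 [0x4000, 0x1f4800000000]],
[
  .mk 7 28 68 [0x4000, 0x3e0b0ff800000]],
[
  .mk 7 28 68 [0x4000, 0x20, 0x702007f]]]

theorem run : RunAll (runX PT.R (Wk.frw PT.R) nl RvT (SMap.evl cT tlT PT.vx ringF)) P :=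
  .cons t0 (.cons t1 (.cons t2 (.cons t3 (.cons t4 (.nil)))))

end Pool.Agent.Lib.MP_5854e1_co.Cz.Sr145

namespace Pool.Agent.Lib.MP_5854e1_co.Cz.Sr184

open PB

theorem t0 : runX PT.R (Wk.frw PT.R) nl RvT (SMap.evl cT tlT PT.vx ringF) [
  .mk 8 7 39 [0x10000, 0x400, 0x2000000000, 0x348b]] = true := by
  decide +kernel

theorem t1 : runX PT.R (Wk.frw PT.R) nl RvT (SMap.evl cT tlT PT.vx ringF) [
  .mk 8 7 39 [0x10000, 0x400, 0x2000000000, 0x7c974]] = true := by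
  decide +kernel

theorem t2 : runX PT.R (Wk.frw PT.R) nl RvT (SMap.evl cT tlT PT.vx ringF) [
  .mk 8 7 39 [0x10000, 0x400, 0x2000000000, 0x200, 0x200000000000000008401]] = true := by
  decide +kernel

theorem t3 : runX PT.R (Wk.frw PT.R) nl RvT (SMap.evl cT tlT PT.vx ringF) [
  .mk 8 7 39 [0x10000, 0x400, 0x2000000000, 0x200, 0xfffffffffffffffffffffffffffffffffffffffffffffffffffffffffffffffffffffffffffffffffffdffffffffffffffff7bfe]] = true := by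
  decide +kernel

theorem t4 : runX PT.R (Wk.frw PT.R) nl RvT (SMap.evl cT tlT PT.vx ringF) [
  .mk 8 7 39 [0x10000, 0x400, 0x10000000000, 0x8b]] = true := by
  decide +kernel

theorem t5 : runX PT.R (Wk.frw PT.R) nl RvT (SMap.evl cT tlT PT.vx ringF) [
  .mk 8 7 39 [0x10000, 0x400, 0x10000000000, 0x7ff74]] = true := by
  decide +kernel

theorem t6 : runX PT.R (Wk.frw PT.R) nl RvT (SMap.evl cT tlT PT.vx ringF) [
  .mk 8 7 39 [0x10000, 0x1000, 0x9c00000200000]] = true := by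
  decide +kernel

/-- The tasks. -/
noncomputable def P : List (List Tk) := [
[
  .mk 8 7 39 [0x10000, 0x400, 0x2000000000, 0x348b]],
[
  .mk 8 7 39 [0x10000, 0x400, 0x2000000000, 0x7c974]],
[
  .mk 8 7 39 [0x10000, 0x400, 0x2000000000, 0x200, 0x200000000000000008401]],
[
  .mk 8 7 39 [0x10000, 0x400, 0x2000000000, 0x200, 0xfffffffffffffffffffffffffffffffffffffffffffffffffffffffffffffffffffffffffffffffffffdffffffffffffffff7bfe]],
[
  .mk 8 7 39 [0x10000, 0x400, 0x10000000000, 0x8b]],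
[
  .mk 8 7 39 [0x10000, 0x400, 0x10000000000, 0x7ff74]],
[
  .mk 8 7 39 [0x10000, 0x1000, 0x9c00000200000]]]

theorem run : RunAll (runX PT.R (Wk.frw PT.R) nl RvT (SMap.evl cT tlT PT.vx ringF)) P :=
  .cons t0 (.cons t1 (.cons t2 (.cons t3 (.cons t4 (.cons t5 (.cons t6 (.nil)))))))

end Pool.Agent.Lib.MP_5854e1_co.Cz.Sr184
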