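import Pool.Agent.Lib.MP_5854e1_co.Cz.P
import Pool.Agent.Lib.MP_5854e1_co.Tkx
import Pool.Agent.Lib.MP_5854e1_co.RunAll

/-!
# Search, part 102
-/

set_option autoImplicit false
set_option deprecated.oldSectionVars true
set_option maxRecDepth 100000

namespace Pool.Agent.Lib.MP_5854e1_co.Cz.Sr102

open PB

theorem t0 : runX PT.R (Wk.frw PT.R) nl RvT (SMap.evl cT tlT PT.vx ringF) [
  .mk 1 9 37 [0x400, 0x17fdc3ffc0000]] = true := by
  decide +kernel

theorem t1 : runX PT.R (Wk.frw PT.R) nl RvT (SMap.evl cT tlT PT.vx ringF) [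
  .mk 1 9 37 [0x400, 0x28023c003ffff],
  .mk 1 10 38 [],
  .mk 1 11 61 [],
  .mk 1 12 62 [],
  .mk 1 13 63 [],
  .mk 1 14 64 [],
  .mk 1 15 65 [],
  .mk 1 16 66 [],
  .mk 1 17 67 [],
  .mk 1 18 68 [],
  .mk 1 19 69 [],
  .mk 1 20 70 [0x7f1fff]] = true := by
  decide +kernel

theorem t2 : runX PT.R (Wk.frw PT.R) nl RvT (SMap.evl cT tlT PT.vx ringF) [
  .mk 1 20 70 [0x2000, 0x1bad]] = true := by
  decide +kernel

theorem t3 : runX PT.R (Wk.frw PT.R) nl RvT (SMap.evl cT tlT PT.vx ringF) [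
  .mk 1 20 70 [0x2000, 0xfffffe052],
  .mk 1 20 70 [0x2000, 0x400, 0x3fc0000]] = true := by
  decide +kernel

theorem t4 : runX PT.R (Wk.frw PT.R) nl RvT (SMap.evl cT tlT PT.vx ringF) [
  .mk 1 20 70 [0x2000, 0x400, 0x3fffffc03ffff],
  .mk 1 20 70 [0x4000, 0xbf]] = true := by
  decide +kernel

theorem t5 : runX PT.R (Wk.frw PT.R) nl RvT (SMap.evl cT tlT PT.vx ringF) [
  .mk 1 20 70 [0x4000, 0x7000eb100]] = true := by
  decide +kernel

/-- The tasks. -/
noncomputable def P : List (List Tk) := [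
[
  .mk 1 9 37 [0x400, 0x17fdc3ffc0000]],
[
  .mk 1 9 37 [0x400, 0x28023c003ffff],
  .mk 1 10 38 [],
  .mk 1 11 61 [],
  .mk 1 12 62 [],
  .mk 1 13 63 [],
  .mk 1 14 64 [],
  .mk 1 15 65 [],
  .mk 1 16 66 [],
  .mk 1 17 67 [],
  .mk 1 18 68 [],
  .mk 1 19 69 [],
  .mk 1 20 70 [0x7f1fff]],
[
  .mk 1 20 70 [0x2000, 0x1bad]],
[
  .mk 1 20 70 [0x2000, 0xfffffe052],
  .mk 1 20 70 [0x2000, 0x400, 0x3fc0000]],
[
  .mk 1 20 70 [0x2000, 0x400, 0x3fffffc03ffff],
  .mk 1 20 70 [0x4000, 0xbf]],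
[
  .mk 1 20 70 [0x4000, 0x7000eb100]]]

theorem run : RunAll (runX PT.R (Wk.frw PT.R) nl RvT (SMap.evl cT tlT PT.vx ringF)) P :=
  .cons t0 (.cons t1 (.cons t2 (.cons t3 (.cons t4 (.cons t5 (.nil))))))

end Pool.Agent.Lib.MP_5854e1_co.Cz.Sr102

namespace Pool.Agent.Lib.MP_5854e1_co.Cz.Sr347

open PB

theorem t0 : runX PT.R (Wk.frw PT.R) nl RvT (SMap.evl cT tlT PT.vx ringF) [
  .mk 39 16 35 [0x4, 0x7e09fe],
  .mk 39 16 35 [0x4, 0x200, 0xc086082000000000000000000000000000000000000101]] = true := by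
  decide +kernel

theorem t1 : runX PT.R (Wk.frw PT.R) nl RvT (SMap.evl cT tlT PT.vx ringF) [
  .mk 39 16 35 [0x4, 0x200, 0x30000000000000000000000000000000000000000000000]] = true := by
  decide +kernel

theorem t2 : runX PT.R (Wk.frw PT.R) nl RvT (SMap.evl cT tlT PT.vx ringF) [
  .mk 39 16 35 [0x4, 0x200, 0xfffffffffffffffffffffffffffffffffffffffffffffffffffffffffc3f79f7dffffffffffffffffffffffffffffffffffffefe]] = true := by
  decide +kernel

theorem t3 : runX PT.R (Wk.frw PT.R) nl RvT (SMap.evl cT tlT PT.vx ringF) [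
  .mk 39 16 35 [0x4, 0x2000, 0x593]] = true := by
  decide +kernel

theorem t4 : runX PT.R (Wk.frw PT.R) nl RvT (SMap.evl cT tlT PT.vx ringF) [
  .mk 39 16 35 [0x4, 0x2000, 0xffffff86c]] = true := by
  decide +kernel

theorem t5 : runX PT.R (Wk.frw PT.R) nl RvT (SMap.evl cT tlT PT.vx ringF) [
  .mk 39 16 35 [0x4, 0x2000, 0x200, 0x3]] = true := by
  decide +kernel

theorem t6 : runX PT.R (Wk.frw PT.R) nl RvT (SMap.evl cT tlT PT.vx ringF) [
  .mk 39 16 35 [0x4, 0x2000, 0x200, 0xffffffffc]] = true := by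
  decide +kernel

/-- The tasks. -/
noncomputable def P : List (List Tk) := [
[
  .mk 39 16 35 [0x4, 0x7e09fe],
  .mk 39 16 35 [0x4, 0x200, 0xc086082000000000000000000000000000000000000101]],
[
  .mk 39 16 35 [0x4, 0x200, 0x30000000000000000000000000000000000000000000000]],
[
  .mk 39 16 35 [0x4, 0x200, 0xfffffffffffffffffffffffffffffffffffffffffffffffffffffffffc3f79f7dffffffffffffffffffffffffffffffffffffefe]],
[
  .mk 39 16 35 [0x4, 0x2000, 0x593]],
[
  .mk 39 16 35 [0x4, 0x2000, 0xffffff86c]],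
[
  .mk 39 16 35 [0x4, 0x2000, 0x200, 0x3]],
[
  .mk 39 16 35 [0x4, 0x2000, 0x200, 0xffffffffc]]]

theorem run : RunAll (runX PT.R (Wk.frw PT.R) nl RvT (SMap.evl cT tlT PT.vx ringF)) P :=
  .cons t0 (.cons t1 (.cons t2 (.cons t3 (.cons t4 (.cons t5 (.cons t6 (.nil)))))))

end Pool.Agent.Lib.MP_5854e1_co.Cz.Sr347

namespace Pool.Agent.Lib.MP_5854e1_co.Cz.Sr396

open PB

theorem t0 : runX PT.R (Wk.frw PT.R) nl RvT (SMap.evl cT tlT PT.vx ringF) [
  .mk 41 10 42 [0x4000000, 0x1000, 0x3ff000000001]] = true := by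
  decide +kernel

theorem t1 : runX PT.R (Wk.frw PT.R) nl RvT (SMap.evl cT tlT PT.vx ringF) [
  .mk 41 10 42 [0x4000000, 0x1000, 0xfffffffffffffffffffffffffffffffffffffffffffffffffffffffffffc00ffffffffe]] = true := by
  decide +kernel

theorem t2 : runX PT.R (Wk.frw PT.R) nl RvT (SMap.evl cT tlT PT.vx ringF) [
  .mk 41 11 45 [0x5c0000]] = true := by
  decide +kernel

theorem t3 : runX PT.R (Wk.frw PT.R) nl RvT (SMap.evl cT tlT PT.vx ringF) [
  .mk 41 11 45 [0x77c3f800000]] = true := by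
  decide +kernel

theorem t4 : runX PT.R (Wk.frw PT.R) nl RvT (SMap.evl cT tlT PT.vx ringF) [
  .mk 41 11 45 [0x3f883c003ffff]] = true := by
  decide +kernel

theorem t5 : runX PT.R (Wk.frw PT.R) nl RvT (SMap.evl cT tlT PT.vx ringF) [
  .mk 41 11 45 [0x200000, 0x33]] = true := by
  decide +kernel

/-- The tasks. -/
noncomputable def P : List (List Tk) := [
[
  .mk 41 10 42 [0x4000000, 0x1000, 0x3ff000000001]],
[
  .mk 41 10 42 [0x4000000, 0x1000, 0xfffffffffffffffffffffffffffffffffffffffffffffffffffffffffffc00ffffffffe]],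
[
  .mk 41 11 45 [0x5c0000]],
[
  .mk 41 11 45 [0x77c3f800000]],
[
  .mk 41 11 45 [0x3f883c003ffff]],
[
  .mk 41 11 45 [0x200000, 0x33]]]

theorem run : RunAll (runX PT.R (Wk.frw PT.R) nl RvT (SMap.evl cT tlT PT.vx ringF)) P :=
  .cons t0 (.cons t1 (.cons t2 (.cons t3 (.cons t4 (.cons t5 (.nil))))))

end Pool.Agent.Lib.MP_5854e1_co.Cz.Sr396

namespace Pool.Agent.Lib.MP_5854e1_co.Cz.Sr443

open PB

theorem t0 : runX PT.R (Wk.frw PT.R) nl RvT (SMap.evl cT tlT PT.vx ringF) [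
  .mk 42 26 68 [0x4000, 0x400, 0x5b0]] = true := by
  decide +kernel

theorem t1 : runX PT.R (Wk.frw PT.R) nl RvT (SMap.evl cT tlT PT.vx ringF) [
  .mk 42 26 68 [0x4000, 0x400, 0x10000]] = true := by
  decide +kernel

theorem t2 : runX PT.R (Wk.frw PT.R) nl RvT (SMap.evl cT tlT PT.vx ringF) [
  .mk 42 26 68 [0x4000, 0x400, 0x40000]] = true := by
  decide +kernel

theorem t3 : runX PT.R (Wk.frw PT.R) nl RvT (SMap.evl cT tlT PT.vx ringF) [
  .mk 42 26 68 [0x4000, 0x400, 0x7ae844],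
  .mk 42 26 68 [0x4000, 0x400, 0x200, 0xffffffffffffffffffffffffffffffffffffffffffffffffffffffffffffffffffffffffffffffffff7fffffffffffffffffffff]] = true := by
  decide +kernel

theorem t4 : runX PT.R (Wk.frw PT.R) nl RvT (SMap.evl cT tlT PT.vx ringF) [
  .mk 42 26 68 [0x4000, 0x400, 0x200, 0x8000000000000000000000, 0x3c03f00fc1b800000000000000000000000000000000000000000000000000000000000]] = true := by
  decide +kernel

theorem t5 : runX PT.R (Wk.frw PT.R) nl RvT (SMap.evl cT tlT PT.vx ringF) [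
  .mk 42 26 68 [0x4000, 0x400, 0x200, 0x8000000000000000000000, 0xc3fc0ff03e47fffffffffffffffffffffffffffffffffffffffffffffffffffffffffff],
  .mk 42 26 68 [0x4000, 0x400, 0x1000, 0x37000000000]] = true := by
  decide +kernel

/-- The tasks. -/
noncomputable def P : List (List Tk) := [
[
  .mk 42 26 68 [0x4000, 0x400, 0x5b0]],
[
  .mk 42 26 68 [0x4000, 0x400, 0x10000]],
[
  .mk 42 26 68 [0x4000, 0x400, 0x40000]],
[
  .mk 42 26 68 [0x4000, 0x400, 0x7ae844],
  .mk 42 26 68 [0x4000, 0x400, 0x200, 0xffffffffffffffffffffffffffffffffffffffffffffffffffffffffffffffffffffffffffffffffff7fffffffffffffffffffff]],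
[
  .mk 42 26 68 [0x4000, 0x400, 0x200, 0x8000000000000000000000, 0x3c03f00fc1b800000000000000000000000000000000000000000000000000000000000]],
[
  .mk 42 26 68 [0x4000, 0x400, 0x200, 0x8000000000000000000000, 0xc3fc0ff03e47fffffffffffffffffffffffffffffffffffffffffffffffffffffffffff],
  .mk 42 26 68 [0x4000, 0x400, 0x1000, 0x37000000000]]]

theorem run : RunAll (runX PT.R (Wk.frw PT.R) nl RvT (SMap.evl cT tlT PT.vx ringF)) P :=
  .cons t0 (.cons t1 (.cons t2 (.cons t3 (.cons t4 (.cons t5 (.nil))))))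

end Pool.Agent.Lib.MP_5854e1_co.Cz.Sr443

namespace Pool.Agent.Lib.MP_5854e1_co.Cz.Sr505

open PB

theorem t0 : runX PT.R (Wk.frw PT.R) nl RvT (SMap.evl cT tlT PT.vx ringF) [
  .mk 62 6 35 [0x28d]] = true := by
  decide +kernel

theorem t1 : runX PT.R (Wk.frw PT.R) nl RvT (SMap.evl cT tlT PT.vx ringF) [
  .mk 62 6 35 [0x1400]] = true := by
  decide +kernel

theorem t2 : runX PT.R (Wk.frw PT.R) nl RvT (SMap.evl cT tlT PT.vx ringF) [
  .mk 62 6 35 [0xfffffe972],
  .mk 62 7 36 [],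
  .mk 62 8 37 [],
  .mk 62 9 38 []] = true := by
  decide +kernel

theorem t3 : runX PT.R (Wk.frw PT.R) nl RvT (SMap.evl cT tlT PT.vx ringF) [
  .mk 63 0 0 [0x10160000000000000000000000000000000000001800000000000000000000000000000000000000000000000000000000]] = true := by
  decide +kernel

theorem t4 : runX PT.R (Wk.frw PT.R) nl RvT (SMap.evl cT tlT PT.vx ringF) [
  .mk 63 0 0 [0xffffffefe9ffffffffffffffffffffffffffffffffffffc7ffffffffffffffffffffffffffffffffffffffffffffffffffffffff]] = true := by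
  decide +kernel

theorem t5 : runX PT.R (Wk.frw PT.R) nl RvT (SMap.evl cT tlT PT.vx ringF) [
  .mk 63 0 0 [0x2000000000000000000000000000000000000000000000000000000000, 0x400000]] = true := by
  decide +kernel

/-- The tasks. -/
noncomputable def P : List (List Tk) := [
[
  .mk 62 6 35 [0x28d]],
[
  .mk 62 6 35 [0x1400]],
[
  .mk 62 6 35 [0xfffffe972],
  .mk 62 7 36 [],
  .mk 62 8 37 [],
  .mk 62 9 38 []],
[
  .mk 63 0 0 [0x10160000000000000000000000000000000000001800000000000000000000000000000000000000000000000000000000]],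
[
  .mk 63 0 0 [0xffffffefe9ffffffffffffffffffffffffffffffffffffc7ffffffffffffffffffffffffffffffffffffffffffffffffffffffff]],
[
  .mk 63 0 0 [0x2000000000000000000000000000000000000000000000000000000000, 0x400000]]]

theorem run : RunAll (runX PT.R (Wk.frw PT.R) nl RvT (SMap.evl cT tlT PT.vx ringF)) P :=
  .cons t0 (.cons t1 (.cons t2 (.cons t3 (.cons t4 (.cons t5 (.nil))))))

end Pool.Agent.Lib.MP_5854e1_co.Cz.Sr505
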