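import Pool.Agent.Lib.MP_5854e1_co.Cz.P
import Pool.Agent.Lib.MP_5854e1_co.Tkx
import Pool.Agent.Lib.MP_5854e1_co.RunAll

/-!
# Search, part 103
-/

set_option autoImplicit false
set_option deprecated.oldSectionVars true
set_option maxRecDepth 100000

namespace Pool.Agent.Lib.MP_5854e1_co.Cz.Sr103

open PB

theorem t0 : runX PT.R (Wk.frw PT.R) nl RvT (SMap.evl cT tlT PT.vx ringF) [
  .mk 1 20 70 [0x4000, 0x3fff8fff14e40]] = true := by
  decide +kernel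

theorem t1 : runX PT.R (Wk.frw PT.R) nl RvT (SMap.evl cT tlT PT.vx ringF) [
  .mk 1 20 70 [0x8000, 0xfe9ecf]] = true := by
  decide +kernel

theorem t2 : runX PT.R (Wk.frw PT.R) nl RvT (SMap.evl cT tlT PT.vx ringF) [
  .mk 1 20 70 [0x8000, 0x7016130],
  .mk 1 21 71 [],
  .mk 1 22 72 [],
  .mk 1 23 73 [],
  .mk 1 24 74 [],
  .mk 1 25 75 [],
  .mk 1 26 76 [],
  .mk 1 27 77 [],
  .mk 1 28 78 [],
  .mk 1 29 79 [],
  .mk 1 30 80 [],
  .mk 1 31 81 [],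
  .mk 1 32 82 [],
  .mk 1 33 83 [],
  .mk 1 34 84 [],
  .mk 1 35 85 [],
  .mk 1 36 86 [],
  .mk 1 37 87 [],
  .mk 1 38 88 [],
  .mk 1 39 89 [],
  .mk 1 40 90 [],
  .mk 1 41 91 [],
  .mk 1 42 92 [],
  .mk 1 43 93 [],
  .mk 1 44 94 []] = true := by
  decide +kernel

theorem t3 : runX PT.R (Wk.frw PT.R) nl RvT (SMap.evl cT tlT PT.vx ringF) [
  .mk 1 45 95 [0x50]] = true := by
  decide +kernel

theorem t4 : runX PT.R (Wk.frw PT.R) nl RvT (SMap.evl cT tlT PT.vx ringF) [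
  .mk 1 45 95 [0x7ffaf]] = true := by
  decide +kernel

theorem t5 : runX PT.R (Wk.frw PT.R) nl RvT (SMap.evl cT tlT PT.vx ringF) [
  .mk 1 46 96 [0x18000400]] = true := by
  decide +kernel

theorem t6 : runX PT.R (Wk.frw PT.R) nl RvT (SMap.evl cT tlT PT.vx ringF) [
  .mk 1 46 96 [0xfa7fffbff]] = true := by
  decide +kernel

/-- The tasks. -/
noncomputable def P : List (List Tk) := [
[
  .mk 1 20 70 [0x4000, 0x3fff8fff14e40]],
[
  .mk 1 20 70 [0x8000, 0xfe9ecf]],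
[
  .mk 1 20 70 [0x8000, 0x7016130],
  .mk 1 21 71 [],
  .mk 1 22 72 [],
  .mk 1 23 73 [],
  .mk 1 24 74 [],
  .mk 1 25 75 [],
  .mk 1 26 76 [],
  .mk 1 27 77 [],
  .mk 1 28 78 [],
  .mk 1 29 79 [],
  .mk 1 30 80 [],
  .mk 1 31 81 [],
  .mk 1 32 82 [],
  .mk 1 33 83 [],
  .mk 1 34 84 [],
  .mk 1 35 85 [],
  .mk 1 36 86 [],
  .mk 1 37 87 [],
  .mk 1 38 88 [],
  .mk 1 39 89 [],
  .mk 1 40 90 [],
  .mk 1 41 91 [],
  .mk 1 42 92 [],
  .mk 1 43 93 [],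
  .mk 1 44 94 []],
[
  .mk 1 45 95 [0x50]],
[
  .mk 1 45 95 [0x7ffaf]],
[
  .mk 1 46 96 [0x18000400]],
[
  .mk 1 46 96 [0xfa7fffbff]]]

theorem run : RunAll (runX PT.R (Wk.frw PT.R) nl RvT (SMap.evl cT tlT PT.vx ringF)) P :=
  .cons t0 (.cons t1 (.cons t2 (.cons t3 (.cons t4 (.cons t5 (.cons t6 (.nil)))))))

end Pool.Agent.Lib.MP_5854e1_co.Cz.Sr103

namespace Pool.Agent.Lib.MP_5854e1_co.Cz.Sr397

open PB

theorem t0 : runX PT.R (Wk.frw PT.R) nl RvT (SMap.evl cT tlT PT.vx ringF) [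
  .mk 41 11 45 [0x200000, 0x180]] = true := by
  decide +kernel

theorem t1 : runX PT.R (Wk.frw PT.R) nl RvT (SMap.evl cT tlT PT.vx ringF) [
  .mk 41 11 45 [0x200000, 0x600]] = true := by
  decide +kernel

theorem t2 : runX PT.R (Wk.frw PT.R) nl RvT (SMap.evl cT tlT PT.vx ringF) [
  .mk 41 11 45 [0x200000, 0x2000]] = true := by
  decide +kernel

theorem t3 : runX PT.R (Wk.frw PT.R) nl RvT (SMap.evl cT tlT PT.vx ringF) [
  .mk 41 11 45 [0x200000, 0x3668000]] = true := by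
  decide +kernel

theorem t4 : runX PT.R (Wk.frw PT.R) nl RvT (SMap.evl cT tlT PT.vx ringF) [
  .mk 41 11 45 [0x200000, 0x3fc98584c]] = true := by
  decide +kernel

theorem t5 : runX PT.R (Wk.frw PT.R) nl RvT (SMap.evl cT tlT PT.vx ringF) [
  .mk 41 11 45 [0x200000, 0x10000, 0xf93]] = true := by
  decide +kernel

theorem t6 : runX PT.R (Wk.frw PT.R) nl RvT (SMap.evl cT tlT PT.vx ringF) [
  .mk 41 11 45 [0x200000, 0x10000, 0xffffff06c],
  .mk 41 12 47 [0x4affff4f]] = true := by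
  decide +kernel

/-- The tasks. -/
noncomputable def P : List (List Tk) := [
[
  .mk 41 11 45 [0x200000, 0x180]],
[
  .mk 41 11 45 [0x200000, 0x600]],
[
  .mk 41 11 45 [0x200000, 0x2000]],
[
  .mk 41 11 45 [0x200000, 0x3668000]],
[
  .mk 41 11 45 [0x200000, 0x3fc98584c]],
[
  .mk 41 11 45 [0x200000, 0x10000, 0xf93]],
[
  .mk 41 11 45 [0x200000, 0x10000, 0xffffff06c],
  .mk 41 12 47 [0x4affff4f]]]

theorem run : RunAll (runX PT.R (Wk.frw PT.R) nl RvT (SMap.evl cT tlT PT.vx ringF)) P :=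
  .cons t0 (.cons t1 (.cons t2 (.cons t3 (.cons t4 (.cons t5 (.cons t6 (.nil)))))))

end Pool.Agent.Lib.MP_5854e1_co.Cz.Sr397

namespace Pool.Agent.Lib.MP_5854e1_co.Cz.Sr523

open PB

theorem t0 : runX PT.R (Wk.frw PT.R) nl RvT (SMap.evl cT tlT PT.vx ringF) [
  .mk 63 9 52 [0x4000, 0x806f]] = true := by
  decide +kernel

theorem t1 : runX PT.R (Wk.frw PT.R) nl RvT (SMap.evl cT tlT PT.vx ringF) [
  .mk 63 9 52 [0x4000, 0xfffff7f90],
  .mk 63 9 52 [0x20000, 0x3731]] = true := by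
  decide +kernel

theorem t2 : runX PT.R (Wk.frw PT.R) nl RvT (SMap.evl cT tlT PT.vx ringF) [
  .mk 63 9 52 [0x20000, 0x7fc8ce]] = true := by
  decide +kernel

theorem t3 : runX PT.R (Wk.frw PT.R) nl RvT (SMap.evl cT tlT PT.vx ringF) [
  .mk 63 9 52 [0x40000, 0xb26006d]] = true := by
  decide +kernel

theorem t4 : runX PT.R (Wk.frw PT.R) nl RvT (SMap.evl cT tlT PT.vx ringF) [
  .mk 63 9 52 [0x40000, 0x3f0d9ff92]] = true := by
  decide +kernel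

theorem t5 : runX PT.R (Wk.frw PT.R) nl RvT (SMap.evl cT tlT PT.vx ringF) [
  .mk 63 9 52 [0x40000, 0x4000000, 0x3803f]] = true := by
  decide +kernel

/-- The tasks. -/
noncomputable def P : List (List Tk) := [
[
  .mk 63 9 52 [0x4000, 0x806f]],
[
  .mk 63 9 52 [0x4000, 0xfffff7f90],
  .mk 63 9 52 [0x20000, 0x3731]],
[
  .mk 63 9 52 [0x20000, 0x7fc8ce]],
[
  .mk 63 9 52 [0x40000, 0xb26006d]],
[
  .mk 63 9 52 [0x40000, 0x3f0d9ff92]],
[
  .mk 63 9 52 [0x40000, 0x4000000, 0x3803f]]]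

theorem run : RunAll (runX PT.R (Wk.frw PT.R) nl RvT (SMap.evl cT tlT PT.vx ringF)) P :=
  .cons t0 (.cons t1 (.cons t2 (.cons t3 (.cons t4 (.cons t5 (.nil))))))

end Pool.Agent.Lib.MP_5854e1_co.Cz.Sr523
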