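import Pool.Agent.Lib.MP_5854e1_co.Cz.P
import Pool.Agent.Lib.MP_5854e1_co.Tkx
import Pool.Agent.Lib.MP_5854e1_co.RunAll

/-!
# Search, part 104
-/

set_option autoImplicit false
set_option deprecated.oldSectionVars true
set_option maxRecDepth 100000

namespace Pool.Agent.Lib.MP_5854e1_co.Cz.Sr104

open PB

theorem t0 : runX PT.R (Wk.frw PT.R) nl RvT (SMap.evl cT tlT PT.vx ringF) [
  .mk 1 46 96 [0x40000000, 0xff]] = true := by
  decide +kernel

theorem t1 : runX PT.R (Wk.frw PT.R) nl RvT (SMap.evl cT tlT PT.vx ringF) [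
  .mk 1 46 96 [0x40000000, 0xfffff00],
  .mk 1 47 97 [],
  .mk 1 48 98 [],
  .mk 1 49 99 [],
  .mk 1 50 100 [],
  .mk 1 102 0 [],
  .mk 1 103 1 [],
  .mk 1 104 7 [],
  .mk 1 105 15 [],
  .mk 1 108 0 [],
  .mk 1 109 1 [],
  .mk 1 110 7 [],
  .mk 1 111 15 []] = true := by
  decide +kernel

theorem t2 : runX PT.R (Wk.frw PT.R) nl RvT (SMap.evl cT tlT PT.vx ringF) [
  .mk 1 114 0 [],
  .mk 1 115 1 [],
  .mk 1 116 7 [],
  .mk 1 117 15 [],
  .mk 1 118 20 [],
  .mk 1 119 28 [],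
  .mk 1 126 0 [],
  .mk 1 127 1 [],
  .mk 1 128 7 [],
  .mk 1 129 15 [],
  .mk 1 132 0 [],
  .mk 1 133 1 []] = true := by
  decide +kernel

theorem t3 : runX PT.R (Wk.frw PT.R) nl RvT (SMap.evl cT tlT PT.vx ringF) [
  .mk 1 134 7 [],
  .mk 1 135 15 []] = true := by
  decide +kernel

theorem t4 : runX PT.R (Wk.frw PT.R) nl RvT (SMap.evl cT tlT PT.vx ringF) [
  .mk 1 138 0 [0x10800000000000000000000]] = true := by
  decide +kernel

theorem t5 : runX PT.R (Wk.frw PT.R) nl RvT (SMap.evl cT tlT PT.vx ringF) [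
  .mk 1 138 0 [0xfffffffffffffffffffffffffffffffffffffffffffffffffffffffffffffffffffffffffffffffffaf7ffffffffffffffffffff]] = true := by
  decide +kernel

theorem t6 : runX PT.R (Wk.frw PT.R) nl RvT (SMap.evl cT tlT PT.vx ringF) [
  .mk 1 138 0 [0x40000000000000000000000, 0xf001ff]] = true := by
  decide +kernel

/-- The tasks. -/
noncomputable def P : List (List Tk) := [
[
  .mk 1 46 96 [0x40000000, 0xff]],
[
  .mk 1 46 96 [0x40000000, 0xfffff00],
  .mk 1 47 97 [],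
  .mk 1 48 98 [],
  .mk 1 49 99 [],
  .mk 1 50 100 [],
  .mk 1 102 0 [],
  .mk 1 103 1 [],
  .mk 1 104 7 [],
  .mk 1 105 15 [],
  .mk 1 108 0 [],
  .mk 1 109 1 [],
  .mk 1 110 7 [],
  .mk 1 111 15 []],
[
  .mk 1 114 0 [],
  .mk 1 115 1 [],
  .mk 1 116 7 [],
  .mk 1 117 15 [],
  .mk 1 118 20 [],
  .mk 1 119 28 [],
  .mk 1 126 0 [],
  .mk 1 127 1 [],
  .mk 1 128 7 [],
  .mk 1 129 15 [],
  .mk 1 132 0 [],
  .mk 1 133 1 []],
[
  .mk 1 134 7 [],
  .mk 1 135 15 []],
[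
  .mk 1 138 0 [0x10800000000000000000000]],
[
  .mk 1 138 0 [0xfffffffffffffffffffffffffffffffffffffffffffffffffffffffffffffffffffffffffffffffffaf7ffffffffffffffffffff]],
[
  .mk 1 138 0 [0x40000000000000000000000, 0xf001ff]]]

theorem run : RunAll (runX PT.R (Wk.frw PT.R) nl RvT (SMap.evl cT tlT PT.vx ringF)) P :=
  .cons t0 (.cons t1 (.cons t2 (.cons t3 (.cons t4 (.cons t5 (.cons t6 (.nil)))))))

end Pool.Agent.Lib.MP_5854e1_co.Cz.Sr104

namespace Pool.Agent.Lib.MP_5854e1_co.Cz.Sr172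

open PB

theorem t0 : runX PT.R (Wk.frw PT.R) nl RvT (SMap.evl cT tlT PT.vx ringF) [
  .mk 7 256 0 [0xffffffffffffffffffffffffffffffffffffffffffffffffffffffffeefffffffffffffffffffffffffffffffffffffffb1fffff],
  .mk 7 257 1 [],
  .mk 7 258 3 [],
  .mk 7 259 20 [],
  .mk 7 260 21 [],
  .mk 7 261 22 [],
  .mk 7 262 28 [],
  .mk 7 263 29 [],
  .mk 7 264 0 [0xfffffffffffffffffffffffffffffffffffffffffffffffffffffffffffffffffffffffffffffffff8ffffffffffffffffffffff]] = true := by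
  decide +kernel

theorem t1 : runX PT.R (Wk.frw PT.R) nl RvT (SMap.evl cT tlT PT.vx ringF) [
  .mk 7 264 0 [0x10000000000000000000000, 0x1bc1]] = true := by
  decide +kernel

theorem t2 : runX PT.R (Wk.frw PT.R) nl RvT (SMap.evl cT tlT PT.vx ringF) [
  .mk 7 264 0 [0x10000000000000000000000, 0xfffffe03e]] = true := by
  decide +kernel

theorem t3 : runX PT.R (Wk.frw PT.R) nl RvT (SMap.evl cT tlT PT.vx ringF) [
  .mk 7 264 0 [0x10000000000000000000000, 0x400, 0xfc3ffc0000]] = true := by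
  decide +kernel

theorem t4 : runX PT.R (Wk.frw PT.R) nl RvT (SMap.evl cT tlT PT.vx ringF) [
  .mk 7 264 0 [0x10000000000000000000000, 0x400, 0x3ff03c003ffff]] = true := by
  decide +kernel

theorem t5 : runX PT.R (Wk.frw PT.R) nl RvT (SMap.evl cT tlT PT.vx ringF) [
  .mk 7 264 0 [0x20000000000000000000000, 0xfb47cfb001]] = true := by
  decide +kernel

theorem t6 : runX PT.R (Wk.frw PT.R) nl RvT (SMap.evl cT tlT PT.vx ringF) [
  .mk 7 264 0 [0x20000000000000000000000, 0x3ff04b8304ffe]] = true := by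
  decide +kernel

/-- The tasks. -/
noncomputable def P : List (List Tk) := [
[
  .mk 7 256 0 [0xffffffffffffffffffffffffffffffffffffffffffffffffffffffffeefffffffffffffffffffffffffffffffffffffffb1fffff],
  .mk 7 257 1 [],
  .mk 7 258 3 [],
  .mk 7 259 20 [],
  .mk 7 260 21 [],
  .mk 7 261 22 [],
  .mk 7 262 28 [],
  .mk 7 263 29 [],
  .mk 7 264 0 [0xfffffffffffffffffffffffffffffffffffffffffffffffffffffffffffffffffffffffffffffffff8ffffffffffffffffffffff]],
[
  .mk 7 264 0 [0x10000000000000000000000, 0x1bc1]],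
[
  .mk 7 264 0 [0x10000000000000000000000, 0xfffffe03e]],
[
  .mk 7 264 0 [0x10000000000000000000000, 0x400, 0xfc3ffc0000]],
[
  .mk 7 264 0 [0x10000000000000000000000, 0x400, 0x3ff03c003ffff]],
[
  .mk 7 264 0 [0x20000000000000000000000, 0xfb47cfb001]],
[
  .mk 7 264 0 [0x20000000000000000000000, 0x3ff04b8304ffe]]]

theorem run : RunAll (runX PT.R (Wk.frw PT.R) nl RvT (SMap.evl cT tlT PT.vx ringF)) P :=
  .cons t0 (.cons t1 (.cons t2 (.cons t3 (.cons t4 (.cons t5 (.cons t6 (.nil)))))))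

end Pool.Agent.Lib.MP_5854e1_co.Cz.Sr172

namespace Pool.Agent.Lib.MP_5854e1_co.Cz.Sr338

open PB

theorem t0 : runX PT.R (Wk.frw PT.R) nl RvT (SMap.evl cT tlT PT.vx ringF) [
  .mk 35 12 47 [0x80000000, 0x8000, 0x100000, 0x200000000000000000000000000000, 0x1, 0xffffffffffffffffffffffffffffffffffffffffffffffffffffffffffffffffffffffffffffffffffffffffffffffffffffffff]] = true := by
  decide +kernel

theorem t1 : runX PT.R (Wk.frw PT.R) nl RvT (SMap.evl cT tlT PT.vx ringF) [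
  .mk 35 12 47 [0x2000000000000, 0x3b]] = true := by
  decide +kernel

theorem t2 : runX PT.R (Wk.frw PT.R) nl RvT (SMap.evl cT tlT PT.vx ringF) [
  .mk 35 12 47 [0x2000000000000, 0x7ffc4]] = true := by
  decide +kernel

theorem t3 : runX PT.R (Wk.frw PT.R) nl RvT (SMap.evl cT tlT PT.vx ringF) [
  .mk 35 13 48 [0x1a7b3]] = true := by
  decide +kernel

theorem t4 : runX PT.R (Wk.frw PT.R) nl RvT (SMap.evl cT tlT PT.vx ringF) [
  .mk 35 13 48 [0x1c0000]] = true := by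
  decide +kernel

theorem t5 : runX PT.R (Wk.frw PT.R) nl RvT (SMap.evl cT tlT PT.vx ringF) [
  .mk 35 13 48 [0x200000]] = true := by
  decide +kernel

/-- The tasks. -/
noncomputable def P : List (List Tk) := [
[
  .mk 35 12 47 [0x80000000, 0x8000, 0x100000, 0x200000000000000000000000000000, 0x1, 0xffffffffffffffffffffffffffffffffffffffffffffffffffffffffffffffffffffffffffffffffffffffffffffffffffffffff]],
[
  .mk 35 12 47 [0x2000000000000, 0x3b]],
[
  .mk 35 12 47 [0x2000000000000, 0x7ffc4]],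
[
  .mk 35 13 48 [0x1a7b3]],
[
  .mk 35 13 48 [0x1c0000]],
[
  .mk 35 13 48 [0x200000]]]

theorem run : RunAll (runX PT.R (Wk.frw PT.R) nl RvT (SMap.evl cT tlT PT.vx ringF)) P :=
  .cons t0 (.cons t1 (.cons t2 (.cons t3 (.cons t4 (.cons t5 (.nil))))))

end Pool.Agent.Lib.MP_5854e1_co.Cz.Sr338
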