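import Pool.Agent.Lib.MP_5854e1_co.Cz.P
import Pool.Agent.Lib.MP_5854e1_co.Tkx
import Pool.Agent.Lib.MP_5854e1_co.RunAll

/-!
# Search, part 106
-/

set_option autoImplicit false
set_option deprecated.oldSectionVars true
set_option maxRecDepth 100000

namespace Pool.Agent.Lib.MP_5854e1_co.Cz.Sr106

open PB

theorem t0 : runX PT.R (Wk.frw PT.R) nl RvT (SMap.evl cT tlT PT.vx ringF) [
  .mk 1 180 0 [],
  .mk 1 181 7 [],
  .mk 1 182 15 []] = true := by
  decide +kernel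

theorem t1 : runX PT.R (Wk.frw PT.R) nl RvT (SMap.evl cT tlT PT.vx ringF) [
  .mk 1 183 20 []] = true := by
  decide +kernel

theorem t2 : runX PT.R (Wk.frw PT.R) nl RvT (SMap.evl cT tlT PT.vx ringF) [
  .mk 1 184 28 [],
  .mk 1 185 0 [],
  .mk 1 186 1 [],
  .mk 1 187 7 [],
  .mk 1 188 15 [],
  .mk 1 189 20 [],
  .mk 1 190 28 [],
  .mk 1 191 0 [],
  .mk 1 192 1 []] = true := by
  decide +kernel

theorem t3 : runX PT.R (Wk.frw PT.R) nl RvT (SMap.evl cT tlT PT.vx ringF) [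
  .mk 1 193 2 [],
  .mk 1 194 7 [],
  .mk 1 195 8 []] = true := by
  decide +kernel

theorem t4 : runX PT.R (Wk.frw PT.R) nl RvT (SMap.evl cT tlT PT.vx ringF) [
  .mk 1 196 9 [],
  .mk 1 197 15 [],
  .mk 1 198 16 [],
  .mk 1 199 0 [],
  .mk 1 200 1 [],
  .mk 1 201 7 [],
  .mk 1 202 15 [],
  .mk 1 203 20 [],
  .mk 1 204 28 [],
  .mk 1 205 0 [],
  .mk 1 206 1 []] = true := by
  decide +kernel

theorem t5 : runX PT.R (Wk.frw PT.R) nl RvT (SMap.evl cT tlT PT.vx ringF) [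
  .mk 1 207 3 [],
  .mk 1 208 20 [],
  .mk 1 209 21 [],
  .mk 1 210 22 [],
  .mk 1 211 28 [],
  .mk 1 212 29 [],
  .mk 1 213 0 [],
  .mk 1 214 1 [],
  .mk 1 215 7 [],
  .mk 1 216 15 [],
  .mk 1 217 20 [],
  .mk 1 218 28 []] = true := by
  decide +kernel

/-- The tasks. -/
noncomputable def P : List (List Tk) := [
[
  .mk 1 180 0 [],
  .mk 1 181 7 [],
  .mk 1 182 15 []],
[
  .mk 1 183 20 []],
[
  .mk 1 184 28 [],
  .mk 1 185 0 [],
  .mk 1 186 1 [],
  .mk 1 187 7 [],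
  .mk 1 188 15 [],
  .mk 1 189 20 [],
  .mk 1 190 28 [],
  .mk 1 191 0 [],
  .mk 1 192 1 []],
[
  .mk 1 193 2 [],
  .mk 1 194 7 [],
  .mk 1 195 8 []],
[
  .mk 1 196 9 [],
  .mk 1 197 15 [],
  .mk 1 198 16 [],
  .mk 1 199 0 [],
  .mk 1 200 1 [],
  .mk 1 201 7 [],
  .mk 1 202 15 [],
  .mk 1 203 20 [],
  .mk 1 204 28 [],
  .mk 1 205 0 [],
  .mk 1 206 1 []],
[
  .mk 1 207 3 [],
  .mk 1 208 20 [],
  .mk 1 209 21 [],
  .mk 1 210 22 [],
  .mk 1 211 28 [],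
  .mk 1 212 29 [],
  .mk 1 213 0 [],
  .mk 1 214 1 [],
  .mk 1 215 7 [],
  .mk 1 216 15 [],
  .mk 1 217 20 [],
  .mk 1 218 28 []]]

theorem run : RunAll (runX PT.R (Wk.frw PT.R) nl RvT (SMap.evl cT tlT PT.vx ringF)) P :=
  .cons t0 (.cons t1 (.cons t2 (.cons t3 (.cons t4 (.cons t5 (.nil))))))

end Pool.Agent.Lib.MP_5854e1_co.Cz.Sr106

namespace Pool.Agent.Lib.MP_5854e1_co.Cz.Sr394

open PB

theorem t0 : runX PT.R (Wk.frw PT.R) nl RvT (SMap.evl cT tlT PT.vx ringF) [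
  .mk 41 10 42 [0x200000, 0x133]] = true := by
  decide +kernel

theorem t1 : runX PT.R (Wk.frw PT.R) nl RvT (SMap.evl cT tlT PT.vx ringF) [
  .mk 41 10 42 [0x200000, 0xa600]] = true := by
  decide +kernel

theorem t2 : runX PT.R (Wk.frw PT.R) nl RvT (SMap.evl cT tlT PT.vx ringF) [
  .mk 41 10 42 [0x200000, 0x3430000]] = true := by
  decide +kernel

theorem t3 : runX PT.R (Wk.frw PT.R) nl RvT (SMap.evl cT tlT PT.vx ringF) [
  .mk 41 10 42 [0x200000, 0x3fcbc584c],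
  .mk 41 10 42 [0x200000, 0x80, 0xbffff],
  .mk 41 10 42 [0x200000, 0x80, 0x40000, 0x3]] = true := by
  decide +kernel

theorem t4 : runX PT.R (Wk.frw PT.R) nl RvT (SMap.evl cT tlT PT.vx ringF) [
  .mk 41 10 42 [0x200000, 0x80, 0x40000, 0xffffffffc]] = true := by
  decide +kernel

theorem t5 : runX PT.R (Wk.frw PT.R) nl RvT (SMap.evl cT tlT PT.vx ringF) [
  .mk 41 10 42 [0x4000000, 0x7fe7ff]] = true := by
  decide +kernel

/-- The tasks. -/
noncomputable def P : List (List Tk) := [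
[
  .mk 41 10 42 [0x200000, 0x133]],
[
  .mk 41 10 42 [0x200000, 0xa600]],
[
  .mk 41 10 42 [0x200000, 0x3430000]],
[
  .mk 41 10 42 [0x200000, 0x3fcbc584c],
  .mk 41 10 42 [0x200000, 0x80, 0xbffff],
  .mk 41 10 42 [0x200000, 0x80, 0x40000, 0x3]],
[
  .mk 41 10 42 [0x200000, 0x80, 0x40000, 0xffffffffc]],
[
  .mk 41 10 42 [0x4000000, 0x7fe7ff]]]

theorem run : RunAll (runX PT.R (Wk.frw PT.R) nl RvT (SMap.evl cT tlT PT.vx ringF)) P :=
  .cons t0 (.cons t1 (.cons t2 (.cons t3 (.cons t4 (.cons t5 (.nil))))))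

end Pool.Agent.Lib.MP_5854e1_co.Cz.Sr394

namespace Pool.Agent.Lib.MP_5854e1_co.Cz.Sr432

open PB

theorem t0 : runX PT.R (Wk.frw PT.R) nl RvT (SMap.evl cT tlT PT.vx ringF) [
  .mk 42 21 63 [0x200, 0x400, 0x10000000, 0x7fed74]] = true := by
  decide +kernel

theorem t1 : runX PT.R (Wk.frw PT.R) nl RvT (SMap.evl cT tlT PT.vx ringF) [
  .mk 42 21 63 [0x200, 0x400, 0x10000000, 0x1000, 0x60000000000000]] = true := by
  decide +kernel

theorem t2 : runX PT.R (Wk.frw PT.R) nl RvT (SMap.evl cT tlT PT.vx ringF) [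
  .mk 42 21 63 [0x200, 0x400, 0x10000000, 0x1000, 0xfffffffffffffffffffffffffffffffffffffffffffffffffffffffff9ffffffffffffe]] = true := by
  decide +kernel

theorem t3 : runX PT.R (Wk.frw PT.R) nl RvT (SMap.evl cT tlT PT.vx ringF) [
  .mk 42 21 63 [0x200, 0x400, 0x10000000, 0x1000, 0x1, 0x400000000000000000000000000000000000000000000000000000000000000000000000000000000000000000000000]] = true := by
  decide +kernel

theorem t4 : runX PT.R (Wk.frw PT.R) nl RvT (SMap.evl cT tlT PT.vx ringF) [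
  .mk 42 21 63 [0x200, 0x400, 0x10000000, 0x1000, 0x1, 0xffffffffbfffffffffffffffffffffffffffffffffffffffffffffffffffffffffffffffffffffffffffffffffffffffffffffff]] = true := by
  decide +kernel

/-- The tasks. -/
noncomputable def P : List (List Tk) := [
[
  .mk 42 21 63 [0x200, 0x400, 0x10000000, 0x7fed74]],
[
  .mk 42 21 63 [0x200, 0x400, 0x10000000, 0x1000, 0x60000000000000]],
[
  .mk 42 21 63 [0x200, 0x400, 0x10000000, 0x1000, 0xfffffffffffffffffffffffffffffffffffffffffffffffffffffffff9ffffffffffffe]],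
[
  .mk 42 21 63 [0x200, 0x400, 0x10000000, 0x1000, 0x1, 0x400000000000000000000000000000000000000000000000000000000000000000000000000000000000000000000000]],
[
  .mk 42 21 63 [0x200, 0x400, 0x10000000, 0x1000, 0x1, 0xffffffffbfffffffffffffffffffffffffffffffffffffffffffffffffffffffffffffffffffffffffffffffffffffffffffffff]]]

theorem run : RunAll (runX PT.R (Wk.frw PT.R) nl RvT (SMap.evl cT tlT PT.vx ringF)) P :=
  .cons t0 (.cons t1 (.cons t2 (.cons t3 (.cons t4 (.nil)))))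

end Pool.Agent.Lib.MP_5854e1_co.Cz.Sr432

namespace Pool.Agent.Lib.MP_5854e1_co.Cz.Sr465

open PB

theorem t0 : runX PT.R (Wk.frw PT.R) nl RvT (SMap.evl cT tlT PT.vx ringF) [
  .mk 44 22 95 [0x800, 0xffffffc6c]] = true := by
  decide +kernel

theorem t1 : runX PT.R (Wk.frw PT.R) nl RvT (SMap.evl cT tlT PT.vx ringF) [
  .mk 44 23 96 [],
  .mk 44 24 97 [],
  .mk 44 25 98 []] = true := by
  decide +kernel

theorem t2 : runX PT.R (Wk.frw PT.R) nl RvT (SMap.evl cT tlT PT.vx ringF) [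
  .mk 44 26 99 [],
  .mk 44 27 100 [],
  .mk 45 0 0 [],
  .mk 45 1 1 [],
  .mk 45 2 3 [],
  .mk 45 3 20 []] = true := by
  decide +kernel

theorem t3 : runX PT.R (Wk.frw PT.R) nl RvT (SMap.evl cT tlT PT.vx ringF) [
  .mk 45 4 21 [],
  .mk 45 5 22 [],
  .mk 45 6 28 [],
  .mk 45 7 29 [],
  .mk 45 8 0 [],
  .mk 45 9 1 []] = true := by
  decide +kernel

theorem t4 : runX PT.R (Wk.frw PT.R) nl RvT (SMap.evl cT tlT PT.vx ringF) [
  .mk 45 10 2 [],
  .mk 45 11 7 [],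
  .mk 45 12 15 [],
  .mk 45 13 0 []] = true := by
  decide +kernel

/-- The tasks. -/
noncomputable def P : List (List Tk) := [
[
  .mk 44 22 95 [0x800, 0xffffffc6c]],
[
  .mk 44 23 96 [],
  .mk 44 24 97 [],
  .mk 44 25 98 []],
[
  .mk 44 26 99 [],
  .mk 44 27 100 [],
  .mk 45 0 0 [],
  .mk 45 1 1 [],
  .mk 45 2 3 [],
  .mk 45 3 20 []],
[
  .mk 45 4 21 [],
  .mk 45 5 22 [],
  .mk 45 6 28 [],
  .mk 45 7 29 [],
  .mk 45 8 0 [],
  .mk 45 9 1 []],
[
  .mk 45 10 2 [],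
  .mk 45 11 7 [],
  .mk 45 12 15 [],
  .mk 45 13 0 []]]

theorem run : RunAll (runX PT.R (Wk.frw PT.R) nl RvT (SMap.evl cT tlT PT.vx ringF)) P :=
  .cons t0 (.cons t1 (.cons t2 (.cons t3 (.cons t4 (.nil)))))

end Pool.Agent.Lib.MP_5854e1_co.Cz.Sr465
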