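import Pool.Agent.Lib.MP_5854e1_co.Cz.P
import Pool.Agent.Lib.MP_5854e1_co.Tkx
import Pool.Agent.Lib.MP_5854e1_co.RunAll

/-!
# Search, part 107
-/

set_option autoImplicit false
set_option deprecated.oldSectionVars true
set_option maxRecDepth 100000

namespace Pool.Agent.Lib.MP_5854e1_co.Cz.Sr107

open PB

theorem t0 : runX PT.R (Wk.frw PT.R) nl RvT (SMap.evl cT tlT PT.vx ringF) [
  .mk 2 0 0 [],
  .mk 2 1 20 []] = true := by
  decide +kernel

theorem t1 : runX PT.R (Wk.frw PT.R) nl RvT (SMap.evl cT tlT PT.vx ringF) [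
  .mk 2 2 24 [0x5a00]] = true := by
  decide +kernel

theorem t2 : runX PT.R (Wk.frw PT.R) nl RvT (SMap.evl cT tlT PT.vx ringF) [
  .mk 2 2 24 [0x18000]] = true := by
  decide +kernel

theorem t3 : runX PT.R (Wk.frw PT.R) nl RvT (SMap.evl cT tlT PT.vx ringF) [
  .mk 2 2 24 [0x7e05ff]] = true := by
  decide +kernel

theorem t4 : runX PT.R (Wk.frw PT.R) nl RvT (SMap.evl cT tlT PT.vx ringF) [
  .mk 2 2 24 [0x2000, 0xffffffbff],
  .mk 2 2 24 [0x2000, 0x400, 0x3fc0000]] = true := by
  decide +kernel

theorem t5 : runX PT.R (Wk.frw PT.R) nl RvT (SMap.evl cT tlT PT.vx ringF) [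
  .mk 2 2 24 [0x2000, 0x400, 0x3fffffc03ffff]] = true := by
  decide +kernel

/-- The tasks. -/
noncomputable def P : List (List Tk) := [
[
  .mk 2 0 0 [],
  .mk 2 1 20 []],
[
  .mk 2 2 24 [0x5a00]],
[
  .mk 2 2 24 [0x18000]],
[
  .mk 2 2 24 [0x7e05ff]],
[
  .mk 2 2 24 [0x2000, 0xffffffbff],
  .mk 2 2 24 [0x2000, 0x400, 0x3fc0000]],
[
  .mk 2 2 24 [0x2000, 0x400, 0x3fffffc03ffff]]]

theorem run : RunAll (runX PT.R (Wk.frw PT.R) nl RvT (SMap.evl cT tlT PT.vx ringF)) P :=
  .cons t0 (.cons t1 (.cons t2 (.cons t3 (.cons t4 (.cons t5 (.nil))))))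

end Pool.Agent.Lib.MP_5854e1_co.Cz.Sr107

namespace Pool.Agent.Lib.MP_5854e1_co.Cz.Sr296

open PB

theorem t0 : runX PT.R (Wk.frw PT.R) nl RvT (SMap.evl cT tlT PT.vx ringF) [
  .mk 12 29 55 [0x400, 0x800, 0x1]] = true := by
  decide +kernel

theorem t1 : runX PT.R (Wk.frw PT.R) nl RvT (SMap.evl cT tlT PT.vx ringF) [
  .mk 12 29 55 [0x400, 0x800, 0xffffffffe]] = true := by
  decide +kernel

theorem t2 : runX PT.R (Wk.frw PT.R) nl RvT (SMap.evl cT tlT PT.vx ringF) [
  .mk 12 29 55 [0x400, 0x1000, 0x730000000000000]] = true := by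
  decide +kernel

theorem t3 : runX PT.R (Wk.frw PT.R) nl RvT (SMap.evl cT tlT PT.vx ringF) [
  .mk 12 29 55 [0x400, 0x1000, 0xffffffffffffffffffffffffffffffffffffffffffffffffffffffff80ffffffffffffe],
  .mk 12 29 55 [0x400, 0x1000, 0x1, 0x1f800000000000000000000000000000000000000000000000000000000000000000000000000000000000000000000]] = true := by
  decide +kernel

theorem t4 : runX PT.R (Wk.frw PT.R) nl RvT (SMap.evl cT tlT PT.vx ringF) [
  .mk 12 29 55 [0x400, 0x1000, 0x1, 0xe800000000000000000000000000000000000000000000000000000000000000000000000000000000000000000000000]] = true := by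
  decide +kernel

/-- The tasks. -/
noncomputable def P : List (List Tk) := [
[
  .mk 12 29 55 [0x400, 0x800, 0x1]],
[
  .mk 12 29 55 [0x400, 0x800, 0xffffffffe]],
[
  .mk 12 29 55 [0x400, 0x1000, 0x730000000000000]],
[
  .mk 12 29 55 [0x400, 0x1000, 0xffffffffffffffffffffffffffffffffffffffffffffffffffffffff80ffffffffffffe],
  .mk 12 29 55 [0x400, 0x1000, 0x1, 0x1f800000000000000000000000000000000000000000000000000000000000000000000000000000000000000000000]],
[
  .mk 12 29 55 [0x400, 0x1000, 0x1, 0xe800000000000000000000000000000000000000000000000000000000000000000000000000000000000000000000000]]]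

theorem run : RunAll (runX PT.R (Wk.frw PT.R) nl RvT (SMap.evl cT tlT PT.vx ringF)) P :=
  .cons t0 (.cons t1 (.cons t2 (.cons t3 (.cons t4 (.nil)))))

end Pool.Agent.Lib.MP_5854e1_co.Cz.Sr296

namespace Pool.Agent.Lib.MP_5854e1_co.Cz.Sr506

open PB

theorem t0 : runX PT.R (Wk.frw PT.R) nl RvT (SMap.evl cT tlT PT.vx ringF) [
  .mk 63 0 0 [0x2000000000000000000000000000000000000000000000000000000000, 0x3fbfffff],
  .mk 63 1 20 [0x1000400000000000000000000000000000000000000000000000000000000]] = true := by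
  decide +kernel

theorem t1 : runX PT.R (Wk.frw PT.R) nl RvT (SMap.evl cT tlT PT.vx ringF) [
  .mk 63 1 20 [0xffffffffffeffbbffffffffffffffffffffffffffffffffffffffffffffffffffffffff]] = true := by
  decide +kernel

theorem t2 : runX PT.R (Wk.frw PT.R) nl RvT (SMap.evl cT tlT PT.vx ringF) [
  .mk 63 1 20 [0x4000000000000000000000000000000000000000000000000000000000, 0x5]] = true := by
  decide +kernel

theorem t3 : runX PT.R (Wk.frw PT.R) nl RvT (SMap.evl cT tlT PT.vx ringF) [
  .mk 63 1 20 [0x4000000000000000000000000000000000000000000000000000000000, 0xffffffffffffffffffffffffffffffffffffffffffffffffffffffffffffffffff7effa]] = true := by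
  decide +kernel

theorem t4 : runX PT.R (Wk.frw PT.R) nl RvT (SMap.evl cT tlT PT.vx ringF) [
  .mk 63 1 20 [0x4000000000000000000000000000000000000000000000000000000000, 0x1000, 0x606806f]] = true := by
  decide +kernel

theorem t5 : runX PT.R (Wk.frw PT.R) nl RvT (SMap.evl cT tlT PT.vx ringF) [
  .mk 63 1 20 [0x4000000000000000000000000000000000000000000000000000000000, 0x1000, 0x298000000]] = true := by
  decide +kernel

/-- The tasks. -/
noncomputable def P : List (List Tk) := [
[
  .mk 63 0 0 [0x2000000000000000000000000000000000000000000000000000000000, 0x3fbfffff],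
  .mk 63 1 20 [0x1000400000000000000000000000000000000000000000000000000000000]],
[
  .mk 63 1 20 [0xffffffffffeffbbffffffffffffffffffffffffffffffffffffffffffffffffffffffff]],
[
  .mk 63 1 20 [0x4000000000000000000000000000000000000000000000000000000000, 0x5]],
[
  .mk 63 1 20 [0x4000000000000000000000000000000000000000000000000000000000, 0xffffffffffffffffffffffffffffffffffffffffffffffffffffffffffffffffff7effa]],
[
  .mk 63 1 20 [0x4000000000000000000000000000000000000000000000000000000000, 0x1000, 0x606806f]],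
[
  .mk 63 1 20 [0x4000000000000000000000000000000000000000000000000000000000, 0x1000, 0x298000000]]]

theorem run : RunAll (runX PT.R (Wk.frw PT.R) nl RvT (SMap.evl cT tlT PT.vx ringF)) P :=
  .cons t0 (.cons t1 (.cons t2 (.cons t3 (.cons t4 (.cons t5 (.nil))))))

end Pool.Agent.Lib.MP_5854e1_co.Cz.Sr506
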