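import Pool.Agent.Lib.MP_5854e1_co.Cz.P
import Pool.Agent.Lib.MP_5854e1_co.Tkx
import Pool.Agent.Lib.MP_5854e1_co.RunAll

/-!
# Search, part 109
-/

set_option autoImplicit false
set_option deprecated.oldSectionVars true
set_option maxRecDepth 100000

namespace Pool.Agent.Lib.MP_5854e1_co.Cz.Sr109

open PB

theorem t0 : runX PT.R (Wk.frw PT.R) nl RvT (SMap.evl cT tlT PT.vx ringF) [
  .mk 2 7 50 [0xbffff]] = true := by
  decide +kernel

theorem t1 : runX PT.R (Wk.frw PT.R) nl RvT (SMap.evl cT tlT PT.vx ringF) [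
  .mk 2 7 50 [0x40000, 0xfffffe9ff]] = true := by
  decide +kernel

theorem t2 : runX PT.R (Wk.frw PT.R) nl RvT (SMap.evl cT tlT PT.vx ringF) [
  .mk 2 7 50 [0x40000, 0x200, 0x13]] = true := by
  decide +kernel

theorem t3 : runX PT.R (Wk.frw PT.R) nl RvT (SMap.evl cT tlT PT.vx ringF) [
  .mk 2 7 50 [0x40000, 0x200, 0xfffffffec]] = true := by
  decide +kernel

theorem t4 : runX PT.R (Wk.frw PT.R) nl RvT (SMap.evl cT tlT PT.vx ringF) [
  .mk 2 7 50 [0x40000, 0x400, 0x3ff3ffffbffff]] = true := by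
  decide +kernel

theorem t5 : runX PT.R (Wk.frw PT.R) nl RvT (SMap.evl cT tlT PT.vx ringF) [
  .mk 2 7 50 [0x40000, 0x400, 0x40000, 0x3f07e0000000000000000000000000000000000000000000000000000000000000000000000]] = true := by
  decide +kernel

/-- The tasks. -/
noncomputable def P : List (List Tk) := [
[
  .mk 2 7 50 [0xbffff]],
[
  .mk 2 7 50 [0x40000, 0xfffffe9ff]],
[
  .mk 2 7 50 [0x40000, 0x200, 0x13]],
[
  .mk 2 7 50 [0x40000, 0x200, 0xfffffffec]],
[
  .mk 2 7 50 [0x40000, 0x400, 0x3ff3ffffbffff]],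
[
  .mk 2 7 50 [0x40000, 0x400, 0x40000, 0x3f07e0000000000000000000000000000000000000000000000000000000000000000000000]]]

theorem run : RunAll (runX PT.R (Wk.frw PT.R) nl RvT (SMap.evl cT tlT PT.vx ringF)) P :=
  .cons t0 (.cons t1 (.cons t2 (.cons t3 (.cons t4 (.cons t5 (.nil))))))

end Pool.Agent.Lib.MP_5854e1_co.Cz.Sr109

namespace Pool.Agent.Lib.MP_5854e1_co.Cz.Sr211

open PB

theorem t0 : runX PT.R (Wk.frw PT.R) nl RvT (SMap.evl cT tlT PT.vx ringF) [
  .mk 8 14 49 [0x2000, 0x800000, 0x1, 0x200000000000000000000, 0x100000000000000000000000000000000000000000000000000000000000000000000000000000000, 0xffffffffffffffffffffffffffffffffffffffffffffffffffffffffffffffffffffffffffffffffffffffffffffffffffffffff]] = true := by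
  decide +kernel

/-- The tasks. -/
noncomputable def P : List (List Tk) := [
[
  .mk 8 14 49 [0x2000, 0x800000, 0x1, 0x200000000000000000000, 0x100000000000000000000000000000000000000000000000000000000000000000000000000000000, 0xffffffffffffffffffffffffffffffffffffffffffffffffffffffffffffffffffffffffffffffffffffffffffffffffffffffff]]]

theorem run : RunAll (runX PT.R (Wk.frw PT.R) nl RvT (SMap.evl cT tlT PT.vx ringF)) P :=
  .cons t0 (.nil)

end Pool.Agent.Lib.MP_5854e1_co.Cz.Sr211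

namespace Pool.Agent.Lib.MP_5854e1_co.Cz.Sr373

open PB

theorem t0 : runX PT.R (Wk.frw PT.R) nl RvT (SMap.evl cT tlT PT.vx ringF) [
  .mk 41 3 12 [0x4000000, 0xffff6206c]] = true := by
  decide +kernel

theorem t1 : runX PT.R (Wk.frw PT.R) nl RvT (SMap.evl cT tlT PT.vx ringF) [
  .mk 41 3 12 [0x4000000, 0x200, 0x1803f]] = true := by
  decide +kernel

theorem t2 : runX PT.R (Wk.frw PT.R) nl RvT (SMap.evl cT tlT PT.vx ringF) [
  .mk 41 3 12 [0x4000000, 0x200, 0xffffe7fc0]] = true := by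
  decide +kernel

theorem t3 : runX PT.R (Wk.frw PT.R) nl RvT (SMap.evl cT tlT PT.vx ringF) [
  .mk 41 3 12 [0x4000000, 0x400, 0x3ffffefffffff],
  .mk 41 3 12 [0x4000000, 0x400, 0x10000000, 0x7fefff]] = true := by
  decide +kernel

theorem t4 : runX PT.R (Wk.frw PT.R) nl RvT (SMap.evl cT tlT PT.vx ringF) [
  .mk 41 3 12 [0x4000000, 0x400, 0x10000000, 0x1000, 0x2e0000000000000]] = true := by
  decide +kernel

/-- The tasks. -/
noncomputable def P : List (List Tk) := [
[
  .mk 41 3 12 [0x4000000, 0xffff6206c]],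
[
  .mk 41 3 12 [0x4000000, 0x200, 0x1803f]],
[
  .mk 41 3 12 [0x4000000, 0x200, 0xffffe7fc0]],
[
  .mk 41 3 12 [0x4000000, 0x400, 0x3ffffefffffff],
  .mk 41 3 12 [0x4000000, 0x400, 0x10000000, 0x7fefff]],
[
  .mk 41 3 12 [0x4000000, 0x400, 0x10000000, 0x1000, 0x2e0000000000000]]]

theorem run : RunAll (runX PT.R (Wk.frw PT.R) nl RvT (SMap.evl cT tlT PT.vx ringF)) P :=
  .cons t0 (.cons t1 (.cons t2 (.cons t3 (.cons t4 (.nil)))))

end Pool.Agent.Lib.MP_5854e1_co.Cz.Sr373
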