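import Pool.Agent.Lib.MP_5854e1_co.Cz.P
import Pool.Agent.Lib.MP_5854e1_co.Tkx
import Pool.Agent.Lib.MP_5854e1_co.RunAll

/-!
# Search, part 112
-/

set_option autoImplicit false
set_option deprecated.oldSectionVars true
set_option maxRecDepth 100000

namespace Pool.Agent.Lib.MP_5854e1_co.Cz.Sr112

open PB

theorem t0 : runX PT.R (Wk.frw PT.R) nl RvT (SMap.evl cT tlT PT.vx ringF) [
  .mk 2 9 52 [0x300000000]] = true := by
  decide +kernel

theorem t1 : runX PT.R (Wk.frw PT.R) nl RvT (SMap.evl cT tlT PT.vx ringF) [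
  .mk 2 9 52 [0xc01e17f90]] = true := by
  decide +kernel

theorem t2 : runX PT.R (Wk.frw PT.R) nl RvT (SMap.evl cT tlT PT.vx ringF) [
  .mk 2 9 52 [0x8000000, 0x681dfd3]] = true := by
  decide +kernel

theorem t3 : runX PT.R (Wk.frw PT.R) nl RvT (SMap.evl cT tlT PT.vx ringF) [
  .mk 2 9 52 [0x8000000, 0xff97e202c],
  .mk 2 10 53 [0xc1b5c0000]] = true := by
  decide +kernel

theorem t4 : runX PT.R (Wk.frw PT.R) nl RvT (SMap.evl cT tlT PT.vx ringF) [
  .mk 2 10 53 [0x3fff3e423ffff]] = true := by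
  decide +kernel

/-- The tasks. -/
noncomputable def P : List (List Tk) := [
[
  .mk 2 9 52 [0x300000000]],
[
  .mk 2 9 52 [0xc01e17f90]],
[
  .mk 2 9 52 [0x8000000, 0x681dfd3]],
[
  .mk 2 9 52 [0x8000000, 0xff97e202c],
  .mk 2 10 53 [0xc1b5c0000]],
[
  .mk 2 10 53 [0x3fff3e423ffff]]]

theorem run : RunAll (runX PT.R (Wk.frw PT.R) nl RvT (SMap.evl cT tlT PT.vx ringF)) P :=
  .cons t0 (.cons t1 (.cons t2 (.cons t3 (.cons t4 (.nil)))))

end Pool.Agent.Lib.MP_5854e1_co.Cz.Sr112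

namespace Pool.Agent.Lib.MP_5854e1_co.Cz.Sr489

open PB

theorem t0 : runX PT.R (Wk.frw PT.R) nl RvT (SMap.evl cT tlT PT.vx ringF) [
  .mk 48 23 52 [0x4, 0x7ff970]] = true := by
  decide +kernel

theorem t1 : runX PT.R (Wk.frw PT.R) nl RvT (SMap.evl cT tlT PT.vx ringF) [
  .mk 48 23 52 [0x8, 0x1a793]] = true := by
  decide +kernel

theorem t2 : runX PT.R (Wk.frw PT.R) nl RvT (SMap.evl cT tlT PT.vx ringF) [
  .mk 48 23 52 [0x8, 0x20000]] = true := by
  decide +kernel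

theorem t3 : runX PT.R (Wk.frw PT.R) nl RvT (SMap.evl cT tlT PT.vx ringF) [
  .mk 48 23 52 [0x8, 0x40000]] = true := by
  decide +kernel

theorem t4 : runX PT.R (Wk.frw PT.R) nl RvT (SMap.evl cT tlT PT.vx ringF) [
  .mk 48 23 52 [0x8, 0x3fff8586c],
  .mk 48 23 52 [0x8000, 0x3800ffe00000000200000000000000000000]] = true := by
  decide +kernel

theorem t5 : runX PT.R (Wk.frw PT.R) nl RvT (SMap.evl cT tlT PT.vx ringF) [
  .mk 48 23 52 [0x8000, 0xffffffffffffffffffffffffffffffffffffffffffffffffffffffffffffffffffffc7ff001ffffffffdffffffffffffffffffff]] = true := by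
  decide +kernel

theorem t6 : runX PT.R (Wk.frw PT.R) nl RvT (SMap.evl cT tlT PT.vx ringF) [
  .mk 48 23 52 [0x40000, 0x3fffbffff]] = true := by
  decide +kernel

/-- The tasks. -/
noncomputable def P : List (List Tk) := [
[
  .mk 48 23 52 [0x4, 0x7ff970]],
[
  .mk 48 23 52 [0x8, 0x1a793]],
[
  .mk 48 23 52 [0x8, 0x20000]],
[
  .mk 48 23 52 [0x8, 0x40000]],
[
  .mk 48 23 52 [0x8, 0x3fff8586c],
  .mk 48 23 52 [0x8000, 0x3800ffe00000000200000000000000000000]],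
[
  .mk 48 23 52 [0x8000, 0xffffffffffffffffffffffffffffffffffffffffffffffffffffffffffffffffffffc7ff001ffffffffdffffffffffffffffffff]],
[
  .mk 48 23 52 [0x40000, 0x3fffbffff]]]

theorem run : RunAll (runX PT.R (Wk.frw PT.R) nl RvT (SMap.evl cT tlT PT.vx ringF)) P :=
  .cons t0 (.cons t1 (.cons t2 (.cons t3 (.cons t4 (.cons t5 (.cons t6 (.nil)))))))

end Pool.Agent.Lib.MP_5854e1_co.Cz.Sr489
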