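import Pool.Agent.Lib.MP_5854e1_co.Cz.P
import Pool.Agent.Lib.MP_5854e1_co.Tkx
import Pool.Agent.Lib.MP_5854e1_co.RunAll

/-!
# Search, part 113
-/

set_option autoImplicit false
set_option deprecated.oldSectionVars true
set_option maxRecDepth 100000

namespace Pool.Agent.Lib.MP_5854e1_co.Cz.Sr113

open PB

theorem t0 : runX PT.R (Wk.frw PT.R) nl RvT (SMap.evl cT tlT PT.vx ringF) [
  .mk 2 10 53 [0x800000, 0x43a7b3]] = true := by
  decide +kernel

theorem t1 : runX PT.R (Wk.frw PT.R) nl RvT (SMap.evl cT tlT PT.vx ringF) [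
  .mk 2 10 53 [0x800000, 0x3ffbc584c],
  .mk 2 11 56 [],
  .mk 2 12 58 []] = true := by
  decide +kernel

theorem t2 : runX PT.R (Wk.frw PT.R) nl RvT (SMap.evl cT tlT PT.vx ringF) [
  .mk 2 13 59 [0x1a5b3]] = true := by
  decide +kernel

theorem t3 : runX PT.R (Wk.frw PT.R) nl RvT (SMap.evl cT tlT PT.vx ringF) [
  .mk 2 13 59 [0x1e0000]] = true := by
  decide +kernel

theorem t4 : runX PT.R (Wk.frw PT.R) nl RvT (SMap.evl cT tlT PT.vx ringF) [
  .mk 2 13 59 [0x200000]] = true := by
  decide +kernel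

theorem t5 : runX PT.R (Wk.frw PT.R) nl RvT (SMap.evl cT tlT PT.vx ringF) [
  .mk 2 13 59 [0x7400000]] = true := by
  decide +kernel

/-- The tasks. -/
noncomputable def P : List (List Tk) := [
[
  .mk 2 10 53 [0x800000, 0x43a7b3]],
[
  .mk 2 10 53 [0x800000, 0x3ffbc584c],
  .mk 2 11 56 [],
  .mk 2 12 58 []],
[
  .mk 2 13 59 [0x1a5b3]],
[
  .mk 2 13 59 [0x1e0000]],
[
  .mk 2 13 59 [0x200000]],
[
  .mk 2 13 59 [0x7400000]]]

theorem run : RunAll (runX PT.R (Wk.frw PT.R) nl RvT (SMap.evl cT tlT PT.vx ringF)) P :=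
  .cons t0 (.cons t1 (.cons t2 (.cons t3 (.cons t4 (.cons t5 (.nil))))))

end Pool.Agent.Lib.MP_5854e1_co.Cz.Sr113

namespace Pool.Agent.Lib.MP_5854e1_co.Cz.Sr129

open PB

theorem t0 : runX PT.R (Wk.frw PT.R) nl RvT (SMap.evl cT tlT PT.vx ringF) [
  .mk 7 19 48 [0x8000000, 0xfffffe040],
  .mk 7 20 49 []] = true := by
  decide +kernel

theorem t1 : runX PT.R (Wk.frw PT.R) nl RvT (SMap.evl cT tlT PT.vx ringF) [
  .mk 7 21 61 []] = true := by
  decide +kernel

theorem t2 : runX PT.R (Wk.frw PT.R) nl RvT (SMap.evl cT tlT PT.vx ringF) [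
  .mk 7 22 62 []] = true := by
  decide +kernel

theorem t3 : runX PT.R (Wk.frw PT.R) nl RvT (SMap.evl cT tlT PT.vx ringF) [
  .mk 7 23 63 [0x160]] = true := by
  decide +kernel

theorem t4 : runX PT.R (Wk.frw PT.R) nl RvT (SMap.evl cT tlT PT.vx ringF) [
  .mk 7 23 63 [0x2000]] = true := by
  decide +kernel

theorem t5 : runX PT.R (Wk.frw PT.R) nl RvT (SMap.evl cT tlT PT.vx ringF) [
  .mk 7 23 63 [0x4000]] = true := by
  decide +kernel

theorem t6 : runX PT.R (Wk.frw PT.R) nl RvT (SMap.evl cT tlT PT.vx ringF) [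
  .mk 7 23 63 [0x3fbfe8010]] = true := by
  decide +kernel

theorem t7 : runX PT.R (Wk.frw PT.R) nl RvT (SMap.evl cT tlT PT.vx ringF) [
  .mk 7 23 63 [0x1, 0x1a24000000000000002000000000000000000000000000000000000000]] = true := by
  decide +kernel

/-- The tasks. -/
noncomputable def P : List (List Tk) := [
[
  .mk 7 19 48 [0x8000000, 0xfffffe040],
  .mk 7 20 49 []],
[
  .mk 7 21 61 []],
[
  .mk 7 22 62 []],
[
  .mk 7 23 63 [0x160]],
[
  .mk 7 23 63 [0x2000]],
[
  .mk 7 23 63 [0x4000]],
[
  .mk 7 23 63 [0x3fbfe8010]],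
[
  .mk 7 23 63 [0x1, 0x1a24000000000000002000000000000000000000000000000000000000]]]

theorem run : RunAll (runX PT.R (Wk.frw PT.R) nl RvT (SMap.evl cT tlT PT.vx ringF)) P :=
  .cons t0 (.cons t1 (.cons t2 (.cons t3 (.cons t4 (.cons t5 (.cons t6 (.cons t7 (.nil))))))))

end Pool.Agent.Lib.MP_5854e1_co.Cz.Sr129

namespace Pool.Agent.Lib.MP_5854e1_co.Cz.Sr250

open PB

theorem t0 : runX PT.R (Wk.frw PT.R) nl RvT (SMap.evl cT tlT PT.vx ringF) [
  .mk 11 13 21 [0x400, 0x800000, 0x1, 0x200000000000000000000000000000000000000000000000000000000000000000000000000000000000000000, 0xffffffffffffffffffffffffffffffffffffffffffffffffffffffffffffffffdfffffffffffffffffffffffffffffffffffffff],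
  .mk 11 13 21 [0x400, 0x800000, 0x1, 0x200000000000000000000000000000000000000000000000000000000000000000000000000000000000000000, 0x2000000000000000000000000000000000000000, 0x9000000000002000000000000000000000000000000000000000]] = true := by
  decide +kernel

theorem t1 : runX PT.R (Wk.frw PT.R) nl RvT (SMap.evl cT tlT PT.vx ringF) [
  .mk 11 13 21 [0x400, 0x800000, 0x1, 0x200000000000000000000000000000000000000000000000000000000000000000000000000000000000000000, 0x2000000000000000000000000000000000000000, 0xffffffffffffffffffffffffffffffffffffffffffffffffffff6fffffffffffdfffffffffffffffffffffffffffffffffffffff]] = true := by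
  decide +kernel

theorem t2 : runX PT.R (Wk.frw PT.R) nl RvT (SMap.evl cT tlT PT.vx ringF) [
  .mk 11 13 21 [0x400, 0x800000, 0x2, 0x1f800000000000000000000000000000000000000000000000000000]] = true := by
  decide +kernel

theorem t3 : runX PT.R (Wk.frw PT.R) nl RvT (SMap.evl cT tlT PT.vx ringF) [
  .mk 11 13 21 [0x400, 0x800000, 0x2, 0x7e0000000000000000000000000000000000000000000000000000000]] = true := by
  decide +kernel

theorem t4 : runX PT.R (Wk.frw PT.R) nl RvT (SMap.evl cT tlT PT.vx ringF) [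
  .mk 11 13 21 [0x400, 0x800000, 0x2, 0xffffffffffffff8007fffffffffffffffffffffffffffffffffffffffffffffffffffff]] = true := by
  decide +kernel

theorem t5 : runX PT.R (Wk.frw PT.R) nl RvT (SMap.evl cT tlT PT.vx ringF) [
  .mk 11 13 21 [0x400, 0x800000, 0x80, 0xffbff]] = true := by
  decide +kernel

/-- The tasks. -/
noncomputable def P : List (List Tk) := [
[
  .mk 11 13 21 [0x400, 0x800000, 0x1, 0x200000000000000000000000000000000000000000000000000000000000000000000000000000000000000000, 0xffffffffffffffffffffffffffffffffffffffffffffffffffffffffffffffffdfffffffffffffffffffffffffffffffffffffff],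
  .mk 11 13 21 [0x400, 0x800000, 0x1, 0x200000000000000000000000000000000000000000000000000000000000000000000000000000000000000000, 0x2000000000000000000000000000000000000000, 0x9000000000002000000000000000000000000000000000000000]],
[
  .mk 11 13 21 [0x400, 0x800000, 0x1, 0x200000000000000000000000000000000000000000000000000000000000000000000000000000000000000000, 0x2000000000000000000000000000000000000000, 0xffffffffffffffffffffffffffffffffffffffffffffffffffff6fffffffffffdfffffffffffffffffffffffffffffffffffffff]],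
[
  .mk 11 13 21 [0x400, 0x800000, 0x2, 0x1f800000000000000000000000000000000000000000000000000000]],
[
  .mk 11 13 21 [0x400, 0x800000, 0x2, 0x7e0000000000000000000000000000000000000000000000000000000]],
[
  .mk 11 13 21 [0x400, 0x800000, 0x2, 0xffffffffffffff8007fffffffffffffffffffffffffffffffffffffffffffffffffffff]],
[
  .mk 11 13 21 [0x400, 0x800000, 0x80, 0xffbff]]]

theorem run : RunAll (runX PT.R (Wk.frw PT.R) nl RvT (SMap.evl cT tlT PT.vx ringF)) P :=
  .cons t0 (.cons t1 (.cons t2 (.cons t3 (.cons t4 (.cons t5 (.nil))))))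

end Pool.Agent.Lib.MP_5854e1_co.Cz.Sr250
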