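import Pool.Agent.Lib.MP_5854e1_co.Cz.P
import Pool.Agent.Lib.MP_5854e1_co.Tkx
import Pool.Agent.Lib.MP_5854e1_co.RunAll

/-!
# Search, part 116
-/

set_option autoImplicit false
set_option deprecated.oldSectionVars true
set_option maxRecDepth 100000

namespace Pool.Agent.Lib.MP_5854e1_co.Cz.Sr116

open PB

theorem t0 : runX PT.R (Wk.frw PT.R) nl RvT (SMap.evl cT tlT PT.vx ringF) [
  .mk 2 14 60 [0x2000, 0xf91ffcc],
  .mk 2 15 0 [],
  .mk 2 16 7 [],
  .mk 2 17 11 [],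
  .mk 2 18 12 [],
  .mk 2 19 13 [],
  .mk 2 20 14 [],
  .mk 2 21 15 [],
  .mk 2 22 17 [],
  .mk 2 23 18 [],
  .mk 2 24 19 [],
  .mk 2 25 39 [],
  .mk 2 26 40 []] = true := by
  decide +kernel

theorem t1 : runX PT.R (Wk.frw PT.R) nl RvT (SMap.evl cT tlT PT.vx ringF) [
  .mk 2 27 41 [],
  .mk 2 28 42 [],
  .mk 2 29 43 [],
  .mk 2 30 44 [],
  .mk 2 31 45 [],
  .mk 2 32 46 [],
  .mk 2 33 47 []] = true := by
  decide +kernel

theorem t2 : runX PT.R (Wk.frw PT.R) nl RvT (SMap.evl cT tlT PT.vx ringF) [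
  .mk 2 34 48 [],
  .mk 2 35 49 [],
  .mk 4 0 0 [],
  .mk 4 1 7 [],
  .mk 4 2 15 [],
  .mk 4 5 0 [],
  .mk 4 6 1 [],
  .mk 4 7 2 [],
  .mk 4 8 7 []] = true := by
  decide +kernel

theorem t3 : runX PT.R (Wk.frw PT.R) nl RvT (SMap.evl cT tlT PT.vx ringF) [
  .mk 4 9 8 [0x3bad]] = true := by
  decide +kernel

theorem t4 : runX PT.R (Wk.frw PT.R) nl RvT (SMap.evl cT tlT PT.vx ringF) [
  .mk 4 9 8 [0xfffffc052]] = true := by
  decide +kernel

theorem t5 : runX PT.R (Wk.frw PT.R) nl RvT (SMap.evl cT tlT PT.vx ringF) [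
  .mk 4 9 8 [0x400, 0x3fc0000]] = true := by
  decide +kernel

/-- The tasks. -/
noncomputable def P : List (List Tk) := [
[
  .mk 2 14 60 [0x2000, 0xf91ffcc],
  .mk 2 15 0 [],
  .mk 2 16 7 [],
  .mk 2 17 11 [],
  .mk 2 18 12 [],
  .mk 2 19 13 [],
  .mk 2 20 14 [],
  .mk 2 21 15 [],
  .mk 2 22 17 [],
  .mk 2 23 18 [],
  .mk 2 24 19 [],
  .mk 2 25 39 [],
  .mk 2 26 40 []],
[
  .mk 2 27 41 [],
  .mk 2 28 42 [],
  .mk 2 29 43 [],
  .mk 2 30 44 [],
  .mk 2 31 45 [],
  .mk 2 32 46 [],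
  .mk 2 33 47 []],
[
  .mk 2 34 48 [],
  .mk 2 35 49 [],
  .mk 4 0 0 [],
  .mk 4 1 7 [],
  .mk 4 2 15 [],
  .mk 4 5 0 [],
  .mk 4 6 1 [],
  .mk 4 7 2 [],
  .mk 4 8 7 []],
[
  .mk 4 9 8 [0x3bad]],
[
  .mk 4 9 8 [0xfffffc052]],
[
  .mk 4 9 8 [0x400, 0x3fc0000]]]

theorem run : RunAll (runX PT.R (Wk.frw PT.R) nl RvT (SMap.evl cT tlT PT.vx ringF)) P :=
  .cons t0 (.cons t1 (.cons t2 (.cons t3 (.cons t4 (.cons t5 (.nil))))))

end Pool.Agent.Lib.MP_5854e1_co.Cz.Sr116

namespace Pool.Agent.Lib.MP_5854e1_co.Cz.Sr283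

open PB

theorem t0 : runX PT.R (Wk.frw PT.R) nl RvT (SMap.evl cT tlT PT.vx ringF) [
  .mk 12 25 51 [0x1f5]] = true := by
  decide +kernel

theorem t1 : runX PT.R (Wk.frw PT.R) nl RvT (SMap.evl cT tlT PT.vx ringF) [
  .mk 12 25 51 [0xffe0a],
  .mk 12 26 52 [0x3]] = true := by
  decide +kernel

theorem t2 : runX PT.R (Wk.frw PT.R) nl RvT (SMap.evl cT tlT PT.vx ringF) [
  .mk 12 26 52 [0x1a4]] = true := by
  decide +kernel

theorem t3 : runX PT.R (Wk.frw PT.R) nl RvT (SMap.evl cT tlT PT.vx ringF) [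
  .mk 12 26 52 [0x9c000]] = true := by
  decide +kernel

theorem t4 : runX PT.R (Wk.frw PT.R) nl RvT (SMap.evl cT tlT PT.vx ringF) [
  .mk 12 26 52 [0xffff00050]] = true := by
  decide +kernel

theorem t5 : runX PT.R (Wk.frw PT.R) nl RvT (SMap.evl cT tlT PT.vx ringF) [
  .mk 12 26 52 [0x8, 0x3ffefffff]] = true := by
  decide +kernel

/-- The tasks. -/
noncomputable def P : List (List Tk) := [
[
  .mk 12 25 51 [0x1f5]],
[
  .mk 12 25 51 [0xffe0a],
  .mk 12 26 52 [0x3]],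
[
  .mk 12 26 52 [0x1a4]],
[
  .mk 12 26 52 [0x9c000]],
[
  .mk 12 26 52 [0xffff00050]],
[
  .mk 12 26 52 [0x8, 0x3ffefffff]]]

theorem run : RunAll (runX PT.R (Wk.frw PT.R) nl RvT (SMap.evl cT tlT PT.vx ringF)) P :=
  .cons t0 (.cons t1 (.cons t2 (.cons t3 (.cons t4 (.cons t5 (.nil))))))

end Pool.Agent.Lib.MP_5854e1_co.Cz.Sr283

namespace Pool.Agent.Lib.MP_5854e1_co.Cz.Sr288

open PB

theorem t0 : runX PT.R (Wk.frw PT.R) nl RvT (SMap.evl cT tlT PT.vx ringF) [
  .mk 12 26 52 [0x2000, 0xffc586c]] = true := by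
  decide +kernel

theorem t1 : runX PT.R (Wk.frw PT.R) nl RvT (SMap.evl cT tlT PT.vx ringF) [
  .mk 12 26 52 [0x2000, 0x200, 0xffffffffe],
  .mk 12 26 52 [0x2000, 0x200, 0x1, 0xffffffffffffffffffffffffffffffffffffffffffffffffffffffffffffffffdfffffffffffffffffffffffffffffffffffffff],
  .mk 12 26 52 [0x2000, 0x200, 0x1, 0x2000000000000000000000000000000000000000, 0x100000000620000000000000000000000000000000000000000000000000000000000000000000000]] = true := by
  decide +kernel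

theorem t2 : runX PT.R (Wk.frw PT.R) nl RvT (SMap.evl cT tlT PT.vx ringF) [
  .mk 12 26 52 [0x2000, 0x200, 0x1, 0x2000000000000000000000000000000000000000, 0xfffffffffffffffffffffffeffffffff9dffffffffffffffffffffffffffffffffffffffffffffffffffffffffffffffffffffff]] = true := by
  decide +kernel

theorem t3 : runX PT.R (Wk.frw PT.R) nl RvT (SMap.evl cT tlT PT.vx ringF) [
  .mk 12 26 52 [0x20000, 0x17731]] = true := by
  decide +kernel

theorem t4 : runX PT.R (Wk.frw PT.R) nl RvT (SMap.evl cT tlT PT.vx ringF) [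
  .mk 12 26 52 [0x20000, 0x7e88ce]] = true := by
  decide +kernel

theorem t5 : runX PT.R (Wk.frw PT.R) nl RvT (SMap.evl cT tlT PT.vx ringF) [
  .mk 12 26 52 [0x40000, 0x26006f]] = true := by
  decide +kernel

/-- The tasks. -/
noncomputable def P : List (List Tk) := [
[
  .mk 12 26 52 [0x2000, 0xffc586c]],
[
  .mk 12 26 52 [0x2000, 0x200, 0xffffffffe],
  .mk 12 26 52 [0x2000, 0x200, 0x1, 0xffffffffffffffffffffffffffffffffffffffffffffffffffffffffffffffffdfffffffffffffffffffffffffffffffffffffff],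
  .mk 12 26 52 [0x2000, 0x200, 0x1, 0x2000000000000000000000000000000000000000, 0x100000000620000000000000000000000000000000000000000000000000000000000000000000000]],
[
  .mk 12 26 52 [0x2000, 0x200, 0x1, 0x2000000000000000000000000000000000000000, 0xfffffffffffffffffffffffeffffffff9dffffffffffffffffffffffffffffffffffffffffffffffffffffffffffffffffffffff]],
[
  .mk 12 26 52 [0x20000, 0x17731]],
[
  .mk 12 26 52 [0x20000, 0x7e88ce]],
[
  .mk 12 26 52 [0x40000, 0x26006f]]]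

theorem run : RunAll (runX PT.R (Wk.frw PT.R) nl RvT (SMap.evl cT tlT PT.vx ringF)) P :=
  .cons t0 (.cons t1 (.cons t2 (.cons t3 (.cons t4 (.cons t5 (.nil))))))

end Pool.Agent.Lib.MP_5854e1_co.Cz.Sr288

namespace Pool.Agent.Lib.MP_5854e1_co.Cz.Sr362

open PB

theorem t0 : runX PT.R (Wk.frw PT.R) nl RvT (SMap.evl cT tlT PT.vx ringF) [
  .mk 41 2 11 [0x2000, 0x400, 0x800000, 0x20000, 0x2000000000000000000000000000000000000000, 0x2000000000000000000000000000000000000000000000000000000000000000000000000000000000000]] = true := by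
  decide +kernel

theorem t1 : runX PT.R (Wk.frw PT.R) nl RvT (SMap.evl cT tlT PT.vx ringF) [
  .mk 41 2 11 [0x2000, 0x400, 0x800000, 0x20000, 0x2000000000000000000000000000000000000000, 0xfffffffffffffffffffdffffffffffffffffffffffffffffffffffffffffffffffffffffffffffffffffffffffffffffffffffff]] = true := by
  decide +kernel

theorem t2 : runX PT.R (Wk.frw PT.R) nl RvT (SMap.evl cT tlT PT.vx ringF) [
  .mk 41 2 11 [0x2000, 0x400, 0x800000, 0x40000, 0xd00000000000000000000000000000000000000]] = true := by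
  decide +kernel

theorem t3 : runX PT.R (Wk.frw PT.R) nl RvT (SMap.evl cT tlT PT.vx ringF) [
  .mk 41 2 11 [0x2000, 0x400, 0x800000, 0x40000, 0xffffffffffffffffffffffffffffffff2ffffffffffffffffffffffffffffffffffffff],
  .mk 41 2 11 [0x2000, 0x400, 0x10000000, 0x8b]] = true := by
  decide +kernel

/-- The tasks. -/
noncomputable def P : List (List Tk) := [
[
  .mk 41 2 11 [0x2000, 0x400, 0x800000, 0x20000, 0x2000000000000000000000000000000000000000, 0x2000000000000000000000000000000000000000000000000000000000000000000000000000000000000]],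
[
  .mk 41 2 11 [0x2000, 0x400, 0x800000, 0x20000, 0x2000000000000000000000000000000000000000, 0xfffffffffffffffffffdffffffffffffffffffffffffffffffffffffffffffffffffffffffffffffffffffffffffffffffffffff]],
[
  .mk 41 2 11 [0x2000, 0x400, 0x800000, 0x40000, 0xd00000000000000000000000000000000000000]],
[
  .mk 41 2 11 [0x2000, 0x400, 0x800000, 0x40000, 0xffffffffffffffffffffffffffffffff2ffffffffffffffffffffffffffffffffffffff],
  .mk 41 2 11 [0x2000, 0x400, 0x10000000, 0x8b]]]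

theorem run : RunAll (runX PT.R (Wk.frw PT.R) nl RvT (SMap.evl cT tlT PT.vx ringF)) P :=
  .cons t0 (.cons t1 (.cons t2 (.cons t3 (.nil))))

end Pool.Agent.Lib.MP_5854e1_co.Cz.Sr362
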