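import Pool.Agent.Lib.MP_5854e1_co.Cz.P
import Pool.Agent.Lib.MP_5854e1_co.Tkx
import Pool.Agent.Lib.MP_5854e1_co.RunAll

/-!
# Search, part 118
-/

set_option autoImplicit false
set_option deprecated.oldSectionVars true
set_option maxRecDepth 100000

namespace Pool.Agent.Lib.MP_5854e1_co.Cz.Sr118

open PB

theorem t0 : runX PT.R (Wk.frw PT.R) nl RvT (SMap.evl cT tlT PT.vx ringF) [
  .mk 7 2 11 [0x200]] = true := by
  decide +kernel

theorem t1 : runX PT.R (Wk.frw PT.R) nl RvT (SMap.evl cT tlT PT.vx ringF) [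
  .mk 7 2 11 [0x7d15ff]] = true := by
  decide +kernel

theorem t2 : runX PT.R (Wk.frw PT.R) nl RvT (SMap.evl cT tlT PT.vx ringF) [
  .mk 7 2 11 [0x800, 0x18f]] = true := by
  decide +kernel

theorem t3 : runX PT.R (Wk.frw PT.R) nl RvT (SMap.evl cT tlT PT.vx ringF) [
  .mk 7 2 11 [0x800, 0x1e00]] = true := by
  decide +kernel

theorem t4 : runX PT.R (Wk.frw PT.R) nl RvT (SMap.evl cT tlT PT.vx ringF) [
  .mk 7 2 11 [0x800, 0xfffffe070]] = true := by
  decide +kernel

theorem t5 : runX PT.R (Wk.frw PT.R) nl RvT (SMap.evl cT tlT PT.vx ringF) [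
  .mk 7 2 11 [0x2000, 0x7]] = true := by
  decide +kernel

/-- The tasks. -/
noncomputable def P : List (List Tk) := [
[
  .mk 7 2 11 [0x200]],
[
  .mk 7 2 11 [0x7d15ff]],
[
  .mk 7 2 11 [0x800, 0x18f]],
[
  .mk 7 2 11 [0x800, 0x1e00]],
[
  .mk 7 2 11 [0x800, 0xfffffe070]],
[
  .mk 7 2 11 [0x2000, 0x7]]]

theorem run : RunAll (runX PT.R (Wk.frw PT.R) nl RvT (SMap.evl cT tlT PT.vx ringF)) P :=
  .cons t0 (.cons t1 (.cons t2 (.cons t3 (.cons t4 (.cons t5 (.nil))))))

end Pool.Agent.Lib.MP_5854e1_co.Cz.Sr118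

namespace Pool.Agent.Lib.MP_5854e1_co.Cz.Sr560

open PB

theorem t0 : runX PT.R (Wk.frw PT.R) nl RvT (SMap.evl cT tlT PT.vx ringF) [
  .mk 68 14 22 [0x400, 0x4000, 0x8, 0x2, 0xffffffffffffffffffffffffffffffffc33ffffffffffffffffffffffffffffffffffff]] = true := by
  decide +kernel

theorem t1 : runX PT.R (Wk.frw PT.R) nl RvT (SMap.evl cT tlT PT.vx ringF) [
  .mk 68 14 22 [0x400, 0x4000, 0x100, 0x7fedff]] = true := by
  decide +kernel

theorem t2 : runX PT.R (Wk.frw PT.R) nl RvT (SMap.evl cT tlT PT.vx ringF) [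
  .mk 68 14 22 [0x400, 0x4000, 0x100, 0x200, 0x2000000000000000000000000000000000000043]] = true := by
  decide +kernel

theorem t3 : runX PT.R (Wk.frw PT.R) nl RvT (SMap.evl cT tlT PT.vx ringF) [
  .mk 68 14 22 [0x400, 0x4000, 0x100, 0x200, 0xffffffffffffffffffffffffffffffffffffffffffffffffffffffffffffffffdfffffffffffffffffffffffffffffffffffffbc]] = true := by
  decide +kernel

theorem t4 : runX PT.R (Wk.frw PT.R) nl RvT (SMap.evl cT tlT PT.vx ringF) [
  .mk 68 14 22 [0x400, 0x4000, 0x100, 0x1000, 0x7000000000]] = true := by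
  decide +kernel

theorem t5 : runX PT.R (Wk.frw PT.R) nl RvT (SMap.evl cT tlT PT.vx ringF) [
  .mk 68 14 22 [0x400, 0x4000, 0x100, 0x1000, 0xfffffffffffffffffffffffffffffffffffffffffffffffffffffffffffff8ffffffffe]] = true := by
  decide +kernel

theorem t6 : runX PT.R (Wk.frw PT.R) nl RvT (SMap.evl cT tlT PT.vx ringF) [
  .mk 68 14 22 [0x400, 0x4000, 0x100, 0x1000, 0x1, 0xf0660000000000000000000000000000000000000000000000000000000000000000000000]] = true := by
  decide +kernel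

/-- The tasks. -/
noncomputable def P : List (List Tk) := [
[
  .mk 68 14 22 [0x400, 0x4000, 0x8, 0x2, 0xffffffffffffffffffffffffffffffffc33ffffffffffffffffffffffffffffffffffff]],
[
  .mk 68 14 22 [0x400, 0x4000, 0x100, 0x7fedff]],
[
  .mk 68 14 22 [0x400, 0x4000, 0x100, 0x200, 0x2000000000000000000000000000000000000043]],
[
  .mk 68 14 22 [0x400, 0x4000, 0x100, 0x200, 0xffffffffffffffffffffffffffffffffffffffffffffffffffffffffffffffffdfffffffffffffffffffffffffffffffffffffbc]],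
[
  .mk 68 14 22 [0x400, 0x4000, 0x100, 0x1000, 0x7000000000]],
[
  .mk 68 14 22 [0x400, 0x4000, 0x100, 0x1000, 0xfffffffffffffffffffffffffffffffffffffffffffffffffffffffffffff8ffffffffe]],
[
  .mk 68 14 22 [0x400, 0x4000, 0x100, 0x1000, 0x1, 0xf0660000000000000000000000000000000000000000000000000000000000000000000000]]]

theorem run : RunAll (runX PT.R (Wk.frw PT.R) nl RvT (SMap.evl cT tlT PT.vx ringF)) P :=
  .cons t0 (.cons t1 (.cons t2 (.cons t3 (.cons t4 (.cons t5 (.cons t6 (.nil)))))))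

end Pool.Agent.Lib.MP_5854e1_co.Cz.Sr560
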