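import Pool.Agent.Lib.MP_5854e1_co.Cz.P
import Pool.Agent.Lib.MP_5854e1_co.Tkx
import Pool.Agent.Lib.MP_5854e1_co.RunAll

/-!
# Search, part 119
-/

set_option autoImplicit false
set_option deprecated.oldSectionVars true
set_option maxRecDepth 100000

namespace Pool.Agent.Lib.MP_5854e1_co.Cz.Sr119

open PB

theorem t0 : runX PT.R (Wk.frw PT.R) nl RvT (SMap.evl cT tlT PT.vx ringF) [
  .mk 7 2 11 [0x2000, 0x1b8]] = true := by
  decide +kernel

theorem t1 : runX PT.R (Wk.frw PT.R) nl RvT (SMap.evl cT tlT PT.vx ringF) [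
  .mk 7 2 11 [0x2000, 0x1a00]] = true := by
  decide +kernel

theorem t2 : runX PT.R (Wk.frw PT.R) nl RvT (SMap.evl cT tlT PT.vx ringF) [
  .mk 7 2 11 [0x2000, 0xfffffe040]] = true := by
  decide +kernel

theorem t3 : runX PT.R (Wk.frw PT.R) nl RvT (SMap.evl cT tlT PT.vx ringF) [
  .mk 7 2 11 [0x2000, 0x400, 0x7c0000]] = true := by
  decide +kernel

theorem t4 : runX PT.R (Wk.frw PT.R) nl RvT (SMap.evl cT tlT PT.vx ringF) [
  .mk 7 2 11 [0x2000, 0x400, 0xf800000]] = true := by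
  decide +kernel

/-- The tasks. -/
noncomputable def P : List (List Tk) := [
[
  .mk 7 2 11 [0x2000, 0x1b8]],
[
  .mk 7 2 11 [0x2000, 0x1a00]],
[
  .mk 7 2 11 [0x2000, 0xfffffe040]],
[
  .mk 7 2 11 [0x2000, 0x400, 0x7c0000]],
[
  .mk 7 2 11 [0x2000, 0x400, 0xf800000]]]

theorem run : RunAll (runX PT.R (Wk.frw PT.R) nl RvT (SMap.evl cT tlT PT.vx ringF)) P :=
  .cons t0 (.cons t1 (.cons t2 (.cons t3 (.cons t4 (.nil)))))

end Pool.Agent.Lib.MP_5854e1_co.Cz.Sr119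

namespace Pool.Agent.Lib.MP_5854e1_co.Cz.Sr136

open PB

theorem t0 : runX PT.R (Wk.frw PT.R) nl RvT (SMap.evl cT tlT PT.vx ringF) [
  .mk 7 23 63 [0x1000, 0x400, 0x7ff170],
  .mk 7 23 63 [0x10000, 0x28d]] = true := by
  decide +kernel

theorem t1 : runX PT.R (Wk.frw PT.R) nl RvT (SMap.evl cT tlT PT.vx ringF) [
  .mk 7 23 63 [0x10000, 0x1c00]] = true := by
  decide +kernel

theorem t2 : runX PT.R (Wk.frw PT.R) nl RvT (SMap.evl cT tlT PT.vx ringF) [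
  .mk 7 23 63 [0x10000, 0xfffffe172]] = true := by
  decide +kernel

theorem t3 : runX PT.R (Wk.frw PT.R) nl RvT (SMap.evl cT tlT PT.vx ringF) [
  .mk 7 23 63 [0x4000000, 0x38f]] = true := by
  decide +kernel

theorem t4 : runX PT.R (Wk.frw PT.R) nl RvT (SMap.evl cT tlT PT.vx ringF) [
  .mk 7 23 63 [0x4000000, 0xffffffc70],
  .mk 7 24 64 [],
  .mk 7 25 65 [],
  .mk 7 26 66 [],
  .mk 7 27 67 [],
  .mk 7 28 68 [0x7f05ff]] = true := by
  decide +kernel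

theorem t5 : runX PT.R (Wk.frw PT.R) nl RvT (SMap.evl cT tlT PT.vx ringF) [
  .mk 7 28 68 [0x200, 0x10000000000000000000000000000000000000000000000]] = true := by
  decide +kernel

/-- The tasks. -/
noncomputable def P : List (List Tk) := [
[
  .mk 7 23 63 [0x1000, 0x400, 0x7ff170],
  .mk 7 23 63 [0x10000, 0x28d]],
[
  .mk 7 23 63 [0x10000, 0x1c00]],
[
  .mk 7 23 63 [0x10000, 0xfffffe172]],
[
  .mk 7 23 63 [0x4000000, 0x38f]],
[
  .mk 7 23 63 [0x4000000, 0xffffffc70],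
  .mk 7 24 64 [],
  .mk 7 25 65 [],
  .mk 7 26 66 [],
  .mk 7 27 67 [],
  .mk 7 28 68 [0x7f05ff]],
[
  .mk 7 28 68 [0x200, 0x10000000000000000000000000000000000000000000000]]]

theorem run : RunAll (runX PT.R (Wk.frw PT.R) nl RvT (SMap.evl cT tlT PT.vx ringF)) P :=
  .cons t0 (.cons t1 (.cons t2 (.cons t3 (.cons t4 (.cons t5 (.nil))))))

end Pool.Agent.Lib.MP_5854e1_co.Cz.Sr136

namespace Pool.Agent.Lib.MP_5854e1_co.Cz.Sr169

open PB

theorem t0 : runX PT.R (Wk.frw PT.R) nl RvT (SMap.evl cT tlT PT.vx ringF) [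
  .mk 7 252 7 [0x1000, 0x400000000, 0x3800000]] = true := by
  decide +kernel

theorem t1 : runX PT.R (Wk.frw PT.R) nl RvT (SMap.evl cT tlT PT.vx ringF) [
  .mk 7 252 7 [0x1000, 0x400000000, 0xc11ffcc],
  .mk 7 252 7 [0x10000, 0x1eefff]] = true := by
  decide +kernel

theorem t2 : runX PT.R (Wk.frw PT.R) nl RvT (SMap.evl cT tlT PT.vx ringF) [
  .mk 7 252 7 [0x10000, 0x3ffffffe11000]] = true := by
  decide +kernel

theorem t3 : runX PT.R (Wk.frw PT.R) nl RvT (SMap.evl cT tlT PT.vx ringF) [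
  .mk 7 252 7 [0x20000, 0xbf773]] = true := by
  decide +kernel

theorem t4 : runX PT.R (Wk.frw PT.R) nl RvT (SMap.evl cT tlT PT.vx ringF) [
  .mk 7 252 7 [0x20000, 0x7f4008c]] = true := by
  decide +kernel

theorem t5 : runX PT.R (Wk.frw PT.R) nl RvT (SMap.evl cT tlT PT.vx ringF) [
  .mk 7 252 7 [0x20000, 0x800, 0x193]] = true := by
  decide +kernel

/-- The tasks. -/
noncomputable def P : List (List Tk) := [
[
  .mk 7 252 7 [0x1000, 0x400000000, 0x3800000]],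
[
  .mk 7 252 7 [0x1000, 0x400000000, 0xc11ffcc],
  .mk 7 252 7 [0x10000, 0x1eefff]],
[
  .mk 7 252 7 [0x10000, 0x3ffffffe11000]],
[
  .mk 7 252 7 [0x20000, 0xbf773]],
[
  .mk 7 252 7 [0x20000, 0x7f4008c]],
[
  .mk 7 252 7 [0x20000, 0x800, 0x193]]]

theorem run : RunAll (runX PT.R (Wk.frw PT.R) nl RvT (SMap.evl cT tlT PT.vx ringF)) P :=
  .cons t0 (.cons t1 (.cons t2 (.cons t3 (.cons t4 (.cons t5 (.nil))))))

end Pool.Agent.Lib.MP_5854e1_co.Cz.Sr169
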