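import Pool.Agent.Lib.MP_5854e1_co.Cz.P
import Pool.Agent.Lib.MP_5854e1_co.Tkx
import Pool.Agent.Lib.MP_5854e1_co.RunAll

/-!
# Search, part 120
-/

set_option autoImplicit false
set_option deprecated.oldSectionVars true
set_option maxRecDepth 100000

namespace Pool.Agent.Lib.MP_5854e1_co.Cz.Sr120

open PB

theorem t0 : runX PT.R (Wk.frw PT.R) nl RvT (SMap.evl cT tlT PT.vx ringF) [
  .mk 7 2 11 [0x2000, 0x400, 0x3fffff003ffff]] = true := by
  decide +kernel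

theorem t1 : runX PT.R (Wk.frw PT.R) nl RvT (SMap.evl cT tlT PT.vx ringF) [
  .mk 7 2 11 [0x4000, 0x3f]] = true := by
  decide +kernel

theorem t2 : runX PT.R (Wk.frw PT.R) nl RvT (SMap.evl cT tlT PT.vx ringF) [
  .mk 7 2 11 [0x4000, 0x7fffc0]] = true := by
  decide +kernel

theorem t3 : runX PT.R (Wk.frw PT.R) nl RvT (SMap.evl cT tlT PT.vx ringF) [
  .mk 7 2 11 [0x4000, 0x1f4f00000000]] = true := by
  decide +kernel

theorem t4 : runX PT.R (Wk.frw PT.R) nl RvT (SMap.evl cT tlT PT.vx ringF) [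
  .mk 7 2 11 [0x4000, 0x3e0b0ff800000]] = true := by
  decide +kernel

/-- The tasks. -/
noncomputable def P : List (List Tk) := [
[
  .mk 7 2 11 [0x2000, 0x400, 0x3fffff003ffff]],
[
  .mk 7 2 11 [0x4000, 0x3f]],
[
  .mk 7 2 11 [0x4000, 0x7fffc0]],
[
  .mk 7 2 11 [0x4000, 0x1f4f00000000]],
[
  .mk 7 2 11 [0x4000, 0x3e0b0ff800000]]]

theorem run : RunAll (runX PT.R (Wk.frw PT.R) nl RvT (SMap.evl cT tlT PT.vx ringF)) P :=
  .cons t0 (.cons t1 (.cons t2 (.cons t3 (.cons t4 (.nil)))))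

end Pool.Agent.Lib.MP_5854e1_co.Cz.Sr120

namespace Pool.Agent.Lib.MP_5854e1_co.Cz.Sr306

open PB

theorem t0 : runX PT.R (Wk.frw PT.R) nl RvT (SMap.evl cT tlT PT.vx ringF) [
  .mk 14 23 12 [0x200, 0x200, 0xffffc7fc0],
  .mk 14 23 12 [0x4000000, 0x3]] = true := by
  decide +kernel

theorem t1 : runX PT.R (Wk.frw PT.R) nl RvT (SMap.evl cT tlT PT.vx ringF) [
  .mk 14 23 12 [0x4000000, 0x34]] = true := by
  decide +kernel

theorem t2 : runX PT.R (Wk.frw PT.R) nl RvT (SMap.evl cT tlT PT.vx ringF) [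
  .mk 14 23 12 [0x4000000, 0xfffffffc0]] = true := by
  decide +kernel

theorem t3 : runX PT.R (Wk.frw PT.R) nl RvT (SMap.evl cT tlT PT.vx ringF) [
  .mk 14 23 12 [0x4000000, 0x8, 0x27a793]] = true := by
  decide +kernel

theorem t4 : runX PT.R (Wk.frw PT.R) nl RvT (SMap.evl cT tlT PT.vx ringF) [
  .mk 14 23 12 [0x4000000, 0x8, 0x3ffd8586c]] = true := by
  decide +kernel

theorem t5 : runX PT.R (Wk.frw PT.R) nl RvT (SMap.evl cT tlT PT.vx ringF) [
  .mk 14 23 12 [0x8000000, 0x7fc0000]] = true := by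
  decide +kernel

/-- The tasks. -/
noncomputable def P : List (List Tk) := [
[
  .mk 14 23 12 [0x200, 0x200, 0xffffc7fc0],
  .mk 14 23 12 [0x4000000, 0x3]],
[
  .mk 14 23 12 [0x4000000, 0x34]],
[
  .mk 14 23 12 [0x4000000, 0xfffffffc0]],
[
  .mk 14 23 12 [0x4000000, 0x8, 0x27a793]],
[
  .mk 14 23 12 [0x4000000, 0x8, 0x3ffd8586c]],
[
  .mk 14 23 12 [0x8000000, 0x7fc0000]]]

theorem run : RunAll (runX PT.R (Wk.frw PT.R) nl RvT (SMap.evl cT tlT PT.vx ringF)) P :=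
  .cons t0 (.cons t1 (.cons t2 (.cons t3 (.cons t4 (.cons t5 (.nil))))))

end Pool.Agent.Lib.MP_5854e1_co.Cz.Sr306
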