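import Pool.Agent.Lib.MP_5854e1_co.Cz.P
import Pool.Agent.Lib.MP_5854e1_co.Tkx
import Pool.Agent.Lib.MP_5854e1_co.RunAll

/-!
# Search, part 125
-/

set_option autoImplicit false
set_option deprecated.oldSectionVars true
set_option maxRecDepth 100000

namespace Pool.Agent.Lib.MP_5854e1_co.Cz.Sr125

open PB

theorem t0 : runX PT.R (Wk.frw PT.R) nl RvT (SMap.evl cT tlT PT.vx ringF) [
  .mk 7 5 14 [0x400000, 0x7fc0ff]] = true := by
  decide +kernel

theorem t1 : runX PT.R (Wk.frw PT.R) nl RvT (SMap.evl cT tlT PT.vx ringF) [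
  .mk 7 5 14 [0x800000, 0x3460a01]] = true := by
  decide +kernel

theorem t2 : runX PT.R (Wk.frw PT.R) nl RvT (SMap.evl cT tlT PT.vx ringF) [
  .mk 7 5 14 [0x800000, 0x14c000000]] = true := by
  decide +kernel

theorem t3 : runX PT.R (Wk.frw PT.R) nl RvT (SMap.evl cT tlT PT.vx ringF) [
  .mk 7 5 14 [0x800000, 0x2b0b9f5fe],
  .mk 7 6 15 [],
  .mk 7 7 17 [],
  .mk 7 8 18 [],
  .mk 7 9 19 [],
  .mk 7 10 39 [],
  .mk 7 11 40 [],
  .mk 7 12 41 [],
  .mk 7 13 42 [],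
  .mk 7 14 43 []] = true := by
  decide +kernel

theorem t4 : runX PT.R (Wk.frw PT.R) nl RvT (SMap.evl cT tlT PT.vx ringF) [
  .mk 7 15 44 [0xf]] = true := by
  decide +kernel

theorem t5 : runX PT.R (Wk.frw PT.R) nl RvT (SMap.evl cT tlT PT.vx ringF) [
  .mk 7 15 44 [0xffffef0]] = true := by
  decide +kernel

theorem t6 : runX PT.R (Wk.frw PT.R) nl RvT (SMap.evl cT tlT PT.vx ringF) [
  .mk 7 15 44 [0x100, 0xfbf]] = true := by
  decide +kernel

/-- The tasks. -/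
noncomputable def P : List (List Tk) := [
[
  .mk 7 5 14 [0x400000, 0x7fc0ff]],
[
  .mk 7 5 14 [0x800000, 0x3460a01]],
[
  .mk 7 5 14 [0x800000, 0x14c000000]],
[
  .mk 7 5 14 [0x800000, 0x2b0b9f5fe],
  .mk 7 6 15 [],
  .mk 7 7 17 [],
  .mk 7 8 18 [],
  .mk 7 9 19 [],
  .mk 7 10 39 [],
  .mk 7 11 40 [],
  .mk 7 12 41 [],
  .mk 7 13 42 [],
  .mk 7 14 43 []],
[
  .mk 7 15 44 [0xf]],
[
  .mk 7 15 44 [0xffffef0]],
[
  .mk 7 15 44 [0x100, 0xfbf]]]

theorem run : RunAll (runX PT.R (Wk.frw PT.R) nl RvT (SMap.evl cT tlT PT.vx ringF)) P :=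
  .cons t0 (.cons t1 (.cons t2 (.cons t3 (.cons t4 (.cons t5 (.cons t6 (.nil)))))))

end Pool.Agent.Lib.MP_5854e1_co.Cz.Sr125

namespace Pool.Agent.Lib.MP_5854e1_co.Cz.Sr232

open PB

theorem t0 : runX PT.R (Wk.frw PT.R) nl RvT (SMap.evl cT tlT PT.vx ringF) [
  .mk 10 24 15 [0x4000000000000000000000000000000000000000000000000000000000000000000, 0x3e33]] = true := by
  decide +kernel

theorem t1 : runX PT.R (Wk.frw PT.R) nl RvT (SMap.evl cT tlT PT.vx ringF) [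
  .mk 10 24 15 [0x4000000000000000000000000000000000000000000000000000000000000000000, 0xfffffffffffffffffffffffffffffffffffffffffffffffffffffffffffffffffffc1cc]] = true := by
  decide +kernel

theorem t2 : runX PT.R (Wk.frw PT.R) nl RvT (SMap.evl cT tlT PT.vx ringF) [
  .mk 10 25 17 [],
  .mk 10 26 18 [0x1bf]] = true := by
  decide +kernel

theorem t3 : runX PT.R (Wk.frw PT.R) nl RvT (SMap.evl cT tlT PT.vx ringF) [
  .mk 10 26 18 [0x200]] = true := by
  decide +kernel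

theorem t4 : runX PT.R (Wk.frw PT.R) nl RvT (SMap.evl cT tlT PT.vx ringF) [
  .mk 10 26 18 [0x7f440]] = true := by
  decide +kernel

theorem t5 : runX PT.R (Wk.frw PT.R) nl RvT (SMap.evl cT tlT PT.vx ringF) [
  .mk 10 26 18 [0x800, 0x193]] = true := by
  decide +kernel

/-- The tasks. -/
noncomputable def P : List (List Tk) := [
[
  .mk 10 24 15 [0x4000000000000000000000000000000000000000000000000000000000000000000, 0x3e33]],
[
  .mk 10 24 15 [0x4000000000000000000000000000000000000000000000000000000000000000000, 0xfffffffffffffffffffffffffffffffffffffffffffffffffffffffffffffffffffc1cc]],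
[
  .mk 10 25 17 [],
  .mk 10 26 18 [0x1bf]],
[
  .mk 10 26 18 [0x200]],
[
  .mk 10 26 18 [0x7f440]],
[
  .mk 10 26 18 [0x800, 0x193]]]

theorem run : RunAll (runX PT.R (Wk.frw PT.R) nl RvT (SMap.evl cT tlT PT.vx ringF)) P :=
  .cons t0 (.cons t1 (.cons t2 (.cons t3 (.cons t4 (.cons t5 (.nil))))))

end Pool.Agent.Lib.MP_5854e1_co.Cz.Sr232

namespace Pool.Agent.Lib.MP_5854e1_co.Cz.Sr504

open PB

theorem t0 : runX PT.R (Wk.frw PT.R) nl RvT (SMap.evl cT tlT PT.vx ringF) [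
  .mk 61 11 23 [0x300000]] = true := by
  decide +kernel

theorem t1 : runX PT.R (Wk.frw PT.R) nl RvT (SMap.evl cT tlT PT.vx ringF) [
  .mk 61 11 23 [0x1c00000]] = true := by
  decide +kernel

theorem t2 : runX PT.R (Wk.frw PT.R) nl RvT (SMap.evl cT tlT PT.vx ringF) [
  .mk 61 11 23 [0x6016130],
  .mk 61 12 28 []] = true := by
  decide +kernel

theorem t3 : runX PT.R (Wk.frw PT.R) nl RvT (SMap.evl cT tlT PT.vx ringF) [
  .mk 61 13 29 [0xffffffdff]] = true := by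
  decide +kernel

theorem t4 : runX PT.R (Wk.frw PT.R) nl RvT (SMap.evl cT tlT PT.vx ringF) [
  .mk 61 13 29 [0x200, 0x7]] = true := by
  decide +kernel

theorem t5 : runX PT.R (Wk.frw PT.R) nl RvT (SMap.evl cT tlT PT.vx ringF) [
  .mk 61 13 29 [0x200, 0x38078]] = true := by
  decide +kernel

theorem t6 : runX PT.R (Wk.frw PT.R) nl RvT (SMap.evl cT tlT PT.vx ringF) [
  .mk 61 13 29 [0x200, 0xffffc7f80],
  .mk 62 0 0 [],
  .mk 62 1 1 [],
  .mk 62 2 5 [],
  .mk 62 3 6 [],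
  .mk 62 4 33 [],
  .mk 62 5 34 []] = true := by
  decide +kernel

/-- The tasks. -/
noncomputable def P : List (List Tk) := [
[
  .mk 61 11 23 [0x300000]],
[
  .mk 61 11 23 [0x1c00000]],
[
  .mk 61 11 23 [0x6016130],
  .mk 61 12 28 []],
[
  .mk 61 13 29 [0xffffffdff]],
[
  .mk 61 13 29 [0x200, 0x7]],
[
  .mk 61 13 29 [0x200, 0x38078]],
[
  .mk 61 13 29 [0x200, 0xffffc7f80],
  .mk 62 0 0 [],
  .mk 62 1 1 [],
  .mk 62 2 5 [],
  .mk 62 3 6 [],
  .mk 62 4 33 [],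
  .mk 62 5 34 []]]

theorem run : RunAll (runX PT.R (Wk.frw PT.R) nl RvT (SMap.evl cT tlT PT.vx ringF)) P :=
  .cons t0 (.cons t1 (.cons t2 (.cons t3 (.cons t4 (.cons t5 (.cons t6 (.nil)))))))

end Pool.Agent.Lib.MP_5854e1_co.Cz.Sr504
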