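import Pool.Agent.Lib.MP_5854e1_co.Cz.P
import Pool.Agent.Lib.MP_5854e1_co.Tkx
import Pool.Agent.Lib.MP_5854e1_co.RunAll

/-!
# Search, part 127
-/

set_option autoImplicit false
set_option deprecated.oldSectionVars true
set_option maxRecDepth 100000

namespace Pool.Agent.Lib.MP_5854e1_co.Cz.Sr127

open PB

theorem t0 : runX PT.R (Wk.frw PT.R) nl RvT (SMap.evl cT tlT PT.vx ringF) [
  .mk 7 19 48 [0x1fdab]] = true := by
  decide +kernel

theorem t1 : runX PT.R (Wk.frw PT.R) nl RvT (SMap.evl cT tlT PT.vx ringF) [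
  .mk 7 19 48 [0x1c0000]] = true := by
  decide +kernel

theorem t2 : runX PT.R (Wk.frw PT.R) nl RvT (SMap.evl cT tlT PT.vx ringF) [
  .mk 7 19 48 [0x600000]] = true := by
  decide +kernel

theorem t3 : runX PT.R (Wk.frw PT.R) nl RvT (SMap.evl cT tlT PT.vx ringF) [
  .mk 7 19 48 [0x7000054]] = true := by
  decide +kernel

theorem t4 : runX PT.R (Wk.frw PT.R) nl RvT (SMap.evl cT tlT PT.vx ringF) [
  .mk 7 19 48 [0x200, 0xd93]] = true := by
  decide +kernel

theorem t5 : runX PT.R (Wk.frw PT.R) nl RvT (SMap.evl cT tlT PT.vx ringF) [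
  .mk 7 19 48 [0x200, 0xffffff06c]] = true := by
  decide +kernel

theorem t6 : runX PT.R (Wk.frw PT.R) nl RvT (SMap.evl cT tlT PT.vx ringF) [
  .mk 7 19 48 [0x200, 0x200, 0xfffff7fff],
  .mk 7 19 48 [0x200, 0x200, 0x8000, 0xffffffffffffffffffffffffffffffffffffffffffffffffffffffdfffffffffffffffffffffffffffffffffffffffffffffffff],
  .mk 7 19 48 [0x200, 0x200, 0x8000, 0x20000000000000000000000000000000000000000000000000, 0x3fffffffd]] = true := by
  decide +kernel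

/-- The tasks. -/
noncomputable def P : List (List Tk) := [
[
  .mk 7 19 48 [0x1fdab]],
[
  .mk 7 19 48 [0x1c0000]],
[
  .mk 7 19 48 [0x600000]],
[
  .mk 7 19 48 [0x7000054]],
[
  .mk 7 19 48 [0x200, 0xd93]],
[
  .mk 7 19 48 [0x200, 0xffffff06c]],
[
  .mk 7 19 48 [0x200, 0x200, 0xfffff7fff],
  .mk 7 19 48 [0x200, 0x200, 0x8000, 0xffffffffffffffffffffffffffffffffffffffffffffffffffffffdfffffffffffffffffffffffffffffffffffffffffffffffff],
  .mk 7 19 48 [0x200, 0x200, 0x8000, 0x20000000000000000000000000000000000000000000000000, 0x3fffffffd]]]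

theorem run : RunAll (runX PT.R (Wk.frw PT.R) nl RvT (SMap.evl cT tlT PT.vx ringF)) P :=
  .cons t0 (.cons t1 (.cons t2 (.cons t3 (.cons t4 (.cons t5 (.cons t6 (.nil)))))))

end Pool.Agent.Lib.MP_5854e1_co.Cz.Sr127

namespace Pool.Agent.Lib.MP_5854e1_co.Cz.Sr307

open PB

theorem t0 : runX PT.R (Wk.frw PT.R) nl RvT (SMap.evl cT tlT PT.vx ringF) [
  .mk 14 23 12 [0x8000000, 0x3fffff803ffff],
  .mk 14 24 13 []] = true := by
  decide +kernel

theorem t1 : runX PT.R (Wk.frw PT.R) nl RvT (SMap.evl cT tlT PT.vx ringF) [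
  .mk 14 25 14 [],
  .mk 14 26 15 [],
  .mk 14 27 17 [],
  .mk 14 28 18 [],
  .mk 14 29 19 [],
  .mk 15 0 0 [],
  .mk 15 1 7 [],
  .mk 15 2 11 [],
  .mk 15 3 12 [],
  .mk 15 4 13 [],
  .mk 15 5 14 [],
  .mk 15 6 15 [],
  .mk 15 7 17 [],
  .mk 15 8 18 [],
  .mk 15 9 19 [],
  .mk 15 10 39 [],
  .mk 15 11 40 [],
  .mk 15 12 41 [],
  .mk 15 13 42 []] = true := by
  decide +kernel

theorem t2 : runX PT.R (Wk.frw PT.R) nl RvT (SMap.evl cT tlT PT.vx ringF) [
  .mk 15 14 43 [0x7bd]] = true := by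
  decide +kernel

theorem t3 : runX PT.R (Wk.frw PT.R) nl RvT (SMap.evl cT tlT PT.vx ringF) [
  .mk 15 14 43 [0x3f800]] = true := by
  decide +kernel

theorem t4 : runX PT.R (Wk.frw PT.R) nl RvT (SMap.evl cT tlT PT.vx ringF) [
  .mk 15 14 43 [0x11c0000]] = true := by
  decide +kernel

theorem t5 : runX PT.R (Wk.frw PT.R) nl RvT (SMap.evl cT tlT PT.vx ringF) [
  .mk 15 14 43 [0x6000042]] = true := by
  decide +kernel

/-- The tasks. -/
noncomputable def P : List (List Tk) := [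
[
  .mk 14 23 12 [0x8000000, 0x3fffff803ffff],
  .mk 14 24 13 []],
[
  .mk 14 25 14 [],
  .mk 14 26 15 [],
  .mk 14 27 17 [],
  .mk 14 28 18 [],
  .mk 14 29 19 [],
  .mk 15 0 0 [],
  .mk 15 1 7 [],
  .mk 15 2 11 [],
  .mk 15 3 12 [],
  .mk 15 4 13 [],
  .mk 15 5 14 [],
  .mk 15 6 15 [],
  .mk 15 7 17 [],
  .mk 15 8 18 [],
  .mk 15 9 19 [],
  .mk 15 10 39 [],
  .mk 15 11 40 [],
  .mk 15 12 41 [],
  .mk 15 13 42 []],
[
  .mk 15 14 43 [0x7bd]],
[
  .mk 15 14 43 [0x3f800]],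
[
  .mk 15 14 43 [0x11c0000]],
[
  .mk 15 14 43 [0x6000042]]]

theorem run : RunAll (runX PT.R (Wk.frw PT.R) nl RvT (SMap.evl cT tlT PT.vx ringF)) P :=
  .cons t0 (.cons t1 (.cons t2 (.cons t3 (.cons t4 (.cons t5 (.nil))))))

end Pool.Agent.Lib.MP_5854e1_co.Cz.Sr307

namespace Pool.Agent.Lib.MP_5854e1_co.Cz.Sr358

open PB

theorem t0 : runX PT.R (Wk.frw PT.R) nl RvT (SMap.evl cT tlT PT.vx ringF) [
  .mk 41 2 11 [0x2000, 0x400, 0x800000, 0x3fff9ffec],
  .mk 41 2 11 [0x2000, 0x400, 0x800000, 0x1, 0xfffffffffffffffffffffffffffffffffffffffffffffffffffffffffffffffffffffffdfffffffffffdffffffffffffffffffff]] = true := by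
  decide +kernel

/-- The tasks. -/
noncomputable def P : List (List Tk) := [
[
  .mk 41 2 11 [0x2000, 0x400, 0x800000, 0x3fff9ffec],
  .mk 41 2 11 [0x2000, 0x400, 0x800000, 0x1, 0xfffffffffffffffffffffffffffffffffffffffffffffffffffffffffffffffffffffffdfffffffffffdffffffffffffffffffff]]]

theorem run : RunAll (runX PT.R (Wk.frw PT.R) nl RvT (SMap.evl cT tlT PT.vx ringF)) P :=
  .cons t0 (.nil)

end Pool.Agent.Lib.MP_5854e1_co.Cz.Sr358

namespace Pool.Agent.Lib.MP_5854e1_co.Cz.Sr410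

open PB

theorem t0 : runX PT.R (Wk.frw PT.R) nl RvT (SMap.evl cT tlT PT.vx ringF) [
  .mk 41 27 52 [0x16988800]] = true := by
  decide +kernel

theorem t1 : runX PT.R (Wk.frw PT.R) nl RvT (SMap.evl cT tlT PT.vx ringF) [
  .mk 41 27 52 [0x20000000]] = true := by
  decide +kernel

theorem t2 : runX PT.R (Wk.frw PT.R) nl RvT (SMap.evl cT tlT PT.vx ringF) [
  .mk 41 27 52 [0xc0000000]] = true := by
  decide +kernel

theorem t3 : runX PT.R (Wk.frw PT.R) nl RvT (SMap.evl cT tlT PT.vx ringF) [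
  .mk 41 27 52 [0xf0167202c]] = true := by
  decide +kernel

theorem t4 : runX PT.R (Wk.frw PT.R) nl RvT (SMap.evl cT tlT PT.vx ringF) [
  .mk 41 27 52 [0x1, 0x6c04b03e000000000000000000000000000000000000007c2c0000000000002000000000000000000000000000000000000000]] = true := by
  decide +kernel

theorem t5 : runX PT.R (Wk.frw PT.R) nl RvT (SMap.evl cT tlT PT.vx ringF) [
  .mk 41 27 52 [0x1, 0xff93fb4fc1ffffffffffffffffffffffffffffffffffffff83d3ffffffffffffdfffffffffffffffffffffffffffffffffffffff],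
  .mk 41 27 52 [0x2, 0xfffffffffffffbfffffffffffffffffffffffffffffffffffffffffffffffffffffffff]] = true := by
  decide +kernel

/-- The tasks. -/
noncomputable def P : List (List Tk) := [
[
  .mk 41 27 52 [0x16988800]],
[
  .mk 41 27 52 [0x20000000]],
[
  .mk 41 27 52 [0xc0000000]],
[
  .mk 41 27 52 [0xf0167202c]],
[
  .mk 41 27 52 [0x1, 0x6c04b03e000000000000000000000000000000000000007c2c0000000000002000000000000000000000000000000000000000]],
[
  .mk 41 27 52 [0x1, 0xff93fb4fc1ffffffffffffffffffffffffffffffffffffff83d3ffffffffffffdfffffffffffffffffffffffffffffffffffffff],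
  .mk 41 27 52 [0x2, 0xfffffffffffffbfffffffffffffffffffffffffffffffffffffffffffffffffffffffff]]]

theorem run : RunAll (runX PT.R (Wk.frw PT.R) nl RvT (SMap.evl cT tlT PT.vx ringF)) P :=
  .cons t0 (.cons t1 (.cons t2 (.cons t3 (.cons t4 (.cons t5 (.nil))))))

end Pool.Agent.Lib.MP_5854e1_co.Cz.Sr410
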