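import Pool.Agent.Lib.MP_5854e1_co.Cz.P
import Pool.Agent.Lib.MP_5854e1_co.Tkx
import Pool.Agent.Lib.MP_5854e1_co.RunAll

/-!
# Search, part 130
-/

set_option autoImplicit false
set_option deprecated.oldSectionVars true
set_option maxRecDepth 100000

namespace Pool.Agent.Lib.MP_5854e1_co.Cz.Sr130

open PB

theorem t0 : runX PT.R (Wk.frw PT.R) nl RvT (SMap.evl cT tlT PT.vx ringF) [
  .mk 7 23 63 [0x1, 0x6000000000000000000000000000000000000000000000000000000000]] = true := by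
  decide +kernel

theorem t1 : runX PT.R (Wk.frw PT.R) nl RvT (SMap.evl cT tlT PT.vx ringF) [
  .mk 7 23 63 [0x1, 0x4c0b903e0000000000000000000000000000000000000000000000000000000000000000000000000000000000000000000000]] = true := by
  decide +kernel

theorem t2 : runX PT.R (Wk.frw PT.R) nl RvT (SMap.evl cT tlT PT.vx ringF) [
  .mk 7 23 63 [0x1, 0xffb3f46fc1ffffffffffffffffffffffffffffffffffff85dbffffffffffffffdfffffffffffffffffffffffffffffffffffffff]] = true := by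
  decide +kernel

theorem t3 : runX PT.R (Wk.frw PT.R) nl RvT (SMap.evl cT tlT PT.vx ringF) [
  .mk 7 23 63 [0x2, 0x4001004400800000000000000400000000000000000000000000000000000000]] = true := by
  decide +kernel

theorem t4 : runX PT.R (Wk.frw PT.R) nl RvT (SMap.evl cT tlT PT.vx ringF) [
  .mk 7 23 63 [0x2, 0xfffffffbffeffbbff7ffffffffffffffbffffffffffffffffffffffffffffffffffffff],
  .mk 7 23 63 [0x4, 0xd]] = true := by
  decide +kernel

theorem t5 : runX PT.R (Wk.frw PT.R) nl RvT (SMap.evl cT tlT PT.vx ringF) [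
  .mk 7 23 63 [0x4, 0xe00]] = true := by
  decide +kernel

/-- The tasks. -/
noncomputable def P : List (List Tk) := [
[
  .mk 7 23 63 [0x1, 0x6000000000000000000000000000000000000000000000000000000000]],
[
  .mk 7 23 63 [0x1, 0x4c0b903e0000000000000000000000000000000000000000000000000000000000000000000000000000000000000000000000]],
[
  .mk 7 23 63 [0x1, 0xffb3f46fc1ffffffffffffffffffffffffffffffffffff85dbffffffffffffffdfffffffffffffffffffffffffffffffffffffff]],
[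
  .mk 7 23 63 [0x2, 0x4001004400800000000000000400000000000000000000000000000000000000]],
[
  .mk 7 23 63 [0x2, 0xfffffffbffeffbbff7ffffffffffffffbffffffffffffffffffffffffffffffffffffff],
  .mk 7 23 63 [0x4, 0xd]],
[
  .mk 7 23 63 [0x4, 0xe00]]]

theorem run : RunAll (runX PT.R (Wk.frw PT.R) nl RvT (SMap.evl cT tlT PT.vx ringF)) P :=
  .cons t0 (.cons t1 (.cons t2 (.cons t3 (.cons t4 (.cons t5 (.nil))))))

end Pool.Agent.Lib.MP_5854e1_co.Cz.Sr130

namespace Pool.Agent.Lib.MP_5854e1_co.Cz.Sr177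

open PB

theorem t0 : runX PT.R (Wk.frw PT.R) nl RvT (SMap.evl cT tlT PT.vx ringF) [
  .mk 7 282 20 [0x8, 0x1f1e0000]] = true := by
  decide +kernel

theorem t1 : runX PT.R (Wk.frw PT.R) nl RvT (SMap.evl cT tlT PT.vx ringF) [
  .mk 7 282 20 [0x8, 0x3e0e1ffff]] = true := by
  decide +kernel

theorem t2 : runX PT.R (Wk.frw PT.R) nl RvT (SMap.evl cT tlT PT.vx ringF) [
  .mk 7 282 20 [0x1000, 0x3fc10de01]] = true := by
  decide +kernel

theorem t3 : runX PT.R (Wk.frw PT.R) nl RvT (SMap.evl cT tlT PT.vx ringF) [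
  .mk 7 282 20 [0x1000, 0xc03ef21fe],
  .mk 7 282 20 [0x80000, 0x6e006f]] = true := by
  decide +kernel

theorem t4 : runX PT.R (Wk.frw PT.R) nl RvT (SMap.evl cT tlT PT.vx ringF) [
  .mk 7 282 20 [0x80000, 0xf91ff90],
  .mk 7 283 28 []] = true := by
  decide +kernel

/-- The tasks. -/
noncomputable def P : List (List Tk) := [
[
  .mk 7 282 20 [0x8, 0x1f1e0000]],
[
  .mk 7 282 20 [0x8, 0x3e0e1ffff]],
[
  .mk 7 282 20 [0x1000, 0x3fc10de01]],
[
  .mk 7 282 20 [0x1000, 0xc03ef21fe],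
  .mk 7 282 20 [0x80000, 0x6e006f]],
[
  .mk 7 282 20 [0x80000, 0xf91ff90],
  .mk 7 283 28 []]]

theorem run : RunAll (runX PT.R (Wk.frw PT.R) nl RvT (SMap.evl cT tlT PT.vx ringF)) P :=
  .cons t0 (.cons t1 (.cons t2 (.cons t3 (.cons t4 (.nil)))))

end Pool.Agent.Lib.MP_5854e1_co.Cz.Sr177

namespace Pool.Agent.Lib.MP_5854e1_co.Cz.Sr372

open PB

theorem t0 : runX PT.R (Wk.frw PT.R) nl RvT (SMap.evl cT tlT PT.vx ringF) [
  .mk 41 3 12 [0x100000, 0x400000, 0x7ee844],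
  .mk 41 3 12 [0x1000000, 0xbffff]] = true := by
  decide +kernel

theorem t1 : runX PT.R (Wk.frw PT.R) nl RvT (SMap.evl cT tlT PT.vx ringF) [
  .mk 41 3 12 [0x1000000, 0x40000, 0x3]] = true := by
  decide +kernel

theorem t2 : runX PT.R (Wk.frw PT.R) nl RvT (SMap.evl cT tlT PT.vx ringF) [
  .mk 41 3 12 [0x1000000, 0x40000, 0x14]] = true := by
  decide +kernel

theorem t3 : runX PT.R (Wk.frw PT.R) nl RvT (SMap.evl cT tlT PT.vx ringF) [
  .mk 41 3 12 [0x1000000, 0x40000, 0xfffffffe0],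
  .mk 41 3 12 [0x1000000, 0x40000, 0x8, 0x260033]] = true := by
  decide +kernel

theorem t4 : runX PT.R (Wk.frw PT.R) nl RvT (SMap.evl cT tlT PT.vx ringF) [
  .mk 41 3 12 [0x1000000, 0x40000, 0x8, 0x3ffd9ffcc]] = true := by
  decide +kernel

theorem t5 : runX PT.R (Wk.frw PT.R) nl RvT (SMap.evl cT tlT PT.vx ringF) [
  .mk 41 3 12 [0x4000000, 0x993]] = true := by
  decide +kernel

theorem t6 : runX PT.R (Wk.frw PT.R) nl RvT (SMap.evl cT tlT PT.vx ringF) [
  .mk 41 3 12 [0x4000000, 0x9c000]] = true := by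
  decide +kernel

/-- The tasks. -/
noncomputable def P : List (List Tk) := [
[
  .mk 41 3 12 [0x100000, 0x400000, 0x7ee844],
  .mk 41 3 12 [0x1000000, 0xbffff]],
[
  .mk 41 3 12 [0x1000000, 0x40000, 0x3]],
[
  .mk 41 3 12 [0x1000000, 0x40000, 0x14]],
[
  .mk 41 3 12 [0x1000000, 0x40000, 0xfffffffe0],
  .mk 41 3 12 [0x1000000, 0x40000, 0x8, 0x260033]],
[
  .mk 41 3 12 [0x1000000, 0x40000, 0x8, 0x3ffd9ffcc]],
[
  .mk 41 3 12 [0x4000000, 0x993]],
[
  .mk 41 3 12 [0x4000000, 0x9c000]]]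

theorem run : RunAll (runX PT.R (Wk.frw PT.R) nl RvT (SMap.evl cT tlT PT.vx ringF)) P :=
  .cons t0 (.cons t1 (.cons t2 (.cons t3 (.cons t4 (.cons t5 (.cons t6 (.nil)))))))

end Pool.Agent.Lib.MP_5854e1_co.Cz.Sr372
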