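import Pool.Agent.Lib.MP_5854e1_co.Cz.P
import Pool.Agent.Lib.MP_5854e1_co.Tkx
import Pool.Agent.Lib.MP_5854e1_co.RunAll

/-!
# Search, part 134
-/

set_option autoImplicit false
set_option deprecated.oldSectionVars true
set_option maxRecDepth 100000

namespace Pool.Agent.Lib.MP_5854e1_co.Cz.Sr134

open PB

theorem t0 : runX PT.R (Wk.frw PT.R) nl RvT (SMap.evl cT tlT PT.vx ringF) [
  .mk 7 23 63 [0x200, 0x200, 0x4, 0x7c8974]] = true := by
  decide +kernel

theorem t1 : runX PT.R (Wk.frw PT.R) nl RvT (SMap.evl cT tlT PT.vx ringF) [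
  .mk 7 23 63 [0x200, 0x400, 0x7c0000]] = true := by
  decide +kernel

theorem t2 : runX PT.R (Wk.frw PT.R) nl RvT (SMap.evl cT tlT PT.vx ringF) [
  .mk 7 23 63 [0x200, 0x400, 0xf800000]] = true := by
  decide +kernel

theorem t3 : runX PT.R (Wk.frw PT.R) nl RvT (SMap.evl cT tlT PT.vx ringF) [
  .mk 7 23 63 [0x200, 0x400, 0xe0030000000]] = true := by
  decide +kernel

theorem t4 : runX PT.R (Wk.frw PT.R) nl RvT (SMap.evl cT tlT PT.vx ringF) [
  .mk 7 23 63 [0x200, 0x400, 0x3f1ffc003ffff]] = true := by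
  decide +kernel

theorem t5 : runX PT.R (Wk.frw PT.R) nl RvT (SMap.evl cT tlT PT.vx ringF) [
  .mk 7 23 63 [0x400, 0xbdfbf4f]] = true := by
  decide +kernel

/-- The tasks. -/
noncomputable def P : List (List Tk) := [
[
  .mk 7 23 63 [0x200, 0x200, 0x4, 0x7c8974]],
[
  .mk 7 23 63 [0x200, 0x400, 0x7c0000]],
[
  .mk 7 23 63 [0x200, 0x400, 0xf800000]],
[
  .mk 7 23 63 [0x200, 0x400, 0xe0030000000]],
[
  .mk 7 23 63 [0x200, 0x400, 0x3f1ffc003ffff]],
[
  .mk 7 23 63 [0x400, 0xbdfbf4f]]]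

theorem run : RunAll (runX PT.R (Wk.frw PT.R) nl RvT (SMap.evl cT tlT PT.vx ringF)) P :=
  .cons t0 (.cons t1 (.cons t2 (.cons t3 (.cons t4 (.cons t5 (.nil))))))

end Pool.Agent.Lib.MP_5854e1_co.Cz.Sr134

namespace Pool.Agent.Lib.MP_5854e1_co.Cz.Sr195

open PB

theorem t0 : runX PT.R (Wk.frw PT.R) nl RvT (SMap.evl cT tlT PT.vx ringF) [
  .mk 8 10 42 [0x200000, 0x80, 0x400, 0xb000000000000000000000000000000000000000000000000000000000000000000000000000000]] = true := by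
  decide +kernel

theorem t1 : runX PT.R (Wk.frw PT.R) nl RvT (SMap.evl cT tlT PT.vx ringF) [
  .mk 8 10 42 [0x200000, 0x80, 0x400, 0xfffffffffffffffffffffffff4fed3f07fffffffffffffffffffffffffffffffffffffffffffffffffffffffff0ffffffffffffe]] = true := by
  decide +kernel

theorem t2 : runX PT.R (Wk.frw PT.R) nl RvT (SMap.evl cT tlT PT.vx ringF) [
  .mk 8 10 42 [0x200000, 0x200, 0x2]] = true := by
  decide +kernel

theorem t3 : runX PT.R (Wk.frw PT.R) nl RvT (SMap.evl cT tlT PT.vx ringF) [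
  .mk 8 10 42 [0x200000, 0x200, 0x90010]] = true := by
  decide +kernel

theorem t4 : runX PT.R (Wk.frw PT.R) nl RvT (SMap.evl cT tlT PT.vx ringF) [
  .mk 8 10 42 [0x200000, 0x200, 0xffff67fec]] = true := by
  decide +kernel

theorem t5 : runX PT.R (Wk.frw PT.R) nl RvT (SMap.evl cT tlT PT.vx ringF) [
  .mk 8 10 42 [0x200000, 0x200, 0x1, 0xf0000000000000000000000000000000000000000000000000000]] = true := by
  decide +kernel

theorem t6 : runX PT.R (Wk.frw PT.R) nl RvT (SMap.evl cT tlT PT.vx ringF) [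
  .mk 8 10 42 [0x200000, 0x200, 0x1, 0xffffffffffffffffffffffffffffffffffffffffffffffffffe0ffffffffffffdfffffffffffffffffffffffffffffffffffffff]] = true := by
  decide +kernel

/-- The tasks. -/
noncomputable def P : List (List Tk) := [
[
  .mk 8 10 42 [0x200000, 0x80, 0x400, 0xb000000000000000000000000000000000000000000000000000000000000000000000000000000]],
[
  .mk 8 10 42 [0x200000, 0x80, 0x400, 0xfffffffffffffffffffffffff4fed3f07fffffffffffffffffffffffffffffffffffffffffffffffffffffffff0ffffffffffffe]],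
[
  .mk 8 10 42 [0x200000, 0x200, 0x2]],
[
  .mk 8 10 42 [0x200000, 0x200, 0x90010]],
[
  .mk 8 10 42 [0x200000, 0x200, 0xffff67fec]],
[
  .mk 8 10 42 [0x200000, 0x200, 0x1, 0xf0000000000000000000000000000000000000000000000000000]],
[
  .mk 8 10 42 [0x200000, 0x200, 0x1, 0xffffffffffffffffffffffffffffffffffffffffffffffffffe0ffffffffffffdfffffffffffffffffffffffffffffffffffffff]]]

theorem run : RunAll (runX PT.R (Wk.frw PT.R) nl RvT (SMap.evl cT tlT PT.vx ringF)) P :=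
  .cons t0 (.cons t1 (.cons t2 (.cons t3 (.cons t4 (.cons t5 (.cons t6 (.nil)))))))

end Pool.Agent.Lib.MP_5854e1_co.Cz.Sr195

namespace Pool.Agent.Lib.MP_5854e1_co.Cz.Sr538

open PB

theorem t0 : runX PT.R (Wk.frw PT.R) nl RvT (SMap.evl cT tlT PT.vx ringF) [
  .mk 67 9 8 [0x4000, 0x4, 0x7ffdff]] = true := by
  decide +kernel

theorem t1 : runX PT.R (Wk.frw PT.R) nl RvT (SMap.evl cT tlT PT.vx ringF) [
  .mk 67 9 8 [0x4000, 0x4, 0x200, 0x1fc00808200000000000000028401]] = true := by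
  decide +kernel

theorem t2 : runX PT.R (Wk.frw PT.R) nl RvT (SMap.evl cT tlT PT.vx ringF) [
  .mk 67 9 8 [0x4000, 0x4, 0x200, 0xfffffffffffffffffffffffffffffffffffffffffffffffffffffffffffffffffffffffffffe03ff7f7dfffffffffffffffd7bfe],
  .mk 67 10 9 [],
  .mk 67 11 10 [],
  .mk 67 12 15 [],
  .mk 67 13 16 [],
  .mk 68 0 0 [],
  .mk 68 1 1 [],
  .mk 68 2 2 [],
  .mk 68 3 7 [],
  .mk 68 4 8 [],
  .mk 68 5 9 [],
  .mk 68 6 10 [],
  .mk 68 7 15 [],
  .mk 68 8 16 []] = true := by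
  decide +kernel

theorem t3 : runX PT.R (Wk.frw PT.R) nl RvT (SMap.evl cT tlT PT.vx ringF) [
  .mk 68 9 0 [0xffffffffffffffffffffffffffffffffffffffffffffffffffffffffd3ffffffffffffffffffffffffffffffffffffffffffffff]] = true := by
  decide +kernel

theorem t4 : runX PT.R (Wk.frw PT.R) nl RvT (SMap.evl cT tlT PT.vx ringF) [
  .mk 68 9 0 [0x40000000000000000000000000000000000000000000000, 0x1fe9ecf]] = true := by
  decide +kernel

theorem t5 : runX PT.R (Wk.frw PT.R) nl RvT (SMap.evl cT tlT PT.vx ringF) [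
  .mk 68 9 0 [0x40000000000000000000000000000000000000000000000, 0x6016130]] = true := by
  decide +kernel

/-- The tasks. -/
noncomputable def P : List (List Tk) := [
[
  .mk 67 9 8 [0x4000, 0x4, 0x7ffdff]],
[
  .mk 67 9 8 [0x4000, 0x4, 0x200, 0x1fc00808200000000000000028401]],
[
  .mk 67 9 8 [0x4000, 0x4, 0x200, 0xfffffffffffffffffffffffffffffffffffffffffffffffffffffffffffffffffffffffffffe03ff7f7dfffffffffffffffd7bfe],
  .mk 67 10 9 [],
  .mk 67 11 10 [],
  .mk 67 12 15 [],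
  .mk 67 13 16 [],
  .mk 68 0 0 [],
  .mk 68 1 1 [],
  .mk 68 2 2 [],
  .mk 68 3 7 [],
  .mk 68 4 8 [],
  .mk 68 5 9 [],
  .mk 68 6 10 [],
  .mk 68 7 15 [],
  .mk 68 8 16 []],
[
  .mk 68 9 0 [0xffffffffffffffffffffffffffffffffffffffffffffffffffffffffd3ffffffffffffffffffffffffffffffffffffffffffffff]],
[
  .mk 68 9 0 [0x40000000000000000000000000000000000000000000000, 0x1fe9ecf]],
[
  .mk 68 9 0 [0x40000000000000000000000000000000000000000000000, 0x6016130]]]

theorem run : RunAll (runX PT.R (Wk.frw PT.R) nl RvT (SMap.evl cT tlT PT.vx ringF)) P :=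
  .cons t0 (.cons t1 (.cons t2 (.cons t3 (.cons t4 (.cons t5 (.nil))))))

end Pool.Agent.Lib.MP_5854e1_co.Cz.Sr538
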