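import Pool.Agent.Lib.MP_5854e1_co.Cz.P
import Pool.Agent.Lib.MP_5854e1_co.Tkx
import Pool.Agent.Lib.MP_5854e1_co.RunAll

/-!
# Search, part 138
-/

set_option autoImplicit false
set_option deprecated.oldSectionVars true
set_option maxRecDepth 100000

namespace Pool.Agent.Lib.MP_5854e1_co.Cz.Sr138

open PB

theorem t0 : runX PT.R (Wk.frw PT.R) nl RvT (SMap.evl cT tlT PT.vx ringF) [
  .mk 7 28 68 [0x1000, 0x2205880d00000000000000000000000000000da0010600000000]] = true := by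
  decide +kernel

theorem t1 : runX PT.R (Wk.frw PT.R) nl RvT (SMap.evl cT tlT PT.vx ringF) [
  .mk 7 28 68 [0x1000, 0xfffffffffffffffffffddfa77f2fffffffffffffffffffffffffffff25ffef9ffffffff],
  .mk 7 28 68 [0x2000, 0x6]] = true := by
  decide +kernel

theorem t2 : runX PT.R (Wk.frw PT.R) nl RvT (SMap.evl cT tlT PT.vx ringF) [
  .mk 7 28 68 [0x2000, 0x38]] = true := by
  decide +kernel

theorem t3 : runX PT.R (Wk.frw PT.R) nl RvT (SMap.evl cT tlT PT.vx ringF) [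
  .mk 7 28 68 [0x2000, 0x1980]] = true := by
  decide +kernel

theorem t4 : runX PT.R (Wk.frw PT.R) nl RvT (SMap.evl cT tlT PT.vx ringF) [
  .mk 7 28 68 [0x2000, 0x2000]] = true := by
  decide +kernel

theorem t5 : runX PT.R (Wk.frw PT.R) nl RvT (SMap.evl cT tlT PT.vx ringF) [
  .mk 7 28 68 [0x2000, 0x4000]] = true := by
  decide +kernel

theorem t6 : runX PT.R (Wk.frw PT.R) nl RvT (SMap.evl cT tlT PT.vx ringF) [
  .mk 7 28 68 [0x2000, 0xfffff8040]] = true := by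
  decide +kernel

/-- The tasks. -/
noncomputable def P : List (List Tk) := [
[
  .mk 7 28 68 [0x1000, 0x2205880d00000000000000000000000000000da0010600000000]],
[
  .mk 7 28 68 [0x1000, 0xfffffffffffffffffffddfa77f2fffffffffffffffffffffffffffff25ffef9ffffffff],
  .mk 7 28 68 [0x2000, 0x6]],
[
  .mk 7 28 68 [0x2000, 0x38]],
[
  .mk 7 28 68 [0x2000, 0x1980]],
[
  .mk 7 28 68 [0x2000, 0x2000]],
[
  .mk 7 28 68 [0x2000, 0x4000]],
[
  .mk 7 28 68 [0x2000, 0xfffff8040]]]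

theorem run : RunAll (runX PT.R (Wk.frw PT.R) nl RvT (SMap.evl cT tlT PT.vx ringF)) P :=
  .cons t0 (.cons t1 (.cons t2 (.cons t3 (.cons t4 (.cons t5 (.cons t6 (.nil)))))))

end Pool.Agent.Lib.MP_5854e1_co.Cz.Sr138

namespace Pool.Agent.Lib.MP_5854e1_co.Cz.Sr327

open PB

theorem t0 : runX PT.R (Wk.frw PT.R) nl RvT (SMap.evl cT tlT PT.vx ringF) [
  .mk 18 11 3 [0xfffffc032],
  .mk 18 12 20 [],
  .mk 18 13 28 [],
  .mk 18 14 0 [],
  .mk 18 15 7 [],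
  .mk 18 16 15 [],
  .mk 18 17 20 [],
  .mk 18 18 28 []] = true := by
  decide +kernel

theorem t1 : runX PT.R (Wk.frw PT.R) nl RvT (SMap.evl cT tlT PT.vx ringF) [
  .mk 19 0 0 [],
  .mk 19 1 1 [],
  .mk 19 2 3 [],
  .mk 19 3 20 [],
  .mk 19 4 21 [],
  .mk 19 5 22 [],
  .mk 19 6 23 [],
  .mk 19 7 28 [],
  .mk 19 8 29 []] = true := by
  decide +kernel

theorem t2 : runX PT.R (Wk.frw PT.R) nl RvT (SMap.evl cT tlT PT.vx ringF) [
  .mk 19 9 0 [],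
  .mk 19 10 1 [],
  .mk 19 11 2 [],
  .mk 19 12 7 [],
  .mk 19 13 15 [],
  .mk 19 14 0 [],
  .mk 19 15 7 [],
  .mk 19 16 15 [],
  .mk 19 17 20 [],
  .mk 19 18 28 []] = true := by
  decide +kernel

theorem t3 : runX PT.R (Wk.frw PT.R) nl RvT (SMap.evl cT tlT PT.vx ringF) [
  .mk 33 0 0 [],
  .mk 33 1 1 [],
  .mk 33 2 4 [],
  .mk 33 3 5 [],
  .mk 33 4 33 [],
  .mk 33 5 34 [],
  .mk 33 6 35 []] = true := by
  decide +kernel

theorem t4 : runX PT.R (Wk.frw PT.R) nl RvT (SMap.evl cT tlT PT.vx ringF) [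
  .mk 33 7 36 [],
  .mk 33 8 37 [0x7]] = true := by
  decide +kernel

theorem t5 : runX PT.R (Wk.frw PT.R) nl RvT (SMap.evl cT tlT PT.vx ringF) [
  .mk 33 8 37 [0x1e88]] = true := by
  decide +kernel

/-- The tasks. -/
noncomputable def P : List (List Tk) := [
[
  .mk 18 11 3 [0xfffffc032],
  .mk 18 12 20 [],
  .mk 18 13 28 [],
  .mk 18 14 0 [],
  .mk 18 15 7 [],
  .mk 18 16 15 [],
  .mk 18 17 20 [],
  .mk 18 18 28 []],
[
  .mk 19 0 0 [],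
  .mk 19 1 1 [],
  .mk 19 2 3 [],
  .mk 19 3 20 [],
  .mk 19 4 21 [],
  .mk 19 5 22 [],
  .mk 19 6 23 [],
  .mk 19 7 28 [],
  .mk 19 8 29 []],
[
  .mk 19 9 0 [],
  .mk 19 10 1 [],
  .mk 19 11 2 [],
  .mk 19 12 7 [],
  .mk 19 13 15 [],
  .mk 19 14 0 [],
  .mk 19 15 7 [],
  .mk 19 16 15 [],
  .mk 19 17 20 [],
  .mk 19 18 28 []],
[
  .mk 33 0 0 [],
  .mk 33 1 1 [],
  .mk 33 2 4 [],
  .mk 33 3 5 [],
  .mk 33 4 33 [],
  .mk 33 5 34 [],
  .mk 33 6 35 []],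
[
  .mk 33 7 36 [],
  .mk 33 8 37 [0x7]],
[
  .mk 33 8 37 [0x1e88]]]

theorem run : RunAll (runX PT.R (Wk.frw PT.R) nl RvT (SMap.evl cT tlT PT.vx ringF)) P :=
  .cons t0 (.cons t1 (.cons t2 (.cons t3 (.cons t4 (.cons t5 (.nil))))))

end Pool.Agent.Lib.MP_5854e1_co.Cz.Sr327

namespace Pool.Agent.Lib.MP_5854e1_co.Cz.Sr357

open PB

theorem t0 : runX PT.R (Wk.frw PT.R) nl RvT (SMap.evl cT tlT PT.vx ringF) [
  .mk 41 2 11 [0x2000, 0x200, 0x7803f]] = true := by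
  decide +kernel

theorem t1 : runX PT.R (Wk.frw PT.R) nl RvT (SMap.evl cT tlT PT.vx ringF) [
  .mk 41 2 11 [0x2000, 0x200, 0xffff87fc0],
  .mk 41 2 11 [0x2000, 0x400, 0x40000]] = true := by
  decide +kernel

theorem t2 : runX PT.R (Wk.frw PT.R) nl RvT (SMap.evl cT tlT PT.vx ringF) [
  .mk 41 2 11 [0x2000, 0x400, 0x380000]] = true := by
  decide +kernel

theorem t3 : runX PT.R (Wk.frw PT.R) nl RvT (SMap.evl cT tlT PT.vx ringF) [
  .mk 41 2 11 [0x2000, 0x400, 0x7400000]] = true := by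
  decide +kernel

theorem t4 : runX PT.R (Wk.frw PT.R) nl RvT (SMap.evl cT tlT PT.vx ringF) [
  .mk 41 2 11 [0x2000, 0x400, 0x3ffffe803ffff],
  .mk 41 2 11 [0x2000, 0x400, 0x800000, 0x10]] = true := by
  decide +kernel

/-- The tasks. -/
noncomputable def P : List (List Tk) := [
[
  .mk 41 2 11 [0x2000, 0x200, 0x7803f]],
[
  .mk 41 2 11 [0x2000, 0x200, 0xffff87fc0],
  .mk 41 2 11 [0x2000, 0x400, 0x40000]],
[
  .mk 41 2 11 [0x2000, 0x400, 0x380000]],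
[
  .mk 41 2 11 [0x2000, 0x400, 0x7400000]],
[
  .mk 41 2 11 [0x2000, 0x400, 0x3ffffe803ffff],
  .mk 41 2 11 [0x2000, 0x400, 0x800000, 0x10]]]

theorem run : RunAll (runX PT.R (Wk.frw PT.R) nl RvT (SMap.evl cT tlT PT.vx ringF)) P :=
  .cons t0 (.cons t1 (.cons t2 (.cons t3 (.cons t4 (.nil)))))

end Pool.Agent.Lib.MP_5854e1_co.Cz.Sr357
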