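import Pool.Agent.Lib.MP_5854e1_co.Cz.P
import Pool.Agent.Lib.MP_5854e1_co.Tkx
import Pool.Agent.Lib.MP_5854e1_co.RunAll

/-!
# Search, part 139
-/

set_option autoImplicit false
set_option deprecated.oldSectionVars true
set_option maxRecDepth 100000

namespace Pool.Agent.Lib.MP_5854e1_co.Cz.Sr139

open PB

theorem t0 : runX PT.R (Wk.frw PT.R) nl RvT (SMap.evl cT tlT PT.vx ringF) [
  .mk 7 28 68 [0x2000, 0x1, 0x1c04f03e000000000000000000000000000000000000000075fffe000000002000000000000000000000000000000000000000]] = true := by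
  decide +kernel

theorem t1 : runX PT.R (Wk.frw PT.R) nl RvT (SMap.evl cT tlT PT.vx ringF) [
  .mk 7 28 68 [0x2000, 0x1, 0xffe3fb0fc1ffffffffffffffffffffffffffffffffffffffff8a0001ffffffffdfffffffffffffffffffffffffffffffffffffff],
  .mk 7 28 68 [0x2000, 0x200, 0x33]] = true := by
  decide +kernel

theorem t2 : runX PT.R (Wk.frw PT.R) nl RvT (SMap.evl cT tlT PT.vx ringF) [
  .mk 7 28 68 [0x2000, 0x200, 0xfffffffc0],
  .mk 7 28 68 [0x2000, 0x200, 0x4, 0x8b]] = true := by
  decide +kernel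

theorem t3 : runX PT.R (Wk.frw PT.R) nl RvT (SMap.evl cT tlT PT.vx ringF) [
  .mk 7 28 68 [0x2000, 0x200, 0x4, 0x200]] = true := by
  decide +kernel

theorem t4 : runX PT.R (Wk.frw PT.R) nl RvT (SMap.evl cT tlT PT.vx ringF) [
  .mk 7 28 68 [0x2000, 0x200, 0x4, 0x15400]] = true := by
  decide +kernel

theorem t5 : runX PT.R (Wk.frw PT.R) nl RvT (SMap.evl cT tlT PT.vx ringF) [
  .mk 7 28 68 [0x2000, 0x200, 0x4, 0x7e8974]] = true := by
  decide +kernel

/-- The tasks. -/
noncomputable def P : List (List Tk) := [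
[
  .mk 7 28 68 [0x2000, 0x1, 0x1c04f03e000000000000000000000000000000000000000075fffe000000002000000000000000000000000000000000000000]],
[
  .mk 7 28 68 [0x2000, 0x1, 0xffe3fb0fc1ffffffffffffffffffffffffffffffffffffffff8a0001ffffffffdfffffffffffffffffffffffffffffffffffffff],
  .mk 7 28 68 [0x2000, 0x200, 0x33]],
[
  .mk 7 28 68 [0x2000, 0x200, 0xfffffffc0],
  .mk 7 28 68 [0x2000, 0x200, 0x4, 0x8b]],
[
  .mk 7 28 68 [0x2000, 0x200, 0x4, 0x200]],
[
  .mk 7 28 68 [0x2000, 0x200, 0x4, 0x15400]],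
[
  .mk 7 28 68 [0x2000, 0x200, 0x4, 0x7e8974]]]

theorem run : RunAll (runX PT.R (Wk.frw PT.R) nl RvT (SMap.evl cT tlT PT.vx ringF)) P :=
  .cons t0 (.cons t1 (.cons t2 (.cons t3 (.cons t4 (.cons t5 (.nil))))))

end Pool.Agent.Lib.MP_5854e1_co.Cz.Sr139

namespace Pool.Agent.Lib.MP_5854e1_co.Cz.Sr222

open PB

theorem t0 : runX PT.R (Wk.frw PT.R) nl RvT (SMap.evl cT tlT PT.vx ringF) [
  .mk 9 32 0 [0x10000000000000000000000000000000000000000000000, 0xe0000000]] = true := by
  decide +kernel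

theorem t1 : runX PT.R (Wk.frw PT.R) nl RvT (SMap.evl cT tlT PT.vx ringF) [
  .mk 9 32 0 [0x10000000000000000000000000000000000000000000000, 0xf00e67fac]] = true := by
  decide +kernel

theorem t2 : runX PT.R (Wk.frw PT.R) nl RvT (SMap.evl cT tlT PT.vx ringF) [
  .mk 9 32 0 [0x800000000000000000000000000000000000000000000000, 0x6e0033]] = true := by
  decide +kernel

theorem t3 : runX PT.R (Wk.frw PT.R) nl RvT (SMap.evl cT tlT PT.vx ringF) [
  .mk 9 32 0 [0x800000000000000000000000000000000000000000000000, 0x800000]] = true := by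
  decide +kernel

theorem t4 : runX PT.R (Wk.frw PT.R) nl RvT (SMap.evl cT tlT PT.vx ringF) [
  .mk 9 32 0 [0x800000000000000000000000000000000000000000000000, 0xf11ffcc],
  .mk 9 33 1 []] = true := by
  decide +kernel

theorem t5 : runX PT.R (Wk.frw PT.R) nl RvT (SMap.evl cT tlT PT.vx ringF) [
  .mk 9 34 3 []] = true := by
  decide +kernel

theorem t6 : runX PT.R (Wk.frw PT.R) nl RvT (SMap.evl cT tlT PT.vx ringF) [
  .mk 9 35 20 [0x500000000000000000000000000000000000043600000]] = true := by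
  decide +kernel

/-- The tasks. -/
noncomputable def P : List (List Tk) := [
[
  .mk 9 32 0 [0x10000000000000000000000000000000000000000000000, 0xe0000000]],
[
  .mk 9 32 0 [0x10000000000000000000000000000000000000000000000, 0xf00e67fac]],
[
  .mk 9 32 0 [0x800000000000000000000000000000000000000000000000, 0x6e0033]],
[
  .mk 9 32 0 [0x800000000000000000000000000000000000000000000000, 0x800000]],
[
  .mk 9 32 0 [0x800000000000000000000000000000000000000000000000, 0xf11ffcc],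
  .mk 9 33 1 []],
[
  .mk 9 34 3 []],
[
  .mk 9 35 20 [0x500000000000000000000000000000000000043600000]]]

theorem run : RunAll (runX PT.R (Wk.frw PT.R) nl RvT (SMap.evl cT tlT PT.vx ringF)) P :=
  .cons t0 (.cons t1 (.cons t2 (.cons t3 (.cons t4 (.cons t5 (.cons t6 (.nil)))))))

end Pool.Agent.Lib.MP_5854e1_co.Cz.Sr222

namespace Pool.Agent.Lib.MP_5854e1_co.Cz.Sr582

open PB

theorem t0 : runX PT.R (Wk.frw PT.R) nl RvT (SMap.evl cT tlT PT.vx ringF) [
  .mk 84 16 8 [0x80, 0xeffff]] = true := by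
  decide +kernel

theorem t1 : runX PT.R (Wk.frw PT.R) nl RvT (SMap.evl cT tlT PT.vx ringF) [
  .mk 84 16 8 [0x80, 0x10000, 0xfffffe9ff]] = true := by
  decide +kernel

theorem t2 : runX PT.R (Wk.frw PT.R) nl RvT (SMap.evl cT tlT PT.vx ringF) [
  .mk 84 16 8 [0x80, 0x10000, 0x200, 0x1]] = true := by
  decide +kernel

theorem t3 : runX PT.R (Wk.frw PT.R) nl RvT (SMap.evl cT tlT PT.vx ringF) [
  .mk 84 16 8 [0x80, 0x10000, 0x200, 0x12]] = true := by
  decide +kernel

theorem t4 : runX PT.R (Wk.frw PT.R) nl RvT (SMap.evl cT tlT PT.vx ringF) [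
  .mk 84 16 8 [0x80, 0x10000, 0x200, 0xfffffffec]] = true := by
  decide +kernel

theorem t5 : runX PT.R (Wk.frw PT.R) nl RvT (SMap.evl cT tlT PT.vx ringF) [
  .mk 84 16 8 [0x80, 0x10000, 0x400, 0x3fffffffbffff]] = true := by
  decide +kernel

theorem t6 : runX PT.R (Wk.frw PT.R) nl RvT (SMap.evl cT tlT PT.vx ringF) [
  .mk 84 16 8 [0x80, 0x10000, 0x400, 0x40000, 0xcc00007a0000000000000000000000000000000000000000000000000000000000000000000000]] = true := by
  decide +kernel

/-- The tasks. -/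
noncomputable def P : List (List Tk) := [
[
  .mk 84 16 8 [0x80, 0xeffff]],
[
  .mk 84 16 8 [0x80, 0x10000, 0xfffffe9ff]],
[
  .mk 84 16 8 [0x80, 0x10000, 0x200, 0x1]],
[
  .mk 84 16 8 [0x80, 0x10000, 0x200, 0x12]],
[
  .mk 84 16 8 [0x80, 0x10000, 0x200, 0xfffffffec]],
[
  .mk 84 16 8 [0x80, 0x10000, 0x400, 0x3fffffffbffff]],
[
  .mk 84 16 8 [0x80, 0x10000, 0x400, 0x40000, 0xcc00007a0000000000000000000000000000000000000000000000000000000000000000000000]]]

theorem run : RunAll (runX PT.R (Wk.frw PT.R) nl RvT (SMap.evl cT tlT PT.vx ringF)) P :=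
  .cons t0 (.cons t1 (.cons t2 (.cons t3 (.cons t4 (.cons t5 (.cons t6 (.nil)))))))

end Pool.Agent.Lib.MP_5854e1_co.Cz.Sr582
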