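import Pool.Agent.Lib.MP_5854e1_co.Cz.P
import Pool.Agent.Lib.MP_5854e1_co.Tkx
import Pool.Agent.Lib.MP_5854e1_co.RunAll

/-!
# Search, part 140
-/

set_option autoImplicit false
set_option deprecated.oldSectionVars true
set_option maxRecDepth 100000

namespace Pool.Agent.Lib.MP_5854e1_co.Cz.Sr140

open PB

theorem t0 : runX PT.R (Wk.frw PT.R) nl RvT (SMap.evl cT tlT PT.vx ringF) [
  .mk 7 28 68 [0x2000, 0x200, 0x4, 0x2000, 0xffffffffe]] = true := by
  decide +kernel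

theorem t1 : runX PT.R (Wk.frw PT.R) nl RvT (SMap.evl cT tlT PT.vx ringF) [
  .mk 7 28 68 [0x2000, 0x200, 0x4, 0x2000, 0x1, 0x200000000000000000000]] = true := by
  decide +kernel

theorem t2 : runX PT.R (Wk.frw PT.R) nl RvT (SMap.evl cT tlT PT.vx ringF) [
  .mk 7 28 68 [0x2000, 0x200, 0x4, 0x2000, 0x1, 0xfffffffffffffffffffffffffffffffffffffffffffffffffffffffffffffffffffffffffffffffffffdffffffffffffffffffff]] = true := by
  decide +kernel

theorem t3 : runX PT.R (Wk.frw PT.R) nl RvT (SMap.evl cT tlT PT.vx ringF) [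
  .mk 7 28 68 [0x2000, 0x200, 0x8, 0x4b260033]] = true := by
  decide +kernel

theorem t4 : runX PT.R (Wk.frw PT.R) nl RvT (SMap.evl cT tlT PT.vx ringF) [
  .mk 7 28 68 [0x2000, 0x200, 0x8, 0x3b0d9ffcc],
  .mk 7 28 68 [0x2000, 0x200, 0x8, 0x4000000, 0x1]] = true := by
  decide +kernel

theorem t5 : runX PT.R (Wk.frw PT.R) nl RvT (SMap.evl cT tlT PT.vx ringF) [
  .mk 7 28 68 [0x2000, 0x200, 0x8, 0x4000000, 0xffffffffe]] = true := by
  decide +kernel

/-- The tasks. -/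
noncomputable def P : List (List Tk) := [
[
  .mk 7 28 68 [0x2000, 0x200, 0x4, 0x2000, 0xffffffffe]],
[
  .mk 7 28 68 [0x2000, 0x200, 0x4, 0x2000, 0x1, 0x200000000000000000000]],
[
  .mk 7 28 68 [0x2000, 0x200, 0x4, 0x2000, 0x1, 0xfffffffffffffffffffffffffffffffffffffffffffffffffffffffffffffffffffffffffffffffffffdffffffffffffffffffff]],
[
  .mk 7 28 68 [0x2000, 0x200, 0x8, 0x4b260033]],
[
  .mk 7 28 68 [0x2000, 0x200, 0x8, 0x3b0d9ffcc],
  .mk 7 28 68 [0x2000, 0x200, 0x8, 0x4000000, 0x1]],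
[
  .mk 7 28 68 [0x2000, 0x200, 0x8, 0x4000000, 0xffffffffe]]]

theorem run : RunAll (runX PT.R (Wk.frw PT.R) nl RvT (SMap.evl cT tlT PT.vx ringF)) P :=
  .cons t0 (.cons t1 (.cons t2 (.cons t3 (.cons t4 (.cons t5 (.nil))))))

end Pool.Agent.Lib.MP_5854e1_co.Cz.Sr140

namespace Pool.Agent.Lib.MP_5854e1_co.Cz.Sr166

open PB

theorem t0 : runX PT.R (Wk.frw PT.R) nl RvT (SMap.evl cT tlT PT.vx ringF) [
  .mk 7 252 7 [0x8, 0x3fff9b0f6]] = true := by
  decide +kernel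

theorem t1 : runX PT.R (Wk.frw PT.R) nl RvT (SMap.evl cT tlT PT.vx ringF) [
  .mk 7 252 7 [0x8, 0x200, 0xbf]] = true := by
  decide +kernel

theorem t2 : runX PT.R (Wk.frw PT.R) nl RvT (SMap.evl cT tlT PT.vx ringF) [
  .mk 7 252 7 [0x8, 0x200, 0x1f00]] = true := by
  decide +kernel

theorem t3 : runX PT.R (Wk.frw PT.R) nl RvT (SMap.evl cT tlT PT.vx ringF) [
  .mk 7 252 7 [0x8, 0x200, 0xfffffe040]] = true := by
  decide +kernel

theorem t4 : runX PT.R (Wk.frw PT.R) nl RvT (SMap.evl cT tlT PT.vx ringF) [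
  .mk 7 252 7 [0x20, 0x116821]] = true := by
  decide +kernel

theorem t5 : runX PT.R (Wk.frw PT.R) nl RvT (SMap.evl cT tlT PT.vx ringF) [
  .mk 7 252 7 [0x20, 0x3fee97de]] = true := by
  decide +kernel

/-- The tasks. -/
noncomputable def P : List (List Tk) := [
[
  .mk 7 252 7 [0x8, 0x3fff9b0f6]],
[
  .mk 7 252 7 [0x8, 0x200, 0xbf]],
[
  .mk 7 252 7 [0x8, 0x200, 0x1f00]],
[
  .mk 7 252 7 [0x8, 0x200, 0xfffffe040]],
[
  .mk 7 252 7 [0x20, 0x116821]],
[
  .mk 7 252 7 [0x20, 0x3fee97de]]]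

theorem run : RunAll (runX PT.R (Wk.frw PT.R) nl RvT (SMap.evl cT tlT PT.vx ringF)) P :=
  .cons t0 (.cons t1 (.cons t2 (.cons t3 (.cons t4 (.cons t5 (.nil))))))

end Pool.Agent.Lib.MP_5854e1_co.Cz.Sr166

namespace Pool.Agent.Lib.MP_5854e1_co.Cz.Sr208

open PB

theorem t0 : runX PT.R (Wk.frw PT.R) nl RvT (SMap.evl cT tlT PT.vx ringF) [
  .mk 8 14 49 [0x1000, 0x7ffe01ffc004b4]] = true := by
  decide +kernel

theorem t1 : runX PT.R (Wk.frw PT.R) nl RvT (SMap.evl cT tlT PT.vx ringF) [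
  .mk 8 14 49 [0x2000, 0xc0033]] = true := by
  decide +kernel

theorem t2 : runX PT.R (Wk.frw PT.R) nl RvT (SMap.evl cT tlT PT.vx ringF) [
  .mk 8 14 49 [0x2000, 0x400000]] = true := by
  decide +kernel

theorem t3 : runX PT.R (Wk.frw PT.R) nl RvT (SMap.evl cT tlT PT.vx ringF) [
  .mk 8 14 49 [0x2000, 0x1000000]] = true := by
  decide +kernel

theorem t4 : runX PT.R (Wk.frw PT.R) nl RvT (SMap.evl cT tlT PT.vx ringF) [
  .mk 8 14 49 [0x2000, 0x611ffcc]] = true := by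
  decide +kernel

theorem t5 : runX PT.R (Wk.frw PT.R) nl RvT (SMap.evl cT tlT PT.vx ringF) [
  .mk 8 14 49 [0x2000, 0x20000, 0x1e00000000000000000000000000000000000000000000000000f00000000000200000000000000000000]] = true := by
  decide +kernel

theorem t6 : runX PT.R (Wk.frw PT.R) nl RvT (SMap.evl cT tlT PT.vx ringF) [
  .mk 8 14 49 [0x2000, 0x20000, 0x80000000000000000000000000000000000000000000000000000000000000000000000000000000000000]] = true := by
  decide +kernel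

/-- The tasks. -/
noncomputable def P : List (List Tk) := [
[
  .mk 8 14 49 [0x1000, 0x7ffe01ffc004b4]],
[
  .mk 8 14 49 [0x2000, 0xc0033]],
[
  .mk 8 14 49 [0x2000, 0x400000]],
[
  .mk 8 14 49 [0x2000, 0x1000000]],
[
  .mk 8 14 49 [0x2000, 0x611ffcc]],
[
  .mk 8 14 49 [0x2000, 0x20000, 0x1e00000000000000000000000000000000000000000000000000f00000000000200000000000000000000]],
[
  .mk 8 14 49 [0x2000, 0x20000, 0x80000000000000000000000000000000000000000000000000000000000000000000000000000000000000]]]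

theorem run : RunAll (runX PT.R (Wk.frw PT.R) nl RvT (SMap.evl cT tlT PT.vx ringF)) P :=
  .cons t0 (.cons t1 (.cons t2 (.cons t3 (.cons t4 (.cons t5 (.cons t6 (.nil)))))))

end Pool.Agent.Lib.MP_5854e1_co.Cz.Sr208
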