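import Pool.Agent.Lib.MP_5854e1_co.Cz.P
import Pool.Agent.Lib.MP_5854e1_co.Tkx
import Pool.Agent.Lib.MP_5854e1_co.RunAll

/-!
# Search, part 141
-/

set_option autoImplicit false
set_option deprecated.oldSectionVars true
set_option maxRecDepth 100000

namespace Pool.Agent.Lib.MP_5854e1_co.Cz.Sr141

open PB

theorem t0 : runX PT.R (Wk.frw PT.R) nl RvT (SMap.evl cT tlT PT.vx ringF) [
  .mk 7 28 68 [0x2000, 0x400, 0x40000]] = true := by
  decide +kernel

theorem t1 : runX PT.R (Wk.frw PT.R) nl RvT (SMap.evl cT tlT PT.vx ringF) [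
  .mk 7 28 68 [0x2000, 0x400, 0x80000]] = true := by
  decide +kernel

theorem t2 : runX PT.R (Wk.frw PT.R) nl RvT (SMap.evl cT tlT PT.vx ringF) [
  .mk 7 28 68 [0x2000, 0x400, 0x3e002f700000]] = true := by
  decide +kernel

theorem t3 : runX PT.R (Wk.frw PT.R) nl RvT (SMap.evl cT tlT PT.vx ringF) [
  .mk 7 28 68 [0x2000, 0x400, 0x3c1ffc003ffff]] = true := by
  decide +kernel

theorem t4 : runX PT.R (Wk.frw PT.R) nl RvT (SMap.evl cT tlT PT.vx ringF) [
  .mk 7 28 68 [0x2000, 0x400, 0x800000, 0x192]] = true := by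
  decide +kernel

theorem t5 : runX PT.R (Wk.frw PT.R) nl RvT (SMap.evl cT tlT PT.vx ringF) [
  .mk 7 28 68 [0x2000, 0x400, 0x800000, 0x400]] = true := by
  decide +kernel

/-- The tasks. -/
noncomputable def P : List (List Tk) := [
[
  .mk 7 28 68 [0x2000, 0x400, 0x40000]],
[
  .mk 7 28 68 [0x2000, 0x400, 0x80000]],
[
  .mk 7 28 68 [0x2000, 0x400, 0x3e002f700000]],
[
  .mk 7 28 68 [0x2000, 0x400, 0x3c1ffc003ffff]],
[
  .mk 7 28 68 [0x2000, 0x400, 0x800000, 0x192]],
[
  .mk 7 28 68 [0x2000, 0x400, 0x800000, 0x400]]]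

theorem run : RunAll (runX PT.R (Wk.frw PT.R) nl RvT (SMap.evl cT tlT PT.vx ringF)) P :=
  .cons t0 (.cons t1 (.cons t2 (.cons t3 (.cons t4 (.cons t5 (.nil))))))

end Pool.Agent.Lib.MP_5854e1_co.Cz.Sr141

namespace Pool.Agent.Lib.MP_5854e1_co.Cz.Sr149

open PB

theorem t0 : runX PT.R (Wk.frw PT.R) nl RvT (SMap.evl cT tlT PT.vx ringF) [
  .mk 7 28 68 [0x8000, 0x100000, 0x1c000000002000000000000000000000000000000000000000]] = true := by
  decide +kernel

theorem t1 : runX PT.R (Wk.frw PT.R) nl RvT (SMap.evl cT tlT PT.vx ringF) [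
  .mk 7 28 68 [0x8000, 0x100000, 0x60000000000000000000000000000000000000000000000000]] = true := by
  decide +kernel

theorem t2 : runX PT.R (Wk.frw PT.R) nl RvT (SMap.evl cT tlT PT.vx ringF) [
  .mk 7 28 68 [0x8000, 0x100000, 0x780000000000000000000000000000000000000000000000000]] = true := by
  decide +kernel

theorem t3 : runX PT.R (Wk.frw PT.R) nl RvT (SMap.evl cT tlT PT.vx ringF) [
  .mk 7 28 68 [0x8000, 0x100000, 0x7f800800000000000000000000000000000000000000000000000000]] = true := by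
  decide +kernel

theorem t4 : runX PT.R (Wk.frw PT.R) nl RvT (SMap.evl cT tlT PT.vx ringF) [
  .mk 7 28 68 [0x8000, 0x100000, 0xffffffffffffffffffffffffffffffffffffffffffffffff807ff001ffffffffdfffffffffffffffffffffffffffffffffffffff]] = true := by
  decide +kernel

theorem t5 : runX PT.R (Wk.frw PT.R) nl RvT (SMap.evl cT tlT PT.vx ringF) [
  .mk 7 28 68 [0x8000, 0x100000, 0x2000000000000000000000000000000000000000000000000, 0x2d17f]] = true := by
  decide +kernel

/-- The tasks. -/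
noncomputable def P : List (List Tk) := [
[
  .mk 7 28 68 [0x8000, 0x100000, 0x1c000000002000000000000000000000000000000000000000]],
[
  .mk 7 28 68 [0x8000, 0x100000, 0x60000000000000000000000000000000000000000000000000]],
[
  .mk 7 28 68 [0x8000, 0x100000, 0x780000000000000000000000000000000000000000000000000]],
[
  .mk 7 28 68 [0x8000, 0x100000, 0x7f800800000000000000000000000000000000000000000000000000]],
[
  .mk 7 28 68 [0x8000, 0x100000, 0xffffffffffffffffffffffffffffffffffffffffffffffff807ff001ffffffffdfffffffffffffffffffffffffffffffffffffff]],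
[
  .mk 7 28 68 [0x8000, 0x100000, 0x2000000000000000000000000000000000000000000000000, 0x2d17f]]]

theorem run : RunAll (runX PT.R (Wk.frw PT.R) nl RvT (SMap.evl cT tlT PT.vx ringF)) P :=
  .cons t0 (.cons t1 (.cons t2 (.cons t3 (.cons t4 (.cons t5 (.nil))))))

end Pool.Agent.Lib.MP_5854e1_co.Cz.Sr149

namespace Pool.Agent.Lib.MP_5854e1_co.Cz.Sr264

open PB

theorem t0 : runX PT.R (Wk.frw PT.R) nl RvT (SMap.evl cT tlT PT.vx ringF) [
  .mk 11 13 21 [0x400, 0x10000000, 0x1000, 0x40000000000000, 0x1fff80],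
  .mk 11 13 21 [0x400, 0x10000000, 0x1000, 0x80000000000000, 0x8b]] = true := by
  decide +kernel

theorem t1 : runX PT.R (Wk.frw PT.R) nl RvT (SMap.evl cT tlT PT.vx ringF) [
  .mk 11 13 21 [0x400, 0x10000000, 0x1000, 0x80000000000000, 0x200]] = true := by
  decide +kernel

theorem t2 : runX PT.R (Wk.frw PT.R) nl RvT (SMap.evl cT tlT PT.vx ringF) [
  .mk 11 13 21 [0x400, 0x10000000, 0x1000, 0x80000000000000, 0x7fd74],
  .mk 11 13 21 [0x1000, 0xff4f4f]] = true := by
  decide +kernel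

theorem t3 : runX PT.R (Wk.frw PT.R) nl RvT (SMap.evl cT tlT PT.vx ringF) [
  .mk 11 13 21 [0x1000, 0x7fffffdf00b0b0]] = true := by
  decide +kernel

theorem t4 : runX PT.R (Wk.frw PT.R) nl RvT (SMap.evl cT tlT PT.vx ringF) [
  .mk 11 13 21 [0x1000, 0x20000000, 0x368b]] = true := by
  decide +kernel

theorem t5 : runX PT.R (Wk.frw PT.R) nl RvT (SMap.evl cT tlT PT.vx ringF) [
  .mk 11 13 21 [0x1000, 0x20000000, 0x7fc974]] = true := by
  decide +kernel

/-- The tasks. -/
noncomputable def P : List (List Tk) := [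
[
  .mk 11 13 21 [0x400, 0x10000000, 0x1000, 0x40000000000000, 0x1fff80],
  .mk 11 13 21 [0x400, 0x10000000, 0x1000, 0x80000000000000, 0x8b]],
[
  .mk 11 13 21 [0x400, 0x10000000, 0x1000, 0x80000000000000, 0x200]],
[
  .mk 11 13 21 [0x400, 0x10000000, 0x1000, 0x80000000000000, 0x7fd74],
  .mk 11 13 21 [0x1000, 0xff4f4f]],
[
  .mk 11 13 21 [0x1000, 0x7fffffdf00b0b0]],
[
  .mk 11 13 21 [0x1000, 0x20000000, 0x368b]],
[
  .mk 11 13 21 [0x1000, 0x20000000, 0x7fc974]]]

theorem run : RunAll (runX PT.R (Wk.frw PT.R) nl RvT (SMap.evl cT tlT PT.vx ringF)) P :=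
  .cons t0 (.cons t1 (.cons t2 (.cons t3 (.cons t4 (.cons t5 (.nil))))))

end Pool.Agent.Lib.MP_5854e1_co.Cz.Sr264
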