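import Pool.Agent.Lib.MP_5854e1_co.Cz.P
import Pool.Agent.Lib.MP_5854e1_co.Tkx
import Pool.Agent.Lib.MP_5854e1_co.RunAll

/-!
# Search, part 142
-/

set_option autoImplicit false
set_option deprecated.oldSectionVars true
set_option maxRecDepth 100000

namespace Pool.Agent.Lib.MP_5854e1_co.Cz.Sr142

open PB

theorem t0 : runX PT.R (Wk.frw PT.R) nl RvT (SMap.evl cT tlT PT.vx ringF) [
  .mk 7 28 68 [0x2000, 0x400, 0x800000, 0x1a000]] = true := by
  decide +kernel

theorem t1 : runX PT.R (Wk.frw PT.R) nl RvT (SMap.evl cT tlT PT.vx ringF) [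
  .mk 7 28 68 [0x2000, 0x400, 0x800000, 0x3fffe586c],
  .mk 7 28 68 [0x2000, 0x400, 0x800000, 0x1, 0x1f00000000000000000000000000000000000000000000000000f00000000000200000000000000000000]] = true := by
  decide +kernel

theorem t2 : runX PT.R (Wk.frw PT.R) nl RvT (SMap.evl cT tlT PT.vx ringF) [
  .mk 7 28 68 [0x2000, 0x400, 0x800000, 0x1, 0x202580000000000000000000000000000000000000000000000000000000000000000000000000000000000000]] = true := by
  decide +kernel

theorem t3 : runX PT.R (Wk.frw PT.R) nl RvT (SMap.evl cT tlT PT.vx ringF) [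
  .mk 7 28 68 [0x2000, 0x400, 0x800000, 0x1, 0xffffffffffffffdfda7e0ffffffffffffffffffffffffffffffffffffffffffffffffff0fffffffffffdffffffffffffffffffff]] = true := by
  decide +kernel

theorem t4 : runX PT.R (Wk.frw PT.R) nl RvT (SMap.evl cT tlT PT.vx ringF) [
  .mk 7 28 68 [0x2000, 0x400, 0x800000, 0x200, 0xfffff7ffe]] = true := by
  decide +kernel

/-- The tasks. -/
noncomputable def P : List (List Tk) := [
[
  .mk 7 28 68 [0x2000, 0x400, 0x800000, 0x1a000]],
[
  .mk 7 28 68 [0x2000, 0x400, 0x800000, 0x3fffe586c],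
  .mk 7 28 68 [0x2000, 0x400, 0x800000, 0x1, 0x1f00000000000000000000000000000000000000000000000000f00000000000200000000000000000000]],
[
  .mk 7 28 68 [0x2000, 0x400, 0x800000, 0x1, 0x202580000000000000000000000000000000000000000000000000000000000000000000000000000000000000]],
[
  .mk 7 28 68 [0x2000, 0x400, 0x800000, 0x1, 0xffffffffffffffdfda7e0ffffffffffffffffffffffffffffffffffffffffffffffffff0fffffffffffdffffffffffffffffffff]],
[
  .mk 7 28 68 [0x2000, 0x400, 0x800000, 0x200, 0xfffff7ffe]]]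

theorem run : RunAll (runX PT.R (Wk.frw PT.R) nl RvT (SMap.evl cT tlT PT.vx ringF)) P :=
  .cons t0 (.cons t1 (.cons t2 (.cons t3 (.cons t4 (.nil)))))

end Pool.Agent.Lib.MP_5854e1_co.Cz.Sr142

namespace Pool.Agent.Lib.MP_5854e1_co.Cz.Sr259

open PB

theorem t0 : runX PT.R (Wk.frw PT.R) nl RvT (SMap.evl cT tlT PT.vx ringF) [
  .mk 11 13 21 [0x400, 0x10000000, 0x200, 0x100000000, 0x1, 0xffffffffffffffffffffffffffffffffffffffffffffffffffff6fffffffffffdfffffffffffffffffffffffffffffffffffffff]] = true := by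
  decide +kernel

theorem t1 : runX PT.R (Wk.frw PT.R) nl RvT (SMap.evl cT tlT PT.vx ringF) [
  .mk 11 13 21 [0x400, 0x10000000, 0x200, 0x200000000000000000000, 0x10000000000000000200000000000000000000]] = true := by
  decide +kernel

theorem t2 : runX PT.R (Wk.frw PT.R) nl RvT (SMap.evl cT tlT PT.vx ringF) [
  .mk 11 13 21 [0x400, 0x10000000, 0x200, 0x200000000000000000000, 0x20000000000000000000000000000000000000]] = true := by
  decide +kernel

theorem t3 : runX PT.R (Wk.frw PT.R) nl RvT (SMap.evl cT tlT PT.vx ringF) [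
  .mk 11 13 21 [0x400, 0x10000000, 0x200, 0x200000000000000000000, 0x340000000000000000000000000000000000000]] = true := by
  decide +kernel

theorem t4 : runX PT.R (Wk.frw PT.R) nl RvT (SMap.evl cT tlT PT.vx ringF) [
  .mk 11 13 21 [0x400, 0x10000000, 0x200, 0x200000000000000000000, 0xfffffffffffffffffffffffffffffffffffffffffffffffffffffffffffffffffc0ffffffffffffffffdffffffffffffffffffff]] = true := by
  decide +kernel

/-- The tasks. -/
noncomputable def P : List (List Tk) := [
[
  .mk 11 13 21 [0x400, 0x10000000, 0x200, 0x100000000, 0x1, 0xffffffffffffffffffffffffffffffffffffffffffffffffffff6fffffffffffdfffffffffffffffffffffffffffffffffffffff]],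
[
  .mk 11 13 21 [0x400, 0x10000000, 0x200, 0x200000000000000000000, 0x10000000000000000200000000000000000000]],
[
  .mk 11 13 21 [0x400, 0x10000000, 0x200, 0x200000000000000000000, 0x20000000000000000000000000000000000000]],
[
  .mk 11 13 21 [0x400, 0x10000000, 0x200, 0x200000000000000000000, 0x340000000000000000000000000000000000000]],
[
  .mk 11 13 21 [0x400, 0x10000000, 0x200, 0x200000000000000000000, 0xfffffffffffffffffffffffffffffffffffffffffffffffffffffffffffffffffc0ffffffffffffffffdffffffffffffffffffff]]]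

theorem run : RunAll (runX PT.R (Wk.frw PT.R) nl RvT (SMap.evl cT tlT PT.vx ringF)) P :=
  .cons t0 (.cons t1 (.cons t2 (.cons t3 (.cons t4 (.nil)))))

end Pool.Agent.Lib.MP_5854e1_co.Cz.Sr259

namespace Pool.Agent.Lib.MP_5854e1_co.Cz.Sr285

open PB

theorem t0 : runX PT.R (Wk.frw PT.R) nl RvT (SMap.evl cT tlT PT.vx ringF) [
  .mk 12 26 52 [0x200, 0x4, 0x1000]] = true := by
  decide +kernel

theorem t1 : runX PT.R (Wk.frw PT.R) nl RvT (SMap.evl cT tlT PT.vx ringF) [
  .mk 12 26 52 [0x200, 0x4, 0x36000]] = true := by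
  decide +kernel

theorem t2 : runX PT.R (Wk.frw PT.R) nl RvT (SMap.evl cT tlT PT.vx ringF) [
  .mk 12 26 52 [0x200, 0x4, 0x7c8974],
  .mk 12 26 52 [0x200, 0x8000000, 0x6218053]] = true := by
  decide +kernel

theorem t3 : runX PT.R (Wk.frw PT.R) nl RvT (SMap.evl cT tlT PT.vx ringF) [
  .mk 12 26 52 [0x200, 0x8000000, 0x18000000]] = true := by
  decide +kernel

theorem t4 : runX PT.R (Wk.frw PT.R) nl RvT (SMap.evl cT tlT PT.vx ringF) [
  .mk 12 26 52 [0x200, 0x8000000, 0xfe1de7fac]] = true := by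
  decide +kernel

theorem t5 : runX PT.R (Wk.frw PT.R) nl RvT (SMap.evl cT tlT PT.vx ringF) [
  .mk 12 26 52 [0x200, 0x400000000, 0x20013]] = true := by
  decide +kernel

theorem t6 : runX PT.R (Wk.frw PT.R) nl RvT (SMap.evl cT tlT PT.vx ringF) [
  .mk 12 26 52 [0x200, 0x400000000, 0xffdffec]] = true := by
  decide +kernel

/-- The tasks. -/
noncomputable def P : List (List Tk) := [
[
  .mk 12 26 52 [0x200, 0x4, 0x1000]],
[
  .mk 12 26 52 [0x200, 0x4, 0x36000]],
[
  .mk 12 26 52 [0x200, 0x4, 0x7c8974],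
  .mk 12 26 52 [0x200, 0x8000000, 0x6218053]],
[
  .mk 12 26 52 [0x200, 0x8000000, 0x18000000]],
[
  .mk 12 26 52 [0x200, 0x8000000, 0xfe1de7fac]],
[
  .mk 12 26 52 [0x200, 0x400000000, 0x20013]],
[
  .mk 12 26 52 [0x200, 0x400000000, 0xffdffec]]]

theorem run : RunAll (runX PT.R (Wk.frw PT.R) nl RvT (SMap.evl cT tlT PT.vx ringF)) P :=
  .cons t0 (.cons t1 (.cons t2 (.cons t3 (.cons t4 (.cons t5 (.cons t6 (.nil)))))))

end Pool.Agent.Lib.MP_5854e1_co.Cz.Sr285
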