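import Pool.Agent.Lib.MP_5854e1_co.Cz.P
import Pool.Agent.Lib.MP_5854e1_co.Tkx
import Pool.Agent.Lib.MP_5854e1_co.RunAll

/-!
# Search, part 143
-/

set_option autoImplicit false
set_option deprecated.oldSectionVars true
set_option maxRecDepth 100000

namespace Pool.Agent.Lib.MP_5854e1_co.Cz.Sr143

open PB

theorem t0 : runX PT.R (Wk.frw PT.R) nl RvT (SMap.evl cT tlT PT.vx ringF) [
  .mk 7 28 68 [0x2000, 0x400, 0x800000, 0x200, 0x1, 0x200000000000000000000]] = true := by
  decide +kernel

/-- The tasks. -/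
noncomputable def P : List (List Tk) := [
[
  .mk 7 28 68 [0x2000, 0x400, 0x800000, 0x200, 0x1, 0x200000000000000000000]]]

theorem run : RunAll (runX PT.R (Wk.frw PT.R) nl RvT (SMap.evl cT tlT PT.vx ringF)) P :=
  .cons t0 (.nil)

end Pool.Agent.Lib.MP_5854e1_co.Cz.Sr143

namespace Pool.Agent.Lib.MP_5854e1_co.Cz.Sr363

open PB

theorem t0 : runX PT.R (Wk.frw PT.R) nl RvT (SMap.evl cT tlT PT.vx ringF) [
  .mk 41 2 11 [0x2000, 0x400, 0x10000000, 0x10000]] = true := by
  decide +kernel

theorem t1 : runX PT.R (Wk.frw PT.R) nl RvT (SMap.evl cT tlT PT.vx ringF) [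
  .mk 41 2 11 [0x2000, 0x400, 0x10000000, 0x7ee974]] = true := by
  decide +kernel

theorem t2 : runX PT.R (Wk.frw PT.R) nl RvT (SMap.evl cT tlT PT.vx ringF) [
  .mk 41 2 11 [0x2000, 0x400, 0x10000000, 0x200, 0x800000000000000000008401]] = true := by
  decide +kernel

theorem t3 : runX PT.R (Wk.frw PT.R) nl RvT (SMap.evl cT tlT PT.vx ringF) [
  .mk 41 2 11 [0x2000, 0x400, 0x10000000, 0x200, 0xffffffffffffffffffffffffffffffffffffffffffffffffffffffffffffffffffffffffffffffff7f7dffffffffffffffff7bfe]] = true := by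
  decide +kernel

theorem t4 : runX PT.R (Wk.frw PT.R) nl RvT (SMap.evl cT tlT PT.vx ringF) [
  .mk 41 2 11 [0x2000, 0x400, 0x10000000, 0x200, 0x200000000000000000000, 0x200000000000000000000]] = true := by
  decide +kernel

theorem t5 : runX PT.R (Wk.frw PT.R) nl RvT (SMap.evl cT tlT PT.vx ringF) [
  .mk 41 2 11 [0x2000, 0x400, 0x10000000, 0x200, 0x200000000000000000000, 0x20000000000000000000000000000000000000]] = true := by
  decide +kernel

/-- The tasks. -/
noncomputable def P : List (List Tk) := [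
[
  .mk 41 2 11 [0x2000, 0x400, 0x10000000, 0x10000]],
[
  .mk 41 2 11 [0x2000, 0x400, 0x10000000, 0x7ee974]],
[
  .mk 41 2 11 [0x2000, 0x400, 0x10000000, 0x200, 0x800000000000000000008401]],
[
  .mk 41 2 11 [0x2000, 0x400, 0x10000000, 0x200, 0xffffffffffffffffffffffffffffffffffffffffffffffffffffffffffffffffffffffffffffffff7f7dffffffffffffffff7bfe]],
[
  .mk 41 2 11 [0x2000, 0x400, 0x10000000, 0x200, 0x200000000000000000000, 0x200000000000000000000]],
[
  .mk 41 2 11 [0x2000, 0x400, 0x10000000, 0x200, 0x200000000000000000000, 0x20000000000000000000000000000000000000]]]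

theorem run : RunAll (runX PT.R (Wk.frw PT.R) nl RvT (SMap.evl cT tlT PT.vx ringF)) P :=
  .cons t0 (.cons t1 (.cons t2 (.cons t3 (.cons t4 (.cons t5 (.nil))))))

end Pool.Agent.Lib.MP_5854e1_co.Cz.Sr363

namespace Pool.Agent.Lib.MP_5854e1_co.Cz.Sr507

open PB

theorem t0 : runX PT.R (Wk.frw PT.R) nl RvT (SMap.evl cT tlT PT.vx ringF) [
  .mk 63 1 20 [0x4000000000000000000000000000000000000000000000000000000000, 0x1000, 0xd61f97f90]] = true := by
  decide +kernel

theorem t1 : runX PT.R (Wk.frw PT.R) nl RvT (SMap.evl cT tlT PT.vx ringF) [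
  .mk 63 1 20 [0x4000000000000000000000000000000000000000000000000000000000, 0x80000, 0xffffdff],
  .mk 63 1 20 [0x4000000000000000000000000000000000000000000000000000000000, 0x80000, 0x200, 0x13]] = true := by
  decide +kernel

theorem t2 : runX PT.R (Wk.frw PT.R) nl RvT (SMap.evl cT tlT PT.vx ringF) [
  .mk 63 1 20 [0x4000000000000000000000000000000000000000000000000000000000, 0x80000, 0x200, 0xfffffffec]] = true := by
  decide +kernel

theorem t3 : runX PT.R (Wk.frw PT.R) nl RvT (SMap.evl cT tlT PT.vx ringF) [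
  .mk 63 2 26 [0x7f5ff],
  .mk 63 2 26 [0x200, 0x800000000000000000000000000000000000000000]] = true := by
  decide +kernel

theorem t4 : runX PT.R (Wk.frw PT.R) nl RvT (SMap.evl cT tlT PT.vx ringF) [
  .mk 63 2 26 [0x200, 0xffffffffffffffffffffffffffffffffffffffffffffffffffffffffffffff7fffffffffffffffffffffffffffffffffffffffff]] = true := by
  decide +kernel

theorem t5 : runX PT.R (Wk.frw PT.R) nl RvT (SMap.evl cT tlT PT.vx ringF) [
  .mk 63 2 26 [0x800, 0x7]] = true := by
  decide +kernel

/-- The tasks. -/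
noncomputable def P : List (List Tk) := [
[
  .mk 63 1 20 [0x4000000000000000000000000000000000000000000000000000000000, 0x1000, 0xd61f97f90]],
[
  .mk 63 1 20 [0x4000000000000000000000000000000000000000000000000000000000, 0x80000, 0xffffdff],
  .mk 63 1 20 [0x4000000000000000000000000000000000000000000000000000000000, 0x80000, 0x200, 0x13]],
[
  .mk 63 1 20 [0x4000000000000000000000000000000000000000000000000000000000, 0x80000, 0x200, 0xfffffffec]],
[
  .mk 63 2 26 [0x7f5ff],
  .mk 63 2 26 [0x200, 0x800000000000000000000000000000000000000000]],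
[
  .mk 63 2 26 [0x200, 0xffffffffffffffffffffffffffffffffffffffffffffffffffffffffffffff7fffffffffffffffffffffffffffffffffffffffff]],
[
  .mk 63 2 26 [0x800, 0x7]]]

theorem run : RunAll (runX PT.R (Wk.frw PT.R) nl RvT (SMap.evl cT tlT PT.vx ringF)) P :=
  .cons t0 (.cons t1 (.cons t2 (.cons t3 (.cons t4 (.cons t5 (.nil))))))

end Pool.Agent.Lib.MP_5854e1_co.Cz.Sr507
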