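import Pool.Agent.Lib.MP_5854e1_co.Cz.P
import Pool.Agent.Lib.MP_5854e1_co.Tkx
import Pool.Agent.Lib.MP_5854e1_co.RunAll

/-!
# Search, part 144
-/

set_option autoImplicit false
set_option deprecated.oldSectionVars true
set_option maxRecDepth 100000

namespace Pool.Agent.Lib.MP_5854e1_co.Cz.Sr144

open PB

theorem t0 : runX PT.R (Wk.frw PT.R) nl RvT (SMap.evl cT tlT PT.vx ringF) [
  .mk 7 28 68 [0x2000, 0x400, 0x800000, 0x200, 0x1, 0xfffffffffffffffffffffffffffffffffffffffffffffffffffffffffffffffffffffffffffffffffffdffffffffffffffffffff]] = true := by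
  decide +kernel

theorem t1 : runX PT.R (Wk.frw PT.R) nl RvT (SMap.evl cT tlT PT.vx ringF) [
  .mk 7 28 68 [0x2000, 0x400, 0x800000, 0x200, 0x8000, 0x2000000000000000000000000000000000000000]] = true := by
  decide +kernel

theorem t2 : runX PT.R (Wk.frw PT.R) nl RvT (SMap.evl cT tlT PT.vx ringF) [
  .mk 7 28 68 [0x2000, 0x400, 0x800000, 0x200, 0x8000, 0xffffffffffffffffffffffffffffffffffffffffffffffffffffffffffffffffdfffffffffffffffffffffffffffffffffffffff],
  .mk 7 28 68 [0x2000, 0x400, 0x10000000, 0x8f]] = true := by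
  decide +kernel

theorem t3 : runX PT.R (Wk.frw PT.R) nl RvT (SMap.evl cT tlT PT.vx ringF) [
  .mk 7 28 68 [0x2000, 0x400, 0x10000000, 0x200]] = true := by
  decide +kernel

theorem t4 : runX PT.R (Wk.frw PT.R) nl RvT (SMap.evl cT tlT PT.vx ringF) [
  .mk 7 28 68 [0x2000, 0x400, 0x10000000, 0xc00]] = true := by
  decide +kernel

theorem t5 : runX PT.R (Wk.frw PT.R) nl RvT (SMap.evl cT tlT PT.vx ringF) [
  .mk 7 28 68 [0x2000, 0x400, 0x10000000, 0x7ff170]] = true := by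
  decide +kernel

/-- The tasks. -/
noncomputable def P : List (List Tk) := [
[
  .mk 7 28 68 [0x2000, 0x400, 0x800000, 0x200, 0x1, 0xfffffffffffffffffffffffffffffffffffffffffffffffffffffffffffffffffffffffffffffffffffdffffffffffffffffffff]],
[
  .mk 7 28 68 [0x2000, 0x400, 0x800000, 0x200, 0x8000, 0x2000000000000000000000000000000000000000]],
[
  .mk 7 28 68 [0x2000, 0x400, 0x800000, 0x200, 0x8000, 0xffffffffffffffffffffffffffffffffffffffffffffffffffffffffffffffffdfffffffffffffffffffffffffffffffffffffff],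
  .mk 7 28 68 [0x2000, 0x400, 0x10000000, 0x8f]],
[
  .mk 7 28 68 [0x2000, 0x400, 0x10000000, 0x200]],
[
  .mk 7 28 68 [0x2000, 0x400, 0x10000000, 0xc00]],
[
  .mk 7 28 68 [0x2000, 0x400, 0x10000000, 0x7ff170]]]

theorem run : RunAll (runX PT.R (Wk.frw PT.R) nl RvT (SMap.evl cT tlT PT.vx ringF)) P :=
  .cons t0 (.cons t1 (.cons t2 (.cons t3 (.cons t4 (.cons t5 (.nil))))))

end Pool.Agent.Lib.MP_5854e1_co.Cz.Sr144

namespace Pool.Agent.Lib.MP_5854e1_co.Cz.Sr441

open PB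

theorem t0 : runX PT.R (Wk.frw PT.R) nl RvT (SMap.evl cT tlT PT.vx ringF) [
  .mk 42 26 68 [0x2000, 0x8000, 0x3800ffe00000000200000000000000000000]] = true := by
  decide +kernel

theorem t1 : runX PT.R (Wk.frw PT.R) nl RvT (SMap.evl cT tlT PT.vx ringF) [
  .mk 42 26 68 [0x2000, 0x8000, 0xffffffffffffffffffffffffffffffffffffffffffffffffffffffffffffffffffffc7ff001ffffffffdffffffffffffffffffff]] = true := by
  decide +kernel

theorem t2 : runX PT.R (Wk.frw PT.R) nl RvT (SMap.evl cT tlT PT.vx ringF) [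
  .mk 42 26 68 [0x4000, 0x6]] = true := by
  decide +kernel

theorem t3 : runX PT.R (Wk.frw PT.R) nl RvT (SMap.evl cT tlT PT.vx ringF) [
  .mk 42 26 68 [0x4000, 0x1d8]] = true := by
  decide +kernel

theorem t4 : runX PT.R (Wk.frw PT.R) nl RvT (SMap.evl cT tlT PT.vx ringF) [
  .mk 42 26 68 [0x4000, 0x1f0a00]] = true := by
  decide +kernel

theorem t5 : runX PT.R (Wk.frw PT.R) nl RvT (SMap.evl cT tlT PT.vx ringF) [
  .mk 42 26 68 [0x4000, 0x3ffffffe0f000]] = true := by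
  decide +kernel

/-- The tasks. -/
noncomputable def P : List (List Tk) := [
[
  .mk 42 26 68 [0x2000, 0x8000, 0x3800ffe00000000200000000000000000000]],
[
  .mk 42 26 68 [0x2000, 0x8000, 0xffffffffffffffffffffffffffffffffffffffffffffffffffffffffffffffffffffc7ff001ffffffffdffffffffffffffffffff]],
[
  .mk 42 26 68 [0x4000, 0x6]],
[
  .mk 42 26 68 [0x4000, 0x1d8]],
[
  .mk 42 26 68 [0x4000, 0x1f0a00]],
[
  .mk 42 26 68 [0x4000, 0x3ffffffe0f000]]]

theorem run : RunAll (runX PT.R (Wk.frw PT.R) nl RvT (SMap.evl cT tlT PT.vx ringF)) P :=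
  .cons t0 (.cons t1 (.cons t2 (.cons t3 (.cons t4 (.cons t5 (.nil))))))

end Pool.Agent.Lib.MP_5854e1_co.Cz.Sr441

namespace Pool.Agent.Lib.MP_5854e1_co.Cz.Sr556

open PB

theorem t0 : runX PT.R (Wk.frw PT.R) nl RvT (SMap.evl cT tlT PT.vx ringF) [
  .mk 68 14 22 [0x772e0]] = true := by
  decide +kernel

theorem t1 : runX PT.R (Wk.frw PT.R) nl RvT (SMap.evl cT tlT PT.vx ringF) [
  .mk 68 14 22 [0x4e00200000]] = true := by
  decide +kernel

theorem t2 : runX PT.R (Wk.frw PT.R) nl RvT (SMap.evl cT tlT PT.vx ringF) [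
  .mk 68 14 22 [0x1f0000000000]] = true := by
  decide +kernel

theorem t3 : runX PT.R (Wk.frw PT.R) nl RvT (SMap.evl cT tlT PT.vx ringF) [
  .mk 68 14 22 [0x3e0b0ffd88900]] = true := by
  decide +kernel

theorem t4 : runX PT.R (Wk.frw PT.R) nl RvT (SMap.evl cT tlT PT.vx ringF) [
  .mk 68 14 22 [0x400, 0x11531]] = true := by
  decide +kernel

theorem t5 : runX PT.R (Wk.frw PT.R) nl RvT (SMap.evl cT tlT PT.vx ringF) [
  .mk 68 14 22 [0x400, 0x7e88ce]] = true := by
  decide +kernel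

/-- The tasks. -/
noncomputable def P : List (List Tk) := [
[
  .mk 68 14 22 [0x772e0]],
[
  .mk 68 14 22 [0x4e00200000]],
[
  .mk 68 14 22 [0x1f0000000000]],
[
  .mk 68 14 22 [0x3e0b0ffd88900]],
[
  .mk 68 14 22 [0x400, 0x11531]],
[
  .mk 68 14 22 [0x400, 0x7e88ce]]]

theorem run : RunAll (runX PT.R (Wk.frw PT.R) nl RvT (SMap.evl cT tlT PT.vx ringF)) P :=
  .cons t0 (.cons t1 (.cons t2 (.cons t3 (.cons t4 (.cons t5 (.nil))))))

end Pool.Agent.Lib.MP_5854e1_co.Cz.Sr556
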