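import Pool.Agent.Lib.MP_5854e1_co.Cz.P
import Pool.Agent.Lib.MP_5854e1_co.Tkx
import Pool.Agent.Lib.MP_5854e1_co.RunAll

/-!
# Search, part 147
-/

set_option autoImplicit false
set_option deprecated.oldSectionVars true
set_option maxRecDepth 100000

namespace Pool.Agent.Lib.MP_5854e1_co.Cz.Sr147

open PB

theorem t0 : runX PT.R (Wk.frw PT.R) nl RvT (SMap.evl cT tlT PT.vx ringF) [
  .mk 7 28 68 [0x4000, 0x400, 0x2000, 0x1, 0x1800000000000000000000000000000]] = true := by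
  decide +kernel

theorem t1 : runX PT.R (Wk.frw PT.R) nl RvT (SMap.evl cT tlT PT.vx ringF) [
  .mk 7 28 68 [0x4000, 0x400, 0x2000, 0x1, 0xfffffffffffffffffffffffffffffffffffffffffffffffffffffffffffffffffffffffffe1ffffffffdffffffffffffffffffff]] = true := by
  decide +kernel

theorem t2 : runX PT.R (Wk.frw PT.R) nl RvT (SMap.evl cT tlT PT.vx ringF) [
  .mk 7 28 68 [0x4000, 0x400, 0x2000, 0x8, 0x20013]] = true := by
  decide +kernel

theorem t3 : runX PT.R (Wk.frw PT.R) nl RvT (SMap.evl cT tlT PT.vx ringF) [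
  .mk 7 28 68 [0x4000, 0x400, 0x2000, 0x8, 0x3fffdffec]] = true := by
  decide +kernel

theorem t4 : runX PT.R (Wk.frw PT.R) nl RvT (SMap.evl cT tlT PT.vx ringF) [
  .mk 7 28 68 [0x4000, 0x400, 0x4000, 0x2f7]] = true := by
  decide +kernel

theorem t5 : runX PT.R (Wk.frw PT.R) nl RvT (SMap.evl cT tlT PT.vx ringF) [
  .mk 7 28 68 [0x4000, 0x400, 0x4000, 0x3fffffffffc00]] = true := by
  decide +kernel

theorem t6 : runX PT.R (Wk.frw PT.R) nl RvT (SMap.evl cT tlT PT.vx ringF) [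
  .mk 7 28 68 [0x4000, 0x400, 0x4000, 0x8, 0x60013]] = true := by
  decide +kernel

theorem t7 : runX PT.R (Wk.frw PT.R) nl RvT (SMap.evl cT tlT PT.vx ringF) [
  .mk 7 28 68 [0x4000, 0x400, 0x4000, 0x8, 0x3fff9ffec],
  .mk 7 28 68 [0x4000, 0x400, 0x4000, 0x100, 0x8b]] = true := by
  decide +kernel

/-- The tasks. -/
noncomputable def P : List (List Tk) := [
[
  .mk 7 28 68 [0x4000, 0x400, 0x2000, 0x1, 0x1800000000000000000000000000000]],
[
  .mk 7 28 68 [0x4000, 0x400, 0x2000, 0x1, 0xfffffffffffffffffffffffffffffffffffffffffffffffffffffffffffffffffffffffffe1ffffffffdffffffffffffffffffff]],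
[
  .mk 7 28 68 [0x4000, 0x400, 0x2000, 0x8, 0x20013]],
[
  .mk 7 28 68 [0x4000, 0x400, 0x2000, 0x8, 0x3fffdffec]],
[
  .mk 7 28 68 [0x4000, 0x400, 0x4000, 0x2f7]],
[
  .mk 7 28 68 [0x4000, 0x400, 0x4000, 0x3fffffffffc00]],
[
  .mk 7 28 68 [0x4000, 0x400, 0x4000, 0x8, 0x60013]],
[
  .mk 7 28 68 [0x4000, 0x400, 0x4000, 0x8, 0x3fff9ffec],
  .mk 7 28 68 [0x4000, 0x400, 0x4000, 0x100, 0x8b]]]

theorem run : RunAll (runX PT.R (Wk.frw PT.R) nl RvT (SMap.evl cT tlT PT.vx ringF)) P :=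
  .cons t0 (.cons t1 (.cons t2 (.cons t3 (.cons t4 (.cons t5 (.cons t6 (.cons t7 (.nil))))))))

end Pool.Agent.Lib.MP_5854e1_co.Cz.Sr147

namespace Pool.Agent.Lib.MP_5854e1_co.Cz.Sr367

open PB

theorem t0 : runX PT.R (Wk.frw PT.R) nl RvT (SMap.evl cT tlT PT.vx ringF) [
  .mk 41 2 11 [0x2000, 0x400, 0x10000000, 0x1000, 0x1, 0x3000000000000000000000000000000000000000000000000000000000000000000000000000000000000000000000000]] = true := by
  decide +kernel

theorem t1 : runX PT.R (Wk.frw PT.R) nl RvT (SMap.evl cT tlT PT.vx ringF) [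
  .mk 41 2 11 [0x2000, 0x400, 0x10000000, 0x1000, 0x1, 0x1000000000000000000000000000000000000000000000000000000000000000000000000000000000000000000000000000]] = true := by
  decide +kernel

theorem t2 : runX PT.R (Wk.frw PT.R) nl RvT (SMap.evl cT tlT PT.vx ringF) [
  .mk 41 2 11 [0x2000, 0x400, 0x10000000, 0x1000, 0x1, 0xffffeffcbfffffffffffffffffffffffffffffffffffffffffffffffffffffffffffffffffffffffffffffffffffffffffffffff]] = true := by
  decide +kernel

theorem t3 : runX PT.R (Wk.frw PT.R) nl RvT (SMap.evl cT tlT PT.vx ringF) [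
  .mk 41 2 11 [0x2000, 0x400, 0x10000000, 0x1000, 0x40000000000000, 0x1fffff]] = true := by
  decide +kernel

theorem t4 : runX PT.R (Wk.frw PT.R) nl RvT (SMap.evl cT tlT PT.vx ringF) [
  .mk 41 2 11 [0x2000, 0x400, 0x10000000, 0x1000, 0x80000000000000, 0x7ffff]] = true := by
  decide +kernel

/-- The tasks. -/
noncomputable def P : List (List Tk) := [
[
  .mk 41 2 11 [0x2000, 0x400, 0x10000000, 0x1000, 0x1, 0x3000000000000000000000000000000000000000000000000000000000000000000000000000000000000000000000000]],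
[
  .mk 41 2 11 [0x2000, 0x400, 0x10000000, 0x1000, 0x1, 0x1000000000000000000000000000000000000000000000000000000000000000000000000000000000000000000000000000]],
[
  .mk 41 2 11 [0x2000, 0x400, 0x10000000, 0x1000, 0x1, 0xffffeffcbfffffffffffffffffffffffffffffffffffffffffffffffffffffffffffffffffffffffffffffffffffffffffffffff]],
[
  .mk 41 2 11 [0x2000, 0x400, 0x10000000, 0x1000, 0x40000000000000, 0x1fffff]],
[
  .mk 41 2 11 [0x2000, 0x400, 0x10000000, 0x1000, 0x80000000000000, 0x7ffff]]]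

theorem run : RunAll (runX PT.R (Wk.frw PT.R) nl RvT (SMap.evl cT tlT PT.vx ringF)) P :=
  .cons t0 (.cons t1 (.cons t2 (.cons t3 (.cons t4 (.nil)))))

end Pool.Agent.Lib.MP_5854e1_co.Cz.Sr367
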