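import Pool.Agent.Lib.MP_5854e1_co.Cz.P
import Pool.Agent.Lib.MP_5854e1_co.Tkx
import Pool.Agent.Lib.MP_5854e1_co.RunAll

/-!
# Search, part 153
-/

set_option autoImplicit false
set_option deprecated.oldSectionVars true
set_option maxRecDepth 100000

namespace Pool.Agent.Lib.MP_5854e1_co.Cz.Sr153

open PB

theorem t0 : runX PT.R (Wk.frw PT.R) nl RvT (SMap.evl cT tlT PT.vx ringF) [
  .mk 7 28 68 [0x8000, 0x800000, 0x48000000]] = true := by
  decide +kernel

theorem t1 : runX PT.R (Wk.frw PT.R) nl RvT (SMap.evl cT tlT PT.vx ringF) [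
  .mk 7 28 68 [0x8000, 0x800000, 0x3b0d9ffcc]] = true := by
  decide +kernel

theorem t2 : runX PT.R (Wk.frw PT.R) nl RvT (SMap.evl cT tlT PT.vx ringF) [
  .mk 7 28 68 [0x8000, 0x800000, 0x20000, 0x1f00000000000000000000000000000000000000000000000000f00000000000200000000000000000000]] = true := by
  decide +kernel

theorem t3 : runX PT.R (Wk.frw PT.R) nl RvT (SMap.evl cT tlT PT.vx ringF) [
  .mk 7 28 68 [0x8000, 0x800000, 0x20000, 0x2580000000000000000000000000000000000000000000000000000000000000000000000000000000000000]] = true := by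
  decide +kernel

theorem t4 : runX PT.R (Wk.frw PT.R) nl RvT (SMap.evl cT tlT PT.vx ringF) [
  .mk 7 28 68 [0x8000, 0x800000, 0x20000, 0xffffffffffffffffda7e0ffffffffffffffffffffffffffffffffffffffffffffffffff0fffffffffffdffffffffffffffffffff]] = true := by
  decide +kernel

/-- The tasks. -/
noncomputable def P : List (List Tk) := [
[
  .mk 7 28 68 [0x8000, 0x800000, 0x48000000]],
[
  .mk 7 28 68 [0x8000, 0x800000, 0x3b0d9ffcc]],
[
  .mk 7 28 68 [0x8000, 0x800000, 0x20000, 0x1f00000000000000000000000000000000000000000000000000f00000000000200000000000000000000]],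
[
  .mk 7 28 68 [0x8000, 0x800000, 0x20000, 0x2580000000000000000000000000000000000000000000000000000000000000000000000000000000000000]],
[
  .mk 7 28 68 [0x8000, 0x800000, 0x20000, 0xffffffffffffffffda7e0ffffffffffffffffffffffffffffffffffffffffffffffffff0fffffffffffdffffffffffffffffffff]]]

theorem run : RunAll (runX PT.R (Wk.frw PT.R) nl RvT (SMap.evl cT tlT PT.vx ringF)) P :=
  .cons t0 (.cons t1 (.cons t2 (.cons t3 (.cons t4 (.nil)))))

end Pool.Agent.Lib.MP_5854e1_co.Cz.Sr153

namespace Pool.Agent.Lib.MP_5854e1_co.Cz.Sr542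

open PB

theorem t0 : runX PT.R (Wk.frw PT.R) nl RvT (SMap.evl cT tlT PT.vx ringF) [
  .mk 68 13 21 [0x200, 0x4, 0x3448b]] = true := by
  decide +kernel

theorem t1 : runX PT.R (Wk.frw PT.R) nl RvT (SMap.evl cT tlT PT.vx ringF) [
  .mk 68 13 21 [0x200, 0x4, 0x7c8974]] = true := by
  decide +kernel

theorem t2 : runX PT.R (Wk.frw PT.R) nl RvT (SMap.evl cT tlT PT.vx ringF) [
  .mk 68 13 21 [0x200, 0x4, 0x200, 0x1c00808200000000000000028401]] = true := by
  decide +kernel

theorem t3 : runX PT.R (Wk.frw PT.R) nl RvT (SMap.evl cT tlT PT.vx ringF) [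
  .mk 68 13 21 [0x200, 0x4, 0x200, 0x52000000000000000000000000000]] = true := by
  decide +kernel

theorem t4 : runX PT.R (Wk.frw PT.R) nl RvT (SMap.evl cT tlT PT.vx ringF) [
  .mk 68 13 21 [0x200, 0x4, 0x200, 0xfffffffffffffffffffffffffffffffffffffffffffffffffffffffffffffffffffffffffffac3ff7f7dfffffffffffffffd7bfe]] = true := by
  decide +kernel

theorem t5 : runX PT.R (Wk.frw PT.R) nl RvT (SMap.evl cT tlT PT.vx ringF) [
  .mk 68 13 21 [0x200, 0x4, 0x1000, 0x2581f00000000000000000000000000000000000f00000001]] = true := by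
  decide +kernel

/-- The tasks. -/
noncomputable def P : List (List Tk) := [
[
  .mk 68 13 21 [0x200, 0x4, 0x3448b]],
[
  .mk 68 13 21 [0x200, 0x4, 0x7c8974]],
[
  .mk 68 13 21 [0x200, 0x4, 0x200, 0x1c00808200000000000000028401]],
[
  .mk 68 13 21 [0x200, 0x4, 0x200, 0x52000000000000000000000000000]],
[
  .mk 68 13 21 [0x200, 0x4, 0x200, 0xfffffffffffffffffffffffffffffffffffffffffffffffffffffffffffffffffffffffffffac3ff7f7dfffffffffffffffd7bfe]],
[
  .mk 68 13 21 [0x200, 0x4, 0x1000, 0x2581f00000000000000000000000000000000000f00000001]]]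

theorem run : RunAll (runX PT.R (Wk.frw PT.R) nl RvT (SMap.evl cT tlT PT.vx ringF)) P :=
  .cons t0 (.cons t1 (.cons t2 (.cons t3 (.cons t4 (.cons t5 (.nil))))))

end Pool.Agent.Lib.MP_5854e1_co.Cz.Sr542
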