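import Pool.Agent.Lib.MP_5854e1_co.Cz.P
import Pool.Agent.Lib.MP_5854e1_co.Tkx
import Pool.Agent.Lib.MP_5854e1_co.RunAll

/-!
# Search, part 156
-/

set_option autoImplicit false
set_option deprecated.oldSectionVars true
set_option maxRecDepth 100000

namespace Pool.Agent.Lib.MP_5854e1_co.Cz.Sr156

open PB

theorem t0 : runX PT.R (Wk.frw PT.R) nl RvT (SMap.evl cT tlT PT.vx ringF) [
  .mk 7 28 68 [0x8000, 0x800000, 0x4000000, 0x8000, 0xffffffffffffffffffffffffffffffffffffffffffffffffffffffffffffffffdfffffffffffffffffffffffffffffffffffffff]] = true := by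
  decide +kernel

theorem t1 : runX PT.R (Wk.frw PT.R) nl RvT (SMap.evl cT tlT PT.vx ringF) [
  .mk 7 28 68 [0x8000, 0x800000, 0x4000000, 0x8000, 0x2000000000000000000000000000000000000000, 0xffffffffffffffffffffffffffffffffffffffffffffffffffffffffffffffffffffffffffffffffffffffffffffffffffffffff]] = true := by
  decide +kernel

theorem t2 : runX PT.R (Wk.frw PT.R) nl RvT (SMap.evl cT tlT PT.vx ringF) [
  .mk 7 28 68 [0x8000, 0x1000000, 0xfffffffffc000000000000000000000000000000]] = true := by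
  decide +kernel

theorem t3 : runX PT.R (Wk.frw PT.R) nl RvT (SMap.evl cT tlT PT.vx ringF) [
  .mk 7 28 68 [0x8000, 0x1000000, 0xfffffffffffffffffffffffffffffff0000000003ffffffffffffffffffffffffffffff]] = true := by
  decide +kernel

theorem t4 : runX PT.R (Wk.frw PT.R) nl RvT (SMap.evl cT tlT PT.vx ringF) [
  .mk 7 28 68 [0x8000, 0x2000000, 0x1748b]] = true := by
  decide +kernel

theorem t5 : runX PT.R (Wk.frw PT.R) nl RvT (SMap.evl cT tlT PT.vx ringF) [
  .mk 7 28 68 [0x8000, 0x2000000, 0x7e8974]] = true := by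
  decide +kernel

theorem t6 : runX PT.R (Wk.frw PT.R) nl RvT (SMap.evl cT tlT PT.vx ringF) [
  .mk 7 28 68 [0x8000, 0x2000000, 0x200, 0xffffffffffffffffffffffffffffffffffffffffffffffffffffffffffffffffffffffffffffefffffffffffffffffffffffffff]] = true := by
  decide +kernel

/-- The tasks. -/
noncomputable def P : List (List Tk) := [
[
  .mk 7 28 68 [0x8000, 0x800000, 0x4000000, 0x8000, 0xffffffffffffffffffffffffffffffffffffffffffffffffffffffffffffffffdfffffffffffffffffffffffffffffffffffffff]],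
[
  .mk 7 28 68 [0x8000, 0x800000, 0x4000000, 0x8000, 0x2000000000000000000000000000000000000000, 0xffffffffffffffffffffffffffffffffffffffffffffffffffffffffffffffffffffffffffffffffffffffffffffffffffffffff]],
[
  .mk 7 28 68 [0x8000, 0x1000000, 0xfffffffffc000000000000000000000000000000]],
[
  .mk 7 28 68 [0x8000, 0x1000000, 0xfffffffffffffffffffffffffffffff0000000003ffffffffffffffffffffffffffffff]],
[
  .mk 7 28 68 [0x8000, 0x2000000, 0x1748b]],
[
  .mk 7 28 68 [0x8000, 0x2000000, 0x7e8974]],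
[
  .mk 7 28 68 [0x8000, 0x2000000, 0x200, 0xffffffffffffffffffffffffffffffffffffffffffffffffffffffffffffffffffffffffffffefffffffffffffffffffffffffff]]]

theorem run : RunAll (runX PT.R (Wk.frw PT.R) nl RvT (SMap.evl cT tlT PT.vx ringF)) P :=
  .cons t0 (.cons t1 (.cons t2 (.cons t3 (.cons t4 (.cons t5 (.cons t6 (.nil)))))))

end Pool.Agent.Lib.MP_5854e1_co.Cz.Sr156

namespace Pool.Agent.Lib.MP_5854e1_co.Cz.Sr318

open PB

theorem t0 : runX PT.R (Wk.frw PT.R) nl RvT (SMap.evl cT tlT PT.vx ringF) [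
  .mk 15 256 0 [0x1c00000]] = true := by
  decide +kernel

theorem t1 : runX PT.R (Wk.frw PT.R) nl RvT (SMap.evl cT tlT PT.vx ringF) [
  .mk 15 256 0 [0x510000000000000000000000000000000000000000000000]] = true := by
  decide +kernel

theorem t2 : runX PT.R (Wk.frw PT.R) nl RvT (SMap.evl cT tlT PT.vx ringF) [
  .mk 15 256 0 [0xffffffffffffffffffffffffffffffffffffffffffffffffffffffffaefffffffffffffffffffffffffffffffffffffffe3fffff],
  .mk 15 257 1 []] = true := by
  decide +kernel

theorem t3 : runX PT.R (Wk.frw PT.R) nl RvT (SMap.evl cT tlT PT.vx ringF) [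
  .mk 15 258 3 [0x1c10dfc3]] = true := by
  decide +kernel

theorem t4 : runX PT.R (Wk.frw PT.R) nl RvT (SMap.evl cT tlT PT.vx ringF) [
  .mk 15 258 3 [0xfe3ef203c],
  .mk 15 259 20 [0xffffffffffffffffffffffffffffffffffffffffffffffffffffffffffffffffdffffff]] = true := by
  decide +kernel

theorem t5 : runX PT.R (Wk.frw PT.R) nl RvT (SMap.evl cT tlT PT.vx ringF) [
  .mk 15 259 20 [0x2000000, 0x3ef]] = true := by
  decide +kernel

/-- The tasks. -/
noncomputable def P : List (List Tk) := [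
[
  .mk 15 256 0 [0x1c00000]],
[
  .mk 15 256 0 [0x510000000000000000000000000000000000000000000000]],
[
  .mk 15 256 0 [0xffffffffffffffffffffffffffffffffffffffffffffffffffffffffaefffffffffffffffffffffffffffffffffffffffe3fffff],
  .mk 15 257 1 []],
[
  .mk 15 258 3 [0x1c10dfc3]],
[
  .mk 15 258 3 [0xfe3ef203c],
  .mk 15 259 20 [0xffffffffffffffffffffffffffffffffffffffffffffffffffffffffffffffffdffffff]],
[
  .mk 15 259 20 [0x2000000, 0x3ef]]]

theorem run : RunAll (runX PT.R (Wk.frw PT.R) nl RvT (SMap.evl cT tlT PT.vx ringF)) P :=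
  .cons t0 (.cons t1 (.cons t2 (.cons t3 (.cons t4 (.cons t5 (.nil))))))

end Pool.Agent.Lib.MP_5854e1_co.Cz.Sr318

namespace Pool.Agent.Lib.MP_5854e1_co.Cz.Sr418

open PB

theorem t0 : runX PT.R (Wk.frw PT.R) nl RvT (SMap.evl cT tlT PT.vx ringF) [
  .mk 41 32 57 [0x400000, 0x800, 0x1, 0x2000000000000000000000000000000000000000, 0xfffffffffffffffffffffffeffffffff9dffffffffffffffffffffffffffffffffffffffffffffffffffffffffffffffffffffff]] = true := by
  decide +kernel

theorem t1 : runX PT.R (Wk.frw PT.R) nl RvT (SMap.evl cT tlT PT.vx ringF) [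
  .mk 41 32 57 [0x800000, 0x3a793]] = true := by
  decide +kernel

theorem t2 : runX PT.R (Wk.frw PT.R) nl RvT (SMap.evl cT tlT PT.vx ringF) [
  .mk 41 32 57 [0x800000, 0x3fffc586c]] = true := by
  decide +kernel

theorem t3 : runX PT.R (Wk.frw PT.R) nl RvT (SMap.evl cT tlT PT.vx ringF) [
  .mk 41 33 58 []] = true := by
  decide +kernel

theorem t4 : runX PT.R (Wk.frw PT.R) nl RvT (SMap.evl cT tlT PT.vx ringF) [
  .mk 41 34 59 [0x2007f]] = true := by
  decide +kernel

theorem t5 : runX PT.R (Wk.frw PT.R) nl RvT (SMap.evl cT tlT PT.vx ringF) [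
  .mk 41 34 59 [0x680000]] = true := by
  decide +kernel

/-- The tasks. -/
noncomputable def P : List (List Tk) := [
[
  .mk 41 32 57 [0x400000, 0x800, 0x1, 0x2000000000000000000000000000000000000000, 0xfffffffffffffffffffffffeffffffff9dffffffffffffffffffffffffffffffffffffffffffffffffffffffffffffffffffffff]],
[
  .mk 41 32 57 [0x800000, 0x3a793]],
[
  .mk 41 32 57 [0x800000, 0x3fffc586c]],
[
  .mk 41 33 58 []],
[
  .mk 41 34 59 [0x2007f]],
[
  .mk 41 34 59 [0x680000]]]

theorem run : RunAll (runX PT.R (Wk.frw PT.R) nl RvT (SMap.evl cT tlT PT.vx ringF)) P :=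
  .cons t0 (.cons t1 (.cons t2 (.cons t3 (.cons t4 (.cons t5 (.nil))))))

end Pool.Agent.Lib.MP_5854e1_co.Cz.Sr418

namespace Pool.Agent.Lib.MP_5854e1_co.Cz.Sr541

open PB

theorem t0 : runX PT.R (Wk.frw PT.R) nl RvT (SMap.evl cT tlT PT.vx ringF) [
  .mk 68 13 21 [0x1800]] = true := by
  decide +kernel

theorem t1 : runX PT.R (Wk.frw PT.R) nl RvT (SMap.evl cT tlT PT.vx ringF) [
  .mk 68 13 21 [0xfffffa052]] = true := by
  decide +kernel

theorem t2 : runX PT.R (Wk.frw PT.R) nl RvT (SMap.evl cT tlT PT.vx ringF) [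
  .mk 68 13 21 [0x200, 0xffffffff2]] = true := by
  decide +kernel

theorem t3 : runX PT.R (Wk.frw PT.R) nl RvT (SMap.evl cT tlT PT.vx ringF) [
  .mk 68 13 21 [0x200, 0x1, 0x5e000000002000000000000000000000000000000000000000]] = true := by
  decide +kernel

theorem t4 : runX PT.R (Wk.frw PT.R) nl RvT (SMap.evl cT tlT PT.vx ringF) [
  .mk 68 13 21 [0x200, 0x1, 0xffffffffffffffffffffffffffffffffffffffffffffffffffffff81ffffffffdfffffffffffffffffffffffffffffffffffffff],
  .mk 68 13 21 [0x200, 0x1, 0x20000000000000000000000000000000000000000000000000, 0xa793]] = true := by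
  decide +kernel

theorem t5 : runX PT.R (Wk.frw PT.R) nl RvT (SMap.evl cT tlT PT.vx ringF) [
  .mk 68 13 21 [0x200, 0x1, 0x20000000000000000000000000000000000000000000000000, 0x3ffff586c]] = true := by
  decide +kernel

/-- The tasks. -/
noncomputable def P : List (List Tk) := [
[
  .mk 68 13 21 [0x1800]],
[
  .mk 68 13 21 [0xfffffa052]],
[
  .mk 68 13 21 [0x200, 0xffffffff2]],
[
  .mk 68 13 21 [0x200, 0x1, 0x5e000000002000000000000000000000000000000000000000]],
[
  .mk 68 13 21 [0x200, 0x1, 0xffffffffffffffffffffffffffffffffffffffffffffffffffffff81ffffffffdfffffffffffffffffffffffffffffffffffffff],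
  .mk 68 13 21 [0x200, 0x1, 0x20000000000000000000000000000000000000000000000000, 0xa793]],
[
  .mk 68 13 21 [0x200, 0x1, 0x20000000000000000000000000000000000000000000000000, 0x3ffff586c]]]

theorem run : RunAll (runX PT.R (Wk.frw PT.R) nl RvT (SMap.evl cT tlT PT.vx ringF)) P :=
  .cons t0 (.cons t1 (.cons t2 (.cons t3 (.cons t4 (.cons t5 (.nil))))))

end Pool.Agent.Lib.MP_5854e1_co.Cz.Sr541
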