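import Pool.Agent.Lib.MP_5854e1_co.Cz.P
import Pool.Agent.Lib.MP_5854e1_co.Tkx
import Pool.Agent.Lib.MP_5854e1_co.RunAll

/-!
# Search, part 157
-/

set_option autoImplicit false
set_option deprecated.oldSectionVars true
set_option maxRecDepth 100000

namespace Pool.Agent.Lib.MP_5854e1_co.Cz.Sr157

open PB

theorem t0 : runX PT.R (Wk.frw PT.R) nl RvT (SMap.evl cT tlT PT.vx ringF) [
  .mk 7 28 68 [0x8000, 0x2000000, 0x200, 0x1000000000000000000000000000, 0x3]] = true := by
  decide +kernel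

theorem t1 : runX PT.R (Wk.frw PT.R) nl RvT (SMap.evl cT tlT PT.vx ringF) [
  .mk 7 28 68 [0x8000, 0x2000000, 0x200, 0x1000000000000000000000000000, 0xffffffffc]] = true := by
  decide +kernel

theorem t2 : runX PT.R (Wk.frw PT.R) nl RvT (SMap.evl cT tlT PT.vx ringF) [
  .mk 7 28 68 [0x8000, 0x4000000, 0xb]] = true := by
  decide +kernel

theorem t3 : runX PT.R (Wk.frw PT.R) nl RvT (SMap.evl cT tlT PT.vx ringF) [
  .mk 7 28 68 [0x8000, 0x4000000, 0x3b0]] = true := by
  decide +kernel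

theorem t4 : runX PT.R (Wk.frw PT.R) nl RvT (SMap.evl cT tlT PT.vx ringF) [
  .mk 7 28 68 [0x8000, 0x4000000, 0x3400]] = true := by
  decide +kernel

theorem t5 : runX PT.R (Wk.frw PT.R) nl RvT (SMap.evl cT tlT PT.vx ringF) [
  .mk 7 28 68 [0x8000, 0x4000000, 0x7c844],
  .mk 7 29 69 [],
  .mk 7 30 70 [],
  .mk 7 31 71 [],
  .mk 7 32 72 [],
  .mk 7 33 73 [],
  .mk 7 34 74 [],
  .mk 7 35 75 [],
  .mk 7 36 76 [],
  .mk 7 37 77 [],
  .mk 7 38 78 [],
  .mk 7 39 79 [],
  .mk 7 40 80 [],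
  .mk 7 41 81 [],
  .mk 7 42 82 [],
  .mk 7 43 83 [],
  .mk 7 44 84 [],
  .mk 7 45 85 [],
  .mk 7 46 86 []] = true := by
  decide +kernel

/-- The tasks. -/
noncomputable def P : List (List Tk) := [
[
  .mk 7 28 68 [0x8000, 0x2000000, 0x200, 0x1000000000000000000000000000, 0x3]],
[
  .mk 7 28 68 [0x8000, 0x2000000, 0x200, 0x1000000000000000000000000000, 0xffffffffc]],
[
  .mk 7 28 68 [0x8000, 0x4000000, 0xb]],
[
  .mk 7 28 68 [0x8000, 0x4000000, 0x3b0]],
[
  .mk 7 28 68 [0x8000, 0x4000000, 0x3400]],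
[
  .mk 7 28 68 [0x8000, 0x4000000, 0x7c844],
  .mk 7 29 69 [],
  .mk 7 30 70 [],
  .mk 7 31 71 [],
  .mk 7 32 72 [],
  .mk 7 33 73 [],
  .mk 7 34 74 [],
  .mk 7 35 75 [],
  .mk 7 36 76 [],
  .mk 7 37 77 [],
  .mk 7 38 78 [],
  .mk 7 39 79 [],
  .mk 7 40 80 [],
  .mk 7 41 81 [],
  .mk 7 42 82 [],
  .mk 7 43 83 [],
  .mk 7 44 84 [],
  .mk 7 45 85 [],
  .mk 7 46 86 []]]

theorem run : RunAll (runX PT.R (Wk.frw PT.R) nl RvT (SMap.evl cT tlT PT.vx ringF)) P :=
  .cons t0 (.cons t1 (.cons t2 (.cons t3 (.cons t4 (.cons t5 (.nil))))))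

end Pool.Agent.Lib.MP_5854e1_co.Cz.Sr157

namespace Pool.Agent.Lib.MP_5854e1_co.Cz.Sr417

open PB

theorem t0 : runX PT.R (Wk.frw PT.R) nl RvT (SMap.evl cT tlT PT.vx ringF) [
  .mk 41 32 57 [0x200000, 0x4000000000000000000000000000000000000000000000000000000000, 0x3]] = true := by
  decide +kernel

theorem t1 : runX PT.R (Wk.frw PT.R) nl RvT (SMap.evl cT tlT PT.vx ringF) [
  .mk 41 32 57 [0x200000, 0x4000000000000000000000000000000000000000000000000000000000, 0x10]] = true := by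
  decide +kernel

theorem t2 : runX PT.R (Wk.frw PT.R) nl RvT (SMap.evl cT tlT PT.vx ringF) [
  .mk 41 32 57 [0x200000, 0x4000000000000000000000000000000000000000000000000000000000, 0xfffffffffffffffffffffffffffffffffffffffffffffffffffffffffffffffffffffec]] = true := by
  decide +kernel

theorem t3 : runX PT.R (Wk.frw PT.R) nl RvT (SMap.evl cT tlT PT.vx ringF) [
  .mk 41 32 57 [0x400000, 0x28f]] = true := by
  decide +kernel

theorem t4 : runX PT.R (Wk.frw PT.R) nl RvT (SMap.evl cT tlT PT.vx ringF) [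
  .mk 41 32 57 [0x400000, 0x7ff570],
  .mk 41 32 57 [0x400000, 0x800, 0xffffffffe],
  .mk 41 32 57 [0x400000, 0x800, 0x1, 0xffffffffffffffffffffffffffffffffffffffffffffffffffffffffffffffffdfffffffffffffffffffffffffffffffffffffff]] = true := by
  decide +kernel

theorem t5 : runX PT.R (Wk.frw PT.R) nl RvT (SMap.evl cT tlT PT.vx ringF) [
  .mk 41 32 57 [0x400000, 0x800, 0x1, 0x2000000000000000000000000000000000000000, 0x100000000620000000000000000000000000000000000000000000000000000000000000000000000]] = true := by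
  decide +kernel

/-- The tasks. -/
noncomputable def P : List (List Tk) := [
[
  .mk 41 32 57 [0x200000, 0x4000000000000000000000000000000000000000000000000000000000, 0x3]],
[
  .mk 41 32 57 [0x200000, 0x4000000000000000000000000000000000000000000000000000000000, 0x10]],
[
  .mk 41 32 57 [0x200000, 0x4000000000000000000000000000000000000000000000000000000000, 0xfffffffffffffffffffffffffffffffffffffffffffffffffffffffffffffffffffffec]],
[
  .mk 41 32 57 [0x400000, 0x28f]],
[
  .mk 41 32 57 [0x400000, 0x7ff570],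
  .mk 41 32 57 [0x400000, 0x800, 0xffffffffe],
  .mk 41 32 57 [0x400000, 0x800, 0x1, 0xffffffffffffffffffffffffffffffffffffffffffffffffffffffffffffffffdfffffffffffffffffffffffffffffffffffffff]],
[
  .mk 41 32 57 [0x400000, 0x800, 0x1, 0x2000000000000000000000000000000000000000, 0x100000000620000000000000000000000000000000000000000000000000000000000000000000000]]]

theorem run : RunAll (runX PT.R (Wk.frw PT.R) nl RvT (SMap.evl cT tlT PT.vx ringF)) P :=
  .cons t0 (.cons t1 (.cons t2 (.cons t3 (.cons t4 (.cons t5 (.nil))))))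

end Pool.Agent.Lib.MP_5854e1_co.Cz.Sr417
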