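import Pool.Agent.Lib.MP_5854e1_co.Cz.P
import Pool.Agent.Lib.MP_5854e1_co.Tkx
import Pool.Agent.Lib.MP_5854e1_co.RunAll

/-!
# Search, part 158
-/

set_option autoImplicit false
set_option deprecated.oldSectionVars true
set_option maxRecDepth 100000

namespace Pool.Agent.Lib.MP_5854e1_co.Cz.Sr158

open PB

theorem t0 : runX PT.R (Wk.frw PT.R) nl RvT (SMap.evl cT tlT PT.vx ringF) [
  .mk 7 47 87 [0xfbfffffff]] = true := by
  decide +kernel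

theorem t1 : runX PT.R (Wk.frw PT.R) nl RvT (SMap.evl cT tlT PT.vx ringF) [
  .mk 7 47 87 [0x40000000, 0x3ff]] = true := by
  decide +kernel

theorem t2 : runX PT.R (Wk.frw PT.R) nl RvT (SMap.evl cT tlT PT.vx ringF) [
  .mk 7 47 87 [0x40000000, 0xffffc00],
  .mk 7 48 88 [],
  .mk 7 49 89 [],
  .mk 7 50 90 [],
  .mk 7 51 91 [],
  .mk 7 52 92 [],
  .mk 7 53 93 [],
  .mk 7 54 94 [],
  .mk 7 55 95 [],
  .mk 7 56 96 [],
  .mk 7 57 97 [],
  .mk 7 58 98 [],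
  .mk 7 59 99 [],
  .mk 7 60 100 [],
  .mk 7 61 0 [],
  .mk 7 62 20 [],
  .mk 7 63 24 [],
  .mk 7 64 25 [],
  .mk 7 65 26 [],
  .mk 7 66 27 [],
  .mk 7 67 28 [],
  .mk 7 68 30 [],
  .mk 7 69 31 [],
  .mk 7 70 32 [],
  .mk 7 71 50 [],
  .mk 7 72 51 [],
  .mk 7 73 52 [],
  .mk 7 74 53 [],
  .mk 7 75 54 [],
  .mk 7 76 55 [],
  .mk 7 77 56 [],
  .mk 7 78 57 [],
  .mk 7 79 58 [],
  .mk 7 80 59 [],
  .mk 7 81 60 [],
  .mk 7 82 61 [],
  .mk 7 83 62 [],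
  .mk 7 84 63 [],
  .mk 7 85 64 [],
  .mk 7 86 65 [],
  .mk 7 87 66 [],
  .mk 7 88 67 [],
  .mk 7 89 68 [],
  .mk 7 90 69 [],
  .mk 7 91 70 [],
  .mk 7 92 71 [],
  .mk 7 93 72 [],
  .mk 7 94 73 [],
  .mk 7 95 74 [],
  .mk 7 96 75 [],
  .mk 7 97 76 [],
  .mk 7 98 77 [],
  .mk 7 99 78 [],
  .mk 7 100 79 [],
  .mk 7 101 80 [],
  .mk 7 102 81 [],
  .mk 7 103 82 [],
  .mk 7 104 83 [],
  .mk 7 105 84 [],
  .mk 7 106 85 [],
  .mk 7 107 86 [],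
  .mk 7 108 87 [],
  .mk 7 109 88 [],
  .mk 7 110 89 [],
  .mk 7 111 90 [],
  .mk 7 112 91 [],
  .mk 7 113 92 [],
  .mk 7 114 93 [],
  .mk 7 115 94 [],
  .mk 7 116 95 [],
  .mk 7 117 96 [],
  .mk 7 118 97 [],
  .mk 7 119 98 [],
  .mk 7 120 99 [],
  .mk 7 121 100 [],
  .mk 7 122 0 [],
  .mk 7 123 1 [],
  .mk 7 124 7 [],
  .mk 7 125 15 [],
  .mk 7 126 20 [],
  .mk 7 127 28 [],
  .mk 7 128 0 [],
  .mk 7 129 1 [],
  .mk 7 130 7 [],
  .mk 7 131 15 [],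
  .mk 7 132 20 [],
  .mk 7 133 28 [],
  .mk 7 134 0 [],
  .mk 7 135 1 [],
  .mk 7 136 7 [],
  .mk 7 137 15 [],
  .mk 7 138 20 [],
  .mk 7 139 28 [],
  .mk 7 140 0 [],
  .mk 7 141 1 [],
  .mk 7 142 7 [],
  .mk 7 143 15 [],
  .mk 7 144 20 [],
  .mk 7 145 28 [],
  .mk 7 146 0 [],
  .mk 7 147 1 [],
  .mk 7 148 7 [],
  .mk 7 149 15 [],
  .mk 7 150 20 [],
  .mk 7 151 28 [],
  .mk 7 152 0 [],
  .mk 7 153 1 [],
  .mk 7 154 7 []] = true := by
  decide +kernel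

theorem t3 : runX PT.R (Wk.frw PT.R) nl RvT (SMap.evl cT tlT PT.vx ringF) [
  .mk 7 155 15 [0x2400]] = true := by
  decide +kernel

theorem t4 : runX PT.R (Wk.frw PT.R) nl RvT (SMap.evl cT tlT PT.vx ringF) [
  .mk 7 155 15 [0xfffffffffffffffffffffffffffffffffffffffffffffffffffffffffffffffffff5bff]] = true := by
  decide +kernel

theorem t5 : runX PT.R (Wk.frw PT.R) nl RvT (SMap.evl cT tlT PT.vx ringF) [
  .mk 7 155 15 [0x8000, 0xffffffe]] = true := by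
  decide +kernel

/-- The tasks. -/
noncomputable def P : List (List Tk) := [
[
  .mk 7 47 87 [0xfbfffffff]],
[
  .mk 7 47 87 [0x40000000, 0x3ff]],
[
  .mk 7 47 87 [0x40000000, 0xffffc00],
  .mk 7 48 88 [],
  .mk 7 49 89 [],
  .mk 7 50 90 [],
  .mk 7 51 91 [],
  .mk 7 52 92 [],
  .mk 7 53 93 [],
  .mk 7 54 94 [],
  .mk 7 55 95 [],
  .mk 7 56 96 [],
  .mk 7 57 97 [],
  .mk 7 58 98 [],
  .mk 7 59 99 [],
  .mk 7 60 100 [],
  .mk 7 61 0 [],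
  .mk 7 62 20 [],
  .mk 7 63 24 [],
  .mk 7 64 25 [],
  .mk 7 65 26 [],
  .mk 7 66 27 [],
  .mk 7 67 28 [],
  .mk 7 68 30 [],
  .mk 7 69 31 [],
  .mk 7 70 32 [],
  .mk 7 71 50 [],
  .mk 7 72 51 [],
  .mk 7 73 52 [],
  .mk 7 74 53 [],
  .mk 7 75 54 [],
  .mk 7 76 55 [],
  .mk 7 77 56 [],
  .mk 7 78 57 [],
  .mk 7 79 58 [],
  .mk 7 80 59 [],
  .mk 7 81 60 [],
  .mk 7 82 61 [],
  .mk 7 83 62 [],
  .mk 7 84 63 [],
  .mk 7 85 64 [],
  .mk 7 86 65 [],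
  .mk 7 87 66 [],
  .mk 7 88 67 [],
  .mk 7 89 68 [],
  .mk 7 90 69 [],
  .mk 7 91 70 [],
  .mk 7 92 71 [],
  .mk 7 93 72 [],
  .mk 7 94 73 [],
  .mk 7 95 74 [],
  .mk 7 96 75 [],
  .mk 7 97 76 [],
  .mk 7 98 77 [],
  .mk 7 99 78 [],
  .mk 7 100 79 [],
  .mk 7 101 80 [],
  .mk 7 102 81 [],
  .mk 7 103 82 [],
  .mk 7 104 83 [],
  .mk 7 105 84 [],
  .mk 7 106 85 [],
  .mk 7 107 86 [],
  .mk 7 108 87 [],
  .mk 7 109 88 [],
  .mk 7 110 89 [],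
  .mk 7 111 90 [],
  .mk 7 112 91 [],
  .mk 7 113 92 [],
  .mk 7 114 93 [],
  .mk 7 115 94 [],
  .mk 7 116 95 [],
  .mk 7 117 96 [],
  .mk 7 118 97 [],
  .mk 7 119 98 [],
  .mk 7 120 99 [],
  .mk 7 121 100 [],
  .mk 7 122 0 [],
  .mk 7 123 1 [],
  .mk 7 124 7 [],
  .mk 7 125 15 [],
  .mk 7 126 20 [],
  .mk 7 127 28 [],
  .mk 7 128 0 [],
  .mk 7 129 1 [],
  .mk 7 130 7 [],
  .mk 7 131 15 [],
  .mk 7 132 20 [],
  .mk 7 133 28 [],
  .mk 7 134 0 [],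
  .mk 7 135 1 [],
  .mk 7 136 7 [],
  .mk 7 137 15 [],
  .mk 7 138 20 [],
  .mk 7 139 28 [],
  .mk 7 140 0 [],
  .mk 7 141 1 [],
  .mk 7 142 7 [],
  .mk 7 143 15 [],
  .mk 7 144 20 [],
  .mk 7 145 28 [],
  .mk 7 146 0 [],
  .mk 7 147 1 [],
  .mk 7 148 7 [],
  .mk 7 149 15 [],
  .mk 7 150 20 [],
  .mk 7 151 28 [],
  .mk 7 152 0 [],
  .mk 7 153 1 [],
  .mk 7 154 7 []],
[
  .mk 7 155 15 [0x2400]],
[
  .mk 7 155 15 [0xfffffffffffffffffffffffffffffffffffffffffffffffffffffffffffffffffff5bff]],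
[
  .mk 7 155 15 [0x8000, 0xffffffe]]]

theorem run : RunAll (runX PT.R (Wk.frw PT.R) nl RvT (SMap.evl cT tlT PT.vx ringF)) P :=
  .cons t0 (.cons t1 (.cons t2 (.cons t3 (.cons t4 (.cons t5 (.nil))))))

end Pool.Agent.Lib.MP_5854e1_co.Cz.Sr158

namespace Pool.Agent.Lib.MP_5854e1_co.Cz.Sr460

open PB

theorem t0 : runX PT.R (Wk.frw PT.R) nl RvT (SMap.evl cT tlT PT.vx ringF) [
  .mk 44 8 68 [0x800, 0x200]] = true := by
  decide +kernel

theorem t1 : runX PT.R (Wk.frw PT.R) nl RvT (SMap.evl cT tlT PT.vx ringF) [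
  .mk 44 8 68 [0x800, 0xfffffbc6c]] = true := by
  decide +kernel

theorem t2 : runX PT.R (Wk.frw PT.R) nl RvT (SMap.evl cT tlT PT.vx ringF) [
  .mk 44 8 68 [0x800, 0x80, 0xffbff],
  .mk 44 8 68 [0x800, 0x80, 0x400, 0xfffffffffffffffffffffffffffffffffffffffffffffffffffffffffffffffffffffffffffffffffffffffffffffdffffffffff],
  .mk 44 8 68 [0x800, 0x80, 0x400, 0x20000000000, 0x7fbfff]] = true := by
  decide +kernel

theorem t3 : runX PT.R (Wk.frw PT.R) nl RvT (SMap.evl cT tlT PT.vx ringF) [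
  .mk 44 8 68 [0x800, 0x80, 0x400, 0x20000000000, 0x4000, 0xffffffffffffffffffffffffffffffffffffffffffffffffffffffffffffffffffffffffffffffffffffffffffffffffffffffff]] = true := by
  decide +kernel

theorem t4 : runX PT.R (Wk.frw PT.R) nl RvT (SMap.evl cT tlT PT.vx ringF) [
  .mk 44 8 68 [0x800, 0x4000, 0x3]] = true := by
  decide +kernel

theorem t5 : runX PT.R (Wk.frw PT.R) nl RvT (SMap.evl cT tlT PT.vx ringF) [
  .mk 44 8 68 [0x800, 0x4000, 0xffffffffc]] = true := by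
  decide +kernel

/-- The tasks. -/
noncomputable def P : List (List Tk) := [
[
  .mk 44 8 68 [0x800, 0x200]],
[
  .mk 44 8 68 [0x800, 0xfffffbc6c]],
[
  .mk 44 8 68 [0x800, 0x80, 0xffbff],
  .mk 44 8 68 [0x800, 0x80, 0x400, 0xfffffffffffffffffffffffffffffffffffffffffffffffffffffffffffffffffffffffffffffffffffffffffffffdffffffffff],
  .mk 44 8 68 [0x800, 0x80, 0x400, 0x20000000000, 0x7fbfff]],
[
  .mk 44 8 68 [0x800, 0x80, 0x400, 0x20000000000, 0x4000, 0xffffffffffffffffffffffffffffffffffffffffffffffffffffffffffffffffffffffffffffffffffffffffffffffffffffffff]],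
[
  .mk 44 8 68 [0x800, 0x4000, 0x3]],
[
  .mk 44 8 68 [0x800, 0x4000, 0xffffffffc]]]

theorem run : RunAll (runX PT.R (Wk.frw PT.R) nl RvT (SMap.evl cT tlT PT.vx ringF)) P :=
  .cons t0 (.cons t1 (.cons t2 (.cons t3 (.cons t4 (.cons t5 (.nil))))))

end Pool.Agent.Lib.MP_5854e1_co.Cz.Sr460

namespace Pool.Agent.Lib.MP_5854e1_co.Cz.Sr553

open PB

theorem t0 : runX PT.R (Wk.frw PT.R) nl RvT (SMap.evl cT tlT PT.vx ringF) [
  .mk 68 13 21 [0x400, 0x800000, 0x400, 0x40000, 0xcc00007a0000000000000000000000000000000000000000000000000000000000000000000000]] = true := by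
  decide +kernel

theorem t1 : runX PT.R (Wk.frw PT.R) nl RvT (SMap.evl cT tlT PT.vx ringF) [
  .mk 68 13 21 [0x400, 0x800000, 0x400, 0x40000, 0xffffffffffffffffffffffffff33ffff85ffffffffffffffffffffffffffffffffffffffffffffffffffffffffffffffffffffff]] = true := by
  decide +kernel

theorem t2 : runX PT.R (Wk.frw PT.R) nl RvT (SMap.evl cT tlT PT.vx ringF) [
  .mk 68 13 21 [0x400, 0x800000, 0x8000, 0x2400000200000]] = true := by
  decide +kernel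

theorem t3 : runX PT.R (Wk.frw PT.R) nl RvT (SMap.evl cT tlT PT.vx ringF) [
  .mk 68 13 21 [0x400, 0x800000, 0x8000, 0x7dbfffffdfffff]] = true := by
  decide +kernel

theorem t4 : runX PT.R (Wk.frw PT.R) nl RvT (SMap.evl cT tlT PT.vx ringF) [
  .mk 68 13 21 [0x400, 0x10000000, 0x7fe5ff]] = true := by
  decide +kernel

theorem t5 : runX PT.R (Wk.frw PT.R) nl RvT (SMap.evl cT tlT PT.vx ringF) [
  .mk 68 13 21 [0x400, 0x10000000, 0x200, 0x2c0008401]] = true := by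
  decide +kernel

theorem t6 : runX PT.R (Wk.frw PT.R) nl RvT (SMap.evl cT tlT PT.vx ringF) [
  .mk 68 13 21 [0x400, 0x10000000, 0x200, 0xfffffffffffffffffffffffffffffffffffffffffffffffffffffffffffffffffffffffffffffffffffffffffffffffc3fff7bfe]] = true := by
  decide +kernel

/-- The tasks. -/
noncomputable def P : List (List Tk) := [
[
  .mk 68 13 21 [0x400, 0x800000, 0x400, 0x40000, 0xcc00007a0000000000000000000000000000000000000000000000000000000000000000000000]],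
[
  .mk 68 13 21 [0x400, 0x800000, 0x400, 0x40000, 0xffffffffffffffffffffffffff33ffff85ffffffffffffffffffffffffffffffffffffffffffffffffffffffffffffffffffffff]],
[
  .mk 68 13 21 [0x400, 0x800000, 0x8000, 0x2400000200000]],
[
  .mk 68 13 21 [0x400, 0x800000, 0x8000, 0x7dbfffffdfffff]],
[
  .mk 68 13 21 [0x400, 0x10000000, 0x7fe5ff]],
[
  .mk 68 13 21 [0x400, 0x10000000, 0x200, 0x2c0008401]],
[
  .mk 68 13 21 [0x400, 0x10000000, 0x200, 0xfffffffffffffffffffffffffffffffffffffffffffffffffffffffffffffffffffffffffffffffffffffffffffffffc3fff7bfe]]]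

theorem run : RunAll (runX PT.R (Wk.frw PT.R) nl RvT (SMap.evl cT tlT PT.vx ringF)) P :=
  .cons t0 (.cons t1 (.cons t2 (.cons t3 (.cons t4 (.cons t5 (.cons t6 (.nil)))))))

end Pool.Agent.Lib.MP_5854e1_co.Cz.Sr553
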