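import Pool.Agent.Lib.MP_5854e1_co.Cz.P
import Pool.Agent.Lib.MP_5854e1_co.Tkx
import Pool.Agent.Lib.MP_5854e1_co.RunAll

/-!
# Search, part 160
-/

set_option autoImplicit false
set_option deprecated.oldSectionVars true
set_option maxRecDepth 100000

namespace Pool.Agent.Lib.MP_5854e1_co.Cz.Sr160

open PB

theorem t0 : runX PT.R (Wk.frw PT.R) nl RvT (SMap.evl cT tlT PT.vx ringF) [
  .mk 7 157 28 [0xfffffffffffffffffffffffffffffffffffffffffffffffffffffffffffffffffffbfff],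
  .mk 7 158 0 [],
  .mk 7 159 1 [],
  .mk 7 160 7 [],
  .mk 7 161 15 [],
  .mk 7 162 20 [],
  .mk 7 163 28 [],
  .mk 7 164 0 [],
  .mk 7 165 1 [],
  .mk 7 166 7 [],
  .mk 7 167 15 [],
  .mk 7 168 20 [],
  .mk 7 169 28 [],
  .mk 7 170 0 [],
  .mk 7 171 1 [],
  .mk 7 172 7 [],
  .mk 7 173 15 [],
  .mk 7 174 20 [],
  .mk 7 175 28 []] = true := by
  decide +kernel

theorem t1 : runX PT.R (Wk.frw PT.R) nl RvT (SMap.evl cT tlT PT.vx ringF) [
  .mk 7 176 0 [0x20005000000000000000000000]] = true := by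
  decide +kernel

theorem t2 : runX PT.R (Wk.frw PT.R) nl RvT (SMap.evl cT tlT PT.vx ringF) [
  .mk 7 176 0 [0xc0000000000000000000000000]] = true := by
  decide +kernel

theorem t3 : runX PT.R (Wk.frw PT.R) nl RvT (SMap.evl cT tlT PT.vx ringF) [
  .mk 7 176 0 [0xffffffffffffffffffffffffffffffffffffffffffffffffffffffffffffffffffffffffffffff1fffafffffffffffffffffffff],
  .mk 7 177 7 [],
  .mk 7 178 15 [],
  .mk 7 179 20 [],
  .mk 7 180 28 [],
  .mk 7 181 0 [],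
  .mk 7 182 1 [],
  .mk 7 183 7 [],
  .mk 7 184 15 [],
  .mk 7 185 20 [],
  .mk 7 186 28 []] = true := by
  decide +kernel

theorem t4 : runX PT.R (Wk.frw PT.R) nl RvT (SMap.evl cT tlT PT.vx ringF) [
  .mk 7 187 0 [],
  .mk 7 188 1 [],
  .mk 7 189 2 [],
  .mk 7 190 7 [],
  .mk 7 191 8 [],
  .mk 7 192 9 [],
  .mk 7 193 15 [],
  .mk 7 194 16 [],
  .mk 7 195 0 [],
  .mk 7 196 1 [],
  .mk 7 197 7 [],
  .mk 7 198 15 [],
  .mk 7 199 20 [],
  .mk 7 200 28 []] = true := by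
  decide +kernel

theorem t5 : runX PT.R (Wk.frw PT.R) nl RvT (SMap.evl cT tlT PT.vx ringF) [
  .mk 7 201 0 [],
  .mk 7 202 1 []] = true := by
  decide +kernel

/-- The tasks. -/
noncomputable def P : List (List Tk) := [
[
  .mk 7 157 28 [0xfffffffffffffffffffffffffffffffffffffffffffffffffffffffffffffffffffbfff],
  .mk 7 158 0 [],
  .mk 7 159 1 [],
  .mk 7 160 7 [],
  .mk 7 161 15 [],
  .mk 7 162 20 [],
  .mk 7 163 28 [],
  .mk 7 164 0 [],
  .mk 7 165 1 [],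
  .mk 7 166 7 [],
  .mk 7 167 15 [],
  .mk 7 168 20 [],
  .mk 7 169 28 [],
  .mk 7 170 0 [],
  .mk 7 171 1 [],
  .mk 7 172 7 [],
  .mk 7 173 15 [],
  .mk 7 174 20 [],
  .mk 7 175 28 []],
[
  .mk 7 176 0 [0x20005000000000000000000000]],
[
  .mk 7 176 0 [0xc0000000000000000000000000]],
[
  .mk 7 176 0 [0xffffffffffffffffffffffffffffffffffffffffffffffffffffffffffffffffffffffffffffff1fffafffffffffffffffffffff],
  .mk 7 177 7 [],
  .mk 7 178 15 [],
  .mk 7 179 20 [],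
  .mk 7 180 28 [],
  .mk 7 181 0 [],
  .mk 7 182 1 [],
  .mk 7 183 7 [],
  .mk 7 184 15 [],
  .mk 7 185 20 [],
  .mk 7 186 28 []],
[
  .mk 7 187 0 [],
  .mk 7 188 1 [],
  .mk 7 189 2 [],
  .mk 7 190 7 [],
  .mk 7 191 8 [],
  .mk 7 192 9 [],
  .mk 7 193 15 [],
  .mk 7 194 16 [],
  .mk 7 195 0 [],
  .mk 7 196 1 [],
  .mk 7 197 7 [],
  .mk 7 198 15 [],
  .mk 7 199 20 [],
  .mk 7 200 28 []],
[
  .mk 7 201 0 [],
  .mk 7 202 1 []]]

theorem run : RunAll (runX PT.R (Wk.frw PT.R) nl RvT (SMap.evl cT tlT PT.vx ringF)) P :=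
  .cons t0 (.cons t1 (.cons t2 (.cons t3 (.cons t4 (.cons t5 (.nil))))))

end Pool.Agent.Lib.MP_5854e1_co.Cz.Sr160

namespace Pool.Agent.Lib.MP_5854e1_co.Cz.Sr501

open PB

theorem t0 : runX PT.R (Wk.frw PT.R) nl RvT (SMap.evl cT tlT PT.vx ringF) [
  .mk 49 13 59 [0x8000000, 0x400, 0x40000, 0x34000000000000000000000000000000000000000000000000000000000000000000000000000000000]] = true := by
  decide +kernel

theorem t1 : runX PT.R (Wk.frw PT.R) nl RvT (SMap.evl cT tlT PT.vx ringF) [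
  .mk 49 13 59 [0x8000000, 0x400, 0x40000, 0xfffffffffffffffffffffcbfffffffffffffffffffffffffffffffffffffffffffffffffffffffffffffffffffffffffffffffff],
  .mk 49 14 60 [],
  .mk 49 15 0 [],
  .mk 49 16 7 [],
  .mk 49 17 11 [],
  .mk 49 18 12 [],
  .mk 49 19 13 [],
  .mk 49 20 14 [],
  .mk 49 21 15 [],
  .mk 49 22 17 [],
  .mk 49 23 18 [],
  .mk 49 24 19 [],
  .mk 49 25 39 [],
  .mk 49 26 40 [],
  .mk 49 27 41 [],
  .mk 49 28 42 [],
  .mk 49 29 43 [],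
  .mk 49 30 44 [],
  .mk 49 31 45 [],
  .mk 49 32 46 [],
  .mk 49 33 47 [],
  .mk 49 34 48 [],
  .mk 49 35 49 [],
  .mk 61 0 0 [],
  .mk 61 1 7 [],
  .mk 61 2 15 [],
  .mk 61 5 0 [],
  .mk 61 6 1 [],
  .mk 61 7 3 [0x5]] = true := by
  decide +kernel

theorem t2 : runX PT.R (Wk.frw PT.R) nl RvT (SMap.evl cT tlT PT.vx ringF) [
  .mk 61 7 3 [0x188]] = true := by
  decide +kernel

theorem t3 : runX PT.R (Wk.frw PT.R) nl RvT (SMap.evl cT tlT PT.vx ringF) [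
  .mk 61 7 3 [0x1c00]] = true := by
  decide +kernel

theorem t4 : runX PT.R (Wk.frw PT.R) nl RvT (SMap.evl cT tlT PT.vx ringF) [
  .mk 61 7 3 [0xfffffe072]] = true := by
  decide +kernel

theorem t5 : runX PT.R (Wk.frw PT.R) nl RvT (SMap.evl cT tlT PT.vx ringF) [
  .mk 61 7 3 [0x200, 0x29e46806f]] = true := by
  decide +kernel

/-- The tasks. -/
noncomputable def P : List (List Tk) := [
[
  .mk 49 13 59 [0x8000000, 0x400, 0x40000, 0x34000000000000000000000000000000000000000000000000000000000000000000000000000000000]],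
[
  .mk 49 13 59 [0x8000000, 0x400, 0x40000, 0xfffffffffffffffffffffcbfffffffffffffffffffffffffffffffffffffffffffffffffffffffffffffffffffffffffffffffff],
  .mk 49 14 60 [],
  .mk 49 15 0 [],
  .mk 49 16 7 [],
  .mk 49 17 11 [],
  .mk 49 18 12 [],
  .mk 49 19 13 [],
  .mk 49 20 14 [],
  .mk 49 21 15 [],
  .mk 49 22 17 [],
  .mk 49 23 18 [],
  .mk 49 24 19 [],
  .mk 49 25 39 [],
  .mk 49 26 40 [],
  .mk 49 27 41 [],
  .mk 49 28 42 [],
  .mk 49 29 43 [],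
  .mk 49 30 44 [],
  .mk 49 31 45 [],
  .mk 49 32 46 [],
  .mk 49 33 47 [],
  .mk 49 34 48 [],
  .mk 49 35 49 [],
  .mk 61 0 0 [],
  .mk 61 1 7 [],
  .mk 61 2 15 [],
  .mk 61 5 0 [],
  .mk 61 6 1 [],
  .mk 61 7 3 [0x5]],
[
  .mk 61 7 3 [0x188]],
[
  .mk 61 7 3 [0x1c00]],
[
  .mk 61 7 3 [0xfffffe072]],
[
  .mk 61 7 3 [0x200, 0x29e46806f]]]

theorem run : RunAll (runX PT.R (Wk.frw PT.R) nl RvT (SMap.evl cT tlT PT.vx ringF)) P :=
  .cons t0 (.cons t1 (.cons t2 (.cons t3 (.cons t4 (.cons t5 (.nil))))))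

end Pool.Agent.Lib.MP_5854e1_co.Cz.Sr501

namespace Pool.Agent.Lib.MP_5854e1_co.Cz.Sr583

open PB

theorem t0 : runX PT.R (Wk.frw PT.R) nl RvT (SMap.evl cT tlT PT.vx ringF) [
  .mk 84 16 8 [0x80, 0x10000, 0x400, 0x40000, 0xffffffffffffffffffffffffff33ffff85ffffffffffffffffffffffffffffffffffffffffffffffffffffffffffffffffffffff]] = true := by
  decide +kernel

theorem t1 : runX PT.R (Wk.frw PT.R) nl RvT (SMap.evl cT tlT PT.vx ringF) [
  .mk 84 16 8 [0x80, 0x10000, 0x1000, 0x7dffffffffffff]] = true := by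
  decide +kernel

theorem t2 : runX PT.R (Wk.frw PT.R) nl RvT (SMap.evl cT tlT PT.vx ringF) [
  .mk 84 16 8 [0x80, 0x10000, 0x1000, 0x2000000000000, 0x24089]] = true := by
  decide +kernel

theorem t3 : runX PT.R (Wk.frw PT.R) nl RvT (SMap.evl cT tlT PT.vx ringF) [
  .mk 84 16 8 [0x80, 0x10000, 0x1000, 0x2000000000000, 0x5bf76],
  .mk 84 16 8 [0x400, 0x1c00040000]] = true := by
  decide +kernel

theorem t4 : runX PT.R (Wk.frw PT.R) nl RvT (SMap.evl cT tlT PT.vx ringF) [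
  .mk 84 16 8 [0x400, 0x3ffe3fffbffff]] = true := by
  decide +kernel

/-- The tasks. -/
noncomputable def P : List (List Tk) := [
[
  .mk 84 16 8 [0x80, 0x10000, 0x400, 0x40000, 0xffffffffffffffffffffffffff33ffff85ffffffffffffffffffffffffffffffffffffffffffffffffffffffffffffffffffffff]],
[
  .mk 84 16 8 [0x80, 0x10000, 0x1000, 0x7dffffffffffff]],
[
  .mk 84 16 8 [0x80, 0x10000, 0x1000, 0x2000000000000, 0x24089]],
[
  .mk 84 16 8 [0x80, 0x10000, 0x1000, 0x2000000000000, 0x5bf76],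
  .mk 84 16 8 [0x400, 0x1c00040000]],
[
  .mk 84 16 8 [0x400, 0x3ffe3fffbffff]]]

theorem run : RunAll (runX PT.R (Wk.frw PT.R) nl RvT (SMap.evl cT tlT PT.vx ringF)) P :=
  .cons t0 (.cons t1 (.cons t2 (.cons t3 (.cons t4 (.nil)))))

end Pool.Agent.Lib.MP_5854e1_co.Cz.Sr583
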