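import Pool.Agent.Lib.MP_5854e1_co.Cz.P
import Pool.Agent.Lib.MP_5854e1_co.Tkx
import Pool.Agent.Lib.MP_5854e1_co.RunAll

/-!
# Search, part 163
-/

set_option autoImplicit false
set_option deprecated.oldSectionVars true
set_option maxRecDepth 100000

namespace Pool.Agent.Lib.MP_5854e1_co.Cz.Sr163

open PB

theorem t0 : runX PT.R (Wk.frw PT.R) nl RvT (SMap.evl cT tlT PT.vx ringF) [
  .mk 7 248 20 [],
  .mk 7 249 28 []] = true := by
  decide +kernel

theorem t1 : runX PT.R (Wk.frw PT.R) nl RvT (SMap.evl cT tlT PT.vx ringF) [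
  .mk 7 250 0 [0x40000000000000000000000]] = true := by
  decide +kernel

theorem t2 : runX PT.R (Wk.frw PT.R) nl RvT (SMap.evl cT tlT PT.vx ringF) [
  .mk 7 250 0 [0xfffffffffffffffffffffffffffffffffffffffffffffffffffffffffffffffffffffffffffffffffaffffffffffffffffffffff]] = true := by
  decide +kernel

theorem t3 : runX PT.R (Wk.frw PT.R) nl RvT (SMap.evl cT tlT PT.vx ringF) [
  .mk 7 250 0 [0x10000000000000000000000, 0x1ed]] = true := by
  decide +kernel

theorem t4 : runX PT.R (Wk.frw PT.R) nl RvT (SMap.evl cT tlT PT.vx ringF) [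
  .mk 7 250 0 [0x10000000000000000000000, 0xffffffe12],
  .mk 7 251 1 []] = true := by
  decide +kernel

theorem t5 : runX PT.R (Wk.frw PT.R) nl RvT (SMap.evl cT tlT PT.vx ringF) [
  .mk 7 252 7 [0xc11]] = true := by
  decide +kernel

theorem t6 : runX PT.R (Wk.frw PT.R) nl RvT (SMap.evl cT tlT PT.vx ringF) [
  .mk 7 252 7 [0x4000]] = true := by
  decide +kernel

/-- The tasks. -/
noncomputable def P : List (List Tk) := [
[
  .mk 7 248 20 [],
  .mk 7 249 28 []],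
[
  .mk 7 250 0 [0x40000000000000000000000]],
[
  .mk 7 250 0 [0xfffffffffffffffffffffffffffffffffffffffffffffffffffffffffffffffffffffffffffffffffaffffffffffffffffffffff]],
[
  .mk 7 250 0 [0x10000000000000000000000, 0x1ed]],
[
  .mk 7 250 0 [0x10000000000000000000000, 0xffffffe12],
  .mk 7 251 1 []],
[
  .mk 7 252 7 [0xc11]],
[
  .mk 7 252 7 [0x4000]]]

theorem run : RunAll (runX PT.R (Wk.frw PT.R) nl RvT (SMap.evl cT tlT PT.vx ringF)) P :=
  .cons t0 (.cons t1 (.cons t2 (.cons t3 (.cons t4 (.cons t5 (.cons t6 (.nil)))))))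

end Pool.Agent.Lib.MP_5854e1_co.Cz.Sr163

namespace Pool.Agent.Lib.MP_5854e1_co.Cz.Sr273

open PB

theorem t0 : runX PT.R (Wk.frw PT.R) nl RvT (SMap.evl cT tlT PT.vx ringF) [
  .mk 11 17 29 [0xfffffd850]] = true := by
  decide +kernel

theorem t1 : runX PT.R (Wk.frw PT.R) nl RvT (SMap.evl cT tlT PT.vx ringF) [
  .mk 11 17 29 [0x8, 0xfa783]] = true := by
  decide +kernel

theorem t2 : runX PT.R (Wk.frw PT.R) nl RvT (SMap.evl cT tlT PT.vx ringF) [
  .mk 11 17 29 [0x8, 0x3fff0587c]] = true := by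
  decide +kernel

theorem t3 : runX PT.R (Wk.frw PT.R) nl RvT (SMap.evl cT tlT PT.vx ringF) [
  .mk 11 17 29 [0x200, 0x3]] = true := by
  decide +kernel

theorem t4 : runX PT.R (Wk.frw PT.R) nl RvT (SMap.evl cT tlT PT.vx ringF) [
  .mk 11 17 29 [0x200, 0x6638074]] = true := by
  decide +kernel

theorem t5 : runX PT.R (Wk.frw PT.R) nl RvT (SMap.evl cT tlT PT.vx ringF) [
  .mk 11 17 29 [0x200, 0x98000000]] = true := by
  decide +kernel

/-- The tasks. -/
noncomputable def P : List (List Tk) := [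
[
  .mk 11 17 29 [0xfffffd850]],
[
  .mk 11 17 29 [0x8, 0xfa783]],
[
  .mk 11 17 29 [0x8, 0x3fff0587c]],
[
  .mk 11 17 29 [0x200, 0x3]],
[
  .mk 11 17 29 [0x200, 0x6638074]],
[
  .mk 11 17 29 [0x200, 0x98000000]]]

theorem run : RunAll (runX PT.R (Wk.frw PT.R) nl RvT (SMap.evl cT tlT PT.vx ringF)) P :=
  .cons t0 (.cons t1 (.cons t2 (.cons t3 (.cons t4 (.cons t5 (.nil))))))

end Pool.Agent.Lib.MP_5854e1_co.Cz.Sr273

namespace Pool.Agent.Lib.MP_5854e1_co.Cz.Sr375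

open PB

theorem t0 : runX PT.R (Wk.frw PT.R) nl RvT (SMap.evl cT tlT PT.vx ringF) [
  .mk 41 3 12 [0x20000000, 0xffffbd8]] = true := by
  decide +kernel

theorem t1 : runX PT.R (Wk.frw PT.R) nl RvT (SMap.evl cT tlT PT.vx ringF) [
  .mk 41 3 12 [0x20000000, 0x20, 0x1]] = true := by
  decide +kernel

theorem t2 : runX PT.R (Wk.frw PT.R) nl RvT (SMap.evl cT tlT PT.vx ringF) [
  .mk 41 3 12 [0x20000000, 0x20, 0x3fffffffe]] = true := by
  decide +kernel

theorem t3 : runX PT.R (Wk.frw PT.R) nl RvT (SMap.evl cT tlT PT.vx ringF) [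
  .mk 41 3 12 [0x20000000, 0x400, 0x1048b]] = true := by
  decide +kernel

theorem t4 : runX PT.R (Wk.frw PT.R) nl RvT (SMap.evl cT tlT PT.vx ringF) [
  .mk 41 3 12 [0x20000000, 0x400, 0x7ee974]] = true := by
  decide +kernel

theorem t5 : runX PT.R (Wk.frw PT.R) nl RvT (SMap.evl cT tlT PT.vx ringF) [
  .mk 41 3 12 [0x20000000, 0x400, 0x200, 0x808000000000000000008401]] = true := by
  decide +kernel

theorem t6 : runX PT.R (Wk.frw PT.R) nl RvT (SMap.evl cT tlT PT.vx ringF) [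
  .mk 41 3 12 [0x20000000, 0x400, 0x200, 0xffffffffffffffffffffffffffffffffffffffffffffffffffffffffffffffffffffffffffffffff7f7dffffffffffffffff7bfe]] = true := by
  decide +kernel

/-- The tasks. -/
noncomputable def P : List (List Tk) := [
[
  .mk 41 3 12 [0x20000000, 0xffffbd8]],
[
  .mk 41 3 12 [0x20000000, 0x20, 0x1]],
[
  .mk 41 3 12 [0x20000000, 0x20, 0x3fffffffe]],
[
  .mk 41 3 12 [0x20000000, 0x400, 0x1048b]],
[
  .mk 41 3 12 [0x20000000, 0x400, 0x7ee974]],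
[
  .mk 41 3 12 [0x20000000, 0x400, 0x200, 0x808000000000000000008401]],
[
  .mk 41 3 12 [0x20000000, 0x400, 0x200, 0xffffffffffffffffffffffffffffffffffffffffffffffffffffffffffffffffffffffffffffffff7f7dffffffffffffffff7bfe]]]

theorem run : RunAll (runX PT.R (Wk.frw PT.R) nl RvT (SMap.evl cT tlT PT.vx ringF)) P :=
  .cons t0 (.cons t1 (.cons t2 (.cons t3 (.cons t4 (.cons t5 (.cons t6 (.nil)))))))

end Pool.Agent.Lib.MP_5854e1_co.Cz.Sr375

namespace Pool.Agent.Lib.MP_5854e1_co.Cz.Sr407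

open PB

theorem t0 : runX PT.R (Wk.frw PT.R) nl RvT (SMap.evl cT tlT PT.vx ringF) [
  .mk 41 14 49 [0x200, 0xfd188043]] = true := by
  decide +kernel

theorem t1 : runX PT.R (Wk.frw PT.R) nl RvT (SMap.evl cT tlT PT.vx ringF) [
  .mk 41 14 49 [0x200, 0xf02e77fbc]] = true := by
  decide +kernel

theorem t2 : runX PT.R (Wk.frw PT.R) nl RvT (SMap.evl cT tlT PT.vx ringF) [
  .mk 41 14 49 [0x2000, 0x4e0033]] = true := by
  decide +kernel

theorem t3 : runX PT.R (Wk.frw PT.R) nl RvT (SMap.evl cT tlT PT.vx ringF) [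
  .mk 41 14 49 [0x2000, 0x3800000]] = true := by
  decide +kernel

theorem t4 : runX PT.R (Wk.frw PT.R) nl RvT (SMap.evl cT tlT PT.vx ringF) [
  .mk 41 14 49 [0x2000, 0xc11ffcc]] = true := by
  decide +kernel

theorem t5 : runX PT.R (Wk.frw PT.R) nl RvT (SMap.evl cT tlT PT.vx ringF) [
  .mk 41 14 49 [0x2000, 0x200000, 0x3]] = true := by
  decide +kernel

theorem t6 : runX PT.R (Wk.frw PT.R) nl RvT (SMap.evl cT tlT PT.vx ringF) [
  .mk 41 14 49 [0x2000, 0x200000, 0xffffc],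
  .mk 41 15 0 [],
  .mk 41 16 20 [],
  .mk 41 17 24 []] = true := by
  decide +kernel

/-- The tasks. -/
noncomputable def P : List (List Tk) := [
[
  .mk 41 14 49 [0x200, 0xfd188043]],
[
  .mk 41 14 49 [0x200, 0xf02e77fbc]],
[
  .mk 41 14 49 [0x2000, 0x4e0033]],
[
  .mk 41 14 49 [0x2000, 0x3800000]],
[
  .mk 41 14 49 [0x2000, 0xc11ffcc]],
[
  .mk 41 14 49 [0x2000, 0x200000, 0x3]],
[
  .mk 41 14 49 [0x2000, 0x200000, 0xffffc],
  .mk 41 15 0 [],
  .mk 41 16 20 [],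
  .mk 41 17 24 []]]

theorem run : RunAll (runX PT.R (Wk.frw PT.R) nl RvT (SMap.evl cT tlT PT.vx ringF)) P :=
  .cons t0 (.cons t1 (.cons t2 (.cons t3 (.cons t4 (.cons t5 (.cons t6 (.nil)))))))

end Pool.Agent.Lib.MP_5854e1_co.Cz.Sr407
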