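import Pool.Agent.Lib.MP_5854e1_co.Cz.P
import Pool.Agent.Lib.MP_5854e1_co.Tkx
import Pool.Agent.Lib.MP_5854e1_co.RunAll

/-!
# Search, part 168
-/

set_option autoImplicit false
set_option deprecated.oldSectionVars true
set_option maxRecDepth 100000

namespace Pool.Agent.Lib.MP_5854e1_co.Cz.Sr168

open PB

theorem t0 : runX PT.R (Wk.frw PT.R) nl RvT (SMap.evl cT tlT PT.vx ringF) [
  .mk 7 252 7 [0x1000, 0x200, 0xf198053]] = true := by
  decide +kernel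

theorem t1 : runX PT.R (Wk.frw PT.R) nl RvT (SMap.evl cT tlT PT.vx ringF) [
  .mk 7 252 7 [0x1000, 0x200, 0xff0e67fac],
  .mk 7 252 7 [0x1000, 0x2000, 0x6e0033]] = true := by
  decide +kernel

theorem t2 : runX PT.R (Wk.frw PT.R) nl RvT (SMap.evl cT tlT PT.vx ringF) [
  .mk 7 252 7 [0x1000, 0x2000, 0x1800000]] = true := by
  decide +kernel

theorem t3 : runX PT.R (Wk.frw PT.R) nl RvT (SMap.evl cT tlT PT.vx ringF) [
  .mk 7 252 7 [0x1000, 0x2000, 0xe11ffcc],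
  .mk 7 252 7 [0x1000, 0x8000000, 0x7198053]] = true := by
  decide +kernel

theorem t4 : runX PT.R (Wk.frw PT.R) nl RvT (SMap.evl cT tlT PT.vx ringF) [
  .mk 7 252 7 [0x1000, 0x8000000, 0x18000000]] = true := by
  decide +kernel

theorem t5 : runX PT.R (Wk.frw PT.R) nl RvT (SMap.evl cT tlT PT.vx ringF) [
  .mk 7 252 7 [0x1000, 0x8000000, 0xfe0e67fac],
  .mk 7 252 7 [0x1000, 0x400000000, 0x6e0033]] = true := by
  decide +kernel

/-- The tasks. -/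
noncomputable def P : List (List Tk) := [
[
  .mk 7 252 7 [0x1000, 0x200, 0xf198053]],
[
  .mk 7 252 7 [0x1000, 0x200, 0xff0e67fac],
  .mk 7 252 7 [0x1000, 0x2000, 0x6e0033]],
[
  .mk 7 252 7 [0x1000, 0x2000, 0x1800000]],
[
  .mk 7 252 7 [0x1000, 0x2000, 0xe11ffcc],
  .mk 7 252 7 [0x1000, 0x8000000, 0x7198053]],
[
  .mk 7 252 7 [0x1000, 0x8000000, 0x18000000]],
[
  .mk 7 252 7 [0x1000, 0x8000000, 0xfe0e67fac],
  .mk 7 252 7 [0x1000, 0x400000000, 0x6e0033]]]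

theorem run : RunAll (runX PT.R (Wk.frw PT.R) nl RvT (SMap.evl cT tlT PT.vx ringF)) P :=
  .cons t0 (.cons t1 (.cons t2 (.cons t3 (.cons t4 (.cons t5 (.nil))))))

end Pool.Agent.Lib.MP_5854e1_co.Cz.Sr168

namespace Pool.Agent.Lib.MP_5854e1_co.Cz.Sr429

open PB

theorem t0 : runX PT.R (Wk.frw PT.R) nl RvT (SMap.evl cT tlT PT.vx ringF) [
  .mk 42 21 63 [0x200, 0x398000]] = true := by
  decide +kernel

theorem t1 : runX PT.R (Wk.frw PT.R) nl RvT (SMap.evl cT tlT PT.vx ringF) [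
  .mk 42 21 63 [0x200, 0xfffc6206c],
  .mk 42 21 63 [0x200, 0x200, 0x3]] = true := by
  decide +kernel

theorem t2 : runX PT.R (Wk.frw PT.R) nl RvT (SMap.evl cT tlT PT.vx ringF) [
  .mk 42 21 63 [0x200, 0x200, 0x18]] = true := by
  decide +kernel

theorem t3 : runX PT.R (Wk.frw PT.R) nl RvT (SMap.evl cT tlT PT.vx ringF) [
  .mk 42 21 63 [0x200, 0x200, 0xfffffffe0]] = true := by
  decide +kernel

theorem t4 : runX PT.R (Wk.frw PT.R) nl RvT (SMap.evl cT tlT PT.vx ringF) [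
  .mk 42 21 63 [0x200, 0x200, 0x4, 0x1]] = true := by
  decide +kernel

/-- The tasks. -/
noncomputable def P : List (List Tk) := [
[
  .mk 42 21 63 [0x200, 0x398000]],
[
  .mk 42 21 63 [0x200, 0xfffc6206c],
  .mk 42 21 63 [0x200, 0x200, 0x3]],
[
  .mk 42 21 63 [0x200, 0x200, 0x18]],
[
  .mk 42 21 63 [0x200, 0x200, 0xfffffffe0]],
[
  .mk 42 21 63 [0x200, 0x200, 0x4, 0x1]]]

theorem run : RunAll (runX PT.R (Wk.frw PT.R) nl RvT (SMap.evl cT tlT PT.vx ringF)) P :=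
  .cons t0 (.cons t1 (.cons t2 (.cons t3 (.cons t4 (.nil)))))

end Pool.Agent.Lib.MP_5854e1_co.Cz.Sr429

namespace Pool.Agent.Lib.MP_5854e1_co.Cz.Sr591

open PB

theorem t0 : runX PT.R (Wk.frw PT.R) nl RvT (SMap.evl cT tlT PT.vx ringF) [
  .mk 86 11 2 [0x80, 0x40000, 0x400, 0x40000, 0x100000000000000000000000000000000000000000000000000000000000000000000000000000000]] = true := by
  decide +kernel

theorem t1 : runX PT.R (Wk.frw PT.R) nl RvT (SMap.evl cT tlT PT.vx ringF) [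
  .mk 86 11 2 [0x80, 0x40000, 0x400, 0x40000, 0xfffffffffffffffffffffffeffc3fc2fffffffffffffffffffffffffffffffffffffffffffffffffffffffffffffffffffffffff]] = true := by
  decide +kernel

theorem t2 : runX PT.R (Wk.frw PT.R) nl RvT (SMap.evl cT tlT PT.vx ringF) [
  .mk 86 11 2 [0x80, 0x40000, 0x400, 0x8000000000, 0x3200]] = true := by
  decide +kernel

theorem t3 : runX PT.R (Wk.frw PT.R) nl RvT (SMap.evl cT tlT PT.vx ringF) [
  .mk 86 11 2 [0x80, 0x40000, 0x400, 0x8000000000, 0x7cdff],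
  .mk 86 12 7 [],
  .mk 86 13 15 [],
  .mk 86 14 0 [],
  .mk 86 15 7 [],
  .mk 86 16 15 [],
  .mk 86 17 20 [],
  .mk 86 18 28 [],
  .mk 87 0 0 [],
  .mk 87 1 7 [],
  .mk 87 2 11 [],
  .mk 87 3 12 [],
  .mk 87 4 15 [],
  .mk 87 5 17 [],
  .mk 87 6 18 [],
  .mk 87 7 39 [],
  .mk 87 8 40 [],
  .mk 87 9 41 [],
  .mk 87 10 42 [],
  .mk 87 11 45 [],
  .mk 87 12 47 [],
  .mk 87 13 48 [],
  .mk 87 14 49 [],
  .mk 87 15 0 [],
  .mk 87 16 20 [],
  .mk 87 17 24 [],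
  .mk 87 18 25 [],
  .mk 87 19 26 [],
  .mk 87 20 27 [],
  .mk 87 21 28 [],
  .mk 87 22 30 [],
  .mk 87 23 31 [],
  .mk 87 24 32 [],
  .mk 87 25 50 [],
  .mk 87 26 51 []] = true := by
  decide +kernel

theorem t4 : runX PT.R (Wk.frw PT.R) nl RvT (SMap.evl cT tlT PT.vx ringF) [
  .mk 87 27 52 [0x1c185fc1]] = true := by
  decide +kernel

theorem t5 : runX PT.R (Wk.frw PT.R) nl RvT (SMap.evl cT tlT PT.vx ringF) [
  .mk 87 27 52 [0xfe3e7a03e]] = true := by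
  decide +kernel

/-- The tasks. -/
noncomputable def P : List (List Tk) := [
[
  .mk 86 11 2 [0x80, 0x40000, 0x400, 0x40000, 0x100000000000000000000000000000000000000000000000000000000000000000000000000000000]],
[
  .mk 86 11 2 [0x80, 0x40000, 0x400, 0x40000, 0xfffffffffffffffffffffffeffc3fc2fffffffffffffffffffffffffffffffffffffffffffffffffffffffffffffffffffffffff]],
[
  .mk 86 11 2 [0x80, 0x40000, 0x400, 0x8000000000, 0x3200]],
[
  .mk 86 11 2 [0x80, 0x40000, 0x400, 0x8000000000, 0x7cdff],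
  .mk 86 12 7 [],
  .mk 86 13 15 [],
  .mk 86 14 0 [],
  .mk 86 15 7 [],
  .mk 86 16 15 [],
  .mk 86 17 20 [],
  .mk 86 18 28 [],
  .mk 87 0 0 [],
  .mk 87 1 7 [],
  .mk 87 2 11 [],
  .mk 87 3 12 [],
  .mk 87 4 15 [],
  .mk 87 5 17 [],
  .mk 87 6 18 [],
  .mk 87 7 39 [],
  .mk 87 8 40 [],
  .mk 87 9 41 [],
  .mk 87 10 42 [],
  .mk 87 11 45 [],
  .mk 87 12 47 [],
  .mk 87 13 48 [],
  .mk 87 14 49 [],
  .mk 87 15 0 [],
  .mk 87 16 20 [],
  .mk 87 17 24 [],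
  .mk 87 18 25 [],
  .mk 87 19 26 [],
  .mk 87 20 27 [],
  .mk 87 21 28 [],
  .mk 87 22 30 [],
  .mk 87 23 31 [],
  .mk 87 24 32 [],
  .mk 87 25 50 [],
  .mk 87 26 51 []],
[
  .mk 87 27 52 [0x1c185fc1]],
[
  .mk 87 27 52 [0xfe3e7a03e]]]

theorem run : RunAll (runX PT.R (Wk.frw PT.R) nl RvT (SMap.evl cT tlT PT.vx ringF)) P :=
  .cons t0 (.cons t1 (.cons t2 (.cons t3 (.cons t4 (.cons t5 (.nil))))))

end Pool.Agent.Lib.MP_5854e1_co.Cz.Sr591
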