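import Pool.Agent.Lib.MP_5854e1_co.Cz.P
import Pool.Agent.Lib.MP_5854e1_co.Tkx
import Pool.Agent.Lib.MP_5854e1_co.RunAll

/-!
# Search, part 175
-/

set_option autoImplicit false
set_option deprecated.oldSectionVars true
set_option maxRecDepth 100000

namespace Pool.Agent.Lib.MP_5854e1_co.Cz.Sr175

open PB

theorem t0 : runX PT.R (Wk.frw PT.R) nl RvT (SMap.evl cT tlT PT.vx ringF) [
  .mk 7 272 2 [0xfffffe03c],
  .mk 7 273 7 []] = true := by
  decide +kernel

theorem t1 : runX PT.R (Wk.frw PT.R) nl RvT (SMap.evl cT tlT PT.vx ringF) [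
  .mk 7 274 8 [0x754806d]] = true := by
  decide +kernel

theorem t2 : runX PT.R (Wk.frw PT.R) nl RvT (SMap.evl cT tlT PT.vx ringF) [
  .mk 7 274 8 [0xff8ab7f92]] = true := by
  decide +kernel

theorem t3 : runX PT.R (Wk.frw PT.R) nl RvT (SMap.evl cT tlT PT.vx ringF) [
  .mk 7 275 9 [0xff]] = true := by
  decide +kernel

theorem t4 : runX PT.R (Wk.frw PT.R) nl RvT (SMap.evl cT tlT PT.vx ringF) [
  .mk 7 275 9 [0x3ffffffffff00]] = true := by
  decide +kernel

theorem t5 : runX PT.R (Wk.frw PT.R) nl RvT (SMap.evl cT tlT PT.vx ringF) [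
  .mk 7 276 15 []] = true := by
  decide +kernel

/-- The tasks. -/
noncomputable def P : List (List Tk) := [
[
  .mk 7 272 2 [0xfffffe03c],
  .mk 7 273 7 []],
[
  .mk 7 274 8 [0x754806d]],
[
  .mk 7 274 8 [0xff8ab7f92]],
[
  .mk 7 275 9 [0xff]],
[
  .mk 7 275 9 [0x3ffffffffff00]],
[
  .mk 7 276 15 []]]

theorem run : RunAll (runX PT.R (Wk.frw PT.R) nl RvT (SMap.evl cT tlT PT.vx ringF)) P :=
  .cons t0 (.cons t1 (.cons t2 (.cons t3 (.cons t4 (.cons t5 (.nil))))))

end Pool.Agent.Lib.MP_5854e1_co.Cz.Sr175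

namespace Pool.Agent.Lib.MP_5854e1_co.Cz.Sr261

open PB

theorem t0 : runX PT.R (Wk.frw PT.R) nl RvT (SMap.evl cT tlT PT.vx ringF) [
  .mk 11 13 21 [0x400, 0x10000000, 0x800, 0x1, 0xffffffffffffffffffffffffffffffffffffffffffffffffffffffffffffffffdfffffffffffffffffffffffffffffffffffffff]] = true := by
  decide +kernel

theorem t1 : runX PT.R (Wk.frw PT.R) nl RvT (SMap.evl cT tlT PT.vx ringF) [
  .mk 11 13 21 [0x400, 0x10000000, 0x800, 0x1, 0x2000000000000000000000000000000000000000, 0x20000000000000000000000000000000000000000000000000000000000000000]] = true := by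
  decide +kernel

theorem t2 : runX PT.R (Wk.frw PT.R) nl RvT (SMap.evl cT tlT PT.vx ringF) [
  .mk 11 13 21 [0x400, 0x10000000, 0x800, 0x1, 0x2000000000000000000000000000000000000000, 0xfffffffffffffffffffffffffffffffffffffffdffffffffffffffffffffffffffffffffffffffffffffffffffffffffffffffff]] = true := by
  decide +kernel

theorem t3 : runX PT.R (Wk.frw PT.R) nl RvT (SMap.evl cT tlT PT.vx ringF) [
  .mk 11 13 21 [0x400, 0x10000000, 0x1000, 0x330000000000000]] = true := by
  decide +kernel

theorem t4 : runX PT.R (Wk.frw PT.R) nl RvT (SMap.evl cT tlT PT.vx ringF) [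
  .mk 11 13 21 [0x400, 0x10000000, 0x1000, 0xffffffffffffffffffffffffffffffffffffffffffffffffffffffffc0ffffffffffffe]] = true := by
  decide +kernel

theorem t5 : runX PT.R (Wk.frw PT.R) nl RvT (SMap.evl cT tlT PT.vx ringF) [
  .mk 11 13 21 [0x400, 0x10000000, 0x1000, 0x1, 0x81f800000000000000000000000000000000000000000000000000000000000000000000000000000000000000000000]] = true := by
  decide +kernel

/-- The tasks. -/
noncomputable def P : List (List Tk) := [
[
  .mk 11 13 21 [0x400, 0x10000000, 0x800, 0x1, 0xffffffffffffffffffffffffffffffffffffffffffffffffffffffffffffffffdfffffffffffffffffffffffffffffffffffffff]],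
[
  .mk 11 13 21 [0x400, 0x10000000, 0x800, 0x1, 0x2000000000000000000000000000000000000000, 0x20000000000000000000000000000000000000000000000000000000000000000]],
[
  .mk 11 13 21 [0x400, 0x10000000, 0x800, 0x1, 0x2000000000000000000000000000000000000000, 0xfffffffffffffffffffffffffffffffffffffffdffffffffffffffffffffffffffffffffffffffffffffffffffffffffffffffff]],
[
  .mk 11 13 21 [0x400, 0x10000000, 0x1000, 0x330000000000000]],
[
  .mk 11 13 21 [0x400, 0x10000000, 0x1000, 0xffffffffffffffffffffffffffffffffffffffffffffffffffffffffc0ffffffffffffe]],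
[
  .mk 11 13 21 [0x400, 0x10000000, 0x1000, 0x1, 0x81f800000000000000000000000000000000000000000000000000000000000000000000000000000000000000000000]]]

theorem run : RunAll (runX PT.R (Wk.frw PT.R) nl RvT (SMap.evl cT tlT PT.vx ringF)) P :=
  .cons t0 (.cons t1 (.cons t2 (.cons t3 (.cons t4 (.cons t5 (.nil))))))

end Pool.Agent.Lib.MP_5854e1_co.Cz.Sr261
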