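import Pool.Agent.Lib.MP_5854e1_co.Cz.P
import Pool.Agent.Lib.MP_5854e1_co.Tkx
import Pool.Agent.Lib.MP_5854e1_co.RunAll

/-!
# Search, part 176
-/

set_option autoImplicit false
set_option deprecated.oldSectionVars true
set_option maxRecDepth 100000

namespace Pool.Agent.Lib.MP_5854e1_co.Cz.Sr176

open PB

theorem t0 : runX PT.R (Wk.frw PT.R) nl RvT (SMap.evl cT tlT PT.vx ringF) [
  .mk 7 277 16 [],
  .mk 7 278 0 [],
  .mk 7 279 1 [],
  .mk 7 280 7 [],
  .mk 7 281 15 []] = true := by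
  decide +kernel

theorem t1 : runX PT.R (Wk.frw PT.R) nl RvT (SMap.evl cT tlT PT.vx ringF) [
  .mk 7 282 20 [0x4020]] = true := by
  decide +kernel

theorem t2 : runX PT.R (Wk.frw PT.R) nl RvT (SMap.evl cT tlT PT.vx ringF) [
  .mk 7 282 20 [0x18000]] = true := by
  decide +kernel

theorem t3 : runX PT.R (Wk.frw PT.R) nl RvT (SMap.evl cT tlT PT.vx ringF) [
  .mk 7 282 20 [0x20000]] = true := by
  decide +kernel

theorem t4 : runX PT.R (Wk.frw PT.R) nl RvT (SMap.evl cT tlT PT.vx ringF) [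
  .mk 7 282 20 [0xffffffffffffffffffffffffffffffffffffffffffffffffffffffffffffffffff42fd3]] = true := by
  decide +kernel

theorem t5 : runX PT.R (Wk.frw PT.R) nl RvT (SMap.evl cT tlT PT.vx ringF) [
  .mk 7 282 20 [0x4, 0xf000]] = true := by
  decide +kernel

theorem t6 : runX PT.R (Wk.frw PT.R) nl RvT (SMap.evl cT tlT PT.vx ringF) [
  .mk 7 282 20 [0x4, 0x7f0fff]] = true := by
  decide +kernel

/-- The tasks. -/
noncomputable def P : List (List Tk) := [
[
  .mk 7 277 16 [],
  .mk 7 278 0 [],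
  .mk 7 279 1 [],
  .mk 7 280 7 [],
  .mk 7 281 15 []],
[
  .mk 7 282 20 [0x4020]],
[
  .mk 7 282 20 [0x18000]],
[
  .mk 7 282 20 [0x20000]],
[
  .mk 7 282 20 [0xffffffffffffffffffffffffffffffffffffffffffffffffffffffffffffffffff42fd3]],
[
  .mk 7 282 20 [0x4, 0xf000]],
[
  .mk 7 282 20 [0x4, 0x7f0fff]]]

theorem run : RunAll (runX PT.R (Wk.frw PT.R) nl RvT (SMap.evl cT tlT PT.vx ringF)) P :=
  .cons t0 (.cons t1 (.cons t2 (.cons t3 (.cons t4 (.cons t5 (.cons t6 (.nil)))))))

end Pool.Agent.Lib.MP_5854e1_co.Cz.Sr176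

namespace Pool.Agent.Lib.MP_5854e1_co.Cz.Sr574

open PB

theorem t0 : runX PT.R (Wk.frw PT.R) nl RvT (SMap.evl cT tlT PT.vx ringF) [
  .mk 68 15 23 [0x800000, 0x8000000, 0x3fffffffbffff],
  .mk 68 15 23 [0x800000, 0x8000000, 0x40000, 0xcc00007a0000000000000000000000000000000000000000000000000000000000000000000000]] = true := by
  decide +kernel

theorem t1 : runX PT.R (Wk.frw PT.R) nl RvT (SMap.evl cT tlT PT.vx ringF) [
  .mk 68 15 23 [0x800000, 0x8000000, 0x40000, 0x300000000000000000000000000000000000000000000000000000000000000000000000000000000]] = true := by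
  decide +kernel

theorem t2 : runX PT.R (Wk.frw PT.R) nl RvT (SMap.evl cT tlT PT.vx ringF) [
  .mk 68 15 23 [0x800000, 0x8000000, 0x40000, 0xfffffffffffffffffffffffcff33ffff85ffffffffffffffffffffffffffffffffffffffffffffffffffffffffffffffffffffff],
  .mk 68 15 23 [0x800000, 0x100000000, 0x400000200000]] = true := by
  decide +kernel

theorem t3 : runX PT.R (Wk.frw PT.R) nl RvT (SMap.evl cT tlT PT.vx ringF) [
  .mk 68 15 23 [0x800000, 0x100000000, 0x7fbfffffdfffff]] = true := by
  decide +kernel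

theorem t4 : runX PT.R (Wk.frw PT.R) nl RvT (SMap.evl cT tlT PT.vx ringF) [
  .mk 68 15 23 [0x800000, 0x200000000, 0x13]] = true := by
  decide +kernel

theorem t5 : runX PT.R (Wk.frw PT.R) nl RvT (SMap.evl cT tlT PT.vx ringF) [
  .mk 68 15 23 [0x800000, 0x200000000, 0xfffffffec]] = true := by
  decide +kernel

/-- The tasks. -/
noncomputable def P : List (List Tk) := [
[
  .mk 68 15 23 [0x800000, 0x8000000, 0x3fffffffbffff],
  .mk 68 15 23 [0x800000, 0x8000000, 0x40000, 0xcc00007a0000000000000000000000000000000000000000000000000000000000000000000000]],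
[
  .mk 68 15 23 [0x800000, 0x8000000, 0x40000, 0x300000000000000000000000000000000000000000000000000000000000000000000000000000000]],
[
  .mk 68 15 23 [0x800000, 0x8000000, 0x40000, 0xfffffffffffffffffffffffcff33ffff85ffffffffffffffffffffffffffffffffffffffffffffffffffffffffffffffffffffff],
  .mk 68 15 23 [0x800000, 0x100000000, 0x400000200000]],
[
  .mk 68 15 23 [0x800000, 0x100000000, 0x7fbfffffdfffff]],
[
  .mk 68 15 23 [0x800000, 0x200000000, 0x13]],
[
  .mk 68 15 23 [0x800000, 0x200000000, 0xfffffffec]]]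

theorem run : RunAll (runX PT.R (Wk.frw PT.R) nl RvT (SMap.evl cT tlT PT.vx ringF)) P :=
  .cons t0 (.cons t1 (.cons t2 (.cons t3 (.cons t4 (.cons t5 (.nil))))))

end Pool.Agent.Lib.MP_5854e1_co.Cz.Sr574
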