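import Pool.Agent.Lib.MP_5854e1_co.Cz.P
import Pool.Agent.Lib.MP_5854e1_co.Tkx
import Pool.Agent.Lib.MP_5854e1_co.RunAll

/-!
# Search, part 179
-/

set_option autoImplicit false
set_option deprecated.oldSectionVars true
set_option maxRecDepth 100000

namespace Pool.Agent.Lib.MP_5854e1_co.Cz.Sr179

open PB

theorem t0 : runX PT.R (Wk.frw PT.R) nl RvT (SMap.evl cT tlT PT.vx ringF) [
  .mk 8 3 12 [0xd00000]] = true := by
  decide +kernel

theorem t1 : runX PT.R (Wk.frw PT.R) nl RvT (SMap.evl cT tlT PT.vx ringF) [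
  .mk 8 3 12 [0x3000000]] = true := by
  decide +kernel

theorem t2 : runX PT.R (Wk.frw PT.R) nl RvT (SMap.evl cT tlT PT.vx ringF) [
  .mk 8 3 12 [0x8000000]] = true := by
  decide +kernel

theorem t3 : runX PT.R (Wk.frw PT.R) nl RvT (SMap.evl cT tlT PT.vx ringF) [
  .mk 8 3 12 [0x50000000]] = true := by
  decide +kernel

theorem t4 : runX PT.R (Wk.frw PT.R) nl RvT (SMap.evl cT tlT PT.vx ringF) [
  .mk 8 3 12 [0x180000000]] = true := by
  decide +kernel

theorem t5 : runX PT.R (Wk.frw PT.R) nl RvT (SMap.evl cT tlT PT.vx ringF) [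
  .mk 8 3 12 [0x20021fdff]] = true := by
  decide +kernel

/-- The tasks. -/
noncomputable def P : List (List Tk) := [
[
  .mk 8 3 12 [0xd00000]],
[
  .mk 8 3 12 [0x3000000]],
[
  .mk 8 3 12 [0x8000000]],
[
  .mk 8 3 12 [0x50000000]],
[
  .mk 8 3 12 [0x180000000]],
[
  .mk 8 3 12 [0x20021fdff]]]

theorem run : RunAll (runX PT.R (Wk.frw PT.R) nl RvT (SMap.evl cT tlT PT.vx ringF)) P :=
  .cons t0 (.cons t1 (.cons t2 (.cons t3 (.cons t4 (.cons t5 (.nil))))))

end Pool.Agent.Lib.MP_5854e1_co.Cz.Sr179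

namespace Pool.Agent.Lib.MP_5854e1_co.Cz.Sr409

open PB

theorem t0 : runX PT.R (Wk.frw PT.R) nl RvT (SMap.evl cT tlT PT.vx ringF) [
  .mk 41 18 25 [0x40000, 0x1000000000000000000000000000000000000000000000000000000000000000, 0x53000]] = true := by
  decide +kernel

theorem t1 : runX PT.R (Wk.frw PT.R) nl RvT (SMap.evl cT tlT PT.vx ringF) [
  .mk 41 18 25 [0x40000, 0x1000000000000000000000000000000000000000000000000000000000000000, 0xffffffffffffffffffffffffffffffffffffffffffffffffffffffffffffffffffac3f2]] = true := by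
  decide +kernel

theorem t2 : runX PT.R (Wk.frw PT.R) nl RvT (SMap.evl cT tlT PT.vx ringF) [
  .mk 41 18 25 [0x4000000, 0x1faf]] = true := by
  decide +kernel

theorem t3 : runX PT.R (Wk.frw PT.R) nl RvT (SMap.evl cT tlT PT.vx ringF) [
  .mk 41 18 25 [0x4000000, 0x3e000]] = true := by
  decide +kernel

theorem t4 : runX PT.R (Wk.frw PT.R) nl RvT (SMap.evl cT tlT PT.vx ringF) [
  .mk 41 18 25 [0x4000000, 0xffffc0050],
  .mk 41 19 26 []] = true := by
  decide +kernel

theorem t5 : runX PT.R (Wk.frw PT.R) nl RvT (SMap.evl cT tlT PT.vx ringF) [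
  .mk 41 20 27 [],
  .mk 41 21 28 [],
  .mk 41 22 30 [],
  .mk 41 23 31 [],
  .mk 41 24 32 [],
  .mk 41 25 50 [],
  .mk 41 26 51 []] = true := by
  decide +kernel

theorem t6 : runX PT.R (Wk.frw PT.R) nl RvT (SMap.evl cT tlT PT.vx ringF) [
  .mk 41 27 52 [0x550]] = true := by
  decide +kernel

/-- The tasks. -/
noncomputable def P : List (List Tk) := [
[
  .mk 41 18 25 [0x40000, 0x1000000000000000000000000000000000000000000000000000000000000000, 0x53000]],
[
  .mk 41 18 25 [0x40000, 0x1000000000000000000000000000000000000000000000000000000000000000, 0xffffffffffffffffffffffffffffffffffffffffffffffffffffffffffffffffffac3f2]],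
[
  .mk 41 18 25 [0x4000000, 0x1faf]],
[
  .mk 41 18 25 [0x4000000, 0x3e000]],
[
  .mk 41 18 25 [0x4000000, 0xffffc0050],
  .mk 41 19 26 []],
[
  .mk 41 20 27 [],
  .mk 41 21 28 [],
  .mk 41 22 30 [],
  .mk 41 23 31 [],
  .mk 41 24 32 [],
  .mk 41 25 50 [],
  .mk 41 26 51 []],
[
  .mk 41 27 52 [0x550]]]

theorem run : RunAll (runX PT.R (Wk.frw PT.R) nl RvT (SMap.evl cT tlT PT.vx ringF)) P :=
  .cons t0 (.cons t1 (.cons t2 (.cons t3 (.cons t4 (.cons t5 (.cons t6 (.nil)))))))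

end Pool.Agent.Lib.MP_5854e1_co.Cz.Sr409

namespace Pool.Agent.Lib.MP_5854e1_co.Cz.Sr514

open PB

theorem t0 : runX PT.R (Wk.frw PT.R) nl RvT (SMap.evl cT tlT PT.vx ringF) [
  .mk 63 9 52 [0x80, 0x1c0f]] = true := by
  decide +kernel

theorem t1 : runX PT.R (Wk.frw PT.R) nl RvT (SMap.evl cT tlT PT.vx ringF) [
  .mk 63 9 52 [0x80, 0xfe3f0],
  .mk 63 9 52 [0x200, 0x38072]] = true := by
  decide +kernel

theorem t2 : runX PT.R (Wk.frw PT.R) nl RvT (SMap.evl cT tlT PT.vx ringF) [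
  .mk 63 9 52 [0x200, 0x69e640000]] = true := by
  decide +kernel

theorem t3 : runX PT.R (Wk.frw PT.R) nl RvT (SMap.evl cT tlT PT.vx ringF) [
  .mk 63 9 52 [0x200, 0x961987f80]] = true := by
  decide +kernel

theorem t4 : runX PT.R (Wk.frw PT.R) nl RvT (SMap.evl cT tlT PT.vx ringF) [
  .mk 63 9 52 [0x200, 0x1, 0x7e000000002000000000000000000000000000000000000000]] = true := by
  decide +kernel

theorem t5 : runX PT.R (Wk.frw PT.R) nl RvT (SMap.evl cT tlT PT.vx ringF) [
  .mk 63 9 52 [0x200, 0x1, 0x380000000000000000000000000000000000000000000000000]] = true := by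
  decide +kernel

theorem t6 : runX PT.R (Wk.frw PT.R) nl RvT (SMap.evl cT tlT PT.vx ringF) [
  .mk 63 9 52 [0x200, 0x1, 0x3800c00000000000000000000000000000000000000000000000000]] = true := by
  decide +kernel

/-- The tasks. -/
noncomputable def P : List (List Tk) := [
[
  .mk 63 9 52 [0x80, 0x1c0f]],
[
  .mk 63 9 52 [0x80, 0xfe3f0],
  .mk 63 9 52 [0x200, 0x38072]],
[
  .mk 63 9 52 [0x200, 0x69e640000]],
[
  .mk 63 9 52 [0x200, 0x961987f80]],
[
  .mk 63 9 52 [0x200, 0x1, 0x7e000000002000000000000000000000000000000000000000]],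
[
  .mk 63 9 52 [0x200, 0x1, 0x380000000000000000000000000000000000000000000000000]],
[
  .mk 63 9 52 [0x200, 0x1, 0x3800c00000000000000000000000000000000000000000000000000]]]

theorem run : RunAll (runX PT.R (Wk.frw PT.R) nl RvT (SMap.evl cT tlT PT.vx ringF)) P :=
  .cons t0 (.cons t1 (.cons t2 (.cons t3 (.cons t4 (.cons t5 (.cons t6 (.nil)))))))

end Pool.Agent.Lib.MP_5854e1_co.Cz.Sr514
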