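import Pool.Agent.Lib.MP_5854e1_co.Cz.P
import Pool.Agent.Lib.MP_5854e1_co.Tkx
import Pool.Agent.Lib.MP_5854e1_co.RunAll

/-!
# Search, part 180
-/

set_option autoImplicit false
set_option deprecated.oldSectionVars true
set_option maxRecDepth 100000

namespace Pool.Agent.Lib.MP_5854e1_co.Cz.Sr180

open PB

theorem t0 : runX PT.R (Wk.frw PT.R) nl RvT (SMap.evl cT tlT PT.vx ringF) [
  .mk 8 3 12 [0x4000000, 0xdb93]] = true := by
  decide +kernel

theorem t1 : runX PT.R (Wk.frw PT.R) nl RvT (SMap.evl cT tlT PT.vx ringF) [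
  .mk 8 3 12 [0x4000000, 0xfffff206c],
  .mk 8 3 12 [0x4000000, 0x400, 0xffc0000]] = true := by
  decide +kernel

theorem t2 : runX PT.R (Wk.frw PT.R) nl RvT (SMap.evl cT tlT PT.vx ringF) [
  .mk 8 3 12 [0x4000000, 0x400, 0x10000000]] = true := by
  decide +kernel

theorem t3 : runX PT.R (Wk.frw PT.R) nl RvT (SMap.evl cT tlT PT.vx ringF) [
  .mk 8 3 12 [0x4000000, 0x400, 0x3ffffe003ffff],
  .mk 8 3 12 [0x20000000, 0xffffbff]] = true := by
  decide +kernel

theorem t4 : runX PT.R (Wk.frw PT.R) nl RvT (SMap.evl cT tlT PT.vx ringF) [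
  .mk 8 3 12 [0x20000000, 0x400, 0x68b]] = true := by
  decide +kernel

theorem t5 : runX PT.R (Wk.frw PT.R) nl RvT (SMap.evl cT tlT PT.vx ringF) [
  .mk 8 3 12 [0x20000000, 0x400, 0x1000]] = true := by
  decide +kernel

/-- The tasks. -/
noncomputable def P : List (List Tk) := [
[
  .mk 8 3 12 [0x4000000, 0xdb93]],
[
  .mk 8 3 12 [0x4000000, 0xfffff206c],
  .mk 8 3 12 [0x4000000, 0x400, 0xffc0000]],
[
  .mk 8 3 12 [0x4000000, 0x400, 0x10000000]],
[
  .mk 8 3 12 [0x4000000, 0x400, 0x3ffffe003ffff],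
  .mk 8 3 12 [0x20000000, 0xffffbff]],
[
  .mk 8 3 12 [0x20000000, 0x400, 0x68b]],
[
  .mk 8 3 12 [0x20000000, 0x400, 0x1000]]]

theorem run : RunAll (runX PT.R (Wk.frw PT.R) nl RvT (SMap.evl cT tlT PT.vx ringF)) P :=
  .cons t0 (.cons t1 (.cons t2 (.cons t3 (.cons t4 (.cons t5 (.nil))))))

end Pool.Agent.Lib.MP_5854e1_co.Cz.Sr180

namespace Pool.Agent.Lib.MP_5854e1_co.Cz.Sr349

open PB

theorem t0 : runX PT.R (Wk.frw PT.R) nl RvT (SMap.evl cT tlT PT.vx ringF) [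
  .mk 39 16 35 [0x8, 0x4000000, 0xffffff86c]] = true := by
  decide +kernel

theorem t1 : runX PT.R (Wk.frw PT.R) nl RvT (SMap.evl cT tlT PT.vx ringF) [
  .mk 39 16 35 [0x8, 0x4000000, 0x200, 0x6]] = true := by
  decide +kernel

theorem t2 : runX PT.R (Wk.frw PT.R) nl RvT (SMap.evl cT tlT PT.vx ringF) [
  .mk 39 16 35 [0x8, 0x4000000, 0x200, 0xffffffff8],
  .mk 39 16 35 [0x8, 0x4000000, 0x200, 0x1, 0xffffffffffffffffffffffffffffffffffffffffffffffffffffffdfffffffffffffffffffffffffffffffffffffffffffffffff]] = true := by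
  decide +kernel

theorem t3 : runX PT.R (Wk.frw PT.R) nl RvT (SMap.evl cT tlT PT.vx ringF) [
  .mk 39 16 35 [0x8, 0x4000000, 0x200, 0x1, 0x20000000000000000000000000000000000000000000000000, 0x3ffffffff]] = true := by
  decide +kernel

theorem t4 : runX PT.R (Wk.frw PT.R) nl RvT (SMap.evl cT tlT PT.vx ringF) [
  .mk 39 16 35 [0x200, 0x53]] = true := by
  decide +kernel

theorem t5 : runX PT.R (Wk.frw PT.R) nl RvT (SMap.evl cT tlT PT.vx ringF) [
  .mk 39 16 35 [0x200, 0x77398000]] = true := by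
  decide +kernel

/-- The tasks. -/
noncomputable def P : List (List Tk) := [
[
  .mk 39 16 35 [0x8, 0x4000000, 0xffffff86c]],
[
  .mk 39 16 35 [0x8, 0x4000000, 0x200, 0x6]],
[
  .mk 39 16 35 [0x8, 0x4000000, 0x200, 0xffffffff8],
  .mk 39 16 35 [0x8, 0x4000000, 0x200, 0x1, 0xffffffffffffffffffffffffffffffffffffffffffffffffffffffdfffffffffffffffffffffffffffffffffffffffffffffffff]],
[
  .mk 39 16 35 [0x8, 0x4000000, 0x200, 0x1, 0x20000000000000000000000000000000000000000000000000, 0x3ffffffff]],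
[
  .mk 39 16 35 [0x200, 0x53]],
[
  .mk 39 16 35 [0x200, 0x77398000]]]

theorem run : RunAll (runX PT.R (Wk.frw PT.R) nl RvT (SMap.evl cT tlT PT.vx ringF)) P :=
  .cons t0 (.cons t1 (.cons t2 (.cons t3 (.cons t4 (.cons t5 (.nil))))))

end Pool.Agent.Lib.MP_5854e1_co.Cz.Sr349

namespace Pool.Agent.Lib.MP_5854e1_co.Cz.Sr384

open PB

theorem t0 : runX PT.R (Wk.frw PT.R) nl RvT (SMap.evl cT tlT PT.vx ringF) [
  .mk 41 7 39 [0x10000, 0x1000, 0x2000000000000, 0x7ff74]] = true := by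
  decide +kernel

theorem t1 : runX PT.R (Wk.frw PT.R) nl RvT (SMap.evl cT tlT PT.vx ringF) [
  .mk 41 8 40 []] = true := by
  decide +kernel

theorem t2 : runX PT.R (Wk.frw PT.R) nl RvT (SMap.evl cT tlT PT.vx ringF) [
  .mk 41 9 41 [0x32]] = true := by
  decide +kernel

theorem t3 : runX PT.R (Wk.frw PT.R) nl RvT (SMap.evl cT tlT PT.vx ringF) [
  .mk 41 9 41 [0x65b8040]] = true := by
  decide +kernel

theorem t4 : runX PT.R (Wk.frw PT.R) nl RvT (SMap.evl cT tlT PT.vx ringF) [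
  .mk 41 9 41 [0x30000000]] = true := by
  decide +kernel

theorem t5 : runX PT.R (Wk.frw PT.R) nl RvT (SMap.evl cT tlT PT.vx ringF) [
  .mk 41 9 41 [0xa41a07f80]] = true := by
  decide +kernel

/-- The tasks. -/
noncomputable def P : List (List Tk) := [
[
  .mk 41 7 39 [0x10000, 0x1000, 0x2000000000000, 0x7ff74]],
[
  .mk 41 8 40 []],
[
  .mk 41 9 41 [0x32]],
[
  .mk 41 9 41 [0x65b8040]],
[
  .mk 41 9 41 [0x30000000]],
[
  .mk 41 9 41 [0xa41a07f80]]]

theorem run : RunAll (runX PT.R (Wk.frw PT.R) nl RvT (SMap.evl cT tlT PT.vx ringF)) P :=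
  .cons t0 (.cons t1 (.cons t2 (.cons t3 (.cons t4 (.cons t5 (.nil))))))

end Pool.Agent.Lib.MP_5854e1_co.Cz.Sr384
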