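import Pool.Agent.Lib.MP_5854e1_co.Cz.P
import Pool.Agent.Lib.MP_5854e1_co.Tkx
import Pool.Agent.Lib.MP_5854e1_co.RunAll

/-!
# Search, part 185
-/

set_option autoImplicit false
set_option deprecated.oldSectionVars true
set_option maxRecDepth 100000

namespace Pool.Agent.Lib.MP_5854e1_co.Cz.Sr185

open PB

theorem t0 : runX PT.R (Wk.frw PT.R) nl RvT (SMap.evl cT tlT PT.vx ringF) [
  .mk 8 7 39 [0x10000, 0x1000, 0x703fffffdfffff]] = true := by
  decide +kernel

theorem t1 : runX PT.R (Wk.frw PT.R) nl RvT (SMap.evl cT tlT PT.vx ringF) [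
  .mk 8 7 39 [0x10000, 0x1000, 0x2000000000000, 0x8a]] = true := by
  decide +kernel

theorem t2 : runX PT.R (Wk.frw PT.R) nl RvT (SMap.evl cT tlT PT.vx ringF) [
  .mk 8 7 39 [0x10000, 0x1000, 0x2000000000000, 0x3400]] = true := by
  decide +kernel

theorem t3 : runX PT.R (Wk.frw PT.R) nl RvT (SMap.evl cT tlT PT.vx ringF) [
  .mk 8 7 39 [0x10000, 0x1000, 0x2000000000000, 0x7c974]] = true := by
  decide +kernel

theorem t4 : runX PT.R (Wk.frw PT.R) nl RvT (SMap.evl cT tlT PT.vx ringF) [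
  .mk 8 7 39 [0x10000, 0x1000, 0x2000000000000, 0x1, 0x8401]] = true := by
  decide +kernel

theorem t5 : runX PT.R (Wk.frw PT.R) nl RvT (SMap.evl cT tlT PT.vx ringF) [
  .mk 8 7 39 [0x10000, 0x1000, 0x2000000000000, 0x1, 0x200000000000000000000]] = true := by
  decide +kernel

theorem t6 : runX PT.R (Wk.frw PT.R) nl RvT (SMap.evl cT tlT PT.vx ringF) [
  .mk 8 7 39 [0x10000, 0x1000, 0x2000000000000, 0x1, 0xfffffffffffffffffffffffffffffffffffffffffffffffffffffffffffffffffffffffffffffffffffdffffffffffffffff7bfe]] = true := by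
  decide +kernel

/-- The tasks. -/
noncomputable def P : List (List Tk) := [
[
  .mk 8 7 39 [0x10000, 0x1000, 0x703fffffdfffff]],
[
  .mk 8 7 39 [0x10000, 0x1000, 0x2000000000000, 0x8a]],
[
  .mk 8 7 39 [0x10000, 0x1000, 0x2000000000000, 0x3400]],
[
  .mk 8 7 39 [0x10000, 0x1000, 0x2000000000000, 0x7c974]],
[
  .mk 8 7 39 [0x10000, 0x1000, 0x2000000000000, 0x1, 0x8401]],
[
  .mk 8 7 39 [0x10000, 0x1000, 0x2000000000000, 0x1, 0x200000000000000000000]],
[
  .mk 8 7 39 [0x10000, 0x1000, 0x2000000000000, 0x1, 0xfffffffffffffffffffffffffffffffffffffffffffffffffffffffffffffffffffffffffffffffffffdffffffffffffffff7bfe]]]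

theorem run : RunAll (runX PT.R (Wk.frw PT.R) nl RvT (SMap.evl cT tlT PT.vx ringF)) P :=
  .cons t0 (.cons t1 (.cons t2 (.cons t3 (.cons t4 (.cons t5 (.cons t6 (.nil)))))))

end Pool.Agent.Lib.MP_5854e1_co.Cz.Sr185

namespace Pool.Agent.Lib.MP_5854e1_co.Cz.Sr496

open PB

theorem t0 : runX PT.R (Wk.frw PT.R) nl RvT (SMap.evl cT tlT PT.vx ringF) [
  .mk 48 27 60 [0x400, 0x100000000000, 0x7f974],
  .mk 49 0 0 [],
  .mk 49 1 20 [],
  .mk 49 2 24 [0x7fdfff],
  .mk 49 2 24 [0x2000, 0xffffffbff]] = true := by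
  decide +kernel

theorem t1 : runX PT.R (Wk.frw PT.R) nl RvT (SMap.evl cT tlT PT.vx ringF) [
  .mk 49 2 24 [0x2000, 0x400, 0x3fc0000]] = true := by
  decide +kernel

theorem t2 : runX PT.R (Wk.frw PT.R) nl RvT (SMap.evl cT tlT PT.vx ringF) [
  .mk 49 2 24 [0x2000, 0x400, 0x3fffffc03ffff],
  .mk 49 3 25 [],
  .mk 49 4 28 [],
  .mk 49 5 30 [],
  .mk 49 6 31 [],
  .mk 49 7 50 [],
  .mk 49 8 51 []] = true := by
  decide +kernel

theorem t3 : runX PT.R (Wk.frw PT.R) nl RvT (SMap.evl cT tlT PT.vx ringF) [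
  .mk 49 9 52 [0x44004d]] = true := by
  decide +kernel

theorem t4 : runX PT.R (Wk.frw PT.R) nl RvT (SMap.evl cT tlT PT.vx ringF) [
  .mk 49 9 52 [0xfffbbffb2]] = true := by
  decide +kernel

theorem t5 : runX PT.R (Wk.frw PT.R) nl RvT (SMap.evl cT tlT PT.vx ringF) [
  .mk 49 10 53 [0xb5c0000]] = true := by
  decide +kernel

/-- The tasks. -/
noncomputable def P : List (List Tk) := [
[
  .mk 48 27 60 [0x400, 0x100000000000, 0x7f974],
  .mk 49 0 0 [],
  .mk 49 1 20 [],
  .mk 49 2 24 [0x7fdfff],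
  .mk 49 2 24 [0x2000, 0xffffffbff]],
[
  .mk 49 2 24 [0x2000, 0x400, 0x3fc0000]],
[
  .mk 49 2 24 [0x2000, 0x400, 0x3fffffc03ffff],
  .mk 49 3 25 [],
  .mk 49 4 28 [],
  .mk 49 5 30 [],
  .mk 49 6 31 [],
  .mk 49 7 50 [],
  .mk 49 8 51 []],
[
  .mk 49 9 52 [0x44004d]],
[
  .mk 49 9 52 [0xfffbbffb2]],
[
  .mk 49 10 53 [0xb5c0000]]]

theorem run : RunAll (runX PT.R (Wk.frw PT.R) nl RvT (SMap.evl cT tlT PT.vx ringF)) P :=
  .cons t0 (.cons t1 (.cons t2 (.cons t3 (.cons t4 (.cons t5 (.nil))))))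

end Pool.Agent.Lib.MP_5854e1_co.Cz.Sr496

namespace Pool.Agent.Lib.MP_5854e1_co.Cz.Sr534

open PB

theorem t0 : runX PT.R (Wk.frw PT.R) nl RvT (SMap.evl cT tlT PT.vx ringF) [
  .mk 63 16 60 [0x1000, 0x80000000, 0x3601]] = true := by
  decide +kernel

theorem t1 : runX PT.R (Wk.frw PT.R) nl RvT (SMap.evl cT tlT PT.vx ringF) [
  .mk 63 16 60 [0x1000, 0x80000000, 0x7fc9fe],
  .mk 63 17 0 [],
  .mk 63 18 7 [],
  .mk 63 19 13 [],
  .mk 63 20 14 [],
  .mk 63 21 15 [],
  .mk 63 22 18 [],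
  .mk 63 23 19 [],
  .mk 63 24 39 [],
  .mk 63 25 40 []] = true := by
  decide +kernel

theorem t2 : runX PT.R (Wk.frw PT.R) nl RvT (SMap.evl cT tlT PT.vx ringF) [
  .mk 63 26 41 [0x187]] = true := by
  decide +kernel

theorem t3 : runX PT.R (Wk.frw PT.R) nl RvT (SMap.evl cT tlT PT.vx ringF) [
  .mk 63 26 41 [0x200]] = true := by
  decide +kernel

theorem t4 : runX PT.R (Wk.frw PT.R) nl RvT (SMap.evl cT tlT PT.vx ringF) [
  .mk 63 26 41 [0xfffffdc70]] = true := by
  decide +kernel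

theorem t5 : runX PT.R (Wk.frw PT.R) nl RvT (SMap.evl cT tlT PT.vx ringF) [
  .mk 63 26 41 [0x8, 0xfa781]] = true := by
  decide +kernel

theorem t6 : runX PT.R (Wk.frw PT.R) nl RvT (SMap.evl cT tlT PT.vx ringF) [
  .mk 63 26 41 [0x8, 0x3fff0587e]] = true := by
  decide +kernel

/-- The tasks. -/
noncomputable def P : List (List Tk) := [
[
  .mk 63 16 60 [0x1000, 0x80000000, 0x3601]],
[
  .mk 63 16 60 [0x1000, 0x80000000, 0x7fc9fe],
  .mk 63 17 0 [],
  .mk 63 18 7 [],
  .mk 63 19 13 [],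
  .mk 63 20 14 [],
  .mk 63 21 15 [],
  .mk 63 22 18 [],
  .mk 63 23 19 [],
  .mk 63 24 39 [],
  .mk 63 25 40 []],
[
  .mk 63 26 41 [0x187]],
[
  .mk 63 26 41 [0x200]],
[
  .mk 63 26 41 [0xfffffdc70]],
[
  .mk 63 26 41 [0x8, 0xfa781]],
[
  .mk 63 26 41 [0x8, 0x3fff0587e]]]

theorem run : RunAll (runX PT.R (Wk.frw PT.R) nl RvT (SMap.evl cT tlT PT.vx ringF)) P :=
  .cons t0 (.cons t1 (.cons t2 (.cons t3 (.cons t4 (.cons t5 (.cons t6 (.nil)))))))

end Pool.Agent.Lib.MP_5854e1_co.Cz.Sr534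

namespace Pool.Agent.Lib.MP_5854e1_co.Cz.Sr551

open PB

theorem t0 : runX PT.R (Wk.frw PT.R) nl RvT (SMap.evl cT tlT PT.vx ringF) [
  .mk 68 13 21 [0x400, 0x800000, 0x200, 0x1, 0x200000000000000000000, 0x200000000000000000000000000000000000000000000000000000000000000000000000000000000]] = true := by
  decide +kernel

theorem t1 : runX PT.R (Wk.frw PT.R) nl RvT (SMap.evl cT tlT PT.vx ringF) [
  .mk 68 13 21 [0x400, 0x800000, 0x200, 0x1, 0x200000000000000000000, 0x400000000000000000000000000000000000000000000000000000000000000000000000000000000]] = true := by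
  decide +kernel

theorem t2 : runX PT.R (Wk.frw PT.R) nl RvT (SMap.evl cT tlT PT.vx ringF) [
  .mk 68 13 21 [0x400, 0x800000, 0x200, 0x1, 0x200000000000000000000, 0xfffffffffffffffffffffff8ff33ffff85ffffffffffffffffffffffffffffffffffffffffffffffffffffffffffffffffffffff],
  .mk 68 13 21 [0x400, 0x800000, 0x200, 0x1, 0x40000000000000000000000000000000000, 0x1]] = true := by
  decide +kernel

theorem t3 : runX PT.R (Wk.frw PT.R) nl RvT (SMap.evl cT tlT PT.vx ringF) [
  .mk 68 13 21 [0x400, 0x800000, 0x200, 0x1, 0x40000000000000000000000000000000000, 0x7fffe]] = true := by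
  decide +kernel

theorem t4 : runX PT.R (Wk.frw PT.R) nl RvT (SMap.evl cT tlT PT.vx ringF) [
  .mk 68 13 21 [0x400, 0x800000, 0x200, 0x10, 0x700001e800000000000000000000000000000000000000000000000000000000000]] = true := by
  decide +kernel

theorem t5 : runX PT.R (Wk.frw PT.R) nl RvT (SMap.evl cT tlT PT.vx ringF) [
  .mk 68 13 21 [0x400, 0x800000, 0x200, 0x10, 0xffff8ffffe17fffffffffffffffffffffffffffffffffffffffffffffffffffffffffff]] = true := by
  decide +kernel

theorem t6 : runX PT.R (Wk.frw PT.R) nl RvT (SMap.evl cT tlT PT.vx ringF) [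
  .mk 68 13 21 [0x400, 0x800000, 0x200, 0x8000, 0x1100000000000000000000000000000000000000000000000000000000]] = true := by
  decide +kernel

theorem t7 : runX PT.R (Wk.frw PT.R) nl RvT (SMap.evl cT tlT PT.vx ringF) [
  .mk 68 13 21 [0x400, 0x800000, 0x200, 0x8000, 0xffffffffffffffffffffffffffffffffffffffffffffffe6ffffffffffffffffdfffffffffffffffffffffffffffffffffffffff],
  .mk 68 13 21 [0x400, 0x800000, 0x200, 0x8000, 0x2000000000000000000000000000000000000000, 0x1e800000000000000000000000000000000000000000000000000000000000000000000000000000000000000000000]] = true := by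
  decide +kernel

/-- The tasks. -/
noncomputable def P : List (List Tk) := [
[
  .mk 68 13 21 [0x400, 0x800000, 0x200, 0x1, 0x200000000000000000000, 0x200000000000000000000000000000000000000000000000000000000000000000000000000000000]],
[
  .mk 68 13 21 [0x400, 0x800000, 0x200, 0x1, 0x200000000000000000000, 0x400000000000000000000000000000000000000000000000000000000000000000000000000000000]],
[
  .mk 68 13 21 [0x400, 0x800000, 0x200, 0x1, 0x200000000000000000000, 0xfffffffffffffffffffffff8ff33ffff85ffffffffffffffffffffffffffffffffffffffffffffffffffffffffffffffffffffff],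
  .mk 68 13 21 [0x400, 0x800000, 0x200, 0x1, 0x40000000000000000000000000000000000, 0x1]],
[
  .mk 68 13 21 [0x400, 0x800000, 0x200, 0x1, 0x40000000000000000000000000000000000, 0x7fffe]],
[
  .mk 68 13 21 [0x400, 0x800000, 0x200, 0x10, 0x700001e800000000000000000000000000000000000000000000000000000000000]],
[
  .mk 68 13 21 [0x400, 0x800000, 0x200, 0x10, 0xffff8ffffe17fffffffffffffffffffffffffffffffffffffffffffffffffffffffffff]],
[
  .mk 68 13 21 [0x400, 0x800000, 0x200, 0x8000, 0x1100000000000000000000000000000000000000000000000000000000]],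
[
  .mk 68 13 21 [0x400, 0x800000, 0x200, 0x8000, 0xffffffffffffffffffffffffffffffffffffffffffffffe6ffffffffffffffffdfffffffffffffffffffffffffffffffffffffff],
  .mk 68 13 21 [0x400, 0x800000, 0x200, 0x8000, 0x2000000000000000000000000000000000000000, 0x1e800000000000000000000000000000000000000000000000000000000000000000000000000000000000000000000]]]

theorem run : RunAll (runX PT.R (Wk.frw PT.R) nl RvT (SMap.evl cT tlT PT.vx ringF)) P :=
  .cons t0 (.cons t1 (.cons t2 (.cons t3 (.cons t4 (.cons t5 (.cons t6 (.cons t7 (.nil))))))))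

end Pool.Agent.Lib.MP_5854e1_co.Cz.Sr551
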