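import Pool.Agent.Lib.MP_5854e1_co.Cz.P
import Pool.Agent.Lib.MP_5854e1_co.Tkx
import Pool.Agent.Lib.MP_5854e1_co.RunAll

/-!
# Search, part 186
-/

set_option autoImplicit false
set_option deprecated.oldSectionVars true
set_option maxRecDepth 100000

namespace Pool.Agent.Lib.MP_5854e1_co.Cz.Sr186

open PB

theorem t0 : runX PT.R (Wk.frw PT.R) nl RvT (SMap.evl cT tlT PT.vx ringF) [
  .mk 8 7 39 [0x10000, 0x1000, 0x2000000000000, 0x200, 0x43]] = true := by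
  decide +kernel

theorem t1 : runX PT.R (Wk.frw PT.R) nl RvT (SMap.evl cT tlT PT.vx ringF) [
  .mk 8 7 39 [0x10000, 0x1000, 0x2000000000000, 0x200, 0xffffffffffffffffffffffffffffffffffffffffffffffffffffffffffffffffffffffffffffffffffffffffffffffffffffffbc]] = true := by
  decide +kernel

theorem t2 : runX PT.R (Wk.frw PT.R) nl RvT (SMap.evl cT tlT PT.vx ringF) [
  .mk 8 7 39 [0x10000, 0x1000, 0x4000000000000, 0x8013]] = true := by
  decide +kernel

theorem t3 : runX PT.R (Wk.frw PT.R) nl RvT (SMap.evl cT tlT PT.vx ringF) [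
  .mk 8 7 39 [0x10000, 0x1000, 0x4000000000000, 0xfffff7fec],
  .mk 8 8 40 []] = true := by
  decide +kernel

theorem t4 : runX PT.R (Wk.frw PT.R) nl RvT (SMap.evl cT tlT PT.vx ringF) [
  .mk 8 9 41 [0x72]] = true := by
  decide +kernel

theorem t5 : runX PT.R (Wk.frw PT.R) nl RvT (SMap.evl cT tlT PT.vx ringF) [
  .mk 8 9 41 [0xe568000]] = true := by
  decide +kernel

/-- The tasks. -/
noncomputable def P : List (List Tk) := [
[
  .mk 8 7 39 [0x10000, 0x1000, 0x2000000000000, 0x200, 0x43]],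
[
  .mk 8 7 39 [0x10000, 0x1000, 0x2000000000000, 0x200, 0xffffffffffffffffffffffffffffffffffffffffffffffffffffffffffffffffffffffffffffffffffffffffffffffffffffffbc]],
[
  .mk 8 7 39 [0x10000, 0x1000, 0x4000000000000, 0x8013]],
[
  .mk 8 7 39 [0x10000, 0x1000, 0x4000000000000, 0xfffff7fec],
  .mk 8 8 40 []],
[
  .mk 8 9 41 [0x72]],
[
  .mk 8 9 41 [0xe568000]]]

theorem run : RunAll (runX PT.R (Wk.frw PT.R) nl RvT (SMap.evl cT tlT PT.vx ringF)) P :=
  .cons t0 (.cons t1 (.cons t2 (.cons t3 (.cons t4 (.cons t5 (.nil))))))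

end Pool.Agent.Lib.MP_5854e1_co.Cz.Sr186

namespace Pool.Agent.Lib.MP_5854e1_co.Cz.Sr204

open PB

theorem t0 : runX PT.R (Wk.frw PT.R) nl RvT (SMap.evl cT tlT PT.vx ringF) [
  .mk 8 13 48 [0xe00000]] = true := by
  decide +kernel

theorem t1 : runX PT.R (Wk.frw PT.R) nl RvT (SMap.evl cT tlT PT.vx ringF) [
  .mk 8 13 48 [0x7000000]] = true := by
  decide +kernel

theorem t2 : runX PT.R (Wk.frw PT.R) nl RvT (SMap.evl cT tlT PT.vx ringF) [
  .mk 8 13 48 [0x800585c]] = true := by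
  decide +kernel

theorem t3 : runX PT.R (Wk.frw PT.R) nl RvT (SMap.evl cT tlT PT.vx ringF) [
  .mk 8 14 49 [0xfffffcdf3],
  .mk 8 14 49 [0x4, 0x540b]] = true := by
  decide +kernel

theorem t4 : runX PT.R (Wk.frw PT.R) nl RvT (SMap.evl cT tlT PT.vx ringF) [
  .mk 8 14 49 [0x4, 0x18000]] = true := by
  decide +kernel

theorem t5 : runX PT.R (Wk.frw PT.R) nl RvT (SMap.evl cT tlT PT.vx ringF) [
  .mk 8 14 49 [0x4, 0x7e09f4]] = true := by
  decide +kernel

theorem t6 : runX PT.R (Wk.frw PT.R) nl RvT (SMap.evl cT tlT PT.vx ringF) [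
  .mk 8 14 49 [0x4, 0x200, 0xc08e08200000000000000028401]] = true := by
  decide +kernel

/-- The tasks. -/
noncomputable def P : List (List Tk) := [
[
  .mk 8 13 48 [0xe00000]],
[
  .mk 8 13 48 [0x7000000]],
[
  .mk 8 13 48 [0x800585c]],
[
  .mk 8 14 49 [0xfffffcdf3],
  .mk 8 14 49 [0x4, 0x540b]],
[
  .mk 8 14 49 [0x4, 0x18000]],
[
  .mk 8 14 49 [0x4, 0x7e09f4]],
[
  .mk 8 14 49 [0x4, 0x200, 0xc08e08200000000000000028401]]]

theorem run : RunAll (runX PT.R (Wk.frw PT.R) nl RvT (SMap.evl cT tlT PT.vx ringF)) P :=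
  .cons t0 (.cons t1 (.cons t2 (.cons t3 (.cons t4 (.cons t5 (.cons t6 (.nil)))))))

end Pool.Agent.Lib.MP_5854e1_co.Cz.Sr204

namespace Pool.Agent.Lib.MP_5854e1_co.Cz.Sr290

open PB

theorem t0 : runX PT.R (Wk.frw PT.R) nl RvT (SMap.evl cT tlT PT.vx ringF) [
  .mk 12 27 53 [0x800000, 0x4, 0x7e974],
  .mk 12 27 53 [0x800000, 0x8, 0x3000cf]] = true := by
  decide +kernel

theorem t1 : runX PT.R (Wk.frw PT.R) nl RvT (SMap.evl cT tlT PT.vx ringF) [
  .mk 12 27 53 [0x800000, 0x8, 0x3fcfff30]] = true := by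
  decide +kernel

theorem t2 : runX PT.R (Wk.frw PT.R) nl RvT (SMap.evl cT tlT PT.vx ringF) [
  .mk 12 27 53 [0x10000000, 0x7f9fff]] = true := by
  decide +kernel

theorem t3 : runX PT.R (Wk.frw PT.R) nl RvT (SMap.evl cT tlT PT.vx ringF) [
  .mk 12 27 53 [0x10000000, 0x2000, 0x3f]] = true := by
  decide +kernel

theorem t4 : runX PT.R (Wk.frw PT.R) nl RvT (SMap.evl cT tlT PT.vx ringF) [
  .mk 12 27 53 [0x10000000, 0x2000, 0xfffffffc0]] = true := by
  decide +kernel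

theorem t5 : runX PT.R (Wk.frw PT.R) nl RvT (SMap.evl cT tlT PT.vx ringF) [
  .mk 12 27 53 [0x10000000, 0x4000, 0x3fffffffffeff]] = true := by
  decide +kernel

/-- The tasks. -/
noncomputable def P : List (List Tk) := [
[
  .mk 12 27 53 [0x800000, 0x4, 0x7e974],
  .mk 12 27 53 [0x800000, 0x8, 0x3000cf]],
[
  .mk 12 27 53 [0x800000, 0x8, 0x3fcfff30]],
[
  .mk 12 27 53 [0x10000000, 0x7f9fff]],
[
  .mk 12 27 53 [0x10000000, 0x2000, 0x3f]],
[
  .mk 12 27 53 [0x10000000, 0x2000, 0xfffffffc0]],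
[
  .mk 12 27 53 [0x10000000, 0x4000, 0x3fffffffffeff]]]

theorem run : RunAll (runX PT.R (Wk.frw PT.R) nl RvT (SMap.evl cT tlT PT.vx ringF)) P :=
  .cons t0 (.cons t1 (.cons t2 (.cons t3 (.cons t4 (.cons t5 (.nil))))))

end Pool.Agent.Lib.MP_5854e1_co.Cz.Sr290
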