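import Pool.Agent.Lib.MP_5854e1_co.Cz.P
import Pool.Agent.Lib.MP_5854e1_co.Tkx
import Pool.Agent.Lib.MP_5854e1_co.RunAll

/-!
# Search, part 189
-/

set_option autoImplicit false
set_option deprecated.oldSectionVars true
set_option maxRecDepth 100000

namespace Pool.Agent.Lib.MP_5854e1_co.Cz.Sr189

open PB

theorem t0 : runX PT.R (Wk.frw PT.R) nl RvT (SMap.evl cT tlT PT.vx ringF) [
  .mk 8 9 41 [0x8, 0x3a7b3]] = true := by
  decide +kernel

theorem t1 : runX PT.R (Wk.frw PT.R) nl RvT (SMap.evl cT tlT PT.vx ringF) [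
  .mk 8 9 41 [0x8, 0x3640000]] = true := by
  decide +kernel

theorem t2 : runX PT.R (Wk.frw PT.R) nl RvT (SMap.evl cT tlT PT.vx ringF) [
  .mk 8 9 41 [0x8, 0x148000000]] = true := by
  decide +kernel

theorem t3 : runX PT.R (Wk.frw PT.R) nl RvT (SMap.evl cT tlT PT.vx ringF) [
  .mk 8 9 41 [0x8, 0x2b098584c]] = true := by
  decide +kernel

theorem t4 : runX PT.R (Wk.frw PT.R) nl RvT (SMap.evl cT tlT PT.vx ringF) [
  .mk 8 9 41 [0x8, 0x4000000, 0x398013]] = true := by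
  decide +kernel

/-- The tasks. -/
noncomputable def P : List (List Tk) := [
[
  .mk 8 9 41 [0x8, 0x3a7b3]],
[
  .mk 8 9 41 [0x8, 0x3640000]],
[
  .mk 8 9 41 [0x8, 0x148000000]],
[
  .mk 8 9 41 [0x8, 0x2b098584c]],
[
  .mk 8 9 41 [0x8, 0x4000000, 0x398013]]]

theorem run : RunAll (runX PT.R (Wk.frw PT.R) nl RvT (SMap.evl cT tlT PT.vx ringF)) P :=
  .cons t0 (.cons t1 (.cons t2 (.cons t3 (.cons t4 (.nil)))))

end Pool.Agent.Lib.MP_5854e1_co.Cz.Sr189

namespace Pool.Agent.Lib.MP_5854e1_co.Cz.Sr289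

open PB

theorem t0 : runX PT.R (Wk.frw PT.R) nl RvT (SMap.evl cT tlT PT.vx ringF) [
  .mk 12 26 52 [0x40000, 0x3fbd9ff90]] = true := by
  decide +kernel

theorem t1 : runX PT.R (Wk.frw PT.R) nl RvT (SMap.evl cT tlT PT.vx ringF) [
  .mk 12 26 52 [0x40000, 0x4000000, 0x3803f]] = true := by
  decide +kernel

theorem t2 : runX PT.R (Wk.frw PT.R) nl RvT (SMap.evl cT tlT PT.vx ringF) [
  .mk 12 26 52 [0x40000, 0x4000000, 0xffffc7fc0],
  .mk 12 27 53 [0x3ffffef7fffff]] = true := by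
  decide +kernel

theorem t3 : runX PT.R (Wk.frw PT.R) nl RvT (SMap.evl cT tlT PT.vx ringF) [
  .mk 12 27 53 [0x800000, 0x3020073]] = true := by
  decide +kernel

theorem t4 : runX PT.R (Wk.frw PT.R) nl RvT (SMap.evl cT tlT PT.vx ringF) [
  .mk 12 27 53 [0x800000, 0x3fcfdff80]] = true := by
  decide +kernel

theorem t5 : runX PT.R (Wk.frw PT.R) nl RvT (SMap.evl cT tlT PT.vx ringF) [
  .mk 12 27 53 [0x800000, 0x4, 0x168b]] = true := by
  decide +kernel

/-- The tasks. -/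
noncomputable def P : List (List Tk) := [
[
  .mk 12 26 52 [0x40000, 0x3fbd9ff90]],
[
  .mk 12 26 52 [0x40000, 0x4000000, 0x3803f]],
[
  .mk 12 26 52 [0x40000, 0x4000000, 0xffffc7fc0],
  .mk 12 27 53 [0x3ffffef7fffff]],
[
  .mk 12 27 53 [0x800000, 0x3020073]],
[
  .mk 12 27 53 [0x800000, 0x3fcfdff80]],
[
  .mk 12 27 53 [0x800000, 0x4, 0x168b]]]

theorem run : RunAll (runX PT.R (Wk.frw PT.R) nl RvT (SMap.evl cT tlT PT.vx ringF)) P :=
  .cons t0 (.cons t1 (.cons t2 (.cons t3 (.cons t4 (.cons t5 (.nil))))))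

end Pool.Agent.Lib.MP_5854e1_co.Cz.Sr289

namespace Pool.Agent.Lib.MP_5854e1_co.Cz.Sr353

open PB

theorem t0 : runX PT.R (Wk.frw PT.R) nl RvT (SMap.evl cT tlT PT.vx ringF) [
  .mk 39 16 35 [0x2000, 0x20000, 0x1e0000000000000000000000000000000000000000000000000000000000000000000000000000000000000000000000]] = true := by
  decide +kernel

theorem t1 : runX PT.R (Wk.frw PT.R) nl RvT (SMap.evl cT tlT PT.vx ringF) [
  .mk 39 16 35 [0x2000, 0x20000, 0xffffffffe1ffffffffffffffffffffffffffffffffffffffffff0fffffffffffdfffffffffffffffffffffffffffffffffffffff],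
  .mk 39 16 35 [0x2000, 0x8000000, 0xffffffffe]] = true := by
  decide +kernel

theorem t2 : runX PT.R (Wk.frw PT.R) nl RvT (SMap.evl cT tlT PT.vx ringF) [
  .mk 39 16 35 [0x2000, 0x8000000, 0x1, 0x100000000000200000000000000000000]] = true := by
  decide +kernel

theorem t3 : runX PT.R (Wk.frw PT.R) nl RvT (SMap.evl cT tlT PT.vx ringF) [
  .mk 39 16 35 [0x2000, 0x8000000, 0x1, 0xfffffffffffffffffffffffffffffffffffffffffffffffffffffffffffffffffffffffefffffffffffdffffffffffffffffffff],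
  .mk 39 17 36 [],
  .mk 39 18 37 []] = true := by
  decide +kernel

theorem t4 : runX PT.R (Wk.frw PT.R) nl RvT (SMap.evl cT tlT PT.vx ringF) [
  .mk 39 19 38 []] = true := by
  decide +kernel

/-- The tasks. -/
noncomputable def P : List (List Tk) := [
[
  .mk 39 16 35 [0x2000, 0x20000, 0x1e0000000000000000000000000000000000000000000000000000000000000000000000000000000000000000000000]],
[
  .mk 39 16 35 [0x2000, 0x20000, 0xffffffffe1ffffffffffffffffffffffffffffffffffffffffff0fffffffffffdfffffffffffffffffffffffffffffffffffffff],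
  .mk 39 16 35 [0x2000, 0x8000000, 0xffffffffe]],
[
  .mk 39 16 35 [0x2000, 0x8000000, 0x1, 0x100000000000200000000000000000000]],
[
  .mk 39 16 35 [0x2000, 0x8000000, 0x1, 0xfffffffffffffffffffffffffffffffffffffffffffffffffffffffffffffffffffffffefffffffffffdffffffffffffffffffff],
  .mk 39 17 36 [],
  .mk 39 18 37 []],
[
  .mk 39 19 38 []]]

theorem run : RunAll (runX PT.R (Wk.frw PT.R) nl RvT (SMap.evl cT tlT PT.vx ringF)) P :=
  .cons t0 (.cons t1 (.cons t2 (.cons t3 (.cons t4 (.nil)))))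

end Pool.Agent.Lib.MP_5854e1_co.Cz.Sr353
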