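import Pool.Agent.Lib.MP_5854e1_co.Cz.P
import Pool.Agent.Lib.MP_5854e1_co.Tkx
import Pool.Agent.Lib.MP_5854e1_co.RunAll

/-!
# Search, part 197
-/

set_option autoImplicit false
set_option deprecated.oldSectionVars true
set_option maxRecDepth 100000

namespace Pool.Agent.Lib.MP_5854e1_co.Cz.Sr197

open PB

theorem t0 : runX PT.R (Wk.frw PT.R) nl RvT (SMap.evl cT tlT PT.vx ringF) [
  .mk 8 10 42 [0x200000, 0x200, 0x1, 0x2000000000000000000000000000000000000000, 0x40000000000000000000000000000000000000000000000000000000000000000000000000000, 0x80000000000000000000000000000000000000000]] = true := by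
  decide +kernel

theorem t1 : runX PT.R (Wk.frw PT.R) nl RvT (SMap.evl cT tlT PT.vx ringF) [
  .mk 8 10 42 [0x200000, 0x200, 0x1, 0x2000000000000000000000000000000000000000, 0x40000000000000000000000000000000000000000000000000000000000000000000000000000, 0xfffffffffffffffffffffffffffffffffffffffffffffffffffffffffffffff79fffffffffffffff7f79ffffffffffffffff7bbc],
  .mk 8 10 42 [0x200000, 0x200, 0x1, 0x2000000000000000000000000000000000000000, 0x100000000000000000000000000000000000000000000000000000000000000000000000000000000, 0x8443]] = true := by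
  decide +kernel

theorem t2 : runX PT.R (Wk.frw PT.R) nl RvT (SMap.evl cT tlT PT.vx ringF) [
  .mk 8 10 42 [0x200000, 0x200, 0x1, 0x2000000000000000000000000000000000000000, 0x100000000000000000000000000000000000000000000000000000000000000000000000000000000, 0x200000000000000000000]] = true := by
  decide +kernel

/-- The tasks. -/
noncomputable def P : List (List Tk) := [
[
  .mk 8 10 42 [0x200000, 0x200, 0x1, 0x2000000000000000000000000000000000000000, 0x40000000000000000000000000000000000000000000000000000000000000000000000000000, 0x80000000000000000000000000000000000000000]],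
[
  .mk 8 10 42 [0x200000, 0x200, 0x1, 0x2000000000000000000000000000000000000000, 0x40000000000000000000000000000000000000000000000000000000000000000000000000000, 0xfffffffffffffffffffffffffffffffffffffffffffffffffffffffffffffff79fffffffffffffff7f79ffffffffffffffff7bbc],
  .mk 8 10 42 [0x200000, 0x200, 0x1, 0x2000000000000000000000000000000000000000, 0x100000000000000000000000000000000000000000000000000000000000000000000000000000000, 0x8443]],
[
  .mk 8 10 42 [0x200000, 0x200, 0x1, 0x2000000000000000000000000000000000000000, 0x100000000000000000000000000000000000000000000000000000000000000000000000000000000, 0x200000000000000000000]]]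

theorem run : RunAll (runX PT.R (Wk.frw PT.R) nl RvT (SMap.evl cT tlT PT.vx ringF)) P :=
  .cons t0 (.cons t1 (.cons t2 (.nil)))

end Pool.Agent.Lib.MP_5854e1_co.Cz.Sr197

namespace Pool.Agent.Lib.MP_5854e1_co.Cz.Sr280

open PB

theorem t0 : runX PT.R (Wk.frw PT.R) nl RvT (SMap.evl cT tlT PT.vx ringF) [
  .mk 12 19 26 []] = true := by
  decide +kernel

theorem t1 : runX PT.R (Wk.frw PT.R) nl RvT (SMap.evl cT tlT PT.vx ringF) [
  .mk 12 20 27 [0x1341801]] = true := by
  decide +kernel

theorem t2 : runX PT.R (Wk.frw PT.R) nl RvT (SMap.evl cT tlT PT.vx ringF) [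
  .mk 12 20 27 [0x3e0be7fe],
  .mk 12 20 27 [0x400000, 0x11731]] = true := by
  decide +kernel

theorem t3 : runX PT.R (Wk.frw PT.R) nl RvT (SMap.evl cT tlT PT.vx ringF) [
  .mk 12 20 27 [0x400000, 0x7e88ce]] = true := by
  decide +kernel

theorem t4 : runX PT.R (Wk.frw PT.R) nl RvT (SMap.evl cT tlT PT.vx ringF) [
  .mk 12 20 27 [0x400000, 0x2000, 0x3f]] = true := by
  decide +kernel

/-- The tasks. -/
noncomputable def P : List (List Tk) := [
[
  .mk 12 19 26 []],
[
  .mk 12 20 27 [0x1341801]],
[
  .mk 12 20 27 [0x3e0be7fe],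
  .mk 12 20 27 [0x400000, 0x11731]],
[
  .mk 12 20 27 [0x400000, 0x7e88ce]],
[
  .mk 12 20 27 [0x400000, 0x2000, 0x3f]]]

theorem run : RunAll (runX PT.R (Wk.frw PT.R) nl RvT (SMap.evl cT tlT PT.vx ringF)) P :=
  .cons t0 (.cons t1 (.cons t2 (.cons t3 (.cons t4 (.nil)))))

end Pool.Agent.Lib.MP_5854e1_co.Cz.Sr280

namespace Pool.Agent.Lib.MP_5854e1_co.Cz.Sr385

open PB

theorem t0 : runX PT.R (Wk.frw PT.R) nl RvT (SMap.evl cT tlT PT.vx ringF) [
  .mk 41 9 41 [0x1, 0xc07fe00000000200000000000000000000]] = true := by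
  decide +kernel

theorem t1 : runX PT.R (Wk.frw PT.R) nl RvT (SMap.evl cT tlT PT.vx ringF) [
  .mk 41 9 41 [0x1, 0xffffffffffffffffffffffffffffffffffffffffffffffffffffffffffffffffffffff3f801ffffffffdffffffffffffffffffff]] = true := by
  decide +kernel

theorem t2 : runX PT.R (Wk.frw PT.R) nl RvT (SMap.evl cT tlT PT.vx ringF) [
  .mk 41 9 41 [0x4, 0x4c8f]] = true := by
  decide +kernel

theorem t3 : runX PT.R (Wk.frw PT.R) nl RvT (SMap.evl cT tlT PT.vx ringF) [
  .mk 41 9 41 [0x4, 0x30000]] = true := by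
  decide +kernel

theorem t4 : runX PT.R (Wk.frw PT.R) nl RvT (SMap.evl cT tlT PT.vx ringF) [
  .mk 41 9 41 [0x4, 0xc0000]] = true := by
  decide +kernel

theorem t5 : runX PT.R (Wk.frw PT.R) nl RvT (SMap.evl cT tlT PT.vx ringF) [
  .mk 41 9 41 [0x4, 0x708170],
  .mk 41 9 41 [0x4, 0x200, 0x4808200000000000000000000000000000002a780143]] = true := by
  decide +kernel

/-- The tasks. -/
noncomputable def P : List (List Tk) := [
[
  .mk 41 9 41 [0x1, 0xc07fe00000000200000000000000000000]],
[
  .mk 41 9 41 [0x1, 0xffffffffffffffffffffffffffffffffffffffffffffffffffffffffffffffffffffff3f801ffffffffdffffffffffffffffffff]],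
[
  .mk 41 9 41 [0x4, 0x4c8f]],
[
  .mk 41 9 41 [0x4, 0x30000]],
[
  .mk 41 9 41 [0x4, 0xc0000]],
[
  .mk 41 9 41 [0x4, 0x708170],
  .mk 41 9 41 [0x4, 0x200, 0x4808200000000000000000000000000000002a780143]]]

theorem run : RunAll (runX PT.R (Wk.frw PT.R) nl RvT (SMap.evl cT tlT PT.vx ringF)) P :=
  .cons t0 (.cons t1 (.cons t2 (.cons t3 (.cons t4 (.cons t5 (.nil))))))

end Pool.Agent.Lib.MP_5854e1_co.Cz.Sr385
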