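import Pool.Agent.Lib.MP_5854e1_co.Cz.P
import Pool.Agent.Lib.MP_5854e1_co.Tkx
import Pool.Agent.Lib.MP_5854e1_co.RunAll

/-!
# Search, part 199
-/

set_option autoImplicit false
set_option deprecated.oldSectionVars true
set_option maxRecDepth 100000

namespace Pool.Agent.Lib.MP_5854e1_co.Cz.Sr199

open PB

theorem t0 : runX PT.R (Wk.frw PT.R) nl RvT (SMap.evl cT tlT PT.vx ringF) [
  .mk 8 10 42 [0x200000, 0x200, 0x8000, 0x400000000000000000000000000000000000, 0x8, 0xfffffffffffffffffffffffffffffffffffffffffffffffffffffffffffffffbffffffe],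
  .mk 8 10 42 [0x200000, 0x400, 0x3c00040000]] = true := by
  decide +kernel

theorem t1 : runX PT.R (Wk.frw PT.R) nl RvT (SMap.evl cT tlT PT.vx ringF) [
  .mk 8 10 42 [0x200000, 0x400, 0x3ffc3fffbffff]] = true := by
  decide +kernel

theorem t2 : runX PT.R (Wk.frw PT.R) nl RvT (SMap.evl cT tlT PT.vx ringF) [
  .mk 8 10 42 [0x200000, 0x10000, 0x393]] = true := by
  decide +kernel

theorem t3 : runX PT.R (Wk.frw PT.R) nl RvT (SMap.evl cT tlT PT.vx ringF) [
  .mk 8 10 42 [0x200000, 0x10000, 0xffffffc6c]] = true := by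
  decide +kernel

theorem t4 : runX PT.R (Wk.frw PT.R) nl RvT (SMap.evl cT tlT PT.vx ringF) [
  .mk 8 10 42 [0x4000000, 0x105bf]] = true := by
  decide +kernel

theorem t5 : runX PT.R (Wk.frw PT.R) nl RvT (SMap.evl cT tlT PT.vx ringF) [
  .mk 8 10 42 [0x4000000, 0x7ee040]] = true := by
  decide +kernel

/-- The tasks. -/
noncomputable def P : List (List Tk) := [
[
  .mk 8 10 42 [0x200000, 0x200, 0x8000, 0x400000000000000000000000000000000000, 0x8, 0xfffffffffffffffffffffffffffffffffffffffffffffffffffffffffffffffbffffffe],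
  .mk 8 10 42 [0x200000, 0x400, 0x3c00040000]],
[
  .mk 8 10 42 [0x200000, 0x400, 0x3ffc3fffbffff]],
[
  .mk 8 10 42 [0x200000, 0x10000, 0x393]],
[
  .mk 8 10 42 [0x200000, 0x10000, 0xffffffc6c]],
[
  .mk 8 10 42 [0x4000000, 0x105bf]],
[
  .mk 8 10 42 [0x4000000, 0x7ee040]]]

theorem run : RunAll (runX PT.R (Wk.frw PT.R) nl RvT (SMap.evl cT tlT PT.vx ringF)) P :=
  .cons t0 (.cons t1 (.cons t2 (.cons t3 (.cons t4 (.cons t5 (.nil))))))

end Pool.Agent.Lib.MP_5854e1_co.Cz.Sr199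

namespace Pool.Agent.Lib.MP_5854e1_co.Cz.Sr470

open PB

theorem t0 : runX PT.R (Wk.frw PT.R) nl RvT (SMap.evl cT tlT PT.vx ringF) [
  .mk 46 11 52 [0xfffffa02c]] = true := by
  decide +kernel

theorem t1 : runX PT.R (Wk.frw PT.R) nl RvT (SMap.evl cT tlT PT.vx ringF) [
  .mk 46 11 52 [0x200, 0x98013]] = true := by
  decide +kernel

theorem t2 : runX PT.R (Wk.frw PT.R) nl RvT (SMap.evl cT tlT PT.vx ringF) [
  .mk 46 11 52 [0x200, 0xffff67fec]] = true := by
  decide +kernel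

theorem t3 : runX PT.R (Wk.frw PT.R) nl RvT (SMap.evl cT tlT PT.vx ringF) [
  .mk 46 11 52 [0x1000, 0x3e000200000]] = true := by
  decide +kernel

theorem t4 : runX PT.R (Wk.frw PT.R) nl RvT (SMap.evl cT tlT PT.vx ringF) [
  .mk 46 11 52 [0x1000, 0x7ffc1fffdfffff],
  .mk 46 12 53 [],
  .mk 46 13 54 []] = true := by
  decide +kernel

theorem t5 : runX PT.R (Wk.frw PT.R) nl RvT (SMap.evl cT tlT PT.vx ringF) [
  .mk 46 14 55 [],
  .mk 46 15 56 [],
  .mk 46 16 57 [],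
  .mk 46 17 58 [],
  .mk 46 18 59 [],
  .mk 46 19 60 []] = true := by
  decide +kernel

theorem t6 : runX PT.R (Wk.frw PT.R) nl RvT (SMap.evl cT tlT PT.vx ringF) [
  .mk 46 20 0 [0x600000000200000000000000000000]] = true := by
  decide +kernel

/-- The tasks. -/
noncomputable def P : List (List Tk) := [
[
  .mk 46 11 52 [0xfffffa02c]],
[
  .mk 46 11 52 [0x200, 0x98013]],
[
  .mk 46 11 52 [0x200, 0xffff67fec]],
[
  .mk 46 11 52 [0x1000, 0x3e000200000]],
[
  .mk 46 11 52 [0x1000, 0x7ffc1fffdfffff],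
  .mk 46 12 53 [],
  .mk 46 13 54 []],
[
  .mk 46 14 55 [],
  .mk 46 15 56 [],
  .mk 46 16 57 [],
  .mk 46 17 58 [],
  .mk 46 18 59 [],
  .mk 46 19 60 []],
[
  .mk 46 20 0 [0x600000000200000000000000000000]]]

theorem run : RunAll (runX PT.R (Wk.frw PT.R) nl RvT (SMap.evl cT tlT PT.vx ringF)) P :=
  .cons t0 (.cons t1 (.cons t2 (.cons t3 (.cons t4 (.cons t5 (.cons t6 (.nil)))))))

end Pool.Agent.Lib.MP_5854e1_co.Cz.Sr470
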