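import Pool.Agent.Lib.MP_5854e1_co.Cz.P
import Pool.Agent.Lib.MP_5854e1_co.Tkx
import Pool.Agent.Lib.MP_5854e1_co.RunAll

/-!
# Search, part 200
-/

set_option autoImplicit false
set_option deprecated.oldSectionVars true
set_option maxRecDepth 100000

namespace Pool.Agent.Lib.MP_5854e1_co.Cz.Sr200

open PB

theorem t0 : runX PT.R (Wk.frw PT.R) nl RvT (SMap.evl cT tlT PT.vx ringF) [
  .mk 8 10 42 [0x4000000, 0x200, 0x3d80273]] = true := by
  decide +kernel

theorem t1 : runX PT.R (Wk.frw PT.R) nl RvT (SMap.evl cT tlT PT.vx ringF) [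
  .mk 8 10 42 [0x4000000, 0x200, 0xfffffffffffffffffffffffffffffffffffffffffffffffffffffffffffffffffffffffffffffffffffffffffffffffffc07fd8c]] = true := by
  decide +kernel

theorem t2 : runX PT.R (Wk.frw PT.R) nl RvT (SMap.evl cT tlT PT.vx ringF) [
  .mk 8 10 42 [0x4000000, 0x200, 0x200000, 0x193]] = true := by
  decide +kernel

theorem t3 : runX PT.R (Wk.frw PT.R) nl RvT (SMap.evl cT tlT PT.vx ringF) [
  .mk 8 10 42 [0x4000000, 0x200, 0x200000, 0xe00]] = true := by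
  decide +kernel

theorem t4 : runX PT.R (Wk.frw PT.R) nl RvT (SMap.evl cT tlT PT.vx ringF) [
  .mk 8 10 42 [0x4000000, 0x200, 0x200000, 0xffffff06c]] = true := by
  decide +kernel

theorem t5 : runX PT.R (Wk.frw PT.R) nl RvT (SMap.evl cT tlT PT.vx ringF) [
  .mk 8 10 42 [0x4000000, 0x800, 0x13]] = true := by
  decide +kernel

/-- The tasks. -/
noncomputable def P : List (List Tk) := [
[
  .mk 8 10 42 [0x4000000, 0x200, 0x3d80273]],
[
  .mk 8 10 42 [0x4000000, 0x200, 0xfffffffffffffffffffffffffffffffffffffffffffffffffffffffffffffffffffffffffffffffffffffffffffffffffc07fd8c]],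
[
  .mk 8 10 42 [0x4000000, 0x200, 0x200000, 0x193]],
[
  .mk 8 10 42 [0x4000000, 0x200, 0x200000, 0xe00]],
[
  .mk 8 10 42 [0x4000000, 0x200, 0x200000, 0xffffff06c]],
[
  .mk 8 10 42 [0x4000000, 0x800, 0x13]]]

theorem run : RunAll (runX PT.R (Wk.frw PT.R) nl RvT (SMap.evl cT tlT PT.vx ringF)) P :=
  .cons t0 (.cons t1 (.cons t2 (.cons t3 (.cons t4 (.cons t5 (.nil))))))

end Pool.Agent.Lib.MP_5854e1_co.Cz.Sr200

namespace Pool.Agent.Lib.MP_5854e1_co.Cz.Sr321

open PB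

theorem t0 : runX PT.R (Wk.frw PT.R) nl RvT (SMap.evl cT tlT PT.vx ringF) [
  .mk 15 266 7 [0x80000]] = true := by
  decide +kernel

theorem t1 : runX PT.R (Wk.frw PT.R) nl RvT (SMap.evl cT tlT PT.vx ringF) [
  .mk 15 266 7 [0xffffffffffffffffffffffffffffffffffffffffffffffffffffffffffffffffff52fd7],
  .mk 15 267 15 [],
  .mk 15 268 20 [],
  .mk 15 269 28 []] = true := by
  decide +kernel

theorem t2 : runX PT.R (Wk.frw PT.R) nl RvT (SMap.evl cT tlT PT.vx ringF) [
  .mk 15 270 0 [0x41000000000000000000500000000]] = true := by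
  decide +kernel

theorem t3 : runX PT.R (Wk.frw PT.R) nl RvT (SMap.evl cT tlT PT.vx ringF) [
  .mk 15 270 0 [0xfffffffffffffffffffffffffffffffffffffffffffffffffffffffffffffffffffffffffffbeffffffffffffffffffaffffffff],
  .mk 15 271 1 []] = true := by
  decide +kernel

theorem t4 : runX PT.R (Wk.frw PT.R) nl RvT (SMap.evl cT tlT PT.vx ringF) [
  .mk 15 272 2 [0xdfc3]] = true := by
  decide +kernel

theorem t5 : runX PT.R (Wk.frw PT.R) nl RvT (SMap.evl cT tlT PT.vx ringF) [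
  .mk 15 272 2 [0xfffff203c],
  .mk 15 273 7 [0xfffffffffffffffffffffffffffffffffffffffffffffffffffffffffffffffff7fffff]] = true := by
  decide +kernel

theorem t6 : runX PT.R (Wk.frw PT.R) nl RvT (SMap.evl cT tlT PT.vx ringF) [
  .mk 15 273 7 [0x800000, 0x3fef]] = true := by
  decide +kernel

/-- The tasks. -/
noncomputable def P : List (List Tk) := [
[
  .mk 15 266 7 [0x80000]],
[
  .mk 15 266 7 [0xffffffffffffffffffffffffffffffffffffffffffffffffffffffffffffffffff52fd7],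
  .mk 15 267 15 [],
  .mk 15 268 20 [],
  .mk 15 269 28 []],
[
  .mk 15 270 0 [0x41000000000000000000500000000]],
[
  .mk 15 270 0 [0xfffffffffffffffffffffffffffffffffffffffffffffffffffffffffffffffffffffffffffbeffffffffffffffffffaffffffff],
  .mk 15 271 1 []],
[
  .mk 15 272 2 [0xdfc3]],
[
  .mk 15 272 2 [0xfffff203c],
  .mk 15 273 7 [0xfffffffffffffffffffffffffffffffffffffffffffffffffffffffffffffffff7fffff]],
[
  .mk 15 273 7 [0x800000, 0x3fef]]]

theorem run : RunAll (runX PT.R (Wk.frw PT.R) nl RvT (SMap.evl cT tlT PT.vx ringF)) P :=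
  .cons t0 (.cons t1 (.cons t2 (.cons t3 (.cons t4 (.cons t5 (.cons t6 (.nil)))))))

end Pool.Agent.Lib.MP_5854e1_co.Cz.Sr321

namespace Pool.Agent.Lib.MP_5854e1_co.Cz.Sr587

open PB

theorem t0 : runX PT.R (Wk.frw PT.R) nl RvT (SMap.evl cT tlT PT.vx ringF) [
  .mk 86 5 22 [0x7b05b26001]] = true := by
  decide +kernel

theorem t1 : runX PT.R (Wk.frw PT.R) nl RvT (SMap.evl cT tlT PT.vx ringF) [
  .mk 86 5 22 [0x3ff84fa4d9ffe],
  .mk 86 6 23 [0x1ff]] = true := by
  decide +kernel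

theorem t2 : runX PT.R (Wk.frw PT.R) nl RvT (SMap.evl cT tlT PT.vx ringF) [
  .mk 86 6 23 [0x700000]] = true := by
  decide +kernel

theorem t3 : runX PT.R (Wk.frw PT.R) nl RvT (SMap.evl cT tlT PT.vx ringF) [
  .mk 86 6 23 [0x800000]] = true := by
  decide +kernel

theorem t4 : runX PT.R (Wk.frw PT.R) nl RvT (SMap.evl cT tlT PT.vx ringF) [
  .mk 86 6 23 [0x70ffe00],
  .mk 86 7 28 []] = true := by
  decide +kernel

theorem t5 : runX PT.R (Wk.frw PT.R) nl RvT (SMap.evl cT tlT PT.vx ringF) [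
  .mk 86 8 29 []] = true := by
  decide +kernel

/-- The tasks. -/
noncomputable def P : List (List Tk) := [
[
  .mk 86 5 22 [0x7b05b26001]],
[
  .mk 86 5 22 [0x3ff84fa4d9ffe],
  .mk 86 6 23 [0x1ff]],
[
  .mk 86 6 23 [0x700000]],
[
  .mk 86 6 23 [0x800000]],
[
  .mk 86 6 23 [0x70ffe00],
  .mk 86 7 28 []],
[
  .mk 86 8 29 []]]

theorem run : RunAll (runX PT.R (Wk.frw PT.R) nl RvT (SMap.evl cT tlT PT.vx ringF)) P :=
  .cons t0 (.cons t1 (.cons t2 (.cons t3 (.cons t4 (.cons t5 (.nil))))))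

end Pool.Agent.Lib.MP_5854e1_co.Cz.Sr587
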