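import Pool.Agent.Lib.MP_5854e1_co.Cz.P
import Pool.Agent.Lib.MP_5854e1_co.Tkx
import Pool.Agent.Lib.MP_5854e1_co.RunAll

/-!
# Search, part 201
-/

set_option autoImplicit false
set_option deprecated.oldSectionVars true
set_option maxRecDepth 100000

namespace Pool.Agent.Lib.MP_5854e1_co.Cz.Sr201

open PB

theorem t0 : runX PT.R (Wk.frw PT.R) nl RvT (SMap.evl cT tlT PT.vx ringF) [
  .mk 8 10 42 [0x4000000, 0x800, 0xd80]] = true := by
  decide +kernel

theorem t1 : runX PT.R (Wk.frw PT.R) nl RvT (SMap.evl cT tlT PT.vx ringF) [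
  .mk 8 10 42 [0x4000000, 0x800, 0xffffff06c],
  .mk 8 10 42 [0x4000000, 0x800, 0x200, 0x13]] = true := by
  decide +kernel

theorem t2 : runX PT.R (Wk.frw PT.R) nl RvT (SMap.evl cT tlT PT.vx ringF) [
  .mk 8 10 42 [0x4000000, 0x800, 0x200, 0x8000]] = true := by
  decide +kernel

theorem t3 : runX PT.R (Wk.frw PT.R) nl RvT (SMap.evl cT tlT PT.vx ringF) [
  .mk 8 10 42 [0x4000000, 0x800, 0x200, 0xfffff7fec],
  .mk 8 10 42 [0x4000000, 0x1000, 0x1ff000000000]] = true := by
  decide +kernel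

theorem t4 : runX PT.R (Wk.frw PT.R) nl RvT (SMap.evl cT tlT PT.vx ringF) [
  .mk 8 10 42 [0x4000000, 0x1000, 0x200000000000]] = true := by
  decide +kernel

theorem t5 : runX PT.R (Wk.frw PT.R) nl RvT (SMap.evl cT tlT PT.vx ringF) [
  .mk 8 10 42 [0x4000000, 0x1000, 0xfffffffffffffffffffffffffffffffffffffffffffffffffffffffffffc00ffffffffe]] = true := by
  decide +kernel

/-- The tasks. -/
noncomputable def P : List (List Tk) := [
[
  .mk 8 10 42 [0x4000000, 0x800, 0xd80]],
[
  .mk 8 10 42 [0x4000000, 0x800, 0xffffff06c],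
  .mk 8 10 42 [0x4000000, 0x800, 0x200, 0x13]],
[
  .mk 8 10 42 [0x4000000, 0x800, 0x200, 0x8000]],
[
  .mk 8 10 42 [0x4000000, 0x800, 0x200, 0xfffff7fec],
  .mk 8 10 42 [0x4000000, 0x1000, 0x1ff000000000]],
[
  .mk 8 10 42 [0x4000000, 0x1000, 0x200000000000]],
[
  .mk 8 10 42 [0x4000000, 0x1000, 0xfffffffffffffffffffffffffffffffffffffffffffffffffffffffffffc00ffffffffe]]]

theorem run : RunAll (runX PT.R (Wk.frw PT.R) nl RvT (SMap.evl cT tlT PT.vx ringF)) P :=
  .cons t0 (.cons t1 (.cons t2 (.cons t3 (.cons t4 (.cons t5 (.nil))))))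

end Pool.Agent.Lib.MP_5854e1_co.Cz.Sr201

namespace Pool.Agent.Lib.MP_5854e1_co.Cz.Sr493

open PB

theorem t0 : runX PT.R (Wk.frw PT.R) nl RvT (SMap.evl cT tlT PT.vx ringF) [
  .mk 48 27 60 [0x200, 0x218053]] = true := by
  decide +kernel

theorem t1 : runX PT.R (Wk.frw PT.R) nl RvT (SMap.evl cT tlT PT.vx ringF) [
  .mk 48 27 60 [0x200, 0xe000000]] = true := by
  decide +kernel

theorem t2 : runX PT.R (Wk.frw PT.R) nl RvT (SMap.evl cT tlT PT.vx ringF) [
  .mk 48 27 60 [0x200, 0xff1de7fac]] = true := by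
  decide +kernel

theorem t3 : runX PT.R (Wk.frw PT.R) nl RvT (SMap.evl cT tlT PT.vx ringF) [
  .mk 48 27 60 [0x400, 0x3e7fffffbffff]] = true := by
  decide +kernel

theorem t4 : runX PT.R (Wk.frw PT.R) nl RvT (SMap.evl cT tlT PT.vx ringF) [
  .mk 48 27 60 [0x400, 0x40000, 0x81f000000000000000000000000000000000000000000000000000000000000000000000000000000000000000000000]] = true := by
  decide +kernel

theorem t5 : runX PT.R (Wk.frw PT.R) nl RvT (SMap.evl cT tlT PT.vx ringF) [
  .mk 48 27 60 [0x400, 0x40000, 0x1000000000000000000000000000000000000000000000000000000000000000000000000000000000000000000000000]] = true := by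
  decide +kernel

/-- The tasks. -/
noncomputable def P : List (List Tk) := [
[
  .mk 48 27 60 [0x200, 0x218053]],
[
  .mk 48 27 60 [0x200, 0xe000000]],
[
  .mk 48 27 60 [0x200, 0xff1de7fac]],
[
  .mk 48 27 60 [0x400, 0x3e7fffffbffff]],
[
  .mk 48 27 60 [0x400, 0x40000, 0x81f000000000000000000000000000000000000000000000000000000000000000000000000000000000000000000000]],
[
  .mk 48 27 60 [0x400, 0x40000, 0x1000000000000000000000000000000000000000000000000000000000000000000000000000000000000000000000000]]]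

theorem run : RunAll (runX PT.R (Wk.frw PT.R) nl RvT (SMap.evl cT tlT PT.vx ringF)) P :=
  .cons t0 (.cons t1 (.cons t2 (.cons t3 (.cons t4 (.cons t5 (.nil))))))

end Pool.Agent.Lib.MP_5854e1_co.Cz.Sr493
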