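import Pool.Agent.Lib.MP_5854e1_co.Cz.P
import Pool.Agent.Lib.MP_5854e1_co.Tkx
import Pool.Agent.Lib.MP_5854e1_co.RunAll

/-!
# Search, part 214
-/

set_option autoImplicit false
set_option deprecated.oldSectionVars true
set_option maxRecDepth 100000

namespace Pool.Agent.Lib.MP_5854e1_co.Cz.Sr214

open PB

theorem t0 : runX PT.R (Wk.frw PT.R) nl RvT (SMap.evl cT tlT PT.vx ringF) [
  .mk 8 35 60 [],
  .mk 9 0 0 []] = true := by
  decide +kernel

theorem t1 : runX PT.R (Wk.frw PT.R) nl RvT (SMap.evl cT tlT PT.vx ringF) [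
  .mk 9 1 61 [],
  .mk 9 2 62 []] = true := by
  decide +kernel

theorem t2 : runX PT.R (Wk.frw PT.R) nl RvT (SMap.evl cT tlT PT.vx ringF) [
  .mk 9 3 63 [0x63]] = true := by
  decide +kernel

theorem t3 : runX PT.R (Wk.frw PT.R) nl RvT (SMap.evl cT tlT PT.vx ringF) [
  .mk 9 3 63 [0x2d80]] = true := by
  decide +kernel

theorem t4 : runX PT.R (Wk.frw PT.R) nl RvT (SMap.evl cT tlT PT.vx ringF) [
  .mk 9 3 63 [0x3ffff8010]] = true := by
  decide +kernel

/-- The tasks. -/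
noncomputable def P : List (List Tk) := [
[
  .mk 8 35 60 [],
  .mk 9 0 0 []],
[
  .mk 9 1 61 [],
  .mk 9 2 62 []],
[
  .mk 9 3 63 [0x63]],
[
  .mk 9 3 63 [0x2d80]],
[
  .mk 9 3 63 [0x3ffff8010]]]

theorem run : RunAll (runX PT.R (Wk.frw PT.R) nl RvT (SMap.evl cT tlT PT.vx ringF)) P :=
  .cons t0 (.cons t1 (.cons t2 (.cons t3 (.cons t4 (.nil)))))

end Pool.Agent.Lib.MP_5854e1_co.Cz.Sr214

namespace Pool.Agent.Lib.MP_5854e1_co.Cz.Sr468

open PB

theorem t0 : runX PT.R (Wk.frw PT.R) nl RvT (SMap.evl cT tlT PT.vx ringF) [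
  .mk 45 21 63 [0x4000, 0x7cfff30]] = true := by
  decide +kernel

theorem t1 : runX PT.R (Wk.frw PT.R) nl RvT (SMap.evl cT tlT PT.vx ringF) [
  .mk 45 21 63 [0x4000, 0x100000, 0x3fe000000002000000000000000000000000000000000000000]] = true := by
  decide +kernel

theorem t2 : runX PT.R (Wk.frw PT.R) nl RvT (SMap.evl cT tlT PT.vx ringF) [
  .mk 45 21 63 [0x4000, 0x100000, 0xfffffffffffffffffffffffffffffffffffffffffffffffffffffc01ffffffffdfffffffffffffffffffffffffffffffffffffff]] = true := by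
  decide +kernel

theorem t3 : runX PT.R (Wk.frw PT.R) nl RvT (SMap.evl cT tlT PT.vx ringF) [
  .mk 45 21 63 [0x8000, 0xfe000200000]] = true := by
  decide +kernel

theorem t4 : runX PT.R (Wk.frw PT.R) nl RvT (SMap.evl cT tlT PT.vx ringF) [
  .mk 45 21 63 [0x8000, 0x7ff01fffdfffff],
  .mk 45 21 63 [0x10000, 0xffffffbff],
  .mk 45 21 63 [0x10000, 0x400, 0x3fc0000]] = true := by
  decide +kernel

theorem t5 : runX PT.R (Wk.frw PT.R) nl RvT (SMap.evl cT tlT PT.vx ringF) [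
  .mk 45 21 63 [0x10000, 0x400, 0x3fffffc03ffff],
  .mk 45 22 64 [],
  .mk 45 23 65 [],
  .mk 45 24 66 [],
  .mk 45 25 67 []] = true := by
  decide +kernel

/-- The tasks. -/
noncomputable def P : List (List Tk) := [
[
  .mk 45 21 63 [0x4000, 0x7cfff30]],
[
  .mk 45 21 63 [0x4000, 0x100000, 0x3fe000000002000000000000000000000000000000000000000]],
[
  .mk 45 21 63 [0x4000, 0x100000, 0xfffffffffffffffffffffffffffffffffffffffffffffffffffffc01ffffffffdfffffffffffffffffffffffffffffffffffffff]],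
[
  .mk 45 21 63 [0x8000, 0xfe000200000]],
[
  .mk 45 21 63 [0x8000, 0x7ff01fffdfffff],
  .mk 45 21 63 [0x10000, 0xffffffbff],
  .mk 45 21 63 [0x10000, 0x400, 0x3fc0000]],
[
  .mk 45 21 63 [0x10000, 0x400, 0x3fffffc03ffff],
  .mk 45 22 64 [],
  .mk 45 23 65 [],
  .mk 45 24 66 [],
  .mk 45 25 67 []]]

theorem run : RunAll (runX PT.R (Wk.frw PT.R) nl RvT (SMap.evl cT tlT PT.vx ringF)) P :=
  .cons t0 (.cons t1 (.cons t2 (.cons t3 (.cons t4 (.cons t5 (.nil))))))

end Pool.Agent.Lib.MP_5854e1_co.Cz.Sr468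

namespace Pool.Agent.Lib.MP_5854e1_co.Cz.Sr557

open PB

theorem t0 : runX PT.R (Wk.frw PT.R) nl RvT (SMap.evl cT tlT PT.vx ringF) [
  .mk 68 14 22 [0x400, 0x200, 0x1c0080820000000000000006a001]] = true := by
  decide +kernel

theorem t1 : runX PT.R (Wk.frw PT.R) nl RvT (SMap.evl cT tlT PT.vx ringF) [
  .mk 68 14 22 [0x400, 0x200, 0xffffffffffffffffffffffffffffffffffffffffffffffffffffffffffffffffffffffffffffe3ff7f7dfffffffffffffff95ffe]] = true := by
  decide +kernel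

theorem t2 : runX PT.R (Wk.frw PT.R) nl RvT (SMap.evl cT tlT PT.vx ringF) [
  .mk 68 14 22 [0x400, 0x2000, 0x30032]] = true := by
  decide +kernel

theorem t3 : runX PT.R (Wk.frw PT.R) nl RvT (SMap.evl cT tlT PT.vx ringF) [
  .mk 68 14 22 [0x400, 0x2000, 0x240000]] = true := by
  decide +kernel

theorem t4 : runX PT.R (Wk.frw PT.R) nl RvT (SMap.evl cT tlT PT.vx ringF) [
  .mk 68 14 22 [0x400, 0x2000, 0xfffd87fc0]] = true := by
  decide +kernel

theorem t5 : runX PT.R (Wk.frw PT.R) nl RvT (SMap.evl cT tlT PT.vx ringF) [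
  .mk 68 14 22 [0x400, 0x2000, 0x1, 0xffffffffffffffffffffffffffffffffffffffffffffffffffffffffffffffffffffffffff7fffffffffffffffffffffffffffff]] = true := by
  decide +kernel

theorem t6 : runX PT.R (Wk.frw PT.R) nl RvT (SMap.evl cT tlT PT.vx ringF) [
  .mk 68 14 22 [0x400, 0x2000, 0x1, 0x800000000000000000000000000000, 0x260013]] = true := by
  decide +kernel

/-- The tasks. -/
noncomputable def P : List (List Tk) := [
[
  .mk 68 14 22 [0x400, 0x200, 0x1c0080820000000000000006a001]],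
[
  .mk 68 14 22 [0x400, 0x200, 0xffffffffffffffffffffffffffffffffffffffffffffffffffffffffffffffffffffffffffffe3ff7f7dfffffffffffffff95ffe]],
[
  .mk 68 14 22 [0x400, 0x2000, 0x30032]],
[
  .mk 68 14 22 [0x400, 0x2000, 0x240000]],
[
  .mk 68 14 22 [0x400, 0x2000, 0xfffd87fc0]],
[
  .mk 68 14 22 [0x400, 0x2000, 0x1, 0xffffffffffffffffffffffffffffffffffffffffffffffffffffffffffffffffffffffffff7fffffffffffffffffffffffffffff]],
[
  .mk 68 14 22 [0x400, 0x2000, 0x1, 0x800000000000000000000000000000, 0x260013]]]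

theorem run : RunAll (runX PT.R (Wk.frw PT.R) nl RvT (SMap.evl cT tlT PT.vx ringF)) P :=
  .cons t0 (.cons t1 (.cons t2 (.cons t3 (.cons t4 (.cons t5 (.cons t6 (.nil)))))))

end Pool.Agent.Lib.MP_5854e1_co.Cz.Sr557
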