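import Pool.Agent.Lib.MP_5854e1_co.Cz.P
import Pool.Agent.Lib.MP_5854e1_co.Tkx
import Pool.Agent.Lib.MP_5854e1_co.RunAll

/-!
# Search, part 217
-/

set_option autoImplicit false
set_option deprecated.oldSectionVars true
set_option maxRecDepth 100000

namespace Pool.Agent.Lib.MP_5854e1_co.Cz.Sr217

open PB

theorem t0 : runX PT.R (Wk.frw PT.R) nl RvT (SMap.evl cT tlT PT.vx ringF) [
  .mk 9 7 67 [],
  .mk 9 8 68 [0x7f85ff]] = true := by
  decide +kernel

theorem t1 : runX PT.R (Wk.frw PT.R) nl RvT (SMap.evl cT tlT PT.vx ringF) [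
  .mk 9 8 68 [0x200, 0x13c000002000000000000000000000000000000020200100]] = true := by
  decide +kernel

theorem t2 : runX PT.R (Wk.frw PT.R) nl RvT (SMap.evl cT tlT PT.vx ringF) [
  .mk 9 8 68 [0x200, 0xffffffffffffffffffffffffffffffffffffffffffffffffffffffffec3fffffdfffffffffffffffffffffffffffffffdfdffeff]] = true := by
  decide +kernel

theorem t3 : runX PT.R (Wk.frw PT.R) nl RvT (SMap.evl cT tlT PT.vx ringF) [
  .mk 9 8 68 [0x800, 0x393]] = true := by
  decide +kernel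

theorem t4 : runX PT.R (Wk.frw PT.R) nl RvT (SMap.evl cT tlT PT.vx ringF) [
  .mk 9 8 68 [0x800, 0xffffffc6c]] = true := by
  decide +kernel

theorem t5 : runX PT.R (Wk.frw PT.R) nl RvT (SMap.evl cT tlT PT.vx ringF) [
  .mk 9 8 68 [0x1000, 0x1f00000000000000000000000000000009775f00000001]] = true := by
  decide +kernel

theorem t6 : runX PT.R (Wk.frw PT.R) nl RvT (SMap.evl cT tlT PT.vx ringF) [
  .mk 9 8 68 [0x1000, 0xfffffffffffffffffffffffffe0fffffffffffffffffffffffffffffff688a0fffffffe]] = true := by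
  decide +kernel

/-- The tasks. -/
noncomputable def P : List (List Tk) := [
[
  .mk 9 7 67 [],
  .mk 9 8 68 [0x7f85ff]],
[
  .mk 9 8 68 [0x200, 0x13c000002000000000000000000000000000000020200100]],
[
  .mk 9 8 68 [0x200, 0xffffffffffffffffffffffffffffffffffffffffffffffffffffffffec3fffffdfffffffffffffffffffffffffffffffdfdffeff]],
[
  .mk 9 8 68 [0x800, 0x393]],
[
  .mk 9 8 68 [0x800, 0xffffffc6c]],
[
  .mk 9 8 68 [0x1000, 0x1f00000000000000000000000000000009775f00000001]],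
[
  .mk 9 8 68 [0x1000, 0xfffffffffffffffffffffffffe0fffffffffffffffffffffffffffffff688a0fffffffe]]]

theorem run : RunAll (runX PT.R (Wk.frw PT.R) nl RvT (SMap.evl cT tlT PT.vx ringF)) P :=
  .cons t0 (.cons t1 (.cons t2 (.cons t3 (.cons t4 (.cons t5 (.cons t6 (.nil)))))))

end Pool.Agent.Lib.MP_5854e1_co.Cz.Sr217

namespace Pool.Agent.Lib.MP_5854e1_co.Cz.Sr271

open PB

theorem t0 : runX PT.R (Wk.frw PT.R) nl RvT (SMap.evl cT tlT PT.vx ringF) [
  .mk 11 15 23 [0x100000, 0x7f800b00000000000000000000000000000000000000000000000000]] = true := by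
  decide +kernel

theorem t1 : runX PT.R (Wk.frw PT.R) nl RvT (SMap.evl cT tlT PT.vx ringF) [
  .mk 11 15 23 [0x100000, 0xffffffffffffffffffffffffffffffffffffffffffffffff807ff001ffffffffdfffffffffffffffffffffffffffffffffffffff],
  .mk 11 15 23 [0x100000, 0x400000000000000000000000000000000000000000000000000, 0xe8f]] = true := by
  decide +kernel

theorem t2 : runX PT.R (Wk.frw PT.R) nl RvT (SMap.evl cT tlT PT.vx ringF) [
  .mk 11 15 23 [0x100000, 0x400000000000000000000000000000000000000000000000000, 0x7ff170]] = true := by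
  decide +kernel

theorem t3 : runX PT.R (Wk.frw PT.R) nl RvT (SMap.evl cT tlT PT.vx ringF) [
  .mk 11 15 23 [0x400000, 0x168b]] = true := by
  decide +kernel

theorem t4 : runX PT.R (Wk.frw PT.R) nl RvT (SMap.evl cT tlT PT.vx ringF) [
  .mk 11 15 23 [0x400000, 0x7fe974]] = true := by
  decide +kernel

theorem t5 : runX PT.R (Wk.frw PT.R) nl RvT (SMap.evl cT tlT PT.vx ringF) [
  .mk 11 15 23 [0x800000, 0x240033]] = true := by
  decide +kernel

/-- The tasks. -/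
noncomputable def P : List (List Tk) := [
[
  .mk 11 15 23 [0x100000, 0x7f800b00000000000000000000000000000000000000000000000000]],
[
  .mk 11 15 23 [0x100000, 0xffffffffffffffffffffffffffffffffffffffffffffffff807ff001ffffffffdfffffffffffffffffffffffffffffffffffffff],
  .mk 11 15 23 [0x100000, 0x400000000000000000000000000000000000000000000000000, 0xe8f]],
[
  .mk 11 15 23 [0x100000, 0x400000000000000000000000000000000000000000000000000, 0x7ff170]],
[
  .mk 11 15 23 [0x400000, 0x168b]],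
[
  .mk 11 15 23 [0x400000, 0x7fe974]],
[
  .mk 11 15 23 [0x800000, 0x240033]]]

theorem run : RunAll (runX PT.R (Wk.frw PT.R) nl RvT (SMap.evl cT tlT PT.vx ringF)) P :=
  .cons t0 (.cons t1 (.cons t2 (.cons t3 (.cons t4 (.cons t5 (.nil))))))

end Pool.Agent.Lib.MP_5854e1_co.Cz.Sr271

namespace Pool.Agent.Lib.MP_5854e1_co.Cz.Sr317

open PB

theorem t0 : runX PT.R (Wk.frw PT.R) nl RvT (SMap.evl cT tlT PT.vx ringF) [
  .mk 15 187 0 [0xfffffffffffffffffffffffffffffffffffffffffffffffffffffffffffffffffffffffffffbefffffffffffffffffffffffffff],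
  .mk 15 188 1 [],
  .mk 15 189 2 [],
  .mk 15 190 7 [],
  .mk 15 191 8 [],
  .mk 15 192 9 [],
  .mk 15 193 15 [],
  .mk 15 194 16 [],
  .mk 15 195 0 [],
  .mk 15 196 1 [],
  .mk 15 197 7 [],
  .mk 15 198 15 [],
  .mk 15 199 20 [],
  .mk 15 200 28 [],
  .mk 15 201 0 [],
  .mk 15 202 1 []] = true := by
  decide +kernel

theorem t1 : runX PT.R (Wk.frw PT.R) nl RvT (SMap.evl cT tlT PT.vx ringF) [
  .mk 15 203 3 [],
  .mk 15 204 20 [],
  .mk 15 205 21 []] = true := by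
  decide +kernel

theorem t2 : runX PT.R (Wk.frw PT.R) nl RvT (SMap.evl cT tlT PT.vx ringF) [
  .mk 15 206 22 [],
  .mk 15 207 28 []] = true := by
  decide +kernel

theorem t3 : runX PT.R (Wk.frw PT.R) nl RvT (SMap.evl cT tlT PT.vx ringF) [
  .mk 15 208 29 [],
  .mk 15 209 0 [],
  .mk 15 210 1 [],
  .mk 15 211 7 [],
  .mk 15 212 15 [],
  .mk 15 213 20 [],
  .mk 15 214 28 [],
  .mk 15 215 0 [],
  .mk 15 216 1 [],
  .mk 15 217 7 [],
  .mk 15 218 15 [],
  .mk 15 219 20 [],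
  .mk 15 220 28 [],
  .mk 15 221 0 [],
  .mk 15 222 1 [],
  .mk 15 223 7 [],
  .mk 15 224 15 [],
  .mk 15 225 20 [],
  .mk 15 226 28 [],
  .mk 15 227 0 [],
  .mk 15 228 1 [],
  .mk 15 229 7 [],
  .mk 15 230 15 [],
  .mk 15 231 20 [],
  .mk 15 232 28 [],
  .mk 15 233 0 [],
  .mk 15 234 1 [],
  .mk 15 235 7 [],
  .mk 15 236 15 [],
  .mk 15 237 20 [],
  .mk 15 238 28 [],
  .mk 15 239 0 [],
  .mk 15 240 1 [],
  .mk 15 241 7 [],
  .mk 15 242 15 [],
  .mk 15 243 20 [],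
  .mk 15 244 28 [],
  .mk 15 245 0 []] = true := by
  decide +kernel

theorem t4 : runX PT.R (Wk.frw PT.R) nl RvT (SMap.evl cT tlT PT.vx ringF) [
  .mk 15 246 7 [],
  .mk 15 247 15 []] = true := by
  decide +kernel

theorem t5 : runX PT.R (Wk.frw PT.R) nl RvT (SMap.evl cT tlT PT.vx ringF) [
  .mk 15 248 20 [],
  .mk 15 249 28 [],
  .mk 15 250 0 [],
  .mk 15 251 1 [],
  .mk 15 252 7 [],
  .mk 15 253 15 [],
  .mk 15 254 20 [],
  .mk 15 255 28 []] = true := by
  decide +kernel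

/-- The tasks. -/
noncomputable def P : List (List Tk) := [
[
  .mk 15 187 0 [0xfffffffffffffffffffffffffffffffffffffffffffffffffffffffffffffffffffffffffffbefffffffffffffffffffffffffff],
  .mk 15 188 1 [],
  .mk 15 189 2 [],
  .mk 15 190 7 [],
  .mk 15 191 8 [],
  .mk 15 192 9 [],
  .mk 15 193 15 [],
  .mk 15 194 16 [],
  .mk 15 195 0 [],
  .mk 15 196 1 [],
  .mk 15 197 7 [],
  .mk 15 198 15 [],
  .mk 15 199 20 [],
  .mk 15 200 28 [],
  .mk 15 201 0 [],
  .mk 15 202 1 []],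
[
  .mk 15 203 3 [],
  .mk 15 204 20 [],
  .mk 15 205 21 []],
[
  .mk 15 206 22 [],
  .mk 15 207 28 []],
[
  .mk 15 208 29 [],
  .mk 15 209 0 [],
  .mk 15 210 1 [],
  .mk 15 211 7 [],
  .mk 15 212 15 [],
  .mk 15 213 20 [],
  .mk 15 214 28 [],
  .mk 15 215 0 [],
  .mk 15 216 1 [],
  .mk 15 217 7 [],
  .mk 15 218 15 [],
  .mk 15 219 20 [],
  .mk 15 220 28 [],
  .mk 15 221 0 [],
  .mk 15 222 1 [],
  .mk 15 223 7 [],
  .mk 15 224 15 [],
  .mk 15 225 20 [],
  .mk 15 226 28 [],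
  .mk 15 227 0 [],
  .mk 15 228 1 [],
  .mk 15 229 7 [],
  .mk 15 230 15 [],
  .mk 15 231 20 [],
  .mk 15 232 28 [],
  .mk 15 233 0 [],
  .mk 15 234 1 [],
  .mk 15 235 7 [],
  .mk 15 236 15 [],
  .mk 15 237 20 [],
  .mk 15 238 28 [],
  .mk 15 239 0 [],
  .mk 15 240 1 [],
  .mk 15 241 7 [],
  .mk 15 242 15 [],
  .mk 15 243 20 [],
  .mk 15 244 28 [],
  .mk 15 245 0 []],
[
  .mk 15 246 7 [],
  .mk 15 247 15 []],
[
  .mk 15 248 20 [],
  .mk 15 249 28 [],
  .mk 15 250 0 [],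
  .mk 15 251 1 [],
  .mk 15 252 7 [],
  .mk 15 253 15 [],
  .mk 15 254 20 [],
  .mk 15 255 28 []]]

theorem run : RunAll (runX PT.R (Wk.frw PT.R) nl RvT (SMap.evl cT tlT PT.vx ringF)) P :=
  .cons t0 (.cons t1 (.cons t2 (.cons t3 (.cons t4 (.cons t5 (.nil))))))

end Pool.Agent.Lib.MP_5854e1_co.Cz.Sr317
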