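import Pool.Agent.Lib.MP_5854e1_co.Cz.P
import Pool.Agent.Lib.MP_5854e1_co.Tkx
import Pool.Agent.Lib.MP_5854e1_co.RunAll

/-!
# Search, part 220
-/

set_option autoImplicit false
set_option deprecated.oldSectionVars true
set_option maxRecDepth 100000

namespace Pool.Agent.Lib.MP_5854e1_co.Cz.Sr220

open PB

theorem t0 : runX PT.R (Wk.frw PT.R) nl RvT (SMap.evl cT tlT PT.vx ringF) [
  .mk 9 8 68 [0x4000, 0x1, 0xffffffffffffffffffffffffff03fc0f81fffffe000001ffffffffffffffffffffffffffffffffffffffffffffffffffffffffff],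
  .mk 9 8 68 [0x4000, 0x400, 0x1bb]] = true := by
  decide +kernel

theorem t1 : runX PT.R (Wk.frw PT.R) nl RvT (SMap.evl cT tlT PT.vx ringF) [
  .mk 9 8 68 [0x4000, 0x400, 0x10600]] = true := by
  decide +kernel

theorem t2 : runX PT.R (Wk.frw PT.R) nl RvT (SMap.evl cT tlT PT.vx ringF) [
  .mk 9 8 68 [0x4000, 0x400, 0x7ee844]] = true := by
  decide +kernel

theorem t3 : runX PT.R (Wk.frw PT.R) nl RvT (SMap.evl cT tlT PT.vx ringF) [
  .mk 9 8 68 [0x4000, 0x400, 0x1000, 0x3000000001]] = true := by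
  decide +kernel

theorem t4 : runX PT.R (Wk.frw PT.R) nl RvT (SMap.evl cT tlT PT.vx ringF) [
  .mk 9 8 68 [0x4000, 0x400, 0x1000, 0xfffffffffffffffffffffffffffffffffffffffffffffffffffffffffffffcffffffffe],
  .mk 9 9 69 [],
  .mk 9 10 70 []] = true := by
  decide +kernel

theorem t5 : runX PT.R (Wk.frw PT.R) nl RvT (SMap.evl cT tlT PT.vx ringF) [
  .mk 9 11 71 [],
  .mk 9 12 72 [],
  .mk 9 13 73 [],
  .mk 9 14 74 [],
  .mk 9 15 75 [],
  .mk 9 16 76 [],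
  .mk 9 17 77 [],
  .mk 9 18 78 [],
  .mk 9 19 79 [],
  .mk 9 20 80 [],
  .mk 9 21 81 [],
  .mk 9 22 82 [],
  .mk 9 23 92 [],
  .mk 9 24 93 [],
  .mk 9 25 94 []] = true := by
  decide +kernel

/-- The tasks. -/
noncomputable def P : List (List Tk) := [
[
  .mk 9 8 68 [0x4000, 0x1, 0xffffffffffffffffffffffffff03fc0f81fffffe000001ffffffffffffffffffffffffffffffffffffffffffffffffffffffffff],
  .mk 9 8 68 [0x4000, 0x400, 0x1bb]],
[
  .mk 9 8 68 [0x4000, 0x400, 0x10600]],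
[
  .mk 9 8 68 [0x4000, 0x400, 0x7ee844]],
[
  .mk 9 8 68 [0x4000, 0x400, 0x1000, 0x3000000001]],
[
  .mk 9 8 68 [0x4000, 0x400, 0x1000, 0xfffffffffffffffffffffffffffffffffffffffffffffffffffffffffffffcffffffffe],
  .mk 9 9 69 [],
  .mk 9 10 70 []],
[
  .mk 9 11 71 [],
  .mk 9 12 72 [],
  .mk 9 13 73 [],
  .mk 9 14 74 [],
  .mk 9 15 75 [],
  .mk 9 16 76 [],
  .mk 9 17 77 [],
  .mk 9 18 78 [],
  .mk 9 19 79 [],
  .mk 9 20 80 [],
  .mk 9 21 81 [],
  .mk 9 22 82 [],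
  .mk 9 23 92 [],
  .mk 9 24 93 [],
  .mk 9 25 94 []]]

theorem run : RunAll (runX PT.R (Wk.frw PT.R) nl RvT (SMap.evl cT tlT PT.vx ringF)) P :=
  .cons t0 (.cons t1 (.cons t2 (.cons t3 (.cons t4 (.cons t5 (.nil))))))

end Pool.Agent.Lib.MP_5854e1_co.Cz.Sr220

namespace Pool.Agent.Lib.MP_5854e1_co.Cz.Sr319

open PB

theorem t0 : runX PT.R (Wk.frw PT.R) nl RvT (SMap.evl cT tlT PT.vx ringF) [
  .mk 15 259 20 [0x2000000, 0x3fffffc10]] = true := by
  decide +kernel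

theorem t1 : runX PT.R (Wk.frw PT.R) nl RvT (SMap.evl cT tlT PT.vx ringF) [
  .mk 15 260 21 [0xf5e806d]] = true := by
  decide +kernel

theorem t2 : runX PT.R (Wk.frw PT.R) nl RvT (SMap.evl cT tlT PT.vx ringF) [
  .mk 15 260 21 [0xff0a17f92]] = true := by
  decide +kernel

theorem t3 : runX PT.R (Wk.frw PT.R) nl RvT (SMap.evl cT tlT PT.vx ringF) [
  .mk 15 261 22 [0x70fff]] = true := by
  decide +kernel

theorem t4 : runX PT.R (Wk.frw PT.R) nl RvT (SMap.evl cT tlT PT.vx ringF) [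
  .mk 15 261 22 [0x3fffffff8f000],
  .mk 15 262 28 []] = true := by
  decide +kernel

theorem t5 : runX PT.R (Wk.frw PT.R) nl RvT (SMap.evl cT tlT PT.vx ringF) [
  .mk 15 263 29 []] = true := by
  decide +kernel

theorem t6 : runX PT.R (Wk.frw PT.R) nl RvT (SMap.evl cT tlT PT.vx ringF) [
  .mk 15 264 0 [0x40800000000000000000000]] = true := by
  decide +kernel

/-- The tasks. -/
noncomputable def P : List (List Tk) := [
[
  .mk 15 259 20 [0x2000000, 0x3fffffc10]],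
[
  .mk 15 260 21 [0xf5e806d]],
[
  .mk 15 260 21 [0xff0a17f92]],
[
  .mk 15 261 22 [0x70fff]],
[
  .mk 15 261 22 [0x3fffffff8f000],
  .mk 15 262 28 []],
[
  .mk 15 263 29 []],
[
  .mk 15 264 0 [0x40800000000000000000000]]]

theorem run : RunAll (runX PT.R (Wk.frw PT.R) nl RvT (SMap.evl cT tlT PT.vx ringF)) P :=
  .cons t0 (.cons t1 (.cons t2 (.cons t3 (.cons t4 (.cons t5 (.cons t6 (.nil)))))))

end Pool.Agent.Lib.MP_5854e1_co.Cz.Sr319
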