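import Pool.Agent.Lib.MP_5854e1_co.Cz.P
import Pool.Agent.Lib.MP_5854e1_co.Tkx
import Pool.Agent.Lib.MP_5854e1_co.RunAll

/-!
# Search, part 224
-/

set_option autoImplicit false
set_option deprecated.oldSectionVars true
set_option maxRecDepth 100000

namespace Pool.Agent.Lib.MP_5854e1_co.Cz.Sr224

open PB

theorem t0 : runX PT.R (Wk.frw PT.R) nl RvT (SMap.evl cT tlT PT.vx ringF) [
  .mk 9 45 0 [0x1e0000000000000000000000000]] = true := by
  decide +kernel

theorem t1 : runX PT.R (Wk.frw PT.R) nl RvT (SMap.evl cT tlT PT.vx ringF) [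
  .mk 9 45 0 [0xfffffffffffffffffffffffffffffffffffffffffffffffffffffffffffffffffffffffffffffe0fffa9ffffffffffffffffffff],
  .mk 9 46 7 []] = true := by
  decide +kernel

theorem t2 : runX PT.R (Wk.frw PT.R) nl RvT (SMap.evl cT tlT PT.vx ringF) [
  .mk 9 47 15 [],
  .mk 9 48 20 [],
  .mk 9 49 28 []] = true := by
  decide +kernel

theorem t3 : runX PT.R (Wk.frw PT.R) nl RvT (SMap.evl cT tlT PT.vx ringF) [
  .mk 10 0 0 [0xfa00000476000000002000000000000000000000000000000000000000]] = true := by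
  decide +kernel

theorem t4 : runX PT.R (Wk.frw PT.R) nl RvT (SMap.evl cT tlT PT.vx ringF) [
  .mk 10 0 0 [0xffffffffffffffffffffffffffffffffffffffffffffff05fffffb89ffffffffdfffffffffffffffffffffffffffffffffffffff],
  .mk 10 1 20 [],
  .mk 10 2 24 [],
  .mk 10 3 25 [],
  .mk 10 4 26 [],
  .mk 10 5 27 [],
  .mk 10 6 28 [],
  .mk 10 7 30 []] = true := by
  decide +kernel

/-- The tasks. -/
noncomputable def P : List (List Tk) := [
[
  .mk 9 45 0 [0x1e0000000000000000000000000]],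
[
  .mk 9 45 0 [0xfffffffffffffffffffffffffffffffffffffffffffffffffffffffffffffffffffffffffffffe0fffa9ffffffffffffffffffff],
  .mk 9 46 7 []],
[
  .mk 9 47 15 [],
  .mk 9 48 20 [],
  .mk 9 49 28 []],
[
  .mk 10 0 0 [0xfa00000476000000002000000000000000000000000000000000000000]],
[
  .mk 10 0 0 [0xffffffffffffffffffffffffffffffffffffffffffffff05fffffb89ffffffffdfffffffffffffffffffffffffffffffffffffff],
  .mk 10 1 20 [],
  .mk 10 2 24 [],
  .mk 10 3 25 [],
  .mk 10 4 26 [],
  .mk 10 5 27 [],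
  .mk 10 6 28 [],
  .mk 10 7 30 []]]

theorem run : RunAll (runX PT.R (Wk.frw PT.R) nl RvT (SMap.evl cT tlT PT.vx ringF)) P :=
  .cons t0 (.cons t1 (.cons t2 (.cons t3 (.cons t4 (.nil)))))

end Pool.Agent.Lib.MP_5854e1_co.Cz.Sr224

namespace Pool.Agent.Lib.MP_5854e1_co.Cz.Sr361

open PB

theorem t0 : runX PT.R (Wk.frw PT.R) nl RvT (SMap.evl cT tlT PT.vx ringF) [
  .mk 41 2 11 [0x2000, 0x400, 0x800000, 0x1, 0x200000000000000000000000000000000, 0x1fffff]] = true := by
  decide +kernel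

theorem t1 : runX PT.R (Wk.frw PT.R) nl RvT (SMap.evl cT tlT PT.vx ringF) [
  .mk 41 2 11 [0x2000, 0x400, 0x800000, 0x2, 0xfffffffffffffffdfffffffffffffffffffffffffffffffffffffffffffffffffffffff]] = true := by
  decide +kernel

theorem t2 : runX PT.R (Wk.frw PT.R) nl RvT (SMap.evl cT tlT PT.vx ringF) [
  .mk 41 2 11 [0x2000, 0x400, 0x800000, 0x2, 0x20000000000000000000000000000000000000000000000000000000, 0xffffffffffffffffffffffffffffffffffffffffffffffffffffffffffffffffffffffffffffffffffffffffffffffffffffffff]] = true := by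
  decide +kernel

theorem t3 : runX PT.R (Wk.frw PT.R) nl RvT (SMap.evl cT tlT PT.vx ringF) [
  .mk 41 2 11 [0x2000, 0x400, 0x800000, 0x20000, 0xffffffffffffffffffffffffffffffffffffffffffffffffffffffffffffffffdfffffffffffffffffffffffffffffffffffffff]] = true := by
  decide +kernel

/-- The tasks. -/
noncomputable def P : List (List Tk) := [
[
  .mk 41 2 11 [0x2000, 0x400, 0x800000, 0x1, 0x200000000000000000000000000000000, 0x1fffff]],
[
  .mk 41 2 11 [0x2000, 0x400, 0x800000, 0x2, 0xfffffffffffffffdfffffffffffffffffffffffffffffffffffffffffffffffffffffff]],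
[
  .mk 41 2 11 [0x2000, 0x400, 0x800000, 0x2, 0x20000000000000000000000000000000000000000000000000000000, 0xffffffffffffffffffffffffffffffffffffffffffffffffffffffffffffffffffffffffffffffffffffffffffffffffffffffff]],
[
  .mk 41 2 11 [0x2000, 0x400, 0x800000, 0x20000, 0xffffffffffffffffffffffffffffffffffffffffffffffffffffffffffffffffdfffffffffffffffffffffffffffffffffffffff]]]

theorem run : RunAll (runX PT.R (Wk.frw PT.R) nl RvT (SMap.evl cT tlT PT.vx ringF)) P :=
  .cons t0 (.cons t1 (.cons t2 (.cons t3 (.nil))))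

end Pool.Agent.Lib.MP_5854e1_co.Cz.Sr361

namespace Pool.Agent.Lib.MP_5854e1_co.Cz.Sr438

open PB

theorem t0 : runX PT.R (Wk.frw PT.R) nl RvT (SMap.evl cT tlT PT.vx ringF) [
  .mk 42 26 68 [0x800, 0x80, 0x400, 0x3e0000000001]] = true := by
  decide +kernel

theorem t1 : runX PT.R (Wk.frw PT.R) nl RvT (SMap.evl cT tlT PT.vx ringF) [
  .mk 42 26 68 [0x800, 0x80, 0x400, 0xffffffffffffffffffffffffffffffffffffffffffffffffffffffffffffffffffffffffffffffffffffffffffffc1fffffffffe]] = true := by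
  decide +kernel

theorem t2 : runX PT.R (Wk.frw PT.R) nl RvT (SMap.evl cT tlT PT.vx ringF) [
  .mk 42 26 68 [0x800, 0x400, 0x3fc0000]] = true := by
  decide +kernel

theorem t3 : runX PT.R (Wk.frw PT.R) nl RvT (SMap.evl cT tlT PT.vx ringF) [
  .mk 42 26 68 [0x800, 0x400, 0x3fffffc03ffff]] = true := by
  decide +kernel

theorem t4 : runX PT.R (Wk.frw PT.R) nl RvT (SMap.evl cT tlT PT.vx ringF) [
  .mk 42 26 68 [0x800, 0x4000, 0x3]] = true := by
  decide +kernel

theorem t5 : runX PT.R (Wk.frw PT.R) nl RvT (SMap.evl cT tlT PT.vx ringF) [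
  .mk 42 26 68 [0x800, 0x4000, 0xffffffffc]] = true := by
  decide +kernel

theorem t6 : runX PT.R (Wk.frw PT.R) nl RvT (SMap.evl cT tlT PT.vx ringF) [
  .mk 42 26 68 [0x1000, 0x1f00000000000000000000000000000008675700000001]] = true := by
  decide +kernel

/-- The tasks. -/
noncomputable def P : List (List Tk) := [
[
  .mk 42 26 68 [0x800, 0x80, 0x400, 0x3e0000000001]],
[
  .mk 42 26 68 [0x800, 0x80, 0x400, 0xffffffffffffffffffffffffffffffffffffffffffffffffffffffffffffffffffffffffffffffffffffffffffffc1fffffffffe]],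
[
  .mk 42 26 68 [0x800, 0x400, 0x3fc0000]],
[
  .mk 42 26 68 [0x800, 0x400, 0x3fffffc03ffff]],
[
  .mk 42 26 68 [0x800, 0x4000, 0x3]],
[
  .mk 42 26 68 [0x800, 0x4000, 0xffffffffc]],
[
  .mk 42 26 68 [0x1000, 0x1f00000000000000000000000000000008675700000001]]]

theorem run : RunAll (runX PT.R (Wk.frw PT.R) nl RvT (SMap.evl cT tlT PT.vx ringF)) P :=
  .cons t0 (.cons t1 (.cons t2 (.cons t3 (.cons t4 (.cons t5 (.cons t6 (.nil)))))))

end Pool.Agent.Lib.MP_5854e1_co.Cz.Sr438
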