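import Pool.Agent.Lib.MP_5854e1_co.Cz.P
import Pool.Agent.Lib.MP_5854e1_co.Tkx
import Pool.Agent.Lib.MP_5854e1_co.RunAll

/-!
# Search, part 227
-/

set_option autoImplicit false
set_option deprecated.oldSectionVars true
set_option maxRecDepth 100000

namespace Pool.Agent.Lib.MP_5854e1_co.Cz.Sr227

open PB

theorem t0 : runX PT.R (Wk.frw PT.R) nl RvT (SMap.evl cT tlT PT.vx ringF) [
  .mk 10 20 0 [0xf80000000000000000000000000000000000000]] = true := by
  decide +kernel

theorem t1 : runX PT.R (Wk.frw PT.R) nl RvT (SMap.evl cT tlT PT.vx ringF) [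
  .mk 10 20 0 [0xfffffffffffffffffffffffffffffffffffffffffffffffffffffffffffffffff00ff80f001ffffffffdffffffffffffffffffff],
  .mk 10 20 0 [0x10000000000000000000000000000000, 0xfb5]] = true := by
  decide +kernel

theorem t2 : runX PT.R (Wk.frw PT.R) nl RvT (SMap.evl cT tlT PT.vx ringF) [
  .mk 10 20 0 [0x10000000000000000000000000000000, 0x7ff04a]] = true := by
  decide +kernel

theorem t3 : runX PT.R (Wk.frw PT.R) nl RvT (SMap.evl cT tlT PT.vx ringF) [
  .mk 10 21 7 [0x3c00800000000000000000107b00003900000000000000000000000000000000]] = true := by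
  decide +kernel

theorem t4 : runX PT.R (Wk.frw PT.R) nl RvT (SMap.evl cT tlT PT.vx ringF) [
  .mk 10 21 7 [0xfffffffc3ff7fffffffffffffffffef84ffffc6ffffffffffffffffffffffffffffffff],
  .mk 10 22 11 [0x8f]] = true := by
  decide +kernel

/-- The tasks. -/
noncomputable def P : List (List Tk) := [
[
  .mk 10 20 0 [0xf80000000000000000000000000000000000000]],
[
  .mk 10 20 0 [0xfffffffffffffffffffffffffffffffffffffffffffffffffffffffffffffffff00ff80f001ffffffffdffffffffffffffffffff],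
  .mk 10 20 0 [0x10000000000000000000000000000000, 0xfb5]],
[
  .mk 10 20 0 [0x10000000000000000000000000000000, 0x7ff04a]],
[
  .mk 10 21 7 [0x3c00800000000000000000107b00003900000000000000000000000000000000]],
[
  .mk 10 21 7 [0xfffffffc3ff7fffffffffffffffffef84ffffc6ffffffffffffffffffffffffffffffff],
  .mk 10 22 11 [0x8f]]]

theorem run : RunAll (runX PT.R (Wk.frw PT.R) nl RvT (SMap.evl cT tlT PT.vx ringF)) P :=
  .cons t0 (.cons t1 (.cons t2 (.cons t3 (.cons t4 (.nil)))))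

end Pool.Agent.Lib.MP_5854e1_co.Cz.Sr227

namespace Pool.Agent.Lib.MP_5854e1_co.Cz.Sr281

open PB

theorem t0 : runX PT.R (Wk.frw PT.R) nl RvT (SMap.evl cT tlT PT.vx ringF) [
  .mk 12 20 27 [0x400000, 0x2000, 0xfffffffc0],
  .mk 12 20 27 [0x400000, 0x4000, 0x7]] = true := by
  decide +kernel

theorem t1 : runX PT.R (Wk.frw PT.R) nl RvT (SMap.evl cT tlT PT.vx ringF) [
  .mk 12 20 27 [0x400000, 0x4000, 0x18]] = true := by
  decide +kernel

theorem t2 : runX PT.R (Wk.frw PT.R) nl RvT (SMap.evl cT tlT PT.vx ringF) [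
  .mk 12 20 27 [0x400000, 0x4000, 0x3ffffffffffe0],
  .mk 12 20 27 [0x800000, 0x3260009]] = true := by
  decide +kernel

theorem t3 : runX PT.R (Wk.frw PT.R) nl RvT (SMap.evl cT tlT PT.vx ringF) [
  .mk 12 20 27 [0x800000, 0x48000000]] = true := by
  decide +kernel

theorem t4 : runX PT.R (Wk.frw PT.R) nl RvT (SMap.evl cT tlT PT.vx ringF) [
  .mk 12 20 27 [0x800000, 0x3b0d9fff6],
  .mk 12 20 27 [0x800000, 0x4000000, 0x7]] = true := by
  decide +kernel

theorem t5 : runX PT.R (Wk.frw PT.R) nl RvT (SMap.evl cT tlT PT.vx ringF) [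
  .mk 12 20 27 [0x800000, 0x4000000, 0xffffffff8],
  .mk 12 21 28 [],
  .mk 12 22 31 [],
  .mk 12 23 32 []] = true := by
  decide +kernel

/-- The tasks. -/
noncomputable def P : List (List Tk) := [
[
  .mk 12 20 27 [0x400000, 0x2000, 0xfffffffc0],
  .mk 12 20 27 [0x400000, 0x4000, 0x7]],
[
  .mk 12 20 27 [0x400000, 0x4000, 0x18]],
[
  .mk 12 20 27 [0x400000, 0x4000, 0x3ffffffffffe0],
  .mk 12 20 27 [0x800000, 0x3260009]],
[
  .mk 12 20 27 [0x800000, 0x48000000]],
[
  .mk 12 20 27 [0x800000, 0x3b0d9fff6],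
  .mk 12 20 27 [0x800000, 0x4000000, 0x7]],
[
  .mk 12 20 27 [0x800000, 0x4000000, 0xffffffff8],
  .mk 12 21 28 [],
  .mk 12 22 31 [],
  .mk 12 23 32 []]]

theorem run : RunAll (runX PT.R (Wk.frw PT.R) nl RvT (SMap.evl cT tlT PT.vx ringF)) P :=
  .cons t0 (.cons t1 (.cons t2 (.cons t3 (.cons t4 (.cons t5 (.nil))))))

end Pool.Agent.Lib.MP_5854e1_co.Cz.Sr281
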