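import Pool.Agent.Lib.MP_5854e1_co.Cz.P
import Pool.Agent.Lib.MP_5854e1_co.Tkx
import Pool.Agent.Lib.MP_5854e1_co.RunAll

/-!
# Search, part 230
-/

set_option autoImplicit false
set_option deprecated.oldSectionVars true
set_option maxRecDepth 100000

namespace Pool.Agent.Lib.MP_5854e1_co.Cz.Sr230

open PB

theorem t0 : runX PT.R (Wk.frw PT.R) nl RvT (SMap.evl cT tlT PT.vx ringF) [
  .mk 10 23 12 [0x1000000, 0xc33fc]] = true := by
  decide +kernel

theorem t1 : runX PT.R (Wk.frw PT.R) nl RvT (SMap.evl cT tlT PT.vx ringF) [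
  .mk 10 23 12 [0x1000000, 0x400, 0x12c0f8000000000000000000000000000000000000000000000000000000000f0000000000001]] = true := by
  decide +kernel

theorem t2 : runX PT.R (Wk.frw PT.R) nl RvT (SMap.evl cT tlT PT.vx ringF) [
  .mk 10 23 12 [0x1000000, 0x400, 0xb000000000000000000000000000000000000000000000000000000000000000000000000000000]] = true := by
  decide +kernel

theorem t3 : runX PT.R (Wk.frw PT.R) nl RvT (SMap.evl cT tlT PT.vx ringF) [
  .mk 10 23 12 [0x1000000, 0x400, 0xfffffffffffffffffffffffff4fed3f07fffffffffffffffffffffffffffffffffffffffffffffffffffffffff0ffffffffffffe]] = true := by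
  decide +kernel

theorem t4 : runX PT.R (Wk.frw PT.R) nl RvT (SMap.evl cT tlT PT.vx ringF) [
  .mk 10 23 12 [0x4000000, 0x13]] = true := by
  decide +kernel

theorem t5 : runX PT.R (Wk.frw PT.R) nl RvT (SMap.evl cT tlT PT.vx ringF) [
  .mk 10 23 12 [0x4000000, 0x18000]] = true := by
  decide +kernel

theorem t6 : runX PT.R (Wk.frw PT.R) nl RvT (SMap.evl cT tlT PT.vx ringF) [
  .mk 10 23 12 [0x4000000, 0xffffe7fec]] = true := by
  decide +kernel

/-- The tasks. -/
noncomputable def P : List (List Tk) := [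
[
  .mk 10 23 12 [0x1000000, 0xc33fc]],
[
  .mk 10 23 12 [0x1000000, 0x400, 0x12c0f8000000000000000000000000000000000000000000000000000000000f0000000000001]],
[
  .mk 10 23 12 [0x1000000, 0x400, 0xb000000000000000000000000000000000000000000000000000000000000000000000000000000]],
[
  .mk 10 23 12 [0x1000000, 0x400, 0xfffffffffffffffffffffffff4fed3f07fffffffffffffffffffffffffffffffffffffffffffffffffffffffff0ffffffffffffe]],
[
  .mk 10 23 12 [0x4000000, 0x13]],
[
  .mk 10 23 12 [0x4000000, 0x18000]],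
[
  .mk 10 23 12 [0x4000000, 0xffffe7fec]]]

theorem run : RunAll (runX PT.R (Wk.frw PT.R) nl RvT (SMap.evl cT tlT PT.vx ringF)) P :=
  .cons t0 (.cons t1 (.cons t2 (.cons t3 (.cons t4 (.cons t5 (.cons t6 (.nil)))))))

end Pool.Agent.Lib.MP_5854e1_co.Cz.Sr230

namespace Pool.Agent.Lib.MP_5854e1_co.Cz.Sr518

open PB

theorem t0 : runX PT.R (Wk.frw PT.R) nl RvT (SMap.evl cT tlT PT.vx ringF) [
  .mk 63 9 52 [0x200, 0x4, 0x2000, 0x12]] = true := by
  decide +kernel

theorem t1 : runX PT.R (Wk.frw PT.R) nl RvT (SMap.evl cT tlT PT.vx ringF) [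
  .mk 63 9 52 [0x200, 0x4, 0x2000, 0xfffffffec]] = true := by
  decide +kernel

theorem t2 : runX PT.R (Wk.frw PT.R) nl RvT (SMap.evl cT tlT PT.vx ringF) [
  .mk 63 9 52 [0x200, 0x4, 0x2000, 0x1, 0x7000000000000000000000000000000000]] = true := by
  decide +kernel

theorem t3 : runX PT.R (Wk.frw PT.R) nl RvT (SMap.evl cT tlT PT.vx ringF) [
  .mk 63 9 52 [0x200, 0x4, 0x2000, 0x1, 0xffffffffffffffffffffffffffffffffffffffffffffffffffffffffffffffffffffff8ffffffffffffdffffffffffffffffffff]] = true := by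
  decide +kernel

theorem t4 : runX PT.R (Wk.frw PT.R) nl RvT (SMap.evl cT tlT PT.vx ringF) [
  .mk 63 9 52 [0x200, 0x4, 0x2000, 0x1, 0x200000000000000000000, 0x20000000000000000000000000000000000000000000000000000000000000000000000]] = true := by
  decide +kernel

theorem t5 : runX PT.R (Wk.frw PT.R) nl RvT (SMap.evl cT tlT PT.vx ringF) [
  .mk 63 9 52 [0x200, 0x4, 0x2000, 0x1, 0x200000000000000000000, 0x101c0000000000000000000000000000000000000000000000000000000000000000000000]] = true := by
  decide +kernel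

theorem t6 : runX PT.R (Wk.frw PT.R) nl RvT (SMap.evl cT tlT PT.vx ringF) [
  .mk 63 9 52 [0x200, 0x4, 0x2000, 0x1, 0x200000000000000000000, 0x320000000000000000000000000000000000000000000000000000000000000000000000000]] = true := by
  decide +kernel

/-- The tasks. -/
noncomputable def P : List (List Tk) := [
[
  .mk 63 9 52 [0x200, 0x4, 0x2000, 0x12]],
[
  .mk 63 9 52 [0x200, 0x4, 0x2000, 0xfffffffec]],
[
  .mk 63 9 52 [0x200, 0x4, 0x2000, 0x1, 0x7000000000000000000000000000000000]],
[
  .mk 63 9 52 [0x200, 0x4, 0x2000, 0x1, 0xffffffffffffffffffffffffffffffffffffffffffffffffffffffffffffffffffffff8ffffffffffffdffffffffffffffffffff]],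
[
  .mk 63 9 52 [0x200, 0x4, 0x2000, 0x1, 0x200000000000000000000, 0x20000000000000000000000000000000000000000000000000000000000000000000000]],
[
  .mk 63 9 52 [0x200, 0x4, 0x2000, 0x1, 0x200000000000000000000, 0x101c0000000000000000000000000000000000000000000000000000000000000000000000]],
[
  .mk 63 9 52 [0x200, 0x4, 0x2000, 0x1, 0x200000000000000000000, 0x320000000000000000000000000000000000000000000000000000000000000000000000000]]]

theorem run : RunAll (runX PT.R (Wk.frw PT.R) nl RvT (SMap.evl cT tlT PT.vx ringF)) P :=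
  .cons t0 (.cons t1 (.cons t2 (.cons t3 (.cons t4 (.cons t5 (.cons t6 (.nil)))))))

end Pool.Agent.Lib.MP_5854e1_co.Cz.Sr518
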