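import Pool.Agent.Lib.MP_5854e1_co.Cz.P
import Pool.Agent.Lib.MP_5854e1_co.Tkx
import Pool.Agent.Lib.MP_5854e1_co.RunAll

/-!
# Search, part 231
-/

set_option autoImplicit false
set_option deprecated.oldSectionVars true
set_option maxRecDepth 100000

namespace Pool.Agent.Lib.MP_5854e1_co.Cz.Sr231

open PB

theorem t0 : runX PT.R (Wk.frw PT.R) nl RvT (SMap.evl cT tlT PT.vx ringF) [
  .mk 10 23 12 [0x200000000, 0xf93]] = true := by
  decide +kernel

theorem t1 : runX PT.R (Wk.frw PT.R) nl RvT (SMap.evl cT tlT PT.vx ringF) [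
  .mk 10 23 12 [0x200000000, 0xffffff06c]] = true := by
  decide +kernel

theorem t2 : runX PT.R (Wk.frw PT.R) nl RvT (SMap.evl cT tlT PT.vx ringF) [
  .mk 10 24 15 [0xffffaffffffffffffffffffffffffffffffffffffffffffffffffffffffffffffffffff]] = true := by
  decide +kernel

theorem t3 : runX PT.R (Wk.frw PT.R) nl RvT (SMap.evl cT tlT PT.vx ringF) [
  .mk 10 24 15 [0x1000000000000000000000000000000000000000000000000000000000000000000, 0x8600000000000000000001]] = true := by
  decide +kernel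

theorem t4 : runX PT.R (Wk.frw PT.R) nl RvT (SMap.evl cT tlT PT.vx ringF) [
  .mk 10 24 15 [0x1000000000000000000000000000000000000000000000000000000000000000000, 0x30000000000000000000000]] = true := by
  decide +kernel

theorem t5 : runX PT.R (Wk.frw PT.R) nl RvT (SMap.evl cT tlT PT.vx ringF) [
  .mk 10 24 15 [0x1000000000000000000000000000000000000000000000000000000000000000000, 0xfffffffffffffffffffffffffffffffffffffffffffffffffffffffffffffffffffffffffffffffffc79fffffffffffffffffffe]] = true := by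
  decide +kernel

/-- The tasks. -/
noncomputable def P : List (List Tk) := [
[
  .mk 10 23 12 [0x200000000, 0xf93]],
[
  .mk 10 23 12 [0x200000000, 0xffffff06c]],
[
  .mk 10 24 15 [0xffffaffffffffffffffffffffffffffffffffffffffffffffffffffffffffffffffffff]],
[
  .mk 10 24 15 [0x1000000000000000000000000000000000000000000000000000000000000000000, 0x8600000000000000000001]],
[
  .mk 10 24 15 [0x1000000000000000000000000000000000000000000000000000000000000000000, 0x30000000000000000000000]],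
[
  .mk 10 24 15 [0x1000000000000000000000000000000000000000000000000000000000000000000, 0xfffffffffffffffffffffffffffffffffffffffffffffffffffffffffffffffffffffffffffffffffc79fffffffffffffffffffe]]]

theorem run : RunAll (runX PT.R (Wk.frw PT.R) nl RvT (SMap.evl cT tlT PT.vx ringF)) P :=
  .cons t0 (.cons t1 (.cons t2 (.cons t3 (.cons t4 (.cons t5 (.nil))))))

end Pool.Agent.Lib.MP_5854e1_co.Cz.Sr231

namespace Pool.Agent.Lib.MP_5854e1_co.Cz.Sr568

open PB

theorem t0 : runX PT.R (Wk.frw PT.R) nl RvT (SMap.evl cT tlT PT.vx ringF) [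
  .mk 68 15 23 [0x400000, 0x4000, 0x390001]] = true := by
  decide +kernel

theorem t1 : runX PT.R (Wk.frw PT.R) nl RvT (SMap.evl cT tlT PT.vx ringF) [
  .mk 68 15 23 [0x400000, 0x4000, 0x3ffffffc6fffe]] = true := by
  decide +kernel

theorem t2 : runX PT.R (Wk.frw PT.R) nl RvT (SMap.evl cT tlT PT.vx ringF) [
  .mk 68 15 23 [0x400000, 0x20000, 0x13]] = true := by
  decide +kernel

theorem t3 : runX PT.R (Wk.frw PT.R) nl RvT (SMap.evl cT tlT PT.vx ringF) [
  .mk 68 15 23 [0x400000, 0x20000, 0xfffffffec]] = true := by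
  decide +kernel

theorem t4 : runX PT.R (Wk.frw PT.R) nl RvT (SMap.evl cT tlT PT.vx ringF) [
  .mk 68 15 23 [0x800000, 0x40033]] = true := by
  decide +kernel

theorem t5 : runX PT.R (Wk.frw PT.R) nl RvT (SMap.evl cT tlT PT.vx ringF) [
  .mk 68 15 23 [0x800000, 0x2200000]] = true := by
  decide +kernel

theorem t6 : runX PT.R (Wk.frw PT.R) nl RvT (SMap.evl cT tlT PT.vx ringF) [
  .mk 68 15 23 [0x800000, 0xf0d9ffcc]] = true := by
  decide +kernel

/-- The tasks. -/
noncomputable def P : List (List Tk) := [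
[
  .mk 68 15 23 [0x400000, 0x4000, 0x390001]],
[
  .mk 68 15 23 [0x400000, 0x4000, 0x3ffffffc6fffe]],
[
  .mk 68 15 23 [0x400000, 0x20000, 0x13]],
[
  .mk 68 15 23 [0x400000, 0x20000, 0xfffffffec]],
[
  .mk 68 15 23 [0x800000, 0x40033]],
[
  .mk 68 15 23 [0x800000, 0x2200000]],
[
  .mk 68 15 23 [0x800000, 0xf0d9ffcc]]]

theorem run : RunAll (runX PT.R (Wk.frw PT.R) nl RvT (SMap.evl cT tlT PT.vx ringF)) P :=
  .cons t0 (.cons t1 (.cons t2 (.cons t3 (.cons t4 (.cons t5 (.cons t6 (.nil)))))))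

end Pool.Agent.Lib.MP_5854e1_co.Cz.Sr568

namespace Pool.Agent.Lib.MP_5854e1_co.Cz.Sr589

open PB

theorem t0 : runX PT.R (Wk.frw PT.R) nl RvT (SMap.evl cT tlT PT.vx ringF) [
  .mk 86 11 2 [0x8, 0x7f1e0000]] = true := by
  decide +kernel

theorem t1 : runX PT.R (Wk.frw PT.R) nl RvT (SMap.evl cT tlT PT.vx ringF) [
  .mk 86 11 2 [0x8, 0x380e1ffff],
  .mk 86 11 2 [0x80, 0x9]] = true := by
  decide +kernel

theorem t2 : runX PT.R (Wk.frw PT.R) nl RvT (SMap.evl cT tlT PT.vx ringF) [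
  .mk 86 11 2 [0x80, 0x3ec00]] = true := by
  decide +kernel

theorem t3 : runX PT.R (Wk.frw PT.R) nl RvT (SMap.evl cT tlT PT.vx ringF) [
  .mk 86 11 2 [0x80, 0x813f6],
  .mk 86 11 2 [0x80, 0x40000, 0x993]] = true := by
  decide +kernel

theorem t4 : runX PT.R (Wk.frw PT.R) nl RvT (SMap.evl cT tlT PT.vx ringF) [
  .mk 86 11 2 [0x80, 0x40000, 0x1000]] = true := by
  decide +kernel

theorem t5 : runX PT.R (Wk.frw PT.R) nl RvT (SMap.evl cT tlT PT.vx ringF) [
  .mk 86 11 2 [0x80, 0x40000, 0xfffffe06c],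
  .mk 86 11 2 [0x80, 0x40000, 0x200, 0x1]] = true := by
  decide +kernel

/-- The tasks. -/
noncomputable def P : List (List Tk) := [
[
  .mk 86 11 2 [0x8, 0x7f1e0000]],
[
  .mk 86 11 2 [0x8, 0x380e1ffff],
  .mk 86 11 2 [0x80, 0x9]],
[
  .mk 86 11 2 [0x80, 0x3ec00]],
[
  .mk 86 11 2 [0x80, 0x813f6],
  .mk 86 11 2 [0x80, 0x40000, 0x993]],
[
  .mk 86 11 2 [0x80, 0x40000, 0x1000]],
[
  .mk 86 11 2 [0x80, 0x40000, 0xfffffe06c],
  .mk 86 11 2 [0x80, 0x40000, 0x200, 0x1]]]

theorem run : RunAll (runX PT.R (Wk.frw PT.R) nl RvT (SMap.evl cT tlT PT.vx ringF)) P :=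
  .cons t0 (.cons t1 (.cons t2 (.cons t3 (.cons t4 (.cons t5 (.nil))))))

end Pool.Agent.Lib.MP_5854e1_co.Cz.Sr589
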