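import Pool.Agent.Lib.MP_5854e1_co.Cz.P
import Pool.Agent.Lib.MP_5854e1_co.Tkx
import Pool.Agent.Lib.MP_5854e1_co.RunAll

/-!
# Search, part 233
-/

set_option autoImplicit false
set_option deprecated.oldSectionVars true
set_option maxRecDepth 100000

namespace Pool.Agent.Lib.MP_5854e1_co.Cz.Sr233

open PB

theorem t0 : runX PT.R (Wk.frw PT.R) nl RvT (SMap.evl cT tlT PT.vx ringF) [
  .mk 10 26 18 [0x800, 0x1e00]] = true := by
  decide +kernel

theorem t1 : runX PT.R (Wk.frw PT.R) nl RvT (SMap.evl cT tlT PT.vx ringF) [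
  .mk 10 26 18 [0x800, 0xfffffe06c],
  .mk 11 0 0 [],
  .mk 11 1 1 [],
  .mk 11 2 2 [],
  .mk 11 3 7 [],
  .mk 11 4 8 []] = true := by
  decide +kernel

theorem t2 : runX PT.R (Wk.frw PT.R) nl RvT (SMap.evl cT tlT PT.vx ringF) [
  .mk 11 5 9 [0x9f]] = true := by
  decide +kernel

theorem t3 : runX PT.R (Wk.frw PT.R) nl RvT (SMap.evl cT tlT PT.vx ringF) [
  .mk 11 5 9 [0x100]] = true := by
  decide +kernel

theorem t4 : runX PT.R (Wk.frw PT.R) nl RvT (SMap.evl cT tlT PT.vx ringF) [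
  .mk 11 5 9 [0x3fffffffffe60]] = true := by
  decide +kernel

theorem t5 : runX PT.R (Wk.frw PT.R) nl RvT (SMap.evl cT tlT PT.vx ringF) [
  .mk 11 6 10 [0x3e9ecf]] = true := by
  decide +kernel

theorem t6 : runX PT.R (Wk.frw PT.R) nl RvT (SMap.evl cT tlT PT.vx ringF) [
  .mk 11 6 10 [0x400000]] = true := by
  decide +kernel

/-- The tasks. -/
noncomputable def P : List (List Tk) := [
[
  .mk 10 26 18 [0x800, 0x1e00]],
[
  .mk 10 26 18 [0x800, 0xfffffe06c],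
  .mk 11 0 0 [],
  .mk 11 1 1 [],
  .mk 11 2 2 [],
  .mk 11 3 7 [],
  .mk 11 4 8 []],
[
  .mk 11 5 9 [0x9f]],
[
  .mk 11 5 9 [0x100]],
[
  .mk 11 5 9 [0x3fffffffffe60]],
[
  .mk 11 6 10 [0x3e9ecf]],
[
  .mk 11 6 10 [0x400000]]]

theorem run : RunAll (runX PT.R (Wk.frw PT.R) nl RvT (SMap.evl cT tlT PT.vx ringF)) P :=
  .cons t0 (.cons t1 (.cons t2 (.cons t3 (.cons t4 (.cons t5 (.cons t6 (.nil)))))))

end Pool.Agent.Lib.MP_5854e1_co.Cz.Sr233

namespace Pool.Agent.Lib.MP_5854e1_co.Cz.Sr242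

open PB

theorem t0 : runX PT.R (Wk.frw PT.R) nl RvT (SMap.evl cT tlT PT.vx ringF) [
  .mk 11 13 21 [0x400, 0x800000, 0x100]] = true := by
  decide +kernel

theorem t1 : runX PT.R (Wk.frw PT.R) nl RvT (SMap.evl cT tlT PT.vx ringF) [
  .mk 11 13 21 [0x400, 0x800000, 0x2000]] = true := by
  decide +kernel

theorem t2 : runX PT.R (Wk.frw PT.R) nl RvT (SMap.evl cT tlT PT.vx ringF) [
  .mk 11 13 21 [0x400, 0x800000, 0x8000]] = true := by
  decide +kernel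

theorem t3 : runX PT.R (Wk.frw PT.R) nl RvT (SMap.evl cT tlT PT.vx ringF) [
  .mk 11 13 21 [0x400, 0x800000, 0x40000]] = true := by
  decide +kernel

theorem t4 : runX PT.R (Wk.frw PT.R) nl RvT (SMap.evl cT tlT PT.vx ringF) [
  .mk 11 13 21 [0x400, 0x800000, 0x3fff8586c]] = true := by
  decide +kernel

theorem t5 : runX PT.R (Wk.frw PT.R) nl RvT (SMap.evl cT tlT PT.vx ringF) [
  .mk 11 13 21 [0x400, 0x800000, 0x1, 0xd00000000000000000000000000000000]] = true := by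
  decide +kernel

/-- The tasks. -/
noncomputable def P : List (List Tk) := [
[
  .mk 11 13 21 [0x400, 0x800000, 0x100]],
[
  .mk 11 13 21 [0x400, 0x800000, 0x2000]],
[
  .mk 11 13 21 [0x400, 0x800000, 0x8000]],
[
  .mk 11 13 21 [0x400, 0x800000, 0x40000]],
[
  .mk 11 13 21 [0x400, 0x800000, 0x3fff8586c]],
[
  .mk 11 13 21 [0x400, 0x800000, 0x1, 0xd00000000000000000000000000000000]]]

theorem run : RunAll (runX PT.R (Wk.frw PT.R) nl RvT (SMap.evl cT tlT PT.vx ringF)) P :=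
  .cons t0 (.cons t1 (.cons t2 (.cons t3 (.cons t4 (.cons t5 (.nil))))))

end Pool.Agent.Lib.MP_5854e1_co.Cz.Sr242

namespace Pool.Agent.Lib.MP_5854e1_co.Cz.Sr324

open PB

theorem t0 : runX PT.R (Wk.frw PT.R) nl RvT (SMap.evl cT tlT PT.vx ringF) [
  .mk 16 3 12 [0x1f0000000]] = true := by
  decide +kernel

theorem t1 : runX PT.R (Wk.frw PT.R) nl RvT (SMap.evl cT tlT PT.vx ringF) [
  .mk 16 3 12 [0x200a1fdff],
  .mk 16 4 15 [],
  .mk 16 5 17 [],
  .mk 16 6 18 [],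
  .mk 16 7 39 [],
  .mk 16 8 40 []] = true := by
  decide +kernel

theorem t2 : runX PT.R (Wk.frw PT.R) nl RvT (SMap.evl cT tlT PT.vx ringF) [
  .mk 16 9 41 [0x3]] = true := by
  decide +kernel

theorem t3 : runX PT.R (Wk.frw PT.R) nl RvT (SMap.evl cT tlT PT.vx ringF) [
  .mk 16 9 41 [0x38064]] = true := by
  decide +kernel

theorem t4 : runX PT.R (Wk.frw PT.R) nl RvT (SMap.evl cT tlT PT.vx ringF) [
  .mk 16 9 41 [0x6140000]] = true := by
  decide +kernel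

theorem t5 : runX PT.R (Wk.frw PT.R) nl RvT (SMap.evl cT tlT PT.vx ringF) [
  .mk 16 9 41 [0xf8000000]] = true := by
  decide +kernel

/-- The tasks. -/
noncomputable def P : List (List Tk) := [
[
  .mk 16 3 12 [0x1f0000000]],
[
  .mk 16 3 12 [0x200a1fdff],
  .mk 16 4 15 [],
  .mk 16 5 17 [],
  .mk 16 6 18 [],
  .mk 16 7 39 [],
  .mk 16 8 40 []],
[
  .mk 16 9 41 [0x3]],
[
  .mk 16 9 41 [0x38064]],
[
  .mk 16 9 41 [0x6140000]],
[
  .mk 16 9 41 [0xf8000000]]]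

theorem run : RunAll (runX PT.R (Wk.frw PT.R) nl RvT (SMap.evl cT tlT PT.vx ringF)) P :=
  .cons t0 (.cons t1 (.cons t2 (.cons t3 (.cons t4 (.cons t5 (.nil))))))

end Pool.Agent.Lib.MP_5854e1_co.Cz.Sr324

namespace Pool.Agent.Lib.MP_5854e1_co.Cz.Sr325

open PB

theorem t0 : runX PT.R (Wk.frw PT.R) nl RvT (SMap.evl cT tlT PT.vx ringF) [
  .mk 16 9 41 [0xf01e87f90]] = true := by
  decide +kernel

theorem t1 : runX PT.R (Wk.frw PT.R) nl RvT (SMap.evl cT tlT PT.vx ringF) [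
  .mk 16 9 41 [0x8, 0x4f67a7b3]] = true := by
  decide +kernel

theorem t2 : runX PT.R (Wk.frw PT.R) nl RvT (SMap.evl cT tlT PT.vx ringF) [
  .mk 16 9 41 [0x8, 0x3b098584c],
  .mk 16 10 42 [],
  .mk 16 11 45 []] = true := by
  decide +kernel

theorem t3 : runX PT.R (Wk.frw PT.R) nl RvT (SMap.evl cT tlT PT.vx ringF) [
  .mk 16 12 47 []] = true := by
  decide +kernel

theorem t4 : runX PT.R (Wk.frw PT.R) nl RvT (SMap.evl cT tlT PT.vx ringF) [
  .mk 16 13 48 [0x3dfa7a3]] = true := by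
  decide +kernel

theorem t5 : runX PT.R (Wk.frw PT.R) nl RvT (SMap.evl cT tlT PT.vx ringF) [
  .mk 16 13 48 [0xc00585c]] = true := by
  decide +kernel

theorem t6 : runX PT.R (Wk.frw PT.R) nl RvT (SMap.evl cT tlT PT.vx ringF) [
  .mk 16 13 48 [0x200000, 0x7cc03]] = true := by
  decide +kernel

/-- The tasks. -/
noncomputable def P : List (List Tk) := [
[
  .mk 16 9 41 [0xf01e87f90]],
[
  .mk 16 9 41 [0x8, 0x4f67a7b3]],
[
  .mk 16 9 41 [0x8, 0x3b098584c],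
  .mk 16 10 42 [],
  .mk 16 11 45 []],
[
  .mk 16 12 47 []],
[
  .mk 16 13 48 [0x3dfa7a3]],
[
  .mk 16 13 48 [0xc00585c]],
[
  .mk 16 13 48 [0x200000, 0x7cc03]]]

theorem run : RunAll (runX PT.R (Wk.frw PT.R) nl RvT (SMap.evl cT tlT PT.vx ringF)) P :=
  .cons t0 (.cons t1 (.cons t2 (.cons t3 (.cons t4 (.cons t5 (.cons t6 (.nil)))))))

end Pool.Agent.Lib.MP_5854e1_co.Cz.Sr325
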