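import Pool.Agent.Lib.MP_5854e1_co.Cz.P
import Pool.Agent.Lib.MP_5854e1_co.Tkx
import Pool.Agent.Lib.MP_5854e1_co.RunAll

/-!
# Search, part 235
-/

set_option autoImplicit false
set_option deprecated.oldSectionVars true
set_option maxRecDepth 100000

namespace Pool.Agent.Lib.MP_5854e1_co.Cz.Sr235

open PB

theorem t0 : runX PT.R (Wk.frw PT.R) nl RvT (SMap.evl cT tlT PT.vx ringF) [
  .mk 11 11 3 [0xfffff9950]] = true := by
  decide +kernel

theorem t1 : runX PT.R (Wk.frw PT.R) nl RvT (SMap.evl cT tlT PT.vx ringF) [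
  .mk 11 11 3 [0x8, 0x1a793]] = true := by
  decide +kernel

theorem t2 : runX PT.R (Wk.frw PT.R) nl RvT (SMap.evl cT tlT PT.vx ringF) [
  .mk 11 11 3 [0x8, 0xe0000]] = true := by
  decide +kernel

theorem t3 : runX PT.R (Wk.frw PT.R) nl RvT (SMap.evl cT tlT PT.vx ringF) [
  .mk 11 11 3 [0x8, 0x3fff0586c]] = true := by
  decide +kernel

theorem t4 : runX PT.R (Wk.frw PT.R) nl RvT (SMap.evl cT tlT PT.vx ringF) [
  .mk 11 11 3 [0x200, 0x296478077]] = true := by
  decide +kernel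

theorem t5 : runX PT.R (Wk.frw PT.R) nl RvT (SMap.evl cT tlT PT.vx ringF) [
  .mk 11 11 3 [0x200, 0xd61b87f80]] = true := by
  decide +kernel

/-- The tasks. -/
noncomputable def P : List (List Tk) := [
[
  .mk 11 11 3 [0xfffff9950]],
[
  .mk 11 11 3 [0x8, 0x1a793]],
[
  .mk 11 11 3 [0x8, 0xe0000]],
[
  .mk 11 11 3 [0x8, 0x3fff0586c]],
[
  .mk 11 11 3 [0x200, 0x296478077]],
[
  .mk 11 11 3 [0x200, 0xd61b87f80]]]

theorem run : RunAll (runX PT.R (Wk.frw PT.R) nl RvT (SMap.evl cT tlT PT.vx ringF)) P :=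
  .cons t0 (.cons t1 (.cons t2 (.cons t3 (.cons t4 (.cons t5 (.nil))))))

end Pool.Agent.Lib.MP_5854e1_co.Cz.Sr235

namespace Pool.Agent.Lib.MP_5854e1_co.Cz.Sr426

open PB

theorem t0 : runX PT.R (Wk.frw PT.R) nl RvT (SMap.evl cT tlT PT.vx ringF) [
  .mk 42 21 63 [0x3fdbc0000]] = true := by
  decide +kernel

theorem t1 : runX PT.R (Wk.frw PT.R) nl RvT (SMap.evl cT tlT PT.vx ringF) [
  .mk 42 21 63 [0x1, 0x1ff7f004000000000002000000000000000000000000000000000000000]] = true := by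
  decide +kernel

theorem t2 : runX PT.R (Wk.frw PT.R) nl RvT (SMap.evl cT tlT PT.vx ringF) [
  .mk 42 21 63 [0x1, 0x6c0fb03e0000000000000000000000000000000000000000000000000000000000000000000000000000000000000000000000]] = true := by
  decide +kernel

theorem t3 : runX PT.R (Wk.frw PT.R) nl RvT (SMap.evl cT tlT PT.vx ringF) [
  .mk 42 21 63 [0x1, 0xff93f04fc1fffffffffffffffffffffffffffffffffffe0080ffbfffffffffffdfffffffffffffffffffffffffffffffffffffff]] = true := by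
  decide +kernel

theorem t4 : runX PT.R (Wk.frw PT.R) nl RvT (SMap.evl cT tlT PT.vx ringF) [
  .mk 42 21 63 [0x4, 0x7fdff]] = true := by
  decide +kernel

theorem t5 : runX PT.R (Wk.frw PT.R) nl RvT (SMap.evl cT tlT PT.vx ringF) [
  .mk 42 21 63 [0x4, 0x200, 0x8820000000000000000000000000000000000000cf]] = true := by
  decide +kernel

/-- The tasks. -/
noncomputable def P : List (List Tk) := [
[
  .mk 42 21 63 [0x3fdbc0000]],
[
  .mk 42 21 63 [0x1, 0x1ff7f004000000000002000000000000000000000000000000000000000]],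
[
  .mk 42 21 63 [0x1, 0x6c0fb03e0000000000000000000000000000000000000000000000000000000000000000000000000000000000000000000000]],
[
  .mk 42 21 63 [0x1, 0xff93f04fc1fffffffffffffffffffffffffffffffffffe0080ffbfffffffffffdfffffffffffffffffffffffffffffffffffffff]],
[
  .mk 42 21 63 [0x4, 0x7fdff]],
[
  .mk 42 21 63 [0x4, 0x200, 0x8820000000000000000000000000000000000000cf]]]

theorem run : RunAll (runX PT.R (Wk.frw PT.R) nl RvT (SMap.evl cT tlT PT.vx ringF)) P :=
  .cons t0 (.cons t1 (.cons t2 (.cons t3 (.cons t4 (.cons t5 (.nil))))))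

end Pool.Agent.Lib.MP_5854e1_co.Cz.Sr426

namespace Pool.Agent.Lib.MP_5854e1_co.Cz.Sr447

open PB

theorem t0 : runX PT.R (Wk.frw PT.R) nl RvT (SMap.evl cT tlT PT.vx ringF) [
  .mk 43 4 26 [],
  .mk 43 5 27 [],
  .mk 43 6 28 [],
  .mk 43 7 30 []] = true := by
  decide +kernel

theorem t1 : runX PT.R (Wk.frw PT.R) nl RvT (SMap.evl cT tlT PT.vx ringF) [
  .mk 43 8 32 [],
  .mk 43 9 50 []] = true := by
  decide +kernel

theorem t2 : runX PT.R (Wk.frw PT.R) nl RvT (SMap.evl cT tlT PT.vx ringF) [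
  .mk 43 10 51 []] = true := by
  decide +kernel

theorem t3 : runX PT.R (Wk.frw PT.R) nl RvT (SMap.evl cT tlT PT.vx ringF) [
  .mk 43 11 52 [0x1d2]] = true := by
  decide +kernel

theorem t4 : runX PT.R (Wk.frw PT.R) nl RvT (SMap.evl cT tlT PT.vx ringF) [
  .mk 43 11 52 [0x219e00]] = true := by
  decide +kernel

/-- The tasks. -/
noncomputable def P : List (List Tk) := [
[
  .mk 43 4 26 [],
  .mk 43 5 27 [],
  .mk 43 6 28 [],
  .mk 43 7 30 []],
[
  .mk 43 8 32 [],
  .mk 43 9 50 []],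
[
  .mk 43 10 51 []],
[
  .mk 43 11 52 [0x1d2]],
[
  .mk 43 11 52 [0x219e00]]]

theorem run : RunAll (runX PT.R (Wk.frw PT.R) nl RvT (SMap.evl cT tlT PT.vx ringF)) P :=
  .cons t0 (.cons t1 (.cons t2 (.cons t3 (.cons t4 (.nil)))))

end Pool.Agent.Lib.MP_5854e1_co.Cz.Sr447
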