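import Pool.Agent.Lib.MP_5854e1_co.Cz.P
import Pool.Agent.Lib.MP_5854e1_co.Tkx
import Pool.Agent.Lib.MP_5854e1_co.RunAll

/-!
# Search, part 240
-/

set_option autoImplicit false
set_option deprecated.oldSectionVars true
set_option maxRecDepth 100000

namespace Pool.Agent.Lib.MP_5854e1_co.Cz.Sr240

open PB

theorem t0 : runX PT.R (Wk.frw PT.R) nl RvT (SMap.evl cT tlT PT.vx ringF) [
  .mk 11 13 21 [0x200, 0x1, 0x3fe000000002000000000000000000000000000000000000000]] = true := by
  decide +kernel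

theorem t1 : runX PT.R (Wk.frw PT.R) nl RvT (SMap.evl cT tlT PT.vx ringF) [
  .mk 11 13 21 [0x200, 0x1, 0xfffffffffffffffffffffffffffffffffffffffffffffffffffffc01ffffffffdfffffffffffffffffffffffffffffffffffffff]] = true := by
  decide +kernel

theorem t2 : runX PT.R (Wk.frw PT.R) nl RvT (SMap.evl cT tlT PT.vx ringF) [
  .mk 11 13 21 [0x200, 0x4, 0x3768b]] = true := by
  decide +kernel

theorem t3 : runX PT.R (Wk.frw PT.R) nl RvT (SMap.evl cT tlT PT.vx ringF) [
  .mk 11 13 21 [0x200, 0x4, 0x7c8974],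
  .mk 11 13 21 [0x400, 0x700000]] = true := by
  decide +kernel

theorem t4 : runX PT.R (Wk.frw PT.R) nl RvT (SMap.evl cT tlT PT.vx ringF) [
  .mk 11 13 21 [0x400, 0x3ffffed03ffff]] = true := by
  decide +kernel

theorem t5 : runX PT.R (Wk.frw PT.R) nl RvT (SMap.evl cT tlT PT.vx ringF) [
  .mk 11 13 21 [0x400, 0x40000, 0x7fffe0000000000000000000000000000000000000000000000000000000000]] = true := by
  decide +kernel

/-- The tasks. -/
noncomputable def P : List (List Tk) := [
[
  .mk 11 13 21 [0x200, 0x1, 0x3fe000000002000000000000000000000000000000000000000]],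
[
  .mk 11 13 21 [0x200, 0x1, 0xfffffffffffffffffffffffffffffffffffffffffffffffffffffc01ffffffffdfffffffffffffffffffffffffffffffffffffff]],
[
  .mk 11 13 21 [0x200, 0x4, 0x3768b]],
[
  .mk 11 13 21 [0x200, 0x4, 0x7c8974],
  .mk 11 13 21 [0x400, 0x700000]],
[
  .mk 11 13 21 [0x400, 0x3ffffed03ffff]],
[
  .mk 11 13 21 [0x400, 0x40000, 0x7fffe0000000000000000000000000000000000000000000000000000000000]]]

theorem run : RunAll (runX PT.R (Wk.frw PT.R) nl RvT (SMap.evl cT tlT PT.vx ringF)) P :=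
  .cons t0 (.cons t1 (.cons t2 (.cons t3 (.cons t4 (.cons t5 (.nil))))))

end Pool.Agent.Lib.MP_5854e1_co.Cz.Sr240

namespace Pool.Agent.Lib.MP_5854e1_co.Cz.Sr567

open PB

theorem t0 : runX PT.R (Wk.frw PT.R) nl RvT (SMap.evl cT tlT PT.vx ringF) [
  .mk 68 15 23 [0x400000, 0x2000, 0x1, 0x200000000000000000000, 0xfffffffffffffffffffffffeffffffffffffffffffffffffffffffffffffffffffffffffffffffffffffffffffffffffffffffff],
  .mk 68 15 23 [0x400000, 0x2000, 0x1, 0x200000000000000000000, 0x100000000000000000000000000000000000000000000000000000000000000000000000000000000, 0x200000000000000008401]] = true := by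
  decide +kernel

theorem t1 : runX PT.R (Wk.frw PT.R) nl RvT (SMap.evl cT tlT PT.vx ringF) [
  .mk 68 15 23 [0x400000, 0x2000, 0x1, 0x200000000000000000000, 0x100000000000000000000000000000000000000000000000000000000000000000000000000000000, 0x8000000000000000000000]] = true := by
  decide +kernel

theorem t2 : runX PT.R (Wk.frw PT.R) nl RvT (SMap.evl cT tlT PT.vx ringF) [
  .mk 68 15 23 [0x400000, 0x2000, 0x1, 0x200000000000000000000, 0x100000000000000000000000000000000000000000000000000000000000000000000000000000000, 0xffffffffffffffffffffffffffffffffffffffffffffffffffffffffffffffffffffffffffffffffff7dffffffffffffffff7bfe]] = true := by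
  decide +kernel

/-- The tasks. -/
noncomputable def P : List (List Tk) := [
[
  .mk 68 15 23 [0x400000, 0x2000, 0x1, 0x200000000000000000000, 0xfffffffffffffffffffffffeffffffffffffffffffffffffffffffffffffffffffffffffffffffffffffffffffffffffffffffff],
  .mk 68 15 23 [0x400000, 0x2000, 0x1, 0x200000000000000000000, 0x100000000000000000000000000000000000000000000000000000000000000000000000000000000, 0x200000000000000008401]],
[
  .mk 68 15 23 [0x400000, 0x2000, 0x1, 0x200000000000000000000, 0x100000000000000000000000000000000000000000000000000000000000000000000000000000000, 0x8000000000000000000000]],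
[
  .mk 68 15 23 [0x400000, 0x2000, 0x1, 0x200000000000000000000, 0x100000000000000000000000000000000000000000000000000000000000000000000000000000000, 0xffffffffffffffffffffffffffffffffffffffffffffffffffffffffffffffffffffffffffffffffff7dffffffffffffffff7bfe]]]

theorem run : RunAll (runX PT.R (Wk.frw PT.R) nl RvT (SMap.evl cT tlT PT.vx ringF)) P :=
  .cons t0 (.cons t1 (.cons t2 (.nil)))

end Pool.Agent.Lib.MP_5854e1_co.Cz.Sr567

namespace Pool.Agent.Lib.MP_5854e1_co.Cz.Sr578

open PB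

theorem t0 : runX PT.R (Wk.frw PT.R) nl RvT (SMap.evl cT tlT PT.vx ringF) [
  .mk 77 8 21 [0xffffffe12],
  .mk 77 9 22 [],
  .mk 77 10 23 [],
  .mk 77 11 28 [],
  .mk 77 12 29 [],
  .mk 78 0 0 [],
  .mk 78 1 7 [],
  .mk 78 2 15 [],
  .mk 78 5 0 [],
  .mk 78 6 1 [],
  .mk 78 7 20 []] = true := by
  decide +kernel

theorem t1 : runX PT.R (Wk.frw PT.R) nl RvT (SMap.evl cT tlT PT.vx ringF) [
  .mk 78 8 21 [0x69]] = true := by
  decide +kernel

theorem t2 : runX PT.R (Wk.frw PT.R) nl RvT (SMap.evl cT tlT PT.vx ringF) [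
  .mk 78 8 21 [0x1780]] = true := by
  decide +kernel

theorem t3 : runX PT.R (Wk.frw PT.R) nl RvT (SMap.evl cT tlT PT.vx ringF) [
  .mk 78 8 21 [0xfffffe816],
  .mk 78 9 22 [],
  .mk 78 10 23 [],
  .mk 78 11 28 [],
  .mk 78 12 29 []] = true := by
  decide +kernel

theorem t4 : runX PT.R (Wk.frw PT.R) nl RvT (SMap.evl cT tlT PT.vx ringF) [
  .mk 79 0 0 [],
  .mk 79 1 1 [],
  .mk 79 2 3 [],
  .mk 79 3 20 []] = true := by
  decide +kernel

theorem t5 : runX PT.R (Wk.frw PT.R) nl RvT (SMap.evl cT tlT PT.vx ringF) [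
  .mk 79 4 21 [0x1fc1]] = true := by
  decide +kernel

/-- The tasks. -/
noncomputable def P : List (List Tk) := [
[
  .mk 77 8 21 [0xffffffe12],
  .mk 77 9 22 [],
  .mk 77 10 23 [],
  .mk 77 11 28 [],
  .mk 77 12 29 [],
  .mk 78 0 0 [],
  .mk 78 1 7 [],
  .mk 78 2 15 [],
  .mk 78 5 0 [],
  .mk 78 6 1 [],
  .mk 78 7 20 []],
[
  .mk 78 8 21 [0x69]],
[
  .mk 78 8 21 [0x1780]],
[
  .mk 78 8 21 [0xfffffe816],
  .mk 78 9 22 [],
  .mk 78 10 23 [],
  .mk 78 11 28 [],
  .mk 78 12 29 []],
[
  .mk 79 0 0 [],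
  .mk 79 1 1 [],
  .mk 79 2 3 [],
  .mk 79 3 20 []],
[
  .mk 79 4 21 [0x1fc1]]]

theorem run : RunAll (runX PT.R (Wk.frw PT.R) nl RvT (SMap.evl cT tlT PT.vx ringF)) P :=
  .cons t0 (.cons t1 (.cons t2 (.cons t3 (.cons t4 (.cons t5 (.nil))))))

end Pool.Agent.Lib.MP_5854e1_co.Cz.Sr578

namespace Pool.Agent.Lib.MP_5854e1_co.Cz.Sr590

open PB

theorem t0 : runX PT.R (Wk.frw PT.R) nl RvT (SMap.evl cT tlT PT.vx ringF) [
  .mk 86 11 2 [0x80, 0x40000, 0x200, 0x98012]] = true := by
  decide +kernel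

theorem t1 : runX PT.R (Wk.frw PT.R) nl RvT (SMap.evl cT tlT PT.vx ringF) [
  .mk 86 11 2 [0x80, 0x40000, 0x200, 0xffff67fec],
  .mk 86 11 2 [0x80, 0x40000, 0x400, 0x3800000000]] = true := by
  decide +kernel

theorem t2 : runX PT.R (Wk.frw PT.R) nl RvT (SMap.evl cT tlT PT.vx ringF) [
  .mk 86 11 2 [0x80, 0x40000, 0x400, 0x3ff47fffbffff]] = true := by
  decide +kernel

theorem t3 : runX PT.R (Wk.frw PT.R) nl RvT (SMap.evl cT tlT PT.vx ringF) [
  .mk 86 11 2 [0x80, 0x40000, 0x400, 0x40000, 0x3d0000000000000000000000000000000000000000000000000000000000000000000000000]] = true := by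
  decide +kernel

theorem t4 : runX PT.R (Wk.frw PT.R) nl RvT (SMap.evl cT tlT PT.vx ringF) [
  .mk 86 11 2 [0x80, 0x40000, 0x400, 0x40000, 0x3c0000000000000000000000000000000000000000000000000000000000000000000000000000]] = true := by
  decide +kernel

/-- The tasks. -/
noncomputable def P : List (List Tk) := [
[
  .mk 86 11 2 [0x80, 0x40000, 0x200, 0x98012]],
[
  .mk 86 11 2 [0x80, 0x40000, 0x200, 0xffff67fec],
  .mk 86 11 2 [0x80, 0x40000, 0x400, 0x3800000000]],
[
  .mk 86 11 2 [0x80, 0x40000, 0x400, 0x3ff47fffbffff]],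
[
  .mk 86 11 2 [0x80, 0x40000, 0x400, 0x40000, 0x3d0000000000000000000000000000000000000000000000000000000000000000000000000]],
[
  .mk 86 11 2 [0x80, 0x40000, 0x400, 0x40000, 0x3c0000000000000000000000000000000000000000000000000000000000000000000000000000]]]

theorem run : RunAll (runX PT.R (Wk.frw PT.R) nl RvT (SMap.evl cT tlT PT.vx ringF)) P :=
  .cons t0 (.cons t1 (.cons t2 (.cons t3 (.cons t4 (.nil)))))

end Pool.Agent.Lib.MP_5854e1_co.Cz.Sr590
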