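import Pool.Agent.Lib.MP_5854e1_co.Cz.P
import Pool.Agent.Lib.MP_5854e1_co.Tkx
import Pool.Agent.Lib.MP_5854e1_co.RunAll

/-!
# Search, part 241
-/

set_option autoImplicit false
set_option deprecated.oldSectionVars true
set_option maxRecDepth 100000

namespace Pool.Agent.Lib.MP_5854e1_co.Cz.Sr241

open PB

theorem t0 : runX PT.R (Wk.frw PT.R) nl RvT (SMap.evl cT tlT PT.vx ringF) [
  .mk 11 13 21 [0x400, 0x40000, 0x3c00000000000000001f800000000000000000000000000000000000000000000000000000000000000]] = true := by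
  decide +kernel

theorem t1 : runX PT.R (Wk.frw PT.R) nl RvT (SMap.evl cT tlT PT.vx ringF) [
  .mk 11 13 21 [0x400, 0x40000, 0x7e0c0000000000000000000000000000000000000000000000000000000000000000000000000000000000]] = true := by
  decide +kernel

theorem t2 : runX PT.R (Wk.frw PT.R) nl RvT (SMap.evl cT tlT PT.vx ringF) [
  .mk 11 13 21 [0x400, 0x40000, 0xffffffffffffffffff81f03ffffffffffffffffe000001ffffffffffffffffffffffffffffffffffffffffffffffffffffffffff]] = true := by
  decide +kernel

theorem t3 : runX PT.R (Wk.frw PT.R) nl RvT (SMap.evl cT tlT PT.vx ringF) [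
  .mk 11 13 21 [0x400, 0x80000, 0x117f]] = true := by
  decide +kernel

theorem t4 : runX PT.R (Wk.frw PT.R) nl RvT (SMap.evl cT tlT PT.vx ringF) [
  .mk 11 13 21 [0x400, 0x80000, 0x6c000]] = true := by
  decide +kernel

theorem t5 : runX PT.R (Wk.frw PT.R) nl RvT (SMap.evl cT tlT PT.vx ringF) [
  .mk 11 13 21 [0x400, 0x80000, 0x792e80],
  .mk 11 13 21 [0x400, 0x800000, 0x10]] = true := by
  decide +kernel

/-- The tasks. -/
noncomputable def P : List (List Tk) := [
[
  .mk 11 13 21 [0x400, 0x40000, 0x3c00000000000000001f800000000000000000000000000000000000000000000000000000000000000]],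
[
  .mk 11 13 21 [0x400, 0x40000, 0x7e0c0000000000000000000000000000000000000000000000000000000000000000000000000000000000]],
[
  .mk 11 13 21 [0x400, 0x40000, 0xffffffffffffffffff81f03ffffffffffffffffe000001ffffffffffffffffffffffffffffffffffffffffffffffffffffffffff]],
[
  .mk 11 13 21 [0x400, 0x80000, 0x117f]],
[
  .mk 11 13 21 [0x400, 0x80000, 0x6c000]],
[
  .mk 11 13 21 [0x400, 0x80000, 0x792e80],
  .mk 11 13 21 [0x400, 0x800000, 0x10]]]

theorem run : RunAll (runX PT.R (Wk.frw PT.R) nl RvT (SMap.evl cT tlT PT.vx ringF)) P :=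
  .cons t0 (.cons t1 (.cons t2 (.cons t3 (.cons t4 (.cons t5 (.nil))))))

end Pool.Agent.Lib.MP_5854e1_co.Cz.Sr241

namespace Pool.Agent.Lib.MP_5854e1_co.Cz.Sr255

open PB

theorem t0 : runX PT.R (Wk.frw PT.R) nl RvT (SMap.evl cT tlT PT.vx ringF) [
  .mk 11 13 21 [0x400, 0x800000, 0x200, 0x8000, 0x2000000000000000000000000000000000000000, 0x800000000000000000000000000000000000000000000000000000000000000000000000000000000000000000000]] = true := by
  decide +kernel

theorem t1 : runX PT.R (Wk.frw PT.R) nl RvT (SMap.evl cT tlT PT.vx ringF) [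
  .mk 11 13 21 [0x400, 0x800000, 0x200, 0x8000, 0x2000000000000000000000000000000000000000, 0x4000000006000000000000000000000000000000000000000000000000000000000000000000000000000000000000000000000]] = true := by
  decide +kernel

/-- The tasks. -/
noncomputable def P : List (List Tk) := [
[
  .mk 11 13 21 [0x400, 0x800000, 0x200, 0x8000, 0x2000000000000000000000000000000000000000, 0x800000000000000000000000000000000000000000000000000000000000000000000000000000000000000000000]],
[
  .mk 11 13 21 [0x400, 0x800000, 0x200, 0x8000, 0x2000000000000000000000000000000000000000, 0x4000000006000000000000000000000000000000000000000000000000000000000000000000000000000000000000000000000]]]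

theorem run : RunAll (runX PT.R (Wk.frw PT.R) nl RvT (SMap.evl cT tlT PT.vx ringF)) P :=
  .cons t0 (.cons t1 (.nil))

end Pool.Agent.Lib.MP_5854e1_co.Cz.Sr255

namespace Pool.Agent.Lib.MP_5854e1_co.Cz.Sr282

open PB

theorem t0 : runX PT.R (Wk.frw PT.R) nl RvT (SMap.evl cT tlT PT.vx ringF) [
  .mk 12 24 50 [0x3c1]] = true := by
  decide +kernel

theorem t1 : runX PT.R (Wk.frw PT.R) nl RvT (SMap.evl cT tlT PT.vx ringF) [
  .mk 12 24 50 [0x1d400]] = true := by
  decide +kernel

theorem t2 : runX PT.R (Wk.frw PT.R) nl RvT (SMap.evl cT tlT PT.vx ringF) [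
  .mk 12 24 50 [0xa283e],
  .mk 12 24 50 [0x40000, 0x3]] = true := by
  decide +kernel

theorem t3 : runX PT.R (Wk.frw PT.R) nl RvT (SMap.evl cT tlT PT.vx ringF) [
  .mk 12 24 50 [0x40000, 0xffffffff4]] = true := by
  decide +kernel

theorem t4 : runX PT.R (Wk.frw PT.R) nl RvT (SMap.evl cT tlT PT.vx ringF) [
  .mk 12 24 50 [0x40000, 0x8, 0x7260033]] = true := by
  decide +kernel

theorem t5 : runX PT.R (Wk.frw PT.R) nl RvT (SMap.evl cT tlT PT.vx ringF) [
  .mk 12 24 50 [0x40000, 0x8, 0x3f8d9ffcc]] = true := by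
  decide +kernel

/-- The tasks. -/
noncomputable def P : List (List Tk) := [
[
  .mk 12 24 50 [0x3c1]],
[
  .mk 12 24 50 [0x1d400]],
[
  .mk 12 24 50 [0xa283e],
  .mk 12 24 50 [0x40000, 0x3]],
[
  .mk 12 24 50 [0x40000, 0xffffffff4]],
[
  .mk 12 24 50 [0x40000, 0x8, 0x7260033]],
[
  .mk 12 24 50 [0x40000, 0x8, 0x3f8d9ffcc]]]

theorem run : RunAll (runX PT.R (Wk.frw PT.R) nl RvT (SMap.evl cT tlT PT.vx ringF)) P :=
  .cons t0 (.cons t1 (.cons t2 (.cons t3 (.cons t4 (.cons t5 (.nil))))))

end Pool.Agent.Lib.MP_5854e1_co.Cz.Sr282
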