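import Pool.Agent.Lib.MP_5854e1_co.Cz.P
import Pool.Agent.Lib.MP_5854e1_co.Tkx
import Pool.Agent.Lib.MP_5854e1_co.RunAll

/-!
# Search, part 245
-/

set_option autoImplicit false
set_option deprecated.oldSectionVars true
set_option maxRecDepth 100000

namespace Pool.Agent.Lib.MP_5854e1_co.Cz.Sr245

open PB

theorem t0 : runX PT.R (Wk.frw PT.R) nl RvT (SMap.evl cT tlT PT.vx ringF) [
  .mk 11 13 21 [0x400, 0x800000, 0x1, 0x200000000000000000000, 0x800000000000000000000000000000000000000000000000000000000000000000, 0x200000000000000000000]] = true := by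
  decide +kernel

/-- The tasks. -/
noncomputable def P : List (List Tk) := [
[
  .mk 11 13 21 [0x400, 0x800000, 0x1, 0x200000000000000000000, 0x800000000000000000000000000000000000000000000000000000000000000000, 0x200000000000000000000]]]

theorem run : RunAll (runX PT.R (Wk.frw PT.R) nl RvT (SMap.evl cT tlT PT.vx ringF)) P :=
  .cons t0 (.nil)

end Pool.Agent.Lib.MP_5854e1_co.Cz.Sr245

namespace Pool.Agent.Lib.MP_5854e1_co.Cz.Sr291

open PB

theorem t0 : runX PT.R (Wk.frw PT.R) nl RvT (SMap.evl cT tlT PT.vx ringF) [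
  .mk 12 27 53 [0x10000000, 0x4000, 0x100, 0x7fefff]] = true := by
  decide +kernel

theorem t1 : runX PT.R (Wk.frw PT.R) nl RvT (SMap.evl cT tlT PT.vx ringF) [
  .mk 12 27 53 [0x10000000, 0x4000, 0x100, 0x1000, 0x1000000001]] = true := by
  decide +kernel

theorem t2 : runX PT.R (Wk.frw PT.R) nl RvT (SMap.evl cT tlT PT.vx ringF) [
  .mk 12 27 53 [0x10000000, 0x4000, 0x100, 0x1000, 0xfffffffffffffffffffffffffffffffffffffffffffffffffffffffffffffeffffffffe]] = true := by
  decide +kernel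

theorem t3 : runX PT.R (Wk.frw PT.R) nl RvT (SMap.evl cT tlT PT.vx ringF) [
  .mk 12 28 54 [0x6cf]] = true := by
  decide +kernel

theorem t4 : runX PT.R (Wk.frw PT.R) nl RvT (SMap.evl cT tlT PT.vx ringF) [
  .mk 12 28 54 [0x29800]] = true := by
  decide +kernel

theorem t5 : runX PT.R (Wk.frw PT.R) nl RvT (SMap.evl cT tlT PT.vx ringF) [
  .mk 12 28 54 [0xc0000]] = true := by
  decide +kernel

/-- The tasks. -/
noncomputable def P : List (List Tk) := [
[
  .mk 12 27 53 [0x10000000, 0x4000, 0x100, 0x7fefff]],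
[
  .mk 12 27 53 [0x10000000, 0x4000, 0x100, 0x1000, 0x1000000001]],
[
  .mk 12 27 53 [0x10000000, 0x4000, 0x100, 0x1000, 0xfffffffffffffffffffffffffffffffffffffffffffffffffffffffffffffeffffffffe]],
[
  .mk 12 28 54 [0x6cf]],
[
  .mk 12 28 54 [0x29800]],
[
  .mk 12 28 54 [0xc0000]]]

theorem run : RunAll (runX PT.R (Wk.frw PT.R) nl RvT (SMap.evl cT tlT PT.vx ringF)) P :=
  .cons t0 (.cons t1 (.cons t2 (.cons t3 (.cons t4 (.cons t5 (.nil))))))

end Pool.Agent.Lib.MP_5854e1_co.Cz.Sr291
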