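import Pool.Agent.Lib.MP_5854e1_co.Cz.P
import Pool.Agent.Lib.MP_5854e1_co.Tkx
import Pool.Agent.Lib.MP_5854e1_co.RunAll

/-!
# Search, part 249
-/

set_option autoImplicit false
set_option deprecated.oldSectionVars true
set_option maxRecDepth 100000

namespace Pool.Agent.Lib.MP_5854e1_co.Cz.Sr249

open PB

theorem t0 : runX PT.R (Wk.frw PT.R) nl RvT (SMap.evl cT tlT PT.vx ringF) [
  .mk 11 13 21 [0x400, 0x800000, 0x1, 0x100000000000000000000000000000000000000000000000000000000000000000000000000000000000, 0x200000000000000000000, 0xffffffffffffffffffffffffffffffffffffffffffffffffffffffffffffffffffffffffffffffffffffffffff6ffffffffffffe]] = true := by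
  decide +kernel

/-- The tasks. -/
noncomputable def P : List (List Tk) := [
[
  .mk 11 13 21 [0x400, 0x800000, 0x1, 0x100000000000000000000000000000000000000000000000000000000000000000000000000000000000, 0x200000000000000000000, 0xffffffffffffffffffffffffffffffffffffffffffffffffffffffffffffffffffffffffffffffffffffffffff6ffffffffffffe]]]

theorem run : RunAll (runX PT.R (Wk.frw PT.R) nl RvT (SMap.evl cT tlT PT.vx ringF)) P :=
  .cons t0 (.nil)

end Pool.Agent.Lib.MP_5854e1_co.Cz.Sr249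

namespace Pool.Agent.Lib.MP_5854e1_co.Cz.Sr503

open PB

theorem t0 : runX PT.R (Wk.frw PT.R) nl RvT (SMap.evl cT tlT PT.vx ringF) [
  .mk 61 9 21 [0x400, 0x800000, 0x180]] = true := by
  decide +kernel

theorem t1 : runX PT.R (Wk.frw PT.R) nl RvT (SMap.evl cT tlT PT.vx ringF) [
  .mk 61 9 21 [0x400, 0x800000, 0x3fffffe6c]] = true := by
  decide +kernel

theorem t2 : runX PT.R (Wk.frw PT.R) nl RvT (SMap.evl cT tlT PT.vx ringF) [
  .mk 61 9 21 [0x400, 0x10000000, 0xe8f]] = true := by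
  decide +kernel

theorem t3 : runX PT.R (Wk.frw PT.R) nl RvT (SMap.evl cT tlT PT.vx ringF) [
  .mk 61 9 21 [0x400, 0x10000000, 0x7ff170]] = true := by
  decide +kernel

theorem t4 : runX PT.R (Wk.frw PT.R) nl RvT (SMap.evl cT tlT PT.vx ringF) [
  .mk 61 9 21 [0x4000, 0x800804f]] = true := by
  decide +kernel

theorem t5 : runX PT.R (Wk.frw PT.R) nl RvT (SMap.evl cT tlT PT.vx ringF) [
  .mk 61 9 21 [0x4000, 0xff7ff7fb0],
  .mk 61 10 22 [],
  .mk 61 11 23 [0xe9ecf]] = true := by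
  decide +kernel

/-- The tasks. -/
noncomputable def P : List (List Tk) := [
[
  .mk 61 9 21 [0x400, 0x800000, 0x180]],
[
  .mk 61 9 21 [0x400, 0x800000, 0x3fffffe6c]],
[
  .mk 61 9 21 [0x400, 0x10000000, 0xe8f]],
[
  .mk 61 9 21 [0x400, 0x10000000, 0x7ff170]],
[
  .mk 61 9 21 [0x4000, 0x800804f]],
[
  .mk 61 9 21 [0x4000, 0xff7ff7fb0],
  .mk 61 10 22 [],
  .mk 61 11 23 [0xe9ecf]]]

theorem run : RunAll (runX PT.R (Wk.frw PT.R) nl RvT (SMap.evl cT tlT PT.vx ringF)) P :=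
  .cons t0 (.cons t1 (.cons t2 (.cons t3 (.cons t4 (.cons t5 (.nil))))))

end Pool.Agent.Lib.MP_5854e1_co.Cz.Sr503

namespace Pool.Agent.Lib.MP_5854e1_co.Cz.Sr597

open PB

theorem t0 : runX PT.R (Wk.frw PT.R) nl RvT (SMap.evl cT tlT PT.vx ringF) [
  .mk 88 23 12 [0x4000000, 0x3803f]] = true := by
  decide +kernel

theorem t1 : runX PT.R (Wk.frw PT.R) nl RvT (SMap.evl cT tlT PT.vx ringF) [
  .mk 88 23 12 [0x4000000, 0xffffc7fc0]] = true := by
  decide +kernel

theorem t2 : runX PT.R (Wk.frw PT.R) nl RvT (SMap.evl cT tlT PT.vx ringF) [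
  .mk 88 23 12 [0x8000000, 0x3ffffff7fffff]] = true := by
  decide +kernel

theorem t3 : runX PT.R (Wk.frw PT.R) nl RvT (SMap.evl cT tlT PT.vx ringF) [
  .mk 88 23 12 [0x8000000, 0x800000, 0x3260033]] = true := by
  decide +kernel

theorem t4 : runX PT.R (Wk.frw PT.R) nl RvT (SMap.evl cT tlT PT.vx ringF) [
  .mk 88 23 12 [0x8000000, 0x800000, 0x3fcd9ffcc],
  .mk 88 24 13 []] = true := by
  decide +kernel

theorem t5 : runX PT.R (Wk.frw PT.R) nl RvT (SMap.evl cT tlT PT.vx ringF) [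
  .mk 88 25 14 [0x3f3fffff]] = true := by
  decide +kernel

/-- The tasks. -/
noncomputable def P : List (List Tk) := [
[
  .mk 88 23 12 [0x4000000, 0x3803f]],
[
  .mk 88 23 12 [0x4000000, 0xffffc7fc0]],
[
  .mk 88 23 12 [0x8000000, 0x3ffffff7fffff]],
[
  .mk 88 23 12 [0x8000000, 0x800000, 0x3260033]],
[
  .mk 88 23 12 [0x8000000, 0x800000, 0x3fcd9ffcc],
  .mk 88 24 13 []],
[
  .mk 88 25 14 [0x3f3fffff]]]

theorem run : RunAll (runX PT.R (Wk.frw PT.R) nl RvT (SMap.evl cT tlT PT.vx ringF)) P :=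
  .cons t0 (.cons t1 (.cons t2 (.cons t3 (.cons t4 (.cons t5 (.nil))))))

end Pool.Agent.Lib.MP_5854e1_co.Cz.Sr597
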