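import Pool.Agent.Lib.MP_5854e1_co.Cz.P
import Pool.Agent.Lib.MP_5854e1_co.Tkx
import Pool.Agent.Lib.MP_5854e1_co.RunAll

/-!
# Search, part 251
-/

set_option autoImplicit false
set_option deprecated.oldSectionVars true
set_option maxRecDepth 100000

namespace Pool.Agent.Lib.MP_5854e1_co.Cz.Sr251

open PB

theorem t0 : runX PT.R (Wk.frw PT.R) nl RvT (SMap.evl cT tlT PT.vx ringF) [
  .mk 11 13 21 [0x400, 0x800000, 0x80, 0x400, 0x90000000000001]] = true := by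
  decide +kernel

theorem t1 : runX PT.R (Wk.frw PT.R) nl RvT (SMap.evl cT tlT PT.vx ringF) [
  .mk 11 13 21 [0x400, 0x800000, 0x80, 0x400, 0xffffffffffffffffffffffffffffffffffffffffffffffffffffffffffffffffffffffffffffffffffffffffff6ffffffffffffe]] = true := by
  decide +kernel

theorem t2 : runX PT.R (Wk.frw PT.R) nl RvT (SMap.evl cT tlT PT.vx ringF) [
  .mk 11 13 21 [0x400, 0x800000, 0x200, 0x2]] = true := by
  decide +kernel

theorem t3 : runX PT.R (Wk.frw PT.R) nl RvT (SMap.evl cT tlT PT.vx ringF) [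
  .mk 11 13 21 [0x400, 0x800000, 0x200, 0xfffff7ffc]] = true := by
  decide +kernel

theorem t4 : runX PT.R (Wk.frw PT.R) nl RvT (SMap.evl cT tlT PT.vx ringF) [
  .mk 11 13 21 [0x400, 0x800000, 0x200, 0x1, 0xffffffffffffffffffffffffffffffffffffffffffffffffffffffffffffffffffffffeffffffffffffdffffffffffffffffffff]] = true := by
  decide +kernel

/-- The tasks. -/
noncomputable def P : List (List Tk) := [
[
  .mk 11 13 21 [0x400, 0x800000, 0x80, 0x400, 0x90000000000001]],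
[
  .mk 11 13 21 [0x400, 0x800000, 0x80, 0x400, 0xffffffffffffffffffffffffffffffffffffffffffffffffffffffffffffffffffffffffffffffffffffffffff6ffffffffffffe]],
[
  .mk 11 13 21 [0x400, 0x800000, 0x200, 0x2]],
[
  .mk 11 13 21 [0x400, 0x800000, 0x200, 0xfffff7ffc]],
[
  .mk 11 13 21 [0x400, 0x800000, 0x200, 0x1, 0xffffffffffffffffffffffffffffffffffffffffffffffffffffffffffffffffffffffeffffffffffffdffffffffffffffffffff]]]

theorem run : RunAll (runX PT.R (Wk.frw PT.R) nl RvT (SMap.evl cT tlT PT.vx ringF)) P :=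
  .cons t0 (.cons t1 (.cons t2 (.cons t3 (.cons t4 (.nil)))))

end Pool.Agent.Lib.MP_5854e1_co.Cz.Sr251

namespace Pool.Agent.Lib.MP_5854e1_co.Cz.Sr268

open PB

theorem t0 : runX PT.R (Wk.frw PT.R) nl RvT (SMap.evl cT tlT PT.vx ringF) [
  .mk 11 14 22 [0x20, 0x8, 0x400000, 0x168b]] = true := by
  decide +kernel

theorem t1 : runX PT.R (Wk.frw PT.R) nl RvT (SMap.evl cT tlT PT.vx ringF) [
  .mk 11 14 22 [0x20, 0x8, 0x400000, 0x7fe974],
  .mk 11 14 22 [0x400, 0x7f9fff]] = true := by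
  decide +kernel

theorem t2 : runX PT.R (Wk.frw PT.R) nl RvT (SMap.evl cT tlT PT.vx ringF) [
  .mk 11 14 22 [0x400, 0x2000, 0x1f]] = true := by
  decide +kernel

theorem t3 : runX PT.R (Wk.frw PT.R) nl RvT (SMap.evl cT tlT PT.vx ringF) [
  .mk 11 14 22 [0x400, 0x2000, 0xfffffffe0]] = true := by
  decide +kernel

theorem t4 : runX PT.R (Wk.frw PT.R) nl RvT (SMap.evl cT tlT PT.vx ringF) [
  .mk 11 14 22 [0x400, 0x4000, 0x3fffffffffeff]] = true := by
  decide +kernel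

theorem t5 : runX PT.R (Wk.frw PT.R) nl RvT (SMap.evl cT tlT PT.vx ringF) [
  .mk 11 14 22 [0x400, 0x4000, 0x100, 0x7fefff]] = true := by
  decide +kernel

/-- The tasks. -/
noncomputable def P : List (List Tk) := [
[
  .mk 11 14 22 [0x20, 0x8, 0x400000, 0x168b]],
[
  .mk 11 14 22 [0x20, 0x8, 0x400000, 0x7fe974],
  .mk 11 14 22 [0x400, 0x7f9fff]],
[
  .mk 11 14 22 [0x400, 0x2000, 0x1f]],
[
  .mk 11 14 22 [0x400, 0x2000, 0xfffffffe0]],
[
  .mk 11 14 22 [0x400, 0x4000, 0x3fffffffffeff]],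
[
  .mk 11 14 22 [0x400, 0x4000, 0x100, 0x7fefff]]]

theorem run : RunAll (runX PT.R (Wk.frw PT.R) nl RvT (SMap.evl cT tlT PT.vx ringF)) P :=
  .cons t0 (.cons t1 (.cons t2 (.cons t3 (.cons t4 (.cons t5 (.nil))))))

end Pool.Agent.Lib.MP_5854e1_co.Cz.Sr268

namespace Pool.Agent.Lib.MP_5854e1_co.Cz.Sr335

open PB

theorem t0 : runX PT.R (Wk.frw PT.R) nl RvT (SMap.evl cT tlT PT.vx ringF) [
  .mk 35 10 42 [0x3dc0000]] = true := by
  decide +kernel

theorem t1 : runX PT.R (Wk.frw PT.R) nl RvT (SMap.evl cT tlT PT.vx ringF) [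
  .mk 35 10 42 [0x1c3c000000]] = true := by
  decide +kernel

theorem t2 : runX PT.R (Wk.frw PT.R) nl RvT (SMap.evl cT tlT PT.vx ringF) [
  .mk 35 10 42 [0x3ffe3c003ffff]] = true := by
  decide +kernel

theorem t3 : runX PT.R (Wk.frw PT.R) nl RvT (SMap.evl cT tlT PT.vx ringF) [
  .mk 35 10 42 [0x200000, 0x3b3]] = true := by
  decide +kernel

theorem t4 : runX PT.R (Wk.frw PT.R) nl RvT (SMap.evl cT tlT PT.vx ringF) [
  .mk 35 10 42 [0x200000, 0x3fffffc4c],
  .mk 35 11 45 []] = true := by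
  decide +kernel

theorem t5 : runX PT.R (Wk.frw PT.R) nl RvT (SMap.evl cT tlT PT.vx ringF) [
  .mk 35 12 47 [0xa5cffbf4f]] = true := by
  decide +kernel

/-- The tasks. -/
noncomputable def P : List (List Tk) := [
[
  .mk 35 10 42 [0x3dc0000]],
[
  .mk 35 10 42 [0x1c3c000000]],
[
  .mk 35 10 42 [0x3ffe3c003ffff]],
[
  .mk 35 10 42 [0x200000, 0x3b3]],
[
  .mk 35 10 42 [0x200000, 0x3fffffc4c],
  .mk 35 11 45 []],
[
  .mk 35 12 47 [0xa5cffbf4f]]]

theorem run : RunAll (runX PT.R (Wk.frw PT.R) nl RvT (SMap.evl cT tlT PT.vx ringF)) P :=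
  .cons t0 (.cons t1 (.cons t2 (.cons t3 (.cons t4 (.cons t5 (.nil))))))

end Pool.Agent.Lib.MP_5854e1_co.Cz.Sr335
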