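import Pool.Agent.Lib.MP_5854e1_co.Cz.P
import Pool.Agent.Lib.MP_5854e1_co.Tkx
import Pool.Agent.Lib.MP_5854e1_co.RunAll

/-!
# Search, part 252
-/

set_option autoImplicit false
set_option deprecated.oldSectionVars true
set_option maxRecDepth 100000

namespace Pool.Agent.Lib.MP_5854e1_co.Cz.Sr252

open PB

theorem t0 : runX PT.R (Wk.frw PT.R) nl RvT (SMap.evl cT tlT PT.vx ringF) [
  .mk 11 13 21 [0x400, 0x800000, 0x200, 0x1, 0x200000000000000000000, 0x20000000000000000000000000000000000000000000000000000000000000000000000]] = true := by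
  decide +kernel

/-- The tasks. -/
noncomputable def P : List (List Tk) := [
[
  .mk 11 13 21 [0x400, 0x800000, 0x200, 0x1, 0x200000000000000000000, 0x20000000000000000000000000000000000000000000000000000000000000000000000]]]

theorem run : RunAll (runX PT.R (Wk.frw PT.R) nl RvT (SMap.evl cT tlT PT.vx ringF)) P :=
  .cons t0 (.nil)

end Pool.Agent.Lib.MP_5854e1_co.Cz.Sr252

namespace Pool.Agent.Lib.MP_5854e1_co.Cz.Sr566

open PB

theorem t0 : runX PT.R (Wk.frw PT.R) nl RvT (SMap.evl cT tlT PT.vx ringF) [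
  .mk 68 15 23 [0x400000, 0x1000, 0x1f00000000000000000000000000000000000f00000001]] = true := by
  decide +kernel

theorem t1 : runX PT.R (Wk.frw PT.R) nl RvT (SMap.evl cT tlT PT.vx ringF) [
  .mk 68 15 23 [0x400000, 0x1000, 0xfffffffffffffffffffffffffe0fffffffffffffffffffffffffffffffffff0fffffffe]] = true := by
  decide +kernel

theorem t2 : runX PT.R (Wk.frw PT.R) nl RvT (SMap.evl cT tlT PT.vx ringF) [
  .mk 68 15 23 [0x400000, 0x2000, 0x12]] = true := by
  decide +kernel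

theorem t3 : runX PT.R (Wk.frw PT.R) nl RvT (SMap.evl cT tlT PT.vx ringF) [
  .mk 68 15 23 [0x400000, 0x2000, 0x298000]] = true := by
  decide +kernel

theorem t4 : runX PT.R (Wk.frw PT.R) nl RvT (SMap.evl cT tlT PT.vx ringF) [
  .mk 68 15 23 [0x400000, 0x2000, 0xfffd67fec]] = true := by
  decide +kernel

theorem t5 : runX PT.R (Wk.frw PT.R) nl RvT (SMap.evl cT tlT PT.vx ringF) [
  .mk 68 15 23 [0x400000, 0x2000, 0x1, 0xfffffffffffffffffffffffffffffffffffffffffffffffffffffffffffffffffffffffffffffffffffdffffffffffffffffffff]] = true := by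
  decide +kernel

/-- The tasks. -/
noncomputable def P : List (List Tk) := [
[
  .mk 68 15 23 [0x400000, 0x1000, 0x1f00000000000000000000000000000000000f00000001]],
[
  .mk 68 15 23 [0x400000, 0x1000, 0xfffffffffffffffffffffffffe0fffffffffffffffffffffffffffffffffff0fffffffe]],
[
  .mk 68 15 23 [0x400000, 0x2000, 0x12]],
[
  .mk 68 15 23 [0x400000, 0x2000, 0x298000]],
[
  .mk 68 15 23 [0x400000, 0x2000, 0xfffd67fec]],
[
  .mk 68 15 23 [0x400000, 0x2000, 0x1, 0xfffffffffffffffffffffffffffffffffffffffffffffffffffffffffffffffffffffffffffffffffffdffffffffffffffffffff]]]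

theorem run : RunAll (runX PT.R (Wk.frw PT.R) nl RvT (SMap.evl cT tlT PT.vx ringF)) P :=
  .cons t0 (.cons t1 (.cons t2 (.cons t3 (.cons t4 (.cons t5 (.nil))))))

end Pool.Agent.Lib.MP_5854e1_co.Cz.Sr566

namespace Pool.Agent.Lib.MP_5854e1_co.Cz.Sr586

open PB

theorem t0 : runX PT.R (Wk.frw PT.R) nl RvT (SMap.evl cT tlT PT.vx ringF) [
  .mk 85 8 21 [0x8, 0x3e061ffff],
  .mk 85 8 21 [0x80, 0xbffff]] = true := by
  decide +kernel

theorem t1 : runX PT.R (Wk.frw PT.R) nl RvT (SMap.evl cT tlT PT.vx ringF) [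
  .mk 85 8 21 [0x80, 0x40000, 0x393]] = true := by
  decide +kernel

theorem t2 : runX PT.R (Wk.frw PT.R) nl RvT (SMap.evl cT tlT PT.vx ringF) [
  .mk 85 8 21 [0x80, 0x40000, 0xc00]] = true := by
  decide +kernel

theorem t3 : runX PT.R (Wk.frw PT.R) nl RvT (SMap.evl cT tlT PT.vx ringF) [
  .mk 85 8 21 [0x80, 0x40000, 0xffffff06c],
  .mk 85 9 22 []] = true := by
  decide +kernel

theorem t4 : runX PT.R (Wk.frw PT.R) nl RvT (SMap.evl cT tlT PT.vx ringF) [
  .mk 85 10 23 [0x13bff31]] = true := by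
  decide +kernel

theorem t5 : runX PT.R (Wk.frw PT.R) nl RvT (SMap.evl cT tlT PT.vx ringF) [
  .mk 85 10 23 [0x6c400ce],
  .mk 85 11 28 [],
  .mk 85 12 29 [],
  .mk 85 13 0 [],
  .mk 85 14 1 [],
  .mk 85 15 7 [],
  .mk 85 16 8 [],
  .mk 85 17 9 [],
  .mk 85 18 10 [],
  .mk 85 19 15 [],
  .mk 85 20 16 [],
  .mk 86 0 0 [],
  .mk 86 1 1 [],
  .mk 86 2 3 [],
  .mk 86 3 20 []] = true := by
  decide +kernel

theorem t6 : runX PT.R (Wk.frw PT.R) nl RvT (SMap.evl cT tlT PT.vx ringF) [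
  .mk 86 4 21 []] = true := by
  decide +kernel

/-- The tasks. -/
noncomputable def P : List (List Tk) := [
[
  .mk 85 8 21 [0x8, 0x3e061ffff],
  .mk 85 8 21 [0x80, 0xbffff]],
[
  .mk 85 8 21 [0x80, 0x40000, 0x393]],
[
  .mk 85 8 21 [0x80, 0x40000, 0xc00]],
[
  .mk 85 8 21 [0x80, 0x40000, 0xffffff06c],
  .mk 85 9 22 []],
[
  .mk 85 10 23 [0x13bff31]],
[
  .mk 85 10 23 [0x6c400ce],
  .mk 85 11 28 [],
  .mk 85 12 29 [],
  .mk 85 13 0 [],
  .mk 85 14 1 [],
  .mk 85 15 7 [],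
  .mk 85 16 8 [],
  .mk 85 17 9 [],
  .mk 85 18 10 [],
  .mk 85 19 15 [],
  .mk 85 20 16 [],
  .mk 86 0 0 [],
  .mk 86 1 1 [],
  .mk 86 2 3 [],
  .mk 86 3 20 []],
[
  .mk 86 4 21 []]]

theorem run : RunAll (runX PT.R (Wk.frw PT.R) nl RvT (SMap.evl cT tlT PT.vx ringF)) P :=
  .cons t0 (.cons t1 (.cons t2 (.cons t3 (.cons t4 (.cons t5 (.cons t6 (.nil)))))))

end Pool.Agent.Lib.MP_5854e1_co.Cz.Sr586
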