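import Pool.Agent.Lib.MP_5854e1_co.Cz.P
import Pool.Agent.Lib.MP_5854e1_co.Tkx
import Pool.Agent.Lib.MP_5854e1_co.RunAll

/-!
# Search, part 253
-/

set_option autoImplicit false
set_option deprecated.oldSectionVars true
set_option maxRecDepth 100000

namespace Pool.Agent.Lib.MP_5854e1_co.Cz.Sr253

open PB

theorem t0 : runX PT.R (Wk.frw PT.R) nl RvT (SMap.evl cT tlT PT.vx ringF) [
  .mk 11 13 21 [0x400, 0x800000, 0x200, 0x1, 0x200000000000000000000, 0x80000000000000000000000000000000000000000000000000000000000000000000000]] = true := by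
  decide +kernel

theorem t1 : runX PT.R (Wk.frw PT.R) nl RvT (SMap.evl cT tlT PT.vx ringF) [
  .mk 11 13 21 [0x400, 0x800000, 0x200, 0x1, 0x200000000000000000000, 0x100000000000000000000000000000000000000000000000000000000000000000000000]] = true := by
  decide +kernel

theorem t2 : runX PT.R (Wk.frw PT.R) nl RvT (SMap.evl cT tlT PT.vx ringF) [
  .mk 11 13 21 [0x400, 0x800000, 0x200, 0x1, 0x200000000000000000000, 0x40000000000000000000000000000000000000000000000000000000000000000000000000000]] = true := by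
  decide +kernel

theorem t3 : runX PT.R (Wk.frw PT.R) nl RvT (SMap.evl cT tlT PT.vx ringF) [
  .mk 11 13 21 [0x400, 0x800000, 0x200, 0x1, 0x200000000000000000000, 0xfffffffffffffffffffffffffffbffffe5ffffffffffffffffffffffffffffffffffffffffffffffffffffffffffffffffffffff]] = true := by
  decide +kernel

/-- The tasks. -/
noncomputable def P : List (List Tk) := [
[
  .mk 11 13 21 [0x400, 0x800000, 0x200, 0x1, 0x200000000000000000000, 0x80000000000000000000000000000000000000000000000000000000000000000000000]],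
[
  .mk 11 13 21 [0x400, 0x800000, 0x200, 0x1, 0x200000000000000000000, 0x100000000000000000000000000000000000000000000000000000000000000000000000]],
[
  .mk 11 13 21 [0x400, 0x800000, 0x200, 0x1, 0x200000000000000000000, 0x40000000000000000000000000000000000000000000000000000000000000000000000000000]],
[
  .mk 11 13 21 [0x400, 0x800000, 0x200, 0x1, 0x200000000000000000000, 0xfffffffffffffffffffffffffffbffffe5ffffffffffffffffffffffffffffffffffffffffffffffffffffffffffffffffffffff]]]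

theorem run : RunAll (runX PT.R (Wk.frw PT.R) nl RvT (SMap.evl cT tlT PT.vx ringF)) P :=
  .cons t0 (.cons t1 (.cons t2 (.cons t3 (.nil))))

end Pool.Agent.Lib.MP_5854e1_co.Cz.Sr253

namespace Pool.Agent.Lib.MP_5854e1_co.Cz.Sr390

open PB

theorem t0 : runX PT.R (Wk.frw PT.R) nl RvT (SMap.evl cT tlT PT.vx ringF) [
  .mk 41 9 41 [0x8000000, 0x600]] = true := by
  decide +kernel

theorem t1 : runX PT.R (Wk.frw PT.R) nl RvT (SMap.evl cT tlT PT.vx ringF) [
  .mk 41 9 41 [0x8000000, 0x1800]] = true := by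
  decide +kernel

theorem t2 : runX PT.R (Wk.frw PT.R) nl RvT (SMap.evl cT tlT PT.vx ringF) [
  .mk 41 9 41 [0x8000000, 0x4000]] = true := by
  decide +kernel

theorem t3 : runX PT.R (Wk.frw PT.R) nl RvT (SMap.evl cT tlT PT.vx ringF) [
  .mk 41 9 41 [0x8000000, 0xff7ffa02c],
  .mk 41 9 41 [0x8000000, 0x80, 0x3cc03]] = true := by
  decide +kernel

theorem t4 : runX PT.R (Wk.frw PT.R) nl RvT (SMap.evl cT tlT PT.vx ringF) [
  .mk 41 9 41 [0x8000000, 0x80, 0xc33fc],
  .mk 41 9 41 [0x8000000, 0x8000000, 0xffffffffd]] = true := by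
  decide +kernel

theorem t5 : runX PT.R (Wk.frw PT.R) nl RvT (SMap.evl cT tlT PT.vx ringF) [
  .mk 41 9 41 [0x8000000, 0x8000000, 0x2, 0xfffffffefffffffffffffffffffffffffffffffffffffffffffffffffffffffffffffff],
  .mk 41 9 41 [0x8000000, 0x8000000, 0x2, 0x1000000000000000000000000000000000000000000000000000000000000000, 0x7]] = true := by
  decide +kernel

/-- The tasks. -/
noncomputable def P : List (List Tk) := [
[
  .mk 41 9 41 [0x8000000, 0x600]],
[
  .mk 41 9 41 [0x8000000, 0x1800]],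
[
  .mk 41 9 41 [0x8000000, 0x4000]],
[
  .mk 41 9 41 [0x8000000, 0xff7ffa02c],
  .mk 41 9 41 [0x8000000, 0x80, 0x3cc03]],
[
  .mk 41 9 41 [0x8000000, 0x80, 0xc33fc],
  .mk 41 9 41 [0x8000000, 0x8000000, 0xffffffffd]],
[
  .mk 41 9 41 [0x8000000, 0x8000000, 0x2, 0xfffffffefffffffffffffffffffffffffffffffffffffffffffffffffffffffffffffff],
  .mk 41 9 41 [0x8000000, 0x8000000, 0x2, 0x1000000000000000000000000000000000000000000000000000000000000000, 0x7]]]

theorem run : RunAll (runX PT.R (Wk.frw PT.R) nl RvT (SMap.evl cT tlT PT.vx ringF)) P :=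
  .cons t0 (.cons t1 (.cons t2 (.cons t3 (.cons t4 (.cons t5 (.nil))))))

end Pool.Agent.Lib.MP_5854e1_co.Cz.Sr390

namespace Pool.Agent.Lib.MP_5854e1_co.Cz.Sr428

open PB

theorem t0 : runX PT.R (Wk.frw PT.R) nl RvT (SMap.evl cT tlT PT.vx ringF) [
  .mk 42 21 63 [0x8, 0x800000, 0x3fffdffa0]] = true := by
  decide +kernel

theorem t1 : runX PT.R (Wk.frw PT.R) nl RvT (SMap.evl cT tlT PT.vx ringF) [
  .mk 42 21 63 [0x80, 0xbffff]] = true := by
  decide +kernel

theorem t2 : runX PT.R (Wk.frw PT.R) nl RvT (SMap.evl cT tlT PT.vx ringF) [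
  .mk 42 21 63 [0x80, 0x40000, 0x3]] = true := by
  decide +kernel

theorem t3 : runX PT.R (Wk.frw PT.R) nl RvT (SMap.evl cT tlT PT.vx ringF) [
  .mk 42 21 63 [0x80, 0x40000, 0x4]] = true := by
  decide +kernel

theorem t4 : runX PT.R (Wk.frw PT.R) nl RvT (SMap.evl cT tlT PT.vx ringF) [
  .mk 42 21 63 [0x80, 0x40000, 0xffffffff8]] = true := by
  decide +kernel

theorem t5 : runX PT.R (Wk.frw PT.R) nl RvT (SMap.evl cT tlT PT.vx ringF) [
  .mk 42 21 63 [0x200, 0x93]] = true := by
  decide +kernel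

theorem t6 : runX PT.R (Wk.frw PT.R) nl RvT (SMap.evl cT tlT PT.vx ringF) [
  .mk 42 21 63 [0x200, 0x5900]] = true := by
  decide +kernel

/-- The tasks. -/
noncomputable def P : List (List Tk) := [
[
  .mk 42 21 63 [0x8, 0x800000, 0x3fffdffa0]],
[
  .mk 42 21 63 [0x80, 0xbffff]],
[
  .mk 42 21 63 [0x80, 0x40000, 0x3]],
[
  .mk 42 21 63 [0x80, 0x40000, 0x4]],
[
  .mk 42 21 63 [0x80, 0x40000, 0xffffffff8]],
[
  .mk 42 21 63 [0x200, 0x93]],
[
  .mk 42 21 63 [0x200, 0x5900]]]

theorem run : RunAll (runX PT.R (Wk.frw PT.R) nl RvT (SMap.evl cT tlT PT.vx ringF)) P :=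
  .cons t0 (.cons t1 (.cons t2 (.cons t3 (.cons t4 (.cons t5 (.cons t6 (.nil)))))))

end Pool.Agent.Lib.MP_5854e1_co.Cz.Sr428

namespace Pool.Agent.Lib.MP_5854e1_co.Cz.Sr463

open PB

theorem t0 : runX PT.R (Wk.frw PT.R) nl RvT (SMap.evl cT tlT PT.vx ringF) [
  .mk 44 8 68 [0x1000, 0x400000000000, 0x800, 0xffffffffc],
  .mk 44 8 68 [0x40000, 0xf00026000000000000000004200000000000000000000]] = true := by
  decide +kernel

theorem t1 : runX PT.R (Wk.frw PT.R) nl RvT (SMap.evl cT tlT PT.vx ringF) [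
  .mk 44 8 68 [0x40000, 0x1000000000000000000000000000000000000000000000]] = true := by
  decide +kernel

theorem t2 : runX PT.R (Wk.frw PT.R) nl RvT (SMap.evl cT tlT PT.vx ringF) [
  .mk 44 8 68 [0x40000, 0xffffffffffffffffffffffffffffffffffffffffffffffffffffffffffe0fffd9fffffffffffffffffbdffffffffffffffffffff],
  .mk 44 9 69 [],
  .mk 44 10 70 [],
  .mk 44 11 71 [],
  .mk 44 12 76 []] = true := by
  decide +kernel

theorem t3 : runX PT.R (Wk.frw PT.R) nl RvT (SMap.evl cT tlT PT.vx ringF) [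
  .mk 44 13 77 [],
  .mk 44 14 78 []] = true := by
  decide +kernel

theorem t4 : runX PT.R (Wk.frw PT.R) nl RvT (SMap.evl cT tlT PT.vx ringF) [
  .mk 44 15 79 [],
  .mk 44 16 80 []] = true := by
  decide +kernel

theorem t5 : runX PT.R (Wk.frw PT.R) nl RvT (SMap.evl cT tlT PT.vx ringF) [
  .mk 44 17 81 []] = true := by
  decide +kernel

/-- The tasks. -/
noncomputable def P : List (List Tk) := [
[
  .mk 44 8 68 [0x1000, 0x400000000000, 0x800, 0xffffffffc],
  .mk 44 8 68 [0x40000, 0xf00026000000000000000004200000000000000000000]],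
[
  .mk 44 8 68 [0x40000, 0x1000000000000000000000000000000000000000000000]],
[
  .mk 44 8 68 [0x40000, 0xffffffffffffffffffffffffffffffffffffffffffffffffffffffffffe0fffd9fffffffffffffffffbdffffffffffffffffffff],
  .mk 44 9 69 [],
  .mk 44 10 70 [],
  .mk 44 11 71 [],
  .mk 44 12 76 []],
[
  .mk 44 13 77 [],
  .mk 44 14 78 []],
[
  .mk 44 15 79 [],
  .mk 44 16 80 []],
[
  .mk 44 17 81 []]]

theorem run : RunAll (runX PT.R (Wk.frw PT.R) nl RvT (SMap.evl cT tlT PT.vx ringF)) P :=
  .cons t0 (.cons t1 (.cons t2 (.cons t3 (.cons t4 (.cons t5 (.nil))))))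

end Pool.Agent.Lib.MP_5854e1_co.Cz.Sr463
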