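import Pool.Agent.Lib.MP_5854e1_co.Cz.P
import Pool.Agent.Lib.MP_5854e1_co.Tkx
import Pool.Agent.Lib.MP_5854e1_co.RunAll

/-!
# Search, part 257
-/

set_option autoImplicit false
set_option deprecated.oldSectionVars true
set_option maxRecDepth 100000

namespace Pool.Agent.Lib.MP_5854e1_co.Cz.Sr257

open PB

theorem t0 : runX PT.R (Wk.frw PT.R) nl RvT (SMap.evl cT tlT PT.vx ringF) [
  .mk 11 13 21 [0x400, 0x800000, 0x20000, 0x2000000000000000000000000000000000000000, 0x2000000000000000000000000000000000000000000000000000000000000000000000000000000000000, 0x200000000000000000000]] = true := by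
  decide +kernel

theorem t1 : runX PT.R (Wk.frw PT.R) nl RvT (SMap.evl cT tlT PT.vx ringF) [
  .mk 11 13 21 [0x400, 0x800000, 0x20000, 0x2000000000000000000000000000000000000000, 0x2000000000000000000000000000000000000000000000000000000000000000000000000000000000000, 0xfffffffffffffffffffffffffffffffffffffffffffffffffffffffffffffffffffffffffffffffffffdffffffffffffffff7bbc]] = true := by
  decide +kernel

theorem t2 : runX PT.R (Wk.frw PT.R) nl RvT (SMap.evl cT tlT PT.vx ringF) [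
  .mk 11 13 21 [0x400, 0x2000000, 0x2d17f]] = true := by
  decide +kernel

theorem t3 : runX PT.R (Wk.frw PT.R) nl RvT (SMap.evl cT tlT PT.vx ringF) [
  .mk 11 13 21 [0x400, 0x2000000, 0x7d2e80]] = true := by
  decide +kernel

theorem t4 : runX PT.R (Wk.frw PT.R) nl RvT (SMap.evl cT tlT PT.vx ringF) [
  .mk 11 13 21 [0x400, 0x10000000, 0x8f]] = true := by
  decide +kernel

theorem t5 : runX PT.R (Wk.frw PT.R) nl RvT (SMap.evl cT tlT PT.vx ringF) [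
  .mk 11 13 21 [0x400, 0x10000000, 0x7fe170]] = true := by
  decide +kernel

/-- The tasks. -/
noncomputable def P : List (List Tk) := [
[
  .mk 11 13 21 [0x400, 0x800000, 0x20000, 0x2000000000000000000000000000000000000000, 0x2000000000000000000000000000000000000000000000000000000000000000000000000000000000000, 0x200000000000000000000]],
[
  .mk 11 13 21 [0x400, 0x800000, 0x20000, 0x2000000000000000000000000000000000000000, 0x2000000000000000000000000000000000000000000000000000000000000000000000000000000000000, 0xfffffffffffffffffffffffffffffffffffffffffffffffffffffffffffffffffffffffffffffffffffdffffffffffffffff7bbc]],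
[
  .mk 11 13 21 [0x400, 0x2000000, 0x2d17f]],
[
  .mk 11 13 21 [0x400, 0x2000000, 0x7d2e80]],
[
  .mk 11 13 21 [0x400, 0x10000000, 0x8f]],
[
  .mk 11 13 21 [0x400, 0x10000000, 0x7fe170]]]

theorem run : RunAll (runX PT.R (Wk.frw PT.R) nl RvT (SMap.evl cT tlT PT.vx ringF)) P :=
  .cons t0 (.cons t1 (.cons t2 (.cons t3 (.cons t4 (.cons t5 (.nil))))))

end Pool.Agent.Lib.MP_5854e1_co.Cz.Sr257

namespace Pool.Agent.Lib.MP_5854e1_co.Cz.Sr524

open PB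

theorem t0 : runX PT.R (Wk.frw PT.R) nl RvT (SMap.evl cT tlT PT.vx ringF) [
  .mk 63 9 52 [0x40000, 0x4000000, 0xffffc7fc0],
  .mk 63 10 53 [0x3ffffef7fffff]] = true := by
  decide +kernel

theorem t1 : runX PT.R (Wk.frw PT.R) nl RvT (SMap.evl cT tlT PT.vx ringF) [
  .mk 63 10 53 [0x800000, 0x1f]] = true := by
  decide +kernel

theorem t2 : runX PT.R (Wk.frw PT.R) nl RvT (SMap.evl cT tlT PT.vx ringF) [
  .mk 63 10 53 [0x800000, 0x3ffffffe0],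
  .mk 63 10 53 [0x10000000, 0x1711]] = true := by
  decide +kernel

theorem t3 : runX PT.R (Wk.frw PT.R) nl RvT (SMap.evl cT tlT PT.vx ringF) [
  .mk 63 10 53 [0x10000000, 0x32000]] = true := by
  decide +kernel

theorem t4 : runX PT.R (Wk.frw PT.R) nl RvT (SMap.evl cT tlT PT.vx ringF) [
  .mk 63 10 53 [0x10000000, 0x7c88ee],
  .mk 63 10 53 [0x10000000, 0x4000, 0xff]] = true := by
  decide +kernel

theorem t5 : runX PT.R (Wk.frw PT.R) nl RvT (SMap.evl cT tlT PT.vx ringF) [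
  .mk 63 10 53 [0x10000000, 0x4000, 0x3ffffffffff00]] = true := by
  decide +kernel

/-- The tasks. -/
noncomputable def P : List (List Tk) := [
[
  .mk 63 9 52 [0x40000, 0x4000000, 0xffffc7fc0],
  .mk 63 10 53 [0x3ffffef7fffff]],
[
  .mk 63 10 53 [0x800000, 0x1f]],
[
  .mk 63 10 53 [0x800000, 0x3ffffffe0],
  .mk 63 10 53 [0x10000000, 0x1711]],
[
  .mk 63 10 53 [0x10000000, 0x32000]],
[
  .mk 63 10 53 [0x10000000, 0x7c88ee],
  .mk 63 10 53 [0x10000000, 0x4000, 0xff]],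
[
  .mk 63 10 53 [0x10000000, 0x4000, 0x3ffffffffff00]]]

theorem run : RunAll (runX PT.R (Wk.frw PT.R) nl RvT (SMap.evl cT tlT PT.vx ringF)) P :=
  .cons t0 (.cons t1 (.cons t2 (.cons t3 (.cons t4 (.cons t5 (.nil))))))

end Pool.Agent.Lib.MP_5854e1_co.Cz.Sr524

namespace Pool.Agent.Lib.MP_5854e1_co.Cz.Sr577

open PB

theorem t0 : runX PT.R (Wk.frw PT.R) nl RvT (SMap.evl cT tlT PT.vx ringF) [
  .mk 68 17 29 [],
  .mk 68 18 0 [],
  .mk 68 19 7 [],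
  .mk 68 20 15 [],
  .mk 68 21 20 [],
  .mk 68 22 28 [],
  .mk 69 0 0 [],
  .mk 69 1 1 [],
  .mk 69 2 2 [],
  .mk 69 3 7 [],
  .mk 69 4 8 [],
  .mk 69 5 9 []] = true := by
  decide +kernel

theorem t1 : runX PT.R (Wk.frw PT.R) nl RvT (SMap.evl cT tlT PT.vx ringF) [
  .mk 69 6 10 [],
  .mk 69 7 15 [],
  .mk 69 8 16 [],
  .mk 69 9 0 [],
  .mk 69 10 1 [],
  .mk 69 11 3 [],
  .mk 69 12 20 [],
  .mk 69 13 21 [],
  .mk 69 14 22 [],
  .mk 69 15 23 [],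
  .mk 69 16 28 [],
  .mk 69 17 29 [],
  .mk 69 18 0 [],
  .mk 69 19 7 [],
  .mk 69 20 15 [],
  .mk 69 21 20 [],
  .mk 69 22 28 [],
  .mk 72 0 0 [],
  .mk 72 1 7 [],
  .mk 72 2 15 [],
  .mk 72 5 0 [],
  .mk 72 6 1 [],
  .mk 72 7 3 [],
  .mk 72 8 20 [],
  .mk 72 9 21 [],
  .mk 72 10 22 [],
  .mk 72 11 28 [],
  .mk 72 12 29 [],
  .mk 73 0 0 [],
  .mk 73 1 7 [],
  .mk 73 2 15 [],
  .mk 73 5 0 [],
  .mk 73 6 1 [],
  .mk 73 7 7 [],
  .mk 73 8 8 [],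
  .mk 73 9 9 []] = true := by
  decide +kernel

theorem t2 : runX PT.R (Wk.frw PT.R) nl RvT (SMap.evl cT tlT PT.vx ringF) [
  .mk 73 10 10 [],
  .mk 73 11 15 [],
  .mk 73 12 16 [],
  .mk 74 0 0 [],
  .mk 74 1 1 [],
  .mk 74 2 2 [],
  .mk 74 3 7 [],
  .mk 74 4 8 [],
  .mk 74 5 9 []] = true := by
  decide +kernel

theorem t3 : runX PT.R (Wk.frw PT.R) nl RvT (SMap.evl cT tlT PT.vx ringF) [
  .mk 74 6 10 [],
  .mk 74 7 15 [],
  .mk 74 8 16 [],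
  .mk 74 9 0 [],
  .mk 74 10 1 [],
  .mk 74 11 3 [],
  .mk 74 12 20 [],
  .mk 74 13 28 [],
  .mk 74 14 0 [],
  .mk 74 15 7 [],
  .mk 74 16 15 [],
  .mk 74 17 20 [],
  .mk 74 18 28 [],
  .mk 76 0 0 [],
  .mk 76 1 7 [],
  .mk 76 2 15 [],
  .mk 76 5 0 [],
  .mk 76 6 1 [],
  .mk 76 7 2 [],
  .mk 76 8 7 []] = true := by
  decide +kernel

theorem t4 : runX PT.R (Wk.frw PT.R) nl RvT (SMap.evl cT tlT PT.vx ringF) [
  .mk 76 9 8 [],
  .mk 76 10 9 [],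
  .mk 76 11 15 [],
  .mk 76 12 16 [],
  .mk 77 0 0 [],
  .mk 77 1 7 [],
  .mk 77 2 15 [],
  .mk 77 5 0 [],
  .mk 77 6 1 [],
  .mk 77 7 20 []] = true := by
  decide +kernel

theorem t5 : runX PT.R (Wk.frw PT.R) nl RvT (SMap.evl cT tlT PT.vx ringF) [
  .mk 77 8 21 [0x1ed]] = true := by
  decide +kernel

/-- The tasks. -/
noncomputable def P : List (List Tk) := [
[
  .mk 68 17 29 [],
  .mk 68 18 0 [],
  .mk 68 19 7 [],
  .mk 68 20 15 [],
  .mk 68 21 20 [],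
  .mk 68 22 28 [],
  .mk 69 0 0 [],
  .mk 69 1 1 [],
  .mk 69 2 2 [],
  .mk 69 3 7 [],
  .mk 69 4 8 [],
  .mk 69 5 9 []],
[
  .mk 69 6 10 [],
  .mk 69 7 15 [],
  .mk 69 8 16 [],
  .mk 69 9 0 [],
  .mk 69 10 1 [],
  .mk 69 11 3 [],
  .mk 69 12 20 [],
  .mk 69 13 21 [],
  .mk 69 14 22 [],
  .mk 69 15 23 [],
  .mk 69 16 28 [],
  .mk 69 17 29 [],
  .mk 69 18 0 [],
  .mk 69 19 7 [],
  .mk 69 20 15 [],
  .mk 69 21 20 [],
  .mk 69 22 28 [],
  .mk 72 0 0 [],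
  .mk 72 1 7 [],
  .mk 72 2 15 [],
  .mk 72 5 0 [],
  .mk 72 6 1 [],
  .mk 72 7 3 [],
  .mk 72 8 20 [],
  .mk 72 9 21 [],
  .mk 72 10 22 [],
  .mk 72 11 28 [],
  .mk 72 12 29 [],
  .mk 73 0 0 [],
  .mk 73 1 7 [],
  .mk 73 2 15 [],
  .mk 73 5 0 [],
  .mk 73 6 1 [],
  .mk 73 7 7 [],
  .mk 73 8 8 [],
  .mk 73 9 9 []],
[
  .mk 73 10 10 [],
  .mk 73 11 15 [],
  .mk 73 12 16 [],
  .mk 74 0 0 [],
  .mk 74 1 1 [],
  .mk 74 2 2 [],
  .mk 74 3 7 [],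
  .mk 74 4 8 [],
  .mk 74 5 9 []],
[
  .mk 74 6 10 [],
  .mk 74 7 15 [],
  .mk 74 8 16 [],
  .mk 74 9 0 [],
  .mk 74 10 1 [],
  .mk 74 11 3 [],
  .mk 74 12 20 [],
  .mk 74 13 28 [],
  .mk 74 14 0 [],
  .mk 74 15 7 [],
  .mk 74 16 15 [],
  .mk 74 17 20 [],
  .mk 74 18 28 [],
  .mk 76 0 0 [],
  .mk 76 1 7 [],
  .mk 76 2 15 [],
  .mk 76 5 0 [],
  .mk 76 6 1 [],
  .mk 76 7 2 [],
  .mk 76 8 7 []],
[
  .mk 76 9 8 [],
  .mk 76 10 9 [],
  .mk 76 11 15 [],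
  .mk 76 12 16 [],
  .mk 77 0 0 [],
  .mk 77 1 7 [],
  .mk 77 2 15 [],
  .mk 77 5 0 [],
  .mk 77 6 1 [],
  .mk 77 7 20 []],
[
  .mk 77 8 21 [0x1ed]]]

theorem run : RunAll (runX PT.R (Wk.frw PT.R) nl RvT (SMap.evl cT tlT PT.vx ringF)) P :=
  .cons t0 (.cons t1 (.cons t2 (.cons t3 (.cons t4 (.cons t5 (.nil))))))

end Pool.Agent.Lib.MP_5854e1_co.Cz.Sr577
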