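import Pool.Agent.Lib.MP_5854e1_co.Cz.P
import Pool.Agent.Lib.MP_5854e1_co.Tkx
import Pool.Agent.Lib.MP_5854e1_co.RunAll

/-!
# Search, part 258
-/

set_option autoImplicit false
set_option deprecated.oldSectionVars true
set_option maxRecDepth 100000

namespace Pool.Agent.Lib.MP_5854e1_co.Cz.Sr258

open PB

theorem t0 : runX PT.R (Wk.frw PT.R) nl RvT (SMap.evl cT tlT PT.vx ringF) [
  .mk 11 13 21 [0x400, 0x10000000, 0x200, 0xc0008400]] = true := by
  decide +kernel

theorem t1 : runX PT.R (Wk.frw PT.R) nl RvT (SMap.evl cT tlT PT.vx ringF) [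
  .mk 11 13 21 [0x400, 0x10000000, 0x200, 0x800000000000015200000000]] = true := by
  decide +kernel

theorem t2 : runX PT.R (Wk.frw PT.R) nl RvT (SMap.evl cT tlT PT.vx ringF) [
  .mk 11 13 21 [0x400, 0x10000000, 0x200, 0xffffffffffffffffffffffffffffffffffffffffffffffffffffffffffffffffffffffffffffffff7f7dfffffffffeac3fff7bfe],
  .mk 11 13 21 [0x400, 0x10000000, 0x200, 0x1, 0xf000000000002000000000000000000000000000000000000000]] = true := by
  decide +kernel

theorem t3 : runX PT.R (Wk.frw PT.R) nl RvT (SMap.evl cT tlT PT.vx ringF) [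
  .mk 11 13 21 [0x400, 0x10000000, 0x200, 0x1, 0x20000000000000000000000000000000000000000000000000000000000000000000000000000000000000000000000]] = true := by
  decide +kernel

theorem t4 : runX PT.R (Wk.frw PT.R) nl RvT (SMap.evl cT tlT PT.vx ringF) [
  .mk 11 13 21 [0x400, 0x10000000, 0x200, 0x1, 0xfffffffffdffffffffffffffffffffffffffffffffffffffffff0fffffffffffdfffffffffffffffffffffffffffffffffffffff]] = true := by
  decide +kernel

theorem t5 : runX PT.R (Wk.frw PT.R) nl RvT (SMap.evl cT tlT PT.vx ringF) [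
  .mk 11 13 21 [0x400, 0x10000000, 0x200, 0x100000000, 0xffffffffe],
  .mk 11 13 21 [0x400, 0x10000000, 0x200, 0x100000000, 0x1, 0x9000000000002000000000000000000000000000000000000000]] = true := by
  decide +kernel

/-- The tasks. -/
noncomputable def P : List (List Tk) := [
[
  .mk 11 13 21 [0x400, 0x10000000, 0x200, 0xc0008400]],
[
  .mk 11 13 21 [0x400, 0x10000000, 0x200, 0x800000000000015200000000]],
[
  .mk 11 13 21 [0x400, 0x10000000, 0x200, 0xffffffffffffffffffffffffffffffffffffffffffffffffffffffffffffffffffffffffffffffff7f7dfffffffffeac3fff7bfe],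
  .mk 11 13 21 [0x400, 0x10000000, 0x200, 0x1, 0xf000000000002000000000000000000000000000000000000000]],
[
  .mk 11 13 21 [0x400, 0x10000000, 0x200, 0x1, 0x20000000000000000000000000000000000000000000000000000000000000000000000000000000000000000000000]],
[
  .mk 11 13 21 [0x400, 0x10000000, 0x200, 0x1, 0xfffffffffdffffffffffffffffffffffffffffffffffffffffff0fffffffffffdfffffffffffffffffffffffffffffffffffffff]],
[
  .mk 11 13 21 [0x400, 0x10000000, 0x200, 0x100000000, 0xffffffffe],
  .mk 11 13 21 [0x400, 0x10000000, 0x200, 0x100000000, 0x1, 0x9000000000002000000000000000000000000000000000000000]]]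

theorem run : RunAll (runX PT.R (Wk.frw PT.R) nl RvT (SMap.evl cT tlT PT.vx ringF)) P :=
  .cons t0 (.cons t1 (.cons t2 (.cons t3 (.cons t4 (.cons t5 (.nil))))))

end Pool.Agent.Lib.MP_5854e1_co.Cz.Sr258

namespace Pool.Agent.Lib.MP_5854e1_co.Cz.Sr333

open PB

theorem t0 : runX PT.R (Wk.frw PT.R) nl RvT (SMap.evl cT tlT PT.vx ringF) [
  .mk 35 9 41 [0x17570063]] = true := by
  decide +kernel

theorem t1 : runX PT.R (Wk.frw PT.R) nl RvT (SMap.evl cT tlT PT.vx ringF) [
  .mk 35 9 41 [0xfe0a87f90]] = true := by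
  decide +kernel

theorem t2 : runX PT.R (Wk.frw PT.R) nl RvT (SMap.evl cT tlT PT.vx ringF) [
  .mk 35 9 41 [0x4, 0xe8f]] = true := by
  decide +kernel

theorem t3 : runX PT.R (Wk.frw PT.R) nl RvT (SMap.evl cT tlT PT.vx ringF) [
  .mk 35 9 41 [0x4, 0x1000]] = true := by
  decide +kernel

theorem t4 : runX PT.R (Wk.frw PT.R) nl RvT (SMap.evl cT tlT PT.vx ringF) [
  .mk 35 9 41 [0x4, 0x7fe170]] = true := by
  decide +kernel

theorem t5 : runX PT.R (Wk.frw PT.R) nl RvT (SMap.evl cT tlT PT.vx ringF) [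
  .mk 35 9 41 [0x8, 0x14f67a7b3]] = true := by
  decide +kernel

theorem t6 : runX PT.R (Wk.frw PT.R) nl RvT (SMap.evl cT tlT PT.vx ringF) [
  .mk 35 9 41 [0x8, 0x2b098584c],
  .mk 35 9 41 [0x8000, 0x16e000000002000000000000000000000000000000000000000]] = true := by
  decide +kernel

/-- The tasks. -/
noncomputable def P : List (List Tk) := [
[
  .mk 35 9 41 [0x17570063]],
[
  .mk 35 9 41 [0xfe0a87f90]],
[
  .mk 35 9 41 [0x4, 0xe8f]],
[
  .mk 35 9 41 [0x4, 0x1000]],
[
  .mk 35 9 41 [0x4, 0x7fe170]],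
[
  .mk 35 9 41 [0x8, 0x14f67a7b3]],
[
  .mk 35 9 41 [0x8, 0x2b098584c],
  .mk 35 9 41 [0x8000, 0x16e000000002000000000000000000000000000000000000000]]]

theorem run : RunAll (runX PT.R (Wk.frw PT.R) nl RvT (SMap.evl cT tlT PT.vx ringF)) P :=
  .cons t0 (.cons t1 (.cons t2 (.cons t3 (.cons t4 (.cons t5 (.cons t6 (.nil)))))))

end Pool.Agent.Lib.MP_5854e1_co.Cz.Sr333

namespace Pool.Agent.Lib.MP_5854e1_co.Cz.Sr406

open PB

theorem t0 : runX PT.R (Wk.frw PT.R) nl RvT (SMap.evl cT tlT PT.vx ringF) [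
  .mk 41 13 48 [0x8000000, 0x400, 0x40000, 0x1000000000000000000000000000000000000000000000000000000000000000000000000000000000000000000000000000, 0xffffffffffffffffffffffffffffffffffffffffffffffffffffffffffffffffdfffffffffffffffffffffffffffffffffffffff]] = true := by
  decide +kernel

theorem t1 : runX PT.R (Wk.frw PT.R) nl RvT (SMap.evl cT tlT PT.vx ringF) [
  .mk 41 13 48 [0x8000000, 0x400, 0x40000, 0x1000000000000000000000000000000000000000000000000000000000000000000000000000000000000000000000000000, 0x2000000000000000000000000000000000000000, 0xffffffffffffffffffffffffffffffffffffffffffffffffffffffffffffffffffffffffffffffffffffffffffffffffffffffff]] = true := by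
  decide +kernel

theorem t2 : runX PT.R (Wk.frw PT.R) nl RvT (SMap.evl cT tlT PT.vx ringF) [
  .mk 41 14 49 [0xc9]] = true := by
  decide +kernel

theorem t3 : runX PT.R (Wk.frw PT.R) nl RvT (SMap.evl cT tlT PT.vx ringF) [
  .mk 41 14 49 [0x400]] = true := by
  decide +kernel

theorem t4 : runX PT.R (Wk.frw PT.R) nl RvT (SMap.evl cT tlT PT.vx ringF) [
  .mk 41 14 49 [0xfffffd932]] = true := by
  decide +kernel

theorem t5 : runX PT.R (Wk.frw PT.R) nl RvT (SMap.evl cT tlT PT.vx ringF) [
  .mk 41 14 49 [0x4, 0x7601]] = true := by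
  decide +kernel

theorem t6 : runX PT.R (Wk.frw PT.R) nl RvT (SMap.evl cT tlT PT.vx ringF) [
  .mk 41 14 49 [0x4, 0x7f89fe]] = true := by
  decide +kernel

/-- The tasks. -/
noncomputable def P : List (List Tk) := [
[
  .mk 41 13 48 [0x8000000, 0x400, 0x40000, 0x1000000000000000000000000000000000000000000000000000000000000000000000000000000000000000000000000000, 0xffffffffffffffffffffffffffffffffffffffffffffffffffffffffffffffffdfffffffffffffffffffffffffffffffffffffff]],
[
  .mk 41 13 48 [0x8000000, 0x400, 0x40000, 0x1000000000000000000000000000000000000000000000000000000000000000000000000000000000000000000000000000, 0x2000000000000000000000000000000000000000, 0xffffffffffffffffffffffffffffffffffffffffffffffffffffffffffffffffffffffffffffffffffffffffffffffffffffffff]],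
[
  .mk 41 14 49 [0xc9]],
[
  .mk 41 14 49 [0x400]],
[
  .mk 41 14 49 [0xfffffd932]],
[
  .mk 41 14 49 [0x4, 0x7601]],
[
  .mk 41 14 49 [0x4, 0x7f89fe]]]

theorem run : RunAll (runX PT.R (Wk.frw PT.R) nl RvT (SMap.evl cT tlT PT.vx ringF)) P :=
  .cons t0 (.cons t1 (.cons t2 (.cons t3 (.cons t4 (.cons t5 (.cons t6 (.nil)))))))

end Pool.Agent.Lib.MP_5854e1_co.Cz.Sr406
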