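import Pool.Agent.Lib.MP_5854e1_co.Cz.P
import Pool.Agent.Lib.MP_5854e1_co.Tkx
import Pool.Agent.Lib.MP_5854e1_co.RunAll

/-!
# Search, part 262
-/

set_option autoImplicit false
set_option deprecated.oldSectionVars true
set_option maxRecDepth 100000

namespace Pool.Agent.Lib.MP_5854e1_co.Cz.Sr262

open PB

theorem t0 : runX PT.R (Wk.frw PT.R) nl RvT (SMap.evl cT tlT PT.vx ringF) [
  .mk 11 13 21 [0x400, 0x10000000, 0x1000, 0x1, 0xffffeffe3e07ffffffffffffffffffffffffffffffffffffffffffffffffffffffffffffffffffffffffffffffffffffffffffff],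
  .mk 11 13 21 [0x400, 0x10000000, 0x1000, 0x1, 0x400000000000000000000000000000000000000000000000000000000000000000000000000000000000000000000000, 0x8443]] = true := by
  decide +kernel

theorem t1 : runX PT.R (Wk.frw PT.R) nl RvT (SMap.evl cT tlT PT.vx ringF) [
  .mk 11 13 21 [0x400, 0x10000000, 0x1000, 0x1, 0x400000000000000000000000000000000000000000000000000000000000000000000000000000000000000000000000, 0x200000000000000000000]] = true := by
  decide +kernel

/-- The tasks. -/
noncomputable def P : List (List Tk) := [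
[
  .mk 11 13 21 [0x400, 0x10000000, 0x1000, 0x1, 0xffffeffe3e07ffffffffffffffffffffffffffffffffffffffffffffffffffffffffffffffffffffffffffffffffffffffffffff],
  .mk 11 13 21 [0x400, 0x10000000, 0x1000, 0x1, 0x400000000000000000000000000000000000000000000000000000000000000000000000000000000000000000000000, 0x8443]],
[
  .mk 11 13 21 [0x400, 0x10000000, 0x1000, 0x1, 0x400000000000000000000000000000000000000000000000000000000000000000000000000000000000000000000000, 0x200000000000000000000]]]

theorem run : RunAll (runX PT.R (Wk.frw PT.R) nl RvT (SMap.evl cT tlT PT.vx ringF)) P :=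
  .cons t0 (.cons t1 (.nil))

end Pool.Agent.Lib.MP_5854e1_co.Cz.Sr262

namespace Pool.Agent.Lib.MP_5854e1_co.Cz.Sr416

open PB

theorem t0 : runX PT.R (Wk.frw PT.R) nl RvT (SMap.evl cT tlT PT.vx ringF) [
  .mk 41 30 55 [0x3e0]] = true := by
  decide +kernel

theorem t1 : runX PT.R (Wk.frw PT.R) nl RvT (SMap.evl cT tlT PT.vx ringF) [
  .mk 41 30 55 [0xffffc00]] = true := by
  decide +kernel

theorem t2 : runX PT.R (Wk.frw PT.R) nl RvT (SMap.evl cT tlT PT.vx ringF) [
  .mk 41 31 56 [0xebfb]] = true := by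
  decide +kernel

theorem t3 : runX PT.R (Wk.frw PT.R) nl RvT (SMap.evl cT tlT PT.vx ringF) [
  .mk 41 31 56 [0x3ffffffff1404]] = true := by
  decide +kernel

theorem t4 : runX PT.R (Wk.frw PT.R) nl RvT (SMap.evl cT tlT PT.vx ringF) [
  .mk 41 32 57 [0x1ff]] = true := by
  decide +kernel

theorem t5 : runX PT.R (Wk.frw PT.R) nl RvT (SMap.evl cT tlT PT.vx ringF) [
  .mk 41 32 57 [0x71ffe00]] = true := by
  decide +kernel

theorem t6 : runX PT.R (Wk.frw PT.R) nl RvT (SMap.evl cT tlT PT.vx ringF) [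
  .mk 41 32 57 [0x200000, 0xfffffffffffffbfffffffffffffffffffffffffffffffffffffffffffffffffffffffff]] = true := by
  decide +kernel

/-- The tasks. -/
noncomputable def P : List (List Tk) := [
[
  .mk 41 30 55 [0x3e0]],
[
  .mk 41 30 55 [0xffffc00]],
[
  .mk 41 31 56 [0xebfb]],
[
  .mk 41 31 56 [0x3ffffffff1404]],
[
  .mk 41 32 57 [0x1ff]],
[
  .mk 41 32 57 [0x71ffe00]],
[
  .mk 41 32 57 [0x200000, 0xfffffffffffffbfffffffffffffffffffffffffffffffffffffffffffffffffffffffff]]]

theorem run : RunAll (runX PT.R (Wk.frw PT.R) nl RvT (SMap.evl cT tlT PT.vx ringF)) P :=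
  .cons t0 (.cons t1 (.cons t2 (.cons t3 (.cons t4 (.cons t5 (.cons t6 (.nil)))))))

end Pool.Agent.Lib.MP_5854e1_co.Cz.Sr416
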