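import Pool.Agent.Lib.MP_5854e1_co.Cz.P
import Pool.Agent.Lib.MP_5854e1_co.Tkx
import Pool.Agent.Lib.MP_5854e1_co.RunAll

/-!
# Search, part 265
-/

set_option autoImplicit false
set_option deprecated.oldSectionVars true
set_option maxRecDepth 100000

namespace Pool.Agent.Lib.MP_5854e1_co.Cz.Sr265

open PB

theorem t0 : runX PT.R (Wk.frw PT.R) nl RvT (SMap.evl cT tlT PT.vx ringF) [
  .mk 11 13 21 [0x2000, 0xfa793]] = true := by
  decide +kernel

theorem t1 : runX PT.R (Wk.frw PT.R) nl RvT (SMap.evl cT tlT PT.vx ringF) [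
  .mk 11 13 21 [0x2000, 0xff0586c],
  .mk 11 13 21 [0x4000, 0xffffffff3]] = true := by
  decide +kernel

theorem t2 : runX PT.R (Wk.frw PT.R) nl RvT (SMap.evl cT tlT PT.vx ringF) [
  .mk 11 13 21 [0x4000, 0x4, 0x1748b]] = true := by
  decide +kernel

theorem t3 : runX PT.R (Wk.frw PT.R) nl RvT (SMap.evl cT tlT PT.vx ringF) [
  .mk 11 13 21 [0x4000, 0x4, 0x7e8974]] = true := by
  decide +kernel

theorem t4 : runX PT.R (Wk.frw PT.R) nl RvT (SMap.evl cT tlT PT.vx ringF) [
  .mk 11 13 21 [0x4000, 0x4, 0x200, 0x1c008082000000000000000000000000000000000000143]] = true := by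
  decide +kernel

theorem t5 : runX PT.R (Wk.frw PT.R) nl RvT (SMap.evl cT tlT PT.vx ringF) [
  .mk 11 13 21 [0x4000, 0x4, 0x200, 0xfffffffffffffffffffffffffffffffffffffffffffffffffffffffffe3ff7f7dffffffffffffffffffffffffffffffffffffebc]] = true := by
  decide +kernel

theorem t6 : runX PT.R (Wk.frw PT.R) nl RvT (SMap.evl cT tlT PT.vx ringF) [
  .mk 11 13 21 [0x4000, 0x8, 0x3260033]] = true := by
  decide +kernel

/-- The tasks. -/
noncomputable def P : List (List Tk) := [
[
  .mk 11 13 21 [0x2000, 0xfa793]],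
[
  .mk 11 13 21 [0x2000, 0xff0586c],
  .mk 11 13 21 [0x4000, 0xffffffff3]],
[
  .mk 11 13 21 [0x4000, 0x4, 0x1748b]],
[
  .mk 11 13 21 [0x4000, 0x4, 0x7e8974]],
[
  .mk 11 13 21 [0x4000, 0x4, 0x200, 0x1c008082000000000000000000000000000000000000143]],
[
  .mk 11 13 21 [0x4000, 0x4, 0x200, 0xfffffffffffffffffffffffffffffffffffffffffffffffffffffffffe3ff7f7dffffffffffffffffffffffffffffffffffffebc]],
[
  .mk 11 13 21 [0x4000, 0x8, 0x3260033]]]

theorem run : RunAll (runX PT.R (Wk.frw PT.R) nl RvT (SMap.evl cT tlT PT.vx ringF)) P :=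
  .cons t0 (.cons t1 (.cons t2 (.cons t3 (.cons t4 (.cons t5 (.cons t6 (.nil)))))))

end Pool.Agent.Lib.MP_5854e1_co.Cz.Sr265

namespace Pool.Agent.Lib.MP_5854e1_co.Cz.Sr480

open PB

theorem t0 : runX PT.R (Wk.frw PT.R) nl RvT (SMap.evl cT tlT PT.vx ringF) [
  .mk 48 9 41 [0x2, 0x1000000000000000000000000000000000000000000000000000000000000000, 0xffffffffffffffffffffffffffffffffffffffffffffffffffffffffffffffffffffffb]] = true := by
  decide +kernel

theorem t1 : runX PT.R (Wk.frw PT.R) nl RvT (SMap.evl cT tlT PT.vx ringF) [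
  .mk 48 9 41 [0x2, 0x1000000000000000000000000000000000000000000000000000000000000000, 0x4, 0x7ffdff],
  .mk 48 9 41 [0x2, 0x1000000000000000000000000000000000000000000000000000000000000000, 0x4, 0x200, 0xffffffffffffffffffffffffffffffffffffffffffffffffffffffffffffffffffffffffffffffffffffffffffffffffffdfffff]] = true := by
  decide +kernel

theorem t2 : runX PT.R (Wk.frw PT.R) nl RvT (SMap.evl cT tlT PT.vx ringF) [
  .mk 48 9 41 [0x2, 0x1000000000000000000000000000000000000000000000000000000000000000, 0x4, 0x200, 0x200000, 0xfffffffff]] = true := by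
  decide +kernel

theorem t3 : runX PT.R (Wk.frw PT.R) nl RvT (SMap.evl cT tlT PT.vx ringF) [
  .mk 48 9 41 [0x200, 0xffffb7ff7]] = true := by
  decide +kernel

theorem t4 : runX PT.R (Wk.frw PT.R) nl RvT (SMap.evl cT tlT PT.vx ringF) [
  .mk 48 9 41 [0x200, 0x8, 0x3fffbffff]] = true := by
  decide +kernel

/-- The tasks. -/
noncomputable def P : List (List Tk) := [
[
  .mk 48 9 41 [0x2, 0x1000000000000000000000000000000000000000000000000000000000000000, 0xffffffffffffffffffffffffffffffffffffffffffffffffffffffffffffffffffffffb]],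
[
  .mk 48 9 41 [0x2, 0x1000000000000000000000000000000000000000000000000000000000000000, 0x4, 0x7ffdff],
  .mk 48 9 41 [0x2, 0x1000000000000000000000000000000000000000000000000000000000000000, 0x4, 0x200, 0xffffffffffffffffffffffffffffffffffffffffffffffffffffffffffffffffffffffffffffffffffffffffffffffffffdfffff]],
[
  .mk 48 9 41 [0x2, 0x1000000000000000000000000000000000000000000000000000000000000000, 0x4, 0x200, 0x200000, 0xfffffffff]],
[
  .mk 48 9 41 [0x200, 0xffffb7ff7]],
[
  .mk 48 9 41 [0x200, 0x8, 0x3fffbffff]]]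

theorem run : RunAll (runX PT.R (Wk.frw PT.R) nl RvT (SMap.evl cT tlT PT.vx ringF)) P :=
  .cons t0 (.cons t1 (.cons t2 (.cons t3 (.cons t4 (.nil)))))

end Pool.Agent.Lib.MP_5854e1_co.Cz.Sr480
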