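import Pool.Agent.Lib.MP_5854e1_co.Cz.P
import Pool.Agent.Lib.MP_5854e1_co.Tkx
import Pool.Agent.Lib.MP_5854e1_co.RunAll

/-!
# Search, part 267
-/

set_option autoImplicit false
set_option deprecated.oldSectionVars true
set_option maxRecDepth 100000

namespace Pool.Agent.Lib.MP_5854e1_co.Cz.Sr267

open PB

theorem t0 : runX PT.R (Wk.frw PT.R) nl RvT (SMap.evl cT tlT PT.vx ringF) [
  .mk 11 14 22 [0x20, 0x3020073]] = true := by
  decide +kernel

theorem t1 : runX PT.R (Wk.frw PT.R) nl RvT (SMap.evl cT tlT PT.vx ringF) [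
  .mk 11 14 22 [0x20, 0x3fcfdff80],
  .mk 11 14 22 [0x20, 0x4, 0x7fdff]] = true := by
  decide +kernel

theorem t2 : runX PT.R (Wk.frw PT.R) nl RvT (SMap.evl cT tlT PT.vx ringF) [
  .mk 11 14 22 [0x20, 0x4, 0x200, 0x88200000000000000019c01]] = true := by
  decide +kernel

theorem t3 : runX PT.R (Wk.frw PT.R) nl RvT (SMap.evl cT tlT PT.vx ringF) [
  .mk 11 14 22 [0x20, 0x4, 0x200, 0xfffffffffffffffffffffffffffffffffffffffffffffffffffffffffffffffffffffffffffffffff77dfffffffffffffffe63fe]] = true := by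
  decide +kernel

theorem t4 : runX PT.R (Wk.frw PT.R) nl RvT (SMap.evl cT tlT PT.vx ringF) [
  .mk 11 14 22 [0x20, 0x8, 0x3000cf]] = true := by
  decide +kernel

theorem t5 : runX PT.R (Wk.frw PT.R) nl RvT (SMap.evl cT tlT PT.vx ringF) [
  .mk 11 14 22 [0x20, 0x8, 0x3f8fff30]] = true := by
  decide +kernel

/-- The tasks. -/
noncomputable def P : List (List Tk) := [
[
  .mk 11 14 22 [0x20, 0x3020073]],
[
  .mk 11 14 22 [0x20, 0x3fcfdff80],
  .mk 11 14 22 [0x20, 0x4, 0x7fdff]],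
[
  .mk 11 14 22 [0x20, 0x4, 0x200, 0x88200000000000000019c01]],
[
  .mk 11 14 22 [0x20, 0x4, 0x200, 0xfffffffffffffffffffffffffffffffffffffffffffffffffffffffffffffffffffffffffffffffff77dfffffffffffffffe63fe]],
[
  .mk 11 14 22 [0x20, 0x8, 0x3000cf]],
[
  .mk 11 14 22 [0x20, 0x8, 0x3f8fff30]]]

theorem run : RunAll (runX PT.R (Wk.frw PT.R) nl RvT (SMap.evl cT tlT PT.vx ringF)) P :=
  .cons t0 (.cons t1 (.cons t2 (.cons t3 (.cons t4 (.cons t5 (.nil))))))

end Pool.Agent.Lib.MP_5854e1_co.Cz.Sr267
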