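import Pool.Agent.Lib.MP_5854e1_co.Cz.P
import Pool.Agent.Lib.MP_5854e1_co.Tkx
import Pool.Agent.Lib.MP_5854e1_co.RunAll

/-!
# Search, part 270
-/

set_option autoImplicit false
set_option deprecated.oldSectionVars true
set_option maxRecDepth 100000

namespace Pool.Agent.Lib.MP_5854e1_co.Cz.Sr270

open PB

theorem t0 : runX PT.R (Wk.frw PT.R) nl RvT (SMap.evl cT tlT PT.vx ringF) [
  .mk 11 15 23 [0x1, 0x700000000000000000000000000000000000000000000000000fffe00000000200000000000000000000]] = true := by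
  decide +kernel

theorem t1 : runX PT.R (Wk.frw PT.R) nl RvT (SMap.evl cT tlT PT.vx ringF) [
  .mk 11 15 23 [0x1, 0xffffffffffffffffffff8ffffffffffffffffffffffffffffffffffffffffffffffffff0001ffffffffdffffffffffffffffffff],
  .mk 11 15 23 [0x800, 0x6218053]] = true := by
  decide +kernel

theorem t2 : runX PT.R (Wk.frw PT.R) nl RvT (SMap.evl cT tlT PT.vx ringF) [
  .mk 11 15 23 [0x800, 0xff9de7fac]] = true := by
  decide +kernel

theorem t3 : runX PT.R (Wk.frw PT.R) nl RvT (SMap.evl cT tlT PT.vx ringF) [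
  .mk 11 15 23 [0x100000, 0x1e000000002000000000000000000000000000000000000000]] = true := by
  decide +kernel

theorem t4 : runX PT.R (Wk.frw PT.R) nl RvT (SMap.evl cT tlT PT.vx ringF) [
  .mk 11 15 23 [0x100000, 0xe0000000000000000000000000000000000000000000000000]] = true := by
  decide +kernel

/-- The tasks. -/
noncomputable def P : List (List Tk) := [
[
  .mk 11 15 23 [0x1, 0x700000000000000000000000000000000000000000000000000fffe00000000200000000000000000000]],
[
  .mk 11 15 23 [0x1, 0xffffffffffffffffffff8ffffffffffffffffffffffffffffffffffffffffffffffffff0001ffffffffdffffffffffffffffffff],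
  .mk 11 15 23 [0x800, 0x6218053]],
[
  .mk 11 15 23 [0x800, 0xff9de7fac]],
[
  .mk 11 15 23 [0x100000, 0x1e000000002000000000000000000000000000000000000000]],
[
  .mk 11 15 23 [0x100000, 0xe0000000000000000000000000000000000000000000000000]]]

theorem run : RunAll (runX PT.R (Wk.frw PT.R) nl RvT (SMap.evl cT tlT PT.vx ringF)) P :=
  .cons t0 (.cons t1 (.cons t2 (.cons t3 (.cons t4 (.nil)))))

end Pool.Agent.Lib.MP_5854e1_co.Cz.Sr270

namespace Pool.Agent.Lib.MP_5854e1_co.Cz.Sr298

open PB

theorem t0 : runX PT.R (Wk.frw PT.R) nl RvT (SMap.evl cT tlT PT.vx ringF) [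
  .mk 12 29 55 [0x400, 0x1000, 0x1, 0x1000000000000000000000000000000000000000000000000000000000000000000000000000000000000000000000000, 0x43]] = true := by
  decide +kernel

theorem t1 : runX PT.R (Wk.frw PT.R) nl RvT (SMap.evl cT tlT PT.vx ringF) [
  .mk 12 29 55 [0x400, 0x1000, 0x1, 0x1000000000000000000000000000000000000000000000000000000000000000000000000000000000000000000000000, 0xfffffffffffffffffffffffffffffffffffffffffffffffffffffffffffffffffffffbc]] = true := by
  decide +kernel

theorem t2 : runX PT.R (Wk.frw PT.R) nl RvT (SMap.evl cT tlT PT.vx ringF) [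
  .mk 12 29 55 [0x400, 0x1000, 0x40000000000000, 0xff]] = true := by
  decide +kernel

theorem t3 : runX PT.R (Wk.frw PT.R) nl RvT (SMap.evl cT tlT PT.vx ringF) [
  .mk 12 29 55 [0x400, 0x1000, 0x40000000000000, 0x1fff00]] = true := by
  decide +kernel

theorem t4 : runX PT.R (Wk.frw PT.R) nl RvT (SMap.evl cT tlT PT.vx ringF) [
  .mk 12 29 55 [0x400, 0x1000, 0x80000000000000, 0x28b]] = true := by
  decide +kernel

theorem t5 : runX PT.R (Wk.frw PT.R) nl RvT (SMap.evl cT tlT PT.vx ringF) [
  .mk 12 29 55 [0x400, 0x1000, 0x80000000000000, 0x7fd74],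
  .mk 12 30 56 [0x3ffffff7fffff]] = true := by
  decide +kernel

theorem t6 : runX PT.R (Wk.frw PT.R) nl RvT (SMap.evl cT tlT PT.vx ringF) [
  .mk 12 30 56 [0x800000, 0x7]] = true := by
  decide +kernel

/-- The tasks. -/
noncomputable def P : List (List Tk) := [
[
  .mk 12 29 55 [0x400, 0x1000, 0x1, 0x1000000000000000000000000000000000000000000000000000000000000000000000000000000000000000000000000, 0x43]],
[
  .mk 12 29 55 [0x400, 0x1000, 0x1, 0x1000000000000000000000000000000000000000000000000000000000000000000000000000000000000000000000000, 0xfffffffffffffffffffffffffffffffffffffffffffffffffffffffffffffffffffffbc]],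
[
  .mk 12 29 55 [0x400, 0x1000, 0x40000000000000, 0xff]],
[
  .mk 12 29 55 [0x400, 0x1000, 0x40000000000000, 0x1fff00]],
[
  .mk 12 29 55 [0x400, 0x1000, 0x80000000000000, 0x28b]],
[
  .mk 12 29 55 [0x400, 0x1000, 0x80000000000000, 0x7fd74],
  .mk 12 30 56 [0x3ffffff7fffff]],
[
  .mk 12 30 56 [0x800000, 0x7]]]

theorem run : RunAll (runX PT.R (Wk.frw PT.R) nl RvT (SMap.evl cT tlT PT.vx ringF)) P :=
  .cons t0 (.cons t1 (.cons t2 (.cons t3 (.cons t4 (.cons t5 (.cons t6 (.nil)))))))

end Pool.Agent.Lib.MP_5854e1_co.Cz.Sr298
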