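import Pool.Agent.Lib.MP_5854e1_co.Cz.P
import Pool.Agent.Lib.MP_5854e1_co.Tkx
import Pool.Agent.Lib.MP_5854e1_co.RunAll

/-!
# Search, part 276
-/

set_option autoImplicit false
set_option deprecated.oldSectionVars true
set_option maxRecDepth 100000

namespace Pool.Agent.Lib.MP_5854e1_co.Cz.Sr276

open PB

theorem t0 : runX PT.R (Wk.frw PT.R) nl RvT (SMap.evl cT tlT PT.vx ringF) [
  .mk 12 9 41 [0x4, 0x7fe1fa],
  .mk 12 9 41 [0x8, 0x1a793]] = true := by
  decide +kernel

theorem t1 : runX PT.R (Wk.frw PT.R) nl RvT (SMap.evl cT tlT PT.vx ringF) [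
  .mk 12 9 41 [0x8, 0xe0000]] = true := by
  decide +kernel

theorem t2 : runX PT.R (Wk.frw PT.R) nl RvT (SMap.evl cT tlT PT.vx ringF) [
  .mk 12 9 41 [0x8, 0x3fff0586c]] = true := by
  decide +kernel

theorem t3 : runX PT.R (Wk.frw PT.R) nl RvT (SMap.evl cT tlT PT.vx ringF) [
  .mk 12 9 41 [0x200, 0x7]] = true := by
  decide +kernel

theorem t4 : runX PT.R (Wk.frw PT.R) nl RvT (SMap.evl cT tlT PT.vx ringF) [
  .mk 12 9 41 [0x200, 0x16478078]] = true := by
  decide +kernel

theorem t5 : runX PT.R (Wk.frw PT.R) nl RvT (SMap.evl cT tlT PT.vx ringF) [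
  .mk 12 9 41 [0x200, 0xfe1b87f80]] = true := by
  decide +kernel

/-- The tasks. -/
noncomputable def P : List (List Tk) := [
[
  .mk 12 9 41 [0x4, 0x7fe1fa],
  .mk 12 9 41 [0x8, 0x1a793]],
[
  .mk 12 9 41 [0x8, 0xe0000]],
[
  .mk 12 9 41 [0x8, 0x3fff0586c]],
[
  .mk 12 9 41 [0x200, 0x7]],
[
  .mk 12 9 41 [0x200, 0x16478078]],
[
  .mk 12 9 41 [0x200, 0xfe1b87f80]]]

theorem run : RunAll (runX PT.R (Wk.frw PT.R) nl RvT (SMap.evl cT tlT PT.vx ringF)) P :=
  .cons t0 (.cons t1 (.cons t2 (.cons t3 (.cons t4 (.cons t5 (.nil))))))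

end Pool.Agent.Lib.MP_5854e1_co.Cz.Sr276

namespace Pool.Agent.Lib.MP_5854e1_co.Cz.Sr569

open PB

theorem t0 : runX PT.R (Wk.frw PT.R) nl RvT (SMap.evl cT tlT PT.vx ringF) [
  .mk 68 15 23 [0x800000, 0x20000, 0x200000000000000000000000000000000000000000000000000f00000000000200000000000000000000]] = true := by
  decide +kernel

theorem t1 : runX PT.R (Wk.frw PT.R) nl RvT (SMap.evl cT tlT PT.vx ringF) [
  .mk 68 15 23 [0x800000, 0x20000, 0x402501c00000000000000000000000000000000000000000000000000000000000000000000000000000000000]] = true := by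
  decide +kernel

theorem t2 : runX PT.R (Wk.frw PT.R) nl RvT (SMap.evl cT tlT PT.vx ringF) [
  .mk 68 15 23 [0x800000, 0x20000, 0xffffffffffffff9fda7e0ffffffffffffffffffffffffffffffffffffffffffffffffff0fffffffffffdffffffffffffffffffff]] = true := by
  decide +kernel

theorem t3 : runX PT.R (Wk.frw PT.R) nl RvT (SMap.evl cT tlT PT.vx ringF) [
  .mk 68 15 23 [0x800000, 0x20000, 0x100000000000000000000000000000000000000000000000000000000000000000000000000000000000, 0x3c0000600000000000000000000]] = true := by
  decide +kernel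

theorem t4 : runX PT.R (Wk.frw PT.R) nl RvT (SMap.evl cT tlT PT.vx ringF) [
  .mk 68 15 23 [0x800000, 0x20000, 0x100000000000000000000000000000000000000000000000000000000000000000000000000000000000, 0xfffffffffffffffffffffffffffffffffffffffffffffffffffffffffffffffffffffffffffffc3ffff9ffffffffffffffffffff]] = true := by
  decide +kernel

theorem t5 : runX PT.R (Wk.frw PT.R) nl RvT (SMap.evl cT tlT PT.vx ringF) [
  .mk 68 15 23 [0x800000, 0x20000, 0x80000000000000000000000000000000000000000000000000000000000000000000000000000000000000, 0x820000000000000004a401]] = true := by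
  decide +kernel

/-- The tasks. -/
noncomputable def P : List (List Tk) := [
[
  .mk 68 15 23 [0x800000, 0x20000, 0x200000000000000000000000000000000000000000000000000f00000000000200000000000000000000]],
[
  .mk 68 15 23 [0x800000, 0x20000, 0x402501c00000000000000000000000000000000000000000000000000000000000000000000000000000000000]],
[
  .mk 68 15 23 [0x800000, 0x20000, 0xffffffffffffff9fda7e0ffffffffffffffffffffffffffffffffffffffffffffffffff0fffffffffffdffffffffffffffffffff]],
[
  .mk 68 15 23 [0x800000, 0x20000, 0x100000000000000000000000000000000000000000000000000000000000000000000000000000000000, 0x3c0000600000000000000000000]],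
[
  .mk 68 15 23 [0x800000, 0x20000, 0x100000000000000000000000000000000000000000000000000000000000000000000000000000000000, 0xfffffffffffffffffffffffffffffffffffffffffffffffffffffffffffffffffffffffffffffc3ffff9ffffffffffffffffffff]],
[
  .mk 68 15 23 [0x800000, 0x20000, 0x80000000000000000000000000000000000000000000000000000000000000000000000000000000000000, 0x820000000000000004a401]]]

theorem run : RunAll (runX PT.R (Wk.frw PT.R) nl RvT (SMap.evl cT tlT PT.vx ringF)) P :=
  .cons t0 (.cons t1 (.cons t2 (.cons t3 (.cons t4 (.cons t5 (.nil))))))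

end Pool.Agent.Lib.MP_5854e1_co.Cz.Sr569
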