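import Pool.Agent.Lib.MP_5854e1_co.Cz.P
import Pool.Agent.Lib.MP_5854e1_co.Tkx
import Pool.Agent.Lib.MP_5854e1_co.RunAll

/-!
# Search, part 277
-/

set_option autoImplicit false
set_option deprecated.oldSectionVars true
set_option maxRecDepth 100000

namespace Pool.Agent.Lib.MP_5854e1_co.Cz.Sr277

open PB

theorem t0 : runX PT.R (Wk.frw PT.R) nl RvT (SMap.evl cT tlT PT.vx ringF) [
  .mk 12 9 41 [0x200, 0x8000000, 0xff7ffffff],
  .mk 12 9 41 [0x200, 0x8000000, 0x8000000, 0xffffffffd],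
  .mk 12 9 41 [0x200, 0x8000000, 0x8000000, 0x2, 0xfffffffefffffffffffffffffffffffffffffffffffffffffffffffffffffffffffffff]] = true := by
  decide +kernel

theorem t1 : runX PT.R (Wk.frw PT.R) nl RvT (SMap.evl cT tlT PT.vx ringF) [
  .mk 12 9 41 [0x200, 0x8000000, 0x8000000, 0x2, 0x1000000000000000000000000000000000000000000000000000000000000000, 0xfffffffffffffffffffffffffffffffffffffffffffffffffffffffffffffffffffffff]] = true := by
  decide +kernel

theorem t2 : runX PT.R (Wk.frw PT.R) nl RvT (SMap.evl cT tlT PT.vx ringF) [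
  .mk 12 9 41 [0x800, 0x1c0000]] = true := by
  decide +kernel

theorem t3 : runX PT.R (Wk.frw PT.R) nl RvT (SMap.evl cT tlT PT.vx ringF) [
  .mk 12 9 41 [0x800, 0x3ffffffe3ffff]] = true := by
  decide +kernel

theorem t4 : runX PT.R (Wk.frw PT.R) nl RvT (SMap.evl cT tlT PT.vx ringF) [
  .mk 12 9 41 [0x2000, 0xfa593]] = true := by
  decide +kernel

theorem t5 : runX PT.R (Wk.frw PT.R) nl RvT (SMap.evl cT tlT PT.vx ringF) [
  .mk 12 9 41 [0x2000, 0xff0586c],
  .mk 12 9 41 [0x2000, 0x200, 0xffffffffe],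
  .mk 12 9 41 [0x2000, 0x200, 0x1, 0xfffffffffffffffffffffffffffffffffffffffffffffffffffffffffffffffffffffffffffffffffffdffffffffffffffffffff],
  .mk 12 9 41 [0x2000, 0x200, 0x1, 0x200000000000000000000, 0xffffffffffffffffffffffffffffffbfffffffffffffffffffffffffffffffffffffffffffffffffffffffffffffffffffffffff]] = true := by
  decide +kernel

/-- The tasks. -/
noncomputable def P : List (List Tk) := [
[
  .mk 12 9 41 [0x200, 0x8000000, 0xff7ffffff],
  .mk 12 9 41 [0x200, 0x8000000, 0x8000000, 0xffffffffd],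
  .mk 12 9 41 [0x200, 0x8000000, 0x8000000, 0x2, 0xfffffffefffffffffffffffffffffffffffffffffffffffffffffffffffffffffffffff]],
[
  .mk 12 9 41 [0x200, 0x8000000, 0x8000000, 0x2, 0x1000000000000000000000000000000000000000000000000000000000000000, 0xfffffffffffffffffffffffffffffffffffffffffffffffffffffffffffffffffffffff]],
[
  .mk 12 9 41 [0x800, 0x1c0000]],
[
  .mk 12 9 41 [0x800, 0x3ffffffe3ffff]],
[
  .mk 12 9 41 [0x2000, 0xfa593]],
[
  .mk 12 9 41 [0x2000, 0xff0586c],
  .mk 12 9 41 [0x2000, 0x200, 0xffffffffe],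
  .mk 12 9 41 [0x2000, 0x200, 0x1, 0xfffffffffffffffffffffffffffffffffffffffffffffffffffffffffffffffffffffffffffffffffffdffffffffffffffffffff],
  .mk 12 9 41 [0x2000, 0x200, 0x1, 0x200000000000000000000, 0xffffffffffffffffffffffffffffffbfffffffffffffffffffffffffffffffffffffffffffffffffffffffffffffffffffffffff]]]

theorem run : RunAll (runX PT.R (Wk.frw PT.R) nl RvT (SMap.evl cT tlT PT.vx ringF)) P :=
  .cons t0 (.cons t1 (.cons t2 (.cons t3 (.cons t4 (.cons t5 (.nil))))))

end Pool.Agent.Lib.MP_5854e1_co.Cz.Sr277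

namespace Pool.Agent.Lib.MP_5854e1_co.Cz.Sr439

open PB

theorem t0 : runX PT.R (Wk.frw PT.R) nl RvT (SMap.evl cT tlT PT.vx ringF) [
  .mk 42 26 68 [0x1000, 0xfffffffffffffffffffffffffe0fffffffffffffffffffffffffffffff798a8fffffffe]] = true := by
  decide +kernel

theorem t1 : runX PT.R (Wk.frw PT.R) nl RvT (SMap.evl cT tlT PT.vx ringF) [
  .mk 42 26 68 [0x2000, 0x10032]] = true := by
  decide +kernel

theorem t2 : runX PT.R (Wk.frw PT.R) nl RvT (SMap.evl cT tlT PT.vx ringF) [
  .mk 42 26 68 [0x2000, 0x3e0000]] = true := by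
  decide +kernel

theorem t3 : runX PT.R (Wk.frw PT.R) nl RvT (SMap.evl cT tlT PT.vx ringF) [
  .mk 42 26 68 [0x2000, 0xfffc07fc0]] = true := by
  decide +kernel

theorem t4 : runX PT.R (Wk.frw PT.R) nl RvT (SMap.evl cT tlT PT.vx ringF) [
  .mk 42 26 68 [0x2000, 0x1, 0xfe000000002000000000000000000000000000000000000000]] = true := by
  decide +kernel

theorem t5 : runX PT.R (Wk.frw PT.R) nl RvT (SMap.evl cT tlT PT.vx ringF) [
  .mk 42 26 68 [0x2000, 0x1, 0x1f0f00000000000000000000000000000000000000000000000000]] = true := by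
  decide +kernel

/-- The tasks. -/
noncomputable def P : List (List Tk) := [
[
  .mk 42 26 68 [0x1000, 0xfffffffffffffffffffffffffe0fffffffffffffffffffffffffffffff798a8fffffffe]],
[
  .mk 42 26 68 [0x2000, 0x10032]],
[
  .mk 42 26 68 [0x2000, 0x3e0000]],
[
  .mk 42 26 68 [0x2000, 0xfffc07fc0]],
[
  .mk 42 26 68 [0x2000, 0x1, 0xfe000000002000000000000000000000000000000000000000]],
[
  .mk 42 26 68 [0x2000, 0x1, 0x1f0f00000000000000000000000000000000000000000000000000]]]

theorem run : RunAll (runX PT.R (Wk.frw PT.R) nl RvT (SMap.evl cT tlT PT.vx ringF)) P :=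
  .cons t0 (.cons t1 (.cons t2 (.cons t3 (.cons t4 (.cons t5 (.nil))))))

end Pool.Agent.Lib.MP_5854e1_co.Cz.Sr439
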