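import Pool.Agent.Lib.MP_5854e1_co.Cz.P
import Pool.Agent.Lib.MP_5854e1_co.Tkx
import Pool.Agent.Lib.MP_5854e1_co.RunAll

/-!
# Search, part 278
-/

set_option autoImplicit false
set_option deprecated.oldSectionVars true
set_option maxRecDepth 100000

namespace Pool.Agent.Lib.MP_5854e1_co.Cz.Sr278

open PB

theorem t0 : runX PT.R (Wk.frw PT.R) nl RvT (SMap.evl cT tlT PT.vx ringF) [
  .mk 12 9 41 [0x2000, 0x200, 0x1, 0x200000000000000000000, 0x40000000000000000000000000000000000000000000000000000000000000000000000000, 0xfffffffffffffffffffffffffffffffffffffffffffffffffffffffffffffffffffffff]] = true := by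
  decide +kernel

theorem t1 : runX PT.R (Wk.frw PT.R) nl RvT (SMap.evl cT tlT PT.vx ringF) [
  .mk 12 10 42 [],
  .mk 12 11 43 [],
  .mk 12 12 44 [],
  .mk 12 13 45 [],
  .mk 12 14 46 [],
  .mk 12 15 47 [],
  .mk 12 16 49 []] = true := by
  decide +kernel

theorem t2 : runX PT.R (Wk.frw PT.R) nl RvT (SMap.evl cT tlT PT.vx ringF) [
  .mk 12 17 0 [0x1101e0000000000000000000000000000000000001a00000000000000000000000000000000000000000000000000000000]] = true := by
  decide +kernel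

theorem t3 : runX PT.R (Wk.frw PT.R) nl RvT (SMap.evl cT tlT PT.vx ringF) [
  .mk 12 17 0 [0xfffffeefe1ffffffffffffffffffffffffffffffffffffc5ffffffffffffffffffffffffffffffffffffffffffffffffffffffff]] = true := by
  decide +kernel

theorem t4 : runX PT.R (Wk.frw PT.R) nl RvT (SMap.evl cT tlT PT.vx ringF) [
  .mk 12 17 0 [0x2000000000000000000000000000000000000000000000000000000000, 0x400000]] = true := by
  decide +kernel

/-- The tasks. -/
noncomputable def P : List (List Tk) := [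
[
  .mk 12 9 41 [0x2000, 0x200, 0x1, 0x200000000000000000000, 0x40000000000000000000000000000000000000000000000000000000000000000000000000, 0xfffffffffffffffffffffffffffffffffffffffffffffffffffffffffffffffffffffff]],
[
  .mk 12 10 42 [],
  .mk 12 11 43 [],
  .mk 12 12 44 [],
  .mk 12 13 45 [],
  .mk 12 14 46 [],
  .mk 12 15 47 [],
  .mk 12 16 49 []],
[
  .mk 12 17 0 [0x1101e0000000000000000000000000000000000001a00000000000000000000000000000000000000000000000000000000]],
[
  .mk 12 17 0 [0xfffffeefe1ffffffffffffffffffffffffffffffffffffc5ffffffffffffffffffffffffffffffffffffffffffffffffffffffff]],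
[
  .mk 12 17 0 [0x2000000000000000000000000000000000000000000000000000000000, 0x400000]]]

theorem run : RunAll (runX PT.R (Wk.frw PT.R) nl RvT (SMap.evl cT tlT PT.vx ringF)) P :=
  .cons t0 (.cons t1 (.cons t2 (.cons t3 (.cons t4 (.nil)))))

end Pool.Agent.Lib.MP_5854e1_co.Cz.Sr278

namespace Pool.Agent.Lib.MP_5854e1_co.Cz.Sr440

open PB

theorem t0 : runX PT.R (Wk.frw PT.R) nl RvT (SMap.evl cT tlT PT.vx ringF) [
  .mk 42 26 68 [0x2000, 0x1, 0xffffffffffffffffffffffffffffffffffffffffffffffffffe0f001ffffffffdfffffffffffffffffffffffffffffffffffffff]] = true := by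
  decide +kernel

theorem t1 : runX PT.R (Wk.frw PT.R) nl RvT (SMap.evl cT tlT PT.vx ringF) [
  .mk 42 26 68 [0x2000, 0x4, 0x68f]] = true := by
  decide +kernel

theorem t2 : runX PT.R (Wk.frw PT.R) nl RvT (SMap.evl cT tlT PT.vx ringF) [
  .mk 42 26 68 [0x2000, 0x4, 0x7ff970]] = true := by
  decide +kernel

theorem t3 : runX PT.R (Wk.frw PT.R) nl RvT (SMap.evl cT tlT PT.vx ringF) [
  .mk 42 26 68 [0x2000, 0x8, 0x1a793]] = true := by
  decide +kernel

theorem t4 : runX PT.R (Wk.frw PT.R) nl RvT (SMap.evl cT tlT PT.vx ringF) [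
  .mk 42 26 68 [0x2000, 0x8, 0x20000]] = true := by
  decide +kernel

theorem t5 : runX PT.R (Wk.frw PT.R) nl RvT (SMap.evl cT tlT PT.vx ringF) [
  .mk 42 26 68 [0x2000, 0x8, 0x3fffc586c]] = true := by
  decide +kernel

/-- The tasks. -/
noncomputable def P : List (List Tk) := [
[
  .mk 42 26 68 [0x2000, 0x1, 0xffffffffffffffffffffffffffffffffffffffffffffffffffe0f001ffffffffdfffffffffffffffffffffffffffffffffffffff]],
[
  .mk 42 26 68 [0x2000, 0x4, 0x68f]],
[
  .mk 42 26 68 [0x2000, 0x4, 0x7ff970]],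
[
  .mk 42 26 68 [0x2000, 0x8, 0x1a793]],
[
  .mk 42 26 68 [0x2000, 0x8, 0x20000]],
[
  .mk 42 26 68 [0x2000, 0x8, 0x3fffc586c]]]

theorem run : RunAll (runX PT.R (Wk.frw PT.R) nl RvT (SMap.evl cT tlT PT.vx ringF)) P :=
  .cons t0 (.cons t1 (.cons t2 (.cons t3 (.cons t4 (.cons t5 (.nil))))))

end Pool.Agent.Lib.MP_5854e1_co.Cz.Sr440

namespace Pool.Agent.Lib.MP_5854e1_co.Cz.Sr520

open PB

theorem t0 : runX PT.R (Wk.frw PT.R) nl RvT (SMap.evl cT tlT PT.vx ringF) [
  .mk 63 9 52 [0x200, 0x8, 0x1000000, 0xcc03]] = true := by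
  decide +kernel

theorem t1 : runX PT.R (Wk.frw PT.R) nl RvT (SMap.evl cT tlT PT.vx ringF) [
  .mk 63 9 52 [0x200, 0x8, 0x1000000, 0xf33fc]] = true := by
  decide +kernel

theorem t2 : runX PT.R (Wk.frw PT.R) nl RvT (SMap.evl cT tlT PT.vx ringF) [
  .mk 63 9 52 [0x400, 0xc0000]] = true := by
  decide +kernel

theorem t3 : runX PT.R (Wk.frw PT.R) nl RvT (SMap.evl cT tlT PT.vx ringF) [
  .mk 63 9 52 [0x400, 0x3700000]] = true := by
  decide +kernel

theorem t4 : runX PT.R (Wk.frw PT.R) nl RvT (SMap.evl cT tlT PT.vx ringF) [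
  .mk 63 9 52 [0x400, 0x3ffffec03ffff]] = true := by
  decide +kernel

/-- The tasks. -/
noncomputable def P : List (List Tk) := [
[
  .mk 63 9 52 [0x200, 0x8, 0x1000000, 0xcc03]],
[
  .mk 63 9 52 [0x200, 0x8, 0x1000000, 0xf33fc]],
[
  .mk 63 9 52 [0x400, 0xc0000]],
[
  .mk 63 9 52 [0x400, 0x3700000]],
[
  .mk 63 9 52 [0x400, 0x3ffffec03ffff]]]

theorem run : RunAll (runX PT.R (Wk.frw PT.R) nl RvT (SMap.evl cT tlT PT.vx ringF)) P :=
  .cons t0 (.cons t1 (.cons t2 (.cons t3 (.cons t4 (.nil)))))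

end Pool.Agent.Lib.MP_5854e1_co.Cz.Sr520
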