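import Pool.Agent.Lib.MP_5854e1_co.Cz.P
import Pool.Agent.Lib.MP_5854e1_co.Tkx
import Pool.Agent.Lib.MP_5854e1_co.RunAll

/-!
# Search, part 292
-/

set_option autoImplicit false
set_option deprecated.oldSectionVars true
set_option maxRecDepth 100000

namespace Pool.Agent.Lib.MP_5854e1_co.Cz.Sr292

open PB

theorem t0 : runX PT.R (Wk.frw PT.R) nl RvT (SMap.evl cT tlT PT.vx ringF) [
  .mk 12 28 54 [0x300000]] = true := by
  decide +kernel

theorem t1 : runX PT.R (Wk.frw PT.R) nl RvT (SMap.evl cT tlT PT.vx ringF) [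
  .mk 12 28 54 [0x400000]] = true := by
  decide +kernel

theorem t2 : runX PT.R (Wk.frw PT.R) nl RvT (SMap.evl cT tlT PT.vx ringF) [
  .mk 12 28 54 [0x3800000]] = true := by
  decide +kernel

theorem t3 : runX PT.R (Wk.frw PT.R) nl RvT (SMap.evl cT tlT PT.vx ringF) [
  .mk 12 28 54 [0x4016130]] = true := by
  decide +kernel

theorem t4 : runX PT.R (Wk.frw PT.R) nl RvT (SMap.evl cT tlT PT.vx ringF) [
  .mk 12 29 55 [0x1e]] = true := by
  decide +kernel

theorem t5 : runX PT.R (Wk.frw PT.R) nl RvT (SMap.evl cT tlT PT.vx ringF) [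
  .mk 12 29 55 [0x380bc0]] = true := by
  decide +kernel

/-- The tasks. -/
noncomputable def P : List (List Tk) := [
[
  .mk 12 28 54 [0x300000]],
[
  .mk 12 28 54 [0x400000]],
[
  .mk 12 28 54 [0x3800000]],
[
  .mk 12 28 54 [0x4016130]],
[
  .mk 12 29 55 [0x1e]],
[
  .mk 12 29 55 [0x380bc0]]]

theorem run : RunAll (runX PT.R (Wk.frw PT.R) nl RvT (SMap.evl cT tlT PT.vx ringF)) P :=
  .cons t0 (.cons t1 (.cons t2 (.cons t3 (.cons t4 (.cons t5 (.nil))))))

end Pool.Agent.Lib.MP_5854e1_co.Cz.Sr292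

namespace Pool.Agent.Lib.MP_5854e1_co.Cz.Sr559

open PB

theorem t0 : runX PT.R (Wk.frw PT.R) nl RvT (SMap.evl cT tlT PT.vx ringF) [
  .mk 68 14 22 [0x400, 0x2000, 0x8000, 0x20000000000000000000000000000000000000000000000000, 0x2, 0xffffffff3e67fffffffffffffffffffffffffffffffffffffffffffffffffffffffffff]] = true := by
  decide +kernel

theorem t1 : runX PT.R (Wk.frw PT.R) nl RvT (SMap.evl cT tlT PT.vx ringF) [
  .mk 68 14 22 [0x400, 0x4000, 0x1]] = true := by
  decide +kernel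

theorem t2 : runX PT.R (Wk.frw PT.R) nl RvT (SMap.evl cT tlT PT.vx ringF) [
  .mk 68 14 22 [0x400, 0x4000, 0x16]] = true := by
  decide +kernel

theorem t3 : runX PT.R (Wk.frw PT.R) nl RvT (SMap.evl cT tlT PT.vx ringF) [
  .mk 68 14 22 [0x400, 0x4000, 0xe0]] = true := by
  decide +kernel

theorem t4 : runX PT.R (Wk.frw PT.R) nl RvT (SMap.evl cT tlT PT.vx ringF) [
  .mk 68 14 22 [0x400, 0x4000, 0x3fffffffffe00]] = true := by
  decide +kernel

theorem t5 : runX PT.R (Wk.frw PT.R) nl RvT (SMap.evl cT tlT PT.vx ringF) [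
  .mk 68 14 22 [0x400, 0x4000, 0x8, 0x3fffffffd]] = true := by
  decide +kernel

theorem t6 : runX PT.R (Wk.frw PT.R) nl RvT (SMap.evl cT tlT PT.vx ringF) [
  .mk 68 14 22 [0x400, 0x4000, 0x8, 0x2, 0x3cc000000000000000000000000000000000000]] = true := by
  decide +kernel

/-- The tasks. -/
noncomputable def P : List (List Tk) := [
[
  .mk 68 14 22 [0x400, 0x2000, 0x8000, 0x20000000000000000000000000000000000000000000000000, 0x2, 0xffffffff3e67fffffffffffffffffffffffffffffffffffffffffffffffffffffffffff]],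
[
  .mk 68 14 22 [0x400, 0x4000, 0x1]],
[
  .mk 68 14 22 [0x400, 0x4000, 0x16]],
[
  .mk 68 14 22 [0x400, 0x4000, 0xe0]],
[
  .mk 68 14 22 [0x400, 0x4000, 0x3fffffffffe00]],
[
  .mk 68 14 22 [0x400, 0x4000, 0x8, 0x3fffffffd]],
[
  .mk 68 14 22 [0x400, 0x4000, 0x8, 0x2, 0x3cc000000000000000000000000000000000000]]]

theorem run : RunAll (runX PT.R (Wk.frw PT.R) nl RvT (SMap.evl cT tlT PT.vx ringF)) P :=
  .cons t0 (.cons t1 (.cons t2 (.cons t3 (.cons t4 (.cons t5 (.cons t6 (.nil)))))))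

end Pool.Agent.Lib.MP_5854e1_co.Cz.Sr559
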