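import Pool.Agent.Lib.MP_5854e1_co.Cz.P
import Pool.Agent.Lib.MP_5854e1_co.Tkx
import Pool.Agent.Lib.MP_5854e1_co.RunAll

/-!
# Search, part 309
-/

set_option autoImplicit false
set_option deprecated.oldSectionVars true
set_option maxRecDepth 100000

namespace Pool.Agent.Lib.MP_5854e1_co.Cz.Sr309

open PB

theorem t0 : runX PT.R (Wk.frw PT.R) nl RvT (SMap.evl cT tlT PT.vx ringF) [
  .mk 15 15 44 [0x76]] = true := by
  decide +kernel

theorem t1 : runX PT.R (Wk.frw PT.R) nl RvT (SMap.evl cT tlT PT.vx ringF) [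
  .mk 15 15 44 [0x7e80]] = true := by
  decide +kernel

theorem t2 : runX PT.R (Wk.frw PT.R) nl RvT (SMap.evl cT tlT PT.vx ringF) [
  .mk 15 15 44 [0x38000]] = true := by
  decide +kernel

theorem t3 : runX PT.R (Wk.frw PT.R) nl RvT (SMap.evl cT tlT PT.vx ringF) [
  .mk 15 15 44 [0x3c0000]] = true := by
  decide +kernel

theorem t4 : runX PT.R (Wk.frw PT.R) nl RvT (SMap.evl cT tlT PT.vx ringF) [
  .mk 15 15 44 [0xc00000]] = true := by
  decide +kernel

theorem t5 : runX PT.R (Wk.frw PT.R) nl RvT (SMap.evl cT tlT PT.vx ringF) [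
  .mk 15 15 44 [0xf000000]] = true := by
  decide +kernel

/-- The tasks. -/
noncomputable def P : List (List Tk) := [
[
  .mk 15 15 44 [0x76]],
[
  .mk 15 15 44 [0x7e80]],
[
  .mk 15 15 44 [0x38000]],
[
  .mk 15 15 44 [0x3c0000]],
[
  .mk 15 15 44 [0xc00000]],
[
  .mk 15 15 44 [0xf000000]]]

theorem run : RunAll (runX PT.R (Wk.frw PT.R) nl RvT (SMap.evl cT tlT PT.vx ringF)) P :=
  .cons t0 (.cons t1 (.cons t2 (.cons t3 (.cons t4 (.cons t5 (.nil))))))

end Pool.Agent.Lib.MP_5854e1_co.Cz.Sr309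

namespace Pool.Agent.Lib.MP_5854e1_co.Cz.Sr379

open PB

theorem t0 : runX PT.R (Wk.frw PT.R) nl RvT (SMap.evl cT tlT PT.vx ringF) [
  .mk 41 3 12 [0x80000000, 0x7cfff30],
  .mk 41 3 12 [0x100000000, 0x3c000200000]] = true := by
  decide +kernel

theorem t1 : runX PT.R (Wk.frw PT.R) nl RvT (SMap.evl cT tlT PT.vx ringF) [
  .mk 41 3 12 [0x100000000, 0x7ffc3fffdfffff]] = true := by
  decide +kernel

theorem t2 : runX PT.R (Wk.frw PT.R) nl RvT (SMap.evl cT tlT PT.vx ringF) [
  .mk 41 3 12 [0x200000000, 0xffffffbff],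
  .mk 41 3 12 [0x200000000, 0x400, 0x1c0000]] = true := by
  decide +kernel

theorem t3 : runX PT.R (Wk.frw PT.R) nl RvT (SMap.evl cT tlT PT.vx ringF) [
  .mk 41 3 12 [0x200000000, 0x400, 0x1e00000]] = true := by
  decide +kernel

theorem t4 : runX PT.R (Wk.frw PT.R) nl RvT (SMap.evl cT tlT PT.vx ringF) [
  .mk 41 3 12 [0x200000000, 0x400, 0x2000000]] = true := by
  decide +kernel

theorem t5 : runX PT.R (Wk.frw PT.R) nl RvT (SMap.evl cT tlT PT.vx ringF) [
  .mk 41 3 12 [0x200000000, 0x400, 0x3fffffc03ffff],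
  .mk 41 4 15 []] = true := by
  decide +kernel

theorem t6 : runX PT.R (Wk.frw PT.R) nl RvT (SMap.evl cT tlT PT.vx ringF) [
  .mk 41 5 17 [],
  .mk 41 6 18 [0x7f7ff]] = true := by
  decide +kernel

/-- The tasks. -/
noncomputable def P : List (List Tk) := [
[
  .mk 41 3 12 [0x80000000, 0x7cfff30],
  .mk 41 3 12 [0x100000000, 0x3c000200000]],
[
  .mk 41 3 12 [0x100000000, 0x7ffc3fffdfffff]],
[
  .mk 41 3 12 [0x200000000, 0xffffffbff],
  .mk 41 3 12 [0x200000000, 0x400, 0x1c0000]],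
[
  .mk 41 3 12 [0x200000000, 0x400, 0x1e00000]],
[
  .mk 41 3 12 [0x200000000, 0x400, 0x2000000]],
[
  .mk 41 3 12 [0x200000000, 0x400, 0x3fffffc03ffff],
  .mk 41 4 15 []],
[
  .mk 41 5 17 [],
  .mk 41 6 18 [0x7f7ff]]]

theorem run : RunAll (runX PT.R (Wk.frw PT.R) nl RvT (SMap.evl cT tlT PT.vx ringF)) P :=
  .cons t0 (.cons t1 (.cons t2 (.cons t3 (.cons t4 (.cons t5 (.cons t6 (.nil)))))))

end Pool.Agent.Lib.MP_5854e1_co.Cz.Sr379

namespace Pool.Agent.Lib.MP_5854e1_co.Cz.Sr420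

open PB

theorem t0 : runX PT.R (Wk.frw PT.R) nl RvT (SMap.evl cT tlT PT.vx ringF) [
  .mk 41 34 59 [0x40000, 0x1000000000000000000000000000000000000000000000000000000000000000, 0x4, 0x7ffdff],
  .mk 41 34 59 [0x40000, 0x1000000000000000000000000000000000000000000000000000000000000000, 0x4, 0x200, 0xffffffffffffffffffffffffffffffffffffffffffffffffffffffffffffffffffffffffffffffffffffffffffffffffffdfffff]] = true := by
  decide +kernel

theorem t1 : runX PT.R (Wk.frw PT.R) nl RvT (SMap.evl cT tlT PT.vx ringF) [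
  .mk 41 34 59 [0x40000, 0x1000000000000000000000000000000000000000000000000000000000000000, 0x4, 0x200, 0x200000, 0xfffffffff]] = true := by
  decide +kernel

theorem t2 : runX PT.R (Wk.frw PT.R) nl RvT (SMap.evl cT tlT PT.vx ringF) [
  .mk 41 34 59 [0x800000, 0x3]] = true := by
  decide +kernel

theorem t3 : runX PT.R (Wk.frw PT.R) nl RvT (SMap.evl cT tlT PT.vx ringF) [
  .mk 41 34 59 [0x800000, 0xffffb7ff4]] = true := by
  decide +kernel

/-- The tasks. -/
noncomputable def P : List (List Tk) := [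
[
  .mk 41 34 59 [0x40000, 0x1000000000000000000000000000000000000000000000000000000000000000, 0x4, 0x7ffdff],
  .mk 41 34 59 [0x40000, 0x1000000000000000000000000000000000000000000000000000000000000000, 0x4, 0x200, 0xffffffffffffffffffffffffffffffffffffffffffffffffffffffffffffffffffffffffffffffffffffffffffffffffffdfffff]],
[
  .mk 41 34 59 [0x40000, 0x1000000000000000000000000000000000000000000000000000000000000000, 0x4, 0x200, 0x200000, 0xfffffffff]],
[
  .mk 41 34 59 [0x800000, 0x3]],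
[
  .mk 41 34 59 [0x800000, 0xffffb7ff4]]]

theorem run : RunAll (runX PT.R (Wk.frw PT.R) nl RvT (SMap.evl cT tlT PT.vx ringF)) P :=
  .cons t0 (.cons t1 (.cons t2 (.cons t3 (.nil))))

end Pool.Agent.Lib.MP_5854e1_co.Cz.Sr420

namespace Pool.Agent.Lib.MP_5854e1_co.Cz.Sr543

open PB

theorem t0 : runX PT.R (Wk.frw PT.R) nl RvT (SMap.evl cT tlT PT.vx ringF) [
  .mk 68 13 21 [0x200, 0x4, 0x1000, 0xffffffffffffffffffffffda7e0fffffffffffffffffffffffffffffffffff0fffffffe]] = true := by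
  decide +kernel

theorem t1 : runX PT.R (Wk.frw PT.R) nl RvT (SMap.evl cT tlT PT.vx ringF) [
  .mk 68 13 21 [0x200, 0x4, 0x2000, 0x12]] = true := by
  decide +kernel

theorem t2 : runX PT.R (Wk.frw PT.R) nl RvT (SMap.evl cT tlT PT.vx ringF) [
  .mk 68 13 21 [0x200, 0x4, 0x2000, 0xfffffffec]] = true := by
  decide +kernel

theorem t3 : runX PT.R (Wk.frw PT.R) nl RvT (SMap.evl cT tlT PT.vx ringF) [
  .mk 68 13 21 [0x200, 0x4, 0x2000, 0x1, 0xfffffffffffffffffffffffffffffffffffffffffffffffffffffffffffffffffffffffffffffffffffdffffffffffffffffffff],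
  .mk 68 13 21 [0x200, 0x4, 0x2000, 0x1, 0x200000000000000000000, 0xcc00007a0000000000000000000000000000000000000000000000000000000000000000000000]] = true := by
  decide +kernel

theorem t4 : runX PT.R (Wk.frw PT.R) nl RvT (SMap.evl cT tlT PT.vx ringF) [
  .mk 68 13 21 [0x200, 0x4, 0x2000, 0x1, 0x200000000000000000000, 0x100000000000000000000000000000000000000000000000000000000000000000000000000000000]] = true := by
  decide +kernel

theorem t5 : runX PT.R (Wk.frw PT.R) nl RvT (SMap.evl cT tlT PT.vx ringF) [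
  .mk 68 13 21 [0x200, 0x4, 0x2000, 0x1, 0x200000000000000000000, 0xfffffffffffffffffffffffeff33ffff85ffffffffffffffffffffffffffffffffffffffffffffffffffffffffffffffffffffff]] = true := by
  decide +kernel

/-- The tasks. -/
noncomputable def P : List (List Tk) := [
[
  .mk 68 13 21 [0x200, 0x4, 0x1000, 0xffffffffffffffffffffffda7e0fffffffffffffffffffffffffffffffffff0fffffffe]],
[
  .mk 68 13 21 [0x200, 0x4, 0x2000, 0x12]],
[
  .mk 68 13 21 [0x200, 0x4, 0x2000, 0xfffffffec]],
[
  .mk 68 13 21 [0x200, 0x4, 0x2000, 0x1, 0xfffffffffffffffffffffffffffffffffffffffffffffffffffffffffffffffffffffffffffffffffffdffffffffffffffffffff],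
  .mk 68 13 21 [0x200, 0x4, 0x2000, 0x1, 0x200000000000000000000, 0xcc00007a0000000000000000000000000000000000000000000000000000000000000000000000]],
[
  .mk 68 13 21 [0x200, 0x4, 0x2000, 0x1, 0x200000000000000000000, 0x100000000000000000000000000000000000000000000000000000000000000000000000000000000]],
[
  .mk 68 13 21 [0x200, 0x4, 0x2000, 0x1, 0x200000000000000000000, 0xfffffffffffffffffffffffeff33ffff85ffffffffffffffffffffffffffffffffffffffffffffffffffffffffffffffffffffff]]]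

theorem run : RunAll (runX PT.R (Wk.frw PT.R) nl RvT (SMap.evl cT tlT PT.vx ringF)) P :=
  .cons t0 (.cons t1 (.cons t2 (.cons t3 (.cons t4 (.cons t5 (.nil))))))

end Pool.Agent.Lib.MP_5854e1_co.Cz.Sr543
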