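import Pool.Agent.Lib.MP_5854e1_co.Cz.P
import Pool.Agent.Lib.MP_5854e1_co.Tkx
import Pool.Agent.Lib.MP_5854e1_co.RunAll

/-!
# Search, part 316
-/

set_option autoImplicit false
set_option deprecated.oldSectionVars true
set_option maxRecDepth 100000

namespace Pool.Agent.Lib.MP_5854e1_co.Cz.Sr316

open PB

theorem t0 : runX PT.R (Wk.frw PT.R) nl RvT (SMap.evl cT tlT PT.vx ringF) [
  .mk 15 48 88 [0xc00000]] = true := by
  decide +kernel

theorem t1 : runX PT.R (Wk.frw PT.R) nl RvT (SMap.evl cT tlT PT.vx ringF) [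
  .mk 15 48 88 [0x3f3fffff],
  .mk 15 49 89 [],
  .mk 15 50 90 [],
  .mk 15 51 91 [],
  .mk 15 52 92 [],
  .mk 15 53 93 [],
  .mk 15 54 94 [],
  .mk 15 55 95 [],
  .mk 15 56 96 [],
  .mk 15 57 97 [],
  .mk 15 58 98 [],
  .mk 15 59 99 [],
  .mk 15 60 100 [],
  .mk 15 61 0 [],
  .mk 15 62 20 [],
  .mk 15 63 24 [],
  .mk 15 64 25 [],
  .mk 15 65 26 [],
  .mk 15 66 27 [],
  .mk 15 67 28 [],
  .mk 15 68 30 [],
  .mk 15 69 31 [],
  .mk 15 70 32 [],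
  .mk 15 71 50 [],
  .mk 15 72 51 [],
  .mk 15 73 52 [],
  .mk 15 74 53 [],
  .mk 15 75 54 [],
  .mk 15 76 55 [],
  .mk 15 77 56 [],
  .mk 15 78 57 [],
  .mk 15 79 58 [],
  .mk 15 80 59 [],
  .mk 15 81 60 [],
  .mk 15 82 61 [],
  .mk 15 83 62 [],
  .mk 15 84 63 [],
  .mk 15 85 64 [],
  .mk 15 86 65 [],
  .mk 15 87 66 [],
  .mk 15 88 67 [],
  .mk 15 89 68 [],
  .mk 15 90 69 [],
  .mk 15 91 70 [],
  .mk 15 92 71 [],
  .mk 15 93 72 [],
  .mk 15 94 73 [],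
  .mk 15 95 74 [],
  .mk 15 96 75 [],
  .mk 15 97 76 [],
  .mk 15 98 77 [],
  .mk 15 99 78 [],
  .mk 15 100 79 [],
  .mk 15 101 80 [],
  .mk 15 102 81 [],
  .mk 15 103 82 [],
  .mk 15 104 83 [],
  .mk 15 105 84 [],
  .mk 15 106 85 [],
  .mk 15 107 86 [],
  .mk 15 108 87 [],
  .mk 15 109 88 [],
  .mk 15 110 89 [],
  .mk 15 111 90 [],
  .mk 15 112 91 [],
  .mk 15 113 92 [],
  .mk 15 114 93 [],
  .mk 15 115 94 [],
  .mk 15 116 95 [],
  .mk 15 117 96 [],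
  .mk 15 118 97 [],
  .mk 15 119 98 [],
  .mk 15 120 99 [],
  .mk 15 121 100 [],
  .mk 15 122 0 [],
  .mk 15 123 1 [],
  .mk 15 124 7 [],
  .mk 15 125 15 [],
  .mk 15 126 20 [],
  .mk 15 127 28 [],
  .mk 15 128 0 [],
  .mk 15 129 1 [],
  .mk 15 130 7 [],
  .mk 15 131 15 [],
  .mk 15 132 20 [],
  .mk 15 133 28 [],
  .mk 15 134 0 [],
  .mk 15 135 1 [],
  .mk 15 136 7 [],
  .mk 15 137 15 [],
  .mk 15 138 20 [],
  .mk 15 139 28 [],
  .mk 15 140 0 [],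
  .mk 15 141 1 [],
  .mk 15 142 7 [],
  .mk 15 143 15 [],
  .mk 15 144 20 [],
  .mk 15 145 28 [],
  .mk 15 146 0 [],
  .mk 15 147 1 [],
  .mk 15 148 7 [],
  .mk 15 149 15 [],
  .mk 15 150 20 [],
  .mk 15 151 28 [],
  .mk 15 152 0 [],
  .mk 15 153 1 [],
  .mk 15 154 7 [],
  .mk 15 155 15 [],
  .mk 15 156 20 [],
  .mk 15 157 28 [],
  .mk 15 158 0 [],
  .mk 15 159 1 [],
  .mk 15 160 7 [],
  .mk 15 161 15 [],
  .mk 15 162 20 [],
  .mk 15 163 28 [],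
  .mk 15 164 0 [],
  .mk 15 165 1 [],
  .mk 15 166 7 [],
  .mk 15 167 15 [],
  .mk 15 168 20 [],
  .mk 15 169 28 [],
  .mk 15 170 0 [],
  .mk 15 171 1 [],
  .mk 15 172 7 [],
  .mk 15 173 15 [],
  .mk 15 174 20 [],
  .mk 15 175 28 [],
  .mk 15 176 0 []] = true := by
  decide +kernel

theorem t2 : runX PT.R (Wk.frw PT.R) nl RvT (SMap.evl cT tlT PT.vx ringF) [
  .mk 15 177 7 [],
  .mk 15 178 15 [],
  .mk 15 179 20 []] = true := by
  decide +kernel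

theorem t3 : runX PT.R (Wk.frw PT.R) nl RvT (SMap.evl cT tlT PT.vx ringF) [
  .mk 15 180 28 [],
  .mk 15 181 0 [],
  .mk 15 182 1 [],
  .mk 15 183 7 [],
  .mk 15 184 15 [],
  .mk 15 185 20 []] = true := by
  decide +kernel

theorem t4 : runX PT.R (Wk.frw PT.R) nl RvT (SMap.evl cT tlT PT.vx ringF) [
  .mk 15 186 28 []] = true := by
  decide +kernel

theorem t5 : runX PT.R (Wk.frw PT.R) nl RvT (SMap.evl cT tlT PT.vx ringF) [
  .mk 15 187 0 [0x41000000000000000000000000000]] = true := by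
  decide +kernel

/-- The tasks. -/
noncomputable def P : List (List Tk) := [
[
  .mk 15 48 88 [0xc00000]],
[
  .mk 15 48 88 [0x3f3fffff],
  .mk 15 49 89 [],
  .mk 15 50 90 [],
  .mk 15 51 91 [],
  .mk 15 52 92 [],
  .mk 15 53 93 [],
  .mk 15 54 94 [],
  .mk 15 55 95 [],
  .mk 15 56 96 [],
  .mk 15 57 97 [],
  .mk 15 58 98 [],
  .mk 15 59 99 [],
  .mk 15 60 100 [],
  .mk 15 61 0 [],
  .mk 15 62 20 [],
  .mk 15 63 24 [],
  .mk 15 64 25 [],
  .mk 15 65 26 [],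
  .mk 15 66 27 [],
  .mk 15 67 28 [],
  .mk 15 68 30 [],
  .mk 15 69 31 [],
  .mk 15 70 32 [],
  .mk 15 71 50 [],
  .mk 15 72 51 [],
  .mk 15 73 52 [],
  .mk 15 74 53 [],
  .mk 15 75 54 [],
  .mk 15 76 55 [],
  .mk 15 77 56 [],
  .mk 15 78 57 [],
  .mk 15 79 58 [],
  .mk 15 80 59 [],
  .mk 15 81 60 [],
  .mk 15 82 61 [],
  .mk 15 83 62 [],
  .mk 15 84 63 [],
  .mk 15 85 64 [],
  .mk 15 86 65 [],
  .mk 15 87 66 [],
  .mk 15 88 67 [],
  .mk 15 89 68 [],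
  .mk 15 90 69 [],
  .mk 15 91 70 [],
  .mk 15 92 71 [],
  .mk 15 93 72 [],
  .mk 15 94 73 [],
  .mk 15 95 74 [],
  .mk 15 96 75 [],
  .mk 15 97 76 [],
  .mk 15 98 77 [],
  .mk 15 99 78 [],
  .mk 15 100 79 [],
  .mk 15 101 80 [],
  .mk 15 102 81 [],
  .mk 15 103 82 [],
  .mk 15 104 83 [],
  .mk 15 105 84 [],
  .mk 15 106 85 [],
  .mk 15 107 86 [],
  .mk 15 108 87 [],
  .mk 15 109 88 [],
  .mk 15 110 89 [],
  .mk 15 111 90 [],
  .mk 15 112 91 [],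
  .mk 15 113 92 [],
  .mk 15 114 93 [],
  .mk 15 115 94 [],
  .mk 15 116 95 [],
  .mk 15 117 96 [],
  .mk 15 118 97 [],
  .mk 15 119 98 [],
  .mk 15 120 99 [],
  .mk 15 121 100 [],
  .mk 15 122 0 [],
  .mk 15 123 1 [],
  .mk 15 124 7 [],
  .mk 15 125 15 [],
  .mk 15 126 20 [],
  .mk 15 127 28 [],
  .mk 15 128 0 [],
  .mk 15 129 1 [],
  .mk 15 130 7 [],
  .mk 15 131 15 [],
  .mk 15 132 20 [],
  .mk 15 133 28 [],
  .mk 15 134 0 [],
  .mk 15 135 1 [],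
  .mk 15 136 7 [],
  .mk 15 137 15 [],
  .mk 15 138 20 [],
  .mk 15 139 28 [],
  .mk 15 140 0 [],
  .mk 15 141 1 [],
  .mk 15 142 7 [],
  .mk 15 143 15 [],
  .mk 15 144 20 [],
  .mk 15 145 28 [],
  .mk 15 146 0 [],
  .mk 15 147 1 [],
  .mk 15 148 7 [],
  .mk 15 149 15 [],
  .mk 15 150 20 [],
  .mk 15 151 28 [],
  .mk 15 152 0 [],
  .mk 15 153 1 [],
  .mk 15 154 7 [],
  .mk 15 155 15 [],
  .mk 15 156 20 [],
  .mk 15 157 28 [],
  .mk 15 158 0 [],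
  .mk 15 159 1 [],
  .mk 15 160 7 [],
  .mk 15 161 15 [],
  .mk 15 162 20 [],
  .mk 15 163 28 [],
  .mk 15 164 0 [],
  .mk 15 165 1 [],
  .mk 15 166 7 [],
  .mk 15 167 15 [],
  .mk 15 168 20 [],
  .mk 15 169 28 [],
  .mk 15 170 0 [],
  .mk 15 171 1 [],
  .mk 15 172 7 [],
  .mk 15 173 15 [],
  .mk 15 174 20 [],
  .mk 15 175 28 [],
  .mk 15 176 0 []],
[
  .mk 15 177 7 [],
  .mk 15 178 15 [],
  .mk 15 179 20 []],
[
  .mk 15 180 28 [],
  .mk 15 181 0 [],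
  .mk 15 182 1 [],
  .mk 15 183 7 [],
  .mk 15 184 15 [],
  .mk 15 185 20 []],
[
  .mk 15 186 28 []],
[
  .mk 15 187 0 [0x41000000000000000000000000000]]]

theorem run : RunAll (runX PT.R (Wk.frw PT.R) nl RvT (SMap.evl cT tlT PT.vx ringF)) P :=
  .cons t0 (.cons t1 (.cons t2 (.cons t3 (.cons t4 (.cons t5 (.nil))))))

end Pool.Agent.Lib.MP_5854e1_co.Cz.Sr316

namespace Pool.Agent.Lib.MP_5854e1_co.Cz.Sr513

open PB

theorem t0 : runX PT.R (Wk.frw PT.R) nl RvT (SMap.evl cT tlT PT.vx ringF) [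
  .mk 63 9 52 [0xffff98050]] = true := by
  decide +kernel

theorem t1 : runX PT.R (Wk.frw PT.R) nl RvT (SMap.evl cT tlT PT.vx ringF) [
  .mk 63 9 52 [0x1, 0xfffffffffffffffffffffffffffffffffffffffffffffffffffffbffffffffffffffffffffffffffffffffffffffffffffffffff],
  .mk 63 9 52 [0x1, 0x400000000000000000000000000000000000000000000000000, 0x3711]] = true := by
  decide +kernel

theorem t2 : runX PT.R (Wk.frw PT.R) nl RvT (SMap.evl cT tlT PT.vx ringF) [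
  .mk 63 9 52 [0x1, 0x400000000000000000000000000000000000000000000000000, 0x7fc8ee]] = true := by
  decide +kernel

theorem t3 : runX PT.R (Wk.frw PT.R) nl RvT (SMap.evl cT tlT PT.vx ringF) [
  .mk 63 9 52 [0x8, 0x3ffefffff]] = true := by
  decide +kernel

theorem t4 : runX PT.R (Wk.frw PT.R) nl RvT (SMap.evl cT tlT PT.vx ringF) [
  .mk 63 9 52 [0x8, 0x100000, 0x3000cf]] = true := by
  decide +kernel

theorem t5 : runX PT.R (Wk.frw PT.R) nl RvT (SMap.evl cT tlT PT.vx ringF) [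
  .mk 63 9 52 [0x8, 0x100000, 0x400000]] = true := by
  decide +kernel

theorem t6 : runX PT.R (Wk.frw PT.R) nl RvT (SMap.evl cT tlT PT.vx ringF) [
  .mk 63 9 52 [0x8, 0x100000, 0x3f8fff30]] = true := by
  decide +kernel

/-- The tasks. -/
noncomputable def P : List (List Tk) := [
[
  .mk 63 9 52 [0xffff98050]],
[
  .mk 63 9 52 [0x1, 0xfffffffffffffffffffffffffffffffffffffffffffffffffffffbffffffffffffffffffffffffffffffffffffffffffffffffff],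
  .mk 63 9 52 [0x1, 0x400000000000000000000000000000000000000000000000000, 0x3711]],
[
  .mk 63 9 52 [0x1, 0x400000000000000000000000000000000000000000000000000, 0x7fc8ee]],
[
  .mk 63 9 52 [0x8, 0x3ffefffff]],
[
  .mk 63 9 52 [0x8, 0x100000, 0x3000cf]],
[
  .mk 63 9 52 [0x8, 0x100000, 0x400000]],
[
  .mk 63 9 52 [0x8, 0x100000, 0x3f8fff30]]]

theorem run : RunAll (runX PT.R (Wk.frw PT.R) nl RvT (SMap.evl cT tlT PT.vx ringF)) P :=
  .cons t0 (.cons t1 (.cons t2 (.cons t3 (.cons t4 (.cons t5 (.cons t6 (.nil)))))))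

end Pool.Agent.Lib.MP_5854e1_co.Cz.Sr513

namespace Pool.Agent.Lib.MP_5854e1_co.Cz.Sr527

open PB

theorem t0 : runX PT.R (Wk.frw PT.R) nl RvT (SMap.evl cT tlT PT.vx ringF) [
  .mk 63 12 55 [0x400, 0x7fe5ff]] = true := by
  decide +kernel

theorem t1 : runX PT.R (Wk.frw PT.R) nl RvT (SMap.evl cT tlT PT.vx ringF) [
  .mk 63 12 55 [0x400, 0x200, 0xc0008401]] = true := by
  decide +kernel

theorem t2 : runX PT.R (Wk.frw PT.R) nl RvT (SMap.evl cT tlT PT.vx ringF) [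
  .mk 63 12 55 [0x400, 0x200, 0x100000000]] = true := by
  decide +kernel

theorem t3 : runX PT.R (Wk.frw PT.R) nl RvT (SMap.evl cT tlT PT.vx ringF) [
  .mk 63 12 55 [0x400, 0x200, 0x808200000000015200000000]] = true := by
  decide +kernel

theorem t4 : runX PT.R (Wk.frw PT.R) nl RvT (SMap.evl cT tlT PT.vx ringF) [
  .mk 63 12 55 [0x400, 0x200, 0xffffffffffffffffffffffffffffffffffffffffffffffffffffffffffffffffffffffffffffffff7f7dfffffffffeac3fff7bfe]] = true := by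
  decide +kernel

theorem t5 : runX PT.R (Wk.frw PT.R) nl RvT (SMap.evl cT tlT PT.vx ringF) [
  .mk 63 12 55 [0x400, 0x800, 0x93]] = true := by
  decide +kernel

theorem t6 : runX PT.R (Wk.frw PT.R) nl RvT (SMap.evl cT tlT PT.vx ringF) [
  .mk 63 12 55 [0x400, 0x800, 0xfffffff6c]] = true := by
  decide +kernel

/-- The tasks. -/
noncomputable def P : List (List Tk) := [
[
  .mk 63 12 55 [0x400, 0x7fe5ff]],
[
  .mk 63 12 55 [0x400, 0x200, 0xc0008401]],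
[
  .mk 63 12 55 [0x400, 0x200, 0x100000000]],
[
  .mk 63 12 55 [0x400, 0x200, 0x808200000000015200000000]],
[
  .mk 63 12 55 [0x400, 0x200, 0xffffffffffffffffffffffffffffffffffffffffffffffffffffffffffffffffffffffffffffffff7f7dfffffffffeac3fff7bfe]],
[
  .mk 63 12 55 [0x400, 0x800, 0x93]],
[
  .mk 63 12 55 [0x400, 0x800, 0xfffffff6c]]]

theorem run : RunAll (runX PT.R (Wk.frw PT.R) nl RvT (SMap.evl cT tlT PT.vx ringF)) P :=
  .cons t0 (.cons t1 (.cons t2 (.cons t3 (.cons t4 (.cons t5 (.cons t6 (.nil)))))))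

end Pool.Agent.Lib.MP_5854e1_co.Cz.Sr527
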