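import Pool.Agent.Lib.MP_5854e1_co.Cz.P
import Pool.Agent.Lib.MP_5854e1_co.Tkx
import Pool.Agent.Lib.MP_5854e1_co.RunAll

/-!
# Search, part 320
-/

set_option autoImplicit false
set_option deprecated.oldSectionVars true
set_option maxRecDepth 100000

namespace Pool.Agent.Lib.MP_5854e1_co.Cz.Sr320

open PB

theorem t0 : runX PT.R (Wk.frw PT.R) nl RvT (SMap.evl cT tlT PT.vx ringF) [
  .mk 15 264 0 [0xfffffffffffffffffffffffffffffffffffffffffffffffffffffffffffffffffffffffffffffffffaf7ffffffffffffffffffff]] = true := by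
  decide +kernel

theorem t1 : runX PT.R (Wk.frw PT.R) nl RvT (SMap.evl cT tlT PT.vx ringF) [
  .mk 15 264 0 [0x10000000000000000000000, 0x1fc1]] = true := by
  decide +kernel

theorem t2 : runX PT.R (Wk.frw PT.R) nl RvT (SMap.evl cT tlT PT.vx ringF) [
  .mk 15 264 0 [0x10000000000000000000000, 0xfffffe03e],
  .mk 15 265 1 []] = true := by
  decide +kernel

theorem t3 : runX PT.R (Wk.frw PT.R) nl RvT (SMap.evl cT tlT PT.vx ringF) [
  .mk 15 266 7 [0x28]] = true := by
  decide +kernel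

theorem t4 : runX PT.R (Wk.frw PT.R) nl RvT (SMap.evl cT tlT PT.vx ringF) [
  .mk 15 266 7 [0x5000]] = true := by
  decide +kernel

theorem t5 : runX PT.R (Wk.frw PT.R) nl RvT (SMap.evl cT tlT PT.vx ringF) [
  .mk 15 266 7 [0x28000]] = true := by
  decide +kernel

/-- The tasks. -/
noncomputable def P : List (List Tk) := [
[
  .mk 15 264 0 [0xfffffffffffffffffffffffffffffffffffffffffffffffffffffffffffffffffffffffffffffffffaf7ffffffffffffffffffff]],
[
  .mk 15 264 0 [0x10000000000000000000000, 0x1fc1]],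
[
  .mk 15 264 0 [0x10000000000000000000000, 0xfffffe03e],
  .mk 15 265 1 []],
[
  .mk 15 266 7 [0x28]],
[
  .mk 15 266 7 [0x5000]],
[
  .mk 15 266 7 [0x28000]]]

theorem run : RunAll (runX PT.R (Wk.frw PT.R) nl RvT (SMap.evl cT tlT PT.vx ringF)) P :=
  .cons t0 (.cons t1 (.cons t2 (.cons t3 (.cons t4 (.cons t5 (.nil))))))

end Pool.Agent.Lib.MP_5854e1_co.Cz.Sr320

namespace Pool.Agent.Lib.MP_5854e1_co.Cz.Sr490

open PB

theorem t0 : runX PT.R (Wk.frw PT.R) nl RvT (SMap.evl cT tlT PT.vx ringF) [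
  .mk 48 23 52 [0x40000, 0x40000, 0xffffffffffffffbffffffffffffffffffffffffffffffffffffffffffffffffffffffff]] = true := by
  decide +kernel

theorem t1 : runX PT.R (Wk.frw PT.R) nl RvT (SMap.evl cT tlT PT.vx ringF) [
  .mk 48 23 52 [0x40000, 0x40000, 0x400000000000000000000000000000000000000000000000000000000, 0x6000000000000000808600000000000000008443]] = true := by
  decide +kernel

theorem t2 : runX PT.R (Wk.frw PT.R) nl RvT (SMap.evl cT tlT PT.vx ringF) [
  .mk 48 23 52 [0x40000, 0x40000, 0x400000000000000000000000000000000000000000000000000000000, 0xffffffffffffffffffffffffffffffffffffffffffffffffffffffffffffffff9fffffffffffffff7f79ffffffffffffffff7bbc],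
  .mk 48 24 53 [0x7c0000]] = true := by
  decide +kernel

theorem t3 : runX PT.R (Wk.frw PT.R) nl RvT (SMap.evl cT tlT PT.vx ringF) [
  .mk 48 24 53 [0xf800000]] = true := by
  decide +kernel

theorem t4 : runX PT.R (Wk.frw PT.R) nl RvT (SMap.evl cT tlT PT.vx ringF) [
  .mk 48 24 53 [0x3fffff003ffff],
  .mk 48 25 56 [0x7c0000]] = true := by
  decide +kernel

/-- The tasks. -/
noncomputable def P : List (List Tk) := [
[
  .mk 48 23 52 [0x40000, 0x40000, 0xffffffffffffffbffffffffffffffffffffffffffffffffffffffffffffffffffffffff]],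
[
  .mk 48 23 52 [0x40000, 0x40000, 0x400000000000000000000000000000000000000000000000000000000, 0x6000000000000000808600000000000000008443]],
[
  .mk 48 23 52 [0x40000, 0x40000, 0x400000000000000000000000000000000000000000000000000000000, 0xffffffffffffffffffffffffffffffffffffffffffffffffffffffffffffffff9fffffffffffffff7f79ffffffffffffffff7bbc],
  .mk 48 24 53 [0x7c0000]],
[
  .mk 48 24 53 [0xf800000]],
[
  .mk 48 24 53 [0x3fffff003ffff],
  .mk 48 25 56 [0x7c0000]]]

theorem run : RunAll (runX PT.R (Wk.frw PT.R) nl RvT (SMap.evl cT tlT PT.vx ringF)) P :=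
  .cons t0 (.cons t1 (.cons t2 (.cons t3 (.cons t4 (.nil)))))

end Pool.Agent.Lib.MP_5854e1_co.Cz.Sr490

namespace Pool.Agent.Lib.MP_5854e1_co.Cz.Sr580

open PB

theorem t0 : runX PT.R (Wk.frw PT.R) nl RvT (SMap.evl cT tlT PT.vx ringF) [
  .mk 83 9 8 [],
  .mk 83 10 9 [],
  .mk 83 11 15 [],
  .mk 83 12 16 [],
  .mk 83 13 0 [],
  .mk 83 14 1 [],
  .mk 83 15 3 [],
  .mk 83 16 20 [],
  .mk 83 17 21 [],
  .mk 83 18 22 [],
  .mk 83 19 28 [],
  .mk 83 20 29 [],
  .mk 84 0 0 [],
  .mk 84 1 7 [],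
  .mk 84 2 15 [],
  .mk 84 3 20 [],
  .mk 84 4 28 []] = true := by
  decide +kernel

theorem t1 : runX PT.R (Wk.frw PT.R) nl RvT (SMap.evl cT tlT PT.vx ringF) [
  .mk 84 5 0 [0x400000000000000000000000000000000000000000000000]] = true := by
  decide +kernel

theorem t2 : runX PT.R (Wk.frw PT.R) nl RvT (SMap.evl cT tlT PT.vx ringF) [
  .mk 84 5 0 [0xffffffffffffffffffffffffffffffffffffffffffffffffffffffffbeffffffffffffffffffffffffffffffffffffffffffffff]] = true := by
  decide +kernel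

theorem t3 : runX PT.R (Wk.frw PT.R) nl RvT (SMap.evl cT tlT PT.vx ringF) [
  .mk 84 5 0 [0x10000000000000000000000000000000000000000000000, 0x18d]] = true := by
  decide +kernel

theorem t4 : runX PT.R (Wk.frw PT.R) nl RvT (SMap.evl cT tlT PT.vx ringF) [
  .mk 84 5 0 [0x10000000000000000000000000000000000000000000000, 0xffffffe72],
  .mk 84 6 1 [],
  .mk 84 7 20 [],
  .mk 84 8 21 [],
  .mk 84 9 22 [],
  .mk 84 10 23 [],
  .mk 84 11 28 [],
  .mk 84 12 29 [],
  .mk 84 13 0 [],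
  .mk 84 14 1 [],
  .mk 84 15 7 []] = true := by
  decide +kernel

theorem t5 : runX PT.R (Wk.frw PT.R) nl RvT (SMap.evl cT tlT PT.vx ringF) [
  .mk 84 16 8 [0x1]] = true := by
  decide +kernel

/-- The tasks. -/
noncomputable def P : List (List Tk) := [
[
  .mk 83 9 8 [],
  .mk 83 10 9 [],
  .mk 83 11 15 [],
  .mk 83 12 16 [],
  .mk 83 13 0 [],
  .mk 83 14 1 [],
  .mk 83 15 3 [],
  .mk 83 16 20 [],
  .mk 83 17 21 [],
  .mk 83 18 22 [],
  .mk 83 19 28 [],
  .mk 83 20 29 [],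
  .mk 84 0 0 [],
  .mk 84 1 7 [],
  .mk 84 2 15 [],
  .mk 84 3 20 [],
  .mk 84 4 28 []],
[
  .mk 84 5 0 [0x400000000000000000000000000000000000000000000000]],
[
  .mk 84 5 0 [0xffffffffffffffffffffffffffffffffffffffffffffffffffffffffbeffffffffffffffffffffffffffffffffffffffffffffff]],
[
  .mk 84 5 0 [0x10000000000000000000000000000000000000000000000, 0x18d]],
[
  .mk 84 5 0 [0x10000000000000000000000000000000000000000000000, 0xffffffe72],
  .mk 84 6 1 [],
  .mk 84 7 20 [],
  .mk 84 8 21 [],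
  .mk 84 9 22 [],
  .mk 84 10 23 [],
  .mk 84 11 28 [],
  .mk 84 12 29 [],
  .mk 84 13 0 [],
  .mk 84 14 1 [],
  .mk 84 15 7 []],
[
  .mk 84 16 8 [0x1]]]

theorem run : RunAll (runX PT.R (Wk.frw PT.R) nl RvT (SMap.evl cT tlT PT.vx ringF)) P :=
  .cons t0 (.cons t1 (.cons t2 (.cons t3 (.cons t4 (.cons t5 (.nil))))))

end Pool.Agent.Lib.MP_5854e1_co.Cz.Sr580
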