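import Pool.Agent.Lib.MP_5854e1_co.Cz.P
import Pool.Agent.Lib.MP_5854e1_co.Tkx
import Pool.Agent.Lib.MP_5854e1_co.RunAll

/-!
# Search, part 323
-/

set_option autoImplicit false
set_option deprecated.oldSectionVars true
set_option maxRecDepth 100000

namespace Pool.Agent.Lib.MP_5854e1_co.Cz.Sr323

open PB

theorem t0 : runX PT.R (Wk.frw PT.R) nl RvT (SMap.evl cT tlT PT.vx ringF) [
  .mk 16 2 11 [0x1da00]] = true := by
  decide +kernel

theorem t1 : runX PT.R (Wk.frw PT.R) nl RvT (SMap.evl cT tlT PT.vx ringF) [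
  .mk 16 2 11 [0x7e05ff],
  .mk 16 2 11 [0x2000, 0xffffffbff]] = true := by
  decide +kernel

theorem t2 : runX PT.R (Wk.frw PT.R) nl RvT (SMap.evl cT tlT PT.vx ringF) [
  .mk 16 2 11 [0x2000, 0x400, 0xffc0000]] = true := by
  decide +kernel

theorem t3 : runX PT.R (Wk.frw PT.R) nl RvT (SMap.evl cT tlT PT.vx ringF) [
  .mk 16 2 11 [0x2000, 0x400, 0x3fffff003ffff]] = true := by
  decide +kernel

theorem t4 : runX PT.R (Wk.frw PT.R) nl RvT (SMap.evl cT tlT PT.vx ringF) [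
  .mk 16 3 12 [0xf5e0200]] = true := by
  decide +kernel

/-- The tasks. -/
noncomputable def P : List (List Tk) := [
[
  .mk 16 2 11 [0x1da00]],
[
  .mk 16 2 11 [0x7e05ff],
  .mk 16 2 11 [0x2000, 0xffffffbff]],
[
  .mk 16 2 11 [0x2000, 0x400, 0xffc0000]],
[
  .mk 16 2 11 [0x2000, 0x400, 0x3fffff003ffff]],
[
  .mk 16 3 12 [0xf5e0200]]]

theorem run : RunAll (runX PT.R (Wk.frw PT.R) nl RvT (SMap.evl cT tlT PT.vx ringF)) P :=
  .cons t0 (.cons t1 (.cons t2 (.cons t3 (.cons t4 (.nil)))))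

end Pool.Agent.Lib.MP_5854e1_co.Cz.Sr323

namespace Pool.Agent.Lib.MP_5854e1_co.Cz.Sr332

open PB

theorem t0 : runX PT.R (Wk.frw PT.R) nl RvT (SMap.evl cT tlT PT.vx ringF) [
  .mk 35 3 12 [0x4000000, 0x200, 0x4, 0x7ee974],
  .mk 35 3 12 [0x20000000, 0x1]] = true := by
  decide +kernel

theorem t1 : runX PT.R (Wk.frw PT.R) nl RvT (SMap.evl cT tlT PT.vx ringF) [
  .mk 35 3 12 [0x20000000, 0x1e]] = true := by
  decide +kernel

theorem t2 : runX PT.R (Wk.frw PT.R) nl RvT (SMap.evl cT tlT PT.vx ringF) [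
  .mk 35 3 12 [0x20000000, 0xffffbe0]] = true := by
  decide +kernel

theorem t3 : runX PT.R (Wk.frw PT.R) nl RvT (SMap.evl cT tlT PT.vx ringF) [
  .mk 35 3 12 [0x20000000, 0x400, 0x8b]] = true := by
  decide +kernel

theorem t4 : runX PT.R (Wk.frw PT.R) nl RvT (SMap.evl cT tlT PT.vx ringF) [
  .mk 35 3 12 [0x20000000, 0x400, 0x200]] = true := by
  decide +kernel

theorem t5 : runX PT.R (Wk.frw PT.R) nl RvT (SMap.evl cT tlT PT.vx ringF) [
  .mk 35 3 12 [0x20000000, 0x400, 0x7ffd74],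
  .mk 35 4 15 [],
  .mk 35 5 17 [],
  .mk 35 6 18 []] = true := by
  decide +kernel

theorem t6 : runX PT.R (Wk.frw PT.R) nl RvT (SMap.evl cT tlT PT.vx ringF) [
  .mk 35 7 39 [],
  .mk 35 8 40 []] = true := by
  decide +kernel

/-- The tasks. -/
noncomputable def P : List (List Tk) := [
[
  .mk 35 3 12 [0x4000000, 0x200, 0x4, 0x7ee974],
  .mk 35 3 12 [0x20000000, 0x1]],
[
  .mk 35 3 12 [0x20000000, 0x1e]],
[
  .mk 35 3 12 [0x20000000, 0xffffbe0]],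
[
  .mk 35 3 12 [0x20000000, 0x400, 0x8b]],
[
  .mk 35 3 12 [0x20000000, 0x400, 0x200]],
[
  .mk 35 3 12 [0x20000000, 0x400, 0x7ffd74],
  .mk 35 4 15 [],
  .mk 35 5 17 [],
  .mk 35 6 18 []],
[
  .mk 35 7 39 [],
  .mk 35 8 40 []]]

theorem run : RunAll (runX PT.R (Wk.frw PT.R) nl RvT (SMap.evl cT tlT PT.vx ringF)) P :=
  .cons t0 (.cons t1 (.cons t2 (.cons t3 (.cons t4 (.cons t5 (.cons t6 (.nil)))))))

end Pool.Agent.Lib.MP_5854e1_co.Cz.Sr332

namespace Pool.Agent.Lib.MP_5854e1_co.Cz.Sr436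

open PB

theorem t0 : runX PT.R (Wk.frw PT.R) nl RvT (SMap.evl cT tlT PT.vx ringF) [
  .mk 42 21 63 [0x10000, 0x400, 0x3e00000]] = true := by
  decide +kernel

theorem t1 : runX PT.R (Wk.frw PT.R) nl RvT (SMap.evl cT tlT PT.vx ringF) [
  .mk 42 21 63 [0x10000, 0x400, 0x3fffffc03ffff]] = true := by
  decide +kernel

theorem t2 : runX PT.R (Wk.frw PT.R) nl RvT (SMap.evl cT tlT PT.vx ringF) [
  .mk 42 22 64 [],
  .mk 42 23 65 [],
  .mk 42 24 66 []] = true := by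
  decide +kernel

theorem t3 : runX PT.R (Wk.frw PT.R) nl RvT (SMap.evl cT tlT PT.vx ringF) [
  .mk 42 25 67 [0x5a1]] = true := by
  decide +kernel

theorem t4 : runX PT.R (Wk.frw PT.R) nl RvT (SMap.evl cT tlT PT.vx ringF) [
  .mk 42 25 67 [0x7ff85e]] = true := by
  decide +kernel

theorem t5 : runX PT.R (Wk.frw PT.R) nl RvT (SMap.evl cT tlT PT.vx ringF) [
  .mk 42 25 67 [0x200, 0x393]] = true := by
  decide +kernel

theorem t6 : runX PT.R (Wk.frw PT.R) nl RvT (SMap.evl cT tlT PT.vx ringF) [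
  .mk 42 25 67 [0x200, 0x1c00]] = true := by
  decide +kernel

theorem t7 : runX PT.R (Wk.frw PT.R) nl RvT (SMap.evl cT tlT PT.vx ringF) [
  .mk 42 25 67 [0x200, 0xfffffe06c]] = true := by
  decide +kernel

/-- The tasks. -/
noncomputable def P : List (List Tk) := [
[
  .mk 42 21 63 [0x10000, 0x400, 0x3e00000]],
[
  .mk 42 21 63 [0x10000, 0x400, 0x3fffffc03ffff]],
[
  .mk 42 22 64 [],
  .mk 42 23 65 [],
  .mk 42 24 66 []],
[
  .mk 42 25 67 [0x5a1]],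
[
  .mk 42 25 67 [0x7ff85e]],
[
  .mk 42 25 67 [0x200, 0x393]],
[
  .mk 42 25 67 [0x200, 0x1c00]],
[
  .mk 42 25 67 [0x200, 0xfffffe06c]]]

theorem run : RunAll (runX PT.R (Wk.frw PT.R) nl RvT (SMap.evl cT tlT PT.vx ringF)) P :=
  .cons t0 (.cons t1 (.cons t2 (.cons t3 (.cons t4 (.cons t5 (.cons t6 (.cons t7 (.nil))))))))

end Pool.Agent.Lib.MP_5854e1_co.Cz.Sr436

namespace Pool.Agent.Lib.MP_5854e1_co.Cz.Sr511

open PB

theorem t0 : runX PT.R (Wk.frw PT.R) nl RvT (SMap.evl cT tlT PT.vx ringF) [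
  .mk 63 3 27 [0x800000, 0x4000000, 0x18038]] = true := by
  decide +kernel

theorem t1 : runX PT.R (Wk.frw PT.R) nl RvT (SMap.evl cT tlT PT.vx ringF) [
  .mk 63 3 27 [0x800000, 0x4000000, 0xffffe7fc0],
  .mk 63 3 27 [0x800000, 0x8000000, 0x1c0000]] = true := by
  decide +kernel

theorem t2 : runX PT.R (Wk.frw PT.R) nl RvT (SMap.evl cT tlT PT.vx ringF) [
  .mk 63 3 27 [0x800000, 0x8000000, 0x3e00000]] = true := by
  decide +kernel

theorem t3 : runX PT.R (Wk.frw PT.R) nl RvT (SMap.evl cT tlT PT.vx ringF) [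
  .mk 63 3 27 [0x800000, 0x8000000, 0x3fffffc03ffff],
  .mk 63 4 28 [],
  .mk 63 5 31 [],
  .mk 63 6 32 []] = true := by
  decide +kernel

theorem t4 : runX PT.R (Wk.frw PT.R) nl RvT (SMap.evl cT tlT PT.vx ringF) [
  .mk 63 7 50 [0xbffff]] = true := by
  decide +kernel

theorem t5 : runX PT.R (Wk.frw PT.R) nl RvT (SMap.evl cT tlT PT.vx ringF) [
  .mk 63 7 50 [0x40000, 0x3]] = true := by
  decide +kernel

/-- The tasks. -/
noncomputable def P : List (List Tk) := [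
[
  .mk 63 3 27 [0x800000, 0x4000000, 0x18038]],
[
  .mk 63 3 27 [0x800000, 0x4000000, 0xffffe7fc0],
  .mk 63 3 27 [0x800000, 0x8000000, 0x1c0000]],
[
  .mk 63 3 27 [0x800000, 0x8000000, 0x3e00000]],
[
  .mk 63 3 27 [0x800000, 0x8000000, 0x3fffffc03ffff],
  .mk 63 4 28 [],
  .mk 63 5 31 [],
  .mk 63 6 32 []],
[
  .mk 63 7 50 [0xbffff]],
[
  .mk 63 7 50 [0x40000, 0x3]]]

theorem run : RunAll (runX PT.R (Wk.frw PT.R) nl RvT (SMap.evl cT tlT PT.vx ringF)) P :=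
  .cons t0 (.cons t1 (.cons t2 (.cons t3 (.cons t4 (.cons t5 (.nil))))))

end Pool.Agent.Lib.MP_5854e1_co.Cz.Sr511
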