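import Pool.Agent.Lib.MP_5854e1_co.Cz.P
import Pool.Agent.Lib.MP_5854e1_co.Tkx
import Pool.Agent.Lib.MP_5854e1_co.RunAll

/-!
# Search, part 326
-/

set_option autoImplicit false
set_option deprecated.oldSectionVars true
set_option maxRecDepth 100000

namespace Pool.Agent.Lib.MP_5854e1_co.Cz.Sr326

open PB

theorem t0 : runX PT.R (Wk.frw PT.R) nl RvT (SMap.evl cT tlT PT.vx ringF) [
  .mk 16 13 48 [0x200000, 0x833fc],
  .mk 16 14 49 [],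
  .mk 16 15 0 [],
  .mk 16 16 20 [],
  .mk 16 17 24 [],
  .mk 16 18 25 [],
  .mk 16 19 26 [],
  .mk 16 20 27 [],
  .mk 16 21 28 [],
  .mk 16 22 30 [],
  .mk 16 23 31 [],
  .mk 16 24 32 [],
  .mk 16 25 50 [],
  .mk 16 26 51 [],
  .mk 16 27 52 [0x10dfc3]] = true := by
  decide +kernel

theorem t1 : runX PT.R (Wk.frw PT.R) nl RvT (SMap.evl cT tlT PT.vx ringF) [
  .mk 16 27 52 [0xfffef203c],
  .mk 16 28 53 [],
  .mk 16 29 54 [],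
  .mk 16 30 55 [],
  .mk 16 31 56 [],
  .mk 16 32 57 [],
  .mk 16 33 58 [],
  .mk 16 34 59 [],
  .mk 16 35 60 [],
  .mk 17 0 0 [],
  .mk 17 1 1 [],
  .mk 17 2 2 [],
  .mk 17 3 7 []] = true := by
  decide +kernel

theorem t2 : runX PT.R (Wk.frw PT.R) nl RvT (SMap.evl cT tlT PT.vx ringF) [
  .mk 17 4 8 [],
  .mk 17 5 9 []] = true := by
  decide +kernel

theorem t3 : runX PT.R (Wk.frw PT.R) nl RvT (SMap.evl cT tlT PT.vx ringF) [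
  .mk 17 6 10 [],
  .mk 17 7 15 [],
  .mk 17 8 16 [],
  .mk 17 9 0 [],
  .mk 17 10 1 [],
  .mk 17 11 3 [],
  .mk 17 12 20 [],
  .mk 17 13 21 [],
  .mk 17 14 22 [],
  .mk 17 15 23 [],
  .mk 17 16 28 [],
  .mk 17 17 29 [],
  .mk 17 18 0 [],
  .mk 17 19 7 [],
  .mk 17 20 15 [],
  .mk 17 21 20 [],
  .mk 17 22 28 [],
  .mk 18 0 0 [],
  .mk 18 1 1 [],
  .mk 18 2 2 [],
  .mk 18 3 7 [],
  .mk 18 4 8 [],
  .mk 18 5 9 [],
  .mk 18 6 10 [],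
  .mk 18 7 15 [],
  .mk 18 8 16 [],
  .mk 18 9 0 [],
  .mk 18 10 1 []] = true := by
  decide +kernel

theorem t4 : runX PT.R (Wk.frw PT.R) nl RvT (SMap.evl cT tlT PT.vx ringF) [
  .mk 18 11 3 [0x4d]] = true := by
  decide +kernel

theorem t5 : runX PT.R (Wk.frw PT.R) nl RvT (SMap.evl cT tlT PT.vx ringF) [
  .mk 18 11 3 [0x3f80]] = true := by
  decide +kernel

/-- The tasks. -/
noncomputable def P : List (List Tk) := [
[
  .mk 16 13 48 [0x200000, 0x833fc],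
  .mk 16 14 49 [],
  .mk 16 15 0 [],
  .mk 16 16 20 [],
  .mk 16 17 24 [],
  .mk 16 18 25 [],
  .mk 16 19 26 [],
  .mk 16 20 27 [],
  .mk 16 21 28 [],
  .mk 16 22 30 [],
  .mk 16 23 31 [],
  .mk 16 24 32 [],
  .mk 16 25 50 [],
  .mk 16 26 51 [],
  .mk 16 27 52 [0x10dfc3]],
[
  .mk 16 27 52 [0xfffef203c],
  .mk 16 28 53 [],
  .mk 16 29 54 [],
  .mk 16 30 55 [],
  .mk 16 31 56 [],
  .mk 16 32 57 [],
  .mk 16 33 58 [],
  .mk 16 34 59 [],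
  .mk 16 35 60 [],
  .mk 17 0 0 [],
  .mk 17 1 1 [],
  .mk 17 2 2 [],
  .mk 17 3 7 []],
[
  .mk 17 4 8 [],
  .mk 17 5 9 []],
[
  .mk 17 6 10 [],
  .mk 17 7 15 [],
  .mk 17 8 16 [],
  .mk 17 9 0 [],
  .mk 17 10 1 [],
  .mk 17 11 3 [],
  .mk 17 12 20 [],
  .mk 17 13 21 [],
  .mk 17 14 22 [],
  .mk 17 15 23 [],
  .mk 17 16 28 [],
  .mk 17 17 29 [],
  .mk 17 18 0 [],
  .mk 17 19 7 [],
  .mk 17 20 15 [],
  .mk 17 21 20 [],
  .mk 17 22 28 [],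
  .mk 18 0 0 [],
  .mk 18 1 1 [],
  .mk 18 2 2 [],
  .mk 18 3 7 [],
  .mk 18 4 8 [],
  .mk 18 5 9 [],
  .mk 18 6 10 [],
  .mk 18 7 15 [],
  .mk 18 8 16 [],
  .mk 18 9 0 [],
  .mk 18 10 1 []],
[
  .mk 18 11 3 [0x4d]],
[
  .mk 18 11 3 [0x3f80]]]

theorem run : RunAll (runX PT.R (Wk.frw PT.R) nl RvT (SMap.evl cT tlT PT.vx ringF)) P :=
  .cons t0 (.cons t1 (.cons t2 (.cons t3 (.cons t4 (.cons t5 (.nil))))))

end Pool.Agent.Lib.MP_5854e1_co.Cz.Sr326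

namespace Pool.Agent.Lib.MP_5854e1_co.Cz.Sr581

open PB

theorem t0 : runX PT.R (Wk.frw PT.R) nl RvT (SMap.evl cT tlT PT.vx ringF) [
  .mk 84 16 8 [0x174]] = true := by
  decide +kernel

theorem t1 : runX PT.R (Wk.frw PT.R) nl RvT (SMap.evl cT tlT PT.vx ringF) [
  .mk 84 16 8 [0x1a00]] = true := by
  decide +kernel

theorem t2 : runX PT.R (Wk.frw PT.R) nl RvT (SMap.evl cT tlT PT.vx ringF) [
  .mk 84 16 8 [0x2000]] = true := by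
  decide +kernel

theorem t3 : runX PT.R (Wk.frw PT.R) nl RvT (SMap.evl cT tlT PT.vx ringF) [
  .mk 84 16 8 [0xc00c000]] = true := by
  decide +kernel

theorem t4 : runX PT.R (Wk.frw PT.R) nl RvT (SMap.evl cT tlT PT.vx ringF) [
  .mk 84 16 8 [0xff3ff0002],
  .mk 84 16 8 [0x8, 0xf9e0001]] = true := by
  decide +kernel

theorem t5 : runX PT.R (Wk.frw PT.R) nl RvT (SMap.evl cT tlT PT.vx ringF) [
  .mk 84 16 8 [0x8, 0x3f061fffe]] = true := by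
  decide +kernel

/-- The tasks. -/
noncomputable def P : List (List Tk) := [
[
  .mk 84 16 8 [0x174]],
[
  .mk 84 16 8 [0x1a00]],
[
  .mk 84 16 8 [0x2000]],
[
  .mk 84 16 8 [0xc00c000]],
[
  .mk 84 16 8 [0xff3ff0002],
  .mk 84 16 8 [0x8, 0xf9e0001]],
[
  .mk 84 16 8 [0x8, 0x3f061fffe]]]

theorem run : RunAll (runX PT.R (Wk.frw PT.R) nl RvT (SMap.evl cT tlT PT.vx ringF)) P :=
  .cons t0 (.cons t1 (.cons t2 (.cons t3 (.cons t4 (.cons t5 (.nil))))))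

end Pool.Agent.Lib.MP_5854e1_co.Cz.Sr581
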