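import Pool.Agent.Lib.MP_5854e1_co.Cz.P
import Pool.Agent.Lib.MP_5854e1_co.Tkx
import Pool.Agent.Lib.MP_5854e1_co.RunAll

/-!
# Search, part 344
-/

set_option autoImplicit false
set_option deprecated.oldSectionVars true
set_option maxRecDepth 100000

namespace Pool.Agent.Lib.MP_5854e1_co.Cz.Sr344

open PB

theorem t0 : runX PT.R (Wk.frw PT.R) nl RvT (SMap.evl cT tlT PT.vx ringF) [
  .mk 36 13 48 [0x7c00000]] = true := by
  decide +kernel

theorem t1 : runX PT.R (Wk.frw PT.R) nl RvT (SMap.evl cT tlT PT.vx ringF) [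
  .mk 36 13 48 [0x800584c]] = true := by
  decide +kernel

theorem t2 : runX PT.R (Wk.frw PT.R) nl RvT (SMap.evl cT tlT PT.vx ringF) [
  .mk 36 13 48 [0x200000, 0xbffff]] = true := by
  decide +kernel

theorem t3 : runX PT.R (Wk.frw PT.R) nl RvT (SMap.evl cT tlT PT.vx ringF) [
  .mk 36 13 48 [0x200000, 0x40000, 0x13]] = true := by
  decide +kernel

theorem t4 : runX PT.R (Wk.frw PT.R) nl RvT (SMap.evl cT tlT PT.vx ringF) [
  .mk 36 13 48 [0x200000, 0x40000, 0xfffffffec],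
  .mk 36 14 49 [],
  .mk 36 15 0 [],
  .mk 36 16 20 [],
  .mk 36 17 24 [],
  .mk 36 18 25 [],
  .mk 36 19 26 [],
  .mk 36 20 27 [],
  .mk 36 21 28 [],
  .mk 36 22 30 [],
  .mk 36 23 31 [],
  .mk 36 24 32 [],
  .mk 36 25 50 [],
  .mk 36 26 51 [],
  .mk 36 27 52 [],
  .mk 36 28 53 []] = true := by
  decide +kernel

theorem t5 : runX PT.R (Wk.frw PT.R) nl RvT (SMap.evl cT tlT PT.vx ringF) [
  .mk 36 29 54 [],
  .mk 36 30 55 [],
  .mk 36 31 56 [],
  .mk 36 32 57 [],
  .mk 36 33 58 [],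
  .mk 36 34 59 [],
  .mk 36 35 60 []] = true := by
  decide +kernel

theorem t6 : runX PT.R (Wk.frw PT.R) nl RvT (SMap.evl cT tlT PT.vx ringF) [
  .mk 39 0 0 [0xe003405800000000000000000000000000000000000000000000000000000000000000000000000]] = true := by
  decide +kernel

/-- The tasks. -/
noncomputable def P : List (List Tk) := [
[
  .mk 36 13 48 [0x7c00000]],
[
  .mk 36 13 48 [0x800584c]],
[
  .mk 36 13 48 [0x200000, 0xbffff]],
[
  .mk 36 13 48 [0x200000, 0x40000, 0x13]],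
[
  .mk 36 13 48 [0x200000, 0x40000, 0xfffffffec],
  .mk 36 14 49 [],
  .mk 36 15 0 [],
  .mk 36 16 20 [],
  .mk 36 17 24 [],
  .mk 36 18 25 [],
  .mk 36 19 26 [],
  .mk 36 20 27 [],
  .mk 36 21 28 [],
  .mk 36 22 30 [],
  .mk 36 23 31 [],
  .mk 36 24 32 [],
  .mk 36 25 50 [],
  .mk 36 26 51 [],
  .mk 36 27 52 [],
  .mk 36 28 53 []],
[
  .mk 36 29 54 [],
  .mk 36 30 55 [],
  .mk 36 31 56 [],
  .mk 36 32 57 [],
  .mk 36 33 58 [],
  .mk 36 34 59 [],
  .mk 36 35 60 []],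
[
  .mk 39 0 0 [0xe003405800000000000000000000000000000000000000000000000000000000000000000000000]]]

theorem run : RunAll (runX PT.R (Wk.frw PT.R) nl RvT (SMap.evl cT tlT PT.vx ringF)) P :=
  .cons t0 (.cons t1 (.cons t2 (.cons t3 (.cons t4 (.cons t5 (.cons t6 (.nil)))))))

end Pool.Agent.Lib.MP_5854e1_co.Cz.Sr344

namespace Pool.Agent.Lib.MP_5854e1_co.Cz.Sr405

open PB

theorem t0 : runX PT.R (Wk.frw PT.R) nl RvT (SMap.evl cT tlT PT.vx ringF) [
  .mk 41 13 48 [0x8000000, 0x400, 0x40000, 0x400000000000000000000000000000000000000000000000000000000000000000000000000000000000000000000000, 0x200000000000000000000, 0xffffffffffffffffffffffffffffffffffffffffffffffffffffffffffffffffffffffffffffffffffffffffffffffffffffffff]] = true := by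
  decide +kernel

/-- The tasks. -/
noncomputable def P : List (List Tk) := [
[
  .mk 41 13 48 [0x8000000, 0x400, 0x40000, 0x400000000000000000000000000000000000000000000000000000000000000000000000000000000000000000000000, 0x200000000000000000000, 0xffffffffffffffffffffffffffffffffffffffffffffffffffffffffffffffffffffffffffffffffffffffffffffffffffffffff]]]

theorem run : RunAll (runX PT.R (Wk.frw PT.R) nl RvT (SMap.evl cT tlT PT.vx ringF)) P :=
  .cons t0 (.nil)

end Pool.Agent.Lib.MP_5854e1_co.Cz.Sr405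

namespace Pool.Agent.Lib.MP_5854e1_co.Cz.Sr479

open PB

theorem t0 : runX PT.R (Wk.frw PT.R) nl RvT (SMap.evl cT tlT PT.vx ringF) [
  .mk 47 50 96 [0x40000000, 0x3f001]] = true := by
  decide +kernel

theorem t1 : runX PT.R (Wk.frw PT.R) nl RvT (SMap.evl cT tlT PT.vx ringF) [
  .mk 47 50 96 [0x40000000, 0xffc0ffe],
  .mk 47 51 97 [],
  .mk 47 52 98 [],
  .mk 47 53 99 [],
  .mk 47 54 100 []] = true := by
  decide +kernel

theorem t2 : runX PT.R (Wk.frw PT.R) nl RvT (SMap.evl cT tlT PT.vx ringF) [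
  .mk 48 0 0 [],
  .mk 48 1 7 [],
  .mk 48 2 13 []] = true := by
  decide +kernel

theorem t3 : runX PT.R (Wk.frw PT.R) nl RvT (SMap.evl cT tlT PT.vx ringF) [
  .mk 48 3 14 [],
  .mk 48 4 15 [],
  .mk 48 5 18 [],
  .mk 48 6 19 [],
  .mk 48 7 39 [],
  .mk 48 8 40 []] = true := by
  decide +kernel

theorem t4 : runX PT.R (Wk.frw PT.R) nl RvT (SMap.evl cT tlT PT.vx ringF) [
  .mk 48 9 41 [0x591]] = true := by
  decide +kernel

theorem t5 : runX PT.R (Wk.frw PT.R) nl RvT (SMap.evl cT tlT PT.vx ringF) [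
  .mk 48 9 41 [0xfffffe06c],
  .mk 48 9 41 [0x2, 0xfffffffefffffffffffffffffffffffffffffffffffffffffffffffffffffffffffffff]] = true := by
  decide +kernel

/-- The tasks. -/
noncomputable def P : List (List Tk) := [
[
  .mk 47 50 96 [0x40000000, 0x3f001]],
[
  .mk 47 50 96 [0x40000000, 0xffc0ffe],
  .mk 47 51 97 [],
  .mk 47 52 98 [],
  .mk 47 53 99 [],
  .mk 47 54 100 []],
[
  .mk 48 0 0 [],
  .mk 48 1 7 [],
  .mk 48 2 13 []],
[
  .mk 48 3 14 [],
  .mk 48 4 15 [],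
  .mk 48 5 18 [],
  .mk 48 6 19 [],
  .mk 48 7 39 [],
  .mk 48 8 40 []],
[
  .mk 48 9 41 [0x591]],
[
  .mk 48 9 41 [0xfffffe06c],
  .mk 48 9 41 [0x2, 0xfffffffefffffffffffffffffffffffffffffffffffffffffffffffffffffffffffffff]]]

theorem run : RunAll (runX PT.R (Wk.frw PT.R) nl RvT (SMap.evl cT tlT PT.vx ringF)) P :=
  .cons t0 (.cons t1 (.cons t2 (.cons t3 (.cons t4 (.cons t5 (.nil))))))

end Pool.Agent.Lib.MP_5854e1_co.Cz.Sr479
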