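import Pool.Agent.Lib.MP_5854e1_co.Cz.P
import Pool.Agent.Lib.MP_5854e1_co.Tkx
import Pool.Agent.Lib.MP_5854e1_co.RunAll

/-!
# Search, part 346
-/

set_option autoImplicit false
set_option deprecated.oldSectionVars true
set_option maxRecDepth 100000

namespace Pool.Agent.Lib.MP_5854e1_co.Cz.Sr346

open PB

theorem t0 : runX PT.R (Wk.frw PT.R) nl RvT (SMap.evl cT tlT PT.vx ringF) [
  .mk 39 10 0 [0xfffffffffffffffffffffffffffd0bf07fffffffffffffffffffffffffffffffffffffffffffffffffffffffffffffffffffffff],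
  .mk 39 11 1 [],
  .mk 39 12 4 [],
  .mk 39 13 6 []] = true := by
  decide +kernel

theorem t1 : runX PT.R (Wk.frw PT.R) nl RvT (SMap.evl cT tlT PT.vx ringF) [
  .mk 39 14 33 [],
  .mk 39 15 34 []] = true := by
  decide +kernel

theorem t2 : runX PT.R (Wk.frw PT.R) nl RvT (SMap.evl cT tlT PT.vx ringF) [
  .mk 39 16 35 [0xfffffc9f2],
  .mk 39 16 35 [0x1, 0x600000000200000000000000000000]] = true := by
  decide +kernel

theorem t3 : runX PT.R (Wk.frw PT.R) nl RvT (SMap.evl cT tlT PT.vx ringF) [
  .mk 39 16 35 [0x1, 0x800000000000000000000000000000]] = true := by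
  decide +kernel

theorem t4 : runX PT.R (Wk.frw PT.R) nl RvT (SMap.evl cT tlT PT.vx ringF) [
  .mk 39 16 35 [0x1, 0xffffffffffffffffffffffffffffffffffffffffffffffffffffffffffffffffffffffffff1ffffffffdffffffffffffffffffff],
  .mk 39 16 35 [0x4, 0x5401]] = true := by
  decide +kernel

theorem t5 : runX PT.R (Wk.frw PT.R) nl RvT (SMap.evl cT tlT PT.vx ringF) [
  .mk 39 16 35 [0x4, 0x18000]] = true := by
  decide +kernel

/-- The tasks. -/
noncomputable def P : List (List Tk) := [
[
  .mk 39 10 0 [0xfffffffffffffffffffffffffffd0bf07fffffffffffffffffffffffffffffffffffffffffffffffffffffffffffffffffffffff],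
  .mk 39 11 1 [],
  .mk 39 12 4 [],
  .mk 39 13 6 []],
[
  .mk 39 14 33 [],
  .mk 39 15 34 []],
[
  .mk 39 16 35 [0xfffffc9f2],
  .mk 39 16 35 [0x1, 0x600000000200000000000000000000]],
[
  .mk 39 16 35 [0x1, 0x800000000000000000000000000000]],
[
  .mk 39 16 35 [0x1, 0xffffffffffffffffffffffffffffffffffffffffffffffffffffffffffffffffffffffffff1ffffffffdffffffffffffffffffff],
  .mk 39 16 35 [0x4, 0x5401]],
[
  .mk 39 16 35 [0x4, 0x18000]]]

theorem run : RunAll (runX PT.R (Wk.frw PT.R) nl RvT (SMap.evl cT tlT PT.vx ringF)) P :=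
  .cons t0 (.cons t1 (.cons t2 (.cons t3 (.cons t4 (.cons t5 (.nil))))))

end Pool.Agent.Lib.MP_5854e1_co.Cz.Sr346

namespace Pool.Agent.Lib.MP_5854e1_co.Cz.Sr368

open PB

theorem t0 : runX PT.R (Wk.frw PT.R) nl RvT (SMap.evl cT tlT PT.vx ringF) [
  .mk 41 2 11 [0x2000, 0x1000, 0x7ffffffeffffff]] = true := by
  decide +kernel

theorem t1 : runX PT.R (Wk.frw PT.R) nl RvT (SMap.evl cT tlT PT.vx ringF) [
  .mk 41 2 11 [0x2000, 0x1000, 0x1000000, 0x3]] = true := by
  decide +kernel

theorem t2 : runX PT.R (Wk.frw PT.R) nl RvT (SMap.evl cT tlT PT.vx ringF) [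
  .mk 41 2 11 [0x2000, 0x1000, 0x1000000, 0x3fffffffc]] = true := by
  decide +kernel

theorem t3 : runX PT.R (Wk.frw PT.R) nl RvT (SMap.evl cT tlT PT.vx ringF) [
  .mk 41 2 11 [0x2000, 0x4000, 0x7]] = true := by
  decide +kernel

theorem t4 : runX PT.R (Wk.frw PT.R) nl RvT (SMap.evl cT tlT PT.vx ringF) [
  .mk 41 2 11 [0x2000, 0x4000, 0xffffffff8]] = true := by
  decide +kernel

theorem t5 : runX PT.R (Wk.frw PT.R) nl RvT (SMap.evl cT tlT PT.vx ringF) [
  .mk 41 2 11 [0x4000, 0x1fb4b007ff001]] = true := by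
  decide +kernel

theorem t6 : runX PT.R (Wk.frw PT.R) nl RvT (SMap.evl cT tlT PT.vx ringF) [
  .mk 41 2 11 [0x4000, 0x204b4ff800ffe]] = true := by
  decide +kernel

/-- The tasks. -/
noncomputable def P : List (List Tk) := [
[
  .mk 41 2 11 [0x2000, 0x1000, 0x7ffffffeffffff]],
[
  .mk 41 2 11 [0x2000, 0x1000, 0x1000000, 0x3]],
[
  .mk 41 2 11 [0x2000, 0x1000, 0x1000000, 0x3fffffffc]],
[
  .mk 41 2 11 [0x2000, 0x4000, 0x7]],
[
  .mk 41 2 11 [0x2000, 0x4000, 0xffffffff8]],
[
  .mk 41 2 11 [0x4000, 0x1fb4b007ff001]],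
[
  .mk 41 2 11 [0x4000, 0x204b4ff800ffe]]]

theorem run : RunAll (runX PT.R (Wk.frw PT.R) nl RvT (SMap.evl cT tlT PT.vx ringF)) P :=
  .cons t0 (.cons t1 (.cons t2 (.cons t3 (.cons t4 (.cons t5 (.cons t6 (.nil)))))))

end Pool.Agent.Lib.MP_5854e1_co.Cz.Sr368

namespace Pool.Agent.Lib.MP_5854e1_co.Cz.Sr484

open PB

theorem t0 : runX PT.R (Wk.frw PT.R) nl RvT (SMap.evl cT tlT PT.vx ringF) [
  .mk 48 17 0 [0x200000000000000000000000000000000000000000000000000000000000000000000000000000000000000000000000000000]] = true := by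
  decide +kernel

theorem t1 : runX PT.R (Wk.frw PT.R) nl RvT (SMap.evl cT tlT PT.vx ringF) [
  .mk 48 17 0 [0x400000000000000000000000000000000000000000000000000000000000000000000000000000000000000000000000000000]] = true := by
  decide +kernel

theorem t2 : runX PT.R (Wk.frw PT.R) nl RvT (SMap.evl cT tlT PT.vx ringF) [
  .mk 48 17 0 [0xff93fb4fc1ffffffffffffffffffffffffffffffffffffff00001fffffffffffdfffffffffffffffffffffffffffffffffffffff]] = true := by
  decide +kernel

theorem t3 : runX PT.R (Wk.frw PT.R) nl RvT (SMap.evl cT tlT PT.vx ringF) [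
  .mk 48 17 0 [0x20000000000000000000000000000000000000000000000000000000000000000000000000000000000000000000000, 0x300016000000000000000001600000000000000000000]] = true := by
  decide +kernel

theorem t4 : runX PT.R (Wk.frw PT.R) nl RvT (SMap.evl cT tlT PT.vx ringF) [
  .mk 48 17 0 [0x20000000000000000000000000000000000000000000000000000000000000000000000000000000000000000000000, 0xc00000000000000000000000000000000000000000000]] = true := by
  decide +kernel

theorem t5 : runX PT.R (Wk.frw PT.R) nl RvT (SMap.evl cT tlT PT.vx ringF) [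
  .mk 48 17 0 [0x20000000000000000000000000000000000000000000000000000000000000000000000000000000000000000000000, 0xfffffffffffffffffffffffffffffffffffffffffffffffffffffffffff0fffe9fffffffffffffffffe9ffffffffffffffffffff],
  .mk 48 18 20 [0xf14000000000000000000000000000000000000]] = true := by
  decide +kernel

/-- The tasks. -/
noncomputable def P : List (List Tk) := [
[
  .mk 48 17 0 [0x200000000000000000000000000000000000000000000000000000000000000000000000000000000000000000000000000000]],
[
  .mk 48 17 0 [0x400000000000000000000000000000000000000000000000000000000000000000000000000000000000000000000000000000]],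
[
  .mk 48 17 0 [0xff93fb4fc1ffffffffffffffffffffffffffffffffffffff00001fffffffffffdfffffffffffffffffffffffffffffffffffffff]],
[
  .mk 48 17 0 [0x20000000000000000000000000000000000000000000000000000000000000000000000000000000000000000000000, 0x300016000000000000000001600000000000000000000]],
[
  .mk 48 17 0 [0x20000000000000000000000000000000000000000000000000000000000000000000000000000000000000000000000, 0xc00000000000000000000000000000000000000000000]],
[
  .mk 48 17 0 [0x20000000000000000000000000000000000000000000000000000000000000000000000000000000000000000000000, 0xfffffffffffffffffffffffffffffffffffffffffffffffffffffffffff0fffe9fffffffffffffffffe9ffffffffffffffffffff],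
  .mk 48 18 20 [0xf14000000000000000000000000000000000000]]]

theorem run : RunAll (runX PT.R (Wk.frw PT.R) nl RvT (SMap.evl cT tlT PT.vx ringF)) P :=
  .cons t0 (.cons t1 (.cons t2 (.cons t3 (.cons t4 (.cons t5 (.nil))))))

end Pool.Agent.Lib.MP_5854e1_co.Cz.Sr484
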