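import Pool.Agent.Lib.MP_5854e1_co.Cz.P
import Pool.Agent.Lib.MP_5854e1_co.Tkx
import Pool.Agent.Lib.MP_5854e1_co.RunAll

/-!
# Search, part 351
-/

set_option autoImplicit false
set_option deprecated.oldSectionVars true
set_option maxRecDepth 100000

namespace Pool.Agent.Lib.MP_5854e1_co.Cz.Sr351

open PB

theorem t0 : runX PT.R (Wk.frw PT.R) nl RvT (SMap.evl cT tlT PT.vx ringF) [
  .mk 39 16 35 [0x400, 0x40000, 0x3f00fc0000000000000000000000000000000000000000000000000000000000000000000000000000]] = true := by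
  decide +kernel

theorem t1 : runX PT.R (Wk.frw PT.R) nl RvT (SMap.evl cT tlT PT.vx ringF) [
  .mk 39 16 35 [0x400, 0x40000, 0xffffffffffffffffffffffc0ff03fc0f81ffffffffffffffffffffffffffffffffffffffffffffffffffffffffffffffffffffff]] = true := by
  decide +kernel

theorem t2 : runX PT.R (Wk.frw PT.R) nl RvT (SMap.evl cT tlT PT.vx ringF) [
  .mk 39 16 35 [0x400, 0x2000000000, 0x7fdff]] = true := by
  decide +kernel

theorem t3 : runX PT.R (Wk.frw PT.R) nl RvT (SMap.evl cT tlT PT.vx ringF) [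
  .mk 39 16 35 [0x400, 0x2000000000, 0x200, 0x153c0008401]] = true := by
  decide +kernel

theorem t4 : runX PT.R (Wk.frw PT.R) nl RvT (SMap.evl cT tlT PT.vx ringF) [
  .mk 39 16 35 [0x400, 0x2000000000, 0x200, 0xfffffffffffffffffffffffffffffffffffffffffffffffffffffffffffffffffffffffffffffffffffffffffffffeac3fff7bfe]] = true := by
  decide +kernel

theorem t5 : runX PT.R (Wk.frw PT.R) nl RvT (SMap.evl cT tlT PT.vx ringF) [
  .mk 39 16 35 [0x1000, 0x1c01e003ffb4b]] = true := by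
  decide +kernel

theorem t6 : runX PT.R (Wk.frw PT.R) nl RvT (SMap.evl cT tlT PT.vx ringF) [
  .mk 39 16 35 [0x1000, 0x6000000000000]] = true := by
  decide +kernel

/-- The tasks. -/
noncomputable def P : List (List Tk) := [
[
  .mk 39 16 35 [0x400, 0x40000, 0x3f00fc0000000000000000000000000000000000000000000000000000000000000000000000000000]],
[
  .mk 39 16 35 [0x400, 0x40000, 0xffffffffffffffffffffffc0ff03fc0f81ffffffffffffffffffffffffffffffffffffffffffffffffffffffffffffffffffffff]],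
[
  .mk 39 16 35 [0x400, 0x2000000000, 0x7fdff]],
[
  .mk 39 16 35 [0x400, 0x2000000000, 0x200, 0x153c0008401]],
[
  .mk 39 16 35 [0x400, 0x2000000000, 0x200, 0xfffffffffffffffffffffffffffffffffffffffffffffffffffffffffffffffffffffffffffffffffffffffffffffeac3fff7bfe]],
[
  .mk 39 16 35 [0x1000, 0x1c01e003ffb4b]],
[
  .mk 39 16 35 [0x1000, 0x6000000000000]]]

theorem run : RunAll (runX PT.R (Wk.frw PT.R) nl RvT (SMap.evl cT tlT PT.vx ringF)) P :=
  .cons t0 (.cons t1 (.cons t2 (.cons t3 (.cons t4 (.cons t5 (.cons t6 (.nil)))))))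

end Pool.Agent.Lib.MP_5854e1_co.Cz.Sr351

namespace Pool.Agent.Lib.MP_5854e1_co.Cz.Sr510

open PB

theorem t0 : runX PT.R (Wk.frw PT.R) nl RvT (SMap.evl cT tlT PT.vx ringF) [
  .mk 63 3 27 [0x400000, 0x4000, 0x3ffffffffff00]] = true := by
  decide +kernel

theorem t1 : runX PT.R (Wk.frw PT.R) nl RvT (SMap.evl cT tlT PT.vx ringF) [
  .mk 63 3 27 [0x400000, 0x4000, 0x8, 0x13]] = true := by
  decide +kernel

theorem t2 : runX PT.R (Wk.frw PT.R) nl RvT (SMap.evl cT tlT PT.vx ringF) [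
  .mk 63 3 27 [0x400000, 0x4000, 0x8, 0x3ffffffec]] = true := by
  decide +kernel

theorem t3 : runX PT.R (Wk.frw PT.R) nl RvT (SMap.evl cT tlT PT.vx ringF) [
  .mk 63 3 27 [0x800000, 0x126006d]] = true := by
  decide +kernel

theorem t4 : runX PT.R (Wk.frw PT.R) nl RvT (SMap.evl cT tlT PT.vx ringF) [
  .mk 63 3 27 [0x800000, 0x3f2d9ff92]] = true := by
  decide +kernel

theorem t5 : runX PT.R (Wk.frw PT.R) nl RvT (SMap.evl cT tlT PT.vx ringF) [
  .mk 63 3 27 [0x800000, 0x4000000, 0x3]] = true := by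
  decide +kernel

theorem t6 : runX PT.R (Wk.frw PT.R) nl RvT (SMap.evl cT tlT PT.vx ringF) [
  .mk 63 3 27 [0x800000, 0x4000000, 0x4]] = true := by
  decide +kernel

/-- The tasks. -/
noncomputable def P : List (List Tk) := [
[
  .mk 63 3 27 [0x400000, 0x4000, 0x3ffffffffff00]],
[
  .mk 63 3 27 [0x400000, 0x4000, 0x8, 0x13]],
[
  .mk 63 3 27 [0x400000, 0x4000, 0x8, 0x3ffffffec]],
[
  .mk 63 3 27 [0x800000, 0x126006d]],
[
  .mk 63 3 27 [0x800000, 0x3f2d9ff92]],
[
  .mk 63 3 27 [0x800000, 0x4000000, 0x3]],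
[
  .mk 63 3 27 [0x800000, 0x4000000, 0x4]]]

theorem run : RunAll (runX PT.R (Wk.frw PT.R) nl RvT (SMap.evl cT tlT PT.vx ringF)) P :=
  .cons t0 (.cons t1 (.cons t2 (.cons t3 (.cons t4 (.cons t5 (.cons t6 (.nil)))))))

end Pool.Agent.Lib.MP_5854e1_co.Cz.Sr510
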