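import Pool.Agent.Lib.MP_5854e1_co.Cz.P
import Pool.Agent.Lib.MP_5854e1_co.Tkx
import Pool.Agent.Lib.MP_5854e1_co.RunAll

/-!
# Search, part 352
-/

set_option autoImplicit false
set_option deprecated.oldSectionVars true
set_option maxRecDepth 100000

namespace Pool.Agent.Lib.MP_5854e1_co.Cz.Sr352

open PB

theorem t0 : runX PT.R (Wk.frw PT.R) nl RvT (SMap.evl cT tlT PT.vx ringF) [
  .mk 39 16 35 [0x1000, 0x783fe1ffc004b4],
  .mk 39 16 35 [0x2000, 0x2c0033]] = true := by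
  decide +kernel

theorem t1 : runX PT.R (Wk.frw PT.R) nl RvT (SMap.evl cT tlT PT.vx ringF) [
  .mk 39 16 35 [0x2000, 0x400000]] = true := by
  decide +kernel

theorem t2 : runX PT.R (Wk.frw PT.R) nl RvT (SMap.evl cT tlT PT.vx ringF) [
  .mk 39 16 35 [0x2000, 0x800000]] = true := by
  decide +kernel

theorem t3 : runX PT.R (Wk.frw PT.R) nl RvT (SMap.evl cT tlT PT.vx ringF) [
  .mk 39 16 35 [0x2000, 0x1000000]] = true := by
  decide +kernel

theorem t4 : runX PT.R (Wk.frw PT.R) nl RvT (SMap.evl cT tlT PT.vx ringF) [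
  .mk 39 16 35 [0x2000, 0x2000000]] = true := by
  decide +kernel

theorem t5 : runX PT.R (Wk.frw PT.R) nl RvT (SMap.evl cT tlT PT.vx ringF) [
  .mk 39 16 35 [0x2000, 0x411ffcc],
  .mk 39 16 35 [0x2000, 0x20000, 0xf000000000002000000000000000000000000000000000000000]] = true := by
  decide +kernel

/-- The tasks. -/
noncomputable def P : List (List Tk) := [
[
  .mk 39 16 35 [0x1000, 0x783fe1ffc004b4],
  .mk 39 16 35 [0x2000, 0x2c0033]],
[
  .mk 39 16 35 [0x2000, 0x400000]],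
[
  .mk 39 16 35 [0x2000, 0x800000]],
[
  .mk 39 16 35 [0x2000, 0x1000000]],
[
  .mk 39 16 35 [0x2000, 0x2000000]],
[
  .mk 39 16 35 [0x2000, 0x411ffcc],
  .mk 39 16 35 [0x2000, 0x20000, 0xf000000000002000000000000000000000000000000000000000]]]

theorem run : RunAll (runX PT.R (Wk.frw PT.R) nl RvT (SMap.evl cT tlT PT.vx ringF)) P :=
  .cons t0 (.cons t1 (.cons t2 (.cons t3 (.cons t4 (.cons t5 (.nil))))))

end Pool.Agent.Lib.MP_5854e1_co.Cz.Sr352

namespace Pool.Agent.Lib.MP_5854e1_co.Cz.Sr442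

open PB

theorem t0 : runX PT.R (Wk.frw PT.R) nl RvT (SMap.evl cT tlT PT.vx ringF) [
  .mk 42 26 68 [0x4000, 0x1, 0x3f07e000001fffffe0000000000000000000000000000000000000000000000000000000000]] = true := by
  decide +kernel

theorem t1 : runX PT.R (Wk.frw PT.R) nl RvT (SMap.evl cT tlT PT.vx ringF) [
  .mk 42 26 68 [0x4000, 0x1, 0xfffffffffffffffffffffffffffffc0f81fffffe000001ffffffffffffffffffffffffffffffffffffffffffffffffffffffffff]] = true := by
  decide +kernel

theorem t2 : runX PT.R (Wk.frw PT.R) nl RvT (SMap.evl cT tlT PT.vx ringF) [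
  .mk 42 26 68 [0x4000, 0x20, 0x33]] = true := by
  decide +kernel

theorem t3 : runX PT.R (Wk.frw PT.R) nl RvT (SMap.evl cT tlT PT.vx ringF) [
  .mk 42 26 68 [0x4000, 0x20, 0x3ffffffcc]] = true := by
  decide +kernel

theorem t4 : runX PT.R (Wk.frw PT.R) nl RvT (SMap.evl cT tlT PT.vx ringF) [
  .mk 42 26 68 [0x4000, 0x400, 0xb]] = true := by
  decide +kernel

/-- The tasks. -/
noncomputable def P : List (List Tk) := [
[
  .mk 42 26 68 [0x4000, 0x1, 0x3f07e000001fffffe0000000000000000000000000000000000000000000000000000000000]],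
[
  .mk 42 26 68 [0x4000, 0x1, 0xfffffffffffffffffffffffffffffc0f81fffffe000001ffffffffffffffffffffffffffffffffffffffffffffffffffffffffff]],
[
  .mk 42 26 68 [0x4000, 0x20, 0x33]],
[
  .mk 42 26 68 [0x4000, 0x20, 0x3ffffffcc]],
[
  .mk 42 26 68 [0x4000, 0x400, 0xb]]]

theorem run : RunAll (runX PT.R (Wk.frw PT.R) nl RvT (SMap.evl cT tlT PT.vx ringF)) P :=
  .cons t0 (.cons t1 (.cons t2 (.cons t3 (.cons t4 (.nil)))))

end Pool.Agent.Lib.MP_5854e1_co.Cz.Sr442
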