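import Pool.Agent.Lib.MP_5854e1_co.Cz.P
import Pool.Agent.Lib.MP_5854e1_co.Tkx
import Pool.Agent.Lib.MP_5854e1_co.RunAll

/-!
# Search, part 366
-/

set_option autoImplicit false
set_option deprecated.oldSectionVars true
set_option maxRecDepth 100000

namespace Pool.Agent.Lib.MP_5854e1_co.Cz.Sr366

open PB

theorem t0 : runX PT.R (Wk.frw PT.R) nl RvT (SMap.evl cT tlT PT.vx ringF) [
  .mk 41 2 11 [0x2000, 0x400, 0x10000000, 0x1000, 0x1, 0x400000000000000000000000000000000000000000000000000000000000000000000000000000000000000000000000]] = true := by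
  decide +kernel

/-- The tasks. -/
noncomputable def P : List (List Tk) := [
[
  .mk 41 2 11 [0x2000, 0x400, 0x10000000, 0x1000, 0x1, 0x400000000000000000000000000000000000000000000000000000000000000000000000000000000000000000000000]]]

theorem run : RunAll (runX PT.R (Wk.frw PT.R) nl RvT (SMap.evl cT tlT PT.vx ringF)) P :=
  .cons t0 (.nil)

end Pool.Agent.Lib.MP_5854e1_co.Cz.Sr366

namespace Pool.Agent.Lib.MP_5854e1_co.Cz.Sr485

open PB

theorem t0 : runX PT.R (Wk.frw PT.R) nl RvT (SMap.evl cT tlT PT.vx ringF) [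
  .mk 48 18 20 [0xfffffffffffffbffffffffffffffffff0ebffffffffffffffffffffffffffffffffffff]] = true := by
  decide +kernel

theorem t1 : runX PT.R (Wk.frw PT.R) nl RvT (SMap.evl cT tlT PT.vx ringF) [
  .mk 48 18 20 [0x4000000000000000000000000000000000000000000000000000000000, 0xffffffffffffffffffffffffffffffffffffffffffffffffffffffffffffffffffffff3]] = true := by
  decide +kernel

theorem t2 : runX PT.R (Wk.frw PT.R) nl RvT (SMap.evl cT tlT PT.vx ringF) [
  .mk 48 18 20 [0x4000000000000000000000000000000000000000000000000000000000, 0x4, 0x28f]] = true := by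
  decide +kernel

theorem t3 : runX PT.R (Wk.frw PT.R) nl RvT (SMap.evl cT tlT PT.vx ringF) [
  .mk 48 18 20 [0x4000000000000000000000000000000000000000000000000000000000, 0x4, 0x7ffd70]] = true := by
  decide +kernel

theorem t4 : runX PT.R (Wk.frw PT.R) nl RvT (SMap.evl cT tlT PT.vx ringF) [
  .mk 48 18 20 [0x4000000000000000000000000000000000000000000000000000000000, 0x8, 0x3ef93]] = true := by
  decide +kernel

theorem t5 : runX PT.R (Wk.frw PT.R) nl RvT (SMap.evl cT tlT PT.vx ringF) [
  .mk 48 18 20 [0x4000000000000000000000000000000000000000000000000000000000, 0x8, 0x3fffc106c],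
  .mk 48 19 28 [],
  .mk 48 20 31 []] = true := by
  decide +kernel

theorem t6 : runX PT.R (Wk.frw PT.R) nl RvT (SMap.evl cT tlT PT.vx ringF) [
  .mk 48 21 50 [0x1d807]] = true := by
  decide +kernel

/-- The tasks. -/
noncomputable def P : List (List Tk) := [
[
  .mk 48 18 20 [0xfffffffffffffbffffffffffffffffff0ebffffffffffffffffffffffffffffffffffff]],
[
  .mk 48 18 20 [0x4000000000000000000000000000000000000000000000000000000000, 0xffffffffffffffffffffffffffffffffffffffffffffffffffffffffffffffffffffff3]],
[
  .mk 48 18 20 [0x4000000000000000000000000000000000000000000000000000000000, 0x4, 0x28f]],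
[
  .mk 48 18 20 [0x4000000000000000000000000000000000000000000000000000000000, 0x4, 0x7ffd70]],
[
  .mk 48 18 20 [0x4000000000000000000000000000000000000000000000000000000000, 0x8, 0x3ef93]],
[
  .mk 48 18 20 [0x4000000000000000000000000000000000000000000000000000000000, 0x8, 0x3fffc106c],
  .mk 48 19 28 [],
  .mk 48 20 31 []],
[
  .mk 48 21 50 [0x1d807]]]

theorem run : RunAll (runX PT.R (Wk.frw PT.R) nl RvT (SMap.evl cT tlT PT.vx ringF)) P :=
  .cons t0 (.cons t1 (.cons t2 (.cons t3 (.cons t4 (.cons t5 (.cons t6 (.nil)))))))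

end Pool.Agent.Lib.MP_5854e1_co.Cz.Sr485
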