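import Pool.Agent.Lib.MP_5854e1_co.Cz.P
import Pool.Agent.Lib.MP_5854e1_co.Tkx
import Pool.Agent.Lib.MP_5854e1_co.RunAll

/-!
# Search, part 370
-/

set_option autoImplicit false
set_option deprecated.oldSectionVars true
set_option maxRecDepth 100000

namespace Pool.Agent.Lib.MP_5854e1_co.Cz.Sr370

open PB

theorem t0 : runX PT.R (Wk.frw PT.R) nl RvT (SMap.evl cT tlT PT.vx ringF) [
  .mk 41 2 11 [0x20000, 0x200, 0x3803f]] = true := by
  decide +kernel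

theorem t1 : runX PT.R (Wk.frw PT.R) nl RvT (SMap.evl cT tlT PT.vx ringF) [
  .mk 41 2 11 [0x20000, 0x200, 0xffffc7fc0],
  .mk 41 3 12 [0x1a5a1]] = true := by
  decide +kernel

theorem t2 : runX PT.R (Wk.frw PT.R) nl RvT (SMap.evl cT tlT PT.vx ringF) [
  .mk 41 3 12 [0x20000]] = true := by
  decide +kernel

theorem t3 : runX PT.R (Wk.frw PT.R) nl RvT (SMap.evl cT tlT PT.vx ringF) [
  .mk 41 3 12 [0x4aec585e]] = true := by
  decide +kernel

theorem t4 : runX PT.R (Wk.frw PT.R) nl RvT (SMap.evl cT tlT PT.vx ringF) [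
  .mk 41 3 12 [0x200, 0xffffffff3],
  .mk 41 3 12 [0x200, 0x4, 0x7ff7ff]] = true := by
  decide +kernel

theorem t5 : runX PT.R (Wk.frw PT.R) nl RvT (SMap.evl cT tlT PT.vx ringF) [
  .mk 41 3 12 [0x200, 0x4, 0x800, 0x1f]] = true := by
  decide +kernel

theorem t6 : runX PT.R (Wk.frw PT.R) nl RvT (SMap.evl cT tlT PT.vx ringF) [
  .mk 41 3 12 [0x200, 0x4, 0x800, 0xfffffffe0],
  .mk 41 3 12 [0x200, 0x8, 0x193]] = true := by
  decide +kernel

/-- The tasks. -/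
noncomputable def P : List (List Tk) := [
[
  .mk 41 2 11 [0x20000, 0x200, 0x3803f]],
[
  .mk 41 2 11 [0x20000, 0x200, 0xffffc7fc0],
  .mk 41 3 12 [0x1a5a1]],
[
  .mk 41 3 12 [0x20000]],
[
  .mk 41 3 12 [0x4aec585e]],
[
  .mk 41 3 12 [0x200, 0xffffffff3],
  .mk 41 3 12 [0x200, 0x4, 0x7ff7ff]],
[
  .mk 41 3 12 [0x200, 0x4, 0x800, 0x1f]],
[
  .mk 41 3 12 [0x200, 0x4, 0x800, 0xfffffffe0],
  .mk 41 3 12 [0x200, 0x8, 0x193]]]

theorem run : RunAll (runX PT.R (Wk.frw PT.R) nl RvT (SMap.evl cT tlT PT.vx ringF)) P :=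
  .cons t0 (.cons t1 (.cons t2 (.cons t3 (.cons t4 (.cons t5 (.cons t6 (.nil)))))))

end Pool.Agent.Lib.MP_5854e1_co.Cz.Sr370

namespace Pool.Agent.Lib.MP_5854e1_co.Cz.Sr388

open PB

theorem t0 : runX PT.R (Wk.frw PT.R) nl RvT (SMap.evl cT tlT PT.vx ringF) [
  .mk 41 9 41 [0x8, 0xf898584c],
  .mk 41 9 41 [0x8, 0x1000000, 0xbffff]] = true := by
  decide +kernel

theorem t1 : runX PT.R (Wk.frw PT.R) nl RvT (SMap.evl cT tlT PT.vx ringF) [
  .mk 41 9 41 [0x8, 0x1000000, 0x40000, 0xffffffffb],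
  .mk 41 9 41 [0x8, 0x1000000, 0x40000, 0x4, 0x7ffdff]] = true := by
  decide +kernel

theorem t2 : runX PT.R (Wk.frw PT.R) nl RvT (SMap.evl cT tlT PT.vx ringF) [
  .mk 41 9 41 [0x8, 0x1000000, 0x40000, 0x4, 0x200, 0xffffffffffffffffffffffffffffffffffffffffffffffffffffffffffffffffffffffffffffffffffffffffffffffffffffffff]] = true := by
  decide +kernel

theorem t3 : runX PT.R (Wk.frw PT.R) nl RvT (SMap.evl cT tlT PT.vx ringF) [
  .mk 41 9 41 [0x8, 0x4000000, 0x398013]] = true := by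
  decide +kernel

theorem t4 : runX PT.R (Wk.frw PT.R) nl RvT (SMap.evl cT tlT PT.vx ringF) [
  .mk 41 9 41 [0x8, 0x4000000, 0xfffc67fec],
  .mk 41 9 41 [0x8, 0x100000000, 0x3e000200000]] = true := by
  decide +kernel

theorem t5 : runX PT.R (Wk.frw PT.R) nl RvT (SMap.evl cT tlT PT.vx ringF) [
  .mk 41 9 41 [0x8, 0x100000000, 0x7ffc1fffdfffff],
  .mk 41 9 41 [0x8, 0x200000000, 0xffffffbff]] = true := by
  decide +kernel

/-- The tasks. -/
noncomputable def P : List (List Tk) := [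
[
  .mk 41 9 41 [0x8, 0xf898584c],
  .mk 41 9 41 [0x8, 0x1000000, 0xbffff]],
[
  .mk 41 9 41 [0x8, 0x1000000, 0x40000, 0xffffffffb],
  .mk 41 9 41 [0x8, 0x1000000, 0x40000, 0x4, 0x7ffdff]],
[
  .mk 41 9 41 [0x8, 0x1000000, 0x40000, 0x4, 0x200, 0xffffffffffffffffffffffffffffffffffffffffffffffffffffffffffffffffffffffffffffffffffffffffffffffffffffffff]],
[
  .mk 41 9 41 [0x8, 0x4000000, 0x398013]],
[
  .mk 41 9 41 [0x8, 0x4000000, 0xfffc67fec],
  .mk 41 9 41 [0x8, 0x100000000, 0x3e000200000]],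
[
  .mk 41 9 41 [0x8, 0x100000000, 0x7ffc1fffdfffff],
  .mk 41 9 41 [0x8, 0x200000000, 0xffffffbff]]]

theorem run : RunAll (runX PT.R (Wk.frw PT.R) nl RvT (SMap.evl cT tlT PT.vx ringF)) P :=
  .cons t0 (.cons t1 (.cons t2 (.cons t3 (.cons t4 (.cons t5 (.nil))))))

end Pool.Agent.Lib.MP_5854e1_co.Cz.Sr388

namespace Pool.Agent.Lib.MP_5854e1_co.Cz.Sr427

open PB

theorem t0 : runX PT.R (Wk.frw PT.R) nl RvT (SMap.evl cT tlT PT.vx ringF) [
  .mk 42 21 63 [0x4, 0x200, 0xffffffffffffffffffffffffffffffffffffffffffffffffffffffffffffff77dfffffffffffffffffffffffffffffffffffff30]] = true := by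
  decide +kernel

theorem t1 : runX PT.R (Wk.frw PT.R) nl RvT (SMap.evl cT tlT PT.vx ringF) [
  .mk 42 21 63 [0x8, 0xcf]] = true := by
  decide +kernel

theorem t2 : runX PT.R (Wk.frw PT.R) nl RvT (SMap.evl cT tlT PT.vx ringF) [
  .mk 42 21 63 [0x8, 0x100000]] = true := by
  decide +kernel

theorem t3 : runX PT.R (Wk.frw PT.R) nl RvT (SMap.evl cT tlT PT.vx ringF) [
  .mk 42 21 63 [0x8, 0x3f2fff30]] = true := by
  decide +kernel

theorem t4 : runX PT.R (Wk.frw PT.R) nl RvT (SMap.evl cT tlT PT.vx ringF) [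
  .mk 42 21 63 [0x8, 0x400000, 0x7bb]] = true := by
  decide +kernel

theorem t5 : runX PT.R (Wk.frw PT.R) nl RvT (SMap.evl cT tlT PT.vx ringF) [
  .mk 42 21 63 [0x8, 0x400000, 0x7ff844]] = true := by
  decide +kernel

theorem t6 : runX PT.R (Wk.frw PT.R) nl RvT (SMap.evl cT tlT PT.vx ringF) [
  .mk 42 21 63 [0x8, 0x800000, 0x2005f]] = true := by
  decide +kernel

/-- The tasks. -/
noncomputable def P : List (List Tk) := [
[
  .mk 42 21 63 [0x4, 0x200, 0xffffffffffffffffffffffffffffffffffffffffffffffffffffffffffffff77dfffffffffffffffffffffffffffffffffffff30]],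
[
  .mk 42 21 63 [0x8, 0xcf]],
[
  .mk 42 21 63 [0x8, 0x100000]],
[
  .mk 42 21 63 [0x8, 0x3f2fff30]],
[
  .mk 42 21 63 [0x8, 0x400000, 0x7bb]],
[
  .mk 42 21 63 [0x8, 0x400000, 0x7ff844]],
[
  .mk 42 21 63 [0x8, 0x800000, 0x2005f]]]

theorem run : RunAll (runX PT.R (Wk.frw PT.R) nl RvT (SMap.evl cT tlT PT.vx ringF)) P :=
  .cons t0 (.cons t1 (.cons t2 (.cons t3 (.cons t4 (.cons t5 (.cons t6 (.nil)))))))

end Pool.Agent.Lib.MP_5854e1_co.Cz.Sr427
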