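import Pool.Agent.Lib.MP_5854e1_co.Cz.P
import Pool.Agent.Lib.MP_5854e1_co.Tkx
import Pool.Agent.Lib.MP_5854e1_co.RunAll

/-!
# Search, part 381
-/

set_option autoImplicit false
set_option deprecated.oldSectionVars true
set_option maxRecDepth 100000

namespace Pool.Agent.Lib.MP_5854e1_co.Cz.Sr381

open PB

theorem t0 : runX PT.R (Wk.frw PT.R) nl RvT (SMap.evl cT tlT PT.vx ringF) [
  .mk 41 7 39 [0x400, 0xfffffffffffffffffffffffffcfc03f07fffffffffffffffffffffffffffffffffffffffffffffffffffff82ffd441fffffffffe],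
  .mk 41 7 39 [0x400, 0x1000000000000, 0x7200]] = true := by
  decide +kernel

theorem t1 : runX PT.R (Wk.frw PT.R) nl RvT (SMap.evl cT tlT PT.vx ringF) [
  .mk 41 7 39 [0x400, 0x1000000000000, 0x7f8dff]] = true := by
  decide +kernel

theorem t2 : runX PT.R (Wk.frw PT.R) nl RvT (SMap.evl cT tlT PT.vx ringF) [
  .mk 41 7 39 [0x10000, 0x9d3]] = true := by
  decide +kernel

theorem t3 : runX PT.R (Wk.frw PT.R) nl RvT (SMap.evl cT tlT PT.vx ringF) [
  .mk 41 7 39 [0x10000, 0x29e80c000]] = true := by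
  decide +kernel

theorem t4 : runX PT.R (Wk.frw PT.R) nl RvT (SMap.evl cT tlT PT.vx ringF) [
  .mk 41 7 39 [0x10000, 0xd617f202c],
  .mk 41 7 39 [0x10000, 0x200, 0x1]] = true := by
  decide +kernel

theorem t5 : runX PT.R (Wk.frw PT.R) nl RvT (SMap.evl cT tlT PT.vx ringF) [
  .mk 41 7 39 [0x10000, 0x200, 0x12]] = true := by
  decide +kernel

/-- The tasks. -/
noncomputable def P : List (List Tk) := [
[
  .mk 41 7 39 [0x400, 0xfffffffffffffffffffffffffcfc03f07fffffffffffffffffffffffffffffffffffffffffffffffffffff82ffd441fffffffffe],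
  .mk 41 7 39 [0x400, 0x1000000000000, 0x7200]],
[
  .mk 41 7 39 [0x400, 0x1000000000000, 0x7f8dff]],
[
  .mk 41 7 39 [0x10000, 0x9d3]],
[
  .mk 41 7 39 [0x10000, 0x29e80c000]],
[
  .mk 41 7 39 [0x10000, 0xd617f202c],
  .mk 41 7 39 [0x10000, 0x200, 0x1]],
[
  .mk 41 7 39 [0x10000, 0x200, 0x12]]]

theorem run : RunAll (runX PT.R (Wk.frw PT.R) nl RvT (SMap.evl cT tlT PT.vx ringF)) P :=
  .cons t0 (.cons t1 (.cons t2 (.cons t3 (.cons t4 (.cons t5 (.nil))))))

end Pool.Agent.Lib.MP_5854e1_co.Cz.Sr381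

namespace Pool.Agent.Lib.MP_5854e1_co.Cz.Sr526

open PB

theorem t0 : runX PT.R (Wk.frw PT.R) nl RvT (SMap.evl cT tlT PT.vx ringF) [
  .mk 63 11 54 [0x800000, 0x14f260033]] = true := by
  decide +kernel

theorem t1 : runX PT.R (Wk.frw PT.R) nl RvT (SMap.evl cT tlT PT.vx ringF) [
  .mk 63 11 54 [0x800000, 0x2b0d9ffcc],
  .mk 63 12 55 [0x1e]] = true := by
  decide +kernel

theorem t2 : runX PT.R (Wk.frw PT.R) nl RvT (SMap.evl cT tlT PT.vx ringF) [
  .mk 63 12 55 [0x60]] = true := by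
  decide +kernel

theorem t3 : runX PT.R (Wk.frw PT.R) nl RvT (SMap.evl cT tlT PT.vx ringF) [
  .mk 63 12 55 [0xffffb80]] = true := by
  decide +kernel

theorem t4 : runX PT.R (Wk.frw PT.R) nl RvT (SMap.evl cT tlT PT.vx ringF) [
  .mk 63 12 55 [0x1, 0x1e0fc00000000000000001fffffe0000000000000000000000000000000000000000000000000000000000]] = true := by
  decide +kernel

theorem t5 : runX PT.R (Wk.frw PT.R) nl RvT (SMap.evl cT tlT PT.vx ringF) [
  .mk 63 12 55 [0x1, 0xffffffffffffffffffe1f03ffffffffffffffffe000001ffffffffffffffffffffffffffffffffffffffffffffffffffffffffff]] = true := by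
  decide +kernel

/-- The tasks. -/
noncomputable def P : List (List Tk) := [
[
  .mk 63 11 54 [0x800000, 0x14f260033]],
[
  .mk 63 11 54 [0x800000, 0x2b0d9ffcc],
  .mk 63 12 55 [0x1e]],
[
  .mk 63 12 55 [0x60]],
[
  .mk 63 12 55 [0xffffb80]],
[
  .mk 63 12 55 [0x1, 0x1e0fc00000000000000001fffffe0000000000000000000000000000000000000000000000000000000000]],
[
  .mk 63 12 55 [0x1, 0xffffffffffffffffffe1f03ffffffffffffffffe000001ffffffffffffffffffffffffffffffffffffffffffffffffffffffffff]]]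

theorem run : RunAll (runX PT.R (Wk.frw PT.R) nl RvT (SMap.evl cT tlT PT.vx ringF)) P :=
  .cons t0 (.cons t1 (.cons t2 (.cons t3 (.cons t4 (.cons t5 (.nil))))))

end Pool.Agent.Lib.MP_5854e1_co.Cz.Sr526

namespace Pool.Agent.Lib.MP_5854e1_co.Cz.Sr588

open PB

theorem t0 : runX PT.R (Wk.frw PT.R) nl RvT (SMap.evl cT tlT PT.vx ringF) [
  .mk 86 9 0 [],
  .mk 86 10 1 []] = true := by
  decide +kernel

theorem t1 : runX PT.R (Wk.frw PT.R) nl RvT (SMap.evl cT tlT PT.vx ringF) [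
  .mk 86 11 2 [0x341]] = true := by
  decide +kernel

theorem t2 : runX PT.R (Wk.frw PT.R) nl RvT (SMap.evl cT tlT PT.vx ringF) [
  .mk 86 11 2 [0x1c00]] = true := by
  decide +kernel

theorem t3 : runX PT.R (Wk.frw PT.R) nl RvT (SMap.evl cT tlT PT.vx ringF) [
  .mk 86 11 2 [0x2000]] = true := by
  decide +kernel

theorem t4 : runX PT.R (Wk.frw PT.R) nl RvT (SMap.evl cT tlT PT.vx ringF) [
  .mk 86 11 2 [0xfffffc032]] = true := by
  decide +kernel

theorem t5 : runX PT.R (Wk.frw PT.R) nl RvT (SMap.evl cT tlT PT.vx ringF) [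
  .mk 86 11 2 [0x4, 0x1f000]] = true := by
  decide +kernel

theorem t6 : runX PT.R (Wk.frw PT.R) nl RvT (SMap.evl cT tlT PT.vx ringF) [
  .mk 86 11 2 [0x4, 0x7e0fff]] = true := by
  decide +kernel

/-- The tasks. -/
noncomputable def P : List (List Tk) := [
[
  .mk 86 9 0 [],
  .mk 86 10 1 []],
[
  .mk 86 11 2 [0x341]],
[
  .mk 86 11 2 [0x1c00]],
[
  .mk 86 11 2 [0x2000]],
[
  .mk 86 11 2 [0xfffffc032]],
[
  .mk 86 11 2 [0x4, 0x1f000]],
[
  .mk 86 11 2 [0x4, 0x7e0fff]]]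

theorem run : RunAll (runX PT.R (Wk.frw PT.R) nl RvT (SMap.evl cT tlT PT.vx ringF)) P :=
  .cons t0 (.cons t1 (.cons t2 (.cons t3 (.cons t4 (.cons t5 (.cons t6 (.nil)))))))

end Pool.Agent.Lib.MP_5854e1_co.Cz.Sr588
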