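import Pool.Agent.Lib.MP_5854e1_co.Cz.P
import Pool.Agent.Lib.MP_5854e1_co.Tkx
import Pool.Agent.Lib.MP_5854e1_co.RunAll

/-!
# Search, part 399
-/

set_option autoImplicit false
set_option deprecated.oldSectionVars true
set_option maxRecDepth 100000

namespace Pool.Agent.Lib.MP_5854e1_co.Cz.Sr399

open PB

theorem t0 : runX PT.R (Wk.frw PT.R) nl RvT (SMap.evl cT tlT PT.vx ringF) [
  .mk 41 12 47 [0x80000000, 0x2000, 0xfffffe06c],
  .mk 41 12 47 [0x4000000000000, 0x38000001]] = true := by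
  decide +kernel

theorem t1 : runX PT.R (Wk.frw PT.R) nl RvT (SMap.evl cT tlT PT.vx ringF) [
  .mk 41 12 47 [0x4000000000000, 0xfc7fffffe]] = true := by
  decide +kernel

theorem t2 : runX PT.R (Wk.frw PT.R) nl RvT (SMap.evl cT tlT PT.vx ringF) [
  .mk 41 13 48 [0x1b3]] = true := by
  decide +kernel

theorem t3 : runX PT.R (Wk.frw PT.R) nl RvT (SMap.evl cT tlT PT.vx ringF) [
  .mk 41 13 48 [0x19a400]] = true := by
  decide +kernel

theorem t4 : runX PT.R (Wk.frw PT.R) nl RvT (SMap.evl cT tlT PT.vx ringF) [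
  .mk 41 13 48 [0x340584c]] = true := by
  decide +kernel

theorem t5 : runX PT.R (Wk.frw PT.R) nl RvT (SMap.evl cT tlT PT.vx ringF) [
  .mk 41 13 48 [0x200, 0xffffffffc],
  .mk 41 13 48 [0x200, 0x1, 0xfffffffffffffffffffffffffffffffffffffffffffffffffffffffffffffffffffffffffffffffffffdffffffffffffffffffff]] = true := by
  decide +kernel

/-- The tasks. -/
noncomputable def P : List (List Tk) := [
[
  .mk 41 12 47 [0x80000000, 0x2000, 0xfffffe06c],
  .mk 41 12 47 [0x4000000000000, 0x38000001]],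
[
  .mk 41 12 47 [0x4000000000000, 0xfc7fffffe]],
[
  .mk 41 13 48 [0x1b3]],
[
  .mk 41 13 48 [0x19a400]],
[
  .mk 41 13 48 [0x340584c]],
[
  .mk 41 13 48 [0x200, 0xffffffffc],
  .mk 41 13 48 [0x200, 0x1, 0xfffffffffffffffffffffffffffffffffffffffffffffffffffffffffffffffffffffffffffffffffffdffffffffffffffffffff]]]

theorem run : RunAll (runX PT.R (Wk.frw PT.R) nl RvT (SMap.evl cT tlT PT.vx ringF)) P :=
  .cons t0 (.cons t1 (.cons t2 (.cons t3 (.cons t4 (.cons t5 (.nil))))))

end Pool.Agent.Lib.MP_5854e1_co.Cz.Sr399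

namespace Pool.Agent.Lib.MP_5854e1_co.Cz.Sr411

open PB

theorem t0 : runX PT.R (Wk.frw PT.R) nl RvT (SMap.evl cT tlT PT.vx ringF) [
  .mk 41 27 52 [0x2, 0x4000000000000000000000000000000000000000000000000000000000, 0x7]] = true := by
  decide +kernel

theorem t1 : runX PT.R (Wk.frw PT.R) nl RvT (SMap.evl cT tlT PT.vx ringF) [
  .mk 41 27 52 [0x2, 0x4000000000000000000000000000000000000000000000000000000000, 0xffffffffffffffffffffffffffffffffffffffffffffffffffffffffffffffffffffff8]] = true := by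
  decide +kernel

theorem t2 : runX PT.R (Wk.frw PT.R) nl RvT (SMap.evl cT tlT PT.vx ringF) [
  .mk 41 27 52 [0x80, 0xbfbff]] = true := by
  decide +kernel

theorem t3 : runX PT.R (Wk.frw PT.R) nl RvT (SMap.evl cT tlT PT.vx ringF) [
  .mk 41 27 52 [0x80, 0x400, 0xf8000000000000000000000000000000000000000000000000000000000fffe0000000001]] = true := by
  decide +kernel

theorem t4 : runX PT.R (Wk.frw PT.R) nl RvT (SMap.evl cT tlT PT.vx ringF) [
  .mk 41 27 52 [0x80, 0x400, 0xfffffffffffffffffffffffffffffff07fffffffffffffffffffffffffffffffffffffffffffffffffffffffff0001fffffffffe]] = true := by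
  decide +kernel

theorem t5 : runX PT.R (Wk.frw PT.R) nl RvT (SMap.evl cT tlT PT.vx ringF) [
  .mk 41 27 52 [0x80, 0x40000, 0x218053]] = true := by
  decide +kernel

theorem t6 : runX PT.R (Wk.frw PT.R) nl RvT (SMap.evl cT tlT PT.vx ringF) [
  .mk 41 27 52 [0x80, 0x40000, 0xfffde7fac]] = true := by
  decide +kernel

/-- The tasks. -/
noncomputable def P : List (List Tk) := [
[
  .mk 41 27 52 [0x2, 0x4000000000000000000000000000000000000000000000000000000000, 0x7]],
[
  .mk 41 27 52 [0x2, 0x4000000000000000000000000000000000000000000000000000000000, 0xffffffffffffffffffffffffffffffffffffffffffffffffffffffffffffffffffffff8]],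
[
  .mk 41 27 52 [0x80, 0xbfbff]],
[
  .mk 41 27 52 [0x80, 0x400, 0xf8000000000000000000000000000000000000000000000000000000000fffe0000000001]],
[
  .mk 41 27 52 [0x80, 0x400, 0xfffffffffffffffffffffffffffffff07fffffffffffffffffffffffffffffffffffffffffffffffffffffffff0001fffffffffe]],
[
  .mk 41 27 52 [0x80, 0x40000, 0x218053]],
[
  .mk 41 27 52 [0x80, 0x40000, 0xfffde7fac]]]

theorem run : RunAll (runX PT.R (Wk.frw PT.R) nl RvT (SMap.evl cT tlT PT.vx ringF)) P :=
  .cons t0 (.cons t1 (.cons t2 (.cons t3 (.cons t4 (.cons t5 (.cons t6 (.nil)))))))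

end Pool.Agent.Lib.MP_5854e1_co.Cz.Sr411
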