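import Pool.Agent.Lib.MP_5854e1_co.Cz.P
import Pool.Agent.Lib.MP_5854e1_co.Tkx
import Pool.Agent.Lib.MP_5854e1_co.RunAll

/-!
# Search, part 413
-/

set_option autoImplicit false
set_option deprecated.oldSectionVars true
set_option maxRecDepth 100000

namespace Pool.Agent.Lib.MP_5854e1_co.Cz.Sr413

open PB

theorem t0 : runX PT.R (Wk.frw PT.R) nl RvT (SMap.evl cT tlT PT.vx ringF) [
  .mk 41 27 52 [0x4000, 0xfffffe040]] = true := by
  decide +kernel

theorem t1 : runX PT.R (Wk.frw PT.R) nl RvT (SMap.evl cT tlT PT.vx ringF) [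
  .mk 41 27 52 [0x4000, 0x400, 0x3e0000040000]] = true := by
  decide +kernel

theorem t2 : runX PT.R (Wk.frw PT.R) nl RvT (SMap.evl cT tlT PT.vx ringF) [
  .mk 41 27 52 [0x4000, 0x400, 0x3c1fffffbffff],
  .mk 41 27 52 [0x8000000, 0xd91]] = true := by
  decide +kernel

theorem t3 : runX PT.R (Wk.frw PT.R) nl RvT (SMap.evl cT tlT PT.vx ringF) [
  .mk 41 27 52 [0x8000000, 0xffffff06c],
  .mk 41 27 52 [0x8000000, 0x2, 0xfffffffefffffffffffffffffffffffffffffffffffffffffffffffffffffffffffffff]] = true := by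
  decide +kernel

theorem t4 : runX PT.R (Wk.frw PT.R) nl RvT (SMap.evl cT tlT PT.vx ringF) [
  .mk 41 27 52 [0x8000000, 0x2, 0x1000000000000000000000000000000000000000000000000000000000000000, 0x7]] = true := by
  decide +kernel

theorem t5 : runX PT.R (Wk.frw PT.R) nl RvT (SMap.evl cT tlT PT.vx ringF) [
  .mk 41 27 52 [0x8000000, 0x2, 0x1000000000000000000000000000000000000000000000000000000000000000, 0xffffffffffffffffffffffffffffffffffffffffffffffffffffffffffffffffffffff8]] = true := by
  decide +kernel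

/-- The tasks. -/
noncomputable def P : List (List Tk) := [
[
  .mk 41 27 52 [0x4000, 0xfffffe040]],
[
  .mk 41 27 52 [0x4000, 0x400, 0x3e0000040000]],
[
  .mk 41 27 52 [0x4000, 0x400, 0x3c1fffffbffff],
  .mk 41 27 52 [0x8000000, 0xd91]],
[
  .mk 41 27 52 [0x8000000, 0xffffff06c],
  .mk 41 27 52 [0x8000000, 0x2, 0xfffffffefffffffffffffffffffffffffffffffffffffffffffffffffffffffffffffff]],
[
  .mk 41 27 52 [0x8000000, 0x2, 0x1000000000000000000000000000000000000000000000000000000000000000, 0x7]],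
[
  .mk 41 27 52 [0x8000000, 0x2, 0x1000000000000000000000000000000000000000000000000000000000000000, 0xffffffffffffffffffffffffffffffffffffffffffffffffffffffffffffffffffffff8]]]

theorem run : RunAll (runX PT.R (Wk.frw PT.R) nl RvT (SMap.evl cT tlT PT.vx ringF)) P :=
  .cons t0 (.cons t1 (.cons t2 (.cons t3 (.cons t4 (.cons t5 (.nil))))))

end Pool.Agent.Lib.MP_5854e1_co.Cz.Sr413

namespace Pool.Agent.Lib.MP_5854e1_co.Cz.Sr487

open PB

theorem t0 : runX PT.R (Wk.frw PT.R) nl RvT (SMap.evl cT tlT PT.vx ringF) [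
  .mk 48 21 50 [0x40000, 0x6218000]] = true := by
  decide +kernel

theorem t1 : runX PT.R (Wk.frw PT.R) nl RvT (SMap.evl cT tlT PT.vx ringF) [
  .mk 48 21 50 [0x40000, 0xff9de7fac]] = true := by
  decide +kernel

theorem t2 : runX PT.R (Wk.frw PT.R) nl RvT (SMap.evl cT tlT PT.vx ringF) [
  .mk 48 21 50 [0x40000, 0x1, 0xffffffffffffffffffffffffffffffffffffffffffffffffffffffffffffffffdfffffffffffffffffffffffffffffffffffffff]] = true := by
  decide +kernel

theorem t3 : runX PT.R (Wk.frw PT.R) nl RvT (SMap.evl cT tlT PT.vx ringF) [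
  .mk 48 21 50 [0x40000, 0x1, 0x2000000000000000000000000000000000000000, 0xe0fc000000000000000000000000000000000000000000000000000000000000000000000000000000000]] = true := by
  decide +kernel

theorem t4 : runX PT.R (Wk.frw PT.R) nl RvT (SMap.evl cT tlT PT.vx ringF) [
  .mk 48 21 50 [0x40000, 0x1, 0x2000000000000000000000000000000000000000, 0xfffffffffffffffffff1f03fffffffffffffffffffffffffffffffffffffffffffffffffffffffffffffffffffffffffffffffff]] = true := by
  decide +kernel

theorem t5 : runX PT.R (Wk.frw PT.R) nl RvT (SMap.evl cT tlT PT.vx ringF) [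
  .mk 48 22 51 [0x3dc07]] = true := by
  decide +kernel

/-- The tasks. -/
noncomputable def P : List (List Tk) := [
[
  .mk 48 21 50 [0x40000, 0x6218000]],
[
  .mk 48 21 50 [0x40000, 0xff9de7fac]],
[
  .mk 48 21 50 [0x40000, 0x1, 0xffffffffffffffffffffffffffffffffffffffffffffffffffffffffffffffffdfffffffffffffffffffffffffffffffffffffff]],
[
  .mk 48 21 50 [0x40000, 0x1, 0x2000000000000000000000000000000000000000, 0xe0fc000000000000000000000000000000000000000000000000000000000000000000000000000000000]],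
[
  .mk 48 21 50 [0x40000, 0x1, 0x2000000000000000000000000000000000000000, 0xfffffffffffffffffff1f03fffffffffffffffffffffffffffffffffffffffffffffffffffffffffffffffffffffffffffffffff]],
[
  .mk 48 22 51 [0x3dc07]]]

theorem run : RunAll (runX PT.R (Wk.frw PT.R) nl RvT (SMap.evl cT tlT PT.vx ringF)) P :=
  .cons t0 (.cons t1 (.cons t2 (.cons t3 (.cons t4 (.cons t5 (.nil))))))

end Pool.Agent.Lib.MP_5854e1_co.Cz.Sr487
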