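import Pool.Agent.Lib.MP_5854e1_co.Cz.P
import Pool.Agent.Lib.MP_5854e1_co.Tkx
import Pool.Agent.Lib.MP_5854e1_co.RunAll

/-!
# Search, part 425
-/

set_option autoImplicit false
set_option deprecated.oldSectionVars true
set_option maxRecDepth 100000

namespace Pool.Agent.Lib.MP_5854e1_co.Cz.Sr425

open PB

theorem t0 : runX PT.R (Wk.frw PT.R) nl RvT (SMap.evl cT tlT PT.vx ringF) [
  .mk 42 19 61 [0x600]] = true := by
  decide +kernel

theorem t1 : runX PT.R (Wk.frw PT.R) nl RvT (SMap.evl cT tlT PT.vx ringF) [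
  .mk 42 19 61 [0x7ff81e]] = true := by
  decide +kernel

theorem t2 : runX PT.R (Wk.frw PT.R) nl RvT (SMap.evl cT tlT PT.vx ringF) [
  .mk 42 20 62 []] = true := by
  decide +kernel

theorem t3 : runX PT.R (Wk.frw PT.R) nl RvT (SMap.evl cT tlT PT.vx ringF) [
  .mk 42 21 63 [0x72]] = true := by
  decide +kernel

theorem t4 : runX PT.R (Wk.frw PT.R) nl RvT (SMap.evl cT tlT PT.vx ringF) [
  .mk 42 21 63 [0x2500]] = true := by
  decide +kernel

theorem t5 : runX PT.R (Wk.frw PT.R) nl RvT (SMap.evl cT tlT PT.vx ringF) [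
  .mk 42 21 63 [0x242c000]] = true := by
  decide +kernel

/-- The tasks. -/
noncomputable def P : List (List Tk) := [
[
  .mk 42 19 61 [0x600]],
[
  .mk 42 19 61 [0x7ff81e]],
[
  .mk 42 20 62 []],
[
  .mk 42 21 63 [0x72]],
[
  .mk 42 21 63 [0x2500]],
[
  .mk 42 21 63 [0x242c000]]]

theorem run : RunAll (runX PT.R (Wk.frw PT.R) nl RvT (SMap.evl cT tlT PT.vx ringF)) P :=
  .cons t0 (.cons t1 (.cons t2 (.cons t3 (.cons t4 (.cons t5 (.nil))))))

end Pool.Agent.Lib.MP_5854e1_co.Cz.Sr425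

namespace Pool.Agent.Lib.MP_5854e1_co.Cz.Sr437

open PB

theorem t0 : runX PT.R (Wk.frw PT.R) nl RvT (SMap.evl cT tlT PT.vx ringF) [
  .mk 42 26 68 [0x7f85ff]] = true := by
  decide +kernel

theorem t1 : runX PT.R (Wk.frw PT.R) nl RvT (SMap.evl cT tlT PT.vx ringF) [
  .mk 42 26 68 [0x200, 0x1c000002000000000000000000000000000000020200100]] = true := by
  decide +kernel

theorem t2 : runX PT.R (Wk.frw PT.R) nl RvT (SMap.evl cT tlT PT.vx ringF) [
  .mk 42 26 68 [0x200, 0xfffffffffffffffffffffffffffffffffffffffffffffffffffffffffe3fffffdfffffffffffffffffffffffffffffffdfdffeff],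
  .mk 42 26 68 [0x800, 0x113]] = true := by
  decide +kernel

theorem t3 : runX PT.R (Wk.frw PT.R) nl RvT (SMap.evl cT tlT PT.vx ringF) [
  .mk 42 26 68 [0x800, 0x200]] = true := by
  decide +kernel

theorem t4 : runX PT.R (Wk.frw PT.R) nl RvT (SMap.evl cT tlT PT.vx ringF) [
  .mk 42 26 68 [0x800, 0xfffffb86c]] = true := by
  decide +kernel

theorem t5 : runX PT.R (Wk.frw PT.R) nl RvT (SMap.evl cT tlT PT.vx ringF) [
  .mk 42 26 68 [0x800, 0x80, 0xffbff]] = true := by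
  decide +kernel

/-- The tasks. -/
noncomputable def P : List (List Tk) := [
[
  .mk 42 26 68 [0x7f85ff]],
[
  .mk 42 26 68 [0x200, 0x1c000002000000000000000000000000000000020200100]],
[
  .mk 42 26 68 [0x200, 0xfffffffffffffffffffffffffffffffffffffffffffffffffffffffffe3fffffdfffffffffffffffffffffffffffffffdfdffeff],
  .mk 42 26 68 [0x800, 0x113]],
[
  .mk 42 26 68 [0x800, 0x200]],
[
  .mk 42 26 68 [0x800, 0xfffffb86c]],
[
  .mk 42 26 68 [0x800, 0x80, 0xffbff]]]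

theorem run : RunAll (runX PT.R (Wk.frw PT.R) nl RvT (SMap.evl cT tlT PT.vx ringF)) P :=
  .cons t0 (.cons t1 (.cons t2 (.cons t3 (.cons t4 (.cons t5 (.nil))))))

end Pool.Agent.Lib.MP_5854e1_co.Cz.Sr437

namespace Pool.Agent.Lib.MP_5854e1_co.Cz.Sr509

open PB

theorem t0 : runX PT.R (Wk.frw PT.R) nl RvT (SMap.evl cT tlT PT.vx ringF) [
  .mk 63 3 27 [0x400000, 0x7e88ce]] = true := by
  decide +kernel

theorem t1 : runX PT.R (Wk.frw PT.R) nl RvT (SMap.evl cT tlT PT.vx ringF) [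
  .mk 63 3 27 [0x400000, 0x200, 0x13c0080820000000000000006e001]] = true := by
  decide +kernel

theorem t2 : runX PT.R (Wk.frw PT.R) nl RvT (SMap.evl cT tlT PT.vx ringF) [
  .mk 63 3 27 [0x400000, 0x200, 0xfffffffffffffffffffffffffffffffffffffffffffffffffffffffffffffffffffffffffffec3ff7f7dfffffffffffffff91ffe],
  .mk 63 3 27 [0x400000, 0x2000, 0x7]] = true := by
  decide +kernel

theorem t3 : runX PT.R (Wk.frw PT.R) nl RvT (SMap.evl cT tlT PT.vx ringF) [
  .mk 63 3 27 [0x400000, 0x2000, 0x38]] = true := by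
  decide +kernel

theorem t4 : runX PT.R (Wk.frw PT.R) nl RvT (SMap.evl cT tlT PT.vx ringF) [
  .mk 63 3 27 [0x400000, 0x2000, 0xfffffffc0]] = true := by
  decide +kernel

theorem t5 : runX PT.R (Wk.frw PT.R) nl RvT (SMap.evl cT tlT PT.vx ringF) [
  .mk 63 3 27 [0x400000, 0x4000, 0xf7]] = true := by
  decide +kernel

/-- The tasks. -/
noncomputable def P : List (List Tk) := [
[
  .mk 63 3 27 [0x400000, 0x7e88ce]],
[
  .mk 63 3 27 [0x400000, 0x200, 0x13c0080820000000000000006e001]],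
[
  .mk 63 3 27 [0x400000, 0x200, 0xfffffffffffffffffffffffffffffffffffffffffffffffffffffffffffffffffffffffffffec3ff7f7dfffffffffffffff91ffe],
  .mk 63 3 27 [0x400000, 0x2000, 0x7]],
[
  .mk 63 3 27 [0x400000, 0x2000, 0x38]],
[
  .mk 63 3 27 [0x400000, 0x2000, 0xfffffffc0]],
[
  .mk 63 3 27 [0x400000, 0x4000, 0xf7]]]

theorem run : RunAll (runX PT.R (Wk.frw PT.R) nl RvT (SMap.evl cT tlT PT.vx ringF)) P :=
  .cons t0 (.cons t1 (.cons t2 (.cons t3 (.cons t4 (.cons t5 (.nil))))))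

end Pool.Agent.Lib.MP_5854e1_co.Cz.Sr509
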