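import Pool.Agent.Lib.MP_5854e1_co.Cz.P
import Pool.Agent.Lib.MP_5854e1_co.Tkx
import Pool.Agent.Lib.MP_5854e1_co.RunAll

/-!
# Search, part 431
-/

set_option autoImplicit false
set_option deprecated.oldSectionVars true
set_option maxRecDepth 100000

namespace Pool.Agent.Lib.MP_5854e1_co.Cz.Sr431

open PB

theorem t0 : runX PT.R (Wk.frw PT.R) nl RvT (SMap.evl cT tlT PT.vx ringF) [
  .mk 42 21 63 [0x200, 0x200, 0x4, 0x1000, 0x1, 0x800000000000000000000000000000000000000000000000000000000000000000]] = true := by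
  decide +kernel

theorem t1 : runX PT.R (Wk.frw PT.R) nl RvT (SMap.evl cT tlT PT.vx ringF) [
  .mk 42 21 63 [0x200, 0x200, 0x4, 0x1000, 0x1, 0xffffffffffffffffffffffffffffffffffffff7fffffffffffffffffffffffffffffffffffffffffffffffffffffffffffffffff],
  .mk 42 21 63 [0x200, 0x200, 0x4, 0x40000, 0x200000000000000000000]] = true := by
  decide +kernel

theorem t2 : runX PT.R (Wk.frw PT.R) nl RvT (SMap.evl cT tlT PT.vx ringF) [
  .mk 42 21 63 [0x200, 0x200, 0x4, 0x40000, 0xfffffffffffffffffffffffffffffffffffffffffffffffffffffffffffffffffffffffffffffffffffdffffffffffffffffffff]] = true := by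
  decide +kernel

theorem t3 : runX PT.R (Wk.frw PT.R) nl RvT (SMap.evl cT tlT PT.vx ringF) [
  .mk 42 21 63 [0x200, 0x400, 0x7fc0000]] = true := by
  decide +kernel

theorem t4 : runX PT.R (Wk.frw PT.R) nl RvT (SMap.evl cT tlT PT.vx ringF) [
  .mk 42 21 63 [0x200, 0x400, 0x3ffffe803ffff]] = true := by
  decide +kernel

theorem t5 : runX PT.R (Wk.frw PT.R) nl RvT (SMap.evl cT tlT PT.vx ringF) [
  .mk 42 21 63 [0x200, 0x400, 0x10000000, 0x28b]] = true := by
  decide +kernel

/-- The tasks. -/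
noncomputable def P : List (List Tk) := [
[
  .mk 42 21 63 [0x200, 0x200, 0x4, 0x1000, 0x1, 0x800000000000000000000000000000000000000000000000000000000000000000]],
[
  .mk 42 21 63 [0x200, 0x200, 0x4, 0x1000, 0x1, 0xffffffffffffffffffffffffffffffffffffff7fffffffffffffffffffffffffffffffffffffffffffffffffffffffffffffffff],
  .mk 42 21 63 [0x200, 0x200, 0x4, 0x40000, 0x200000000000000000000]],
[
  .mk 42 21 63 [0x200, 0x200, 0x4, 0x40000, 0xfffffffffffffffffffffffffffffffffffffffffffffffffffffffffffffffffffffffffffffffffffdffffffffffffffffffff]],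
[
  .mk 42 21 63 [0x200, 0x400, 0x7fc0000]],
[
  .mk 42 21 63 [0x200, 0x400, 0x3ffffe803ffff]],
[
  .mk 42 21 63 [0x200, 0x400, 0x10000000, 0x28b]]]

theorem run : RunAll (runX PT.R (Wk.frw PT.R) nl RvT (SMap.evl cT tlT PT.vx ringF)) P :=
  .cons t0 (.cons t1 (.cons t2 (.cons t3 (.cons t4 (.cons t5 (.nil))))))

end Pool.Agent.Lib.MP_5854e1_co.Cz.Sr431

namespace Pool.Agent.Lib.MP_5854e1_co.Cz.Sr593

open PB

theorem t0 : runX PT.R (Wk.frw PT.R) nl RvT (SMap.evl cT tlT PT.vx ringF) [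
  .mk 87 30 55 [0xfff8000]] = true := by
  decide +kernel

theorem t1 : runX PT.R (Wk.frw PT.R) nl RvT (SMap.evl cT tlT PT.vx ringF) [
  .mk 87 30 55 [0x1, 0x3403f07e000001fffffa0000000000000000000000000000000000000000000000000000000000]] = true := by
  decide +kernel

theorem t2 : runX PT.R (Wk.frw PT.R) nl RvT (SMap.evl cT tlT PT.vx ringF) [
  .mk 87 30 55 [0x1, 0xffffffffffffffffffffffffffcbfc0f81fffffe000005ffffffffffffffffffffffffffffffffffffffffffffffffffffffffff]] = true := by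
  decide +kernel

theorem t3 : runX PT.R (Wk.frw PT.R) nl RvT (SMap.evl cT tlT PT.vx ringF) [
  .mk 87 30 55 [0x400, 0x3bb]] = true := by
  decide +kernel

theorem t4 : runX PT.R (Wk.frw PT.R) nl RvT (SMap.evl cT tlT PT.vx ringF) [
  .mk 87 30 55 [0x400, 0x7fec44]] = true := by
  decide +kernel

theorem t5 : runX PT.R (Wk.frw PT.R) nl RvT (SMap.evl cT tlT PT.vx ringF) [
  .mk 87 30 55 [0x400, 0x1000, 0x3000000001]] = true := by
  decide +kernel

/-- The tasks. -/
noncomputable def P : List (List Tk) := [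
[
  .mk 87 30 55 [0xfff8000]],
[
  .mk 87 30 55 [0x1, 0x3403f07e000001fffffa0000000000000000000000000000000000000000000000000000000000]],
[
  .mk 87 30 55 [0x1, 0xffffffffffffffffffffffffffcbfc0f81fffffe000005ffffffffffffffffffffffffffffffffffffffffffffffffffffffffff]],
[
  .mk 87 30 55 [0x400, 0x3bb]],
[
  .mk 87 30 55 [0x400, 0x7fec44]],
[
  .mk 87 30 55 [0x400, 0x1000, 0x3000000001]]]

theorem run : RunAll (runX PT.R (Wk.frw PT.R) nl RvT (SMap.evl cT tlT PT.vx ringF)) P :=
  .cons t0 (.cons t1 (.cons t2 (.cons t3 (.cons t4 (.cons t5 (.nil))))))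

end Pool.Agent.Lib.MP_5854e1_co.Cz.Sr593
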