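import Pool.Agent.Lib.MP_5854e1_co.Cz.P
import Pool.Agent.Lib.MP_5854e1_co.Tkx
import Pool.Agent.Lib.MP_5854e1_co.RunAll

/-!
# Search, part 451
-/

set_option autoImplicit false
set_option deprecated.oldSectionVars true
set_option maxRecDepth 100000

namespace Pool.Agent.Lib.MP_5854e1_co.Cz.Sr451

open PB

theorem t0 : runX PT.R (Wk.frw PT.R) nl RvT (SMap.evl cT tlT PT.vx ringF) [
  .mk 43 21 7 [0xf000000000000000000000000000000000000000000000000000000000000000]] = true := by
  decide +kernel

theorem t1 : runX PT.R (Wk.frw PT.R) nl RvT (SMap.evl cT tlT PT.vx ringF) [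
  .mk 43 21 7 [0xfffffff03ff7fffffffffffffffffffc4ffefc6ffffffffffffffffffffffffffffffff]] = true := by
  decide +kernel

theorem t2 : runX PT.R (Wk.frw PT.R) nl RvT (SMap.evl cT tlT PT.vx ringF) [
  .mk 43 22 11 [0x8f]] = true := by
  decide +kernel

theorem t3 : runX PT.R (Wk.frw PT.R) nl RvT (SMap.evl cT tlT PT.vx ringF) [
  .mk 43 22 11 [0xe00]] = true := by
  decide +kernel

theorem t4 : runX PT.R (Wk.frw PT.R) nl RvT (SMap.evl cT tlT PT.vx ringF) [
  .mk 43 22 11 [0x17000]] = true := by
  decide +kernel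

theorem t5 : runX PT.R (Wk.frw PT.R) nl RvT (SMap.evl cT tlT PT.vx ringF) [
  .mk 43 22 11 [0x7e8170],
  .mk 43 23 12 [0x1a7b3]] = true := by
  decide +kernel

/-- The tasks. -/
noncomputable def P : List (List Tk) := [
[
  .mk 43 21 7 [0xf000000000000000000000000000000000000000000000000000000000000000]],
[
  .mk 43 21 7 [0xfffffff03ff7fffffffffffffffffffc4ffefc6ffffffffffffffffffffffffffffffff]],
[
  .mk 43 22 11 [0x8f]],
[
  .mk 43 22 11 [0xe00]],
[
  .mk 43 22 11 [0x17000]],
[
  .mk 43 22 11 [0x7e8170],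
  .mk 43 23 12 [0x1a7b3]]]

theorem run : RunAll (runX PT.R (Wk.frw PT.R) nl RvT (SMap.evl cT tlT PT.vx ringF)) P :=
  .cons t0 (.cons t1 (.cons t2 (.cons t3 (.cons t4 (.cons t5 (.nil))))))

end Pool.Agent.Lib.MP_5854e1_co.Cz.Sr451

namespace Pool.Agent.Lib.MP_5854e1_co.Cz.Sr454

open PB

theorem t0 : runX PT.R (Wk.frw PT.R) nl RvT (SMap.evl cT tlT PT.vx ringF) [
  .mk 43 26 18 [0x800, 0x793]] = true := by
  decide +kernel

theorem t1 : runX PT.R (Wk.frw PT.R) nl RvT (SMap.evl cT tlT PT.vx ringF) [
  .mk 43 26 18 [0x800, 0xffffff86c]] = true := by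
  decide +kernel

theorem t2 : runX PT.R (Wk.frw PT.R) nl RvT (SMap.evl cT tlT PT.vx ringF) [
  .mk 44 0 0 [0xf403f0220000016f7cfa0000000000000000000000000000000000000000000000000000000000]] = true := by
  decide +kernel

theorem t3 : runX PT.R (Wk.frw PT.R) nl RvT (SMap.evl cT tlT PT.vx ringF) [
  .mk 44 0 0 [0x3401d00c81e800000000001c00000000000000000000000000000000000000000000000000000000000000000000000000000000]] = true := by
  decide +kernel

theorem t4 : runX PT.R (Wk.frw PT.R) nl RvT (SMap.evl cT tlT PT.vx ringF) [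
  .mk 44 0 0 [0xcbfe2ff03e17ffffffffffe2ff0bfc0fddfffffe908305ffffffffffffffffffffffffffffffffffffffffffffffffffffffffff],
  .mk 44 0 0 [0x100000000000000000000000000000000000000000000000000000000000000000000000000000000, 0x38200000000000000000000]] = true := by
  decide +kernel

theorem t5 : runX PT.R (Wk.frw PT.R) nl RvT (SMap.evl cT tlT PT.vx ringF) [
  .mk 44 0 0 [0x100000000000000000000000000000000000000000000000000000000000000000000000000000000, 0xfffffffffffffffffffffffffffffffffffffffffffffffffffffffffffffffffffffffffffffffffc7dffffffffffffffffffff]] = true := by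
  decide +kernel

/-- The tasks. -/
noncomputable def P : List (List Tk) := [
[
  .mk 43 26 18 [0x800, 0x793]],
[
  .mk 43 26 18 [0x800, 0xffffff86c]],
[
  .mk 44 0 0 [0xf403f0220000016f7cfa0000000000000000000000000000000000000000000000000000000000]],
[
  .mk 44 0 0 [0x3401d00c81e800000000001c00000000000000000000000000000000000000000000000000000000000000000000000000000000]],
[
  .mk 44 0 0 [0xcbfe2ff03e17ffffffffffe2ff0bfc0fddfffffe908305ffffffffffffffffffffffffffffffffffffffffffffffffffffffffff],
  .mk 44 0 0 [0x100000000000000000000000000000000000000000000000000000000000000000000000000000000, 0x38200000000000000000000]],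
[
  .mk 44 0 0 [0x100000000000000000000000000000000000000000000000000000000000000000000000000000000, 0xfffffffffffffffffffffffffffffffffffffffffffffffffffffffffffffffffffffffffffffffffc7dffffffffffffffffffff]]]

theorem run : RunAll (runX PT.R (Wk.frw PT.R) nl RvT (SMap.evl cT tlT PT.vx ringF)) P :=
  .cons t0 (.cons t1 (.cons t2 (.cons t3 (.cons t4 (.cons t5 (.nil))))))

end Pool.Agent.Lib.MP_5854e1_co.Cz.Sr454
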