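import Pool.Agent.Lib.MP_5854e1_co.Cz.P
import Pool.Agent.Lib.MP_5854e1_co.Tkx
import Pool.Agent.Lib.MP_5854e1_co.RunAll

/-!
# Search, part 458
-/

set_option autoImplicit false
set_option deprecated.oldSectionVars true
set_option maxRecDepth 100000

namespace Pool.Agent.Lib.MP_5854e1_co.Cz.Sr458

open PB

theorem t0 : runX PT.R (Wk.frw PT.R) nl RvT (SMap.evl cT tlT PT.vx ringF) [
  .mk 44 3 63 [0x200, 0x18013]] = true := by
  decide +kernel

theorem t1 : runX PT.R (Wk.frw PT.R) nl RvT (SMap.evl cT tlT PT.vx ringF) [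
  .mk 44 3 63 [0x200, 0xffffe7fec]] = true := by
  decide +kernel

theorem t2 : runX PT.R (Wk.frw PT.R) nl RvT (SMap.evl cT tlT PT.vx ringF) [
  .mk 44 3 63 [0x8000, 0xfe000200000]] = true := by
  decide +kernel

theorem t3 : runX PT.R (Wk.frw PT.R) nl RvT (SMap.evl cT tlT PT.vx ringF) [
  .mk 44 3 63 [0x8000, 0x7ff01fffdfffff],
  .mk 44 4 64 [],
  .mk 44 5 65 []] = true := by
  decide +kernel

theorem t4 : runX PT.R (Wk.frw PT.R) nl RvT (SMap.evl cT tlT PT.vx ringF) [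
  .mk 44 6 66 [],
  .mk 44 7 67 []] = true := by
  decide +kernel

/-- The tasks. -/
noncomputable def P : List (List Tk) := [
[
  .mk 44 3 63 [0x200, 0x18013]],
[
  .mk 44 3 63 [0x200, 0xffffe7fec]],
[
  .mk 44 3 63 [0x8000, 0xfe000200000]],
[
  .mk 44 3 63 [0x8000, 0x7ff01fffdfffff],
  .mk 44 4 64 [],
  .mk 44 5 65 []],
[
  .mk 44 6 66 [],
  .mk 44 7 67 []]]

theorem run : RunAll (runX PT.R (Wk.frw PT.R) nl RvT (SMap.evl cT tlT PT.vx ringF)) P :=
  .cons t0 (.cons t1 (.cons t2 (.cons t3 (.cons t4 (.nil)))))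

end Pool.Agent.Lib.MP_5854e1_co.Cz.Sr458

namespace Pool.Agent.Lib.MP_5854e1_co.Cz.Sr554

open PB

theorem t0 : runX PT.R (Wk.frw PT.R) nl RvT (SMap.evl cT tlT PT.vx ringF) [
  .mk 68 13 21 [0x400, 0x10000000, 0x200, 0x100000000, 0xffffffdff]] = true := by
  decide +kernel

theorem t1 : runX PT.R (Wk.frw PT.R) nl RvT (SMap.evl cT tlT PT.vx ringF) [
  .mk 68 13 21 [0x400, 0x10000000, 0x200, 0x100000000, 0x200, 0xfffffffff]] = true := by
  decide +kernel

theorem t2 : runX PT.R (Wk.frw PT.R) nl RvT (SMap.evl cT tlT PT.vx ringF) [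
  .mk 68 13 21 [0x400, 0x10000000, 0x800, 0x13]] = true := by
  decide +kernel

theorem t3 : runX PT.R (Wk.frw PT.R) nl RvT (SMap.evl cT tlT PT.vx ringF) [
  .mk 68 13 21 [0x400, 0x10000000, 0x800, 0xfffffffec]] = true := by
  decide +kernel

theorem t4 : runX PT.R (Wk.frw PT.R) nl RvT (SMap.evl cT tlT PT.vx ringF) [
  .mk 68 13 21 [0x400, 0x10000000, 0x1000, 0xffffffffffffffffffffffffffffffffffffffffffffffffffffffffffffffffffffffe]] = true := by
  decide +kernel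

/-- The tasks. -/
noncomputable def P : List (List Tk) := [
[
  .mk 68 13 21 [0x400, 0x10000000, 0x200, 0x100000000, 0xffffffdff]],
[
  .mk 68 13 21 [0x400, 0x10000000, 0x200, 0x100000000, 0x200, 0xfffffffff]],
[
  .mk 68 13 21 [0x400, 0x10000000, 0x800, 0x13]],
[
  .mk 68 13 21 [0x400, 0x10000000, 0x800, 0xfffffffec]],
[
  .mk 68 13 21 [0x400, 0x10000000, 0x1000, 0xffffffffffffffffffffffffffffffffffffffffffffffffffffffffffffffffffffffe]]]

theorem run : RunAll (runX PT.R (Wk.frw PT.R) nl RvT (SMap.evl cT tlT PT.vx ringF)) P :=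
  .cons t0 (.cons t1 (.cons t2 (.cons t3 (.cons t4 (.nil)))))

end Pool.Agent.Lib.MP_5854e1_co.Cz.Sr554
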