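import Pool.Agent.Lib.MP_5854e1_co.Cz.P
import Pool.Agent.Lib.MP_5854e1_co.Tkx
import Pool.Agent.Lib.MP_5854e1_co.RunAll

/-!
# Search, part 469
-/

set_option autoImplicit false
set_option deprecated.oldSectionVars true
set_option maxRecDepth 100000

namespace Pool.Agent.Lib.MP_5854e1_co.Cz.Sr469

open PB

theorem t0 : runX PT.R (Wk.frw PT.R) nl RvT (SMap.evl cT tlT PT.vx ringF) [
  .mk 45 26 68 [],
  .mk 45 27 69 [],
  .mk 45 28 70 [],
  .mk 45 29 71 [],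
  .mk 45 30 72 [],
  .mk 45 31 73 [],
  .mk 45 32 74 [],
  .mk 45 33 75 [],
  .mk 45 34 76 [],
  .mk 45 35 77 [],
  .mk 45 36 78 [],
  .mk 45 37 79 [],
  .mk 45 38 80 [],
  .mk 45 39 81 [],
  .mk 45 40 82 [],
  .mk 45 41 92 [],
  .mk 45 42 93 [],
  .mk 45 43 94 [],
  .mk 45 44 95 [],
  .mk 45 45 96 [],
  .mk 45 46 97 [],
  .mk 45 47 98 [],
  .mk 45 48 99 [],
  .mk 45 49 100 []] = true := by
  decide +kernel

theorem t1 : runX PT.R (Wk.frw PT.R) nl RvT (SMap.evl cT tlT PT.vx ringF) [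
  .mk 46 0 0 [],
  .mk 46 1 20 [],
  .mk 46 2 24 [],
  .mk 46 3 25 [],
  .mk 46 4 26 [],
  .mk 46 5 27 [],
  .mk 46 6 28 [],
  .mk 46 7 30 [],
  .mk 46 8 32 [],
  .mk 46 9 50 []] = true := by
  decide +kernel

theorem t2 : runX PT.R (Wk.frw PT.R) nl RvT (SMap.evl cT tlT PT.vx ringF) [
  .mk 46 10 51 [],
  .mk 46 11 52 [0x1]] = true := by
  decide +kernel

theorem t3 : runX PT.R (Wk.frw PT.R) nl RvT (SMap.evl cT tlT PT.vx ringF) [
  .mk 46 11 52 [0x1d2]] = true := by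
  decide +kernel

theorem t4 : runX PT.R (Wk.frw PT.R) nl RvT (SMap.evl cT tlT PT.vx ringF) [
  .mk 46 11 52 [0xc00]] = true := by
  decide +kernel

theorem t5 : runX PT.R (Wk.frw PT.R) nl RvT (SMap.evl cT tlT PT.vx ringF) [
  .mk 46 11 52 [0x4000]] = true := by
  decide +kernel

/-- The tasks. -/
noncomputable def P : List (List Tk) := [
[
  .mk 45 26 68 [],
  .mk 45 27 69 [],
  .mk 45 28 70 [],
  .mk 45 29 71 [],
  .mk 45 30 72 [],
  .mk 45 31 73 [],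
  .mk 45 32 74 [],
  .mk 45 33 75 [],
  .mk 45 34 76 [],
  .mk 45 35 77 [],
  .mk 45 36 78 [],
  .mk 45 37 79 [],
  .mk 45 38 80 [],
  .mk 45 39 81 [],
  .mk 45 40 82 [],
  .mk 45 41 92 [],
  .mk 45 42 93 [],
  .mk 45 43 94 [],
  .mk 45 44 95 [],
  .mk 45 45 96 [],
  .mk 45 46 97 [],
  .mk 45 47 98 [],
  .mk 45 48 99 [],
  .mk 45 49 100 []],
[
  .mk 46 0 0 [],
  .mk 46 1 20 [],
  .mk 46 2 24 [],
  .mk 46 3 25 [],
  .mk 46 4 26 [],
  .mk 46 5 27 [],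
  .mk 46 6 28 [],
  .mk 46 7 30 [],
  .mk 46 8 32 [],
  .mk 46 9 50 []],
[
  .mk 46 10 51 [],
  .mk 46 11 52 [0x1]],
[
  .mk 46 11 52 [0x1d2]],
[
  .mk 46 11 52 [0xc00]],
[
  .mk 46 11 52 [0x4000]]]

theorem run : RunAll (runX PT.R (Wk.frw PT.R) nl RvT (SMap.evl cT tlT PT.vx ringF)) P :=
  .cons t0 (.cons t1 (.cons t2 (.cons t3 (.cons t4 (.cons t5 (.nil))))))

end Pool.Agent.Lib.MP_5854e1_co.Cz.Sr469

namespace Pool.Agent.Lib.MP_5854e1_co.Cz.Sr596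

open PB

theorem t0 : runX PT.R (Wk.frw PT.R) nl RvT (SMap.evl cT tlT PT.vx ringF) [
  .mk 88 22 11 [0x4000, 0x20, 0x3fffffffd],
  .mk 88 22 11 [0x4000, 0x20, 0x2, 0xfffffffffffffffffffffffffffffffefffffffffffffffffffffffffffffffffffffff]] = true := by
  decide +kernel

theorem t1 : runX PT.R (Wk.frw PT.R) nl RvT (SMap.evl cT tlT PT.vx ringF) [
  .mk 88 22 11 [0x4000, 0x20, 0x2, 0x1000000000000000000000000000000000000000, 0x7]] = true := by
  decide +kernel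

theorem t2 : runX PT.R (Wk.frw PT.R) nl RvT (SMap.evl cT tlT PT.vx ringF) [
  .mk 88 22 11 [0x4000, 0x20, 0x2, 0x1000000000000000000000000000000000000000, 0xffffffffffffffffffffffffffffffffffffffffffffffffffffffffffffffffffffff8]] = true := by
  decide +kernel

theorem t3 : runX PT.R (Wk.frw PT.R) nl RvT (SMap.evl cT tlT PT.vx ringF) [
  .mk 88 23 12 [0x20200]] = true := by
  decide +kernel

theorem t4 : runX PT.R (Wk.frw PT.R) nl RvT (SMap.evl cT tlT PT.vx ringF) [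
  .mk 88 23 12 [0x43440000]] = true := by
  decide +kernel

theorem t5 : runX PT.R (Wk.frw PT.R) nl RvT (SMap.evl cT tlT PT.vx ringF) [
  .mk 88 23 12 [0x3b0b9fdff]] = true := by
  decide +kernel

/-- The tasks. -/
noncomputable def P : List (List Tk) := [
[
  .mk 88 22 11 [0x4000, 0x20, 0x3fffffffd],
  .mk 88 22 11 [0x4000, 0x20, 0x2, 0xfffffffffffffffffffffffffffffffefffffffffffffffffffffffffffffffffffffff]],
[
  .mk 88 22 11 [0x4000, 0x20, 0x2, 0x1000000000000000000000000000000000000000, 0x7]],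
[
  .mk 88 22 11 [0x4000, 0x20, 0x2, 0x1000000000000000000000000000000000000000, 0xffffffffffffffffffffffffffffffffffffffffffffffffffffffffffffffffffffff8]],
[
  .mk 88 23 12 [0x20200]],
[
  .mk 88 23 12 [0x43440000]],
[
  .mk 88 23 12 [0x3b0b9fdff]]]

theorem run : RunAll (runX PT.R (Wk.frw PT.R) nl RvT (SMap.evl cT tlT PT.vx ringF)) P :=
  .cons t0 (.cons t1 (.cons t2 (.cons t3 (.cons t4 (.cons t5 (.nil))))))

end Pool.Agent.Lib.MP_5854e1_co.Cz.Sr596
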