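import Pool.Agent.Lib.MP_5854e1_co.Cz.P
import Pool.Agent.Lib.MP_5854e1_co.Tkx
import Pool.Agent.Lib.MP_5854e1_co.RunAll

/-!
# Search, part 473
-/

set_option autoImplicit false
set_option deprecated.oldSectionVars true
set_option maxRecDepth 100000

namespace Pool.Agent.Lib.MP_5854e1_co.Cz.Sr473

open PB

theorem t0 : runX PT.R (Wk.frw PT.R) nl RvT (SMap.evl cT tlT PT.vx ringF) [
  .mk 46 23 12 [0x4c000000]] = true := by
  decide +kernel

theorem t1 : runX PT.R (Wk.frw PT.R) nl RvT (SMap.evl cT tlT PT.vx ringF) [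
  .mk 46 23 12 [0x3b098584c],
  .mk 46 24 15 [],
  .mk 46 25 17 []] = true := by
  decide +kernel

theorem t2 : runX PT.R (Wk.frw PT.R) nl RvT (SMap.evl cT tlT PT.vx ringF) [
  .mk 46 26 18 [],
  .mk 47 0 0 [],
  .mk 47 1 1 [],
  .mk 47 2 2 [],
  .mk 47 3 7 [],
  .mk 47 4 8 []] = true := by
  decide +kernel

theorem t3 : runX PT.R (Wk.frw PT.R) nl RvT (SMap.evl cT tlT PT.vx ringF) [
  .mk 47 5 9 [],
  .mk 47 6 15 [],
  .mk 47 7 16 [],
  .mk 47 8 0 [],
  .mk 47 9 1 [],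
  .mk 47 10 3 [],
  .mk 47 11 20 [],
  .mk 47 12 21 []] = true := by
  decide +kernel

theorem t4 : runX PT.R (Wk.frw PT.R) nl RvT (SMap.evl cT tlT PT.vx ringF) [
  .mk 47 13 22 [],
  .mk 47 14 28 [],
  .mk 47 15 29 [],
  .mk 47 16 0 [],
  .mk 47 17 7 [],
  .mk 47 18 15 []] = true := by
  decide +kernel

/-- The tasks. -/
noncomputable def P : List (List Tk) := [
[
  .mk 46 23 12 [0x4c000000]],
[
  .mk 46 23 12 [0x3b098584c],
  .mk 46 24 15 [],
  .mk 46 25 17 []],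
[
  .mk 46 26 18 [],
  .mk 47 0 0 [],
  .mk 47 1 1 [],
  .mk 47 2 2 [],
  .mk 47 3 7 [],
  .mk 47 4 8 []],
[
  .mk 47 5 9 [],
  .mk 47 6 15 [],
  .mk 47 7 16 [],
  .mk 47 8 0 [],
  .mk 47 9 1 [],
  .mk 47 10 3 [],
  .mk 47 11 20 [],
  .mk 47 12 21 []],
[
  .mk 47 13 22 [],
  .mk 47 14 28 [],
  .mk 47 15 29 [],
  .mk 47 16 0 [],
  .mk 47 17 7 [],
  .mk 47 18 15 []]]

theorem run : RunAll (runX PT.R (Wk.frw PT.R) nl RvT (SMap.evl cT tlT PT.vx ringF)) P :=
  .cons t0 (.cons t1 (.cons t2 (.cons t3 (.cons t4 (.nil)))))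

end Pool.Agent.Lib.MP_5854e1_co.Cz.Sr473

namespace Pool.Agent.Lib.MP_5854e1_co.Cz.Sr488

open PB

theorem t0 : runX PT.R (Wk.frw PT.R) nl RvT (SMap.evl cT tlT PT.vx ringF) [
  .mk 48 22 51 [0xc23f8],
  .mk 48 23 52 [0x10031]] = true := by
  decide +kernel

theorem t1 : runX PT.R (Wk.frw PT.R) nl RvT (SMap.evl cT tlT PT.vx ringF) [
  .mk 48 23 52 [0xa0000]] = true := by
  decide +kernel

theorem t2 : runX PT.R (Wk.frw PT.R) nl RvT (SMap.evl cT tlT PT.vx ringF) [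
  .mk 48 23 52 [0xffff07fc0],
  .mk 48 23 52 [0x2, 0xfffffffffffffbfffffffffffffffffffffffffffffffffffffffffffffffffffffffff]] = true := by
  decide +kernel

theorem t3 : runX PT.R (Wk.frw PT.R) nl RvT (SMap.evl cT tlT PT.vx ringF) [
  .mk 48 23 52 [0x2, 0x4000000000000000000000000000000000000000000000000000000000, 0x13]] = true := by
  decide +kernel

theorem t4 : runX PT.R (Wk.frw PT.R) nl RvT (SMap.evl cT tlT PT.vx ringF) [
  .mk 48 23 52 [0x2, 0x4000000000000000000000000000000000000000000000000000000000, 0xfffffffffffffffffffffffffffffffffffffffffffffffffffffffffffffffffffffec]] = true := by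
  decide +kernel

theorem t5 : runX PT.R (Wk.frw PT.R) nl RvT (SMap.evl cT tlT PT.vx ringF) [
  .mk 48 23 52 [0x4, 0x68f]] = true := by
  decide +kernel

/-- The tasks. -/
noncomputable def P : List (List Tk) := [
[
  .mk 48 22 51 [0xc23f8],
  .mk 48 23 52 [0x10031]],
[
  .mk 48 23 52 [0xa0000]],
[
  .mk 48 23 52 [0xffff07fc0],
  .mk 48 23 52 [0x2, 0xfffffffffffffbfffffffffffffffffffffffffffffffffffffffffffffffffffffffff]],
[
  .mk 48 23 52 [0x2, 0x4000000000000000000000000000000000000000000000000000000000, 0x13]],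
[
  .mk 48 23 52 [0x2, 0x4000000000000000000000000000000000000000000000000000000000, 0xfffffffffffffffffffffffffffffffffffffffffffffffffffffffffffffffffffffec]],
[
  .mk 48 23 52 [0x4, 0x68f]]]

theorem run : RunAll (runX PT.R (Wk.frw PT.R) nl RvT (SMap.evl cT tlT PT.vx ringF)) P :=
  .cons t0 (.cons t1 (.cons t2 (.cons t3 (.cons t4 (.cons t5 (.nil))))))

end Pool.Agent.Lib.MP_5854e1_co.Cz.Sr488
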