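import Pool.Agent.Lib.MP_5854e1_co.Cz.P
import Pool.Agent.Lib.MP_5854e1_co.Tkx
import Pool.Agent.Lib.MP_5854e1_co.RunAll

/-!
# Search, part 474
-/

set_option autoImplicit false
set_option deprecated.oldSectionVars true
set_option maxRecDepth 100000

namespace Pool.Agent.Lib.MP_5854e1_co.Cz.Sr474

open PB

theorem t0 : runX PT.R (Wk.frw PT.R) nl RvT (SMap.evl cT tlT PT.vx ringF) [
  .mk 47 19 20 [],
  .mk 47 20 28 [],
  .mk 47 21 0 [],
  .mk 47 22 61 [],
  .mk 47 23 62 [],
  .mk 47 24 63 [],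
  .mk 47 25 64 []] = true := by
  decide +kernel

theorem t1 : runX PT.R (Wk.frw PT.R) nl RvT (SMap.evl cT tlT PT.vx ringF) [
  .mk 47 26 65 [0x58d]] = true := by
  decide +kernel

theorem t2 : runX PT.R (Wk.frw PT.R) nl RvT (SMap.evl cT tlT PT.vx ringF) [
  .mk 47 26 65 [0x3800]] = true := by
  decide +kernel

theorem t3 : runX PT.R (Wk.frw PT.R) nl RvT (SMap.evl cT tlT PT.vx ringF) [
  .mk 47 26 65 [0x3ffff8070],
  .mk 47 26 65 [0x2, 0xfffffffefffffffffffffffffffffffffffffffffffffffffffffffffffffffffffffff]] = true := by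
  decide +kernel

theorem t4 : runX PT.R (Wk.frw PT.R) nl RvT (SMap.evl cT tlT PT.vx ringF) [
  .mk 47 26 65 [0x2, 0x1000000000000000000000000000000000000000000000000000000000000000, 0xc8f]] = true := by
  decide +kernel

theorem t5 : runX PT.R (Wk.frw PT.R) nl RvT (SMap.evl cT tlT PT.vx ringF) [
  .mk 47 26 65 [0x2, 0x1000000000000000000000000000000000000000000000000000000000000000, 0x53000]] = true := by
  decide +kernel

/-- The tasks. -/
noncomputable def P : List (List Tk) := [
[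
  .mk 47 19 20 [],
  .mk 47 20 28 [],
  .mk 47 21 0 [],
  .mk 47 22 61 [],
  .mk 47 23 62 [],
  .mk 47 24 63 [],
  .mk 47 25 64 []],
[
  .mk 47 26 65 [0x58d]],
[
  .mk 47 26 65 [0x3800]],
[
  .mk 47 26 65 [0x3ffff8070],
  .mk 47 26 65 [0x2, 0xfffffffefffffffffffffffffffffffffffffffffffffffffffffffffffffffffffffff]],
[
  .mk 47 26 65 [0x2, 0x1000000000000000000000000000000000000000000000000000000000000000, 0xc8f]],
[
  .mk 47 26 65 [0x2, 0x1000000000000000000000000000000000000000000000000000000000000000, 0x53000]]]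

theorem run : RunAll (runX PT.R (Wk.frw PT.R) nl RvT (SMap.evl cT tlT PT.vx ringF)) P :=
  .cons t0 (.cons t1 (.cons t2 (.cons t3 (.cons t4 (.cons t5 (.nil))))))

end Pool.Agent.Lib.MP_5854e1_co.Cz.Sr474

namespace Pool.Agent.Lib.MP_5854e1_co.Cz.Sr558

open PB

theorem t0 : runX PT.R (Wk.frw PT.R) nl RvT (SMap.evl cT tlT PT.vx ringF) [
  .mk 68 14 22 [0x400, 0x2000, 0x1, 0x800000000000000000000000000000, 0x3ffd9ffec]] = true := by
  decide +kernel

theorem t1 : runX PT.R (Wk.frw PT.R) nl RvT (SMap.evl cT tlT PT.vx ringF) [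
  .mk 68 14 22 [0x400, 0x2000, 0x4, 0x1168f]] = true := by
  decide +kernel

theorem t2 : runX PT.R (Wk.frw PT.R) nl RvT (SMap.evl cT tlT PT.vx ringF) [
  .mk 68 14 22 [0x400, 0x2000, 0x4, 0x7ee970]] = true := by
  decide +kernel

theorem t3 : runX PT.R (Wk.frw PT.R) nl RvT (SMap.evl cT tlT PT.vx ringF) [
  .mk 68 14 22 [0x400, 0x2000, 0x8, 0x3fffdffff]] = true := by
  decide +kernel

theorem t4 : runX PT.R (Wk.frw PT.R) nl RvT (SMap.evl cT tlT PT.vx ringF) [
  .mk 68 14 22 [0x400, 0x2000, 0x8, 0x20000, 0x800000000000002000000000000000000000000000000000000000]] = true := by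
  decide +kernel

theorem t5 : runX PT.R (Wk.frw PT.R) nl RvT (SMap.evl cT tlT PT.vx ringF) [
  .mk 68 14 22 [0x400, 0x2000, 0x8, 0x20000, 0xffffffffffffffffffffffffffffffffffffffffffffffffff7fffffffffffffdfffffffffffffffffffffffffffffffffffffff],
  .mk 68 14 22 [0x400, 0x2000, 0x8000, 0xffffffffffffffffffffffffffffffffffffffffffffffffffffffdfffffffffffffffffffffffffffffffffffffffffffffffff],
  .mk 68 14 22 [0x400, 0x2000, 0x8000, 0x20000000000000000000000000000000000000000000000000, 0x3fffffffd]] = true := by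
  decide +kernel

theorem t6 : runX PT.R (Wk.frw PT.R) nl RvT (SMap.evl cT tlT PT.vx ringF) [
  .mk 68 14 22 [0x400, 0x2000, 0x8000, 0x20000000000000000000000000000000000000000000000000, 0x2, 0xc19800000000000000000000000000000000000000000000000000000000000]] = true := by
  decide +kernel

/-- The tasks. -/
noncomputable def P : List (List Tk) := [
[
  .mk 68 14 22 [0x400, 0x2000, 0x1, 0x800000000000000000000000000000, 0x3ffd9ffec]],
[
  .mk 68 14 22 [0x400, 0x2000, 0x4, 0x1168f]],
[
  .mk 68 14 22 [0x400, 0x2000, 0x4, 0x7ee970]],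
[
  .mk 68 14 22 [0x400, 0x2000, 0x8, 0x3fffdffff]],
[
  .mk 68 14 22 [0x400, 0x2000, 0x8, 0x20000, 0x800000000000002000000000000000000000000000000000000000]],
[
  .mk 68 14 22 [0x400, 0x2000, 0x8, 0x20000, 0xffffffffffffffffffffffffffffffffffffffffffffffffff7fffffffffffffdfffffffffffffffffffffffffffffffffffffff],
  .mk 68 14 22 [0x400, 0x2000, 0x8000, 0xffffffffffffffffffffffffffffffffffffffffffffffffffffffdfffffffffffffffffffffffffffffffffffffffffffffffff],
  .mk 68 14 22 [0x400, 0x2000, 0x8000, 0x20000000000000000000000000000000000000000000000000, 0x3fffffffd]],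
[
  .mk 68 14 22 [0x400, 0x2000, 0x8000, 0x20000000000000000000000000000000000000000000000000, 0x2, 0xc19800000000000000000000000000000000000000000000000000000000000]]]

theorem run : RunAll (runX PT.R (Wk.frw PT.R) nl RvT (SMap.evl cT tlT PT.vx ringF)) P :=
  .cons t0 (.cons t1 (.cons t2 (.cons t3 (.cons t4 (.cons t5 (.cons t6 (.nil)))))))

end Pool.Agent.Lib.MP_5854e1_co.Cz.Sr558
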