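import Pool.Agent.Lib.MP_5854e1_co.Cz.P
import Pool.Agent.Lib.MP_5854e1_co.Tkx
import Pool.Agent.Lib.MP_5854e1_co.RunAll

/-!
# Search, part 547
-/

set_option autoImplicit false
set_option deprecated.oldSectionVars true
set_option maxRecDepth 100000

namespace Pool.Agent.Lib.MP_5854e1_co.Cz.Sr547

open PB

theorem t0 : runX PT.R (Wk.frw PT.R) nl RvT (SMap.evl cT tlT PT.vx ringF) [
  .mk 68 13 21 [0x400, 0x800000, 0x1, 0x1e00000000000000000000000000000000000000000000000000f00000000000000000000000000000000]] = true := by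
  decide +kernel

theorem t1 : runX PT.R (Wk.frw PT.R) nl RvT (SMap.evl cT tlT PT.vx ringF) [
  .mk 68 13 21 [0x400, 0x800000, 0x1, 0x2580000000000000000000000000000000000000000000000000000000000000000000000000000000000000]] = true := by
  decide +kernel

theorem t2 : runX PT.R (Wk.frw PT.R) nl RvT (SMap.evl cT tlT PT.vx ringF) [
  .mk 68 13 21 [0x400, 0x800000, 0x1, 0xffffffffffffffdfda7e0ffffffffffffffffffffffffffffffffffffffffffffffffff0fffffffffffdffffffffffffffffffff]] = true := by
  decide +kernel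

theorem t3 : runX PT.R (Wk.frw PT.R) nl RvT (SMap.evl cT tlT PT.vx ringF) [
  .mk 68 13 21 [0x400, 0x800000, 0x1, 0x200000000000000000000, 0x1e0000000000000000000000000000000000000000000000000000000000000000]] = true := by
  decide +kernel

theorem t4 : runX PT.R (Wk.frw PT.R) nl RvT (SMap.evl cT tlT PT.vx ringF) [
  .mk 68 13 21 [0x400, 0x800000, 0x1, 0x200000000000000000000, 0xffffffffffffffffffffffffffffffffffffffe1ffffffffffffffffffffffffffffffffffffffffffffffffffffffffffffffff]] = true := by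
  decide +kernel

theorem t5 : runX PT.R (Wk.frw PT.R) nl RvT (SMap.evl cT tlT PT.vx ringF) [
  .mk 68 13 21 [0x400, 0x800000, 0x1, 0x100000000000000000000000000000000000000000000000000000000000000000000000000000000000, 0xc0000600000000000000000000]] = true := by
  decide +kernel

/-- The tasks. -/
noncomputable def P : List (List Tk) := [
[
  .mk 68 13 21 [0x400, 0x800000, 0x1, 0x1e00000000000000000000000000000000000000000000000000f00000000000000000000000000000000]],
[
  .mk 68 13 21 [0x400, 0x800000, 0x1, 0x2580000000000000000000000000000000000000000000000000000000000000000000000000000000000000]],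
[
  .mk 68 13 21 [0x400, 0x800000, 0x1, 0xffffffffffffffdfda7e0ffffffffffffffffffffffffffffffffffffffffffffffffff0fffffffffffdffffffffffffffffffff]],
[
  .mk 68 13 21 [0x400, 0x800000, 0x1, 0x200000000000000000000, 0x1e0000000000000000000000000000000000000000000000000000000000000000]],
[
  .mk 68 13 21 [0x400, 0x800000, 0x1, 0x200000000000000000000, 0xffffffffffffffffffffffffffffffffffffffe1ffffffffffffffffffffffffffffffffffffffffffffffffffffffffffffffff]],
[
  .mk 68 13 21 [0x400, 0x800000, 0x1, 0x100000000000000000000000000000000000000000000000000000000000000000000000000000000000, 0xc0000600000000000000000000]]]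

theorem run : RunAll (runX PT.R (Wk.frw PT.R) nl RvT (SMap.evl cT tlT PT.vx ringF)) P :=
  .cons t0 (.cons t1 (.cons t2 (.cons t3 (.cons t4 (.cons t5 (.nil))))))

end Pool.Agent.Lib.MP_5854e1_co.Cz.Sr547

namespace Pool.Agent.Lib.MP_5854e1_co.Cz.Sr575

open PB

theorem t0 : runX PT.R (Wk.frw PT.R) nl RvT (SMap.evl cT tlT PT.vx ringF) [
  .mk 68 15 23 [0x2000000, 0x1748b]] = true := by
  decide +kernel

theorem t1 : runX PT.R (Wk.frw PT.R) nl RvT (SMap.evl cT tlT PT.vx ringF) [
  .mk 68 15 23 [0x2000000, 0x7e8974]] = true := by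
  decide +kernel

theorem t2 : runX PT.R (Wk.frw PT.R) nl RvT (SMap.evl cT tlT PT.vx ringF) [
  .mk 68 15 23 [0x2000000, 0x200, 0xc00808200000000000000028401]] = true := by
  decide +kernel

theorem t3 : runX PT.R (Wk.frw PT.R) nl RvT (SMap.evl cT tlT PT.vx ringF) [
  .mk 68 15 23 [0x2000000, 0x200, 0xffffffffffffffffffffffffffffffffffffffffffffffffffffffffffffffffffffffffffffe3ff7f7dfffffffffffffffd7bfe]] = true := by
  decide +kernel

theorem t4 : runX PT.R (Wk.frw PT.R) nl RvT (SMap.evl cT tlT PT.vx ringF) [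
  .mk 68 15 23 [0x2000000, 0x200, 0x1000000000000000000000000000, 0x1]] = true := by
  decide +kernel

/-- The tasks. -/
noncomputable def P : List (List Tk) := [
[
  .mk 68 15 23 [0x2000000, 0x1748b]],
[
  .mk 68 15 23 [0x2000000, 0x7e8974]],
[
  .mk 68 15 23 [0x2000000, 0x200, 0xc00808200000000000000028401]],
[
  .mk 68 15 23 [0x2000000, 0x200, 0xffffffffffffffffffffffffffffffffffffffffffffffffffffffffffffffffffffffffffffe3ff7f7dfffffffffffffffd7bfe]],
[
  .mk 68 15 23 [0x2000000, 0x200, 0x1000000000000000000000000000, 0x1]]]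

theorem run : RunAll (runX PT.R (Wk.frw PT.R) nl RvT (SMap.evl cT tlT PT.vx ringF)) P :=
  .cons t0 (.cons t1 (.cons t2 (.cons t3 (.cons t4 (.nil)))))

end Pool.Agent.Lib.MP_5854e1_co.Cz.Sr575

namespace Pool.Agent.Lib.MP_5854e1_co.Cz.Sr595

open PB

theorem t0 : runX PT.R (Wk.frw PT.R) nl RvT (SMap.evl cT tlT PT.vx ringF) [
  .mk 88 22 11 [0x800, 0xf81]] = true := by
  decide +kernel

theorem t1 : runX PT.R (Wk.frw PT.R) nl RvT (SMap.evl cT tlT PT.vx ringF) [
  .mk 88 22 11 [0x800, 0xffffff07e]] = true := by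
  decide +kernel

theorem t2 : runX PT.R (Wk.frw PT.R) nl RvT (SMap.evl cT tlT PT.vx ringF) [
  .mk 88 22 11 [0x2000, 0x37]] = true := by
  decide +kernel

theorem t3 : runX PT.R (Wk.frw PT.R) nl RvT (SMap.evl cT tlT PT.vx ringF) [
  .mk 88 22 11 [0x2000, 0xfffffffc0],
  .mk 88 22 11 [0x2000, 0x8, 0x3a793]] = true := by
  decide +kernel

theorem t4 : runX PT.R (Wk.frw PT.R) nl RvT (SMap.evl cT tlT PT.vx ringF) [
  .mk 88 22 11 [0x2000, 0x8, 0x240000]] = true := by
  decide +kernel

theorem t5 : runX PT.R (Wk.frw PT.R) nl RvT (SMap.evl cT tlT PT.vx ringF) [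
  .mk 88 22 11 [0x2000, 0x8, 0x3ffd8586c]] = true := by
  decide +kernel

theorem t6 : runX PT.R (Wk.frw PT.R) nl RvT (SMap.evl cT tlT PT.vx ringF) [
  .mk 88 22 11 [0x4000, 0x3ffffffffffdf]] = true := by
  decide +kernel

/-- The tasks. -/
noncomputable def P : List (List Tk) := [
[
  .mk 88 22 11 [0x800, 0xf81]],
[
  .mk 88 22 11 [0x800, 0xffffff07e]],
[
  .mk 88 22 11 [0x2000, 0x37]],
[
  .mk 88 22 11 [0x2000, 0xfffffffc0],
  .mk 88 22 11 [0x2000, 0x8, 0x3a793]],
[
  .mk 88 22 11 [0x2000, 0x8, 0x240000]],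
[
  .mk 88 22 11 [0x2000, 0x8, 0x3ffd8586c]],
[
  .mk 88 22 11 [0x4000, 0x3ffffffffffdf]]]

theorem run : RunAll (runX PT.R (Wk.frw PT.R) nl RvT (SMap.evl cT tlT PT.vx ringF)) P :=
  .cons t0 (.cons t1 (.cons t2 (.cons t3 (.cons t4 (.cons t5 (.cons t6 (.nil)))))))

end Pool.Agent.Lib.MP_5854e1_co.Cz.Sr595
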