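import Pool.Agent.Lib.MP_5854e1_co.Cz.Sw
import Pool.Agent.Lib.MP_5854e1_co.Cov3
import Pool.Agent.Lib.MP_5854e1_co.Cz.Sr000
import Pool.Agent.Lib.MP_5854e1_co.Cz.Sr001
import Pool.Agent.Lib.MP_5854e1_co.Cz.Sr002
import Pool.Agent.Lib.MP_5854e1_co.Cz.Sr003
import Pool.Agent.Lib.MP_5854e1_co.Cz.Sr004
import Pool.Agent.Lib.MP_5854e1_co.Cz.Sr005
import Pool.Agent.Lib.MP_5854e1_co.Cz.Sr006
import Pool.Agent.Lib.MP_5854e1_co.Cz.Sr007
import Pool.Agent.Lib.MP_5854e1_co.Cz.Sr008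
import Pool.Agent.Lib.MP_5854e1_co.Cz.Sr009
import Pool.Agent.Lib.MP_5854e1_co.Cz.Sr010
import Pool.Agent.Lib.MP_5854e1_co.Cz.Sr011
import Pool.Agent.Lib.MP_5854e1_co.Cz.Sr012
import Pool.Agent.Lib.MP_5854e1_co.Cz.Sr013
import Pool.Agent.Lib.MP_5854e1_co.Cz.Sr014
import Pool.Agent.Lib.MP_5854e1_co.Cz.Sr015
import Pool.Agent.Lib.MP_5854e1_co.Cz.Sr017
import Pool.Agent.Lib.MP_5854e1_co.Cz.Sr018
import Pool.Agent.Lib.MP_5854e1_co.Cz.Sr019
import Pool.Agent.Lib.MP_5854e1_co.Cz.Sr020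
import Pool.Agent.Lib.MP_5854e1_co.Cz.Sr021
import Pool.Agent.Lib.MP_5854e1_co.Cz.Sr022
import Pool.Agent.Lib.MP_5854e1_co.Cz.Sr023
import Pool.Agent.Lib.MP_5854e1_co.Cz.Sr024
import Pool.Agent.Lib.MP_5854e1_co.Cz.Sr026
import Pool.Agent.Lib.MP_5854e1_co.Cz.Sr027
import Pool.Agent.Lib.MP_5854e1_co.Cz.Sr029
import Pool.Agent.Lib.MP_5854e1_co.Cz.Sr030
import Pool.Agent.Lib.MP_5854e1_co.Cz.Sr031
import Pool.Agent.Lib.MP_5854e1_co.Cz.Sr032
import Pool.Agent.Lib.MP_5854e1_co.Cz.Sr033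
import Pool.Agent.Lib.MP_5854e1_co.Cz.Sr034
import Pool.Agent.Lib.MP_5854e1_co.Cz.Sr035
import Pool.Agent.Lib.MP_5854e1_co.Cz.Sr036
import Pool.Agent.Lib.MP_5854e1_co.Cz.Sr037
import Pool.Agent.Lib.MP_5854e1_co.Cz.Sr038
import Pool.Agent.Lib.MP_5854e1_co.Cz.Sr039
import Pool.Agent.Lib.MP_5854e1_co.Cz.Sr041
import Pool.Agent.Lib.MP_5854e1_co.Cz.Sr042
import Pool.Agent.Lib.MP_5854e1_co.Cz.Sr043
import Pool.Agent.Lib.MP_5854e1_co.Cz.Sr044
import Pool.Agent.Lib.MP_5854e1_co.Cz.Sr046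
import Pool.Agent.Lib.MP_5854e1_co.Cz.Sr050
import Pool.Agent.Lib.MP_5854e1_co.Cz.Sr051
import Pool.Agent.Lib.MP_5854e1_co.Cz.Sr052
import Pool.Agent.Lib.MP_5854e1_co.Cz.Sr053
import Pool.Agent.Lib.MP_5854e1_co.Cz.Sr054
import Pool.Agent.Lib.MP_5854e1_co.Cz.Sr056
import Pool.Agent.Lib.MP_5854e1_co.Cz.Sr057
import Pool.Agent.Lib.MP_5854e1_co.Cz.Sr058
import Pool.Agent.Lib.MP_5854e1_co.Cz.Sr059
import Pool.Agent.Lib.MP_5854e1_co.Cz.Sr061
import Pool.Agent.Lib.MP_5854e1_co.Cz.Sr062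
import Pool.Agent.Lib.MP_5854e1_co.Cz.Sr065
import Pool.Agent.Lib.MP_5854e1_co.Cz.Sr066
import Pool.Agent.Lib.MP_5854e1_co.Cz.Sr067
import Pool.Agent.Lib.MP_5854e1_co.Cz.Sr068
import Pool.Agent.Lib.MP_5854e1_co.Cz.Sr069
import Pool.Agent.Lib.MP_5854e1_co.Cz.Sr071
import Pool.Agent.Lib.MP_5854e1_co.Cz.Sr072
import Pool.Agent.Lib.MP_5854e1_co.Cz.Sr073
import Pool.Agent.Lib.MP_5854e1_co.Cz.Sr076
import Pool.Agent.Lib.MP_5854e1_co.Cz.Sr077
import Pool.Agent.Lib.MP_5854e1_co.Cz.Sr078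
import Pool.Agent.Lib.MP_5854e1_co.Cz.Sr081
import Pool.Agent.Lib.MP_5854e1_co.Cz.Sr083
import Pool.Agent.Lib.MP_5854e1_co.Cz.Sr084
import Pool.Agent.Lib.MP_5854e1_co.Cz.Sr088
import Pool.Agent.Lib.MP_5854e1_co.Cz.Sr089
import Pool.Agent.Lib.MP_5854e1_co.Cz.Sr090
import Pool.Agent.Lib.MP_5854e1_co.Cz.Sr091
import Pool.Agent.Lib.MP_5854e1_co.Cz.Sr092
import Pool.Agent.Lib.MP_5854e1_co.Cz.Sr093
import Pool.Agent.Lib.MP_5854e1_co.Cz.Sr096
import Pool.Agent.Lib.MP_5854e1_co.Cz.Sr097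
import Pool.Agent.Lib.MP_5854e1_co.Cz.Sr100
import Pool.Agent.Lib.MP_5854e1_co.Cz.Sr102
import Pool.Agent.Lib.MP_5854e1_co.Cz.Sr103
import Pool.Agent.Lib.MP_5854e1_co.Cz.Sr104
import Pool.Agent.Lib.MP_5854e1_co.Cz.Sr106
import Pool.Agent.Lib.MP_5854e1_co.Cz.Sr107
import Pool.Agent.Lib.MP_5854e1_co.Cz.Sr109
import Pool.Agent.Lib.MP_5854e1_co.Cz.Sr111
import Pool.Agent.Lib.MP_5854e1_co.Cz.Sr112
import Pool.Agent.Lib.MP_5854e1_co.Cz.Sr113
import Pool.Agent.Lib.MP_5854e1_co.Cz.Sr114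
import Pool.Agent.Lib.MP_5854e1_co.Cz.Sr115
import Pool.Agent.Lib.MP_5854e1_co.Cz.Sr116
import Pool.Agent.Lib.MP_5854e1_co.Cz.Sr118
import Pool.Agent.Lib.MP_5854e1_co.Cz.Sr119
import Pool.Agent.Lib.MP_5854e1_co.Cz.Sr120
import Pool.Agent.Lib.MP_5854e1_co.Cz.Sr122
import Pool.Agent.Lib.MP_5854e1_co.Cz.Sr124
import Pool.Agent.Lib.MP_5854e1_co.Cz.Sr125
import Pool.Agent.Lib.MP_5854e1_co.Cz.Sr127
import Pool.Agent.Lib.MP_5854e1_co.Cz.Sr130
import Pool.Agent.Lib.MP_5854e1_co.Cz.Sr131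
import Pool.Agent.Lib.MP_5854e1_co.Cz.Sr133
import Pool.Agent.Lib.MP_5854e1_co.Cz.Sr134
import Pool.Agent.Lib.MP_5854e1_co.Cz.Sr138
import Pool.Agent.Lib.MP_5854e1_co.Cz.Sr139
import Pool.Agent.Lib.MP_5854e1_co.Cz.Sr140
import Pool.Agent.Lib.MP_5854e1_co.Cz.Sr141
import Pool.Agent.Lib.MP_5854e1_co.Cz.Sr142
import Pool.Agent.Lib.MP_5854e1_co.Cz.Sr143
import Pool.Agent.Lib.MP_5854e1_co.Cz.Sr144
import Pool.Agent.Lib.MP_5854e1_co.Cz.Sr147
import Pool.Agent.Lib.MP_5854e1_co.Cz.Sr150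
import Pool.Agent.Lib.MP_5854e1_co.Cz.Sr152
import Pool.Agent.Lib.MP_5854e1_co.Cz.Sr153
import Pool.Agent.Lib.MP_5854e1_co.Cz.Sr154
import Pool.Agent.Lib.MP_5854e1_co.Cz.Sr156
import Pool.Agent.Lib.MP_5854e1_co.Cz.Sr157
import Pool.Agent.Lib.MP_5854e1_co.Cz.Sr158
import Pool.Agent.Lib.MP_5854e1_co.Cz.Sr159
import Pool.Agent.Lib.MP_5854e1_co.Cz.Sr160
import Pool.Agent.Lib.MP_5854e1_co.Cz.Sr163
import Pool.Agent.Lib.MP_5854e1_co.Cz.Sr165
import Pool.Agent.Lib.MP_5854e1_co.Cz.Sr167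
import Pool.Agent.Lib.MP_5854e1_co.Cz.Sr168
import Pool.Agent.Lib.MP_5854e1_co.Cz.Sr173
import Pool.Agent.Lib.MP_5854e1_co.Cz.Sr175
import Pool.Agent.Lib.MP_5854e1_co.Cz.Sr176
import Pool.Agent.Lib.MP_5854e1_co.Cz.Sr179
import Pool.Agent.Lib.MP_5854e1_co.Cz.Sr180
import Pool.Agent.Lib.MP_5854e1_co.Cz.Sr182
import Pool.Agent.Lib.MP_5854e1_co.Cz.Sr185
import Pool.Agent.Lib.MP_5854e1_co.Cz.Sr186
import Pool.Agent.Lib.MP_5854e1_co.Cz.Sr189
import Pool.Agent.Lib.MP_5854e1_co.Cz.Sr191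
import Pool.Agent.Lib.MP_5854e1_co.Cz.Sr192
import Pool.Agent.Lib.MP_5854e1_co.Cz.Sr193
import Pool.Agent.Lib.MP_5854e1_co.Cz.Sr196
import Pool.Agent.Lib.MP_5854e1_co.Cz.Sr197
import Pool.Agent.Lib.MP_5854e1_co.Cz.Sr198
import Pool.Agent.Lib.MP_5854e1_co.Cz.Sr199
import Pool.Agent.Lib.MP_5854e1_co.Cz.Sr200
import Pool.Agent.Lib.MP_5854e1_co.Cz.Sr201
import Pool.Agent.Lib.MP_5854e1_co.Cz.Sr202
import Pool.Agent.Lib.MP_5854e1_co.Cz.Sr203
import Pool.Agent.Lib.MP_5854e1_co.Cz.Sr207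
import Pool.Agent.Lib.MP_5854e1_co.Cz.Sr209
import Pool.Agent.Lib.MP_5854e1_co.Cz.Sr212
import Pool.Agent.Lib.MP_5854e1_co.Cz.Sr213
import Pool.Agent.Lib.MP_5854e1_co.Cz.Sr214
import Pool.Agent.Lib.MP_5854e1_co.Cz.Sr215
import Pool.Agent.Lib.MP_5854e1_co.Cz.Sr216
import Pool.Agent.Lib.MP_5854e1_co.Cz.Sr217
import Pool.Agent.Lib.MP_5854e1_co.Cz.Sr218
import Pool.Agent.Lib.MP_5854e1_co.Cz.Sr219
import Pool.Agent.Lib.MP_5854e1_co.Cz.Sr220
import Pool.Agent.Lib.MP_5854e1_co.Cz.Sr221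
import Pool.Agent.Lib.MP_5854e1_co.Cz.Sr224
import Pool.Agent.Lib.MP_5854e1_co.Cz.Sr226
import Pool.Agent.Lib.MP_5854e1_co.Cz.Sr227
import Pool.Agent.Lib.MP_5854e1_co.Cz.Sr230
import Pool.Agent.Lib.MP_5854e1_co.Cz.Sr231
import Pool.Agent.Lib.MP_5854e1_co.Cz.Sr233
import Pool.Agent.Lib.MP_5854e1_co.Cz.Sr235
import Pool.Agent.Lib.MP_5854e1_co.Cz.Sr240
import Pool.Agent.Lib.MP_5854e1_co.Cz.Sr241
import Pool.Agent.Lib.MP_5854e1_co.Cz.Sr245
import Pool.Agent.Lib.MP_5854e1_co.Cz.Sr247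
import Pool.Agent.Lib.MP_5854e1_co.Cz.Sr249
import Pool.Agent.Lib.MP_5854e1_co.Cz.Sr251
import Pool.Agent.Lib.MP_5854e1_co.Cz.Sr252
import Pool.Agent.Lib.MP_5854e1_co.Cz.Sr253
import Pool.Agent.Lib.MP_5854e1_co.Cz.Sr257
import Pool.Agent.Lib.MP_5854e1_co.Cz.Sr258
import Pool.Agent.Lib.MP_5854e1_co.Cz.Sr260
import Pool.Agent.Lib.MP_5854e1_co.Cz.Sr262
import Pool.Agent.Lib.MP_5854e1_co.Cz.Sr265
import Pool.Agent.Lib.MP_5854e1_co.Cz.Sr267
import Pool.Agent.Lib.MP_5854e1_co.Cz.Sr269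
import Pool.Agent.Lib.MP_5854e1_co.Cz.Sr270
import Pool.Agent.Lib.MP_5854e1_co.Cz.Sr276
import Pool.Agent.Lib.MP_5854e1_co.Cz.Sr277
import Pool.Agent.Lib.MP_5854e1_co.Cz.Sr278
import Pool.Agent.Lib.MP_5854e1_co.Cz.Sr292
import Pool.Agent.Lib.MP_5854e1_co.Cz.Sr309
import Pool.Agent.Lib.MP_5854e1_co.Cz.Sr316
import Pool.Agent.Lib.MP_5854e1_co.Cz.Sr320
import Pool.Agent.Lib.MP_5854e1_co.Cz.Sr323
import Pool.Agent.Lib.MP_5854e1_co.Cz.Sr326
import Pool.Agent.Lib.MP_5854e1_co.Cz.Sr328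
import Pool.Agent.Lib.MP_5854e1_co.Cz.Sr343
import Pool.Agent.Lib.MP_5854e1_co.Cz.Sr344
import Pool.Agent.Lib.MP_5854e1_co.Cz.Sr346
import Pool.Agent.Lib.MP_5854e1_co.Cz.Sr351
import Pool.Agent.Lib.MP_5854e1_co.Cz.Sr352
import Pool.Agent.Lib.MP_5854e1_co.Cz.Sr359
import Pool.Agent.Lib.MP_5854e1_co.Cz.Sr364
import Pool.Agent.Lib.MP_5854e1_co.Cz.Sr366
import Pool.Agent.Lib.MP_5854e1_co.Cz.Sr370
import Pool.Agent.Lib.MP_5854e1_co.Cz.Sr381
import Pool.Agent.Lib.MP_5854e1_co.Cz.Sr383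
import Pool.Agent.Lib.MP_5854e1_co.Cz.Sr399
import Pool.Agent.Lib.MP_5854e1_co.Cz.Sr413
import Pool.Agent.Lib.MP_5854e1_co.Cz.Sr425
import Pool.Agent.Lib.MP_5854e1_co.Cz.Sr431
import Pool.Agent.Lib.MP_5854e1_co.Cz.Sr451
import Pool.Agent.Lib.MP_5854e1_co.Cz.Sr455
import Pool.Agent.Lib.MP_5854e1_co.Cz.Sr458
import Pool.Agent.Lib.MP_5854e1_co.Cz.Sr469
import Pool.Agent.Lib.MP_5854e1_co.Cz.Sr473
import Pool.Agent.Lib.MP_5854e1_co.Cz.Sr474
import Pool.Agent.Lib.MP_5854e1_co.Cz.Sr475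
import Pool.Agent.Lib.MP_5854e1_co.Cz.Sr547
import Pool.Agent.Lib.MP_5854e1_co.Cz.Sr564

/-!
# The search: all tasks and the covering
-/

set_option autoImplicit false
set_option deprecated.oldSectionVars true
set_option maxRecDepth 100000

namespace Pool.Agent.Lib.MP_5854e1_co.Cz

open PB

/-- All tasks. -/
noncomputable def PS : List (List Tk) := Sr000.P ++ (Sr001.P ++ (Sr002.P ++ (Sr003.P ++ (Sr004.P ++ (Sr005.P ++ (Sr006.P ++ (Sr007.P ++ (Sr008.P ++ (Sr009.P ++ (Sr010.P ++ (Sr011.P ++ (Sr012.P ++ (Sr013.P ++ (Sr014.P ++ (Sr015.P ++ (Sr016.P ++ (Sr017.P ++ (Sr018.P ++ (Sr019.P ++ (Sr020.P ++ (Sr021.P ++ (Sr022.P ++ (Sr023.P ++ (Sr024.P ++ (Sr025.P ++ (Sr026.P ++ (Sr027.P ++ (Sr028.P ++ (Sr029.P ++ (Sr030.P ++ (Sr031.P ++ (Sr032.P ++ (Sr033.P ++ (Sr034.P ++ (Sr035.P ++ (Sr036.P ++ (Sr037.P ++ (Sr038.P ++ (Sr039.P ++ (Sr040.P ++ (Sr041.P ++ (Sr042.P ++ (Sr043.P ++ (Sr044.P ++ (Sr045.P ++ (Sr046.P ++ (Sr047.P ++ (Sr048.P ++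 (Sr049.P ++ (Sr050.P ++ (Sr051.P ++ (Sr052.P ++ (Sr053.P ++ (Sr054.P ++ (Sr055.P ++ (Sr056.P ++ (Sr057.P ++ (Sr058.P ++ (Sr059.P ++ (Sr060.P ++ (Sr061.P ++ (Sr062.P ++ (Sr063.P ++ (Sr064.P ++ (Sr065.P ++ (Sr066.P ++ (Sr067.P ++ (Sr068.P ++ (Sr069.P ++ (Sr070.P ++ (Sr071.P ++ (Sr072.P ++ (Sr073.P ++ (Sr074.P ++ (Sr075.P ++ (Sr076.P ++ (Sr077.P ++ (Sr078.P ++ (Sr079.P ++ (Sr080.P ++ (Sr081.P ++ (Sr082.P ++ (Sr083.P ++ (Sr084.P ++ (Sr085.P ++ (Sr086.P ++ (Sr087.P ++ (Sr088.P ++ (Sr089.P ++ (Sr090.P ++ (Sr091.P ++ (Sr092.P ++ (Sr093.P ++ (Sr094.P ++ (Sr095.P ++ (Sr096.P ++ (Sr097.P ++ (Sr098.P ++ (Sr099.P ++ (Sr100.P ++ (Sr101.P ++ (Sr102.P ++ (Sr103.P ++ (Sr104.P ++ (Sr105.P ++ (Sr106.P ++ (Sr107.P ++ (Sr108.P ++ (Sr109.P ++ (Sr110.P ++ (Sr111.P ++ (Sr112.P ++ (Sr113.P ++ (Sr114.P ++ (Sr115.P ++ (Sr116.P ++ (Sr117.P ++ (Sr118.P ++ (Sr119.P ++ (Sr120.P ++ (Sr121.P ++ (Sr122.P ++ (Sr123.P ++ (Sr124.P ++ (Sr125.P ++ (Sr126.P ++ (Sr127.P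 ++ (Sr128.P ++ (Sr129.P ++ (Sr130.P ++ (Sr131.P ++ (Sr132.P ++ (Sr133.P ++ (Sr134.P ++ (Sr135.P ++ (Sr136.P ++ (Sr137.P ++ (Sr138.P ++ (Sr139.P ++ (Sr140.P ++ (Sr141.P ++ (Sr142.P ++ (Sr143.P ++ (Sr144.P ++ (Sr145.P ++ (Sr146.P ++ (Sr147.P ++ (Sr148.P ++ (Sr149.P ++ (Sr150.P ++ (Sr151.P ++ (Sr152.P ++ (Sr153.P ++ (Sr154.P ++ (Sr155.P ++ (Sr156.P ++ (Sr157.P ++ (Sr158.P ++ (Sr159.P ++ (Sr160.P ++ (Sr161.P ++ (Sr162.P ++ (Sr163.P ++ (Sr164.P ++ (Sr165.P ++ (Sr166.P ++ (Sr167.P ++ (Sr168.P ++ (Sr169.P ++ (Sr170.P ++ (Sr171.P ++ (Sr172.P ++ (Sr173.P ++ (Sr174.P ++ (Sr175.P ++ (Sr176.P ++ (Sr177.P ++ (Sr178.P ++ (Sr179.P ++ (Sr180.P ++ (Sr181.P ++ (Sr182.P ++ (Sr183.P ++ (Sr184.P ++ (Sr185.P ++ (Sr186.P ++ (Sr187.P ++ (Sr188.P ++ (Sr189.P ++ (Sr190.P ++ (Sr191.P ++ (Sr192.P ++ (Sr193.P ++ (Sr194.P ++ (Sr195.P ++ (Sr196.P ++ (Sr197.P ++ (Sr198.P ++ (Sr199.P ++ (Sr200.P ++ (Sr201.P ++ (Sr202.P ++ (Sr203.P ++ (Sr204.P ++ (Sr205.P ++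 (Sr206.P ++ (Sr207.P ++ (Sr208.P ++ (Sr209.P ++ (Sr210.P ++ (Sr211.P ++ (Sr212.P ++ (Sr213.P ++ (Sr214.P ++ (Sr215.P ++ (Sr216.P ++ (Sr217.P ++ (Sr218.P ++ (Sr219.P ++ (Sr220.P ++ (Sr221.P ++ (Sr222.P ++ (Sr223.P ++ (Sr224.P ++ (Sr225.P ++ (Sr226.P ++ (Sr227.P ++ (Sr228.P ++ (Sr229.P ++ (Sr230.P ++ (Sr231.P ++ (Sr232.P ++ (Sr233.P ++ (Sr234.P ++ (Sr235.P ++ (Sr236.P ++ (Sr237.P ++ (Sr238.P ++ (Sr239.P ++ (Sr240.P ++ (Sr241.P ++ (Sr242.P ++ (Sr243.P ++ (Sr244.P ++ (Sr245.P ++ (Sr246.P ++ (Sr247.P ++ (Sr248.P ++ (Sr249.P ++ (Sr250.P ++ (Sr251.P ++ (Sr252.P ++ (Sr253.P ++ (Sr254.P ++ (Sr255.P ++ (Sr256.P ++ (Sr257.P ++ (Sr258.P ++ (Sr259.P ++ (Sr260.P ++ (Sr261.P ++ (Sr262.P ++ (Sr263.P ++ (Sr264.P ++ (Sr265.P ++ (Sr266.P ++ (Sr267.P ++ (Sr268.P ++ (Sr269.P ++ (Sr270.P ++ (Sr271.P ++ (Sr272.P ++ (Sr273.P ++ (Sr274.P ++ (Sr275.P ++ (Sr276.P ++ (Sr277.P ++ (Sr278.P ++ (Sr279.P ++ (Sr280.P ++ (Sr281.P ++ (Sr282.P ++ (Sr283.P ++ (Sr284.P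 ++ (Sr285.P ++ (Sr286.P ++ (Sr287.P ++ (Sr288.P ++ (Sr289.P ++ (Sr290.P ++ (Sr291.P ++ (Sr292.P ++ (Sr293.P ++ (Sr294.P ++ (Sr295.P ++ (Sr296.P ++ (Sr297.P ++ (Sr298.P ++ (Sr299.P ++ (Sr300.P ++ (Sr301.P ++ (Sr302.P ++ (Sr303.P ++ (Sr304.P ++ (Sr305.P ++ (Sr306.P ++ (Sr307.P ++ (Sr308.P ++ (Sr309.P ++ (Sr310.P ++ (Sr311.P ++ (Sr312.P ++ (Sr313.P ++ (Sr314.P ++ (Sr315.P ++ (Sr316.P ++ (Sr317.P ++ (Sr318.P ++ (Sr319.P ++ (Sr320.P ++ (Sr321.P ++ (Sr322.P ++ (Sr323.P ++ (Sr324.P ++ (Sr325.P ++ (Sr326.P ++ (Sr327.P ++ (Sr328.P ++ (Sr329.P ++ (Sr330.P ++ (Sr331.P ++ (Sr332.P ++ (Sr333.P ++ (Sr334.P ++ (Sr335.P ++ (Sr336.P ++ (Sr337.P ++ (Sr338.P ++ (Sr339.P ++ (Sr340.P ++ (Sr341.P ++ (Sr342.P ++ (Sr343.P ++ (Sr344.P ++ (Sr345.P ++ (Sr346.P ++ (Sr347.P ++ (Sr348.P ++ (Sr349.P ++ (Sr350.P ++ (Sr351.P ++ (Sr352.P ++ (Sr353.P ++ (Sr354.P ++ (Sr355.P ++ (Sr356.P ++ (Sr357.P ++ (Sr358.P ++ (Sr359.P ++ (Sr360.P ++ (Sr361.P ++ (Sr362.P ++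 (Sr363.P ++ (Sr364.P ++ (Sr365.P ++ (Sr366.P ++ (Sr367.P ++ (Sr368.P ++ (Sr369.P ++ (Sr370.P ++ (Sr371.P ++ (Sr372.P ++ (Sr373.P ++ (Sr374.P ++ (Sr375.P ++ (Sr376.P ++ (Sr377.P ++ (Sr378.P ++ (Sr379.P ++ (Sr380.P ++ (Sr381.P ++ (Sr382.P ++ (Sr383.P ++ (Sr384.P ++ (Sr385.P ++ (Sr386.P ++ (Sr387.P ++ (Sr388.P ++ (Sr389.P ++ (Sr390.P ++ (Sr391.P ++ (Sr392.P ++ (Sr393.P ++ (Sr394.P ++ (Sr395.P ++ (Sr396.P ++ (Sr397.P ++ (Sr398.P ++ (Sr399.P ++ (Sr400.P ++ (Sr401.P ++ (Sr402.P ++ (Sr403.P ++ (Sr404.P ++ (Sr405.P ++ (Sr406.P ++ (Sr407.P ++ (Sr408.P ++ (Sr409.P ++ (Sr410.P ++ (Sr411.P ++ (Sr412.P ++ (Sr413.P ++ (Sr414.P ++ (Sr415.P ++ (Sr416.P ++ (Sr417.P ++ (Sr418.P ++ (Sr419.P ++ (Sr420.P ++ (Sr421.P ++ (Sr422.P ++ (Sr423.P ++ (Sr424.P ++ (Sr425.P ++ (Sr426.P ++ (Sr427.P ++ (Sr428.P ++ (Sr429.P ++ (Sr430.P ++ (Sr431.P ++ (Sr432.P ++ (Sr433.P ++ (Sr434.P ++ (Sr435.P ++ (Sr436.P ++ (Sr437.P ++ (Sr438.P ++ (Sr439.P ++ (Sr440.P ++ (Sr441.P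 ++ (Sr442.P ++ (Sr443.P ++ (Sr444.P ++ (Sr445.P ++ (Sr446.P ++ (Sr447.P ++ (Sr448.P ++ (Sr449.P ++ (Sr450.P ++ (Sr451.P ++ (Sr452.P ++ (Sr453.P ++ (Sr454.P ++ (Sr455.P ++ (Sr456.P ++ (Sr457.P ++ (Sr458.P ++ (Sr459.P ++ (Sr460.P ++ (Sr461.P ++ (Sr462.P ++ (Sr463.P ++ (Sr464.P ++ (Sr465.P ++ (Sr466.P ++ (Sr467.P ++ (Sr468.P ++ (Sr469.P ++ (Sr470.P ++ (Sr471.P ++ (Sr472.P ++ (Sr473.P ++ (Sr474.P ++ (Sr475.P ++ (Sr476.P ++ (Sr477.P ++ (Sr478.P ++ (Sr479.P ++ (Sr480.P ++ (Sr481.P ++ (Sr482.P ++ (Sr483.P ++ (Sr484.P ++ (Sr485.P ++ (Sr486.P ++ (Sr487.P ++ (Sr488.P ++ (Sr489.P ++ (Sr490.P ++ (Sr491.P ++ (Sr492.P ++ (Sr493.P ++ (Sr494.P ++ (Sr495.P ++ (Sr496.P ++ (Sr497.P ++ (Sr498.P ++ (Sr499.P ++ (Sr500.P ++ (Sr501.P ++ (Sr502.P ++ (Sr503.P ++ (Sr504.P ++ (Sr505.P ++ (Sr506.P ++ (Sr507.P ++ (Sr508.P ++ (Sr509.P ++ (Sr510.P ++ (Sr511.P ++ (Sr512.P ++ (Sr513.P ++ (Sr514.P ++ (Sr515.P ++ (Sr516.P ++ (Sr517.P ++ (Sr518.P ++ (Sr519.P ++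 (Sr520.P ++ (Sr521.P ++ (Sr522.P ++ (Sr523.P ++ (Sr524.P ++ (Sr525.P ++ (Sr526.P ++ (Sr527.P ++ (Sr528.P ++ (Sr529.P ++ (Sr530.P ++ (Sr531.P ++ (Sr532.P ++ (Sr533.P ++ (Sr534.P ++ (Sr535.P ++ (Sr536.P ++ (Sr537.P ++ (Sr538.P ++ (Sr539.P ++ (Sr540.P ++ (Sr541.P ++ (Sr542.P ++ (Sr543.P ++ (Sr544.P ++ (Sr545.P ++ (Sr546.P ++ (Sr547.P ++ (Sr548.P ++ (Sr549.P ++ (Sr550.P ++ (Sr551.P ++ (Sr552.P ++ (Sr553.P ++ (Sr554.P ++ (Sr555.P ++ (Sr556.P ++ (Sr557.P ++ (Sr558.P ++ (Sr559.P ++ (Sr560.P ++ (Sr561.P ++ (Sr562.P ++ (Sr563.P ++ (Sr564.P ++ (Sr565.P ++ (Sr566.P ++ (Sr567.P ++ (Sr568.P ++ (Sr569.P ++ (Sr570.P ++ (Sr571.P ++ (Sr572.P ++ (Sr573.P ++ (Sr574.P ++ (Sr575.P ++ (Sr576.P ++ (Sr577.P ++ (Sr578.P ++ (Sr579.P ++ (Sr580.P ++ (Sr581.P ++ (Sr582.P ++ (Sr583.P ++ (Sr584.P ++ (Sr585.P ++ (Sr586.P ++ (Sr587.P ++ (Sr588.P ++ (Sr589.P ++ (Sr590.P ++ (Sr591.P ++ (Sr592.P ++ (Sr593.P ++ (Sr594.P ++ (Sr595.P ++ (Sr596.P ++ (Sr597.P ++ (Sr598.P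 ++ (Sr599.P)))))))))))))))))))))))))))))))))))))))))))))))))))))))))))))))))))))))))))))))))))))))))))))))))))))))))))))))))))))))))))))))))))))))))))))))))))))))))))))))))))))))))))))))))))))))))))))))))))))))))))))))))))))))))))))))))))))))))))))))))))))))))))))))))))))))))))))))))))))))))))))))))))))))))))))))))))))))))))))))))))))))))))))))))))))))))))))))))))))))))))))))))))))))))))))))))))))))))))))))))))))))))))))))))))))))))))))))))))))))))))))))))))))))))))))))))))))))))))))))))))))))))))))))))))))))))))))))))))))))))))))))))))))))))))))))))))))))))))))))))))))))))))))))))))))))))))))))))))))))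

theorem run : RunAll (runX PT.R (Wk.frw PT.R) nl RvT (SMap.evl cT tlT PT.vx ringF)) PS :=
  .append Sr000.run (.append Sr001.run (.append Sr002.run (.append Sr003.run (.append Sr004.run (.append Sr005.run (.append Sr006.run (.append Sr007.run (.append Sr008.run (.append Sr009.run (.append Sr010.run (.append Sr011.run (.append Sr012.run (.append Sr013.run (.append Sr014.run (.append Sr015.run (.append Sr016.run (.append Sr017.run (.append Sr018.run (.append Sr019.run (.append Sr020.run (.append Sr021.run (.append Sr022.run (.append Sr023.run (.append Sr024.run (.append Sr025.run (.append Sr026.run (.append Sr027.run (.append Sr028.run (.append Sr029.run (.append Sr030.run (.append Sr031.run (.append Sr032.run (.append Sr033.run (.append Sr034.run (.append Sr035.run (.append Sr036.run (.append Sr037.run (.append Sr038.run (.append Sr039.run (.append Sr040.run (.append Sr041.run (.append Sr042.run (.append Sr043.run (.append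 Sr044.run (.append Sr045.run (.append Sr046.run (.append Sr047.run (.append Sr048.run (.append Sr049.run (.append Sr050.run (.append Sr051.run (.append Sr052.run (.append Sr053.run (.append Sr054.run (.append Sr055.run (.append Sr056.run (.append Sr057.run (.append Sr058.run (.append Sr059.run (.append Sr060.run (.append Sr061.run (.append Sr062.run (.append Sr063.run (.append Sr064.run (.append Sr065.run (.append Sr066.run (.append Sr067.run (.append Sr068.run (.append Sr069.run (.append Sr070.run (.append Sr071.run (.append Sr072.run (.append Sr073.run (.append Sr074.run (.append Sr075.run (.append Sr076.run (.append Sr077.run (.append Sr078.run (.append Sr079.run (.append Sr080.run (.append Sr081.run (.append Sr082.run (.append Sr083.run (.append Sr084.run (.append Sr085.run (.append Sr086.run (.append Sr087.run (.append Sr088.run (.append Sr089.run (.append Sr090.run (.append Sr091.run (.append Sr092.run (.append Sr093.run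 (.append Sr094.run (.append Sr095.run (.append Sr096.run (.append Sr097.run (.append Sr098.run (.append Sr099.run (.append Sr100.run (.append Sr101.run (.append Sr102.run (.append Sr103.run (.append Sr104.run (.append Sr105.run (.append Sr106.run (.append Sr107.run (.append Sr108.run (.append Sr109.run (.append Sr110.run (.append Sr111.run (.append Sr112.run (.append Sr113.run (.append Sr114.run (.append Sr115.run (.append Sr116.run (.append Sr117.run (.append Sr118.run (.append Sr119.run (.append Sr120.run (.append Sr121.run (.append Sr122.run (.append Sr123.run (.append Sr124.run (.append Sr125.run (.append Sr126.run (.append Sr127.run (.append Sr128.run (.append Sr129.run (.append Sr130.run (.append Sr131.run (.append Sr132.run (.append Sr133.run (.append Sr134.run (.append Sr135.run (.append Sr136.run (.append Sr137.run (.append Sr138.run (.append Sr139.run (.append Sr140.run (.append Sr141.run (.append Sr142.run (.append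 Sr143.run (.append Sr144.run (.append Sr145.run (.append Sr146.run (.append Sr147.run (.append Sr148.run (.append Sr149.run (.append Sr150.run (.append Sr151.run (.append Sr152.run (.append Sr153.run (.append Sr154.run (.append Sr155.run (.append Sr156.run (.append Sr157.run (.append Sr158.run (.append Sr159.run (.append Sr160.run (.append Sr161.run (.append Sr162.run (.append Sr163.run (.append Sr164.run (.append Sr165.run (.append Sr166.run (.append Sr167.run (.append Sr168.run (.append Sr169.run (.append Sr170.run (.append Sr171.run (.append Sr172.run (.append Sr173.run (.append Sr174.run (.append Sr175.run (.append Sr176.run (.append Sr177.run (.append Sr178.run (.append Sr179.run (.append Sr180.run (.append Sr181.run (.append Sr182.run (.append Sr183.run (.append Sr184.run (.append Sr185.run (.append Sr186.run (.append Sr187.run (.append Sr188.run (.append Sr189.run (.append Sr190.run (.append Sr191.run (.append Sr192.run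 (.append Sr193.run (.append Sr194.run (.append Sr195.run (.append Sr196.run (.append Sr197.run (.append Sr198.run (.append Sr199.run (.append Sr200.run (.append Sr201.run (.append Sr202.run (.append Sr203.run (.append Sr204.run (.append Sr205.run (.append Sr206.run (.append Sr207.run (.append Sr208.run (.append Sr209.run (.append Sr210.run (.append Sr211.run (.append Sr212.run (.append Sr213.run (.append Sr214.run (.append Sr215.run (.append Sr216.run (.append Sr217.run (.append Sr218.run (.append Sr219.run (.append Sr220.run (.append Sr221.run (.append Sr222.run (.append Sr223.run (.append Sr224.run (.append Sr225.run (.append Sr226.run (.append Sr227.run (.append Sr228.run (.append Sr229.run (.append Sr230.run (.append Sr231.run (.append Sr232.run (.append Sr233.run (.append Sr234.run (.append Sr235.run (.append Sr236.run (.append Sr237.run (.append Sr238.run (.append Sr239.run (.append Sr240.run (.append Sr241.run (.append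 Sr242.run (.append Sr243.run (.append Sr244.run (.append Sr245.run (.append Sr246.run (.append Sr247.run (.append Sr248.run (.append Sr249.run (.append Sr250.run (.append Sr251.run (.append Sr252.run (.append Sr253.run (.append Sr254.run (.append Sr255.run (.append Sr256.run (.append Sr257.run (.append Sr258.run (.append Sr259.run (.append Sr260.run (.append Sr261.run (.append Sr262.run (.append Sr263.run (.append Sr264.run (.append Sr265.run (.append Sr266.run (.append Sr267.run (.append Sr268.run (.append Sr269.run (.append Sr270.run (.append Sr271.run (.append Sr272.run (.append Sr273.run (.append Sr274.run (.append Sr275.run (.append Sr276.run (.append Sr277.run (.append Sr278.run (.append Sr279.run (.append Sr280.run (.append Sr281.run (.append Sr282.run (.append Sr283.run (.append Sr284.run (.append Sr285.run (.append Sr286.run (.append Sr287.run (.append Sr288.run (.append Sr289.run (.append Sr290.run (.append Sr291.run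 (.append Sr292.run (.append Sr293.run (.append Sr294.run (.append Sr295.run (.append Sr296.run (.append Sr297.run (.append Sr298.run (.append Sr299.run (.append Sr300.run (.append Sr301.run (.append Sr302.run (.append Sr303.run (.append Sr304.run (.append Sr305.run (.append Sr306.run (.append Sr307.run (.append Sr308.run (.append Sr309.run (.append Sr310.run (.append Sr311.run (.append Sr312.run (.append Sr313.run (.append Sr314.run (.append Sr315.run (.append Sr316.run (.append Sr317.run (.append Sr318.run (.append Sr319.run (.append Sr320.run (.append Sr321.run (.append Sr322.run (.append Sr323.run (.append Sr324.run (.append Sr325.run (.append Sr326.run (.append Sr327.run (.append Sr328.run (.append Sr329.run (.append Sr330.run (.append Sr331.run (.append Sr332.run (.append Sr333.run (.append Sr334.run (.append Sr335.run (.append Sr336.run (.append Sr337.run (.append Sr338.run (.append Sr339.run (.append Sr340.run (.append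 Sr341.run (.append Sr342.run (.append Sr343.run (.append Sr344.run (.append Sr345.run (.append Sr346.run (.append Sr347.run (.append Sr348.run (.append Sr349.run (.append Sr350.run (.append Sr351.run (.append Sr352.run (.append Sr353.run (.append Sr354.run (.append Sr355.run (.append Sr356.run (.append Sr357.run (.append Sr358.run (.append Sr359.run (.append Sr360.run (.append Sr361.run (.append Sr362.run (.append Sr363.run (.append Sr364.run (.append Sr365.run (.append Sr366.run (.append Sr367.run (.append Sr368.run (.append Sr369.run (.append Sr370.run (.append Sr371.run (.append Sr372.run (.append Sr373.run (.append Sr374.run (.append Sr375.run (.append Sr376.run (.append Sr377.run (.append Sr378.run (.append Sr379.run (.append Sr380.run (.append Sr381.run (.append Sr382.run (.append Sr383.run (.append Sr384.run (.append Sr385.run (.append Sr386.run (.append Sr387.run (.append Sr388.run (.append Sr389.run (.append Sr390.run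 (.append Sr391.run (.append Sr392.run (.append Sr393.run (.append Sr394.run (.append Sr395.run (.append Sr396.run (.append Sr397.run (.append Sr398.run (.append Sr399.run (.append Sr400.run (.append Sr401.run (.append Sr402.run (.append Sr403.run (.append Sr404.run (.append Sr405.run (.append Sr406.run (.append Sr407.run (.append Sr408.run (.append Sr409.run (.append Sr410.run (.append Sr411.run (.append Sr412.run (.append Sr413.run (.append Sr414.run (.append Sr415.run (.append Sr416.run (.append Sr417.run (.append Sr418.run (.append Sr419.run (.append Sr420.run (.append Sr421.run (.append Sr422.run (.append Sr423.run (.append Sr424.run (.append Sr425.run (.append Sr426.run (.append Sr427.run (.append Sr428.run (.append Sr429.run (.append Sr430.run (.append Sr431.run (.append Sr432.run (.append Sr433.run (.append Sr434.run (.append Sr435.run (.append Sr436.run (.append Sr437.run (.append Sr438.run (.append Sr439.run (.append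 Sr440.run (.append Sr441.run (.append Sr442.run (.append Sr443.run (.append Sr444.run (.append Sr445.run (.append Sr446.run (.append Sr447.run (.append Sr448.run (.append Sr449.run (.append Sr450.run (.append Sr451.run (.append Sr452.run (.append Sr453.run (.append Sr454.run (.append Sr455.run (.append Sr456.run (.append Sr457.run (.append Sr458.run (.append Sr459.run (.append Sr460.run (.append Sr461.run (.append Sr462.run (.append Sr463.run (.append Sr464.run (.append Sr465.run (.append Sr466.run (.append Sr467.run (.append Sr468.run (.append Sr469.run (.append Sr470.run (.append Sr471.run (.append Sr472.run (.append Sr473.run (.append Sr474.run (.append Sr475.run (.append Sr476.run (.append Sr477.run (.append Sr478.run (.append Sr479.run (.append Sr480.run (.append Sr481.run (.append Sr482.run (.append Sr483.run (.append Sr484.run (.append Sr485.run (.append Sr486.run (.append Sr487.run (.append Sr488.run (.append Sr489.run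 (.append Sr490.run (.append Sr491.run (.append Sr492.run (.append Sr493.run (.append Sr494.run (.append Sr495.run (.append Sr496.run (.append Sr497.run (.append Sr498.run (.append Sr499.run (.append Sr500.run (.append Sr501.run (.append Sr502.run (.append Sr503.run (.append Sr504.run (.append Sr505.run (.append Sr506.run (.append Sr507.run (.append Sr508.run (.append Sr509.run (.append Sr510.run (.append Sr511.run (.append Sr512.run (.append Sr513.run (.append Sr514.run (.append Sr515.run (.append Sr516.run (.append Sr517.run (.append Sr518.run (.append Sr519.run (.append Sr520.run (.append Sr521.run (.append Sr522.run (.append Sr523.run (.append Sr524.run (.append Sr525.run (.append Sr526.run (.append Sr527.run (.append Sr528.run (.append Sr529.run (.append Sr530.run (.append Sr531.run (.append Sr532.run (.append Sr533.run (.append Sr534.run (.append Sr535.run (.append Sr536.run (.append Sr537.run (.append Sr538.run (.append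 Sr539.run (.append Sr540.run (.append Sr541.run (.append Sr542.run (.append Sr543.run (.append Sr544.run (.append Sr545.run (.append Sr546.run (.append Sr547.run (.append Sr548.run (.append Sr549.run (.append Sr550.run (.append Sr551.run (.append Sr552.run (.append Sr553.run (.append Sr554.run (.append Sr555.run (.append Sr556.run (.append Sr557.run (.append Sr558.run (.append Sr559.run (.append Sr560.run (.append Sr561.run (.append Sr562.run (.append Sr563.run (.append Sr564.run (.append Sr565.run (.append Sr566.run (.append Sr567.run (.append Sr568.run (.append Sr569.run (.append Sr570.run (.append Sr571.run (.append Sr572.run (.append Sr573.run (.append Sr574.run (.append Sr575.run (.append Sr576.run (.append Sr577.run (.append Sr578.run (.append Sr579.run (.append Sr580.run (.append Sr581.run (.append Sr582.run (.append Sr583.run (.append Sr584.run (.append Sr585.run (.append Sr586.run (.append Sr587.run (.append Sr588.run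 (.append Sr589.run (.append Sr590.run (.append Sr591.run (.append Sr592.run (.append Sr593.run (.append Sr594.run (.append Sr595.run (.append Sr596.run (.append Sr597.run (.append Sr598.run (Sr599.run)))))))))))))))))))))))))))))))))))))))))))))))))))))))))))))))))))))))))))))))))))))))))))))))))))))))))))))))))))))))))))))))))))))))))))))))))))))))))))))))))))))))))))))))))))))))))))))))))))))))))))))))))))))))))))))))))))))))))))))))))))))))))))))))))))))))))))))))))))))))))))))))))))))))))))))))))))))))))))))))))))))))))))))))))))))))))))))))))))))))))))))))))))))))))))))))))))))))))))))))))))))))))))))))))))))))))))))))))))))))))))))))))))))))))))))))))))))))))))))))))))))))))))))))))))))))))))))))))))))))))))))))))))))))))))))))))))))))))))))))))))))))))))))))))))))))))))))))))))))))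

theorem cov0 : covR6 PS (nat_lit 0) (nat_lit 1) = true := by decide +kernel

theorem cov1 : covR6 PS (nat_lit 1) (nat_lit 2) = true := by decide +kernel

theorem cov3 : covR6 PS (nat_lit 3) (nat_lit 5) = true := by decide +kernel

theorem cov8 : covR6 PS (nat_lit 8) (nat_lit 5) = true := by decide +kernel

theorem cov13 : covR6 PS (nat_lit 13) (nat_lit 7) = true := by decide +kernel

theorem cov20 : covR6 PS (nat_lit 20) (nat_lit 8) = true := by decide +kernel

theorem cov28 : covR6 PS (nat_lit 28) (nat_lit 11) = true := by decide +kernel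

theorem cov39 : covR6 PS (nat_lit 39) (nat_lit 7) = true := by decide +kernel

theorem cov46 : covR6 PS (nat_lit 46) (nat_lit 6) = true := by decide +kernel

theorem cov52 : covR6 PS (nat_lit 52) (nat_lit 13) = true := by decide +kernel

theorem cov65 : covR6 PS (nat_lit 65) (nat_lit 13) = true := by decide +kernel

theorem cov78 : covR6 PS (nat_lit 78) (nat_lit 13) = true := by decide +kernel

theorem cov91 : covR6 PS (nat_lit 91) (nat_lit 10) = true := by decide +kernel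

theorem cov : ∀ k < 101, covK6 PS k = true := fun k hk => by
  rcases Nat.lt_or_ge k 1 with h0 | h0
  · exact cov6_of_covR6 cov0 (Nat.zero_le k) (by omega)
  rcases Nat.lt_or_ge k 3 with h1 | h1
  · exact cov6_of_covR6 cov1 h0 (by omega)
  rcases Nat.lt_or_ge k 8 with h2 | h2
  · exact cov6_of_covR6 cov3 h1 (by omega)
  rcases Nat.lt_or_ge k 13 with h3 | h3
  · exact cov6_of_covR6 cov8 h2 (by omega)
  rcases Nat.lt_or_ge k 20 with h4 | h4
  · exact cov6_of_covR6 cov13 h3 (by omega)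
  rcases Nat.lt_or_ge k 28 with h5 | h5
  · exact cov6_of_covR6 cov20 h4 (by omega)
  rcases Nat.lt_or_ge k 39 with h6 | h6
  · exact cov6_of_covR6 cov28 h5 (by omega)
  rcases Nat.lt_or_ge k 46 with h7 | h7
  · exact cov6_of_covR6 cov39 h6 (by omega)
  rcases Nat.lt_or_ge k 52 with h8 | h8
  · exact cov6_of_covR6 cov46 h7 (by omega)
  rcases Nat.lt_or_ge k 65 with h9 | h9
  · exact cov6_of_covR6 cov52 h8 (by omega)
  rcases Nat.lt_or_ge k 78 with h10 | h10
  · exact cov6_of_covR6 cov65 h9 (by omega)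
  rcases Nat.lt_or_ge k 91 with h11 | h11
  · exact cov6_of_covR6 cov78 h10 (by omega)
  exact cov6_of_covR6 cov91 h11 (by omega)

theorem sr.{u} (hc : ∀ k0 < 101, cloK PT.R nl PT.Pn RvT k0 = true) :
    SrOK.{u} PT.R nl PT.Pn (SMap.evl cT tlT PT.vx ringF) :=
  srOK_of_runX6 swf hc run cov

end Pool.Agent.Lib.MP_5854e1_co.Cz
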