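import Pool.Agent.Lib.MP_5854e1_co.Cz.Ok
import Pool.Agent.Lib.MP_5854e1_co.Cz.Ck
import Pool.Agent.Lib.MP_5854e1_co.Cz.Sc
import Pool.Agent.Lib.MP_5854e1_co.RingKZ
import Pool.Agent.Lib.MP_5854e1_co.Six

/-!
# The certificate
-/

set_option autoImplicit false
set_option maxRecDepth 100000

namespace Pool.Agent.Lib.MP_5854e1_co.Cz

open Pool.Agent.Lib.MP_5854e1_co PB

universe u

/-- **All checks of the certificate.** -/
theorem cert : AP.CertS.{u} PT SPT Cz.tt Cz.tw Cz.tz rtT Cz.tq trT mT q5T (nat_lit 0) (nat_lit 1) (nat_lit 4) RvT tlT ringF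
    (fun _ _ _ => 0) (fun _ T a => T.PK cT Cz.tp Cz.tk a)
    (fun _ T d => T.QP cT Cz.tj d) where
  ok := ok.toOKB
  chk := chk
  sym := sym
  syW := syW
  syS := syS
  psi := psi
  tok := tok
  sh := fun _ hM => Tabs.share_K okK hM
  rgo := fun _ hM => ringZK_ok ok hM win wink _
  sr := sr clo

theorem u_eq : PT.u = 8192 := rfl

theorem a_eq : PT.α = 4096 := rfl

/-- The mean is large enough. -/
theorem alpha : PT.u ≤ 2 * PT.α := by
  have h1 := u_eq
  have h2 := a_eq
  omega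

/-- **There is no finite planar cover.** -/
theorem no_cover {W : Type u} {H : SimpleGraph W} {φ : W → Fin 7} [Finite W] [Nonempty W]
    (hφ : IsCover H K1222 φ) : ¬ IsPlanar H :=
  cert.no_cover alpha hφ

end Pool.Agent.Lib.MP_5854e1_co.Cz
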