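import Pool.Agent.Lib.MP_5854e1_co.Cz.Kd0
import Pool.Agent.Lib.MP_5854e1_co.Cz.Kd1
import Pool.Agent.Lib.MP_5854e1_co.Cz.Kw0
import Pool.Agent.Lib.MP_5854e1_co.Cz.Ks0
import Pool.Agent.Lib.MP_5854e1_co.Cz.Kv0
import Pool.Agent.Lib.MP_5854e1_co.Cz.Kq0
import Pool.Agent.Lib.MP_5854e1_co.Cz.Kq1
import Pool.Agent.Lib.MP_5854e1_co.Cz.Kq2
import Pool.Agent.Lib.MP_5854e1_co.Cz.Kq3
import Pool.Agent.Lib.MP_5854e1_co.Cz.Kq4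
import Pool.Agent.Lib.MP_5854e1_co.Cz.Kq5
import Pool.Agent.Lib.MP_5854e1_co.Cz.Kq6
import Pool.Agent.Lib.MP_5854e1_co.Cz.Kq7
import Pool.Agent.Lib.MP_5854e1_co.Cz.Kq9
import Pool.Agent.Lib.MP_5854e1_co.Cz.Kb
import Pool.Agent.Lib.MP_5854e1_co.Cz.Kt0
import Pool.Agent.Lib.MP_5854e1_co.Cz.Kt1
import Pool.Agent.Lib.MP_5854e1_co.Cz.Kt2
import Pool.Agent.Lib.MP_5854e1_co.Cz.Kt3
import Pool.Agent.Lib.MP_5854e1_co.Cz.Kt5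
import Pool.Agent.Lib.MP_5854e1_co.Cz.Kt6
import Pool.Agent.Lib.MP_5854e1_co.Cz.Kt8
import Pool.Agent.Lib.MP_5854e1_co.Cz.Kt12
import Pool.Agent.Lib.MP_5854e1_co.Cz.Kz00
import Pool.Agent.Lib.MP_5854e1_co.Cz.Kz01
import Pool.Agent.Lib.MP_5854e1_co.Cz.Kz02
import Pool.Agent.Lib.MP_5854e1_co.Cz.Kz03
import Pool.Agent.Lib.MP_5854e1_co.Cz.Kz04
import Pool.Agent.Lib.MP_5854e1_co.Cz.Kz05
import Pool.Agent.Lib.MP_5854e1_co.Cz.Kz06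
import Pool.Agent.Lib.MP_5854e1_co.Cz.Kz07
import Pool.Agent.Lib.MP_5854e1_co.Cz.Kz08
import Pool.Agent.Lib.MP_5854e1_co.Cz.Kz09
import Pool.Agent.Lib.MP_5854e1_co.Cz.Kz10
import Pool.Agent.Lib.MP_5854e1_co.Cz.Kz12
import Pool.Agent.Lib.MP_5854e1_co.Cz.Kz13
import Pool.Agent.Lib.MP_5854e1_co.Cz.Kz15
import Pool.Agent.Lib.MP_5854e1_co.Cz.Kz21
import Pool.Agent.Lib.MP_5854e1_co.Cz.Kz30
import Pool.Agent.Lib.MP_5854e1_co.Cz.Kr00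
import Pool.Agent.Lib.MP_5854e1_co.Cz.Kr03
import Pool.Agent.Lib.MP_5854e1_co.Cz.Kj000
import Pool.Agent.Lib.MP_5854e1_co.Cz.Kj001
import Pool.Agent.Lib.MP_5854e1_co.Cz.Kj002
import Pool.Agent.Lib.MP_5854e1_co.Cz.Kj004
import Pool.Agent.Lib.MP_5854e1_co.Cz.Kj005
import Pool.Agent.Lib.MP_5854e1_co.Cz.Kj006
import Pool.Agent.Lib.MP_5854e1_co.Cz.Kj007
import Pool.Agent.Lib.MP_5854e1_co.Cz.Kj009
import Pool.Agent.Lib.MP_5854e1_co.Cz.Kj011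
import Pool.Agent.Lib.MP_5854e1_co.Cz.Kj012
import Pool.Agent.Lib.MP_5854e1_co.Cz.Kj013
import Pool.Agent.Lib.MP_5854e1_co.Cz.Kj014
import Pool.Agent.Lib.MP_5854e1_co.Cz.Kj016
import Pool.Agent.Lib.MP_5854e1_co.Cz.Kj017
import Pool.Agent.Lib.MP_5854e1_co.Cz.Kj020
import Pool.Agent.Lib.MP_5854e1_co.Cz.Kj022
import Pool.Agent.Lib.MP_5854e1_co.Cz.Kj023
import Pool.Agent.Lib.MP_5854e1_co.Cz.Kj025
import Pool.Agent.Lib.MP_5854e1_co.Cz.Kj031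
import Pool.Agent.Lib.MP_5854e1_co.Cz.Kx0
import Pool.Agent.Lib.MP_5854e1_co.Cz.Kx1
import Pool.Agent.Lib.MP_5854e1_co.Cz.Kx2
import Pool.Agent.Lib.MP_5854e1_co.Cz.Kx3
import Pool.Agent.Lib.MP_5854e1_co.Cz.Kx4
import Pool.Agent.Lib.MP_5854e1_co.Cz.Kx5
import Pool.Agent.Lib.MP_5854e1_co.Cz.Kx6
import Pool.Agent.Lib.MP_5854e1_co.Cz.Kx8
import Pool.Agent.Lib.MP_5854e1_co.Cz.Kx9
import Pool.Agent.Lib.MP_5854e1_co.Cz.Kx12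
import Pool.Agent.Lib.MP_5854e1_co.Cz.Kx13
import Pool.Agent.Lib.MP_5854e1_co.Cz.Kx14
import Pool.Agent.Lib.MP_5854e1_co.Cz.Kx16
import Pool.Agent.Lib.MP_5854e1_co.Cz.Kx17
import Pool.Agent.Lib.MP_5854e1_co.Cz.Kx18
import Pool.Agent.Lib.MP_5854e1_co.Cz.Kx19
import Pool.Agent.Lib.MP_5854e1_co.Cz.Kx21
import Pool.Agent.Lib.MP_5854e1_co.Cz.Kx22
import Pool.Agent.Lib.MP_5854e1_co.Cz.Kx23
import Pool.Agent.Lib.MP_5854e1_co.Cz.Kx24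
import Pool.Agent.Lib.MP_5854e1_co.Cz.Kx32
import Pool.Agent.Lib.MP_5854e1_co.Cz.Kx38
import Pool.Agent.Lib.MP_5854e1_co.Cz.Kx47
import Pool.Agent.Lib.MP_5854e1_co.Cz.Kx49
import Pool.Agent.Lib.MP_5854e1_co.Cz.Kx52
import Pool.Agent.Lib.MP_5854e1_co.Cz.Ke0
import Pool.Agent.Lib.MP_5854e1_co.Cz.Kp0
import Pool.Agent.Lib.MP_5854e1_co.Cz.Kl
import Pool.Agent.Lib.MP_5854e1_co.RngB
import Pool.Agent.Lib.MP_5854e1_co.JntS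
import Pool.Agent.Lib.MP_5854e1_co.Cz.Ky00
import Pool.Agent.Lib.MP_5854e1_co.Cz.Ky00b
import Pool.Agent.Lib.MP_5854e1_co.Cz.Ky01
import Pool.Agent.Lib.MP_5854e1_co.Cz.Ky02
import Pool.Agent.Lib.MP_5854e1_co.Cz.Ky03
import Pool.Agent.Lib.MP_5854e1_co.Cz.Ky04
import Pool.Agent.Lib.MP_5854e1_co.Cz.Ky05
import Pool.Agent.Lib.MP_5854e1_co.Cz.Ky06
import Pool.Agent.Lib.MP_5854e1_co.Cz.Ky07
import Pool.Agent.Lib.MP_5854e1_co.Cz.Ky07b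
import Pool.Agent.Lib.MP_5854e1_co.Cz.Ky08
import Pool.Agent.Lib.MP_5854e1_co.Cz.Ky08b
import Pool.Agent.Lib.MP_5854e1_co.Cz.Ky09
import Pool.Agent.Lib.MP_5854e1_co.Cz.Ky10
import Pool.Agent.Lib.MP_5854e1_co.Cz.Ky11
import Pool.Agent.Lib.MP_5854e1_co.Cz.Ky12
import Pool.Agent.Lib.MP_5854e1_co.Cz.Ky13
import Pool.Agent.Lib.MP_5854e1_co.Cz.Ky14
import Pool.Agent.Lib.MP_5854e1_co.Cz.Ky15
import Pool.Agent.Lib.MP_5854e1_co.Cz.Ky16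
import Pool.Agent.Lib.MP_5854e1_co.Cz.Ky16b
import Pool.Agent.Lib.MP_5854e1_co.Cz.Ky17
import Pool.Agent.Lib.MP_5854e1_co.Cz.Ky18
import Pool.Agent.Lib.MP_5854e1_co.Cz.Ky19
import Pool.Agent.Lib.MP_5854e1_co.Cz.Ky20
import Pool.Agent.Lib.MP_5854e1_co.Cz.Ky21
import Pool.Agent.Lib.MP_5854e1_co.Cz.Ky22
import Pool.Agent.Lib.MP_5854e1_co.Cz.Ky23
import Pool.Agent.Lib.MP_5854e1_co.Cz.Ky24
import Pool.Agent.Lib.MP_5854e1_co.Cz.Ky25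
import Pool.Agent.Lib.MP_5854e1_co.Cz.Ky26
import Pool.Agent.Lib.MP_5854e1_co.Cz.Ky27
import Pool.Agent.Lib.MP_5854e1_co.Cz.Ky28
import Pool.Agent.Lib.MP_5854e1_co.Cz.Ky29
import Pool.Agent.Lib.MP_5854e1_co.Cz.Ky30
import Pool.Agent.Lib.MP_5854e1_co.Cz.Ky31
import Pool.Agent.Lib.MP_5854e1_co.Cz.Ky32
import Pool.Agent.Lib.MP_5854e1_co.Cz.Ky33
import Pool.Agent.Lib.MP_5854e1_co.Cz.Ky34
import Pool.Agent.Lib.MP_5854e1_co.Cz.Ky35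
import Pool.Agent.Lib.MP_5854e1_co.Cz.Ky36
import Pool.Agent.Lib.MP_5854e1_co.Cz.Ky37
import Pool.Agent.Lib.MP_5854e1_co.Cz.Ky38
import Pool.Agent.Lib.MP_5854e1_co.Cz.Ky39
import Pool.Agent.Lib.MP_5854e1_co.Cz.Ky40
import Pool.Agent.Lib.MP_5854e1_co.Cz.Ky41
import Pool.Agent.Lib.MP_5854e1_co.Cz.Ky42
import Pool.Agent.Lib.MP_5854e1_co.Cz.Ky43
import Pool.Agent.Lib.MP_5854e1_co.Cz.Ky44
import Pool.Agent.Lib.MP_5854e1_co.Cz.Ky45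
import Pool.Agent.Lib.MP_5854e1_co.Cz.Ky46
import Pool.Agent.Lib.MP_5854e1_co.Cz.Ky47
import Pool.Agent.Lib.MP_5854e1_co.Cz.Ky48
import Pool.Agent.Lib.MP_5854e1_co.Cz.Ky49
import Pool.Agent.Lib.MP_5854e1_co.Cz.Ky50
import Pool.Agent.Lib.MP_5854e1_co.Cz.Ky51
import Pool.Agent.Lib.MP_5854e1_co.Cz.Ky52
import Pool.Agent.Lib.MP_5854e1_co.Cz.Ky53
import Pool.Agent.Lib.MP_5854e1_co.Cz.Ky54
import Pool.Agent.Lib.MP_5854e1_co.Cz.Ky55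
import Pool.Agent.Lib.MP_5854e1_co.Cz.Ky56
import Pool.Agent.Lib.MP_5854e1_co.Cz.Ky57
import Pool.Agent.Lib.MP_5854e1_co.Cz.Ky58
import Pool.Agent.Lib.MP_5854e1_co.Cz.Ky59
import Pool.Agent.Lib.MP_5854e1_co.Cz.Ky61
import Pool.Agent.Lib.MP_5854e1_co.Cz.Ky63
import Pool.Agent.Lib.MP_5854e1_co.Cz.Ky64
import Pool.Agent.Lib.MP_5854e1_co.Cz.Ky65
import Pool.Agent.Lib.MP_5854e1_co.Cz.Ky66
import Pool.Agent.Lib.MP_5854e1_co.Cz.Ky66b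
import Pool.Agent.Lib.MP_5854e1_co.Cz.Ky67
import Pool.Agent.Lib.MP_5854e1_co.Cz.Ky68
import Pool.Agent.Lib.MP_5854e1_co.Cz.Ky69
import Pool.Agent.Lib.MP_5854e1_co.Cz.Ky70
import Pool.Agent.Lib.MP_5854e1_co.Cz.Ky71
import Pool.Agent.Lib.MP_5854e1_co.Cz.Ky72
import Pool.Agent.Lib.MP_5854e1_co.Cz.Ky73
import Pool.Agent.Lib.MP_5854e1_co.Cz.Ky74
import Pool.Agent.Lib.MP_5854e1_co.Cz.Ky75
import Pool.Agent.Lib.MP_5854e1_co.Cz.Ky76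
import Pool.Agent.Lib.MP_5854e1_co.Cz.Ky78
import Pool.Agent.Lib.MP_5854e1_co.Cz.Ky79
import Pool.Agent.Lib.MP_5854e1_co.Cz.Ky80
import Pool.Agent.Lib.MP_5854e1_co.Cz.Ky81
import Pool.Agent.Lib.MP_5854e1_co.Cz.Ky82
import Pool.Agent.Lib.MP_5854e1_co.Cz.Ky83
import Pool.Agent.Lib.MP_5854e1_co.Cz.Ky84b
import Pool.Agent.Lib.MP_5854e1_co.Cz.Ky85
import Pool.Agent.Lib.MP_5854e1_co.Cz.Ky85b
import Pool.Agent.Lib.MP_5854e1_co.Cz.Ky86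
import Pool.Agent.Lib.MP_5854e1_co.Cz.Ky87
import Pool.Agent.Lib.MP_5854e1_co.Cz.Ky88
import Pool.Agent.Lib.MP_5854e1_co.Cz.Ky89
import Pool.Agent.Lib.MP_5854e1_co.Cz.Ky90
import Pool.Agent.Lib.MP_5854e1_co.Cz.Ky91
import Pool.Agent.Lib.MP_5854e1_co.Cz.Ky92
import Pool.Agent.Lib.MP_5854e1_co.Cz.Ky93
import Pool.Agent.Lib.MP_5854e1_co.Cz.Ky94
import Pool.Agent.Lib.MP_5854e1_co.Cz.Ky95
import Pool.Agent.Lib.MP_5854e1_co.Cz.Ky96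
import Pool.Agent.Lib.MP_5854e1_co.Cz.Ky97
import Pool.Agent.Lib.MP_5854e1_co.Cz.Ky98
import Pool.Agent.Lib.MP_5854e1_co.Cz.Ky99
import Pool.Agent.Lib.MP_5854e1_co.Cz.Ky100
import Pool.Agent.Lib.MP_5854e1_co.Cz.Ky101
import Pool.Agent.Lib.MP_5854e1_co.Cz.Ky102
import Pool.Agent.Lib.MP_5854e1_co.Cz.Ky103
import Pool.Agent.Lib.MP_5854e1_co.Cz.Ky104
import Pool.Agent.Lib.MP_5854e1_co.Cz.Ky105
import Pool.Agent.Lib.MP_5854e1_co.Cz.Ky106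
import Pool.Agent.Lib.MP_5854e1_co.Cz.Ky107
import Pool.Agent.Lib.MP_5854e1_co.Cz.Ky108
import Pool.Agent.Lib.MP_5854e1_co.Cz.Ky109
import Pool.Agent.Lib.MP_5854e1_co.Cz.Ky110
import Pool.Agent.Lib.MP_5854e1_co.Cz.Ky111
import Pool.Agent.Lib.MP_5854e1_co.Cz.Ky112
import Pool.Agent.Lib.MP_5854e1_co.Cz.Ky113
import Pool.Agent.Lib.MP_5854e1_co.Cz.Ky114
import Pool.Agent.Lib.MP_5854e1_co.Cz.Ky115
import Pool.Agent.Lib.MP_5854e1_co.Cz.Ky116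
import Pool.Agent.Lib.MP_5854e1_co.Cz.Ky117
import Pool.Agent.Lib.MP_5854e1_co.Cz.Ky118
import Pool.Agent.Lib.MP_5854e1_co.Cz.Ky119
import Pool.Agent.Lib.MP_5854e1_co.Cz.Ky120
import Pool.Agent.Lib.MP_5854e1_co.Cz.Ky121
import Pool.Agent.Lib.MP_5854e1_co.Cz.Ky122
import Pool.Agent.Lib.MP_5854e1_co.Cz.Ky123
import Pool.Agent.Lib.MP_5854e1_co.Cz.Ky126
import Pool.Agent.Lib.MP_5854e1_co.Cz.Ky127
import Pool.Agent.Lib.MP_5854e1_co.Cz.Ky128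
import Pool.Agent.Lib.MP_5854e1_co.Cz.Ky128b
import Pool.Agent.Lib.MP_5854e1_co.Cz.Ky129
import Pool.Agent.Lib.MP_5854e1_co.Cz.Ky130
import Pool.Agent.Lib.MP_5854e1_co.Cz.Ky131
import Pool.Agent.Lib.MP_5854e1_co.Cz.Ky132
import Pool.Agent.Lib.MP_5854e1_co.Cz.Ky133
import Pool.Agent.Lib.MP_5854e1_co.Cz.Ky134
import Pool.Agent.Lib.MP_5854e1_co.Cz.Ky136
import Pool.Agent.Lib.MP_5854e1_co.Cz.Ky137
import Pool.Agent.Lib.MP_5854e1_co.Cz.Ky138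
import Pool.Agent.Lib.MP_5854e1_co.Cz.Ky139
import Pool.Agent.Lib.MP_5854e1_co.Cz.Ky140
import Pool.Agent.Lib.MP_5854e1_co.Cz.Ky141
import Pool.Agent.Lib.MP_5854e1_co.Cz.Ky142
import Pool.Agent.Lib.MP_5854e1_co.Cz.Ky143
import Pool.Agent.Lib.MP_5854e1_co.Cz.Ky146
import Pool.Agent.Lib.MP_5854e1_co.Cz.Ky147
import Pool.Agent.Lib.MP_5854e1_co.Cz.Ky150
import Pool.Agent.Lib.MP_5854e1_co.Cz.Ky151
import Pool.Agent.Lib.MP_5854e1_co.Cz.Ky152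
import Pool.Agent.Lib.MP_5854e1_co.Cz.Ky153
import Pool.Agent.Lib.MP_5854e1_co.Cz.Ky154
import Pool.Agent.Lib.MP_5854e1_co.Cz.Ky155
import Pool.Agent.Lib.MP_5854e1_co.Cz.Ky156
import Pool.Agent.Lib.MP_5854e1_co.Cz.Ky157
import Pool.Agent.Lib.MP_5854e1_co.Cz.Ky159
import Pool.Agent.Lib.MP_5854e1_co.Cz.Ky160
import Pool.Agent.Lib.MP_5854e1_co.Cz.Ky161
import Pool.Agent.Lib.MP_5854e1_co.Cz.Ky162
import Pool.Agent.Lib.MP_5854e1_co.Cz.Ky163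
import Pool.Agent.Lib.MP_5854e1_co.Cz.Ky164
import Pool.Agent.Lib.MP_5854e1_co.Cz.Ky166
import Pool.Agent.Lib.MP_5854e1_co.Cz.Ky168
import Pool.Agent.Lib.MP_5854e1_co.Cz.Ky169
import Pool.Agent.Lib.MP_5854e1_co.Cz.Ky170
import Pool.Agent.Lib.MP_5854e1_co.Cz.Ky172
import Pool.Agent.Lib.MP_5854e1_co.Cz.Ky173
import Pool.Agent.Lib.MP_5854e1_co.Cz.Ky174
import Pool.Agent.Lib.MP_5854e1_co.Cz.Ky175
import Pool.Agent.Lib.MP_5854e1_co.Cz.Ky176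
import Pool.Agent.Lib.MP_5854e1_co.Cz.Ky177
import Pool.Agent.Lib.MP_5854e1_co.Cz.Ky179
import Pool.Agent.Lib.MP_5854e1_co.Cz.Ky180
import Pool.Agent.Lib.MP_5854e1_co.Cz.Ky181
import Pool.Agent.Lib.MP_5854e1_co.Cz.Ky182
import Pool.Agent.Lib.MP_5854e1_co.Cz.Ky183
import Pool.Agent.Lib.MP_5854e1_co.Cz.Ky185
import Pool.Agent.Lib.MP_5854e1_co.Cz.Ky186
import Pool.Agent.Lib.MP_5854e1_co.Cz.Ky187
import Pool.Agent.Lib.MP_5854e1_co.Cz.Ky188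
import Pool.Agent.Lib.MP_5854e1_co.Cz.Ky190
import Pool.Agent.Lib.MP_5854e1_co.Cz.Ky191
import Pool.Agent.Lib.MP_5854e1_co.Cz.Ky192
import Pool.Agent.Lib.MP_5854e1_co.Cz.Ky194
import Pool.Agent.Lib.MP_5854e1_co.Cz.Ky195
import Pool.Agent.Lib.MP_5854e1_co.Cz.Ky196
import Pool.Agent.Lib.MP_5854e1_co.Cz.Ky197
import Pool.Agent.Lib.MP_5854e1_co.Cz.Ky198
import Pool.Agent.Lib.MP_5854e1_co.Cz.Ky199
import Pool.Agent.Lib.MP_5854e1_co.Cz.Ky200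
import Pool.Agent.Lib.MP_5854e1_co.Cz.Ky200b
import Pool.Agent.Lib.MP_5854e1_co.Cz.Ky201
import Pool.Agent.Lib.MP_5854e1_co.Cz.Ky202
import Pool.Agent.Lib.MP_5854e1_co.Cz.Ky203
import Pool.Agent.Lib.MP_5854e1_co.Cz.Ky204
import Pool.Agent.Lib.MP_5854e1_co.Cz.Ky205
import Pool.Agent.Lib.MP_5854e1_co.Cz.Ky206
import Pool.Agent.Lib.MP_5854e1_co.Cz.Ky207
import Pool.Agent.Lib.MP_5854e1_co.Cz.Ky209
import Pool.Agent.Lib.MP_5854e1_co.Cz.Ky210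
import Pool.Agent.Lib.MP_5854e1_co.Cz.Ky211
import Pool.Agent.Lib.MP_5854e1_co.Cz.Ky212
import Pool.Agent.Lib.MP_5854e1_co.Cz.Ky213
import Pool.Agent.Lib.MP_5854e1_co.Cz.Ky214
import Pool.Agent.Lib.MP_5854e1_co.Cz.Ky215
import Pool.Agent.Lib.MP_5854e1_co.Cz.Ky216
import Pool.Agent.Lib.MP_5854e1_co.Cz.Ky218b
import Pool.Agent.Lib.MP_5854e1_co.Cz.Ky219
import Pool.Agent.Lib.MP_5854e1_co.Cz.Ky220
import Pool.Agent.Lib.MP_5854e1_co.Cz.Ky221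
import Pool.Agent.Lib.MP_5854e1_co.Cz.Ky222
import Pool.Agent.Lib.MP_5854e1_co.Cz.Ky222b
import Pool.Agent.Lib.MP_5854e1_co.Cz.Ky223
import Pool.Agent.Lib.MP_5854e1_co.Cz.Ky225
import Pool.Agent.Lib.MP_5854e1_co.Cz.Ky226
import Pool.Agent.Lib.MP_5854e1_co.Cz.Ky227
import Pool.Agent.Lib.MP_5854e1_co.Cz.Ky232
import Pool.Agent.Lib.MP_5854e1_co.Cz.Ky233
import Pool.Agent.Lib.MP_5854e1_co.Cz.Ky234
import Pool.Agent.Lib.MP_5854e1_co.Cz.Ky235b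
import Pool.Agent.Lib.MP_5854e1_co.Cz.Ky236
import Pool.Agent.Lib.MP_5854e1_co.Cz.Ky239
import Pool.Agent.Lib.MP_5854e1_co.Cz.Ky240
import Pool.Agent.Lib.MP_5854e1_co.Cz.Ky241
import Pool.Agent.Lib.MP_5854e1_co.Cz.Ky243
import Pool.Agent.Lib.MP_5854e1_co.Cz.Ky244
import Pool.Agent.Lib.MP_5854e1_co.Cz.Ky245
import Pool.Agent.Lib.MP_5854e1_co.Cz.Ky247
import Pool.Agent.Lib.MP_5854e1_co.Cz.Ky247b
import Pool.Agent.Lib.MP_5854e1_co.Cz.Ky248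
import Pool.Agent.Lib.MP_5854e1_co.Cz.Ky249
import Pool.Agent.Lib.MP_5854e1_co.Cz.Ky250
import Pool.Agent.Lib.MP_5854e1_co.Cz.Ky251
import Pool.Agent.Lib.MP_5854e1_co.Cz.Ky252
import Pool.Agent.Lib.MP_5854e1_co.Cz.Ky255
import Pool.Agent.Lib.MP_5854e1_co.Cz.Ky256
import Pool.Agent.Lib.MP_5854e1_co.Cz.Ky257
import Pool.Agent.Lib.MP_5854e1_co.Cz.Ky258
import Pool.Agent.Lib.MP_5854e1_co.Cz.Ky259
import Pool.Agent.Lib.MP_5854e1_co.Cz.Ky262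
import Pool.Agent.Lib.MP_5854e1_co.Cz.Ky264
import Pool.Agent.Lib.MP_5854e1_co.Cz.Ky265
import Pool.Agent.Lib.MP_5854e1_co.Cz.Ky266
import Pool.Agent.Lib.MP_5854e1_co.Cz.Ky269
import Pool.Agent.Lib.MP_5854e1_co.Cz.Ky270
import Pool.Agent.Lib.MP_5854e1_co.Cz.Ky271
import Pool.Agent.Lib.MP_5854e1_co.Cz.Ky272
import Pool.Agent.Lib.MP_5854e1_co.Cz.Ky273
import Pool.Agent.Lib.MP_5854e1_co.Cz.Ky279
import Pool.Agent.Lib.MP_5854e1_co.Cz.Ky280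
import Pool.Agent.Lib.MP_5854e1_co.Cz.Ky280b
import Pool.Agent.Lib.MP_5854e1_co.Cz.Ky281
import Pool.Agent.Lib.MP_5854e1_co.Cz.Ky282
import Pool.Agent.Lib.MP_5854e1_co.Cz.Ky284
import Pool.Agent.Lib.MP_5854e1_co.Cz.Ky285
import Pool.Agent.Lib.MP_5854e1_co.Cz.Ky286
import Pool.Agent.Lib.MP_5854e1_co.Cz.Ky288
import Pool.Agent.Lib.MP_5854e1_co.Cz.Ky289
import Pool.Agent.Lib.MP_5854e1_co.Cz.Ky290
import Pool.Agent.Lib.MP_5854e1_co.Cz.Ky291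
import Pool.Agent.Lib.MP_5854e1_co.Cz.Ky292b
import Pool.Agent.Lib.MP_5854e1_co.Cz.Ky293
import Pool.Agent.Lib.MP_5854e1_co.Cz.Ky294
import Pool.Agent.Lib.MP_5854e1_co.Cz.Ky295
import Pool.Agent.Lib.MP_5854e1_co.Cz.Ky297
import Pool.Agent.Lib.MP_5854e1_co.Cz.Ky298
import Pool.Agent.Lib.MP_5854e1_co.Cz.Ky299
import Pool.Agent.Lib.MP_5854e1_co.Cz.Ky301
import Pool.Agent.Lib.MP_5854e1_co.Cz.Ky302
import Pool.Agent.Lib.MP_5854e1_co.Cz.Ky303b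
import Pool.Agent.Lib.MP_5854e1_co.Cz.Ky304
import Pool.Agent.Lib.MP_5854e1_co.Cz.Ky306
import Pool.Agent.Lib.MP_5854e1_co.Cz.Ky307
import Pool.Agent.Lib.MP_5854e1_co.Cz.Ky308b
import Pool.Agent.Lib.MP_5854e1_co.Cz.Ky309
import Pool.Agent.Lib.MP_5854e1_co.Cz.Ky311
import Pool.Agent.Lib.MP_5854e1_co.Cz.Ky313
import Pool.Agent.Lib.MP_5854e1_co.Cz.Ky314
import Pool.Agent.Lib.MP_5854e1_co.Cz.Ky315
import Pool.Agent.Lib.MP_5854e1_co.Cz.Ky319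
import Pool.Agent.Lib.MP_5854e1_co.Cz.Ky320
import Pool.Agent.Lib.MP_5854e1_co.Cz.Ky326
import Pool.Agent.Lib.MP_5854e1_co.Cz.Ky327
import Pool.Agent.Lib.MP_5854e1_co.Cz.Ky328
import Pool.Agent.Lib.MP_5854e1_co.Cz.Ky329
import Pool.Agent.Lib.MP_5854e1_co.Cz.Ky329b
import Pool.Agent.Lib.MP_5854e1_co.Cz.Ky330
import Pool.Agent.Lib.MP_5854e1_co.Cz.Ky331
import Pool.Agent.Lib.MP_5854e1_co.Cz.Ky333
import Pool.Agent.Lib.MP_5854e1_co.Cz.Ky334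
import Pool.Agent.Lib.MP_5854e1_co.Cz.Ky335
import Pool.Agent.Lib.MP_5854e1_co.Cz.Ky337
import Pool.Agent.Lib.MP_5854e1_co.Cz.Ky338
import Pool.Agent.Lib.MP_5854e1_co.Cz.Ky339
import Pool.Agent.Lib.MP_5854e1_co.Cz.Ky341
import Pool.Agent.Lib.MP_5854e1_co.Cz.Ky342
import Pool.Agent.Lib.MP_5854e1_co.Cz.Ky343
import Pool.Agent.Lib.MP_5854e1_co.Cz.Ky344
import Pool.Agent.Lib.MP_5854e1_co.Cz.Ky346
import Pool.Agent.Lib.MP_5854e1_co.Cz.Ky349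
import Pool.Agent.Lib.MP_5854e1_co.Cz.Ky350
import Pool.Agent.Lib.MP_5854e1_co.Cz.Ky351
import Pool.Agent.Lib.MP_5854e1_co.Cz.Ky352
import Pool.Agent.Lib.MP_5854e1_co.Cz.Ky354
import Pool.Agent.Lib.MP_5854e1_co.Cz.Ky356
import Pool.Agent.Lib.MP_5854e1_co.Cz.Ky357
import Pool.Agent.Lib.MP_5854e1_co.Cz.Ky358
import Pool.Agent.Lib.MP_5854e1_co.Cz.Ky359
import Pool.Agent.Lib.MP_5854e1_co.Cz.Ky360b
import Pool.Agent.Lib.MP_5854e1_co.Cz.Ky361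
import Pool.Agent.Lib.MP_5854e1_co.Cz.Ky364
import Pool.Agent.Lib.MP_5854e1_co.Cz.Ky365
import Pool.Agent.Lib.MP_5854e1_co.Cz.Ky368
import Pool.Agent.Lib.MP_5854e1_co.Cz.Ky369
import Pool.Agent.Lib.MP_5854e1_co.Cz.Ky371
import Pool.Agent.Lib.MP_5854e1_co.Cz.Ky372
import Pool.Agent.Lib.MP_5854e1_co.Cz.Ky373
import Pool.Agent.Lib.MP_5854e1_co.Cz.Ky374
import Pool.Agent.Lib.MP_5854e1_co.Cz.Ky375
import Pool.Agent.Lib.MP_5854e1_co.Cz.Ky376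
import Pool.Agent.Lib.MP_5854e1_co.Cz.Ky377
import Pool.Agent.Lib.MP_5854e1_co.Cz.Ky378
import Pool.Agent.Lib.MP_5854e1_co.Cz.Ky380
import Pool.Agent.Lib.MP_5854e1_co.Cz.Ky381
import Pool.Agent.Lib.MP_5854e1_co.Cz.Ky382
import Pool.Agent.Lib.MP_5854e1_co.Cz.Ky383
import Pool.Agent.Lib.MP_5854e1_co.Cz.Ky386
import Pool.Agent.Lib.MP_5854e1_co.Cz.Ky387
import Pool.Agent.Lib.MP_5854e1_co.Cz.Ky388
import Pool.Agent.Lib.MP_5854e1_co.Cz.Ky388c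
import Pool.Agent.Lib.MP_5854e1_co.Cz.Ky389
import Pool.Agent.Lib.MP_5854e1_co.Cz.Ky391
import Pool.Agent.Lib.MP_5854e1_co.Cz.Ky394
import Pool.Agent.Lib.MP_5854e1_co.Cz.Ky395
import Pool.Agent.Lib.MP_5854e1_co.Cz.Ky396
import Pool.Agent.Lib.MP_5854e1_co.Cz.Ky398
import Pool.Agent.Lib.MP_5854e1_co.Cz.Ky400
import Pool.Agent.Lib.MP_5854e1_co.Cz.Ky401
import Pool.Agent.Lib.MP_5854e1_co.Cz.Ky405
import Pool.Agent.Lib.MP_5854e1_co.Cz.Ky407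
import Pool.Agent.Lib.MP_5854e1_co.Cz.Ky409
import Pool.Agent.Lib.MP_5854e1_co.Cz.Ky410
import Pool.Agent.Lib.MP_5854e1_co.Cz.Ky411
import Pool.Agent.Lib.MP_5854e1_co.Cz.Ky412
import Pool.Agent.Lib.MP_5854e1_co.Cz.Ky413
import Pool.Agent.Lib.MP_5854e1_co.Cz.Ky414
import Pool.Agent.Lib.MP_5854e1_co.Cz.Ky415
import Pool.Agent.Lib.MP_5854e1_co.Cz.Ky420
import Pool.Agent.Lib.MP_5854e1_co.Cz.Ky423
import Pool.Agent.Lib.MP_5854e1_co.Cz.Ky424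
import Pool.Agent.Lib.MP_5854e1_co.Cz.Ky425
import Pool.Agent.Lib.MP_5854e1_co.Cz.Ky426
import Pool.Agent.Lib.MP_5854e1_co.Cz.Ky427
import Pool.Agent.Lib.MP_5854e1_co.Cz.Ky429
import Pool.Agent.Lib.MP_5854e1_co.Cz.Ky429b
import Pool.Agent.Lib.MP_5854e1_co.Cz.Ky430b
import Pool.Agent.Lib.MP_5854e1_co.Cz.Ky431
import Pool.Agent.Lib.MP_5854e1_co.Cz.Ky432
import Pool.Agent.Lib.MP_5854e1_co.Cz.Ky433
import Pool.Agent.Lib.MP_5854e1_co.Cz.Ky434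
import Pool.Agent.Lib.MP_5854e1_co.Cz.Ky435
import Pool.Agent.Lib.MP_5854e1_co.Cz.Ky436
import Pool.Agent.Lib.MP_5854e1_co.Cz.Ky437
import Pool.Agent.Lib.MP_5854e1_co.Cz.Ky439
import Pool.Agent.Lib.MP_5854e1_co.Cz.Ky440
import Pool.Agent.Lib.MP_5854e1_co.Cz.Ky441
import Pool.Agent.Lib.MP_5854e1_co.Cz.Ky442b
import Pool.Agent.Lib.MP_5854e1_co.Cz.Ky443
import Pool.Agent.Lib.MP_5854e1_co.Cz.Ky444
import Pool.Agent.Lib.MP_5854e1_co.Cz.Ky445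
import Pool.Agent.Lib.MP_5854e1_co.Cz.Ky449
import Pool.Agent.Lib.MP_5854e1_co.Cz.Ky452
import Pool.Agent.Lib.MP_5854e1_co.Cz.Ky453b
import Pool.Agent.Lib.MP_5854e1_co.Cz.Ky454
import Pool.Agent.Lib.MP_5854e1_co.Cz.Ky455
import Pool.Agent.Lib.MP_5854e1_co.Cz.Ky456
import Pool.Agent.Lib.MP_5854e1_co.Cz.Ky457
import Pool.Agent.Lib.MP_5854e1_co.Cz.Ky461
import Pool.Agent.Lib.MP_5854e1_co.Cz.Ky462
import Pool.Agent.Lib.MP_5854e1_co.Cz.Ky465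
import Pool.Agent.Lib.MP_5854e1_co.Cz.Ky466
import Pool.Agent.Lib.MP_5854e1_co.Cz.Ky467
import Pool.Agent.Lib.MP_5854e1_co.Cz.Ky468
import Pool.Agent.Lib.MP_5854e1_co.Cz.Ky469
import Pool.Agent.Lib.MP_5854e1_co.Cz.Ky470
import Pool.Agent.Lib.MP_5854e1_co.Cz.Ky471
import Pool.Agent.Lib.MP_5854e1_co.Cz.Ky472
import Pool.Agent.Lib.MP_5854e1_co.Cz.Ky473
import Pool.Agent.Lib.MP_5854e1_co.Cz.Ky474
import Pool.Agent.Lib.MP_5854e1_co.Cz.Ky475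
import Pool.Agent.Lib.MP_5854e1_co.Cz.Ky476
import Pool.Agent.Lib.MP_5854e1_co.Cz.Ky477
import Pool.Agent.Lib.MP_5854e1_co.Cz.Ky478
import Pool.Agent.Lib.MP_5854e1_co.Cz.Ky479
import Pool.Agent.Lib.MP_5854e1_co.Cz.Ky480
import Pool.Agent.Lib.MP_5854e1_co.Cz.Ky481
import Pool.Agent.Lib.MP_5854e1_co.Cz.Ky486
import Pool.Agent.Lib.MP_5854e1_co.Cz.Ky487
import Pool.Agent.Lib.MP_5854e1_co.Cz.Ky488
import Pool.Agent.Lib.MP_5854e1_co.Cz.Ky488b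
import Pool.Agent.Lib.MP_5854e1_co.Cz.Ky488c
import Pool.Agent.Lib.MP_5854e1_co.Cz.Ky490
import Pool.Agent.Lib.MP_5854e1_co.Cz.Ky491
import Pool.Agent.Lib.MP_5854e1_co.Cz.Ky492
import Pool.Agent.Lib.MP_5854e1_co.Cz.Ky493
import Pool.Agent.Lib.MP_5854e1_co.Cz.Ky494
import Pool.Agent.Lib.MP_5854e1_co.Cz.Ky495
import Pool.Agent.Lib.MP_5854e1_co.Cz.Ky496
import Pool.Agent.Lib.MP_5854e1_co.Cz.Ky497
import Pool.Agent.Lib.MP_5854e1_co.Cz.Ky498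
import Pool.Agent.Lib.MP_5854e1_co.Cz.Ky500
import Pool.Agent.Lib.MP_5854e1_co.Cz.Ky504
import Pool.Agent.Lib.MP_5854e1_co.Cz.Ky504b
import Pool.Agent.Lib.MP_5854e1_co.Cz.Ky505
import Pool.Agent.Lib.MP_5854e1_co.Cz.Ky505b
import Pool.Agent.Lib.MP_5854e1_co.Cz.Ky507
import Pool.Agent.Lib.MP_5854e1_co.Cz.Ky508
import Pool.Agent.Lib.MP_5854e1_co.Cz.Ky509
import Pool.Agent.Lib.MP_5854e1_co.Cz.Ky511
import Pool.Agent.Lib.MP_5854e1_co.Cz.Ky512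
import Pool.Agent.Lib.MP_5854e1_co.Cz.Ky513
import Pool.Agent.Lib.MP_5854e1_co.Cz.Ky514
import Pool.Agent.Lib.MP_5854e1_co.Cz.Ky515
import Pool.Agent.Lib.MP_5854e1_co.Cz.Ky516
import Pool.Agent.Lib.MP_5854e1_co.Cz.Ky517
import Pool.Agent.Lib.MP_5854e1_co.Cz.Ky520
import Pool.Agent.Lib.MP_5854e1_co.Cz.Ky521
import Pool.Agent.Lib.MP_5854e1_co.Cz.Ky522
import Pool.Agent.Lib.MP_5854e1_co.Cz.Ky523
import Pool.Agent.Lib.MP_5854e1_co.Cz.Ky525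
import Pool.Agent.Lib.MP_5854e1_co.Cz.Ky527
import Pool.Agent.Lib.MP_5854e1_co.Cz.Ky529
import Pool.Agent.Lib.MP_5854e1_co.Cz.Ky530
import Pool.Agent.Lib.MP_5854e1_co.Cz.Ky532
import Pool.Agent.Lib.MP_5854e1_co.Cz.Ky534
import Pool.Agent.Lib.MP_5854e1_co.Cz.Ky536
import Pool.Agent.Lib.MP_5854e1_co.Cz.Ky538
import Pool.Agent.Lib.MP_5854e1_co.Cz.Ky540
import Pool.Agent.Lib.MP_5854e1_co.Cz.Ky541
import Pool.Agent.Lib.MP_5854e1_co.Cz.Ky542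
import Pool.Agent.Lib.MP_5854e1_co.Cz.Ky543
import Pool.Agent.Lib.MP_5854e1_co.Cz.Ky544
import Pool.Agent.Lib.MP_5854e1_co.Cz.Ky545
import Pool.Agent.Lib.MP_5854e1_co.Cz.Ky547
import Pool.Agent.Lib.MP_5854e1_co.Cz.Ky548
import Pool.Agent.Lib.MP_5854e1_co.Cz.Ky549
import Pool.Agent.Lib.MP_5854e1_co.Cz.Ky550
import Pool.Agent.Lib.MP_5854e1_co.Cz.Ky551
import Pool.Agent.Lib.MP_5854e1_co.Cz.Ky554
import Pool.Agent.Lib.MP_5854e1_co.Cz.Ky555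
import Pool.Agent.Lib.MP_5854e1_co.Cz.Ky556
import Pool.Agent.Lib.MP_5854e1_co.Cz.Ky559
import Pool.Agent.Lib.MP_5854e1_co.Cz.Ky560
import Pool.Agent.Lib.MP_5854e1_co.Cz.Ky561
import Pool.Agent.Lib.MP_5854e1_co.Cz.Ky562
import Pool.Agent.Lib.MP_5854e1_co.Cz.Ky563
import Pool.Agent.Lib.MP_5854e1_co.Cz.Ky565
import Pool.Agent.Lib.MP_5854e1_co.Cz.Ky566
import Pool.Agent.Lib.MP_5854e1_co.Cz.Ky567
import Pool.Agent.Lib.MP_5854e1_co.Cz.Ky568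
import Pool.Agent.Lib.MP_5854e1_co.Cz.Ky569
import Pool.Agent.Lib.MP_5854e1_co.Cz.Ky570
import Pool.Agent.Lib.MP_5854e1_co.Cz.Ky571
import Pool.Agent.Lib.MP_5854e1_co.Cz.Ky573
import Pool.Agent.Lib.MP_5854e1_co.Cz.Ky574
import Pool.Agent.Lib.MP_5854e1_co.Cz.Ky574b
import Pool.Agent.Lib.MP_5854e1_co.Cz.Ky577
import Pool.Agent.Lib.MP_5854e1_co.Cz.Ky578
import Pool.Agent.Lib.MP_5854e1_co.Cz.Ky579
import Pool.Agent.Lib.MP_5854e1_co.Cz.Ky582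
import Pool.Agent.Lib.MP_5854e1_co.Cz.Ky584
import Pool.Agent.Lib.MP_5854e1_co.Cz.Ky587
import Pool.Agent.Lib.MP_5854e1_co.Cz.Ky589
import Pool.Agent.Lib.MP_5854e1_co.Cz.Ky590
import Pool.Agent.Lib.MP_5854e1_co.Cz.Ky591
import Pool.Agent.Lib.MP_5854e1_co.Cz.Ky591b
import Pool.Agent.Lib.MP_5854e1_co.Cz.Ky592
import Pool.Agent.Lib.MP_5854e1_co.Cz.Ky593
import Pool.Agent.Lib.MP_5854e1_co.Cz.Ky595
import Pool.Agent.Lib.MP_5854e1_co.Cz.Ky596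
import Pool.Agent.Lib.MP_5854e1_co.Cz.Ky598
import Pool.Agent.Lib.MP_5854e1_co.Cz.Ky599
import Pool.Agent.Lib.MP_5854e1_co.Cz.Ky600
import Pool.Agent.Lib.MP_5854e1_co.Cz.Ky602
import Pool.Agent.Lib.MP_5854e1_co.Cz.Ky607
import Pool.Agent.Lib.MP_5854e1_co.Cz.Ky611
import Pool.Agent.Lib.MP_5854e1_co.Cz.Ky611b
import Pool.Agent.Lib.MP_5854e1_co.Cz.Ky613
import Pool.Agent.Lib.MP_5854e1_co.Cz.Ky614
import Pool.Agent.Lib.MP_5854e1_co.Cz.Ky618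
import Pool.Agent.Lib.MP_5854e1_co.Cz.Ky630
import Pool.Agent.Lib.MP_5854e1_co.Cz.Ky633
import Pool.Agent.Lib.MP_5854e1_co.Cz.Ky637
import Pool.Agent.Lib.MP_5854e1_co.Cz.Ky639
import Pool.Agent.Lib.MP_5854e1_co.Cz.Ky640
import Pool.Agent.Lib.MP_5854e1_co.Cz.Ky646
import Pool.Agent.Lib.MP_5854e1_co.Cz.Ky648
import Pool.Agent.Lib.MP_5854e1_co.Cz.Ky650
import Pool.Agent.Lib.MP_5854e1_co.Cz.Kf000
import Pool.Agent.Lib.MP_5854e1_co.Cz.Kf001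
import Pool.Agent.Lib.MP_5854e1_co.Cz.Kf002
import Pool.Agent.Lib.MP_5854e1_co.Cz.Kf004
import Pool.Agent.Lib.MP_5854e1_co.Cz.Kf005
import Pool.Agent.Lib.MP_5854e1_co.Cz.Kf007
import Pool.Agent.Lib.MP_5854e1_co.Cz.Kf009
import Pool.Agent.Lib.MP_5854e1_co.Cz.Kf010
import Pool.Agent.Lib.MP_5854e1_co.Cz.Kf011
import Pool.Agent.Lib.MP_5854e1_co.Cz.Kf012
import Pool.Agent.Lib.MP_5854e1_co.Cz.Kf013
import Pool.Agent.Lib.MP_5854e1_co.Cz.Kf014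
import Pool.Agent.Lib.MP_5854e1_co.Cz.Kf015
import Pool.Agent.Lib.MP_5854e1_co.Cz.Kf022
import Pool.Agent.Lib.MP_5854e1_co.Cz.Kf023
import Pool.Agent.Lib.MP_5854e1_co.Cz.Kf027
import Pool.Agent.Lib.MP_5854e1_co.Cz.Kf029
import Pool.Agent.Lib.MP_5854e1_co.Cz.Kf032
import Pool.Agent.Lib.MP_5854e1_co.Cz.Kf035
import Pool.Agent.Lib.MP_5854e1_co.Cz.Kf037
import Pool.Agent.Lib.MP_5854e1_co.Cz.Kf048
import Pool.Agent.Lib.MP_5854e1_co.Cz.Kf049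
import Pool.Agent.Lib.MP_5854e1_co.Cz.Kf050
import Pool.Agent.Lib.MP_5854e1_co.Cz.Kf056
import Pool.Agent.Lib.MP_5854e1_co.Cz.Kf061
import Pool.Agent.Lib.MP_5854e1_co.Cz.Kf063
import Pool.Agent.Lib.MP_5854e1_co.Cz.Kf071
import Pool.Agent.Lib.MP_5854e1_co.Cz.Kf078
import Pool.Agent.Lib.MP_5854e1_co.Cz.Kf085
import Pool.Agent.Lib.MP_5854e1_co.Cz.Kf087
import Pool.Agent.Lib.MP_5854e1_co.Cz.Kf127

/-!
# The checks of the tables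
-/

set_option autoImplicit false
set_option maxRecDepth 100000
set_option deprecated.oldSectionVars true

namespace Pool.Agent.Lib.MP_5854e1_co.Cz

open Pool.Agent.Lib.MP_5854e1_co PB

theorem del : ∀ k < 101, ∀ o < optN k, stH PT.D spT PT.ps Cz.tt rtT k o = true :=
  AP.pairs_of_parts (L := [kdu0, kdu1, kdu2, kdu3, kdu4, kdu5, kdu6, kdu7, kdu8, kdu9, kdu10, kdu11, kdu12, kdu13, kdu14, kdu15, kdu16, kdu17, kdu18, kdu19, kdu20, kdu21, kdu22, kdu23, kdu24, kdu25, kdu26, kdu27, kdu28, kdu29, kdu30, kdu31, kdu32, kdu33, kdu34, kdu35, kdu36, kdu37, kdu38, kdu39, kdu40, kdu41, kdu42, kdu43, kdu44, kdu45, kdu46, kdu47, kdu48, kdu49, kdu50, kdu51, kdu52, kdu53, kdu54, kdu55, kdu56, kdu57, kdu58, kdu59, kdu60, kdu61]) (List.forall_mem_cons.2 ⟨kd0, (List.forall_mem_cons.2 ⟨kd1, (List.forall_mem_cons.2 ⟨kd2, (List.forall_mem_cons.2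 ⟨kd3, (List.forall_mem_cons.2 ⟨kd4, (List.forall_mem_cons.2 ⟨kd5, (List.forall_mem_cons.2 ⟨kd6, (List.forall_mem_cons.2 ⟨kd7, (List.forall_mem_cons.2 ⟨kd8, (List.forall_mem_cons.2 ⟨kd9, (List.forall_mem_cons.2 ⟨kd10, (List.forall_mem_cons.2 ⟨kd11, (List.forall_mem_cons.2 ⟨kd12, (List.forall_mem_cons.2 ⟨kd13, (List.forall_mem_cons.2 ⟨kd14, (List.forall_mem_cons.2 ⟨kd15, (List.forall_mem_cons.2 ⟨kd16, (List.forall_mem_cons.2 ⟨kd17, (List.forall_mem_cons.2 ⟨kd18, (List.forall_mem_cons.2 ⟨kd19, (List.forall_mem_cons.2 ⟨kd20, (List.forall_mem_cons.2 ⟨kd21, (List.forall_mem_cons.2 ⟨kd22, (List.forall_mem_cons.2 ⟨kd23, (List.forall_mem_cons.2 ⟨kd24, (List.forall_mem_cons.2 ⟨kd25, (List.forall_mem_cons.2 ⟨kd26, (List.forall_mem_cons.2 ⟨kd27, (List.forall_mem_cons.2 ⟨kd28, (List.forall_mem_cons.2 ⟨kd29, (List.forall_mem_cons.2 ⟨kd30,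 (List.forall_mem_cons.2 ⟨kd31, (List.forall_mem_cons.2 ⟨kd32, (List.forall_mem_cons.2 ⟨kd33, (List.forall_mem_cons.2 ⟨kd34, (List.forall_mem_cons.2 ⟨kd35, (List.forall_mem_cons.2 ⟨kd36, (List.forall_mem_cons.2 ⟨kd37, (List.forall_mem_cons.2 ⟨kd38, (List.forall_mem_cons.2 ⟨kd39, (List.forall_mem_cons.2 ⟨kd40, (List.forall_mem_cons.2 ⟨kd41, (List.forall_mem_cons.2 ⟨kd42, (List.forall_mem_cons.2 ⟨kd43, (List.forall_mem_cons.2 ⟨kd44, (List.forall_mem_cons.2 ⟨kd45, (List.forall_mem_cons.2 ⟨kd46, (List.forall_mem_cons.2 ⟨kd47, (List.forall_mem_cons.2 ⟨kd48, (List.forall_mem_cons.2 ⟨kd49, (List.forall_mem_cons.2 ⟨kd50, (List.forall_mem_cons.2 ⟨kd51, (List.forall_mem_cons.2 ⟨kd52, (List.forall_mem_cons.2 ⟨kd53, (List.forall_mem_cons.2 ⟨kd54, (List.forall_mem_cons.2 ⟨kd55, (List.forall_mem_cons.2 ⟨kd56, (List.forall_mem_cons.2 ⟨kd57,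 (List.forall_mem_cons.2 ⟨kd58, (List.forall_mem_cons.2 ⟨kd59, (List.forall_mem_cons.2 ⟨kd60, (List.forall_mem_cons.2 ⟨kd61, List.forall_mem_nil _⟩)⟩)⟩)⟩)⟩)⟩)⟩)⟩)⟩)⟩)⟩)⟩)⟩)⟩)⟩)⟩)⟩)⟩)⟩)⟩)⟩)⟩)⟩)⟩)⟩)⟩)⟩)⟩)⟩)⟩)⟩)⟩)⟩)⟩)⟩)⟩)⟩)⟩)⟩)⟩)⟩)⟩)⟩)⟩)⟩)⟩)⟩)⟩)⟩)⟩)⟩)⟩)⟩)⟩)⟩)⟩)⟩)⟩)⟩)⟩)⟩)⟩) (by decide +kernel)

theorem wps : ∀ k < 101, ∀ o < optN k, wH spT PT.ps rtT Cz.tw k o = true :=
  AP.pairs_of_parts (L := [kwu0, kwu1, kwu2, kwu3, kwu4, kwu5]) (List.forall_mem_cons.2 ⟨kw0, (List.forall_mem_cons.2 ⟨kw1, (List.forall_mem_cons.2 ⟨kw2, (List.forall_mem_cons.2 ⟨kw3, (List.forall_mem_cons.2 ⟨kw4, (List.forall_mem_cons.2 ⟨kw5, List.forall_mem_nil _⟩)⟩)⟩)⟩)⟩)⟩) (by decide +kernel)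

theorem symD : ∀ k < 101, ∀ o < optN k, sH Cz.tt k o = true :=
  AP.pairs_of_parts (L := [ksu0, ksu1, ksu2, ksu3, ksu4, ksu5, ksu6, ksu7, ksu8, ksu9, ksu10, ksu11, ksu12, ksu13, ksu14, ksu15, ksu16, ksu17, ksu18, ksu19, ksu20, ksu21, ksu22, ksu23, ksu24, ksu25, ksu26, ksu27]) (List.forall_mem_cons.2 ⟨ks0, (List.forall_mem_cons.2 ⟨ks1, (List.forall_mem_cons.2 ⟨ks2, (List.forall_mem_cons.2 ⟨ks3, (List.forall_mem_cons.2 ⟨ks4, (List.forall_mem_cons.2 ⟨ks5, (List.forall_mem_cons.2 ⟨ks6, (List.forall_mem_cons.2 ⟨ks7, (List.forall_mem_cons.2 ⟨ks8, (List.forall_mem_cons.2 ⟨ks9, (List.forall_mem_cons.2 ⟨ks10, (List.forall_mem_cons.2 ⟨ks11, (List.forall_mem_cons.2 ⟨ks12, (List.forall_mem_cons.2 ⟨ks13, (List.forall_mem_cons.2 ⟨ks14, (List.forall_mem_cons.2 ⟨ks15, (List.forall_mem_cons.2 ⟨ks16, (List.forall_mem_cons.2 ⟨ks17, (List.forall_mem_cons.2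 ⟨ks18, (List.forall_mem_cons.2 ⟨ks19, (List.forall_mem_cons.2 ⟨ks20, (List.forall_mem_cons.2 ⟨ks21, (List.forall_mem_cons.2 ⟨ks22, (List.forall_mem_cons.2 ⟨ks23, (List.forall_mem_cons.2 ⟨ks24, (List.forall_mem_cons.2 ⟨ks25, (List.forall_mem_cons.2 ⟨ks26, (List.forall_mem_cons.2 ⟨ks27, List.forall_mem_nil _⟩)⟩)⟩)⟩)⟩)⟩)⟩)⟩)⟩)⟩)⟩)⟩)⟩)⟩)⟩)⟩)⟩)⟩)⟩)⟩)⟩)⟩)⟩)⟩)⟩)⟩)⟩)⟩) (by decide +kernel)

theorem symW : ∀ k < 101, ∀ o < optN k, sH Cz.tw k o = true :=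
  AP.pairs_of_parts (L := [kvu0, kvu1, kvu2, kvu3, kvu4, kvu5, kvu6, kvu7, kvu8, kvu9, kvu10, kvu11, kvu12, kvu13, kvu14, kvu15, kvu16, kvu17, kvu18, kvu19, kvu20, kvu21, kvu22, kvu23, kvu24]) (List.forall_mem_cons.2 ⟨kv0, (List.forall_mem_cons.2 ⟨kv1, (List.forall_mem_cons.2 ⟨kv2, (List.forall_mem_cons.2 ⟨kv3, (List.forall_mem_cons.2 ⟨kv4, (List.forall_mem_cons.2 ⟨kv5, (List.forall_mem_cons.2 ⟨kv6, (List.forall_mem_cons.2 ⟨kv7, (List.forall_mem_cons.2 ⟨kv8, (List.forall_mem_cons.2 ⟨kv9, (List.forall_mem_cons.2 ⟨kv10, (List.forall_mem_cons.2 ⟨kv11, (List.forall_mem_cons.2 ⟨kv12, (List.forall_mem_cons.2 ⟨kv13, (List.forall_mem_cons.2 ⟨kv14, (List.forall_mem_cons.2 ⟨kv15, (List.forall_mem_cons.2 ⟨kv16, (List.forall_mem_cons.2 ⟨kv17, (List.forall_mem_cons.2 ⟨kv18, (List.forall_mem_cons.2 ⟨kv19, (List.forall_mem_cons.2 ⟨kv20,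 (List.forall_mem_cons.2 ⟨kv21, (List.forall_mem_cons.2 ⟨kv22, (List.forall_mem_cons.2 ⟨kv23, (List.forall_mem_cons.2 ⟨kv24, List.forall_mem_nil _⟩)⟩)⟩)⟩)⟩)⟩)⟩)⟩)⟩)⟩)⟩)⟩)⟩)⟩)⟩)⟩)⟩)⟩)⟩)⟩)⟩)⟩)⟩)⟩)⟩) (by decide +kernel)

theorem quad : ∀ k < 101, ∀ o ≤ k, qPair PT.q (nat_lit 14) (nat_lit 16384) (nat_lit 4398046511104) (nat_lit 19664) k o = true :=
  AP.pairs_of_parts' (L := [kqu0, kqu1, kqu2, kqu3, kqu4, kqu5, kqu6, kqu7, kqu8, kqu9, kqu10, kqu11, kqu12, kqu13, kqu14, kqu15, kqu16, kqu17, kqu18, kqu19, kqu20, kqu21, kqu22, kqu23, kqu24, kqu25, kqu26, kqu27, kqu28, kqu29, kqu30, kqu31, kqu32, kqu33, kqu34, kqu35, kqu36, kqu37, kqu38, kqu39, kqu40, kqu41, kqu42, kqu43, kqu44, kqu45, kqu46, kqu47, kqu48, kqu49, kqu50, kqu51, kqu52, kqu53, kqu54, kqu55, kqu56, kqu57, kqu58, kqu59, kqu60, kqu61, kqu62, kqu63, kqu64, kqu65, kqu66,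 kqu67, kqu68, kqu69, kqu70, kqu71, kqu72, kqu73, kqu74, kqu75, kqu76, kqu77, kqu78, kqu79, kqu80, kqu81, kqu82, kqu83, kqu84, kqu85, kqu86, kqu87, kqu88, kqu89, kqu90, kqu91, kqu92, kqu93, kqu94, kqu95, kqu96, kqu97, kqu98, kqu99, kqu100, kqu101, kqu102, kqu103, kqu104, kqu105, kqu106, kqu107, kqu108, kqu109, kqu110, kqu111, kqu112, kqu113, kqu114, kqu115, kqu116, kqu117, kqu118, kqu119, kqu120, kqu121, kqu122]) (List.forall_mem_cons.2 ⟨kq0, (List.forall_mem_cons.2 ⟨kq1, (List.forall_mem_cons.2 ⟨kq2, (List.forall_mem_cons.2 ⟨kq3, (List.forall_mem_cons.2 ⟨kq4, (List.forall_mem_cons.2 ⟨kq5, (List.forall_mem_cons.2 ⟨kq6, (List.forall_mem_cons.2 ⟨kq7, (List.forall_mem_cons.2 ⟨kq8, (List.forall_mem_cons.2 ⟨kq9, (List.forall_mem_cons.2 ⟨kq10, (List.forall_mem_cons.2 ⟨kq11, (List.forall_mem_cons.2 ⟨kq12, (List.forall_mem_cons.2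 ⟨kq13, (List.forall_mem_cons.2 ⟨kq14, (List.forall_mem_cons.2 ⟨kq15, (List.forall_mem_cons.2 ⟨kq16, (List.forall_mem_cons.2 ⟨kq17, (List.forall_mem_cons.2 ⟨kq18, (List.forall_mem_cons.2 ⟨kq19, (List.forall_mem_cons.2 ⟨kq20, (List.forall_mem_cons.2 ⟨kq21, (List.forall_mem_cons.2 ⟨kq22, (List.forall_mem_cons.2 ⟨kq23, (List.forall_mem_cons.2 ⟨kq24, (List.forall_mem_cons.2 ⟨kq25, (List.forall_mem_cons.2 ⟨kq26, (List.forall_mem_cons.2 ⟨kq27, (List.forall_mem_cons.2 ⟨kq28, (List.forall_mem_cons.2 ⟨kq29, (List.forall_mem_cons.2 ⟨kq30, (List.forall_mem_cons.2 ⟨kq31, (List.forall_mem_cons.2 ⟨kq32, (List.forall_mem_cons.2 ⟨kq33, (List.forall_mem_cons.2 ⟨kq34, (List.forall_mem_cons.2 ⟨kq35, (List.forall_mem_cons.2 ⟨kq36, (List.forall_mem_cons.2 ⟨kq37, (List.forall_mem_cons.2 ⟨kq38, (List.forall_mem_cons.2 ⟨kq39, (List.forall_mem_cons.2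 ⟨kq40, (List.forall_mem_cons.2 ⟨kq41, (List.forall_mem_cons.2 ⟨kq42, (List.forall_mem_cons.2 ⟨kq43, (List.forall_mem_cons.2 ⟨kq44, (List.forall_mem_cons.2 ⟨kq45, (List.forall_mem_cons.2 ⟨kq46, (List.forall_mem_cons.2 ⟨kq47, (List.forall_mem_cons.2 ⟨kq48, (List.forall_mem_cons.2 ⟨kq49, (List.forall_mem_cons.2 ⟨kq50, (List.forall_mem_cons.2 ⟨kq51, (List.forall_mem_cons.2 ⟨kq52, (List.forall_mem_cons.2 ⟨kq53, (List.forall_mem_cons.2 ⟨kq54, (List.forall_mem_cons.2 ⟨kq55, (List.forall_mem_cons.2 ⟨kq56, (List.forall_mem_cons.2 ⟨kq57, (List.forall_mem_cons.2 ⟨kq58, (List.forall_mem_cons.2 ⟨kq59, (List.forall_mem_cons.2 ⟨kq60, (List.forall_mem_cons.2 ⟨kq61, (List.forall_mem_cons.2 ⟨kq62, (List.forall_mem_cons.2 ⟨kq63, (List.forall_mem_cons.2 ⟨kq64, (List.forall_mem_cons.2 ⟨kq65, (List.forall_mem_cons.2 ⟨kq66, (List.forall_mem_cons.2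 ⟨kq67, (List.forall_mem_cons.2 ⟨kq68, (List.forall_mem_cons.2 ⟨kq69, (List.forall_mem_cons.2 ⟨kq70, (List.forall_mem_cons.2 ⟨kq71, (List.forall_mem_cons.2 ⟨kq72, (List.forall_mem_cons.2 ⟨kq73, (List.forall_mem_cons.2 ⟨kq74, (List.forall_mem_cons.2 ⟨kq75, (List.forall_mem_cons.2 ⟨kq76, (List.forall_mem_cons.2 ⟨kq77, (List.forall_mem_cons.2 ⟨kq78, (List.forall_mem_cons.2 ⟨kq79, (List.forall_mem_cons.2 ⟨kq80, (List.forall_mem_cons.2 ⟨kq81, (List.forall_mem_cons.2 ⟨kq82, (List.forall_mem_cons.2 ⟨kq83, (List.forall_mem_cons.2 ⟨kq84, (List.forall_mem_cons.2 ⟨kq85, (List.forall_mem_cons.2 ⟨kq86, (List.forall_mem_cons.2 ⟨kq87, (List.forall_mem_cons.2 ⟨kq88, (List.forall_mem_cons.2 ⟨kq89, (List.forall_mem_cons.2 ⟨kq90, (List.forall_mem_cons.2 ⟨kq91, (List.forall_mem_cons.2 ⟨kq92, (List.forall_mem_cons.2 ⟨kq93, (List.forall_mem_cons.2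 ⟨kq94, (List.forall_mem_cons.2 ⟨kq95, (List.forall_mem_cons.2 ⟨kq96, (List.forall_mem_cons.2 ⟨kq97, (List.forall_mem_cons.2 ⟨kq98, (List.forall_mem_cons.2 ⟨kq99, (List.forall_mem_cons.2 ⟨kq100, (List.forall_mem_cons.2 ⟨kq101, (List.forall_mem_cons.2 ⟨kq102, (List.forall_mem_cons.2 ⟨kq103, (List.forall_mem_cons.2 ⟨kq104, (List.forall_mem_cons.2 ⟨kq105, (List.forall_mem_cons.2 ⟨kq106, (List.forall_mem_cons.2 ⟨kq107, (List.forall_mem_cons.2 ⟨kq108, (List.forall_mem_cons.2 ⟨kq109, (List.forall_mem_cons.2 ⟨kq110, (List.forall_mem_cons.2 ⟨kq111, (List.forall_mem_cons.2 ⟨kq112, (List.forall_mem_cons.2 ⟨kq113, (List.forall_mem_cons.2 ⟨kq114, (List.forall_mem_cons.2 ⟨kq115, (List.forall_mem_cons.2 ⟨kq116, (List.forall_mem_cons.2 ⟨kq117, (List.forall_mem_cons.2 ⟨kq118, (List.forall_mem_cons.2 ⟨kq119, (List.forall_mem_cons.2 ⟨kq120,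 (List.forall_mem_cons.2 ⟨kq121, (List.forall_mem_cons.2 ⟨kq122, List.forall_mem_nil _⟩)⟩)⟩)⟩)⟩)⟩)⟩)⟩)⟩)⟩)⟩)⟩)⟩)⟩)⟩)⟩)⟩)⟩)⟩)⟩)⟩)⟩)⟩)⟩)⟩)⟩)⟩)⟩)⟩)⟩)⟩)⟩)⟩)⟩)⟩)⟩)⟩)⟩)⟩)⟩)⟩)⟩)⟩)⟩)⟩)⟩)⟩)⟩)⟩)⟩)⟩)⟩)⟩)⟩)⟩)⟩)⟩)⟩)⟩)⟩)⟩)⟩)⟩)⟩)⟩)⟩)⟩)⟩)⟩)⟩)⟩)⟩)⟩)⟩)⟩)⟩)⟩)⟩)⟩)⟩)⟩)⟩)⟩)⟩)⟩)⟩)⟩)⟩)⟩)⟩)⟩)⟩)⟩)⟩)⟩)⟩)⟩)⟩)⟩)⟩)⟩)⟩)⟩)⟩)⟩)⟩)⟩)⟩)⟩)⟩)⟩)⟩)⟩)⟩)⟩)⟩)⟩)⟩)⟩)⟩)⟩)⟩)⟩) (by decide +kernel)

theorem qtokT : ∀ k < 101, sL0 PT.q (nat_lit 14) (nat_lit 16384) (nat_lit 19664) Cz.tq k = true :=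
  sL0_of_pairs zok (AP.pairs_of_parts (L := [ktu0, ktu1, ktu2, ktu3, ktu4, ktu5, ktu6, ktu7, ktu8, ktu9, ktu10, ktu11, ktu12, ktu13, ktu14, ktu15, ktu16, ktu17, ktu18, ktu19, ktu20, ktu21, ktu22, ktu23, ktu24, ktu25, ktu26, ktu27, ktu28, ktu29, ktu30, ktu31, ktu32, ktu33, ktu34, ktu35, ktu36, ktu37, ktu38, ktu39, ktu40, ktu41, ktu42, ktu43, ktu44, ktu45, ktu46, ktu47, ktu48, ktu49, ktu50, ktu51, ktu52, ktu53, ktu54, ktu55, ktu56, ktu57, ktu58, ktu59, ktu60, ktu61, ktu62, ktu63]) (List.forall_mem_cons.2 ⟨kt0, (List.forall_mem_cons.2 ⟨kt1, (List.forall_mem_cons.2 ⟨kt2, (List.forall_mem_cons.2 ⟨kt3, (List.forall_mem_cons.2 ⟨kt4, (List.forall_mem_cons.2 ⟨kt5, (List.forall_mem_cons.2 ⟨kt6, (List.forall_mem_cons.2 ⟨kt7, (List.forall_mem_cons.2 ⟨kt8, (List.forall_mem_cons.2 ⟨kt9, (List.forall_mem_cons.2 ⟨kt10, (List.forall_mem_cons.2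 ⟨kt11, (List.forall_mem_cons.2 ⟨kt12, (List.forall_mem_cons.2 ⟨kt13, (List.forall_mem_cons.2 ⟨kt14, (List.forall_mem_cons.2 ⟨kt15, (List.forall_mem_cons.2 ⟨kt16, (List.forall_mem_cons.2 ⟨kt17, (List.forall_mem_cons.2 ⟨kt18, (List.forall_mem_cons.2 ⟨kt19, (List.forall_mem_cons.2 ⟨kt20, (List.forall_mem_cons.2 ⟨kt21, (List.forall_mem_cons.2 ⟨kt22, (List.forall_mem_cons.2 ⟨kt23, (List.forall_mem_cons.2 ⟨kt24, (List.forall_mem_cons.2 ⟨kt25, (List.forall_mem_cons.2 ⟨kt26, (List.forall_mem_cons.2 ⟨kt27, (List.forall_mem_cons.2 ⟨kt28, (List.forall_mem_cons.2 ⟨kt29, (List.forall_mem_cons.2 ⟨kt30, (List.forall_mem_cons.2 ⟨kt31, (List.forall_mem_cons.2 ⟨kt32, (List.forall_mem_cons.2 ⟨kt33, (List.forall_mem_cons.2 ⟨kt34, (List.forall_mem_cons.2 ⟨kt35, (List.forall_mem_cons.2 ⟨kt36, (List.forall_mem_cons.2 ⟨kt37, (List.forall_mem_cons.2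 ⟨kt38, (List.forall_mem_cons.2 ⟨kt39, (List.forall_mem_cons.2 ⟨kt40, (List.forall_mem_cons.2 ⟨kt41, (List.forall_mem_cons.2 ⟨kt42, (List.forall_mem_cons.2 ⟨kt43, (List.forall_mem_cons.2 ⟨kt44, (List.forall_mem_cons.2 ⟨kt45, (List.forall_mem_cons.2 ⟨kt46, (List.forall_mem_cons.2 ⟨kt47, (List.forall_mem_cons.2 ⟨kt48, (List.forall_mem_cons.2 ⟨kt49, (List.forall_mem_cons.2 ⟨kt50, (List.forall_mem_cons.2 ⟨kt51, (List.forall_mem_cons.2 ⟨kt52, (List.forall_mem_cons.2 ⟨kt53, (List.forall_mem_cons.2 ⟨kt54, (List.forall_mem_cons.2 ⟨kt55, (List.forall_mem_cons.2 ⟨kt56, (List.forall_mem_cons.2 ⟨kt57, (List.forall_mem_cons.2 ⟨kt58, (List.forall_mem_cons.2 ⟨kt59, (List.forall_mem_cons.2 ⟨kt60, (List.forall_mem_cons.2 ⟨kt61, (List.forall_mem_cons.2 ⟨kt62, (List.forall_mem_cons.2 ⟨kt63, List.forall_mem_nil _⟩)⟩)⟩)⟩)⟩)⟩)⟩)⟩)⟩)⟩)⟩)⟩)⟩)⟩)⟩)⟩)⟩)⟩)⟩)⟩)⟩)⟩)⟩)⟩)⟩)⟩)⟩)⟩)⟩)⟩)⟩)⟩)⟩)⟩)⟩)⟩)⟩)⟩)⟩)⟩)⟩)⟩)⟩)⟩)⟩)⟩)⟩)⟩)⟩)⟩)⟩)⟩)⟩)⟩)⟩)⟩)⟩)⟩)⟩)⟩)⟩)⟩)⟩)⟩)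 (by decide +kernel))


theorem reg : DT.all (regH PT.gp PT.gm spT PT.ps Cz.rtT Cz.tz Cz.tw) Cz.tz = true :=
  (DT.all_nd (DT.all_nd (DT.all_nd (DT.all_nd (DT.all_nd (DT.all_nd (DT.all_nd (DT.all_nd rtz00 rtz01) (DT.all_nd rtz02 rtz03)) (DT.all_nd (DT.all_nd rtz04 rtz05) (DT.all_nd rtz06 rtz07))) (DT.all_nd (DT.all_nd (DT.all_nd rtz08 rtz09) (DT.all_nd rtz10 rtz11)) (DT.all_nd (DT.all_nd rtz12 rtz13) (DT.all_nd rtz14 rtz15)))) (DT.all_nd (DT.all_nd (DT.all_nd (DT.all_nd rtz16 rtz17) (DT.all_nd rtz18 rtz19)) (DT.all_nd (DT.all_nd rtz20 rtz21) (DT.all_nd rtz22 rtz23))) (DT.all_nd (DT.all_nd (DT.all_nd rtz24 rtz25) (DT.all_nd rtz26 rtz27)) (DT.all_nd (DT.all_nd rtz28 rtz29) (DT.all_nd rtz30 rtz31))))) (DT.all_nd (DT.all_nd (DT.all_nd (DT.all_nd (DT.all_nd rtz32 rtz33) (DT.all_nd rtz34 rtz35)) (DT.all_nd (DT.all_nd rtz36 rtz37)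 (DT.all_nd rtz38 rtz39))) (DT.all_nd (DT.all_nd (DT.all_nd rtz40 rtz41) (DT.all_nd rtz42 rtz43)) (DT.all_nd (DT.all_nd rtz44 rtz45) (DT.all_nd rtz46 rtz47)))) (DT.all_nd (DT.all_nd (DT.all_nd (DT.all_nd rtz48 rtz49) (DT.all_nd rtz50 rtz51)) (DT.all_nd (DT.all_nd rtz52 rtz53) (DT.all_nd rtz54 rtz55))) (DT.all_nd (DT.all_nd (DT.all_nd rtz56 rtz57) (DT.all_nd rtz58 rtz59)) (DT.all_nd (DT.all_nd rtz60 rtz61) (DT.all_nd rtz62 rtz63)))))) (DT.all_nd (DT.all_nd (DT.all_nd (DT.all_nd (DT.all_nd (DT.all_nd rtz64 rtz65) (DT.all_nd rtz66 rtz67)) (DT.all_nd (DT.all_nd rtz68 rtz69) (DT.all_nd rtz70 rtz71))) (DT.all_nd (DT.all_nd (DT.all_nd rtz72 rtz73) (DT.all_nd rtz74 rtz75)) (DT.all_nd (DT.all_nd rtz76 rtz77) (DT.all_nd rtz78 rtz79)))) (DT.all_nd (DT.all_nd (DT.all_nd (DT.all_nd rtz80 rtz81) (DT.all_nd rtz82 rtz83)) (DT.all_nd (DT.all_nd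 rtz84 rtz85) (DT.all_nd rtz86 rtz87))) (DT.all_nd (DT.all_nd (DT.all_nd rtz88 rtz89) (DT.all_nd rtz90 rtz91)) (DT.all_nd (DT.all_nd rtz92 rtz93) (DT.all_nd rtz94 rtz95))))) (DT.all_nd (DT.all_nd (DT.all_nd (DT.all_nd (DT.all_nd rtz96 rtz97) (DT.all_nd rtz98 rtz99)) (DT.all_nd (DT.all_nd rtz100 rtz101) (DT.all_nd rtz102 rtz103))) (DT.all_nd (DT.all_nd (DT.all_nd rtz104 rtz105) (DT.all_nd rtz106 rtz107)) (DT.all_nd (DT.all_nd rtz108 rtz109) (DT.all_nd rtz110 rtz111)))) (DT.all_nd (DT.all_nd (DT.all_nd (DT.all_nd rtz112 rtz113) (DT.all_nd rtz114 rtz115)) (DT.all_nd (DT.all_nd rtz116 rtz117) (DT.all_nd rtz118 rtz119))) (DT.all_nd (DT.all_nd (DT.all_nd rtz120 rtz121) (DT.all_nd rtz122 rtz123)) (DT.all_nd (DT.all_nd rtz124 rtz125) (DT.all_nd rtz126 rtz127))))))) (DT.all_nd (DT.all_nd (DT.all_nd (DT.all_nd (DT.all_nd (DT.all_nd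 (DT.all_nd rtz128 rtz129) (DT.all_nd rtz130 rtz131)) (DT.all_nd (DT.all_nd rtz132 rtz133) (DT.all_nd rtz134 rtz135))) (DT.all_nd (DT.all_nd (DT.all_nd rtz136 rtz137) (DT.all_nd rtz138 rtz139)) (DT.all_nd (DT.all_nd rtz140 rtz141) (DT.all_nd rtz142 rtz143)))) (DT.all_nd (DT.all_nd (DT.all_nd (DT.all_nd rtz144 rtz145) (DT.all_nd rtz146 rtz147)) (DT.all_nd (DT.all_nd rtz148 rtz149) (DT.all_nd rtz150 rtz151))) (DT.all_nd (DT.all_nd (DT.all_nd rtz152 rtz153) (DT.all_nd rtz154 rtz155)) (DT.all_nd (DT.all_nd rtz156 rtz157) (DT.all_nd rtz158 rtz159))))) (DT.all_nd (DT.all_nd (DT.all_nd (DT.all_nd (DT.all_nd rtz160 rtz161) (DT.all_nd rtz162 rtz163)) (DT.all_nd (DT.all_nd rtz164 rtz165) (DT.all_nd rtz166 rtz167))) (DT.all_nd (DT.all_nd (DT.all_nd rtz168 rtz169) (DT.all_nd rtz170 rtz171)) (DT.all_nd (DT.all_nd rtz172 rtz173) (DT.all_nd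 rtz174 rtz175)))) (DT.all_nd (DT.all_nd (DT.all_nd (DT.all_nd rtz176 rtz177) (DT.all_nd rtz178 rtz179)) (DT.all_nd (DT.all_nd rtz180 rtz181) (DT.all_nd rtz182 rtz183))) (DT.all_nd (DT.all_nd (DT.all_nd rtz184 rtz185) (DT.all_nd rtz186 rtz187)) (DT.all_nd (DT.all_nd rtz188 rtz189) (DT.all_nd rtz190 rtz191)))))) (DT.all_nd (DT.all_nd (DT.all_nd (DT.all_nd (DT.all_nd (DT.all_nd rtz192 rtz193) (DT.all_nd rtz194 rtz195)) (DT.all_nd (DT.all_nd rtz196 rtz197) (DT.all_nd rtz198 rtz199))) (DT.all_nd (DT.all_nd (DT.all_nd rtz200 rtz201) (DT.all_nd rtz202 rtz203)) (DT.all_nd (DT.all_nd rtz204 rtz205) (DT.all_nd rtz206 rtz207)))) (DT.all_nd (DT.all_nd (DT.all_nd (DT.all_nd rtz208 rtz209) (DT.all_nd rtz210 rtz211)) (DT.all_nd (DT.all_nd rtz212 rtz213) (DT.all_nd rtz214 rtz215))) (DT.all_nd (DT.all_nd (DT.all_nd rtz216 rtz217) (DT.all_nd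 rtz218 rtz219)) (DT.all_nd (DT.all_nd rtz220 rtz221) (DT.all_nd rtz222 rtz223))))) (DT.all_nd (DT.all_nd (DT.all_nd (DT.all_nd (DT.all_nd rtz224 rtz225) (DT.all_nd rtz226 rtz227)) (DT.all_nd (DT.all_nd rtz228 rtz229) (DT.all_nd rtz230 rtz231))) (DT.all_nd (DT.all_nd (DT.all_nd rtz232 rtz233) (DT.all_nd rtz234 rtz235)) (DT.all_nd (DT.all_nd rtz236 rtz237) (DT.all_nd rtz238 rtz239)))) (DT.all_nd (DT.all_nd (DT.all_nd (DT.all_nd rtz240 rtz241) (DT.all_nd rtz242 rtz243)) (DT.all_nd (DT.all_nd rtz244 rtz245) (DT.all_nd rtz246 rtz247))) (DT.all_nd (DT.all_nd (DT.all_nd rtz248 rtz249) (DT.all_nd rtz250 rtz251)) (DT.all_nd (DT.all_nd rtz252 rtz253) (DT.all_nd rtz254 rtz255))))))))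

theorem symz : DT.all (symY Cz.tz) Cz.tz = true :=
  (DT.all_nd (DT.all_nd (DT.all_nd (DT.all_nd (DT.all_nd (DT.all_nd (DT.all_nd (DT.all_nd ytz00 ytz01) (DT.all_nd ytz02 ytz03)) (DT.all_nd (DT.all_nd ytz04 ytz05) (DT.all_nd ytz06 ytz07))) (DT.all_nd (DT.all_nd (DT.all_nd ytz08 ytz09) (DT.all_nd ytz10 ytz11)) (DT.all_nd (DT.all_nd ytz12 ytz13) (DT.all_nd ytz14 ytz15)))) (DT.all_nd (DT.all_nd (DT.all_nd (DT.all_nd ytz16 ytz17) (DT.all_nd ytz18 ytz19)) (DT.all_nd (DT.all_nd ytz20 ytz21) (DT.all_nd ytz22 ytz23))) (DT.all_nd (DT.all_nd (DT.all_nd ytz24 ytz25) (DT.all_nd ytz26 ytz27)) (DT.all_nd (DT.all_nd ytz28 ytz29) (DT.all_nd ytz30 ytz31))))) (DT.all_nd (DT.all_nd (DT.all_nd (DT.all_nd (DT.all_nd ytz32 ytz33) (DT.all_nd ytz34 ytz35)) (DT.all_nd (DT.all_nd ytz36 ytz37) (DT.all_nd ytz38 ytz39))) (DT.all_nd (DT.all_nd (DT.all_nd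 ytz40 ytz41) (DT.all_nd ytz42 ytz43)) (DT.all_nd (DT.all_nd ytz44 ytz45) (DT.all_nd ytz46 ytz47)))) (DT.all_nd (DT.all_nd (DT.all_nd (DT.all_nd ytz48 ytz49) (DT.all_nd ytz50 ytz51)) (DT.all_nd (DT.all_nd ytz52 ytz53) (DT.all_nd ytz54 ytz55))) (DT.all_nd (DT.all_nd (DT.all_nd ytz56 ytz57) (DT.all_nd ytz58 ytz59)) (DT.all_nd (DT.all_nd ytz60 ytz61) (DT.all_nd ytz62 ytz63)))))) (DT.all_nd (DT.all_nd (DT.all_nd (DT.all_nd (DT.all_nd (DT.all_nd ytz64 ytz65) (DT.all_nd ytz66 ytz67)) (DT.all_nd (DT.all_nd ytz68 ytz69) (DT.all_nd ytz70 ytz71))) (DT.all_nd (DT.all_nd (DT.all_nd ytz72 ytz73) (DT.all_nd ytz74 ytz75)) (DT.all_nd (DT.all_nd ytz76 ytz77) (DT.all_nd ytz78 ytz79)))) (DT.all_nd (DT.all_nd (DT.all_nd (DT.all_nd ytz80 ytz81) (DT.all_nd ytz82 ytz83)) (DT.all_nd (DT.all_nd ytz84 ytz85) (DT.all_nd ytz86 ytz87))) (DT.all_nd (DT.all_nd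 (DT.all_nd ytz88 ytz89) (DT.all_nd ytz90 ytz91)) (DT.all_nd (DT.all_nd ytz92 ytz93) (DT.all_nd ytz94 ytz95))))) (DT.all_nd (DT.all_nd (DT.all_nd (DT.all_nd (DT.all_nd ytz96 ytz97) (DT.all_nd ytz98 ytz99)) (DT.all_nd (DT.all_nd ytz100 ytz101) (DT.all_nd ytz102 ytz103))) (DT.all_nd (DT.all_nd (DT.all_nd ytz104 ytz105) (DT.all_nd ytz106 ytz107)) (DT.all_nd (DT.all_nd ytz108 ytz109) (DT.all_nd ytz110 ytz111)))) (DT.all_nd (DT.all_nd (DT.all_nd (DT.all_nd ytz112 ytz113) (DT.all_nd ytz114 ytz115)) (DT.all_nd (DT.all_nd ytz116 ytz117) (DT.all_nd ytz118 ytz119))) (DT.all_nd (DT.all_nd (DT.all_nd ytz120 ytz121) (DT.all_nd ytz122 ytz123)) (DT.all_nd (DT.all_nd ytz124 ytz125) (DT.all_nd ytz126 ytz127))))))) (DT.all_nd (DT.all_nd (DT.all_nd (DT.all_nd (DT.all_nd (DT.all_nd (DT.all_nd ytz128 ytz129) (DT.all_nd ytz130 ytz131)) (DT.all_nd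 (DT.all_nd ytz132 ytz133) (DT.all_nd ytz134 ytz135))) (DT.all_nd (DT.all_nd (DT.all_nd ytz136 ytz137) (DT.all_nd ytz138 ytz139)) (DT.all_nd (DT.all_nd ytz140 ytz141) (DT.all_nd ytz142 ytz143)))) (DT.all_nd (DT.all_nd (DT.all_nd (DT.all_nd ytz144 ytz145) (DT.all_nd ytz146 ytz147)) (DT.all_nd (DT.all_nd ytz148 ytz149) (DT.all_nd ytz150 ytz151))) (DT.all_nd (DT.all_nd (DT.all_nd ytz152 ytz153) (DT.all_nd ytz154 ytz155)) (DT.all_nd (DT.all_nd ytz156 ytz157) (DT.all_nd ytz158 ytz159))))) (DT.all_nd (DT.all_nd (DT.all_nd (DT.all_nd (DT.all_nd ytz160 ytz161) (DT.all_nd ytz162 ytz163)) (DT.all_nd (DT.all_nd ytz164 ytz165) (DT.all_nd ytz166 ytz167))) (DT.all_nd (DT.all_nd (DT.all_nd ytz168 ytz169) (DT.all_nd ytz170 ytz171)) (DT.all_nd (DT.all_nd ytz172 ytz173) (DT.all_nd ytz174 ytz175)))) (DT.all_nd (DT.all_nd (DT.all_nd (DT.all_nd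 ytz176 ytz177) (DT.all_nd ytz178 ytz179)) (DT.all_nd (DT.all_nd ytz180 ytz181) (DT.all_nd ytz182 ytz183))) (DT.all_nd (DT.all_nd (DT.all_nd ytz184 ytz185) (DT.all_nd ytz186 ytz187)) (DT.all_nd (DT.all_nd ytz188 ytz189) (DT.all_nd ytz190 ytz191)))))) (DT.all_nd (DT.all_nd (DT.all_nd (DT.all_nd (DT.all_nd (DT.all_nd ytz192 ytz193) (DT.all_nd ytz194 ytz195)) (DT.all_nd (DT.all_nd ytz196 ytz197) (DT.all_nd ytz198 ytz199))) (DT.all_nd (DT.all_nd (DT.all_nd ytz200 ytz201) (DT.all_nd ytz202 ytz203)) (DT.all_nd (DT.all_nd ytz204 ytz205) (DT.all_nd ytz206 ytz207)))) (DT.all_nd (DT.all_nd (DT.all_nd (DT.all_nd ytz208 ytz209) (DT.all_nd ytz210 ytz211)) (DT.all_nd (DT.all_nd ytz212 ytz213) (DT.all_nd ytz214 ytz215))) (DT.all_nd (DT.all_nd (DT.all_nd ytz216 ytz217) (DT.all_nd ytz218 ytz219)) (DT.all_nd (DT.all_nd ytz220 ytz221) (DT.all_nd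 ytz222 ytz223))))) (DT.all_nd (DT.all_nd (DT.all_nd (DT.all_nd (DT.all_nd ytz224 ytz225) (DT.all_nd ytz226 ytz227)) (DT.all_nd (DT.all_nd ytz228 ytz229) (DT.all_nd ytz230 ytz231))) (DT.all_nd (DT.all_nd (DT.all_nd ytz232 ytz233) (DT.all_nd ytz234 ytz235)) (DT.all_nd (DT.all_nd ytz236 ytz237) (DT.all_nd ytz238 ytz239)))) (DT.all_nd (DT.all_nd (DT.all_nd (DT.all_nd ytz240 ytz241) (DT.all_nd ytz242 ytz243)) (DT.all_nd (DT.all_nd ytz244 ytz245) (DT.all_nd ytz246 ytz247))) (DT.all_nd (DT.all_nd (DT.all_nd ytz248 ytz249) (DT.all_nd ytz250 ytz251)) (DT.all_nd (DT.all_nd ytz252 ytz253) (DT.all_nd ytz254 ytz255))))))))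

theorem rsv : DT.all (rtR Cz.tz) rtT = true :=
  (DT.all_nd (DT.all_nd (DT.all_nd (DT.all_nd (DT.all_nd vtr00 vtr01) vtr02) (DT.all_nd (DT.all_nd vtr03 vtr04) vtr05)) (DT.all_nd (DT.all_nd (DT.all_nd vtr06 vtr07) vtr08) (DT.all_nd vtr09 vtr10))) (DT.all_nd (DT.all_nd (DT.all_nd (DT.all_nd vtr11 vtr12) vtr13) (DT.all_nd vtr14 vtr15)) (DT.all_nd (DT.all_nd (DT.all_nd vtr16 vtr17) vtr18) (DT.all_nd (DT.all_nd vtr19 vtr20) vtr21))))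

/-- The checks of the tables. -/
theorem okR : cT.OKR where
  u_pos := by decide +kernel
  qo_le := by decide +kernel
  del := del
  wps := wps
  reg := reg
  rsv := rsv
  quad := quad
  qtok k hk := qtokT k hk
  low k hk := AP.rgN_sound low (Nat.zero_le k) hk
  penta := {
    hW := rfl
    ht0 := by decide +kernel
    ht1 := by decide +kernel
    low := fun k hk => AP.rgN_sound pz (Nat.zero_le k) hk
    chk := fun k hk => AP.rgN_sound pl0 (by omega) hk }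
  tm k hk := AP.rgN_sound tm (Nat.zero_le k) hk
  symQ4 k hk := AP.rgN_sound symq (Nat.zero_le k) hk
  symD := symD
  symW := symW
  symZ := symz
  tkD k hk := AP.rgN_sound tkd (Nat.zero_le k) hk

theorem qc : DT.all (qjH PT.gp PT.gm spT PT.ps Cz.rtT Cz.tz Cz.tw Cz.tj) Cz.tj = true :=
  (DT.all_nd (DT.all_nd (DT.all_nd (DT.all_nd (DT.all_nd (DT.all_nd (DT.all_nd (DT.all_nd (DT.all_nd jtj00 jtj01) (DT.all_nd (DT.all_nd jtj02 jtj03) jtj04)) (DT.all_nd (DT.all_nd (DT.all_nd jtj05 jtj06) jtj07) (DT.all_nd jtj08 (DT.all_nd jtj09 jtj10)))) (DT.all_nd (DT.all_nd (DT.all_nd jtj11 (DT.all_nd jtj12 jtj13)) (DT.all_nd jtj14 (DT.all_nd jtj15 jtj16))) (DT.all_nd (DT.all_nd jtj17 (DT.all_nd jtj18 jtj19)) (DT.all_nd jtj20 (DT.all_nd (DT.all_nd jtj21 jtj22) jtj23))))) (DT.all_nd (DT.all_nd (DT.all_nd (DT.all_nd jtj24 jtj25) (DT.all_nd jtj26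 jtj27)) (DT.all_nd (DT.all_nd jtj28 jtj29) (DT.all_nd jtj30 (DT.all_nd jtj31 jtj32)))) (DT.all_nd (DT.all_nd (DT.all_nd jtj33 jtj34) (DT.all_nd jtj35 jtj36)) (DT.all_nd (DT.all_nd jtj37 jtj38) (DT.all_nd jtj39 jtj40))))) (DT.all_nd (DT.all_nd (DT.all_nd (DT.all_nd (DT.all_nd jtj41 jtj42) (DT.all_nd jtj43 jtj44)) (DT.all_nd (DT.all_nd jtj45 jtj46) (DT.all_nd (DT.all_nd jtj47 jtj48) jtj49))) (DT.all_nd (DT.all_nd (DT.all_nd jtj50 jtj51) (DT.all_nd (DT.all_nd jtj52 jtj53) jtj54)) (DT.all_nd (DT.all_nd jtj55 (DT.all_nd jtj56 jtj57)) (DT.all_nd jtj58 jtj59)))) (DT.all_nd (DT.all_nd (DT.all_nd (DT.all_nd jtj60 (DT.all_nd jtj61 jtj62)) (DT.all_nd jtj63 (DT.all_nd jtj64 jtj65))) (DT.all_nd (DT.all_nd (DT.all_nd jtj66 jtj67) jtj68) (DT.all_nd jtj69 jtj70))) (DT.all_nd (DT.all_nd (DT.all_nd jtj71 (DT.all_nd jtj72 jtj73)) (DT.all_nd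 jtj74 (DT.all_nd jtj75 jtj76))) (DT.all_nd (DT.all_nd jtj77 jtj78) (DT.all_nd jtj79 jtj80)))))) (DT.all_nd (DT.all_nd (DT.all_nd (DT.all_nd (DT.all_nd (DT.all_nd jtj81 jtj82) (DT.all_nd jtj83 jtj84)) (DT.all_nd (DT.all_nd (DT.all_nd jtj85 jtj86) (DT.all_nd jtj87 jtj88)) (DT.all_nd jtj89 jtj90))) (DT.all_nd (DT.all_nd (DT.all_nd (DT.all_nd jtj91 jtj92) jtj93) (DT.all_nd jtj94 jtj95)) (DT.all_nd (DT.all_nd jtj96 jtj97) (DT.all_nd jtj98 (DT.all_nd jtj99 jtj100))))) (DT.all_nd (DT.all_nd (DT.all_nd (DT.all_nd (DT.all_nd jtj101 jtj102) jtj103) (DT.all_nd jtj104 jtj105)) (DT.all_nd (DT.all_nd (DT.all_nd jtj106 jtj107) jtj108) (DT.all_nd jtj109 jtj110))) (DT.all_nd (DT.all_nd (DT.all_nd jtj111 jtj112) (DT.all_nd jtj113 jtj114)) (DT.all_nd (DT.all_nd jtj115 jtj116) (DT.all_nd jtj117 jtj118))))) (DT.all_nd (DT.all_nd (DT.all_nd (DT.all_nd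 (DT.all_nd (DT.all_nd jtj119 jtj120) jtj121) (DT.all_nd jtj122 (DT.all_nd jtj123 jtj124))) (DT.all_nd (DT.all_nd jtj125 jtj126) (DT.all_nd jtj127 jtj128))) (DT.all_nd (DT.all_nd (DT.all_nd jtj129 (DT.all_nd jtj130 jtj131)) (DT.all_nd jtj132 (DT.all_nd jtj133 jtj134))) (DT.all_nd (DT.all_nd (DT.all_nd jtj135 jtj136) jtj137) (DT.all_nd jtj138 jtj139)))) (DT.all_nd (DT.all_nd (DT.all_nd (DT.all_nd jtj140 jtj141) (DT.all_nd jtj142 jtj143)) (DT.all_nd (DT.all_nd (DT.all_nd jtj144 jtj145) jtj146) (DT.all_nd jtj147 jtj148))) (DT.all_nd (DT.all_nd (DT.all_nd (DT.all_nd jtj149 jtj150) jtj151) (DT.all_nd jtj152 jtj153)) (DT.all_nd (DT.all_nd jtj154 jtj155) (DT.all_nd jtj156 jtj157))))))) (DT.all_nd (DT.all_nd (DT.all_nd (DT.all_nd (DT.all_nd (DT.all_nd (DT.all_nd jtj158 jtj159) (DT.all_nd jtj160 jtj161)) (DT.all_nd (DT.all_nd jtj162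 jtj163) (DT.all_nd jtj164 jtj165))) (DT.all_nd (DT.all_nd (DT.all_nd jtj166 jtj167) (DT.all_nd jtj168 (DT.all_nd jtj169 jtj170))) (DT.all_nd (DT.all_nd jtj171 (DT.all_nd jtj172 jtj173)) (DT.all_nd jtj174 jtj175)))) (DT.all_nd (DT.all_nd (DT.all_nd (DT.all_nd jtj176 jtj177) (DT.all_nd jtj178 jtj179)) (DT.all_nd (DT.all_nd jtj180 jtj181) (DT.all_nd jtj182 jtj183))) (DT.all_nd (DT.all_nd (DT.all_nd jtj184 jtj185) (DT.all_nd (DT.all_nd jtj186 jtj187) jtj188)) (DT.all_nd (DT.all_nd jtj189 jtj190) (DT.all_nd (DT.all_nd jtj191 jtj192) jtj193))))) (DT.all_nd (DT.all_nd (DT.all_nd (DT.all_nd (DT.all_nd jtj194 jtj195) (DT.all_nd (DT.all_nd jtj196 jtj197) (DT.all_nd jtj198 jtj199))) (DT.all_nd (DT.all_nd jtj200 jtj201) (DT.all_nd jtj202 jtj203))) (DT.all_nd (DT.all_nd (DT.all_nd jtj204 jtj205) (DT.all_nd jtj206 jtj207)) (DT.all_nd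 (DT.all_nd jtj208 jtj209) (DT.all_nd jtj210 jtj211)))) (DT.all_nd (DT.all_nd (DT.all_nd (DT.all_nd (DT.all_nd jtj212 jtj213) (DT.all_nd jtj214 jtj215)) (DT.all_nd jtj216 jtj217)) (DT.all_nd (DT.all_nd jtj218 jtj219) (DT.all_nd jtj220 jtj221))) (DT.all_nd (DT.all_nd (DT.all_nd jtj222 (DT.all_nd jtj223 jtj224)) (DT.all_nd (DT.all_nd jtj225 jtj226) jtj227)) (DT.all_nd (DT.all_nd (DT.all_nd jtj228 jtj229) jtj230) (DT.all_nd jtj231 jtj232)))))) (DT.all_nd (DT.all_nd (DT.all_nd (DT.all_nd (DT.all_nd (DT.all_nd (DT.all_nd jtj233 jtj234) jtj235) (DT.all_nd (DT.all_nd jtj236 jtj237) jtj238)) (DT.all_nd (DT.all_nd (DT.all_nd jtj239 jtj240) jtj241) (DT.all_nd (DT.all_nd jtj242 jtj243) (DT.all_nd jtj244 jtj245)))) (DT.all_nd (DT.all_nd (DT.all_nd (DT.all_nd jtj246 jtj247) jtj248) (DT.all_nd jtj249 (DT.all_nd jtj250 jtj251))) (DT.all_nd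 (DT.all_nd (DT.all_nd jtj252 jtj253) (DT.all_nd jtj254 jtj255)) (DT.all_nd jtj256 jtj257)))) (DT.all_nd (DT.all_nd (DT.all_nd (DT.all_nd jtj258 jtj259) (DT.all_nd jtj260 jtj261)) (DT.all_nd (DT.all_nd jtj262 jtj263) (DT.all_nd jtj264 jtj265))) (DT.all_nd (DT.all_nd (DT.all_nd jtj266 jtj267) (DT.all_nd jtj268 jtj269)) (DT.all_nd (DT.all_nd jtj270 jtj271) (DT.all_nd jtj272 jtj273))))) (DT.all_nd (DT.all_nd (DT.all_nd (DT.all_nd (DT.all_nd jtj274 (DT.all_nd jtj275 jtj276)) (DT.all_nd jtj277 (DT.all_nd jtj278 jtj279))) (DT.all_nd (DT.all_nd jtj280 jtj281) (DT.all_nd jtj282 jtj283))) (DT.all_nd (DT.all_nd (DT.all_nd jtj284 jtj285) (DT.all_nd jtj286 jtj287)) (DT.all_nd (DT.all_nd (DT.all_nd jtj288 jtj289) jtj290) (DT.all_nd jtj291 jtj292)))) (DT.all_nd (DT.all_nd (DT.all_nd (DT.all_nd (DT.all_nd jtj293 jtj294) jtj295) (DT.all_nd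 (DT.all_nd jtj296 jtj297) (DT.all_nd jtj298 jtj299))) (DT.all_nd (DT.all_nd (DT.all_nd jtj300 jtj301) jtj302) (DT.all_nd jtj303 jtj304))) (DT.all_nd (DT.all_nd (DT.all_nd jtj305 jtj306) (DT.all_nd jtj307 jtj308)) (DT.all_nd (DT.all_nd jtj309 jtj310) (DT.all_nd jtj311 jtj312)))))))) (DT.all_nd (DT.all_nd (DT.all_nd (DT.all_nd (DT.all_nd (DT.all_nd (DT.all_nd (DT.all_nd jtj313 jtj314) (DT.all_nd jtj315 jtj316)) (DT.all_nd (DT.all_nd jtj317 jtj318) (DT.all_nd jtj319 jtj320))) (DT.all_nd (DT.all_nd (DT.all_nd (DT.all_nd jtj321 jtj322) (DT.all_nd jtj323 jtj324)) (DT.all_nd jtj325 jtj326)) (DT.all_nd (DT.all_nd (DT.all_nd jtj327 jtj328) jtj329) (DT.all_nd jtj330 jtj331)))) (DT.all_nd (DT.all_nd (DT.all_nd (DT.all_nd jtj332 jtj333) (DT.all_nd jtj334 jtj335)) (DT.all_nd (DT.all_nd jtj336 (DT.all_nd jtj337 jtj338)) (DT.all_nd jtj339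 jtj340))) (DT.all_nd (DT.all_nd (DT.all_nd (DT.all_nd (DT.all_nd jtj341 jtj342) jtj343) jtj344) (DT.all_nd jtj345 jtj346)) (DT.all_nd (DT.all_nd jtj347 jtj348) (DT.all_nd jtj349 jtj350))))) (DT.all_nd (DT.all_nd (DT.all_nd (DT.all_nd (DT.all_nd jtj351 jtj352) (DT.all_nd jtj353 (DT.all_nd jtj354 jtj355))) (DT.all_nd (DT.all_nd jtj356 jtj357) (DT.all_nd jtj358 jtj359))) (DT.all_nd (DT.all_nd (DT.all_nd jtj360 jtj361) (DT.all_nd jtj362 jtj363)) (DT.all_nd (DT.all_nd jtj364 (DT.all_nd jtj365 jtj366)) (DT.all_nd jtj367 jtj368)))) (DT.all_nd (DT.all_nd (DT.all_nd (DT.all_nd jtj369 jtj370) (DT.all_nd jtj371 (DT.all_nd jtj372 jtj373))) (DT.all_nd (DT.all_nd jtj374 jtj375) (DT.all_nd jtj376 jtj377))) (DT.all_nd (DT.all_nd (DT.all_nd jtj378 jtj379) (DT.all_nd jtj380 jtj381)) (DT.all_nd (DT.all_nd jtj382 (DT.all_nd jtj383 jtj384))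 (DT.all_nd jtj385 jtj386)))))) (DT.all_nd (DT.all_nd (DT.all_nd (DT.all_nd (DT.all_nd (DT.all_nd jtj387 jtj388) (DT.all_nd jtj389 (DT.all_nd jtj390 jtj391))) (DT.all_nd (DT.all_nd jtj392 jtj393) (DT.all_nd jtj394 jtj395))) (DT.all_nd (DT.all_nd (DT.all_nd jtj396 jtj397) (DT.all_nd jtj398 jtj399)) (DT.all_nd (DT.all_nd jtj400 jtj401) (DT.all_nd jtj402 jtj403)))) (DT.all_nd (DT.all_nd (DT.all_nd (DT.all_nd jtj404 jtj405) (DT.all_nd jtj406 jtj407)) (DT.all_nd (DT.all_nd jtj408 jtj409) (DT.all_nd jtj410 jtj411))) (DT.all_nd (DT.all_nd (DT.all_nd jtj412 jtj413) (DT.all_nd jtj414 jtj415)) (DT.all_nd (DT.all_nd jtj416 jtj417) (DT.all_nd (DT.all_nd jtj418 jtj419) (DT.all_nd jtj420 jtj421)))))) (DT.all_nd (DT.all_nd (DT.all_nd (DT.all_nd (DT.all_nd jtj422 jtj423) (DT.all_nd jtj424 jtj425)) (DT.all_nd (DT.all_nd jtj426 jtj427) (DT.all_nd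 jtj428 jtj429))) (DT.all_nd (DT.all_nd (DT.all_nd jtj430 jtj431) (DT.all_nd jtj432 jtj433)) (DT.all_nd (DT.all_nd (DT.all_nd jtj434 jtj435) jtj436) (DT.all_nd jtj437 jtj438)))) (DT.all_nd (DT.all_nd (DT.all_nd (DT.all_nd jtj439 jtj440) (DT.all_nd jtj441 jtj442)) (DT.all_nd (DT.all_nd jtj443 jtj444) (DT.all_nd jtj445 jtj446))) (DT.all_nd (DT.all_nd (DT.all_nd jtj447 (DT.all_nd jtj448 jtj449)) (DT.all_nd jtj450 jtj451)) (DT.all_nd (DT.all_nd jtj452 jtj453) (DT.all_nd (DT.all_nd jtj454 jtj455) jtj456))))))) (DT.all_nd (DT.all_nd (DT.all_nd (DT.all_nd (DT.all_nd (DT.all_nd (DT.all_nd jtj457 jtj458) (DT.all_nd jtj459 jtj460)) (DT.all_nd (DT.all_nd jtj461 jtj462) (DT.all_nd (DT.all_nd jtj463 jtj464) jtj465))) (DT.all_nd (DT.all_nd (DT.all_nd jtj466 jtj467) (DT.all_nd jtj468 jtj469)) (DT.all_nd (DT.all_nd jtj470 jtj471) (DT.all_nd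 jtj472 jtj473)))) (DT.all_nd (DT.all_nd (DT.all_nd (DT.all_nd jtj474 (DT.all_nd jtj475 jtj476)) (DT.all_nd jtj477 jtj478)) (DT.all_nd (DT.all_nd (DT.all_nd jtj479 jtj480) jtj481) (DT.all_nd jtj482 jtj483))) (DT.all_nd (DT.all_nd (DT.all_nd (DT.all_nd (DT.all_nd jtj484 jtj485) jtj486) (DT.all_nd jtj487 jtj488)) (DT.all_nd (DT.all_nd jtj489 jtj490) (DT.all_nd jtj491 jtj492))) (DT.all_nd (DT.all_nd jtj493 jtj494) (DT.all_nd jtj495 jtj496))))) (DT.all_nd (DT.all_nd (DT.all_nd (DT.all_nd (DT.all_nd (DT.all_nd jtj497 jtj498) jtj499) (DT.all_nd (DT.all_nd jtj500 jtj501) jtj502)) (DT.all_nd (DT.all_nd jtj503 jtj504) (DT.all_nd jtj505 jtj506))) (DT.all_nd (DT.all_nd (DT.all_nd jtj507 jtj508) (DT.all_nd jtj509 jtj510)) (DT.all_nd (DT.all_nd (DT.all_nd jtj511 jtj512) jtj513) (DT.all_nd (DT.all_nd jtj514 jtj515) jtj516)))) (DT.all_nd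 (DT.all_nd (DT.all_nd (DT.all_nd jtj517 jtj518) jtj519) (DT.all_nd (DT.all_nd jtj520 jtj521) (DT.all_nd jtj522 jtj523))) (DT.all_nd (DT.all_nd (DT.all_nd jtj524 jtj525) (DT.all_nd jtj526 jtj527)) (DT.all_nd (DT.all_nd jtj528 jtj529) (DT.all_nd jtj530 jtj531)))))) (DT.all_nd (DT.all_nd (DT.all_nd (DT.all_nd (DT.all_nd (DT.all_nd jtj532 jtj533) (DT.all_nd jtj534 jtj535)) (DT.all_nd (DT.all_nd jtj536 jtj537) (DT.all_nd (DT.all_nd jtj538 jtj539) jtj540))) (DT.all_nd (DT.all_nd (DT.all_nd jtj541 jtj542) (DT.all_nd (DT.all_nd jtj543 jtj544) jtj545)) (DT.all_nd (DT.all_nd (DT.all_nd jtj546 jtj547) jtj548) (DT.all_nd jtj549 (DT.all_nd jtj550 jtj551))))) (DT.all_nd (DT.all_nd (DT.all_nd (DT.all_nd jtj552 jtj553) (DT.all_nd jtj554 jtj555)) (DT.all_nd (DT.all_nd jtj556 jtj557) (DT.all_nd jtj558 jtj559))) (DT.all_nd (DT.all_nd (DT.all_nd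 jtj560 jtj561) (DT.all_nd jtj562 jtj563)) (DT.all_nd (DT.all_nd jtj564 jtj565) (DT.all_nd jtj566 jtj567))))) (DT.all_nd (DT.all_nd (DT.all_nd (DT.all_nd (DT.all_nd jtj568 jtj569) (DT.all_nd jtj570 (DT.all_nd jtj571 jtj572))) (DT.all_nd (DT.all_nd jtj573 jtj574) (DT.all_nd jtj575 jtj576))) (DT.all_nd (DT.all_nd (DT.all_nd jtj577 jtj578) (DT.all_nd jtj579 jtj580)) (DT.all_nd (DT.all_nd jtj581 jtj582) (DT.all_nd jtj583 jtj584)))) (DT.all_nd (DT.all_nd (DT.all_nd (DT.all_nd (DT.all_nd jtj585 jtj586) jtj587) (DT.all_nd (DT.all_nd jtj588 jtj589) jtj590)) (DT.all_nd (DT.all_nd jtj591 jtj592) (DT.all_nd jtj593 jtj594))) (DT.all_nd (DT.all_nd (DT.all_nd jtj595 jtj596) (DT.all_nd jtj597 jtj598)) (DT.all_nd (DT.all_nd jtj599 jtj600) (DT.all_nd jtj601 jtj602)))))))))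

theorem pc : ∀ k < 101, ∀ o < optN k, pjO PT.D spT PT.ps Cz.tt rtT Cz.tp k o = true :=
  AP.pairs_of_parts (L := [kxu0, kxu1, kxu2, kxu3, kxu4, kxu5, kxu6, kxu7, kxu8, kxu9, kxu10, kxu11, kxu12, kxu13, kxu14, kxu15, kxu16, kxu17, kxu18, kxu19, kxu20, kxu21, kxu22, kxu23, kxu24, kxu25, kxu26, kxu27, kxu28, kxu29, kxu30, kxu31, kxu32, kxu33, kxu34, kxu35, kxu36, kxu37, kxu38, kxu39, kxu40, kxu41, kxu42, kxu43, kxu44, kxu45, kxu46, kxu47, kxu48, kxu49, kxu50, kxu51, kxu52, kxu53, kxu54, kxu55, kxu56, kxu57, kxu58, kxu59, kxu60, kxu61, kxu62, kxu63, kxu64, kxu65, kxu66, kxu67, kxu68, kxu69, kxu70, kxu71, kxu72, kxu73, kxu74, kxu75, kxu76, kxu77, kxu78, kxu79, kxu80, kxu81, kxu82, kxu83, kxu84, kxu85, kxu86, kxu87, kxu88, kxu89, kxu90, kxu91, kxu92, kxu93, kxu94, kxu95, kxu96, kxu97, kxu98, kxu99, kxu100, kxu101, kxu102, kxu103,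 kxu104, kxu105, kxu106, kxu107, kxu108, kxu109, kxu110, kxu111, kxu112, kxu113, kxu114, kxu115, kxu116, kxu117, kxu118, kxu119, kxu120, kxu121, kxu122, kxu123, kxu124, kxu125, kxu126, kxu127, kxu128, kxu129, kxu130, kxu131, kxu132, kxu133, kxu134, kxu135, kxu136, kxu137, kxu138, kxu139, kxu140, kxu141, kxu142, kxu143, kxu144, kxu145, kxu146, kxu147, kxu148, kxu149, kxu150, kxu151, kxu152, kxu153, kxu154, kxu155, kxu156, kxu157, kxu158, kxu159, kxu160, kxu161, kxu162, kxu163, kxu164, kxu165, kxu166, kxu167, kxu168, kxu169, kxu170, kxu171, kxu172, kxu173, kxu174, kxu175, kxu176, kxu177, kxu178, kxu179, kxu180, kxu181, kxu182, kxu183, kxu184, kxu185, kxu186, kxu187, kxu188, kxu189, kxu190, kxu191, kxu192, kxu193, kxu194, kxu195, kxu196, kxu197, kxu198, kxu199, kxu200, kxu201, kxu202, kxu203, kxu204, kxu205, kxu206, kxu207,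 kxu208, kxu209, kxu210, kxu211, kxu212, kxu213, kxu214, kxu215, kxu216, kxu217, kxu218, kxu219, kxu220, kxu221, kxu222, kxu223, kxu224, kxu225, kxu226, kxu227, kxu228, kxu229, kxu230, kxu231, kxu232, kxu233, kxu234, kxu235, kxu236, kxu237, kxu238, kxu239, kxu240, kxu241, kxu242, kxu243, kxu244, kxu245, kxu246, kxu247, kxu248, kxu249, kxu250, kxu251, kxu252, kxu253, kxu254, kxu255, kxu256, kxu257, kxu258, kxu259, kxu260, kxu261, kxu262, kxu263, kxu264, kxu265, kxu266, kxu267, kxu268, kxu269, kxu270, kxu271, kxu272, kxu273, kxu274, kxu275, kxu276, kxu277, kxu278, kxu279, kxu280, kxu281, kxu282, kxu283, kxu284, kxu285, kxu286, kxu287, kxu288, kxu289, kxu290, kxu291, kxu292, kxu293, kxu294, kxu295, kxu296, kxu297, kxu298, kxu299, kxu300, kxu301, kxu302, kxu303, kxu304, kxu305, kxu306, kxu307, kxu308, kxu309, kxu310, kxu311,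 kxu312, kxu313, kxu314, kxu315, kxu316, kxu317, kxu318, kxu319, kxu320, kxu321, kxu322, kxu323, kxu324, kxu325, kxu326, kxu327, kxu328, kxu329, kxu330, kxu331, kxu332, kxu333, kxu334, kxu335]) (List.forall_mem_cons.2 ⟨kx0, (List.forall_mem_cons.2 ⟨kx1, (List.forall_mem_cons.2 ⟨kx2, (List.forall_mem_cons.2 ⟨kx3, (List.forall_mem_cons.2 ⟨kx4, (List.forall_mem_cons.2 ⟨kx5, (List.forall_mem_cons.2 ⟨kx6, (List.forall_mem_cons.2 ⟨kx7, (List.forall_mem_cons.2 ⟨kx8, (List.forall_mem_cons.2 ⟨kx9, (List.forall_mem_cons.2 ⟨kx10, (List.forall_mem_cons.2 ⟨kx11, (List.forall_mem_cons.2 ⟨kx12, (List.forall_mem_cons.2 ⟨kx13, (List.forall_mem_cons.2 ⟨kx14, (List.forall_mem_cons.2 ⟨kx15, (List.forall_mem_cons.2 ⟨kx16, (List.forall_mem_cons.2 ⟨kx17, (List.forall_mem_cons.2 ⟨kx18, (List.forall_mem_cons.2 ⟨kx19, (List.forall_mem_cons.2 ⟨kx20,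 (List.forall_mem_cons.2 ⟨kx21, (List.forall_mem_cons.2 ⟨kx22, (List.forall_mem_cons.2 ⟨kx23, (List.forall_mem_cons.2 ⟨kx24, (List.forall_mem_cons.2 ⟨kx25, (List.forall_mem_cons.2 ⟨kx26, (List.forall_mem_cons.2 ⟨kx27, (List.forall_mem_cons.2 ⟨kx28, (List.forall_mem_cons.2 ⟨kx29, (List.forall_mem_cons.2 ⟨kx30, (List.forall_mem_cons.2 ⟨kx31, (List.forall_mem_cons.2 ⟨kx32, (List.forall_mem_cons.2 ⟨kx33, (List.forall_mem_cons.2 ⟨kx34, (List.forall_mem_cons.2 ⟨kx35, (List.forall_mem_cons.2 ⟨kx36, (List.forall_mem_cons.2 ⟨kx37, (List.forall_mem_cons.2 ⟨kx38, (List.forall_mem_cons.2 ⟨kx39, (List.forall_mem_cons.2 ⟨kx40, (List.forall_mem_cons.2 ⟨kx41, (List.forall_mem_cons.2 ⟨kx42, (List.forall_mem_cons.2 ⟨kx43, (List.forall_mem_cons.2 ⟨kx44, (List.forall_mem_cons.2 ⟨kx45, (List.forall_mem_cons.2 ⟨kx46, (List.forall_mem_cons.2 ⟨kx47,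 (List.forall_mem_cons.2 ⟨kx48, (List.forall_mem_cons.2 ⟨kx49, (List.forall_mem_cons.2 ⟨kx50, (List.forall_mem_cons.2 ⟨kx51, (List.forall_mem_cons.2 ⟨kx52, (List.forall_mem_cons.2 ⟨kx53, (List.forall_mem_cons.2 ⟨kx54, (List.forall_mem_cons.2 ⟨kx55, (List.forall_mem_cons.2 ⟨kx56, (List.forall_mem_cons.2 ⟨kx57, (List.forall_mem_cons.2 ⟨kx58, (List.forall_mem_cons.2 ⟨kx59, (List.forall_mem_cons.2 ⟨kx60, (List.forall_mem_cons.2 ⟨kx61, (List.forall_mem_cons.2 ⟨kx62, (List.forall_mem_cons.2 ⟨kx63, (List.forall_mem_cons.2 ⟨kx64, (List.forall_mem_cons.2 ⟨kx65, (List.forall_mem_cons.2 ⟨kx66, (List.forall_mem_cons.2 ⟨kx67, (List.forall_mem_cons.2 ⟨kx68, (List.forall_mem_cons.2 ⟨kx69, (List.forall_mem_cons.2 ⟨kx70, (List.forall_mem_cons.2 ⟨kx71, (List.forall_mem_cons.2 ⟨kx72, (List.forall_mem_cons.2 ⟨kx73, (List.forall_mem_cons.2 ⟨kx74,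 (List.forall_mem_cons.2 ⟨kx75, (List.forall_mem_cons.2 ⟨kx76, (List.forall_mem_cons.2 ⟨kx77, (List.forall_mem_cons.2 ⟨kx78, (List.forall_mem_cons.2 ⟨kx79, (List.forall_mem_cons.2 ⟨kx80, (List.forall_mem_cons.2 ⟨kx81, (List.forall_mem_cons.2 ⟨kx82, (List.forall_mem_cons.2 ⟨kx83, (List.forall_mem_cons.2 ⟨kx84, (List.forall_mem_cons.2 ⟨kx85, (List.forall_mem_cons.2 ⟨kx86, (List.forall_mem_cons.2 ⟨kx87, (List.forall_mem_cons.2 ⟨kx88, (List.forall_mem_cons.2 ⟨kx89, (List.forall_mem_cons.2 ⟨kx90, (List.forall_mem_cons.2 ⟨kx91, (List.forall_mem_cons.2 ⟨kx92, (List.forall_mem_cons.2 ⟨kx93, (List.forall_mem_cons.2 ⟨kx94, (List.forall_mem_cons.2 ⟨kx95, (List.forall_mem_cons.2 ⟨kx96, (List.forall_mem_cons.2 ⟨kx97, (List.forall_mem_cons.2 ⟨kx98, (List.forall_mem_cons.2 ⟨kx99, (List.forall_mem_cons.2 ⟨kx100, (List.forall_mem_cons.2 ⟨kx101,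 (List.forall_mem_cons.2 ⟨kx102, (List.forall_mem_cons.2 ⟨kx103, (List.forall_mem_cons.2 ⟨kx104, (List.forall_mem_cons.2 ⟨kx105, (List.forall_mem_cons.2 ⟨kx106, (List.forall_mem_cons.2 ⟨kx107, (List.forall_mem_cons.2 ⟨kx108, (List.forall_mem_cons.2 ⟨kx109, (List.forall_mem_cons.2 ⟨kx110, (List.forall_mem_cons.2 ⟨kx111, (List.forall_mem_cons.2 ⟨kx112, (List.forall_mem_cons.2 ⟨kx113, (List.forall_mem_cons.2 ⟨kx114, (List.forall_mem_cons.2 ⟨kx115, (List.forall_mem_cons.2 ⟨kx116, (List.forall_mem_cons.2 ⟨kx117, (List.forall_mem_cons.2 ⟨kx118, (List.forall_mem_cons.2 ⟨kx119, (List.forall_mem_cons.2 ⟨kx120, (List.forall_mem_cons.2 ⟨kx121, (List.forall_mem_cons.2 ⟨kx122, (List.forall_mem_cons.2 ⟨kx123, (List.forall_mem_cons.2 ⟨kx124, (List.forall_mem_cons.2 ⟨kx125, (List.forall_mem_cons.2 ⟨kx126, (List.forall_mem_cons.2 ⟨kx127,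 (List.forall_mem_cons.2 ⟨kx128, (List.forall_mem_cons.2 ⟨kx129, (List.forall_mem_cons.2 ⟨kx130, (List.forall_mem_cons.2 ⟨kx131, (List.forall_mem_cons.2 ⟨kx132, (List.forall_mem_cons.2 ⟨kx133, (List.forall_mem_cons.2 ⟨kx134, (List.forall_mem_cons.2 ⟨kx135, (List.forall_mem_cons.2 ⟨kx136, (List.forall_mem_cons.2 ⟨kx137, (List.forall_mem_cons.2 ⟨kx138, (List.forall_mem_cons.2 ⟨kx139, (List.forall_mem_cons.2 ⟨kx140, (List.forall_mem_cons.2 ⟨kx141, (List.forall_mem_cons.2 ⟨kx142, (List.forall_mem_cons.2 ⟨kx143, (List.forall_mem_cons.2 ⟨kx144, (List.forall_mem_cons.2 ⟨kx145, (List.forall_mem_cons.2 ⟨kx146, (List.forall_mem_cons.2 ⟨kx147, (List.forall_mem_cons.2 ⟨kx148, (List.forall_mem_cons.2 ⟨kx149, (List.forall_mem_cons.2 ⟨kx150, (List.forall_mem_cons.2 ⟨kx151, (List.forall_mem_cons.2 ⟨kx152, (List.forall_mem_cons.2 ⟨kx153,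 (List.forall_mem_cons.2 ⟨kx154, (List.forall_mem_cons.2 ⟨kx155, (List.forall_mem_cons.2 ⟨kx156, (List.forall_mem_cons.2 ⟨kx157, (List.forall_mem_cons.2 ⟨kx158, (List.forall_mem_cons.2 ⟨kx159, (List.forall_mem_cons.2 ⟨kx160, (List.forall_mem_cons.2 ⟨kx161, (List.forall_mem_cons.2 ⟨kx162, (List.forall_mem_cons.2 ⟨kx163, (List.forall_mem_cons.2 ⟨kx164, (List.forall_mem_cons.2 ⟨kx165, (List.forall_mem_cons.2 ⟨kx166, (List.forall_mem_cons.2 ⟨kx167, (List.forall_mem_cons.2 ⟨kx168, (List.forall_mem_cons.2 ⟨kx169, (List.forall_mem_cons.2 ⟨kx170, (List.forall_mem_cons.2 ⟨kx171, (List.forall_mem_cons.2 ⟨kx172, (List.forall_mem_cons.2 ⟨kx173, (List.forall_mem_cons.2 ⟨kx174, (List.forall_mem_cons.2 ⟨kx175, (List.forall_mem_cons.2 ⟨kx176, (List.forall_mem_cons.2 ⟨kx177, (List.forall_mem_cons.2 ⟨kx178, (List.forall_mem_cons.2 ⟨kx179,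 (List.forall_mem_cons.2 ⟨kx180, (List.forall_mem_cons.2 ⟨kx181, (List.forall_mem_cons.2 ⟨kx182, (List.forall_mem_cons.2 ⟨kx183, (List.forall_mem_cons.2 ⟨kx184, (List.forall_mem_cons.2 ⟨kx185, (List.forall_mem_cons.2 ⟨kx186, (List.forall_mem_cons.2 ⟨kx187, (List.forall_mem_cons.2 ⟨kx188, (List.forall_mem_cons.2 ⟨kx189, (List.forall_mem_cons.2 ⟨kx190, (List.forall_mem_cons.2 ⟨kx191, (List.forall_mem_cons.2 ⟨kx192, (List.forall_mem_cons.2 ⟨kx193, (List.forall_mem_cons.2 ⟨kx194, (List.forall_mem_cons.2 ⟨kx195, (List.forall_mem_cons.2 ⟨kx196, (List.forall_mem_cons.2 ⟨kx197, (List.forall_mem_cons.2 ⟨kx198, (List.forall_mem_cons.2 ⟨kx199, (List.forall_mem_cons.2 ⟨kx200, (List.forall_mem_cons.2 ⟨kx201, (List.forall_mem_cons.2 ⟨kx202, (List.forall_mem_cons.2 ⟨kx203, (List.forall_mem_cons.2 ⟨kx204, (List.forall_mem_cons.2 ⟨kx205,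 (List.forall_mem_cons.2 ⟨kx206, (List.forall_mem_cons.2 ⟨kx207, (List.forall_mem_cons.2 ⟨kx208, (List.forall_mem_cons.2 ⟨kx209, (List.forall_mem_cons.2 ⟨kx210, (List.forall_mem_cons.2 ⟨kx211, (List.forall_mem_cons.2 ⟨kx212, (List.forall_mem_cons.2 ⟨kx213, (List.forall_mem_cons.2 ⟨kx214, (List.forall_mem_cons.2 ⟨kx215, (List.forall_mem_cons.2 ⟨kx216, (List.forall_mem_cons.2 ⟨kx217, (List.forall_mem_cons.2 ⟨kx218, (List.forall_mem_cons.2 ⟨kx219, (List.forall_mem_cons.2 ⟨kx220, (List.forall_mem_cons.2 ⟨kx221, (List.forall_mem_cons.2 ⟨kx222, (List.forall_mem_cons.2 ⟨kx223, (List.forall_mem_cons.2 ⟨kx224, (List.forall_mem_cons.2 ⟨kx225, (List.forall_mem_cons.2 ⟨kx226, (List.forall_mem_cons.2 ⟨kx227, (List.forall_mem_cons.2 ⟨kx228, (List.forall_mem_cons.2 ⟨kx229, (List.forall_mem_cons.2 ⟨kx230, (List.forall_mem_cons.2 ⟨kx231,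 (List.forall_mem_cons.2 ⟨kx232, (List.forall_mem_cons.2 ⟨kx233, (List.forall_mem_cons.2 ⟨kx234, (List.forall_mem_cons.2 ⟨kx235, (List.forall_mem_cons.2 ⟨kx236, (List.forall_mem_cons.2 ⟨kx237, (List.forall_mem_cons.2 ⟨kx238, (List.forall_mem_cons.2 ⟨kx239, (List.forall_mem_cons.2 ⟨kx240, (List.forall_mem_cons.2 ⟨kx241, (List.forall_mem_cons.2 ⟨kx242, (List.forall_mem_cons.2 ⟨kx243, (List.forall_mem_cons.2 ⟨kx244, (List.forall_mem_cons.2 ⟨kx245, (List.forall_mem_cons.2 ⟨kx246, (List.forall_mem_cons.2 ⟨kx247, (List.forall_mem_cons.2 ⟨kx248, (List.forall_mem_cons.2 ⟨kx249, (List.forall_mem_cons.2 ⟨kx250, (List.forall_mem_cons.2 ⟨kx251, (List.forall_mem_cons.2 ⟨kx252, (List.forall_mem_cons.2 ⟨kx253, (List.forall_mem_cons.2 ⟨kx254, (List.forall_mem_cons.2 ⟨kx255, (List.forall_mem_cons.2 ⟨kx256, (List.forall_mem_cons.2 ⟨kx257,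 (List.forall_mem_cons.2 ⟨kx258, (List.forall_mem_cons.2 ⟨kx259, (List.forall_mem_cons.2 ⟨kx260, (List.forall_mem_cons.2 ⟨kx261, (List.forall_mem_cons.2 ⟨kx262, (List.forall_mem_cons.2 ⟨kx263, (List.forall_mem_cons.2 ⟨kx264, (List.forall_mem_cons.2 ⟨kx265, (List.forall_mem_cons.2 ⟨kx266, (List.forall_mem_cons.2 ⟨kx267, (List.forall_mem_cons.2 ⟨kx268, (List.forall_mem_cons.2 ⟨kx269, (List.forall_mem_cons.2 ⟨kx270, (List.forall_mem_cons.2 ⟨kx271, (List.forall_mem_cons.2 ⟨kx272, (List.forall_mem_cons.2 ⟨kx273, (List.forall_mem_cons.2 ⟨kx274, (List.forall_mem_cons.2 ⟨kx275, (List.forall_mem_cons.2 ⟨kx276, (List.forall_mem_cons.2 ⟨kx277, (List.forall_mem_cons.2 ⟨kx278, (List.forall_mem_cons.2 ⟨kx279, (List.forall_mem_cons.2 ⟨kx280, (List.forall_mem_cons.2 ⟨kx281, (List.forall_mem_cons.2 ⟨kx282, (List.forall_mem_cons.2 ⟨kx283,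 (List.forall_mem_cons.2 ⟨kx284, (List.forall_mem_cons.2 ⟨kx285, (List.forall_mem_cons.2 ⟨kx286, (List.forall_mem_cons.2 ⟨kx287, (List.forall_mem_cons.2 ⟨kx288, (List.forall_mem_cons.2 ⟨kx289, (List.forall_mem_cons.2 ⟨kx290, (List.forall_mem_cons.2 ⟨kx291, (List.forall_mem_cons.2 ⟨kx292, (List.forall_mem_cons.2 ⟨kx293, (List.forall_mem_cons.2 ⟨kx294, (List.forall_mem_cons.2 ⟨kx295, (List.forall_mem_cons.2 ⟨kx296, (List.forall_mem_cons.2 ⟨kx297, (List.forall_mem_cons.2 ⟨kx298, (List.forall_mem_cons.2 ⟨kx299, (List.forall_mem_cons.2 ⟨kx300, (List.forall_mem_cons.2 ⟨kx301, (List.forall_mem_cons.2 ⟨kx302, (List.forall_mem_cons.2 ⟨kx303, (List.forall_mem_cons.2 ⟨kx304, (List.forall_mem_cons.2 ⟨kx305, (List.forall_mem_cons.2 ⟨kx306, (List.forall_mem_cons.2 ⟨kx307, (List.forall_mem_cons.2 ⟨kx308, (List.forall_mem_cons.2 ⟨kx309,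 (List.forall_mem_cons.2 ⟨kx310, (List.forall_mem_cons.2 ⟨kx311, (List.forall_mem_cons.2 ⟨kx312, (List.forall_mem_cons.2 ⟨kx313, (List.forall_mem_cons.2 ⟨kx314, (List.forall_mem_cons.2 ⟨kx315, (List.forall_mem_cons.2 ⟨kx316, (List.forall_mem_cons.2 ⟨kx317, (List.forall_mem_cons.2 ⟨kx318, (List.forall_mem_cons.2 ⟨kx319, (List.forall_mem_cons.2 ⟨kx320, (List.forall_mem_cons.2 ⟨kx321, (List.forall_mem_cons.2 ⟨kx322, (List.forall_mem_cons.2 ⟨kx323, (List.forall_mem_cons.2 ⟨kx324, (List.forall_mem_cons.2 ⟨kx325, (List.forall_mem_cons.2 ⟨kx326, (List.forall_mem_cons.2 ⟨kx327, (List.forall_mem_cons.2 ⟨kx328, (List.forall_mem_cons.2 ⟨kx329, (List.forall_mem_cons.2 ⟨kx330, (List.forall_mem_cons.2 ⟨kx331, (List.forall_mem_cons.2 ⟨kx332, (List.forall_mem_cons.2 ⟨kx333, (List.forall_mem_cons.2 ⟨kx334, (List.forall_mem_cons.2 ⟨kx335,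 List.forall_mem_nil _⟩)⟩)⟩)⟩)⟩)⟩)⟩)⟩)⟩)⟩)⟩)⟩)⟩)⟩)⟩)⟩)⟩)⟩)⟩)⟩)⟩)⟩)⟩)⟩)⟩)⟩)⟩)⟩)⟩)⟩)⟩)⟩)⟩)⟩)⟩)⟩)⟩)⟩)⟩)⟩)⟩)⟩)⟩)⟩)⟩)⟩)⟩)⟩)⟩)⟩)⟩)⟩)⟩)⟩)⟩)⟩)⟩)⟩)⟩)⟩)⟩)⟩)⟩)⟩)⟩)⟩)⟩)⟩)⟩)⟩)⟩)⟩)⟩)⟩)⟩)⟩)⟩)⟩)⟩)⟩)⟩)⟩)⟩)⟩)⟩)⟩)⟩)⟩)⟩)⟩)⟩)⟩)⟩)⟩)⟩)⟩)⟩)⟩)⟩)⟩)⟩)⟩)⟩)⟩)⟩)⟩)⟩)⟩)⟩)⟩)⟩)⟩)⟩)⟩)⟩)⟩)⟩)⟩)⟩)⟩)⟩)⟩)⟩)⟩)⟩)⟩)⟩)⟩)⟩)⟩)⟩)⟩)⟩)⟩)⟩)⟩)⟩)⟩)⟩)⟩)⟩)⟩)⟩)⟩)⟩)⟩)⟩)⟩)⟩)⟩)⟩)⟩)⟩)⟩)⟩)⟩)⟩)⟩)⟩)⟩)⟩)⟩)⟩)⟩)⟩)⟩)⟩)⟩)⟩)⟩)⟩)⟩)⟩)⟩)⟩)⟩)⟩)⟩)⟩)⟩)⟩)⟩)⟩)⟩)⟩)⟩)⟩)⟩)⟩)⟩)⟩)⟩)⟩)⟩)⟩)⟩)⟩)⟩)⟩)⟩)⟩)⟩)⟩)⟩)⟩)⟩)⟩)⟩)⟩)⟩)⟩)⟩)⟩)⟩)⟩)⟩)⟩)⟩)⟩)⟩)⟩)⟩)⟩)⟩)⟩)⟩)⟩)⟩)⟩)⟩)⟩)⟩)⟩)⟩)⟩)⟩)⟩)⟩)⟩)⟩)⟩)⟩)⟩)⟩)⟩)⟩)⟩)⟩)⟩)⟩)⟩)⟩)⟩)⟩)⟩)⟩)⟩)⟩)⟩)⟩)⟩)⟩)⟩)⟩)⟩)⟩)⟩)⟩)⟩)⟩)⟩)⟩)⟩)⟩)⟩)⟩)⟩)⟩)⟩)⟩)⟩)⟩)⟩)⟩)⟩)⟩)⟩)⟩)⟩)⟩)⟩)⟩)⟩)⟩)⟩)⟩)⟩)⟩)⟩)⟩)⟩)⟩)⟩)⟩)⟩)⟩)⟩)⟩)⟩)⟩)⟩)⟩)⟩)⟩)⟩)⟩)⟩)⟩)⟩)⟩)⟩)⟩)⟩)⟩)⟩)⟩)⟩)⟩)⟩)⟩)⟩)⟩)⟩)⟩)⟩)⟩) (by decide +kernel)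

/-- The checks of the tables, with the listed shares. -/
theorem ok : cT.OKJ Cz.tj Cz.tp where
  toOKR := okR
  qc := qc
  pc := pc

/-- The windows of the rings. -/
theorem win : DT.all (wzR cT Cz.tj Cz.tp Cz.tv) Cz.tv = true :=
  (DT.all_nd (DT.all_nd (DT.all_nd (DT.all_nd (DT.all_nd (DT.all_nd (DT.all_nd (DT.all_nd (DT.all_nd (DT.all_nd (DT.all_nd (DT.all_nd (DT.all_nd (DT.all_nd ytv000 ytv001) (DT.all_nd ytv002 ytv003)) (DT.all_nd (DT.all_nd ytv004 ytv005) (DT.all_nd ytv006 ytv007))) (DT.all_nd (DT.all_nd (DT.all_nd ytv008 ytv009) (DT.all_nd ytv010 ytv011)) (DT.all_nd (DT.all_nd ytv012 ytv013) ytv014))) (DT.all_nd (DT.all_nd (DT.all_nd ytv015 ytv016) (DT.all_nd (DT.all_nd ytv017 ytv018) (DT.all_nd ytv019 ytv020))) (DT.all_nd (DT.all_nd (DT.all_nd ytv021 ytv022) ytv023) (DT.all_nd (DT.all_nd ytv024 ytv025) ytv026)))) (DT.all_nd (DT.all_nd (DT.all_nd (DT.all_nd (DT.all_nd ytv027 ytv028) (DT.all_nd ytv029 ytv030)) (DT.all_nd (DT.all_nd ytv031 ytv032) (DT.all_nd ytv033 ytv034))) (DT.all_nd (DT.all_nd (DT.all_nd ytv035 ytv036) (DT.all_nd ytv037 ytv038)) (DT.all_nd (DT.all_nd ytv039 ytv040) ytv041))) (DT.all_nd (DT.all_nd (DT.all_nd ytv042 (DT.all_nd ytv043 ytv044)) (DT.all_nd ytv045 (DT.all_nd ytv046 ytv047))) (DT.all_nd (DT.all_nd (DT.all_nd ytv048 ytv049) (DT.all_nd ytv050 ytv051)) (DT.all_nd (DT.all_nd ytv052 ytv053) ytv054))))) (DT.all_nd (DT.all_nd (DT.all_nd (DT.all_nd (DT.all_nd (DT.all_nd ytv055 ytv056) ytv057) (DT.all_nd (DT.all_nd ytv058 ytv059) ytv060)) (DT.all_nd (DT.all_nd (DT.all_nd ytv061 ytv062) ytv063) (DT.all_nd (DT.all_nd ytv064 ytv065) (DT.all_nd ytv066 ytv067)))) (DT.all_nd (DT.all_nd (DT.all_nd ytv068 (DT.all_nd ytv069 ytv070)) (DT.all_nd ytv071 (DT.all_nd (DT.all_nd ytv072 ytv073) ytv074))) (DT.all_nd (DT.all_nd (DT.all_nd ytv075 ytv076) (DT.all_nd ytv077 ytv078)) (DT.all_nd (DT.all_nd ytv079 ytv080) (DT.all_nd ytv081 ytv082))))) (DT.all_nd (DT.all_nd (DT.all_nd (DT.all_nd (DT.all_nd ytv083 ytv084) (DT.all_nd ytv085 ytv086)) (DT.all_nd (DT.all_nd ytv087 ytv088) (DT.all_nd ytv089 (DT.all_nd ytv090 ytv091)))) (DT.all_nd (DT.all_nd (DT.all_nd (DT.all_nd ytv092 ytv093) ytv094) ytv095) (DT.all_nd (DT.all_nd ytv096 ytv097) ytv098))) (DT.all_nd (DT.all_nd (DT.all_nd ytv099 (DT.all_nd ytv100 (DT.all_nd ytv101 ytv102))) (DT.all_nd (DT.all_nd ytv103 ytv104) (DT.all_nd ytv105 ytv106))) (DT.all_nd (DT.all_nd ytv107 (DT.all_nd ytv108 ytv109)) (DT.all_nd (DT.all_nd ytv110 ytv111) ytv112)))))) (DT.all_nd (DT.all_nd (DT.all_nd (DT.all_nd (DT.all_nd (DT.all_nd (DT.all_nd ytv113 ytv114) (DT.all_nd ytv115 ytv116)) (DT.all_nd (DT.all_nd ytv117 ytv118) (DT.all_nd ytv119 ytv120))) (DT.all_nd (DT.all_nd (DT.all_nd ytv121 (DT.all_nd ytv122 ytv123)) (DT.all_nd ytv124 ytv125)) (DT.all_nd ytv126 ytv127))) (DT.all_nd (DT.all_nd (DT.all_nd (DT.all_nd ytv128 ytv129) (DT.all_nd ytv130 ytv131)) (DT.all_nd ytv132 ytv133)) (DT.all_nd (DT.all_nd ytv134 ytv135) (DT.all_nd ytv136 ytv137)))) (DT.all_nd (DT.all_nd (DT.all_nd (DT.all_nd (DT.all_nd ytv138 ytv139) (DT.all_nd ytv140 ytv141)) (DT.all_nd (DT.all_nd ytv142 ytv143) (DT.all_nd ytv144 (DT.all_nd ytv145 ytv146)))) (DT.all_nd (DT.all_nd (DT.all_nd (DT.all_nd ytv147 ytv148) ytv149) (DT.all_nd ytv150 ytv151)) (DT.all_nd (DT.all_nd ytv152 ytv153) ytv154))) (DT.all_nd (DT.all_nd (DT.all_nd ytv155 ytv156) (DT.all_nd (DT.all_nd ytv157 ytv158) ytv159)) (DT.all_nd (DT.all_nd (DT.all_nd ytv160 ytv161) (DT.all_nd ytv162 ytv163)) (DT.all_nd ytv164 ytv165))))) (DT.all_nd (DT.all_nd (DT.all_nd (DT.all_nd (DT.all_nd (DT.all_nd ytv166 ytv167) (DT.all_nd ytv168 ytv169)) (DT.all_nd (DT.all_nd ytv170 ytv171) (DT.all_nd ytv172 ytv173))) (DT.all_nd (DT.all_nd (DT.all_nd ytv174 ytv175) (DT.all_nd (DT.all_nd ytv176 ytv177) ytv178)) (DT.all_nd (DT.all_nd ytv179 ytv180) (DT.all_nd ytv181 ytv182)))) (DT.all_nd (DT.all_nd (DT.all_nd (DT.all_nd ytv183 ytv184) (DT.all_nd ytv185 ytv186)) (DT.all_nd (DT.all_nd ytv187 ytv188) (DT.all_nd ytv189 ytv190))) (DT.all_nd (DT.all_nd (DT.all_nd ytv191 ytv192) (DT.all_nd ytv193 ytv194)) (DT.all_nd (DT.all_nd ytv195 ytv196) (DT.all_nd ytv197 ytv198))))) (DT.all_nd (DT.all_nd (DT.all_nd (DT.all_nd (DT.all_nd ytv199 ytv200) ytv201) (DT.all_nd (DT.all_nd ytv202 ytv203) (DT.all_nd ytv204 ytv205))) (DT.all_nd (DT.all_nd (DT.all_nd ytv206 ytv207) (DT.all_nd ytv208 ytv209)) (DT.all_nd ytv210 ytv211))) (DT.all_nd (DT.all_nd (DT.all_nd (DT.all_nd ytv212 ytv213) ytv214) (DT.all_nd ytv215 ytv216)) (DT.all_nd (DT.all_nd ytv217 ytv218) (DT.all_nd ytv219 ytv220))))))) (DT.all_nd (DT.all_nd (DT.all_nd (DT.all_nd (DT.all_nd (DT.all_nd (DT.all_nd (DT.all_nd ytv221 ytv222) (DT.all_nd ytv223 ytv224)) (DT.all_nd (DT.all_nd ytv225 ytv226) (DT.all_nd ytv227 ytv228))) (DT.all_nd (DT.all_nd (DT.all_nd ytv229 ytv230) (DT.all_nd ytv231 ytv232)) (DT.all_nd (DT.all_nd ytv233 ytv234) (DT.all_nd ytv235 ytv236)))) (DT.all_nd (DT.all_nd (DT.all_nd (DT.all_nd ytv237 ytv238) (DT.all_nd ytv239 ytv240)) (DT.all_nd (DT.all_nd (DT.all_nd ytv241 ytv242) ytv243) (DT.all_nd ytv244 ytv245))) (DT.all_nd (DT.all_nd (DT.all_nd ytv246 ytv247) (DT.all_nd ytv248 ytv249)) (DT.all_nd (DT.all_nd ytv250 ytv251) (DT.all_nd ytv252 ytv253))))) (DT.all_nd (DT.all_nd (DT.all_nd (DT.all_nd (DT.all_nd ytv254 ytv255) (DT.all_nd ytv256 ytv257)) (DT.all_nd (DT.all_nd ytv258 ytv259) (DT.all_nd ytv260 ytv261))) (DT.all_nd (DT.all_nd ytv262 (DT.all_nd ytv263 ytv264)) (DT.all_nd (DT.all_nd ytv265 ytv266) (DT.all_nd ytv267 ytv268)))) (DT.all_nd (DT.all_nd (DT.all_nd (DT.all_nd ytv269 ytv270) (DT.all_nd ytv271 ytv272)) (DT.all_nd (DT.all_nd ytv273 ytv274) (DT.all_nd ytv275 ytv276))) (DT.all_nd (DT.all_nd (DT.all_nd ytv277 ytv278) (DT.all_nd ytv279 ytv280)) (DT.all_nd (DT.all_nd ytv281 ytv282) (DT.all_nd ytv283 ytv284)))))) (DT.all_nd (DT.all_nd (DT.all_nd (DT.all_nd (DT.all_nd (DT.all_nd ytv285 ytv286) (DT.all_nd ytv287 ytv288)) (DT.all_nd (DT.all_nd ytv289 ytv290) (DT.all_nd ytv291 ytv292))) (DT.all_nd (DT.all_nd (DT.all_nd (DT.all_nd ytv293 ytv294) ytv295) (DT.all_nd ytv296 ytv297)) (DT.all_nd (DT.all_nd ytv298 ytv299) (DT.all_nd ytv300 ytv301)))) (DT.all_nd (DT.all_nd (DT.all_nd (DT.all_nd ytv302 (DT.all_nd ytv303 ytv304)) (DT.all_nd ytv305 ytv306)) (DT.all_nd (DT.all_nd ytv307 ytv308) (DT.all_nd ytv309 ytv310))) (DT.all_nd (DT.all_nd (DT.all_nd ytv311 ytv312) (DT.all_nd ytv313 ytv314)) (DT.all_nd (DT.all_nd ytv315 ytv316) (DT.all_nd ytv317 ytv318))))) (DT.all_nd (DT.all_nd (DT.all_nd (DT.all_nd (DT.all_nd ytv319 ytv320) (DT.all_nd ytv321 ytv322)) (DT.all_nd (DT.all_nd ytv323 ytv324) (DT.all_nd ytv325 ytv326))) (DT.all_nd (DT.all_nd (DT.all_nd ytv327 ytv328) (DT.all_nd ytv329 ytv330)) (DT.all_nd (DT.all_nd ytv331 ytv332) ytv333))) (DT.all_nd (DT.all_nd (DT.all_nd ytv334 ytv335) (DT.all_nd ytv336 (DT.all_nd ytv337 ytv338))) (DT.all_nd (DT.all_nd (DT.all_nd ytv339 ytv340) (DT.all_nd ytv341 ytv342)) (DT.all_nd (DT.all_nd ytv343 ytv344) (DT.all_nd ytv345 ytv346))))))) (DT.all_nd (DT.all_nd (DT.all_nd (DT.all_nd (DT.all_nd (DT.all_nd ytv347 (DT.all_nd ytv348 ytv349)) (DT.all_nd (DT.all_nd ytv350 ytv351) (DT.all_nd ytv352 ytv353))) (DT.all_nd (DT.all_nd (DT.all_nd ytv354 ytv355) (DT.all_nd ytv356 ytv357)) (DT.all_nd (DT.all_nd ytv358 ytv359) (DT.all_nd ytv360 ytv361)))) (DT.all_nd (DT.all_nd (DT.all_nd ytv362 (DT.all_nd ytv363 ytv364)) (DT.all_nd ytv365 ytv366)) (DT.all_nd (DT.all_nd ytv367 ytv368) (DT.all_nd ytv369 ytv370)))) (DT.all_nd (DT.all_nd (DT.all_nd (DT.all_nd ytv371 (DT.all_nd ytv372 ytv373)) (DT.all_nd ytv374 ytv375)) (DT.all_nd (DT.all_nd ytv376 ytv377) (DT.all_nd ytv378 (DT.all_nd ytv379 ytv380)))) (DT.all_nd (DT.all_nd (DT.all_nd (DT.all_nd ytv381 ytv382) (DT.all_nd ytv383 ytv384)) (DT.all_nd (DT.all_nd ytv385 ytv386) (DT.all_nd ytv387 ytv388))) (DT.all_nd (DT.all_nd (DT.all_nd ytv389 ytv390) (DT.all_nd ytv391 ytv392)) (DT.all_nd (DT.all_nd ytv393 ytv394) ytv395))))) (DT.all_nd (DT.all_nd (DT.all_nd (DT.all_nd (DT.all_nd (DT.all_nd ytv396 ytv397) (DT.all_nd ytv398 ytv399)) (DT.all_nd (DT.all_nd ytv400 ytv401) (DT.all_nd ytv402 ytv403))) (DT.all_nd (DT.all_nd (DT.all_nd ytv404 ytv405) (DT.all_nd ytv406 ytv407)) (DT.all_nd (DT.all_nd ytv408 ytv409) (DT.all_nd ytv410 ytv411)))) (DT.all_nd (DT.all_nd (DT.all_nd (DT.all_nd ytv412 ytv413) (DT.all_nd ytv414 ytv415)) (DT.all_nd (DT.all_nd ytv416 ytv417) (DT.all_nd ytv418 ytv419))) (DT.all_nd (DT.all_nd (DT.all_nd ytv420 ytv421) (DT.all_nd ytv422 ytv423)) (DT.all_nd (DT.all_nd ytv424 ytv425) (DT.all_nd ytv426 ytv427))))) (DT.all_nd (DT.all_nd (DT.all_nd (DT.all_nd (DT.all_nd ytv428 ytv429) (DT.all_nd ytv430 ytv431)) (DT.all_nd (DT.all_nd ytv432 ytv433) (DT.all_nd ytv434 ytv435))) (DT.all_nd (DT.all_nd (DT.all_nd ytv436 ytv437) (DT.all_nd ytv438 ytv439)) (DT.all_nd (DT.all_nd ytv440 ytv441) (DT.all_nd ytv442 ytv443)))) (DT.all_nd (DT.all_nd (DT.all_nd (DT.all_nd ytv444 ytv445) (DT.all_nd ytv446 (DT.all_nd ytv447 ytv448))) (DT.all_nd (DT.all_nd (DT.all_nd ytv449 ytv450) ytv451) (DT.all_nd ytv452 ytv453))) (DT.all_nd (DT.all_nd (DT.all_nd ytv454 ytv455) (DT.all_nd ytv456 ytv457)) (DT.all_nd (DT.all_nd ytv458 ytv459) ytv460)))))))) (DT.all_nd (DT.all_nd (DT.all_nd (DT.all_nd (DT.all_nd (DT.all_nd (DT.all_nd (DT.all_nd ytv461 ytv462) (DT.all_nd (DT.all_nd ytv463 ytv464) ytv465)) (DT.all_nd (DT.all_nd (DT.all_nd ytv466 ytv467) ytv468) (DT.all_nd ytv469 ytv470))) (DT.all_nd (DT.all_nd (DT.all_nd (DT.all_nd ytv471 ytv472) (DT.all_nd ytv473 ytv474)) (DT.all_nd (DT.all_nd ytv475 ytv476) ytv477)) (DT.all_nd (DT.all_nd (DT.all_nd ytv478 ytv479) (DT.all_nd ytv480 ytv481)) (DT.all_nd (DT.all_nd ytv482 ytv483) (DT.all_nd ytv484 ytv485))))) (DT.all_nd (DT.all_nd (DT.all_nd (DT.all_nd (DT.all_nd ytv486 ytv487) (DT.all_nd ytv488 ytv489)) (DT.all_nd (DT.all_nd ytv490 ytv491) (DT.all_nd ytv492 ytv493))) (DT.all_nd (DT.all_nd ytv494 ytv495) (DT.all_nd (DT.all_nd ytv496 ytv497) (DT.all_nd ytv498 ytv499)))) (DT.all_nd (DT.all_nd (DT.all_nd (DT.all_nd ytv500 ytv501) (DT.all_nd ytv502 ytv503)) (DT.all_nd ytv504 ytv505)) (DT.all_nd (DT.all_nd (DT.all_nd ytv506 ytv507) (DT.all_nd ytv508 ytv509)) (DT.all_nd (DT.all_nd ytv510 ytv511) (DT.all_nd ytv512 ytv513)))))) (DT.all_nd (DT.all_nd (DT.all_nd (DT.all_nd (DT.all_nd (DT.all_nd ytv514 ytv515) (DT.all_nd ytv516 ytv517)) (DT.all_nd (DT.all_nd ytv518 ytv519) ytv520)) (DT.all_nd (DT.all_nd ytv521 (DT.all_nd ytv522 ytv523)) (DT.all_nd (DT.all_nd ytv524 ytv525) ytv526))) (DT.all_nd (DT.all_nd (DT.all_nd ytv527 ytv528) (DT.all_nd (DT.all_nd ytv529 ytv530) (DT.all_nd ytv531 ytv532))) (DT.all_nd (DT.all_nd (DT.all_nd ytv533 ytv534) (DT.all_nd ytv535 ytv536)) (DT.all_nd (DT.all_nd ytv537 ytv538) (DT.all_nd ytv539 ytv540))))) (DT.all_nd (DT.all_nd (DT.all_nd (DT.all_nd (DT.all_nd ytv541 ytv542) ytv543) (DT.all_nd (DT.all_nd ytv544 ytv545) (DT.all_nd ytv546 ytv547))) (DT.all_nd (DT.all_nd ytv548 ytv549) (DT.all_nd ytv550 (DT.all_nd ytv551 ytv552)))) (DT.all_nd (DT.all_nd (DT.all_nd (DT.all_nd ytv553 ytv554) (DT.all_nd ytv555 ytv556)) (DT.all_nd (DT.all_nd ytv557 ytv558) (DT.all_nd ytv559 ytv560))) (DT.all_nd (DT.all_nd (DT.all_nd ytv561 ytv562) (DT.all_nd ytv563 ytv564)) (DT.all_nd (DT.all_nd ytv565 ytv566) (DT.all_nd ytv567 ytv568))))))) (DT.all_nd (DT.all_nd (DT.all_nd (DT.all_nd (DT.all_nd (DT.all_nd (DT.all_nd ytv569 ytv570) (DT.all_nd ytv571 ytv572)) (DT.all_nd (DT.all_nd ytv573 ytv574) (DT.all_nd ytv575 ytv576))) (DT.all_nd (DT.all_nd ytv577 (DT.all_nd ytv578 ytv579)) (DT.all_nd ytv580 (DT.all_nd ytv581 ytv582)))) (DT.all_nd (DT.all_nd (DT.all_nd (DT.all_nd ytv583 ytv584) (DT.all_nd ytv585 ytv586)) (DT.all_nd (DT.all_nd ytv587 ytv588) (DT.all_nd ytv589 ytv590))) (DT.all_nd (DT.all_nd (DT.all_nd ytv591 ytv592) (DT.all_nd ytv593 ytv594)) (DT.all_nd (DT.all_nd ytv595 ytv596) (DT.all_nd ytv597 ytv598))))) (DT.all_nd (DT.all_nd (DT.all_nd (DT.all_nd (DT.all_nd ytv599 ytv600) (DT.all_nd ytv601 ytv602)) (DT.all_nd ytv603 ytv604)) (DT.all_nd (DT.all_nd (DT.all_nd ytv605 ytv606) ytv607) (DT.all_nd ytv608 (DT.all_nd ytv609 ytv610)))) (DT.all_nd (DT.all_nd (DT.all_nd (DT.all_nd ytv611 ytv612) (DT.all_nd ytv613 ytv614)) (DT.all_nd ytv615 (DT.all_nd ytv616 ytv617))) (DT.all_nd (DT.all_nd (DT.all_nd ytv618 ytv619) ytv620) (DT.all_nd ytv621 (DT.all_nd ytv622 ytv623)))))) (DT.all_nd (DT.all_nd (DT.all_nd (DT.all_nd (DT.all_nd (DT.all_nd ytv624 ytv625) (DT.all_nd ytv626 ytv627)) (DT.all_nd (DT.all_nd ytv628 ytv629) (DT.all_nd ytv630 ytv631))) (DT.all_nd (DT.all_nd (DT.all_nd ytv632 ytv633) (DT.all_nd ytv634 ytv635)) (DT.all_nd (DT.all_nd ytv636 ytv637) (DT.all_nd ytv638 ytv639)))) (DT.all_nd (DT.all_nd (DT.all_nd (DT.all_nd ytv640 ytv641) (DT.all_nd ytv642 ytv643)) (DT.all_nd (DT.all_nd ytv644 ytv645) ytv646)) (DT.all_nd (DT.all_nd (DT.all_nd ytv647 ytv648) (DT.all_nd ytv649 ytv650)) (DT.all_nd (DT.all_nd ytv651 ytv652) (DT.all_nd ytv653 ytv654))))) (DT.all_nd (DT.all_nd (DT.all_nd (DT.all_nd ytv655 (DT.all_nd ytv656 (DT.all_nd ytv657 ytv658))) (DT.all_nd ytv659 (DT.all_nd ytv660 ytv661))) (DT.all_nd (DT.all_nd ytv662 ytv663) (DT.all_nd ytv664 (DT.all_nd ytv665 ytv666)))) (DT.all_nd (DT.all_nd (DT.all_nd (DT.all_nd ytv667 ytv668) (DT.all_nd ytv669 ytv670)) (DT.all_nd (DT.all_nd ytv671 ytv672) (DT.all_nd ytv673 ytv674))) (DT.all_nd (DT.all_nd (DT.all_nd ytv675 ytv676) (DT.all_nd ytv677 ytv678)) (DT.all_nd (DT.all_nd ytv679 ytv680) (DT.all_nd ytv681 ytv682)))))))) (DT.all_nd (DT.all_nd (DT.all_nd (DT.all_nd (DT.all_nd (DT.all_nd (DT.all_nd (DT.all_nd ytv683 ytv684) ytv685) (DT.all_nd (DT.all_nd ytv686 ytv687) (DT.all_nd ytv688 ytv689))) (DT.all_nd (DT.all_nd (DT.all_nd ytv690 ytv691) (DT.all_nd ytv692 ytv693)) (DT.all_nd (DT.all_nd ytv694 ytv695) (DT.all_nd ytv696 ytv697)))) (DT.all_nd (DT.all_nd (DT.all_nd (DT.all_nd ytv698 ytv699) (DT.all_nd ytv700 ytv701)) (DT.all_nd ytv702 ytv703)) (DT.all_nd (DT.all_nd (DT.all_nd ytv704 ytv705) (DT.all_nd ytv706 ytv707)) (DT.all_nd (DT.all_nd ytv708 ytv709) (DT.all_nd ytv710 ytv711))))) (DT.all_nd (DT.all_nd (DT.all_nd (DT.all_nd (DT.all_nd ytv712 ytv713) (DT.all_nd ytv714 ytv715)) (DT.all_nd (DT.all_nd ytv716 ytv717) (DT.all_nd ytv718 ytv719))) (DT.all_nd (DT.all_nd ytv720 ytv721) (DT.all_nd ytv722 ytv723))) (DT.all_nd (DT.all_nd (DT.all_nd (DT.all_nd ytv724 ytv725) (DT.all_nd ytv726 ytv727)) (DT.all_nd ytv728 (DT.all_nd ytv729 ytv730))) (DT.all_nd (DT.all_nd ytv731 ytv732) (DT.all_nd ytv733 ytv734))))) (DT.all_nd (DT.all_nd (DT.all_nd (DT.all_nd (DT.all_nd (DT.all_nd ytv735 ytv736) (DT.all_nd ytv737 ytv738)) (DT.all_nd (DT.all_nd ytv739 ytv740) (DT.all_nd ytv741 (DT.all_nd ytv742 ytv743)))) (DT.all_nd (DT.all_nd (DT.all_nd ytv744 ytv745) (DT.all_nd (DT.all_nd ytv746 ytv747) ytv748)) (DT.all_nd (DT.all_nd ytv749 ytv750) (DT.all_nd ytv751 ytv752)))) (DT.all_nd (DT.all_nd (DT.all_nd ytv753 ytv754) (DT.all_nd ytv755 ytv756)) (DT.all_nd (DT.all_nd ytv757 ytv758) (DT.all_nd (DT.all_nd ytv759 ytv760) (DT.all_nd ytv761 ytv762))))) (DT.all_nd (DT.all_nd (DT.all_nd (DT.all_nd (DT.all_nd ytv763 ytv764) (DT.all_nd ytv765 ytv766)) (DT.all_nd (DT.all_nd ytv767 ytv768) (DT.all_nd ytv769 ytv770))) (DT.all_nd (DT.all_nd (DT.all_nd ytv771 ytv772) ytv773) (DT.all_nd ytv774 ytv775))) (DT.all_nd (DT.all_nd (DT.all_nd ytv776 ytv777) (DT.all_nd (DT.all_nd ytv778 ytv779) (DT.all_nd ytv780 ytv781))) (DT.all_nd (DT.all_nd (DT.all_nd ytv782 ytv783) ytv784) (DT.all_nd ytv785 (DT.all_nd ytv786 ytv787))))))) (DT.all_nd (DT.all_nd (DT.all_nd (DT.all_nd (DT.all_nd (DT.all_nd (DT.all_nd ytv788 ytv789) (DT.all_nd ytv790 ytv791)) (DT.all_nd (DT.all_nd ytv792 ytv793) (DT.all_nd ytv794 ytv795))) (DT.all_nd (DT.all_nd (DT.all_nd ytv796 ytv797) (DT.all_nd ytv798 ytv799)) (DT.all_nd (DT.all_nd ytv800 ytv801) (DT.all_nd ytv802 ytv803)))) (DT.all_nd (DT.all_nd (DT.all_nd (DT.all_nd ytv804 ytv805) (DT.all_nd ytv806 ytv807)) (DT.all_nd (DT.all_nd ytv808 (DT.all_nd ytv809 ytv810)) ytv811)) (DT.all_nd (DT.all_nd ytv812 ytv813) (DT.all_nd (DT.all_nd ytv814 ytv815) ytv816)))) (DT.all_nd (DT.all_nd (DT.all_nd (DT.all_nd ytv817 ytv818) (DT.all_nd (DT.all_nd ytv819 ytv820) (DT.all_nd ytv821 ytv822))) (DT.all_nd (DT.all_nd ytv823 (DT.all_nd ytv824 ytv825)) (DT.all_nd (DT.all_nd ytv826 ytv827) ytv828))) (DT.all_nd (DT.all_nd (DT.all_nd ytv829 ytv830) (DT.all_nd (DT.all_nd ytv831 ytv832) (DT.all_nd ytv833 ytv834))) (DT.all_nd (DT.all_nd ytv835 (DT.all_nd ytv836 ytv837)) (DT.all_nd (DT.all_nd ytv838 ytv839) (DT.all_nd ytv840 ytv841)))))) (DT.all_nd (DT.all_nd (DT.all_nd (DT.all_nd (DT.all_nd ytv842 (DT.all_nd ytv843 (DT.all_nd ytv844 ytv845))) (DT.all_nd ytv846 (DT.all_nd ytv847 ytv848))) (DT.all_nd (DT.all_nd (DT.all_nd ytv849 ytv850) (DT.all_nd ytv851 ytv852)) (DT.all_nd ytv853 (DT.all_nd ytv854 ytv855)))) (DT.all_nd (DT.all_nd (DT.all_nd (DT.all_nd ytv856 ytv857) ytv858) (DT.all_nd (DT.all_nd ytv859 ytv860) (DT.all_nd ytv861 ytv862))) (DT.all_nd (DT.all_nd (DT.all_nd ytv863 ytv864) (DT.all_nd ytv865 ytv866)) (DT.all_nd (DT.all_nd ytv867 ytv868) (DT.all_nd ytv869 ytv870))))) (DT.all_nd (DT.all_nd (DT.all_nd (DT.all_nd (DT.all_nd ytv871 ytv872) (DT.all_nd ytv873 ytv874)) (DT.all_nd (DT.all_nd ytv875 ytv876) ytv877)) (DT.all_nd (DT.all_nd ytv878 (DT.all_nd ytv879 ytv880)) (DT.all_nd (DT.all_nd ytv881 ytv882) (DT.all_nd ytv883 ytv884)))) (DT.all_nd (DT.all_nd (DT.all_nd (DT.all_nd (DT.all_nd ytv885 ytv886) ytv887) (DT.all_nd ytv888 ytv889)) (DT.all_nd (DT.all_nd ytv890 ytv891) (DT.all_nd ytv892 ytv893))) (DT.all_nd (DT.all_nd (DT.all_nd ytv894 ytv895) (DT.all_nd ytv896 ytv897)) (DT.all_nd (DT.all_nd ytv898 ytv899) (DT.all_nd ytv900 ytv901)))))))))) (DT.all_nd (DT.all_nd (DT.all_nd (DT.all_nd (DT.all_nd (DT.all_nd (DT.all_nd (DT.all_nd (DT.all_nd (DT.all_nd ytv902 ytv903) (DT.all_nd ytv904 ytv905)) (DT.all_nd (DT.all_nd ytv906 (DT.all_nd ytv907 ytv908)) (DT.all_nd ytv909 ytv910))) (DT.all_nd (DT.all_nd (DT.all_nd ytv911 ytv912) (DT.all_nd ytv913 ytv914)) (DT.all_nd (DT.all_nd (DT.all_nd ytv915 ytv916) (DT.all_nd ytv917 ytv918)) ytv919))) (DT.all_nd (DT.all_nd (DT.all_nd (DT.all_nd ytv920 ytv921) ytv922) (DT.all_nd ytv923 ytv924)) (DT.all_nd (DT.all_nd ytv925 (DT.all_nd ytv926 ytv927)) (DT.all_nd (DT.all_nd ytv928 ytv929) (DT.all_nd ytv930 ytv931))))) (DT.all_nd (DT.all_nd (DT.all_nd (DT.all_nd (DT.all_nd ytv932 ytv933) ytv934) (DT.all_nd (DT.all_nd ytv935 ytv936) ytv937)) (DT.all_nd (DT.all_nd (DT.all_nd ytv938 ytv939) ytv940) (DT.all_nd (DT.all_nd ytv941 ytv942) ytv943))) (DT.all_nd (DT.all_nd (DT.all_nd ytv944 ytv945) (DT.all_nd ytv946 (DT.all_nd ytv947 ytv948))) (DT.all_nd (DT.all_nd ytv949 ytv950) (DT.all_nd (DT.all_nd ytv951 ytv952) ytv953))))) (DT.all_nd (DT.all_nd (DT.all_nd (DT.all_nd (DT.all_nd ytv954 ytv955) (DT.all_nd ytv956 ytv957)) (DT.all_nd (DT.all_nd (DT.all_nd ytv958 ytv959) (DT.all_nd ytv960 ytv961)) (DT.all_nd (DT.all_nd ytv962 ytv963) (DT.all_nd ytv964 ytv965)))) (DT.all_nd (DT.all_nd (DT.all_nd (DT.all_nd ytv966 ytv967) ytv968) (DT.all_nd ytv969 (DT.all_nd ytv970 ytv971))) (DT.all_nd (DT.all_nd (DT.all_nd ytv972 ytv973) (DT.all_nd ytv974 ytv975)) (DT.all_nd (DT.all_nd ytv976 ytv977) ytv978)))) (DT.all_nd (DT.all_nd (DT.all_nd (DT.all_nd ytv979 ytv980) (DT.all_nd ytv981 ytv982)) (DT.all_nd (DT.all_nd ytv983 ytv984) (DT.all_nd ytv985 (DT.all_nd ytv986 ytv987)))) (DT.all_nd (DT.all_nd (DT.all_nd (DT.all_nd ytv988 ytv989) (DT.all_nd ytv990 ytv991)) (DT.all_nd (DT.all_nd ytv992 ytv993) ytv994)) (DT.all_nd (DT.all_nd ytv995 ytv996) (DT.all_nd ytv997 (DT.all_nd ytv998 ytv999))))))) (DT.all_nd (DT.all_nd (DT.all_nd (DT.all_nd (DT.all_nd (DT.all_nd ytv1000 ytv1001) (DT.all_nd ytv1002 ytv1003)) (DT.all_nd (DT.all_nd ytv1004 (DT.all_nd ytv1005 ytv1006)) (DT.all_nd (DT.all_nd ytv1007 ytv1008) (DT.all_nd ytv1009 ytv1010)))) (DT.all_nd (DT.all_nd (DT.all_nd (DT.all_nd ytv1011 ytv1012) (DT.all_nd ytv1013 ytv1014)) (DT.all_nd (DT.all_nd ytv1015 ytv1016) (DT.all_nd ytv1017 ytv1018))) (DT.all_nd (DT.all_nd (DT.all_nd ytv1019 ytv1020) ytv1021) (DT.all_nd ytv1022 (DT.all_nd ytv1023 ytv1024))))) (DT.all_nd (DT.all_nd (DT.all_nd (DT.all_nd (DT.all_nd ytv1025 ytv1026) (DT.all_nd ytv1027 ytv1028)) (DT.all_nd (DT.all_nd ytv1029 ytv1030) ytv1031)) (DT.all_nd (DT.all_nd ytv1032 ytv1033) (DT.all_nd (DT.all_nd ytv1034 ytv1035) (DT.all_nd ytv1036 ytv1037)))) (DT.all_nd (DT.all_nd (DT.all_nd (DT.all_nd ytv1038 ytv1039) ytv1040) (DT.all_nd (DT.all_nd ytv1041 ytv1042) (DT.all_nd ytv1043 ytv1044))) (DT.all_nd (DT.all_nd (DT.all_nd ytv1045 ytv1046) (DT.all_nd ytv1047 ytv1048)) (DT.all_nd (DT.all_nd ytv1049 ytv1050) (DT.all_nd ytv1051 ytv1052)))))) (DT.all_nd (DT.all_nd (DT.all_nd (DT.all_nd (DT.all_nd (DT.all_nd ytv1053 ytv1054) (DT.all_nd ytv1055 ytv1056)) (DT.all_nd (DT.all_nd ytv1057 ytv1058) (DT.all_nd ytv1059 ytv1060))) (DT.all_nd (DT.all_nd ytv1061 ytv1062) (DT.all_nd (DT.all_nd ytv1063 ytv1064) ytv1065))) (DT.all_nd (DT.all_nd (DT.all_nd (DT.all_nd ytv1066 ytv1067) (DT.all_nd ytv1068 ytv1069)) (DT.all_nd ytv1070 (DT.all_nd ytv1071 ytv1072))) (DT.all_nd (DT.all_nd (DT.all_nd ytv1073 ytv1074) (DT.all_nd ytv1075 ytv1076)) (DT.all_nd (DT.all_nd ytv1077 ytv1078) (DT.all_nd ytv1079 ytv1080))))) (DT.all_nd (DT.all_nd (DT.all_nd (DT.all_nd (DT.all_nd ytv1081 ytv1082) (DT.all_nd ytv1083 ytv1084)) (DT.all_nd ytv1085 ytv1086)) (DT.all_nd (DT.all_nd (DT.all_nd ytv1087 ytv1088) (DT.all_nd ytv1089 ytv1090)) (DT.all_nd (DT.all_nd ytv1091 ytv1092) (DT.all_nd ytv1093 ytv1094)))) (DT.all_nd (DT.all_nd (DT.all_nd (DT.all_nd ytv1095 ytv1096) (DT.all_nd ytv1097 ytv1098)) (DT.all_nd (DT.all_nd ytv1099 ytv1100) (DT.all_nd ytv1101 ytv1102))) (DT.all_nd (DT.all_nd (DT.all_nd ytv1103 ytv1104) ytv1105) (DT.all_nd (DT.all_nd ytv1106 ytv1107) (DT.all_nd ytv1108 ytv1109)))))))) (DT.all_nd (DT.all_nd (DT.all_nd (DT.all_nd (DT.all_nd (DT.all_nd (DT.all_nd ytv1110 ytv1111) (DT.all_nd (DT.all_nd ytv1112 ytv1113) (DT.all_nd ytv1114 ytv1115))) (DT.all_nd (DT.all_nd (DT.all_nd ytv1116 ytv1117) ytv1118) (DT.all_nd ytv1119 (DT.all_nd ytv1120 ytv1121)))) (DT.all_nd (DT.all_nd (DT.all_nd (DT.all_nd ytv1122 ytv1123) ytv1124) (DT.all_nd ytv1125 (DT.all_nd ytv1126 ytv1127))) (DT.all_nd (DT.all_nd (DT.all_nd ytv1128 ytv1129) (DT.all_nd ytv1130 ytv1131)) (DT.all_nd (DT.all_nd ytv1132 ytv1133) (DT.all_nd ytv1134 ytv1135))))) (DT.all_nd (DT.all_nd (DT.all_nd (DT.all_nd (DT.all_nd ytv1136 ytv1137) (DT.all_nd ytv1138 ytv1139)) (DT.all_nd (DT.all_nd ytv1140 ytv1141) (DT.all_nd ytv1142 ytv1143))) (DT.all_nd (DT.all_nd (DT.all_nd ytv1144 ytv1145) (DT.all_nd ytv1146 ytv1147)) (DT.all_nd (DT.all_nd ytv1148 ytv1149) (DT.all_nd ytv1150 ytv1151)))) (DT.all_nd (DT.all_nd (DT.all_nd (DT.all_nd ytv1152 ytv1153) (DT.all_nd ytv1154 ytv1155)) (DT.all_nd (DT.all_nd ytv1156 ytv1157) (DT.all_nd ytv1158 ytv1159))) (DT.all_nd (DT.all_nd ytv1160 ytv1161) (DT.all_nd ytv1162 (DT.all_nd ytv1163 ytv1164)))))) (DT.all_nd (DT.all_nd (DT.all_nd (DT.all_nd (DT.all_nd (DT.all_nd ytv1165 ytv1166) (DT.all_nd ytv1167 ytv1168)) (DT.all_nd (DT.all_nd ytv1169 (DT.all_nd ytv1170 ytv1171)) (DT.all_nd ytv1172 ytv1173))) (DT.all_nd (DT.all_nd (DT.all_nd ytv1174 ytv1175) (DT.all_nd (DT.all_nd ytv1176 ytv1177) ytv1178)) (DT.all_nd (DT.all_nd ytv1179 ytv1180) (DT.all_nd ytv1181 ytv1182)))) (DT.all_nd (DT.all_nd (DT.all_nd (DT.all_nd ytv1183 ytv1184) (DT.all_nd ytv1185 ytv1186)) (DT.all_nd (DT.all_nd ytv1187 ytv1188) (DT.all_nd ytv1189 ytv1190))) (DT.all_nd (DT.all_nd (DT.all_nd ytv1191 ytv1192) (DT.all_nd ytv1193 ytv1194)) (DT.all_nd (DT.all_nd ytv1195 ytv1196) (DT.all_nd (DT.all_nd ytv1197 ytv1198) ytv1199))))) (DT.all_nd (DT.all_nd (DT.all_nd (DT.all_nd (DT.all_nd ytv1200 ytv1201) (DT.all_nd ytv1202 ytv1203)) (DT.all_nd (DT.all_nd ytv1204 ytv1205) (DT.all_nd ytv1206 ytv1207))) (DT.all_nd (DT.all_nd (DT.all_nd ytv1208 ytv1209) (DT.all_nd ytv1210 ytv1211)) (DT.all_nd (DT.all_nd ytv1212 ytv1213) (DT.all_nd ytv1214 ytv1215)))) (DT.all_nd (DT.all_nd (DT.all_nd (DT.all_nd ytv1216 ytv1217) (DT.all_nd ytv1218 ytv1219)) (DT.all_nd (DT.all_nd ytv1220 ytv1221) (DT.all_nd ytv1222 ytv1223))) (DT.all_nd (DT.all_nd (DT.all_nd ytv1224 ytv1225) (DT.all_nd ytv1226 ytv1227)) (DT.all_nd (DT.all_nd ytv1228 ytv1229) (DT.all_nd ytv1230 ytv1231))))))) (DT.all_nd (DT.all_nd (DT.all_nd (DT.all_nd (DT.all_nd (DT.all_nd (DT.all_nd ytv1232 ytv1233) (DT.all_nd ytv1234 ytv1235)) (DT.all_nd (DT.all_nd ytv1236 ytv1237) (DT.all_nd ytv1238 ytv1239))) (DT.all_nd (DT.all_nd (DT.all_nd ytv1240 ytv1241) ytv1242) (DT.all_nd ytv1243 (DT.all_nd ytv1244 ytv1245)))) (DT.all_nd (DT.all_nd (DT.all_nd (DT.all_nd ytv1246 ytv1247) (DT.all_nd ytv1248 ytv1249)) (DT.all_nd (DT.all_nd ytv1250 ytv1251) ytv1252)) (DT.all_nd (DT.all_nd (DT.all_nd ytv1253 ytv1254) (DT.all_nd ytv1255 ytv1256)) (DT.all_nd (DT.all_nd (DT.all_nd ytv1257 ytv1258) ytv1259) (DT.all_nd ytv1260 ytv1261))))) (DT.all_nd (DT.all_nd (DT.all_nd (DT.all_nd (DT.all_nd ytv1262 ytv1263) (DT.all_nd (DT.all_nd ytv1264 ytv1265) ytv1266)) (DT.all_nd (DT.all_nd ytv1267 ytv1268) (DT.all_nd ytv1269 ytv1270))) (DT.all_nd (DT.all_nd ytv1271 (DT.all_nd ytv1272 ytv1273)) (DT.all_nd (DT.all_nd ytv1274 ytv1275) (DT.all_nd ytv1276 ytv1277)))) (DT.all_nd (DT.all_nd (DT.all_nd (DT.all_nd ytv1278 ytv1279) (DT.all_nd ytv1280 ytv1281)) (DT.all_nd (DT.all_nd ytv1282 ytv1283) (DT.all_nd ytv1284 ytv1285))) (DT.all_nd (DT.all_nd (DT.all_nd ytv1286 ytv1287) (DT.all_nd ytv1288 ytv1289)) (DT.all_nd (DT.all_nd ytv1290 ytv1291) (DT.all_nd ytv1292 ytv1293)))))) (DT.all_nd (DT.all_nd (DT.all_nd (DT.all_nd (DT.all_nd (DT.all_nd ytv1294 ytv1295) (DT.all_nd ytv1296 ytv1297)) (DT.all_nd (DT.all_nd ytv1298 ytv1299) (DT.all_nd ytv1300 ytv1301))) (DT.all_nd (DT.all_nd ytv1302 (DT.all_nd ytv1303 ytv1304)) (DT.all_nd (DT.all_nd ytv1305 ytv1306) ytv1307))) (DT.all_nd (DT.all_nd (DT.all_nd ytv1308 (DT.all_nd ytv1309 ytv1310)) (DT.all_nd (DT.all_nd ytv1311 ytv1312) ytv1313)) (DT.all_nd (DT.all_nd (DT.all_nd ytv1314 ytv1315) (DT.all_nd ytv1316 ytv1317)) (DT.all_nd ytv1318 (DT.all_nd ytv1319 ytv1320))))) (DT.all_nd (DT.all_nd (DT.all_nd (DT.all_nd ytv1321 ytv1322) (DT.all_nd ytv1323 ytv1324)) (DT.all_nd (DT.all_nd (DT.all_nd ytv1325 ytv1326) (DT.all_nd ytv1327 ytv1328)) (DT.all_nd (DT.all_nd ytv1329 ytv1330) (DT.all_nd ytv1331 ytv1332)))) (DT.all_nd (DT.all_nd (DT.all_nd (DT.all_nd ytv1333 ytv1334) (DT.all_nd ytv1335 (DT.all_nd ytv1336 ytv1337))) (DT.all_nd (DT.all_nd ytv1338 ytv1339) (DT.all_nd ytv1340 ytv1341))) (DT.all_nd (DT.all_nd (DT.all_nd ytv1342 ytv1343) (DT.all_nd ytv1344 ytv1345)) (DT.all_nd (DT.all_nd ytv1346 ytv1347) ytv1348)))))))) (DT.all_nd (DT.all_nd (DT.all_nd (DT.all_nd (DT.all_nd (DT.all_nd (DT.all_nd (DT.all_nd (DT.all_nd ytv1349 ytv1350) ytv1351) (DT.all_nd (DT.all_nd ytv1352 ytv1353) (DT.all_nd ytv1354 ytv1355))) (DT.all_nd (DT.all_nd ytv1356 ytv1357) (DT.all_nd ytv1358 ytv1359))) (DT.all_nd (DT.all_nd (DT.all_nd ytv1360 ytv1361) (DT.all_nd ytv1362 (DT.all_nd ytv1363 ytv1364))) (DT.all_nd (DT.all_nd (DT.all_nd ytv1365 ytv1366) ytv1367) (DT.all_nd ytv1368 ytv1369)))) (DT.all_nd (DT.all_nd (DT.all_nd (DT.all_nd ytv1370 ytv1371) (DT.all_nd ytv1372 (DT.all_nd ytv1373 ytv1374))) (DT.all_nd (DT.all_nd ytv1375 (DT.all_nd ytv1376 ytv1377)) (DT.all_nd ytv1378 ytv1379))) (DT.all_nd (DT.all_nd (DT.all_nd ytv1380 (DT.all_nd ytv1381 ytv1382)) (DT.all_nd (DT.all_nd ytv1383 ytv1384) (DT.all_nd ytv1385 ytv1386))) (DT.all_nd (DT.all_nd (DT.all_nd ytv1387 ytv1388) (DT.all_nd ytv1389 ytv1390)) (DT.all_nd (DT.all_nd ytv1391 ytv1392) (DT.all_nd (DT.all_nd ytv1393 ytv1394) ytv1395)))))) (DT.all_nd (DT.all_nd (DT.all_nd (DT.all_nd (DT.all_nd (DT.all_nd ytv1396 ytv1397) (DT.all_nd ytv1398 ytv1399)) (DT.all_nd (DT.all_nd ytv1400 ytv1401) (DT.all_nd ytv1402 ytv1403))) (DT.all_nd (DT.all_nd (DT.all_nd ytv1404 ytv1405) (DT.all_nd ytv1406 ytv1407)) (DT.all_nd ytv1408 (DT.all_nd ytv1409 ytv1410)))) (DT.all_nd (DT.all_nd (DT.all_nd ytv1411 (DT.all_nd ytv1412 ytv1413)) (DT.all_nd (DT.all_nd ytv1414 ytv1415) (DT.all_nd ytv1416 ytv1417))) (DT.all_nd (DT.all_nd (DT.all_nd ytv1418 (DT.all_nd ytv1419 ytv1420)) (DT.all_nd ytv1421 ytv1422)) (DT.all_nd (DT.all_nd ytv1423 ytv1424) (DT.all_nd ytv1425 ytv1426))))) (DT.all_nd (DT.all_nd (DT.all_nd (DT.all_nd (DT.all_nd ytv1427 ytv1428) (DT.all_nd ytv1429 ytv1430)) (DT.all_nd (DT.all_nd ytv1431 ytv1432) (DT.all_nd ytv1433 ytv1434))) (DT.all_nd (DT.all_nd (DT.all_nd ytv1435 ytv1436) (DT.all_nd ytv1437 ytv1438)) (DT.all_nd ytv1439 ytv1440))) (DT.all_nd (DT.all_nd (DT.all_nd ytv1441 ytv1442) (DT.all_nd ytv1443 ytv1444)) (DT.all_nd (DT.all_nd ytv1445 ytv1446) (DT.all_nd ytv1447 ytv1448)))))) (DT.all_nd (DT.all_nd (DT.all_nd (DT.all_nd (DT.all_nd (DT.all_nd ytv1449 ytv1450) (DT.all_nd ytv1451 ytv1452)) (DT.all_nd (DT.all_nd ytv1453 (DT.all_nd ytv1454 ytv1455)) (DT.all_nd (DT.all_nd ytv1456 ytv1457) ytv1458))) (DT.all_nd (DT.all_nd (DT.all_nd ytv1459 ytv1460) (DT.all_nd ytv1461 ytv1462)) (DT.all_nd (DT.all_nd ytv1463 (DT.all_nd ytv1464 ytv1465)) (DT.all_nd ytv1466 (DT.all_nd ytv1467 ytv1468))))) (DT.all_nd (DT.all_nd (DT.all_nd (DT.all_nd (DT.all_nd ytv1469 ytv1470) ytv1471) (DT.all_nd ytv1472 ytv1473)) (DT.all_nd (DT.all_nd ytv1474 ytv1475) (DT.all_nd (DT.all_nd ytv1476 ytv1477) ytv1478))) (DT.all_nd (DT.all_nd (DT.all_nd ytv1479 ytv1480) (DT.all_nd ytv1481 (DT.all_nd ytv1482 ytv1483))) (DT.all_nd (DT.all_nd ytv1484 (DT.all_nd ytv1485 (DT.all_nd ytv1486 ytv1487))) (DT.all_nd (DT.all_nd ytv1488 ytv1489) (DT.all_nd ytv1490 ytv1491)))))) (DT.all_nd (DT.all_nd (DT.all_nd (DT.all_nd (DT.all_nd (DT.all_nd ytv1492 ytv1493) (DT.all_nd ytv1494 ytv1495)) (DT.all_nd (DT.all_nd ytv1496 ytv1497) (DT.all_nd ytv1498 ytv1499))) (DT.all_nd (DT.all_nd ytv1500 ytv1501) (DT.all_nd ytv1502 (DT.all_nd ytv1503 ytv1504)))) (DT.all_nd (DT.all_nd (DT.all_nd (DT.all_nd ytv1505 ytv1506) (DT.all_nd ytv1507 ytv1508)) (DT.all_nd (DT.all_nd ytv1509 ytv1510) (DT.all_nd ytv1511 ytv1512))) (DT.all_nd (DT.all_nd (DT.all_nd ytv1513 ytv1514) (DT.all_nd ytv1515 ytv1516)) (DT.all_nd (DT.all_nd ytv1517 ytv1518) (DT.all_nd ytv1519 ytv1520))))) (DT.all_nd (DT.all_nd (DT.all_nd (DT.all_nd ytv1521 ytv1522) (DT.all_nd (DT.all_nd ytv1523 ytv1524) (DT.all_nd ytv1525 ytv1526))) (DT.all_nd (DT.all_nd ytv1527 ytv1528) (DT.all_nd ytv1529 (DT.all_nd ytv1530 ytv1531)))) (DT.all_nd (DT.all_nd (DT.all_nd (DT.all_nd ytv1532 ytv1533) (DT.all_nd ytv1534 ytv1535)) (DT.all_nd (DT.all_nd ytv1536 ytv1537) (DT.all_nd ytv1538 ytv1539))) (DT.all_nd (DT.all_nd (DT.all_nd ytv1540 ytv1541) (DT.all_nd ytv1542 ytv1543)) (DT.all_nd (DT.all_nd ytv1544 ytv1545) (DT.all_nd ytv1546 ytv1547)))))))) (DT.all_nd (DT.all_nd (DT.all_nd (DT.all_nd (DT.all_nd (DT.all_nd (DT.all_nd ytv1548 ytv1549) (DT.all_nd ytv1550 ytv1551)) (DT.all_nd (DT.all_nd ytv1552 (DT.all_nd ytv1553 ytv1554)) (DT.all_nd ytv1555 ytv1556))) (DT.all_nd (DT.all_nd (DT.all_nd ytv1557 ytv1558) (DT.all_nd ytv1559 ytv1560)) (DT.all_nd (DT.all_nd ytv1561 (DT.all_nd ytv1562 ytv1563)) (DT.all_nd ytv1564 (DT.all_nd ytv1565 ytv1566))))) (DT.all_nd (DT.all_nd (DT.all_nd (DT.all_nd (DT.all_nd ytv1567 ytv1568) (DT.all_nd ytv1569 ytv1570)) (DT.all_nd (DT.all_nd ytv1571 ytv1572) ytv1573)) (DT.all_nd (DT.all_nd ytv1574 ytv1575) (DT.all_nd ytv1576 ytv1577))) (DT.all_nd (DT.all_nd (DT.all_nd ytv1578 ytv1579) (DT.all_nd ytv1580 ytv1581)) (DT.all_nd (DT.all_nd (DT.all_nd ytv1582 ytv1583) ytv1584) (DT.all_nd ytv1585 ytv1586))))) (DT.all_nd (DT.all_nd (DT.all_nd (DT.all_nd (DT.all_nd (DT.all_nd ytv1587 ytv1588) (DT.all_nd ytv1589 ytv1590)) (DT.all_nd ytv1591 ytv1592)) (DT.all_nd (DT.all_nd ytv1593 ytv1594) (DT.all_nd ytv1595 ytv1596))) (DT.all_nd (DT.all_nd (DT.all_nd ytv1597 (DT.all_nd ytv1598 ytv1599)) (DT.all_nd ytv1600 (DT.all_nd ytv1601 ytv1602))) (DT.all_nd (DT.all_nd ytv1603 ytv1604) (DT.all_nd ytv1605 (DT.all_nd ytv1606 ytv1607))))) (DT.all_nd (DT.all_nd (DT.all_nd (DT.all_nd ytv1608 ytv1609) (DT.all_nd ytv1610 ytv1611)) (DT.all_nd (DT.all_nd ytv1612 (DT.all_nd ytv1613 ytv1614)) (DT.all_nd (DT.all_nd ytv1615 (DT.all_nd ytv1616 ytv1617)) (DT.all_nd ytv1618 (DT.all_nd ytv1619 ytv1620))))) (DT.all_nd (DT.all_nd (DT.all_nd (DT.all_nd (DT.all_nd ytv1621 ytv1622) (DT.all_nd ytv1623 ytv1624)) (DT.all_nd ytv1625 ytv1626)) (DT.all_nd (DT.all_nd ytv1627 ytv1628) (DT.all_nd ytv1629 ytv1630))) (DT.all_nd (DT.all_nd (DT.all_nd ytv1631 ytv1632) (DT.all_nd ytv1633 ytv1634)) (DT.all_nd (DT.all_nd ytv1635 ytv1636) ytv1637)))))) (DT.all_nd (DT.all_nd (DT.all_nd (DT.all_nd (DT.all_nd (DT.all_nd (DT.all_nd ytv1638 ytv1639) (DT.all_nd ytv1640 ytv1641)) (DT.all_nd (DT.all_nd ytv1642 ytv1643) (DT.all_nd (DT.all_nd ytv1644 ytv1645) ytv1646))) (DT.all_nd (DT.all_nd (DT.all_nd (DT.all_nd ytv1647 ytv1648) (DT.all_nd ytv1649 ytv1650)) (DT.all_nd ytv1651 ytv1652)) (DT.all_nd (DT.all_nd ytv1653 ytv1654) (DT.all_nd ytv1655 ytv1656)))) (DT.all_nd (DT.all_nd (DT.all_nd (DT.all_nd ytv1657 ytv1658) (DT.all_nd ytv1659 (DT.all_nd ytv1660 ytv1661))) (DT.all_nd (DT.all_nd ytv1662 ytv1663) (DT.all_nd ytv1664 ytv1665))) (DT.all_nd (DT.all_nd (DT.all_nd ytv1666 ytv1667) (DT.all_nd ytv1668 (DT.all_nd ytv1669 ytv1670))) (DT.all_nd (DT.all_nd ytv1671 ytv1672) (DT.all_nd ytv1673 ytv1674))))) (DT.all_nd (DT.all_nd (DT.all_nd (DT.all_nd (DT.all_nd ytv1675 ytv1676) (DT.all_nd ytv1677 ytv1678)) (DT.all_nd (DT.all_nd ytv1679 ytv1680) (DT.all_nd ytv1681 ytv1682))) (DT.all_nd (DT.all_nd (DT.all_nd ytv1683 ytv1684) (DT.all_nd ytv1685 ytv1686)) (DT.all_nd (DT.all_nd ytv1687 ytv1688) (DT.all_nd ytv1689 ytv1690)))) (DT.all_nd (DT.all_nd (DT.all_nd (DT.all_nd ytv1691 ytv1692) (DT.all_nd ytv1693 ytv1694)) (DT.all_nd (DT.all_nd ytv1695 ytv1696) (DT.all_nd ytv1697 ytv1698))) (DT.all_nd (DT.all_nd ytv1699 ytv1700) (DT.all_nd ytv1701 ytv1702))))) (DT.all_nd (DT.all_nd (DT.all_nd (DT.all_nd (DT.all_nd ytv1703 ytv1704) (DT.all_nd ytv1705 ytv1706)) (DT.all_nd (DT.all_nd (DT.all_nd ytv1707 ytv1708) ytv1709) (DT.all_nd (DT.all_nd ytv1710 ytv1711) (DT.all_nd ytv1712 (DT.all_nd ytv1713 ytv1714))))) (DT.all_nd (DT.all_nd (DT.all_nd ytv1715 ytv1716) (DT.all_nd ytv1717 (DT.all_nd ytv1718 ytv1719))) (DT.all_nd (DT.all_nd ytv1720 ytv1721) (DT.all_nd ytv1722 (DT.all_nd ytv1723 ytv1724))))) (DT.all_nd (DT.all_nd (DT.all_nd (DT.all_nd ytv1725 ytv1726) (DT.all_nd ytv1727 ytv1728)) (DT.all_nd (DT.all_nd (DT.all_nd ytv1729 ytv1730) ytv1731) (DT.all_nd (DT.all_nd ytv1732 ytv1733) ytv1734))) (DT.all_nd (DT.all_nd (DT.all_nd ytv1735 ytv1736) (DT.all_nd (DT.all_nd ytv1737 ytv1738) (DT.all_nd ytv1739 ytv1740))) (DT.all_nd (DT.all_nd (DT.all_nd ytv1741 ytv1742) (DT.all_nd ytv1743 ytv1744)) (DT.all_nd (DT.all_nd ytv1745 ytv1746) ytv1747)))))))))) (DT.all_nd (DT.all_nd (DT.all_nd (DT.all_nd (DT.all_nd (DT.all_nd (DT.all_nd (DT.all_nd (DT.all_nd (DT.all_nd (DT.all_nd ytv1748 ytv1749) ytv1750) (DT.all_nd ytv1751 ytv1752)) (DT.all_nd (DT.all_nd (DT.all_nd ytv1753 ytv1754) (DT.all_nd ytv1755 ytv1756)) (DT.all_nd (DT.all_nd ytv1757 ytv1758) (DT.all_nd ytv1759 ytv1760)))) (DT.all_nd (DT.all_nd (DT.all_nd (DT.all_nd ytv1761 ytv1762) (DT.all_nd ytv1763 ytv1764)) (DT.all_nd (DT.all_nd ytv1765 ytv1766) (DT.all_nd ytv1767 ytv1768))) (DT.all_nd (DT.all_nd (DT.all_nd ytv1769 ytv1770) ytv1771) (DT.all_nd (DT.all_nd ytv1772 ytv1773) ytv1774)))) (DT.all_nd (DT.all_nd (DT.all_nd (DT.all_nd ytv1775 ytv1776) (DT.all_nd (DT.all_nd ytv1777 ytv1778) (DT.all_nd ytv1779 ytv1780))) (DT.all_nd (DT.all_nd (DT.all_nd ytv1781 ytv1782) (DT.all_nd ytv1783 ytv1784)) (DT.all_nd (DT.all_nd ytv1785 ytv1786) (DT.all_nd ytv1787 ytv1788)))) (DT.all_nd (DT.all_nd (DT.all_nd (DT.all_nd ytv1789 ytv1790) (DT.all_nd ytv1791 ytv1792)) (DT.all_nd (DT.all_nd ytv1793 ytv1794) (DT.all_nd ytv1795 ytv1796))) (DT.all_nd (DT.all_nd ytv1797 ytv1798) (DT.all_nd ytv1799 ytv1800))))) (DT.all_nd (DT.all_nd (DT.all_nd (DT.all_nd (DT.all_nd ytv1801 ytv1802) (DT.all_nd ytv1803 ytv1804)) (DT.all_nd (DT.all_nd (DT.all_nd ytv1805 ytv1806) (DT.all_nd ytv1807 ytv1808)) (DT.all_nd (DT.all_nd ytv1809 ytv1810) ytv1811))) (DT.all_nd (DT.all_nd (DT.all_nd ytv1812 ytv1813) (DT.all_nd ytv1814 (DT.all_nd ytv1815 ytv1816))) (DT.all_nd (DT.all_nd ytv1817 (DT.all_nd ytv1818 ytv1819)) (DT.all_nd ytv1820 ytv1821)))) (DT.all_nd (DT.all_nd (DT.all_nd (DT.all_nd (DT.all_nd ytv1822 ytv1823) (DT.all_nd ytv1824 ytv1825)) (DT.all_nd ytv1826 (DT.all_nd ytv1827 ytv1828))) (DT.all_nd (DT.all_nd (DT.all_nd ytv1829 ytv1830) ytv1831) (DT.all_nd (DT.all_nd ytv1832 ytv1833) (DT.all_nd ytv1834 ytv1835)))) (DT.all_nd (DT.all_nd (DT.all_nd (DT.all_nd ytv1836 ytv1837) (DT.all_nd ytv1838 ytv1839)) (DT.all_nd (DT.all_nd ytv1840 ytv1841) (DT.all_nd ytv1842 ytv1843))) (DT.all_nd (DT.all_nd ytv1844 (DT.all_nd ytv1845 ytv1846)) (DT.all_nd (DT.all_nd ytv1847 ytv1848) ytv1849)))))) (DT.all_nd (DT.all_nd (DT.all_nd (DT.all_nd (DT.all_nd (DT.all_nd ytv1850 (DT.all_nd ytv1851 ytv1852)) (DT.all_nd ytv1853 (DT.all_nd ytv1854 ytv1855))) (DT.all_nd (DT.all_nd (DT.all_nd ytv1856 ytv1857) ytv1858) (DT.all_nd ytv1859 (DT.all_nd ytv1860 ytv1861)))) (DT.all_nd (DT.all_nd (DT.all_nd (DT.all_nd ytv1862 ytv1863) (DT.all_nd ytv1864 ytv1865)) (DT.all_nd (DT.all_nd ytv1866 ytv1867) (DT.all_nd ytv1868 ytv1869))) (DT.all_nd (DT.all_nd (DT.all_nd ytv1870 ytv1871) ytv1872) (DT.all_nd (DT.all_nd ytv1873 ytv1874) ytv1875)))) (DT.all_nd (DT.all_nd (DT.all_nd (DT.all_nd ytv1876 (DT.all_nd ytv1877 ytv1878)) (DT.all_nd (DT.all_nd ytv1879 ytv1880) ytv1881)) (DT.all_nd (DT.all_nd (DT.all_nd ytv1882 ytv1883) (DT.all_nd ytv1884 ytv1885)) (DT.all_nd ytv1886 (DT.all_nd (DT.all_nd ytv1887 ytv1888) ytv1889)))) (DT.all_nd (DT.all_nd (DT.all_nd ytv1890 ytv1891) (DT.all_nd ytv1892 (DT.all_nd ytv1893 ytv1894))) (DT.all_nd (DT.all_nd ytv1895 ytv1896) (DT.all_nd (DT.all_nd ytv1897 ytv1898) (DT.all_nd ytv1899 ytv1900)))))) (DT.all_nd (DT.all_nd (DT.all_nd (DT.all_nd (DT.all_nd (DT.all_nd ytv1901 ytv1902) (DT.all_nd ytv1903 ytv1904)) (DT.all_nd ytv1905 (DT.all_nd ytv1906 ytv1907))) (DT.all_nd (DT.all_nd (DT.all_nd ytv1908 ytv1909) (DT.all_nd ytv1910 ytv1911)) (DT.all_nd (DT.all_nd ytv1912 ytv1913) ytv1914))) (DT.all_nd (DT.all_nd (DT.all_nd (DT.all_nd ytv1915 ytv1916) (DT.all_nd ytv1917 ytv1918)) (DT.all_nd (DT.all_nd ytv1919 ytv1920) (DT.all_nd ytv1921 ytv1922))) (DT.all_nd (DT.all_nd (DT.all_nd ytv1923 ytv1924) (DT.all_nd ytv1925 ytv1926)) (DT.all_nd (DT.all_nd ytv1927 ytv1928) ytv1929)))) (DT.all_nd (DT.all_nd (DT.all_nd (DT.all_nd (DT.all_nd ytv1930 ytv1931) (DT.all_nd ytv1932 ytv1933)) (DT.all_nd (DT.all_nd ytv1934 ytv1935) (DT.all_nd ytv1936 ytv1937))) (DT.all_nd (DT.all_nd (DT.all_nd ytv1938 ytv1939) (DT.all_nd ytv1940 ytv1941)) (DT.all_nd (DT.all_nd ytv1942 ytv1943) (DT.all_nd ytv1944 ytv1945)))) (DT.all_nd (DT.all_nd (DT.all_nd (DT.all_nd ytv1946 ytv1947) (DT.all_nd ytv1948 ytv1949)) (DT.all_nd (DT.all_nd ytv1950 ytv1951) (DT.all_nd ytv1952 ytv1953))) (DT.all_nd (DT.all_nd (DT.all_nd ytv1954 ytv1955) (DT.all_nd ytv1956 ytv1957)) (DT.all_nd ytv1958 ytv1959))))))) (DT.all_nd (DT.all_nd (DT.all_nd (DT.all_nd (DT.all_nd (DT.all_nd (DT.all_nd (DT.all_nd ytv1960 ytv1961) (DT.all_nd ytv1962 ytv1963)) (DT.all_nd (DT.all_nd ytv1964 ytv1965) (DT.all_nd ytv1966 ytv1967))) (DT.all_nd (DT.all_nd (DT.all_nd ytv1968 ytv1969) (DT.all_nd ytv1970 ytv1971)) (DT.all_nd (DT.all_nd ytv1972 ytv1973) (DT.all_nd ytv1974 ytv1975)))) (DT.all_nd (DT.all_nd (DT.all_nd (DT.all_nd ytv1976 ytv1977) (DT.all_nd ytv1978 ytv1979)) (DT.all_nd (DT.all_nd ytv1980 ytv1981) (DT.all_nd ytv1982 ytv1983))) (DT.all_nd (DT.all_nd (DT.all_nd ytv1984 ytv1985) (DT.all_nd ytv1986 ytv1987)) (DT.all_nd (DT.all_nd ytv1988 ytv1989) (DT.all_nd ytv1990 ytv1991))))) (DT.all_nd (DT.all_nd (DT.all_nd (DT.all_nd (DT.all_nd ytv1992 ytv1993) (DT.all_nd ytv1994 ytv1995)) (DT.all_nd (DT.all_nd ytv1996 ytv1997) ytv1998)) (DT.all_nd (DT.all_nd ytv1999 (DT.all_nd ytv2000 ytv2001)) (DT.all_nd (DT.all_nd ytv2002 ytv2003) (DT.all_nd ytv2004 ytv2005)))) (DT.all_nd (DT.all_nd (DT.all_nd (DT.all_nd ytv2006 ytv2007) (DT.all_nd ytv2008 ytv2009)) (DT.all_nd (DT.all_nd ytv2010 ytv2011) (DT.all_nd ytv2012 ytv2013))) (DT.all_nd (DT.all_nd (DT.all_nd ytv2014 ytv2015) (DT.all_nd ytv2016 ytv2017)) (DT.all_nd (DT.all_nd ytv2018 ytv2019) ytv2020))))) (DT.all_nd (DT.all_nd (DT.all_nd (DT.all_nd (DT.all_nd ytv2021 (DT.all_nd ytv2022 ytv2023)) (DT.all_nd (DT.all_nd ytv2024 ytv2025) (DT.all_nd ytv2026 ytv2027))) (DT.all_nd (DT.all_nd (DT.all_nd ytv2028 ytv2029) ytv2030) (DT.all_nd ytv2031 ytv2032))) (DT.all_nd (DT.all_nd (DT.all_nd ytv2033 (DT.all_nd ytv2034 ytv2035)) (DT.all_nd (DT.all_nd ytv2036 ytv2037) ytv2038)) (DT.all_nd (DT.all_nd (DT.all_nd ytv2039 ytv2040) (DT.all_nd ytv2041 ytv2042)) (DT.all_nd (DT.all_nd ytv2043 ytv2044) (DT.all_nd ytv2045 ytv2046))))) (DT.all_nd (DT.all_nd (DT.all_nd (DT.all_nd (DT.all_nd ytv2047 ytv2048) (DT.all_nd ytv2049 ytv2050)) (DT.all_nd (DT.all_nd ytv2051 ytv2052) (DT.all_nd ytv2053 ytv2054))) (DT.all_nd (DT.all_nd (DT.all_nd ytv2055 ytv2056) (DT.all_nd ytv2057 ytv2058)) (DT.all_nd (DT.all_nd ytv2059 ytv2060) (DT.all_nd ytv2061 ytv2062)))) (DT.all_nd (DT.all_nd (DT.all_nd (DT.all_nd ytv2063 ytv2064) (DT.all_nd ytv2065 ytv2066)) (DT.all_nd (DT.all_nd ytv2067 ytv2068) (DT.all_nd ytv2069 ytv2070))) (DT.all_nd (DT.all_nd (DT.all_nd ytv2071 ytv2072) (DT.all_nd ytv2073 ytv2074)) (DT.all_nd (DT.all_nd ytv2075 ytv2076) (DT.all_nd ytv2077 ytv2078))))))) (DT.all_nd (DT.all_nd (DT.all_nd (DT.all_nd (DT.all_nd (DT.all_nd (DT.all_nd ytv2079 ytv2080) (DT.all_nd ytv2081 ytv2082)) (DT.all_nd (DT.all_nd ytv2083 ytv2084) (DT.all_nd ytv2085 ytv2086))) (DT.all_nd (DT.all_nd (DT.all_nd ytv2087 ytv2088) (DT.all_nd ytv2089 (DT.all_nd ytv2090 ytv2091))) (DT.all_nd (DT.all_nd ytv2092 ytv2093) (DT.all_nd ytv2094 ytv2095)))) (DT.all_nd (DT.all_nd (DT.all_nd (DT.all_nd ytv2096 ytv2097) (DT.all_nd ytv2098 ytv2099)) (DT.all_nd (DT.all_nd ytv2100 ytv2101) ytv2102)) (DT.all_nd (DT.all_nd (DT.all_nd ytv2103 ytv2104) ytv2105) (DT.all_nd (DT.all_nd ytv2106 ytv2107) (DT.all_nd ytv2108 ytv2109))))) (DT.all_nd (DT.all_nd (DT.all_nd (DT.all_nd (DT.all_nd ytv2110 ytv2111) (DT.all_nd (DT.all_nd ytv2112 ytv2113) ytv2114)) (DT.all_nd (DT.all_nd ytv2115 ytv2116) ytv2117)) (DT.all_nd (DT.all_nd (DT.all_nd ytv2118 ytv2119) (DT.all_nd ytv2120 ytv2121)) (DT.all_nd (DT.all_nd ytv2122 ytv2123) (DT.all_nd ytv2124 ytv2125)))) (DT.all_nd (DT.all_nd (DT.all_nd ytv2126 ytv2127) (DT.all_nd ytv2128 ytv2129)) (DT.all_nd (DT.all_nd (DT.all_nd ytv2130 ytv2131) (DT.all_nd ytv2132 ytv2133)) (DT.all_nd (DT.all_nd ytv2134 ytv2135) (DT.all_nd ytv2136 ytv2137)))))) (DT.all_nd (DT.all_nd (DT.all_nd (DT.all_nd (DT.all_nd (DT.all_nd ytv2138 ytv2139) (DT.all_nd ytv2140 ytv2141)) (DT.all_nd (DT.all_nd ytv2142 ytv2143) (DT.all_nd ytv2144 ytv2145))) (DT.all_nd (DT.all_nd ytv2146 (DT.all_nd ytv2147 ytv2148)) (DT.all_nd (DT.all_nd ytv2149 ytv2150) ytv2151))) (DT.all_nd (DT.all_nd (DT.all_nd (DT.all_nd ytv2152 ytv2153) (DT.all_nd ytv2154 ytv2155)) (DT.all_nd (DT.all_nd ytv2156 ytv2157) (DT.all_nd ytv2158 ytv2159))) (DT.all_nd (DT.all_nd (DT.all_nd ytv2160 ytv2161) (DT.all_nd ytv2162 ytv2163)) (DT.all_nd (DT.all_nd ytv2164 ytv2165) (DT.all_nd ytv2166 ytv2167))))) (DT.all_nd (DT.all_nd (DT.all_nd (DT.all_nd (DT.all_nd ytv2168 ytv2169) (DT.all_nd ytv2170 ytv2171)) (DT.all_nd (DT.all_nd ytv2172 ytv2173) (DT.all_nd ytv2174 ytv2175))) (DT.all_nd (DT.all_nd (DT.all_nd ytv2176 ytv2177) (DT.all_nd ytv2178 ytv2179)) (DT.all_nd (DT.all_nd ytv2180 ytv2181) (DT.all_nd ytv2182 ytv2183)))) (DT.all_nd (DT.all_nd (DT.all_nd (DT.all_nd ytv2184 ytv2185) (DT.all_nd ytv2186 ytv2187)) (DT.all_nd (DT.all_nd ytv2188 ytv2189) ytv2190)) (DT.all_nd (DT.all_nd ytv2191 ytv2192) (DT.all_nd (DT.all_nd ytv2193 ytv2194) (DT.all_nd ytv2195 ytv2196))))))))) (DT.all_nd (DT.all_nd (DT.all_nd (DT.all_nd (DT.all_nd (DT.all_nd (DT.all_nd (DT.all_nd (DT.all_nd ytv2197 ytv2198) (DT.all_nd ytv2199 ytv2200)) (DT.all_nd (DT.all_nd ytv2201 ytv2202) (DT.all_nd ytv2203 ytv2204))) (DT.all_nd (DT.all_nd (DT.all_nd ytv2205 ytv2206) (DT.all_nd ytv2207 ytv2208)) (DT.all_nd ytv2209 (DT.all_nd ytv2210 ytv2211)))) (DT.all_nd (DT.all_nd (DT.all_nd (DT.all_nd ytv2212 ytv2213) (DT.all_nd ytv2214 ytv2215)) (DT.all_nd (DT.all_nd ytv2216 ytv2217) ytv2218)) (DT.all_nd (DT.all_nd (DT.all_nd ytv2219 ytv2220) ytv2221) (DT.all_nd ytv2222 ytv2223)))) (DT.all_nd (DT.all_nd (DT.all_nd (DT.all_nd (DT.all_nd ytv2224 ytv2225) (DT.all_nd ytv2226 ytv2227)) (DT.all_nd (DT.all_nd ytv2228 ytv2229) ytv2230)) (DT.all_nd (DT.all_nd ytv2231 ytv2232) (DT.all_nd ytv2233 ytv2234))) (DT.all_nd (DT.all_nd (DT.all_nd (DT.all_nd ytv2235 ytv2236) (DT.all_nd ytv2237 ytv2238)) (DT.all_nd ytv2239 (DT.all_nd ytv2240 ytv2241))) (DT.all_nd (DT.all_nd (DT.all_nd ytv2242 ytv2243) (DT.all_nd ytv2244 ytv2245)) (DT.all_nd (DT.all_nd ytv2246 ytv2247) (DT.all_nd ytv2248 ytv2249)))))) (DT.all_nd (DT.all_nd (DT.all_nd (DT.all_nd (DT.all_nd ytv2250 (DT.all_nd ytv2251 ytv2252)) (DT.all_nd (DT.all_nd ytv2253 ytv2254) (DT.all_nd ytv2255 ytv2256))) (DT.all_nd (DT.all_nd (DT.all_nd ytv2257 ytv2258) (DT.all_nd ytv2259 ytv2260)) (DT.all_nd (DT.all_nd ytv2261 ytv2262) (DT.all_nd ytv2263 ytv2264)))) (DT.all_nd (DT.all_nd (DT.all_nd (DT.all_nd ytv2265 ytv2266) (DT.all_nd ytv2267 ytv2268)) (DT.all_nd (DT.all_nd ytv2269 ytv2270) (DT.all_nd ytv2271 ytv2272))) (DT.all_nd (DT.all_nd ytv2273 ytv2274) (DT.all_nd (DT.all_nd ytv2275 ytv2276) (DT.all_nd ytv2277 ytv2278))))) (DT.all_nd (DT.all_nd (DT.all_nd (DT.all_nd (DT.all_nd ytv2279 ytv2280) (DT.all_nd ytv2281 ytv2282)) (DT.all_nd (DT.all_nd ytv2283 ytv2284) (DT.all_nd ytv2285 ytv2286))) (DT.all_nd (DT.all_nd (DT.all_nd ytv2287 ytv2288) (DT.all_nd ytv2289 ytv2290)) (DT.all_nd (DT.all_nd ytv2291 ytv2292) (DT.all_nd ytv2293 ytv2294)))) (DT.all_nd (DT.all_nd (DT.all_nd (DT.all_nd ytv2295 ytv2296) (DT.all_nd ytv2297 ytv2298)) (DT.all_nd (DT.all_nd ytv2299 ytv2300) (DT.all_nd ytv2301 ytv2302))) (DT.all_nd (DT.all_nd (DT.all_nd ytv2303 ytv2304) (DT.all_nd ytv2305 ytv2306)) (DT.all_nd (DT.all_nd ytv2307 ytv2308) (DT.all_nd ytv2309 ytv2310))))))) (DT.all_nd (DT.all_nd (DT.all_nd (DT.all_nd (DT.all_nd (DT.all_nd (DT.all_nd ytv2311 ytv2312) (DT.all_nd ytv2313 ytv2314)) (DT.all_nd (DT.all_nd ytv2315 ytv2316) (DT.all_nd ytv2317 ytv2318))) (DT.all_nd (DT.all_nd (DT.all_nd ytv2319 ytv2320) (DT.all_nd ytv2321 ytv2322)) (DT.all_nd ytv2323 (DT.all_nd ytv2324 ytv2325)))) (DT.all_nd (DT.all_nd (DT.all_nd (DT.all_nd ytv2326 ytv2327) (DT.all_nd ytv2328 ytv2329)) (DT.all_nd (DT.all_nd ytv2330 ytv2331) (DT.all_nd ytv2332 ytv2333))) (DT.all_nd (DT.all_nd (DT.all_nd ytv2334 ytv2335) (DT.all_nd ytv2336 ytv2337)) (DT.all_nd (DT.all_nd ytv2338 ytv2339) (DT.all_nd ytv2340 ytv2341))))) (DT.all_nd (DT.all_nd (DT.all_nd (DT.all_nd (DT.all_nd ytv2342 ytv2343) (DT.all_nd ytv2344 ytv2345)) (DT.all_nd (DT.all_nd ytv2346 ytv2347) (DT.all_nd ytv2348 ytv2349))) (DT.all_nd (DT.all_nd (DT.all_nd ytv2350 ytv2351) (DT.all_nd ytv2352 ytv2353)) (DT.all_nd (DT.all_nd ytv2354 ytv2355) ytv2356))) (DT.all_nd (DT.all_nd (DT.all_nd (DT.all_nd ytv2357 ytv2358) (DT.all_nd ytv2359 ytv2360)) (DT.all_nd ytv2361 ytv2362)) (DT.all_nd (DT.all_nd (DT.all_nd ytv2363 ytv2364) ytv2365) (DT.all_nd ytv2366 (DT.all_nd ytv2367 ytv2368)))))) (DT.all_nd (DT.all_nd (DT.all_nd (DT.all_nd (DT.all_nd (DT.all_nd ytv2369 ytv2370) (DT.all_nd ytv2371 ytv2372)) (DT.all_nd (DT.all_nd ytv2373 ytv2374) (DT.all_nd ytv2375 ytv2376))) (DT.all_nd (DT.all_nd (DT.all_nd ytv2377 ytv2378) (DT.all_nd ytv2379 ytv2380)) (DT.all_nd ytv2381 (DT.all_nd ytv2382 (DT.all_nd ytv2383 ytv2384))))) (DT.all_nd (DT.all_nd (DT.all_nd (DT.all_nd (DT.all_nd ytv2385 ytv2386) ytv2387) (DT.all_nd ytv2388 ytv2389)) (DT.all_nd ytv2390 (DT.all_nd ytv2391 ytv2392))) (DT.all_nd (DT.all_nd (DT.all_nd ytv2393 ytv2394) ytv2395) (DT.all_nd ytv2396 ytv2397)))) (DT.all_nd (DT.all_nd (DT.all_nd (DT.all_nd ytv2398 ytv2399) (DT.all_nd ytv2400 ytv2401)) (DT.all_nd (DT.all_nd ytv2402 ytv2403) (DT.all_nd ytv2404 ytv2405))) (DT.all_nd (DT.all_nd (DT.all_nd ytv2406 ytv2407) (DT.all_nd ytv2408 ytv2409)) (DT.all_nd (DT.all_nd ytv2410 ytv2411) (DT.all_nd ytv2412 (DT.all_nd ytv2413 ytv2414)))))))) (DT.all_nd (DT.all_nd (DT.all_nd (DT.all_nd (DT.all_nd (DT.all_nd (DT.all_nd (DT.all_nd ytv2415 ytv2416) (DT.all_nd ytv2417 ytv2418)) (DT.all_nd (DT.all_nd ytv2419 ytv2420) ytv2421)) (DT.all_nd (DT.all_nd ytv2422 ytv2423) (DT.all_nd ytv2424 (DT.all_nd ytv2425 ytv2426)))) (DT.all_nd (DT.all_nd (DT.all_nd ytv2427 ytv2428) (DT.all_nd ytv2429 ytv2430)) (DT.all_nd (DT.all_nd ytv2431 ytv2432) (DT.all_nd ytv2433 ytv2434)))) (DT.all_nd (DT.all_nd (DT.all_nd (DT.all_nd ytv2435 ytv2436) (DT.all_nd ytv2437 ytv2438)) (DT.all_nd (DT.all_nd (DT.all_nd ytv2439 ytv2440) (DT.all_nd ytv2441 ytv2442)) (DT.all_nd (DT.all_nd ytv2443 ytv2444) ytv2445))) (DT.all_nd (DT.all_nd (DT.all_nd ytv2446 (DT.all_nd ytv2447 ytv2448)) (DT.all_nd ytv2449 ytv2450)) (DT.all_nd (DT.all_nd ytv2451 ytv2452) (DT.all_nd ytv2453 ytv2454))))) (DT.all_nd (DT.all_nd (DT.all_nd (DT.all_nd (DT.all_nd ytv2455 ytv2456) (DT.all_nd ytv2457 (DT.all_nd ytv2458 ytv2459))) (DT.all_nd (DT.all_nd (DT.all_nd ytv2460 ytv2461) ytv2462) (DT.all_nd ytv2463 ytv2464))) (DT.all_nd (DT.all_nd (DT.all_nd (DT.all_nd ytv2465 ytv2466) (DT.all_nd ytv2467 ytv2468)) (DT.all_nd ytv2469 ytv2470)) (DT.all_nd (DT.all_nd (DT.all_nd ytv2471 ytv2472) ytv2473) (DT.all_nd (DT.all_nd ytv2474 ytv2475) ytv2476)))) (DT.all_nd (DT.all_nd (DT.all_nd (DT.all_nd (DT.all_nd ytv2477 ytv2478) ytv2479) (DT.all_nd ytv2480 ytv2481)) (DT.all_nd (DT.all_nd ytv2482 (DT.all_nd ytv2483 ytv2484)) (DT.all_nd (DT.all_nd ytv2485 ytv2486) (DT.all_nd ytv2487 ytv2488)))) (DT.all_nd (DT.all_nd (DT.all_nd ytv2489 ytv2490) (DT.all_nd ytv2491 ytv2492)) (DT.all_nd (DT.all_nd ytv2493 ytv2494) (DT.all_nd ytv2495 ytv2496)))))) (DT.all_nd (DT.all_nd (DT.all_nd (DT.all_nd (DT.all_nd (DT.all_nd ytv2497 (DT.all_nd ytv2498 ytv2499)) (DT.all_nd (DT.all_nd ytv2500 ytv2501) (DT.all_nd ytv2502 ytv2503))) (DT.all_nd (DT.all_nd (DT.all_nd ytv2504 ytv2505) ytv2506) (DT.all_nd ytv2507 ytv2508))) (DT.all_nd (DT.all_nd (DT.all_nd (DT.all_nd ytv2509 ytv2510) ytv2511) (DT.all_nd ytv2512 (DT.all_nd ytv2513 ytv2514))) (DT.all_nd (DT.all_nd ytv2515 ytv2516) (DT.all_nd (DT.all_nd ytv2517 ytv2518) (DT.all_nd ytv2519 ytv2520))))) (DT.all_nd (DT.all_nd (DT.all_nd (DT.all_nd (DT.all_nd ytv2521 ytv2522) ytv2523) (DT.all_nd ytv2524 (DT.all_nd ytv2525 ytv2526))) (DT.all_nd (DT.all_nd (DT.all_nd ytv2527 ytv2528) (DT.all_nd ytv2529 ytv2530)) (DT.all_nd (DT.all_nd ytv2531 ytv2532) (DT.all_nd ytv2533 ytv2534)))) (DT.all_nd (DT.all_nd (DT.all_nd (DT.all_nd ytv2535 ytv2536) (DT.all_nd ytv2537 ytv2538)) (DT.all_nd (DT.all_nd ytv2539 ytv2540) ytv2541)) (DT.all_nd (DT.all_nd ytv2542 (DT.all_nd (DT.all_nd ytv2543 ytv2544) ytv2545)) (DT.all_nd ytv2546 (DT.all_nd (DT.all_nd ytv2547 ytv2548) ytv2549)))))) (DT.all_nd (DT.all_nd (DT.all_nd (DT.all_nd (DT.all_nd (DT.all_nd ytv2550 ytv2551) (DT.all_nd ytv2552 ytv2553)) (DT.all_nd (DT.all_nd ytv2554 ytv2555) (DT.all_nd ytv2556 ytv2557))) (DT.all_nd (DT.all_nd (DT.all_nd ytv2558 ytv2559) (DT.all_nd ytv2560 (DT.all_nd ytv2561 ytv2562))) (DT.all_nd ytv2563 (DT.all_nd ytv2564 ytv2565)))) (DT.all_nd (DT.all_nd (DT.all_nd (DT.all_nd ytv2566 ytv2567) (DT.all_nd ytv2568 ytv2569)) (DT.all_nd (DT.all_nd ytv2570 ytv2571) ytv2572)) (DT.all_nd (DT.all_nd (DT.all_nd ytv2573 ytv2574) ytv2575) (DT.all_nd ytv2576 ytv2577)))) (DT.all_nd (DT.all_nd (DT.all_nd (DT.all_nd (DT.all_nd ytv2578 ytv2579) (DT.all_nd ytv2580 ytv2581)) (DT.all_nd (DT.all_nd ytv2582 ytv2583) ytv2584)) (DT.all_nd (DT.all_nd (DT.all_nd ytv2585 ytv2586) (DT.all_nd ytv2587 ytv2588)) (DT.all_nd ytv2589 ytv2590))) (DT.all_nd (DT.all_nd (DT.all_nd ytv2591 ytv2592) (DT.all_nd ytv2593 ytv2594)) (DT.all_nd (DT.all_nd (DT.all_nd ytv2595 ytv2596) ytv2597) (DT.all_nd ytv2598 (DT.all_nd ytv2599 ytv2600)))))))))) (DT.all_nd (DT.all_nd (DT.all_nd (DT.all_nd (DT.all_nd (DT.all_nd (DT.all_nd (DT.all_nd (DT.all_nd ytv2601 ytv2602) (DT.all_nd (DT.all_nd (DT.all_nd ytv2603 ytv2604) ytv2605) (DT.all_nd ytv2606 ytv2607))) (DT.all_nd (DT.all_nd (DT.all_nd ytv2608 ytv2609) ytv2610) (DT.all_nd ytv2611 ytv2612))) (DT.all_nd (DT.all_nd (DT.all_nd (DT.all_nd ytv2613 ytv2614) (DT.all_nd ytv2615 ytv2616)) (DT.all_nd (DT.all_nd ytv2617 ytv2618) ytv2619)) (DT.all_nd (DT.all_nd (DT.all_nd ytv2620 ytv2621) (DT.all_nd (DT.all_nd ytv2622 ytv2623) ytv2624)) (DT.all_nd ytv2625 (DT.all_nd ytv2626 ytv2627))))) (DT.all_nd (DT.all_nd (DT.all_nd (DT.all_nd ytv2628 ytv2629) (DT.all_nd (DT.all_nd ytv2630 ytv2631) ytv2632)) (DT.all_nd (DT.all_nd ytv2633 (DT.all_nd ytv2634 ytv2635)) (DT.all_nd (DT.all_nd ytv2636 ytv2637) ytv2638))) (DT.all_nd (DT.all_nd (DT.all_nd (DT.all_nd ytv2639 ytv2640) ytv2641) (DT.all_nd ytv2642 (DT.all_nd ytv2643 ytv2644))) (DT.all_nd (DT.all_nd (DT.all_nd ytv2645 ytv2646) ytv2647) (DT.all_nd ytv2648 ytv2649))))) (DT.all_nd (DT.all_nd (DT.all_nd (DT.all_nd (DT.all_nd ytv2650 ytv2651) (DT.all_nd ytv2652 (DT.all_nd ytv2653 ytv2654))) (DT.all_nd (DT.all_nd (DT.all_nd ytv2655 ytv2656) (DT.all_nd ytv2657 ytv2658)) (DT.all_nd (DT.all_nd ytv2659 ytv2660) (DT.all_nd ytv2661 ytv2662)))) (DT.all_nd (DT.all_nd (DT.all_nd ytv2663 (DT.all_nd ytv2664 ytv2665)) (DT.all_nd ytv2666 (DT.all_nd ytv2667 ytv2668))) (DT.all_nd (DT.all_nd (DT.all_nd ytv2669 ytv2670) ytv2671) (DT.all_nd (DT.all_nd ytv2672 ytv2673) (DT.all_nd ytv2674 ytv2675))))) (DT.all_nd (DT.all_nd (DT.all_nd (DT.all_nd (DT.all_nd ytv2676 ytv2677) (DT.all_nd ytv2678 ytv2679)) (DT.all_nd (DT.all_nd ytv2680 ytv2681) ytv2682)) (DT.all_nd (DT.all_nd (DT.all_nd ytv2683 ytv2684) (DT.all_nd ytv2685 ytv2686)) (DT.all_nd (DT.all_nd ytv2687 ytv2688) ytv2689))) (DT.all_nd (DT.all_nd (DT.all_nd ytv2690 ytv2691) (DT.all_nd ytv2692 ytv2693)) (DT.all_nd (DT.all_nd (DT.all_nd ytv2694 ytv2695) (DT.all_nd ytv2696 ytv2697)) (DT.all_nd (DT.all_nd ytv2698 ytv2699) (DT.all_nd ytv2700 ytv2701))))))) (DT.all_nd (DT.all_nd (DT.all_nd (DT.all_nd (DT.all_nd (DT.all_nd (DT.all_nd ytv2702 ytv2703) (DT.all_nd ytv2704 ytv2705)) (DT.all_nd (DT.all_nd ytv2706 ytv2707) ytv2708)) (DT.all_nd (DT.all_nd ytv2709 ytv2710) (DT.all_nd ytv2711 (DT.all_nd ytv2712 ytv2713)))) (DT.all_nd (DT.all_nd (DT.all_nd (DT.all_nd ytv2714 ytv2715) (DT.all_nd ytv2716 ytv2717)) (DT.all_nd (DT.all_nd ytv2718 (DT.all_nd ytv2719 ytv2720)) (DT.all_nd ytv2721 ytv2722))) (DT.all_nd (DT.all_nd (DT.all_nd ytv2723 ytv2724) ytv2725) (DT.all_nd ytv2726 ytv2727)))) (DT.all_nd (DT.all_nd (DT.all_nd (DT.all_nd ytv2728 ytv2729) (DT.all_nd ytv2730 ytv2731)) (DT.all_nd (DT.all_nd (DT.all_nd ytv2732 ytv2733) (DT.all_nd ytv2734 ytv2735)) (DT.all_nd (DT.all_nd ytv2736 ytv2737) (DT.all_nd (DT.all_nd ytv2738 ytv2739) ytv2740)))) (DT.all_nd (DT.all_nd (DT.all_nd (DT.all_nd ytv2741 ytv2742) (DT.all_nd ytv2743 ytv2744)) (DT.all_nd (DT.all_nd ytv2745 ytv2746) (DT.all_nd ytv2747 ytv2748))) (DT.all_nd (DT.all_nd ytv2749 (DT.all_nd ytv2750 ytv2751)) (DT.all_nd (DT.all_nd ytv2752 ytv2753) (DT.all_nd (DT.all_nd ytv2754 ytv2755) ytv2756)))))) (DT.all_nd (DT.all_nd (DT.all_nd (DT.all_nd (DT.all_nd (DT.all_nd ytv2757 ytv2758) (DT.all_nd ytv2759 ytv2760)) (DT.all_nd (DT.all_nd ytv2761 ytv2762) (DT.all_nd ytv2763 ytv2764))) (DT.all_nd (DT.all_nd (DT.all_nd ytv2765 ytv2766) (DT.all_nd ytv2767 ytv2768)) (DT.all_nd (DT.all_nd ytv2769 ytv2770) (DT.all_nd (DT.all_nd ytv2771 ytv2772) ytv2773)))) (DT.all_nd (DT.all_nd (DT.all_nd (DT.all_nd ytv2774 ytv2775) (DT.all_nd ytv2776 ytv2777)) (DT.all_nd (DT.all_nd ytv2778 ytv2779) ytv2780)) (DT.all_nd (DT.all_nd ytv2781 ytv2782) (DT.all_nd ytv2783 ytv2784)))) (DT.all_nd (DT.all_nd (DT.all_nd (DT.all_nd (DT.all_nd ytv2785 ytv2786) (DT.all_nd ytv2787 ytv2788)) (DT.all_nd (DT.all_nd ytv2789 ytv2790) ytv2791)) (DT.all_nd (DT.all_nd (DT.all_nd ytv2792 ytv2793) (DT.all_nd ytv2794 ytv2795)) (DT.all_nd (DT.all_nd ytv2796 ytv2797) (DT.all_nd ytv2798 ytv2799)))) (DT.all_nd (DT.all_nd (DT.all_nd (DT.all_nd ytv2800 ytv2801) (DT.all_nd ytv2802 ytv2803)) (DT.all_nd ytv2804 (DT.all_nd ytv2805 ytv2806))) (DT.all_nd (DT.all_nd ytv2807 ytv2808) (DT.all_nd ytv2809 ytv2810))))))) (DT.all_nd (DT.all_nd (DT.all_nd (DT.all_nd (DT.all_nd (DT.all_nd (DT.all_nd ytv2811 ytv2812) (DT.all_nd ytv2813 ytv2814)) (DT.all_nd (DT.all_nd ytv2815 ytv2816) (DT.all_nd ytv2817 ytv2818))) (DT.all_nd (DT.all_nd (DT.all_nd ytv2819 ytv2820) (DT.all_nd ytv2821 ytv2822)) (DT.all_nd (DT.all_nd ytv2823 ytv2824) (DT.all_nd ytv2825 ytv2826)))) (DT.all_nd (DT.all_nd (DT.all_nd (DT.all_nd ytv2827 ytv2828) (DT.all_nd ytv2829 (DT.all_nd ytv2830 ytv2831))) (DT.all_nd (DT.all_nd (DT.all_nd ytv2832 ytv2833) (DT.all_nd ytv2834 ytv2835)) (DT.all_nd (DT.all_nd ytv2836 ytv2837) (DT.all_nd ytv2838 ytv2839)))) (DT.all_nd (DT.all_nd (DT.all_nd (DT.all_nd ytv2840 ytv2841) (DT.all_nd ytv2842 ytv2843)) (DT.all_nd (DT.all_nd ytv2844 ytv2845) ytv2846)) (DT.all_nd (DT.all_nd (DT.all_nd ytv2847 ytv2848) ytv2849) (DT.all_nd ytv2850 (DT.all_nd ytv2851 ytv2852)))))) (DT.all_nd (DT.all_nd (DT.all_nd (DT.all_nd (DT.all_nd (DT.all_nd ytv2853 ytv2854) ytv2855) (DT.all_nd ytv2856 (DT.all_nd ytv2857 ytv2858))) (DT.all_nd (DT.all_nd (DT.all_nd ytv2859 ytv2860) (DT.all_nd ytv2861 ytv2862)) (DT.all_nd (DT.all_nd ytv2863 ytv2864) (DT.all_nd ytv2865 ytv2866)))) (DT.all_nd (DT.all_nd (DT.all_nd (DT.all_nd ytv2867 ytv2868) ytv2869) (DT.all_nd (DT.all_nd ytv2870 ytv2871) ytv2872)) (DT.all_nd (DT.all_nd (DT.all_nd ytv2873 ytv2874) (DT.all_nd ytv2875 ytv2876)) (DT.all_nd (DT.all_nd ytv2877 ytv2878) ytv2879)))) (DT.all_nd (DT.all_nd (DT.all_nd (DT.all_nd ytv2880 (DT.all_nd ytv2881 ytv2882)) (DT.all_nd ytv2883 ytv2884)) (DT.all_nd (DT.all_nd ytv2885 (DT.all_nd ytv2886 ytv2887)) (DT.all_nd ytv2888 (DT.all_nd ytv2889 ytv2890)))) (DT.all_nd (DT.all_nd (DT.all_nd (DT.all_nd ytv2891 ytv2892) (DT.all_nd ytv2893 ytv2894)) (DT.all_nd (DT.all_nd ytv2895 ytv2896) ytv2897)) (DT.all_nd (DT.all_nd (DT.all_nd ytv2898 ytv2899) ytv2900) (DT.all_nd ytv2901 (DT.all_nd ytv2902 ytv2903))))))) (DT.all_nd (DT.all_nd (DT.all_nd (DT.all_nd (DT.all_nd (DT.all_nd (DT.all_nd ytv2904 ytv2905) (DT.all_nd ytv2906 ytv2907)) (DT.all_nd (DT.all_nd ytv2908 ytv2909) (DT.all_nd ytv2910 ytv2911))) (DT.all_nd (DT.all_nd ytv2912 ytv2913) (DT.all_nd (DT.all_nd ytv2914 ytv2915) (DT.all_nd ytv2916 ytv2917)))) (DT.all_nd (DT.all_nd (DT.all_nd (DT.all_nd ytv2918 ytv2919) ytv2920) (DT.all_nd ytv2921 ytv2922)) (DT.all_nd (DT.all_nd ytv2923 ytv2924) (DT.all_nd ytv2925 (DT.all_nd ytv2926 ytv2927))))) (DT.all_nd (DT.all_nd (DT.all_nd (DT.all_nd ytv2928 (DT.all_nd ytv2929 ytv2930)) (DT.all_nd ytv2931 (DT.all_nd ytv2932 ytv2933))) (DT.all_nd (DT.all_nd (DT.all_nd ytv2934 ytv2935) ytv2936) (DT.all_nd (DT.all_nd ytv2937 ytv2938) ytv2939))) (DT.all_nd (DT.all_nd (DT.all_nd ytv2940 ytv2941) (DT.all_nd ytv2942 (DT.all_nd ytv2943 ytv2944))) (DT.all_nd (DT.all_nd (DT.all_nd ytv2945 ytv2946) (DT.all_nd ytv2947 ytv2948)) (DT.all_nd (DT.all_nd ytv2949 ytv2950) (DT.all_nd ytv2951 ytv2952)))))) (DT.all_nd (DT.all_nd (DT.all_nd (DT.all_nd (DT.all_nd (DT.all_nd ytv2953 ytv2954) (DT.all_nd ytv2955 ytv2956)) (DT.all_nd (DT.all_nd ytv2957 ytv2958) (DT.all_nd ytv2959 ytv2960))) (DT.all_nd (DT.all_nd ytv2961 ytv2962) (DT.all_nd ytv2963 ytv2964))) (DT.all_nd (DT.all_nd (DT.all_nd ytv2965 ytv2966) (DT.all_nd ytv2967 ytv2968)) (DT.all_nd (DT.all_nd ytv2969 (DT.all_nd ytv2970 ytv2971)) (DT.all_nd (DT.all_nd ytv2972 ytv2973) (DT.all_nd ytv2974 ytv2975))))) (DT.all_nd (DT.all_nd (DT.all_nd (DT.all_nd ytv2976 (DT.all_nd ytv2977 ytv2978)) (DT.all_nd (DT.all_nd ytv2979 ytv2980) (DT.all_nd ytv2981 ytv2982))) (DT.all_nd (DT.all_nd ytv2983 (DT.all_nd ytv2984 ytv2985)) (DT.all_nd (DT.all_nd ytv2986 ytv2987) (DT.all_nd ytv2988 ytv2989)))) (DT.all_nd (DT.all_nd (DT.all_nd (DT.all_nd ytv2990 ytv2991) ytv2992) (DT.all_nd ytv2993 (DT.all_nd ytv2994 ytv2995))) (DT.all_nd (DT.all_nd (DT.all_nd ytv2996 ytv2997) ytv2998) (DT.all_nd ytv2999 (DT.all_nd ytv3000 ytv3001))))))))) (DT.all_nd (DT.all_nd (DT.all_nd (DT.all_nd (DT.all_nd (DT.all_nd (DT.all_nd (DT.all_nd (DT.all_nd ytv3002 ytv3003) (DT.all_nd ytv3004 ytv3005)) (DT.all_nd (DT.all_nd ytv3006 ytv3007) (DT.all_nd ytv3008 ytv3009))) (DT.all_nd (DT.all_nd (DT.all_nd ytv3010 ytv3011) ytv3012) (DT.all_nd (DT.all_nd ytv3013 ytv3014) (DT.all_nd ytv3015 ytv3016)))) (DT.all_nd (DT.all_nd (DT.all_nd ytv3017 (DT.all_nd ytv3018 ytv3019)) (DT.all_nd ytv3020 (DT.all_nd ytv3021 ytv3022))) (DT.all_nd (DT.all_nd ytv3023 ytv3024) (DT.all_nd ytv3025 (DT.all_nd ytv3026 ytv3027))))) (DT.all_nd (DT.all_nd (DT.all_nd (DT.all_nd (DT.all_nd ytv3028 ytv3029) (DT.all_nd ytv3030 ytv3031)) (DT.all_nd ytv3032 ytv3033)) (DT.all_nd (DT.all_nd (DT.all_nd ytv3034 ytv3035) ytv3036) (DT.all_nd (DT.all_nd ytv3037 ytv3038) ytv3039))) (DT.all_nd (DT.all_nd (DT.all_nd (DT.all_nd ytv3040 ytv3041) (DT.all_nd ytv3042 ytv3043)) (DT.all_nd (DT.all_nd ytv3044 ytv3045) ytv3046)) (DT.all_nd (DT.all_nd ytv3047 (DT.all_nd ytv3048 ytv3049)) (DT.all_nd ytv3050 ytv3051))))) (DT.all_nd (DT.all_nd (DT.all_nd (DT.all_nd (DT.all_nd ytv3052 ytv3053) (DT.all_nd (DT.all_nd ytv3054 ytv3055) (DT.all_nd ytv3056 ytv3057))) (DT.all_nd (DT.all_nd (DT.all_nd ytv3058 ytv3059) (DT.all_nd ytv3060 ytv3061)) (DT.all_nd ytv3062 ytv3063))) (DT.all_nd (DT.all_nd (DT.all_nd ytv3064 ytv3065) (DT.all_nd ytv3066 ytv3067)) (DT.all_nd (DT.all_nd ytv3068 (DT.all_nd ytv3069 ytv3070)) (DT.all_nd ytv3071 (DT.all_nd ytv3072 ytv3073))))) (DT.all_nd (DT.all_nd (DT.all_nd (DT.all_nd ytv3074 ytv3075) (DT.all_nd (DT.all_nd ytv3076 ytv3077) ytv3078)) (DT.all_nd (DT.all_nd ytv3079 ytv3080) (DT.all_nd (DT.all_nd ytv3081 ytv3082) (DT.all_nd ytv3083 ytv3084)))) (DT.all_nd (DT.all_nd (DT.all_nd ytv3085 (DT.all_nd ytv3086 ytv3087)) (DT.all_nd ytv3088 ytv3089)) (DT.all_nd (DT.all_nd (DT.all_nd ytv3090 ytv3091) (DT.all_nd ytv3092 ytv3093)) (DT.all_nd (DT.all_nd ytv3094 ytv3095) (DT.all_nd ytv3096 ytv3097))))))) (DT.all_nd (DT.all_nd (DT.all_nd (DT.all_nd (DT.all_nd (DT.all_nd (DT.all_nd ytv3098 ytv3099) (DT.all_nd ytv3100 ytv3101)) (DT.all_nd (DT.all_nd ytv3102 ytv3103) (DT.all_nd ytv3104 ytv3105))) (DT.all_nd (DT.all_nd (DT.all_nd ytv3106 ytv3107) (DT.all_nd ytv3108 ytv3109)) (DT.all_nd (DT.all_nd ytv3110 ytv3111) (DT.all_nd ytv3112 ytv3113)))) (DT.all_nd (DT.all_nd (DT.all_nd (DT.all_nd ytv3114 ytv3115) (DT.all_nd ytv3116 ytv3117)) (DT.all_nd (DT.all_nd ytv3118 ytv3119) ytv3120)) (DT.all_nd (DT.all_nd (DT.all_nd ytv3121 ytv3122) (DT.all_nd ytv3123 ytv3124)) (DT.all_nd (DT.all_nd ytv3125 ytv3126) (DT.all_nd ytv3127 ytv3128))))) (DT.all_nd (DT.all_nd (DT.all_nd (DT.all_nd (DT.all_nd ytv3129 ytv3130) (DT.all_nd ytv3131 ytv3132)) (DT.all_nd ytv3133 (DT.all_nd ytv3134 ytv3135))) (DT.all_nd (DT.all_nd (DT.all_nd ytv3136 ytv3137) ytv3138) (DT.all_nd ytv3139 ytv3140))) (DT.all_nd (DT.all_nd (DT.all_nd ytv3141 (DT.all_nd ytv3142 ytv3143)) (DT.all_nd ytv3144 ytv3145)) (DT.all_nd (DT.all_nd ytv3146 (DT.all_nd ytv3147 ytv3148)) (DT.all_nd (DT.all_nd ytv3149 ytv3150) ytv3151))))) (DT.all_nd (DT.all_nd (DT.all_nd (DT.all_nd (DT.all_nd (DT.all_nd ytv3152 ytv3153) (DT.all_nd ytv3154 ytv3155)) (DT.all_nd (DT.all_nd ytv3156 ytv3157) ytv3158)) (DT.all_nd (DT.all_nd (DT.all_nd ytv3159 ytv3160) ytv3161) (DT.all_nd ytv3162 ytv3163))) (DT.all_nd (DT.all_nd (DT.all_nd (DT.all_nd ytv3164 ytv3165) (DT.all_nd ytv3166 ytv3167)) (DT.all_nd (DT.all_nd ytv3168 ytv3169) ytv3170)) (DT.all_nd (DT.all_nd ytv3171 ytv3172) (DT.all_nd ytv3173 ytv3174)))) (DT.all_nd (DT.all_nd (DT.all_nd (DT.all_nd ytv3175 ytv3176) (DT.all_nd (DT.all_nd ytv3177 ytv3178) ytv3179)) (DT.all_nd (DT.all_nd ytv3180 ytv3181) (DT.all_nd ytv3182 ytv3183))) (DT.all_nd (DT.all_nd (DT.all_nd ytv3184 (DT.all_nd ytv3185 ytv3186)) (DT.all_nd ytv3187 (DT.all_nd ytv3188 ytv3189))) (DT.all_nd (DT.all_nd ytv3190 ytv3191) (DT.all_nd ytv3192 ytv3193))))))) (DT.all_nd (DT.all_nd (DT.all_nd (DT.all_nd (DT.all_nd (DT.all_nd (DT.all_nd ytv3194 (DT.all_nd ytv3195 ytv3196)) (DT.all_nd ytv3197 ytv3198)) (DT.all_nd (DT.all_nd ytv3199 ytv3200) (DT.all_nd ytv3201 ytv3202))) (DT.all_nd (DT.all_nd (DT.all_nd ytv3203 ytv3204) (DT.all_nd ytv3205 ytv3206)) (DT.all_nd (DT.all_nd ytv3207 ytv3208) (DT.all_nd ytv3209 ytv3210)))) (DT.all_nd (DT.all_nd (DT.all_nd (DT.all_nd (DT.all_nd ytv3211 (DT.all_nd ytv3212 ytv3213)) ytv3214) (DT.all_nd ytv3215 ytv3216)) (DT.all_nd (DT.all_nd ytv3217 ytv3218) (DT.all_nd ytv3219 ytv3220))) (DT.all_nd (DT.all_nd (DT.all_nd ytv3221 ytv3222) (DT.all_nd (DT.all_nd ytv3223 ytv3224) (DT.all_nd ytv3225 ytv3226))) (DT.all_nd (DT.all_nd (DT.all_nd ytv3227 ytv3228) (DT.all_nd ytv3229 ytv3230)) (DT.all_nd (DT.all_nd ytv3231 ytv3232) (DT.all_nd ytv3233 ytv3234)))))) (DT.all_nd (DT.all_nd (DT.all_nd (DT.all_nd (DT.all_nd (DT.all_nd ytv3235 ytv3236) (DT.all_nd ytv3237 ytv3238)) (DT.all_nd (DT.all_nd ytv3239 ytv3240) (DT.all_nd ytv3241 ytv3242))) (DT.all_nd (DT.all_nd (DT.all_nd ytv3243 ytv3244) (DT.all_nd ytv3245 ytv3246)) (DT.all_nd (DT.all_nd ytv3247 ytv3248) (DT.all_nd ytv3249 ytv3250)))) (DT.all_nd (DT.all_nd (DT.all_nd (DT.all_nd ytv3251 ytv3252) (DT.all_nd ytv3253 ytv3254)) (DT.all_nd (DT.all_nd ytv3255 ytv3256) (DT.all_nd ytv3257 ytv3258))) (DT.all_nd (DT.all_nd (DT.all_nd ytv3259 ytv3260) (DT.all_nd ytv3261 ytv3262)) (DT.all_nd ytv3263 (DT.all_nd ytv3264 ytv3265))))) (DT.all_nd (DT.all_nd (DT.all_nd (DT.all_nd (DT.all_nd ytv3266 ytv3267) (DT.all_nd ytv3268 ytv3269)) (DT.all_nd (DT.all_nd ytv3270 ytv3271) (DT.all_nd ytv3272 ytv3273))) (DT.all_nd (DT.all_nd (DT.all_nd ytv3274 ytv3275) (DT.all_nd ytv3276 ytv3277)) (DT.all_nd ytv3278 ytv3279))) (DT.all_nd (DT.all_nd (DT.all_nd ytv3280 ytv3281) (DT.all_nd (DT.all_nd ytv3282 ytv3283) (DT.all_nd ytv3284 ytv3285))) (DT.all_nd (DT.all_nd (DT.all_nd ytv3286 ytv3287) ytv3288) (DT.all_nd (DT.all_nd ytv3289 ytv3290) (DT.all_nd ytv3291 ytv3292))))))) (DT.all_nd (DT.all_nd (DT.all_nd (DT.all_nd (DT.all_nd (DT.all_nd (DT.all_nd ytv3293 ytv3294) ytv3295) (DT.all_nd (DT.all_nd ytv3296 ytv3297) (DT.all_nd ytv3298 ytv3299))) (DT.all_nd (DT.all_nd (DT.all_nd ytv3300 ytv3301) (DT.all_nd ytv3302 ytv3303)) (DT.all_nd (DT.all_nd ytv3304 ytv3305) (DT.all_nd ytv3306 ytv3307)))) (DT.all_nd (DT.all_nd (DT.all_nd (DT.all_nd ytv3308 ytv3309) (DT.all_nd ytv3310 ytv3311)) (DT.all_nd ytv3312 (DT.all_nd ytv3313 ytv3314))) (DT.all_nd (DT.all_nd ytv3315 ytv3316) (DT.all_nd ytv3317 (DT.all_nd ytv3318 ytv3319))))) (DT.all_nd (DT.all_nd (DT.all_nd (DT.all_nd ytv3320 ytv3321) (DT.all_nd ytv3322 ytv3323)) (DT.all_nd (DT.all_nd ytv3324 ytv3325) (DT.all_nd ytv3326 ytv3327))) (DT.all_nd (DT.all_nd (DT.all_nd ytv3328 ytv3329) (DT.all_nd ytv3330 (DT.all_nd ytv3331 ytv3332))) (DT.all_nd (DT.all_nd ytv3333 ytv3334) (DT.all_nd ytv3335 ytv3336))))) (DT.all_nd (DT.all_nd (DT.all_nd (DT.all_nd (DT.all_nd ytv3337 ytv3338) (DT.all_nd ytv3339 ytv3340)) (DT.all_nd (DT.all_nd ytv3341 ytv3342) (DT.all_nd (DT.all_nd ytv3343 ytv3344) ytv3345))) (DT.all_nd (DT.all_nd (DT.all_nd (DT.all_nd (DT.all_nd ytv3346 (DT.all_nd ytv3347 ytv3348)) ytv3349) (DT.all_nd (DT.all_nd (DT.all_nd ytv3350 ytv3351) ytv3352) ytv3353)) (DT.all_nd ytv3354 ytv3355)) (DT.all_nd (DT.all_nd ytv3356 ytv3357) (DT.all_nd ytv3358 (DT.all_nd ytv3359 ytv3360))))) (DT.all_nd (DT.all_nd (DT.all_nd (DT.all_nd ytv3361 (DT.all_nd ytv3362 ytv3363)) (DT.all_nd ytv3364 ytv3365)) (DT.all_nd (DT.all_nd (DT.all_nd ytv3366 ytv3367) (DT.all_nd ytv3368 ytv3369)) (DT.all_nd ytv3370 ytv3371))) (DT.all_nd (DT.all_nd (DT.all_nd ytv3372 ytv3373) (DT.all_nd ytv3374 ytv3375)) (DT.all_nd (DT.all_nd ytv3376 (DT.all_nd ytv3377 ytv3378)) (DT.all_nd ytv3379 ytv3380))))))))))) (DT.all_nd (DT.all_nd (DT.all_nd (DT.all_nd (DT.all_nd (DT.all_nd (DT.all_nd (DT.all_nd (DT.all_nd (DT.all_nd (DT.all_nd (DT.all_nd ytv3381 (DT.all_nd ytv3382 ytv3383)) ytv3384) (DT.all_nd (DT.all_nd ytv3385 ytv3386) (DT.all_nd ytv3387 ytv3388))) (DT.all_nd (DT.all_nd ytv3389 (DT.all_nd ytv3390 ytv3391)) (DT.all_nd ytv3392 ytv3393))) (DT.all_nd (DT.all_nd (DT.all_nd ytv3394 ytv3395) (DT.all_nd (DT.all_nd ytv3396 ytv3397) ytv3398)) (DT.all_nd (DT.all_nd ytv3399 ytv3400) (DT.all_nd ytv3401 ytv3402)))) (DT.all_nd (DT.all_nd (DT.all_nd (DT.all_nd ytv3403 ytv3404) (DT.all_nd ytv3405 ytv3406)) (DT.all_nd (DT.all_nd ytv3407 ytv3408) (DT.all_nd ytv3409 ytv3410))) (DT.all_nd (DT.all_nd (DT.all_nd ytv3411 ytv3412) (DT.all_nd (DT.all_nd ytv3413 ytv3414) (DT.all_nd ytv3415 ytv3416))) (DT.all_nd (DT.all_nd (DT.all_nd ytv3417 ytv3418) ytv3419) (DT.all_nd ytv3420 ytv3421))))) (DT.all_nd (DT.all_nd (DT.all_nd (DT.all_nd (DT.all_nd ytv3422 ytv3423) (DT.all_nd ytv3424 ytv3425)) (DT.all_nd (DT.all_nd ytv3426 ytv3427) (DT.all_nd ytv3428 (DT.all_nd ytv3429 ytv3430)))) (DT.all_nd (DT.all_nd (DT.all_nd (DT.all_nd (DT.all_nd ytv3431 ytv3432) ytv3433) (DT.all_nd ytv3434 ytv3435)) (DT.all_nd ytv3436 ytv3437)) (DT.all_nd (DT.all_nd ytv3438 (DT.all_nd ytv3439 ytv3440)) (DT.all_nd (DT.all_nd ytv3441 ytv3442) (DT.all_nd ytv3443 ytv3444))))) (DT.all_nd (DT.all_nd (DT.all_nd (DT.all_nd ytv3445 (DT.all_nd ytv3446 ytv3447)) (DT.all_nd (DT.all_nd ytv3448 ytv3449) ytv3450)) (DT.all_nd (DT.all_nd ytv3451 (DT.all_nd ytv3452 ytv3453)) (DT.all_nd (DT.all_nd ytv3454 ytv3455) ytv3456))) (DT.all_nd (DT.all_nd (DT.all_nd (DT.all_nd ytv3457 ytv3458) (DT.all_nd ytv3459 ytv3460)) (DT.all_nd (DT.all_nd ytv3461 ytv3462) ytv3463)) (DT.all_nd (DT.all_nd (DT.all_nd ytv3464 ytv3465) ytv3466) (DT.all_nd ytv3467 ytv3468)))))) (DT.all_nd (DT.all_nd (DT.all_nd (DT.all_nd (DT.all_nd (DT.all_nd ytv3469 ytv3470) (DT.all_nd ytv3471 ytv3472)) (DT.all_nd (DT.all_nd (DT.all_nd ytv3473 ytv3474) (DT.all_nd ytv3475 ytv3476)) (DT.all_nd (DT.all_nd ytv3477 ytv3478) (DT.all_nd ytv3479 ytv3480)))) (DT.all_nd (DT.all_nd (DT.all_nd ytv3481 ytv3482) (DT.all_nd (DT.all_nd ytv3483 ytv3484) (DT.all_nd ytv3485 ytv3486))) (DT.all_nd (DT.all_nd (DT.all_nd ytv3487 ytv3488) (DT.all_nd ytv3489 ytv3490)) (DT.all_nd ytv3491 (DT.all_nd ytv3492 ytv3493))))) (DT.all_nd (DT.all_nd (DT.all_nd (DT.all_nd ytv3494 ytv3495) (DT.all_nd ytv3496 ytv3497)) (DT.all_nd (DT.all_nd (DT.all_nd ytv3498 ytv3499) ytv3500) (DT.all_nd (DT.all_nd ytv3501 ytv3502) (DT.all_nd ytv3503 ytv3504)))) (DT.all_nd (DT.all_nd (DT.all_nd (DT.all_nd ytv3505 ytv3506) ytv3507) (DT.all_nd (DT.all_nd ytv3508 ytv3509) ytv3510)) (DT.all_nd (DT.all_nd ytv3511 (DT.all_nd ytv3512 ytv3513)) (DT.all_nd (DT.all_nd ytv3514 ytv3515) (DT.all_nd ytv3516 ytv3517)))))) (DT.all_nd (DT.all_nd (DT.all_nd (DT.all_nd (DT.all_nd ytv3518 (DT.all_nd ytv3519 ytv3520)) (DT.all_nd (DT.all_nd ytv3521 ytv3522) (DT.all_nd ytv3523 ytv3524))) (DT.all_nd (DT.all_nd (DT.all_nd ytv3525 ytv3526) ytv3527) (DT.all_nd ytv3528 ytv3529))) (DT.all_nd (DT.all_nd (DT.all_nd ytv3530 ytv3531) (DT.all_nd ytv3532 (DT.all_nd ytv3533 ytv3534))) (DT.all_nd (DT.all_nd (DT.all_nd ytv3535 ytv3536) (DT.all_nd ytv3537 ytv3538)) (DT.all_nd (DT.all_nd ytv3539 ytv3540) (DT.all_nd ytv3541 ytv3542))))) (DT.all_nd (DT.all_nd (DT.all_nd (DT.all_nd ytv3543 ytv3544) (DT.all_nd ytv3545 ytv3546)) (DT.all_nd (DT.all_nd ytv3547 ytv3548) (DT.all_nd ytv3549 ytv3550))) (DT.all_nd (DT.all_nd (DT.all_nd ytv3551 (DT.all_nd ytv3552 ytv3553)) (DT.all_nd (DT.all_nd ytv3554 ytv3555) (DT.all_nd ytv3556 ytv3557))) (DT.all_nd (DT.all_nd (DT.all_nd ytv3558 ytv3559) ytv3560) (DT.all_nd (DT.all_nd ytv3561 ytv3562) (DT.all_nd ytv3563 ytv3564)))))))) (DT.all_nd (DT.all_nd (DT.all_nd (DT.all_nd (DT.all_nd (DT.all_nd ytv3565 (DT.all_nd ytv3566 ytv3567)) (DT.all_nd (DT.all_nd ytv3568 ytv3569) (DT.all_nd (DT.all_nd ytv3570 ytv3571) (DT.all_nd ytv3572 ytv3573)))) (DT.all_nd (DT.all_nd (DT.all_nd (DT.all_nd ytv3574 ytv3575) ytv3576) (DT.all_nd ytv3577 ytv3578)) (DT.all_nd (DT.all_nd (DT.all_nd ytv3579 ytv3580) (DT.all_nd ytv3581 ytv3582)) (DT.all_nd ytv3583 (DT.all_nd ytv3584 ytv3585))))) (DT.all_nd (DT.all_nd (DT.all_nd (DT.all_nd ytv3586 ytv3587) (DT.all_nd ytv3588 ytv3589)) (DT.all_nd (DT.all_nd ytv3590 ytv3591) (DT.all_nd ytv3592 ytv3593))) (DT.all_nd (DT.all_nd (DT.all_nd ytv3594 ytv3595) (DT.all_nd ytv3596 ytv3597)) (DT.all_nd (DT.all_nd ytv3598 ytv3599) (DT.all_nd ytv3600 ytv3601))))) (DT.all_nd (DT.all_nd (DT.all_nd (DT.all_nd (DT.all_nd ytv3602 ytv3603) (DT.all_nd ytv3604 ytv3605)) (DT.all_nd (DT.all_nd ytv3606 ytv3607) (DT.all_nd ytv3608 ytv3609))) (DT.all_nd (DT.all_nd (DT.all_nd ytv3610 ytv3611) (DT.all_nd ytv3612 ytv3613)) (DT.all_nd (DT.all_nd ytv3614 ytv3615) (DT.all_nd ytv3616 ytv3617)))) (DT.all_nd (DT.all_nd (DT.all_nd (DT.all_nd ytv3618 ytv3619) (DT.all_nd ytv3620 ytv3621)) (DT.all_nd (DT.all_nd ytv3622 ytv3623) (DT.all_nd ytv3624 ytv3625))) (DT.all_nd (DT.all_nd (DT.all_nd ytv3626 ytv3627) (DT.all_nd ytv3628 ytv3629)) (DT.all_nd (DT.all_nd ytv3630 ytv3631) (DT.all_nd ytv3632 ytv3633)))))) (DT.all_nd (DT.all_nd (DT.all_nd (DT.all_nd (DT.all_nd (DT.all_nd ytv3634 (DT.all_nd ytv3635 ytv3636)) (DT.all_nd ytv3637 ytv3638)) (DT.all_nd (DT.all_nd ytv3639 ytv3640) (DT.all_nd ytv3641 ytv3642))) (DT.all_nd (DT.all_nd (DT.all_nd ytv3643 ytv3644) (DT.all_nd ytv3645 ytv3646)) (DT.all_nd (DT.all_nd ytv3647 ytv3648) (DT.all_nd ytv3649 ytv3650)))) (DT.all_nd (DT.all_nd (DT.all_nd (DT.all_nd ytv3651 (DT.all_nd ytv3652 ytv3653)) (DT.all_nd ytv3654 (DT.all_nd ytv3655 ytv3656))) (DT.all_nd (DT.all_nd ytv3657 (DT.all_nd ytv3658 ytv3659)) (DT.all_nd (DT.all_nd ytv3660 ytv3661) (DT.all_nd ytv3662 ytv3663)))) (DT.all_nd (DT.all_nd (DT.all_nd (DT.all_nd ytv3664 ytv3665) (DT.all_nd ytv3666 ytv3667)) (DT.all_nd ytv3668 (DT.all_nd ytv3669 ytv3670))) (DT.all_nd (DT.all_nd ytv3671 ytv3672) (DT.all_nd (DT.all_nd ytv3673 ytv3674) (DT.all_nd ytv3675 ytv3676)))))) (DT.all_nd (DT.all_nd (DT.all_nd (DT.all_nd (DT.all_nd (DT.all_nd (DT.all_nd ytv3677 ytv3678) ytv3679) ytv3680) (DT.all_nd ytv3681 ytv3682)) (DT.all_nd (DT.all_nd ytv3683 ytv3684) (DT.all_nd (DT.all_nd ytv3685 (DT.all_nd ytv3686 ytv3687)) ytv3688))) (DT.all_nd (DT.all_nd (DT.all_nd ytv3689 ytv3690) (DT.all_nd (DT.all_nd ytv3691 ytv3692) ytv3693)) (DT.all_nd (DT.all_nd ytv3694 ytv3695) (DT.all_nd ytv3696 ytv3697)))) (DT.all_nd (DT.all_nd (DT.all_nd (DT.all_nd ytv3698 (DT.all_nd ytv3699 ytv3700)) (DT.all_nd ytv3701 ytv3702)) (DT.all_nd (DT.all_nd ytv3703 ytv3704) (DT.all_nd ytv3705 (DT.all_nd ytv3706 ytv3707)))) (DT.all_nd (DT.all_nd (DT.all_nd ytv3708 ytv3709) (DT.all_nd (DT.all_nd ytv3710 ytv3711) (DT.all_nd ytv3712 ytv3713))) (DT.all_nd (DT.all_nd ytv3714 ytv3715) (DT.all_nd (DT.all_nd ytv3716 ytv3717) ytv3718)))))))) (DT.all_nd (DT.all_nd (DT.all_nd (DT.all_nd (DT.all_nd (DT.all_nd (DT.all_nd (DT.all_nd ytv3719 (DT.all_nd ytv3720 ytv3721)) (DT.all_nd (DT.all_nd ytv3722 ytv3723) (DT.all_nd ytv3724 ytv3725))) (DT.all_nd (DT.all_nd ytv3726 (DT.all_nd ytv3727 ytv3728)) (DT.all_nd ytv3729 ytv3730))) (DT.all_nd (DT.all_nd (DT.all_nd ytv3731 ytv3732) (DT.all_nd ytv3733 ytv3734)) (DT.all_nd (DT.all_nd ytv3735 ytv3736) (DT.all_nd ytv3737 ytv3738)))) (DT.all_nd (DT.all_nd (DT.all_nd (DT.all_nd ytv3739 (DT.all_nd ytv3740 ytv3741)) (DT.all_nd (DT.all_nd ytv3742 ytv3743) ytv3744)) (DT.all_nd (DT.all_nd ytv3745 (DT.all_nd ytv3746 ytv3747)) (DT.all_nd (DT.all_nd ytv3748 ytv3749) (DT.all_nd ytv3750 ytv3751)))) (DT.all_nd (DT.all_nd (DT.all_nd (DT.all_nd ytv3752 ytv3753) ytv3754) (DT.all_nd ytv3755 ytv3756)) (DT.all_nd (DT.all_nd (DT.all_nd ytv3757 ytv3758) (DT.all_nd ytv3759 ytv3760)) (DT.all_nd (DT.all_nd ytv3761 ytv3762) (DT.all_nd ytv3763 ytv3764)))))) (DT.all_nd (DT.all_nd (DT.all_nd (DT.all_nd (DT.all_nd (DT.all_nd ytv3765 ytv3766) (DT.all_nd ytv3767 ytv3768)) (DT.all_nd ytv3769 (DT.all_nd ytv3770 ytv3771))) (DT.all_nd (DT.all_nd (DT.all_nd ytv3772 ytv3773) (DT.all_nd ytv3774 ytv3775)) (DT.all_nd (DT.all_nd ytv3776 ytv3777) (DT.all_nd ytv3778 ytv3779)))) (DT.all_nd (DT.all_nd (DT.all_nd (DT.all_nd ytv3780 ytv3781) (DT.all_nd ytv3782 ytv3783)) (DT.all_nd (DT.all_nd ytv3784 ytv3785) (DT.all_nd ytv3786 ytv3787))) (DT.all_nd (DT.all_nd (DT.all_nd ytv3788 ytv3789) (DT.all_nd ytv3790 ytv3791)) (DT.all_nd (DT.all_nd ytv3792 ytv3793) (DT.all_nd ytv3794 ytv3795))))) (DT.all_nd (DT.all_nd (DT.all_nd (DT.all_nd (DT.all_nd ytv3796 ytv3797) (DT.all_nd ytv3798 ytv3799)) (DT.all_nd (DT.all_nd ytv3800 ytv3801) (DT.all_nd ytv3802 ytv3803))) (DT.all_nd (DT.all_nd ytv3804 ytv3805) (DT.all_nd ytv3806 ytv3807))) (DT.all_nd (DT.all_nd (DT.all_nd (DT.all_nd ytv3808 ytv3809) ytv3810) (DT.all_nd (DT.all_nd ytv3811 ytv3812) ytv3813)) (DT.all_nd (DT.all_nd ytv3814 (DT.all_nd ytv3815 ytv3816)) (DT.all_nd (DT.all_nd ytv3817 ytv3818) ytv3819)))))) (DT.all_nd (DT.all_nd (DT.all_nd (DT.all_nd (DT.all_nd (DT.all_nd ytv3820 ytv3821) (DT.all_nd (DT.all_nd ytv3822 ytv3823) (DT.all_nd ytv3824 ytv3825))) (DT.all_nd (DT.all_nd (DT.all_nd ytv3826 ytv3827) ytv3828) (DT.all_nd (DT.all_nd ytv3829 ytv3830) (DT.all_nd ytv3831 ytv3832)))) (DT.all_nd (DT.all_nd (DT.all_nd (DT.all_nd ytv3833 ytv3834) ytv3835) (DT.all_nd (DT.all_nd ytv3836 ytv3837) (DT.all_nd ytv3838 ytv3839))) (DT.all_nd (DT.all_nd (DT.all_nd ytv3840 ytv3841) (DT.all_nd ytv3842 ytv3843)) (DT.all_nd ytv3844 (DT.all_nd ytv3845 ytv3846))))) (DT.all_nd (DT.all_nd (DT.all_nd (DT.all_nd (DT.all_nd ytv3847 ytv3848) (DT.all_nd ytv3849 ytv3850)) (DT.all_nd (DT.all_nd ytv3851 ytv3852) (DT.all_nd ytv3853 ytv3854))) (DT.all_nd (DT.all_nd (DT.all_nd ytv3855 ytv3856) (DT.all_nd ytv3857 ytv3858)) (DT.all_nd ytv3859 (DT.all_nd ytv3860 ytv3861)))) (DT.all_nd (DT.all_nd (DT.all_nd ytv3862 ytv3863) (DT.all_nd ytv3864 ytv3865)) (DT.all_nd (DT.all_nd (DT.all_nd ytv3866 ytv3867) (DT.all_nd ytv3868 ytv3869)) (DT.all_nd (DT.all_nd ytv3870 ytv3871) (DT.all_nd ytv3872 ytv3873)))))) (DT.all_nd (DT.all_nd (DT.all_nd (DT.all_nd (DT.all_nd ytv3874 ytv3875) (DT.all_nd ytv3876 (DT.all_nd ytv3877 ytv3878))) (DT.all_nd (DT.all_nd (DT.all_nd ytv3879 ytv3880) ytv3881) (DT.all_nd ytv3882 ytv3883))) (DT.all_nd (DT.all_nd (DT.all_nd ytv3884 (DT.all_nd ytv3885 ytv3886)) (DT.all_nd ytv3887 ytv3888)) (DT.all_nd (DT.all_nd ytv3889 (DT.all_nd ytv3890 ytv3891)) (DT.all_nd ytv3892 ytv3893)))) (DT.all_nd (DT.all_nd (DT.all_nd (DT.all_nd ytv3894 ytv3895) (DT.all_nd (DT.all_nd ytv3896 ytv3897) ytv3898)) (DT.all_nd (DT.all_nd (DT.all_nd ytv3899 ytv3900) (DT.all_nd ytv3901 ytv3902)) (DT.all_nd ytv3903 ytv3904))) (DT.all_nd (DT.all_nd (DT.all_nd ytv3905 ytv3906) (DT.all_nd ytv3907 (DT.all_nd ytv3908 ytv3909))) (DT.all_nd (DT.all_nd ytv3910 ytv3911) (DT.all_nd ytv3912 ytv3913))))))) (DT.all_nd (DT.all_nd (DT.all_nd (DT.all_nd (DT.all_nd (DT.all_nd (DT.all_nd ytv3914 (DT.all_nd ytv3915 ytv3916)) (DT.all_nd ytv3917 ytv3918)) (DT.all_nd (DT.all_nd (DT.all_nd ytv3919 ytv3920) ytv3921) (DT.all_nd ytv3922 ytv3923))) (DT.all_nd (DT.all_nd (DT.all_nd (DT.all_nd ytv3924 ytv3925) ytv3926) (DT.all_nd ytv3927 ytv3928)) (DT.all_nd (DT.all_nd ytv3929 ytv3930) (DT.all_nd ytv3931 (DT.all_nd ytv3932 ytv3933))))) (DT.all_nd (DT.all_nd (DT.all_nd (DT.all_nd (DT.all_nd ytv3934 ytv3935) (DT.all_nd ytv3936 ytv3937)) (DT.all_nd ytv3938 ytv3939)) (DT.all_nd (DT.all_nd ytv3940 (DT.all_nd ytv3941 ytv3942)) (DT.all_nd ytv3943 (DT.all_nd ytv3944 ytv3945)))) (DT.all_nd (DT.all_nd (DT.all_nd ytv3946 ytv3947) (DT.all_nd ytv3948 ytv3949)) (DT.all_nd (DT.all_nd ytv3950 ytv3951) (DT.all_nd ytv3952 (DT.all_nd ytv3953 ytv3954)))))) (DT.all_nd (DT.all_nd (DT.all_nd (DT.all_nd (DT.all_nd (DT.all_nd ytv3955 ytv3956) ytv3957) (DT.all_nd ytv3958 ytv3959)) (DT.all_nd (DT.all_nd ytv3960 ytv3961) (DT.all_nd ytv3962 ytv3963))) (DT.all_nd (DT.all_nd (DT.all_nd ytv3964 ytv3965) (DT.all_nd ytv3966 ytv3967)) (DT.all_nd (DT.all_nd (DT.all_nd ytv3968 ytv3969) (DT.all_nd ytv3970 ytv3971)) (DT.all_nd ytv3972 ytv3973)))) (DT.all_nd (DT.all_nd (DT.all_nd (DT.all_nd ytv3974 ytv3975) (DT.all_nd ytv3976 (DT.all_nd ytv3977 ytv3978))) (DT.all_nd (DT.all_nd (DT.all_nd ytv3979 ytv3980) (DT.all_nd ytv3981 ytv3982)) (DT.all_nd ytv3983 ytv3984))) (DT.all_nd (DT.all_nd (DT.all_nd ytv3985 (DT.all_nd ytv3986 ytv3987)) (DT.all_nd (DT.all_nd ytv3988 ytv3989) ytv3990)) (DT.all_nd (DT.all_nd ytv3991 (DT.all_nd ytv3992 ytv3993)) (DT.all_nd (DT.all_nd ytv3994 ytv3995) ytv3996)))))) (DT.all_nd (DT.all_nd (DT.all_nd (DT.all_nd (DT.all_nd (DT.all_nd (DT.all_nd ytv3997 ytv3998) ytv3999) (DT.all_nd (DT.all_nd ytv4000 ytv4001) ytv4002)) (DT.all_nd (DT.all_nd ytv4003 ytv4004) (DT.all_nd (DT.all_nd ytv4005 ytv4006) ytv4007))) (DT.all_nd (DT.all_nd (DT.all_nd ytv4008 ytv4009) (DT.all_nd ytv4010 ytv4011)) (DT.all_nd (DT.all_nd ytv4012 (DT.all_nd ytv4013 ytv4014)) (DT.all_nd ytv4015 ytv4016)))) (DT.all_nd (DT.all_nd (DT.all_nd (DT.all_nd ytv4017 ytv4018) (DT.all_nd ytv4019 ytv4020)) (DT.all_nd (DT.all_nd ytv4021 (DT.all_nd ytv4022 ytv4023)) (DT.all_nd ytv4024 ytv4025))) (DT.all_nd (DT.all_nd (DT.all_nd ytv4026 ytv4027) (DT.all_nd (DT.all_nd ytv4028 ytv4029) (DT.all_nd ytv4030 ytv4031))) (DT.all_nd (DT.all_nd (DT.all_nd ytv4032 ytv4033) (DT.all_nd ytv4034 ytv4035)) (DT.all_nd ytv4036 (DT.all_nd ytv4037 ytv4038)))))) (DT.all_nd (DT.all_nd (DT.all_nd (DT.all_nd (DT.all_nd ytv4039 ytv4040) (DT.all_nd (DT.all_nd (DT.all_nd ytv4041 ytv4042) ytv4043) (DT.all_nd ytv4044 ytv4045))) (DT.all_nd (DT.all_nd ytv4046 ytv4047) (DT.all_nd (DT.all_nd ytv4048 (DT.all_nd ytv4049 ytv4050)) (DT.all_nd (DT.all_nd ytv4051 ytv4052) ytv4053)))) (DT.all_nd (DT.all_nd (DT.all_nd (DT.all_nd ytv4054 ytv4055) (DT.all_nd ytv4056 ytv4057)) (DT.all_nd (DT.all_nd ytv4058 ytv4059) (DT.all_nd ytv4060 ytv4061))) (DT.all_nd (DT.all_nd (DT.all_nd ytv4062 (DT.all_nd ytv4063 ytv4064)) (DT.all_nd (DT.all_nd ytv4065 ytv4066) ytv4067)) (DT.all_nd ytv4068 (DT.all_nd ytv4069 ytv4070))))) (DT.all_nd (DT.all_nd (DT.all_nd (DT.all_nd (DT.all_nd ytv4071 ytv4072) (DT.all_nd ytv4073 ytv4074)) (DT.all_nd (DT.all_nd ytv4075 ytv4076) (DT.all_nd ytv4077 ytv4078))) (DT.all_nd (DT.all_nd (DT.all_nd ytv4079 ytv4080) (DT.all_nd ytv4081 ytv4082)) (DT.all_nd (DT.all_nd ytv4083 ytv4084) (DT.all_nd ytv4085 ytv4086)))) (DT.all_nd (DT.all_nd (DT.all_nd (DT.all_nd ytv4087 ytv4088) (DT.all_nd ytv4089 ytv4090)) (DT.all_nd (DT.all_nd ytv4091 ytv4092) (DT.all_nd ytv4093 ytv4094))) (DT.all_nd (DT.all_nd (DT.all_nd ytv4095 ytv4096) (DT.all_nd ytv4097 ytv4098)) (DT.all_nd (DT.all_nd ytv4099 ytv4100) (DT.all_nd ytv4101 ytv4102)))))))))) (DT.all_nd (DT.all_nd (DT.all_nd (DT.all_nd (DT.all_nd (DT.all_nd (DT.all_nd (DT.all_nd (DT.all_nd (DT.all_nd ytv4103 ytv4104) ytv4105) (DT.all_nd ytv4106 ytv4107)) (DT.all_nd (DT.all_nd ytv4108 ytv4109) (DT.all_nd (DT.all_nd ytv4110 ytv4111) (DT.all_nd ytv4112 (DT.all_nd ytv4113 ytv4114))))) (DT.all_nd (DT.all_nd (DT.all_nd (DT.all_nd ytv4115 (DT.all_nd ytv4116 ytv4117)) ytv4118) (DT.all_nd (DT.all_nd ytv4119 ytv4120) ytv4121)) (DT.all_nd (DT.all_nd (DT.all_nd ytv4122 ytv4123) ytv4124) (DT.all_nd ytv4125 ytv4126)))) (DT.all_nd (DT.all_nd (DT.all_nd (DT.all_nd ytv4127 ytv4128) (DT.all_nd ytv4129 (DT.all_nd ytv4130 ytv4131))) (DT.all_nd (DT.all_nd ytv4132 ytv4133) (DT.all_nd (DT.all_nd ytv4134 ytv4135) ytv4136))) (DT.all_nd (DT.all_nd (DT.all_nd ytv4137 (DT.all_nd ytv4138 ytv4139)) (DT.all_nd ytv4140 (DT.all_nd ytv4141 ytv4142))) (DT.all_nd (DT.all_nd (DT.all_nd ytv4143 ytv4144) (DT.all_nd ytv4145 ytv4146)) (DT.all_nd (DT.all_nd ytv4147 ytv4148) (DT.all_nd ytv4149 ytv4150)))))) (DT.all_nd (DT.all_nd (DT.all_nd (DT.all_nd (DT.all_nd (DT.all_nd ytv4151 ytv4152) (DT.all_nd ytv4153 ytv4154)) (DT.all_nd (DT.all_nd (DT.all_nd ytv4155 ytv4156) ytv4157) (DT.all_nd ytv4158 ytv4159))) (DT.all_nd (DT.all_nd (DT.all_nd ytv4160 (DT.all_nd ytv4161 ytv4162)) (DT.all_nd ytv4163 ytv4164)) (DT.all_nd (DT.all_nd (DT.all_nd ytv4165 ytv4166) ytv4167) (DT.all_nd (DT.all_nd ytv4168 ytv4169) ytv4170)))) (DT.all_nd (DT.all_nd (DT.all_nd (DT.all_nd ytv4171 ytv4172) (DT.all_nd ytv4173 ytv4174)) (DT.all_nd (DT.all_nd ytv4175 ytv4176) (DT.all_nd (DT.all_nd ytv4177 ytv4178) ytv4179))) (DT.all_nd (DT.all_nd ytv4180 (DT.all_nd (DT.all_nd ytv4181 ytv4182) ytv4183)) (DT.all_nd (DT.all_nd (DT.all_nd ytv4184 ytv4185) ytv4186) ytv4187)))) (DT.all_nd (DT.all_nd (DT.all_nd (DT.all_nd ytv4188 ytv4189) (DT.all_nd (DT.all_nd ytv4190 ytv4191) (DT.all_nd ytv4192 ytv4193))) (DT.all_nd (DT.all_nd (DT.all_nd ytv4194 ytv4195) (DT.all_nd ytv4196 ytv4197)) (DT.all_nd (DT.all_nd ytv4198 ytv4199) ytv4200))) (DT.all_nd (DT.all_nd (DT.all_nd (DT.all_nd ytv4201 ytv4202) (DT.all_nd ytv4203 ytv4204)) (DT.all_nd (DT.all_nd (DT.all_nd ytv4205 ytv4206) ytv4207) (DT.all_nd ytv4208 ytv4209))) (DT.all_nd (DT.all_nd ytv4210 (DT.all_nd ytv4211 ytv4212)) (DT.all_nd (DT.all_nd ytv4213 ytv4214) (DT.all_nd ytv4215 ytv4216))))))) (DT.all_nd (DT.all_nd (DT.all_nd (DT.all_nd (DT.all_nd (DT.all_nd (DT.all_nd ytv4217 ytv4218) (DT.all_nd ytv4219 ytv4220)) (DT.all_nd ytv4221 (DT.all_nd ytv4222 ytv4223))) (DT.all_nd (DT.all_nd (DT.all_nd ytv4224 ytv4225) ytv4226) (DT.all_nd ytv4227 ytv4228))) (DT.all_nd (DT.all_nd (DT.all_nd ytv4229 ytv4230) (DT.all_nd ytv4231 ytv4232)) (DT.all_nd (DT.all_nd (DT.all_nd ytv4233 ytv4234) ytv4235) (DT.all_nd (DT.all_nd ytv4236 ytv4237) ytv4238)))) (DT.all_nd (DT.all_nd (DT.all_nd (DT.all_nd ytv4239 ytv4240) (DT.all_nd (DT.all_nd ytv4241 ytv4242) (DT.all_nd ytv4243 ytv4244))) (DT.all_nd (DT.all_nd (DT.all_nd ytv4245 ytv4246) (DT.all_nd ytv4247 ytv4248)) (DT.all_nd (DT.all_nd ytv4249 ytv4250) (DT.all_nd ytv4251 (DT.all_nd ytv4252 ytv4253))))) (DT.all_nd (DT.all_nd (DT.all_nd (DT.all_nd ytv4254 ytv4255) (DT.all_nd ytv4256 ytv4257)) (DT.all_nd ytv4258 (DT.all_nd ytv4259 ytv4260))) (DT.all_nd (DT.all_nd (DT.all_nd ytv4261 ytv4262) ytv4263) (DT.all_nd ytv4264 (DT.all_nd ytv4265 ytv4266)))))) (DT.all_nd (DT.all_nd (DT.all_nd (DT.all_nd (DT.all_nd (DT.all_nd ytv4267 ytv4268) ytv4269) (DT.all_nd ytv4270 ytv4271)) (DT.all_nd (DT.all_nd (DT.all_nd ytv4272 ytv4273) (DT.all_nd ytv4274 ytv4275)) (DT.all_nd (DT.all_nd ytv4276 ytv4277) ytv4278))) (DT.all_nd (DT.all_nd (DT.all_nd ytv4279 ytv4280) (DT.all_nd (DT.all_nd ytv4281 ytv4282) (DT.all_nd ytv4283 ytv4284))) (DT.all_nd (DT.all_nd ytv4285 ytv4286) (DT.all_nd (DT.all_nd (DT.all_nd ytv4287 ytv4288) ytv4289) (DT.all_nd ytv4290 ytv4291))))) (DT.all_nd (DT.all_nd (DT.all_nd (DT.all_nd (DT.all_nd ytv4292 ytv4293) (DT.all_nd ytv4294 ytv4295)) (DT.all_nd ytv4296 ytv4297)) (DT.all_nd (DT.all_nd (DT.all_nd ytv4298 ytv4299) ytv4300) (DT.all_nd (DT.all_nd ytv4301 ytv4302) ytv4303))) (DT.all_nd (DT.all_nd (DT.all_nd (DT.all_nd ytv4304 ytv4305) (DT.all_nd ytv4306 ytv4307)) (DT.all_nd (DT.all_nd ytv4308 ytv4309) (DT.all_nd ytv4310 ytv4311))) (DT.all_nd (DT.all_nd (DT.all_nd ytv4312 ytv4313) ytv4314) (DT.all_nd (DT.all_nd ytv4315 ytv4316) (DT.all_nd (DT.all_nd ytv4317 ytv4318) ytv4319)))))))) (DT.all_nd (DT.all_nd (DT.all_nd (DT.all_nd (DT.all_nd (DT.all_nd (DT.all_nd (DT.all_nd (DT.all_nd ytv4320 ytv4321) (DT.all_nd ytv4322 ytv4323)) (DT.all_nd (DT.all_nd ytv4324 ytv4325) ytv4326)) (DT.all_nd (DT.all_nd ytv4327 ytv4328) (DT.all_nd ytv4329 ytv4330))) (DT.all_nd (DT.all_nd (DT.all_nd ytv4331 ytv4332) (DT.all_nd ytv4333 ytv4334)) (DT.all_nd (DT.all_nd ytv4335 ytv4336) (DT.all_nd ytv4337 ytv4338)))) (DT.all_nd (DT.all_nd (DT.all_nd ytv4339 ytv4340) (DT.all_nd (DT.all_nd ytv4341 ytv4342) (DT.all_nd (DT.all_nd ytv4343 ytv4344) ytv4345))) (DT.all_nd (DT.all_nd ytv4346 (DT.all_nd ytv4347 ytv4348)) (DT.all_nd ytv4349 ytv4350)))) (DT.all_nd (DT.all_nd (DT.all_nd (DT.all_nd ytv4351 (DT.all_nd ytv4352 ytv4353)) (DT.all_nd (DT.all_nd ytv4354 ytv4355) ytv4356)) (DT.all_nd (DT.all_nd ytv4357 (DT.all_nd ytv4358 ytv4359)) (DT.all_nd ytv4360 ytv4361))) (DT.all_nd (DT.all_nd (DT.all_nd ytv4362 (DT.all_nd ytv4363 ytv4364)) (DT.all_nd (DT.all_nd ytv4365 ytv4366) ytv4367)) (DT.all_nd (DT.all_nd (DT.all_nd ytv4368 ytv4369) ytv4370) (DT.all_nd ytv4371 ytv4372))))) (DT.all_nd (DT.all_nd (DT.all_nd (DT.all_nd (DT.all_nd ytv4373 ytv4374) (DT.all_nd ytv4375 (DT.all_nd ytv4376 ytv4377))) (DT.all_nd (DT.all_nd (DT.all_nd ytv4378 ytv4379) ytv4380) (DT.all_nd ytv4381 ytv4382))) (DT.all_nd (DT.all_nd (DT.all_nd ytv4383 ytv4384) (DT.all_nd ytv4385 ytv4386)) (DT.all_nd (DT.all_nd ytv4387 ytv4388) (DT.all_nd ytv4389 ytv4390)))) (DT.all_nd (DT.all_nd (DT.all_nd (DT.all_nd ytv4391 ytv4392) (DT.all_nd ytv4393 ytv4394)) (DT.all_nd (DT.all_nd (DT.all_nd ytv4395 ytv4396) ytv4397) (DT.all_nd (DT.all_nd ytv4398 ytv4399) ytv4400))) (DT.all_nd (DT.all_nd (DT.all_nd ytv4401 ytv4402) (DT.all_nd (DT.all_nd ytv4403 ytv4404) ytv4405)) (DT.all_nd (DT.all_nd ytv4406 ytv4407) (DT.all_nd ytv4408 (DT.all_nd ytv4409 ytv4410))))))) (DT.all_nd (DT.all_nd (DT.all_nd (DT.all_nd (DT.all_nd (DT.all_nd (DT.all_nd ytv4411 ytv4412) ytv4413) (DT.all_nd (DT.all_nd ytv4414 ytv4415) (DT.all_nd ytv4416 ytv4417))) (DT.all_nd (DT.all_nd (DT.all_nd ytv4418 ytv4419) (DT.all_nd ytv4420 ytv4421)) (DT.all_nd (DT.all_nd ytv4422 ytv4423) (DT.all_nd ytv4424 ytv4425)))) (DT.all_nd (DT.all_nd (DT.all_nd (DT.all_nd ytv4426 ytv4427) (DT.all_nd ytv4428 ytv4429)) (DT.all_nd ytv4430 (DT.all_nd ytv4431 ytv4432))) (DT.all_nd (DT.all_nd (DT.all_nd ytv4433 ytv4434) ytv4435) (DT.all_nd ytv4436 (DT.all_nd ytv4437 ytv4438))))) (DT.all_nd (DT.all_nd (DT.all_nd (DT.all_nd (DT.all_nd ytv4439 ytv4440) (DT.all_nd ytv4441 ytv4442)) (DT.all_nd (DT.all_nd ytv4443 ytv4444) (DT.all_nd ytv4445 ytv4446))) (DT.all_nd (DT.all_nd ytv4447 (DT.all_nd ytv4448 ytv4449)) (DT.all_nd (DT.all_nd ytv4450 ytv4451) (DT.all_nd ytv4452 ytv4453)))) (DT.all_nd (DT.all_nd (DT.all_nd ytv4454 (DT.all_nd ytv4455 ytv4456)) (DT.all_nd (DT.all_nd ytv4457 ytv4458) ytv4459)) (DT.all_nd ytv4460 (DT.all_nd ytv4461 ytv4462))))) (DT.all_nd (DT.all_nd (DT.all_nd (DT.all_nd (DT.all_nd (DT.all_nd ytv4463 ytv4464) (DT.all_nd ytv4465 ytv4466)) (DT.all_nd (DT.all_nd ytv4467 ytv4468) (DT.all_nd ytv4469 ytv4470))) (DT.all_nd (DT.all_nd (DT.all_nd ytv4471 ytv4472) (DT.all_nd ytv4473 ytv4474)) (DT.all_nd ytv4475 (DT.all_nd ytv4476 ytv4477)))) (DT.all_nd (DT.all_nd (DT.all_nd ytv4478 ytv4479) (DT.all_nd ytv4480 ytv4481)) (DT.all_nd (DT.all_nd ytv4482 ytv4483) (DT.all_nd ytv4484 ytv4485)))) (DT.all_nd (DT.all_nd (DT.all_nd (DT.all_nd ytv4486 (DT.all_nd ytv4487 ytv4488)) (DT.all_nd (DT.all_nd ytv4489 ytv4490) ytv4491)) (DT.all_nd (DT.all_nd (DT.all_nd ytv4492 ytv4493) ytv4494) (DT.all_nd ytv4495 (DT.all_nd ytv4496 ytv4497)))) (DT.all_nd (DT.all_nd (DT.all_nd ytv4498 ytv4499) (DT.all_nd ytv4500 ytv4501)) (DT.all_nd (DT.all_nd ytv4502 ytv4503) (DT.all_nd ytv4504 ytv4505)))))))) (DT.all_nd (DT.all_nd (DT.all_nd (DT.all_nd (DT.all_nd (DT.all_nd (DT.all_nd (DT.all_nd ytv4506 ytv4507) (DT.all_nd ytv4508 ytv4509)) (DT.all_nd (DT.all_nd (DT.all_nd ytv4510 ytv4511) ytv4512) (DT.all_nd (DT.all_nd ytv4513 ytv4514) ytv4515))) (DT.all_nd (DT.all_nd (DT.all_nd ytv4516 ytv4517) (DT.all_nd (DT.all_nd ytv4518 ytv4519) ytv4520)) (DT.all_nd (DT.all_nd (DT.all_nd ytv4521 ytv4522) (DT.all_nd ytv4523 ytv4524)) (DT.all_nd (DT.all_nd ytv4525 ytv4526) ytv4527)))) (DT.all_nd (DT.all_nd (DT.all_nd (DT.all_nd (DT.all_nd ytv4528 ytv4529) ytv4530) (DT.all_nd ytv4531 ytv4532)) (DT.all_nd (DT.all_nd ytv4533 (DT.all_nd ytv4534 (DT.all_nd ytv4535 ytv4536))) (DT.all_nd (DT.all_nd ytv4537 ytv4538) ytv4539))) (DT.all_nd (DT.all_nd (DT.all_nd (DT.all_nd ytv4540 ytv4541) ytv4542) (DT.all_nd ytv4543 (DT.all_nd ytv4544 ytv4545))) (DT.all_nd (DT.all_nd (DT.all_nd ytv4546 ytv4547) ytv4548) (DT.all_nd ytv4549 ytv4550))))) (DT.all_nd (DT.all_nd (DT.all_nd (DT.all_nd (DT.all_nd (DT.all_nd ytv4551 ytv4552) (DT.all_nd ytv4553 ytv4554)) (DT.all_nd ytv4555 ytv4556)) (DT.all_nd (DT.all_nd ytv4557 (DT.all_nd ytv4558 ytv4559)) (DT.all_nd ytv4560 ytv4561))) (DT.all_nd (DT.all_nd (DT.all_nd (DT.all_nd ytv4562 ytv4563) (DT.all_nd ytv4564 ytv4565)) (DT.all_nd (DT.all_nd ytv4566 ytv4567) ytv4568)) (DT.all_nd (DT.all_nd ytv4569 ytv4570) (DT.all_nd (DT.all_nd ytv4571 ytv4572) (DT.all_nd ytv4573 ytv4574))))) (DT.all_nd (DT.all_nd (DT.all_nd (DT.all_nd (DT.all_nd ytv4575 ytv4576) (DT.all_nd ytv4577 ytv4578)) (DT.all_nd (DT.all_nd (DT.all_nd ytv4579 ytv4580) ytv4581) ytv4582)) (DT.all_nd (DT.all_nd (DT.all_nd ytv4583 ytv4584) (DT.all_nd ytv4585 ytv4586)) (DT.all_nd ytv4587 (DT.all_nd ytv4588 ytv4589)))) (DT.all_nd (DT.all_nd (DT.all_nd ytv4590 (DT.all_nd ytv4591 ytv4592)) (DT.all_nd (DT.all_nd ytv4593 ytv4594) ytv4595)) (DT.all_nd (DT.all_nd (DT.all_nd ytv4596 ytv4597) ytv4598) (DT.all_nd (DT.all_nd ytv4599 ytv4600) ytv4601)))))) (DT.all_nd (DT.all_nd (DT.all_nd (DT.all_nd (DT.all_nd (DT.all_nd ytv4602 ytv4603) (DT.all_nd ytv4604 ytv4605)) (DT.all_nd (DT.all_nd ytv4606 ytv4607) (DT.all_nd ytv4608 ytv4609))) (DT.all_nd (DT.all_nd (DT.all_nd (DT.all_nd ytv4610 ytv4611) (DT.all_nd ytv4612 ytv4613)) (DT.all_nd (DT.all_nd ytv4614 ytv4615) ytv4616)) (DT.all_nd (DT.all_nd ytv4617 ytv4618) (DT.all_nd ytv4619 (DT.all_nd ytv4620 ytv4621))))) (DT.all_nd (DT.all_nd (DT.all_nd (DT.all_nd ytv4622 ytv4623) (DT.all_nd ytv4624 ytv4625)) (DT.all_nd (DT.all_nd ytv4626 (DT.all_nd ytv4627 ytv4628)) (DT.all_nd ytv4629 ytv4630))) (DT.all_nd (DT.all_nd (DT.all_nd (DT.all_nd ytv4631 ytv4632) ytv4633) (DT.all_nd ytv4634 ytv4635)) (DT.all_nd (DT.all_nd (DT.all_nd ytv4636 ytv4637) ytv4638) (DT.all_nd ytv4639 (DT.all_nd ytv4640 ytv4641)))))) (DT.all_nd (DT.all_nd (DT.all_nd (DT.all_nd (DT.all_nd ytv4642 (DT.all_nd ytv4643 ytv4644)) (DT.all_nd ytv4645 ytv4646)) (DT.all_nd (DT.all_nd ytv4647 ytv4648) (DT.all_nd (DT.all_nd ytv4649 ytv4650) ytv4651))) (DT.all_nd (DT.all_nd (DT.all_nd ytv4652 (DT.all_nd ytv4653 ytv4654)) (DT.all_nd ytv4655 ytv4656)) (DT.all_nd (DT.all_nd ytv4657 ytv4658) (DT.all_nd ytv4659 ytv4660)))) (DT.all_nd (DT.all_nd (DT.all_nd (DT.all_nd ytv4661 ytv4662) (DT.all_nd ytv4663 ytv4664)) (DT.all_nd (DT.all_nd (DT.all_nd ytv4665 ytv4666) ytv4667) (DT.all_nd (DT.all_nd ytv4668 ytv4669) (DT.all_nd ytv4670 ytv4671)))) (DT.all_nd (DT.all_nd (DT.all_nd (DT.all_nd ytv4672 ytv4673) (DT.all_nd ytv4674 ytv4675)) (DT.all_nd ytv4676 ytv4677)) (DT.all_nd (DT.all_nd ytv4678 ytv4679) (DT.all_nd ytv4680 ytv4681))))))) (DT.all_nd (DT.all_nd (DT.all_nd (DT.all_nd (DT.all_nd (DT.all_nd (DT.all_nd ytv4682 ytv4683) (DT.all_nd ytv4684 ytv4685)) (DT.all_nd (DT.all_nd ytv4686 ytv4687) (DT.all_nd (DT.all_nd ytv4688 ytv4689) (DT.all_nd ytv4690 ytv4691)))) (DT.all_nd (DT.all_nd (DT.all_nd (DT.all_nd ytv4692 ytv4693) ytv4694) (DT.all_nd ytv4695 ytv4696)) (DT.all_nd (DT.all_nd ytv4697 (DT.all_nd ytv4698 ytv4699)) (DT.all_nd (DT.all_nd ytv4700 ytv4701) (DT.all_nd ytv4702 ytv4703))))) (DT.all_nd (DT.all_nd (DT.all_nd (DT.all_nd ytv4704 (DT.all_nd ytv4705 ytv4706)) (DT.all_nd ytv4707 ytv4708)) (DT.all_nd (DT.all_nd ytv4709 ytv4710) (DT.all_nd ytv4711 (DT.all_nd ytv4712 ytv4713)))) (DT.all_nd (DT.all_nd (DT.all_nd ytv4714 ytv4715) (DT.all_nd ytv4716 ytv4717)) (DT.all_nd (DT.all_nd (DT.all_nd ytv4718 ytv4719) (DT.all_nd ytv4720 ytv4721)) (DT.all_nd (DT.all_nd ytv4722 ytv4723) (DT.all_nd ytv4724 ytv4725)))))) (DT.all_nd (DT.all_nd (DT.all_nd (DT.all_nd (DT.all_nd ytv4726 ytv4727) (DT.all_nd (DT.all_nd ytv4728 ytv4729) (DT.all_nd ytv4730 ytv4731))) (DT.all_nd (DT.all_nd (DT.all_nd ytv4732 ytv4733) (DT.all_nd ytv4734 ytv4735)) (DT.all_nd (DT.all_nd (DT.all_nd ytv4736 ytv4737) ytv4738) (DT.all_nd ytv4739 ytv4740)))) (DT.all_nd (DT.all_nd (DT.all_nd (DT.all_nd ytv4741 ytv4742) (DT.all_nd ytv4743 ytv4744)) (DT.all_nd ytv4745 ytv4746)) (DT.all_nd (DT.all_nd (DT.all_nd ytv4747 ytv4748) ytv4749) (DT.all_nd (DT.all_nd ytv4750 ytv4751) ytv4752)))) (DT.all_nd (DT.all_nd (DT.all_nd (DT.all_nd ytv4753 ytv4754) (DT.all_nd ytv4755 (DT.all_nd ytv4756 ytv4757))) (DT.all_nd (DT.all_nd ytv4758 ytv4759) (DT.all_nd ytv4760 ytv4761))) (DT.all_nd (DT.all_nd (DT.all_nd ytv4762 ytv4763) (DT.all_nd ytv4764 (DT.all_nd ytv4765 ytv4766))) (DT.all_nd (DT.all_nd (DT.all_nd (DT.all_nd ytv4767 ytv4768) ytv4769) (DT.all_nd ytv4770 ytv4771)) (DT.all_nd (DT.all_nd ytv4772 ytv4773) (DT.all_nd ytv4774 ytv4775))))))) (DT.all_nd (DT.all_nd (DT.all_nd (DT.all_nd (DT.all_nd (DT.all_nd ytv4776 (DT.all_nd ytv4777 ytv4778)) (DT.all_nd ytv4779 (DT.all_nd ytv4780 ytv4781))) (DT.all_nd (DT.all_nd ytv4782 ytv4783) (DT.all_nd ytv4784 ytv4785))) (DT.all_nd (DT.all_nd (DT.all_nd ytv4786 ytv4787) (DT.all_nd ytv4788 ytv4789)) (DT.all_nd (DT.all_nd ytv4790 ytv4791) (DT.all_nd (DT.all_nd ytv4792 ytv4793) ytv4794)))) (DT.all_nd (DT.all_nd (DT.all_nd (DT.all_nd (DT.all_nd ytv4795 ytv4796) ytv4797) (DT.all_nd ytv4798 ytv4799)) (DT.all_nd (DT.all_nd (DT.all_nd ytv4800 ytv4801) ytv4802) (DT.all_nd (DT.all_nd ytv4803 ytv4804) ytv4805))) (DT.all_nd (DT.all_nd (DT.all_nd (DT.all_nd ytv4806 ytv4807) ytv4808) (DT.all_nd (DT.all_nd ytv4809 ytv4810) ytv4811)) (DT.all_nd (DT.all_nd (DT.all_nd ytv4812 ytv4813) (DT.all_nd ytv4814 ytv4815)) (DT.all_nd ytv4816 ytv4817))))) (DT.all_nd (DT.all_nd (DT.all_nd (DT.all_nd (DT.all_nd (DT.all_nd ytv4818 ytv4819) (DT.all_nd ytv4820 ytv4821)) (DT.all_nd ytv4822 ytv4823)) (DT.all_nd (DT.all_nd (DT.all_nd ytv4824 ytv4825) (DT.all_nd ytv4826 (DT.all_nd ytv4827 ytv4828))) (DT.all_nd (DT.all_nd ytv4829 ytv4830) (DT.all_nd ytv4831 ytv4832)))) (DT.all_nd (DT.all_nd (DT.all_nd (DT.all_nd ytv4833 ytv4834) (DT.all_nd ytv4835 ytv4836)) (DT.all_nd (DT.all_nd ytv4837 ytv4838) (DT.all_nd ytv4839 ytv4840))) (DT.all_nd (DT.all_nd (DT.all_nd ytv4841 ytv4842) ytv4843) (DT.all_nd ytv4844 (DT.all_nd ytv4845 ytv4846))))) (DT.all_nd (DT.all_nd (DT.all_nd (DT.all_nd ytv4847 ytv4848) (DT.all_nd (DT.all_nd ytv4849 ytv4850) ytv4851)) (DT.all_nd (DT.all_nd ytv4852 ytv4853) (DT.all_nd (DT.all_nd ytv4854 ytv4855) ytv4856))) (DT.all_nd (DT.all_nd (DT.all_nd (DT.all_nd ytv4857 ytv4858) ytv4859) (DT.all_nd ytv4860 ytv4861)) (DT.all_nd (DT.all_nd ytv4862 ytv4863) (DT.all_nd ytv4864 ytv4865)))))))))) (DT.all_nd (DT.all_nd (DT.all_nd (DT.all_nd (DT.all_nd (DT.all_nd (DT.all_nd (DT.all_nd (DT.all_nd (DT.all_nd ytv4866 ytv4867) (DT.all_nd ytv4868 ytv4869)) (DT.all_nd (DT.all_nd (DT.all_nd ytv4870 ytv4871) ytv4872) (DT.all_nd ytv4873 ytv4874))) (DT.all_nd (DT.all_nd (DT.all_nd ytv4875 ytv4876) (DT.all_nd (DT.all_nd ytv4877 ytv4878) ytv4879)) (DT.all_nd (DT.all_nd (DT.all_nd ytv4880 ytv4881) (DT.all_nd ytv4882 ytv4883)) (DT.all_nd (DT.all_nd ytv4884 ytv4885) ytv4886)))) (DT.all_nd (DT.all_nd (DT.all_nd (DT.all_nd ytv4887 (DT.all_nd ytv4888 ytv4889)) (DT.all_nd (DT.all_nd ytv4890 ytv4891) (DT.all_nd ytv4892 ytv4893))) (DT.all_nd (DT.all_nd ytv4894 (DT.all_nd ytv4895 ytv4896)) (DT.all_nd (DT.all_nd ytv4897 ytv4898) (DT.all_nd ytv4899 ytv4900)))) (DT.all_nd (DT.all_nd (DT.all_nd ytv4901 ytv4902) (DT.all_nd (DT.all_nd ytv4903 ytv4904) (DT.all_nd ytv4905 ytv4906))) (DT.all_nd (DT.all_nd (DT.all_nd ytv4907 ytv4908) (DT.all_nd ytv4909 ytv4910)) (DT.all_nd ytv4911 ytv4912))))) (DT.all_nd (DT.all_nd (DT.all_nd (DT.all_nd (DT.all_nd ytv4913 (DT.all_nd ytv4914 ytv4915)) (DT.all_nd (DT.all_nd ytv4916 ytv4917) ytv4918)) (DT.all_nd (DT.all_nd ytv4919 ytv4920) (DT.all_nd (DT.all_nd ytv4921 ytv4922) (DT.all_nd ytv4923 ytv4924)))) (DT.all_nd (DT.all_nd (DT.all_nd (DT.all_nd ytv4925 ytv4926) (DT.all_nd ytv4927 ytv4928)) (DT.all_nd ytv4929 ytv4930)) (DT.all_nd (DT.all_nd ytv4931 ytv4932) (DT.all_nd ytv4933 (DT.all_nd ytv4934 ytv4935))))) (DT.all_nd (DT.all_nd (DT.all_nd (DT.all_nd ytv4936 (DT.all_nd ytv4937 ytv4938)) (DT.all_nd ytv4939 ytv4940)) (DT.all_nd (DT.all_nd (DT.all_nd ytv4941 ytv4942) (DT.all_nd ytv4943 ytv4944)) (DT.all_nd (DT.all_nd ytv4945 ytv4946) (DT.all_nd ytv4947 ytv4948)))) (DT.all_nd (DT.all_nd (DT.all_nd (DT.all_nd ytv4949 ytv4950) (DT.all_nd ytv4951 ytv4952)) (DT.all_nd (DT.all_nd (DT.all_nd ytv4953 ytv4954) (DT.all_nd ytv4955 ytv4956)) ytv4957)) (DT.all_nd (DT.all_nd (DT.all_nd ytv4958 ytv4959) ytv4960) (DT.all_nd (DT.all_nd ytv4961 ytv4962) ytv4963)))))) (DT.all_nd (DT.all_nd (DT.all_nd (DT.all_nd (DT.all_nd (DT.all_nd ytv4964 ytv4965) (DT.all_nd ytv4966 ytv4967)) (DT.all_nd (DT.all_nd ytv4968 (DT.all_nd ytv4969 ytv4970)) (DT.all_nd (DT.all_nd ytv4971 ytv4972) (DT.all_nd ytv4973 ytv4974)))) (DT.all_nd (DT.all_nd (DT.all_nd (DT.all_nd ytv4975 ytv4976) ytv4977) (DT.all_nd ytv4978 ytv4979)) (DT.all_nd (DT.all_nd ytv4980 ytv4981) (DT.all_nd (DT.all_nd ytv4982 ytv4983) ytv4984)))) (DT.all_nd (DT.all_nd (DT.all_nd (DT.all_nd ytv4985 (DT.all_nd ytv4986 ytv4987)) (DT.all_nd ytv4988 ytv4989)) (DT.all_nd (DT.all_nd ytv4990 ytv4991) (DT.all_nd ytv4992 ytv4993))) (DT.all_nd (DT.all_nd (DT.all_nd ytv4994 ytv4995) (DT.all_nd ytv4996 (DT.all_nd ytv4997 ytv4998))) (DT.all_nd (DT.all_nd ytv4999 ytv5000) (DT.all_nd (DT.all_nd ytv5001 ytv5002) (DT.all_nd ytv5003 ytv5004)))))) (DT.all_nd (DT.all_nd (DT.all_nd (DT.all_nd (DT.all_nd (DT.all_nd ytv5005 ytv5006) ytv5007) (DT.all_nd (DT.all_nd ytv5008 ytv5009) ytv5010)) (DT.all_nd (DT.all_nd ytv5011 ytv5012) (DT.all_nd (DT.all_nd ytv5013 ytv5014) (DT.all_nd ytv5015 ytv5016)))) (DT.all_nd (DT.all_nd (DT.all_nd ytv5017 (DT.all_nd ytv5018 ytv5019)) (DT.all_nd (DT.all_nd ytv5020 ytv5021) (DT.all_nd ytv5022 ytv5023))) (DT.all_nd (DT.all_nd ytv5024 ytv5025) (DT.all_nd ytv5026 ytv5027)))) (DT.all_nd (DT.all_nd (DT.all_nd (DT.all_nd (DT.all_nd ytv5028 (DT.all_nd ytv5029 ytv5030)) (DT.all_nd (DT.all_nd ytv5031 ytv5032) ytv5033)) (DT.all_nd ytv5034 (DT.all_nd ytv5035 ytv5036))) (DT.all_nd (DT.all_nd (DT.all_nd ytv5037 ytv5038) ytv5039) (DT.all_nd (DT.all_nd ytv5040 ytv5041) ytv5042))) (DT.all_nd (DT.all_nd (DT.all_nd (DT.all_nd ytv5043 ytv5044) (DT.all_nd ytv5045 ytv5046)) (DT.all_nd (DT.all_nd ytv5047 ytv5048) ytv5049)) (DT.all_nd (DT.all_nd ytv5050 ytv5051) (DT.all_nd ytv5052 (DT.all_nd ytv5053 ytv5054)))))))) (DT.all_nd (DT.all_nd (DT.all_nd (DT.all_nd (DT.all_nd (DT.all_nd (DT.all_nd (DT.all_nd ytv5055 ytv5056) (DT.all_nd ytv5057 ytv5058)) (DT.all_nd ytv5059 ytv5060)) (DT.all_nd (DT.all_nd (DT.all_nd ytv5061 ytv5062) (DT.all_nd ytv5063 ytv5064)) (DT.all_nd (DT.all_nd (DT.all_nd ytv5065 ytv5066) ytv5067) (DT.all_nd ytv5068 ytv5069)))) (DT.all_nd (DT.all_nd (DT.all_nd ytv5070 ytv5071) (DT.all_nd (DT.all_nd ytv5072 ytv5073) (DT.all_nd ytv5074 ytv5075))) (DT.all_nd (DT.all_nd ytv5076 (DT.all_nd ytv5077 ytv5078)) (DT.all_nd ytv5079 (DT.all_nd ytv5080 ytv5081))))) (DT.all_nd (DT.all_nd (DT.all_nd (DT.all_nd ytv5082 ytv5083) (DT.all_nd ytv5084 ytv5085)) (DT.all_nd (DT.all_nd ytv5086 (DT.all_nd ytv5087 ytv5088)) (DT.all_nd (DT.all_nd ytv5089 ytv5090) (DT.all_nd ytv5091 ytv5092)))) (DT.all_nd (DT.all_nd (DT.all_nd (DT.all_nd ytv5093 ytv5094) (DT.all_nd ytv5095 ytv5096)) (DT.all_nd ytv5097 (DT.all_nd ytv5098 ytv5099))) (DT.all_nd (DT.all_nd (DT.all_nd ytv5100 ytv5101) (DT.all_nd ytv5102 ytv5103)) (DT.all_nd (DT.all_nd ytv5104 ytv5105) ytv5106))))) (DT.all_nd (DT.all_nd (DT.all_nd (DT.all_nd (DT.all_nd (DT.all_nd ytv5107 ytv5108) (DT.all_nd ytv5109 ytv5110)) (DT.all_nd (DT.all_nd ytv5111 ytv5112) (DT.all_nd ytv5113 ytv5114))) (DT.all_nd (DT.all_nd ytv5115 (DT.all_nd ytv5116 ytv5117)) (DT.all_nd (DT.all_nd ytv5118 ytv5119) (DT.all_nd ytv5120 ytv5121)))) (DT.all_nd (DT.all_nd (DT.all_nd ytv5122 ytv5123) (DT.all_nd ytv5124 ytv5125)) (DT.all_nd (DT.all_nd ytv5126 (DT.all_nd ytv5127 ytv5128)) (DT.all_nd ytv5129 ytv5130)))) (DT.all_nd (DT.all_nd (DT.all_nd (DT.all_nd ytv5131 (DT.all_nd ytv5132 ytv5133)) (DT.all_nd (DT.all_nd ytv5134 ytv5135) (DT.all_nd ytv5136 ytv5137))) (DT.all_nd (DT.all_nd (DT.all_nd ytv5138 ytv5139) (DT.all_nd ytv5140 ytv5141)) (DT.all_nd (DT.all_nd ytv5142 ytv5143) ytv5144))) (DT.all_nd (DT.all_nd (DT.all_nd (DT.all_nd ytv5145 ytv5146) (DT.all_nd (DT.all_nd ytv5147 ytv5148) ytv5149)) (DT.all_nd (DT.all_nd ytv5150 ytv5151) (DT.all_nd ytv5152 ytv5153))) (DT.all_nd (DT.all_nd ytv5154 ytv5155) (DT.all_nd ytv5156 ytv5157)))))) (DT.all_nd (DT.all_nd (DT.all_nd (DT.all_nd (DT.all_nd (DT.all_nd ytv5158 ytv5159) (DT.all_nd ytv5160 ytv5161)) (DT.all_nd (DT.all_nd (DT.all_nd ytv5162 ytv5163) (DT.all_nd ytv5164 ytv5165)) (DT.all_nd (DT.all_nd ytv5166 ytv5167) (DT.all_nd (DT.all_nd ytv5168 ytv5169) (DT.all_nd ytv5170 ytv5171))))) (DT.all_nd (DT.all_nd (DT.all_nd (DT.all_nd (DT.all_nd ytv5172 ytv5173) (DT.all_nd ytv5174 ytv5175)) (DT.all_nd (DT.all_nd ytv5176 ytv5177) ytv5178)) (DT.all_nd (DT.all_nd (DT.all_nd ytv5179 ytv5180) ytv5181) (DT.all_nd ytv5182 ytv5183))) (DT.all_nd (DT.all_nd (DT.all_nd ytv5184 ytv5185) (DT.all_nd ytv5186 ytv5187)) (DT.all_nd (DT.all_nd ytv5188 ytv5189) (DT.all_nd ytv5190 ytv5191))))) (DT.all_nd (DT.all_nd (DT.all_nd (DT.all_nd ytv5192 (DT.all_nd ytv5193 ytv5194)) (DT.all_nd (DT.all_nd ytv5195 ytv5196) (DT.all_nd ytv5197 ytv5198))) (DT.all_nd (DT.all_nd ytv5199 (DT.all_nd ytv5200 ytv5201)) (DT.all_nd ytv5202 ytv5203))) (DT.all_nd (DT.all_nd (DT.all_nd ytv5204 ytv5205) (DT.all_nd ytv5206 ytv5207)) (DT.all_nd (DT.all_nd ytv5208 ytv5209) (DT.all_nd ytv5210 ytv5211))))) (DT.all_nd (DT.all_nd (DT.all_nd (DT.all_nd (DT.all_nd (DT.all_nd ytv5212 ytv5213) ytv5214) (DT.all_nd ytv5215 ytv5216)) (DT.all_nd (DT.all_nd ytv5217 ytv5218) (DT.all_nd ytv5219 ytv5220))) (DT.all_nd (DT.all_nd (DT.all_nd ytv5221 ytv5222) (DT.all_nd ytv5223 ytv5224)) (DT.all_nd (DT.all_nd ytv5225 ytv5226) (DT.all_nd ytv5227 (DT.all_nd ytv5228 ytv5229))))) (DT.all_nd (DT.all_nd (DT.all_nd (DT.all_nd (DT.all_nd ytv5230 ytv5231) ytv5232) (DT.all_nd (DT.all_nd ytv5233 ytv5234) (DT.all_nd ytv5235 ytv5236))) (DT.all_nd (DT.all_nd (DT.all_nd ytv5237 ytv5238) ytv5239) (DT.all_nd ytv5240 (DT.all_nd ytv5241 ytv5242)))) (DT.all_nd (DT.all_nd (DT.all_nd (DT.all_nd ytv5243 ytv5244) ytv5245) (DT.all_nd ytv5246 ytv5247)) (DT.all_nd (DT.all_nd (DT.all_nd ytv5248 ytv5249) (DT.all_nd ytv5250 ytv5251)) (DT.all_nd ytv5252 ytv5253)))))))) (DT.all_nd (DT.all_nd (DT.all_nd (DT.all_nd (DT.all_nd (DT.all_nd (DT.all_nd (DT.all_nd (DT.all_nd ytv5254 ytv5255) (DT.all_nd ytv5256 ytv5257)) (DT.all_nd (DT.all_nd ytv5258 ytv5259) (DT.all_nd ytv5260 ytv5261))) (DT.all_nd (DT.all_nd ytv5262 (DT.all_nd ytv5263 ytv5264)) (DT.all_nd (DT.all_nd ytv5265 ytv5266) ytv5267))) (DT.all_nd (DT.all_nd (DT.all_nd ytv5268 ytv5269) (DT.all_nd (DT.all_nd (DT.all_nd ytv5270 ytv5271) ytv5272) ytv5273)) (DT.all_nd (DT.all_nd (DT.all_nd ytv5274 ytv5275) (DT.all_nd ytv5276 (DT.all_nd ytv5277 ytv5278))) (DT.all_nd (DT.all_nd (DT.all_nd ytv5279 ytv5280) ytv5281) ytv5282)))) (DT.all_nd (DT.all_nd (DT.all_nd (DT.all_nd ytv5283 ytv5284) (DT.all_nd ytv5285 (DT.all_nd ytv5286 ytv5287))) (DT.all_nd (DT.all_nd (DT.all_nd ytv5288 ytv5289) (DT.all_nd ytv5290 ytv5291)) (DT.all_nd (DT.all_nd ytv5292 ytv5293) (DT.all_nd ytv5294 ytv5295)))) (DT.all_nd (DT.all_nd (DT.all_nd ytv5296 ytv5297) (DT.all_nd ytv5298 (DT.all_nd ytv5299 ytv5300))) (DT.all_nd (DT.all_nd (DT.all_nd ytv5301 ytv5302) (DT.all_nd ytv5303 ytv5304)) (DT.all_nd (DT.all_nd ytv5305 ytv5306) ytv5307))))) (DT.all_nd (DT.all_nd (DT.all_nd (DT.all_nd (DT.all_nd ytv5308 ytv5309) (DT.all_nd ytv5310 ytv5311)) (DT.all_nd (DT.all_nd ytv5312 (DT.all_nd ytv5313 ytv5314)) (DT.all_nd ytv5315 ytv5316))) (DT.all_nd (DT.all_nd (DT.all_nd ytv5317 (DT.all_nd ytv5318 ytv5319)) (DT.all_nd (DT.all_nd ytv5320 ytv5321) ytv5322)) (DT.all_nd (DT.all_nd ytv5323 ytv5324) (DT.all_nd ytv5325 ytv5326)))) (DT.all_nd (DT.all_nd (DT.all_nd (DT.all_nd ytv5327 (DT.all_nd ytv5328 ytv5329)) (DT.all_nd ytv5330 ytv5331)) (DT.all_nd (DT.all_nd ytv5332 ytv5333) (DT.all_nd ytv5334 (DT.all_nd ytv5335 ytv5336)))) (DT.all_nd (DT.all_nd (DT.all_nd ytv5337 ytv5338) (DT.all_nd ytv5339 ytv5340)) (DT.all_nd (DT.all_nd ytv5341 (DT.all_nd ytv5342 ytv5343)) (DT.all_nd ytv5344 ytv5345)))))) (DT.all_nd (DT.all_nd (DT.all_nd (DT.all_nd (DT.all_nd (DT.all_nd ytv5346 ytv5347) (DT.all_nd (DT.all_nd ytv5348 ytv5349) (DT.all_nd ytv5350 ytv5351))) (DT.all_nd (DT.all_nd ytv5352 (DT.all_nd ytv5353 ytv5354)) (DT.all_nd ytv5355 ytv5356))) (DT.all_nd (DT.all_nd (DT.all_nd (DT.all_nd ytv5357 ytv5358) (DT.all_nd ytv5359 ytv5360)) (DT.all_nd (DT.all_nd ytv5361 ytv5362) ytv5363)) (DT.all_nd (DT.all_nd (DT.all_nd ytv5364 ytv5365) (DT.all_nd ytv5366 ytv5367)) (DT.all_nd (DT.all_nd ytv5368 ytv5369) (DT.all_nd ytv5370 ytv5371))))) (DT.all_nd (DT.all_nd (DT.all_nd (DT.all_nd (DT.all_nd ytv5372 ytv5373) ytv5374) (DT.all_nd ytv5375 ytv5376)) (DT.all_nd (DT.all_nd (DT.all_nd ytv5377 ytv5378) (DT.all_nd ytv5379 ytv5380)) (DT.all_nd ytv5381 ytv5382))) (DT.all_nd (DT.all_nd (DT.all_nd (DT.all_nd ytv5383 ytv5384) (DT.all_nd ytv5385 ytv5386)) (DT.all_nd ytv5387 ytv5388)) (DT.all_nd (DT.all_nd ytv5389 ytv5390) (DT.all_nd ytv5391 (DT.all_nd ytv5392 ytv5393)))))) (DT.all_nd (DT.all_nd (DT.all_nd (DT.all_nd (DT.all_nd (DT.all_nd ytv5394 ytv5395) (DT.all_nd ytv5396 ytv5397)) (DT.all_nd (DT.all_nd ytv5398 ytv5399) (DT.all_nd (DT.all_nd ytv5400 ytv5401) ytv5402))) (DT.all_nd (DT.all_nd ytv5403 (DT.all_nd ytv5404 ytv5405)) (DT.all_nd (DT.all_nd ytv5406 ytv5407) (DT.all_nd ytv5408 ytv5409)))) (DT.all_nd (DT.all_nd (DT.all_nd (DT.all_nd ytv5410 ytv5411) (DT.all_nd ytv5412 ytv5413)) (DT.all_nd (DT.all_nd ytv5414 ytv5415) (DT.all_nd ytv5416 ytv5417))) (DT.all_nd (DT.all_nd (DT.all_nd ytv5418 ytv5419) ytv5420) (DT.all_nd (DT.all_nd ytv5421 ytv5422) ytv5423)))) (DT.all_nd (DT.all_nd (DT.all_nd (DT.all_nd (DT.all_nd ytv5424 ytv5425) (DT.all_nd ytv5426 ytv5427)) (DT.all_nd (DT.all_nd ytv5428 ytv5429) (DT.all_nd ytv5430 ytv5431))) (DT.all_nd (DT.all_nd (DT.all_nd ytv5432 ytv5433) (DT.all_nd ytv5434 ytv5435)) (DT.all_nd ytv5436 ytv5437))) (DT.all_nd (DT.all_nd (DT.all_nd (DT.all_nd ytv5438 ytv5439) (DT.all_nd ytv5440 ytv5441)) (DT.all_nd ytv5442 ytv5443)) (DT.all_nd (DT.all_nd ytv5444 ytv5445) (DT.all_nd ytv5446 ytv5447))))))) (DT.all_nd (DT.all_nd (DT.all_nd (DT.all_nd (DT.all_nd (DT.all_nd (DT.all_nd (DT.all_nd ytv5448 ytv5449) ytv5450) (DT.all_nd ytv5451 (DT.all_nd ytv5452 ytv5453))) (DT.all_nd (DT.all_nd (DT.all_nd ytv5454 ytv5455) (DT.all_nd ytv5456 ytv5457)) (DT.all_nd (DT.all_nd ytv5458 ytv5459) ytv5460))) (DT.all_nd (DT.all_nd (DT.all_nd ytv5461 ytv5462) (DT.all_nd ytv5463 ytv5464)) (DT.all_nd (DT.all_nd ytv5465 ytv5466) (DT.all_nd ytv5467 ytv5468)))) (DT.all_nd (DT.all_nd (DT.all_nd (DT.all_nd ytv5469 ytv5470) (DT.all_nd (DT.all_nd ytv5471 ytv5472) (DT.all_nd ytv5473 ytv5474))) (DT.all_nd (DT.all_nd ytv5475 ytv5476) (DT.all_nd (DT.all_nd ytv5477 ytv5478) (DT.all_nd ytv5479 ytv5480)))) (DT.all_nd (DT.all_nd (DT.all_nd (DT.all_nd ytv5481 ytv5482) ytv5483) (DT.all_nd ytv5484 ytv5485)) (DT.all_nd (DT.all_nd ytv5486 ytv5487) (DT.all_nd ytv5488 ytv5489))))) (DT.all_nd (DT.all_nd (DT.all_nd (DT.all_nd (DT.all_nd ytv5490 ytv5491) (DT.all_nd (DT.all_nd ytv5492 ytv5493) (DT.all_nd ytv5494 ytv5495))) ytv5496) ytv5497) (DT.all_nd ytv5498 ytv5499))) (DT.all_nd (DT.all_nd (DT.all_nd ytv5500 ytv5501) (DT.all_nd ytv5502 ytv5503)) (DT.all_nd (DT.all_nd ytv5504 ytv5505) (DT.all_nd ytv5506 ytv5507)))))) (DT.all_nd (DT.all_nd (DT.all_nd (DT.all_nd (DT.all_nd (DT.all_nd ytv5508 ytv5509) (DT.all_nd ytv5510 ytv5511)) (DT.all_nd (DT.all_nd ytv5512 ytv5513) (DT.all_nd ytv5514 ytv5515))) (DT.all_nd (DT.all_nd (DT.all_nd ytv5516 ytv5517) (DT.all_nd ytv5518 ytv5519)) (DT.all_nd (DT.all_nd ytv5520 ytv5521) (DT.all_nd ytv5522 ytv5523)))) (DT.all_nd (DT.all_nd (DT.all_nd (DT.all_nd ytv5524 ytv5525) (DT.all_nd ytv5526 ytv5527)) (DT.all_nd (DT.all_nd ytv5528 ytv5529) (DT.all_nd ytv5530 ytv5531))) (DT.all_nd (DT.all_nd (DT.all_nd ytv5532 ytv5533) (DT.all_nd ytv5534 ytv5535)) (DT.all_nd (DT.all_nd ytv5536 ytv5537) (DT.all_nd ytv5538 ytv5539))))) (DT.all_nd (DT.all_nd (DT.all_nd (DT.all_nd (DT.all_nd ytv5540 ytv5541) (DT.all_nd ytv5542 ytv5543)) (DT.all_nd (DT.all_nd ytv5544 ytv5545) (DT.all_nd ytv5546 ytv5547))) (DT.all_nd (DT.all_nd (DT.all_nd ytv5548 ytv5549) (DT.all_nd ytv5550 ytv5551)) (DT.all_nd (DT.all_nd ytv5552 ytv5553) (DT.all_nd ytv5554 ytv5555)))) (DT.all_nd (DT.all_nd (DT.all_nd (DT.all_nd ytv5556 ytv5557) (DT.all_nd ytv5558 ytv5559)) (DT.all_nd (DT.all_nd ytv5560 ytv5561) (DT.all_nd ytv5562 ytv5563))) (DT.all_nd (DT.all_nd (DT.all_nd ytv5564 ytv5565) (DT.all_nd ytv5566 ytv5567)) (DT.all_nd (DT.all_nd ytv5568 ytv5569) (DT.all_nd ytv5570 ytv5571))))))))) (DT.all_nd (DT.all_nd (DT.all_nd (DT.all_nd (DT.all_nd (DT.all_nd (DT.all_nd ytv5572 ytv5573) (DT.all_nd ytv5574 ytv5575)) (DT.all_nd (DT.all_nd ytv5576 ytv5577) (DT.all_nd ytv5578 ytv5579))) (DT.all_nd (DT.all_nd (DT.all_nd ytv5580 ytv5581) (DT.all_nd ytv5582 ytv5583)) (DT.all_nd (DT.all_nd ytv5584 ytv5585) (DT.all_nd ytv5586 ytv5587)))) (DT.all_nd (DT.all_nd (DT.all_nd (DT.all_nd ytv5588 ytv5589) (DT.all_nd ytv5590 ytv5591)) (DT.all_nd (DT.all_nd ytv5592 ytv5593) (DT.all_nd ytv5594 ytv5595))) (DT.all_nd (DT.all_nd (DT.all_nd ytv5596 ytv5597) (DT.all_nd ytv5598 ytv5599)) (DT.all_nd (DT.all_nd ytv5600 ytv5601) (DT.all_nd ytv5602 ytv5603))))) (DT.all_nd (DT.all_nd (DT.all_nd (DT.all_nd (DT.all_nd ytv5604 ytv5605) (DT.all_nd ytv5606 ytv5607)) (DT.all_nd (DT.all_nd ytv5608 ytv5609) (DT.all_nd ytv5610 ytv5611))) (DT.all_nd (DT.all_nd (DT.all_nd ytv5612 ytv5613) (DT.all_nd ytv5614 ytv5615)) (DT.all_nd (DT.all_nd ytv5616 ytv5617) (DT.all_nd ytv5618 ytv5619)))) (DT.all_nd (DT.all_nd (DT.all_nd (DT.all_nd ytv5620 ytv5621) (DT.all_nd ytv5622 ytv5623)) (DT.all_nd (DT.all_nd ytv5624 ytv5625) (DT.all_nd ytv5626 ytv5627))) (DT.all_nd (DT.all_nd (DT.all_nd ytv5628 ytv5629) (DT.all_nd ytv5630 ytv5631)) (DT.all_nd (DT.all_nd ytv5632 ytv5633) (DT.all_nd ytv5634 ytv5635)))))) (DT.all_nd (DT.all_nd (DT.all_nd (DT.all_nd (DT.all_nd ytv5636 ytv5637) (DT.all_nd ytv5638 ytv5639)) (DT.all_nd (DT.all_nd ytv5640 ytv5641) (DT.all_nd ytv5642 ytv5643))) (DT.all_nd (DT.all_nd (DT.all_nd ytv5644 ytv5645) (DT.all_nd ytv5646 ytv5647)) (DT.all_nd (DT.all_nd ytv5648 ytv5649) (DT.all_nd ytv5650 ytv5651)))) (DT.all_nd (DT.all_nd ytv5652 ytv5653) (DT.all_nd ytv5654 ytv5655)))))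

theorem kc : ∀ k < 101, ∀ o < optN k, kjO PT.D spT PT.ps Cz.tt rtT Cz.tp Cz.tk k o = true :=
  AP.pairs_of_parts (L := [keu0, keu1, keu2, keu3]) (List.forall_mem_cons.2 ⟨ke0, (List.forall_mem_cons.2 ⟨ke1, (List.forall_mem_cons.2 ⟨ke2, (List.forall_mem_cons.2 ⟨ke3, List.forall_mem_nil _⟩)⟩)⟩)⟩) (by decide +kernel)

/-- The checks of the tables, with the further shares. -/
theorem okK : cT.OKK Cz.tj Cz.tp Cz.tk where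
  toOKJ := ok
  kc := kc

/-- The cells with further shares. -/
theorem wink : DT.all (wkR cT Cz.tj Cz.tp Cz.tk Cz.tu) Cz.tu = true :=
  (DT.all_nd (DT.all_nd (DT.all_nd (DT.all_nd (DT.all_nd (DT.all_nd (DT.all_nd ytu000 ytu001) (DT.all_nd ytu002 ytu003)) (DT.all_nd (DT.all_nd ytu004 (DT.all_nd ytu005 ytu006)) (DT.all_nd ytu007 ytu008))) (DT.all_nd (DT.all_nd (DT.all_nd ytu009 ytu010) ytu011) (DT.all_nd (DT.all_nd ytu012 ytu013) (DT.all_nd (DT.all_nd ytu014 (DT.all_nd ytu015 ytu016)) (DT.all_nd ytu017 (DT.all_nd ytu018 ytu019)))))) (DT.all_nd (DT.all_nd (DT.all_nd (DT.all_nd (DT.all_nd ytu020 ytu021) ytu022) (DT.all_nd ytu023 ytu024)) (DT.all_nd (DT.all_nd ytu025 (DT.all_nd ytu026 ytu027)) (DT.all_nd ytu028 ytu029))) (DT.all_nd (DT.all_nd (DT.all_nd ytu030 (DT.all_nd ytu031 ytu032)) (DT.all_nd ytu033 ytu034)) (DT.all_nd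 (DT.all_nd ytu035 ytu036) ytu037)))) (DT.all_nd (DT.all_nd (DT.all_nd (DT.all_nd ytu038 ytu039) (DT.all_nd ytu040 ytu041)) (DT.all_nd (DT.all_nd ytu042 ytu043) (DT.all_nd (DT.all_nd ytu044 ytu045) (DT.all_nd ytu046 ytu047)))) (DT.all_nd (DT.all_nd (DT.all_nd (DT.all_nd ytu048 ytu049) (DT.all_nd ytu050 ytu051)) (DT.all_nd (DT.all_nd ytu052 (DT.all_nd ytu053 (DT.all_nd ytu054 ytu055))) (DT.all_nd (DT.all_nd ytu056 ytu057) ytu058))) (DT.all_nd (DT.all_nd (DT.all_nd (DT.all_nd ytu059 ytu060) (DT.all_nd (DT.all_nd ytu061 ytu062) ytu063)) ytu064) (DT.all_nd (DT.all_nd (DT.all_nd ytu065 ytu066) ytu067) (DT.all_nd ytu068 ytu069)))))) (DT.all_nd (DT.all_nd (DT.all_nd (DT.all_nd (DT.all_nd (DT.all_nd ytu070 ytu071) (DT.all_nd ytu072 ytu073)) (DT.all_nd ytu074 (DT.all_nd (DT.all_nd ytu075 (DT.all_nd ytu076 ytu077)) ytu078))) (DT.all_nd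 (DT.all_nd (DT.all_nd ytu079 ytu080) ytu081) (DT.all_nd (DT.all_nd ytu082 ytu083) ytu084))) (DT.all_nd (DT.all_nd (DT.all_nd (DT.all_nd ytu085 ytu086) (DT.all_nd ytu087 ytu088)) (DT.all_nd (DT.all_nd ytu089 ytu090) (DT.all_nd (DT.all_nd ytu091 ytu092) ytu093))) (DT.all_nd (DT.all_nd (DT.all_nd (DT.all_nd ytu094 (DT.all_nd ytu095 ytu096)) (DT.all_nd (DT.all_nd (DT.all_nd ytu097 ytu098) ytu099) ytu100)) (DT.all_nd (DT.all_nd ytu101 ytu102) ytu103)) (DT.all_nd (DT.all_nd (DT.all_nd ytu104 ytu105) ytu106) (DT.all_nd ytu107 (DT.all_nd ytu108 (DT.all_nd ytu109 ytu110))))))) (DT.all_nd (DT.all_nd (DT.all_nd (DT.all_nd (DT.all_nd ytu111 (DT.all_nd ytu112 (DT.all_nd ytu113 (DT.all_nd ytu114 ytu115)))) (DT.all_nd (DT.all_nd (DT.all_nd (DT.all_nd ytu116 ytu117) ytu118) ytu119) (DT.all_nd ytu120 ytu121))) (DT.all_nd (DT.all_nd ytu122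 (DT.all_nd ytu123 (DT.all_nd (DT.all_nd ytu124 ytu125) (DT.all_nd ytu126 ytu127)))) (DT.all_nd (DT.all_nd ytu128 ytu129) ytu130))) (DT.all_nd (DT.all_nd (DT.all_nd ytu131 ytu132) (DT.all_nd (DT.all_nd ytu133 ytu134) ytu135)) (DT.all_nd ytu136 (DT.all_nd ytu137 ytu138)))) ytu139)))

end Pool.Agent.Lib.MP_5854e1_co.Cz
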