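import Pool.Agent.Lib.MP_5854e1_co.RwD
import Pool.Agent.Lib.MP_5854e1_co.Cz.B00
import Pool.Agent.Lib.MP_5854e1_co.Cz.B01
import Pool.Agent.Lib.MP_5854e1_co.Cz.B02
import Pool.Agent.Lib.MP_5854e1_co.Cz.B03
import Pool.Agent.Lib.MP_5854e1_co.Cz.B04
import Pool.Agent.Lib.MP_5854e1_co.Cz.B05
import Pool.Agent.Lib.MP_5854e1_co.Cz.B06
import Pool.Agent.Lib.MP_5854e1_co.Cz.B07
import Pool.Agent.Lib.MP_5854e1_co.Cz.B08
import Pool.Agent.Lib.MP_5854e1_co.Cz.B09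
import Pool.Agent.Lib.MP_5854e1_co.Cz.B10
import Pool.Agent.Lib.MP_5854e1_co.Cz.B11
import Pool.Agent.Lib.MP_5854e1_co.Cz.B12
import Pool.Agent.Lib.MP_5854e1_co.Cz.B13
import Pool.Agent.Lib.MP_5854e1_co.Cz.B14
import Pool.Agent.Lib.MP_5854e1_co.Cz.B15
import Pool.Agent.Lib.MP_5854e1_co.Cz.B16
import Pool.Agent.Lib.MP_5854e1_co.Cz.B17
import Pool.Agent.Lib.MP_5854e1_co.Cz.B18
import Pool.Agent.Lib.MP_5854e1_co.Cz.B19
import Pool.Agent.Lib.MP_5854e1_co.Cz.B20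
import Pool.Agent.Lib.MP_5854e1_co.Cz.B21
import Pool.Agent.Lib.MP_5854e1_co.Cz.B22
import Pool.Agent.Lib.MP_5854e1_co.Cz.B23
import Pool.Agent.Lib.MP_5854e1_co.Cz.B24
import Pool.Agent.Lib.MP_5854e1_co.Cz.B25
import Pool.Agent.Lib.MP_5854e1_co.Cz.B26
import Pool.Agent.Lib.MP_5854e1_co.Cz.B27
import Pool.Agent.Lib.MP_5854e1_co.Cz.B28
import Pool.Agent.Lib.MP_5854e1_co.Cz.B29
import Pool.Agent.Lib.MP_5854e1_co.Cz.B30
import Pool.Agent.Lib.MP_5854e1_co.Cz.B31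
import Pool.Agent.Lib.MP_5854e1_co.Cz.B32
import Pool.Agent.Lib.MP_5854e1_co.Cz.B33
import Pool.Agent.Lib.MP_5854e1_co.Cz.B34
import Pool.Agent.Lib.MP_5854e1_co.Cz.B35
import Pool.Agent.Lib.MP_5854e1_co.Cz.B36
import Pool.Agent.Lib.MP_5854e1_co.Cz.B37

/-!
# Rows
-/

set_option autoImplicit false
set_option maxRecDepth 100000

namespace Pool.Agent.Lib.MP_5854e1_co.Cz

open PB

noncomputable section

noncomputable def r15_49 : Rw Blk := .tok (nat_lit 3) (nat_lit 0x5e0000bc00017f7782ff579) (.hit (nat_lit 0) (nat_lit 0) (nat_lit 0x5e0000bc00017f208afdfe1) b28076 (.tok (nat_lit 9) (nat_lit 0x5e0000bc00017f241afe3c3) (.hit (nat_lit 1) (nat_lit 20) (nat_lit 0x5e0000bc00017e52bafc997) b28077 (.hit (nat_lit 6) (nat_lit 28) (nat_lit 0x5e0000bc00017e315afc56b) b28082 (.tok (nat_lit 14) (nat_lit 0x5e0000bc00017edf82fdb30) (.hit (nat_lit 2) (nat_lit 24) (nat_lit 0x5e0000bc00017edf82fdb30)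 b28078 (.hit (nat_lit 7) (nat_lit 30) (nat_lit 0x5e0000bc00017e9002fd140) b28083 (.one (nat_lit 6) (nat_lit 3) (nat_lit 25) (nat_lit 0x5e0000bc00017ed552fd9ea) b28079 (.nil)))) (.tok (nat_lit 68) (nat_lit 0x5e0000bc00017f241afe3c3) (.hit (nat_lit 4) (nat_lit 26) (nat_lit 0x5e0000bc00017efb42fdea8) b28080 (.hit (nat_lit 8) (nat_lit 32) (nat_lit 0x5e0000bc00017e8682fd010) b28084 (.one (nat_lit 9) (nat_lit 5) (nat_lit 27) (nat_lit 0x5e0000bc00017f241afe3c3) b28081 (.nil)))) (.nil))))) (.tok (nat_lit 64) (nat_lit 0x5e0000bc00017f0872fe04e) (.hit (nat_lit 9) (nat_lit 50) (nat_lit 0x5e0000bc00017f0872fe04e) b28085 (.hit (nat_lit 10) (nat_lit 51) (nat_lit 0x5e0000bc00017eea32fdc86) b28086 (.nil))) (.tok (nat_lit 67) (nat_lit 0x5e0000bc00017f7782ff579) (.hit (nat_lit 11) (nat_lit 52) (nat_lit 0x5e0000bc00017f7782ff40b) b28087 (.tok (nat_lit 3) (nat_lit 0x5e0000bc00017f2c9afe4d3) (.hit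 (nat_lit 17) (nat_lit 58) (nat_lit 0x5e0000bc00017f2c9afe4d3) b28093 (.one (nat_lit 55) (nat_lit 18) (nat_lit 59) (nat_lit 0x5e0000bc00017f0772fe02e) b28094 (.nil))) (.tok (nat_lit 9) (nat_lit 0x5e0000bc00017f640aff579) (.hit (nat_lit 12) (nat_lit 53) (nat_lit 0x5e0000bc00017f4bdafe404) b28088 (.hit (nat_lit 15) (nat_lit 56) (nat_lit 0x5e0000bc00017ec52afd7e5) b28091 (.tok (nat_lit 67) (nat_lit 0x5e0000bc00017f640aff579) (.hit (nat_lit 13) (nat_lit 54) (nat_lit 0x5e0000bc00017f55a2ff579) b28089 (.hit (nat_lit 16) (nat_lit 57) (nat_lit 0x5e0000bc00017ef532fdde6) b28092 (.one (nat_lit 9) (nat_lit 14) (nat_lit 55) (nat_lit 0x5e0000bc00017f640afebc1) b28090 (.nil)))) (.nil)))) (.nil)))) (.one (nat_lit 70) (nat_lit 19) (nat_lit 60) (nat_lit 0x5e0000bc00017edfbafdb37) b28095 (.nil)))))) (.tok (nat_lit 6) (nat_lit 0x5e0000bc0001800003000b5) (.hit (nat_lit 20) (nat_lit 0) (nat_lit 0x5e0000bc00017f2e52fe3c4)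 b28096 (.tok (nat_lit 6) (nat_lit 0x5e0000bc0001800003000b5) (.hit (nat_lit 21) (nat_lit 7) (nat_lit 0x5e0000bc00017f08b2fe052) b28097 (.hit (nat_lit 26) (nat_lit 15) (nat_lit 0x5e0000bc00017e999afd26b) b28102 (.tok (nat_lit 14) (nat_lit 0x5e0000bc0001800003000b5) (.hit (nat_lit 22) (nat_lit 11) (nat_lit 0x5e0000bc0001800002ffd4f) b28098 (.hit (nat_lit 27) (nat_lit 17) (nat_lit 0x5e0000bc00017f7802fef8b) b28103 (.one (nat_lit 9) (nat_lit 23) (nat_lit 12) (nat_lit 0x5e0000bc00017fed9b000b5) b28099 (.nil)))) (.tok (nat_lit 56) (nat_lit 0x5e0000bc00017f7402ff17b) (.hit (nat_lit 24) (nat_lit 13) (nat_lit 0x5e0000bc00017f7402ff144) b28100 (.hit (nat_lit 29) (nat_lit 19) (nat_lit 0x5e0000bc00017f1252fe4ad) b28105 (.one (nat_lit 6) (nat_lit 25) (nat_lit 14) (nat_lit 0x5e0000bc00017f4ebaff17b) b28101 (.nil)))) (.one (nat_lit 68) (nat_lit 28) (nat_lit 18) (nat_lit 0x5e0000bc00017f57eafeac2)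 b28104 (.nil)))))) (.nil))) (.nil))
noncomputable def r15_50 : Rw Blk := .tok (nat_lit 6) (nat_lit 0x2f00005e0000c00001806e4300000) (.hit (nat_lit 0) (nat_lit 0) (nat_lit 0x2f00005e0000bfc5cd801702ff507) b28106 (.tok (nat_lit 3) (nat_lit 0x2f00005e0000bfbeed7fc82afeef2) (.hit (nat_lit 1) (nat_lit 1) (nat_lit 0x2f00005e0000bf649d7f0852fce71) b28107 (.one (nat_lit 14) (nat_lit 2) (nat_lit 4) (nat_lit 0x2f00005e0000bfbeed7fc82afeef2) b28108 (.one (nat_lit 56) (nat_lit 4) (nat_lit 6) (nat_lit 0x2f00005e0000bfb6497fbdcafea58) b28110 (.one (nat_lit 68) (nat_lit 3) (nat_lit 5) (nat_lit 0x2f00005e0000bfb48d7fb7aafe9a1) b28109 (.nil))))) (.tok (nat_lit 40) (nat_lit 0x2f00005e0000bf7ef97fc57afe942) (.hit (nat_lit 5) (nat_lit 33) (nat_lit 0x2f00005e0000bf7be17fb54afe942) b28111 (.hit (nat_lit 6) (nat_lit 34) (nat_lit 0x2f00005e0000bf7ef97fc57afe713) b28112 (.nil))) (.tok (nat_lit 43) (nat_lit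 0x2f00005e0000bfbd4d801f7aff7ba) (.hit (nat_lit 7) (nat_lit 35) (nat_lit 0x2f00005e0000bfbd4d801f7aff7ba) b28113 (.hit (nat_lit 8) (nat_lit 36) (nat_lit 0x2f00005e0000bf94558007d2fef5d) b28114 (.nil))) (.tok (nat_lit 46) (nat_lit 0x2f00005e0000c00001806e4300000) (.hit (nat_lit 9) (nat_lit 37) (nat_lit 0x2f00005e0000bf65357f2e22fe268) b28115 (.hit (nat_lit 10) (nat_lit 38) (nat_lit 0x2f00005e0000c00001806e4300000) b28116 (.nil))) (.nil)))))) (.tok (nat_lit 9) (nat_lit 0x2f00005e0000bfdb657fe32afffa5) (.hit (nat_lit 11) (nat_lit 0) (nat_lit 0x2f00005e0000bf7db97f3ce2fe695) b28117 (.tok (nat_lit 3) (nat_lit 0x2f00005e0000bfdb657fe32afffa5) (.hit (nat_lit 12) (nat_lit 1) (nat_lit 0x2f00005e0000bf54357ee5bafdfbf) b28118 (.one (nat_lit 14) (nat_lit 13) (nat_lit 4) (nat_lit 0x2f00005e0000bfdb657fe32afffa5) b28119 (.one (nat_lit 56) (nat_lit 15) (nat_lit 6) (nat_lit 0x2f00005e0000bf9de17f7682ff23c)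 b28121 (.one (nat_lit 68) (nat_lit 14) (nat_lit 5) (nat_lit 0x2f00005e0000bfa58d7f9792ff632) b28120 (.nil))))) (.nil))) (.nil))
noncomputable def r15_51 : Rw Blk := .tok (nat_lit 3) (nat_lit 0x5e0000bc00017f1ebafd8be) (.hit (nat_lit 14) (nat_lit 0) (nat_lit 0x5e0000bc00017f1ebafd8be) b28136 (.tok (nat_lit 6) (nat_lit 0x5e0000bc00017dfd2afb4ce) (.hit (nat_lit 15) (nat_lit 7) (nat_lit 0x5e0000bc00017dfd2afb4ce) b28137 (.hit (nat_lit 16) (nat_lit 15) (nat_lit 0x5e0000bc00017d9b32fa88f) b28138 (.nil))) (.tok (nat_lit 9) (nat_lit 0x5e0000bc00017eeb12fd28b) (.hit (nat_lit 17) (nat_lit 20) (nat_lit 0x5e0000bc00017eeb12fd28b) b28139 (.hit (nat_lit 18) (nat_lit 28) (nat_lit 0x5e0000bc00017eea9afd27c) b28140 (.nil))) (.nil)))) (.tok (nat_lit 6) (nat_lit 0x5e0000bc000180000300000) (.hit (nat_lit 0) (nat_lit 0) (nat_lit 0x5e0000bc00017f9722fed07) b28122 (.tok (nat_lit 3) (nat_lit 0x5e0000bc0001800002ff247)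 (.hit (nat_lit 1) (nat_lit 1) (nat_lit 0x5e0000bc00017f3212fd99a) b28123 (.one (nat_lit 67) (nat_lit 2) (nat_lit 2) (nat_lit 0x5e0000bc0001800002ff247) b28124 (.nil))) (.tok (nat_lit 6) (nat_lit 0x5e0000bc00017ffb4300000) (.hit (nat_lit 3) (nat_lit 7) (nat_lit 0x5e0000bc00017fafaafe6d9) b28125 (.hit (nat_lit 7) (nat_lit 15) (nat_lit 0x5e0000bc00017f2d2afda4a) b28129 (.tok (nat_lit 55) (nat_lit 0x5e0000bc00017ffb4300000) (.hit (nat_lit 4) (nat_lit 8) (nat_lit 0x5e0000bc00017ff9aaff8c5) b28126 (.hit (nat_lit 8) (nat_lit 16) (nat_lit 0x5e0000bc00017fcbc2ff36b) b28130 (.tok (nat_lit 6) (nat_lit 0x5e0000bc00017ffb4300000) (.hit (nat_lit 5) (nat_lit 9) (nat_lit 0x5e0000bc00017fb9a2feeee) b28127 (.one (nat_lit 55) (nat_lit 6) (nat_lit 10) (nat_lit 0x5e0000bc00017ffb4300000) b28128 (.nil))) (.nil)))) (.nil)))) (.nil)))) (.tok (nat_lit 9) (nat_lit 0x5e0000bc00017fb9eaff8d1) (.hit (nat_lit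 9) (nat_lit 0) (nat_lit 0x5e0000bc00017f4952fec20) b28131 (.tok (nat_lit 3) (nat_lit 0x5e0000bc00017fb9eaff8d1) (.hit (nat_lit 10) (nat_lit 1) (nat_lit 0x5e0000bc00017ef8f2fe341) b28132 (.one (nat_lit 55) (nat_lit 11) (nat_lit 3) (nat_lit 0x5e0000bc00017fb9eaff8d1) b28133 (.nil))) (.tok (nat_lit 9) (nat_lit 0x5e0000bc00017f79daff35e) (.hit (nat_lit 12) (nat_lit 20) (nat_lit 0x5e0000bc00017f79daff35e) b28134 (.hit (nat_lit 13) (nat_lit 28) (nat_lit 0x5e0000bc00017f18aafe738) b28135 (.nil))) (.nil)))) (.nil)))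
noncomputable def r15_52 : Rw Blk := .tok (nat_lit 3) (nat_lit 0x5e0000bc00017ea952fda6d) (.hit (nat_lit 0) (nat_lit 0) (nat_lit 0x5e0000bc00017ea952fda6d) b28141 (.tok (nat_lit 6) (nat_lit 0x5e0000bc00017e82fafd840) (.hit (nat_lit 1) (nat_lit 7) (nat_lit 0x5e0000bc00017e8222fd825) b28142 (.hit (nat_lit 2) (nat_lit 15) (nat_lit 0x5e0000bc00017e82fafd840) b28143 (.nil))) (.tok (nat_lit 9) (nat_lit 0x5e0000bc00017e725afd62c) (.hit (nat_lit 3) (nat_lit 20) (nat_lit 0x5e0000bc00017e725afd62c) b28144 (.hit (nat_lit 4) (nat_lit 28) (nat_lit 0x5e0000bc00017e6142fd409) b28145 (.nil))) (.nil)))) (.tok (nat_lit 6) (nat_lit 0x5e0000bc00017fadc2feee5) (.hit (nat_lit 13) (nat_lit 0) (nat_lit 0x5e0000bc00017f7bdafe74d) b28154 (.tok (nat_lit 3) (nat_lit 0x5e0000bc00017f604afe660) (.hit (nat_lit 14) (nat_lit 1) (nat_lit 0x5e0000bc00017efc1afd579) b28155 (.one (nat_lit 67) (nat_lit 15) (nat_lit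 2) (nat_lit 0x5e0000bc00017f604afe660) b28156 (.nil))) (.tok (nat_lit 6) (nat_lit 0x5e0000bc00017fadc2feee5) (.hit (nat_lit 16) (nat_lit 7) (nat_lit 0x5e0000bc00017f0a0afda56) b28157 (.hit (nat_lit 19) (nat_lit 15) (nat_lit 0x5e0000bc00017ee972fd922) b28160 (.tok (nat_lit 55) (nat_lit 0x5e0000bc00017fadc2feee5) (.hit (nat_lit 17) (nat_lit 8) (nat_lit 0x5e0000bc00017f90f2feee5) b28158 (.hit (nat_lit 20) (nat_lit 16) (nat_lit 0x5e0000bc00017fadc2feb3c) b28161 (.one (nat_lit 6) (nat_lit 18) (nat_lit 9) (nat_lit 0x5e0000bc00017f7fcafea5b) b28159 (.nil)))) (.nil)))) (.nil)))) (.tok (nat_lit 9) (nat_lit 0x5e0000bc000180000300000) (.hit (nat_lit 5) (nat_lit 0) (nat_lit 0x5e0000bc00017f32bafe969) b28146 (.tok (nat_lit 3) (nat_lit 0x5e0000bc00017f712aff606) (.hit (nat_lit 6) (nat_lit 1) (nat_lit 0x5e0000bc00017e8002fd7e1) b28147 (.one (nat_lit 55) (nat_lit 7) (nat_lit 3) (nat_lit 0x5e0000bc00017f712aff606)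 b28148 (.nil))) (.tok (nat_lit 9) (nat_lit 0x5e0000bc000180000300000) (.hit (nat_lit 8) (nat_lit 20) (nat_lit 0x5e0000bc00017f446afea89) b28149 (.hit (nat_lit 11) (nat_lit 28) (nat_lit 0x5e0000bc00017e8a0afd922) b28152 (.tok (nat_lit 67) (nat_lit 0x5e0000bc000180000300000) (.hit (nat_lit 9) (nat_lit 21) (nat_lit 0x5e0000bc000180000300000) b28150 (.hit (nat_lit 12) (nat_lit 29) (nat_lit 0x5e0000bc00017f6af2ff53b) b28153 (.one (nat_lit 9) (nat_lit 10) (nat_lit 22) (nat_lit 0x5e0000bc00017f4e82ff19c) b28151 (.nil)))) (.nil)))) (.nil)))) (.nil)))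
noncomputable def r15_53 : Rw Blk := .tok (nat_lit 3) (nat_lit 0x5e0000bc00017e7f52fe252) (.hit (nat_lit 0) (nat_lit 0) (nat_lit 0x5e0000bc00017e7f52fe252) b28162 (.tok (nat_lit 6) (nat_lit 0x5e0000bc00017df2dafd1cc) (.hit (nat_lit 1) (nat_lit 7) (nat_lit 0x5e0000bc00017de9d2fd0ab) b28163 (.hit (nat_lit 2) (nat_lit 15) (nat_lit 0x5e0000bc00017df2dafd1cc) b28164 (.nil))) (.tok (nat_lit 9) (nat_lit 0x5e0000bc00017df4bafd208) (.hit (nat_lit 3) (nat_lit 20) (nat_lit 0x5e0000bc00017df1fafd1b0) b28165 (.hit (nat_lit 4) (nat_lit 28) (nat_lit 0x5e0000bc00017df4bafd208) b28166 (.nil))) (.nil)))) (.tok (nat_lit 6) (nat_lit 0x5e0000bc00017f376aff3f7) (.hit (nat_lit 5) (nat_lit 0) (nat_lit 0x5e0000bc00017f376aff3f7) b28167 (.one (nat_lit 3) (nat_lit 6) (nat_lit 1) (nat_lit 0x5e0000bc00017d618afbfa2) b28168 (.tok (nat_lit 6) (nat_lit 0x5e0000bc00017ef68aff242) (.hit (nat_lit 7) (nat_lit 7)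 (nat_lit 0x5e0000bc00017dfc12fd2f3) b28169 (.hit (nat_lit 11) (nat_lit 15) (nat_lit 0x5e0000bc00017da28afc7c2) b28173 (.tok (nat_lit 55) (nat_lit 0x5e0000bc00017ef68aff242) (.hit (nat_lit 8) (nat_lit 8) (nat_lit 0x5e0000bc00017e8832fe477) b28170 (.hit (nat_lit 12) (nat_lit 16) (nat_lit 0x5e0000bc00017e775afe25c) b28174 (.tok (nat_lit 6) (nat_lit 0x5e0000bc00017ef68aff242) (.hit (nat_lit 9) (nat_lit 9) (nat_lit 0x5e0000bc00017e7e0afe332) b28171 (.one (nat_lit 55) (nat_lit 10) (nat_lit 10) (nat_lit 0x5e0000bc00017ef68aff242) b28172 (.nil))) (.nil)))) (.nil)))) (.nil)))) (.tok (nat_lit 9) (nat_lit 0x5e0000bc000180698b015f8) (.hit (nat_lit 13) (nat_lit 0) (nat_lit 0x5e0000bc00017ede82fefac) b28175 (.one (nat_lit 3) (nat_lit 14) (nat_lit 1) (nat_lit 0x5e0000bc00017de432fd6b3) b28176 (.tok (nat_lit 9) (nat_lit 0x5e0000bc000180698b015f8) (.hit (nat_lit 15) (nat_lit 20) (nat_lit 0x5e0000bc00017f026afe98f)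 b28177 (.hit (nat_lit 19) (nat_lit 28) (nat_lit 0x5e0000bc00017e325afde9a) b28181 (.tok (nat_lit 67) (nat_lit 0x5e0000bc000180698b015f8) (.hit (nat_lit 16) (nat_lit 21) (nat_lit 0x5e0000bc000180698b015f8) b28178 (.hit (nat_lit 20) (nat_lit 29) (nat_lit 0x5e0000bc00017f0752ff5f8) b28182 (.tok (nat_lit 9) (nat_lit 0x5e0000bc00017ff06b00585) (.hit (nat_lit 17) (nat_lit 22) (nat_lit 0x5e0000bc00017f6e92ffc30) b28179 (.one (nat_lit 67) (nat_lit 18) (nat_lit 23) (nat_lit 0x5e0000bc00017ff06b00585) b28180 (.nil))) (.nil)))) (.nil)))) (.nil)))) (.nil)))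
noncomputable def r15_54 : Rw Blk := .tok (nat_lit 3) (nat_lit 0x5e0000bc00017ecc0afdbe0) (.hit (nat_lit 0) (nat_lit 0) (nat_lit 0x5e0000bc00017ecc0afdbe0) b28183 (.tok (nat_lit 6) (nat_lit 0x5e0000bc00017e784afd44b) (.hit (nat_lit 1) (nat_lit 7) (nat_lit 0x5e0000bc00017e639afd1b5) b28184 (.hit (nat_lit 2) (nat_lit 15) (nat_lit 0x5e0000bc00017e784afd44b) b28185 (.nil))) (.tok (nat_lit 9) (nat_lit 0x5e0000bc00017e7292fd394) (.hit (nat_lit 3) (nat_lit 20) (nat_lit 0x5e0000bc00017e6eb2fd318) b28186 (.hit (nat_lit 4) (nat_lit 28) (nat_lit 0x5e0000bc00017e7292fd394) b28187 (.nil))) (.nil)))) (.tok (nat_lit 6) (nat_lit 0x5e0000bc000180000300c58) (.hit (nat_lit 5) (nat_lit 0) (nat_lit 0x5e0000bc00017f5daafee38) b28188 (.one (nat_lit 3) (nat_lit 6) (nat_lit 1) (nat_lit 0x5e0000bc00017e4a22fcb87) b28189 (.tok (nat_lit 6) (nat_lit 0x5e0000bc000180000300c58) (.hit (nat_lit 7) (nat_lit 7)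 (nat_lit 0x5e0000bc00017f0372febd6) b28190 (.hit (nat_lit 11) (nat_lit 15) (nat_lit 0x5e0000bc00017e8b82fd4f1) b28194 (.tok (nat_lit 55) (nat_lit 0x5e0000bc000180000300c58) (.hit (nat_lit 8) (nat_lit 8) (nat_lit 0x5e0000bc000180000300c58) b28191 (.hit (nat_lit 12) (nat_lit 16) (nat_lit 0x5e0000bc00017f91b2ff647) b28195 (.tok (nat_lit 6) (nat_lit 0x5e0000bc00017fb93aff531) (.hit (nat_lit 9) (nat_lit 9) (nat_lit 0x5e0000bc00017f9b92fefbd) b28192 (.one (nat_lit 55) (nat_lit 10) (nat_lit 10) (nat_lit 0x5e0000bc00017fb93aff531) b28193 (.nil))) (.nil)))) (.nil)))) (.nil)))) (.tok (nat_lit 9) (nat_lit 0x5e0000bc00017fa822ff22e) (.hit (nat_lit 13) (nat_lit 0) (nat_lit 0x5e0000bc00017f03bafe0dd) b28196 (.one (nat_lit 3) (nat_lit 14) (nat_lit 1) (nat_lit 0x5e0000bc00017e430afc3fc) b28197 (.tok (nat_lit 9) (nat_lit 0x5e0000bc00017fa822ff22e) (.hit (nat_lit 15) (nat_lit 20) (nat_lit 0x5e0000bc00017ee752fd528)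 b28198 (.hit (nat_lit 19) (nat_lit 28) (nat_lit 0x5e0000bc00017ecb4afd32f) b28202 (.tok (nat_lit 67) (nat_lit 0x5e0000bc00017fa822ff22e) (.hit (nat_lit 16) (nat_lit 21) (nat_lit 0x5e0000bc00017f7112fe9cc) b28199 (.hit (nat_lit 20) (nat_lit 29) (nat_lit 0x5e0000bc00017f65bafe82b) b28203 (.tok (nat_lit 9) (nat_lit 0x5e0000bc00017fa822ff22e) (.hit (nat_lit 17) (nat_lit 22) (nat_lit 0x5e0000bc00017f3b42fe153) b28200 (.one (nat_lit 67) (nat_lit 18) (nat_lit 23) (nat_lit 0x5e0000bc00017fa822ff22e) b28201 (.nil))) (.nil)))) (.nil)))) (.nil)))) (.nil)))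
noncomputable def r15_55 : Rw Blk := .tok (nat_lit 3) (nat_lit 0x17e77c2fdc385fd974bf42397f3cd2fd99b) (.hit (nat_lit 14) (nat_lit 0) (nat_lit 0x17e77c2fda3a5fc3cebf42397eebcafd385) b28218 (.tok (nat_lit 6) (nat_lit 0x17da1dafc9e35f9d5abed8557ec6eafbf97) (.hit (nat_lit 15) (nat_lit 7) (nat_lit 0x17da1dafc9e35f9d5abed8557ec6eafbf97) b28219 (.hit (nat_lit 16) (nat_lit 15) (nat_lit 0x17d0452fbeda5f8888be89917e62f2fabe6) b28220 (.nil))) (.tok (nat_lit 9) (nat_lit 0x17e71fafdc385fd974bf40657f3cd2fd99b) (.hit (nat_lit 17) (nat_lit 20) (nat_lit 0x17e71fafdc385fd974bf40657f3cd2fd99b) b28221 (.hit (nat_lit 18) (nat_lit 28) (nat_lit 0x17e4162fd4355fb2f0bf28197f17eafd388) b28222 (.nil))) (.nil)))) (.tok (nat_lit 6) (nat_lit 0x17f413300000600000bf9525800362feb2d) (.hit (nat_lit 0) (nat_lit 0) (nat_lit 0x17f4132fe5565fd850bf95257f74cafeb2d) b28204 (.tok (nat_lit 3) (nat_lit 0x17e8c1aff98c5fe5c2bf4d757fb59afdcdf)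 (.hit (nat_lit 1) (nat_lit 1) (nat_lit 0x17df232fd8175fb39cbf00817f320afc9a2) b28205 (.one (nat_lit 67) (nat_lit 2) (nat_lit 2) (nat_lit 0x17e8c1aff98c5fe5c2bf4d757fb59afdcdf) b28206 (.nil))) (.tok (nat_lit 6) (nat_lit 0x17ef95b00000600000bf8415800362fea87) (.hit (nat_lit 3) (nat_lit 7) (nat_lit 0x17e5b6afe2195fc19cbf351d7f47c2fd6c9) b28207 (.hit (nat_lit 7) (nat_lit 15) (nat_lit 0x17e145afe1ae5fab64bf11957f0282fcde7) b28211 (.tok (nat_lit 55) (nat_lit 0x17ef95b00000600000bf8415800362fea87) (.hit (nat_lit 4) (nat_lit 8) (nat_lit 0x17ec752ff3935feb32bf6b11800362fe446) b28208 (.hit (nat_lit 8) (nat_lit 16) (nat_lit 0x17ea2d300000600000bf58d17ff5dafdfb6) b28212 (.tok (nat_lit 6) (nat_lit 0x17ef95aff51d5ffc3ebf84157ff63afea87) (.hit (nat_lit 5) (nat_lit 9) (nat_lit 0x17eaf62fea665fd3c4bf5f197fa79afe148) b28209 (.one (nat_lit 55) (nat_lit 6) (nat_lit 10) (nat_lit 0x17ef95aff51d5ffc3ebf84157ff63afea87)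 b28210 (.nil))) (.nil)))) (.nil)))) (.nil)))) (.tok (nat_lit 9) (nat_lit 0x1800002ffbfe5fe416c02e5d7f641b0054c) (.hit (nat_lit 9) (nat_lit 0) (nat_lit 0x17ef022fdc725fd38ebf9fad7ef5aafe51d) b28213 (.tok (nat_lit 3) (nat_lit 0x1800002ffbfe5fe416c02e5d7f641b0054c) (.hit (nat_lit 10) (nat_lit 1) (nat_lit 0x17f02c2feb885fbdaabf8bd17f3dfafe667) b28214 (.one (nat_lit 55) (nat_lit 11) (nat_lit 3) (nat_lit 0x1800002ffbfe5fe416c02e5d7f641b0054c) b28215 (.nil))) (.tok (nat_lit 9) (nat_lit 0x17f7f7afe2805fd82abfca2d7f504afe9be) (.hit (nat_lit 12) (nat_lit 20) (nat_lit 0x17f7f7afe2805fd82abfca2d7f504afe9be) b28216 (.hit (nat_lit 13) (nat_lit 28) (nat_lit 0x17ebbe2fdf215fb1e0bf78b97f0282fdaeb) b28217 (.nil))) (.nil)))) (.nil)))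
noncomputable def r15_56 : Rw Blk := .tok (nat_lit 3) (nat_lit 0xbc0001780002ffaab) (.hit (nat_lit 0) (nat_lit 0) (nat_lit 0xbc0001780002fe71a) b28223 (.tok (nat_lit 9) (nat_lit 0xbc0001780002fd8a4) (.hit (nat_lit 1) (nat_lit 20) (nat_lit 0xbc0001780002fc6ff) b28224 (.hit (nat_lit 4) (nat_lit 28) (nat_lit 0xbc0001780002fbfd9) b28227 (.tok (nat_lit 14) (nat_lit 0xbc0001780002fd8a4) (.hit (nat_lit 2) (nat_lit 24) (nat_lit 0xbc0001780002fd617) b28225 (.hit (nat_lit 5) (nat_lit 30) (nat_lit 0xbc0001780002fcdd4) b28228 (.one (nat_lit 6) (nat_lit 3) (nat_lit 25) (nat_lit 0xbc0001780002fd8a4) b28226 (.nil)))) (.one (nat_lit 56) (nat_lit 6) (nat_lit 31) (nat_lit 0xbc0001780002fd573) b28229 (.nil))))) (.tok (nat_lit 64) (nat_lit 0xbc0001780002fe48a) (.hit (nat_lit 7) (nat_lit 50) (nat_lit 0xbc0001780002fe48a) b28230 (.hit (nat_lit 8) (nat_lit 51) (nat_lit 0xbc0001780002fe0b9) b28231 (.nil)))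 (.tok (nat_lit 67) (nat_lit 0xbc0001780002ffaab) (.hit (nat_lit 9) (nat_lit 52) (nat_lit 0xbc0001780002ffaab) b28232 (.tok (nat_lit 3) (nat_lit 0xbc0001780002fe5ff) (.hit (nat_lit 12) (nat_lit 58) (nat_lit 0xbc0001780002fe363) b28235 (.one (nat_lit 55) (nat_lit 13) (nat_lit 59) (nat_lit 0xbc0001780002fe5ff) b28236 (.nil))) (.tok (nat_lit 9) (nat_lit 0xbc0001780002feff4) (.hit (nat_lit 10) (nat_lit 53) (nat_lit 0xbc0001780002feff4) b28233 (.hit (nat_lit 11) (nat_lit 56) (nat_lit 0xbc0001780002fe031) b28234 (.nil))) (.nil)))) (.one (nat_lit 70) (nat_lit 14) (nat_lit 60) (nat_lit 0xbc0001780002fdcf3) b28237 (.nil)))))) (.tok (nat_lit 6) (nat_lit 0xbc0001780003031b5) (.hit (nat_lit 15) (nat_lit 0) (nat_lit 0xbc0001780002fe9eb) b28238 (.tok (nat_lit 6) (nat_lit 0xbc0001780002fec96) (.hit (nat_lit 16) (nat_lit 7) (nat_lit 0xbc0001780002fdaa0) b28239 (.hit (nat_lit 21) (nat_lit 15)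 (nat_lit 0xbc0001780002fc876) b28244 (.tok (nat_lit 14) (nat_lit 0xbc0001780002fec96) (.hit (nat_lit 17) (nat_lit 11) (nat_lit 0xbc0001780002fe4e2) b28240 (.hit (nat_lit 22) (nat_lit 17) (nat_lit 0xbc0001780002fe6f9) b28245 (.one (nat_lit 9) (nat_lit 18) (nat_lit 12) (nat_lit 0xbc0001780002fec96) b28241 (.nil)))) (.tok (nat_lit 56) (nat_lit 0xbc0001780002fe925) (.hit (nat_lit 19) (nat_lit 13) (nat_lit 0xbc0001780002fe919) b28242 (.hit (nat_lit 24) (nat_lit 19) (nat_lit 0xbc0001780002fe122) b28247 (.one (nat_lit 6) (nat_lit 20) (nat_lit 14) (nat_lit 0xbc0001780002fe925) b28243 (.nil)))) (.one (nat_lit 68) (nat_lit 23) (nat_lit 18) (nat_lit 0xbc0001780002fd91a) b28246 (.nil)))))) (.tok (nat_lit 52) (nat_lit 0xbc0001780002febf0) (.hit (nat_lit 25) (nat_lit 39) (nat_lit 0xbc0001780002fdc33) b28248 (.hit (nat_lit 26) (nat_lit 40) (nat_lit 0xbc0001780002febf0) b28249 (.nil))) (.tok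 (nat_lit 55) (nat_lit 0xbc0001780003031b5) (.hit (nat_lit 27) (nat_lit 41) (nat_lit 0xbc0001780002ffeea) b28250 (.tok (nat_lit 3) (nat_lit 0xbc000178000300249) (.hit (nat_lit 33) (nat_lit 47) (nat_lit 0xbc0001780002ff6e2) b28256 (.one (nat_lit 67) (nat_lit 34) (nat_lit 48) (nat_lit 0xbc000178000300249) b28257 (.nil))) (.tok (nat_lit 6) (nat_lit 0xbc0001780003031b5) (.hit (nat_lit 28) (nat_lit 42) (nat_lit 0xbc0001780003010f1) b28251 (.hit (nat_lit 31) (nat_lit 45) (nat_lit 0xbc0001780002fe915) b28254 (.tok (nat_lit 55) (nat_lit 0xbc0001780003031b5) (.hit (nat_lit 29) (nat_lit 43) (nat_lit 0xbc0001780003016af) b28252 (.hit (nat_lit 32) (nat_lit 46) (nat_lit 0xbc000178000300605) b28255 (.one (nat_lit 6) (nat_lit 30) (nat_lit 44) (nat_lit 0xbc0001780003031b5) b28253 (.nil)))) (.nil)))) (.nil)))) (.one (nat_lit 58) (nat_lit 35) (nat_lit 49) (nat_lit 0xbc0001780002fe729) b28258 (.nil))))))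 (.nil))
noncomputable def r15_57 : Rw Blk := .tok (nat_lit 3) (nat_lit 0xbc00017f88cafe5b2) (.hit (nat_lit 0) (nat_lit 0) (nat_lit 0xbc00017f36d2fd54b) b28259 (.tok (nat_lit 6) (nat_lit 0xbc00017f1de2fddac) (.hit (nat_lit 1) (nat_lit 7) (nat_lit 0xbc00017e504afc3f9) b28260 (.hit (nat_lit 6) (nat_lit 15) (nat_lit 0xbc00017e2cf2fbf8e) b28265 (.tok (nat_lit 14) (nat_lit 0xbc00017ec98afd321) (.hit (nat_lit 2) (nat_lit 11) (nat_lit 0xbc00017ec3e2fd26c) b28261 (.hit (nat_lit 7) (nat_lit 17) (nat_lit 0xbc00017e804afc9f9) b28266 (.one (nat_lit 9) (nat_lit 3) (nat_lit 12) (nat_lit 0xbc00017ec98afd321) b28262 (.nil)))) (.tok (nat_lit 56) (nat_lit 0xbc00017f1de2fddac) (.hit (nat_lit 4) (nat_lit 13) (nat_lit 0xbc00017eec4afd779) b28263 (.hit (nat_lit 8) (nat_lit 19) (nat_lit 0xbc00017e6232fc636) b28267 (.one (nat_lit 6) (nat_lit 5) (nat_lit 14) (nat_lit 0xbc00017f1de2fddac) b28264 (.nil))))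 (.nil))))) (.tok (nat_lit 52) (nat_lit 0xbc00017ee702fd6d0) (.hit (nat_lit 9) (nat_lit 39) (nat_lit 0xbc00017ee702fd6d0) b28268 (.hit (nat_lit 10) (nat_lit 40) (nat_lit 0xbc00017ee4fafd68f) b28269 (.nil))) (.tok (nat_lit 55) (nat_lit 0xbc00017f88cafe5b2) (.hit (nat_lit 11) (nat_lit 41) (nat_lit 0xbc00017f88cafe277) b28270 (.tok (nat_lit 3) (nat_lit 0xbc00017f5e12fe5b2) (.hit (nat_lit 17) (nat_lit 47) (nat_lit 0xbc00017f2352fde5a) b28276 (.one (nat_lit 67) (nat_lit 18) (nat_lit 48) (nat_lit 0xbc00017f5e12fe5b2) b28277 (.nil))) (.tok (nat_lit 6) (nat_lit 0xbc00017f14e2fdc8c) (.hit (nat_lit 12) (nat_lit 42) (nat_lit 0xbc00017ec54afd299) b28271 (.hit (nat_lit 15) (nat_lit 45) (nat_lit 0xbc00017ed9cafd529) b28274 (.tok (nat_lit 55) (nat_lit 0xbc00017f14e2fdc8c) (.hit (nat_lit 13) (nat_lit 43) (nat_lit 0xbc00017f14e2fdc8c) b28272 (.hit (nat_lit 16) (nat_lit 46) (nat_lit 0xbc00017f0fb2fdbe6)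 b28275 (.one (nat_lit 6) (nat_lit 14) (nat_lit 44) (nat_lit 0xbc00017f02cafda49) b28273 (.nil)))) (.nil)))) (.nil)))) (.one (nat_lit 58) (nat_lit 19) (nat_lit 49) (nat_lit 0xbc00017e993afcd17) b28278 (.nil)))))) (.tok (nat_lit 9) (nat_lit 0xbc000181a5db02cde) (.hit (nat_lit 20) (nat_lit 0) (nat_lit 0xbc00017f589afe2ac) b28279 (.tok (nat_lit 9) (nat_lit 0xbc000181a5db02cde) (.hit (nat_lit 21) (nat_lit 20) (nat_lit 0xbc00017f4e4afeb53) b28280 (.hit (nat_lit 26) (nat_lit 28) (nat_lit 0xbc00017e4f22fc39c) b28285 (.tok (nat_lit 14) (nat_lit 0xbc000181a5db02cde) (.hit (nat_lit 22) (nat_lit 24) (nat_lit 0xbc000181a5db02cde) b28281 (.hit (nat_lit 27) (nat_lit 30) (nat_lit 0xbc00017f6a62fe7b5) b28286 (.one (nat_lit 6) (nat_lit 23) (nat_lit 25) (nat_lit 0xbc000180bd23010ed) b28282 (.nil)))) (.one (nat_lit 56) (nat_lit 28) (nat_lit 31) (nat_lit 0xbc00017efad2fe1d1) b28287 (.tok (nat_lit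 68) (nat_lit 0xbc0001803ceb00a58) (.hit (nat_lit 24) (nat_lit 26) (nat_lit 0xbc0001803ceb00390) b28283 (.hit (nat_lit 29) (nat_lit 32) (nat_lit 0xbc00017ed81afd799) b28288 (.one (nat_lit 9) (nat_lit 25) (nat_lit 27) (nat_lit 0xbc00017f878b00a58) b28284 (.nil)))) (.nil)))))) (.nil))) (.nil))
noncomputable def r15_58 : Rw Blk := .tok (nat_lit 3) (nat_lit 0xbc0001780002feef0) (.hit (nat_lit 0) (nat_lit 0) (nat_lit 0xbc0001780002fe411) b8609 (.tok (nat_lit 6) (nat_lit 0xbc0001780002fe483) (.hit (nat_lit 1) (nat_lit 7) (nat_lit 0xbc0001780002fca57) b8610 (.hit (nat_lit 6) (nat_lit 15) (nat_lit 0xbc0001780002fc62b) b8615 (.tok (nat_lit 14) (nat_lit 0xbc0001780002fdbf0) (.hit (nat_lit 2) (nat_lit 11) (nat_lit 0xbc0001780002fdbf0) b8611 (.hit (nat_lit 7) (nat_lit 17) (nat_lit 0xbc0001780002fd200) b8616 (.one (nat_lit 9) (nat_lit 3) (nat_lit 12) (nat_lit 0xbc0001780002fdaaa) b8612 (.nil))))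 (.tok (nat_lit 56) (nat_lit 0xbc0001780002fe483) (.hit (nat_lit 4) (nat_lit 13) (nat_lit 0xbc0001780002fdf68) b8613 (.hit (nat_lit 8) (nat_lit 19) (nat_lit 0xbc0001780002fd0d0) b8617 (.one (nat_lit 6) (nat_lit 5) (nat_lit 14) (nat_lit 0xbc0001780002fe483) b8614 (.nil)))) (.nil))))) (.tok (nat_lit 52) (nat_lit 0xbc0001780002fe10e) (.hit (nat_lit 9) (nat_lit 39) (nat_lit 0xbc0001780002fe10e) b8618 (.hit (nat_lit 10) (nat_lit 40) (nat_lit 0xbc0001780002fdd46) b8619 (.nil))) (.tok (nat_lit 55) (nat_lit 0xbc0001780002feef0) (.hit (nat_lit 11) (nat_lit 41) (nat_lit 0xbc0001780002feef0) b8620 (.tok (nat_lit 3) (nat_lit 0xbc0001780002fe593) (.hit (nat_lit 17) (nat_lit 47) (nat_lit 0xbc0001780002fe593) b8626 (.one (nat_lit 67) (nat_lit 18) (nat_lit 48) (nat_lit 0xbc0001780002fe0ee) b8627 (.nil))) (.tok (nat_lit 6) (nat_lit 0xbc0001780002fec81) (.hit (nat_lit 12) (nat_lit 42) (nat_lit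 0xbc0001780002fe97b) b8621 (.hit (nat_lit 15) (nat_lit 45) (nat_lit 0xbc0001780002fd8a5) b8624 (.tok (nat_lit 55) (nat_lit 0xbc0001780002fec81) (.hit (nat_lit 13) (nat_lit 43) (nat_lit 0xbc0001780002feab4) b8622 (.hit (nat_lit 16) (nat_lit 46) (nat_lit 0xbc0001780002fdea6) b8625 (.one (nat_lit 6) (nat_lit 14) (nat_lit 44) (nat_lit 0xbc0001780002fec81) b8623 (.nil)))) (.nil)))) (.nil)))) (.one (nat_lit 58) (nat_lit 19) (nat_lit 49) (nat_lit 0xbc0001780002fdbf7) b8628 (.nil)))))) (.tok (nat_lit 9) (nat_lit 0xbc000178000300000) (.hit (nat_lit 20) (nat_lit 0) (nat_lit 0xbc0001780002fe5ca) b8629 (.tok (nat_lit 9) (nat_lit 0xbc000178000300000) (.hit (nat_lit 21) (nat_lit 20) (nat_lit 0xbc0001780002fe116) b8630 (.hit (nat_lit 26) (nat_lit 28) (nat_lit 0xbc0001780002fd333) b8635 (.tok (nat_lit 14) (nat_lit 0xbc000178000300000) (.hit (nat_lit 22) (nat_lit 24) (nat_lit 0xbc000178000300000)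 b8631 (.hit (nat_lit 27) (nat_lit 30) (nat_lit 0xbc0001780002fef00) b8636 (.one (nat_lit 6) (nat_lit 23) (nat_lit 25) (nat_lit 0xbc0001780002ffdb3) b8632 (.nil)))) (.one (nat_lit 56) (nat_lit 28) (nat_lit 31) (nat_lit 0xbc0001780002feafd) b8637 (.tok (nat_lit 68) (nat_lit 0xbc0001780002fee80) (.hit (nat_lit 24) (nat_lit 26) (nat_lit 0xbc0001780002fee80) b8633 (.hit (nat_lit 29) (nat_lit 32) (nat_lit 0xbc0001780002fe24a) b8638 (.one (nat_lit 9) (nat_lit 25) (nat_lit 27) (nat_lit 0xbc0001780002fe9d7) b8634 (.nil)))) (.nil)))))) (.nil))) (.nil))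
noncomputable def r15_59 : Rw Blk := .tok (nat_lit 6) (nat_lit 0xbc0001780002ff6d9) (.hit (nat_lit 11) (nat_lit 0) (nat_lit 0xbc0001780002fdf6e) b8650 (.tok (nat_lit 3) (nat_lit 0xbc0001780002ff6d9) (.hit (nat_lit 12) (nat_lit 1) (nat_lit 0xbc0001780002fd50d) b8651 (.one (nat_lit 14) (nat_lit 13) (nat_lit 4) (nat_lit 0xbc0001780002ff6d9) b8652 (.one (nat_lit 56) (nat_lit 15) (nat_lit 6) (nat_lit 0xbc0001780002fe963) b8653 (.one (nat_lit 68) (nat_lit 14) (nat_lit 5) (nat_lit 0xbc0001780002fe778) b8654 (.nil))))) (.nil))) (.tok (nat_lit 9) (nat_lit 0xbc000178000300000) (.hit (nat_lit 0) (nat_lit 0) (nat_lit 0xbc0001780002ff173) b8639 (.tok (nat_lit 3) (nat_lit 0xbc0001780002fefbb) (.hit (nat_lit 1) (nat_lit 1) (nat_lit 0xbc0001780002fd927) b8640 (.one (nat_lit 14) (nat_lit 2) (nat_lit 4) (nat_lit 0xbc0001780002fefbb) b8641 (.one (nat_lit 56) (nat_lit 4) (nat_lit 6) (nat_lit 0xbc0001780002fed23)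 b8642 (.one (nat_lit 68) (nat_lit 3) (nat_lit 5) (nat_lit 0xbc0001780002fed92) b8643 (.nil))))) (.tok (nat_lit 40) (nat_lit 0xbc0001780002fdfbe) (.hit (nat_lit 5) (nat_lit 33) (nat_lit 0xbc0001780002fdef8) b8644 (.hit (nat_lit 6) (nat_lit 34) (nat_lit 0xbc0001780002fdfbe) b8645 (.nil))) (.tok (nat_lit 43) (nat_lit 0xbc000178000300000) (.hit (nat_lit 7) (nat_lit 35) (nat_lit 0xbc0001780002fd94d) b8648 (.hit (nat_lit 8) (nat_lit 36) (nat_lit 0xbc000178000300000) b8649 (.nil))) (.tok (nat_lit 46) (nat_lit 0xbc0001780002fef53) (.hit (nat_lit 9) (nat_lit 37) (nat_lit 0xbc0001780002fef53) b8646 (.hit (nat_lit 10) (nat_lit 38) (nat_lit 0xbc0001780002fe515) b8647 (.nil))) (.nil)))))) (.nil))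
noncomputable def r15_60 : Rw Blk := .tok (nat_lit 3) (nat_lit 0x5e0000bc00017f1ebafdcbf) (.hit (nat_lit 14) (nat_lit 0) (nat_lit 0x5e0000bc00017f1ebafdcbf) b28303 (.tok (nat_lit 6) (nat_lit 0x5e0000bc00017eeb12fd78a) (.hit (nat_lit 15) (nat_lit 7) (nat_lit 0x5e0000bc00017eeb12fd78a) b28304 (.hit (nat_lit 16) (nat_lit 15) (nat_lit 0x5e0000bc00017eea9afd77b) b28305 (.nil))) (.tok (nat_lit 9) (nat_lit 0x5e0000bc00017dfd2afb9cd) (.hit (nat_lit 17) (nat_lit 20) (nat_lit 0x5e0000bc00017dfd2afb9cd) b28306 (.hit (nat_lit 18) (nat_lit 28) (nat_lit 0x5e0000bc00017d9b32fad8e) b28307 (.nil))) (.nil)))) (.tok (nat_lit 6) (nat_lit 0x5e0000bc00017fb9eaff128) (.hit (nat_lit 9) (nat_lit 0) (nat_lit 0x5e0000bc00017f4952fe258) b28298 (.tok (nat_lit 3) (nat_lit 0x5e0000bc00017fb9eaff128) (.hit (nat_lit 10) (nat_lit 1) (nat_lit 0x5e0000bc00017ef8f2fd969) b28299 (.one (nat_lit 67) (nat_lit 11) (nat_lit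 2) (nat_lit 0x5e0000bc00017fb9eaff128) b28300 (.nil))) (.tok (nat_lit 6) (nat_lit 0x5e0000bc00017f79dafe954) (.hit (nat_lit 12) (nat_lit 7) (nat_lit 0x5e0000bc00017f79dafe954) b28301 (.hit (nat_lit 13) (nat_lit 15) (nat_lit 0x5e0000bc00017f18aafdcb9) b28302 (.nil))) (.nil)))) (.tok (nat_lit 9) (nat_lit 0x5e0000bc000180000300000) (.hit (nat_lit 0) (nat_lit 0) (nat_lit 0x5e0000bc00017f9722ff201) b28289 (.tok (nat_lit 3) (nat_lit 0x5e0000bc0001800002ff011) (.hit (nat_lit 1) (nat_lit 1) (nat_lit 0x5e0000bc00017f3212fd6e5) b28290 (.one (nat_lit 55) (nat_lit 2) (nat_lit 3) (nat_lit 0x5e0000bc0001800002ff011) b28291 (.nil))) (.tok (nat_lit 9) (nat_lit 0x5e0000bc00017ffb4300000) (.hit (nat_lit 3) (nat_lit 20) (nat_lit 0x5e0000bc00017fafaafe776) b28292 (.hit (nat_lit 7) (nat_lit 28) (nat_lit 0x5e0000bc00017f2d2afdb1a) b28296 (.tok (nat_lit 67) (nat_lit 0x5e0000bc00017ffb4300000) (.hit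 (nat_lit 4) (nat_lit 21) (nat_lit 0x5e0000bc00017ff9aaffcae) b28293 (.hit (nat_lit 8) (nat_lit 29) (nat_lit 0x5e0000bc00017fcbc2ff0d1) b28297 (.tok (nat_lit 9) (nat_lit 0x5e0000bc00017ffb4300000) (.hit (nat_lit 5) (nat_lit 22) (nat_lit 0x5e0000bc00017fb9a2fef1a) b28294 (.one (nat_lit 67) (nat_lit 6) (nat_lit 23) (nat_lit 0x5e0000bc00017ffb4300000) b28295 (.nil))) (.nil)))) (.nil)))) (.nil)))) (.nil)))
noncomputable def r15_61 : Rw Blk := .tok (nat_lit 9) (nat_lit 0x3000005fd44cbfb0297f7dd3007075fdfe6bfcc457fa8cafff78) (.hit (nat_lit 157) (nat_lit 0) (nat_lit 0x2fddac5fb1a0bf620d7efd4afe0ea5fbf34bf98d57f1cdafe162) b28308 (.tok (nat_lit 14) (nat_lit 0x3000005fd1d6bfb0297f57f2ffe465fdfe6bfa88d7f9b8afff78) (.hit (nat_lit 193) (nat_lit 61) (nat_lit 0x2ff2aa5fcf76bfb0297f36caff37c5fcdb2bfa88d7f56d2fff78) b28309 (.one (nat_lit 3) (nat_lit 194) (nat_lit 62) (nat_lit 0x2fe5045fb3a2bf9c4d7e6192fef205faad8bf3df17ebb42febf0)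 b28310 (.tok (nat_lit 6) (nat_lit 0x3000005fd1d6bfac7d7f57f2ffe465fdfe6bf822d7f9b8aff9d3) (.hit (nat_lit 197) (nat_lit 65) (nat_lit 0x3000005fd1d6bf937d7f57f2ffe465fdfe6bf822d7f9b8aff9d3) b28313 (.hit (nat_lit 198) (nat_lit 66) (nat_lit 0x2fe22e5fa342bfac7d7e8272feaaa5faa0abf4e617ebb5afebed) b28314 (.nil))) (.tok (nat_lit 9) (nat_lit 0x2fe7e35fb150bf89417edbcafeed55fb6f2bf7b0d7efbd2ff02f) (.hit (nat_lit 195) (nat_lit 63) (nat_lit 0x2fcf795f80f6bf68697edbcafdce65fb6f2bf7b0d7efbd2fdddd) b28311 (.hit (nat_lit 196) (nat_lit 64) (nat_lit 0x2fe7e35fb150bf89417e7d52feed55fb6babf43d97ee84aff02f) b28312 (.nil))) (.nil))))) (.one (nat_lit 17) (nat_lit 199) (nat_lit 67) (nat_lit 0x2fd79e5fa348bf67217e28fafe6645f8f44bf21a57e504afdfbb) b28315 (.tok (nat_lit 20) (nat_lit 0x2fd5f55f8876bf57d57ec522fdc995fb148bf6fb97ee52afde12) (.hit (nat_lit 200) (nat_lit 68) (nat_lit 0x2fcca45f7b4cbf57d57ec522fda115fb148bf6fb97ee52afdb08)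 b28316 (.hit (nat_lit 201) (nat_lit 69) (nat_lit 0x2fd5f55f8876bf2aa57e08cafdc995f8c0abf118d7e4302fde12) b28317 (.nil))) (.tok (nat_lit 23) (nat_lit 0x2fe9c45fc99ebf8f557ee3db007075fce78bf5d0d7f5502ff878) (.hit (nat_lit 202) (nat_lit 70) (nat_lit 0x2fe9c45fc99ebf8f557ee3db007075fce78bf5d0d7f5502ff878) b28318 (.hit (nat_lit 203) (nat_lit 71) (nat_lit 0x2fd6c85f85aebf81017e0962fdd655f8daebf11d97e4962fdee2) b28319 (.nil))) (.one (nat_lit 26) (nat_lit 204) (nat_lit 72) (nat_lit 0x2fcda05f7360bf19c57da112fd4445f7b52beddb17e005afd5bd) b28320 (.one (nat_lit 29) (nat_lit 205) (nat_lit 73) (nat_lit 0x2fcf4d5f85b6bf3ce57da01afdc3d5f7ebcbed9457e0dc2fd76a) b28321 (.one (nat_lit 32) (nat_lit 206) (nat_lit 74) (nat_lit 0x2fd62e5f92e2bf4ebd7dd71afe3535f8c7ebed4917e44cafde4b) b28322 (.one (nat_lit 35) (nat_lit 207) (nat_lit 75) (nat_lit 0x2fc25d5f66dcbf54417dc22afcdf95f708abeee3d7de232fca7a)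 b28323 (.one (nat_lit 38) (nat_lit 208) (nat_lit 76) (nat_lit 0x2fd2a45f8772bf54ed7e2fd2fde545f8bf4bf25117e4fdafdab4) b28324 (.tok (nat_lit 41) (nat_lit 0x2fd7995fa332bf68797de352fe6fa5f8f58befed17e5102fdfb6) (.hit (nat_lit 209) (nat_lit 77) (nat_lit 0x2fcda65f8f22bf4d0d7d94c2fda555f7bfabea9517e004afdd29) b28325 (.hit (nat_lit 210) (nat_lit 78) (nat_lit 0x2fd7995fa332bf68797de352fe6fa5f8f58befed17e5102fdfb6) b28326 (.nil))) (.tok (nat_lit 44) (nat_lit 0x2fd7385f9198bf3e0d7e2752fe2e75f8e92bf20d17e4de2fdf55) (.hit (nat_lit 211) (nat_lit 79) (nat_lit 0x2fb8ea5f53d8bf1ad17e2752fc6575f89d4bf20d17e475afc74e) b28327 (.hit (nat_lit 212) (nat_lit 80) (nat_lit 0x2fd7385f9198bf3e0d7df702fe2e75f8e92bf08a97e4de2fdf55) b28328 (.nil))) (.tok (nat_lit 47) (nat_lit 0x2fdc135fb7febf89ad7deb02fe7ab5fae1abee7797ee08afe1af) (.hit (nat_lit 213) (nat_lit 81) (nat_lit 0x2fdc135fb7febf89ad7deb02fe7ab5fae1abee7797ee08afe1af)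 b28329 (.hit (nat_lit 214) (nat_lit 82) (nat_lit 0x2fd34c5f7ee4bf48117dc00afda045f86b6bee7057e2d82fdb69) b28330 (.nil))) (.one (nat_lit 50) (nat_lit 215) (nat_lit 83) (nat_lit 0x2fd1835f7df4bf45157e0e2afd97d5f838abf143d7e2e32fd9a0) b28331 (.tok (nat_lit 53) (nat_lit 0x2fdaf85faea0bf607d7e00cafe6cd5f969cbf086d7e6c42fe701) (.hit (nat_lit 216) (nat_lit 84) (nat_lit 0x2fdaf85faea0bf607d7e00cafe6cd5f969cbf086d7e6c42fe701) b28332 (.hit (nat_lit 217) (nat_lit 85) (nat_lit 0x2fd4db5f926ebf473d7dd56afe1f05f89d8bef7dd7e3a32fdcf7) b28333 (.nil))) (.tok (nat_lit 56) (nat_lit 0x2fdfdd5fb056bf9a4d7f03f2fe66f5fbceabfb0457f13b2fea65) (.hit (nat_lit 218) (nat_lit 86) (nat_lit 0x2fdfdd5fb056bf9a4d7f03f2fe66f5fbceabfb0457f13b2fea65) b28334 (.one (nat_lit 3) (nat_lit 222) (nat_lit 90) (nat_lit 0x2fc1c85f6594bf69a57e6e42fcf355f9b90bf44497e8e4afd02c) b28338 (.tok (nat_lit 6) (nat_lit 0x2fce235f7e4abf98997ed11afdb905fb446bf75b57ef122fdc87)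 (.hit (nat_lit 220) (nat_lit 88) (nat_lit 0x2fc58d5f6d1ebf94917e8c6afd2fa5fa31abf535d7eac72fd3f1) b28336 (.hit (nat_lit 221) (nat_lit 89) (nat_lit 0x2fce235f7e4abf98997ed11afdb905fb446bf75b57ef122fdc87) b28337 (.nil))) (.one (nat_lit 9) (nat_lit 219) (nat_lit 87) (nat_lit 0x2fccf75f7bf2bf7b757ec7bafda645fb1eebf71057ee7c2fdb5b) b28335 (.nil))))) (.one (nat_lit 59) (nat_lit 223) (nat_lit 91) (nat_lit 0x2fcb365f76e0bf1bd57d7f5afd5085f7676bec1917ded0afd353) b28339 (.one (nat_lit 62) (nat_lit 224) (nat_lit 92) (nat_lit 0x2fdbcb5f97a8bf64117e03eafe6545f97a8bf0d317e719afe3e5) b28340 (.tok (nat_lit 65) (nat_lit 0x2fdcc35fc492bf97d97e96f2ff5635fada4bf58a17ec942fef23) (.hit (nat_lit 225) (nat_lit 93) (nat_lit 0x2fdcc35fc492bf97d97e96f2ff5635fada4bf58a17ec942fef23) b28341 (.hit (nat_lit 226) (nat_lit 94) (nat_lit 0x2fd8825f98b6bf66bd7e032afe6f25f9128bf0ebd7e576afe095) b28342 (.nil))) (.tok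 (nat_lit 68) (nat_lit 0x2ff39a5fd44cbfa5a17f7dd2ffc525fdea2bfcc457fa8caff9cf) (.hit (nat_lit 227) (nat_lit 95) (nat_lit 0x2ff3835fd44cbf94817f7dd2ff43a5fda28bfcc457f7b6aff57e) b28343 (.one (nat_lit 3) (nat_lit 231) (nat_lit 99) (nat_lit 0x2fe7df5fb196bf76697ea962feddb5fb46abf61d97f1f0afe33d) b28347 (.one (nat_lit 6) (nat_lit 228) (nat_lit 96) (nat_lit 0x2ff0c45fd18cbf924d7f179aff8be5fdea2bf98f57fa8caff860) b28344 (.tok (nat_lit 9) (nat_lit 0x2ff39a5fb9a0bfa5a17f114affc525fcb70bf7c117f214aff9cf) (.hit (nat_lit 229) (nat_lit 97) (nat_lit 0x2ff39a5fb9a0bfa5a17f114affc525fcb70bf7c117f214aff9cf) b28345 (.hit (nat_lit 230) (nat_lit 98) (nat_lit 0x2fd99f5fb768bf91d17e6d22fe6975f9b48bf43b97e8d2afe08b) b28346 (.nil))) (.nil))))) (.one (nat_lit 71) (nat_lit 232) (nat_lit 100) (nat_lit 0x2fd4bb5f835abf4b957dcb82fdb5f5f8982bec1917e3932fdcd8) b28348 (.nil)))))))))))))))))))))) (.tok (nat_lit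 14) (nat_lit 0x2fca4f5f7426bf49b97ea232fd2795fa88cbf529d7ea04afd26c) (.hit (nat_lit 233) (nat_lit 0) (nat_lit 0x2fca4f5f7426bf49b97ea232fd2795fa88cbf529d7ea04afd26c) b28349 (.one (nat_lit 3) (nat_lit 234) (nat_lit 1) (nat_lit 0x2f9e125f1bacbefb3d7d1e5afa5385f4796be9c557d3e62fa62f) b28350 (.tok (nat_lit 6) (nat_lit 0x2fc6795f6c7abf38317e6192fcd9f5f9864bf3df17e819afce96) (.hit (nat_lit 235) (nat_lit 7) (nat_lit 0x2fc31b5f65bebf2b557e46a2fca415f91a8bf30797e66aafcb38) b28351 (.hit (nat_lit 236) (nat_lit 15) (nat_lit 0x2fc6795f6c7abf38317e6192fcd9f5f9864bf3df17e819afce96) b28352 (.nil))) (.tok (nat_lit 9) (nat_lit 0x2fc6795f6c7abf38317e6192fcd9f5f9864bf3df17e819afce96) (.hit (nat_lit 237) (nat_lit 20) (nat_lit 0x2fc31b5f65bebf2b557e46a2fca415f91a8bf30797e66aafcb38) b28351 (.hit (nat_lit 238) (nat_lit 28) (nat_lit 0x2fc6795f6c7abf38317e6192fcd9f5f9864bf3df17e819afce96) b28352 (.nil)))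 (.nil))))) (.tok (nat_lit 17) (nat_lit 0x2fd1f45f7e18bf37e97f4d82fdfba5fd360bf86e97ed2fafdab8) (.hit (nat_lit 239) (nat_lit 0) (nat_lit 0x2fd1f45f7d98bf24fd7f4d82fdfba5fd360bf86e97ed2fafdab8) b28353 (.one (nat_lit 3) (nat_lit 240) (nat_lit 1) (nat_lit 0x2fa9585f3238bf17617d788afb07e5f5e22bec96d7d9892fb175) b28354 (.tok (nat_lit 6) (nat_lit 0x2fcf485f7e18bf37e97ea80afd66e5faa02bf612d7ec812fd765) (.hit (nat_lit 241) (nat_lit 7) (nat_lit 0x2fc9735f726ebf227d7e7962fd0995f9e58bf49d97e996afd190) b28355 (.hit (nat_lit 242) (nat_lit 15) (nat_lit 0x2fcf485f7e18bf37e97ea80afd66e5faa02bf612d7ec812fd765) b28356 (.nil))) (.tok (nat_lit 9) (nat_lit 0x2fcf485f7e18bf37e97ea80afd66e5faa02bf612d7ec812fd765) (.hit (nat_lit 243) (nat_lit 20) (nat_lit 0x2fc9735f726ebf227d7e7962fd0995f9e58bf49d97e996afd190) b28355 (.hit (nat_lit 244) (nat_lit 28) (nat_lit 0x2fcf485f7e18bf37e97ea80afd66e5faa02bf612d7ec812fd765)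 b28356 (.nil))) (.nil))))) (.tok (nat_lit 20) (nat_lit 0x2fe1c75fb4d6bf7fdd7fa442fd1535fe902bfa0017f455afe613) (.hit (nat_lit 245) (nat_lit 0) (nat_lit 0x2fe1c75fb4d6bf69c97fa442fcd985fe902bfa0017f455afe613) b28357 (.one (nat_lit 3) (nat_lit 246) (nat_lit 1) (nat_lit 0x2fd0b45f7a78bf35c17f6792fad365fd9d8bf66197edfc2fd8d1) b28358 (.tok (nat_lit 6) (nat_lit 0x2fd07d5f79febf40497f66bafcf2c5fd9acbf653d7ede0afd89a) (.hit (nat_lit 247) (nat_lit 7) (nat_lit 0x2fbaff5f5586bf39ed7e05c2fc2255f8170bf10097e25cafc31c) b28359 (.hit (nat_lit 248) (nat_lit 15) (nat_lit 0x2fd07d5f79febf40497f66bafcf2c5fd9acbf653d7ede0afd89a) b28360 (.nil))) (.tok (nat_lit 9) (nat_lit 0x2fd3065f8172bf7fdd7f5812fd1535fdbd6bf6ed57ef22afdcca) (.hit (nat_lit 249) (nat_lit 20) (nat_lit 0x2fd3065f8172bf7fdd7f57f2fc9175fdbd6bf6ed57ef22afdcca) b28361 (.hit (nat_lit 250) (nat_lit 28) (nat_lit 0x2fce955f75a8bf5b6d7f5812fd1535fd600bf5d9d7ececafd6b2)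 b28362 (.nil))) (.nil))))) (.tok (nat_lit 23) (nat_lit 0x2fe1c75fb4d6bf7fdd7fa6eafe5d25ff006bf4cc17f460afe61c) (.hit (nat_lit 251) (nat_lit 0) (nat_lit 0x2fe1c75fb4d6bf69c97fa6eafe5d25ff006bf3dd57f460afe61c) b28363 (.one (nat_lit 3) (nat_lit 252) (nat_lit 1) (nat_lit 0x2fd0b45f7a78bf35c17f68eafd7585fda34bebc4d7edfc2fd8d1) b28364 (.tok (nat_lit 6) (nat_lit 0x2fd3065f8172bf7fdd7f7b8afd9875fdee2bf4cc17ef22afdcca) (.hit (nat_lit 253) (nat_lit 7) (nat_lit 0x2fd3065f8172bf7fdd7f7b8afd9875fdee2bf2bd17ef22afdcca) b28365 (.hit (nat_lit 254) (nat_lit 15) (nat_lit 0x2fce955f75a8bf5b6d7f5922fd5395fd648bf4cc17ececafd6b2) b28366 (.nil))) (.tok (nat_lit 9) (nat_lit 0x2fd07d5f79febf40497f684afd7215fda06bf44257ede0afd89a) (.hit (nat_lit 255) (nat_lit 20) (nat_lit 0x2fbaff5f5586bf39ed7e05c2fc2255f8170bf10097e25cafc31c) b28359 (.hit (nat_lit 256) (nat_lit 28) (nat_lit 0x2fd07d5f79febf40497f684afd7215fda06bf44257ede0afd89a)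 b28367 (.nil))) (.nil))))) (.tok (nat_lit 26) (nat_lit 0x2fdb425f9dc2bf5b797ef42aff14a5fbd06bfcddd7ec0bafe364) (.hit (nat_lit 257) (nat_lit 0) (nat_lit 0x2fdb425f9dc2bf5b797ef42aff14a5fbd06bfcddd7ec0bafe364) b28368 (.one (nat_lit 3) (nat_lit 258) (nat_lit 1) (nat_lit 0x2fa37a5f267cbea99d7d499afaaa05f5266beb1f57d69a2fab97) b28369 (.tok (nat_lit 6) (nat_lit 0x2fcae15f754abf1e8d7e84d2fd2075fa134bf4f917ea4dafd2fe) (.hit (nat_lit 259) (nat_lit 7) (nat_lit 0x2fcae15f754abf1e8d7e84d2fd2075fa134bf4f917ea4dafd2fe) b28370 (.hit (nat_lit 260) (nat_lit 15) (nat_lit 0x2fb4e55f4952bed2a57dd4f2fbc0b5f753cbef7a17df4fafbd02) b28371 (.nil))) (.tok (nat_lit 9) (nat_lit 0x2fcae15f754abf1e8d7e84d2fd2075fa134bf4f917ea4dafd2fe) (.hit (nat_lit 261) (nat_lit 20) (nat_lit 0x2fcae15f754abf1e8d7e84d2fd2075fa134bf4f917ea4dafd2fe) b28370 (.hit (nat_lit 262) (nat_lit 28) (nat_lit 0x2fb4e55f4952bed2a57dd4f2fbc0b5f753cbef7a17df4fafbd02)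 b28371 (.nil))) (.nil))))) (.tok (nat_lit 29) (nat_lit 0x2fd5845f8a90bf8e557ed9eafdcaa5fb67abf7a1d7ef9f2fdda1) (.hit (nat_lit 263) (nat_lit 0) (nat_lit 0x2fcfbc5f77a4bf47997e98aafd67d5fa62abf62ad7e7392fd7f6) b28372 (.one (nat_lit 3) (nat_lit 264) (nat_lit 1) (nat_lit 0x2fa7355f2df2bf16ad7d6772fae5b5f59dcbec0e17d877afaf52) b28373 (.tok (nat_lit 6) (nat_lit 0x2fd5845f8a90bf8e557ed9eafdcaa5fb67abf7a1d7ef9f2fdda1) (.hit (nat_lit 265) (nat_lit 7) (nat_lit 0x2fc5f75f6b76bf8e557e5d82fcd1d5f9760bf3be97e7d8afce14) b28374 (.hit (nat_lit 266) (nat_lit 15) (nat_lit 0x2fd5845f8a90bf59c97ed9eafdcaa5fb67abf7a1d7ef9f2fdda1) b28375 (.nil))) (.tok (nat_lit 9) (nat_lit 0x2fd5845f8a90bf8e557ed9eafdcaa5fb67abf7a1d7ef9f2fdda1) (.hit (nat_lit 267) (nat_lit 20) (nat_lit 0x2fc5f75f6b76bf8e557e5d82fcd1d5f9760bf3be97e7d8afce14) b28374 (.hit (nat_lit 268) (nat_lit 28) (nat_lit 0x2fd5845f8a90bf59c97ed9eafdcaa5fb67abf7a1d7ef9f2fdda1)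 b28375 (.nil))) (.nil))))) (.tok (nat_lit 32) (nat_lit 0x2fd5885fa6bebf8b857ec5f2fdffe5fb17cbf799d7eb23afd4aa) (.hit (nat_lit 269) (nat_lit 0) (nat_lit 0x2fd5885fa6bebf8b857ec5f2fdffe5fb17cbf799d7e91bafcfc8) b28376 (.one (nat_lit 3) (nat_lit 270) (nat_lit 1) (nat_lit 0x2fa8a85f30d8bf08617d730afafce5f5cc2bec6ad7d9312fb0c5) b28377 (.tok (nat_lit 6) (nat_lit 0x2fcc8d5f78a2bf83e97e9232fd3b35fa48cbf56417eb23afd4aa) (.hit (nat_lit 271) (nat_lit 7) (nat_lit 0x2fcc8d5f78a2bf40757e9232fd3b35fa48cbf56417eb23afd4aa) b28378 (.hit (nat_lit 272) (nat_lit 15) (nat_lit 0x2fc9035f718ebf83e97e75e2fd0295f9d78bf48197e95eafd120) b28379 (.nil))) (.tok (nat_lit 9) (nat_lit 0x2fc0cf5f6126bf670d7e3442fc7f55f8d10bf27497e544afc8ec) (.hit (nat_lit 273) (nat_lit 20) (nat_lit 0x2fc0cf5f6126bf670d7e3442fc7f55f8d10bf27497e544afc8ec) b28380 (.hit (nat_lit 274) (nat_lit 28) (nat_lit 0x2fb3c75f4716bf10ed7dcc02fbaed5f7300bef3297dec0afbbe4)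 b28381 (.nil))) (.nil))))) (.tok (nat_lit 35) (nat_lit 0x2fd5885fa6bebf8b857eed9afdc755fb17cbf89b57eb23afd4aa) (.hit (nat_lit 275) (nat_lit 0) (nat_lit 0x2fd5885fa6bebf8b857eed9afdc755fb17cbf89b57e91bafcfc8) b28382 (.one (nat_lit 3) (nat_lit 276) (nat_lit 1) (nat_lit 0x2fa8a85f30d8bf08617d730afafce5f5cc2bec6ad7d9312fb0c5) b28377 (.tok (nat_lit 6) (nat_lit 0x2fc0cf5f6126bf670d7e3442fc7f55f8d10bf27497e544afc8ec) (.hit (nat_lit 277) (nat_lit 7) (nat_lit 0x2fc0cf5f6126bf670d7e3442fc7f55f8d10bf27497e544afc8ec) b28380 (.hit (nat_lit 278) (nat_lit 15) (nat_lit 0x2fb3c75f4716bf10ed7dcc02fbaed5f7300bef3297dec0afbbe4) b28381 (.nil))) (.tok (nat_lit 9) (nat_lit 0x2fcc8d5f78a2bf83e97e9232fd3b35fa48cbf56417eb23afd4aa) (.hit (nat_lit 279) (nat_lit 20) (nat_lit 0x2fcc8d5f78a2bf40757e9232fd3b35fa48cbf56417eb23afd4aa) b28378 (.hit (nat_lit 280) (nat_lit 28) (nat_lit 0x2fc9035f718ebf83e97e75e2fd0295f9d78bf48197e95eafd120)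 b28379 (.nil))) (.nil))))) (.tok (nat_lit 38) (nat_lit 0x2fdf8f5f9d7abf64897fbff2ff2975feffcbfc9797f4a12fe7a5) (.hit (nat_lit 281) (nat_lit 0) (nat_lit 0x2fdf8f5f9d7abf64897fbff2ff2975feffcbfc9797f4a12fe7a5) b28383 (.one (nat_lit 3) (nat_lit 282) (nat_lit 1) (nat_lit 0x2fa7b65f2ef4bea9757d6b7afaedc5f5adebec2e57d8b82fafd3) b28384 (.tok (nat_lit 6) (nat_lit 0x2fb9195f51babf07ed7df692fc03f5f7da4bf08717e169afc136) (.hit (nat_lit 283) (nat_lit 7) (nat_lit 0x2fb9195f51babf07ed7df692fc03f5f7da4bf08717e169afc136) b28385 (.hit (nat_lit 284) (nat_lit 15) (nat_lit 0x2fb3245f45d0bed46d7dc6eafba4a5f71babef09d7de6f2fbb41) b28386 (.nil))) (.tok (nat_lit 9) (nat_lit 0x2fb9195f51babf07ed7df692fc03f5f7da4bf08717e169afc136) (.hit (nat_lit 285) (nat_lit 20) (nat_lit 0x2fb9195f51babf07ed7df692fc03f5f7da4bf08717e169afc136) b28385 (.hit (nat_lit 286) (nat_lit 28) (nat_lit 0x2fb3245f45d0bed46d7dc6eafba4a5f71babef09d7de6f2fbb41)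 b28386 (.nil))) (.nil))))) (.tok (nat_lit 41) (nat_lit 0x2fe5655fd41ebfa5f97feef2ffec95ffbbcbff64d7f8d32fdbe3) (.hit (nat_lit 292) (nat_lit 0) (nat_lit 0x2fd3c75f9f1ebf4a557f65c2fe1635fd970bf8e357f32bafdbe3) b28387 (.one (nat_lit 3) (nat_lit 293) (nat_lit 1) (nat_lit 0x2fccdc5f82c8bf10097f2a92fd7c15fcaa4bf67b97eb4b2fb089) b28388 (.tok (nat_lit 6) (nat_lit 0x2fe5655fd41ebfa5f97fc9c2fe5c95ff26ebff64d7f8d32fd8c6) (.hit (nat_lit 294) (nat_lit 7) (nat_lit 0x2fe5655fd41ebfa5f97fc9c2fe5c95ff26ebff64d7f8d32fc2ef) b28389 (.hit (nat_lit 295) (nat_lit 15) (nat_lit 0x2fd0a95f852abf41217f40aafdb7b5fd026bf79757ed31afd8c6) b28390 (.nil))) (.tok (nat_lit 9) (nat_lit 0x2fe5655fd41ebfa5f97feef2ffec95ffbbcbf9e457f8d32fd8c6) (.hit (nat_lit 296) (nat_lit 20) (nat_lit 0x2fe5655fd41ebfa5f97feef2ffec95ffbbcbf9e457f8d32fc2ef) b28391 (.hit (nat_lit 297) (nat_lit 28) (nat_lit 0x2fd0a95f852abf41217f41bafdc365fd06ebf76a17ed31afd8c6)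 b28392 (.nil))) (.nil))))) (.tok (nat_lit 44) (nat_lit 0x2fe83e5fc940bf629d7fe7fafeac55ff906bfe3c97f9992fea73) (.hit (nat_lit 306) (nat_lit 0) (nat_lit 0x2fe5665fb25cbf58b57fb6b2feac55fdc78bf82f57f93c2fe29d) b28393 (.one (nat_lit 3) (nat_lit 307) (nat_lit 1) (nat_lit 0x2fc1085f6834bed5617ecbf2fac365fb2fcbf3af97e5612fc925) b28394 (.tok (nat_lit 6) (nat_lit 0x2fdccf5f93a0bf5f897fa922fc6625fea48bf96017f3342fe4cb) (.hit (nat_lit 308) (nat_lit 7) (nat_lit 0x2fdccf5f93a0bf5f897fa922fc6625fea48bf96017f3342fe4cb) b28395 (.hit (nat_lit 309) (nat_lit 15) (nat_lit 0x2fc9fd5f828cbf0b717f139afb8c75fc4e6bf6c817e9dbafd21a) b28396 (.nil))) (.tok (nat_lit 9) (nat_lit 0x2fe83e5fc940bf629d7fe7fafd6c15ff906bfe3c97f9992fea73) (.hit (nat_lit 310) (nat_lit 20) (nat_lit 0x2fe83e5fc940bf629d7fe7fafd0d95ff906bfe3c97f9992fea73) b28397 (.hit (nat_lit 311) (nat_lit 28) (nat_lit 0x2fcf9b5f84bcbf412d7f28a2fd6c15fca24bf7e457ecaaafd7b8)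 b28398 (.nil))) (.nil))))) (.tok (nat_lit 47) (nat_lit 0x2fe83e5fc940bf629d7fe4aaff9965ff970bfbab57f9b62fea73) (.hit (nat_lit 320) (nat_lit 0) (nat_lit 0x2fe5665fb25cbf58b57fa152fdecc5feff2bfbab57f9b62fe289) b28399 (.one (nat_lit 3) (nat_lit 321) (nat_lit 1) (nat_lit 0x2fc1085f6834bed5617ecbf2fcc905fb2fcbeb84d7e5612fc925) b28400 (.tok (nat_lit 6) (nat_lit 0x2fe83e5fc940bf629d7fe4aaff9965ff970bf62797f9762fea73) (.hit (nat_lit 322) (nat_lit 7) (nat_lit 0x2fe83e5fc940bf629d7fe4aaff9965ff970bf4ad97f9762fea73) b28401 (.hit (nat_lit 323) (nat_lit 15) (nat_lit 0x2fcf9b5f84bcbf412d7f2982fdd635fca60bf62797ecaaafd7b8) b28402 (.nil))) (.tok (nat_lit 9) (nat_lit 0x2fdccf5f93a0bf5f897f9d42fe3525fe880bf20fd7f3342fe4cb) (.hit (nat_lit 324) (nat_lit 20) (nat_lit 0x2fdccf5f93a0bf5f897f9d42fe3525fe880bf20fd7f3342fe4cb) b28403 (.hit (nat_lit 325) (nat_lit 28) (nat_lit 0x2fc9fd5f828cbf0b717f139afd8f25fc4e6beea917e9dbafd21a)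 b28404 (.nil))) (.nil))))) (.tok (nat_lit 50) (nat_lit 0x2fd4045f8790bf55457ecdeafdb2a5fb37abf741d7eedf2fdc21) (.hit (nat_lit 326) (nat_lit 0) (nat_lit 0x2fcac05f6e4cbf55457e83f2fd9875fa0fcbf35517e275afd2e2) b28405 (.one (nat_lit 3) (nat_lit 327) (nat_lit 1) (nat_lit 0x2fa0bb5f20febeb8117d33a2fa7e15f4ce8bea6f97d53aafa8d8) b28406 (.tok (nat_lit 6) (nat_lit 0x2fd4045f8790bf4e9d7ecdeafdb2a5fb37abf741d7eedf2fdc21) (.hit (nat_lit 328) (nat_lit 7) (nat_lit 0x2fd4045f8790bf4e9d7ecdeafdb2a5fb37abf741d7eedf2fdc21) b28407 (.hit (nat_lit 329) (nat_lit 15) (nat_lit 0x2fa8415f300abed3117d6fd2faf675f5bf4bec5117d8fdafb05e) b28408 (.nil))) (.tok (nat_lit 9) (nat_lit 0x2fc21c5f63c0bf24497e3eaafc9425f8faabf2c7d7e5eb2fca39) (.hit (nat_lit 330) (nat_lit 20) (nat_lit 0x2fc21c5f63c0bf24497e3eaafc9425f8faabf2c7d7e5eb2fca39) b28409 (.hit (nat_lit 331) (nat_lit 28) (nat_lit 0x2fa8415f300abed81d7d6fd2faf675f5bf4bec5117d8fdafb05e)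 b28410 (.nil))) (.nil))))) (.tok (nat_lit 53) (nat_lit 0x2fe38c5fcfbebf9b397f4a2aff1085fd28abfaca97ede02fda23) (.hit (nat_lit 337) (nat_lit 0) (nat_lit 0x2fd85f5fb942bf73617eebe2ff1085fb490bfaca97e903afd06a) b28411 (.one (nat_lit 3) (nat_lit 338) (nat_lit 1) (nat_lit 0x2fce285fb5f2bf5bb17e9f0afe1935fa7c2bf5be97e2942fb356) b28412 (.tok (nat_lit 6) (nat_lit 0x2fe38c5fcfbebf6f297f4a2aff0955fd28abf85197ede02fda23) (.hit (nat_lit 339) (nat_lit 7) (nat_lit 0x2fe38c5fcfbebf6f297f4a2aff0955fd28abf85197ede02fda23) b28413 (.hit (nat_lit 340) (nat_lit 15) (nat_lit 0x2fd4f95faec0bf5ab97ed592fe0d95fb564bf772d7eac62fd3ef) b28414 (.nil))) (.tok (nat_lit 9) (nat_lit 0x2fd4425faf52bf9b397ecfdafe6115fb3f6bf74557edde2fda1f) (.hit (nat_lit 341) (nat_lit 20) (nat_lit 0x2fd2025f838cbf9b397ebddafd9285faf76bf6c157edde2fda1f) b28415 (.hit (nat_lit 342) (nat_lit 28) (nat_lit 0x2fd4425faf52bf65e57ecfdafe6115fb3f6bf74557eac62fd3ef)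 b28416 (.nil))) (.nil))))) (.tok (nat_lit 56) (nat_lit 0x2fcdd35f7b2ebf6d4d7e9c62fd4f95fa718bf5b597ebc6afd5f0) (.hit (nat_lit 351) (nat_lit 0) (nat_lit 0x2fcdd35f7b2ebf5b0d7e9c62fd4f95fa718bf5b597ebc6afd5f0) b28417 (.one (nat_lit 3) (nat_lit 352) (nat_lit 1) (nat_lit 0x2f9e125f1bacbebe9d7d1e5afa5385f4796be9c557d3e62fa62f) b28418 (.tok (nat_lit 6) (nat_lit 0x2fc0605f6048bf6d4d7e30cafc7865f8c32bf258d7e50d2fc87d) (.hit (nat_lit 353) (nat_lit 7) (nat_lit 0x2fc0605f6048bf6d4d7e30cafc7865f8c32bf258d7e50d2fc87d) b28419 (.hit (nat_lit 354) (nat_lit 15) (nat_lit 0x2fa5f05f2b68bf0ce97d5d4afad165f5752bebbcd7d7d52fae0d) b28420 (.nil))) (.tok (nat_lit 9) (nat_lit 0x2fcc5b5f783ebf69ad7e90a2fd3815fa428bf55797eb0aafd478) (.hit (nat_lit 355) (nat_lit 20) (nat_lit 0x2fc13d5f6202bf69ad7e37b2fc8635f8decbf29017e57bafc95a) b28421 (.hit (nat_lit 356) (nat_lit 28) (nat_lit 0x2fcc5b5f783ebf486d7e90a2fd3815fa428bf55797eb0aafd478)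 b28422 (.nil))) (.nil))))) (.tok (nat_lit 59) (nat_lit 0x2fd6235f8c8abf6d0d7edee2fdd495fb7b8bf7c997efeeafde40) (.hit (nat_lit 365) (nat_lit 0) (nat_lit 0x2fd0935f8c8abf6d0d7eb262fdb145fac98bf68b97e5712fd002) b28423 (.one (nat_lit 3) (nat_lit 366) (nat_lit 1) (nat_lit 0x2faaff5f3586bec9217d85c2fb2255f6170bed0097da5cafb31c) b28424 (.tok (nat_lit 6) (nat_lit 0x2fccc65f7914bf48057e93fafd3ec5fa4febf57257eb402fd4e3) (.hit (nat_lit 367) (nat_lit 7) (nat_lit 0x2fcbeb5f775ebf46097e8d22fd3115fa348bf53b97ead2afd408) b28425 (.hit (nat_lit 368) (nat_lit 15) (nat_lit 0x2fccc65f7914bf48057e93fafd3ec5fa4febf57257eb402fd4e3) b28426 (.nil))) (.tok (nat_lit 9) (nat_lit 0x2fd6235f8bcebf6a417edee2fdd495fb7b8bf7c997efeeafde40) (.hit (nat_lit 369) (nat_lit 20) (nat_lit 0x2fd6235f8bcebf6a417edee2fdd495fb7b8bf7c997efeeafde40) b28427 (.hit (nat_lit 370) (nat_lit 28) (nat_lit 0x2fb80c5f4fa0bf14f57dee2afbf325f7b8abf043d7e0e32fc029)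 b28428 (.nil))) (.nil))))) (.tok (nat_lit 62) (nat_lit 0x2fd4045f8790bf55457ecdeafdb2a5fb37abf741d7eedf2fdc21) (.hit (nat_lit 371) (nat_lit 0) (nat_lit 0x2fcac05f6e4cbf55457e83f2fcb265fa0fcbf6ed57e275afd2e2) b28429 (.one (nat_lit 3) (nat_lit 372) (nat_lit 1) (nat_lit 0x2fa0bb5f20febeb8117d33a2fa7e15f4ce8bea6f97d53aafa8d8) b28406 (.tok (nat_lit 6) (nat_lit 0x2fc21c5f63c0bf24497e3eaafc9425f8faabf2c7d7e5eb2fca39) (.hit (nat_lit 373) (nat_lit 7) (nat_lit 0x2fc21c5f63c0bf24497e3eaafc9425f8faabf2c7d7e5eb2fca39) b28409 (.hit (nat_lit 374) (nat_lit 15) (nat_lit 0x2fa8415f300abed81d7d6fd2faf675f5bf4bec5117d8fdafb05e) b28410 (.nil))) (.tok (nat_lit 9) (nat_lit 0x2fd4045f8790bf4e9d7ecdeafdb2a5fb37abf741d7eedf2fdc21) (.hit (nat_lit 375) (nat_lit 20) (nat_lit 0x2fd4045f8790bf4e9d7ecdeafdb2a5fb37abf741d7eedf2fdc21) b28407 (.hit (nat_lit 376) (nat_lit 28) (nat_lit 0x2fa8415f300abed3117d6fd2faf675f5bf4bec5117d8fdafb05e)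 b28408 (.nil))) (.nil))))) (.tok (nat_lit 64) (nat_lit 0x2ffa36600000c038c9803d8300622600f4cc072f5805d3aff7c5) (.hit (nat_lit 377) (nat_lit 0) (nat_lit 0x2ffa365fecb6c0290d7ff68b006225ffd8ac0630d801632ff7c5) b28430 (.tok (nat_lit 6) (nat_lit 0x2ff2f05ffa4cc038c97fc562ff9975ff14ec02c157fe542ff6bd) (.hit (nat_lit 378) (nat_lit 7) (nat_lit 0x2feae95fb55ac038c97fa2d2ff5c65fe8b4bfde8d7fc2daff6bd) b28431 (.hit (nat_lit 379) (nat_lit 15) (nat_lit 0x2ff2f05ffa4cc014e57fc562ff9975ff14ec02c157fe542feefa) b28432 (.nil))) (.tok (nat_lit 9) (nat_lit 0x2ff919600000bff505803d8300031600f4cc072f5805d3aff4dc) (.hit (nat_lit 380) (nat_lit 20) (nat_lit 0x2ff919600000bff505803d8300031600f4cc072f5805d3aff4dc) b28433 (.hit (nat_lit 381) (nat_lit 28) (nat_lit 0x2fed795fe26abfc22d7fa092ff5035fe824bfee817fc09afeaf8) b28434 (.nil))) (.nil)))) (.tok (nat_lit 65) (nat_lit 0x2fe38c5fcfbebf9b397f56fafee295fd28abfdaa57ede02fda23)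 (.hit (nat_lit 382) (nat_lit 0) (nat_lit 0x2fd85f5fb942bf73617ef13afee295fbc30bfdaa57e903afd06a) b28435 (.one (nat_lit 3) (nat_lit 383) (nat_lit 1) (nat_lit 0x2fce285fb5f2bf5bb17e9f22fd4ce5fa7c2bf8f117e2942fb356) b28436 (.tok (nat_lit 6) (nat_lit 0x2fd4425faf52bf9b397ed02afdb035fb3f6bfa47d7edde2fda1f) (.hit (nat_lit 384) (nat_lit 7) (nat_lit 0x2fd2025f838cbf9b397ebddafd9285faf76bf6c157edde2fda1f) b28415 (.hit (nat_lit 385) (nat_lit 15) (nat_lit 0x2fd4425faf52bf65e57ed02afdb035fb3f6bfa47d7eac62fd3ef) b28437 (.nil))) (.tok (nat_lit 9) (nat_lit 0x2fe38c5fcfbebf6f297f56fafdf8d5fd28abfd24d7ede02fda23) (.hit (nat_lit 386) (nat_lit 20) (nat_lit 0x2fe38c5fcfbebf6f297f56fafdf8d5fd28abfd24d7ede02fda23) b28438 (.hit (nat_lit 387) (nat_lit 28) (nat_lit 0x2fd4f95faec0bf5ab97ed592fdbaf5fb564bf8d617eac62fd3ef) b28439 (.nil))) (.nil))))) (.tok (nat_lit 67) (nat_lit 0x2ff9725fd26cc0253980171b0044f6005c6c018b180372300546)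 (.hit (nat_lit 388) (nat_lit 0) (nat_lit 0x2ff9535fcac6bfe3197fa11aff58f5fe846c008957fc12300170) b28440 (.tok (nat_lit 3) (nat_lit 0x2fed075fb996bffe7d7fb3c2ff7e45fecf0bfe7057fd3caff8db) (.hit (nat_lit 389) (nat_lit 1) (nat_lit 0x2fd2e45f8550bf99717ee2aafddc15fb8aabf7e797f02b2fdeb8) b28441 (.one (nat_lit 55) (nat_lit 390) (nat_lit 3) (nat_lit 0x2fed075fb996bffe7d7fb3c2ff7e45fecf0bfe7057fd3caff8db) b28442 (.nil))) (.tok (nat_lit 9) (nat_lit 0x2ff9725fd26cc0253980171b0044f6005c6c018b180372300546) (.hit (nat_lit 391) (nat_lit 20) (nat_lit 0x2fdc1a5f97bcbfa69d7f2c5afe6f75fcb16bfa3517f4c62fe7ee) b28443 (.hit (nat_lit 394) (nat_lit 28) (nat_lit 0x2fcca65f78d4bf91517eb0bafd7835fac2ebf65817ed0c2fd87a) b28446 (.tok (nat_lit 67) (nat_lit 0x2ff9725fd26cc0253980171b0044f6005c6c018b180372300546) (.hit (nat_lit 392) (nat_lit 21) (nat_lit 0x2ff1cf5fc326c017c17fda02ffcac5ff680bffa257ffa0affda3)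 b28444 (.hit (nat_lit 395) (nat_lit 29) (nat_lit 0x2fe6be5fad04bff0157f817aff19b5fe05ebfcde17fa182ff292) b28447 (.one (nat_lit 9) (nat_lit 393) (nat_lit 22) (nat_lit 0x2ff9725fd26cc0253980171b0044f6005c6c018b180372300546) b28445 (.nil)))) (.nil)))) (.nil)))) (.tok (nat_lit 68) (nat_lit 0x2fcdd35f7b2ebf6d4d7e9c62fd4f95fa718bf5b597ebc6afd5f0) (.hit (nat_lit 396) (nat_lit 0) (nat_lit 0x2fcdd35f7b2ebf5b0d7e9c62fd4f95fa718bf5b597ebc6afd5f0) b28448 (.one (nat_lit 3) (nat_lit 397) (nat_lit 1) (nat_lit 0x2f9e125f1bacbebe9d7d1e5afa5385f4796be9c557d3e62fa62f) b28418 (.tok (nat_lit 6) (nat_lit 0x2fcc5b5f783ebf69ad7e90a2fd3815fa428bf55797eb0aafd478) (.hit (nat_lit 398) (nat_lit 7) (nat_lit 0x2fc13d5f6202bf69ad7e37b2fc8635f8decbf29017e57bafc95a) b28421 (.hit (nat_lit 399) (nat_lit 15) (nat_lit 0x2fcc5b5f783ebf486d7e90a2fd3815fa428bf55797eb0aafd478) b28422 (.nil))) (.tok (nat_lit 9) (nat_lit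 0x2fc0605f6048bf6d4d7e30cafc7865f8c32bf258d7e50d2fc87d) (.hit (nat_lit 400) (nat_lit 20) (nat_lit 0x2fc0605f6048bf6d4d7e30cafc7865f8c32bf258d7e50d2fc87d) b28419 (.hit (nat_lit 401) (nat_lit 28) (nat_lit 0x2fa5f05f2b68bf0ce97d5d4afad165f5752bebbcd7d7d52fae0d) b28420 (.nil))) (.nil))))) (.tok (nat_lit 70) (nat_lit 0x2ff8455fd012c014c9800db30032260036cc013fd802dbb00419) (.hit (nat_lit 402) (nat_lit 0) (nat_lit 0x2feb9c5fad66bfc9317f338aff3625fcce2bfdf057f5392ff221) b28449 (.tok (nat_lit 3) (nat_lit 0x2fedd05fbb28bfcadd7fba0aff8ad5fee82bfea297fda12ff9a4) (.hit (nat_lit 403) (nat_lit 1) (nat_lit 0x2fd6d05f8d28bfaf517f020afe1ad5fc082bf8e297f2212fe2a4) b28450 (.one (nat_lit 67) (nat_lit 404) (nat_lit 2) (nat_lit 0x2fedd05fbb28bfcadd7fba0aff8ad5fee82bfea297fda12ff9a4) b28451 (.nil))) (.tok (nat_lit 6) (nat_lit 0x2ff8455fd012c014c9800db30032260036cc013fd802dbb00419) (.hit (nat_lit 405)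 (nat_lit 7) (nat_lit 0x2fd8d55f9132bfa0317f1232fe3b25fc48cbf963d7f323afe4a9) b28452 (.hit (nat_lit 408) (nat_lit 15) (nat_lit 0x2fd6455f8c12bfaab17efdb2fe1225fbf6cbf8bfd7f1dbafe219) b28455 (.tok (nat_lit 55) (nat_lit 0x2ff8455fd012c014c9800db30032260036cc013fd802dbb00419) (.hit (nat_lit 406) (nat_lit 8) (nat_lit 0x2fe7ce5faf24bfd0557f89faff2ab5fe27ebfd2217faa02ff3a2) b28453 (.hit (nat_lit 409) (nat_lit 16) (nat_lit 0x2fee3a5fbbfcc006397fbd5aff9175fef56bfebd17fdd62ffa0e) b28456 (.one (nat_lit 6) (nat_lit 407) (nat_lit 9) (nat_lit 0x2ff8455fd012c014c9800db30032260036cc013fd802dbb00419) b28454 (.nil)))) (.nil)))) (.nil)))) (.tok (nat_lit 71) (nat_lit 0x2fd6235f8c8abf6d0d7edee2fdd495fb7b8bf7c997efeeafde40) (.hit (nat_lit 410) (nat_lit 0) (nat_lit 0x2fd0935f8c8abf6d0d7eb262fd8005fac98bf75097e5712fd002) b28457 (.one (nat_lit 3) (nat_lit 411) (nat_lit 1) (nat_lit 0x2faaff5f3586bec9217d85c2fb2255f6170bed0097da5cafb31c)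 b28424 (.tok (nat_lit 6) (nat_lit 0x2fd6235f8bcebf6a417edee2fdd495fb7b8bf7c997efeeafde40) (.hit (nat_lit 412) (nat_lit 7) (nat_lit 0x2fd6235f8bcebf6a417edee2fdd495fb7b8bf7c997efeeafde40) b28427 (.hit (nat_lit 413) (nat_lit 15) (nat_lit 0x2fb80c5f4fa0bf14f57dee2afbf325f7b8abf043d7e0e32fc029) b28428 (.nil))) (.tok (nat_lit 9) (nat_lit 0x2fccc65f7914bf48057e93fafd3ec5fa4febf57257eb402fd4e3) (.hit (nat_lit 414) (nat_lit 20) (nat_lit 0x2fcbeb5f775ebf46097e8d22fd3115fa348bf53b97ead2afd408) b28425 (.hit (nat_lit 415) (nat_lit 28) (nat_lit 0x2fccc65f7914bf48057e93fafd3ec5fa4febf57257eb402fd4e3) b28426 (.nil))) (.nil))))) (.nil))))))))))))))))))))))))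
noncomputable def r15_62 : Rw Blk := .tok (nat_lit 14) (nat_lit 0xbc0001780002fdb73) (.hit (nat_lit 140) (nat_lit 0) (nat_lit 0xbc0001780002fdb73) b28475 (.one (nat_lit 3) (nat_lit 141) (nat_lit 1) (nat_lit 0xbc0001780002fb168) b28476 (.tok (nat_lit 6) (nat_lit 0xbc0001780002fd187) (.hit (nat_lit 142) (nat_lit 7) (nat_lit 0xbc0001780002fcfe8) b28477 (.hit (nat_lit 143) (nat_lit 15) (nat_lit 0xbc0001780002fd187) b28478 (.nil))) (.tok (nat_lit 9) (nat_lit 0xbc0001780002fd56b) (.hit (nat_lit 144) (nat_lit 20) (nat_lit 0xbc0001780002fcfe8) b28477 (.hit (nat_lit 145) (nat_lit 28) (nat_lit 0xbc0001780002fd56b) b28479 (.nil))) (.nil))))) (.tok (nat_lit 17) (nat_lit 0xbc0001780002fdbc6) (.hit (nat_lit 134) (nat_lit 0) (nat_lit 0xbc0001780002fdbc6) b28469 (.one (nat_lit 3) (nat_lit 135) (nat_lit 1) (nat_lit 0xbc0001780002fac5b) b28470 (.tok (nat_lit 6) (nat_lit 0xbc0001780002fcf7c) (.hit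 (nat_lit 136) (nat_lit 7) (nat_lit 0xbc0001780002fc785) b28471 (.hit (nat_lit 137) (nat_lit 15) (nat_lit 0xbc0001780002fcf7c) b28472 (.nil))) (.tok (nat_lit 9) (nat_lit 0xbc0001780002fd27c) (.hit (nat_lit 138) (nat_lit 20) (nat_lit 0xbc0001780002fca7b) b28473 (.hit (nat_lit 139) (nat_lit 28) (nat_lit 0xbc0001780002fd27c) b28474 (.nil))) (.nil))))) (.tok (nat_lit 20) (nat_lit 0xbc0001780002fdc38) (.hit (nat_lit 122) (nat_lit 0) (nat_lit 0xbc0001780002fdc38) b28458 (.one (nat_lit 3) (nat_lit 123) (nat_lit 1) (nat_lit 0xbc0001780002fb4e1) b28459 (.tok (nat_lit 6) (nat_lit 0xbc0001780002fd266) (.hit (nat_lit 124) (nat_lit 7) (nat_lit 0xbc0001780002fcb87) b28460 (.hit (nat_lit 125) (nat_lit 15) (nat_lit 0xbc0001780002fd266) b28461 (.nil))) (.tok (nat_lit 9) (nat_lit 0xbc0001780002fd47e) (.hit (nat_lit 126) (nat_lit 20) (nat_lit 0xbc0001780002fcc54) b28462 (.hit (nat_lit 127) (nat_lit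 28) (nat_lit 0xbc0001780002fd47e) b28463 (.nil))) (.nil))))) (.tok (nat_lit 23) (nat_lit 0xbc0001780002ff774) (.hit (nat_lit 128) (nat_lit 0) (nat_lit 0xbc0001780002ff774) b28464 (.one (nat_lit 3) (nat_lit 129) (nat_lit 1) (nat_lit 0xbc0001780002fe9ec) b28465 (.tok (nat_lit 6) (nat_lit 0xbc0001780002feb46) (.hit (nat_lit 130) (nat_lit 7) (nat_lit 0xbc0001780002feb46) b28466 (.hit (nat_lit 131) (nat_lit 15) (nat_lit 0xbc0001780002fe597) b28467 (.nil))) (.tok (nat_lit 9) (nat_lit 0xbc0001780002fe7ac) (.hit (nat_lit 132) (nat_lit 20) (nat_lit 0xbc0001780002fcc54) b28462 (.hit (nat_lit 133) (nat_lit 28) (nat_lit 0xbc0001780002fe7ac) b28468 (.nil))) (.nil))))) (.tok (nat_lit 26) (nat_lit 0xbc0001780002ff867) (.hit (nat_lit 260) (nat_lit 0) (nat_lit 0xbc0001780002ff867) b28548 (.one (nat_lit 3) (nat_lit 261) (nat_lit 1) (nat_lit 0xbc0001780002faded) b28549 (.tok (nat_lit 6) (nat_lit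 0xbc0001780002fbfc8) (.hit (nat_lit 262) (nat_lit 7) (nat_lit 0xbc0001780002fbf51) b28550 (.hit (nat_lit 263) (nat_lit 15) (nat_lit 0xbc0001780002fbfc8) b28551 (.nil))) (.tok (nat_lit 9) (nat_lit 0xbc0001780002fdb8f) (.hit (nat_lit 264) (nat_lit 20) (nat_lit 0xbc0001780002fdb8f) b28552 (.hit (nat_lit 265) (nat_lit 28) (nat_lit 0xbc0001780002fac47) b28553 (.nil))) (.nil))))) (.tok (nat_lit 29) (nat_lit 0xbc0001780002fddca) (.hit (nat_lit 266) (nat_lit 0) (nat_lit 0xbc0001780002fddca) b28554 (.one (nat_lit 3) (nat_lit 267) (nat_lit 1) (nat_lit 0xbc0001780002fb04f) b28555 (.tok (nat_lit 6) (nat_lit 0xbc0001780002fd2dc) (.hit (nat_lit 268) (nat_lit 7) (nat_lit 0xbc0001780002fd02d) b28556 (.hit (nat_lit 269) (nat_lit 15) (nat_lit 0xbc0001780002fd2dc) b28557 (.nil))) (.tok (nat_lit 9) (nat_lit 0xbc0001780002fcc93) (.hit (nat_lit 270) (nat_lit 20) (nat_lit 0xbc0001780002fbcf8) b28528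 (.hit (nat_lit 271) (nat_lit 28) (nat_lit 0xbc0001780002fcc93) b28558 (.nil))) (.nil))))) (.tok (nat_lit 32) (nat_lit 0xbc0001780002ffadd) (.hit (nat_lit 272) (nat_lit 0) (nat_lit 0xbc0001780002ffadd) b28559 (.one (nat_lit 3) (nat_lit 273) (nat_lit 1) (nat_lit 0xbc0001780002fbdf8) b28560 (.tok (nat_lit 6) (nat_lit 0xbc0001780002fd583) (.hit (nat_lit 274) (nat_lit 7) (nat_lit 0xbc0001780002fd583) b28561 (.hit (nat_lit 275) (nat_lit 15) (nat_lit 0xbc0001780002fd1aa) b28562 (.nil))) (.tok (nat_lit 9) (nat_lit 0xbc0001780002fd386) (.hit (nat_lit 276) (nat_lit 20) (nat_lit 0xbc0001780002fd00b) b28563 (.hit (nat_lit 277) (nat_lit 28) (nat_lit 0xbc0001780002fd386) b28564 (.nil))) (.nil))))) (.tok (nat_lit 35) (nat_lit 0xbc0001780002feafb) (.hit (nat_lit 278) (nat_lit 0) (nat_lit 0xbc0001780002feafb) b28565 (.one (nat_lit 3) (nat_lit 279) (nat_lit 1) (nat_lit 0xbc0001780002fb4e1) b28459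 (.tok (nat_lit 6) (nat_lit 0xbc0001780002fbcda) (.hit (nat_lit 280) (nat_lit 7) (nat_lit 0xbc0001780002fbcda) b28566 (.hit (nat_lit 281) (nat_lit 15) (nat_lit 0xbc0001780002faab9) b28567 (.nil))) (.tok (nat_lit 9) (nat_lit 0xbc0001780002fcc14) (.hit (nat_lit 282) (nat_lit 20) (nat_lit 0xbc0001780002fc99f) b28484 (.hit (nat_lit 283) (nat_lit 28) (nat_lit 0xbc0001780002fcc14) b28568 (.nil))) (.nil))))) (.tok (nat_lit 38) (nat_lit 0xbc0001780002fefe6) (.hit (nat_lit 215) (nat_lit 0) (nat_lit 0xbc0001780002fefe6) b28524 (.one (nat_lit 3) (nat_lit 216) (nat_lit 1) (nat_lit 0xbc0001780002fb963) b28525 (.tok (nat_lit 6) (nat_lit 0xbc0001780002fce85) (.hit (nat_lit 217) (nat_lit 7) (nat_lit 0xbc0001780002fce85) b28526 (.hit (nat_lit 218) (nat_lit 15) (nat_lit 0xbc0001780002fbd5d) b28527 (.nil))) (.tok (nat_lit 9) (nat_lit 0xbc0001780002fbcf8) (.hit (nat_lit 219) (nat_lit 20) (nat_lit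 0xbc0001780002fbcf8) b28528 (.hit (nat_lit 220) (nat_lit 28) (nat_lit 0xbc0001780002fb6cd) b28529 (.nil))) (.nil))))) (.tok (nat_lit 41) (nat_lit 0xbc000178000301436) (.hit (nat_lit 226) (nat_lit 0) (nat_lit 0xbc0001780002ff862) b28530 (.one (nat_lit 3) (nat_lit 227) (nat_lit 1) (nat_lit 0xbc0001780002fef4f) b28531 (.tok (nat_lit 6) (nat_lit 0xbc0001780002ffbfc) (.hit (nat_lit 228) (nat_lit 7) (nat_lit 0xbc0001780002ffbfc) b28532 (.hit (nat_lit 229) (nat_lit 15) (nat_lit 0xbc0001780002fed28) b28533 (.nil))) (.tok (nat_lit 9) (nat_lit 0xbc000178000301436) (.hit (nat_lit 230) (nat_lit 20) (nat_lit 0xbc000178000301436) b28534 (.hit (nat_lit 231) (nat_lit 28) (nat_lit 0xbc0001780002fef54) b28535 (.nil))) (.nil))))) (.tok (nat_lit 44) (nat_lit 0xbc0001780002ffac7) (.hit (nat_lit 240) (nat_lit 0) (nat_lit 0xbc0001780002ffac7) b28536 (.one (nat_lit 3) (nat_lit 241) (nat_lit 1) (nat_lit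 0xbc0001780002fbf96) b28537 (.tok (nat_lit 6) (nat_lit 0xbc0001780002fc385) (.hit (nat_lit 242) (nat_lit 7) (nat_lit 0xbc0001780002fc385) b28538 (.hit (nat_lit 243) (nat_lit 15) (nat_lit 0xbc0001780002fbbd6) b28539 (.nil))) (.tok (nat_lit 9) (nat_lit 0xbc0001780002fd604) (.hit (nat_lit 244) (nat_lit 20) (nat_lit 0xbc0001780002fd420) b28540 (.hit (nat_lit 245) (nat_lit 28) (nat_lit 0xbc0001780002fd604) b28541 (.nil))) (.nil))))) (.tok (nat_lit 47) (nat_lit 0xbc000178000301242) (.hit (nat_lit 254) (nat_lit 0) (nat_lit 0xbc0001780002ff610) b28542 (.one (nat_lit 3) (nat_lit 255) (nat_lit 1) (nat_lit 0xbc0001780002fdd01) b28543 (.tok (nat_lit 6) (nat_lit 0xbc000178000301242) (.hit (nat_lit 256) (nat_lit 7) (nat_lit 0xbc000178000301242) b28544 (.hit (nat_lit 257) (nat_lit 15) (nat_lit 0xbc0001780002fe872) b28545 (.nil))) (.tok (nat_lit 9) (nat_lit 0xbc0001780002ffa6a) (.hit (nat_lit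 258) (nat_lit 20) (nat_lit 0xbc0001780002ffa6a) b28546 (.hit (nat_lit 259) (nat_lit 28) (nat_lit 0xbc0001780002fe6c0) b28547 (.nil))) (.nil))))) (.tok (nat_lit 50) (nat_lit 0xbc0001780002fdd1a) (.hit (nat_lit 146) (nat_lit 0) (nat_lit 0xbc0001780002fdd1a) b28480 (.one (nat_lit 3) (nat_lit 147) (nat_lit 1) (nat_lit 0xbc0001780002fa5b5) b28481 (.tok (nat_lit 6) (nat_lit 0xbc0001780002fd831) (.hit (nat_lit 148) (nat_lit 7) (nat_lit 0xbc0001780002fd831) b28482 (.hit (nat_lit 149) (nat_lit 15) (nat_lit 0xbc0001780002fac3c) b28483 (.nil))) (.tok (nat_lit 9) (nat_lit 0xbc0001780002fc99f) (.hit (nat_lit 150) (nat_lit 20) (nat_lit 0xbc0001780002fc99f) b28484 (.hit (nat_lit 151) (nat_lit 28) (nat_lit 0xbc0001780002fbce9) b28485 (.nil))) (.nil))))) (.tok (nat_lit 53) (nat_lit 0xbc0001780003003b4) (.hit (nat_lit 152) (nat_lit 0) (nat_lit 0xbc0001780002ff684) b28486 (.one (nat_lit 3) (nat_lit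 153) (nat_lit 1) (nat_lit 0xbc0001780002ffd5e) b28487 (.tok (nat_lit 6) (nat_lit 0xbc000178000300055) (.hit (nat_lit 154) (nat_lit 7) (nat_lit 0xbc000178000300055) b28488 (.hit (nat_lit 155) (nat_lit 15) (nat_lit 0xbc0001780002ff6ad) b28489 (.nil))) (.tok (nat_lit 9) (nat_lit 0xbc0001780003003b4) (.hit (nat_lit 156) (nat_lit 20) (nat_lit 0xbc0001780002fd489) b28490 (.hit (nat_lit 157) (nat_lit 28) (nat_lit 0xbc0001780003003b4) b28491 (.nil))) (.nil))))) (.tok (nat_lit 56) (nat_lit 0xbc0001780002fe2d4) (.hit (nat_lit 164) (nat_lit 0) (nat_lit 0xbc0001780002fe2d4) b28498 (.one (nat_lit 3) (nat_lit 165) (nat_lit 1) (nat_lit 0xbc0001780002fb4e1) b28459 (.tok (nat_lit 6) (nat_lit 0xbc0001780002fc5f4) (.hit (nat_lit 166) (nat_lit 7) (nat_lit 0xbc0001780002fc5f4) b28499 (.hit (nat_lit 167) (nat_lit 15) (nat_lit 0xbc0001780002fb64f) b28500 (.nil))) (.tok (nat_lit 9) (nat_lit 0xbc0001780002fcd59)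 (.hit (nat_lit 168) (nat_lit 20) (nat_lit 0xbc0001780002fca10) b28501 (.hit (nat_lit 169) (nat_lit 28) (nat_lit 0xbc0001780002fcd59) b28502 (.nil))) (.nil))))) (.tok (nat_lit 59) (nat_lit 0xbc0001780002fed47) (.hit (nat_lit 158) (nat_lit 0) (nat_lit 0xbc0001780002fed47) b28492 (.one (nat_lit 3) (nat_lit 159) (nat_lit 1) (nat_lit 0xbc0001780002faa00) b28493 (.tok (nat_lit 6) (nat_lit 0xbc0001780002fcaa9) (.hit (nat_lit 160) (nat_lit 7) (nat_lit 0xbc0001780002fc813) b28494 (.hit (nat_lit 161) (nat_lit 15) (nat_lit 0xbc0001780002fcaa9) b28495 (.nil))) (.tok (nat_lit 9) (nat_lit 0xbc0001780002fcbd0) (.hit (nat_lit 162) (nat_lit 20) (nat_lit 0xbc0001780002fcbd0) b28496 (.hit (nat_lit 163) (nat_lit 28) (nat_lit 0xbc0001780002fbe26) b28497 (.nil))) (.nil))))) (.tok (nat_lit 62) (nat_lit 0xbc0001780002fdbeb) (.hit (nat_lit 170) (nat_lit 0) (nat_lit 0xbc0001780002fdbeb) b28503 (.one (nat_lit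 3) (nat_lit 171) (nat_lit 1) (nat_lit 0xbc0001780002fb524) b28504 (.tok (nat_lit 6) (nat_lit 0xbc0001780002fbd1d) (.hit (nat_lit 172) (nat_lit 7) (nat_lit 0xbc0001780002fbd1d) b28505 (.hit (nat_lit 173) (nat_lit 15) (nat_lit 0xbc0001780002fba11) b28506 (.nil))) (.tok (nat_lit 9) (nat_lit 0xbc0001780002fd04e) (.hit (nat_lit 174) (nat_lit 20) (nat_lit 0xbc0001780002fd04e) b28507 (.hit (nat_lit 175) (nat_lit 28) (nat_lit 0xbc0001780002fbd70) b28508 (.nil))) (.nil))))) (.tok (nat_lit 65) (nat_lit 0xbc0001780002fed1a) (.hit (nat_lit 181) (nat_lit 0) (nat_lit 0xbc0001780002fecaa) b28509 (.one (nat_lit 3) (nat_lit 182) (nat_lit 1) (nat_lit 0xbc0001780002fe5ea) b28510 (.tok (nat_lit 6) (nat_lit 0xbc0001780002fe6af) (.hit (nat_lit 183) (nat_lit 7) (nat_lit 0xbc0001780002fc3c8) b28511 (.hit (nat_lit 184) (nat_lit 15) (nat_lit 0xbc0001780002fe6af) b28512 (.nil))) (.tok (nat_lit 9) (nat_lit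 0xbc0001780002fed1a) (.hit (nat_lit 185) (nat_lit 20) (nat_lit 0xbc0001780002fed1a) b28513 (.hit (nat_lit 186) (nat_lit 28) (nat_lit 0xbc0001780002fe442) b28514 (.nil))) (.nil))))) (.tok (nat_lit 68) (nat_lit 0xbc0001780002fdc4f) (.hit (nat_lit 209) (nat_lit 0) (nat_lit 0xbc0001780002fdc4f) b28521 (.one (nat_lit 3) (nat_lit 210) (nat_lit 1) (nat_lit 0xbc0001780002fb4e1) b28459 (.tok (nat_lit 6) (nat_lit 0xbc0001780002fd433) (.hit (nat_lit 211) (nat_lit 7) (nat_lit 0xbc0001780002fc637) b28522 (.hit (nat_lit 212) (nat_lit 15) (nat_lit 0xbc0001780002fd433) b28523 (.nil))) (.tok (nat_lit 9) (nat_lit 0xbc0001780002fcfe8) (.hit (nat_lit 213) (nat_lit 20) (nat_lit 0xbc0001780002fcfe8) b28477 (.hit (nat_lit 214) (nat_lit 28) (nat_lit 0xbc0001780002fb64f) b28500 (.nil))) (.nil))))) (.tok (nat_lit 71) (nat_lit 0xbc0001780002fe2b6) (.hit (nat_lit 195) (nat_lit 0) (nat_lit 0xbc0001780002fe2b6)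 b28515 (.one (nat_lit 3) (nat_lit 196) (nat_lit 1) (nat_lit 0xbc0001780002fc68e) b28516 (.tok (nat_lit 6) (nat_lit 0xbc0001780002fd995) (.hit (nat_lit 197) (nat_lit 7) (nat_lit 0xbc0001780002fcfff) b28517 (.hit (nat_lit 198) (nat_lit 15) (nat_lit 0xbc0001780002fd995) b28518 (.nil))) (.tok (nat_lit 9) (nat_lit 0xbc0001780002fd38a) (.hit (nat_lit 199) (nat_lit 20) (nat_lit 0xbc0001780002fd38a) b28519 (.hit (nat_lit 200) (nat_lit 28) (nat_lit 0xbc0001780002fd34f) b28520 (.nil))) (.nil))))) (.nil))))))))))))))))))))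
noncomputable def r15_63 : Rw Blk := .tok (nat_lit 3) (nat_lit 0xbc0001780002ff37a) (.hit (nat_lit 18) (nat_lit 0) (nat_lit 0xbc0001780002ff347) b28587 (.tok (nat_lit 6) (nat_lit 0xbc0001780002ff37a) (.hit (nat_lit 19) (nat_lit 7) (nat_lit 0xbc0001780002ff37a) b28588 (.hit (nat_lit 20) (nat_lit 15) (nat_lit 0xbc0001780002fe356) b28589 (.nil))) (.tok (nat_lit 9) (nat_lit 0xbc0001780002fe9bb) (.hit (nat_lit 21) (nat_lit 20) (nat_lit 0xbc0001780002fcf52) b28590 (.hit (nat_lit 22) (nat_lit 28) (nat_lit 0xbc0001780002fe9bb) b28591 (.nil))) (.nil)))) (.tok (nat_lit 6) (nat_lit 0xbc0001780003036c9) (.hit (nat_lit 9) (nat_lit 0) (nat_lit 0xbc0001780002ff1e7) b28578 (.tok (nat_lit 3) (nat_lit 0xbc0001780003024b5) (.hit (nat_lit 10) (nat_lit 1) (nat_lit 0xbc0001780002fee0b) b28579 (.one (nat_lit 67) (nat_lit 11) (nat_lit 2) (nat_lit 0xbc0001780003024b5) b28580 (.nil))) (.tok (nat_lit 6)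 (nat_lit 0xbc0001780003036c9) (.hit (nat_lit 12) (nat_lit 7) (nat_lit 0xbc0001780003011b2) b28581 (.hit (nat_lit 16) (nat_lit 15) (nat_lit 0xbc0001780002ffbc1) b28585 (.tok (nat_lit 55) (nat_lit 0xbc0001780003036c9) (.hit (nat_lit 13) (nat_lit 8) (nat_lit 0xbc0001780003025c4) b28582 (.hit (nat_lit 17) (nat_lit 16) (nat_lit 0xbc0001780003036c9) b28586 (.tok (nat_lit 6) (nat_lit 0xbc000178000301b9c) (.hit (nat_lit 14) (nat_lit 9) (nat_lit 0xbc000178000301b9c) b28583 (.one (nat_lit 55) (nat_lit 15) (nat_lit 10) (nat_lit 0xbc00017800030175a) b28584 (.nil))) (.nil)))) (.nil)))) (.nil)))) (.tok (nat_lit 9) (nat_lit 0xbc0001780002ffc7e) (.hit (nat_lit 0) (nat_lit 0) (nat_lit 0xbc0001780002fedb9) b28569 (.tok (nat_lit 3) (nat_lit 0xbc0001780002fe84a) (.hit (nat_lit 1) (nat_lit 1) (nat_lit 0xbc0001780002fd33d) b28570 (.one (nat_lit 55) (nat_lit 2) (nat_lit 3) (nat_lit 0xbc0001780002fe84a)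 b28571 (.nil))) (.tok (nat_lit 9) (nat_lit 0xbc0001780002ffc7e) (.hit (nat_lit 3) (nat_lit 20) (nat_lit 0xbc0001780002fd316) b28572 (.hit (nat_lit 7) (nat_lit 28) (nat_lit 0xbc0001780002fd469) b28576 (.tok (nat_lit 67) (nat_lit 0xbc0001780002ffc7e) (.hit (nat_lit 4) (nat_lit 21) (nat_lit 0xbc0001780002fee22) b28573 (.hit (nat_lit 8) (nat_lit 29) (nat_lit 0xbc0001780002ffc2d) b28577 (.tok (nat_lit 9) (nat_lit 0xbc0001780002ffc7e) (.hit (nat_lit 5) (nat_lit 22) (nat_lit 0xbc0001780002ff2b3) b28574 (.one (nat_lit 67) (nat_lit 6) (nat_lit 23) (nat_lit 0xbc0001780002ffc7e) b28575 (.nil))) (.nil)))) (.nil)))) (.nil)))) (.nil)))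
noncomputable def r15_64 : Rw Blk := .tok (nat_lit 3) (nat_lit 0xbc0001780003017b8) (.hit (nat_lit 0) (nat_lit 0) (nat_lit 0xbc0001780002feed2) b28592 (.tok (nat_lit 9) (nat_lit 0xbc0001780002feaa3) (.hit (nat_lit 1) (nat_lit 20) (nat_lit 0xbc0001780002fd2c0) b28593 (.hit (nat_lit 4) (nat_lit 28) (nat_lit 0xbc0001780002fd08d) b28596 (.one (nat_lit 56) (nat_lit 5) (nat_lit 31) (nat_lit 0xbc0001780002fe19f) b28597 (.tok (nat_lit 68) (nat_lit 0xbc0001780002feaa3) (.hit (nat_lit 2) (nat_lit 26) (nat_lit 0xbc0001780002fe528) b28594 (.hit (nat_lit 6) (nat_lit 32) (nat_lit 0xbc0001780002fe1ec) b28598 (.one (nat_lit 9) (nat_lit 3) (nat_lit 27) (nat_lit 0xbc0001780002feaa3) b28595 (.nil)))) (.nil))))) (.tok (nat_lit 64) (nat_lit 0xbc0001780002fea75) (.hit (nat_lit 7) (nat_lit 50) (nat_lit 0xbc0001780002fe1c9) b28599 (.hit (nat_lit 8) (nat_lit 51) (nat_lit 0xbc0001780002fea75) b28600 (.nil)))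 (.tok (nat_lit 67) (nat_lit 0xbc0001780003017b8) (.hit (nat_lit 9) (nat_lit 52) (nat_lit 0xbc0001780003017b8) b28601 (.one (nat_lit 3) (nat_lit 15) (nat_lit 58) (nat_lit 0xbc0001780002fe1c6) b28607 (.tok (nat_lit 9) (nat_lit 0xbc0001780002ff6fa) (.hit (nat_lit 10) (nat_lit 53) (nat_lit 0xbc0001780002fe77c) b28602 (.hit (nat_lit 13) (nat_lit 56) (nat_lit 0xbc0001780002fdf52) b28605 (.tok (nat_lit 67) (nat_lit 0xbc0001780002ff6fa) (.hit (nat_lit 11) (nat_lit 54) (nat_lit 0xbc0001780002ff6fa) b28603 (.hit (nat_lit 14) (nat_lit 57) (nat_lit 0xbc0001780002fed02) b28606 (.one (nat_lit 9) (nat_lit 12) (nat_lit 55) (nat_lit 0xbc0001780002fe637) b28604 (.nil)))) (.nil)))) (.nil)))) (.one (nat_lit 70) (nat_lit 16) (nat_lit 60) (nat_lit 0xbc0001780002fe109) b28608 (.nil)))))) (.tok (nat_lit 6) (nat_lit 0xbc000178000303307) (.hit (nat_lit 17) (nat_lit 0) (nat_lit 0xbc000178000300f9e) b28609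 (.tok (nat_lit 6) (nat_lit 0xbc0001780003016f7) (.hit (nat_lit 18) (nat_lit 7) (nat_lit 0xbc000178000300894) b28610 (.hit (nat_lit 21) (nat_lit 15) (nat_lit 0xbc0001780002fe591) b28613 (.tok (nat_lit 56) (nat_lit 0xbc0001780003016f7) (.hit (nat_lit 19) (nat_lit 13) (nat_lit 0xbc0001780002ffe7d) b28611 (.hit (nat_lit 23) (nat_lit 19) (nat_lit 0xbc0001780002fefcd) b28615 (.one (nat_lit 6) (nat_lit 20) (nat_lit 14) (nat_lit 0xbc0001780003016f7) b28612 (.nil)))) (.one (nat_lit 68) (nat_lit 22) (nat_lit 18) (nat_lit 0xbc000178000300b49) b28614 (.nil))))) (.tok (nat_lit 52) (nat_lit 0xbc000178000302ed0) (.hit (nat_lit 24) (nat_lit 39) (nat_lit 0xbc0001780003012f0) b28616 (.hit (nat_lit 25) (nat_lit 40) (nat_lit 0xbc000178000302ed0) b28617 (.nil))) (.tok (nat_lit 55) (nat_lit 0xbc000178000303307) (.hit (nat_lit 26) (nat_lit 41) (nat_lit 0xbc000178000303307) b28618 (.one (nat_lit 3)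 (nat_lit 32) (nat_lit 47) (nat_lit 0xbc000178000301d11) b28624 (.tok (nat_lit 6) (nat_lit 0xbc000178000302db1) (.hit (nat_lit 27) (nat_lit 42) (nat_lit 0xbc0001780003003e8) b28619 (.hit (nat_lit 30) (nat_lit 45) (nat_lit 0xbc000178000301f91) b28622 (.tok (nat_lit 55) (nat_lit 0xbc000178000302db1) (.hit (nat_lit 28) (nat_lit 43) (nat_lit 0xbc000178000302db1) b28620 (.hit (nat_lit 31) (nat_lit 46) (nat_lit 0xbc00017800030140b) b28623 (.one (nat_lit 6) (nat_lit 29) (nat_lit 44) (nat_lit 0xbc00017800030284c) b28621 (.nil)))) (.nil)))) (.nil)))) (.one (nat_lit 58) (nat_lit 33) (nat_lit 49) (nat_lit 0xbc000178000301f60) b28625 (.nil)))))) (.nil))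
noncomputable def r15_65 : Rw Blk := .tok (nat_lit 3) (nat_lit 0xbc0001780002fe49c) (.hit (nat_lit 14) (nat_lit 0) (nat_lit 0xbc0001780002fe1ee) b28640 (.tok (nat_lit 6) (nat_lit 0xbc0001780002fd1f9) (.hit (nat_lit 15) (nat_lit 7) (nat_lit 0xbc0001780002fbcb9) b28641 (.hit (nat_lit 16) (nat_lit 15) (nat_lit 0xbc0001780002fd1f9) b28642 (.nil))) (.tok (nat_lit 9) (nat_lit 0xbc0001780002fe49c) (.hit (nat_lit 17) (nat_lit 20) (nat_lit 0xbc0001780002fe49c) b28643 (.hit (nat_lit 18) (nat_lit 28) (nat_lit 0xbc0001780002fd427) b28644 (.nil))) (.nil)))) (.tok (nat_lit 6) (nat_lit 0xbc0001780002ffa89) (.hit (nat_lit 0) (nat_lit 0) (nat_lit 0xbc0001780002fea06) b28626 (.tok (nat_lit 3) (nat_lit 0xbc0001780002fea82) (.hit (nat_lit 1) (nat_lit 1) (nat_lit 0xbc0001780002fc837) b28627 (.one (nat_lit 67) (nat_lit 2) (nat_lit 2) (nat_lit 0xbc0001780002fea82) b28628 (.nil))) (.tok (nat_lit 6)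 (nat_lit 0xbc0001780002ffa89) (.hit (nat_lit 3) (nat_lit 7) (nat_lit 0xbc0001780002fd7f3) b28629 (.hit (nat_lit 7) (nat_lit 15) (nat_lit 0xbc0001780002fd42a) b28633 (.tok (nat_lit 55) (nat_lit 0xbc0001780002ffa89) (.hit (nat_lit 4) (nat_lit 8) (nat_lit 0xbc0001780002fe79d) b28630 (.hit (nat_lit 8) (nat_lit 16) (nat_lit 0xbc0001780002ff46d) b28634 (.tok (nat_lit 6) (nat_lit 0xbc0001780002ffa89) (.hit (nat_lit 5) (nat_lit 9) (nat_lit 0xbc0001780002fe804) b28631 (.one (nat_lit 55) (nat_lit 6) (nat_lit 10) (nat_lit 0xbc0001780002ffa89) b28632 (.nil))) (.nil)))) (.nil)))) (.nil)))) (.tok (nat_lit 9) (nat_lit 0xbc00017800030135b) (.hit (nat_lit 9) (nat_lit 0) (nat_lit 0xbc0001780002ff2d1) b28635 (.tok (nat_lit 3) (nat_lit 0xbc00017800030135b) (.hit (nat_lit 10) (nat_lit 1) (nat_lit 0xbc0001780002fedc0) b28636 (.one (nat_lit 55) (nat_lit 11) (nat_lit 3) (nat_lit 0xbc00017800030135b)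 b28637 (.nil))) (.tok (nat_lit 9) (nat_lit 0xbc0001780002fe4d0) (.hit (nat_lit 12) (nat_lit 20) (nat_lit 0xbc0001780002fe3b0) b28638 (.hit (nat_lit 13) (nat_lit 28) (nat_lit 0xbc0001780002fe4d0) b28639 (.nil))) (.nil)))) (.nil)))
noncomputable def r15_66 : Rw Blk := .tok (nat_lit 3) (nat_lit 0xbc0001780002ffd0f) (.hit (nat_lit 0) (nat_lit 0) (nat_lit 0xbc0001780002fe44e) b28645 (.tok (nat_lit 6) (nat_lit 0xbc0001780002fee56) (.hit (nat_lit 1) (nat_lit 7) (nat_lit 0xbc0001780002fd365) b28646 (.hit (nat_lit 6) (nat_lit 15) (nat_lit 0xbc0001780002fc4ec) b28651 (.tok (nat_lit 14) (nat_lit 0xbc0001780002fe0b1) (.hit (nat_lit 2) (nat_lit 11) (nat_lit 0xbc0001780002fda7e) b28647 (.hit (nat_lit 7) (nat_lit 17) (nat_lit 0xbc0001780002fdb7b) b28652 (.one (nat_lit 9) (nat_lit 3) (nat_lit 12) (nat_lit 0xbc0001780002fe0b1) b28648 (.nil)))) (.tok (nat_lit 56) (nat_lit 0xbc0001780002fee56)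 (.hit (nat_lit 4) (nat_lit 13) (nat_lit 0xbc0001780002fe66a) b28649 (.hit (nat_lit 8) (nat_lit 19) (nat_lit 0xbc0001780002fd7f3) b28653 (.one (nat_lit 6) (nat_lit 5) (nat_lit 14) (nat_lit 0xbc0001780002fee56) b28650 (.nil)))) (.nil))))) (.tok (nat_lit 52) (nat_lit 0xbc0001780002fe16e) (.hit (nat_lit 9) (nat_lit 39) (nat_lit 0xbc0001780002fe0fb) b28654 (.hit (nat_lit 10) (nat_lit 40) (nat_lit 0xbc0001780002fe16e) b28655 (.nil))) (.tok (nat_lit 55) (nat_lit 0xbc0001780002ffd0f) (.hit (nat_lit 11) (nat_lit 41) (nat_lit 0xbc0001780002ffd0f) b28656 (.tok (nat_lit 3) (nat_lit 0xbc0001780002ff505) (.hit (nat_lit 17) (nat_lit 47) (nat_lit 0xbc0001780002fe63e) b28662 (.one (nat_lit 67) (nat_lit 18) (nat_lit 48) (nat_lit 0xbc0001780002ff505) b28663 (.nil))) (.tok (nat_lit 6) (nat_lit 0xbc0001780002ff0b8) (.hit (nat_lit 12) (nat_lit 42) (nat_lit 0xbc0001780002fe74d) b28657 (.hit (nat_lit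 15) (nat_lit 45) (nat_lit 0xbc0001780002fe282) b28660 (.tok (nat_lit 55) (nat_lit 0xbc0001780002ff0b8) (.hit (nat_lit 13) (nat_lit 43) (nat_lit 0xbc0001780002ff0b8) b28658 (.hit (nat_lit 16) (nat_lit 46) (nat_lit 0xbc0001780002fee5a) b28661 (.one (nat_lit 6) (nat_lit 14) (nat_lit 44) (nat_lit 0xbc0001780002fee2f) b28659 (.nil)))) (.nil)))) (.nil)))) (.one (nat_lit 58) (nat_lit 19) (nat_lit 49) (nat_lit 0xbc0001780002fe0a4) b28664 (.nil)))))) (.tok (nat_lit 9) (nat_lit 0xbc000178000303062) (.hit (nat_lit 20) (nat_lit 0) (nat_lit 0xbc0001780002fe474) b28665 (.tok (nat_lit 9) (nat_lit 0xbc000178000303062) (.hit (nat_lit 21) (nat_lit 20) (nat_lit 0xbc0001780002fe47b) b28666 (.hit (nat_lit 26) (nat_lit 28) (nat_lit 0xbc0001780002fc683) b28671 (.tok (nat_lit 14) (nat_lit 0xbc000178000303062) (.hit (nat_lit 22) (nat_lit 24) (nat_lit 0xbc000178000303062) b28667 (.hit (nat_lit 27) (nat_lit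 30) (nat_lit 0xbc0001780002fe605) b28672 (.one (nat_lit 6) (nat_lit 23) (nat_lit 25) (nat_lit 0xbc000178000302a5e) b28668 (.nil)))) (.one (nat_lit 56) (nat_lit 28) (nat_lit 31) (nat_lit 0xbc0001780002fe41c) b28673 (.tok (nat_lit 68) (nat_lit 0xbc00017800030056c) (.hit (nat_lit 24) (nat_lit 26) (nat_lit 0xbc00017800030056c) b28669 (.hit (nat_lit 29) (nat_lit 32) (nat_lit 0xbc0001780002fe499) b28674 (.one (nat_lit 9) (nat_lit 25) (nat_lit 27) (nat_lit 0xbc0001780002feb77) b28670 (.nil)))) (.nil)))))) (.nil))) (.nil))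
noncomputable def r15_67 : Rw Blk := .tok (nat_lit 14) (nat_lit 0xbc0001780002fd708) (.hit (nat_lit 140) (nat_lit 0) (nat_lit 0xbc0001780002fcc27) b25771 (.one (nat_lit 3) (nat_lit 141) (nat_lit 1) (nat_lit 0xbc0001780002f9e14) b25772 (.tok (nat_lit 6) (nat_lit 0xbc0001780002fc9f2) (.hit (nat_lit 142) (nat_lit 7) (nat_lit 0xbc0001780002fc287) b25773 (.hit (nat_lit 143) (nat_lit 15) (nat_lit 0xbc0001780002fc9f2) b25774 (.nil))) (.tok (nat_lit 9) (nat_lit 0xbc0001780002fd708) (.hit (nat_lit 144) (nat_lit 20) (nat_lit 0xbc0001780002fcc47) b25775 (.hit (nat_lit 145) (nat_lit 28) (nat_lit 0xbc0001780002fd708) b25776 (.nil))) (.nil))))) (.tok (nat_lit 17) (nat_lit 0xbc0001780002fdc97) (.hit (nat_lit 134) (nat_lit 0) (nat_lit 0xbc0001780002fdc97) b25765 (.one (nat_lit 3) (nat_lit 135) (nat_lit 1) (nat_lit 0xbc0001780002fad7f) b25766 (.tok (nat_lit 6) (nat_lit 0xbc0001780002fdc6c) (.hit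 (nat_lit 136) (nat_lit 7) (nat_lit 0xbc0001780002fbe69) b25767 (.hit (nat_lit 137) (nat_lit 15) (nat_lit 0xbc0001780002fdc6c) b25768 (.nil))) (.tok (nat_lit 9) (nat_lit 0xbc0001780002fd177) (.hit (nat_lit 138) (nat_lit 20) (nat_lit 0xbc0001780002fce5b) b25769 (.hit (nat_lit 139) (nat_lit 28) (nat_lit 0xbc0001780002fd177) b25770 (.nil))) (.nil))))) (.tok (nat_lit 20) (nat_lit 0xbc0001780002fe84b) (.hit (nat_lit 122) (nat_lit 0) (nat_lit 0xbc0001780002fe2e0) b25753 (.one (nat_lit 3) (nat_lit 123) (nat_lit 1) (nat_lit 0xbc0001780002fd2f3) b25754 (.tok (nat_lit 6) (nat_lit 0xbc0001780002fe84b) (.hit (nat_lit 124) (nat_lit 7) (nat_lit 0xbc0001780002fc7e4) b25755 (.hit (nat_lit 125) (nat_lit 15) (nat_lit 0xbc0001780002fe84b) b25756 (.nil))) (.tok (nat_lit 9) (nat_lit 0xbc0001780002fe567) (.hit (nat_lit 126) (nat_lit 20) (nat_lit 0xbc0001780002fe3c2) b25757 (.hit (nat_lit 127) (nat_lit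 28) (nat_lit 0xbc0001780002fe567) b25758 (.nil))) (.nil))))) (.tok (nat_lit 23) (nat_lit 0xbc0001780002fe614) (.hit (nat_lit 128) (nat_lit 0) (nat_lit 0xbc0001780002fe25c) b25759 (.one (nat_lit 3) (nat_lit 129) (nat_lit 1) (nat_lit 0xbc0001780002fdaf6) b25760 (.tok (nat_lit 6) (nat_lit 0xbc0001780002fdfff) (.hit (nat_lit 130) (nat_lit 7) (nat_lit 0xbc0001780002fdef7) b25761 (.hit (nat_lit 131) (nat_lit 15) (nat_lit 0xbc0001780002fdfff) b25762 (.nil))) (.tok (nat_lit 9) (nat_lit 0xbc0001780002fe614) (.hit (nat_lit 132) (nat_lit 20) (nat_lit 0xbc0001780002fcc84) b25763 (.hit (nat_lit 133) (nat_lit 28) (nat_lit 0xbc0001780002fe614) b25764 (.nil))) (.nil))))) (.tok (nat_lit 26) (nat_lit 0xbc0001780002fea73) (.hit (nat_lit 260) (nat_lit 0) (nat_lit 0xbc0001780002fea73) b25823 (.one (nat_lit 3) (nat_lit 261) (nat_lit 1) (nat_lit 0xbc0001780002fb5e5) b25824 (.tok (nat_lit 6) (nat_lit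 0xbc0001780002fcf12) (.hit (nat_lit 262) (nat_lit 7) (nat_lit 0xbc0001780002fcf12) b25825 (.hit (nat_lit 263) (nat_lit 15) (nat_lit 0xbc0001780002fc0bd) b25826 (.nil))) (.tok (nat_lit 9) (nat_lit 0xbc0001780002fd222) (.hit (nat_lit 264) (nat_lit 20) (nat_lit 0xbc0001780002fbb91) b25827 (.hit (nat_lit 265) (nat_lit 28) (nat_lit 0xbc0001780002fd222) b25828 (.nil))) (.nil))))) (.tok (nat_lit 29) (nat_lit 0xbc0001780002fd60e) (.hit (nat_lit 266) (nat_lit 0) (nat_lit 0xbc0001780002fd60e) b25829 (.one (nat_lit 3) (nat_lit 267) (nat_lit 1) (nat_lit 0xbc0001780002fb2c7) b25830 (.tok (nat_lit 6) (nat_lit 0xbc0001780002fd5ae) (.hit (nat_lit 268) (nat_lit 7) (nat_lit 0xbc0001780002fcca7) b25831 (.hit (nat_lit 269) (nat_lit 15) (nat_lit 0xbc0001780002fd5ae) b25832 (.nil))) (.tok (nat_lit 9) (nat_lit 0xbc0001780002fd482) (.hit (nat_lit 270) (nat_lit 20) (nat_lit 0xbc0001780002fc617) b25833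 (.hit (nat_lit 271) (nat_lit 28) (nat_lit 0xbc0001780002fd482) b25834 (.nil))) (.nil))))) (.tok (nat_lit 32) (nat_lit 0xbc0001780002fddbc) (.hit (nat_lit 272) (nat_lit 0) (nat_lit 0xbc0001780002fddbc) b25835 (.one (nat_lit 3) (nat_lit 273) (nat_lit 1) (nat_lit 0xbc0001780002fb140) b25796 (.tok (nat_lit 6) (nat_lit 0xbc0001780002fd5a3) (.hit (nat_lit 274) (nat_lit 7) (nat_lit 0xbc0001780002fbb86) b25836 (.hit (nat_lit 275) (nat_lit 15) (nat_lit 0xbc0001780002fd5a3) b25837 (.nil))) (.tok (nat_lit 9) (nat_lit 0xbc0001780002fcc77) (.hit (nat_lit 276) (nat_lit 20) (nat_lit 0xbc0001780002fcc77) b25838 (.hit (nat_lit 277) (nat_lit 28) (nat_lit 0xbc0001780002fb572) b25839 (.nil))) (.nil))))) (.tok (nat_lit 35) (nat_lit 0xbc0001780002fda3b) (.hit (nat_lit 278) (nat_lit 0) (nat_lit 0xbc0001780002fda3b) b25840 (.one (nat_lit 3) (nat_lit 279) (nat_lit 1) (nat_lit 0xbc0001780002fb140) b25796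 (.tok (nat_lit 6) (nat_lit 0xbc0001780002fc918) (.hit (nat_lit 280) (nat_lit 7) (nat_lit 0xbc0001780002fc918) b25841 (.hit (nat_lit 281) (nat_lit 15) (nat_lit 0xbc0001780002fb3ea) b25842 (.nil))) (.tok (nat_lit 9) (nat_lit 0xbc0001780002fd38f) (.hit (nat_lit 282) (nat_lit 20) (nat_lit 0xbc0001780002fcc33) b25843 (.hit (nat_lit 283) (nat_lit 28) (nat_lit 0xbc0001780002fd38f) b25844 (.nil))) (.nil))))) (.tok (nat_lit 38) (nat_lit 0xbc0001780002fed2f) (.hit (nat_lit 215) (nat_lit 0) (nat_lit 0xbc0001780002fed2f) b25800 (.one (nat_lit 3) (nat_lit 216) (nat_lit 1) (nat_lit 0xbc0001780002fb16e) b25801 (.tok (nat_lit 6) (nat_lit 0xbc0001780002fcc8a) (.hit (nat_lit 217) (nat_lit 7) (nat_lit 0xbc0001780002fcc8a) b25797 (.hit (nat_lit 218) (nat_lit 15) (nat_lit 0xbc0001780002fb9cb) b25802 (.nil))) (.tok (nat_lit 9) (nat_lit 0xbc0001780002fbd27) (.hit (nat_lit 219) (nat_lit 20) (nat_lit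 0xbc0001780002fbd27) b25803 (.hit (nat_lit 220) (nat_lit 28) (nat_lit 0xbc0001780002fb9cf) b25804 (.nil))) (.nil))))) (.tok (nat_lit 41) (nat_lit 0xbc0001780002fecd0) (.hit (nat_lit 226) (nat_lit 0) (nat_lit 0xbc0001780002fe660) b25805 (.one (nat_lit 3) (nat_lit 227) (nat_lit 1) (nat_lit 0xbc0001780002fdab5) b25806 (.tok (nat_lit 6) (nat_lit 0xbc0001780002fecd0) (.hit (nat_lit 228) (nat_lit 7) (nat_lit 0xbc0001780002fecd0) b25807 (.hit (nat_lit 229) (nat_lit 15) (nat_lit 0xbc0001780002fe6c3) b25808 (.nil))) (.tok (nat_lit 9) (nat_lit 0xbc0001780002fea98) (.hit (nat_lit 230) (nat_lit 20) (nat_lit 0xbc0001780002fea98) b25809 (.hit (nat_lit 231) (nat_lit 28) (nat_lit 0xbc0001780002fe506) b25810 (.nil))) (.nil))))) (.tok (nat_lit 44) (nat_lit 0xbc000178000300000) (.hit (nat_lit 240) (nat_lit 0) (nat_lit 0xbc0001780002ffafc) b25811 (.one (nat_lit 3) (nat_lit 241) (nat_lit 1) (nat_lit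 0xbc0001780002fd7ea) b25812 (.tok (nat_lit 6) (nat_lit 0xbc0001780002ff24c) (.hit (nat_lit 242) (nat_lit 7) (nat_lit 0xbc0001780002ff24c) b25813 (.hit (nat_lit 243) (nat_lit 15) (nat_lit 0xbc0001780002fdc30) b25814 (.nil))) (.tok (nat_lit 9) (nat_lit 0xbc000178000300000) (.hit (nat_lit 244) (nat_lit 20) (nat_lit 0xbc000178000300000) b25815 (.hit (nat_lit 245) (nat_lit 28) (nat_lit 0xbc0001780002fe1b0) b25816 (.nil))) (.nil))))) (.tok (nat_lit 47) (nat_lit 0xbc0001780002ff869) (.hit (nat_lit 254) (nat_lit 0) (nat_lit 0xbc0001780002ff869) b25817 (.one (nat_lit 3) (nat_lit 255) (nat_lit 1) (nat_lit 0xbc0001780002fcd47) b25818 (.tok (nat_lit 6) (nat_lit 0xbc0001780002fed16) (.hit (nat_lit 256) (nat_lit 7) (nat_lit 0xbc0001780002fed16) b25819 (.hit (nat_lit 257) (nat_lit 15) (nat_lit 0xbc0001780002fe1e8) b25820 (.nil))) (.tok (nat_lit 9) (nat_lit 0xbc0001780002feffd) (.hit (nat_lit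 258) (nat_lit 20) (nat_lit 0xbc0001780002feffd) b25821 (.hit (nat_lit 259) (nat_lit 28) (nat_lit 0xbc0001780002fdf1d) b25822 (.nil))) (.nil))))) (.tok (nat_lit 50) (nat_lit 0xbc0001780002fd864) (.hit (nat_lit 146) (nat_lit 0) (nat_lit 0xbc0001780002fd864) b28675 (.one (nat_lit 3) (nat_lit 147) (nat_lit 1) (nat_lit 0xbc0001780002fb194) b28676 (.tok (nat_lit 6) (nat_lit 0xbc0001780002fc78c) (.hit (nat_lit 148) (nat_lit 7) (nat_lit 0xbc0001780002fc78c) b28677 (.hit (nat_lit 149) (nat_lit 15) (nat_lit 0xbc0001780002fb99f) b28678 (.nil))) (.tok (nat_lit 9) (nat_lit 0xbc0001780002fbb69) (.hit (nat_lit 150) (nat_lit 20) (nat_lit 0xbc0001780002fbb69) b28679 (.hit (nat_lit 151) (nat_lit 28) (nat_lit 0xbc0001780002fb76d) b28680 (.nil))) (.nil))))) (.tok (nat_lit 53) (nat_lit 0xbc0001780002fe3ed) (.hit (nat_lit 152) (nat_lit 0) (nat_lit 0xbc0001780002fdfab) b28681 (.one (nat_lit 3) (nat_lit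 153) (nat_lit 1) (nat_lit 0xbc0001780002fd9d9) b28682 (.tok (nat_lit 6) (nat_lit 0xbc0001780002fe3ed) (.hit (nat_lit 154) (nat_lit 7) (nat_lit 0xbc0001780002fe3ed) b28683 (.hit (nat_lit 155) (nat_lit 15) (nat_lit 0xbc0001780002fe267) b28684 (.nil))) (.tok (nat_lit 9) (nat_lit 0xbc0001780002fe032) (.hit (nat_lit 156) (nat_lit 20) (nat_lit 0xbc0001780002fd381) b28685 (.hit (nat_lit 157) (nat_lit 28) (nat_lit 0xbc0001780002fe032) b28686 (.nil))) (.nil))))) (.tok (nat_lit 56) (nat_lit 0xbc0001780002fd56a) (.hit (nat_lit 164) (nat_lit 0) (nat_lit 0xbc0001780002fd2ab) b28692 (.one (nat_lit 3) (nat_lit 165) (nat_lit 1) (nat_lit 0xbc0001780002fb140) b25796 (.tok (nat_lit 6) (nat_lit 0xbc0001780002fc8d5) (.hit (nat_lit 166) (nat_lit 7) (nat_lit 0xbc0001780002fc8d5) b28693 (.hit (nat_lit 167) (nat_lit 15) (nat_lit 0xbc0001780002fb2ae) b25799 (.nil))) (.tok (nat_lit 9) (nat_lit 0xbc0001780002fd56a)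 (.hit (nat_lit 168) (nat_lit 20) (nat_lit 0xbc0001780002fcc8a) b25797 (.hit (nat_lit 169) (nat_lit 28) (nat_lit 0xbc0001780002fd56a) b28694 (.nil))) (.nil))))) (.tok (nat_lit 59) (nat_lit 0xbc0001780002fddf3) (.hit (nat_lit 158) (nat_lit 0) (nat_lit 0xbc0001780002fddf3) b28687 (.one (nat_lit 3) (nat_lit 159) (nat_lit 1) (nat_lit 0xbc0001780002fb140) b25796 (.tok (nat_lit 6) (nat_lit 0xbc0001780002fca8b) (.hit (nat_lit 160) (nat_lit 7) (nat_lit 0xbc0001780002fc5d7) b28688 (.hit (nat_lit 161) (nat_lit 15) (nat_lit 0xbc0001780002fca8b) b28689 (.nil))) (.tok (nat_lit 9) (nat_lit 0xbc0001780002fc712) (.hit (nat_lit 162) (nat_lit 20) (nat_lit 0xbc0001780002fc712) b28690 (.hit (nat_lit 163) (nat_lit 28) (nat_lit 0xbc0001780002fbae1) b28691 (.nil))) (.nil))))) (.tok (nat_lit 62) (nat_lit 0xbc0001780002fe321) (.hit (nat_lit 170) (nat_lit 0) (nat_lit 0xbc0001780002fd344) b25777 (.one (nat_lit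 3) (nat_lit 171) (nat_lit 1) (nat_lit 0xbc0001780002fb653) b25778 (.tok (nat_lit 6) (nat_lit 0xbc0001780002fc0f4) (.hit (nat_lit 172) (nat_lit 7) (nat_lit 0xbc0001780002fc0f4) b25779 (.hit (nat_lit 173) (nat_lit 15) (nat_lit 0xbc0001780002fbadb) b25780 (.nil))) (.tok (nat_lit 9) (nat_lit 0xbc0001780002fe321) (.hit (nat_lit 174) (nat_lit 20) (nat_lit 0xbc0001780002fe321) b25781 (.hit (nat_lit 175) (nat_lit 28) (nat_lit 0xbc0001780002fbc63) b25782 (.nil))) (.nil))))) (.tok (nat_lit 65) (nat_lit 0xbc0001780002fe8b7) (.hit (nat_lit 181) (nat_lit 0) (nat_lit 0xbc0001780002fe3a7) b25783 (.one (nat_lit 3) (nat_lit 182) (nat_lit 1) (nat_lit 0xbc0001780002fdaad) b25784 (.tok (nat_lit 6) (nat_lit 0xbc0001780002fe8b7) (.hit (nat_lit 183) (nat_lit 7) (nat_lit 0xbc0001780002fd211) b25785 (.hit (nat_lit 184) (nat_lit 15) (nat_lit 0xbc0001780002fe8b7) b25786 (.nil))) (.tok (nat_lit 9) (nat_lit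 0xbc0001780002fe21d) (.hit (nat_lit 185) (nat_lit 20) (nat_lit 0xbc0001780002fe21d) b25787 (.hit (nat_lit 186) (nat_lit 28) (nat_lit 0xbc0001780002fdd25) b25788 (.nil))) (.nil))))) (.tok (nat_lit 68) (nat_lit 0xbc0001780002fd98c) (.hit (nat_lit 209) (nat_lit 0) (nat_lit 0xbc0001780002fd98c) b25795 (.one (nat_lit 3) (nat_lit 210) (nat_lit 1) (nat_lit 0xbc0001780002fb140) b25796 (.tok (nat_lit 6) (nat_lit 0xbc0001780002fd843) (.hit (nat_lit 211) (nat_lit 7) (nat_lit 0xbc0001780002fcc8a) b25797 (.hit (nat_lit 212) (nat_lit 15) (nat_lit 0xbc0001780002fd843) b25798 (.nil))) (.tok (nat_lit 9) (nat_lit 0xbc0001780002fcc47) (.hit (nat_lit 213) (nat_lit 20) (nat_lit 0xbc0001780002fcc47) b25775 (.hit (nat_lit 214) (nat_lit 28) (nat_lit 0xbc0001780002fb2ae) b25799 (.nil))) (.nil))))) (.tok (nat_lit 71) (nat_lit 0xbc0001780002fea16) (.hit (nat_lit 195) (nat_lit 0) (nat_lit 0xbc0001780002fdccc)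 b25789 (.one (nat_lit 3) (nat_lit 196) (nat_lit 1) (nat_lit 0xbc0001780002fbd99) b25790 (.tok (nat_lit 6) (nat_lit 0xbc0001780002fea16) (.hit (nat_lit 197) (nat_lit 7) (nat_lit 0xbc0001780002fea16) b25791 (.hit (nat_lit 198) (nat_lit 15) (nat_lit 0xbc0001780002fadab) b25792 (.nil))) (.tok (nat_lit 9) (nat_lit 0xbc0001780002fd989) (.hit (nat_lit 199) (nat_lit 20) (nat_lit 0xbc0001780002fd461) b25793 (.hit (nat_lit 200) (nat_lit 28) (nat_lit 0xbc0001780002fd989) b25794 (.nil))) (.nil))))) (.nil))))))))))))))))))))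
noncomputable def r15_68 : Rw Blk := .tok (nat_lit 3) (nat_lit 0xbc0001780002fdfe3) (.hit (nat_lit 18) (nat_lit 0) (nat_lit 0xbc0001780002fdfe3) b11659 (.tok (nat_lit 6) (nat_lit 0xbc0001780002fd426) (.hit (nat_lit 19) (nat_lit 7) (nat_lit 0xbc0001780002fcfcf) b11662 (.hit (nat_lit 20) (nat_lit 15) (nat_lit 0xbc0001780002fd426) b11663 (.nil))) (.tok (nat_lit 9) (nat_lit 0xbc0001780002fcf6d) (.hit (nat_lit 21) (nat_lit 20) (nat_lit 0xbc0001780002fcf6d) b11660 (.hit (nat_lit 22) (nat_lit 28) (nat_lit 0xbc0001780002fce45) b11661 (.nil))) (.nil)))) (.tok (nat_lit 6) (nat_lit 0xbc0001780002ff906) (.hit (nat_lit 9) (nat_lit 0) (nat_lit 0xbc0001780002fdff6) b11651 (.tok (nat_lit 3) (nat_lit 0xbc0001780002feb8e) (.hit (nat_lit 10) (nat_lit 1) (nat_lit 0xbc0001780002fda7f) b11652 (.one (nat_lit 67) (nat_lit 11) (nat_lit 2) (nat_lit 0xbc0001780002feb8e) b15453 (.nil))) (.tok (nat_lit 6)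 (nat_lit 0xbc0001780002ff906) (.hit (nat_lit 12) (nat_lit 7) (nat_lit 0xbc0001780002fd406) b11653 (.hit (nat_lit 16) (nat_lit 15) (nat_lit 0xbc0001780002fda9c) b11657 (.tok (nat_lit 55) (nat_lit 0xbc0001780002ff906) (.hit (nat_lit 13) (nat_lit 8) (nat_lit 0xbc0001780002ff85e) b11654 (.hit (nat_lit 17) (nat_lit 16) (nat_lit 0xbc0001780002ff5a9) b11658 (.tok (nat_lit 6) (nat_lit 0xbc0001780002ff906) (.hit (nat_lit 14) (nat_lit 9) (nat_lit 0xbc0001780002ff051) b11655 (.one (nat_lit 55) (nat_lit 15) (nat_lit 10) (nat_lit 0xbc0001780002ff906) b11656 (.nil))) (.nil)))) (.nil)))) (.nil)))) (.tok (nat_lit 9) (nat_lit 0xbc000178000300000) (.hit (nat_lit 0) (nat_lit 0) (nat_lit 0xbc0001780002fea59) b11643 (.tok (nat_lit 3) (nat_lit 0xbc0001780002ff018) (.hit (nat_lit 1) (nat_lit 1) (nat_lit 0xbc0001780002fd338) b11644 (.one (nat_lit 55) (nat_lit 2) (nat_lit 3) (nat_lit 0xbc0001780002ff018)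 b15452 (.nil))) (.tok (nat_lit 9) (nat_lit 0xbc000178000300000) (.hit (nat_lit 3) (nat_lit 20) (nat_lit 0xbc0001780002feccc) b11645 (.hit (nat_lit 7) (nat_lit 28) (nat_lit 0xbc0001780002fdb65) b11649 (.tok (nat_lit 67) (nat_lit 0xbc000178000300000) (.hit (nat_lit 4) (nat_lit 21) (nat_lit 0xbc0001780002ffb92) b11646 (.hit (nat_lit 8) (nat_lit 29) (nat_lit 0xbc0001780002ff0f8) b11650 (.tok (nat_lit 9) (nat_lit 0xbc000178000300000) (.hit (nat_lit 5) (nat_lit 22) (nat_lit 0xbc0001780002ff9af) b11647 (.one (nat_lit 67) (nat_lit 6) (nat_lit 23) (nat_lit 0xbc000178000300000) b11648 (.nil))) (.nil)))) (.nil)))) (.nil)))) (.nil)))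
noncomputable def r15_69 : Rw Blk := .tok (nat_lit 3) (nat_lit 0xbc0001780002fd4d8) (.hit (nat_lit 14) (nat_lit 0) (nat_lit 0xbc0001780002fd4d8) b28709 (.tok (nat_lit 6) (nat_lit 0xbc0001780002fc637) (.hit (nat_lit 15) (nat_lit 7) (nat_lit 0xbc0001780002fc637) b28710 (.hit (nat_lit 16) (nat_lit 15) (nat_lit 0xbc0001780002fc2ca) b28711 (.nil))) (.tok (nat_lit 9) (nat_lit 0xbc0001780002fbc00) (.hit (nat_lit 17) (nat_lit 20) (nat_lit 0xbc0001780002fb691) b28712 (.hit (nat_lit 18) (nat_lit 28) (nat_lit 0xbc0001780002fbc00) b28713 (.nil))) (.nil)))) (.tok (nat_lit 6) (nat_lit 0xbc000178000300164) (.hit (nat_lit 9) (nat_lit 0) (nat_lit 0xbc0001780002fe917) b28704 (.tok (nat_lit 3) (nat_lit 0xbc000178000300164) (.hit (nat_lit 10) (nat_lit 1) (nat_lit 0xbc0001780002fe939) b28705 (.one (nat_lit 67) (nat_lit 11) (nat_lit 2) (nat_lit 0xbc000178000300164) b28706 (.nil))) (.tok (nat_lit 6)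 (nat_lit 0xbc0001780002ff3de) (.hit (nat_lit 12) (nat_lit 7) (nat_lit 0xbc0001780002ff3de) b28707 (.hit (nat_lit 13) (nat_lit 15) (nat_lit 0xbc0001780002fe0c4) b28708 (.nil))) (.nil)))) (.tok (nat_lit 9) (nat_lit 0xbc0001780002fe2ab) (.hit (nat_lit 0) (nat_lit 0) (nat_lit 0xbc0001780002fe2ab) b28695 (.tok (nat_lit 3) (nat_lit 0xbc0001780002fd6ef) (.hit (nat_lit 1) (nat_lit 1) (nat_lit 0xbc0001780002fc44a) b28696 (.one (nat_lit 55) (nat_lit 2) (nat_lit 3) (nat_lit 0xbc0001780002fd6ef) b28697 (.nil))) (.tok (nat_lit 9) (nat_lit 0xbc0001780002fe1ea) (.hit (nat_lit 3) (nat_lit 20) (nat_lit 0xbc0001780002fbfd4) b28698 (.hit (nat_lit 7) (nat_lit 28) (nat_lit 0xbc0001780002fc530) b28702 (.tok (nat_lit 67) (nat_lit 0xbc0001780002fe1ea) (.hit (nat_lit 4) (nat_lit 21) (nat_lit 0xbc0001780002fd736) b28699 (.hit (nat_lit 8) (nat_lit 29) (nat_lit 0xbc0001780002fe1ea) b28703 (.tok (nat_lit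 9) (nat_lit 0xbc0001780002fe16d) (.hit (nat_lit 5) (nat_lit 22) (nat_lit 0xbc0001780002fd1e9) b28700 (.one (nat_lit 67) (nat_lit 6) (nat_lit 23) (nat_lit 0xbc0001780002fe16d) b28701 (.nil))) (.nil)))) (.nil)))) (.nil)))) (.nil)))
noncomputable def r15_70 : Rw Blk := .tok (nat_lit 3) (nat_lit 0xbc0001780002fe332) (.hit (nat_lit 14) (nat_lit 0) (nat_lit 0xbc0001780002fe332) b15487 (.tok (nat_lit 6) (nat_lit 0xbc0001780002fd0a7) (.hit (nat_lit 15) (nat_lit 7) (nat_lit 0xbc0001780002fd0a7) b15488 (.hit (nat_lit 16) (nat_lit 15) (nat_lit 0xbc0001780002faa89) b15489 (.nil))) (.tok (nat_lit 9) (nat_lit 0xbc0001780002fd58b) (.hit (nat_lit 17) (nat_lit 20) (nat_lit 0xbc0001780002fd58b) b15490 (.hit (nat_lit 18) (nat_lit 28) (nat_lit 0xbc0001780002fd007) b15491 (.nil))) (.nil)))) (.tok (nat_lit 6) (nat_lit 0xbc0001780002ff6c3) (.hit (nat_lit 0) (nat_lit 0) (nat_lit 0xbc0001780002ff2fa)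 b15473 (.tok (nat_lit 3) (nat_lit 0xbc0001780002fe7a8) (.hit (nat_lit 1) (nat_lit 1) (nat_lit 0xbc0001780002fd593) b15474 (.one (nat_lit 67) (nat_lit 2) (nat_lit 2) (nat_lit 0xbc0001780002fe7a8) b15475 (.nil))) (.tok (nat_lit 6) (nat_lit 0xbc0001780002ff6c3) (.hit (nat_lit 3) (nat_lit 7) (nat_lit 0xbc0001780002fd2ad) b15476 (.hit (nat_lit 7) (nat_lit 15) (nat_lit 0xbc0001780002fd3a5) b15480 (.tok (nat_lit 55) (nat_lit 0xbc0001780002ff6c3) (.hit (nat_lit 4) (nat_lit 8) (nat_lit 0xbc0001780002fe8c9) b15477 (.hit (nat_lit 8) (nat_lit 16) (nat_lit 0xbc0001780002ff0ef) b15481 (.tok (nat_lit 6) (nat_lit 0xbc0001780002ff6c3) (.hit (nat_lit 5) (nat_lit 9) (nat_lit 0xbc0001780002fe8ce) b15478 (.one (nat_lit 55) (nat_lit 6) (nat_lit 10) (nat_lit 0xbc0001780002ff6c3) b15479 (.nil))) (.nil)))) (.nil)))) (.nil)))) (.tok (nat_lit 9) (nat_lit 0xbc000178000300000) (.hit (nat_lit 9) (nat_lit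 0) (nat_lit 0xbc000178000300000) b15482 (.tok (nat_lit 3) (nat_lit 0xbc0001780002ffaf5) (.hit (nat_lit 10) (nat_lit 1) (nat_lit 0xbc0001780002fda4e) b15483 (.one (nat_lit 55) (nat_lit 11) (nat_lit 3) (nat_lit 0xbc0001780002ffaf5) b15484 (.nil))) (.tok (nat_lit 9) (nat_lit 0xbc0001780002ff2c2) (.hit (nat_lit 12) (nat_lit 20) (nat_lit 0xbc0001780002ff2c2) b15485 (.hit (nat_lit 13) (nat_lit 28) (nat_lit 0xbc0001780002fdd07) b15486 (.nil))) (.nil)))) (.nil)))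
noncomputable def r15_71 : Rw Blk := .tok (nat_lit 6) (nat_lit 0xbc0001780003005ed) (.hit (nat_lit 0) (nat_lit 0) (nat_lit 0xbc0001780003005ed) b28714 (.tok (nat_lit 3) (nat_lit 0xbc0001780002fdb79) (.hit (nat_lit 1) (nat_lit 1) (nat_lit 0xbc0001780002fbe85) b28715 (.one (nat_lit 14) (nat_lit 2) (nat_lit 4) (nat_lit 0xbc0001780002fd78a) b28716 (.one (nat_lit 56) (nat_lit 3) (nat_lit 6) (nat_lit 0xbc0001780002fdb79) b28717 (.nil)))) (.tok (nat_lit 40) (nat_lit 0xbc0001780002fe032) (.hit (nat_lit 4) (nat_lit 33) (nat_lit 0xbc0001780002fdaac) b28718 (.hit (nat_lit 5) (nat_lit 34) (nat_lit 0xbc0001780002fe032) b28719 (.nil))) (.tok (nat_lit 43) (nat_lit 0xbc0001780002fec8d) (.hit (nat_lit 6) (nat_lit 35) (nat_lit 0xbc0001780002fec8d) b28720 (.hit (nat_lit 7) (nat_lit 36) (nat_lit 0xbc0001780002fe6f2) b28721 (.nil))) (.tok (nat_lit 46) (nat_lit 0xbc0001780002febb6) (.hit (nat_lit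 8) (nat_lit 37) (nat_lit 0xbc0001780002febb6) b28722 (.hit (nat_lit 9) (nat_lit 38) (nat_lit 0xbc0001780002fe851) b28723 (.nil))) (.nil)))))) (.tok (nat_lit 9) (nat_lit 0xbc000178000303391) (.hit (nat_lit 10) (nat_lit 0) (nat_lit 0xbc000178000301216) b28724 (.tok (nat_lit 3) (nat_lit 0xbc0001780002ffb34) (.hit (nat_lit 11) (nat_lit 1) (nat_lit 0xbc0001780002fe805) b28725 (.one (nat_lit 14) (nat_lit 12) (nat_lit 4) (nat_lit 0xbc0001780002ffb34) b28726 (.one (nat_lit 68) (nat_lit 13) (nat_lit 5) (nat_lit 0xbc0001780002ff843) b28727 (.nil)))) (.tok (nat_lit 40) (nat_lit 0xbc0001780002ff4f7) (.hit (nat_lit 14) (nat_lit 33) (nat_lit 0xbc0001780002ff4f7) b28728 (.hit (nat_lit 15) (nat_lit 34) (nat_lit 0xbc0001780002ff35f) b28729 (.nil))) (.tok (nat_lit 43) (nat_lit 0xbc000178000300687) (.hit (nat_lit 16) (nat_lit 35) (nat_lit 0xbc0001780002fe4b2) b28730 (.hit (nat_lit 17) (nat_lit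 36) (nat_lit 0xbc000178000300687) b28731 (.nil))) (.tok (nat_lit 46) (nat_lit 0xbc000178000303391) (.hit (nat_lit 18) (nat_lit 37) (nat_lit 0xbc000178000303391) b28732 (.hit (nat_lit 19) (nat_lit 38) (nat_lit 0xbc0001780002fe3ff) b28733 (.nil))) (.nil)))))) (.nil))
noncomputable def r15_72 : Rw Blk := .tok (nat_lit 6) (nat_lit 0xbc000178000300a4b) (.hit (nat_lit 0) (nat_lit 0) (nat_lit 0xbc0001780002fff2e) b28734 (.tok (nat_lit 3) (nat_lit 0xbc00017800030062a) (.hit (nat_lit 1) (nat_lit 1) (nat_lit 0xbc0001780002fd753) b28735 (.one (nat_lit 14) (nat_lit 2) (nat_lit 4) (nat_lit 0xbc00017800030062a) b28736 (.one (nat_lit 56) (nat_lit 3) (nat_lit 6) (nat_lit 0xbc0001780002ff03f) b28737 (.nil)))) (.tok (nat_lit 40) (nat_lit 0xbc0001780002ff903) (.hit (nat_lit 4) (nat_lit 33) (nat_lit 0xbc0001780002ff4c4) b28738 (.hit (nat_lit 5) (nat_lit 34) (nat_lit 0xbc0001780002ff903) b28739 (.nil)))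 (.tok (nat_lit 43) (nat_lit 0xbc000178000300438) (.hit (nat_lit 6) (nat_lit 35) (nat_lit 0xbc000178000300438) b28740 (.hit (nat_lit 7) (nat_lit 36) (nat_lit 0xbc0001780002fee19) b28741 (.nil))) (.tok (nat_lit 46) (nat_lit 0xbc000178000300a4b) (.hit (nat_lit 8) (nat_lit 37) (nat_lit 0xbc0001780002fe719) b28742 (.hit (nat_lit 9) (nat_lit 38) (nat_lit 0xbc000178000300a4b) b28743 (.nil))) (.nil)))))) (.tok (nat_lit 9) (nat_lit 0xbc0001780002fff17) (.hit (nat_lit 10) (nat_lit 0) (nat_lit 0xbc0001780002fe7ab) b28744 (.tok (nat_lit 3) (nat_lit 0xbc0001780002ff0eb) (.hit (nat_lit 11) (nat_lit 1) (nat_lit 0xbc0001780002fd0da) b28745 (.one (nat_lit 14) (nat_lit 12) (nat_lit 4) (nat_lit 0xbc0001780002ff0eb) b28746 (.one (nat_lit 68) (nat_lit 13) (nat_lit 5) (nat_lit 0xbc0001780002fe6c8) b28747 (.nil)))) (.tok (nat_lit 40) (nat_lit 0xbc0001780002fe8fc) (.hit (nat_lit 14) (nat_lit 33) (nat_lit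 0xbc0001780002fe8fc) b28748 (.hit (nat_lit 15) (nat_lit 34) (nat_lit 0xbc0001780002fe2f7) b28749 (.nil))) (.tok (nat_lit 43) (nat_lit 0xbc0001780002ffaaa) (.hit (nat_lit 16) (nat_lit 35) (nat_lit 0xbc0001780002fd6e7) b28750 (.hit (nat_lit 17) (nat_lit 36) (nat_lit 0xbc0001780002ffaaa) b28751 (.nil))) (.tok (nat_lit 46) (nat_lit 0xbc0001780002fff17) (.hit (nat_lit 18) (nat_lit 37) (nat_lit 0xbc0001780002fff17) b28752 (.hit (nat_lit 19) (nat_lit 38) (nat_lit 0xbc0001780002fde45) b28753 (.nil))) (.nil)))))) (.nil))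
noncomputable def r15_73 : Rw Blk := .tok (nat_lit 3) (nat_lit 0x600b4ec017e980788b004d460368ac059218098630035f) (.hit (nat_lit 15) (nat_lit 0) (nat_lit 0x5fb318bf97517f764afdee25ff8f2bfb3bd7fc322fddbc) b28769 (.tok (nat_lit 6) (nat_lit 0x5fb570bf9c657f9ee2fdc1e6013d8bfb86d7fd1b2fdee8) (.hit (nat_lit 16) (nat_lit 7) (nat_lit 0x5f7e74bf500d7e9b2afc0a05fd958bf4a757e7efafc36a) b28770 (.hit (nat_lit 21) (nat_lit 15) (nat_lit 0x5f4782bf1cd17e1bb2fa5275fc2c6bedc917ebe92fa7f1) b28775 (.tok (nat_lit 14) (nat_lit 0x5f9de0bf9c657f9ee2fd056600a94bf894d7fd1b2fd320) (.hit (nat_lit 17) (nat_lit 11) (nat_lit 0x5f9904bf783d7f3162fcde85ffa42bf7f957f3a12fd0b2) b28771 (.hit (nat_lit 22) (nat_lit 17) (nat_lit 0x5f9842bf8cd57f0002fcd875ffe92bf7e117fd1b2fd051) b28776 (.one (nat_lit 9) (nat_lit 18) (nat_lit 12) (nat_lit 0x5f9de0bf9c657f9ee2fd056600a94bf894d7f665afd320) b28772 (.nil)))) (.tok (nat_lit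 56) (nat_lit 0x5fb570bf79917f9eb2fdc1e6013d8bfb86d7f4c22fdee8) (.hit (nat_lit 19) (nat_lit 13) (nat_lit 0x5f8f14bf6c397ed1f2fc8f05ffc78bf6bb57ee44afcbba) b28773 (.hit (nat_lit 24) (nat_lit 19) (nat_lit 0x5f891cbf54117e9af2fc5f45fe02cbf5fc57f4c22fc8be) b28778 (.one (nat_lit 6) (nat_lit 20) (nat_lit 14) (nat_lit 0x5fb570bf79917f9eb2fdc1e6013d8bfb86d7f4382fdee8) b28774 (.nil)))) (.one (nat_lit 68) (nat_lit 23) (nat_lit 18) (nat_lit 0x5faa88bf86217edb5afd6aa5fe182bfa29d7f9ddafd974) b28777 (.nil)))))) (.tok (nat_lit 52) (nat_lit 0x5fa908bfb19d7f5be2fd5ea5fff18bf9f9d801022fd8b4) (.hit (nat_lit 25) (nat_lit 39) (nat_lit 0x5fa50cbf5f0d7ef05afd3ec5fd62ebf97a57f848afd6b6) b28779 (.hit (nat_lit 26) (nat_lit 40) (nat_lit 0x5fa908bfb19d7f5be2fd5ea5fff18bf9f9d801022fd8b4) b28780 (.nil))) (.tok (nat_lit 55) (nat_lit 0x600b4ec017e980788b004d460368ac059218098630035f) (.hit (nat_lit 27) (nat_lit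 41) (nat_lit 0x600b4ec017e980765b004d460368ac059218098630035f) b28781 (.tok (nat_lit 3) (nat_lit 0x5fc450bfd575801f2afe38e601c40bfd62d7feab2fe658) (.hit (nat_lit 33) (nat_lit 47) (nat_lit 0x5fb960bfa2317ff0c2fde16601a8abfc04d7fb7dafe0e0) b28787 (.one (nat_lit 67) (nat_lit 34) (nat_lit 48) (nat_lit 0x5fc450bfd575801f2afe38e601c40bfd62d7feab2fe658) b28788 (.nil))) (.tok (nat_lit 6) (nat_lit 0x5fb79cbfc97180788afdd3460224cbfbcc57f916afdffe) (.hit (nat_lit 28) (nat_lit 42) (nat_lit 0x5fac02bf7ff97f8402fd7676006f4bfa5917f7c92fda31) b28782 (.hit (nat_lit 31) (nat_lit 45) (nat_lit 0x5fb552bfb00d7fae12fdc0f601306bfb8317f56dafded9) b28785 (.tok (nat_lit 55) (nat_lit 0x5fb79cbfc97180788afdd3460224cbfbcc57f916afdffe) (.hit (nat_lit 29) (nat_lit 43) (nat_lit 0x5fb26cbf8f517fc6fafda9c601a30bfb2657f916afdd66) b28783 (.hit (nat_lit 32) (nat_lit 46) (nat_lit 0x5fb79cbfc97180788afdd3460224cbfbcc57f73fafdffe)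 b28786 (.one (nat_lit 6) (nat_lit 30) (nat_lit 44) (nat_lit 0x5fa494bf6b117fa3c2fd3b05fe116bf96b57f52c2fd67a) b28784 (.nil)))) (.nil)))) (.nil)))) (.one (nat_lit 58) (nat_lit 35) (nat_lit 49) (nat_lit 0x5faf9abfbd857f63dafd93360033cbfacc1807e1afdbfd) b28789 (.nil)))))) (.tok (nat_lit 9) (nat_lit 0x60365ac07b75814b1b02a0e604f50c0822d81ae4b02e00) (.hit (nat_lit 0) (nat_lit 0) (nat_lit 0x5fef08c05c218087bb0017e603bc0bff0298037ab0004f) b28754 (.tok (nat_lit 9) (nat_lit 0x6014c8c0498180cac3015db603c5ac02279809e7b01743) (.hit (nat_lit 1) (nat_lit 20) (nat_lit 0x5fde8cbf54e17edbbaffea35fec8ebfce997f6e83003f5) b28755 (.hit (nat_lit 4) (nat_lit 28) (nat_lit 0x5f9278bf5d3d7ec3cafd9165fd7d8bf2cdd7f202afd20a) b28758 (.tok (nat_lit 14) (nat_lit 0x6014c8c0146980cac3015db603c5ac02279809e7b01743) (.hit (nat_lit 2) (nat_lit 24) (nat_lit 0x6014c8bffaf5802b6b015db5ffe2ec0199d80534b01743) b28756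 (.hit (nat_lit 5) (nat_lit 30) (nat_lit 0x5fa962bfd3157f2c42fec0c5fede6bf8dc97ffc72fe534) b28759 (.one (nat_lit 6) (nat_lit 3) (nat_lit 25) (nat_lit 0x60033ec0146980cac3010df603c5ac02279809e7b015ec) b28757 (.nil)))) (.one (nat_lit 56) (nat_lit 6) (nat_lit 31) (nat_lit 0x5fcb3ec04981807ab2ffd44603920bfc21d805a3aff652) b28760 (.nil))))) (.tok (nat_lit 64) (nat_lit 0x60365ac0463180744b02a0e601598bfed29818e2b02e00) (.hit (nat_lit 7) (nat_lit 50) (nat_lit 0x60365ac0463180744b02a0e5fe19ebfed29818e2b02e00) b28761 (.hit (nat_lit 8) (nat_lit 51) (nat_lit 0x60119ac001a57fb6fb01722601598bfce3d804cc301479) b28762 (.nil))) (.tok (nat_lit 67) (nat_lit 0x602740c07b75814b1b0254d604f50c0822d81ae4b02438) (.hit (nat_lit 9) (nat_lit 52) (nat_lit 0x602740c07b75814b1b0254d604f50c0822d81ae4b022d0) b28763 (.tok (nat_lit 3) (nat_lit 0x60198cbfea81800c9b01f0a602682c0686580dd2302438) (.hit (nat_lit 12)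 (nat_lit 58) (nat_lit 0x60197ebfc3857fb043019a760065ac01259807103016fa) b28766 (.one (nat_lit 55) (nat_lit 13) (nat_lit 59) (nat_lit 0x60198cbfea81800c9b01f0a602682c0686580dd2302438) b28767 (.nil))) (.tok (nat_lit 9) (nat_lit 0x600964c018518094d300d95602156bfec3980f5130057e) (.hit (nat_lit 10) (nat_lit 53) (nat_lit 0x5fe120c018518060a3008ad60093ebfec3980f513001d7) b28764 (.hit (nat_lit 11) (nat_lit 56) (nat_lit 0x600964bff08d8094d300d95602156bfdc6980280b0057e) b28765 (.nil))) (.nil)))) (.one (nat_lit 70) (nat_lit 14) (nat_lit 60) (nat_lit 0x5ffc1ac012797fac5300efa6012ccbfeb1580da5300c53) b28768 (.nil)))))) (.nil))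
noncomputable def r15_74 : Rw Blk := .tok (nat_lit 9) (nat_lit 0x5e0000c0e745821e6304ff6) (.hit (nat_lit 18) (nat_lit 0) (nat_lit 0x5e0000bfdc257fe24b00ca6) b28808 (.tok (nat_lit 14) (nat_lit 0x5e0000c06c2980afbb02c30) (.hit (nat_lit 19) (nat_lit 61) (nat_lit 0x5e0000c002f580afbb018c7) b28809 (.one (nat_lit 3) (nat_lit 20) (nat_lit 62) (nat_lit 0x5e0000bfeca1800bb300e1e) b28810 (.tok (nat_lit 6) (nat_lit 0x5e0000c06c2980a93302c30) (.hit (nat_lit 23) (nat_lit 65) (nat_lit 0x5e0000c06c2980a93302c30) b28813 (.hit (nat_lit 24) (nat_lit 66) (nat_lit 0x5e0000bfc7f97f7f6b00be0) b28814 (.nil))) (.tok (nat_lit 9) (nat_lit 0x5e0000bfb78d7f669b009a9) (.hit (nat_lit 21) (nat_lit 63) (nat_lit 0x5e0000bf81c57eee42ff64e) b28811 (.hit (nat_lit 22) (nat_lit 64) (nat_lit 0x5e0000bfb78d7f669b009a9) b28812 (.nil))) (.nil))))) (.one (nat_lit 17) (nat_lit 25) (nat_lit 67) (nat_lit 0x5e0000bfd2bd7fd52b001e7)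 b28815 (.tok (nat_lit 20) (nat_lit 0x5e0000bf96a17f26c2ffefb) (.hit (nat_lit 26) (nat_lit 68) (nat_lit 0x5e0000bf7ad97ee06aff493) b28816 (.hit (nat_lit 27) (nat_lit 69) (nat_lit 0x5e0000bf96a17f26c2ffefb) b28817 (.nil))) (.tok (nat_lit 23) (nat_lit 0x5e0000c0e745821e6304ff6) (.hit (nat_lit 28) (nat_lit 70) (nat_lit 0x5e0000c0e745821e6304ff6) b28818 (.hit (nat_lit 29) (nat_lit 71) (nat_lit 0x5e0000bf7ab17efc0aff911) b28819 (.nil))) (.one (nat_lit 26) (nat_lit 30) (nat_lit 72) (nat_lit 0x5e0000bf846d7ef132ff8e5) b28820 (.one (nat_lit 29) (nat_lit 31) (nat_lit 73) (nat_lit 0x5e0000bf9b017f7f3b00313) b28821 (.one (nat_lit 32) (nat_lit 32) (nat_lit 74) (nat_lit 0x5e0000bfb7d17f7c8b000bc) b28822 (.one (nat_lit 35) (nat_lit 33) (nat_lit 75) (nat_lit 0x5e0000bf7dfd7ed822ff27a) b28823 (.one (nat_lit 38) (nat_lit 34) (nat_lit 76) (nat_lit 0x5e0000bf91117f0da2ffd64) b28824 (.tok (nat_lit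 41) (nat_lit 0x5e0000bfc0397fc94300880) (.hit (nat_lit 35) (nat_lit 77) (nat_lit 0x5e0000bf5d057ee0daff75d) b28825 (.hit (nat_lit 36) (nat_lit 78) (nat_lit 0x5e0000bfc0397fc94300880) b28826 (.nil))) (.tok (nat_lit 44) (nat_lit 0x5e0000bfa2057f56bb0016b) (.hit (nat_lit 37) (nat_lit 79) (nat_lit 0x5e0000bf2f5d7e4972fe1b4) b28827 (.hit (nat_lit 38) (nat_lit 80) (nat_lit 0x5e0000bfa2057f56bb0016b) b28828 (.nil))) (.tok (nat_lit 47) (nat_lit 0x5e0000bf7eb57fb772ffbb2) (.hit (nat_lit 39) (nat_lit 81) (nat_lit 0x5e0000bf7eb57fb772ffbb2) b28829 (.hit (nat_lit 40) (nat_lit 82) (nat_lit 0x5e0000bf5dc57f13baffa67) b28830 (.nil))) (.one (nat_lit 50) (nat_lit 41) (nat_lit 83) (nat_lit 0x5e0000bfbfed7f5dc3002bc) b28831 (.tok (nat_lit 53) (nat_lit 0x5e0000bfca997f937b0016c) (.hit (nat_lit 42) (nat_lit 84) (nat_lit 0x5e0000bf9a0d7f6532ffd5d) b28832 (.hit (nat_lit 43) (nat_lit 85) (nat_lit 0x5e0000bfca997f937b0016c)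 b28833 (.nil))) (.tok (nat_lit 56) (nat_lit 0x5e0000c02ab97f79e300d8b) (.hit (nat_lit 44) (nat_lit 86) (nat_lit 0x5e0000c02ab97f79e300d8b) b28834 (.one (nat_lit 3) (nat_lit 48) (nat_lit 90) (nat_lit 0x5e0000bf7dbd7ee632ff54c) b28838 (.tok (nat_lit 6) (nat_lit 0x5e0000bf6b1d7ec0f2ff0a4) (.hit (nat_lit 46) (nat_lit 88) (nat_lit 0x5e0000bf6b1d7ec0f2ff0a4) b28836 (.hit (nat_lit 47) (nat_lit 89) (nat_lit 0x5e0000bf4f057e88c2fe99e) b28837 (.nil))) (.one (nat_lit 9) (nat_lit 45) (nat_lit 87) (nat_lit 0x5e0000bf79257edd02ff426) b28835 (.nil))))) (.one (nat_lit 59) (nat_lit 49) (nat_lit 91) (nat_lit 0x5e0000bf8bc97f0c32ff47b) b28839 (.nil)))))))))))))))))) (.tok (nat_lit 64) (nat_lit 0x5e0000c08e59812d4b03a83) (.hit (nat_lit 13) (nat_lit 0) (nat_lit 0x5e0000c07a79812d4b034b6) b28803 (.tok (nat_lit 6) (nat_lit 0x5e0000bff6a17f80bb00ad3) (.hit (nat_lit 14) (nat_lit 7) (nat_lit 0x5e0000bf89097efccaff4df)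 b28804 (.hit (nat_lit 15) (nat_lit 15) (nat_lit 0x5e0000bff6a17f80bb00ad3) b28805 (.nil))) (.tok (nat_lit 9) (nat_lit 0x5e0000c08e5980a9eb03a83) (.hit (nat_lit 16) (nat_lit 20) (nat_lit 0x5e0000c06cb58084cb031d0) b28806 (.hit (nat_lit 17) (nat_lit 28) (nat_lit 0x5e0000c08e5980a9eb03a83) b28807 (.nil))) (.nil)))) (.tok (nat_lit 67) (nat_lit 0x5e0000bfefbd7fc5c300dfe) (.hit (nat_lit 8) (nat_lit 0) (nat_lit 0x5e0000bfefbd7fb0b300b5c) b28798 (.tok (nat_lit 3) (nat_lit 0x5e0000bfeb957fc1e300d82) (.hit (nat_lit 9) (nat_lit 1) (nat_lit 0x5e0000bfaa897f3fcaffd3f) b28799 (.one (nat_lit 55) (nat_lit 10) (nat_lit 3) (nat_lit 0x5e0000bfeb957fc1e300d82) b28800 (.nil))) (.tok (nat_lit 9) (nat_lit 0x5e0000bfed857fc5c300dfe) (.hit (nat_lit 11) (nat_lit 20) (nat_lit 0x5e0000bfed857fc5c300dfe) b28801 (.hit (nat_lit 12) (nat_lit 28) (nat_lit 0x5e0000bf9a6d7f1f92ff938) b28802 (.nil))) (.nil))))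 (.tok (nat_lit 70) (nat_lit 0x5e0000c0464180773b0242d) (.hit (nat_lit 0) (nat_lit 0) (nat_lit 0x5e0000c03b097fdbcb01a56) b28790 (.tok (nat_lit 3) (nat_lit 0x5e0000c0464180773b0242d) (.hit (nat_lit 1) (nat_lit 1) (nat_lit 0x5e0000bff59d7fd5f301004) b28791 (.one (nat_lit 67) (nat_lit 2) (nat_lit 2) (nat_lit 0x5e0000c0464180773b0242d) b28792 (.nil))) (.tok (nat_lit 6) (nat_lit 0x5e0000c0395d805d73020f4) (.hit (nat_lit 3) (nat_lit 7) (nat_lit 0x5e0000bfe2917fafdb00b41) b28793 (.hit (nat_lit 6) (nat_lit 15) (nat_lit 0x5e0000bfead97fc06b00d53) b28796 (.tok (nat_lit 55) (nat_lit 0x5e0000c0395d805d73020f4) (.hit (nat_lit 4) (nat_lit 8) (nat_lit 0x5e0000c01861801b7b018b5) b28794 (.hit (nat_lit 7) (nat_lit 16) (nat_lit 0x5e0000c037998059eb02083) b28797 (.one (nat_lit 6) (nat_lit 5) (nat_lit 9) (nat_lit 0x5e0000c0395d805d73020f4) b28795 (.nil)))) (.nil)))) (.nil)))) (.nil))))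
noncomputable def r15_75 : Rw Blk := .tok (nat_lit 3) (nat_lit 0x5e0000c0beb981829303c24) (.hit (nat_lit 0) (nat_lit 0) (nat_lit 0x5e0000c0beb9817f0b0379a) b28840 (.tok (nat_lit 6) (nat_lit 0x5e0000c03b9d80ac3b01d78) (.hit (nat_lit 1) (nat_lit 7) (nat_lit 0x5e0000bf8e297f5be2ff21b) b28841 (.hit (nat_lit 6) (nat_lit 15) (nat_lit 0x5e0000bf8a457f9a9aff122) b28846 (.tok (nat_lit 14) (nat_lit 0x5e0000bff2fd80ac3b00b50) (.hit (nat_lit 2) (nat_lit 11) (nat_lit 0x5e0000bfee7d805a5300a30) b28842 (.hit (nat_lit 7) (nat_lit 17) (nat_lit 0x5e0000bff2fd80794b00b50) b28847 (.one (nat_lit 9) (nat_lit 3) (nat_lit 12) (nat_lit 0x5e0000bfe0c180ac3b006c1) b28843 (.nil)))) (.tok (nat_lit 56) (nat_lit 0x5e0000c03b9d80984b01d78) (.hit (nat_lit 4) (nat_lit 13) (nat_lit 0x5e0000bfd135801cab002de) b28844 (.hit (nat_lit 8) (nat_lit 19) (nat_lit 0x5e0000bfdd257ff57b005da) b28848 (.one (nat_lit 6) (nat_lit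 5) (nat_lit 14) (nat_lit 0x5e0000c03b9d80984b01d78) b28845 (.nil)))) (.nil))))) (.tok (nat_lit 52) (nat_lit 0x5e0000c02fad811d0b01a7c) (.hit (nat_lit 9) (nat_lit 39) (nat_lit 0x5e0000c02fad811d0b01a7c) b28849 (.hit (nat_lit 10) (nat_lit 40) (nat_lit 0x5e0000c00c2980d63b0119b) b28850 (.nil))) (.tok (nat_lit 55) (nat_lit 0x5e0000c0b6d581829303c24) (.hit (nat_lit 11) (nat_lit 41) (nat_lit 0x5e0000c0b6d581829303c24) b28851 (.tok (nat_lit 3) (nat_lit 0x5e0000c0252980edfb017db) (.hit (nat_lit 17) (nat_lit 47) (nat_lit 0x5e0000c0252980c1eb017db) b28857 (.one (nat_lit 67) (nat_lit 18) (nat_lit 48) (nat_lit 0x5e0000c0163d80edfb01420) b28858 (.nil))) (.tok (nat_lit 6) (nat_lit 0x5e0000c0418180e3d301ef1) (.hit (nat_lit 12) (nat_lit 42) (nat_lit 0x5e0000c00ffd809e4b01290) b28852 (.hit (nat_lit 15) (nat_lit 45) (nat_lit 0x5e0000c00c81808da3011b1) b28855 (.tok (nat_lit 55) (nat_lit 0x5e0000c0418180e3d301ef1)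 (.hit (nat_lit 13) (nat_lit 43) (nat_lit 0x5e0000c0418180e3d301ef1) b28853 (.hit (nat_lit 16) (nat_lit 46) (nat_lit 0x5e0000c034c180b52301bc1) b28856 (.one (nat_lit 6) (nat_lit 14) (nat_lit 44) (nat_lit 0x5e0000c01bed8076e30158c) b28854 (.nil)))) (.nil)))) (.nil)))) (.one (nat_lit 58) (nat_lit 19) (nat_lit 49) (nat_lit 0x5e0000bfef5180554b00a65) b28859 (.nil)))))) (.tok (nat_lit 9) (nat_lit 0x5e0000c0db7581d82b04513) (.hit (nat_lit 20) (nat_lit 0) (nat_lit 0x5e0000c0cad181a2d303bfd) b28860 (.tok (nat_lit 9) (nat_lit 0x5e0000c0db7581d82b04513) (.hit (nat_lit 21) (nat_lit 20) (nat_lit 0x5e0000c06e9581137b02ba1) b28861 (.hit (nat_lit 24) (nat_lit 28) (nat_lit 0x5e0000c034ad808da301e47) b28864 (.tok (nat_lit 14) (nat_lit 0x5e0000c0db7581d82b04321) (.hit (nat_lit 22) (nat_lit 24) (nat_lit 0x5e0000c0a715817c1b03899) b28862 (.hit (nat_lit 25) (nat_lit 30) (nat_lit 0x5e0000c08f19812c1b03160)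 b28865 (.one (nat_lit 6) (nat_lit 23) (nat_lit 25) (nat_lit 0x5e0000c0db7581d82b04321) b28863 (.nil)))) (.one (nat_lit 56) (nat_lit 26) (nat_lit 31) (nat_lit 0x5e0000c0d3d181c60304513) b28866 (.nil))))) (.nil))) (.nil))
noncomputable def r15_76 : Rw Blk := .tok (nat_lit 9) (nat_lit 0xbc000178000306f8b) (.hit (nat_lit 0) (nat_lit 0) (nat_lit 0xbc000178000302d37) b28867 (.tok (nat_lit 14) (nat_lit 0xbc000178000306f8b) (.hit (nat_lit 1) (nat_lit 61) (nat_lit 0xbc000178000304580) b28868 (.one (nat_lit 3) (nat_lit 2) (nat_lit 62) (nat_lit 0xbc0001780003034b9) b28869 (.tok (nat_lit 6) (nat_lit 0xbc000178000306f8b) (.hit (nat_lit 5) (nat_lit 65) (nat_lit 0xbc000178000306f8b) b28872 (.hit (nat_lit 6) (nat_lit 66) (nat_lit 0xbc000178000302d6a) b28873 (.nil))) (.tok (nat_lit 9) (nat_lit 0xbc00017800030325b) (.hit (nat_lit 3) (nat_lit 63) (nat_lit 0xbc00017800030325b) b28870 (.hit (nat_lit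 4) (nat_lit 64) (nat_lit 0xbc000178000301779) b28871 (.nil))) (.nil))))) (.one (nat_lit 17) (nat_lit 7) (nat_lit 67) (nat_lit 0xbc000178000302513) b28874 (.tok (nat_lit 20) (nat_lit 0xbc000178000301da0) (.hit (nat_lit 8) (nat_lit 68) (nat_lit 0xbc000178000301da0) b28875 (.hit (nat_lit 9) (nat_lit 69) (nat_lit 0xbc00017800030181d) b28876 (.nil))) (.tok (nat_lit 23) (nat_lit 0xbc000178000306122) (.hit (nat_lit 10) (nat_lit 70) (nat_lit 0xbc000178000306122) b28877 (.hit (nat_lit 11) (nat_lit 71) (nat_lit 0xbc0001780003022f0) b28878 (.nil))) (.one (nat_lit 38) (nat_lit 12) (nat_lit 76) (nat_lit 0xbc000178000302cfe) b28879 (.tok (nat_lit 41) (nat_lit 0xbc00017800030216c) (.hit (nat_lit 13) (nat_lit 77) (nat_lit 0xbc000178000300e08) b28880 (.hit (nat_lit 14) (nat_lit 78) (nat_lit 0xbc00017800030216c) b28881 (.nil))) (.tok (nat_lit 44) (nat_lit 0xbc000178000301a17) (.hit (nat_lit 15)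 (nat_lit 79) (nat_lit 0xbc000178000300e05) b28882 (.hit (nat_lit 16) (nat_lit 80) (nat_lit 0xbc000178000301a17) b28883 (.nil))) (.tok (nat_lit 47) (nat_lit 0xbc00017800030340f) (.hit (nat_lit 17) (nat_lit 81) (nat_lit 0xbc00017800030340f) b28884 (.hit (nat_lit 18) (nat_lit 82) (nat_lit 0xbc000178000301d7a) b28885 (.nil))) (.one (nat_lit 50) (nat_lit 19) (nat_lit 83) (nat_lit 0xbc00017800030293e) b28886 (.tok (nat_lit 53) (nat_lit 0xbc000178000302386) (.hit (nat_lit 20) (nat_lit 84) (nat_lit 0xbc00017800030125a) b28887 (.hit (nat_lit 21) (nat_lit 85) (nat_lit 0xbc000178000302386) b28888 (.nil))) (.tok (nat_lit 56) (nat_lit 0xbc000178000304213) (.hit (nat_lit 22) (nat_lit 86) (nat_lit 0xbc000178000304213) b28889 (.one (nat_lit 3) (nat_lit 26) (nat_lit 90) (nat_lit 0xbc0001780003024fd) b28893 (.tok (nat_lit 6) (nat_lit 0xbc000178000301dc0) (.hit (nat_lit 24) (nat_lit 88) (nat_lit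 0xbc000178000301dc0) b28891 (.hit (nat_lit 25) (nat_lit 89) (nat_lit 0xbc0001780003017bb) b28892 (.nil))) (.one (nat_lit 9) (nat_lit 23) (nat_lit 87) (nat_lit 0xbc00017800030285b) b28890 (.nil))))) (.one (nat_lit 59) (nat_lit 27) (nat_lit 91) (nat_lit 0xbc000178000300cbf) b28894 (.nil)))))))))))))) (.nil)
noncomputable def r15_77 : Rw Blk := .tok (nat_lit 9) (nat_lit 0xbc000178000303055) (.hit (nat_lit 18) (nat_lit 0) (nat_lit 0xbc0001780002fdc03) b28913 (.tok (nat_lit 14) (nat_lit 0xbc000178000303055) (.hit (nat_lit 19) (nat_lit 61) (nat_lit 0xbc000178000300103) b28914 (.one (nat_lit 3) (nat_lit 20) (nat_lit 62) (nat_lit 0xbc0001780002feee3) b28915 (.tok (nat_lit 6) (nat_lit 0xbc000178000303055) (.hit (nat_lit 23) (nat_lit 65) (nat_lit 0xbc000178000303055) b28918 (.hit (nat_lit 24) (nat_lit 66) (nat_lit 0xbc0001780002ff015) b28919 (.nil))) (.tok (nat_lit 9) (nat_lit 0xbc0001780002fe42e)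 (.hit (nat_lit 21) (nat_lit 63) (nat_lit 0xbc0001780002fdefe) b28916 (.hit (nat_lit 22) (nat_lit 64) (nat_lit 0xbc0001780002fe42e) b28917 (.nil))) (.nil))))) (.one (nat_lit 17) (nat_lit 25) (nat_lit 67) (nat_lit 0xbc0001780002fe692) b28920 (.tok (nat_lit 20) (nat_lit 0xbc0001780002fe3bb) (.hit (nat_lit 26) (nat_lit 68) (nat_lit 0xbc0001780002fd340) b28921 (.hit (nat_lit 27) (nat_lit 69) (nat_lit 0xbc0001780002fe3bb) b28922 (.nil))) (.tok (nat_lit 23) (nat_lit 0xbc0001780003010cb) (.hit (nat_lit 28) (nat_lit 70) (nat_lit 0xbc0001780003010cb) b28923 (.hit (nat_lit 29) (nat_lit 71) (nat_lit 0xbc0001780002fe239) b28924 (.nil))) (.one (nat_lit 26) (nat_lit 30) (nat_lit 72) (nat_lit 0xbc0001780002fe66f) b28925 (.one (nat_lit 29) (nat_lit 31) (nat_lit 73) (nat_lit 0xbc0001780002fe7db) b28926 (.one (nat_lit 32) (nat_lit 32) (nat_lit 74) (nat_lit 0xbc0001780002feed5) b28927 (.one (nat_lit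 35) (nat_lit 33) (nat_lit 75) (nat_lit 0xbc0001780002fded1) b28928 (.one (nat_lit 38) (nat_lit 34) (nat_lit 76) (nat_lit 0xbc0001780002fe260) b28929 (.tok (nat_lit 41) (nat_lit 0xbc0001780002fe02b) (.hit (nat_lit 35) (nat_lit 77) (nat_lit 0xbc0001780002fd5db) b28930 (.hit (nat_lit 36) (nat_lit 78) (nat_lit 0xbc0001780002fe02b) b28931 (.nil))) (.tok (nat_lit 44) (nat_lit 0xbc0001780002fe01c) (.hit (nat_lit 37) (nat_lit 79) (nat_lit 0xbc0001780002fb9a5) b28932 (.hit (nat_lit 38) (nat_lit 80) (nat_lit 0xbc0001780002fe01c) b28933 (.nil))) (.tok (nat_lit 47) (nat_lit 0xbc0001780002fd90b) (.hit (nat_lit 39) (nat_lit 81) (nat_lit 0xbc0001780002fd505) b28934 (.hit (nat_lit 40) (nat_lit 82) (nat_lit 0xbc0001780002fd90b) b28935 (.nil))) (.one (nat_lit 50) (nat_lit 41) (nat_lit 83) (nat_lit 0xbc0001780002fe961) b28936 (.tok (nat_lit 53) (nat_lit 0xbc0001780002fe4b1) (.hit (nat_lit 42) (nat_lit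 84) (nat_lit 0xbc0001780002fdca3) b28937 (.hit (nat_lit 43) (nat_lit 85) (nat_lit 0xbc0001780002fe4b1) b28938 (.nil))) (.tok (nat_lit 56) (nat_lit 0xbc0001780002ff907) (.hit (nat_lit 44) (nat_lit 86) (nat_lit 0xbc0001780002ff907) b28939 (.one (nat_lit 3) (nat_lit 48) (nat_lit 90) (nat_lit 0xbc0001780002fd2d4) b28943 (.tok (nat_lit 6) (nat_lit 0xbc0001780002fdf6a) (.hit (nat_lit 46) (nat_lit 88) (nat_lit 0xbc0001780002fdf6a) b28941 (.hit (nat_lit 47) (nat_lit 89) (nat_lit 0xbc0001780002fc605) b28942 (.nil))) (.one (nat_lit 9) (nat_lit 45) (nat_lit 87) (nat_lit 0xbc0001780002fdefe) b28940 (.nil))))) (.one (nat_lit 59) (nat_lit 49) (nat_lit 91) (nat_lit 0xbc0001780002fe048) b28944 (.nil)))))))))))))))))) (.tok (nat_lit 64) (nat_lit 0xbc000178000302301) (.hit (nat_lit 13) (nat_lit 0) (nat_lit 0xbc0001780003013eb) b28908 (.tok (nat_lit 6) (nat_lit 0xbc0001780002ffbd7) (.hit (nat_lit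 14) (nat_lit 7) (nat_lit 0xbc0001780002fe784) b28909 (.hit (nat_lit 15) (nat_lit 15) (nat_lit 0xbc0001780002ffbd7) b28910 (.nil))) (.tok (nat_lit 9) (nat_lit 0xbc000178000302301) (.hit (nat_lit 16) (nat_lit 20) (nat_lit 0xbc000178000301f68) b28911 (.hit (nat_lit 17) (nat_lit 28) (nat_lit 0xbc000178000302301) b28912 (.nil))) (.nil)))) (.tok (nat_lit 67) (nat_lit 0xbc00017800030047f) (.hit (nat_lit 8) (nat_lit 0) (nat_lit 0xbc0001780002ff5a3) b28903 (.tok (nat_lit 3) (nat_lit 0xbc00017800030047f) (.hit (nat_lit 9) (nat_lit 1) (nat_lit 0xbc0001780002feebf) b28904 (.one (nat_lit 55) (nat_lit 10) (nat_lit 3) (nat_lit 0xbc00017800030047f) b28905 (.nil))) (.tok (nat_lit 9) (nat_lit 0xbc0001780002fef25) (.hit (nat_lit 11) (nat_lit 20) (nat_lit 0xbc0001780002fef25) b28906 (.hit (nat_lit 12) (nat_lit 28) (nat_lit 0xbc0001780002fe2c8) b28907 (.nil))) (.nil)))) (.tok (nat_lit 70) (nat_lit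 0xbc00017800030139a) (.hit (nat_lit 0) (nat_lit 0) (nat_lit 0xbc0001780002ffd67) b28895 (.tok (nat_lit 3) (nat_lit 0xbc0001780003008ed) (.hit (nat_lit 1) (nat_lit 1) (nat_lit 0xbc0001780002ff7fe) b28896 (.one (nat_lit 67) (nat_lit 2) (nat_lit 2) (nat_lit 0xbc0001780003008ed) b28897 (.nil))) (.tok (nat_lit 6) (nat_lit 0xbc00017800030139a) (.hit (nat_lit 3) (nat_lit 7) (nat_lit 0xbc00017800030047d) b28898 (.hit (nat_lit 6) (nat_lit 15) (nat_lit 0xbc0001780002ff752) b28901 (.tok (nat_lit 55) (nat_lit 0xbc00017800030139a) (.hit (nat_lit 4) (nat_lit 8) (nat_lit 0xbc000178000300e5d) b28899 (.hit (nat_lit 7) (nat_lit 16) (nat_lit 0xbc00017800030085f) b28902 (.one (nat_lit 6) (nat_lit 5) (nat_lit 9) (nat_lit 0xbc00017800030139a) b28900 (.nil)))) (.nil)))) (.nil)))) (.nil))))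
noncomputable def r15_78 : Rw Blk := .tok (nat_lit 3) (nat_lit 0xbc000178000303eef) (.hit (nat_lit 0) (nat_lit 0) (nat_lit 0xbc00017800030282a) b28945 (.tok (nat_lit 6) (nat_lit 0xbc0001780003017ae) (.hit (nat_lit 1) (nat_lit 7) (nat_lit 0xbc0001780002ff0fa) b28946 (.hit (nat_lit 6) (nat_lit 15) (nat_lit 0xbc0001780002fe7b1) b28951 (.tok (nat_lit 14) (nat_lit 0xbc000178000300de1) (.hit (nat_lit 2) (nat_lit 11) (nat_lit 0xbc000178000300a07) b28947 (.hit (nat_lit 7) (nat_lit 17) (nat_lit 0xbc0001780002fff46) b28952 (.one (nat_lit 9) (nat_lit 3) (nat_lit 12) (nat_lit 0xbc000178000300de1) b28948 (.nil)))) (.tok (nat_lit 56) (nat_lit 0xbc0001780003017ae) (.hit (nat_lit 4) (nat_lit 13) (nat_lit 0xbc0001780003003b0) b28949 (.hit (nat_lit 8) (nat_lit 19) (nat_lit 0xbc0001780002ffbdc) b28953 (.one (nat_lit 6) (nat_lit 5) (nat_lit 14) (nat_lit 0xbc0001780003017ae) b28950 (.nil)))) (.nil)))))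 (.tok (nat_lit 52) (nat_lit 0xbc00017800030180e) (.hit (nat_lit 9) (nat_lit 39) (nat_lit 0xbc00017800030180e) b28954 (.hit (nat_lit 10) (nat_lit 40) (nat_lit 0xbc000178000300a7d) b28955 (.nil))) (.tok (nat_lit 55) (nat_lit 0xbc000178000303eef) (.hit (nat_lit 11) (nat_lit 41) (nat_lit 0xbc000178000303eef) b28956 (.tok (nat_lit 3) (nat_lit 0xbc000178000301990) (.hit (nat_lit 17) (nat_lit 47) (nat_lit 0xbc00017800030171a) b28962 (.one (nat_lit 67) (nat_lit 18) (nat_lit 48) (nat_lit 0xbc000178000301990) b28963 (.nil))) (.tok (nat_lit 6) (nat_lit 0xbc00017800030197e) (.hit (nat_lit 12) (nat_lit 42) (nat_lit 0xbc00017800030142d) b28957 (.hit (nat_lit 15) (nat_lit 45) (nat_lit 0xbc000178000300eb7) b28960 (.tok (nat_lit 55) (nat_lit 0xbc00017800030197e) (.hit (nat_lit 13) (nat_lit 43) (nat_lit 0xbc00017800030197e) b28958 (.hit (nat_lit 16) (nat_lit 46) (nat_lit 0xbc00017800030142a) b28961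 (.one (nat_lit 6) (nat_lit 14) (nat_lit 44) (nat_lit 0xbc000178000301813) b28959 (.nil)))) (.nil)))) (.nil)))) (.one (nat_lit 58) (nat_lit 19) (nat_lit 49) (nat_lit 0xbc0001780002ffd62) b28964 (.nil)))))) (.tok (nat_lit 9) (nat_lit 0xbc000178000305db8) (.hit (nat_lit 20) (nat_lit 0) (nat_lit 0xbc00017800030264c) b28965 (.tok (nat_lit 9) (nat_lit 0xbc000178000305db8) (.hit (nat_lit 21) (nat_lit 20) (nat_lit 0xbc000178000303400) b28966 (.hit (nat_lit 24) (nat_lit 28) (nat_lit 0xbc000178000300907) b28969 (.tok (nat_lit 14) (nat_lit 0xbc000178000305db8) (.hit (nat_lit 22) (nat_lit 24) (nat_lit 0xbc000178000305db8) b28967 (.hit (nat_lit 25) (nat_lit 30) (nat_lit 0xbc0001780003019f8) b28970 (.one (nat_lit 6) (nat_lit 23) (nat_lit 25) (nat_lit 0xbc000178000303f8d) b28968 (.nil)))) (.one (nat_lit 56) (nat_lit 26) (nat_lit 31) (nat_lit 0xbc000178000302d6a) b28971 (.nil))))) (.nil))) (.nil))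
noncomputable def r15_79 : Rw Blk := .tok (nat_lit 6) (nat_lit 0xbc000178000301500) (.hit (nat_lit 21) (nat_lit 0) (nat_lit 0xbc0001780002feddc) b28993 (.tok (nat_lit 14) (nat_lit 0xbc0001780003010db) (.hit (nat_lit 22) (nat_lit 61) (nat_lit 0xbc0001780002ffd26) b28994 (.one (nat_lit 3) (nat_lit 23) (nat_lit 62) (nat_lit 0xbc0001780002ff699) b28995 (.tok (nat_lit 6) (nat_lit 0xbc0001780002ff0b9) (.hit (nat_lit 26) (nat_lit 65) (nat_lit 0xbc0001780002fdfb4) b28998 (.hit (nat_lit 27) (nat_lit 66) (nat_lit 0xbc0001780002ff0b9) b28999 (.nil))) (.tok (nat_lit 9) (nat_lit 0xbc0001780003010db) (.hit (nat_lit 24) (nat_lit 63) (nat_lit 0xbc0001780003010db) b28996 (.hit (nat_lit 25) (nat_lit 64) (nat_lit 0xbc0001780002ffaa6) b28997 (.nil))) (.nil))))) (.one (nat_lit 17) (nat_lit 28) (nat_lit 67) (nat_lit 0xbc0001780002ff95c) b29000 (.tok (nat_lit 20) (nat_lit 0xbc0001780002ff8eb) (.hit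 (nat_lit 29) (nat_lit 68) (nat_lit 0xbc0001780002ff8eb) b29001 (.hit (nat_lit 30) (nat_lit 69) (nat_lit 0xbc0001780002fede2) b29002 (.nil))) (.tok (nat_lit 23) (nat_lit 0xbc0001780002ffdca) (.hit (nat_lit 31) (nat_lit 70) (nat_lit 0xbc0001780002fd181) b29003 (.hit (nat_lit 32) (nat_lit 71) (nat_lit 0xbc0001780002ffdca) b29004 (.nil))) (.one (nat_lit 26) (nat_lit 33) (nat_lit 72) (nat_lit 0xbc0001780002ff3da) b29005 (.one (nat_lit 29) (nat_lit 34) (nat_lit 73) (nat_lit 0xbc0001780002fe69d) b29006 (.one (nat_lit 32) (nat_lit 35) (nat_lit 74) (nat_lit 0xbc0001780002fe2be) b29007 (.one (nat_lit 35) (nat_lit 36) (nat_lit 75) (nat_lit 0xbc0001780002ffbbb) b29008 (.one (nat_lit 50) (nat_lit 37) (nat_lit 83) (nat_lit 0xbc0001780002fe082) b29009 (.tok (nat_lit 53) (nat_lit 0xbc0001780002ff15c) (.hit (nat_lit 38) (nat_lit 84) (nat_lit 0xbc0001780002ff15c) b29010 (.hit (nat_lit 39) (nat_lit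 85) (nat_lit 0xbc0001780002fd9c2) b29011 (.nil))) (.tok (nat_lit 56) (nat_lit 0xbc000178000301500) (.hit (nat_lit 40) (nat_lit 86) (nat_lit 0xbc000178000300e4a) b29012 (.one (nat_lit 3) (nat_lit 44) (nat_lit 90) (nat_lit 0xbc0001780002fff10) b29016 (.tok (nat_lit 6) (nat_lit 0xbc0001780002ffca5) (.hit (nat_lit 42) (nat_lit 88) (nat_lit 0xbc0001780002ffca5) b29014 (.hit (nat_lit 43) (nat_lit 89) (nat_lit 0xbc0001780002fe2f5) b29015 (.nil))) (.one (nat_lit 9) (nat_lit 41) (nat_lit 87) (nat_lit 0xbc000178000301500) b29013 (.nil))))) (.one (nat_lit 59) (nat_lit 45) (nat_lit 91) (nat_lit 0xbc0001780002fd965) b29017 (.one (nat_lit 62) (nat_lit 46) (nat_lit 92) (nat_lit 0xbc0001780002fef6d) b29018 (.tok (nat_lit 65) (nat_lit 0xbc0001780002ff4b0) (.hit (nat_lit 47) (nat_lit 93) (nat_lit 0xbc0001780002fe929) b29019 (.hit (nat_lit 48) (nat_lit 94) (nat_lit 0xbc0001780002ff4b0) b29020 (.nil)))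 (.tok (nat_lit 68) (nat_lit 0xbc0001780002ff916) (.hit (nat_lit 49) (nat_lit 95) (nat_lit 0xbc0001780002ff916) b29021 (.one (nat_lit 3) (nat_lit 53) (nat_lit 99) (nat_lit 0xbc0001780002fd356) b29025 (.one (nat_lit 6) (nat_lit 50) (nat_lit 96) (nat_lit 0xbc0001780002fd830) b29022 (.tok (nat_lit 9) (nat_lit 0xbc0001780002fe0c6) (.hit (nat_lit 51) (nat_lit 97) (nat_lit 0xbc0001780002fe0c6) b29023 (.hit (nat_lit 52) (nat_lit 98) (nat_lit 0xbc0001780002fd861) b29024 (.nil))) (.nil))))) (.one (nat_lit 71) (nat_lit 54) (nat_lit 100) (nat_lit 0xbc0001780002ff01c) b29026 (.nil)))))))))))))))))) (.tok (nat_lit 52) (nat_lit 0xbc000178000301a25) (.hit (nat_lit 16) (nat_lit 0) (nat_lit 0xbc0001780003014de) b28988 (.tok (nat_lit 6) (nat_lit 0xbc000178000301a25) (.hit (nat_lit 17) (nat_lit 7) (nat_lit 0xbc000178000301a25) b28989 (.hit (nat_lit 18) (nat_lit 15) (nat_lit 0xbc000178000301179)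 b28990 (.nil))) (.tok (nat_lit 9) (nat_lit 0xbc00017800030197a) (.hit (nat_lit 19) (nat_lit 20) (nat_lit 0xbc0001780002ff5c2) b28991 (.hit (nat_lit 20) (nat_lit 28) (nat_lit 0xbc00017800030197a) b28992 (.nil))) (.nil)))) (.tok (nat_lit 55) (nat_lit 0xbc0001780003014ce) (.hit (nat_lit 8) (nat_lit 0) (nat_lit 0xbc0001780003014ce) b28980 (.tok (nat_lit 3) (nat_lit 0xbc0001780002ffe6e) (.hit (nat_lit 9) (nat_lit 1) (nat_lit 0xbc0001780002ffa9a) b28981 (.one (nat_lit 67) (nat_lit 10) (nat_lit 2) (nat_lit 0xbc0001780002ffe6e) b28982 (.nil))) (.tok (nat_lit 6) (nat_lit 0xbc0001780003003b1) (.hit (nat_lit 11) (nat_lit 7) (nat_lit 0xbc0001780002ff3d5) b28983 (.hit (nat_lit 14) (nat_lit 15) (nat_lit 0xbc0001780002fe939) b28986 (.tok (nat_lit 55) (nat_lit 0xbc0001780003003b1) (.hit (nat_lit 12) (nat_lit 8) (nat_lit 0xbc0001780002ff51a) b28984 (.hit (nat_lit 15) (nat_lit 16) (nat_lit 0xbc0001780003003b1)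 b28987 (.one (nat_lit 6) (nat_lit 13) (nat_lit 9) (nat_lit 0xbc0001780002ffe76) b28985 (.nil)))) (.nil)))) (.nil)))) (.tok (nat_lit 58) (nat_lit 0xbc000178000301638) (.hit (nat_lit 0) (nat_lit 0) (nat_lit 0xbc0001780002fffbe) b28972 (.tok (nat_lit 3) (nat_lit 0xbc000178000300ac0) (.hit (nat_lit 1) (nat_lit 1) (nat_lit 0xbc00017800030045e) b28973 (.one (nat_lit 55) (nat_lit 2) (nat_lit 3) (nat_lit 0xbc000178000300ac0) b28974 (.nil))) (.tok (nat_lit 9) (nat_lit 0xbc000178000301638) (.hit (nat_lit 3) (nat_lit 20) (nat_lit 0xbc000178000300276) b28975 (.hit (nat_lit 6) (nat_lit 28) (nat_lit 0xbc0001780002ffd5c) b28978 (.tok (nat_lit 67) (nat_lit 0xbc000178000301638) (.hit (nat_lit 4) (nat_lit 21) (nat_lit 0xbc000178000300c39) b28976 (.hit (nat_lit 7) (nat_lit 29) (nat_lit 0xbc000178000300e79) b28979 (.one (nat_lit 9) (nat_lit 5) (nat_lit 22) (nat_lit 0xbc000178000301638) b28977 (.nil))))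 (.nil)))) (.nil)))) (.nil))))
noncomputable def r15_80 : Rw Blk := .tok (nat_lit 3) (nat_lit 0xbc0001780003041fa) (.hit (nat_lit 0) (nat_lit 0) (nat_lit 0xbc000178000302cfe) b29027 (.tok (nat_lit 9) (nat_lit 0xbc000178000302211) (.hit (nat_lit 1) (nat_lit 20) (nat_lit 0xbc000178000300688) b29028 (.hit (nat_lit 4) (nat_lit 28) (nat_lit 0xbc0001780002feaf5) b29031 (.one (nat_lit 56) (nat_lit 5) (nat_lit 31) (nat_lit 0xbc00017800030072c) b29032 (.tok (nat_lit 68) (nat_lit 0xbc000178000302211) (.hit (nat_lit 2) (nat_lit 26) (nat_lit 0xbc000178000300556) b29029 (.hit (nat_lit 6) (nat_lit 32) (nat_lit 0xbc0001780002ffff2) b29033 (.one (nat_lit 9) (nat_lit 3) (nat_lit 27) (nat_lit 0xbc000178000302211) b29030 (.nil)))) (.nil))))) (.tok (nat_lit 64) (nat_lit 0xbc000178000301717) (.hit (nat_lit 7) (nat_lit 50) (nat_lit 0xbc0001780003016cb) b29034 (.hit (nat_lit 8) (nat_lit 51) (nat_lit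 0xbc000178000301717) b29035 (.nil))) (.tok (nat_lit 67) (nat_lit 0xbc0001780003041fa) (.hit (nat_lit 9) (nat_lit 52) (nat_lit 0xbc0001780003041fa) b29036 (.one (nat_lit 3) (nat_lit 15) (nat_lit 58) (nat_lit 0xbc000178000301dae) b29042 (.tok (nat_lit 9) (nat_lit 0xbc0001780003027d0) (.hit (nat_lit 10) (nat_lit 53) (nat_lit 0xbc0001780003027d0) b29037 (.hit (nat_lit 13) (nat_lit 56) (nat_lit 0xbc000178000301b68) b29040 (.tok (nat_lit 67) (nat_lit 0xbc000178000302722) (.hit (nat_lit 11) (nat_lit 54) (nat_lit 0xbc000178000302722) b29038 (.hit (nat_lit 14) (nat_lit 57) (nat_lit 0xbc000178000301f06) b29041 (.one (nat_lit 9) (nat_lit 12) (nat_lit 55) (nat_lit 0xbc0001780003019a3) b29039 (.nil)))) (.nil)))) (.nil)))) (.one (nat_lit 70) (nat_lit 16) (nat_lit 60) (nat_lit 0xbc000178000301291) b29043 (.nil)))))) (.tok (nat_lit 6) (nat_lit 0xbc000178000304c27) (.hit (nat_lit 17) (nat_lit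 0) (nat_lit 0xbc000178000303aac) b29044 (.tok (nat_lit 6) (nat_lit 0xbc000178000302eed) (.hit (nat_lit 18) (nat_lit 7) (nat_lit 0xbc000178000302eed) b29045 (.hit (nat_lit 19) (nat_lit 15) (nat_lit 0xbc0001780003002c6) b29046 (.one (nat_lit 68) (nat_lit 20) (nat_lit 18) (nat_lit 0xbc000178000302dbb) b29047 (.nil)))) (.tok (nat_lit 52) (nat_lit 0xbc00017800030460c) (.hit (nat_lit 21) (nat_lit 39) (nat_lit 0xbc00017800030460c) b29048 (.hit (nat_lit 22) (nat_lit 40) (nat_lit 0xbc0001780003045c7) b29049 (.nil))) (.tok (nat_lit 55) (nat_lit 0xbc000178000304b40) (.hit (nat_lit 23) (nat_lit 41) (nat_lit 0xbc000178000304b40) b29050 (.one (nat_lit 3) (nat_lit 26) (nat_lit 47) (nat_lit 0xbc000178000303c59) b29053 (.tok (nat_lit 6) (nat_lit 0xbc000178000303279) (.hit (nat_lit 24) (nat_lit 42) (nat_lit 0xbc000178000303084) b29051 (.hit (nat_lit 25) (nat_lit 45) (nat_lit 0xbc000178000303279)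 b29052 (.nil))) (.nil)))) (.one (nat_lit 58) (nat_lit 27) (nat_lit 49) (nat_lit 0xbc000178000304c27) b29054 (.nil)))))) (.nil))
noncomputable def r15_81 : Rw Blk := .tok (nat_lit 3) (nat_lit 0xbc0001780002fe496) (.hit (nat_lit 15) (nat_lit 0) (nat_lit 0xbc0001780002fd531) b29070 (.tok (nat_lit 9) (nat_lit 0xbc0001780002fcc1b) (.hit (nat_lit 16) (nat_lit 20) (nat_lit 0xbc0001780002fa74a) b29071 (.hit (nat_lit 21) (nat_lit 28) (nat_lit 0xbc0001780002f91cb) b29076 (.tok (nat_lit 14) (nat_lit 0xbc0001780002fc7f9) (.hit (nat_lit 17) (nat_lit 24) (nat_lit 0xbc0001780002fba83) b29072 (.hit (nat_lit 22) (nat_lit 30) (nat_lit 0xbc0001780002fc7f9) b29077 (.one (nat_lit 6) (nat_lit 18) (nat_lit 25) (nat_lit 0xbc0001780002fc414) b29073 (.nil)))) (.one (nat_lit 56) (nat_lit 23) (nat_lit 31) (nat_lit 0xbc0001780002fba8f) b29078 (.tok (nat_lit 68) (nat_lit 0xbc0001780002fcc1b) (.hit (nat_lit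 19) (nat_lit 26) (nat_lit 0xbc0001780002fbae4) b29074 (.hit (nat_lit 24) (nat_lit 32) (nat_lit 0xbc0001780002fc46c) b29079 (.one (nat_lit 9) (nat_lit 20) (nat_lit 27) (nat_lit 0xbc0001780002fcc1b) b29075 (.nil)))) (.nil)))))) (.tok (nat_lit 64) (nat_lit 0xbc0001780002fd20f) (.hit (nat_lit 25) (nat_lit 50) (nat_lit 0xbc0001780002fcaf9) b29080 (.hit (nat_lit 26) (nat_lit 51) (nat_lit 0xbc0001780002fd20f) b29081 (.nil))) (.tok (nat_lit 67) (nat_lit 0xbc0001780002fe496) (.hit (nat_lit 27) (nat_lit 52) (nat_lit 0xbc0001780002fdd4c) b29082 (.tok (nat_lit 3) (nat_lit 0xbc0001780002fd91e) (.hit (nat_lit 33) (nat_lit 58) (nat_lit 0xbc0001780002fd91e) b29088 (.one (nat_lit 55) (nat_lit 34) (nat_lit 59) (nat_lit 0xbc0001780002fcee0) b29089 (.nil))) (.tok (nat_lit 9) (nat_lit 0xbc0001780002fe496) (.hit (nat_lit 28) (nat_lit 53) (nat_lit 0xbc0001780002fda0f) b29083 (.hit (nat_lit 31) (nat_lit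 56) (nat_lit 0xbc0001780002fd64b) b29086 (.tok (nat_lit 67) (nat_lit 0xbc0001780002fe496) (.hit (nat_lit 29) (nat_lit 54) (nat_lit 0xbc0001780002fe496) b29084 (.hit (nat_lit 32) (nat_lit 57) (nat_lit 0xbc0001780002fd6c0) b29087 (.one (nat_lit 9) (nat_lit 30) (nat_lit 55) (nat_lit 0xbc0001780002fe343) b29085 (.nil)))) (.nil)))) (.nil)))) (.one (nat_lit 70) (nat_lit 35) (nat_lit 60) (nat_lit 0xbc0001780002fd891) b29090 (.nil)))))) (.tok (nat_lit 6) (nat_lit 0xbc0001780003016b0) (.hit (nat_lit 0) (nat_lit 0) (nat_lit 0xbc0001780002fdb3a) b29055 (.tok (nat_lit 6) (nat_lit 0xbc0001780002fef0a) (.hit (nat_lit 1) (nat_lit 7) (nat_lit 0xbc0001780002fcf16) b29056 (.hit (nat_lit 4) (nat_lit 15) (nat_lit 0xbc0001780002fcfdc) b29059 (.tok (nat_lit 14) (nat_lit 0xbc0001780002fef0a) (.hit (nat_lit 2) (nat_lit 11) (nat_lit 0xbc0001780002fef0a) b29057 (.hit (nat_lit 5) (nat_lit 17) (nat_lit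 0xbc0001780002fd4f0) b29060 (.one (nat_lit 9) (nat_lit 3) (nat_lit 12) (nat_lit 0xbc0001780002fee9d) b29058 (.nil)))) (.one (nat_lit 68) (nat_lit 6) (nat_lit 18) (nat_lit 0xbc0001780002fd2c6) b29061 (.nil))))) (.tok (nat_lit 52) (nat_lit 0xbc0001780002fdeda) (.hit (nat_lit 7) (nat_lit 39) (nat_lit 0xbc0001780002fdeda) b29062 (.hit (nat_lit 8) (nat_lit 40) (nat_lit 0xbc0001780002fd827) b29063 (.nil))) (.tok (nat_lit 55) (nat_lit 0xbc0001780003016b0) (.hit (nat_lit 9) (nat_lit 41) (nat_lit 0xbc0001780002ff8d6) b29064 (.tok (nat_lit 3) (nat_lit 0xbc0001780003016b0) (.hit (nat_lit 12) (nat_lit 47) (nat_lit 0xbc000178000300fbe) b29067 (.one (nat_lit 67) (nat_lit 13) (nat_lit 48) (nat_lit 0xbc0001780003016b0) b29068 (.nil))) (.tok (nat_lit 6) (nat_lit 0xbc0001780002fe56f) (.hit (nat_lit 10) (nat_lit 42) (nat_lit 0xbc0001780002fe56f) b29065 (.hit (nat_lit 11) (nat_lit 45) (nat_lit 0xbc0001780002fddd3)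 b29066 (.nil))) (.nil)))) (.one (nat_lit 58) (nat_lit 14) (nat_lit 49) (nat_lit 0xbc0001780002fcb0d) b29069 (.nil)))))) (.nil))
noncomputable def r15_82 : Rw Blk := .tok (nat_lit 3) (nat_lit 0x5fa506bf44857e705afd2ab5fd78ebf623d7fdb92fdc60) (.hit (nat_lit 0) (nat_lit 0) (nat_lit 0x5fa1e0bf0cdd7e635afd2ab5fd594bf623d7fa482fdc60) b29091 (.tok (nat_lit 6) (nat_lit 0x5fa506bf44857e705afd0ac5fd354bf5a157fdb92fd7b3) (.hit (nat_lit 1) (nat_lit 7) (nat_lit 0x5fa500bf44857e705afd0a95f9c18bf5a097fdb92fd7b0) b29092 (.hit (nat_lit 2) (nat_lit 15) (nat_lit 0x5fa506bef6697e4e0afd0ac5fd354bf5a157f5522fd7b3) b29093 (.nil))) (.tok (nat_lit 9) (nat_lit 0x5fa506bf44857e705afd0ac5fd78ebf5a157f39f2fd7b3) (.hit (nat_lit 3) (nat_lit 20) (nat_lit 0x5fa500bf44857e705afd0a95fd78ebf5a097ea1aafd7b0) b29094 (.hit (nat_lit 4) (nat_lit 28) (nat_lit 0x5fa506bef6697e4e0afd0ac5fc0d0bf5a157f39f2fd7b3) b29095 (.nil)))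 (.nil)))) (.tok (nat_lit 6) (nat_lit 0x600000c00905804ceb000005fd3ccbfd6fd811002ffbef) (.hit (nat_lit 14) (nat_lit 0) (nat_lit 0x5fd068bf62d97eb48afee075fba1abfa4717f4e8aff453) b29105 (.tok (nat_lit 3) (nat_lit 0x5fe1b6bfae797f73f3000005fb176bfd6fd806f0aff71f) (.hit (nat_lit 15) (nat_lit 1) (nat_lit 0x5fb21cbf364d7e6392fe52f5f961abf63757f2862fe08e) b29106 (.one (nat_lit 67) (nat_lit 16) (nat_lit 2) (nat_lit 0x5fe1b6bfae797f73f3000005fb176bfd6fd806f0aff71f) b29107 (.nil))) (.tok (nat_lit 6) (nat_lit 0x600000c00905804ceaff8c05fd3ccbfcfc5811002ffbef) (.hit (nat_lit 17) (nat_lit 7) (nat_lit 0x5fc2a2bf72e17eb832fe9d15fa190bf6a9d7f81b2fe3be) b29108 (.hit (nat_lit 21) (nat_lit 15) (nat_lit 0x5facecbf31e97e9c82fe2975f9c8ebf5af57f13bafddf2) b29112 (.tok (nat_lit 55) (nat_lit 0x600000c00905804ceaff8c05fd3ccbfcfc5811002ffbef) (.hit (nat_lit 18) (nat_lit 8) (nat_lit 0x5ff4febfb59d7f2522ff7275fbb54bfa361802842ff627)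 b29109 (.hit (nat_lit 22) (nat_lit 16) (nat_lit 0x5fe21ac00905804ceaff7475fd3ccbfcfc5811002ff42c) b29113 (.tok (nat_lit 6) (nat_lit 0x600000bfa6ad7f92e2ff8c05fcdaebfc9d97fc2caffbef) (.hit (nat_lit 19) (nat_lit 9) (nat_lit 0x5fe504bf7ed97f3572ff07f5fbe42bfab2d7f8dd2ff322) b29110 (.one (nat_lit 55) (nat_lit 20) (nat_lit 10) (nat_lit 0x600000bfa6ad7f92e2ff8c05fcdaebfc9d97fc2caffbef) b29111 (.nil))) (.nil)))) (.nil)))) (.nil)))) (.tok (nat_lit 9) (nat_lit 0x600000c00905804ceaff6a6603bc8c01a657f811300000) (.hit (nat_lit 5) (nat_lit 0) (nat_lit 0x5fd068bf62d97eb48afe8175fdcfcbfcfed7f0b9aff59c) b29096 (.tok (nat_lit 3) (nat_lit 0x5fe1b6bfae797f73f2ff3fc600524bff7ed7ef7baff70e) (.hit (nat_lit 6) (nat_lit 1) (nat_lit 0x5fb21cbf364d7e6392fd7345fc244bf9b657e8a4afe08a) b29097 (.one (nat_lit 55) (nat_lit 7) (nat_lit 3) (nat_lit 0x5fe1b6bfae797f73f2ff3fc600524bff7ed7ef7baff70e) b29098 (.nil)))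 (.tok (nat_lit 9) (nat_lit 0x600000c00905804ceaff6a6603bc8c01a657f811300000) (.hit (nat_lit 8) (nat_lit 20) (nat_lit 0x5fc2a2bf72e17eb832fd8f35fe7babfc87d7eb822fe3c1) b29099 (.hit (nat_lit 12) (nat_lit 28) (nat_lit 0x5facecbf31e97e9c82fd49c5fbce6bf91057ea382fddf2) b29103 (.tok (nat_lit 67) (nat_lit 0x600000c00905804ceaff6a6603bc8c01a657f811300000) (.hit (nat_lit 9) (nat_lit 21) (nat_lit 0x5ff4febfb59d7f2522fed3b601d98c01a657f1f32ff7da) b29100 (.hit (nat_lit 13) (nat_lit 29) (nat_lit 0x5fe21ac00905804ceaff30c603bc8bffb597f8112ff444) b29104 (.tok (nat_lit 9) (nat_lit 0x600000bfa6ad7f92e2ff6a65ff838c016e57f689b00000) (.hit (nat_lit 10) (nat_lit 22) (nat_lit 0x5fe504bf7ed97f3572feae05fe406bfec917f2aeaff438) b29101 (.one (nat_lit 67) (nat_lit 11) (nat_lit 23) (nat_lit 0x600000bfa6ad7f92e2ff6a65ff838c016e57f689b00000) b29102 (.nil))) (.nil)))) (.nil)))) (.nil)))) (.nil)))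
noncomputable def r15_83 : Rw Blk := .tok (nat_lit 6) (nat_lit 0xbc0001780003007da) (.hit (nat_lit 0) (nat_lit 0) (nat_lit 0xbc0001780002feee5) b29114 (.tok (nat_lit 3) (nat_lit 0xbc0001780002ff23d) (.hit (nat_lit 1) (nat_lit 1) (nat_lit 0xbc0001780002fd33a) b29115 (.one (nat_lit 56) (nat_lit 3) (nat_lit 6) (nat_lit 0xbc0001780002fe5c1) b29117 (.one (nat_lit 68) (nat_lit 2) (nat_lit 5) (nat_lit 0xbc0001780002ff23d) b29116 (.nil)))) (.tok (nat_lit 40) (nat_lit 0xbc0001780002fdef6) (.hit (nat_lit 4) (nat_lit 33) (nat_lit 0xbc0001780002fdef6) b29118 (.hit (nat_lit 5) (nat_lit 34) (nat_lit 0xbc0001780002fddef) b29119 (.nil))) (.tok (nat_lit 43) (nat_lit 0xbc0001780002ff3e1) (.hit (nat_lit 6) (nat_lit 35) (nat_lit 0xbc0001780002ff3e1) b29120 (.hit (nat_lit 7) (nat_lit 36) (nat_lit 0xbc0001780002fe9f3) b29121 (.nil))) (.tok (nat_lit 46) (nat_lit 0xbc0001780003007da) (.hit (nat_lit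 8) (nat_lit 37) (nat_lit 0xbc0001780002fd7e8) b29122 (.hit (nat_lit 9) (nat_lit 38) (nat_lit 0xbc0001780003007da) b29123 (.nil))) (.nil)))))) (.tok (nat_lit 9) (nat_lit 0xbc0001780003007da) (.hit (nat_lit 10) (nat_lit 0) (nat_lit 0xbc0001780002feee5) b29114 (.tok (nat_lit 3) (nat_lit 0xbc0001780002ff23d) (.hit (nat_lit 11) (nat_lit 1) (nat_lit 0xbc0001780002fd33a) b29115 (.one (nat_lit 56) (nat_lit 13) (nat_lit 6) (nat_lit 0xbc0001780002ff23d) b29116 (.one (nat_lit 68) (nat_lit 12) (nat_lit 5) (nat_lit 0xbc0001780002fe5c1) b29117 (.nil)))) (.tok (nat_lit 40) (nat_lit 0xbc0001780002fdef6) (.hit (nat_lit 14) (nat_lit 33) (nat_lit 0xbc0001780002fdef6) b29118 (.hit (nat_lit 15) (nat_lit 34) (nat_lit 0xbc0001780002fddef) b29119 (.nil))) (.tok (nat_lit 43) (nat_lit 0xbc0001780003007da) (.hit (nat_lit 16) (nat_lit 35) (nat_lit 0xbc0001780002fd7e8) b29122 (.hit (nat_lit 17) (nat_lit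 36) (nat_lit 0xbc0001780003007da) b29123 (.nil))) (.tok (nat_lit 46) (nat_lit 0xbc0001780002ff3e1) (.hit (nat_lit 18) (nat_lit 37) (nat_lit 0xbc0001780002ff3e1) b29120 (.hit (nat_lit 19) (nat_lit 38) (nat_lit 0xbc0001780002fe9f3) b29121 (.nil))) (.nil)))))) (.nil))
noncomputable def r15_84 : Rw Blk := .tok (nat_lit 3) (nat_lit 0x5e0000bfc8a57fcafafff69) (.hit (nat_lit 17) (nat_lit 0) (nat_lit 0x5e0000bf44817eb8b2fdc13) b29141 (.tok (nat_lit 6) (nat_lit 0x5e0000bf338d7edc9afdfd4) (.hit (nat_lit 18) (nat_lit 7) (nat_lit 0x5e0000bed6c57e230afc8a2) b29142 (.hit (nat_lit 21) (nat_lit 15) (nat_lit 0x5e0000bedcd97e2f32fca27) b29145 (.tok (nat_lit 56) (nat_lit 0x5e0000bf338d7edc9afdfd4) (.hit (nat_lit 19) (nat_lit 13) (nat_lit 0x5e0000bf27c57ec50afdce2) b29143 (.hit (nat_lit 23) (nat_lit 19) (nat_lit 0x5e0000bf19557ea82afd946) b29147 (.one (nat_lit 6) (nat_lit 20) (nat_lit 14) (nat_lit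 0x5e0000bf338d7edc9afdfd4) b29144 (.nil)))) (.one (nat_lit 68) (nat_lit 22) (nat_lit 18) (nat_lit 0x5e0000bf2db17ed0e2fde5d) b29146 (.nil))))) (.tok (nat_lit 52) (nat_lit 0x5e0000bf26797ec272fdc8f) (.hit (nat_lit 24) (nat_lit 39) (nat_lit 0x5e0000bf1d597eb032fda47) b29148 (.hit (nat_lit 25) (nat_lit 40) (nat_lit 0x5e0000bf26797ec272fdc8f) b29149 (.nil))) (.tok (nat_lit 55) (nat_lit 0x5e0000bfc8a57fcafafff69) (.hit (nat_lit 26) (nat_lit 41) (nat_lit 0x5e0000bfc8a57fcafafff69) b29150 (.one (nat_lit 3) (nat_lit 32) (nat_lit 47) (nat_lit 0x5e0000bf17057ea38afd8b2) b29156 (.tok (nat_lit 6) (nat_lit 0x5e0000bf4ba97f0cd2fe5db) (.hit (nat_lit 27) (nat_lit 42) (nat_lit 0x5e0000bf12c97e9b12fd7a3) b29151 (.hit (nat_lit 30) (nat_lit 45) (nat_lit 0x5e0000bf0ab57e8aeafd59e) b29154 (.tok (nat_lit 55) (nat_lit 0x5e0000bf4ba97f0cd2fe5db) (.hit (nat_lit 28) (nat_lit 43) (nat_lit 0x5e0000bf4ba97f0cd2fe5db)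 b29152 (.hit (nat_lit 31) (nat_lit 46) (nat_lit 0x5e0000bf3fd17ef522fe2e5) b29155 (.one (nat_lit 6) (nat_lit 29) (nat_lit 44) (nat_lit 0x5e0000bf3b297eebd2fe1bb) b29153 (.nil)))) (.nil)))) (.nil)))) (.one (nat_lit 58) (nat_lit 33) (nat_lit 49) (nat_lit 0x5e0000bf21357eb7eafdb3e) b29157 (.nil)))))) (.tok (nat_lit 9) (nat_lit 0x5e0000c0685581626b02e26) (.hit (nat_lit 0) (nat_lit 0) (nat_lit 0x5e0000bfa7f97f74d2ffe3c) b29124 (.tok (nat_lit 9) (nat_lit 0x5e0000bfbe198076caffd27) (.hit (nat_lit 1) (nat_lit 20) (nat_lit 0x5e0000bf8f757fe0fafef25) b29125 (.hit (nat_lit 4) (nat_lit 28) (nat_lit 0x5e0000bf34f17e5a12fd58e) b29128 (.one (nat_lit 56) (nat_lit 5) (nat_lit 31) (nat_lit 0x5e0000bf5c997f1f0afe614) b29129 (.tok (nat_lit 68) (nat_lit 0x5e0000bfbe198076caffd27) (.hit (nat_lit 2) (nat_lit 26) (nat_lit 0x5e0000bfbe197fdb9affb89) b29126 (.hit (nat_lit 6) (nat_lit 32) (nat_lit 0x5e0000bf7b417effc2fe8d1)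 b29130 (.one (nat_lit 9) (nat_lit 3) (nat_lit 27) (nat_lit 0x5e0000bfba558076caffd27) b29127 (.nil)))) (.nil))))) (.tok (nat_lit 64) (nat_lit 0x5e0000c009e58001daffb66) (.hit (nat_lit 7) (nat_lit 50) (nat_lit 0x5e0000bf930d7f430affa50) b29131 (.hit (nat_lit 8) (nat_lit 51) (nat_lit 0x5e0000c009e58001daffb66) b29132 (.nil))) (.tok (nat_lit 67) (nat_lit 0x5e0000c0685581626b02e26) (.hit (nat_lit 9) (nat_lit 52) (nat_lit 0x5e0000c05b8981626b02e26) b29133 (.one (nat_lit 3) (nat_lit 15) (nat_lit 58) (nat_lit 0x5e0000c00101806f73001b7) b29139 (.tok (nat_lit 9) (nat_lit 0x5e0000c06855810b0b026ee) (.hit (nat_lit 10) (nat_lit 53) (nat_lit 0x5e0000bfd5ed7f8fd2ffce9) b29134 (.hit (nat_lit 13) (nat_lit 56) (nat_lit 0x5e0000bfe2dd810b0b008dd) b29137 (.tok (nat_lit 67) (nat_lit 0x5e0000c0685580e04b026ee) (.hit (nat_lit 11) (nat_lit 54) (nat_lit 0x5e0000c0685580e04b02330) b29135 (.hit (nat_lit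 14) (nat_lit 57) (nat_lit 0x5e0000bfe251807f5b00ea5) b29138 (.one (nat_lit 9) (nat_lit 12) (nat_lit 55) (nat_lit 0x5e0000c04edd80bb3b026ee) b29136 (.nil)))) (.nil)))) (.nil)))) (.one (nat_lit 70) (nat_lit 16) (nat_lit 60) (nat_lit 0x5e0000c009bd804fa2fffd1) b29140 (.nil)))))) (.nil))
noncomputable def r15_85 : Rw Blk := .tok (nat_lit 3) (nat_lit 0xbc0001780002ff24a) (.hit (nat_lit 17) (nat_lit 0) (nat_lit 0xbc0001780002fd875) b29175 (.tok (nat_lit 6) (nat_lit 0xbc0001780002fdf63) (.hit (nat_lit 18) (nat_lit 7) (nat_lit 0xbc0001780002fcc1e) b29176 (.hit (nat_lit 21) (nat_lit 15) (nat_lit 0xbc0001780002fbd7b) b29179 (.tok (nat_lit 56) (nat_lit 0xbc0001780002fdf63) (.hit (nat_lit 19) (nat_lit 13) (nat_lit 0xbc0001780002fdacd) b29177 (.hit (nat_lit 23) (nat_lit 19) (nat_lit 0xbc0001780002fca71) b29181 (.one (nat_lit 6) (nat_lit 20) (nat_lit 14) (nat_lit 0xbc0001780002fdf63) b29178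 (.nil)))) (.one (nat_lit 68) (nat_lit 22) (nat_lit 18) (nat_lit 0xbc0001780002fdafa) b29180 (.nil))))) (.tok (nat_lit 52) (nat_lit 0xbc0001780002fd429) (.hit (nat_lit 24) (nat_lit 39) (nat_lit 0xbc0001780002fd2ec) b29182 (.hit (nat_lit 25) (nat_lit 40) (nat_lit 0xbc0001780002fd429) b29183 (.nil))) (.tok (nat_lit 55) (nat_lit 0xbc0001780002ff24a) (.hit (nat_lit 26) (nat_lit 41) (nat_lit 0xbc0001780002ff24a) b29184 (.one (nat_lit 3) (nat_lit 32) (nat_lit 47) (nat_lit 0xbc0001780002fdd1c) b29190 (.tok (nat_lit 6) (nat_lit 0xbc0001780002fede9) (.hit (nat_lit 27) (nat_lit 42) (nat_lit 0xbc0001780002fdbf4) b29185 (.hit (nat_lit 30) (nat_lit 45) (nat_lit 0xbc0001780002fd427) b29188 (.tok (nat_lit 55) (nat_lit 0xbc0001780002fede9) (.hit (nat_lit 28) (nat_lit 43) (nat_lit 0xbc0001780002fede9) b29186 (.hit (nat_lit 31) (nat_lit 46) (nat_lit 0xbc0001780002fdd48) b29189 (.one (nat_lit 6)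 (nat_lit 29) (nat_lit 44) (nat_lit 0xbc0001780002fe97e) b29187 (.nil)))) (.nil)))) (.nil)))) (.one (nat_lit 58) (nat_lit 33) (nat_lit 49) (nat_lit 0xbc0001780002fe04c) b29191 (.nil)))))) (.tok (nat_lit 9) (nat_lit 0xbc000178000301f9e) (.hit (nat_lit 0) (nat_lit 0) (nat_lit 0xbc0001780002fe13d) b29158 (.tok (nat_lit 9) (nat_lit 0xbc0001780002fef1d) (.hit (nat_lit 1) (nat_lit 20) (nat_lit 0xbc0001780002fd7e1) b29159 (.hit (nat_lit 4) (nat_lit 28) (nat_lit 0xbc0001780002fd8ce) b29162 (.one (nat_lit 56) (nat_lit 5) (nat_lit 31) (nat_lit 0xbc0001780002feafb) b29163 (.tok (nat_lit 68) (nat_lit 0xbc0001780002fef1d) (.hit (nat_lit 2) (nat_lit 26) (nat_lit 0xbc0001780002fef1d) b29160 (.hit (nat_lit 6) (nat_lit 32) (nat_lit 0xbc0001780002fe796) b29164 (.one (nat_lit 9) (nat_lit 3) (nat_lit 27) (nat_lit 0xbc0001780002fea03) b29161 (.nil)))) (.nil))))) (.tok (nat_lit 64) (nat_lit 0xbc0001780002fee57)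 (.hit (nat_lit 7) (nat_lit 50) (nat_lit 0xbc0001780002fd6b8) b29165 (.hit (nat_lit 8) (nat_lit 51) (nat_lit 0xbc0001780002fee57) b29166 (.nil))) (.tok (nat_lit 67) (nat_lit 0xbc000178000301f9e) (.hit (nat_lit 9) (nat_lit 52) (nat_lit 0xbc0001780002ffdba) b29167 (.one (nat_lit 3) (nat_lit 15) (nat_lit 58) (nat_lit 0xbc0001780002ff397) b29173 (.tok (nat_lit 9) (nat_lit 0xbc000178000301f9e) (.hit (nat_lit 10) (nat_lit 53) (nat_lit 0xbc0001780002ffbf8) b29168 (.hit (nat_lit 13) (nat_lit 56) (nat_lit 0xbc0001780002ff4ed) b29171 (.tok (nat_lit 67) (nat_lit 0xbc000178000301f9e) (.hit (nat_lit 11) (nat_lit 54) (nat_lit 0xbc000178000300748) b29169 (.hit (nat_lit 14) (nat_lit 57) (nat_lit 0xbc0001780002ffcde) b29172 (.one (nat_lit 9) (nat_lit 12) (nat_lit 55) (nat_lit 0xbc000178000301f9e) b29170 (.nil)))) (.nil)))) (.nil)))) (.one (nat_lit 70) (nat_lit 16) (nat_lit 60) (nat_lit 0xbc0001780002ff137)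 b29174 (.nil)))))) (.nil))
noncomputable def r15_86 : Rw Blk := .tok (nat_lit 3) (nat_lit 0x5e0000bfb4b17fd35300bcb) (.hit (nat_lit 17) (nat_lit 0) (nat_lit 0x5e0000bf308d7ec10afe33c) b29209 (.tok (nat_lit 9) (nat_lit 0x5e0000bf1f997ee4f2fe7b9) (.hit (nat_lit 18) (nat_lit 20) (nat_lit 0x5e0000bec2d17e2b62fd087) b29210 (.hit (nat_lit 21) (nat_lit 28) (nat_lit 0x5e0000bec8e57e378afd20c) b29213 (.one (nat_lit 56) (nat_lit 22) (nat_lit 31) (nat_lit 0x5e0000bf19bd7ed93afe642) b29214 (.tok (nat_lit 68) (nat_lit 0x5e0000bf1f997ee4f2fe7b9) (.hit (nat_lit 19) (nat_lit 26) (nat_lit 0x5e0000bf13d17ecd62fe4c7) b29211 (.hit (nat_lit 23) (nat_lit 32) (nat_lit 0x5e0000bf05617eb082fe12b) b29215 (.one (nat_lit 9) (nat_lit 20) (nat_lit 27) (nat_lit 0x5e0000bf1f997ee4f2fe7b9) b29212 (.nil)))) (.nil))))) (.tok (nat_lit 64) (nat_lit 0x5e0000bf12857ecacafe474) (.hit (nat_lit 24) (nat_lit 50) (nat_lit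 0x5e0000bf09657eb88afe22c) b29216 (.hit (nat_lit 25) (nat_lit 51) (nat_lit 0x5e0000bf12857ecacafe474) b29217 (.nil))) (.tok (nat_lit 67) (nat_lit 0x5e0000bfb4b17fd35300bcb) (.hit (nat_lit 26) (nat_lit 52) (nat_lit 0x5e0000bfb4b17fd35300bcb) b29218 (.one (nat_lit 3) (nat_lit 32) (nat_lit 58) (nat_lit 0x5e0000bf03117eabe2fe097) b29224 (.tok (nat_lit 9) (nat_lit 0x5e0000bf37b57f152afedc0) (.hit (nat_lit 27) (nat_lit 53) (nat_lit 0x5e0000befed57ea36afdf88) b29219 (.hit (nat_lit 30) (nat_lit 56) (nat_lit 0x5e0000bef6c17e9342fdd83) b29222 (.tok (nat_lit 67) (nat_lit 0x5e0000bf37b57f152afedc0) (.hit (nat_lit 28) (nat_lit 54) (nat_lit 0x5e0000bf37b57f152afedc0) b29220 (.hit (nat_lit 31) (nat_lit 57) (nat_lit 0x5e0000bf2bdd7efd7afeaca) b29223 (.one (nat_lit 9) (nat_lit 29) (nat_lit 55) (nat_lit 0x5e0000bf27357ef42afe9a0) b29221 (.nil)))) (.nil)))) (.nil)))) (.one (nat_lit 70) (nat_lit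 33) (nat_lit 60) (nat_lit 0x5e0000bf0d417ec042fe323) b29225 (.nil)))))) (.tok (nat_lit 6) (nat_lit 0x5e0000c05461816ac3024c7) (.hit (nat_lit 0) (nat_lit 0) (nat_lit 0x5e0000bf94057f7d2b00942) b29192 (.tok (nat_lit 6) (nat_lit 0x5e0000bfaa25807f2300cbd) (.hit (nat_lit 1) (nat_lit 7) (nat_lit 0x5e0000bf7b817fe952ff816) b29193 (.hit (nat_lit 4) (nat_lit 15) (nat_lit 0x5e0000bf20fd7e626afda5b) b29196 (.tok (nat_lit 56) (nat_lit 0x5e0000bfaa25807f2300cbd) (.hit (nat_lit 2) (nat_lit 13) (nat_lit 0x5e0000bfaa257fe3f30002f) b29194 (.hit (nat_lit 6) (nat_lit 19) (nat_lit 0x5e0000bf674d7f081afed69) b29198 (.one (nat_lit 6) (nat_lit 3) (nat_lit 14) (nat_lit 0x5e0000bfa661807f2300cbd) b29195 (.nil)))) (.one (nat_lit 68) (nat_lit 5) (nat_lit 18) (nat_lit 0x5e0000bf48a57f2762fedba) b29197 (.nil))))) (.tok (nat_lit 52) (nat_lit 0x5e0000bff5f1800a32fff8e) (.hit (nat_lit 7) (nat_lit 39) (nat_lit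 0x5e0000bf7f197f4b62fefdf) b29199 (.hit (nat_lit 8) (nat_lit 40) (nat_lit 0x5e0000bff5f1800a32fff8e) b29200 (.nil))) (.tok (nat_lit 55) (nat_lit 0x5e0000c05461816ac3024c7) (.hit (nat_lit 9) (nat_lit 41) (nat_lit 0x5e0000c04795816ac3024c7) b29201 (.one (nat_lit 3) (nat_lit 15) (nat_lit 47) (nat_lit 0x5e0000bfed0d8077cb00abb) b29207 (.tok (nat_lit 6) (nat_lit 0x5e0000c0546181136301b58) (.hit (nat_lit 10) (nat_lit 42) (nat_lit 0x5e0000bfc1f97f982aff9a7) b29202 (.hit (nat_lit 13) (nat_lit 45) (nat_lit 0x5e0000bfcee981136300d4c) b29205 (.tok (nat_lit 55) (nat_lit 0x5e0000c0546180e8a301b58) (.hit (nat_lit 11) (nat_lit 43) (nat_lit 0x5e0000c0546180e8a301b58) b29203 (.hit (nat_lit 14) (nat_lit 46) (nat_lit 0x5e0000bfce5d8087b300815) b29206 (.one (nat_lit 6) (nat_lit 12) (nat_lit 44) (nat_lit 0x5e0000c03ae980c39301aad) b29204 (.nil)))) (.nil)))) (.nil)))) (.one (nat_lit 58) (nat_lit 16)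 (nat_lit 49) (nat_lit 0x5e0000bff5c98057fb00161) b29208 (.nil)))))) (.nil))
noncomputable def r15_87 : Rw Blk := .tok (nat_lit 3) (nat_lit 0xbc0001780002fec46) (.hit (nat_lit 17) (nat_lit 0) (nat_lit 0xbc0001780002fd271) b29243 (.tok (nat_lit 9) (nat_lit 0xbc0001780002fd95f) (.hit (nat_lit 18) (nat_lit 20) (nat_lit 0xbc0001780002fc61a) b29244 (.hit (nat_lit 21) (nat_lit 28) (nat_lit 0xbc0001780002fb777) b29247 (.one (nat_lit 56) (nat_lit 22) (nat_lit 31) (nat_lit 0xbc0001780002fd4f6) b29248 (.tok (nat_lit 68) (nat_lit 0xbc0001780002fd95f) (.hit (nat_lit 19) (nat_lit 26) (nat_lit 0xbc0001780002fd4c9) b29245 (.hit (nat_lit 23) (nat_lit 32) (nat_lit 0xbc0001780002fc46d) b29249 (.one (nat_lit 9) (nat_lit 20) (nat_lit 27) (nat_lit 0xbc0001780002fd95f) b29246 (.nil)))) (.nil))))) (.tok (nat_lit 64) (nat_lit 0xbc0001780002fce25) (.hit (nat_lit 24) (nat_lit 50) (nat_lit 0xbc0001780002fcce8)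 b29250 (.hit (nat_lit 25) (nat_lit 51) (nat_lit 0xbc0001780002fce25) b29251 (.nil))) (.tok (nat_lit 67) (nat_lit 0xbc0001780002fec46) (.hit (nat_lit 26) (nat_lit 52) (nat_lit 0xbc0001780002fec46) b29252 (.one (nat_lit 3) (nat_lit 32) (nat_lit 58) (nat_lit 0xbc0001780002fd718) b29258 (.tok (nat_lit 9) (nat_lit 0xbc0001780002fe7e5) (.hit (nat_lit 27) (nat_lit 53) (nat_lit 0xbc0001780002fd5f0) b29253 (.hit (nat_lit 30) (nat_lit 56) (nat_lit 0xbc0001780002fce23) b29256 (.tok (nat_lit 67) (nat_lit 0xbc0001780002fe7e5) (.hit (nat_lit 28) (nat_lit 54) (nat_lit 0xbc0001780002fe7e5) b29254 (.hit (nat_lit 31) (nat_lit 57) (nat_lit 0xbc0001780002fd744) b29257 (.one (nat_lit 9) (nat_lit 29) (nat_lit 55) (nat_lit 0xbc0001780002fe37a) b29255 (.nil)))) (.nil)))) (.nil)))) (.one (nat_lit 70) (nat_lit 33) (nat_lit 60) (nat_lit 0xbc0001780002fda48) b29259 (.nil)))))) (.tok (nat_lit 6) (nat_lit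 0xbc00017800030199a) (.hit (nat_lit 0) (nat_lit 0) (nat_lit 0xbc0001780002fdb39) b29226 (.tok (nat_lit 6) (nat_lit 0xbc0001780002fe919) (.hit (nat_lit 1) (nat_lit 7) (nat_lit 0xbc0001780002fd1dd) b29227 (.hit (nat_lit 4) (nat_lit 15) (nat_lit 0xbc0001780002fd2ca) b29230 (.tok (nat_lit 56) (nat_lit 0xbc0001780002fe919) (.hit (nat_lit 2) (nat_lit 13) (nat_lit 0xbc0001780002fe919) b29228 (.hit (nat_lit 6) (nat_lit 19) (nat_lit 0xbc0001780002fe192) b29232 (.one (nat_lit 6) (nat_lit 3) (nat_lit 14) (nat_lit 0xbc0001780002fe3ff) b29229 (.nil)))) (.one (nat_lit 68) (nat_lit 5) (nat_lit 18) (nat_lit 0xbc0001780002fe4f7) b29231 (.nil))))) (.tok (nat_lit 52) (nat_lit 0xbc0001780002fe853) (.hit (nat_lit 7) (nat_lit 39) (nat_lit 0xbc0001780002fd0b4) b29233 (.hit (nat_lit 8) (nat_lit 40) (nat_lit 0xbc0001780002fe853) b29234 (.nil))) (.tok (nat_lit 55) (nat_lit 0xbc00017800030199a) (.hit (nat_lit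 9) (nat_lit 41) (nat_lit 0xbc0001780002ff7b6) b29235 (.one (nat_lit 3) (nat_lit 15) (nat_lit 47) (nat_lit 0xbc0001780002fed93) b29241 (.tok (nat_lit 6) (nat_lit 0xbc00017800030199a) (.hit (nat_lit 10) (nat_lit 42) (nat_lit 0xbc0001780002ff5f4) b29236 (.hit (nat_lit 13) (nat_lit 45) (nat_lit 0xbc0001780002feee9) b29239 (.tok (nat_lit 55) (nat_lit 0xbc00017800030199a) (.hit (nat_lit 11) (nat_lit 43) (nat_lit 0xbc000178000300144) b29237 (.hit (nat_lit 14) (nat_lit 46) (nat_lit 0xbc0001780002ff6da) b29240 (.one (nat_lit 6) (nat_lit 12) (nat_lit 44) (nat_lit 0xbc00017800030199a) b29238 (.nil)))) (.nil)))) (.nil)))) (.one (nat_lit 58) (nat_lit 16) (nat_lit 49) (nat_lit 0xbc0001780002feb33) b29242 (.nil)))))) (.nil))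
noncomputable def r15_88 : Rw Blk := .tok (nat_lit 3) (nat_lit 0xbc0001780002fdd94) (.hit (nat_lit 0) (nat_lit 0) (nat_lit 0xbc0001780002fdd94) b16038 (.tok (nat_lit 6) (nat_lit 0xbc0001780002fc205) (.hit (nat_lit 1) (nat_lit 7) (nat_lit 0xbc0001780002fbf09) b16039 (.hit (nat_lit 2) (nat_lit 15) (nat_lit 0xbc0001780002fc205) b16040 (.nil))) (.tok (nat_lit 9) (nat_lit 0xbc0001780002fc205) (.hit (nat_lit 3) (nat_lit 20) (nat_lit 0xbc0001780002fbf09) b16039 (.hit (nat_lit 4) (nat_lit 28) (nat_lit 0xbc0001780002fc205) b16040 (.nil))) (.nil)))) (.tok (nat_lit 6) (nat_lit 0xbc000178000300000) (.hit (nat_lit 5) (nat_lit 0) (nat_lit 0xbc0001780002fe455) b16041 (.tok (nat_lit 3) (nat_lit 0xbc0001780002fed55) (.hit (nat_lit 6) (nat_lit 1) (nat_lit 0xbc0001780002fd017) b16042 (.one (nat_lit 67) (nat_lit 7) (nat_lit 2) (nat_lit 0xbc0001780002fed55) b16043 (.nil))) (.tok (nat_lit 6) (nat_lit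 0xbc000178000300000) (.hit (nat_lit 8) (nat_lit 7) (nat_lit 0xbc0001780002fe22c) b16044 (.hit (nat_lit 12) (nat_lit 15) (nat_lit 0xbc0001780002fce82) b16048 (.tok (nat_lit 55) (nat_lit 0xbc000178000300000) (.hit (nat_lit 9) (nat_lit 8) (nat_lit 0xbc000178000300000) b16045 (.hit (nat_lit 13) (nat_lit 16) (nat_lit 0xbc0001780002fe211) b16049 (.tok (nat_lit 6) (nat_lit 0xbc0001780002fefd5) (.hit (nat_lit 10) (nat_lit 9) (nat_lit 0xbc0001780002fe037) b16046 (.one (nat_lit 55) (nat_lit 11) (nat_lit 10) (nat_lit 0xbc0001780002fefd5) b16047 (.nil))) (.nil)))) (.nil)))) (.nil)))) (.tok (nat_lit 9) (nat_lit 0xbc000178000300000) (.hit (nat_lit 14) (nat_lit 0) (nat_lit 0xbc0001780002fe455) b16041 (.tok (nat_lit 3) (nat_lit 0xbc0001780002fed55) (.hit (nat_lit 15) (nat_lit 1) (nat_lit 0xbc0001780002fd017) b16042 (.one (nat_lit 55) (nat_lit 16) (nat_lit 3) (nat_lit 0xbc0001780002fed55) b16043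 (.nil))) (.tok (nat_lit 9) (nat_lit 0xbc000178000300000) (.hit (nat_lit 17) (nat_lit 20) (nat_lit 0xbc0001780002fe22c) b16044 (.hit (nat_lit 21) (nat_lit 28) (nat_lit 0xbc0001780002fce82) b16048 (.tok (nat_lit 67) (nat_lit 0xbc000178000300000) (.hit (nat_lit 18) (nat_lit 21) (nat_lit 0xbc000178000300000) b16045 (.hit (nat_lit 22) (nat_lit 29) (nat_lit 0xbc0001780002fe211) b16049 (.tok (nat_lit 9) (nat_lit 0xbc0001780002fefd5) (.hit (nat_lit 19) (nat_lit 22) (nat_lit 0xbc0001780002fe037) b16046 (.one (nat_lit 67) (nat_lit 20) (nat_lit 23) (nat_lit 0xbc0001780002fefd5) b16047 (.nil))) (.nil)))) (.nil)))) (.nil)))) (.nil)))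
noncomputable def r15_89 : Rw Blk := .tok (nat_lit 3) (nat_lit 0xbc0001780002feaa0) (.hit (nat_lit 18) (nat_lit 0) (nat_lit 0xbc0001780002feaa0) b29278 (.tok (nat_lit 6) (nat_lit 0xbc0001780002fd9e8) (.hit (nat_lit 19) (nat_lit 7) (nat_lit 0xbc0001780002fd9e8) b29279 (.hit (nat_lit 20) (nat_lit 15) (nat_lit 0xbc0001780002fc707) b29280 (.nil))) (.tok (nat_lit 9) (nat_lit 0xbc0001780002fceb9) (.hit (nat_lit 21) (nat_lit 20) (nat_lit 0xbc0001780002fceb9) b29281 (.hit (nat_lit 22) (nat_lit 28) (nat_lit 0xbc0001780002fc6ba) b29282 (.nil))) (.nil)))) (.tok (nat_lit 6) (nat_lit 0xbc0001780002fef59) (.hit (nat_lit 0) (nat_lit 0) (nat_lit 0xbc0001780002fe8eb) b29260 (.tok (nat_lit 3) (nat_lit 0xbc0001780002fd9e7) (.hit (nat_lit 1) (nat_lit 1) (nat_lit 0xbc0001780002fc296) b29261 (.one (nat_lit 67) (nat_lit 2) (nat_lit 2) (nat_lit 0xbc0001780002fd9e7) b29262 (.nil))) (.tok (nat_lit 6)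 (nat_lit 0xbc0001780002fef59) (.hit (nat_lit 3) (nat_lit 7) (nat_lit 0xbc0001780002fc1ee) b29263 (.hit (nat_lit 7) (nat_lit 15) (nat_lit 0xbc0001780002fcb5a) b29267 (.tok (nat_lit 55) (nat_lit 0xbc0001780002fef59) (.hit (nat_lit 4) (nat_lit 8) (nat_lit 0xbc0001780002fe37f) b29264 (.hit (nat_lit 8) (nat_lit 16) (nat_lit 0xbc0001780002fead0) b29268 (.tok (nat_lit 6) (nat_lit 0xbc0001780002fef59) (.hit (nat_lit 5) (nat_lit 9) (nat_lit 0xbc0001780002fde51) b29265 (.one (nat_lit 55) (nat_lit 6) (nat_lit 10) (nat_lit 0xbc0001780002fef59) b29266 (.nil))) (.nil)))) (.nil)))) (.nil)))) (.tok (nat_lit 9) (nat_lit 0xbc0001780003032a6) (.hit (nat_lit 9) (nat_lit 0) (nat_lit 0xbc00017800030008e) b29269 (.tok (nat_lit 3) (nat_lit 0xbc0001780003028b6) (.hit (nat_lit 10) (nat_lit 1) (nat_lit 0xbc0001780002fed48) b29270 (.one (nat_lit 55) (nat_lit 11) (nat_lit 3) (nat_lit 0xbc0001780003028b6)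 b29271 (.nil))) (.tok (nat_lit 9) (nat_lit 0xbc0001780003032a6) (.hit (nat_lit 12) (nat_lit 20) (nat_lit 0xbc0001780002ff43d) b29272 (.hit (nat_lit 16) (nat_lit 28) (nat_lit 0xbc0001780002fdf7a) b29276 (.tok (nat_lit 67) (nat_lit 0xbc0001780003032a6) (.hit (nat_lit 13) (nat_lit 21) (nat_lit 0xbc000178000302f87) b29273 (.hit (nat_lit 17) (nat_lit 29) (nat_lit 0xbc00017800030091f) b29277 (.tok (nat_lit 9) (nat_lit 0xbc0001780003032a6) (.hit (nat_lit 14) (nat_lit 22) (nat_lit 0xbc0001780003026af) b29274 (.one (nat_lit 67) (nat_lit 15) (nat_lit 23) (nat_lit 0xbc0001780003032a6) b29275 (.nil))) (.nil)))) (.nil)))) (.nil)))) (.nil)))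
noncomputable def r15_90 : Rw Blk := .tok (nat_lit 3) (nat_lit 0xbc0001780002fd59e) (.hit (nat_lit 18) (nat_lit 0) (nat_lit 0xbc0001780002fd59e) b16091 (.tok (nat_lit 6) (nat_lit 0xbc0001780002fc727) (.hit (nat_lit 19) (nat_lit 7) (nat_lit 0xbc0001780002fc727) b16092 (.hit (nat_lit 20) (nat_lit 15) (nat_lit 0xbc0001780002fc545) b16093 (.nil))) (.tok (nat_lit 9) (nat_lit 0xbc0001780002fc49b) (.hit (nat_lit 21) (nat_lit 20) (nat_lit 0xbc0001780002fc22e) b16094 (.hit (nat_lit 22) (nat_lit 28) (nat_lit 0xbc0001780002fc49b) b16095 (.nil))) (.nil)))) (.tok (nat_lit 6) (nat_lit 0xbc000178000300000) (.hit (nat_lit 0) (nat_lit 0) (nat_lit 0xbc0001780002fe915) b16073 (.tok (nat_lit 3) (nat_lit 0xbc0001780002fe5bd) (.hit (nat_lit 1) (nat_lit 1) (nat_lit 0xbc0001780002fce94) b16074 (.one (nat_lit 67) (nat_lit 2) (nat_lit 2) (nat_lit 0xbc0001780002fe5bd) b16075 (.nil))) (.tok (nat_lit 6)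 (nat_lit 0xbc000178000300000) (.hit (nat_lit 3) (nat_lit 7) (nat_lit 0xbc0001780002fdf2f) b16076 (.hit (nat_lit 7) (nat_lit 15) (nat_lit 0xbc0001780002fce2a) b16080 (.tok (nat_lit 55) (nat_lit 0xbc000178000300000) (.hit (nat_lit 4) (nat_lit 8) (nat_lit 0xbc0001780002ff240) b16077 (.hit (nat_lit 8) (nat_lit 16) (nat_lit 0xbc0001780002fe29b) b16081 (.tok (nat_lit 6) (nat_lit 0xbc000178000300000) (.hit (nat_lit 5) (nat_lit 9) (nat_lit 0xbc0001780002fec1a) b16078 (.one (nat_lit 55) (nat_lit 6) (nat_lit 10) (nat_lit 0xbc000178000300000) b16079 (.nil))) (.nil)))) (.nil)))) (.nil)))) (.tok (nat_lit 9) (nat_lit 0xbc0001780002ff2fe) (.hit (nat_lit 9) (nat_lit 0) (nat_lit 0xbc0001780002fe02f) b16082 (.tok (nat_lit 3) (nat_lit 0xbc0001780002fe4f3) (.hit (nat_lit 10) (nat_lit 1) (nat_lit 0xbc0001780002fd337) b16083 (.one (nat_lit 55) (nat_lit 11) (nat_lit 3) (nat_lit 0xbc0001780002fe4f3)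 b16084 (.nil))) (.tok (nat_lit 9) (nat_lit 0xbc0001780002ff2fe) (.hit (nat_lit 12) (nat_lit 20) (nat_lit 0xbc0001780002fdc4d) b16085 (.hit (nat_lit 16) (nat_lit 28) (nat_lit 0xbc0001780002fd4f4) b16089 (.tok (nat_lit 67) (nat_lit 0xbc0001780002ff2fe) (.hit (nat_lit 13) (nat_lit 21) (nat_lit 0xbc0001780002feb62) b16086 (.hit (nat_lit 17) (nat_lit 29) (nat_lit 0xbc0001780002fea7f) b16090 (.tok (nat_lit 9) (nat_lit 0xbc0001780002ff2fe) (.hit (nat_lit 14) (nat_lit 22) (nat_lit 0xbc0001780002fe5f2) b16087 (.one (nat_lit 67) (nat_lit 15) (nat_lit 23) (nat_lit 0xbc0001780002ff2fe) b16088 (.nil))) (.nil)))) (.nil)))) (.nil)))) (.nil)))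
noncomputable def r15_91 : Rw Blk := .tok (nat_lit 3) (nat_lit 0xbc0001780002fec3c) (.hit (nat_lit 18) (nat_lit 0) (nat_lit 0xbc0001780002fec3c) b29301 (.tok (nat_lit 6) (nat_lit 0xbc0001780002fd055) (.hit (nat_lit 19) (nat_lit 7) (nat_lit 0xbc0001780002fd055) b29302 (.hit (nat_lit 20) (nat_lit 15) (nat_lit 0xbc0001780002fc856) b29303 (.nil))) (.tok (nat_lit 9) (nat_lit 0xbc0001780002fdb84) (.hit (nat_lit 21) (nat_lit 20) (nat_lit 0xbc0001780002fdb84) b29304 (.hit (nat_lit 22) (nat_lit 28) (nat_lit 0xbc0001780002fc8a3) b29305 (.nil))) (.nil)))) (.tok (nat_lit 6) (nat_lit 0xbc000178000303442) (.hit (nat_lit 9) (nat_lit 0) (nat_lit 0xbc00017800030022a) b29292 (.tok (nat_lit 3) (nat_lit 0xbc000178000302a52) (.hit (nat_lit 10) (nat_lit 1) (nat_lit 0xbc0001780002feee4) b29293 (.one (nat_lit 67) (nat_lit 11) (nat_lit 2) (nat_lit 0xbc000178000302a52) b29294 (.nil))) (.tok (nat_lit 6)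 (nat_lit 0xbc000178000303442) (.hit (nat_lit 12) (nat_lit 7) (nat_lit 0xbc0001780002ff5d9) b29295 (.hit (nat_lit 16) (nat_lit 15) (nat_lit 0xbc0001780002fe116) b29299 (.tok (nat_lit 55) (nat_lit 0xbc000178000303442) (.hit (nat_lit 13) (nat_lit 8) (nat_lit 0xbc000178000303123) b29296 (.hit (nat_lit 17) (nat_lit 16) (nat_lit 0xbc000178000300abb) b29300 (.tok (nat_lit 6) (nat_lit 0xbc000178000303442) (.hit (nat_lit 14) (nat_lit 9) (nat_lit 0xbc00017800030284b) b29297 (.one (nat_lit 55) (nat_lit 15) (nat_lit 10) (nat_lit 0xbc000178000303442) b29298 (.nil))) (.nil)))) (.nil)))) (.nil)))) (.tok (nat_lit 9) (nat_lit 0xbc0001780002ff0f5) (.hit (nat_lit 0) (nat_lit 0) (nat_lit 0xbc0001780002fea87) b29283 (.tok (nat_lit 3) (nat_lit 0xbc0001780002fdb83) (.hit (nat_lit 1) (nat_lit 1) (nat_lit 0xbc0001780002fc432) b29284 (.one (nat_lit 55) (nat_lit 2) (nat_lit 3) (nat_lit 0xbc0001780002fdb83)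 b29285 (.nil))) (.tok (nat_lit 9) (nat_lit 0xbc0001780002ff0f5) (.hit (nat_lit 3) (nat_lit 20) (nat_lit 0xbc0001780002fc38a) b29286 (.hit (nat_lit 7) (nat_lit 28) (nat_lit 0xbc0001780002fccf6) b29290 (.tok (nat_lit 67) (nat_lit 0xbc0001780002ff0f5) (.hit (nat_lit 4) (nat_lit 21) (nat_lit 0xbc0001780002fe51b) b29287 (.hit (nat_lit 8) (nat_lit 29) (nat_lit 0xbc0001780002fec6c) b29291 (.tok (nat_lit 9) (nat_lit 0xbc0001780002ff0f5) (.hit (nat_lit 5) (nat_lit 22) (nat_lit 0xbc0001780002fdfed) b29288 (.one (nat_lit 67) (nat_lit 6) (nat_lit 23) (nat_lit 0xbc0001780002ff0f5) b29289 (.nil))) (.nil)))) (.nil)))) (.nil)))) (.nil)))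
noncomputable def r15_92 : Rw Blk := .tok (nat_lit 3) (nat_lit 0xbc0001780002fd59e) (.hit (nat_lit 18) (nat_lit 0) (nat_lit 0xbc0001780002fd59e) b16091 (.tok (nat_lit 6) (nat_lit 0xbc0001780002fc49b) (.hit (nat_lit 19) (nat_lit 7) (nat_lit 0xbc0001780002fc22e) b16094 (.hit (nat_lit 20) (nat_lit 15) (nat_lit 0xbc0001780002fc49b) b16095 (.nil))) (.tok (nat_lit 9) (nat_lit 0xbc0001780002fc727) (.hit (nat_lit 21) (nat_lit 20) (nat_lit 0xbc0001780002fc727) b16092 (.hit (nat_lit 22) (nat_lit 28) (nat_lit 0xbc0001780002fc545) b16093 (.nil))) (.nil)))) (.tok (nat_lit 6) (nat_lit 0xbc0001780002ff2fe) (.hit (nat_lit 9) (nat_lit 0) (nat_lit 0xbc0001780002fe02f) b16082 (.tok (nat_lit 3) (nat_lit 0xbc0001780002fe4f3) (.hit (nat_lit 10) (nat_lit 1) (nat_lit 0xbc0001780002fd337) b16083 (.one (nat_lit 67) (nat_lit 11) (nat_lit 2) (nat_lit 0xbc0001780002fe4f3) b16084 (.nil))) (.tok (nat_lit 6)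 (nat_lit 0xbc0001780002ff2fe) (.hit (nat_lit 12) (nat_lit 7) (nat_lit 0xbc0001780002fdc4d) b16085 (.hit (nat_lit 16) (nat_lit 15) (nat_lit 0xbc0001780002fd4f4) b16089 (.tok (nat_lit 55) (nat_lit 0xbc0001780002ff2fe) (.hit (nat_lit 13) (nat_lit 8) (nat_lit 0xbc0001780002feb62) b16086 (.hit (nat_lit 17) (nat_lit 16) (nat_lit 0xbc0001780002fea7f) b16090 (.tok (nat_lit 6) (nat_lit 0xbc0001780002ff2fe) (.hit (nat_lit 14) (nat_lit 9) (nat_lit 0xbc0001780002fe5f2) b16087 (.one (nat_lit 55) (nat_lit 15) (nat_lit 10) (nat_lit 0xbc0001780002ff2fe) b16088 (.nil))) (.nil)))) (.nil)))) (.nil)))) (.tok (nat_lit 9) (nat_lit 0xbc000178000300000) (.hit (nat_lit 0) (nat_lit 0) (nat_lit 0xbc0001780002fe915) b16073 (.tok (nat_lit 3) (nat_lit 0xbc0001780002fe5bd) (.hit (nat_lit 1) (nat_lit 1) (nat_lit 0xbc0001780002fce94) b16074 (.one (nat_lit 55) (nat_lit 2) (nat_lit 3) (nat_lit 0xbc0001780002fe5bd)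 b16075 (.nil))) (.tok (nat_lit 9) (nat_lit 0xbc000178000300000) (.hit (nat_lit 3) (nat_lit 20) (nat_lit 0xbc0001780002fdf2f) b16076 (.hit (nat_lit 7) (nat_lit 28) (nat_lit 0xbc0001780002fce2a) b16080 (.tok (nat_lit 67) (nat_lit 0xbc000178000300000) (.hit (nat_lit 4) (nat_lit 21) (nat_lit 0xbc0001780002ff240) b16077 (.hit (nat_lit 8) (nat_lit 29) (nat_lit 0xbc0001780002fe29b) b16081 (.tok (nat_lit 9) (nat_lit 0xbc000178000300000) (.hit (nat_lit 5) (nat_lit 22) (nat_lit 0xbc0001780002fec1a) b16078 (.one (nat_lit 67) (nat_lit 6) (nat_lit 23) (nat_lit 0xbc000178000300000) b16079 (.nil))) (.nil)))) (.nil)))) (.nil)))) (.nil)))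
noncomputable def r15_93 : Rw Blk := .tok (nat_lit 3) (nat_lit 0xbc0001780002fe5ec) (.hit (nat_lit 0) (nat_lit 0) (nat_lit 0xbc0001780002fe5ec) b16119 (.tok (nat_lit 6) (nat_lit 0xbc0001780002fdb5c) (.hit (nat_lit 1) (nat_lit 7) (nat_lit 0xbc0001780002fda30) b16120 (.hit (nat_lit 2) (nat_lit 15) (nat_lit 0xbc0001780002fdb5c) b16121 (.nil))) (.tok (nat_lit 9) (nat_lit 0xbc0001780002fdb5c) (.hit (nat_lit 3) (nat_lit 20) (nat_lit 0xbc0001780002fda30) b16120 (.hit (nat_lit 4) (nat_lit 28) (nat_lit 0xbc0001780002fdb5c) b16121 (.nil))) (.nil)))) (.tok (nat_lit 6) (nat_lit 0xbc000178000300000) (.hit (nat_lit 13) (nat_lit 0) (nat_lit 0xbc0001780002fed26) b16122 (.tok (nat_lit 3) (nat_lit 0xbc0001780002ffe44) (.hit (nat_lit 14) (nat_lit 1) (nat_lit 0xbc0001780002fdf58) b16123 (.one (nat_lit 67) (nat_lit 15) (nat_lit 2) (nat_lit 0xbc0001780002ffe44) b16124 (.nil))) (.tok (nat_lit 6) (nat_lit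 0xbc000178000300000) (.hit (nat_lit 16) (nat_lit 7) (nat_lit 0xbc0001780002feb89) b16125 (.hit (nat_lit 19) (nat_lit 15) (nat_lit 0xbc0001780002fe21f) b16128 (.tok (nat_lit 55) (nat_lit 0xbc000178000300000) (.hit (nat_lit 17) (nat_lit 8) (nat_lit 0xbc0001780002fffa8) b16126 (.hit (nat_lit 20) (nat_lit 16) (nat_lit 0xbc0001780002ffbe6) b16129 (.one (nat_lit 6) (nat_lit 18) (nat_lit 9) (nat_lit 0xbc000178000300000) b16127 (.nil)))) (.nil)))) (.nil)))) (.tok (nat_lit 9) (nat_lit 0xbc000178000300000) (.hit (nat_lit 5) (nat_lit 0) (nat_lit 0xbc0001780002fed26) b16122 (.tok (nat_lit 3) (nat_lit 0xbc0001780002ffe44) (.hit (nat_lit 6) (nat_lit 1) (nat_lit 0xbc0001780002fdf58) b16123 (.one (nat_lit 55) (nat_lit 7) (nat_lit 3) (nat_lit 0xbc0001780002ffe44) b16124 (.nil))) (.tok (nat_lit 9) (nat_lit 0xbc000178000300000) (.hit (nat_lit 8) (nat_lit 20) (nat_lit 0xbc0001780002feb89) b16125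 (.hit (nat_lit 11) (nat_lit 28) (nat_lit 0xbc0001780002fe21f) b16128 (.tok (nat_lit 67) (nat_lit 0xbc000178000300000) (.hit (nat_lit 9) (nat_lit 21) (nat_lit 0xbc0001780002fffa8) b16126 (.hit (nat_lit 12) (nat_lit 29) (nat_lit 0xbc0001780002ffbe6) b16129 (.one (nat_lit 9) (nat_lit 10) (nat_lit 22) (nat_lit 0xbc000178000300000) b16127 (.nil)))) (.nil)))) (.nil)))) (.nil)))
noncomputable def r15_94 : Rw Blk := .tok (nat_lit 3) (nat_lit 0xbc0001780002fdf98) (.hit (nat_lit 0) (nat_lit 0) (nat_lit 0xbc0001780002fdf98) b16130 (.tok (nat_lit 6) (nat_lit 0xbc0001780002fceef) (.hit (nat_lit 1) (nat_lit 7) (nat_lit 0xbc0001780002fceef) b16131 (.hit (nat_lit 2) (nat_lit 15) (nat_lit 0xbc0001780002fcee7) b16132 (.nil))) (.tok (nat_lit 9) (nat_lit 0xbc0001780002fceef) (.hit (nat_lit 3) (nat_lit 20) (nat_lit 0xbc0001780002fceef) b16131 (.hit (nat_lit 4) (nat_lit 28) (nat_lit 0xbc0001780002fcee7)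 b16132 (.nil))) (.nil)))) (.tok (nat_lit 6) (nat_lit 0xbc000178000300000) (.hit (nat_lit 5) (nat_lit 0) (nat_lit 0xbc0001780002fee98) b16133 (.one (nat_lit 3) (nat_lit 6) (nat_lit 1) (nat_lit 0xbc0001780002fd990) b16134 (.tok (nat_lit 6) (nat_lit 0xbc000178000300000) (.hit (nat_lit 7) (nat_lit 7) (nat_lit 0xbc0001780002feabf) b16135 (.hit (nat_lit 11) (nat_lit 15) (nat_lit 0xbc0001780002fe1d3) b16139 (.tok (nat_lit 55) (nat_lit 0xbc000178000300000) (.hit (nat_lit 8) (nat_lit 8) (nat_lit 0xbc0001780002fe8fb) b16136 (.hit (nat_lit 12) (nat_lit 16) (nat_lit 0xbc0001780002fefed) b16140 (.tok (nat_lit 6) (nat_lit 0xbc000178000300000) (.hit (nat_lit 9) (nat_lit 9) (nat_lit 0xbc0001780002ff0f4) b16137 (.one (nat_lit 55) (nat_lit 10) (nat_lit 10) (nat_lit 0xbc000178000300000) b16138 (.nil))) (.nil)))) (.nil)))) (.nil)))) (.tok (nat_lit 9) (nat_lit 0xbc000178000300000) (.hit (nat_lit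 13) (nat_lit 0) (nat_lit 0xbc0001780002fee98) b16133 (.one (nat_lit 3) (nat_lit 14) (nat_lit 1) (nat_lit 0xbc0001780002fd990) b16134 (.tok (nat_lit 9) (nat_lit 0xbc000178000300000) (.hit (nat_lit 15) (nat_lit 20) (nat_lit 0xbc0001780002feabf) b16135 (.hit (nat_lit 19) (nat_lit 28) (nat_lit 0xbc0001780002fe1d3) b16139 (.tok (nat_lit 67) (nat_lit 0xbc000178000300000) (.hit (nat_lit 16) (nat_lit 21) (nat_lit 0xbc0001780002fe8fb) b16136 (.hit (nat_lit 20) (nat_lit 29) (nat_lit 0xbc0001780002fefed) b16140 (.tok (nat_lit 9) (nat_lit 0xbc000178000300000) (.hit (nat_lit 17) (nat_lit 22) (nat_lit 0xbc0001780002ff0f4) b16137 (.one (nat_lit 67) (nat_lit 18) (nat_lit 23) (nat_lit 0xbc000178000300000) b16138 (.nil))) (.nil)))) (.nil)))) (.nil)))) (.nil)))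
noncomputable def r15_95 : Rw Blk := .tok (nat_lit 3) (nat_lit 0xbc0001780002fdbbf) (.hit (nat_lit 14) (nat_lit 0) (nat_lit 0xbc0001780002fdbbf) b16155 (.tok (nat_lit 6) (nat_lit 0xbc0001780002fc30d) (.hit (nat_lit 15) (nat_lit 7) (nat_lit 0xbc0001780002fc30d) b16156 (.hit (nat_lit 16) (nat_lit 15) (nat_lit 0xbc0001780002fb297) b16157 (.nil))) (.tok (nat_lit 9) (nat_lit 0xbc0001780002fd271) (.hit (nat_lit 17) (nat_lit 20) (nat_lit 0xbc0001780002fd271) b16158 (.hit (nat_lit 18) (nat_lit 28) (nat_lit 0xbc0001780002fd237) b16159 (.nil))) (.nil)))) (.tok (nat_lit 6) (nat_lit 0xbc000178000300000) (.hit (nat_lit 0) (nat_lit 0) (nat_lit 0xbc0001780002ff183) b16141 (.tok (nat_lit 3) (nat_lit 0xbc0001780002ffb06) (.hit (nat_lit 1) (nat_lit 1) (nat_lit 0xbc0001780002fe1d7) b16142 (.one (nat_lit 67) (nat_lit 2) (nat_lit 2) (nat_lit 0xbc0001780002ffb06) b16143 (.nil))) (.tok (nat_lit 6)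 (nat_lit 0xbc000178000300000) (.hit (nat_lit 3) (nat_lit 7) (nat_lit 0xbc0001780002fea6e) b16144 (.hit (nat_lit 7) (nat_lit 15) (nat_lit 0xbc0001780002fe05a) b16148 (.tok (nat_lit 55) (nat_lit 0xbc000178000300000) (.hit (nat_lit 4) (nat_lit 8) (nat_lit 0xbc0001780002ff7b3) b16145 (.hit (nat_lit 8) (nat_lit 16) (nat_lit 0xbc0001780002ff930) b16149 (.tok (nat_lit 6) (nat_lit 0xbc000178000300000) (.hit (nat_lit 5) (nat_lit 9) (nat_lit 0xbc0001780002ff1d3) b16146 (.one (nat_lit 55) (nat_lit 6) (nat_lit 10) (nat_lit 0xbc000178000300000) b16147 (.nil))) (.nil)))) (.nil)))) (.nil)))) (.tok (nat_lit 9) (nat_lit 0xbc0001780002fe469) (.hit (nat_lit 9) (nat_lit 0) (nat_lit 0xbc0001780002fdbc2) b16150 (.tok (nat_lit 3) (nat_lit 0xbc0001780002fe22e) (.hit (nat_lit 10) (nat_lit 1) (nat_lit 0xbc0001780002fd8cf) b16151 (.one (nat_lit 55) (nat_lit 11) (nat_lit 3) (nat_lit 0xbc0001780002fe22e)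 b16152 (.nil))) (.tok (nat_lit 9) (nat_lit 0xbc0001780002fe469) (.hit (nat_lit 12) (nat_lit 20) (nat_lit 0xbc0001780002fe469) b16153 (.hit (nat_lit 13) (nat_lit 28) (nat_lit 0xbc0001780002fdfb2) b16154 (.nil))) (.nil)))) (.nil)))
noncomputable def r15_96 : Rw Blk := .tok (nat_lit 3) (nat_lit 0xbc0001780002fdbbf) (.hit (nat_lit 14) (nat_lit 0) (nat_lit 0xbc0001780002fdbbf) b16155 (.tok (nat_lit 6) (nat_lit 0xbc0001780002fd271) (.hit (nat_lit 15) (nat_lit 7) (nat_lit 0xbc0001780002fd271) b16158 (.hit (nat_lit 16) (nat_lit 15) (nat_lit 0xbc0001780002fd237) b16159 (.nil))) (.tok (nat_lit 9) (nat_lit 0xbc0001780002fc30d) (.hit (nat_lit 17) (nat_lit 20) (nat_lit 0xbc0001780002fc30d) b16156 (.hit (nat_lit 18) (nat_lit 28) (nat_lit 0xbc0001780002fb297) b16157 (.nil))) (.nil)))) (.tok (nat_lit 6) (nat_lit 0xbc0001780002fe469) (.hit (nat_lit 9) (nat_lit 0) (nat_lit 0xbc0001780002fdbc2)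 b16150 (.tok (nat_lit 3) (nat_lit 0xbc0001780002fe22e) (.hit (nat_lit 10) (nat_lit 1) (nat_lit 0xbc0001780002fd8cf) b16151 (.one (nat_lit 67) (nat_lit 11) (nat_lit 2) (nat_lit 0xbc0001780002fe22e) b16152 (.nil))) (.tok (nat_lit 6) (nat_lit 0xbc0001780002fe469) (.hit (nat_lit 12) (nat_lit 7) (nat_lit 0xbc0001780002fe469) b16153 (.hit (nat_lit 13) (nat_lit 15) (nat_lit 0xbc0001780002fdfb2) b16154 (.nil))) (.nil)))) (.tok (nat_lit 9) (nat_lit 0xbc000178000300000) (.hit (nat_lit 0) (nat_lit 0) (nat_lit 0xbc0001780002ff183) b16141 (.tok (nat_lit 3) (nat_lit 0xbc0001780002ffb06) (.hit (nat_lit 1) (nat_lit 1) (nat_lit 0xbc0001780002fe1d7) b16142 (.one (nat_lit 55) (nat_lit 2) (nat_lit 3) (nat_lit 0xbc0001780002ffb06) b16143 (.nil))) (.tok (nat_lit 9) (nat_lit 0xbc000178000300000) (.hit (nat_lit 3) (nat_lit 20) (nat_lit 0xbc0001780002fea6e) b16144 (.hit (nat_lit 7) (nat_lit 28) (nat_lit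 0xbc0001780002fe05a) b16148 (.tok (nat_lit 67) (nat_lit 0xbc000178000300000) (.hit (nat_lit 4) (nat_lit 21) (nat_lit 0xbc0001780002ff7b3) b16145 (.hit (nat_lit 8) (nat_lit 29) (nat_lit 0xbc0001780002ff930) b16149 (.tok (nat_lit 9) (nat_lit 0xbc000178000300000) (.hit (nat_lit 5) (nat_lit 22) (nat_lit 0xbc0001780002ff1d3) b16146 (.one (nat_lit 67) (nat_lit 6) (nat_lit 23) (nat_lit 0xbc000178000300000) b16147 (.nil))) (.nil)))) (.nil)))) (.nil)))) (.nil)))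
noncomputable def r15_97 : Rw Blk := .tok (nat_lit 3) (nat_lit 0xbc0001780002fd04b) (.hit (nat_lit 0) (nat_lit 0) (nat_lit 0xbc0001780002fd04b) b29306 (.tok (nat_lit 6) (nat_lit 0xbc0001780002fc262) (.hit (nat_lit 1) (nat_lit 7) (nat_lit 0xbc0001780002fc262) b29307 (.hit (nat_lit 2) (nat_lit 15) (nat_lit 0xbc0001780002fc218) b29308 (.nil))) (.tok (nat_lit 9) (nat_lit 0xbc0001780002fc262) (.hit (nat_lit 3) (nat_lit 20) (nat_lit 0xbc0001780002fc262) b29307 (.hit (nat_lit 4) (nat_lit 28) (nat_lit 0xbc0001780002fc218) b29308 (.nil))) (.nil)))) (.tok (nat_lit 6) (nat_lit 0xbc000178000300000) (.hit (nat_lit 5) (nat_lit 0) (nat_lit 0xbc0001780002fefc9) b29309 (.tok (nat_lit 3) (nat_lit 0xbc0001780002fe085) (.hit (nat_lit 6) (nat_lit 1) (nat_lit 0xbc0001780002fc330) b29310 (.one (nat_lit 67) (nat_lit 7) (nat_lit 2) (nat_lit 0xbc0001780002fe085) b29311 (.nil))) (.tok (nat_lit 6) (nat_lit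 0xbc000178000300000) (.hit (nat_lit 8) (nat_lit 7) (nat_lit 0xbc0001780002fe92c) b29312 (.hit (nat_lit 11) (nat_lit 15) (nat_lit 0xbc0001780002fca4e) b29315 (.tok (nat_lit 55) (nat_lit 0xbc000178000300000) (.hit (nat_lit 9) (nat_lit 8) (nat_lit 0xbc000178000300000) b29313 (.hit (nat_lit 12) (nat_lit 16) (nat_lit 0xbc0001780002ff0b6) b29316 (.one (nat_lit 6) (nat_lit 10) (nat_lit 9) (nat_lit 0xbc0001780002ff3e1) b29314 (.nil)))) (.nil)))) (.nil)))) (.tok (nat_lit 9) (nat_lit 0xbc000178000300000) (.hit (nat_lit 13) (nat_lit 0) (nat_lit 0xbc0001780002fefc9) b29309 (.tok (nat_lit 3) (nat_lit 0xbc0001780002fe085) (.hit (nat_lit 14) (nat_lit 1) (nat_lit 0xbc0001780002fc330) b29310 (.one (nat_lit 55) (nat_lit 15) (nat_lit 3) (nat_lit 0xbc0001780002fe085) b29311 (.nil))) (.tok (nat_lit 9) (nat_lit 0xbc000178000300000) (.hit (nat_lit 16) (nat_lit 20) (nat_lit 0xbc0001780002fe92c) b29312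 (.hit (nat_lit 19) (nat_lit 28) (nat_lit 0xbc0001780002fca4e) b29315 (.tok (nat_lit 67) (nat_lit 0xbc000178000300000) (.hit (nat_lit 17) (nat_lit 21) (nat_lit 0xbc000178000300000) b29313 (.hit (nat_lit 20) (nat_lit 29) (nat_lit 0xbc0001780002ff0b6) b29316 (.one (nat_lit 9) (nat_lit 18) (nat_lit 22) (nat_lit 0xbc0001780002ff3e1) b29314 (.nil)))) (.nil)))) (.nil)))) (.nil)))
noncomputable def r15_98 : Rw Blk := .tok (nat_lit 3) (nat_lit 0xbc0001780002fe4d2) (.hit (nat_lit 0) (nat_lit 0) (nat_lit 0xbc0001780002fe4d2) b16171 (.tok (nat_lit 6) (nat_lit 0xbc0001780002fd97b) (.hit (nat_lit 1) (nat_lit 7) (nat_lit 0xbc0001780002fd97b) b16172 (.hit (nat_lit 2) (nat_lit 15) (nat_lit 0xbc0001780002fd7d2) b16173 (.nil))) (.tok (nat_lit 9) (nat_lit 0xbc0001780002fd97b) (.hit (nat_lit 3) (nat_lit 20) (nat_lit 0xbc0001780002fd97b) b16172 (.hit (nat_lit 4) (nat_lit 28) (nat_lit 0xbc0001780002fd7d2)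 b16173 (.nil))) (.nil)))) (.tok (nat_lit 6) (nat_lit 0xbc000178000300000) (.hit (nat_lit 13) (nat_lit 0) (nat_lit 0xbc0001780002ff632) b16174 (.one (nat_lit 3) (nat_lit 14) (nat_lit 1) (nat_lit 0xbc0001780002fd3fc) b16175 (.tok (nat_lit 6) (nat_lit 0xbc000178000300000) (.hit (nat_lit 15) (nat_lit 7) (nat_lit 0xbc0001780002ff0a7) b16176 (.hit (nat_lit 19) (nat_lit 15) (nat_lit 0xbc0001780002fe24a) b16180 (.tok (nat_lit 55) (nat_lit 0xbc000178000300000) (.hit (nat_lit 16) (nat_lit 8) (nat_lit 0xbc0001780002fffca) b16177 (.hit (nat_lit 20) (nat_lit 16) (nat_lit 0xbc000178000300000) b16181 (.tok (nat_lit 6) (nat_lit 0xbc0001780002fffb0) (.hit (nat_lit 17) (nat_lit 9) (nat_lit 0xbc0001780002ff169) b16178 (.one (nat_lit 55) (nat_lit 18) (nat_lit 10) (nat_lit 0xbc0001780002fffb0) b16179 (.nil))) (.nil)))) (.nil)))) (.nil)))) (.tok (nat_lit 9) (nat_lit 0xbc000178000300000) (.hit (nat_lit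 5) (nat_lit 0) (nat_lit 0xbc0001780002ff632) b16174 (.one (nat_lit 3) (nat_lit 6) (nat_lit 1) (nat_lit 0xbc0001780002fd3fc) b16175 (.tok (nat_lit 9) (nat_lit 0xbc000178000300000) (.hit (nat_lit 7) (nat_lit 20) (nat_lit 0xbc0001780002ff0a7) b16176 (.hit (nat_lit 11) (nat_lit 28) (nat_lit 0xbc0001780002fe24a) b16180 (.tok (nat_lit 67) (nat_lit 0xbc000178000300000) (.hit (nat_lit 8) (nat_lit 21) (nat_lit 0xbc0001780002fffca) b16177 (.hit (nat_lit 12) (nat_lit 29) (nat_lit 0xbc000178000300000) b16181 (.tok (nat_lit 9) (nat_lit 0xbc0001780002fffb0) (.hit (nat_lit 9) (nat_lit 22) (nat_lit 0xbc0001780002ff169) b16178 (.one (nat_lit 67) (nat_lit 10) (nat_lit 23) (nat_lit 0xbc0001780002fffb0) b16179 (.nil))) (.nil)))) (.nil)))) (.nil)))) (.nil)))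
noncomputable def r15_99 : Rw Blk := .tok (nat_lit 3) (nat_lit 0xbc0001780002fd8e5) (.hit (nat_lit 0) (nat_lit 0) (nat_lit 0xbc0001780002fd8e5) b16182 (.tok (nat_lit 6) (nat_lit 0xbc0001780002fc349) (.hit (nat_lit 1) (nat_lit 7) (nat_lit 0xbc0001780002fc239) b16183 (.hit (nat_lit 2) (nat_lit 15) (nat_lit 0xbc0001780002fc349) b16184 (.nil))) (.tok (nat_lit 9) (nat_lit 0xbc0001780002fc349) (.hit (nat_lit 3) (nat_lit 20) (nat_lit 0xbc0001780002fc239) b16183 (.hit (nat_lit 4) (nat_lit 28) (nat_lit 0xbc0001780002fc349) b16184 (.nil))) (.nil)))) (.tok (nat_lit 6) (nat_lit 0xbc000178000300000) (.hit (nat_lit 13) (nat_lit 0) (nat_lit 0xbc0001780002fe3d4) b16185 (.one (nat_lit 3) (nat_lit 14) (nat_lit 1) (nat_lit 0xbc0001780002fc979) b16186 (.tok (nat_lit 6) (nat_lit 0xbc000178000300000) (.hit (nat_lit 15) (nat_lit 7) (nat_lit 0xbc0001780002fdc45) b16187 (.hit (nat_lit 19) (nat_lit 15)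 (nat_lit 0xbc0001780002fcd61) b16191 (.tok (nat_lit 55) (nat_lit 0xbc000178000300000) (.hit (nat_lit 16) (nat_lit 8) (nat_lit 0xbc000178000300000) b16188 (.hit (nat_lit 20) (nat_lit 16) (nat_lit 0xbc0001780002fe5f9) b16192 (.tok (nat_lit 6) (nat_lit 0xbc0001780002ff263) (.hit (nat_lit 17) (nat_lit 9) (nat_lit 0xbc0001780002feb09) b16189 (.one (nat_lit 55) (nat_lit 18) (nat_lit 10) (nat_lit 0xbc0001780002ff263) b16190 (.nil))) (.nil)))) (.nil)))) (.nil)))) (.tok (nat_lit 9) (nat_lit 0xbc000178000300000) (.hit (nat_lit 5) (nat_lit 0) (nat_lit 0xbc0001780002fe3d4) b16185 (.one (nat_lit 3) (nat_lit 6) (nat_lit 1) (nat_lit 0xbc0001780002fc979) b16186 (.tok (nat_lit 9) (nat_lit 0xbc000178000300000) (.hit (nat_lit 7) (nat_lit 20) (nat_lit 0xbc0001780002fdc45) b16187 (.hit (nat_lit 11) (nat_lit 28) (nat_lit 0xbc0001780002fcd61) b16191 (.tok (nat_lit 67) (nat_lit 0xbc000178000300000)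 (.hit (nat_lit 8) (nat_lit 21) (nat_lit 0xbc000178000300000) b16188 (.hit (nat_lit 12) (nat_lit 29) (nat_lit 0xbc0001780002fe5f9) b16192 (.tok (nat_lit 9) (nat_lit 0xbc0001780002ff263) (.hit (nat_lit 9) (nat_lit 22) (nat_lit 0xbc0001780002feb09) b16189 (.one (nat_lit 67) (nat_lit 10) (nat_lit 23) (nat_lit 0xbc0001780002ff263) b16190 (.nil))) (.nil)))) (.nil)))) (.nil)))) (.nil)))
noncomputable def r15_100 : Rw Blk := .tok (nat_lit 3) (nat_lit 0xbc0001780002fe2cd) (.hit (nat_lit 14) (nat_lit 0) (nat_lit 0xbc0001780002fe2cd) b8399 (.tok (nat_lit 6) (nat_lit 0xbc0001780002fd794) (.hit (nat_lit 15) (nat_lit 7) (nat_lit 0xbc0001780002fd794) b8400 (.hit (nat_lit 16) (nat_lit 15) (nat_lit 0xbc0001780002fcb6d) b8401 (.nil))) (.tok (nat_lit 9) (nat_lit 0xbc0001780002fbfc6) (.hit (nat_lit 17) (nat_lit 20) (nat_lit 0xbc0001780002fbfc6) b8402 (.hit (nat_lit 18) (nat_lit 28) (nat_lit 0xbc0001780002fb9fe)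 b8403 (.nil))) (.nil)))) (.tok (nat_lit 6) (nat_lit 0xbc0001780002ffcad) (.hit (nat_lit 9) (nat_lit 0) (nat_lit 0xbc0001780002ff925) b8394 (.tok (nat_lit 3) (nat_lit 0xbc0001780002ffcad) (.hit (nat_lit 10) (nat_lit 1) (nat_lit 0xbc0001780002fe6ca) b8395 (.one (nat_lit 67) (nat_lit 11) (nat_lit 2) (nat_lit 0xbc0001780002ffcad) b8396 (.nil))) (.tok (nat_lit 6) (nat_lit 0xbc0001780002ff74e) (.hit (nat_lit 12) (nat_lit 7) (nat_lit 0xbc0001780002ff74e) b8397 (.hit (nat_lit 13) (nat_lit 15) (nat_lit 0xbc0001780002fe7fa) b8398 (.nil))) (.nil)))) (.tok (nat_lit 9) (nat_lit 0xbc000178000300000) (.hit (nat_lit 0) (nat_lit 0) (nat_lit 0xbc0001780002ff8d3) b8385 (.tok (nat_lit 3) (nat_lit 0xbc000178000300000) (.hit (nat_lit 1) (nat_lit 1) (nat_lit 0xbc0001780002fe45a) b8386 (.one (nat_lit 55) (nat_lit 2) (nat_lit 3) (nat_lit 0xbc000178000300000) b8387 (.nil))) (.tok (nat_lit 9) (nat_lit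 0xbc0001780002ffdbf) (.hit (nat_lit 3) (nat_lit 20) (nat_lit 0xbc0001780002fee91) b8388 (.hit (nat_lit 7) (nat_lit 28) (nat_lit 0xbc0001780002fdcf4) b8392 (.tok (nat_lit 67) (nat_lit 0xbc0001780002ffdbf) (.hit (nat_lit 4) (nat_lit 21) (nat_lit 0xbc0001780002ffdbf) b8389 (.hit (nat_lit 8) (nat_lit 29) (nat_lit 0xbc0001780002fed2e) b8393 (.tok (nat_lit 9) (nat_lit 0xbc0001780002ffccd) (.hit (nat_lit 5) (nat_lit 22) (nat_lit 0xbc0001780002ff116) b8390 (.one (nat_lit 67) (nat_lit 6) (nat_lit 23) (nat_lit 0xbc0001780002ffccd) b8391 (.nil))) (.nil)))) (.nil)))) (.nil)))) (.nil)))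
noncomputable def r15_101 : Rw Blk := .tok (nat_lit 3) (nat_lit 0xbc0001780002fcfd9) (.hit (nat_lit 14) (nat_lit 0) (nat_lit 0xbc0001780002fcfd9) b16207 (.tok (nat_lit 6) (nat_lit 0xbc0001780002fc875) (.hit (nat_lit 15) (nat_lit 7) (nat_lit 0xbc0001780002fc4d6) b16208 (.hit (nat_lit 16) (nat_lit 15) (nat_lit 0xbc0001780002fc875) b16209 (.nil))) (.tok (nat_lit 9) (nat_lit 0xbc0001780002fb3ea) (.hit (nat_lit 17) (nat_lit 20) (nat_lit 0xbc0001780002fb3ea) b16210 (.hit (nat_lit 18) (nat_lit 28) (nat_lit 0xbc0001780002faf21) b16211 (.nil))) (.nil)))) (.tok (nat_lit 6) (nat_lit 0xbc0001780002fee07) (.hit (nat_lit 9) (nat_lit 0) (nat_lit 0xbc0001780002fdde8) b16202 (.tok (nat_lit 3) (nat_lit 0xbc0001780002fee07) (.hit (nat_lit 10) (nat_lit 1) (nat_lit 0xbc0001780002fd4e9) b16203 (.one (nat_lit 67) (nat_lit 11) (nat_lit 2) (nat_lit 0xbc0001780002fee07) b16204 (.nil))) (.tok (nat_lit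 6) (nat_lit 0xbc0001780002fe1e0) (.hit (nat_lit 12) (nat_lit 7) (nat_lit 0xbc0001780002fe1e0) b16205 (.hit (nat_lit 13) (nat_lit 15) (nat_lit 0xbc0001780002fd5fc) b16206 (.nil))) (.nil)))) (.tok (nat_lit 9) (nat_lit 0xbc000178000300000) (.hit (nat_lit 0) (nat_lit 0) (nat_lit 0xbc0001780002fe877) b16193 (.tok (nat_lit 3) (nat_lit 0xbc0001780002ff969) (.hit (nat_lit 1) (nat_lit 1) (nat_lit 0xbc0001780002fd4f9) b16194 (.one (nat_lit 55) (nat_lit 2) (nat_lit 3) (nat_lit 0xbc0001780002ff969) b16195 (.nil))) (.tok (nat_lit 9) (nat_lit 0xbc000178000300000) (.hit (nat_lit 3) (nat_lit 20) (nat_lit 0xbc0001780002fe112) b16196 (.hit (nat_lit 7) (nat_lit 28) (nat_lit 0xbc0001780002fd22c) b16200 (.tok (nat_lit 67) (nat_lit 0xbc000178000300000) (.hit (nat_lit 4) (nat_lit 21) (nat_lit 0xbc0001780002ffb6a) b16197 (.hit (nat_lit 8) (nat_lit 29) (nat_lit 0xbc0001780002feb20) b16201 (.tok (nat_lit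 9) (nat_lit 0xbc000178000300000) (.hit (nat_lit 5) (nat_lit 22) (nat_lit 0xbc0001780002fe4c1) b16198 (.one (nat_lit 67) (nat_lit 6) (nat_lit 23) (nat_lit 0xbc000178000300000) b16199 (.nil))) (.nil)))) (.nil)))) (.nil)))) (.nil)))
noncomputable def r15_102 : Rw Blk := .tok (nat_lit 3) (nat_lit 0xbc0001780002fe2cd) (.hit (nat_lit 14) (nat_lit 0) (nat_lit 0xbc0001780002fe2cd) b8399 (.tok (nat_lit 6) (nat_lit 0xbc0001780002fbfc6) (.hit (nat_lit 15) (nat_lit 7) (nat_lit 0xbc0001780002fbfc6) b8402 (.hit (nat_lit 16) (nat_lit 15) (nat_lit 0xbc0001780002fb9fe) b8403 (.nil))) (.tok (nat_lit 9) (nat_lit 0xbc0001780002fd794) (.hit (nat_lit 17) (nat_lit 20) (nat_lit 0xbc0001780002fd794) b8400 (.hit (nat_lit 18) (nat_lit 28) (nat_lit 0xbc0001780002fcb6d) b8401 (.nil))) (.nil)))) (.tok (nat_lit 6) (nat_lit 0xbc000178000300000) (.hit (nat_lit 0) (nat_lit 0) (nat_lit 0xbc0001780002ff8d3) b8385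 (.tok (nat_lit 3) (nat_lit 0xbc000178000300000) (.hit (nat_lit 1) (nat_lit 1) (nat_lit 0xbc0001780002fe45a) b8386 (.one (nat_lit 67) (nat_lit 2) (nat_lit 2) (nat_lit 0xbc000178000300000) b8387 (.nil))) (.tok (nat_lit 6) (nat_lit 0xbc0001780002ffdbf) (.hit (nat_lit 3) (nat_lit 7) (nat_lit 0xbc0001780002fee91) b8388 (.hit (nat_lit 7) (nat_lit 15) (nat_lit 0xbc0001780002fdcf4) b8392 (.tok (nat_lit 55) (nat_lit 0xbc0001780002ffdbf) (.hit (nat_lit 4) (nat_lit 8) (nat_lit 0xbc0001780002ffdbf) b8389 (.hit (nat_lit 8) (nat_lit 16) (nat_lit 0xbc0001780002fed2e) b8393 (.tok (nat_lit 6) (nat_lit 0xbc0001780002ffccd) (.hit (nat_lit 5) (nat_lit 9) (nat_lit 0xbc0001780002ff116) b8390 (.one (nat_lit 55) (nat_lit 6) (nat_lit 10) (nat_lit 0xbc0001780002ffccd) b8391 (.nil))) (.nil)))) (.nil)))) (.nil)))) (.tok (nat_lit 9) (nat_lit 0xbc0001780002ffcad) (.hit (nat_lit 9) (nat_lit 0) (nat_lit 0xbc0001780002ff925)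 b8394 (.tok (nat_lit 3) (nat_lit 0xbc0001780002ffcad) (.hit (nat_lit 10) (nat_lit 1) (nat_lit 0xbc0001780002fe6ca) b8395 (.one (nat_lit 55) (nat_lit 11) (nat_lit 3) (nat_lit 0xbc0001780002ffcad) b8396 (.nil))) (.tok (nat_lit 9) (nat_lit 0xbc0001780002ff74e) (.hit (nat_lit 12) (nat_lit 20) (nat_lit 0xbc0001780002ff74e) b8397 (.hit (nat_lit 13) (nat_lit 28) (nat_lit 0xbc0001780002fe7fa) b8398 (.nil))) (.nil)))) (.nil)))
noncomputable def r15_103 : Rw Blk := .tok (nat_lit 3) (nat_lit 0xbc0001780002fcfd9) (.hit (nat_lit 14) (nat_lit 0) (nat_lit 0xbc0001780002fcfd9) b16207 (.tok (nat_lit 6) (nat_lit 0xbc0001780002fb3ea) (.hit (nat_lit 15) (nat_lit 7) (nat_lit 0xbc0001780002fb3ea) b16210 (.hit (nat_lit 16) (nat_lit 15) (nat_lit 0xbc0001780002faf21) b16211 (.nil))) (.tok (nat_lit 9) (nat_lit 0xbc0001780002fc875) (.hit (nat_lit 17) (nat_lit 20) (nat_lit 0xbc0001780002fc4d6) b16208 (.hit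 (nat_lit 18) (nat_lit 28) (nat_lit 0xbc0001780002fc875) b16209 (.nil))) (.nil)))) (.tok (nat_lit 6) (nat_lit 0xbc000178000300000) (.hit (nat_lit 0) (nat_lit 0) (nat_lit 0xbc0001780002fe877) b16193 (.tok (nat_lit 3) (nat_lit 0xbc0001780002ff969) (.hit (nat_lit 1) (nat_lit 1) (nat_lit 0xbc0001780002fd4f9) b16194 (.one (nat_lit 67) (nat_lit 2) (nat_lit 2) (nat_lit 0xbc0001780002ff969) b16195 (.nil))) (.tok (nat_lit 6) (nat_lit 0xbc000178000300000) (.hit (nat_lit 3) (nat_lit 7) (nat_lit 0xbc0001780002fe112) b16196 (.hit (nat_lit 7) (nat_lit 15) (nat_lit 0xbc0001780002fd22c) b16200 (.tok (nat_lit 55) (nat_lit 0xbc000178000300000) (.hit (nat_lit 4) (nat_lit 8) (nat_lit 0xbc0001780002ffb6a) b16197 (.hit (nat_lit 8) (nat_lit 16) (nat_lit 0xbc0001780002feb20) b16201 (.tok (nat_lit 6) (nat_lit 0xbc000178000300000) (.hit (nat_lit 5) (nat_lit 9) (nat_lit 0xbc0001780002fe4c1) b16198 (.one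 (nat_lit 55) (nat_lit 6) (nat_lit 10) (nat_lit 0xbc000178000300000) b16199 (.nil))) (.nil)))) (.nil)))) (.nil)))) (.tok (nat_lit 9) (nat_lit 0xbc0001780002fee07) (.hit (nat_lit 9) (nat_lit 0) (nat_lit 0xbc0001780002fdde8) b16202 (.tok (nat_lit 3) (nat_lit 0xbc0001780002fee07) (.hit (nat_lit 10) (nat_lit 1) (nat_lit 0xbc0001780002fd4e9) b16203 (.one (nat_lit 55) (nat_lit 11) (nat_lit 3) (nat_lit 0xbc0001780002fee07) b16204 (.nil))) (.tok (nat_lit 9) (nat_lit 0xbc0001780002fe1e0) (.hit (nat_lit 12) (nat_lit 20) (nat_lit 0xbc0001780002fe1e0) b16205 (.hit (nat_lit 13) (nat_lit 28) (nat_lit 0xbc0001780002fd5fc) b16206 (.nil))) (.nil)))) (.nil)))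
noncomputable def r15_104 : Rw Blk := .tok (nat_lit 3) (nat_lit 0xbc0001780002fd52a) (.hit (nat_lit 0) (nat_lit 0) (nat_lit 0xbc0001780002fd52a) b16212 (.tok (nat_lit 6) (nat_lit 0xbc0001780002fce4b) (.hit (nat_lit 1) (nat_lit 7) (nat_lit 0xbc0001780002fce4b) b16213 (.hit (nat_lit 2) (nat_lit 15) (nat_lit 0xbc0001780002fcc28) b16214 (.nil))) (.tok (nat_lit 9) (nat_lit 0xbc0001780002fd05f) (.hit (nat_lit 3) (nat_lit 20) (nat_lit 0xbc0001780002fd044) b16215 (.hit (nat_lit 4) (nat_lit 28) (nat_lit 0xbc0001780002fd05f) b16216 (.nil))) (.nil)))) (.tok (nat_lit 6) (nat_lit 0xbc000178000300000) (.hit (nat_lit 5) (nat_lit 0) (nat_lit 0xbc0001780002fe657) b16217 (.tok (nat_lit 3) (nat_lit 0xbc0001780002fee25) (.hit (nat_lit 6) (nat_lit 1) (nat_lit 0xbc0001780002fd000) b16218 (.one (nat_lit 67) (nat_lit 7) (nat_lit 2) (nat_lit 0xbc0001780002fee25) b16219 (.nil))) (.tok (nat_lit 6) (nat_lit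 0xbc000178000300000) (.hit (nat_lit 8) (nat_lit 7) (nat_lit 0xbc0001780002fe88d) b16220 (.hit (nat_lit 11) (nat_lit 15) (nat_lit 0xbc0001780002fd141) b16223 (.tok (nat_lit 55) (nat_lit 0xbc000178000300000) (.hit (nat_lit 9) (nat_lit 8) (nat_lit 0xbc000178000300000) b16221 (.hit (nat_lit 12) (nat_lit 16) (nat_lit 0xbc0001780002fed5e) b16224 (.one (nat_lit 6) (nat_lit 10) (nat_lit 9) (nat_lit 0xbc0001780002fe9d0) b16222 (.nil)))) (.nil)))) (.nil)))) (.tok (nat_lit 9) (nat_lit 0xbc0001780002ff5b8) (.hit (nat_lit 13) (nat_lit 0) (nat_lit 0xbc0001780002fef7b) b16225 (.tok (nat_lit 3) (nat_lit 0xbc0001780002fec09) (.hit (nat_lit 14) (nat_lit 1) (nat_lit 0xbc0001780002fdf83) b16226 (.one (nat_lit 55) (nat_lit 15) (nat_lit 3) (nat_lit 0xbc0001780002fec09) b16227 (.nil))) (.tok (nat_lit 9) (nat_lit 0xbc0001780002ff5b8) (.hit (nat_lit 16) (nat_lit 20) (nat_lit 0xbc0001780002fe141) b16228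 (.hit (nat_lit 19) (nat_lit 28) (nat_lit 0xbc0001780002fdd2e) b16231 (.tok (nat_lit 67) (nat_lit 0xbc0001780002ff5b8) (.hit (nat_lit 17) (nat_lit 21) (nat_lit 0xbc0001780002ff21e) b16229 (.hit (nat_lit 20) (nat_lit 29) (nat_lit 0xbc0001780002ff5b8) b16232 (.one (nat_lit 9) (nat_lit 18) (nat_lit 22) (nat_lit 0xbc0001780002feff9) b16230 (.nil)))) (.nil)))) (.nil)))) (.nil)))
noncomputable def r15_105 : Rw Blk := .tok (nat_lit 3) (nat_lit 0xbc0001780002fdb3a) (.hit (nat_lit 0) (nat_lit 0) (nat_lit 0xbc0001780002fdb3a) b29317 (.tok (nat_lit 6) (nat_lit 0xbc0001780002fc9e7) (.hit (nat_lit 1) (nat_lit 7) (nat_lit 0xbc0001780002fc98f) b29318 (.hit (nat_lit 2) (nat_lit 15) (nat_lit 0xbc0001780002fc9e7) b29319 (.nil))) (.tok (nat_lit 9) (nat_lit 0xbc0001780002fc9ab) (.hit (nat_lit 3) (nat_lit 20) (nat_lit 0xbc0001780002fc88a) b29320 (.hit (nat_lit 4) (nat_lit 28) (nat_lit 0xbc0001780002fc9ab)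 b29321 (.nil))) (.nil)))) (.tok (nat_lit 6) (nat_lit 0xbc000178000301881) (.hit (nat_lit 13) (nat_lit 0) (nat_lit 0xbc0001780002fe720) b29330 (.one (nat_lit 3) (nat_lit 14) (nat_lit 1) (nat_lit 0xbc0001780002fc7d6) b29331 (.tok (nat_lit 6) (nat_lit 0xbc000178000301881) (.hit (nat_lit 15) (nat_lit 7) (nat_lit 0xbc0001780002feb9d) b29332 (.hit (nat_lit 19) (nat_lit 15) (nat_lit 0xbc0001780002fd19b) b29336 (.tok (nat_lit 55) (nat_lit 0xbc000178000301881) (.hit (nat_lit 16) (nat_lit 8) (nat_lit 0xbc000178000301881) b29333 (.hit (nat_lit 20) (nat_lit 16) (nat_lit 0xbc0001780002fec3a) b29337 (.tok (nat_lit 6) (nat_lit 0xbc00017800030095d) (.hit (nat_lit 17) (nat_lit 9) (nat_lit 0xbc0001780002ff922) b29334 (.one (nat_lit 55) (nat_lit 18) (nat_lit 10) (nat_lit 0xbc00017800030095d) b29335 (.nil))) (.nil)))) (.nil)))) (.nil)))) (.tok (nat_lit 9) (nat_lit 0xbc0001780002ff23d) (.hit (nat_lit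 5) (nat_lit 0) (nat_lit 0xbc0001780002ff23d) b29322 (.one (nat_lit 3) (nat_lit 6) (nat_lit 1) (nat_lit 0xbc0001780002fb781) b29323 (.tok (nat_lit 9) (nat_lit 0xbc0001780002fea21) (.hit (nat_lit 7) (nat_lit 20) (nat_lit 0xbc0001780002fcad2) b29324 (.hit (nat_lit 11) (nat_lit 28) (nat_lit 0xbc0001780002fbfa1) b29328 (.tok (nat_lit 67) (nat_lit 0xbc0001780002fea21) (.hit (nat_lit 8) (nat_lit 21) (nat_lit 0xbc0001780002fdc56) b29325 (.hit (nat_lit 12) (nat_lit 29) (nat_lit 0xbc0001780002fda3b) b29329 (.tok (nat_lit 9) (nat_lit 0xbc0001780002fea21) (.hit (nat_lit 9) (nat_lit 22) (nat_lit 0xbc0001780002fdb11) b29326 (.one (nat_lit 67) (nat_lit 10) (nat_lit 23) (nat_lit 0xbc0001780002fea21) b29327 (.nil))) (.nil)))) (.nil)))) (.nil)))) (.nil)))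
noncomputable def r15_106 : Rw Blk := .tok (nat_lit 3) (nat_lit 0xbc0001780002fd981) (.hit (nat_lit 0) (nat_lit 0) (nat_lit 0xbc0001780002fd981) b16254 (.tok (nat_lit 6) (nat_lit 0xbc0001780002fce52) (.hit (nat_lit 1) (nat_lit 7) (nat_lit 0xbc0001780002fcdd6) b16255 (.hit (nat_lit 2) (nat_lit 15) (nat_lit 0xbc0001780002fce52) b16256 (.nil))) (.tok (nat_lit 9) (nat_lit 0xbc0001780002fcf09) (.hit (nat_lit 3) (nat_lit 20) (nat_lit 0xbc0001780002fcc73) b16257 (.hit (nat_lit 4) (nat_lit 28) (nat_lit 0xbc0001780002fcf09) b16258 (.nil))) (.nil)))) (.tok (nat_lit 6) (nat_lit 0xbc0001780002ff504) (.hit (nat_lit 13) (nat_lit 0) (nat_lit 0xbc0001780002fe077) b16267 (.one (nat_lit 3) (nat_lit 14) (nat_lit 1) (nat_lit 0xbc0001780002fc861) b16268 (.tok (nat_lit 6) (nat_lit 0xbc0001780002ff504) (.hit (nat_lit 15) (nat_lit 7) (nat_lit 0xbc0001780002fdcea) b16269 (.hit (nat_lit 19) (nat_lit 15)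 (nat_lit 0xbc0001780002fd969) b16273 (.tok (nat_lit 55) (nat_lit 0xbc0001780002ff504) (.hit (nat_lit 16) (nat_lit 8) (nat_lit 0xbc0001780002fee22) b16270 (.hit (nat_lit 20) (nat_lit 16) (nat_lit 0xbc0001780002fecb7) b16274 (.tok (nat_lit 6) (nat_lit 0xbc0001780002ff504) (.hit (nat_lit 17) (nat_lit 9) (nat_lit 0xbc0001780002fe768) b16271 (.one (nat_lit 55) (nat_lit 18) (nat_lit 10) (nat_lit 0xbc0001780002ff504) b16272 (.nil))) (.nil)))) (.nil)))) (.nil)))) (.tok (nat_lit 9) (nat_lit 0xbc000178000300000) (.hit (nat_lit 5) (nat_lit 0) (nat_lit 0xbc0001780002febb5) b16259 (.one (nat_lit 3) (nat_lit 6) (nat_lit 1) (nat_lit 0xbc0001780002fc944) b16260 (.tok (nat_lit 9) (nat_lit 0xbc000178000300000) (.hit (nat_lit 7) (nat_lit 20) (nat_lit 0xbc0001780002fe06e) b16261 (.hit (nat_lit 11) (nat_lit 28) (nat_lit 0xbc0001780002fd170) b16265 (.tok (nat_lit 67) (nat_lit 0xbc000178000300000)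 (.hit (nat_lit 8) (nat_lit 21) (nat_lit 0xbc000178000300000) b16262 (.hit (nat_lit 12) (nat_lit 29) (nat_lit 0xbc0001780002ff236) b16266 (.tok (nat_lit 9) (nat_lit 0xbc0001780002ff727) (.hit (nat_lit 9) (nat_lit 22) (nat_lit 0xbc0001780002ff372) b16263 (.one (nat_lit 67) (nat_lit 10) (nat_lit 23) (nat_lit 0xbc0001780002ff727) b16264 (.nil))) (.nil)))) (.nil)))) (.nil)))) (.nil)))
noncomputable def r15_107 : Rw Blk := .tok (nat_lit 3) (nat_lit 0x5f9df0bf70e17f65d2fdb7c5fd718bfa1f57f5edafe24a) (.hit (nat_lit 14) (nat_lit 0) (nat_lit 0x5f9df0bf68e97f0f3afdb7c5fc2e8bfa1f57f3802fe24a) b29352 (.tok (nat_lit 6) (nat_lit 0x5f9c7ebf70e17f65d2fdb705fd718bf81857f5edafdd2e) (.hit (nat_lit 15) (nat_lit 7) (nat_lit 0x5f9c7ebf70e17f65d2fdb705fd718bf81857f5edafdd2e) b29353 (.hit (nat_lit 16) (nat_lit 15) (nat_lit 0x5f9058bf50d57ecbc2fd55d5fcdecbf69397f3192fd71b) b29354 (.nil))) (.tok (nat_lit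 9) (nat_lit 0x5f6876bf278d7e756afc16c5fb9b6bf19757e5ef2fc32a) (.hit (nat_lit 17) (nat_lit 20) (nat_lit 0x5f6876bf278d7e756afc16c5fb9b6bf19757e1d9afc32a) b29355 (.hit (nat_lit 18) (nat_lit 28) (nat_lit 0x5f4114befb697e2222fadbb5fa09ebecab17e5ef2faf79) b29356 (.nil))) (.nil)))) (.tok (nat_lit 6) (nat_lit 0x600000bfeff97f905b0130c5fe312bffd618000030115e) (.hit (nat_lit 9) (nat_lit 0) (nat_lit 0x5fbc08bf71c97f4e3aff0b45fc816bfac697f1d9aff345) b29347 (.tok (nat_lit 3) (nat_lit 0x600000bfeff97f905b0130c5fe0f8bffd618000030115e) (.hit (nat_lit 10) (nat_lit 1) (nat_lit 0x5fc0b0bfae217ef6aafed375fd54cbf8c1d7f6532ff293) b29348 (.one (nat_lit 67) (nat_lit 11) (nat_lit 2) (nat_lit 0x600000bfeff97f905b0130c5fe0f8bffd618000030115e) b29349 (.nil))) (.tok (nat_lit 6) (nat_lit 0x5fdfdebf8a017f60aaffd8d5fe312bfbab17f467b00b6e) (.hit (nat_lit 12) (nat_lit 7) (nat_lit 0x5fdfdebf8a017f60aaffd8d5fe312bfbab17f467b00b6e)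 b29350 (.hit (nat_lit 13) (nat_lit 15) (nat_lit 0x5faef8bf7c857ec782fe7be5fc638bf60317ed0fafe9e6) b29351 (.nil))) (.nil)))) (.tok (nat_lit 9) (nat_lit 0x5fd04cc00001800002feff2600000c000017fa3a2ff9d8) (.hit (nat_lit 0) (nat_lit 0) (nat_lit 0x5fd04cbf95597f6142feff25fe5f6c000017f4cc2ff9d8) b29338 (.tok (nat_lit 3) (nat_lit 0x5fa306bfe6317f970afdeb45ff84abf8e957f7002fe072) (.hit (nat_lit 1) (nat_lit 1) (nat_lit 0x5f7c8cbf605d7ece72fcb775fd464bf41a17e6df2fcd35) b29339 (.one (nat_lit 55) (nat_lit 2) (nat_lit 3) (nat_lit 0x5fa306bfe6317f970afdeb45ff84abf8e957f7002fe072) b29340 (.nil))) (.tok (nat_lit 9) (nat_lit 0x5fbe56c00001800002fec5c600000bfc5357fa3a2fee1a) (.hit (nat_lit 3) (nat_lit 20) (nat_lit 0x5f96dabf88657f0672fd89e5fdababf763d7ed72afda5c) b29341 (.hit (nat_lit 7) (nat_lit 28) (nat_lit 0x5f8516bf86b97ead92fcfbc5fc876bf52b57eb112fd17a) b29345 (.tok (nat_lit 67) (nat_lit 0x5fbe56c00001800002fec5c600000bfc5357fa3a2fee1a)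 (.hit (nat_lit 4) (nat_lit 21) (nat_lit 0x5fb1d4bfce4d7faccafe61b5ff64abfac317f4312fe7d9) b29342 (.hit (nat_lit 8) (nat_lit 29) (nat_lit 0x5fa8b4c00001800002fe18b600000bf99f17fa3a2fe349) b29346 (.tok (nat_lit 9) (nat_lit 0x5fbe56bfd4757ff0fafec5c5ff140bfc5357f751afee1a) (.hit (nat_lit 5) (nat_lit 22) (nat_lit 0x5fabd8bfa9997f4f12fe31d5ff140bfa0397f2b22fe4db) b29343 (.one (nat_lit 67) (nat_lit 6) (nat_lit 23) (nat_lit 0x5fbe56bfd4757ff0fafec5c5febd6bfc5357f751afee1a) b29344 (.nil))) (.nil)))) (.nil)))) (.nil)))) (.nil)))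
noncomputable def r15_108 : Rw Blk := .tok (nat_lit 3) (nat_lit 0xbc0001780002ff980) (.hit (nat_lit 0) (nat_lit 0) (nat_lit 0xbc0001780002fe5ef) b29357 (.tok (nat_lit 6) (nat_lit 0xbc0001780002fd779) (.hit (nat_lit 1) (nat_lit 7) (nat_lit 0xbc0001780002fc5d4) b29358 (.hit (nat_lit 4) (nat_lit 15) (nat_lit 0xbc0001780002fbeae) b29361 (.tok (nat_lit 14) (nat_lit 0xbc0001780002fd779) (.hit (nat_lit 2) (nat_lit 11) (nat_lit 0xbc0001780002fd4ec) b29359 (.hit (nat_lit 5) (nat_lit 17) (nat_lit 0xbc0001780002fcca9) b29362 (.one (nat_lit 9) (nat_lit 3) (nat_lit 12) (nat_lit 0xbc0001780002fd779) b29360 (.nil)))) (.one (nat_lit 68) (nat_lit 6) (nat_lit 18) (nat_lit 0xbc0001780002fd448) b29363 (.nil))))) (.tok (nat_lit 52) (nat_lit 0xbc0001780002fe35f) (.hit (nat_lit 7) (nat_lit 39) (nat_lit 0xbc0001780002fe35f) b29364 (.hit (nat_lit 8) (nat_lit 40) (nat_lit 0xbc0001780002fdf8e) b29365 (.nil)))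 (.tok (nat_lit 55) (nat_lit 0xbc0001780002ff980) (.hit (nat_lit 9) (nat_lit 41) (nat_lit 0xbc0001780002ff980) b29366 (.tok (nat_lit 3) (nat_lit 0xbc0001780002fe4d4) (.hit (nat_lit 12) (nat_lit 47) (nat_lit 0xbc0001780002fe238) b29369 (.one (nat_lit 67) (nat_lit 13) (nat_lit 48) (nat_lit 0xbc0001780002fe4d4) b29370 (.nil))) (.tok (nat_lit 6) (nat_lit 0xbc0001780002feec9) (.hit (nat_lit 10) (nat_lit 42) (nat_lit 0xbc0001780002feec9) b29367 (.hit (nat_lit 11) (nat_lit 45) (nat_lit 0xbc0001780002fdf06) b29368 (.nil))) (.nil)))) (.one (nat_lit 58) (nat_lit 14) (nat_lit 49) (nat_lit 0xbc0001780002fdbc8) b29371 (.nil)))))) (.tok (nat_lit 9) (nat_lit 0xbc00017800030308a) (.hit (nat_lit 15) (nat_lit 0) (nat_lit 0xbc0001780002fe8c0) b29372 (.tok (nat_lit 9) (nat_lit 0xbc0001780002feb6b) (.hit (nat_lit 16) (nat_lit 20) (nat_lit 0xbc0001780002fd975) b29373 (.hit (nat_lit 21) (nat_lit 28)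 (nat_lit 0xbc0001780002fc74b) b29378 (.tok (nat_lit 14) (nat_lit 0xbc0001780002feb6b) (.hit (nat_lit 17) (nat_lit 24) (nat_lit 0xbc0001780002fe3b7) b29374 (.hit (nat_lit 22) (nat_lit 30) (nat_lit 0xbc0001780002fe5ce) b29379 (.one (nat_lit 6) (nat_lit 18) (nat_lit 25) (nat_lit 0xbc0001780002feb6b) b29375 (.nil)))) (.one (nat_lit 56) (nat_lit 23) (nat_lit 31) (nat_lit 0xbc0001780002fd7ef) b29380 (.tok (nat_lit 68) (nat_lit 0xbc0001780002fe7fa) (.hit (nat_lit 19) (nat_lit 26) (nat_lit 0xbc0001780002fe7ee) b29376 (.hit (nat_lit 24) (nat_lit 32) (nat_lit 0xbc0001780002fdff7) b29381 (.one (nat_lit 9) (nat_lit 20) (nat_lit 27) (nat_lit 0xbc0001780002fe7fa) b29377 (.nil)))) (.nil)))))) (.tok (nat_lit 64) (nat_lit 0xbc0001780002feac5) (.hit (nat_lit 25) (nat_lit 50) (nat_lit 0xbc0001780002fdb08) b29382 (.hit (nat_lit 26) (nat_lit 51) (nat_lit 0xbc0001780002feac5) b29383 (.nil))) (.tok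 (nat_lit 67) (nat_lit 0xbc00017800030308a) (.hit (nat_lit 27) (nat_lit 52) (nat_lit 0xbc0001780002ffdbf) b29384 (.tok (nat_lit 3) (nat_lit 0xbc00017800030011e) (.hit (nat_lit 33) (nat_lit 58) (nat_lit 0xbc0001780002ff5b7) b29390 (.one (nat_lit 55) (nat_lit 34) (nat_lit 59) (nat_lit 0xbc00017800030011e) b29391 (.nil))) (.tok (nat_lit 9) (nat_lit 0xbc00017800030308a) (.hit (nat_lit 28) (nat_lit 53) (nat_lit 0xbc000178000300fc6) b29385 (.hit (nat_lit 31) (nat_lit 56) (nat_lit 0xbc0001780002fe7ea) b29388 (.tok (nat_lit 67) (nat_lit 0xbc00017800030308a) (.hit (nat_lit 29) (nat_lit 54) (nat_lit 0xbc000178000301584) b29386 (.hit (nat_lit 32) (nat_lit 57) (nat_lit 0xbc0001780003004da) b29389 (.one (nat_lit 9) (nat_lit 30) (nat_lit 55) (nat_lit 0xbc00017800030308a) b29387 (.nil)))) (.nil)))) (.nil)))) (.one (nat_lit 70) (nat_lit 35) (nat_lit 60) (nat_lit 0xbc0001780002fe5fe) b29392 (.nil))))))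 (.nil))
noncomputable def r15_109 : Rw Blk := .tok (nat_lit 3) (nat_lit 0x5e0000bf98317f1762fefb8) (.hit (nat_lit 0) (nat_lit 0) (nat_lit 0x5e0000bf6f357e942afe88a) b29393 (.tok (nat_lit 9) (nat_lit 0x5e0000bf62bd7ed732fdeee) (.hit (nat_lit 1) (nat_lit 20) (nat_lit 0x5e0000befbf17e099afc53b) b29394 (.hit (nat_lit 6) (nat_lit 28) (nat_lit 0x5e0000beea457de642fc0d0) b29399 (.tok (nat_lit 14) (nat_lit 0x5e0000bf38917e82dafd463) (.hit (nat_lit 2) (nat_lit 24) (nat_lit 0x5e0000bf35bd7e7d32fd3ae) b29395 (.hit (nat_lit 7) (nat_lit 30) (nat_lit 0x5e0000bf13f17e399afcb3b) b29400 (.one (nat_lit 6) (nat_lit 3) (nat_lit 25) (nat_lit 0x5e0000bf38917e82dafd463) b29396 (.nil)))) (.tok (nat_lit 68) (nat_lit 0x5e0000bf62bd7ed732fdeee) (.hit (nat_lit 4) (nat_lit 26) (nat_lit 0x5e0000bf49f17ea59afd8bb) b29397 (.hit (nat_lit 8) (nat_lit 32) (nat_lit 0x5e0000bf04e57e1b82fc778) b29401 (.one (nat_lit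 9) (nat_lit 5) (nat_lit 27) (nat_lit 0x5e0000bf62bd7ed732fdeee) b29398 (.nil)))) (.nil))))) (.tok (nat_lit 64) (nat_lit 0x5e0000bf474d7ea052fd812) (.hit (nat_lit 9) (nat_lit 50) (nat_lit 0x5e0000bf474d7ea052fd812) b29402 (.hit (nat_lit 10) (nat_lit 51) (nat_lit 0x5e0000bf46497e9e4afd7d1) b29403 (.nil))) (.tok (nat_lit 67) (nat_lit 0x5e0000bf98317f1762fefb8) (.hit (nat_lit 11) (nat_lit 52) (nat_lit 0x5e0000bf98317efd8afefb8) b29404 (.tok (nat_lit 3) (nat_lit 0x5e0000bf82d57f1762fe6f4) (.hit (nat_lit 17) (nat_lit 58) (nat_lit 0x5e0000bf65757edca2fdf9c) b29410 (.one (nat_lit 55) (nat_lit 18) (nat_lit 59) (nat_lit 0x5e0000bf82d57f1762fe6f4) b29411 (.nil))) (.tok (nat_lit 9) (nat_lit 0x5e0000bf5e3d7ece32fddce) (.hit (nat_lit 12) (nat_lit 53) (nat_lit 0x5e0000bf36717e7e9afd3db) b29405 (.hit (nat_lit 15) (nat_lit 56) (nat_lit 0x5e0000bf40b17e931afd66b) b29408 (.tok (nat_lit 67) (nat_lit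 0x5e0000bf5e3d7ece32fddce) (.hit (nat_lit 13) (nat_lit 54) (nat_lit 0x5e0000bf5e3d7ece32fddce) b29406 (.hit (nat_lit 16) (nat_lit 57) (nat_lit 0x5e0000bf5ba57ec902fdd28) b29409 (.one (nat_lit 9) (nat_lit 14) (nat_lit 55) (nat_lit 0x5e0000bf55317ebc1afdb8b) b29407 (.nil)))) (.nil)))) (.nil)))) (.one (nat_lit 70) (nat_lit 19) (nat_lit 60) (nat_lit 0x5e0000bf20697e528afce59) b29412 (.nil)))))) (.tok (nat_lit 6) (nat_lit 0x5e0000c0a6b98150c303067) (.hit (nat_lit 20) (nat_lit 0) (nat_lit 0x5e0000bf80197eff32fea5a) b29413 (.tok (nat_lit 6) (nat_lit 0x5e0000c0a6b98150c303067) (.hit (nat_lit 21) (nat_lit 7) (nat_lit 0x5e0000bf7af17f446afed79) b29414 (.hit (nat_lit 26) (nat_lit 15) (nat_lit 0x5e0000befb5d7e06b2fd6ff) b29419 (.tok (nat_lit 14) (nat_lit 0x5e0000c0a6b98150c303067) (.hit (nat_lit 22) (nat_lit 11) (nat_lit 0x5e0000c0a6b98150c303067) b29415 (.hit (nat_lit 27) (nat_lit 17) (nat_lit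 0x5e0000bf88fd7f277affb0b) b29420 (.one (nat_lit 9) (nat_lit 23) (nat_lit 12) (nat_lit 0x5e0000c0325d80713b017f0) b29416 (.nil)))) (.tok (nat_lit 56) (nat_lit 0x5e0000bff241803c930109d) (.hit (nat_lit 24) (nat_lit 13) (nat_lit 0x5e0000bff2418006530109d) b29417 (.hit (nat_lit 29) (nat_lit 19) (nat_lit 0x5e0000bf3fd97ea69afe803) b29422 (.one (nat_lit 6) (nat_lit 25) (nat_lit 14) (nat_lit 0x5e0000bf9791803c92ffd58) b29418 (.nil)))) (.one (nat_lit 68) (nat_lit 28) (nat_lit 18) (nat_lit 0x5e0000bf51357ef85aff20a) b29421 (.nil)))))) (.nil))) (.nil))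
noncomputable def r15_110 : Rw Blk := .tok (nat_lit 3) (nat_lit 0xbc0001780002feef0) (.hit (nat_lit 0) (nat_lit 0) (nat_lit 0xbc0001780002fe411) b8609 (.tok (nat_lit 9) (nat_lit 0xbc0001780002fe483) (.hit (nat_lit 1) (nat_lit 20) (nat_lit 0xbc0001780002fca57) b8610 (.hit (nat_lit 6) (nat_lit 28) (nat_lit 0xbc0001780002fc62b) b8615 (.tok (nat_lit 14) (nat_lit 0xbc0001780002fdbf0) (.hit (nat_lit 2) (nat_lit 24) (nat_lit 0xbc0001780002fdbf0) b8611 (.hit (nat_lit 7) (nat_lit 30) (nat_lit 0xbc0001780002fd200) b8616 (.one (nat_lit 6) (nat_lit 3) (nat_lit 25) (nat_lit 0xbc0001780002fdaaa) b8612 (.nil)))) (.tok (nat_lit 68) (nat_lit 0xbc0001780002fe483) (.hit (nat_lit 4) (nat_lit 26) (nat_lit 0xbc0001780002fdf68) b8613 (.hit (nat_lit 8) (nat_lit 32) (nat_lit 0xbc0001780002fd0d0) b8617 (.one (nat_lit 9) (nat_lit 5) (nat_lit 27) (nat_lit 0xbc0001780002fe483) b8614 (.nil)))) (.nil)))))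 (.tok (nat_lit 64) (nat_lit 0xbc0001780002fe10e) (.hit (nat_lit 9) (nat_lit 50) (nat_lit 0xbc0001780002fe10e) b8618 (.hit (nat_lit 10) (nat_lit 51) (nat_lit 0xbc0001780002fdd46) b8619 (.nil))) (.tok (nat_lit 67) (nat_lit 0xbc0001780002feef0) (.hit (nat_lit 11) (nat_lit 52) (nat_lit 0xbc0001780002feef0) b8620 (.tok (nat_lit 3) (nat_lit 0xbc0001780002fe593) (.hit (nat_lit 17) (nat_lit 58) (nat_lit 0xbc0001780002fe593) b8626 (.one (nat_lit 55) (nat_lit 18) (nat_lit 59) (nat_lit 0xbc0001780002fe0ee) b8627 (.nil))) (.tok (nat_lit 9) (nat_lit 0xbc0001780002fec81) (.hit (nat_lit 12) (nat_lit 53) (nat_lit 0xbc0001780002fe97b) b8621 (.hit (nat_lit 15) (nat_lit 56) (nat_lit 0xbc0001780002fd8a5) b8624 (.tok (nat_lit 67) (nat_lit 0xbc0001780002fec81) (.hit (nat_lit 13) (nat_lit 54) (nat_lit 0xbc0001780002feab4) b8622 (.hit (nat_lit 16) (nat_lit 57) (nat_lit 0xbc0001780002fdea6) b8625 (.one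 (nat_lit 9) (nat_lit 14) (nat_lit 55) (nat_lit 0xbc0001780002fec81) b8623 (.nil)))) (.nil)))) (.nil)))) (.one (nat_lit 70) (nat_lit 19) (nat_lit 60) (nat_lit 0xbc0001780002fdbf7) b8628 (.nil)))))) (.tok (nat_lit 6) (nat_lit 0xbc000178000300000) (.hit (nat_lit 20) (nat_lit 0) (nat_lit 0xbc0001780002fe5ca) b8629 (.tok (nat_lit 6) (nat_lit 0xbc000178000300000) (.hit (nat_lit 21) (nat_lit 7) (nat_lit 0xbc0001780002fe116) b8630 (.hit (nat_lit 26) (nat_lit 15) (nat_lit 0xbc0001780002fd333) b8635 (.tok (nat_lit 14) (nat_lit 0xbc000178000300000) (.hit (nat_lit 22) (nat_lit 11) (nat_lit 0xbc000178000300000) b8631 (.hit (nat_lit 27) (nat_lit 17) (nat_lit 0xbc0001780002fef00) b8636 (.one (nat_lit 9) (nat_lit 23) (nat_lit 12) (nat_lit 0xbc0001780002ffdb3) b8632 (.nil)))) (.tok (nat_lit 56) (nat_lit 0xbc0001780002fee80) (.hit (nat_lit 24) (nat_lit 13) (nat_lit 0xbc0001780002fee80) b8633 (.hit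 (nat_lit 29) (nat_lit 19) (nat_lit 0xbc0001780002fe24a) b8638 (.one (nat_lit 6) (nat_lit 25) (nat_lit 14) (nat_lit 0xbc0001780002fe9d7) b8634 (.nil)))) (.one (nat_lit 68) (nat_lit 28) (nat_lit 18) (nat_lit 0xbc0001780002feafd) b8637 (.nil)))))) (.nil))) (.nil))
noncomputable def r15_111 : Rw Blk := .tok (nat_lit 6) (nat_lit 0xbc000178000300000) (.hit (nat_lit 0) (nat_lit 0) (nat_lit 0xbc0001780002ff173) b8639 (.tok (nat_lit 3) (nat_lit 0xbc0001780002fefbb) (.hit (nat_lit 1) (nat_lit 1) (nat_lit 0xbc0001780002fd927) b8640 (.one (nat_lit 14) (nat_lit 2) (nat_lit 4) (nat_lit 0xbc0001780002fefbb) b8641 (.one (nat_lit 56) (nat_lit 4) (nat_lit 6) (nat_lit 0xbc0001780002fed92) b8643 (.one (nat_lit 68) (nat_lit 3) (nat_lit 5) (nat_lit 0xbc0001780002fed23) b8642 (.nil))))) (.tok (nat_lit 40) (nat_lit 0xbc0001780002fdfbe) (.hit (nat_lit 5) (nat_lit 33) (nat_lit 0xbc0001780002fdef8) b8644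 (.hit (nat_lit 6) (nat_lit 34) (nat_lit 0xbc0001780002fdfbe) b8645 (.nil))) (.tok (nat_lit 43) (nat_lit 0xbc0001780002fef53) (.hit (nat_lit 7) (nat_lit 35) (nat_lit 0xbc0001780002fef53) b8646 (.hit (nat_lit 8) (nat_lit 36) (nat_lit 0xbc0001780002fe515) b8647 (.nil))) (.tok (nat_lit 46) (nat_lit 0xbc000178000300000) (.hit (nat_lit 9) (nat_lit 37) (nat_lit 0xbc0001780002fd94d) b8648 (.hit (nat_lit 10) (nat_lit 38) (nat_lit 0xbc000178000300000) b8649 (.nil))) (.nil)))))) (.tok (nat_lit 9) (nat_lit 0xbc0001780002ff6d9) (.hit (nat_lit 11) (nat_lit 0) (nat_lit 0xbc0001780002fdf6e) b8650 (.tok (nat_lit 3) (nat_lit 0xbc0001780002ff6d9) (.hit (nat_lit 12) (nat_lit 1) (nat_lit 0xbc0001780002fd50d) b8651 (.one (nat_lit 14) (nat_lit 13) (nat_lit 4) (nat_lit 0xbc0001780002ff6d9) b8652 (.one (nat_lit 56) (nat_lit 15) (nat_lit 6) (nat_lit 0xbc0001780002fe778) b8654 (.one (nat_lit 68) (nat_lit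 14) (nat_lit 5) (nat_lit 0xbc0001780002fe963) b8653 (.nil))))) (.nil))) (.nil))
noncomputable def r15_112 : Rw Blk := .tok (nat_lit 3) (nat_lit 0xbc0001780002fe3d7) (.hit (nat_lit 14) (nat_lit 0) (nat_lit 0xbc0001780002fe3d7) b16420 (.tok (nat_lit 6) (nat_lit 0xbc0001780002fbfa5) (.hit (nat_lit 15) (nat_lit 7) (nat_lit 0xbc0001780002fbfa5) b16421 (.hit (nat_lit 16) (nat_lit 15) (nat_lit 0xbc0001780002fb366) b16422 (.nil))) (.tok (nat_lit 9) (nat_lit 0xbc0001780002fdd62) (.hit (nat_lit 17) (nat_lit 20) (nat_lit 0xbc0001780002fdd62) b16423 (.hit (nat_lit 18) (nat_lit 28) (nat_lit 0xbc0001780002fdd53) b16424 (.nil))) (.nil)))) (.tok (nat_lit 6) (nat_lit 0xbc000178000300000) (.hit (nat_lit 0) (nat_lit 0) (nat_lit 0xbc0001780002ff2e4) b16406 (.tok (nat_lit 3) (nat_lit 0xbc000178000300000) (.hit (nat_lit 1) (nat_lit 1) (nat_lit 0xbc0001780002fe642) b16407 (.one (nat_lit 67) (nat_lit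 2) (nat_lit 2) (nat_lit 0xbc000178000300000) b16408 (.nil))) (.tok (nat_lit 6) (nat_lit 0xbc0001780002fff68) (.hit (nat_lit 3) (nat_lit 7) (nat_lit 0xbc0001780002ff5f5) b16409 (.hit (nat_lit 7) (nat_lit 15) (nat_lit 0xbc0001780002fe5a5) b16413 (.tok (nat_lit 55) (nat_lit 0xbc0001780002fff68) (.hit (nat_lit 4) (nat_lit 8) (nat_lit 0xbc0001780002fff35) b16410 (.hit (nat_lit 8) (nat_lit 16) (nat_lit 0xbc0001780002ff978) b16414 (.tok (nat_lit 6) (nat_lit 0xbc0001780002fff68) (.hit (nat_lit 5) (nat_lit 9) (nat_lit 0xbc0001780002ff734) b16411 (.one (nat_lit 55) (nat_lit 6) (nat_lit 10) (nat_lit 0xbc0001780002fff68) b16412 (.nil))) (.nil)))) (.nil)))) (.nil)))) (.tok (nat_lit 9) (nat_lit 0xbc0001780002ff73d) (.hit (nat_lit 9) (nat_lit 0) (nat_lit 0xbc0001780002fe92a) b16415 (.tok (nat_lit 3) (nat_lit 0xbc0001780002ff73d) (.hit (nat_lit 10) (nat_lit 1) (nat_lit 0xbc0001780002fdf1e) b16416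 (.one (nat_lit 55) (nat_lit 11) (nat_lit 3) (nat_lit 0xbc0001780002ff73d) b16417 (.nil))) (.tok (nat_lit 9) (nat_lit 0xbc0001780002fef3b) (.hit (nat_lit 12) (nat_lit 20) (nat_lit 0xbc0001780002fef3b) b16418 (.hit (nat_lit 13) (nat_lit 28) (nat_lit 0xbc0001780002fe315) b16419 (.nil))) (.nil)))) (.nil)))
noncomputable def r15_113 : Rw Blk := .tok (nat_lit 3) (nat_lit 0xbc0001780002fd52a) (.hit (nat_lit 0) (nat_lit 0) (nat_lit 0xbc0001780002fd52a) b16212 (.tok (nat_lit 6) (nat_lit 0xbc0001780002fd05f) (.hit (nat_lit 1) (nat_lit 7) (nat_lit 0xbc0001780002fd044) b16215 (.hit (nat_lit 2) (nat_lit 15) (nat_lit 0xbc0001780002fd05f) b16216 (.nil))) (.tok (nat_lit 9) (nat_lit 0xbc0001780002fce4b) (.hit (nat_lit 3) (nat_lit 20) (nat_lit 0xbc0001780002fce4b) b16213 (.hit (nat_lit 4) (nat_lit 28) (nat_lit 0xbc0001780002fcc28) b16214 (.nil))) (.nil)))) (.tok (nat_lit 6) (nat_lit 0xbc0001780002ff5b8)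 (.hit (nat_lit 13) (nat_lit 0) (nat_lit 0xbc0001780002fef7b) b16225 (.tok (nat_lit 3) (nat_lit 0xbc0001780002fec09) (.hit (nat_lit 14) (nat_lit 1) (nat_lit 0xbc0001780002fdf83) b16226 (.one (nat_lit 67) (nat_lit 15) (nat_lit 2) (nat_lit 0xbc0001780002fec09) b16227 (.nil))) (.tok (nat_lit 6) (nat_lit 0xbc0001780002ff5b8) (.hit (nat_lit 16) (nat_lit 7) (nat_lit 0xbc0001780002fe141) b16228 (.hit (nat_lit 19) (nat_lit 15) (nat_lit 0xbc0001780002fdd2e) b16231 (.tok (nat_lit 55) (nat_lit 0xbc0001780002ff5b8) (.hit (nat_lit 17) (nat_lit 8) (nat_lit 0xbc0001780002ff21e) b16229 (.hit (nat_lit 20) (nat_lit 16) (nat_lit 0xbc0001780002ff5b8) b16232 (.one (nat_lit 6) (nat_lit 18) (nat_lit 9) (nat_lit 0xbc0001780002feff9) b16230 (.nil)))) (.nil)))) (.nil)))) (.tok (nat_lit 9) (nat_lit 0xbc000178000300000) (.hit (nat_lit 5) (nat_lit 0) (nat_lit 0xbc0001780002fe657) b16217 (.tok (nat_lit 3)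 (nat_lit 0xbc0001780002fee25) (.hit (nat_lit 6) (nat_lit 1) (nat_lit 0xbc0001780002fd000) b16218 (.one (nat_lit 55) (nat_lit 7) (nat_lit 3) (nat_lit 0xbc0001780002fee25) b16219 (.nil))) (.tok (nat_lit 9) (nat_lit 0xbc000178000300000) (.hit (nat_lit 8) (nat_lit 20) (nat_lit 0xbc0001780002fe88d) b16220 (.hit (nat_lit 11) (nat_lit 28) (nat_lit 0xbc0001780002fd141) b16223 (.tok (nat_lit 67) (nat_lit 0xbc000178000300000) (.hit (nat_lit 9) (nat_lit 21) (nat_lit 0xbc000178000300000) b16221 (.hit (nat_lit 12) (nat_lit 29) (nat_lit 0xbc0001780002fed5e) b16224 (.one (nat_lit 9) (nat_lit 10) (nat_lit 22) (nat_lit 0xbc0001780002fe9d0) b16222 (.nil)))) (.nil)))) (.nil)))) (.nil)))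
noncomputable def r15_114 : Rw Blk := .tok (nat_lit 3) (nat_lit 0xbc0001780002fcc80) (.hit (nat_lit 0) (nat_lit 0) (nat_lit 0xbc0001780002fcc80) b29423 (.tok (nat_lit 6) (nat_lit 0xbc0001780002fbaf1) (.hit (nat_lit 1) (nat_lit 7) (nat_lit 0xbc0001780002fb9d0) b29424 (.hit (nat_lit 2) (nat_lit 15) (nat_lit 0xbc0001780002fbaf1) b29425 (.nil))) (.tok (nat_lit 9) (nat_lit 0xbc0001780002fbb2d) (.hit (nat_lit 3) (nat_lit 20) (nat_lit 0xbc0001780002fbad5) b29426 (.hit (nat_lit 4) (nat_lit 28) (nat_lit 0xbc0001780002fbb2d) b29427 (.nil))) (.nil)))) (.tok (nat_lit 6) (nat_lit 0xbc0001780002fe383) (.hit (nat_lit 5) (nat_lit 0) (nat_lit 0xbc0001780002fe383) b29428 (.one (nat_lit 3) (nat_lit 6) (nat_lit 1) (nat_lit 0xbc0001780002fa8c7) b29429 (.tok (nat_lit 6) (nat_lit 0xbc0001780002fdb67) (.hit (nat_lit 7) (nat_lit 7) (nat_lit 0xbc0001780002fbc18) b29430 (.hit (nat_lit 11) (nat_lit 15)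 (nat_lit 0xbc0001780002fb0e7) b29434 (.tok (nat_lit 55) (nat_lit 0xbc0001780002fdb67) (.hit (nat_lit 8) (nat_lit 8) (nat_lit 0xbc0001780002fcd9c) b29431 (.hit (nat_lit 12) (nat_lit 16) (nat_lit 0xbc0001780002fcb81) b29435 (.tok (nat_lit 6) (nat_lit 0xbc0001780002fdb67) (.hit (nat_lit 9) (nat_lit 9) (nat_lit 0xbc0001780002fcc57) b29432 (.one (nat_lit 55) (nat_lit 10) (nat_lit 10) (nat_lit 0xbc0001780002fdb67) b29433 (.nil))) (.nil)))) (.nil)))) (.nil)))) (.tok (nat_lit 9) (nat_lit 0xbc0001780003009c7) (.hit (nat_lit 13) (nat_lit 0) (nat_lit 0xbc0001780002fd866) b29436 (.one (nat_lit 3) (nat_lit 14) (nat_lit 1) (nat_lit 0xbc0001780002fb91c) b29437 (.tok (nat_lit 9) (nat_lit 0xbc0001780003009c7) (.hit (nat_lit 15) (nat_lit 20) (nat_lit 0xbc0001780002fdce3) b29438 (.hit (nat_lit 19) (nat_lit 28) (nat_lit 0xbc0001780002fc2e1) b29442 (.tok (nat_lit 67) (nat_lit 0xbc0001780003009c7)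 (.hit (nat_lit 16) (nat_lit 21) (nat_lit 0xbc0001780003009c7) b29439 (.hit (nat_lit 20) (nat_lit 29) (nat_lit 0xbc0001780002fdd80) b29443 (.tok (nat_lit 9) (nat_lit 0xbc0001780002ffaa3) (.hit (nat_lit 17) (nat_lit 22) (nat_lit 0xbc0001780002fea68) b29440 (.one (nat_lit 67) (nat_lit 18) (nat_lit 23) (nat_lit 0xbc0001780002ffaa3) b29441 (.nil))) (.nil)))) (.nil)))) (.nil)))) (.nil)))
noncomputable def r15_115 : Rw Blk := .tok (nat_lit 3) (nat_lit 0xbc0001780002fd981) (.hit (nat_lit 0) (nat_lit 0) (nat_lit 0xbc0001780002fd981) b16254 (.tok (nat_lit 6) (nat_lit 0xbc0001780002fcf09) (.hit (nat_lit 1) (nat_lit 7) (nat_lit 0xbc0001780002fcc73) b16257 (.hit (nat_lit 2) (nat_lit 15) (nat_lit 0xbc0001780002fcf09) b16258 (.nil))) (.tok (nat_lit 9) (nat_lit 0xbc0001780002fce52) (.hit (nat_lit 3) (nat_lit 20) (nat_lit 0xbc0001780002fcdd6) b16255 (.hit (nat_lit 4) (nat_lit 28) (nat_lit 0xbc0001780002fce52)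 b16256 (.nil))) (.nil)))) (.tok (nat_lit 6) (nat_lit 0xbc000178000300000) (.hit (nat_lit 5) (nat_lit 0) (nat_lit 0xbc0001780002febb5) b16259 (.one (nat_lit 3) (nat_lit 6) (nat_lit 1) (nat_lit 0xbc0001780002fc944) b16260 (.tok (nat_lit 6) (nat_lit 0xbc000178000300000) (.hit (nat_lit 7) (nat_lit 7) (nat_lit 0xbc0001780002fe06e) b16261 (.hit (nat_lit 11) (nat_lit 15) (nat_lit 0xbc0001780002fd170) b16265 (.tok (nat_lit 55) (nat_lit 0xbc000178000300000) (.hit (nat_lit 8) (nat_lit 8) (nat_lit 0xbc000178000300000) b16262 (.hit (nat_lit 12) (nat_lit 16) (nat_lit 0xbc0001780002ff236) b16266 (.tok (nat_lit 6) (nat_lit 0xbc0001780002ff727) (.hit (nat_lit 9) (nat_lit 9) (nat_lit 0xbc0001780002ff372) b16263 (.one (nat_lit 55) (nat_lit 10) (nat_lit 10) (nat_lit 0xbc0001780002ff727) b16264 (.nil))) (.nil)))) (.nil)))) (.nil)))) (.tok (nat_lit 9) (nat_lit 0xbc0001780002ff504) (.hit (nat_lit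 13) (nat_lit 0) (nat_lit 0xbc0001780002fe077) b16267 (.one (nat_lit 3) (nat_lit 14) (nat_lit 1) (nat_lit 0xbc0001780002fc861) b16268 (.tok (nat_lit 9) (nat_lit 0xbc0001780002ff504) (.hit (nat_lit 15) (nat_lit 20) (nat_lit 0xbc0001780002fdcea) b16269 (.hit (nat_lit 19) (nat_lit 28) (nat_lit 0xbc0001780002fd969) b16273 (.tok (nat_lit 67) (nat_lit 0xbc0001780002ff504) (.hit (nat_lit 16) (nat_lit 21) (nat_lit 0xbc0001780002fee22) b16270 (.hit (nat_lit 20) (nat_lit 29) (nat_lit 0xbc0001780002fecb7) b16274 (.tok (nat_lit 9) (nat_lit 0xbc0001780002ff504) (.hit (nat_lit 17) (nat_lit 22) (nat_lit 0xbc0001780002fe768) b16271 (.one (nat_lit 67) (nat_lit 18) (nat_lit 23) (nat_lit 0xbc0001780002ff504) b16272 (.nil))) (.nil)))) (.nil)))) (.nil)))) (.nil)))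
noncomputable def r15_116 : Rw Blk := .tok (nat_lit 3) (nat_lit 0x5f9df0bf70e17f65d2fd0bc5fca9ebfa12d7f1e8afd935) (.hit (nat_lit 14) (nat_lit 0) (nat_lit 0x5f9df0bf68e97f0f3afd0bc5fb636bfa12d7ef782fd935) b29458 (.tok (nat_lit 6) (nat_lit 0x5f6876bf278d7e756afb6ac5facfebf19157e1e22fb9a6) (.hit (nat_lit 15) (nat_lit 7) (nat_lit 0x5f6876bf278d7e756afb6ac5facfebf19157dea02fb9a6) b29459 (.hit (nat_lit 16) (nat_lit 15) (nat_lit 0x5f4114befb697e2222fa2fb5f93e6beca517e1e22fa5f5) b29460 (.nil))) (.tok (nat_lit 9) (nat_lit 0x5f9c7ebf70e17f65d2fd0b05fca9ebf81257f1e8afd3aa) (.hit (nat_lit 17) (nat_lit 20) (nat_lit 0x5f9c7ebf70e17f65d2fd0b05fca9ebf81257f1e8afd3aa) b29461 (.hit (nat_lit 18) (nat_lit 28) (nat_lit 0x5f9058bf50d57ecbc2fca9d5fc134bf68d97ef07afcd97) b29462 (.nil))) (.nil)))) (.tok (nat_lit 6) (nat_lit 0x5fd04cc00001800002fe52f600000bffee57f8a52ff0dd) (.hit (nat_lit 0) (nat_lit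 0) (nat_lit 0x5fd04cbf95597f6142fe52f5fe1aebffee57f2022ff0dd) b29444 (.tok (nat_lit 3) (nat_lit 0x5fa306bfe6317f970afd3f45feb98bf8e357f56b2fd6ee) (.hit (nat_lit 1) (nat_lit 1) (nat_lit 0x5f7c8cbf605d7ece72fc0b75fc7acbf41417e3ef2fc3b1) b29445 (.one (nat_lit 67) (nat_lit 2) (nat_lit 2) (nat_lit 0x5fa306bfe6317f970afd3f45feb98bf8e357f56b2fd6ee) b29446 (.nil))) (.tok (nat_lit 6) (nat_lit 0x5fbe56c00001800002fe19c600000bfc4d57f8a52fe496) (.hit (nat_lit 3) (nat_lit 7) (nat_lit 0x5f96dabf88657f0672fcdde5fcea8bf75dd7ea392fd0d8) b29447 (.hit (nat_lit 7) (nat_lit 15) (nat_lit 0x5f8516bf86b97ead92fc4fc5fbbcebf52557e97c2fc7f6) b29451 (.tok (nat_lit 55) (nat_lit 0x5fbe56c00001800002fe19c600000bfc4d57f8a52fe496) (.hit (nat_lit 4) (nat_lit 8) (nat_lit 0x5fb1d4bfce4d7faccafdb5b5ff236bfabd17f0f7afde55) b29448 (.hit (nat_lit 8) (nat_lit 16) (nat_lit 0x5fa8b4c00001800002fd6cb5ff8a4bf99917f8a52fd9c5)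 b29452 (.tok (nat_lit 6) (nat_lit 0x5fbe56bfd4757ff0fafe19c600000bfc4d57f4182fe496) (.hit (nat_lit 5) (nat_lit 9) (nat_lit 0x5fabd8bfa9997f4f12fd85d5fe512bf9fd97ef78afdb57) b29449 (.one (nat_lit 55) (nat_lit 6) (nat_lit 10) (nat_lit 0x5fbe56bfd4757ff0fafe19c600000bfc4d57f4182fe496) b29450 (.nil))) (.nil)))) (.nil)))) (.nil)))) (.tok (nat_lit 9) (nat_lit 0x600000bfeff97f905b00a8b5fe5c2c0000180000300c5e) (.hit (nat_lit 9) (nat_lit 0) (nat_lit 0x5fbc08bf71c97f4e3afe5ef5fc820bfb5997edc82fe8f4) b29453 (.tok (nat_lit 3) (nat_lit 0x600000bfeff97f905b00a8b5fe5c2c0000180000300c5e) (.hit (nat_lit 10) (nat_lit 1) (nat_lit 0x5fc0b0bfae217ef6aafe2955fc8b0bf8b557f3052fe982) b29454 (.one (nat_lit 55) (nat_lit 11) (nat_lit 3) (nat_lit 0x600000bfeff97f905b00a8b5fe5c2c0000180000300c5e) b29455 (.nil))) (.tok (nat_lit 9) (nat_lit 0x5fdfdebf8a017f60aaff2cd5fd66ebfb9e97f056300294) (.hit (nat_lit 12)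 (nat_lit 20) (nat_lit 0x5fdfdebf8a017f60aaff2cd5fd66ebfb9e97f056300294) b29456 (.hit (nat_lit 13) (nat_lit 28) (nat_lit 0x5faef8bf7c857ec782fdcf75fb980bf5f697e9f02fe0d1) b29457 (.nil))) (.nil)))) (.nil)))
noncomputable def r15_117 : Rw Blk := .tok (nat_lit 3) (nat_lit 0xbc0001780002ffad4) (.hit (nat_lit 0) (nat_lit 0) (nat_lit 0xbc0001780002fe743) b29463 (.tok (nat_lit 9) (nat_lit 0xbc0001780002fd8cd) (.hit (nat_lit 1) (nat_lit 20) (nat_lit 0xbc0001780002fc728) b29464 (.hit (nat_lit 4) (nat_lit 28) (nat_lit 0xbc0001780002fc002) b29467 (.tok (nat_lit 14) (nat_lit 0xbc0001780002fd8cd) (.hit (nat_lit 2) (nat_lit 24) (nat_lit 0xbc0001780002fd640) b29465 (.hit (nat_lit 5) (nat_lit 30) (nat_lit 0xbc0001780002fcdfd) b29468 (.one (nat_lit 6) (nat_lit 3) (nat_lit 25) (nat_lit 0xbc0001780002fd8cd) b29466 (.nil)))) (.one (nat_lit 56) (nat_lit 6) (nat_lit 31) (nat_lit 0xbc0001780002fd59c)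 b29469 (.nil))))) (.tok (nat_lit 64) (nat_lit 0xbc0001780002fe4b3) (.hit (nat_lit 7) (nat_lit 50) (nat_lit 0xbc0001780002fe4b3) b29470 (.hit (nat_lit 8) (nat_lit 51) (nat_lit 0xbc0001780002fe0e2) b29471 (.nil))) (.tok (nat_lit 67) (nat_lit 0xbc0001780002ffad4) (.hit (nat_lit 9) (nat_lit 52) (nat_lit 0xbc0001780002ffad4) b29472 (.tok (nat_lit 3) (nat_lit 0xbc0001780002fe628) (.hit (nat_lit 12) (nat_lit 58) (nat_lit 0xbc0001780002fe38c) b29475 (.one (nat_lit 55) (nat_lit 13) (nat_lit 59) (nat_lit 0xbc0001780002fe628) b29476 (.nil))) (.tok (nat_lit 9) (nat_lit 0xbc0001780002ff01d) (.hit (nat_lit 10) (nat_lit 53) (nat_lit 0xbc0001780002ff01d) b29473 (.hit (nat_lit 11) (nat_lit 56) (nat_lit 0xbc0001780002fe05a) b29474 (.nil))) (.nil)))) (.one (nat_lit 70) (nat_lit 14) (nat_lit 60) (nat_lit 0xbc0001780002fdd1c) b29477 (.nil)))))) (.tok (nat_lit 6) (nat_lit 0xbc0001780003031de) (.hit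 (nat_lit 15) (nat_lit 0) (nat_lit 0xbc0001780002fea14) b29478 (.tok (nat_lit 6) (nat_lit 0xbc0001780002fecbf) (.hit (nat_lit 16) (nat_lit 7) (nat_lit 0xbc0001780002fdac9) b29479 (.hit (nat_lit 21) (nat_lit 15) (nat_lit 0xbc0001780002fc89f) b29484 (.tok (nat_lit 14) (nat_lit 0xbc0001780002fecbf) (.hit (nat_lit 17) (nat_lit 11) (nat_lit 0xbc0001780002fe50b) b29480 (.hit (nat_lit 22) (nat_lit 17) (nat_lit 0xbc0001780002fe722) b29485 (.one (nat_lit 9) (nat_lit 18) (nat_lit 12) (nat_lit 0xbc0001780002fecbf) b29481 (.nil)))) (.tok (nat_lit 56) (nat_lit 0xbc0001780002fe94e) (.hit (nat_lit 19) (nat_lit 13) (nat_lit 0xbc0001780002fe942) b29482 (.hit (nat_lit 24) (nat_lit 19) (nat_lit 0xbc0001780002fe14b) b29487 (.one (nat_lit 6) (nat_lit 20) (nat_lit 14) (nat_lit 0xbc0001780002fe94e) b29483 (.nil)))) (.one (nat_lit 68) (nat_lit 23) (nat_lit 18) (nat_lit 0xbc0001780002fd943) b29486 (.nil))))))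 (.tok (nat_lit 52) (nat_lit 0xbc0001780002fec19) (.hit (nat_lit 25) (nat_lit 39) (nat_lit 0xbc0001780002fdc5c) b29488 (.hit (nat_lit 26) (nat_lit 40) (nat_lit 0xbc0001780002fec19) b29489 (.nil))) (.tok (nat_lit 55) (nat_lit 0xbc0001780003031de) (.hit (nat_lit 27) (nat_lit 41) (nat_lit 0xbc0001780002fff13) b29490 (.tok (nat_lit 3) (nat_lit 0xbc000178000300272) (.hit (nat_lit 33) (nat_lit 47) (nat_lit 0xbc0001780002ff70b) b29496 (.one (nat_lit 67) (nat_lit 34) (nat_lit 48) (nat_lit 0xbc000178000300272) b29497 (.nil))) (.tok (nat_lit 6) (nat_lit 0xbc0001780003031de) (.hit (nat_lit 28) (nat_lit 42) (nat_lit 0xbc00017800030111a) b29491 (.hit (nat_lit 31) (nat_lit 45) (nat_lit 0xbc0001780002fe93e) b29494 (.tok (nat_lit 55) (nat_lit 0xbc0001780003031de) (.hit (nat_lit 29) (nat_lit 43) (nat_lit 0xbc0001780003016d8) b29492 (.hit (nat_lit 32) (nat_lit 46) (nat_lit 0xbc00017800030062e)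 b29495 (.one (nat_lit 6) (nat_lit 30) (nat_lit 44) (nat_lit 0xbc0001780003031de) b29493 (.nil)))) (.nil)))) (.nil)))) (.one (nat_lit 58) (nat_lit 35) (nat_lit 49) (nat_lit 0xbc0001780002fe752) b29498 (.nil)))))) (.nil))
noncomputable def r15_118 : Rw Blk := .tok (nat_lit 3) (nat_lit 0x5e0000bf825d7f1b12ff5e9) (.hit (nat_lit 0) (nat_lit 0) (nat_lit 0x5e0000bf59617e97dafe49c) b29499 (.tok (nat_lit 6) (nat_lit 0x5e0000bf4ce97edae2feb10) (.hit (nat_lit 1) (nat_lit 7) (nat_lit 0x5e0000bee61d7e0d4afd15d) b29500 (.hit (nat_lit 6) (nat_lit 15) (nat_lit 0x5e0000bed4717de9f2fccf2) b29505 (.tok (nat_lit 14) (nat_lit 0x5e0000bf22bd7e868afe085) (.hit (nat_lit 2) (nat_lit 11) (nat_lit 0x5e0000bf1fe97e80e2fdfd0) b29501 (.hit (nat_lit 7) (nat_lit 17) (nat_lit 0x5e0000befe1d7e3d4afd75d) b29506 (.one (nat_lit 9) (nat_lit 3) (nat_lit 12) (nat_lit 0x5e0000bf22bd7e868afe085) b29502 (.nil)))) (.tok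 (nat_lit 56) (nat_lit 0x5e0000bf4ce97edae2feb10) (.hit (nat_lit 4) (nat_lit 13) (nat_lit 0x5e0000bf341d7ea94afe4dd) b29503 (.hit (nat_lit 8) (nat_lit 19) (nat_lit 0x5e0000beef117e1f32fd39a) b29507 (.one (nat_lit 6) (nat_lit 5) (nat_lit 14) (nat_lit 0x5e0000bf4ce97edae2feb10) b29504 (.nil)))) (.nil))))) (.tok (nat_lit 52) (nat_lit 0x5e0000bf31797ea402fe434) (.hit (nat_lit 9) (nat_lit 39) (nat_lit 0x5e0000bf31797ea402fe434) b29508 (.hit (nat_lit 10) (nat_lit 40) (nat_lit 0x5e0000bf30757ea1fafe3f3) b29509 (.nil))) (.tok (nat_lit 55) (nat_lit 0x5e0000bf825d7f1b12ff5e9) (.hit (nat_lit 11) (nat_lit 41) (nat_lit 0x5e0000bf825d7f013aff5e9) b29510 (.tok (nat_lit 3) (nat_lit 0x5e0000bf6d017f1b12ff316) (.hit (nat_lit 17) (nat_lit 47) (nat_lit 0x5e0000bf4fa17ee052febbe) b29516 (.one (nat_lit 67) (nat_lit 18) (nat_lit 48) (nat_lit 0x5e0000bf6d017f1b12ff316) b29517 (.nil))) (.tok (nat_lit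 6) (nat_lit 0x5e0000bf48697ed1e2fe9f0) (.hit (nat_lit 12) (nat_lit 42) (nat_lit 0x5e0000bf209d7e824afdffd) b29511 (.hit (nat_lit 15) (nat_lit 45) (nat_lit 0x5e0000bf2add7e96cafe28d) b29514 (.tok (nat_lit 55) (nat_lit 0x5e0000bf48697ed1e2fe9f0) (.hit (nat_lit 13) (nat_lit 43) (nat_lit 0x5e0000bf48697ed1e2fe9f0) b29512 (.hit (nat_lit 16) (nat_lit 46) (nat_lit 0x5e0000bf45d17eccb2fe94a) b29515 (.one (nat_lit 6) (nat_lit 14) (nat_lit 44) (nat_lit 0x5e0000bf3f5d7ebfcafe7ad) b29513 (.nil)))) (.nil)))) (.nil)))) (.one (nat_lit 58) (nat_lit 19) (nat_lit 49) (nat_lit 0x5e0000bf0a957e563afda7b) b29518 (.nil)))))) (.tok (nat_lit 9) (nat_lit 0x5e0000c090e5815473033f7) (.hit (nat_lit 20) (nat_lit 0) (nat_lit 0x5e0000bf6a457f02e2fe853) b29519 (.tok (nat_lit 9) (nat_lit 0x5e0000c090e5815473033f7) (.hit (nat_lit 21) (nat_lit 20) (nat_lit 0x5e0000bf651d7f481afec58) b29520 (.hit (nat_lit 26) (nat_lit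 28) (nat_lit 0x5e0000bee5897e0a62fd2e6) b29525 (.tok (nat_lit 14) (nat_lit 0x5e0000c090e5815473033f7) (.hit (nat_lit 22) (nat_lit 24) (nat_lit 0x5e0000c090e5815473033f7) b29521 (.hit (nat_lit 27) (nat_lit 30) (nat_lit 0x5e0000bf73297f2b2aff6f2) b29526 (.one (nat_lit 6) (nat_lit 23) (nat_lit 25) (nat_lit 0x5e0000c01c898074eb01b18) b29522 (.nil)))) (.one (nat_lit 56) (nat_lit 28) (nat_lit 31) (nat_lit 0x5e0000bf3b617efc0afedfc) b29527 (.tok (nat_lit 68) (nat_lit 0x5e0000bfdc6d80404300f90) (.hit (nat_lit 24) (nat_lit 26) (nat_lit 0x5e0000bfdc6d800a0300f90) b29523 (.hit (nat_lit 29) (nat_lit 32) (nat_lit 0x5e0000bf2a057eaa4afe3f5) b29528 (.one (nat_lit 9) (nat_lit 25) (nat_lit 27) (nat_lit 0x5e0000bf81bd804042ff951) b29524 (.nil)))) (.nil)))))) (.nil))) (.nil))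
noncomputable def r15_119 : Rw Blk := .tok (nat_lit 3) (nat_lit 0xbc0001780002feef0) (.hit (nat_lit 0) (nat_lit 0) (nat_lit 0xbc0001780002fe411) b8609 (.tok (nat_lit 6) (nat_lit 0xbc0001780002fe483) (.hit (nat_lit 1) (nat_lit 7) (nat_lit 0xbc0001780002fca57) b8610 (.hit (nat_lit 6) (nat_lit 15) (nat_lit 0xbc0001780002fc62b) b8615 (.tok (nat_lit 14) (nat_lit 0xbc0001780002fdbf0) (.hit (nat_lit 2) (nat_lit 11) (nat_lit 0xbc0001780002fdbf0) b8611 (.hit (nat_lit 7) (nat_lit 17) (nat_lit 0xbc0001780002fd200) b8616 (.one (nat_lit 9) (nat_lit 3) (nat_lit 12) (nat_lit 0xbc0001780002fdaaa) b8612 (.nil)))) (.tok (nat_lit 56) (nat_lit 0xbc0001780002fe483) (.hit (nat_lit 4) (nat_lit 13) (nat_lit 0xbc0001780002fdf68) b8613 (.hit (nat_lit 8) (nat_lit 19) (nat_lit 0xbc0001780002fd0d0) b8617 (.one (nat_lit 6) (nat_lit 5) (nat_lit 14) (nat_lit 0xbc0001780002fe483) b8614 (.nil)))) (.nil))))) (.tok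 (nat_lit 52) (nat_lit 0xbc0001780002fe10e) (.hit (nat_lit 9) (nat_lit 39) (nat_lit 0xbc0001780002fe10e) b8618 (.hit (nat_lit 10) (nat_lit 40) (nat_lit 0xbc0001780002fdd46) b8619 (.nil))) (.tok (nat_lit 55) (nat_lit 0xbc0001780002feef0) (.hit (nat_lit 11) (nat_lit 41) (nat_lit 0xbc0001780002feef0) b8620 (.tok (nat_lit 3) (nat_lit 0xbc0001780002fe593) (.hit (nat_lit 17) (nat_lit 47) (nat_lit 0xbc0001780002fe593) b8626 (.one (nat_lit 67) (nat_lit 18) (nat_lit 48) (nat_lit 0xbc0001780002fe0ee) b8627 (.nil))) (.tok (nat_lit 6) (nat_lit 0xbc0001780002fec81) (.hit (nat_lit 12) (nat_lit 42) (nat_lit 0xbc0001780002fe97b) b8621 (.hit (nat_lit 15) (nat_lit 45) (nat_lit 0xbc0001780002fd8a5) b8624 (.tok (nat_lit 55) (nat_lit 0xbc0001780002fec81) (.hit (nat_lit 13) (nat_lit 43) (nat_lit 0xbc0001780002feab4) b8622 (.hit (nat_lit 16) (nat_lit 46) (nat_lit 0xbc0001780002fdea6) b8625 (.one (nat_lit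 6) (nat_lit 14) (nat_lit 44) (nat_lit 0xbc0001780002fec81) b8623 (.nil)))) (.nil)))) (.nil)))) (.one (nat_lit 58) (nat_lit 19) (nat_lit 49) (nat_lit 0xbc0001780002fdbf7) b8628 (.nil)))))) (.tok (nat_lit 9) (nat_lit 0xbc000178000300000) (.hit (nat_lit 20) (nat_lit 0) (nat_lit 0xbc0001780002fe5ca) b8629 (.tok (nat_lit 9) (nat_lit 0xbc000178000300000) (.hit (nat_lit 21) (nat_lit 20) (nat_lit 0xbc0001780002fe116) b8630 (.hit (nat_lit 26) (nat_lit 28) (nat_lit 0xbc0001780002fd333) b8635 (.tok (nat_lit 14) (nat_lit 0xbc000178000300000) (.hit (nat_lit 22) (nat_lit 24) (nat_lit 0xbc000178000300000) b8631 (.hit (nat_lit 27) (nat_lit 30) (nat_lit 0xbc0001780002fef00) b8636 (.one (nat_lit 6) (nat_lit 23) (nat_lit 25) (nat_lit 0xbc0001780002ffdb3) b8632 (.nil)))) (.one (nat_lit 56) (nat_lit 28) (nat_lit 31) (nat_lit 0xbc0001780002feafd) b8637 (.tok (nat_lit 68) (nat_lit 0xbc0001780002fee80)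 (.hit (nat_lit 24) (nat_lit 26) (nat_lit 0xbc0001780002fee80) b8633 (.hit (nat_lit 29) (nat_lit 32) (nat_lit 0xbc0001780002fe24a) b8638 (.one (nat_lit 9) (nat_lit 25) (nat_lit 27) (nat_lit 0xbc0001780002fe9d7) b8634 (.nil)))) (.nil)))))) (.nil))) (.nil))
noncomputable def r15_120 : Rw Blk := .tok (nat_lit 6) (nat_lit 0xbc0001780002ff6d9) (.hit (nat_lit 11) (nat_lit 0) (nat_lit 0xbc0001780002fdf6e) b8650 (.tok (nat_lit 3) (nat_lit 0xbc0001780002ff6d9) (.hit (nat_lit 12) (nat_lit 1) (nat_lit 0xbc0001780002fd50d) b8651 (.one (nat_lit 14) (nat_lit 13) (nat_lit 4) (nat_lit 0xbc0001780002ff6d9) b8652 (.one (nat_lit 56) (nat_lit 15) (nat_lit 6) (nat_lit 0xbc0001780002fe963) b8653 (.one (nat_lit 68) (nat_lit 14) (nat_lit 5) (nat_lit 0xbc0001780002fe778) b8654 (.nil))))) (.nil))) (.tok (nat_lit 9) (nat_lit 0xbc000178000300000) (.hit (nat_lit 0) (nat_lit 0) (nat_lit 0xbc0001780002ff173)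 b8639 (.tok (nat_lit 3) (nat_lit 0xbc0001780002fefbb) (.hit (nat_lit 1) (nat_lit 1) (nat_lit 0xbc0001780002fd927) b8640 (.one (nat_lit 14) (nat_lit 2) (nat_lit 4) (nat_lit 0xbc0001780002fefbb) b8641 (.one (nat_lit 56) (nat_lit 4) (nat_lit 6) (nat_lit 0xbc0001780002fed23) b8642 (.one (nat_lit 68) (nat_lit 3) (nat_lit 5) (nat_lit 0xbc0001780002fed92) b8643 (.nil))))) (.tok (nat_lit 40) (nat_lit 0xbc0001780002fdfbe) (.hit (nat_lit 5) (nat_lit 33) (nat_lit 0xbc0001780002fdef8) b8644 (.hit (nat_lit 6) (nat_lit 34) (nat_lit 0xbc0001780002fdfbe) b8645 (.nil))) (.tok (nat_lit 43) (nat_lit 0xbc000178000300000) (.hit (nat_lit 7) (nat_lit 35) (nat_lit 0xbc0001780002fd94d) b8648 (.hit (nat_lit 8) (nat_lit 36) (nat_lit 0xbc000178000300000) b8649 (.nil))) (.tok (nat_lit 46) (nat_lit 0xbc0001780002fef53) (.hit (nat_lit 9) (nat_lit 37) (nat_lit 0xbc0001780002fef53) b8646 (.hit (nat_lit 10) (nat_lit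 38) (nat_lit 0xbc0001780002fe515) b8647 (.nil))) (.nil)))))) (.nil))
noncomputable def r15_121 : Rw Blk := .tok (nat_lit 3) (nat_lit 0xbc0001780002fe3d7) (.hit (nat_lit 14) (nat_lit 0) (nat_lit 0xbc0001780002fe3d7) b16420 (.tok (nat_lit 6) (nat_lit 0xbc0001780002fdd62) (.hit (nat_lit 15) (nat_lit 7) (nat_lit 0xbc0001780002fdd62) b16423 (.hit (nat_lit 16) (nat_lit 15) (nat_lit 0xbc0001780002fdd53) b16424 (.nil))) (.tok (nat_lit 9) (nat_lit 0xbc0001780002fbfa5) (.hit (nat_lit 17) (nat_lit 20) (nat_lit 0xbc0001780002fbfa5) b16421 (.hit (nat_lit 18) (nat_lit 28) (nat_lit 0xbc0001780002fb366) b16422 (.nil))) (.nil)))) (.tok (nat_lit 6) (nat_lit 0xbc0001780002ff73d) (.hit (nat_lit 9) (nat_lit 0) (nat_lit 0xbc0001780002fe92a) b16415 (.tok (nat_lit 3) (nat_lit 0xbc0001780002ff73d) (.hit (nat_lit 10) (nat_lit 1) (nat_lit 0xbc0001780002fdf1e) b16416 (.one (nat_lit 67) (nat_lit 11) (nat_lit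 2) (nat_lit 0xbc0001780002ff73d) b16417 (.nil))) (.tok (nat_lit 6) (nat_lit 0xbc0001780002fef3b) (.hit (nat_lit 12) (nat_lit 7) (nat_lit 0xbc0001780002fef3b) b16418 (.hit (nat_lit 13) (nat_lit 15) (nat_lit 0xbc0001780002fe315) b16419 (.nil))) (.nil)))) (.tok (nat_lit 9) (nat_lit 0xbc000178000300000) (.hit (nat_lit 0) (nat_lit 0) (nat_lit 0xbc0001780002ff2e4) b16406 (.tok (nat_lit 3) (nat_lit 0xbc000178000300000) (.hit (nat_lit 1) (nat_lit 1) (nat_lit 0xbc0001780002fe642) b16407 (.one (nat_lit 55) (nat_lit 2) (nat_lit 3) (nat_lit 0xbc000178000300000) b16408 (.nil))) (.tok (nat_lit 9) (nat_lit 0xbc0001780002fff68) (.hit (nat_lit 3) (nat_lit 20) (nat_lit 0xbc0001780002ff5f5) b16409 (.hit (nat_lit 7) (nat_lit 28) (nat_lit 0xbc0001780002fe5a5) b16413 (.tok (nat_lit 67) (nat_lit 0xbc0001780002fff68) (.hit (nat_lit 4) (nat_lit 21) (nat_lit 0xbc0001780002fff35) b16410 (.hit (nat_lit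 8) (nat_lit 29) (nat_lit 0xbc0001780002ff978) b16414 (.tok (nat_lit 9) (nat_lit 0xbc0001780002fff68) (.hit (nat_lit 5) (nat_lit 22) (nat_lit 0xbc0001780002ff734) b16411 (.one (nat_lit 67) (nat_lit 6) (nat_lit 23) (nat_lit 0xbc0001780002fff68) b16412 (.nil))) (.nil)))) (.nil)))) (.nil)))) (.nil)))
noncomputable def r15_122 : Rw Blk := .tok (nat_lit 3) (nat_lit 0x17ede4afc6905fbf80bf7a3d7edb92fe0b35fbb64bf84b97f1a6afe9aa) (.hit (nat_lit 0) (nat_lit 0) (nat_lit 0x17ede4afc6905fbf80bf7a3d7edb92fe0b35fbb64bf84b97f1a6afe9aa) b29529 (.tok (nat_lit 6) (nat_lit 0x17e74eafaf4d5fba52bf46797e72a2fb04f5f5464bef3717da842fdb0c) (.hit (nat_lit 1) (nat_lit 7) (nat_lit 0x17e74eafaf4d5fba52bf46797e72a2fb04f5f5464bef3717da842fd9e2) b29530 (.hit (nat_lit 6) (nat_lit 15) (nat_lit 0x17e6172facde5faa4abf3cbd7e5f2afade05f4f86bee9b57d94cafdb0c) b29531 (.nil))) (.tok (nat_lit 9) (nat_lit 0x17e74eafaf4d5fba52bf46797e72a2fb04f5f5464bef3717da842fdd10)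 (.hit (nat_lit 10) (nat_lit 20) (nat_lit 0x17e74eafaf4d5fba52bf46797e72a2fb04f5f5464bef3717da842fdd10) b29532 (.hit (nat_lit 15) (nat_lit 28) (nat_lit 0x17e6172facde5faa4abf3cbd7e5f2afade05f4f86bee9b57d94cafdb39) b29533 (.nil))) (.nil)))) (.tok (nat_lit 6) (nat_lit 0x180000300000600000c0000180000300b08600000c00001800003003c8) (.hit (nat_lit 81) (nat_lit 0) (nat_lit 0x17f9062fddea5fd660bfbc257f843afe8a45fcec4bfac597f6992feb05) b29534 (.tok (nat_lit 3) (nat_lit 0x17f90d2fd4745fe28abfbe017f9162ffc9d5feb76bffa397fe0b30025c) (.hit (nat_lit 82) (nat_lit 1) (nat_lit 0x17eb84afba075fb764bf50157eb592fd9125fa582bf698d7ecc62fd9c6) b29535 (.one (nat_lit 67) (nat_lit 83) (nat_lit 2) (nat_lit 0x17f90d2fd4745fe28abfbe017f9162ffc9d5feb76bffa397fe0b30025c) b29536 (.nil))) (.tok (nat_lit 6) (nat_lit 0x180000300000600000c0000180000300b08600000c00001800003003c8) (.hit (nat_lit 87) (nat_lit 7) (nat_lit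 0x17f57f2fd8445fd1d2bf87797f245afe8205fbdfcbf9a617f156afe03b) b29537 (.hit (nat_lit 95) (nat_lit 15) (nat_lit 0x17ec9fafb9a15fa7babf56997ec29afd3775fa1ecbf56e17eb48afd58f) b29541 (.tok (nat_lit 55) (nat_lit 0x180000300000600000c0000180000300b08600000c00001800003003c8) (.hit (nat_lit 88) (nat_lit 8) (nat_lit 0x17ff622fe7f45fe1debff2d17ffc530016c5fe5d6bfdacd7fb122ff912) b29538 (.hit (nat_lit 96) (nat_lit 16) (nat_lit 0x17f8ebafd6225fde6ebfc5857fa042ff2715fd5febfbec97f8392ff025) b29542 (.tok (nat_lit 6) (nat_lit 0x180000300000600000c0000180000300b08600000c00001800003003c8) (.hit (nat_lit 89) (nat_lit 9) (nat_lit 0x17fa04afefc75fe4a4bfcac57f9d92ff7845fe09cbfce397f7af2ff3a0) b29539 (.one (nat_lit 55) (nat_lit 90) (nat_lit 10) (nat_lit 0x180000300000600000c0000180000300b08600000c00001800003003c8) b29540 (.nil))) (.nil)))) (.nil)))) (.nil)))) (.tok (nat_lit 9) (nat_lit 0x180000300000600000c000017ffc4afe41a5fbf4abfacf97f408afea82)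 (.hit (nat_lit 157) (nat_lit 0) (nat_lit 0x17f9062fddea5fd660bfbc257f8dc2fe41a5fbf4abf9a697f408afea82) b29543 (.tok (nat_lit 3) (nat_lit 0x17f90d2fd4745fe28abfbdfd7f9152fc0f35f75acbf36017e2d62fe897) (.hit (nat_lit 158) (nat_lit 1) (nat_lit 0x17eb84afba075fb764bf50157eb592fa8455f4450bed3497d67f2fcea7) b29544 (.one (nat_lit 55) (nat_lit 159) (nat_lit 3) (nat_lit 0x17f90d2fd4745fe28abfbdfd7f9152fc0f35f75acbf36017e2d62fe897) b29545 (.nil))) (.tok (nat_lit 9) (nat_lit 0x180000300000600000c000017ffc4afdeb15fb128bfacf97f1b52fe710) (.hit (nat_lit 163) (nat_lit 20) (nat_lit 0x17f57f2fd8445fd1d2bf87797f2472fbb815f6ac8bf20397e01d2fc951) b29546 (.hit (nat_lit 171) (nat_lit 28) (nat_lit 0x17ec9fafb9a15fa7babf56997ec29af9fcd5f3360beb1697d2432fc5c4) b29550 (.tok (nat_lit 67) (nat_lit 0x180000300000600000c000017ffc4afdeb15fb128bfacf97f1b52fe710) (.hit (nat_lit 164) (nat_lit 21) (nat_lit 0x17ff622fe7f45fe1debff2cd7ffc4afcf715f92a8bf6ff97ea152fe40c)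 b29547 (.hit (nat_lit 172) (nat_lit 29) (nat_lit 0x17f8ebafd6225fde6ebfc56d7fa042fcdb85f8f36bf69157e938afe5b9) b29551 (.tok (nat_lit 9) (nat_lit 0x180000300000600000c000017feaaafdeb15fb128bfacf97f1b52fe710) (.hit (nat_lit 165) (nat_lit 22) (nat_lit 0x17fa04afefc75fe4a4bfcac57f9b72fd1625f968abf77bd7eb0dafdf6d) b29548 (.one (nat_lit 67) (nat_lit 166) (nat_lit 23) (nat_lit 0x180000300000600000c000017feaaafdeb15fb128bfacf97f1b52fe710) b29549 (.nil))) (.nil)))) (.nil)))) (.nil)))) (.nil)))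
noncomputable def r15_123 : Rw Blk := .tok (nat_lit 6) (nat_lit 0x5e0000bc000180000300000) (.hit (nat_lit 51) (nat_lit 0) (nat_lit 0x5e0000bc00017fba1afef01) b29562 (.tok (nat_lit 3) (nat_lit 0x5e0000bc00017fb902fef58) (.hit (nat_lit 52) (nat_lit 1) (nat_lit 0x5e0000bc00017ee65afd467) b29563 (.one (nat_lit 56) (nat_lit 55) (nat_lit 6) (nat_lit 0x5e0000bc00017fb902fef58) b29565 (.one (nat_lit 68) (nat_lit 54) (nat_lit 5) (nat_lit 0x5e0000bc00017f79f2feb9a) b29564 (.nil)))) (.tok (nat_lit 40) (nat_lit 0x5e0000bc00017faef2fef79) (.hit (nat_lit 56) (nat_lit 33) (nat_lit 0x5e0000bc00017faef2fef79) b29566 (.hit (nat_lit 57) (nat_lit 34) (nat_lit 0x5e0000bc00017f9ec2feb19) b29567 (.nil))) (.tok (nat_lit 43) (nat_lit 0x5e0000bc000180000300000) (.hit (nat_lit 58) (nat_lit 35) (nat_lit 0x5e0000bc000180000300000) b29568 (.hit (nat_lit 59) (nat_lit 36) (nat_lit 0x5e0000bc00017fb572ff661)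 b29569 (.nil))) (.tok (nat_lit 46) (nat_lit 0x5e0000bc00017fdec2ff9c5) (.hit (nat_lit 60) (nat_lit 37) (nat_lit 0x5e0000bc00017f2b7afd739) b29558 (.hit (nat_lit 61) (nat_lit 38) (nat_lit 0x5e0000bc00017fdec2ff9c5) b29570 (.nil))) (.nil)))))) (.tok (nat_lit 9) (nat_lit 0x5e0000bc0001800002ffd2b) (.hit (nat_lit 0) (nat_lit 0) (nat_lit 0x5e0000bc00017fba1aff142) b29552 (.tok (nat_lit 3) (nat_lit 0x5e0000bc00017fb902fef9d) (.hit (nat_lit 1) (nat_lit 1) (nat_lit 0x5e0000bc00017ee65afd528) b29553 (.one (nat_lit 56) (nat_lit 4) (nat_lit 6) (nat_lit 0x5e0000bc00017f79f2fdee8) b29555 (.one (nat_lit 68) (nat_lit 3) (nat_lit 5) (nat_lit 0x5e0000bc00017fb902fef9d) b29554 (.nil)))) (.tok (nat_lit 40) (nat_lit 0x5e0000bc00017faef2feee8) (.hit (nat_lit 5) (nat_lit 33) (nat_lit 0x5e0000bc00017faef2feee8) b29556 (.hit (nat_lit 6) (nat_lit 34) (nat_lit 0x5e0000bc00017f9ec2feaf9) b29557 (.nil)))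 (.tok (nat_lit 43) (nat_lit 0x5e0000bc00017fdec2ffd2b) (.hit (nat_lit 7) (nat_lit 35) (nat_lit 0x5e0000bc00017f2b7afd739) b29558 (.hit (nat_lit 8) (nat_lit 36) (nat_lit 0x5e0000bc00017fdec2ffd2b) b29559 (.nil))) (.tok (nat_lit 46) (nat_lit 0x5e0000bc0001800002ff8aa) (.hit (nat_lit 9) (nat_lit 37) (nat_lit 0x5e0000bc0001800002ff8aa) b29560 (.hit (nat_lit 10) (nat_lit 38) (nat_lit 0x5e0000bc00017fb572ff51c) b29561 (.nil))) (.nil)))))) (.nil))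
noncomputable def r15_124 : Rw Blk := .tok (nat_lit 3) (nat_lit 0x5e0000bc00017eecb2feb89) (.hit (nat_lit 61) (nat_lit 0) (nat_lit 0x5e0000bc00017e925afda5d) b29588 (.tok (nat_lit 9) (nat_lit 0x5e0000bc00017eac0afdf6d) (.hit (nat_lit 62) (nat_lit 20) (nat_lit 0x5e0000bc00017ddfcafc5e5) b29589 (.hit (nat_lit 67) (nat_lit 28) (nat_lit 0x5e0000bc00017d6ebafb7c3) b29592 (.one (nat_lit 56) (nat_lit 69) (nat_lit 31) (nat_lit 0x5e0000bc00017e02aafca41) b29593 (.tok (nat_lit 68) (nat_lit 0x5e0000bc00017eac0afdf6d) (.hit (nat_lit 65) (nat_lit 26) (nat_lit 0x5e0000bc00017e6b9afd75f) b29590 (.hit (nat_lit 70) (nat_lit 32) (nat_lit 0x5e0000bc00017df6aafc8c1) b29594 (.one (nat_lit 9) (nat_lit 66) (nat_lit 27) (nat_lit 0x5e0000bc00017eac0afdf6d) b29591 (.nil)))) (.nil))))) (.tok (nat_lit 64) (nat_lit 0x5e0000bc00017e387afd0fb) (.hit (nat_lit 71) (nat_lit 50) (nat_lit 0x5e0000bc00017dfc62fc978)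 b29595 (.hit (nat_lit 72) (nat_lit 51) (nat_lit 0x5e0000bc00017e387afd0fb) b29596 (.nil))) (.tok (nat_lit 67) (nat_lit 0x5e0000bc00017eecb2feb89) (.hit (nat_lit 73) (nat_lit 52) (nat_lit 0x5e0000bc00017eecb2feb89) b29597 (.one (nat_lit 3) (nat_lit 79) (nat_lit 58) (nat_lit 0x5e0000bc00017e9daafdda1) b29603 (.tok (nat_lit 9) (nat_lit 0x5e0000bc00017ec64afe2b5) (.hit (nat_lit 74) (nat_lit 53) (nat_lit 0x5e0000bc00017e479afd2df) b29598 (.hit (nat_lit 77) (nat_lit 56) (nat_lit 0x5e0000bc00017e6002fd5ec) b29601 (.tok (nat_lit 67) (nat_lit 0x5e0000bc00017ec64afe2b5) (.hit (nat_lit 75) (nat_lit 54) (nat_lit 0x5e0000bc00017ec04afe1f5) b29599 (.hit (nat_lit 78) (nat_lit 57) (nat_lit 0x5e0000bc00017ec64afe2b5) b29602 (.one (nat_lit 9) (nat_lit 76) (nat_lit 55) (nat_lit 0x5e0000bc00017e9e6afddb9) b29600 (.nil)))) (.nil)))) (.nil)))) (.one (nat_lit 70) (nat_lit 81) (nat_lit 60) (nat_lit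 0x5e0000bc00017e3df2fd1aa) b29604 (.nil)))))) (.tok (nat_lit 6) (nat_lit 0x5e0000bc000180000300000) (.hit (nat_lit 0) (nat_lit 0) (nat_lit 0x5e0000bc00017f5a12fdddf) b29571 (.tok (nat_lit 6) (nat_lit 0x5e0000bc0001800002ff996) (.hit (nat_lit 1) (nat_lit 7) (nat_lit 0x5e0000bc00017ec652fd756) b29572 (.hit (nat_lit 6) (nat_lit 15) (nat_lit 0x5e0000bc00017e326afc1af) b29575 (.tok (nat_lit 56) (nat_lit 0x5e0000bc0001800002ff996) (.hit (nat_lit 4) (nat_lit 13) (nat_lit 0x5e0000bc00017f7ee2fe5ca) b29573 (.hit (nat_lit 9) (nat_lit 19) (nat_lit 0x5e0000bc00017eb322fdcb2) b29577 (.one (nat_lit 6) (nat_lit 5) (nat_lit 14) (nat_lit 0x5e0000bc0001800002ff996) b29574 (.nil)))) (.one (nat_lit 68) (nat_lit 8) (nat_lit 18) (nat_lit 0x5e0000bc00017edb02fe158) b29576 (.nil))))) (.tok (nat_lit 52) (nat_lit 0x5e0000bc00017f576afec69) (.hit (nat_lit 10) (nat_lit 39) (nat_lit 0x5e0000bc00017eedd2fe05a)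 b29578 (.hit (nat_lit 11) (nat_lit 40) (nat_lit 0x5e0000bc00017f576afec69) b29579 (.nil))) (.tok (nat_lit 55) (nat_lit 0x5e0000bc00017fe62300000) (.hit (nat_lit 12) (nat_lit 41) (nat_lit 0x5e0000bc00017fc642ffd06) b29580 (.one (nat_lit 3) (nat_lit 18) (nat_lit 47) (nat_lit 0x5e0000bc00017f6682ff177) b29586 (.tok (nat_lit 6) (nat_lit 0x5e0000bc00017fe62300000) (.hit (nat_lit 13) (nat_lit 42) (nat_lit 0x5e0000bc00017f09aafe721) b29581 (.hit (nat_lit 16) (nat_lit 45) (nat_lit 0x5e0000bc00017f695aff343) b29584 (.tok (nat_lit 55) (nat_lit 0x5e0000bc00017fe62300000) (.hit (nat_lit 14) (nat_lit 43) (nat_lit 0x5e0000bc00017fb802fff60) b29582 (.hit (nat_lit 17) (nat_lit 46) (nat_lit 0x5e0000bc00017fe62300000) b29585 (.one (nat_lit 6) (nat_lit 15) (nat_lit 44) (nat_lit 0x5e0000bc00017fbd6affb9c) b29583 (.nil)))) (.nil)))) (.nil)))) (.one (nat_lit 58) (nat_lit 20) (nat_lit 49) (nat_lit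 0x5e0000bc00017f68cafed35) b29587 (.nil)))))) (.nil))
noncomputable def r15_125 : Rw Blk := .tok (nat_lit 3) (nat_lit 0x5e0000bc00017eac4afe9c1) (.hit (nat_lit 61) (nat_lit 0) (nat_lit 0x5e0000bc00017dcf0afd026) b29622 (.tok (nat_lit 9) (nat_lit 0x5e0000bc00017dd22afd103) (.hit (nat_lit 62) (nat_lit 20) (nat_lit 0x5e0000bc00017cf792fb5b0) b29623 (.hit (nat_lit 67) (nat_lit 28) (nat_lit 0x5e0000bc00017d130afb91f) b29626 (.one (nat_lit 56) (nat_lit 69) (nat_lit 31) (nat_lit 0x5e0000bc00017dc4bafcf55) b29627 (.tok (nat_lit 68) (nat_lit 0x5e0000bc00017dd22afd103) (.hit (nat_lit 65) (nat_lit 26) (nat_lit 0x5e0000bc00017db622fcd82) b29624 (.hit (nat_lit 70) (nat_lit 32) (nat_lit 0x5e0000bc00017d9492fc950) b29628 (.one (nat_lit 9) (nat_lit 66) (nat_lit 27) (nat_lit 0x5e0000bc00017dd22afd103) b29625 (.nil)))) (.nil))))) (.tok (nat_lit 64) (nat_lit 0x5e0000bc00017de582fd36e) (.hit (nat_lit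 71) (nat_lit 50) (nat_lit 0x5e0000bc00017dabd2fcc38) b29629 (.hit (nat_lit 72) (nat_lit 51) (nat_lit 0x5e0000bc00017de582fd36e) b29630 (.nil))) (.tok (nat_lit 67) (nat_lit 0x5e0000bc00017eac4afe9c1) (.hit (nat_lit 73) (nat_lit 52) (nat_lit 0x5e0000bc00017e6262fe382) b29631 (.one (nat_lit 3) (nat_lit 79) (nat_lit 58) (nat_lit 0x5e0000bc00017e270afdb9f) b29637 (.tok (nat_lit 9) (nat_lit 0x5e0000bc00017eac4afe9c1) (.hit (nat_lit 74) (nat_lit 53) (nat_lit 0x5e0000bc00017e71dafe4ad) b29632 (.hit (nat_lit 77) (nat_lit 56) (nat_lit 0x5e0000bc00017ddce2fd25a) b29635 (.tok (nat_lit 67) (nat_lit 0x5e0000bc00017eac4afe9c1) (.hit (nat_lit 75) (nat_lit 54) (nat_lit 0x5e0000bc00017eac4afe9c1) b29633 (.hit (nat_lit 78) (nat_lit 57) (nat_lit 0x5e0000bc00017e670afe39f) b29636 (.one (nat_lit 9) (nat_lit 76) (nat_lit 55) (nat_lit 0x5e0000bc00017e6f8afe4af) b29634 (.nil)))) (.nil)))) (.nil)))) (.one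 (nat_lit 70) (nat_lit 81) (nat_lit 60) (nat_lit 0x5e0000bc00017de202fd2fe) b29638 (.nil)))))) (.tok (nat_lit 6) (nat_lit 0x5e0000bc0001800003009cb) (.hit (nat_lit 0) (nat_lit 0) (nat_lit 0x5e0000bc00017e3cc2fd3e3) b29605 (.tok (nat_lit 6) (nat_lit 0x5e0000bc00017e5fb2fd9c9) (.hit (nat_lit 1) (nat_lit 7) (nat_lit 0x5e0000bc00017dde12fcb93) b29606 (.hit (nat_lit 6) (nat_lit 15) (nat_lit 0x5e0000bc00017d734afbeae) b29609 (.tok (nat_lit 56) (nat_lit 0x5e0000bc00017e5fb2fd9c9) (.hit (nat_lit 4) (nat_lit 13) (nat_lit 0x5e0000bc00017e590afd889) b29607 (.hit (nat_lit 9) (nat_lit 19) (nat_lit 0x5e0000bc00017e57bafcc32) b29611 (.one (nat_lit 6) (nat_lit 5) (nat_lit 14) (nat_lit 0x5e0000bc00017e5fb2fd9c9) b29608 (.nil)))) (.one (nat_lit 68) (nat_lit 8) (nat_lit 18) (nat_lit 0x5e0000bc00017e5a9afd006) b29610 (.nil))))) (.tok (nat_lit 52) (nat_lit 0x5e0000bc00017e8cb2fd911) (.hit (nat_lit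 10) (nat_lit 39) (nat_lit 0x5e0000bc00017e0c1afd911) b29612 (.hit (nat_lit 11) (nat_lit 40) (nat_lit 0x5e0000bc00017e8cb2fd7c9) b29613 (.nil))) (.tok (nat_lit 55) (nat_lit 0x5e0000bc0001800003009cb) (.hit (nat_lit 12) (nat_lit 41) (nat_lit 0x5e0000bc00017eb8c2ff8c7) b29614 (.one (nat_lit 3) (nat_lit 18) (nat_lit 47) (nat_lit 0x5e0000bc00017e4b52fe590) b29620 (.tok (nat_lit 6) (nat_lit 0x5e0000bc0001800003009cb) (.hit (nat_lit 13) (nat_lit 42) (nat_lit 0x5e0000bc00017ee3d2fe1ac) b29615 (.hit (nat_lit 16) (nat_lit 45) (nat_lit 0x5e0000bc00017ec3dafe1c7) b29618 (.tok (nat_lit 55) (nat_lit 0x5e0000bc0001800003009cb) (.hit (nat_lit 14) (nat_lit 43) (nat_lit 0x5e0000bc00017fc793009cb) b29616 (.hit (nat_lit 17) (nat_lit 46) (nat_lit 0x5e0000bc00017ea48afed8e) b29619 (.one (nat_lit 6) (nat_lit 15) (nat_lit 44) (nat_lit 0x5e0000bc0001800003006bf) b29617 (.nil)))) (.nil)))) (.nil)))) (.one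 (nat_lit 58) (nat_lit 20) (nat_lit 49) (nat_lit 0x5e0000bc00017e7f22fe0da) b29621 (.nil)))))) (.nil))
noncomputable def r15_126 : Rw Blk := .tok (nat_lit 3) (nat_lit 0xbc0001780002fdd96) (.hit (nat_lit 61) (nat_lit 0) (nat_lit 0xbc0001780002fd24b) b8970 (.tok (nat_lit 6) (nat_lit 0xbc0001780002fd581) (.hit (nat_lit 62) (nat_lit 7) (nat_lit 0xbc0001780002fbbf9) b8971 (.hit (nat_lit 67) (nat_lit 15) (nat_lit 0xbc0001780002fadd7) b8974 (.tok (nat_lit 56) (nat_lit 0xbc0001780002fd581) (.hit (nat_lit 65) (nat_lit 13) (nat_lit 0xbc0001780002fcd73) b8972 (.hit (nat_lit 70) (nat_lit 19) (nat_lit 0xbc0001780002fbed5) b8976 (.one (nat_lit 6) (nat_lit 66) (nat_lit 14) (nat_lit 0xbc0001780002fd581) b8973 (.nil)))) (.one (nat_lit 68) (nat_lit 69) (nat_lit 18) (nat_lit 0xbc0001780002fc055) b8975 (.nil))))) (.tok (nat_lit 52) (nat_lit 0xbc0001780002fc70f) (.hit (nat_lit 71) (nat_lit 39) (nat_lit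 0xbc0001780002fbf8c) b8977 (.hit (nat_lit 72) (nat_lit 40) (nat_lit 0xbc0001780002fc70f) b8978 (.nil))) (.tok (nat_lit 55) (nat_lit 0xbc0001780002fdd96) (.hit (nat_lit 73) (nat_lit 41) (nat_lit 0xbc0001780002fdd96) b8979 (.one (nat_lit 3) (nat_lit 79) (nat_lit 47) (nat_lit 0xbc0001780002fd3b5) b8985 (.tok (nat_lit 6) (nat_lit 0xbc0001780002fd8c9) (.hit (nat_lit 74) (nat_lit 42) (nat_lit 0xbc0001780002fc8f3) b8980 (.hit (nat_lit 77) (nat_lit 45) (nat_lit 0xbc0001780002fcc00) b8983 (.tok (nat_lit 55) (nat_lit 0xbc0001780002fd8c9) (.hit (nat_lit 75) (nat_lit 43) (nat_lit 0xbc0001780002fd809) b8981 (.hit (nat_lit 78) (nat_lit 46) (nat_lit 0xbc0001780002fd8c9) b8984 (.one (nat_lit 6) (nat_lit 76) (nat_lit 44) (nat_lit 0xbc0001780002fd3cd) b8982 (.nil)))) (.nil)))) (.nil)))) (.one (nat_lit 58) (nat_lit 81) (nat_lit 49) (nat_lit 0xbc0001780002fc7be) b8986 (.nil)))))) (.tok (nat_lit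 9) (nat_lit 0xbc000178000300000) (.hit (nat_lit 0) (nat_lit 0) (nat_lit 0xbc0001780002feb42) b8953 (.tok (nat_lit 9) (nat_lit 0xbc000178000300000) (.hit (nat_lit 1) (nat_lit 20) (nat_lit 0xbc0001780002fd8ca) b8954 (.hit (nat_lit 6) (nat_lit 28) (nat_lit 0xbc0001780002fc64d) b8957 (.one (nat_lit 56) (nat_lit 8) (nat_lit 31) (nat_lit 0xbc0001780002fdb60) b8958 (.tok (nat_lit 68) (nat_lit 0xbc000178000300000) (.hit (nat_lit 4) (nat_lit 26) (nat_lit 0xbc0001780002fefdc) b8955 (.hit (nat_lit 9) (nat_lit 32) (nat_lit 0xbc0001780002fd664) b8959 (.one (nat_lit 9) (nat_lit 5) (nat_lit 27) (nat_lit 0xbc000178000300000) b8956 (.nil)))) (.nil))))) (.tok (nat_lit 64) (nat_lit 0xbc0001780002feaed) (.hit (nat_lit 10) (nat_lit 50) (nat_lit 0xbc0001780002fddba) b8960 (.hit (nat_lit 11) (nat_lit 51) (nat_lit 0xbc0001780002feaed) b8961 (.nil))) (.tok (nat_lit 67) (nat_lit 0xbc0001780002ffcc4) (.hit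 (nat_lit 12) (nat_lit 52) (nat_lit 0xbc0001780002ff8c8) b8962 (.one (nat_lit 3) (nat_lit 18) (nat_lit 58) (nat_lit 0xbc0001780002fecd0) b8968 (.tok (nat_lit 9) (nat_lit 0xbc0001780002ffcc4) (.hit (nat_lit 13) (nat_lit 53) (nat_lit 0xbc0001780002fe135) b8963 (.hit (nat_lit 16) (nat_lit 56) (nat_lit 0xbc0001780002fed2b) b8966 (.tok (nat_lit 67) (nat_lit 0xbc0001780002ffcc4) (.hit (nat_lit 14) (nat_lit 54) (nat_lit 0xbc0001780002ff700) b8964 (.hit (nat_lit 17) (nat_lit 57) (nat_lit 0xbc0001780002ffcc4) b8967 (.one (nat_lit 9) (nat_lit 15) (nat_lit 55) (nat_lit 0xbc0001780002ff7ad) b8965 (.nil)))) (.nil)))) (.nil)))) (.one (nat_lit 70) (nat_lit 20) (nat_lit 60) (nat_lit 0xbc0001780002fed19) b8969 (.nil)))))) (.nil))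
noncomputable def r15_127 : Rw Blk := .tok (nat_lit 3) (nat_lit 0x5e0000bc00017eac4afe880) (.hit (nat_lit 61) (nat_lit 0) (nat_lit 0x5e0000bc00017dcf0afce40) b29656 (.tok (nat_lit 6) (nat_lit 0x5e0000bc00017dd22afcfc2) (.hit (nat_lit 62) (nat_lit 7) (nat_lit 0x5e0000bc00017cf792fb46f) b29657 (.hit (nat_lit 67) (nat_lit 15) (nat_lit 0x5e0000bc00017d130afb7de) b29660 (.tok (nat_lit 56) (nat_lit 0x5e0000bc00017dd22afcfc2) (.hit (nat_lit 65) (nat_lit 13) (nat_lit 0x5e0000bc00017db622fcc41) b29658 (.hit (nat_lit 70) (nat_lit 19) (nat_lit 0x5e0000bc00017d9492fc80f) b29662 (.one (nat_lit 6) (nat_lit 66) (nat_lit 14) (nat_lit 0x5e0000bc00017dd22afcfc2) b29659 (.nil)))) (.one (nat_lit 68) (nat_lit 69) (nat_lit 18) (nat_lit 0x5e0000bc00017dc4bafce14) b29661 (.nil))))) (.tok (nat_lit 52) (nat_lit 0x5e0000bc00017de582fd22d) (.hit (nat_lit 71) (nat_lit 39) (nat_lit 0x5e0000bc00017dabd2fcaf7)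 b29663 (.hit (nat_lit 72) (nat_lit 40) (nat_lit 0x5e0000bc00017de582fd22d) b29664 (.nil))) (.tok (nat_lit 55) (nat_lit 0x5e0000bc00017eac4afe880) (.hit (nat_lit 73) (nat_lit 41) (nat_lit 0x5e0000bc00017e6262fe0f1) b29665 (.one (nat_lit 3) (nat_lit 79) (nat_lit 47) (nat_lit 0x5e0000bc00017e270afda5e) b29671 (.tok (nat_lit 6) (nat_lit 0x5e0000bc00017eac4afe880) (.hit (nat_lit 74) (nat_lit 42) (nat_lit 0x5e0000bc00017e71dafdd67) b29666 (.hit (nat_lit 77) (nat_lit 45) (nat_lit 0x5e0000bc00017ddce2fd119) b29669 (.tok (nat_lit 55) (nat_lit 0x5e0000bc00017eac4afe880) (.hit (nat_lit 75) (nat_lit 43) (nat_lit 0x5e0000bc00017eac4afe880) b29667 (.hit (nat_lit 78) (nat_lit 46) (nat_lit 0x5e0000bc00017e670afe25e) b29670 (.one (nat_lit 6) (nat_lit 76) (nat_lit 44) (nat_lit 0x5e0000bc00017e6f8afe36e) b29668 (.nil)))) (.nil)))) (.nil)))) (.one (nat_lit 58) (nat_lit 81) (nat_lit 49) (nat_lit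 0x5e0000bc00017de202fd1bd) b29672 (.nil)))))) (.tok (nat_lit 9) (nat_lit 0x5e0000bc00018000030022d) (.hit (nat_lit 0) (nat_lit 0) (nat_lit 0x5e0000bc00017e3cc2fd1f8) b29639 (.tok (nat_lit 9) (nat_lit 0x5e0000bc00017e5fb2fdc27) (.hit (nat_lit 1) (nat_lit 20) (nat_lit 0x5e0000bc00017dde12fc9ad) b29640 (.hit (nat_lit 6) (nat_lit 28) (nat_lit 0x5e0000bc00017d734afbcc8) b29643 (.one (nat_lit 56) (nat_lit 8) (nat_lit 31) (nat_lit 0x5e0000bc00017e5a9afcec5) b29644 (.tok (nat_lit 68) (nat_lit 0x5e0000bc00017e5fb2fdc27) (.hit (nat_lit 4) (nat_lit 26) (nat_lit 0x5e0000bc00017e590afd88c) b29641 (.hit (nat_lit 9) (nat_lit 32) (nat_lit 0x5e0000bc00017e57bafca4c) b29645 (.one (nat_lit 9) (nat_lit 5) (nat_lit 27) (nat_lit 0x5e0000bc00017e5fb2fdc27) b29642 (.nil)))) (.nil))))) (.tok (nat_lit 64) (nat_lit 0x5e0000bc00017e8cb2fd72b) (.hit (nat_lit 10) (nat_lit 50) (nat_lit 0x5e0000bc00017e0c1afd72b)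 b29646 (.hit (nat_lit 11) (nat_lit 51) (nat_lit 0x5e0000bc00017e8cb2fd60a) b29647 (.nil))) (.tok (nat_lit 67) (nat_lit 0x5e0000bc00018000030022d) (.hit (nat_lit 12) (nat_lit 52) (nat_lit 0x5e0000bc00017eb8c2ff441) b29648 (.one (nat_lit 3) (nat_lit 18) (nat_lit 58) (nat_lit 0x5e0000bc00017e4b52fe227) b29654 (.tok (nat_lit 9) (nat_lit 0x5e0000bc00018000030022d) (.hit (nat_lit 13) (nat_lit 53) (nat_lit 0x5e0000bc00017ee3d2fded5) b29649 (.hit (nat_lit 16) (nat_lit 56) (nat_lit 0x5e0000bc00017ec3dafdf9f) b29652 (.tok (nat_lit 67) (nat_lit 0x5e0000bc00018000030022d) (.hit (nat_lit 14) (nat_lit 54) (nat_lit 0x5e0000bc00017fc792ffa24) b29650 (.hit (nat_lit 17) (nat_lit 57) (nat_lit 0x5e0000bc00017ea48afea9c) b29653 (.one (nat_lit 9) (nat_lit 15) (nat_lit 55) (nat_lit 0x5e0000bc00018000030022d) b29651 (.nil)))) (.nil)))) (.nil)))) (.one (nat_lit 70) (nat_lit 20) (nat_lit 60) (nat_lit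 0x5e0000bc00017e7f22fdef4) b29655 (.nil)))))) (.nil))
noncomputable def r15_128 : Rw Blk := .tok (nat_lit 3) (nat_lit 0x2fdbc95f8d20bf7f017ef4aafdb525fbf2abfa3d57f2372feee2) (.hit (nat_lit 0) (nat_lit 0) (nat_lit 0x2fdbc95f8d20bf7f017ef4aafdb525fbf2abfa3d57f2372feee2) b29673 (.tok (nat_lit 6) (nat_lit 0x2fce9d5f5e9abf74a57e8cf2fce245f64a2bf21117dd262fe23d) (.hit (nat_lit 1) (nat_lit 7) (nat_lit 0x2fce9d5f5e9abf74a57e8cf2fce245f64a2bf21117dd262fe23d) b29674 (.hit (nat_lit 6) (nat_lit 15) (nat_lit 0x2fcc2e5f59bcbf54957e797afcbb55f5fc4bf17557dbeeafe07a) b29675 (.nil))) (.tok (nat_lit 9) (nat_lit 0x2fce9d5f5e9abf74a57e8cf2fce245f64a2bf21117dd262fe233) (.hit (nat_lit 10) (nat_lit 20) (nat_lit 0x2fce9d5f5e9abf74a57e8cf2fce245f64a2bf21117dd262fe233) b29676 (.hit (nat_lit 15) (nat_lit 28) (nat_lit 0x2fcc2e5f59bcbf54957e797afcbb55f5fc4bf17557dbeeafe056) b29677 (.nil))) (.nil)))) (.tok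 (nat_lit 6) (nat_lit 0x300000600000c00001800003000005fcab4bfda997f519aff705) (.hit (nat_lit 81) (nat_lit 0) (nat_lit 0x2ff20c5fbbd4bfacc17f787aff7df5fcab4bfcb9d7f519aff03d) b29678 (.tok (nat_lit 3) (nat_lit 0x2ff21a5fa8e8bfc5157f7c2aff20a5f85eabf63a17e5782fee14) (.hit (nat_lit 82) (nat_lit 1) (nat_lit 0x2fd7095f740ebf6ec97ea05afd6905f548ebf00e97d9212fd3df) b29679 (.one (nat_lit 67) (nat_lit 83) (nat_lit 2) (nat_lit 0x2ff21a5fa8e8bfc5157f7c2aff20a5f85eabf63a17e5782fee14) b29680 (.nil))) (.tok (nat_lit 6) (nat_lit 0x300000600000c00001800003000005fc166bfda997f4572ff705) (.hit (nat_lit 87) (nat_lit 7) (nat_lit 0x2feafe5fb088bfa3a57f0f22fe4af5f7b06bf4dd97e2bf2fcdd9) b29681 (.hit (nat_lit 95) (nat_lit 15) (nat_lit 0x2fd93f5f7342bf4f757ead62fd8315f439ebedf097d4e52fcafc) b29685 (.tok (nat_lit 55) (nat_lit 0x300000600000c00001800003000005fc166bfda997f4572ff705) (.hit (nat_lit 88) (nat_lit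 8) (nat_lit 0x2ffec45fcfe8bfc3bd7fe5d2fff685fa2e6bf9d997ecb72fe9b9) b29682 (.hit (nat_lit 96) (nat_lit 16) (nat_lit 0x2ff1d75fac44bfbcdd7f8b0aff3e65f9f74bf96b57ebdaafeb0c) b29686 (.tok (nat_lit 6) (nat_lit 0x300000600000c00001800003000005fc166bfda997f4572ff705) (.hit (nat_lit 89) (nat_lit 9) (nat_lit 0x2ff4095fdf8ebfc9497f958aff3915fa6c8bfa55d7edafafeca7) b29683 (.one (nat_lit 55) (nat_lit 90) (nat_lit 10) (nat_lit 0x300000600000c00001800003000005fc166bfda997f4572ff705) b29684 (.nil))) (.nil)))) (.nil)))) (.nil)))) (.tok (nat_lit 9) (nat_lit 0x300000600000c00001800002fff3d600000c03bc580000300d19) (.hit (nat_lit 157) (nat_lit 0) (nat_lit 0x2ff20c5fbbd4bfacc17f787aff0655fd046bfc9897f67cafef68) b29687 (.tok (nat_lit 3) (nat_lit 0x2ff21a5fa8e8bfc5157f7c32ff20a5fdccebffbed7fbdaaffe3f) (.hit (nat_lit 158) (nat_lit 1) (nat_lit 0x2fd7095f740ebf6ec97ea05afd6905fa948bf8b0d7edb22fdf14)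 b29688 (.one (nat_lit 55) (nat_lit 159) (nat_lit 3) (nat_lit 0x2ff21a5fa8e8bfc5157f7c32ff20a5fdccebffbed7fbdaaffe3f) b29689 (.nil))) (.tok (nat_lit 9) (nat_lit 0x300000600000c00001800002fff3d600000c03bc580000300d19) (.hit (nat_lit 163) (nat_lit 20) (nat_lit 0x2feafe5fb088bfa3a57f0f22fe4695fc1bcbfb9a57f1e72fe38f) b29690 (.hit (nat_lit 171) (nat_lit 28) (nat_lit 0x2fd93f5f7342bf4f757ead62fd8315fa5b2bf76017ebd92fdac7) b29694 (.tok (nat_lit 67) (nat_lit 0x300000600000c00001800002fff3d600000c03bc580000300d19) (.hit (nat_lit 164) (nat_lit 21) (nat_lit 0x2ffec45fcfe8bfc3bd7fe5cafff1c5fe380bfea457fa102ffa10) b29691 (.hit (nat_lit 172) (nat_lit 29) (nat_lit 0x2ff1d75fac44bfbcdd7f8b3aff3e65fdae8bfda257f8c02ff4af) b29695 (.tok (nat_lit 9) (nat_lit 0x300000600000c00001800002fff3d600000c03bc580000300d19) (.hit (nat_lit 165) (nat_lit 22) (nat_lit 0x2ff4095fdf8ebfc9497f958aff3905fe034bff5457fa452ffd36)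 b29692 (.one (nat_lit 67) (nat_lit 166) (nat_lit 23) (nat_lit 0x300000600000c00001800002fff3d600000c03bc580000300d19) b29693 (.nil))) (.nil)))) (.nil)))) (.nil)))) (.nil)))
noncomputable def r15_129 : Rw Blk := .tok (nat_lit 6) (nat_lit 0x5e0000bc000180000300000) (.hit (nat_lit 51) (nat_lit 0) (nat_lit 0x5e0000bc00017fba1afefac) b29706 (.tok (nat_lit 3) (nat_lit 0x5e0000bc00017fb902fe9f8) (.hit (nat_lit 52) (nat_lit 1) (nat_lit 0x5e0000bc00017ee65afd399) b29697 (.one (nat_lit 56) (nat_lit 55) (nat_lit 6) (nat_lit 0x5e0000bc00017fb902fe670) b29708 (.one (nat_lit 68) (nat_lit 54) (nat_lit 5) (nat_lit 0x5e0000bc00017f79f2fe9f8) b29707 (.nil)))) (.tok (nat_lit 40) (nat_lit 0x5e0000bc00017faef2fedf1) (.hit (nat_lit 56) (nat_lit 33) (nat_lit 0x5e0000bc00017faef2fedf1) b29709 (.hit (nat_lit 57) (nat_lit 34) (nat_lit 0x5e0000bc00017f9ec2fe9fb) b29710 (.nil))) (.tok (nat_lit 43) (nat_lit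 0x5e0000bc000180000300000) (.hit (nat_lit 58) (nat_lit 35) (nat_lit 0x5e0000bc000180000300000) b29711 (.hit (nat_lit 59) (nat_lit 36) (nat_lit 0x5e0000bc00017fb572ff4bf) b29712 (.nil))) (.tok (nat_lit 46) (nat_lit 0x5e0000bc00017fdec2ff342) (.hit (nat_lit 60) (nat_lit 37) (nat_lit 0x5e0000bc00017f2b7afd594) b29702 (.hit (nat_lit 61) (nat_lit 38) (nat_lit 0x5e0000bc00017fdec2ff342) b29713 (.nil))) (.nil)))))) (.tok (nat_lit 9) (nat_lit 0x5e0000bc0001800002ffb89) (.hit (nat_lit 0) (nat_lit 0) (nat_lit 0x5e0000bc00017fba1afeaaa) b29696 (.tok (nat_lit 3) (nat_lit 0x5e0000bc00017fb902fedfb) (.hit (nat_lit 1) (nat_lit 1) (nat_lit 0x5e0000bc00017ee65afd399) b29697 (.one (nat_lit 56) (nat_lit 4) (nat_lit 6) (nat_lit 0x5e0000bc00017f79f2fe9df) b29699 (.one (nat_lit 68) (nat_lit 3) (nat_lit 5) (nat_lit 0x5e0000bc00017fb902fedfb) b29698 (.nil)))) (.tok (nat_lit 40) (nat_lit 0x5e0000bc00017faef2fedaf)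 (.hit (nat_lit 5) (nat_lit 33) (nat_lit 0x5e0000bc00017faef2fedaf) b29700 (.hit (nat_lit 6) (nat_lit 34) (nat_lit 0x5e0000bc00017f9ec2fe8fc) b29701 (.nil))) (.tok (nat_lit 43) (nat_lit 0x5e0000bc00017fdec2ffb89) (.hit (nat_lit 7) (nat_lit 35) (nat_lit 0x5e0000bc00017f2b7afd594) b29702 (.hit (nat_lit 8) (nat_lit 36) (nat_lit 0x5e0000bc00017fdec2ffb89) b29703 (.nil))) (.tok (nat_lit 46) (nat_lit 0x5e0000bc0001800002ff718) (.hit (nat_lit 9) (nat_lit 37) (nat_lit 0x5e0000bc0001800002ff718) b29704 (.hit (nat_lit 10) (nat_lit 38) (nat_lit 0x5e0000bc00017fb572ff35c) b29705 (.nil))) (.nil)))))) (.nil))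
noncomputable def r15_130 : Rw Blk := .tok (nat_lit 3) (nat_lit 0xbc0001780002fdd96) (.hit (nat_lit 61) (nat_lit 0) (nat_lit 0xbc0001780002fd24b) b8970 (.tok (nat_lit 9) (nat_lit 0xbc0001780002fd581) (.hit (nat_lit 62) (nat_lit 20) (nat_lit 0xbc0001780002fbbf9) b8971 (.hit (nat_lit 67) (nat_lit 28) (nat_lit 0xbc0001780002fadd7) b8974 (.one (nat_lit 56) (nat_lit 69) (nat_lit 31) (nat_lit 0xbc0001780002fc055) b8975 (.tok (nat_lit 68) (nat_lit 0xbc0001780002fd581) (.hit (nat_lit 65) (nat_lit 26) (nat_lit 0xbc0001780002fcd73) b8972 (.hit (nat_lit 70) (nat_lit 32) (nat_lit 0xbc0001780002fbed5) b8976 (.one (nat_lit 9) (nat_lit 66) (nat_lit 27) (nat_lit 0xbc0001780002fd581) b8973 (.nil)))) (.nil))))) (.tok (nat_lit 64) (nat_lit 0xbc0001780002fc70f) (.hit (nat_lit 71) (nat_lit 50) (nat_lit 0xbc0001780002fbf8c) b8977 (.hit (nat_lit 72) (nat_lit 51) (nat_lit 0xbc0001780002fc70f) b8978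 (.nil))) (.tok (nat_lit 67) (nat_lit 0xbc0001780002fdd96) (.hit (nat_lit 73) (nat_lit 52) (nat_lit 0xbc0001780002fdd96) b8979 (.one (nat_lit 3) (nat_lit 79) (nat_lit 58) (nat_lit 0xbc0001780002fd3b5) b8985 (.tok (nat_lit 9) (nat_lit 0xbc0001780002fd8c9) (.hit (nat_lit 74) (nat_lit 53) (nat_lit 0xbc0001780002fc8f3) b8980 (.hit (nat_lit 77) (nat_lit 56) (nat_lit 0xbc0001780002fcc00) b8983 (.tok (nat_lit 67) (nat_lit 0xbc0001780002fd8c9) (.hit (nat_lit 75) (nat_lit 54) (nat_lit 0xbc0001780002fd809) b8981 (.hit (nat_lit 78) (nat_lit 57) (nat_lit 0xbc0001780002fd8c9) b8984 (.one (nat_lit 9) (nat_lit 76) (nat_lit 55) (nat_lit 0xbc0001780002fd3cd) b8982 (.nil)))) (.nil)))) (.nil)))) (.one (nat_lit 70) (nat_lit 81) (nat_lit 60) (nat_lit 0xbc0001780002fc7be) b8986 (.nil)))))) (.tok (nat_lit 6) (nat_lit 0xbc000178000300000) (.hit (nat_lit 0) (nat_lit 0) (nat_lit 0xbc0001780002feb42) b8953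 (.tok (nat_lit 6) (nat_lit 0xbc000178000300000) (.hit (nat_lit 1) (nat_lit 7) (nat_lit 0xbc0001780002fd8ca) b8954 (.hit (nat_lit 6) (nat_lit 15) (nat_lit 0xbc0001780002fc64d) b8957 (.tok (nat_lit 56) (nat_lit 0xbc000178000300000) (.hit (nat_lit 4) (nat_lit 13) (nat_lit 0xbc0001780002fefdc) b8955 (.hit (nat_lit 9) (nat_lit 19) (nat_lit 0xbc0001780002fd664) b8959 (.one (nat_lit 6) (nat_lit 5) (nat_lit 14) (nat_lit 0xbc000178000300000) b8956 (.nil)))) (.one (nat_lit 68) (nat_lit 8) (nat_lit 18) (nat_lit 0xbc0001780002fdb60) b8958 (.nil))))) (.tok (nat_lit 52) (nat_lit 0xbc0001780002feaed) (.hit (nat_lit 10) (nat_lit 39) (nat_lit 0xbc0001780002fddba) b8960 (.hit (nat_lit 11) (nat_lit 40) (nat_lit 0xbc0001780002feaed) b8961 (.nil))) (.tok (nat_lit 55) (nat_lit 0xbc0001780002ffcc4) (.hit (nat_lit 12) (nat_lit 41) (nat_lit 0xbc0001780002ff8c8) b8962 (.one (nat_lit 3) (nat_lit 18) (nat_lit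 47) (nat_lit 0xbc0001780002fecd0) b8968 (.tok (nat_lit 6) (nat_lit 0xbc0001780002ffcc4) (.hit (nat_lit 13) (nat_lit 42) (nat_lit 0xbc0001780002fe135) b8963 (.hit (nat_lit 16) (nat_lit 45) (nat_lit 0xbc0001780002fed2b) b8966 (.tok (nat_lit 55) (nat_lit 0xbc0001780002ffcc4) (.hit (nat_lit 14) (nat_lit 43) (nat_lit 0xbc0001780002ff700) b8964 (.hit (nat_lit 17) (nat_lit 46) (nat_lit 0xbc0001780002ffcc4) b8967 (.one (nat_lit 6) (nat_lit 15) (nat_lit 44) (nat_lit 0xbc0001780002ff7ad) b8965 (.nil)))) (.nil)))) (.nil)))) (.one (nat_lit 58) (nat_lit 20) (nat_lit 49) (nat_lit 0xbc0001780002fed19) b8969 (.nil)))))) (.nil))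
noncomputable def r15_131 : Rw Blk := .tok (nat_lit 3) (nat_lit 0x5e0000bc00017eac4afe914) (.hit (nat_lit 61) (nat_lit 0) (nat_lit 0x5e0000bc00017dcf0afcf85) b29731 (.tok (nat_lit 9) (nat_lit 0x5e0000bc00017dd22afd056) (.hit (nat_lit 62) (nat_lit 20) (nat_lit 0x5e0000bc00017cf792fb503) b29732 (.hit (nat_lit 67) (nat_lit 28) (nat_lit 0x5e0000bc00017d130afb872) b29735 (.one (nat_lit 56) (nat_lit 69) (nat_lit 31) (nat_lit 0x5e0000bc00017dc4bafcea8) b29736 (.tok (nat_lit 68) (nat_lit 0x5e0000bc00017dd22afd056) (.hit (nat_lit 65) (nat_lit 26) (nat_lit 0x5e0000bc00017db622fccd5) b29733 (.hit (nat_lit 70) (nat_lit 32) (nat_lit 0x5e0000bc00017d9492fc8a3) b29737 (.one (nat_lit 9) (nat_lit 66) (nat_lit 27) (nat_lit 0x5e0000bc00017dd22afd056) b29734 (.nil)))) (.nil))))) (.tok (nat_lit 64) (nat_lit 0x5e0000bc00017de582fd2c1) (.hit (nat_lit 71) (nat_lit 50) (nat_lit 0x5e0000bc00017dabd2fcb8b)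 b29738 (.hit (nat_lit 72) (nat_lit 51) (nat_lit 0x5e0000bc00017de582fd2c1) b29739 (.nil))) (.tok (nat_lit 67) (nat_lit 0x5e0000bc00017eac4afe914) (.hit (nat_lit 73) (nat_lit 52) (nat_lit 0x5e0000bc00017e6262fe2e2) b29740 (.one (nat_lit 3) (nat_lit 79) (nat_lit 58) (nat_lit 0x5e0000bc00017e270afdaf2) b29746 (.tok (nat_lit 9) (nat_lit 0x5e0000bc00017eac4afe914) (.hit (nat_lit 74) (nat_lit 53) (nat_lit 0x5e0000bc00017e71dafe410) b29741 (.hit (nat_lit 77) (nat_lit 56) (nat_lit 0x5e0000bc00017ddce2fd1ad) b29744 (.tok (nat_lit 67) (nat_lit 0x5e0000bc00017eac4afe914) (.hit (nat_lit 75) (nat_lit 54) (nat_lit 0x5e0000bc00017eac4afe914) b29742 (.hit (nat_lit 78) (nat_lit 57) (nat_lit 0x5e0000bc00017e670afe2f2) b29745 (.one (nat_lit 9) (nat_lit 76) (nat_lit 55) (nat_lit 0x5e0000bc00017e6f8afe402) b29743 (.nil)))) (.nil)))) (.nil)))) (.one (nat_lit 70) (nat_lit 81) (nat_lit 60) (nat_lit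 0x5e0000bc00017de202fd251) b29747 (.nil)))))) (.tok (nat_lit 6) (nat_lit 0x5e0000bc000180000300763) (.hit (nat_lit 0) (nat_lit 0) (nat_lit 0x5e0000bc00017e3cc2fd371) b29714 (.tok (nat_lit 6) (nat_lit 0x5e0000bc00017e5fb2fdd6c) (.hit (nat_lit 1) (nat_lit 7) (nat_lit 0x5e0000bc00017dde12fcacc) b29715 (.hit (nat_lit 6) (nat_lit 15) (nat_lit 0x5e0000bc00017d734afbe0d) b29718 (.tok (nat_lit 56) (nat_lit 0x5e0000bc00017e5fb2fdd6c) (.hit (nat_lit 4) (nat_lit 13) (nat_lit 0x5e0000bc00017e590afd9d1) b29716 (.hit (nat_lit 9) (nat_lit 19) (nat_lit 0x5e0000bc00017e57bafcb91) b29720 (.one (nat_lit 6) (nat_lit 5) (nat_lit 14) (nat_lit 0x5e0000bc00017e5fb2fdd6c) b29717 (.nil)))) (.one (nat_lit 68) (nat_lit 8) (nat_lit 18) (nat_lit 0x5e0000bc00017e5a9afcf59) b29719 (.nil))))) (.tok (nat_lit 52) (nat_lit 0x5e0000bc00017e8cb2fd851) (.hit (nat_lit 10) (nat_lit 39) (nat_lit 0x5e0000bc00017e0c1afd851)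 b29721 (.hit (nat_lit 11) (nat_lit 40) (nat_lit 0x5e0000bc00017e8cb2fd728) b29722 (.nil))) (.tok (nat_lit 55) (nat_lit 0x5e0000bc000180000300763) (.hit (nat_lit 12) (nat_lit 41) (nat_lit 0x5e0000bc00017eb8c2ff826) b29723 (.one (nat_lit 3) (nat_lit 18) (nat_lit 47) (nat_lit 0x5e0000bc00017e4b52fe4ef) b29729 (.tok (nat_lit 6) (nat_lit 0x5e0000bc000180000300763) (.hit (nat_lit 13) (nat_lit 42) (nat_lit 0x5e0000bc00017ee3d2fe154) b29724 (.hit (nat_lit 16) (nat_lit 45) (nat_lit 0x5e0000bc00017ec3dafe126) b29727 (.tok (nat_lit 55) (nat_lit 0x5e0000bc000180000300763) (.hit (nat_lit 14) (nat_lit 43) (nat_lit 0x5e0000bc00017fc79300763) b29725 (.hit (nat_lit 17) (nat_lit 46) (nat_lit 0x5e0000bc00017ea48afeced) b29728 (.one (nat_lit 6) (nat_lit 15) (nat_lit 44) (nat_lit 0x5e0000bc000180000300725) b29726 (.nil)))) (.nil)))) (.nil)))) (.one (nat_lit 58) (nat_lit 20) (nat_lit 49) (nat_lit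 0x5e0000bc00017e7f22fe034) b29730 (.nil)))))) (.nil))
noncomputable def r15_132 : Rw Blk := .tok (nat_lit 3) (nat_lit 0x5e0000bc00017eecb2fe060) (.hit (nat_lit 61) (nat_lit 0) (nat_lit 0x5e0000bc00017e925afd725) b29765 (.tok (nat_lit 6) (nat_lit 0x5e0000bc00017eac0afda00) (.hit (nat_lit 62) (nat_lit 7) (nat_lit 0x5e0000bc00017ddfcafc078) b29766 (.hit (nat_lit 67) (nat_lit 15) (nat_lit 0x5e0000bc00017d6ebafb256) b29769 (.tok (nat_lit 56) (nat_lit 0x5e0000bc00017eac0afda00) (.hit (nat_lit 65) (nat_lit 13) (nat_lit 0x5e0000bc00017e6b9afd1f2) b29767 (.hit (nat_lit 70) (nat_lit 19) (nat_lit 0x5e0000bc00017df6aafc354) b29771 (.one (nat_lit 6) (nat_lit 66) (nat_lit 14) (nat_lit 0x5e0000bc00017eac0afda00) b29768 (.nil)))) (.one (nat_lit 68) (nat_lit 69) (nat_lit 18) (nat_lit 0x5e0000bc00017e02aafc4d4) b29770 (.nil))))) (.tok (nat_lit 52) (nat_lit 0x5e0000bc00017e387afcb8e) (.hit (nat_lit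 71) (nat_lit 39) (nat_lit 0x5e0000bc00017dfc62fc40b) b29772 (.hit (nat_lit 72) (nat_lit 40) (nat_lit 0x5e0000bc00017e387afcb8e) b29773 (.nil))) (.tok (nat_lit 55) (nat_lit 0x5e0000bc00017eecb2fe060) (.hit (nat_lit 73) (nat_lit 41) (nat_lit 0x5e0000bc00017eecb2fe060) b29774 (.one (nat_lit 3) (nat_lit 79) (nat_lit 47) (nat_lit 0x5e0000bc00017e9daafd834) b29780 (.tok (nat_lit 6) (nat_lit 0x5e0000bc00017ec64afdd48) (.hit (nat_lit 74) (nat_lit 42) (nat_lit 0x5e0000bc00017e479afcd72) b29775 (.hit (nat_lit 77) (nat_lit 45) (nat_lit 0x5e0000bc00017e6002fd07f) b29778 (.tok (nat_lit 55) (nat_lit 0x5e0000bc00017ec64afdd48) (.hit (nat_lit 75) (nat_lit 43) (nat_lit 0x5e0000bc00017ec04afdc88) b29776 (.hit (nat_lit 78) (nat_lit 46) (nat_lit 0x5e0000bc00017ec64afdd48) b29779 (.one (nat_lit 6) (nat_lit 76) (nat_lit 44) (nat_lit 0x5e0000bc00017e9e6afd84c) b29777 (.nil)))) (.nil)))) (.nil)))) (.one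 (nat_lit 58) (nat_lit 81) (nat_lit 49) (nat_lit 0x5e0000bc00017e3df2fcc3d) b29781 (.nil)))))) (.tok (nat_lit 9) (nat_lit 0x5e0000bc000180000300139) (.hit (nat_lit 0) (nat_lit 0) (nat_lit 0x5e0000bc00017f5a12fdba1) b29748 (.tok (nat_lit 9) (nat_lit 0x5e0000bc000180000300139) (.hit (nat_lit 1) (nat_lit 20) (nat_lit 0x5e0000bc00017ec652fd515) b29749 (.hit (nat_lit 6) (nat_lit 28) (nat_lit 0x5e0000bc00017e326afbf71) b29752 (.one (nat_lit 56) (nat_lit 8) (nat_lit 31) (nat_lit 0x5e0000bc00017edb02fdac8) b29753 (.tok (nat_lit 68) (nat_lit 0x5e0000bc000180000300139) (.hit (nat_lit 4) (nat_lit 26) (nat_lit 0x5e0000bc00017f7ee2fe45d) b29750 (.hit (nat_lit 9) (nat_lit 32) (nat_lit 0x5e0000bc00017eb322fdae0) b29754 (.one (nat_lit 9) (nat_lit 5) (nat_lit 27) (nat_lit 0x5e0000bc000180000300139) b29751 (.nil)))) (.nil))))) (.tok (nat_lit 64) (nat_lit 0x5e0000bc00017f576afe9e7) (.hit (nat_lit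 10) (nat_lit 50) (nat_lit 0x5e0000bc00017eedd2fde3c) b29755 (.hit (nat_lit 11) (nat_lit 51) (nat_lit 0x5e0000bc00017f576afe9e7) b29756 (.nil))) (.tok (nat_lit 67) (nat_lit 0x5e0000bc00017fe622ffd2a) (.hit (nat_lit 12) (nat_lit 52) (nat_lit 0x5e0000bc00017fc642ff989) b29757 (.one (nat_lit 3) (nat_lit 18) (nat_lit 58) (nat_lit 0x5e0000bc00017f6682fef39) b29763 (.tok (nat_lit 9) (nat_lit 0x5e0000bc00017fe622ffd2a) (.hit (nat_lit 13) (nat_lit 53) (nat_lit 0x5e0000bc00017f09aafe4df) b29758 (.hit (nat_lit 16) (nat_lit 56) (nat_lit 0x5e0000bc00017f695aff0ca) b29761 (.tok (nat_lit 67) (nat_lit 0x5e0000bc00017fe622ffd2a) (.hit (nat_lit 14) (nat_lit 54) (nat_lit 0x5e0000bc00017fb802ffabf) b29759 (.hit (nat_lit 17) (nat_lit 57) (nat_lit 0x5e0000bc00017fe622ffd2a) b29762 (.one (nat_lit 9) (nat_lit 15) (nat_lit 55) (nat_lit 0x5e0000bc00017fbd6afee9e) b29760 (.nil)))) (.nil)))) (.nil)))) (.one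 (nat_lit 70) (nat_lit 20) (nat_lit 60) (nat_lit 0x5e0000bc00017f68cafeb17) b29764 (.nil)))))) (.nil))
noncomputable def r15_133 : Rw Blk := .tok (nat_lit 3) (nat_lit 0x5e0000bc00017eac4afddbf) (.hit (nat_lit 61) (nat_lit 0) (nat_lit 0x5e0000bc00017dcf0afcd10) b29799 (.tok (nat_lit 6) (nat_lit 0x5e0000bc00017dd22afc501) (.hit (nat_lit 62) (nat_lit 7) (nat_lit 0x5e0000bc00017cf792fa9ae) b29800 (.hit (nat_lit 67) (nat_lit 15) (nat_lit 0x5e0000bc00017d130afad1d) b29803 (.tok (nat_lit 56) (nat_lit 0x5e0000bc00017dd22afc501) (.hit (nat_lit 65) (nat_lit 13) (nat_lit 0x5e0000bc00017db622fc180) b29801 (.hit (nat_lit 70) (nat_lit 19) (nat_lit 0x5e0000bc00017d9492fbd4e) b29805 (.one (nat_lit 6) (nat_lit 66) (nat_lit 14) (nat_lit 0x5e0000bc00017dd22afc501) b29802 (.nil)))) (.one (nat_lit 68) (nat_lit 69) (nat_lit 18) (nat_lit 0x5e0000bc00017dc4bafc353) b29804 (.nil))))) (.tok (nat_lit 52)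 (nat_lit 0x5e0000bc00017de582fc76c) (.hit (nat_lit 71) (nat_lit 39) (nat_lit 0x5e0000bc00017dabd2fc036) b29806 (.hit (nat_lit 72) (nat_lit 40) (nat_lit 0x5e0000bc00017de582fc76c) b29807 (.nil))) (.tok (nat_lit 55) (nat_lit 0x5e0000bc00017eac4afddbf) (.hit (nat_lit 73) (nat_lit 41) (nat_lit 0x5e0000bc00017e6262fdd6a) b29808 (.one (nat_lit 3) (nat_lit 79) (nat_lit 47) (nat_lit 0x5e0000bc00017e270afcf9d) b29814 (.tok (nat_lit 6) (nat_lit 0x5e0000bc00017eac4afddbf) (.hit (nat_lit 74) (nat_lit 42) (nat_lit 0x5e0000bc00017e71dafdca7) b29809 (.hit (nat_lit 77) (nat_lit 45) (nat_lit 0x5e0000bc00017ddce2fc658) b29812 (.tok (nat_lit 55) (nat_lit 0x5e0000bc00017eac4afddbf) (.hit (nat_lit 75) (nat_lit 43) (nat_lit 0x5e0000bc00017eac4afddbf) b29810 (.hit (nat_lit 78) (nat_lit 46) (nat_lit 0x5e0000bc00017e670afd79d) b29813 (.one (nat_lit 6) (nat_lit 76) (nat_lit 44) (nat_lit 0x5e0000bc00017e6f8afd8ad)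 b29811 (.nil)))) (.nil)))) (.nil)))) (.one (nat_lit 58) (nat_lit 81) (nat_lit 49) (nat_lit 0x5e0000bc00017de202fc6fc) b29815 (.nil)))))) (.tok (nat_lit 9) (nat_lit 0x5e0000bc0001800003001fd) (.hit (nat_lit 0) (nat_lit 0) (nat_lit 0x5e0000bc00017e3cc2fd0cd) b29782 (.tok (nat_lit 9) (nat_lit 0x5e0000bc00017e5fb2fdaf7) (.hit (nat_lit 1) (nat_lit 20) (nat_lit 0x5e0000bc00017dde12fc87d) b29783 (.hit (nat_lit 6) (nat_lit 28) (nat_lit 0x5e0000bc00017d734afbb98) b29786 (.one (nat_lit 56) (nat_lit 8) (nat_lit 31) (nat_lit 0x5e0000bc00017e5a9afc9ed) b29787 (.tok (nat_lit 68) (nat_lit 0x5e0000bc00017e5fb2fdaf7) (.hit (nat_lit 4) (nat_lit 26) (nat_lit 0x5e0000bc00017e590afd75c) b29784 (.hit (nat_lit 9) (nat_lit 32) (nat_lit 0x5e0000bc00017e57bafc91c) b29788 (.one (nat_lit 9) (nat_lit 5) (nat_lit 27) (nat_lit 0x5e0000bc00017e5fb2fdaf7) b29785 (.nil)))) (.nil))))) (.tok (nat_lit 64) (nat_lit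 0x5e0000bc00017e8cb2fd605) (.hit (nat_lit 10) (nat_lit 50) (nat_lit 0x5e0000bc00017e0c1afd605) b29789 (.hit (nat_lit 11) (nat_lit 51) (nat_lit 0x5e0000bc00017e8cb2fd4b3) b29790 (.nil))) (.tok (nat_lit 67) (nat_lit 0x5e0000bc0001800003001fd) (.hit (nat_lit 12) (nat_lit 52) (nat_lit 0x5e0000bc00017eb8c2ff56a) b29791 (.one (nat_lit 3) (nat_lit 18) (nat_lit 58) (nat_lit 0x5e0000bc00017e4b52fe27a) b29797 (.tok (nat_lit 9) (nat_lit 0x5e0000bc0001800003001fd) (.hit (nat_lit 13) (nat_lit 53) (nat_lit 0x5e0000bc00017ee3d2fde96) b29792 (.hit (nat_lit 16) (nat_lit 56) (nat_lit 0x5e0000bc00017ec3dafdeb1) b29795 (.tok (nat_lit 67) (nat_lit 0x5e0000bc0001800003001fd) (.hit (nat_lit 14) (nat_lit 54) (nat_lit 0x5e0000bc00017fc793001fd) b29793 (.hit (nat_lit 17) (nat_lit 57) (nat_lit 0x5e0000bc00017ea48afe981) b29796 (.one (nat_lit 9) (nat_lit 15) (nat_lit 55) (nat_lit 0x5e0000bc0001800002ff8a0)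 b29794 (.nil)))) (.nil)))) (.nil)))) (.one (nat_lit 70) (nat_lit 20) (nat_lit 60) (nat_lit 0x5e0000bc00017e7f22fddc4) b29798 (.nil)))))) (.nil))
noncomputable def r15_134 : Rw Blk := .tok (nat_lit 3) (nat_lit 0x17ede4afc6905fbf80bf6ed17ef71afdedd) (.hit (nat_lit 0) (nat_lit 0) (nat_lit 0x17ede4afc6905fbf80bf6ed17ef71afdedd) b29816 (.tok (nat_lit 6) (nat_lit 0x17e74eafaf4d5fba52bf39ad7e8cf2fd19e) (.hit (nat_lit 1) (nat_lit 7) (nat_lit 0x17e74eafaf4d5fba52bf39ad7e8cf2fd19e) b29817 (.hit (nat_lit 6) (nat_lit 15) (nat_lit 0x17e6172facde5faa4abf2ff17e797afcf2f) b29818 (.nil))) (.tok (nat_lit 9) (nat_lit 0x17e74eafaf4d5fba52bf39ad7e8cf2fd19e) (.hit (nat_lit 10) (nat_lit 20) (nat_lit 0x17e74eafaf4d5fba52bf39ad7e8cf2fd19e) b29817 (.hit (nat_lit 15) (nat_lit 28) (nat_lit 0x17e6172facde5faa4abf2ff17e797afcf2f) b29818 (.nil))) (.nil)))) (.tok (nat_lit 6) (nat_lit 0x180000300000600000c0000180000300000)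 (.hit (nat_lit 81) (nat_lit 0) (nat_lit 0x17f9062fddea5fd660bfb2957f7a22fef44) b29819 (.tok (nat_lit 3) (nat_lit 0x17f90d2fd4745fe28abfb9297f69e2fefd8) (.hit (nat_lit 82) (nat_lit 1) (nat_lit 0x17eb84afba075fb764bf4b417e8e12fd440) b29820 (.one (nat_lit 67) (nat_lit 83) (nat_lit 2) (nat_lit 0x17f90d2fd4745fe28abfb9297f69e2fefd8) b29821 (.nil))) (.tok (nat_lit 6) (nat_lit 0x180000300000600000c0000180000300000) (.hit (nat_lit 87) (nat_lit 7) (nat_lit 0x17f57f2fd8445fd1d2bf93057efbfafe219) b29822 (.hit (nat_lit 95) (nat_lit 15) (nat_lit 0x17ec9fafb9a15fa7babf51c57e9b1afd5e1) b29826 (.tok (nat_lit 55) (nat_lit 0x180000300000600000c0000180000300000) (.hit (nat_lit 88) (nat_lit 8) (nat_lit 0x17ff622fe7f45fe1dec000017fd4d2ffcef) b29823 (.hit (nat_lit 96) (nat_lit 16) (nat_lit 0x17f8ebafd6225fde6ebfc0997f78c2ff1ac) b29827 (.tok (nat_lit 6) (nat_lit 0x180000300000600000bff33580000300000)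 (.hit (nat_lit 89) (nat_lit 9) (nat_lit 0x17fa04afefc75fe4a4bfbdf97f958aff2b1) b29824 (.one (nat_lit 55) (nat_lit 90) (nat_lit 10) (nat_lit 0x180000300000600000bff33580000300000) b29825 (.nil))) (.nil)))) (.nil)))) (.nil)))) (.tok (nat_lit 9) (nat_lit 0x180000300000600000bff33580000300000) (.hit (nat_lit 157) (nat_lit 0) (nat_lit 0x17f9062fddea5fd660bfb0217f7ec2fef44) b29828 (.tok (nat_lit 3) (nat_lit 0x17f90d2fd4745fe28abfa82d7f8beafefd7) (.hit (nat_lit 158) (nat_lit 1) (nat_lit 0x17eb84afba075fb764bf3a417eb01afd440) b29829 (.one (nat_lit 55) (nat_lit 159) (nat_lit 3) (nat_lit 0x17f90d2fd4745fe28abfa82d7f8beafefd7) b29830 (.nil))) (.tok (nat_lit 9) (nat_lit 0x180000300000600000bff33580000300000) (.hit (nat_lit 163) (nat_lit 20) (nat_lit 0x17f57f2fd8445fd1d2bf71317f268afe219) b29831 (.hit (nat_lit 171) (nat_lit 28) (nat_lit 0x17ec9fafb9a15fa7babf40c17ebd22fd5e1) b29835 (.tok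 (nat_lit 67) (nat_lit 0x180000300000600000bff33580000300000) (.hit (nat_lit 164) (nat_lit 21) (nat_lit 0x17ff622fe7f45fe1debfdd9d7fff32ffcef) b29832 (.hit (nat_lit 172) (nat_lit 29) (nat_lit 0x17f8ebafd6225fde6ebfaf957f9acaff1ab) b29836 (.tok (nat_lit 9) (nat_lit 0x180000300000600000bff33580000300000) (.hit (nat_lit 165) (nat_lit 22) (nat_lit 0x17fa04afefc75fe4a4bfbdf97f981aff2b1) b29833 (.one (nat_lit 67) (nat_lit 166) (nat_lit 23) (nat_lit 0x180000300000600000bff33580000300000) b29834 (.nil))) (.nil)))) (.nil)))) (.nil)))) (.nil)))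
noncomputable def r15_135 : Rw Blk := .tok (nat_lit 6) (nat_lit 0xbc000178000300000) (.hit (nat_lit 51) (nat_lit 0) (nat_lit 0xbc0001780002ff743) b8943 (.tok (nat_lit 3) (nat_lit 0xbc0001780002ff720) (.hit (nat_lit 52) (nat_lit 1) (nat_lit 0xbc0001780002fdccb) b8944 (.one (nat_lit 56) (nat_lit 55) (nat_lit 6) (nat_lit 0xbc0001780002ff720) b8945 (.one (nat_lit 68) (nat_lit 54) (nat_lit 5) (nat_lit 0xbc0001780002fef3e) b8946 (.nil)))) (.tok (nat_lit 40) (nat_lit 0xbc0001780002ff5de) (.hit (nat_lit 56) (nat_lit 33) (nat_lit 0xbc0001780002ff5de) b8947 (.hit (nat_lit 57) (nat_lit 34) (nat_lit 0xbc0001780002ff3d8) b8948 (.nil))) (.tok (nat_lit 43) (nat_lit 0xbc000178000300000) (.hit (nat_lit 58) (nat_lit 35) (nat_lit 0xbc000178000300000) b8951 (.hit (nat_lit 59) (nat_lit 36) (nat_lit 0xbc0001780002ff6ae) b8952 (.nil))) (.tok (nat_lit 46) (nat_lit 0xbc0001780002ffbd8) (.hit (nat_lit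 60) (nat_lit 37) (nat_lit 0xbc0001780002fe56f) b8949 (.hit (nat_lit 61) (nat_lit 38) (nat_lit 0xbc0001780002ffbd8) b8950 (.nil))) (.nil)))))) (.tok (nat_lit 9) (nat_lit 0xbc000178000300000) (.hit (nat_lit 0) (nat_lit 0) (nat_lit 0xbc0001780002ff743) b8943 (.tok (nat_lit 3) (nat_lit 0xbc0001780002ff720) (.hit (nat_lit 1) (nat_lit 1) (nat_lit 0xbc0001780002fdccb) b8944 (.one (nat_lit 56) (nat_lit 4) (nat_lit 6) (nat_lit 0xbc0001780002fef3e) b8946 (.one (nat_lit 68) (nat_lit 3) (nat_lit 5) (nat_lit 0xbc0001780002ff720) b8945 (.nil)))) (.tok (nat_lit 40) (nat_lit 0xbc0001780002ff5de) (.hit (nat_lit 5) (nat_lit 33) (nat_lit 0xbc0001780002ff5de) b8947 (.hit (nat_lit 6) (nat_lit 34) (nat_lit 0xbc0001780002ff3d8) b8948 (.nil))) (.tok (nat_lit 43) (nat_lit 0xbc0001780002ffbd8) (.hit (nat_lit 7) (nat_lit 35) (nat_lit 0xbc0001780002fe56f) b8949 (.hit (nat_lit 8) (nat_lit 36) (nat_lit 0xbc0001780002ffbd8)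 b8950 (.nil))) (.tok (nat_lit 46) (nat_lit 0xbc000178000300000) (.hit (nat_lit 9) (nat_lit 37) (nat_lit 0xbc000178000300000) b8951 (.hit (nat_lit 10) (nat_lit 38) (nat_lit 0xbc0001780002ff6ae) b8952 (.nil))) (.nil)))))) (.nil))
noncomputable def r15_136 : Rw Blk := .tok (nat_lit 3) (nat_lit 0xbc0001780002fdd96) (.hit (nat_lit 61) (nat_lit 0) (nat_lit 0xbc0001780002fd24b) b8970 (.tok (nat_lit 9) (nat_lit 0xbc0001780002fd581) (.hit (nat_lit 62) (nat_lit 20) (nat_lit 0xbc0001780002fbbf9) b8971 (.hit (nat_lit 67) (nat_lit 28) (nat_lit 0xbc0001780002fadd7) b8974 (.one (nat_lit 56) (nat_lit 69) (nat_lit 31) (nat_lit 0xbc0001780002fc055) b8975 (.tok (nat_lit 68) (nat_lit 0xbc0001780002fd581) (.hit (nat_lit 65) (nat_lit 26) (nat_lit 0xbc0001780002fcd73) b8972 (.hit (nat_lit 70) (nat_lit 32) (nat_lit 0xbc0001780002fbed5) b8976 (.one (nat_lit 9) (nat_lit 66) (nat_lit 27) (nat_lit 0xbc0001780002fd581)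 b8973 (.nil)))) (.nil))))) (.tok (nat_lit 64) (nat_lit 0xbc0001780002fc70f) (.hit (nat_lit 71) (nat_lit 50) (nat_lit 0xbc0001780002fbf8c) b8977 (.hit (nat_lit 72) (nat_lit 51) (nat_lit 0xbc0001780002fc70f) b8978 (.nil))) (.tok (nat_lit 67) (nat_lit 0xbc0001780002fdd96) (.hit (nat_lit 73) (nat_lit 52) (nat_lit 0xbc0001780002fdd96) b8979 (.one (nat_lit 3) (nat_lit 79) (nat_lit 58) (nat_lit 0xbc0001780002fd3b5) b8985 (.tok (nat_lit 9) (nat_lit 0xbc0001780002fd8c9) (.hit (nat_lit 74) (nat_lit 53) (nat_lit 0xbc0001780002fc8f3) b8980 (.hit (nat_lit 77) (nat_lit 56) (nat_lit 0xbc0001780002fcc00) b8983 (.tok (nat_lit 67) (nat_lit 0xbc0001780002fd8c9) (.hit (nat_lit 75) (nat_lit 54) (nat_lit 0xbc0001780002fd809) b8981 (.hit (nat_lit 78) (nat_lit 57) (nat_lit 0xbc0001780002fd8c9) b8984 (.one (nat_lit 9) (nat_lit 76) (nat_lit 55) (nat_lit 0xbc0001780002fd3cd) b8982 (.nil)))) (.nil)))) (.nil))))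 (.one (nat_lit 70) (nat_lit 81) (nat_lit 60) (nat_lit 0xbc0001780002fc7be) b8986 (.nil)))))) (.tok (nat_lit 6) (nat_lit 0xbc000178000300000) (.hit (nat_lit 0) (nat_lit 0) (nat_lit 0xbc0001780002feb42) b8953 (.tok (nat_lit 6) (nat_lit 0xbc000178000300000) (.hit (nat_lit 1) (nat_lit 7) (nat_lit 0xbc0001780002fd8ca) b8954 (.hit (nat_lit 6) (nat_lit 15) (nat_lit 0xbc0001780002fc64d) b8957 (.tok (nat_lit 56) (nat_lit 0xbc000178000300000) (.hit (nat_lit 4) (nat_lit 13) (nat_lit 0xbc0001780002fefdc) b8955 (.hit (nat_lit 9) (nat_lit 19) (nat_lit 0xbc0001780002fd664) b8959 (.one (nat_lit 6) (nat_lit 5) (nat_lit 14) (nat_lit 0xbc000178000300000) b8956 (.nil)))) (.one (nat_lit 68) (nat_lit 8) (nat_lit 18) (nat_lit 0xbc0001780002fdb60) b8958 (.nil))))) (.tok (nat_lit 52) (nat_lit 0xbc0001780002feaed) (.hit (nat_lit 10) (nat_lit 39) (nat_lit 0xbc0001780002fddba) b8960 (.hit (nat_lit 11) (nat_lit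 40) (nat_lit 0xbc0001780002feaed) b8961 (.nil))) (.tok (nat_lit 55) (nat_lit 0xbc0001780002ffcc4) (.hit (nat_lit 12) (nat_lit 41) (nat_lit 0xbc0001780002ff8c8) b8962 (.one (nat_lit 3) (nat_lit 18) (nat_lit 47) (nat_lit 0xbc0001780002fecd0) b8968 (.tok (nat_lit 6) (nat_lit 0xbc0001780002ffcc4) (.hit (nat_lit 13) (nat_lit 42) (nat_lit 0xbc0001780002fe135) b8963 (.hit (nat_lit 16) (nat_lit 45) (nat_lit 0xbc0001780002fed2b) b8966 (.tok (nat_lit 55) (nat_lit 0xbc0001780002ffcc4) (.hit (nat_lit 14) (nat_lit 43) (nat_lit 0xbc0001780002ff700) b8964 (.hit (nat_lit 17) (nat_lit 46) (nat_lit 0xbc0001780002ffcc4) b8967 (.one (nat_lit 6) (nat_lit 15) (nat_lit 44) (nat_lit 0xbc0001780002ff7ad) b8965 (.nil)))) (.nil)))) (.nil)))) (.one (nat_lit 58) (nat_lit 20) (nat_lit 49) (nat_lit 0xbc0001780002fed19) b8969 (.nil)))))) (.nil))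
noncomputable def r15_137 : Rw Blk := .tok (nat_lit 3) (nat_lit 0xbc0001780002fdba6) (.hit (nat_lit 61) (nat_lit 0) (nat_lit 0xbc0001780002fbffe) b29854 (.tok (nat_lit 9) (nat_lit 0xbc0001780002fc062) (.hit (nat_lit 62) (nat_lit 20) (nat_lit 0xbc0001780002fa50f) b29855 (.hit (nat_lit 67) (nat_lit 28) (nat_lit 0xbc0001780002fa87e) b29858 (.one (nat_lit 56) (nat_lit 69) (nat_lit 31) (nat_lit 0xbc0001780002fbeb4) b29859 (.tok (nat_lit 68) (nat_lit 0xbc0001780002fc062) (.hit (nat_lit 65) (nat_lit 26) (nat_lit 0xbc0001780002fbce1) b29856 (.hit (nat_lit 70) (nat_lit 32) (nat_lit 0xbc0001780002fb8af) b29860 (.one (nat_lit 9) (nat_lit 66) (nat_lit 27) (nat_lit 0xbc0001780002fc062) b29857 (.nil)))) (.nil))))) (.tok (nat_lit 64) (nat_lit 0xbc0001780002fc2cd) (.hit (nat_lit 71) (nat_lit 50) (nat_lit 0xbc0001780002fbb97) b29861 (.hit (nat_lit 72) (nat_lit 51) (nat_lit 0xbc0001780002fc2cd)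 b29862 (.nil))) (.tok (nat_lit 67) (nat_lit 0xbc0001780002fdba6) (.hit (nat_lit 73) (nat_lit 52) (nat_lit 0xbc0001780002fd269) b29863 (.one (nat_lit 3) (nat_lit 79) (nat_lit 58) (nat_lit 0xbc0001780002fcafe) b29869 (.tok (nat_lit 9) (nat_lit 0xbc0001780002fdba6) (.hit (nat_lit 74) (nat_lit 53) (nat_lit 0xbc0001780002fd458) b29864 (.hit (nat_lit 77) (nat_lit 56) (nat_lit 0xbc0001780002fc1b9) b29867 (.tok (nat_lit 67) (nat_lit 0xbc0001780002fdba6) (.hit (nat_lit 75) (nat_lit 54) (nat_lit 0xbc0001780002fdba6) b29865 (.hit (nat_lit 78) (nat_lit 57) (nat_lit 0xbc0001780002fd2fe) b29868 (.one (nat_lit 9) (nat_lit 76) (nat_lit 55) (nat_lit 0xbc0001780002fd40e) b29866 (.nil)))) (.nil)))) (.nil)))) (.one (nat_lit 70) (nat_lit 81) (nat_lit 60) (nat_lit 0xbc0001780002fc25d) b29870 (.nil)))))) (.tok (nat_lit 6) (nat_lit 0xbc00017800030061d) (.hit (nat_lit 0) (nat_lit 0) (nat_lit 0xbc0001780002fcdb5)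 b29837 (.tok (nat_lit 6) (nat_lit 0xbc0001780002fd213) (.hit (nat_lit 1) (nat_lit 7) (nat_lit 0xbc0001780002fc1df) b29838 (.hit (nat_lit 6) (nat_lit 15) (nat_lit 0xbc0001780002fb486) b29841 (.tok (nat_lit 56) (nat_lit 0xbc0001780002fd213) (.hit (nat_lit 4) (nat_lit 13) (nat_lit 0xbc0001780002fd13e) b29839 (.hit (nat_lit 9) (nat_lit 19) (nat_lit 0xbc0001780002fd114) b29843 (.one (nat_lit 6) (nat_lit 5) (nat_lit 14) (nat_lit 0xbc0001780002fd213) b29840 (.nil)))) (.one (nat_lit 68) (nat_lit 8) (nat_lit 18) (nat_lit 0xbc0001780002fd170) b29842 (.nil))))) (.tok (nat_lit 52) (nat_lit 0xbc0001780002fd7b3) (.hit (nat_lit 10) (nat_lit 39) (nat_lit 0xbc0001780002fc7a0) b29844 (.hit (nat_lit 11) (nat_lit 40) (nat_lit 0xbc0001780002fd7b3) b29845 (.nil))) (.tok (nat_lit 55) (nat_lit 0xbc00017800030061d) (.hit (nat_lit 12) (nat_lit 41) (nat_lit 0xbc0001780002fdd35) b29846 (.one (nat_lit 3)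 (nat_lit 18) (nat_lit 47) (nat_lit 0xbc0001780002fcf87) b29852 (.tok (nat_lit 6) (nat_lit 0xbc00017800030061d) (.hit (nat_lit 13) (nat_lit 42) (nat_lit 0xbc0001780002fe297) b29847 (.hit (nat_lit 16) (nat_lit 45) (nat_lit 0xbc0001780002fde98) b29850 (.tok (nat_lit 55) (nat_lit 0xbc00017800030061d) (.hit (nat_lit 14) (nat_lit 43) (nat_lit 0xbc0001780002fff0f) b29848 (.hit (nat_lit 17) (nat_lit 46) (nat_lit 0xbc0001780002fdaae) b29851 (.one (nat_lit 6) (nat_lit 15) (nat_lit 44) (nat_lit 0xbc00017800030061d) b29849 (.nil)))) (.nil)))) (.nil)))) (.one (nat_lit 58) (nat_lit 20) (nat_lit 49) (nat_lit 0xbc0001780002fd601) b29853 (.nil)))))) (.nil))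
noncomputable def r15_138 : Rw Blk := .tok (nat_lit 3) (nat_lit 0xbc0001780002fdd96) (.hit (nat_lit 61) (nat_lit 0) (nat_lit 0xbc0001780002fd24b) b8970 (.tok (nat_lit 6) (nat_lit 0xbc0001780002fd581) (.hit (nat_lit 62) (nat_lit 7) (nat_lit 0xbc0001780002fbbf9) b8971 (.hit (nat_lit 67) (nat_lit 15) (nat_lit 0xbc0001780002fadd7) b8974 (.tok (nat_lit 56) (nat_lit 0xbc0001780002fd581) (.hit (nat_lit 65) (nat_lit 13) (nat_lit 0xbc0001780002fcd73) b8972 (.hit (nat_lit 70) (nat_lit 19) (nat_lit 0xbc0001780002fbed5) b8976 (.one (nat_lit 6) (nat_lit 66) (nat_lit 14) (nat_lit 0xbc0001780002fd581) b8973 (.nil)))) (.one (nat_lit 68) (nat_lit 69) (nat_lit 18) (nat_lit 0xbc0001780002fc055) b8975 (.nil))))) (.tok (nat_lit 52) (nat_lit 0xbc0001780002fc70f) (.hit (nat_lit 71) (nat_lit 39) (nat_lit 0xbc0001780002fbf8c) b8977 (.hit (nat_lit 72) (nat_lit 40) (nat_lit 0xbc0001780002fc70f) b8978 (.nil)))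 (.tok (nat_lit 55) (nat_lit 0xbc0001780002fdd96) (.hit (nat_lit 73) (nat_lit 41) (nat_lit 0xbc0001780002fdd96) b8979 (.one (nat_lit 3) (nat_lit 79) (nat_lit 47) (nat_lit 0xbc0001780002fd3b5) b8985 (.tok (nat_lit 6) (nat_lit 0xbc0001780002fd8c9) (.hit (nat_lit 74) (nat_lit 42) (nat_lit 0xbc0001780002fc8f3) b8980 (.hit (nat_lit 77) (nat_lit 45) (nat_lit 0xbc0001780002fcc00) b8983 (.tok (nat_lit 55) (nat_lit 0xbc0001780002fd8c9) (.hit (nat_lit 75) (nat_lit 43) (nat_lit 0xbc0001780002fd809) b8981 (.hit (nat_lit 78) (nat_lit 46) (nat_lit 0xbc0001780002fd8c9) b8984 (.one (nat_lit 6) (nat_lit 76) (nat_lit 44) (nat_lit 0xbc0001780002fd3cd) b8982 (.nil)))) (.nil)))) (.nil)))) (.one (nat_lit 58) (nat_lit 81) (nat_lit 49) (nat_lit 0xbc0001780002fc7be) b8986 (.nil)))))) (.tok (nat_lit 9) (nat_lit 0xbc000178000300000) (.hit (nat_lit 0) (nat_lit 0) (nat_lit 0xbc0001780002feb42) b8953 (.tok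 (nat_lit 9) (nat_lit 0xbc000178000300000) (.hit (nat_lit 1) (nat_lit 20) (nat_lit 0xbc0001780002fd8ca) b8954 (.hit (nat_lit 6) (nat_lit 28) (nat_lit 0xbc0001780002fc64d) b8957 (.one (nat_lit 56) (nat_lit 8) (nat_lit 31) (nat_lit 0xbc0001780002fdb60) b8958 (.tok (nat_lit 68) (nat_lit 0xbc000178000300000) (.hit (nat_lit 4) (nat_lit 26) (nat_lit 0xbc0001780002fefdc) b8955 (.hit (nat_lit 9) (nat_lit 32) (nat_lit 0xbc0001780002fd664) b8959 (.one (nat_lit 9) (nat_lit 5) (nat_lit 27) (nat_lit 0xbc000178000300000) b8956 (.nil)))) (.nil))))) (.tok (nat_lit 64) (nat_lit 0xbc0001780002feaed) (.hit (nat_lit 10) (nat_lit 50) (nat_lit 0xbc0001780002fddba) b8960 (.hit (nat_lit 11) (nat_lit 51) (nat_lit 0xbc0001780002feaed) b8961 (.nil))) (.tok (nat_lit 67) (nat_lit 0xbc0001780002ffcc4) (.hit (nat_lit 12) (nat_lit 52) (nat_lit 0xbc0001780002ff8c8) b8962 (.one (nat_lit 3) (nat_lit 18) (nat_lit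 58) (nat_lit 0xbc0001780002fecd0) b8968 (.tok (nat_lit 9) (nat_lit 0xbc0001780002ffcc4) (.hit (nat_lit 13) (nat_lit 53) (nat_lit 0xbc0001780002fe135) b8963 (.hit (nat_lit 16) (nat_lit 56) (nat_lit 0xbc0001780002fed2b) b8966 (.tok (nat_lit 67) (nat_lit 0xbc0001780002ffcc4) (.hit (nat_lit 14) (nat_lit 54) (nat_lit 0xbc0001780002ff700) b8964 (.hit (nat_lit 17) (nat_lit 57) (nat_lit 0xbc0001780002ffcc4) b8967 (.one (nat_lit 9) (nat_lit 15) (nat_lit 55) (nat_lit 0xbc0001780002ff7ad) b8965 (.nil)))) (.nil)))) (.nil)))) (.one (nat_lit 70) (nat_lit 20) (nat_lit 60) (nat_lit 0xbc0001780002fed19) b8969 (.nil)))))) (.nil))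
noncomputable def r15_139 : Rw Blk := .tok (nat_lit 3) (nat_lit 0xbc0001780002fd589) (.hit (nat_lit 61) (nat_lit 0) (nat_lit 0xbc0001780002fb9e1) b9059 (.tok (nat_lit 6) (nat_lit 0xbc0001780002fba45) (.hit (nat_lit 62) (nat_lit 7) (nat_lit 0xbc0001780002f9ef2) b9060 (.hit (nat_lit 67) (nat_lit 15) (nat_lit 0xbc0001780002fa261) b9063 (.tok (nat_lit 56) (nat_lit 0xbc0001780002fba45) (.hit (nat_lit 65) (nat_lit 13) (nat_lit 0xbc0001780002fb6c4) b9061 (.hit (nat_lit 70) (nat_lit 19) (nat_lit 0xbc0001780002fb292) b9065 (.one (nat_lit 6) (nat_lit 66) (nat_lit 14) (nat_lit 0xbc0001780002fba45) b9062 (.nil)))) (.one (nat_lit 68) (nat_lit 69) (nat_lit 18) (nat_lit 0xbc0001780002fb897) b9064 (.nil))))) (.tok (nat_lit 52) (nat_lit 0xbc0001780002fbcb0) (.hit (nat_lit 71) (nat_lit 39) (nat_lit 0xbc0001780002fb57a) b9066 (.hit (nat_lit 72) (nat_lit 40) (nat_lit 0xbc0001780002fbcb0) b9067 (.nil)))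 (.tok (nat_lit 55) (nat_lit 0xbc0001780002fd589) (.hit (nat_lit 73) (nat_lit 41) (nat_lit 0xbc0001780002fcc4c) b9068 (.one (nat_lit 3) (nat_lit 79) (nat_lit 47) (nat_lit 0xbc0001780002fc4e1) b9074 (.tok (nat_lit 6) (nat_lit 0xbc0001780002fd589) (.hit (nat_lit 74) (nat_lit 42) (nat_lit 0xbc0001780002fce3b) b9069 (.hit (nat_lit 77) (nat_lit 45) (nat_lit 0xbc0001780002fbb9c) b9072 (.tok (nat_lit 55) (nat_lit 0xbc0001780002fd589) (.hit (nat_lit 75) (nat_lit 43) (nat_lit 0xbc0001780002fd589) b9070 (.hit (nat_lit 78) (nat_lit 46) (nat_lit 0xbc0001780002fcce1) b9073 (.one (nat_lit 6) (nat_lit 76) (nat_lit 44) (nat_lit 0xbc0001780002fcdf1) b9071 (.nil)))) (.nil)))) (.nil)))) (.one (nat_lit 58) (nat_lit 81) (nat_lit 49) (nat_lit 0xbc0001780002fbc40) b9075 (.nil)))))) (.tok (nat_lit 9) (nat_lit 0xbc000178000300000) (.hit (nat_lit 0) (nat_lit 0) (nat_lit 0xbc0001780002fc798) b9042 (.tok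 (nat_lit 9) (nat_lit 0xbc0001780002fcbf6) (.hit (nat_lit 1) (nat_lit 20) (nat_lit 0xbc0001780002fbbc2) b9043 (.hit (nat_lit 6) (nat_lit 28) (nat_lit 0xbc0001780002fae69) b9046 (.one (nat_lit 56) (nat_lit 8) (nat_lit 31) (nat_lit 0xbc0001780002fcb53) b9047 (.tok (nat_lit 68) (nat_lit 0xbc0001780002fcbf6) (.hit (nat_lit 4) (nat_lit 26) (nat_lit 0xbc0001780002fcb21) b9044 (.hit (nat_lit 9) (nat_lit 32) (nat_lit 0xbc0001780002fcaf7) b9048 (.one (nat_lit 9) (nat_lit 5) (nat_lit 27) (nat_lit 0xbc0001780002fcbf6) b9045 (.nil)))) (.nil))))) (.tok (nat_lit 64) (nat_lit 0xbc0001780002fd196) (.hit (nat_lit 10) (nat_lit 50) (nat_lit 0xbc0001780002fc183) b9049 (.hit (nat_lit 11) (nat_lit 51) (nat_lit 0xbc0001780002fd196) b9050 (.nil))) (.tok (nat_lit 67) (nat_lit 0xbc000178000300000) (.hit (nat_lit 12) (nat_lit 52) (nat_lit 0xbc0001780002fd718) b9051 (.one (nat_lit 3) (nat_lit 18) (nat_lit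 58) (nat_lit 0xbc0001780002fc96a) b9057 (.tok (nat_lit 9) (nat_lit 0xbc000178000300000) (.hit (nat_lit 13) (nat_lit 53) (nat_lit 0xbc0001780002fdc7a) b9052 (.hit (nat_lit 16) (nat_lit 56) (nat_lit 0xbc0001780002fd87b) b9055 (.tok (nat_lit 67) (nat_lit 0xbc000178000300000) (.hit (nat_lit 14) (nat_lit 54) (nat_lit 0xbc0001780002ff8f2) b9053 (.hit (nat_lit 17) (nat_lit 57) (nat_lit 0xbc0001780002fd491) b9056 (.one (nat_lit 9) (nat_lit 15) (nat_lit 55) (nat_lit 0xbc000178000300000) b9054 (.nil)))) (.nil)))) (.nil)))) (.one (nat_lit 70) (nat_lit 20) (nat_lit 60) (nat_lit 0xbc0001780002fcfe4) b9058 (.nil)))))) (.nil))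
noncomputable def r15_140 : Rw Blk := .tok (nat_lit 3) (nat_lit 0x5fb792bf1a417efe02fdc225faeb6bf50597e9cc2fe08e) (.hit (nat_lit 0) (nat_lit 0) (nat_lit 0x5fb792bf1a417efe02fdc225faeb6bf50597e9cc2fe08e) b29871 (.tok (nat_lit 6) (nat_lit 0x5f9d3abebd357ee94afccc25f75c0bf24f57ddd12fd176) (.hit (nat_lit 1) (nat_lit 7) (nat_lit 0x5f9d3abebd357ee94afccc25f75c0bf24f57ddd12fd176) b29872 (.hit (nat_lit 6) (nat_lit 15) (nat_lit 0x5f985cbeb3797ea92afca535f70e2bf1b397dc99afcf07) b29873 (.nil))) (.tok (nat_lit 9) (nat_lit 0x5f9d3abebd357ee94afccc25f75c0bf24f57ddd12fd176) (.hit (nat_lit 10) (nat_lit 20) (nat_lit 0x5f9d3abebd357ee94afccc25f75c0bf24f57ddd12fd176) b29872 (.hit (nat_lit 15) (nat_lit 28) (nat_lit 0x5f985cbeb3797ea92afca535f70e2bf1b397dc99afcf07) b29873 (.nil))) (.nil)))) (.tok (nat_lit 6) (nat_lit 0x600000c00001800003000005fd326bfde7d800002fffd8) (.hit (nat_lit 81) (nat_lit 0)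 (nat_lit 0x5fe418bf77a97f5982ff0615fd326bf89a97eed3afefd9) b29874 (.tok (nat_lit 3) (nat_lit 0x5fe434bf51d17f8a2afeedd5f9708bf8a217f56b2ff18d) (.hit (nat_lit 82) (nat_lit 1) (nat_lit 0x5fae12bee81d7edd92fd35b5f65acbf1c397e3deafd605) b29875 (.one (nat_lit 67) (nat_lit 83) (nat_lit 2) (nat_lit 0x5fe434bf51d17f8a2afeedd5f9708bf8a217f56b2ff18d) b29876 (.nil))) (.tok (nat_lit 6) (nat_lit 0x600000c00001800003000005fd284bfde7d800002fffd8) (.hit (nat_lit 87) (nat_lit 7) (nat_lit 0x5fd5fcbf61117f474afea865f8c24bf532d7f2552fe3dd) b29877 (.hit (nat_lit 95) (nat_lit 15) (nat_lit 0x5fb27ebee6857e9eeafd4fc5f54bcbf22bd7e45cafd7a6) b29881 (.tok (nat_lit 55) (nat_lit 0x600000c00001800003000005fd284bfde7d800002fffd8) (.hit (nat_lit 88) (nat_lit 8) (nat_lit 0x5ffd88bf9fd17f877b000005fb404bfaf6d7faccaffd35) b29878 (.hit (nat_lit 96) (nat_lit 16) (nat_lit 0x5fe3aebf58897f79baff0bc5fb092bf9a997f2172ff394)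 b29882 (.tok (nat_lit 6) (nat_lit 0x600000c00001800002ffb245fd284bfde7d800002fffd8) (.hit (nat_lit 89) (nat_lit 9) (nat_lit 0x5fe812bfbf1d7f9292ff01c5fb7e6bfa9417faea2ff2e6) b29879 (.one (nat_lit 55) (nat_lit 90) (nat_lit 10) (nat_lit 0x600000c00001800002ffb245fd284bfde7d800002fffd8) b29880 (.nil))) (.nil)))) (.nil)))) (.nil)))) (.tok (nat_lit 9) (nat_lit 0x600000c00001800002ffb246018bac000017f774b00000) (.hit (nat_lit 157) (nat_lit 0) (nat_lit 0x5fe418bf77a97f5982fec9c5fc258bfb51d7f774aff108) b29883 (.tok (nat_lit 3) (nat_lit 0x5fe434bf51d17f8a2afea945fdd32bf9be57e6232ff18d) (.hit (nat_lit 158) (nat_lit 1) (nat_lit 0x5fae12bee81d7edd92fcf1a5f9700bf2d417d9cc2fd605) b29884 (.one (nat_lit 55) (nat_lit 159) (nat_lit 3) (nat_lit 0x5fe434bf51d17f8a2afea945fdd32bf9be57e6232ff18d) b29885 (.nil))) (.tok (nat_lit 9) (nat_lit 0x600000c00001800002ffb246018bac000017f502300000) (.hit (nat_lit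 163) (nat_lit 20) (nat_lit 0x5fd5fcbf61117f474afdcd75fd142bf99857e36a2fe3dd) b29886 (.hit (nat_lit 171) (nat_lit 28) (nat_lit 0x5fb27ebee6857e9eeafd0bb5f98f8bf33c17d5902fd7a6) b29890 (.tok (nat_lit 67) (nat_lit 0x600000c00001800002ffb246018bac000017f502300000) (.hit (nat_lit 164) (nat_lit 21) (nat_lit 0x5ffd88bf9fd17f877aff7f25ffa74c000017ed622ffeb3) b29887 (.hit (nat_lit 172) (nat_lit 29) (nat_lit 0x5fe3aebf58897f79bafec705fcffabfaa717ec85aff395) b29891 (.tok (nat_lit 9) (nat_lit 0x600000c00001800002ffb246018babfe73d7f502300000) (.hit (nat_lit 165) (nat_lit 22) (nat_lit 0x5fe812bfbf1d7f9292fedd56000cebfb1ad7ee5aaff314) b29888 (.one (nat_lit 67) (nat_lit 166) (nat_lit 23) (nat_lit 0x600000c00001800002ffb246018babfe73d7f502300000) b29889 (.nil))) (.nil)))) (.nil)))) (.nil)))) (.nil)))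
noncomputable def r15_141 : Rw Blk := .tok (nat_lit 6) (nat_lit 0xbc000178000300000) (.hit (nat_lit 51) (nat_lit 0) (nat_lit 0xbc0001780002ff743) b8943 (.tok (nat_lit 3) (nat_lit 0xbc0001780002ff720) (.hit (nat_lit 52) (nat_lit 1) (nat_lit 0xbc0001780002fdccb) b8944 (.one (nat_lit 56) (nat_lit 55) (nat_lit 6) (nat_lit 0xbc0001780002ff720) b8945 (.one (nat_lit 68) (nat_lit 54) (nat_lit 5) (nat_lit 0xbc0001780002fef3e) b8946 (.nil)))) (.tok (nat_lit 40) (nat_lit 0xbc0001780002ff5de) (.hit (nat_lit 56) (nat_lit 33) (nat_lit 0xbc0001780002ff5de) b8947 (.hit (nat_lit 57) (nat_lit 34) (nat_lit 0xbc0001780002ff3d8) b8948 (.nil))) (.tok (nat_lit 43) (nat_lit 0xbc000178000300000) (.hit (nat_lit 58) (nat_lit 35) (nat_lit 0xbc000178000300000) b8951 (.hit (nat_lit 59) (nat_lit 36) (nat_lit 0xbc0001780002ff6ae) b8952 (.nil))) (.tok (nat_lit 46) (nat_lit 0xbc0001780002ffbd8) (.hit (nat_lit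 60) (nat_lit 37) (nat_lit 0xbc0001780002fe56f) b8949 (.hit (nat_lit 61) (nat_lit 38) (nat_lit 0xbc0001780002ffbd8) b8950 (.nil))) (.nil)))))) (.tok (nat_lit 9) (nat_lit 0xbc000178000300000) (.hit (nat_lit 0) (nat_lit 0) (nat_lit 0xbc0001780002ff743) b8943 (.tok (nat_lit 3) (nat_lit 0xbc0001780002ff720) (.hit (nat_lit 1) (nat_lit 1) (nat_lit 0xbc0001780002fdccb) b8944 (.one (nat_lit 56) (nat_lit 4) (nat_lit 6) (nat_lit 0xbc0001780002fef3e) b8946 (.one (nat_lit 68) (nat_lit 3) (nat_lit 5) (nat_lit 0xbc0001780002ff720) b8945 (.nil)))) (.tok (nat_lit 40) (nat_lit 0xbc0001780002ff5de) (.hit (nat_lit 5) (nat_lit 33) (nat_lit 0xbc0001780002ff5de) b8947 (.hit (nat_lit 6) (nat_lit 34) (nat_lit 0xbc0001780002ff3d8) b8948 (.nil))) (.tok (nat_lit 43) (nat_lit 0xbc0001780002ffbd8) (.hit (nat_lit 7) (nat_lit 35) (nat_lit 0xbc0001780002fe56f) b8949 (.hit (nat_lit 8) (nat_lit 36) (nat_lit 0xbc0001780002ffbd8)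 b8950 (.nil))) (.tok (nat_lit 46) (nat_lit 0xbc000178000300000) (.hit (nat_lit 9) (nat_lit 37) (nat_lit 0xbc000178000300000) b8951 (.hit (nat_lit 10) (nat_lit 38) (nat_lit 0xbc0001780002ff6ae) b8952 (.nil))) (.nil)))))) (.nil))
noncomputable def r15_142 : Rw Blk := .tok (nat_lit 3) (nat_lit 0xbc0001780002fdd96) (.hit (nat_lit 61) (nat_lit 0) (nat_lit 0xbc0001780002fd24b) b8970 (.tok (nat_lit 9) (nat_lit 0xbc0001780002fd581) (.hit (nat_lit 62) (nat_lit 20) (nat_lit 0xbc0001780002fbbf9) b8971 (.hit (nat_lit 67) (nat_lit 28) (nat_lit 0xbc0001780002fadd7) b8974 (.one (nat_lit 56) (nat_lit 69) (nat_lit 31) (nat_lit 0xbc0001780002fc055) b8975 (.tok (nat_lit 68) (nat_lit 0xbc0001780002fd581) (.hit (nat_lit 65) (nat_lit 26) (nat_lit 0xbc0001780002fcd73) b8972 (.hit (nat_lit 70) (nat_lit 32) (nat_lit 0xbc0001780002fbed5) b8976 (.one (nat_lit 9) (nat_lit 66) (nat_lit 27) (nat_lit 0xbc0001780002fd581)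 b8973 (.nil)))) (.nil))))) (.tok (nat_lit 64) (nat_lit 0xbc0001780002fc70f) (.hit (nat_lit 71) (nat_lit 50) (nat_lit 0xbc0001780002fbf8c) b8977 (.hit (nat_lit 72) (nat_lit 51) (nat_lit 0xbc0001780002fc70f) b8978 (.nil))) (.tok (nat_lit 67) (nat_lit 0xbc0001780002fdd96) (.hit (nat_lit 73) (nat_lit 52) (nat_lit 0xbc0001780002fdd96) b8979 (.one (nat_lit 3) (nat_lit 79) (nat_lit 58) (nat_lit 0xbc0001780002fd3b5) b8985 (.tok (nat_lit 9) (nat_lit 0xbc0001780002fd8c9) (.hit (nat_lit 74) (nat_lit 53) (nat_lit 0xbc0001780002fc8f3) b8980 (.hit (nat_lit 77) (nat_lit 56) (nat_lit 0xbc0001780002fcc00) b8983 (.tok (nat_lit 67) (nat_lit 0xbc0001780002fd8c9) (.hit (nat_lit 75) (nat_lit 54) (nat_lit 0xbc0001780002fd809) b8981 (.hit (nat_lit 78) (nat_lit 57) (nat_lit 0xbc0001780002fd8c9) b8984 (.one (nat_lit 9) (nat_lit 76) (nat_lit 55) (nat_lit 0xbc0001780002fd3cd) b8982 (.nil)))) (.nil)))) (.nil))))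 (.one (nat_lit 70) (nat_lit 81) (nat_lit 60) (nat_lit 0xbc0001780002fc7be) b8986 (.nil)))))) (.tok (nat_lit 6) (nat_lit 0xbc000178000300000) (.hit (nat_lit 0) (nat_lit 0) (nat_lit 0xbc0001780002feb42) b8953 (.tok (nat_lit 6) (nat_lit 0xbc000178000300000) (.hit (nat_lit 1) (nat_lit 7) (nat_lit 0xbc0001780002fd8ca) b8954 (.hit (nat_lit 6) (nat_lit 15) (nat_lit 0xbc0001780002fc64d) b8957 (.tok (nat_lit 56) (nat_lit 0xbc000178000300000) (.hit (nat_lit 4) (nat_lit 13) (nat_lit 0xbc0001780002fefdc) b8955 (.hit (nat_lit 9) (nat_lit 19) (nat_lit 0xbc0001780002fd664) b8959 (.one (nat_lit 6) (nat_lit 5) (nat_lit 14) (nat_lit 0xbc000178000300000) b8956 (.nil)))) (.one (nat_lit 68) (nat_lit 8) (nat_lit 18) (nat_lit 0xbc0001780002fdb60) b8958 (.nil))))) (.tok (nat_lit 52) (nat_lit 0xbc0001780002feaed) (.hit (nat_lit 10) (nat_lit 39) (nat_lit 0xbc0001780002fddba) b8960 (.hit (nat_lit 11) (nat_lit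 40) (nat_lit 0xbc0001780002feaed) b8961 (.nil))) (.tok (nat_lit 55) (nat_lit 0xbc0001780002ffcc4) (.hit (nat_lit 12) (nat_lit 41) (nat_lit 0xbc0001780002ff8c8) b8962 (.one (nat_lit 3) (nat_lit 18) (nat_lit 47) (nat_lit 0xbc0001780002fecd0) b8968 (.tok (nat_lit 6) (nat_lit 0xbc0001780002ffcc4) (.hit (nat_lit 13) (nat_lit 42) (nat_lit 0xbc0001780002fe135) b8963 (.hit (nat_lit 16) (nat_lit 45) (nat_lit 0xbc0001780002fed2b) b8966 (.tok (nat_lit 55) (nat_lit 0xbc0001780002ffcc4) (.hit (nat_lit 14) (nat_lit 43) (nat_lit 0xbc0001780002ff700) b8964 (.hit (nat_lit 17) (nat_lit 46) (nat_lit 0xbc0001780002ffcc4) b8967 (.one (nat_lit 6) (nat_lit 15) (nat_lit 44) (nat_lit 0xbc0001780002ff7ad) b8965 (.nil)))) (.nil)))) (.nil)))) (.one (nat_lit 58) (nat_lit 20) (nat_lit 49) (nat_lit 0xbc0001780002fed19) b8969 (.nil)))))) (.nil))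
noncomputable def r15_143 : Rw Blk := .tok (nat_lit 3) (nat_lit 0xbc0001780002fd71f) (.hit (nat_lit 61) (nat_lit 0) (nat_lit 0xbc0001780002fbb77) b29909 (.tok (nat_lit 9) (nat_lit 0xbc0001780002fbbdb) (.hit (nat_lit 62) (nat_lit 20) (nat_lit 0xbc0001780002fa088) b29910 (.hit (nat_lit 67) (nat_lit 28) (nat_lit 0xbc0001780002fa3f7) b29913 (.one (nat_lit 56) (nat_lit 69) (nat_lit 31) (nat_lit 0xbc0001780002fba2d) b29914 (.tok (nat_lit 68) (nat_lit 0xbc0001780002fbbdb) (.hit (nat_lit 65) (nat_lit 26) (nat_lit 0xbc0001780002fb85a) b29911 (.hit (nat_lit 70) (nat_lit 32) (nat_lit 0xbc0001780002fb428) b29915 (.one (nat_lit 9) (nat_lit 66) (nat_lit 27) (nat_lit 0xbc0001780002fbbdb) b29912 (.nil)))) (.nil))))) (.tok (nat_lit 64) (nat_lit 0xbc0001780002fbe46) (.hit (nat_lit 71) (nat_lit 50) (nat_lit 0xbc0001780002fb710) b29916 (.hit (nat_lit 72) (nat_lit 51) (nat_lit 0xbc0001780002fbe46)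 b29917 (.nil))) (.tok (nat_lit 67) (nat_lit 0xbc0001780002fd71f) (.hit (nat_lit 73) (nat_lit 52) (nat_lit 0xbc0001780002fcde2) b29918 (.one (nat_lit 3) (nat_lit 79) (nat_lit 58) (nat_lit 0xbc0001780002fc677) b29924 (.tok (nat_lit 9) (nat_lit 0xbc0001780002fd71f) (.hit (nat_lit 74) (nat_lit 53) (nat_lit 0xbc0001780002fcfd1) b29919 (.hit (nat_lit 77) (nat_lit 56) (nat_lit 0xbc0001780002fbd32) b29922 (.tok (nat_lit 67) (nat_lit 0xbc0001780002fd71f) (.hit (nat_lit 75) (nat_lit 54) (nat_lit 0xbc0001780002fd71f) b29920 (.hit (nat_lit 78) (nat_lit 57) (nat_lit 0xbc0001780002fce77) b29923 (.one (nat_lit 9) (nat_lit 76) (nat_lit 55) (nat_lit 0xbc0001780002fcf87) b29921 (.nil)))) (.nil)))) (.nil)))) (.one (nat_lit 70) (nat_lit 81) (nat_lit 60) (nat_lit 0xbc0001780002fbdd6) b29925 (.nil)))))) (.tok (nat_lit 6) (nat_lit 0xbc000178000300196) (.hit (nat_lit 0) (nat_lit 0) (nat_lit 0xbc0001780002fc92e)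 b29892 (.tok (nat_lit 6) (nat_lit 0xbc0001780002fcd8c) (.hit (nat_lit 1) (nat_lit 7) (nat_lit 0xbc0001780002fbd58) b29893 (.hit (nat_lit 6) (nat_lit 15) (nat_lit 0xbc0001780002fafff) b29896 (.tok (nat_lit 56) (nat_lit 0xbc0001780002fcd8c) (.hit (nat_lit 4) (nat_lit 13) (nat_lit 0xbc0001780002fccb7) b29894 (.hit (nat_lit 9) (nat_lit 19) (nat_lit 0xbc0001780002fcc8d) b29898 (.one (nat_lit 6) (nat_lit 5) (nat_lit 14) (nat_lit 0xbc0001780002fcd8c) b29895 (.nil)))) (.one (nat_lit 68) (nat_lit 8) (nat_lit 18) (nat_lit 0xbc0001780002fcce9) b29897 (.nil))))) (.tok (nat_lit 52) (nat_lit 0xbc0001780002fd32c) (.hit (nat_lit 10) (nat_lit 39) (nat_lit 0xbc0001780002fc319) b29899 (.hit (nat_lit 11) (nat_lit 40) (nat_lit 0xbc0001780002fd32c) b29900 (.nil))) (.tok (nat_lit 55) (nat_lit 0xbc000178000300196) (.hit (nat_lit 12) (nat_lit 41) (nat_lit 0xbc0001780002fd8ae) b29901 (.one (nat_lit 3)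 (nat_lit 18) (nat_lit 47) (nat_lit 0xbc0001780002fcb00) b29907 (.tok (nat_lit 6) (nat_lit 0xbc000178000300196) (.hit (nat_lit 13) (nat_lit 42) (nat_lit 0xbc0001780002fde10) b29902 (.hit (nat_lit 16) (nat_lit 45) (nat_lit 0xbc0001780002fda11) b29905 (.tok (nat_lit 55) (nat_lit 0xbc000178000300196) (.hit (nat_lit 14) (nat_lit 43) (nat_lit 0xbc0001780002ffa88) b29903 (.hit (nat_lit 17) (nat_lit 46) (nat_lit 0xbc0001780002fd627) b29906 (.one (nat_lit 6) (nat_lit 15) (nat_lit 44) (nat_lit 0xbc000178000300196) b29904 (.nil)))) (.nil)))) (.nil)))) (.one (nat_lit 58) (nat_lit 20) (nat_lit 49) (nat_lit 0xbc0001780002fd17a) b29908 (.nil)))))) (.nil))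
noncomputable def r15_144 : Rw Blk := .tok (nat_lit 3) (nat_lit 0xbc0001780002fdd96) (.hit (nat_lit 61) (nat_lit 0) (nat_lit 0xbc0001780002fd24b) b8970 (.tok (nat_lit 6) (nat_lit 0xbc0001780002fd581) (.hit (nat_lit 62) (nat_lit 7) (nat_lit 0xbc0001780002fbbf9) b8971 (.hit (nat_lit 67) (nat_lit 15) (nat_lit 0xbc0001780002fadd7) b8974 (.tok (nat_lit 56) (nat_lit 0xbc0001780002fd581) (.hit (nat_lit 65) (nat_lit 13) (nat_lit 0xbc0001780002fcd73) b8972 (.hit (nat_lit 70) (nat_lit 19) (nat_lit 0xbc0001780002fbed5) b8976 (.one (nat_lit 6) (nat_lit 66) (nat_lit 14) (nat_lit 0xbc0001780002fd581) b8973 (.nil)))) (.one (nat_lit 68) (nat_lit 69) (nat_lit 18) (nat_lit 0xbc0001780002fc055) b8975 (.nil))))) (.tok (nat_lit 52) (nat_lit 0xbc0001780002fc70f) (.hit (nat_lit 71) (nat_lit 39) (nat_lit 0xbc0001780002fbf8c) b8977 (.hit (nat_lit 72) (nat_lit 40) (nat_lit 0xbc0001780002fc70f) b8978 (.nil)))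 (.tok (nat_lit 55) (nat_lit 0xbc0001780002fdd96) (.hit (nat_lit 73) (nat_lit 41) (nat_lit 0xbc0001780002fdd96) b8979 (.one (nat_lit 3) (nat_lit 79) (nat_lit 47) (nat_lit 0xbc0001780002fd3b5) b8985 (.tok (nat_lit 6) (nat_lit 0xbc0001780002fd8c9) (.hit (nat_lit 74) (nat_lit 42) (nat_lit 0xbc0001780002fc8f3) b8980 (.hit (nat_lit 77) (nat_lit 45) (nat_lit 0xbc0001780002fcc00) b8983 (.tok (nat_lit 55) (nat_lit 0xbc0001780002fd8c9) (.hit (nat_lit 75) (nat_lit 43) (nat_lit 0xbc0001780002fd809) b8981 (.hit (nat_lit 78) (nat_lit 46) (nat_lit 0xbc0001780002fd8c9) b8984 (.one (nat_lit 6) (nat_lit 76) (nat_lit 44) (nat_lit 0xbc0001780002fd3cd) b8982 (.nil)))) (.nil)))) (.nil)))) (.one (nat_lit 58) (nat_lit 81) (nat_lit 49) (nat_lit 0xbc0001780002fc7be) b8986 (.nil)))))) (.tok (nat_lit 9) (nat_lit 0xbc000178000300000) (.hit (nat_lit 0) (nat_lit 0) (nat_lit 0xbc0001780002feb42) b8953 (.tok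 (nat_lit 9) (nat_lit 0xbc000178000300000) (.hit (nat_lit 1) (nat_lit 20) (nat_lit 0xbc0001780002fd8ca) b8954 (.hit (nat_lit 6) (nat_lit 28) (nat_lit 0xbc0001780002fc64d) b8957 (.one (nat_lit 56) (nat_lit 8) (nat_lit 31) (nat_lit 0xbc0001780002fdb60) b8958 (.tok (nat_lit 68) (nat_lit 0xbc000178000300000) (.hit (nat_lit 4) (nat_lit 26) (nat_lit 0xbc0001780002fefdc) b8955 (.hit (nat_lit 9) (nat_lit 32) (nat_lit 0xbc0001780002fd664) b8959 (.one (nat_lit 9) (nat_lit 5) (nat_lit 27) (nat_lit 0xbc000178000300000) b8956 (.nil)))) (.nil))))) (.tok (nat_lit 64) (nat_lit 0xbc0001780002feaed) (.hit (nat_lit 10) (nat_lit 50) (nat_lit 0xbc0001780002fddba) b8960 (.hit (nat_lit 11) (nat_lit 51) (nat_lit 0xbc0001780002feaed) b8961 (.nil))) (.tok (nat_lit 67) (nat_lit 0xbc0001780002ffcc4) (.hit (nat_lit 12) (nat_lit 52) (nat_lit 0xbc0001780002ff8c8) b8962 (.one (nat_lit 3) (nat_lit 18) (nat_lit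 58) (nat_lit 0xbc0001780002fecd0) b8968 (.tok (nat_lit 9) (nat_lit 0xbc0001780002ffcc4) (.hit (nat_lit 13) (nat_lit 53) (nat_lit 0xbc0001780002fe135) b8963 (.hit (nat_lit 16) (nat_lit 56) (nat_lit 0xbc0001780002fed2b) b8966 (.tok (nat_lit 67) (nat_lit 0xbc0001780002ffcc4) (.hit (nat_lit 14) (nat_lit 54) (nat_lit 0xbc0001780002ff700) b8964 (.hit (nat_lit 17) (nat_lit 57) (nat_lit 0xbc0001780002ffcc4) b8967 (.one (nat_lit 9) (nat_lit 15) (nat_lit 55) (nat_lit 0xbc0001780002ff7ad) b8965 (.nil)))) (.nil)))) (.nil)))) (.one (nat_lit 70) (nat_lit 20) (nat_lit 60) (nat_lit 0xbc0001780002fed19) b8969 (.nil)))))) (.nil))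
noncomputable def r15_145 : Rw Blk := .tok (nat_lit 3) (nat_lit 0xbc0001780002fe71e) (.hit (nat_lit 61) (nat_lit 0) (nat_lit 0xbc0001780002fcb76) b29943 (.tok (nat_lit 6) (nat_lit 0xbc0001780002fcbda) (.hit (nat_lit 62) (nat_lit 7) (nat_lit 0xbc0001780002fb087) b29944 (.hit (nat_lit 67) (nat_lit 15) (nat_lit 0xbc0001780002fb3f6) b29947 (.tok (nat_lit 56) (nat_lit 0xbc0001780002fcbda) (.hit (nat_lit 65) (nat_lit 13) (nat_lit 0xbc0001780002fc859) b29945 (.hit (nat_lit 70) (nat_lit 19) (nat_lit 0xbc0001780002fc427) b29949 (.one (nat_lit 6) (nat_lit 66) (nat_lit 14) (nat_lit 0xbc0001780002fcbda) b29946 (.nil)))) (.one (nat_lit 68) (nat_lit 69) (nat_lit 18) (nat_lit 0xbc0001780002fca2c) b29948 (.nil))))) (.tok (nat_lit 52) (nat_lit 0xbc0001780002fce45) (.hit (nat_lit 71) (nat_lit 39) (nat_lit 0xbc0001780002fc70f) b29950 (.hit (nat_lit 72) (nat_lit 40) (nat_lit 0xbc0001780002fce45)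 b29951 (.nil))) (.tok (nat_lit 55) (nat_lit 0xbc0001780002fe71e) (.hit (nat_lit 73) (nat_lit 41) (nat_lit 0xbc0001780002fdde1) b29952 (.one (nat_lit 3) (nat_lit 79) (nat_lit 47) (nat_lit 0xbc0001780002fd676) b29958 (.tok (nat_lit 6) (nat_lit 0xbc0001780002fe71e) (.hit (nat_lit 74) (nat_lit 42) (nat_lit 0xbc0001780002fdfd0) b29953 (.hit (nat_lit 77) (nat_lit 45) (nat_lit 0xbc0001780002fcd31) b29956 (.tok (nat_lit 55) (nat_lit 0xbc0001780002fe71e) (.hit (nat_lit 75) (nat_lit 43) (nat_lit 0xbc0001780002fe71e) b29954 (.hit (nat_lit 78) (nat_lit 46) (nat_lit 0xbc0001780002fde76) b29957 (.one (nat_lit 6) (nat_lit 76) (nat_lit 44) (nat_lit 0xbc0001780002fdf86) b29955 (.nil)))) (.nil)))) (.nil)))) (.one (nat_lit 58) (nat_lit 81) (nat_lit 49) (nat_lit 0xbc0001780002fcdd5) b29959 (.nil)))))) (.tok (nat_lit 9) (nat_lit 0xbc000178000301195) (.hit (nat_lit 0) (nat_lit 0) (nat_lit 0xbc0001780002fd92d)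 b29926 (.tok (nat_lit 9) (nat_lit 0xbc0001780002fdd8b) (.hit (nat_lit 1) (nat_lit 20) (nat_lit 0xbc0001780002fcd57) b29927 (.hit (nat_lit 6) (nat_lit 28) (nat_lit 0xbc0001780002fbffe) b29930 (.one (nat_lit 56) (nat_lit 8) (nat_lit 31) (nat_lit 0xbc0001780002fdce8) b29931 (.tok (nat_lit 68) (nat_lit 0xbc0001780002fdd8b) (.hit (nat_lit 4) (nat_lit 26) (nat_lit 0xbc0001780002fdcb6) b29928 (.hit (nat_lit 9) (nat_lit 32) (nat_lit 0xbc0001780002fdc8c) b29932 (.one (nat_lit 9) (nat_lit 5) (nat_lit 27) (nat_lit 0xbc0001780002fdd8b) b29929 (.nil)))) (.nil))))) (.tok (nat_lit 64) (nat_lit 0xbc0001780002fe32b) (.hit (nat_lit 10) (nat_lit 50) (nat_lit 0xbc0001780002fd318) b29933 (.hit (nat_lit 11) (nat_lit 51) (nat_lit 0xbc0001780002fe32b) b29934 (.nil))) (.tok (nat_lit 67) (nat_lit 0xbc000178000301195) (.hit (nat_lit 12) (nat_lit 52) (nat_lit 0xbc0001780002fe8ad) b29935 (.one (nat_lit 3)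 (nat_lit 18) (nat_lit 58) (nat_lit 0xbc0001780002fdaff) b29941 (.tok (nat_lit 9) (nat_lit 0xbc000178000301195) (.hit (nat_lit 13) (nat_lit 53) (nat_lit 0xbc0001780002fee0f) b29936 (.hit (nat_lit 16) (nat_lit 56) (nat_lit 0xbc0001780002fea10) b29939 (.tok (nat_lit 67) (nat_lit 0xbc000178000301195) (.hit (nat_lit 14) (nat_lit 54) (nat_lit 0xbc000178000300a87) b29937 (.hit (nat_lit 17) (nat_lit 57) (nat_lit 0xbc0001780002fe626) b29940 (.one (nat_lit 9) (nat_lit 15) (nat_lit 55) (nat_lit 0xbc000178000301195) b29938 (.nil)))) (.nil)))) (.nil)))) (.one (nat_lit 70) (nat_lit 20) (nat_lit 60) (nat_lit 0xbc0001780002fe179) b29942 (.nil)))))) (.nil))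
noncomputable def r15_146 : Rw Blk := .tok (nat_lit 3) (nat_lit 0xbf74157eb64afed6e5fa492bf6ee57f3802fd5d1) (.hit (nat_lit 0) (nat_lit 0) (nat_lit 0xbf74157eb64afed6e5fa492bf6ee57f3802fd5d1) b29960 (.tok (nat_lit 6) (nat_lit 0xbf3f657dfc32fead75f8622bf07d17ef5b2fc8a5) (.hit (nat_lit 1) (nat_lit 7) (nat_lit 0xbf3f657dfc32fead75f8622bf07d17ef5b2fc8a5) b29961 (.hit (nat_lit 6) (nat_lit 15) (nat_lit 0xbf35a97de8bafe2d35f8144befe157ee23afc636) b29962 (.nil))) (.tok (nat_lit 9) (nat_lit 0xbf3f657dfc32fead75f8622bf07d17ef5b2fc8a5) (.hit (nat_lit 10) (nat_lit 20) (nat_lit 0xbf3f657dfc32fead75f8622bf07d17ef5b2fc8a5) b29961 (.hit (nat_lit 15) (nat_lit 28) (nat_lit 0xbf35a97de8bafe2d35f8144befe157ee23afc636) b29962 (.nil))) (.nil)))) (.tok (nat_lit 6) (nat_lit 0xc00001800003000005ffdbcc000017fffb300000) (.hit (nat_lit 81) (nat_lit 0) (nat_lit 0xbfcd217f711aff8de5fe1fabfcf517f87eaff0b0)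 b29963 (.tok (nat_lit 3) (nat_lit 0xbfcd597f256affef35fdd30bfad0d7f9032fef9e) (.hit (nat_lit 82) (nat_lit 1) (nat_lit 0xbf61157e5202fe9605fae50bf68a57eb942fd6db) b29964 (.one (nat_lit 67) (nat_lit 83) (nat_lit 2) (nat_lit 0xbfcd597f256affef35fdd30bfad0d7f9032fef9e) b29965 (.nil))) (.tok (nat_lit 6) (nat_lit 0xc00001800003000005ffdbcc000017fffb300000) (.hit (nat_lit 87) (nat_lit 7) (nat_lit 0xbfb0e97f43eaff6975fca02bfb0297f4f42fe4b4) b29966 (.hit (nat_lit 95) (nat_lit 15) (nat_lit 0xbf69ed7e4ed2fe18b5fb192bf6f297ec64afd87c) b29969 (.tok (nat_lit 55) (nat_lit 0xc00001800003000005ffdbcc000017fffb300000) (.hit (nat_lit 88) (nat_lit 8) (nat_lit 0xc000017fc16affe9d5ffdbcc000017fffb300000) b29967 (.hit (nat_lit 96) (nat_lit 16) (nat_lit 0xbfcc4d7f32daffce55fe8fcbfddfd7fe0faff431) b29970 (.one (nat_lit 6) (nat_lit 89) (nat_lit 9) (nat_lit 0xbfd515800003000005fe848bfe9217ffe4aff3db) b29968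 (.nil)))) (.nil)))) (.nil)))) (.tok (nat_lit 9) (nat_lit 0xc0000180000300000600000bfec8d800002fffb3) (.hit (nat_lit 157) (nat_lit 0) (nat_lit 0xbfcd217f711aff8de5fe1fabfbbad7f87eaff106) b29971 (.tok (nat_lit 3) (nat_lit 0xbfcd597f256affef35fe544bfd68d7f9512ff255) (.hit (nat_lit 158) (nat_lit 1) (nat_lit 0xbf61157e5202fe9605fae50bf68a57eb942fd6db) b29964 (.one (nat_lit 55) (nat_lit 159) (nat_lit 3) (nat_lit 0xbfcd597f256affef35fe544bfd68d7f9512ff255) b29972 (.nil))) (.tok (nat_lit 9) (nat_lit 0xc0000180000300000600000bfec8d800002fffb3) (.hit (nat_lit 163) (nat_lit 20) (nat_lit 0xbfb0e97f43eaff6975fca02bfaa397f4f42fe4b4) b29973 (.hit (nat_lit 171) (nat_lit 28) (nat_lit 0xbf69ed7e4ed2fe18b5fb192bf6f297ec64afd87c) b29969 (.tok (nat_lit 67) (nat_lit 0xc0000180000300000600000bfec8d800002fffb3) (.hit (nat_lit 164) (nat_lit 21) (nat_lit 0xc000017fc16affe9d600000bfec8d800002fffb3) b29974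 (.hit (nat_lit 172) (nat_lit 29) (nat_lit 0xbfcc4d7f32daffce55fe8fcbfddfd7fe0faff431) b29976 (.one (nat_lit 9) (nat_lit 165) (nat_lit 22) (nat_lit 0xbfd515800003000005fe850bfdd897ffe4aff3db) b29975 (.nil)))) (.nil)))) (.nil)))) (.nil)))
noncomputable def r15_147 : Rw Blk := .tok (nat_lit 6) (nat_lit 0xbc000178000300000) (.hit (nat_lit 51) (nat_lit 0) (nat_lit 0xbc0001780002ff743) b8943 (.tok (nat_lit 3) (nat_lit 0xbc0001780002ffecc) (.hit (nat_lit 52) (nat_lit 1) (nat_lit 0xbc0001780002fdccb) b8944 (.one (nat_lit 14) (nat_lit 53) (nat_lit 4) (nat_lit 0xbc0001780002ffecc) b9239 (.one (nat_lit 56) (nat_lit 55) (nat_lit 6) (nat_lit 0xbc0001780002ff720) b8945 (.nil)))) (.tok (nat_lit 40) (nat_lit 0xbc0001780002ff5de) (.hit (nat_lit 56) (nat_lit 33) (nat_lit 0xbc0001780002ff5de) b8947 (.hit (nat_lit 57) (nat_lit 34) (nat_lit 0xbc0001780002ff3d8) b8948 (.nil))) (.tok (nat_lit 43) (nat_lit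 0xbc000178000300000) (.hit (nat_lit 58) (nat_lit 35) (nat_lit 0xbc000178000300000) b8951 (.hit (nat_lit 59) (nat_lit 36) (nat_lit 0xbc0001780002ff6ae) b8952 (.nil))) (.tok (nat_lit 46) (nat_lit 0xbc0001780002ffbd8) (.hit (nat_lit 60) (nat_lit 37) (nat_lit 0xbc0001780002fe56f) b8949 (.hit (nat_lit 61) (nat_lit 38) (nat_lit 0xbc0001780002ffbd8) b8950 (.nil))) (.nil)))))) (.tok (nat_lit 9) (nat_lit 0xbc000178000300000) (.hit (nat_lit 0) (nat_lit 0) (nat_lit 0xbc0001780002ff743) b8943 (.tok (nat_lit 3) (nat_lit 0xbc0001780002ffecc) (.hit (nat_lit 1) (nat_lit 1) (nat_lit 0xbc0001780002fdccb) b8944 (.one (nat_lit 14) (nat_lit 2) (nat_lit 4) (nat_lit 0xbc0001780002ffecc) b9239 (.one (nat_lit 68) (nat_lit 3) (nat_lit 5) (nat_lit 0xbc0001780002ff720) b8945 (.nil)))) (.tok (nat_lit 40) (nat_lit 0xbc0001780002ff5de) (.hit (nat_lit 5) (nat_lit 33) (nat_lit 0xbc0001780002ff5de) b8947 (.hit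 (nat_lit 6) (nat_lit 34) (nat_lit 0xbc0001780002ff3d8) b8948 (.nil))) (.tok (nat_lit 43) (nat_lit 0xbc0001780002ffbd8) (.hit (nat_lit 7) (nat_lit 35) (nat_lit 0xbc0001780002fe56f) b8949 (.hit (nat_lit 8) (nat_lit 36) (nat_lit 0xbc0001780002ffbd8) b8950 (.nil))) (.tok (nat_lit 46) (nat_lit 0xbc000178000300000) (.hit (nat_lit 9) (nat_lit 37) (nat_lit 0xbc000178000300000) b8951 (.hit (nat_lit 10) (nat_lit 38) (nat_lit 0xbc0001780002ff6ae) b8952 (.nil))) (.nil)))))) (.nil))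
noncomputable def r15_148 : Rw Blk := .tok (nat_lit 3) (nat_lit 0xbc0001780002fddcf) (.hit (nat_lit 61) (nat_lit 0) (nat_lit 0xbc0001780002fd208) b9255 (.tok (nat_lit 9) (nat_lit 0xbc0001780002fd53e) (.hit (nat_lit 62) (nat_lit 20) (nat_lit 0xbc0001780002fbbb6) b9256 (.hit (nat_lit 67) (nat_lit 28) (nat_lit 0xbc0001780002fad94) b9261 (.tok (nat_lit 14) (nat_lit 0xbc0001780002fcdbc) (.hit (nat_lit 63) (nat_lit 24) (nat_lit 0xbc0001780002fbdc9) b9257 (.hit (nat_lit 68) (nat_lit 30) (nat_lit 0xbc0001780002fc1ab) b9262 (.one (nat_lit 6) (nat_lit 64) (nat_lit 25) (nat_lit 0xbc0001780002fcdbc) b9258 (.nil)))) (.one (nat_lit 56) (nat_lit 69) (nat_lit 31) (nat_lit 0xbc0001780002fc012) b9263 (.tok (nat_lit 68) (nat_lit 0xbc0001780002fd53e) (.hit (nat_lit 65) (nat_lit 26) (nat_lit 0xbc0001780002fcd30) b9259 (.hit (nat_lit 70) (nat_lit 32) (nat_lit 0xbc0001780002fbe92) b9264 (.one (nat_lit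 9) (nat_lit 66) (nat_lit 27) (nat_lit 0xbc0001780002fd53e) b9260 (.nil)))) (.nil)))))) (.tok (nat_lit 64) (nat_lit 0xbc0001780002fc6cc) (.hit (nat_lit 71) (nat_lit 50) (nat_lit 0xbc0001780002fbf49) b9265 (.hit (nat_lit 72) (nat_lit 51) (nat_lit 0xbc0001780002fc6cc) b9266 (.nil))) (.tok (nat_lit 67) (nat_lit 0xbc0001780002fddcf) (.hit (nat_lit 73) (nat_lit 52) (nat_lit 0xbc0001780002fdd53) b9267 (.tok (nat_lit 3) (nat_lit 0xbc0001780002fddcf) (.hit (nat_lit 79) (nat_lit 58) (nat_lit 0xbc0001780002fd372) b9273 (.one (nat_lit 55) (nat_lit 80) (nat_lit 59) (nat_lit 0xbc0001780002fddcf) b9274 (.nil))) (.tok (nat_lit 9) (nat_lit 0xbc0001780002fd886) (.hit (nat_lit 74) (nat_lit 53) (nat_lit 0xbc0001780002fc8b0) b9268 (.hit (nat_lit 77) (nat_lit 56) (nat_lit 0xbc0001780002fcbbd) b9271 (.tok (nat_lit 67) (nat_lit 0xbc0001780002fd886) (.hit (nat_lit 75) (nat_lit 54) (nat_lit 0xbc0001780002fd7c6)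 b9269 (.hit (nat_lit 78) (nat_lit 57) (nat_lit 0xbc0001780002fd886) b9272 (.one (nat_lit 9) (nat_lit 76) (nat_lit 55) (nat_lit 0xbc0001780002fd38a) b9270 (.nil)))) (.nil)))) (.nil)))) (.one (nat_lit 70) (nat_lit 81) (nat_lit 60) (nat_lit 0xbc0001780002fc77b) b9275 (.nil)))))) (.tok (nat_lit 6) (nat_lit 0xbc000178000300000) (.hit (nat_lit 0) (nat_lit 0) (nat_lit 0xbc0001780002feaff) b9240 (.tok (nat_lit 6) (nat_lit 0xbc0001780002ff817) (.hit (nat_lit 1) (nat_lit 7) (nat_lit 0xbc0001780002fd887) b9241 (.hit (nat_lit 6) (nat_lit 15) (nat_lit 0xbc0001780002fc60a) b9244 (.tok (nat_lit 14) (nat_lit 0xbc0001780002ff817) (.hit (nat_lit 2) (nat_lit 11) (nat_lit 0xbc0001780002ff817) b9242 (.hit (nat_lit 7) (nat_lit 17) (nat_lit 0xbc0001780002fe65c) b9245 (.one (nat_lit 9) (nat_lit 3) (nat_lit 12) (nat_lit 0xbc0001780002ff6cc) b9243 (.nil)))) (.one (nat_lit 68) (nat_lit 8) (nat_lit 18)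 (nat_lit 0xbc0001780002fdb1d) b9246 (.nil))))) (.tok (nat_lit 52) (nat_lit 0xbc0001780002feaaa) (.hit (nat_lit 10) (nat_lit 39) (nat_lit 0xbc0001780002fdd77) b9247 (.hit (nat_lit 11) (nat_lit 40) (nat_lit 0xbc0001780002feaaa) b9248 (.nil))) (.tok (nat_lit 55) (nat_lit 0xbc000178000300000) (.hit (nat_lit 12) (nat_lit 41) (nat_lit 0xbc0001780002ff885) b9249 (.tok (nat_lit 3) (nat_lit 0xbc000178000300000) (.hit (nat_lit 18) (nat_lit 47) (nat_lit 0xbc0001780002fec8d) b9252 (.one (nat_lit 67) (nat_lit 19) (nat_lit 48) (nat_lit 0xbc000178000300000) b9253 (.nil))) (.tok (nat_lit 6) (nat_lit 0xbc0001780002fece8) (.hit (nat_lit 13) (nat_lit 42) (nat_lit 0xbc0001780002fe0f2) b9250 (.hit (nat_lit 16) (nat_lit 45) (nat_lit 0xbc0001780002fece8) b9251 (.nil))) (.nil)))) (.one (nat_lit 58) (nat_lit 20) (nat_lit 49) (nat_lit 0xbc0001780002fecd6) b9254 (.nil)))))) (.nil))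
noncomputable def r15_149 : Rw Blk := .tok (nat_lit 3) (nat_lit 0xbc0001780002ff90f) (.hit (nat_lit 61) (nat_lit 0) (nat_lit 0xbc0001780002fdd67) b9291 (.tok (nat_lit 9) (nat_lit 0xbc0001780002fe295) (.hit (nat_lit 62) (nat_lit 20) (nat_lit 0xbc0001780002fc278) b9292 (.hit (nat_lit 67) (nat_lit 28) (nat_lit 0xbc0001780002fc5e7) b9297 (.tok (nat_lit 14) (nat_lit 0xbc0001780002fe295) (.hit (nat_lit 63) (nat_lit 24) (nat_lit 0xbc0001780002fd806) b9293 (.hit (nat_lit 68) (nat_lit 30) (nat_lit 0xbc0001780002fd4f7) b9298 (.one (nat_lit 6) (nat_lit 64) (nat_lit 25) (nat_lit 0xbc0001780002fe295) b9294 (.nil)))) (.one (nat_lit 56) (nat_lit 69) (nat_lit 31) (nat_lit 0xbc0001780002fdc1d) b9299 (.tok (nat_lit 68) (nat_lit 0xbc0001780002fddcb) (.hit (nat_lit 65) (nat_lit 26) (nat_lit 0xbc0001780002fda4a) b9295 (.hit (nat_lit 70) (nat_lit 32) (nat_lit 0xbc0001780002fd618) b9300 (.one (nat_lit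 9) (nat_lit 66) (nat_lit 27) (nat_lit 0xbc0001780002fddcb) b9296 (.nil)))) (.nil)))))) (.tok (nat_lit 64) (nat_lit 0xbc0001780002fe036) (.hit (nat_lit 71) (nat_lit 50) (nat_lit 0xbc0001780002fd900) b9301 (.hit (nat_lit 72) (nat_lit 51) (nat_lit 0xbc0001780002fe036) b9302 (.nil))) (.tok (nat_lit 67) (nat_lit 0xbc0001780002ff90f) (.hit (nat_lit 73) (nat_lit 52) (nat_lit 0xbc0001780002fefd2) b9303 (.tok (nat_lit 3) (nat_lit 0xbc0001780002ff019) (.hit (nat_lit 79) (nat_lit 58) (nat_lit 0xbc0001780002fe867) b9309 (.one (nat_lit 55) (nat_lit 80) (nat_lit 59) (nat_lit 0xbc0001780002ff019) b9310 (.nil))) (.tok (nat_lit 9) (nat_lit 0xbc0001780002ff90f) (.hit (nat_lit 74) (nat_lit 53) (nat_lit 0xbc0001780002ff1c1) b9304 (.hit (nat_lit 77) (nat_lit 56) (nat_lit 0xbc0001780002fdf22) b9307 (.tok (nat_lit 67) (nat_lit 0xbc0001780002ff90f) (.hit (nat_lit 75) (nat_lit 54) (nat_lit 0xbc0001780002ff90f)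 b9305 (.hit (nat_lit 78) (nat_lit 57) (nat_lit 0xbc0001780002ff067) b9308 (.one (nat_lit 9) (nat_lit 76) (nat_lit 55) (nat_lit 0xbc0001780002ff177) b9306 (.nil)))) (.nil)))) (.nil)))) (.one (nat_lit 70) (nat_lit 81) (nat_lit 60) (nat_lit 0xbc0001780002fdfc6) b9311 (.nil)))))) (.tok (nat_lit 6) (nat_lit 0xbc000178000300000) (.hit (nat_lit 0) (nat_lit 0) (nat_lit 0xbc0001780002feb1e) b9276 (.tok (nat_lit 6) (nat_lit 0xbc0001780002ff88b) (.hit (nat_lit 1) (nat_lit 7) (nat_lit 0xbc0001780002fdf48) b9277 (.hit (nat_lit 6) (nat_lit 15) (nat_lit 0xbc0001780002fd1ef) b9280 (.tok (nat_lit 14) (nat_lit 0xbc0001780002ff88b) (.hit (nat_lit 2) (nat_lit 11) (nat_lit 0xbc0001780002ff001) b9278 (.hit (nat_lit 7) (nat_lit 17) (nat_lit 0xbc0001780002ff88b) b9281 (.one (nat_lit 9) (nat_lit 3) (nat_lit 12) (nat_lit 0xbc0001780002fef49) b9279 (.nil)))) (.one (nat_lit 68) (nat_lit 8) (nat_lit 18)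 (nat_lit 0xbc0001780002feed9) b9282 (.nil))))) (.tok (nat_lit 52) (nat_lit 0xbc0001780002ff51c) (.hit (nat_lit 10) (nat_lit 39) (nat_lit 0xbc0001780002fe509) b9283 (.hit (nat_lit 11) (nat_lit 40) (nat_lit 0xbc0001780002ff51c) b9284 (.nil))) (.tok (nat_lit 55) (nat_lit 0xbc000178000300000) (.hit (nat_lit 12) (nat_lit 41) (nat_lit 0xbc0001780002ffa9e) b9285 (.tok (nat_lit 3) (nat_lit 0xbc0001780002fffab) (.hit (nat_lit 18) (nat_lit 47) (nat_lit 0xbc0001780002fecf0) b9288 (.one (nat_lit 67) (nat_lit 19) (nat_lit 48) (nat_lit 0xbc0001780002fffab) b9289 (.nil))) (.tok (nat_lit 6) (nat_lit 0xbc000178000300000) (.hit (nat_lit 13) (nat_lit 42) (nat_lit 0xbc000178000300000) b9286 (.hit (nat_lit 16) (nat_lit 45) (nat_lit 0xbc0001780002ffc01) b9287 (.nil))) (.nil)))) (.one (nat_lit 58) (nat_lit 20) (nat_lit 49) (nat_lit 0xbc0001780002ff36a) b9290 (.nil)))))) (.nil))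
noncomputable def r15_150 : Rw Blk := .tok (nat_lit 3) (nat_lit 0xbc0001780002fddcf) (.hit (nat_lit 61) (nat_lit 0) (nat_lit 0xbc0001780002fd208) b9255 (.tok (nat_lit 6) (nat_lit 0xbc0001780002fd53e) (.hit (nat_lit 62) (nat_lit 7) (nat_lit 0xbc0001780002fbbb6) b9256 (.hit (nat_lit 67) (nat_lit 15) (nat_lit 0xbc0001780002fad94) b9261 (.tok (nat_lit 14) (nat_lit 0xbc0001780002fcdbc) (.hit (nat_lit 63) (nat_lit 11) (nat_lit 0xbc0001780002fbdc9) b9257 (.hit (nat_lit 68) (nat_lit 17) (nat_lit 0xbc0001780002fc1ab) b9262 (.one (nat_lit 9) (nat_lit 64) (nat_lit 12) (nat_lit 0xbc0001780002fcdbc) b9258 (.nil)))) (.tok (nat_lit 56) (nat_lit 0xbc0001780002fd53e) (.hit (nat_lit 65) (nat_lit 13) (nat_lit 0xbc0001780002fcd30) b9259 (.hit (nat_lit 70) (nat_lit 19) (nat_lit 0xbc0001780002fbe92) b9264 (.one (nat_lit 6) (nat_lit 66) (nat_lit 14) (nat_lit 0xbc0001780002fd53e) b9260 (.nil)))) (.one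 (nat_lit 68) (nat_lit 69) (nat_lit 18) (nat_lit 0xbc0001780002fc012) b9263 (.nil)))))) (.tok (nat_lit 52) (nat_lit 0xbc0001780002fc6cc) (.hit (nat_lit 71) (nat_lit 39) (nat_lit 0xbc0001780002fbf49) b9265 (.hit (nat_lit 72) (nat_lit 40) (nat_lit 0xbc0001780002fc6cc) b9266 (.nil))) (.tok (nat_lit 55) (nat_lit 0xbc0001780002fddcf) (.hit (nat_lit 73) (nat_lit 41) (nat_lit 0xbc0001780002fdd53) b9267 (.tok (nat_lit 3) (nat_lit 0xbc0001780002fddcf) (.hit (nat_lit 79) (nat_lit 47) (nat_lit 0xbc0001780002fd372) b9273 (.one (nat_lit 67) (nat_lit 80) (nat_lit 48) (nat_lit 0xbc0001780002fddcf) b9274 (.nil))) (.tok (nat_lit 6) (nat_lit 0xbc0001780002fd886) (.hit (nat_lit 74) (nat_lit 42) (nat_lit 0xbc0001780002fc8b0) b9268 (.hit (nat_lit 77) (nat_lit 45) (nat_lit 0xbc0001780002fcbbd) b9271 (.tok (nat_lit 55) (nat_lit 0xbc0001780002fd886) (.hit (nat_lit 75) (nat_lit 43) (nat_lit 0xbc0001780002fd7c6)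 b9269 (.hit (nat_lit 78) (nat_lit 46) (nat_lit 0xbc0001780002fd886) b9272 (.one (nat_lit 6) (nat_lit 76) (nat_lit 44) (nat_lit 0xbc0001780002fd38a) b9270 (.nil)))) (.nil)))) (.nil)))) (.one (nat_lit 58) (nat_lit 81) (nat_lit 49) (nat_lit 0xbc0001780002fc77b) b9275 (.nil)))))) (.tok (nat_lit 9) (nat_lit 0xbc000178000300000) (.hit (nat_lit 0) (nat_lit 0) (nat_lit 0xbc0001780002feaff) b9240 (.tok (nat_lit 9) (nat_lit 0xbc0001780002ff817) (.hit (nat_lit 1) (nat_lit 20) (nat_lit 0xbc0001780002fd887) b9241 (.hit (nat_lit 6) (nat_lit 28) (nat_lit 0xbc0001780002fc60a) b9244 (.tok (nat_lit 14) (nat_lit 0xbc0001780002ff817) (.hit (nat_lit 2) (nat_lit 24) (nat_lit 0xbc0001780002ff817) b9242 (.hit (nat_lit 7) (nat_lit 30) (nat_lit 0xbc0001780002fe65c) b9245 (.one (nat_lit 6) (nat_lit 3) (nat_lit 25) (nat_lit 0xbc0001780002ff6cc) b9243 (.nil)))) (.one (nat_lit 56) (nat_lit 8) (nat_lit 31)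 (nat_lit 0xbc0001780002fdb1d) b9246 (.nil))))) (.tok (nat_lit 64) (nat_lit 0xbc0001780002feaaa) (.hit (nat_lit 10) (nat_lit 50) (nat_lit 0xbc0001780002fdd77) b9247 (.hit (nat_lit 11) (nat_lit 51) (nat_lit 0xbc0001780002feaaa) b9248 (.nil))) (.tok (nat_lit 67) (nat_lit 0xbc000178000300000) (.hit (nat_lit 12) (nat_lit 52) (nat_lit 0xbc0001780002ff885) b9249 (.tok (nat_lit 3) (nat_lit 0xbc000178000300000) (.hit (nat_lit 18) (nat_lit 58) (nat_lit 0xbc0001780002fec8d) b9252 (.one (nat_lit 55) (nat_lit 19) (nat_lit 59) (nat_lit 0xbc000178000300000) b9253 (.nil))) (.tok (nat_lit 9) (nat_lit 0xbc0001780002fece8) (.hit (nat_lit 13) (nat_lit 53) (nat_lit 0xbc0001780002fe0f2) b9250 (.hit (nat_lit 16) (nat_lit 56) (nat_lit 0xbc0001780002fece8) b9251 (.nil))) (.nil)))) (.one (nat_lit 70) (nat_lit 20) (nat_lit 60) (nat_lit 0xbc0001780002fecd6) b9254 (.nil)))))) (.nil))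
noncomputable def r15_151 : Rw Blk := .tok (nat_lit 3) (nat_lit 0xbc0001780002ff90f) (.hit (nat_lit 61) (nat_lit 0) (nat_lit 0xbc0001780002fdd67) b9291 (.tok (nat_lit 6) (nat_lit 0xbc0001780002fe295) (.hit (nat_lit 62) (nat_lit 7) (nat_lit 0xbc0001780002fc278) b9292 (.hit (nat_lit 67) (nat_lit 15) (nat_lit 0xbc0001780002fc5e7) b9297 (.tok (nat_lit 14) (nat_lit 0xbc0001780002fe295) (.hit (nat_lit 63) (nat_lit 11) (nat_lit 0xbc0001780002fd806) b9293 (.hit (nat_lit 68) (nat_lit 17) (nat_lit 0xbc0001780002fd4f7) b9298 (.one (nat_lit 9) (nat_lit 64) (nat_lit 12) (nat_lit 0xbc0001780002fe295) b9294 (.nil)))) (.tok (nat_lit 56) (nat_lit 0xbc0001780002fddcb) (.hit (nat_lit 65) (nat_lit 13) (nat_lit 0xbc0001780002fda4a) b9295 (.hit (nat_lit 70) (nat_lit 19) (nat_lit 0xbc0001780002fd618) b9300 (.one (nat_lit 6) (nat_lit 66) (nat_lit 14) (nat_lit 0xbc0001780002fddcb) b9296 (.nil)))) (.one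 (nat_lit 68) (nat_lit 69) (nat_lit 18) (nat_lit 0xbc0001780002fdc1d) b9299 (.nil)))))) (.tok (nat_lit 52) (nat_lit 0xbc0001780002fe036) (.hit (nat_lit 71) (nat_lit 39) (nat_lit 0xbc0001780002fd900) b9301 (.hit (nat_lit 72) (nat_lit 40) (nat_lit 0xbc0001780002fe036) b9302 (.nil))) (.tok (nat_lit 55) (nat_lit 0xbc0001780002ff90f) (.hit (nat_lit 73) (nat_lit 41) (nat_lit 0xbc0001780002fefd2) b9303 (.tok (nat_lit 3) (nat_lit 0xbc0001780002ff019) (.hit (nat_lit 79) (nat_lit 47) (nat_lit 0xbc0001780002fe867) b9309 (.one (nat_lit 67) (nat_lit 80) (nat_lit 48) (nat_lit 0xbc0001780002ff019) b9310 (.nil))) (.tok (nat_lit 6) (nat_lit 0xbc0001780002ff90f) (.hit (nat_lit 74) (nat_lit 42) (nat_lit 0xbc0001780002ff1c1) b9304 (.hit (nat_lit 77) (nat_lit 45) (nat_lit 0xbc0001780002fdf22) b9307 (.tok (nat_lit 55) (nat_lit 0xbc0001780002ff90f) (.hit (nat_lit 75) (nat_lit 43) (nat_lit 0xbc0001780002ff90f)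 b9305 (.hit (nat_lit 78) (nat_lit 46) (nat_lit 0xbc0001780002ff067) b9308 (.one (nat_lit 6) (nat_lit 76) (nat_lit 44) (nat_lit 0xbc0001780002ff177) b9306 (.nil)))) (.nil)))) (.nil)))) (.one (nat_lit 58) (nat_lit 81) (nat_lit 49) (nat_lit 0xbc0001780002fdfc6) b9311 (.nil)))))) (.tok (nat_lit 9) (nat_lit 0xbc000178000300000) (.hit (nat_lit 0) (nat_lit 0) (nat_lit 0xbc0001780002feb1e) b9276 (.tok (nat_lit 9) (nat_lit 0xbc0001780002ff88b) (.hit (nat_lit 1) (nat_lit 20) (nat_lit 0xbc0001780002fdf48) b9277 (.hit (nat_lit 6) (nat_lit 28) (nat_lit 0xbc0001780002fd1ef) b9280 (.tok (nat_lit 14) (nat_lit 0xbc0001780002ff88b) (.hit (nat_lit 2) (nat_lit 24) (nat_lit 0xbc0001780002ff001) b9278 (.hit (nat_lit 7) (nat_lit 30) (nat_lit 0xbc0001780002ff88b) b9281 (.one (nat_lit 6) (nat_lit 3) (nat_lit 25) (nat_lit 0xbc0001780002fef49) b9279 (.nil)))) (.one (nat_lit 56) (nat_lit 8) (nat_lit 31)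 (nat_lit 0xbc0001780002feed9) b9282 (.nil))))) (.tok (nat_lit 64) (nat_lit 0xbc0001780002ff51c) (.hit (nat_lit 10) (nat_lit 50) (nat_lit 0xbc0001780002fe509) b9283 (.hit (nat_lit 11) (nat_lit 51) (nat_lit 0xbc0001780002ff51c) b9284 (.nil))) (.tok (nat_lit 67) (nat_lit 0xbc000178000300000) (.hit (nat_lit 12) (nat_lit 52) (nat_lit 0xbc0001780002ffa9e) b9285 (.tok (nat_lit 3) (nat_lit 0xbc0001780002fffab) (.hit (nat_lit 18) (nat_lit 58) (nat_lit 0xbc0001780002fecf0) b9288 (.one (nat_lit 55) (nat_lit 19) (nat_lit 59) (nat_lit 0xbc0001780002fffab) b9289 (.nil))) (.tok (nat_lit 9) (nat_lit 0xbc000178000300000) (.hit (nat_lit 13) (nat_lit 53) (nat_lit 0xbc000178000300000) b9286 (.hit (nat_lit 16) (nat_lit 56) (nat_lit 0xbc0001780002ffc01) b9287 (.nil))) (.nil)))) (.one (nat_lit 70) (nat_lit 20) (nat_lit 60) (nat_lit 0xbc0001780002ff36a) b9290 (.nil)))))) (.nil))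
noncomputable def r15_152 : Rw Blk := .tok (nat_lit 3) (nat_lit 0x17ede4afc6905fbf80bf67517ed90afdfd45fd916bf8cb57fa69afedc3) (.hit (nat_lit 0) (nat_lit 0) (nat_lit 0x17ede4afc6905fbf80bf67517ed90afdfd45fd916bf8cb57fa69afedc3) b29977 (.tok (nat_lit 6) (nat_lit 0x17e74eafaf4d5fba52bf2f997e291afd19e5f7f82bec3397ed472fe1a6) (.hit (nat_lit 1) (nat_lit 7) (nat_lit 0x17e74eafaf4d5fba52bf2f997e291afd19e5f7f82bec3397e1032fe1a6) b29978 (.hit (nat_lit 6) (nat_lit 15) (nat_lit 0x17e6172facde5faa4abf25dd7e15a2fcf2f5f7aa4beb97d7ed472fdf5a) b29979 (.nil))) (.tok (nat_lit 9) (nat_lit 0x17e74eafaf4d5fba52bf2f997e291afd19e5f7f82bec3397f06b2fe193) (.hit (nat_lit 10) (nat_lit 20) (nat_lit 0x17e74eafaf4d5fba52bf2f997e291afd19e5f7f82bec3397f06b2fe193) b29980 (.hit (nat_lit 15) (nat_lit 28) (nat_lit 0x17e6172facde5faa4abf25dd7e15a2fcf2f5f7aa4beb97d7edbd2fdf3c) b29981 (.nil))) (.nil)))) (.tok (nat_lit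 6) (nat_lit 0x180000300000600000c000017fcceb000005fe716bf925d7fb7d2ff27f) (.hit (nat_lit 81) (nat_lit 0) (nat_lit 0x17f9062fddea5fd660bfc0457f5a82ff04e5fe716bf925d7fb7d2fee7c) b29982 (.one (nat_lit 3) (nat_lit 82) (nat_lit 1) (nat_lit 0x17eb84afba075fb764bf538d7eb392fcf695f6f6ebea3117e564afd6d9) b29983 (.tok (nat_lit 6) (nat_lit 0x180000300000600000c000017fcceb000005fdc46bf7cc17f8342ff27f) (.hit (nat_lit 87) (nat_lit 7) (nat_lit 0x17f57f2fd8445fd1d2bf95d57f3a42fdd425f95e6bef0017e69c2fd0dc) b29984 (.hit (nat_lit 95) (nat_lit 15) (nat_lit 0x17ec9fafb9a15fa7babf5a117ec09afd10a5f5e7ebe81317e2722fcdf6) b29988 (.tok (nat_lit 55) (nat_lit 0x180000300000600000c000017fcceb000005fdc46bf7cc17f8342ff27f) (.hit (nat_lit 88) (nat_lit 8) (nat_lit 0x17ff622fe7f45fe1dec000017fbffaff8415fbdc6bf3fc17f0942fe9f2) b29985 (.hit (nat_lit 96) (nat_lit 16) (nat_lit 0x17f8ebafd6225fde6ebfc8e57f9e42fef075fba54bf38dd7f4c4afee04)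 b29989 (.tok (nat_lit 6) (nat_lit 0x180000300000600000bff5497fcceb000005fdc46bf7cc17f8342ff27f) (.hit (nat_lit 89) (nat_lit 9) (nat_lit 0x17fa04afefc75fe4a4bfc8917f9ab2ff2b15fc1a8bf47857f18cafede6) b29986 (.one (nat_lit 55) (nat_lit 90) (nat_lit 10) (nat_lit 0x180000300000600000bff5497fcceb000005fdc46bf7cc17f8342ff27f) b29987 (.nil))) (.nil)))) (.nil)))) (.nil)))) (.tok (nat_lit 9) (nat_lit 0x180000300000600000bff8c580000300000600000c0000180000300851) (.hit (nat_lit 157) (nat_lit 0) (nat_lit 0x17f9062fddea5fd660bfbae97f594aff0255fea18bfa8597fac5afee67) b29990 (.one (nat_lit 3) (nat_lit 158) (nat_lit 1) (nat_lit 0x17eb84afba075fb764bf538d7eb392fcf695fc0a4bf64957f79b2fe11f) b29991 (.tok (nat_lit 9) (nat_lit 0x180000300000600000bff8c580000300000600000c0000180000300851) (.hit (nat_lit 163) (nat_lit 20) (nat_lit 0x17f57f2fd8445fd1d2bf8b397f36a2fde545fd61cbf80297fd002fe20c) b29992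 (.hit (nat_lit 171) (nat_lit 28) (nat_lit 0x17ec9fafb9a15fa7babf5a117ec09afd10a5fc3e6bf5bbd7f57fafdce8) b29996 (.tok (nat_lit 67) (nat_lit 0x180000300000600000bff8c580000300000600000c0000180000300851) (.hit (nat_lit 164) (nat_lit 21) (nat_lit 0x17ff622fe7f45fe1debff5817fbc9aff8405ffdd4bfd261800002ff994) b29993 (.hit (nat_lit 172) (nat_lit 29) (nat_lit 0x17f8ebafd6225fde6ebfc8e57f9e3afef075feb68bfb49d7feee2ff550) b29997 (.tok (nat_lit 9) (nat_lit 0x180000300000600000bff8c580000300000600000c000017ff22300851) (.hit (nat_lit 165) (nat_lit 22) (nat_lit 0x17fa04afefc75fe4a4bfc75d7f9822ff2b15febb0bfbb217fb8d2ffb0d) b29994 (.one (nat_lit 67) (nat_lit 166) (nat_lit 23) (nat_lit 0x180000300000600000bff8c580000300000600000c000017ff22300851) b29995 (.nil))) (.nil)))) (.nil)))) (.nil)))) (.nil)))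
noncomputable def r15_153 : Rw Blk := .tok (nat_lit 6) (nat_lit 0x5e0000bc0001800002ffffe) (.hit (nat_lit 51) (nat_lit 0) (nat_lit 0x5e0000bc00017fba1aff12b) b30008 (.tok (nat_lit 3) (nat_lit 0x5e0000bc00017ff662ff3e3) (.hit (nat_lit 52) (nat_lit 1) (nat_lit 0x5e0000bc00017ee65afd3cf) b30009 (.one (nat_lit 14) (nat_lit 53) (nat_lit 4) (nat_lit 0x5e0000bc00017ff662ff3e3) b30010 (.one (nat_lit 68) (nat_lit 54) (nat_lit 5) (nat_lit 0x5e0000bc00017f79f2fe438) b30011 (.nil)))) (.tok (nat_lit 40) (nat_lit 0x5e0000bc00017faef2fed29) (.hit (nat_lit 56) (nat_lit 33) (nat_lit 0x5e0000bc00017faef2fed29) b30012 (.hit (nat_lit 57) (nat_lit 34) (nat_lit 0x5e0000bc00017f9ec2fe5a9) b30003 (.nil))) (.tok (nat_lit 43) (nat_lit 0x5e0000bc0001800002ffffe) (.hit (nat_lit 58) (nat_lit 35) (nat_lit 0x5e0000bc0001800002ffffe) b30013 (.hit (nat_lit 59) (nat_lit 36) (nat_lit 0x5e0000bc00017fb572ff06d)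 b30014 (.nil))) (.tok (nat_lit 46) (nat_lit 0x5e0000bc00017fdec2ff04f) (.hit (nat_lit 60) (nat_lit 37) (nat_lit 0x5e0000bc00017f2b7afdc5e) b30004 (.hit (nat_lit 61) (nat_lit 38) (nat_lit 0x5e0000bc00017fdec2ff04f) b30015 (.nil))) (.nil)))))) (.tok (nat_lit 9) (nat_lit 0x5e0000bc000180000300000) (.hit (nat_lit 0) (nat_lit 0) (nat_lit 0x5e0000bc00017fba1aff1e9) b29998 (.tok (nat_lit 3) (nat_lit 0x5e0000bc00017ff662ff3fb) (.hit (nat_lit 1) (nat_lit 1) (nat_lit 0x5e0000bc00017ee65afd3d0) b29999 (.one (nat_lit 14) (nat_lit 2) (nat_lit 4) (nat_lit 0x5e0000bc00017ff662ff3fb) b30000 (.one (nat_lit 56) (nat_lit 4) (nat_lit 6) (nat_lit 0x5e0000bc00017f79f2fe858) b30001 (.nil)))) (.tok (nat_lit 40) (nat_lit 0x5e0000bc00017faef2fed1f) (.hit (nat_lit 5) (nat_lit 33) (nat_lit 0x5e0000bc00017faef2fed1f) b30002 (.hit (nat_lit 6) (nat_lit 34) (nat_lit 0x5e0000bc00017f9ec2fe5a9) b30003 (.nil)))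 (.tok (nat_lit 43) (nat_lit 0x5e0000bc00017fdec2ff42c) (.hit (nat_lit 7) (nat_lit 35) (nat_lit 0x5e0000bc00017f2b7afdc5e) b30004 (.hit (nat_lit 8) (nat_lit 36) (nat_lit 0x5e0000bc00017fdec2ff42c) b30005 (.nil))) (.tok (nat_lit 46) (nat_lit 0x5e0000bc000180000300000) (.hit (nat_lit 9) (nat_lit 37) (nat_lit 0x5e0000bc000180000300000) b30006 (.hit (nat_lit 10) (nat_lit 38) (nat_lit 0x5e0000bc00017fb572ff085) b30007 (.nil))) (.nil)))))) (.nil))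
noncomputable def r15_154 : Rw Blk := .tok (nat_lit 3) (nat_lit 0xbc0001780002fd53e) (.hit (nat_lit 61) (nat_lit 0) (nat_lit 0xbc0001780002fd208) b9255 (.tok (nat_lit 9) (nat_lit 0xbc0001780002fd53e) (.hit (nat_lit 62) (nat_lit 20) (nat_lit 0xbc0001780002fbbb6) b9256 (.hit (nat_lit 67) (nat_lit 28) (nat_lit 0xbc0001780002fad94) b9261 (.tok (nat_lit 14) (nat_lit 0xbc0001780002fcdbc) (.hit (nat_lit 63) (nat_lit 24) (nat_lit 0xbc0001780002fbdc9) b9257 (.hit (nat_lit 68) (nat_lit 30) (nat_lit 0xbc0001780002fc1ab) b9262 (.one (nat_lit 6) (nat_lit 64) (nat_lit 25) (nat_lit 0xbc0001780002fcdbc) b9258 (.nil)))) (.one (nat_lit 56) (nat_lit 69) (nat_lit 31) (nat_lit 0xbc0001780002fc012) b9263 (.tok (nat_lit 68) (nat_lit 0xbc0001780002fd53e) (.hit (nat_lit 65) (nat_lit 26) (nat_lit 0xbc0001780002fcd30) b9259 (.hit (nat_lit 70) (nat_lit 32) (nat_lit 0xbc0001780002fbe92) b9264 (.one (nat_lit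 9) (nat_lit 66) (nat_lit 27) (nat_lit 0xbc0001780002fd53e) b9260 (.nil)))) (.nil)))))) (.nil))) (.tok (nat_lit 6) (nat_lit 0xbc000178000300000) (.hit (nat_lit 0) (nat_lit 0) (nat_lit 0xbc0001780002feaff) b9240 (.tok (nat_lit 6) (nat_lit 0xbc0001780002fffbd) (.hit (nat_lit 1) (nat_lit 7) (nat_lit 0xbc0001780002fd887) b9241 (.hit (nat_lit 6) (nat_lit 15) (nat_lit 0xbc0001780002fc60a) b9244 (.tok (nat_lit 14) (nat_lit 0xbc0001780002ff817) (.hit (nat_lit 2) (nat_lit 11) (nat_lit 0xbc0001780002ff817) b9242 (.hit (nat_lit 7) (nat_lit 17) (nat_lit 0xbc0001780002fe65c) b9245 (.one (nat_lit 9) (nat_lit 3) (nat_lit 12) (nat_lit 0xbc0001780002ff6cc) b9243 (.nil)))) (.tok (nat_lit 56) (nat_lit 0xbc0001780002fffbd) (.hit (nat_lit 4) (nat_lit 13) (nat_lit 0xbc0001780002fef99) b9609 (.hit (nat_lit 9) (nat_lit 19) (nat_lit 0xbc0001780002fd621) b9611 (.one (nat_lit 6) (nat_lit 5) (nat_lit 14)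 (nat_lit 0xbc0001780002fffbd) b9610 (.nil)))) (.nil))))) (.tok (nat_lit 52) (nat_lit 0xbc0001780002feaaa) (.hit (nat_lit 10) (nat_lit 39) (nat_lit 0xbc0001780002fdd77) b9247 (.hit (nat_lit 11) (nat_lit 40) (nat_lit 0xbc0001780002feaaa) b9248 (.nil))) (.tok (nat_lit 55) (nat_lit 0xbc000178000300000) (.hit (nat_lit 12) (nat_lit 41) (nat_lit 0xbc0001780002ff885) b9249 (.tok (nat_lit 3) (nat_lit 0xbc000178000300000) (.hit (nat_lit 18) (nat_lit 47) (nat_lit 0xbc0001780002fec8d) b9252 (.one (nat_lit 67) (nat_lit 19) (nat_lit 48) (nat_lit 0xbc000178000300000) b9253 (.nil))) (.tok (nat_lit 6) (nat_lit 0xbc0001780002ffc81) (.hit (nat_lit 13) (nat_lit 42) (nat_lit 0xbc0001780002fe0f2) b9250 (.hit (nat_lit 16) (nat_lit 45) (nat_lit 0xbc0001780002fece8) b9251 (.tok (nat_lit 55) (nat_lit 0xbc0001780002ffc81) (.hit (nat_lit 14) (nat_lit 43) (nat_lit 0xbc0001780002ff6bd) b9612 (.hit (nat_lit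 17) (nat_lit 46) (nat_lit 0xbc0001780002ffc81) b9614 (.one (nat_lit 6) (nat_lit 15) (nat_lit 44) (nat_lit 0xbc0001780002ff76a) b9613 (.nil)))) (.nil)))) (.nil)))) (.one (nat_lit 58) (nat_lit 20) (nat_lit 49) (nat_lit 0xbc0001780002fecd6) b9254 (.nil)))))) (.nil))
noncomputable def r15_155 : Rw Blk := .tok (nat_lit 3) (nat_lit 0x5e0000bc00017df87afdbee) (.hit (nat_lit 61) (nat_lit 0) (nat_lit 0x5e0000bc00017dcf0afd66d) b30036 (.tok (nat_lit 9) (nat_lit 0x5e0000bc00017df87afdbee) (.hit (nat_lit 62) (nat_lit 20) (nat_lit 0x5e0000bc00017cf792fbbd1) b30037 (.hit (nat_lit 67) (nat_lit 28) (nat_lit 0x5e0000bc00017d130afbf40) b30042 (.tok (nat_lit 14) (nat_lit 0x5e0000bc00017df87afdbee) (.hit (nat_lit 63) (nat_lit 24) (nat_lit 0x5e0000bc00017da402fd15f) b30038 (.hit (nat_lit 68) (nat_lit 30) (nat_lit 0x5e0000bc00017d8b8afce50) b30043 (.one (nat_lit 6) (nat_lit 64) (nat_lit 25) (nat_lit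 0x5e0000bc00017df87afdbee) b30039 (.nil)))) (.one (nat_lit 56) (nat_lit 69) (nat_lit 31) (nat_lit 0x5e0000bc00017dc4bafd576) b30044 (.tok (nat_lit 68) (nat_lit 0x5e0000bc00017dd22afd724) (.hit (nat_lit 65) (nat_lit 26) (nat_lit 0x5e0000bc00017db622fd3a3) b30040 (.hit (nat_lit 70) (nat_lit 32) (nat_lit 0x5e0000bc00017d9492fcf71) b30045 (.one (nat_lit 9) (nat_lit 66) (nat_lit 27) (nat_lit 0x5e0000bc00017dd22afd724) b30041 (.nil)))) (.nil)))))) (.nil))) (.tok (nat_lit 6) (nat_lit 0x5e0000bc0001800003013d7) (.hit (nat_lit 0) (nat_lit 0) (nat_lit 0x5e0000bc00017e3cc2fd8bd) b30016 (.tok (nat_lit 6) (nat_lit 0x5e0000bc00017ea82afec5e) (.hit (nat_lit 1) (nat_lit 7) (nat_lit 0x5e0000bc00017dde12fc802) b30017 (.hit (nat_lit 6) (nat_lit 15) (nat_lit 0x5e0000bc00017d734afc02d) b30022 (.tok (nat_lit 14) (nat_lit 0x5e0000bc00017ea82afec5e) (.hit (nat_lit 2) (nat_lit 11) (nat_lit 0x5e0000bc00017e63dafe420)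 b30018 (.hit (nat_lit 7) (nat_lit 17) (nat_lit 0x5e0000bc00017ea82afd776) b30023 (.one (nat_lit 9) (nat_lit 3) (nat_lit 12) (nat_lit 0x5e0000bc00017e5e1afec5e) b30019 (.nil)))) (.tok (nat_lit 56) (nat_lit 0x5e0000bc00017e5fb2fdfea) (.hit (nat_lit 4) (nat_lit 13) (nat_lit 0x5e0000bc00017e590afdeaa) b30020 (.hit (nat_lit 9) (nat_lit 19) (nat_lit 0x5e0000bc00017e57bafcdd7) b30024 (.one (nat_lit 6) (nat_lit 5) (nat_lit 14) (nat_lit 0x5e0000bc00017e5fb2fdfea) b30021 (.nil)))) (.nil))))) (.tok (nat_lit 52) (nat_lit 0x5e0000bc00017e8cb2fdf11) (.hit (nat_lit 10) (nat_lit 39) (nat_lit 0x5e0000bc00017e0c1afdf11) b30025 (.hit (nat_lit 11) (nat_lit 40) (nat_lit 0x5e0000bc00017e8cb2fdd6c) b30026 (.nil))) (.tok (nat_lit 55) (nat_lit 0x5e0000bc0001800003013d7) (.hit (nat_lit 12) (nat_lit 41) (nat_lit 0x5e0000bc00017eb8c2fefb0) b30027 (.tok (nat_lit 3) (nat_lit 0x5e0000bc00017ee12aff579) (.hit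 (nat_lit 18) (nat_lit 47) (nat_lit 0x5e0000bc00017e4b52fe141) b30033 (.one (nat_lit 67) (nat_lit 19) (nat_lit 48) (nat_lit 0x5e0000bc00017ee12aff579) b30034 (.nil))) (.tok (nat_lit 6) (nat_lit 0x5e0000bc0001800003013d7) (.hit (nat_lit 13) (nat_lit 42) (nat_lit 0x5e0000bc00017ee3d2ff113) b30028 (.hit (nat_lit 16) (nat_lit 45) (nat_lit 0x5e0000bc00017ec3dafdf55) b30031 (.tok (nat_lit 55) (nat_lit 0x5e0000bc0001800003013d7) (.hit (nat_lit 14) (nat_lit 43) (nat_lit 0x5e0000bc00017fc793013d7) b30029 (.hit (nat_lit 17) (nat_lit 46) (nat_lit 0x5e0000bc00017ea48afeade) b30032 (.one (nat_lit 6) (nat_lit 15) (nat_lit 44) (nat_lit 0x5e0000bc00018000030085f) b30030 (.nil)))) (.nil)))) (.nil)))) (.one (nat_lit 58) (nat_lit 20) (nat_lit 49) (nat_lit 0x5e0000bc00017e7f22fdee4) b30035 (.nil)))))) (.nil))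
noncomputable def r15_156 : Rw Blk := .tok (nat_lit 3) (nat_lit 0x2f00005e0000bf54f97f1bf2fe06d) (.hit (nat_lit 61) (nat_lit 0) (nat_lit 0x2f00005e0000bf48217e8b12fd569) b30066 (.tok (nat_lit 6) (nat_lit 0x2f00005e0000bf54f97f1bf2fe06d) (.hit (nat_lit 62) (nat_lit 7) (nat_lit 0x2f00005e0000beeed97e4fb2fc6e5) b30067 (.hit (nat_lit 67) (nat_lit 15) (nat_lit 0x2f00005e0000beb6517ddea2fb8c3) b30072 (.tok (nat_lit 14) (nat_lit 0x2f00005e0000bf36f17edfe2fd8eb) (.hit (nat_lit 63) (nat_lit 11) (nat_lit 0x2f00005e0000bef7257e604afc8f8) b30068 (.hit (nat_lit 68) (nat_lit 17) (nat_lit 0x2f00005e0000bf06ad7e7f5afccda) b30073 (.one (nat_lit 9) (nat_lit 64) (nat_lit 12) (nat_lit 0x2f00005e0000bf36f17edfe2fd8eb) b30069 (.nil)))) (.tok (nat_lit 56) (nat_lit 0x2f00005e0000bf54f97f1bf2fe06d) (.hit (nat_lit 65) (nat_lit 13) (nat_lit 0x2f00005e0000bf34c17edb82fd85f) b30070 (.hit (nat_lit 70) (nat_lit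 19) (nat_lit 0x2f00005e0000befa497e6692fc9c1) b30075 (.one (nat_lit 6) (nat_lit 66) (nat_lit 14) (nat_lit 0x2f00005e0000bf54f97f1bf2fe06d) b30071 (.nil)))) (.one (nat_lit 68) (nat_lit 69) (nat_lit 18) (nat_lit 0x2f00005e0000bf00497e7292fcb41) b30074 (.nil)))))) (.nil))) (.tok (nat_lit 9) (nat_lit 0x2f00005e0000c000018038e300000) (.hit (nat_lit 0) (nat_lit 0) (nat_lit 0x2f00005e0000bfabfd7ed4fafdc58) b30046 (.tok (nat_lit 9) (nat_lit 0x2f00005e0000bffef58038e300000) (.hit (nat_lit 1) (nat_lit 20) (nat_lit 0x2f00005e0000bf621d7ee9aafd2bf) b30047 (.hit (nat_lit 6) (nat_lit 28) (nat_lit 0x2f00005e0000bf18297deee2fbada) b30052 (.tok (nat_lit 14) (nat_lit 0x2f00005e0000bfe05d8038e2ff98c) (.hit (nat_lit 2) (nat_lit 24) (nat_lit 0x2f00005e0000bfe05d8038e2ff98c) b30048 (.hit (nat_lit 7) (nat_lit 30) (nat_lit 0x2f00005e0000bf99717ec142fdd60) b30053 (.one (nat_lit 6) (nat_lit 3) (nat_lit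 25) (nat_lit 0x2f00005e0000bfdb317ff0baff61b) b30049 (.nil)))) (.tok (nat_lit 68) (nat_lit 0x2f00005e0000bffef57f516300000) (.hit (nat_lit 4) (nat_lit 26) (nat_lit 0x2f00005e0000bfbe657f5162feb0a) b30050 (.hit (nat_lit 9) (nat_lit 32) (nat_lit 0x2f00005e0000bf58857e3d8afda3a) b30054 (.one (nat_lit 9) (nat_lit 5) (nat_lit 27) (nat_lit 0x2f00005e0000bffef57f4b8b00000) b30051 (.nil)))) (.nil))))) (.tok (nat_lit 64) (nat_lit 0x2f00005e0000bfaaa97f0d12fe263) (.hit (nat_lit 10) (nat_lit 50) (nat_lit 0x2f00005e0000bf75dd7ed68afdfe6) b30055 (.hit (nat_lit 11) (nat_lit 51) (nat_lit 0x2f00005e0000bfaaa97f0d12fe263) b30056 (.nil))) (.tok (nat_lit 67) (nat_lit 0x2f00005e0000c00001801c5affde5) (.hit (nat_lit 12) (nat_lit 52) (nat_lit 0x2f00005e0000bfe2157fcbd2ff20d) b30057 (.tok (nat_lit 3) (nat_lit 0x2f00005e0000c00001801c5affde5) (.hit (nat_lit 18) (nat_lit 58) (nat_lit 0x2f00005e0000bfb2357f73e2fe5ec)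 b30063 (.one (nat_lit 55) (nat_lit 19) (nat_lit 59) (nat_lit 0x2f00005e0000c00001801c5affde5) b30064 (.nil))) (.tok (nat_lit 9) (nat_lit 0x2f00005e0000bff2057fb1baff8f4) (.hit (nat_lit 13) (nat_lit 53) (nat_lit 0x2f00005e0000bf83c97f04c2fdf4f) b30058 (.hit (nat_lit 16) (nat_lit 56) (nat_lit 0x2f00005e0000bfb3a17f1fdafe71d) b30061 (.tok (nat_lit 67) (nat_lit 0x2f00005e0000bff2057fb1baff8f4) (.hit (nat_lit 14) (nat_lit 54) (nat_lit 0x2f00005e0000bfdaf57fb1baff3ca) b30059 (.hit (nat_lit 17) (nat_lit 57) (nat_lit 0x2f00005e0000bff2057f9582ff8f4) b30062 (.one (nat_lit 9) (nat_lit 15) (nat_lit 55) (nat_lit 0x2f00005e0000bfdda97fac22ff788) b30060 (.nil)))) (.nil)))) (.nil)))) (.one (nat_lit 70) (nat_lit 20) (nat_lit 60) (nat_lit 0x2f00005e0000bfb3597f2c4afe3a2) b30065 (.nil)))))) (.nil))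
noncomputable def r15_157 : Rw Blk := .tok (nat_lit 3) (nat_lit 0x5e0000bc00017df87afd8d3) (.hit (nat_lit 61) (nat_lit 0) (nat_lit 0x5e0000bc00017dcf0afd2f6) b30096 (.tok (nat_lit 6) (nat_lit 0x5e0000bc00017df87afd8d3) (.hit (nat_lit 62) (nat_lit 7) (nat_lit 0x5e0000bc00017cf792fb8b6) b30097 (.hit (nat_lit 67) (nat_lit 15) (nat_lit 0x5e0000bc00017d130afbc25) b30102 (.tok (nat_lit 14) (nat_lit 0x5e0000bc00017df87afd8d3) (.hit (nat_lit 63) (nat_lit 11) (nat_lit 0x5e0000bc00017da402fce44) b30098 (.hit (nat_lit 68) (nat_lit 17) (nat_lit 0x5e0000bc00017d8b8afcb35) b30103 (.one (nat_lit 9) (nat_lit 64) (nat_lit 12) (nat_lit 0x5e0000bc00017df87afd8d3) b30099 (.nil)))) (.tok (nat_lit 56) (nat_lit 0x5e0000bc00017dd22afd409) (.hit (nat_lit 65) (nat_lit 13) (nat_lit 0x5e0000bc00017db622fd088) b30100 (.hit (nat_lit 70) (nat_lit 19) (nat_lit 0x5e0000bc00017d9492fcc56) b30105 (.one (nat_lit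 6) (nat_lit 66) (nat_lit 14) (nat_lit 0x5e0000bc00017dd22afd409) b30101 (.nil)))) (.one (nat_lit 68) (nat_lit 69) (nat_lit 18) (nat_lit 0x5e0000bc00017dc4bafd25b) b30104 (.nil)))))) (.nil))) (.tok (nat_lit 9) (nat_lit 0x5e0000bc000180000300ec3) (.hit (nat_lit 0) (nat_lit 0) (nat_lit 0x5e0000bc00017e3cc2fd419) b30076 (.tok (nat_lit 9) (nat_lit 0x5e0000bc00017ea82afe8cc) (.hit (nat_lit 1) (nat_lit 20) (nat_lit 0x5e0000bc00017dde12fc4e7) b30077 (.hit (nat_lit 6) (nat_lit 28) (nat_lit 0x5e0000bc00017d734afbcb6) b30082 (.tok (nat_lit 14) (nat_lit 0x5e0000bc00017ea82afe8cc) (.hit (nat_lit 2) (nat_lit 24) (nat_lit 0x5e0000bc00017e63dafe0aa) b30078 (.hit (nat_lit 7) (nat_lit 30) (nat_lit 0x5e0000bc00017ea82afd3ff) b30083 (.one (nat_lit 6) (nat_lit 3) (nat_lit 25) (nat_lit 0x5e0000bc00017e5e1afe8cc) b30079 (.nil)))) (.tok (nat_lit 68) (nat_lit 0x5e0000bc00017e5fb2fdccf) (.hit (nat_lit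 4) (nat_lit 26) (nat_lit 0x5e0000bc00017e590afdb8f) b30080 (.hit (nat_lit 9) (nat_lit 32) (nat_lit 0x5e0000bc00017e57bafca60) b30084 (.one (nat_lit 9) (nat_lit 5) (nat_lit 27) (nat_lit 0x5e0000bc00017e5fb2fdccf) b30081 (.nil)))) (.nil))))) (.tok (nat_lit 64) (nat_lit 0x5e0000bc00017e8cb2fda51) (.hit (nat_lit 10) (nat_lit 50) (nat_lit 0x5e0000bc00017e0c1afd749) b30085 (.hit (nat_lit 11) (nat_lit 51) (nat_lit 0x5e0000bc00017e8cb2fda51) b30086 (.nil))) (.tok (nat_lit 67) (nat_lit 0x5e0000bc000180000300ec3) (.hit (nat_lit 12) (nat_lit 52) (nat_lit 0x5e0000bc00017eb8c2fea46) b30087 (.tok (nat_lit 3) (nat_lit 0x5e0000bc00017ee12afecab) (.hit (nat_lit 18) (nat_lit 58) (nat_lit 0x5e0000bc00017e4b52fde26) b30093 (.one (nat_lit 55) (nat_lit 19) (nat_lit 59) (nat_lit 0x5e0000bc00017ee12afecab) b30094 (.nil))) (.tok (nat_lit 9) (nat_lit 0x5e0000bc000180000300ec3) (.hit (nat_lit 13) (nat_lit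 53) (nat_lit 0x5e0000bc00017ee3d2fe55c) b30088 (.hit (nat_lit 16) (nat_lit 56) (nat_lit 0x5e0000bc00017ec3dafdc3a) b30091 (.tok (nat_lit 67) (nat_lit 0x5e0000bc000180000300ec3) (.hit (nat_lit 14) (nat_lit 54) (nat_lit 0x5e0000bc00017fc79300cb7) b30089 (.hit (nat_lit 17) (nat_lit 57) (nat_lit 0x5e0000bc00017ea48afe7c3) b30092 (.one (nat_lit 9) (nat_lit 15) (nat_lit 55) (nat_lit 0x5e0000bc000180000300ec3) b30090 (.nil)))) (.nil)))) (.nil)))) (.one (nat_lit 70) (nat_lit 20) (nat_lit 60) (nat_lit 0x5e0000bc00017e7f22fdbc9) b30095 (.nil)))))) (.nil))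
noncomputable def r15_158 : Rw Blk := .tok (nat_lit 3) (nat_lit 0x17ede4afc6905fbf80bf7b297ed22afdc4c) (.hit (nat_lit 0) (nat_lit 0) (nat_lit 0x17ede4afc6905fbf80bf7b297ed22afdc4c) b30106 (.tok (nat_lit 6) (nat_lit 0x17e74eafaf4d5fba52bf46797e34d2fce61) (.hit (nat_lit 1) (nat_lit 7) (nat_lit 0x17e74eafaf4d5fba52bf46797e34d2fce61) b30107 (.hit (nat_lit 6) (nat_lit 15) (nat_lit 0x17e6172facde5faa4abf3cbd7e215afcbf2) b30108 (.nil))) (.tok (nat_lit 9) (nat_lit 0x17e74eafaf4d5fba52bf46797e34d2fce61) (.hit (nat_lit 10) (nat_lit 20) (nat_lit 0x17e74eafaf4d5fba52bf46797e34d2fce61) b30107 (.hit (nat_lit 15) (nat_lit 28) (nat_lit 0x17e6172facde5faa4abf3cbd7e215afcbf2) b30108 (.nil))) (.nil)))) (.tok (nat_lit 6) (nat_lit 0x180000300000600000c0000180000300000) (.hit (nat_lit 81) (nat_lit 0) (nat_lit 0x17f9062fddea5fd660bfbd117f856afeeeb) b30109 (.tok (nat_lit 3) (nat_lit 0x17f90d2fd4745fe28abfc1b17f9262ff1f3)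 (.hit (nat_lit 82) (nat_lit 1) (nat_lit 0x17eb84afba075fb764bf53c57eb692fd530) b30110 (.one (nat_lit 67) (nat_lit 83) (nat_lit 2) (nat_lit 0x17f90d2fd4745fe28abfc1b17f9262ff1f3) b30111 (.nil))) (.tok (nat_lit 6) (nat_lit 0x180000300000600000c0000180000300000) (.hit (nat_lit 87) (nat_lit 7) (nat_lit 0x17f57f2fd8445fd1d2bf8ab97f2df2fe2fa) b30112 (.hit (nat_lit 95) (nat_lit 15) (nat_lit 0x17ec9fafb9a15fa7babf5a497ec39afd6f2) b30116 (.tok (nat_lit 55) (nat_lit 0x180000300000600000c0000180000300000) (.hit (nat_lit 88) (nat_lit 8) (nat_lit 0x17ff622fe7f45fe1debff7217fed0affde6) b30113 (.hit (nat_lit 96) (nat_lit 16) (nat_lit 0x17f8ebafd6225fde6ebfc91d7fa142ff4a6) b30117 (.tok (nat_lit 6) (nat_lit 0x180000300000600000c0000180000300000) (.hit (nat_lit 89) (nat_lit 9) (nat_lit 0x17fa04afefc75fe4a4bfcac57f9e92ff312) b30114 (.one (nat_lit 55) (nat_lit 90) (nat_lit 10) (nat_lit 0x180000300000600000c0000180000300000)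 b30115 (.nil))) (.nil)))) (.nil)))) (.nil)))) (.tok (nat_lit 9) (nat_lit 0x17f90d2fddea5fe28abff1c97fcb22ff4e8) (.hit (nat_lit 157) (nat_lit 0) (nat_lit 0x17f9062fddea5fd660bfe3e17fbdf2ff343) b30118 (.tok (nat_lit 3) (nat_lit 0x17f90d2fd4745fe28abff1c97fcb22ff4e8) (.hit (nat_lit 158) (nat_lit 1) (nat_lit 0x17eb84afba075fb764bf7c8d7eef4afd96e) b30119 (.one (nat_lit 55) (nat_lit 159) (nat_lit 3) (nat_lit 0x17f90d2fd4745fe28abff1c97fcb22ff4e8) b30120 (.nil))) (.tok (nat_lit 9) (nat_lit 0x17f57f2fd8445fd1d2bfb5d17f5e12fe747) (.hit (nat_lit 163) (nat_lit 20) (nat_lit 0x17f57f2fd8445fd1d2bfb5d17f5e12fe747) b30121 (.hit (nat_lit 171) (nat_lit 28) (nat_lit 0x17ec9fafb9a15fa7babf83117efc52fdb0f) b30122 (.nil))) (.nil)))) (.nil)))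
noncomputable def r15_159 : Rw Blk := .tok (nat_lit 6) (nat_lit 0xbc0001780002ffecc) (.hit (nat_lit 51) (nat_lit 0) (nat_lit 0xbc0001780002ff743) b8943 (.tok (nat_lit 3) (nat_lit 0xbc0001780002ffecc) (.hit (nat_lit 52) (nat_lit 1) (nat_lit 0xbc0001780002fdccb) b8944 (.one (nat_lit 14) (nat_lit 53) (nat_lit 4) (nat_lit 0xbc0001780002ffecc) b9239 (.one (nat_lit 56) (nat_lit 55) (nat_lit 6) (nat_lit 0xbc0001780002ff720) b8945 (.one (nat_lit 68) (nat_lit 54) (nat_lit 5) (nat_lit 0xbc0001780002fef3e) b8946 (.nil))))) (.nil))) (.tok (nat_lit 9) (nat_lit 0xbc000178000300000) (.hit (nat_lit 0) (nat_lit 0) (nat_lit 0xbc0001780002ff743) b8943 (.tok (nat_lit 3) (nat_lit 0xbc0001780002ffecc) (.hit (nat_lit 1) (nat_lit 1) (nat_lit 0xbc0001780002fdccb) b8944 (.one (nat_lit 14) (nat_lit 2) (nat_lit 4) (nat_lit 0xbc0001780002ffecc) b9239 (.one (nat_lit 56) (nat_lit 4) (nat_lit 6) (nat_lit 0xbc0001780002fef3e)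 b8946 (.one (nat_lit 68) (nat_lit 3) (nat_lit 5) (nat_lit 0xbc0001780002ff720) b8945 (.nil))))) (.tok (nat_lit 40) (nat_lit 0xbc0001780002ff5de) (.hit (nat_lit 5) (nat_lit 33) (nat_lit 0xbc0001780002ff5de) b8947 (.hit (nat_lit 6) (nat_lit 34) (nat_lit 0xbc0001780002ff3d8) b8948 (.nil))) (.tok (nat_lit 43) (nat_lit 0xbc0001780002ffbd8) (.hit (nat_lit 7) (nat_lit 35) (nat_lit 0xbc0001780002fe56f) b8949 (.hit (nat_lit 8) (nat_lit 36) (nat_lit 0xbc0001780002ffbd8) b8950 (.nil))) (.tok (nat_lit 46) (nat_lit 0xbc000178000300000) (.hit (nat_lit 9) (nat_lit 37) (nat_lit 0xbc000178000300000) b8951 (.hit (nat_lit 10) (nat_lit 38) (nat_lit 0xbc0001780002ff6ae) b8952 (.nil))) (.nil)))))) (.nil))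
noncomputable def r15_160 : Rw Blk := .tok (nat_lit 3) (nat_lit 0xbc0001780002fddcf) (.hit (nat_lit 61) (nat_lit 0) (nat_lit 0xbc0001780002fd208) b9255 (.tok (nat_lit 9) (nat_lit 0xbc0001780002fcdbc) (.hit (nat_lit 62) (nat_lit 20) (nat_lit 0xbc0001780002fbbb6) b9256 (.hit (nat_lit 67) (nat_lit 28) (nat_lit 0xbc0001780002fad94) b9261 (.tok (nat_lit 14) (nat_lit 0xbc0001780002fcdbc) (.hit (nat_lit 63) (nat_lit 24) (nat_lit 0xbc0001780002fbdc9) b9257 (.hit (nat_lit 68) (nat_lit 30) (nat_lit 0xbc0001780002fc1ab) b9262 (.one (nat_lit 6) (nat_lit 64) (nat_lit 25) (nat_lit 0xbc0001780002fcdbc) b9258 (.nil)))) (.one (nat_lit 56) (nat_lit 69) (nat_lit 31) (nat_lit 0xbc0001780002fc012) b9263 (.nil))))) (.tok (nat_lit 64) (nat_lit 0xbc0001780002fc6cc) (.hit (nat_lit 71) (nat_lit 50) (nat_lit 0xbc0001780002fbf49) b9265 (.hit (nat_lit 72) (nat_lit 51) (nat_lit 0xbc0001780002fc6cc) b9266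 (.nil))) (.tok (nat_lit 67) (nat_lit 0xbc0001780002fddcf) (.hit (nat_lit 73) (nat_lit 52) (nat_lit 0xbc0001780002fdd53) b9267 (.tok (nat_lit 3) (nat_lit 0xbc0001780002fddcf) (.hit (nat_lit 79) (nat_lit 58) (nat_lit 0xbc0001780002fd372) b9273 (.one (nat_lit 55) (nat_lit 80) (nat_lit 59) (nat_lit 0xbc0001780002fddcf) b9274 (.nil))) (.tok (nat_lit 9) (nat_lit 0xbc0001780002fcbbd) (.hit (nat_lit 74) (nat_lit 53) (nat_lit 0xbc0001780002fc8b0) b9268 (.hit (nat_lit 77) (nat_lit 56) (nat_lit 0xbc0001780002fcbbd) b9271 (.nil))) (.nil)))) (.one (nat_lit 70) (nat_lit 81) (nat_lit 60) (nat_lit 0xbc0001780002fc77b) b9275 (.nil)))))) (.tok (nat_lit 6) (nat_lit 0xbc000178000300000) (.hit (nat_lit 0) (nat_lit 0) (nat_lit 0xbc0001780002feaff) b9240 (.tok (nat_lit 6) (nat_lit 0xbc0001780002fffbd) (.hit (nat_lit 1) (nat_lit 7) (nat_lit 0xbc0001780002fd887) b9241 (.hit (nat_lit 6) (nat_lit 15) (nat_lit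 0xbc0001780002fc60a) b9244 (.tok (nat_lit 14) (nat_lit 0xbc0001780002ff817) (.hit (nat_lit 2) (nat_lit 11) (nat_lit 0xbc0001780002ff817) b9242 (.hit (nat_lit 7) (nat_lit 17) (nat_lit 0xbc0001780002fe65c) b9245 (.one (nat_lit 9) (nat_lit 3) (nat_lit 12) (nat_lit 0xbc0001780002ff6cc) b9243 (.nil)))) (.tok (nat_lit 56) (nat_lit 0xbc0001780002fffbd) (.hit (nat_lit 4) (nat_lit 13) (nat_lit 0xbc0001780002fef99) b9609 (.hit (nat_lit 9) (nat_lit 19) (nat_lit 0xbc0001780002fd621) b9611 (.one (nat_lit 6) (nat_lit 5) (nat_lit 14) (nat_lit 0xbc0001780002fffbd) b9610 (.nil)))) (.one (nat_lit 68) (nat_lit 8) (nat_lit 18) (nat_lit 0xbc0001780002fdb1d) b9246 (.nil)))))) (.tok (nat_lit 52) (nat_lit 0xbc0001780002feaaa) (.hit (nat_lit 10) (nat_lit 39) (nat_lit 0xbc0001780002fdd77) b9247 (.hit (nat_lit 11) (nat_lit 40) (nat_lit 0xbc0001780002feaaa) b9248 (.nil))) (.tok (nat_lit 55) (nat_lit 0xbc000178000300000)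 (.hit (nat_lit 12) (nat_lit 41) (nat_lit 0xbc0001780002ff885) b9249 (.tok (nat_lit 3) (nat_lit 0xbc000178000300000) (.hit (nat_lit 18) (nat_lit 47) (nat_lit 0xbc0001780002fec8d) b9252 (.one (nat_lit 67) (nat_lit 19) (nat_lit 48) (nat_lit 0xbc000178000300000) b9253 (.nil))) (.tok (nat_lit 6) (nat_lit 0xbc0001780002ffc81) (.hit (nat_lit 13) (nat_lit 42) (nat_lit 0xbc0001780002fe0f2) b9250 (.hit (nat_lit 16) (nat_lit 45) (nat_lit 0xbc0001780002fece8) b9251 (.tok (nat_lit 55) (nat_lit 0xbc0001780002ffc81) (.hit (nat_lit 14) (nat_lit 43) (nat_lit 0xbc0001780002ff6bd) b9612 (.hit (nat_lit 17) (nat_lit 46) (nat_lit 0xbc0001780002ffc81) b9614 (.one (nat_lit 6) (nat_lit 15) (nat_lit 44) (nat_lit 0xbc0001780002ff76a) b9613 (.nil)))) (.nil)))) (.nil)))) (.one (nat_lit 58) (nat_lit 20) (nat_lit 49) (nat_lit 0xbc0001780002fecd6) b9254 (.nil)))))) (.nil))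
noncomputable def r15_161 : Rw Blk := .tok (nat_lit 3) (nat_lit 0xbc0001780002fd5f6) (.hit (nat_lit 61) (nat_lit 0) (nat_lit 0xbc0001780002fc19c) b30144 (.tok (nat_lit 9) (nat_lit 0xbc0001780002fc6ca) (.hit (nat_lit 62) (nat_lit 20) (nat_lit 0xbc0001780002fa6ad) b30145 (.hit (nat_lit 67) (nat_lit 28) (nat_lit 0xbc0001780002faa1c) b30148 (.tok (nat_lit 14) (nat_lit 0xbc0001780002fc6ca) (.hit (nat_lit 63) (nat_lit 24) (nat_lit 0xbc0001780002fbc3b) b30146 (.hit (nat_lit 68) (nat_lit 30) (nat_lit 0xbc0001780002fb92c) b30149 (.one (nat_lit 6) (nat_lit 64) (nat_lit 25) (nat_lit 0xbc0001780002fc6ca) b30147 (.nil)))) (.one (nat_lit 56) (nat_lit 69) (nat_lit 31) (nat_lit 0xbc0001780002fc052) b30150 (.nil))))) (.tok (nat_lit 64) (nat_lit 0xbc0001780002fc46b) (.hit (nat_lit 71) (nat_lit 50) (nat_lit 0xbc0001780002fbd35) b30151 (.hit (nat_lit 72) (nat_lit 51) (nat_lit 0xbc0001780002fc46b)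 b30152 (.nil))) (.tok (nat_lit 67) (nat_lit 0xbc0001780002fd5f6) (.hit (nat_lit 73) (nat_lit 52) (nat_lit 0xbc0001780002fd407) b30153 (.tok (nat_lit 3) (nat_lit 0xbc0001780002fd44e) (.hit (nat_lit 79) (nat_lit 58) (nat_lit 0xbc0001780002fcc9c) b30156 (.one (nat_lit 55) (nat_lit 80) (nat_lit 59) (nat_lit 0xbc0001780002fd44e) b30157 (.nil))) (.tok (nat_lit 9) (nat_lit 0xbc0001780002fd5f6) (.hit (nat_lit 74) (nat_lit 53) (nat_lit 0xbc0001780002fd5f6) b30154 (.hit (nat_lit 77) (nat_lit 56) (nat_lit 0xbc0001780002fc357) b30155 (.nil))) (.nil)))) (.one (nat_lit 70) (nat_lit 81) (nat_lit 60) (nat_lit 0xbc0001780002fc3fb) b30158 (.nil)))))) (.tok (nat_lit 6) (nat_lit 0xbc0001780003007bb) (.hit (nat_lit 0) (nat_lit 0) (nat_lit 0xbc0001780002fcf53) b30123 (.tok (nat_lit 6) (nat_lit 0xbc0001780002fdcc0) (.hit (nat_lit 1) (nat_lit 7) (nat_lit 0xbc0001780002fc37d) b30124 (.hit (nat_lit 6)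 (nat_lit 15) (nat_lit 0xbc0001780002fb624) b30129 (.tok (nat_lit 14) (nat_lit 0xbc0001780002fdcc0) (.hit (nat_lit 2) (nat_lit 11) (nat_lit 0xbc0001780002fd436) b30125 (.hit (nat_lit 7) (nat_lit 17) (nat_lit 0xbc0001780002fdcc0) b30130 (.one (nat_lit 9) (nat_lit 3) (nat_lit 12) (nat_lit 0xbc0001780002fd37e) b30126 (.nil)))) (.tok (nat_lit 56) (nat_lit 0xbc0001780002fd3b1) (.hit (nat_lit 4) (nat_lit 13) (nat_lit 0xbc0001780002fd2dc) b30127 (.hit (nat_lit 9) (nat_lit 19) (nat_lit 0xbc0001780002fd2b2) b30132 (.one (nat_lit 6) (nat_lit 5) (nat_lit 14) (nat_lit 0xbc0001780002fd3b1) b30128 (.nil)))) (.one (nat_lit 68) (nat_lit 8) (nat_lit 18) (nat_lit 0xbc0001780002fd30e) b30131 (.nil)))))) (.tok (nat_lit 52) (nat_lit 0xbc0001780002fd951) (.hit (nat_lit 10) (nat_lit 39) (nat_lit 0xbc0001780002fc93e) b30133 (.hit (nat_lit 11) (nat_lit 40) (nat_lit 0xbc0001780002fd951) b30134 (.nil)))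 (.tok (nat_lit 55) (nat_lit 0xbc0001780003007bb) (.hit (nat_lit 12) (nat_lit 41) (nat_lit 0xbc0001780002fded3) b30135 (.tok (nat_lit 3) (nat_lit 0xbc0001780002fe3e0) (.hit (nat_lit 18) (nat_lit 47) (nat_lit 0xbc0001780002fd125) b30141 (.one (nat_lit 67) (nat_lit 19) (nat_lit 48) (nat_lit 0xbc0001780002fe3e0) b30142 (.nil))) (.tok (nat_lit 6) (nat_lit 0xbc0001780003007bb) (.hit (nat_lit 13) (nat_lit 42) (nat_lit 0xbc0001780002fe435) b30136 (.hit (nat_lit 16) (nat_lit 45) (nat_lit 0xbc0001780002fe036) b30139 (.tok (nat_lit 55) (nat_lit 0xbc0001780003007bb) (.hit (nat_lit 14) (nat_lit 43) (nat_lit 0xbc0001780003000ad) b30137 (.hit (nat_lit 17) (nat_lit 46) (nat_lit 0xbc0001780002fdc4c) b30140 (.one (nat_lit 6) (nat_lit 15) (nat_lit 44) (nat_lit 0xbc0001780003007bb) b30138 (.nil)))) (.nil)))) (.nil)))) (.one (nat_lit 58) (nat_lit 20) (nat_lit 49) (nat_lit 0xbc0001780002fd79f) b30143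 (.nil)))))) (.nil))
noncomputable def r15_162 : Rw Blk := .tok (nat_lit 3) (nat_lit 0xbc0001780002fde12) (.hit (nat_lit 61) (nat_lit 0) (nat_lit 0xbc0001780002fd24b) b8970 (.tok (nat_lit 6) (nat_lit 0xbc0001780002fd581) (.hit (nat_lit 62) (nat_lit 7) (nat_lit 0xbc0001780002fbbf9) b8971 (.hit (nat_lit 67) (nat_lit 15) (nat_lit 0xbc0001780002fadd7) b8974 (.tok (nat_lit 14) (nat_lit 0xbc0001780002fcdff) (.hit (nat_lit 63) (nat_lit 11) (nat_lit 0xbc0001780002fbe0c) b9665 (.hit (nat_lit 68) (nat_lit 17) (nat_lit 0xbc0001780002fc1ee) b9667 (.one (nat_lit 9) (nat_lit 64) (nat_lit 12) (nat_lit 0xbc0001780002fcdff) b9666 (.nil)))) (.tok (nat_lit 56) (nat_lit 0xbc0001780002fd581) (.hit (nat_lit 65) (nat_lit 13) (nat_lit 0xbc0001780002fcd73) b8972 (.hit (nat_lit 70) (nat_lit 19) (nat_lit 0xbc0001780002fbed5) b8976 (.one (nat_lit 6) (nat_lit 66) (nat_lit 14) (nat_lit 0xbc0001780002fd581)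 b8973 (.nil)))) (.nil))))) (.tok (nat_lit 52) (nat_lit 0xbc0001780002fc70f) (.hit (nat_lit 71) (nat_lit 39) (nat_lit 0xbc0001780002fbf8c) b8977 (.hit (nat_lit 72) (nat_lit 40) (nat_lit 0xbc0001780002fc70f) b8978 (.nil))) (.tok (nat_lit 55) (nat_lit 0xbc0001780002fde12) (.hit (nat_lit 73) (nat_lit 41) (nat_lit 0xbc0001780002fdd96) b8979 (.tok (nat_lit 3) (nat_lit 0xbc0001780002fde12) (.hit (nat_lit 79) (nat_lit 47) (nat_lit 0xbc0001780002fd3b5) b8985 (.one (nat_lit 67) (nat_lit 80) (nat_lit 48) (nat_lit 0xbc0001780002fde12) b9668 (.nil))) (.tok (nat_lit 6) (nat_lit 0xbc0001780002fd8c9) (.hit (nat_lit 74) (nat_lit 42) (nat_lit 0xbc0001780002fc8f3) b8980 (.hit (nat_lit 77) (nat_lit 45) (nat_lit 0xbc0001780002fcc00) b8983 (.tok (nat_lit 55) (nat_lit 0xbc0001780002fd8c9) (.hit (nat_lit 75) (nat_lit 43) (nat_lit 0xbc0001780002fd809) b8981 (.hit (nat_lit 78) (nat_lit 46) (nat_lit 0xbc0001780002fd8c9)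 b8984 (.one (nat_lit 6) (nat_lit 76) (nat_lit 44) (nat_lit 0xbc0001780002fd3cd) b8982 (.nil)))) (.nil)))) (.nil)))) (.one (nat_lit 58) (nat_lit 81) (nat_lit 49) (nat_lit 0xbc0001780002fc7be) b8986 (.nil)))))) (.tok (nat_lit 9) (nat_lit 0xbc000178000300000) (.hit (nat_lit 0) (nat_lit 0) (nat_lit 0xbc0001780002feb42) b8953 (.tok (nat_lit 9) (nat_lit 0xbc000178000300000) (.hit (nat_lit 1) (nat_lit 20) (nat_lit 0xbc0001780002fd8ca) b8954 (.hit (nat_lit 6) (nat_lit 28) (nat_lit 0xbc0001780002fc64d) b8957 (.tok (nat_lit 14) (nat_lit 0xbc0001780002ff85a) (.hit (nat_lit 2) (nat_lit 24) (nat_lit 0xbc0001780002ff85a) b9662 (.hit (nat_lit 7) (nat_lit 30) (nat_lit 0xbc0001780002fe69f) b9664 (.one (nat_lit 6) (nat_lit 3) (nat_lit 25) (nat_lit 0xbc0001780002ff70f) b9663 (.nil)))) (.one (nat_lit 56) (nat_lit 8) (nat_lit 31) (nat_lit 0xbc0001780002fdb60) b8958 (.tok (nat_lit 68) (nat_lit 0xbc000178000300000)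 (.hit (nat_lit 4) (nat_lit 26) (nat_lit 0xbc0001780002fefdc) b8955 (.hit (nat_lit 9) (nat_lit 32) (nat_lit 0xbc0001780002fd664) b8959 (.one (nat_lit 9) (nat_lit 5) (nat_lit 27) (nat_lit 0xbc000178000300000) b8956 (.nil)))) (.nil)))))) (.nil))) (.nil))
noncomputable def r15_163 : Rw Blk := .tok (nat_lit 3) (nat_lit 0xbc000178000300000) (.hit (nat_lit 61) (nat_lit 0) (nat_lit 0xbc0001780002fe458) b9679 (.tok (nat_lit 6) (nat_lit 0xbc0001780002fe986) (.hit (nat_lit 62) (nat_lit 7) (nat_lit 0xbc0001780002fc969) b9680 (.hit (nat_lit 67) (nat_lit 15) (nat_lit 0xbc0001780002fccd8) b9685 (.tok (nat_lit 14) (nat_lit 0xbc0001780002fe986) (.hit (nat_lit 63) (nat_lit 11) (nat_lit 0xbc0001780002fdef7) b9681 (.hit (nat_lit 68) (nat_lit 17) (nat_lit 0xbc0001780002fdbe8) b9686 (.one (nat_lit 9) (nat_lit 64) (nat_lit 12) (nat_lit 0xbc0001780002fe986) b9682 (.nil)))) (.tok (nat_lit 56) (nat_lit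 0xbc0001780002fe4bc) (.hit (nat_lit 65) (nat_lit 13) (nat_lit 0xbc0001780002fe13b) b9683 (.hit (nat_lit 70) (nat_lit 19) (nat_lit 0xbc0001780002fdd09) b9687 (.one (nat_lit 6) (nat_lit 66) (nat_lit 14) (nat_lit 0xbc0001780002fe4bc) b9684 (.nil)))) (.nil))))) (.tok (nat_lit 52) (nat_lit 0xbc0001780002fe727) (.hit (nat_lit 71) (nat_lit 39) (nat_lit 0xbc0001780002fdff1) b9688 (.hit (nat_lit 72) (nat_lit 40) (nat_lit 0xbc0001780002fe727) b9689 (.nil))) (.tok (nat_lit 55) (nat_lit 0xbc000178000300000) (.hit (nat_lit 73) (nat_lit 41) (nat_lit 0xbc0001780002ff6c3) b9690 (.tok (nat_lit 3) (nat_lit 0xbc0001780002ff70a) (.hit (nat_lit 79) (nat_lit 47) (nat_lit 0xbc0001780002fef58) b9696 (.one (nat_lit 67) (nat_lit 80) (nat_lit 48) (nat_lit 0xbc0001780002ff70a) b9697 (.nil))) (.tok (nat_lit 6) (nat_lit 0xbc000178000300000) (.hit (nat_lit 74) (nat_lit 42) (nat_lit 0xbc0001780002ff8b2) b9691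 (.hit (nat_lit 77) (nat_lit 45) (nat_lit 0xbc0001780002fe613) b9694 (.tok (nat_lit 55) (nat_lit 0xbc000178000300000) (.hit (nat_lit 75) (nat_lit 43) (nat_lit 0xbc000178000300000) b9692 (.hit (nat_lit 78) (nat_lit 46) (nat_lit 0xbc0001780002ff758) b9695 (.one (nat_lit 6) (nat_lit 76) (nat_lit 44) (nat_lit 0xbc0001780002ff868) b9693 (.nil)))) (.nil)))) (.nil)))) (.one (nat_lit 58) (nat_lit 81) (nat_lit 49) (nat_lit 0xbc0001780002fe6b7) b9698 (.nil)))))) (.tok (nat_lit 9) (nat_lit 0xbc0001780002fff7c) (.hit (nat_lit 0) (nat_lit 0) (nat_lit 0xbc0001780002ff20f) b9669 (.tok (nat_lit 9) (nat_lit 0xbc0001780002fff7c) (.hit (nat_lit 1) (nat_lit 20) (nat_lit 0xbc0001780002fe639) b9670 (.hit (nat_lit 6) (nat_lit 28) (nat_lit 0xbc0001780002fd8e0) b9675 (.tok (nat_lit 14) (nat_lit 0xbc0001780002fff7c) (.hit (nat_lit 2) (nat_lit 24) (nat_lit 0xbc0001780002ff6f2) b9671 (.hit (nat_lit 7) (nat_lit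 30) (nat_lit 0xbc0001780002fff7c) b9676 (.one (nat_lit 6) (nat_lit 3) (nat_lit 25) (nat_lit 0xbc0001780002ff63a) b9672 (.nil)))) (.one (nat_lit 56) (nat_lit 8) (nat_lit 31) (nat_lit 0xbc0001780002ff5ca) b9677 (.tok (nat_lit 68) (nat_lit 0xbc0001780002ff66d) (.hit (nat_lit 4) (nat_lit 26) (nat_lit 0xbc0001780002ff598) b9673 (.hit (nat_lit 9) (nat_lit 32) (nat_lit 0xbc0001780002ff56e) b9678 (.one (nat_lit 9) (nat_lit 5) (nat_lit 27) (nat_lit 0xbc0001780002ff66d) b9674 (.nil)))) (.nil)))))) (.nil))) (.nil))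
noncomputable def r15_164 : Rw Blk := .tok (nat_lit 3) (nat_lit 0x5fb792bf1a417efe02fe0885fc566bf69bd7f2a82fdc8f) (.hit (nat_lit 0) (nat_lit 0) (nat_lit 0x5fb792bf1a417efe02fe0885fc566bf69bd7f2a82fdc8f) b30159 (.tok (nat_lit 6) (nat_lit 0x5f9d3abebd357ee94afcc695f7700bf0fad7e4182fd19e) (.hit (nat_lit 1) (nat_lit 7) (nat_lit 0x5f9d3abebd357ee94afcc695f7700bf0fad7e4182fd19e) b30160 (.hit (nat_lit 6) (nat_lit 15) (nat_lit 0x5f985cbeb3797ea92afc9fa5f7222bf05f17e2e0afcf2f) b30161 (.nil))) (.tok (nat_lit 9) (nat_lit 0x5f9d3abebd357ee94afcc695f7700bf0fad7e4182fd19e) (.hit (nat_lit 10) (nat_lit 20) (nat_lit 0x5f9d3abebd357ee94afcc695f7700bf0fad7e4182fd19e) b30160 (.hit (nat_lit 15) (nat_lit 28) (nat_lit 0x5f985cbeb3797ea92afc9fa5f7222bf05f17e2e0afcf2f) b30161 (.nil))) (.nil)))) (.tok (nat_lit 6) (nat_lit 0x5fe434bf77a97f8a2affc395fd0f0bfdfa17fd01aff753) (.hit (nat_lit 81) (nat_lit 0)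 (nat_lit 0x5fe418bf77a97f5982ffab65fd0f0bfdfa17fc4b2ff753) b30162 (.tok (nat_lit 3) (nat_lit 0x5fe434bf51d17f8a2affc395f9848bfcdb97fd01aff495) (.hit (nat_lit 82) (nat_lit 1) (nat_lit 0x5fae12bee81d7edd92fe0e15f66ecbf784d7f1fe2fd9b1) b30163 (.one (nat_lit 67) (nat_lit 83) (nat_lit 2) (nat_lit 0x5fe434bf51d17f8a2affc395f9848bfcdb97fd01aff495) b30164 (.nil))) (.tok (nat_lit 6) (nat_lit 0x5fd5fcbf61117f474aff06a5f8d64bfafb17fa262fe78a) (.hit (nat_lit 87) (nat_lit 7) (nat_lit 0x5fd5fcbf61117f474aff06a5f8d64bfafb17fa262fe78a) b30165 (.hit (nat_lit 95) (nat_lit 15) (nat_lit 0x5fb27ebee6857e9eeafe2825f55fcbf7ed17f2ceafdb52) b30166 (.nil))) (.nil)))) (.tok (nat_lit 9) (nat_lit 0x600000c000018000030000060161ec0000180000300000) (.hit (nat_lit 157) (nat_lit 0) (nat_lit 0x5fe418bf77a97f5982ff1025fe106bfbddd7f95eafef2c) b30167 (.tok (nat_lit 3) (nat_lit 0x5fe434bf51d17f8a2aff2296002f0bfc9d97fcc7aff0e8)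 (.hit (nat_lit 158) (nat_lit 1) (nat_lit 0x5fae12bee81d7edd92fd6af5fbf3ebf5bf17ef0aafd557) b30168 (.one (nat_lit 55) (nat_lit 159) (nat_lit 3) (nat_lit 0x5fe434bf51d17f8a2aff2296002f0bfc9d97fcc7aff0e8) b30169 (.nil))) (.tok (nat_lit 9) (nat_lit 0x600000c000018000030000060161ec0000180000300000) (.hit (nat_lit 163) (nat_lit 20) (nat_lit 0x5fd5fcbf61117f474afe46c5fda8cbf983d7f7342fe330) b30170 (.hit (nat_lit 171) (nat_lit 28) (nat_lit 0x5fb27ebee6857e9eeafd8505fc28cbf62757efdb2fd6f9) b30174 (.tok (nat_lit 67) (nat_lit 0x600000c000018000030000060161ec0000180000300000) (.hit (nat_lit 164) (nat_lit 21) (nat_lit 0x5ffd88bf9fd17f877affbb05ff78cc000017fd802ffa50) b30171 (.hit (nat_lit 172) (nat_lit 29) (nat_lit 0x5fe3aebf58897f79baff4055ff778bfd1497fdb5aff319) b30175 (.tok (nat_lit 9) (nat_lit 0x600000c000018000030000060161ebfe91180000300000) (.hit (nat_lit 165) (nat_lit 22) (nat_lit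 0x5fe812bfbf1d7f9292ff3af600354bfcff17fd9caff2b1) b30172 (.one (nat_lit 67) (nat_lit 166) (nat_lit 23) (nat_lit 0x600000c000018000030000060161ebfe91180000300000) b30173 (.nil))) (.nil)))) (.nil)))) (.nil)))) (.nil)))
noncomputable def r15_165 : Rw Blk := .tok (nat_lit 6) (nat_lit 0xbc000178000300000) (.hit (nat_lit 51) (nat_lit 0) (nat_lit 0xbc0001780002ff743) b8943 (.tok (nat_lit 3) (nat_lit 0xbc0001780002ffecc) (.hit (nat_lit 52) (nat_lit 1) (nat_lit 0xbc0001780002fdccb) b8944 (.one (nat_lit 14) (nat_lit 53) (nat_lit 4) (nat_lit 0xbc0001780002ffecc) b9239 (.one (nat_lit 56) (nat_lit 55) (nat_lit 6) (nat_lit 0xbc0001780002ff720) b8945 (.one (nat_lit 68) (nat_lit 54) (nat_lit 5) (nat_lit 0xbc0001780002fef3e) b8946 (.nil))))) (.tok (nat_lit 40) (nat_lit 0xbc0001780002ff5de) (.hit (nat_lit 56) (nat_lit 33) (nat_lit 0xbc0001780002ff5de) b8947 (.hit (nat_lit 57) (nat_lit 34) (nat_lit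 0xbc0001780002ff3d8) b8948 (.nil))) (.tok (nat_lit 43) (nat_lit 0xbc000178000300000) (.hit (nat_lit 58) (nat_lit 35) (nat_lit 0xbc000178000300000) b8951 (.hit (nat_lit 59) (nat_lit 36) (nat_lit 0xbc0001780002ff6ae) b8952 (.nil))) (.tok (nat_lit 46) (nat_lit 0xbc0001780002ffbd8) (.hit (nat_lit 60) (nat_lit 37) (nat_lit 0xbc0001780002fe56f) b8949 (.hit (nat_lit 61) (nat_lit 38) (nat_lit 0xbc0001780002ffbd8) b8950 (.nil))) (.nil)))))) (.tok (nat_lit 9) (nat_lit 0xbc0001780002ffecc) (.hit (nat_lit 0) (nat_lit 0) (nat_lit 0xbc0001780002ff743) b8943 (.tok (nat_lit 3) (nat_lit 0xbc0001780002ffecc) (.hit (nat_lit 1) (nat_lit 1) (nat_lit 0xbc0001780002fdccb) b8944 (.one (nat_lit 14) (nat_lit 2) (nat_lit 4) (nat_lit 0xbc0001780002ffecc) b9239 (.one (nat_lit 56) (nat_lit 4) (nat_lit 6) (nat_lit 0xbc0001780002fef3e) b8946 (.one (nat_lit 68) (nat_lit 3) (nat_lit 5) (nat_lit 0xbc0001780002ff720)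 b8945 (.nil))))) (.nil))) (.nil))
noncomputable def r15_166 : Rw Blk := .tok (nat_lit 3) (nat_lit 0xbc0001780002fde12) (.hit (nat_lit 61) (nat_lit 0) (nat_lit 0xbc0001780002fd24b) b8970 (.tok (nat_lit 9) (nat_lit 0xbc0001780002fd581) (.hit (nat_lit 62) (nat_lit 20) (nat_lit 0xbc0001780002fbbf9) b8971 (.hit (nat_lit 67) (nat_lit 28) (nat_lit 0xbc0001780002fadd7) b8974 (.tok (nat_lit 14) (nat_lit 0xbc0001780002fcdff) (.hit (nat_lit 63) (nat_lit 24) (nat_lit 0xbc0001780002fbe0c) b9665 (.hit (nat_lit 68) (nat_lit 30) (nat_lit 0xbc0001780002fc1ee) b9667 (.one (nat_lit 6) (nat_lit 64) (nat_lit 25) (nat_lit 0xbc0001780002fcdff) b9666 (.nil)))) (.tok (nat_lit 68) (nat_lit 0xbc0001780002fd581) (.hit (nat_lit 65) (nat_lit 26) (nat_lit 0xbc0001780002fcd73) b8972 (.hit (nat_lit 70) (nat_lit 32) (nat_lit 0xbc0001780002fbed5) b8976 (.one (nat_lit 9) (nat_lit 66) (nat_lit 27) (nat_lit 0xbc0001780002fd581)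 b8973 (.nil)))) (.nil))))) (.tok (nat_lit 64) (nat_lit 0xbc0001780002fc70f) (.hit (nat_lit 71) (nat_lit 50) (nat_lit 0xbc0001780002fbf8c) b8977 (.hit (nat_lit 72) (nat_lit 51) (nat_lit 0xbc0001780002fc70f) b8978 (.nil))) (.tok (nat_lit 67) (nat_lit 0xbc0001780002fde12) (.hit (nat_lit 73) (nat_lit 52) (nat_lit 0xbc0001780002fdd96) b8979 (.tok (nat_lit 3) (nat_lit 0xbc0001780002fde12) (.hit (nat_lit 79) (nat_lit 58) (nat_lit 0xbc0001780002fd3b5) b8985 (.one (nat_lit 55) (nat_lit 80) (nat_lit 59) (nat_lit 0xbc0001780002fde12) b9668 (.nil))) (.tok (nat_lit 9) (nat_lit 0xbc0001780002fd8c9) (.hit (nat_lit 74) (nat_lit 53) (nat_lit 0xbc0001780002fc8f3) b8980 (.hit (nat_lit 77) (nat_lit 56) (nat_lit 0xbc0001780002fcc00) b8983 (.tok (nat_lit 67) (nat_lit 0xbc0001780002fd8c9) (.hit (nat_lit 75) (nat_lit 54) (nat_lit 0xbc0001780002fd809) b8981 (.hit (nat_lit 78) (nat_lit 57) (nat_lit 0xbc0001780002fd8c9)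 b8984 (.one (nat_lit 9) (nat_lit 76) (nat_lit 55) (nat_lit 0xbc0001780002fd3cd) b8982 (.nil)))) (.nil)))) (.nil)))) (.one (nat_lit 70) (nat_lit 81) (nat_lit 60) (nat_lit 0xbc0001780002fc7be) b8986 (.nil)))))) (.tok (nat_lit 6) (nat_lit 0xbc000178000300000) (.hit (nat_lit 0) (nat_lit 0) (nat_lit 0xbc0001780002feb42) b8953 (.tok (nat_lit 6) (nat_lit 0xbc000178000300000) (.hit (nat_lit 1) (nat_lit 7) (nat_lit 0xbc0001780002fd8ca) b8954 (.hit (nat_lit 6) (nat_lit 15) (nat_lit 0xbc0001780002fc64d) b8957 (.tok (nat_lit 14) (nat_lit 0xbc0001780002ff85a) (.hit (nat_lit 2) (nat_lit 11) (nat_lit 0xbc0001780002ff85a) b9662 (.hit (nat_lit 7) (nat_lit 17) (nat_lit 0xbc0001780002fe69f) b9664 (.one (nat_lit 9) (nat_lit 3) (nat_lit 12) (nat_lit 0xbc0001780002ff70f) b9663 (.nil)))) (.tok (nat_lit 56) (nat_lit 0xbc000178000300000) (.hit (nat_lit 4) (nat_lit 13) (nat_lit 0xbc0001780002fefdc) b8955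 (.hit (nat_lit 9) (nat_lit 19) (nat_lit 0xbc0001780002fd664) b8959 (.one (nat_lit 6) (nat_lit 5) (nat_lit 14) (nat_lit 0xbc000178000300000) b8956 (.nil)))) (.one (nat_lit 68) (nat_lit 8) (nat_lit 18) (nat_lit 0xbc0001780002fdb60) b8958 (.nil)))))) (.nil))) (.nil))
noncomputable def r15_167 : Rw Blk := .tok (nat_lit 3) (nat_lit 0xbc000178000300000) (.hit (nat_lit 61) (nat_lit 0) (nat_lit 0xbc0001780002fe458) b9679 (.tok (nat_lit 9) (nat_lit 0xbc0001780002fe986) (.hit (nat_lit 62) (nat_lit 20) (nat_lit 0xbc0001780002fc969) b9680 (.hit (nat_lit 67) (nat_lit 28) (nat_lit 0xbc0001780002fccd8) b9685 (.tok (nat_lit 14) (nat_lit 0xbc0001780002fe986) (.hit (nat_lit 63) (nat_lit 24) (nat_lit 0xbc0001780002fdef7) b9681 (.hit (nat_lit 68) (nat_lit 30) (nat_lit 0xbc0001780002fdbe8) b9686 (.one (nat_lit 6) (nat_lit 64) (nat_lit 25) (nat_lit 0xbc0001780002fe986) b9682 (.nil)))) (.tok (nat_lit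 68) (nat_lit 0xbc0001780002fe4bc) (.hit (nat_lit 65) (nat_lit 26) (nat_lit 0xbc0001780002fe13b) b9683 (.hit (nat_lit 70) (nat_lit 32) (nat_lit 0xbc0001780002fdd09) b9687 (.one (nat_lit 9) (nat_lit 66) (nat_lit 27) (nat_lit 0xbc0001780002fe4bc) b9684 (.nil)))) (.nil))))) (.tok (nat_lit 64) (nat_lit 0xbc0001780002fe727) (.hit (nat_lit 71) (nat_lit 50) (nat_lit 0xbc0001780002fdff1) b9688 (.hit (nat_lit 72) (nat_lit 51) (nat_lit 0xbc0001780002fe727) b9689 (.nil))) (.tok (nat_lit 67) (nat_lit 0xbc000178000300000) (.hit (nat_lit 73) (nat_lit 52) (nat_lit 0xbc0001780002ff6c3) b9690 (.tok (nat_lit 3) (nat_lit 0xbc0001780002ff70a) (.hit (nat_lit 79) (nat_lit 58) (nat_lit 0xbc0001780002fef58) b9696 (.one (nat_lit 55) (nat_lit 80) (nat_lit 59) (nat_lit 0xbc0001780002ff70a) b9697 (.nil))) (.tok (nat_lit 9) (nat_lit 0xbc000178000300000) (.hit (nat_lit 74) (nat_lit 53) (nat_lit 0xbc0001780002ff8b2)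 b9691 (.hit (nat_lit 77) (nat_lit 56) (nat_lit 0xbc0001780002fe613) b9694 (.tok (nat_lit 67) (nat_lit 0xbc000178000300000) (.hit (nat_lit 75) (nat_lit 54) (nat_lit 0xbc000178000300000) b9692 (.hit (nat_lit 78) (nat_lit 57) (nat_lit 0xbc0001780002ff758) b9695 (.one (nat_lit 9) (nat_lit 76) (nat_lit 55) (nat_lit 0xbc0001780002ff868) b9693 (.nil)))) (.nil)))) (.nil)))) (.one (nat_lit 70) (nat_lit 81) (nat_lit 60) (nat_lit 0xbc0001780002fe6b7) b9698 (.nil)))))) (.tok (nat_lit 6) (nat_lit 0xbc0001780002fff7c) (.hit (nat_lit 0) (nat_lit 0) (nat_lit 0xbc0001780002ff20f) b9669 (.tok (nat_lit 6) (nat_lit 0xbc0001780002fff7c) (.hit (nat_lit 1) (nat_lit 7) (nat_lit 0xbc0001780002fe639) b9670 (.hit (nat_lit 6) (nat_lit 15) (nat_lit 0xbc0001780002fd8e0) b9675 (.tok (nat_lit 14) (nat_lit 0xbc0001780002fff7c) (.hit (nat_lit 2) (nat_lit 11) (nat_lit 0xbc0001780002ff6f2) b9671 (.hit (nat_lit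 7) (nat_lit 17) (nat_lit 0xbc0001780002fff7c) b9676 (.one (nat_lit 9) (nat_lit 3) (nat_lit 12) (nat_lit 0xbc0001780002ff63a) b9672 (.nil)))) (.tok (nat_lit 56) (nat_lit 0xbc0001780002ff66d) (.hit (nat_lit 4) (nat_lit 13) (nat_lit 0xbc0001780002ff598) b9673 (.hit (nat_lit 9) (nat_lit 19) (nat_lit 0xbc0001780002ff56e) b9678 (.one (nat_lit 6) (nat_lit 5) (nat_lit 14) (nat_lit 0xbc0001780002ff66d) b9674 (.nil)))) (.one (nat_lit 68) (nat_lit 8) (nat_lit 18) (nat_lit 0xbc0001780002ff5ca) b9677 (.nil)))))) (.nil))) (.nil))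
noncomputable def r15_168 : Rw Blk := .tok (nat_lit 3) (nat_lit 0xbc0001780002fddcf) (.hit (nat_lit 61) (nat_lit 0) (nat_lit 0xbc0001780002fd208) b9255 (.tok (nat_lit 6) (nat_lit 0xbc0001780002fcdbc) (.hit (nat_lit 62) (nat_lit 7) (nat_lit 0xbc0001780002fbbb6) b9256 (.hit (nat_lit 67) (nat_lit 15) (nat_lit 0xbc0001780002fad94) b9261 (.tok (nat_lit 14) (nat_lit 0xbc0001780002fcdbc) (.hit (nat_lit 63) (nat_lit 11) (nat_lit 0xbc0001780002fbdc9) b9257 (.hit (nat_lit 68) (nat_lit 17) (nat_lit 0xbc0001780002fc1ab) b9262 (.one (nat_lit 9) (nat_lit 64) (nat_lit 12) (nat_lit 0xbc0001780002fcdbc) b9258 (.nil)))) (.one (nat_lit 68) (nat_lit 69) (nat_lit 18) (nat_lit 0xbc0001780002fc012) b9263 (.nil))))) (.tok (nat_lit 52) (nat_lit 0xbc0001780002fc6cc) (.hit (nat_lit 71) (nat_lit 39) (nat_lit 0xbc0001780002fbf49) b9265 (.hit (nat_lit 72) (nat_lit 40) (nat_lit 0xbc0001780002fc6cc) b9266 (.nil)))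 (.tok (nat_lit 55) (nat_lit 0xbc0001780002fddcf) (.hit (nat_lit 73) (nat_lit 41) (nat_lit 0xbc0001780002fdd53) b9267 (.tok (nat_lit 3) (nat_lit 0xbc0001780002fddcf) (.hit (nat_lit 79) (nat_lit 47) (nat_lit 0xbc0001780002fd372) b9273 (.one (nat_lit 67) (nat_lit 80) (nat_lit 48) (nat_lit 0xbc0001780002fddcf) b9274 (.nil))) (.tok (nat_lit 6) (nat_lit 0xbc0001780002fcbbd) (.hit (nat_lit 74) (nat_lit 42) (nat_lit 0xbc0001780002fc8b0) b9268 (.hit (nat_lit 77) (nat_lit 45) (nat_lit 0xbc0001780002fcbbd) b9271 (.nil))) (.nil)))) (.one (nat_lit 58) (nat_lit 81) (nat_lit 49) (nat_lit 0xbc0001780002fc77b) b9275 (.nil)))))) (.tok (nat_lit 9) (nat_lit 0xbc000178000300000) (.hit (nat_lit 0) (nat_lit 0) (nat_lit 0xbc0001780002feaff) b9240 (.tok (nat_lit 9) (nat_lit 0xbc0001780002fffbd) (.hit (nat_lit 1) (nat_lit 20) (nat_lit 0xbc0001780002fd887) b9241 (.hit (nat_lit 6) (nat_lit 28) (nat_lit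 0xbc0001780002fc60a) b9244 (.tok (nat_lit 14) (nat_lit 0xbc0001780002ff817) (.hit (nat_lit 2) (nat_lit 24) (nat_lit 0xbc0001780002ff817) b9242 (.hit (nat_lit 7) (nat_lit 30) (nat_lit 0xbc0001780002fe65c) b9245 (.one (nat_lit 6) (nat_lit 3) (nat_lit 25) (nat_lit 0xbc0001780002ff6cc) b9243 (.nil)))) (.one (nat_lit 56) (nat_lit 8) (nat_lit 31) (nat_lit 0xbc0001780002fdb1d) b9246 (.tok (nat_lit 68) (nat_lit 0xbc0001780002fffbd) (.hit (nat_lit 4) (nat_lit 26) (nat_lit 0xbc0001780002fef99) b9609 (.hit (nat_lit 9) (nat_lit 32) (nat_lit 0xbc0001780002fd621) b9611 (.one (nat_lit 9) (nat_lit 5) (nat_lit 27) (nat_lit 0xbc0001780002fffbd) b9610 (.nil)))) (.nil)))))) (.tok (nat_lit 64) (nat_lit 0xbc0001780002feaaa) (.hit (nat_lit 10) (nat_lit 50) (nat_lit 0xbc0001780002fdd77) b9247 (.hit (nat_lit 11) (nat_lit 51) (nat_lit 0xbc0001780002feaaa) b9248 (.nil))) (.tok (nat_lit 67) (nat_lit 0xbc000178000300000)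 (.hit (nat_lit 12) (nat_lit 52) (nat_lit 0xbc0001780002ff885) b9249 (.tok (nat_lit 3) (nat_lit 0xbc000178000300000) (.hit (nat_lit 18) (nat_lit 58) (nat_lit 0xbc0001780002fec8d) b9252 (.one (nat_lit 55) (nat_lit 19) (nat_lit 59) (nat_lit 0xbc000178000300000) b9253 (.nil))) (.tok (nat_lit 9) (nat_lit 0xbc0001780002ffc81) (.hit (nat_lit 13) (nat_lit 53) (nat_lit 0xbc0001780002fe0f2) b9250 (.hit (nat_lit 16) (nat_lit 56) (nat_lit 0xbc0001780002fece8) b9251 (.tok (nat_lit 67) (nat_lit 0xbc0001780002ffc81) (.hit (nat_lit 14) (nat_lit 54) (nat_lit 0xbc0001780002ff6bd) b9612 (.hit (nat_lit 17) (nat_lit 57) (nat_lit 0xbc0001780002ffc81) b9614 (.one (nat_lit 9) (nat_lit 15) (nat_lit 55) (nat_lit 0xbc0001780002ff76a) b9613 (.nil)))) (.nil)))) (.nil)))) (.one (nat_lit 70) (nat_lit 20) (nat_lit 60) (nat_lit 0xbc0001780002fecd6) b9254 (.nil)))))) (.nil))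
noncomputable def r15_169 : Rw Blk := .tok (nat_lit 3) (nat_lit 0xbc0001780002fce3b) (.hit (nat_lit 61) (nat_lit 0) (nat_lit 0xbc0001780002fb9e1) b9059 (.tok (nat_lit 6) (nat_lit 0xbc0001780002fbf0f) (.hit (nat_lit 62) (nat_lit 7) (nat_lit 0xbc0001780002f9ef2) b9060 (.hit (nat_lit 67) (nat_lit 15) (nat_lit 0xbc0001780002fa261) b9063 (.tok (nat_lit 14) (nat_lit 0xbc0001780002fbf0f) (.hit (nat_lit 63) (nat_lit 11) (nat_lit 0xbc0001780002fb480) b30180 (.hit (nat_lit 68) (nat_lit 17) (nat_lit 0xbc0001780002fb171) b30182 (.one (nat_lit 9) (nat_lit 64) (nat_lit 12) (nat_lit 0xbc0001780002fbf0f) b30181 (.nil)))) (.one (nat_lit 68) (nat_lit 69) (nat_lit 18) (nat_lit 0xbc0001780002fb897) b9064 (.nil))))) (.tok (nat_lit 52) (nat_lit 0xbc0001780002fbcb0) (.hit (nat_lit 71) (nat_lit 39) (nat_lit 0xbc0001780002fb57a) b9066 (.hit (nat_lit 72) (nat_lit 40) (nat_lit 0xbc0001780002fbcb0) b9067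 (.nil))) (.tok (nat_lit 55) (nat_lit 0xbc0001780002fce3b) (.hit (nat_lit 73) (nat_lit 41) (nat_lit 0xbc0001780002fcc4c) b9068 (.tok (nat_lit 3) (nat_lit 0xbc0001780002fcc93) (.hit (nat_lit 79) (nat_lit 47) (nat_lit 0xbc0001780002fc4e1) b9074 (.one (nat_lit 67) (nat_lit 80) (nat_lit 48) (nat_lit 0xbc0001780002fcc93) b30183 (.nil))) (.tok (nat_lit 6) (nat_lit 0xbc0001780002fce3b) (.hit (nat_lit 74) (nat_lit 42) (nat_lit 0xbc0001780002fce3b) b9069 (.hit (nat_lit 77) (nat_lit 45) (nat_lit 0xbc0001780002fbb9c) b9072 (.nil))) (.nil)))) (.one (nat_lit 58) (nat_lit 81) (nat_lit 49) (nat_lit 0xbc0001780002fbc40) b9075 (.nil)))))) (.tok (nat_lit 9) (nat_lit 0xbc000178000300000) (.hit (nat_lit 0) (nat_lit 0) (nat_lit 0xbc0001780002fc798) b9042 (.tok (nat_lit 9) (nat_lit 0xbc0001780002fd505) (.hit (nat_lit 1) (nat_lit 20) (nat_lit 0xbc0001780002fbbc2) b9043 (.hit (nat_lit 6) (nat_lit 28)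 (nat_lit 0xbc0001780002fae69) b9046 (.tok (nat_lit 14) (nat_lit 0xbc0001780002fd505) (.hit (nat_lit 2) (nat_lit 24) (nat_lit 0xbc0001780002fcc7b) b30176 (.hit (nat_lit 7) (nat_lit 30) (nat_lit 0xbc0001780002fd505) b30178 (.one (nat_lit 6) (nat_lit 3) (nat_lit 25) (nat_lit 0xbc0001780002fcbc3) b30177 (.nil)))) (.one (nat_lit 56) (nat_lit 8) (nat_lit 31) (nat_lit 0xbc0001780002fcb53) b9047 (.tok (nat_lit 68) (nat_lit 0xbc0001780002fcbf6) (.hit (nat_lit 4) (nat_lit 26) (nat_lit 0xbc0001780002fcb21) b9044 (.hit (nat_lit 9) (nat_lit 32) (nat_lit 0xbc0001780002fcaf7) b9048 (.one (nat_lit 9) (nat_lit 5) (nat_lit 27) (nat_lit 0xbc0001780002fcbf6) b9045 (.nil)))) (.nil)))))) (.tok (nat_lit 64) (nat_lit 0xbc0001780002fd196) (.hit (nat_lit 10) (nat_lit 50) (nat_lit 0xbc0001780002fc183) b9049 (.hit (nat_lit 11) (nat_lit 51) (nat_lit 0xbc0001780002fd196) b9050 (.nil))) (.tok (nat_lit 67)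 (nat_lit 0xbc000178000300000) (.hit (nat_lit 12) (nat_lit 52) (nat_lit 0xbc0001780002fd718) b9051 (.tok (nat_lit 3) (nat_lit 0xbc0001780002fdc25) (.hit (nat_lit 18) (nat_lit 58) (nat_lit 0xbc0001780002fc96a) b9057 (.one (nat_lit 55) (nat_lit 19) (nat_lit 59) (nat_lit 0xbc0001780002fdc25) b30179 (.nil))) (.tok (nat_lit 9) (nat_lit 0xbc000178000300000) (.hit (nat_lit 13) (nat_lit 53) (nat_lit 0xbc0001780002fdc7a) b9052 (.hit (nat_lit 16) (nat_lit 56) (nat_lit 0xbc0001780002fd87b) b9055 (.tok (nat_lit 67) (nat_lit 0xbc000178000300000) (.hit (nat_lit 14) (nat_lit 54) (nat_lit 0xbc0001780002ff8f2) b9053 (.hit (nat_lit 17) (nat_lit 57) (nat_lit 0xbc0001780002fd491) b9056 (.one (nat_lit 9) (nat_lit 15) (nat_lit 55) (nat_lit 0xbc000178000300000) b9054 (.nil)))) (.nil)))) (.nil)))) (.one (nat_lit 70) (nat_lit 20) (nat_lit 60) (nat_lit 0xbc0001780002fcfe4) b9058 (.nil)))))) (.nil))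
noncomputable def r15_170 : Rw Blk := .tok (nat_lit 3) (nat_lit 0xbf74157eb64afed6e5fa436bf74497edf42fd61e) (.hit (nat_lit 0) (nat_lit 0) (nat_lit 0xbf74157eb64afed6e5fa436bf74497edf42fd61e) b30184 (.tok (nat_lit 6) (nat_lit 0xbf3f657dfc32fead75f8676bf0e1d7e76a2fc8e8) (.hit (nat_lit 1) (nat_lit 7) (nat_lit 0xbf3f657dfc32fead75f8676bf0e1d7e76a2fc8e8) b30185 (.hit (nat_lit 6) (nat_lit 15) (nat_lit 0xbf35a97de8bafe2d35f8198bf04617e632afc679) b30186 (.nil))) (.tok (nat_lit 9) (nat_lit 0xbf3f657dfc32fead75f8676bf0e1d7e76a2fc8e8) (.hit (nat_lit 10) (nat_lit 20) (nat_lit 0xbf3f657dfc32fead75f8676bf0e1d7e76a2fc8e8) b30185 (.hit (nat_lit 15) (nat_lit 28) (nat_lit 0xbf35a97de8bafe2d35f8198bf04617e632afc679) b30186 (.nil))) (.nil)))) (.tok (nat_lit 6) (nat_lit 0xc00001800003000005fffa4bff21980000300000) (.hit (nat_lit 81) (nat_lit 0) (nat_lit 0xbfcd217f711aff8de5fe19ebfc11d7f87eaff153)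 b30187 (.tok (nat_lit 3) (nat_lit 0xbfcd597f256affef35fe4e8bfdb417f9512ff2a2) (.hit (nat_lit 82) (nat_lit 1) (nat_lit 0xbf61157e5202fe9605fadf4bf6e097eb942fd728) b30188 (.one (nat_lit 67) (nat_lit 83) (nat_lit 2) (nat_lit 0xbfcd597f256affef35fe4e8bfdb417f9512ff2a2) b30189 (.nil))) (.tok (nat_lit 6) (nat_lit 0xc00001800003000005fffa4bff21980000300000) (.hit (nat_lit 87) (nat_lit 7) (nat_lit 0xbfb0e97f43eaff6975fc9a6bfafbd7f280afe501) b30190 (.hit (nat_lit 95) (nat_lit 15) (nat_lit 0xbf69ed7e4ed2fe18b5fb136bf748d7ec64afd8c9) b30193 (.tok (nat_lit 55) (nat_lit 0xc00001800003000005fffa4bff21980000300000) (.hit (nat_lit 88) (nat_lit 8) (nat_lit 0xc000017fc16affe9d5fffa4bff21980000300000) b30191 (.hit (nat_lit 96) (nat_lit 16) (nat_lit 0xbfcc4d7f32daffce55fe8a0bfe3617fa3f2ff47e) b30194 (.one (nat_lit 6) (nat_lit 89) (nat_lit 9) (nat_lit 0xbfd515800003000005fe7e2bfe2bd7fa122ff422) b30192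 (.nil)))) (.nil)))) (.nil)))) (.tok (nat_lit 9) (nat_lit 0xc0000180000300000600000c0000180000300000) (.hit (nat_lit 157) (nat_lit 0) (nat_lit 0xbfcd217f711aff8de5fe300bfd0717f87eaff0fc) b30195 (.tok (nat_lit 3) (nat_lit 0xbfcd597f256affef35fe4e8bfdbf17f951aff2a2) (.hit (nat_lit 158) (nat_lit 1) (nat_lit 0xbf61157e5202fe9605fadf4bf6e097eb942fd728) b30188 (.one (nat_lit 55) (nat_lit 159) (nat_lit 3) (nat_lit 0xbfcd597f256affef35fe4e8bfdbf17f951aff2a2) b30196 (.nil))) (.tok (nat_lit 9) (nat_lit 0xc0000180000300000600000c0000180000300000) (.hit (nat_lit 163) (nat_lit 20) (nat_lit 0xbfb0e97f43eaff6975fcb36bfb2a57f280afe501) b30197 (.hit (nat_lit 171) (nat_lit 28) (nat_lit 0xbf69ed7e4ed2fe18b5fb136bf748d7ec64afd8c9) b30193 (.tok (nat_lit 67) (nat_lit 0xc0000180000300000600000c0000180000300000) (.hit (nat_lit 164) (nat_lit 21) (nat_lit 0xc000017fc16affe9d600000c0000180000300000) b30198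 (.hit (nat_lit 172) (nat_lit 29) (nat_lit 0xbfcc4d7f32daffce55fe8a0bfe3617fa3faff47e) b30200 (.one (nat_lit 9) (nat_lit 165) (nat_lit 22) (nat_lit 0xbfd515800003000005fe7f4bfeeb97fa142ff428) b30199 (.nil)))) (.nil)))) (.nil)))) (.nil)))
noncomputable def r15_171 : Rw Blk := .tok (nat_lit 6) (nat_lit 0xbc000178000300000) (.hit (nat_lit 51) (nat_lit 0) (nat_lit 0xbc0001780002ff743) b8943 (.tok (nat_lit 3) (nat_lit 0xbc0001780002ffecc) (.hit (nat_lit 52) (nat_lit 1) (nat_lit 0xbc0001780002fdccb) b8944 (.one (nat_lit 14) (nat_lit 53) (nat_lit 4) (nat_lit 0xbc0001780002ffecc) b9239 (.one (nat_lit 56) (nat_lit 55) (nat_lit 6) (nat_lit 0xbc0001780002ff720) b8945 (.nil)))) (.tok (nat_lit 40) (nat_lit 0xbc0001780002ff5de) (.hit (nat_lit 56) (nat_lit 33) (nat_lit 0xbc0001780002ff5de) b8947 (.hit (nat_lit 57) (nat_lit 34) (nat_lit 0xbc0001780002ff3d8) b8948 (.nil))) (.tok (nat_lit 43) (nat_lit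 0xbc000178000300000) (.hit (nat_lit 58) (nat_lit 35) (nat_lit 0xbc000178000300000) b8951 (.hit (nat_lit 59) (nat_lit 36) (nat_lit 0xbc0001780002ff6ae) b8952 (.nil))) (.tok (nat_lit 46) (nat_lit 0xbc0001780002ffbd8) (.hit (nat_lit 60) (nat_lit 37) (nat_lit 0xbc0001780002fe56f) b8949 (.hit (nat_lit 61) (nat_lit 38) (nat_lit 0xbc0001780002ffbd8) b8950 (.nil))) (.nil)))))) (.tok (nat_lit 9) (nat_lit 0xbc000178000300000) (.hit (nat_lit 0) (nat_lit 0) (nat_lit 0xbc0001780002ff743) b8943 (.tok (nat_lit 3) (nat_lit 0xbc0001780002ffecc) (.hit (nat_lit 1) (nat_lit 1) (nat_lit 0xbc0001780002fdccb) b8944 (.one (nat_lit 14) (nat_lit 2) (nat_lit 4) (nat_lit 0xbc0001780002ffecc) b9239 (.one (nat_lit 68) (nat_lit 3) (nat_lit 5) (nat_lit 0xbc0001780002ff720) b8945 (.nil)))) (.tok (nat_lit 40) (nat_lit 0xbc0001780002ff5de) (.hit (nat_lit 5) (nat_lit 33) (nat_lit 0xbc0001780002ff5de) b8947 (.hit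 (nat_lit 6) (nat_lit 34) (nat_lit 0xbc0001780002ff3d8) b8948 (.nil))) (.tok (nat_lit 43) (nat_lit 0xbc0001780002ffbd8) (.hit (nat_lit 7) (nat_lit 35) (nat_lit 0xbc0001780002fe56f) b8949 (.hit (nat_lit 8) (nat_lit 36) (nat_lit 0xbc0001780002ffbd8) b8950 (.nil))) (.tok (nat_lit 46) (nat_lit 0xbc000178000300000) (.hit (nat_lit 9) (nat_lit 37) (nat_lit 0xbc000178000300000) b8951 (.hit (nat_lit 10) (nat_lit 38) (nat_lit 0xbc0001780002ff6ae) b8952 (.nil))) (.nil)))))) (.nil))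
noncomputable def r15_172 : Rw Blk := .tok (nat_lit 3) (nat_lit 0xbc0001780002fe46f) (.hit (nat_lit 61) (nat_lit 0) (nat_lit 0xbc0001780002fd8a8) b30216 (.tok (nat_lit 9) (nat_lit 0xbc0001780002fdbde) (.hit (nat_lit 62) (nat_lit 20) (nat_lit 0xbc0001780002fc256) b30217 (.hit (nat_lit 67) (nat_lit 28) (nat_lit 0xbc0001780002fb434) b30222 (.tok (nat_lit 14) (nat_lit 0xbc0001780002fd45c) (.hit (nat_lit 63) (nat_lit 24) (nat_lit 0xbc0001780002fc469) b30218 (.hit (nat_lit 68) (nat_lit 30) (nat_lit 0xbc0001780002fc84b) b30223 (.one (nat_lit 6) (nat_lit 64) (nat_lit 25) (nat_lit 0xbc0001780002fd45c) b30219 (.nil)))) (.one (nat_lit 56) (nat_lit 69) (nat_lit 31) (nat_lit 0xbc0001780002fc6b2) b30224 (.tok (nat_lit 68) (nat_lit 0xbc0001780002fdbde) (.hit (nat_lit 65) (nat_lit 26) (nat_lit 0xbc0001780002fd3d0) b30220 (.hit (nat_lit 70) (nat_lit 32) (nat_lit 0xbc0001780002fc532) b30225 (.one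 (nat_lit 9) (nat_lit 66) (nat_lit 27) (nat_lit 0xbc0001780002fdbde) b30221 (.nil)))) (.nil)))))) (.tok (nat_lit 64) (nat_lit 0xbc0001780002fcd6c) (.hit (nat_lit 71) (nat_lit 50) (nat_lit 0xbc0001780002fc5e9) b30226 (.hit (nat_lit 72) (nat_lit 51) (nat_lit 0xbc0001780002fcd6c) b30227 (.nil))) (.tok (nat_lit 67) (nat_lit 0xbc0001780002fe46f) (.hit (nat_lit 73) (nat_lit 52) (nat_lit 0xbc0001780002fe3f3) b30228 (.tok (nat_lit 3) (nat_lit 0xbc0001780002fe46f) (.hit (nat_lit 79) (nat_lit 58) (nat_lit 0xbc0001780002fda12) b30234 (.one (nat_lit 55) (nat_lit 80) (nat_lit 59) (nat_lit 0xbc0001780002fe46f) b30235 (.nil))) (.tok (nat_lit 9) (nat_lit 0xbc0001780002fdf26) (.hit (nat_lit 74) (nat_lit 53) (nat_lit 0xbc0001780002fcf50) b30229 (.hit (nat_lit 77) (nat_lit 56) (nat_lit 0xbc0001780002fd25d) b30232 (.tok (nat_lit 67) (nat_lit 0xbc0001780002fdf26) (.hit (nat_lit 75) (nat_lit 54) (nat_lit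 0xbc0001780002fde66) b30230 (.hit (nat_lit 78) (nat_lit 57) (nat_lit 0xbc0001780002fdf26) b30233 (.one (nat_lit 9) (nat_lit 76) (nat_lit 55) (nat_lit 0xbc0001780002fda2a) b30231 (.nil)))) (.nil)))) (.nil)))) (.one (nat_lit 70) (nat_lit 81) (nat_lit 60) (nat_lit 0xbc0001780002fce1b) b30236 (.nil)))))) (.tok (nat_lit 6) (nat_lit 0xbc0001780003006a0) (.hit (nat_lit 0) (nat_lit 0) (nat_lit 0xbc0001780002ff19f) b30201 (.tok (nat_lit 6) (nat_lit 0xbc0001780002ffeb7) (.hit (nat_lit 1) (nat_lit 7) (nat_lit 0xbc0001780002fdf27) b30202 (.hit (nat_lit 6) (nat_lit 15) (nat_lit 0xbc0001780002fccaa) b30205 (.tok (nat_lit 14) (nat_lit 0xbc0001780002ffeb7) (.hit (nat_lit 2) (nat_lit 11) (nat_lit 0xbc0001780002ffeb7) b30203 (.hit (nat_lit 7) (nat_lit 17) (nat_lit 0xbc0001780002fecfc) b30206 (.one (nat_lit 9) (nat_lit 3) (nat_lit 12) (nat_lit 0xbc0001780002ffd6c) b30204 (.nil)))) (.one (nat_lit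 68) (nat_lit 8) (nat_lit 18) (nat_lit 0xbc0001780002fe1bd) b30207 (.nil))))) (.tok (nat_lit 52) (nat_lit 0xbc0001780002ff14a) (.hit (nat_lit 10) (nat_lit 39) (nat_lit 0xbc0001780002fe417) b30208 (.hit (nat_lit 11) (nat_lit 40) (nat_lit 0xbc0001780002ff14a) b30209 (.nil))) (.tok (nat_lit 55) (nat_lit 0xbc0001780003006a0) (.hit (nat_lit 12) (nat_lit 41) (nat_lit 0xbc0001780002fff25) b30210 (.tok (nat_lit 3) (nat_lit 0xbc0001780003006a0) (.hit (nat_lit 18) (nat_lit 47) (nat_lit 0xbc0001780002ff32d) b30213 (.one (nat_lit 67) (nat_lit 19) (nat_lit 48) (nat_lit 0xbc0001780003006a0) b30214 (.nil))) (.tok (nat_lit 6) (nat_lit 0xbc0001780002ff388) (.hit (nat_lit 13) (nat_lit 42) (nat_lit 0xbc0001780002fe792) b30211 (.hit (nat_lit 16) (nat_lit 45) (nat_lit 0xbc0001780002ff388) b30212 (.nil))) (.nil)))) (.one (nat_lit 58) (nat_lit 20) (nat_lit 49) (nat_lit 0xbc0001780002ff376) b30215 (.nil))))))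 (.nil))
noncomputable def r15_173 : Rw Blk := .tok (nat_lit 3) (nat_lit 0xbc0001780002ff90f) (.hit (nat_lit 61) (nat_lit 0) (nat_lit 0xbc0001780002fdd67) b9291 (.tok (nat_lit 9) (nat_lit 0xbc0001780002fe295) (.hit (nat_lit 62) (nat_lit 20) (nat_lit 0xbc0001780002fc278) b9292 (.hit (nat_lit 67) (nat_lit 28) (nat_lit 0xbc0001780002fc5e7) b9297 (.tok (nat_lit 14) (nat_lit 0xbc0001780002fe295) (.hit (nat_lit 63) (nat_lit 24) (nat_lit 0xbc0001780002fd806) b9293 (.hit (nat_lit 68) (nat_lit 30) (nat_lit 0xbc0001780002fd4f7) b9298 (.one (nat_lit 6) (nat_lit 64) (nat_lit 25) (nat_lit 0xbc0001780002fe295) b9294 (.nil)))) (.one (nat_lit 56) (nat_lit 69) (nat_lit 31) (nat_lit 0xbc0001780002fdc1d) b9299 (.tok (nat_lit 68) (nat_lit 0xbc0001780002fddcb) (.hit (nat_lit 65) (nat_lit 26) (nat_lit 0xbc0001780002fda4a) b9295 (.hit (nat_lit 70) (nat_lit 32) (nat_lit 0xbc0001780002fd618) b9300 (.one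 (nat_lit 9) (nat_lit 66) (nat_lit 27) (nat_lit 0xbc0001780002fddcb) b9296 (.nil)))) (.nil)))))) (.tok (nat_lit 64) (nat_lit 0xbc0001780002fe036) (.hit (nat_lit 71) (nat_lit 50) (nat_lit 0xbc0001780002fd900) b9301 (.hit (nat_lit 72) (nat_lit 51) (nat_lit 0xbc0001780002fe036) b9302 (.nil))) (.tok (nat_lit 67) (nat_lit 0xbc0001780002ff90f) (.hit (nat_lit 73) (nat_lit 52) (nat_lit 0xbc0001780002fefd2) b9303 (.tok (nat_lit 3) (nat_lit 0xbc0001780002ff019) (.hit (nat_lit 79) (nat_lit 58) (nat_lit 0xbc0001780002fe867) b9309 (.one (nat_lit 55) (nat_lit 80) (nat_lit 59) (nat_lit 0xbc0001780002ff019) b9310 (.nil))) (.tok (nat_lit 9) (nat_lit 0xbc0001780002ff90f) (.hit (nat_lit 74) (nat_lit 53) (nat_lit 0xbc0001780002ff1c1) b9304 (.hit (nat_lit 77) (nat_lit 56) (nat_lit 0xbc0001780002fdf22) b9307 (.tok (nat_lit 67) (nat_lit 0xbc0001780002ff90f) (.hit (nat_lit 75) (nat_lit 54) (nat_lit 0xbc0001780002ff90f)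 b9305 (.hit (nat_lit 78) (nat_lit 57) (nat_lit 0xbc0001780002ff067) b9308 (.one (nat_lit 9) (nat_lit 76) (nat_lit 55) (nat_lit 0xbc0001780002ff177) b9306 (.nil)))) (.nil)))) (.nil)))) (.one (nat_lit 70) (nat_lit 81) (nat_lit 60) (nat_lit 0xbc0001780002fdfc6) b9311 (.nil)))))) (.tok (nat_lit 6) (nat_lit 0xbc000178000300000) (.hit (nat_lit 0) (nat_lit 0) (nat_lit 0xbc0001780002feb1e) b9276 (.tok (nat_lit 6) (nat_lit 0xbc0001780002ff88b) (.hit (nat_lit 1) (nat_lit 7) (nat_lit 0xbc0001780002fdf48) b9277 (.hit (nat_lit 6) (nat_lit 15) (nat_lit 0xbc0001780002fd1ef) b9280 (.tok (nat_lit 14) (nat_lit 0xbc0001780002ff88b) (.hit (nat_lit 2) (nat_lit 11) (nat_lit 0xbc0001780002ff001) b9278 (.hit (nat_lit 7) (nat_lit 17) (nat_lit 0xbc0001780002ff88b) b9281 (.one (nat_lit 9) (nat_lit 3) (nat_lit 12) (nat_lit 0xbc0001780002fef49) b9279 (.nil)))) (.one (nat_lit 68) (nat_lit 8) (nat_lit 18)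 (nat_lit 0xbc0001780002feed9) b9282 (.nil))))) (.tok (nat_lit 52) (nat_lit 0xbc0001780002ff51c) (.hit (nat_lit 10) (nat_lit 39) (nat_lit 0xbc0001780002fe509) b9283 (.hit (nat_lit 11) (nat_lit 40) (nat_lit 0xbc0001780002ff51c) b9284 (.nil))) (.tok (nat_lit 55) (nat_lit 0xbc000178000300000) (.hit (nat_lit 12) (nat_lit 41) (nat_lit 0xbc0001780002ffa9e) b9285 (.tok (nat_lit 3) (nat_lit 0xbc0001780002fffab) (.hit (nat_lit 18) (nat_lit 47) (nat_lit 0xbc0001780002fecf0) b9288 (.one (nat_lit 67) (nat_lit 19) (nat_lit 48) (nat_lit 0xbc0001780002fffab) b9289 (.nil))) (.tok (nat_lit 6) (nat_lit 0xbc000178000300000) (.hit (nat_lit 13) (nat_lit 42) (nat_lit 0xbc000178000300000) b9286 (.hit (nat_lit 16) (nat_lit 45) (nat_lit 0xbc0001780002ffc01) b9287 (.nil))) (.nil)))) (.one (nat_lit 58) (nat_lit 20) (nat_lit 49) (nat_lit 0xbc0001780002ff36a) b9290 (.nil)))))) (.nil))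
noncomputable def r15_174 : Rw Blk := .tok (nat_lit 3) (nat_lit 0xbc0001780002fddcf) (.hit (nat_lit 61) (nat_lit 0) (nat_lit 0xbc0001780002fd208) b9255 (.tok (nat_lit 6) (nat_lit 0xbc0001780002fd53e) (.hit (nat_lit 62) (nat_lit 7) (nat_lit 0xbc0001780002fbbb6) b9256 (.hit (nat_lit 67) (nat_lit 15) (nat_lit 0xbc0001780002fad94) b9261 (.tok (nat_lit 14) (nat_lit 0xbc0001780002fcdbc) (.hit (nat_lit 63) (nat_lit 11) (nat_lit 0xbc0001780002fbdc9) b9257 (.hit (nat_lit 68) (nat_lit 17) (nat_lit 0xbc0001780002fc1ab) b9262 (.one (nat_lit 9) (nat_lit 64) (nat_lit 12) (nat_lit 0xbc0001780002fcdbc) b9258 (.nil)))) (.tok (nat_lit 56) (nat_lit 0xbc0001780002fd53e) (.hit (nat_lit 65) (nat_lit 13) (nat_lit 0xbc0001780002fcd30) b9259 (.hit (nat_lit 70) (nat_lit 19) (nat_lit 0xbc0001780002fbe92) b9264 (.one (nat_lit 6) (nat_lit 66) (nat_lit 14) (nat_lit 0xbc0001780002fd53e) b9260 (.nil)))) (.one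 (nat_lit 68) (nat_lit 69) (nat_lit 18) (nat_lit 0xbc0001780002fc012) b9263 (.nil)))))) (.tok (nat_lit 52) (nat_lit 0xbc0001780002fc6cc) (.hit (nat_lit 71) (nat_lit 39) (nat_lit 0xbc0001780002fbf49) b9265 (.hit (nat_lit 72) (nat_lit 40) (nat_lit 0xbc0001780002fc6cc) b9266 (.nil))) (.tok (nat_lit 55) (nat_lit 0xbc0001780002fddcf) (.hit (nat_lit 73) (nat_lit 41) (nat_lit 0xbc0001780002fdd53) b9267 (.tok (nat_lit 3) (nat_lit 0xbc0001780002fddcf) (.hit (nat_lit 79) (nat_lit 47) (nat_lit 0xbc0001780002fd372) b9273 (.one (nat_lit 67) (nat_lit 80) (nat_lit 48) (nat_lit 0xbc0001780002fddcf) b9274 (.nil))) (.tok (nat_lit 6) (nat_lit 0xbc0001780002fd886) (.hit (nat_lit 74) (nat_lit 42) (nat_lit 0xbc0001780002fc8b0) b9268 (.hit (nat_lit 77) (nat_lit 45) (nat_lit 0xbc0001780002fcbbd) b9271 (.tok (nat_lit 55) (nat_lit 0xbc0001780002fd886) (.hit (nat_lit 75) (nat_lit 43) (nat_lit 0xbc0001780002fd7c6)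 b9269 (.hit (nat_lit 78) (nat_lit 46) (nat_lit 0xbc0001780002fd886) b9272 (.one (nat_lit 6) (nat_lit 76) (nat_lit 44) (nat_lit 0xbc0001780002fd38a) b9270 (.nil)))) (.nil)))) (.nil)))) (.one (nat_lit 58) (nat_lit 81) (nat_lit 49) (nat_lit 0xbc0001780002fc77b) b9275 (.nil)))))) (.tok (nat_lit 9) (nat_lit 0xbc000178000300000) (.hit (nat_lit 0) (nat_lit 0) (nat_lit 0xbc0001780002feaff) b9240 (.tok (nat_lit 9) (nat_lit 0xbc0001780002ff817) (.hit (nat_lit 1) (nat_lit 20) (nat_lit 0xbc0001780002fd887) b9241 (.hit (nat_lit 6) (nat_lit 28) (nat_lit 0xbc0001780002fc60a) b9244 (.tok (nat_lit 14) (nat_lit 0xbc0001780002ff817) (.hit (nat_lit 2) (nat_lit 24) (nat_lit 0xbc0001780002ff817) b9242 (.hit (nat_lit 7) (nat_lit 30) (nat_lit 0xbc0001780002fe65c) b9245 (.one (nat_lit 6) (nat_lit 3) (nat_lit 25) (nat_lit 0xbc0001780002ff6cc) b9243 (.nil)))) (.one (nat_lit 56) (nat_lit 8) (nat_lit 31)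 (nat_lit 0xbc0001780002fdb1d) b9246 (.nil))))) (.tok (nat_lit 64) (nat_lit 0xbc0001780002feaaa) (.hit (nat_lit 10) (nat_lit 50) (nat_lit 0xbc0001780002fdd77) b9247 (.hit (nat_lit 11) (nat_lit 51) (nat_lit 0xbc0001780002feaaa) b9248 (.nil))) (.tok (nat_lit 67) (nat_lit 0xbc000178000300000) (.hit (nat_lit 12) (nat_lit 52) (nat_lit 0xbc0001780002ff885) b9249 (.tok (nat_lit 3) (nat_lit 0xbc000178000300000) (.hit (nat_lit 18) (nat_lit 58) (nat_lit 0xbc0001780002fec8d) b9252 (.one (nat_lit 55) (nat_lit 19) (nat_lit 59) (nat_lit 0xbc000178000300000) b9253 (.nil))) (.tok (nat_lit 9) (nat_lit 0xbc0001780002fece8) (.hit (nat_lit 13) (nat_lit 53) (nat_lit 0xbc0001780002fe0f2) b9250 (.hit (nat_lit 16) (nat_lit 56) (nat_lit 0xbc0001780002fece8) b9251 (.nil))) (.nil)))) (.one (nat_lit 70) (nat_lit 20) (nat_lit 60) (nat_lit 0xbc0001780002fecd6) b9254 (.nil)))))) (.nil))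
noncomputable def r15_175 : Rw Blk := .tok (nat_lit 3) (nat_lit 0xbc0001780002ff90f) (.hit (nat_lit 61) (nat_lit 0) (nat_lit 0xbc0001780002fdd67) b9291 (.tok (nat_lit 6) (nat_lit 0xbc0001780002fe295) (.hit (nat_lit 62) (nat_lit 7) (nat_lit 0xbc0001780002fc278) b9292 (.hit (nat_lit 67) (nat_lit 15) (nat_lit 0xbc0001780002fc5e7) b9297 (.tok (nat_lit 14) (nat_lit 0xbc0001780002fe295) (.hit (nat_lit 63) (nat_lit 11) (nat_lit 0xbc0001780002fd806) b9293 (.hit (nat_lit 68) (nat_lit 17) (nat_lit 0xbc0001780002fd4f7) b9298 (.one (nat_lit 9) (nat_lit 64) (nat_lit 12) (nat_lit 0xbc0001780002fe295) b9294 (.nil)))) (.tok (nat_lit 56) (nat_lit 0xbc0001780002fddcb) (.hit (nat_lit 65) (nat_lit 13) (nat_lit 0xbc0001780002fda4a) b9295 (.hit (nat_lit 70) (nat_lit 19) (nat_lit 0xbc0001780002fd618) b9300 (.one (nat_lit 6) (nat_lit 66) (nat_lit 14) (nat_lit 0xbc0001780002fddcb) b9296 (.nil)))) (.one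 (nat_lit 68) (nat_lit 69) (nat_lit 18) (nat_lit 0xbc0001780002fdc1d) b9299 (.nil)))))) (.tok (nat_lit 52) (nat_lit 0xbc0001780002fe036) (.hit (nat_lit 71) (nat_lit 39) (nat_lit 0xbc0001780002fd900) b9301 (.hit (nat_lit 72) (nat_lit 40) (nat_lit 0xbc0001780002fe036) b9302 (.nil))) (.tok (nat_lit 55) (nat_lit 0xbc0001780002ff90f) (.hit (nat_lit 73) (nat_lit 41) (nat_lit 0xbc0001780002fefd2) b9303 (.tok (nat_lit 3) (nat_lit 0xbc0001780002ff019) (.hit (nat_lit 79) (nat_lit 47) (nat_lit 0xbc0001780002fe867) b9309 (.one (nat_lit 67) (nat_lit 80) (nat_lit 48) (nat_lit 0xbc0001780002ff019) b9310 (.nil))) (.tok (nat_lit 6) (nat_lit 0xbc0001780002ff90f) (.hit (nat_lit 74) (nat_lit 42) (nat_lit 0xbc0001780002ff1c1) b9304 (.hit (nat_lit 77) (nat_lit 45) (nat_lit 0xbc0001780002fdf22) b9307 (.tok (nat_lit 55) (nat_lit 0xbc0001780002ff90f) (.hit (nat_lit 75) (nat_lit 43) (nat_lit 0xbc0001780002ff90f)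 b9305 (.hit (nat_lit 78) (nat_lit 46) (nat_lit 0xbc0001780002ff067) b9308 (.one (nat_lit 6) (nat_lit 76) (nat_lit 44) (nat_lit 0xbc0001780002ff177) b9306 (.nil)))) (.nil)))) (.nil)))) (.one (nat_lit 58) (nat_lit 81) (nat_lit 49) (nat_lit 0xbc0001780002fdfc6) b9311 (.nil)))))) (.tok (nat_lit 9) (nat_lit 0xbc000178000300000) (.hit (nat_lit 0) (nat_lit 0) (nat_lit 0xbc0001780002feb1e) b9276 (.tok (nat_lit 9) (nat_lit 0xbc0001780002ff88b) (.hit (nat_lit 1) (nat_lit 20) (nat_lit 0xbc0001780002fdf48) b9277 (.hit (nat_lit 6) (nat_lit 28) (nat_lit 0xbc0001780002fd1ef) b9280 (.tok (nat_lit 14) (nat_lit 0xbc0001780002ff88b) (.hit (nat_lit 2) (nat_lit 24) (nat_lit 0xbc0001780002ff001) b9278 (.hit (nat_lit 7) (nat_lit 30) (nat_lit 0xbc0001780002ff88b) b9281 (.one (nat_lit 6) (nat_lit 3) (nat_lit 25) (nat_lit 0xbc0001780002fef49) b9279 (.nil)))) (.one (nat_lit 56) (nat_lit 8) (nat_lit 31)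 (nat_lit 0xbc0001780002feed9) b9282 (.nil))))) (.tok (nat_lit 64) (nat_lit 0xbc0001780002ff51c) (.hit (nat_lit 10) (nat_lit 50) (nat_lit 0xbc0001780002fe509) b9283 (.hit (nat_lit 11) (nat_lit 51) (nat_lit 0xbc0001780002ff51c) b9284 (.nil))) (.tok (nat_lit 67) (nat_lit 0xbc000178000300000) (.hit (nat_lit 12) (nat_lit 52) (nat_lit 0xbc0001780002ffa9e) b9285 (.tok (nat_lit 3) (nat_lit 0xbc0001780002fffab) (.hit (nat_lit 18) (nat_lit 58) (nat_lit 0xbc0001780002fecf0) b9288 (.one (nat_lit 55) (nat_lit 19) (nat_lit 59) (nat_lit 0xbc0001780002fffab) b9289 (.nil))) (.tok (nat_lit 9) (nat_lit 0xbc000178000300000) (.hit (nat_lit 13) (nat_lit 53) (nat_lit 0xbc000178000300000) b9286 (.hit (nat_lit 16) (nat_lit 56) (nat_lit 0xbc0001780002ffc01) b9287 (.nil))) (.nil)))) (.one (nat_lit 70) (nat_lit 20) (nat_lit 60) (nat_lit 0xbc0001780002ff36a) b9290 (.nil)))))) (.nil))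
noncomputable def r15_176 : Rw Blk := .tok (nat_lit 6) (nat_lit 0x180000300000600000bfff397ffe12ffff2600a5ac0000180000300000) (.hit (nat_lit 81) (nat_lit 0) (nat_lit 0x17f24bafe7735fc4d2bfa0cd7f07c2ff1855fb516bf8eb17f1db2fe260) b30237 (.tok (nat_lit 3) (nat_lit 0x17f454aff15d5fd6dcbfa1117f383afe8a75fd876bfacbd7f8d32fe676) (.hit (nat_lit 82) (nat_lit 1) (nat_lit 0x17e5d9afcca95fa02cbf2eb97e609afcc425f98e0bf3cf57ed14afd8a9) b30238 (.one (nat_lit 14) (nat_lit 84) (nat_lit 4) (nat_lit 0x17f454aff15d5fd6dcbfa1117f383afe8a75fd876bfacbd7f8d32fe676) b30239 (.one (nat_lit 56) (nat_lit 86) (nat_lit 6) (nat_lit 0x17f1532fe4d75fc432bf8a917f0d32fe2a65fc6c8bf98017f7d4afe1ec) b30240 (.nil)))) (.tok (nat_lit 40) (nat_lit 0x17f49b2feccc5fd78ebfa4cd7f41a2fe9385fd0c0bfb14d7fc792febf3) (.hit (nat_lit 100) (nat_lit 33) (nat_lit 0x17f49b2feccc5fd78ebfa4cd7f41a2fe9385fd0c0bfb14d7fc792febf3) b30241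 (.hit (nat_lit 101) (nat_lit 34) (nat_lit 0x17f190afe6a95fc002bf8c917f1902fe3215fcb46bf99c17f611afe17c) b30242 (.nil))) (.tok (nat_lit 43) (nat_lit 0x17f36f3000005fde4abfd0197f76d2ff4695fd284bfc7197f63aafec4d) (.hit (nat_lit 102) (nat_lit 35) (nat_lit 0x17f36f3000005fde4abfd0197f76d2ff4695fd284bfc7197f63aafec4d) b30243 (.hit (nat_lit 103) (nat_lit 36) (nat_lit 0x17eca7afe5e05fb970bf9ec17f38d2fea0d5fb76abf87a57f554afe581) b30244 (.nil))) (.tok (nat_lit 46) (nat_lit 0x1800002ffe3f600000bfff397ffe12ffff2600a5ac0000180000300000) (.hit (nat_lit 104) (nat_lit 37) (nat_lit 0x17f4642fe4935ff650bfc5117f4782ff9865fc346bfaa617f4732ffea2) b30245 (.hit (nat_lit 105) (nat_lit 38) (nat_lit 0x1800002ffe3f600000bfff397ffe12ffff2600a5ac0000180000300000) b30246 (.nil))) (.nil)))))) (.tok (nat_lit 9) (nat_lit 0x180000300000600000c00001800003000005fc346bfaa617f95a2ff1e5) (.hit (nat_lit 157) (nat_lit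 0) (nat_lit 0x17f24bafe7735fc4d2bfc0a97f4f52ff3105fbc26bf9f597ee642fe25c) b30247 (.tok (nat_lit 3) (nat_lit 0x17f454aff15d5fd6dcbfa28d7f3d22fe8a95f8d78bf3ec57ef032fdd45) (.hit (nat_lit 158) (nat_lit 1) (nat_lit 0x17e5d9afcca95fa02cbf2eb97e60a2fcc425f68bebef5517e5f7afd886) b30248 (.one (nat_lit 14) (nat_lit 160) (nat_lit 4) (nat_lit 0x17f454aff15d5fd6dcbfa28d7f3d22fe8a95f7dc6bf1f617ed852fdd45) b30249 (.one (nat_lit 68) (nat_lit 161) (nat_lit 5) (nat_lit 0x17f1532fe4d75fc432bf8a857f0d32fe2a65f8d78bf3ec57ef032fdaa6) b30250 (.nil)))) (.tok (nat_lit 40) (nat_lit 0x17f49b2feccc5fd78ebfa4cd7f41c2fe9385f9240bf48557f130afda76) (.hit (nat_lit 176) (nat_lit 33) (nat_lit 0x17f49b2feccc5fd78ebfa4cd7f41c2fe9385f9240bf48557f130afda76) b30251 (.hit (nat_lit 177) (nat_lit 34) (nat_lit 0x17f190afe6a95fc002bf8c7d7f190afe3215f85ccbf2f6d7eff02fda45) b30252 (.nil))) (.tok (nat_lit 43) (nat_lit 0x1800002ffe3f600000c00001800003000005fc346bfaa617f95a2ff1e5)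 (.hit (nat_lit 178) (nat_lit 35) (nat_lit 0x17f4642fe4935ff650bfc5117f4782ff9865fc346bfaa617f4732ff1e5) b30253 (.hit (nat_lit 179) (nat_lit 36) (nat_lit 0x1800002ffe3f600000c00001800003000005faf6cbf82ad7f95a2feccd) b30254 (.nil))) (.tok (nat_lit 46) (nat_lit 0x17f36f3000005fde4abfd93d7fadeaff5285fb77ebf92d17f3432fea52) (.hit (nat_lit 180) (nat_lit 37) (nat_lit 0x17f36f3000005fde4abfd93d7fadeaff5285fb77ebf92d17f3432fea52) b30255 (.hit (nat_lit 181) (nat_lit 38) (nat_lit 0x17eca7afe5e05fb970bfa3917f474afea0d5fa454bf6c7d7f2dd2fe420) b30256 (.nil))) (.nil)))))) (.nil))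
noncomputable def r15_177 : Rw Blk := .tok (nat_lit 3) (nat_lit 0x2f00005e0000bf69197f8762ff4bf) (.hit (nat_lit 61) (nat_lit 0) (nat_lit 0x2f00005e0000bf05557ea6c2fdcc4) b30257 (.tok (nat_lit 14) (nat_lit 0x2f00005e0000bf69197f8762ff4bf) (.hit (nat_lit 82) (nat_lit 61) (nat_lit 0x2f00005e0000bf48917f0e32fec69) b30258 (.one (nat_lit 3) (nat_lit 83) (nat_lit 62) (nat_lit 0x2f00005e0000bee9f17e368afcca6) b30259 (.tok (nat_lit 6) (nat_lit 0x2f00005e0000befc1d7e5ae2fd131) (.hit (nat_lit 86) (nat_lit 65) (nat_lit 0x2f00005e0000bef8b17e540afd056) b30262 (.hit (nat_lit 87) (nat_lit 66) (nat_lit 0x2f00005e0000befc1d7e5ae2fd131) b30263 (.nil))) (.tok (nat_lit 9) (nat_lit 0x2f00005e0000bf69197f8762ff4bf) (.hit (nat_lit 84) (nat_lit 63) (nat_lit 0x2f00005e0000bf69197f8762ff4bf) b30260 (.hit (nat_lit 85) (nat_lit 64) (nat_lit 0x2f00005e0000bef4e57e4c72fcf63) b30261 (.nil))) (.nil))))) (.one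 (nat_lit 17) (nat_lit 88) (nat_lit 67) (nat_lit 0x2f00005e0000bed8797e139afc848) b30264 (.tok (nat_lit 20) (nat_lit 0x2f00005e0000bef11d7e44e2fce71) (.hit (nat_lit 89) (nat_lit 68) (nat_lit 0x2f00005e0000bef11d7e44e2fce71) b30265 (.hit (nat_lit 90) (nat_lit 69) (nat_lit 0x2f00005e0000bed09d7e03e2fc651) b30266 (.nil))) (.tok (nat_lit 23) (nat_lit 0x2f00005e0000bf09b17e760afd496) (.hit (nat_lit 91) (nat_lit 70) (nat_lit 0x2f00005e0000bf09b17e760afd496) b30267 (.hit (nat_lit 92) (nat_lit 71) (nat_lit 0x2f00005e0000bed11d7e04e2fc671) b30268 (.nil))) (.one (nat_lit 26) (nat_lit 93) (nat_lit 72) (nat_lit 0x2f00005e0000be86b17d700afb3d6) b30269 (.one (nat_lit 29) (nat_lit 94) (nat_lit 73) (nat_lit 0x2f00005e0000be90dd7d8462fb661) b30270 (.one (nat_lit 32) (nat_lit 95) (nat_lit 74) (nat_lit 0x2f00005e0000beb5997dcddafbf90) b30271 (.one (nat_lit 35) (nat_lit 96) (nat_lit 75) (nat_lit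 0x2f00005e0000bea1617da56afba82) b30272 (.one (nat_lit 38) (nat_lit 97) (nat_lit 76) (nat_lit 0x2f00005e0000beccf97dfc9afc568) b30273 (.tok (nat_lit 41) (nat_lit 0x2f00005e0000bec5e57dee72fc3a3) (.hit (nat_lit 98) (nat_lit 77) (nat_lit 0x2f00005e0000be6bf57d3a92fad27) b30274 (.hit (nat_lit 99) (nat_lit 78) (nat_lit 0x2f00005e0000bec5e57dee72fc3a3) b30275 (.nil))) (.tok (nat_lit 44) (nat_lit 0x2f00005e0000beae997dbfdafbdd0) (.hit (nat_lit 100) (nat_lit 79) (nat_lit 0x2f00005e0000be7c457d5b32fb13b) b30276 (.hit (nat_lit 101) (nat_lit 80) (nat_lit 0x2f00005e0000beae997dbfdafbdd0) b30277 (.nil))) (.tok (nat_lit 47) (nat_lit 0x2f00005e0000beb24d7dc742fbebd) (.hit (nat_lit 102) (nat_lit 81) (nat_lit 0x2f00005e0000beae657dbf72fbdc3) b30278 (.hit (nat_lit 103) (nat_lit 82) (nat_lit 0x2f00005e0000beb24d7dc742fbebd) b30279 (.nil))) (.one (nat_lit 50) (nat_lit 104) (nat_lit 83) (nat_lit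 0x2f00005e0000becf017e00aafc5ea) b30280 (.tok (nat_lit 53) (nat_lit 0x2f00005e0000bedc2d7e1b02fc935) (.hit (nat_lit 105) (nat_lit 84) (nat_lit 0x2f00005e0000bedc2d7e1b02fc935) b30281 (.hit (nat_lit 106) (nat_lit 85) (nat_lit 0x2f00005e0000bec0cd7de442fc25d) b30282 (.nil))) (.tok (nat_lit 56) (nat_lit 0x2f00005e0000bf48857f1f4afebde) (.hit (nat_lit 107) (nat_lit 86) (nat_lit 0x2f00005e0000bf2b757f1452fe5df) b30283 (.one (nat_lit 3) (nat_lit 111) (nat_lit 90) (nat_lit 0x2f00005e0000befb697e597afd104) b30287 (.tok (nat_lit 6) (nat_lit 0x2f00005e0000bf48857f1f4afebde) (.hit (nat_lit 109) (nat_lit 88) (nat_lit 0x2f00005e0000bf48857f1f4afebde) b30285 (.hit (nat_lit 110) (nat_lit 89) (nat_lit 0x2f00005e0000befc397e5b1afd138) b30286 (.nil))) (.one (nat_lit 9) (nat_lit 108) (nat_lit 87) (nat_lit 0x2f00005e0000bf07857e71b2fd40b) b30284 (.nil))))) (.one (nat_lit 59) (nat_lit 112) (nat_lit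 91) (nat_lit 0x2f00005e0000be7dc57d5e32fb19b) b30288 (.nil)))))))))))))))))) (.tok (nat_lit 40) (nat_lit 0x2f00005e0000c0a71581e653038a5) (.hit (nat_lit 245) (nat_lit 0) (nat_lit 0x2f00005e0000c0226d8089eb014ae) b30289 (.tok (nat_lit 6) (nat_lit 0x2f00005e0000c0a71581e653038a5) (.hit (nat_lit 246) (nat_lit 7) (nat_lit 0x2f00005e0000c0a71581e653038a5) b30290 (.hit (nat_lit 247) (nat_lit 15) (nat_lit 0x2f00005e0000bf85117fb22affa9d) b30291 (.nil))) (.tok (nat_lit 9) (nat_lit 0x2f00005e0000bfce957fb9ab0026f) (.hit (nat_lit 248) (nat_lit 20) (nat_lit 0x2f00005e0000bfce957fb9ab0026f) b30292 (.hit (nat_lit 249) (nat_lit 28) (nat_lit 0x2f00005e0000bf8bc97f933aff7ca) b30293 (.nil))) (.nil)))) (.tok (nat_lit 43) (nat_lit 0x2f00005e0000c08b6980ba1b02e99) (.hit (nat_lit 270) (nat_lit 0) (nat_lit 0x2f00005e0000bfc30d7fef22ffb30) b30299 (.tok (nat_lit 3) (nat_lit 0x2f00005e0000c08b69805b3b02e99)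 (.hit (nat_lit 271) (nat_lit 1) (nat_lit 0x2f00005e0000bf8ae97f59f2ff687) b30300 (.one (nat_lit 67) (nat_lit 272) (nat_lit 2) (nat_lit 0x2f00005e0000c08b69805b3b02e99) b30301 (.nil))) (.tok (nat_lit 6) (nat_lit 0x2f00005e0000c0301580ba1b01cfb) (.hit (nat_lit 273) (nat_lit 7) (nat_lit 0x2f00005e0000bf33d97eb322fd9aa) b30302 (.hit (nat_lit 276) (nat_lit 15) (nat_lit 0x2f00005e0000bf7b217ec26afe4a7) b30305 (.tok (nat_lit 55) (nat_lit 0x2f00005e0000c0301580ba1b01cfb) (.hit (nat_lit 274) (nat_lit 8) (nat_lit 0x2f00005e0000bf88197fb21affd01) b30303 (.hit (nat_lit 277) (nat_lit 16) (nat_lit 0x2f00005e0000c0301580022301a88) b30306 (.one (nat_lit 6) (nat_lit 275) (nat_lit 9) (nat_lit 0x2f00005e0000c0107180ba1b01cfb) b30304 (.nil)))) (.nil)))) (.nil)))) (.tok (nat_lit 46) (nat_lit 0x2f00005e0000bfda05800c9b00090) (.hit (nat_lit 256) (nat_lit 0) (nat_lit 0x2f00005e0000bfda05800c9b00090)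 b30294 (.tok (nat_lit 3) (nat_lit 0x2f00005e0000bf55957f4ee2fea7b) (.hit (nat_lit 257) (nat_lit 1) (nat_lit 0x2f00005e0000bef5d17e8f5afd28a) b30295 (.one (nat_lit 55) (nat_lit 258) (nat_lit 3) (nat_lit 0x2f00005e0000bf55957f4ee2fea7b) b30296 (.nil))) (.tok (nat_lit 9) (nat_lit 0x2f00005e0000bf14f97ecdaafda54) (.hit (nat_lit 259) (nat_lit 20) (nat_lit 0x2f00005e0000bf14f97ecdaafda54) b30297 (.hit (nat_lit 262) (nat_lit 28) (nat_lit 0x2f00005e0000bf003d7ea432fd525) b30298 (.nil))) (.nil)))) (.nil))))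
noncomputable def r15_178 : Rw Blk := .tok (nat_lit 3) (nat_lit 0x5e0000bc00017efe82ff5fb) (.hit (nat_lit 61) (nat_lit 0) (nat_lit 0x5e0000bc00017e3baafdebe) b30307 (.tok (nat_lit 14) (nat_lit 0x5e0000bc00017efe82ff5fb) (.hit (nat_lit 82) (nat_lit 61) (nat_lit 0x5e0000bc00017ec7f2fee6d) b30308 (.one (nat_lit 3) (nat_lit 83) (nat_lit 62) (nat_lit 0x5e0000bc00017e5b7afda7d) b30309 (.tok (nat_lit 6) (nat_lit 0x5e0000bc00017ec11afea73) (.hit (nat_lit 86) (nat_lit 65) (nat_lit 0x5e0000bc00017ec11afea73) b30312 (.hit (nat_lit 87) (nat_lit 66) (nat_lit 0x5e0000bc00017e2a52fd458) b30313 (.nil))) (.tok (nat_lit 9) (nat_lit 0x5e0000bc00017efe82ff5fb) (.hit (nat_lit 84) (nat_lit 63) (nat_lit 0x5e0000bc00017efe82ff5fb) b30310 (.hit (nat_lit 85) (nat_lit 64) (nat_lit 0x5e0000bc00017ea7bafe405) b30311 (.nil))) (.nil))))) (.one (nat_lit 17) (nat_lit 88) (nat_lit 67) (nat_lit 0x5e0000bc00017e22dafd369)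 b30314 (.tok (nat_lit 20) (nat_lit 0x5e0000bc00017df58afcdbf) (.hit (nat_lit 89) (nat_lit 68) (nat_lit 0x5e0000bc00017df58afcdbf) b30315 (.hit (nat_lit 90) (nat_lit 69) (nat_lit 0x5e0000bc00017db342fc576) b30316 (.nil))) (.tok (nat_lit 23) (nat_lit 0x5e0000bc00017ded5afccb9) (.hit (nat_lit 91) (nat_lit 70) (nat_lit 0x5e0000bc00017ded5afccb9) b30317 (.hit (nat_lit 92) (nat_lit 71) (nat_lit 0x5e0000bc00017db342fc576) b30316 (.nil))) (.one (nat_lit 26) (nat_lit 93) (nat_lit 72) (nat_lit 0x5e0000bc00017d5782fb9fe) b30318 (.one (nat_lit 29) (nat_lit 94) (nat_lit 73) (nat_lit 0x5e0000bc00017d5d62fbaba) b30319 (.one (nat_lit 32) (nat_lit 95) (nat_lit 74) (nat_lit 0x5e0000bc00017d84cafbfa7) b30320 (.one (nat_lit 35) (nat_lit 96) (nat_lit 75) (nat_lit 0x5e0000bc00017d370afb5ef) b30321 (.one (nat_lit 38) (nat_lit 97) (nat_lit 76) (nat_lit 0x5e0000bc00017dbc8afc69f) b30322 (.tok (nat_lit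 41) (nat_lit 0x5e0000bc00017dfdfafcecd) (.hit (nat_lit 98) (nat_lit 77) (nat_lit 0x5e0000bc00017ce3fafab8d) b30323 (.hit (nat_lit 99) (nat_lit 78) (nat_lit 0x5e0000bc00017dfdfafcecd) b30324 (.nil))) (.tok (nat_lit 44) (nat_lit 0x5e0000bc00017d88b2fc024) (.hit (nat_lit 100) (nat_lit 79) (nat_lit 0x5e0000bc00017d3302fb56e) b30325 (.hit (nat_lit 101) (nat_lit 80) (nat_lit 0x5e0000bc00017d88b2fc024) b30326 (.nil))) (.tok (nat_lit 47) (nat_lit 0x5e0000bc00017dbd8afc6bf) (.hit (nat_lit 102) (nat_lit 81) (nat_lit 0x5e0000bc00017d5f12fbaf0) b30327 (.hit (nat_lit 103) (nat_lit 82) (nat_lit 0x5e0000bc00017dbd8afc6bf) b30328 (.nil))) (.one (nat_lit 50) (nat_lit 104) (nat_lit 83) (nat_lit 0x5e0000bc00017da84afc417) b30329 (.tok (nat_lit 53) (nat_lit 0x5e0000bc00017df522fcdb2) (.hit (nat_lit 105) (nat_lit 84) (nat_lit 0x5e0000bc00017dc47afc79d) b30330 (.hit (nat_lit 106) (nat_lit 85) (nat_lit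 0x5e0000bc00017df522fcdb2) b30331 (.nil))) (.tok (nat_lit 56) (nat_lit 0x5e0000bc00017ec792ff005) (.hit (nat_lit 107) (nat_lit 86) (nat_lit 0x5e0000bc00017eb6eafee3c) b30332 (.one (nat_lit 3) (nat_lit 111) (nat_lit 90) (nat_lit 0x5e0000bc00017e3c52fd698) b30336 (.tok (nat_lit 6) (nat_lit 0x5e0000bc00017ec792ff005) (.hit (nat_lit 109) (nat_lit 88) (nat_lit 0x5e0000bc00017ec792ff005) b30334 (.hit (nat_lit 110) (nat_lit 89) (nat_lit 0x5e0000bc00017df2a2fcd62) b30335 (.nil))) (.one (nat_lit 9) (nat_lit 108) (nat_lit 87) (nat_lit 0x5e0000bc00017e393afd635) b30333 (.nil))))) (.one (nat_lit 59) (nat_lit 112) (nat_lit 91) (nat_lit 0x5e0000bc00017d134afb177) b30337 (.nil)))))))))))))))))) (.tok (nat_lit 40) (nat_lit 0x5e0000bc00018015e300f6a) (.hit (nat_lit 245) (nat_lit 0) (nat_lit 0x5e0000bc00018015e300f6a) b30338 (.tok (nat_lit 6) (nat_lit 0x5e0000bc00017fdaab00ece) (.hit (nat_lit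 246) (nat_lit 7) (nat_lit 0x5e0000bc00017fdaab00ece) b30339 (.hit (nat_lit 247) (nat_lit 15) (nat_lit 0x5e0000bc00017f6c13002dd) b30340 (.nil))) (.tok (nat_lit 9) (nat_lit 0x5e0000bc00017fd02300c35) (.hit (nat_lit 248) (nat_lit 20) (nat_lit 0x5e0000bc00017fd02300c35) b30341 (.hit (nat_lit 249) (nat_lit 28) (nat_lit 0x5e0000bc00017f52aaffd45) b30342 (.nil))) (.nil)))) (.tok (nat_lit 43) (nat_lit 0x5e0000bc000180947b01f45) (.hit (nat_lit 270) (nat_lit 0) (nat_lit 0x5e0000bc00017f79eaffe12) b30348 (.tok (nat_lit 3) (nat_lit 0x5e0000bc000180947b01f45) (.hit (nat_lit 271) (nat_lit 1) (nat_lit 0x5e0000bc00017f189aff99d) b30349 (.one (nat_lit 67) (nat_lit 272) (nat_lit 2) (nat_lit 0x5e0000bc000180947b01f45) b30350 (.nil))) (.tok (nat_lit 6) (nat_lit 0x5e0000bc00018041e300fe1) (.hit (nat_lit 273) (nat_lit 7) (nat_lit 0x5e0000bc00017efeaafe9b7) b30351 (.hit (nat_lit 276) (nat_lit 15)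 (nat_lit 0x5e0000bc00017ef85afecb3) b30354 (.tok (nat_lit 55) (nat_lit 0x5e0000bc00018041e300fe1) (.hit (nat_lit 274) (nat_lit 8) (nat_lit 0x5e0000bc00017fbd9b007d5) b30352 (.hit (nat_lit 277) (nat_lit 16) (nat_lit 0x5e0000bc000180066300ea7) b30355 (.one (nat_lit 6) (nat_lit 275) (nat_lit 9) (nat_lit 0x5e0000bc00018041e300fe1) b30353 (.nil)))) (.nil)))) (.nil)))) (.tok (nat_lit 46) (nat_lit 0x5e0000bc000180084b01188) (.hit (nat_lit 256) (nat_lit 0) (nat_lit 0x5e0000bc00017fda5300bab) b30343 (.tok (nat_lit 3) (nat_lit 0x5e0000bc00017fce4b0102e) (.hit (nat_lit 257) (nat_lit 1) (nat_lit 0x5e0000bc00017f0e1afec61) b30344 (.one (nat_lit 55) (nat_lit 258) (nat_lit 3) (nat_lit 0x5e0000bc00017fce4b0102e) b30345 (.nil))) (.tok (nat_lit 9) (nat_lit 0x5e0000bc000180084b01188) (.hit (nat_lit 259) (nat_lit 20) (nat_lit 0x5e0000bc000180084b01188) b30346 (.hit (nat_lit 262) (nat_lit 28) (nat_lit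 0x5e0000bc00017faa230042c) b30347 (.nil))) (.nil)))) (.nil))))
noncomputable def r15_179 : Rw Blk := .tok (nat_lit 3) (nat_lit 0xbc0001780002fed20) (.hit (nat_lit 61) (nat_lit 0) (nat_lit 0xbc0001780002fd42f) b30356 (.tok (nat_lit 14) (nat_lit 0xbc0001780002fed20) (.hit (nat_lit 82) (nat_lit 61) (nat_lit 0xbc0001780002fe4fe) b30357 (.one (nat_lit 3) (nat_lit 83) (nat_lit 62) (nat_lit 0xbc0001780002fcd56) b30358 (.tok (nat_lit 6) (nat_lit 0xbc0001780002fed20) (.hit (nat_lit 86) (nat_lit 65) (nat_lit 0xbc0001780002fed20) b30361 (.hit (nat_lit 87) (nat_lit 66) (nat_lit 0xbc0001780002fd013) b30362 (.nil))) (.tok (nat_lit 9) (nat_lit 0xbc0001780002fd1e1) (.hit (nat_lit 84) (nat_lit 63) (nat_lit 0xbc0001780002fd106) b30359 (.hit (nat_lit 85) (nat_lit 64) (nat_lit 0xbc0001780002fd1e1) b30360 (.nil))) (.nil))))) (.one (nat_lit 17) (nat_lit 88) (nat_lit 67) (nat_lit 0xbc0001780002fc8f8)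 b30363 (.tok (nat_lit 20) (nat_lit 0xbc0001780002fd546) (.hit (nat_lit 89) (nat_lit 68) (nat_lit 0xbc0001780002fd546) b30364 (.hit (nat_lit 90) (nat_lit 69) (nat_lit 0xbc0001780002fc721) b30365 (.nil))) (.tok (nat_lit 23) (nat_lit 0xbc0001780002fcf21) (.hit (nat_lit 91) (nat_lit 70) (nat_lit 0xbc0001780002fcf21) b30366 (.hit (nat_lit 92) (nat_lit 71) (nat_lit 0xbc0001780002fc701) b30367 (.nil))) (.one (nat_lit 26) (nat_lit 93) (nat_lit 72) (nat_lit 0xbc0001780002fb486) b30368 (.one (nat_lit 29) (nat_lit 94) (nat_lit 73) (nat_lit 0xbc0001780002fb711) b30369 (.one (nat_lit 32) (nat_lit 95) (nat_lit 74) (nat_lit 0xbc0001780002fbb32) b30370 (.one (nat_lit 35) (nat_lit 96) (nat_lit 75) (nat_lit 0xbc0001780002fc040) b30371 (.one (nat_lit 38) (nat_lit 97) (nat_lit 76) (nat_lit 0xbc0001780002fc618) b30372 (.tok (nat_lit 41) (nat_lit 0xbc0001780002fc453) (.hit (nat_lit 98) (nat_lit 77)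 (nat_lit 0xbc0001780002fadd7) b30373 (.hit (nat_lit 99) (nat_lit 78) (nat_lit 0xbc0001780002fc453) b30374 (.nil))) (.tok (nat_lit 44) (nat_lit 0xbc0001780002fbf6d) (.hit (nat_lit 100) (nat_lit 79) (nat_lit 0xbc0001780002fbe73) b30375 (.hit (nat_lit 101) (nat_lit 80) (nat_lit 0xbc0001780002fbf6d) b30376 (.nil))) (.tok (nat_lit 47) (nat_lit 0xbc0001780002fbe80) (.hit (nat_lit 102) (nat_lit 81) (nat_lit 0xbc0001780002fb1eb) b30377 (.hit (nat_lit 103) (nat_lit 82) (nat_lit 0xbc0001780002fbe80) b30378 (.nil))) (.one (nat_lit 62) (nat_lit 113) (nat_lit 92) (nat_lit 0xbc0001780002fc69a) b30379 (.tok (nat_lit 65) (nat_lit 0xbc0001780002fc9e5) (.hit (nat_lit 114) (nat_lit 93) (nat_lit 0xbc0001780002fc9e5) b30380 (.hit (nat_lit 115) (nat_lit 94) (nat_lit 0xbc0001780002fc30d) b30381 (.nil))) (.tok (nat_lit 68) (nat_lit 0xbc0001780002fe4fb) (.hit (nat_lit 116) (nat_lit 95) (nat_lit 0xbc0001780002fddb7)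 b30382 (.one (nat_lit 3) (nat_lit 120) (nat_lit 99) (nat_lit 0xbc0001780002fd1b4) b30386 (.one (nat_lit 6) (nat_lit 117) (nat_lit 96) (nat_lit 0xbc0001780002fd4bb) b30383 (.tok (nat_lit 9) (nat_lit 0xbc0001780002fe4fb) (.hit (nat_lit 118) (nat_lit 97) (nat_lit 0xbc0001780002fe4fb) b30384 (.hit (nat_lit 119) (nat_lit 98) (nat_lit 0xbc0001780002fd1e8) b30385 (.nil))) (.nil))))) (.one (nat_lit 71) (nat_lit 121) (nat_lit 100) (nat_lit 0xbc0001780002fb24b) b30387 (.nil)))))))))))))))))) (.tok (nat_lit 40) (nat_lit 0xbc000178000303c9f) (.hit (nat_lit 221) (nat_lit 0) (nat_lit 0xbc000178000301b75) b30388 (.tok (nat_lit 6) (nat_lit 0xbc00017800030067f) (.hit (nat_lit 222) (nat_lit 7) (nat_lit 0xbc00017800030067f) b30389 (.hit (nat_lit 223) (nat_lit 15) (nat_lit 0xbc0001780002ff5cc) b30390 (.nil))) (.tok (nat_lit 9) (nat_lit 0xbc000178000303c9f) (.hit (nat_lit 224) (nat_lit 20) (nat_lit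 0xbc000178000303c9f) b30391 (.hit (nat_lit 225) (nat_lit 28) (nat_lit 0xbc0001780002ff41e) b30392 (.nil))) (.nil)))) (.tok (nat_lit 43) (nat_lit 0xbc00017800030095b) (.hit (nat_lit 232) (nat_lit 0) (nat_lit 0xbc00017800030095b) b30393 (.tok (nat_lit 3) (nat_lit 0xbc0001780002fe83f) (.hit (nat_lit 233) (nat_lit 1) (nat_lit 0xbc0001780002fd04e) b30394 (.one (nat_lit 67) (nat_lit 234) (nat_lit 2) (nat_lit 0xbc0001780002fe83f) b30395 (.nil))) (.tok (nat_lit 6) (nat_lit 0xbc0001780002fd818) (.hit (nat_lit 235) (nat_lit 7) (nat_lit 0xbc0001780002fd818) b30396 (.hit (nat_lit 238) (nat_lit 15) (nat_lit 0xbc0001780002fd2e9) b30397 (.nil))) (.nil)))) (.tok (nat_lit 46) (nat_lit 0xbc0001780003035b4) (.hit (nat_lit 246) (nat_lit 0) (nat_lit 0xbc00017800030039d) b30398 (.tok (nat_lit 3) (nat_lit 0xbc0001780003035b4) (.hit (nat_lit 247) (nat_lit 1) (nat_lit 0xbc0001780002ff594) b30399 (.one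 (nat_lit 55) (nat_lit 248) (nat_lit 3) (nat_lit 0xbc0001780003035b4) b30400 (.nil))) (.tok (nat_lit 9) (nat_lit 0xbc000178000301edf) (.hit (nat_lit 249) (nat_lit 20) (nat_lit 0xbc0001780002fdfd0) b30401 (.hit (nat_lit 252) (nat_lit 28) (nat_lit 0xbc0001780002ff1a2) b30404 (.tok (nat_lit 67) (nat_lit 0xbc000178000301edf) (.hit (nat_lit 250) (nat_lit 21) (nat_lit 0xbc0001780002ff4e0) b30402 (.hit (nat_lit 253) (nat_lit 29) (nat_lit 0xbc000178000301edf) b30405 (.one (nat_lit 9) (nat_lit 251) (nat_lit 22) (nat_lit 0xbc0001780003016f6) b30403 (.nil)))) (.nil)))) (.nil)))) (.nil))))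
noncomputable def r15_180 : Rw Blk := .tok (nat_lit 3) (nat_lit 0x5e0000bc00017ee182ff2d5) (.hit (nat_lit 61) (nat_lit 0) (nat_lit 0x5e0000bc00017e1eaafdc76) b30406 (.tok (nat_lit 14) (nat_lit 0x5e0000bc00017ee182ff2d5) (.hit (nat_lit 82) (nat_lit 61) (nat_lit 0x5e0000bc00017eaaf2fede7) b30407 (.one (nat_lit 3) (nat_lit 83) (nat_lit 62) (nat_lit 0x5e0000bc00017e3e7afe0b8) b30408 (.tok (nat_lit 6) (nat_lit 0x5e0000bc00017ee182ff2d5) (.hit (nat_lit 86) (nat_lit 65) (nat_lit 0x5e0000bc00017ee182ff2d5) b30411 (.hit (nat_lit 87) (nat_lit 66) (nat_lit 0x5e0000bc00017e8abafea40) b30412 (.nil))) (.tok (nat_lit 9) (nat_lit 0x5e0000bc00017ea41aff0b3) (.hit (nat_lit 84) (nat_lit 63) (nat_lit 0x5e0000bc00017ea41aff0b3) b30409 (.hit (nat_lit 85) (nat_lit 64) (nat_lit 0x5e0000bc00017e0d52fda93) b30410 (.nil))) (.nil))))) (.one (nat_lit 17) (nat_lit 88) (nat_lit 67) (nat_lit 0x5e0000bc00017e05dafd9a4)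 b30413 (.tok (nat_lit 20) (nat_lit 0x5e0000bc00017dd05afd2f4) (.hit (nat_lit 89) (nat_lit 68) (nat_lit 0x5e0000bc00017dd05afd2f4) b30414 (.hit (nat_lit 90) (nat_lit 69) (nat_lit 0x5e0000bc00017d9642fcbb1) b30415 (.nil))) (.tok (nat_lit 23) (nat_lit 0x5e0000bc00017dd88afd3fa) (.hit (nat_lit 91) (nat_lit 70) (nat_lit 0x5e0000bc00017dd88afd3fa) b30416 (.hit (nat_lit 92) (nat_lit 71) (nat_lit 0x5e0000bc00017d9642fcbb1) b30415 (.nil))) (.one (nat_lit 26) (nat_lit 93) (nat_lit 72) (nat_lit 0x5e0000bc00017d3a82fc039) b30417 (.one (nat_lit 29) (nat_lit 94) (nat_lit 73) (nat_lit 0x5e0000bc00017d4062fc0f5) b30418 (.one (nat_lit 32) (nat_lit 95) (nat_lit 74) (nat_lit 0x5e0000bc00017d1a0afbc2a) b30419 (.one (nat_lit 35) (nat_lit 96) (nat_lit 75) (nat_lit 0x5e0000bc00017d67cafc5e2) b30420 (.one (nat_lit 38) (nat_lit 97) (nat_lit 76) (nat_lit 0x5e0000bc00017d9f8afccda) b30421 (.tok (nat_lit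 41) (nat_lit 0x5e0000bc00017de0fafd508) (.hit (nat_lit 98) (nat_lit 77) (nat_lit 0x5e0000bc00017cc6fafb1c8) b30422 (.hit (nat_lit 99) (nat_lit 78) (nat_lit 0x5e0000bc00017de0fafd508) b30423 (.nil))) (.tok (nat_lit 44) (nat_lit 0x5e0000bc00017da08afccfa) (.hit (nat_lit 100) (nat_lit 79) (nat_lit 0x5e0000bc00017d4212fc12b) b30424 (.hit (nat_lit 101) (nat_lit 80) (nat_lit 0x5e0000bc00017da08afccfa) b30425 (.nil))) (.tok (nat_lit 47) (nat_lit 0x5e0000bc00017d6bb2fc65f) (.hit (nat_lit 102) (nat_lit 81) (nat_lit 0x5e0000bc00017d1602fbba9) b30426 (.hit (nat_lit 103) (nat_lit 82) (nat_lit 0x5e0000bc00017d6bb2fc65f) b30427 (.nil))) (.one (nat_lit 62) (nat_lit 113) (nat_lit 92) (nat_lit 0x5e0000bc00017d8b4afca52) b30428 (.tok (nat_lit 65) (nat_lit 0x5e0000bc00017dd822fd3ed) (.hit (nat_lit 114) (nat_lit 93) (nat_lit 0x5e0000bc00017da77afcdd8) b30429 (.hit (nat_lit 115) (nat_lit 94) (nat_lit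 0x5e0000bc00017dd822fd3ed) b30430 (.nil))) (.tok (nat_lit 68) (nat_lit 0x5e0000bc00017eaa92fea33) (.hit (nat_lit 116) (nat_lit 95) (nat_lit 0x5e0000bc00017e99eafea33) b30431 (.one (nat_lit 3) (nat_lit 120) (nat_lit 99) (nat_lit 0x5e0000bc00017e1f52fdcd3) b30435 (.one (nat_lit 6) (nat_lit 117) (nat_lit 96) (nat_lit 0x5e0000bc00017e1c3afdc70) b30432 (.tok (nat_lit 9) (nat_lit 0x5e0000bc00017eaa92fe94f) (.hit (nat_lit 118) (nat_lit 97) (nat_lit 0x5e0000bc00017eaa92fe94f) b30433 (.hit (nat_lit 119) (nat_lit 98) (nat_lit 0x5e0000bc00017dd5a2fd39d) b30434 (.nil))) (.nil))))) (.one (nat_lit 71) (nat_lit 121) (nat_lit 100) (nat_lit 0x5e0000bc00017cf64afb7b2) b30436 (.nil)))))))))))))))))) (.tok (nat_lit 40) (nat_lit 0x5e0000bc00017ff8e300df5) (.hit (nat_lit 221) (nat_lit 0) (nat_lit 0x5e0000bc00017ff8e300df5) b30437 (.tok (nat_lit 6) (nat_lit 0x5e0000bc00017fb32300c71) (.hit (nat_lit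 222) (nat_lit 7) (nat_lit 0x5e0000bc00017fb32300c71) b30438 (.hit (nat_lit 223) (nat_lit 15) (nat_lit 0x5e0000bc00017f35aaffea9) b30439 (.nil))) (.tok (nat_lit 9) (nat_lit 0x5e0000bc00017fbdab00ce1) (.hit (nat_lit 224) (nat_lit 20) (nat_lit 0x5e0000bc00017fbdab00ce1) b30440 (.hit (nat_lit 225) (nat_lit 28) (nat_lit 0x5e0000bc00017f4f1300042) b30441 (.nil))) (.nil)))) (.tok (nat_lit 43) (nat_lit 0x5e0000bc00017feb4b015ed) (.hit (nat_lit 232) (nat_lit 0) (nat_lit 0x5e0000bc00017fbd5300e12) b30442 (.tok (nat_lit 3) (nat_lit 0x5e0000bc00017fb14b015ed) (.hit (nat_lit 233) (nat_lit 1) (nat_lit 0x5e0000bc00017ef11afeda4) b30443 (.one (nat_lit 67) (nat_lit 234) (nat_lit 2) (nat_lit 0x5e0000bc00017fb14b015ed) b30444 (.nil))) (.tok (nat_lit 6) (nat_lit 0x5e0000bc00017feb4b015a0) (.hit (nat_lit 235) (nat_lit 7) (nat_lit 0x5e0000bc00017feb4b015a0) b30445 (.hit (nat_lit 238) (nat_lit 15)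 (nat_lit 0x5e0000bc00017f8d230034f) b30446 (.nil))) (.nil)))) (.tok (nat_lit 46) (nat_lit 0x5e0000bc000180777b02510) (.hit (nat_lit 246) (nat_lit 0) (nat_lit 0x5e0000bc00017f5ceb00086) b30447 (.tok (nat_lit 3) (nat_lit 0x5e0000bc000180777b02510) (.hit (nat_lit 247) (nat_lit 1) (nat_lit 0x5e0000bc00017efb9aff912) b30448 (.one (nat_lit 55) (nat_lit 248) (nat_lit 3) (nat_lit 0x5e0000bc000180777b02510) b30449 (.nil))) (.tok (nat_lit 9) (nat_lit 0x5e0000bc00018024e3012ac) (.hit (nat_lit 249) (nat_lit 20) (nat_lit 0x5e0000bc00017ee1aaff550) b30450 (.hit (nat_lit 252) (nat_lit 28) (nat_lit 0x5e0000bc00017edb5aff47b) b30453 (.tok (nat_lit 67) (nat_lit 0x5e0000bc00018024e3012ac) (.hit (nat_lit 250) (nat_lit 21) (nat_lit 0x5e0000bc00017fa09b00849) b30451 (.hit (nat_lit 253) (nat_lit 29) (nat_lit 0x5e0000bc00017fe96300c43) b30454 (.one (nat_lit 9) (nat_lit 251) (nat_lit 22) (nat_lit 0x5e0000bc00018024e3012ac)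 b30452 (.nil)))) (.nil)))) (.nil)))) (.nil))))
noncomputable def r15_181 : Rw Blk := .tok (nat_lit 3) (nat_lit 0x17ede4afc6905fbf80bf6ae97ed912fdeca5fc452bfabad7f635afede5) (.hit (nat_lit 0) (nat_lit 0) (nat_lit 0x17ede4afc6905fbf80bf6ae97ed912fdeca5fc452bfabad7f635afede5) b30455 (.tok (nat_lit 6) (nat_lit 0x17e74eafaf4d5fba52bf3b5d7e3142fd19e5f699cbf00117ec7eafe1c8) (.hit (nat_lit 1) (nat_lit 7) (nat_lit 0x17e74eafaf4d5fba52bf3b5d7e3142fd19e5f699cbf00117ec7eafe1c8) b30456 (.hit (nat_lit 6) (nat_lit 15) (nat_lit 0x17e6172facde5faa4abf31a17e1dcafcf2f5f64bebef6557e9892fdf7d) b30457 (.nil))) (.tok (nat_lit 9) (nat_lit 0x17e74eafaf4d5fba52bf3b5d7e3142fd19e5f699cbf00117e9132fe1c8) (.hit (nat_lit 10) (nat_lit 20) (nat_lit 0x17e74eafaf4d5fba52bf3b5d7e3142fd19e5f699cbf00117dda9afe1c8) b30458 (.hit (nat_lit 15) (nat_lit 28) (nat_lit 0x17e6172facde5faa4abf31a17e1dcafcf2f5f64bebef6557e9132fdf7d)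 b30459 (.nil))) (.nil)))) (.tok (nat_lit 6) (nat_lit 0x180000300000600000bffc5d7ffae3000006005c0c0000180000300bb1) (.hit (nat_lit 81) (nat_lit 0) (nat_lit 0x17f9062fddea5fd660bfbe817f595afef055fd3debfd1397f68fafee81) b30460 (.one (nat_lit 3) (nat_lit 82) (nat_lit 1) (nat_lit 0x17eb84afba075fb764bf57257eb39afce5f5faf6cbf7ac97f3672fe141) b30461 (.tok (nat_lit 6) (nat_lit 0x180000300000600000bffc5d7ffae3000006005c0c0000180000300bb1) (.hit (nat_lit 87) (nat_lit 7) (nat_lit 0x17f57f2fd8445fd1d2bf8da57f3602fdcd05fb518bf93dd7f5cd2fe07e) b30462 (.hit (nat_lit 95) (nat_lit 15) (nat_lit 0x17ec9fafb9a15fa7babf5da97ec0a2fd0005fabd6bf814d7f14bafdd0a) b30466 (.tok (nat_lit 55) (nat_lit 0x180000300000600000bffc5d7ffae3000006005c0c0000180000300bb1) (.hit (nat_lit 88) (nat_lit 8) (nat_lit 0x17ff622fe7f45fe1debff9117fb78aff7375fe88abff6d17faaa2ffb71) b30463 (.hit (nat_lit 96) (nat_lit 16) (nat_lit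 0x17f8ebafd6225fde6ebfcc7d7f9e4afef075fe174bfec81800002ff9dd) b30467 (.tok (nat_lit 6) (nat_lit 0x180000300000600000bffc5d7ffae3000006005c0c000017fa28b00bb1) (.hit (nat_lit 89) (nat_lit 9) (nat_lit 0x17fa04afefc75fe4a4bfcb097f9292ff2b15fdb1abfd25d7f7ad2fffbc) b30464 (.one (nat_lit 55) (nat_lit 90) (nat_lit 10) (nat_lit 0x180000300000600000bffc5d7ffae3000006005c0c000017fa28b00bb1) b30465 (.nil))) (.nil)))) (.nil)))) (.nil)))) (.tok (nat_lit 9) (nat_lit 0x180000300000600000c00001800003000005fce9abfc5657f7572ff986) (.hit (nat_lit 157) (nat_lit 0) (nat_lit 0x17f9062fddea5fd660bfccad7f5c02fef445fce9abfc5657f7572ff053) b30468 (.one (nat_lit 3) (nat_lit 158) (nat_lit 1) (nat_lit 0x17eb84afba075fb764bf57257eb39afce5f5f5988bedfe97e2dd2fd6fe) b30469 (.tok (nat_lit 9) (nat_lit 0x180000300000600000c00001800003000005fc660bfb9997f563aff986) (.hit (nat_lit 163) (nat_lit 20) (nat_lit 0x17f57f2fd8445fd1d2bf97917f3bdafdcd05f8000bf2cd97e3472fd0a6)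 b30470 (.hit (nat_lit 171) (nat_lit 28) (nat_lit 0x17ec9fafb9a15fa7babf5da97ec0a2fd0005f4898bebe097dfeaafce19) b30474 (.tok (nat_lit 67) (nat_lit 0x180000300000600000c00001800003000005fc660bfb9997f563aff986) (.hit (nat_lit 164) (nat_lit 21) (nat_lit 0x17ff622fe7f45fe1debffdc57fba62ff6d75fa7e0bf7c997edcf2fea70) b30471 (.hit (nat_lit 172) (nat_lit 29) (nat_lit 0x17f8ebafd6225fde6ebfcc7d7f84bafef075fa46ebf75b57f23d2fee38) b30475 (.tok (nat_lit 9) (nat_lit 0x180000300000600000c00001800003000005fc660bfb9997f563aff986) (.hit (nat_lit 165) (nat_lit 22) (nat_lit 0x17fa04afefc75fe4a4bfd0e17f7662ff2b15fabc2bf845d7eef1afe7d8) b30472 (.one (nat_lit 67) (nat_lit 166) (nat_lit 23) (nat_lit 0x180000300000600000c00001800003000005fc660bfb9997f563aff986) b30473 (.nil))) (.nil)))) (.nil)))) (.nil)))) (.nil)))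
noncomputable def r15_182 : Rw Blk := .tok (nat_lit 6) (nat_lit 0x5e0000bc000180000300000) (.hit (nat_lit 51) (nat_lit 0) (nat_lit 0x5e0000bc00017fba1aff1ba) b30486 (.tok (nat_lit 3) (nat_lit 0x5e0000bc00017ff662ff3ca) (.hit (nat_lit 52) (nat_lit 1) (nat_lit 0x5e0000bc00017ee65afd3cf) b30477 (.one (nat_lit 14) (nat_lit 53) (nat_lit 4) (nat_lit 0x5e0000bc00017ff662ff3ca) b30487 (.one (nat_lit 68) (nat_lit 54) (nat_lit 5) (nat_lit 0x5e0000bc00017f79f2fe722) b30488 (.nil)))) (.tok (nat_lit 40) (nat_lit 0x5e0000bc00017faef2fed29) (.hit (nat_lit 56) (nat_lit 33) (nat_lit 0x5e0000bc00017faef2fed29) b30489 (.hit (nat_lit 57) (nat_lit 34) (nat_lit 0x5e0000bc00017f9ec2fe5a9) b30490 (.nil))) (.tok (nat_lit 43) (nat_lit 0x5e0000bc000180000300000) (.hit (nat_lit 58) (nat_lit 35) (nat_lit 0x5e0000bc000180000300000) b30491 (.hit (nat_lit 59) (nat_lit 36) (nat_lit 0x5e0000bc00017fb572ff06d)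 b30485 (.nil))) (.tok (nat_lit 46) (nat_lit 0x5e0000bc00017fdec2ff66b) (.hit (nat_lit 60) (nat_lit 37) (nat_lit 0x5e0000bc00017f2b7afdc5a) b30482 (.hit (nat_lit 61) (nat_lit 38) (nat_lit 0x5e0000bc00017fdec2ff66b) b30492 (.nil))) (.nil)))))) (.tok (nat_lit 9) (nat_lit 0x5e0000bc0001800002ffffd) (.hit (nat_lit 0) (nat_lit 0) (nat_lit 0x5e0000bc00017fba1aff12e) b30476 (.tok (nat_lit 3) (nat_lit 0x5e0000bc00017ff662ff33b) (.hit (nat_lit 1) (nat_lit 1) (nat_lit 0x5e0000bc00017ee65afd3cf) b30477 (.one (nat_lit 14) (nat_lit 2) (nat_lit 4) (nat_lit 0x5e0000bc00017ff662ff33b) b30478 (.one (nat_lit 56) (nat_lit 4) (nat_lit 6) (nat_lit 0x5e0000bc00017f79f2fe840) b30479 (.nil)))) (.tok (nat_lit 40) (nat_lit 0x5e0000bc00017faef2fed0b) (.hit (nat_lit 5) (nat_lit 33) (nat_lit 0x5e0000bc00017faef2fed0b) b30480 (.hit (nat_lit 6) (nat_lit 34) (nat_lit 0x5e0000bc00017f9ec2fe5a5) b30481 (.nil)))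 (.tok (nat_lit 43) (nat_lit 0x5e0000bc00017fdec2ff6e7) (.hit (nat_lit 7) (nat_lit 35) (nat_lit 0x5e0000bc00017f2b7afdc5a) b30482 (.hit (nat_lit 8) (nat_lit 36) (nat_lit 0x5e0000bc00017fdec2ff6e7) b30483 (.nil))) (.tok (nat_lit 46) (nat_lit 0x5e0000bc0001800002ffffd) (.hit (nat_lit 9) (nat_lit 37) (nat_lit 0x5e0000bc0001800002ffffd) b30484 (.hit (nat_lit 10) (nat_lit 38) (nat_lit 0x5e0000bc00017fb572ff06d) b30485 (.nil))) (.nil)))))) (.nil))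
noncomputable def r15_183 : Rw Blk := .tok (nat_lit 3) (nat_lit 0x2f00005e0000bf54f97f0e42fe33d) (.hit (nat_lit 61) (nat_lit 0) (nat_lit 0x2f00005e0000bf48217e714afd778) b30513 (.tok (nat_lit 9) (nat_lit 0x2f00005e0000bf54f97f0e42fe33d) (.hit (nat_lit 62) (nat_lit 20) (nat_lit 0x2f00005e0000beeed97e4202fc9b5) b30514 (.hit (nat_lit 67) (nat_lit 28) (nat_lit 0x2f00005e0000beb6517dd0f2fbb93) b30519 (.tok (nat_lit 14) (nat_lit 0x2f00005e0000bf36f17ed232fdbbb) (.hit (nat_lit 63) (nat_lit 24) (nat_lit 0x2f00005e0000bef7257e529afcbc8) b30515 (.hit (nat_lit 68) (nat_lit 30) (nat_lit 0x2f00005e0000bf06ad7e71aafcfaa) b30520 (.one (nat_lit 6) (nat_lit 64) (nat_lit 25) (nat_lit 0x2f00005e0000bf36f17ed232fdbbb) b30516 (.nil)))) (.one (nat_lit 56) (nat_lit 69) (nat_lit 31) (nat_lit 0x2f00005e0000bf00497e64e2fce11) b30521 (.tok (nat_lit 68) (nat_lit 0x2f00005e0000bf54f97f0e42fe33d) (.hit (nat_lit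 65) (nat_lit 26) (nat_lit 0x2f00005e0000bf34c17ecdd2fdb2f) b30517 (.hit (nat_lit 70) (nat_lit 32) (nat_lit 0x2f00005e0000befa497e58e2fcc91) b30522 (.one (nat_lit 9) (nat_lit 66) (nat_lit 27) (nat_lit 0x2f00005e0000bf54f97f0e42fe33d) b30518 (.nil)))) (.nil)))))) (.nil))) (.tok (nat_lit 6) (nat_lit 0x2f00005e0000c00001801283005a5) (.hit (nat_lit 0) (nat_lit 0) (nat_lit 0x2f00005e0000bfabfd7eacfafde61) b30493 (.tok (nat_lit 6) (nat_lit 0x2f00005e0000bffef5801283005a5) (.hit (nat_lit 1) (nat_lit 7) (nat_lit 0x2f00005e0000bf621d7ed8fafd4e6) b30494 (.hit (nat_lit 6) (nat_lit 15) (nat_lit 0x2f00005e0000bf18297dc6fafbce9) b30499 (.tok (nat_lit 14) (nat_lit 0x2f00005e0000bfe05d801282ffb39) (.hit (nat_lit 2) (nat_lit 11) (nat_lit 0x2f00005e0000bfe05d801282ffb39) b30495 (.hit (nat_lit 7) (nat_lit 17) (nat_lit 0x2f00005e0000bf99717e9b52fdec8) b30500 (.one (nat_lit 9) (nat_lit 3) (nat_lit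 12) (nat_lit 0x2f00005e0000bfdb317fd7e2ff7cc) b30496 (.nil)))) (.tok (nat_lit 56) (nat_lit 0x2f00005e0000bffef57f5b5b005a5) (.hit (nat_lit 4) (nat_lit 13) (nat_lit 0x2f00005e0000bfbe657f5b5afed4d) b30497 (.hit (nat_lit 9) (nat_lit 19) (nat_lit 0x2f00005e0000bf58857e17c2fdc49) b30501 (.one (nat_lit 6) (nat_lit 5) (nat_lit 14) (nat_lit 0x2f00005e0000bffef57f24f3005a5) b30498 (.nil)))) (.nil))))) (.tok (nat_lit 52) (nat_lit 0x2f00005e0000bfaaa97ee7aafe45a) (.hit (nat_lit 10) (nat_lit 39) (nat_lit 0x2f00005e0000bf75dd7ec8dafe1f9) b30502 (.hit (nat_lit 11) (nat_lit 40) (nat_lit 0x2f00005e0000bfaaa97ee7aafe45a) b30503 (.nil))) (.tok (nat_lit 55) (nat_lit 0x2f00005e0000c000017ff67affc23) (.hit (nat_lit 12) (nat_lit 41) (nat_lit 0x2f00005e0000bfe2157fcb32ff4a6) b30504 (.tok (nat_lit 3) (nat_lit 0x2f00005e0000c000017ff67affc23) (.hit (nat_lit 18) (nat_lit 47) (nat_lit 0x2f00005e0000bfb2357f8212feb86)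 b30510 (.one (nat_lit 67) (nat_lit 19) (nat_lit 48) (nat_lit 0x2f00005e0000c000017ff67affc23) b30511 (.nil))) (.tok (nat_lit 6) (nat_lit 0x2f00005e0000bff2057f93daff9ac) (.hit (nat_lit 13) (nat_lit 42) (nat_lit 0x2f00005e0000bf83c97ee1cafe15b) b30505 (.hit (nat_lit 16) (nat_lit 45) (nat_lit 0x2f00005e0000bfb3a17ef8d2feb4f) b30508 (.tok (nat_lit 55) (nat_lit 0x2f00005e0000bff2057f93daff9ac) (.hit (nat_lit 14) (nat_lit 43) (nat_lit 0x2f00005e0000bfdaf57f93daff61b) b30506 (.hit (nat_lit 17) (nat_lit 46) (nat_lit 0x2f00005e0000bff2057f6f3aff96b) b30509 (.one (nat_lit 6) (nat_lit 15) (nat_lit 44) (nat_lit 0x2f00005e0000bfdda97f632aff9ac) b30507 (.nil)))) (.nil)))) (.nil)))) (.one (nat_lit 58) (nat_lit 20) (nat_lit 49) (nat_lit 0x2f00005e0000bfb3597f0c1afe47e) b30512 (.nil)))))) (.nil))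
noncomputable def r15_184 : Rw Blk := .tok (nat_lit 3) (nat_lit 0x5e0000bc00017df87afdd9d) (.hit (nat_lit 61) (nat_lit 0) (nat_lit 0x5e0000bc00017dcf0afd7a5) b30543 (.tok (nat_lit 9) (nat_lit 0x5e0000bc00017df87afdd9d) (.hit (nat_lit 62) (nat_lit 20) (nat_lit 0x5e0000bc00017cf792fbd80) b30544 (.hit (nat_lit 67) (nat_lit 28) (nat_lit 0x5e0000bc00017d130afc0ef) b30549 (.tok (nat_lit 14) (nat_lit 0x5e0000bc00017df87afdd9d) (.hit (nat_lit 63) (nat_lit 24) (nat_lit 0x5e0000bc00017da402fd30e) b30545 (.hit (nat_lit 68) (nat_lit 30) (nat_lit 0x5e0000bc00017d8b8afcfff) b30550 (.one (nat_lit 6) (nat_lit 64) (nat_lit 25) (nat_lit 0x5e0000bc00017df87afdd9d) b30546 (.nil)))) (.one (nat_lit 56) (nat_lit 69) (nat_lit 31) (nat_lit 0x5e0000bc00017dc4bafd725) b30551 (.tok (nat_lit 68) (nat_lit 0x5e0000bc00017dd22afd8d3) (.hit (nat_lit 65) (nat_lit 26) (nat_lit 0x5e0000bc00017db622fd552) b30547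 (.hit (nat_lit 70) (nat_lit 32) (nat_lit 0x5e0000bc00017d9492fd120) b30552 (.one (nat_lit 9) (nat_lit 66) (nat_lit 27) (nat_lit 0x5e0000bc00017dd22afd8d3) b30548 (.nil)))) (.nil)))))) (.nil))) (.tok (nat_lit 6) (nat_lit 0x5e0000bc0001800003014dc) (.hit (nat_lit 0) (nat_lit 0) (nat_lit 0x5e0000bc00017e3cc2fd8c6) b30523 (.tok (nat_lit 6) (nat_lit 0x5e0000bc00017ea82afed73) (.hit (nat_lit 1) (nat_lit 7) (nat_lit 0x5e0000bc00017dde12fc9b1) b30524 (.hit (nat_lit 6) (nat_lit 15) (nat_lit 0x5e0000bc00017d734afc165) b30529 (.tok (nat_lit 14) (nat_lit 0x5e0000bc00017ea82afed73) (.hit (nat_lit 2) (nat_lit 11) (nat_lit 0x5e0000bc00017e63dafe50f) b30525 (.hit (nat_lit 7) (nat_lit 17) (nat_lit 0x5e0000bc00017ea82afd881) b30530 (.one (nat_lit 9) (nat_lit 3) (nat_lit 12) (nat_lit 0x5e0000bc00017e5e1afed73) b30526 (.nil)))) (.tok (nat_lit 56) (nat_lit 0x5e0000bc00017e5fb2fe199) (.hit (nat_lit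 4) (nat_lit 13) (nat_lit 0x5e0000bc00017e590afe059) b30527 (.hit (nat_lit 9) (nat_lit 19) (nat_lit 0x5e0000bc00017e57bafcf0f) b30531 (.one (nat_lit 6) (nat_lit 5) (nat_lit 14) (nat_lit 0x5e0000bc00017e5fb2fe199) b30528 (.nil)))) (.nil))))) (.tok (nat_lit 52) (nat_lit 0x5e0000bc00017e8cb2fdf1b) (.hit (nat_lit 10) (nat_lit 39) (nat_lit 0x5e0000bc00017e0c1afdbf8) b30532 (.hit (nat_lit 11) (nat_lit 40) (nat_lit 0x5e0000bc00017e8cb2fdf1b) b30533 (.nil))) (.tok (nat_lit 55) (nat_lit 0x5e0000bc0001800003014dc) (.hit (nat_lit 12) (nat_lit 41) (nat_lit 0x5e0000bc00017eb8c2ff02f) b30534 (.tok (nat_lit 3) (nat_lit 0x5e0000bc00017ee12aff4c7) (.hit (nat_lit 18) (nat_lit 47) (nat_lit 0x5e0000bc00017e4b52fe2f0) b30540 (.one (nat_lit 67) (nat_lit 19) (nat_lit 48) (nat_lit 0x5e0000bc00017ee12aff4c7) b30541 (.nil))) (.tok (nat_lit 6) (nat_lit 0x5e0000bc0001800003014dc) (.hit (nat_lit 13) (nat_lit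 42) (nat_lit 0x5e0000bc00017ee3d2feb02) b30535 (.hit (nat_lit 16) (nat_lit 45) (nat_lit 0x5e0000bc00017ec3dafe104) b30538 (.tok (nat_lit 55) (nat_lit 0x5e0000bc0001800003014dc) (.hit (nat_lit 14) (nat_lit 43) (nat_lit 0x5e0000bc00017fc793014dc) b30536 (.hit (nat_lit 17) (nat_lit 46) (nat_lit 0x5e0000bc00017ea48afec8d) b30539 (.one (nat_lit 6) (nat_lit 15) (nat_lit 44) (nat_lit 0x5e0000bc000180000301065) b30537 (.nil)))) (.nil)))) (.nil)))) (.one (nat_lit 58) (nat_lit 20) (nat_lit 49) (nat_lit 0x5e0000bc00017e7f22fe093) b30542 (.nil)))))) (.nil))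
noncomputable def r15_185 : Rw Blk := .tok (nat_lit 3) (nat_lit 0xbc0001780002fd53e) (.hit (nat_lit 61) (nat_lit 0) (nat_lit 0xbc0001780002fd208) b9255 (.tok (nat_lit 6) (nat_lit 0xbc0001780002fd53e) (.hit (nat_lit 62) (nat_lit 7) (nat_lit 0xbc0001780002fbbb6) b9256 (.hit (nat_lit 67) (nat_lit 15) (nat_lit 0xbc0001780002fad94) b9261 (.tok (nat_lit 14) (nat_lit 0xbc0001780002fcdbc) (.hit (nat_lit 63) (nat_lit 11) (nat_lit 0xbc0001780002fbdc9) b9257 (.hit (nat_lit 68) (nat_lit 17) (nat_lit 0xbc0001780002fc1ab) b9262 (.one (nat_lit 9) (nat_lit 64) (nat_lit 12) (nat_lit 0xbc0001780002fcdbc) b9258 (.nil)))) (.tok (nat_lit 56) (nat_lit 0xbc0001780002fd53e) (.hit (nat_lit 65) (nat_lit 13) (nat_lit 0xbc0001780002fcd30) b9259 (.hit (nat_lit 70) (nat_lit 19) (nat_lit 0xbc0001780002fbe92) b9264 (.one (nat_lit 6) (nat_lit 66) (nat_lit 14) (nat_lit 0xbc0001780002fd53e) b9260 (.nil)))) (.one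 (nat_lit 68) (nat_lit 69) (nat_lit 18) (nat_lit 0xbc0001780002fc012) b9263 (.nil)))))) (.nil))) (.tok (nat_lit 9) (nat_lit 0xbc000178000300000) (.hit (nat_lit 0) (nat_lit 0) (nat_lit 0xbc0001780002feaff) b9240 (.tok (nat_lit 9) (nat_lit 0xbc0001780002fffbd) (.hit (nat_lit 1) (nat_lit 20) (nat_lit 0xbc0001780002fd887) b9241 (.hit (nat_lit 6) (nat_lit 28) (nat_lit 0xbc0001780002fc60a) b9244 (.tok (nat_lit 14) (nat_lit 0xbc0001780002ff817) (.hit (nat_lit 2) (nat_lit 24) (nat_lit 0xbc0001780002ff817) b9242 (.hit (nat_lit 7) (nat_lit 30) (nat_lit 0xbc0001780002fe65c) b9245 (.one (nat_lit 6) (nat_lit 3) (nat_lit 25) (nat_lit 0xbc0001780002ff6cc) b9243 (.nil)))) (.tok (nat_lit 68) (nat_lit 0xbc0001780002fffbd) (.hit (nat_lit 4) (nat_lit 26) (nat_lit 0xbc0001780002fef99) b9609 (.hit (nat_lit 9) (nat_lit 32) (nat_lit 0xbc0001780002fd621) b9611 (.one (nat_lit 9) (nat_lit 5) (nat_lit 27)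 (nat_lit 0xbc0001780002fffbd) b9610 (.nil)))) (.nil))))) (.tok (nat_lit 64) (nat_lit 0xbc0001780002feaaa) (.hit (nat_lit 10) (nat_lit 50) (nat_lit 0xbc0001780002fdd77) b9247 (.hit (nat_lit 11) (nat_lit 51) (nat_lit 0xbc0001780002feaaa) b9248 (.nil))) (.tok (nat_lit 67) (nat_lit 0xbc000178000300000) (.hit (nat_lit 12) (nat_lit 52) (nat_lit 0xbc0001780002ff885) b9249 (.tok (nat_lit 3) (nat_lit 0xbc000178000300000) (.hit (nat_lit 18) (nat_lit 58) (nat_lit 0xbc0001780002fec8d) b9252 (.one (nat_lit 55) (nat_lit 19) (nat_lit 59) (nat_lit 0xbc000178000300000) b9253 (.nil))) (.tok (nat_lit 9) (nat_lit 0xbc0001780002ffc81) (.hit (nat_lit 13) (nat_lit 53) (nat_lit 0xbc0001780002fe0f2) b9250 (.hit (nat_lit 16) (nat_lit 56) (nat_lit 0xbc0001780002fece8) b9251 (.tok (nat_lit 67) (nat_lit 0xbc0001780002ffc81) (.hit (nat_lit 14) (nat_lit 54) (nat_lit 0xbc0001780002ff6bd) b9612 (.hit (nat_lit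 17) (nat_lit 57) (nat_lit 0xbc0001780002ffc81) b9614 (.one (nat_lit 9) (nat_lit 15) (nat_lit 55) (nat_lit 0xbc0001780002ff76a) b9613 (.nil)))) (.nil)))) (.nil)))) (.one (nat_lit 70) (nat_lit 20) (nat_lit 60) (nat_lit 0xbc0001780002fecd6) b9254 (.nil)))))) (.nil))
noncomputable def r15_186 : Rw Blk := .tok (nat_lit 3) (nat_lit 0x5e0000bc00017df87afd379) (.hit (nat_lit 61) (nat_lit 0) (nat_lit 0x5e0000bc00017dcf0afcd41) b30573 (.tok (nat_lit 6) (nat_lit 0x5e0000bc00017df87afd379) (.hit (nat_lit 62) (nat_lit 7) (nat_lit 0x5e0000bc00017cf792fb35c) b30574 (.hit (nat_lit 67) (nat_lit 15) (nat_lit 0x5e0000bc00017d130afb6cb) b30579 (.tok (nat_lit 14) (nat_lit 0x5e0000bc00017df87afd379) (.hit (nat_lit 63) (nat_lit 11) (nat_lit 0x5e0000bc00017da402fc8ea) b30575 (.hit (nat_lit 68) (nat_lit 17) (nat_lit 0x5e0000bc00017d8b8afc5db) b30580 (.one (nat_lit 9) (nat_lit 64) (nat_lit 12) (nat_lit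 0x5e0000bc00017df87afd379) b30576 (.nil)))) (.tok (nat_lit 56) (nat_lit 0x5e0000bc00017dd22afceaf) (.hit (nat_lit 65) (nat_lit 13) (nat_lit 0x5e0000bc00017db622fcb2e) b30577 (.hit (nat_lit 70) (nat_lit 19) (nat_lit 0x5e0000bc00017d9492fc6fc) b30582 (.one (nat_lit 6) (nat_lit 66) (nat_lit 14) (nat_lit 0x5e0000bc00017dd22afceaf) b30578 (.nil)))) (.one (nat_lit 68) (nat_lit 69) (nat_lit 18) (nat_lit 0x5e0000bc00017dc4bafcd01) b30581 (.nil)))))) (.nil))) (.tok (nat_lit 9) (nat_lit 0x5e0000bc000180000301338) (.hit (nat_lit 0) (nat_lit 0) (nat_lit 0x5e0000bc00017e3cc2fce97) b30553 (.tok (nat_lit 9) (nat_lit 0x5e0000bc00017ea82afe257) (.hit (nat_lit 1) (nat_lit 20) (nat_lit 0x5e0000bc00017dde12fbf8d) b30554 (.hit (nat_lit 6) (nat_lit 28) (nat_lit 0x5e0000bc00017d734afb701) b30559 (.tok (nat_lit 14) (nat_lit 0x5e0000bc00017ea82afe257) (.hit (nat_lit 2) (nat_lit 24) (nat_lit 0x5e0000bc00017e63dafda8e)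 b30555 (.hit (nat_lit 7) (nat_lit 30) (nat_lit 0x5e0000bc00017ea82afce4a) b30560 (.one (nat_lit 6) (nat_lit 3) (nat_lit 25) (nat_lit 0x5e0000bc00017e5e1afe257) b30556 (.nil)))) (.tok (nat_lit 68) (nat_lit 0x5e0000bc00017e5fb2fd775) (.hit (nat_lit 4) (nat_lit 26) (nat_lit 0x5e0000bc00017e590afd635) b30557 (.hit (nat_lit 9) (nat_lit 32) (nat_lit 0x5e0000bc00017e57bafc4ab) b30561 (.one (nat_lit 9) (nat_lit 5) (nat_lit 27) (nat_lit 0x5e0000bc00017e5fb2fd775) b30558 (.nil)))) (.nil))))) (.tok (nat_lit 64) (nat_lit 0x5e0000bc00017e8cb2fd4f7) (.hit (nat_lit 10) (nat_lit 50) (nat_lit 0x5e0000bc00017e0c1afd194) b30562 (.hit (nat_lit 11) (nat_lit 51) (nat_lit 0x5e0000bc00017e8cb2fd4f7) b30563 (.nil))) (.tok (nat_lit 67) (nat_lit 0x5e0000bc000180000301338) (.hit (nat_lit 12) (nat_lit 52) (nat_lit 0x5e0000bc00017eb8c2fe6af) b30564 (.tok (nat_lit 3) (nat_lit 0x5e0000bc00017ee12afed2b) (.hit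 (nat_lit 18) (nat_lit 58) (nat_lit 0x5e0000bc00017e4b52fd8cc) b30570 (.one (nat_lit 55) (nat_lit 19) (nat_lit 59) (nat_lit 0x5e0000bc00017ee12afed2b) b30571 (.nil))) (.tok (nat_lit 9) (nat_lit 0x5e0000bc000180000301338) (.hit (nat_lit 13) (nat_lit 53) (nat_lit 0x5e0000bc00017ee3d2fe203) b30565 (.hit (nat_lit 16) (nat_lit 56) (nat_lit 0x5e0000bc00017ec3dafd6e0) b30568 (.tok (nat_lit 67) (nat_lit 0x5e0000bc000180000301338) (.hit (nat_lit 14) (nat_lit 54) (nat_lit 0x5e0000bc00017fc79301338) b30566 (.hit (nat_lit 17) (nat_lit 57) (nat_lit 0x5e0000bc00017ea48afe269) b30569 (.one (nat_lit 9) (nat_lit 15) (nat_lit 55) (nat_lit 0x5e0000bc00018000030124e) b30567 (.nil)))) (.nil)))) (.nil)))) (.one (nat_lit 70) (nat_lit 20) (nat_lit 60) (nat_lit 0x5e0000bc00017e7f22fd66f) b30572 (.nil)))))) (.nil))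
noncomputable def r15_187 : Rw Blk := .tok (nat_lit 3) (nat_lit 0x17f6e1afeaef5fd87cbf83fd7ee8eaff248) (.hit (nat_lit 0) (nat_lit 0) (nat_lit 0x17e2d2afc5165f9d7cbf0a2d7df27afd3d4) b30583 (.tok (nat_lit 9) (nat_lit 0x17e6abafca3c5fc7e0bf26f97e2c0afdb06) (.hit (nat_lit 10) (nat_lit 20) (nat_lit 0x17dc7f2fb5e35fa584bed5957d8942fc6ad) b30584 (.hit (nat_lit 15) (nat_lit 28) (nat_lit 0x17db47afb3745f8f48becbd97d75cafc43e) b30589 (.tok (nat_lit 14) (nat_lit 0x17e5fd2fc8df5fb344bf21857e2122fd9a9) (.hit (nat_lit 11) (nat_lit 24) (nat_lit 0x17dfcd2fbc7f5fa52cbef0057dbe22fcd49) b30585 (.hit (nat_lit 16) (nat_lit 30) (nat_lit 0x17df4eafbb825fa1a0beec117db63afcc4c) b30590 (.one (nat_lit 6) (nat_lit 12) (nat_lit 25) (nat_lit 0x17e5fd2fc8df5fb344bf21857e2122fd9a9) b30586 (.nil)))) (.one (nat_lit 56) (nat_lit 17) (nat_lit 31) (nat_lit 0x17e5de2fc8a15fbaacbf208d7e1f32fd96b) b30591 (.tok (nat_lit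 68) (nat_lit 0x17e6abafca3c5fc7e0bf26f97e2c0afdb06) (.hit (nat_lit 13) (nat_lit 26) (nat_lit 0x17e297afc2145fb952bf06597deacafd2de) b30587 (.hit (nat_lit 18) (nat_lit 32) (nat_lit 0x17e089afbdf85fa4dcbef5e97dc9eafcec2) b30592 (.one (nat_lit 9) (nat_lit 14) (nat_lit 27) (nat_lit 0x17e6abafca3c5fc7e0bf26f97e2c0afdb06) b30588 (.nil)))) (.nil)))))) (.tok (nat_lit 64) (nat_lit 0x17e146afbf725fb228befbd17dd5bafd03c) (.hit (nat_lit 30) (nat_lit 50) (nat_lit 0x17dfb1afbc485f9e3cbeef297dbc6afcd12) b30593 (.hit (nat_lit 31) (nat_lit 51) (nat_lit 0x17e146afbf725fb228befbd17dd5bafd03c) b30594 (.nil))) (.tok (nat_lit 67) (nat_lit 0x17f6e1afeaef5fd87cbf83fd7ee8eaff248) (.hit (nat_lit 32) (nat_lit 52) (nat_lit 0x17f6e1afeaef5fd87cbf69097eb17afeb8d) b30595 (.tok (nat_lit 3) (nat_lit 0x17e9962fd0115fd416bf3e4d7e5ab2fe0db) (.hit (nat_lit 38) (nat_lit 58) (nat_lit 0x17e5c2afc86a5fd416bf1fb17e1d7afd934)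 b30601 (.one (nat_lit 55) (nat_lit 39) (nat_lit 59) (nat_lit 0x17e9962fd0115fc55abf3e4d7e5ab2fe0db) b30602 (.nil))) (.tok (nat_lit 9) (nat_lit 0x17f196afe7ad5fd1a4bf83fd7ee8eaff248) (.hit (nat_lit 33) (nat_lit 53) (nat_lit 0x17ecf42fda9f5fc6a2bf59d57e91cafe7be) b30596 (.hit (nat_lit 36) (nat_lit 56) (nat_lit 0x17e5ef2fc8c35fc42abf21157e2042fd98d) b30599 (.tok (nat_lit 67) (nat_lit 0x17f196afe7ad5fd1a4bf83fd7ee8eaff248) (.hit (nat_lit 34) (nat_lit 54) (nat_lit 0x17f196afe7ad5fc31ebf83fd7ee8eaff248) b30597 (.hit (nat_lit 37) (nat_lit 57) (nat_lit 0x17eb342fd34d5fd1a4bf4b3d7e7492fe417) b30600 (.one (nat_lit 9) (nat_lit 35) (nat_lit 55) (nat_lit 0x17ea68afd1b65fbc9cbf44e17e67dafe280) b30598 (.nil)))) (.nil)))) (.nil)))) (.one (nat_lit 70) (nat_lit 40) (nat_lit 60) (nat_lit 0x17e55eafc7a25fc898bf1c917e173afd86c) b30603 (.nil)))))) (.tok (nat_lit 6) (nat_lit 0x180000300000600000c0000180467b00000)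 (.hit (nat_lit 81) (nat_lit 0) (nat_lit 0x17ed03afddfd5fc108bf4c297e7672fe453) b30604 (.tok (nat_lit 6) (nat_lit 0x17f78eaff1425fd5c6bf8f317ef86afdf4b) (.hit (nat_lit 87) (nat_lit 7) (nat_lit 0x17e7a02fda335fa2b6bf06557de2d2fd1df) b30605 (.hit (nat_lit 95) (nat_lit 15) (nat_lit 0x17e1622fbff05f8c80bea4497d0532fb62b) b30608 (.tok (nat_lit 14) (nat_lit 0x17f78eaff1425fd5c6bf8f317ef86afdf4b) (.hit (nat_lit 91) (nat_lit 11) (nat_lit 0x17f5ffafef3e5fd5c6bf81997ef24afdbce) b30606 (.hit (nat_lit 97) (nat_lit 17) (nat_lit 0x17efa02fdc6c5fc71abf181d7ddbfafce9f) b30609 (.one (nat_lit 9) (nat_lit 92) (nat_lit 12) (nat_lit 0x17f78eaff1425fd524bf8f317ef86afdf4b) b30607 (.nil)))) (.one (nat_lit 68) (nat_lit 98) (nat_lit 18) (nat_lit 0x17ec202fd5725fb124befc197daf1afcb68) b30610 (.nil))))) (.tok (nat_lit 52) (nat_lit 0x17efb02fe8035fc414bf40717e0ce2fd41d) (.hit (nat_lit 106) (nat_lit 39) (nat_lit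 0x17efb02fe8035fbbfabf1a557df4c2fd41d) b30611 (.hit (nat_lit 107) (nat_lit 40) (nat_lit 0x17ee612fe2a95fc414bf40717e0ce2fd293) b30612 (.nil))) (.tok (nat_lit 55) (nat_lit 0x180000300000600000c0000180467b00000) (.hit (nat_lit 108) (nat_lit 41) (nat_lit 0x1800003000005ff12ebfc0d57fae3300000) b30613 (.tok (nat_lit 3) (nat_lit 0x17ff74aff6e55fd358c0000180467aff8d2) (.hit (nat_lit 114) (nat_lit 47) (nat_lit 0x17f7d0aff2675fcd88bfb3517fbf32fe7b5) b30616 (.one (nat_lit 67) (nat_lit 115) (nat_lit 48) (nat_lit 0x17ff74aff6e55fd358c0000180467aff8d2) b30617 (.nil))) (.tok (nat_lit 6) (nat_lit 0x17fcb2aff4c6600000bf672d7e67dafe716) (.hit (nat_lit 109) (nat_lit 42) (nat_lit 0x17fcb2afef315fd262bf63457e67dafe716) b30614 (.hit (nat_lit 112) (nat_lit 45) (nat_lit 0x17f338aff4c6600000bf672d7e5b72fe0f3) b30615 (.nil))) (.nil)))) (.one (nat_lit 58) (nat_lit 116) (nat_lit 49) (nat_lit 0x17efb12fe2d25fc406bf64397e547afd60e)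 b30618 (.nil)))))) (.nil))
noncomputable def r15_188 : Rw Blk := .tok (nat_lit 9) (nat_lit 0xbc0001780002ff56f) (.hit (nat_lit 0) (nat_lit 0) (nat_lit 0xbc0001780002fe139) b30619 (.tok (nat_lit 14) (nat_lit 0xbc0001780002fee9c) (.hit (nat_lit 11) (nat_lit 61) (nat_lit 0xbc0001780002fe56e) b30620 (.one (nat_lit 3) (nat_lit 12) (nat_lit 62) (nat_lit 0xbc0001780002fe9be) b30621 (.tok (nat_lit 6) (nat_lit 0xbc0001780002fee9c) (.hit (nat_lit 15) (nat_lit 65) (nat_lit 0xbc0001780002fee9c) b30624 (.hit (nat_lit 16) (nat_lit 66) (nat_lit 0xbc0001780002fe118) b30625 (.nil))) (.tok (nat_lit 9) (nat_lit 0xbc0001780002fe52f) (.hit (nat_lit 13) (nat_lit 63) (nat_lit 0xbc0001780002fccbc) b30622 (.hit (nat_lit 14) (nat_lit 64) (nat_lit 0xbc0001780002fe52f) b30623 (.nil))) (.nil))))) (.one (nat_lit 17) (nat_lit 17) (nat_lit 67) (nat_lit 0xbc0001780002fe250) b30626 (.tok (nat_lit 20) (nat_lit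 0xbc0001780002fde44) (.hit (nat_lit 18) (nat_lit 68) (nat_lit 0xbc0001780002fb8c3) b30627 (.hit (nat_lit 19) (nat_lit 69) (nat_lit 0xbc0001780002fde44) b30628 (.nil))) (.tok (nat_lit 23) (nat_lit 0xbc0001780002fed4f) (.hit (nat_lit 20) (nat_lit 70) (nat_lit 0xbc0001780002fed4f) b30629 (.hit (nat_lit 21) (nat_lit 71) (nat_lit 0xbc0001780002fe3b9) b30630 (.nil))) (.one (nat_lit 26) (nat_lit 22) (nat_lit 72) (nat_lit 0xbc0001780002fd3c5) b30631 (.one (nat_lit 29) (nat_lit 23) (nat_lit 73) (nat_lit 0xbc0001780002fcd92) b30632 (.one (nat_lit 32) (nat_lit 24) (nat_lit 74) (nat_lit 0xbc0001780002fd87b) b30633 (.one (nat_lit 35) (nat_lit 25) (nat_lit 75) (nat_lit 0xbc0001780002fcf93) b30634 (.one (nat_lit 50) (nat_lit 33) (nat_lit 83) (nat_lit 0xbc0001780002fd91b) b30635 (.tok (nat_lit 53) (nat_lit 0xbc0001780002fe170) (.hit (nat_lit 34) (nat_lit 84) (nat_lit 0xbc0001780002fdb72) b30636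 (.hit (nat_lit 35) (nat_lit 85) (nat_lit 0xbc0001780002fe170) b30637 (.nil))) (.tok (nat_lit 56) (nat_lit 0xbc0001780002fe663) (.hit (nat_lit 36) (nat_lit 86) (nat_lit 0xbc0001780002fe663) b30638 (.one (nat_lit 3) (nat_lit 40) (nat_lit 90) (nat_lit 0xbc0001780002fbc21) b30642 (.tok (nat_lit 6) (nat_lit 0xbc0001780002fc6c4) (.hit (nat_lit 38) (nat_lit 88) (nat_lit 0xbc0001780002fc6c4) b30640 (.hit (nat_lit 39) (nat_lit 89) (nat_lit 0xbc0001780002fc179) b30641 (.nil))) (.one (nat_lit 9) (nat_lit 37) (nat_lit 87) (nat_lit 0xbc0001780002fc40c) b30639 (.nil))))) (.one (nat_lit 59) (nat_lit 41) (nat_lit 91) (nat_lit 0xbc0001780002fd9a3) b30643 (.one (nat_lit 62) (nat_lit 42) (nat_lit 92) (nat_lit 0xbc0001780002fe17f) b30644 (.tok (nat_lit 65) (nat_lit 0xbc0001780002fe62b) (.hit (nat_lit 43) (nat_lit 93) (nat_lit 0xbc0001780002fdbaf) b30645 (.hit (nat_lit 44) (nat_lit 94) (nat_lit 0xbc0001780002fe62b)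 b30646 (.nil))) (.tok (nat_lit 68) (nat_lit 0xbc0001780002ff56f) (.hit (nat_lit 45) (nat_lit 95) (nat_lit 0xbc0001780002ff56f) b30647 (.one (nat_lit 3) (nat_lit 49) (nat_lit 99) (nat_lit 0xbc0001780002fedf6) b30651 (.one (nat_lit 6) (nat_lit 46) (nat_lit 96) (nat_lit 0xbc0001780002ff523) b30648 (.tok (nat_lit 9) (nat_lit 0xbc0001780002ff04f) (.hit (nat_lit 47) (nat_lit 97) (nat_lit 0xbc0001780002ff04f) b30649 (.hit (nat_lit 48) (nat_lit 98) (nat_lit 0xbc0001780002fe60e) b30650 (.nil))) (.nil))))) (.one (nat_lit 71) (nat_lit 50) (nat_lit 100) (nat_lit 0xbc0001780002fdaf3) b30652 (.nil)))))))))))))))))) (.tok (nat_lit 64) (nat_lit 0xbc0001780003004e2) (.hit (nat_lit 180) (nat_lit 0) (nat_lit 0xbc0001780003004e2) b30653 (.tok (nat_lit 6) (nat_lit 0xbc0001780002ff19e) (.hit (nat_lit 181) (nat_lit 7) (nat_lit 0xbc0001780002fdd00) b30654 (.hit (nat_lit 182) (nat_lit 15) (nat_lit 0xbc0001780002ff19e)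 b30655 (.nil))) (.tok (nat_lit 9) (nat_lit 0xbc0001780002fff53) (.hit (nat_lit 183) (nat_lit 20) (nat_lit 0xbc0001780002fff53) b30656 (.hit (nat_lit 184) (nat_lit 28) (nat_lit 0xbc0001780002fee97) b30657 (.nil))) (.nil)))) (.tok (nat_lit 67) (nat_lit 0xbc0001780002ff249) (.hit (nat_lit 205) (nat_lit 0) (nat_lit 0xbc0001780002ff249) b30666 (.tok (nat_lit 3) (nat_lit 0xbc0001780002ff1f9) (.hit (nat_lit 206) (nat_lit 1) (nat_lit 0xbc0001780002fd6ea) b30667 (.one (nat_lit 55) (nat_lit 207) (nat_lit 3) (nat_lit 0xbc0001780002ff1f9) b30668 (.nil))) (.tok (nat_lit 9) (nat_lit 0xbc0001780002fe996) (.hit (nat_lit 208) (nat_lit 20) (nat_lit 0xbc0001780002fdced) b30669 (.hit (nat_lit 211) (nat_lit 28) (nat_lit 0xbc0001780002fd5d7) b30672 (.tok (nat_lit 67) (nat_lit 0xbc0001780002fe996) (.hit (nat_lit 209) (nat_lit 21) (nat_lit 0xbc0001780002fe0c0) b30670 (.hit (nat_lit 212) (nat_lit 29)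 (nat_lit 0xbc0001780002fe996) b30673 (.one (nat_lit 9) (nat_lit 210) (nat_lit 22) (nat_lit 0xbc0001780002fe70c) b30671 (.nil)))) (.nil)))) (.nil)))) (.tok (nat_lit 70) (nat_lit 0xbc000178000300413) (.hit (nat_lit 191) (nat_lit 0) (nat_lit 0xbc0001780002ffce1) b30658 (.tok (nat_lit 3) (nat_lit 0xbc0001780002ff87d) (.hit (nat_lit 192) (nat_lit 1) (nat_lit 0xbc0001780002fd680) b30659 (.one (nat_lit 67) (nat_lit 193) (nat_lit 2) (nat_lit 0xbc0001780002ff87d) b30660 (.nil))) (.tok (nat_lit 6) (nat_lit 0xbc000178000300413) (.hit (nat_lit 194) (nat_lit 7) (nat_lit 0xbc0001780002fe3b1) b30661 (.hit (nat_lit 197) (nat_lit 15) (nat_lit 0xbc0001780002fdc6e) b30664 (.tok (nat_lit 55) (nat_lit 0xbc000178000300413) (.hit (nat_lit 195) (nat_lit 8) (nat_lit 0xbc0001780002feec4) b30662 (.hit (nat_lit 198) (nat_lit 16) (nat_lit 0xbc0001780002ff36f) b30665 (.one (nat_lit 6) (nat_lit 196) (nat_lit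 9) (nat_lit 0xbc000178000300413) b30663 (.nil)))) (.nil)))) (.nil)))) (.nil))))
noncomputable def r15_189 : Rw Blk := .tok (nat_lit 3) (nat_lit 0xbc00017800030089b) (.hit (nat_lit 15) (nat_lit 0) (nat_lit 0xbc0001780002fef84) b30685 (.tok (nat_lit 6) (nat_lit 0xbc0001780002fe5dc) (.hit (nat_lit 16) (nat_lit 7) (nat_lit 0xbc0001780002fd311) b30686 (.hit (nat_lit 21) (nat_lit 15) (nat_lit 0xbc0001780002fbb4f) b30689 (.tok (nat_lit 56) (nat_lit 0xbc0001780002fe5dc) (.hit (nat_lit 19) (nat_lit 13) (nat_lit 0xbc0001780002fdb52) b30687 (.hit (nat_lit 24) (nat_lit 19) (nat_lit 0xbc0001780002fdc2d) b30691 (.one (nat_lit 6) (nat_lit 20) (nat_lit 14) (nat_lit 0xbc0001780002fe5dc) b30688 (.nil)))) (.one (nat_lit 68) (nat_lit 23) (nat_lit 18) (nat_lit 0xbc0001780002fd9fa) b30690 (.nil))))) (.tok (nat_lit 52) (nat_lit 0xbc0001780002fe6c1) (.hit (nat_lit 25) (nat_lit 39) (nat_lit 0xbc0001780002fd99b)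 b30692 (.hit (nat_lit 26) (nat_lit 40) (nat_lit 0xbc0001780002fe6c1) b30693 (.nil))) (.tok (nat_lit 55) (nat_lit 0xbc00017800030089b) (.hit (nat_lit 27) (nat_lit 41) (nat_lit 0xbc00017800030089b) b30694 (.one (nat_lit 3) (nat_lit 33) (nat_lit 47) (nat_lit 0xbc0001780002fe6da) b30700 (.tok (nat_lit 6) (nat_lit 0xbc0001780002fe994) (.hit (nat_lit 28) (nat_lit 42) (nat_lit 0xbc0001780002fdf79) b30695 (.hit (nat_lit 31) (nat_lit 45) (nat_lit 0xbc0001780002fe2b0) b30698 (.tok (nat_lit 55) (nat_lit 0xbc0001780002fe994) (.hit (nat_lit 29) (nat_lit 43) (nat_lit 0xbc0001780002fe994) b30696 (.hit (nat_lit 32) (nat_lit 46) (nat_lit 0xbc0001780002fe897) b30699 (.one (nat_lit 6) (nat_lit 30) (nat_lit 44) (nat_lit 0xbc0001780002fdeca) b30697 (.nil)))) (.nil)))) (.nil)))) (.one (nat_lit 58) (nat_lit 35) (nat_lit 49) (nat_lit 0xbc0001780002fe5a6) b30701 (.nil)))))) (.tok (nat_lit 9) (nat_lit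 0xbc000178000302417) (.hit (nat_lit 0) (nat_lit 0) (nat_lit 0xbc000178000300cca) b30674 (.tok (nat_lit 9) (nat_lit 0xbc0001780002ff469) (.hit (nat_lit 1) (nat_lit 20) (nat_lit 0xbc0001780002fea10) b30675 (.hit (nat_lit 4) (nat_lit 28) (nat_lit 0xbc0001780002fe291) b30676 (.one (nat_lit 56) (nat_lit 6) (nat_lit 31) (nat_lit 0xbc0001780002ff469) b30677 (.nil)))) (.tok (nat_lit 64) (nat_lit 0xbc00017800030146e) (.hit (nat_lit 7) (nat_lit 50) (nat_lit 0xbc000178000300a8b) b30678 (.hit (nat_lit 8) (nat_lit 51) (nat_lit 0xbc00017800030146e) b30679 (.nil))) (.tok (nat_lit 67) (nat_lit 0xbc000178000301e93) (.hit (nat_lit 9) (nat_lit 52) (nat_lit 0xbc000178000301e93) b30680 (.one (nat_lit 3) (nat_lit 12) (nat_lit 58) (nat_lit 0xbc00017800030143f) b30683 (.tok (nat_lit 9) (nat_lit 0xbc0001780003002ee) (.hit (nat_lit 10) (nat_lit 53) (nat_lit 0xbc0001780002ff644) b30681 (.hit (nat_lit 11)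 (nat_lit 56) (nat_lit 0xbc0001780003002ee) b30682 (.nil))) (.nil)))) (.one (nat_lit 70) (nat_lit 14) (nat_lit 60) (nat_lit 0xbc000178000302417) b30684 (.nil)))))) (.nil))
noncomputable def r15_190 : Rw Blk := .tok (nat_lit 6) (nat_lit 0xbc000178000301f66) (.hit (nat_lit 0) (nat_lit 0) (nat_lit 0xbc0001780002fe7b7) b30702 (.tok (nat_lit 14) (nat_lit 0xbc000178000300126) (.hit (nat_lit 21) (nat_lit 61) (nat_lit 0xbc0001780002ffd3c) b30703 (.one (nat_lit 3) (nat_lit 22) (nat_lit 62) (nat_lit 0xbc0001780002ffcdc) b30704 (.tok (nat_lit 6) (nat_lit 0xbc0001780002ff433) (.hit (nat_lit 25) (nat_lit 65) (nat_lit 0xbc0001780002fd8e7) b30707 (.hit (nat_lit 26) (nat_lit 66) (nat_lit 0xbc0001780002ff433) b30708 (.nil))) (.tok (nat_lit 9) (nat_lit 0xbc000178000300126) (.hit (nat_lit 23) (nat_lit 63) (nat_lit 0xbc000178000300126) b30705 (.hit (nat_lit 24) (nat_lit 64) (nat_lit 0xbc0001780002fdeb7)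 b30706 (.nil))) (.nil))))) (.one (nat_lit 17) (nat_lit 27) (nat_lit 67) (nat_lit 0xbc0001780002feaa4) b30709 (.tok (nat_lit 20) (nat_lit 0xbc000178000301f66) (.hit (nat_lit 28) (nat_lit 68) (nat_lit 0xbc000178000301f66) b30710 (.hit (nat_lit 29) (nat_lit 69) (nat_lit 0xbc0001780002fe5e7) b30711 (.nil))) (.tok (nat_lit 23) (nat_lit 0xbc0001780002fe370) (.hit (nat_lit 30) (nat_lit 70) (nat_lit 0xbc0001780002fc82a) b30712 (.hit (nat_lit 31) (nat_lit 71) (nat_lit 0xbc0001780002fe370) b30713 (.nil))) (.one (nat_lit 26) (nat_lit 32) (nat_lit 72) (nat_lit 0xbc0001780002fdc11) b30714 (.one (nat_lit 29) (nat_lit 33) (nat_lit 73) (nat_lit 0xbc0001780002feb26) b30715 (.one (nat_lit 32) (nat_lit 34) (nat_lit 74) (nat_lit 0xbc0001780002fd486) b30716 (.one (nat_lit 35) (nat_lit 35) (nat_lit 75) (nat_lit 0xbc0001780002fe50d) b30717 (.one (nat_lit 38) (nat_lit 36) (nat_lit 76) (nat_lit 0xbc0001780002fe177)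 b30718 (.tok (nat_lit 41) (nat_lit 0xbc0001780002fea8a) (.hit (nat_lit 37) (nat_lit 77) (nat_lit 0xbc0001780002fe586) b30719 (.hit (nat_lit 38) (nat_lit 78) (nat_lit 0xbc0001780002fea8a) b30720 (.nil))) (.tok (nat_lit 44) (nat_lit 0xbc0001780002ff671) (.hit (nat_lit 39) (nat_lit 79) (nat_lit 0xbc0001780002ff671) b30721 (.hit (nat_lit 40) (nat_lit 80) (nat_lit 0xbc0001780002fe10f) b30722 (.nil))) (.tok (nat_lit 47) (nat_lit 0xbc0001780002fe938) (.hit (nat_lit 41) (nat_lit 81) (nat_lit 0xbc0001780002fc0c1) b30723 (.hit (nat_lit 42) (nat_lit 82) (nat_lit 0xbc0001780002fe938) b30724 (.nil))) (.one (nat_lit 62) (nat_lit 52) (nat_lit 92) (nat_lit 0xbc0001780002fdc20) b30725 (.tok (nat_lit 65) (nat_lit 0xbc0001780002fecc3) (.hit (nat_lit 53) (nat_lit 93) (nat_lit 0xbc0001780002fecc3) b30726 (.hit (nat_lit 54) (nat_lit 94) (nat_lit 0xbc0001780002fe0de) b30727 (.nil))) (.tok (nat_lit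 68) (nat_lit 0xbc0001780002fe5fc) (.hit (nat_lit 55) (nat_lit 95) (nat_lit 0xbc0001780002fe5fc) b30728 (.one (nat_lit 3) (nat_lit 59) (nat_lit 99) (nat_lit 0xbc0001780002fc7ad) b30732 (.one (nat_lit 6) (nat_lit 56) (nat_lit 96) (nat_lit 0xbc0001780002fcbd0) b30729 (.tok (nat_lit 9) (nat_lit 0xbc0001780002fd9bc) (.hit (nat_lit 57) (nat_lit 97) (nat_lit 0xbc0001780002fd9bc) b30730 (.hit (nat_lit 58) (nat_lit 98) (nat_lit 0xbc0001780002fd16a) b30731 (.nil))) (.nil))))) (.one (nat_lit 71) (nat_lit 60) (nat_lit 100) (nat_lit 0xbc0001780002fe2c2) b30733 (.nil)))))))))))))))))) (.tok (nat_lit 52) (nat_lit 0xbc00017800030135d) (.hit (nat_lit 176) (nat_lit 0) (nat_lit 0xbc00017800030135d) b30734 (.tok (nat_lit 6) (nat_lit 0xbc0001780003000ee) (.hit (nat_lit 177) (nat_lit 7) (nat_lit 0xbc0001780003000ee) b30735 (.hit (nat_lit 178) (nat_lit 15) (nat_lit 0xbc0001780002ff06b) b30736 (.nil)))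 (.tok (nat_lit 9) (nat_lit 0xbc0001780002ff7d4) (.hit (nat_lit 179) (nat_lit 20) (nat_lit 0xbc0001780002fe3e1) b12552 (.hit (nat_lit 180) (nat_lit 28) (nat_lit 0xbc0001780002ff7d4) b30737 (.nil))) (.nil)))) (.tok (nat_lit 55) (nat_lit 0xbc0001780002ff3bc) (.hit (nat_lit 187) (nat_lit 0) (nat_lit 0xbc0001780002ff3bc) b30738 (.tok (nat_lit 3) (nat_lit 0xbc0001780002fea7f) (.hit (nat_lit 188) (nat_lit 1) (nat_lit 0xbc0001780002fd3db) b12555 (.one (nat_lit 67) (nat_lit 189) (nat_lit 2) (nat_lit 0xbc0001780002fea7f) b12556 (.nil))) (.tok (nat_lit 6) (nat_lit 0xbc0001780002fde60) (.hit (nat_lit 190) (nat_lit 7) (nat_lit 0xbc0001780002fde60) b12557 (.hit (nat_lit 193) (nat_lit 15) (nat_lit 0xbc0001780002fd4b1) b12560 (.nil))) (.nil)))) (.tok (nat_lit 58) (nat_lit 0xbc0001780002ffe96) (.hit (nat_lit 201) (nat_lit 0) (nat_lit 0xbc0001780002ff564) b30739 (.tok (nat_lit 3) (nat_lit 0xbc0001780002ff56f)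 (.hit (nat_lit 202) (nat_lit 1) (nat_lit 0xbc0001780002fdbd8) b12563 (.one (nat_lit 55) (nat_lit 203) (nat_lit 3) (nat_lit 0xbc0001780002ff56f) b12564 (.nil))) (.tok (nat_lit 9) (nat_lit 0xbc0001780002ffe96) (.hit (nat_lit 204) (nat_lit 20) (nat_lit 0xbc0001780002fddcb) b12565 (.hit (nat_lit 207) (nat_lit 28) (nat_lit 0xbc0001780002fddf8) b12568 (.tok (nat_lit 67) (nat_lit 0xbc0001780002ffe96) (.hit (nat_lit 205) (nat_lit 21) (nat_lit 0xbc0001780002feac2) b12566 (.hit (nat_lit 208) (nat_lit 29) (nat_lit 0xbc0001780002ff833) b12569 (.one (nat_lit 9) (nat_lit 206) (nat_lit 22) (nat_lit 0xbc0001780002ffe96) b12567 (.nil)))) (.nil)))) (.nil)))) (.nil))))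
noncomputable def r15_191 : Rw Blk := .tok (nat_lit 3) (nat_lit 0xbc000178000302292) (.hit (nat_lit 15) (nat_lit 0) (nat_lit 0xbc000178000300e1b) b30747 (.tok (nat_lit 9) (nat_lit 0xbc0001780002ffb6e) (.hit (nat_lit 16) (nat_lit 20) (nat_lit 0xbc0001780002fd6dd) b30748 (.hit (nat_lit 21) (nat_lit 28) (nat_lit 0xbc0001780002fe2fb) b30753 (.tok (nat_lit 14) (nat_lit 0xbc0001780002ffb6e) (.hit (nat_lit 17) (nat_lit 24) (nat_lit 0xbc0001780002fe831) b30749 (.hit (nat_lit 22) (nat_lit 30) (nat_lit 0xbc0001780002ffb6e) b30754 (.one (nat_lit 6) (nat_lit 18) (nat_lit 25) (nat_lit 0xbc0001780002ff9f1) b30750 (.nil)))) (.tok (nat_lit 68) (nat_lit 0xbc0001780002ff541) (.hit (nat_lit 19) (nat_lit 26) (nat_lit 0xbc0001780002fe7e4) b30751 (.hit (nat_lit 24) (nat_lit 32) (nat_lit 0xbc0001780002ff541) b30755 (.one (nat_lit 9) (nat_lit 20) (nat_lit 27) (nat_lit 0xbc0001780002ff386) b30752 (.nil))))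 (.nil))))) (.tok (nat_lit 64) (nat_lit 0xbc0001780002ffac6) (.hit (nat_lit 25) (nat_lit 50) (nat_lit 0xbc0001780002ff81c) b30756 (.hit (nat_lit 26) (nat_lit 51) (nat_lit 0xbc0001780002ffac6) b30757 (.nil))) (.tok (nat_lit 67) (nat_lit 0xbc000178000301dcb) (.hit (nat_lit 27) (nat_lit 52) (nat_lit 0xbc000178000301dcb) b30758 (.tok (nat_lit 3) (nat_lit 0xbc000178000300597) (.hit (nat_lit 33) (nat_lit 58) (nat_lit 0xbc0001780002ff2a6) b30764 (.one (nat_lit 55) (nat_lit 34) (nat_lit 59) (nat_lit 0xbc000178000300597) b30765 (.nil))) (.tok (nat_lit 9) (nat_lit 0xbc0001780002ffa9d) (.hit (nat_lit 28) (nat_lit 53) (nat_lit 0xbc0001780002ff390) b30759 (.hit (nat_lit 31) (nat_lit 56) (nat_lit 0xbc0001780002ff02e) b30762 (.tok (nat_lit 67) (nat_lit 0xbc0001780002ffa9d) (.hit (nat_lit 29) (nat_lit 54) (nat_lit 0xbc0001780002ffa9d) b30760 (.hit (nat_lit 32) (nat_lit 57) (nat_lit 0xbc0001780002ffa14)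 b30763 (.one (nat_lit 9) (nat_lit 30) (nat_lit 55) (nat_lit 0xbc0001780002fef2a) b30761 (.nil)))) (.nil)))) (.nil)))) (.one (nat_lit 70) (nat_lit 35) (nat_lit 60) (nat_lit 0xbc000178000302292) b30766 (.nil)))))) (.tok (nat_lit 6) (nat_lit 0xbc0001780003031ad) (.hit (nat_lit 0) (nat_lit 0) (nat_lit 0xbc000178000301a65) b30740 (.tok (nat_lit 6) (nat_lit 0xbc0001780003031ad) (.hit (nat_lit 1) (nat_lit 7) (nat_lit 0xbc0001780002feacc) b30741 (.hit (nat_lit 4) (nat_lit 15) (nat_lit 0xbc0001780002ff977) b30744 (.tok (nat_lit 14) (nat_lit 0xbc0001780003031ad) (.hit (nat_lit 2) (nat_lit 11) (nat_lit 0xbc00017800030088f) b30742 (.hit (nat_lit 5) (nat_lit 17) (nat_lit 0xbc000178000300649) b30745 (.one (nat_lit 9) (nat_lit 3) (nat_lit 12) (nat_lit 0xbc0001780003031ad) b30743 (.nil)))) (.one (nat_lit 68) (nat_lit 6) (nat_lit 18) (nat_lit 0xbc000178000301624) b30746 (.nil))))) (.nil))) (.nil))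
noncomputable def r15_192 : Rw Blk := .tok (nat_lit 6) (nat_lit 0xbc000178000305582) (.hit (nat_lit 0) (nat_lit 0) (nat_lit 0xbc000178000300250) b30767 (.tok (nat_lit 14) (nat_lit 0xbc000178000303cdb) (.hit (nat_lit 1) (nat_lit 61) (nat_lit 0xbc000178000300f6b) b30768 (.one (nat_lit 3) (nat_lit 2) (nat_lit 62) (nat_lit 0xbc0001780002fff11) b30769 (.tok (nat_lit 6) (nat_lit 0xbc0001780002ffb26) (.hit (nat_lit 5) (nat_lit 65) (nat_lit 0xbc0001780002ffb26) b30772 (.hit (nat_lit 6) (nat_lit 66) (nat_lit 0xbc0001780002ffa83) b30773 (.nil))) (.tok (nat_lit 9) (nat_lit 0xbc000178000303cdb) (.hit (nat_lit 3) (nat_lit 63) (nat_lit 0xbc000178000303cdb) b30770 (.hit (nat_lit 4) (nat_lit 64) (nat_lit 0xbc000178000300ca5) b30771 (.nil))) (.nil))))) (.one (nat_lit 17) (nat_lit 7) (nat_lit 67) (nat_lit 0xbc0001780002fe982) b30774 (.tok (nat_lit 20) (nat_lit 0xbc000178000305582) (.hit (nat_lit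 8) (nat_lit 68) (nat_lit 0xbc000178000305582) b30775 (.hit (nat_lit 9) (nat_lit 69) (nat_lit 0xbc0001780002ff316) b30776 (.nil))) (.tok (nat_lit 23) (nat_lit 0xbc0001780002ff750) (.hit (nat_lit 10) (nat_lit 70) (nat_lit 0xbc0001780002ff0e9) b30777 (.hit (nat_lit 11) (nat_lit 71) (nat_lit 0xbc0001780002ff750) b30778 (.nil))) (.one (nat_lit 38) (nat_lit 16) (nat_lit 76) (nat_lit 0xbc0001780002ff37b) b30779 (.tok (nat_lit 41) (nat_lit 0xbc0001780002fea97) (.hit (nat_lit 17) (nat_lit 77) (nat_lit 0xbc0001780002fea0b) b30780 (.hit (nat_lit 18) (nat_lit 78) (nat_lit 0xbc0001780002fea97) b30781 (.nil))) (.tok (nat_lit 44) (nat_lit 0xbc00017800030082a) (.hit (nat_lit 19) (nat_lit 79) (nat_lit 0xbc00017800030082a) b30782 (.hit (nat_lit 20) (nat_lit 80) (nat_lit 0xbc0001780002fe74a) b30783 (.nil))) (.tok (nat_lit 47) (nat_lit 0xbc0001780002ff438) (.hit (nat_lit 21) (nat_lit 81) (nat_lit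 0xbc0001780002fe146) b30784 (.hit (nat_lit 22) (nat_lit 82) (nat_lit 0xbc0001780002ff438) b30785 (.nil))) (.one (nat_lit 62) (nat_lit 23) (nat_lit 92) (nat_lit 0xbc0001780002ffe45) b30786 (.tok (nat_lit 65) (nat_lit 0xbc0001780002ff137) (.hit (nat_lit 24) (nat_lit 93) (nat_lit 0xbc0001780002ff137) b30787 (.hit (nat_lit 25) (nat_lit 94) (nat_lit 0xbc0001780002feb0e) b30788 (.nil))) (.tok (nat_lit 68) (nat_lit 0xbc0001780003013e5) (.hit (nat_lit 26) (nat_lit 95) (nat_lit 0xbc0001780003013e5) b30789 (.one (nat_lit 3) (nat_lit 30) (nat_lit 99) (nat_lit 0xbc0001780002ff8ed) b30793 (.one (nat_lit 6) (nat_lit 27) (nat_lit 96) (nat_lit 0xbc0001780002ff41a) b30790 (.tok (nat_lit 9) (nat_lit 0xbc0001780002ff686) (.hit (nat_lit 28) (nat_lit 97) (nat_lit 0xbc0001780002ff686) b30791 (.hit (nat_lit 29) (nat_lit 98) (nat_lit 0xbc0001780002feb24) b30792 (.nil))) (.nil))))) (.one (nat_lit 71)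 (nat_lit 31) (nat_lit 100) (nat_lit 0xbc0001780002fe849) b30794 (.nil)))))))))))))) (.nil)
noncomputable def r15_193 : Rw Blk := .tok (nat_lit 6) (nat_lit 0xbc0001780002ff548) (.hit (nat_lit 0) (nat_lit 0) (nat_lit 0xbc0001780002fdeb3) b30795 (.tok (nat_lit 14) (nat_lit 0xbc0001780002ff403) (.hit (nat_lit 21) (nat_lit 61) (nat_lit 0xbc0001780002fe339) b30796 (.one (nat_lit 3) (nat_lit 22) (nat_lit 62) (nat_lit 0xbc0001780002fe0d0) b30797 (.tok (nat_lit 6) (nat_lit 0xbc0001780002ff34f) (.hit (nat_lit 25) (nat_lit 65) (nat_lit 0xbc0001780002fd626) b30800 (.hit (nat_lit 26) (nat_lit 66) (nat_lit 0xbc0001780002ff34f) b30801 (.nil))) (.tok (nat_lit 9) (nat_lit 0xbc0001780002ff403) (.hit (nat_lit 23) (nat_lit 63) (nat_lit 0xbc0001780002ff403) b30798 (.hit (nat_lit 24) (nat_lit 64) (nat_lit 0xbc0001780002fdc66) b30799 (.nil))) (.nil))))) (.one (nat_lit 17) (nat_lit 27) (nat_lit 67)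 (nat_lit 0xbc0001780002fdb39) b30802 (.tok (nat_lit 20) (nat_lit 0xbc0001780002ff548) (.hit (nat_lit 28) (nat_lit 68) (nat_lit 0xbc0001780002ff548) b30803 (.hit (nat_lit 29) (nat_lit 69) (nat_lit 0xbc0001780002fdb96) b30804 (.nil))) (.tok (nat_lit 23) (nat_lit 0xbc0001780002fde57) (.hit (nat_lit 30) (nat_lit 70) (nat_lit 0xbc0001780002fcea7) b30805 (.hit (nat_lit 31) (nat_lit 71) (nat_lit 0xbc0001780002fde57) b30806 (.nil))) (.one (nat_lit 26) (nat_lit 32) (nat_lit 72) (nat_lit 0xbc0001780002fd809) b30807 (.one (nat_lit 29) (nat_lit 33) (nat_lit 73) (nat_lit 0xbc0001780002fd880) b30808 (.one (nat_lit 32) (nat_lit 34) (nat_lit 74) (nat_lit 0xbc0001780002fcda6) b30809 (.one (nat_lit 35) (nat_lit 35) (nat_lit 75) (nat_lit 0xbc0001780002fd8cb) b30810 (.one (nat_lit 38) (nat_lit 36) (nat_lit 76) (nat_lit 0xbc0001780002fdb1b) b30811 (.tok (nat_lit 41) (nat_lit 0xbc0001780002fdbaa)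 (.hit (nat_lit 37) (nat_lit 77) (nat_lit 0xbc0001780002fda3b) b30812 (.hit (nat_lit 38) (nat_lit 78) (nat_lit 0xbc0001780002fdbaa) b30813 (.nil))) (.tok (nat_lit 44) (nat_lit 0xbc0001780002fe2a9) (.hit (nat_lit 39) (nat_lit 79) (nat_lit 0xbc0001780002fe2a9) b30814 (.hit (nat_lit 40) (nat_lit 80) (nat_lit 0xbc0001780002fd926) b30815 (.nil))) (.tok (nat_lit 47) (nat_lit 0xbc0001780002fdb43) (.hit (nat_lit 41) (nat_lit 81) (nat_lit 0xbc0001780002fac5b) b30816 (.hit (nat_lit 42) (nat_lit 82) (nat_lit 0xbc0001780002fdb43) b30817 (.nil))) (.one (nat_lit 62) (nat_lit 52) (nat_lit 92) (nat_lit 0xbc0001780002fd9cf) b30818 (.tok (nat_lit 65) (nat_lit 0xbc0001780002fda49) (.hit (nat_lit 53) (nat_lit 93) (nat_lit 0xbc0001780002fced4) b30819 (.hit (nat_lit 54) (nat_lit 94) (nat_lit 0xbc0001780002fda49) b30820 (.nil))) (.tok (nat_lit 68) (nat_lit 0xbc0001780002fdf8f) (.hit (nat_lit 55) (nat_lit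 95) (nat_lit 0xbc0001780002fdf8f) b30821 (.one (nat_lit 3) (nat_lit 59) (nat_lit 99) (nat_lit 0xbc0001780002fccd2) b30825 (.one (nat_lit 6) (nat_lit 56) (nat_lit 96) (nat_lit 0xbc0001780002fcb71) b30822 (.tok (nat_lit 9) (nat_lit 0xbc0001780002fd000) (.hit (nat_lit 57) (nat_lit 97) (nat_lit 0xbc0001780002fd000) b30823 (.hit (nat_lit 58) (nat_lit 98) (nat_lit 0xbc0001780002fcdae) b30824 (.nil))) (.nil))))) (.one (nat_lit 71) (nat_lit 60) (nat_lit 100) (nat_lit 0xbc0001780002fd958) b30826 (.nil)))))))))))))))))) (.tok (nat_lit 52) (nat_lit 0xbc0001780002ffeb8) (.hit (nat_lit 176) (nat_lit 0) (nat_lit 0xbc0001780002ff9a4) b30827 (.tok (nat_lit 6) (nat_lit 0xbc0001780002ffeb8) (.hit (nat_lit 177) (nat_lit 7) (nat_lit 0xbc0001780002ffeb8) b30828 (.hit (nat_lit 178) (nat_lit 15) (nat_lit 0xbc0001780002fee4c) b30829 (.nil))) (.tok (nat_lit 9) (nat_lit 0xbc0001780002ff372) (.hit (nat_lit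 179) (nat_lit 20) (nat_lit 0xbc0001780002fd0c6) b30830 (.hit (nat_lit 180) (nat_lit 28) (nat_lit 0xbc0001780002ff372) b30831 (.nil))) (.nil)))) (.tok (nat_lit 55) (nat_lit 0xbc00017800030008f) (.hit (nat_lit 187) (nat_lit 0) (nat_lit 0xbc00017800030008f) b30832 (.tok (nat_lit 3) (nat_lit 0xbc0001780002fd71d) (.hit (nat_lit 188) (nat_lit 1) (nat_lit 0xbc0001780002fc9d8) b30833 (.one (nat_lit 67) (nat_lit 189) (nat_lit 2) (nat_lit 0xbc0001780002fd71d) b30834 (.nil))) (.tok (nat_lit 6) (nat_lit 0xbc0001780002fc9eb) (.hit (nat_lit 190) (nat_lit 7) (nat_lit 0xbc0001780002fc6b7) b30835 (.hit (nat_lit 193) (nat_lit 15) (nat_lit 0xbc0001780002fc9eb) b30836 (.nil))) (.nil)))) (.tok (nat_lit 58) (nat_lit 0xbc0001780002ffc16) (.hit (nat_lit 201) (nat_lit 0) (nat_lit 0xbc0001780002ff017) b30837 (.tok (nat_lit 3) (nat_lit 0xbc0001780002fe38b) (.hit (nat_lit 202) (nat_lit 1) (nat_lit 0xbc0001780002fcb04)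 b30838 (.one (nat_lit 55) (nat_lit 203) (nat_lit 3) (nat_lit 0xbc0001780002fe38b) b30839 (.nil))) (.tok (nat_lit 9) (nat_lit 0xbc0001780002ffc16) (.hit (nat_lit 204) (nat_lit 20) (nat_lit 0xbc0001780002fd261) b30840 (.hit (nat_lit 207) (nat_lit 28) (nat_lit 0xbc0001780002fc918) b30843 (.tok (nat_lit 67) (nat_lit 0xbc0001780002ffc16) (.hit (nat_lit 205) (nat_lit 21) (nat_lit 0xbc0001780002fdf06) b30841 (.hit (nat_lit 208) (nat_lit 29) (nat_lit 0xbc0001780002fe2d7) b30844 (.one (nat_lit 9) (nat_lit 206) (nat_lit 22) (nat_lit 0xbc0001780002ffc16) b30842 (.nil)))) (.nil)))) (.nil)))) (.nil))))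
noncomputable def r15_194 : Rw Blk := .tok (nat_lit 3) (nat_lit 0xbc000178000301a6b) (.hit (nat_lit 15) (nat_lit 0) (nat_lit 0xbc0001780002ff1eb) b30852 (.tok (nat_lit 9) (nat_lit 0xbc0001780002febaa) (.hit (nat_lit 16) (nat_lit 20) (nat_lit 0xbc0001780002fd5d5) b30853 (.hit (nat_lit 21) (nat_lit 28) (nat_lit 0xbc0001780002fb51c) b30858 (.tok (nat_lit 14) (nat_lit 0xbc0001780002fe550) (.hit (nat_lit 17) (nat_lit 24) (nat_lit 0xbc0001780002fdd90) b30854 (.hit (nat_lit 22) (nat_lit 30) (nat_lit 0xbc0001780002fdcab) b30859 (.one (nat_lit 6) (nat_lit 18) (nat_lit 25) (nat_lit 0xbc0001780002fe550) b30855 (.nil)))) (.tok (nat_lit 68) (nat_lit 0xbc0001780002febaa) (.hit (nat_lit 19) (nat_lit 26) (nat_lit 0xbc0001780002fe17c) b30856 (.hit (nat_lit 24) (nat_lit 32) (nat_lit 0xbc0001780002fd995) b30860 (.one (nat_lit 9) (nat_lit 20) (nat_lit 27) (nat_lit 0xbc0001780002febaa) b30857 (.nil))))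 (.nil))))) (.tok (nat_lit 64) (nat_lit 0xbc0001780002fe7f6) (.hit (nat_lit 25) (nat_lit 50) (nat_lit 0xbc0001780002fe7f6) b30861 (.hit (nat_lit 26) (nat_lit 51) (nat_lit 0xbc0001780002fe38f) b30862 (.nil))) (.tok (nat_lit 67) (nat_lit 0xbc000178000301a6b) (.hit (nat_lit 27) (nat_lit 52) (nat_lit 0xbc000178000301a6b) b30863 (.tok (nat_lit 3) (nat_lit 0xbc0001780002ff37c) (.hit (nat_lit 33) (nat_lit 58) (nat_lit 0xbc0001780002fef1b) b30869 (.one (nat_lit 55) (nat_lit 34) (nat_lit 59) (nat_lit 0xbc0001780002ff37c) b30870 (.nil))) (.tok (nat_lit 9) (nat_lit 0xbc0001780002ff596) (.hit (nat_lit 28) (nat_lit 53) (nat_lit 0xbc0001780002fe56b) b30864 (.hit (nat_lit 31) (nat_lit 56) (nat_lit 0xbc0001780002fe2d9) b30867 (.tok (nat_lit 67) (nat_lit 0xbc0001780002ff596) (.hit (nat_lit 29) (nat_lit 54) (nat_lit 0xbc0001780002ff596) b30865 (.hit (nat_lit 32) (nat_lit 57) (nat_lit 0xbc0001780002feedf)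 b30868 (.one (nat_lit 9) (nat_lit 30) (nat_lit 55) (nat_lit 0xbc0001780002fe6fc) b30866 (.nil)))) (.nil)))) (.nil)))) (.one (nat_lit 70) (nat_lit 35) (nat_lit 60) (nat_lit 0xbc0001780002ff36c) b30871 (.nil)))))) (.tok (nat_lit 6) (nat_lit 0xbc000178000301b8d) (.hit (nat_lit 0) (nat_lit 0) (nat_lit 0xbc000178000300e29) b30845 (.tok (nat_lit 6) (nat_lit 0xbc000178000301b8d) (.hit (nat_lit 1) (nat_lit 7) (nat_lit 0xbc0001780002ff328) b30846 (.hit (nat_lit 4) (nat_lit 15) (nat_lit 0xbc0001780002fde25) b30849 (.tok (nat_lit 14) (nat_lit 0xbc000178000301b8d) (.hit (nat_lit 2) (nat_lit 11) (nat_lit 0xbc000178000301b8d) b30847 (.hit (nat_lit 5) (nat_lit 17) (nat_lit 0xbc0001780002ff433) b30850 (.one (nat_lit 9) (nat_lit 3) (nat_lit 12) (nat_lit 0xbc000178000300eb6) b30848 (.nil)))) (.one (nat_lit 68) (nat_lit 6) (nat_lit 18) (nat_lit 0xbc0001780002fefdb) b30851 (.nil))))) (.nil))) (.nil))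
noncomputable def r15_195 : Rw Blk := .tok (nat_lit 3) (nat_lit 0x17ede4afc6905fbf80bf7b257ed292fddb8) (.hit (nat_lit 0) (nat_lit 0) (nat_lit 0x17ede4afc6905fbf80bf7b257ed292fddb8) b30872 (.tok (nat_lit 6) (nat_lit 0x17e74eafaf4d5fba52bf46797e353afcfcd) (.hit (nat_lit 1) (nat_lit 7) (nat_lit 0x17e74eafaf4d5fba52bf46797e353afcfcd) b30873 (.hit (nat_lit 6) (nat_lit 15) (nat_lit 0x17e6172facde5faa4abf3cbd7e21c2fcd5e) b30874 (.nil))) (.tok (nat_lit 9) (nat_lit 0x17e74eafaf4d5fba52bf46797e353afcfcd) (.hit (nat_lit 10) (nat_lit 20) (nat_lit 0x17e74eafaf4d5fba52bf46797e353afcfcd) b30873 (.hit (nat_lit 15) (nat_lit 28) (nat_lit 0x17e6172facde5faa4abf3cbd7e21c2fcd5e) b30874 (.nil))) (.nil)))) (.tok (nat_lit 6) (nat_lit 0x17f90d2fddea5fe28abff1597fc382ff652) (.hit (nat_lit 81) (nat_lit 0) (nat_lit 0x17f9062fddea5fd660bfe3dd7fbe5aff4af) b30875 (.tok (nat_lit 3) (nat_lit 0x17f90d2fd4745fe28abff1597fc382ff652)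 (.hit (nat_lit 82) (nat_lit 1) (nat_lit 0x17eb84afba075fb764bf7c897eefb2fdada) b30876 (.one (nat_lit 67) (nat_lit 83) (nat_lit 2) (nat_lit 0x17f90d2fd4745fe28abff1597fc382ff652) b30877 (.nil))) (.tok (nat_lit 6) (nat_lit 0x17f57f2fd8445fd1d2bfb5cd7f5e7afe8b3) (.hit (nat_lit 87) (nat_lit 7) (nat_lit 0x17f57f2fd8445fd1d2bfb5cd7f5e7afe8b3) b30878 (.hit (nat_lit 95) (nat_lit 15) (nat_lit 0x17ec9fafb9a15fa7babf830d7efcbafdc7b) b30879 (.nil))) (.nil)))) (.tok (nat_lit 9) (nat_lit 0x180000300000600000c0000180000300000) (.hit (nat_lit 157) (nat_lit 0) (nat_lit 0x17f9062fddea5fd660bfbd0d7f85daff055) b30880 (.tok (nat_lit 3) (nat_lit 0x17f90d2fd4745fe28abfc1ad7f92caff206) (.hit (nat_lit 158) (nat_lit 1) (nat_lit 0x17eb84afba075fb764bf53c17eb6fafd680) b30881 (.one (nat_lit 55) (nat_lit 159) (nat_lit 3) (nat_lit 0x17f90d2fd4745fe28abfc1ad7f92caff206) b30882 (.nil))) (.tok (nat_lit 9) (nat_lit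 0x180000300000600000c0000180000300000) (.hit (nat_lit 163) (nat_lit 20) (nat_lit 0x17f57f2fd8445fd1d2bf88a57f1baafe3b4) b30883 (.hit (nat_lit 171) (nat_lit 28) (nat_lit 0x17ec9fafb9a15fa7babf5a457ec402fd821) b30887 (.tok (nat_lit 67) (nat_lit 0x180000300000600000c0000180000300000) (.hit (nat_lit 164) (nat_lit 21) (nat_lit 0x17ff622fe7f45fe1debff6d57fdc7affeaf) b30884 (.hit (nat_lit 172) (nat_lit 29) (nat_lit 0x17f8ebafd6225fde6ebfc9197fa1aaff3d7) b30888 (.tok (nat_lit 9) (nat_lit 0x180000300000600000c0000180000300000) (.hit (nat_lit 165) (nat_lit 22) (nat_lit 0x17fa04afefc75fe4a4bfcac57f9ebaff381) b30885 (.one (nat_lit 67) (nat_lit 166) (nat_lit 23) (nat_lit 0x180000300000600000c0000180000300000) b30886 (.nil))) (.nil)))) (.nil)))) (.nil)))) (.nil)))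
noncomputable def r15_196 : Rw Blk := .tok (nat_lit 6) (nat_lit 0xbc000178000300000) (.hit (nat_lit 51) (nat_lit 0) (nat_lit 0xbc0001780002ff743) b8943 (.tok (nat_lit 3) (nat_lit 0xbc0001780002ffecc) (.hit (nat_lit 52) (nat_lit 1) (nat_lit 0xbc0001780002fdccb) b8944 (.one (nat_lit 14) (nat_lit 53) (nat_lit 4) (nat_lit 0xbc0001780002ffecc) b9239 (.one (nat_lit 56) (nat_lit 55) (nat_lit 6) (nat_lit 0xbc0001780002ff720) b8945 (.one (nat_lit 68) (nat_lit 54) (nat_lit 5) (nat_lit 0xbc0001780002fef3e) b8946 (.nil))))) (.tok (nat_lit 40) (nat_lit 0xbc0001780002ff5de) (.hit (nat_lit 56) (nat_lit 33) (nat_lit 0xbc0001780002ff5de) b8947 (.hit (nat_lit 57) (nat_lit 34) (nat_lit 0xbc0001780002ff3d8) b8948 (.nil))) (.tok (nat_lit 43) (nat_lit 0xbc000178000300000) (.hit (nat_lit 58) (nat_lit 35) (nat_lit 0xbc000178000300000) b8951 (.hit (nat_lit 59) (nat_lit 36) (nat_lit 0xbc0001780002ff6ae)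 b8952 (.nil))) (.tok (nat_lit 46) (nat_lit 0xbc0001780002ffbd8) (.hit (nat_lit 60) (nat_lit 37) (nat_lit 0xbc0001780002fe56f) b8949 (.hit (nat_lit 61) (nat_lit 38) (nat_lit 0xbc0001780002ffbd8) b8950 (.nil))) (.nil)))))) (.tok (nat_lit 9) (nat_lit 0xbc0001780002ffecc) (.hit (nat_lit 0) (nat_lit 0) (nat_lit 0xbc0001780002ff743) b8943 (.tok (nat_lit 3) (nat_lit 0xbc0001780002ffecc) (.hit (nat_lit 1) (nat_lit 1) (nat_lit 0xbc0001780002fdccb) b8944 (.one (nat_lit 14) (nat_lit 2) (nat_lit 4) (nat_lit 0xbc0001780002ffecc) b9239 (.one (nat_lit 56) (nat_lit 4) (nat_lit 6) (nat_lit 0xbc0001780002fef3e) b8946 (.one (nat_lit 68) (nat_lit 3) (nat_lit 5) (nat_lit 0xbc0001780002ff720) b8945 (.nil))))) (.nil))) (.nil))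
noncomputable def r15_197 : Rw Blk := .tok (nat_lit 3) (nat_lit 0xbc0001780002fde12) (.hit (nat_lit 61) (nat_lit 0) (nat_lit 0xbc0001780002fd24b) b8970 (.tok (nat_lit 9) (nat_lit 0xbc0001780002fd581) (.hit (nat_lit 62) (nat_lit 20) (nat_lit 0xbc0001780002fbbf9) b8971 (.hit (nat_lit 67) (nat_lit 28) (nat_lit 0xbc0001780002fadd7) b8974 (.tok (nat_lit 14) (nat_lit 0xbc0001780002fcdff) (.hit (nat_lit 63) (nat_lit 24) (nat_lit 0xbc0001780002fbe0c) b9665 (.hit (nat_lit 68) (nat_lit 30) (nat_lit 0xbc0001780002fc1ee) b9667 (.one (nat_lit 6) (nat_lit 64) (nat_lit 25) (nat_lit 0xbc0001780002fcdff) b9666 (.nil)))) (.tok (nat_lit 68) (nat_lit 0xbc0001780002fd581) (.hit (nat_lit 65) (nat_lit 26) (nat_lit 0xbc0001780002fcd73) b8972 (.hit (nat_lit 70) (nat_lit 32) (nat_lit 0xbc0001780002fbed5) b8976 (.one (nat_lit 9) (nat_lit 66) (nat_lit 27) (nat_lit 0xbc0001780002fd581) b8973 (.nil)))) (.nil)))))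 (.tok (nat_lit 64) (nat_lit 0xbc0001780002fc70f) (.hit (nat_lit 71) (nat_lit 50) (nat_lit 0xbc0001780002fbf8c) b8977 (.hit (nat_lit 72) (nat_lit 51) (nat_lit 0xbc0001780002fc70f) b8978 (.nil))) (.tok (nat_lit 67) (nat_lit 0xbc0001780002fde12) (.hit (nat_lit 73) (nat_lit 52) (nat_lit 0xbc0001780002fdd96) b8979 (.tok (nat_lit 3) (nat_lit 0xbc0001780002fde12) (.hit (nat_lit 79) (nat_lit 58) (nat_lit 0xbc0001780002fd3b5) b8985 (.one (nat_lit 55) (nat_lit 80) (nat_lit 59) (nat_lit 0xbc0001780002fde12) b9668 (.nil))) (.tok (nat_lit 9) (nat_lit 0xbc0001780002fd8c9) (.hit (nat_lit 74) (nat_lit 53) (nat_lit 0xbc0001780002fc8f3) b8980 (.hit (nat_lit 77) (nat_lit 56) (nat_lit 0xbc0001780002fcc00) b8983 (.tok (nat_lit 67) (nat_lit 0xbc0001780002fd8c9) (.hit (nat_lit 75) (nat_lit 54) (nat_lit 0xbc0001780002fd809) b8981 (.hit (nat_lit 78) (nat_lit 57) (nat_lit 0xbc0001780002fd8c9) b8984 (.one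 (nat_lit 9) (nat_lit 76) (nat_lit 55) (nat_lit 0xbc0001780002fd3cd) b8982 (.nil)))) (.nil)))) (.nil)))) (.one (nat_lit 70) (nat_lit 81) (nat_lit 60) (nat_lit 0xbc0001780002fc7be) b8986 (.nil)))))) (.tok (nat_lit 6) (nat_lit 0xbc000178000300000) (.hit (nat_lit 0) (nat_lit 0) (nat_lit 0xbc0001780002feb42) b8953 (.tok (nat_lit 6) (nat_lit 0xbc000178000300000) (.hit (nat_lit 1) (nat_lit 7) (nat_lit 0xbc0001780002fd8ca) b8954 (.hit (nat_lit 6) (nat_lit 15) (nat_lit 0xbc0001780002fc64d) b8957 (.tok (nat_lit 14) (nat_lit 0xbc0001780002ff85a) (.hit (nat_lit 2) (nat_lit 11) (nat_lit 0xbc0001780002ff85a) b9662 (.hit (nat_lit 7) (nat_lit 17) (nat_lit 0xbc0001780002fe69f) b9664 (.one (nat_lit 9) (nat_lit 3) (nat_lit 12) (nat_lit 0xbc0001780002ff70f) b9663 (.nil)))) (.tok (nat_lit 56) (nat_lit 0xbc000178000300000) (.hit (nat_lit 4) (nat_lit 13) (nat_lit 0xbc0001780002fefdc) b8955 (.hit (nat_lit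 9) (nat_lit 19) (nat_lit 0xbc0001780002fd664) b8959 (.one (nat_lit 6) (nat_lit 5) (nat_lit 14) (nat_lit 0xbc000178000300000) b8956 (.nil)))) (.one (nat_lit 68) (nat_lit 8) (nat_lit 18) (nat_lit 0xbc0001780002fdb60) b8958 (.nil)))))) (.nil))) (.nil))
noncomputable def r15_198 : Rw Blk := .tok (nat_lit 3) (nat_lit 0xbc000178000300000) (.hit (nat_lit 61) (nat_lit 0) (nat_lit 0xbc0001780002fe458) b9679 (.tok (nat_lit 9) (nat_lit 0xbc0001780002fe986) (.hit (nat_lit 62) (nat_lit 20) (nat_lit 0xbc0001780002fc969) b9680 (.hit (nat_lit 67) (nat_lit 28) (nat_lit 0xbc0001780002fccd8) b9685 (.tok (nat_lit 14) (nat_lit 0xbc0001780002fe986) (.hit (nat_lit 63) (nat_lit 24) (nat_lit 0xbc0001780002fdef7) b9681 (.hit (nat_lit 68) (nat_lit 30) (nat_lit 0xbc0001780002fdbe8) b9686 (.one (nat_lit 6) (nat_lit 64) (nat_lit 25) (nat_lit 0xbc0001780002fe986) b9682 (.nil)))) (.tok (nat_lit 68) (nat_lit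 0xbc0001780002fe4bc) (.hit (nat_lit 65) (nat_lit 26) (nat_lit 0xbc0001780002fe13b) b9683 (.hit (nat_lit 70) (nat_lit 32) (nat_lit 0xbc0001780002fdd09) b9687 (.one (nat_lit 9) (nat_lit 66) (nat_lit 27) (nat_lit 0xbc0001780002fe4bc) b9684 (.nil)))) (.nil))))) (.tok (nat_lit 64) (nat_lit 0xbc0001780002fe727) (.hit (nat_lit 71) (nat_lit 50) (nat_lit 0xbc0001780002fdff1) b9688 (.hit (nat_lit 72) (nat_lit 51) (nat_lit 0xbc0001780002fe727) b9689 (.nil))) (.tok (nat_lit 67) (nat_lit 0xbc000178000300000) (.hit (nat_lit 73) (nat_lit 52) (nat_lit 0xbc0001780002ff6c3) b9690 (.tok (nat_lit 3) (nat_lit 0xbc0001780002ff70a) (.hit (nat_lit 79) (nat_lit 58) (nat_lit 0xbc0001780002fef58) b9696 (.one (nat_lit 55) (nat_lit 80) (nat_lit 59) (nat_lit 0xbc0001780002ff70a) b9697 (.nil))) (.tok (nat_lit 9) (nat_lit 0xbc000178000300000) (.hit (nat_lit 74) (nat_lit 53) (nat_lit 0xbc0001780002ff8b2) b9691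 (.hit (nat_lit 77) (nat_lit 56) (nat_lit 0xbc0001780002fe613) b9694 (.tok (nat_lit 67) (nat_lit 0xbc000178000300000) (.hit (nat_lit 75) (nat_lit 54) (nat_lit 0xbc000178000300000) b9692 (.hit (nat_lit 78) (nat_lit 57) (nat_lit 0xbc0001780002ff758) b9695 (.one (nat_lit 9) (nat_lit 76) (nat_lit 55) (nat_lit 0xbc0001780002ff868) b9693 (.nil)))) (.nil)))) (.nil)))) (.one (nat_lit 70) (nat_lit 81) (nat_lit 60) (nat_lit 0xbc0001780002fe6b7) b9698 (.nil)))))) (.tok (nat_lit 6) (nat_lit 0xbc0001780002fff7c) (.hit (nat_lit 0) (nat_lit 0) (nat_lit 0xbc0001780002ff20f) b9669 (.tok (nat_lit 6) (nat_lit 0xbc0001780002fff7c) (.hit (nat_lit 1) (nat_lit 7) (nat_lit 0xbc0001780002fe639) b9670 (.hit (nat_lit 6) (nat_lit 15) (nat_lit 0xbc0001780002fd8e0) b9675 (.tok (nat_lit 14) (nat_lit 0xbc0001780002fff7c) (.hit (nat_lit 2) (nat_lit 11) (nat_lit 0xbc0001780002ff6f2) b9671 (.hit (nat_lit 7) (nat_lit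 17) (nat_lit 0xbc0001780002fff7c) b9676 (.one (nat_lit 9) (nat_lit 3) (nat_lit 12) (nat_lit 0xbc0001780002ff63a) b9672 (.nil)))) (.tok (nat_lit 56) (nat_lit 0xbc0001780002ff66d) (.hit (nat_lit 4) (nat_lit 13) (nat_lit 0xbc0001780002ff598) b9673 (.hit (nat_lit 9) (nat_lit 19) (nat_lit 0xbc0001780002ff56e) b9678 (.one (nat_lit 6) (nat_lit 5) (nat_lit 14) (nat_lit 0xbc0001780002ff66d) b9674 (.nil)))) (.one (nat_lit 68) (nat_lit 8) (nat_lit 18) (nat_lit 0xbc0001780002ff5ca) b9677 (.nil)))))) (.nil))) (.nil))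
noncomputable def r15_199 : Rw Blk := .tok (nat_lit 3) (nat_lit 0xbc0001780002fddcf) (.hit (nat_lit 61) (nat_lit 0) (nat_lit 0xbc0001780002fd208) b9255 (.tok (nat_lit 6) (nat_lit 0xbc0001780002fcdbc) (.hit (nat_lit 62) (nat_lit 7) (nat_lit 0xbc0001780002fbbb6) b9256 (.hit (nat_lit 67) (nat_lit 15) (nat_lit 0xbc0001780002fad94) b9261 (.tok (nat_lit 14) (nat_lit 0xbc0001780002fcdbc) (.hit (nat_lit 63) (nat_lit 11) (nat_lit 0xbc0001780002fbdc9) b9257 (.hit (nat_lit 68) (nat_lit 17) (nat_lit 0xbc0001780002fc1ab) b9262 (.one (nat_lit 9) (nat_lit 64) (nat_lit 12) (nat_lit 0xbc0001780002fcdbc) b9258 (.nil)))) (.one (nat_lit 68) (nat_lit 69) (nat_lit 18) (nat_lit 0xbc0001780002fc012) b9263 (.nil))))) (.tok (nat_lit 52) (nat_lit 0xbc0001780002fc6cc) (.hit (nat_lit 71) (nat_lit 39) (nat_lit 0xbc0001780002fbf49) b9265 (.hit (nat_lit 72) (nat_lit 40) (nat_lit 0xbc0001780002fc6cc) b9266 (.nil)))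 (.tok (nat_lit 55) (nat_lit 0xbc0001780002fddcf) (.hit (nat_lit 73) (nat_lit 41) (nat_lit 0xbc0001780002fdd53) b9267 (.tok (nat_lit 3) (nat_lit 0xbc0001780002fddcf) (.hit (nat_lit 79) (nat_lit 47) (nat_lit 0xbc0001780002fd372) b9273 (.one (nat_lit 67) (nat_lit 80) (nat_lit 48) (nat_lit 0xbc0001780002fddcf) b9274 (.nil))) (.tok (nat_lit 6) (nat_lit 0xbc0001780002fcbbd) (.hit (nat_lit 74) (nat_lit 42) (nat_lit 0xbc0001780002fc8b0) b9268 (.hit (nat_lit 77) (nat_lit 45) (nat_lit 0xbc0001780002fcbbd) b9271 (.nil))) (.nil)))) (.one (nat_lit 58) (nat_lit 81) (nat_lit 49) (nat_lit 0xbc0001780002fc77b) b9275 (.nil)))))) (.tok (nat_lit 9) (nat_lit 0xbc000178000300000) (.hit (nat_lit 0) (nat_lit 0) (nat_lit 0xbc0001780002feaff) b9240 (.tok (nat_lit 9) (nat_lit 0xbc0001780002fffbd) (.hit (nat_lit 1) (nat_lit 20) (nat_lit 0xbc0001780002fd887) b9241 (.hit (nat_lit 6) (nat_lit 28) (nat_lit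 0xbc0001780002fc60a) b9244 (.tok (nat_lit 14) (nat_lit 0xbc0001780002ff817) (.hit (nat_lit 2) (nat_lit 24) (nat_lit 0xbc0001780002ff817) b9242 (.hit (nat_lit 7) (nat_lit 30) (nat_lit 0xbc0001780002fe65c) b9245 (.one (nat_lit 6) (nat_lit 3) (nat_lit 25) (nat_lit 0xbc0001780002ff6cc) b9243 (.nil)))) (.one (nat_lit 56) (nat_lit 8) (nat_lit 31) (nat_lit 0xbc0001780002fdb1d) b9246 (.tok (nat_lit 68) (nat_lit 0xbc0001780002fffbd) (.hit (nat_lit 4) (nat_lit 26) (nat_lit 0xbc0001780002fef99) b9609 (.hit (nat_lit 9) (nat_lit 32) (nat_lit 0xbc0001780002fd621) b9611 (.one (nat_lit 9) (nat_lit 5) (nat_lit 27) (nat_lit 0xbc0001780002fffbd) b9610 (.nil)))) (.nil)))))) (.tok (nat_lit 64) (nat_lit 0xbc0001780002feaaa) (.hit (nat_lit 10) (nat_lit 50) (nat_lit 0xbc0001780002fdd77) b9247 (.hit (nat_lit 11) (nat_lit 51) (nat_lit 0xbc0001780002feaaa) b9248 (.nil))) (.tok (nat_lit 67) (nat_lit 0xbc000178000300000)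 (.hit (nat_lit 12) (nat_lit 52) (nat_lit 0xbc0001780002ff885) b9249 (.tok (nat_lit 3) (nat_lit 0xbc000178000300000) (.hit (nat_lit 18) (nat_lit 58) (nat_lit 0xbc0001780002fec8d) b9252 (.one (nat_lit 55) (nat_lit 19) (nat_lit 59) (nat_lit 0xbc000178000300000) b9253 (.nil))) (.tok (nat_lit 9) (nat_lit 0xbc0001780002ffc81) (.hit (nat_lit 13) (nat_lit 53) (nat_lit 0xbc0001780002fe0f2) b9250 (.hit (nat_lit 16) (nat_lit 56) (nat_lit 0xbc0001780002fece8) b9251 (.tok (nat_lit 67) (nat_lit 0xbc0001780002ffc81) (.hit (nat_lit 14) (nat_lit 54) (nat_lit 0xbc0001780002ff6bd) b9612 (.hit (nat_lit 17) (nat_lit 57) (nat_lit 0xbc0001780002ffc81) b9614 (.one (nat_lit 9) (nat_lit 15) (nat_lit 55) (nat_lit 0xbc0001780002ff76a) b9613 (.nil)))) (.nil)))) (.nil)))) (.one (nat_lit 70) (nat_lit 20) (nat_lit 60) (nat_lit 0xbc0001780002fecd6) b9254 (.nil)))))) (.nil))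
noncomputable def r15_200 : Rw Blk := .tok (nat_lit 3) (nat_lit 0xbc0001780002fd31d) (.hit (nat_lit 61) (nat_lit 0) (nat_lit 0xbc0001780002fbec3) b30910 (.tok (nat_lit 6) (nat_lit 0xbc0001780002fc3f1) (.hit (nat_lit 62) (nat_lit 7) (nat_lit 0xbc0001780002fa3d4) b30911 (.hit (nat_lit 67) (nat_lit 15) (nat_lit 0xbc0001780002fa743) b30914 (.tok (nat_lit 14) (nat_lit 0xbc0001780002fc3f1) (.hit (nat_lit 63) (nat_lit 11) (nat_lit 0xbc0001780002fb962) b30912 (.hit (nat_lit 68) (nat_lit 17) (nat_lit 0xbc0001780002fb653) b30915 (.one (nat_lit 9) (nat_lit 64) (nat_lit 12) (nat_lit 0xbc0001780002fc3f1) b30913 (.nil)))) (.one (nat_lit 68) (nat_lit 69) (nat_lit 18) (nat_lit 0xbc0001780002fbd79) b30916 (.nil))))) (.tok (nat_lit 52) (nat_lit 0xbc0001780002fc192) (.hit (nat_lit 71) (nat_lit 39) (nat_lit 0xbc0001780002fba5c) b30917 (.hit (nat_lit 72) (nat_lit 40) (nat_lit 0xbc0001780002fc192)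 b30918 (.nil))) (.tok (nat_lit 55) (nat_lit 0xbc0001780002fd31d) (.hit (nat_lit 73) (nat_lit 41) (nat_lit 0xbc0001780002fd12e) b30919 (.tok (nat_lit 3) (nat_lit 0xbc0001780002fd175) (.hit (nat_lit 79) (nat_lit 47) (nat_lit 0xbc0001780002fc9c3) b30922 (.one (nat_lit 67) (nat_lit 80) (nat_lit 48) (nat_lit 0xbc0001780002fd175) b30923 (.nil))) (.tok (nat_lit 6) (nat_lit 0xbc0001780002fd31d) (.hit (nat_lit 74) (nat_lit 42) (nat_lit 0xbc0001780002fd31d) b30920 (.hit (nat_lit 77) (nat_lit 45) (nat_lit 0xbc0001780002fc07e) b30921 (.nil))) (.nil)))) (.one (nat_lit 58) (nat_lit 81) (nat_lit 49) (nat_lit 0xbc0001780002fc122) b30924 (.nil)))))) (.tok (nat_lit 9) (nat_lit 0xbc0001780003004e2) (.hit (nat_lit 0) (nat_lit 0) (nat_lit 0xbc0001780002fcc7a) b30889 (.tok (nat_lit 9) (nat_lit 0xbc0001780002fd9e7) (.hit (nat_lit 1) (nat_lit 20) (nat_lit 0xbc0001780002fc0a4) b30890 (.hit (nat_lit 6)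 (nat_lit 28) (nat_lit 0xbc0001780002fb34b) b30895 (.tok (nat_lit 14) (nat_lit 0xbc0001780002fd9e7) (.hit (nat_lit 2) (nat_lit 24) (nat_lit 0xbc0001780002fd15d) b30891 (.hit (nat_lit 7) (nat_lit 30) (nat_lit 0xbc0001780002fd9e7) b30896 (.one (nat_lit 6) (nat_lit 3) (nat_lit 25) (nat_lit 0xbc0001780002fd0a5) b30892 (.nil)))) (.one (nat_lit 56) (nat_lit 8) (nat_lit 31) (nat_lit 0xbc0001780002fd035) b30897 (.tok (nat_lit 68) (nat_lit 0xbc0001780002fd0d8) (.hit (nat_lit 4) (nat_lit 26) (nat_lit 0xbc0001780002fd003) b30893 (.hit (nat_lit 9) (nat_lit 32) (nat_lit 0xbc0001780002fcfd9) b30898 (.one (nat_lit 9) (nat_lit 5) (nat_lit 27) (nat_lit 0xbc0001780002fd0d8) b30894 (.nil)))) (.nil)))))) (.tok (nat_lit 64) (nat_lit 0xbc0001780002fd678) (.hit (nat_lit 10) (nat_lit 50) (nat_lit 0xbc0001780002fc665) b30899 (.hit (nat_lit 11) (nat_lit 51) (nat_lit 0xbc0001780002fd678) b30900 (.nil)))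 (.tok (nat_lit 67) (nat_lit 0xbc0001780003004e2) (.hit (nat_lit 12) (nat_lit 52) (nat_lit 0xbc0001780002fdbfa) b30901 (.tok (nat_lit 3) (nat_lit 0xbc0001780002fe107) (.hit (nat_lit 18) (nat_lit 58) (nat_lit 0xbc0001780002fce4c) b30907 (.one (nat_lit 55) (nat_lit 19) (nat_lit 59) (nat_lit 0xbc0001780002fe107) b30908 (.nil))) (.tok (nat_lit 9) (nat_lit 0xbc0001780003004e2) (.hit (nat_lit 13) (nat_lit 53) (nat_lit 0xbc0001780002fe15c) b30902 (.hit (nat_lit 16) (nat_lit 56) (nat_lit 0xbc0001780002fdd5d) b30905 (.tok (nat_lit 67) (nat_lit 0xbc0001780003004e2) (.hit (nat_lit 14) (nat_lit 54) (nat_lit 0xbc0001780002ffdd4) b30903 (.hit (nat_lit 17) (nat_lit 57) (nat_lit 0xbc0001780002fd973) b30906 (.one (nat_lit 9) (nat_lit 15) (nat_lit 55) (nat_lit 0xbc0001780003004e2) b30904 (.nil)))) (.nil)))) (.nil)))) (.one (nat_lit 70) (nat_lit 20) (nat_lit 60) (nat_lit 0xbc0001780002fd4c6) b30909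 (.nil)))))) (.nil))
noncomputable def r15_201 : Rw Blk := .tok (nat_lit 3) (nat_lit 0x5fdb86bfabbd7fa762fe71c5ff568bfb6617f9342ff345) (.hit (nat_lit 0) (nat_lit 0) (nat_lit 0x5f8b4abf14597ebb62fc8ac5faddcbf3abd7e99aafd4d0) b30925 (.tok (nat_lit 6) (nat_lit 0x5f9aaebf28f17f64f2fce805faab4bf58dd7ec69afd96c) (.hit (nat_lit 1) (nat_lit 7) (nat_lit 0x5f71fcbed78d7edb82fba275f8202bf07797e23d2fc513) b30926 (.hit (nat_lit 6) (nat_lit 15) (nat_lit 0x5f6d1ebecdd17e8292fb7b85f7d24befdbd7e105afc2a4) b30931 (.tok (nat_lit 14) (nat_lit 0x5f97f4bf237d7f1282fcd235fa7fabf53697ebbb2fd80f) (.hit (nat_lit 2) (nat_lit 11) (nat_lit 0x5f7f34bef1fd7eda22fc0c35f8f3abf21e97e58b2fcbaf) b30927 (.hit (nat_lit 7) (nat_lit 17) (nat_lit 0x5f7d3abeee097ecbf2fbfc65f8d40bf1df57e50cafcab2) b30932 (.one (nat_lit 9) (nat_lit 3) (nat_lit 12) (nat_lit 0x5f97f4bf237d7f1282fcd235fa7fabf53697ebbb2fd80f) b30928 (.nil))))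 (.tok (nat_lit 56) (nat_lit 0x5f9aaebf28f17f64f2fce805faab4bf58dd7ec69afd96c) (.hit (nat_lit 4) (nat_lit 13) (nat_lit 0x5f8a5ebf08517f2abafc6585f9a64bf383d7e855afd144) b30929 (.hit (nat_lit 9) (nat_lit 19) (nat_lit 0x5f8226bef7e17ed8e2fc23c5f922cbf27cd7e647afcd28) b30934 (.one (nat_lit 6) (nat_lit 5) (nat_lit 14) (nat_lit 0x5f9aaebf28f17f64f2fce805faab4bf58dd7ec69afd96c) b30930 (.nil)))) (.one (nat_lit 68) (nat_lit 8) (nat_lit 18) (nat_lit 0x5f9778bf22857f3022fcce55fa77ebf52717eb9c2fd7d1) b30933 (.nil)))))) (.tok (nat_lit 52) (nat_lit 0x5f851abefdc97f0e12fc3b65f9520bf2db57e704afcea2) (.hit (nat_lit 19) (nat_lit 39) (nat_lit 0x5f7ec6bef1217ebe62fc08c5f8eccbf210d7e56fafcb78) b30935 (.hit (nat_lit 20) (nat_lit 40) (nat_lit 0x5f851abefdc97f0e12fc3b65f9520bf2db57e704afcea2) b30936 (.nil))) (.tok (nat_lit 55) (nat_lit 0x5fdb86bfabbd7fa762fe71c5ff568bfb6617f9342ff345) (.hit (nat_lit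 21) (nat_lit 41) (nat_lit 0x5fdb86bfabbd7fa762fe07c5fe66abf9b197f5b52feca5) b30937 (.tok (nat_lit 3) (nat_lit 0x5fa658bf40457f95cafd4555fb65ebf70317ef542fdf41) (.hit (nat_lit 27) (nat_lit 47) (nat_lit 0x5f970abf21a97f95cafccae5fa710bf51957eb80afd79a) b30943 (.one (nat_lit 67) (nat_lit 28) (nat_lit 48) (nat_lit 0x5fa658bf40457f5adafd4555fb65ebf70317ef542fdf41) b30944 (.nil))) (.tok (nat_lit 6) (nat_lit 0x5fc65abf9eb57f8c02fe71c5ff568bfb6617f9342ff345) (.hit (nat_lit 22) (nat_lit 42) (nat_lit 0x5fb3d0bf6a7d7f5ffafdcb25fdb8ebf8bcd7f3e2afe8db) b30938 (.hit (nat_lit 25) (nat_lit 45) (nat_lit 0x5f97bcbf230d7f561afcd075fa7c2bf52f97ebad2fd7f3) b30941 (.tok (nat_lit 55) (nat_lit 0x5fc65abf9eb57f8c02fe71c5ff568bfb6617f9342ff345) (.hit (nat_lit 23) (nat_lit 43) (nat_lit 0x5fc65abf9eb57f51eafe71c5ff568bfb6617f9342ff345) b30939 (.hit (nat_lit 26) (nat_lit 46) (nat_lit 0x5facd0bf4d357f8c02fd7915fbcd6bf7d217f0f22fe27d)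 b30942 (.one (nat_lit 6) (nat_lit 24) (nat_lit 44) (nat_lit 0x5fa9a2bf46d97f37e2fd5fa5fb9a8bf76c57f026afe0e6) b30940 (.nil)))) (.nil)))) (.nil)))) (.one (nat_lit 58) (nat_lit 29) (nat_lit 49) (nat_lit 0x5f957abf1e897f67d2fcbe65fa580bf4e757eb1cafd6d2) b30945 (.nil)))))) (.tok (nat_lit 9) (nat_lit 0x600000c0000180457300000600a1cc0000180000300000) (.hit (nat_lit 157) (nat_lit 0) (nat_lit 0x5fb40ebf77f57f4992fd9275fc9dabf7bc97ebd2afe550) b30946 (.tok (nat_lit 9) (nat_lit 0x5fde3abfc5097f9c8afe9d85fb33ebfa88d7f7502fde77) (.hit (nat_lit 163) (nat_lit 20) (nat_lit 0x5f9e80bf68cd7ed04afccdf5f9866bf34417ea7d2fd045) b30947 (.hit (nat_lit 171) (nat_lit 28) (nat_lit 0x5f8588beffc17e7772fafaa5f60febec5717d9fc2fb491) b30950 (.tok (nat_lit 14) (nat_lit 0x5fde3abfc5097f9c8afe9d85fb33ebfa88d7f7502fde77) (.hit (nat_lit 167) (nat_lit 24) (nat_lit 0x5fd7febfbcf97f9c8afde885fa1e4bf89a57f4632fdb34)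 b30948 (.hit (nat_lit 173) (nat_lit 30) (nat_lit 0x5fbe80bf71b17f61dafcd635f8446bf2cad7e7a6afcf98) b30951 (.one (nat_lit 6) (nat_lit 168) (nat_lit 25) (nat_lit 0x5fde3abfc5097f9a02fe9d85fb33ebfa88d7f7502fde77) b30949 (.nil)))) (.one (nat_lit 56) (nat_lit 174) (nat_lit 31) (nat_lit 0x5fb080bf55c97f0a02fc65b5f8b78bf1a657e49aafc9ce) b30952 (.nil))))) (.tok (nat_lit 64) (nat_lit 0x5fbec0bfa00d7f55c2fd6465f9ce2bf46ed7ee4a2fd283) (.hit (nat_lit 182) (nat_lit 50) (nat_lit 0x5fbec0bfa00d7f355afcced5f9ce2bf3d397ee4a2fd283) b30953 (.hit (nat_lit 183) (nat_lit 51) (nat_lit 0x5fb984bf8aa57f55c2fd6465f99cebf46ed7e8302fd0f9) b30954 (.nil))) (.tok (nat_lit 67) (nat_lit 0x600000c0000180457300000600a1cc0000180000300000) (.hit (nat_lit 184) (nat_lit 52) (nat_lit 0x600000c00001800a2aff686600a1cbfea0d7fe76300000) b30955 (.tok (nat_lit 3) (nat_lit 0x5ffdd2bfdb957f92d3000005fbf64c00001800002ff862)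 (.hit (nat_lit 190) (nat_lit 58) (nat_lit 0x5fdf42bfc99d7f7b92fee0e5fb734bfc4a1800002fe789) b30958 (.one (nat_lit 55) (nat_lit 191) (nat_lit 59) (nat_lit 0x5ffdd2bfdb957f92d3000005fbf64c000017ffaaaff862) b30959 (.nil))) (.tok (nat_lit 9) (nat_lit 0x5ff2cabfd319804572fdff65fb68ebf74417f4b6aff0c8) (.hit (nat_lit 185) (nat_lit 53) (nat_lit 0x5ff2cabfbcc57f8efafdefb5fb49ebf74417f4b6aff0c8) b30956 (.hit (nat_lit 188) (nat_lit 56) (nat_lit 0x5fcce2bfd319804572fdff65fb68ebf70917ef602fdf59) b30957 (.nil))) (.nil)))) (.one (nat_lit 70) (nat_lit 192) (nat_lit 60) (nat_lit 0x5fbec4bf8b497f558afde205f9e66bf69bd7ead52fd6de) b30960 (.nil)))))) (.nil))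
noncomputable def r15_202 : Rw Blk := .tok (nat_lit 6) (nat_lit 0xbc0001780002ffe7f) (.hit (nat_lit 51) (nat_lit 0) (nat_lit 0xbc0001780002fea49) b30961 (.tok (nat_lit 14) (nat_lit 0xbc0001780002ff7ac) (.hit (nat_lit 62) (nat_lit 61) (nat_lit 0xbc0001780002fee7e) b30962 (.one (nat_lit 3) (nat_lit 63) (nat_lit 62) (nat_lit 0xbc0001780002ff2ce) b30963 (.tok (nat_lit 6) (nat_lit 0xbc0001780002fee3f) (.hit (nat_lit 66) (nat_lit 65) (nat_lit 0xbc0001780002fd5cc) b30966 (.hit (nat_lit 67) (nat_lit 66) (nat_lit 0xbc0001780002fee3f) b30967 (.nil))) (.tok (nat_lit 9) (nat_lit 0xbc0001780002ff7ac) (.hit (nat_lit 64) (nat_lit 63) (nat_lit 0xbc0001780002ff7ac) b30964 (.hit (nat_lit 65) (nat_lit 64) (nat_lit 0xbc0001780002fea28) b30965 (.nil))) (.nil))))) (.one (nat_lit 17) (nat_lit 68) (nat_lit 67) (nat_lit 0xbc0001780002feb60) b30968 (.tok (nat_lit 20) (nat_lit 0xbc0001780002ff65f) (.hit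 (nat_lit 69) (nat_lit 68) (nat_lit 0xbc0001780002ff65f) b30969 (.hit (nat_lit 70) (nat_lit 69) (nat_lit 0xbc0001780002fecc9) b30970 (.nil))) (.tok (nat_lit 23) (nat_lit 0xbc0001780002fe754) (.hit (nat_lit 71) (nat_lit 70) (nat_lit 0xbc0001780002fc1d3) b30971 (.hit (nat_lit 72) (nat_lit 71) (nat_lit 0xbc0001780002fe754) b30972 (.nil))) (.one (nat_lit 26) (nat_lit 73) (nat_lit 72) (nat_lit 0xbc0001780002fdcd5) b30973 (.one (nat_lit 29) (nat_lit 74) (nat_lit 73) (nat_lit 0xbc0001780002fd6a2) b30974 (.one (nat_lit 32) (nat_lit 75) (nat_lit 74) (nat_lit 0xbc0001780002fd8a3) b30975 (.one (nat_lit 35) (nat_lit 76) (nat_lit 75) (nat_lit 0xbc0001780002fe18b) b30976 (.one (nat_lit 50) (nat_lit 84) (nat_lit 83) (nat_lit 0xbc0001780002fea8f) b30977 (.tok (nat_lit 53) (nat_lit 0xbc0001780002fef3b) (.hit (nat_lit 85) (nat_lit 84) (nat_lit 0xbc0001780002fe4bf) b30978 (.hit (nat_lit 86) (nat_lit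 85) (nat_lit 0xbc0001780002fef3b) b30979 (.nil))) (.tok (nat_lit 56) (nat_lit 0xbc0001780002ffe7f) (.hit (nat_lit 87) (nat_lit 86) (nat_lit 0xbc0001780002ffe7f) b30980 (.one (nat_lit 3) (nat_lit 91) (nat_lit 90) (nat_lit 0xbc0001780002ff706) b30984 (.tok (nat_lit 6) (nat_lit 0xbc0001780002ff95f) (.hit (nat_lit 89) (nat_lit 88) (nat_lit 0xbc0001780002ff95f) b30982 (.hit (nat_lit 90) (nat_lit 89) (nat_lit 0xbc0001780002fef1e) b30983 (.nil))) (.one (nat_lit 9) (nat_lit 88) (nat_lit 87) (nat_lit 0xbc0001780002ffe33) b30981 (.nil))))) (.one (nat_lit 59) (nat_lit 92) (nat_lit 91) (nat_lit 0xbc0001780002fe403) b30985 (.one (nat_lit 62) (nat_lit 93) (nat_lit 92) (nat_lit 0xbc0001780002fe22b) b30986 (.tok (nat_lit 65) (nat_lit 0xbc0001780002fea80) (.hit (nat_lit 94) (nat_lit 93) (nat_lit 0xbc0001780002fe482) b30987 (.hit (nat_lit 95) (nat_lit 94) (nat_lit 0xbc0001780002fea80) b30988 (.nil)))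 (.tok (nat_lit 68) (nat_lit 0xbc0001780002fef73) (.hit (nat_lit 96) (nat_lit 95) (nat_lit 0xbc0001780002fef73) b30989 (.one (nat_lit 3) (nat_lit 100) (nat_lit 99) (nat_lit 0xbc0001780002fc531) b30993 (.one (nat_lit 6) (nat_lit 97) (nat_lit 96) (nat_lit 0xbc0001780002fcd1c) b30990 (.tok (nat_lit 9) (nat_lit 0xbc0001780002fcfd4) (.hit (nat_lit 98) (nat_lit 97) (nat_lit 0xbc0001780002fcfd4) b30991 (.hit (nat_lit 99) (nat_lit 98) (nat_lit 0xbc0001780002fca89) b30992 (.nil))) (.nil))))) (.one (nat_lit 71) (nat_lit 101) (nat_lit 100) (nat_lit 0xbc0001780002fe2b3) b30994 (.nil)))))))))))))))))) (.tok (nat_lit 52) (nat_lit 0xbc000178000300df2) (.hit (nat_lit 225) (nat_lit 0) (nat_lit 0xbc000178000300df2) b30995 (.tok (nat_lit 6) (nat_lit 0xbc000178000300863) (.hit (nat_lit 226) (nat_lit 7) (nat_lit 0xbc000178000300863) b30996 (.hit (nat_lit 227) (nat_lit 15) (nat_lit 0xbc0001780002ff7a7)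 b30997 (.nil))) (.tok (nat_lit 9) (nat_lit 0xbc0001780002ffaae) (.hit (nat_lit 228) (nat_lit 20) (nat_lit 0xbc0001780002fe610) b30998 (.hit (nat_lit 229) (nat_lit 28) (nat_lit 0xbc0001780002ffaae) b30999 (.nil))) (.nil)))) (.tok (nat_lit 55) (nat_lit 0xbc0001780002ffb59) (.hit (nat_lit 250) (nat_lit 0) (nat_lit 0xbc0001780002ffb59) b31008 (.tok (nat_lit 3) (nat_lit 0xbc0001780002ffb09) (.hit (nat_lit 251) (nat_lit 1) (nat_lit 0xbc0001780002fdffa) b31009 (.one (nat_lit 67) (nat_lit 252) (nat_lit 2) (nat_lit 0xbc0001780002ffb09) b31010 (.nil))) (.tok (nat_lit 6) (nat_lit 0xbc0001780002ff2a6) (.hit (nat_lit 253) (nat_lit 7) (nat_lit 0xbc0001780002fe5fd) b31011 (.hit (nat_lit 256) (nat_lit 15) (nat_lit 0xbc0001780002fdee7) b31014 (.tok (nat_lit 55) (nat_lit 0xbc0001780002ff2a6) (.hit (nat_lit 254) (nat_lit 8) (nat_lit 0xbc0001780002fe9d0) b31012 (.hit (nat_lit 257) (nat_lit 16) (nat_lit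 0xbc0001780002ff2a6) b31015 (.one (nat_lit 6) (nat_lit 255) (nat_lit 9) (nat_lit 0xbc0001780002ff01c) b31013 (.nil)))) (.nil)))) (.nil)))) (.tok (nat_lit 58) (nat_lit 0xbc000178000300d23) (.hit (nat_lit 236) (nat_lit 0) (nat_lit 0xbc0001780003005f1) b31000 (.tok (nat_lit 3) (nat_lit 0xbc00017800030018d) (.hit (nat_lit 237) (nat_lit 1) (nat_lit 0xbc0001780002fdf90) b31001 (.one (nat_lit 55) (nat_lit 238) (nat_lit 3) (nat_lit 0xbc00017800030018d) b31002 (.nil))) (.tok (nat_lit 9) (nat_lit 0xbc000178000300d23) (.hit (nat_lit 239) (nat_lit 20) (nat_lit 0xbc0001780002fecc1) b31003 (.hit (nat_lit 242) (nat_lit 28) (nat_lit 0xbc0001780002fe57e) b31006 (.tok (nat_lit 67) (nat_lit 0xbc000178000300d23) (.hit (nat_lit 240) (nat_lit 21) (nat_lit 0xbc0001780002ff7d4) b31004 (.hit (nat_lit 243) (nat_lit 29) (nat_lit 0xbc0001780002ffc7f) b31007 (.one (nat_lit 9) (nat_lit 241) (nat_lit 22) (nat_lit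 0xbc000178000300d23) b31005 (.nil)))) (.nil)))) (.nil)))) (.nil))))
noncomputable def r15_203 : Rw Blk := .tok (nat_lit 3) (nat_lit 0xbc000178000301050) (.hit (nat_lit 15) (nat_lit 0) (nat_lit 0xbc0001780002ff739) b31027 (.tok (nat_lit 9) (nat_lit 0xbc0001780002fed91) (.hit (nat_lit 16) (nat_lit 20) (nat_lit 0xbc0001780002fdac6) b31028 (.hit (nat_lit 21) (nat_lit 28) (nat_lit 0xbc0001780002fc304) b31031 (.one (nat_lit 56) (nat_lit 23) (nat_lit 31) (nat_lit 0xbc0001780002fe1af) b31032 (.tok (nat_lit 68) (nat_lit 0xbc0001780002fed91) (.hit (nat_lit 19) (nat_lit 26) (nat_lit 0xbc0001780002fe307) b31029 (.hit (nat_lit 24) (nat_lit 32) (nat_lit 0xbc0001780002fe3e2) b31033 (.one (nat_lit 9) (nat_lit 20) (nat_lit 27) (nat_lit 0xbc0001780002fed91) b31030 (.nil)))) (.nil))))) (.tok (nat_lit 64) (nat_lit 0xbc0001780002fee76) (.hit (nat_lit 25) (nat_lit 50) (nat_lit 0xbc0001780002fe150)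 b31034 (.hit (nat_lit 26) (nat_lit 51) (nat_lit 0xbc0001780002fee76) b31035 (.nil))) (.tok (nat_lit 67) (nat_lit 0xbc000178000301050) (.hit (nat_lit 27) (nat_lit 52) (nat_lit 0xbc000178000301050) b31036 (.one (nat_lit 3) (nat_lit 33) (nat_lit 58) (nat_lit 0xbc0001780002fee8f) b31042 (.tok (nat_lit 9) (nat_lit 0xbc0001780002ff149) (.hit (nat_lit 28) (nat_lit 53) (nat_lit 0xbc0001780002fe72e) b31037 (.hit (nat_lit 31) (nat_lit 56) (nat_lit 0xbc0001780002fea65) b31040 (.tok (nat_lit 67) (nat_lit 0xbc0001780002ff149) (.hit (nat_lit 29) (nat_lit 54) (nat_lit 0xbc0001780002ff149) b31038 (.hit (nat_lit 32) (nat_lit 57) (nat_lit 0xbc0001780002ff04c) b31041 (.one (nat_lit 9) (nat_lit 30) (nat_lit 55) (nat_lit 0xbc0001780002fe67f) b31039 (.nil)))) (.nil)))) (.nil)))) (.one (nat_lit 70) (nat_lit 35) (nat_lit 60) (nat_lit 0xbc0001780002fed5b) b31043 (.nil)))))) (.tok (nat_lit 6) (nat_lit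 0xbc000178000302bcc) (.hit (nat_lit 0) (nat_lit 0) (nat_lit 0xbc00017800030147f) b31016 (.tok (nat_lit 6) (nat_lit 0xbc0001780002ffc1e) (.hit (nat_lit 1) (nat_lit 7) (nat_lit 0xbc0001780002ff1c5) b31017 (.hit (nat_lit 4) (nat_lit 15) (nat_lit 0xbc0001780002fea46) b31018 (.one (nat_lit 68) (nat_lit 6) (nat_lit 18) (nat_lit 0xbc0001780002ffc1e) b31019 (.nil)))) (.tok (nat_lit 52) (nat_lit 0xbc000178000301c23) (.hit (nat_lit 7) (nat_lit 39) (nat_lit 0xbc000178000301240) b31020 (.hit (nat_lit 8) (nat_lit 40) (nat_lit 0xbc000178000301c23) b31021 (.nil))) (.tok (nat_lit 55) (nat_lit 0xbc000178000302648) (.hit (nat_lit 9) (nat_lit 41) (nat_lit 0xbc000178000302648) b31022 (.one (nat_lit 3) (nat_lit 12) (nat_lit 47) (nat_lit 0xbc000178000301bf4) b31025 (.tok (nat_lit 6) (nat_lit 0xbc000178000300aa3) (.hit (nat_lit 10) (nat_lit 42) (nat_lit 0xbc0001780002ffdf9) b31023 (.hit (nat_lit 11)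 (nat_lit 45) (nat_lit 0xbc000178000300aa3) b31024 (.nil))) (.nil)))) (.one (nat_lit 58) (nat_lit 14) (nat_lit 49) (nat_lit 0xbc000178000302bcc) b31026 (.nil)))))) (.nil))
noncomputable def r15_204 : Rw Blk := .tok (nat_lit 9) (nat_lit 0xbc000178000301c03) (.hit (nat_lit 0) (nat_lit 0) (nat_lit 0xbc0001780002fe454) b31044 (.tok (nat_lit 14) (nat_lit 0xbc0001780002ffdc3) (.hit (nat_lit 21) (nat_lit 61) (nat_lit 0xbc0001780002ff9d9) b31045 (.one (nat_lit 3) (nat_lit 22) (nat_lit 62) (nat_lit 0xbc0001780002ff979) b31046 (.tok (nat_lit 6) (nat_lit 0xbc0001780002ffdc3) (.hit (nat_lit 25) (nat_lit 65) (nat_lit 0xbc0001780002ffdc3) b31049 (.hit (nat_lit 26) (nat_lit 66) (nat_lit 0xbc0001780002fdb54) b31050 (.nil))) (.tok (nat_lit 9) (nat_lit 0xbc0001780002ff0d0) (.hit (nat_lit 23) (nat_lit 63) (nat_lit 0xbc0001780002fd584) b31047 (.hit (nat_lit 24) (nat_lit 64) (nat_lit 0xbc0001780002ff0d0)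 b31048 (.nil))) (.nil))))) (.one (nat_lit 17) (nat_lit 27) (nat_lit 67) (nat_lit 0xbc0001780002fe741) b31051 (.tok (nat_lit 20) (nat_lit 0xbc0001780002fe00d) (.hit (nat_lit 28) (nat_lit 68) (nat_lit 0xbc0001780002fc4c7) b31052 (.hit (nat_lit 29) (nat_lit 69) (nat_lit 0xbc0001780002fe00d) b31053 (.nil))) (.tok (nat_lit 23) (nat_lit 0xbc000178000301c03) (.hit (nat_lit 30) (nat_lit 70) (nat_lit 0xbc000178000301c03) b31054 (.hit (nat_lit 31) (nat_lit 71) (nat_lit 0xbc0001780002fe284) b31055 (.nil))) (.one (nat_lit 26) (nat_lit 32) (nat_lit 72) (nat_lit 0xbc0001780002fd8ae) b31056 (.one (nat_lit 29) (nat_lit 33) (nat_lit 73) (nat_lit 0xbc0001780002fe7c3) b31057 (.one (nat_lit 32) (nat_lit 34) (nat_lit 74) (nat_lit 0xbc0001780002fe1aa) b31058 (.one (nat_lit 35) (nat_lit 35) (nat_lit 75) (nat_lit 0xbc0001780002fd123) b31059 (.one (nat_lit 38) (nat_lit 36) (nat_lit 76) (nat_lit 0xbc0001780002fde14)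 b31060 (.tok (nat_lit 41) (nat_lit 0xbc0001780002fe727) (.hit (nat_lit 37) (nat_lit 77) (nat_lit 0xbc0001780002fe223) b31061 (.hit (nat_lit 38) (nat_lit 78) (nat_lit 0xbc0001780002fe727) b31062 (.nil))) (.tok (nat_lit 44) (nat_lit 0xbc0001780002fe5d5) (.hit (nat_lit 39) (nat_lit 79) (nat_lit 0xbc0001780002fbd5e) b31063 (.hit (nat_lit 40) (nat_lit 80) (nat_lit 0xbc0001780002fe5d5) b31064 (.nil))) (.tok (nat_lit 47) (nat_lit 0xbc0001780002ff30e) (.hit (nat_lit 41) (nat_lit 81) (nat_lit 0xbc0001780002ff30e) b31065 (.hit (nat_lit 42) (nat_lit 82) (nat_lit 0xbc0001780002fddac) b31066 (.nil))) (.one (nat_lit 50) (nat_lit 43) (nat_lit 83) (nat_lit 0xbc0001780002fd8bd) b31067 (.tok (nat_lit 53) (nat_lit 0xbc0001780002fe960) (.hit (nat_lit 44) (nat_lit 84) (nat_lit 0xbc0001780002fe960) b31068 (.hit (nat_lit 45) (nat_lit 85) (nat_lit 0xbc0001780002fdd7b) b31069 (.nil))) (.tok (nat_lit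 56) (nat_lit 0xbc0001780002fe299) (.hit (nat_lit 46) (nat_lit 86) (nat_lit 0xbc0001780002fe299) b31070 (.one (nat_lit 3) (nat_lit 50) (nat_lit 90) (nat_lit 0xbc0001780002fc44a) b31074 (.tok (nat_lit 6) (nat_lit 0xbc0001780002fd659) (.hit (nat_lit 48) (nat_lit 88) (nat_lit 0xbc0001780002fd659) b31072 (.hit (nat_lit 49) (nat_lit 89) (nat_lit 0xbc0001780002fce07) b31073 (.nil))) (.one (nat_lit 9) (nat_lit 47) (nat_lit 87) (nat_lit 0xbc0001780002fc86d) b31071 (.nil))))) (.one (nat_lit 59) (nat_lit 51) (nat_lit 91) (nat_lit 0xbc0001780002fdf5f) b31075 (.nil)))))))))))))))))) (.tok (nat_lit 64) (nat_lit 0xbc000178000300ffa) (.hit (nat_lit 176) (nat_lit 0) (nat_lit 0xbc000178000300ffa) b31076 (.tok (nat_lit 6) (nat_lit 0xbc0001780002ff471) (.hit (nat_lit 177) (nat_lit 7) (nat_lit 0xbc0001780002fe07e) b31077 (.hit (nat_lit 178) (nat_lit 15) (nat_lit 0xbc0001780002ff471) b31078 (.nil)))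 (.tok (nat_lit 9) (nat_lit 0xbc0001780002ffd8b) (.hit (nat_lit 179) (nat_lit 20) (nat_lit 0xbc0001780002ffd8b) b31079 (.hit (nat_lit 180) (nat_lit 28) (nat_lit 0xbc0001780002fed08) b31080 (.nil))) (.nil)))) (.tok (nat_lit 67) (nat_lit 0xbc0001780002ff059) (.hit (nat_lit 201) (nat_lit 0) (nat_lit 0xbc0001780002ff059) b31089 (.tok (nat_lit 3) (nat_lit 0xbc0001780002fe71c) (.hit (nat_lit 202) (nat_lit 1) (nat_lit 0xbc0001780002fd078) b31090 (.one (nat_lit 55) (nat_lit 203) (nat_lit 3) (nat_lit 0xbc0001780002fe71c) b31091 (.nil))) (.tok (nat_lit 9) (nat_lit 0xbc0001780002fdafd) (.hit (nat_lit 204) (nat_lit 20) (nat_lit 0xbc0001780002fdafd) b31092 (.hit (nat_lit 207) (nat_lit 28) (nat_lit 0xbc0001780002fd14e) b31093 (.nil))) (.nil)))) (.tok (nat_lit 70) (nat_lit 0xbc0001780002ffb33) (.hit (nat_lit 187) (nat_lit 0) (nat_lit 0xbc0001780002ff201) b31081 (.tok (nat_lit 3) (nat_lit 0xbc0001780002ff20c)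 (.hit (nat_lit 188) (nat_lit 1) (nat_lit 0xbc0001780002fd875) b31082 (.one (nat_lit 67) (nat_lit 189) (nat_lit 2) (nat_lit 0xbc0001780002ff20c) b31083 (.nil))) (.tok (nat_lit 6) (nat_lit 0xbc0001780002ffb33) (.hit (nat_lit 190) (nat_lit 7) (nat_lit 0xbc0001780002fda68) b31084 (.hit (nat_lit 193) (nat_lit 15) (nat_lit 0xbc0001780002fda95) b31087 (.tok (nat_lit 55) (nat_lit 0xbc0001780002ffb33) (.hit (nat_lit 191) (nat_lit 8) (nat_lit 0xbc0001780002fe75f) b31085 (.hit (nat_lit 194) (nat_lit 16) (nat_lit 0xbc0001780002ff4d0) b31088 (.one (nat_lit 6) (nat_lit 192) (nat_lit 9) (nat_lit 0xbc0001780002ffb33) b31086 (.nil)))) (.nil)))) (.nil)))) (.nil))))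
noncomputable def r15_205 : Rw Blk := .tok (nat_lit 3) (nat_lit 0xbc000178000302296) (.hit (nat_lit 15) (nat_lit 0) (nat_lit 0xbc000178000300e1f) b31101 (.tok (nat_lit 6) (nat_lit 0xbc0001780002ffb72) (.hit (nat_lit 16) (nat_lit 7) (nat_lit 0xbc0001780002fd6e1) b31102 (.hit (nat_lit 21) (nat_lit 15) (nat_lit 0xbc0001780002fe2ff) b31107 (.tok (nat_lit 14) (nat_lit 0xbc0001780002ffb72) (.hit (nat_lit 17) (nat_lit 11) (nat_lit 0xbc0001780002fe835) b31103 (.hit (nat_lit 22) (nat_lit 17) (nat_lit 0xbc0001780002ffb72) b31108 (.one (nat_lit 9) (nat_lit 18) (nat_lit 12) (nat_lit 0xbc0001780002ff9f5) b31104 (.nil)))) (.tok (nat_lit 56) (nat_lit 0xbc0001780002ff545) (.hit (nat_lit 19) (nat_lit 13) (nat_lit 0xbc0001780002fe7e8) b31105 (.hit (nat_lit 24) (nat_lit 19) (nat_lit 0xbc0001780002ff545) b31109 (.one (nat_lit 6) (nat_lit 20) (nat_lit 14) (nat_lit 0xbc0001780002ff38a) b31106 (.nil))))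 (.nil))))) (.tok (nat_lit 52) (nat_lit 0xbc0001780002ffaca) (.hit (nat_lit 25) (nat_lit 39) (nat_lit 0xbc0001780002ff820) b31110 (.hit (nat_lit 26) (nat_lit 40) (nat_lit 0xbc0001780002ffaca) b31111 (.nil))) (.tok (nat_lit 55) (nat_lit 0xbc000178000301dcf) (.hit (nat_lit 27) (nat_lit 41) (nat_lit 0xbc000178000301dcf) b31112 (.tok (nat_lit 3) (nat_lit 0xbc00017800030059b) (.hit (nat_lit 33) (nat_lit 47) (nat_lit 0xbc0001780002ff2aa) b31118 (.one (nat_lit 67) (nat_lit 34) (nat_lit 48) (nat_lit 0xbc00017800030059b) b31119 (.nil))) (.tok (nat_lit 6) (nat_lit 0xbc0001780002ffaa1) (.hit (nat_lit 28) (nat_lit 42) (nat_lit 0xbc0001780002ff394) b31113 (.hit (nat_lit 31) (nat_lit 45) (nat_lit 0xbc0001780002ff032) b31116 (.tok (nat_lit 55) (nat_lit 0xbc0001780002ffaa1) (.hit (nat_lit 29) (nat_lit 43) (nat_lit 0xbc0001780002ffaa1) b31114 (.hit (nat_lit 32) (nat_lit 46) (nat_lit 0xbc0001780002ffa18)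 b31117 (.one (nat_lit 6) (nat_lit 30) (nat_lit 44) (nat_lit 0xbc0001780002fef2e) b31115 (.nil)))) (.nil)))) (.nil)))) (.one (nat_lit 58) (nat_lit 35) (nat_lit 49) (nat_lit 0xbc000178000302296) b31120 (.nil)))))) (.tok (nat_lit 9) (nat_lit 0xbc0001780003031b1) (.hit (nat_lit 0) (nat_lit 0) (nat_lit 0xbc000178000301a69) b31094 (.tok (nat_lit 9) (nat_lit 0xbc0001780003031b1) (.hit (nat_lit 1) (nat_lit 20) (nat_lit 0xbc0001780002fead0) b31095 (.hit (nat_lit 4) (nat_lit 28) (nat_lit 0xbc0001780002ff97b) b31098 (.tok (nat_lit 14) (nat_lit 0xbc0001780003031b1) (.hit (nat_lit 2) (nat_lit 24) (nat_lit 0xbc000178000300893) b31096 (.hit (nat_lit 5) (nat_lit 30) (nat_lit 0xbc00017800030064d) b31099 (.one (nat_lit 6) (nat_lit 3) (nat_lit 25) (nat_lit 0xbc0001780003031b1) b31097 (.nil)))) (.one (nat_lit 56) (nat_lit 6) (nat_lit 31) (nat_lit 0xbc000178000301628) b31100 (.nil))))) (.nil))) (.nil))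
noncomputable def r15_206 : Rw Blk := .tok (nat_lit 9) (nat_lit 0xbc0001780003049b3) (.hit (nat_lit 0) (nat_lit 0) (nat_lit 0xbc0001780002ff681) b31121 (.tok (nat_lit 14) (nat_lit 0xbc00017800030310c) (.hit (nat_lit 1) (nat_lit 61) (nat_lit 0xbc00017800030039c) b31122 (.one (nat_lit 3) (nat_lit 2) (nat_lit 62) (nat_lit 0xbc0001780002ff342) b31123 (.tok (nat_lit 6) (nat_lit 0xbc00017800030310c) (.hit (nat_lit 5) (nat_lit 65) (nat_lit 0xbc00017800030310c) b31126 (.hit (nat_lit 6) (nat_lit 66) (nat_lit 0xbc0001780003000d6) b31127 (.nil))) (.tok (nat_lit 9) (nat_lit 0xbc0001780002fef57) (.hit (nat_lit 3) (nat_lit 63) (nat_lit 0xbc0001780002fef57) b31124 (.hit (nat_lit 4) (nat_lit 64) (nat_lit 0xbc0001780002feeb4) b31125 (.nil))) (.nil))))) (.one (nat_lit 17) (nat_lit 7) (nat_lit 67) (nat_lit 0xbc0001780002fddb3) b31128 (.tok (nat_lit 20) (nat_lit 0xbc0001780002feb81) (.hit (nat_lit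 8) (nat_lit 68) (nat_lit 0xbc0001780002fe51a) b31129 (.hit (nat_lit 9) (nat_lit 69) (nat_lit 0xbc0001780002feb81) b31130 (.nil))) (.tok (nat_lit 23) (nat_lit 0xbc0001780003049b3) (.hit (nat_lit 10) (nat_lit 70) (nat_lit 0xbc0001780003049b3) b31131 (.hit (nat_lit 11) (nat_lit 71) (nat_lit 0xbc0001780002fe747) b31132 (.nil))) (.one (nat_lit 38) (nat_lit 16) (nat_lit 76) (nat_lit 0xbc0001780002fe7ac) b31133 (.tok (nat_lit 41) (nat_lit 0xbc0001780002fdec8) (.hit (nat_lit 17) (nat_lit 77) (nat_lit 0xbc0001780002fde3c) b31134 (.hit (nat_lit 18) (nat_lit 78) (nat_lit 0xbc0001780002fdec8) b31135 (.nil))) (.tok (nat_lit 44) (nat_lit 0xbc0001780002fe869) (.hit (nat_lit 19) (nat_lit 79) (nat_lit 0xbc0001780002fd577) b31136 (.hit (nat_lit 20) (nat_lit 80) (nat_lit 0xbc0001780002fe869) b31137 (.nil))) (.tok (nat_lit 47) (nat_lit 0xbc0001780002ffc5b) (.hit (nat_lit 21) (nat_lit 81) (nat_lit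 0xbc0001780002ffc5b) b31138 (.hit (nat_lit 22) (nat_lit 82) (nat_lit 0xbc0001780002fdb7b) b31139 (.nil))) (.one (nat_lit 50) (nat_lit 23) (nat_lit 83) (nat_lit 0xbc0001780002ff276) b31140 (.tok (nat_lit 53) (nat_lit 0xbc0001780002fe568) (.hit (nat_lit 24) (nat_lit 84) (nat_lit 0xbc0001780002fe568) b31141 (.hit (nat_lit 25) (nat_lit 85) (nat_lit 0xbc0001780002fdf3f) b31142 (.nil))) (.tok (nat_lit 56) (nat_lit 0xbc000178000300816) (.hit (nat_lit 26) (nat_lit 86) (nat_lit 0xbc000178000300816) b31143 (.one (nat_lit 3) (nat_lit 30) (nat_lit 90) (nat_lit 0xbc0001780002fed1e) b31147 (.tok (nat_lit 6) (nat_lit 0xbc0001780002feab7) (.hit (nat_lit 28) (nat_lit 88) (nat_lit 0xbc0001780002feab7) b31145 (.hit (nat_lit 29) (nat_lit 89) (nat_lit 0xbc0001780002fdf55) b31146 (.nil))) (.one (nat_lit 9) (nat_lit 27) (nat_lit 87) (nat_lit 0xbc0001780002fe84b) b31144 (.nil))))) (.one (nat_lit 59)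 (nat_lit 31) (nat_lit 91) (nat_lit 0xbc0001780002fdc7a) b31148 (.nil)))))))))))))) (.nil)
noncomputable def r15_207 : Rw Blk := .tok (nat_lit 9) (nat_lit 0xbc0001780002ffec1) (.hit (nat_lit 0) (nat_lit 0) (nat_lit 0xbc0001780002fe82c) b31149 (.tok (nat_lit 14) (nat_lit 0xbc0001780002ffd7c) (.hit (nat_lit 21) (nat_lit 61) (nat_lit 0xbc0001780002fecb2) b31150 (.one (nat_lit 3) (nat_lit 22) (nat_lit 62) (nat_lit 0xbc0001780002fea49) b31151 (.tok (nat_lit 6) (nat_lit 0xbc0001780002ffd7c) (.hit (nat_lit 25) (nat_lit 65) (nat_lit 0xbc0001780002ffd7c) b31154 (.hit (nat_lit 26) (nat_lit 66) (nat_lit 0xbc0001780002fe5df) b31155 (.nil))) (.tok (nat_lit 9) (nat_lit 0xbc0001780002ffcc8) (.hit (nat_lit 23) (nat_lit 63) (nat_lit 0xbc0001780002fdf9f) b31152 (.hit (nat_lit 24) (nat_lit 64) (nat_lit 0xbc0001780002ffcc8) b31153 (.nil))) (.nil))))) (.one (nat_lit 17) (nat_lit 27) (nat_lit 67) (nat_lit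 0xbc0001780002fe4b2) b31156 (.tok (nat_lit 20) (nat_lit 0xbc0001780002fe7d0) (.hit (nat_lit 28) (nat_lit 68) (nat_lit 0xbc0001780002fd820) b31157 (.hit (nat_lit 29) (nat_lit 69) (nat_lit 0xbc0001780002fe7d0) b31158 (.nil))) (.tok (nat_lit 23) (nat_lit 0xbc0001780002ffec1) (.hit (nat_lit 30) (nat_lit 70) (nat_lit 0xbc0001780002ffec1) b31159 (.hit (nat_lit 31) (nat_lit 71) (nat_lit 0xbc0001780002fe50f) b31160 (.nil))) (.one (nat_lit 26) (nat_lit 32) (nat_lit 72) (nat_lit 0xbc0001780002fe182) b31161 (.one (nat_lit 29) (nat_lit 33) (nat_lit 73) (nat_lit 0xbc0001780002fe1f9) b31162 (.one (nat_lit 32) (nat_lit 34) (nat_lit 74) (nat_lit 0xbc0001780002fe244) b31163 (.one (nat_lit 35) (nat_lit 35) (nat_lit 75) (nat_lit 0xbc0001780002fd71f) b31164 (.one (nat_lit 38) (nat_lit 36) (nat_lit 76) (nat_lit 0xbc0001780002fe494) b31165 (.tok (nat_lit 41) (nat_lit 0xbc0001780002fe523) (.hit (nat_lit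 37) (nat_lit 77) (nat_lit 0xbc0001780002fe3b4) b31166 (.hit (nat_lit 38) (nat_lit 78) (nat_lit 0xbc0001780002fe523) b31167 (.nil))) (.tok (nat_lit 44) (nat_lit 0xbc0001780002fe4bc) (.hit (nat_lit 39) (nat_lit 79) (nat_lit 0xbc0001780002fb5d4) b31168 (.hit (nat_lit 40) (nat_lit 80) (nat_lit 0xbc0001780002fe4bc) b31169 (.nil))) (.tok (nat_lit 47) (nat_lit 0xbc0001780002fec22) (.hit (nat_lit 41) (nat_lit 81) (nat_lit 0xbc0001780002fec22) b31170 (.hit (nat_lit 42) (nat_lit 82) (nat_lit 0xbc0001780002fe29f) b31171 (.nil))) (.one (nat_lit 50) (nat_lit 43) (nat_lit 83) (nat_lit 0xbc0001780002fe348) b31172 (.tok (nat_lit 53) (nat_lit 0xbc0001780002fe3c2) (.hit (nat_lit 44) (nat_lit 84) (nat_lit 0xbc0001780002fd84d) b31173 (.hit (nat_lit 45) (nat_lit 85) (nat_lit 0xbc0001780002fe3c2) b31174 (.nil))) (.tok (nat_lit 56) (nat_lit 0xbc0001780002fe908) (.hit (nat_lit 46) (nat_lit 86) (nat_lit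 0xbc0001780002fe908) b31175 (.one (nat_lit 3) (nat_lit 50) (nat_lit 90) (nat_lit 0xbc0001780002fd64b) b31179 (.tok (nat_lit 6) (nat_lit 0xbc0001780002fd979) (.hit (nat_lit 48) (nat_lit 88) (nat_lit 0xbc0001780002fd979) b31177 (.hit (nat_lit 49) (nat_lit 89) (nat_lit 0xbc0001780002fd727) b31178 (.nil))) (.one (nat_lit 9) (nat_lit 47) (nat_lit 87) (nat_lit 0xbc0001780002fd4ea) b31176 (.nil))))) (.one (nat_lit 59) (nat_lit 51) (nat_lit 91) (nat_lit 0xbc0001780002fe2d1) b31180 (.nil)))))))))))))))))) (.tok (nat_lit 64) (nat_lit 0xbc000178000300831) (.hit (nat_lit 176) (nat_lit 0) (nat_lit 0xbc00017800030031d) b31181 (.tok (nat_lit 6) (nat_lit 0xbc0001780002ffceb) (.hit (nat_lit 177) (nat_lit 7) (nat_lit 0xbc0001780002fda3f) b31182 (.hit (nat_lit 178) (nat_lit 15) (nat_lit 0xbc0001780002ffceb) b31183 (.nil))) (.tok (nat_lit 9) (nat_lit 0xbc000178000300831) (.hit (nat_lit 179) (nat_lit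 20) (nat_lit 0xbc000178000300831) b31184 (.hit (nat_lit 180) (nat_lit 28) (nat_lit 0xbc0001780002ff7c5) b31185 (.nil))) (.nil)))) (.tok (nat_lit 67) (nat_lit 0xbc000178000300a08) (.hit (nat_lit 201) (nat_lit 0) (nat_lit 0xbc000178000300a08) b31194 (.tok (nat_lit 3) (nat_lit 0xbc0001780002fe096) (.hit (nat_lit 202) (nat_lit 1) (nat_lit 0xbc0001780002fd351) b31195 (.one (nat_lit 55) (nat_lit 203) (nat_lit 3) (nat_lit 0xbc0001780002fe096) b31196 (.nil))) (.tok (nat_lit 9) (nat_lit 0xbc0001780002fd364) (.hit (nat_lit 204) (nat_lit 20) (nat_lit 0xbc0001780002fd030) b31197 (.hit (nat_lit 207) (nat_lit 28) (nat_lit 0xbc0001780002fd364) b31198 (.nil))) (.nil)))) (.tok (nat_lit 70) (nat_lit 0xbc00017800030058f) (.hit (nat_lit 187) (nat_lit 0) (nat_lit 0xbc0001780002ff990) b31186 (.tok (nat_lit 3) (nat_lit 0xbc0001780002fed04) (.hit (nat_lit 188) (nat_lit 1) (nat_lit 0xbc0001780002fd47d)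 b31187 (.one (nat_lit 67) (nat_lit 189) (nat_lit 2) (nat_lit 0xbc0001780002fed04) b31188 (.nil))) (.tok (nat_lit 6) (nat_lit 0xbc00017800030058f) (.hit (nat_lit 190) (nat_lit 7) (nat_lit 0xbc0001780002fdbda) b31189 (.hit (nat_lit 193) (nat_lit 15) (nat_lit 0xbc0001780002fd291) b31192 (.tok (nat_lit 55) (nat_lit 0xbc00017800030058f) (.hit (nat_lit 191) (nat_lit 8) (nat_lit 0xbc0001780002fe87f) b31190 (.hit (nat_lit 194) (nat_lit 16) (nat_lit 0xbc0001780002fec50) b31193 (.one (nat_lit 6) (nat_lit 192) (nat_lit 9) (nat_lit 0xbc00017800030058f) b31191 (.nil)))) (.nil)))) (.nil)))) (.nil))))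
noncomputable def r15_208 : Rw Blk := .tok (nat_lit 3) (nat_lit 0xbc0001780003019b8) (.hit (nat_lit 15) (nat_lit 0) (nat_lit 0xbc0001780002ff138) b31206 (.tok (nat_lit 6) (nat_lit 0xbc0001780002feaf7) (.hit (nat_lit 16) (nat_lit 7) (nat_lit 0xbc0001780002fd522) b31207 (.hit (nat_lit 21) (nat_lit 15) (nat_lit 0xbc0001780002fb469) b31212 (.tok (nat_lit 14) (nat_lit 0xbc0001780002fe49d) (.hit (nat_lit 17) (nat_lit 11) (nat_lit 0xbc0001780002fdcdd) b31208 (.hit (nat_lit 22) (nat_lit 17) (nat_lit 0xbc0001780002fdbf8) b31213 (.one (nat_lit 9) (nat_lit 18) (nat_lit 12) (nat_lit 0xbc0001780002fe49d) b31209 (.nil)))) (.tok (nat_lit 56) (nat_lit 0xbc0001780002feaf7) (.hit (nat_lit 19) (nat_lit 13) (nat_lit 0xbc0001780002fe0c9) b31210 (.hit (nat_lit 24) (nat_lit 19) (nat_lit 0xbc0001780002fd8e2) b31214 (.one (nat_lit 6) (nat_lit 20) (nat_lit 14) (nat_lit 0xbc0001780002feaf7) b31211 (.nil))))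 (.nil))))) (.tok (nat_lit 52) (nat_lit 0xbc0001780002fe743) (.hit (nat_lit 25) (nat_lit 39) (nat_lit 0xbc0001780002fe743) b31215 (.hit (nat_lit 26) (nat_lit 40) (nat_lit 0xbc0001780002fe2dc) b31216 (.nil))) (.tok (nat_lit 55) (nat_lit 0xbc0001780003019b8) (.hit (nat_lit 27) (nat_lit 41) (nat_lit 0xbc0001780003019b8) b31217 (.tok (nat_lit 3) (nat_lit 0xbc0001780002ff2c9) (.hit (nat_lit 33) (nat_lit 47) (nat_lit 0xbc0001780002fee68) b31223 (.one (nat_lit 67) (nat_lit 34) (nat_lit 48) (nat_lit 0xbc0001780002ff2c9) b31224 (.nil))) (.tok (nat_lit 6) (nat_lit 0xbc0001780002ff4e3) (.hit (nat_lit 28) (nat_lit 42) (nat_lit 0xbc0001780002fe4b8) b31218 (.hit (nat_lit 31) (nat_lit 45) (nat_lit 0xbc0001780002fe226) b31221 (.tok (nat_lit 55) (nat_lit 0xbc0001780002ff4e3) (.hit (nat_lit 29) (nat_lit 43) (nat_lit 0xbc0001780002ff4e3) b31219 (.hit (nat_lit 32) (nat_lit 46) (nat_lit 0xbc0001780002fee2c)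 b31222 (.one (nat_lit 6) (nat_lit 30) (nat_lit 44) (nat_lit 0xbc0001780002fe649) b31220 (.nil)))) (.nil)))) (.nil)))) (.one (nat_lit 58) (nat_lit 35) (nat_lit 49) (nat_lit 0xbc0001780002ff2b9) b31225 (.nil)))))) (.tok (nat_lit 9) (nat_lit 0xbc000178000301ada) (.hit (nat_lit 0) (nat_lit 0) (nat_lit 0xbc000178000300d76) b31199 (.tok (nat_lit 9) (nat_lit 0xbc000178000301ada) (.hit (nat_lit 1) (nat_lit 20) (nat_lit 0xbc0001780002ff275) b31200 (.hit (nat_lit 4) (nat_lit 28) (nat_lit 0xbc0001780002fdd72) b31203 (.tok (nat_lit 14) (nat_lit 0xbc000178000301ada) (.hit (nat_lit 2) (nat_lit 24) (nat_lit 0xbc000178000301ada) b31201 (.hit (nat_lit 5) (nat_lit 30) (nat_lit 0xbc0001780002ff380) b31204 (.one (nat_lit 6) (nat_lit 3) (nat_lit 25) (nat_lit 0xbc000178000300e03) b31202 (.nil)))) (.one (nat_lit 56) (nat_lit 6) (nat_lit 31) (nat_lit 0xbc0001780002fef28) b31205 (.nil))))) (.nil))) (.nil))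
noncomputable def r15_209 : Rw Blk := .tok (nat_lit 3) (nat_lit 0x5fb792bf1a417efe02fdeca5fc99ebf66417ee9dafdd1e) (.hit (nat_lit 0) (nat_lit 0) (nat_lit 0x5fb792bf1a417efe02fdeca5fc99ebf66417ee9dafdd1e) b31226 (.tok (nat_lit 6) (nat_lit 0x5f9d3abebd357ee94afd19e5f7bfcbf17957e2d7afcf74) (.hit (nat_lit 1) (nat_lit 7) (nat_lit 0x5f9d3abebd357ee94afd19e5f7bfcbf17957e2d7afcf74) b31227 (.hit (nat_lit 6) (nat_lit 15) (nat_lit 0x5f985cbeb3797ea92afcf2f5f771ebf0dd97e1a02fcd05) b31228 (.nil))) (.tok (nat_lit 9) (nat_lit 0x5f9d3abebd357ee94afd19e5f7bfcbf17957e2d7afcf74) (.hit (nat_lit 10) (nat_lit 20) (nat_lit 0x5f9d3abebd357ee94afd19e5f7bfcbf17957e2d7afcf74) b31227 (.hit (nat_lit 15) (nat_lit 28) (nat_lit 0x5f985cbeb3797ea92afcf2f5f771ebf0dd97e1a02fcd05) b31228 (.nil))) (.nil)))) (.tok (nat_lit 6) (nat_lit 0x600000c0000180000300000602b98c0000180000300000) (.hit (nat_lit 81) (nat_lit 0)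 (nat_lit 0x5fe418bf77a97f5982fef445fe570bfbef97f55fafefbb) b31229 (.tok (nat_lit 3) (nat_lit 0x5fe434bf51d17f8a2aff06b6007f4bfc65d7f8bd2ff177) (.hit (nat_lit 82) (nat_lit 1) (nat_lit 0x5fae12bee81d7edd92fd4f15fc2e4bf58757eb002fd5e6) b31230 (.one (nat_lit 67) (nat_lit 83) (nat_lit 2) (nat_lit 0x5fe434bf51d17f8a2aff06b6007f4bfc65d7f8bd2ff177) b31231 (.nil))) (.tok (nat_lit 6) (nat_lit 0x600000c0000180000300000602b98c0000180000300000) (.hit (nat_lit 87) (nat_lit 7) (nat_lit 0x5fd5fcbf61117f474afe2b15fe02abf94c17f354afe3bf) b31232 (.hit (nat_lit 95) (nat_lit 15) (nat_lit 0x5fb27ebee6857e9eeafd6925fc180bf5ef97ebd0afd788) b31236 (.tok (nat_lit 55) (nat_lit 0x600000c0000180000300000602b98c0000180000300000) (.hit (nat_lit 88) (nat_lit 8) (nat_lit 0x5ffd88bf9fd17f877affdc8600954c000017fbdaaffeb6) b31233 (.hit (nat_lit 96) (nat_lit 16) (nat_lit 0x5fe3aebf58897f79baff2475ffbb6bfcdcd7f9ab2ff3a7)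 b31237 (.tok (nat_lit 6) (nat_lit 0x600000c0000180000300000602b98bffef580000300000) (.hit (nat_lit 89) (nat_lit 9) (nat_lit 0x5fe812bfbf1d7f9292ff2b16007aabfcc757f9b62ff321) b31234 (.one (nat_lit 55) (nat_lit 90) (nat_lit 10) (nat_lit 0x600000c0000180000300000602b98bffef580000300000) b31235 (.nil))) (.nil)))) (.nil)))) (.nil)))) (.tok (nat_lit 9) (nat_lit 0x5fe434bf77a97f8a2affc575fd528bfe1657fb892ff5b6) (.hit (nat_lit 157) (nat_lit 0) (nat_lit 0x5fe418bf77a97f5982ff8f85fd528bfdc257f840aff415) b31238 (.tok (nat_lit 3) (nat_lit 0x5fe434bf51d17f8a2affc575f9d44bfe1657fb892ff5b6) (.hit (nat_lit 158) (nat_lit 1) (nat_lit 0x5fae12bee81d7edd92fdf235f6be8bf74d17edf3afda40) b31239 (.one (nat_lit 55) (nat_lit 159) (nat_lit 3) (nat_lit 0x5fe434bf51d17f8a2affc575f9d44bfe1657fb892ff5b6) b31240 (.nil))) (.tok (nat_lit 9) (nat_lit 0x5fd5fcbf61117f474afee4b5f9260bfac357f61bafe819) (.hit (nat_lit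 163) (nat_lit 20) (nat_lit 0x5fd5fcbf61117f474afee4b5f9260bfac357f61bafe819) b31241 (.hit (nat_lit 171) (nat_lit 28) (nat_lit 0x5fb27ebee6857e9eeafe0c45f5af8bf7b557eec42fdbe1) b31242 (.nil))) (.nil)))) (.nil)))
noncomputable def r15_210 : Rw Blk := .tok (nat_lit 6) (nat_lit 0xbc0001780002ffecc) (.hit (nat_lit 51) (nat_lit 0) (nat_lit 0xbc0001780002ff743) b8943 (.tok (nat_lit 3) (nat_lit 0xbc0001780002ffecc) (.hit (nat_lit 52) (nat_lit 1) (nat_lit 0xbc0001780002fdccb) b8944 (.one (nat_lit 14) (nat_lit 53) (nat_lit 4) (nat_lit 0xbc0001780002ffecc) b9239 (.one (nat_lit 56) (nat_lit 55) (nat_lit 6) (nat_lit 0xbc0001780002ff720) b8945 (.one (nat_lit 68) (nat_lit 54) (nat_lit 5) (nat_lit 0xbc0001780002fef3e) b8946 (.nil))))) (.nil))) (.tok (nat_lit 9) (nat_lit 0xbc000178000300000) (.hit (nat_lit 0) (nat_lit 0) (nat_lit 0xbc0001780002ff743) b8943 (.tok (nat_lit 3) (nat_lit 0xbc0001780002ffecc)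 (.hit (nat_lit 1) (nat_lit 1) (nat_lit 0xbc0001780002fdccb) b8944 (.one (nat_lit 14) (nat_lit 2) (nat_lit 4) (nat_lit 0xbc0001780002ffecc) b9239 (.one (nat_lit 56) (nat_lit 4) (nat_lit 6) (nat_lit 0xbc0001780002fef3e) b8946 (.one (nat_lit 68) (nat_lit 3) (nat_lit 5) (nat_lit 0xbc0001780002ff720) b8945 (.nil))))) (.tok (nat_lit 40) (nat_lit 0xbc0001780002ff5de) (.hit (nat_lit 5) (nat_lit 33) (nat_lit 0xbc0001780002ff5de) b8947 (.hit (nat_lit 6) (nat_lit 34) (nat_lit 0xbc0001780002ff3d8) b8948 (.nil))) (.tok (nat_lit 43) (nat_lit 0xbc0001780002ffbd8) (.hit (nat_lit 7) (nat_lit 35) (nat_lit 0xbc0001780002fe56f) b8949 (.hit (nat_lit 8) (nat_lit 36) (nat_lit 0xbc0001780002ffbd8) b8950 (.nil))) (.tok (nat_lit 46) (nat_lit 0xbc000178000300000) (.hit (nat_lit 9) (nat_lit 37) (nat_lit 0xbc000178000300000) b8951 (.hit (nat_lit 10) (nat_lit 38) (nat_lit 0xbc0001780002ff6ae) b8952 (.nil)))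 (.nil)))))) (.nil))
noncomputable def r15_211 : Rw Blk := .tok (nat_lit 3) (nat_lit 0xbc0001780002fddcf) (.hit (nat_lit 61) (nat_lit 0) (nat_lit 0xbc0001780002fd208) b9255 (.tok (nat_lit 9) (nat_lit 0xbc0001780002fcdbc) (.hit (nat_lit 62) (nat_lit 20) (nat_lit 0xbc0001780002fbbb6) b9256 (.hit (nat_lit 67) (nat_lit 28) (nat_lit 0xbc0001780002fad94) b9261 (.tok (nat_lit 14) (nat_lit 0xbc0001780002fcdbc) (.hit (nat_lit 63) (nat_lit 24) (nat_lit 0xbc0001780002fbdc9) b9257 (.hit (nat_lit 68) (nat_lit 30) (nat_lit 0xbc0001780002fc1ab) b9262 (.one (nat_lit 6) (nat_lit 64) (nat_lit 25) (nat_lit 0xbc0001780002fcdbc) b9258 (.nil)))) (.one (nat_lit 56) (nat_lit 69) (nat_lit 31) (nat_lit 0xbc0001780002fc012) b9263 (.nil))))) (.tok (nat_lit 64) (nat_lit 0xbc0001780002fc6cc) (.hit (nat_lit 71) (nat_lit 50) (nat_lit 0xbc0001780002fbf49) b9265 (.hit (nat_lit 72) (nat_lit 51) (nat_lit 0xbc0001780002fc6cc)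 b9266 (.nil))) (.tok (nat_lit 67) (nat_lit 0xbc0001780002fddcf) (.hit (nat_lit 73) (nat_lit 52) (nat_lit 0xbc0001780002fdd53) b9267 (.tok (nat_lit 3) (nat_lit 0xbc0001780002fddcf) (.hit (nat_lit 79) (nat_lit 58) (nat_lit 0xbc0001780002fd372) b9273 (.one (nat_lit 55) (nat_lit 80) (nat_lit 59) (nat_lit 0xbc0001780002fddcf) b9274 (.nil))) (.tok (nat_lit 9) (nat_lit 0xbc0001780002fcbbd) (.hit (nat_lit 74) (nat_lit 53) (nat_lit 0xbc0001780002fc8b0) b9268 (.hit (nat_lit 77) (nat_lit 56) (nat_lit 0xbc0001780002fcbbd) b9271 (.nil))) (.nil)))) (.one (nat_lit 70) (nat_lit 81) (nat_lit 60) (nat_lit 0xbc0001780002fc77b) b9275 (.nil)))))) (.tok (nat_lit 6) (nat_lit 0xbc000178000300000) (.hit (nat_lit 0) (nat_lit 0) (nat_lit 0xbc0001780002feaff) b9240 (.tok (nat_lit 6) (nat_lit 0xbc0001780002fffbd) (.hit (nat_lit 1) (nat_lit 7) (nat_lit 0xbc0001780002fd887) b9241 (.hit (nat_lit 6) (nat_lit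 15) (nat_lit 0xbc0001780002fc60a) b9244 (.tok (nat_lit 14) (nat_lit 0xbc0001780002ff817) (.hit (nat_lit 2) (nat_lit 11) (nat_lit 0xbc0001780002ff817) b9242 (.hit (nat_lit 7) (nat_lit 17) (nat_lit 0xbc0001780002fe65c) b9245 (.one (nat_lit 9) (nat_lit 3) (nat_lit 12) (nat_lit 0xbc0001780002ff6cc) b9243 (.nil)))) (.tok (nat_lit 56) (nat_lit 0xbc0001780002fffbd) (.hit (nat_lit 4) (nat_lit 13) (nat_lit 0xbc0001780002fef99) b9609 (.hit (nat_lit 9) (nat_lit 19) (nat_lit 0xbc0001780002fd621) b9611 (.one (nat_lit 6) (nat_lit 5) (nat_lit 14) (nat_lit 0xbc0001780002fffbd) b9610 (.nil)))) (.one (nat_lit 68) (nat_lit 8) (nat_lit 18) (nat_lit 0xbc0001780002fdb1d) b9246 (.nil)))))) (.tok (nat_lit 52) (nat_lit 0xbc0001780002feaaa) (.hit (nat_lit 10) (nat_lit 39) (nat_lit 0xbc0001780002fdd77) b9247 (.hit (nat_lit 11) (nat_lit 40) (nat_lit 0xbc0001780002feaaa) b9248 (.nil))) (.tok (nat_lit 55)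 (nat_lit 0xbc000178000300000) (.hit (nat_lit 12) (nat_lit 41) (nat_lit 0xbc0001780002ff885) b9249 (.tok (nat_lit 3) (nat_lit 0xbc000178000300000) (.hit (nat_lit 18) (nat_lit 47) (nat_lit 0xbc0001780002fec8d) b9252 (.one (nat_lit 67) (nat_lit 19) (nat_lit 48) (nat_lit 0xbc000178000300000) b9253 (.nil))) (.tok (nat_lit 6) (nat_lit 0xbc0001780002ffc81) (.hit (nat_lit 13) (nat_lit 42) (nat_lit 0xbc0001780002fe0f2) b9250 (.hit (nat_lit 16) (nat_lit 45) (nat_lit 0xbc0001780002fece8) b9251 (.tok (nat_lit 55) (nat_lit 0xbc0001780002ffc81) (.hit (nat_lit 14) (nat_lit 43) (nat_lit 0xbc0001780002ff6bd) b9612 (.hit (nat_lit 17) (nat_lit 46) (nat_lit 0xbc0001780002ffc81) b9614 (.one (nat_lit 6) (nat_lit 15) (nat_lit 44) (nat_lit 0xbc0001780002ff76a) b9613 (.nil)))) (.nil)))) (.nil)))) (.one (nat_lit 58) (nat_lit 20) (nat_lit 49) (nat_lit 0xbc0001780002fecd6) b9254 (.nil)))))) (.nil))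
noncomputable def r15_212 : Rw Blk := .tok (nat_lit 3) (nat_lit 0xbc0001780002fda0a) (.hit (nat_lit 61) (nat_lit 0) (nat_lit 0xbc0001780002fc5b0) b31264 (.tok (nat_lit 9) (nat_lit 0xbc0001780002fcade) (.hit (nat_lit 62) (nat_lit 20) (nat_lit 0xbc0001780002faac1) b31265 (.hit (nat_lit 67) (nat_lit 28) (nat_lit 0xbc0001780002fae30) b31268 (.tok (nat_lit 14) (nat_lit 0xbc0001780002fcade) (.hit (nat_lit 63) (nat_lit 24) (nat_lit 0xbc0001780002fc04f) b31266 (.hit (nat_lit 68) (nat_lit 30) (nat_lit 0xbc0001780002fbd40) b31269 (.one (nat_lit 6) (nat_lit 64) (nat_lit 25) (nat_lit 0xbc0001780002fcade) b31267 (.nil)))) (.one (nat_lit 56) (nat_lit 69) (nat_lit 31) (nat_lit 0xbc0001780002fc466) b31270 (.nil))))) (.tok (nat_lit 64) (nat_lit 0xbc0001780002fc87f) (.hit (nat_lit 71) (nat_lit 50) (nat_lit 0xbc0001780002fc149) b31271 (.hit (nat_lit 72) (nat_lit 51) (nat_lit 0xbc0001780002fc87f)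 b31272 (.nil))) (.tok (nat_lit 67) (nat_lit 0xbc0001780002fda0a) (.hit (nat_lit 73) (nat_lit 52) (nat_lit 0xbc0001780002fd81b) b31273 (.tok (nat_lit 3) (nat_lit 0xbc0001780002fd862) (.hit (nat_lit 79) (nat_lit 58) (nat_lit 0xbc0001780002fd0b0) b31276 (.one (nat_lit 55) (nat_lit 80) (nat_lit 59) (nat_lit 0xbc0001780002fd862) b31277 (.nil))) (.tok (nat_lit 9) (nat_lit 0xbc0001780002fda0a) (.hit (nat_lit 74) (nat_lit 53) (nat_lit 0xbc0001780002fda0a) b31274 (.hit (nat_lit 77) (nat_lit 56) (nat_lit 0xbc0001780002fc76b) b31275 (.nil))) (.nil)))) (.one (nat_lit 70) (nat_lit 81) (nat_lit 60) (nat_lit 0xbc0001780002fc80f) b31278 (.nil)))))) (.tok (nat_lit 6) (nat_lit 0xbc000178000300bcf) (.hit (nat_lit 0) (nat_lit 0) (nat_lit 0xbc0001780002fd367) b31243 (.tok (nat_lit 6) (nat_lit 0xbc0001780002fe0d4) (.hit (nat_lit 1) (nat_lit 7) (nat_lit 0xbc0001780002fc791) b31244 (.hit (nat_lit 6)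 (nat_lit 15) (nat_lit 0xbc0001780002fba38) b31249 (.tok (nat_lit 14) (nat_lit 0xbc0001780002fe0d4) (.hit (nat_lit 2) (nat_lit 11) (nat_lit 0xbc0001780002fd84a) b31245 (.hit (nat_lit 7) (nat_lit 17) (nat_lit 0xbc0001780002fe0d4) b31250 (.one (nat_lit 9) (nat_lit 3) (nat_lit 12) (nat_lit 0xbc0001780002fd792) b31246 (.nil)))) (.tok (nat_lit 56) (nat_lit 0xbc0001780002fd7c5) (.hit (nat_lit 4) (nat_lit 13) (nat_lit 0xbc0001780002fd6f0) b31247 (.hit (nat_lit 9) (nat_lit 19) (nat_lit 0xbc0001780002fd6c6) b31252 (.one (nat_lit 6) (nat_lit 5) (nat_lit 14) (nat_lit 0xbc0001780002fd7c5) b31248 (.nil)))) (.one (nat_lit 68) (nat_lit 8) (nat_lit 18) (nat_lit 0xbc0001780002fd722) b31251 (.nil)))))) (.tok (nat_lit 52) (nat_lit 0xbc0001780002fdd65) (.hit (nat_lit 10) (nat_lit 39) (nat_lit 0xbc0001780002fcd52) b31253 (.hit (nat_lit 11) (nat_lit 40) (nat_lit 0xbc0001780002fdd65) b31254 (.nil)))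 (.tok (nat_lit 55) (nat_lit 0xbc000178000300bcf) (.hit (nat_lit 12) (nat_lit 41) (nat_lit 0xbc0001780002fe2e7) b31255 (.tok (nat_lit 3) (nat_lit 0xbc0001780002fe7f4) (.hit (nat_lit 18) (nat_lit 47) (nat_lit 0xbc0001780002fd539) b31261 (.one (nat_lit 67) (nat_lit 19) (nat_lit 48) (nat_lit 0xbc0001780002fe7f4) b31262 (.nil))) (.tok (nat_lit 6) (nat_lit 0xbc000178000300bcf) (.hit (nat_lit 13) (nat_lit 42) (nat_lit 0xbc0001780002fe849) b31256 (.hit (nat_lit 16) (nat_lit 45) (nat_lit 0xbc0001780002fe44a) b31259 (.tok (nat_lit 55) (nat_lit 0xbc000178000300bcf) (.hit (nat_lit 14) (nat_lit 43) (nat_lit 0xbc0001780003004c1) b31257 (.hit (nat_lit 17) (nat_lit 46) (nat_lit 0xbc0001780002fe060) b31260 (.one (nat_lit 6) (nat_lit 15) (nat_lit 44) (nat_lit 0xbc000178000300bcf) b31258 (.nil)))) (.nil)))) (.nil)))) (.one (nat_lit 58) (nat_lit 20) (nat_lit 49) (nat_lit 0xbc0001780002fdbb3) b31263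 (.nil)))))) (.nil))
noncomputable def r15_213 : Rw Blk := .tok (nat_lit 3) (nat_lit 0xbc0001780002fe389) (.hit (nat_lit 61) (nat_lit 0) (nat_lit 0xbc0001780002fd7c2) b31289 (.tok (nat_lit 6) (nat_lit 0xbc0001780002fdaf8) (.hit (nat_lit 62) (nat_lit 7) (nat_lit 0xbc0001780002fc170) b31290 (.hit (nat_lit 67) (nat_lit 15) (nat_lit 0xbc0001780002fb34e) b31295 (.tok (nat_lit 14) (nat_lit 0xbc0001780002fd376) (.hit (nat_lit 63) (nat_lit 11) (nat_lit 0xbc0001780002fc383) b31291 (.hit (nat_lit 68) (nat_lit 17) (nat_lit 0xbc0001780002fc765) b31296 (.one (nat_lit 9) (nat_lit 64) (nat_lit 12) (nat_lit 0xbc0001780002fd376) b31292 (.nil)))) (.tok (nat_lit 56) (nat_lit 0xbc0001780002fdaf8) (.hit (nat_lit 65) (nat_lit 13) (nat_lit 0xbc0001780002fd2ea) b31293 (.hit (nat_lit 70) (nat_lit 19) (nat_lit 0xbc0001780002fc44c) b31297 (.one (nat_lit 6) (nat_lit 66) (nat_lit 14) (nat_lit 0xbc0001780002fdaf8)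 b31294 (.nil)))) (.nil))))) (.tok (nat_lit 52) (nat_lit 0xbc0001780002fcc86) (.hit (nat_lit 71) (nat_lit 39) (nat_lit 0xbc0001780002fc503) b31298 (.hit (nat_lit 72) (nat_lit 40) (nat_lit 0xbc0001780002fcc86) b31299 (.nil))) (.tok (nat_lit 55) (nat_lit 0xbc0001780002fe389) (.hit (nat_lit 73) (nat_lit 41) (nat_lit 0xbc0001780002fe30d) b31300 (.tok (nat_lit 3) (nat_lit 0xbc0001780002fe389) (.hit (nat_lit 79) (nat_lit 47) (nat_lit 0xbc0001780002fd92c) b31306 (.one (nat_lit 67) (nat_lit 80) (nat_lit 48) (nat_lit 0xbc0001780002fe389) b31307 (.nil))) (.tok (nat_lit 6) (nat_lit 0xbc0001780002fde40) (.hit (nat_lit 74) (nat_lit 42) (nat_lit 0xbc0001780002fce6a) b31301 (.hit (nat_lit 77) (nat_lit 45) (nat_lit 0xbc0001780002fd177) b31304 (.tok (nat_lit 55) (nat_lit 0xbc0001780002fde40) (.hit (nat_lit 75) (nat_lit 43) (nat_lit 0xbc0001780002fdd80) b31302 (.hit (nat_lit 78) (nat_lit 46) (nat_lit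 0xbc0001780002fde40) b31305 (.one (nat_lit 6) (nat_lit 76) (nat_lit 44) (nat_lit 0xbc0001780002fd944) b31303 (.nil)))) (.nil)))) (.nil)))) (.one (nat_lit 58) (nat_lit 81) (nat_lit 49) (nat_lit 0xbc0001780002fcd35) b31308 (.nil)))))) (.tok (nat_lit 9) (nat_lit 0xbc000178000300577) (.hit (nat_lit 0) (nat_lit 0) (nat_lit 0xbc0001780002ff0b9) b31279 (.tok (nat_lit 9) (nat_lit 0xbc000178000300577) (.hit (nat_lit 1) (nat_lit 20) (nat_lit 0xbc0001780002fde41) b31280 (.hit (nat_lit 6) (nat_lit 28) (nat_lit 0xbc0001780002fcbc4) b31285 (.tok (nat_lit 14) (nat_lit 0xbc0001780002ffdd1) (.hit (nat_lit 2) (nat_lit 24) (nat_lit 0xbc0001780002ffdd1) b31281 (.hit (nat_lit 7) (nat_lit 30) (nat_lit 0xbc0001780002fec16) b31286 (.one (nat_lit 6) (nat_lit 3) (nat_lit 25) (nat_lit 0xbc0001780002ffc86) b31282 (.nil)))) (.one (nat_lit 56) (nat_lit 8) (nat_lit 31) (nat_lit 0xbc0001780002fe0d7) b31287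 (.tok (nat_lit 68) (nat_lit 0xbc000178000300577) (.hit (nat_lit 4) (nat_lit 26) (nat_lit 0xbc0001780002ff553) b31283 (.hit (nat_lit 9) (nat_lit 32) (nat_lit 0xbc0001780002fdbdb) b31288 (.one (nat_lit 9) (nat_lit 5) (nat_lit 27) (nat_lit 0xbc000178000300577) b31284 (.nil)))) (.nil)))))) (.nil))) (.nil))
noncomputable def r15_214 : Rw Blk := .tok (nat_lit 3) (nat_lit 0xbc000178000300000) (.hit (nat_lit 61) (nat_lit 0) (nat_lit 0xbc0001780002fe458) b9679 (.tok (nat_lit 6) (nat_lit 0xbc0001780002fe986) (.hit (nat_lit 62) (nat_lit 7) (nat_lit 0xbc0001780002fc969) b9680 (.hit (nat_lit 67) (nat_lit 15) (nat_lit 0xbc0001780002fccd8) b9685 (.tok (nat_lit 14) (nat_lit 0xbc0001780002fe986) (.hit (nat_lit 63) (nat_lit 11) (nat_lit 0xbc0001780002fdef7) b9681 (.hit (nat_lit 68) (nat_lit 17) (nat_lit 0xbc0001780002fdbe8) b9686 (.one (nat_lit 9) (nat_lit 64) (nat_lit 12) (nat_lit 0xbc0001780002fe986)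 b9682 (.nil)))) (.tok (nat_lit 56) (nat_lit 0xbc0001780002fe4bc) (.hit (nat_lit 65) (nat_lit 13) (nat_lit 0xbc0001780002fe13b) b9683 (.hit (nat_lit 70) (nat_lit 19) (nat_lit 0xbc0001780002fdd09) b9687 (.one (nat_lit 6) (nat_lit 66) (nat_lit 14) (nat_lit 0xbc0001780002fe4bc) b9684 (.nil)))) (.nil))))) (.tok (nat_lit 52) (nat_lit 0xbc0001780002fe727) (.hit (nat_lit 71) (nat_lit 39) (nat_lit 0xbc0001780002fdff1) b9688 (.hit (nat_lit 72) (nat_lit 40) (nat_lit 0xbc0001780002fe727) b9689 (.nil))) (.tok (nat_lit 55) (nat_lit 0xbc000178000300000) (.hit (nat_lit 73) (nat_lit 41) (nat_lit 0xbc0001780002ff6c3) b9690 (.tok (nat_lit 3) (nat_lit 0xbc0001780002ff70a) (.hit (nat_lit 79) (nat_lit 47) (nat_lit 0xbc0001780002fef58) b9696 (.one (nat_lit 67) (nat_lit 80) (nat_lit 48) (nat_lit 0xbc0001780002ff70a) b9697 (.nil))) (.tok (nat_lit 6) (nat_lit 0xbc000178000300000) (.hit (nat_lit 74) (nat_lit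 42) (nat_lit 0xbc0001780002ff8b2) b9691 (.hit (nat_lit 77) (nat_lit 45) (nat_lit 0xbc0001780002fe613) b9694 (.tok (nat_lit 55) (nat_lit 0xbc000178000300000) (.hit (nat_lit 75) (nat_lit 43) (nat_lit 0xbc000178000300000) b9692 (.hit (nat_lit 78) (nat_lit 46) (nat_lit 0xbc0001780002ff758) b9695 (.one (nat_lit 6) (nat_lit 76) (nat_lit 44) (nat_lit 0xbc0001780002ff868) b9693 (.nil)))) (.nil)))) (.nil)))) (.one (nat_lit 58) (nat_lit 81) (nat_lit 49) (nat_lit 0xbc0001780002fe6b7) b9698 (.nil)))))) (.tok (nat_lit 9) (nat_lit 0xbc0001780002fff7c) (.hit (nat_lit 0) (nat_lit 0) (nat_lit 0xbc0001780002ff20f) b9669 (.tok (nat_lit 9) (nat_lit 0xbc0001780002fff7c) (.hit (nat_lit 1) (nat_lit 20) (nat_lit 0xbc0001780002fe639) b9670 (.hit (nat_lit 6) (nat_lit 28) (nat_lit 0xbc0001780002fd8e0) b9675 (.tok (nat_lit 14) (nat_lit 0xbc0001780002fff7c) (.hit (nat_lit 2) (nat_lit 24) (nat_lit 0xbc0001780002ff6f2)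 b9671 (.hit (nat_lit 7) (nat_lit 30) (nat_lit 0xbc0001780002fff7c) b9676 (.one (nat_lit 6) (nat_lit 3) (nat_lit 25) (nat_lit 0xbc0001780002ff63a) b9672 (.nil)))) (.one (nat_lit 56) (nat_lit 8) (nat_lit 31) (nat_lit 0xbc0001780002ff5ca) b9677 (.tok (nat_lit 68) (nat_lit 0xbc0001780002ff66d) (.hit (nat_lit 4) (nat_lit 26) (nat_lit 0xbc0001780002ff598) b9673 (.hit (nat_lit 9) (nat_lit 32) (nat_lit 0xbc0001780002ff56e) b9678 (.one (nat_lit 9) (nat_lit 5) (nat_lit 27) (nat_lit 0xbc0001780002ff66d) b9674 (.nil)))) (.nil)))))) (.nil))) (.nil))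
noncomputable def r15_215 : Rw Blk := .tok (nat_lit 3) (nat_lit 0x5fba0abf5b257f6b72fd66c5fb0acbf5dc17eb902fd60d) (.hit (nat_lit 0) (nat_lit 0) (nat_lit 0x5fba0abf5b257f6b72fd66c5fb0acbf5dc17eb902fd60d) b31309 (.tok (nat_lit 6) (nat_lit 0x5f9fb2befe197f56bafc9415f6086bf29117d785afc8e1) (.hit (nat_lit 1) (nat_lit 7) (nat_lit 0x5f9fb2befe197f56bafc9415f6086bf29117d785afc8e1) b31310 (.hit (nat_lit 6) (nat_lit 15) (nat_lit 0x5f9ad4bef45d7f169afc6d25f5ba8bf1f557d64e2fc672) b31311 (.nil))) (.tok (nat_lit 9) (nat_lit 0x5f9fb2befe197f56bafc9415f6086bf29117d785afc8e1) (.hit (nat_lit 10) (nat_lit 20) (nat_lit 0x5f9fb2befe197f56bafc9415f6086bf29117d785afc8e1) b31310 (.hit (nat_lit 15) (nat_lit 28) (nat_lit 0x5f9ad4bef45d7f169afc6d25f5ba8bf1f557d64e2fc672) b31311 (.nil))) (.nil)))) (.tok (nat_lit 6) (nat_lit 0x600000c00001800003000005fbc36bfe39d80316afffef) (.hit (nat_lit 81) (nat_lit 0)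 (nat_lit 0x5fe690bfb88d7fc6f2fed3a5fbc36bfa3b17f8312ff0ee) b31312 (.tok (nat_lit 3) (nat_lit 0x5fe6acbf92b57ff79aff4125f81cebfae257fee5aff291) (.hit (nat_lit 82) (nat_lit 1) (nat_lit 0x5fb08abf29017f4b02fd3655f5072bf403d7f02cafd717) b31313 (.one (nat_lit 67) (nat_lit 83) (nat_lit 2) (nat_lit 0x5fe6acbf92b57ff79aff4125f81cebfae257fee5aff291) b31314 (.nil))) (.tok (nat_lit 6) (nat_lit 0x600000c00001800003000005fa2acbfe39d80316afffef) (.hit (nat_lit 87) (nat_lit 7) (nat_lit 0x5fd874bfa1f57fb4bafe6175f76eabf77317f7b3afe4f0) b31315 (.hit (nat_lit 95) (nat_lit 15) (nat_lit 0x5fb4f6bf27697f0c5afd5065f3f82bf46c17f0b22fd8b8) b31318 (.tok (nat_lit 55) (nat_lit 0x600000c00001800003000005fa2acbfe39d80316afffef) (.hit (nat_lit 88) (nat_lit 8) (nat_lit 0x600000bfe0b57ff4eb000005f9ecabfe39d80316afffef) b31316 (.hit (nat_lit 96) (nat_lit 16) (nat_lit 0x5fe626bf996d7fe72aff5ee5f9b58bfb5957fe88aff46d)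 b31319 (.one (nat_lit 6) (nat_lit 89) (nat_lit 9) (nat_lit 0x5fea8ac00001800002ff0655fa2acbfb43d800372ff443) b31317 (.nil)))) (.nil)))) (.nil)))) (.tok (nat_lit 9) (nat_lit 0x600000c00001800002ff7db600000c000017ee14300000) (.hit (nat_lit 157) (nat_lit 0) (nat_lit 0x5fe690bfb88d7fc6f2fe7c05fe0f0bfb8ed7ee142ff0d8) b31320 (.tok (nat_lit 3) (nat_lit 0x5fe6acbf92b57ff79afea855ffcf6bfd4597dfd7aff291) (.hit (nat_lit 158) (nat_lit 1) (nat_lit 0x5fb08abf29017f4b02fcf0b5fc3a4bf51a57d380afd717) b31321 (.one (nat_lit 55) (nat_lit 159) (nat_lit 3) (nat_lit 0x5fe6acbf92b57ff79afea855ffcf6bfd4597dfd7aff291) b31322 (.nil))) (.tok (nat_lit 9) (nat_lit 0x600000c00001800002ff7db600000c000017e80f300000) (.hit (nat_lit 163) (nat_lit 20) (nat_lit 0x5fd874bfa1f57fb4bafdcc85fe0e0bf8b197dd1eafe4f0) b31323 (.hit (nat_lit 171) (nat_lit 28) (nat_lit 0x5fb4f6bf27697f0c5afd0ac5fc534bf58297cf44afd8b8) b31326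 (.tok (nat_lit 67) (nat_lit 0x600000c00001800002ff7db600000c000017e80f300000) (.hit (nat_lit 164) (nat_lit 21) (nat_lit 0x600000bfe0b57ff4eaff7db600000c000017e716b00000) b31324 (.hit (nat_lit 172) (nat_lit 29) (nat_lit 0x5fe626bf996d7fe72afec615ff8c6bfdbc97e63a2ff46d) b31327 (.one (nat_lit 9) (nat_lit 165) (nat_lit 22) (nat_lit 0x5fea8ac00001800002fec0a5ff45cbfc5957e80f2ff441) b31325 (.nil)))) (.nil)))) (.nil)))) (.nil)))
noncomputable def r15_216 : Rw Blk := .tok (nat_lit 6) (nat_lit 0xbc000178000300000) (.hit (nat_lit 51) (nat_lit 0) (nat_lit 0xbc0001780002ff743) b8943 (.tok (nat_lit 3) (nat_lit 0xbc0001780002ffecc) (.hit (nat_lit 52) (nat_lit 1) (nat_lit 0xbc0001780002fdccb) b8944 (.one (nat_lit 14) (nat_lit 53) (nat_lit 4) (nat_lit 0xbc0001780002ffecc) b9239 (.one (nat_lit 56) (nat_lit 55) (nat_lit 6) (nat_lit 0xbc0001780002ff720) b8945 (.nil)))) (.tok (nat_lit 40) (nat_lit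 0xbc0001780002ff5de) (.hit (nat_lit 56) (nat_lit 33) (nat_lit 0xbc0001780002ff5de) b8947 (.hit (nat_lit 57) (nat_lit 34) (nat_lit 0xbc0001780002ff3d8) b8948 (.nil))) (.tok (nat_lit 43) (nat_lit 0xbc000178000300000) (.hit (nat_lit 58) (nat_lit 35) (nat_lit 0xbc000178000300000) b8951 (.hit (nat_lit 59) (nat_lit 36) (nat_lit 0xbc0001780002ff6ae) b8952 (.nil))) (.tok (nat_lit 46) (nat_lit 0xbc0001780002ffbd8) (.hit (nat_lit 60) (nat_lit 37) (nat_lit 0xbc0001780002fe56f) b8949 (.hit (nat_lit 61) (nat_lit 38) (nat_lit 0xbc0001780002ffbd8) b8950 (.nil))) (.nil)))))) (.tok (nat_lit 9) (nat_lit 0xbc000178000300000) (.hit (nat_lit 0) (nat_lit 0) (nat_lit 0xbc0001780002ff743) b8943 (.tok (nat_lit 3) (nat_lit 0xbc0001780002ffecc) (.hit (nat_lit 1) (nat_lit 1) (nat_lit 0xbc0001780002fdccb) b8944 (.one (nat_lit 14) (nat_lit 2) (nat_lit 4) (nat_lit 0xbc0001780002ffecc) b9239 (.one (nat_lit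 68) (nat_lit 3) (nat_lit 5) (nat_lit 0xbc0001780002ff720) b8945 (.nil)))) (.tok (nat_lit 40) (nat_lit 0xbc0001780002ff5de) (.hit (nat_lit 5) (nat_lit 33) (nat_lit 0xbc0001780002ff5de) b8947 (.hit (nat_lit 6) (nat_lit 34) (nat_lit 0xbc0001780002ff3d8) b8948 (.nil))) (.tok (nat_lit 43) (nat_lit 0xbc0001780002ffbd8) (.hit (nat_lit 7) (nat_lit 35) (nat_lit 0xbc0001780002fe56f) b8949 (.hit (nat_lit 8) (nat_lit 36) (nat_lit 0xbc0001780002ffbd8) b8950 (.nil))) (.tok (nat_lit 46) (nat_lit 0xbc000178000300000) (.hit (nat_lit 9) (nat_lit 37) (nat_lit 0xbc000178000300000) b8951 (.hit (nat_lit 10) (nat_lit 38) (nat_lit 0xbc0001780002ff6ae) b8952 (.nil))) (.nil)))))) (.nil))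
noncomputable def r15_217 : Rw Blk := .tok (nat_lit 3) (nat_lit 0xbc0001780002fddcf) (.hit (nat_lit 61) (nat_lit 0) (nat_lit 0xbc0001780002fd208) b9255 (.tok (nat_lit 9) (nat_lit 0xbc0001780002fd53e) (.hit (nat_lit 62) (nat_lit 20) (nat_lit 0xbc0001780002fbbb6) b9256 (.hit (nat_lit 67) (nat_lit 28) (nat_lit 0xbc0001780002fad94) b9261 (.tok (nat_lit 14) (nat_lit 0xbc0001780002fcdbc) (.hit (nat_lit 63) (nat_lit 24) (nat_lit 0xbc0001780002fbdc9) b9257 (.hit (nat_lit 68) (nat_lit 30) (nat_lit 0xbc0001780002fc1ab) b9262 (.one (nat_lit 6) (nat_lit 64) (nat_lit 25) (nat_lit 0xbc0001780002fcdbc) b9258 (.nil)))) (.one (nat_lit 56) (nat_lit 69) (nat_lit 31) (nat_lit 0xbc0001780002fc012) b9263 (.tok (nat_lit 68) (nat_lit 0xbc0001780002fd53e) (.hit (nat_lit 65) (nat_lit 26) (nat_lit 0xbc0001780002fcd30) b9259 (.hit (nat_lit 70) (nat_lit 32) (nat_lit 0xbc0001780002fbe92) b9264 (.one (nat_lit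 9) (nat_lit 66) (nat_lit 27) (nat_lit 0xbc0001780002fd53e) b9260 (.nil)))) (.nil)))))) (.tok (nat_lit 64) (nat_lit 0xbc0001780002fc6cc) (.hit (nat_lit 71) (nat_lit 50) (nat_lit 0xbc0001780002fbf49) b9265 (.hit (nat_lit 72) (nat_lit 51) (nat_lit 0xbc0001780002fc6cc) b9266 (.nil))) (.tok (nat_lit 67) (nat_lit 0xbc0001780002fddcf) (.hit (nat_lit 73) (nat_lit 52) (nat_lit 0xbc0001780002fdd53) b9267 (.tok (nat_lit 3) (nat_lit 0xbc0001780002fddcf) (.hit (nat_lit 79) (nat_lit 58) (nat_lit 0xbc0001780002fd372) b9273 (.one (nat_lit 55) (nat_lit 80) (nat_lit 59) (nat_lit 0xbc0001780002fddcf) b9274 (.nil))) (.tok (nat_lit 9) (nat_lit 0xbc0001780002fd886) (.hit (nat_lit 74) (nat_lit 53) (nat_lit 0xbc0001780002fc8b0) b9268 (.hit (nat_lit 77) (nat_lit 56) (nat_lit 0xbc0001780002fcbbd) b9271 (.tok (nat_lit 67) (nat_lit 0xbc0001780002fd886) (.hit (nat_lit 75) (nat_lit 54) (nat_lit 0xbc0001780002fd7c6)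 b9269 (.hit (nat_lit 78) (nat_lit 57) (nat_lit 0xbc0001780002fd886) b9272 (.one (nat_lit 9) (nat_lit 76) (nat_lit 55) (nat_lit 0xbc0001780002fd38a) b9270 (.nil)))) (.nil)))) (.nil)))) (.one (nat_lit 70) (nat_lit 81) (nat_lit 60) (nat_lit 0xbc0001780002fc77b) b9275 (.nil)))))) (.tok (nat_lit 6) (nat_lit 0xbc000178000300000) (.hit (nat_lit 0) (nat_lit 0) (nat_lit 0xbc0001780002feaff) b9240 (.tok (nat_lit 6) (nat_lit 0xbc0001780002ff817) (.hit (nat_lit 1) (nat_lit 7) (nat_lit 0xbc0001780002fd887) b9241 (.hit (nat_lit 6) (nat_lit 15) (nat_lit 0xbc0001780002fc60a) b9244 (.tok (nat_lit 14) (nat_lit 0xbc0001780002ff817) (.hit (nat_lit 2) (nat_lit 11) (nat_lit 0xbc0001780002ff817) b9242 (.hit (nat_lit 7) (nat_lit 17) (nat_lit 0xbc0001780002fe65c) b9245 (.one (nat_lit 9) (nat_lit 3) (nat_lit 12) (nat_lit 0xbc0001780002ff6cc) b9243 (.nil)))) (.one (nat_lit 68) (nat_lit 8) (nat_lit 18)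 (nat_lit 0xbc0001780002fdb1d) b9246 (.nil))))) (.tok (nat_lit 52) (nat_lit 0xbc0001780002feaaa) (.hit (nat_lit 10) (nat_lit 39) (nat_lit 0xbc0001780002fdd77) b9247 (.hit (nat_lit 11) (nat_lit 40) (nat_lit 0xbc0001780002feaaa) b9248 (.nil))) (.tok (nat_lit 55) (nat_lit 0xbc000178000300000) (.hit (nat_lit 12) (nat_lit 41) (nat_lit 0xbc0001780002ff885) b9249 (.tok (nat_lit 3) (nat_lit 0xbc000178000300000) (.hit (nat_lit 18) (nat_lit 47) (nat_lit 0xbc0001780002fec8d) b9252 (.one (nat_lit 67) (nat_lit 19) (nat_lit 48) (nat_lit 0xbc000178000300000) b9253 (.nil))) (.tok (nat_lit 6) (nat_lit 0xbc0001780002fece8) (.hit (nat_lit 13) (nat_lit 42) (nat_lit 0xbc0001780002fe0f2) b9250 (.hit (nat_lit 16) (nat_lit 45) (nat_lit 0xbc0001780002fece8) b9251 (.nil))) (.nil)))) (.one (nat_lit 58) (nat_lit 20) (nat_lit 49) (nat_lit 0xbc0001780002fecd6) b9254 (.nil)))))) (.nil))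
noncomputable def r15_218 : Rw Blk := .tok (nat_lit 3) (nat_lit 0xbc0001780002ff90f) (.hit (nat_lit 61) (nat_lit 0) (nat_lit 0xbc0001780002fdd67) b9291 (.tok (nat_lit 9) (nat_lit 0xbc0001780002fe295) (.hit (nat_lit 62) (nat_lit 20) (nat_lit 0xbc0001780002fc278) b9292 (.hit (nat_lit 67) (nat_lit 28) (nat_lit 0xbc0001780002fc5e7) b9297 (.tok (nat_lit 14) (nat_lit 0xbc0001780002fe295) (.hit (nat_lit 63) (nat_lit 24) (nat_lit 0xbc0001780002fd806) b9293 (.hit (nat_lit 68) (nat_lit 30) (nat_lit 0xbc0001780002fd4f7) b9298 (.one (nat_lit 6) (nat_lit 64) (nat_lit 25) (nat_lit 0xbc0001780002fe295) b9294 (.nil)))) (.one (nat_lit 56) (nat_lit 69) (nat_lit 31) (nat_lit 0xbc0001780002fdc1d) b9299 (.tok (nat_lit 68) (nat_lit 0xbc0001780002fddcb) (.hit (nat_lit 65) (nat_lit 26) (nat_lit 0xbc0001780002fda4a) b9295 (.hit (nat_lit 70) (nat_lit 32) (nat_lit 0xbc0001780002fd618) b9300 (.one (nat_lit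 9) (nat_lit 66) (nat_lit 27) (nat_lit 0xbc0001780002fddcb) b9296 (.nil)))) (.nil)))))) (.tok (nat_lit 64) (nat_lit 0xbc0001780002fe036) (.hit (nat_lit 71) (nat_lit 50) (nat_lit 0xbc0001780002fd900) b9301 (.hit (nat_lit 72) (nat_lit 51) (nat_lit 0xbc0001780002fe036) b9302 (.nil))) (.tok (nat_lit 67) (nat_lit 0xbc0001780002ff90f) (.hit (nat_lit 73) (nat_lit 52) (nat_lit 0xbc0001780002fefd2) b9303 (.tok (nat_lit 3) (nat_lit 0xbc0001780002ff019) (.hit (nat_lit 79) (nat_lit 58) (nat_lit 0xbc0001780002fe867) b9309 (.one (nat_lit 55) (nat_lit 80) (nat_lit 59) (nat_lit 0xbc0001780002ff019) b9310 (.nil))) (.tok (nat_lit 9) (nat_lit 0xbc0001780002ff90f) (.hit (nat_lit 74) (nat_lit 53) (nat_lit 0xbc0001780002ff1c1) b9304 (.hit (nat_lit 77) (nat_lit 56) (nat_lit 0xbc0001780002fdf22) b9307 (.tok (nat_lit 67) (nat_lit 0xbc0001780002ff90f) (.hit (nat_lit 75) (nat_lit 54) (nat_lit 0xbc0001780002ff90f)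 b9305 (.hit (nat_lit 78) (nat_lit 57) (nat_lit 0xbc0001780002ff067) b9308 (.one (nat_lit 9) (nat_lit 76) (nat_lit 55) (nat_lit 0xbc0001780002ff177) b9306 (.nil)))) (.nil)))) (.nil)))) (.one (nat_lit 70) (nat_lit 81) (nat_lit 60) (nat_lit 0xbc0001780002fdfc6) b9311 (.nil)))))) (.tok (nat_lit 6) (nat_lit 0xbc000178000300000) (.hit (nat_lit 0) (nat_lit 0) (nat_lit 0xbc0001780002feb1e) b9276 (.tok (nat_lit 6) (nat_lit 0xbc0001780002ff88b) (.hit (nat_lit 1) (nat_lit 7) (nat_lit 0xbc0001780002fdf48) b9277 (.hit (nat_lit 6) (nat_lit 15) (nat_lit 0xbc0001780002fd1ef) b9280 (.tok (nat_lit 14) (nat_lit 0xbc0001780002ff88b) (.hit (nat_lit 2) (nat_lit 11) (nat_lit 0xbc0001780002ff001) b9278 (.hit (nat_lit 7) (nat_lit 17) (nat_lit 0xbc0001780002ff88b) b9281 (.one (nat_lit 9) (nat_lit 3) (nat_lit 12) (nat_lit 0xbc0001780002fef49) b9279 (.nil)))) (.one (nat_lit 68) (nat_lit 8) (nat_lit 18)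 (nat_lit 0xbc0001780002feed9) b9282 (.nil))))) (.tok (nat_lit 52) (nat_lit 0xbc0001780002ff51c) (.hit (nat_lit 10) (nat_lit 39) (nat_lit 0xbc0001780002fe509) b9283 (.hit (nat_lit 11) (nat_lit 40) (nat_lit 0xbc0001780002ff51c) b9284 (.nil))) (.tok (nat_lit 55) (nat_lit 0xbc000178000300000) (.hit (nat_lit 12) (nat_lit 41) (nat_lit 0xbc0001780002ffa9e) b9285 (.tok (nat_lit 3) (nat_lit 0xbc0001780002fffab) (.hit (nat_lit 18) (nat_lit 47) (nat_lit 0xbc0001780002fecf0) b9288 (.one (nat_lit 67) (nat_lit 19) (nat_lit 48) (nat_lit 0xbc0001780002fffab) b9289 (.nil))) (.tok (nat_lit 6) (nat_lit 0xbc000178000300000) (.hit (nat_lit 13) (nat_lit 42) (nat_lit 0xbc000178000300000) b9286 (.hit (nat_lit 16) (nat_lit 45) (nat_lit 0xbc0001780002ffc01) b9287 (.nil))) (.nil)))) (.one (nat_lit 58) (nat_lit 20) (nat_lit 49) (nat_lit 0xbc0001780002ff36a) b9290 (.nil)))))) (.nil))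
noncomputable def r15_219 : Rw Blk := .tok (nat_lit 3) (nat_lit 0xbc0001780002fddcf) (.hit (nat_lit 61) (nat_lit 0) (nat_lit 0xbc0001780002fd208) b9255 (.tok (nat_lit 6) (nat_lit 0xbc0001780002fd53e) (.hit (nat_lit 62) (nat_lit 7) (nat_lit 0xbc0001780002fbbb6) b9256 (.hit (nat_lit 67) (nat_lit 15) (nat_lit 0xbc0001780002fad94) b9261 (.tok (nat_lit 14) (nat_lit 0xbc0001780002fcdbc) (.hit (nat_lit 63) (nat_lit 11) (nat_lit 0xbc0001780002fbdc9) b9257 (.hit (nat_lit 68) (nat_lit 17) (nat_lit 0xbc0001780002fc1ab) b9262 (.one (nat_lit 9) (nat_lit 64) (nat_lit 12) (nat_lit 0xbc0001780002fcdbc) b9258 (.nil)))) (.tok (nat_lit 56) (nat_lit 0xbc0001780002fd53e) (.hit (nat_lit 65) (nat_lit 13) (nat_lit 0xbc0001780002fcd30) b9259 (.hit (nat_lit 70) (nat_lit 19) (nat_lit 0xbc0001780002fbe92) b9264 (.one (nat_lit 6) (nat_lit 66) (nat_lit 14) (nat_lit 0xbc0001780002fd53e) b9260 (.nil)))) (.one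 (nat_lit 68) (nat_lit 69) (nat_lit 18) (nat_lit 0xbc0001780002fc012) b9263 (.nil)))))) (.tok (nat_lit 52) (nat_lit 0xbc0001780002fc6cc) (.hit (nat_lit 71) (nat_lit 39) (nat_lit 0xbc0001780002fbf49) b9265 (.hit (nat_lit 72) (nat_lit 40) (nat_lit 0xbc0001780002fc6cc) b9266 (.nil))) (.tok (nat_lit 55) (nat_lit 0xbc0001780002fddcf) (.hit (nat_lit 73) (nat_lit 41) (nat_lit 0xbc0001780002fdd53) b9267 (.tok (nat_lit 3) (nat_lit 0xbc0001780002fddcf) (.hit (nat_lit 79) (nat_lit 47) (nat_lit 0xbc0001780002fd372) b9273 (.one (nat_lit 67) (nat_lit 80) (nat_lit 48) (nat_lit 0xbc0001780002fddcf) b9274 (.nil))) (.tok (nat_lit 6) (nat_lit 0xbc0001780002fd886) (.hit (nat_lit 74) (nat_lit 42) (nat_lit 0xbc0001780002fc8b0) b9268 (.hit (nat_lit 77) (nat_lit 45) (nat_lit 0xbc0001780002fcbbd) b9271 (.tok (nat_lit 55) (nat_lit 0xbc0001780002fd886) (.hit (nat_lit 75) (nat_lit 43) (nat_lit 0xbc0001780002fd7c6)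 b9269 (.hit (nat_lit 78) (nat_lit 46) (nat_lit 0xbc0001780002fd886) b9272 (.one (nat_lit 6) (nat_lit 76) (nat_lit 44) (nat_lit 0xbc0001780002fd38a) b9270 (.nil)))) (.nil)))) (.nil)))) (.one (nat_lit 58) (nat_lit 81) (nat_lit 49) (nat_lit 0xbc0001780002fc77b) b9275 (.nil)))))) (.tok (nat_lit 9) (nat_lit 0xbc000178000300000) (.hit (nat_lit 0) (nat_lit 0) (nat_lit 0xbc0001780002feaff) b9240 (.tok (nat_lit 9) (nat_lit 0xbc0001780002ff817) (.hit (nat_lit 1) (nat_lit 20) (nat_lit 0xbc0001780002fd887) b9241 (.hit (nat_lit 6) (nat_lit 28) (nat_lit 0xbc0001780002fc60a) b9244 (.tok (nat_lit 14) (nat_lit 0xbc0001780002ff817) (.hit (nat_lit 2) (nat_lit 24) (nat_lit 0xbc0001780002ff817) b9242 (.hit (nat_lit 7) (nat_lit 30) (nat_lit 0xbc0001780002fe65c) b9245 (.one (nat_lit 6) (nat_lit 3) (nat_lit 25) (nat_lit 0xbc0001780002ff6cc) b9243 (.nil)))) (.one (nat_lit 56) (nat_lit 8) (nat_lit 31)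 (nat_lit 0xbc0001780002fdb1d) b9246 (.nil))))) (.tok (nat_lit 64) (nat_lit 0xbc0001780002feaaa) (.hit (nat_lit 10) (nat_lit 50) (nat_lit 0xbc0001780002fdd77) b9247 (.hit (nat_lit 11) (nat_lit 51) (nat_lit 0xbc0001780002feaaa) b9248 (.nil))) (.tok (nat_lit 67) (nat_lit 0xbc000178000300000) (.hit (nat_lit 12) (nat_lit 52) (nat_lit 0xbc0001780002ff885) b9249 (.tok (nat_lit 3) (nat_lit 0xbc000178000300000) (.hit (nat_lit 18) (nat_lit 58) (nat_lit 0xbc0001780002fec8d) b9252 (.one (nat_lit 55) (nat_lit 19) (nat_lit 59) (nat_lit 0xbc000178000300000) b9253 (.nil))) (.tok (nat_lit 9) (nat_lit 0xbc0001780002fece8) (.hit (nat_lit 13) (nat_lit 53) (nat_lit 0xbc0001780002fe0f2) b9250 (.hit (nat_lit 16) (nat_lit 56) (nat_lit 0xbc0001780002fece8) b9251 (.nil))) (.nil)))) (.one (nat_lit 70) (nat_lit 20) (nat_lit 60) (nat_lit 0xbc0001780002fecd6) b9254 (.nil)))))) (.nil))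
noncomputable def r15_220 : Rw Blk := .tok (nat_lit 3) (nat_lit 0xbc0001780002ff90f) (.hit (nat_lit 61) (nat_lit 0) (nat_lit 0xbc0001780002fdd67) b9291 (.tok (nat_lit 6) (nat_lit 0xbc0001780002fe295) (.hit (nat_lit 62) (nat_lit 7) (nat_lit 0xbc0001780002fc278) b9292 (.hit (nat_lit 67) (nat_lit 15) (nat_lit 0xbc0001780002fc5e7) b9297 (.tok (nat_lit 14) (nat_lit 0xbc0001780002fe295) (.hit (nat_lit 63) (nat_lit 11) (nat_lit 0xbc0001780002fd806) b9293 (.hit (nat_lit 68) (nat_lit 17) (nat_lit 0xbc0001780002fd4f7) b9298 (.one (nat_lit 9) (nat_lit 64) (nat_lit 12) (nat_lit 0xbc0001780002fe295) b9294 (.nil)))) (.tok (nat_lit 56) (nat_lit 0xbc0001780002fddcb) (.hit (nat_lit 65) (nat_lit 13) (nat_lit 0xbc0001780002fda4a) b9295 (.hit (nat_lit 70) (nat_lit 19) (nat_lit 0xbc0001780002fd618) b9300 (.one (nat_lit 6) (nat_lit 66) (nat_lit 14) (nat_lit 0xbc0001780002fddcb) b9296 (.nil)))) (.one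 (nat_lit 68) (nat_lit 69) (nat_lit 18) (nat_lit 0xbc0001780002fdc1d) b9299 (.nil)))))) (.tok (nat_lit 52) (nat_lit 0xbc0001780002fe036) (.hit (nat_lit 71) (nat_lit 39) (nat_lit 0xbc0001780002fd900) b9301 (.hit (nat_lit 72) (nat_lit 40) (nat_lit 0xbc0001780002fe036) b9302 (.nil))) (.tok (nat_lit 55) (nat_lit 0xbc0001780002ff90f) (.hit (nat_lit 73) (nat_lit 41) (nat_lit 0xbc0001780002fefd2) b9303 (.tok (nat_lit 3) (nat_lit 0xbc0001780002ff019) (.hit (nat_lit 79) (nat_lit 47) (nat_lit 0xbc0001780002fe867) b9309 (.one (nat_lit 67) (nat_lit 80) (nat_lit 48) (nat_lit 0xbc0001780002ff019) b9310 (.nil))) (.tok (nat_lit 6) (nat_lit 0xbc0001780002ff90f) (.hit (nat_lit 74) (nat_lit 42) (nat_lit 0xbc0001780002ff1c1) b9304 (.hit (nat_lit 77) (nat_lit 45) (nat_lit 0xbc0001780002fdf22) b9307 (.tok (nat_lit 55) (nat_lit 0xbc0001780002ff90f) (.hit (nat_lit 75) (nat_lit 43) (nat_lit 0xbc0001780002ff90f)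 b9305 (.hit (nat_lit 78) (nat_lit 46) (nat_lit 0xbc0001780002ff067) b9308 (.one (nat_lit 6) (nat_lit 76) (nat_lit 44) (nat_lit 0xbc0001780002ff177) b9306 (.nil)))) (.nil)))) (.nil)))) (.one (nat_lit 58) (nat_lit 81) (nat_lit 49) (nat_lit 0xbc0001780002fdfc6) b9311 (.nil)))))) (.tok (nat_lit 9) (nat_lit 0xbc000178000300000) (.hit (nat_lit 0) (nat_lit 0) (nat_lit 0xbc0001780002feb1e) b9276 (.tok (nat_lit 9) (nat_lit 0xbc0001780002ff88b) (.hit (nat_lit 1) (nat_lit 20) (nat_lit 0xbc0001780002fdf48) b9277 (.hit (nat_lit 6) (nat_lit 28) (nat_lit 0xbc0001780002fd1ef) b9280 (.tok (nat_lit 14) (nat_lit 0xbc0001780002ff88b) (.hit (nat_lit 2) (nat_lit 24) (nat_lit 0xbc0001780002ff001) b9278 (.hit (nat_lit 7) (nat_lit 30) (nat_lit 0xbc0001780002ff88b) b9281 (.one (nat_lit 6) (nat_lit 3) (nat_lit 25) (nat_lit 0xbc0001780002fef49) b9279 (.nil)))) (.one (nat_lit 56) (nat_lit 8) (nat_lit 31)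 (nat_lit 0xbc0001780002feed9) b9282 (.nil))))) (.tok (nat_lit 64) (nat_lit 0xbc0001780002ff51c) (.hit (nat_lit 10) (nat_lit 50) (nat_lit 0xbc0001780002fe509) b9283 (.hit (nat_lit 11) (nat_lit 51) (nat_lit 0xbc0001780002ff51c) b9284 (.nil))) (.tok (nat_lit 67) (nat_lit 0xbc000178000300000) (.hit (nat_lit 12) (nat_lit 52) (nat_lit 0xbc0001780002ffa9e) b9285 (.tok (nat_lit 3) (nat_lit 0xbc0001780002fffab) (.hit (nat_lit 18) (nat_lit 58) (nat_lit 0xbc0001780002fecf0) b9288 (.one (nat_lit 55) (nat_lit 19) (nat_lit 59) (nat_lit 0xbc0001780002fffab) b9289 (.nil))) (.tok (nat_lit 9) (nat_lit 0xbc000178000300000) (.hit (nat_lit 13) (nat_lit 53) (nat_lit 0xbc000178000300000) b9286 (.hit (nat_lit 16) (nat_lit 56) (nat_lit 0xbc0001780002ffc01) b9287 (.nil))) (.nil)))) (.one (nat_lit 70) (nat_lit 20) (nat_lit 60) (nat_lit 0xbc0001780002ff36a) b9290 (.nil)))))) (.nil))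
noncomputable def r15_221 : Rw Blk := .tok (nat_lit 3) (nat_lit 0xbf6f257e3482fdfc05fbd94bf614d7ef6a2fdcd9) (.hit (nat_lit 0) (nat_lit 0) (nat_lit 0xbf6f257e3482fdfc05fbd94bf614d7ef6a2fdcd9) b31328 (.tok (nat_lit 6) (nat_lit 0xbf3a757d7a6afdd295fa33cbed6197e8cf2fba0f) (.hit (nat_lit 1) (nat_lit 7) (nat_lit 0xbf3a757d7a6afdd295fa33cbed6197e8cf2fba0f) b31329 (.hit (nat_lit 6) (nat_lit 15) (nat_lit 0xbf30b97d66f2fd5255f9e5ebecc5d7e797afb7a0) b31330 (.nil))) (.tok (nat_lit 9) (nat_lit 0xbf3a757d7a6afdd295fa33cbed6197e8cf2fba0f) (.hit (nat_lit 10) (nat_lit 20) (nat_lit 0xbf3a757d7a6afdd295fa33cbed6197e8cf2fba0f) b31329 (.hit (nat_lit 15) (nat_lit 28) (nat_lit 0xbf30b97d66f2fd5255f9e5ebecc5d7e797afb7a0) b31330 (.nil))) (.nil)))) (.tok (nat_lit 6) (nat_lit 0xc0000180000300000600000bf8fa1800003010bb) (.hit (nat_lit 81) (nat_lit 0) (nat_lit 0xbfc8317eef52feb305fde22bf784d7f789aff438)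 b31331 (.one (nat_lit 3) (nat_lit 82) (nat_lit 1) (nat_lit 0xbf5c257dd03afdbb25fa47cbeb5f17e598afe1fc) b31332 (.tok (nat_lit 6) (nat_lit 0xc0000180000300000600000bf8fa1800003010bb) (.hit (nat_lit 87) (nat_lit 7) (nat_lit 0xbfabf97ec222fe8e95fc48cbf02e17ee682fe964) b31333 (.hit (nat_lit 95) (nat_lit 15) (nat_lit 0xbf64fd7dcd0afd3dd5fa7bebe94117e6692fe2ff) b31337 (.tok (nat_lit 55) (nat_lit 0xc0000180000300000600000bf8fa1800003010bb) (.hit (nat_lit 88) (nat_lit 8) (nat_lit 0xbffb117f3fa2ff0ef5ff542bf52a17f9ddaff94c) b31334 (.hit (nat_lit 96) (nat_lit 16) (nat_lit 0xbfc75d7eb112fef375fdf28bf4bbd7f783aff48f) b31338 (.tok (nat_lit 6) (nat_lit 0xc0000180000300000600000bf8fa1800003010bb) (.hit (nat_lit 89) (nat_lit 9) (nat_lit 0xbfd0257f7e3aff2525fe562bf5a657f958affd3f) b31335 (.one (nat_lit 55) (nat_lit 90) (nat_lit 10) (nat_lit 0xc0000180000300000600000bf8fa1800003010bb) b31336 (.nil)))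 (.nil)))) (.nil)))) (.nil)))) (.tok (nat_lit 9) (nat_lit 0xc0000180000300000600000c00001800002fe871) (.hit (nat_lit 157) (nat_lit 0) (nat_lit 0xbfc8317eef52feb305fde88bfc3c17f7a72fe303) b31339 (.one (nat_lit 3) (nat_lit 158) (nat_lit 1) (nat_lit 0xbf5c257dd03afdbb25f964ebf75d97e9242fb205) b31340 (.tok (nat_lit 9) (nat_lit 0xc0000180000300000600000c00001800002fe871) (.hit (nat_lit 163) (nat_lit 20) (nat_lit 0xbfabf97ec222fe8e95fb9a0bf93b17f12eafc541) b31341 (.hit (nat_lit 171) (nat_lit 28) (nat_lit 0xbf64fd7dcd0afd3dd5f9990bf79e57e9f4afa98d) b31345 (.tok (nat_lit 67) (nat_lit 0xc0000180000300000600000c00001800002fe871) (.hit (nat_lit 164) (nat_lit 21) (nat_lit 0xbffb117f3fa2ff0ef5fe7c8bfe3997fd70afd931) b31342 (.hit (nat_lit 172) (nat_lit 29) (nat_lit 0xbfc75d7eb112fef375fde0ebfd9217f7cf2fd778) b31346 (.tok (nat_lit 9) (nat_lit 0xc0000180000300000600000c00001800002fe871) (.hit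 (nat_lit 165) (nat_lit 22) (nat_lit 0xbfd0257f7e3aff2525fe562bfec397f958afdb22) b31343 (.one (nat_lit 67) (nat_lit 166) (nat_lit 23) (nat_lit 0xc0000180000300000600000c00001800002fe871) b31344 (.nil))) (.nil)))) (.nil)))) (.nil)))) (.nil)))
noncomputable def r15_222 : Rw Blk := .tok (nat_lit 6) (nat_lit 0xbc000178000300000) (.hit (nat_lit 51) (nat_lit 0) (nat_lit 0xbc0001780002ff743) b8943 (.tok (nat_lit 3) (nat_lit 0xbc0001780002ffecc) (.hit (nat_lit 52) (nat_lit 1) (nat_lit 0xbc0001780002fdccb) b8944 (.one (nat_lit 14) (nat_lit 53) (nat_lit 4) (nat_lit 0xbc0001780002ffecc) b9239 (.one (nat_lit 68) (nat_lit 54) (nat_lit 5) (nat_lit 0xbc0001780002fef3e) b8946 (.nil)))) (.tok (nat_lit 40) (nat_lit 0xbc0001780002ff5de) (.hit (nat_lit 56) (nat_lit 33) (nat_lit 0xbc0001780002ff5de) b8947 (.hit (nat_lit 57) (nat_lit 34) (nat_lit 0xbc0001780002ff3d8) b8948 (.nil))) (.tok (nat_lit 43)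 (nat_lit 0xbc000178000300000) (.hit (nat_lit 58) (nat_lit 35) (nat_lit 0xbc000178000300000) b8951 (.hit (nat_lit 59) (nat_lit 36) (nat_lit 0xbc0001780002ff6ae) b8952 (.nil))) (.tok (nat_lit 46) (nat_lit 0xbc0001780002ffbd8) (.hit (nat_lit 60) (nat_lit 37) (nat_lit 0xbc0001780002fe56f) b8949 (.hit (nat_lit 61) (nat_lit 38) (nat_lit 0xbc0001780002ffbd8) b8950 (.nil))) (.nil)))))) (.tok (nat_lit 9) (nat_lit 0xbc000178000300000) (.hit (nat_lit 0) (nat_lit 0) (nat_lit 0xbc0001780002ff743) b8943 (.tok (nat_lit 3) (nat_lit 0xbc0001780002ffecc) (.hit (nat_lit 1) (nat_lit 1) (nat_lit 0xbc0001780002fdccb) b8944 (.one (nat_lit 14) (nat_lit 2) (nat_lit 4) (nat_lit 0xbc0001780002ffecc) b9239 (.one (nat_lit 56) (nat_lit 4) (nat_lit 6) (nat_lit 0xbc0001780002fef3e) b8946 (.nil)))) (.tok (nat_lit 40) (nat_lit 0xbc0001780002ff5de) (.hit (nat_lit 5) (nat_lit 33) (nat_lit 0xbc0001780002ff5de) b8947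 (.hit (nat_lit 6) (nat_lit 34) (nat_lit 0xbc0001780002ff3d8) b8948 (.nil))) (.tok (nat_lit 43) (nat_lit 0xbc0001780002ffbd8) (.hit (nat_lit 7) (nat_lit 35) (nat_lit 0xbc0001780002fe56f) b8949 (.hit (nat_lit 8) (nat_lit 36) (nat_lit 0xbc0001780002ffbd8) b8950 (.nil))) (.tok (nat_lit 46) (nat_lit 0xbc000178000300000) (.hit (nat_lit 9) (nat_lit 37) (nat_lit 0xbc000178000300000) b8951 (.hit (nat_lit 10) (nat_lit 38) (nat_lit 0xbc0001780002ff6ae) b8952 (.nil))) (.nil)))))) (.nil))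
noncomputable def r15_223 : Rw Blk := .tok (nat_lit 3) (nat_lit 0xbc0001780002fd53e) (.hit (nat_lit 61) (nat_lit 0) (nat_lit 0xbc0001780002fd208) b9255 (.tok (nat_lit 9) (nat_lit 0xbc0001780002fd53e) (.hit (nat_lit 62) (nat_lit 20) (nat_lit 0xbc0001780002fbbb6) b9256 (.hit (nat_lit 67) (nat_lit 28) (nat_lit 0xbc0001780002fad94) b9261 (.tok (nat_lit 14) (nat_lit 0xbc0001780002fcdbc) (.hit (nat_lit 63) (nat_lit 24) (nat_lit 0xbc0001780002fbdc9) b9257 (.hit (nat_lit 68) (nat_lit 30) (nat_lit 0xbc0001780002fc1ab) b9262 (.one (nat_lit 6) (nat_lit 64) (nat_lit 25) (nat_lit 0xbc0001780002fcdbc) b9258 (.nil)))) (.one (nat_lit 56) (nat_lit 69) (nat_lit 31) (nat_lit 0xbc0001780002fc012) b9263 (.tok (nat_lit 68) (nat_lit 0xbc0001780002fd53e) (.hit (nat_lit 65) (nat_lit 26) (nat_lit 0xbc0001780002fcd30) b9259 (.hit (nat_lit 70) (nat_lit 32) (nat_lit 0xbc0001780002fbe92) b9264 (.one (nat_lit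 9) (nat_lit 66) (nat_lit 27) (nat_lit 0xbc0001780002fd53e) b9260 (.nil)))) (.nil)))))) (.nil))) (.tok (nat_lit 6) (nat_lit 0xbc000178000300000) (.hit (nat_lit 0) (nat_lit 0) (nat_lit 0xbc0001780002feaff) b9240 (.tok (nat_lit 6) (nat_lit 0xbc0001780002fffbd) (.hit (nat_lit 1) (nat_lit 7) (nat_lit 0xbc0001780002fd887) b9241 (.hit (nat_lit 6) (nat_lit 15) (nat_lit 0xbc0001780002fc60a) b9244 (.tok (nat_lit 14) (nat_lit 0xbc0001780002ff817) (.hit (nat_lit 2) (nat_lit 11) (nat_lit 0xbc0001780002ff817) b9242 (.hit (nat_lit 7) (nat_lit 17) (nat_lit 0xbc0001780002fe65c) b9245 (.one (nat_lit 9) (nat_lit 3) (nat_lit 12) (nat_lit 0xbc0001780002ff6cc) b9243 (.nil)))) (.tok (nat_lit 56) (nat_lit 0xbc0001780002fffbd) (.hit (nat_lit 4) (nat_lit 13) (nat_lit 0xbc0001780002fef99) b9609 (.hit (nat_lit 9) (nat_lit 19) (nat_lit 0xbc0001780002fd621) b9611 (.one (nat_lit 6) (nat_lit 5) (nat_lit 14)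 (nat_lit 0xbc0001780002fffbd) b9610 (.nil)))) (.nil))))) (.tok (nat_lit 52) (nat_lit 0xbc0001780002feaaa) (.hit (nat_lit 10) (nat_lit 39) (nat_lit 0xbc0001780002fdd77) b9247 (.hit (nat_lit 11) (nat_lit 40) (nat_lit 0xbc0001780002feaaa) b9248 (.nil))) (.tok (nat_lit 55) (nat_lit 0xbc000178000300000) (.hit (nat_lit 12) (nat_lit 41) (nat_lit 0xbc0001780002ff885) b9249 (.tok (nat_lit 3) (nat_lit 0xbc000178000300000) (.hit (nat_lit 18) (nat_lit 47) (nat_lit 0xbc0001780002fec8d) b9252 (.one (nat_lit 67) (nat_lit 19) (nat_lit 48) (nat_lit 0xbc000178000300000) b9253 (.nil))) (.tok (nat_lit 6) (nat_lit 0xbc0001780002ffc81) (.hit (nat_lit 13) (nat_lit 42) (nat_lit 0xbc0001780002fe0f2) b9250 (.hit (nat_lit 16) (nat_lit 45) (nat_lit 0xbc0001780002fece8) b9251 (.tok (nat_lit 55) (nat_lit 0xbc0001780002ffc81) (.hit (nat_lit 14) (nat_lit 43) (nat_lit 0xbc0001780002ff6bd) b9612 (.hit (nat_lit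 17) (nat_lit 46) (nat_lit 0xbc0001780002ffc81) b9614 (.one (nat_lit 6) (nat_lit 15) (nat_lit 44) (nat_lit 0xbc0001780002ff76a) b9613 (.nil)))) (.nil)))) (.nil)))) (.one (nat_lit 58) (nat_lit 20) (nat_lit 49) (nat_lit 0xbc0001780002fecd6) b9254 (.nil)))))) (.nil))
noncomputable def r15_224 : Rw Blk := .tok (nat_lit 3) (nat_lit 0xbc0001780002fc7e2) (.hit (nat_lit 61) (nat_lit 0) (nat_lit 0xbc0001780002fc2b4) b31367 (.tok (nat_lit 9) (nat_lit 0xbc0001780002fc7e2) (.hit (nat_lit 62) (nat_lit 20) (nat_lit 0xbc0001780002fa7c5) b31368 (.hit (nat_lit 67) (nat_lit 28) (nat_lit 0xbc0001780002fab34) b31373 (.tok (nat_lit 14) (nat_lit 0xbc0001780002fc7e2) (.hit (nat_lit 63) (nat_lit 24) (nat_lit 0xbc0001780002fbd53) b31369 (.hit (nat_lit 68) (nat_lit 30) (nat_lit 0xbc0001780002fba44) b31374 (.one (nat_lit 6) (nat_lit 64) (nat_lit 25) (nat_lit 0xbc0001780002fc7e2) b31370 (.nil)))) (.one (nat_lit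 56) (nat_lit 69) (nat_lit 31) (nat_lit 0xbc0001780002fc16a) b31375 (.tok (nat_lit 68) (nat_lit 0xbc0001780002fc318) (.hit (nat_lit 65) (nat_lit 26) (nat_lit 0xbc0001780002fbf97) b31371 (.hit (nat_lit 70) (nat_lit 32) (nat_lit 0xbc0001780002fbb65) b31376 (.one (nat_lit 9) (nat_lit 66) (nat_lit 27) (nat_lit 0xbc0001780002fc318) b31372 (.nil)))) (.nil)))))) (.nil))) (.tok (nat_lit 6) (nat_lit 0xbc0001780003008d3) (.hit (nat_lit 0) (nat_lit 0) (nat_lit 0xbc0001780002fd06b) b31347 (.tok (nat_lit 6) (nat_lit 0xbc0001780002fddd8) (.hit (nat_lit 1) (nat_lit 7) (nat_lit 0xbc0001780002fc495) b31348 (.hit (nat_lit 6) (nat_lit 15) (nat_lit 0xbc0001780002fb73c) b31353 (.tok (nat_lit 14) (nat_lit 0xbc0001780002fddd8) (.hit (nat_lit 2) (nat_lit 11) (nat_lit 0xbc0001780002fd54e) b31349 (.hit (nat_lit 7) (nat_lit 17) (nat_lit 0xbc0001780002fddd8) b31354 (.one (nat_lit 9) (nat_lit 3) (nat_lit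 12) (nat_lit 0xbc0001780002fd496) b31350 (.nil)))) (.tok (nat_lit 56) (nat_lit 0xbc0001780002fd4c9) (.hit (nat_lit 4) (nat_lit 13) (nat_lit 0xbc0001780002fd3f4) b31351 (.hit (nat_lit 9) (nat_lit 19) (nat_lit 0xbc0001780002fd3ca) b31355 (.one (nat_lit 6) (nat_lit 5) (nat_lit 14) (nat_lit 0xbc0001780002fd4c9) b31352 (.nil)))) (.nil))))) (.tok (nat_lit 52) (nat_lit 0xbc0001780002fda69) (.hit (nat_lit 10) (nat_lit 39) (nat_lit 0xbc0001780002fca56) b31356 (.hit (nat_lit 11) (nat_lit 40) (nat_lit 0xbc0001780002fda69) b31357 (.nil))) (.tok (nat_lit 55) (nat_lit 0xbc0001780003008d3) (.hit (nat_lit 12) (nat_lit 41) (nat_lit 0xbc0001780002fdfeb) b31358 (.tok (nat_lit 3) (nat_lit 0xbc0001780002fe4f8) (.hit (nat_lit 18) (nat_lit 47) (nat_lit 0xbc0001780002fd23d) b31364 (.one (nat_lit 67) (nat_lit 19) (nat_lit 48) (nat_lit 0xbc0001780002fe4f8) b31365 (.nil))) (.tok (nat_lit 6) (nat_lit 0xbc0001780003008d3)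 (.hit (nat_lit 13) (nat_lit 42) (nat_lit 0xbc0001780002fe54d) b31359 (.hit (nat_lit 16) (nat_lit 45) (nat_lit 0xbc0001780002fe14e) b31362 (.tok (nat_lit 55) (nat_lit 0xbc0001780003008d3) (.hit (nat_lit 14) (nat_lit 43) (nat_lit 0xbc0001780003001c5) b31360 (.hit (nat_lit 17) (nat_lit 46) (nat_lit 0xbc0001780002fdd64) b31363 (.one (nat_lit 6) (nat_lit 15) (nat_lit 44) (nat_lit 0xbc0001780003008d3) b31361 (.nil)))) (.nil)))) (.nil)))) (.one (nat_lit 58) (nat_lit 20) (nat_lit 49) (nat_lit 0xbc0001780002fd8b7) b31366 (.nil)))))) (.nil))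
noncomputable def r15_225 : Rw Blk := .tok (nat_lit 3) (nat_lit 0xbc0001780002fd53e) (.hit (nat_lit 61) (nat_lit 0) (nat_lit 0xbc0001780002fd208) b9255 (.tok (nat_lit 6) (nat_lit 0xbc0001780002fd53e) (.hit (nat_lit 62) (nat_lit 7) (nat_lit 0xbc0001780002fbbb6) b9256 (.hit (nat_lit 67) (nat_lit 15) (nat_lit 0xbc0001780002fad94) b9261 (.tok (nat_lit 14) (nat_lit 0xbc0001780002fcdbc) (.hit (nat_lit 63) (nat_lit 11) (nat_lit 0xbc0001780002fbdc9) b9257 (.hit (nat_lit 68) (nat_lit 17) (nat_lit 0xbc0001780002fc1ab) b9262 (.one (nat_lit 9) (nat_lit 64) (nat_lit 12) (nat_lit 0xbc0001780002fcdbc) b9258 (.nil)))) (.tok (nat_lit 56) (nat_lit 0xbc0001780002fd53e) (.hit (nat_lit 65) (nat_lit 13) (nat_lit 0xbc0001780002fcd30) b9259 (.hit (nat_lit 70) (nat_lit 19) (nat_lit 0xbc0001780002fbe92) b9264 (.one (nat_lit 6) (nat_lit 66) (nat_lit 14) (nat_lit 0xbc0001780002fd53e) b9260 (.nil)))) (.one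 (nat_lit 68) (nat_lit 69) (nat_lit 18) (nat_lit 0xbc0001780002fc012) b9263 (.nil)))))) (.nil))) (.tok (nat_lit 9) (nat_lit 0xbc000178000300000) (.hit (nat_lit 0) (nat_lit 0) (nat_lit 0xbc0001780002feaff) b9240 (.tok (nat_lit 9) (nat_lit 0xbc0001780002fffbd) (.hit (nat_lit 1) (nat_lit 20) (nat_lit 0xbc0001780002fd887) b9241 (.hit (nat_lit 6) (nat_lit 28) (nat_lit 0xbc0001780002fc60a) b9244 (.tok (nat_lit 14) (nat_lit 0xbc0001780002ff817) (.hit (nat_lit 2) (nat_lit 24) (nat_lit 0xbc0001780002ff817) b9242 (.hit (nat_lit 7) (nat_lit 30) (nat_lit 0xbc0001780002fe65c) b9245 (.one (nat_lit 6) (nat_lit 3) (nat_lit 25) (nat_lit 0xbc0001780002ff6cc) b9243 (.nil)))) (.tok (nat_lit 68) (nat_lit 0xbc0001780002fffbd) (.hit (nat_lit 4) (nat_lit 26) (nat_lit 0xbc0001780002fef99) b9609 (.hit (nat_lit 9) (nat_lit 32) (nat_lit 0xbc0001780002fd621) b9611 (.one (nat_lit 9) (nat_lit 5) (nat_lit 27)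 (nat_lit 0xbc0001780002fffbd) b9610 (.nil)))) (.nil))))) (.tok (nat_lit 64) (nat_lit 0xbc0001780002feaaa) (.hit (nat_lit 10) (nat_lit 50) (nat_lit 0xbc0001780002fdd77) b9247 (.hit (nat_lit 11) (nat_lit 51) (nat_lit 0xbc0001780002feaaa) b9248 (.nil))) (.tok (nat_lit 67) (nat_lit 0xbc000178000300000) (.hit (nat_lit 12) (nat_lit 52) (nat_lit 0xbc0001780002ff885) b9249 (.tok (nat_lit 3) (nat_lit 0xbc000178000300000) (.hit (nat_lit 18) (nat_lit 58) (nat_lit 0xbc0001780002fec8d) b9252 (.one (nat_lit 55) (nat_lit 19) (nat_lit 59) (nat_lit 0xbc000178000300000) b9253 (.nil))) (.tok (nat_lit 9) (nat_lit 0xbc0001780002ffc81) (.hit (nat_lit 13) (nat_lit 53) (nat_lit 0xbc0001780002fe0f2) b9250 (.hit (nat_lit 16) (nat_lit 56) (nat_lit 0xbc0001780002fece8) b9251 (.tok (nat_lit 67) (nat_lit 0xbc0001780002ffc81) (.hit (nat_lit 14) (nat_lit 54) (nat_lit 0xbc0001780002ff6bd) b9612 (.hit (nat_lit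 17) (nat_lit 57) (nat_lit 0xbc0001780002ffc81) b9614 (.one (nat_lit 9) (nat_lit 15) (nat_lit 55) (nat_lit 0xbc0001780002ff76a) b9613 (.nil)))) (.nil)))) (.nil)))) (.one (nat_lit 70) (nat_lit 20) (nat_lit 60) (nat_lit 0xbc0001780002fecd6) b9254 (.nil)))))) (.nil))
noncomputable def r15_226 : Rw Blk := .tok (nat_lit 3) (nat_lit 0xbc0001780002fc6b2) (.hit (nat_lit 61) (nat_lit 0) (nat_lit 0xbc0001780002fc184) b31397 (.tok (nat_lit 6) (nat_lit 0xbc0001780002fc6b2) (.hit (nat_lit 62) (nat_lit 7) (nat_lit 0xbc0001780002fa695) b31398 (.hit (nat_lit 67) (nat_lit 15) (nat_lit 0xbc0001780002faa04) b31403 (.tok (nat_lit 14) (nat_lit 0xbc0001780002fc6b2) (.hit (nat_lit 63) (nat_lit 11) (nat_lit 0xbc0001780002fbc23) b31399 (.hit (nat_lit 68) (nat_lit 17) (nat_lit 0xbc0001780002fb914) b31404 (.one (nat_lit 9) (nat_lit 64) (nat_lit 12) (nat_lit 0xbc0001780002fc6b2) b31400 (.nil)))) (.tok (nat_lit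 56) (nat_lit 0xbc0001780002fc1e8) (.hit (nat_lit 65) (nat_lit 13) (nat_lit 0xbc0001780002fbe67) b31401 (.hit (nat_lit 70) (nat_lit 19) (nat_lit 0xbc0001780002fba35) b31406 (.one (nat_lit 6) (nat_lit 66) (nat_lit 14) (nat_lit 0xbc0001780002fc1e8) b31402 (.nil)))) (.one (nat_lit 68) (nat_lit 69) (nat_lit 18) (nat_lit 0xbc0001780002fc03a) b31405 (.nil)))))) (.nil))) (.tok (nat_lit 9) (nat_lit 0xbc0001780003007a3) (.hit (nat_lit 0) (nat_lit 0) (nat_lit 0xbc0001780002fcf3b) b31377 (.tok (nat_lit 9) (nat_lit 0xbc0001780002fdca8) (.hit (nat_lit 1) (nat_lit 20) (nat_lit 0xbc0001780002fc365) b31378 (.hit (nat_lit 6) (nat_lit 28) (nat_lit 0xbc0001780002fb60c) b31383 (.tok (nat_lit 14) (nat_lit 0xbc0001780002fdca8) (.hit (nat_lit 2) (nat_lit 24) (nat_lit 0xbc0001780002fd41e) b31379 (.hit (nat_lit 7) (nat_lit 30) (nat_lit 0xbc0001780002fdca8) b31384 (.one (nat_lit 6) (nat_lit 3) (nat_lit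 25) (nat_lit 0xbc0001780002fd366) b31380 (.nil)))) (.tok (nat_lit 68) (nat_lit 0xbc0001780002fd399) (.hit (nat_lit 4) (nat_lit 26) (nat_lit 0xbc0001780002fd2c4) b31381 (.hit (nat_lit 9) (nat_lit 32) (nat_lit 0xbc0001780002fd29a) b31385 (.one (nat_lit 9) (nat_lit 5) (nat_lit 27) (nat_lit 0xbc0001780002fd399) b31382 (.nil)))) (.nil))))) (.tok (nat_lit 64) (nat_lit 0xbc0001780002fd939) (.hit (nat_lit 10) (nat_lit 50) (nat_lit 0xbc0001780002fc926) b31386 (.hit (nat_lit 11) (nat_lit 51) (nat_lit 0xbc0001780002fd939) b31387 (.nil))) (.tok (nat_lit 67) (nat_lit 0xbc0001780003007a3) (.hit (nat_lit 12) (nat_lit 52) (nat_lit 0xbc0001780002fdebb) b31388 (.tok (nat_lit 3) (nat_lit 0xbc0001780002fe3c8) (.hit (nat_lit 18) (nat_lit 58) (nat_lit 0xbc0001780002fd10d) b31394 (.one (nat_lit 55) (nat_lit 19) (nat_lit 59) (nat_lit 0xbc0001780002fe3c8) b31395 (.nil))) (.tok (nat_lit 9) (nat_lit 0xbc0001780003007a3)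 (.hit (nat_lit 13) (nat_lit 53) (nat_lit 0xbc0001780002fe41d) b31389 (.hit (nat_lit 16) (nat_lit 56) (nat_lit 0xbc0001780002fe01e) b31392 (.tok (nat_lit 67) (nat_lit 0xbc0001780003007a3) (.hit (nat_lit 14) (nat_lit 54) (nat_lit 0xbc000178000300095) b31390 (.hit (nat_lit 17) (nat_lit 57) (nat_lit 0xbc0001780002fdc34) b31393 (.one (nat_lit 9) (nat_lit 15) (nat_lit 55) (nat_lit 0xbc0001780003007a3) b31391 (.nil)))) (.nil)))) (.nil)))) (.one (nat_lit 70) (nat_lit 20) (nat_lit 60) (nat_lit 0xbc0001780002fd787) b31396 (.nil)))))) (.nil))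
noncomputable def r15_227 : Rw Blk := .tok (nat_lit 3) (nat_lit 0x17ede4afc6905fbf80bf7b297f13e2fd69d) (.hit (nat_lit 0) (nat_lit 0) (nat_lit 0x17ede4afc6905fbf80bf7b297f13e2fd69d) b31407 (.tok (nat_lit 6) (nat_lit 0x17e74eafaf4d5fba52bf46797dcba2fc971) (.hit (nat_lit 1) (nat_lit 7) (nat_lit 0x17e74eafaf4d5fba52bf46797dcba2fc971) b31408 (.hit (nat_lit 6) (nat_lit 15) (nat_lit 0x17e6172facde5faa4abf3cbd7db82afc702) b31409 (.nil))) (.tok (nat_lit 9) (nat_lit 0x17e74eafaf4d5fba52bf46797dcba2fc971) (.hit (nat_lit 10) (nat_lit 20) (nat_lit 0x17e74eafaf4d5fba52bf46797dcba2fc971) b31408 (.hit (nat_lit 15) (nat_lit 28) (nat_lit 0x17e6172facde5faa4abf3cbd7db82afc702) b31409 (.nil))) (.nil)))) (.tok (nat_lit 6) (nat_lit 0x17f90d2fddea5fe28abff1c97f420aff59f) (.hit (nat_lit 81) (nat_lit 0) (nat_lit 0x17f9062fddea5fd660bfe3e17f420aff3fa) b31410 (.tok (nat_lit 3) (nat_lit 0x17f90d2fd4745fe28abff1c97e50c2ff59f)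 (.hit (nat_lit 82) (nat_lit 1) (nat_lit 0x17eb84afba075fb764bf7c8d7d8b52fda25) b31411 (.one (nat_lit 67) (nat_lit 83) (nat_lit 2) (nat_lit 0x17f90d2fd4745fe28abff1c97e50c2ff59f) b31412 (.nil))) (.tok (nat_lit 6) (nat_lit 0x17f57f2fd8445fd1d2bfb5157e2532fe7fe) (.hit (nat_lit 87) (nat_lit 7) (nat_lit 0x17f57f2fd8445fd1d2bfb5157e2532fe7fe) b31413 (.hit (nat_lit 95) (nat_lit 15) (nat_lit 0x17ec9fafb9a15fa7babf83117d4792fdbc6) b31414 (.nil))) (.nil)))) (.tok (nat_lit 9) (nat_lit 0x180000300000600000c0000180a90300000) (.hit (nat_lit 157) (nat_lit 0) (nat_lit 0x17f9062fddea5fd660bfbd117f87daff32b) b31415 (.tok (nat_lit 3) (nat_lit 0x17f90d2fd4745fe28abfc1ad800d92ff15e) (.hit (nat_lit 158) (nat_lit 1) (nat_lit 0x17eb84afba075fb764bf53c57efb42fd5e4) b31416 (.one (nat_lit 55) (nat_lit 159) (nat_lit 3) (nat_lit 0x17f90d2fd4745fe28abfc1ad800d92ff15e) b31417 (.nil))) (.tok (nat_lit 9) (nat_lit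 0x180000300000600000c0000180a90300000) (.hit (nat_lit 163) (nat_lit 20) (nat_lit 0x17f57f2fd8445fd1d2bf8ab57f57c2fe374) b31418 (.hit (nat_lit 171) (nat_lit 28) (nat_lit 0x17ec9fafb9a15fa7babf5a497f087afd785) b31422 (.tok (nat_lit 67) (nat_lit 0x180000300000600000c0000180a90300000) (.hit (nat_lit 164) (nat_lit 21) (nat_lit 0x17ff622fe7f45fe1debff7217ff87affebc) b31419 (.hit (nat_lit 172) (nat_lit 29) (nat_lit 0x17f8ebafd6225fde6ebfc91d7fdc4aff33a) b31423 (.tok (nat_lit 9) (nat_lit 0x180000300000600000c0000180a90300000) (.hit (nat_lit 165) (nat_lit 22) (nat_lit 0x17fa04afefc75fe4a4bfcac58016f2ff2ed) b31420 (.one (nat_lit 67) (nat_lit 166) (nat_lit 23) (nat_lit 0x180000300000600000c0000180a90300000) b31421 (.nil))) (.nil)))) (.nil)))) (.nil)))) (.nil)))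
noncomputable def r15_228 : Rw Blk := .tok (nat_lit 6) (nat_lit 0xbc000178000300000) (.hit (nat_lit 51) (nat_lit 0) (nat_lit 0xbc0001780002ff743) b8943 (.tok (nat_lit 3) (nat_lit 0xbc0001780002ffecc) (.hit (nat_lit 52) (nat_lit 1) (nat_lit 0xbc0001780002fdccb) b8944 (.one (nat_lit 14) (nat_lit 53) (nat_lit 4) (nat_lit 0xbc0001780002ffecc) b9239 (.one (nat_lit 56) (nat_lit 55) (nat_lit 6) (nat_lit 0xbc0001780002ff720) b8945 (.one (nat_lit 68) (nat_lit 54) (nat_lit 5) (nat_lit 0xbc0001780002fef3e) b8946 (.nil))))) (.tok (nat_lit 40) (nat_lit 0xbc0001780002ff5de) (.hit (nat_lit 56) (nat_lit 33) (nat_lit 0xbc0001780002ff5de) b8947 (.hit (nat_lit 57) (nat_lit 34) (nat_lit 0xbc0001780002ff3d8) b8948 (.nil))) (.tok (nat_lit 43) (nat_lit 0xbc000178000300000) (.hit (nat_lit 58) (nat_lit 35) (nat_lit 0xbc000178000300000) b8951 (.hit (nat_lit 59) (nat_lit 36) (nat_lit 0xbc0001780002ff6ae)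 b8952 (.nil))) (.tok (nat_lit 46) (nat_lit 0xbc0001780002ffbd8) (.hit (nat_lit 60) (nat_lit 37) (nat_lit 0xbc0001780002fe56f) b8949 (.hit (nat_lit 61) (nat_lit 38) (nat_lit 0xbc0001780002ffbd8) b8950 (.nil))) (.nil)))))) (.tok (nat_lit 9) (nat_lit 0xbc0001780002ffecc) (.hit (nat_lit 0) (nat_lit 0) (nat_lit 0xbc0001780002ff743) b8943 (.tok (nat_lit 3) (nat_lit 0xbc0001780002ffecc) (.hit (nat_lit 1) (nat_lit 1) (nat_lit 0xbc0001780002fdccb) b8944 (.one (nat_lit 14) (nat_lit 2) (nat_lit 4) (nat_lit 0xbc0001780002ffecc) b9239 (.one (nat_lit 56) (nat_lit 4) (nat_lit 6) (nat_lit 0xbc0001780002fef3e) b8946 (.one (nat_lit 68) (nat_lit 3) (nat_lit 5) (nat_lit 0xbc0001780002ff720) b8945 (.nil))))) (.nil))) (.nil))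
noncomputable def r15_229 : Rw Blk := .tok (nat_lit 3) (nat_lit 0xbc0001780002fde12) (.hit (nat_lit 61) (nat_lit 0) (nat_lit 0xbc0001780002fd24b) b8970 (.tok (nat_lit 9) (nat_lit 0xbc0001780002fd581) (.hit (nat_lit 62) (nat_lit 20) (nat_lit 0xbc0001780002fbbf9) b8971 (.hit (nat_lit 67) (nat_lit 28) (nat_lit 0xbc0001780002fadd7) b8974 (.tok (nat_lit 14) (nat_lit 0xbc0001780002fcdff) (.hit (nat_lit 63) (nat_lit 24) (nat_lit 0xbc0001780002fbe0c) b9665 (.hit (nat_lit 68) (nat_lit 30) (nat_lit 0xbc0001780002fc1ee) b9667 (.one (nat_lit 6) (nat_lit 64) (nat_lit 25) (nat_lit 0xbc0001780002fcdff) b9666 (.nil)))) (.tok (nat_lit 68) (nat_lit 0xbc0001780002fd581) (.hit (nat_lit 65) (nat_lit 26) (nat_lit 0xbc0001780002fcd73) b8972 (.hit (nat_lit 70) (nat_lit 32) (nat_lit 0xbc0001780002fbed5) b8976 (.one (nat_lit 9) (nat_lit 66) (nat_lit 27) (nat_lit 0xbc0001780002fd581) b8973 (.nil)))) (.nil)))))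 (.tok (nat_lit 64) (nat_lit 0xbc0001780002fc70f) (.hit (nat_lit 71) (nat_lit 50) (nat_lit 0xbc0001780002fbf8c) b8977 (.hit (nat_lit 72) (nat_lit 51) (nat_lit 0xbc0001780002fc70f) b8978 (.nil))) (.tok (nat_lit 67) (nat_lit 0xbc0001780002fde12) (.hit (nat_lit 73) (nat_lit 52) (nat_lit 0xbc0001780002fdd96) b8979 (.tok (nat_lit 3) (nat_lit 0xbc0001780002fde12) (.hit (nat_lit 79) (nat_lit 58) (nat_lit 0xbc0001780002fd3b5) b8985 (.one (nat_lit 55) (nat_lit 80) (nat_lit 59) (nat_lit 0xbc0001780002fde12) b9668 (.nil))) (.tok (nat_lit 9) (nat_lit 0xbc0001780002fd8c9) (.hit (nat_lit 74) (nat_lit 53) (nat_lit 0xbc0001780002fc8f3) b8980 (.hit (nat_lit 77) (nat_lit 56) (nat_lit 0xbc0001780002fcc00) b8983 (.tok (nat_lit 67) (nat_lit 0xbc0001780002fd8c9) (.hit (nat_lit 75) (nat_lit 54) (nat_lit 0xbc0001780002fd809) b8981 (.hit (nat_lit 78) (nat_lit 57) (nat_lit 0xbc0001780002fd8c9) b8984 (.one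 (nat_lit 9) (nat_lit 76) (nat_lit 55) (nat_lit 0xbc0001780002fd3cd) b8982 (.nil)))) (.nil)))) (.nil)))) (.one (nat_lit 70) (nat_lit 81) (nat_lit 60) (nat_lit 0xbc0001780002fc7be) b8986 (.nil)))))) (.tok (nat_lit 6) (nat_lit 0xbc000178000300000) (.hit (nat_lit 0) (nat_lit 0) (nat_lit 0xbc0001780002feb42) b8953 (.tok (nat_lit 6) (nat_lit 0xbc000178000300000) (.hit (nat_lit 1) (nat_lit 7) (nat_lit 0xbc0001780002fd8ca) b8954 (.hit (nat_lit 6) (nat_lit 15) (nat_lit 0xbc0001780002fc64d) b8957 (.tok (nat_lit 14) (nat_lit 0xbc0001780002ff85a) (.hit (nat_lit 2) (nat_lit 11) (nat_lit 0xbc0001780002ff85a) b9662 (.hit (nat_lit 7) (nat_lit 17) (nat_lit 0xbc0001780002fe69f) b9664 (.one (nat_lit 9) (nat_lit 3) (nat_lit 12) (nat_lit 0xbc0001780002ff70f) b9663 (.nil)))) (.tok (nat_lit 56) (nat_lit 0xbc000178000300000) (.hit (nat_lit 4) (nat_lit 13) (nat_lit 0xbc0001780002fefdc) b8955 (.hit (nat_lit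 9) (nat_lit 19) (nat_lit 0xbc0001780002fd664) b8959 (.one (nat_lit 6) (nat_lit 5) (nat_lit 14) (nat_lit 0xbc000178000300000) b8956 (.nil)))) (.one (nat_lit 68) (nat_lit 8) (nat_lit 18) (nat_lit 0xbc0001780002fdb60) b8958 (.nil)))))) (.nil))) (.nil))
noncomputable def r15_230 : Rw Blk := .tok (nat_lit 3) (nat_lit 0xbc000178000300000) (.hit (nat_lit 61) (nat_lit 0) (nat_lit 0xbc0001780002fe458) b9679 (.tok (nat_lit 9) (nat_lit 0xbc0001780002fe986) (.hit (nat_lit 62) (nat_lit 20) (nat_lit 0xbc0001780002fc969) b9680 (.hit (nat_lit 67) (nat_lit 28) (nat_lit 0xbc0001780002fccd8) b9685 (.tok (nat_lit 14) (nat_lit 0xbc0001780002fe986) (.hit (nat_lit 63) (nat_lit 24) (nat_lit 0xbc0001780002fdef7) b9681 (.hit (nat_lit 68) (nat_lit 30) (nat_lit 0xbc0001780002fdbe8) b9686 (.one (nat_lit 6) (nat_lit 64) (nat_lit 25) (nat_lit 0xbc0001780002fe986) b9682 (.nil)))) (.tok (nat_lit 68) (nat_lit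 0xbc0001780002fe4bc) (.hit (nat_lit 65) (nat_lit 26) (nat_lit 0xbc0001780002fe13b) b9683 (.hit (nat_lit 70) (nat_lit 32) (nat_lit 0xbc0001780002fdd09) b9687 (.one (nat_lit 9) (nat_lit 66) (nat_lit 27) (nat_lit 0xbc0001780002fe4bc) b9684 (.nil)))) (.nil))))) (.tok (nat_lit 64) (nat_lit 0xbc0001780002fe727) (.hit (nat_lit 71) (nat_lit 50) (nat_lit 0xbc0001780002fdff1) b9688 (.hit (nat_lit 72) (nat_lit 51) (nat_lit 0xbc0001780002fe727) b9689 (.nil))) (.tok (nat_lit 67) (nat_lit 0xbc000178000300000) (.hit (nat_lit 73) (nat_lit 52) (nat_lit 0xbc0001780002ff6c3) b9690 (.tok (nat_lit 3) (nat_lit 0xbc0001780002ff70a) (.hit (nat_lit 79) (nat_lit 58) (nat_lit 0xbc0001780002fef58) b9696 (.one (nat_lit 55) (nat_lit 80) (nat_lit 59) (nat_lit 0xbc0001780002ff70a) b9697 (.nil))) (.tok (nat_lit 9) (nat_lit 0xbc000178000300000) (.hit (nat_lit 74) (nat_lit 53) (nat_lit 0xbc0001780002ff8b2) b9691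 (.hit (nat_lit 77) (nat_lit 56) (nat_lit 0xbc0001780002fe613) b9694 (.tok (nat_lit 67) (nat_lit 0xbc000178000300000) (.hit (nat_lit 75) (nat_lit 54) (nat_lit 0xbc000178000300000) b9692 (.hit (nat_lit 78) (nat_lit 57) (nat_lit 0xbc0001780002ff758) b9695 (.one (nat_lit 9) (nat_lit 76) (nat_lit 55) (nat_lit 0xbc0001780002ff868) b9693 (.nil)))) (.nil)))) (.nil)))) (.one (nat_lit 70) (nat_lit 81) (nat_lit 60) (nat_lit 0xbc0001780002fe6b7) b9698 (.nil)))))) (.tok (nat_lit 6) (nat_lit 0xbc0001780002fff7c) (.hit (nat_lit 0) (nat_lit 0) (nat_lit 0xbc0001780002ff20f) b9669 (.tok (nat_lit 6) (nat_lit 0xbc0001780002fff7c) (.hit (nat_lit 1) (nat_lit 7) (nat_lit 0xbc0001780002fe639) b9670 (.hit (nat_lit 6) (nat_lit 15) (nat_lit 0xbc0001780002fd8e0) b9675 (.tok (nat_lit 14) (nat_lit 0xbc0001780002fff7c) (.hit (nat_lit 2) (nat_lit 11) (nat_lit 0xbc0001780002ff6f2) b9671 (.hit (nat_lit 7) (nat_lit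 17) (nat_lit 0xbc0001780002fff7c) b9676 (.one (nat_lit 9) (nat_lit 3) (nat_lit 12) (nat_lit 0xbc0001780002ff63a) b9672 (.nil)))) (.tok (nat_lit 56) (nat_lit 0xbc0001780002ff66d) (.hit (nat_lit 4) (nat_lit 13) (nat_lit 0xbc0001780002ff598) b9673 (.hit (nat_lit 9) (nat_lit 19) (nat_lit 0xbc0001780002ff56e) b9678 (.one (nat_lit 6) (nat_lit 5) (nat_lit 14) (nat_lit 0xbc0001780002ff66d) b9674 (.nil)))) (.one (nat_lit 68) (nat_lit 8) (nat_lit 18) (nat_lit 0xbc0001780002ff5ca) b9677 (.nil)))))) (.nil))) (.nil))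
noncomputable def r15_231 : Rw Blk := .tok (nat_lit 3) (nat_lit 0xbc0001780002fddcf) (.hit (nat_lit 61) (nat_lit 0) (nat_lit 0xbc0001780002fd208) b9255 (.tok (nat_lit 6) (nat_lit 0xbc0001780002fcdbc) (.hit (nat_lit 62) (nat_lit 7) (nat_lit 0xbc0001780002fbbb6) b9256 (.hit (nat_lit 67) (nat_lit 15) (nat_lit 0xbc0001780002fad94) b9261 (.tok (nat_lit 14) (nat_lit 0xbc0001780002fcdbc) (.hit (nat_lit 63) (nat_lit 11) (nat_lit 0xbc0001780002fbdc9) b9257 (.hit (nat_lit 68) (nat_lit 17) (nat_lit 0xbc0001780002fc1ab) b9262 (.one (nat_lit 9) (nat_lit 64) (nat_lit 12) (nat_lit 0xbc0001780002fcdbc) b9258 (.nil)))) (.one (nat_lit 68) (nat_lit 69) (nat_lit 18) (nat_lit 0xbc0001780002fc012) b9263 (.nil))))) (.tok (nat_lit 52) (nat_lit 0xbc0001780002fc6cc) (.hit (nat_lit 71) (nat_lit 39) (nat_lit 0xbc0001780002fbf49) b9265 (.hit (nat_lit 72) (nat_lit 40) (nat_lit 0xbc0001780002fc6cc) b9266 (.nil)))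 (.tok (nat_lit 55) (nat_lit 0xbc0001780002fddcf) (.hit (nat_lit 73) (nat_lit 41) (nat_lit 0xbc0001780002fdd53) b9267 (.tok (nat_lit 3) (nat_lit 0xbc0001780002fddcf) (.hit (nat_lit 79) (nat_lit 47) (nat_lit 0xbc0001780002fd372) b9273 (.one (nat_lit 67) (nat_lit 80) (nat_lit 48) (nat_lit 0xbc0001780002fddcf) b9274 (.nil))) (.tok (nat_lit 6) (nat_lit 0xbc0001780002fcbbd) (.hit (nat_lit 74) (nat_lit 42) (nat_lit 0xbc0001780002fc8b0) b9268 (.hit (nat_lit 77) (nat_lit 45) (nat_lit 0xbc0001780002fcbbd) b9271 (.nil))) (.nil)))) (.one (nat_lit 58) (nat_lit 81) (nat_lit 49) (nat_lit 0xbc0001780002fc77b) b9275 (.nil)))))) (.tok (nat_lit 9) (nat_lit 0xbc000178000300000) (.hit (nat_lit 0) (nat_lit 0) (nat_lit 0xbc0001780002feaff) b9240 (.tok (nat_lit 9) (nat_lit 0xbc0001780002fffbd) (.hit (nat_lit 1) (nat_lit 20) (nat_lit 0xbc0001780002fd887) b9241 (.hit (nat_lit 6) (nat_lit 28) (nat_lit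 0xbc0001780002fc60a) b9244 (.tok (nat_lit 14) (nat_lit 0xbc0001780002ff817) (.hit (nat_lit 2) (nat_lit 24) (nat_lit 0xbc0001780002ff817) b9242 (.hit (nat_lit 7) (nat_lit 30) (nat_lit 0xbc0001780002fe65c) b9245 (.one (nat_lit 6) (nat_lit 3) (nat_lit 25) (nat_lit 0xbc0001780002ff6cc) b9243 (.nil)))) (.one (nat_lit 56) (nat_lit 8) (nat_lit 31) (nat_lit 0xbc0001780002fdb1d) b9246 (.tok (nat_lit 68) (nat_lit 0xbc0001780002fffbd) (.hit (nat_lit 4) (nat_lit 26) (nat_lit 0xbc0001780002fef99) b9609 (.hit (nat_lit 9) (nat_lit 32) (nat_lit 0xbc0001780002fd621) b9611 (.one (nat_lit 9) (nat_lit 5) (nat_lit 27) (nat_lit 0xbc0001780002fffbd) b9610 (.nil)))) (.nil)))))) (.tok (nat_lit 64) (nat_lit 0xbc0001780002feaaa) (.hit (nat_lit 10) (nat_lit 50) (nat_lit 0xbc0001780002fdd77) b9247 (.hit (nat_lit 11) (nat_lit 51) (nat_lit 0xbc0001780002feaaa) b9248 (.nil))) (.tok (nat_lit 67) (nat_lit 0xbc000178000300000)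 (.hit (nat_lit 12) (nat_lit 52) (nat_lit 0xbc0001780002ff885) b9249 (.tok (nat_lit 3) (nat_lit 0xbc000178000300000) (.hit (nat_lit 18) (nat_lit 58) (nat_lit 0xbc0001780002fec8d) b9252 (.one (nat_lit 55) (nat_lit 19) (nat_lit 59) (nat_lit 0xbc000178000300000) b9253 (.nil))) (.tok (nat_lit 9) (nat_lit 0xbc0001780002ffc81) (.hit (nat_lit 13) (nat_lit 53) (nat_lit 0xbc0001780002fe0f2) b9250 (.hit (nat_lit 16) (nat_lit 56) (nat_lit 0xbc0001780002fece8) b9251 (.tok (nat_lit 67) (nat_lit 0xbc0001780002ffc81) (.hit (nat_lit 14) (nat_lit 54) (nat_lit 0xbc0001780002ff6bd) b9612 (.hit (nat_lit 17) (nat_lit 57) (nat_lit 0xbc0001780002ffc81) b9614 (.one (nat_lit 9) (nat_lit 15) (nat_lit 55) (nat_lit 0xbc0001780002ff76a) b9613 (.nil)))) (.nil)))) (.nil)))) (.one (nat_lit 70) (nat_lit 20) (nat_lit 60) (nat_lit 0xbc0001780002fecd6) b9254 (.nil)))))) (.nil))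
noncomputable def r15_232 : Rw Blk := .tok (nat_lit 3) (nat_lit 0xbc0001780002fd5bd) (.hit (nat_lit 61) (nat_lit 0) (nat_lit 0xbc0001780002fc163) b31445 (.tok (nat_lit 6) (nat_lit 0xbc0001780002fc691) (.hit (nat_lit 62) (nat_lit 7) (nat_lit 0xbc0001780002fa674) b31446 (.hit (nat_lit 67) (nat_lit 15) (nat_lit 0xbc0001780002fa9e3) b31449 (.tok (nat_lit 14) (nat_lit 0xbc0001780002fc691) (.hit (nat_lit 63) (nat_lit 11) (nat_lit 0xbc0001780002fbc02) b31447 (.hit (nat_lit 68) (nat_lit 17) (nat_lit 0xbc0001780002fb8f3) b31450 (.one (nat_lit 9) (nat_lit 64) (nat_lit 12) (nat_lit 0xbc0001780002fc691) b31448 (.nil)))) (.one (nat_lit 68) (nat_lit 69) (nat_lit 18) (nat_lit 0xbc0001780002fc019) b31451 (.nil))))) (.tok (nat_lit 52) (nat_lit 0xbc0001780002fc432) (.hit (nat_lit 71) (nat_lit 39) (nat_lit 0xbc0001780002fbcfc) b31452 (.hit (nat_lit 72) (nat_lit 40) (nat_lit 0xbc0001780002fc432)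 b31453 (.nil))) (.tok (nat_lit 55) (nat_lit 0xbc0001780002fd5bd) (.hit (nat_lit 73) (nat_lit 41) (nat_lit 0xbc0001780002fd3ce) b31454 (.tok (nat_lit 3) (nat_lit 0xbc0001780002fd415) (.hit (nat_lit 79) (nat_lit 47) (nat_lit 0xbc0001780002fcc63) b31457 (.one (nat_lit 67) (nat_lit 80) (nat_lit 48) (nat_lit 0xbc0001780002fd415) b31458 (.nil))) (.tok (nat_lit 6) (nat_lit 0xbc0001780002fd5bd) (.hit (nat_lit 74) (nat_lit 42) (nat_lit 0xbc0001780002fd5bd) b31455 (.hit (nat_lit 77) (nat_lit 45) (nat_lit 0xbc0001780002fc31e) b31456 (.nil))) (.nil)))) (.one (nat_lit 58) (nat_lit 81) (nat_lit 49) (nat_lit 0xbc0001780002fc3c2) b31459 (.nil)))))) (.tok (nat_lit 9) (nat_lit 0xbc000178000300782) (.hit (nat_lit 0) (nat_lit 0) (nat_lit 0xbc0001780002fcf1a) b31424 (.tok (nat_lit 9) (nat_lit 0xbc0001780002fdc87) (.hit (nat_lit 1) (nat_lit 20) (nat_lit 0xbc0001780002fc344) b31425 (.hit (nat_lit 6)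 (nat_lit 28) (nat_lit 0xbc0001780002fb5eb) b31430 (.tok (nat_lit 14) (nat_lit 0xbc0001780002fdc87) (.hit (nat_lit 2) (nat_lit 24) (nat_lit 0xbc0001780002fd3fd) b31426 (.hit (nat_lit 7) (nat_lit 30) (nat_lit 0xbc0001780002fdc87) b31431 (.one (nat_lit 6) (nat_lit 3) (nat_lit 25) (nat_lit 0xbc0001780002fd345) b31427 (.nil)))) (.one (nat_lit 56) (nat_lit 8) (nat_lit 31) (nat_lit 0xbc0001780002fd2d5) b31432 (.tok (nat_lit 68) (nat_lit 0xbc0001780002fd378) (.hit (nat_lit 4) (nat_lit 26) (nat_lit 0xbc0001780002fd2a3) b31428 (.hit (nat_lit 9) (nat_lit 32) (nat_lit 0xbc0001780002fd279) b31433 (.one (nat_lit 9) (nat_lit 5) (nat_lit 27) (nat_lit 0xbc0001780002fd378) b31429 (.nil)))) (.nil)))))) (.tok (nat_lit 64) (nat_lit 0xbc0001780002fd918) (.hit (nat_lit 10) (nat_lit 50) (nat_lit 0xbc0001780002fc905) b31434 (.hit (nat_lit 11) (nat_lit 51) (nat_lit 0xbc0001780002fd918) b31435 (.nil)))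 (.tok (nat_lit 67) (nat_lit 0xbc000178000300782) (.hit (nat_lit 12) (nat_lit 52) (nat_lit 0xbc0001780002fde9a) b31436 (.tok (nat_lit 3) (nat_lit 0xbc0001780002fe3a7) (.hit (nat_lit 18) (nat_lit 58) (nat_lit 0xbc0001780002fd0ec) b31442 (.one (nat_lit 55) (nat_lit 19) (nat_lit 59) (nat_lit 0xbc0001780002fe3a7) b31443 (.nil))) (.tok (nat_lit 9) (nat_lit 0xbc000178000300782) (.hit (nat_lit 13) (nat_lit 53) (nat_lit 0xbc0001780002fe3fc) b31437 (.hit (nat_lit 16) (nat_lit 56) (nat_lit 0xbc0001780002fdffd) b31440 (.tok (nat_lit 67) (nat_lit 0xbc000178000300782) (.hit (nat_lit 14) (nat_lit 54) (nat_lit 0xbc000178000300074) b31438 (.hit (nat_lit 17) (nat_lit 57) (nat_lit 0xbc0001780002fdc13) b31441 (.one (nat_lit 9) (nat_lit 15) (nat_lit 55) (nat_lit 0xbc000178000300782) b31439 (.nil)))) (.nil)))) (.nil)))) (.one (nat_lit 70) (nat_lit 20) (nat_lit 60) (nat_lit 0xbc0001780002fd766) b31444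 (.nil)))))) (.nil))
noncomputable def r15_233 : Rw Blk := .tok (nat_lit 3) (nat_lit 0x17ede4afc6905fbf80bf822d7f1aa2fd279) (.hit (nat_lit 0) (nat_lit 0) (nat_lit 0x17ede4afc6905fbf80bf822d7f1aa2fd279) b31460 (.tok (nat_lit 6) (nat_lit 0x17e74eafaf4d5fba52bf41497dd262fc24d) (.hit (nat_lit 1) (nat_lit 7) (nat_lit 0x17e74eafaf4d5fba52bf41497dd262fc24d) b31461 (.hit (nat_lit 6) (nat_lit 15) (nat_lit 0x17e6172facde5faa4abf378d7dbeeafbfde) b31462 (.nil))) (.tok (nat_lit 9) (nat_lit 0x17e74eafaf4d5fba52bf41497dd262fc24d) (.hit (nat_lit 10) (nat_lit 20) (nat_lit 0x17e74eafaf4d5fba52bf41497dd262fc24d) b31461 (.hit (nat_lit 15) (nat_lit 28) (nat_lit 0x17e6172facde5faa4abf378d7dbeeafbfde) b31462 (.nil))) (.nil)))) (.tok (nat_lit 6) (nat_lit 0x180000300000600000c00001807adb00000) (.hit (nat_lit 81) (nat_lit 0) (nat_lit 0x17f9062fddea5fd660bfc4157f89c2fee43) b31463 (.tok (nat_lit 3) (nat_lit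 0x17f90d2fd4745fe28abfc8b1800ddafed36) (.hit (nat_lit 82) (nat_lit 1) (nat_lit 0x17eb84afba075fb764bf5ac97f0202fd1bc) b31464 (.one (nat_lit 67) (nat_lit 83) (nat_lit 2) (nat_lit 0x17f90d2fd4745fe28abfc8b1800ddafed36) b31465 (.nil))) (.tok (nat_lit 6) (nat_lit 0x180000300000600000c00001807adb00000) (.hit (nat_lit 87) (nat_lit 7) (nat_lit 0x17f57f2fd8445fd1d2bf91bd7f6972fdf95) b31466 (.hit (nat_lit 95) (nat_lit 15) (nat_lit 0x17ec9fafb9a15fa7babf614d7f0f3afd35d) b31470 (.tok (nat_lit 55) (nat_lit 0x180000300000600000c00001807adb00000) (.hit (nat_lit 88) (nat_lit 8) (nat_lit 0x17ff622fe7f45fe1debffe258000caffa94) b31467 (.hit (nat_lit 96) (nat_lit 16) (nat_lit 0x17f8ebafd6225fde6ebfd0217fe30afef12) b31471 (.tok (nat_lit 6) (nat_lit 0x180000300000600000c00001807adb00000) (.hit (nat_lit 89) (nat_lit 9) (nat_lit 0x17fa04afefc75fe4a4bfcec9802de2ff46a) b31468 (.one (nat_lit 55) (nat_lit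 90) (nat_lit 10) (nat_lit 0x180000300000600000c00001807adb00000) b31469 (.nil))) (.nil)))) (.nil)))) (.nil)))) (.tok (nat_lit 9) (nat_lit 0x17f90d2fddea5fe28abff7557f48caff00d) (.hit (nat_lit 157) (nat_lit 0) (nat_lit 0x17f9062fddea5fd660bfeae57f48caff00d) b31472 (.tok (nat_lit 3) (nat_lit 0x17f90d2fd4745fe28abff7557e5782fee36) (.hit (nat_lit 158) (nat_lit 1) (nat_lit 0x17eb84afba075fb764bf83917d9212fd5fd) b31473 (.one (nat_lit 55) (nat_lit 159) (nat_lit 3) (nat_lit 0x17f90d2fd4745fe28abff7557e5782fee36) b31474 (.nil))) (.tok (nat_lit 9) (nat_lit 0x17f57f2fd8445fd1d2bfbc397e2bf2fe3d8) (.hit (nat_lit 163) (nat_lit 20) (nat_lit 0x17f57f2fd8445fd1d2bfbc397e2bf2fe3d8) b31475 (.hit (nat_lit 171) (nat_lit 28) (nat_lit 0x17ec9fafb9a15fa7babf8a157d4e52fd79e) b31476 (.nil))) (.nil)))) (.nil)))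
noncomputable def r15_234 : Rw Blk := .tok (nat_lit 6) (nat_lit 0xbc0001780002ffecc) (.hit (nat_lit 51) (nat_lit 0) (nat_lit 0xbc0001780002ff743) b8943 (.tok (nat_lit 3) (nat_lit 0xbc0001780002ffecc) (.hit (nat_lit 52) (nat_lit 1) (nat_lit 0xbc0001780002fdccb) b8944 (.one (nat_lit 14) (nat_lit 53) (nat_lit 4) (nat_lit 0xbc0001780002ffecc) b9239 (.one (nat_lit 56) (nat_lit 55) (nat_lit 6) (nat_lit 0xbc0001780002ff720) b8945 (.one (nat_lit 68) (nat_lit 54) (nat_lit 5) (nat_lit 0xbc0001780002fef3e) b8946 (.nil))))) (.nil))) (.tok (nat_lit 9) (nat_lit 0xbc000178000300000) (.hit (nat_lit 0) (nat_lit 0) (nat_lit 0xbc0001780002ff743) b8943 (.tok (nat_lit 3) (nat_lit 0xbc0001780002ffecc) (.hit (nat_lit 1) (nat_lit 1) (nat_lit 0xbc0001780002fdccb) b8944 (.one (nat_lit 14) (nat_lit 2) (nat_lit 4) (nat_lit 0xbc0001780002ffecc) b9239 (.one (nat_lit 56) (nat_lit 4) (nat_lit 6) (nat_lit 0xbc0001780002fef3e)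 b8946 (.one (nat_lit 68) (nat_lit 3) (nat_lit 5) (nat_lit 0xbc0001780002ff720) b8945 (.nil))))) (.tok (nat_lit 40) (nat_lit 0xbc0001780002ff5de) (.hit (nat_lit 5) (nat_lit 33) (nat_lit 0xbc0001780002ff5de) b8947 (.hit (nat_lit 6) (nat_lit 34) (nat_lit 0xbc0001780002ff3d8) b8948 (.nil))) (.tok (nat_lit 43) (nat_lit 0xbc0001780002ffbd8) (.hit (nat_lit 7) (nat_lit 35) (nat_lit 0xbc0001780002fe56f) b8949 (.hit (nat_lit 8) (nat_lit 36) (nat_lit 0xbc0001780002ffbd8) b8950 (.nil))) (.tok (nat_lit 46) (nat_lit 0xbc000178000300000) (.hit (nat_lit 9) (nat_lit 37) (nat_lit 0xbc000178000300000) b8951 (.hit (nat_lit 10) (nat_lit 38) (nat_lit 0xbc0001780002ff6ae) b8952 (.nil))) (.nil)))))) (.nil))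
noncomputable def r15_235 : Rw Blk := .tok (nat_lit 3) (nat_lit 0xbc0001780002fddcf) (.hit (nat_lit 61) (nat_lit 0) (nat_lit 0xbc0001780002fd208) b9255 (.tok (nat_lit 9) (nat_lit 0xbc0001780002fcdbc) (.hit (nat_lit 62) (nat_lit 20) (nat_lit 0xbc0001780002fbbb6) b9256 (.hit (nat_lit 67) (nat_lit 28) (nat_lit 0xbc0001780002fad94) b9261 (.tok (nat_lit 14) (nat_lit 0xbc0001780002fcdbc) (.hit (nat_lit 63) (nat_lit 24) (nat_lit 0xbc0001780002fbdc9) b9257 (.hit (nat_lit 68) (nat_lit 30) (nat_lit 0xbc0001780002fc1ab) b9262 (.one (nat_lit 6) (nat_lit 64) (nat_lit 25) (nat_lit 0xbc0001780002fcdbc) b9258 (.nil)))) (.one (nat_lit 56) (nat_lit 69) (nat_lit 31) (nat_lit 0xbc0001780002fc012) b9263 (.nil))))) (.tok (nat_lit 64) (nat_lit 0xbc0001780002fc6cc) (.hit (nat_lit 71) (nat_lit 50) (nat_lit 0xbc0001780002fbf49) b9265 (.hit (nat_lit 72) (nat_lit 51) (nat_lit 0xbc0001780002fc6cc) b9266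 (.nil))) (.tok (nat_lit 67) (nat_lit 0xbc0001780002fddcf) (.hit (nat_lit 73) (nat_lit 52) (nat_lit 0xbc0001780002fdd53) b9267 (.tok (nat_lit 3) (nat_lit 0xbc0001780002fddcf) (.hit (nat_lit 79) (nat_lit 58) (nat_lit 0xbc0001780002fd372) b9273 (.one (nat_lit 55) (nat_lit 80) (nat_lit 59) (nat_lit 0xbc0001780002fddcf) b9274 (.nil))) (.tok (nat_lit 9) (nat_lit 0xbc0001780002fcbbd) (.hit (nat_lit 74) (nat_lit 53) (nat_lit 0xbc0001780002fc8b0) b9268 (.hit (nat_lit 77) (nat_lit 56) (nat_lit 0xbc0001780002fcbbd) b9271 (.nil))) (.nil)))) (.one (nat_lit 70) (nat_lit 81) (nat_lit 60) (nat_lit 0xbc0001780002fc77b) b9275 (.nil)))))) (.tok (nat_lit 6) (nat_lit 0xbc000178000300000) (.hit (nat_lit 0) (nat_lit 0) (nat_lit 0xbc0001780002feaff) b9240 (.tok (nat_lit 6) (nat_lit 0xbc0001780002fffbd) (.hit (nat_lit 1) (nat_lit 7) (nat_lit 0xbc0001780002fd887) b9241 (.hit (nat_lit 6) (nat_lit 15) (nat_lit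 0xbc0001780002fc60a) b9244 (.tok (nat_lit 14) (nat_lit 0xbc0001780002ff817) (.hit (nat_lit 2) (nat_lit 11) (nat_lit 0xbc0001780002ff817) b9242 (.hit (nat_lit 7) (nat_lit 17) (nat_lit 0xbc0001780002fe65c) b9245 (.one (nat_lit 9) (nat_lit 3) (nat_lit 12) (nat_lit 0xbc0001780002ff6cc) b9243 (.nil)))) (.tok (nat_lit 56) (nat_lit 0xbc0001780002fffbd) (.hit (nat_lit 4) (nat_lit 13) (nat_lit 0xbc0001780002fef99) b9609 (.hit (nat_lit 9) (nat_lit 19) (nat_lit 0xbc0001780002fd621) b9611 (.one (nat_lit 6) (nat_lit 5) (nat_lit 14) (nat_lit 0xbc0001780002fffbd) b9610 (.nil)))) (.one (nat_lit 68) (nat_lit 8) (nat_lit 18) (nat_lit 0xbc0001780002fdb1d) b9246 (.nil)))))) (.tok (nat_lit 52) (nat_lit 0xbc0001780002feaaa) (.hit (nat_lit 10) (nat_lit 39) (nat_lit 0xbc0001780002fdd77) b9247 (.hit (nat_lit 11) (nat_lit 40) (nat_lit 0xbc0001780002feaaa) b9248 (.nil))) (.tok (nat_lit 55) (nat_lit 0xbc000178000300000)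 (.hit (nat_lit 12) (nat_lit 41) (nat_lit 0xbc0001780002ff885) b9249 (.tok (nat_lit 3) (nat_lit 0xbc000178000300000) (.hit (nat_lit 18) (nat_lit 47) (nat_lit 0xbc0001780002fec8d) b9252 (.one (nat_lit 67) (nat_lit 19) (nat_lit 48) (nat_lit 0xbc000178000300000) b9253 (.nil))) (.tok (nat_lit 6) (nat_lit 0xbc0001780002ffc81) (.hit (nat_lit 13) (nat_lit 42) (nat_lit 0xbc0001780002fe0f2) b9250 (.hit (nat_lit 16) (nat_lit 45) (nat_lit 0xbc0001780002fece8) b9251 (.tok (nat_lit 55) (nat_lit 0xbc0001780002ffc81) (.hit (nat_lit 14) (nat_lit 43) (nat_lit 0xbc0001780002ff6bd) b9612 (.hit (nat_lit 17) (nat_lit 46) (nat_lit 0xbc0001780002ffc81) b9614 (.one (nat_lit 6) (nat_lit 15) (nat_lit 44) (nat_lit 0xbc0001780002ff76a) b9613 (.nil)))) (.nil)))) (.nil)))) (.one (nat_lit 58) (nat_lit 20) (nat_lit 49) (nat_lit 0xbc0001780002fecd6) b9254 (.nil)))))) (.nil))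
noncomputable def r15_236 : Rw Blk := .tok (nat_lit 3) (nat_lit 0xbc0001780002fd59f) (.hit (nat_lit 61) (nat_lit 0) (nat_lit 0xbc0001780002fc145) b31498 (.tok (nat_lit 9) (nat_lit 0xbc0001780002fc673) (.hit (nat_lit 62) (nat_lit 20) (nat_lit 0xbc0001780002fa656) b31499 (.hit (nat_lit 67) (nat_lit 28) (nat_lit 0xbc0001780002fa9c5) b31502 (.tok (nat_lit 14) (nat_lit 0xbc0001780002fc673) (.hit (nat_lit 63) (nat_lit 24) (nat_lit 0xbc0001780002fbbe4) b31500 (.hit (nat_lit 68) (nat_lit 30) (nat_lit 0xbc0001780002fb8d5) b31503 (.one (nat_lit 6) (nat_lit 64) (nat_lit 25) (nat_lit 0xbc0001780002fc673) b31501 (.nil)))) (.one (nat_lit 56) (nat_lit 69) (nat_lit 31) (nat_lit 0xbc0001780002fbffb) b31504 (.nil))))) (.tok (nat_lit 64) (nat_lit 0xbc0001780002fc414) (.hit (nat_lit 71) (nat_lit 50) (nat_lit 0xbc0001780002fbcde) b31505 (.hit (nat_lit 72) (nat_lit 51) (nat_lit 0xbc0001780002fc414)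 b31506 (.nil))) (.tok (nat_lit 67) (nat_lit 0xbc0001780002fd59f) (.hit (nat_lit 73) (nat_lit 52) (nat_lit 0xbc0001780002fd3b0) b31507 (.tok (nat_lit 3) (nat_lit 0xbc0001780002fd3f7) (.hit (nat_lit 79) (nat_lit 58) (nat_lit 0xbc0001780002fcc45) b31510 (.one (nat_lit 55) (nat_lit 80) (nat_lit 59) (nat_lit 0xbc0001780002fd3f7) b31511 (.nil))) (.tok (nat_lit 9) (nat_lit 0xbc0001780002fd59f) (.hit (nat_lit 74) (nat_lit 53) (nat_lit 0xbc0001780002fd59f) b31508 (.hit (nat_lit 77) (nat_lit 56) (nat_lit 0xbc0001780002fc300) b31509 (.nil))) (.nil)))) (.one (nat_lit 70) (nat_lit 81) (nat_lit 60) (nat_lit 0xbc0001780002fc3a4) b31512 (.nil)))))) (.tok (nat_lit 6) (nat_lit 0xbc000178000300764) (.hit (nat_lit 0) (nat_lit 0) (nat_lit 0xbc0001780002fcefc) b31477 (.tok (nat_lit 6) (nat_lit 0xbc0001780002fdc69) (.hit (nat_lit 1) (nat_lit 7) (nat_lit 0xbc0001780002fc326) b31478 (.hit (nat_lit 6)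 (nat_lit 15) (nat_lit 0xbc0001780002fb5cd) b31483 (.tok (nat_lit 14) (nat_lit 0xbc0001780002fdc69) (.hit (nat_lit 2) (nat_lit 11) (nat_lit 0xbc0001780002fd3df) b31479 (.hit (nat_lit 7) (nat_lit 17) (nat_lit 0xbc0001780002fdc69) b31484 (.one (nat_lit 9) (nat_lit 3) (nat_lit 12) (nat_lit 0xbc0001780002fd327) b31480 (.nil)))) (.tok (nat_lit 56) (nat_lit 0xbc0001780002fd35a) (.hit (nat_lit 4) (nat_lit 13) (nat_lit 0xbc0001780002fd285) b31481 (.hit (nat_lit 9) (nat_lit 19) (nat_lit 0xbc0001780002fd25b) b31486 (.one (nat_lit 6) (nat_lit 5) (nat_lit 14) (nat_lit 0xbc0001780002fd35a) b31482 (.nil)))) (.one (nat_lit 68) (nat_lit 8) (nat_lit 18) (nat_lit 0xbc0001780002fd2b7) b31485 (.nil)))))) (.tok (nat_lit 52) (nat_lit 0xbc0001780002fd8fa) (.hit (nat_lit 10) (nat_lit 39) (nat_lit 0xbc0001780002fc8e7) b31487 (.hit (nat_lit 11) (nat_lit 40) (nat_lit 0xbc0001780002fd8fa) b31488 (.nil)))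 (.tok (nat_lit 55) (nat_lit 0xbc000178000300764) (.hit (nat_lit 12) (nat_lit 41) (nat_lit 0xbc0001780002fde7c) b31489 (.tok (nat_lit 3) (nat_lit 0xbc0001780002fe389) (.hit (nat_lit 18) (nat_lit 47) (nat_lit 0xbc0001780002fd0ce) b31495 (.one (nat_lit 67) (nat_lit 19) (nat_lit 48) (nat_lit 0xbc0001780002fe389) b31496 (.nil))) (.tok (nat_lit 6) (nat_lit 0xbc000178000300764) (.hit (nat_lit 13) (nat_lit 42) (nat_lit 0xbc0001780002fe3de) b31490 (.hit (nat_lit 16) (nat_lit 45) (nat_lit 0xbc0001780002fdfdf) b31493 (.tok (nat_lit 55) (nat_lit 0xbc000178000300764) (.hit (nat_lit 14) (nat_lit 43) (nat_lit 0xbc000178000300056) b31491 (.hit (nat_lit 17) (nat_lit 46) (nat_lit 0xbc0001780002fdbf5) b31494 (.one (nat_lit 6) (nat_lit 15) (nat_lit 44) (nat_lit 0xbc000178000300764) b31492 (.nil)))) (.nil)))) (.nil)))) (.one (nat_lit 58) (nat_lit 20) (nat_lit 49) (nat_lit 0xbc0001780002fd748) b31497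 (.nil)))))) (.nil))
noncomputable def r15_237 : Rw Blk := .tok (nat_lit 3) (nat_lit 0xbc0001780002fde12) (.hit (nat_lit 61) (nat_lit 0) (nat_lit 0xbc0001780002fd24b) b8970 (.tok (nat_lit 6) (nat_lit 0xbc0001780002fd581) (.hit (nat_lit 62) (nat_lit 7) (nat_lit 0xbc0001780002fbbf9) b8971 (.hit (nat_lit 67) (nat_lit 15) (nat_lit 0xbc0001780002fadd7) b8974 (.tok (nat_lit 14) (nat_lit 0xbc0001780002fcdff) (.hit (nat_lit 63) (nat_lit 11) (nat_lit 0xbc0001780002fbe0c) b9665 (.hit (nat_lit 68) (nat_lit 17) (nat_lit 0xbc0001780002fc1ee) b9667 (.one (nat_lit 9) (nat_lit 64) (nat_lit 12) (nat_lit 0xbc0001780002fcdff) b9666 (.nil)))) (.tok (nat_lit 56) (nat_lit 0xbc0001780002fd581) (.hit (nat_lit 65) (nat_lit 13) (nat_lit 0xbc0001780002fcd73) b8972 (.hit (nat_lit 70) (nat_lit 19) (nat_lit 0xbc0001780002fbed5) b8976 (.one (nat_lit 6) (nat_lit 66) (nat_lit 14) (nat_lit 0xbc0001780002fd581)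 b8973 (.nil)))) (.nil))))) (.tok (nat_lit 52) (nat_lit 0xbc0001780002fc70f) (.hit (nat_lit 71) (nat_lit 39) (nat_lit 0xbc0001780002fbf8c) b8977 (.hit (nat_lit 72) (nat_lit 40) (nat_lit 0xbc0001780002fc70f) b8978 (.nil))) (.tok (nat_lit 55) (nat_lit 0xbc0001780002fde12) (.hit (nat_lit 73) (nat_lit 41) (nat_lit 0xbc0001780002fdd96) b8979 (.tok (nat_lit 3) (nat_lit 0xbc0001780002fde12) (.hit (nat_lit 79) (nat_lit 47) (nat_lit 0xbc0001780002fd3b5) b8985 (.one (nat_lit 67) (nat_lit 80) (nat_lit 48) (nat_lit 0xbc0001780002fde12) b9668 (.nil))) (.tok (nat_lit 6) (nat_lit 0xbc0001780002fd8c9) (.hit (nat_lit 74) (nat_lit 42) (nat_lit 0xbc0001780002fc8f3) b8980 (.hit (nat_lit 77) (nat_lit 45) (nat_lit 0xbc0001780002fcc00) b8983 (.tok (nat_lit 55) (nat_lit 0xbc0001780002fd8c9) (.hit (nat_lit 75) (nat_lit 43) (nat_lit 0xbc0001780002fd809) b8981 (.hit (nat_lit 78) (nat_lit 46) (nat_lit 0xbc0001780002fd8c9)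 b8984 (.one (nat_lit 6) (nat_lit 76) (nat_lit 44) (nat_lit 0xbc0001780002fd3cd) b8982 (.nil)))) (.nil)))) (.nil)))) (.one (nat_lit 58) (nat_lit 81) (nat_lit 49) (nat_lit 0xbc0001780002fc7be) b8986 (.nil)))))) (.tok (nat_lit 9) (nat_lit 0xbc000178000300000) (.hit (nat_lit 0) (nat_lit 0) (nat_lit 0xbc0001780002feb42) b8953 (.tok (nat_lit 9) (nat_lit 0xbc000178000300000) (.hit (nat_lit 1) (nat_lit 20) (nat_lit 0xbc0001780002fd8ca) b8954 (.hit (nat_lit 6) (nat_lit 28) (nat_lit 0xbc0001780002fc64d) b8957 (.tok (nat_lit 14) (nat_lit 0xbc0001780002ff85a) (.hit (nat_lit 2) (nat_lit 24) (nat_lit 0xbc0001780002ff85a) b9662 (.hit (nat_lit 7) (nat_lit 30) (nat_lit 0xbc0001780002fe69f) b9664 (.one (nat_lit 6) (nat_lit 3) (nat_lit 25) (nat_lit 0xbc0001780002ff70f) b9663 (.nil)))) (.one (nat_lit 56) (nat_lit 8) (nat_lit 31) (nat_lit 0xbc0001780002fdb60) b8958 (.tok (nat_lit 68) (nat_lit 0xbc000178000300000)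 (.hit (nat_lit 4) (nat_lit 26) (nat_lit 0xbc0001780002fefdc) b8955 (.hit (nat_lit 9) (nat_lit 32) (nat_lit 0xbc0001780002fd664) b8959 (.one (nat_lit 9) (nat_lit 5) (nat_lit 27) (nat_lit 0xbc000178000300000) b8956 (.nil)))) (.nil)))))) (.nil))) (.nil))
noncomputable def r15_238 : Rw Blk := .tok (nat_lit 3) (nat_lit 0xbc000178000300000) (.hit (nat_lit 61) (nat_lit 0) (nat_lit 0xbc0001780002fe458) b9679 (.tok (nat_lit 6) (nat_lit 0xbc0001780002fe986) (.hit (nat_lit 62) (nat_lit 7) (nat_lit 0xbc0001780002fc969) b9680 (.hit (nat_lit 67) (nat_lit 15) (nat_lit 0xbc0001780002fccd8) b9685 (.tok (nat_lit 14) (nat_lit 0xbc0001780002fe986) (.hit (nat_lit 63) (nat_lit 11) (nat_lit 0xbc0001780002fdef7) b9681 (.hit (nat_lit 68) (nat_lit 17) (nat_lit 0xbc0001780002fdbe8) b9686 (.one (nat_lit 9) (nat_lit 64) (nat_lit 12) (nat_lit 0xbc0001780002fe986) b9682 (.nil)))) (.tok (nat_lit 56) (nat_lit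 0xbc0001780002fe4bc) (.hit (nat_lit 65) (nat_lit 13) (nat_lit 0xbc0001780002fe13b) b9683 (.hit (nat_lit 70) (nat_lit 19) (nat_lit 0xbc0001780002fdd09) b9687 (.one (nat_lit 6) (nat_lit 66) (nat_lit 14) (nat_lit 0xbc0001780002fe4bc) b9684 (.nil)))) (.nil))))) (.tok (nat_lit 52) (nat_lit 0xbc0001780002fe727) (.hit (nat_lit 71) (nat_lit 39) (nat_lit 0xbc0001780002fdff1) b9688 (.hit (nat_lit 72) (nat_lit 40) (nat_lit 0xbc0001780002fe727) b9689 (.nil))) (.tok (nat_lit 55) (nat_lit 0xbc000178000300000) (.hit (nat_lit 73) (nat_lit 41) (nat_lit 0xbc0001780002ff6c3) b9690 (.tok (nat_lit 3) (nat_lit 0xbc0001780002ff70a) (.hit (nat_lit 79) (nat_lit 47) (nat_lit 0xbc0001780002fef58) b9696 (.one (nat_lit 67) (nat_lit 80) (nat_lit 48) (nat_lit 0xbc0001780002ff70a) b9697 (.nil))) (.tok (nat_lit 6) (nat_lit 0xbc000178000300000) (.hit (nat_lit 74) (nat_lit 42) (nat_lit 0xbc0001780002ff8b2) b9691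 (.hit (nat_lit 77) (nat_lit 45) (nat_lit 0xbc0001780002fe613) b9694 (.tok (nat_lit 55) (nat_lit 0xbc000178000300000) (.hit (nat_lit 75) (nat_lit 43) (nat_lit 0xbc000178000300000) b9692 (.hit (nat_lit 78) (nat_lit 46) (nat_lit 0xbc0001780002ff758) b9695 (.one (nat_lit 6) (nat_lit 76) (nat_lit 44) (nat_lit 0xbc0001780002ff868) b9693 (.nil)))) (.nil)))) (.nil)))) (.one (nat_lit 58) (nat_lit 81) (nat_lit 49) (nat_lit 0xbc0001780002fe6b7) b9698 (.nil)))))) (.tok (nat_lit 9) (nat_lit 0xbc0001780002fff7c) (.hit (nat_lit 0) (nat_lit 0) (nat_lit 0xbc0001780002ff20f) b9669 (.tok (nat_lit 9) (nat_lit 0xbc0001780002fff7c) (.hit (nat_lit 1) (nat_lit 20) (nat_lit 0xbc0001780002fe639) b9670 (.hit (nat_lit 6) (nat_lit 28) (nat_lit 0xbc0001780002fd8e0) b9675 (.tok (nat_lit 14) (nat_lit 0xbc0001780002fff7c) (.hit (nat_lit 2) (nat_lit 24) (nat_lit 0xbc0001780002ff6f2) b9671 (.hit (nat_lit 7) (nat_lit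 30) (nat_lit 0xbc0001780002fff7c) b9676 (.one (nat_lit 6) (nat_lit 3) (nat_lit 25) (nat_lit 0xbc0001780002ff63a) b9672 (.nil)))) (.one (nat_lit 56) (nat_lit 8) (nat_lit 31) (nat_lit 0xbc0001780002ff5ca) b9677 (.tok (nat_lit 68) (nat_lit 0xbc0001780002ff66d) (.hit (nat_lit 4) (nat_lit 26) (nat_lit 0xbc0001780002ff598) b9673 (.hit (nat_lit 9) (nat_lit 32) (nat_lit 0xbc0001780002ff56e) b9678 (.one (nat_lit 9) (nat_lit 5) (nat_lit 27) (nat_lit 0xbc0001780002ff66d) b9674 (.nil)))) (.nil)))))) (.nil))) (.nil))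
noncomputable def r15_239 : Rw Blk := .tok (nat_lit 3) (nat_lit 0x5fba0abf5b257f6b72fda2f5fa51cbf68e17e82aafd627) (.hit (nat_lit 0) (nat_lit 0) (nat_lit 0x5fba0abf5b257f6b72fda2f5fa51cbf68e17e82aafd627) b31513 (.tok (nat_lit 6) (nat_lit 0x5f9fb2befe197f56bafcce65f63b2bf339d7d72c2fccca) (.hit (nat_lit 1) (nat_lit 7) (nat_lit 0x5f9fb2befe197f56bafcce65f63b2bf339d7d72c2fccca) b31514 (.hit (nat_lit 6) (nat_lit 15) (nat_lit 0x5f9ad4bef45d7f169afca775f5ed4bf29e17d5f4afca5b) b31515 (.nil))) (.tok (nat_lit 9) (nat_lit 0x5f9fb2befe197f56bafcce65f63b2bf339d7d72c2fccca) (.hit (nat_lit 10) (nat_lit 20) (nat_lit 0x5f9fb2befe197f56bafcce65f63b2bf339d7d72c2fccca) b31514 (.hit (nat_lit 15) (nat_lit 28) (nat_lit 0x5f9ad4bef45d7f169afca775f5ed4bf29e17d5f4afca5b) b31515 (.nil))) (.nil)))) (.tok (nat_lit 6) (nat_lit 0x600000c00001800003000005fb07abfee9980000300000) (.hit (nat_lit 81) (nat_lit 0)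 (nat_lit 0x5fe690bfb88d7fc6f2ff0fd5fb07abfb25d7f3fb2ff10c) b31516 (.tok (nat_lit 3) (nat_lit 0x5fe6acbf92b57ff79aff7d55f84fabfb9217fb392ff2a2) (.hit (nat_lit 82) (nat_lit 1) (nat_lit 0x5fb08abf29017f4b02fd7285f539ebf4b397e9f5afd728) b31517 (.one (nat_lit 67) (nat_lit 83) (nat_lit 2) (nat_lit 0x5fe6acbf92b57ff79aff7d55f84fabfb9217fb392ff2a2) b31518 (.nil))) (.tok (nat_lit 6) (nat_lit 0x600000c00001800003000005fa5d8bfee9980000300000) (.hit (nat_lit 87) (nat_lit 7) (nat_lit 0x5fd874bfa1f57fb4bafe5015f7a16bf822d7f2652fe63f) b31519 (.hit (nat_lit 95) (nat_lit 15) (nat_lit 0x5fb4f6bf27697f0c5afd8c95f42aebf51bd7ec42afd8c9) b31522 (.tok (nat_lit 55) (nat_lit 0x600000c00001800003000005fa5d8bfee9980000300000) (.hit (nat_lit 88) (nat_lit 8) (nat_lit 0x600000bfe0b57ff4eb000005fa1f6bfee997ff19b00000) b31520 (.hit (nat_lit 96) (nat_lit 16) (nat_lit 0x5fe626bf996d7fe72aff9b15f9e84bfc0917fb252ff47e)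 b31523 (.one (nat_lit 6) (nat_lit 89) (nat_lit 9) (nat_lit 0x5fea8ac00001800002ffa3c5fa5d8bfbf39800002ff428) b31521 (.nil)))) (.nil)))) (.nil)))) (.tok (nat_lit 9) (nat_lit 0x600000c00001800002ffba6600c94c000017eb02300000) (.hit (nat_lit 157) (nat_lit 0) (nat_lit 0x5fe690bfb88d7fc6f2febca5fd7a0bfc3f57eb022ff14a) b31524 (.tok (nat_lit 3) (nat_lit 0x5fe6acbf92b57ff79afee485fd280bfdf557df7e2ff2a2) (.hit (nat_lit 158) (nat_lit 1) (nat_lit 0x5fb08abf29017f4b02fd2ce5fb516bf5ca17d3272fd728) b31525 (.one (nat_lit 55) (nat_lit 159) (nat_lit 3) (nat_lit 0x5fe6acbf92b57ff79afee485fd280bfdf557df7e2ff2a2) b31526 (.nil))) (.tok (nat_lit 9) (nat_lit 0x600000c00001800002ffba6600c94c000017e7b5b00000) (.hit (nat_lit 163) (nat_lit 20) (nat_lit 0x5fd874bfa1f57fb4bafe08b5fd6cebf94057dcc52fe639) b31527 (.hit (nat_lit 171) (nat_lit 28) (nat_lit 0x5fb4f6bf27697f0c5afd46f5fb9a4bf63257ceeb2fd8c9) b31530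 (.tok (nat_lit 67) (nat_lit 0x600000c00001800002ffba6600c94c000017e7b5b00000) (.hit (nat_lit 164) (nat_lit 21) (nat_lit 0x600000bfe0b57ff4eaffba6600c94c000017e6bd300000) b31528 (.hit (nat_lit 172) (nat_lit 29) (nat_lit 0x5fe626bf996d7fe72aff0245ff0febfe6d17e5e0aff47e) b31531 (.one (nat_lit 9) (nat_lit 165) (nat_lit 22) (nat_lit 0x5fea8ac00001800002fefce600868bff4617e7b5aff428) b31529 (.nil)))) (.nil)))) (.nil)))) (.nil)))
noncomputable def r15_240 : Rw Blk := .tok (nat_lit 6) (nat_lit 0xbc000178000300000) (.hit (nat_lit 51) (nat_lit 0) (nat_lit 0xbc0001780002ff743) b8943 (.tok (nat_lit 3) (nat_lit 0xbc0001780002ffecc) (.hit (nat_lit 52) (nat_lit 1) (nat_lit 0xbc0001780002fdccb) b8944 (.one (nat_lit 14) (nat_lit 53) (nat_lit 4) (nat_lit 0xbc0001780002ffecc) b9239 (.one (nat_lit 56) (nat_lit 55) (nat_lit 6) (nat_lit 0xbc0001780002ff720) b8945 (.nil)))) (.tok (nat_lit 40) (nat_lit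 0xbc0001780002ff5de) (.hit (nat_lit 56) (nat_lit 33) (nat_lit 0xbc0001780002ff5de) b8947 (.hit (nat_lit 57) (nat_lit 34) (nat_lit 0xbc0001780002ff3d8) b8948 (.nil))) (.tok (nat_lit 43) (nat_lit 0xbc000178000300000) (.hit (nat_lit 58) (nat_lit 35) (nat_lit 0xbc000178000300000) b8951 (.hit (nat_lit 59) (nat_lit 36) (nat_lit 0xbc0001780002ff6ae) b8952 (.nil))) (.tok (nat_lit 46) (nat_lit 0xbc0001780002ffbd8) (.hit (nat_lit 60) (nat_lit 37) (nat_lit 0xbc0001780002fe56f) b8949 (.hit (nat_lit 61) (nat_lit 38) (nat_lit 0xbc0001780002ffbd8) b8950 (.nil))) (.nil)))))) (.tok (nat_lit 9) (nat_lit 0xbc000178000300000) (.hit (nat_lit 0) (nat_lit 0) (nat_lit 0xbc0001780002ff743) b8943 (.tok (nat_lit 3) (nat_lit 0xbc0001780002ffecc) (.hit (nat_lit 1) (nat_lit 1) (nat_lit 0xbc0001780002fdccb) b8944 (.one (nat_lit 14) (nat_lit 2) (nat_lit 4) (nat_lit 0xbc0001780002ffecc) b9239 (.one (nat_lit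 68) (nat_lit 3) (nat_lit 5) (nat_lit 0xbc0001780002ff720) b8945 (.nil)))) (.tok (nat_lit 40) (nat_lit 0xbc0001780002ff5de) (.hit (nat_lit 5) (nat_lit 33) (nat_lit 0xbc0001780002ff5de) b8947 (.hit (nat_lit 6) (nat_lit 34) (nat_lit 0xbc0001780002ff3d8) b8948 (.nil))) (.tok (nat_lit 43) (nat_lit 0xbc0001780002ffbd8) (.hit (nat_lit 7) (nat_lit 35) (nat_lit 0xbc0001780002fe56f) b8949 (.hit (nat_lit 8) (nat_lit 36) (nat_lit 0xbc0001780002ffbd8) b8950 (.nil))) (.tok (nat_lit 46) (nat_lit 0xbc000178000300000) (.hit (nat_lit 9) (nat_lit 37) (nat_lit 0xbc000178000300000) b8951 (.hit (nat_lit 10) (nat_lit 38) (nat_lit 0xbc0001780002ff6ae) b8952 (.nil))) (.nil)))))) (.nil))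
noncomputable def r15_241 : Rw Blk := .tok (nat_lit 3) (nat_lit 0xbc0001780002fddcf) (.hit (nat_lit 61) (nat_lit 0) (nat_lit 0xbc0001780002fd208) b9255 (.tok (nat_lit 9) (nat_lit 0xbc0001780002fd53e) (.hit (nat_lit 62) (nat_lit 20) (nat_lit 0xbc0001780002fbbb6) b9256 (.hit (nat_lit 67) (nat_lit 28) (nat_lit 0xbc0001780002fad94) b9261 (.tok (nat_lit 14) (nat_lit 0xbc0001780002fcdbc) (.hit (nat_lit 63) (nat_lit 24) (nat_lit 0xbc0001780002fbdc9) b9257 (.hit (nat_lit 68) (nat_lit 30) (nat_lit 0xbc0001780002fc1ab) b9262 (.one (nat_lit 6) (nat_lit 64) (nat_lit 25) (nat_lit 0xbc0001780002fcdbc) b9258 (.nil)))) (.one (nat_lit 56) (nat_lit 69) (nat_lit 31) (nat_lit 0xbc0001780002fc012) b9263 (.tok (nat_lit 68) (nat_lit 0xbc0001780002fd53e) (.hit (nat_lit 65) (nat_lit 26) (nat_lit 0xbc0001780002fcd30) b9259 (.hit (nat_lit 70) (nat_lit 32) (nat_lit 0xbc0001780002fbe92) b9264 (.one (nat_lit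 9) (nat_lit 66) (nat_lit 27) (nat_lit 0xbc0001780002fd53e) b9260 (.nil)))) (.nil)))))) (.tok (nat_lit 64) (nat_lit 0xbc0001780002fc6cc) (.hit (nat_lit 71) (nat_lit 50) (nat_lit 0xbc0001780002fbf49) b9265 (.hit (nat_lit 72) (nat_lit 51) (nat_lit 0xbc0001780002fc6cc) b9266 (.nil))) (.tok (nat_lit 67) (nat_lit 0xbc0001780002fddcf) (.hit (nat_lit 73) (nat_lit 52) (nat_lit 0xbc0001780002fdd53) b9267 (.tok (nat_lit 3) (nat_lit 0xbc0001780002fddcf) (.hit (nat_lit 79) (nat_lit 58) (nat_lit 0xbc0001780002fd372) b9273 (.one (nat_lit 55) (nat_lit 80) (nat_lit 59) (nat_lit 0xbc0001780002fddcf) b9274 (.nil))) (.tok (nat_lit 9) (nat_lit 0xbc0001780002fd886) (.hit (nat_lit 74) (nat_lit 53) (nat_lit 0xbc0001780002fc8b0) b9268 (.hit (nat_lit 77) (nat_lit 56) (nat_lit 0xbc0001780002fcbbd) b9271 (.tok (nat_lit 67) (nat_lit 0xbc0001780002fd886) (.hit (nat_lit 75) (nat_lit 54) (nat_lit 0xbc0001780002fd7c6)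 b9269 (.hit (nat_lit 78) (nat_lit 57) (nat_lit 0xbc0001780002fd886) b9272 (.one (nat_lit 9) (nat_lit 76) (nat_lit 55) (nat_lit 0xbc0001780002fd38a) b9270 (.nil)))) (.nil)))) (.nil)))) (.one (nat_lit 70) (nat_lit 81) (nat_lit 60) (nat_lit 0xbc0001780002fc77b) b9275 (.nil)))))) (.tok (nat_lit 6) (nat_lit 0xbc000178000300000) (.hit (nat_lit 0) (nat_lit 0) (nat_lit 0xbc0001780002feaff) b9240 (.tok (nat_lit 6) (nat_lit 0xbc0001780002ff817) (.hit (nat_lit 1) (nat_lit 7) (nat_lit 0xbc0001780002fd887) b9241 (.hit (nat_lit 6) (nat_lit 15) (nat_lit 0xbc0001780002fc60a) b9244 (.tok (nat_lit 14) (nat_lit 0xbc0001780002ff817) (.hit (nat_lit 2) (nat_lit 11) (nat_lit 0xbc0001780002ff817) b9242 (.hit (nat_lit 7) (nat_lit 17) (nat_lit 0xbc0001780002fe65c) b9245 (.one (nat_lit 9) (nat_lit 3) (nat_lit 12) (nat_lit 0xbc0001780002ff6cc) b9243 (.nil)))) (.one (nat_lit 68) (nat_lit 8) (nat_lit 18)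 (nat_lit 0xbc0001780002fdb1d) b9246 (.nil))))) (.tok (nat_lit 52) (nat_lit 0xbc0001780002feaaa) (.hit (nat_lit 10) (nat_lit 39) (nat_lit 0xbc0001780002fdd77) b9247 (.hit (nat_lit 11) (nat_lit 40) (nat_lit 0xbc0001780002feaaa) b9248 (.nil))) (.tok (nat_lit 55) (nat_lit 0xbc000178000300000) (.hit (nat_lit 12) (nat_lit 41) (nat_lit 0xbc0001780002ff885) b9249 (.tok (nat_lit 3) (nat_lit 0xbc000178000300000) (.hit (nat_lit 18) (nat_lit 47) (nat_lit 0xbc0001780002fec8d) b9252 (.one (nat_lit 67) (nat_lit 19) (nat_lit 48) (nat_lit 0xbc000178000300000) b9253 (.nil))) (.tok (nat_lit 6) (nat_lit 0xbc0001780002fece8) (.hit (nat_lit 13) (nat_lit 42) (nat_lit 0xbc0001780002fe0f2) b9250 (.hit (nat_lit 16) (nat_lit 45) (nat_lit 0xbc0001780002fece8) b9251 (.nil))) (.nil)))) (.one (nat_lit 58) (nat_lit 20) (nat_lit 49) (nat_lit 0xbc0001780002fecd6) b9254 (.nil)))))) (.nil))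
noncomputable def r15_242 : Rw Blk := .tok (nat_lit 3) (nat_lit 0xbc0001780002ff90f) (.hit (nat_lit 61) (nat_lit 0) (nat_lit 0xbc0001780002fdd67) b9291 (.tok (nat_lit 9) (nat_lit 0xbc0001780002fe295) (.hit (nat_lit 62) (nat_lit 20) (nat_lit 0xbc0001780002fc278) b9292 (.hit (nat_lit 67) (nat_lit 28) (nat_lit 0xbc0001780002fc5e7) b9297 (.tok (nat_lit 14) (nat_lit 0xbc0001780002fe295) (.hit (nat_lit 63) (nat_lit 24) (nat_lit 0xbc0001780002fd806) b9293 (.hit (nat_lit 68) (nat_lit 30) (nat_lit 0xbc0001780002fd4f7) b9298 (.one (nat_lit 6) (nat_lit 64) (nat_lit 25) (nat_lit 0xbc0001780002fe295) b9294 (.nil)))) (.one (nat_lit 56) (nat_lit 69) (nat_lit 31) (nat_lit 0xbc0001780002fdc1d) b9299 (.tok (nat_lit 68) (nat_lit 0xbc0001780002fddcb) (.hit (nat_lit 65) (nat_lit 26) (nat_lit 0xbc0001780002fda4a) b9295 (.hit (nat_lit 70) (nat_lit 32) (nat_lit 0xbc0001780002fd618) b9300 (.one (nat_lit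 9) (nat_lit 66) (nat_lit 27) (nat_lit 0xbc0001780002fddcb) b9296 (.nil)))) (.nil)))))) (.tok (nat_lit 64) (nat_lit 0xbc0001780002fe036) (.hit (nat_lit 71) (nat_lit 50) (nat_lit 0xbc0001780002fd900) b9301 (.hit (nat_lit 72) (nat_lit 51) (nat_lit 0xbc0001780002fe036) b9302 (.nil))) (.tok (nat_lit 67) (nat_lit 0xbc0001780002ff90f) (.hit (nat_lit 73) (nat_lit 52) (nat_lit 0xbc0001780002fefd2) b9303 (.tok (nat_lit 3) (nat_lit 0xbc0001780002ff019) (.hit (nat_lit 79) (nat_lit 58) (nat_lit 0xbc0001780002fe867) b9309 (.one (nat_lit 55) (nat_lit 80) (nat_lit 59) (nat_lit 0xbc0001780002ff019) b9310 (.nil))) (.tok (nat_lit 9) (nat_lit 0xbc0001780002ff90f) (.hit (nat_lit 74) (nat_lit 53) (nat_lit 0xbc0001780002ff1c1) b9304 (.hit (nat_lit 77) (nat_lit 56) (nat_lit 0xbc0001780002fdf22) b9307 (.tok (nat_lit 67) (nat_lit 0xbc0001780002ff90f) (.hit (nat_lit 75) (nat_lit 54) (nat_lit 0xbc0001780002ff90f)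 b9305 (.hit (nat_lit 78) (nat_lit 57) (nat_lit 0xbc0001780002ff067) b9308 (.one (nat_lit 9) (nat_lit 76) (nat_lit 55) (nat_lit 0xbc0001780002ff177) b9306 (.nil)))) (.nil)))) (.nil)))) (.one (nat_lit 70) (nat_lit 81) (nat_lit 60) (nat_lit 0xbc0001780002fdfc6) b9311 (.nil)))))) (.tok (nat_lit 6) (nat_lit 0xbc000178000300000) (.hit (nat_lit 0) (nat_lit 0) (nat_lit 0xbc0001780002feb1e) b9276 (.tok (nat_lit 6) (nat_lit 0xbc0001780002ff88b) (.hit (nat_lit 1) (nat_lit 7) (nat_lit 0xbc0001780002fdf48) b9277 (.hit (nat_lit 6) (nat_lit 15) (nat_lit 0xbc0001780002fd1ef) b9280 (.tok (nat_lit 14) (nat_lit 0xbc0001780002ff88b) (.hit (nat_lit 2) (nat_lit 11) (nat_lit 0xbc0001780002ff001) b9278 (.hit (nat_lit 7) (nat_lit 17) (nat_lit 0xbc0001780002ff88b) b9281 (.one (nat_lit 9) (nat_lit 3) (nat_lit 12) (nat_lit 0xbc0001780002fef49) b9279 (.nil)))) (.one (nat_lit 68) (nat_lit 8) (nat_lit 18)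 (nat_lit 0xbc0001780002feed9) b9282 (.nil))))) (.tok (nat_lit 52) (nat_lit 0xbc0001780002ff51c) (.hit (nat_lit 10) (nat_lit 39) (nat_lit 0xbc0001780002fe509) b9283 (.hit (nat_lit 11) (nat_lit 40) (nat_lit 0xbc0001780002ff51c) b9284 (.nil))) (.tok (nat_lit 55) (nat_lit 0xbc000178000300000) (.hit (nat_lit 12) (nat_lit 41) (nat_lit 0xbc0001780002ffa9e) b9285 (.tok (nat_lit 3) (nat_lit 0xbc0001780002fffab) (.hit (nat_lit 18) (nat_lit 47) (nat_lit 0xbc0001780002fecf0) b9288 (.one (nat_lit 67) (nat_lit 19) (nat_lit 48) (nat_lit 0xbc0001780002fffab) b9289 (.nil))) (.tok (nat_lit 6) (nat_lit 0xbc000178000300000) (.hit (nat_lit 13) (nat_lit 42) (nat_lit 0xbc000178000300000) b9286 (.hit (nat_lit 16) (nat_lit 45) (nat_lit 0xbc0001780002ffc01) b9287 (.nil))) (.nil)))) (.one (nat_lit 58) (nat_lit 20) (nat_lit 49) (nat_lit 0xbc0001780002ff36a) b9290 (.nil)))))) (.nil))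
noncomputable def r15_243 : Rw Blk := .tok (nat_lit 3) (nat_lit 0xbc0001780002fddcf) (.hit (nat_lit 61) (nat_lit 0) (nat_lit 0xbc0001780002fd208) b9255 (.tok (nat_lit 6) (nat_lit 0xbc0001780002fd53e) (.hit (nat_lit 62) (nat_lit 7) (nat_lit 0xbc0001780002fbbb6) b9256 (.hit (nat_lit 67) (nat_lit 15) (nat_lit 0xbc0001780002fad94) b9261 (.tok (nat_lit 14) (nat_lit 0xbc0001780002fcdbc) (.hit (nat_lit 63) (nat_lit 11) (nat_lit 0xbc0001780002fbdc9) b9257 (.hit (nat_lit 68) (nat_lit 17) (nat_lit 0xbc0001780002fc1ab) b9262 (.one (nat_lit 9) (nat_lit 64) (nat_lit 12) (nat_lit 0xbc0001780002fcdbc) b9258 (.nil)))) (.tok (nat_lit 56) (nat_lit 0xbc0001780002fd53e) (.hit (nat_lit 65) (nat_lit 13) (nat_lit 0xbc0001780002fcd30) b9259 (.hit (nat_lit 70) (nat_lit 19) (nat_lit 0xbc0001780002fbe92) b9264 (.one (nat_lit 6) (nat_lit 66) (nat_lit 14) (nat_lit 0xbc0001780002fd53e) b9260 (.nil)))) (.one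 (nat_lit 68) (nat_lit 69) (nat_lit 18) (nat_lit 0xbc0001780002fc012) b9263 (.nil)))))) (.tok (nat_lit 52) (nat_lit 0xbc0001780002fc6cc) (.hit (nat_lit 71) (nat_lit 39) (nat_lit 0xbc0001780002fbf49) b9265 (.hit (nat_lit 72) (nat_lit 40) (nat_lit 0xbc0001780002fc6cc) b9266 (.nil))) (.tok (nat_lit 55) (nat_lit 0xbc0001780002fddcf) (.hit (nat_lit 73) (nat_lit 41) (nat_lit 0xbc0001780002fdd53) b9267 (.tok (nat_lit 3) (nat_lit 0xbc0001780002fddcf) (.hit (nat_lit 79) (nat_lit 47) (nat_lit 0xbc0001780002fd372) b9273 (.one (nat_lit 67) (nat_lit 80) (nat_lit 48) (nat_lit 0xbc0001780002fddcf) b9274 (.nil))) (.tok (nat_lit 6) (nat_lit 0xbc0001780002fd886) (.hit (nat_lit 74) (nat_lit 42) (nat_lit 0xbc0001780002fc8b0) b9268 (.hit (nat_lit 77) (nat_lit 45) (nat_lit 0xbc0001780002fcbbd) b9271 (.tok (nat_lit 55) (nat_lit 0xbc0001780002fd886) (.hit (nat_lit 75) (nat_lit 43) (nat_lit 0xbc0001780002fd7c6)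 b9269 (.hit (nat_lit 78) (nat_lit 46) (nat_lit 0xbc0001780002fd886) b9272 (.one (nat_lit 6) (nat_lit 76) (nat_lit 44) (nat_lit 0xbc0001780002fd38a) b9270 (.nil)))) (.nil)))) (.nil)))) (.one (nat_lit 58) (nat_lit 81) (nat_lit 49) (nat_lit 0xbc0001780002fc77b) b9275 (.nil)))))) (.tok (nat_lit 9) (nat_lit 0xbc000178000300000) (.hit (nat_lit 0) (nat_lit 0) (nat_lit 0xbc0001780002feaff) b9240 (.tok (nat_lit 9) (nat_lit 0xbc0001780002ff817) (.hit (nat_lit 1) (nat_lit 20) (nat_lit 0xbc0001780002fd887) b9241 (.hit (nat_lit 6) (nat_lit 28) (nat_lit 0xbc0001780002fc60a) b9244 (.tok (nat_lit 14) (nat_lit 0xbc0001780002ff817) (.hit (nat_lit 2) (nat_lit 24) (nat_lit 0xbc0001780002ff817) b9242 (.hit (nat_lit 7) (nat_lit 30) (nat_lit 0xbc0001780002fe65c) b9245 (.one (nat_lit 6) (nat_lit 3) (nat_lit 25) (nat_lit 0xbc0001780002ff6cc) b9243 (.nil)))) (.one (nat_lit 56) (nat_lit 8) (nat_lit 31)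 (nat_lit 0xbc0001780002fdb1d) b9246 (.nil))))) (.tok (nat_lit 64) (nat_lit 0xbc0001780002feaaa) (.hit (nat_lit 10) (nat_lit 50) (nat_lit 0xbc0001780002fdd77) b9247 (.hit (nat_lit 11) (nat_lit 51) (nat_lit 0xbc0001780002feaaa) b9248 (.nil))) (.tok (nat_lit 67) (nat_lit 0xbc000178000300000) (.hit (nat_lit 12) (nat_lit 52) (nat_lit 0xbc0001780002ff885) b9249 (.tok (nat_lit 3) (nat_lit 0xbc000178000300000) (.hit (nat_lit 18) (nat_lit 58) (nat_lit 0xbc0001780002fec8d) b9252 (.one (nat_lit 55) (nat_lit 19) (nat_lit 59) (nat_lit 0xbc000178000300000) b9253 (.nil))) (.tok (nat_lit 9) (nat_lit 0xbc0001780002fece8) (.hit (nat_lit 13) (nat_lit 53) (nat_lit 0xbc0001780002fe0f2) b9250 (.hit (nat_lit 16) (nat_lit 56) (nat_lit 0xbc0001780002fece8) b9251 (.nil))) (.nil)))) (.one (nat_lit 70) (nat_lit 20) (nat_lit 60) (nat_lit 0xbc0001780002fecd6) b9254 (.nil)))))) (.nil))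
noncomputable def r15_244 : Rw Blk := .tok (nat_lit 3) (nat_lit 0xbc0001780002ff90f) (.hit (nat_lit 61) (nat_lit 0) (nat_lit 0xbc0001780002fdd67) b9291 (.tok (nat_lit 6) (nat_lit 0xbc0001780002fe295) (.hit (nat_lit 62) (nat_lit 7) (nat_lit 0xbc0001780002fc278) b9292 (.hit (nat_lit 67) (nat_lit 15) (nat_lit 0xbc0001780002fc5e7) b9297 (.tok (nat_lit 14) (nat_lit 0xbc0001780002fe295) (.hit (nat_lit 63) (nat_lit 11) (nat_lit 0xbc0001780002fd806) b9293 (.hit (nat_lit 68) (nat_lit 17) (nat_lit 0xbc0001780002fd4f7) b9298 (.one (nat_lit 9) (nat_lit 64) (nat_lit 12) (nat_lit 0xbc0001780002fe295) b9294 (.nil)))) (.tok (nat_lit 56) (nat_lit 0xbc0001780002fddcb) (.hit (nat_lit 65) (nat_lit 13) (nat_lit 0xbc0001780002fda4a) b9295 (.hit (nat_lit 70) (nat_lit 19) (nat_lit 0xbc0001780002fd618) b9300 (.one (nat_lit 6) (nat_lit 66) (nat_lit 14) (nat_lit 0xbc0001780002fddcb) b9296 (.nil)))) (.one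 (nat_lit 68) (nat_lit 69) (nat_lit 18) (nat_lit 0xbc0001780002fdc1d) b9299 (.nil)))))) (.tok (nat_lit 52) (nat_lit 0xbc0001780002fe036) (.hit (nat_lit 71) (nat_lit 39) (nat_lit 0xbc0001780002fd900) b9301 (.hit (nat_lit 72) (nat_lit 40) (nat_lit 0xbc0001780002fe036) b9302 (.nil))) (.tok (nat_lit 55) (nat_lit 0xbc0001780002ff90f) (.hit (nat_lit 73) (nat_lit 41) (nat_lit 0xbc0001780002fefd2) b9303 (.tok (nat_lit 3) (nat_lit 0xbc0001780002ff019) (.hit (nat_lit 79) (nat_lit 47) (nat_lit 0xbc0001780002fe867) b9309 (.one (nat_lit 67) (nat_lit 80) (nat_lit 48) (nat_lit 0xbc0001780002ff019) b9310 (.nil))) (.tok (nat_lit 6) (nat_lit 0xbc0001780002ff90f) (.hit (nat_lit 74) (nat_lit 42) (nat_lit 0xbc0001780002ff1c1) b9304 (.hit (nat_lit 77) (nat_lit 45) (nat_lit 0xbc0001780002fdf22) b9307 (.tok (nat_lit 55) (nat_lit 0xbc0001780002ff90f) (.hit (nat_lit 75) (nat_lit 43) (nat_lit 0xbc0001780002ff90f)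 b9305 (.hit (nat_lit 78) (nat_lit 46) (nat_lit 0xbc0001780002ff067) b9308 (.one (nat_lit 6) (nat_lit 76) (nat_lit 44) (nat_lit 0xbc0001780002ff177) b9306 (.nil)))) (.nil)))) (.nil)))) (.one (nat_lit 58) (nat_lit 81) (nat_lit 49) (nat_lit 0xbc0001780002fdfc6) b9311 (.nil)))))) (.tok (nat_lit 9) (nat_lit 0xbc000178000300000) (.hit (nat_lit 0) (nat_lit 0) (nat_lit 0xbc0001780002feb1e) b9276 (.tok (nat_lit 9) (nat_lit 0xbc0001780002ff88b) (.hit (nat_lit 1) (nat_lit 20) (nat_lit 0xbc0001780002fdf48) b9277 (.hit (nat_lit 6) (nat_lit 28) (nat_lit 0xbc0001780002fd1ef) b9280 (.tok (nat_lit 14) (nat_lit 0xbc0001780002ff88b) (.hit (nat_lit 2) (nat_lit 24) (nat_lit 0xbc0001780002ff001) b9278 (.hit (nat_lit 7) (nat_lit 30) (nat_lit 0xbc0001780002ff88b) b9281 (.one (nat_lit 6) (nat_lit 3) (nat_lit 25) (nat_lit 0xbc0001780002fef49) b9279 (.nil)))) (.one (nat_lit 56) (nat_lit 8) (nat_lit 31)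 (nat_lit 0xbc0001780002feed9) b9282 (.nil))))) (.tok (nat_lit 64) (nat_lit 0xbc0001780002ff51c) (.hit (nat_lit 10) (nat_lit 50) (nat_lit 0xbc0001780002fe509) b9283 (.hit (nat_lit 11) (nat_lit 51) (nat_lit 0xbc0001780002ff51c) b9284 (.nil))) (.tok (nat_lit 67) (nat_lit 0xbc000178000300000) (.hit (nat_lit 12) (nat_lit 52) (nat_lit 0xbc0001780002ffa9e) b9285 (.tok (nat_lit 3) (nat_lit 0xbc0001780002fffab) (.hit (nat_lit 18) (nat_lit 58) (nat_lit 0xbc0001780002fecf0) b9288 (.one (nat_lit 55) (nat_lit 19) (nat_lit 59) (nat_lit 0xbc0001780002fffab) b9289 (.nil))) (.tok (nat_lit 9) (nat_lit 0xbc000178000300000) (.hit (nat_lit 13) (nat_lit 53) (nat_lit 0xbc000178000300000) b9286 (.hit (nat_lit 16) (nat_lit 56) (nat_lit 0xbc0001780002ffc01) b9287 (.nil))) (.nil)))) (.one (nat_lit 70) (nat_lit 20) (nat_lit 60) (nat_lit 0xbc0001780002ff36a) b9290 (.nil)))))) (.nil))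
noncomputable def r15_245 : Rw Blk := .tok (nat_lit 6) (nat_lit 0x600000c00001800003000005fa608bfe87980047300000600000c000017f594300000) (.hit (nat_lit 81) (nat_lit 0) (nat_lit 0x5fc92ebf9dcd7f134afec7b5fa608bfa34d7f0402fe0445fc386bf7c3d7e924afea2d) b31532 (.tok (nat_lit 3) (nat_lit 0x5fd152bfc5757f5b72fe8a45f6ac8bf8b0d7f3ce2fe8805fd0fabf98597eb3d2fed06) (.hit (nat_lit 82) (nat_lit 1) (nat_lit 0x5f9766bf32a57e80b2fcbb35f460ebf17357e645afcbb05f9760bf478d7e231afd7bd) b31533 (.one (nat_lit 14) (nat_lit 84) (nat_lit 4) (nat_lit 0x5fd152bfc5757f5b72fe8a45f5b16bf8b0d7f3ce2fe8805fd0fabf98597e9bf2fed06) b31534 (.one (nat_lit 56) (nat_lit 86) (nat_lit 6) (nat_lit 0x5fc54cbf935d7f10cafe2a65f6ac8bf73017ed0fafded45fbc78bf93417eb3d2fe9dc) b31535 (.nil)))) (.tok (nat_lit 40) (nat_lit 0x5fd26cbfb3317f5e3afe9385f6f90bf8d497f39f2fe9385fdcfabfd80d7ed6aaff9cc) (.hit (nat_lit 100) (nat_lit 33) (nat_lit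 0x5fd26cbfb3317f5e3afe9385f6f90bf8d497f1752fe9385fdcfabfd80d7ed6aaff9cc) b31536 (.hit (nat_lit 101) (nat_lit 34) (nat_lit 0x5fc642bf9aa57f000afe3215f631cbf74fd7f39f2fe3215fc642bf97557ec2a2feb39) b31537 (.nil))) (.tok (nat_lit 43) (nat_lit 0x5fcdbcc000017f792aff5265f94cebfbd017f4be2fef085fe1fabfbfd57ef7d2ff5f8) (.hit (nat_lit 102) (nat_lit 35) (nat_lit 0x5fcdbcc000017f792aff5265f94cebfbd017f4be2fef085fe1fabfbfd57ef7d2ff5f8) b31538 (.hit (nat_lit 103) (nat_lit 36) (nat_lit 0x5fb29ebf97817ee5c2fe8e95f81a4bf8c1d7f2e1afe8dd5fd1ccbfb0057ef172ff232) b31539 (.nil))) (.tok (nat_lit 46) (nat_lit 0x600000bff8fd800003000005fa096bfe87980047300000600000c000017f594300000) (.hit (nat_lit 104) (nat_lit 37) (nat_lit 0x5fd190bf924d7fd942ff0555fa096bfc19d7e6032fe8815fd102bf7d297f03f2ff649) b31540 (.hit (nat_lit 105) (nat_lit 38) (nat_lit 0x600000bff8fd800003000005f8cbcbfe87980047300000600000c000017f594300000)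 b31541 (.nil))) (.nil)))))) (.tok (nat_lit 9) (nat_lit 0x600000c00001800002ffa1d600550c000017e6032fffcf5ffef4bfa399800e4afffc4) (.hit (nat_lit 157) (nat_lit 0) (nat_lit 0x5fc92ebf9dcd7f134afe8435fc988bfab097e5a0afe1285fc088bf43797efc22fea15) b31542 (.tok (nat_lit 3) (nat_lit 0x5fd152bfc5757f5b72fe2325fc9f6bf9f597d88fafe6105fcb26bf50e17f3c82fec32) (.hit (nat_lit 158) (nat_lit 1) (nat_lit 0x5f9766bf32a57e80b2fc5cc5fa38ebf2ed17cf612fcba95f973ebf08857eac92fd7bd) b31543 (.one (nat_lit 14) (nat_lit 160) (nat_lit 4) (nat_lit 0x5fd152bfc5757f5b72fe2325fc9f6bf9f597d4a32fe6105fcb26bf44f17f3c82fec32) b31544 (.one (nat_lit 68) (nat_lit 161) (nat_lit 5) (nat_lit 0x5fc54cbf935d7f10cafdcbf5fb920bf8a9d7d88fafe2a35fc53ebf50e17f372afea7a) b31545 (.nil)))) (.tok (nat_lit 40) (nat_lit 0x5fd26cbfb3317f5e3afe3515fd226bfa4e57d9c1afee415fd24cbf624d7fd68aff992) (.hit (nat_lit 176) (nat_lit 33) (nat_lit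 0x5fd26cbfb3317f5e3afe3515fcf2ebfa4e57d9c1afee415fd24cbf624d7fd68aff992) b31546 (.hit (nat_lit 177) (nat_lit 34) (nat_lit 0x5fc642bf9aa57f000afdd3e5fd226bf8c897d6a4afe3215fc63cbf58497f372afeb39) b31547 (.nil))) (.tok (nat_lit 43) (nat_lit 0x600000bff8fd800002ffa1d600550c000017e6032fffcf5ffef4bfa399800e4afffc4) (.hit (nat_lit 178) (nat_lit 35) (nat_lit 0x5fd190bf924d7fd942ff0555fa096bfc19d7e6032fe8815fd102bf7d297f03f2ff5fb) b31548 (.hit (nat_lit 179) (nat_lit 36) (nat_lit 0x600000bff8fd800002ffa1d600550c000017e10cafffcf5ffef4bfa399800e4afffc4) b31549 (.nil))) (.tok (nat_lit 46) (nat_lit 0x5fcdbcc000017f792afeee05fdffcbfd3597e3112ff0fa5fe07ebf72e17fac1affa85) (.hit (nat_lit 180) (nat_lit 37) (nat_lit 0x5fcdbcc000017f792afeee05fdffcbfd3597e3112ff0fa5fe07ebf72e17fac1affa85) b31550 (.hit (nat_lit 181) (nat_lit 38) (nat_lit 0x5fb29ebf97817ee5c2fe2ac5fcf1cbfa2617de46afe89f5fcfb0bf6fb17f91e2ff1e6)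 b31551 (.nil))) (.nil)))))) (.nil))
noncomputable def r15_246 : Rw Blk := .tok (nat_lit 3) (nat_lit 0x2f00005e0000bf71917f6b2afe822) (.hit (nat_lit 61) (nat_lit 0) (nat_lit 0x2f00005e0000bf0dcd7ec7d2fd356) b31552 (.tok (nat_lit 14) (nat_lit 0x2f00005e0000bf71917f6b2afe822) (.hit (nat_lit 82) (nat_lit 61) (nat_lit 0x2f00005e0000bf51097f3ca2fe487) b31553 (.one (nat_lit 3) (nat_lit 83) (nat_lit 62) (nat_lit 0x2f00005e0000bef2697ea582fcf21) b31554 (.tok (nat_lit 6) (nat_lit 0x2f00005e0000bf04957ec9dafd3ac) (.hit (nat_lit 86) (nat_lit 65) (nat_lit 0x2f00005e0000bf01297ec302fd2d1) b31557 (.hit (nat_lit 87) (nat_lit 66) (nat_lit 0x2f00005e0000bf04957ec9dafd3ac) b31558 (.nil))) (.tok (nat_lit 9) (nat_lit 0x2f00005e0000bf71917f6b2afe822) (.hit (nat_lit 84) (nat_lit 63) (nat_lit 0x2f00005e0000bf71917f6b2afe822) b31555 (.hit (nat_lit 85) (nat_lit 64) (nat_lit 0x2f00005e0000befd5d7ebb6afd1de)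 b31556 (.nil))) (.nil))))) (.one (nat_lit 17) (nat_lit 88) (nat_lit 67) (nat_lit 0x2f00005e0000bee0f17e8292fcac3) b31559 (.tok (nat_lit 20) (nat_lit 0x2f00005e0000bef9957eb3dafd0ec) (.hit (nat_lit 89) (nat_lit 68) (nat_lit 0x2f00005e0000bef9957eb3dafd0ec) b31560 (.hit (nat_lit 90) (nat_lit 69) (nat_lit 0x2f00005e0000bed9157e72dafc8cc) b31561 (.nil))) (.tok (nat_lit 23) (nat_lit 0x2f00005e0000bf12297ee502fd711) (.hit (nat_lit 91) (nat_lit 70) (nat_lit 0x2f00005e0000bf12297ee502fd711) b31562 (.hit (nat_lit 92) (nat_lit 71) (nat_lit 0x2f00005e0000bed9957e73dafc8ec) b31563 (.nil))) (.one (nat_lit 26) (nat_lit 93) (nat_lit 72) (nat_lit 0x2f00005e0000be8f297ddf02fb651) b31564 (.one (nat_lit 29) (nat_lit 94) (nat_lit 73) (nat_lit 0x2f00005e0000be99557df35afb8dc) b31565 (.one (nat_lit 32) (nat_lit 95) (nat_lit 74) (nat_lit 0x2f00005e0000bebe117e3cd2fc20b) b31566 (.one (nat_lit 35) (nat_lit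 96) (nat_lit 75) (nat_lit 0x2f00005e0000bea9d97e1462fbcfd) b31567 (.one (nat_lit 38) (nat_lit 97) (nat_lit 76) (nat_lit 0x2f00005e0000bed5717e6b92fc7e3) b31568 (.tok (nat_lit 41) (nat_lit 0x2f00005e0000bece5d7e5d6afc61e) (.hit (nat_lit 98) (nat_lit 77) (nat_lit 0x2f00005e0000be746d7da98afafa2) b31569 (.hit (nat_lit 99) (nat_lit 78) (nat_lit 0x2f00005e0000bece5d7e5d6afc61e) b31570 (.nil))) (.tok (nat_lit 44) (nat_lit 0x2f00005e0000beb7117e2ed2fc04b) (.hit (nat_lit 100) (nat_lit 79) (nat_lit 0x2f00005e0000be84bd7dca2afb3b6) b31571 (.hit (nat_lit 101) (nat_lit 80) (nat_lit 0x2f00005e0000beb7117e2ed2fc04b) b31572 (.nil))) (.tok (nat_lit 47) (nat_lit 0x2f00005e0000bebac57e363afc138) (.hit (nat_lit 102) (nat_lit 81) (nat_lit 0x2f00005e0000beb6dd7e2e6afc03e) b31573 (.hit (nat_lit 103) (nat_lit 82) (nat_lit 0x2f00005e0000bebac57e363afc138) b31574 (.nil))) (.one (nat_lit 50) (nat_lit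 104) (nat_lit 83) (nat_lit 0x2f00005e0000bed7797e6fa2fc865) b31575 (.tok (nat_lit 53) (nat_lit 0x2f00005e0000bee4a57e89fafcbb0) (.hit (nat_lit 105) (nat_lit 84) (nat_lit 0x2f00005e0000bee4a57e89fafcbb0) b31576 (.hit (nat_lit 106) (nat_lit 85) (nat_lit 0x2f00005e0000bec9457e533afc4d8) b31577 (.nil))) (.tok (nat_lit 56) (nat_lit 0x2f00005e0000bf50fd7f129afdcc4) (.hit (nat_lit 107) (nat_lit 86) (nat_lit 0x2f00005e0000bf33ed7ef6a2fd92a) b31578 (.one (nat_lit 3) (nat_lit 111) (nat_lit 90) (nat_lit 0x2f00005e0000bf03e17ec872fd37f) b31582 (.tok (nat_lit 6) (nat_lit 0x2f00005e0000bf50fd7f129afdcc4) (.hit (nat_lit 109) (nat_lit 88) (nat_lit 0x2f00005e0000bf50fd7f129afdcc4) b31580 (.hit (nat_lit 110) (nat_lit 89) (nat_lit 0x2f00005e0000bf04b17eca12fd3b3) b31581 (.nil))) (.one (nat_lit 9) (nat_lit 108) (nat_lit 87) (nat_lit 0x2f00005e0000bf0ffd7ee0aafd686) b31579 (.nil))))) (.one (nat_lit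 59) (nat_lit 112) (nat_lit 91) (nat_lit 0x2f00005e0000be863d7dcd2afb416) b31583 (.nil)))))))))))))))))) (.tok (nat_lit 40) (nat_lit 0x2f00005e0000c0af8d81b1cb0344f) (.hit (nat_lit 245) (nat_lit 0) (nat_lit 0x2f00005e0000c02ae58086eb009b1) b31584 (.tok (nat_lit 6) (nat_lit 0x2f00005e0000c0af8d81b1cb0344f) (.hit (nat_lit 246) (nat_lit 7) (nat_lit 0x2f00005e0000c0af8d81b1cb0344f) b31585 (.hit (nat_lit 247) (nat_lit 15) (nat_lit 0x2f00005e0000bf8d897fc45aff31c) b31586 (.nil))) (.tok (nat_lit 9) (nat_lit 0x2f00005e0000bfd70d8032b2fff0b) (.hit (nat_lit 248) (nat_lit 20) (nat_lit 0x2f00005e0000bfd70d8032b2fff0b) b31587 (.hit (nat_lit 249) (nat_lit 28) (nat_lit 0x2f00005e0000bf94417fdf12ff667) b31588 (.nil))) (.nil)))) (.tok (nat_lit 43) (nat_lit 0x2f00005e0000c093e181c2cb0364f) (.hit (nat_lit 270) (nat_lit 0) (nat_lit 0x2f00005e0000bfcb858024d3003ed) b31594 (.tok (nat_lit 3) (nat_lit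 0x2f00005e0000c093e181c2cb0364f) (.hit (nat_lit 271) (nat_lit 1) (nat_lit 0x2f00005e0000bf93617ff72aff947) b31595 (.one (nat_lit 67) (nat_lit 272) (nat_lit 2) (nat_lit 0x2f00005e0000c093e181c2cb0364f) b31596 (.nil))) (.tok (nat_lit 6) (nat_lit 0x2f00005e0000c0388d812d230214c) (.hit (nat_lit 273) (nat_lit 7) (nat_lit 0x2f00005e0000bf3c517f54aafe6a1) b31597 (.hit (nat_lit 276) (nat_lit 15) (nat_lit 0x2f00005e0000bf83997fd73aff557) b31600 (.tok (nat_lit 55) (nat_lit 0x2f00005e0000c0388d812d230214c) (.hit (nat_lit 274) (nat_lit 8) (nat_lit 0x2f00005e0000bf909180249afffc6) b31598 (.hit (nat_lit 277) (nat_lit 16) (nat_lit 0x2f00005e0000c0388d81056301cb0) b31601 (.one (nat_lit 6) (nat_lit 275) (nat_lit 9) (nat_lit 0x2f00005e0000c018e9812d230214c) b31599 (.nil)))) (.nil)))) (.nil)))) (.tok (nat_lit 46) (nat_lit 0x2f00005e0000bfe27d7ffc7b00843) (.hit (nat_lit 256) (nat_lit 0) (nat_lit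 0x2f00005e0000bfe27d7ffc7b00843) b31589 (.tok (nat_lit 3) (nat_lit 0x2f00005e0000bf5e0d7f87d2feb4c) (.hit (nat_lit 257) (nat_lit 1) (nat_lit 0x2f00005e0000befe497ec84afd35b) b31590 (.one (nat_lit 55) (nat_lit 258) (nat_lit 3) (nat_lit 0x2f00005e0000bf5e0d7f87d2feb4c) b31591 (.nil))) (.tok (nat_lit 9) (nat_lit 0x2f00005e0000bf1d717f069afdb25) (.hit (nat_lit 259) (nat_lit 20) (nat_lit 0x2f00005e0000bf1d717f069afdb25) b31592 (.hit (nat_lit 262) (nat_lit 28) (nat_lit 0x2f00005e0000bf08b57edd22fd5f6) b31593 (.nil))) (.nil)))) (.nil))))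
noncomputable def r15_247 : Rw Blk := .tok (nat_lit 3) (nat_lit 0x5e0000bc00017ec38afecff) (.hit (nat_lit 61) (nat_lit 0) (nat_lit 0x5e0000bc00017e00b2fd96a) b31602 (.tok (nat_lit 14) (nat_lit 0x5e0000bc00017ec38afecff) (.hit (nat_lit 82) (nat_lit 61) (nat_lit 0x5e0000bc00017e8cfafe7c9) b31603 (.one (nat_lit 3) (nat_lit 83) (nat_lit 62) (nat_lit 0x5e0000bc00017e2082fde92) b31604 (.tok (nat_lit 6) (nat_lit 0x5e0000bc00017e8622fecff) (.hit (nat_lit 86) (nat_lit 65) (nat_lit 0x5e0000bc00017e8622fecff) b31607 (.hit (nat_lit 87) (nat_lit 66) (nat_lit 0x5e0000bc00017def5afd86d) b31608 (.nil))) (.tok (nat_lit 9) (nat_lit 0x5e0000bc00017ec38afec26) (.hit (nat_lit 84) (nat_lit 63) (nat_lit 0x5e0000bc00017ec38afec26) b31605 (.hit (nat_lit 85) (nat_lit 64) (nat_lit 0x5e0000bc00017e6cc2fe81a) b31606 (.nil))) (.nil))))) (.one (nat_lit 17) (nat_lit 88) (nat_lit 67) (nat_lit 0x5e0000bc00017de7e2fd77e)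 b31609 (.tok (nat_lit 20) (nat_lit 0x5e0000bc00017dba92fd1d4) (.hit (nat_lit 89) (nat_lit 68) (nat_lit 0x5e0000bc00017dba92fd1d4) b31610 (.hit (nat_lit 90) (nat_lit 69) (nat_lit 0x5e0000bc00017d784afc98b) b31611 (.nil))) (.tok (nat_lit 23) (nat_lit 0x5e0000bc00017db262fd0ce) (.hit (nat_lit 91) (nat_lit 70) (nat_lit 0x5e0000bc00017db262fd0ce) b31612 (.hit (nat_lit 92) (nat_lit 71) (nat_lit 0x5e0000bc00017d784afc98b) b31611 (.nil))) (.one (nat_lit 26) (nat_lit 93) (nat_lit 72) (nat_lit 0x5e0000bc00017d1c8afbe13) b31613 (.one (nat_lit 29) (nat_lit 94) (nat_lit 73) (nat_lit 0x5e0000bc00017d226afbecf) b31614 (.one (nat_lit 32) (nat_lit 95) (nat_lit 74) (nat_lit 0x5e0000bc00017d49d2fc3bc) b31615 (.one (nat_lit 35) (nat_lit 96) (nat_lit 75) (nat_lit 0x5e0000bc00017cfc12fba04) b31616 (.one (nat_lit 38) (nat_lit 97) (nat_lit 76) (nat_lit 0x5e0000bc00017d8192fcab4) b31617 (.tok (nat_lit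 41) (nat_lit 0x5e0000bc00017dc302fd2e2) (.hit (nat_lit 98) (nat_lit 77) (nat_lit 0x5e0000bc00017ca902fafa2) b31618 (.hit (nat_lit 99) (nat_lit 78) (nat_lit 0x5e0000bc00017dc302fd2e2) b31619 (.nil))) (.tok (nat_lit 44) (nat_lit 0x5e0000bc00017d4dbafc439) (.hit (nat_lit 100) (nat_lit 79) (nat_lit 0x5e0000bc00017cf80afb983) b31620 (.hit (nat_lit 101) (nat_lit 80) (nat_lit 0x5e0000bc00017d4dbafc439) b31621 (.nil))) (.tok (nat_lit 47) (nat_lit 0x5e0000bc00017d8292fcad4) (.hit (nat_lit 102) (nat_lit 81) (nat_lit 0x5e0000bc00017d241afbf05) b31622 (.hit (nat_lit 103) (nat_lit 82) (nat_lit 0x5e0000bc00017d8292fcad4) b31623 (.nil))) (.one (nat_lit 50) (nat_lit 104) (nat_lit 83) (nat_lit 0x5e0000bc00017d6d52fc82c) b31624 (.tok (nat_lit 53) (nat_lit 0x5e0000bc00017dba2afd1c7) (.hit (nat_lit 105) (nat_lit 84) (nat_lit 0x5e0000bc00017d8982fcbb2) b31625 (.hit (nat_lit 106) (nat_lit 85) (nat_lit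 0x5e0000bc00017dba2afd1c7) b31626 (.nil))) (.tok (nat_lit 56) (nat_lit 0x5e0000bc00017e8c9afe1a9) (.hit (nat_lit 107) (nat_lit 86) (nat_lit 0x5e0000bc00017e7bf2fdf7d) b31627 (.one (nat_lit 3) (nat_lit 111) (nat_lit 90) (nat_lit 0x5e0000bc00017e015afdaad) b31631 (.tok (nat_lit 6) (nat_lit 0x5e0000bc00017e8c9afe1a9) (.hit (nat_lit 109) (nat_lit 88) (nat_lit 0x5e0000bc00017e8c9afe1a9) b31629 (.hit (nat_lit 110) (nat_lit 89) (nat_lit 0x5e0000bc00017db7aafd177) b31630 (.nil))) (.one (nat_lit 9) (nat_lit 108) (nat_lit 87) (nat_lit 0x5e0000bc00017dfe42fda4a) b31628 (.nil))))) (.one (nat_lit 59) (nat_lit 112) (nat_lit 91) (nat_lit 0x5e0000bc00017cd852fb58c) b31632 (.nil)))))))))))))))))) (.tok (nat_lit 40) (nat_lit 0x5e0000bc00017fdaeb014b5) (.hit (nat_lit 245) (nat_lit 0) (nat_lit 0x5e0000bc00017fdaeb014b5) b31633 (.tok (nat_lit 6) (nat_lit 0x5e0000bc00017f9fb300a0d) (.hit (nat_lit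 246) (nat_lit 7) (nat_lit 0x5e0000bc00017f9fb300a0d) b31634 (.hit (nat_lit 247) (nat_lit 15) (nat_lit 0x5e0000bc00017f311afffa1) b31635 (.nil))) (.tok (nat_lit 9) (nat_lit 0x5e0000bc00017f952b009f9) (.hit (nat_lit 248) (nat_lit 20) (nat_lit 0x5e0000bc00017f952b009f9) b31636 (.hit (nat_lit 249) (nat_lit 28) (nat_lit 0x5e0000bc00017f17b2ffe17) b31637 (.nil))) (.nil)))) (.tok (nat_lit 43) (nat_lit 0x5e0000bc0001805983025c8) (.hit (nat_lit 270) (nat_lit 0) (nat_lit 0x5e0000bc00017f3ef3003b9) b31643 (.tok (nat_lit 3) (nat_lit 0x5e0000bc0001805983025c8) (.hit (nat_lit 271) (nat_lit 1) (nat_lit 0x5e0000bc00017edda2ffd1c) b31644 (.one (nat_lit 67) (nat_lit 272) (nat_lit 2) (nat_lit 0x5e0000bc0001805983025c8) b31645 (.nil))) (.tok (nat_lit 6) (nat_lit 0x5e0000bc00018006eb0143e) (.hit (nat_lit 273) (nat_lit 7) (nat_lit 0x5e0000bc00017ec3b2ff077) b31646 (.hit (nat_lit 276) (nat_lit 15)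 (nat_lit 0x5e0000bc00017ebd62ff949) b31649 (.tok (nat_lit 55) (nat_lit 0x5e0000bc00018006eb0143e) (.hit (nat_lit 274) (nat_lit 8) (nat_lit 0x5e0000bc00017f82a300b98) b31647 (.hit (nat_lit 277) (nat_lit 16) (nat_lit 0x5e0000bc00017fcb6b0143e) b31650 (.one (nat_lit 6) (nat_lit 275) (nat_lit 9) (nat_lit 0x5e0000bc00018006eb013b1) b31648 (.nil)))) (.nil)))) (.nil)))) (.tok (nat_lit 46) (nat_lit 0x5e0000bc00017fcd530162e) (.hit (nat_lit 256) (nat_lit 0) (nat_lit 0x5e0000bc00017f9f5b00afc) b31638 (.tok (nat_lit 3) (nat_lit 0x5e0000bc00017f93530162e) (.hit (nat_lit 257) (nat_lit 1) (nat_lit 0x5e0000bc00017ed322ff741) b31639 (.one (nat_lit 55) (nat_lit 258) (nat_lit 3) (nat_lit 0x5e0000bc00017f93530162e) b31640 (.nil))) (.tok (nat_lit 9) (nat_lit 0x5e0000bc00017fcd5301579) (.hit (nat_lit 259) (nat_lit 20) (nat_lit 0x5e0000bc00017fcd5301579) b31641 (.hit (nat_lit 262) (nat_lit 28) (nat_lit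 0x5e0000bc00017f6f2b0065f) b31642 (.nil))) (.nil)))) (.nil))))
noncomputable def r15_248 : Rw Blk := .tok (nat_lit 3) (nat_lit 0x2f00005e0000bf77b57f5f92fead2) (.hit (nat_lit 61) (nat_lit 0) (nat_lit 0x2f00005e0000bf13f17eacf2fd3af) b31651 (.tok (nat_lit 14) (nat_lit 0x2f00005e0000bf77b57f5f92fead2) (.hit (nat_lit 82) (nat_lit 61) (nat_lit 0x2f00005e0000bf572d7ec0f2fdb74) b31652 (.one (nat_lit 3) (nat_lit 83) (nat_lit 62) (nat_lit 0x2f00005e0000bef88d7de78afbda1) b31653 (.tok (nat_lit 6) (nat_lit 0x2f00005e0000bf77b57f5f92fead2) (.hit (nat_lit 86) (nat_lit 65) (nat_lit 0x2f00005e0000bf77b57f5f92fead2) b31656 (.hit (nat_lit 87) (nat_lit 66) (nat_lit 0x2f00005e0000bf03817dfd72fc05e) b31657 (.nil))) (.tok (nat_lit 9) (nat_lit 0x2f00005e0000bf0ab97e0be2fc22c) (.hit (nat_lit 84) (nat_lit 63) (nat_lit 0x2f00005e0000bf074d7e050afc151) b31654 (.hit (nat_lit 85) (nat_lit 64) (nat_lit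 0x2f00005e0000bf0ab97e0be2fc22c) b31655 (.nil))) (.nil))))) (.one (nat_lit 17) (nat_lit 88) (nat_lit 67) (nat_lit 0x2f00005e0000bee7157dc49afb943) b31658 (.tok (nat_lit 20) (nat_lit 0x2f00005e0000bf184d7e270afc591) (.hit (nat_lit 89) (nat_lit 68) (nat_lit 0x2f00005e0000bf184d7e270afc591) b31659 (.hit (nat_lit 90) (nat_lit 69) (nat_lit 0x2f00005e0000bedfb97db5e2fb76c) b31660 (.nil))) (.tok (nat_lit 23) (nat_lit 0x2f00005e0000beffb97df5e2fbf6c) (.hit (nat_lit 91) (nat_lit 70) (nat_lit 0x2f00005e0000beffb97df5e2fbf6c) b31661 (.hit (nat_lit 92) (nat_lit 71) (nat_lit 0x2f00005e0000bedf397db4e2fb74c) b31662 (.nil))) (.one (nat_lit 26) (nat_lit 93) (nat_lit 72) (nat_lit 0x2f00005e0000be954d7d210afa4d1) b31663 (.one (nat_lit 29) (nat_lit 94) (nat_lit 73) (nat_lit 0x2f00005e0000be9f797d3562fa75c) b31664 (.one (nat_lit 32) (nat_lit 95) (nat_lit 74) (nat_lit 0x2f00005e0000beaffd7d566afab7d)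 b31665 (.one (nat_lit 35) (nat_lit 96) (nat_lit 75) (nat_lit 0x2f00005e0000bec4357d7edafb08b) b31666 (.one (nat_lit 38) (nat_lit 97) (nat_lit 76) (nat_lit 0x2f00005e0000bedb957dad9afb663) b31667 (.tok (nat_lit 41) (nat_lit 0x2f00005e0000bed4817d9f72fb49e) (.hit (nat_lit 98) (nat_lit 77) (nat_lit 0x2f00005e0000be7a917ceb92f9e22) b31668 (.hit (nat_lit 99) (nat_lit 78) (nat_lit 0x2f00005e0000bed4817d9f72fb49e) b31669 (.nil))) (.tok (nat_lit 44) (nat_lit 0x2f00005e0000bec0e97d7842fafb8) (.hit (nat_lit 100) (nat_lit 79) (nat_lit 0x2f00005e0000bebd017d7072faebe) b31670 (.hit (nat_lit 101) (nat_lit 80) (nat_lit 0x2f00005e0000bec0e97d7842fafb8) b31671 (.nil))) (.tok (nat_lit 47) (nat_lit 0x2f00005e0000bebd357d70dafaecb) (.hit (nat_lit 102) (nat_lit 81) (nat_lit 0x2f00005e0000be8ae17d0c32fa236) b31672 (.hit (nat_lit 103) (nat_lit 82) (nat_lit 0x2f00005e0000bebd357d70dafaecb) b31673 (.nil)))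 (.one (nat_lit 62) (nat_lit 113) (nat_lit 92) (nat_lit 0x2f00005e0000bedd9d7db1aafb6e5) b31674 (.tok (nat_lit 65) (nat_lit 0x2f00005e0000beeac97dcc02fba30) (.hit (nat_lit 114) (nat_lit 93) (nat_lit 0x2f00005e0000beeac97dcc02fba30) b31675 (.hit (nat_lit 115) (nat_lit 94) (nat_lit 0x2f00005e0000becf697d9542fb358) b31676 (.nil))) (.tok (nat_lit 68) (nat_lit 0x2f00005e0000bf57217f1042fe0c5) (.hit (nat_lit 116) (nat_lit 95) (nat_lit 0x2f00005e0000bf3a117f0f3afda0f) b31677 (.one (nat_lit 3) (nat_lit 120) (nat_lit 99) (nat_lit 0x2f00005e0000bf0a057e0a7afc1ff) b31681 (.one (nat_lit 6) (nat_lit 117) (nat_lit 96) (nat_lit 0x2f00005e0000bf16217e22b2fc506) b31678 (.tok (nat_lit 9) (nat_lit 0x2f00005e0000bf57217f1042fe0c5) (.hit (nat_lit 118) (nat_lit 97) (nat_lit 0x2f00005e0000bf57217f1042fe0c5) b31679 (.hit (nat_lit 119) (nat_lit 98) (nat_lit 0x2f00005e0000bf0ad57e0c1afc233) b31680 (.nil)))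 (.nil))))) (.one (nat_lit 71) (nat_lit 121) (nat_lit 100) (nat_lit 0x2f00005e0000be8c617d0f32fa296) b31682 (.nil)))))))))))))))))) (.tok (nat_lit 40) (nat_lit 0x2f00005e0000c0b5b181c2cb03533) (.hit (nat_lit 221) (nat_lit 0) (nat_lit 0x2f00005e0000c031098053fb00d0c) b31683 (.tok (nat_lit 6) (nat_lit 0x2f00005e0000bfdd317fd152ffcf1) (.hit (nat_lit 222) (nat_lit 7) (nat_lit 0x2f00005e0000bfdd317fd152ffcf1) b31684 (.hit (nat_lit 223) (nat_lit 15) (nat_lit 0x2f00005e0000bf9a657fb4c2ff559) b31685 (.nil))) (.tok (nat_lit 9) (nat_lit 0x2f00005e0000c0b5b181c2cb03533) (.hit (nat_lit 224) (nat_lit 20) (nat_lit 0x2f00005e0000c0b5b181c2cb03533) b31686 (.hit (nat_lit 225) (nat_lit 28) (nat_lit 0x2f00005e0000bf93ad7facc2ff38e) b31687 (.nil))) (.nil)))) (.tok (nat_lit 43) (nat_lit 0x2f00005e0000bfe8a17ffd53007cc) (.hit (nat_lit 232) (nat_lit 0) (nat_lit 0x2f00005e0000bfe8a17ffd53007cc) b31688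 (.tok (nat_lit 3) (nat_lit 0x2f00005e0000bf64317f62f2feb68) (.hit (nat_lit 233) (nat_lit 1) (nat_lit 0x2f00005e0000bf046d7ea36afd377) b31689 (.one (nat_lit 67) (nat_lit 234) (nat_lit 2) (nat_lit 0x2f00005e0000bf64317f62f2feb68) b31690 (.nil))) (.tok (nat_lit 6) (nat_lit 0x2f00005e0000bf23957ee1bafdb41) (.hit (nat_lit 235) (nat_lit 7) (nat_lit 0x2f00005e0000bf23957ee1bafdb41) b31691 (.hit (nat_lit 238) (nat_lit 15) (nat_lit 0x2f00005e0000bf0ed97eb842fd612) b31692 (.nil))) (.nil)))) (.tok (nat_lit 46) (nat_lit 0x2f00005e0000c09a05819ffb035fe) (.hit (nat_lit 246) (nat_lit 0) (nat_lit 0x2f00005e0000bfd1a9806a8b00611) b31693 (.tok (nat_lit 3) (nat_lit 0x2f00005e0000c09a05819ffb035fe) (.hit (nat_lit 247) (nat_lit 1) (nat_lit 0x2f00005e0000bf99857fc73aff7af) b31694 (.one (nat_lit 55) (nat_lit 248) (nat_lit 3) (nat_lit 0x2f00005e0000c09a05819ffb035fe) b31695 (.nil))) (.tok (nat_lit 9)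 (nat_lit 0x2f00005e0000c03eb18122130225b) (.hit (nat_lit 249) (nat_lit 20) (nat_lit 0x2f00005e0000bf42757f40f2fe48c) b31696 (.hit (nat_lit 252) (nat_lit 28) (nat_lit 0x2f00005e0000bf89bd7f85fafee56) b31699 (.tok (nat_lit 67) (nat_lit 0x2f00005e0000c03eb18122130225b) (.hit (nat_lit 250) (nat_lit 21) (nat_lit 0x2f00005e0000bf96b5805a0b0052f) b31697 (.hit (nat_lit 253) (nat_lit 29) (nat_lit 0x2f00005e0000c03eb1811b4b0225b) b31700 (.one (nat_lit 9) (nat_lit 251) (nat_lit 22) (nat_lit 0x2f00005e0000c01f0d81221301c4e) b31698 (.nil)))) (.nil)))) (.nil)))) (.nil))))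
noncomputable def r15_249 : Rw Blk := .tok (nat_lit 3) (nat_lit 0x5e0000bc00017ee09afecb6) (.hit (nat_lit 61) (nat_lit 0) (nat_lit 0x5e0000bc00017e1dc2fdb5e) b31701 (.tok (nat_lit 14) (nat_lit 0x5e0000bc00017ee09afecb6) (.hit (nat_lit 82) (nat_lit 61) (nat_lit 0x5e0000bc00017eaa0afe986) b31702 (.one (nat_lit 3) (nat_lit 83) (nat_lit 62) (nat_lit 0x5e0000bc00017e3d92fd216) b31703 (.tok (nat_lit 6) (nat_lit 0x5e0000bc00017ee09afecb6) (.hit (nat_lit 86) (nat_lit 65) (nat_lit 0x5e0000bc00017ee09afecb6) b31706 (.hit (nat_lit 87) (nat_lit 66) (nat_lit 0x5e0000bc00017e89d2fdb9e) b31707 (.nil))) (.tok (nat_lit 9) (nat_lit 0x5e0000bc00017ea332fe16e) (.hit (nat_lit 84) (nat_lit 63) (nat_lit 0x5e0000bc00017ea332fe16e) b31704 (.hit (nat_lit 85) (nat_lit 64) (nat_lit 0x5e0000bc00017e0c6afcbf1) b31705 (.nil))) (.nil))))) (.one (nat_lit 17) (nat_lit 88) (nat_lit 67) (nat_lit 0x5e0000bc00017e04f2fcb02)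 b31708 (.tok (nat_lit 20) (nat_lit 0x5e0000bc00017dcf72fc452) (.hit (nat_lit 89) (nat_lit 68) (nat_lit 0x5e0000bc00017dcf72fc452) b31709 (.hit (nat_lit 90) (nat_lit 69) (nat_lit 0x5e0000bc00017d955afbd0f) b31710 (.nil))) (.tok (nat_lit 23) (nat_lit 0x5e0000bc00017dd7a2fc558) (.hit (nat_lit 91) (nat_lit 70) (nat_lit 0x5e0000bc00017dd7a2fc558) b31711 (.hit (nat_lit 92) (nat_lit 71) (nat_lit 0x5e0000bc00017d955afbd0f) b31710 (.nil))) (.one (nat_lit 26) (nat_lit 93) (nat_lit 72) (nat_lit 0x5e0000bc00017d399afb197) b31712 (.one (nat_lit 29) (nat_lit 94) (nat_lit 73) (nat_lit 0x5e0000bc00017d3f7afb253) b31713 (.one (nat_lit 32) (nat_lit 95) (nat_lit 74) (nat_lit 0x5e0000bc00017d1922fad88) b31714 (.one (nat_lit 35) (nat_lit 96) (nat_lit 75) (nat_lit 0x5e0000bc00017d66e2fb740) b31715 (.one (nat_lit 38) (nat_lit 97) (nat_lit 76) (nat_lit 0x5e0000bc00017d9ea2fbe38) b31716 (.tok (nat_lit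 41) (nat_lit 0x5e0000bc00017de012fc666) (.hit (nat_lit 98) (nat_lit 77) (nat_lit 0x5e0000bc00017cc612fa326) b31717 (.hit (nat_lit 99) (nat_lit 78) (nat_lit 0x5e0000bc00017de012fc666) b31718 (.nil))) (.tok (nat_lit 44) (nat_lit 0x5e0000bc00017d9fa2fbe58) (.hit (nat_lit 100) (nat_lit 79) (nat_lit 0x5e0000bc00017d412afb289) b31719 (.hit (nat_lit 101) (nat_lit 80) (nat_lit 0x5e0000bc00017d9fa2fbe58) b31720 (.nil))) (.tok (nat_lit 47) (nat_lit 0x5e0000bc00017d6acafb7bd) (.hit (nat_lit 102) (nat_lit 81) (nat_lit 0x5e0000bc00017d151afad07) b31721 (.hit (nat_lit 103) (nat_lit 82) (nat_lit 0x5e0000bc00017d6acafb7bd) b31722 (.nil))) (.one (nat_lit 62) (nat_lit 113) (nat_lit 92) (nat_lit 0x5e0000bc00017d8a62fbbb0) b31723 (.tok (nat_lit 65) (nat_lit 0x5e0000bc00017dd73afc54b) (.hit (nat_lit 114) (nat_lit 93) (nat_lit 0x5e0000bc00017da692fbf36) b31724 (.hit (nat_lit 115) (nat_lit 94) (nat_lit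 0x5e0000bc00017dd73afc54b) b31725 (.nil))) (.tok (nat_lit 68) (nat_lit 0x5e0000bc00017ea9aafe89e) (.hit (nat_lit 116) (nat_lit 95) (nat_lit 0x5e0000bc00017e9902fe59d) b31726 (.one (nat_lit 3) (nat_lit 120) (nat_lit 99) (nat_lit 0x5e0000bc00017e1e6afce31) b31730 (.one (nat_lit 6) (nat_lit 117) (nat_lit 96) (nat_lit 0x5e0000bc00017e1b52fcdce) b31727 (.tok (nat_lit 9) (nat_lit 0x5e0000bc00017ea9aafe89e) (.hit (nat_lit 118) (nat_lit 97) (nat_lit 0x5e0000bc00017ea9aafe89e) b31728 (.hit (nat_lit 119) (nat_lit 98) (nat_lit 0x5e0000bc00017dd4bafc4fb) b31729 (.nil))) (.nil))))) (.one (nat_lit 71) (nat_lit 121) (nat_lit 100) (nat_lit 0x5e0000bc00017cf562fa910) b31731 (.nil)))))))))))))))))) (.tok (nat_lit 40) (nat_lit 0x5e0000bc00017ff7fb015d3) (.hit (nat_lit 221) (nat_lit 0) (nat_lit 0x5e0000bc00017ff7fb015d3) b31732 (.tok (nat_lit 6) (nat_lit 0x5e0000bc00017fb23b009e2) (.hit (nat_lit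 222) (nat_lit 7) (nat_lit 0x5e0000bc00017fb23b009e2) b31733 (.hit (nat_lit 223) (nat_lit 15) (nat_lit 0x5e0000bc00017f34c2ffccd) b31734 (.nil))) (.tok (nat_lit 9) (nat_lit 0x5e0000bc00017fbcc300b8e) (.hit (nat_lit 224) (nat_lit 20) (nat_lit 0x5e0000bc00017fbcc300b8e) b31735 (.hit (nat_lit 225) (nat_lit 28) (nat_lit 0x5e0000bc00017f4e2b00125) b31736 (.nil))) (.nil)))) (.tok (nat_lit 43) (nat_lit 0x5e0000bc00017fea6301634) (.hit (nat_lit 232) (nat_lit 0) (nat_lit 0x5e0000bc00017fbc6b00c65) b31737 (.tok (nat_lit 3) (nat_lit 0x5e0000bc00017fb06300bb0) (.hit (nat_lit 233) (nat_lit 1) (nat_lit 0x5e0000bc00017ef032ff626) b31738 (.one (nat_lit 67) (nat_lit 234) (nat_lit 2) (nat_lit 0x5e0000bc00017fb06300bb0) b31739 (.nil))) (.tok (nat_lit 6) (nat_lit 0x5e0000bc00017fea6301634) (.hit (nat_lit 235) (nat_lit 7) (nat_lit 0x5e0000bc00017fea6301634) b31740 (.hit (nat_lit 238) (nat_lit 15)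 (nat_lit 0x5e0000bc00017f8c3b007d4) b31741 (.nil))) (.nil)))) (.tok (nat_lit 46) (nat_lit 0x5e0000bc000180769302770) (.hit (nat_lit 246) (nat_lit 0) (nat_lit 0x5e0000bc00017f5c0300332) b31742 (.tok (nat_lit 3) (nat_lit 0x5e0000bc000180769302770) (.hit (nat_lit 247) (nat_lit 1) (nat_lit 0x5e0000bc00017efab2ffbf0) b31743 (.one (nat_lit 55) (nat_lit 248) (nat_lit 3) (nat_lit 0x5e0000bc000180769302770) b31744 (.nil))) (.tok (nat_lit 9) (nat_lit 0x5e0000bc00018023fb016d2) (.hit (nat_lit 249) (nat_lit 20) (nat_lit 0x5e0000bc00017ee0c2fee7b) b31745 (.hit (nat_lit 252) (nat_lit 28) (nat_lit 0x5e0000bc00017eda72ff6bf) b31748 (.tok (nat_lit 67) (nat_lit 0x5e0000bc00018023fb016d2) (.hit (nat_lit 250) (nat_lit 21) (nat_lit 0x5e0000bc00017f9fb30131c) b31746 (.hit (nat_lit 253) (nat_lit 29) (nat_lit 0x5e0000bc00017fe87b016d2) b31749 (.one (nat_lit 9) (nat_lit 251) (nat_lit 22) (nat_lit 0x5e0000bc00018023fb010b1)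 b31747 (.nil)))) (.nil)))) (.nil)))) (.nil))))
noncomputable def r15_250 : Rw Blk := .tok (nat_lit 3) (nat_lit 0x5fb792bf1a417efe02fe0625fa8f8bf7d017ebe12fe5475fca8ebfb4317f83caff0b6) (.hit (nat_lit 0) (nat_lit 0) (nat_lit 0x5fb792bf1a417efe02fe0625fa8f8bf7d017ebe12fe5475fca8ebfb4317f83caff0b6) b31750 (.tok (nat_lit 6) (nat_lit 0x5f9d3abebd357ee94afd1305f63a4bf46797dadeafbc5e5f7600bf66b97eb1cafe489) (.hit (nat_lit 1) (nat_lit 7) (nat_lit 0x5f9d3abebd357ee94afd1305f63a4bf46797dadeafbc5e5f7600bf66b97e08b2fe489) b31751 (.hit (nat_lit 6) (nat_lit 15) (nat_lit 0x5f985cbeb3797ea92afcec15f5ec6bf3cbd7d9a72fb9ef5f7122bf4eb17eb1cafe22a) b31752 (.nil))) (.tok (nat_lit 9) (nat_lit 0x5f9d3abebd357ee94afd1305f63a4bf46797dadeafbc5e5f7600bf4b1d7f1fa2fe499) (.hit (nat_lit 10) (nat_lit 20) (nat_lit 0x5f9d3abebd357ee94afd1305f63a4bf46797dadeafbc5e5f7600bee25d7f1fa2fe499) b31753 (.hit (nat_lit 15)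 (nat_lit 28) (nat_lit 0x5f985cbeb3797ea92afcec15f5ec6bf3cbd7d9a72fb9ef5f7122bf4b1d7eb922fe24e) b31754 (.nil))) (.nil)))) (.tok (nat_lit 6) (nat_lit 0x600000c00001800003000005fc068c0000180983b00000600000c003e17f91d300000) (.hit (nat_lit 81) (nat_lit 0) (nat_lit 0x5fe418bf77a97f5982ff49e5fb4f6bfbe9d7f8852fee7a5fe09cbfbeb97f91d2ff15a) b31755 (.one (nat_lit 3) (nat_lit 82) (nat_lit 1) (nat_lit 0x5fae12bee81d7edd92fd3d65f5390bf2e757ee72afdbc95fb792bf9dc17e449afe412) b31756 (.tok (nat_lit 6) (nat_lit 0x600000c00001800003000005fc068c0000180983b00000600000c003e17f7bc300000) (.hit (nat_lit 87) (nat_lit 7) (nat_lit 0x5fd5fcbf61117f474afe7495f7a08bf73417f261afdda45fcdeebfcee97e6242fe41d) b31757 (.hit (nat_lit 95) (nat_lit 15) (nat_lit 0x5fb27ebee6857e9eeafd5775f42a0bf34f97eef42fdd6a5fbad4bf8ce17e1572fdfdb) b31761 (.tok (nat_lit 55) (nat_lit 0x600000c00001800003000005fc068c0000180983b00000600000c003e17f7bc300000)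 (.hit (nat_lit 88) (nat_lit 8) (nat_lit 0x5ffd88bf9fd17f877affedf5fa1e8bfd1d57fd082ff4965fea8cc003e17f01c2ffa5c) b31758 (.hit (nat_lit 96) (nat_lit 16) (nat_lit 0x5fe3aebf58897f79baff12c5f9e76bfbc1d7fb2daff8515ff09ebff6857f3a9affc98) b31762 (.tok (nat_lit 6) (nat_lit 0x600000c00001800003000005fc068c0000180983b00000600000c002397f7bc300000) (.hit (nat_lit 89) (nat_lit 9) (nat_lit 0x5fe812bfbf1d7f9292ff2435fa5cabfcac5800402ff2e95fe5d2bfe9117f114aff667) b31759 (.one (nat_lit 55) (nat_lit 90) (nat_lit 10) (nat_lit 0x600000c00001800003000005fc068c0000180983b00000600000c002397f7bc300000) b31760 (.nil))) (.nil)))) (.nil)))) (.nil)))) (.tok (nat_lit 9) (nat_lit 0x600000c00001800002fff92600000c000017f20faff3315fe18cbfabd5800002ff953) (.hit (nat_lit 157) (nat_lit 0) (nat_lit 0x5fe418bf77a97f5982feff55fd448bfc4157eebfafed105fd1debfabd57f83c2fefc0) b31763 (.one (nat_lit 3) (nat_lit 158) (nat_lit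 1) (nat_lit 0x5fae12bee81d7edd92fccbf5fb33ebf4ad17d6d9afdbc95fb792bf01117f56eafe412) b31764 (.tok (nat_lit 9) (nat_lit 0x600000c00001800002fff92600000c000017f20faff3315fe18cbf9be5800002ff953) (.hit (nat_lit 163) (nat_lit 20) (nat_lit 0x5fd5fcbf61117f474afdc625fc138bf8cc57e077afe6a65fb286bf0f257f9332fe3fe) b31765 (.hit (nat_lit 171) (nat_lit 28) (nat_lit 0x5fb27ebee6857e9eeafce605fb544bf51557d29dafdd6a5fbad4bee97d7f1f02fdfdb) b31769 (.tok (nat_lit 67) (nat_lit 0x600000c00001800002fff92600000c000017f20faff3315fe18cbf9be5800002ff953) (.hit (nat_lit 164) (nat_lit 21) (nat_lit 0x5ffd88bf9fd17f877aff5915fe470bff0097ea6faff0165fd2acbf5ee57fef9aff69e) b31766 (.hit (nat_lit 172) (nat_lit 29) (nat_lit 0x5fe3aebf58897f79bafee995fe1b8bfc0297e9932ff3315fe18cbf7c11800002ff953) b31770 (.tok (nat_lit 9) (nat_lit 0x600000c00001800002fff92600000c000017f20faff1305fda56bf9be57fd72aff58b) (.hit (nat_lit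 165) (nat_lit 22) (nat_lit 0x5fe812bfbf1d7f9292ff2435ff5a4bfcac57eb682ff1305fda56bf66a97fb4faff51f) b31767 (.one (nat_lit 67) (nat_lit 166) (nat_lit 23) (nat_lit 0x600000c00001800002fff92600000c000017f20faff0f05fd2c4bf9be57fd72aff58b) b31768 (.nil))) (.nil)))) (.nil)))) (.nil)))) (.nil)))
noncomputable def r15_251 : Rw Blk := .tok (nat_lit 6) (nat_lit 0x5e0000bc000180000300000) (.hit (nat_lit 51) (nat_lit 0) (nat_lit 0x5e0000bc00017fba1aff0a3) b31781 (.tok (nat_lit 3) (nat_lit 0x5e0000bc00017ff662ff334) (.hit (nat_lit 52) (nat_lit 1) (nat_lit 0x5e0000bc00017ee65afd3c6) b31772 (.one (nat_lit 14) (nat_lit 53) (nat_lit 4) (nat_lit 0x5e0000bc00017ff662ff334) b31782 (.one (nat_lit 68) (nat_lit 54) (nat_lit 5) (nat_lit 0x5e0000bc00017f79f2fe837) b31783 (.nil)))) (.tok (nat_lit 40) (nat_lit 0x5e0000bc00017faef2fed19) (.hit (nat_lit 56) (nat_lit 33) (nat_lit 0x5e0000bc00017faef2fed19)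 b31784 (.hit (nat_lit 57) (nat_lit 34) (nat_lit 0x5e0000bc00017f9ec2fe5a0) b31776 (.nil))) (.tok (nat_lit 43) (nat_lit 0x5e0000bc000180000300000) (.hit (nat_lit 58) (nat_lit 35) (nat_lit 0x5e0000bc000180000300000) b31785 (.hit (nat_lit 59) (nat_lit 36) (nat_lit 0x5e0000bc00017fb572ff064) b31780 (.nil))) (.tok (nat_lit 46) (nat_lit 0x5e0000bc00017fdec2fef83) (.hit (nat_lit 60) (nat_lit 37) (nat_lit 0x5e0000bc00017f2b7afdc6a) b31777 (.hit (nat_lit 61) (nat_lit 38) (nat_lit 0x5e0000bc00017fdec2fef83) b31786 (.nil))) (.nil)))))) (.tok (nat_lit 9) (nat_lit 0x5e0000bc0001800002fffff) (.hit (nat_lit 0) (nat_lit 0) (nat_lit 0x5e0000bc00017fba1aff125) b31771 (.tok (nat_lit 3) (nat_lit 0x5e0000bc00017ff662ff3c2) (.hit (nat_lit 1) (nat_lit 1) (nat_lit 0x5e0000bc00017ee65afd3c6) b31772 (.one (nat_lit 14) (nat_lit 2) (nat_lit 4) (nat_lit 0x5e0000bc00017ff662ff3c2) b31773 (.one (nat_lit 56)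 (nat_lit 4) (nat_lit 6) (nat_lit 0x5e0000bc00017f79f2fe817) b31774 (.nil)))) (.tok (nat_lit 40) (nat_lit 0x5e0000bc00017faef2fed20) (.hit (nat_lit 5) (nat_lit 33) (nat_lit 0x5e0000bc00017faef2fed20) b31775 (.hit (nat_lit 6) (nat_lit 34) (nat_lit 0x5e0000bc00017f9ec2fe5a0) b31776 (.nil))) (.tok (nat_lit 43) (nat_lit 0x5e0000bc00017fdec2ff72c) (.hit (nat_lit 7) (nat_lit 35) (nat_lit 0x5e0000bc00017f2b7afdc6a) b31777 (.hit (nat_lit 8) (nat_lit 36) (nat_lit 0x5e0000bc00017fdec2ff72c) b31778 (.nil))) (.tok (nat_lit 46) (nat_lit 0x5e0000bc0001800002fffff) (.hit (nat_lit 9) (nat_lit 37) (nat_lit 0x5e0000bc0001800002fffff) b31779 (.hit (nat_lit 10) (nat_lit 38) (nat_lit 0x5e0000bc00017fb572ff064) b31780 (.nil))) (.nil)))))) (.nil))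
noncomputable def r15_252 : Rw Blk := .tok (nat_lit 3) (nat_lit 0x2f00005e0000bf54f97ef4aafdd03) (.hit (nat_lit 61) (nat_lit 0) (nat_lit 0x2f00005e0000bf48217e9f32fd1d2) b31807 (.tok (nat_lit 9) (nat_lit 0x2f00005e0000bf54f97ef4aafdd03) (.hit (nat_lit 62) (nat_lit 20) (nat_lit 0x2f00005e0000beeed97e286afc37b) b31808 (.hit (nat_lit 67) (nat_lit 28) (nat_lit 0x2f00005e0000beb6517db75afb559) b31813 (.tok (nat_lit 14) (nat_lit 0x2f00005e0000bf36f17eb89afd581) (.hit (nat_lit 63) (nat_lit 24) (nat_lit 0x2f00005e0000bef7257e3902fc58e) b31809 (.hit (nat_lit 68) (nat_lit 30) (nat_lit 0x2f00005e0000bf06ad7e5812fc970) b31814 (.one (nat_lit 6) (nat_lit 64) (nat_lit 25) (nat_lit 0x2f00005e0000bf36f17eb89afd581) b31810 (.nil)))) (.one (nat_lit 56) (nat_lit 69) (nat_lit 31) (nat_lit 0x2f00005e0000bf00497e4b4afc7d7) b31815 (.tok (nat_lit 68) (nat_lit 0x2f00005e0000bf54f97ef4aafdd03) (.hit (nat_lit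 65) (nat_lit 26) (nat_lit 0x2f00005e0000bf34c17eb43afd4f5) b31811 (.hit (nat_lit 70) (nat_lit 32) (nat_lit 0x2f00005e0000befa497e3f4afc657) b31816 (.one (nat_lit 9) (nat_lit 66) (nat_lit 27) (nat_lit 0x2f00005e0000bf54f97ef4aafdd03) b31812 (.nil)))) (.nil)))))) (.nil))) (.tok (nat_lit 6) (nat_lit 0x2f00005e0000c0000180180300323) (.hit (nat_lit 0) (nat_lit 0) (nat_lit 0x2f00005e0000bfabfd7f4592fdb3a) b31787 (.tok (nat_lit 6) (nat_lit 0x2f00005e0000bffef57fd1a2fffa6) (.hit (nat_lit 1) (nat_lit 7) (nat_lit 0x2f00005e0000bf621d7e7eb2fd129) b31788 (.hit (nat_lit 6) (nat_lit 15) (nat_lit 0x2f00005e0000bf18297e0cc2fb743) b31793 (.tok (nat_lit 14) (nat_lit 0x2f00005e0000bfe05d7fb97affd30) (.hit (nat_lit 2) (nat_lit 11) (nat_lit 0x2f00005e0000bfe05d7fb5c2ffd30) b31789 (.hit (nat_lit 7) (nat_lit 17) (nat_lit 0x2f00005e0000bf99717eee62fd9c9) b31794 (.one (nat_lit 9) (nat_lit 3) (nat_lit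 12) (nat_lit 0x2f00005e0000bfdb317fb97affb3c) b31790 (.nil)))) (.tok (nat_lit 56) (nat_lit 0x2f00005e0000bffef57fd1a2fffa6) (.hit (nat_lit 4) (nat_lit 13) (nat_lit 0x2f00005e0000bfbe657f24c2fe87b) b31791 (.hit (nat_lit 9) (nat_lit 19) (nat_lit 0x2f00005e0000bf58857ed532fd6a3) b31795 (.one (nat_lit 6) (nat_lit 5) (nat_lit 14) (nat_lit 0x2f00005e0000bffef57fd1a2fffa6) b31792 (.nil)))) (.nil))))) (.tok (nat_lit 52) (nat_lit 0x2f00005e0000bfaaa97f3cc2fdf30) (.hit (nat_lit 10) (nat_lit 39) (nat_lit 0x2f00005e0000bf75dd7f213afde5a) b31796 (.hit (nat_lit 11) (nat_lit 40) (nat_lit 0x2f00005e0000bfaaa97f3cc2fdf30) b31797 (.nil))) (.tok (nat_lit 55) (nat_lit 0x2f00005e0000c0000180180300323) (.hit (nat_lit 12) (nat_lit 41) (nat_lit 0x2f00005e0000bfe2157fe802ff7e5) b31798 (.tok (nat_lit 3) (nat_lit 0x2f00005e0000c0000180180300323) (.hit (nat_lit 18) (nat_lit 47) (nat_lit 0x2f00005e0000bfb2357f8e72ff05a)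 b31804 (.one (nat_lit 67) (nat_lit 19) (nat_lit 48) (nat_lit 0x2f00005e0000c0000180180300323) b31805 (.nil))) (.tok (nat_lit 6) (nat_lit 0x2f00005e0000bff2057fd78aff85f) (.hit (nat_lit 13) (nat_lit 42) (nat_lit 0x2f00005e0000bf83c97f059afde6c) b31799 (.hit (nat_lit 16) (nat_lit 45) (nat_lit 0x2f00005e0000bfb3a17f48cafe820) b31802 (.tok (nat_lit 55) (nat_lit 0x2f00005e0000bff2057fd78aff85f) (.hit (nat_lit 14) (nat_lit 43) (nat_lit 0x2f00005e0000bfdaf57fd28aff15a) b31800 (.hit (nat_lit 17) (nat_lit 46) (nat_lit 0x2f00005e0000bff2057fc082ff801) b31803 (.one (nat_lit 6) (nat_lit 15) (nat_lit 44) (nat_lit 0x2f00005e0000bfdda97fd78aff85f) b31801 (.nil)))) (.nil)))) (.nil)))) (.one (nat_lit 58) (nat_lit 20) (nat_lit 49) (nat_lit 0x2f00005e0000bfb3597f520afe024) b31806 (.nil)))))) (.nil))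
noncomputable def r15_253 : Rw Blk := .tok (nat_lit 3) (nat_lit 0x5e0000bc00017dfd6afd74c) (.hit (nat_lit 61) (nat_lit 0) (nat_lit 0x5e0000bc00017dd3fafd123) b31837 (.tok (nat_lit 9) (nat_lit 0x5e0000bc00017dfd6afd74c) (.hit (nat_lit 62) (nat_lit 20) (nat_lit 0x5e0000bc00017cfc82fb72f) b31838 (.hit (nat_lit 67) (nat_lit 28) (nat_lit 0x5e0000bc00017d17fafba9e) b31843 (.tok (nat_lit 14) (nat_lit 0x5e0000bc00017dfd6afd74c) (.hit (nat_lit 63) (nat_lit 24) (nat_lit 0x5e0000bc00017da8f2fccbd) b31839 (.hit (nat_lit 68) (nat_lit 30) (nat_lit 0x5e0000bc00017d907afc9ae) b31844 (.one (nat_lit 6) (nat_lit 64) (nat_lit 25) (nat_lit 0x5e0000bc00017dfd6afd74c) b31840 (.nil)))) (.one (nat_lit 56) (nat_lit 69) (nat_lit 31) (nat_lit 0x5e0000bc00017dc9aafd0d4) b31845 (.tok (nat_lit 68) (nat_lit 0x5e0000bc00017dd71afd282) (.hit (nat_lit 65) (nat_lit 26) (nat_lit 0x5e0000bc00017dbb12fcf01) b31841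 (.hit (nat_lit 70) (nat_lit 32) (nat_lit 0x5e0000bc00017d9982fcacf) b31846 (.one (nat_lit 9) (nat_lit 66) (nat_lit 27) (nat_lit 0x5e0000bc00017dd71afd282) b31842 (.nil)))) (.nil)))))) (.nil))) (.tok (nat_lit 6) (nat_lit 0x5e0000bc00018004f301094) (.hit (nat_lit 0) (nat_lit 0) (nat_lit 0x5e0000bc00017e41b2fd46c) b31817 (.tok (nat_lit 6) (nat_lit 0x5e0000bc00017ead1afe60e) (.hit (nat_lit 1) (nat_lit 7) (nat_lit 0x5e0000bc00017de302fc360) b31818 (.hit (nat_lit 6) (nat_lit 15) (nat_lit 0x5e0000bc00017d783afbae3) b31823 (.tok (nat_lit 14) (nat_lit 0x5e0000bc00017ead1afe60e) (.hit (nat_lit 2) (nat_lit 11) (nat_lit 0x5e0000bc00017e68cafde4a) b31819 (.hit (nat_lit 7) (nat_lit 17) (nat_lit 0x5e0000bc00017ead1afd22c) b31824 (.one (nat_lit 9) (nat_lit 3) (nat_lit 12) (nat_lit 0x5e0000bc00017e630afe60e) b31820 (.nil)))) (.tok (nat_lit 56) (nat_lit 0x5e0000bc00017e64a2fdb48) (.hit (nat_lit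 4) (nat_lit 13) (nat_lit 0x5e0000bc00017e5dfafda08) b31821 (.hit (nat_lit 9) (nat_lit 19) (nat_lit 0x5e0000bc00017e5caafc88d) b31825 (.one (nat_lit 6) (nat_lit 5) (nat_lit 14) (nat_lit 0x5e0000bc00017e64a2fdb48) b31822 (.nil)))) (.nil))))) (.tok (nat_lit 52) (nat_lit 0x5e0000bc00017e91a2fd8ca) (.hit (nat_lit 10) (nat_lit 39) (nat_lit 0x5e0000bc00017e110afd576) b31826 (.hit (nat_lit 11) (nat_lit 40) (nat_lit 0x5e0000bc00017e91a2fd8ca) b31827 (.nil))) (.tok (nat_lit 55) (nat_lit 0x5e0000bc00018004f301094) (.hit (nat_lit 12) (nat_lit 41) (nat_lit 0x5e0000bc00017ebdb2fe9bf) b31828 (.tok (nat_lit 3) (nat_lit 0x5e0000bc00017ee61afef6e) (.hit (nat_lit 18) (nat_lit 47) (nat_lit 0x5e0000bc00017e5042fdc9f) b31834 (.one (nat_lit 67) (nat_lit 19) (nat_lit 48) (nat_lit 0x5e0000bc00017ee61afef6e) b31835 (.nil))) (.tok (nat_lit 6) (nat_lit 0x5e0000bc00018004f301094) (.hit (nat_lit 13) (nat_lit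 42) (nat_lit 0x5e0000bc00017ee8c2fe413) b31829 (.hit (nat_lit 16) (nat_lit 45) (nat_lit 0x5e0000bc00017ec8cafdab3) b31832 (.tok (nat_lit 55) (nat_lit 0x5e0000bc00018004f301094) (.hit (nat_lit 14) (nat_lit 43) (nat_lit 0x5e0000bc00017fcc8300f57) b31830 (.hit (nat_lit 17) (nat_lit 46) (nat_lit 0x5e0000bc00017ea97afe63c) b31833 (.one (nat_lit 6) (nat_lit 15) (nat_lit 44) (nat_lit 0x5e0000bc00018004f301094) b31831 (.nil)))) (.nil)))) (.nil)))) (.one (nat_lit 58) (nat_lit 20) (nat_lit 49) (nat_lit 0x5e0000bc00017e8412fda42) b31836 (.nil)))))) (.nil))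
noncomputable def r15_254 : Rw Blk := .tok (nat_lit 3) (nat_lit 0x2f00005e0000bf54f97eef0afde17) (.hit (nat_lit 61) (nat_lit 0) (nat_lit 0x2f00005e0000bf48217e93e2fd1e4) b31867 (.tok (nat_lit 6) (nat_lit 0x2f00005e0000bf54f97eef0afde17) (.hit (nat_lit 62) (nat_lit 7) (nat_lit 0x2f00005e0000beeed97e22cafc48f) b31868 (.hit (nat_lit 67) (nat_lit 15) (nat_lit 0x2f00005e0000beb6517db1bafb66d) b31873 (.tok (nat_lit 14) (nat_lit 0x2f00005e0000bf36f17eb2fafd695) (.hit (nat_lit 63) (nat_lit 11) (nat_lit 0x2f00005e0000bef7257e3362fc6a2) b31869 (.hit (nat_lit 68) (nat_lit 17) (nat_lit 0x2f00005e0000bf06ad7e5272fca84) b31874 (.one (nat_lit 9) (nat_lit 64) (nat_lit 12) (nat_lit 0x2f00005e0000bf36f17eb2fafd695) b31870 (.nil)))) (.tok (nat_lit 56) (nat_lit 0x2f00005e0000bf54f97eef0afde17) (.hit (nat_lit 65) (nat_lit 13) (nat_lit 0x2f00005e0000bf34c17eae9afd609) b31871 (.hit (nat_lit 70) (nat_lit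 19) (nat_lit 0x2f00005e0000befa497e39aafc76b) b31876 (.one (nat_lit 6) (nat_lit 66) (nat_lit 14) (nat_lit 0x2f00005e0000bf54f97eef0afde17) b31872 (.nil)))) (.one (nat_lit 68) (nat_lit 69) (nat_lit 18) (nat_lit 0x2f00005e0000bf00497e45aafc8eb) b31875 (.nil)))))) (.nil))) (.tok (nat_lit 9) (nat_lit 0x2f00005e0000c0000180274b002f4) (.hit (nat_lit 0) (nat_lit 0) (nat_lit 0x2f00005e0000bfabfd7f3ecafdd8e) b31847 (.tok (nat_lit 9) (nat_lit 0x2f00005e0000bffef57fd6fb000e0) (.hit (nat_lit 1) (nat_lit 20) (nat_lit 0x2f00005e0000bf621d7e8db2fd38a) b31848 (.hit (nat_lit 6) (nat_lit 28) (nat_lit 0x2f00005e0000bf18297e0172fb753) b31853 (.tok (nat_lit 14) (nat_lit 0x2f00005e0000bfe05d7fcacaffc60) (.hit (nat_lit 2) (nat_lit 24) (nat_lit 0x2f00005e0000bfe05d7f745affbf9) b31849 (.hit (nat_lit 7) (nat_lit 30) (nat_lit 0x2f00005e0000bf99717ed0aafd946) b31854 (.one (nat_lit 6) (nat_lit 3) (nat_lit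 25) (nat_lit 0x2f00005e0000bfdb317fcacaffc60) b31850 (.nil)))) (.tok (nat_lit 68) (nat_lit 0x2f00005e0000bffef57fd6fb000e0) (.hit (nat_lit 4) (nat_lit 26) (nat_lit 0x2f00005e0000bfbe657f25dafea79) b31851 (.hit (nat_lit 9) (nat_lit 32) (nat_lit 0x2f00005e0000bf58857ec9e2fd6b9) b31855 (.one (nat_lit 9) (nat_lit 5) (nat_lit 27) (nat_lit 0x2f00005e0000bffef57fd6fb000e0) b31852 (.nil)))) (.nil))))) (.tok (nat_lit 64) (nat_lit 0x2f00005e0000bfaaa97f2482fe5c4) (.hit (nat_lit 10) (nat_lit 50) (nat_lit 0x2f00005e0000bf75dd7f23b2fe5c4) b31856 (.hit (nat_lit 11) (nat_lit 51) (nat_lit 0x2f00005e0000bfaaa97f2482fe4b4) b31857 (.nil))) (.tok (nat_lit 67) (nat_lit 0x2f00005e0000c0000180274b002f4) (.hit (nat_lit 12) (nat_lit 52) (nat_lit 0x2f00005e0000bfe2157fb4d2ff4a6) b31858 (.tok (nat_lit 3) (nat_lit 0x2f00005e0000c0000180274b002f4) (.hit (nat_lit 18) (nat_lit 58) (nat_lit 0x2f00005e0000bfb2357f9b4afeec1)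 b31864 (.one (nat_lit 55) (nat_lit 19) (nat_lit 59) (nat_lit 0x2f00005e0000c0000180274b002f4) b31865 (.nil))) (.tok (nat_lit 9) (nat_lit 0x2f00005e0000bff2057f8adaff5be) (.hit (nat_lit 13) (nat_lit 53) (nat_lit 0x2f00005e0000bf83c97eedb2fdc77) b31859 (.hit (nat_lit 16) (nat_lit 56) (nat_lit 0x2f00005e0000bfb3a17f2f52fe867) b31862 (.tok (nat_lit 67) (nat_lit 0x2f00005e0000bff2057f8adaff5be) (.hit (nat_lit 14) (nat_lit 54) (nat_lit 0x2f00005e0000bfdaf57f6e3afefe1) b31860 (.hit (nat_lit 17) (nat_lit 57) (nat_lit 0x2f00005e0000bff2057f8adaff5be) b31863 (.one (nat_lit 9) (nat_lit 15) (nat_lit 55) (nat_lit 0x2f00005e0000bfdda97f86eaff0ea) b31861 (.nil)))) (.nil)))) (.nil)))) (.one (nat_lit 70) (nat_lit 20) (nat_lit 60) (nat_lit 0x2f00005e0000bfb3597f5522fe78a) b31866 (.nil)))))) (.nil))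
noncomputable def r15_255 : Rw Blk := .tok (nat_lit 3) (nat_lit 0x5e0000bc00017df87afd5ea) (.hit (nat_lit 61) (nat_lit 0) (nat_lit 0x5e0000bc00017dcf0afcf94) b31897 (.tok (nat_lit 6) (nat_lit 0x5e0000bc00017df87afd5ea) (.hit (nat_lit 62) (nat_lit 7) (nat_lit 0x5e0000bc00017cf792fb5cd) b31898 (.hit (nat_lit 67) (nat_lit 15) (nat_lit 0x5e0000bc00017d130afb93c) b31903 (.tok (nat_lit 14) (nat_lit 0x5e0000bc00017df87afd5ea) (.hit (nat_lit 63) (nat_lit 11) (nat_lit 0x5e0000bc00017da402fcb5b) b31899 (.hit (nat_lit 68) (nat_lit 17) (nat_lit 0x5e0000bc00017d8b8afc84c) b31904 (.one (nat_lit 9) (nat_lit 64) (nat_lit 12) (nat_lit 0x5e0000bc00017df87afd5ea) b31900 (.nil)))) (.tok (nat_lit 56) (nat_lit 0x5e0000bc00017dd22afd120) (.hit (nat_lit 65) (nat_lit 13) (nat_lit 0x5e0000bc00017db622fcd9f) b31901 (.hit (nat_lit 70) (nat_lit 19) (nat_lit 0x5e0000bc00017d9492fc96d) b31906 (.one (nat_lit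 6) (nat_lit 66) (nat_lit 14) (nat_lit 0x5e0000bc00017dd22afd120) b31902 (.nil)))) (.one (nat_lit 68) (nat_lit 69) (nat_lit 18) (nat_lit 0x5e0000bc00017dc4bafcf72) b31905 (.nil)))))) (.nil))) (.tok (nat_lit 9) (nat_lit 0x5e0000bc000180000300000) (.hit (nat_lit 0) (nat_lit 0) (nat_lit 0x5e0000bc00017e3cc2fd0bd) b31877 (.tok (nat_lit 9) (nat_lit 0x5e0000bc00017ea82afe58b) (.hit (nat_lit 1) (nat_lit 20) (nat_lit 0x5e0000bc00017dde12fc1fe) b31878 (.hit (nat_lit 6) (nat_lit 28) (nat_lit 0x5e0000bc00017d734afb954) b31883 (.tok (nat_lit 14) (nat_lit 0x5e0000bc00017ea82afe58b) (.hit (nat_lit 2) (nat_lit 24) (nat_lit 0x5e0000bc00017e63dafdcf2) b31879 (.hit (nat_lit 7) (nat_lit 30) (nat_lit 0x5e0000bc00017ea82afd066) b31884 (.one (nat_lit 6) (nat_lit 3) (nat_lit 25) (nat_lit 0x5e0000bc00017e5e1afe58b) b31880 (.nil)))) (.tok (nat_lit 68) (nat_lit 0x5e0000bc00017e5fb2fd9e6) (.hit (nat_lit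 4) (nat_lit 26) (nat_lit 0x5e0000bc00017e590afd8a6) b31881 (.hit (nat_lit 9) (nat_lit 32) (nat_lit 0x5e0000bc00017e57bafc6fe) b31885 (.one (nat_lit 9) (nat_lit 5) (nat_lit 27) (nat_lit 0x5e0000bc00017e5fb2fd9e6) b31882 (.nil)))) (.nil))))) (.tok (nat_lit 64) (nat_lit 0x5e0000bc00017e8cb2fd768) (.hit (nat_lit 10) (nat_lit 50) (nat_lit 0x5e0000bc00017e0c1afd3e7) b31886 (.hit (nat_lit 11) (nat_lit 51) (nat_lit 0x5e0000bc00017e8cb2fd768) b31887 (.nil))) (.tok (nat_lit 67) (nat_lit 0x5e0000bc000180000300000) (.hit (nat_lit 12) (nat_lit 52) (nat_lit 0x5e0000bc00017eb8c2fe81f) b31888 (.tok (nat_lit 3) (nat_lit 0x5e0000bc00017ee12afee2c) (.hit (nat_lit 18) (nat_lit 58) (nat_lit 0x5e0000bc00017e4b52fdb3d) b31894 (.one (nat_lit 55) (nat_lit 19) (nat_lit 59) (nat_lit 0x5e0000bc00017ee12afee2c) b31895 (.nil))) (.tok (nat_lit 9) (nat_lit 0x5e0000bc000180000300000) (.hit (nat_lit 13) (nat_lit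 53) (nat_lit 0x5e0000bc00017ee3d2fe17c) b31889 (.hit (nat_lit 16) (nat_lit 56) (nat_lit 0x5e0000bc00017ec3dafd951) b31892 (.tok (nat_lit 67) (nat_lit 0x5e0000bc000180000300000) (.hit (nat_lit 14) (nat_lit 54) (nat_lit 0x5e0000bc00017fc792ffeed) b31890 (.hit (nat_lit 17) (nat_lit 57) (nat_lit 0x5e0000bc00017ea48afe4da) b31893 (.one (nat_lit 9) (nat_lit 15) (nat_lit 55) (nat_lit 0x5e0000bc000180000300000) b31891 (.nil)))) (.nil)))) (.nil)))) (.one (nat_lit 70) (nat_lit 20) (nat_lit 60) (nat_lit 0x5e0000bc00017e7f22fd8e0) b31896 (.nil)))))) (.nil))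
noncomputable def r15_256 : Rw Blk := .tok (nat_lit 3) (nat_lit 0xbfb70d7f577afec3e5fbbeebfe5957ef852fe7755fd24abfa4797f54a2ff8c8600000c00001800002ffc08) (.hit (nat_lit 0) (nat_lit 0) (nat_lit 0xbf16957e28b2fcebe5f7ea4bf42257de5c2fc1a05f86d6bf13c17e1f42fd57c5fb2aebf66f17ea342fdcf5) b31907 (.tok (nat_lit 6) (nat_lit 0xbf355d7e51e2fe3f05f8d6ebf4b517e44bafcab85f94a8bf36197e5762fe2ee5fcae8bf99c57f3bcafeaac) (.hit (nat_lit 1) (nat_lit 7) (nat_lit 0xbee3f97daf1afd2c25f64bcbef9ed7da1f2fb65f5f6bf6bee4b57db49afd0f55fa5d2bf4a357e97cafd945) b31908 (.hit (nat_lit 6) (nat_lit 15) (nat_lit 0xbeda3d7d9ba2fc7a45f5fdebef0317d8e7afb3f05f6718bedaf97da122fccbc5fa81ebf46bd7e9e4afd25a) b31913 (.tok (nat_lit 14) (nat_lit 0xbf2fe97e46fafd9a25f8ab4bf45dd7e39d2fc95b5f91eebf30a57e4c7afe2e25fcae8bf90657f1f42fe9bc) (.hit (nat_lit 2) (nat_lit 11) (nat_lit 0xbefe697de3fafd2965f71f4bf145d7dd6d2fbcfb5f792ebeff257de97afdc1c5fb72abf6bf97edaaafe61c)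 b31909 (.hit (nat_lit 7) (nat_lit 17) (nat_lit 0xbefa757ddc12fd0d05f6ffabf10697dceeafbbfe5f7734befb317de192fd63f5fb34ebf5e557ea802fd8dc) b31914 (.one (nat_lit 9) (nat_lit 3) (nat_lit 12) (nat_lit 0xbf2fe97e46fafd9a25f8ab4bf45dd7e39d2fc95b5f91eebf30a57e4c7afe2e25fcae8bf90657f1f42fe9bc) b31910 (.nil)))) (.tok (nat_lit 56) (nat_lit 0xbf355d7e51e2fe3f05f8d6ebf4b517e44bafcab85f94a8bf36197e5762fe2ee5fcaccbf99c57f3bcafeaac) (.hit (nat_lit 4) (nat_lit 13) (nat_lit 0xbf14bd7e10a2fdca95f7d1ebf2ab17e037afc2905f8458bf15797e1622fdf635fc260bf81e17f06b2fe6bf) b31911 (.hit (nat_lit 9) (nat_lit 19) (nat_lit 0xbf044d7defc2fd26e5f74e6bf1a417de29afbe745f7c20bf05097df542fd4e15fb79abf66a57eb7cafd584) b31916 (.one (nat_lit 6) (nat_lit 5) (nat_lit 14) (nat_lit 0xbf355d7e51e2fe3f05f8d6ebf4b517e44bafcab85f94a8bf36197e5762fe2ee5fcaccbf99c57f3bcafeaac) b31912 (.nil)))) (.one (nat_lit 68) (nat_lit 8) (nat_lit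 18) (nat_lit 0xbf2ef17e450afdd565f8a38bf44e57e37e2fc91d5f9172bf2fad7e4a8afe2405fc796bf80ed7eebfafe354) b31915 (.nil)))))) (.tok (nat_lit 52) (nat_lit 0xbf0a357dfb92fd9145f77dabf20297dee6afbfee5f7f14bf0af17e0112fdaaf5fb538bf6bd97ee022fde3d) (.hit (nat_lit 19) (nat_lit 39) (nat_lit 0xbefd8d7de242fcf1e5f7186bf13817dd51afbcc45f78c0befe497de7c2fdaaf5fb468bf6bd97ee022fdc71) b31917 (.hit (nat_lit 20) (nat_lit 40) (nat_lit 0xbf0a357dfb92fd9145f77dabf20297dee6afbfee5f7f14bf0af17e0112fd4aa5fb538bf60a57eb98afde3d) b31918 (.nil))) (.tok (nat_lit 55) (nat_lit 0xbfb70d7f577afec3e5fbbeebfe5957ef852fe7755fd24abfa4797f54a2ff8c8600000c00001800002ffc08) (.hit (nat_lit 21) (nat_lit 41) (nat_lit 0xbfb70d7f577afec3e5fa8c4bfac817e9672fe7755fd24abfa4797f54a2fecb35fe504bfc82d7f898aff682) b31919 (.tok (nat_lit 3) (nat_lit 0xbf4cb17e808afea0b5f9918bf62a57e7362fd08d5fa052bf4d6d7e860afed8e5fdc08bfc06d7f7d82ff356)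 (.hit (nat_lit 27) (nat_lit 47) (nat_lit 0xbf2e157e4352fea0b5f89cabf44097e362afc8e65f9104bf2ed17e48d2febe95fd734bfb1e97f5a4afeb51) b31925 (.one (nat_lit 67) (nat_lit 28) (nat_lit 48) (nat_lit 0xbf4cb17e808afe2ad5f9918bf62a57e7362fd08d5fa052bf4d6d7e860afed8e5fdc08bfc06d7f7d82ff356) b31926 (.nil))) (.tok (nat_lit 6) (nat_lit 0xbf8cb57f3d6afe8d25fbbeebfe5957ef852fddc75fbdc8bf9d4d7f1672ff8c8600000c00001800002ffc08) (.hit (nat_lit 22) (nat_lit 42) (nat_lit 0xbf67a17ed4fafe3515fa4e0bf93397e94e2fcf5a5fa216bf62197eabcaff37e5ff1d4bfd5d97fac0aff366) b31920 (.hit (nat_lit 25) (nat_lit 45) (nat_lit 0xbf2f797e461afe2155f8a7cbf456d7e38f2fc93f5f91b6bf30357e4b9afe5bd5fcd7abf9a717f3802fe94d) b31923 (.tok (nat_lit 55) (nat_lit 0xbf8cb57f3d6afe8d25fbbeebfe5957ef852fddc75fbdc8bf9d4d7f1672ff8c8600000c00001800002ffc08) (.hit (nat_lit 23) (nat_lit 43) (nat_lit 0xbf8cb57f3d6afe18f5fbbeebfe5957ef852fddc75fbdc8bf9d4d7f1672ff8c8600000c00001800002ffc08)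 b31921 (.hit (nat_lit 26) (nat_lit 46) (nat_lit 0xbf59a17e9a6afe8d25f9f90bf6f957e8d42fd3c95fa6cabf5a5d7e9feafebff5fdceebfb4bd7f6aaaff04d) b31924 (.one (nat_lit 6) (nat_lit 24) (nat_lit 44) (nat_lit 0xbf53457e8db2fde4e5f9c62bf69397e808afd2325fa39cbf54017e9332ff0f95ff090bfbf217f9b5aff531) b31922 (.nil)))) (.nil)))) (.nil)))) (.one (nat_lit 58) (nat_lit 29) (nat_lit 49) (nat_lit 0xbf2af57e3d12fe44c5f883abf40e97e2feafc81e5f8f74bf2bb17e4292fe99c5fd8bcbfaadd7f5392fec9e) b31927 (.nil)))))) (.tok (nat_lit 9) (nat_lit 0xc0000180000300000600000c0000180000300000600000c00001800003000005fffb2bffc397fcbfb00000) (.hit (nat_lit 157) (nat_lit 0) (nat_lit 0xbf681d7eefeafe0845fa008bf71497e9202fd6195fa97abf58457ea692fdd0d5fc5febf73017edca2fe2a2) b31928 (.tok (nat_lit 9) (nat_lit 0xbfbc757f8a12feae35fc278bf5c657f2472feb605fd064bfb2f17f4582fe3b95fd356bf83857f1202ff99b) (.hit (nat_lit 163) (nat_lit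 20) (nat_lit 0xbf3d017ed19afd15b5f7d2cbf26b57e0afafc9145f9362bf36717e5282fd64d5fb87ebf4dd57ea6a2fcc79) b31929 (.hit (nat_lit 171) (nat_lit 28) (nat_lit 0xbf0b117dff82fc6405f4c58beb7e57da772fbf975f82aebefe457e0ab2fcb465f92c0bef9e57e49eafcd53) b31932 (.tok (nat_lit 14) (nat_lit 0xbfbc757f8a12feae35fc278bf5c657f2472feb605fd064bfb2f17f4582fe3b95fd356bf83857f1202ff99b) (.hit (nat_lit 167) (nat_lit 24) (nat_lit 0xbfaffd7f79f2feae35fbfecbf39b17ef662fe1015fc360bf94a17f0df2fdd235fc1fcbf60d17ed8d2fec35) b31930 (.hit (nat_lit 173) (nat_lit 30) (nat_lit 0xbf7d017ee362fe38d5f8714befe757e8942fdbe35fbb3ebf6f857eed2afdc085fb444bf3ced7ecffafe180) b31933 (.one (nat_lit 6) (nat_lit 168) (nat_lit 25) (nat_lit 0xbfbc757f8a12fea925fc278bf5c657f2472feb605fd064bfb2f17f4582fe3b95fd356bf83857f1202ff99b) b31931 (.nil)))) (.one (nat_lit 56) (nat_lit 174) (nat_lit 31) (nat_lit 0xbf61017eab92fd8925f7908bf0cd97e51dafd50b5fad9ebf549d7eb692fd9315fae96bf33f97eb942fe473)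 b31934 (.nil))))) (.tok (nat_lit 64) (nat_lit 0xbf7d817f401afe20a5f9a2cbf2fad7e8eeafe6e25fc030bf8c817f00f2fe6285fc884bf656d7f20fafeb6c) (.hit (nat_lit 182) (nat_lit 50) (nat_lit 0xbf7d817f401afddfd5f872ebf2fad7e8eeafe6e25fc030bf8c817f00f2fdf595fbcfabf56cd7eea82feb6c) b31935 (.hit (nat_lit 183) (nat_lit 51) (nat_lit 0xbf73097f154afe20a5f9a2cbf29857e75dafd9735fb626bf65b57ed892fe6285fc884bf656d7f20fafe16e) b31936 (.nil))) (.tok (nat_lit 67) (nat_lit 0xc0000180000300000600000c0000180000300000600000c00001800003000005fffb2bffc397fcbfb00000) (.hit (nat_lit 184) (nat_lit 52) (nat_lit 0xc00001800002ff8975fe0f4c000017fa9db00000600000bfffd9800003000005fffb2bffc397fcbfb00000) b31937 (.tok (nat_lit 3) (nat_lit 0xbffba57fb72afe9ac600000bf74b1800002ff82e5ff216c000017fde6aff1dc5fdfecbf9bd17f7e9affd6c) (.hit (nat_lit 190) (nat_lit 58) (nat_lit 0xbfbe857f933afe6c45fdfa8bf64517f9ac2ff3f65fe776bff1f57fbf1afea475fd74cbf8b717f41f2ff3ae)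 b31940 (.one (nat_lit 55) (nat_lit 191) (nat_lit 59) (nat_lit 0xbffba57fb72afe9ac600000bf74b1800002ff82e5ff216c000017fde6aff1dc5fdfecbf9bd17f7e9affd6c) b31941 (.nil))) (.tok (nat_lit 9) (nat_lit 0xbfe5957fa633000005fad9abf63057f2122ff01c5fe178bfc0a17f85dafe9e55fd6a6bf8a257f3ee2ff9c1) (.hit (nat_lit 185) (nat_lit 53) (nat_lit 0xbfe5957f798afe9315fab96bf5f257f2122ff01c5fe178bfc0a17f85dafe9535fd4b6bf86457f3a52ff468) b31938 (.hit (nat_lit 188) (nat_lit 56) (nat_lit 0xbf99c57fa633000005fad9abf63057ec352fe3225fc984bf8c717f260afe9e55fd6a6bf8a257f3ee2ff9c1) b31939 (.nil))) (.nil)))) (.one (nat_lit 70) (nat_lit 192) (nat_lit 60) (nat_lit 0xbf7d897f1692fe2035fac10bf32b57ebd62fe2505fc7dcbf8b417f1f6afe7325fca98bf69957f294afecea) b31942 (.nil)))))) (.nil))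
noncomputable def r15_257 : Rw Blk := .tok (nat_lit 6) (nat_lit 0x5e0000bc00017f846b0041d) (.hit (nat_lit 51) (nat_lit 0) (nat_lit 0x5e0000bc00017ee2bafef97) b31943 (.tok (nat_lit 14) (nat_lit 0x5e0000bc00017f4dd2ff9e2) (.hit (nat_lit 62) (nat_lit 61) (nat_lit 0x5e0000bc00017f0462ff9e2) b31944 (.one (nat_lit 3) (nat_lit 63) (nat_lit 62) (nat_lit 0x5e0000bc00017f26e2fed50) b31945 (.tok (nat_lit 6) (nat_lit 0x5e0000bc00017f026afeb04) (.hit (nat_lit 66) (nat_lit 65) (nat_lit 0x5e0000bc00017e3ed2fe127) b31948 (.hit (nat_lit 67) (nat_lit 66) (nat_lit 0x5e0000bc00017f026afeb04) b31949 (.nil))) (.tok (nat_lit 9) (nat_lit 0x5e0000bc00017f4dd2ff828) (.hit (nat_lit 64) (nat_lit 63) (nat_lit 0x5e0000bc00017f4dd2ff828) b31946 (.hit (nat_lit 65) (nat_lit 64) (nat_lit 0x5e0000bc00017ee1b2ff099) b31947 (.nil))) (.nil))))) (.one (nat_lit 17) (nat_lit 68) (nat_lit 67) (nat_lit 0x5e0000bc00017eeb72fe85f)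 b31950 (.tok (nat_lit 20) (nat_lit 0x5e0000bc00017f436afe9ce) (.hit (nat_lit 69) (nat_lit 68) (nat_lit 0x5e0000bc00017f436afe235) b31951 (.hit (nat_lit 70) (nat_lit 69) (nat_lit 0x5e0000bc00017ef6bafe9ce) b31952 (.nil))) (.tok (nat_lit 23) (nat_lit 0x5e0000bc00017ecb12fe71b) (.hit (nat_lit 71) (nat_lit 70) (nat_lit 0x5e0000bc00017d9f0afcd2e) b31953 (.hit (nat_lit 72) (nat_lit 71) (nat_lit 0x5e0000bc00017ecb12fe71b) b31954 (.nil))) (.one (nat_lit 26) (nat_lit 73) (nat_lit 72) (nat_lit 0x5e0000bc00017e771afd9d4) b31955 (.one (nat_lit 29) (nat_lit 74) (nat_lit 73) (nat_lit 0x5e0000bc00017e4582fd902) b31956 (.one (nat_lit 32) (nat_lit 75) (nat_lit 74) (nat_lit 0x5e0000bc00017e558afd626) b31957 (.one (nat_lit 35) (nat_lit 76) (nat_lit 75) (nat_lit 0x5e0000bc00017e9ccafe242) b31958 (.one (nat_lit 50) (nat_lit 84) (nat_lit 83) (nat_lit 0x5e0000bc00017ee4eafe78e) b31959 (.tok (nat_lit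 53) (nat_lit 0x5e0000bc00017f0a4afec5a) (.hit (nat_lit 85) (nat_lit 84) (nat_lit 0x5e0000bc00017eb66afdde4) b31960 (.hit (nat_lit 86) (nat_lit 85) (nat_lit 0x5e0000bc00017f0a4afec5a) b31961 (.nil))) (.tok (nat_lit 56) (nat_lit 0x5e0000bc00017f846b0041d) (.hit (nat_lit 87) (nat_lit 86) (nat_lit 0x5e0000bc00017f846b0041d) b31962 (.one (nat_lit 3) (nat_lit 91) (nat_lit 90) (nat_lit 0x5e0000bc00017f48a2ff90b) b31966 (.tok (nat_lit 6) (nat_lit 0x5e0000bc00017f5b6aff7a4) (.hit (nat_lit 89) (nat_lit 88) (nat_lit 0x5e0000bc00017f5b6aff7a4) b31964 (.hit (nat_lit 90) (nat_lit 89) (nat_lit 0x5e0000bc00017f0962fe6e3) b31965 (.nil))) (.one (nat_lit 9) (nat_lit 88) (nat_lit 87) (nat_lit 0x5e0000bc00017f820b002c8) b31963 (.nil))))) (.one (nat_lit 59) (nat_lit 92) (nat_lit 91) (nat_lit 0x5e0000bc00017eb08afe100) b31967 (.one (nat_lit 62) (nat_lit 93) (nat_lit 92) (nat_lit 0x5e0000bc00017ea1cafdf2a)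 b31968 (.tok (nat_lit 65) (nat_lit 0x5e0000bc00017ee472fe78b) (.hit (nat_lit 94) (nat_lit 93) (nat_lit 0x5e0000bc00017eb482fd7c4) b31969 (.hit (nat_lit 95) (nat_lit 94) (nat_lit 0x5e0000bc00017ee472fe78b) b31970 (.nil))) (.tok (nat_lit 68) (nat_lit 0x5e0000bc00017f0c0aff5e0) (.hit (nat_lit 96) (nat_lit 95) (nat_lit 0x5e0000bc00017f0c0aff5e0) b31971 (.one (nat_lit 3) (nat_lit 100) (nat_lit 99) (nat_lit 0x5e0000bc00017db9fafd08c) b31975 (.one (nat_lit 6) (nat_lit 97) (nat_lit 96) (nat_lit 0x5e0000bc00017df952fd877) b31972 (.tok (nat_lit 9) (nat_lit 0x5e0000bc00017e0f12fdb2f) (.hit (nat_lit 98) (nat_lit 97) (nat_lit 0x5e0000bc00017e0f12fdb2f) b31973 (.hit (nat_lit 99) (nat_lit 98) (nat_lit 0x5e0000bc00017de4bafd5e4) b31974 (.nil))) (.nil))))) (.one (nat_lit 71) (nat_lit 101) (nat_lit 100) (nat_lit 0x5e0000bc00017ea60afdfb5) b31976 (.nil)))))))))))))))))) (.tok (nat_lit 52) (nat_lit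 0x5e0000bc000180000301391) (.hit (nat_lit 225) (nat_lit 0) (nat_lit 0x5e0000bc0001800003004fa) b31977 (.tok (nat_lit 6) (nat_lit 0x5e0000bc00017fd38b01391) (.hit (nat_lit 226) (nat_lit 7) (nat_lit 0x5e0000bc00017fd38b01391) b31978 (.hit (nat_lit 227) (nat_lit 15) (nat_lit 0x5e0000bc00017f4daaffffb) b31979 (.nil))) (.tok (nat_lit 9) (nat_lit 0x5e0000bc00017f65e2ff4d8) (.hit (nat_lit 228) (nat_lit 20) (nat_lit 0x5e0000bc00017ec0f2ff038) b31980 (.hit (nat_lit 229) (nat_lit 28) (nat_lit 0x5e0000bc00017f65e2ff4d8) b31981 (.nil))) (.nil)))) (.tok (nat_lit 55) (nat_lit 0x5e0000bc00017f6b3b00531) (.hit (nat_lit 250) (nat_lit 0) (nat_lit 0x5e0000bc00017f6b3affc37) b31990 (.tok (nat_lit 3) (nat_lit 0x5e0000bc00017f68bb00531) (.hit (nat_lit 251) (nat_lit 1) (nat_lit 0x5e0000bc00017e9042fea22) b31991 (.one (nat_lit 67) (nat_lit 252) (nat_lit 2) (nat_lit 0x5e0000bc00017f68bb00531) b31992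 (.nil))) (.tok (nat_lit 6) (nat_lit 0x5e0000bc00017f25a2ffcce) (.hit (nat_lit 253) (nat_lit 7) (nat_lit 0x5e0000bc00017ec05aff025) b31993 (.hit (nat_lit 256) (nat_lit 15) (nat_lit 0x5e0000bc00017e87aafe90f) b31996 (.tok (nat_lit 55) (nat_lit 0x5e0000bc00017f25a2ffcce) (.hit (nat_lit 254) (nat_lit 8) (nat_lit 0x5e0000bc00017edef2ff3f8) b31994 (.hit (nat_lit 257) (nat_lit 16) (nat_lit 0x5e0000bc00017f25a2ffcce) b31997 (.one (nat_lit 6) (nat_lit 255) (nat_lit 9) (nat_lit 0x5e0000bc00017f1152ffa44) b31995 (.nil)))) (.nil)))) (.nil)))) (.tok (nat_lit 58) (nat_lit 0x5e0000bc00017ff98b0174b) (.hit (nat_lit 236) (nat_lit 0) (nat_lit 0x5e0000bc00017fbffb00471) b31982 (.tok (nat_lit 3) (nat_lit 0x5e0000bc00017f9cdb00bb5) (.hit (nat_lit 237) (nat_lit 1) (nat_lit 0x5e0000bc00017e8cf2fe9b8) b31983 (.one (nat_lit 55) (nat_lit 238) (nat_lit 3) (nat_lit 0x5e0000bc00017f9cdb00bb5) b31984 (.nil)))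 (.tok (nat_lit 9) (nat_lit 0x5e0000bc00017ff98b0174b) (.hit (nat_lit 239) (nat_lit 20) (nat_lit 0x5e0000bc00017ef67aff6e9) b31985 (.hit (nat_lit 242) (nat_lit 28) (nat_lit 0x5e0000bc00017ebc62fefa6) b31988 (.tok (nat_lit 67) (nat_lit 0x5e0000bc00017ff98b0174b) (.hit (nat_lit 240) (nat_lit 21) (nat_lit 0x5e0000bc00017f4f13001fc) b31986 (.hit (nat_lit 243) (nat_lit 29) (nat_lit 0x5e0000bc00017f746b006a7) b31989 (.one (nat_lit 9) (nat_lit 241) (nat_lit 22) (nat_lit 0x5e0000bc00017ff98b0174b) b31987 (.nil)))) (.nil)))) (.nil)))) (.nil))))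
noncomputable def r15_258 : Rw Blk := .tok (nat_lit 3) (nat_lit 0x5e0000bc00018021b300f2e) (.hit (nat_lit 15) (nat_lit 0) (nat_lit 0x5e0000bc00017f58faff314) b32009 (.tok (nat_lit 9) (nat_lit 0x5e0000bc00017f0bbaff263) (.hit (nat_lit 16) (nat_lit 20) (nat_lit 0x5e0000bc00017e7562fdf98) b32010 (.hit (nat_lit 21) (nat_lit 28) (nat_lit 0x5e0000bc00017db752fc7d6) b32013 (.one (nat_lit 56) (nat_lit 23) (nat_lit 31) (nat_lit 0x5e0000bc00017eacaafe681) b32014 (.tok (nat_lit 68) (nat_lit 0x5e0000bc00017f0bbaff263) (.hit (nat_lit 19) (nat_lit 26) (nat_lit 0x5e0000bc00017eb76afe7d9) b32011 (.hit (nat_lit 24) (nat_lit 32) (nat_lit 0x5e0000bc00017ebe42fe8b4) b32015 (.one (nat_lit 9) (nat_lit 20) (nat_lit 27) (nat_lit 0x5e0000bc00017f0bbaff263) b32012 (.nil)))) (.nil))))) (.tok (nat_lit 64) (nat_lit 0x5e0000bc00017f12e2ff348) (.hit (nat_lit 25) (nat_lit 50) (nat_lit 0x5e0000bc00017ea9b2fe622)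 b32016 (.hit (nat_lit 26) (nat_lit 51) (nat_lit 0x5e0000bc00017f12e2ff348) b32017 (.nil))) (.tok (nat_lit 67) (nat_lit 0x5e0000bc00018021b300f2e) (.hit (nat_lit 27) (nat_lit 52) (nat_lit 0x5e0000bc00018021b300f2e) b32018 (.one (nat_lit 3) (nat_lit 33) (nat_lit 58) (nat_lit 0x5e0000bc00017f13aaff361) b32024 (.tok (nat_lit 9) (nat_lit 0x5e0000bc00017f297aff61b) (.hit (nat_lit 28) (nat_lit 53) (nat_lit 0x5e0000bc00017ed8a2fec00) b32019 (.hit (nat_lit 31) (nat_lit 56) (nat_lit 0x5e0000bc00017ef25afef37) b32022 (.tok (nat_lit 67) (nat_lit 0x5e0000bc00017f297aff61b) (.hit (nat_lit 29) (nat_lit 54) (nat_lit 0x5e0000bc00017f297aff61b) b32020 (.hit (nat_lit 32) (nat_lit 57) (nat_lit 0x5e0000bc00017f2192ff51e) b32023 (.one (nat_lit 9) (nat_lit 30) (nat_lit 55) (nat_lit 0x5e0000bc00017ed32afeb51) b32021 (.nil)))) (.nil)))) (.nil)))) (.one (nat_lit 70) (nat_lit 35) (nat_lit 60) (nat_lit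 0x5e0000bc00017f0a0aff22d) b32025 (.nil)))))) (.tok (nat_lit 6) (nat_lit 0x5e0000bc000180fd930248e) (.hit (nat_lit 0) (nat_lit 0) (nat_lit 0x5e0000bc000180432b00903) b31998 (.tok (nat_lit 6) (nat_lit 0x5e0000bc00017f8022ffb20) (.hit (nat_lit 1) (nat_lit 7) (nat_lit 0x5e0000bc00017f2d5aff66e) b31999 (.hit (nat_lit 4) (nat_lit 15) (nat_lit 0x5e0000bc00017ef162fe737) b32000 (.one (nat_lit 68) (nat_lit 6) (nat_lit 18) (nat_lit 0x5e0000bc00017f8022ffb20) b32001 (.nil)))) (.tok (nat_lit 52) (nat_lit 0x5e0000bc000180804b01b44) (.hit (nat_lit 7) (nat_lit 39) (nat_lit 0x5e0000bc0001803133003ab) b32002 (.hit (nat_lit 8) (nat_lit 40) (nat_lit 0x5e0000bc000180804b01b44) b32003 (.nil))) (.tok (nat_lit 55) (nat_lit 0x5e0000bc000180d17301fe3) (.hit (nat_lit 9) (nat_lit 41) (nat_lit 0x5e0000bc000180d17301fe3) b32004 (.one (nat_lit 3) (nat_lit 12) (nat_lit 47) (nat_lit 0x5e0000bc0001807ed3014a0)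 b32007 (.tok (nat_lit 6) (nat_lit 0x5e0000bc00017ff44b00a26) (.hit (nat_lit 10) (nat_lit 42) (nat_lit 0x5e0000bc00017f8efb0092e) b32005 (.hit (nat_lit 11) (nat_lit 45) (nat_lit 0x5e0000bc00017ff44b00a26) b32006 (.nil))) (.nil)))) (.one (nat_lit 58) (nat_lit 14) (nat_lit 49) (nat_lit 0x5e0000bc000180fd930248e) b32008 (.nil)))))) (.nil))
noncomputable def r15_259 : Rw Blk := .tok (nat_lit 9) (nat_lit 0x5e0000bc000180309b003d8) (.hit (nat_lit 0) (nat_lit 0) (nat_lit 0x5e0000bc00017e7322fd63b) b32026 (.tok (nat_lit 14) (nat_lit 0x5e0000bc00017f3e9aff5da) (.hit (nat_lit 21) (nat_lit 61) (nat_lit 0x5e0000bc00017f1f4afe64f) b32027 (.one (nat_lit 3) (nat_lit 22) (nat_lit 62) (nat_lit 0x5e0000bc00017f1c4afe122) b32028 (.tok (nat_lit 6) (nat_lit 0x5e0000bc00017f3e9aff5da) (.hit (nat_lit 25) (nat_lit 65) (nat_lit 0x5e0000bc00017f3e9aff5da) b32031 (.hit (nat_lit 26) (nat_lit 66) (nat_lit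 0x5e0000bc00017e2b22fda2c) b32032 (.nil))) (.tok (nat_lit 9) (nat_lit 0x5e0000bc00017ed702fe461) (.hit (nat_lit 23) (nat_lit 63) (nat_lit 0x5e0000bc00017dfca2fcc96) b32029 (.hit (nat_lit 24) (nat_lit 64) (nat_lit 0x5e0000bc00017ed702fe461) b32030 (.nil))) (.nil))))) (.one (nat_lit 17) (nat_lit 27) (nat_lit 67) (nat_lit 0x5e0000bc00017e8a8afd45e) b32033 (.tok (nat_lit 20) (nat_lit 0x5e0000bc00017e50eafcf01) (.hit (nat_lit 28) (nat_lit 68) (nat_lit 0x5e0000bc00017d76bafbbd9) b32034 (.hit (nat_lit 29) (nat_lit 69) (nat_lit 0x5e0000bc00017e50eafcf01) b32035 (.nil))) (.tok (nat_lit 23) (nat_lit 0x5e0000bc000180309b003d8) (.hit (nat_lit 30) (nat_lit 70) (nat_lit 0x5e0000bc000180309b003d8) b32036 (.hit (nat_lit 31) (nat_lit 71) (nat_lit 0x5e0000bc00017e64a2fd4e1) b32037 (.nil))) (.one (nat_lit 26) (nat_lit 32) (nat_lit 72) (nat_lit 0x5e0000bc00017e15f2fca6d) b32038 (.one (nat_lit 29)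 (nat_lit 33) (nat_lit 73) (nat_lit 0x5e0000bc00017e8e9afd57e) b32039 (.one (nat_lit 32) (nat_lit 34) (nat_lit 74) (nat_lit 0x5e0000bc00017e5dd2fd77a) b32040 (.one (nat_lit 35) (nat_lit 35) (nat_lit 75) (nat_lit 0x5e0000bc00017dd99afc380) b32041 (.one (nat_lit 38) (nat_lit 36) (nat_lit 76) (nat_lit 0x5e0000bc00017e4122fd084) b32042 (.tok (nat_lit 41) (nat_lit 0x5e0000bc00017e89bafd3b2) (.hit (nat_lit 37) (nat_lit 77) (nat_lit 0x5e0000bc00017e619afc647) b32043 (.hit (nat_lit 38) (nat_lit 78) (nat_lit 0x5e0000bc00017e89bafd3b2) b32044 (.nil))) (.tok (nat_lit 44) (nat_lit 0x5e0000bc00017e7f2afdbc1) (.hit (nat_lit 39) (nat_lit 79) (nat_lit 0x5e0000bc00017d3b72fb470) b32045 (.hit (nat_lit 40) (nat_lit 80) (nat_lit 0x5e0000bc00017e7f2afdbc1) b32046 (.nil))) (.tok (nat_lit 47) (nat_lit 0x5e0000bc00017ee8f2fccf8) (.hit (nat_lit 41) (nat_lit 81) (nat_lit 0x5e0000bc00017ee8f2fccf8) b32047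 (.hit (nat_lit 42) (nat_lit 82) (nat_lit 0x5e0000bc00017e3de2fc779) b32048 (.nil))) (.one (nat_lit 50) (nat_lit 43) (nat_lit 83) (nat_lit 0x5e0000bc00017e166afcb1a) b32049 (.tok (nat_lit 53) (nat_lit 0x5e0000bc00017e9b82fc97a) (.hit (nat_lit 44) (nat_lit 84) (nat_lit 0x5e0000bc00017e9b82fc97a) b32050 (.hit (nat_lit 45) (nat_lit 85) (nat_lit 0x5e0000bc00017e3c5afc774) b32051 (.nil))) (.tok (nat_lit 56) (nat_lit 0x5e0000bc00017e654afd639) (.hit (nat_lit 46) (nat_lit 86) (nat_lit 0x5e0000bc00017e654afd639) b32052 (.one (nat_lit 3) (nat_lit 50) (nat_lit 90) (nat_lit 0x5e0000bc00017d72d2fbb5c) b32056 (.tok (nat_lit 6) (nat_lit 0x5e0000bc00017e034afcd6b) (.hit (nat_lit 48) (nat_lit 88) (nat_lit 0x5e0000bc00017e034afcd6b) b32054 (.hit (nat_lit 49) (nat_lit 89) (nat_lit 0x5e0000bc00017dc0bafc519) b32055 (.nil))) (.one (nat_lit 9) (nat_lit 47) (nat_lit 87) (nat_lit 0x5e0000bc00017d93eafbf7f)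 b32053 (.nil))))) (.one (nat_lit 59) (nat_lit 51) (nat_lit 91) (nat_lit 0x5e0000bc00017e4b7afcd86) b32057 (.nil)))))))))))))))))) (.tok (nat_lit 64) (nat_lit 0x5e0000bc00017fd052ffc9e) (.hit (nat_lit 176) (nat_lit 0) (nat_lit 0x5e0000bc00017fd052ffc9e) b32058 (.tok (nat_lit 6) (nat_lit 0x5e0000bc00017ef40afe8b0) (.hit (nat_lit 177) (nat_lit 7) (nat_lit 0x5e0000bc00017e5472fd7eb) b32059 (.hit (nat_lit 178) (nat_lit 15) (nat_lit 0x5e0000bc00017ef40afe8b0) b32060 (.nil))) (.tok (nat_lit 9) (nat_lit 0x5e0000bc00017f3cdafeeab) (.hit (nat_lit 179) (nat_lit 20) (nat_lit 0x5e0000bc00017f3cdafeeab) b32061 (.hit (nat_lit 180) (nat_lit 28) (nat_lit 0x5e0000bc00017eb8c2fdf42) b32062 (.nil))) (.nil)))) (.tok (nat_lit 67) (nat_lit 0x5e0000bc00017ed34afe262) (.hit (nat_lit 201) (nat_lit 0) (nat_lit 0x5e0000bc00017ed34afe262) b32071 (.tok (nat_lit 3) (nat_lit 0x5e0000bc00017e8962fde89) (.hit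 (nat_lit 202) (nat_lit 1) (nat_lit 0x5e0000bc00017dd442fc7e5) b32072 (.one (nat_lit 55) (nat_lit 203) (nat_lit 3) (nat_lit 0x5e0000bc00017e8962fde89) b32073 (.nil))) (.tok (nat_lit 9) (nat_lit 0x5e0000bc00017e286afd26a) (.hit (nat_lit 204) (nat_lit 20) (nat_lit 0x5e0000bc00017e286afd26a) b32074 (.hit (nat_lit 207) (nat_lit 28) (nat_lit 0x5e0000bc00017ddaf2fc8bb) b32075 (.nil))) (.nil)))) (.tok (nat_lit 70) (nat_lit 0x5e0000bc00017f2a1aff2a0) (.hit (nat_lit 187) (nat_lit 0) (nat_lit 0x5e0000bc00017ee08afeb71) b32063 (.tok (nat_lit 3) (nat_lit 0x5e0000bc00017ee0e2fe979) (.hit (nat_lit 188) (nat_lit 1) (nat_lit 0x5e0000bc00017e142afcfe2) b32064 (.one (nat_lit 67) (nat_lit 189) (nat_lit 2) (nat_lit 0x5e0000bc00017ee0e2fe979) b32065 (.nil))) (.tok (nat_lit 6) (nat_lit 0x5e0000bc00017f2a1aff2a0) (.hit (nat_lit 190) (nat_lit 7) (nat_lit 0x5e0000bc00017e23c2fd1d5) b32066 (.hit (nat_lit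 193) (nat_lit 15) (nat_lit 0x5e0000bc00017e252afd202) b32069 (.tok (nat_lit 55) (nat_lit 0x5e0000bc00017f2a1aff2a0) (.hit (nat_lit 191) (nat_lit 8) (nat_lit 0x5e0000bc00017e8b7afdecc) b32067 (.hit (nat_lit 194) (nat_lit 16) (nat_lit 0x5e0000bc00017ef702fec3d) b32070 (.one (nat_lit 6) (nat_lit 192) (nat_lit 9) (nat_lit 0x5e0000bc00017f2a1aff2a0) b32068 (.nil)))) (.nil)))) (.nil)))) (.nil))))
noncomputable def r15_260 : Rw Blk := .tok (nat_lit 3) (nat_lit 0x5e0000bc00018082e301741) (.hit (nat_lit 15) (nat_lit 0) (nat_lit 0x5e0000bc00017fdf2b00252) b32083 (.tok (nat_lit 6) (nat_lit 0x5e0000bc00017f49c2ff4df) (.hit (nat_lit 16) (nat_lit 7) (nat_lit 0x5e0000bc00017e253afd1cb) b32084 (.hit (nat_lit 21) (nat_lit 15) (nat_lit 0x5e0000bc00017e862afd877) b32089 (.tok (nat_lit 14) (nat_lit 0x5e0000bc00017f49c2ff4df) (.hit (nat_lit 17) (nat_lit 11) (nat_lit 0x5e0000bc00017eafdafe31f) b32085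 (.hit (nat_lit 22) (nat_lit 17) (nat_lit 0x5e0000bc00017f49c2ff055) b32090 (.one (nat_lit 9) (nat_lit 18) (nat_lit 12) (nat_lit 0x5e0000bc00017f3ddaff4df) b32086 (.nil)))) (.tok (nat_lit 56) (nat_lit 0x5e0000bc00017f185afee74) (.hit (nat_lit 19) (nat_lit 13) (nat_lit 0x5e0000bc00017ead72fe2d2) b32087 (.hit (nat_lit 24) (nat_lit 19) (nat_lit 0x5e0000bc00017f185afe57b) b32091 (.one (nat_lit 6) (nat_lit 20) (nat_lit 14) (nat_lit 0x5e0000bc00017f0a82fee74) b32088 (.nil)))) (.nil))))) (.tok (nat_lit 52) (nat_lit 0x5e0000bc00017f4482ff1b6) (.hit (nat_lit 25) (nat_lit 39) (nat_lit 0x5e0000bc00017f2f32ff1b6) b32092 (.hit (nat_lit 26) (nat_lit 40) (nat_lit 0x5e0000bc00017f4482ff14e) b32093 (.nil))) (.tok (nat_lit 55) (nat_lit 0x5e0000bc0001805cab01741) (.hit (nat_lit 27) (nat_lit 41) (nat_lit 0x5e0000bc0001805cab01741) b32094 (.tok (nat_lit 3) (nat_lit 0x5e0000bc00017f9b0b00085) (.hit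 (nat_lit 33) (nat_lit 47) (nat_lit 0x5e0000bc00017f0382fed94) b32100 (.one (nat_lit 67) (nat_lit 34) (nat_lit 48) (nat_lit 0x5e0000bc00017f9b0b00085) b32101 (.nil))) (.tok (nat_lit 6) (nat_lit 0x5e0000bc00017f433aff58b) (.hit (nat_lit 28) (nat_lit 42) (nat_lit 0x5e0000bc00017f0ad2fee7e) b32095 (.hit (nat_lit 31) (nat_lit 45) (nat_lit 0x5e0000bc00017eefc2feb1c) b32098 (.tok (nat_lit 55) (nat_lit 0x5e0000bc00017f433aff58b) (.hit (nat_lit 29) (nat_lit 43) (nat_lit 0x5e0000bc00017f433aff58b) b32096 (.hit (nat_lit 32) (nat_lit 46) (nat_lit 0x5e0000bc00017f3ef2ff502) b32099 (.one (nat_lit 6) (nat_lit 30) (nat_lit 44) (nat_lit 0x5e0000bc00017ee7a2fea18) b32097 (.nil)))) (.nil)))) (.nil)))) (.one (nat_lit 58) (nat_lit 35) (nat_lit 49) (nat_lit 0x5e0000bc00018082e3013f9) b32102 (.nil)))))) (.tok (nat_lit 9) (nat_lit 0x5e0000bc000180fbbb02731) (.hit (nat_lit 0) (nat_lit 0) (nat_lit 0x5e0000bc000180417b0025b)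 b32076 (.tok (nat_lit 9) (nat_lit 0x5e0000bc000180fbbb02731) (.hit (nat_lit 1) (nat_lit 20) (nat_lit 0x5e0000bc00017ec4b2fde3e) b32077 (.hit (nat_lit 4) (nat_lit 28) (nat_lit 0x5e0000bc00017f3a0afdee6) b32080 (.tok (nat_lit 14) (nat_lit 0x5e0000bc000180fbbb02731) (.hit (nat_lit 2) (nat_lit 24) (nat_lit 0x5e0000bc00017fb2caffcc1) b32078 (.hit (nat_lit 5) (nat_lit 30) (nat_lit 0x5e0000bc00017fa09aff286) b32081 (.one (nat_lit 6) (nat_lit 3) (nat_lit 25) (nat_lit 0x5e0000bc000180fbbb02731) b32079 (.nil)))) (.one (nat_lit 56) (nat_lit 6) (nat_lit 31) (nat_lit 0x5e0000bc0001801f7300392) b32082 (.nil))))) (.nil))) (.nil))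
noncomputable def r15_261 : Rw Blk := .tok (nat_lit 9) (nat_lit 0x5e0000bc00018265ab04f3b) (.hit (nat_lit 0) (nat_lit 0) (nat_lit 0x5e0000bc00017fcc1b0018a) b32103 (.tok (nat_lit 14) (nat_lit 0x5e0000bc000181a07303dd9) (.hit (nat_lit 1) (nat_lit 61) (nat_lit 0x5e0000bc00018034f301307) b32104 (.one (nat_lit 3) (nat_lit 2) (nat_lit 62) (nat_lit 0x5e0000bc00017fb22300c93) b32105 (.tok (nat_lit 6) (nat_lit 0x5e0000bc000181a07303dd9) (.hit (nat_lit 5) (nat_lit 65) (nat_lit 0x5e0000bc000181a07303dd9) b32108 (.hit (nat_lit 6) (nat_lit 66) (nat_lit 0x5e0000bc0001801ec3009d2) b32109 (.nil))) (.tok (nat_lit 9) (nat_lit 0x5e0000bc00017f92cb00012) (.hit (nat_lit 3) (nat_lit 63) (nat_lit 0x5e0000bc00017f92caff74b) b32106 (.hit (nat_lit 4) (nat_lit 64) (nat_lit 0x5e0000bc00017f8db300012) b32107 (.nil))) (.nil))))) (.one (nat_lit 17) (nat_lit 7) (nat_lit 67) (nat_lit 0x5e0000bc00017f05aafef8a)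 b32110 (.tok (nat_lit 20) (nat_lit 0x5e0000bc00017f741aff534) (.hit (nat_lit 8) (nat_lit 68) (nat_lit 0x5e0000bc00017f40e2fed0e) b32111 (.hit (nat_lit 9) (nat_lit 69) (nat_lit 0x5e0000bc00017f741aff534) b32112 (.nil))) (.tok (nat_lit 23) (nat_lit 0x5e0000bc00018265ab04f3b) (.hit (nat_lit 10) (nat_lit 70) (nat_lit 0x5e0000bc00018265ab04f3b) b32113 (.hit (nat_lit 11) (nat_lit 71) (nat_lit 0x5e0000bc00017f524afe989) b32114 (.nil))) (.one (nat_lit 38) (nat_lit 16) (nat_lit 76) (nat_lit 0x5e0000bc00017f5572fe9e8) b32115 (.tok (nat_lit 41) (nat_lit 0x5e0000bc00017f0e52fee8a) (.hit (nat_lit 17) (nat_lit 77) (nat_lit 0x5e0000bc00017f09f2fee8a) b32116 (.hit (nat_lit 18) (nat_lit 78) (nat_lit 0x5e0000bc00017f0e52fec1e) b32117 (.nil))) (.tok (nat_lit 44) (nat_lit 0x5e0000bc00017f5b5afeb69) (.hit (nat_lit 19) (nat_lit 79) (nat_lit 0x5e0000bc00017ec3cafdd6b) b32118 (.hit (nat_lit 20) (nat_lit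 80) (nat_lit 0x5e0000bc00017f5b5afeb69) b32119 (.nil))) (.tok (nat_lit 47) (nat_lit 0x5e0000bc00017ffaeaff807) (.hit (nat_lit 21) (nat_lit 81) (nat_lit 0x5e0000bc00017ffaeaff807) b32120 (.hit (nat_lit 22) (nat_lit 82) (nat_lit 0x5e0000bc00017ef3eafe0c7) b32121 (.nil))) (.one (nat_lit 50) (nat_lit 23) (nat_lit 83) (nat_lit 0x5e0000bc00017fabc2ff745) b32122 (.tok (nat_lit 53) (nat_lit 0x5e0000bc00017f4352ff815) (.hit (nat_lit 24) (nat_lit 84) (nat_lit 0x5e0000bc00017f4352ff815) b32123 (.hit (nat_lit 25) (nat_lit 85) (nat_lit 0x5e0000bc00017f120afecee) b32124 (.nil))) (.tok (nat_lit 56) (nat_lit 0x5e0000bc00018058c301191) (.hit (nat_lit 26) (nat_lit 86) (nat_lit 0x5e0000bc00018058c301191) b32125 (.one (nat_lit 3) (nat_lit 30) (nat_lit 90) (nat_lit 0x5e0000bc00017f8102ff512) b32129 (.tok (nat_lit 6) (nat_lit 0x5e0000bc00017f6dcaff2ab) (.hit (nat_lit 28) (nat_lit 88) (nat_lit 0x5e0000bc00017f6dcaff2ab)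 b32127 (.hit (nat_lit 29) (nat_lit 89) (nat_lit 0x5e0000bc00017f12bafe749) b32128 (.nil))) (.one (nat_lit 9) (nat_lit 27) (nat_lit 87) (nat_lit 0x5e0000bc00017f5a6aff03f) b32126 (.nil))))) (.one (nat_lit 59) (nat_lit 31) (nat_lit 91) (nat_lit 0x5e0000bc00017efbe2fe896) b32130 (.nil)))))))))))))) (.nil)
noncomputable def r15_262 : Rw Blk := .tok (nat_lit 9) (nat_lit 0x5e0000bc00017fa5caff961) (.hit (nat_lit 0) (nat_lit 0) (nat_lit 0x5e0000bc00017ef122fdf73) b32131 (.tok (nat_lit 14) (nat_lit 0x5e0000bc00017f9ba2ff961) (.hit (nat_lit 21) (nat_lit 61) (nat_lit 0x5e0000bc00017f1552fee56) b32132 (.one (nat_lit 3) (nat_lit 22) (nat_lit 62) (nat_lit 0x5e0000bc00017f020afde78) b32133 (.tok (nat_lit 6) (nat_lit 0x5e0000bc00017f9ba2ff961) (.hit (nat_lit 25) (nat_lit 65) (nat_lit 0x5e0000bc00017f9ba2ff961) b32136 (.hit (nat_lit 26) (nat_lit 66) (nat_lit 0x5e0000bc00017edebafe3c1) b32137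 (.nil))) (.tok (nat_lit 9) (nat_lit 0x5e0000bc00017f9602fe9eb) (.hit (nat_lit 23) (nat_lit 63) (nat_lit 0x5e0000bc00017eacbafd78b) b32134 (.hit (nat_lit 24) (nat_lit 64) (nat_lit 0x5e0000bc00017f9602fe9eb) b32135 (.nil))) (.nil))))) (.one (nat_lit 17) (nat_lit 27) (nat_lit 67) (nat_lit 0x5e0000bc00017ed552fd6c5) b32138 (.tok (nat_lit 20) (nat_lit 0x5e0000bc00017eee42fd692) (.hit (nat_lit 28) (nat_lit 68) (nat_lit 0x5e0000bc00017e70c2fd00c) b32139 (.hit (nat_lit 29) (nat_lit 69) (nat_lit 0x5e0000bc00017eee42fd692) b32140 (.nil))) (.tok (nat_lit 23) (nat_lit 0x5e0000bc00017fa5caff6f2) (.hit (nat_lit 30) (nat_lit 70) (nat_lit 0x5e0000bc00017fa5caff6f2) b32141 (.hit (nat_lit 31) (nat_lit 71) (nat_lit 0x5e0000bc00017ed83afd3e3) b32142 (.nil))) (.one (nat_lit 26) (nat_lit 32) (nat_lit 72) (nat_lit 0x5e0000bc00017ebbd2fcf91) b32143 (.one (nat_lit 29) (nat_lit 33) (nat_lit 73) (nat_lit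 0x5e0000bc00017ebf8afcfe0) b32144 (.one (nat_lit 32) (nat_lit 34) (nat_lit 74) (nat_lit 0x5e0000bc00017ec1e2fd555) b32145 (.one (nat_lit 35) (nat_lit 35) (nat_lit 75) (nat_lit 0x5e0000bc00017e68bafc5f3) b32146 (.one (nat_lit 38) (nat_lit 36) (nat_lit 76) (nat_lit 0x5e0000bc00017ed462fd3de) b32147 (.tok (nat_lit 41) (nat_lit 0x5e0000bc00017ed8dafd418) (.hit (nat_lit 37) (nat_lit 77) (nat_lit 0x5e0000bc00017ecd62fcb67) b32148 (.hit (nat_lit 38) (nat_lit 78) (nat_lit 0x5e0000bc00017ed8dafd418) b32149 (.nil))) (.tok (nat_lit 44) (nat_lit 0x5e0000bc00017ed5a2fd7f9) (.hit (nat_lit 39) (nat_lit 79) (nat_lit 0x5e0000bc00017d5e62fadc0) b32150 (.hit (nat_lit 40) (nat_lit 80) (nat_lit 0x5e0000bc00017ed5a2fd7f9) b32151 (.nil))) (.tok (nat_lit 47) (nat_lit 0x5e0000bc00017f10d2fe2eb) (.hit (nat_lit 41) (nat_lit 81) (nat_lit 0x5e0000bc00017f10d2fe2eb) b32152 (.hit (nat_lit 42) (nat_lit 82)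 (nat_lit 0x5e0000bc00017ec4bafd173) b32153 (.nil))) (.one (nat_lit 50) (nat_lit 43) (nat_lit 83) (nat_lit 0x5e0000bc00017eca02fd21c) b32154 (.tok (nat_lit 53) (nat_lit 0x5e0000bc00017ecdd2fd356) (.hit (nat_lit 44) (nat_lit 84) (nat_lit 0x5e0000bc00017e722afd1f0) b32155 (.hit (nat_lit 45) (nat_lit 85) (nat_lit 0x5e0000bc00017ecdd2fd356) b32156 (.nil))) (.tok (nat_lit 56) (nat_lit 0x5e0000bc00017ef802fe59f) (.hit (nat_lit 46) (nat_lit 86) (nat_lit 0x5e0000bc00017ef802fe59f) b32157 (.one (nat_lit 3) (nat_lit 50) (nat_lit 90) (nat_lit 0x5e0000bc00017e621afce37) b32161 (.tok (nat_lit 6) (nat_lit 0x5e0000bc00017e7b8afd165) (.hit (nat_lit 48) (nat_lit 88) (nat_lit 0x5e0000bc00017e7b8afd165) b32159 (.hit (nat_lit 49) (nat_lit 89) (nat_lit 0x5e0000bc00017e68fafcf13) b32160 (.nil))) (.one (nat_lit 9) (nat_lit 47) (nat_lit 87) (nat_lit 0x5e0000bc00017e5712fccd6) b32158 (.nil))))) (.one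 (nat_lit 59) (nat_lit 51) (nat_lit 91) (nat_lit 0x5e0000bc00017ec64afd1a5) b32162 (.nil)))))))))))))))))) (.tok (nat_lit 64) (nat_lit 0x5e0000bc00017ff14afff34) (.hit (nat_lit 176) (nat_lit 0) (nat_lit 0x5e0000bc00017fc8aaffb7c) b32163 (.tok (nat_lit 6) (nat_lit 0x5e0000bc00017f971aff47b) (.hit (nat_lit 177) (nat_lit 7) (nat_lit 0x5e0000bc00017e81bafe698) b32164 (.hit (nat_lit 178) (nat_lit 15) (nat_lit 0x5e0000bc00017f971aff47b) b32165 (.nil))) (.tok (nat_lit 9) (nat_lit 0x5e0000bc00017ff14afff34) (.hit (nat_lit 179) (nat_lit 20) (nat_lit 0x5e0000bc00017ff14afff34) b32166 (.hit (nat_lit 180) (nat_lit 28) (nat_lit 0x5e0000bc00017f6deaff1f4) b32167 (.nil))) (.nil)))) (.tok (nat_lit 67) (nat_lit 0x5e0000bc0001800002ffee8) (.hit (nat_lit 201) (nat_lit 0) (nat_lit 0x5e0000bc0001800002ffee8) b32176 (.tok (nat_lit 3) (nat_lit 0x5e0000bc00017eb472fecef) (.hit (nat_lit 202) (nat_lit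 1) (nat_lit 0x5e0000bc00017e4a4afdfaa) b32177 (.one (nat_lit 55) (nat_lit 203) (nat_lit 3) (nat_lit 0x5e0000bc00017eb472fecef) b32178 (.nil))) (.tok (nat_lit 9) (nat_lit 0x5e0000bc00017e4ae2fdfbd) (.hit (nat_lit 204) (nat_lit 20) (nat_lit 0x5e0000bc00017e3142fdc89) b32179 (.hit (nat_lit 207) (nat_lit 28) (nat_lit 0x5e0000bc00017e4ae2fdfbd) b32180 (.nil))) (.nil)))) (.tok (nat_lit 70) (nat_lit 0x5e0000bc00017fdc3b011e8) (.hit (nat_lit 187) (nat_lit 0) (nat_lit 0x5e0000bc00017f7c42ff061) b32168 (.tok (nat_lit 3) (nat_lit 0x5e0000bc00017f17e2ff95d) (.hit (nat_lit 188) (nat_lit 1) (nat_lit 0x5e0000bc00017e53aafe0d6) b32169 (.one (nat_lit 67) (nat_lit 189) (nat_lit 2) (nat_lit 0x5e0000bc00017f17e2ff95d) b32170 (.nil))) (.tok (nat_lit 6) (nat_lit 0x5e0000bc00017fdc3b011e8) (.hit (nat_lit 190) (nat_lit 7) (nat_lit 0x5e0000bc00017e8e92fe833) b32171 (.hit (nat_lit 193) (nat_lit 15) (nat_lit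 0x5e0000bc00017e444afdeea) b32174 (.tok (nat_lit 55) (nat_lit 0x5e0000bc00017fdc3b011e8) (.hit (nat_lit 191) (nat_lit 8) (nat_lit 0x5e0000bc00017ef3baff4d8) b32172 (.hit (nat_lit 194) (nat_lit 16) (nat_lit 0x5e0000bc00017f1242ff8a9) b32175 (.one (nat_lit 6) (nat_lit 192) (nat_lit 9) (nat_lit 0x5e0000bc00017fdc3b011e8) b32173 (.nil)))) (.nil)))) (.nil)))) (.nil))))
noncomputable def r15_263 : Rw Blk := .tok (nat_lit 3) (nat_lit 0x5e0000bc00018060f301cb9) (.hit (nat_lit 15) (nat_lit 0) (nat_lit 0x5e0000bc00017f1cf2fec4c) b32188 (.tok (nat_lit 6) (nat_lit 0x5e0000bc00017eeaeafef29) (.hit (nat_lit 16) (nat_lit 7) (nat_lit 0x5e0000bc00017e3c42fd954) b32189 (.hit (nat_lit 21) (nat_lit 15) (nat_lit 0x5e0000bc00017d367afb89b) b32194 (.tok (nat_lit 14) (nat_lit 0x5e0000bc00017eb81afe8cf) (.hit (nat_lit 17) (nat_lit 11) (nat_lit 0x5e0000bc00017e7a1afe10f) b32190 (.hit (nat_lit 22) (nat_lit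 17) (nat_lit 0x5e0000bc00017e72f2fe02a) b32195 (.one (nat_lit 9) (nat_lit 18) (nat_lit 12) (nat_lit 0x5e0000bc00017eb81afe8cf) b32191 (.nil)))) (.tok (nat_lit 56) (nat_lit 0x5e0000bc00017eeaeafef29) (.hit (nat_lit 19) (nat_lit 13) (nat_lit 0x5e0000bc00017e997afe4fb) b32192 (.hit (nat_lit 24) (nat_lit 19) (nat_lit 0x5e0000bc00017e5a42fdd14) b32196 (.one (nat_lit 6) (nat_lit 20) (nat_lit 14) (nat_lit 0x5e0000bc00017eeaeafef29) b32193 (.nil)))) (.nil))))) (.tok (nat_lit 52) (nat_lit 0x5e0000bc00017ecd4afeb75) (.hit (nat_lit 25) (nat_lit 39) (nat_lit 0x5e0000bc00017ecd4afeb75) b32197 (.hit (nat_lit 26) (nat_lit 40) (nat_lit 0x5e0000bc00017eaa12fe70e) b32198 (.nil))) (.tok (nat_lit 55) (nat_lit 0x5e0000bc00018060f301cb9) (.hit (nat_lit 27) (nat_lit 41) (nat_lit 0x5e0000bc00018060f301cb9) b32199 (.tok (nat_lit 3) (nat_lit 0x5e0000bc00017f297aff6fb) (.hit (nat_lit 33) (nat_lit 47) (nat_lit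 0x5e0000bc00017f0672ff29a) b32205 (.one (nat_lit 67) (nat_lit 34) (nat_lit 48) (nat_lit 0x5e0000bc00017f297aff6fb) b32206 (.nil))) (.tok (nat_lit 6) (nat_lit 0x5e0000bc00017f3a4aff915) (.hit (nat_lit 28) (nat_lit 42) (nat_lit 0x5e0000bc00017eb8f2fe8ea) b32200 (.hit (nat_lit 31) (nat_lit 45) (nat_lit 0x5e0000bc00017ea462fe658) b32203 (.tok (nat_lit 55) (nat_lit 0x5e0000bc00017f3a4aff915) (.hit (nat_lit 29) (nat_lit 43) (nat_lit 0x5e0000bc00017f3a4aff915) b32201 (.hit (nat_lit 32) (nat_lit 46) (nat_lit 0x5e0000bc00017f0492ff25e) b32204 (.one (nat_lit 6) (nat_lit 30) (nat_lit 44) (nat_lit 0x5e0000bc00017ec57afea7b) b32202 (.nil)))) (.nil)))) (.nil)))) (.one (nat_lit 58) (nat_lit 35) (nat_lit 49) (nat_lit 0x5e0000bc00017f28faff6eb) b32207 (.nil)))))) (.tok (nat_lit 9) (nat_lit 0x5e0000bc0001806a03019f0) (.hit (nat_lit 0) (nat_lit 0) (nat_lit 0x5e0000bc00017ffee2ff9aa) b32181 (.tok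 (nat_lit 9) (nat_lit 0x5e0000bc0001806a03019f0) (.hit (nat_lit 1) (nat_lit 20) (nat_lit 0x5e0000bc00017f26daff1fd) b32182 (.hit (nat_lit 4) (nat_lit 28) (nat_lit 0x5e0000bc00017e7ec2fda69) b32185 (.tok (nat_lit 14) (nat_lit 0x5e0000bc0001806a03019f0) (.hit (nat_lit 2) (nat_lit 24) (nat_lit 0x5e0000bc0001806a03019f0) b32183 (.hit (nat_lit 5) (nat_lit 30) (nat_lit 0x5e0000bc00017f2f32feaa5) b32186 (.one (nat_lit 6) (nat_lit 3) (nat_lit 25) (nat_lit 0x5e0000bc000180034b0103d) b32184 (.nil)))) (.one (nat_lit 56) (nat_lit 6) (nat_lit 31) (nat_lit 0x5e0000bc00017f0c72ff0d2) b32187 (.nil))))) (.nil))) (.nil))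
noncomputable def r15_264 : Rw Blk := .tok (nat_lit 3) (nat_lit 0xbf6f257e3482fdfc05fbe54bf58817ec022fe6da5fcbecbf96157f2fb2fd6135fa9e6bf59217eb952fe7db) (.hit (nat_lit 0) (nat_lit 0) (nat_lit 0xbf6f257e3482fdfc05fbe54bf58817ec022fe6da5fcbecbf96157f2fb2fd6135fa9e6bf59217eb952fe7db) b32208 (.tok (nat_lit 6) (nat_lit 0xbf3a757d7a6afdd295fa33cbece357e7dd2fc1aa5f7d9ebf0a357e0c5afc91b5f8b74bf25417e653afd42b) (.hit (nat_lit 1) (nat_lit 7) (nat_lit 0xbf3a757d7a6afdd295fa33cbece357e7dd2fc1aa5f7d9ebf0a357e0c5afc91b5f8b74bf25417e653afd42b) b32209 (.hit (nat_lit 6) (nat_lit 15) (nat_lit 0xbf30b97d66f2fd5255f9e5ebec4797e6a5afbf3b5f78c0bf00797df8e2fc39a5f87e4bf0f1d7e2d72fd32b) b32210 (.nil))) (.tok (nat_lit 9) (nat_lit 0xbf3a757d7a6afdd295fa33cbece357e7dd2fc1aa5f7d9ebf0a357e0c5afc2a65f8306bf0b6d7e18bafd42c) (.hit (nat_lit 10) (nat_lit 20) (nat_lit 0xbf3a757d7a6afdd295fa33cbece357e7dd2fc1aa5f7d9ebf0a357e0c5afb9dd5f7a50bed2217d9cb2fd42c)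 b32211 (.hit (nat_lit 15) (nat_lit 28) (nat_lit 0xbf30b97d66f2fd5255f9e5ebec4797e6a5afbf3b5f78c0bf00797df8e2fc2a65f8306bf0b6d7e18bafd32b) b32212 (.nil))) (.nil)))) (.tok (nat_lit 6) (nat_lit 0xc0000180000300000600000c00001800002ff85a5fed68bfe4717fb5a3003f8600000c000018010eaff994) (.hit (nat_lit 81) (nat_lit 0) (nat_lit 0xbfc8317eef52feb305fdf48bf8fe97f9f72fed935fd5acbfda097f90dafee3f5fd546bf93817f65faff117) b32213 (.tok (nat_lit 3) (nat_lit 0xbfc8697ea3a2ff1455fe196bfd5597f8c62ff85a5fed68bfdc157fb5a3003f85ff8c2c000018010eaff994) (.hit (nat_lit 82) (nat_lit 1) (nat_lit 0xbf5c257dd03afdbb25faaa2bf4c317eb092fdce05fb674bf6e2d7ed9d2fe9f55fc092bf88f17f312afe459) b32214 (.one (nat_lit 67) (nat_lit 83) (nat_lit 2) (nat_lit 0xbfc8697ea3a2ff1455fe196bfd5597f8c62ff85a5fed68bfdc157fb5a3003f85ff8c2c000018010eaff994) b32215 (.nil))) (.tok (nat_lit 6) (nat_lit 0xc0000180000300000600000c00001800002ff3c05fe296bfe4717fa0a2ffc38600000bfda297fb3daff905)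 (.hit (nat_lit 87) (nat_lit 7) (nat_lit 0xbfabf97ec222fe8e95fc530bf7da57f45eafdfd55fbe2ebfb3597f573afe9615fcdc2bf72e97f75d2fe810) b32216 (.hit (nat_lit 95) (nat_lit 15) (nat_lit 0xbf64fd7dcd0afd3dd5fade4bf52cd7ebd9afde815fb9b6bf74b17ee6dafe4635fc944bf61557ea15afe022) b32220 (.tok (nat_lit 55) (nat_lit 0xc0000180000300000600000c00001800002ff3c05fe296bfe4717fa0a2ffc38600000bfda297fb3daff905) (.hit (nat_lit 88) (nat_lit 8) (nat_lit 0xbffb117f3fa2ff0ef5ff7f6bfbd8d800002feb935fd1a0bfe1a17fa0a2ff2d45fe7c4bfab957fb3daff905) b32217 (.hit (nat_lit 96) (nat_lit 16) (nat_lit 0xbfc75d7eb112fef375fe54ebfb7b57f9b42ff3c05fe296bfe0097f99b2ffc38600000bfda297f8b92ff791) b32221 (.tok (nat_lit 6) (nat_lit 0xc0000180000300000600000c000017ff0e2ff00c5fda62bfe4717f9652ff4a35ff220bfc66d7fa002ff767) (.hit (nat_lit 89) (nat_lit 9) (nat_lit 0xbfd0257f7e3aff2525fe562bfec897f9892fec055fd9ecbfbf817f7b1afe6e65fdc9abfa12d7f5d0aff209)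 b32218 (.one (nat_lit 55) (nat_lit 90) (nat_lit 10) (nat_lit 0xc0000180000300000600000c000017ff0e2ff00c5fda62bfe4717f9652ff4a35ff220bfc66d7fa002ff767) b32219 (.nil))) (.nil)))) (.nil)))) (.nil)))) (.tok (nat_lit 9) (nat_lit 0xbfc8697eef52ff1455ff9a6bf6f957fae5b00000600000c00001800002fdc045fb32ebf65157ef32300000) (.hit (nat_lit 157) (nat_lit 0) (nat_lit 0xbfc8317eef52feb305ff2b0bf6f957fa142ffcb85ff624bfed8d7fd892fd9105fafe0bf65157ef322ffcb8) b32222 (.tok (nat_lit 3) (nat_lit 0xbfc8697ea3a2ff1455ff9a6bf10c57fae5b00000600000c00001800002fdc045fb32ebf4ae17eadeb00000) (.hit (nat_lit 158) (nat_lit 1) (nat_lit 0xbf5c257dd03afdbb25fbf06beae0d7ed29afe8225fccf8bf9b357f33e2fc4445f83aebeebe17defeafef9b) b32223 (.one (nat_lit 55) (nat_lit 159) (nat_lit 3) (nat_lit 0xbfc8697ea3a2ff1455ff9a6bf10c57fae5b00000600000c00001800002fdc045fb32ebf4ae17eadeb00000) b32224 (.nil))) (.tok (nat_lit 9) (nat_lit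 0xbfabf97ec222fe8e95fdab8befafd7f4162ff8725fed98bfdc757fb662fc5185f90b4befee97df68aff46d) (.hit (nat_lit 163) (nat_lit 20) (nat_lit 0xbfabf97ec222fe8e95fdab8befafd7f4162ff8725fed98bfdc757fb662fc5185f90b4befee97df68aff46d) b32225 (.hit (nat_lit 171) (nat_lit 28) (nat_lit 0xbf64fd7dcd0afd3dd5fc248be8c2d7edfa2fe9c35fd03abfa1b97f40eafbe5f5f77e4bed44d7dc0c2feb64) b32226 (.nil))) (.nil)))) (.nil)))
noncomputable def r15_265 : Rw Blk := .tok (nat_lit 6) (nat_lit 0x5e0000bc00017ff662ff689) (.hit (nat_lit 51) (nat_lit 0) (nat_lit 0x5e0000bc00017fba1aff13a) b32238 (.tok (nat_lit 3) (nat_lit 0x5e0000bc00017ff662ff689) (.hit (nat_lit 52) (nat_lit 1) (nat_lit 0x5e0000bc00017ee65afd487) b32239 (.one (nat_lit 14) (nat_lit 53) (nat_lit 4) (nat_lit 0x5e0000bc00017ff662ff689) b32240 (.one (nat_lit 56) (nat_lit 55) (nat_lit 6) (nat_lit 0x5e0000bc00017fb902feee4) b32242 (.one (nat_lit 68) (nat_lit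 54) (nat_lit 5) (nat_lit 0x5e0000bc00017f79f2fe6fe) b32241 (.nil))))) (.nil))) (.tok (nat_lit 9) (nat_lit 0x5e0000bc000180000300000) (.hit (nat_lit 0) (nat_lit 0) (nat_lit 0x5e0000bc00017fba1afee4f) b32227 (.tok (nat_lit 3) (nat_lit 0x5e0000bc00017ff662fe8a3) (.hit (nat_lit 1) (nat_lit 1) (nat_lit 0x5e0000bc00017ee65afc733) b32228 (.one (nat_lit 14) (nat_lit 2) (nat_lit 4) (nat_lit 0x5e0000bc00017ff662fe8a3) b32229 (.one (nat_lit 56) (nat_lit 4) (nat_lit 6) (nat_lit 0x5e0000bc00017f79f2fdd13) b32231 (.one (nat_lit 68) (nat_lit 3) (nat_lit 5) (nat_lit 0x5e0000bc00017fb902fe162) b32230 (.nil))))) (.tok (nat_lit 40) (nat_lit 0x5e0000bc00017faef2fe1c2) (.hit (nat_lit 5) (nat_lit 33) (nat_lit 0x5e0000bc00017faef2fe1c2) b32232 (.hit (nat_lit 6) (nat_lit 34) (nat_lit 0x5e0000bc00017f9ec2fdf18) b32233 (.nil))) (.tok (nat_lit 43) (nat_lit 0x5e0000bc00017fdec2fec90) (.hit (nat_lit 7) (nat_lit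 35) (nat_lit 0x5e0000bc00017f2b7afd468) b32234 (.hit (nat_lit 8) (nat_lit 36) (nat_lit 0x5e0000bc00017fdec2fec90) b32235 (.nil))) (.tok (nat_lit 46) (nat_lit 0x5e0000bc000180000300000) (.hit (nat_lit 9) (nat_lit 37) (nat_lit 0x5e0000bc000180000300000) b32236 (.hit (nat_lit 10) (nat_lit 38) (nat_lit 0x5e0000bc00017fb572fe94b) b32237 (.nil))) (.nil)))))) (.nil))
noncomputable def r15_266 : Rw Blk := .tok (nat_lit 3) (nat_lit 0x5e0000bc00017eee7afffb45fe004bfe66d7f8672fea4b) (.hit (nat_lit 61) (nat_lit 0) (nat_lit 0x5e0000bc00017e9042fd8de5fa38cbf5a8d7e842afcbcc) b32264 (.tok (nat_lit 9) (nat_lit 0x5e0000bc00017e6de2fe1a45faa20bf7d017e9582fcdcc) (.hit (nat_lit 62) (nat_lit 20) (nat_lit 0x5e0000bc00017dddb2fcf9e5f8614bf34e97e0552fbbc6) b32265 (.hit (nat_lit 67) (nat_lit 28) (nat_lit 0x5e0000bc00017d6ca2fc17c5f69d0befc617d9442fada4) b32268 (.tok (nat_lit 14) (nat_lit 0x5e0000bc00017e6de2fe1a45faa20bf7d017e9582fcdcc)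 (.hit (nat_lit 63) (nat_lit 24) (nat_lit 0x5e0000bc00017dee4afd1b15f8a3abf3d357e15eafbdd9) b32266 (.hit (nat_lit 68) (nat_lit 30) (nat_lit 0x5e0000bc00017e0d5afd5935f91febf4cbd7e34fafc1bb) b32269 (.one (nat_lit 6) (nat_lit 64) (nat_lit 25) (nat_lit 0x5e0000bc00017e6de2fe1a45faa20bf7d017e9582fcdcc) b32267 (.nil)))) (.one (nat_lit 56) (nat_lit 69) (nat_lit 31) (nat_lit 0x5e0000bc00017e0092fd3fa5f8eccbf46597e2832fc022) b32270 (.nil))))) (.tok (nat_lit 64) (nat_lit 0x5e0000bc00017e3662fdab45f9c40bf61417e5e02fc6dc) (.hit (nat_lit 71) (nat_lit 50) (nat_lit 0x5e0000bc00017dfa4afd3315f8d3abf43357e21eafbf59) b32271 (.hit (nat_lit 72) (nat_lit 51) (nat_lit 0x5e0000bc00017e3662fdab45f9c40bf61417e5e02fc6dc) b32272 (.nil))) (.tok (nat_lit 67) (nat_lit 0x5e0000bc00017eee7afffb45fe004bfe66d7f8672fea4b) (.hit (nat_lit 73) (nat_lit 52) (nat_lit 0x5e0000bc00017eea9afffb45fe004bfe66d7f8672fea4b)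 b32273 (.tok (nat_lit 3) (nat_lit 0x5e0000bc00017eee7aff1b75fca46bfbd4d7f161afdddf) (.hit (nat_lit 79) (nat_lit 58) (nat_lit 0x5e0000bc00017e9b92fe75a5fb58cbf93d97ec332fd382) b32276 (.one (nat_lit 55) (nat_lit 80) (nat_lit 59) (nat_lit 0x5e0000bc00017eee7aff1b75fca46bfbd4d7f161afdddf) b32277 (.nil))) (.tok (nat_lit 9) (nat_lit 0x5e0000bc00017e5deafdfa55fa622bf75057e858afcbcd) (.hit (nat_lit 74) (nat_lit 53) (nat_lit 0x5e0000bc00017e4582fdc985fa008bf68d17e6d22fc8c0) b32274 (.hit (nat_lit 77) (nat_lit 56) (nat_lit 0x5e0000bc00017e5deafdfa55fa622bf75057e858afcbcd) b32275 (.nil))) (.nil)))) (.one (nat_lit 70) (nat_lit 81) (nat_lit 60) (nat_lit 0x5e0000bc00017e3bdafdb635f9d9ebf63fd7e637afc78b) b32278 (.nil)))))) (.tok (nat_lit 6) (nat_lit 0x5e0000bc000180000300000600ccec00001800b2b00115) (.hit (nat_lit 0) (nat_lit 0) (nat_lit 0x5e0000bc00017f57fafe1685fb52ebfa1e97f550afdebb) b32243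 (.tok (nat_lit 6) (nat_lit 0x5e0000bc00017ffdeaffc7a5ff132c00001800b2b00115) (.hit (nat_lit 1) (nat_lit 7) (nat_lit 0x5e0000bc00017ec43afd0bb5f9d4abf4df57ea382fd2fe) b32244 (.hit (nat_lit 6) (nat_lit 15) (nat_lit 0x5e0000bc00017e3052fbf115f75f6bef2b57ddd5afb229) b32249 (.tok (nat_lit 14) (nat_lit 0x5e0000bc00017fc0baff2dd5fe78abfcb197fba0aff5e2) (.hit (nat_lit 2) (nat_lit 11) (nat_lit 0x5e0000bc00017fc0baff1925fde04bfc5d97f784aff5e2) b32245 (.hit (nat_lit 7) (nat_lit 17) (nat_lit 0x5e0000bc00017f32e2fd5fc5fa5aebf64a17eb1cafd02f) b32250 (.one (nat_lit 9) (nat_lit 3) (nat_lit 12) (nat_lit 0x5e0000bc00017fb662ff2dd5fe78abfcb197fba0aff364) b32246 (.nil)))) (.tok (nat_lit 56) (nat_lit 0x5e0000bc00017ffdeaffc7a5ff132c00001800b2b00115) (.hit (nat_lit 4) (nat_lit 13) (nat_lit 0x5e0000bc00017f7ccafe6845fc80cbf9f597f4e7aff026) b32247 (.hit (nat_lit 9) (nat_lit 19) (nat_lit 0x5e0000bc00017eb10afd5835fa41abf5c417ea5d2fcda6)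 b32252 (.one (nat_lit 6) (nat_lit 5) (nat_lit 14) (nat_lit 0x5e0000bc00017ffdeaffc7a5ff132c00001800b2b00115) b32248 (.nil)))) (.one (nat_lit 68) (nat_lit 8) (nat_lit 18) (nat_lit 0x5e0000bc00017ed8eafd9ed5fb7f6bf76557eda3afd376) b32251 (.nil)))))) (.tok (nat_lit 52) (nat_lit 0x5e0000bc00017f5552fe66c5fbcccbf8a217f7c42fe085) (.hit (nat_lit 10) (nat_lit 39) (nat_lit 0x5e0000bc00017eebbafe66c5fbcccbf7a957f7c42fdbfd) b32253 (.hit (nat_lit 11) (nat_lit 40) (nat_lit 0x5e0000bc00017f5552fded35fb554bf8a217f503afe085) b32254 (.nil))) (.tok (nat_lit 55) (nat_lit 0x5e0000bc000180000300000600ccebffa418005faffc06) (.hit (nat_lit 12) (nat_lit 41) (nat_lit 0x5e0000bc00017fc42aff4435fec96bfd2b57f7bf2ff020) b32255 (.tok (nat_lit 3) (nat_lit 0x5e0000bc000180000300000600ccebffa417fdd1affc06) (.hit (nat_lit 18) (nat_lit 47) (nat_lit 0x5e0000bc00017f646aff08c5fde8cbf9bbd7f2452fe420) b32261 (.one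 (nat_lit 67) (nat_lit 19) (nat_lit 48) (nat_lit 0x5e0000bc000180000300000600ccebffa417fdd1affc06) b32262 (.nil))) (.tok (nat_lit 6) (nat_lit 0x5e0000bc00017fe40affa155fef28bfbd798005fafec07) (.hit (nat_lit 13) (nat_lit 42) (nat_lit 0x5e0000bc00017f0792fe3055fc1d2bf86457eece2fd79f) b32256 (.hit (nat_lit 16) (nat_lit 45) (nat_lit 0x5e0000bc00017f6742fe6265fcc94bf82c17f07a2fe06a) b32259 (.tok (nat_lit 55) (nat_lit 0x5e0000bc00017fe40affa155fef28bfbd798005fafec07) (.hit (nat_lit 14) (nat_lit 43) (nat_lit 0x5e0000bc00017fb5eaff4825fdfcabfb3957f3062fe377) b32257 (.hit (nat_lit 17) (nat_lit 46) (nat_lit 0x5e0000bc00017fe40aff3fb5fdea6bfb3617f2ba2fe8f5) b32260 (.one (nat_lit 6) (nat_lit 15) (nat_lit 44) (nat_lit 0x5e0000bc00017fbb52ffa155fef28bfbd798005fafec07) b32258 (.nil)))) (.nil)))) (.nil)))) (.one (nat_lit 58) (nat_lit 20) (nat_lit 49) (nat_lit 0x5e0000bc00017f66b2fe5515fc94cbfb1bd7f7132fe593)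 b32263 (.nil)))))) (.nil))
noncomputable def r15_267 : Rw Blk := .tok (nat_lit 3) (nat_lit 0x5e0000bc00017e71dafef6c) (.hit (nat_lit 61) (nat_lit 0) (nat_lit 0x5e0000bc00017dcf0afd421) b32300 (.tok (nat_lit 9) (nat_lit 0x5e0000bc00017df87afda70) (.hit (nat_lit 62) (nat_lit 20) (nat_lit 0x5e0000bc00017cf792fba53) b32301 (.hit (nat_lit 67) (nat_lit 28) (nat_lit 0x5e0000bc00017d130afbdc2) b32304 (.tok (nat_lit 14) (nat_lit 0x5e0000bc00017df87afda70) (.hit (nat_lit 63) (nat_lit 24) (nat_lit 0x5e0000bc00017da402fcfe1) b32302 (.hit (nat_lit 68) (nat_lit 30) (nat_lit 0x5e0000bc00017d8b8afccd2) b32305 (.one (nat_lit 6) (nat_lit 64) (nat_lit 25) (nat_lit 0x5e0000bc00017df87afda70) b32303 (.nil)))) (.one (nat_lit 56) (nat_lit 69) (nat_lit 31) (nat_lit 0x5e0000bc00017dc4bafd3f8) b32306 (.nil))))) (.tok (nat_lit 64) (nat_lit 0x5e0000bc00017de582fd811) (.hit (nat_lit 71) (nat_lit 50) (nat_lit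 0x5e0000bc00017dabd2fd0db) b32307 (.hit (nat_lit 72) (nat_lit 51) (nat_lit 0x5e0000bc00017de582fd811) b32308 (.nil))) (.tok (nat_lit 67) (nat_lit 0x5e0000bc00017e71dafef6c) (.hit (nat_lit 73) (nat_lit 52) (nat_lit 0x5e0000bc00017e6262fef6c) b32309 (.tok (nat_lit 3) (nat_lit 0x5e0000bc00017e649afe7f4) (.hit (nat_lit 79) (nat_lit 58) (nat_lit 0x5e0000bc00017e270afe042) b32312 (.one (nat_lit 55) (nat_lit 80) (nat_lit 59) (nat_lit 0x5e0000bc00017e649afe7f4) b32313 (.nil))) (.tok (nat_lit 9) (nat_lit 0x5e0000bc00017e71dafecae) (.hit (nat_lit 74) (nat_lit 53) (nat_lit 0x5e0000bc00017e71dafecae) b32310 (.hit (nat_lit 77) (nat_lit 56) (nat_lit 0x5e0000bc00017ddce2fd6fd) b32311 (.nil))) (.nil)))) (.one (nat_lit 70) (nat_lit 81) (nat_lit 60) (nat_lit 0x5e0000bc00017de202fd7a1) b32314 (.nil)))))) (.tok (nat_lit 6) (nat_lit 0x5e0000bc000180000300da3) (.hit (nat_lit 0) (nat_lit 0) (nat_lit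 0x5e0000bc00017e3cc2fd512) b32279 (.tok (nat_lit 6) (nat_lit 0x5e0000bc00017ea82afe294) (.hit (nat_lit 1) (nat_lit 7) (nat_lit 0x5e0000bc00017dde12fc684) b32280 (.hit (nat_lit 6) (nat_lit 15) (nat_lit 0x5e0000bc00017d734afbdc2) b32285 (.tok (nat_lit 14) (nat_lit 0x5e0000bc00017ea82afe294) (.hit (nat_lit 2) (nat_lit 11) (nat_lit 0x5e0000bc00017e63dafdaa3) b32281 (.hit (nat_lit 7) (nat_lit 17) (nat_lit 0x5e0000bc00017ea82afd25a) b32286 (.one (nat_lit 9) (nat_lit 3) (nat_lit 12) (nat_lit 0x5e0000bc00017e5e1afe294) b32282 (.nil)))) (.tok (nat_lit 56) (nat_lit 0x5e0000bc00017e5fb2fde6c) (.hit (nat_lit 4) (nat_lit 13) (nat_lit 0x5e0000bc00017e590afdd2c) b32283 (.hit (nat_lit 9) (nat_lit 19) (nat_lit 0x5e0000bc00017e57bafc8bd) b32288 (.one (nat_lit 6) (nat_lit 5) (nat_lit 14) (nat_lit 0x5e0000bc00017e5fb2fde6c) b32284 (.nil)))) (.one (nat_lit 68) (nat_lit 8) (nat_lit 18) (nat_lit 0x5e0000bc00017e5a9afd4a9)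 b32287 (.nil)))))) (.tok (nat_lit 52) (nat_lit 0x5e0000bc00017e8cb2fdbee) (.hit (nat_lit 10) (nat_lit 39) (nat_lit 0x5e0000bc00017e0c1afd678) b32289 (.hit (nat_lit 11) (nat_lit 40) (nat_lit 0x5e0000bc00017e8cb2fdbee) b32290 (.nil))) (.tok (nat_lit 55) (nat_lit 0x5e0000bc000180000300da3) (.hit (nat_lit 12) (nat_lit 41) (nat_lit 0x5e0000bc00017eb8c2fed58) b32291 (.tok (nat_lit 3) (nat_lit 0x5e0000bc00017ee12aff3c2) (.hit (nat_lit 18) (nat_lit 47) (nat_lit 0x5e0000bc00017e4b52fdfc3) b32297 (.one (nat_lit 67) (nat_lit 19) (nat_lit 48) (nat_lit 0x5e0000bc00017ee12aff3c2) b32298 (.nil))) (.tok (nat_lit 6) (nat_lit 0x5e0000bc000180000300da3) (.hit (nat_lit 13) (nat_lit 42) (nat_lit 0x5e0000bc00017ee3d2fe795) b32292 (.hit (nat_lit 16) (nat_lit 45) (nat_lit 0x5e0000bc00017ec3dafddd7) b32295 (.tok (nat_lit 55) (nat_lit 0x5e0000bc000180000300da3) (.hit (nat_lit 14) (nat_lit 43) (nat_lit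 0x5e0000bc00017fc793000cf) b32293 (.hit (nat_lit 17) (nat_lit 46) (nat_lit 0x5e0000bc00017ea48afe960) b32296 (.one (nat_lit 6) (nat_lit 15) (nat_lit 44) (nat_lit 0x5e0000bc000180000300da3) b32294 (.nil)))) (.nil)))) (.nil)))) (.one (nat_lit 58) (nat_lit 20) (nat_lit 49) (nat_lit 0x5e0000bc00017e7f22fdd66) b32299 (.nil)))))) (.nil))
noncomputable def r15_268 : Rw Blk := .tok (nat_lit 3) (nat_lit 0x5e0000bc00017ef092fe0b1) (.hit (nat_lit 61) (nat_lit 0) (nat_lit 0x5e0000bc00017e925afcac9) b32325 (.tok (nat_lit 6) (nat_lit 0x5e0000bc00017eac0afd60c) (.hit (nat_lit 62) (nat_lit 7) (nat_lit 0x5e0000bc00017ddfcafbc84) b32326 (.hit (nat_lit 67) (nat_lit 15) (nat_lit 0x5e0000bc00017d6ebafae62) b32331 (.tok (nat_lit 14) (nat_lit 0x5e0000bc00017e6ffafce8a) (.hit (nat_lit 63) (nat_lit 11) (nat_lit 0x5e0000bc00017df062fbe97) b32327 (.hit (nat_lit 68) (nat_lit 17) (nat_lit 0x5e0000bc00017e0f72fc279)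 b32332 (.one (nat_lit 9) (nat_lit 64) (nat_lit 12) (nat_lit 0x5e0000bc00017e6ffafce8a) b32328 (.nil)))) (.tok (nat_lit 56) (nat_lit 0x5e0000bc00017eac0afd60c) (.hit (nat_lit 65) (nat_lit 13) (nat_lit 0x5e0000bc00017e6b9afcdfe) b32329 (.hit (nat_lit 70) (nat_lit 19) (nat_lit 0x5e0000bc00017df6aafbf60) b32333 (.one (nat_lit 6) (nat_lit 66) (nat_lit 14) (nat_lit 0x5e0000bc00017eac0afd60c) b32330 (.nil)))) (.nil))))) (.tok (nat_lit 52) (nat_lit 0x5e0000bc00017e387afc79a) (.hit (nat_lit 71) (nat_lit 39) (nat_lit 0x5e0000bc00017dfc62fc017) b32334 (.hit (nat_lit 72) (nat_lit 40) (nat_lit 0x5e0000bc00017e387afc79a) b32335 (.nil))) (.tok (nat_lit 55) (nat_lit 0x5e0000bc00017ef092fe0b1) (.hit (nat_lit 73) (nat_lit 41) (nat_lit 0x5e0000bc00017eecb2fe0b1) b32336 (.tok (nat_lit 3) (nat_lit 0x5e0000bc00017ef092fde9d) (.hit (nat_lit 79) (nat_lit 47) (nat_lit 0x5e0000bc00017e9daafd440) b32342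 (.one (nat_lit 67) (nat_lit 80) (nat_lit 48) (nat_lit 0x5e0000bc00017ef092fde9d) b32343 (.nil))) (.tok (nat_lit 6) (nat_lit 0x5e0000bc00017ec64afd954) (.hit (nat_lit 74) (nat_lit 42) (nat_lit 0x5e0000bc00017e479afc97e) b32337 (.hit (nat_lit 77) (nat_lit 45) (nat_lit 0x5e0000bc00017e6002fcc8b) b32340 (.tok (nat_lit 55) (nat_lit 0x5e0000bc00017ec64afd954) (.hit (nat_lit 75) (nat_lit 43) (nat_lit 0x5e0000bc00017ec04afd894) b32338 (.hit (nat_lit 78) (nat_lit 46) (nat_lit 0x5e0000bc00017ec64afd954) b32341 (.one (nat_lit 6) (nat_lit 76) (nat_lit 44) (nat_lit 0x5e0000bc00017e9e6afd458) b32339 (.nil)))) (.nil)))) (.nil)))) (.one (nat_lit 58) (nat_lit 81) (nat_lit 49) (nat_lit 0x5e0000bc00017e3df2fc849) b32344 (.nil)))))) (.tok (nat_lit 9) (nat_lit 0x5e0000bc000180000300428) (.hit (nat_lit 0) (nat_lit 0) (nat_lit 0x5e0000bc00017f5a12fe2ae) b32315 (.tok (nat_lit 9) (nat_lit 0x5e0000bc000180000300428)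 (.hit (nat_lit 1) (nat_lit 20) (nat_lit 0x5e0000bc00017ec652fd785) b32316 (.hit (nat_lit 6) (nat_lit 28) (nat_lit 0x5e0000bc00017e326afcb62) b32321 (.tok (nat_lit 14) (nat_lit 0x5e0000bc00017fc2d300220) (.hit (nat_lit 2) (nat_lit 24) (nat_lit 0x5e0000bc00017fc2d300220) b32317 (.hit (nat_lit 7) (nat_lit 30) (nat_lit 0x5e0000bc00017f34fafe837) b32322 (.one (nat_lit 6) (nat_lit 3) (nat_lit 25) (nat_lit 0x5e0000bc00017fb87aff728) b32318 (.nil)))) (.one (nat_lit 56) (nat_lit 8) (nat_lit 31) (nat_lit 0x5e0000bc00017edb02fde75) b32323 (.tok (nat_lit 68) (nat_lit 0x5e0000bc000180000300428) (.hit (nat_lit 4) (nat_lit 26) (nat_lit 0x5e0000bc00017f7ee2fead4) b32319 (.hit (nat_lit 9) (nat_lit 32) (nat_lit 0x5e0000bc00017eb322fda19) b32324 (.one (nat_lit 9) (nat_lit 5) (nat_lit 27) (nat_lit 0x5e0000bc000180000300428) b32320 (.nil)))) (.nil)))))) (.nil))) (.nil))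
noncomputable def r15_269 : Rw Blk := .tok (nat_lit 3) (nat_lit 0x5e0000bc0001800002ff720) (.hit (nat_lit 61) (nat_lit 0) (nat_lit 0x5e0000bc00017f22c2fd9fb) b32355 (.tok (nat_lit 6) (nat_lit 0x5e0000bc00017f4c32fe000) (.hit (nat_lit 62) (nat_lit 7) (nat_lit 0x5e0000bc00017e4b4afbfe3) b32356 (.hit (nat_lit 67) (nat_lit 15) (nat_lit 0x5e0000bc00017e66c2fc352) b32361 (.tok (nat_lit 14) (nat_lit 0x5e0000bc00017f4c32fe000) (.hit (nat_lit 63) (nat_lit 11) (nat_lit 0x5e0000bc00017ef7bafd571) b32357 (.hit (nat_lit 68) (nat_lit 17) (nat_lit 0x5e0000bc00017edf42fd262) b32362 (.one (nat_lit 9) (nat_lit 64) (nat_lit 12) (nat_lit 0x5e0000bc00017f4c32fe000) b32358 (.nil)))) (.tok (nat_lit 56) (nat_lit 0x5e0000bc00017f25e2fdb36) (.hit (nat_lit 65) (nat_lit 13) (nat_lit 0x5e0000bc00017f09dafd7b5) b32359 (.hit (nat_lit 70) (nat_lit 19) (nat_lit 0x5e0000bc00017ee84afd383) b32363 (.one (nat_lit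 6) (nat_lit 66) (nat_lit 14) (nat_lit 0x5e0000bc00017f25e2fdb36) b32360 (.nil)))) (.nil))))) (.tok (nat_lit 52) (nat_lit 0x5e0000bc00017f393afdda1) (.hit (nat_lit 71) (nat_lit 39) (nat_lit 0x5e0000bc00017eff8afd66b) b32364 (.hit (nat_lit 72) (nat_lit 40) (nat_lit 0x5e0000bc00017f393afdda1) b32365 (.nil))) (.tok (nat_lit 55) (nat_lit 0x5e0000bc0001800002ff720) (.hit (nat_lit 73) (nat_lit 41) (nat_lit 0x5e0000bc00017fb61afefc3) b32366 (.tok (nat_lit 3) (nat_lit 0x5e0000bc00017fb852fed84) (.hit (nat_lit 79) (nat_lit 47) (nat_lit 0x5e0000bc00017f7ac2fe5d2) b32372 (.one (nat_lit 67) (nat_lit 80) (nat_lit 48) (nat_lit 0x5e0000bc00017fb852fed84) b32373 (.nil))) (.tok (nat_lit 6) (nat_lit 0x5e0000bc0001800002ff720) (.hit (nat_lit 74) (nat_lit 42) (nat_lit 0x5e0000bc00017fc592fed83) b32367 (.hit (nat_lit 77) (nat_lit 45) (nat_lit 0x5e0000bc00017f309afdc8d) b32370 (.tok (nat_lit 55) (nat_lit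 0x5e0000bc0001800002ff720) (.hit (nat_lit 75) (nat_lit 43) (nat_lit 0x5e0000bc0001800002ff720) b32368 (.hit (nat_lit 78) (nat_lit 46) (nat_lit 0x5e0000bc00017fbac2fedd2) b32371 (.one (nat_lit 6) (nat_lit 76) (nat_lit 44) (nat_lit 0x5e0000bc00017fc342feee2) b32369 (.nil)))) (.nil)))) (.nil)))) (.one (nat_lit 58) (nat_lit 81) (nat_lit 49) (nat_lit 0x5e0000bc00017f35bafdd31) b32374 (.nil)))))) (.tok (nat_lit 9) (nat_lit 0x5e0000bc00017ffbe300000) (.hit (nat_lit 0) (nat_lit 0) (nat_lit 0x5e0000bc00017f907afe790) b32345 (.tok (nat_lit 9) (nat_lit 0x5e0000bc00017ffbe300000) (.hit (nat_lit 1) (nat_lit 20) (nat_lit 0x5e0000bc00017f31cafd4eb) b32346 (.hit (nat_lit 6) (nat_lit 28) (nat_lit 0x5e0000bc00017ec702fcf13) b32351 (.tok (nat_lit 14) (nat_lit 0x5e0000bc00017ffbe300000) (.hit (nat_lit 2) (nat_lit 24) (nat_lit 0x5e0000bc00017fb792ffbb4) b32347 (.hit (nat_lit 7) (nat_lit 30) (nat_lit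 0x5e0000bc00017ffbe2ff0fd) b32352 (.one (nat_lit 6) (nat_lit 3) (nat_lit 25) (nat_lit 0x5e0000bc00017fb1d300000) b32348 (.nil)))) (.one (nat_lit 56) (nat_lit 8) (nat_lit 31) (nat_lit 0x5e0000bc00017fae52fe834) b32353 (.tok (nat_lit 68) (nat_lit 0x5e0000bc00017fb36afee71) (.hit (nat_lit 4) (nat_lit 26) (nat_lit 0x5e0000bc00017facc2fead7) b32349 (.hit (nat_lit 9) (nat_lit 32) (nat_lit 0x5e0000bc00017fab72fe75d) b32354 (.one (nat_lit 9) (nat_lit 5) (nat_lit 27) (nat_lit 0x5e0000bc00017fb36afee71) b32350 (.nil)))) (.nil)))))) (.nil))) (.nil))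
noncomputable def r15_270 : Rw Blk := .tok (nat_lit 3) (nat_lit 0xbfb70d7f577afec3e5fd90ec000017f8302ff1635fe7acbfc1b580082b00294) (.hit (nat_lit 0) (nat_lit 0) (nat_lit 0xbf16957e28b2fcebe5f9c22bf5e7d7e75a2fc97d5fa11abf221d7e990afdad4) b32375 (.tok (nat_lit 9) (nat_lit 0xbf355d7e51e2fe3f05fa5d8bf52817ebb32fce025fab16bf33e57f260afe89d) (.hit (nat_lit 10) (nat_lit 20) (nat_lit 0xbee3f97daf1afd2c25f7d26bf011d7e186afb9a95f8264bee2817e79f2fd724) b32376 (.hit (nat_lit 15) (nat_lit 28) (nat_lit 0xbeda3d7d9ba2fc7a45f7848bef7617e04f2fb73a5f7d86bed8c57e7faafd039) b32381 (.tok (nat_lit 14) (nat_lit 0xbf2fe97e46fafd9a25fa31ebf4d0d7eb04afcca55fa85cbf2e717ecfdafe2c4) (.hit (nat_lit 11) (nat_lit 24) (nat_lit 0xbefe697de3fafd2965f8a5ebf1b8d7e4d4afc0455f8f9cbefcf17eb13afe2c4) b32377 (.hit (nat_lit 16) (nat_lit 30) (nat_lit 0xbefa757ddc12fd0d05f8864bf17997e4562fbf485f8da2bef8fd7e8ccafd726) b32382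 (.one (nat_lit 6) (nat_lit 12) (nat_lit 25) (nat_lit 0xbf2fe97e46fafd9a25fa31ebf4d0d7eb04afcca55fa85cbf2e717ecfdafe06f) b32378 (.nil)))) (.one (nat_lit 56) (nat_lit 17) (nat_lit 31) (nat_lit 0xbf2ef17e450afdd565fa2a2bf4c157eae5afcc675fa7e0bf2d797ed0c2fe144) b32383 (.tok (nat_lit 68) (nat_lit 0xbf355d7e51e2fe3f05fa5d8bf52817ebb32fce025fab16bf33e57f260afe89d) (.hit (nat_lit 13) (nat_lit 26) (nat_lit 0xbf14bd7e10a2fdca95f9588bf31e17e79f2fc5da5f9ac6bf13457eea1afe4a0) b32379 (.hit (nat_lit 18) (nat_lit 32) (nat_lit 0xbf044d7defc2fd26e5f8d50bf21717e5912fc1be5f928ebf02d57e98cafd36a) b32384 (.one (nat_lit 9) (nat_lit 14) (nat_lit 27) (nat_lit 0xbf355d7e51e2fe3f05fa5d8bf52817ebb32fce025fab16bf33e57f260afe89d) b32380 (.nil)))) (.nil)))))) (.tok (nat_lit 64) (nat_lit 0xbf0a357dfb92fd9145f9044bf27597e64e2fc3385f9582bf08bd7ec5cafddca) (.hit (nat_lit 30) (nat_lit 50) (nat_lit 0xbefd8d7de242fcf1e5f89f0bf1ab17e4b92fc00e5f8f2ebefc157ec5cafd745)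 b32385 (.hit (nat_lit 31) (nat_lit 51) (nat_lit 0xbf0a357dfb92fd9145f9044bf27597e64e2fc3385f9582bf08bd7ebfc2fddca) b32386 (.nil))) (.tok (nat_lit 67) (nat_lit 0xbfb70d7f577afec3e5fd90ec000017f8302ff1635fe7acbfc1b580082b00294) (.hit (nat_lit 32) (nat_lit 52) (nat_lit 0xbfb70d7f577afec3e5fcbcebfd0e57f3912ff1635fde94bfc1b57f93eaffb26) b32387 (.tok (nat_lit 3) (nat_lit 0xbf4cb17e808afea0b5fb182bf69d57ee9dafd3d75fb6c0bf4b397f3c72fe931) (.hit (nat_lit 38) (nat_lit 58) (nat_lit 0xbf2e157e4352fea0b5fa234bf4b397eaca2fcc305fa772bf2c9d7f3c72fe931) b32393 (.one (nat_lit 55) (nat_lit 39) (nat_lit 59) (nat_lit 0xbf4cb17e808afe2ad5fb182bf69d57ee9dafd3d75fb6c0bf4b397f0cd2fe915) b32394 (.nil))) (.tok (nat_lit 9) (nat_lit 0xbf8cb57f3d6afe8d25fd90ec000017f8302fe7f35fe7acbf9bf580082b00294) (.hit (nat_lit 33) (nat_lit 53) (nat_lit 0xbf67a17ed4fafe3515fc43abfb99d7f26a2fdd895fcd70bf724d7fb3e2ff5c7)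 b32388 (.hit (nat_lit 36) (nat_lit 56) (nat_lit 0xbf2f797e461afe2155fa2e6bf4c9d7eaf6afcc895fa824bf2e017f2332fe7f2) b32391 (.tok (nat_lit 67) (nat_lit 0xbf8cb57f3d6afe8d25fd90ec000017f8302fe7f35fe7acbf9bf580082b00294) (.hit (nat_lit 34) (nat_lit 54) (nat_lit 0xbf8cb57f3d6afe18f5fd90ec000017f8302fe7f35fe7acbf9bf580082b00294) b32389 (.hit (nat_lit 37) (nat_lit 57) (nat_lit 0xbf59a17e9a6afe8d25fb7fabf76c57f03bafd7135fbd38bf58297f511afef34) b32392 (.one (nat_lit 9) (nat_lit 35) (nat_lit 55) (nat_lit 0xbf53457e8db2fde4e5fb4ccbf70697ef702fd57c5fba0abf51cd7fd112ffa77) b32390 (.nil)))) (.nil)))) (.nil)))) (.one (nat_lit 70) (nat_lit 40) (nat_lit 60) (nat_lit 0xbf2af57e3d12fe44c5fa0a4bf48197ea662fcb685fa5e2bf297d7f3962fead6) b32395 (.nil)))))) (.tok (nat_lit 6) (nat_lit 0xc0000180000300000600000bfe8e580000300000600000c000017f9deaff8da) (.hit (nat_lit 81) (nat_lit 0) (nat_lit 0xbf681d7eefeafe0845fbd24bf70f17f0202fd9165fb6ccbf60d17e7edafe081)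 b32396 (.tok (nat_lit 6) (nat_lit 0xbfbc757f8a12feae35fd0fabf63957f6c52fe2a75fdc6ebf8db17e9392fef5e) (.hit (nat_lit 87) (nat_lit 7) (nat_lit 0xbf3d017ed19afd15b5f9a42bf2de57e71fafcec05fb55abf39357e2ecafd58b) b32397 (.hit (nat_lit 95) (nat_lit 15) (nat_lit 0xbf0b117dff82fc6405f6974bebf157e25bafc6655f87c8bf15bd7df902fced2) b32400 (.tok (nat_lit 14) (nat_lit 0xbfbc757f8a12feae35fd0fabf63957f6c52fe2a75fdc6ebf8db17e9392fef5e) (.hit (nat_lit 91) (nat_lit 11) (nat_lit 0xbfaffd7f79f2feae35fcad4bf40e17f34e2fdd625fd55cbf6bb97e87eafe94e) b32398 (.hit (nat_lit 97) (nat_lit 17) (nat_lit 0xbf7d017ee362fe38d5fa422bf05a57f0822fe2a75fc0b4bf86d57e7f12fdf94) b32401 (.one (nat_lit 9) (nat_lit 92) (nat_lit 12) (nat_lit 0xbfbc757f8a12fea925fd0fabf63957f6c52fe1c15fdc6ebf8db17e9392fef5e) b32399 (.nil)))) (.one (nat_lit 68) (nat_lit 98) (nat_lit 18) (nat_lit 0xbf61017eab92fd8925f9616bf14097ed022fdbe15fb2f6bf6bad7e685afe252)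 b32402 (.nil))))) (.tok (nat_lit 52) (nat_lit 0xbf7d817f401afe20a5fb748bf36dd7f0d12fe3ae5fc7eabf8de97ed012fe9b4) (.hit (nat_lit 106) (nat_lit 39) (nat_lit 0xbf7d817f401afddfd5fa446bf36dd7f0d12fe3ae5fc7eabf8de97e999afe546) b32403 (.hit (nat_lit 107) (nat_lit 40) (nat_lit 0xbf73097f154afe20a5fb748bf30b57ef422fe0215fbb3ebf7cad7ed012fe9b4) b32404 (.nil))) (.tok (nat_lit 55) (nat_lit 0xc0000180000300000600000bfe8e580000300000600000c000017f9deaff8da) (.hit (nat_lit 108) (nat_lit 41) (nat_lit 0xc00001800002ff8975ff47ebfe8e57fe223000005ffca6c000017f9deaff8da) b32405 (.tok (nat_lit 3) (nat_lit 0xbffba57fb72afe9ac600000bf7be1800002ff293600000bfe77d7f2db2ff568) (.hit (nat_lit 114) (nat_lit 47) (nat_lit 0xbfbe857f933afe6c45fec20bf6b817fc722fef0c600000bfda717ef10afee14) b32408 (.one (nat_lit 67) (nat_lit 115) (nat_lit 48) (nat_lit 0xbffba57fb72afe9ac600000bf7be1800002ff2935ff5ccbfe77d7f2db2ff568)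 b32409 (.nil))) (.tok (nat_lit 6) (nat_lit 0xbfe5957fa633000005fcab6bf6a357f9e92ff58a5fe8cabfd2197eedfaff551) (.hit (nat_lit 109) (nat_lit 42) (nat_lit 0xbfe5957f798afe9315fc8b2bf66557f9e92ff58a5fe8cabfd2197ee96afef36) b32406 (.hit (nat_lit 112) (nat_lit 45) (nat_lit 0xbf99c57fa633000005fcab6bf6a357f419afe9d05fce9ebfa3697eedfaff551) b32407 (.nil))) (.nil)))) (.one (nat_lit 58) (nat_lit 116) (nat_lit 49) (nat_lit 0xbf7d897f1692fe2035fc8a0bf39e57f3962fe8645fce6cbf9ddd7ed862feae7) b32410 (.nil)))))) (.nil))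
noncomputable def r15_271 : Rw Blk := .tok (nat_lit 9) (nat_lit 0x5e0000bc00017f846b0039a) (.hit (nat_lit 0) (nat_lit 0) (nat_lit 0x5e0000bc00017ee2bafea8b) b32411 (.tok (nat_lit 14) (nat_lit 0x5e0000bc00017f4dd2fee1f) (.hit (nat_lit 11) (nat_lit 61) (nat_lit 0x5e0000bc00017f0462fec03) b32412 (.one (nat_lit 3) (nat_lit 12) (nat_lit 62) (nat_lit 0x5e0000bc00017f26e2fe82a) b32413 (.tok (nat_lit 6) (nat_lit 0x5e0000bc00017f4dd2fea37) (.hit (nat_lit 15) (nat_lit 65) (nat_lit 0x5e0000bc00017f4dd2fe7ab) b32416 (.hit (nat_lit 16) (nat_lit 66) (nat_lit 0x5e0000bc00017ee1b2fea37) b32417 (.nil))) (.tok (nat_lit 9) (nat_lit 0x5e0000bc00017f026afee1f) (.hit (nat_lit 13) (nat_lit 63) (nat_lit 0x5e0000bc00017e3ed2fdf16) b32414 (.hit (nat_lit 14) (nat_lit 64) (nat_lit 0x5e0000bc00017f026afee1f) b32415 (.nil))) (.nil))))) (.one (nat_lit 17) (nat_lit 17) (nat_lit 67) (nat_lit 0x5e0000bc00017eeb72fe313)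 b32418 (.tok (nat_lit 20) (nat_lit 0x5e0000bc00017ecb12fe1b5) (.hit (nat_lit 18) (nat_lit 68) (nat_lit 0x5e0000bc00017d9f0afcb1d) b32419 (.hit (nat_lit 19) (nat_lit 69) (nat_lit 0x5e0000bc00017ecb12fe1b5) b32420 (.nil))) (.tok (nat_lit 23) (nat_lit 0x5e0000bc00017f436aff69f) (.hit (nat_lit 20) (nat_lit 70) (nat_lit 0x5e0000bc00017f436aff69f) b32421 (.hit (nat_lit 21) (nat_lit 71) (nat_lit 0x5e0000bc00017ef6bafe482) b32422 (.nil))) (.one (nat_lit 26) (nat_lit 22) (nat_lit 72) (nat_lit 0x5e0000bc00017e771afd488) b32423 (.one (nat_lit 29) (nat_lit 23) (nat_lit 73) (nat_lit 0x5e0000bc00017e4582fd508) b32424 (.one (nat_lit 32) (nat_lit 24) (nat_lit 74) (nat_lit 0x5e0000bc00017e9ccafdce2) b32425 (.one (nat_lit 35) (nat_lit 25) (nat_lit 75) (nat_lit 0x5e0000bc00017e558afd0da) b32426 (.one (nat_lit 50) (nat_lit 33) (nat_lit 83) (nat_lit 0x5e0000bc00017ea1cafd9de) b32427 (.tok (nat_lit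 53) (nat_lit 0x5e0000bc00017ee472fe23f) (.hit (nat_lit 34) (nat_lit 84) (nat_lit 0x5e0000bc00017eb482fd278) b32428 (.hit (nat_lit 35) (nat_lit 85) (nat_lit 0x5e0000bc00017ee472fe23f) b32429 (.nil))) (.tok (nat_lit 56) (nat_lit 0x5e0000bc00017f0c0aff094) (.hit (nat_lit 36) (nat_lit 86) (nat_lit 0x5e0000bc00017f0c0aff094) b32430 (.one (nat_lit 3) (nat_lit 40) (nat_lit 90) (nat_lit 0x5e0000bc00017db9fafce7b) b32434 (.tok (nat_lit 6) (nat_lit 0x5e0000bc00017e0f12fd91e) (.hit (nat_lit 38) (nat_lit 88) (nat_lit 0x5e0000bc00017e0f12fd91e) b32432 (.hit (nat_lit 39) (nat_lit 89) (nat_lit 0x5e0000bc00017de4bafd3d3) b32433 (.nil))) (.one (nat_lit 9) (nat_lit 37) (nat_lit 87) (nat_lit 0x5e0000bc00017df952fd666) b32431 (.nil))))) (.one (nat_lit 59) (nat_lit 41) (nat_lit 91) (nat_lit 0x5e0000bc00017ea60afda4d) b32435 (.one (nat_lit 62) (nat_lit 42) (nat_lit 92) (nat_lit 0x5e0000bc00017ee4eafe242)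 b32436 (.tok (nat_lit 65) (nat_lit 0x5e0000bc00017f0a4afe70e) (.hit (nat_lit 43) (nat_lit 93) (nat_lit 0x5e0000bc00017eb66afdac7) b32437 (.hit (nat_lit 44) (nat_lit 94) (nat_lit 0x5e0000bc00017f0a4afe70e) b32438 (.nil))) (.tok (nat_lit 68) (nat_lit 0x5e0000bc00017f846b0039a) (.hit (nat_lit 45) (nat_lit 95) (nat_lit 0x5e0000bc00017f846b001cb) b32439 (.one (nat_lit 3) (nat_lit 49) (nat_lit 99) (nat_lit 0x5e0000bc00017f48a2ff4a5) b32443 (.one (nat_lit 6) (nat_lit 46) (nat_lit 96) (nat_lit 0x5e0000bc00017f820b0039a) b32440 (.tok (nat_lit 9) (nat_lit 0x5e0000bc00017f5b6afe909) (.hit (nat_lit 47) (nat_lit 97) (nat_lit 0x5e0000bc00017f5b6afe909) b32441 (.hit (nat_lit 48) (nat_lit 98) (nat_lit 0x5e0000bc00017f0962fe197) b32442 (.nil))) (.nil))))) (.one (nat_lit 71) (nat_lit 50) (nat_lit 100) (nat_lit 0x5e0000bc00017eb08afdbb6) b32444 (.nil)))))))))))))))))) (.tok (nat_lit 64) (nat_lit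 0x5e0000bc000180000300787) (.hit (nat_lit 180) (nat_lit 0) (nat_lit 0x5e0000bc0001800002ffeb9) b32445 (.tok (nat_lit 6) (nat_lit 0x5e0000bc00017f65e2ff8a9) (.hit (nat_lit 181) (nat_lit 7) (nat_lit 0x5e0000bc00017ec0f2fe5df) b32446 (.hit (nat_lit 182) (nat_lit 15) (nat_lit 0x5e0000bc00017f65e2ff8a9) b32447 (.nil))) (.tok (nat_lit 9) (nat_lit 0x5e0000bc00017fd38b00787) (.hit (nat_lit 183) (nat_lit 20) (nat_lit 0x5e0000bc00017fd38b00787) b32448 (.hit (nat_lit 184) (nat_lit 28) (nat_lit 0x5e0000bc00017f4daaff759) b32449 (.nil))) (.nil)))) (.tok (nat_lit 67) (nat_lit 0x5e0000bc00017f6b3affad8) (.hit (nat_lit 205) (nat_lit 0) (nat_lit 0x5e0000bc00017f6b3aff64f) b32458 (.tok (nat_lit 3) (nat_lit 0x5e0000bc00017f68baffad8) (.hit (nat_lit 206) (nat_lit 1) (nat_lit 0x5e0000bc00017e9042fdfc9) b32459 (.one (nat_lit 55) (nat_lit 207) (nat_lit 3) (nat_lit 0x5e0000bc00017f68baffad8) b32460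 (.nil))) (.tok (nat_lit 9) (nat_lit 0x5e0000bc00017f25a2ff275) (.hit (nat_lit 208) (nat_lit 20) (nat_lit 0x5e0000bc00017ec05afe5cc) b32461 (.hit (nat_lit 211) (nat_lit 28) (nat_lit 0x5e0000bc00017e87aafdeb6) b32464 (.tok (nat_lit 67) (nat_lit 0x5e0000bc00017f25a2ff275) (.hit (nat_lit 209) (nat_lit 21) (nat_lit 0x5e0000bc00017edef2fe99f) b32462 (.hit (nat_lit 212) (nat_lit 29) (nat_lit 0x5e0000bc00017f25a2ff275) b32465 (.one (nat_lit 9) (nat_lit 210) (nat_lit 22) (nat_lit 0x5e0000bc00017f1152fefeb) b32463 (.nil)))) (.nil)))) (.nil)))) (.tok (nat_lit 70) (nat_lit 0x5e0000bc00017ff98b00cf2) (.hit (nat_lit 191) (nat_lit 0) (nat_lit 0x5e0000bc00017fbffafff35) b32450 (.tok (nat_lit 3) (nat_lit 0x5e0000bc00017f9cdb0015c) (.hit (nat_lit 192) (nat_lit 1) (nat_lit 0x5e0000bc00017e8cf2fdf5f) b32451 (.one (nat_lit 67) (nat_lit 193) (nat_lit 2) (nat_lit 0x5e0000bc00017f9cdb0015c) b32452 (.nil)))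 (.tok (nat_lit 6) (nat_lit 0x5e0000bc00017ff98b00cf2) (.hit (nat_lit 194) (nat_lit 7) (nat_lit 0x5e0000bc00017ef67afec90) b32453 (.hit (nat_lit 197) (nat_lit 15) (nat_lit 0x5e0000bc00017ebc62fe54d) b32456 (.tok (nat_lit 55) (nat_lit 0x5e0000bc00017ff98b00cf2) (.hit (nat_lit 195) (nat_lit 8) (nat_lit 0x5e0000bc00017f4f12ff7a3) b32454 (.hit (nat_lit 198) (nat_lit 16) (nat_lit 0x5e0000bc00017f746affc4e) b32457 (.one (nat_lit 6) (nat_lit 196) (nat_lit 9) (nat_lit 0x5e0000bc00017ff98b00cf2) b32455 (.nil)))) (.nil)))) (.nil)))) (.nil))))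
noncomputable def r15_272 : Rw Blk := .tok (nat_lit 3) (nat_lit 0x5e0000bc0001802fd2fef39) (.hit (nat_lit 15) (nat_lit 0) (nat_lit 0x5e0000bc00017f671afde50) b32477 (.tok (nat_lit 6) (nat_lit 0x5e0000bc00017f19dafcedf) (.hit (nat_lit 16) (nat_lit 7) (nat_lit 0x5e0000bc00017e8382fbc14) b32478 (.hit (nat_lit 21) (nat_lit 15) (nat_lit 0x5e0000bc00017dc572fa452) b32481 (.tok (nat_lit 56) (nat_lit 0x5e0000bc00017f19dafcedf) (.hit (nat_lit 19) (nat_lit 13) (nat_lit 0x5e0000bc00017ec58afc455) b32479 (.hit (nat_lit 24) (nat_lit 19) (nat_lit 0x5e0000bc00017ecc62fc530) b32483 (.one (nat_lit 6) (nat_lit 20) (nat_lit 14) (nat_lit 0x5e0000bc00017f19dafcedf) b32480 (.nil)))) (.one (nat_lit 68) (nat_lit 23) (nat_lit 18) (nat_lit 0x5e0000bc00017ebacafc2fd) b32482 (.nil))))) (.tok (nat_lit 52) (nat_lit 0x5e0000bc00017f2102fcfc4) (.hit (nat_lit 25) (nat_lit 39) (nat_lit 0x5e0000bc00017eb7d2fc29e)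 b32484 (.hit (nat_lit 26) (nat_lit 40) (nat_lit 0x5e0000bc00017f2102fcfc4) b32485 (.nil))) (.tok (nat_lit 55) (nat_lit 0x5e0000bc0001802fd2fef39) (.hit (nat_lit 27) (nat_lit 41) (nat_lit 0x5e0000bc0001802fd2fef39) b32486 (.one (nat_lit 3) (nat_lit 33) (nat_lit 47) (nat_lit 0x5e0000bc00017f21cafcfdd) b32492 (.tok (nat_lit 6) (nat_lit 0x5e0000bc00017f379afd297) (.hit (nat_lit 28) (nat_lit 42) (nat_lit 0x5e0000bc00017ee6c2fc87c) b32487 (.hit (nat_lit 31) (nat_lit 45) (nat_lit 0x5e0000bc00017f007afcbb3) b32490 (.tok (nat_lit 55) (nat_lit 0x5e0000bc00017f379afd297) (.hit (nat_lit 29) (nat_lit 43) (nat_lit 0x5e0000bc00017f379afd297) b32488 (.hit (nat_lit 32) (nat_lit 46) (nat_lit 0x5e0000bc00017f2fb2fd19a) b32491 (.one (nat_lit 6) (nat_lit 30) (nat_lit 44) (nat_lit 0x5e0000bc00017ee14afc7cd) b32489 (.nil)))) (.nil)))) (.nil)))) (.one (nat_lit 58) (nat_lit 35) (nat_lit 49) (nat_lit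 0x5e0000bc00017f182afcea9) b32493 (.nil)))))) (.tok (nat_lit 9) (nat_lit 0x5e0000bc0001810bb3028a2) (.hit (nat_lit 0) (nat_lit 0) (nat_lit 0x5e0000bc000180514affbba) b32466 (.tok (nat_lit 9) (nat_lit 0x5e0000bc00017f8e42fe799) (.hit (nat_lit 1) (nat_lit 20) (nat_lit 0x5e0000bc00017f3b7afe177) b32467 (.hit (nat_lit 4) (nat_lit 28) (nat_lit 0x5e0000bc00017eff82fd265) b32468 (.one (nat_lit 56) (nat_lit 6) (nat_lit 31) (nat_lit 0x5e0000bc00017f8e42fe799) b32469 (.nil)))) (.tok (nat_lit 64) (nat_lit 0x5e0000bc0001808e6b007d5) (.hit (nat_lit 7) (nat_lit 50) (nat_lit 0x5e0000bc0001803f53002c7) b32470 (.hit (nat_lit 8) (nat_lit 51) (nat_lit 0x5e0000bc0001808e6b007d5) b32471 (.nil))) (.tok (nat_lit 67) (nat_lit 0x5e0000bc000180df9300d03) (.hit (nat_lit 9) (nat_lit 52) (nat_lit 0x5e0000bc000180df9300d03) b32472 (.one (nat_lit 3) (nat_lit 12) (nat_lit 58) (nat_lit 0x5e0000bc0001808cf30056b)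 b32475 (.tok (nat_lit 9) (nat_lit 0x5e0000bc000180026affd42) (.hit (nat_lit 10) (nat_lit 53) (nat_lit 0x5e0000bc00017f9d1affd42) b32473 (.hit (nat_lit 11) (nat_lit 56) (nat_lit 0x5e0000bc000180026aff586) b32474 (.nil))) (.nil)))) (.one (nat_lit 70) (nat_lit 14) (nat_lit 60) (nat_lit 0x5e0000bc0001810bb3028a2) b32476 (.nil)))))) (.nil))
noncomputable def r15_273 : Rw Blk := .tok (nat_lit 6) (nat_lit 0x5e0000bc000180589b01687) (.hit (nat_lit 0) (nat_lit 0) (nat_lit 0x5e0000bc00017e9b22fef5e) b32494 (.tok (nat_lit 14) (nat_lit 0x5e0000bc00017f669b00648) (.hit (nat_lit 21) (nat_lit 61) (nat_lit 0x5e0000bc00017f474aff8e3) b32495 (.one (nat_lit 3) (nat_lit 22) (nat_lit 62) (nat_lit 0x5e0000bc00017f444affe38) b32496 (.tok (nat_lit 6) (nat_lit 0x5e0000bc00017eff02ff6d5) (.hit (nat_lit 25) (nat_lit 65) (nat_lit 0x5e0000bc00017e24a2fdaa1) b32499 (.hit (nat_lit 26) (nat_lit 66) (nat_lit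 0x5e0000bc00017eff02ff6d5) b32500 (.nil))) (.tok (nat_lit 9) (nat_lit 0x5e0000bc00017f669b00648) (.hit (nat_lit 23) (nat_lit 63) (nat_lit 0x5e0000bc00017f669b00648) b32497 (.hit (nat_lit 24) (nat_lit 64) (nat_lit 0x5e0000bc00017e5322fe548) b32498 (.nil))) (.nil))))) (.one (nat_lit 17) (nat_lit 27) (nat_lit 67) (nat_lit 0x5e0000bc00017eb28afee65) b32501 (.tok (nat_lit 20) (nat_lit 0x5e0000bc000180589b01687) (.hit (nat_lit 28) (nat_lit 68) (nat_lit 0x5e0000bc000180589b01687) b32502 (.hit (nat_lit 29) (nat_lit 69) (nat_lit 0x5e0000bc00017e8ca2fe730) b32503 (.nil))) (.tok (nat_lit 23) (nat_lit 0x5e0000bc00017e78eafe205) (.hit (nat_lit 30) (nat_lit 70) (nat_lit 0x5e0000bc00017d9ebafc9e4) b32504 (.hit (nat_lit 31) (nat_lit 71) (nat_lit 0x5e0000bc00017e78eafe205) b32505 (.nil))) (.one (nat_lit 26) (nat_lit 32) (nat_lit 72) (nat_lit 0x5e0000bc00017e3df2fdcbc) b32506 (.one (nat_lit 29)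 (nat_lit 33) (nat_lit 73) (nat_lit 0x5e0000bc00017eb69afe889) b32507 (.one (nat_lit 32) (nat_lit 34) (nat_lit 74) (nat_lit 0x5e0000bc00017e019afd5cf) b32508 (.one (nat_lit 35) (nat_lit 35) (nat_lit 75) (nat_lit 0x5e0000bc00017e85d2fea78) b32509 (.one (nat_lit 38) (nat_lit 36) (nat_lit 76) (nat_lit 0x5e0000bc00017e6922fe2d3) b32510 (.tok (nat_lit 41) (nat_lit 0x5e0000bc00017eb1bafe7d5) (.hit (nat_lit 37) (nat_lit 77) (nat_lit 0x5e0000bc00017e899afe013) b32511 (.hit (nat_lit 38) (nat_lit 78) (nat_lit 0x5e0000bc00017eb1bafe7d5) b32512 (.nil))) (.tok (nat_lit 44) (nat_lit 0x5e0000bc00017f10f2fe61e) (.hit (nat_lit 39) (nat_lit 79) (nat_lit 0x5e0000bc00017f10f2fe61e) b32513 (.hit (nat_lit 40) (nat_lit 80) (nat_lit 0x5e0000bc00017e65e2fd9c9) b32514 (.nil))) (.tok (nat_lit 47) (nat_lit 0x5e0000bc00017ea72aff4ba) (.hit (nat_lit 41) (nat_lit 81) (nat_lit 0x5e0000bc00017d6372fc27b) b32515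 (.hit (nat_lit 42) (nat_lit 82) (nat_lit 0x5e0000bc00017ea72aff4ba) b32516 (.nil))) (.one (nat_lit 62) (nat_lit 52) (nat_lit 92) (nat_lit 0x5e0000bc00017e3e6afdd69) b32517 (.tok (nat_lit 65) (nat_lit 0x5e0000bc00017ec382fe261) (.hit (nat_lit 53) (nat_lit 93) (nat_lit 0x5e0000bc00017ec382fe261) b32518 (.hit (nat_lit 54) (nat_lit 94) (nat_lit 0x5e0000bc00017e645afe1fd) b32519 (.nil))) (.tok (nat_lit 68) (nat_lit 0x5e0000bc00017e8d4afeca8) (.hit (nat_lit 55) (nat_lit 95) (nat_lit 0x5e0000bc00017e8d4afeca8) b32520 (.one (nat_lit 3) (nat_lit 59) (nat_lit 99) (nat_lit 0x5e0000bc00017d9ad2fc967) b32524 (.one (nat_lit 6) (nat_lit 56) (nat_lit 96) (nat_lit 0x5e0000bc00017dbbeafcd8a) b32521 (.tok (nat_lit 9) (nat_lit 0x5e0000bc00017e2b4afdb76) (.hit (nat_lit 57) (nat_lit 97) (nat_lit 0x5e0000bc00017e2b4afdb76) b32522 (.hit (nat_lit 58) (nat_lit 98) (nat_lit 0x5e0000bc00017de8bafd324) b32523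 (.nil))) (.nil))))) (.one (nat_lit 71) (nat_lit 60) (nat_lit 100) (nat_lit 0x5e0000bc00017e737afe140) b32525 (.nil)))))))))))))))))) (.tok (nat_lit 52) (nat_lit 0x5e0000bc00017ff85300d3b) (.hit (nat_lit 176) (nat_lit 0) (nat_lit 0x5e0000bc00017ff85300d3b) b32526 (.tok (nat_lit 6) (nat_lit 0x5e0000bc00017f64daffc5f) (.hit (nat_lit 177) (nat_lit 7) (nat_lit 0x5e0000bc00017f64daffc5f) b32527 (.hit (nat_lit 178) (nat_lit 15) (nat_lit 0x5e0000bc00017ee0c2fef51) b32528 (.nil))) (.tok (nat_lit 9) (nat_lit 0x5e0000bc00017f1c0affaff) (.hit (nat_lit 179) (nat_lit 20) (nat_lit 0x5e0000bc00017e7c72fec3f) b32529 (.hit (nat_lit 180) (nat_lit 28) (nat_lit 0x5e0000bc00017f1c0affaff) b32530 (.nil))) (.nil)))) (.tok (nat_lit 55) (nat_lit 0x5e0000bc00017efb4aff497) (.hit (nat_lit 187) (nat_lit 0) (nat_lit 0x5e0000bc00017efb4aff497) b32531 (.tok (nat_lit 3) (nat_lit 0x5e0000bc00017eb162ff2dd) (.hit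 (nat_lit 188) (nat_lit 1) (nat_lit 0x5e0000bc00017dfc42fdc39) b32532 (.one (nat_lit 67) (nat_lit 189) (nat_lit 2) (nat_lit 0x5e0000bc00017eb162ff2dd) b32533 (.nil))) (.tok (nat_lit 6) (nat_lit 0x5e0000bc00017e506afe6be) (.hit (nat_lit 190) (nat_lit 7) (nat_lit 0x5e0000bc00017e506afe6be) b32534 (.hit (nat_lit 193) (nat_lit 15) (nat_lit 0x5e0000bc00017e02f2fdd0f) b32535 (.nil))) (.nil)))) (.tok (nat_lit 58) (nat_lit 0x5e0000bc00017f521b006f4) (.hit (nat_lit 201) (nat_lit 0) (nat_lit 0x5e0000bc00017f088affda3) b32536 (.tok (nat_lit 3) (nat_lit 0x5e0000bc00017f08e2ffdcd) (.hit (nat_lit 202) (nat_lit 1) (nat_lit 0x5e0000bc00017e3c2afe436) b32537 (.one (nat_lit 55) (nat_lit 203) (nat_lit 3) (nat_lit 0x5e0000bc00017f08e2ffdcd) b32538 (.nil))) (.tok (nat_lit 9) (nat_lit 0x5e0000bc00017f521b006f4) (.hit (nat_lit 204) (nat_lit 20) (nat_lit 0x5e0000bc00017e4bc2fe629) b32539 (.hit (nat_lit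 207) (nat_lit 28) (nat_lit 0x5e0000bc00017e4d2afe656) b32542 (.tok (nat_lit 67) (nat_lit 0x5e0000bc00017f521b006f4) (.hit (nat_lit 205) (nat_lit 21) (nat_lit 0x5e0000bc00017eb37aff320) b32540 (.hit (nat_lit 208) (nat_lit 29) (nat_lit 0x5e0000bc00017f1f0300091) b32543 (.one (nat_lit 9) (nat_lit 206) (nat_lit 22) (nat_lit 0x5e0000bc00017f521b006f4) b32541 (.nil)))) (.nil)))) (.nil)))) (.nil))))
noncomputable def r15_274 : Rw Blk := .tok (nat_lit 3) (nat_lit 0x5e0000bc0001809cbb024d6) (.hit (nat_lit 15) (nat_lit 0) (nat_lit 0x5e0000bc00017ff90300ad9) b32551 (.tok (nat_lit 9) (nat_lit 0x5e0000bc00017f639aff9b9) (.hit (nat_lit 16) (nat_lit 20) (nat_lit 0x5e0000bc00017e3f12fd391) b32552 (.hit (nat_lit 21) (nat_lit 28) (nat_lit 0x5e0000bc00017ea002fe3ff) b32557 (.tok (nat_lit 14) (nat_lit 0x5e0000bc00017f639aff9b9) (.hit (nat_lit 17) (nat_lit 24) (nat_lit 0x5e0000bc00017ec9b2fe4e5)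 b32553 (.hit (nat_lit 22) (nat_lit 30) (nat_lit 0x5e0000bc00017f639aff9b9) b32558 (.one (nat_lit 6) (nat_lit 18) (nat_lit 25) (nat_lit 0x5e0000bc00017f57b2ff6a5) b32554 (.nil)))) (.tok (nat_lit 68) (nat_lit 0x5e0000bc00017f3232ff7b2) (.hit (nat_lit 19) (nat_lit 26) (nat_lit 0x5e0000bc00017ec74afe498) b32555 (.hit (nat_lit 24) (nat_lit 32) (nat_lit 0x5e0000bc00017f3232ff7b2) b32559 (.one (nat_lit 9) (nat_lit 20) (nat_lit 27) (nat_lit 0x5e0000bc00017f245aff03a) b32556 (.nil)))) (.nil))))) (.tok (nat_lit 64) (nat_lit 0x5e0000bc00017f5e5aff4db) (.hit (nat_lit 25) (nat_lit 50) (nat_lit 0x5e0000bc00017f490aff4db) b32560 (.hit (nat_lit 26) (nat_lit 51) (nat_lit 0x5e0000bc00017f5e5aff09f) b32561 (.nil))) (.tok (nat_lit 67) (nat_lit 0x5e0000bc0001807683024d6) (.hit (nat_lit 27) (nat_lit 52) (nat_lit 0x5e0000bc0001807683024d6) b32562 (.tok (nat_lit 3) (nat_lit 0x5e0000bc00017fb4e30024b)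 (.hit (nat_lit 33) (nat_lit 58) (nat_lit 0x5e0000bc00017f1d5afef5a) b32568 (.one (nat_lit 55) (nat_lit 34) (nat_lit 59) (nat_lit 0x5e0000bc00017fb4e30024b) b32569 (.nil))) (.tok (nat_lit 9) (nat_lit 0x5e0000bc00017f5d12ff751) (.hit (nat_lit 28) (nat_lit 53) (nat_lit 0x5e0000bc00017f24aaff044) b32563 (.hit (nat_lit 31) (nat_lit 56) (nat_lit 0x5e0000bc00017f099afece2) b32566 (.tok (nat_lit 67) (nat_lit 0x5e0000bc00017f5d12ff751) (.hit (nat_lit 29) (nat_lit 54) (nat_lit 0x5e0000bc00017f5d12ff751) b32564 (.hit (nat_lit 32) (nat_lit 57) (nat_lit 0x5e0000bc00017f58caff6c8) b32567 (.one (nat_lit 9) (nat_lit 30) (nat_lit 55) (nat_lit 0x5e0000bc00017f017afebde) b32565 (.nil)))) (.nil)))) (.nil)))) (.one (nat_lit 70) (nat_lit 35) (nat_lit 60) (nat_lit 0x5e0000bc0001809cbb01d3e) b32570 (.nil)))))) (.tok (nat_lit 6) (nat_lit 0x5e0000bc000181159302d5c) (.hit (nat_lit 0) (nat_lit 0) (nat_lit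 0x5e0000bc0001805b5301063) b32544 (.tok (nat_lit 6) (nat_lit 0x5e0000bc000181159302d5c) (.hit (nat_lit 1) (nat_lit 7) (nat_lit 0x5e0000bc00017ede8afe077) b32545 (.hit (nat_lit 4) (nat_lit 15) (nat_lit 0x5e0000bc00017f53e2fecc9) b32548 (.tok (nat_lit 14) (nat_lit 0x5e0000bc000181159302d5c) (.hit (nat_lit 2) (nat_lit 11) (nat_lit 0x5e0000bc00017fcca30068a) b32546 (.hit (nat_lit 5) (nat_lit 17) (nat_lit 0x5e0000bc00017fba7300449) b32549 (.one (nat_lit 9) (nat_lit 3) (nat_lit 12) (nat_lit 0x5e0000bc000181159302d5c) b32547 (.nil)))) (.one (nat_lit 68) (nat_lit 6) (nat_lit 18) (nat_lit 0x5e0000bc000180394b001ed) b32550 (.nil))))) (.nil))) (.nil))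
noncomputable def r15_275 : Rw Blk := .tok (nat_lit 6) (nat_lit 0x5e0000bc000182881304c4d) (.hit (nat_lit 0) (nat_lit 0) (nat_lit 0x5e0000bc00017fee82ffb3a) b32571 (.tok (nat_lit 14) (nat_lit 0x5e0000bc000181c2db03f61) (.hit (nat_lit 1) (nat_lit 61) (nat_lit 0x5e0000bc000180575b016f2) b32572 (.one (nat_lit 3) (nat_lit 2) (nat_lit 62) (nat_lit 0x5e0000bc00017fd48b006bc) b32573 (.tok (nat_lit 6) (nat_lit 0x5e0000bc00017fb532ffc64) (.hit (nat_lit 5) (nat_lit 65) (nat_lit 0x5e0000bc00017fb532fec7b) b32576 (.hit (nat_lit 6) (nat_lit 66) (nat_lit 0x5e0000bc00017fb01affc64) b32577 (.nil))) (.tok (nat_lit 9) (nat_lit 0x5e0000bc000181c2db03f61) (.hit (nat_lit 3) (nat_lit 63) (nat_lit 0x5e0000bc000181c2db03f61) b32574 (.hit (nat_lit 4) (nat_lit 64) (nat_lit 0x5e0000bc000180412b00c1a) b32575 (.nil))) (.nil))))) (.one (nat_lit 17) (nat_lit 7) (nat_lit 67) (nat_lit 0x5e0000bc00017f2812fec54)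 b32578 (.tok (nat_lit 20) (nat_lit 0x5e0000bc000182881304c4d) (.hit (nat_lit 8) (nat_lit 68) (nat_lit 0x5e0000bc000182881304c4d) b32579 (.hit (nat_lit 9) (nat_lit 69) (nat_lit 0x5e0000bc00017f74b2fea9c) b32580 (.nil))) (.tok (nat_lit 23) (nat_lit 0x5e0000bc00017f9682ff7d1) (.hit (nat_lit 10) (nat_lit 70) (nat_lit 0x5e0000bc00017f634afe23e) b32581 (.hit (nat_lit 11) (nat_lit 71) (nat_lit 0x5e0000bc00017f9682ff7d1) b32582 (.nil))) (.one (nat_lit 38) (nat_lit 16) (nat_lit 76) (nat_lit 0x5e0000bc00017f77dafef34) b32583 (.tok (nat_lit 41) (nat_lit 0x5e0000bc00017f30bafe931) (.hit (nat_lit 17) (nat_lit 77) (nat_lit 0x5e0000bc00017f2c5afe931) b32584 (.hit (nat_lit 18) (nat_lit 78) (nat_lit 0x5e0000bc00017f30bafe7e5) b32585 (.nil))) (.tok (nat_lit 44) (nat_lit 0x5e0000bc0001801d52ff6c2) (.hit (nat_lit 19) (nat_lit 79) (nat_lit 0x5e0000bc0001801d52ff6c2) b32586 (.hit (nat_lit 20) (nat_lit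 80) (nat_lit 0x5e0000bc00017f1652fe1ab) b32587 (.nil))) (.tok (nat_lit 47) (nat_lit 0x5e0000bc00017f7dc2ff1c9) (.hit (nat_lit 21) (nat_lit 81) (nat_lit 0x5e0000bc00017ee632fd29b) b32588 (.hit (nat_lit 22) (nat_lit 82) (nat_lit 0x5e0000bc00017f7dc2ff1c9) b32589 (.nil))) (.one (nat_lit 62) (nat_lit 23) (nat_lit 92) (nat_lit 0x5e0000bc00017fce2aff8a3) b32590 (.tok (nat_lit 65) (nat_lit 0x5e0000bc00017f65bafea55) (.hit (nat_lit 24) (nat_lit 93) (nat_lit 0x5e0000bc00017f65bafea55) b32591 (.hit (nat_lit 25) (nat_lit 94) (nat_lit 0x5e0000bc00017f3472fe099) b32592 (.nil))) (.tok (nat_lit 68) (nat_lit 0x5e0000bc0001807b2b00ae8) (.hit (nat_lit 26) (nat_lit 95) (nat_lit 0x5e0000bc0001807b2b00ae8) b32593 (.one (nat_lit 3) (nat_lit 30) (nat_lit 99) (nat_lit 0x5e0000bc00017fa36afea42) b32597 (.one (nat_lit 6) (nat_lit 27) (nat_lit 96) (nat_lit 0x5e0000bc00017f7cd2fe56f) b32594 (.tok (nat_lit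 9) (nat_lit 0x5e0000bc00017f9032fe7db) (.hit (nat_lit 28) (nat_lit 97) (nat_lit 0x5e0000bc00017f9032fe7db) b32595 (.hit (nat_lit 29) (nat_lit 98) (nat_lit 0x5e0000bc00017f3522fdc79) b32596 (.nil))) (.nil))))) (.one (nat_lit 71) (nat_lit 31) (nat_lit 100) (nat_lit 0x5e0000bc00017f1e4afe441) b32598 (.nil)))))))))))))) (.nil)
noncomputable def r15_276 : Rw Blk := .tok (nat_lit 6) (nat_lit 0x5e0000bc00017fa5caffd88) (.hit (nat_lit 0) (nat_lit 0) (nat_lit 0x5e0000bc00017ef122fec97) b32599 (.tok (nat_lit 14) (nat_lit 0x5e0000bc00017f9ba2ff914) (.hit (nat_lit 21) (nat_lit 61) (nat_lit 0x5e0000bc00017f1552ff3f6) b32600 (.one (nat_lit 3) (nat_lit 22) (nat_lit 62) (nat_lit 0x5e0000bc00017f020afec52) b32601 (.tok (nat_lit 6) (nat_lit 0x5e0000bc00017f9602ff6ad) (.hit (nat_lit 25) (nat_lit 65) (nat_lit 0x5e0000bc00017eacbafdf01) b32604 (.hit (nat_lit 26) (nat_lit 66) (nat_lit 0x5e0000bc00017f9602ff6ad)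 b32605 (.nil))) (.tok (nat_lit 9) (nat_lit 0x5e0000bc00017f9ba2ff914) (.hit (nat_lit 23) (nat_lit 63) (nat_lit 0x5e0000bc00017f9ba2ff914) b32602 (.hit (nat_lit 24) (nat_lit 64) (nat_lit 0x5e0000bc00017edebafe9ec) b32603 (.nil))) (.nil))))) (.one (nat_lit 17) (nat_lit 27) (nat_lit 67) (nat_lit 0x5e0000bc00017ed552fe471) b32606 (.tok (nat_lit 20) (nat_lit 0x5e0000bc00017fa5caffd88) (.hit (nat_lit 28) (nat_lit 68) (nat_lit 0x5e0000bc00017fa5caffd88) b32607 (.hit (nat_lit 29) (nat_lit 69) (nat_lit 0x5e0000bc00017ed83afe143) b32608 (.nil))) (.tok (nat_lit 23) (nat_lit 0x5e0000bc00017eee42fe45d) (.hit (nat_lit 30) (nat_lit 70) (nat_lit 0x5e0000bc00017e70c2fd782) b32609 (.hit (nat_lit 31) (nat_lit 71) (nat_lit 0x5e0000bc00017eee42fe45d) b32610 (.nil))) (.one (nat_lit 26) (nat_lit 32) (nat_lit 72) (nat_lit 0x5e0000bc00017ebbd2fdcf1) b32611 (.one (nat_lit 29) (nat_lit 33) (nat_lit 73)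 (nat_lit 0x5e0000bc00017ebf8afdd40) b32612 (.one (nat_lit 32) (nat_lit 34) (nat_lit 74) (nat_lit 0x5e0000bc00017e68bafd353) b32613 (.one (nat_lit 35) (nat_lit 35) (nat_lit 75) (nat_lit 0x5e0000bc00017ec1e2fe29d) b32614 (.one (nat_lit 38) (nat_lit 36) (nat_lit 76) (nat_lit 0x5e0000bc00017ed462fe13e) b32615 (.tok (nat_lit 41) (nat_lit 0x5e0000bc00017ed8dafe179) (.hit (nat_lit 37) (nat_lit 77) (nat_lit 0x5e0000bc00017ecd62fd8c7) b32616 (.hit (nat_lit 38) (nat_lit 78) (nat_lit 0x5e0000bc00017ed8dafe179) b32617 (.nil))) (.tok (nat_lit 44) (nat_lit 0x5e0000bc00017f10d2ff04c) (.hit (nat_lit 39) (nat_lit 79) (nat_lit 0x5e0000bc00017f10d2ff04c) b32618 (.hit (nat_lit 40) (nat_lit 80) (nat_lit 0x5e0000bc00017ec4bafded3) b32619 (.nil))) (.tok (nat_lit 47) (nat_lit 0x5e0000bc00017ed5a2fe574) (.hit (nat_lit 41) (nat_lit 81) (nat_lit 0x5e0000bc00017d5e62fb536) b32620 (.hit (nat_lit 42) (nat_lit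 82) (nat_lit 0x5e0000bc00017ed5a2fe574) b32621 (.nil))) (.one (nat_lit 62) (nat_lit 52) (nat_lit 92) (nat_lit 0x5e0000bc00017eca02fdf7c) b32622 (.tok (nat_lit 65) (nat_lit 0x5e0000bc00017ecdd2fe0ac) (.hit (nat_lit 53) (nat_lit 93) (nat_lit 0x5e0000bc00017e722afd854) b32623 (.hit (nat_lit 54) (nat_lit 94) (nat_lit 0x5e0000bc00017ecdd2fe0ac) b32624 (.nil))) (.tok (nat_lit 68) (nat_lit 0x5e0000bc00017ef802ff71e) (.hit (nat_lit 55) (nat_lit 95) (nat_lit 0x5e0000bc00017ef802ff71e) b32625 (.one (nat_lit 3) (nat_lit 59) (nat_lit 99) (nat_lit 0x5e0000bc00017e621afd5ad) b32629 (.one (nat_lit 6) (nat_lit 56) (nat_lit 96) (nat_lit 0x5e0000bc00017e5712fd44c) b32626 (.tok (nat_lit 9) (nat_lit 0x5e0000bc00017e7b8afd8db) (.hit (nat_lit 57) (nat_lit 97) (nat_lit 0x5e0000bc00017e7b8afd8db) b32627 (.hit (nat_lit 58) (nat_lit 98) (nat_lit 0x5e0000bc00017e68fafd689) b32628 (.nil))) (.nil))))) (.one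 (nat_lit 71) (nat_lit 60) (nat_lit 100) (nat_lit 0x5e0000bc00017ec64afdf05) b32630 (.nil)))))))))))))))))) (.tok (nat_lit 52) (nat_lit 0x5e0000bc00017ff14b00837) (.hit (nat_lit 176) (nat_lit 0) (nat_lit 0x5e0000bc00017fc8ab00837) b32631 (.tok (nat_lit 6) (nat_lit 0x5e0000bc00017ff14b0078f) (.hit (nat_lit 177) (nat_lit 7) (nat_lit 0x5e0000bc00017ff14b0078f) b32632 (.hit (nat_lit 178) (nat_lit 15) (nat_lit 0x5e0000bc00017f6deaffb90) b32633 (.nil))) (.tok (nat_lit 9) (nat_lit 0x5e0000bc00017f971b001a5) (.hit (nat_lit 179) (nat_lit 20) (nat_lit 0x5e0000bc00017e81baff123) b32634 (.hit (nat_lit 180) (nat_lit 28) (nat_lit 0x5e0000bc00017f971b001a5) b32635 (.nil))) (.nil)))) (.tok (nat_lit 55) (nat_lit 0x5e0000bc000180000300c0c) (.hit (nat_lit 187) (nat_lit 0) (nat_lit 0x5e0000bc000180000300c0c) b32636 (.tok (nat_lit 3) (nat_lit 0x5e0000bc00017eb472ff77a) (.hit (nat_lit 188) (nat_lit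 1) (nat_lit 0x5e0000bc00017e4a4afea35) b32637 (.one (nat_lit 67) (nat_lit 189) (nat_lit 2) (nat_lit 0x5e0000bc00017eb472ff77a) b32638 (.nil))) (.tok (nat_lit 6) (nat_lit 0x5e0000bc00017e4ae2fea48) (.hit (nat_lit 190) (nat_lit 7) (nat_lit 0x5e0000bc00017e3142fe714) b32639 (.hit (nat_lit 193) (nat_lit 15) (nat_lit 0x5e0000bc00017e4ae2fea48) b32640 (.nil))) (.nil)))) (.tok (nat_lit 58) (nat_lit 0x5e0000bc00017fdc3b01c73) (.hit (nat_lit 201) (nat_lit 0) (nat_lit 0x5e0000bc00017f7c42ffeae) b32641 (.tok (nat_lit 3) (nat_lit 0x5e0000bc00017f17e3003e8) (.hit (nat_lit 202) (nat_lit 1) (nat_lit 0x5e0000bc00017e53aafeb61) b32642 (.one (nat_lit 55) (nat_lit 203) (nat_lit 3) (nat_lit 0x5e0000bc00017f17e3003e8) b32643 (.nil))) (.tok (nat_lit 9) (nat_lit 0x5e0000bc00017fdc3b01c73) (.hit (nat_lit 204) (nat_lit 20) (nat_lit 0x5e0000bc00017e8e92ff2be) b32644 (.hit (nat_lit 207) (nat_lit 28) (nat_lit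 0x5e0000bc00017e444afe975) b32647 (.tok (nat_lit 67) (nat_lit 0x5e0000bc00017fdc3b01c73) (.hit (nat_lit 205) (nat_lit 21) (nat_lit 0x5e0000bc00017ef3bafff63) b32645 (.hit (nat_lit 208) (nat_lit 29) (nat_lit 0x5e0000bc00017f124300334) b32648 (.one (nat_lit 9) (nat_lit 206) (nat_lit 22) (nat_lit 0x5e0000bc00017fdc3b01c73) b32646 (.nil)))) (.nil)))) (.nil)))) (.nil))))
noncomputable def r15_277 : Rw Blk := .tok (nat_lit 3) (nat_lit 0x5e0000bc000180abbb01906) (.hit (nat_lit 15) (nat_lit 0) (nat_lit 0x5e0000bc00017f67bafee29) b32656 (.tok (nat_lit 9) (nat_lit 0x5e0000bc00017f35b2fe8bd) (.hit (nat_lit 16) (nat_lit 20) (nat_lit 0x5e0000bc00017e870afd2e8) b32657 (.hit (nat_lit 21) (nat_lit 28) (nat_lit 0x5e0000bc00017d8142fb22f) b32662 (.tok (nat_lit 14) (nat_lit 0x5e0000bc00017f02e2fe263) (.hit (nat_lit 17) (nat_lit 24) (nat_lit 0x5e0000bc00017ec4e2fdaa3) b32658 (.hit (nat_lit 22) (nat_lit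 30) (nat_lit 0x5e0000bc00017ebdbafd9be) b32663 (.one (nat_lit 6) (nat_lit 18) (nat_lit 25) (nat_lit 0x5e0000bc00017f02e2fe263) b32659 (.nil)))) (.tok (nat_lit 68) (nat_lit 0x5e0000bc00017f35b2fe8bd) (.hit (nat_lit 19) (nat_lit 26) (nat_lit 0x5e0000bc00017ee442fde8f) b32660 (.hit (nat_lit 24) (nat_lit 32) (nat_lit 0x5e0000bc00017ea50afd6a8) b32664 (.one (nat_lit 9) (nat_lit 20) (nat_lit 27) (nat_lit 0x5e0000bc00017f35b2fe8bd) b32661 (.nil)))) (.nil))))) (.tok (nat_lit 64) (nat_lit 0x5e0000bc00017f1812fe509) (.hit (nat_lit 25) (nat_lit 50) (nat_lit 0x5e0000bc00017f1812fe509) b32665 (.hit (nat_lit 26) (nat_lit 51) (nat_lit 0x5e0000bc00017ef4dafe0a2) b32666 (.nil))) (.tok (nat_lit 67) (nat_lit 0x5e0000bc000180abbb01906) (.hit (nat_lit 27) (nat_lit 52) (nat_lit 0x5e0000bc000180abbb01906) b32667 (.tok (nat_lit 3) (nat_lit 0x5e0000bc00017f7442ff08f) (.hit (nat_lit 33) (nat_lit 58) (nat_lit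 0x5e0000bc00017f513afec2e) b32673 (.one (nat_lit 55) (nat_lit 34) (nat_lit 59) (nat_lit 0x5e0000bc00017f7442ff08f) b32674 (.nil))) (.tok (nat_lit 9) (nat_lit 0x5e0000bc00017f8512ff2a9) (.hit (nat_lit 28) (nat_lit 53) (nat_lit 0x5e0000bc00017f03bafe27e) b32668 (.hit (nat_lit 31) (nat_lit 56) (nat_lit 0x5e0000bc00017eef2afdfec) b32671 (.tok (nat_lit 67) (nat_lit 0x5e0000bc00017f8512ff2a9) (.hit (nat_lit 29) (nat_lit 54) (nat_lit 0x5e0000bc00017f8512ff2a9) b32669 (.hit (nat_lit 32) (nat_lit 57) (nat_lit 0x5e0000bc00017f4f5afebf2) b32672 (.one (nat_lit 9) (nat_lit 30) (nat_lit 55) (nat_lit 0x5e0000bc00017f1042fe40f) b32670 (.nil)))) (.nil)))) (.nil)))) (.one (nat_lit 70) (nat_lit 35) (nat_lit 60) (nat_lit 0x5e0000bc00017f73c2ff07f) b32675 (.nil)))))) (.tok (nat_lit 6) (nat_lit 0x5e0000bc000180b4cb018b7) (.hit (nat_lit 0) (nat_lit 0) (nat_lit 0x5e0000bc00018049ab00121) b32649 (.tok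 (nat_lit 6) (nat_lit 0x5e0000bc000180b4cb018b7) (.hit (nat_lit 1) (nat_lit 7) (nat_lit 0x5e0000bc00017f71a2ff4bd) b32650 (.hit (nat_lit 4) (nat_lit 15) (nat_lit 0x5e0000bc00017ec98afe1c3) b32653 (.tok (nat_lit 14) (nat_lit 0x5e0000bc000180b4cb018b7) (.hit (nat_lit 2) (nat_lit 11) (nat_lit 0x5e0000bc000180b4cb018b7) b32651 (.hit (nat_lit 5) (nat_lit 17) (nat_lit 0x5e0000bc00017f79faff223) b32654 (.one (nat_lit 9) (nat_lit 3) (nat_lit 12) (nat_lit 0x5e0000bc0001804e13011ea) b32652 (.nil)))) (.one (nat_lit 68) (nat_lit 6) (nat_lit 18) (nat_lit 0x5e0000bc00017f573afee13) b32655 (.nil))))) (.nil))) (.nil))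
noncomputable def r15_278 : Rw Blk := .tok (nat_lit 3) (nat_lit 0xbf6f257e3482fdfc05fbd9abf43a17ea19afe4895fc060bf8fcd7ee732fe487) (.hit (nat_lit 0) (nat_lit 0) (nat_lit 0xbf6f257e3482fdfc05fbd9abf43a17ea19afe4895fc060bf8fcd7ee732fe487) b32676 (.tok (nat_lit 6) (nat_lit 0xbf3a757d7a6afdd295fa33cbeb6997e3e9afbbc95f82f2bef8c97e4962fd0d7) (.hit (nat_lit 1) (nat_lit 7) (nat_lit 0xbf3a757d7a6afdd295fa33cbeb6997e3e9afbbc95f82f2bef8c97e0462fd0d7) b32677 (.hit (nat_lit 6) (nat_lit 15) (nat_lit 0xbf30b97d66f2fd5255f9e5ebeacdd7e2b22fb95a5f7e14beef0d7e4962fcfd6) b32678 (.nil))) (.tok (nat_lit 9) (nat_lit 0xbf3a757d7a6afdd295fa33cbeb6997e3e9afbbc95f82f2bef8c97e8642fd0d7) (.hit (nat_lit 10) (nat_lit 20) (nat_lit 0xbf3a757d7a6afdd295fa33cbeb6997e3e9afbbc95f82f2bef8c97e8642fd0d7) b32679 (.hit (nat_lit 15) (nat_lit 28) (nat_lit 0xbf30b97d66f2fd5255f9e5ebeacdd7e2b22fb95a5f7e14beef0d7e534afcfd6)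 b32680 (.nil))) (.nil)))) (.tok (nat_lit 6) (nat_lit 0xbfc8697eef52ff1455ff846bf583d7f7e9aff99a5fec1cbfe4157f159aff98d) (.hit (nat_lit 81) (nat_lit 0) (nat_lit 0xbfc8317eef52feb305ff1f0bf583d7f7492ff99a5fec1cbfe4157ef86aff98d) b32681 (.tok (nat_lit 3) (nat_lit 0xbfc8697ea3a2ff1455ff846bef9297f7e9aff3f75fe870bfd4d57f159aff644) (.hit (nat_lit 82) (nat_lit 1) (nat_lit 0xbf5c257dd03afdbb25fbe46be96717ea5eafe5175fbb24bf92097e579afec46) b32682 (.one (nat_lit 67) (nat_lit 83) (nat_lit 2) (nat_lit 0xbfc8697ea3a2ff1455ff846bef9297f7e9aff3f75fe870bfd4d57f159aff644) b32683 (.nil))) (.tok (nat_lit 6) (nat_lit 0xbfabf97ec222fe8e95fd9f8bee3617f14d2ff55f5fe390bfd3257e5e3aff119) (.hit (nat_lit 87) (nat_lit 7) (nat_lit 0xbfabf97ec222fe8e95fd9f8bee3617f14d2ff55f5fe390bfd3257e5e3aff119) b32684 (.hit (nat_lit 95) (nat_lit 15) (nat_lit 0xbf64fd7dcd0afd3dd5fc188be74917eb2f2fe6b05fc632bf98697e2872fe810)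 b32685 (.nil))) (.nil)))) (.tok (nat_lit 9) (nat_lit 0xc0000180000300000600000c048f180000300000600000c0000180243300000) (.hit (nat_lit 157) (nat_lit 0) (nat_lit 0xbfc8317eef52feb305fde88bf79b17f717afec775fe5b6bfc4057f3aeafecd9) b32686 (.tok (nat_lit 3) (nat_lit 0xbfc8697ea3a2ff1455fe0d6bfc0717f5fb2ff5475fe376bfd2c57ff482ff640) (.hit (nat_lit 158) (nat_lit 1) (nat_lit 0xbf5c257dd03afdbb25fa9e2bf354d7e83e2fd9cd5fac6ebf64dd7efbbafe105) b32687 (.one (nat_lit 55) (nat_lit 159) (nat_lit 3) (nat_lit 0xbfc8697ea3a2ff1455fe0d6bfc0717f5fb2ff5475fe376bfd2c57ff482ff640) b32688 (.nil))) (.tok (nat_lit 9) (nat_lit 0xc0000180000300000600000c048f180000300000600000c0000180243300000) (.hit (nat_lit 163) (nat_lit 20) (nat_lit 0xbfabf97ec222fe8e95fc55cbf7d457f2d62fe1025fd7bcbfaea57f5b5afe5f0) b32689 (.hit (nat_lit 171) (nat_lit 28) (nat_lit 0xbf64fd7dcd0afd3dd5fad24bf3d657e90eafdb655faf7abf6b517ee9f2fdcce)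 b32693 (.tok (nat_lit 67) (nat_lit 0xc0000180000300000600000c048f180000300000600000c0000180243300000) (.hit (nat_lit 164) (nat_lit 21) (nat_lit 0xbffb117f3fa2ff0ef5ffb90bfdecd800002ff5f25ffb38bfe449800342ffd67) b32690 (.hit (nat_lit 172) (nat_lit 29) (nat_lit 0xbfc75d7eb112fef375fe48ebfa7d57f6e92ff7235fe71abfda357ff952ff9b2) b32694 (.tok (nat_lit 9) (nat_lit 0xc0000180000300000600000c048f17fdb6b00000600000c0000180243300000) (.hit (nat_lit 165) (nat_lit 22) (nat_lit 0xbfd0257f7e3aff2525fe562bfe6fd7f6c4aff6b85fe978bfd8997fd882ff746) b32691 (.one (nat_lit 67) (nat_lit 166) (nat_lit 23) (nat_lit 0xc0000180000300000600000c048f17fdb6b00000600000c0000180243300000) b32692 (.nil))) (.nil)))) (.nil)))) (.nil)))) (.nil)))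
noncomputable def r15_279 : Rw Blk := .tok (nat_lit 6) (nat_lit 0x5e0000bc0001800002fff98) (.hit (nat_lit 51) (nat_lit 0) (nat_lit 0x5e0000bc00017fba1aff44a) b32700 (.tok (nat_lit 3) (nat_lit 0x5e0000bc00017ff662ff1da) (.hit (nat_lit 52) (nat_lit 1) (nat_lit 0x5e0000bc00017ee65afd004) b32701 (.one (nat_lit 14) (nat_lit 53) (nat_lit 4) (nat_lit 0x5e0000bc00017ff662ff1da) b32702 (.one (nat_lit 56) (nat_lit 55) (nat_lit 6) (nat_lit 0x5e0000bc00017fb902fea63) b32704 (.one (nat_lit 68) (nat_lit 54) (nat_lit 5) (nat_lit 0x5e0000bc00017f79f2fe942) b32703 (.nil))))) (.tok (nat_lit 40) (nat_lit 0x5e0000bc00017faef2feb31) (.hit (nat_lit 56) (nat_lit 33) (nat_lit 0x5e0000bc00017faef2feb31) b32705 (.hit (nat_lit 57) (nat_lit 34) (nat_lit 0x5e0000bc00017f9ec2fe7f0) b32706 (.nil))) (.tok (nat_lit 43) (nat_lit 0x5e0000bc0001800002fff98) (.hit (nat_lit 58) (nat_lit 35) (nat_lit 0x5e0000bc0001800002fff98)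 b32707 (.hit (nat_lit 59) (nat_lit 36) (nat_lit 0x5e0000bc00017fb572ff2a4) b32708 (.nil))) (.tok (nat_lit 46) (nat_lit 0x5e0000bc00017fdec2ff98b) (.hit (nat_lit 60) (nat_lit 37) (nat_lit 0x5e0000bc00017f2b7afe279) b32709 (.hit (nat_lit 61) (nat_lit 38) (nat_lit 0x5e0000bc00017fdec2ff98b) b32710 (.nil))) (.nil)))))) (.tok (nat_lit 9) (nat_lit 0x5e0000bc00017ff66300000) (.hit (nat_lit 0) (nat_lit 0) (nat_lit 0x5e0000bc00017fba1affab1) b32695 (.tok (nat_lit 3) (nat_lit 0x5e0000bc00017ff66300000) (.hit (nat_lit 1) (nat_lit 1) (nat_lit 0x5e0000bc00017ee65afddff) b32696 (.one (nat_lit 14) (nat_lit 2) (nat_lit 4) (nat_lit 0x5e0000bc00017ff66300000) b32697 (.one (nat_lit 56) (nat_lit 4) (nat_lit 6) (nat_lit 0x5e0000bc00017f79f2ff45d) b32699 (.one (nat_lit 68) (nat_lit 3) (nat_lit 5) (nat_lit 0x5e0000bc00017fb902ff84c) b32698 (.nil))))) (.nil))) (.nil))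
noncomputable def r15_280 : Rw Blk := .tok (nat_lit 3) (nat_lit 0x5e0000bc00017ef092fdea7) (.hit (nat_lit 61) (nat_lit 0) (nat_lit 0x5e0000bc00017e925afce51) b32721 (.tok (nat_lit 9) (nat_lit 0x5e0000bc00017eac0afd5d2) (.hit (nat_lit 62) (nat_lit 20) (nat_lit 0x5e0000bc00017ddfcafbc4a) b32722 (.hit (nat_lit 67) (nat_lit 28) (nat_lit 0x5e0000bc00017d6ebafae28) b32727 (.tok (nat_lit 14) (nat_lit 0x5e0000bc00017e6ffafce50) (.hit (nat_lit 63) (nat_lit 24) (nat_lit 0x5e0000bc00017df062fbe5d) b32723 (.hit (nat_lit 68) (nat_lit 30) (nat_lit 0x5e0000bc00017e0f72fc23f) b32728 (.one (nat_lit 6) (nat_lit 64) (nat_lit 25) (nat_lit 0x5e0000bc00017e6ffafce50) b32724 (.nil)))) (.tok (nat_lit 68) (nat_lit 0x5e0000bc00017eac0afd5d2) (.hit (nat_lit 65) (nat_lit 26) (nat_lit 0x5e0000bc00017e6b9afcdc4) b32725 (.hit (nat_lit 70) (nat_lit 32) (nat_lit 0x5e0000bc00017df6aafbf26) b32729 (.one (nat_lit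 9) (nat_lit 66) (nat_lit 27) (nat_lit 0x5e0000bc00017eac0afd5d2) b32726 (.nil)))) (.nil))))) (.tok (nat_lit 64) (nat_lit 0x5e0000bc00017e387afc760) (.hit (nat_lit 71) (nat_lit 50) (nat_lit 0x5e0000bc00017dfc62fbfdd) b32730 (.hit (nat_lit 72) (nat_lit 51) (nat_lit 0x5e0000bc00017e387afc760) b32731 (.nil))) (.tok (nat_lit 67) (nat_lit 0x5e0000bc00017ef092fdea7) (.hit (nat_lit 73) (nat_lit 52) (nat_lit 0x5e0000bc00017eecb2fdea7) b32732 (.tok (nat_lit 3) (nat_lit 0x5e0000bc00017ef092fde63) (.hit (nat_lit 79) (nat_lit 58) (nat_lit 0x5e0000bc00017e9daafd406) b32738 (.one (nat_lit 55) (nat_lit 80) (nat_lit 59) (nat_lit 0x5e0000bc00017ef092fde63) b32739 (.nil))) (.tok (nat_lit 9) (nat_lit 0x5e0000bc00017ec64afd91a) (.hit (nat_lit 74) (nat_lit 53) (nat_lit 0x5e0000bc00017e479afc944) b32733 (.hit (nat_lit 77) (nat_lit 56) (nat_lit 0x5e0000bc00017e6002fcc51) b32736 (.tok (nat_lit 67) (nat_lit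 0x5e0000bc00017ec64afd91a) (.hit (nat_lit 75) (nat_lit 54) (nat_lit 0x5e0000bc00017ec04afd85a) b32734 (.hit (nat_lit 78) (nat_lit 57) (nat_lit 0x5e0000bc00017ec64afd91a) b32737 (.one (nat_lit 9) (nat_lit 76) (nat_lit 55) (nat_lit 0x5e0000bc00017e9e6afd41e) b32735 (.nil)))) (.nil)))) (.nil)))) (.one (nat_lit 70) (nat_lit 81) (nat_lit 60) (nat_lit 0x5e0000bc00017e3df2fc80f) b32740 (.nil)))))) (.tok (nat_lit 6) (nat_lit 0x5e0000bc0001800003007c0) (.hit (nat_lit 0) (nat_lit 0) (nat_lit 0x5e0000bc00017f5a12fe9c2) b32711 (.tok (nat_lit 6) (nat_lit 0x5e0000bc0001800003007c0) (.hit (nat_lit 1) (nat_lit 7) (nat_lit 0x5e0000bc00017ec652fdfbc) b32712 (.hit (nat_lit 6) (nat_lit 15) (nat_lit 0x5e0000bc00017e326afceea) b32717 (.tok (nat_lit 14) (nat_lit 0x5e0000bc00017fc2d300042) (.hit (nat_lit 2) (nat_lit 11) (nat_lit 0x5e0000bc00017fc2d300042) b32713 (.hit (nat_lit 7) (nat_lit 17) (nat_lit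 0x5e0000bc00017f34fafebbf) b32718 (.one (nat_lit 9) (nat_lit 3) (nat_lit 12) (nat_lit 0x5e0000bc00017fb87affc4b) b32714 (.nil)))) (.tok (nat_lit 56) (nat_lit 0x5e0000bc0001800003007c0) (.hit (nat_lit 4) (nat_lit 13) (nat_lit 0x5e0000bc00017f7ee2feee2) b32715 (.hit (nat_lit 9) (nat_lit 19) (nat_lit 0x5e0000bc00017eb322fdd97) b32720 (.one (nat_lit 6) (nat_lit 5) (nat_lit 14) (nat_lit 0x5e0000bc0001800003007c0) b32716 (.nil)))) (.one (nat_lit 68) (nat_lit 8) (nat_lit 18) (nat_lit 0x5e0000bc00017edb02fe1cd) b32719 (.nil)))))) (.nil))) (.nil))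
noncomputable def r15_281 : Rw Blk := .tok (nat_lit 3) (nat_lit 0x5e0000bc0001800002febff) (.hit (nat_lit 61) (nat_lit 0) (nat_lit 0x5e0000bc00017f22c2fd67e) b32751 (.tok (nat_lit 9) (nat_lit 0x5e0000bc00017f4c32fd7eb) (.hit (nat_lit 62) (nat_lit 20) (nat_lit 0x5e0000bc00017e4b4afb7ce) b32752 (.hit (nat_lit 67) (nat_lit 28) (nat_lit 0x5e0000bc00017e66c2fbb3d) b32757 (.tok (nat_lit 14) (nat_lit 0x5e0000bc00017f4c32fd7eb) (.hit (nat_lit 63) (nat_lit 24) (nat_lit 0x5e0000bc00017ef7bafcd5c) b32753 (.hit (nat_lit 68) (nat_lit 30) (nat_lit 0x5e0000bc00017edf42fca4d) b32758 (.one (nat_lit 6) (nat_lit 64) (nat_lit 25) (nat_lit 0x5e0000bc00017f4c32fd7eb) b32754 (.nil)))) (.tok (nat_lit 68) (nat_lit 0x5e0000bc00017f25e2fd321) (.hit (nat_lit 65) (nat_lit 26) (nat_lit 0x5e0000bc00017f09dafcfa0) b32755 (.hit (nat_lit 70) (nat_lit 32) (nat_lit 0x5e0000bc00017ee84afcb6e) b32759 (.one (nat_lit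 9) (nat_lit 66) (nat_lit 27) (nat_lit 0x5e0000bc00017f25e2fd321) b32756 (.nil)))) (.nil))))) (.tok (nat_lit 64) (nat_lit 0x5e0000bc00017f393afd58c) (.hit (nat_lit 71) (nat_lit 50) (nat_lit 0x5e0000bc00017eff8afce56) b32760 (.hit (nat_lit 72) (nat_lit 51) (nat_lit 0x5e0000bc00017f393afd58c) b32761 (.nil))) (.tok (nat_lit 67) (nat_lit 0x5e0000bc0001800002febff) (.hit (nat_lit 73) (nat_lit 52) (nat_lit 0x5e0000bc00017fb61afe938) b32762 (.tok (nat_lit 3) (nat_lit 0x5e0000bc00017fb852fe56f) (.hit (nat_lit 79) (nat_lit 58) (nat_lit 0x5e0000bc00017f7ac2fddbd) b32768 (.one (nat_lit 55) (nat_lit 80) (nat_lit 59) (nat_lit 0x5e0000bc00017fb852fe56f) b32769 (.nil))) (.tok (nat_lit 9) (nat_lit 0x5e0000bc0001800002febff) (.hit (nat_lit 74) (nat_lit 53) (nat_lit 0x5e0000bc00017fc592fe942) b32763 (.hit (nat_lit 77) (nat_lit 56) (nat_lit 0x5e0000bc00017f309afd478) b32766 (.tok (nat_lit 67) (nat_lit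 0x5e0000bc0001800002febff) (.hit (nat_lit 75) (nat_lit 54) (nat_lit 0x5e0000bc0001800002febff) b32764 (.hit (nat_lit 78) (nat_lit 57) (nat_lit 0x5e0000bc00017fbac2fe5bd) b32767 (.one (nat_lit 9) (nat_lit 76) (nat_lit 55) (nat_lit 0x5e0000bc00017fc342fe6cd) b32765 (.nil)))) (.nil)))) (.nil)))) (.one (nat_lit 70) (nat_lit 81) (nat_lit 60) (nat_lit 0x5e0000bc00017f35bafd51c) b32770 (.nil)))))) (.tok (nat_lit 6) (nat_lit 0x5e0000bc00017ffbe300000) (.hit (nat_lit 0) (nat_lit 0) (nat_lit 0x5e0000bc00017f907afe106) b32741 (.tok (nat_lit 6) (nat_lit 0x5e0000bc00017ffbe300000) (.hit (nat_lit 1) (nat_lit 7) (nat_lit 0x5e0000bc00017f31cafd8cf) b32742 (.hit (nat_lit 6) (nat_lit 15) (nat_lit 0x5e0000bc00017ec702fcbea) b32747 (.tok (nat_lit 14) (nat_lit 0x5e0000bc00017ffbe300000) (.hit (nat_lit 2) (nat_lit 11) (nat_lit 0x5e0000bc00017fb792ff8c6) b32743 (.hit (nat_lit 7) (nat_lit 17) (nat_lit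 0x5e0000bc00017ffbe2fedd4) b32748 (.one (nat_lit 9) (nat_lit 3) (nat_lit 12) (nat_lit 0x5e0000bc00017fb1d300000) b32744 (.nil)))) (.tok (nat_lit 56) (nat_lit 0x5e0000bc00017fb36afeb49) (.hit (nat_lit 4) (nat_lit 13) (nat_lit 0x5e0000bc00017facc2fe7ae) b32745 (.hit (nat_lit 9) (nat_lit 19) (nat_lit 0x5e0000bc00017fab72fe435) b32750 (.one (nat_lit 6) (nat_lit 5) (nat_lit 14) (nat_lit 0x5e0000bc00017fb36afeb49) b32746 (.nil)))) (.one (nat_lit 68) (nat_lit 8) (nat_lit 18) (nat_lit 0x5e0000bc00017fae52fe506) b32749 (.nil)))))) (.nil))) (.nil))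
noncomputable def r15_282 : Rw Blk := .tok (nat_lit 3) (nat_lit 0x2f00005e0000bf773d7f5b7afe93e) (.hit (nat_lit 61) (nat_lit 0) (nat_lit 0x2f00005e0000bf48217e723afcc75) b32792 (.tok (nat_lit 6) (nat_lit 0x2f00005e0000bf36f17e8292fcbe0) (.hit (nat_lit 62) (nat_lit 7) (nat_lit 0x2f00005e0000beeed97df262fb9da) b32793 (.hit (nat_lit 67) (nat_lit 15) (nat_lit 0x2f00005e0000beb6517d8152fabb8) b32796 (.tok (nat_lit 14) (nat_lit 0x2f00005e0000bf36f17e8292fcbe0) (.hit (nat_lit 63) (nat_lit 11) (nat_lit 0x2f00005e0000bef7257e02fafbbed) b32794 (.hit (nat_lit 68) (nat_lit 17) (nat_lit 0x2f00005e0000bf06ad7e220afbfcf) b32797 (.one (nat_lit 9) (nat_lit 64) (nat_lit 12) (nat_lit 0x2f00005e0000bf36f17e8292fcbe0) b32795 (.nil)))) (.one (nat_lit 68) (nat_lit 69) (nat_lit 18) (nat_lit 0x2f00005e0000bf00497e1542fbe36) b32798 (.nil))))) (.tok (nat_lit 52) (nat_lit 0x2f00005e0000bf1b317e4b12fc4f0)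 (.hit (nat_lit 71) (nat_lit 39) (nat_lit 0x2f00005e0000befd257e0efafbd6d) b32799 (.hit (nat_lit 72) (nat_lit 40) (nat_lit 0x2f00005e0000bf1b317e4b12fc4f0) b32800 (.nil))) (.tok (nat_lit 55) (nat_lit 0x2f00005e0000bf773d7f5b7afe93e) (.hit (nat_lit 73) (nat_lit 41) (nat_lit 0x2f00005e0000bf754d7f5b7afe93e) b32801 (.tok (nat_lit 3) (nat_lit 0x2f00005e0000bf773d7f032afdbf3) (.hit (nat_lit 79) (nat_lit 47) (nat_lit 0x2f00005e0000bf4dc97eb042fd196) b32804 (.one (nat_lit 67) (nat_lit 80) (nat_lit 48) (nat_lit 0x2f00005e0000bf773d7f032afdbf3) b32805 (.nil))) (.tok (nat_lit 6) (nat_lit 0x2f00005e0000bf2ef57e729afc9e1) (.hit (nat_lit 74) (nat_lit 42) (nat_lit 0x2f00005e0000bf22c17e5a32fc6d4) b32802 (.hit (nat_lit 77) (nat_lit 45) (nat_lit 0x2f00005e0000bf2ef57e729afc9e1) b32803 (.nil))) (.nil)))) (.one (nat_lit 58) (nat_lit 81) (nat_lit 49) (nat_lit 0x2f00005e0000bf1ded7e508afc59f) b32806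 (.nil)))))) (.tok (nat_lit 9) (nat_lit 0x2f00005e0000c00001800cab004ff) (.hit (nat_lit 0) (nat_lit 0) (nat_lit 0x2f00005e0000bfabfd7f7c82fdb71) b32771 (.tok (nat_lit 9) (nat_lit 0x2f00005e0000bffef57fdb3b004ff) (.hit (nat_lit 1) (nat_lit 20) (nat_lit 0x2f00005e0000bf621d7e5ec2fd0b0) b32772 (.hit (nat_lit 6) (nat_lit 28) (nat_lit 0x2f00005e0000bf18297de002fb56b) b32777 (.tok (nat_lit 14) (nat_lit 0x2f00005e0000bfe05d7f4f2afef3a) (.hit (nat_lit 2) (nat_lit 24) (nat_lit 0x2f00005e0000bfe05d7f22dafef3a) b32773 (.hit (nat_lit 7) (nat_lit 30) (nat_lit 0x2f00005e0000bf99717ec922fd3b1) b32778 (.one (nat_lit 6) (nat_lit 3) (nat_lit 25) (nat_lit 0x2f00005e0000bfdb317f4f2afed7e) b32774 (.nil)))) (.one (nat_lit 56) (nat_lit 8) (nat_lit 31) (nat_lit 0x2f00005e0000bf6c757ed1e2fd757) b32779 (.tok (nat_lit 68) (nat_lit 0x2f00005e0000bffef57fdb3b004ff) (.hit (nat_lit 4) (nat_lit 26) (nat_lit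 0x2f00005e0000bfbe657f1a42ff0ba) b32775 (.hit (nat_lit 9) (nat_lit 32) (nat_lit 0x2f00005e0000bf58857eaffafd08b) b32780 (.one (nat_lit 9) (nat_lit 5) (nat_lit 27) (nat_lit 0x2f00005e0000bffef57fdb3b004ff) b32776 (.nil)))) (.nil)))))) (.tok (nat_lit 64) (nat_lit 0x2f00005e0000bfaaa97f1a2afdee2) (.hit (nat_lit 10) (nat_lit 50) (nat_lit 0x2f00005e0000bf75dd7efd82fd33f) b32781 (.hit (nat_lit 11) (nat_lit 51) (nat_lit 0x2f00005e0000bfaaa97f1a2afdee2) b32782 (.nil))) (.tok (nat_lit 67) (nat_lit 0x2f00005e0000c00001800caaff819) (.hit (nat_lit 12) (nat_lit 52) (nat_lit 0x2f00005e0000bfe2157fcd22fefba) b32783 (.tok (nat_lit 3) (nat_lit 0x2f00005e0000c000017fc3caff819) (.hit (nat_lit 18) (nat_lit 58) (nat_lit 0x2f00005e0000bfb2357f495afe57f) b32789 (.one (nat_lit 55) (nat_lit 19) (nat_lit 59) (nat_lit 0x2f00005e0000c000017fc3caff819) b32790 (.nil))) (.tok (nat_lit 9) (nat_lit 0x2f00005e0000bff205800caaff797)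 (.hit (nat_lit 13) (nat_lit 53) (nat_lit 0x2f00005e0000bf83c97f2aeafda38) b32784 (.hit (nat_lit 16) (nat_lit 56) (nat_lit 0x2f00005e0000bfb3a17f1402fe5bf) b32787 (.tok (nat_lit 67) (nat_lit 0x2f00005e0000bff205800caaff797) (.hit (nat_lit 14) (nat_lit 54) (nat_lit 0x2f00005e0000bfdaf57fe13afefe4) b32785 (.hit (nat_lit 17) (nat_lit 57) (nat_lit 0x2f00005e0000bff2057f97eaff797) b32788 (.one (nat_lit 9) (nat_lit 15) (nat_lit 55) (nat_lit 0x2f00005e0000bfdda9800caaff4da) b32786 (.nil)))) (.nil)))) (.nil)))) (.one (nat_lit 70) (nat_lit 20) (nat_lit 60) (nat_lit 0x2f00005e0000bfb3597f0c22fe236) b32791 (.nil)))))) (.nil))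
noncomputable def r15_283 : Rw Blk := .tok (nat_lit 3) (nat_lit 0x5e0000bc00017e7caaff06f) (.hit (nat_lit 61) (nat_lit 0) (nat_lit 0x5e0000bc00017dd9dafd524) b32828 (.tok (nat_lit 6) (nat_lit 0x5e0000bc00017e034afd952) (.hit (nat_lit 62) (nat_lit 7) (nat_lit 0x5e0000bc00017d0262fb935) b32829 (.hit (nat_lit 67) (nat_lit 15) (nat_lit 0x5e0000bc00017d1ddafbca4) b32832 (.tok (nat_lit 14) (nat_lit 0x5e0000bc00017e034afd952) (.hit (nat_lit 63) (nat_lit 11) (nat_lit 0x5e0000bc00017daed2fcec3) b32830 (.hit (nat_lit 68) (nat_lit 17) (nat_lit 0x5e0000bc00017d965afcbb4) b32833 (.one (nat_lit 9) (nat_lit 64) (nat_lit 12) (nat_lit 0x5e0000bc00017e034afd952) b32831 (.nil)))) (.one (nat_lit 68) (nat_lit 69) (nat_lit 18) (nat_lit 0x5e0000bc00017dcf8afd2da) b32834 (.nil))))) (.tok (nat_lit 52) (nat_lit 0x5e0000bc00017df052fd6f3) (.hit (nat_lit 71) (nat_lit 39) (nat_lit 0x5e0000bc00017db6a2fcfbd)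 b32835 (.hit (nat_lit 72) (nat_lit 40) (nat_lit 0x5e0000bc00017df052fd6f3) b32836 (.nil))) (.tok (nat_lit 55) (nat_lit 0x5e0000bc00017e7caaff06f) (.hit (nat_lit 73) (nat_lit 41) (nat_lit 0x5e0000bc00017e6d32ff06f) b32837 (.tok (nat_lit 3) (nat_lit 0x5e0000bc00017e6f6afe6d6) (.hit (nat_lit 79) (nat_lit 47) (nat_lit 0x5e0000bc00017e31dafdf24) b32840 (.one (nat_lit 67) (nat_lit 80) (nat_lit 48) (nat_lit 0x5e0000bc00017e6f6afe6d6) b32841 (.nil))) (.tok (nat_lit 6) (nat_lit 0x5e0000bc00017e7caafedb1) (.hit (nat_lit 74) (nat_lit 42) (nat_lit 0x5e0000bc00017e7caafedb1) b32838 (.hit (nat_lit 77) (nat_lit 45) (nat_lit 0x5e0000bc00017de7b2fd5df) b32839 (.nil))) (.nil)))) (.one (nat_lit 58) (nat_lit 81) (nat_lit 49) (nat_lit 0x5e0000bc00017decd2fd683) b32842 (.nil)))))) (.tok (nat_lit 9) (nat_lit 0x5e0000bc0001800ad3014ec) (.hit (nat_lit 0) (nat_lit 0) (nat_lit 0x5e0000bc00017e4792fd620)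 b32807 (.tok (nat_lit 9) (nat_lit 0x5e0000bc00017eb2fafde58) (.hit (nat_lit 1) (nat_lit 20) (nat_lit 0x5e0000bc00017de8e2fc566) b32808 (.hit (nat_lit 6) (nat_lit 28) (nat_lit 0x5e0000bc00017d7e1afbca4) b32813 (.tok (nat_lit 14) (nat_lit 0x5e0000bc00017eb2fafde58) (.hit (nat_lit 2) (nat_lit 24) (nat_lit 0x5e0000bc00017e6eaafdabe) b32809 (.hit (nat_lit 7) (nat_lit 30) (nat_lit 0x5e0000bc00017eb2fafd35f) b32814 (.one (nat_lit 6) (nat_lit 3) (nat_lit 25) (nat_lit 0x5e0000bc00017e68eafde58) b32810 (.nil)))) (.one (nat_lit 56) (nat_lit 8) (nat_lit 31) (nat_lit 0x5e0000bc00017e656afd38b) b32815 (.tok (nat_lit 68) (nat_lit 0x5e0000bc00017e6a82fdd4e) (.hit (nat_lit 4) (nat_lit 26) (nat_lit 0x5e0000bc00017e63dafdc0e) b32811 (.hit (nat_lit 9) (nat_lit 32) (nat_lit 0x5e0000bc00017e628afc9c0) b32816 (.one (nat_lit 9) (nat_lit 5) (nat_lit 27) (nat_lit 0x5e0000bc00017e6a82fdd4e) b32812 (.nil))))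 (.nil)))))) (.tok (nat_lit 64) (nat_lit 0x5e0000bc00017e9782fdad0) (.hit (nat_lit 10) (nat_lit 50) (nat_lit 0x5e0000bc00017e16eafd55a) b32817 (.hit (nat_lit 11) (nat_lit 51) (nat_lit 0x5e0000bc00017e9782fdad0) b32818 (.nil))) (.tok (nat_lit 67) (nat_lit 0x5e0000bc0001800ad3014ec) (.hit (nat_lit 12) (nat_lit 52) (nat_lit 0x5e0000bc00017ec392febcb) b32819 (.tok (nat_lit 3) (nat_lit 0x5e0000bc00017eebfaff0aa) (.hit (nat_lit 18) (nat_lit 58) (nat_lit 0x5e0000bc00017e5622fdea5) b32825 (.one (nat_lit 55) (nat_lit 19) (nat_lit 59) (nat_lit 0x5e0000bc00017eebfaff0aa) b32826 (.nil))) (.tok (nat_lit 9) (nat_lit 0x5e0000bc0001800ad3014ec) (.hit (nat_lit 13) (nat_lit 53) (nat_lit 0x5e0000bc00017eeea2fe7bd) b32820 (.hit (nat_lit 16) (nat_lit 56) (nat_lit 0x5e0000bc00017eceaafdd09) b32823 (.tok (nat_lit 67) (nat_lit 0x5e0000bc0001800ad3014ec) (.hit (nat_lit 14) (nat_lit 54) (nat_lit 0x5e0000bc00017fd2630125f)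 b32821 (.hit (nat_lit 17) (nat_lit 57) (nat_lit 0x5e0000bc00017eaf5afe8d0) b32824 (.one (nat_lit 9) (nat_lit 15) (nat_lit 55) (nat_lit 0x5e0000bc0001800ad3014ec) b32822 (.nil)))) (.nil)))) (.nil)))) (.one (nat_lit 70) (nat_lit 20) (nat_lit 60) (nat_lit 0x5e0000bc00017e89f2fdc48) b32827 (.nil)))))) (.nil))
noncomputable def r16_0 : Rw Blk := .tok (nat_lit 6) (nat_lit 0x600000bfb2997f2cdaffd015fd3c2c006cd7f9da2ffcee5fe808bffc8d7ffdeb000005ffc52bff83d7fecf2ff752) (.hit (nat_lit 81) (nat_lit 0) (nat_lit 0x5fbb58bf722d7e90a2fe9f35faba6bf80b17e8a0afd98a5fa38ebf87b97f944afde755fc9dcbf8c6d7f0372fd9cd) b32843 (.tok (nat_lit 14) (nat_lit 0x600000bfb2997f2cdaffd015fd3c2c006cd7f668aff5135fdaa4bfe17d7ffdeb000005ffc52bff83d7fecf2feeed) (.hit (nat_lit 117) (nat_lit 61) (nat_lit 0x5fe554bfadd97f2cdaff0e55fc47ac006cd7efacafe79a5fc0eabfbc057ffdeaff0f55ff3c0bfd85d7fde8afe9c1) b32844 (.one (nat_lit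 3) (nat_lit 118) (nat_lit 62) (nat_lit 0x5fca08bf76317f0522fdfd05f94a2bfabe17eac8afddd25fac24bf806d7f9ef2fea855fe21abfbde17f64b2fe45a) b32845 (.tok (nat_lit 6) (nat_lit 0x5fcfc6bf718d7edf0afe6c95fadbabfd2b97edacafe39b5fb7b4bf981d7fe592ff2d05ff630bfdf197fbc1afe954) (.hit (nat_lit 121) (nat_lit 65) (nat_lit 0x5f9ef2bf10d97e9d5afe2b55fadbabf66757e511afd2595faa2abf8e857f1ac2fd8d35fb34cbf6eb17f05b2fd4f9) b32848 (.hit (nat_lit 122) (nat_lit 66) (nat_lit 0x5fcfc6bf718d7edf0afe6c95f9fe4bfd2b97edacafe39b5fb7b4bf981d7fe592ff2d05ff630bfdf197fbc1afe954) b32849 (.nil))) (.tok (nat_lit 9) (nat_lit 0x600000bfb2997f2582ffd015fd3c2bff0057f668aff5135fdaa4bfe17d7fd563000005ffc52bff83d7fecf2feeed) (.hit (nat_lit 119) (nat_lit 63) (nat_lit 0x600000bfb2997ef382ffd015fd3c2bff0057f668aff5135fdaa4bfe17d7fd562ff32b5ff370bfe0917faa62febac) b32846 (.hit (nat_lit 120) (nat_lit 64) (nat_lit 0x5fc45cbf55717f2582fde045f9764bfa60d7eb112fe00a5fad46bf82517f689b000005ffc52bff83d7fecf2feeed)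 b32847 (.nil))) (.nil))))) (.one (nat_lit 17) (nat_lit 123) (nat_lit 67) (nat_lit 0x5faf3cbf557d7e9acafd6aa5f8106bf70d17e4c22fd1c45f9402bf57b17f410afdd085fc732bf87d17ef8aafdeee) b32850 (.tok (nat_lit 20) (nat_lit 0x5fd388bfa2297eeb32ff9b35fb738bfea957f9da2ffcee5fe808bffc8d7fc692fefcf5feff6bfd3017f8ee2ff752) (.hit (nat_lit 124) (nat_lit 68) (nat_lit 0x5fd388bfa2297eeb32ff9b35fb738bfea957f9da2ffcee5fe808bffc8d7fc692fefcf5feff6bfd3017f8ee2ff752) b32851 (.hit (nat_lit 125) (nat_lit 69) (nat_lit 0x5fad90bf1a497ece8afd6885f794abf6dd57e4a7afd1905f93a0bf570d7f0302fe2075fd89abf9a4d7f2762fd95c) b32852 (.nil))) (.tok (nat_lit 23) (nat_lit 0x5fabeabf1fd97e7c32fdfe05fa810bf69657e3f5afd02b5fa480bf83317f20cafd15b5faeeebf55717ea802fcf11) (.hit (nat_lit 126) (nat_lit 70) (nat_lit 0x5f9948bf05857e7c32fdfe05fa810bf5b217e3a72fcf845fa480bf83317ec24afd0785fada2bf55717ea5bafcf11) b32853 (.hit (nat_lit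 127) (nat_lit 71) (nat_lit 0x5fabeabf1fd97e21d2fd6dc5f78fabf69657e3f5afd02b5f90d8bf518d7f20cafd15b5faeeebf53a57ea802fccf8) b32854 (.nil))) (.one (nat_lit 26) (nat_lit 128) (nat_lit 72) (nat_lit 0x5f9b40bef5ad7e0012fcfa55f6742bf49d17e013afc8685f8150bf326d7edf42fca665fa440bf3b497e689afc386) b32855 (.one (nat_lit 29) (nat_lit 129) (nat_lit 73) (nat_lit 0x5f9e9abf1a597e4652fd6d85f6abebf50857e0ea2fca155f84aabf39217ef10afce1b5fa8e2bf4b297e8162fcf06) b32856 (.one (nat_lit 32) (nat_lit 130) (nat_lit 74) (nat_lit 0x5f84babedca57e750afc2b85f6752bf1c297da722fbd255f6acabf05617e7402fcf315fb0f8bf4f0d7e8e7afcb29) b32857 (.one (nat_lit 35) (nat_lit 131) (nat_lit 75) (nat_lit 0x5fac5cbf34b17e6a02fd95c5f787ebf6c097e45aafd0f65f926cbf54a57f2d5afd4d55fb7d4bf66217eb872fd0aa) b32858 (.one (nat_lit 38) (nat_lit 132) (nat_lit 76) (nat_lit 0x5fa548bf1dd17e7662fd52b5f82bcbf4e217e28f2fcd5f5f8b3ebf46497ec972fd1375fba18bf61f17e98dafcb6b)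 b32859 (.tok (nat_lit 41) (nat_lit 0x5faf32bf55517e9d7afd6465f7b5cbf71bd7e5102fd2615f9542bf5a517f3c5afd99c5fc7cabf7aed7ee29afd7b1) (.hit (nat_lit 133) (nat_lit 77) (nat_lit 0x5f9b4cbf2d317e66a2fc69f5f6398bf69457de902fc5ed5f7b42bf1d997eb4d2fd9865fc7cabf7aed7ee29afd06c) b32860 (.hit (nat_lit 134) (nat_lit 78) (nat_lit 0x5faf32bf55517e9d7afd6465f7b5cbf71bd7e5102fd2615f9542bf5a517f3c5afd99c5fbff6bf79517edd62fd7b1) b32861 (.nil))) (.tok (nat_lit 44) (nat_lit 0x5fb826bf7ee97edfe2fe0545f8ffebf82917e75f2fd7105f9e88bf68757f01e2fd5715fb89ebf69897ebbeafd450) (.hit (nat_lit 135) (nat_lit 79) (nat_lit 0x5fb826bf7ee97edfe2fe0545f8ffebf82917e75f2fd7105f9e88bf68757f01e2fd5715fb89ebf69897ebbeafd450) b32862 (.hit (nat_lit 136) (nat_lit 80) (nat_lit 0x5fa698bf0cb57e5caafd3955f7254bf5fe97e2e9afce145f8ca8bf491d7eeaeafd2895fb67cbf59097ea282fcaad) b32863 (.nil))) (.tok (nat_lit 47) (nat_lit 0x5fae70bf321d7e48a2fdbf35f809cbf5f457e4dfafd2005f9480bf58cd7f12c2fd1745fb140bf586d7eac02fd47b)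 (.hit (nat_lit 137) (nat_lit 81) (nat_lit 0x5f71d4beb69d7e022afcc265f809cbf0c397d9ca2fbbca5f7d0cbf34497e247afbcbe5f862ebf06897df782fce41) b32864 (.hit (nat_lit 138) (nat_lit 82) (nat_lit 0x5fae70bf321d7e48a2fdbf35f7c70bf5f457e4dfafd2005f9480bf58cd7f12c2fd1745fb140bf586d7eac02fd47b) b32865 (.nil))) (.one (nat_lit 62) (nat_lit 148) (nat_lit 92) (nat_lit 0x5fa306bf0ad57e56b2fd2655f7a52bf59597e2052fcc4b5f8916bf41f97eeffafd5055fb938bf66097ebc2afcc52) b32866 (.tok (nat_lit 65) (nat_lit 0x5fb5f0bf6c2d7e8d82fd8235f7e96bf89417e54fafd2e15f9640bf53957f455afddab5fd3a2bf8c117f0452fd952) (.hit (nat_lit 149) (nat_lit 93) (nat_lit 0x5fb5f0bf6c2d7e8d82fd5ce5f7e96bf89417e54fafd2e15f9640bf53957f455afddab5fd3a2bf8c117f0452fd952) b32867 (.hit (nat_lit 150) (nat_lit 94) (nat_lit 0x5fa9b6bf33c97e5b02fd8235f770abf63d97e3b12fcfa35f8fc6bf4f597f12a2fd0fd5faeaebf56c17e9a12fd6f9) b32868 (.nil))) (.tok (nat_lit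 68) (nat_lit 0x5fbfbabf6f997f0122fe1fd5fac4abf9c0d7ea1eafdc7e5fa97cbf8ba57f44d2fe0d55fb1dcbf95357f16b2fde00) (.hit (nat_lit 151) (nat_lit 95) (nat_lit 0x5fbfbabf6f997f0122fe1fd5fac4abf9c0d7ea1eafdc7e5fa97cbf8ba57f44d2fe0d55fb1dcbf95357f16b2fde00) b32869 (.one (nat_lit 3) (nat_lit 155) (nat_lit 99) (nat_lit 0x5f8390beda157e9fd2fd5045f9258bf2fb17de392fc4a85f8ec8bf57c17e6b6afc59c5f97eabf2a017e3f22fd7b7) b32873 (.one (nat_lit 6) (nat_lit 152) (nat_lit 96) (nat_lit 0x5f99eebf06d17ec372fe0335fa8b6bf5c6d7e3d0afcfd75fa526bf847d7ec4e2fd0cb5fae48bf56bd7ead32fdb5c) b32870 (.tok (nat_lit 9) (nat_lit 0x5f9c46bf0b817efdbafe15f5fab0ebf611d7e466afd1035fa77ebf892d7ee652fd2455fb0a0bf5b6d7ed142fdc1c) (.hit (nat_lit 153) (nat_lit 97) (nat_lit 0x5f8b1abee9297ef5aafd8c95f99e2bf3ec57e01bafc86d5f9652bf66d57ee652fd2455f9f74bf54797ed142fd7a1) b32871 (.hit (nat_lit 154) (nat_lit 98) (nat_lit 0x5f9c46bf0b817efdbafe15f5fab0ebf611d7e466afd1035fa77ebf892d7ece42fd1f75fb0a0bf5b6d7ea07afdc1c)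 b32872 (.nil))) (.nil))))) (.one (nat_lit 71) (nat_lit 156) (nat_lit 100) (nat_lit 0x5f966cbefcad7e0432fcd8f5f62d2bf40117dedeafc5fe5f7c7cbf28c57edae2fc7115f9b62bf2add7e5442fc9f1) b32874 (.nil)))))))))))))))))) (.tok (nat_lit 52) (nat_lit 0x5ff46cc00eed803e1b0009c5ff1febfd20d8000030083f6000febffaed802b82ffa815fe758bffd997fe46300cd0) (.hit (nat_lit 332) (nat_lit 0) (nat_lit 0x5ff46cbfe859801ea30009c5ff1febfd20d8000030083f6000febffaed802b82ffa815fe758bffd997fe46300105) b32875 (.tok (nat_lit 6) (nat_lit 0x5ff232c00eed7fb692ffdb35fe308bfc6697f1c8afebd25fcbf8bfe9697fa85afea845fe186bfc30d7f6a6300cd0) (.hit (nat_lit 333) (nat_lit 7) (nat_lit 0x5ff232c00eed7fb692ffdb35fe308bfc6697f1c8afebd25fcbf8bfe9697fa85afea845fe186bfc30d7f6a6300cd0) b32876 (.hit (nat_lit 334) (nat_lit 15) (nat_lit 0x5fdaf2bfd3c17f50e2ff3cf5fcdbebf9ed97ebbe2fdfbd5fb830bfbbf17f593afe0a05fcdbebf9b7d7f1b42ff093) b32877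 (.nil))) (.tok (nat_lit 9) (nat_lit 0x5fe5e0c00385803e1afff945fe548bfcded7f1842feb3f5fcfbabfce497fb762fec655fe548bfca917f927aff7f0) (.hit (nat_lit 335) (nat_lit 20) (nat_lit 0x5fd5d2bf79a1803e1afff945fe548bfcded7f1842feb3f5fcfbabfca917fb762fec655fe548bfca917f796aff337) b32878 (.hit (nat_lit 336) (nat_lit 28) (nat_lit 0x5fe5e0c003857ff652ff7d15fd62abfaee17ee08afe4525fc034bfce497fb302fea455fd5c2bfb9517f927aff7f0) b32879 (.nil))) (.nil)))) (.tok (nat_lit 55) (nat_lit 0x5ff2a6bfa4797fc983001b25fe984bfd6657f2932fed5d5fd3f6bfd30980208aff7f65fe984bff015800002ff7fd) (.hit (nat_lit 343) (nat_lit 0) (nat_lit 0x5ff2a6bfa4797f92bafff5d5fe4dabfcd117f168afeb085fcf4cbfc9b5801c8aff5ff5fe4dabfde197fbc02fea27) b32880 (.tok (nat_lit 3) (nat_lit 0x5fda0ebf82197fc983001b25fe984bfd6657f2932fed5d5fd3f6bfd30980208aff7f65fe984bff015800002ff7fd) (.hit (nat_lit 344) (nat_lit 1) (nat_lit 0x5fa5c8bf198d7eff6afe78f5fb53ebf6dd97e581afd33a5f9fb0bf6a7d7ef73afd4605fb53ebf6a7d7eba82fe1fc)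 b32881 (.one (nat_lit 67) (nat_lit 345) (nat_lit 2) (nat_lit 0x5fda0ebf82197fc983001b25fe984bfd6657f2932fed5d5fd3f6bfd30980208aff7f65fe984bff015800002ff7fd) b32882 (.nil))) (.tok (nat_lit 6) (nat_lit 0x5fb834bf3e657f19c2ff0c55fc7aabf92b17ea1cafdc705fb21cbf8f557f46bafdd965fc7aabf8f557f2632fe173) (.hit (nat_lit 346) (nat_lit 7) (nat_lit 0x5fb834bf3e657f19c2ff0c55fc7aabf92b17ea1cafdc705fb21cbf8f557f43d2fdd965fc7aabf8f557f234afdd10) b32883 (.hit (nat_lit 349) (nat_lit 15) (nat_lit 0x5f994cbf00957eef2afe1515fa8c2bf54e17e262afccfc5f9334bf51857f46bafdcbc5fa8c2bf832d7f2632fe173) b32884 (.nil))) (.nil)))) (.tok (nat_lit 58) (nat_lit 0x5ff08abfaf117ff61b00cf0600000c0035d7f8322ff89b5fea72c00001802242ff9c1600000c000017fe44afffdb) (.hit (nat_lit 357) (nat_lit 0) (nat_lit 0x5fd738bf69b97f5eeaff1ab5fc976bf96497eb8b2fe2245fb3e8bfae717fc512fee835fcc60bfadf97f83d2fdf23) b32885 (.tok (nat_lit 3)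 (nat_lit 0x5fdba0bf853d7f62430027b5feb16bfd9897f2f7afee265fd588bfd62d7fe34aff04e5feb16bfd62d7fc2c2ff825) (.hit (nat_lit 358) (nat_lit 1) (nat_lit 0x5fada0bf293d7f2b2afeb7b5fbd16bf7d897e777afd7265fa788bf7a2d7f169afd84c5fbd16bf7a2d7ed8a2fe657) b32886 (.one (nat_lit 55) (nat_lit 359) (nat_lit 3) (nat_lit 0x5fdba0bf853d7f62430027b5feb16bfd9897f2f7afee265fd588bfd62d7fe34aff04e5feb16bfd62d7fc2c2ff825) b32887 (.nil))) (.tok (nat_lit 9) (nat_lit 0x5ff08abfaf117ff61b00cf0600000c0035d7f8322ff89b5fea72c00001802242ff9c1600000c000017fe44afffdb) (.hit (nat_lit 360) (nat_lit 20) (nat_lit 0x5fb1aabf31517f0ceafed805fc120bf859d7e87a2fd92b5fab92bf82417f26c2fda515fc120bf82417ee8cafdb20) b32888 (.hit (nat_lit 363) (nat_lit 28) (nat_lit 0x5fac8abf27117f21eafeaf05fbc00bf7b5d7e7322fd69b5fa672bf78017f1242fd7c15fbc00bf78017ed44afe69a) b32891 (.tok (nat_lit 67) (nat_lit 0x5ff08abfaf117ff61b00cf0600000c0035d7f8322ff89b5fea72c00001802242ff9c1600000c000017fe44afffdb)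 (.hit (nat_lit 361) (nat_lit 21) (nat_lit 0x5fcf9cbf6d357f6d32ffc795fdf12bfc1817eff6afe8245fc984bfbe257f9e8afe94a5fdf12bfbe257f6092fef4e) b32889 (.hit (nat_lit 364) (nat_lit 29) (nat_lit 0x5fdc74bf86e57fd8fb002e55febeabfdb317f32cafee905fd65cbfd7d57fd1eafefb65febeabfd7d57f93f2ff26f) b32892 (.one (nat_lit 9) (nat_lit 362) (nat_lit 22) (nat_lit 0x5ff08abfaf117ff61b00cf0600000c0035d7f8322ff89b5fea72c00001802242ff9c1600000c000017fe44afffdb) b32890 (.nil)))) (.nil)))) (.nil)))) (.nil))))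
noncomputable def r16_1 : Rw Blk := .tok (nat_lit 14) (nat_lit 0x5e0000bc00017e39eafd9015fb142bf5d817ec5c2fd208) (.hit (nat_lit 134) (nat_lit 0) (nat_lit 0x5e0000bc00017e39eafd9015fb142bf5d817ec5c2fd208) b32904 (.one (nat_lit 3) (nat_lit 135) (nat_lit 1) (nat_lit 0x5e0000bc00017ce992fb3625f6604bec7057d98cafac69) b32905 (.tok (nat_lit 6) (nat_lit 0x5e0000bc00017e09aafd7655fae0abf57117eb8e2fd06c) (.hit (nat_lit 136) (nat_lit 7) (nat_lit 0x5e0000bc00017ddd92fd1e25fa304bf41057e8ccafcae9) b32906 (.hit (nat_lit 137) (nat_lit 15) (nat_lit 0x5e0000bc00017e09aafd7655fae0abf57117eb8e2fd06c) b32907 (.nil))) (.tok (nat_lit 9) (nat_lit 0x5e0000bc00017dea8afd3815fa642bf47817e99c2fcc88) (.hit (nat_lit 138) (nat_lit 20) (nat_lit 0x5e0000bc00017ddd92fd1e25fa304bf41057e8ccafcae9) b32906 (.hit (nat_lit 139) (nat_lit 28) (nat_lit 0x5e0000bc00017dea8afd3815fa642bf47817e99c2fcc88) b32908 (.nil)))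 (.nil))))) (.tok (nat_lit 17) (nat_lit 0x5e0000bc00017e3c82fd7885faa10bf4b557ec1a2fcfcf) (.hit (nat_lit 140) (nat_lit 0) (nat_lit 0x5e0000bc00017e3c82fd7885faa10bf45357ec1a2fcfcf) b32909 (.one (nat_lit 3) (nat_lit 141) (nat_lit 1) (nat_lit 0x5e0000bc00017cc12afae555f5beabeb2d17d7062fa75c) b32910 (.tok (nat_lit 6) (nat_lit 0x5e0000bc00017df232fd4765fa82cbf4b557ea16afcd7d) (.hit (nat_lit 142) (nat_lit 7) (nat_lit 0x5e0000bc00017db22afcc755f982abf2b517e6162fc57c) b32911 (.hit (nat_lit 143) (nat_lit 15) (nat_lit 0x5e0000bc00017df232fd4765fa82cbf4b557ea16afcd7d) b32912 (.nil))) (.tok (nat_lit 9) (nat_lit 0x5e0000bc00017dda32fd1765fa22cbf3f557e896afca7d) (.hit (nat_lit 144) (nat_lit 20) (nat_lit 0x5e0000bc00017d9a7afc97f5f923ebf1f797e49b2fc286) b32913 (.hit (nat_lit 145) (nat_lit 28) (nat_lit 0x5e0000bc00017dda32fd1765fa22cbf3f557e896afca7d) b32914 (.nil))) (.nil))))) (.tok (nat_lit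 20) (nat_lit 0x5e0000bc00017f19f2fea885fcec0bf8de57f540afdf26) (.hit (nat_lit 128) (nat_lit 0) (nat_lit 0x5e0000bc00017f19f2fea885fcec0bf8de57f540afdee5) b32899 (.one (nat_lit 3) (nat_lit 129) (nat_lit 1) (nat_lit 0x5e0000bc00017eadb2fe0ef5fbd8ebf6c5d7f0f1afd532) b32900 (.tok (nat_lit 6) (nat_lit 0x5e0000bc00017e9bb2fe5d25fc6aabf7e697f340afd9a6) (.hit (nat_lit 130) (nat_lit 7) (nat_lit 0x5e0000bc00017dc0f2fce4e5f9bdcbf32b57e702afc755) b32895 (.hit (nat_lit 131) (nat_lit 15) (nat_lit 0x5e0000bc00017e9bb2fe5d25fc6aabf7e697f340afd9a6) b32901 (.nil))) (.tok (nat_lit 9) (nat_lit 0x5e0000bc00017eb882fe8f95fcd0cbf8b2d7f4d6afdf26) (.hit (nat_lit 132) (nat_lit 20) (nat_lit 0x5e0000bc00017eb882fe8f95fcd0cbf8b2d7f4d6afdf26) b32902 (.hit (nat_lit 133) (nat_lit 28) (nat_lit 0x5e0000bc00017e8b0afe6b15fc89cbf82517f3b92fdaa2) b32903 (.nil))) (.nil))))) (.tok (nat_lit 23) (nat_lit 0x5e0000bc00017e4012fd6785fac30bf535d7eb17afcf7f)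 (.hit (nat_lit 122) (nat_lit 0) (nat_lit 0x5e0000bc00017e4012fd37c5fa638bf476d7e999afcc83) b32893 (.one (nat_lit 3) (nat_lit 123) (nat_lit 1) (nat_lit 0x5e0000bc00017d055afb6db5f6cf6bed4e97db492fafe2) b32894 (.tok (nat_lit 6) (nat_lit 0x5e0000bc00017e0242fd6785fac30bf535d7eb17afcf7f) (.hit (nat_lit 124) (nat_lit 7) (nat_lit 0x5e0000bc00017dc0f2fce4e5f9bdcbf32b57e702afc755) b32895 (.hit (nat_lit 125) (nat_lit 15) (nat_lit 0x5e0000bc00017e0242fd6785fac30bf535d7eb17afcf7f) b32896 (.nil))) (.tok (nat_lit 9) (nat_lit 0x5e0000bc00017df182fd4605fa800bf4afd7ea0bafcd67) (.hit (nat_lit 126) (nat_lit 20) (nat_lit 0x5e0000bc00017dba8afcd815f9a42bf2f817e69c2fc688) b32897 (.hit (nat_lit 127) (nat_lit 28) (nat_lit 0x5e0000bc00017df182fd4605fa800bf4afd7ea0bafcd67) b32898 (.nil))) (.nil))))) (.tok (nat_lit 26) (nat_lit 0x5e0000bc00017f218afe7895fc9d0bf849d7f4072fd93b) (.hit (nat_lit 215) (nat_lit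 0) (nat_lit 0x5e0000bc00017f218afe7895fc9d0bf849d7f4072fd93b) b32938 (.one (nat_lit 3) (nat_lit 216) (nat_lit 1) (nat_lit 0x5e0000bc00017ccdbafafe75f5f0ebeb9197d7cf2fa8ee) b32939 (.tok (nat_lit 6) (nat_lit 0x5e0000bc00017e3acafdd895fba52bf6fa17eea02fd690) (.hit (nat_lit 217) (nat_lit 7) (nat_lit 0x5e0000bc00017e3acafdd895fba52bf6fa17eea02fd690) b32940 (.hit (nat_lit 218) (nat_lit 15) (nat_lit 0x5e0000bc00017cc08afae415f5bc2beb2817d6fc2fa748) b32941 (.nil))) (.tok (nat_lit 9) (nat_lit 0x5e0000bc00017d5c92fc1c25f82c4bf00857e0bcafbac9) (.hit (nat_lit 219) (nat_lit 20) (nat_lit 0x5e0000bc00017d58dafc14b5f81d6befea97e0812fba52) b32942 (.hit (nat_lit 220) (nat_lit 28) (nat_lit 0x5e0000bc00017d5c92fc1c25f82c4bf00857e0bcafbac9) b32943 (.nil))) (.nil))))) (.tok (nat_lit 29) (nat_lit 0x5e0000bc00017e4ca2fd9c15fae7cbf4e0d7ed352fcddd) (.hit (nat_lit 221) (nat_lit 0) (nat_lit 0x5e0000bc00017e4ca2fd9c15fae7cbf4e0d7ed352fc736)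 b32944 (.one (nat_lit 3) (nat_lit 222) (nat_lit 1) (nat_lit 0x5e0000bc00017ce0cafb2495f63d2bec2a17d9002fab50) b32945 (.tok (nat_lit 6) (nat_lit 0x5e0000bc00017dc2eafce8d5f9c5abf33b17e7222fc794) (.hit (nat_lit 223) (nat_lit 7) (nat_lit 0x5e0000bc00017d4612fbef25f7d24bef5457df54afb7f9) b32946 (.hit (nat_lit 224) (nat_lit 15) (nat_lit 0x5e0000bc00017dc2eafce8d5f9c5abf33b17e7222fc794) b32947 (.nil))) (.tok (nat_lit 9) (nat_lit 0x5e0000bc00017df532fd4d65fa8ecbf4cd57ea46afcddd) (.hit (nat_lit 225) (nat_lit 20) (nat_lit 0x5e0000bc00017ddfbafd2275fa38ebf42197e8ef2fcb2e) b32948 (.hit (nat_lit 226) (nat_lit 28) (nat_lit 0x5e0000bc00017df532fd4d65fa8ecbf4cd57ea46afcddd) b32949 (.nil))) (.nil))))) (.tok (nat_lit 32) (nat_lit 0x5e0000bc00017eb62afe3915fc1a6bf73cd7f2022fd0ac) (.hit (nat_lit 233) (nat_lit 0) (nat_lit 0x5e0000bc00017eb62afe3915fc1a6bf73cd7f2022fd0ac) b32956 (.one (nat_lit 3)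 (nat_lit 234) (nat_lit 1) (nat_lit 0x5e0000bc00017d055afb6db5f6cf6bed4e97db492fafe2) b32894 (.tok (nat_lit 6) (nat_lit 0x5e0000bc00017dbef2fce0e5f9b5cbf31b57e6e2afc715) (.hit (nat_lit 235) (nat_lit 7) (nat_lit 0x5e0000bc00017dab4afcb995f9672bf27e17e5a82fc4a0) b32917 (.hit (nat_lit 236) (nat_lit 15) (nat_lit 0x5e0000bc00017dbef2fce0e5f9b5cbf31b57e6e2afc715) b32957 (.nil))) (.tok (nat_lit 9) (nat_lit 0x5e0000bc00017d4522fbed45f7ce8bef4cd7df45afb7db) (.hit (nat_lit 237) (nat_lit 20) (nat_lit 0x5e0000bc00017d4522fbed45f7ce8bef4cd7df45afb7db) b32958 (.hit (nat_lit 238) (nat_lit 28) (nat_lit 0x5e0000bc00017cb41afacb35f58a6beac497d6352fa5ba) b32959 (.nil))) (.nil))))) (.tok (nat_lit 35) (nat_lit 0x5e0000bc00017f353afebc95fd6b4bf89bd7f6b8afd3f5) (.hit (nat_lit 227) (nat_lit 0) (nat_lit 0x5e0000bc00017f353afebc95fd6b4bf89bd7f6b8afd3f5) b32950 (.one (nat_lit 3) (nat_lit 228) (nat_lit 1)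 (nat_lit 0x5e0000bc00017d4e12fbff25f7f24bef9457dfd4afb8f9) b32951 (.tok (nat_lit 6) (nat_lit 0x5e0000bc00017dfa82fd5805faa40bf4f7d7ea9bafce87) (.hit (nat_lit 229) (nat_lit 7) (nat_lit 0x5e0000bc00017ddeaafd2055fa34abf41917e8de2fcb0c) b32952 (.hit (nat_lit 230) (nat_lit 15) (nat_lit 0x5e0000bc00017dfa82fd5805faa40bf4f7d7ea9bafce87) b32953 (.nil))) (.tok (nat_lit 9) (nat_lit 0x5e0000bc00017e0a6afd77d5fae3abf57717eb9a2fd084) (.hit (nat_lit 231) (nat_lit 20) (nat_lit 0x5e0000bc00017e0a6afd77d5fae3abf57717eb9a2fd084) b32954 (.hit (nat_lit 232) (nat_lit 28) (nat_lit 0x5e0000bc00017deba2fd3a45fa688bf480d7e9adafccab) b32955 (.nil))) (.nil))))) (.tok (nat_lit 38) (nat_lit 0x5e0000bc00017edd82fe8105fce28bf8ded7f4e72fda45) (.hit (nat_lit 239) (nat_lit 0) (nat_lit 0x5e0000bc00017edd82fe8105fce28bf8ded7f4e72fda45) b32960 (.one (nat_lit 3) (nat_lit 240) (nat_lit 1) (nat_lit 0x5e0000bc00017d296afbb5d5f75fabee6f17dd8a2fb464)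 b32961 (.tok (nat_lit 6) (nat_lit 0x5e0000bc00017d4612fbef25f7d24bef5457df54afb7f9) (.hit (nat_lit 241) (nat_lit 7) (nat_lit 0x5e0000bc00017d4612fbef25f7d24bef5457df54afb7f9) b32946 (.hit (nat_lit 242) (nat_lit 15) (nat_lit 0x5e0000bc00017d14bafb8c75f70cebedc997dc3f2fb1ce) b32962 (.nil))) (.tok (nat_lit 9) (nat_lit 0x5e0000bc00017dd27afd07f5fa03ebf3b797e81b2fc986) (.hit (nat_lit 243) (nat_lit 20) (nat_lit 0x5e0000bc00017dd27afd07f5fa03ebf3b797e81b2fc986) b32963 (.hit (nat_lit 244) (nat_lit 28) (nat_lit 0x5e0000bc00017d493afbf575f7deebef6d97df872fb85e) b32964 (.nil))) (.nil))))) (.tok (nat_lit 41) (nat_lit 0x5e0000bc000180000301940602ec8c03dc180e58b002fa) (.hit (nat_lit 250) (nat_lit 0) (nat_lit 0x5e0000bc00017f2162ff68d5fd1a4bf91fd7fc7a2fdb40) b32965 (.one (nat_lit 3) (nat_lit 251) (nat_lit 1) (nat_lit 0x5e0000bc00017ed8cafdf5c5fc0acbf6f097f167afd2d4) b32966 (.tok (nat_lit 6)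 (nat_lit 0x5e0000bc000180000301940602ec8c03dc180e58b002fa) (.hit (nat_lit 252) (nat_lit 7) (nat_lit 0x5e0000bc000180000301940602ec8c03dc180e58b002fa) b32967 (.hit (nat_lit 253) (nat_lit 15) (nat_lit 0x5e0000bc00017ed8f2fe4c15fc4c0bf847d7f2aeafdbc7) b32968 (.nil))) (.tok (nat_lit 9) (nat_lit 0x5e0000bc00017f3e32fe7d85fd3b4bf99917f5242fdc3b) (.hit (nat_lit 254) (nat_lit 20) (nat_lit 0x5e0000bc00017f3e32fe7d85fd3b4bf99917f5242fdc3b) b32969 (.hit (nat_lit 255) (nat_lit 28) (nat_lit 0x5e0000bc00017ec792fdce15fbf50bf6d297f0992fd5e8) b32970 (.nil))) (.nil))))) (.tok (nat_lit 44) (nat_lit 0x5e0000bc00017ff063005675ffb0cbfc7b17fefeafe98b) (.hit (nat_lit 278) (nat_lit 0) (nat_lit 0x5e0000bc00017f0ed2fea375fca62bf80a17f33e2fd29a) b32977 (.one (nat_lit 3) (nat_lit 279) (nat_lit 1) (nat_lit 0x5e0000bc00017e465afcd505f925abf14bd7e603afbfe0) b32978 (.tok (nat_lit 6) (nat_lit 0x5e0000bc00017f31a2fe7b25fcce4bf8b497f4c82fd88c)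 (.hit (nat_lit 280) (nat_lit 7) (nat_lit 0x5e0000bc00017f31a2fe7b25fcce4bf8b497f4c82fd88c) b32979 (.hit (nat_lit 281) (nat_lit 15) (nat_lit 0x5e0000bc00017e9452fd9225fad8ebf4b9d7ecddafcaa7) b32980 (.nil))) (.tok (nat_lit 9) (nat_lit 0x5e0000bc00017ff063005675ffb0cbfc7b17fefeafe98b) (.hit (nat_lit 282) (nat_lit 20) (nat_lit 0x5e0000bc00017ff063005675ffb0cbfc7b17fefeafe98b) b32981 (.hit (nat_lit 283) (nat_lit 28) (nat_lit 0x5e0000bc00017ea1e2fdb5a5fb5f4bf66e57ed8e2fd461) b32982 (.nil))) (.nil))))) (.tok (nat_lit 47) (nat_lit 0x5e0000bc00017f348afe3a35fdc78bfa9057f6862fdfc9) (.hit (nat_lit 264) (nat_lit 0) (nat_lit 0x5e0000bc00017f348afe3a35fdc78bfa9057f6862fdfc9) b32971 (.one (nat_lit 3) (nat_lit 265) (nat_lit 1) (nat_lit 0x5e0000bc00017d5b02fc1905f8260beffbd7e0a3afba97) b32972 (.tok (nat_lit 6) (nat_lit 0x5e0000bc00017e0e72fd7fe5faf3cbf59757ebdaafd105) (.hit (nat_lit 266) (nat_lit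 7) (nat_lit 0x5e0000bc00017dff52fd61a5fab74bf51e57eae8afcf21) b32973 (.hit (nat_lit 267) (nat_lit 15) (nat_lit 0x5e0000bc00017e0e72fd7fe5faf3cbf59757ebdaafd105) b32974 (.nil))) (.tok (nat_lit 9) (nat_lit 0x5e0000bc00017d7a7afc57f5f8a3ebf0f797e29b2fbe86) (.hit (nat_lit 268) (nat_lit 20) (nat_lit 0x5e0000bc00017d7a7afc57f5f8a3ebf0f797e29b2fbe86) b32975 (.hit (nat_lit 269) (nat_lit 28) (nat_lit 0x5e0000bc00017d3d02fbdd05f7ae0bef0bd7dec3afb6d7) b32976 (.nil))) (.nil))))) (.tok (nat_lit 62) (nat_lit 0x5e0000bc00017e4722fda2b5fb396bf62297ecf12fd332) (.hit (nat_lit 146) (nat_lit 0) (nat_lit 0x5e0000bc00017e4722fcf2d5f995abf23c97e7ecafc6b1) b32915 (.one (nat_lit 3) (nat_lit 147) (nat_lit 1) (nat_lit 0x5e0000bc00017c8bfafa7af5f4e9ebe98397d3b32fa0b6) b32916 (.tok (nat_lit 6) (nat_lit 0x5e0000bc00017dab4afcb995f9672bf27e17e5a82fc4a0) (.hit (nat_lit 148) (nat_lit 7) (nat_lit 0x5e0000bc00017dab4afcb995f9672bf27e17e5a82fc4a0)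 b32917 (.hit (nat_lit 149) (nat_lit 15) (nat_lit 0x5e0000bc00017d459afbee35f7d06bef5097df4d2fb7ea) b32918 (.nil))) (.tok (nat_lit 9) (nat_lit 0x5e0000bc00017e1fdafda2b5fb396bf62297ecf12fd332) (.hit (nat_lit 150) (nat_lit 20) (nat_lit 0x5e0000bc00017e1fdafda2b5fb396bf62297ecf12fd332) b32919 (.hit (nat_lit 151) (nat_lit 28) (nat_lit 0x5e0000bc00017cc032fae365f5bacbeb2557d6f6afa73d) b32920 (.nil))) (.nil))))) (.tok (nat_lit 65) (nat_lit 0x5e0000bc00017f7bf300de5600df2bff5b980775aff20e) (.hit (nat_lit 152) (nat_lit 0) (nat_lit 0x5e0000bc00017f1272ff1165fd888bf87b17f8cbafd9f7) b32921 (.one (nat_lit 3) (nat_lit 153) (nat_lit 1) (nat_lit 0x5e0000bc00017f4942fdf9a5fcc0abf7ad17f3222fdf2e) b32922 (.tok (nat_lit 6) (nat_lit 0x5e0000bc00017f7bf2fe6615fe78abfbacd7f942afe017) (.hit (nat_lit 154) (nat_lit 7) (nat_lit 0x5e0000bc00017e029afd6835fac46bf53897eb1d2fcf8a) b32923 (.hit (nat_lit 155)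 (nat_lit 15) (nat_lit 0x5e0000bc00017f7bf2fe6615fe78abfbacd7f942afe017) b32924 (.nil))) (.tok (nat_lit 9) (nat_lit 0x5e0000bc00017f60fb00de5600df2bff5b980775aff20e) (.hit (nat_lit 156) (nat_lit 20) (nat_lit 0x5e0000bc00017f60fb00de5600df2bff5b980775aff20e) b32925 (.hit (nat_lit 157) (nat_lit 28) (nat_lit 0x5e0000bc00017f13bafeeb05fd75abf9a817f7a72fe031) b32926 (.nil))) (.nil))))) (.tok (nat_lit 68) (nat_lit 0x5e0000bc00017e74f2fd6525fabe4bf52c57eb04afcf59) (.hit (nat_lit 158) (nat_lit 0) (nat_lit 0x5e0000bc00017e74f2fd6525fabe4bf52c57eb04afcf59) b32927 (.one (nat_lit 3) (nat_lit 159) (nat_lit 1) (nat_lit 0x5e0000bc00017d055afb6db5f6cf6bed4e97db492fafe2) b32894 (.tok (nat_lit 6) (nat_lit 0x5e0000bc00017dc91afcf535f9de6bf36c97e7852fc85a) (.hit (nat_lit 160) (nat_lit 7) (nat_lit 0x5e0000bc00017daed2fcc0a5f9754bf29a57e5e0afc511) b32928 (.hit (nat_lit 161) (nat_lit 15) (nat_lit 0x5e0000bc00017dc91afcf535f9de6bf36c97e7852fc85a)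 b32929 (.nil))) (.tok (nat_lit 9) (nat_lit 0x5e0000bc00017d8df2fc7ee5f8f1cbf19357e3d2afc0f5) (.hit (nat_lit 162) (nat_lit 20) (nat_lit 0x5e0000bc00017d8df2fc7ee5f8f1cbf19357e3d2afc0f5) b32930 (.hit (nat_lit 163) (nat_lit 28) (nat_lit 0x5e0000bc00017d10cafb8495f6fd2bedaa17dc002fb150) b32931 (.nil))) (.nil))))) (.tok (nat_lit 71) (nat_lit 0x5e0000bc00017ec88afdce05fc1a2bf730d7f1daafd2bd) (.hit (nat_lit 164) (nat_lit 0) (nat_lit 0x5e0000bc00017ec88afdce05fc1a2bf730d7f1daafd2bd) b32932 (.one (nat_lit 3) (nat_lit 165) (nat_lit 1) (nat_lit 0x5e0000bc00017cae52fabfa5f5734bea9657d5d8afa501) b32933 (.tok (nat_lit 6) (nat_lit 0x5e0000bc00017dbcd2fcdca5f9ad4bf30a57e6c0afc6d1) (.hit (nat_lit 166) (nat_lit 7) (nat_lit 0x5e0000bc00017dbcd2fcdca5f9ad4bf30a57e6c0afc6d1) b32934 (.hit (nat_lit 167) (nat_lit 15) (nat_lit 0x5e0000bc00017d4f82fc0205f7f80bef9fd7dfebafb927) b32935 (.nil))) (.tok (nat_lit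 9) (nat_lit 0x5e0000bc00017db39afcca35f9886bf2c097e62d2fc5aa) (.hit (nat_lit 168) (nat_lit 20) (nat_lit 0x5e0000bc00017d9eeafca0d5f935abf21b17e4e22fc314) b32936 (.hit (nat_lit 169) (nat_lit 28) (nat_lit 0x5e0000bc00017db39afcca35f9886bf2c097e62d2fc5aa) b32937 (.nil))) (.nil))))) (.nil))))))))))))))))
noncomputable def r16_2 : Rw Blk := .tok (nat_lit 3) (nat_lit 0x5e0000bc00017f2fcafcec85fcbe2bf873d7e733afdbc7) (.hit (nat_lit 18) (nat_lit 0) (nat_lit 0x5e0000bc00017f2e32fcec85fcbe2bf873d7e733afdbc7) b32997 (.tok (nat_lit 6) (nat_lit 0x5e0000bc00017ee1d2fbfda5fb2acbf64297e2cfafcfb4) (.hit (nat_lit 19) (nat_lit 7) (nat_lit 0x5e0000bc00017e0e8afb5e15f893abf0a2d7d9fd2fbf61) b32998 (.hit (nat_lit 20) (nat_lit 15) (nat_lit 0x5e0000bc00017ee1d2fbfda5fb2acbf64297e2cfafcfb4) b32999 (.nil))) (.tok (nat_lit 9) (nat_lit 0x5e0000bc00017f2fcafc26d5fb6e0bf6e457e3fdafd732) (.hit (nat_lit 21)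 (nat_lit 20) (nat_lit 0x5e0000bc00017f2fcafc26d5fb6e0bf6e457e3fdafd732) b33000 (.hit (nat_lit 22) (nat_lit 28) (nat_lit 0x5e0000bc00017eaeaafbf575faccebf5a197e1752fcc89) b33001 (.nil))) (.nil)))) (.tok (nat_lit 6) (nat_lit 0x5e0000bc00017f01c2fd4485fca20bf7ffd7e930afd8ea) (.hit (nat_lit 0) (nat_lit 0) (nat_lit 0x5e0000bc00017f01c2fd4485fca20bf7ffd7e930afd6f2) b32983 (.tok (nat_lit 3) (nat_lit 0x5e0000bc00017ed64afcd0c5fbc4cbf70517e592afd8ea) (.hit (nat_lit 1) (nat_lit 1) (nat_lit 0x5e0000bc00017e2de2fb9cc5f8e70bf10797dbf2afc0f4) b32984 (.one (nat_lit 67) (nat_lit 2) (nat_lit 2) (nat_lit 0x5e0000bc00017ed64afcd0c5fbc4cbf70517e592afd8ea) b32985 (.nil))) (.tok (nat_lit 6) (nat_lit 0x5e0000bc00017e3742fbaf85f91e4bf1b817dc88afc3b6) (.hit (nat_lit 3) (nat_lit 7) (nat_lit 0x5e0000bc00017e2caafb53f5f91e4bf1b817dab52fc3b6) b32986 (.hit (nat_lit 7) (nat_lit 15) (nat_lit 0x5e0000bc00017e3742fbaf85f90c8bf09657dc88afbb8a)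 b32987 (.nil))) (.nil)))) (.tok (nat_lit 9) (nat_lit 0x5e0000bc0001814a430334660559cc0d379818d7302b22) (.hit (nat_lit 9) (nat_lit 0) (nat_lit 0x5e0000bc00017f2332fdf785fe3d8bfcaa17ee73afe7f0) b32988 (.tok (nat_lit 3) (nat_lit 0x5e0000bc000180b9a300f796022d8c06a0180795301641) (.hit (nat_lit 10) (nat_lit 1) (nat_lit 0x5e0000bc00017f0452fd81d5fd66ebf9aa97eae52fe0f5) b32989 (.one (nat_lit 55) (nat_lit 11) (nat_lit 3) (nat_lit 0x5e0000bc000180b9a300f796022d8c06a0180795301641) b32990 (.nil))) (.tok (nat_lit 9) (nat_lit 0x5e0000bc0001814a430334660559cc0d379818d7302b22) (.hit (nat_lit 12) (nat_lit 20) (nat_lit 0x5e0000bc000180218aff3ba601420c017557f8922fff1b) b32991 (.hit (nat_lit 16) (nat_lit 28) (nat_lit 0x5e0000bc00017f7202ff10c5fe1e0bfe5c17f760afe9eb) b32995 (.tok (nat_lit 67) (nat_lit 0x5e0000bc0001814a430334660559cc0d379818d7302b22) (.hit (nat_lit 13) (nat_lit 21) (nat_lit 0x5e0000bc000180c21b0070a6047d6c068298057eb014e7)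 b32992 (.hit (nat_lit 17) (nat_lit 29) (nat_lit 0x5e0000bc0001814a430334660559cc0d379818d7302b22) b32996 (.tok (nat_lit 9) (nat_lit 0x5e0000bc00018070db00e036030ccc07c8580613301320) (.hit (nat_lit 14) (nat_lit 22) (nat_lit 0x5e0000bc00018070db00e036030cac07c858061330114f) b32993 (.one (nat_lit 67) (nat_lit 15) (nat_lit 23) (nat_lit 0x5e0000bc0001804ecb00c7f6030ccc0785d805f4b01320) b32994 (.nil))) (.nil)))) (.nil)))) (.nil)))) (.nil)))
noncomputable def r16_3 : Rw Blk := .tok (nat_lit 3) (nat_lit 0xbc000178000300995601020c006a1802333006d1) (.hit (nat_lit 0) (nat_lit 0) (nat_lit 0xbc0001780002fe0af5fb252bf69ad7ec05afe27e) b33002 (.tok (nat_lit 6) (nat_lit 0xbc0001780002fd37c5fa4eebf68fd7e8fbafe252) (.hit (nat_lit 1) (nat_lit 7) (nat_lit 0xbc0001780002fc49d5f8730bf2d817e18c2fd373) b33003 (.hit (nat_lit 4) (nat_lit 15) (nat_lit 0xbc0001780002fc26a5f82cabf24b57e072afd140) b33004 (.one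 (nat_lit 68) (nat_lit 5) (nat_lit 18) (nat_lit 0xbc0001780002fd37c5fa4eebf68fd7e8fbafe252) b33005 (.nil)))) (.tok (nat_lit 52) (nat_lit 0xbc0001780002fdc525fb69abf8c557ed66afeb28) (.hit (nat_lit 7) (nat_lit 39) (nat_lit 0xbc0001780002fd3a65fa542bf69a57e910afe27c) b33006 (.hit (nat_lit 8) (nat_lit 40) (nat_lit 0xbc0001780002fdc525fb69abf8c557ed66afeb28) b33007 (.nil))) (.tok (nat_lit 55) (nat_lit 0xbc000178000300995601020c006a1802333006d1) (.hit (nat_lit 9) (nat_lit 41) (nat_lit 0xbc000178000300995601020c006a1802333006d1) b33008 (.one (nat_lit 3) (nat_lit 15) (nat_lit 47) (nat_lit 0xbc0001780002fd3a35fa53cbf69997e90f2fe279) b33011 (.tok (nat_lit 6) (nat_lit 0xbc0001780002fd9595fb0a8bf80717ebea2fe82f) (.hit (nat_lit 10) (nat_lit 42) (nat_lit 0xbc0001780002fd9595fb0a8bf80717ebea2fe82f) b33009 (.hit (nat_lit 13) (nat_lit 45) (nat_lit 0xbc0001780002fd12f5fa054bf5fc97e7d52fe005) b33010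 (.nil))) (.nil)))) (.one (nat_lit 58) (nat_lit 16) (nat_lit 49) (nat_lit 0xbc0001780002fd2e65fa3c2bf66a57e8b0afe1bc) b33012 (.nil)))))) (.tok (nat_lit 9) (nat_lit 0xbc0001780003024e4605daec0ac118166f302453) (.hit (nat_lit 17) (nat_lit 0) (nat_lit 0xbc00017800030017b5ff7c8bfef757fd4aaffd6d) b33013 (.tok (nat_lit 9) (nat_lit 0xbc0001780003008d460349cc0821980bbeb02173) (.hit (nat_lit 18) (nat_lit 20) (nat_lit 0xbc0001780002ffa7160058ec0104d80078affdac) b33014 (.hit (nat_lit 21) (nat_lit 28) (nat_lit 0xbc0001780002fd76e5faa9cbf68997e9742fcf67) b33017 (.one (nat_lit 56) (nat_lit 22) (nat_lit 31) (nat_lit 0xbc0001780002ffd265fe342bfde9d7f74aafee86) b33018 (.tok (nat_lit 68) (nat_lit 0xbc0001780003008d460349cc0821980bbeb02173) (.hit (nat_lit 19) (nat_lit 26) (nat_lit 0xbc0001780002ff05a60002ac002c98001cb002c5) b33015 (.hit (nat_lit 23) (nat_lit 32) (nat_lit 0xbc0001780002fe1aa5fcff2bfa8d17f2e0afdc5a)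 b33019 (.one (nat_lit 9) (nat_lit 20) (nat_lit 27) (nat_lit 0xbc0001780003008d460349cc0821980bbeb02173) b33016 (.nil)))) (.nil))))) (.tok (nat_lit 64) (nat_lit 0xbc0001780003020ad60133ac022e980430b00429) (.hit (nat_lit 24) (nat_lit 50) (nat_lit 0xbc0001780003004cd6001d0c007c97ff08afff42) b33020 (.hit (nat_lit 25) (nat_lit 51) (nat_lit 0xbc0001780003020ad60133ac022e980430b00429) b33021 (.nil))) (.tok (nat_lit 67) (nat_lit 0xbc0001780003024e4605daec0ac118166f302453) (.hit (nat_lit 26) (nat_lit 52) (nat_lit 0xbc0001780003024e4605daec0ac118166f302453) b33022 (.one (nat_lit 3) (nat_lit 32) (nat_lit 58) (nat_lit 0xbc000178000300eee6036c8c05d5180cd7300eb6) b33028 (.tok (nat_lit 9) (nat_lit 0xbc000178000301f8e6046a8c094cd810fcb01fe9) (.hit (nat_lit 27) (nat_lit 53) (nat_lit 0xbc0001780002ff5c56009aac014a9800352ffacb) b33023 (.hit (nat_lit 30) (nat_lit 56) (nat_lit 0xbc00017800030116e6039a8c0757980d23b00e16)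 b33026 (.tok (nat_lit 67) (nat_lit 0xbc000178000301f8e6046a8c094cd810fcb01fe9) (.hit (nat_lit 28) (nat_lit 54) (nat_lit 0xbc000178000301f8e6046a8c094cd810fcb01fe9) b33024 (.hit (nat_lit 31) (nat_lit 57) (nat_lit 0xbc0001780003005e8602696c04729808c2b0069c) b33027 (.one (nat_lit 9) (nat_lit 29) (nat_lit 55) (nat_lit 0xbc000178000301a296032b0c0773580a8db012db) b33025 (.nil)))) (.nil)))) (.nil)))) (.one (nat_lit 70) (nat_lit 33) (nat_lit 60) (nat_lit 0xbc00017800030113d600b8ec0025d800f7b00967) b33029 (.nil)))))) (.nil))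
noncomputable def r16_4 : Rw Blk := .tok (nat_lit 14) (nat_lit 0x5e0000bc00017eb842fecf0) (.hit (nat_lit 134) (nat_lit 0) (nat_lit 0x5e0000bc00017e613afdc73) b33042 (.one (nat_lit 3) (nat_lit 135) (nat_lit 1) (nat_lit 0x5e0000bc00017cf0a2fb3fc) b33043 (.tok (nat_lit 6) (nat_lit 0x5e0000bc00017eb842fecf0) (.hit (nat_lit 136) (nat_lit 7) (nat_lit 0x5e0000bc00017e623afe22f) b33044 (.hit (nat_lit 137) (nat_lit 15) (nat_lit 0x5e0000bc00017eb842fecf0) b33045 (.nil))) (.tok (nat_lit 9) (nat_lit 0x5e0000bc00017e4f92fdfda) (.hit (nat_lit 138) (nat_lit 20) (nat_lit 0x5e0000bc00017e143afd86f) b33046 (.hit (nat_lit 139) (nat_lit 28) (nat_lit 0x5e0000bc00017e4f92fdfda) b33047 (.nil))) (.nil))))) (.tok (nat_lit 17) (nat_lit 0x5e0000bc00017ee4baff254) (.hit (nat_lit 140) (nat_lit 0) (nat_lit 0x5e0000bc00017ee4bafdf3e) b33048 (.one (nat_lit 3) (nat_lit 141) (nat_lit 1) (nat_lit 0x5e0000bc00017d6bfafc367)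 b33049 (.tok (nat_lit 6) (nat_lit 0x5e0000bc00017e8bbafe75f) (.hit (nat_lit 142) (nat_lit 7) (nat_lit 0x5e0000bc00017e72dafe443) b33050 (.hit (nat_lit 143) (nat_lit 15) (nat_lit 0x5e0000bc00017e8bbafe75f) b33051 (.nil))) (.tok (nat_lit 9) (nat_lit 0x5e0000bc00017ee362ff254) (.hit (nat_lit 144) (nat_lit 20) (nat_lit 0x5e0000bc00017df34afd451) b33052 (.hit (nat_lit 145) (nat_lit 28) (nat_lit 0x5e0000bc00017ee362ff254) b33053 (.nil))) (.nil))))) (.tok (nat_lit 20) (nat_lit 0x5e0000bc00017f30a2ff30d) (.hit (nat_lit 128) (nat_lit 0) (nat_lit 0x5e0000bc00017f12e2fed2b) b33036 (.one (nat_lit 3) (nat_lit 129) (nat_lit 1) (nat_lit 0x5e0000bc00017ed7b2fe8c3) b33037 (.tok (nat_lit 6) (nat_lit 0x5e0000bc00017f30a2ff30d) (.hit (nat_lit 130) (nat_lit 7) (nat_lit 0x5e0000bc00017e6422fe26c) b33038 (.hit (nat_lit 131) (nat_lit 15) (nat_lit 0x5e0000bc00017f30a2ff30d) b33039 (.nil))) (.tok (nat_lit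 9) (nat_lit 0x5e0000bc00017efffaff266) (.hit (nat_lit 132) (nat_lit 20) (nat_lit 0x5e0000bc00017ef7baff0ca) b33040 (.hit (nat_lit 133) (nat_lit 28) (nat_lit 0x5e0000bc00017efffaff266) b33041 (.nil))) (.nil))))) (.tok (nat_lit 23) (nat_lit 0x5e0000bc00017f425aff30d) (.hit (nat_lit 122) (nat_lit 0) (nat_lit 0x5e0000bc00017f1702febb7) b33030 (.one (nat_lit 3) (nat_lit 123) (nat_lit 1) (nat_lit 0x5e0000bc00017e979afe6d2) b33031 (.tok (nat_lit 6) (nat_lit 0x5e0000bc00017f2b3aff30d) (.hit (nat_lit 124) (nat_lit 7) (nat_lit 0x5e0000bc00017f1e12fee36) b33032 (.hit (nat_lit 125) (nat_lit 15) (nat_lit 0x5e0000bc00017f2b3aff30d) b33033 (.nil))) (.tok (nat_lit 9) (nat_lit 0x5e0000bc00017f425afefda) (.hit (nat_lit 126) (nat_lit 20) (nat_lit 0x5e0000bc00017e3f22fddcc) b33034 (.hit (nat_lit 127) (nat_lit 28) (nat_lit 0x5e0000bc00017f425afefda) b33035 (.nil))) (.nil))))) (.tok (nat_lit 26) (nat_lit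 0x5e0000bc00017f539afe80a) (.hit (nat_lit 215) (nat_lit 0) (nat_lit 0x5e0000bc00017f539afe5d6) b33077 (.one (nat_lit 3) (nat_lit 216) (nat_lit 1) (nat_lit 0x5e0000bc00017daf2afcbcd) b33078 (.tok (nat_lit 6) (nat_lit 0x5e0000bc00017e9112fe80a) (.hit (nat_lit 217) (nat_lit 7) (nat_lit 0x5e0000bc00017ddc8afd179) b33079 (.hit (nat_lit 218) (nat_lit 15) (nat_lit 0x5e0000bc00017e9112fe80a) b33080 (.nil))) (.tok (nat_lit 9) (nat_lit 0x5e0000bc00017e7892fe4fa) (.hit (nat_lit 219) (nat_lit 20) (nat_lit 0x5e0000bc00017e7892fe4fa) b33081 (.hit (nat_lit 220) (nat_lit 28) (nat_lit 0x5e0000bc00017e05eafd6a5) b33082 (.nil))) (.nil))))) (.tok (nat_lit 29) (nat_lit 0x5e0000bc00017eb072feb96) (.hit (nat_lit 221) (nat_lit 0) (nat_lit 0x5e0000bc00017eb072fe823) b33083 (.one (nat_lit 3) (nat_lit 222) (nat_lit 1) (nat_lit 0x5e0000bc00017d963afc8af) b33084 (.tok (nat_lit 6) (nat_lit 0x5e0000bc00017ea412fea6a)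 (.hit (nat_lit 223) (nat_lit 7) (nat_lit 0x5e0000bc00017e30bafdbff) b33085 (.hit (nat_lit 224) (nat_lit 15) (nat_lit 0x5e0000bc00017ea412fea6a) b33086 (.nil))) (.tok (nat_lit 9) (nat_lit 0x5e0000bc00017ead72feb96) (.hit (nat_lit 225) (nat_lit 20) (nat_lit 0x5e0000bc00017e653afe28f) b33087 (.hit (nat_lit 226) (nat_lit 28) (nat_lit 0x5e0000bc00017ead72feb96) b33088 (.nil))) (.nil))))) (.tok (nat_lit 32) (nat_lit 0x5e0000bc00017ed1daff023) (.hit (nat_lit 233) (nat_lit 0) (nat_lit 0x5e0000bc00017ed1daff023) b33094 (.one (nat_lit 3) (nat_lit 234) (nat_lit 1) (nat_lit 0x5e0000bc00017d8a02fc728) b33067 (.tok (nat_lit 6) (nat_lit 0x5e0000bc00017e9c7afe977) (.hit (nat_lit 235) (nat_lit 7) (nat_lit 0x5e0000bc00017e619afe21b) b33095 (.hit (nat_lit 236) (nat_lit 15) (nat_lit 0x5e0000bc00017e9c7afe977) b33096 (.nil))) (.tok (nat_lit 9) (nat_lit 0x5e0000bc00017e48c2fdf00) (.hit (nat_lit 237)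 (nat_lit 20) (nat_lit 0x5e0000bc00017e48c2fdf00) b33097 (.hit (nat_lit 238) (nat_lit 28) (nat_lit 0x5e0000bc00017d9f52fc9d2) b33098 (.nil))) (.nil))))) (.tok (nat_lit 35) (nat_lit 0x5e0000bc00017eede2feb8b) (.hit (nat_lit 227) (nat_lit 0) (nat_lit 0x5e0000bc00017eede2fdb24) b33089 (.one (nat_lit 3) (nat_lit 228) (nat_lit 1) (nat_lit 0x5e0000bc00017d8a02fc728) b33067 (.tok (nat_lit 6) (nat_lit 0x5e0000bc00017e63bafe25f) (.hit (nat_lit 229) (nat_lit 7) (nat_lit 0x5e0000bc00017e63bafe25f) b33090 (.hit (nat_lit 230) (nat_lit 15) (nat_lit 0x5e0000bc00017dab92fcb5a) b33091 (.nil))) (.tok (nat_lit 9) (nat_lit 0x5e0000bc00017ead1afeb8b) (.hit (nat_lit 231) (nat_lit 20) (nat_lit 0x5e0000bc00017ddc32fd16e) b33092 (.hit (nat_lit 232) (nat_lit 28) (nat_lit 0x5e0000bc00017ead1afeb8b) b33093 (.nil))) (.nil))))) (.tok (nat_lit 38) (nat_lit 0x5e0000bc00017f697afe93a) (.hit (nat_lit 239) (nat_lit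 0) (nat_lit 0x5e0000bc00017f697afe93a) b33099 (.one (nat_lit 3) (nat_lit 240) (nat_lit 1) (nat_lit 0x5e0000bc00017d8b72fc756) b33100 (.tok (nat_lit 6) (nat_lit 0x5e0000bc00017de93afd30f) (.hit (nat_lit 241) (nat_lit 7) (nat_lit 0x5e0000bc00017de93afd30f) b33101 (.hit (nat_lit 242) (nat_lit 15) (nat_lit 0x5e0000bc00017dce7afcfb7) b33102 (.nil))) (.tok (nat_lit 9) (nat_lit 0x5e0000bc00017e6452fe272) (.hit (nat_lit 243) (nat_lit 20) (nat_lit 0x5e0000bc00017e6452fe272) b33068 (.hit (nat_lit 244) (nat_lit 28) (nat_lit 0x5e0000bc00017dce5afcfb3) b33103 (.nil))) (.nil))))) (.tok (nat_lit 41) (nat_lit 0x5e0000bc00017f6682ff30e) (.hit (nat_lit 250) (nat_lit 0) (nat_lit 0x5e0000bc00017f3302fe386) b33104 (.one (nat_lit 3) (nat_lit 251) (nat_lit 1) (nat_lit 0x5e0000bc00017ed5aafd949) b33105 (.tok (nat_lit 6) (nat_lit 0x5e0000bc00017f54c2ff26f) (.hit (nat_lit 252) (nat_lit 7) (nat_lit 0x5e0000bc00017f54c2ff182)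 b33106 (.hit (nat_lit 253) (nat_lit 15) (nat_lit 0x5e0000bc00017f2832ff26f) b33107 (.nil))) (.tok (nat_lit 9) (nat_lit 0x5e0000bc00017f6682ff30e) (.hit (nat_lit 254) (nat_lit 20) (nat_lit 0x5e0000bc00017f6682ff30e) b33108 (.hit (nat_lit 255) (nat_lit 28) (nat_lit 0x5e0000bc00017f361afea47) b33109 (.nil))) (.nil))))) (.tok (nat_lit 44) (nat_lit 0x5e0000bc00017fc34aff7aa) (.hit (nat_lit 278) (nat_lit 0) (nat_lit 0x5e0000bc00017fc34afed8a) b33116 (.one (nat_lit 3) (nat_lit 279) (nat_lit 1) (nat_lit 0x5e0000bc00017e6a3afcbe1) b33117 (.tok (nat_lit 6) (nat_lit 0x5e0000bc00017f7feaff231) (.hit (nat_lit 280) (nat_lit 7) (nat_lit 0x5e0000bc00017f7feaff231) b33118 (.hit (nat_lit 281) (nat_lit 15) (nat_lit 0x5e0000bc00017ef8eafde10) b33119 (.nil))) (.tok (nat_lit 9) (nat_lit 0x5e0000bc00017f68b2ff7aa) (.hit (nat_lit 282) (nat_lit 20) (nat_lit 0x5e0000bc00017f68b2ff7aa) b33120 (.hit (nat_lit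 283) (nat_lit 28) (nat_lit 0x5e0000bc00017f0f42fefde) b33121 (.nil))) (.nil))))) (.tok (nat_lit 47) (nat_lit 0x5e0000bc000180000300789) (.hit (nat_lit 264) (nat_lit 0) (nat_lit 0x5e0000bc00017fd7e30065e) b33110 (.one (nat_lit 3) (nat_lit 265) (nat_lit 1) (nat_lit 0x5e0000bc00017ebf52fd67e) b33111 (.tok (nat_lit 6) (nat_lit 0x5e0000bc000180000300789) (.hit (nat_lit 266) (nat_lit 7) (nat_lit 0x5e0000bc000180000300789) b33112 (.hit (nat_lit 267) (nat_lit 15) (nat_lit 0x5e0000bc00017f0d82fe11a) b33113 (.nil))) (.tok (nat_lit 9) (nat_lit 0x5e0000bc00017f9262feecc) (.hit (nat_lit 268) (nat_lit 20) (nat_lit 0x5e0000bc00017f9262feecc) b33114 (.hit (nat_lit 269) (nat_lit 28) (nat_lit 0x5e0000bc00017ee182fdae7) b33115 (.nil))) (.nil))))) (.tok (nat_lit 62) (nat_lit 0x5e0000bc00017ec322fdd74) (.hit (nat_lit 146) (nat_lit 0) (nat_lit 0x5e0000bc00017ec322fd8fa) b33054 (.one (nat_lit 3) (nat_lit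 147) (nat_lit 1) (nat_lit 0x5e0000bc00017d8ca2fc77c) b33055 (.tok (nat_lit 6) (nat_lit 0x5e0000bc00017ddb4afd151) (.hit (nat_lit 148) (nat_lit 7) (nat_lit 0x5e0000bc00017ddb4afd151) b33056 (.hit (nat_lit 149) (nat_lit 15) (nat_lit 0x5e0000bc00017dbb6afcd55) b33057 (.nil))) (.tok (nat_lit 9) (nat_lit 0x5e0000bc00017e3c62fdd74) (.hit (nat_lit 150) (nat_lit 20) (nat_lit 0x5e0000bc00017e3c62fdd74) b33058 (.hit (nat_lit 151) (nat_lit 28) (nat_lit 0x5e0000bc00017dccfafcf87) b33059 (.nil))) (.nil))))) (.tok (nat_lit 65) (nat_lit 0x5e0000bc00017f1f6aff138) (.hit (nat_lit 152) (nat_lit 0) (nat_lit 0x5e0000bc00017efd5afe101) b33060 (.one (nat_lit 3) (nat_lit 153) (nat_lit 1) (nat_lit 0x5e0000bc00017ececafd8b6) b33061 (.tok (nat_lit 6) (nat_lit 0x5e0000bc00017f0192fe969) (.hit (nat_lit 154) (nat_lit 7) (nat_lit 0x5e0000bc00017e9c0afe969) b33062 (.hit (nat_lit 155) (nat_lit 15) (nat_lit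 0x5e0000bc00017f0192fdfda) b33063 (.nil))) (.tok (nat_lit 9) (nat_lit 0x5e0000bc00017f1f6aff138) (.hit (nat_lit 156) (nat_lit 20) (nat_lit 0x5e0000bc00017f1f6afe772) b33064 (.hit (nat_lit 157) (nat_lit 28) (nat_lit 0x5e0000bc00017f133aff138) b33065 (.nil))) (.nil))))) (.tok (nat_lit 68) (nat_lit 0x5e0000bc00017eab52feb52) (.hit (nat_lit 158) (nat_lit 0) (nat_lit 0x5e0000bc00017e955afe332) b33066 (.one (nat_lit 3) (nat_lit 159) (nat_lit 1) (nat_lit 0x5e0000bc00017d8a02fc728) b33067 (.tok (nat_lit 6) (nat_lit 0x5e0000bc00017eab52feb52) (.hit (nat_lit 160) (nat_lit 7) (nat_lit 0x5e0000bc00017e6452fe272) b33068 (.hit (nat_lit 161) (nat_lit 15) (nat_lit 0x5e0000bc00017eab52feb52) b33069 (.nil))) (.tok (nat_lit 9) (nat_lit 0x5e0000bc00017e46aafdebd) (.hit (nat_lit 162) (nat_lit 20) (nat_lit 0x5e0000bc00017e46aafdebd) b33070 (.hit (nat_lit 163) (nat_lit 28) (nat_lit 0x5e0000bc00017d9572fc896)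 b33071 (.nil))) (.nil))))) (.tok (nat_lit 71) (nat_lit 0x5e0000bc00017eef9afe073) (.hit (nat_lit 164) (nat_lit 0) (nat_lit 0x5e0000bc00017eef9afe067) b33072 (.one (nat_lit 3) (nat_lit 165) (nat_lit 1) (nat_lit 0x5e0000bc00017d8a02fc728) b33067 (.tok (nat_lit 6) (nat_lit 0x5e0000bc00017e3892fdcfa) (.hit (nat_lit 166) (nat_lit 7) (nat_lit 0x5e0000bc00017e3892fdcfa) b33073 (.hit (nat_lit 167) (nat_lit 15) (nat_lit 0x5e0000bc00017dd70afd0c9) b33074 (.nil))) (.tok (nat_lit 9) (nat_lit 0x5e0000bc00017e545afe073) (.hit (nat_lit 168) (nat_lit 20) (nat_lit 0x5e0000bc00017e2ebafdbbf) b33075 (.hit (nat_lit 169) (nat_lit 28) (nat_lit 0x5e0000bc00017e545afe073) b33076 (.nil))) (.nil))))) (.nil))))))))))))))))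
noncomputable def r16_5 : Rw Blk := .tok (nat_lit 3) (nat_lit 0x5e0000bc00017f36eafea85) (.hit (nat_lit 18) (nat_lit 0) (nat_lit 0x5e0000bc00017f36eafea85) b33136 (.tok (nat_lit 6) (nat_lit 0x5e0000bc00017eb33afde05) (.hit (nat_lit 19) (nat_lit 7) (nat_lit 0x5e0000bc00017eb33afde05) b33137 (.hit (nat_lit 20) (nat_lit 15) (nat_lit 0x5e0000bc00017ea9fafdcdd) b33138 (.nil))) (.tok (nat_lit 9) (nat_lit 0x5e0000bc00017ed902fe2be) (.hit (nat_lit 21) (nat_lit 20) (nat_lit 0x5e0000bc00017eb64afde67) b33139 (.hit (nat_lit 22) (nat_lit 28) (nat_lit 0x5e0000bc00017ed902fe2be) b33140 (.nil))) (.nil)))) (.tok (nat_lit 6) (nat_lit 0x5e0000bc00017fb892ff056) (.hit (nat_lit 0) (nat_lit 0) (nat_lit 0x5e0000bc00017f8a9aff056) b33122 (.tok (nat_lit 3) (nat_lit 0x5e0000bc00017fb892feeae) (.hit (nat_lit 1) (nat_lit 1) (nat_lit 0x5e0000bc00017ed192fdcc2) b33123 (.one (nat_lit 67) (nat_lit 2) (nat_lit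 2) (nat_lit 0x5e0000bc00017fb892feeae) b33124 (.nil))) (.tok (nat_lit 6) (nat_lit 0x5e0000bc00017f9e32fe9fd) (.hit (nat_lit 3) (nat_lit 7) (nat_lit 0x5e0000bc00017f9e32fe57d) b33125 (.hit (nat_lit 7) (nat_lit 15) (nat_lit 0x5e0000bc00017f12fafe9fd) b33126 (.nil))) (.nil)))) (.tok (nat_lit 9) (nat_lit 0x5e0000bc000180000300000) (.hit (nat_lit 9) (nat_lit 0) (nat_lit 0x5e0000bc00017f3782ff045) b33127 (.tok (nat_lit 3) (nat_lit 0x5e0000bc00017f9442ff92a) (.hit (nat_lit 10) (nat_lit 1) (nat_lit 0x5e0000bc00017f0bcafe444) b33128 (.one (nat_lit 55) (nat_lit 11) (nat_lit 3) (nat_lit 0x5e0000bc00017f9442ff92a) b33129 (.nil))) (.tok (nat_lit 9) (nat_lit 0x5e0000bc000180000300000) (.hit (nat_lit 12) (nat_lit 20) (nat_lit 0x5e0000bc00017ed802fdeeb) b33130 (.hit (nat_lit 16) (nat_lit 28) (nat_lit 0x5e0000bc00017f0cb2fe6df) b33134 (.tok (nat_lit 67) (nat_lit 0x5e0000bc000180000300000) (.hit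 (nat_lit 13) (nat_lit 21) (nat_lit 0x5e0000bc00017ffac2ff363) b33131 (.hit (nat_lit 17) (nat_lit 29) (nat_lit 0x5e0000bc00017fe51b00000) b33135 (.tok (nat_lit 9) (nat_lit 0x5e0000bc0001800002ffb44) (.hit (nat_lit 14) (nat_lit 22) (nat_lit 0x5e0000bc00017fba5aff533) b33132 (.one (nat_lit 67) (nat_lit 15) (nat_lit 23) (nat_lit 0x5e0000bc0001800002ffb44) b33133 (.nil))) (.nil)))) (.nil)))) (.nil)))) (.nil)))
noncomputable def r16_6 : Rw Blk := .tok (nat_lit 3) (nat_lit 0x5e0000bc00017e9ba2fe17d) (.hit (nat_lit 14) (nat_lit 0) (nat_lit 0x5e0000bc00017e9ba2fe17d) b33155 (.tok (nat_lit 6) (nat_lit 0x5e0000bc00017dd4e2fc0f4) (.hit (nat_lit 15) (nat_lit 7) (nat_lit 0x5e0000bc00017da96afbb85) b33156 (.hit (nat_lit 16) (nat_lit 15) (nat_lit 0x5e0000bc00017dd4e2fc0f4) b33157 (.nil))) (.tok (nat_lit 9) (nat_lit 0x5e0000bc00017e269afcb2b) (.hit (nat_lit 17) (nat_lit 20) (nat_lit 0x5e0000bc00017e269afcb2b)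 b33158 (.hit (nat_lit 18) (nat_lit 28) (nat_lit 0x5e0000bc00017e0b32fc7be) b33159 (.nil))) (.nil)))) (.tok (nat_lit 6) (nat_lit 0x5e0000bc00017f0a3afeeef) (.hit (nat_lit 0) (nat_lit 0) (nat_lit 0x5e0000bc00017f0a3afeeef) b33141 (.tok (nat_lit 3) (nat_lit 0x5e0000bc00017eac5afdbe3) (.hit (nat_lit 1) (nat_lit 1) (nat_lit 0x5e0000bc00017e1732fc93e) b33142 (.one (nat_lit 67) (nat_lit 2) (nat_lit 2) (nat_lit 0x5e0000bc00017eac5afdbe3) b33143 (.nil))) (.tok (nat_lit 6) (nat_lit 0x5e0000bc00017f0432fe6de) (.hit (nat_lit 3) (nat_lit 7) (nat_lit 0x5e0000bc00017df382fc4c8) b33144 (.hit (nat_lit 7) (nat_lit 15) (nat_lit 0x5e0000bc00017e1e62fca24) b33148 (.tok (nat_lit 55) (nat_lit 0x5e0000bc00017f0432fe6de) (.hit (nat_lit 4) (nat_lit 8) (nat_lit 0x5e0000bc00017eae92fdc2a) b33145 (.hit (nat_lit 8) (nat_lit 16) (nat_lit 0x5e0000bc00017f0432fe6de) b33149 (.tok (nat_lit 6) (nat_lit 0x5e0000bc00017f004afe661)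 (.hit (nat_lit 5) (nat_lit 9) (nat_lit 0x5e0000bc00017e842afd6dd) b33146 (.one (nat_lit 55) (nat_lit 6) (nat_lit 10) (nat_lit 0x5e0000bc00017f004afe661) b33147 (.nil))) (.nil)))) (.nil)))) (.nil)))) (.tok (nat_lit 9) (nat_lit 0x5e0000bc0001800003002b0) (.hit (nat_lit 9) (nat_lit 0) (nat_lit 0x5e0000bc00017f3d9afe958) b33150 (.tok (nat_lit 3) (nat_lit 0x5e0000bc0001800003002b0) (.hit (nat_lit 10) (nat_lit 1) (nat_lit 0x5e0000bc00017f3eaaff063) b33151 (.one (nat_lit 55) (nat_lit 11) (nat_lit 3) (nat_lit 0x5e0000bc0001800003002b0) b33152 (.nil))) (.tok (nat_lit 9) (nat_lit 0x5e0000bc00017f93d2ff2f7) (.hit (nat_lit 12) (nat_lit 20) (nat_lit 0x5e0000bc00017f93d2ff2f7) b33153 (.hit (nat_lit 13) (nat_lit 28) (nat_lit 0x5e0000bc00017efb02ff1ff) b33154 (.nil))) (.nil)))) (.nil)))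
noncomputable def r16_7 : Rw Blk := .tok (nat_lit 6) (nat_lit 0x5e0000bc00018137d303bdb) (.hit (nat_lit 10) (nat_lit 0) (nat_lit 0x5e0000bc0001802bfb011b4) b33164 (.tok (nat_lit 3) (nat_lit 0x5e0000bc00017f74eaff433) (.hit (nat_lit 11) (nat_lit 1) (nat_lit 0x5e0000bc00017edb72fdc40) b33165 (.one (nat_lit 14) (nat_lit 12) (nat_lit 4) (nat_lit 0x5e0000bc00017f74eafebe2) b33166 (.one (nat_lit 56) (nat_lit 13) (nat_lit 6) (nat_lit 0x5e0000bc00017f5d62ff433) b33167 (.nil)))) (.tok (nat_lit 40) (nat_lit 0x5e0000bc00017f4302fee0f) (.hit (nat_lit 14) (nat_lit 33) (nat_lit 0x5e0000bc00017f4302fec60) b33168 (.hit (nat_lit 15) (nat_lit 34) (nat_lit 0x5e0000bc00017f3642fee0f) b33169 (.nil))) (.tok (nat_lit 43) (nat_lit 0x5e0000bc00018137d303bdb) (.hit (nat_lit 16) (nat_lit 35) (nat_lit 0x5e0000bc00018137d303bdb) b33170 (.hit (nat_lit 17) (nat_lit 36) (nat_lit 0x5e0000bc00017ebb42fee8d) b33171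 (.nil))) (.tok (nat_lit 46) (nat_lit 0x5e0000bc00017fcf8300730) (.hit (nat_lit 18) (nat_lit 37) (nat_lit 0x5e0000bc00017ec0dafe964) b33172 (.hit (nat_lit 19) (nat_lit 38) (nat_lit 0x5e0000bc00017fcf8300730) b33173 (.nil))) (.nil)))))) (.tok (nat_lit 9) (nat_lit 0x5e0000bc00017fcab2ff49c) (.hit (nat_lit 0) (nat_lit 0) (nat_lit 0x5e0000bc00017fcab2ff49c) b33160 (.tok (nat_lit 3) (nat_lit 0x5e0000bc00017e7712fe02b) (.hit (nat_lit 1) (nat_lit 1) (nat_lit 0x5e0000bc00017d8f72fc337) b33161 (.one (nat_lit 14) (nat_lit 2) (nat_lit 4) (nat_lit 0x5e0000bc00017e579afdc3c) b33162 (.one (nat_lit 68) (nat_lit 3) (nat_lit 5) (nat_lit 0x5e0000bc00017e7712fe02b) b33163 (.nil)))) (.nil))) (.nil))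
noncomputable def r16_8 : Rw Blk := .tok (nat_lit 6) (nat_lit 0x5e0000bc00017fc76b008bf) (.hit (nat_lit 10) (nat_lit 0) (nat_lit 0x5e0000bc00017f0c0affc99) b33178 (.tok (nat_lit 3) (nat_lit 0x5e0000bc00017f560aff0ba) (.hit (nat_lit 11) (nat_lit 1) (nat_lit 0x5e0000bc00017e5582fd1f5) b33179 (.one (nat_lit 14) (nat_lit 12) (nat_lit 4) (nat_lit 0x5e0000bc00017f560afebb8) b33180 (.one (nat_lit 56) (nat_lit 13) (nat_lit 6) (nat_lit 0x5e0000bc00017f04f2ff0ba) b33181 (.nil)))) (.tok (nat_lit 40) (nat_lit 0x5e0000bc00017f1692ff3c9) (.hit (nat_lit 14) (nat_lit 33) (nat_lit 0x5e0000bc00017f1692ff3c9) b33182 (.hit (nat_lit 15) (nat_lit 34) (nat_lit 0x5e0000bc00017ee66afea3a) b33183 (.nil))) (.tok (nat_lit 43) (nat_lit 0x5e0000bc00017fc76b008bf) (.hit (nat_lit 16) (nat_lit 35) (nat_lit 0x5e0000bc00017fc76b008bf) b33184 (.hit (nat_lit 17) (nat_lit 36) (nat_lit 0x5e0000bc00017ec0daff160) b33185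 (.nil))) (.tok (nat_lit 46) (nat_lit 0x5e0000bc00017fa40300179) (.hit (nat_lit 18) (nat_lit 37) (nat_lit 0x5e0000bc00017e85eafebb6) b33186 (.hit (nat_lit 19) (nat_lit 38) (nat_lit 0x5e0000bc00017fa40300179) b33187 (.nil))) (.nil)))))) (.tok (nat_lit 9) (nat_lit 0x5e0000bc0001800003009e1) (.hit (nat_lit 0) (nat_lit 0) (nat_lit 0x5e0000bc00017fc822fffff) b33174 (.tok (nat_lit 3) (nat_lit 0x5e0000bc0001800003009e1) (.hit (nat_lit 1) (nat_lit 1) (nat_lit 0x5e0000bc00017e894afdccd) b33175 (.one (nat_lit 14) (nat_lit 2) (nat_lit 4) (nat_lit 0x5e0000bc0001800003009e1) b33176 (.one (nat_lit 68) (nat_lit 3) (nat_lit 5) (nat_lit 0x5e0000bc00017f50aaff6d8) b33177 (.nil)))) (.nil))) (.nil))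
noncomputable def r16_9 : Rw Blk := .tok (nat_lit 3) (nat_lit 0x601a8cc0209980a4faffc7a6007c4c044e18048d30090f6018bec04e2980d1f3016c8603a4cc070c181076301699) (.hit (nat_lit 15) (nat_lit 0) (nat_lit 0x5fc256bfa0017fa2bafdc115fbf0abfaf817f8feaff32d5feadebfcd0d7f02a2fe8925fc6aabf9de97ebc22ff2e9) b33195 (.tok (nat_lit 9) (nat_lit 0x5fc4aebfa5157fcb52fdaa95fbafebfef8d7ee0bafdd715fb70cbf744d7f797afea305fe280bfc7857fb042fed02) (.hit (nat_lit 16) (nat_lit 20) (nat_lit 0x5f8db2bf58bd7ec79afbf2b5f8402bf6fa97e04cafc1f35f8010bf06557e6e02fd7565fadeebf6b317e7b0afcdc6) b33196 (.hit (nat_lit 21) (nat_lit 28) (nat_lit 0x5f56c0bf25817e4822fa3b25f4d10bf57797d2902fa67a5f491ebe98717d367afb5255f68a6bee2497d38cafc91a) b33201 (.tok (nat_lit 14) (nat_lit 0x5fad1ebfa5157fcb52fcee15fa36ebfdd857e827afd1a95f9f7cbf452d7f797afe5655fe280bfc7857fb042fed02) (.hit (nat_lit 17) (nat_lit 24) (nat_lit 0x5fa842bf80ed7f5dd2fcc735f9e92bfb3e97e6f0afcf3b5f9aa0bf3b757e9baafe28f5fc776bfa3917ed9aafdde6)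 b33197 (.hit (nat_lit 22) (nat_lit 30) (nat_lit 0x5fa780bf95857f2c72fcc125f9dd0bfc2cd7e6c02fceda5f99debf39f17e22b2fd8885fafb8bf70717e36f2fe8a3) b33202 (.one (nat_lit 6) (nat_lit 18) (nat_lit 25) (nat_lit 0x5fad1ebfa5157fcb52fcee15fa36ebfdd857e827afd1a95f9f7cbf452d7f797afe5655fe280bfc7857fb042fed02) b33198 (.nil)))) (.tok (nat_lit 68) (nat_lit 0x5fc4aebf82417fcb22fdaa95fbafebfef8d7ee0bafdd715fb70cbf744d7f2b82fea305fd2bebfb6797f260afe454) (.hit (nat_lit 19) (nat_lit 26) (nat_lit 0x5f9e52bf74e97efe62fc77b5f94a2bf9bb17e474afca435f90b0bf27957e4332fd51a5fae34bf6b517e71d2fd083) b33199 (.hit (nat_lit 24) (nat_lit 32) (nat_lit 0x5f985abf5cc17ec762fc47f5f8eaabf81a57e2f6afc7475f8ab8bf1ba57df752fd58d5fa968bf64097e1df2fd7ff) b33203 (.one (nat_lit 9) (nat_lit 20) (nat_lit 27) (nat_lit 0x5fc4aebf82417fcb22fdaa95fbafebfef8d7ee0bafdd715fb70cbf744d7f2b82fea305fd2bebfb6797f260afe454) b33200 (.nil))))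 (.nil))))) (.tok (nat_lit 64) (nat_lit 0x5fb846bfba4d7f8852fd4755fae96bfbb857eaf1afd73d5faaa4bf5b7d7ed4fafeb265fd4b4bfba617eefbafec0f) (.hit (nat_lit 25) (nat_lit 50) (nat_lit 0x5fb44abf67bd7f1ccafd2775faa9abf85517e9f2afd53f5fa6a8bf53857e986afea835fd404bfb8117ec9e2fe48b) b33204 (.hit (nat_lit 26) (nat_lit 51) (nat_lit 0x5fb846bfba4d7f8852fd4755fae96bfbb857eaf1afd73d5faaa4bf5b7d7ed4fafeb265fd4b4bfba617eefbafec0f) b33205 (.nil))) (.tok (nat_lit 67) (nat_lit 0x601a8cc0209980a4faffc7a6007c4c044e18048d30090f6018bec04e2980d1f3016c8603a4cc070c181076301699) (.hit (nat_lit 27) (nat_lit 52) (nat_lit 0x601a8cc0209980a2caffc7a6007c4c044e18048d30090f6018bec04e297fecdb010e5603a4cc066e980246301460) b33206 (.tok (nat_lit 3) (nat_lit 0x5fd38ebfde25804b9afe2195fc9dec00a657f1c3afe4e15fc5ecbf920d7fa3eaff6956000c4c003997fdf9b00616) (.hit (nat_lit 33) (nat_lit 58) (nat_lit 0x5fc89ebfaae1801d32fdca15fbeeebfe3dd7ef07afdf695fbafcbf7c2d7f0b92ff6605feb4cbfe8697f4c12ff187)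 b33212 (.one (nat_lit 55) (nat_lit 34) (nat_lit 59) (nat_lit 0x5fd38ebfde25804b9afe2195fc9dec00a657f1c3afe4e15fc5ecbf920d7fa3eaff6956000c4c003997fdf9b00616) b33213 (.nil))) (.tok (nat_lit 9) (nat_lit 0x5fc6dabfd22180a4fafdbbf5fbd2ac00df17ee96afde875fb938bf78a580d1f3016c860398ec070c181076301699) (.hit (nat_lit 28) (nat_lit 53) (nat_lit 0x5fbb40bf88a97fb072fd5f25fb190bfbf9d7ebb02fd8ba5fad9ebf61717f25a2ff9a25ffa68c004997f4d3aff7f2) b33207 (.hit (nat_lit 31) (nat_lit 56) (nat_lit 0x5fc490bfb8bd7fda82fda9a5fbae0bfe0c17ee042fdd625fb6eebf74117f390aff9785ff884bff63d7f6c6aff10b) b33210 (.tok (nat_lit 67) (nat_lit 0x5fc6dabfd22180a4fafdbbf5fbd2ac00df17ee96afde875fb938bf78a580d1f3016c860398ec070c181076301699) (.hit (nat_lit 29) (nat_lit 54) (nat_lit 0x5fc1aabf98017ff36afd9275fb7fabfecc57ed4aafdbef5fb408bf6e457f53cb0018a600dc2c02c7d7f7c4300622) b33208 (.hit (nat_lit 32) (nat_lit 57) (nat_lit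 0x5fc6dabfd22180a4fafdbbf5fbd2ac00df17ee96afde875fb938bf78a580d1f3016c860398ec070c181076301699) b33211 (.one (nat_lit 9) (nat_lit 30) (nat_lit 55) (nat_lit 0x5fb3d2bf73c17fd032fd23b5faa22bfaab57e9d4afd5035fa630bf52957fa57300877601e98c0477d7fbc130096c) b33209 (.nil)))) (.nil)))) (.nil)))) (.one (nat_lit 70) (nat_lit 35) (nat_lit 60) (nat_lit 0x5fbed8bfc6357f904afd7be5fb528bfc2597ec962fda865fb136bf68a17f1cdaff2c45fe456bfd9b97f07f2ffa91) b33214 (.nil)))))) (.tok (nat_lit 6) (nat_lit 0x602406c064d180f73301edc603702c0785d80a643018cd602c8ac065b5816d9b034c0604566c0a6f58105db027df) (.hit (nat_lit 0) (nat_lit 0) (nat_lit 0x5ffe46c064d180b42affa8a600dd4c0785d8080ab0100d6023e2c04ed57f9412ff5295fe3d8bfd7217f2e7b00f70) b33188 (.tok (nat_lit 6) (nat_lit 0x602406c0523180f73301edc603702c0626580a643018cd602c8ac065b5816d9b034c0604566c0a6f58105db027df) (.hit (nat_lit 1) (nat_lit 7) (nat_lit 0x5fedcabf5d917f082b007fd5ffd56bfcbd57f709afef1e5feb6cbfcd557ebb82fe65d5fac60bf64857e899aff299)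 b33189 (.hit (nat_lit 4) (nat_lit 15) (nat_lit 0x5fa1b6bf65ed7ef03afcea95fb79abf9d457f2332fe45e5fc780bf94817dd6d2fc5b55f8a16bf248d7db002fe2f8) b33192 (.tok (nat_lit 14) (nat_lit 0x602406c01d1980f73301edc603702c05a9180a643018cd602c8ac065b5816d9b034c0604566c0a6f58105db027df) (.hit (nat_lit 2) (nat_lit 11) (nat_lit 0x602406c003a58057db01edc603702bff33d80599b00a296015a8c0469d7f52baff6275fd5e6bfbcad7f0d93016ad) b33190 (.hit (nat_lit 5) (nat_lit 17) (nat_lit 0x5fb8a0bfdbc57f58b2fd6f35fc090bfc9857fc9caff95e5ff126bfea917e669afd8d55fb080bf710d7e461aff7f5) b33193 (.one (nat_lit 9) (nat_lit 3) (nat_lit 12) (nat_lit 0x60127cc01d1980f73301048601e0cc05a9180a643018cd602c8ac065b5816d9b034c0604566c0a6f58105db027df) b33191 (.nil)))) (.one (nat_lit 68) (nat_lit 6) (nat_lit 18) (nat_lit 0x5fda7cc0523180a722fe9fb5feb18c0626580214b00441600706c015717eece2ff0755fdfd2bfcf997ef75b000e2) b33194 (.nil)))))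 (.nil))) (.nil))
noncomputable def r16_10 : Rw Blk := .tok (nat_lit 6) (nat_lit 0x5e0000c0f615823c7b03efd) (.hit (nat_lit 18) (nat_lit 0) (nat_lit 0x5e0000bfeaf5800062ff4f0) b33215 (.tok (nat_lit 14) (nat_lit 0x5e0000c07af980cdd301f22) (.hit (nat_lit 19) (nat_lit 61) (nat_lit 0x5e0000c011c580cdd300d6d) b33216 (.one (nat_lit 3) (nat_lit 20) (nat_lit 62) (nat_lit 0x5e0000bffb718029cb0097a) b33217 (.tok (nat_lit 6) (nat_lit 0x5e0000bfc65d7f84b2ffa4d) (.hit (nat_lit 23) (nat_lit 65) (nat_lit 0x5e0000bf90957f0c5afec18) b33220 (.hit (nat_lit 24) (nat_lit 66) (nat_lit 0x5e0000bfc65d7f84b2ffa4d) b33221 (.nil))) (.tok (nat_lit 9) (nat_lit 0x5e0000c07af980c74b01f22) (.hit (nat_lit 21) (nat_lit 63) (nat_lit 0x5e0000c07af980c74b01f22) b33218 (.hit (nat_lit 22) (nat_lit 64) (nat_lit 0x5e0000bfd6c97f9d82ffa24) b33219 (.nil))) (.nil))))) (.one (nat_lit 17) (nat_lit 25) (nat_lit 67) (nat_lit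 0x5e0000bfe18d7ff342ff518) b33222 (.tok (nat_lit 20) (nat_lit 0x5e0000c0f615823c7b03efd) (.hit (nat_lit 26) (nat_lit 68) (nat_lit 0x5e0000c0f615823c7b03efd) b33223 (.hit (nat_lit 27) (nat_lit 69) (nat_lit 0x5e0000bf89817f1a22fdaf6) b33224 (.nil))) (.tok (nat_lit 23) (nat_lit 0x5e0000bfa5717f44dafea5d) (.hit (nat_lit 28) (nat_lit 70) (nat_lit 0x5e0000bf89a97efe82fea5d) b33225 (.hit (nat_lit 29) (nat_lit 71) (nat_lit 0x5e0000bfa5717f44dafea37) b33226 (.nil))) (.one (nat_lit 38) (nat_lit 34) (nat_lit 76) (nat_lit 0x5e0000bf9fe17f2bbafdf49) b33227 (.tok (nat_lit 41) (nat_lit 0x5e0000bfcf097fe75afff11) (.hit (nat_lit 35) (nat_lit 77) (nat_lit 0x5e0000bf6bd57efef2fe878) b33228 (.hit (nat_lit 36) (nat_lit 78) (nat_lit 0x5e0000bfcf097fe75afff11) b33229 (.nil))) (.tok (nat_lit 44) (nat_lit 0x5e0000bf8d857fd58aff9a0) (.hit (nat_lit 37) (nat_lit 79) (nat_lit 0x5e0000bf8d857fd58aff9a0) b33230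 (.hit (nat_lit 38) (nat_lit 80) (nat_lit 0x5e0000bf6c957f31d2fe027) b33231 (.nil))) (.tok (nat_lit 47) (nat_lit 0x5e0000bfb0d57f74d2fee66) (.hit (nat_lit 39) (nat_lit 81) (nat_lit 0x5e0000bf3e2d7e678afd77e) b33232 (.hit (nat_lit 40) (nat_lit 82) (nat_lit 0x5e0000bfb0d57f74d2fee66) b33233 (.nil))) (.one (nat_lit 62) (nat_lit 41) (nat_lit 92) (nat_lit 0x5e0000bfcebd7f7bdafe4a1) b33234 (.tok (nat_lit 65) (nat_lit 0x5e0000bfd9697fb192ff5da) (.hit (nat_lit 42) (nat_lit 93) (nat_lit 0x5e0000bfa8dd7f834aff5c8) b33235 (.hit (nat_lit 43) (nat_lit 94) (nat_lit 0x5e0000bfd9697fb192ff5da) b33236 (.nil))) (.tok (nat_lit 68) (nat_lit 0x5e0000c039897f97faff323) (.hit (nat_lit 44) (nat_lit 95) (nat_lit 0x5e0000c039897f97faff323) b33237 (.one (nat_lit 3) (nat_lit 48) (nat_lit 99) (nat_lit 0x5e0000bf8c8d7f044afeb16) b33241 (.one (nat_lit 6) (nat_lit 45) (nat_lit 96) (nat_lit 0x5e0000bf87f57efb1afe9f0)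 b33238 (.tok (nat_lit 9) (nat_lit 0x5e0000bf79ed7edf0afe66e) (.hit (nat_lit 46) (nat_lit 97) (nat_lit 0x5e0000bf79ed7edf0afe66e) b33239 (.hit (nat_lit 47) (nat_lit 98) (nat_lit 0x5e0000bf5dd57ea6dafdf68) b33240 (.nil))) (.nil))))) (.one (nat_lit 71) (nat_lit 49) (nat_lit 100) (nat_lit 0x5e0000bf9a997f2a4afe0c3) b33242 (.nil)))))))))))))) (.nil)
noncomputable def r16_11 : Rw Blk := .tok (nat_lit 6) (nat_lit 0x5e0000bc000181a2cb048d7) (.hit (nat_lit 18) (nat_lit 0) (nat_lit 0x5e0000bc00017f003aff612) b33243 (.tok (nat_lit 14) (nat_lit 0x5e0000bc000181a2cb048d7) (.hit (nat_lit 19) (nat_lit 61) (nat_lit 0x5e0000bc000180283b00c43) b33244 (.one (nat_lit 3) (nat_lit 20) (nat_lit 62) (nat_lit 0x5e0000bc00017f973affacd) b33245 (.tok (nat_lit 6) (nat_lit 0x5e0000bc00017f4192ff4aa) (.hit (nat_lit 23) (nat_lit 65) (nat_lit 0x5e0000bc00017f1812ff4aa) b33248 (.hit (nat_lit 24) (nat_lit 66)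 (nat_lit 0x5e0000bc00017f4192feee9) b33249 (.nil))) (.tok (nat_lit 9) (nat_lit 0x5e0000bc000181a2cb048d7) (.hit (nat_lit 21) (nat_lit 63) (nat_lit 0x5e0000bc000181a2cb048d7) b33246 (.hit (nat_lit 22) (nat_lit 64) (nat_lit 0x5e0000bc00017fa0cb00009) b33247 (.nil))) (.nil))))) (.one (nat_lit 17) (nat_lit 25) (nat_lit 67) (nat_lit 0x5e0000bc00017f54b2fea95) b33250 (.tok (nat_lit 20) (nat_lit 0x5e0000bc000180a67b0193a) (.hit (nat_lit 26) (nat_lit 68) (nat_lit 0x5e0000bc000180a67b0193a) b33251 (.hit (nat_lit 27) (nat_lit 69) (nat_lit 0x5e0000bc00017f31eafe45a) b33252 (.nil))) (.tok (nat_lit 23) (nat_lit 0x5e0000bc00017f3dfaff1ae) (.hit (nat_lit 28) (nat_lit 70) (nat_lit 0x5e0000bc00017eba22fe8ec) b33253 (.hit (nat_lit 29) (nat_lit 71) (nat_lit 0x5e0000bc00017f3dfaff1ae) b33254 (.nil))) (.one (nat_lit 38) (nat_lit 34) (nat_lit 76) (nat_lit 0x5e0000bc00017f3322fe90d) b33255 (.tok (nat_lit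 41) (nat_lit 0x5e0000bc00017f217afebb4) (.hit (nat_lit 35) (nat_lit 77) (nat_lit 0x5e0000bc00017ecefafe38f) b33256 (.hit (nat_lit 36) (nat_lit 78) (nat_lit 0x5e0000bc00017f217afebb4) b33257 (.nil))) (.tok (nat_lit 44) (nat_lit 0x5e0000bc00017ee87afe420) (.hit (nat_lit 37) (nat_lit 79) (nat_lit 0x5e0000bc00017ec84afe088) b33258 (.hit (nat_lit 38) (nat_lit 80) (nat_lit 0x5e0000bc00017ee87afe420) b33259 (.nil))) (.tok (nat_lit 47) (nat_lit 0x5e0000bc00017f2102fe71c) (.hit (nat_lit 39) (nat_lit 81) (nat_lit 0x5e0000bc00017ded4afcf51) b33260 (.hit (nat_lit 40) (nat_lit 82) (nat_lit 0x5e0000bc00017f2102fe71c) b33261 (.nil))) (.one (nat_lit 62) (nat_lit 41) (nat_lit 92) (nat_lit 0x5e0000bc00017f6b2afe5cf) b33262 (.tok (nat_lit 65) (nat_lit 0x5e0000bc00017f45aafef76) (.hit (nat_lit 42) (nat_lit 93) (nat_lit 0x5e0000bc00017f053afef76) b33263 (.hit (nat_lit 43) (nat_lit 94) (nat_lit 0x5e0000bc00017f45aafed20)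 b33264 (.nil))) (.tok (nat_lit 68) (nat_lit 0x5e0000bc00017fe85afffe1) (.hit (nat_lit 44) (nat_lit 95) (nat_lit 0x5e0000bc00017fe85afffe1) b33265 (.one (nat_lit 3) (nat_lit 48) (nat_lit 99) (nat_lit 0x5e0000bc00017eb6c2fe880) b33269 (.one (nat_lit 6) (nat_lit 45) (nat_lit 96) (nat_lit 0x5e0000bc00017f1812ff4aa) b33266 (.tok (nat_lit 9) (nat_lit 0x5e0000bc00017f1b72ff516) (.hit (nat_lit 46) (nat_lit 97) (nat_lit 0x5e0000bc00017f1b72ff516) b33267 (.hit (nat_lit 47) (nat_lit 98) (nat_lit 0x5e0000bc00017e504afdbb1) b33268 (.nil))) (.nil))))) (.one (nat_lit 71) (nat_lit 49) (nat_lit 100) (nat_lit 0x5e0000bc00017f2262fdde9) b33270 (.nil)))))))))))))) (.nil)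
noncomputable def r16_12 : Rw Blk := .tok (nat_lit 9) (nat_lit 0x5e0000bc0001803cf301172602500c031dd8088bb007fb) (.hit (nat_lit 21) (nat_lit 0) (nat_lit 0x5e0000bc00017f03d2fedd45fda22bf97e17f5e9afde19) b33289 (.tok (nat_lit 14) (nat_lit 0x5e0000bc0001801bcb01172602500c031dd8088bb007fb) (.hit (nat_lit 22) (nat_lit 61) (nat_lit 0x5e0000bc00017f7e2300a336008f2bff975803e32ff829) b33290 (.one (nat_lit 3) (nat_lit 23) (nat_lit 62) (nat_lit 0x5e0000bc00017f49bafe9115fe600bfa7657f2752fe334) b33291 (.tok (nat_lit 6) (nat_lit 0x5e0000bc0001801bcb01172602500c031dd8088bb007fb) (.hit (nat_lit 26) (nat_lit 65) (nat_lit 0x5e0000bc0001801bcb01172602500c031dd8088bb007fb) b33294 (.hit (nat_lit 27) (nat_lit 66) (nat_lit 0x5e0000bc00017f6a22ff2115fec20bfbb397f69bafe97f) b33295 (.nil))) (.tok (nat_lit 9) (nat_lit 0x5e0000bc00017f1abafe8435fdc8cbf95f97f33dafe8bb) (.hit (nat_lit 24) (nat_lit 63) (nat_lit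 0x5e0000bc00017e9292fe8435fdc80bf95f97f33dafe8bb) b33292 (.hit (nat_lit 25) (nat_lit 64) (nat_lit 0x5e0000bc00017f1abafe7e85fdc8cbf84d97f12f2fe1da) b33293 (.nil))) (.nil))))) (.one (nat_lit 17) (nat_lit 28) (nat_lit 67) (nat_lit 0x5e0000bc00017f5fd2fe6d35fd7d2bf8ea97f19fafde16) b33296 (.tok (nat_lit 20) (nat_lit 0x5e0000bc00017f8342fea3e5fde8cbf9c4d7f35eafe124) (.hit (nat_lit 29) (nat_lit 68) (nat_lit 0x5e0000bc00017e20fafda105fc01abf5d2d7ec242fda88) b33297 (.hit (nat_lit 30) (nat_lit 69) (nat_lit 0x5e0000bc00017f8342fea3e5fde8cbf9c4d7f35eafe124) b33298 (.nil))) (.tok (nat_lit 23) (nat_lit 0x5e0000bc00017f5c4aff9885fff52bff0517fa7aafec3f) (.hit (nat_lit 31) (nat_lit 70) (nat_lit 0x5e0000bc00017f5c4aff9885fff52bff0517fa7aafec3f) b33299 (.hit (nat_lit 32) (nat_lit 71) (nat_lit 0x5e0000bc00017f0402fd77c5fb808bf51d57e9d2afce89) b33300 (.nil))) (.one (nat_lit 26) (nat_lit 33) (nat_lit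 72) (nat_lit 0x5e0000bc00017f33c2fd9965fbd2cbf59557eb302fd063) b33301 (.one (nat_lit 29) (nat_lit 34) (nat_lit 73) (nat_lit 0x5e0000bc00017ec9dafde695fc696bf6cd57ec6b2fd546) b33302 (.one (nat_lit 32) (nat_lit 35) (nat_lit 74) (nat_lit 0x5e0000bc00017f72cafe14f5fcc9cbf77d57ef052fd803) b33303 (.one (nat_lit 35) (nat_lit 36) (nat_lit 75) (nat_lit 0x5e0000bc00017eaae2fd2135fa618bf2d757e61bafc6cd) b33304 (.one (nat_lit 62) (nat_lit 46) (nat_lit 92) (nat_lit 0x5e0000bc00017e9902fd5835fb4b6bf49697e88aafcc6d) b33305 (.tok (nat_lit 65) (nat_lit 0x5e0000bc00017f1fd2fead25fd9acbf93e17f3842fdc75) (.hit (nat_lit 47) (nat_lit 93) (nat_lit 0x5e0000bc00017f1fd2fead25fd9acbf93e17f3842fdc75) b33306 (.hit (nat_lit 48) (nat_lit 94) (nat_lit 0x5e0000bc00017e6302fd4515fb010bf3ff97e6c62fca27) b33307 (.nil))) (.tok (nat_lit 68) (nat_lit 0x5e0000bc0001803cf300d856012f2bff9918063db00291) (.hit (nat_lit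 49) (nat_lit 95) (nat_lit 0x5e0000bc000180074300bdd5ffb3ebff94d803ec300291) b33308 (.one (nat_lit 3) (nat_lit 53) (nat_lit 99) (nat_lit 0x5e0000bc00017f8d72ff9ec5feb30bfbee57f98daff39f) b33312 (.one (nat_lit 6) (nat_lit 50) (nat_lit 96) (nat_lit 0x5e0000bc0001803cf3004a76005b6bff045801db30017c) b33309 (.tok (nat_lit 9) (nat_lit 0x5e0000bc00017f7a1b00d856012f2bff9918063daff478) (.hit (nat_lit 51) (nat_lit 97) (nat_lit 0x5e0000bc00017f7a1b00d856012f2bff9918063daff478) b33310 (.hit (nat_lit 52) (nat_lit 98) (nat_lit 0x5e0000bc00017eac9afdd445fd090bf62397ec61afd16c) b33311 (.nil))) (.nil))))) (.one (nat_lit 71) (nat_lit 54) (nat_lit 100) (nat_lit 0x5e0000bc00017e601afd4f25fb35cbf47b17e8a72fcbff) b33313 (.nil)))))))))))))) (.tok (nat_lit 64) (nat_lit 0x5e0000bc000180661b027ac605db2c09fcd81286302003) (.hit (nat_lit 16) (nat_lit 0) (nat_lit 0x5e0000bc0001803be301b9d604d0ec0652580b71b00a3b)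 b33284 (.tok (nat_lit 6) (nat_lit 0x5e0000bc00018060c301572603298c0499d807cd300431) (.hit (nat_lit 17) (nat_lit 7) (nat_lit 0x5e0000bc00017f4302fecfe5feee6bfd6c97f75c2ff4a7) b33285 (.hit (nat_lit 18) (nat_lit 15) (nat_lit 0x5e0000bc00018060c301572603298c0499d807cd300431) b33286 (.nil))) (.tok (nat_lit 9) (nat_lit 0x5e0000bc000180661b027ac605db2c09fcd81286302003) (.hit (nat_lit 19) (nat_lit 20) (nat_lit 0x5e0000bc000180661b027ac605db2c09fcd81286302003) b33287 (.hit (nat_lit 20) (nat_lit 28) (nat_lit 0x5e0000bc00018020bb01c5560412ac065b180b3eb00859) b33288 (.nil))) (.nil)))) (.tok (nat_lit 67) (nat_lit 0x5e0000bc0001803b6300813601726c012f580174300296) (.hit (nat_lit 8) (nat_lit 0) (nat_lit 0x5e0000bc0001803b6300813601726c012f5801742ffeab) b33276 (.tok (nat_lit 3) (nat_lit 0x5e0000bc00017f8862ff5aa60003ebff9797fbb22ffd53) (.hit (nat_lit 9) (nat_lit 1) (nat_lit 0x5e0000bc00017f69c2ff1d65ff896bfea297f9c82ff97f)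 b33277 (.one (nat_lit 55) (nat_lit 10) (nat_lit 3) (nat_lit 0x5e0000bc00017f8862ff5aa60003ebff9797fbb22ffd53) b33278 (.nil))) (.tok (nat_lit 9) (nat_lit 0x5e0000bc00017fb27affaed600ac4c00e857fe53b00296) (.hit (nat_lit 11) (nat_lit 20) (nat_lit 0x5e0000bc00017f339afeb115feb0cbfcf157f665aff2ba) b33279 (.hit (nat_lit 14) (nat_lit 28) (nat_lit 0x5e0000bc00017edebafe0755fd5d4bfa4a57f117afe81e) b33282 (.tok (nat_lit 67) (nat_lit 0x5e0000bc00017fb27affaed600ac4c00e857fe53b00296) (.hit (nat_lit 12) (nat_lit 21) (nat_lit 0x5e0000bc00017f3dc2fec565fed96bfd4297f7082ff3ff) b33280 (.hit (nat_lit 15) (nat_lit 29) (nat_lit 0x5e0000bc00017fb27affaed600ac4c00e857fe53b00296) b33283 (.one (nat_lit 9) (nat_lit 13) (nat_lit 22) (nat_lit 0x5e0000bc00017f88a2ff5b260004ebff9997fbb62ffd5b) b33281 (.nil)))) (.nil)))) (.nil)))) (.tok (nat_lit 70) (nat_lit 0x5e0000bc00017feaf300a18601dbec02ac180288b009a5)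 (.hit (nat_lit 0) (nat_lit 0) (nat_lit 0x5e0000bc00017f92e300a18601dbec01fad80288affea3) b33271 (.tok (nat_lit 3) (nat_lit 0x5e0000bc00017feaf3001fc6018e2c02ac1801db3009a5) (.hit (nat_lit 1) (nat_lit 1) (nat_lit 0x5e0000bc00017fb7e2ffb9a600c1ec011397feaa300343) b33272 (.one (nat_lit 67) (nat_lit 2) (nat_lit 2) (nat_lit 0x5e0000bc00017feaf3001fc6018e2c02ac1801db3009a5) b33273 (.nil))) (.tok (nat_lit 6) (nat_lit 0x5e0000bc00017fa8a2ff9b260084ec009997fdb630015b) (.hit (nat_lit 3) (nat_lit 7) (nat_lit 0x5e0000bc00017fa8a2ff9b260084ec009997fdb630015b) b33274 (.hit (nat_lit 6) (nat_lit 15) (nat_lit 0x5e0000bc00017f7fd2ff4985ffe1abff5317fb292ffc41) b33275 (.nil))) (.nil)))) (.nil))))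
noncomputable def r16_13 : Rw Blk := .tok (nat_lit 3) (nat_lit 0x5e0000bc000181c4c3032f560707cc0d8d181a44b03f1f) (.hit (nat_lit 0) (nat_lit 0) (nat_lit 0x5e0000bc0001811ce301d22603acac06aad80f85b01dc5) b33314 (.tok (nat_lit 6) (nat_lit 0x5e0000bc00017fee52ff493600338bfe96d7fad1300406) (.hit (nat_lit 1) (nat_lit 7) (nat_lit 0x5e0000bc00017fe932ff3ef6001f0bfe6dd7fa7f300362) b33315 (.hit (nat_lit 4) (nat_lit 15) (nat_lit 0x5e0000bc00017f0c9afd85c5fcacabf78917ecb5afe7cf) b33316 (.one (nat_lit 68) (nat_lit 5) (nat_lit 18) (nat_lit 0x5e0000bc00017fee52ff493600338bfe96d7fad1300406) b33317 (.nil)))) (.tok (nat_lit 52) (nat_lit 0x5e0000bc0001806dab0047e60230ec02919802c6b013f1) (.hit (nat_lit 7) (nat_lit 39) (nat_lit 0x5e0000bc0001806b4b00432602276c027e9802a0b013a5) b33318 (.hit (nat_lit 8) (nat_lit 40) (nat_lit 0x5e0000bc0001806dab0047e60230ec02919802c6b013f1) b33319 (.nil))) (.tok (nat_lit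 55) (nat_lit 0x5e0000bc000181c4c3032f560707cc0d8d181a44b03f1f) (.hit (nat_lit 9) (nat_lit 41) (nat_lit 0x5e0000bc000181c4c3032f560707cc0d8d181a44b03f1f) b33320 (.one (nat_lit 3) (nat_lit 15) (nat_lit 47) (nat_lit 0x5e0000bc000180a26300b1560303cc0437580612301a88) b33323 (.tok (nat_lit 6) (nat_lit 0x5e0000bc000180f37301537604480c06bfd80b233024aa) (.hit (nat_lit 10) (nat_lit 42) (nat_lit 0x5e0000bc000180f37301537604480c06bfd80b233024aa) b33321 (.hit (nat_lit 13) (nat_lit 45) (nat_lit 0x5e0000bc0001809033008cf602bb0c03a5d804ef301842) b33322 (.nil))) (.nil)))) (.one (nat_lit 58) (nat_lit 16) (nat_lit 49) (nat_lit 0x5e0000bc000180497affff8601a02c0170180083b00f6b) b33324 (.nil)))))) (.tok (nat_lit 9) (nat_lit 0x5e0000bc000182162b048dc609e8ac114ad822f030441e) (.hit (nat_lit 17) (nat_lit 0) (nat_lit 0x5e0000bc0001818a53033406088cac0ee4981a943036b7) b33325 (.tok (nat_lit 9) (nat_lit 0x5e0000bc0001812c5b01fb66058f6c0932d8116db023be)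 (.hit (nat_lit 18) (nat_lit 20) (nat_lit 0x5e0000bc0001812c5b01fb66058f6c0932d8116db023be) b33326 (.hit (nat_lit 19) (nat_lit 28) (nat_lit 0x5e0000bc00017fcb2300472600f42c018e1802bf2fff59) b33327 (.one (nat_lit 56) (nat_lit 20) (nat_lit 31) (nat_lit 0x5e0000bc00018122cb0199d60367cc075c180db7b01a08) b33328 (.nil)))) (.tok (nat_lit 64) (nat_lit 0x5e0000bc000181e553048dc609e8ac10e6d822f030409a) (.hit (nat_lit 21) (nat_lit 50) (nat_lit 0x5e0000bc000181e553030a4609e8ac10e6d81db4b03460) b33329 (.hit (nat_lit 22) (nat_lit 51) (nat_lit 0x5e0000bc000181e32b048dc605384c0ec89822f030409a) b33330 (.nil))) (.tok (nat_lit 67) (nat_lit 0x5e0000bc0001820ef303ab66095d2c0edd181d47303669) (.hit (nat_lit 23) (nat_lit 52) (nat_lit 0x5e0000bc0001820ef303ab66095d2c0e95d81d47303669) b33331 (.one (nat_lit 3) (nat_lit 26) (nat_lit 58) (nat_lit 0x5e0000bc00018197bb027eb606122c08e4181403302a0a) b33334 (.tok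 (nat_lit 9) (nat_lit 0x5e0000bc00018148bb02ff8607500c0edd1817b4b02b1c) (.hit (nat_lit 24) (nat_lit 53) (nat_lit 0x5e0000bc000181391302f12607500c0edd1817b4b02b1c) b33332 (.hit (nat_lit 25) (nat_lit 56) (nat_lit 0x5e0000bc00018148bb02ff8606c9ac08bb981695b02a43) b33333 (.nil))) (.nil)))) (.one (nat_lit 70) (nat_lit 27) (nat_lit 60) (nat_lit 0x5e0000bc000182162b0440b60506ec114ad8227b30441e) b33335 (.nil)))))) (.nil))
noncomputable def r16_14 : Rw Blk := .tok (nat_lit 3) (nat_lit 0x5e0000bc00017ed922fff16) (.hit (nat_lit 15) (nat_lit 0) (nat_lit 0x5e0000bc00017e984afecb6) b33351 (.tok (nat_lit 6) (nat_lit 0x5e0000bc00017e2e8afd95a) (.hit (nat_lit 16) (nat_lit 7) (nat_lit 0x5e0000bc00017d2912fb8ab) b33352 (.hit (nat_lit 21) (nat_lit 15) (nat_lit 0x5e0000bc00017c7d1afa32c) b33355 (.tok (nat_lit 14) (nat_lit 0x5e0000bc00017e2e8afd95a) (.hit (nat_lit 17) (nat_lit 11) (nat_lit 0x5e0000bc00017dc2dafcbe4)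 b33353 (.hit (nat_lit 22) (nat_lit 17) (nat_lit 0x5e0000bc00017e2e8afd95a) b33356 (.one (nat_lit 9) (nat_lit 18) (nat_lit 12) (nat_lit 0x5e0000bc00017e0f62fd575) b33354 (.nil)))) (.one (nat_lit 68) (nat_lit 23) (nat_lit 18) (nat_lit 0x5e0000bc00017dc33afcbf0) b33357 (.nil))))) (.tok (nat_lit 52) (nat_lit 0x5e0000bc00017e7f3afe370) (.hit (nat_lit 25) (nat_lit 39) (nat_lit 0x5e0000bc00017e468afdc5a) b33358 (.hit (nat_lit 26) (nat_lit 40) (nat_lit 0x5e0000bc00017e7f3afe370) b33359 (.nil))) (.tok (nat_lit 55) (nat_lit 0x5e0000bc00017ed922fff16) (.hit (nat_lit 27) (nat_lit 41) (nat_lit 0x5e0000bc00017ed922fff16) b33360 (.tok (nat_lit 3) (nat_lit 0x5e0000bc00017eb7b2fea7f) (.hit (nat_lit 33) (nat_lit 47) (nat_lit 0x5e0000bc00017eb7b2fea7f) b33363 (.one (nat_lit 67) (nat_lit 34) (nat_lit 48) (nat_lit 0x5e0000bc00017e65c2fe041) b33364 (.nil))) (.tok (nat_lit 6) (nat_lit 0x5e0000bc00017ebf3afedf7)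 (.hit (nat_lit 28) (nat_lit 42) (nat_lit 0x5e0000bc00017ebf3afedf7) b33361 (.hit (nat_lit 31) (nat_lit 45) (nat_lit 0x5e0000bc00017ea11afe7ac) b33362 (.nil))) (.nil)))) (.one (nat_lit 58) (nat_lit 35) (nat_lit 49) (nat_lit 0x5e0000bc00017eb34afe9f2) b33365 (.nil)))))) (.tok (nat_lit 9) (nat_lit 0x5e0000bc000180a443022bb) (.hit (nat_lit 0) (nat_lit 0) (nat_lit 0x5e0000bc00017ec892feffa) b33336 (.tok (nat_lit 9) (nat_lit 0x5e0000bc00017f6712ff333) (.hit (nat_lit 1) (nat_lit 20) (nat_lit 0x5e0000bc00017e6772fce46) b33337 (.hit (nat_lit 4) (nat_lit 28) (nat_lit 0x5e0000bc00017e6da2fc3f2) b33340 (.tok (nat_lit 14) (nat_lit 0x5e0000bc00017f6712ff333) (.hit (nat_lit 2) (nat_lit 24) (nat_lit 0x5e0000bc00017f6712ff04a) b33338 (.hit (nat_lit 5) (nat_lit 30) (nat_lit 0x5e0000bc00017e9642fce08) b33341 (.one (nat_lit 6) (nat_lit 3) (nat_lit 25) (nat_lit 0x5e0000bc00017f63aaff333) b33339 (.nil))))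 (.one (nat_lit 56) (nat_lit 6) (nat_lit 31) (nat_lit 0x5e0000bc00017e84f2fe358) b33342 (.nil))))) (.tok (nat_lit 64) (nat_lit 0x5e0000bc00017ee592fed2e) (.hit (nat_lit 7) (nat_lit 50) (nat_lit 0x5e0000bc00017ee592fed2e) b33343 (.hit (nat_lit 8) (nat_lit 51) (nat_lit 0x5e0000bc00017eaffafd989) b33344 (.nil))) (.tok (nat_lit 67) (nat_lit 0x5e0000bc000180a443022bb) (.hit (nat_lit 9) (nat_lit 52) (nat_lit 0x5e0000bc00017fb57301026) b33345 (.tok (nat_lit 3) (nat_lit 0x5e0000bc000180a443022bb) (.hit (nat_lit 12) (nat_lit 58) (nat_lit 0x5e0000bc0001806cb301f46) b33348 (.one (nat_lit 55) (nat_lit 13) (nat_lit 59) (nat_lit 0x5e0000bc000180a443022bb) b33349 (.nil))) (.tok (nat_lit 9) (nat_lit 0x5e0000bc00017f1a3b00a18) (.hit (nat_lit 10) (nat_lit 53) (nat_lit 0x5e0000bc00017f1a3b00a18) b33346 (.hit (nat_lit 11) (nat_lit 56) (nat_lit 0x5e0000bc00017edd5afe114) b33347 (.nil))) (.nil))))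 (.one (nat_lit 70) (nat_lit 14) (nat_lit 60) (nat_lit 0x5e0000bc00017e472afe537) b33350 (.nil)))))) (.nil))
noncomputable def r16_15 : Rw Blk := .tok (nat_lit 9) (nat_lit 0x3000005fd44cbfb0c17f596afef465ff824bf9a397fd4d2ff436) (.hit (nat_lit 157) (nat_lit 0) (nat_lit 0x2fddac5fb1a0bf62a57ee652fe9345fdae0bf6e217f209afe22b) b33366 (.tok (nat_lit 14) (nat_lit 0x3000005fd1d6bfb0c17f35bafe8c45ff7bebf92ad7fd4d2ff436) (.hit (nat_lit 193) (nat_lit 61) (nat_lit 0x2ff2aa5fcf76bfb0c17f0faafe8c45fe606bf8d897fd1d2ff436) b33367 (.one (nat_lit 3) (nat_lit 194) (nat_lit 62) (nat_lit 0x2fe5045fb3a2bf9ce57ebafafce1d5fc3e0bf40b97f3d5afe1fc) b33368 (.tok (nat_lit 6) (nat_lit 0x3000005fd1d6bfad157f35bafdf2c5ff7bebf92ad7fd4d2fefb3) (.hit (nat_lit 197) (nat_lit 65) (nat_lit 0x3000005fd1d6bf94157f35bafdf2c5ff7bebf92ad7fd4d2fefb3) b33371 (.hit (nat_lit 198) (nat_lit 66) (nat_lit 0x2fe22e5fa342bfad157eb682fd2395fc4cabf40257f2c5afe20b)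 b33372 (.nil))) (.tok (nat_lit 9) (nat_lit 0x2fe7e35fb150bf89d97ee972fdd645fb862bf60097f111afe640) (.hit (nat_lit 195) (nat_lit 63) (nat_lit 0x2fcf795f80f6bf69017eb4aafdd645fb4f2bf60097ebfd2fde58) b33369 (.hit (nat_lit 196) (nat_lit 64) (nat_lit 0x2fe7e35fb150bf89d97ee972fcf975fb862bf544d7f111afe640) b33370 (.nil))) (.nil))))) (.one (nat_lit 17) (nat_lit 199) (nat_lit 67) (nat_lit 0x2fd79e5fa348bf67b97e53eafc70a5fa718bf0d7d7ed97afda02) b33373 (.tok (nat_lit 20) (nat_lit 0x2fd5f55f8876bf586d7e9e02fda8f5faf48bf54b57ecc12fdb83) (.hit (nat_lit 200) (nat_lit 68) (nat_lit 0x2fcca45f7b4cbf586d7e9e02fda8f5faf48bf54b57ea92afdb83) b33374 (.hit (nat_lit 201) (nat_lit 69) (nat_lit 0x2fd5f55f8876bf2b3d7e48e2fc3045fa3e4bf06297ecc12fd859) b33375 (.nil))) (.tok (nat_lit 23) (nat_lit 0x2fe9c45fc99ebf8fed7ef672fd5e45fc126bf631d7f08b2fe597) (.hit (nat_lit 202) (nat_lit 70) (nat_lit 0x2fe9c45fc99ebf8fed7ef672fd5e45fc126bf631d7f08b2fe597)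 b33376 (.hit (nat_lit 203) (nat_lit 71) (nat_lit 0x2fd6c85f85aebf81997e4e8afc3175fa1dcbf096d7ed1bafd92c) b33377 (.nil))) (.one (nat_lit 26) (nat_lit 204) (nat_lit 72) (nat_lit 0x2fcda05f7360bf1a5d7e04bafb60d5f930ebee4d57e8962fd004) b33378 (.one (nat_lit 29) (nat_lit 205) (nat_lit 73) (nat_lit 0x2fcf4d5f85b6bf3d7d7e1202fb4f25f979abeeb897e96a2fd1ac) b33379 (.one (nat_lit 32) (nat_lit 206) (nat_lit 74) (nat_lit 0x2fd62e5f92e2bf4f557e490afb3c55fa390bf070d7ecdd2fd892) b33380 (.one (nat_lit 35) (nat_lit 207) (nat_lit 75) (nat_lit 0x2fc25d5f66dcbf54d97daa8afba305f7984bed3397e2e62fc4c1) b33381 (.one (nat_lit 50) (nat_lit 215) (nat_lit 83) (nat_lit 0x2fd1835f7df4bf45ad7e2352fc3b05f9cdabef9397ea882fd3e7) b33382 (.tok (nat_lit 53) (nat_lit 0x2fdaf85faea0bf61157e650afc0bc5fa3aebf15017ee5cafdb7b) (.hit (nat_lit 216) (nat_lit 84) (nat_lit 0x2fdaf85faea0bf61157e650afc0bc5fa39ebf15017ee5cafdb7b)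 b33383 (.hit (nat_lit 217) (nat_lit 85) (nat_lit 0x2fd4db5f926ebf47d57e3efafbc985fa3aebf01d17ec342fd73f) b33384 (.nil))) (.tok (nat_lit 56) (nat_lit 0x2fdfdd5fb056bf9ae57edd02fef465fca20bf659d7f7712fee42) (.hit (nat_lit 218) (nat_lit 86) (nat_lit 0x2fdfdd5fb056bf9ae57edd02fef465fca20bf659d7f7712fee42) b33385 (.one (nat_lit 3) (nat_lit 222) (nat_lit 90) (nat_lit 0x2fc1c85f6594bf6a3d7e4722fcfb35f9990bf29457e524afd0a7) b33389 (.tok (nat_lit 6) (nat_lit 0x2fce235f7e4abf99317ea9fafdc0e5fb246bf5ab17eb522fdd02) (.hit (nat_lit 220) (nat_lit 88) (nat_lit 0x2fc58d5f6d1ebf95297e654afd3785fa11abf38597e7072fd46c) b33387 (.hit (nat_lit 221) (nat_lit 89) (nat_lit 0x2fce235f7e4abf99317ea9fafdc0e5fb246bf5ab17eb522fdd02) b33388 (.nil))) (.one (nat_lit 9) (nat_lit 219) (nat_lit 87) (nat_lit 0x2fccf75f7bf2bf7c0d7ea09afdae25fafeebf56017eabc2fdbd6) b33386 (.nil))))) (.one (nat_lit 59) (nat_lit 223)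 (nat_lit 91) (nat_lit 0x2fcb365f76e0bf1c6d7df0aafaf055f8de0bedb357e761afcd9a) b33390 (.one (nat_lit 62) (nat_lit 224) (nat_lit 92) (nat_lit 0x2fdbcb5f97a8bf64a97e761afc1ed5faeb8bf1d757efaa2fde2c) b33391 (.tok (nat_lit 65) (nat_lit 0x2fdcc35fc492bf98717ec182fd4c95faf8cbf43017eeb92fe21d) (.hit (nat_lit 225) (nat_lit 93) (nat_lit 0x2fdcc35fc492bf98717ec182fd4c95faf8cbf43017eeb92fe21d) b33392 (.hit (nat_lit 226) (nat_lit 94) (nat_lit 0x2fd8825f98b6bf67557e5bb2fc2505fa976bf105d7ee02afdae6) b33393 (.nil))) (.tok (nat_lit 68) (nat_lit 0x2ff39a5fd44cbfa6397f596afee0c5ff824bf9a397fa00aff305) (.hit (nat_lit 227) (nat_lit 95) (nat_lit 0x2ff3835fd44cbf95197f44fafee0c5fec10bf9a397fa00aff305) b33394 (.one (nat_lit 3) (nat_lit 231) (nat_lit 99) (nat_lit 0x2fe7df5fb196bf77017ed752fd7175fd774bf579d7f2eb2fde91) b33398 (.one (nat_lit 6) (nat_lit 228) (nat_lit 96) (nat_lit 0x2ff0c45fd18cbf92e57f596afe4de5ff824bf99197f7f32fee60)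 b33395 (.tok (nat_lit 9) (nat_lit 0x2ff39a5fb9a0bfa6397ed512fdda55fc740bf610d7f6552fe071) (.hit (nat_lit 229) (nat_lit 97) (nat_lit 0x2ff39a5fb9a0bfa6397ed512fdda55fc740bf610d7f6552fe071) b33396 (.hit (nat_lit 230) (nat_lit 98) (nat_lit 0x2fd99f5fb768bf92697e6872fcf8f5faf18bf28b57ecc6afd631) b33397 (.nil))) (.nil))))) (.one (nat_lit 71) (nat_lit 232) (nat_lit 100) (nat_lit 0x2fd4bb5f835abf4c2d7e3ceafaf055fa0dcbf01417ec1e2fd71f) b33399 (.nil)))))))))))))))))) (.tok (nat_lit 64) (nat_lit 0x2ffa36600000c039617fd55302027600244bfe5217f93faff3c3) (.hit (nat_lit 377) (nat_lit 0) (nat_lit 0x2ffa365fecb6c029a57fd553011b45ff6babfe28d7f93faff3c3) b33400 (.tok (nat_lit 6) (nat_lit 0x2ff2f05ffa4cc039617f8bbb005415fe7a2bfc5dd7f8bbaff2bb) (.hit (nat_lit 378) (nat_lit 7) (nat_lit 0x2feae95fb55ac039617f8bbaffaf75fde4ebfc5dd7f8bbaff2bb) b33401 (.hit (nat_lit 379) (nat_lit 15) (nat_lit 0x2ff2f05ffa4cc0157d7f8523005415fe7a2bfbfdd7f4da2feaf8)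 b33402 (.nil))) (.tok (nat_lit 9) (nat_lit 0x2ff919600000bff59d7fc87302027600244bfe5217f7cb2ff0da) (.hit (nat_lit 380) (nat_lit 20) (nat_lit 0x2ff919600000bff59d7fc87302027600244bfe5217f7cb2ff0da) b33403 (.hit (nat_lit 381) (nat_lit 28) (nat_lit 0x2fed795fe26abfc2c57f65eaff7f75fe21ebfb0d57f2d92fe6f6) b33404 (.nil))) (.nil)))) (.tok (nat_lit 67) (nat_lit 0x2ff9725fd26cc025d1800003009805ffb60c0000180000300144) (.hit (nat_lit 388) (nat_lit 0) (nat_lit 0x2ff9535fcac6bfe3b17f8a03001e55fdf74bfc5017fea22fff03) b33405 (.tok (nat_lit 3) (nat_lit 0x2fed075fb996bfff157f9caaffd155fe28abfce557f9caaff4d9) (.hit (nat_lit 389) (nat_lit 1) (nat_lit 0x2fd2e45f8550bf9a097ecb92fe2f25fae44bf65c97ecb92fdab6) b33406 (.one (nat_lit 55) (nat_lit 390) (nat_lit 3) (nat_lit 0x2fed075fb996bfff157f9caaffd155fe28abfce557f9caaff4d9) b33407 (.nil))) (.tok (nat_lit 9) (nat_lit 0x2ff9725fd26cc025d1800003009805ffb60c0000180000300144)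 (.hit (nat_lit 391) (nat_lit 20) (nat_lit 0x2fdc1a5f97bcbfa7357f1542fec285fc0b0bf8aa17f1542fe3ec) b33408 (.hit (nat_lit 394) (nat_lit 28) (nat_lit 0x2fcca65f78d4bf91e97e99a2fdcb45fa1c8bf4cd17e99a2fd478) b33411 (.tok (nat_lit 67) (nat_lit 0x2ff9725fd26cc025d1800003009805ffb60c0000180000300144) (.hit (nat_lit 392) (nat_lit 21) (nat_lit 0x2ff1cf5fc326c018597fc2eb001dd5fec1abfe1757fc2eaff9a1) b33409 (.hit (nat_lit 395) (nat_lit 29) (nat_lit 0x2fe6be5fad04bff0ad7f6a62ff6cc5fd5f8bfb5317f6a62fee90) b33412 (.one (nat_lit 9) (nat_lit 393) (nat_lit 22) (nat_lit 0x2ff9725fd26cc025d1800003009805ffb60c0000180000300144) b33410 (.nil)))) (.nil)))) (.nil)))) (.tok (nat_lit 70) (nat_lit 0x2ff8455fd012c015617ff69b008535ff906bffb4d7ff69b00017) (.hit (nat_lit 402) (nat_lit 0) (nat_lit 0x2feb9c5fad66bfc9c97f1c72ff6535fc494bf8e397f86dafefb4) b33413 (.tok (nat_lit 3) (nat_lit 0x2fedd05fbb28bfcb757fa2f2ffdde5fe41cbfd1797fa2f2ff5a2)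 (.hit (nat_lit 403) (nat_lit 1) (nat_lit 0x2fd6d05f8d28bfafe97eeaf2fe6de5fb61cbf75797eeaf2fdea2) b33414 (.one (nat_lit 67) (nat_lit 404) (nat_lit 2) (nat_lit 0x2fedd05fbb28bfcb757fa2f2ffdde5fe41cbfd1797fa2f2ff5a2) b33415 (.nil))) (.tok (nat_lit 6) (nat_lit 0x2ff8455fd012c015617ff69b008535ff906bffb4d7ff69b00017) (.hit (nat_lit 405) (nat_lit 7) (nat_lit 0x2fd8d55f9132bfa0c97efb1afe8e35fba26bf7d8d7efb1afe0a7) b33416 (.hit (nat_lit 408) (nat_lit 15) (nat_lit 0x2fd6455f8c12bfab497ee69afe6535fb506bf734d7ee69afde17) b33419 (.tok (nat_lit 55) (nat_lit 0x2ff8455fd012c015617ff69b008535ff906bffb4d7ff69b00017) (.hit (nat_lit 406) (nat_lit 8) (nat_lit 0x2fe7ce5faf24bfd0ed7f72e2ff7dc5fd818bfb9717f72e2fefa0) b33417 (.hit (nat_lit 409) (nat_lit 16) (nat_lit 0x2fee3a5fbbfcc006d17fa642ffe485fe4f0bfd3217fa642ff60c) b33420 (.one (nat_lit 6) (nat_lit 407) (nat_lit 9) (nat_lit 0x2ff8455fd012c015617ff69b008535ff906bffb4d7ff69b00017)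 b33418 (.nil)))) (.nil)))) (.nil)))) (.nil))))
noncomputable def r16_16 : Rw Blk := .tok (nat_lit 14) (nat_lit 0xbc0001780002fd7bf) (.hit (nat_lit 140) (nat_lit 0) (nat_lit 0xbc0001780002fd7bf) b33438 (.one (nat_lit 3) (nat_lit 141) (nat_lit 1) (nat_lit 0xbc0001780002fadb4) b33439 (.tok (nat_lit 6) (nat_lit 0xbc0001780002fcdd3) (.hit (nat_lit 142) (nat_lit 7) (nat_lit 0xbc0001780002fcc34) b33440 (.hit (nat_lit 143) (nat_lit 15) (nat_lit 0xbc0001780002fcdd3) b33441 (.nil))) (.tok (nat_lit 9) (nat_lit 0xbc0001780002fd1b7) (.hit (nat_lit 144) (nat_lit 20) (nat_lit 0xbc0001780002fcc34) b33440 (.hit (nat_lit 145) (nat_lit 28) (nat_lit 0xbc0001780002fd1b7) b33442 (.nil))) (.nil))))) (.tok (nat_lit 17) (nat_lit 0xbc0001780002fd812) (.hit (nat_lit 134) (nat_lit 0) (nat_lit 0xbc0001780002fd812) b33432 (.one (nat_lit 3) (nat_lit 135) (nat_lit 1) (nat_lit 0xbc0001780002fa8a7) b33433 (.tok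 (nat_lit 6) (nat_lit 0xbc0001780002fcbc8) (.hit (nat_lit 136) (nat_lit 7) (nat_lit 0xbc0001780002fc3d1) b33434 (.hit (nat_lit 137) (nat_lit 15) (nat_lit 0xbc0001780002fcbc8) b33435 (.nil))) (.tok (nat_lit 9) (nat_lit 0xbc0001780002fcec8) (.hit (nat_lit 138) (nat_lit 20) (nat_lit 0xbc0001780002fc6c7) b33436 (.hit (nat_lit 139) (nat_lit 28) (nat_lit 0xbc0001780002fcec8) b33437 (.nil))) (.nil))))) (.tok (nat_lit 20) (nat_lit 0xbc0001780002fd884) (.hit (nat_lit 122) (nat_lit 0) (nat_lit 0xbc0001780002fd884) b33421 (.one (nat_lit 3) (nat_lit 123) (nat_lit 1) (nat_lit 0xbc0001780002fb12d) b33422 (.tok (nat_lit 6) (nat_lit 0xbc0001780002fceb2) (.hit (nat_lit 124) (nat_lit 7) (nat_lit 0xbc0001780002fc7d3) b33423 (.hit (nat_lit 125) (nat_lit 15) (nat_lit 0xbc0001780002fceb2) b33424 (.nil))) (.tok (nat_lit 9) (nat_lit 0xbc0001780002fd0ca) (.hit (nat_lit 126) (nat_lit 20) (nat_lit 0xbc0001780002fc8a0)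 b33425 (.hit (nat_lit 127) (nat_lit 28) (nat_lit 0xbc0001780002fd0ca) b33426 (.nil))) (.nil))))) (.tok (nat_lit 23) (nat_lit 0xbc0001780002ff3c0) (.hit (nat_lit 128) (nat_lit 0) (nat_lit 0xbc0001780002ff3c0) b33427 (.one (nat_lit 3) (nat_lit 129) (nat_lit 1) (nat_lit 0xbc0001780002fe638) b33428 (.tok (nat_lit 6) (nat_lit 0xbc0001780002fe792) (.hit (nat_lit 130) (nat_lit 7) (nat_lit 0xbc0001780002fe792) b33429 (.hit (nat_lit 131) (nat_lit 15) (nat_lit 0xbc0001780002fe1e3) b33430 (.nil))) (.tok (nat_lit 9) (nat_lit 0xbc0001780002fe3f8) (.hit (nat_lit 132) (nat_lit 20) (nat_lit 0xbc0001780002fc8a0) b33425 (.hit (nat_lit 133) (nat_lit 28) (nat_lit 0xbc0001780002fe3f8) b33431 (.nil))) (.nil))))) (.tok (nat_lit 26) (nat_lit 0xbc0001780002ff4b3) (.hit (nat_lit 260) (nat_lit 0) (nat_lit 0xbc0001780002ff4b3) b33487 (.one (nat_lit 3) (nat_lit 261) (nat_lit 1) (nat_lit 0xbc0001780002faa39)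 b33488 (.tok (nat_lit 6) (nat_lit 0xbc0001780002fbc14) (.hit (nat_lit 262) (nat_lit 7) (nat_lit 0xbc0001780002fbb9d) b33489 (.hit (nat_lit 263) (nat_lit 15) (nat_lit 0xbc0001780002fbc14) b33490 (.nil))) (.tok (nat_lit 9) (nat_lit 0xbc0001780002fd7db) (.hit (nat_lit 264) (nat_lit 20) (nat_lit 0xbc0001780002fd7db) b33491 (.hit (nat_lit 265) (nat_lit 28) (nat_lit 0xbc0001780002fa893) b33492 (.nil))) (.nil))))) (.tok (nat_lit 29) (nat_lit 0xbc0001780002fda16) (.hit (nat_lit 266) (nat_lit 0) (nat_lit 0xbc0001780002fda16) b33493 (.one (nat_lit 3) (nat_lit 267) (nat_lit 1) (nat_lit 0xbc0001780002fac9b) b33494 (.tok (nat_lit 6) (nat_lit 0xbc0001780002fcf28) (.hit (nat_lit 268) (nat_lit 7) (nat_lit 0xbc0001780002fcc79) b33495 (.hit (nat_lit 269) (nat_lit 15) (nat_lit 0xbc0001780002fcf28) b33496 (.nil))) (.tok (nat_lit 9) (nat_lit 0xbc0001780002fc8df) (.hit (nat_lit 270) (nat_lit 20) (nat_lit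 0xbc0001780002fb944) b33497 (.hit (nat_lit 271) (nat_lit 28) (nat_lit 0xbc0001780002fc8df) b33498 (.nil))) (.nil))))) (.tok (nat_lit 32) (nat_lit 0xbc0001780002ff729) (.hit (nat_lit 272) (nat_lit 0) (nat_lit 0xbc0001780002ff729) b33499 (.one (nat_lit 3) (nat_lit 273) (nat_lit 1) (nat_lit 0xbc0001780002fba44) b33500 (.tok (nat_lit 6) (nat_lit 0xbc0001780002fd1cf) (.hit (nat_lit 274) (nat_lit 7) (nat_lit 0xbc0001780002fd1cf) b33501 (.hit (nat_lit 275) (nat_lit 15) (nat_lit 0xbc0001780002fcdf6) b33502 (.nil))) (.tok (nat_lit 9) (nat_lit 0xbc0001780002fcfd2) (.hit (nat_lit 276) (nat_lit 20) (nat_lit 0xbc0001780002fcc57) b33503 (.hit (nat_lit 277) (nat_lit 28) (nat_lit 0xbc0001780002fcfd2) b33504 (.nil))) (.nil))))) (.tok (nat_lit 35) (nat_lit 0xbc0001780002fe747) (.hit (nat_lit 278) (nat_lit 0) (nat_lit 0xbc0001780002fe747) b33505 (.one (nat_lit 3) (nat_lit 279) (nat_lit 1) (nat_lit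 0xbc0001780002fb12d) b33422 (.tok (nat_lit 6) (nat_lit 0xbc0001780002fb926) (.hit (nat_lit 280) (nat_lit 7) (nat_lit 0xbc0001780002fb926) b33506 (.hit (nat_lit 281) (nat_lit 15) (nat_lit 0xbc0001780002fa705) b33507 (.nil))) (.tok (nat_lit 9) (nat_lit 0xbc0001780002fc860) (.hit (nat_lit 282) (nat_lit 20) (nat_lit 0xbc0001780002fc5eb) b33447 (.hit (nat_lit 283) (nat_lit 28) (nat_lit 0xbc0001780002fc860) b33508 (.nil))) (.nil))))) (.tok (nat_lit 50) (nat_lit 0xbc0001780002fd966) (.hit (nat_lit 146) (nat_lit 0) (nat_lit 0xbc0001780002fd966) b33443 (.one (nat_lit 3) (nat_lit 147) (nat_lit 1) (nat_lit 0xbc0001780002fa201) b33444 (.tok (nat_lit 6) (nat_lit 0xbc0001780002fd47d) (.hit (nat_lit 148) (nat_lit 7) (nat_lit 0xbc0001780002fd47d) b33445 (.hit (nat_lit 149) (nat_lit 15) (nat_lit 0xbc0001780002fa888) b33446 (.nil))) (.tok (nat_lit 9) (nat_lit 0xbc0001780002fc5eb) (.hit (nat_lit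 150) (nat_lit 20) (nat_lit 0xbc0001780002fc5eb) b33447 (.hit (nat_lit 151) (nat_lit 28) (nat_lit 0xbc0001780002fb935) b33448 (.nil))) (.nil))))) (.tok (nat_lit 53) (nat_lit 0xbc000178000300000) (.hit (nat_lit 152) (nat_lit 0) (nat_lit 0xbc0001780002ff2d0) b33449 (.one (nat_lit 3) (nat_lit 153) (nat_lit 1) (nat_lit 0xbc0001780002ff9aa) b33450 (.tok (nat_lit 6) (nat_lit 0xbc0001780002ffca1) (.hit (nat_lit 154) (nat_lit 7) (nat_lit 0xbc0001780002ffca1) b33451 (.hit (nat_lit 155) (nat_lit 15) (nat_lit 0xbc0001780002ff2f9) b33452 (.nil))) (.tok (nat_lit 9) (nat_lit 0xbc000178000300000) (.hit (nat_lit 156) (nat_lit 20) (nat_lit 0xbc0001780002fd0d5) b33453 (.hit (nat_lit 157) (nat_lit 28) (nat_lit 0xbc000178000300000) b33454 (.nil))) (.nil))))) (.tok (nat_lit 56) (nat_lit 0xbc0001780002fdf20) (.hit (nat_lit 164) (nat_lit 0) (nat_lit 0xbc0001780002fdf20) b33461 (.one (nat_lit 3) (nat_lit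 165) (nat_lit 1) (nat_lit 0xbc0001780002fb12d) b33422 (.tok (nat_lit 6) (nat_lit 0xbc0001780002fc240) (.hit (nat_lit 166) (nat_lit 7) (nat_lit 0xbc0001780002fc240) b33462 (.hit (nat_lit 167) (nat_lit 15) (nat_lit 0xbc0001780002fb29b) b33463 (.nil))) (.tok (nat_lit 9) (nat_lit 0xbc0001780002fc9a5) (.hit (nat_lit 168) (nat_lit 20) (nat_lit 0xbc0001780002fc65c) b33464 (.hit (nat_lit 169) (nat_lit 28) (nat_lit 0xbc0001780002fc9a5) b33465 (.nil))) (.nil))))) (.tok (nat_lit 59) (nat_lit 0xbc0001780002fe993) (.hit (nat_lit 158) (nat_lit 0) (nat_lit 0xbc0001780002fe993) b33455 (.one (nat_lit 3) (nat_lit 159) (nat_lit 1) (nat_lit 0xbc0001780002fa64c) b33456 (.tok (nat_lit 6) (nat_lit 0xbc0001780002fc6f5) (.hit (nat_lit 160) (nat_lit 7) (nat_lit 0xbc0001780002fc45f) b33457 (.hit (nat_lit 161) (nat_lit 15) (nat_lit 0xbc0001780002fc6f5) b33458 (.nil))) (.tok (nat_lit 9) (nat_lit 0xbc0001780002fc81c)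 (.hit (nat_lit 162) (nat_lit 20) (nat_lit 0xbc0001780002fc81c) b33459 (.hit (nat_lit 163) (nat_lit 28) (nat_lit 0xbc0001780002fba72) b33460 (.nil))) (.nil))))) (.tok (nat_lit 62) (nat_lit 0xbc0001780002fd837) (.hit (nat_lit 170) (nat_lit 0) (nat_lit 0xbc0001780002fd837) b33466 (.one (nat_lit 3) (nat_lit 171) (nat_lit 1) (nat_lit 0xbc0001780002fb170) b33467 (.tok (nat_lit 6) (nat_lit 0xbc0001780002fb969) (.hit (nat_lit 172) (nat_lit 7) (nat_lit 0xbc0001780002fb969) b33468 (.hit (nat_lit 173) (nat_lit 15) (nat_lit 0xbc0001780002fb65d) b33469 (.nil))) (.tok (nat_lit 9) (nat_lit 0xbc0001780002fcc9a) (.hit (nat_lit 174) (nat_lit 20) (nat_lit 0xbc0001780002fcc9a) b33470 (.hit (nat_lit 175) (nat_lit 28) (nat_lit 0xbc0001780002fb9bc) b33471 (.nil))) (.nil))))) (.tok (nat_lit 65) (nat_lit 0xbc0001780002fe966) (.hit (nat_lit 181) (nat_lit 0) (nat_lit 0xbc0001780002fe8f6) b33472 (.one (nat_lit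 3) (nat_lit 182) (nat_lit 1) (nat_lit 0xbc0001780002fe236) b33473 (.tok (nat_lit 6) (nat_lit 0xbc0001780002fe2fb) (.hit (nat_lit 183) (nat_lit 7) (nat_lit 0xbc0001780002fc014) b33474 (.hit (nat_lit 184) (nat_lit 15) (nat_lit 0xbc0001780002fe2fb) b33475 (.nil))) (.tok (nat_lit 9) (nat_lit 0xbc0001780002fe966) (.hit (nat_lit 185) (nat_lit 20) (nat_lit 0xbc0001780002fe966) b33476 (.hit (nat_lit 186) (nat_lit 28) (nat_lit 0xbc0001780002fe08e) b33477 (.nil))) (.nil))))) (.tok (nat_lit 68) (nat_lit 0xbc0001780002fd89b) (.hit (nat_lit 209) (nat_lit 0) (nat_lit 0xbc0001780002fd89b) b33484 (.one (nat_lit 3) (nat_lit 210) (nat_lit 1) (nat_lit 0xbc0001780002fb12d) b33422 (.tok (nat_lit 6) (nat_lit 0xbc0001780002fd07f) (.hit (nat_lit 211) (nat_lit 7) (nat_lit 0xbc0001780002fc283) b33485 (.hit (nat_lit 212) (nat_lit 15) (nat_lit 0xbc0001780002fd07f) b33486 (.nil))) (.tok (nat_lit 9) (nat_lit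 0xbc0001780002fcc34) (.hit (nat_lit 213) (nat_lit 20) (nat_lit 0xbc0001780002fcc34) b33440 (.hit (nat_lit 214) (nat_lit 28) (nat_lit 0xbc0001780002fb29b) b33463 (.nil))) (.nil))))) (.tok (nat_lit 71) (nat_lit 0xbc0001780002fdf02) (.hit (nat_lit 195) (nat_lit 0) (nat_lit 0xbc0001780002fdf02) b33478 (.one (nat_lit 3) (nat_lit 196) (nat_lit 1) (nat_lit 0xbc0001780002fc2da) b33479 (.tok (nat_lit 6) (nat_lit 0xbc0001780002fd5e1) (.hit (nat_lit 197) (nat_lit 7) (nat_lit 0xbc0001780002fcc4b) b33480 (.hit (nat_lit 198) (nat_lit 15) (nat_lit 0xbc0001780002fd5e1) b33481 (.nil))) (.tok (nat_lit 9) (nat_lit 0xbc0001780002fcfd6) (.hit (nat_lit 199) (nat_lit 20) (nat_lit 0xbc0001780002fcfd6) b33482 (.hit (nat_lit 200) (nat_lit 28) (nat_lit 0xbc0001780002fcf9b) b33483 (.nil))) (.nil))))) (.nil))))))))))))))))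
noncomputable def r16_17 : Rw Blk := .tok (nat_lit 3) (nat_lit 0xbc0001780002ff39e) (.hit (nat_lit 18) (nat_lit 0) (nat_lit 0xbc0001780002ff36b) b33525 (.tok (nat_lit 6) (nat_lit 0xbc0001780002ff39e) (.hit (nat_lit 19) (nat_lit 7) (nat_lit 0xbc0001780002ff39e) b33526 (.hit (nat_lit 20) (nat_lit 15) (nat_lit 0xbc0001780002fe37a) b33527 (.nil))) (.tok (nat_lit 9) (nat_lit 0xbc0001780002fe9df) (.hit (nat_lit 21) (nat_lit 20) (nat_lit 0xbc0001780002fcf76) b33528 (.hit (nat_lit 22) (nat_lit 28) (nat_lit 0xbc0001780002fe9df) b33529 (.nil))) (.nil)))) (.tok (nat_lit 6) (nat_lit 0xbc0001780003036ed) (.hit (nat_lit 9) (nat_lit 0) (nat_lit 0xbc0001780002ff20b) b33517 (.one (nat_lit 3) (nat_lit 10) (nat_lit 1) (nat_lit 0xbc0001780002fee2f) b33518 (.tok (nat_lit 6) (nat_lit 0xbc0001780003036ed) (.hit (nat_lit 12) (nat_lit 7) (nat_lit 0xbc0001780003011d6) b33519 (.hit (nat_lit 16) (nat_lit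 15) (nat_lit 0xbc0001780002ffbe5) b33523 (.tok (nat_lit 55) (nat_lit 0xbc0001780003036ed) (.hit (nat_lit 13) (nat_lit 8) (nat_lit 0xbc0001780003025e8) b33520 (.hit (nat_lit 17) (nat_lit 16) (nat_lit 0xbc0001780003036ed) b33524 (.tok (nat_lit 6) (nat_lit 0xbc000178000301bc0) (.hit (nat_lit 14) (nat_lit 9) (nat_lit 0xbc000178000301bc0) b33521 (.one (nat_lit 55) (nat_lit 15) (nat_lit 10) (nat_lit 0xbc00017800030177e) b33522 (.nil))) (.nil)))) (.nil)))) (.nil)))) (.tok (nat_lit 9) (nat_lit 0xbc0001780002ffca2) (.hit (nat_lit 0) (nat_lit 0) (nat_lit 0xbc0001780002feddd) b33509 (.one (nat_lit 3) (nat_lit 1) (nat_lit 1) (nat_lit 0xbc0001780002fd361) b33510 (.tok (nat_lit 9) (nat_lit 0xbc0001780002ffca2) (.hit (nat_lit 3) (nat_lit 20) (nat_lit 0xbc0001780002fd33a) b33511 (.hit (nat_lit 7) (nat_lit 28) (nat_lit 0xbc0001780002fd48d) b33515 (.tok (nat_lit 67) (nat_lit 0xbc0001780002ffca2)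 (.hit (nat_lit 4) (nat_lit 21) (nat_lit 0xbc0001780002fee46) b33512 (.hit (nat_lit 8) (nat_lit 29) (nat_lit 0xbc0001780002ffc51) b33516 (.tok (nat_lit 9) (nat_lit 0xbc0001780002ffca2) (.hit (nat_lit 5) (nat_lit 22) (nat_lit 0xbc0001780002ff2d7) b33513 (.one (nat_lit 67) (nat_lit 6) (nat_lit 23) (nat_lit 0xbc0001780002ffca2) b33514 (.nil))) (.nil)))) (.nil)))) (.nil)))) (.nil)))
noncomputable def r16_18 : Rw Blk := .tok (nat_lit 3) (nat_lit 0xbc0001780002fee87) (.hit (nat_lit 0) (nat_lit 0) (nat_lit 0xbc0001780002fee87) b33530 (.tok (nat_lit 9) (nat_lit 0xbc0001780002fea58) (.hit (nat_lit 1) (nat_lit 20) (nat_lit 0xbc0001780002fd275) b33531 (.hit (nat_lit 4) (nat_lit 28) (nat_lit 0xbc0001780002fd042) b33534 (.one (nat_lit 56) (nat_lit 5) (nat_lit 31) (nat_lit 0xbc0001780002fe154) b33535 (.tok (nat_lit 68) (nat_lit 0xbc0001780002fea58) (.hit (nat_lit 2) (nat_lit 26) (nat_lit 0xbc0001780002fe4dd)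 b33532 (.hit (nat_lit 6) (nat_lit 32) (nat_lit 0xbc0001780002fe1a1) b33536 (.one (nat_lit 9) (nat_lit 3) (nat_lit 27) (nat_lit 0xbc0001780002fea58) b33533 (.nil)))) (.nil))))) (.nil))) (.tok (nat_lit 6) (nat_lit 0xbc0001780003032bc) (.hit (nat_lit 17) (nat_lit 0) (nat_lit 0xbc000178000300f53) b33537 (.tok (nat_lit 6) (nat_lit 0xbc0001780003016ac) (.hit (nat_lit 18) (nat_lit 7) (nat_lit 0xbc000178000300849) b33538 (.hit (nat_lit 21) (nat_lit 15) (nat_lit 0xbc0001780002fe546) b33541 (.tok (nat_lit 56) (nat_lit 0xbc0001780003016ac) (.hit (nat_lit 19) (nat_lit 13) (nat_lit 0xbc0001780002ffe32) b33539 (.hit (nat_lit 23) (nat_lit 19) (nat_lit 0xbc0001780002fef82) b33542 (.one (nat_lit 6) (nat_lit 20) (nat_lit 14) (nat_lit 0xbc0001780003016ac) b33540 (.nil)))) (.nil)))) (.tok (nat_lit 52) (nat_lit 0xbc000178000302e85) (.hit (nat_lit 24) (nat_lit 39) (nat_lit 0xbc0001780003012a5) b33543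 (.hit (nat_lit 25) (nat_lit 40) (nat_lit 0xbc000178000302e85) b33544 (.nil))) (.tok (nat_lit 55) (nat_lit 0xbc0001780003032bc) (.hit (nat_lit 26) (nat_lit 41) (nat_lit 0xbc0001780003032bc) b33545 (.one (nat_lit 3) (nat_lit 32) (nat_lit 47) (nat_lit 0xbc000178000301cc6) b33551 (.tok (nat_lit 6) (nat_lit 0xbc000178000302d66) (.hit (nat_lit 27) (nat_lit 42) (nat_lit 0xbc00017800030039d) b33546 (.hit (nat_lit 30) (nat_lit 45) (nat_lit 0xbc000178000301f46) b33549 (.tok (nat_lit 55) (nat_lit 0xbc000178000302d66) (.hit (nat_lit 28) (nat_lit 43) (nat_lit 0xbc000178000302d66) b33547 (.hit (nat_lit 31) (nat_lit 46) (nat_lit 0xbc0001780003013c0) b33550 (.one (nat_lit 6) (nat_lit 29) (nat_lit 44) (nat_lit 0xbc000178000302801) b33548 (.nil)))) (.nil)))) (.nil)))) (.one (nat_lit 58) (nat_lit 33) (nat_lit 49) (nat_lit 0xbc000178000301f15) b33552 (.nil)))))) (.nil))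
noncomputable def r16_19 : Rw Blk := .tok (nat_lit 3) (nat_lit 0xbc0001780002fea13) (.hit (nat_lit 14) (nat_lit 0) (nat_lit 0xbc0001780002fe765) b11531 (.tok (nat_lit 6) (nat_lit 0xbc0001780002fd770) (.hit (nat_lit 15) (nat_lit 7) (nat_lit 0xbc0001780002fc230) b11534 (.hit (nat_lit 16) (nat_lit 15) (nat_lit 0xbc0001780002fd770) b11535 (.nil))) (.tok (nat_lit 9) (nat_lit 0xbc0001780002fea13) (.hit (nat_lit 17) (nat_lit 20) (nat_lit 0xbc0001780002fea13) b11532 (.hit (nat_lit 18) (nat_lit 28) (nat_lit 0xbc0001780002fd99e) b11533 (.nil))) (.nil)))) (.tok (nat_lit 6) (nat_lit 0xbc000178000300000) (.hit (nat_lit 0) (nat_lit 0) (nat_lit 0xbc0001780002fef7d) b11519 (.one (nat_lit 3) (nat_lit 1) (nat_lit 1) (nat_lit 0xbc0001780002fcdae) b11520 (.tok (nat_lit 6) (nat_lit 0xbc000178000300000) (.hit (nat_lit 3) (nat_lit 7) (nat_lit 0xbc0001780002fdd6a) b11521 (.hit (nat_lit 7) (nat_lit 15)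 (nat_lit 0xbc0001780002fd9a1) b11525 (.tok (nat_lit 55) (nat_lit 0xbc000178000300000) (.hit (nat_lit 4) (nat_lit 8) (nat_lit 0xbc0001780002fed14) b11522 (.hit (nat_lit 8) (nat_lit 16) (nat_lit 0xbc0001780002ff9e4) b11526 (.tok (nat_lit 6) (nat_lit 0xbc000178000300000) (.hit (nat_lit 5) (nat_lit 9) (nat_lit 0xbc0001780002fed7b) b11523 (.one (nat_lit 55) (nat_lit 6) (nat_lit 10) (nat_lit 0xbc000178000300000) b11524 (.nil))) (.nil)))) (.nil)))) (.nil)))) (.tok (nat_lit 9) (nat_lit 0xbc0001780002ff848) (.hit (nat_lit 9) (nat_lit 0) (nat_lit 0xbc0001780002ff848) b11527 (.one (nat_lit 3) (nat_lit 10) (nat_lit 1) (nat_lit 0xbc0001780002ff337) b11528 (.tok (nat_lit 9) (nat_lit 0xbc0001780002fea47) (.hit (nat_lit 12) (nat_lit 20) (nat_lit 0xbc0001780002fe927) b11529 (.hit (nat_lit 13) (nat_lit 28) (nat_lit 0xbc0001780002fea47) b11530 (.nil))) (.nil)))) (.nil)))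
noncomputable def r16_20 : Rw Blk := .tok (nat_lit 3) (nat_lit 0xbc0001780002ff7bf) (.hit (nat_lit 0) (nat_lit 0) (nat_lit 0xbc0001780002fedb7) b33553 (.tok (nat_lit 6) (nat_lit 0xbc0001780002ff7bf) (.hit (nat_lit 1) (nat_lit 7) (nat_lit 0xbc0001780002fdcce) b33554 (.hit (nat_lit 6) (nat_lit 15) (nat_lit 0xbc0001780002fce55) b33559 (.tok (nat_lit 14) (nat_lit 0xbc0001780002fea1a) (.hit (nat_lit 2) (nat_lit 11) (nat_lit 0xbc0001780002fe3e7) b33555 (.hit (nat_lit 7) (nat_lit 17) (nat_lit 0xbc0001780002fe4e4) b33560 (.one (nat_lit 9) (nat_lit 3) (nat_lit 12) (nat_lit 0xbc0001780002fea1a) b33556 (.nil)))) (.tok (nat_lit 56) (nat_lit 0xbc0001780002ff7bf) (.hit (nat_lit 4) (nat_lit 13) (nat_lit 0xbc0001780002fefd3) b33557 (.hit (nat_lit 8) (nat_lit 19) (nat_lit 0xbc0001780002fe15c) b33561 (.one (nat_lit 6) (nat_lit 5) (nat_lit 14) (nat_lit 0xbc0001780002ff7bf) b33558 (.nil)))) (.nil)))))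 (.nil))) (.tok (nat_lit 9) (nat_lit 0xbc0001780003039cb) (.hit (nat_lit 20) (nat_lit 0) (nat_lit 0xbc0001780002feddd) b33562 (.tok (nat_lit 9) (nat_lit 0xbc0001780003039cb) (.hit (nat_lit 21) (nat_lit 20) (nat_lit 0xbc0001780002fede4) b33563 (.hit (nat_lit 26) (nat_lit 28) (nat_lit 0xbc0001780002fcfec) b33568 (.tok (nat_lit 14) (nat_lit 0xbc0001780003039cb) (.hit (nat_lit 22) (nat_lit 24) (nat_lit 0xbc0001780003039cb) b33564 (.hit (nat_lit 27) (nat_lit 30) (nat_lit 0xbc0001780002fef6e) b33569 (.one (nat_lit 6) (nat_lit 23) (nat_lit 25) (nat_lit 0xbc0001780003033c7) b33565 (.nil)))) (.tok (nat_lit 68) (nat_lit 0xbc000178000300ed5) (.hit (nat_lit 24) (nat_lit 26) (nat_lit 0xbc000178000300ed5) b33566 (.hit (nat_lit 29) (nat_lit 32) (nat_lit 0xbc0001780002fee02) b33570 (.one (nat_lit 9) (nat_lit 25) (nat_lit 27) (nat_lit 0xbc0001780002ff4e0) b33567 (.nil)))) (.nil))))) (.nil))) (.nil))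
noncomputable def r16_21 : Rw Blk := .tok (nat_lit 14) (nat_lit 0xbc0001780002fec95) (.hit (nat_lit 140) (nat_lit 0) (nat_lit 0xbc0001780002fe1b4) b11566 (.one (nat_lit 3) (nat_lit 141) (nat_lit 1) (nat_lit 0xbc0001780002fb3a1) b11567 (.tok (nat_lit 6) (nat_lit 0xbc0001780002fdf7f) (.hit (nat_lit 142) (nat_lit 7) (nat_lit 0xbc0001780002fd814) b11570 (.hit (nat_lit 143) (nat_lit 15) (nat_lit 0xbc0001780002fdf7f) b11571 (.nil))) (.tok (nat_lit 9) (nat_lit 0xbc0001780002fec95) (.hit (nat_lit 144) (nat_lit 20) (nat_lit 0xbc0001780002fe1d4) b11568 (.hit (nat_lit 145) (nat_lit 28) (nat_lit 0xbc0001780002fec95) b11569 (.nil))) (.nil))))) (.tok (nat_lit 17) (nat_lit 0xbc0001780002ff224) (.hit (nat_lit 134) (nat_lit 0) (nat_lit 0xbc0001780002ff224) b11572 (.one (nat_lit 3) (nat_lit 135) (nat_lit 1) (nat_lit 0xbc0001780002fc30c) b11573 (.tok (nat_lit 6) (nat_lit 0xbc0001780002ff1f9) (.hit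 (nat_lit 136) (nat_lit 7) (nat_lit 0xbc0001780002fd3f6) b11576 (.hit (nat_lit 137) (nat_lit 15) (nat_lit 0xbc0001780002ff1f9) b11577 (.nil))) (.tok (nat_lit 9) (nat_lit 0xbc0001780002fe704) (.hit (nat_lit 138) (nat_lit 20) (nat_lit 0xbc0001780002fe3e8) b11574 (.hit (nat_lit 139) (nat_lit 28) (nat_lit 0xbc0001780002fe704) b11575 (.nil))) (.nil))))) (.tok (nat_lit 20) (nat_lit 0xbc0001780002ffdd8) (.hit (nat_lit 122) (nat_lit 0) (nat_lit 0xbc0001780002ff86d) b11554 (.one (nat_lit 3) (nat_lit 123) (nat_lit 1) (nat_lit 0xbc0001780002fe880) b11555 (.tok (nat_lit 6) (nat_lit 0xbc0001780002ffdd8) (.hit (nat_lit 124) (nat_lit 7) (nat_lit 0xbc0001780002fdd71) b11558 (.hit (nat_lit 125) (nat_lit 15) (nat_lit 0xbc0001780002ffdd8) b11559 (.nil))) (.tok (nat_lit 9) (nat_lit 0xbc0001780002ffaf4) (.hit (nat_lit 126) (nat_lit 20) (nat_lit 0xbc0001780002ff94f) b11556 (.hit (nat_lit 127) (nat_lit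 28) (nat_lit 0xbc0001780002ffaf4) b11557 (.nil))) (.nil))))) (.tok (nat_lit 23) (nat_lit 0xbc0001780002ffba1) (.hit (nat_lit 128) (nat_lit 0) (nat_lit 0xbc0001780002ff7e9) b11560 (.one (nat_lit 3) (nat_lit 129) (nat_lit 1) (nat_lit 0xbc0001780002ff083) b11561 (.tok (nat_lit 6) (nat_lit 0xbc0001780002ff58c) (.hit (nat_lit 130) (nat_lit 7) (nat_lit 0xbc0001780002ff484) b11564 (.hit (nat_lit 131) (nat_lit 15) (nat_lit 0xbc0001780002ff58c) b11565 (.nil))) (.tok (nat_lit 9) (nat_lit 0xbc0001780002ffba1) (.hit (nat_lit 132) (nat_lit 20) (nat_lit 0xbc0001780002fe211) b11562 (.hit (nat_lit 133) (nat_lit 28) (nat_lit 0xbc0001780002ffba1) b11563 (.nil))) (.nil))))) (.tok (nat_lit 26) (nat_lit 0xbc000178000300000) (.hit (nat_lit 260) (nat_lit 0) (nat_lit 0xbc000178000300000) b11621 (.one (nat_lit 3) (nat_lit 261) (nat_lit 1) (nat_lit 0xbc0001780002fcb72) b11622 (.tok (nat_lit 6) (nat_lit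 0xbc0001780002fe49f) (.hit (nat_lit 262) (nat_lit 7) (nat_lit 0xbc0001780002fe49f) b11625 (.hit (nat_lit 263) (nat_lit 15) (nat_lit 0xbc0001780002fd64a) b11626 (.nil))) (.tok (nat_lit 9) (nat_lit 0xbc0001780002fe7af) (.hit (nat_lit 264) (nat_lit 20) (nat_lit 0xbc0001780002fd11e) b11623 (.hit (nat_lit 265) (nat_lit 28) (nat_lit 0xbc0001780002fe7af) b11624 (.nil))) (.nil))))) (.tok (nat_lit 29) (nat_lit 0xbc0001780002feb9b) (.hit (nat_lit 266) (nat_lit 0) (nat_lit 0xbc0001780002feb9b) b11627 (.one (nat_lit 3) (nat_lit 267) (nat_lit 1) (nat_lit 0xbc0001780002fc854) b11628 (.tok (nat_lit 6) (nat_lit 0xbc0001780002feb3b) (.hit (nat_lit 268) (nat_lit 7) (nat_lit 0xbc0001780002fe234) b11631 (.hit (nat_lit 269) (nat_lit 15) (nat_lit 0xbc0001780002feb3b) b11632 (.nil))) (.tok (nat_lit 9) (nat_lit 0xbc0001780002fea0f) (.hit (nat_lit 270) (nat_lit 20) (nat_lit 0xbc0001780002fdba4) b11629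 (.hit (nat_lit 271) (nat_lit 28) (nat_lit 0xbc0001780002fea0f) b11630 (.nil))) (.nil))))) (.tok (nat_lit 32) (nat_lit 0xbc0001780002ff349) (.hit (nat_lit 272) (nat_lit 0) (nat_lit 0xbc0001780002ff349) b11633 (.one (nat_lit 3) (nat_lit 273) (nat_lit 1) (nat_lit 0xbc0001780002fc6cd) b11591 (.tok (nat_lit 6) (nat_lit 0xbc0001780002feb30) (.hit (nat_lit 274) (nat_lit 7) (nat_lit 0xbc0001780002fd113) b11636 (.hit (nat_lit 275) (nat_lit 15) (nat_lit 0xbc0001780002feb30) b11637 (.nil))) (.tok (nat_lit 9) (nat_lit 0xbc0001780002fe204) (.hit (nat_lit 276) (nat_lit 20) (nat_lit 0xbc0001780002fe204) b11634 (.hit (nat_lit 277) (nat_lit 28) (nat_lit 0xbc0001780002fcaff) b11635 (.nil))) (.nil))))) (.tok (nat_lit 35) (nat_lit 0xbc0001780002fefc8) (.hit (nat_lit 278) (nat_lit 0) (nat_lit 0xbc0001780002fefc8) b11638 (.one (nat_lit 3) (nat_lit 279) (nat_lit 1) (nat_lit 0xbc0001780002fc6cd) b11591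 (.tok (nat_lit 6) (nat_lit 0xbc0001780002fdea5) (.hit (nat_lit 280) (nat_lit 7) (nat_lit 0xbc0001780002fdea5) b11641 (.hit (nat_lit 281) (nat_lit 15) (nat_lit 0xbc0001780002fc977) b11642 (.nil))) (.tok (nat_lit 9) (nat_lit 0xbc0001780002fe91c) (.hit (nat_lit 282) (nat_lit 20) (nat_lit 0xbc0001780002fe1c0) b11639 (.hit (nat_lit 283) (nat_lit 28) (nat_lit 0xbc0001780002fe91c) b11640 (.nil))) (.nil))))) (.tok (nat_lit 50) (nat_lit 0xbc0001780002fedf1) (.hit (nat_lit 146) (nat_lit 0) (nat_lit 0xbc0001780002fedf1) b11578 (.one (nat_lit 3) (nat_lit 147) (nat_lit 1) (nat_lit 0xbc0001780002fc721) b11579 (.tok (nat_lit 6) (nat_lit 0xbc0001780002fdd19) (.hit (nat_lit 148) (nat_lit 7) (nat_lit 0xbc0001780002fdd19) b11582 (.hit (nat_lit 149) (nat_lit 15) (nat_lit 0xbc0001780002fcf2c) b11583 (.nil))) (.tok (nat_lit 9) (nat_lit 0xbc0001780002fd0f6) (.hit (nat_lit 150) (nat_lit 20) (nat_lit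 0xbc0001780002fd0f6) b11580 (.hit (nat_lit 151) (nat_lit 28) (nat_lit 0xbc0001780002fccfa) b11581 (.nil))) (.nil))))) (.tok (nat_lit 53) (nat_lit 0xbc0001780002ff97a) (.hit (nat_lit 152) (nat_lit 0) (nat_lit 0xbc0001780002ff538) b11584 (.one (nat_lit 3) (nat_lit 153) (nat_lit 1) (nat_lit 0xbc0001780002fef66) b11585 (.tok (nat_lit 6) (nat_lit 0xbc0001780002ff97a) (.hit (nat_lit 154) (nat_lit 7) (nat_lit 0xbc0001780002ff97a) b11588 (.hit (nat_lit 155) (nat_lit 15) (nat_lit 0xbc0001780002ff7f4) b11589 (.nil))) (.tok (nat_lit 9) (nat_lit 0xbc0001780002ff5bf) (.hit (nat_lit 156) (nat_lit 20) (nat_lit 0xbc0001780002fe90e) b11586 (.hit (nat_lit 157) (nat_lit 28) (nat_lit 0xbc0001780002ff5bf) b11587 (.nil))) (.nil))))) (.tok (nat_lit 56) (nat_lit 0xbc0001780002feaf7) (.hit (nat_lit 164) (nat_lit 0) (nat_lit 0xbc0001780002fe838) b11590 (.one (nat_lit 3) (nat_lit 165) (nat_lit 1) (nat_lit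 0xbc0001780002fc6cd) b11591 (.tok (nat_lit 6) (nat_lit 0xbc0001780002fde62) (.hit (nat_lit 166) (nat_lit 7) (nat_lit 0xbc0001780002fde62) b11594 (.hit (nat_lit 167) (nat_lit 15) (nat_lit 0xbc0001780002fc83b) b11595 (.nil))) (.tok (nat_lit 9) (nat_lit 0xbc0001780002feaf7) (.hit (nat_lit 168) (nat_lit 20) (nat_lit 0xbc0001780002fe217) b11592 (.hit (nat_lit 169) (nat_lit 28) (nat_lit 0xbc0001780002feaf7) b11593 (.nil))) (.nil))))) (.tok (nat_lit 59) (nat_lit 0xbc0001780002ff380) (.hit (nat_lit 158) (nat_lit 0) (nat_lit 0xbc0001780002ff380) b11596 (.one (nat_lit 3) (nat_lit 159) (nat_lit 1) (nat_lit 0xbc0001780002fc6cd) b11591 (.tok (nat_lit 6) (nat_lit 0xbc0001780002fe018) (.hit (nat_lit 160) (nat_lit 7) (nat_lit 0xbc0001780002fdb64) b11599 (.hit (nat_lit 161) (nat_lit 15) (nat_lit 0xbc0001780002fe018) b11600 (.nil))) (.tok (nat_lit 9) (nat_lit 0xbc0001780002fdc9f) (.hit (nat_lit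 162) (nat_lit 20) (nat_lit 0xbc0001780002fdc9f) b11597 (.hit (nat_lit 163) (nat_lit 28) (nat_lit 0xbc0001780002fd06e) b11598 (.nil))) (.nil))))) (.tok (nat_lit 62) (nat_lit 0xbc0001780002ff8ae) (.hit (nat_lit 170) (nat_lit 0) (nat_lit 0xbc0001780002fe8d1) b11601 (.one (nat_lit 3) (nat_lit 171) (nat_lit 1) (nat_lit 0xbc0001780002fcbe0) b11602 (.tok (nat_lit 6) (nat_lit 0xbc0001780002fd681) (.hit (nat_lit 172) (nat_lit 7) (nat_lit 0xbc0001780002fd681) b11605 (.hit (nat_lit 173) (nat_lit 15) (nat_lit 0xbc0001780002fd068) b11606 (.nil))) (.tok (nat_lit 9) (nat_lit 0xbc0001780002ff8ae) (.hit (nat_lit 174) (nat_lit 20) (nat_lit 0xbc0001780002ff8ae) b11603 (.hit (nat_lit 175) (nat_lit 28) (nat_lit 0xbc0001780002fd1f0) b11604 (.nil))) (.nil))))) (.tok (nat_lit 65) (nat_lit 0xbc0001780002ffe44) (.hit (nat_lit 181) (nat_lit 0) (nat_lit 0xbc0001780002ff934) b11607 (.one (nat_lit 3) (nat_lit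 182) (nat_lit 1) (nat_lit 0xbc0001780002ff03a) b11608 (.tok (nat_lit 6) (nat_lit 0xbc0001780002ffe44) (.hit (nat_lit 183) (nat_lit 7) (nat_lit 0xbc0001780002fe79e) b11611 (.hit (nat_lit 184) (nat_lit 15) (nat_lit 0xbc0001780002ffe44) b11612 (.nil))) (.tok (nat_lit 9) (nat_lit 0xbc0001780002ff7aa) (.hit (nat_lit 185) (nat_lit 20) (nat_lit 0xbc0001780002ff7aa) b11609 (.hit (nat_lit 186) (nat_lit 28) (nat_lit 0xbc0001780002ff2b2) b11610 (.nil))) (.nil))))) (.tok (nat_lit 68) (nat_lit 0xbc0001780002fef19) (.hit (nat_lit 209) (nat_lit 0) (nat_lit 0xbc0001780002fef19) b11613 (.one (nat_lit 3) (nat_lit 210) (nat_lit 1) (nat_lit 0xbc0001780002fc6cd) b11591 (.tok (nat_lit 6) (nat_lit 0xbc0001780002fedd0) (.hit (nat_lit 211) (nat_lit 7) (nat_lit 0xbc0001780002fe217) b11592 (.hit (nat_lit 212) (nat_lit 15) (nat_lit 0xbc0001780002fedd0) b11614 (.nil))) (.tok (nat_lit 9) (nat_lit 0xbc0001780002fe1d4)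 (.hit (nat_lit 213) (nat_lit 20) (nat_lit 0xbc0001780002fe1d4) b11568 (.hit (nat_lit 214) (nat_lit 28) (nat_lit 0xbc0001780002fc83b) b11595 (.nil))) (.nil))))) (.tok (nat_lit 71) (nat_lit 0xbc0001780002fffa3) (.hit (nat_lit 195) (nat_lit 0) (nat_lit 0xbc0001780002ff259) b11615 (.one (nat_lit 3) (nat_lit 196) (nat_lit 1) (nat_lit 0xbc0001780002fd326) b11616 (.tok (nat_lit 6) (nat_lit 0xbc0001780002fffa3) (.hit (nat_lit 197) (nat_lit 7) (nat_lit 0xbc0001780002fffa3) b11619 (.hit (nat_lit 198) (nat_lit 15) (nat_lit 0xbc0001780002fc338) b11620 (.nil))) (.tok (nat_lit 9) (nat_lit 0xbc0001780002fef16) (.hit (nat_lit 199) (nat_lit 20) (nat_lit 0xbc0001780002fe9ee) b11617 (.hit (nat_lit 200) (nat_lit 28) (nat_lit 0xbc0001780002fef16) b11618 (.nil))) (.nil))))) (.nil))))))))))))))))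
noncomputable def r16_22 : Rw Blk := .tok (nat_lit 3) (nat_lit 0xbc0001780002fdfe3) (.hit (nat_lit 18) (nat_lit 0) (nat_lit 0xbc0001780002fdfe3) b11659 (.tok (nat_lit 6) (nat_lit 0xbc0001780002fd426) (.hit (nat_lit 19) (nat_lit 7) (nat_lit 0xbc0001780002fcfcf) b11662 (.hit (nat_lit 20) (nat_lit 15) (nat_lit 0xbc0001780002fd426) b11663 (.nil))) (.tok (nat_lit 9) (nat_lit 0xbc0001780002fcf6d) (.hit (nat_lit 21) (nat_lit 20) (nat_lit 0xbc0001780002fcf6d) b11660 (.hit (nat_lit 22) (nat_lit 28) (nat_lit 0xbc0001780002fce45) b11661 (.nil))) (.nil)))) (.tok (nat_lit 6) (nat_lit 0xbc0001780002ff906) (.hit (nat_lit 9) (nat_lit 0) (nat_lit 0xbc0001780002fdff6) b11651 (.one (nat_lit 3) (nat_lit 10) (nat_lit 1) (nat_lit 0xbc0001780002fda7f) b11652 (.tok (nat_lit 6) (nat_lit 0xbc0001780002ff906) (.hit (nat_lit 12) (nat_lit 7) (nat_lit 0xbc0001780002fd406) b11653 (.hit (nat_lit 16) (nat_lit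 15) (nat_lit 0xbc0001780002fda9c) b11657 (.tok (nat_lit 55) (nat_lit 0xbc0001780002ff906) (.hit (nat_lit 13) (nat_lit 8) (nat_lit 0xbc0001780002ff85e) b11654 (.hit (nat_lit 17) (nat_lit 16) (nat_lit 0xbc0001780002ff5a9) b11658 (.tok (nat_lit 6) (nat_lit 0xbc0001780002ff906) (.hit (nat_lit 14) (nat_lit 9) (nat_lit 0xbc0001780002ff051) b11655 (.one (nat_lit 55) (nat_lit 15) (nat_lit 10) (nat_lit 0xbc0001780002ff906) b11656 (.nil))) (.nil)))) (.nil)))) (.nil)))) (.tok (nat_lit 9) (nat_lit 0xbc000178000300000) (.hit (nat_lit 0) (nat_lit 0) (nat_lit 0xbc0001780002fea59) b11643 (.one (nat_lit 3) (nat_lit 1) (nat_lit 1) (nat_lit 0xbc0001780002fd338) b11644 (.tok (nat_lit 9) (nat_lit 0xbc000178000300000) (.hit (nat_lit 3) (nat_lit 20) (nat_lit 0xbc0001780002feccc) b11645 (.hit (nat_lit 7) (nat_lit 28) (nat_lit 0xbc0001780002fdb65) b11649 (.tok (nat_lit 67) (nat_lit 0xbc000178000300000)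 (.hit (nat_lit 4) (nat_lit 21) (nat_lit 0xbc0001780002ffb92) b11646 (.hit (nat_lit 8) (nat_lit 29) (nat_lit 0xbc0001780002ff0f8) b11650 (.tok (nat_lit 9) (nat_lit 0xbc000178000300000) (.hit (nat_lit 5) (nat_lit 22) (nat_lit 0xbc0001780002ff9af) b11647 (.one (nat_lit 67) (nat_lit 6) (nat_lit 23) (nat_lit 0xbc000178000300000) b11648 (.nil))) (.nil)))) (.nil)))) (.nil)))) (.nil)))
noncomputable def r16_23 : Rw Blk := .tok (nat_lit 3) (nat_lit 0xbc0001780002fe0fa) (.hit (nat_lit 14) (nat_lit 0) (nat_lit 0xbc0001780002fe0fa) b11676 (.tok (nat_lit 6) (nat_lit 0xbc0001780002fd259) (.hit (nat_lit 15) (nat_lit 7) (nat_lit 0xbc0001780002fd259) b11679 (.hit (nat_lit 16) (nat_lit 15) (nat_lit 0xbc0001780002fceec) b11680 (.nil))) (.tok (nat_lit 9) (nat_lit 0xbc0001780002fc822) (.hit (nat_lit 17) (nat_lit 20) (nat_lit 0xbc0001780002fc2b3) b11677 (.hit (nat_lit 18) (nat_lit 28) (nat_lit 0xbc0001780002fc822)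 b11678 (.nil))) (.nil)))) (.tok (nat_lit 6) (nat_lit 0xbc000178000300000) (.hit (nat_lit 9) (nat_lit 0) (nat_lit 0xbc0001780002ff539) b11672 (.one (nat_lit 3) (nat_lit 10) (nat_lit 1) (nat_lit 0xbc0001780002ff55b) b11673 (.tok (nat_lit 6) (nat_lit 0xbc000178000300000) (.hit (nat_lit 12) (nat_lit 7) (nat_lit 0xbc000178000300000) b11674 (.hit (nat_lit 13) (nat_lit 15) (nat_lit 0xbc0001780002fece6) b11675 (.nil))) (.nil)))) (.tok (nat_lit 9) (nat_lit 0xbc0001780002feecd) (.hit (nat_lit 0) (nat_lit 0) (nat_lit 0xbc0001780002feecd) b11664 (.one (nat_lit 3) (nat_lit 1) (nat_lit 1) (nat_lit 0xbc0001780002fd06c) b11665 (.tok (nat_lit 9) (nat_lit 0xbc0001780002fee0c) (.hit (nat_lit 3) (nat_lit 20) (nat_lit 0xbc0001780002fcbf6) b11666 (.hit (nat_lit 7) (nat_lit 28) (nat_lit 0xbc0001780002fd152) b11670 (.tok (nat_lit 67) (nat_lit 0xbc0001780002fee0c) (.hit (nat_lit 4) (nat_lit 21) (nat_lit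 0xbc0001780002fe358) b11667 (.hit (nat_lit 8) (nat_lit 29) (nat_lit 0xbc0001780002fee0c) b11671 (.tok (nat_lit 9) (nat_lit 0xbc0001780002fed8f) (.hit (nat_lit 5) (nat_lit 22) (nat_lit 0xbc0001780002fde0b) b11668 (.one (nat_lit 67) (nat_lit 6) (nat_lit 23) (nat_lit 0xbc0001780002fed8f) b11669 (.nil))) (.nil)))) (.nil)))) (.nil)))) (.nil)))
noncomputable def r16_24 : Rw Blk := .tok (nat_lit 3) (nat_lit 0xbc0001780002fe332) (.hit (nat_lit 14) (nat_lit 0) (nat_lit 0xbc0001780002fe332) b15487 (.tok (nat_lit 6) (nat_lit 0xbc0001780002fd0a7) (.hit (nat_lit 15) (nat_lit 7) (nat_lit 0xbc0001780002fd0a7) b15488 (.hit (nat_lit 16) (nat_lit 15) (nat_lit 0xbc0001780002faa89) b15489 (.nil))) (.tok (nat_lit 9) (nat_lit 0xbc0001780002fd58b) (.hit (nat_lit 17) (nat_lit 20) (nat_lit 0xbc0001780002fd58b) b15490 (.hit (nat_lit 18) (nat_lit 28) (nat_lit 0xbc0001780002fd007) b15491 (.nil))) (.nil))))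 (.tok (nat_lit 6) (nat_lit 0xbc0001780002ff6c3) (.hit (nat_lit 0) (nat_lit 0) (nat_lit 0xbc0001780002ff2fa) b15473 (.one (nat_lit 3) (nat_lit 1) (nat_lit 1) (nat_lit 0xbc0001780002fd593) b15474 (.tok (nat_lit 6) (nat_lit 0xbc0001780002ff6c3) (.hit (nat_lit 3) (nat_lit 7) (nat_lit 0xbc0001780002fd2ad) b15476 (.hit (nat_lit 7) (nat_lit 15) (nat_lit 0xbc0001780002fd3a5) b15480 (.tok (nat_lit 55) (nat_lit 0xbc0001780002ff6c3) (.hit (nat_lit 4) (nat_lit 8) (nat_lit 0xbc0001780002fe8c9) b15477 (.hit (nat_lit 8) (nat_lit 16) (nat_lit 0xbc0001780002ff0ef) b15481 (.tok (nat_lit 6) (nat_lit 0xbc0001780002ff6c3) (.hit (nat_lit 5) (nat_lit 9) (nat_lit 0xbc0001780002fe8ce) b15478 (.one (nat_lit 55) (nat_lit 6) (nat_lit 10) (nat_lit 0xbc0001780002ff6c3) b15479 (.nil))) (.nil)))) (.nil)))) (.nil)))) (.tok (nat_lit 9) (nat_lit 0xbc000178000300000) (.hit (nat_lit 9) (nat_lit 0) (nat_lit 0xbc000178000300000)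 b15482 (.one (nat_lit 3) (nat_lit 10) (nat_lit 1) (nat_lit 0xbc0001780002fda4e) b15483 (.tok (nat_lit 9) (nat_lit 0xbc0001780002ff2c2) (.hit (nat_lit 12) (nat_lit 20) (nat_lit 0xbc0001780002ff2c2) b15485 (.hit (nat_lit 13) (nat_lit 28) (nat_lit 0xbc0001780002fdd07) b15486 (.nil))) (.nil)))) (.nil)))
noncomputable def r16_25 : Rw Blk := .tok (nat_lit 6) (nat_lit 0xbc000178000300e86) (.hit (nat_lit 0) (nat_lit 0) (nat_lit 0xbc000178000300e86) b33571 (.tok (nat_lit 3) (nat_lit 0xbc0001780002fe412) (.hit (nat_lit 1) (nat_lit 1) (nat_lit 0xbc0001780002fc71e) b33572 (.one (nat_lit 56) (nat_lit 3) (nat_lit 6) (nat_lit 0xbc0001780002fe412) b33573 (.nil))) (.tok (nat_lit 40) (nat_lit 0xbc0001780002fe8cb) (.hit (nat_lit 4) (nat_lit 33) (nat_lit 0xbc0001780002fe345) b33574 (.hit (nat_lit 5) (nat_lit 34) (nat_lit 0xbc0001780002fe8cb) b33575 (.nil))) (.tok (nat_lit 43) (nat_lit 0xbc0001780002ff526)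 (.hit (nat_lit 6) (nat_lit 35) (nat_lit 0xbc0001780002ff526) b33576 (.hit (nat_lit 7) (nat_lit 36) (nat_lit 0xbc0001780002fef8b) b33577 (.nil))) (.tok (nat_lit 46) (nat_lit 0xbc0001780002ff44f) (.hit (nat_lit 8) (nat_lit 37) (nat_lit 0xbc0001780002ff44f) b33578 (.hit (nat_lit 9) (nat_lit 38) (nat_lit 0xbc0001780002ff0ea) b33579 (.nil))) (.nil)))))) (.tok (nat_lit 9) (nat_lit 0xbc000178000303c2a) (.hit (nat_lit 10) (nat_lit 0) (nat_lit 0xbc000178000301aaf) b33580 (.tok (nat_lit 3) (nat_lit 0xbc0001780003000dc) (.hit (nat_lit 11) (nat_lit 1) (nat_lit 0xbc0001780002ff09e) b33581 (.one (nat_lit 68) (nat_lit 13) (nat_lit 5) (nat_lit 0xbc0001780003000dc) b33582 (.nil))) (.tok (nat_lit 40) (nat_lit 0xbc0001780002ffd90) (.hit (nat_lit 14) (nat_lit 33) (nat_lit 0xbc0001780002ffd90) b33583 (.hit (nat_lit 15) (nat_lit 34) (nat_lit 0xbc0001780002ffbf8) b33584 (.nil))) (.tok (nat_lit 43)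 (nat_lit 0xbc000178000300f20) (.hit (nat_lit 16) (nat_lit 35) (nat_lit 0xbc0001780002fed4b) b33585 (.hit (nat_lit 17) (nat_lit 36) (nat_lit 0xbc000178000300f20) b33586 (.nil))) (.tok (nat_lit 46) (nat_lit 0xbc000178000303c2a) (.hit (nat_lit 18) (nat_lit 37) (nat_lit 0xbc000178000303c2a) b33587 (.hit (nat_lit 19) (nat_lit 38) (nat_lit 0xbc0001780002fec98) b33588 (.nil))) (.nil)))))) (.nil))
noncomputable def r16_26 : Rw Blk := .tok (nat_lit 6) (nat_lit 0xbc000178000300af1) (.hit (nat_lit 0) (nat_lit 0) (nat_lit 0xbc0001780002fffd4) b33589 (.tok (nat_lit 3) (nat_lit 0xbc0001780002ff0e5) (.hit (nat_lit 1) (nat_lit 1) (nat_lit 0xbc0001780002fd7f9) b33590 (.one (nat_lit 56) (nat_lit 3) (nat_lit 6) (nat_lit 0xbc0001780002ff0e5) b33591 (.nil))) (.tok (nat_lit 40) (nat_lit 0xbc0001780002ff9a9) (.hit (nat_lit 4) (nat_lit 33) (nat_lit 0xbc0001780002ff56a) b33592 (.hit (nat_lit 5) (nat_lit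 34) (nat_lit 0xbc0001780002ff9a9) b33593 (.nil))) (.tok (nat_lit 43) (nat_lit 0xbc0001780003004de) (.hit (nat_lit 6) (nat_lit 35) (nat_lit 0xbc0001780003004de) b33594 (.hit (nat_lit 7) (nat_lit 36) (nat_lit 0xbc0001780002feebf) b33595 (.nil))) (.tok (nat_lit 46) (nat_lit 0xbc000178000300af1) (.hit (nat_lit 8) (nat_lit 37) (nat_lit 0xbc0001780002fe7bf) b33596 (.hit (nat_lit 9) (nat_lit 38) (nat_lit 0xbc000178000300af1) b33597 (.nil))) (.nil)))))) (.tok (nat_lit 9) (nat_lit 0xbc0001780002fffbd) (.hit (nat_lit 10) (nat_lit 0) (nat_lit 0xbc0001780002fe851) b33598 (.tok (nat_lit 3) (nat_lit 0xbc0001780002fe76e) (.hit (nat_lit 11) (nat_lit 1) (nat_lit 0xbc0001780002fd180) b33599 (.one (nat_lit 68) (nat_lit 13) (nat_lit 5) (nat_lit 0xbc0001780002fe76e) b33600 (.nil))) (.tok (nat_lit 40) (nat_lit 0xbc0001780002fe9a2) (.hit (nat_lit 14) (nat_lit 33) (nat_lit 0xbc0001780002fe9a2) b33601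 (.hit (nat_lit 15) (nat_lit 34) (nat_lit 0xbc0001780002fe39d) b33602 (.nil))) (.tok (nat_lit 43) (nat_lit 0xbc0001780002ffb50) (.hit (nat_lit 16) (nat_lit 35) (nat_lit 0xbc0001780002fd78d) b33603 (.hit (nat_lit 17) (nat_lit 36) (nat_lit 0xbc0001780002ffb50) b33604 (.nil))) (.tok (nat_lit 46) (nat_lit 0xbc0001780002fffbd) (.hit (nat_lit 18) (nat_lit 37) (nat_lit 0xbc0001780002fffbd) b33605 (.hit (nat_lit 19) (nat_lit 38) (nat_lit 0xbc0001780002fdeeb) b33606 (.nil))) (.nil)))))) (.nil))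
noncomputable def r16_27 : Rw Blk := .tok (nat_lit 3) (nat_lit 0x601976c01f6980b0b2ffee3600a54c0132580077300395) (.hit (nat_lit 15) (nat_lit 0) (nat_lit 0x5fc140bf9ed17fae72fe1f95fc9e6bfa7317f2dd2fe377) b33618 (.tok (nat_lit 6) (nat_lit 0x5fc398bf8da17fd6dafd6d65fbd18bfce357f8762fe4a3) (.hit (nat_lit 16) (nat_lit 7) (nat_lit 0x5f8c9cbf578d7ed352fbb585f861cbf532d7e953afc925) b33619 (.hit (nat_lit 21) (nat_lit 15) (nat_lit 0x5f55aabf24517e53daf9fdf5f4f2abf2cd17e6bcafadac) b33622 (.tok (nat_lit 56) (nat_lit 0x5fc398bf81117fd6dafd6d65fbd18bfce357f8762fe4a3) (.hit (nat_lit 19) (nat_lit 13) (nat_lit 0x5f9d3cbf73b97f0a1afc3a85f96bcbfaed17f2982fd175) b33620 (.hit (nat_lit 24) (nat_lit 19) (nat_lit 0x5f9744bf5b917ed31afc0ac5f90c4bf5aad7ecdfafce79) b33624 (.one (nat_lit 6) (nat_lit 20) (nat_lit 14) (nat_lit 0x5fc398bf81117fd6dafd6d65fbd18bfce357f8762fe4a3) b33621 (.nil)))) (.one (nat_lit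 68) (nat_lit 23) (nat_lit 18) (nat_lit 0x5fb8b0bf8da17f1382fd1625fb230bf74657ed352fdf2f) b33623 (.nil))))) (.tok (nat_lit 52) (nat_lit 0x5fb730bfb91d7f940afd0a25fb0b0bf7e557f1232fde6f) (.hit (nat_lit 25) (nat_lit 39) (nat_lit 0x5fb334bf668d7f2882fcea45facb4bf696d7eb44afdc71) b33625 (.hit (nat_lit 26) (nat_lit 40) (nat_lit 0x5fb730bfb91d7f940afd0a25fb0b0bf7e557f1232fde6f) b33626 (.nil))) (.tok (nat_lit 55) (nat_lit 0x601976c01f6980b0b2ffee3600a54c0132580077300395) (.hit (nat_lit 27) (nat_lit 41) (nat_lit 0x601976c01f6980ae82ffee3600a54c0132580077300395) b33627 (.one (nat_lit 3) (nat_lit 33) (nat_lit 47) (nat_lit 0x5fc788bfa9b18028eafd8ce5fc108bfde517f7a9afe69b) b33633 (.tok (nat_lit 6) (nat_lit 0x5fc5c4bfd0f180b0b2fd7ec5fbf44bfd4cd7f61eafe5b9) (.hit (nat_lit 28) (nat_lit 42) (nat_lit 0x5fba2abf87797fbc2afd21f5fb3aabf7e8d7f1f5afdfec) b33628 (.hit (nat_lit 31) (nat_lit 45) (nat_lit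 0x5fc37abfb78d7fe63afd6c75fbcfabfd4cd7f61eafe494) b33631 (.tok (nat_lit 55) (nat_lit 0x5fc5c4bfd0f180b0b2fd7ec5fbf44bfb8917f45d2fe5b9) (.hit (nat_lit 29) (nat_lit 43) (nat_lit 0x5fc094bf96d17fff22fd5545fba14bf96017effc2fe321) b33629 (.hit (nat_lit 32) (nat_lit 46) (nat_lit 0x5fc5c4bfd0f180b0b2fd7ec5fbf44bfb8917f45d2fe5b9) b33632 (.one (nat_lit 6) (nat_lit 30) (nat_lit 44) (nat_lit 0x5fb2bcbf72917fdbeafce685fac3cbf69a57eb7eafdc35) b33630 (.nil)))) (.nil)))) (.nil)))) (.one (nat_lit 58) (nat_lit 35) (nat_lit 49) (nat_lit 0x5fbdc2bfc5057f9c02fd3eb5fb742bf861d7f2282fe1b8) b33634 (.nil)))))) (.tok (nat_lit 9) (nat_lit 0x604482c082f581834301728605138c059bd80ca9b02e40) (.hit (nat_lit 0) (nat_lit 0) (nat_lit 0x5ffd30c063a180bfe2ffaf2600cc0c013858060730047c) b33607 (.tok (nat_lit 9) (nat_lit 0x5fecb4c0510180b2db002e360049ac03fb9808073005cf) (.hit (nat_lit 1) (nat_lit 20) (nat_lit 0x5fecb4bf5c617f13e3002e360049abf96797f0abb005cf)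 b33608 (.hit (nat_lit 4) (nat_lit 28) (nat_lit 0x5fa0a0bf64bd7efbf2fd85c5fc272bf639d7eaab2fd934) b33609 (.one (nat_lit 56) (nat_lit 6) (nat_lit 31) (nat_lit 0x5fd966c0510180b2daff4a05ff552c03fb9808072ff4d6) b33610 (.nil)))) (.tok (nat_lit 64) (nat_lit 0x604482c04db180ac730137e604eeabfc8097f81ab02e40) (.hit (nat_lit 7) (nat_lit 50) (nat_lit 0x604482c04db180ac730091c604eeabf804d7ee20b02e40) b33611 (.hit (nat_lit 8) (nat_lit 51) (nat_lit 0x601fc2c009257fef230137e603810bfc8097f81ab0190e) b33612 (.nil))) (.tok (nat_lit 67) (nat_lit 0x603568c082f581834301728605138c059bd80ca9b025b1) (.hit (nat_lit 9) (nat_lit 52) (nat_lit 0x603568c082f581834301728605138c059bd80ca9b025b1) b33613 (.one (nat_lit 3) (nat_lit 12) (nat_lit 58) (nat_lit 0x6027a6bfcb057fe86b014c660446cbfa50d7f70eb01f39) b33616 (.tok (nat_lit 9) (nat_lit 0x60178cc01fd180ccfaffdab601abcbfe0317fb6bb00a8d) (.hit (nat_lit 10) (nat_lit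 53) (nat_lit 0x5fef48c01fd18098cafe2e15ff66cbfb9f57f588aff6e7) b33614 (.hit (nat_lit 11) (nat_lit 56) (nat_lit 0x60178cbff80d80ccfaffdab601abcbfe0317fb6bb00a8d) b33615 (.nil))) (.nil)))) (.one (nat_lit 70) (nat_lit 14) (nat_lit 60) (nat_lit 0x600a42c019f97fe47b003de601e94bfa4b57f8d6300b44) b33617 (.nil)))))) (.nil))
noncomputable def r16_28 : Rw Blk := .tok (nat_lit 9) (nat_lit 0xbc000180eb9b00663) (.hit (nat_lit 18) (nat_lit 0) (nat_lit 0xbc0001804e7300663) b33651 (.one (nat_lit 26) (nat_lit 30) (nat_lit 72) (nat_lit 0xbc00017f9f02fe840) b33652 (.one (nat_lit 29) (nat_lit 31) (nat_lit 73) (nat_lit 0xbc00017fcc2affa01) b33653 (.one (nat_lit 32) (nat_lit 32) (nat_lit 74) (nat_lit 0xbc00018005caff9ab) b33654 (.one (nat_lit 35) (nat_lit 33) (nat_lit 75) (nat_lit 0xbc00017f9222fe51e) b33655 (.one (nat_lit 38) (nat_lit 34) (nat_lit 76) (nat_lit 0xbc00017fb84afebce) b33656 (.tok (nat_lit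 41) (nat_lit 0xbc000180169b00342) (.hit (nat_lit 35) (nat_lit 77) (nat_lit 0xbc00017f5032fe635) b33657 (.hit (nat_lit 36) (nat_lit 78) (nat_lit 0xbc000180169b00342) b33658 (.nil))) (.tok (nat_lit 44) (nat_lit 0xbc00017fda32ff4f1) (.hit (nat_lit 37) (nat_lit 79) (nat_lit 0xbc00017ef4e2fd348) b33659 (.hit (nat_lit 38) (nat_lit 80) (nat_lit 0xbc00017fda32ff4f1) b33660 (.nil))) (.tok (nat_lit 47) (nat_lit 0xbc00017f939300108) (.hit (nat_lit 39) (nat_lit 81) (nat_lit 0xbc00017f939300108) b33661 (.hit (nat_lit 40) (nat_lit 82) (nat_lit 0xbc00017f51b2fec91) b33662 (.nil))) (.one (nat_lit 50) (nat_lit 41) (nat_lit 83) (nat_lit 0xbc0001801602ff5d2) b33663 (.tok (nat_lit 53) (nat_lit 0xbc0001802b5affc89) (.hit (nat_lit 42) (nat_lit 84) (nat_lit 0xbc00017fca42ff6c0) b33664 (.hit (nat_lit 43) (nat_lit 85) (nat_lit 0xbc0001802b5affc89) b33665 (.nil))) (.tok (nat_lit 56) (nat_lit 0xbc000180eb9aff956)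 (.hit (nat_lit 44) (nat_lit 86) (nat_lit 0xbc000180eb9aff956) b33666 (.one (nat_lit 3) (nat_lit 48) (nat_lit 90) (nat_lit 0xbc00017f91a2fe6e0) b33670 (.tok (nat_lit 6) (nat_lit 0xbc00017f6c62fe238) (.hit (nat_lit 46) (nat_lit 88) (nat_lit 0xbc00017f6c62fe238) b33668 (.hit (nat_lit 47) (nat_lit 89) (nat_lit 0xbc00017f3432fdb32) b33669 (.nil))) (.one (nat_lit 9) (nat_lit 45) (nat_lit 87) (nat_lit 0xbc00017f8872fe5ba) b33667 (.nil))))) (.one (nat_lit 59) (nat_lit 49) (nat_lit 91) (nat_lit 0xbc00017fadbafeba0) b33671 (.nil)))))))))))))) (.tok (nat_lit 64) (nat_lit 0xbc000181b2db02fc3) (.hit (nat_lit 13) (nat_lit 0) (nat_lit 0xbc0001818b1b02fc3) b33646 (.tok (nat_lit 6) (nat_lit 0xbc000180836affa31) (.hit (nat_lit 14) (nat_lit 7) (nat_lit 0xbc00017fa83afe9b3) b33647 (.hit (nat_lit 15) (nat_lit 15) (nat_lit 0xbc000180836affa31) b33648 (.nil))) (.tok (nat_lit 9) (nat_lit 0xbc000181b2db01f57)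 (.hit (nat_lit 16) (nat_lit 20) (nat_lit 0xbc0001816f9301ab3) b33649 (.hit (nat_lit 17) (nat_lit 28) (nat_lit 0xbc000181b2db01f57) b33650 (.nil))) (.nil)))) (.tok (nat_lit 67) (nat_lit 0xbc00018075a3002d2) (.hit (nat_lit 8) (nat_lit 0) (nat_lit 0xbc00018075a300030) b33642 (.one (nat_lit 3) (nat_lit 9) (nat_lit 1) (nat_lit 0xbc00017feb3aff213) b33643 (.tok (nat_lit 9) (nat_lit 0xbc0001807133002d2) (.hit (nat_lit 11) (nat_lit 20) (nat_lit 0xbc0001807133002d2) b33644 (.hit (nat_lit 12) (nat_lit 28) (nat_lit 0xbc00017fcb02fee0c) b33645 (.nil))) (.nil)))) (.tok (nat_lit 70) (nat_lit 0xbc0001810c3b015c8) (.hit (nat_lit 0) (nat_lit 0) (nat_lit 0xbc0001810c3b00593) b33635 (.one (nat_lit 3) (nat_lit 1) (nat_lit 1) (nat_lit 0xbc0001808163004d8) b33636 (.tok (nat_lit 6) (nat_lit 0xbc00018108e3015c8) (.hit (nat_lit 3) (nat_lit 7) (nat_lit 0xbc0001805b4b00015) b33637 (.hit (nat_lit 6) (nat_lit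 15) (nat_lit 0xbc0001806bdb00227) b33640 (.tok (nat_lit 55) (nat_lit 0xbc00018108e3015c8) (.hit (nat_lit 4) (nat_lit 8) (nat_lit 0xbc000180c6eb00d89) b33638 (.hit (nat_lit 7) (nat_lit 16) (nat_lit 0xbc000181055b01557) b33641 (.one (nat_lit 6) (nat_lit 5) (nat_lit 9) (nat_lit 0xbc00018108e3015c8) b33639 (.nil)))) (.nil)))) (.nil)))) (.nil))))
noncomputable def r16_29 : Rw Blk := .tok (nat_lit 3) (nat_lit 0xbc000181e04b033af) (.hit (nat_lit 0) (nat_lit 0) (nat_lit 0xbc000181e04b033af) b33672 (.tok (nat_lit 6) (nat_lit 0xbc000180da1301955) (.hit (nat_lit 1) (nat_lit 7) (nat_lit 0xbc00017f7f2afef4a) b33673 (.hit (nat_lit 6) (nat_lit 15) (nat_lit 0xbc00017f7762ff721) b33678 (.tok (nat_lit 14) (nat_lit 0xbc00018048d301955) (.hit (nat_lit 2) (nat_lit 11) (nat_lit 0xbc0001803fd300f18) b33674 (.hit (nat_lit 7) (nat_lit 17) (nat_lit 0xbc00018048d3012f7) b33679 (.one (nat_lit 9) (nat_lit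 3) (nat_lit 12) (nat_lit 0xbc000180245b01955) b33675 (.nil)))) (.tok (nat_lit 56) (nat_lit 0xbc000180da13016d7) (.hit (nat_lit 4) (nat_lit 13) (nat_lit 0xbc000180054300763) b33676 (.hit (nat_lit 8) (nat_lit 19) (nat_lit 0xbc0001801d230027d) b33680 (.one (nat_lit 6) (nat_lit 5) (nat_lit 14) (nat_lit 0xbc000180da13016d7) b33677 (.nil)))) (.nil))))) (.nil))) (.tok (nat_lit 9) (nat_lit 0xbc00018219c303ed3) (.hit (nat_lit 20) (nat_lit 0) (nat_lit 0xbc000181f87b03828) b33681 (.tok (nat_lit 9) (nat_lit 0xbc00018219c303ed3) (.hit (nat_lit 21) (nat_lit 20) (nat_lit 0xbc00018140030263d) b33682 (.hit (nat_lit 24) (nat_lit 28) (nat_lit 0xbc000180cc3301582) b33685 (.tok (nat_lit 14) (nat_lit 0xbc00018219c303ed3) (.hit (nat_lit 22) (nat_lit 24) (nat_lit 0xbc000181b10303351) b33683 (.hit (nat_lit 25) (nat_lit 30) (nat_lit 0xbc000181810b02951) b33686 (.one (nat_lit 6) (nat_lit 23) (nat_lit 25)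 (nat_lit 0xbc00018219c303ed3) b33684 (.nil)))) (.nil)))) (.nil))) (.nil))
noncomputable def r16_30 : Rw Blk := .tok (nat_lit 9) (nat_lit 0xbc00017800030712b) (.hit (nat_lit 0) (nat_lit 0) (nat_lit 0xbc000178000302ed7) b33687 (.tok (nat_lit 14) (nat_lit 0xbc00017800030712b) (.hit (nat_lit 1) (nat_lit 61) (nat_lit 0xbc000178000304720) b33688 (.one (nat_lit 3) (nat_lit 2) (nat_lit 62) (nat_lit 0xbc000178000303659) b33689 (.tok (nat_lit 6) (nat_lit 0xbc00017800030712b) (.hit (nat_lit 5) (nat_lit 65) (nat_lit 0xbc00017800030712b) b33692 (.hit (nat_lit 6) (nat_lit 66) (nat_lit 0xbc000178000302f0a) b33693 (.nil))) (.tok (nat_lit 9) (nat_lit 0xbc0001780003033fb) (.hit (nat_lit 3) (nat_lit 63) (nat_lit 0xbc0001780003033fb) b33690 (.hit (nat_lit 4) (nat_lit 64) (nat_lit 0xbc000178000301919) b33691 (.nil))) (.nil))))) (.one (nat_lit 17) (nat_lit 7) (nat_lit 67) (nat_lit 0xbc0001780003026b3)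 b33694 (.tok (nat_lit 20) (nat_lit 0xbc000178000301f40) (.hit (nat_lit 8) (nat_lit 68) (nat_lit 0xbc000178000301f40) b33695 (.hit (nat_lit 9) (nat_lit 69) (nat_lit 0xbc0001780003019bd) b33696 (.nil))) (.tok (nat_lit 23) (nat_lit 0xbc0001780003062c2) (.hit (nat_lit 10) (nat_lit 70) (nat_lit 0xbc0001780003062c2) b33697 (.hit (nat_lit 11) (nat_lit 71) (nat_lit 0xbc000178000302490) b33698 (.nil))) (.one (nat_lit 38) (nat_lit 12) (nat_lit 76) (nat_lit 0xbc000178000302e9e) b33699 (.tok (nat_lit 41) (nat_lit 0xbc00017800030230c) (.hit (nat_lit 13) (nat_lit 77) (nat_lit 0xbc000178000300fa8) b33700 (.hit (nat_lit 14) (nat_lit 78) (nat_lit 0xbc00017800030230c) b33701 (.nil))) (.tok (nat_lit 44) (nat_lit 0xbc000178000301bb7) (.hit (nat_lit 15) (nat_lit 79) (nat_lit 0xbc000178000300fa5) b33702 (.hit (nat_lit 16) (nat_lit 80) (nat_lit 0xbc000178000301bb7) b33703 (.nil))) (.tok (nat_lit 47)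 (nat_lit 0xbc0001780003035af) (.hit (nat_lit 17) (nat_lit 81) (nat_lit 0xbc0001780003035af) b33704 (.hit (nat_lit 18) (nat_lit 82) (nat_lit 0xbc000178000301f1a) b33705 (.nil))) (.nil)))))))))) (.nil)
noncomputable def r16_31 : Rw Blk := .tok (nat_lit 9) (nat_lit 0xbc000178000300591) (.hit (nat_lit 18) (nat_lit 0) (nat_lit 0xbc0001780002fe88d) b33722 (.one (nat_lit 26) (nat_lit 30) (nat_lit 72) (nat_lit 0xbc0001780002ff2f9) b33723 (.one (nat_lit 29) (nat_lit 31) (nat_lit 73) (nat_lit 0xbc0001780002ff465) b33724 (.one (nat_lit 32) (nat_lit 32) (nat_lit 74) (nat_lit 0xbc0001780002ffb5f) b33725 (.one (nat_lit 35) (nat_lit 33) (nat_lit 75) (nat_lit 0xbc0001780002feb5b) b33726 (.one (nat_lit 38) (nat_lit 34) (nat_lit 76) (nat_lit 0xbc0001780002feeea) b33727 (.tok (nat_lit 41) (nat_lit 0xbc0001780002fecb5) (.hit (nat_lit 35) (nat_lit 77) (nat_lit 0xbc0001780002fe265) b33728 (.hit (nat_lit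 36) (nat_lit 78) (nat_lit 0xbc0001780002fecb5) b33729 (.nil))) (.tok (nat_lit 44) (nat_lit 0xbc0001780002feca6) (.hit (nat_lit 37) (nat_lit 79) (nat_lit 0xbc0001780002fc62f) b33730 (.hit (nat_lit 38) (nat_lit 80) (nat_lit 0xbc0001780002feca6) b33731 (.nil))) (.tok (nat_lit 47) (nat_lit 0xbc0001780002fe595) (.hit (nat_lit 39) (nat_lit 81) (nat_lit 0xbc0001780002fe18f) b33732 (.hit (nat_lit 40) (nat_lit 82) (nat_lit 0xbc0001780002fe595) b33733 (.nil))) (.one (nat_lit 50) (nat_lit 41) (nat_lit 83) (nat_lit 0xbc0001780002ff5eb) b33734 (.tok (nat_lit 53) (nat_lit 0xbc0001780002ff13b) (.hit (nat_lit 42) (nat_lit 84) (nat_lit 0xbc0001780002fe92d) b33735 (.hit (nat_lit 43) (nat_lit 85) (nat_lit 0xbc0001780002ff13b) b33736 (.nil))) (.tok (nat_lit 56) (nat_lit 0xbc000178000300591) (.hit (nat_lit 44) (nat_lit 86) (nat_lit 0xbc000178000300591) b33737 (.one (nat_lit 3) (nat_lit 48) (nat_lit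 90) (nat_lit 0xbc0001780002fdf5e) b33741 (.tok (nat_lit 6) (nat_lit 0xbc0001780002febf4) (.hit (nat_lit 46) (nat_lit 88) (nat_lit 0xbc0001780002febf4) b33739 (.hit (nat_lit 47) (nat_lit 89) (nat_lit 0xbc0001780002fd28f) b33740 (.nil))) (.one (nat_lit 9) (nat_lit 45) (nat_lit 87) (nat_lit 0xbc0001780002feb88) b33738 (.nil))))) (.one (nat_lit 59) (nat_lit 49) (nat_lit 91) (nat_lit 0xbc0001780002fecd2) b33742 (.nil)))))))))))))) (.tok (nat_lit 64) (nat_lit 0xbc000178000302f8b) (.hit (nat_lit 13) (nat_lit 0) (nat_lit 0xbc000178000302075) b33717 (.tok (nat_lit 6) (nat_lit 0xbc000178000300861) (.hit (nat_lit 14) (nat_lit 7) (nat_lit 0xbc0001780002ff40e) b33718 (.hit (nat_lit 15) (nat_lit 15) (nat_lit 0xbc000178000300861) b33719 (.nil))) (.tok (nat_lit 9) (nat_lit 0xbc000178000302f8b) (.hit (nat_lit 16) (nat_lit 20) (nat_lit 0xbc000178000302bf2) b33720 (.hit (nat_lit 17) (nat_lit 28)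 (nat_lit 0xbc000178000302f8b) b33721 (.nil))) (.nil)))) (.tok (nat_lit 67) (nat_lit 0xbc00017800030022d) (.hit (nat_lit 8) (nat_lit 0) (nat_lit 0xbc00017800030022d) b33713 (.one (nat_lit 3) (nat_lit 9) (nat_lit 1) (nat_lit 0xbc0001780002ffb49) b33714 (.tok (nat_lit 9) (nat_lit 0xbc0001780002ffbaf) (.hit (nat_lit 11) (nat_lit 20) (nat_lit 0xbc0001780002ffbaf) b33715 (.hit (nat_lit 12) (nat_lit 28) (nat_lit 0xbc0001780002fef52) b33716 (.nil))) (.nil)))) (.tok (nat_lit 70) (nat_lit 0xbc000178000302024) (.hit (nat_lit 0) (nat_lit 0) (nat_lit 0xbc0001780003009f1) b33706 (.one (nat_lit 3) (nat_lit 1) (nat_lit 1) (nat_lit 0xbc000178000300488) b33707 (.tok (nat_lit 6) (nat_lit 0xbc000178000302024) (.hit (nat_lit 3) (nat_lit 7) (nat_lit 0xbc000178000301107) b33708 (.hit (nat_lit 6) (nat_lit 15) (nat_lit 0xbc0001780003003dc) b33711 (.tok (nat_lit 55) (nat_lit 0xbc000178000302024) (.hit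 (nat_lit 4) (nat_lit 8) (nat_lit 0xbc000178000301ae7) b33709 (.hit (nat_lit 7) (nat_lit 16) (nat_lit 0xbc0001780003014e9) b33712 (.one (nat_lit 6) (nat_lit 5) (nat_lit 9) (nat_lit 0xbc000178000302024) b33710 (.nil)))) (.nil)))) (.nil)))) (.nil))))
noncomputable def r16_32 : Rw Blk := .tok (nat_lit 3) (nat_lit 0xbc000178000302b66) (.hit (nat_lit 0) (nat_lit 0) (nat_lit 0xbc000178000302b66) b33743 (.tok (nat_lit 6) (nat_lit 0xbc000178000301aea) (.hit (nat_lit 1) (nat_lit 7) (nat_lit 0xbc0001780002ff436) b33744 (.hit (nat_lit 6) (nat_lit 15) (nat_lit 0xbc0001780002feaed) b33749 (.tok (nat_lit 14) (nat_lit 0xbc00017800030111d) (.hit (nat_lit 2) (nat_lit 11) (nat_lit 0xbc000178000300d43) b33745 (.hit (nat_lit 7) (nat_lit 17) (nat_lit 0xbc000178000300282) b33750 (.one (nat_lit 9) (nat_lit 3) (nat_lit 12) (nat_lit 0xbc00017800030111d) b33746 (.nil)))) (.tok (nat_lit 56) (nat_lit 0xbc000178000301aea)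 (.hit (nat_lit 4) (nat_lit 13) (nat_lit 0xbc0001780003006ec) b33747 (.hit (nat_lit 8) (nat_lit 19) (nat_lit 0xbc0001780002fff18) b33751 (.one (nat_lit 6) (nat_lit 5) (nat_lit 14) (nat_lit 0xbc000178000301aea) b33748 (.nil)))) (.nil))))) (.nil))) (.tok (nat_lit 9) (nat_lit 0xbc0001780003060f4) (.hit (nat_lit 20) (nat_lit 0) (nat_lit 0xbc000178000302988) b33752 (.tok (nat_lit 9) (nat_lit 0xbc0001780003060f4) (.hit (nat_lit 21) (nat_lit 20) (nat_lit 0xbc00017800030373c) b33753 (.hit (nat_lit 24) (nat_lit 28) (nat_lit 0xbc000178000300c43) b33756 (.tok (nat_lit 14) (nat_lit 0xbc0001780003060f4) (.hit (nat_lit 22) (nat_lit 24) (nat_lit 0xbc0001780003060f4) b33754 (.hit (nat_lit 25) (nat_lit 30) (nat_lit 0xbc000178000301d34) b33757 (.one (nat_lit 6) (nat_lit 23) (nat_lit 25) (nat_lit 0xbc0001780003042c9) b33755 (.nil)))) (.nil)))) (.nil))) (.nil))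
noncomputable def r16_33 : Rw Blk := .tok (nat_lit 6) (nat_lit 0xbc00017800030198c) (.hit (nat_lit 21) (nat_lit 0) (nat_lit 0xbc0001780002ff268) b33777 (.one (nat_lit 26) (nat_lit 33) (nat_lit 72) (nat_lit 0xbc0001780002ff866) b33778 (.one (nat_lit 29) (nat_lit 34) (nat_lit 73) (nat_lit 0xbc0001780002feb29) b33779 (.one (nat_lit 32) (nat_lit 35) (nat_lit 74) (nat_lit 0xbc0001780002fe74a) b33780 (.one (nat_lit 35) (nat_lit 36) (nat_lit 75) (nat_lit 0xbc000178000300047) b33781 (.one (nat_lit 50) (nat_lit 37) (nat_lit 83) (nat_lit 0xbc0001780002fe50e) b33782 (.tok (nat_lit 53) (nat_lit 0xbc0001780002ff5e8) (.hit (nat_lit 38) (nat_lit 84) (nat_lit 0xbc0001780002ff5e8) b33783 (.hit (nat_lit 39) (nat_lit 85) (nat_lit 0xbc0001780002fde4e) b33784 (.nil))) (.tok (nat_lit 56) (nat_lit 0xbc00017800030198c) (.hit (nat_lit 40) (nat_lit 86) (nat_lit 0xbc0001780003012d6) b33785 (.one (nat_lit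 3) (nat_lit 44) (nat_lit 90) (nat_lit 0xbc00017800030039c) b33789 (.tok (nat_lit 6) (nat_lit 0xbc000178000300131) (.hit (nat_lit 42) (nat_lit 88) (nat_lit 0xbc000178000300131) b33787 (.hit (nat_lit 43) (nat_lit 89) (nat_lit 0xbc0001780002fe781) b33788 (.nil))) (.one (nat_lit 9) (nat_lit 41) (nat_lit 87) (nat_lit 0xbc00017800030198c) b33786 (.nil))))) (.one (nat_lit 59) (nat_lit 45) (nat_lit 91) (nat_lit 0xbc0001780002fddf1) b33790 (.one (nat_lit 62) (nat_lit 46) (nat_lit 92) (nat_lit 0xbc0001780002ff3f9) b33791 (.tok (nat_lit 65) (nat_lit 0xbc0001780002ff93c) (.hit (nat_lit 47) (nat_lit 93) (nat_lit 0xbc0001780002fedb5) b33792 (.hit (nat_lit 48) (nat_lit 94) (nat_lit 0xbc0001780002ff93c) b33793 (.nil))) (.tok (nat_lit 68) (nat_lit 0xbc0001780002ffda2) (.hit (nat_lit 49) (nat_lit 95) (nat_lit 0xbc0001780002ffda2) b33794 (.one (nat_lit 3) (nat_lit 53) (nat_lit 99) (nat_lit 0xbc0001780002fd7e2)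 b33798 (.one (nat_lit 6) (nat_lit 50) (nat_lit 96) (nat_lit 0xbc0001780002fdcbc) b33795 (.tok (nat_lit 9) (nat_lit 0xbc0001780002fe552) (.hit (nat_lit 51) (nat_lit 97) (nat_lit 0xbc0001780002fe552) b33796 (.hit (nat_lit 52) (nat_lit 98) (nat_lit 0xbc0001780002fdced) b33797 (.nil))) (.nil))))) (.one (nat_lit 71) (nat_lit 54) (nat_lit 100) (nat_lit 0xbc0001780002ff4a8) b33799 (.nil)))))))))))))) (.tok (nat_lit 52) (nat_lit 0xbc000178000301eb1) (.hit (nat_lit 16) (nat_lit 0) (nat_lit 0xbc00017800030196a) b33772 (.tok (nat_lit 6) (nat_lit 0xbc000178000301eb1) (.hit (nat_lit 17) (nat_lit 7) (nat_lit 0xbc000178000301eb1) b33773 (.hit (nat_lit 18) (nat_lit 15) (nat_lit 0xbc000178000301605) b33774 (.nil))) (.tok (nat_lit 9) (nat_lit 0xbc000178000301e06) (.hit (nat_lit 19) (nat_lit 20) (nat_lit 0xbc0001780002ffa4e) b33775 (.hit (nat_lit 20) (nat_lit 28) (nat_lit 0xbc000178000301e06) b33776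 (.nil))) (.nil)))) (.tok (nat_lit 55) (nat_lit 0xbc00017800030195a) (.hit (nat_lit 8) (nat_lit 0) (nat_lit 0xbc00017800030195a) b33765 (.one (nat_lit 3) (nat_lit 9) (nat_lit 1) (nat_lit 0xbc0001780002fff26) b33766 (.tok (nat_lit 6) (nat_lit 0xbc00017800030083d) (.hit (nat_lit 11) (nat_lit 7) (nat_lit 0xbc0001780002ff861) b33767 (.hit (nat_lit 14) (nat_lit 15) (nat_lit 0xbc0001780002fedc5) b33770 (.tok (nat_lit 55) (nat_lit 0xbc00017800030083d) (.hit (nat_lit 12) (nat_lit 8) (nat_lit 0xbc0001780002ff9a6) b33768 (.hit (nat_lit 15) (nat_lit 16) (nat_lit 0xbc00017800030083d) b33771 (.one (nat_lit 6) (nat_lit 13) (nat_lit 9) (nat_lit 0xbc000178000300302) b33769 (.nil)))) (.nil)))) (.nil)))) (.tok (nat_lit 58) (nat_lit 0xbc000178000301ac4) (.hit (nat_lit 0) (nat_lit 0) (nat_lit 0xbc00017800030044a) b33758 (.one (nat_lit 3) (nat_lit 1) (nat_lit 1) (nat_lit 0xbc0001780003008ea) b33759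 (.tok (nat_lit 9) (nat_lit 0xbc000178000301ac4) (.hit (nat_lit 3) (nat_lit 20) (nat_lit 0xbc000178000300702) b33760 (.hit (nat_lit 6) (nat_lit 28) (nat_lit 0xbc0001780003001e8) b33763 (.tok (nat_lit 67) (nat_lit 0xbc000178000301ac4) (.hit (nat_lit 4) (nat_lit 21) (nat_lit 0xbc0001780003010c5) b33761 (.hit (nat_lit 7) (nat_lit 29) (nat_lit 0xbc000178000301305) b33764 (.one (nat_lit 9) (nat_lit 5) (nat_lit 22) (nat_lit 0xbc000178000301ac4) b33762 (.nil)))) (.nil)))) (.nil)))) (.nil))))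
noncomputable def r16_34 : Rw Blk := .tok (nat_lit 3) (nat_lit 0xbc000178000303342) (.hit (nat_lit 0) (nat_lit 0) (nat_lit 0xbc000178000303342) b33800 (.tok (nat_lit 9) (nat_lit 0xbc000178000302855) (.hit (nat_lit 1) (nat_lit 20) (nat_lit 0xbc000178000300ccc) b33801 (.hit (nat_lit 4) (nat_lit 28) (nat_lit 0xbc0001780002ff139) b33804 (.one (nat_lit 56) (nat_lit 5) (nat_lit 31) (nat_lit 0xbc000178000300d70) b33805 (.tok (nat_lit 68) (nat_lit 0xbc000178000302855) (.hit (nat_lit 2) (nat_lit 26) (nat_lit 0xbc000178000300b9a) b33802 (.hit (nat_lit 6) (nat_lit 32) (nat_lit 0xbc000178000300636) b33806 (.one (nat_lit 9) (nat_lit 3) (nat_lit 27) (nat_lit 0xbc000178000302855) b33803 (.nil)))) (.nil))))) (.nil))) (.tok (nat_lit 6) (nat_lit 0xbc00017800030526b) (.hit (nat_lit 17) (nat_lit 0) (nat_lit 0xbc0001780003040f0) b33807 (.tok (nat_lit 6) (nat_lit 0xbc000178000303531) (.hit (nat_lit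 18) (nat_lit 7) (nat_lit 0xbc000178000303531) b33808 (.hit (nat_lit 19) (nat_lit 15) (nat_lit 0xbc00017800030090a) b33809 (.nil))) (.tok (nat_lit 52) (nat_lit 0xbc000178000304c50) (.hit (nat_lit 21) (nat_lit 39) (nat_lit 0xbc000178000304c50) b33810 (.hit (nat_lit 22) (nat_lit 40) (nat_lit 0xbc000178000304c0b) b33811 (.nil))) (.tok (nat_lit 55) (nat_lit 0xbc000178000305184) (.hit (nat_lit 23) (nat_lit 41) (nat_lit 0xbc000178000305184) b33812 (.one (nat_lit 3) (nat_lit 26) (nat_lit 47) (nat_lit 0xbc00017800030429d) b33815 (.tok (nat_lit 6) (nat_lit 0xbc0001780003038bd) (.hit (nat_lit 24) (nat_lit 42) (nat_lit 0xbc0001780003036c8) b33813 (.hit (nat_lit 25) (nat_lit 45) (nat_lit 0xbc0001780003038bd) b33814 (.nil))) (.nil)))) (.one (nat_lit 58) (nat_lit 27) (nat_lit 49) (nat_lit 0xbc00017800030526b) b33816 (.nil)))))) (.nil))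
noncomputable def r16_35 : Rw Blk := .tok (nat_lit 3) (nat_lit 0xbc0001780002fefa3) (.hit (nat_lit 15) (nat_lit 0) (nat_lit 0xbc0001780002fe03e) b33828 (.tok (nat_lit 9) (nat_lit 0xbc0001780002fd728) (.hit (nat_lit 16) (nat_lit 20) (nat_lit 0xbc0001780002fb257) b33829 (.hit (nat_lit 21) (nat_lit 28) (nat_lit 0xbc0001780002f9cd8) b33832 (.one (nat_lit 56) (nat_lit 23) (nat_lit 31) (nat_lit 0xbc0001780002fc59c) b33833 (.tok (nat_lit 68) (nat_lit 0xbc0001780002fd728) (.hit (nat_lit 19) (nat_lit 26) (nat_lit 0xbc0001780002fc5f1) b33830 (.hit (nat_lit 24) (nat_lit 32) (nat_lit 0xbc0001780002fcf79) b33834 (.one (nat_lit 9) (nat_lit 20) (nat_lit 27) (nat_lit 0xbc0001780002fd728) b33831 (.nil)))) (.nil))))) (.tok (nat_lit 64) (nat_lit 0xbc0001780002fdd1c) (.hit (nat_lit 25) (nat_lit 50) (nat_lit 0xbc0001780002fd606) b33835 (.hit (nat_lit 26) (nat_lit 51) (nat_lit 0xbc0001780002fdd1c)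 b33836 (.nil))) (.tok (nat_lit 67) (nat_lit 0xbc0001780002fefa3) (.hit (nat_lit 27) (nat_lit 52) (nat_lit 0xbc0001780002fe859) b33837 (.one (nat_lit 3) (nat_lit 33) (nat_lit 58) (nat_lit 0xbc0001780002fe42b) b33843 (.tok (nat_lit 9) (nat_lit 0xbc0001780002fefa3) (.hit (nat_lit 28) (nat_lit 53) (nat_lit 0xbc0001780002fe51c) b33838 (.hit (nat_lit 31) (nat_lit 56) (nat_lit 0xbc0001780002fe158) b33841 (.tok (nat_lit 67) (nat_lit 0xbc0001780002fefa3) (.hit (nat_lit 29) (nat_lit 54) (nat_lit 0xbc0001780002fefa3) b33839 (.hit (nat_lit 32) (nat_lit 57) (nat_lit 0xbc0001780002fe1cd) b33842 (.one (nat_lit 9) (nat_lit 30) (nat_lit 55) (nat_lit 0xbc0001780002fee50) b33840 (.nil)))) (.nil)))) (.nil)))) (.one (nat_lit 70) (nat_lit 35) (nat_lit 60) (nat_lit 0xbc0001780002fe39e) b33844 (.nil)))))) (.tok (nat_lit 6) (nat_lit 0xbc000178000301acb) (.hit (nat_lit 0) (nat_lit 0) (nat_lit 0xbc0001780002fe647)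 b33817 (.tok (nat_lit 6) (nat_lit 0xbc0001780002fddd3) (.hit (nat_lit 1) (nat_lit 7) (nat_lit 0xbc0001780002fda23) b33818 (.hit (nat_lit 4) (nat_lit 15) (nat_lit 0xbc0001780002fdae9) b33819 (.one (nat_lit 68) (nat_lit 6) (nat_lit 18) (nat_lit 0xbc0001780002fddd3) b33820 (.nil)))) (.tok (nat_lit 52) (nat_lit 0xbc0001780002fe9e7) (.hit (nat_lit 7) (nat_lit 39) (nat_lit 0xbc0001780002fe9e7) b33821 (.hit (nat_lit 8) (nat_lit 40) (nat_lit 0xbc0001780002fe334) b33822 (.nil))) (.tok (nat_lit 55) (nat_lit 0xbc000178000301acb) (.hit (nat_lit 9) (nat_lit 41) (nat_lit 0xbc0001780003003e3) b33823 (.one (nat_lit 3) (nat_lit 12) (nat_lit 47) (nat_lit 0xbc000178000301acb) b33826 (.tok (nat_lit 6) (nat_lit 0xbc0001780002ff07c) (.hit (nat_lit 10) (nat_lit 42) (nat_lit 0xbc0001780002ff07c) b33824 (.hit (nat_lit 11) (nat_lit 45) (nat_lit 0xbc0001780002fe8e0) b33825 (.nil))) (.nil)))) (.one (nat_lit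 58) (nat_lit 14) (nat_lit 49) (nat_lit 0xbc0001780002fd61a) b33827 (.nil)))))) (.nil))
noncomputable def r17_0 : Rw Blk := .tok (nat_lit 3) (nat_lit 0x17f0ed2fddbe5fd294bf8a097f198afe96a5fce12bfa8a97f3ecafe8645fc238bfaf617f5dbafe870) (.hit (nat_lit 0) (nat_lit 0) (nat_lit 0x17de982fc20d5f9146bf40397e794afcdef5fac8cbf3af97e7492fd1325fa146bf42dd7ead92fd0e7) b33845 (.tok (nat_lit 9) (nat_lit 0x17df0b2fbf1e5fc6e0bf56b17e5912fd5bd5f8578bf3e217e8322fcc9b5f8378bf60e17f5192fe5c5) (.hit (nat_lit 10) (nat_lit 20) (nat_lit 0x17d4deafaac55f9b84bf054d7db64afc1645f5cc6beecbd7de05afb8425f5ac6bee2357e7e52fcfe4) b33846 (.hit (nat_lit 15) (nat_lit 28) (nat_lit 0x17d3a72fa8565f8498befb917da2d2fbef55f57e8bee3017dcce2fb5d35f55e8bf2e1d7e4762fcd93) b33849 (.one (nat_lit 56) (nat_lit 17) (nat_lit 31) (nat_lit 0x17de3dafbd835faffcbf50457e4c3afd4225f8242bf37b57e764afcb005f8042bf60e17e61f2fe05b) b33850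 (.tok (nat_lit 68) (nat_lit 0x17df0b2fbf1e5fc6e0bf56b17e5912fd5bd5f8578bf3e217e8322fcc9b5f8378bf33997f5192fe5c5) (.hit (nat_lit 13) (nat_lit 26) (nat_lit 0x17daf72fb6f65fb024bf36117e17d2fcd955f7528bf1d817e41e2fc4735f7328bf2b657f0932fdc63) b33847 (.hit (nat_lit 18) (nat_lit 32) (nat_lit 0x17d8e92fb2da5f9a2cbf25a17df6f2fc9795f6cf0bf0d117e2102fc0575f6af0bf18bd7e0feafd159) b33851 (.one (nat_lit 9) (nat_lit 14) (nat_lit 27) (nat_lit 0x17df0b2fbf1e5fc6e0bf56b17e5912fd5bd5f8578bf3e217e8322fcc9b5f8378bf33997f5192fe5c5) b33848 (.nil)))) (.nil))))) (.tok (nat_lit 64) (nat_lit 0x17d9a62fb4545fa7cebf2b897e02c2fcaf35f6fe4bf12f97e2cd2fc1d15f6de4bf61857e844afd8a2) (.hit (nat_lit 30) (nat_lit 50) (nat_lit 0x17d8112fb12a5f8d50bf1ee17de972fc7c95f6990bf06517e1382fbea75f6790bf2a557df0cafd52f) b33852 (.hit (nat_lit 31) (nat_lit 51) (nat_lit 0x17d9a62fb4545fa7cebf2b897e02c2fcaf35f6fe4bf12f97e2cd2fc1d15f6de4bf61857e844afd8a2)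 b33853 (.nil))) (.tok (nat_lit 67) (nat_lit 0x17f0ed2fddbe5fd294bf8a097f198afe96a5fce12bfa8a97f3ecafe8645fc238bfaf617f5dbafe522) (.hit (nat_lit 32) (nat_lit 52) (nat_lit 0x17f0ed2fdaab5fd294bf899d7f198afe96a5fce12bfa8a97f3ecafe8645fc238bfaf617f5dbafe522) b33854 (.one (nat_lit 3) (nat_lit 38) (nat_lit 58) (nat_lit 0x17de222fbd4c5fbd5cbf4f697e4a82fd3eb5f81d4bf36d97e7492fcac95f7fd4bf3d717ea792fdf88) b33860 (.tok (nat_lit 9) (nat_lit 0x17ea932fddbe5fc770bf8a097ebfc2fe2935f9f24bf71797ee9d2fd9715f9d24bf66f17ec71afe1ee) (.hit (nat_lit 33) (nat_lit 53) (nat_lit 0x17e380afcdcf5fb70ebf64057e73bafd9125f8c22bf4b757e9dcafcff05f8a22bf47157e7b12fd92b) b33855 (.hit (nat_lit 36) (nat_lit 56) (nat_lit 0x17de4eafbda55fb4f6bf50cd7e4d4afd4445f8286bf383d7e775afcb225f8086bf2db57eb85afdba2) b33858 (.tok (nat_lit 67) (nat_lit 0x17ea932fddbe5fc770bf8a097ebfc2fe2935f9f24bf71797ee9d2fd9715f9d24bf66f17ec71afe1ee)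 (.hit (nat_lit 34) (nat_lit 54) (nat_lit 0x17ea932fddbe5fb8fabf8a097ebfc2fe2935f9f24bf71797ee9d2fd9715f9d24bf66f17ec71afde01) b33856 (.hit (nat_lit 37) (nat_lit 57) (nat_lit 0x17e393afc82f5fc770bf7af57ea19afdece5f979abf62657ecbaafd5ac5f959abf57dd7ec6d2fe1ee) b33859 (.one (nat_lit 9) (nat_lit 35) (nat_lit 55) (nat_lit 0x17e2c82fc6985fb72cbf74997e94e2fdd375f946cbf5c097ebef2fd4155f926cbf51817e9c3afd8be) b33857 (.nil)))) (.nil)))) (.nil)))) (.one (nat_lit 70) (nat_lit 40) (nat_lit 60) (nat_lit 0x17ddbe2fbc845fb546bf4c497e4442fd3235f8044bf33b97e6e52fca015f7e44bfa2157ee982fe870) b33861 (.nil)))))) (.tok (nat_lit 6) (nat_lit 0x180000300000600000c000018028d300000600000c0000180000300000600000c02a9180000300000) (.hit (nat_lit 81) (nat_lit 0) (nat_lit 0x17e8baafdc9f5fa902bf827d7f25fafe40e5fb968bf89d17f143afe5e65fb6e8bfa4597f65aafdd4d) b33862 (.tok (nat_lit 6) (nat_lit 0x17f09eafeee85fcd8ebf91597fa46afed2f5fdbfebfb0857f573afeb975fc8fcbfb3597f1a2afeeb2)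 (.hit (nat_lit 87) (nat_lit 7) (nat_lit 0x17e3d6afd0a65f9922bf32157ebb2afda185fb906bf45617e881afd0c15f9726bf2d957e9502fd457) b33863 (.hit (nat_lit 95) (nat_lit 15) (nat_lit 0x17dd08afb6265f9336bed3557e296afc5385f8420bf1cfd7e37fafc9015f879abf7afd7e630afcd60) b33866 (.tok (nat_lit 56) (nat_lit 0x17f09eafeee85fcd8ebf91597fa46afed2f5fdbfebfb0857f573afeb975fc8fcbfb3597f1a2afeeb2) (.hit (nat_lit 93) (nat_lit 13) (nat_lit 0x17f09eafe7795fcc32bf91597f81aafed2f5fd53abf9a697f482afe6c95fc270bf900d7eefeafe876) b33864 (.hit (nat_lit 99) (nat_lit 19) (nat_lit 0x17e77c2fcb115fa67ebf28617eb84afd8cf5fa878bf590d7eae8afd7e25fb2febfb3597ebd2afd396) b33868 (.one (nat_lit 6) (nat_lit 94) (nat_lit 14) (nat_lit 0x17eba82feee85fcd8ebf78b97fa46afdeae5fdbfebfb0857f573afeb975fc8fcbf626d7f1a2afeeb2) b33865 (.nil)))) (.one (nat_lit 68) (nat_lit 98) (nat_lit 18) (nat_lit 0x17e7542fcb905fb646bf2ab57e873afd9ae5f9ddcbf52657ea53afd5b35fad76bf8ce17ed18afd599)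 b33867 (.nil))))) (.tok (nat_lit 52) (nat_lit 0x17ea07afdf6f5fb5f8bf493d7fb5f2fe1395fe300bfcb097fb91aff7755fe1f8bfe1057f1992ff1e7) (.hit (nat_lit 106) (nat_lit 39) (nat_lit 0x17e8ee2fdf6f5fb3bcbf493d7fb5f2fe1065fd5d4bfb53d7fb682fed3c5fc768bfe1057e328afec15) b33869 (.hit (nat_lit 107) (nat_lit 40) (nat_lit 0x17ea07afd8db5fb5f8bf3b657f871afe1395fe300bfcb097fb91aff7755fe1f8bfbeb57f1992ff1e7) b33870 (.nil))) (.tok (nat_lit 55) (nat_lit 0x180000300000600000c000018028d300000600000c0000180000300000600000bffe2d80000300000) (.hit (nat_lit 108) (nat_lit 41) (nat_lit 0x17fb3b2ffbd75fe1ccc000017fee03000005ff48cc00001800003000005ff940bfdb65800002ff74b) b33871 (.one (nat_lit 3) (nat_lit 114) (nat_lit 47) (nat_lit 0x17f65b2feb625fdc68bfe8497fa992ff46c5fea0cbfd0fd7f9ffaff61b5fe4acbfb2bd7f4f62febfa) b33877 (.tok (nat_lit 6) (nat_lit 0x180000300000600000bffa398028d2ffa54600000bffe717ff64affef4600000bffe2d7fa85300000)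 (.hit (nat_lit 109) (nat_lit 42) (nat_lit 0x17f52f2fe1dc5fca76bfa0417f7872ff0205fd2ecbfb68d7f4f72fe9ac5fd64abfc4017e8812fea36) b33872 (.hit (nat_lit 112) (nat_lit 45) (nat_lit 0x17eedf2fe9075fed54bf6e657fb642feaa55ff16ebfcddd7f9f82ff55a5fea5cbf8d1d7f797aff4ff) b33875 (.tok (nat_lit 55) (nat_lit 0x180000300000600000bffa398028d2ffa54600000bffe717ff64affef4600000bffe2d7fa85300000) (.hit (nat_lit 110) (nat_lit 43) (nat_lit 0x1800002ff9945ff958bfe1097fdb2aff59a5ff624bfe3b97fc27aff7f15ff4d4bffe2d7eee5aff975) b33873 (.hit (nat_lit 113) (nat_lit 46) (nat_lit 0x17f685300000600000bf9f518028d2ff82c600000bffe717fe4faffef45ffe38bfc7217fa85300000) b33876 (.one (nat_lit 6) (nat_lit 111) (nat_lit 44) (nat_lit 0x17fec0aff31d5ff4e0bffa397ffce2ffa545ff518bffbe97ff64affe42600000bffc197e78e2ff990) b33874 (.nil)))) (.nil)))) (.nil)))) (.one (nat_lit 58) (nat_lit 116) (nat_lit 49) (nat_lit 0x17ee582fdd7d5fd7f0bf5f2d7fb062fea5e5ff146bfd1197fa8baffd3e5fe5f2c02a917f6e3aff093)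 b33878 (.nil)))))) (.nil))
noncomputable def r17_1 : Rw Blk := .tok (nat_lit 9) (nat_lit 0x5e0000bc00017f9b92ff983) (.hit (nat_lit 0) (nat_lit 0) (nat_lit 0x5e0000bc00017ee012fdfe0) b33879 (.one (nat_lit 26) (nat_lit 22) (nat_lit 72) (nat_lit 0x5e0000bc00017e5f62fbf24) b33880 (.one (nat_lit 29) (nat_lit 23) (nat_lit 73) (nat_lit 0x5e0000bc00017e5882fc02c) b33881 (.one (nat_lit 32) (nat_lit 24) (nat_lit 74) (nat_lit 0x5e0000bc00017ea122fc76d) b33882 (.one (nat_lit 35) (nat_lit 25) (nat_lit 75) (nat_lit 0x5e0000bc00017e4caafbdc9) b33883 (.one (nat_lit 38) (nat_lit 26) (nat_lit 76) (nat_lit 0x5e0000bc00017ed3aafcdd0) b33884 (.tok (nat_lit 41) (nat_lit 0x5e0000bc00017ee8fafcee9) (.hit (nat_lit 27) (nat_lit 77) (nat_lit 0x5e0000bc00017ea56afc503) b33885 (.hit (nat_lit 28) (nat_lit 78) (nat_lit 0x5e0000bc00017ee8fafcee9) b33886 (.nil))) (.tok (nat_lit 44) (nat_lit 0x5e0000bc00017efe42fd12b)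 (.hit (nat_lit 29) (nat_lit 79) (nat_lit 0x5e0000bc00017d532afb67a) b33887 (.hit (nat_lit 30) (nat_lit 80) (nat_lit 0x5e0000bc00017efe42fd12b) b33888 (.nil))) (.tok (nat_lit 47) (nat_lit 0x5e0000bc00017efb6afd2ea) (.hit (nat_lit 31) (nat_lit 81) (nat_lit 0x5e0000bc00017efb6afd2ea) b33889 (.hit (nat_lit 32) (nat_lit 82) (nat_lit 0x5e0000bc00017e9972fc488) b33890 (.nil))) (.one (nat_lit 50) (nat_lit 33) (nat_lit 83) (nat_lit 0x5e0000bc00017e97cafc58c) b33891 (.tok (nat_lit 53) (nat_lit 0x5e0000bc00017ed33afd11e) (.hit (nat_lit 34) (nat_lit 84) (nat_lit 0x5e0000bc00017e7112fd11e) b33892 (.hit (nat_lit 35) (nat_lit 85) (nat_lit 0x5e0000bc00017ed33afccbc) b33893 (.nil))) (.tok (nat_lit 56) (nat_lit 0x5e0000bc00017ededafe1bf) (.hit (nat_lit 36) (nat_lit 86) (nat_lit 0x5e0000bc00017ededafe1bf) b33894 (.one (nat_lit 3) (nat_lit 40) (nat_lit 90) (nat_lit 0x5e0000bc00017e149afcea8) b33898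 (.tok (nat_lit 6) (nat_lit 0x5e0000bc00017e69b2fd94b) (.hit (nat_lit 38) (nat_lit 88) (nat_lit 0x5e0000bc00017e69b2fd94b) b33896 (.hit (nat_lit 39) (nat_lit 89) (nat_lit 0x5e0000bc00017e3f5afd400) b33897 (.nil))) (.one (nat_lit 9) (nat_lit 37) (nat_lit 87) (nat_lit 0x5e0000bc00017e53f2fd693) b33895 (.nil))))) (.one (nat_lit 59) (nat_lit 41) (nat_lit 91) (nat_lit 0x5e0000bc00017e9b1afc4e1) b33899 (.one (nat_lit 62) (nat_lit 42) (nat_lit 92) (nat_lit 0x5e0000bc00017ed40afccb9) b33900 (.tok (nat_lit 65) (nat_lit 0x5e0000bc00017edb3afd144) (.hit (nat_lit 43) (nat_lit 93) (nat_lit 0x5e0000bc00017e11aafd0c6) b33901 (.hit (nat_lit 44) (nat_lit 94) (nat_lit 0x5e0000bc00017edb3afd144) b33902 (.nil))) (.tok (nat_lit 68) (nat_lit 0x5e0000bc00017f9b92ff983) (.hit (nat_lit 45) (nat_lit 95) (nat_lit 0x5e0000bc00017f96daff86a) b33903 (.one (nat_lit 3) (nat_lit 49) (nat_lit 99) (nat_lit 0x5e0000bc00017f9b92fe9aa)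 b33907 (.one (nat_lit 6) (nat_lit 46) (nat_lit 96) (nat_lit 0x5e0000bc00017f450aff983) b33904 (.tok (nat_lit 9) (nat_lit 0x5e0000bc00017f57b2fe72f) (.hit (nat_lit 47) (nat_lit 97) (nat_lit 0x5e0000bc00017f57b2fe72f) b33905 (.hit (nat_lit 48) (nat_lit 98) (nat_lit 0x5e0000bc00017eff52fd17c) b33906 (.nil))) (.nil))))) (.one (nat_lit 71) (nat_lit 50) (nat_lit 100) (nat_lit 0x5e0000bc00017e9ff2fc62b) b33908 (.nil)))))))))))))))))) (.tok (nat_lit 64) (nat_lit 0x5e0000bc000180000300ff2) (.hit (nat_lit 180) (nat_lit 0) (nat_lit 0x5e0000bc00017fe76300ff2) b33909 (.tok (nat_lit 6) (nat_lit 0x5e0000bc00017f1d4afef61) (.hit (nat_lit 181) (nat_lit 7) (nat_lit 0x5e0000bc00017e6ec2fe826) b33910 (.hit (nat_lit 182) (nat_lit 15) (nat_lit 0x5e0000bc00017f1d4afef61) b33911 (.nil))) (.tok (nat_lit 9) (nat_lit 0x5e0000bc000180000300f05) (.hit (nat_lit 183) (nat_lit 20) (nat_lit 0x5e0000bc000180000300f05)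 b33912 (.hit (nat_lit 184) (nat_lit 28) (nat_lit 0x5e0000bc00017f4752ff9ce) b33913 (.nil))) (.nil)))) (.tok (nat_lit 67) (nat_lit 0x5e0000bc00017f661aff4bc) (.hit (nat_lit 205) (nat_lit 0) (nat_lit 0x5e0000bc00017f661afeb28) b33921 (.one (nat_lit 3) (nat_lit 206) (nat_lit 1) (nat_lit 0x5e0000bc00017e3e12fe210) b33922 (.tok (nat_lit 9) (nat_lit 0x5e0000bc00017ed372ff4bc) (.hit (nat_lit 208) (nat_lit 20) (nat_lit 0x5e0000bc00017e6e2afe813) b33923 (.hit (nat_lit 211) (nat_lit 28) (nat_lit 0x5e0000bc00017e357afe0fd) b33926 (.tok (nat_lit 67) (nat_lit 0x5e0000bc00017ed372ff4bc) (.hit (nat_lit 209) (nat_lit 21) (nat_lit 0x5e0000bc00017e8cc2febe6) b33924 (.hit (nat_lit 212) (nat_lit 29) (nat_lit 0x5e0000bc00017ed372ff4bc) b33927 (.one (nat_lit 9) (nat_lit 210) (nat_lit 22) (nat_lit 0x5e0000bc00017ebf22ff232) b33925 (.nil)))) (.nil)))) (.nil)))) (.tok (nat_lit 70) (nat_lit 0x5e0000bc00017fb04b00f39)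 (.hit (nat_lit 191) (nat_lit 0) (nat_lit 0x5e0000bc00017fb04aff424) b33914 (.one (nat_lit 3) (nat_lit 192) (nat_lit 1) (nat_lit 0x5e0000bc00017e3ac2fe1a6) b33915 (.tok (nat_lit 6) (nat_lit 0x5e0000bc00017fa75b00f39) (.hit (nat_lit 194) (nat_lit 7) (nat_lit 0x5e0000bc00017ea44afeed7) b33916 (.hit (nat_lit 197) (nat_lit 15) (nat_lit 0x5e0000bc00017e6a32fe794) b33919 (.tok (nat_lit 55) (nat_lit 0x5e0000bc00017fa75b00f39) (.hit (nat_lit 195) (nat_lit 8) (nat_lit 0x5e0000bc00017efce2ff9ea) b33917 (.hit (nat_lit 198) (nat_lit 16) (nat_lit 0x5e0000bc00017f223affe95) b33920 (.one (nat_lit 6) (nat_lit 196) (nat_lit 9) (nat_lit 0x5e0000bc00017fa75b00f39) b33918 (.nil)))) (.nil)))) (.nil)))) (.nil))))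
noncomputable def r17_2 : Rw Blk := .tok (nat_lit 3) (nat_lit 0x5e0000bc00017f275afeddb) (.hit (nat_lit 15) (nat_lit 0) (nat_lit 0x5e0000bc00017f275afeddb) b33942 (.tok (nat_lit 6) (nat_lit 0x5e0000bc00017e969afea15) (.hit (nat_lit 16) (nat_lit 7) (nat_lit 0x5e0000bc00017e0042fd74a) b33943 (.hit (nat_lit 21) (nat_lit 15) (nat_lit 0x5e0000bc00017d4232fbf88) b33948 (.tok (nat_lit 14) (nat_lit 0x5e0000bc00017e5bbafe2b9) (.hit (nat_lit 17) (nat_lit 11) (nat_lit 0x5e0000bc00017dea82fd492) b33944 (.hit (nat_lit 22) (nat_lit 17) (nat_lit 0x5e0000bc00017e453afdfe9) b33949 (.one (nat_lit 9) (nat_lit 18) (nat_lit 12) (nat_lit 0x5e0000bc00017e5bbafe2b9) b33945 (.nil)))) (.tok (nat_lit 56) (nat_lit 0x5e0000bc00017e969afea15) (.hit (nat_lit 19) (nat_lit 13) (nat_lit 0x5e0000bc00017e424afdf8b) b33946 (.hit (nat_lit 24) (nat_lit 19) (nat_lit 0x5e0000bc00017e4922fe066) b33951 (.one (nat_lit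 6) (nat_lit 20) (nat_lit 14) (nat_lit 0x5e0000bc00017e969afea15) b33947 (.nil)))) (.one (nat_lit 68) (nat_lit 23) (nat_lit 18) (nat_lit 0x5e0000bc00017e378afde33) b33950 (.nil)))))) (.nil))) (.tok (nat_lit 9) (nat_lit 0x5e0000bc000180e0730263b) (.hit (nat_lit 0) (nat_lit 0) (nat_lit 0x5e0000bc00017fc5fb00140) b33928 (.tok (nat_lit 9) (nat_lit 0x5e0000bc00018010bb01242) (.hit (nat_lit 1) (nat_lit 20) (nat_lit 0x5e0000bc00017f119afec42) b33929 (.hit (nat_lit 4) (nat_lit 28) (nat_lit 0x5e0000bc00017eb632fdb8d) b33932 (.tok (nat_lit 14) (nat_lit 0x5e0000bc00018010bb01242) (.hit (nat_lit 2) (nat_lit 24) (nat_lit 0x5e0000bc00017fe14300e89) b33930 (.hit (nat_lit 5) (nat_lit 30) (nat_lit 0x5e0000bc00017f0c32fdec2) b33933 (.one (nat_lit 6) (nat_lit 3) (nat_lit 25) (nat_lit 0x5e0000bc00018010bb01242) b33931 (.nil)))) (.nil)))) (.tok (nat_lit 64) (nat_lit 0x5e0000bc00018058fb00fee) (.hit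 (nat_lit 7) (nat_lit 50) (nat_lit 0x5e0000bc00018014a2fff0a) b33934 (.hit (nat_lit 8) (nat_lit 51) (nat_lit 0x5e0000bc00018058fb00fee) b33935 (.nil))) (.tok (nat_lit 67) (nat_lit 0x5e0000bc000180602b01e8a) (.hit (nat_lit 9) (nat_lit 52) (nat_lit 0x5e0000bc0001802fd301e8a) b33936 (.tok (nat_lit 3) (nat_lit 0x5e0000bc000180602b019db) (.hit (nat_lit 12) (nat_lit 58) (nat_lit 0x5e0000bc00017ff39300f03) b33939 (.one (nat_lit 55) (nat_lit 13) (nat_lit 59) (nat_lit 0x5e0000bc000180602b019db) b33940 (.nil))) (.tok (nat_lit 9) (nat_lit 0x5e0000bc00017fd03affe53) (.hit (nat_lit 10) (nat_lit 53) (nat_lit 0x5e0000bc00017f65caff548) b33937 (.hit (nat_lit 11) (nat_lit 56) (nat_lit 0x5e0000bc00017fd03affe53) b33938 (.nil))) (.nil)))) (.one (nat_lit 70) (nat_lit 14) (nat_lit 60) (nat_lit 0x5e0000bc000180e0730263b) b33941 (.nil)))))) (.nil))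
noncomputable def r17_3 : Rw Blk := .tok (nat_lit 6) (nat_lit 0x2f00005e0000bfae5d7ffaeaffe94) (.hit (nat_lit 0) (nat_lit 0) (nat_lit 0x2f00005e0000bf51357f0d32fde23) b33952 (.one (nat_lit 26) (nat_lit 32) (nat_lit 72) (nat_lit 0x2f00005e0000bf331d7e9d9afcd4b) b33953 (.one (nat_lit 29) (nat_lit 33) (nat_lit 73) (nat_lit 0x2f00005e0000bf48257ecfaafde74) b33954 (.one (nat_lit 32) (nat_lit 34) (nat_lit 74) (nat_lit 0x2f00005e0000bf14417e65fafc538) b33955 (.one (nat_lit 35) (nat_lit 35) (nat_lit 75) (nat_lit 0x2f00005e0000bf724d7ecfc2fdfc6) b33956 (.one (nat_lit 38) (nat_lit 36) (nat_lit 76) (nat_lit 0x2f00005e0000bf487d7ec4c2fd1aa) b33957 (.tok (nat_lit 41) (nat_lit 0x2f00005e0000bf38497eb3fafd514) (.hit (nat_lit 37) (nat_lit 77) (nat_lit 0x2f00005e0000bf1f0d7e4e42fcc06) b33958 (.hit (nat_lit 38) (nat_lit 78) (nat_lit 0x2f00005e0000bf38497eb3fafd514) b33959 (.nil))) (.tok (nat_lit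 44) (nat_lit 0x2f00005e0000bf75e97ec252fe690) (.hit (nat_lit 39) (nat_lit 79) (nat_lit 0x2f00005e0000bf75e97ec252fe690) b33960 (.hit (nat_lit 40) (nat_lit 80) (nat_lit 0x2f00005e0000bf46f17e8352fd2ff) b33961 (.nil))) (.tok (nat_lit 47) (nat_lit 0x2f00005e0000bf9ccd7f1792feac1) (.hit (nat_lit 41) (nat_lit 81) (nat_lit 0x2f00005e0000be83617e447afbc29) b33962 (.hit (nat_lit 42) (nat_lit 82) (nat_lit 0x2f00005e0000bf9ccd7f1792feac1) b33963 (.nil))) (.one (nat_lit 50) (nat_lit 43) (nat_lit 83) (nat_lit 0x2f00005e0000bf6db57ee73afdc64) b33964 (.tok (nat_lit 53) (nat_lit 0x2f00005e0000bf998d7f0152fecba) (.hit (nat_lit 44) (nat_lit 84) (nat_lit 0x2f00005e0000bf998d7ec32afecba) b33965 (.hit (nat_lit 45) (nat_lit 85) (nat_lit 0x2f00005e0000bf69557f0152fe43d) b33966 (.nil))) (.tok (nat_lit 56) (nat_lit 0x2f00005e0000bfae5d7ffaeaffe94) (.hit (nat_lit 46) (nat_lit 86) (nat_lit 0x2f00005e0000bfa1657f8c8aff019)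 b33967 (.one (nat_lit 3) (nat_lit 50) (nat_lit 90) (nat_lit 0x2f00005e0000bf6f6d7f49c2fe43e) b33971 (.tok (nat_lit 6) (nat_lit 0x2f00005e0000bfa1317f8f4affa2b) (.hit (nat_lit 48) (nat_lit 88) (nat_lit 0x2f00005e0000bfa1317f8f4affa2b) b33969 (.hit (nat_lit 49) (nat_lit 89) (nat_lit 0x2f00005e0000bf89957f0c7afec5b) b33970 (.nil))) (.one (nat_lit 9) (nat_lit 47) (nat_lit 87) (nat_lit 0x2f00005e0000bfae5d7ffaeaffe94) b33968 (.nil))))) (.one (nat_lit 59) (nat_lit 51) (nat_lit 91) (nat_lit 0x2f00005e0000bf56e57eb24afd852) b33972 (.one (nat_lit 62) (nat_lit 52) (nat_lit 92) (nat_lit 0x2f00005e0000bf32297ea2e2fccd2) b33973 (.tok (nat_lit 65) (nat_lit 0x2f00005e0000bf61697ea932fd130) (.hit (nat_lit 53) (nat_lit 93) (nat_lit 0x2f00005e0000bf61697e9432fd130) b33974 (.hit (nat_lit 54) (nat_lit 94) (nat_lit 0x2f00005e0000bf0c997ea932fcfd8) b33975 (.nil))) (.tok (nat_lit 68) (nat_lit 0x2f00005e0000bf2c057f3f32fe02e)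 (.hit (nat_lit 55) (nat_lit 95) (nat_lit 0x2f00005e0000bf2c057f3f32fe02e) b33976 (.one (nat_lit 3) (nat_lit 59) (nat_lit 99) (nat_lit 0x2f00005e0000be9f117e7bdafc315) b33980 (.one (nat_lit 6) (nat_lit 56) (nat_lit 96) (nat_lit 0x2f00005e0000beaf9d7e9cf2fc738) b33977 (.tok (nat_lit 9) (nat_lit 0x2f00005e0000bee74d7f0c52fd524) (.hit (nat_lit 57) (nat_lit 97) (nat_lit 0x2f00005e0000bee74d7f0c52fd524) b33978 (.hit (nat_lit 58) (nat_lit 98) (nat_lit 0x2f00005e0000bec6057ec9c2fccd2) b33979 (.nil))) (.nil))))) (.one (nat_lit 71) (nat_lit 60) (nat_lit 100) (nat_lit 0x2f00005e0000bf4cc57eb9cafd754) b33981 (.nil)))))))))))))))))) (.tok (nat_lit 52) (nat_lit 0x2f00005e0000c0000180e94b01684) (.hit (nat_lit 176) (nat_lit 0) (nat_lit 0x2f00005e0000c0000180e94b01684) b33982 (.tok (nat_lit 6) (nat_lit 0x2f00005e0000bfb06980599b00875) (.hit (nat_lit 177) (nat_lit 7) (nat_lit 0x2f00005e0000bfb06980599b00875)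 b33983 (.hit (nat_lit 178) (nat_lit 15) (nat_lit 0x2f00005e0000bf6ce57faa02ff907) b33984 (.nil))) (.tok (nat_lit 9) (nat_lit 0x2f00005e0000bfa3ad7fdb9b00250) (.hit (nat_lit 179) (nat_lit 20) (nat_lit 0x2f00005e0000bf554d7f9a5aff239) b33985 (.hit (nat_lit 180) (nat_lit 28) (nat_lit 0x2f00005e0000bfa3ad7fdb9b00250) b33986 (.nil))) (.nil)))) (.tok (nat_lit 55) (nat_lit 0x2f00005e0000bf93bd80173b001d5) (.hit (nat_lit 187) (nat_lit 0) (nat_lit 0x2f00005e0000bf8aa57fac12ff470) b33987 (.one (nat_lit 3) (nat_lit 188) (nat_lit 1) (nat_lit 0x2f00005e0000bf15357f1a2afe233) b33988 (.tok (nat_lit 6) (nat_lit 0x2f00005e0000bf93bd80173b001d5) (.hit (nat_lit 190) (nat_lit 7) (nat_lit 0x2f00005e0000bf3f497f6e52fecb8) b33989 (.hit (nat_lit 193) (nat_lit 15) (nat_lit 0x2f00005e0000bf188d7f20dafe309) b33992 (.tok (nat_lit 55) (nat_lit 0x2f00005e0000bf93bd80173b001d5) (.hit (nat_lit 191) (nat_lit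 8) (nat_lit 0x2f00005e0000bf7ae97fe592ffba0) b33990 (.hit (nat_lit 194) (nat_lit 16) (nat_lit 0x2f00005e0000bf7a817fe4c2ffb86) b33993 (.one (nat_lit 6) (nat_lit 192) (nat_lit 9) (nat_lit 0x2f00005e0000bf93bd80173b001d5) b33991 (.nil)))) (.nil)))) (.nil)))) (.tok (nat_lit 58) (nat_lit 0x2f00005e0000bfc02180700300cee) (.hit (nat_lit 201) (nat_lit 0) (nat_lit 0x2f00005e0000bf9de1800152ff915) b33994 (.one (nat_lit 3) (nat_lit 202) (nat_lit 1) (nat_lit 0x2f00005e0000bf35297f5a12fea30) b33995 (.tok (nat_lit 9) (nat_lit 0x2f00005e0000bfc02180700300cee) (.hit (nat_lit 204) (nat_lit 20) (nat_lit 0x2f00005e0000bf3cf57f69aafec23) b33996 (.hit (nat_lit 207) (nat_lit 28) (nat_lit 0x2f00005e0000bf3da97f6b12fec50) b33999 (.tok (nat_lit 67) (nat_lit 0x2f00005e0000bfc02180700300cee) (.hit (nat_lit 205) (nat_lit 21) (nat_lit 0x2f00005e0000bf70d17fd162ff91a) b33997 (.hit (nat_lit 208) (nat_lit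 29) (nat_lit 0x2f00005e0000bfa695803ceb0068b) b34000 (.one (nat_lit 9) (nat_lit 206) (nat_lit 22) (nat_lit 0x2f00005e0000bfc02180700300cee) b33998 (.nil)))) (.nil)))) (.nil)))) (.nil))))
noncomputable def r17_4 : Rw Blk := .tok (nat_lit 3) (nat_lit 0x2f00005e0000c00e318017e300c80) (.hit (nat_lit 15) (nat_lit 0) (nat_lit 0x2f00005e0000c00e318017e300c80) b34015 (.tok (nat_lit 9) (nat_lit 0x2f00005e0000bfcd617f24d2fec45) (.hit (nat_lit 16) (nat_lit 20) (nat_lit 0x2f00005e0000bf02797e11f2fc220) b34016 (.hit (nat_lit 21) (nat_lit 28) (nat_lit 0x2f00005e0000bf3ff17db5fafd767) b34021 (.tok (nat_lit 14) (nat_lit 0x2f00005e0000bf8ec97ef1aafe534) (.hit (nat_lit 17) (nat_lit 24) (nat_lit 0x2f00005e0000bf47c97e6cd2fd374) b34017 (.hit (nat_lit 22) (nat_lit 30) (nat_lit 0x2f00005e0000bf6ded7ef1aafe462) b34022 (.one (nat_lit 6) (nat_lit 18) (nat_lit 25) (nat_lit 0x2f00005e0000bf8ec97e8a0afe534)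 b34018 (.nil)))) (.one (nat_lit 56) (nat_lit 23) (nat_lit 31) (nat_lit 0x2f00005e0000bfcd617f1be2fec45) b34023 (.tok (nat_lit 68) (nat_lit 0x2f00005e0000bf751d7f24d2fe691) (.hit (nat_lit 19) (nat_lit 26) (nat_lit 0x2f00005e0000bf46957e565afd327) b34019 (.hit (nat_lit 24) (nat_lit 32) (nat_lit 0x2f00005e0000bf5fdd7ed1bafe691) b34024 (.one (nat_lit 9) (nat_lit 20) (nat_lit 27) (nat_lit 0x2f00005e0000bf751d7f24d2fdff6) b34020 (.nil)))) (.nil)))))) (.nil))) (.tok (nat_lit 6) (nat_lit 0x2f00005e0000c0dda582662b04c72) (.hit (nat_lit 0) (nat_lit 0) (nat_lit 0x2f00005e0000c0151d80799300e5a) b34001 (.tok (nat_lit 6) (nat_lit 0x2f00005e0000c03b298173b3028a2) (.hit (nat_lit 1) (nat_lit 7) (nat_lit 0x2f00005e0000bf53b57f543afdf59) b34002 (.hit (nat_lit 4) (nat_lit 15) (nat_lit 0x2f00005e0000bf79017f34bafe43e) b34005 (.tok (nat_lit 14) (nat_lit 0x2f00005e0000c03b298173b3028a2) (.hit (nat_lit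 2) (nat_lit 11) (nat_lit 0x2f00005e0000bfadb580363affca9) b34003 (.hit (nat_lit 5) (nat_lit 17) (nat_lit 0x2f00005e0000bfdead7ff4a2ffb20) b34006 (.one (nat_lit 9) (nat_lit 3) (nat_lit 12) (nat_lit 0x2f00005e0000c03b298173b3028a2) b34004 (.nil)))) (.nil)))) (.tok (nat_lit 52) (nat_lit 0x2f00005e0000c0d8f58246db03c2c) (.hit (nat_lit 7) (nat_lit 39) (nat_lit 0x2f00005e0000c0d8f58246db03c2c) b34007 (.hit (nat_lit 8) (nat_lit 40) (nat_lit 0x2f00005e0000c03e1d8092d300ab2) b34008 (.nil))) (.tok (nat_lit 55) (nat_lit 0x2f00005e0000c0dda582662b03a32) (.hit (nat_lit 9) (nat_lit 41) (nat_lit 0x2f00005e0000c0a05181cd1b02a1f) b34009 (.tok (nat_lit 3) (nat_lit 0x2f00005e0000c00d0980e5a300f06) (.hit (nat_lit 12) (nat_lit 47) (nat_lit 0x2f00005e0000bfd96980e5a300f06) b34012 (.one (nat_lit 67) (nat_lit 13) (nat_lit 48) (nat_lit 0x2f00005e0000c00d0980ce1b00df5) b34013 (.nil))) (.tok (nat_lit 6)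 (nat_lit 0x2f00005e0000c0dda582662b03a32) (.hit (nat_lit 10) (nat_lit 42) (nat_lit 0x2f00005e0000c0dda582662b03a32) b34010 (.hit (nat_lit 11) (nat_lit 45) (nat_lit 0x2f00005e0000bfeb358023b2ff96d) b34011 (.nil))) (.nil)))) (.one (nat_lit 58) (nat_lit 14) (nat_lit 49) (nat_lit 0x2f00005e0000c0ce89825c0304c72) b34014 (.nil)))))) (.nil))
noncomputable def r17_5 : Rw Blk := .tok (nat_lit 6) (nat_lit 0x5e0000bc0001821cfb03d2b) (.hit (nat_lit 0) (nat_lit 0) (nat_lit 0x5e0000bc00017fa97300aa3) b34025 (.tok (nat_lit 14) (nat_lit 0x5e0000bc00018171b30398b) (.hit (nat_lit 1) (nat_lit 61) (nat_lit 0x5e0000bc00018028530110e) b34026 (.one (nat_lit 3) (nat_lit 2) (nat_lit 62) (nat_lit 0x5e0000bc0001806b4300ee0) b34027 (.tok (nat_lit 6) (nat_lit 0x5e0000bc00017f6742ff723) (.hit (nat_lit 5) (nat_lit 65) (nat_lit 0x5e0000bc00017f6742fe3e0) b34030 (.hit (nat_lit 6) (nat_lit 66) (nat_lit 0x5e0000bc00017f1e02ff723)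 b34031 (.nil))) (.tok (nat_lit 9) (nat_lit 0x5e0000bc00018171b30398b) (.hit (nat_lit 3) (nat_lit 63) (nat_lit 0x5e0000bc00018171b30398b) b34028 (.hit (nat_lit 4) (nat_lit 64) (nat_lit 0x5e0000bc00017f9dab0062f) b34029 (.nil))) (.nil))))) (.one (nat_lit 17) (nat_lit 7) (nat_lit 67) (nat_lit 0x5e0000bc00017f8722febb2) b34032 (.tok (nat_lit 20) (nat_lit 0x5e0000bc0001821cfb03d2b) (.hit (nat_lit 8) (nat_lit 68) (nat_lit 0x5e0000bc0001821cfb03d2b) b34033 (.hit (nat_lit 9) (nat_lit 69) (nat_lit 0x5e0000bc00017f5d52fe2ee) b34034 (.nil))) (.tok (nat_lit 23) (nat_lit 0x5e0000bc00017f4e62fe9f3) (.hit (nat_lit 10) (nat_lit 70) (nat_lit 0x5e0000bc00017f155afd9a3) b34035 (.hit (nat_lit 11) (nat_lit 71) (nat_lit 0x5e0000bc00017f4e62fe9f3) b34036 (.nil))) (.one (nat_lit 26) (nat_lit 12) (nat_lit 72) (nat_lit 0x5e0000bc00017f94c2fe95c) b34037 (.one (nat_lit 29) (nat_lit 13) (nat_lit 73) (nat_lit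 0x5e0000bc00017fc522ff0e3) b34038 (.one (nat_lit 32) (nat_lit 14) (nat_lit 74) (nat_lit 0x5e0000bc00017ef3eafdc51) b34039 (.one (nat_lit 35) (nat_lit 15) (nat_lit 75) (nat_lit 0x5e0000bc00017fa0cafee95) b34040 (.one (nat_lit 38) (nat_lit 16) (nat_lit 76) (nat_lit 0x5e0000bc00017f177afe39b) b34041 (.tok (nat_lit 41) (nat_lit 0x5e0000bc00017ef6aafedd8) (.hit (nat_lit 17) (nat_lit 77) (nat_lit 0x5e0000bc00017eb22afedd8) b34042 (.hit (nat_lit 18) (nat_lit 78) (nat_lit 0x5e0000bc00017ef6aafea8c) b34043 (.nil))) (.tok (nat_lit 44) (nat_lit 0x5e0000bc00017f4cdaff1e8) (.hit (nat_lit 19) (nat_lit 79) (nat_lit 0x5e0000bc00017f4cdaff1e8) b34044 (.hit (nat_lit 20) (nat_lit 80) (nat_lit 0x5e0000bc00017ea3a2fda22) b34045 (.nil))) (.tok (nat_lit 47) (nat_lit 0x5e0000bc00017f42fafe954) (.hit (nat_lit 21) (nat_lit 81) (nat_lit 0x5e0000bc00017e9842fca00) b34046 (.hit (nat_lit 22) (nat_lit 82)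 (nat_lit 0x5e0000bc00017f42fafe954) b34047 (.nil))) (.nil)))))))))))))) (.tok (nat_lit 52) (nat_lit 0x5e0000bc0001818593030b4) (.hit (nat_lit 45) (nat_lit 0) (nat_lit 0x5e0000bc0001818593030b4) b34058 (.tok (nat_lit 6) (nat_lit 0x5e0000bc000181350b02ccc) (.hit (nat_lit 46) (nat_lit 7) (nat_lit 0x5e0000bc000181350b02700) b34059 (.hit (nat_lit 47) (nat_lit 15) (nat_lit 0x5e0000bc000180e61b02ccc) b34060 (.nil))) (.tok (nat_lit 9) (nat_lit 0x5e0000bc00017ff19b0071a) (.hit (nat_lit 48) (nat_lit 20) (nat_lit 0x5e0000bc00017f71d2fedb7) b34061 (.hit (nat_lit 49) (nat_lit 28) (nat_lit 0x5e0000bc00017ff19b0071a) b34062 (.nil))) (.nil)))) (.tok (nat_lit 55) (nat_lit 0x5e0000bc0001806ed300d57) (.hit (nat_lit 40) (nat_lit 0) (nat_lit 0x5e0000bc0001804cc300288) b34053 (.tok (nat_lit 3) (nat_lit 0x5e0000bc00018049cb008b6) (.hit (nat_lit 41) (nat_lit 1) (nat_lit 0x5e0000bc00017fd41affa00) b34054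 (.one (nat_lit 67) (nat_lit 42) (nat_lit 2) (nat_lit 0x5e0000bc00018049cb008b6) b34055 (.nil))) (.tok (nat_lit 6) (nat_lit 0x5e0000bc0001806ed300d57) (.hit (nat_lit 43) (nat_lit 7) (nat_lit 0x5e0000bc0001806ed300d57) b34056 (.hit (nat_lit 44) (nat_lit 15) (nat_lit 0x5e0000bc00017f8812ff07f) b34057 (.nil))) (.nil)))) (.tok (nat_lit 58) (nat_lit 0x5e0000bc000181177b028e5) (.hit (nat_lit 32) (nat_lit 0) (nat_lit 0x5e0000bc0001808f0b028e5) b34048 (.tok (nat_lit 3) (nat_lit 0x5e0000bc000181177b0226c) (.hit (nat_lit 33) (nat_lit 1) (nat_lit 0x5e0000bc0001807dcb00f36) b34049 (.one (nat_lit 55) (nat_lit 34) (nat_lit 3) (nat_lit 0x5e0000bc000181177b0226c) b34050 (.nil))) (.tok (nat_lit 9) (nat_lit 0x5e0000bc000180a48b0140e) (.hit (nat_lit 35) (nat_lit 20) (nat_lit 0x5e0000bc000180a48b0140e) b34051 (.hit (nat_lit 38) (nat_lit 28) (nat_lit 0x5e0000bc000180621b00bc0) b34052 (.nil))) (.nil))))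 (.nil))))
noncomputable def r17_6 : Rw Blk := .tok (nat_lit 3) (nat_lit 0x5e0000bc000181c97304180) (.hit (nat_lit 0) (nat_lit 0) (nat_lit 0x5e0000bc000181c9730339d) b34063 (.tok (nat_lit 9) (nat_lit 0x5e0000bc0001810293014b6) (.hit (nat_lit 1) (nat_lit 20) (nat_lit 0x5e0000bc00017f9bb2fe7da) b34064 (.hit (nat_lit 6) (nat_lit 28) (nat_lit 0x5e0000bc00017fc7d2fed5e) b34067 (.tok (nat_lit 14) (nat_lit 0x5e0000bc0001810293014b6) (.hit (nat_lit 2) (nat_lit 24) (nat_lit 0x5e0000bc000180795b0038f) b34065 (.hit (nat_lit 7) (nat_lit 30) (nat_lit 0x5e0000bc0001810293014b6) b34068 (.one (nat_lit 6) (nat_lit 3) (nat_lit 25) (nat_lit 0x5e0000bc00018066330012a) b34066 (.nil)))) (.nil)))) (.tok (nat_lit 64) (nat_lit 0x5e0000bc00018143fb01ce3) (.hit (nat_lit 9) (nat_lit 50) (nat_lit 0x5e0000bc00018119b30179a) b34069 (.hit (nat_lit 10) (nat_lit 51) (nat_lit 0x5e0000bc00018143fb01ce3) b34070 (.nil)))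 (.tok (nat_lit 67) (nat_lit 0x5e0000bc000181b90304180) (.hit (nat_lit 11) (nat_lit 52) (nat_lit 0x5e0000bc000181b90304180) b34071 (.tok (nat_lit 3) (nat_lit 0x5e0000bc000180d70300f44) (.hit (nat_lit 17) (nat_lit 58) (nat_lit 0x5e0000bc000180d70300f44) b34074 (.one (nat_lit 55) (nat_lit 18) (nat_lit 59) (nat_lit 0x5e0000bc000180d00300e64) b34075 (.nil))) (.tok (nat_lit 9) (nat_lit 0x5e0000bc000180ae4300a2c) (.hit (nat_lit 12) (nat_lit 53) (nat_lit 0x5e0000bc000180ae4300a2c) b34072 (.hit (nat_lit 15) (nat_lit 56) (nat_lit 0x5e0000bc000180a66b00931) b34073 (.nil))) (.nil)))) (.one (nat_lit 70) (nat_lit 19) (nat_lit 60) (nat_lit 0x5e0000bc000180fa43013ac) b34076 (.nil)))))) (.tok (nat_lit 6) (nat_lit 0x5e0000bc000182eafb0581f) (.hit (nat_lit 20) (nat_lit 0) (nat_lit 0x5e0000bc000182578304367) b34077 (.tok (nat_lit 6) (nat_lit 0x5e0000bc000182eafb0581f) (.hit (nat_lit 21) (nat_lit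 7) (nat_lit 0x5e0000bc000181984302d09) b34078 (.hit (nat_lit 24) (nat_lit 15) (nat_lit 0x5e0000bc000181597b02664) b34081 (.tok (nat_lit 14) (nat_lit 0x5e0000bc000182eafb0581f) (.hit (nat_lit 22) (nat_lit 11) (nat_lit 0x5e0000bc0001824bcb03eec) b34079 (.hit (nat_lit 25) (nat_lit 17) (nat_lit 0x5e0000bc000181b6ab03714) b34082 (.one (nat_lit 9) (nat_lit 23) (nat_lit 12) (nat_lit 0x5e0000bc000182eafb0581f) b34080 (.nil)))) (.one (nat_lit 68) (nat_lit 26) (nat_lit 18) (nat_lit 0x5e0000bc00018227330437e) b34083 (.nil))))) (.nil))) (.nil))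
noncomputable def r17_7 : Rw Blk := .tok (nat_lit 6) (nat_lit 0x5e0000bc00017f5e22ff4b6) (.hit (nat_lit 0) (nat_lit 0) (nat_lit 0x5e0000bc00017e5a52fd78e) b34084 (.one (nat_lit 26) (nat_lit 32) (nat_lit 72) (nat_lit 0x5e0000bc00017e334afc607) b34085 (.one (nat_lit 29) (nat_lit 33) (nat_lit 73) (nat_lit 0x5e0000bc00017e25f2fc656) b34086 (.one (nat_lit 32) (nat_lit 34) (nat_lit 74) (nat_lit 0x5e0000bc00017de5b2fbead) b34087 (.one (nat_lit 35) (nat_lit 35) (nat_lit 75) (nat_lit 0x5e0000bc00017e61dafcbcc) b34088 (.one (nat_lit 38) (nat_lit 36) (nat_lit 76) (nat_lit 0x5e0000bc00017e4da2fcd02) b34089 (.tok (nat_lit 41) (nat_lit 0x5e0000bc00017e3ab2fc6cf) (.hit (nat_lit 37) (nat_lit 77) (nat_lit 0x5e0000bc00017e3ab2fc42a) b34090 (.hit (nat_lit 38) (nat_lit 78) (nat_lit 0x5e0000bc00017e2222fc6cf) b34091 (.nil))) (.tok (nat_lit 44) (nat_lit 0x5e0000bc00017e86e2fd0b7) (.hit (nat_lit 39)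 (nat_lit 79) (nat_lit 0x5e0000bc00017e86e2fd0b7) b34092 (.hit (nat_lit 40) (nat_lit 80) (nat_lit 0x5e0000bc00017e42d2fc7e6) b34093 (.nil))) (.tok (nat_lit 47) (nat_lit 0x5e0000bc00017e7802fce96) (.hit (nat_lit 41) (nat_lit 81) (nat_lit 0x5e0000bc00017cde42fb4a9) b34094 (.hit (nat_lit 42) (nat_lit 82) (nat_lit 0x5e0000bc00017e7802fce96) b34095 (.nil))) (.one (nat_lit 50) (nat_lit 43) (nat_lit 83) (nat_lit 0x5e0000bc00017e9e3afd34f) b34096 (.tok (nat_lit 53) (nat_lit 0x5e0000bc00017ead82fdd6f) (.hit (nat_lit 44) (nat_lit 84) (nat_lit 0x5e0000bc00017ead82fdd6f) b34097 (.hit (nat_lit 45) (nat_lit 85) (nat_lit 0x5e0000bc00017e89e2fd13c) b34098 (.nil))) (.tok (nat_lit 56) (nat_lit 0x5e0000bc00017f5e22ff4b6) (.hit (nat_lit 46) (nat_lit 86) (nat_lit 0x5e0000bc00017f1b72feab1) b34099 (.one (nat_lit 3) (nat_lit 50) (nat_lit 90) (nat_lit 0x5e0000bc00017ec70afdb37) b34103 (.tok (nat_lit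 6) (nat_lit 0x5e0000bc00017f5e22ff4b6) (.hit (nat_lit 48) (nat_lit 88) (nat_lit 0x5e0000bc00017f5e22ff4b6) b34101 (.hit (nat_lit 49) (nat_lit 89) (nat_lit 0x5e0000bc00017ebe8afd869) b34102 (.nil))) (.one (nat_lit 9) (nat_lit 47) (nat_lit 87) (nat_lit 0x5e0000bc00017f430aff110) b34100 (.nil))))) (.one (nat_lit 59) (nat_lit 51) (nat_lit 91) (nat_lit 0x5e0000bc00017e6152fcbb2) b34104 (.one (nat_lit 62) (nat_lit 52) (nat_lit 92) (nat_lit 0x5e0000bc00017e422afc890) b34105 (.tok (nat_lit 65) (nat_lit 0x5e0000bc00017e28f2fcd23) (.hit (nat_lit 53) (nat_lit 93) (nat_lit 0x5e0000bc00017e024afcd23) b34106 (.hit (nat_lit 54) (nat_lit 94) (nat_lit 0x5e0000bc00017e28f2fc5ec) b34107 (.nil))) (.tok (nat_lit 68) (nat_lit 0x5e0000bc00017e6132fe266) (.hit (nat_lit 55) (nat_lit 95) (nat_lit 0x5e0000bc00017e6132fe266) b34108 (.one (nat_lit 3) (nat_lit 59) (nat_lit 99) (nat_lit 0x5e0000bc00017de1fafd520)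 b34112 (.one (nat_lit 6) (nat_lit 56) (nat_lit 96) (nat_lit 0x5e0000bc00017dd6f2fd3bf) b34109 (.tok (nat_lit 9) (nat_lit 0x5e0000bc00017dfb6afd84e) (.hit (nat_lit 57) (nat_lit 97) (nat_lit 0x5e0000bc00017dfb6afd84e) b34110 (.hit (nat_lit 58) (nat_lit 98) (nat_lit 0x5e0000bc00017de8dafd5fc) b34111 (.nil))) (.nil))))) (.one (nat_lit 71) (nat_lit 60) (nat_lit 100) (nat_lit 0x5e0000bc00017e4272fc819) b34113 (.nil)))))))))))))))))) (.tok (nat_lit 52) (nat_lit 0x5e0000bc00017f56ab00b5f) (.hit (nat_lit 176) (nat_lit 0) (nat_lit 0x5e0000bc00017f475b00b5f) b34114 (.tok (nat_lit 6) (nat_lit 0x5e0000bc00017f56ab00a37) (.hit (nat_lit 177) (nat_lit 7) (nat_lit 0x5e0000bc00017f56ab00a37) b34115 (.hit (nat_lit 178) (nat_lit 15) (nat_lit 0x5e0000bc00017ed5a2ff931) b34116 (.nil))) (.tok (nat_lit 9) (nat_lit 0x5e0000bc00017f177affdd1) (.hit (nat_lit 179) (nat_lit 20) (nat_lit 0x5e0000bc00017ea582ff7f2)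 b34117 (.hit (nat_lit 180) (nat_lit 28) (nat_lit 0x5e0000bc00017f177affdd1) b34118 (.nil))) (.nil)))) (.tok (nat_lit 55) (nat_lit 0x5e0000bc00017f708b00779) (.hit (nat_lit 187) (nat_lit 0) (nat_lit 0x5e0000bc00017f708affb02) b34119 (.one (nat_lit 3) (nat_lit 188) (nat_lit 1) (nat_lit 0x5e0000bc00017e6e12ff104) b34120 (.tok (nat_lit 6) (nat_lit 0x5e0000bc00017f21bb00779) (.hit (nat_lit 190) (nat_lit 7) (nat_lit 0x5e0000bc00017e550afede3) b34121 (.hit (nat_lit 193) (nat_lit 15) (nat_lit 0x5e0000bc00017e6eaaff117) b34124 (.tok (nat_lit 55) (nat_lit 0x5e0000bc00017f21bb00779) (.hit (nat_lit 191) (nat_lit 8) (nat_lit 0x5e0000bc00017ed102ffd62) b34122 (.hit (nat_lit 194) (nat_lit 16) (nat_lit 0x5e0000bc00017ee65b0000d) b34125 (.one (nat_lit 6) (nat_lit 192) (nat_lit 9) (nat_lit 0x5e0000bc00017f21bb00779) b34123 (.nil)))) (.nil)))) (.nil)))) (.tok (nat_lit 58) (nat_lit 0x5e0000bc000180000302342)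 (.hit (nat_lit 201) (nat_lit 0) (nat_lit 0x5e0000bc00017f084aff84a) b34126 (.one (nat_lit 3) (nat_lit 202) (nat_lit 1) (nat_lit 0x5e0000bc00017e7772ff230) b34127 (.tok (nat_lit 9) (nat_lit 0x5e0000bc000180000302342) (.hit (nat_lit 204) (nat_lit 20) (nat_lit 0x5e0000bc00017eb25aff98d) b34128 (.hit (nat_lit 207) (nat_lit 28) (nat_lit 0x5e0000bc00017e6812ff044) b34131 (.tok (nat_lit 67) (nat_lit 0x5e0000bc000180000302342) (.hit (nat_lit 205) (nat_lit 21) (nat_lit 0x5e0000bc00017f178300632) b34129 (.hit (nat_lit 208) (nat_lit 29) (nat_lit 0x5e0000bc00017f360b00a03) b34132 (.one (nat_lit 9) (nat_lit 206) (nat_lit 22) (nat_lit 0x5e0000bc000180000302342) b34130 (.nil)))) (.nil)))) (.nil)))) (.nil))))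
noncomputable def r17_8 : Rw Blk := .tok (nat_lit 3) (nat_lit 0x5e0000bc00017f2a9afece0) (.hit (nat_lit 15) (nat_lit 0) (nat_lit 0x5e0000bc00017f2a9afece0) b34147 (.tok (nat_lit 9) (nat_lit 0x5e0000bc00017ecfaafe437) (.hit (nat_lit 16) (nat_lit 20) (nat_lit 0x5e0000bc00017e2102fce62) b34148 (.hit (nat_lit 21) (nat_lit 28) (nat_lit 0x5e0000bc00017d1b3afada9) b34153 (.tok (nat_lit 14) (nat_lit 0x5e0000bc00017e9cdafdddd) (.hit (nat_lit 17) (nat_lit 24) (nat_lit 0x5e0000bc00017e5edafd61d) b34149 (.hit (nat_lit 22) (nat_lit 30) (nat_lit 0x5e0000bc00017e57b2fd538) b34154 (.one (nat_lit 6) (nat_lit 18) (nat_lit 25) (nat_lit 0x5e0000bc00017e9cdafdddd) b34150 (.nil)))) (.one (nat_lit 56) (nat_lit 23) (nat_lit 31) (nat_lit 0x5e0000bc00017e62fafd6a1) b34155 (.tok (nat_lit 68) (nat_lit 0x5e0000bc00017ecfaafe437) (.hit (nat_lit 19) (nat_lit 26) (nat_lit 0x5e0000bc00017e7e3afda09) b34151 (.hit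 (nat_lit 24) (nat_lit 32) (nat_lit 0x5e0000bc00017e3f02fd222) b34156 (.one (nat_lit 9) (nat_lit 20) (nat_lit 27) (nat_lit 0x5e0000bc00017ecfaafe437) b34152 (.nil)))) (.nil)))))) (.nil))) (.tok (nat_lit 6) (nat_lit 0x5e0000bc00018164a302a76) (.hit (nat_lit 0) (nat_lit 0) (nat_lit 0x5e0000bc00017f85aaff1ab) b34133 (.tok (nat_lit 6) (nat_lit 0x5e0000bc000180341b01c07) (.hit (nat_lit 1) (nat_lit 7) (nat_lit 0x5e0000bc00017f31f2febf9) b34134 (.hit (nat_lit 4) (nat_lit 15) (nat_lit 0x5e0000bc00017e72eafcecb) b34137 (.tok (nat_lit 14) (nat_lit 0x5e0000bc000180341b01c07) (.hit (nat_lit 2) (nat_lit 11) (nat_lit 0x5e0000bc000180341b01c07) b34135 (.hit (nat_lit 5) (nat_lit 17) (nat_lit 0x5e0000bc00017f2eaafe288) b34138 (.one (nat_lit 9) (nat_lit 3) (nat_lit 12) (nat_lit 0x5e0000bc00017fddd3012b0) b34136 (.nil)))) (.nil)))) (.tok (nat_lit 52) (nat_lit 0x5e0000bc000180201b00219) (.hit (nat_lit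 7) (nat_lit 39) (nat_lit 0x5e0000bc000180201b00219) b34139 (.hit (nat_lit 8) (nat_lit 40) (nat_lit 0x5e0000bc00017f7452fedc3) b34140 (.nil))) (.tok (nat_lit 55) (nat_lit 0x5e0000bc00018164a302a76) (.hit (nat_lit 9) (nat_lit 41) (nat_lit 0x5e0000bc00018164a302a76) b34141 (.tok (nat_lit 3) (nat_lit 0x5e0000bc000180b22b01a0b) (.hit (nat_lit 12) (nat_lit 47) (nat_lit 0x5e0000bc00017fe8c3006ba) b34144 (.one (nat_lit 67) (nat_lit 13) (nat_lit 48) (nat_lit 0x5e0000bc000180b22b01a0b) b34145 (.nil))) (.tok (nat_lit 6) (nat_lit 0x5e0000bc000180456b0072e) (.hit (nat_lit 10) (nat_lit 42) (nat_lit 0x5e0000bc000180456b0072e) b34142 (.hit (nat_lit 11) (nat_lit 45) (nat_lit 0x5e0000bc00017fd1a2ff985) b34143 (.nil))) (.nil)))) (.one (nat_lit 58) (nat_lit 14) (nat_lit 49) (nat_lit 0x5e0000bc00017f295aff540) b34146 (.nil)))))) (.nil))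
noncomputable def r17_9 : Rw Blk := .tok (nat_lit 3) (nat_lit 0x2fe1da5fbb7cbfa5297f245afeda35fdbfebfb2157f3dfafeaaf) (.hit (nat_lit 0) (nat_lit 0) (nat_lit 0x2fbd305f841abf228d7e8b02fd7b35f9e4cbf3b6d7e7c22fcfca) b34157 (.tok (nat_lit 6) (nat_lit 0x2fbe165f7e3cbf8dc17e881afcbc15f9e7ebf2bcd7e48bafe33e) (.hit (nat_lit 1) (nat_lit 7) (nat_lit 0x2fa9bd5f558abf37097de552fb7685f75ccbeda697da5f2fcdf7) b34158 (.hit (nat_lit 6) (nat_lit 15) (nat_lit 0x2fa74e5f50acbf09317dd1dafb4f95f70eebed0ad7d927afccd7) b34161 (.tok (nat_lit 56) (nat_lit 0x2fbe165f7e3cbf8dc17e881afcbc15f9e7ebf2bcd7e48bafe33e) (.hit (nat_lit 4) (nat_lit 13) (nat_lit 0x2fb5ee5f6decbf60497e46dafc3995f8e2ebf0b2d7e077afd9db) b34159 (.hit (nat_lit 9) (nat_lit 19) (nat_lit 0x2fb1d25f65b4bf34597e25fafbf7d5f85f6befabd7de69afced2) b34163 (.one (nat_lit 6) (nat_lit 5) (nat_lit 14) (nat_lit 0x2fbe165f7e3cbf8dc17e881afcbc15f9e7ebf2bcd7e48bafe33e)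 b34160 (.nil)))) (.one (nat_lit 68) (nat_lit 8) (nat_lit 18) (nat_lit 0x2fbc7b5f7b06bf5ff97e7b42fca265f9b48bf25617e3be2fddd4) b34162 (.nil))))) (.tok (nat_lit 52) (nat_lit 0x2fb34c5f68a8bf4f9d7e31cafc0f75f88eabf00a57df26afd6b6) (.hit (nat_lit 19) (nat_lit 39) (nat_lit 0x2fb0225f6254bf1aa17e187afbdcd5f8296bef3fd7dd91afd384) b34164 (.hit (nat_lit 20) (nat_lit 40) (nat_lit 0x2fb34c5f68a8bf4f9d7e31cafc0f75f88eabf00a57df26afd6b6) b34165 (.nil))) (.tok (nat_lit 55) (nat_lit 0x2fe1da5fbb7cbfa5297f245afeda35fdbfebfb2157f3dfafeaaf) (.hit (nat_lit 21) (nat_lit 41) (nat_lit 0x2fe1da5fb556bfa5297f1e72feda35fdbfebfb2157f3dfafeaaf) b34166 (.one (nat_lit 3) (nat_lit 27) (nat_lit 47) (nat_lit 0x2fbc445f7a98bf7ab97e798afc9ef5f9adabf24857e3a2afdf61) b34172 (.tok (nat_lit 6) (nat_lit 0x2fd5265fbb7cbf8ee17f245afd8975fb82abf5f257eaf6afe58a) (.hit (nat_lit 22) (nat_lit 42) (nat_lit 0x2fc7015f9b9ebf6e1d7f21bafcf165fa528bf39217e6362fdb0a)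 b34167 (.hit (nat_lit 25) (nat_lit 45) (nat_lit 0x2fbc9d5f7b4abf69ed7e7c52fca485f9b8cbf25e97e3cf2fdfbf) b34170 (.tok (nat_lit 55) (nat_lit 0x2fd5265fbb7cbf8ee17f245afd8975fb82abf5f257eaf6afe58a) (.hit (nat_lit 23) (nat_lit 43) (nat_lit 0x2fd5265fbb7cbf71f57f245afd8975fb82abf5f257eaf6afe262) b34168 (.hit (nat_lit 26) (nat_lit 46) (nat_lit 0x2fc7275f905ebf8ee17ed0a2fd4d25fb0a0bf50117e9142fe58a) b34171 (.one (nat_lit 6) (nat_lit 24) (nat_lit 44) (nat_lit 0x2fc5905f8d30bf6e597ec3eafd33b5fad72bf49b57e848afdc43) b34169 (.nil)))) (.nil)))) (.nil)))) (.one (nat_lit 58) (nat_lit 29) (nat_lit 49) (nat_lit 0x2fbb7c5f7908bf6a8d7e734afc9275f994abf21657e33eafe54f) b34173 (.nil)))))) (.tok (nat_lit 9) (nat_lit 0x300000600000c00001800003005a5600000c0000180000300000) (.hit (nat_lit 157) (nat_lit 0) (nat_lit 0x2fd1755fb93ebf52057f0f8aff1105fc5b4bf95dd7ed07afdac6) b34174 (.tok (nat_lit 9) (nat_lit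 0x2fe13d5fddd0bf9b1d7f2faaff9c35fd548bfa4b17f1962fe8e2) (.hit (nat_lit 163) (nat_lit 20) (nat_lit 0x2fc7ad5fa14cbf32457e66f2fe49f5fa480bf447d7e54cafd212) b34175 (.hit (nat_lit 171) (nat_lit 28) (nat_lit 0x2fba115f6c4cbf266d7db13afc95e5f8f58bf200d7e16f2fcbeb) b34178 (.one (nat_lit 56) (nat_lit 174) (nat_lit 31) (nat_lit 0x2fcea85f9720bf6c8d7e5ffafd5d05faa0cbf52b57eae12fd593) b34179 (.tok (nat_lit 68) (nat_lit 0x2fe13d5fddd0bf9b1d7f2faaff9c35fd548bfa4b17f1962fe8e2) (.hit (nat_lit 169) (nat_lit 26) (nat_lit 0x2fe13d5fcef2bf98657f2faaff97e5fcc14bf92757ef552fdd72) b34176 (.hit (nat_lit 175) (nat_lit 32) (nat_lit 0x2fcef85f9622bf4cfd7e5b52fd75a5fad86bf5b057ec02afd19f) b34180 (.one (nat_lit 9) (nat_lit 170) (nat_lit 27) (nat_lit 0x2fd7505fddd0bf9b1d7ecc2aff9c35fd548bfa4b17f1962fe8e2) b34177 (.nil)))) (.nil))))) (.tok (nat_lit 64) (nat_lit 0x2fd40f5fbedebf6bf17e8662ff4795fe2c0bfcb657f643afeea5)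 (.hit (nat_lit 182) (nat_lit 50) (nat_lit 0x2fd1dc5fbedebf67797e8662fe9e75fc8c2bf89857f34f2fecd8) b34181 (.hit (nat_lit 183) (nat_lit 51) (nat_lit 0x2fd40f5fb1b6bf6bf17e8162ff4795fe2c0bfcb657f643afeea5) b34182 (.nil))) (.tok (nat_lit 67) (nat_lit 0x300000600000c00001800003005a5600000c0000180000300000) (.hit (nat_lit 184) (nat_lit 52) (nat_lit 0x2ff6765ff7aebfc399800002ffb075ffe0cbffe6d7fc88aff3ab) b34183 (.one (nat_lit 3) (nat_lit 190) (nat_lit 58) (nat_lit 0x2fecb65fd6c4bfb8d17fa3a2fe5665fe89abfcb717f7cf2fe800) b34189 (.tok (nat_lit 9) (nat_lit 0x300000600000c000017feab3005a5600000c0000180000300000) (.hit (nat_lit 185) (nat_lit 53) (nat_lit 0x2fea5e5fc3b8bf94ed7f32aafdc1c5fda56bfa0c57f31fafe4e0) b34184 (.hit (nat_lit 188) (nat_lit 56) (nat_lit 0x2fddbe5fd20ebfdaa97eced2ff3965fe8eebfd8357fa3aaff0cf) b34187 (.tok (nat_lit 67) (nat_lit 0x300000600000c000017feab3005a5600000c0000180000300000)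 (.hit (nat_lit 186) (nat_lit 54) (nat_lit 0x3000005ff328bff2b17feab3005a55ff7c6bff33d7fdf4aff8d2) b34185 (.hit (nat_lit 189) (nat_lit 57) (nat_lit 0x2fed0a600000c000017f4933004d5600000c0000180000300000) b34188 (.one (nat_lit 9) (nat_lit 187) (nat_lit 55) (nat_lit 0x2ffd815fe63abfe9c17fd94aff6d55ff606bfe5457fd39aff7f8) b34186 (.nil)))) (.nil)))) (.nil)))) (.one (nat_lit 70) (nat_lit 192) (nat_lit 60) (nat_lit 0x2fdcb05fbafabfafe17ec872ff6b05feb8abfe06d7f5e9afef45) b34190 (.nil)))))) (.nil))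
noncomputable def r17_10 : Rw Blk := .tok (nat_lit 6) (nat_lit 0x5e0000bc00017f9b92ff0c4) (.hit (nat_lit 51) (nat_lit 0) (nat_lit 0x5e0000bc00017ee012fd7d0) b34191 (.one (nat_lit 26) (nat_lit 73) (nat_lit 72) (nat_lit 0x5e0000bc00017e5f62fb6ed) b34192 (.one (nat_lit 29) (nat_lit 74) (nat_lit 73) (nat_lit 0x5e0000bc00017e5882fb81a) b34193 (.one (nat_lit 32) (nat_lit 75) (nat_lit 74) (nat_lit 0x5e0000bc00017e4caafb9f3) b34194 (.one (nat_lit 35) (nat_lit 76) (nat_lit 75) (nat_lit 0x5e0000bc00017ea122fbf5b) b34195 (.one (nat_lit 38) (nat_lit 77) (nat_lit 76) (nat_lit 0x5e0000bc00017ed3aafc848) b34196 (.tok (nat_lit 41) (nat_lit 0x5e0000bc00017ee8fafc6d7) (.hit (nat_lit 78) (nat_lit 77) (nat_lit 0x5e0000bc00017ea56afbcf0) b34197 (.hit (nat_lit 79) (nat_lit 78) (nat_lit 0x5e0000bc00017ee8fafc6d7) b34198 (.nil))) (.tok (nat_lit 44) (nat_lit 0x5e0000bc00017efb6afca64) (.hit (nat_lit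 80) (nat_lit 79) (nat_lit 0x5e0000bc00017efb6afca64) b34199 (.hit (nat_lit 81) (nat_lit 80) (nat_lit 0x5e0000bc00017e9972fbd48) b34200 (.nil))) (.tok (nat_lit 47) (nat_lit 0x5e0000bc00017efe42fc919) (.hit (nat_lit 82) (nat_lit 81) (nat_lit 0x5e0000bc00017d532afb2a4) b34201 (.hit (nat_lit 83) (nat_lit 82) (nat_lit 0x5e0000bc00017efe42fc919) b34202 (.nil))) (.one (nat_lit 50) (nat_lit 84) (nat_lit 83) (nat_lit 0x5e0000bc00017ed40afc4a7) b34203 (.tok (nat_lit 53) (nat_lit 0x5e0000bc00017edb3afccbf) (.hit (nat_lit 85) (nat_lit 84) (nat_lit 0x5e0000bc00017e11aafccbf) b34204 (.hit (nat_lit 86) (nat_lit 85) (nat_lit 0x5e0000bc00017edb3afc973) b34205 (.nil))) (.tok (nat_lit 56) (nat_lit 0x5e0000bc00017f9b92ff0c4) (.hit (nat_lit 87) (nat_lit 86) (nat_lit 0x5e0000bc00017f96dafefa7) b34206 (.one (nat_lit 3) (nat_lit 91) (nat_lit 90) (nat_lit 0x5e0000bc00017f9b92fe163) b34210 (.tok (nat_lit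 6) (nat_lit 0x5e0000bc00017f57b2fdb01) (.hit (nat_lit 89) (nat_lit 88) (nat_lit 0x5e0000bc00017f57b2fdb01) b34208 (.hit (nat_lit 90) (nat_lit 89) (nat_lit 0x5e0000bc00017eff52fcb04) b34209 (.nil))) (.one (nat_lit 9) (nat_lit 88) (nat_lit 87) (nat_lit 0x5e0000bc00017f450aff0c4) b34207 (.nil))))) (.one (nat_lit 59) (nat_lit 92) (nat_lit 91) (nat_lit 0x5e0000bc00017e9ff2fbe1b) b34211 (.one (nat_lit 62) (nat_lit 93) (nat_lit 92) (nat_lit 0x5e0000bc00017e97cafc1b6) b34212 (.tok (nat_lit 65) (nat_lit 0x5e0000bc00017ed33afcd48) (.hit (nat_lit 94) (nat_lit 93) (nat_lit 0x5e0000bc00017e7112fcd48) b34213 (.hit (nat_lit 95) (nat_lit 94) (nat_lit 0x5e0000bc00017ed33afc4a4) b34214 (.nil))) (.tok (nat_lit 68) (nat_lit 0x5e0000bc00017ededafd9ae) (.hit (nat_lit 96) (nat_lit 95) (nat_lit 0x5e0000bc00017ededafd9ae) b34215 (.one (nat_lit 3) (nat_lit 100) (nat_lit 99) (nat_lit 0x5e0000bc00017e149afcad2)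 b34219 (.one (nat_lit 6) (nat_lit 97) (nat_lit 96) (nat_lit 0x5e0000bc00017e53f2fd2bd) b34216 (.tok (nat_lit 9) (nat_lit 0x5e0000bc00017e69b2fd575) (.hit (nat_lit 98) (nat_lit 97) (nat_lit 0x5e0000bc00017e69b2fd575) b34217 (.hit (nat_lit 99) (nat_lit 98) (nat_lit 0x5e0000bc00017e3f5afd02a) b34218 (.nil))) (.nil))))) (.one (nat_lit 71) (nat_lit 101) (nat_lit 100) (nat_lit 0x5e0000bc00017e9b1afbcce) b34220 (.nil)))))))))))))))))) (.tok (nat_lit 52) (nat_lit 0x5e0000bc000180000300860) (.hit (nat_lit 225) (nat_lit 0) (nat_lit 0x5e0000bc00017fe76300860) b34221 (.tok (nat_lit 6) (nat_lit 0x5e0000bc000180000300525) (.hit (nat_lit 226) (nat_lit 7) (nat_lit 0x5e0000bc000180000300525) b34222 (.hit (nat_lit 227) (nat_lit 15) (nat_lit 0x5e0000bc00017f4752ff0a9) b34223 (.nil))) (.tok (nat_lit 9) (nat_lit 0x5e0000bc00017f1d4afefb9) (.hit (nat_lit 228) (nat_lit 20) (nat_lit 0x5e0000bc00017e6ec2fded2)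 b34224 (.hit (nat_lit 229) (nat_lit 28) (nat_lit 0x5e0000bc00017f1d4afefb9) b34225 (.nil))) (.nil)))) (.tok (nat_lit 55) (nat_lit 0x5e0000bc00017f661afeb68) (.hit (nat_lit 250) (nat_lit 0) (nat_lit 0x5e0000bc00017f661afe328) b34233 (.one (nat_lit 3) (nat_lit 251) (nat_lit 1) (nat_lit 0x5e0000bc00017e3e12fd8bc) b34234 (.tok (nat_lit 6) (nat_lit 0x5e0000bc00017ed372feb68) (.hit (nat_lit 253) (nat_lit 7) (nat_lit 0x5e0000bc00017e6e2afdebf) b34235 (.hit (nat_lit 256) (nat_lit 15) (nat_lit 0x5e0000bc00017e357afd7a9) b34238 (.tok (nat_lit 55) (nat_lit 0x5e0000bc00017ed372feb68) (.hit (nat_lit 254) (nat_lit 8) (nat_lit 0x5e0000bc00017e8cc2fe292) b34236 (.hit (nat_lit 257) (nat_lit 16) (nat_lit 0x5e0000bc00017ed372feb68) b34239 (.one (nat_lit 6) (nat_lit 255) (nat_lit 9) (nat_lit 0x5e0000bc00017ebf22fe8de) b34237 (.nil)))) (.nil)))) (.nil)))) (.tok (nat_lit 58) (nat_lit 0x5e0000bc00017fb04b005e5)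 (.hit (nat_lit 236) (nat_lit 0) (nat_lit 0x5e0000bc00017fb04afec14) b34226 (.one (nat_lit 3) (nat_lit 237) (nat_lit 1) (nat_lit 0x5e0000bc00017e3ac2fd852) b34227 (.tok (nat_lit 9) (nat_lit 0x5e0000bc00017fa75b005e5) (.hit (nat_lit 239) (nat_lit 20) (nat_lit 0x5e0000bc00017ea44afe583) b34228 (.hit (nat_lit 242) (nat_lit 28) (nat_lit 0x5e0000bc00017e6a32fde40) b34231 (.tok (nat_lit 67) (nat_lit 0x5e0000bc00017fa75b005e5) (.hit (nat_lit 240) (nat_lit 21) (nat_lit 0x5e0000bc00017efce2ff096) b34229 (.hit (nat_lit 243) (nat_lit 29) (nat_lit 0x5e0000bc00017f223aff541) b34232 (.one (nat_lit 9) (nat_lit 241) (nat_lit 22) (nat_lit 0x5e0000bc00017fa75b005e5) b34230 (.nil)))) (.nil)))) (.nil)))) (.nil))))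
noncomputable def r17_11 : Rw Blk := .tok (nat_lit 3) (nat_lit 0x5e0000bc00017f3fbafefa5) (.hit (nat_lit 15) (nat_lit 0) (nat_lit 0x5e0000bc00017f3fbafefa5) b34254 (.tok (nat_lit 9) (nat_lit 0x5e0000bc00017eaefafef7d) (.hit (nat_lit 16) (nat_lit 20) (nat_lit 0x5e0000bc00017e18a2fdcb2) b34255 (.hit (nat_lit 21) (nat_lit 28) (nat_lit 0x5e0000bc00017d5a92fc4f0) b34260 (.tok (nat_lit 14) (nat_lit 0x5e0000bc00017e741afe821) (.hit (nat_lit 17) (nat_lit 24) (nat_lit 0x5e0000bc00017e02e2fd9fa) b34256 (.hit (nat_lit 22) (nat_lit 30) (nat_lit 0x5e0000bc00017e5d9afe551) b34261 (.one (nat_lit 6) (nat_lit 18) (nat_lit 25) (nat_lit 0x5e0000bc00017e741afe821) b34257 (.nil)))) (.one (nat_lit 56) (nat_lit 23) (nat_lit 31) (nat_lit 0x5e0000bc00017e4feafe39b) b34262 (.tok (nat_lit 68) (nat_lit 0x5e0000bc00017eaefafef7d) (.hit (nat_lit 19) (nat_lit 26) (nat_lit 0x5e0000bc00017e5aaafe4f3) b34258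 (.hit (nat_lit 24) (nat_lit 32) (nat_lit 0x5e0000bc00017e6182fe5ce) b34263 (.one (nat_lit 9) (nat_lit 20) (nat_lit 27) (nat_lit 0x5e0000bc00017eaefafef7d) b34259 (.nil)))) (.nil)))))) (.nil))) (.tok (nat_lit 6) (nat_lit 0x5e0000bc000180f8d30348c) (.hit (nat_lit 0) (nat_lit 0) (nat_lit 0x5e0000bc00017fde5b0058f) b34240 (.tok (nat_lit 6) (nat_lit 0x5e0000bc000180291b01367) (.hit (nat_lit 1) (nat_lit 7) (nat_lit 0x5e0000bc00017f29fafe3fa) b34241 (.hit (nat_lit 4) (nat_lit 15) (nat_lit 0x5e0000bc00017ece92fdbeb) b34244 (.tok (nat_lit 14) (nat_lit 0x5e0000bc000180291b01367) (.hit (nat_lit 2) (nat_lit 11) (nat_lit 0x5e0000bc00017ff9a300b40) b34242 (.hit (nat_lit 5) (nat_lit 17) (nat_lit 0x5e0000bc00017f2492fe007) b34245 (.one (nat_lit 9) (nat_lit 3) (nat_lit 12) (nat_lit 0x5e0000bc000180291b01367) b34243 (.nil)))) (.nil)))) (.tok (nat_lit 52) (nat_lit 0x5e0000bc000180715b014d9) (.hit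 (nat_lit 7) (nat_lit 39) (nat_lit 0x5e0000bc0001802d030116b) b34246 (.hit (nat_lit 8) (nat_lit 40) (nat_lit 0x5e0000bc000180715b014d9) b34247 (.nil))) (.tok (nat_lit 55) (nat_lit 0x5e0000bc000180788b01f17) (.hit (nat_lit 9) (nat_lit 41) (nat_lit 0x5e0000bc000180483301dd8) b34248 (.tok (nat_lit 3) (nat_lit 0x5e0000bc000180788b01f17) (.hit (nat_lit 12) (nat_lit 47) (nat_lit 0x5e0000bc0001800bf301329) b34251 (.one (nat_lit 67) (nat_lit 13) (nat_lit 48) (nat_lit 0x5e0000bc000180788b01f17) b34252 (.nil))) (.tok (nat_lit 6) (nat_lit 0x5e0000bc00017fe89b00817) (.hit (nat_lit 10) (nat_lit 42) (nat_lit 0x5e0000bc00017f7e2b00817) b34249 (.hit (nat_lit 11) (nat_lit 45) (nat_lit 0x5e0000bc00017fe89b002b3) b34250 (.nil))) (.nil)))) (.one (nat_lit 58) (nat_lit 14) (nat_lit 49) (nat_lit 0x5e0000bc000180f8d30348c) b34253 (.nil)))))) (.nil))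
noncomputable def r17_12 : Rw Blk := .tok (nat_lit 9) (nat_lit 0x5e0000bc00017f5cbaff7ac) (.hit (nat_lit 0) (nat_lit 0) (nat_lit 0x5e0000bc00017ea26afe0f1) b34264 (.one (nat_lit 26) (nat_lit 32) (nat_lit 72) (nat_lit 0x5e0000bc00017e663afca67) b34265 (.one (nat_lit 29) (nat_lit 33) (nat_lit 73) (nat_lit 0x5e0000bc00017e904afd661) b34266 (.one (nat_lit 32) (nat_lit 34) (nat_lit 74) (nat_lit 0x5e0000bc00017ee49afdbaf) b34267 (.one (nat_lit 35) (nat_lit 35) (nat_lit 75) (nat_lit 0x5e0000bc00017e2882fc3dd) b34268 (.one (nat_lit 38) (nat_lit 36) (nat_lit 76) (nat_lit 0x5e0000bc00017e90fafd66c) b34269 (.tok (nat_lit 41) (nat_lit 0x5e0000bc00017e7092fd7d8) (.hit (nat_lit 37) (nat_lit 77) (nat_lit 0x5e0000bc00017e3e1afd0c5) b34270 (.hit (nat_lit 38) (nat_lit 78) (nat_lit 0x5e0000bc00017e7092fd7d8) b34271 (.nil))) (.tok (nat_lit 44) (nat_lit 0x5e0000bc00017f399afe670) (.hit (nat_lit 39)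 (nat_lit 79) (nat_lit 0x5e0000bc00017d06c2fccf1) b34272 (.hit (nat_lit 40) (nat_lit 80) (nat_lit 0x5e0000bc00017f399afe670) b34273 (.nil))) (.tok (nat_lit 47) (nat_lit 0x5e0000bc00017eebd2fe562) (.hit (nat_lit 41) (nat_lit 81) (nat_lit 0x5e0000bc00017eebd2fe562) b34274 (.hit (nat_lit 42) (nat_lit 82) (nat_lit 0x5e0000bc00017e8de2fd053) b34275 (.nil))) (.one (nat_lit 50) (nat_lit 43) (nat_lit 83) (nat_lit 0x5e0000bc00017e6452fd0b5) b34276 (.tok (nat_lit 53) (nat_lit 0x5e0000bc00017ec2d2fd823) (.hit (nat_lit 44) (nat_lit 84) (nat_lit 0x5e0000bc00017ec2d2fd823) b34277 (.hit (nat_lit 45) (nat_lit 85) (nat_lit 0x5e0000bc00017e1932fcfd6) b34278 (.nil))) (.tok (nat_lit 56) (nat_lit 0x5e0000bc00017e580afe5ec) (.hit (nat_lit 46) (nat_lit 86) (nat_lit 0x5e0000bc00017e580afe48e) b34279 (.one (nat_lit 3) (nat_lit 50) (nat_lit 90) (nat_lit 0x5e0000bc00017d3e22fd3dd) b34283 (.tok (nat_lit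 6) (nat_lit 0x5e0000bc00017dce9afe5ec) (.hit (nat_lit 48) (nat_lit 88) (nat_lit 0x5e0000bc00017dce9afe5ec) b34281 (.hit (nat_lit 49) (nat_lit 89) (nat_lit 0x5e0000bc00017d8c0afdd9a) b34282 (.nil))) (.one (nat_lit 9) (nat_lit 47) (nat_lit 87) (nat_lit 0x5e0000bc00017d5f3afd800) b34280 (.nil))))) (.one (nat_lit 59) (nat_lit 51) (nat_lit 91) (nat_lit 0x5e0000bc00017e998afd2f2) b34284 (.one (nat_lit 62) (nat_lit 52) (nat_lit 92) (nat_lit 0x5e0000bc00017edb6afd95a) b34285 (.tok (nat_lit 65) (nat_lit 0x5e0000bc00017f331aff0cc) (.hit (nat_lit 53) (nat_lit 93) (nat_lit 0x5e0000bc00017f331aff0cc) b34286 (.hit (nat_lit 54) (nat_lit 94) (nat_lit 0x5e0000bc00017ed2aafdc7c) b34287 (.nil))) (.tok (nat_lit 68) (nat_lit 0x5e0000bc00017f5cbaff7ac) (.hit (nat_lit 55) (nat_lit 95) (nat_lit 0x5e0000bc00017f42cafeb11) b34288 (.one (nat_lit 3) (nat_lit 59) (nat_lit 99) (nat_lit 0x5e0000bc00017ededafe275)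 b34292 (.one (nat_lit 6) (nat_lit 56) (nat_lit 96) (nat_lit 0x5e0000bc00017f5cbaff7ac) b34289 (.tok (nat_lit 9) (nat_lit 0x5e0000bc00017f4262ff2de) (.hit (nat_lit 57) (nat_lit 97) (nat_lit 0x5e0000bc00017f4262ff2de) b34290 (.hit (nat_lit 58) (nat_lit 98) (nat_lit 0x5e0000bc00017f132afea63) b34291 (.nil))) (.nil))))) (.one (nat_lit 71) (nat_lit 60) (nat_lit 100) (nat_lit 0x5e0000bc00017eadcafd2c8) b34293 (.nil)))))))))))))))))) (.tok (nat_lit 64) (nat_lit 0x5e0000bc000180000300ca6) (.hit (nat_lit 176) (nat_lit 0) (nat_lit 0x5e0000bc000180000300ca6) b34294 (.tok (nat_lit 6) (nat_lit 0x5e0000bc00017f475b000c1) (.hit (nat_lit 177) (nat_lit 7) (nat_lit 0x5e0000bc00017eaa9afe563) b34295 (.hit (nat_lit 178) (nat_lit 15) (nat_lit 0x5e0000bc00017f475b000c1) b34296 (.nil))) (.tok (nat_lit 9) (nat_lit 0x5e0000bc00017f60d2ffea0) (.hit (nat_lit 179) (nat_lit 20) (nat_lit 0x5e0000bc00017f60d2ffea0)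 b34297 (.hit (nat_lit 180) (nat_lit 28) (nat_lit 0x5e0000bc00017ed9caff020) b34298 (.nil))) (.nil)))) (.tok (nat_lit 67) (nat_lit 0x5e0000bc00017f277aff4ff) (.hit (nat_lit 201) (nat_lit 0) (nat_lit 0x5e0000bc00017f154afedfc) b34306 (.one (nat_lit 3) (nat_lit 202) (nat_lit 1) (nat_lit 0x5e0000bc00017e2a6afd55d) b34307 (.tok (nat_lit 9) (nat_lit 0x5e0000bc00017f277aff4ff) (.hit (nat_lit 204) (nat_lit 20) (nat_lit 0x5e0000bc00017e7e92fdfe2) b34308 (.hit (nat_lit 207) (nat_lit 28) (nat_lit 0x5e0000bc00017e311afd633) b34311 (.tok (nat_lit 67) (nat_lit 0x5e0000bc00017f277aff4ff) (.hit (nat_lit 205) (nat_lit 21) (nat_lit 0x5e0000bc00017ef5d2feeca) b34309 (.hit (nat_lit 208) (nat_lit 29) (nat_lit 0x5e0000bc00017ef502feeb0) b34312 (.one (nat_lit 9) (nat_lit 206) (nat_lit 22) (nat_lit 0x5e0000bc00017f277aff4ff) b34310 (.nil)))) (.nil)))) (.nil)))) (.tok (nat_lit 70) (nat_lit 0x5e0000bc00017f804300018)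 (.hit (nat_lit 187) (nat_lit 0) (nat_lit 0x5e0000bc00017f3bc2ff4a8) b34299 (.one (nat_lit 3) (nat_lit 188) (nat_lit 1) (nat_lit 0x5e0000bc00017e6a52fdd5a) b34300 (.tok (nat_lit 6) (nat_lit 0x5e0000bc00017f804300018) (.hit (nat_lit 190) (nat_lit 7) (nat_lit 0x5e0000bc00017e79eafdf4d) b34301 (.hit (nat_lit 193) (nat_lit 15) (nat_lit 0x5e0000bc00017e7b52fdf7a) b34304 (.tok (nat_lit 55) (nat_lit 0x5e0000bc00017f804300018) (.hit (nat_lit 191) (nat_lit 8) (nat_lit 0x5e0000bc00017ee1a2fec44) b34302 (.hit (nat_lit 194) (nat_lit 16) (nat_lit 0x5e0000bc00017f4d2aff9b5) b34305 (.one (nat_lit 6) (nat_lit 192) (nat_lit 9) (nat_lit 0x5e0000bc00017f804300018) b34303 (.nil)))) (.nil)))) (.nil)))) (.nil))))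
noncomputable def r17_13 : Rw Blk := .tok (nat_lit 3) (nat_lit 0x5e0000bc00018020f3008c4) (.hit (nat_lit 15) (nat_lit 0) (nat_lit 0x5e0000bc00018020f3008c4) b34327 (.tok (nat_lit 6) (nat_lit 0x5e0000bc00017f9f52ff3a7) (.hit (nat_lit 16) (nat_lit 7) (nat_lit 0x5e0000bc00017e0982fc852) b34328 (.hit (nat_lit 21) (nat_lit 15) (nat_lit 0x5e0000bc00017e8472fdbb5) b34333 (.tok (nat_lit 14) (nat_lit 0x5e0000bc00017f2222ff3a7) (.hit (nat_lit 17) (nat_lit 11) (nat_lit 0x5e0000bc00017e9422fd9a6) b34329 (.hit (nat_lit 22) (nat_lit 17) (nat_lit 0x5e0000bc00017ee06aff3a7) b34334 (.one (nat_lit 9) (nat_lit 18) (nat_lit 12) (nat_lit 0x5e0000bc00017f2222feb66) b34330 (.nil)))) (.tok (nat_lit 56) (nat_lit 0x5e0000bc00017eeecafe527) (.hit (nat_lit 19) (nat_lit 13) (nat_lit 0x5e0000bc00017e91bafd959) b34331 (.hit (nat_lit 24) (nat_lit 19) (nat_lit 0x5e0000bc00017ec44afdac4) b34336 (.one (nat_lit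 6) (nat_lit 20) (nat_lit 14) (nat_lit 0x5e0000bc00017eeecafe527) b34332 (.nil)))) (.one (nat_lit 68) (nat_lit 23) (nat_lit 18) (nat_lit 0x5e0000bc00017f9f52ff062) b34335 (.nil)))))) (.nil))) (.tok (nat_lit 9) (nat_lit 0x5e0000bc000181bfdb05577) (.hit (nat_lit 0) (nat_lit 0) (nat_lit 0x5e0000bc0001802ecb00ad7) b34313 (.tok (nat_lit 9) (nat_lit 0x5e0000bc0001807ae302dae) (.hit (nat_lit 1) (nat_lit 20) (nat_lit 0x5e0000bc00017eabfafdd18) b34314 (.hit (nat_lit 4) (nat_lit 28) (nat_lit 0x5e0000bc00017ef692fdded) b34317 (.tok (nat_lit 14) (nat_lit 0x5e0000bc0001807ae302dae) (.hit (nat_lit 2) (nat_lit 24) (nat_lit 0x5e0000bc00017f5ffb00072) b34315 (.hit (nat_lit 5) (nat_lit 30) (nat_lit 0x5e0000bc00017fc1eafffe5) b34318 (.one (nat_lit 6) (nat_lit 3) (nat_lit 25) (nat_lit 0x5e0000bc0001807ae302dae) b34316 (.nil)))) (.nil)))) (.tok (nat_lit 64) (nat_lit 0x5e0000bc000181b67b05069) (.hit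 (nat_lit 7) (nat_lit 50) (nat_lit 0x5e0000bc000181b67b05069) b34319 (.hit (nat_lit 8) (nat_lit 51) (nat_lit 0x5e0000bc00018080cb00e5d) b34320 (.nil))) (.tok (nat_lit 67) (nat_lit 0x5e0000bc000181bfdb05577) (.hit (nat_lit 9) (nat_lit 52) (nat_lit 0x5e0000bc00018145330332a) b34321 (.tok (nat_lit 3) (nat_lit 0x5e0000bc0001801ea30142e) (.hit (nat_lit 12) (nat_lit 58) (nat_lit 0x5e0000bc00017fb76301343) b34324 (.one (nat_lit 55) (nat_lit 13) (nat_lit 59) (nat_lit 0x5e0000bc0001801ea30142e) b34325 (.nil))) (.tok (nat_lit 9) (nat_lit 0x5e0000bc000181bfdb05577) (.hit (nat_lit 10) (nat_lit 53) (nat_lit 0x5e0000bc000181bfdb05577) b34322 (.hit (nat_lit 11) (nat_lit 56) (nat_lit 0x5e0000bc00017fdafafff00) b34323 (.nil))) (.nil)))) (.one (nat_lit 70) (nat_lit 14) (nat_lit 60) (nat_lit 0x5e0000bc000181a1a30454c) b34326 (.nil)))))) (.nil))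
noncomputable def r17_14 : Rw Blk := .tok (nat_lit 9) (nat_lit 0x5e0000bc000182305304a16) (.hit (nat_lit 0) (nat_lit 0) (nat_lit 0x5e0000bc00017fbccb00110) b34337 (.tok (nat_lit 14) (nat_lit 0x5e0000bc000181850b03ece) (.hit (nat_lit 1) (nat_lit 61) (nat_lit 0x5e0000bc0001803bab0149f) b34338 (.one (nat_lit 3) (nat_lit 2) (nat_lit 62) (nat_lit 0x5e0000bc0001807e9b01528) b34339 (.tok (nat_lit 6) (nat_lit 0x5e0000bc000181850b03ece) (.hit (nat_lit 5) (nat_lit 65) (nat_lit 0x5e0000bc000181850b03ece) b34342 (.hit (nat_lit 6) (nat_lit 66) (nat_lit 0x5e0000bc00017fb10300d50) b34343 (.nil))) (.tok (nat_lit 9) (nat_lit 0x5e0000bc00017f7a9b001e6) (.hit (nat_lit 3) (nat_lit 63) (nat_lit 0x5e0000bc00017f7a9afef8c) b34340 (.hit (nat_lit 4) (nat_lit 64) (nat_lit 0x5e0000bc00017f315b001e6) b34341 (.nil))) (.nil))))) (.one (nat_lit 17) (nat_lit 7) (nat_lit 67) (nat_lit 0x5e0000bc00017f9a7afedc7)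 b34344 (.tok (nat_lit 20) (nat_lit 0x5e0000bc00017f61baff394) (.hit (nat_lit 8) (nat_lit 68) (nat_lit 0x5e0000bc00017f28b2fe54f) b34345 (.hit (nat_lit 9) (nat_lit 69) (nat_lit 0x5e0000bc00017f61baff394) b34346 (.nil))) (.tok (nat_lit 23) (nat_lit 0x5e0000bc000182305304a16) (.hit (nat_lit 10) (nat_lit 70) (nat_lit 0x5e0000bc000182305304a16) b34347 (.hit (nat_lit 11) (nat_lit 71) (nat_lit 0x5e0000bc00017f70aafe8a0) b34348 (.nil))) (.one (nat_lit 26) (nat_lit 12) (nat_lit 72) (nat_lit 0x5e0000bc00017fa81afed37) b34349 (.one (nat_lit 29) (nat_lit 13) (nat_lit 73) (nat_lit 0x5e0000bc00017fd87aff6ac) b34350 (.one (nat_lit 32) (nat_lit 14) (nat_lit 74) (nat_lit 0x5e0000bc00017fb422ff16d) b34351 (.one (nat_lit 35) (nat_lit 15) (nat_lit 75) (nat_lit 0x5e0000bc00017f0742fe159) b34352 (.one (nat_lit 38) (nat_lit 16) (nat_lit 76) (nat_lit 0x5e0000bc00017f2ad2fe56b) b34353 (.tok (nat_lit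 41) (nat_lit 0x5e0000bc00017f0a02ff23b) (.hit (nat_lit 17) (nat_lit 77) (nat_lit 0x5e0000bc00017ec582ff23b) b34354 (.hit (nat_lit 18) (nat_lit 78) (nat_lit 0x5e0000bc00017f0a02fed37) b34355 (.nil))) (.tok (nat_lit 44) (nat_lit 0x5e0000bc00017f5652fdc7e) (.hit (nat_lit 19) (nat_lit 79) (nat_lit 0x5e0000bc00017eab9afd5ac) b34356 (.hit (nat_lit 20) (nat_lit 80) (nat_lit 0x5e0000bc00017f5652fdc7e) b34357 (.nil))) (.tok (nat_lit 47) (nat_lit 0x5e0000bc00017f6032ff430) (.hit (nat_lit 21) (nat_lit 81) (nat_lit 0x5e0000bc00017f6032ff430) b34358 (.hit (nat_lit 22) (nat_lit 82) (nat_lit 0x5e0000bc00017eb6fafdfdc) b34359 (.nil))) (.nil)))))))))))))) (.tok (nat_lit 64) (nat_lit 0x5e0000bc00018198eb03a70) (.hit (nat_lit 45) (nat_lit 0) (nat_lit 0x5e0000bc00018198eb03a70) b34370 (.tok (nat_lit 6) (nat_lit 0x5e0000bc00018004f300c91) (.hit (nat_lit 46) (nat_lit 7) (nat_lit 0x5e0000bc00017f852affb90)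 b34371 (.hit (nat_lit 47) (nat_lit 15) (nat_lit 0x5e0000bc00018004f300c91) b34372 (.nil))) (.tok (nat_lit 9) (nat_lit 0x5e0000bc0001814863038e5) (.hit (nat_lit 48) (nat_lit 20) (nat_lit 0x5e0000bc0001814863038e5) b34373 (.hit (nat_lit 49) (nat_lit 28) (nat_lit 0x5e0000bc000180f97303839) b34374 (.nil))) (.nil)))) (.tok (nat_lit 67) (nat_lit 0x5e0000bc000180822b01b30) (.hit (nat_lit 40) (nat_lit 0) (nat_lit 0x5e0000bc000180601b00db9) b34365 (.tok (nat_lit 3) (nat_lit 0x5e0000bc0001805d230168f) (.hit (nat_lit 41) (nat_lit 1) (nat_lit 0x5e0000bc00017fe773007d9) b34366 (.one (nat_lit 55) (nat_lit 42) (nat_lit 3) (nat_lit 0x5e0000bc0001805d230168f) b34367 (.nil))) (.tok (nat_lit 9) (nat_lit 0x5e0000bc000180822b01b30) (.hit (nat_lit 43) (nat_lit 20) (nat_lit 0x5e0000bc000180822b01b30) b34368 (.hit (nat_lit 44) (nat_lit 28) (nat_lit 0x5e0000bc00017f9b6affe58) b34369 (.nil))) (.nil))))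 (.tok (nat_lit 70) (nat_lit 0x5e0000bc0001812ad303045) (.hit (nat_lit 32) (nat_lit 0) (nat_lit 0x5e0000bc000180a2630256f) b34360 (.tok (nat_lit 3) (nat_lit 0x5e0000bc0001812ad303045) (.hit (nat_lit 33) (nat_lit 1) (nat_lit 0x5e0000bc000180912301d0f) b34361 (.one (nat_lit 67) (nat_lit 34) (nat_lit 2) (nat_lit 0x5e0000bc0001812ad303045) b34362 (.nil))) (.tok (nat_lit 6) (nat_lit 0x5e0000bc000180b7e3021e7) (.hit (nat_lit 35) (nat_lit 7) (nat_lit 0x5e0000bc000180b7e3021e7) b34363 (.hit (nat_lit 38) (nat_lit 15) (nat_lit 0x5e0000bc000180757301999) b34364 (.nil))) (.nil)))) (.nil))))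
noncomputable def r17_15 : Rw Blk := .tok (nat_lit 3) (nat_lit 0x5e0000bc000181d403039d1) (.hit (nat_lit 0) (nat_lit 0) (nat_lit 0x5e0000bc000181d403034e0) b34375 (.tok (nat_lit 6) (nat_lit 0x5e0000bc0001810d2302596) (.hit (nat_lit 1) (nat_lit 7) (nat_lit 0x5e0000bc00017fa642ff8ba) b34376 (.hit (nat_lit 6) (nat_lit 15) (nat_lit 0x5e0000bc00017fd262ffe3e) b34379 (.tok (nat_lit 14) (nat_lit 0x5e0000bc0001810d2302596) (.hit (nat_lit 2) (nat_lit 11) (nat_lit 0x5e0000bc00018083eb0146f) b34377 (.hit (nat_lit 7) (nat_lit 17) (nat_lit 0x5e0000bc0001810d2302596) b34380 (.one (nat_lit 9) (nat_lit 3) (nat_lit 12) (nat_lit 0x5e0000bc00018070c30120a) b34378 (.nil)))) (.nil)))) (.tok (nat_lit 52) (nat_lit 0x5e0000bc0001814e8b02dc3) (.hit (nat_lit 9) (nat_lit 39) (nat_lit 0x5e0000bc00018124430287a) b34381 (.hit (nat_lit 10) (nat_lit 40) (nat_lit 0x5e0000bc0001814e8b02dc3) b34382 (.nil))) (.tok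 (nat_lit 55) (nat_lit 0x5e0000bc000181c393039d1) (.hit (nat_lit 11) (nat_lit 41) (nat_lit 0x5e0000bc000181c393039d1) b34383 (.tok (nat_lit 3) (nat_lit 0x5e0000bc000180e19302024) (.hit (nat_lit 17) (nat_lit 47) (nat_lit 0x5e0000bc000180e19302024) b34386 (.one (nat_lit 67) (nat_lit 18) (nat_lit 48) (nat_lit 0x5e0000bc000180da9301f44) b34387 (.nil))) (.tok (nat_lit 6) (nat_lit 0x5e0000bc000180b8d301b0c) (.hit (nat_lit 12) (nat_lit 42) (nat_lit 0x5e0000bc000180b8d301b0c) b34384 (.hit (nat_lit 15) (nat_lit 45) (nat_lit 0x5e0000bc000180b0fb01a11) b34385 (.nil))) (.nil)))) (.one (nat_lit 58) (nat_lit 19) (nat_lit 49) (nat_lit 0x5e0000bc00018104d30248c) b34388 (.nil)))))) (.tok (nat_lit 9) (nat_lit 0x5e0000bc000182f58b055e0) (.hit (nat_lit 20) (nat_lit 0) (nat_lit 0x5e0000bc000182621304ade) b34389 (.tok (nat_lit 9) (nat_lit 0x5e0000bc000182f58b055e0) (.hit (nat_lit 21) (nat_lit 20) (nat_lit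 0x5e0000bc000181a2d302f88) b34390 (.hit (nat_lit 24) (nat_lit 28) (nat_lit 0x5e0000bc000181640b03470) b34393 (.tok (nat_lit 14) (nat_lit 0x5e0000bc000182f58b055e0) (.hit (nat_lit 22) (nat_lit 24) (nat_lit 0x5e0000bc000182565b046c7) b34391 (.hit (nat_lit 25) (nat_lit 30) (nat_lit 0x5e0000bc000181c13b03863) b34394 (.one (nat_lit 6) (nat_lit 23) (nat_lit 25) (nat_lit 0x5e0000bc000182f58b055e0) b34392 (.nil)))) (.one (nat_lit 56) (nat_lit 26) (nat_lit 31) (nat_lit 0x5e0000bc00018231c304f03) b34395 (.nil))))) (.nil))) (.nil))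
noncomputable def r17_16 : Rw Blk := .tok (nat_lit 9) (nat_lit 0x5e0000bc00017f5e22fe943) (.hit (nat_lit 0) (nat_lit 0) (nat_lit 0x5e0000bc00017e5a52fd2ac) b34396 (.one (nat_lit 26) (nat_lit 32) (nat_lit 72) (nat_lit 0x5e0000bc00017e334afbea8) b34397 (.one (nat_lit 29) (nat_lit 33) (nat_lit 73) (nat_lit 0x5e0000bc00017e25f2fbef7) b34398 (.one (nat_lit 32) (nat_lit 34) (nat_lit 74) (nat_lit 0x5e0000bc00017e61dafc46c) b34399 (.one (nat_lit 35) (nat_lit 35) (nat_lit 75) (nat_lit 0x5e0000bc00017de5b2fc251) b34400 (.one (nat_lit 38) (nat_lit 36) (nat_lit 76) (nat_lit 0x5e0000bc00017e4da2fd0a6) b34401 (.tok (nat_lit 41) (nat_lit 0x5e0000bc00017e3ab2fc7b1) (.hit (nat_lit 37) (nat_lit 77) (nat_lit 0x5e0000bc00017e3ab2fc19b) b34402 (.hit (nat_lit 38) (nat_lit 78) (nat_lit 0x5e0000bc00017e2222fc7b1) b34403 (.nil))) (.tok (nat_lit 44) (nat_lit 0x5e0000bc00017e7802fc736) (.hit (nat_lit 39)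 (nat_lit 79) (nat_lit 0x5e0000bc00017cde42fb84d) b34404 (.hit (nat_lit 40) (nat_lit 80) (nat_lit 0x5e0000bc00017e7802fc736) b34405 (.nil))) (.tok (nat_lit 47) (nat_lit 0x5e0000bc00017e86e2fc9fd) (.hit (nat_lit 41) (nat_lit 81) (nat_lit 0x5e0000bc00017e86e2fc9fd) b34406 (.hit (nat_lit 42) (nat_lit 82) (nat_lit 0x5e0000bc00017e42d2fc490) b34407 (.nil))) (.one (nat_lit 50) (nat_lit 43) (nat_lit 83) (nat_lit 0x5e0000bc00017e422afca14) b34408 (.tok (nat_lit 53) (nat_lit 0x5e0000bc00017e28f2fd0c7) (.hit (nat_lit 44) (nat_lit 84) (nat_lit 0x5e0000bc00017e024afd0c7) b34409 (.hit (nat_lit 45) (nat_lit 85) (nat_lit 0x5e0000bc00017e28f2fc27b) b34410 (.nil))) (.tok (nat_lit 56) (nat_lit 0x5e0000bc00017e6132fdc26) (.hit (nat_lit 46) (nat_lit 86) (nat_lit 0x5e0000bc00017e6132fdc26) b34411 (.one (nat_lit 3) (nat_lit 50) (nat_lit 90) (nat_lit 0x5e0000bc00017de1fafd8c4) b34415 (.tok (nat_lit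 6) (nat_lit 0x5e0000bc00017dfb6afdbf2) (.hit (nat_lit 48) (nat_lit 88) (nat_lit 0x5e0000bc00017dfb6afdbf2) b34413 (.hit (nat_lit 49) (nat_lit 89) (nat_lit 0x5e0000bc00017de8dafd9a0) b34414 (.nil))) (.one (nat_lit 9) (nat_lit 47) (nat_lit 87) (nat_lit 0x5e0000bc00017dd6f2fd763) b34412 (.nil))))) (.one (nat_lit 59) (nat_lit 51) (nat_lit 91) (nat_lit 0x5e0000bc00017e4272fc0bc) b34416 (.one (nat_lit 62) (nat_lit 52) (nat_lit 92) (nat_lit 0x5e0000bc00017e9e3afcbf2) b34417 (.tok (nat_lit 65) (nat_lit 0x5e0000bc00017ead82fdb60) (.hit (nat_lit 53) (nat_lit 93) (nat_lit 0x5e0000bc00017ead82fdb60) b34418 (.hit (nat_lit 54) (nat_lit 94) (nat_lit 0x5e0000bc00017e89e2fc9dc) b34419 (.nil))) (.tok (nat_lit 68) (nat_lit 0x5e0000bc00017f5e22fe943) (.hit (nat_lit 55) (nat_lit 95) (nat_lit 0x5e0000bc00017f1b72fe299) b34420 (.one (nat_lit 3) (nat_lit 59) (nat_lit 99) (nat_lit 0x5e0000bc00017ec70afd3a9)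 b34424 (.one (nat_lit 6) (nat_lit 56) (nat_lit 96) (nat_lit 0x5e0000bc00017f430afe943) b34421 (.tok (nat_lit 9) (nat_lit 0x5e0000bc00017f5e22fe48f) (.hit (nat_lit 57) (nat_lit 97) (nat_lit 0x5e0000bc00017f5e22fe48f) b34422 (.hit (nat_lit 58) (nat_lit 98) (nat_lit 0x5e0000bc00017ebe8afd364) b34423 (.nil))) (.nil))))) (.one (nat_lit 71) (nat_lit 60) (nat_lit 100) (nat_lit 0x5e0000bc00017e6152fc455) b34425 (.nil)))))))))))))))))) (.tok (nat_lit 64) (nat_lit 0x5e0000bc00017f56aafff7f) (.hit (nat_lit 176) (nat_lit 0) (nat_lit 0x5e0000bc00017f475affb27) b34426 (.tok (nat_lit 6) (nat_lit 0x5e0000bc00017f177aff463) (.hit (nat_lit 177) (nat_lit 7) (nat_lit 0x5e0000bc00017ea582fe02e) b34427 (.hit (nat_lit 178) (nat_lit 15) (nat_lit 0x5e0000bc00017f177aff463) b34428 (.nil))) (.tok (nat_lit 9) (nat_lit 0x5e0000bc00017f56aafff7f) (.hit (nat_lit 179) (nat_lit 20) (nat_lit 0x5e0000bc00017f56aafff7f)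 b34429 (.hit (nat_lit 180) (nat_lit 28) (nat_lit 0x5e0000bc00017ed5a2feadd) b34430 (.nil))) (.nil)))) (.tok (nat_lit 67) (nat_lit 0x5e0000bc00017f708aff0b9) (.hit (nat_lit 201) (nat_lit 0) (nat_lit 0x5e0000bc00017f708aff0b9) b34438 (.one (nat_lit 3) (nat_lit 202) (nat_lit 1) (nat_lit 0x5e0000bc00017e6e12fd940) b34439 (.tok (nat_lit 9) (nat_lit 0x5e0000bc00017f21bafefb5) (.hit (nat_lit 204) (nat_lit 20) (nat_lit 0x5e0000bc00017e550afd61f) b34440 (.hit (nat_lit 207) (nat_lit 28) (nat_lit 0x5e0000bc00017e6eaafd953) b34443 (.tok (nat_lit 67) (nat_lit 0x5e0000bc00017f21bafefb5) (.hit (nat_lit 205) (nat_lit 21) (nat_lit 0x5e0000bc00017ed102fe59e) b34441 (.hit (nat_lit 208) (nat_lit 29) (nat_lit 0x5e0000bc00017ee65afe849) b34444 (.one (nat_lit 9) (nat_lit 206) (nat_lit 22) (nat_lit 0x5e0000bc00017f21bafefb5) b34442 (.nil)))) (.nil)))) (.nil)))) (.tok (nat_lit 70) (nat_lit 0x5e0000bc000180000300b7e)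 (.hit (nat_lit 187) (nat_lit 0) (nat_lit 0x5e0000bc00017f084afe235) b34431 (.one (nat_lit 3) (nat_lit 188) (nat_lit 1) (nat_lit 0x5e0000bc00017e7772fda6c) b34432 (.tok (nat_lit 6) (nat_lit 0x5e0000bc000180000300b7e) (.hit (nat_lit 190) (nat_lit 7) (nat_lit 0x5e0000bc00017eb25afe1c9) b34433 (.hit (nat_lit 193) (nat_lit 15) (nat_lit 0x5e0000bc00017e6812fd880) b34436 (.tok (nat_lit 55) (nat_lit 0x5e0000bc000180000300b7e) (.hit (nat_lit 191) (nat_lit 8) (nat_lit 0x5e0000bc00017f1782fee6e) b34434 (.hit (nat_lit 194) (nat_lit 16) (nat_lit 0x5e0000bc00017f360aff23f) b34437 (.one (nat_lit 6) (nat_lit 192) (nat_lit 9) (nat_lit 0x5e0000bc000180000300b7e) b34435 (.nil)))) (.nil)))) (.nil)))) (.nil))))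
noncomputable def r17_17 : Rw Blk := .tok (nat_lit 3) (nat_lit 0x5e0000bc00017f2672feab7) (.hit (nat_lit 15) (nat_lit 0) (nat_lit 0x5e0000bc00017f2672feab7) b34459 (.tok (nat_lit 6) (nat_lit 0x5e0000bc00017ecb82fe047) (.hit (nat_lit 16) (nat_lit 7) (nat_lit 0x5e0000bc00017e1cdafca72) b34460 (.hit (nat_lit 21) (nat_lit 15) (nat_lit 0x5e0000bc00017d1712fa9b9) b34465 (.tok (nat_lit 14) (nat_lit 0x5e0000bc00017e98b2fd9ed) (.hit (nat_lit 17) (nat_lit 11) (nat_lit 0x5e0000bc00017e5ab2fd22d) b34461 (.hit (nat_lit 22) (nat_lit 17) (nat_lit 0x5e0000bc00017e538afd148) b34466 (.one (nat_lit 9) (nat_lit 18) (nat_lit 12) (nat_lit 0x5e0000bc00017e98b2fd9ed) b34462 (.nil)))) (.tok (nat_lit 56) (nat_lit 0x5e0000bc00017ecb82fe047) (.hit (nat_lit 19) (nat_lit 13) (nat_lit 0x5e0000bc00017e7a12fd619) b34463 (.hit (nat_lit 24) (nat_lit 19) (nat_lit 0x5e0000bc00017e3adafce32) b34468 (.one (nat_lit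 6) (nat_lit 20) (nat_lit 14) (nat_lit 0x5e0000bc00017ecb82fe047) b34464 (.nil)))) (.one (nat_lit 68) (nat_lit 23) (nat_lit 18) (nat_lit 0x5e0000bc00017e5ed2fd2b1) b34467 (.nil)))))) (.nil))) (.tok (nat_lit 9) (nat_lit 0x5e0000bc000181607b03212) (.hit (nat_lit 0) (nat_lit 0) (nat_lit 0x5e0000bc00017f8182ff0be) b34445 (.tok (nat_lit 9) (nat_lit 0x5e0000bc0001802ff301c54) (.hit (nat_lit 1) (nat_lit 20) (nat_lit 0x5e0000bc00017f2dcafe635) b34446 (.hit (nat_lit 4) (nat_lit 28) (nat_lit 0x5e0000bc00017e6ec2fcbd3) b34449 (.tok (nat_lit 14) (nat_lit 0x5e0000bc0001802ff301c54) (.hit (nat_lit 2) (nat_lit 24) (nat_lit 0x5e0000bc0001802ff301c54) b34447 (.hit (nat_lit 5) (nat_lit 30) (nat_lit 0x5e0000bc00017f2a82fe3d4) b34450 (.one (nat_lit 6) (nat_lit 3) (nat_lit 25) (nat_lit 0x5e0000bc00017fd9ab0144f) b34448 (.nil)))) (.nil)))) (.tok (nat_lit 64) (nat_lit 0x5e0000bc0001801bf3002ee) (.hit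 (nat_lit 7) (nat_lit 50) (nat_lit 0x5e0000bc0001801bf3002ee) b34451 (.hit (nat_lit 8) (nat_lit 51) (nat_lit 0x5e0000bc00017f702afef19) b34452 (.nil))) (.tok (nat_lit 67) (nat_lit 0x5e0000bc000181607b03212) (.hit (nat_lit 9) (nat_lit 52) (nat_lit 0x5e0000bc000181607b03212) b34453 (.tok (nat_lit 3) (nat_lit 0x5e0000bc000180ae0301d62) (.hit (nat_lit 12) (nat_lit 58) (nat_lit 0x5e0000bc00017fe49b00513) b34456 (.one (nat_lit 55) (nat_lit 13) (nat_lit 59) (nat_lit 0x5e0000bc000180ae0301d62) b34457 (.nil))) (.tok (nat_lit 9) (nat_lit 0x5e0000bc000180414300668) (.hit (nat_lit 10) (nat_lit 53) (nat_lit 0x5e0000bc000180414300668) b34454 (.hit (nat_lit 11) (nat_lit 56) (nat_lit 0x5e0000bc00017fcd7afface) b34455 (.nil))) (.nil)))) (.one (nat_lit 70) (nat_lit 14) (nat_lit 60) (nat_lit 0x5e0000bc00017f2532ff69c) b34458 (.nil)))))) (.nil))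
noncomputable def r17_18 : Rw Blk := .tok (nat_lit 6) (nat_lit 0xc0000180000300000600000bf5e557f35f300000) (.hit (nat_lit 81) (nat_lit 0) (nat_lit 0xbf92e17f5752fe61a5fc226bf5e557ece72fe7fd) b34469 (.tok (nat_lit 3) (nat_lit 0xbfac2d7f4e8aff6545fbf30bf27a97e95f2fe2d3) (.hit (nat_lit 82) (nat_lit 1) (nat_lit 0xbf2ecd7e22c2fda725f7df6bea4a97d92bafcbed) b34470 (.one (nat_lit 56) (nat_lit 86) (nat_lit 6) (nat_lit 0xbf7a217efa72fe1465fa9f4beee1d7e4a62fdf3e) b34472 (.one (nat_lit 68) (nat_lit 85) (nat_lit 5) (nat_lit 0xbfac2d7f4e8aff6545fbf30bf27a97e95f2fe2d3) b34471 (.nil)))) (.tok (nat_lit 40) (nat_lit 0xbf9c857f410afee565fc1dcbef7ad7e7e42fdf94) (.hit (nat_lit 100) (nat_lit 33) (nat_lit 0xbf9c857f410afee565fb320bef7ad7e7e42fdf94) b34473 (.hit (nat_lit 101) (nat_lit 34) (nat_lit 0xbf89dd7edc9afe4345fc1dcbedec57e4e1afdec0) b34474 (.nil))) (.tok (nat_lit 43) (nat_lit 0xbfb31d800002ff00c5fcbf4bf42297ecaf2fec87)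 (.hit (nat_lit 102) (nat_lit 35) (nat_lit 0xbfb31d800002ff00c5fcbf4bf42297ecaf2fec87) b34475 (.hit (nat_lit 103) (nat_lit 36) (nat_lit 0xbf9c897f51dafef0c5fc1e8bf1bd57e7e4afdd9a) b34476 (.nil))) (.tok (nat_lit 46) (nat_lit 0xc000017fd53300000600000bf59b97f35f300000) (.hit (nat_lit 104) (nat_lit 37) (nat_lit 0xbf88e97ef252ffb5f5fcb32bf59b97efa12fe679) b34477 (.hit (nat_lit 105) (nat_lit 38) (nat_lit 0xc000017fd53300000600000bf32057f35f300000) b34478 (.nil))) (.nil)))))) (.tok (nat_lit 9) (nat_lit 0xc00001800003000005fd240c00001800002fed88) (.hit (nat_lit 157) (nat_lit 0) (nat_lit 0xbf92e17f5752fe61a5fd240bf81917f444afed88) b34479 (.tok (nat_lit 3) (nat_lit 0xbfac2d7f4e8aff6545fb22abf9d597f03fafd9f5) (.hit (nat_lit 158) (nat_lit 1) (nat_lit 0xbf2ecd7e22c2fda725f70aabf2ae97df772fb935) b34480 (.one (nat_lit 56) (nat_lit 162) (nat_lit 6) (nat_lit 0xbfac2d7f4e8aff6545fb22abf9d597f03fafd9f5)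 b34482 (.one (nat_lit 68) (nat_lit 161) (nat_lit 5) (nat_lit 0xbf7a217efa72fe1465f9564bf76897ea7aafcb92) b34481 (.nil)))) (.tok (nat_lit 40) (nat_lit 0xbf9c857f410afee565fa0eabf9cfd7f14eafcdf6) (.hit (nat_lit 176) (nat_lit 33) (nat_lit 0xbf9c857f410afee565fa0eabf95c97ed15afcdf6) b34483 (.hit (nat_lit 177) (nat_lit 34) (nat_lit 0xbf89dd7edc9afe4345f94c6bf9cfd7f14eafc7bc) b34484 (.nil))) (.tok (nat_lit 43) (nat_lit 0xc000017fd533000005fce84c00001800002fe679) (.hit (nat_lit 178) (nat_lit 35) (nat_lit 0xbf88e97ef252ffb5f5fcb32bf59b97efa12fe679) b34477 (.hit (nat_lit 179) (nat_lit 36) (nat_lit 0xc000017fd533000005fce84c00001800002fdc8c) b34485 (.nil))) (.tok (nat_lit 46) (nat_lit 0xbfb31d800002ff00c5fbf6abfd0cd7f700afe095) (.hit (nat_lit 180) (nat_lit 37) (nat_lit 0xbfb31d800002ff00c5fbf6abfd0cd7f700afe095) b34486 (.hit (nat_lit 181) (nat_lit 38) (nat_lit 0xbf9c897f51dafef0c5fac40bf9fb57f4452fd700)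 b34487 (.nil))) (.nil)))))) (.nil))
noncomputable def r17_19 : Rw Blk := .tok (nat_lit 3) (nat_lit 0xbc0001780002fe953) (.hit (nat_lit 61) (nat_lit 0) (nat_lit 0xbc0001780002fd77b) b34488 (.one (nat_lit 26) (nat_lit 93) (nat_lit 72) (nat_lit 0xbc0001780002fabca) b34489 (.one (nat_lit 29) (nat_lit 94) (nat_lit 73) (nat_lit 0xbc0001780002fae55) b34490 (.one (nat_lit 32) (nat_lit 95) (nat_lit 74) (nat_lit 0xbc0001780002fb784) b34491 (.one (nat_lit 35) (nat_lit 96) (nat_lit 75) (nat_lit 0xbc0001780002fb276) b34492 (.one (nat_lit 38) (nat_lit 97) (nat_lit 76) (nat_lit 0xbc0001780002fbd5c) b34493 (.tok (nat_lit 41) (nat_lit 0xbc0001780002fbb97) (.hit (nat_lit 98) (nat_lit 77) (nat_lit 0xbc0001780002fa51b) b34494 (.hit (nat_lit 99) (nat_lit 78) (nat_lit 0xbc0001780002fbb97) b34495 (.nil))) (.tok (nat_lit 44) (nat_lit 0xbc0001780002fb5c4) (.hit (nat_lit 100) (nat_lit 79) (nat_lit 0xbc0001780002fa92f)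 b34496 (.hit (nat_lit 101) (nat_lit 80) (nat_lit 0xbc0001780002fb5c4) b34497 (.nil))) (.tok (nat_lit 47) (nat_lit 0xbc0001780002fb6b1) (.hit (nat_lit 102) (nat_lit 81) (nat_lit 0xbc0001780002fb5b7) b34498 (.hit (nat_lit 103) (nat_lit 82) (nat_lit 0xbc0001780002fb6b1) b34499 (.nil))) (.one (nat_lit 50) (nat_lit 104) (nat_lit 83) (nat_lit 0xbc0001780002fbdde) b34500 (.tok (nat_lit 53) (nat_lit 0xbc0001780002fc129) (.hit (nat_lit 105) (nat_lit 84) (nat_lit 0xbc0001780002fc129) b34501 (.hit (nat_lit 106) (nat_lit 85) (nat_lit 0xbc0001780002fba51) b34502 (.nil))) (.tok (nat_lit 56) (nat_lit 0xbc0001780002fdaec) (.hit (nat_lit 107) (nat_lit 86) (nat_lit 0xbc0001780002fdaec) b34503 (.one (nat_lit 3) (nat_lit 111) (nat_lit 90) (nat_lit 0xbc0001780002fc8f8) b34507 (.tok (nat_lit 6) (nat_lit 0xbc0001780002fdae3) (.hit (nat_lit 109) (nat_lit 88) (nat_lit 0xbc0001780002fdae3) b34505 (.hit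 (nat_lit 110) (nat_lit 89) (nat_lit 0xbc0001780002fc92c) b34506 (.nil))) (.one (nat_lit 9) (nat_lit 108) (nat_lit 87) (nat_lit 0xbc0001780002fcbff) b34504 (.nil))))) (.one (nat_lit 59) (nat_lit 112) (nat_lit 91) (nat_lit 0xbc0001780002fa98f) b34508 (.one (nat_lit 62) (nat_lit 113) (nat_lit 92) (nat_lit 0xbc0001780002fc4a7) b34509 (.tok (nat_lit 65) (nat_lit 0xbc0001780002fca60) (.hit (nat_lit 114) (nat_lit 93) (nat_lit 0xbc0001780002fca60) b34510 (.hit (nat_lit 115) (nat_lit 94) (nat_lit 0xbc0001780002fba64) b34511 (.nil))) (.tok (nat_lit 68) (nat_lit 0xbc0001780002fe953) (.hit (nat_lit 116) (nat_lit 95) (nat_lit 0xbc0001780002fe953) b34512 (.one (nat_lit 3) (nat_lit 120) (nat_lit 99) (nat_lit 0xbc0001780002fcfe6) b34516 (.one (nat_lit 6) (nat_lit 117) (nat_lit 96) (nat_lit 0xbc0001780002fd2ed) b34513 (.tok (nat_lit 9) (nat_lit 0xbc0001780002fd7e2) (.hit (nat_lit 118) (nat_lit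 97) (nat_lit 0xbc0001780002fd34d) b34514 (.hit (nat_lit 119) (nat_lit 98) (nat_lit 0xbc0001780002fd7e2) b34515 (.nil))) (.nil))))) (.one (nat_lit 71) (nat_lit 121) (nat_lit 100) (nat_lit 0xbc0001780002fa96f) b34517 (.nil)))))))))))))))))) (.tok (nat_lit 40) (nat_lit 0xbc000178000304284) (.hit (nat_lit 245) (nat_lit 0) (nat_lit 0xbc0001780003012ce) b34518 (.tok (nat_lit 6) (nat_lit 0xbc000178000304284) (.hit (nat_lit 246) (nat_lit 7) (nat_lit 0xbc000178000304284) b34519 (.hit (nat_lit 247) (nat_lit 15) (nat_lit 0xbc0001780002ffb5c) b34520 (.nil))) (.tok (nat_lit 9) (nat_lit 0xbc0001780002fffb6) (.hit (nat_lit 248) (nat_lit 20) (nat_lit 0xbc0001780002fffb6) b34521 (.hit (nat_lit 249) (nat_lit 28) (nat_lit 0xbc0001780002fea89) b34522 (.nil))) (.nil)))) (.tok (nat_lit 43) (nat_lit 0xbc000178000301a4f) (.hit (nat_lit 270) (nat_lit 0) (nat_lit 0xbc000178000300354) b34530 (.one (nat_lit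 3) (nat_lit 271) (nat_lit 1) (nat_lit 0xbc0001780002ffa98) b34531 (.tok (nat_lit 6) (nat_lit 0xbc000178000301a4f) (.hit (nat_lit 273) (nat_lit 7) (nat_lit 0xbc0001780002fed78) b34532 (.hit (nat_lit 276) (nat_lit 15) (nat_lit 0xbc0001780002ff21f) b34535 (.tok (nat_lit 55) (nat_lit 0xbc000178000301a4f) (.hit (nat_lit 274) (nat_lit 8) (nat_lit 0xbc0001780002ffab2) b34533 (.hit (nat_lit 277) (nat_lit 16) (nat_lit 0xbc000178000301a4f) b34536 (.one (nat_lit 6) (nat_lit 275) (nat_lit 9) (nat_lit 0xbc0001780003016da) b34534 (.nil)))) (.nil)))) (.nil)))) (.tok (nat_lit 46) (nat_lit 0xbc000178000300fb1) (.hit (nat_lit 256) (nat_lit 0) (nat_lit 0xbc000178000300fb1) b34523 (.one (nat_lit 3) (nat_lit 257) (nat_lit 1) (nat_lit 0xbc0001780002fd8ed) b34524 (.tok (nat_lit 9) (nat_lit 0xbc0001780002ffdc3) (.hit (nat_lit 259) (nat_lit 20) (nat_lit 0xbc0001780002fe0b7) b34525 (.hit (nat_lit 262)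 (nat_lit 28) (nat_lit 0xbc0001780002fdb88) b34528 (.tok (nat_lit 67) (nat_lit 0xbc0001780002ffdc3) (.hit (nat_lit 260) (nat_lit 21) (nat_lit 0xbc0001780002ff6ff) b34526 (.hit (nat_lit 263) (nat_lit 29) (nat_lit 0xbc0001780002ffdc3) b34529 (.one (nat_lit 9) (nat_lit 261) (nat_lit 22) (nat_lit 0xbc0001780002ffb26) b34527 (.nil)))) (.nil)))) (.nil)))) (.nil))))
noncomputable def r17_20 : Rw Blk := .tok (nat_lit 3) (nat_lit 0xbc0001780002fdd11) (.hit (nat_lit 61) (nat_lit 0) (nat_lit 0xbc0001780002fc7b7) b34537 (.one (nat_lit 26) (nat_lit 93) (nat_lit 72) (nat_lit 0xbc0001780002fab44) b34538 (.one (nat_lit 29) (nat_lit 94) (nat_lit 73) (nat_lit 0xbc0001780002fac00) b34539 (.one (nat_lit 32) (nat_lit 95) (nat_lit 74) (nat_lit 0xbc0001780002fb0ed) b34540 (.one (nat_lit 35) (nat_lit 96) (nat_lit 75) (nat_lit 0xbc0001780002fa735) b34541 (.one (nat_lit 38) (nat_lit 97) (nat_lit 76) (nat_lit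 0xbc0001780002fb7e5) b34542 (.tok (nat_lit 41) (nat_lit 0xbc0001780002fc013) (.hit (nat_lit 98) (nat_lit 77) (nat_lit 0xbc0001780002f9cd3) b34543 (.hit (nat_lit 99) (nat_lit 78) (nat_lit 0xbc0001780002fc013) b34544 (.nil))) (.tok (nat_lit 44) (nat_lit 0xbc0001780002fb16a) (.hit (nat_lit 100) (nat_lit 79) (nat_lit 0xbc0001780002fa6b4) b34545 (.hit (nat_lit 101) (nat_lit 80) (nat_lit 0xbc0001780002fb16a) b34546 (.nil))) (.tok (nat_lit 47) (nat_lit 0xbc0001780002fb805) (.hit (nat_lit 102) (nat_lit 81) (nat_lit 0xbc0001780002fac36) b34547 (.hit (nat_lit 103) (nat_lit 82) (nat_lit 0xbc0001780002fb805) b34548 (.nil))) (.one (nat_lit 50) (nat_lit 104) (nat_lit 83) (nat_lit 0xbc0001780002fb55d) b34549 (.tok (nat_lit 53) (nat_lit 0xbc0001780002fbef8) (.hit (nat_lit 105) (nat_lit 84) (nat_lit 0xbc0001780002fb8e3) b34550 (.hit (nat_lit 106) (nat_lit 85) (nat_lit 0xbc0001780002fbef8) b34551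 (.nil))) (.tok (nat_lit 56) (nat_lit 0xbc0001780002fd03f) (.hit (nat_lit 107) (nat_lit 86) (nat_lit 0xbc0001780002fcf6a) b34552 (.one (nat_lit 3) (nat_lit 111) (nat_lit 90) (nat_lit 0xbc0001780002fc7de) b34556 (.tok (nat_lit 6) (nat_lit 0xbc0001780002fd03f) (.hit (nat_lit 109) (nat_lit 88) (nat_lit 0xbc0001780002fd03f) b34554 (.hit (nat_lit 110) (nat_lit 89) (nat_lit 0xbc0001780002fbea8) b34555 (.nil))) (.one (nat_lit 9) (nat_lit 108) (nat_lit 87) (nat_lit 0xbc0001780002fc77b) b34553 (.nil))))) (.one (nat_lit 59) (nat_lit 112) (nat_lit 91) (nat_lit 0xbc0001780002fa2bd) b34557 (.one (nat_lit 62) (nat_lit 113) (nat_lit 92) (nat_lit 0xbc0001780002fb9ab) b34558 (.tok (nat_lit 65) (nat_lit 0xbc0001780002fcaf7) (.hit (nat_lit 114) (nat_lit 93) (nat_lit 0xbc0001780002fcaf7) b34559 (.hit (nat_lit 115) (nat_lit 94) (nat_lit 0xbc0001780002fbb15) b34560 (.nil))) (.tok (nat_lit 68) (nat_lit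 0xbc0001780002fdd11) (.hit (nat_lit 116) (nat_lit 95) (nat_lit 0xbc0001780002fd97c) b34561 (.one (nat_lit 3) (nat_lit 120) (nat_lit 99) (nat_lit 0xbc0001780002fbde1) b34565 (.one (nat_lit 6) (nat_lit 117) (nat_lit 96) (nat_lit 0xbc0001780002fd4e3) b34562 (.tok (nat_lit 9) (nat_lit 0xbc0001780002fdd11) (.hit (nat_lit 118) (nat_lit 97) (nat_lit 0xbc0001780002fdd11) b34563 (.hit (nat_lit 119) (nat_lit 98) (nat_lit 0xbc0001780002fb73e) b34564 (.nil))) (.nil))))) (.one (nat_lit 71) (nat_lit 121) (nat_lit 100) (nat_lit 0xbc0001780002fa2aa) b34566 (.nil)))))))))))))))))) (.tok (nat_lit 40) (nat_lit 0xbc0001780002ffa65) (.hit (nat_lit 245) (nat_lit 0) (nat_lit 0xbc0001780002ffa65) b34567 (.tok (nat_lit 6) (nat_lit 0xbc0001780002ff995) (.hit (nat_lit 246) (nat_lit 7) (nat_lit 0xbc0001780002ff995) b34568 (.hit (nat_lit 247) (nat_lit 15) (nat_lit 0xbc0001780002fed43) b34569 (.nil))) (.tok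 (nat_lit 9) (nat_lit 0xbc0001780002fe898) (.hit (nat_lit 248) (nat_lit 20) (nat_lit 0xbc0001780002fe898) b34570 (.hit (nat_lit 249) (nat_lit 28) (nat_lit 0xbc0001780002fe279) b34571 (.nil))) (.nil)))) (.tok (nat_lit 43) (nat_lit 0xbc0001780003000a2) (.hit (nat_lit 270) (nat_lit 0) (nat_lit 0xbc0001780002ff50d) b34579 (.one (nat_lit 3) (nat_lit 271) (nat_lit 1) (nat_lit 0xbc0001780002fe689) b34580 (.tok (nat_lit 6) (nat_lit 0xbc0001780003000a2) (.hit (nat_lit 273) (nat_lit 7) (nat_lit 0xbc0001780002fe8c5) b34581 (.hit (nat_lit 276) (nat_lit 15) (nat_lit 0xbc0001780002fdf9a) b34584 (.tok (nat_lit 55) (nat_lit 0xbc0001780003000a2) (.hit (nat_lit 274) (nat_lit 8) (nat_lit 0xbc0001780002ff8a7) b34582 (.hit (nat_lit 277) (nat_lit 16) (nat_lit 0xbc0001780002ff751) b34585 (.one (nat_lit 6) (nat_lit 275) (nat_lit 9) (nat_lit 0xbc0001780003000a2) b34583 (.nil)))) (.nil)))) (.nil)))) (.tok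 (nat_lit 46) (nat_lit 0xbc000178000300e37) (.hit (nat_lit 256) (nat_lit 0) (nat_lit 0xbc0001780002ff8d3) b34572 (.one (nat_lit 3) (nat_lit 257) (nat_lit 1) (nat_lit 0xbc0001780002fe4d2) b34573 (.tok (nat_lit 9) (nat_lit 0xbc000178000300e37) (.hit (nat_lit 259) (nat_lit 20) (nat_lit 0xbc0001780003000fb) b34574 (.hit (nat_lit 262) (nat_lit 28) (nat_lit 0xbc0001780002ff586) b34577 (.tok (nat_lit 67) (nat_lit 0xbc000178000300e37) (.hit (nat_lit 260) (nat_lit 21) (nat_lit 0xbc000178000300a6e) b34575 (.hit (nat_lit 263) (nat_lit 29) (nat_lit 0xbc000178000300c7a) b34578 (.one (nat_lit 9) (nat_lit 261) (nat_lit 22) (nat_lit 0xbc000178000300e37) b34576 (.nil)))) (.nil)))) (.nil)))) (.nil))))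
noncomputable def r17_21 : Rw Blk := .tok (nat_lit 3) (nat_lit 0xbc0001780002fe766) (.hit (nat_lit 61) (nat_lit 0) (nat_lit 0xbc0001780002fd58e) b34586 (.one (nat_lit 26) (nat_lit 93) (nat_lit 72) (nat_lit 0xbc0001780002fa9dd) b34587 (.one (nat_lit 29) (nat_lit 94) (nat_lit 73) (nat_lit 0xbc0001780002fac68) b34588 (.one (nat_lit 32) (nat_lit 95) (nat_lit 74) (nat_lit 0xbc0001780002fb089) b34589 (.one (nat_lit 35) (nat_lit 96) (nat_lit 75) (nat_lit 0xbc0001780002fb597) b34590 (.one (nat_lit 38) (nat_lit 97) (nat_lit 76) (nat_lit 0xbc0001780002fbb6f) b34591 (.tok (nat_lit 41) (nat_lit 0xbc0001780002fb9aa) (.hit (nat_lit 98) (nat_lit 77) (nat_lit 0xbc0001780002fa32e) b34592 (.hit (nat_lit 99) (nat_lit 78) (nat_lit 0xbc0001780002fb9aa) b34593 (.nil))) (.tok (nat_lit 44) (nat_lit 0xbc0001780002fb4c4) (.hit (nat_lit 100) (nat_lit 79) (nat_lit 0xbc0001780002fb3ca) b34594 (.hit (nat_lit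 101) (nat_lit 80) (nat_lit 0xbc0001780002fb4c4) b34595 (.nil))) (.tok (nat_lit 47) (nat_lit 0xbc0001780002fb3d7) (.hit (nat_lit 102) (nat_lit 81) (nat_lit 0xbc0001780002fa742) b34596 (.hit (nat_lit 103) (nat_lit 82) (nat_lit 0xbc0001780002fb3d7) b34597 (.nil))) (.one (nat_lit 50) (nat_lit 104) (nat_lit 83) (nat_lit 0xbc0001780002fc2ba) b34598 (.tok (nat_lit 53) (nat_lit 0xbc0001780002fc873) (.hit (nat_lit 105) (nat_lit 84) (nat_lit 0xbc0001780002fc873) b34599 (.hit (nat_lit 106) (nat_lit 85) (nat_lit 0xbc0001780002fb877) b34600 (.nil))) (.tok (nat_lit 56) (nat_lit 0xbc0001780002fe766) (.hit (nat_lit 107) (nat_lit 86) (nat_lit 0xbc0001780002fe766) b34601 (.one (nat_lit 3) (nat_lit 111) (nat_lit 90) (nat_lit 0xbc0001780002fcdf9) b34605 (.tok (nat_lit 6) (nat_lit 0xbc0001780002fd5f5) (.hit (nat_lit 109) (nat_lit 88) (nat_lit 0xbc0001780002fd160) b34603 (.hit (nat_lit 110) (nat_lit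 89) (nat_lit 0xbc0001780002fd5f5) b34604 (.nil))) (.one (nat_lit 9) (nat_lit 108) (nat_lit 87) (nat_lit 0xbc0001780002fd100) b34602 (.nil))))) (.one (nat_lit 59) (nat_lit 112) (nat_lit 91) (nat_lit 0xbc0001780002fa782) b34606 (.one (nat_lit 62) (nat_lit 113) (nat_lit 92) (nat_lit 0xbc0001780002fbbf1) b34607 (.tok (nat_lit 65) (nat_lit 0xbc0001780002fbf3c) (.hit (nat_lit 114) (nat_lit 93) (nat_lit 0xbc0001780002fbf3c) b34608 (.hit (nat_lit 115) (nat_lit 94) (nat_lit 0xbc0001780002fb864) b34609 (.nil))) (.tok (nat_lit 68) (nat_lit 0xbc0001780002fd8ff) (.hit (nat_lit 116) (nat_lit 95) (nat_lit 0xbc0001780002fd8ff) b34610 (.one (nat_lit 3) (nat_lit 120) (nat_lit 99) (nat_lit 0xbc0001780002fc70b) b34614 (.one (nat_lit 6) (nat_lit 117) (nat_lit 96) (nat_lit 0xbc0001780002fca12) b34611 (.tok (nat_lit 9) (nat_lit 0xbc0001780002fd8f6) (.hit (nat_lit 118) (nat_lit 97) (nat_lit 0xbc0001780002fd8f6)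 b34612 (.hit (nat_lit 119) (nat_lit 98) (nat_lit 0xbc0001780002fc73f) b34613 (.nil))) (.nil))))) (.one (nat_lit 71) (nat_lit 121) (nat_lit 100) (nat_lit 0xbc0001780002fa7a2) b34615 (.nil)))))))))))))))))) (.tok (nat_lit 40) (nat_lit 0xbc000178000304097) (.hit (nat_lit 221) (nat_lit 0) (nat_lit 0xbc0001780003010e1) b34616 (.tok (nat_lit 6) (nat_lit 0xbc0001780002ffdc9) (.hit (nat_lit 222) (nat_lit 7) (nat_lit 0xbc0001780002ffdc9) b34617 (.hit (nat_lit 223) (nat_lit 15) (nat_lit 0xbc0001780002fe89c) b34618 (.nil))) (.tok (nat_lit 9) (nat_lit 0xbc000178000304097) (.hit (nat_lit 224) (nat_lit 20) (nat_lit 0xbc000178000304097) b34619 (.hit (nat_lit 225) (nat_lit 28) (nat_lit 0xbc0001780002ff96f) b34620 (.nil))) (.nil)))) (.tok (nat_lit 43) (nat_lit 0xbc000178000300dc4) (.hit (nat_lit 232) (nat_lit 0) (nat_lit 0xbc000178000300dc4) b34621 (.one (nat_lit 3) (nat_lit 233) (nat_lit 1)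 (nat_lit 0xbc0001780002fd700) b34622 (.tok (nat_lit 6) (nat_lit 0xbc0001780002ffbd6) (.hit (nat_lit 235) (nat_lit 7) (nat_lit 0xbc0001780002fdeca) b34623 (.hit (nat_lit 238) (nat_lit 15) (nat_lit 0xbc0001780002fd99b) b34626 (.tok (nat_lit 55) (nat_lit 0xbc0001780002ffbd6) (.hit (nat_lit 236) (nat_lit 8) (nat_lit 0xbc0001780002ff512) b34624 (.hit (nat_lit 239) (nat_lit 16) (nat_lit 0xbc0001780002ffbd6) b34627 (.one (nat_lit 6) (nat_lit 237) (nat_lit 9) (nat_lit 0xbc0001780002ff939) b34625 (.nil)))) (.nil)))) (.nil)))) (.tok (nat_lit 46) (nat_lit 0xbc000178000301862) (.hit (nat_lit 246) (nat_lit 0) (nat_lit 0xbc000178000300167) b34628 (.one (nat_lit 3) (nat_lit 247) (nat_lit 1) (nat_lit 0xbc0001780002ff8ab) b34629 (.tok (nat_lit 9) (nat_lit 0xbc000178000301862) (.hit (nat_lit 249) (nat_lit 20) (nat_lit 0xbc0001780002feb8b) b34630 (.hit (nat_lit 252) (nat_lit 28) (nat_lit 0xbc0001780002ff032)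 b34633 (.tok (nat_lit 67) (nat_lit 0xbc000178000301862) (.hit (nat_lit 250) (nat_lit 21) (nat_lit 0xbc0001780002ff8c5) b34631 (.hit (nat_lit 253) (nat_lit 29) (nat_lit 0xbc000178000301862) b34634 (.one (nat_lit 9) (nat_lit 251) (nat_lit 22) (nat_lit 0xbc0001780003014ed) b34632 (.nil)))) (.nil)))) (.nil)))) (.nil))))
noncomputable def r17_22 : Rw Blk := .tok (nat_lit 3) (nat_lit 0xbc0001780002fece1) (.hit (nat_lit 61) (nat_lit 0) (nat_lit 0xbc0001780002fd787) b34635 (.one (nat_lit 26) (nat_lit 93) (nat_lit 72) (nat_lit 0xbc0001780002fbb14) b34636 (.one (nat_lit 29) (nat_lit 94) (nat_lit 73) (nat_lit 0xbc0001780002fbbd0) b34637 (.one (nat_lit 32) (nat_lit 95) (nat_lit 74) (nat_lit 0xbc0001780002fb705) b34638 (.one (nat_lit 35) (nat_lit 96) (nat_lit 75) (nat_lit 0xbc0001780002fc0bd) b34639 (.one (nat_lit 38) (nat_lit 97) (nat_lit 76) (nat_lit 0xbc0001780002fc7b5) b34640 (.tok (nat_lit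 41) (nat_lit 0xbc0001780002fcfe3) (.hit (nat_lit 98) (nat_lit 77) (nat_lit 0xbc0001780002faca3) b34641 (.hit (nat_lit 99) (nat_lit 78) (nat_lit 0xbc0001780002fcfe3) b34642 (.nil))) (.tok (nat_lit 44) (nat_lit 0xbc0001780002fc7d5) (.hit (nat_lit 100) (nat_lit 79) (nat_lit 0xbc0001780002fbc06) b34643 (.hit (nat_lit 101) (nat_lit 80) (nat_lit 0xbc0001780002fc7d5) b34644 (.nil))) (.tok (nat_lit 47) (nat_lit 0xbc0001780002fc13a) (.hit (nat_lit 102) (nat_lit 81) (nat_lit 0xbc0001780002fb684) b34645 (.hit (nat_lit 103) (nat_lit 82) (nat_lit 0xbc0001780002fc13a) b34646 (.nil))) (.one (nat_lit 50) (nat_lit 104) (nat_lit 83) (nat_lit 0xbc0001780002fc97b) b34647 (.tok (nat_lit 53) (nat_lit 0xbc0001780002fdac7) (.hit (nat_lit 105) (nat_lit 84) (nat_lit 0xbc0001780002fdac7) b34648 (.hit (nat_lit 106) (nat_lit 85) (nat_lit 0xbc0001780002fcae5) b34649 (.nil))) (.tok (nat_lit 56) (nat_lit 0xbc0001780002fece1)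 (.hit (nat_lit 107) (nat_lit 86) (nat_lit 0xbc0001780002fe94c) b34650 (.one (nat_lit 3) (nat_lit 111) (nat_lit 90) (nat_lit 0xbc0001780002fcdb1) b34654 (.tok (nat_lit 6) (nat_lit 0xbc0001780002fece1) (.hit (nat_lit 109) (nat_lit 88) (nat_lit 0xbc0001780002fece1) b34652 (.hit (nat_lit 110) (nat_lit 89) (nat_lit 0xbc0001780002fc70e) b34653 (.nil))) (.one (nat_lit 9) (nat_lit 108) (nat_lit 87) (nat_lit 0xbc0001780002fe4b3) b34651 (.nil))))) (.one (nat_lit 59) (nat_lit 112) (nat_lit 91) (nat_lit 0xbc0001780002fb27a) b34655 (.one (nat_lit 62) (nat_lit 113) (nat_lit 92) (nat_lit 0xbc0001780002fc52d) b34656 (.tok (nat_lit 65) (nat_lit 0xbc0001780002fcec8) (.hit (nat_lit 114) (nat_lit 93) (nat_lit 0xbc0001780002fc8b3) b34657 (.hit (nat_lit 115) (nat_lit 94) (nat_lit 0xbc0001780002fcec8) b34658 (.nil))) (.tok (nat_lit 68) (nat_lit 0xbc0001780002fe00f) (.hit (nat_lit 116) (nat_lit 95)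 (nat_lit 0xbc0001780002fdf3a) b34659 (.one (nat_lit 3) (nat_lit 120) (nat_lit 99) (nat_lit 0xbc0001780002fd7ae) b34663 (.one (nat_lit 6) (nat_lit 117) (nat_lit 96) (nat_lit 0xbc0001780002fd74b) b34660 (.tok (nat_lit 9) (nat_lit 0xbc0001780002fe00f) (.hit (nat_lit 118) (nat_lit 97) (nat_lit 0xbc0001780002fe00f) b34661 (.hit (nat_lit 119) (nat_lit 98) (nat_lit 0xbc0001780002fce78) b34662 (.nil))) (.nil))))) (.one (nat_lit 71) (nat_lit 121) (nat_lit 100) (nat_lit 0xbc0001780002fb28d) b34664 (.nil)))))))))))))))))) (.tok (nat_lit 40) (nat_lit 0xbc000178000300a35) (.hit (nat_lit 221) (nat_lit 0) (nat_lit 0xbc000178000300a35) b34665 (.tok (nat_lit 6) (nat_lit 0xbc0001780002ff868) (.hit (nat_lit 222) (nat_lit 7) (nat_lit 0xbc0001780002ff868) b34666 (.hit (nat_lit 223) (nat_lit 15) (nat_lit 0xbc0001780002ff249) b34667 (.nil))) (.tok (nat_lit 9) (nat_lit 0xbc000178000300965) (.hit (nat_lit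 224) (nat_lit 20) (nat_lit 0xbc000178000300965) b34668 (.hit (nat_lit 225) (nat_lit 28) (nat_lit 0xbc0001780002ffd13) b34669 (.nil))) (.nil)))) (.tok (nat_lit 43) (nat_lit 0xbc000178000301e07) (.hit (nat_lit 232) (nat_lit 0) (nat_lit 0xbc0001780003008a3) b34670 (.one (nat_lit 3) (nat_lit 233) (nat_lit 1) (nat_lit 0xbc0001780002ff4a2) b34671 (.tok (nat_lit 6) (nat_lit 0xbc000178000301e07) (.hit (nat_lit 235) (nat_lit 7) (nat_lit 0xbc0001780003010cb) b34672 (.hit (nat_lit 238) (nat_lit 15) (nat_lit 0xbc000178000300556) b34675 (.tok (nat_lit 55) (nat_lit 0xbc000178000301e07) (.hit (nat_lit 236) (nat_lit 8) (nat_lit 0xbc000178000301a3e) b34673 (.hit (nat_lit 239) (nat_lit 16) (nat_lit 0xbc000178000301c4a) b34676 (.one (nat_lit 6) (nat_lit 237) (nat_lit 9) (nat_lit 0xbc000178000301e07) b34674 (.nil)))) (.nil)))) (.nil)))) (.tok (nat_lit 46) (nat_lit 0xbc000178000301072) (.hit (nat_lit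 246) (nat_lit 0) (nat_lit 0xbc0001780003004dd) b34677 (.one (nat_lit 3) (nat_lit 247) (nat_lit 1) (nat_lit 0xbc0001780002ff659) b34678 (.tok (nat_lit 9) (nat_lit 0xbc000178000301072) (.hit (nat_lit 249) (nat_lit 20) (nat_lit 0xbc0001780002ff895) b34679 (.hit (nat_lit 252) (nat_lit 28) (nat_lit 0xbc0001780002fef6a) b34682 (.tok (nat_lit 67) (nat_lit 0xbc000178000301072) (.hit (nat_lit 250) (nat_lit 21) (nat_lit 0xbc000178000300877) b34680 (.hit (nat_lit 253) (nat_lit 29) (nat_lit 0xbc000178000300721) b34683 (.one (nat_lit 9) (nat_lit 251) (nat_lit 22) (nat_lit 0xbc000178000301072) b34681 (.nil)))) (.nil)))) (.nil)))) (.nil))))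
noncomputable def r18_0 : Rw Blk := .tok (nat_lit 3) (nat_lit 0x17edb42fdaab5fd644bf72c97ecb0afec875fcbbebfa4a57efa3afdc99) (.hit (nat_lit 0) (nat_lit 0) (nat_lit 0x17db5f2fc20d5f9146bf2b217e3312fc4f35f7da4bf0ad57e6baafc99a) b34684 (.tok (nat_lit 9) (nat_lit 0x17db23afbdc15fbf5cbf46797e61d2fca645f8892bf21697e80b2fcf6b) (.hit (nat_lit 10) (nat_lit 20) (nat_lit 0x17d1a5afaac55f9b84befa897dc9f2fb7685f629abed5797de8d2fbc6f) b34685 (.hit (nat_lit 15) (nat_lit 28) (nat_lit 0x17d06e2fa8565f8498bef0cd7db67afb4f95f5dbcbecbbd7dd55afba00) b34688 (.tok (nat_lit 14) (nat_lit 0x17db23afbdc15fbf5cbf46797e61d2fca645f8892bf21697e80b2fcf6b) (.hit (nat_lit 11) (nat_lit 24) (nat_lit 0x17d4f3afb1615faba2bf14f97dfed2fbe045f6fd2beefe97e1db2fc30b) b34686 (.hit (nat_lit 16) (nat_lit 30) (nat_lit 0x17d4752fb0645f9700bf11057df6eafbd075f6dd8beebf57e15cafc20e) b34689 (.one (nat_lit 6) (nat_lit 12) (nat_lit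 25) (nat_lit 0x17db23afbdc15fbf5cbf46797e61d2fca645f8892bf21697e80b2fcf6b) b34687 (.nil)))) (.one (nat_lit 56) (nat_lit 17) (nat_lit 31) (nat_lit 0x17db04afbd835faffcbf45817e5fe2fca265f8816bf20717e7ec2fcf2d) b34690 (.nil))))) (.tok (nat_lit 64) (nat_lit 0x17d66d2fb4545fa7cebf20c57e166afc0f75f75b8befbb57e354afc5fe) (.hit (nat_lit 30) (nat_lit 50) (nat_lit 0x17d4d82fb12a5f8d50bf141d7dfd1afbdcd5f6f64beef0d7e1bfafc2d4) b34691 (.hit (nat_lit 31) (nat_lit 51) (nat_lit 0x17d66d2fb4545fa7cebf20c57e166afc0f75f75b8befbb57e354afc5fe) b34692 (.nil))) (.tok (nat_lit 67) (nat_lit 0x17edb42fdaab5fd644bf72c97ecb0afec875fcbbebfa4a57efa3afdc99) (.hit (nat_lit 32) (nat_lit 52) (nat_lit 0x17edb42fdaab5fd294bf724d7ec682fec875fcbbebfa4a57efa22fdc08) b34693 (.tok (nat_lit 3) (nat_lit 0x17debcafc4f35fd644bf63417e9b62fd1965f96f6bf3e317eba42fd69d) (.hit (nat_lit 38) (nat_lit 58) (nat_lit 0x17dae92fbd4c5fbd5cbf44a57e5e2afc9ef5f87a8bf1f957e7d0afcef6)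 b34696 (.one (nat_lit 55) (nat_lit 39) (nat_lit 59) (nat_lit 0x17debcafc4f35fd644bf63417e9b62fd1965f96f6bf3e317eba42fd69d) b34697 (.nil))) (.tok (nat_lit 9) (nat_lit 0x17e047afcdcf5fb70ebf72c97ecb0afd87e5fa528bf58457efa3afdc99) (.hit (nat_lit 33) (nat_lit 53) (nat_lit 0x17e047afcdcf5fb70ebf72c97ecb0afd87e5fa528bf58457efa3afdc99) b34694 (.hit (nat_lit 36) (nat_lit 56) (nat_lit 0x17db15afbda55fb4f6bf46097e60f2fca485f885abf20f97e7fd2fcf4f) b34695 (.nil))) (.nil)))) (.one (nat_lit 70) (nat_lit 40) (nat_lit 60) (nat_lit 0x17da852fbc845fb546bf41857e57eafc9275f8618bf1c757e76cafce2e) b34698 (.nil)))))) (.tok (nat_lit 6) (nat_lit 0x180000300000600000c000018000030099e600542c0161180000300000) (.hit (nat_lit 81) (nat_lit 0) (nat_lit 0x17e581afdc9f5fa902bf6cf97eb50afd4a45fb120bf5f6d7eef7afda2b) b34699 (.tok (nat_lit 6) (nat_lit 0x17f2b4aff8035fed1cbfaa757f2e1afe9435fd7b8bfad417f33a2fe694)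 (.hit (nat_lit 87) (nat_lit 7) (nat_lit 0x17e09dafd0a65f9922bf28457e2e2afcd675fa71abf43097e4262fc7a1) b34700 (.hit (nat_lit 95) (nat_lit 15) (nat_lit 0x17d9cfafb6265f9336bec1397d6012fc1645f7786befced7d910afae61) b34705 (.tok (nat_lit 14) (nat_lit 0x17f2b4aff8035fed1cbfaa757f2e1afe9435fd7b8bfad417f33a2fe694) (.hit (nat_lit 91) (nat_lit 11) (nat_lit 0x17f10aaff3b75fea78bfa6d97f2e1afe22f5fc948bf93d97f170afe27d) b34701 (.hit (nat_lit 97) (nat_lit 17) (nat_lit 0x17e80dafd1cc5fd34ebf341d7e3e32fd3ca5faabcbf524d7e7482fcb39) b34706 (.one (nat_lit 9) (nat_lit 92) (nat_lit 12) (nat_lit 0x17f2b4aff8035fed1cbfaa757f18a2fe9435fd7b8bfad417f33a2fe694) b34702 (.nil)))) (.tok (nat_lit 56) (nat_lit 0x17ed65afeee85fcd8ebf84a17edd5afe16e5fc472bf7f217ee4aafdf5f) (.hit (nat_lit 93) (nat_lit 13) (nat_lit 0x17ed65afe7795fcc32bf84a17edd5afe16e5fc472bf7f217ee4aafdf5f) b34703 (.hit (nat_lit 99) (nat_lit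 19) (nat_lit 0x17e4432fcb115fa67ebf17997e018afcc6a5f9cb8bf35417e37e2fc3a4) b34708 (.one (nat_lit 6) (nat_lit 94) (nat_lit 14) (nat_lit 0x17e86f2feee85fcd8ebf6df57eb0cafdb3f5fbea0bf74117ecfaafd94a) b34704 (.nil)))) (.one (nat_lit 68) (nat_lit 98) (nat_lit 18) (nat_lit 0x17e41b2fcb905fb646bf18117e0632fd0385f9e02bf38717e3c8afc439) b34707 (.nil)))))) (.tok (nat_lit 52) (nat_lit 0x17e6ceafdf6f5fb5f8bf35597e4342fd7665fac6ebf60217e73a2fcc90) (.hit (nat_lit 106) (nat_lit 39) (nat_lit 0x17e5b52fdf6f5fb3bcbf35597e4342fd7665fac6ebf55957e73a2fcc90) b34709 (.hit (nat_lit 107) (nat_lit 40) (nat_lit 0x17e6ceafd8db5fb5f8bf2cd17e310afd4295fa136bf60217e62b2fc881) b34710 (.nil))) (.tok (nat_lit 55) (nat_lit 0x180000300000600000c000018000030099e600542c0161180000300000) (.hit (nat_lit 108) (nat_lit 41) (nat_lit 0x17f8022ffbd75fe1ccbfdfe97fb612ff83d5ff16abfe4e17fb98aff5ce) b34711 (.tok (nat_lit 3)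 (nat_lit 0x1800002ff9dc5ff406c00001800002fff43600542c00d9d80000300000) (.hit (nat_lit 114) (nat_lit 47) (nat_lit 0x17f3222feb625fdc68bfb7b17f68daff84f5ff5e6bfe3557f4f7afeea0) b34717 (.one (nat_lit 67) (nat_lit 115) (nat_lit 48) (nat_lit 0x1800002ff9dc5ff406c00001800002fff43600542c00d9d80000300000) b34718 (.nil))) (.tok (nat_lit 6) (nat_lit 0x17fcc7300000600000bfc7b57f67530099e5fffaac016117fc562ff713) (.hit (nat_lit 109) (nat_lit 42) (nat_lit 0x17f1f62fe1dc5fca76bf7e697ed572fed605fd158bf92a17f179afe2b4) b34712 (.hit (nat_lit 112) (nat_lit 45) (nat_lit 0x17eba62fe9075fed54bf63a17e9c22fddd15fb5f2bf7f397ebb02fd6b5) b34715 (.tok (nat_lit 55) (nat_lit 0x17fcc7300000600000bfc7b57f67530099e5fffaac016117fc562ff713) (.hit (nat_lit 110) (nat_lit 43) (nat_lit 0x17fcc72ff9945ff958bfaab17f37ab0099e5fffaac016117fc562ff713) b34713 (.hit (nat_lit 113) (nat_lit 46) (nat_lit 0x17f34c300000600000bf8fa57efa0afed1e5fd45cbfc4297f28d2fe16a)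 b34716 (.one (nat_lit 6) (nat_lit 111) (nat_lit 44) (nat_lit 0x17fb87aff31d5ff4e0bfc7b57f6753007e85ff91abff4617f9bfaff6fe) b34714 (.nil)))) (.nil)))) (.nil)))) (.one (nat_lit 58) (nat_lit 116) (nat_lit 49) (nat_lit 0x17eb1f2fdd7d5fd7f0bf4fe97e783afdfde5fb2e2bf82c57ea822fd18a) b34719 (.nil)))))) (.nil))
noncomputable def r18_1 : Rw Blk := .tok (nat_lit 9) (nat_lit 0xbc0001780002ff3e0) (.hit (nat_lit 0) (nat_lit 0) (nat_lit 0xbc0001780002fdea3) b34720 (.tok (nat_lit 14) (nat_lit 0xbc0001780002fea6a) (.hit (nat_lit 11) (nat_lit 61) (nat_lit 0xbc0001780002fea6a) b34721 (.one (nat_lit 3) (nat_lit 12) (nat_lit 62) (nat_lit 0xbc0001780002fe8d5) b34722 (.tok (nat_lit 6) (nat_lit 0xbc0001780002fe6eb) (.hit (nat_lit 15) (nat_lit 65) (nat_lit 0xbc0001780002fe6eb) b34725 (.hit (nat_lit 16) (nat_lit 66) (nat_lit 0xbc0001780002fe170) b34726 (.nil))) (.tok (nat_lit 9) (nat_lit 0xbc0001780002fe009)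 (.hit (nat_lit 13) (nat_lit 63) (nat_lit 0xbc0001780002fd5cf) b34723 (.hit (nat_lit 14) (nat_lit 64) (nat_lit 0xbc0001780002fe009) b34724 (.nil))) (.nil))))) (.one (nat_lit 17) (nat_lit 17) (nat_lit 67) (nat_lit 0xbc0001780002fdecf) b34727 (.tok (nat_lit 20) (nat_lit 0xbc0001780002fdd8b) (.hit (nat_lit 18) (nat_lit 68) (nat_lit 0xbc0001780002fc1d6) b34728 (.hit (nat_lit 19) (nat_lit 69) (nat_lit 0xbc0001780002fdd8b) b34729 (.nil))) (.tok (nat_lit 23) (nat_lit 0xbc0001780002ff3e0) (.hit (nat_lit 20) (nat_lit 70) (nat_lit 0xbc0001780002ff3e0) b34730 (.hit (nat_lit 21) (nat_lit 71) (nat_lit 0xbc0001780002fe03e) b34731 (.nil))) (.one (nat_lit 26) (nat_lit 22) (nat_lit 72) (nat_lit 0xbc0001780002fce8d) b34732 (.one (nat_lit 29) (nat_lit 23) (nat_lit 73) (nat_lit 0xbc0001780002fcdb1) b34733 (.one (nat_lit 32) (nat_lit 24) (nat_lit 74) (nat_lit 0xbc0001780002fd6c5) b34734 (.one (nat_lit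 35) (nat_lit 25) (nat_lit 75) (nat_lit 0xbc0001780002fcc36) b34735 (.one (nat_lit 38) (nat_lit 26) (nat_lit 76) (nat_lit 0xbc0001780002fdd16) b34736 (.tok (nat_lit 41) (nat_lit 0xbc0001780002fdfc0) (.hit (nat_lit 27) (nat_lit 77) (nat_lit 0xbc0001780002fd74e) b34737 (.hit (nat_lit 28) (nat_lit 78) (nat_lit 0xbc0001780002fdfc0) b34738 (.nil))) (.tok (nat_lit 44) (nat_lit 0xbc0001780002fe269) (.hit (nat_lit 29) (nat_lit 79) (nat_lit 0xbc0001780002fad06) b34739 (.hit (nat_lit 30) (nat_lit 80) (nat_lit 0xbc0001780002fe269) b34740 (.nil))) (.tok (nat_lit 47) (nat_lit 0xbc0001780002fe20e) (.hit (nat_lit 31) (nat_lit 81) (nat_lit 0xbc0001780002fe20e) b34741 (.hit (nat_lit 32) (nat_lit 82) (nat_lit 0xbc0001780002fd5cf) b34742 (.nil))) (.one (nat_lit 50) (nat_lit 33) (nat_lit 83) (nat_lit 0xbc0001780002fd59a) b34743 (.tok (nat_lit 53) (nat_lit 0xbc0001780002fdd08) (.hit (nat_lit 34) (nat_lit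 84) (nat_lit 0xbc0001780002fd0c3) b34744 (.hit (nat_lit 35) (nat_lit 85) (nat_lit 0xbc0001780002fdd08) b34745 (.nil))) (.tok (nat_lit 56) (nat_lit 0xbc0001780002fde7c) (.hit (nat_lit 36) (nat_lit 86) (nat_lit 0xbc0001780002fde7c) b34746 (.one (nat_lit 3) (nat_lit 40) (nat_lit 90) (nat_lit 0xbc0001780002fc534) b34750 (.tok (nat_lit 6) (nat_lit 0xbc0001780002fcfd7) (.hit (nat_lit 38) (nat_lit 88) (nat_lit 0xbc0001780002fcfd7) b34748 (.hit (nat_lit 39) (nat_lit 89) (nat_lit 0xbc0001780002fca8c) b34749 (.nil))) (.one (nat_lit 9) (nat_lit 37) (nat_lit 87) (nat_lit 0xbc0001780002fcd1f) b34747 (.nil))))) (.one (nat_lit 59) (nat_lit 41) (nat_lit 91) (nat_lit 0xbc0001780002fd604) b34751 (.nil)))))))))))))))))) (.tok (nat_lit 64) (nat_lit 0xbc0001780003002a1) (.hit (nat_lit 180) (nat_lit 0) (nat_lit 0xbc0001780002fff8d) b34752 (.tok (nat_lit 6) (nat_lit 0xbc0001780002fe64a) (.hit (nat_lit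 181) (nat_lit 7) (nat_lit 0xbc0001780002fd079) b34753 (.hit (nat_lit 182) (nat_lit 15) (nat_lit 0xbc0001780002fe64a) b34754 (.nil))) (.tok (nat_lit 9) (nat_lit 0xbc0001780003002a1) (.hit (nat_lit 183) (nat_lit 20) (nat_lit 0xbc0001780003002a1) b34755 (.hit (nat_lit 184) (nat_lit 28) (nat_lit 0xbc0001780002feb8b) b34756 (.nil))) (.nil)))) (.tok (nat_lit 67) (nat_lit 0xbc0001780002fef64) (.hit (nat_lit 205) (nat_lit 0) (nat_lit 0xbc0001780002fef64) b34765 (.tok (nat_lit 3) (nat_lit 0xbc0001780002fe572) (.hit (nat_lit 206) (nat_lit 1) (nat_lit 0xbc0001780002fca63) b34766 (.one (nat_lit 55) (nat_lit 207) (nat_lit 3) (nat_lit 0xbc0001780002fe572) b34767 (.nil))) (.tok (nat_lit 9) (nat_lit 0xbc0001780002fd066) (.hit (nat_lit 208) (nat_lit 20) (nat_lit 0xbc0001780002fd066) b34768 (.hit (nat_lit 211) (nat_lit 28) (nat_lit 0xbc0001780002fc950) b34769 (.nil))) (.nil)))) (.tok (nat_lit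 70) (nat_lit 0xbc0001780002ff8aa) (.hit (nat_lit 191) (nat_lit 0) (nat_lit 0xbc0001780002ff8aa) b34757 (.tok (nat_lit 3) (nat_lit 0xbc0001780002febf6) (.hit (nat_lit 192) (nat_lit 1) (nat_lit 0xbc0001780002fc9f9) b34758 (.one (nat_lit 67) (nat_lit 193) (nat_lit 2) (nat_lit 0xbc0001780002febf6) b34759 (.nil))) (.tok (nat_lit 6) (nat_lit 0xbc0001780002ff78c) (.hit (nat_lit 194) (nat_lit 7) (nat_lit 0xbc0001780002fd72a) b34760 (.hit (nat_lit 197) (nat_lit 15) (nat_lit 0xbc0001780002fcfe7) b34763 (.tok (nat_lit 55) (nat_lit 0xbc0001780002ff78c) (.hit (nat_lit 195) (nat_lit 8) (nat_lit 0xbc0001780002fe23d) b34761 (.hit (nat_lit 198) (nat_lit 16) (nat_lit 0xbc0001780002fe6e8) b34764 (.one (nat_lit 6) (nat_lit 196) (nat_lit 9) (nat_lit 0xbc0001780002ff78c) b34762 (.nil)))) (.nil)))) (.nil)))) (.nil))))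
noncomputable def r18_2 : Rw Blk := .tok (nat_lit 3) (nat_lit 0xbc00017800030138b) (.hit (nat_lit 15) (nat_lit 0) (nat_lit 0xbc0001780002ff024) b34777 (.tok (nat_lit 6) (nat_lit 0xbc0001780002fde0c) (.hit (nat_lit 16) (nat_lit 7) (nat_lit 0xbc0001780002fcb41) b34778 (.hit (nat_lit 21) (nat_lit 15) (nat_lit 0xbc0001780002fb37f) b34783 (.tok (nat_lit 14) (nat_lit 0xbc0001780002fd6b0) (.hit (nat_lit 17) (nat_lit 11) (nat_lit 0xbc0001780002fc889) b34779 (.hit (nat_lit 22) (nat_lit 17) (nat_lit 0xbc0001780002fd3e0) b34784 (.one (nat_lit 9) (nat_lit 18) (nat_lit 12) (nat_lit 0xbc0001780002fd6b0) b34780 (.nil)))) (.tok (nat_lit 56) (nat_lit 0xbc0001780002fde0c) (.hit (nat_lit 19) (nat_lit 13) (nat_lit 0xbc0001780002fd382) b34781 (.hit (nat_lit 24) (nat_lit 19) (nat_lit 0xbc0001780002fd45d) b34785 (.one (nat_lit 6) (nat_lit 20) (nat_lit 14) (nat_lit 0xbc0001780002fde0c) b34782 (.nil))))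 (.nil))))) (.tok (nat_lit 52) (nat_lit 0xbc0001780002fdef1) (.hit (nat_lit 25) (nat_lit 39) (nat_lit 0xbc0001780002fd1cb) b34786 (.hit (nat_lit 26) (nat_lit 40) (nat_lit 0xbc0001780002fdef1) b34787 (.nil))) (.tok (nat_lit 55) (nat_lit 0xbc00017800030138b) (.hit (nat_lit 27) (nat_lit 41) (nat_lit 0xbc00017800030138b) b34788 (.tok (nat_lit 3) (nat_lit 0xbc0001780002fe729) (.hit (nat_lit 33) (nat_lit 47) (nat_lit 0xbc0001780002fdf0a) b34794 (.one (nat_lit 67) (nat_lit 34) (nat_lit 48) (nat_lit 0xbc0001780002fe729) b34795 (.nil))) (.tok (nat_lit 6) (nat_lit 0xbc0001780002fe1c4) (.hit (nat_lit 28) (nat_lit 42) (nat_lit 0xbc0001780002fd7a9) b34789 (.hit (nat_lit 31) (nat_lit 45) (nat_lit 0xbc0001780002fdae0) b34792 (.tok (nat_lit 55) (nat_lit 0xbc0001780002fe1c4) (.hit (nat_lit 29) (nat_lit 43) (nat_lit 0xbc0001780002fe1c4) b34790 (.hit (nat_lit 32) (nat_lit 46) (nat_lit 0xbc0001780002fe0c7)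 b34793 (.one (nat_lit 6) (nat_lit 30) (nat_lit 44) (nat_lit 0xbc0001780002fd6fa) b34791 (.nil)))) (.nil)))) (.nil)))) (.one (nat_lit 58) (nat_lit 35) (nat_lit 49) (nat_lit 0xbc0001780002fddd6) b34796 (.nil)))))) (.tok (nat_lit 9) (nat_lit 0xbc000178000300d50) (.hit (nat_lit 0) (nat_lit 0) (nat_lit 0xbc0001780003003f8) b34770 (.tok (nat_lit 9) (nat_lit 0xbc000178000300d50) (.hit (nat_lit 1) (nat_lit 20) (nat_lit 0xbc0001780002fed6c) b34771 (.hit (nat_lit 4) (nat_lit 28) (nat_lit 0xbc0001780002fe1ff) b34774 (.tok (nat_lit 14) (nat_lit 0xbc000178000300d50) (.hit (nat_lit 2) (nat_lit 24) (nat_lit 0xbc000178000300761) b34772 (.hit (nat_lit 5) (nat_lit 30) (nat_lit 0xbc0001780002fecbf) b34775 (.one (nat_lit 6) (nat_lit 3) (nat_lit 25) (nat_lit 0xbc000178000300d50) b34773 (.nil)))) (.one (nat_lit 56) (nat_lit 6) (nat_lit 31) (nat_lit 0xbc00017800030023b) b34776 (.nil))))) (.nil))) (.nil))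
noncomputable def r18_3 : Rw Blk := .tok (nat_lit 6) (nat_lit 0xbc000178000300a80) (.hit (nat_lit 0) (nat_lit 0) (nat_lit 0xbc0001780002fe33d) b34797 (.tok (nat_lit 14) (nat_lit 0xbc0001780003007be) (.hit (nat_lit 21) (nat_lit 61) (nat_lit 0xbc0001780002ffb6e) b34798 (.one (nat_lit 3) (nat_lit 22) (nat_lit 62) (nat_lit 0xbc0001780002fffc3) b34799 (.tok (nat_lit 6) (nat_lit 0xbc0001780002feb48) (.hit (nat_lit 25) (nat_lit 65) (nat_lit 0xbc0001780002fc7ee) b34802 (.hit (nat_lit 26) (nat_lit 66) (nat_lit 0xbc0001780002feb48) b34803 (.nil))) (.tok (nat_lit 9) (nat_lit 0xbc0001780003007be) (.hit (nat_lit 23) (nat_lit 63) (nat_lit 0xbc0001780003007be) b34800 (.hit (nat_lit 24) (nat_lit 64) (nat_lit 0xbc0001780002fe9c7) b34801 (.nil))) (.nil))))) (.one (nat_lit 17) (nat_lit 27) (nat_lit 67) (nat_lit 0xbc0001780002ff282) b34804 (.tok (nat_lit 20) (nat_lit 0xbc000178000300a80) (.hit (nat_lit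 28) (nat_lit 68) (nat_lit 0xbc000178000300a80) b34805 (.hit (nat_lit 29) (nat_lit 69) (nat_lit 0xbc0001780002fe584) b34806 (.nil))) (.tok (nat_lit 23) (nat_lit 0xbc0001780002fe2a2) (.hit (nat_lit 30) (nat_lit 70) (nat_lit 0xbc0001780002fb731) b34807 (.hit (nat_lit 31) (nat_lit 71) (nat_lit 0xbc0001780002fe2a2) b34808 (.nil))) (.one (nat_lit 26) (nat_lit 32) (nat_lit 72) (nat_lit 0xbc0001780002fdbb7) b34809 (.one (nat_lit 29) (nat_lit 33) (nat_lit 73) (nat_lit 0xbc0001780002fe0f9) b34810 (.one (nat_lit 32) (nat_lit 34) (nat_lit 74) (nat_lit 0xbc0001780002fd400) b34811 (.one (nat_lit 35) (nat_lit 35) (nat_lit 75) (nat_lit 0xbc0001780002feb83) b34812 (.one (nat_lit 50) (nat_lit 43) (nat_lit 83) (nat_lit 0xbc0001780002fea5d) b34813 (.tok (nat_lit 53) (nat_lit 0xbc0001780002ff553) (.hit (nat_lit 44) (nat_lit 84) (nat_lit 0xbc0001780002ff553) b34814 (.hit (nat_lit 45) (nat_lit 85)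 (nat_lit 0xbc0001780002fe945) b34815 (.nil))) (.tok (nat_lit 56) (nat_lit 0xbc0001780002ffa87) (.hit (nat_lit 46) (nat_lit 86) (nat_lit 0xbc0001780002ff749) b34816 (.one (nat_lit 3) (nat_lit 50) (nat_lit 90) (nat_lit 0xbc0001780002feacb) b34820 (.tok (nat_lit 6) (nat_lit 0xbc0001780002ff73c) (.hit (nat_lit 48) (nat_lit 88) (nat_lit 0xbc0001780002ff73c) b34818 (.hit (nat_lit 49) (nat_lit 89) (nat_lit 0xbc0001780002ff155) b34819 (.nil))) (.one (nat_lit 9) (nat_lit 47) (nat_lit 87) (nat_lit 0xbc0001780002ffa87) b34817 (.nil))))) (.one (nat_lit 59) (nat_lit 51) (nat_lit 91) (nat_lit 0xbc0001780002fe4a9) b34821 (.one (nat_lit 62) (nat_lit 52) (nat_lit 92) (nat_lit 0xbc0001780002fdb7a) b34822 (.tok (nat_lit 65) (nat_lit 0xbc0001780002fe74a) (.hit (nat_lit 53) (nat_lit 93) (nat_lit 0xbc0001780002fe74a) b34823 (.hit (nat_lit 54) (nat_lit 94) (nat_lit 0xbc0001780002fd216) b34824 (.nil)))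 (.tok (nat_lit 68) (nat_lit 0xbc0001780002fd9f1) (.hit (nat_lit 55) (nat_lit 95) (nat_lit 0xbc0001780002fd9f1) b34825 (.one (nat_lit 3) (nat_lit 59) (nat_lit 99) (nat_lit 0xbc0001780002fb6b4) b34829 (.one (nat_lit 6) (nat_lit 56) (nat_lit 96) (nat_lit 0xbc0001780002fbad7) b34826 (.tok (nat_lit 9) (nat_lit 0xbc0001780002fc8c3) (.hit (nat_lit 57) (nat_lit 97) (nat_lit 0xbc0001780002fc8c3) b34827 (.hit (nat_lit 58) (nat_lit 98) (nat_lit 0xbc0001780002fc071) b34828 (.nil))) (.nil))))) (.one (nat_lit 71) (nat_lit 60) (nat_lit 100) (nat_lit 0xbc0001780002fe221) b34830 (.nil)))))))))))))))))) (.tok (nat_lit 52) (nat_lit 0xbc000178000300ef0) (.hit (nat_lit 176) (nat_lit 0) (nat_lit 0xbc000178000300ef0) b34831 (.tok (nat_lit 6) (nat_lit 0xbc0001780002ffb0a) (.hit (nat_lit 177) (nat_lit 7) (nat_lit 0xbc0001780002ffb0a) b34832 (.hit (nat_lit 178) (nat_lit 15) (nat_lit 0xbc0001780002fea29)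 b34833 (.nil))) (.tok (nat_lit 9) (nat_lit 0xbc0001780002ff7db) (.hit (nat_lit 179) (nat_lit 20) (nat_lit 0xbc0001780002fe443) b34834 (.hit (nat_lit 180) (nat_lit 28) (nat_lit 0xbc0001780002ff7db) b34835 (.nil))) (.nil)))) (.tok (nat_lit 55) (nat_lit 0xbc0001780002ff3df) (.hit (nat_lit 187) (nat_lit 0) (nat_lit 0xbc0001780002ff199) b34836 (.tok (nat_lit 3) (nat_lit 0xbc0001780002feae1) (.hit (nat_lit 188) (nat_lit 1) (nat_lit 0xbc0001780002fd43d) b34837 (.one (nat_lit 67) (nat_lit 189) (nat_lit 2) (nat_lit 0xbc0001780002feae1) b34838 (.nil))) (.tok (nat_lit 6) (nat_lit 0xbc0001780002ff3df) (.hit (nat_lit 190) (nat_lit 7) (nat_lit 0xbc0001780002fdec2) b34839 (.hit (nat_lit 193) (nat_lit 15) (nat_lit 0xbc0001780002fd513) b34842 (.tok (nat_lit 55) (nat_lit 0xbc0001780002ff3df) (.hit (nat_lit 191) (nat_lit 8) (nat_lit 0xbc0001780002fedaa) b34840 (.hit (nat_lit 194) (nat_lit 16) (nat_lit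 0xbc0001780002fed90) b34843 (.one (nat_lit 6) (nat_lit 192) (nat_lit 9) (nat_lit 0xbc0001780002ff3df) b34841 (.nil)))) (.nil)))) (.nil)))) (.tok (nat_lit 58) (nat_lit 0xbc0001780002ffef8) (.hit (nat_lit 201) (nat_lit 0) (nat_lit 0xbc0001780002ff668) b34844 (.tok (nat_lit 3) (nat_lit 0xbc0001780002ff5d1) (.hit (nat_lit 202) (nat_lit 1) (nat_lit 0xbc0001780002fdc3a) b34845 (.one (nat_lit 55) (nat_lit 203) (nat_lit 3) (nat_lit 0xbc0001780002ff5d1) b34846 (.nil))) (.tok (nat_lit 9) (nat_lit 0xbc0001780002ffef8) (.hit (nat_lit 204) (nat_lit 20) (nat_lit 0xbc0001780002fde2d) b34847 (.hit (nat_lit 207) (nat_lit 28) (nat_lit 0xbc0001780002fde5a) b34850 (.tok (nat_lit 67) (nat_lit 0xbc0001780002ffef8) (.hit (nat_lit 205) (nat_lit 21) (nat_lit 0xbc0001780002feb24) b34848 (.hit (nat_lit 208) (nat_lit 29) (nat_lit 0xbc0001780002ff895) b34851 (.one (nat_lit 9) (nat_lit 206) (nat_lit 22) (nat_lit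 0xbc0001780002ffef8) b34849 (.nil)))) (.nil)))) (.nil)))) (.nil))))
noncomputable def r18_4 : Rw Blk := .tok (nat_lit 3) (nat_lit 0xbc0001780003022ad) (.hit (nat_lit 15) (nat_lit 0) (nat_lit 0xbc000178000301322) b34863 (.tok (nat_lit 9) (nat_lit 0xbc0001780003002ee) (.hit (nat_lit 16) (nat_lit 20) (nat_lit 0xbc0001780002fd034) b34864 (.hit (nat_lit 21) (nat_lit 28) (nat_lit 0xbc0001780002fdf92) b34867 (.one (nat_lit 56) (nat_lit 23) (nat_lit 31) (nat_lit 0xbc0001780003002ee) b34868 (.tok (nat_lit 68) (nat_lit 0xbc0001780002fecdd) (.hit (nat_lit 19) (nat_lit 26) (nat_lit 0xbc0001780002fe13b) b34865 (.hit (nat_lit 24) (nat_lit 32) (nat_lit 0xbc0001780002fe78d) b34869 (.one (nat_lit 9) (nat_lit 20) (nat_lit 27) (nat_lit 0xbc0001780002fecdd) b34866 (.nil)))) (.nil))))) (.tok (nat_lit 64) (nat_lit 0xbc0001780002ffa36) (.hit (nat_lit 25) (nat_lit 50) (nat_lit 0xbc0001780002ff520) b34870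 (.hit (nat_lit 26) (nat_lit 51) (nat_lit 0xbc0001780002ffa36) b34871 (.nil))) (.tok (nat_lit 67) (nat_lit 0xbc0001780003022ad) (.hit (nat_lit 27) (nat_lit 52) (nat_lit 0xbc0001780003022ad) b34872 (.one (nat_lit 3) (nat_lit 33) (nat_lit 58) (nat_lit 0xbc0001780002febfd) b34878 (.tok (nat_lit 9) (nat_lit 0xbc0001780002ff3f4) (.hit (nat_lit 28) (nat_lit 53) (nat_lit 0xbc0001780002fece7) b34873 (.hit (nat_lit 31) (nat_lit 56) (nat_lit 0xbc0001780002fe985) b34876 (.tok (nat_lit 67) (nat_lit 0xbc0001780002ff3f4) (.hit (nat_lit 29) (nat_lit 54) (nat_lit 0xbc0001780002ff3f4) b34874 (.hit (nat_lit 32) (nat_lit 57) (nat_lit 0xbc0001780002ff36b) b34877 (.one (nat_lit 9) (nat_lit 30) (nat_lit 55) (nat_lit 0xbc0001780002fe881) b34875 (.nil)))) (.nil)))) (.nil)))) (.one (nat_lit 70) (nat_lit 35) (nat_lit 60) (nat_lit 0xbc000178000301eac) b34879 (.nil)))))) (.tok (nat_lit 6) (nat_lit 0xbc0001780003046ff)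 (.hit (nat_lit 0) (nat_lit 0) (nat_lit 0xbc0001780003014dd) b34852 (.tok (nat_lit 6) (nat_lit 0xbc0001780003016c6) (.hit (nat_lit 1) (nat_lit 7) (nat_lit 0xbc0001780002fe483) b34853 (.hit (nat_lit 4) (nat_lit 15) (nat_lit 0xbc0001780002fedd6) b34854 (.one (nat_lit 68) (nat_lit 6) (nat_lit 18) (nat_lit 0xbc0001780003016c6) b34855 (.nil)))) (.tok (nat_lit 52) (nat_lit 0xbc0001780003045d3) (.hit (nat_lit 7) (nat_lit 39) (nat_lit 0xbc0001780003045d3) b34856 (.hit (nat_lit 8) (nat_lit 40) (nat_lit 0xbc000178000301f1d) b34857 (.nil))) (.tok (nat_lit 55) (nat_lit 0xbc0001780003046ff) (.hit (nat_lit 9) (nat_lit 41) (nat_lit 0xbc0001780003037aa) b34858 (.one (nat_lit 3) (nat_lit 12) (nat_lit 47) (nat_lit 0xbc0001780003005f0) b34861 (.tok (nat_lit 6) (nat_lit 0xbc0001780003046ff) (.hit (nat_lit 10) (nat_lit 42) (nat_lit 0xbc0001780003046ff) b34859 (.hit (nat_lit 11) (nat_lit 45) (nat_lit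 0xbc000178000300a63) b34860 (.nil))) (.nil)))) (.one (nat_lit 58) (nat_lit 14) (nat_lit 49) (nat_lit 0xbc000178000304338) b34862 (.nil)))))) (.nil))
noncomputable def r18_5 : Rw Blk := .tok (nat_lit 6) (nat_lit 0xbc000178000301fd3) (.hit (nat_lit 0) (nat_lit 0) (nat_lit 0xbc000178000300585) b34880 (.one (nat_lit 26) (nat_lit 12) (nat_lit 72) (nat_lit 0xbc0001780003002ef) b34881 (.one (nat_lit 29) (nat_lit 13) (nat_lit 73) (nat_lit 0xbc0001780003008fb) b34882 (.one (nat_lit 32) (nat_lit 14) (nat_lit 74) (nat_lit 0xbc0001780002feed4) b34883 (.one (nat_lit 35) (nat_lit 15) (nat_lit 75) (nat_lit 0xbc000178000300470) b34884 (.one (nat_lit 38) (nat_lit 16) (nat_lit 76) (nat_lit 0xbc0001780002ff346) b34885 (.tok (nat_lit 41) (nat_lit 0xbc0001780002fef2c) (.hit (nat_lit 17) (nat_lit 77) (nat_lit 0xbc0001780002fe69c) b34886 (.hit (nat_lit 18) (nat_lit 78) (nat_lit 0xbc0001780002fef2c)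 b34887 (.nil))) (.tok (nat_lit 44) (nat_lit 0xbc0001780002ff9f2) (.hit (nat_lit 19) (nat_lit 79) (nat_lit 0xbc0001780002ff9f2) b34888 (.hit (nat_lit 20) (nat_lit 80) (nat_lit 0xbc0001780002fe4cb) b34889 (.nil))) (.tok (nat_lit 47) (nat_lit 0xbc0001780002ff8b6) (.hit (nat_lit 21) (nat_lit 81) (nat_lit 0xbc0001780002fe35f) b34890 (.hit (nat_lit 22) (nat_lit 82) (nat_lit 0xbc0001780002ff8b6) b34891 (.nil))) (.one (nat_lit 62) (nat_lit 23) (nat_lit 92) (nat_lit 0xbc000178000300b3d) b34892 (.tok (nat_lit 65) (nat_lit 0xbc0001780002ff73c) (.hit (nat_lit 24) (nat_lit 93) (nat_lit 0xbc0001780002ff530) b34893 (.hit (nat_lit 25) (nat_lit 94) (nat_lit 0xbc0001780002ff73c) b34894 (.nil))) (.tok (nat_lit 68) (nat_lit 0xbc000178000301fd3) (.hit (nat_lit 26) (nat_lit 95) (nat_lit 0xbc000178000301fd3) b34895 (.one (nat_lit 3) (nat_lit 30) (nat_lit 99) (nat_lit 0xbc0001780002ffb06) b34899 (.one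 (nat_lit 6) (nat_lit 27) (nat_lit 96) (nat_lit 0xbc0001780002ff633) b34896 (.tok (nat_lit 9) (nat_lit 0xbc0001780002ff89f) (.hit (nat_lit 28) (nat_lit 97) (nat_lit 0xbc0001780002ff89f) b34897 (.hit (nat_lit 29) (nat_lit 98) (nat_lit 0xbc0001780002fed3d) b34898 (.nil))) (.nil))))) (.one (nat_lit 71) (nat_lit 31) (nat_lit 100) (nat_lit 0xbc0001780002ff986) b34900 (.nil)))))))))))))) (.tok (nat_lit 52) (nat_lit 0xbc000178000304109) (.hit (nat_lit 45) (nat_lit 0) (nat_lit 0xbc000178000304109) b34912 (.tok (nat_lit 6) (nat_lit 0xbc0001780003036f8) (.hit (nat_lit 46) (nat_lit 7) (nat_lit 0xbc0001780003036f8) b34913 (.hit (nat_lit 47) (nat_lit 15) (nat_lit 0xbc000178000302d1a) b34914 (.nil))) (.tok (nat_lit 9) (nat_lit 0xbc000178000300e8a) (.hit (nat_lit 48) (nat_lit 20) (nat_lit 0xbc0001780002ffe91) b34915 (.hit (nat_lit 49) (nat_lit 28) (nat_lit 0xbc000178000300e8a) b34916 (.nil)))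 (.nil)))) (.tok (nat_lit 55) (nat_lit 0xbc000178000301e31) (.hit (nat_lit 40) (nat_lit 0) (nat_lit 0xbc0001780003019ef) b34908 (.one (nat_lit 3) (nat_lit 41) (nat_lit 1) (nat_lit 0xbc000178000300ada) b34909 (.tok (nat_lit 6) (nat_lit 0xbc000178000301e31) (.hit (nat_lit 43) (nat_lit 7) (nat_lit 0xbc000178000301e31) b34910 (.hit (nat_lit 44) (nat_lit 15) (nat_lit 0xbc000178000300159) b34911 (.nil))) (.nil)))) (.tok (nat_lit 58) (nat_lit 0xbc0001780003031f6) (.hit (nat_lit 32) (nat_lit 0) (nat_lit 0xbc000178000302238) b34901 (.one (nat_lit 3) (nat_lit 33) (nat_lit 1) (nat_lit 0xbc000178000302010) b34902 (.tok (nat_lit 9) (nat_lit 0xbc0001780003031f6) (.hit (nat_lit 35) (nat_lit 20) (nat_lit 0xbc0001780003024e8) b34903 (.hit (nat_lit 38) (nat_lit 28) (nat_lit 0xbc000178000301c9a) b34906 (.tok (nat_lit 67) (nat_lit 0xbc0001780003031f6) (.hit (nat_lit 36) (nat_lit 21) (nat_lit 0xbc000178000302b8c)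 b34904 (.hit (nat_lit 39) (nat_lit 29) (nat_lit 0xbc000178000303074) b34907 (.one (nat_lit 9) (nat_lit 37) (nat_lit 22) (nat_lit 0xbc0001780003031f6) b34905 (.nil)))) (.nil)))) (.nil)))) (.nil))))
noncomputable def r18_6 : Rw Blk := .tok (nat_lit 3) (nat_lit 0xbc000178000303e62) (.hit (nat_lit 0) (nat_lit 0) (nat_lit 0xbc000178000303e62) b34917 (.tok (nat_lit 9) (nat_lit 0xbc0001780003028f8) (.hit (nat_lit 1) (nat_lit 20) (nat_lit 0xbc0001780002ff8aa) b34918 (.hit (nat_lit 6) (nat_lit 28) (nat_lit 0xbc0001780002ffe2e) b34923 (.tok (nat_lit 14) (nat_lit 0xbc000178000302586) (.hit (nat_lit 2) (nat_lit 24) (nat_lit 0xbc00017800030145f) b34919 (.hit (nat_lit 7) (nat_lit 30) (nat_lit 0xbc000178000302586) b34924 (.one (nat_lit 6) (nat_lit 3) (nat_lit 25) (nat_lit 0xbc0001780003011fa) b34920 (.nil)))) (.tok (nat_lit 68) (nat_lit 0xbc0001780003028f8) (.hit (nat_lit 4) (nat_lit 26) (nat_lit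 0xbc000178000300b26) b34921 (.hit (nat_lit 8) (nat_lit 32) (nat_lit 0xbc000178000301dab) b34925 (.one (nat_lit 9) (nat_lit 5) (nat_lit 27) (nat_lit 0xbc0001780003028f8) b34922 (.nil)))) (.nil))))) (.nil))) (.tok (nat_lit 6) (nat_lit 0xbc000178000306293) (.hit (nat_lit 20) (nat_lit 0) (nat_lit 0xbc000178000305024) b34926 (.tok (nat_lit 6) (nat_lit 0xbc000178000306293) (.hit (nat_lit 21) (nat_lit 7) (nat_lit 0xbc00017800030383c) b34927 (.hit (nat_lit 24) (nat_lit 15) (nat_lit 0xbc000178000303063) b34930 (.tok (nat_lit 14) (nat_lit 0xbc000178000306293) (.hit (nat_lit 22) (nat_lit 11) (nat_lit 0xbc000178000304ead) b34928 (.hit (nat_lit 25) (nat_lit 17) (nat_lit 0xbc000178000303c09) b34931 (.one (nat_lit 9) (nat_lit 23) (nat_lit 12) (nat_lit 0xbc000178000306293) b34929 (.nil)))) (.nil)))) (.nil))) (.nil))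
noncomputable def r18_7 : Rw Blk := .tok (nat_lit 6) (nat_lit 0xbc0001780003002ba) (.hit (nat_lit 0) (nat_lit 0) (nat_lit 0xbc0001780002fda75) b34932 (.tok (nat_lit 14) (nat_lit 0xbc0001780003002ba) (.hit (nat_lit 21) (nat_lit 61) (nat_lit 0xbc0001780002ff47a) b34933 (.one (nat_lit 3) (nat_lit 22) (nat_lit 62) (nat_lit 0xbc0001780002fe710) b34934 (.tok (nat_lit 6) (nat_lit 0xbc0001780002fe786) (.hit (nat_lit 25) (nat_lit 65) (nat_lit 0xbc0001780002fd4be) b34937 (.hit (nat_lit 26) (nat_lit 66) (nat_lit 0xbc0001780002fe786) b34938 (.nil))) (.tok (nat_lit 9) (nat_lit 0xbc0001780003002ba) (.hit (nat_lit 23) (nat_lit 63) (nat_lit 0xbc0001780003002ba) b34935 (.hit (nat_lit 24) (nat_lit 64) (nat_lit 0xbc0001780002fec05) b34936 (.nil))) (.nil))))) (.one (nat_lit 17) (nat_lit 27) (nat_lit 67) (nat_lit 0xbc0001780002fdd28) b34939 (.tok (nat_lit 20) (nat_lit 0xbc0001780002fe62c) (.hit (nat_lit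 28) (nat_lit 68) (nat_lit 0xbc0001780002fe62c) b34940 (.hit (nat_lit 29) (nat_lit 69) (nat_lit 0xbc0001780002fd9fa) b34941 (.nil))) (.tok (nat_lit 23) (nat_lit 0xbc0001780002fdcfe) (.hit (nat_lit 30) (nat_lit 70) (nat_lit 0xbc0001780002fcd3f) b34942 (.hit (nat_lit 31) (nat_lit 71) (nat_lit 0xbc0001780002fdcfe) b34943 (.nil))) (.one (nat_lit 26) (nat_lit 32) (nat_lit 72) (nat_lit 0xbc0001780002fd594) b34944 (.one (nat_lit 29) (nat_lit 33) (nat_lit 73) (nat_lit 0xbc0001780002fd3e9) b34945 (.one (nat_lit 32) (nat_lit 34) (nat_lit 74) (nat_lit 0xbc0001780002fcbe1) b34946 (.one (nat_lit 35) (nat_lit 35) (nat_lit 75) (nat_lit 0xbc0001780002fdb66) b34947 (.one (nat_lit 50) (nat_lit 43) (nat_lit 83) (nat_lit 0xbc0001780002fe2f2) b34948 (.tok (nat_lit 53) (nat_lit 0xbc0001780002fe4db) (.hit (nat_lit 44) (nat_lit 84) (nat_lit 0xbc0001780002fe4db) b34949 (.hit (nat_lit 45) (nat_lit 85)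 (nat_lit 0xbc0001780002fe067) b34950 (.nil))) (.tok (nat_lit 56) (nat_lit 0xbc0001780002ffaef) (.hit (nat_lit 46) (nat_lit 86) (nat_lit 0xbc0001780002ff299) b34951 (.one (nat_lit 3) (nat_lit 50) (nat_lit 90) (nat_lit 0xbc0001780002fe80c) b34955 (.tok (nat_lit 6) (nat_lit 0xbc0001780002ffaef) (.hit (nat_lit 48) (nat_lit 88) (nat_lit 0xbc0001780002ffaef) b34953 (.hit (nat_lit 49) (nat_lit 89) (nat_lit 0xbc0001780002fe6fc) b34954 (.nil))) (.one (nat_lit 9) (nat_lit 47) (nat_lit 87) (nat_lit 0xbc0001780002ff78c) b34952 (.nil))))) (.one (nat_lit 59) (nat_lit 51) (nat_lit 91) (nat_lit 0xbc0001780002fdb55) b34956 (.one (nat_lit 62) (nat_lit 52) (nat_lit 92) (nat_lit 0xbc0001780002fd770) b34957 (.tok (nat_lit 65) (nat_lit 0xbc0001780002fd449) (.hit (nat_lit 53) (nat_lit 93) (nat_lit 0xbc0001780002fcf74) b34958 (.hit (nat_lit 54) (nat_lit 94) (nat_lit 0xbc0001780002fd449) b34959 (.nil)))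 (.tok (nat_lit 68) (nat_lit 0xbc0001780002fdb51) (.hit (nat_lit 55) (nat_lit 95) (nat_lit 0xbc0001780002fdb51) b34960 (.one (nat_lit 3) (nat_lit 59) (nat_lit 99) (nat_lit 0xbc0001780002fcb6a) b34964 (.one (nat_lit 6) (nat_lit 56) (nat_lit 96) (nat_lit 0xbc0001780002fca09) b34961 (.tok (nat_lit 9) (nat_lit 0xbc0001780002fce98) (.hit (nat_lit 57) (nat_lit 97) (nat_lit 0xbc0001780002fce98) b34962 (.hit (nat_lit 58) (nat_lit 98) (nat_lit 0xbc0001780002fcc46) b34963 (.nil))) (.nil))))) (.one (nat_lit 71) (nat_lit 60) (nat_lit 100) (nat_lit 0xbc0001780002fd779) b34965 (.nil)))))))))))))))))) (.tok (nat_lit 52) (nat_lit 0xbc0001780002ffa00) (.hit (nat_lit 176) (nat_lit 0) (nat_lit 0xbc0001780002ff816) b34966 (.tok (nat_lit 6) (nat_lit 0xbc0001780002ffa00) (.hit (nat_lit 177) (nat_lit 7) (nat_lit 0xbc0001780002ffa00) b34967 (.hit (nat_lit 178) (nat_lit 15) (nat_lit 0xbc0001780002fe9df)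 b34968 (.nil))) (.tok (nat_lit 9) (nat_lit 0xbc0001780002ff21a) (.hit (nat_lit 179) (nat_lit 20) (nat_lit 0xbc0001780002fe3db) b34969 (.hit (nat_lit 180) (nat_lit 28) (nat_lit 0xbc0001780002ff21a) b34970 (.nil))) (.nil)))) (.tok (nat_lit 55) (nat_lit 0xbc0001780002ffd3c) (.hit (nat_lit 187) (nat_lit 0) (nat_lit 0xbc0001780002ffd3c) b34971 (.tok (nat_lit 3) (nat_lit 0xbc0001780002fea32) (.hit (nat_lit 188) (nat_lit 1) (nat_lit 0xbc0001780002fdced) b34972 (.one (nat_lit 67) (nat_lit 189) (nat_lit 2) (nat_lit 0xbc0001780002fea32) b34973 (.nil))) (.tok (nat_lit 6) (nat_lit 0xbc0001780002ff362) (.hit (nat_lit 190) (nat_lit 7) (nat_lit 0xbc0001780002fd9cc) b34974 (.hit (nat_lit 193) (nat_lit 15) (nat_lit 0xbc0001780002fdd00) b34977 (.tok (nat_lit 55) (nat_lit 0xbc0001780002ff362) (.hit (nat_lit 191) (nat_lit 8) (nat_lit 0xbc0001780002fe94b) b34975 (.hit (nat_lit 194) (nat_lit 16) (nat_lit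 0xbc0001780002febf6) b34978 (.one (nat_lit 6) (nat_lit 192) (nat_lit 9) (nat_lit 0xbc0001780002ff362) b34976 (.nil)))) (.nil)))) (.nil)))) (.tok (nat_lit 58) (nat_lit 0xbc000178000300f2b) (.hit (nat_lit 201) (nat_lit 0) (nat_lit 0xbc0001780002ff034) b34979 (.tok (nat_lit 3) (nat_lit 0xbc0001780002ff6a0) (.hit (nat_lit 202) (nat_lit 1) (nat_lit 0xbc0001780002fde19) b34980 (.one (nat_lit 55) (nat_lit 203) (nat_lit 3) (nat_lit 0xbc0001780002ff6a0) b34981 (.nil))) (.tok (nat_lit 9) (nat_lit 0xbc000178000300f2b) (.hit (nat_lit 204) (nat_lit 20) (nat_lit 0xbc0001780002fe576) b34982 (.hit (nat_lit 207) (nat_lit 28) (nat_lit 0xbc0001780002fdc2d) b34985 (.tok (nat_lit 67) (nat_lit 0xbc000178000300f2b) (.hit (nat_lit 205) (nat_lit 21) (nat_lit 0xbc0001780002ff21b) b34983 (.hit (nat_lit 208) (nat_lit 29) (nat_lit 0xbc0001780002ff5ec) b34986 (.one (nat_lit 9) (nat_lit 206) (nat_lit 22) (nat_lit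 0xbc000178000300f2b) b34984 (.nil)))) (.nil)))) (.nil)))) (.nil))))
noncomputable def r18_8 : Rw Blk := .tok (nat_lit 3) (nat_lit 0xbc0001780003017e5) (.hit (nat_lit 15) (nat_lit 0) (nat_lit 0xbc0001780002fe46c) b34998 (.tok (nat_lit 9) (nat_lit 0xbc0001780002fd90e) (.hit (nat_lit 16) (nat_lit 20) (nat_lit 0xbc0001780002fc339) b34999 (.hit (nat_lit 21) (nat_lit 28) (nat_lit 0xbc0001780002fa280) b35002 (.one (nat_lit 56) (nat_lit 23) (nat_lit 31) (nat_lit 0xbc0001780002fcb78) b35003 (.tok (nat_lit 68) (nat_lit 0xbc0001780002fd90e) (.hit (nat_lit 19) (nat_lit 26) (nat_lit 0xbc0001780002fcee0) b35000 (.hit (nat_lit 24) (nat_lit 32) (nat_lit 0xbc0001780002fc6f9) b35004 (.one (nat_lit 9) (nat_lit 20) (nat_lit 27) (nat_lit 0xbc0001780002fd90e) b35001 (.nil)))) (.nil))))) (.tok (nat_lit 64) (nat_lit 0xbc0001780002fd55a) (.hit (nat_lit 25) (nat_lit 50) (nat_lit 0xbc0001780002fd55a) b35005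 (.hit (nat_lit 26) (nat_lit 51) (nat_lit 0xbc0001780002fd0f3) b35006 (.nil))) (.tok (nat_lit 67) (nat_lit 0xbc0001780003017e5) (.hit (nat_lit 27) (nat_lit 52) (nat_lit 0xbc0001780003017e5) b35007 (.one (nat_lit 3) (nat_lit 33) (nat_lit 58) (nat_lit 0xbc0001780002fdc7f) b35013 (.tok (nat_lit 9) (nat_lit 0xbc0001780002fe2fa) (.hit (nat_lit 28) (nat_lit 53) (nat_lit 0xbc0001780002fd2cf) b35008 (.hit (nat_lit 31) (nat_lit 56) (nat_lit 0xbc0001780002fd03d) b35011 (.tok (nat_lit 67) (nat_lit 0xbc0001780002fe2fa) (.hit (nat_lit 29) (nat_lit 54) (nat_lit 0xbc0001780002fe2fa) b35009 (.hit (nat_lit 32) (nat_lit 57) (nat_lit 0xbc0001780002fdc43) b35012 (.one (nat_lit 9) (nat_lit 30) (nat_lit 55) (nat_lit 0xbc0001780002fd460) b35010 (.nil)))) (.nil)))) (.nil)))) (.one (nat_lit 70) (nat_lit 35) (nat_lit 60) (nat_lit 0xbc0001780002fe0d0) b35014 (.nil)))))) (.tok (nat_lit 6) (nat_lit 0xbc000178000302bad)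 (.hit (nat_lit 0) (nat_lit 0) (nat_lit 0xbc0001780002fefce) b34987 (.tok (nat_lit 6) (nat_lit 0xbc0001780002feb7b) (.hit (nat_lit 1) (nat_lit 7) (nat_lit 0xbc0001780002fe557) b34988 (.hit (nat_lit 4) (nat_lit 15) (nat_lit 0xbc0001780002fcd76) b34989 (.one (nat_lit 68) (nat_lit 6) (nat_lit 18) (nat_lit 0xbc0001780002feb7b) b34990 (.nil)))) (.tok (nat_lit 52) (nat_lit 0xbc00017800030031c) (.hit (nat_lit 7) (nat_lit 39) (nat_lit 0xbc00017800030031c) b34991 (.hit (nat_lit 8) (nat_lit 40) (nat_lit 0xbc0001780002feda3) b34992 (.nil))) (.tok (nat_lit 55) (nat_lit 0xbc000178000302bad) (.hit (nat_lit 9) (nat_lit 41) (nat_lit 0xbc000178000302bad) b34993 (.one (nat_lit 3) (nat_lit 12) (nat_lit 47) (nat_lit 0xbc0001780002ffc31) b34996 (.tok (nat_lit 6) (nat_lit 0xbc0001780003007c6) (.hit (nat_lit 10) (nat_lit 42) (nat_lit 0xbc0001780003007c6) b34994 (.hit (nat_lit 11) (nat_lit 45) (nat_lit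 0xbc0001780002ff94d) b34995 (.nil))) (.nil)))) (.one (nat_lit 58) (nat_lit 14) (nat_lit 49) (nat_lit 0xbc0001780002fe444) b34997 (.nil)))))) (.nil))
noncomputable def r18_9 : Rw Blk := .tok (nat_lit 3) (nat_lit 0xbfd7fd7f2ddaff4945fd990bfc1197f99cafee215fdb30bfb4257f826afebcd5fd78ebff1d5800002ff863600000bffe757fdec2ff3095fe478c00001800003000005fea9ebff1d17f997300086) (.hit (nat_lit 0) (nat_lit 0) (nat_lit 0xbf45557e5052fd2155fb67ebf777d7eb52afd3445fa3fabf3e517eb2aafe1535facd0bfb2657f2242fd6c05fd316bfa4a17f0fb2fdbeb5fbd0cbfac1d7f6242fed425fbd06bf79017ee84afdf7f) b35015 (.tok (nat_lit 6) (nat_lit 0xbf48ed7e38dafece25fb43cbf67c17e8d1afcf525f9020bf54217e6c1afc7035fa46cbf83257ed0aafcf6d5fb386bf65b57fa5d2fc5ca5f8a82bfacd97f5912ff15c5fcab6bfc01d7f4a3afe2c9) (.hit (nat_lit 1) (nat_lit 7) (nat_lit 0xbef7897d9612fd7345f8b8abf165d7dea52fbaf95f676ebf02bd7dc952fb2aa5f7bbabf329d7deefafbb145f7aaebf0ff57f2432fb1715f61d0bf06d57e2852fdd3e5f9e06bf5a9d7e6992fce7e)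 b35016 (.hit (nat_lit 6) (nat_lit 15) (nat_lit 0xbeedcd7d829afcbbe5f86acbf0ca17dd6dafb88a5f6290bef9017db5dafb03b5f76dcbf58457e9722fb8a55fb386bf65b57ec1e2faf025f5cf2bf69ad7efeaafd7de5f9ab2bf2c957ea6e2fcd3b) b35021 (.tok (nat_lit 14) (nat_lit 0xbf43797e2df2fe9205fb182bf624d7e8232fcdf55f8d66bf4ead7e6132fc5a65fa1b2bf83257ed0aafce105faf7cbf607d7fa5d2fc46d5f87c8bfacd97f5912ff15c5fcab6bfc01d7f4a3afe2c9) (.hit (nat_lit 2) (nat_lit 11) (nat_lit 0xbf11f97dcaf2fdf435f98c2bf30cd7e1f32fc1955f74a6bf1d2d7dfe32fb9465f88f2bf2f797df262fc1b05f800abf0cd17f6ae2fb80d5f6f08bf03b17e220afeeee5fbb70bfa3317f18dafdc78) b35017 (.hit (nat_lit 7) (nat_lit 17) (nat_lit 0xbf0e057dc30afd4f25f96c8bf2cd97e174afc0985f72acbf19397df64afb8495f86f8bf78817ed0aafc0b35faf7cbf60717ec20afb7105f6d0ebfacd97f5912fd76a5f9264bf2b397eea22fd452) b35022 (.one (nat_lit 9) (nat_lit 3) (nat_lit 12) (nat_lit 0xbf43797e2df2fe9205fb182bf624d7e8232fcdf55f8d66bf4ead7e6132fc5a65fa1b2bf83257e900afce105fa2f2bf607d7fa5d2fc46d5f87c8bf575d7ec962ff15c5fcab6bfc01d7f4a3afe2c9)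 b35018 (.nil)))) (.tok (nat_lit 56) (nat_lit 0xbf48ed7e38dafece25fb43cbf67c17e8d1afcf525f9020bf54217e6c1afc7035fa46cbf7da17ea172fcf6d5fa564bf5af97f8282fc5ca5f8a82bf91797f2d8aff02a5fc8eabfb59d7f1cf2fdad0) (.hit (nat_lit 4) (nat_lit 13) (nat_lit 0xbf284d7df79afe1845fa3ecbf47217e4bdafc72a5f7fd0bf33817e2adafbedb5f941cbf7da17e8502fc7455fa030bf5af97f8282fbda25f7a32bf51d97ebe5aff02a5fbd10bfa67d7ef65afda3f) b35019 (.hit (nat_lit 9) (nat_lit 19) (nat_lit 0xbf17dd7dd6bafd6885f9bb4bf36b17e2afafc30e5f7798bf23117e09fafbabf5f8be4bf61357ea172fc3295fa564bf4da97e8f62fb9865f71fabf91797f2d8afdb2d5fa0a6bf44497ec1bafcf31) b35023 (.one (nat_lit 6) (nat_lit 5) (nat_lit 14) (nat_lit 0xbf48ed7e38dafece25fb43cbf67c17e8d1afcf525f9020bf54217e6c1afc7035fa46cbf666d7e604afcf6d5f9b84bf43c57f7652fc5ca5f8a82bf3aa57e8ff2fec105fc8eabfb59d7f1cf2fdad0) b35020 (.nil)))) (.nil))))) (.tok (nat_lit 52) (nat_lit 0xbf1dc57de28afdd595f9ea8bf3c997e36cafc4885f7a8cbf28f97e15cafbc395f8ed8bfb1617f6732fc4a35fe194bfc0d17f016afbb005f74eebfa2dd7f60e2fef7c5fc2e4bf90e57f03a2fd715)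 (.hit (nat_lit 19) (nat_lit 39) (nat_lit 0xbf111d7dc93afd01a5f9854bf2ff17e1d7afc15e5f7438bf1c517dfc7afb90f5f8884bf87697ea8d2fc1795faef4bf74357e469afb7d65f6e9abfa2dd7f60e2fef7c5fb900bf646d7ee7f2fd3f8) b35024 (.hit (nat_lit 20) (nat_lit 40) (nat_lit 0xbf1dc57de28afdd595f9ea8bf3c997e36cafc4885f7a8cbf28f97e15cafbc395f8ed8bfb1617f6732fc4a35fe194bfc0d17f016afbb005f74eebfa2117f4a1afe6e15fc2e4bf90e57f03a2fd715) b35025 (.nil))) (.tok (nat_lit 55) (nat_lit 0xbfd7fd7f2ddaff4945fd990bfc1197f99cafee215fdb30bfb4257f826afebcd5fd78ebff1d5800002ff8635ff7a2bfdeed7fdec2ff3095fe478bfd8917fa813000005fea9ebff1d17f997300086) (.hit (nat_lit 21) (nat_lit 41) (nat_lit 0xbfd7fd7f1542ff2bc5fd990bfc1197f99cafee215fdb30bfb4257f826afebcd5fd78ebff1d5800002ff8635ff7a2bfdeed7fdec2ff3095fe478bfd8917fa812ffe3e5fea9ebfe4ed7f8fab00086) b35026 (.tok (nat_lit 3) (nat_lit 0xbf60417e6782ff4945fbfe6bf7f157ebbc2fd5275f9bcabf6b757e9ac2fccd85fb016bfadb17ee522fd5425fb838bf8b097fd04afcb9f5f962cbf81e97f1e7b000005fe28cbfe4317f9972ff1db)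 (.hit (nat_lit 27) (nat_lit 47) (nat_lit 0xbf41a57e2a4afe8205fb098bf60797e7e8afcd805f8c7cbf4cd97e5d8afc5315fa0c8bf8fad7ea91afcd9b5fa936bf6d057fc0a2fc3f85f86debf63e57ee272ffcef5fd6d8bfdd057f67e2fe6d1) b35032 (.one (nat_lit 67) (nat_lit 28) (nat_lit 48) (nat_lit 0xbf60417e6782ff4945fbfe6bf7f157ebbc2fd5275f9bcabf6b757e9ac2fccd85fb016bfadb17ee522fd5425fb838bf8b097fd04afcb9f5f962cbf81e97f1e7b000005fe28cbfe4317f9972ff1db) b35033 (.nil))) (.tok (nat_lit 6) (nat_lit 0xbfa52d7f2ddafed2a5fd4fcbfbfb97f4552fdc285fa9ccbf87797ed2cafd3d95fbe18bfad4d7ee45afdc435fb806bf8aa57f814afd2a05fa42ebf81857f1db2fff7f5fe756bff1d17f5beafe379) (.hit (nat_lit 22) (nat_lit 42) (nat_lit 0xbf6c997eae62fe4f95fd4fcbfbfb97f4552fd2a75f96cabf61757e86c2fca585fab16bf99517ebc62fd2c25fae08bf76a97f52dafc91f5f912cbf6d897ef5bafff7f5fe090bfb1ed7f1e1afe085) b35027 (.hit (nat_lit 25) (nat_lit 45) (nat_lit 0xbf43097e2d12fe3ed5fb14abf61dd7e8152fcdd95f8d2ebf4e3d7e6052fc58a5fa17abf66f17e57a2fcdf45f9892bf44497f7caafc4515f8790bf3b297e90faff5a85fd072bfedc17f37cafdd84)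 b35030 (.tok (nat_lit 55) (nat_lit 0xbfa52d7f2ddafed2a5fcf30bfb43d7f369afdc285fa9ccbf87797ed2cafd3d95fbe18bfad4d7ee45afdc435fb806bf8aa57f814afd2a05fa42ebf81857f1db2ff4775fe756bff1d17f5beafe379) (.hit (nat_lit 23) (nat_lit 43) (nat_lit 0xbfa52d7f2ddafe5ef5fcf30bfb43d7f369afdc285fa9ccbf87797ed2cafd3d95fbe18bfad4d7ee45afdc435fb806bf8aa57f5172fd2a05fa42ebf81857f1db2ff3285fd5b4bfa2717f0f52fdd8a) b35028 (.hit (nat_lit 26) (nat_lit 46) (nat_lit 0xbf6d317e8162fed2a5fc65ebf8c057ed5a2fd8635fa242bf78657eb4a2fd0145fb68ebf87ad7ea8d2fd87e5fada6bf65057f814afcedb5f9ca4bf5be57ed272ff4775fd754bff1d17f5beafe379) b35031 (.one (nat_lit 6) (nat_lit 24) (nat_lit 44) (nat_lit 0xbf66d57e74aafe5085fc330bf85a97ec8eafd6cc5f9f14bf72097ea7eafce7d5fb360bf627d7e9c1afd6e75faa78bf54e17ef20afcd445f9976bf41a17eaf42ff0785fe756bfa2417f05aafd853) b35029 (.nil)))) (.nil)))) (.nil)))) (.one (nat_lit 58) (nat_lit 29)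 (nat_lit 49) (nat_lit 0xbf3e857e240afe4155faf08bf5d597e784afccb85f8aecbf49b97e574afc4695f9f38bfede17fc29afccd3600000bffe757f627afc3305f854ec00001800002ff7b95fd49cbfaab57f7d82fe65d) b35034 (.nil)))))) (.tok (nat_lit 9) (nat_lit 0xc0000180000300000600000c0000180000300000600000c0000180000300000600000c000017fde1b000005ffea8c0000180000300000600000bfedb57ff8aaffe33600154c00001800002ff5ec) (.hit (nat_lit 157) (nat_lit 0) (nat_lit 0xbf96697f24e2fddf35fd6e6bfb8757f549afea6c5fd4d8bfa0257f44dafecdc5fc8c6bfa6c97f3742fe96a5fdd76bfb9617fa832febae5fdc92bfa6bd7f6962fe65c5fc33ebfa8197f2892fdb25) b35035 (.tok (nat_lit 9) (nat_lit 0xc0000180000300000600000c0000180000300000600000c0000180000300000600000c000017fde1b000005ffea8c0000180000300000600000bfedb57ff8aaffe33600154c00001800002ff5ec) (.hit (nat_lit 163) (nat_lit 20) (nat_lit 0xbf6f497ec51afd6035fb330bf6ed97f319afdb2e5fb738bf63157ee0eafe0945fa71ebf5f897e8c92fdbd05fb298bf63617f5a42fe5405fc0d6bf5dc97ed76afd8755fa3d6bf60b97eb702fcfef)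 b35036 (.hit (nat_lit 171) (nat_lit 28) (nat_lit 0xbf38d97df11afd30d5f835ebf0dfd7e955afca8f5f951ebf20957e5e9afda7a5f9754bf44a57e986afda8c5fac20bf57697efcf2fd8455fb1dcbf3c057e86cafd2c85f9030bf24257e9fd2fcbc6) b35041 (.tok (nat_lit 14) (nat_lit 0xc0000180000300000600000c0000180000300000600000c00001800002ffee3600000c000017fde1b000005ffea8c0000180000300000600000bfedb57ff8aaffe33600154c00001800002ff5ec) (.hit (nat_lit 167) (nat_lit 24) (nat_lit 0xbff2b17fdda2ffeae5ff8c2bffd297fcdd2ffc765ff94ebfe8297fe9caffbf05fedeabfdb257f9562ff9ec5feffcbfde6d7fe932ffa515ff156bfcc457fb27aff6b75fe328bfe1f17fe7baff5ec) b35037 (.hit (nat_lit 173) (nat_lit 30) (nat_lit 0xbfaac97ece4aff3195fbf4abf7e257f4842fe3985fc730bf84b97f0942ff0ce5fcbb8bf99e17f59faff1335fd7b6bfaec57f8822ff1d45fe7dabfa5d57f5d92fda7e5f9764bf2b557f819afdc2c) b35042 (.one (nat_lit 6) (nat_lit 168) (nat_lit 25) (nat_lit 0xc0000180000300000600000c0000180000300000600000c00001800002ffee3600000c000017fde1b000005ffea8c0000180000300000600000bfedb57ff8aaffe33600154c00001800002ff46b)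 b35038 (.nil)))) (.one (nat_lit 56) (nat_lit 174) (nat_lit 31) (nat_lit 0xbf8b357e9c6afe4955fb260bf62297f105afdc985fb930bf68b97ed142fe5965fb782bf89097f0f4aff1105fcbe8bf96857f98dafe8e95fd244bf8e097f21c2fe8075fba9cbf72257eff3afdbda) b35043 (.tok (nat_lit 68) (nat_lit 0xbfd5897fb72aff0395fe1f8bfc4e17f9982fecac5fda2cbfb0697f781b000005fd684bfb4a97f3cdafec035fd65ebfb2297f8cb2ff0795fed8cbfaf797f882aff2ff5fdbb0bfc4117f6cf2fee36) (.hit (nat_lit 169) (nat_lit 26) (nat_lit 0xbfd5897f7bb2fef8b5fe1f8bfc4e17f9982fecac5fda2cbfb0697f781aff42d5fd684bfb4057f3cdafec035fd65ebfb2297f679afebcd5fde88bfaa1d7f705afed0f5fcb50bf9e897f2ed2fe2de) b35039 (.hit (nat_lit 175) (nat_lit 32) (nat_lit 0xbf8c757e9872fdcb15fb1eabf60e57f0bfafdab45fb616bf63717ecc9afe3b55fb632bf88bd7ef30afea125fc69ebf8c157f141afe5625fcfe6bf79d97f12cafd7935f9a8ebf440d7ef19afd1fd) b35044 (.one (nat_lit 9) (nat_lit 170) (nat_lit 27) (nat_lit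 0xbfadd57fb72aff0395fc540bf89c97f6a42fe0e15fc1c2bf79dd7f2343000005fd51abfb4a97f0402fe9005fd0acbfa08d7f8cb2ff0795fed8cbfaf797f882aff2ff5fdbb0bfc4117f6cf2fee36) b35040 (.nil)))) (.nil)))))) (.nil))) (.nil))
noncomputable def r18_10 : Rw Blk := .tok (nat_lit 6) (nat_lit 0x5e0000bc00017f9b92ffc4d5ff1e0bfdb6d7fb42aff2e8) (.hit (nat_lit 51) (nat_lit 0) (nat_lit 0x5e0000bc00017ee012fefa65fcba2bfaa017f0e6afd7bd) b35045 (.tok (nat_lit 14) (nat_lit 0x5e0000bc00017f3e4aff7295fe604bfd8017f79fafe72c) (.hit (nat_lit 62) (nat_lit 61) (nat_lit 0x5e0000bc00017f3e4afed055fcc90bf9d657f0102fd655) b35046 (.one (nat_lit 3) (nat_lit 63) (nat_lit 62) (nat_lit 0x5e0000bc00017f31a2fe0445fb3f6bf6abd7ea3dafc70d) b35047 (.tok (nat_lit 6) (nat_lit 0x5e0000bc00017eeb42fe5825fc11cbf80697ed2dafcc19) (.hit (nat_lit 66) (nat_lit 65) (nat_lit 0x5e0000bc00017e9972fd5815fafe8bf60b17e8a2afcafe) b35050 (.hit (nat_lit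 67) (nat_lit 66) (nat_lit 0x5e0000bc00017eeb42fe5825fc11cbf80697ed2dafcc19) b35051 (.nil))) (.tok (nat_lit 9) (nat_lit 0x5e0000bc00017f2252ff7295fe604bfd8017f79fafe72c) (.hit (nat_lit 64) (nat_lit 63) (nat_lit 0x5e0000bc00017f2252ff7295fe604bfd8017f79fafe72c) b35048 (.hit (nat_lit 65) (nat_lit 64) (nat_lit 0x5e0000bc00017ef67afe2005fb7a4bf73417ebc5afcaf4) b35049 (.nil))) (.nil))))) (.one (nat_lit 17) (nat_lit 68) (nat_lit 67) (nat_lit 0x5e0000bc00017ee172fda745fa140bf54697e60cafbfa5) b35052 (.tok (nat_lit 20) (nat_lit 0x5e0000bc00017f89faff7885fe798bfce517f7ab2feaae) (.hit (nat_lit 69) (nat_lit 68) (nat_lit 0x5e0000bc00017f89faff7885fe798bfce517f7ab2feaae) b35053 (.hit (nat_lit 70) (nat_lit 69) (nat_lit 0x5e0000bc00017eeceafdbaf5fa358bf59657e6adafbfe2) b35054 (.nil))) (.tok (nat_lit 23) (nat_lit 0x5e0000bc00017ed752fd93e5f9e8abf4f5d7e56e2fbe7c) (.hit (nat_lit 71) (nat_lit 70)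 (nat_lit 0x5e0000bc00017df9aafc1885f87f6bf10cd7dea62fb705) b35055 (.hit (nat_lit 72) (nat_lit 71) (nat_lit 0x5e0000bc00017ed752fd93e5f9e8abf4f5d7e56e2fbe7c) b35056 (.nil))) (.one (nat_lit 26) (nat_lit 73) (nat_lit 72) (nat_lit 0x5e0000bc00017e5f62fcbf45f83eabf1a257dec5afb111) b35057 (.one (nat_lit 29) (nat_lit 74) (nat_lit 73) (nat_lit 0x5e0000bc00017e5882fcd285f8626bf1edd7df5cafb241) b35058 (.one (nat_lit 32) (nat_lit 75) (nat_lit 74) (nat_lit 0x5e0000bc00017e4caafc8065f7bf6bf0abd7dcdaafac0e) b35059 (.one (nat_lit 35) (nat_lit 76) (nat_lit 75) (nat_lit 0x5e0000bc00017ea122fd4685f94d0bf3be17e2fd2fb97b) b35060 (.one (nat_lit 38) (nat_lit 77) (nat_lit 76) (nat_lit 0x5e0000bc00017ed3aafd8c45f9d8cbf4d697e52e2fbdd3) b35061 (.tok (nat_lit 41) (nat_lit 0x5e0000bc00017ee8fafdbed5fa3b0bf59e17e6cdafc126) (.hit (nat_lit 78) (nat_lit 77) (nat_lit 0x5e0000bc00017ea56afc94f5f8baabf10357dfe1afb394)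 b35062 (.hit (nat_lit 79) (nat_lit 78) (nat_lit 0x5e0000bc00017ee8fafdbed5fa3b0bf59e17e6cdafc126) b35063 (.nil))) (.tok (nat_lit 44) (nat_lit 0x5e0000bc00017efb6afdd305fa62cbf55dd7e85fafca83) (.hit (nat_lit 80) (nat_lit 79) (nat_lit 0x5e0000bc00017efb6afdd305fa62cbf55dd7e85fafca83) b35064 (.hit (nat_lit 81) (nat_lit 80) (nat_lit 0x5e0000bc00017e9972fd13d5f8e66bf2f9d7e177afb582) b35065 (.nil))) (.tok (nat_lit 47) (nat_lit 0x5e0000bc00017efe42fda525fa868bf62cd7e7dc2fc353) (.hit (nat_lit 82) (nat_lit 81) (nat_lit 0x5e0000bc00017d532afacb85f5e56bebd8d7d43e2fa235) b35066 (.hit (nat_lit 83) (nat_lit 82) (nat_lit 0x5e0000bc00017efe42fda525fa868bf62cd7e7dc2fc353) b35067 (.nil))) (.one (nat_lit 50) (nat_lit 84) (nat_lit 83) (nat_lit 0x5e0000bc00017ed40afd9ac5f9f5abf51097e5a22fbebe) b35068 (.tok (nat_lit 53) (nat_lit 0x5e0000bc00017edb3afd8bc5fa89ebf60417e8072fc394) (.hit (nat_lit 85)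 (nat_lit 84) (nat_lit 0x5e0000bc00017e11aafc84a5f98fcbf22257e0dc2fba0f) b35069 (.hit (nat_lit 86) (nat_lit 85) (nat_lit 0x5e0000bc00017edb3afd8bc5fa89ebf60417e8072fc394) b35070 (.nil))) (.tok (nat_lit 56) (nat_lit 0x5e0000bc00017f9b92ffc4d5ff1e0bfdb6d7fb42aff2e8) (.hit (nat_lit 87) (nat_lit 86) (nat_lit 0x5e0000bc00017f96daff2ad5fe684bfcf097fb42aff2e8) b35071 (.one (nat_lit 3) (nat_lit 91) (nat_lit 90) (nat_lit 0x5e0000bc00017f9b92fe5725fcc8cbf98897f3862fde6a) b35075 (.tok (nat_lit 6) (nat_lit 0x5e0000bc00017f57b2fe2e65fc6b6bf88897eccbafd24e) (.hit (nat_lit 89) (nat_lit 88) (nat_lit 0x5e0000bc00017f57b2fe2e65fc6b6bf88897eccbafd24e) b35073 (.hit (nat_lit 90) (nat_lit 89) (nat_lit 0x5e0000bc00017eff52fe2365fae44bf6be17e89eafc973) b35074 (.nil))) (.one (nat_lit 9) (nat_lit 88) (nat_lit 87) (nat_lit 0x5e0000bc00017f450affc4d5ff1e0bfdb6d7fa542ff0df) b35072 (.nil))))) (.one (nat_lit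 59) (nat_lit 92) (nat_lit 91) (nat_lit 0x5e0000bc00017e9ff2fd0375f924abf36dd7e2592fb812) b35076 (.nil)))))))))))))))))) (.tok (nat_lit 52) (nat_lit 0x5e0000bc00018000030125b601f0ac03c5580584300000) (.hit (nat_lit 225) (nat_lit 0) (nat_lit 0x5e0000bc00017fe7630125b601f0ac03c5580584300000) b35077 (.tok (nat_lit 6) (nat_lit 0x5e0000bc000180000300e4c601cc0c023718052e2ffd0f) (.hit (nat_lit 226) (nat_lit 7) (nat_lit 0x5e0000bc000180000300e4c601cc0c023718052e2ffd0f) b35078 (.hit (nat_lit 227) (nat_lit 15) (nat_lit 0x5e0000bc00017f4752ffb485ff714bfd8497fbc3afe7f6) b35079 (.nil))) (.tok (nat_lit 9) (nat_lit 0x5e0000bc00017f1d4aff2755fe7a4bfc2717f7d2afe3ad) (.hit (nat_lit 228) (nat_lit 20) (nat_lit 0x5e0000bc00017e6ec2fe09d5fc196bf96817ee6cafd8ab) b35080 (.hit (nat_lit 229) (nat_lit 28) (nat_lit 0x5e0000bc00017f1d4aff2755fe7a4bfc2717f7d2afe3ad) b35081 (.nil))) (.nil)))) (.tok (nat_lit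 55) (nat_lit 0x5e0000bc00017f661aff5965feb88bfea657f8e92feda4) (.hit (nat_lit 250) (nat_lit 0) (nat_lit 0x5e0000bc00017f661afe9f25fcf8ebf9ac17f2432fd9bb) b35087 (.tok (nat_lit 3) (nat_lit 0x5e0000bc00017f168aff5965feb88bfea657f8e92feda4) (.hit (nat_lit 251) (nat_lit 1) (nat_lit 0x5e0000bc00017e3e12fda875fb56abf7e297eb61afd295) b35088 (.one (nat_lit 67) (nat_lit 252) (nat_lit 2) (nat_lit 0x5e0000bc00017f168aff5965feb88bfea657f8e92feda4) b35089 (.nil))) (.tok (nat_lit 6) (nat_lit 0x5e0000bc00017ed372fed335fdac2bfc8d97f4b7afe541) (.hit (nat_lit 253) (nat_lit 7) (nat_lit 0x5e0000bc00017e6e2afe08a5fc170bf96357ee632fd898) b35090 (.hit (nat_lit 256) (nat_lit 15) (nat_lit 0x5e0000bc00017e357afd9745fb344bf79dd7ead82fd182) b35093 (.tok (nat_lit 55) (nat_lit 0x5e0000bc00017ed372fed335fdac2bfc8d97f4b7afe541) (.hit (nat_lit 254) (nat_lit 8) (nat_lit 0x5e0000bc00017e8cc2fe45d5fc916bfa5817f04cafdc6b)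 b35091 (.hit (nat_lit 257) (nat_lit 16) (nat_lit 0x5e0000bc00017ed372fed335fdac2bfc8d97f4b7afe541) b35094 (.one (nat_lit 6) (nat_lit 255) (nat_lit 9) (nat_lit 0x5e0000bc00017ebf22feaa95fd5aebfbeb17f372afe2b7) b35092 (.nil)))) (.nil)))) (.nil)))) (.tok (nat_lit 58) (nat_lit 0x5e0000bc00017fb04affc1a5ff890c004757fc2b2ff428) (.hit (nat_lit 236) (nat_lit 0) (nat_lit 0x5e0000bc00017fb04aff6635fe51abfc40d7f6d6afe30d) b35082 (.tok (nat_lit 3) (nat_lit 0x5e0000bc00017f4aaaffc1a5ff890c004757fc2b2ff428) (.hit (nat_lit 237) (nat_lit 1) (nat_lit 0x5e0000bc00017e3ac2fda1d5fb496bf7c817eb2cafd22b) b35083 (.one (nat_lit 55) (nat_lit 238) (nat_lit 3) (nat_lit 0x5e0000bc00017f4aaaffc1a5ff890c004757fc2b2ff428) b35084 (.nil))) (.tok (nat_lit 9) (nat_lit 0x5e0000bc00017ea44afe74e5fcef8bfb1457f1c52fdf5c) (.hit (nat_lit 239) (nat_lit 20) (nat_lit 0x5e0000bc00017ea44afe74e5fcef8bfb1457f1c52fdf5c) b35085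 (.hit (nat_lit 242) (nat_lit 28) (nat_lit 0x5e0000bc00017e6a32fe00b5fc072bf94397ee23afd819) b35086 (.nil))) (.nil)))) (.nil))))
noncomputable def r18_11 : Rw Blk := .tok (nat_lit 3) (nat_lit 0x5e0000bc00018049d300d26602618c01f29802322ffdf5) (.hit (nat_lit 15) (nat_lit 0) (nat_lit 0x5e0000bc00017f2e9aff23a5fdf02bf9fbd7f23aafe133) b35110 (.tok (nat_lit 9) (nat_lit 0x5e0000bc00017e62fafe02e5fcc12bf536d7ec832fd4d7) (.hit (nat_lit 16) (nat_lit 20) (nat_lit 0x5e0000bc00017e0782fd4bf5fb534bf25b17e6cbafc968) b35111 (.hit (nat_lit 21) (nat_lit 28) (nat_lit 0x5e0000bc00017d4972fbcfd5f85b0bec6a97daeaafb1a6) b35114 (.tok (nat_lit 14) (nat_lit 0x5e0000bc00017e62fafe02e5fcc12bf536d7ec832fd4d7) (.hit (nat_lit 17) (nat_lit 24) (nat_lit 0x5e0000bc00017df1c2fd2075fafc4bf1ad17e56fafc6b0) b35112 (.hit (nat_lit 22) (nat_lit 30) (nat_lit 0x5e0000bc00017e4c7afdd5e5fc672bf482d7eb1b2fd207) b35115 (.one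 (nat_lit 6) (nat_lit 18) (nat_lit 25) (nat_lit 0x5e0000bc00017e62fafe02e5fcc12bf536d7ec832fd4d7) b35113 (.nil)))) (.one (nat_lit 56) (nat_lit 23) (nat_lit 31) (nat_lit 0x5e0000bc00017e3ecafdba85fc306bf41557ea402fd051) b35116 (.nil))))) (.tok (nat_lit 64) (nat_lit 0x5e0000bc00017ea502fe86f5fdc94bf74717f0a3afdd18) (.hit (nat_lit 25) (nat_lit 50) (nat_lit 0x5e0000bc00017e3bd2fdb495fc248bf3fd97ea10afcff2) b35117 (.hit (nat_lit 26) (nat_lit 51) (nat_lit 0x5e0000bc00017ea502fe86f5fdc94bf74717f0a3afdd18) b35118 (.nil))) (.tok (nat_lit 67) (nat_lit 0x5e0000bc00018049d300d26602618c01f29802322ffdf5) (.hit (nat_lit 27) (nat_lit 52) (nat_lit 0x5e0000bc00018049d300d26602618c01f29802322ffdf5) b35119 (.tok (nat_lit 3) (nat_lit 0x5e0000bc00017ee6c2ff0a75fed04bf95517f4bfafe550) (.hit (nat_lit 33) (nat_lit 58) (nat_lit 0x5e0000bc00017ea5cafe8885fdcc6bf74d57f0b02fdd31) b35122 (.one (nat_lit 55)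 (nat_lit 34) (nat_lit 59) (nat_lit 0x5e0000bc00017ee6c2ff0a75fed04bf95517f4bfafe550) b35123 (.nil))) (.tok (nat_lit 9) (nat_lit 0x5e0000bc00017e847afe45e5fd472bf642d7ee9b2fd907) (.hit (nat_lit 28) (nat_lit 53) (nat_lit 0x5e0000bc00017e6ac2fe1275fce04bf57517ecffafd5d0) b35120 (.hit (nat_lit 31) (nat_lit 56) (nat_lit 0x5e0000bc00017e847afe45e5fd472bf642d7ee9b2fd907) b35121 (.nil))) (.nil)))) (.one (nat_lit 70) (nat_lit 35) (nat_lit 60) (nat_lit 0x5e0000bc00017e9c2afe7545fda5ebf70057f0162fdbfd) b35124 (.nil)))))) (.tok (nat_lit 6) (nat_lit 0x5e0000bc000180e7b301f8960685cc0d5018135eb023c3) (.hit (nat_lit 0) (nat_lit 0) (nat_lit 0x5e0000bc00017fcd3b01400601a6cc02815800c73004e6) b35095 (.tok (nat_lit 6) (nat_lit 0x5e0000bc00018017fb0071960126ac007717fefcb004a1) (.hit (nat_lit 1) (nat_lit 7) (nat_lit 0x5e0000bc00017f18daff9245fd8bcbf91b97efc22fe2b9) b35096 (.hit (nat_lit 4) (nat_lit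 15) (nat_lit 0x5e0000bc00017ebd72fdbc35fb784bf57b97e9512fd874) b35099 (.tok (nat_lit 14) (nat_lit 0x5e0000bc00018017fb0071960126ac007717fefcb004a1) (.hit (nat_lit 2) (nat_lit 11) (nat_lit 0x5e0000bc00017fe883006f5600b40bfe8ed7fc0caff8ea) b35097 (.hit (nat_lit 5) (nat_lit 17) (nat_lit 0x5e0000bc00017f1372fe53c5fd392bf78bd7f0122fda39) b35100 (.one (nat_lit 9) (nat_lit 3) (nat_lit 12) (nat_lit 0x5e0000bc00018017fb0071960126ac007717fefcb004a1) b35098 (.nil)))) (.one (nat_lit 68) (nat_lit 6) (nat_lit 18) (nat_lit 0x5e0000bc00017fbf52ffa205ff26ebfb5f17f746afedc9) b35101 (.nil))))) (.tok (nat_lit 52) (nat_lit 0x5e0000bc000180603b01f89601bcac0317d8042d300da0) (.hit (nat_lit 7) (nat_lit 39) (nat_lit 0x5e0000bc0001801be301f896016eebff5dd7fa7daffefd) b35102 (.hit (nat_lit 8) (nat_lit 40) (nat_lit 0x5e0000bc000180603b0085f601bcac0317d8042d300da0) b35103 (.nil))) (.tok (nat_lit 55) (nat_lit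 0x5e0000bc000180676b011aa602686c039a5807f2b019d7) (.hit (nat_lit 9) (nat_lit 41) (nat_lit 0x5e0000bc000180371300638600e78c012d980334300a04) b35104 (.tok (nat_lit 3) (nat_lit 0x5e0000bc000180676b011aa601d76c039a5807f2b019d7) (.hit (nat_lit 12) (nat_lit 47) (nat_lit 0x5e0000bc00017ffad3011aa60150ac01e75804f3b01012) b35107 (.one (nat_lit 67) (nat_lit 13) (nat_lit 48) (nat_lit 0x5e0000bc000180676b00577601d76c039a5807f2b019d7) b35108 (.nil))) (.tok (nat_lit 6) (nat_lit 0x5e0000bc00017fd77b00dcc602686bff76d7f9ccaff17a) (.hit (nat_lit 10) (nat_lit 42) (nat_lit 0x5e0000bc00017f6d0b00dcc602686bff76d7f7c7aff013) b35105 (.hit (nat_lit 11) (nat_lit 45) (nat_lit 0x5e0000bc00017fd77affdba5ff4a6bfdab97f9ccaff17a) b35106 (.nil))) (.nil)))) (.one (nat_lit 58) (nat_lit 14) (nat_lit 49) (nat_lit 0x5e0000bc000180e7b30142f60685cc0d5018135eb023c3) b35109 (.nil)))))) (.nil))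
noncomputable def r18_12 : Rw Blk := .tok (nat_lit 9) (nat_lit 0xbc0001780003000006031f0c05f718058ab00f2e60334cc0497d80bc9300d10) (.hit (nat_lit 0) (nat_lit 0) (nat_lit 0xbc0001780002fd8bd5fbafcbf79b57eacc2fd24a5fc552bf69397f0902fd2c2) b35125 (.tok (nat_lit 14) (nat_lit 0xbc0001780002ffd3e600160bfdec17f3de2febb16006bcbfebcd7fd882ffbb9) (.hit (nat_lit 21) (nat_lit 61) (nat_lit 0xbc0001780002ff0ee5fce02bf8f697ef292fdd0c5fedf4bfd5c97f9d32fe6e0) b35126 (.one (nat_lit 3) (nat_lit 22) (nat_lit 62) (nat_lit 0xbc0001780002ff5435fcfc6bf9a217ecd42fd9b75ff270bfd6c17fbe52feacf) b35127 (.tok (nat_lit 6) (nat_lit 0xbc0001780002ffd3e600160bfdec17f3de2febb16006bcbfebcd7fd882ffbb9) (.hit (nat_lit 25) (nat_lit 65) (nat_lit 0xbc0001780002ffd3e600160bfdec17f3de2febb16006bcbfebcd7fd882ffbb9) b35130 (.hit (nat_lit 26) (nat_lit 66) (nat_lit 0xbc0001780002fdf475fb680bf6ac97eb692fd53c5fbe7abf754d7ee4a2fd3d4)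 b35131 (.nil))) (.tok (nat_lit 9) (nat_lit 0xbc0001780002fe0c85fd78cbfaffd7efc7afdf9d5fdcd4bfab9d7f5b2afdff6) (.hit (nat_lit 23) (nat_lit 63) (nat_lit 0xbc0001780002fbd6e5fb7a8bf63c57ec422fd3ff5fb9d8bf5ee97ed52afd586) b35128 (.hit (nat_lit 24) (nat_lit 64) (nat_lit 0xbc0001780002fe0c85fd78cbfaffd7efc7afdf9d5fdcd4bfab9d7f5b2afdff6) b35129 (.nil))) (.nil))))) (.one (nat_lit 17) (nat_lit 27) (nat_lit 67) (nat_lit 0xbc0001780002fe8025fbd0abf75857e79eafcf875fdfeebfc32d7f58cafd987) b35132 (.tok (nat_lit 20) (nat_lit 0xbc0001780002fd8225fa37ebf47657e3e3afc3425fc940bf7e317ee27afcf6c) (.hit (nat_lit 28) (nat_lit 68) (nat_lit 0xbc0001780002facb15f962ebf20d17e3e3afc3425f985ebf1bf57e4f42fc4c9) b35133 (.hit (nat_lit 29) (nat_lit 69) (nat_lit 0xbc0001780002fd8225fa37ebf47657e196afc33b5fc940bf7e317ee27afcf6c) b35134 (.nil))) (.tok (nat_lit 23) (nat_lit 0xbc0001780003000006031f0c05f718058ab00f2e60334cc0497d80bc9300d10)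 (.hit (nat_lit 30) (nat_lit 70) (nat_lit 0xbc0001780003000006031f0c05f718058ab00f2e60334cc0497d80bc9300d10) b35135 (.hit (nat_lit 31) (nat_lit 71) (nat_lit 0xbc0001780002fdb045f9e48bf3f4d7e448afc89e5fb41ebf54e17eab6afcca6) b35136 (.nil))) (.one (nat_lit 38) (nat_lit 36) (nat_lit 76) (nat_lit 0xbc0001780002fd68f5f9a52bf35657e4ecafc5545fad90bf49497e9032fc849) b35137 (.tok (nat_lit 41) (nat_lit 0xbc0001780002fd2825fac86bf3dd97e36cafc4915fcdccbf7f5d7edc4afcd4c) (.hit (nat_lit 37) (nat_lit 77) (nat_lit 0xbc0001780002fcc335f89d6bf1fa97dc072fb4cf5fb2e2bf32297ea732fc0d3) b35138 (.hit (nat_lit 38) (nat_lit 78) (nat_lit 0xbc0001780002fd2825fac86bf3dd97e36cafc4915fcdccbf7f5d7edc4afcd4c) b35139 (.nil))) (.tok (nat_lit 44) (nat_lit 0xbc0001780002feba35fb488bf68817e6a82fcd5d5ff424bfc5c97f74cafde83) (.hit (nat_lit 39) (nat_lit 79) (nat_lit 0xbc0001780002fa5485f875cbf032d7e02f2fbbd95f898cbefe517e13fafbd60)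 b35140 (.hit (nat_lit 40) (nat_lit 80) (nat_lit 0xbc0001780002feba35fb488bf68817e6a82fcd5d5ff424bfc5c97f74cafde83) b35141 (.nil))) (.tok (nat_lit 47) (nat_lit 0xbc0001780002fe1ea5faaa0bf44497e4acafc5815fd612bf85357f367afdba2) (.hit (nat_lit 41) (nat_lit 81) (nat_lit 0xbc0001780002fe1ea5faaa0bf44497e4acafc5815fd612bf85357f367afdba2) b35142 (.hit (nat_lit 42) (nat_lit 82) (nat_lit 0xbc0001780002fd62c5f8374bf08717dd952fbb375fb23cbf58957eb1b2fc8dd) b35143 (.nil))) (.one (nat_lit 50) (nat_lit 43) (nat_lit 83) (nat_lit 0xbc0001780002fd0fa5f8fdebf1cf17e2112fbf9d5fab6ebf44c57e846afc2df) b35144 (.tok (nat_lit 53) (nat_lit 0xbc0001780002fdcca5fa798bf51757e351afc3d75fc196bf85a57ee89afd0b7) (.hit (nat_lit 44) (nat_lit 84) (nat_lit 0xbc0001780002fdcca5fa512bf47a17e351afc3d75fba18bf5e097ee89afd0b7) b35145 (.hit (nat_lit 45) (nat_lit 85) (nat_lit 0xbc0001780002fc7965fa798bf51757e1c62fc3a15fc196bf85a57e9d8afc91c)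 b35146 (.nil))) (.tok (nat_lit 56) (nat_lit 0xbc0001780002fcf715fd1b6bf97a17f01d2fdbd45fbd7cbf623d7edbd2fd6fc) (.hit (nat_lit 46) (nat_lit 86) (nat_lit 0xbc0001780002fcf715fd1b6bf97a17f01d2fdbd45fbd7cbf5b857ed23afd6fc) b35147 (.one (nat_lit 3) (nat_lit 50) (nat_lit 90) (nat_lit 0xbc0001780002fac345f9534bf1edd7e3a52fc2c55f9764bf1a017e4b5afc44c) b35151 (.tok (nat_lit 6) (nat_lit 0xbc0001780002fbe435fb952bf67197ecacafd4d45fbb82bf623d7edbd2fd65b) (.hit (nat_lit 48) (nat_lit 88) (nat_lit 0xbc0001780002fbe435fb952bf67197ecacafd4d45fbb82bf623d7edbd2fd65b) b35149 (.hit (nat_lit 49) (nat_lit 89) (nat_lit 0xbc0001780002fb5f15fa8aebf45d17e883afcc825faadebf40f57e9942fce09) b35150 (.nil))) (.one (nat_lit 9) (nat_lit 47) (nat_lit 87) (nat_lit 0xbc0001780002fb0575f9d7abf2f697e5b6afc6e85f9faabf2a8d7e6c72fc86f) b35148 (.nil))))) (.one (nat_lit 59) (nat_lit 51) (nat_lit 91) (nat_lit 0xbc0001780002fd7a15f9d72bf3a797e0ca2fc1a15fc8e0bf7ac17eda1afcbc4)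 b35152 (.one (nat_lit 62) (nat_lit 52) (nat_lit 92) (nat_lit 0xbc0001780002fdfdd5fa10cbf43e57e3c2afc7925fc0f4bf7bed7edf4afd21a) b35153 (.tok (nat_lit 65) (nat_lit 0xbc0001780002fead35febdabfa7397eef0afde735fe676bfc0417fe992fe9ec) (.hit (nat_lit 53) (nat_lit 93) (nat_lit 0xbc0001780002fead35febdabfa7397eef0afde735fe676bfc0417fe992fe9ec) b35154 (.hit (nat_lit 54) (nat_lit 94) (nat_lit 0xbc0001780002fdec55fb012bf43fd7e5752fcaf75fd2a0bfa0097f10e2fd6a8) b35155 (.nil))) (.tok (nat_lit 68) (nat_lit 0xbc0001780002ff0075fda8cbfc1fd7f4d12feaa75fdd5abfcda57f76fafee10) (.hit (nat_lit 55) (nat_lit 95) (nat_lit 0xbc0001780002fecc95fd6c8bfaec17f2b2afe57a5fd72cbfb8cd7f5582fe4af) b35156 (.one (nat_lit 3) (nat_lit 59) (nat_lit 99) (nat_lit 0xbc0001780002fe04b5fbcdcbf6d2d7eac7afd60a5fc9f4bf8a1d7f12a2fdb19) b35160 (.one (nat_lit 6) (nat_lit 56) (nat_lit 96) (nat_lit 0xbc0001780002ff0075fda8cbfc1fd7f4d12feaa75fdd5abfbc857f76fafee10)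 b35157 (.tok (nat_lit 9) (nat_lit 0xbc0001780002fecbc5fbb6abf74b17ee6dafdb2c5fdb92bfcda57f69d2feba0) (.hit (nat_lit 57) (nat_lit 97) (nat_lit 0xbc0001780002fecbc5fbb6abf74b17ee6dafdb2c5fdb92bfcda57f69d2feba0) b35158 (.hit (nat_lit 58) (nat_lit 98) (nat_lit 0xbc0001780002fe6d55fae10bf62d17ea3aafd4825fcd66bf9a317f2ac2fe268) b35159 (.nil))) (.nil))))) (.one (nat_lit 71) (nat_lit 60) (nat_lit 100) (nat_lit 0xbc0001780002fda295f9a50bf2a017e097afc13c5fc71abf73817ee3fafcced) b35161 (.nil)))))))))))))))))) (.nil)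
noncomputable def r18_13 : Rw Blk := .tok (nat_lit 9) (nat_lit 0x2f00005e0000c0000180111b00074) (.hit (nat_lit 0) (nat_lit 0) (nat_lit 0x2f00005e0000bf5eed7e9cdafcd91) b35162 (.tok (nat_lit 14) (nat_lit 0x2f00005e0000c0000180111b00074) (.hit (nat_lit 21) (nat_lit 61) (nat_lit 0x2f00005e0000bfc7017f1da2fdad9) b35163 (.one (nat_lit 3) (nat_lit 22) (nat_lit 62) (nat_lit 0x2f00005e0000bf91597e984afcf9b) b35164 (.tok (nat_lit 6) (nat_lit 0x2f00005e0000c0000180111b00074) (.hit (nat_lit 25) (nat_lit 65) (nat_lit 0x2f00005e0000c0000180111b00074) b35167 (.hit (nat_lit 26) (nat_lit 66) (nat_lit 0x2f00005e0000bfa52d7ed61afd755) b35168 (.nil))) (.tok (nat_lit 9) (nat_lit 0x2f00005e0000bf93317eeb7afda01) (.hit (nat_lit 23) (nat_lit 63) (nat_lit 0x2f00005e0000bf48117ed152fd6bc) b35165 (.hit (nat_lit 24) (nat_lit 64) (nat_lit 0x2f00005e0000bf93317eeb7afda01) b35166 (.nil))) (.nil))))) (.one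 (nat_lit 17) (nat_lit 27) (nat_lit 67) (nat_lit 0x2f00005e0000bf69b97e43c2fc50a) b35169 (.tok (nat_lit 20) (nat_lit 0x2f00005e0000bf69117e955afcf3d) (.hit (nat_lit 28) (nat_lit 68) (nat_lit 0x2f00005e0000bf2a157e955afcf3d) b35170 (.hit (nat_lit 29) (nat_lit 69) (nat_lit 0x2f00005e0000bf69117e3722fc376) b35171 (.nil))) (.tok (nat_lit 23) (nat_lit 0x2f00005e0000bf8dc97f0f7afdd2d) (.hit (nat_lit 30) (nat_lit 70) (nat_lit 0x2f00005e0000bf8dc97f0f7afdd2d) b35172 (.hit (nat_lit 31) (nat_lit 71) (nat_lit 0x2f00005e0000bf5d017e3732fc378) b35173 (.nil))) (.one (nat_lit 38) (nat_lit 36) (nat_lit 76) (nat_lit 0x2f00005e0000bf58957e45c2fc54a) b35174 (.tok (nat_lit 41) (nat_lit 0x2f00005e0000bf4f1d7dfe1afbc55) (.hit (nat_lit 37) (nat_lit 77) (nat_lit 0x2f00005e0000bf4f1d7decc2fb9c7) b35175 (.hit (nat_lit 38) (nat_lit 78) (nat_lit 0x2f00005e0000bf42d57dfe1afbc55) b35176 (.nil))) (.tok (nat_lit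 44) (nat_lit 0x2f00005e0000bf6dc57e3bdafc2f6) (.hit (nat_lit 39) (nat_lit 79) (nat_lit 0x2f00005e0000bea0e57d82fafacf1) b35177 (.hit (nat_lit 40) (nat_lit 80) (nat_lit 0x2f00005e0000bf6dc57e3bdafc2f6) b35178 (.nil))) (.tok (nat_lit 47) (nat_lit 0x2f00005e0000bf75357e5aeafc73a) (.hit (nat_lit 41) (nat_lit 81) (nat_lit 0x2f00005e0000bf75357e5aeafc73a) b35179 (.hit (nat_lit 42) (nat_lit 82) (nat_lit 0x2f00005e0000bf532d7e01f2fbbaf) b35180 (.nil))) (.one (nat_lit 50) (nat_lit 43) (nat_lit 83) (nat_lit 0x2f00005e0000bf52d97e1132fbeb8) b35181 (.tok (nat_lit 53) (nat_lit 0x2f00005e0000bf463d7e46cafc56b) (.hit (nat_lit 44) (nat_lit 84) (nat_lit 0x2f00005e0000bf32e97e46cafc56b) b35182 (.hit (nat_lit 45) (nat_lit 85) (nat_lit 0x2f00005e0000bf463d7e17bafbe31) b35183 (.nil))) (.tok (nat_lit 56) (nat_lit 0x2f00005e0000bf625d7ecff2fd4db) (.hit (nat_lit 46) (nat_lit 86) (nat_lit 0x2f00005e0000bf625d7ecff2fd4db)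 b35184 (.one (nat_lit 3) (nat_lit 50) (nat_lit 90) (nat_lit 0x2f00005e0000bf22c17e86b2fcd68) b35188 (.tok (nat_lit 6) (nat_lit 0x2f00005e0000bf2f797ea022fd096) (.hit (nat_lit 48) (nat_lit 88) (nat_lit 0x2f00005e0000bf2f797ea022fd096) b35186 (.hit (nat_lit 49) (nat_lit 89) (nat_lit 0x2f00005e0000bf26317e8d92fce44) b35187 (.nil))) (.one (nat_lit 9) (nat_lit 47) (nat_lit 87) (nat_lit 0x2f00005e0000bf1d3d7e7baafcc07) b35185 (.nil))))) (.one (nat_lit 59) (nat_lit 51) (nat_lit 91) (nat_lit 0x2f00005e0000bf52fd7e0842fbc81) b35189 (.one (nat_lit 62) (nat_lit 52) (nat_lit 92) (nat_lit 0x2f00005e0000bf80e17e61c2fc7b3) b35190 (.tok (nat_lit 65) (nat_lit 0x2f00005e0000bf88857ed782fda5a) (.hit (nat_lit 53) (nat_lit 93) (nat_lit 0x2f00005e0000bf88857ed782fda5a) b35191 (.hit (nat_lit 54) (nat_lit 94) (nat_lit 0x2f00005e0000bf76b57e51aafc598) b35192 (.nil))) (.tok (nat_lit 68) (nat_lit 0x2f00005e0000bfe0d57f55c2fe79f)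 (.hit (nat_lit 55) (nat_lit 95) (nat_lit 0x2f00005e0000bfbf7d7f2a52fddf6) b35193 (.one (nat_lit 3) (nat_lit 59) (nat_lit 99) (nat_lit 0x2f00005e0000bf95497e77a2fcf0d) b35197 (.one (nat_lit 6) (nat_lit 56) (nat_lit 96) (nat_lit 0x2f00005e0000bfd3497f1742fe1c4) b35194 (.tok (nat_lit 9) (nat_lit 0x2f00005e0000bfe0d57f55c2fe79f) (.hit (nat_lit 57) (nat_lit 97) (nat_lit 0x2f00005e0000bfe0d57f55c2fe79f) b35195 (.hit (nat_lit 58) (nat_lit 98) (nat_lit 0x2f00005e0000bf91097e89a2fcd86) b35196 (.nil))) (.nil))))) (.one (nat_lit 71) (nat_lit 60) (nat_lit 100) (nat_lit 0x2f00005e0000bf626d7e24e2fc016) b35198 (.nil)))))))))))))))))) (.nil)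
noncomputable def r18_14 : Rw Blk := .tok (nat_lit 6) (nat_lit 0xbfac2d7f6f82ff654600000c000017f466afe1995fed8cbfd5517f335afe615) (.hit (nat_lit 81) (nat_lit 0) (nat_lit 0xbf92e17f5752fe61a600000c000017f466afe1995fed8cbfd5517f0412fe09b) b35199 (.tok (nat_lit 3) (nat_lit 0xbfac2d7f6f82ff6545ffa0abfe7257f1b9afdad55fd7aabfa9717f335afe615) (.hit (nat_lit 82) (nat_lit 1) (nat_lit 0xbf2ecd7e22c2fda725fb082bf66557e159afba155f962abf26717e5f5afcc0e) b35200 (.one (nat_lit 14) (nat_lit 84) (nat_lit 4) (nat_lit 0xbfa2a57f6f82fef925fed40bfced57e69bafc4995fd0e4bf96417f2ff2fe548) b35201 (.one (nat_lit 56) (nat_lit 86) (nat_lit 6) (nat_lit 0xbf7a217efa72fe1465fdef2bfb5dd7ea882fcc725fc496bf7dcd7effd2fdf45) b35203 (.one (nat_lit 68) (nat_lit 85) (nat_lit 5) (nat_lit 0xbfac2d7f4e8aff6545ffa0abfe7257f1b9afdad55fd7aabfa9717f335afe615) b35202 (.nil))))) (.nil))) (.tok (nat_lit 9) (nat_lit 0xc00001800003000005ffed2bffdc980138b00000600000c0000180000300000)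 (.hit (nat_lit 157) (nat_lit 0) (nat_lit 0xbf92e17f5752fe61a5ff678bfecc17f8d8afe31f5fe91ebfd2b57f0272fdd1a) b35204 (.tok (nat_lit 3) (nat_lit 0xbfac2d7f6f82ff6545fe330bfcbb97f8852fe81d5fd7aabfa9717f4302fe7aa) (.hit (nat_lit 158) (nat_lit 1) (nat_lit 0xbf2ecd7e22c2fda725fa1b0bf48b97e6b2afcc605f962abf28957e5f5afcc0e) b35205 (.one (nat_lit 14) (nat_lit 160) (nat_lit 4) (nat_lit 0xbfa2a57f6f82fef925fcf16bf9b217f73eafe7e55fcf68bf9dd17f2ab2fe4b5) b35206 (.one (nat_lit 56) (nat_lit 162) (nat_lit 6) (nat_lit 0xbfac2d7f4e8aff6545fe330bfcbb97f8852fe81d5fd7aabfa9717f4302fe7aa) b35208 (.one (nat_lit 68) (nat_lit 161) (nat_lit 5) (nat_lit 0xbf7a217efa72fe1465fc66abf922d7f2e92fdfb85fc330bf85417effdafdf45) b35207 (.nil))))) (.tok (nat_lit 40) (nat_lit 0xbf9c857f410afee565fd12ebfa1957f77bafe24c5fcf08bf97257f0cf2fdd01) (.hit (nat_lit 176) (nat_lit 33) (nat_lit 0xbf9c857f410afee565fd12ebfa1957f77bafe24c5fcf08bf97257f0cf2fdd01)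 b35209 (.hit (nat_lit 177) (nat_lit 34) (nat_lit 0xbf89dd7edc9afe4345fc4d8bf85457f316afdeb95fc5cabf8b7d7f0902fdb0f) b35210 (.nil))) (.tok (nat_lit 43) (nat_lit 0xc000017fd533000005ffed2bffdc980138b00000600000c0000180000300000) (.hit (nat_lit 178) (nat_lit 35) (nat_lit 0xbf88e97ef252ffb5f5ffc38bffdc97f7fbafe7595ff0b2bfdb817f413afe612) b35211 (.hit (nat_lit 179) (nat_lit 36) (nat_lit 0xc000017fd533000005ffed2bff8d580138b00000600000c0000180000300000) b35212 (.nil))) (.tok (nat_lit 46) (nat_lit 0xbfb31d800002ff00c5ff070bfe6397ffde2ff16e5ff06abfe3497f3612fe48c) (.hit (nat_lit 180) (nat_lit 37) (nat_lit 0xbfb31d800002ff00c5ff070bfe6397ffde2ff16e5ff06abfe3497f2922fe1b0) b35213 (.hit (nat_lit 181) (nat_lit 38) (nat_lit 0xbf9c897f51dafef0c5fdd46bfbfe57f5ad2fe67e5fd1c0bf9d9d7f3612fe48c) b35214 (.nil))) (.nil)))))) (.nil))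
noncomputable def r18_15 : Rw Blk := .tok (nat_lit 3) (nat_lit 0xbc000178000300000) (.hit (nat_lit 61) (nat_lit 0) (nat_lit 0xbc0001780002fed3f) b12933 (.tok (nat_lit 14) (nat_lit 0xbc000178000300000) (.hit (nat_lit 82) (nat_lit 61) (nat_lit 0xbc000178000300000) b12934 (.one (nat_lit 3) (nat_lit 83) (nat_lit 62) (nat_lit 0xbc0001780002fda5e) b12935 (.tok (nat_lit 6) (nat_lit 0xbc0001780002fdee9) (.hit (nat_lit 86) (nat_lit 65) (nat_lit 0xbc0001780002fde0e) b12938 (.hit (nat_lit 87) (nat_lit 66) (nat_lit 0xbc0001780002fdee9) b12939 (.nil))) (.tok (nat_lit 9) (nat_lit 0xbc0001780002ffe02) (.hit (nat_lit 84) (nat_lit 63) (nat_lit 0xbc0001780002ffe02) b12936 (.hit (nat_lit 85) (nat_lit 64) (nat_lit 0xbc0001780002fdd1b) b12937 (.nil))) (.nil))))) (.one (nat_lit 17) (nat_lit 88) (nat_lit 67) (nat_lit 0xbc0001780002fd600) b12940 (.tok (nat_lit 20) (nat_lit 0xbc0001780002fdc29) (.hit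 (nat_lit 89) (nat_lit 68) (nat_lit 0xbc0001780002fdc29) b12941 (.hit (nat_lit 90) (nat_lit 69) (nat_lit 0xbc0001780002fd409) b12942 (.nil))) (.tok (nat_lit 23) (nat_lit 0xbc0001780002fe24e) (.hit (nat_lit 91) (nat_lit 70) (nat_lit 0xbc0001780002fe24e) b12943 (.hit (nat_lit 92) (nat_lit 71) (nat_lit 0xbc0001780002fd429) b12944 (.nil))) (.one (nat_lit 38) (nat_lit 97) (nat_lit 76) (nat_lit 0xbc0001780002fd320) b12945 (.tok (nat_lit 41) (nat_lit 0xbc0001780002fd15b) (.hit (nat_lit 98) (nat_lit 77) (nat_lit 0xbc0001780002fbadf) b12946 (.hit (nat_lit 99) (nat_lit 78) (nat_lit 0xbc0001780002fd15b) b12947 (.nil))) (.tok (nat_lit 44) (nat_lit 0xbc0001780002fcb88) (.hit (nat_lit 100) (nat_lit 79) (nat_lit 0xbc0001780002fbef3) b12948 (.hit (nat_lit 101) (nat_lit 80) (nat_lit 0xbc0001780002fcb88) b12949 (.nil))) (.tok (nat_lit 47) (nat_lit 0xbc0001780002fcc75) (.hit (nat_lit 102) (nat_lit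 81) (nat_lit 0xbc0001780002fcb7b) b12950 (.hit (nat_lit 103) (nat_lit 82) (nat_lit 0xbc0001780002fcc75) b12951 (.nil))) (.one (nat_lit 50) (nat_lit 104) (nat_lit 83) (nat_lit 0xbc0001780002fd3a2) b12952 (.tok (nat_lit 53) (nat_lit 0xbc0001780002fd6ed) (.hit (nat_lit 105) (nat_lit 84) (nat_lit 0xbc0001780002fd6ed) b12953 (.hit (nat_lit 106) (nat_lit 85) (nat_lit 0xbc0001780002fd015) b12954 (.nil))) (.tok (nat_lit 56) (nat_lit 0xbc0001780002ff0b0) (.hit (nat_lit 107) (nat_lit 86) (nat_lit 0xbc0001780002ff0b0) b12955 (.one (nat_lit 3) (nat_lit 111) (nat_lit 90) (nat_lit 0xbc0001780002fdebc) b12959 (.tok (nat_lit 6) (nat_lit 0xbc0001780002ff0a7) (.hit (nat_lit 109) (nat_lit 88) (nat_lit 0xbc0001780002ff0a7) b12957 (.hit (nat_lit 110) (nat_lit 89) (nat_lit 0xbc0001780002fdef0) b12958 (.nil))) (.one (nat_lit 9) (nat_lit 108) (nat_lit 87) (nat_lit 0xbc0001780002fe1c3) b12956 (.nil)))))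 (.one (nat_lit 59) (nat_lit 112) (nat_lit 91) (nat_lit 0xbc0001780002fbf53) b12960 (.one (nat_lit 62) (nat_lit 113) (nat_lit 92) (nat_lit 0xbc0001780002fda6b) b12961 (.tok (nat_lit 65) (nat_lit 0xbc0001780002fe024) (.hit (nat_lit 114) (nat_lit 93) (nat_lit 0xbc0001780002fe024) b12962 (.hit (nat_lit 115) (nat_lit 94) (nat_lit 0xbc0001780002fd028) b12963 (.nil))) (.tok (nat_lit 68) (nat_lit 0xbc0001780002fff17) (.hit (nat_lit 116) (nat_lit 95) (nat_lit 0xbc0001780002fff17) b12964 (.one (nat_lit 3) (nat_lit 120) (nat_lit 99) (nat_lit 0xbc0001780002fe5aa) b12968 (.one (nat_lit 6) (nat_lit 117) (nat_lit 96) (nat_lit 0xbc0001780002fe8b1) b12965 (.tok (nat_lit 9) (nat_lit 0xbc0001780002feda6) (.hit (nat_lit 118) (nat_lit 97) (nat_lit 0xbc0001780002fe911) b12966 (.hit (nat_lit 119) (nat_lit 98) (nat_lit 0xbc0001780002feda6) b12967 (.nil))) (.nil))))) (.one (nat_lit 71) (nat_lit 121)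 (nat_lit 100) (nat_lit 0xbc0001780002fbf33) b12969 (.nil)))))))))))))))))) (.nil)
noncomputable def r18_16 : Rw Blk := .tok (nat_lit 3) (nat_lit 0xbc000178000300000) (.hit (nat_lit 61) (nat_lit 0) (nat_lit 0xbc0001780002feaa6) b12970 (.tok (nat_lit 14) (nat_lit 0xbc0001780002fff4f) (.hit (nat_lit 82) (nat_lit 61) (nat_lit 0xbc0001780002ffc17) b12971 (.one (nat_lit 3) (nat_lit 83) (nat_lit 62) (nat_lit 0xbc0001780002feeb2) b12972 (.tok (nat_lit 6) (nat_lit 0xbc0001780002fff4f) (.hit (nat_lit 86) (nat_lit 65) (nat_lit 0xbc0001780002fff4f) b12975 (.hit (nat_lit 87) (nat_lit 66) (nat_lit 0xbc0001780002fe88d) b12976 (.nil))) (.tok (nat_lit 9) (nat_lit 0xbc0001780002ffdfe) (.hit (nat_lit 84) (nat_lit 63) (nat_lit 0xbc0001780002ffdfe) b12973 (.hit (nat_lit 85) (nat_lit 64) (nat_lit 0xbc0001780002ff83a) b12974 (.nil))) (.nil))))) (.one (nat_lit 17) (nat_lit 88) (nat_lit 67) (nat_lit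 0xbc0001780002fe79e) b12977 (.tok (nat_lit 20) (nat_lit 0xbc0001780002fe1f4) (.hit (nat_lit 89) (nat_lit 68) (nat_lit 0xbc0001780002fe1f4) b12978 (.hit (nat_lit 90) (nat_lit 69) (nat_lit 0xbc0001780002fd9ab) b12979 (.nil))) (.tok (nat_lit 23) (nat_lit 0xbc0001780002fe0ee) (.hit (nat_lit 91) (nat_lit 70) (nat_lit 0xbc0001780002fe0ee) b12980 (.hit (nat_lit 92) (nat_lit 71) (nat_lit 0xbc0001780002fd9ab) b12979 (.nil))) (.one (nat_lit 38) (nat_lit 97) (nat_lit 76) (nat_lit 0xbc0001780002fdad4) b12981 (.tok (nat_lit 41) (nat_lit 0xbc0001780002fe302) (.hit (nat_lit 98) (nat_lit 77) (nat_lit 0xbc0001780002fbfc2) b12982 (.hit (nat_lit 99) (nat_lit 78) (nat_lit 0xbc0001780002fe302) b12983 (.nil))) (.tok (nat_lit 44) (nat_lit 0xbc0001780002fd459) (.hit (nat_lit 100) (nat_lit 79) (nat_lit 0xbc0001780002fc9a3) b12984 (.hit (nat_lit 101) (nat_lit 80) (nat_lit 0xbc0001780002fd459) b12985 (.nil)))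 (.tok (nat_lit 47) (nat_lit 0xbc0001780002fdaf4) (.hit (nat_lit 102) (nat_lit 81) (nat_lit 0xbc0001780002fcf25) b12986 (.hit (nat_lit 103) (nat_lit 82) (nat_lit 0xbc0001780002fdaf4) b12987 (.nil))) (.one (nat_lit 50) (nat_lit 104) (nat_lit 83) (nat_lit 0xbc0001780002fd84c) b12988 (.tok (nat_lit 53) (nat_lit 0xbc0001780002fe1e7) (.hit (nat_lit 105) (nat_lit 84) (nat_lit 0xbc0001780002fdbd2) b12989 (.hit (nat_lit 106) (nat_lit 85) (nat_lit 0xbc0001780002fe1e7) b12990 (.nil))) (.tok (nat_lit 56) (nat_lit 0xbc0001780002ff32e) (.hit (nat_lit 107) (nat_lit 86) (nat_lit 0xbc0001780002ff259) b12991 (.one (nat_lit 3) (nat_lit 111) (nat_lit 90) (nat_lit 0xbc0001780002feacd) b12995 (.tok (nat_lit 6) (nat_lit 0xbc0001780002ff32e) (.hit (nat_lit 109) (nat_lit 88) (nat_lit 0xbc0001780002ff32e) b12993 (.hit (nat_lit 110) (nat_lit 89) (nat_lit 0xbc0001780002fe197) b12994 (.nil))) (.one (nat_lit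 9) (nat_lit 108) (nat_lit 87) (nat_lit 0xbc0001780002fea6a) b12992 (.nil))))) (.one (nat_lit 59) (nat_lit 112) (nat_lit 91) (nat_lit 0xbc0001780002fc5ac) b12996 (.one (nat_lit 62) (nat_lit 113) (nat_lit 92) (nat_lit 0xbc0001780002fdc9a) b12997 (.tok (nat_lit 65) (nat_lit 0xbc0001780002fede6) (.hit (nat_lit 114) (nat_lit 93) (nat_lit 0xbc0001780002fede6) b12998 (.hit (nat_lit 115) (nat_lit 94) (nat_lit 0xbc0001780002fde04) b12999 (.nil))) (.tok (nat_lit 68) (nat_lit 0xbc000178000300000) (.hit (nat_lit 116) (nat_lit 95) (nat_lit 0xbc0001780002ffc6b) b13000 (.one (nat_lit 3) (nat_lit 120) (nat_lit 99) (nat_lit 0xbc0001780002fe0d0) b13004 (.one (nat_lit 6) (nat_lit 117) (nat_lit 96) (nat_lit 0xbc0001780002ff7d2) b13001 (.tok (nat_lit 9) (nat_lit 0xbc000178000300000) (.hit (nat_lit 118) (nat_lit 97) (nat_lit 0xbc000178000300000) b13002 (.hit (nat_lit 119) (nat_lit 98) (nat_lit 0xbc0001780002fda2d)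 b13003 (.nil))) (.nil))))) (.one (nat_lit 71) (nat_lit 121) (nat_lit 100) (nat_lit 0xbc0001780002fc599) b13005 (.nil)))))))))))))))))) (.nil)
noncomputable def r18_17 : Rw Blk := .tok (nat_lit 3) (nat_lit 0xbc0001780002fee87) (.hit (nat_lit 61) (nat_lit 0) (nat_lit 0xbc0001780002fdbc6) b35215 (.tok (nat_lit 14) (nat_lit 0xbc0001780002fee87) (.hit (nat_lit 82) (nat_lit 61) (nat_lit 0xbc0001780002fee87) b35216 (.one (nat_lit 3) (nat_lit 83) (nat_lit 62) (nat_lit 0xbc0001780002fc8e5) b35217 (.tok (nat_lit 6) (nat_lit 0xbc0001780002fec89) (.hit (nat_lit 86) (nat_lit 65) (nat_lit 0xbc0001780002fec89) b35220 (.hit (nat_lit 87) (nat_lit 66) (nat_lit 0xbc0001780002fcba2) b35221 (.nil))) (.tok (nat_lit 9) (nat_lit 0xbc0001780002fcd70) (.hit (nat_lit 84) (nat_lit 63) (nat_lit 0xbc0001780002fcc95) b35218 (.hit (nat_lit 85) (nat_lit 64) (nat_lit 0xbc0001780002fcd70) b35219 (.nil))) (.nil)))))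 (.one (nat_lit 17) (nat_lit 88) (nat_lit 67) (nat_lit 0xbc0001780002fc487) b35222 (.tok (nat_lit 20) (nat_lit 0xbc0001780002fd0d5) (.hit (nat_lit 89) (nat_lit 68) (nat_lit 0xbc0001780002fd0d5) b35223 (.hit (nat_lit 90) (nat_lit 69) (nat_lit 0xbc0001780002fc2b0) b35224 (.nil))) (.tok (nat_lit 23) (nat_lit 0xbc0001780002fcab0) (.hit (nat_lit 91) (nat_lit 70) (nat_lit 0xbc0001780002fcab0) b35225 (.hit (nat_lit 92) (nat_lit 71) (nat_lit 0xbc0001780002fc290) b35226 (.nil))) (.one (nat_lit 26) (nat_lit 93) (nat_lit 72) (nat_lit 0xbc0001780002fb015) b35227 (.one (nat_lit 29) (nat_lit 94) (nat_lit 73) (nat_lit 0xbc0001780002fb2a0) b35228 (.one (nat_lit 32) (nat_lit 95) (nat_lit 74) (nat_lit 0xbc0001780002fb6c1) b35229 (.one (nat_lit 35) (nat_lit 96) (nat_lit 75) (nat_lit 0xbc0001780002fbbcf) b35230 (.one (nat_lit 50) (nat_lit 104) (nat_lit 83) (nat_lit 0xbc0001780002fc8f2) b35231 (.tok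 (nat_lit 53) (nat_lit 0xbc0001780002fceab) (.hit (nat_lit 105) (nat_lit 84) (nat_lit 0xbc0001780002fceab) b35232 (.hit (nat_lit 106) (nat_lit 85) (nat_lit 0xbc0001780002fbeaf) b35233 (.nil))) (.tok (nat_lit 56) (nat_lit 0xbc0001780002fed9e) (.hit (nat_lit 107) (nat_lit 86) (nat_lit 0xbc0001780002fed9e) b35234 (.one (nat_lit 3) (nat_lit 111) (nat_lit 90) (nat_lit 0xbc0001780002fd431) b35238 (.tok (nat_lit 6) (nat_lit 0xbc0001780002fdc2d) (.hit (nat_lit 109) (nat_lit 88) (nat_lit 0xbc0001780002fd798) b35236 (.hit (nat_lit 110) (nat_lit 89) (nat_lit 0xbc0001780002fdc2d) b35237 (.nil))) (.one (nat_lit 9) (nat_lit 108) (nat_lit 87) (nat_lit 0xbc0001780002fd738) b35235 (.nil))))) (.one (nat_lit 59) (nat_lit 112) (nat_lit 91) (nat_lit 0xbc0001780002fadba) b35239 (.one (nat_lit 62) (nat_lit 113) (nat_lit 92) (nat_lit 0xbc0001780002fc229) b35240 (.tok (nat_lit 65) (nat_lit 0xbc0001780002fc574)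 (.hit (nat_lit 114) (nat_lit 93) (nat_lit 0xbc0001780002fc574) b35241 (.hit (nat_lit 115) (nat_lit 94) (nat_lit 0xbc0001780002fbe9c) b35242 (.nil))) (.tok (nat_lit 68) (nat_lit 0xbc0001780002fdf37) (.hit (nat_lit 116) (nat_lit 95) (nat_lit 0xbc0001780002fdf37) b35243 (.one (nat_lit 3) (nat_lit 120) (nat_lit 99) (nat_lit 0xbc0001780002fcd43) b35247 (.one (nat_lit 6) (nat_lit 117) (nat_lit 96) (nat_lit 0xbc0001780002fd04a) b35244 (.tok (nat_lit 9) (nat_lit 0xbc0001780002fdf2e) (.hit (nat_lit 118) (nat_lit 97) (nat_lit 0xbc0001780002fdf2e) b35245 (.hit (nat_lit 119) (nat_lit 98) (nat_lit 0xbc0001780002fcd77) b35246 (.nil))) (.nil))))) (.one (nat_lit 71) (nat_lit 121) (nat_lit 100) (nat_lit 0xbc0001780002fadda) b35248 (.nil)))))))))))))))))) (.tok (nat_lit 40) (nat_lit 0xbc0001780003046cf) (.hit (nat_lit 221) (nat_lit 0) (nat_lit 0xbc000178000301719) b35249 (.tok (nat_lit 6) (nat_lit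 0xbc000178000300401) (.hit (nat_lit 222) (nat_lit 7) (nat_lit 0xbc000178000300401) b35250 (.hit (nat_lit 223) (nat_lit 15) (nat_lit 0xbc0001780002feed4) b35251 (.nil))) (.tok (nat_lit 9) (nat_lit 0xbc0001780003046cf) (.hit (nat_lit 224) (nat_lit 20) (nat_lit 0xbc0001780003046cf) b35252 (.hit (nat_lit 225) (nat_lit 28) (nat_lit 0xbc0001780002fffa7) b35253 (.nil))) (.nil)))) (.tok (nat_lit 43) (nat_lit 0xbc0001780003013fc) (.hit (nat_lit 232) (nat_lit 0) (nat_lit 0xbc0001780003013fc) b35254 (.tok (nat_lit 3) (nat_lit 0xbc0001780002ff529) (.hit (nat_lit 233) (nat_lit 1) (nat_lit 0xbc0001780002fdd38) b35255 (.one (nat_lit 67) (nat_lit 234) (nat_lit 2) (nat_lit 0xbc0001780002ff529) b35256 (.nil))) (.tok (nat_lit 6) (nat_lit 0xbc00017800030020e) (.hit (nat_lit 235) (nat_lit 7) (nat_lit 0xbc0001780002fe502) b35257 (.hit (nat_lit 238) (nat_lit 15) (nat_lit 0xbc0001780002fdfd3) b35260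 (.tok (nat_lit 55) (nat_lit 0xbc00017800030020e) (.hit (nat_lit 236) (nat_lit 8) (nat_lit 0xbc0001780002ffb4a) b35258 (.hit (nat_lit 239) (nat_lit 16) (nat_lit 0xbc00017800030020e) b35261 (.one (nat_lit 6) (nat_lit 237) (nat_lit 9) (nat_lit 0xbc0001780002fff71) b35259 (.nil)))) (.nil)))) (.nil)))) (.tok (nat_lit 46) (nat_lit 0xbc0001780003035c8) (.hit (nat_lit 246) (nat_lit 0) (nat_lit 0xbc00017800030079f) b35262 (.tok (nat_lit 3) (nat_lit 0xbc0001780003035c8) (.hit (nat_lit 247) (nat_lit 1) (nat_lit 0xbc0001780002ffee3) b35263 (.one (nat_lit 55) (nat_lit 248) (nat_lit 3) (nat_lit 0xbc0001780003035c8) b35264 (.nil))) (.tok (nat_lit 9) (nat_lit 0xbc000178000301e9a) (.hit (nat_lit 249) (nat_lit 20) (nat_lit 0xbc0001780002ff1c3) b35265 (.hit (nat_lit 252) (nat_lit 28) (nat_lit 0xbc0001780002ff66a) b35268 (.tok (nat_lit 67) (nat_lit 0xbc000178000301e9a) (.hit (nat_lit 250) (nat_lit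 21) (nat_lit 0xbc0001780002ffefd) b35266 (.hit (nat_lit 253) (nat_lit 29) (nat_lit 0xbc000178000301e9a) b35269 (.one (nat_lit 9) (nat_lit 251) (nat_lit 22) (nat_lit 0xbc000178000301b25) b35267 (.nil)))) (.nil)))) (.nil)))) (.nil))))
noncomputable def r18_18 : Rw Blk := .tok (nat_lit 3) (nat_lit 0xbc0001780002fea7a) (.hit (nat_lit 61) (nat_lit 0) (nat_lit 0xbc0001780002fd520) b35270 (.tok (nat_lit 14) (nat_lit 0xbc0001780002fe9c9) (.hit (nat_lit 82) (nat_lit 61) (nat_lit 0xbc0001780002fe691) b35271 (.one (nat_lit 3) (nat_lit 83) (nat_lit 62) (nat_lit 0xbc0001780002fd92c) b35272 (.tok (nat_lit 6) (nat_lit 0xbc0001780002fe878) (.hit (nat_lit 86) (nat_lit 65) (nat_lit 0xbc0001780002fe878) b35275 (.hit (nat_lit 87) (nat_lit 66) (nat_lit 0xbc0001780002fe2b4) b35276 (.nil))) (.tok (nat_lit 9) (nat_lit 0xbc0001780002fe9c9) (.hit (nat_lit 84) (nat_lit 63) (nat_lit 0xbc0001780002fe9c9)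 b35273 (.hit (nat_lit 85) (nat_lit 64) (nat_lit 0xbc0001780002fd307) b35274 (.nil))) (.nil))))) (.one (nat_lit 17) (nat_lit 88) (nat_lit 67) (nat_lit 0xbc0001780002fd218) b35277 (.tok (nat_lit 20) (nat_lit 0xbc0001780002fcb68) (.hit (nat_lit 89) (nat_lit 68) (nat_lit 0xbc0001780002fcb68) b35278 (.hit (nat_lit 90) (nat_lit 69) (nat_lit 0xbc0001780002fc425) b35279 (.nil))) (.tok (nat_lit 23) (nat_lit 0xbc0001780002fcc6e) (.hit (nat_lit 91) (nat_lit 70) (nat_lit 0xbc0001780002fcc6e) b35280 (.hit (nat_lit 92) (nat_lit 71) (nat_lit 0xbc0001780002fc425) b35279 (.nil))) (.one (nat_lit 26) (nat_lit 93) (nat_lit 72) (nat_lit 0xbc0001780002fb8ad) b35281 (.one (nat_lit 29) (nat_lit 94) (nat_lit 73) (nat_lit 0xbc0001780002fb969) b35282 (.one (nat_lit 32) (nat_lit 95) (nat_lit 74) (nat_lit 0xbc0001780002fb49e) b35283 (.one (nat_lit 35) (nat_lit 96) (nat_lit 75) (nat_lit 0xbc0001780002fbe56)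 b35284 (.one (nat_lit 50) (nat_lit 104) (nat_lit 83) (nat_lit 0xbc0001780002fc714) b35285 (.tok (nat_lit 53) (nat_lit 0xbc0001780002fd860) (.hit (nat_lit 105) (nat_lit 84) (nat_lit 0xbc0001780002fd860) b35286 (.hit (nat_lit 106) (nat_lit 85) (nat_lit 0xbc0001780002fc87e) b35287 (.nil))) (.tok (nat_lit 56) (nat_lit 0xbc0001780002fea7a) (.hit (nat_lit 107) (nat_lit 86) (nat_lit 0xbc0001780002fe6e5) b35288 (.one (nat_lit 3) (nat_lit 111) (nat_lit 90) (nat_lit 0xbc0001780002fcb4a) b35292 (.tok (nat_lit 6) (nat_lit 0xbc0001780002fea7a) (.hit (nat_lit 109) (nat_lit 88) (nat_lit 0xbc0001780002fea7a) b35290 (.hit (nat_lit 110) (nat_lit 89) (nat_lit 0xbc0001780002fc4a7) b35291 (.nil))) (.one (nat_lit 9) (nat_lit 108) (nat_lit 87) (nat_lit 0xbc0001780002fe24c) b35289 (.nil))))) (.one (nat_lit 59) (nat_lit 112) (nat_lit 91) (nat_lit 0xbc0001780002fb013) b35293 (.one (nat_lit 62) (nat_lit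 113) (nat_lit 92) (nat_lit 0xbc0001780002fc2c6) b35294 (.tok (nat_lit 65) (nat_lit 0xbc0001780002fcc61) (.hit (nat_lit 114) (nat_lit 93) (nat_lit 0xbc0001780002fc64c) b35295 (.hit (nat_lit 115) (nat_lit 94) (nat_lit 0xbc0001780002fcc61) b35296 (.nil))) (.tok (nat_lit 68) (nat_lit 0xbc0001780002fdda8) (.hit (nat_lit 116) (nat_lit 95) (nat_lit 0xbc0001780002fdcd3) b35297 (.one (nat_lit 3) (nat_lit 120) (nat_lit 99) (nat_lit 0xbc0001780002fd547) b35301 (.one (nat_lit 6) (nat_lit 117) (nat_lit 96) (nat_lit 0xbc0001780002fd4e4) b35298 (.tok (nat_lit 9) (nat_lit 0xbc0001780002fdda8) (.hit (nat_lit 118) (nat_lit 97) (nat_lit 0xbc0001780002fdda8) b35299 (.hit (nat_lit 119) (nat_lit 98) (nat_lit 0xbc0001780002fcc11) b35300 (.nil))) (.nil))))) (.one (nat_lit 71) (nat_lit 121) (nat_lit 100) (nat_lit 0xbc0001780002fb026) b35302 (.nil)))))))))))))))))) (.tok (nat_lit 40) (nat_lit 0xbc0001780003007ce)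 (.hit (nat_lit 221) (nat_lit 0) (nat_lit 0xbc0001780003007ce) b35303 (.tok (nat_lit 6) (nat_lit 0xbc0001780002ff601) (.hit (nat_lit 222) (nat_lit 7) (nat_lit 0xbc0001780002ff601) b35304 (.hit (nat_lit 223) (nat_lit 15) (nat_lit 0xbc0001780002fefe2) b35305 (.nil))) (.tok (nat_lit 9) (nat_lit 0xbc0001780003006fe) (.hit (nat_lit 224) (nat_lit 20) (nat_lit 0xbc0001780003006fe) b35306 (.hit (nat_lit 225) (nat_lit 28) (nat_lit 0xbc0001780002ffaac) b35307 (.nil))) (.nil)))) (.tok (nat_lit 43) (nat_lit 0xbc000178000301ba0) (.hit (nat_lit 232) (nat_lit 0) (nat_lit 0xbc00017800030063c) b35308 (.tok (nat_lit 3) (nat_lit 0xbc00017800030136e) (.hit (nat_lit 233) (nat_lit 1) (nat_lit 0xbc0001780002ff23b) b35309 (.one (nat_lit 67) (nat_lit 234) (nat_lit 2) (nat_lit 0xbc00017800030136e) b35310 (.nil))) (.tok (nat_lit 6) (nat_lit 0xbc000178000301ba0) (.hit (nat_lit 235) (nat_lit 7) (nat_lit 0xbc000178000300e64)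 b35311 (.hit (nat_lit 238) (nat_lit 15) (nat_lit 0xbc0001780003002ef) b35314 (.tok (nat_lit 55) (nat_lit 0xbc000178000301ba0) (.hit (nat_lit 236) (nat_lit 8) (nat_lit 0xbc0001780003017d7) b35312 (.hit (nat_lit 239) (nat_lit 16) (nat_lit 0xbc0001780003019e3) b35315 (.one (nat_lit 6) (nat_lit 237) (nat_lit 9) (nat_lit 0xbc000178000301ba0) b35313 (.nil)))) (.nil)))) (.nil)))) (.tok (nat_lit 46) (nat_lit 0xbc000178000302798) (.hit (nat_lit 246) (nat_lit 0) (nat_lit 0xbc000178000300276) b35316 (.tok (nat_lit 3) (nat_lit 0xbc000178000302798) (.hit (nat_lit 247) (nat_lit 1) (nat_lit 0xbc0001780002ff3f2) b35317 (.one (nat_lit 55) (nat_lit 248) (nat_lit 3) (nat_lit 0xbc000178000302798) b35318 (.nil))) (.tok (nat_lit 9) (nat_lit 0xbc000178000300e0b) (.hit (nat_lit 249) (nat_lit 20) (nat_lit 0xbc0001780002ff62e) b35319 (.hit (nat_lit 252) (nat_lit 28) (nat_lit 0xbc0001780002fed03) b35322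 (.tok (nat_lit 67) (nat_lit 0xbc000178000300e0b) (.hit (nat_lit 250) (nat_lit 21) (nat_lit 0xbc000178000300610) b35320 (.hit (nat_lit 253) (nat_lit 29) (nat_lit 0xbc0001780003004ba) b35323 (.one (nat_lit 9) (nat_lit 251) (nat_lit 22) (nat_lit 0xbc000178000300e0b) b35321 (.nil)))) (.nil)))) (.nil)))) (.nil))))
noncomputable def r19_0 : Rw Blk := .tok (nat_lit 3) (nat_lit 0x17edb42fdaab5fd644bf96997ecea2ff78a5fe61cbfb8097f345afd959) (.hit (nat_lit 0) (nat_lit 0) (nat_lit 0x17db5f2fc20d5f9146bf46297e36aafce345f9278bf1ca97e0142fc65a) b35324 (.tok (nat_lit 6) (nat_lit 0x17db23afbdc15fbf5cbf70f17e65e2fd0335f98f8bf32017e2bfafcc41) (.hit (nat_lit 1) (nat_lit 7) (nat_lit 0x17d1a5afaac55f9b84bf25017dce02fbd375f7300bee6117d941afb945) b35325 (.hit (nat_lit 6) (nat_lit 15) (nat_lit 0x17d06e2fa8565f8498bf1b457dba8afbac85f6e22bedc557d80a2fb6d6) b35328 (.tok (nat_lit 14) (nat_lit 0x17db23afbdc15fbf5cbf70f17e65e2fd0335f98f8bf32017e2bfafcc41)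 (.hit (nat_lit 2) (nat_lit 11) (nat_lit 0x17d4f3afb1615faba2bf3f717e02e2fc3d35f8038bf00817dc8fafbfe1) b35326 (.hit (nat_lit 7) (nat_lit 17) (nat_lit 0x17d4752fb0645f9700bf3b7d7dfafafc2d65f7e3ebefc8d7dc112fbee4) b35329 (.one (nat_lit 9) (nat_lit 3) (nat_lit 12) (nat_lit 0x17db23afbdc15fbf5cbf70f17e65e2fd0335f98f8bf32017e2bfafcc41) b35327 (.nil)))) (.one (nat_lit 68) (nat_lit 8) (nat_lit 18) (nat_lit 0x17db04afbd835faffcbf6ff97e63f2fcff55f987cbf31097e2a0afcc03) b35330 (.nil))))) (.tok (nat_lit 52) (nat_lit 0x17d66d2fb4545fa7cebf4b3d7e1a7afc6c65f861ebf0c4d7de092fc2d4) (.hit (nat_lit 19) (nat_lit 39) (nat_lit 0x17d4d82fb12a5f8d50bf3e957e012afc39c5f7fcabeffa57dc742fbfaa) b35331 (.hit (nat_lit 20) (nat_lit 40) (nat_lit 0x17d66d2fb4545fa7cebf4b3d7e1a7afc6c65f861ebf0c4d7de092fc2d4) b35332 (.nil))) (.tok (nat_lit 55) (nat_lit 0x17edb42fdaab5fd644bf96997ecea2ff78a5fe61cbfb8097f345afd959)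 (.hit (nat_lit 21) (nat_lit 41) (nat_lit 0x17edb42fdaab5fd294bf96997eca1aff78a5fe61cbfb8097f345afd8c8) b35333 (.tok (nat_lit 3) (nat_lit 0x17debcafc4f35fd644bf8db97e9f72fd7655fa75cbf4ec97e658afd373) (.hit (nat_lit 27) (nat_lit 47) (nat_lit 0x17dae92fbd4c5fbd5cbf6f1d7e623afcfbe5f980ebf302d7e2852fcbcc) b35336 (.one (nat_lit 67) (nat_lit 28) (nat_lit 48) (nat_lit 0x17debcafc4f35fd644bf8db97e9f72fd7655fa75cbf4ec97e658afd373) b35337 (.nil))) (.tok (nat_lit 6) (nat_lit 0x17e047afcdcf5fb70ebf83b97ecea2fdcf15fb4fcbf7b3d7e9732fd959) (.hit (nat_lit 22) (nat_lit 42) (nat_lit 0x17e047afcdcf5fb70ebf83b97ecea2fdcf15fb4fcbf7b3d7e9732fd959) b35334 (.hit (nat_lit 25) (nat_lit 45) (nat_lit 0x17db15afbda55fb4f6bf70817e6502fd0175f98c0bf31917e2b1afcc25) b35335 (.nil))) (.nil)))) (.one (nat_lit 58) (nat_lit 29) (nat_lit 49) (nat_lit 0x17da852fbc845fb546bf6bfd7e5bfafcef65f967ebf2d0d7e2212fcb04) b35338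 (.nil)))))) (.tok (nat_lit 9) (nat_lit 0x180000300000600000c0000180151300760601106c0230d803ba300000) (.hit (nat_lit 157) (nat_lit 0) (nat_lit 0x17e581afdc9f5fa902bf6cc97eb6bafdceb5fb4e0bf77e17edf3afd6a4) b35339 (.tok (nat_lit 9) (nat_lit 0x17f2b4aff8035fed1cbfb3197f46c2ff92a5fdd82bfd5697fb622fe73e) (.hit (nat_lit 163) (nat_lit 20) (nat_lit 0x17e09dafd0a65f9922bf51c97e340afdbaf5fa04abf72717e945afc477) b35340 (.hit (nat_lit 171) (nat_lit 28) (nat_lit 0x17d9cfafb6265f9336bee2f97d63aafc6c75f870cbf0f197de29afab21) b35345 (.tok (nat_lit 14) (nat_lit 0x17f2b4aff8035fed1cbfb3197f46c2ff92a5fdd82bfd5697fb622fe73e) (.hit (nat_lit 167) (nat_lit 24) (nat_lit 0x17f10aaff3b75fea78bfafa17f46c2feaf55fcb7cbfae6d7f3f52fe212) b35341 (.hit (nat_lit 173) (nat_lit 30) (nat_lit 0x17e80dafd1cc5fd34ebf3e1d7e41cafdc595fad6abf76417e938afc7f9) b35346 (.one (nat_lit 6) (nat_lit 168) (nat_lit 25) (nat_lit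 0x17f2b4aff8035fed1cbfb3197f3c1aff92a5fdd82bfd5697fb622fe73e) b35342 (.nil)))) (.one (nat_lit 56) (nat_lit 174) (nat_lit 31) (nat_lit 0x17e41b2fcb905fb646bf37ed7e09cafddf25fa952bf5d717e600afc0f9) b35347 (.tok (nat_lit 68) (nat_lit 0x17ed65afeee85fcd8ebf986d7ee33afed405fc864bfab617efa42fdbfa) (.hit (nat_lit 169) (nat_lit 26) (nat_lit 0x17ed65afe7795fcc32bf91917ee33afed405fc864bfab617efa42fdbfa) b35343 (.hit (nat_lit 175) (nat_lit 32) (nat_lit 0x17e4432fcb115fa67ebf33997e0522fd9815fa5fabf5add7e57dafc064) b35348 (.one (nat_lit 9) (nat_lit 170) (nat_lit 27) (nat_lit 0x17e86f2feee85fcd8ebf986d7eb4dafe7bb5fc0e4bf9d257ee20afd620) b35344 (.nil)))) (.nil)))))) (.tok (nat_lit 64) (nat_lit 0x17e6ceafdf6f5fb5f8bf5ac17e46dafe4265fc9c2bf8d917ed142fc95a) (.hit (nat_lit 182) (nat_lit 50) (nat_lit 0x17e5b52fdf6f5fb3bcbf5ac17e46dafe4265fc9c2bf8d917ed142fc95a) b35349 (.hit (nat_lit 183) (nat_lit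 51) (nat_lit 0x17e6ceafd8db5fb5f8bf54997e34b2fdae65face4bf6e5d7ea932fc542) b35350 (.nil))) (.tok (nat_lit 67) (nat_lit 0x180000300000600000c0000180151300760601106c0230d803ba300000) (.hit (nat_lit 184) (nat_lit 52) (nat_lit 0x17f8022ffbd75fe1ccbfd8017fbac2ff4ce5ff0b2bfe5cd7fecfaff67d) b35351 (.tok (nat_lit 3) (nat_lit 0x1800002ff9dc5ff406c0000180151300178600ac2c0230d803ba300000) (.hit (nat_lit 190) (nat_lit 58) (nat_lit 0x17f3222feb625fdc68bfd0117fae9affeaa6005acc0230d803ba2ff39d) b35357 (.one (nat_lit 55) (nat_lit 191) (nat_lit 59) (nat_lit 0x1800002ff9dc5ff406c0000180151300178600ac2c01b2d801f9b00000) b35358 (.nil))) (.tok (nat_lit 9) (nat_lit 0x17fcc7300000600000bfc3dd7f804b00760601106bfe9817fd3f2ff86f) (.hit (nat_lit 185) (nat_lit 53) (nat_lit 0x17f1f62fe1dc5fca76bf8a397ed912ff72a5ff0eebfb5917f5b12fe276) b35352 (.hit (nat_lit 188) (nat_lit 56) (nat_lit 0x17eba62fe9075fed54bf8e197ea032fe2ee5fc016bf90a57ef5a2fd38b)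 b35355 (.tok (nat_lit 67) (nat_lit 0x17fcc7300000600000bfc3dd7f804b00760601106bfe9817fd3f2ff86f) (.hit (nat_lit 186) (nat_lit 54) (nat_lit 0x17fcc72ff9945ff958bfbd5d7f4d5b00525601012bfe9817fca22ff40e) b35353 (.hit (nat_lit 189) (nat_lit 57) (nat_lit 0x17f34c300000600000bfb2217efeaafec095fde36bfbc8d7f6f7afde2a) b35356 (.one (nat_lit 9) (nat_lit 187) (nat_lit 55) (nat_lit 0x17fb87aff31d5ff4e0bfc3dd7f804b00760601106bfe2797fd3f2ff86f) b35354 (.nil)))) (.nil)))) (.nil)))) (.one (nat_lit 70) (nat_lit 192) (nat_lit 60) (nat_lit 0x17eb1f2fdd7d5fd7f0bf5dc97e7be2fe8f15fcc48bf8af17ef822fce4d) b35359 (.nil)))))) (.nil))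
noncomputable def r19_1 : Rw Blk := .tok (nat_lit 6) (nat_lit 0xbc0001780002ff2cb) (.hit (nat_lit 51) (nat_lit 0) (nat_lit 0xbc0001780002fdd8e) b35360 (.tok (nat_lit 14) (nat_lit 0xbc0001780002fe955) (.hit (nat_lit 62) (nat_lit 61) (nat_lit 0xbc0001780002fe955) b35361 (.one (nat_lit 3) (nat_lit 63) (nat_lit 62) (nat_lit 0xbc0001780002fe7c0) b35362 (.tok (nat_lit 6) (nat_lit 0xbc0001780002fdef4) (.hit (nat_lit 66) (nat_lit 65) (nat_lit 0xbc0001780002fd4ba) b35365 (.hit (nat_lit 67) (nat_lit 66) (nat_lit 0xbc0001780002fdef4) b35366 (.nil))) (.tok (nat_lit 9) (nat_lit 0xbc0001780002fe5d6) (.hit (nat_lit 64) (nat_lit 63) (nat_lit 0xbc0001780002fe5d6) b35363 (.hit (nat_lit 65) (nat_lit 64) (nat_lit 0xbc0001780002fe05b) b35364 (.nil))) (.nil))))) (.one (nat_lit 17) (nat_lit 68) (nat_lit 67) (nat_lit 0xbc0001780002fddba) b35367 (.tok (nat_lit 20) (nat_lit 0xbc0001780002ff2cb) (.hit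 (nat_lit 69) (nat_lit 68) (nat_lit 0xbc0001780002ff2cb) b35368 (.hit (nat_lit 70) (nat_lit 69) (nat_lit 0xbc0001780002fdf29) b35369 (.nil))) (.tok (nat_lit 23) (nat_lit 0xbc0001780002fdc76) (.hit (nat_lit 71) (nat_lit 70) (nat_lit 0xbc0001780002fc0c1) b35370 (.hit (nat_lit 72) (nat_lit 71) (nat_lit 0xbc0001780002fdc76) b35371 (.nil))) (.one (nat_lit 26) (nat_lit 73) (nat_lit 72) (nat_lit 0xbc0001780002fcd78) b35372 (.one (nat_lit 29) (nat_lit 74) (nat_lit 73) (nat_lit 0xbc0001780002fcc9c) b35373 (.one (nat_lit 32) (nat_lit 75) (nat_lit 74) (nat_lit 0xbc0001780002fcb21) b35374 (.one (nat_lit 35) (nat_lit 76) (nat_lit 75) (nat_lit 0xbc0001780002fd5b0) b35375 (.one (nat_lit 38) (nat_lit 77) (nat_lit 76) (nat_lit 0xbc0001780002fdc01) b35376 (.tok (nat_lit 41) (nat_lit 0xbc0001780002fdeab) (.hit (nat_lit 78) (nat_lit 77) (nat_lit 0xbc0001780002fd639) b35377 (.hit (nat_lit 79) (nat_lit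 78) (nat_lit 0xbc0001780002fdeab) b35378 (.nil))) (.tok (nat_lit 44) (nat_lit 0xbc0001780002fe0f9) (.hit (nat_lit 80) (nat_lit 79) (nat_lit 0xbc0001780002fe0f9) b35379 (.hit (nat_lit 81) (nat_lit 80) (nat_lit 0xbc0001780002fd4ba) b35380 (.nil))) (.tok (nat_lit 47) (nat_lit 0xbc0001780002fe154) (.hit (nat_lit 82) (nat_lit 81) (nat_lit 0xbc0001780002fabf1) b35381 (.hit (nat_lit 83) (nat_lit 82) (nat_lit 0xbc0001780002fe154) b35382 (.nil))) (.one (nat_lit 62) (nat_lit 93) (nat_lit 92) (nat_lit 0xbc0001780002fd485) b35383 (.tok (nat_lit 65) (nat_lit 0xbc0001780002fdbf3) (.hit (nat_lit 94) (nat_lit 93) (nat_lit 0xbc0001780002fcfae) b35384 (.hit (nat_lit 95) (nat_lit 94) (nat_lit 0xbc0001780002fdbf3) b35385 (.nil))) (.tok (nat_lit 68) (nat_lit 0xbc0001780002fdd67) (.hit (nat_lit 96) (nat_lit 95) (nat_lit 0xbc0001780002fdd67) b35386 (.one (nat_lit 3) (nat_lit 100) (nat_lit 99) (nat_lit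 0xbc0001780002fc41f) b35390 (.one (nat_lit 6) (nat_lit 97) (nat_lit 96) (nat_lit 0xbc0001780002fcc0a) b35387 (.tok (nat_lit 9) (nat_lit 0xbc0001780002fcec2) (.hit (nat_lit 98) (nat_lit 97) (nat_lit 0xbc0001780002fcec2) b35388 (.hit (nat_lit 99) (nat_lit 98) (nat_lit 0xbc0001780002fc977) b35389 (.nil))) (.nil))))) (.one (nat_lit 71) (nat_lit 101) (nat_lit 100) (nat_lit 0xbc0001780002fd4ef) b35391 (.nil)))))))))))))))))) (.tok (nat_lit 52) (nat_lit 0xbc00017800030018c) (.hit (nat_lit 225) (nat_lit 0) (nat_lit 0xbc0001780002ffe78) b35392 (.tok (nat_lit 6) (nat_lit 0xbc00017800030018c) (.hit (nat_lit 226) (nat_lit 7) (nat_lit 0xbc00017800030018c) b35393 (.hit (nat_lit 227) (nat_lit 15) (nat_lit 0xbc0001780002fea76) b35394 (.nil))) (.tok (nat_lit 9) (nat_lit 0xbc0001780002fe535) (.hit (nat_lit 228) (nat_lit 20) (nat_lit 0xbc0001780002fcf64) b35395 (.hit (nat_lit 229) (nat_lit 28)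 (nat_lit 0xbc0001780002fe535) b35396 (.nil))) (.nil)))) (.tok (nat_lit 55) (nat_lit 0xbc0001780002fee4f) (.hit (nat_lit 250) (nat_lit 0) (nat_lit 0xbc0001780002fee4f) b35405 (.tok (nat_lit 3) (nat_lit 0xbc0001780002fe45d) (.hit (nat_lit 251) (nat_lit 1) (nat_lit 0xbc0001780002fc94e) b35406 (.one (nat_lit 67) (nat_lit 252) (nat_lit 2) (nat_lit 0xbc0001780002fe45d) b35407 (.nil))) (.tok (nat_lit 6) (nat_lit 0xbc0001780002fcf51) (.hit (nat_lit 253) (nat_lit 7) (nat_lit 0xbc0001780002fcf51) b35408 (.hit (nat_lit 256) (nat_lit 15) (nat_lit 0xbc0001780002fc83b) b35409 (.nil))) (.nil)))) (.tok (nat_lit 58) (nat_lit 0xbc0001780002ff795) (.hit (nat_lit 236) (nat_lit 0) (nat_lit 0xbc0001780002ff795) b35397 (.tok (nat_lit 3) (nat_lit 0xbc0001780002feae1) (.hit (nat_lit 237) (nat_lit 1) (nat_lit 0xbc0001780002fc8e4) b35398 (.one (nat_lit 55) (nat_lit 238) (nat_lit 3) (nat_lit 0xbc0001780002feae1)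 b35399 (.nil))) (.tok (nat_lit 9) (nat_lit 0xbc0001780002ff677) (.hit (nat_lit 239) (nat_lit 20) (nat_lit 0xbc0001780002fd615) b35400 (.hit (nat_lit 242) (nat_lit 28) (nat_lit 0xbc0001780002fced2) b35403 (.tok (nat_lit 67) (nat_lit 0xbc0001780002ff677) (.hit (nat_lit 240) (nat_lit 21) (nat_lit 0xbc0001780002fe128) b35401 (.hit (nat_lit 243) (nat_lit 29) (nat_lit 0xbc0001780002fe5d3) b35404 (.one (nat_lit 9) (nat_lit 241) (nat_lit 22) (nat_lit 0xbc0001780002ff677) b35402 (.nil)))) (.nil)))) (.nil)))) (.nil))))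
noncomputable def r19_2 : Rw Blk := .tok (nat_lit 3) (nat_lit 0xbc0001780003013b2) (.hit (nat_lit 15) (nat_lit 0) (nat_lit 0xbc0001780002ff04b) b35417 (.tok (nat_lit 9) (nat_lit 0xbc0001780002fde33) (.hit (nat_lit 16) (nat_lit 20) (nat_lit 0xbc0001780002fcb68) b35418 (.hit (nat_lit 21) (nat_lit 28) (nat_lit 0xbc0001780002fb3a6) b35423 (.tok (nat_lit 14) (nat_lit 0xbc0001780002fd6d7) (.hit (nat_lit 17) (nat_lit 24) (nat_lit 0xbc0001780002fc8b0) b35419 (.hit (nat_lit 22) (nat_lit 30) (nat_lit 0xbc0001780002fd407) b35424 (.one (nat_lit 6) (nat_lit 18) (nat_lit 25) (nat_lit 0xbc0001780002fd6d7) b35420 (.nil)))) (.tok (nat_lit 68) (nat_lit 0xbc0001780002fde33) (.hit (nat_lit 19) (nat_lit 26) (nat_lit 0xbc0001780002fd3a9) b35421 (.hit (nat_lit 24) (nat_lit 32) (nat_lit 0xbc0001780002fd484) b35425 (.one (nat_lit 9) (nat_lit 20) (nat_lit 27) (nat_lit 0xbc0001780002fde33) b35422 (.nil))))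 (.nil))))) (.tok (nat_lit 64) (nat_lit 0xbc0001780002fdf18) (.hit (nat_lit 25) (nat_lit 50) (nat_lit 0xbc0001780002fd1f2) b35426 (.hit (nat_lit 26) (nat_lit 51) (nat_lit 0xbc0001780002fdf18) b35427 (.nil))) (.tok (nat_lit 67) (nat_lit 0xbc0001780003013b2) (.hit (nat_lit 27) (nat_lit 52) (nat_lit 0xbc0001780003013b2) b35428 (.tok (nat_lit 3) (nat_lit 0xbc0001780002fe750) (.hit (nat_lit 33) (nat_lit 58) (nat_lit 0xbc0001780002fdf31) b35434 (.one (nat_lit 55) (nat_lit 34) (nat_lit 59) (nat_lit 0xbc0001780002fe750) b35435 (.nil))) (.tok (nat_lit 9) (nat_lit 0xbc0001780002fe1eb) (.hit (nat_lit 28) (nat_lit 53) (nat_lit 0xbc0001780002fd7d0) b35429 (.hit (nat_lit 31) (nat_lit 56) (nat_lit 0xbc0001780002fdb07) b35432 (.tok (nat_lit 67) (nat_lit 0xbc0001780002fe1eb) (.hit (nat_lit 29) (nat_lit 54) (nat_lit 0xbc0001780002fe1eb) b35430 (.hit (nat_lit 32) (nat_lit 57) (nat_lit 0xbc0001780002fe0ee)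 b35433 (.one (nat_lit 9) (nat_lit 30) (nat_lit 55) (nat_lit 0xbc0001780002fd721) b35431 (.nil)))) (.nil)))) (.nil)))) (.one (nat_lit 70) (nat_lit 35) (nat_lit 60) (nat_lit 0xbc0001780002fddfd) b35436 (.nil)))))) (.tok (nat_lit 6) (nat_lit 0xbc000178000300d77) (.hit (nat_lit 0) (nat_lit 0) (nat_lit 0xbc00017800030041f) b35410 (.tok (nat_lit 6) (nat_lit 0xbc000178000300d77) (.hit (nat_lit 1) (nat_lit 7) (nat_lit 0xbc0001780002fed93) b35411 (.hit (nat_lit 4) (nat_lit 15) (nat_lit 0xbc0001780002fe226) b35414 (.tok (nat_lit 14) (nat_lit 0xbc000178000300d77) (.hit (nat_lit 2) (nat_lit 11) (nat_lit 0xbc000178000300788) b35412 (.hit (nat_lit 5) (nat_lit 17) (nat_lit 0xbc0001780002fece6) b35415 (.one (nat_lit 9) (nat_lit 3) (nat_lit 12) (nat_lit 0xbc000178000300d77) b35413 (.nil)))) (.one (nat_lit 68) (nat_lit 6) (nat_lit 18) (nat_lit 0xbc000178000300262) b35416 (.nil))))) (.nil))) (.nil))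
noncomputable def r19_3 : Rw Blk := .tok (nat_lit 9) (nat_lit 0xbc000178000300c89) (.hit (nat_lit 0) (nat_lit 0) (nat_lit 0xbc0001780002fe546) b35437 (.tok (nat_lit 14) (nat_lit 0xbc0001780003009c7) (.hit (nat_lit 21) (nat_lit 61) (nat_lit 0xbc0001780002ffd77) b35438 (.one (nat_lit 3) (nat_lit 22) (nat_lit 62) (nat_lit 0xbc0001780003001cc) b35439 (.tok (nat_lit 6) (nat_lit 0xbc0001780003009c7) (.hit (nat_lit 25) (nat_lit 65) (nat_lit 0xbc0001780003009c7) b35442 (.hit (nat_lit 26) (nat_lit 66) (nat_lit 0xbc0001780002febd0) b35443 (.nil))) (.tok (nat_lit 9) (nat_lit 0xbc0001780002fed51) (.hit (nat_lit 23) (nat_lit 63) (nat_lit 0xbc0001780002fc9f7) b35440 (.hit (nat_lit 24) (nat_lit 64) (nat_lit 0xbc0001780002fed51) b35441 (.nil))) (.nil))))) (.one (nat_lit 17) (nat_lit 27) (nat_lit 67) (nat_lit 0xbc0001780002ff48b) b35444 (.tok (nat_lit 20) (nat_lit 0xbc0001780002fe4ab) (.hit (nat_lit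 28) (nat_lit 68) (nat_lit 0xbc0001780002fb93a) b35445 (.hit (nat_lit 29) (nat_lit 69) (nat_lit 0xbc0001780002fe4ab) b35446 (.nil))) (.tok (nat_lit 23) (nat_lit 0xbc000178000300c89) (.hit (nat_lit 30) (nat_lit 70) (nat_lit 0xbc000178000300c89) b35447 (.hit (nat_lit 31) (nat_lit 71) (nat_lit 0xbc0001780002fe78d) b35448 (.nil))) (.one (nat_lit 26) (nat_lit 32) (nat_lit 72) (nat_lit 0xbc0001780002fddc0) b35449 (.one (nat_lit 29) (nat_lit 33) (nat_lit 73) (nat_lit 0xbc0001780002fe302) b35450 (.one (nat_lit 32) (nat_lit 34) (nat_lit 74) (nat_lit 0xbc0001780002fed8c) b35451 (.one (nat_lit 35) (nat_lit 35) (nat_lit 75) (nat_lit 0xbc0001780002fd609) b35452 (.one (nat_lit 50) (nat_lit 43) (nat_lit 83) (nat_lit 0xbc0001780002fdd83) b35453 (.tok (nat_lit 53) (nat_lit 0xbc0001780002fe953) (.hit (nat_lit 44) (nat_lit 84) (nat_lit 0xbc0001780002fe953) b35454 (.hit (nat_lit 45) (nat_lit 85)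 (nat_lit 0xbc0001780002fd41f) b35455 (.nil))) (.tok (nat_lit 56) (nat_lit 0xbc0001780002fdbfa) (.hit (nat_lit 46) (nat_lit 86) (nat_lit 0xbc0001780002fdbfa) b35456 (.one (nat_lit 3) (nat_lit 50) (nat_lit 90) (nat_lit 0xbc0001780002fb8bd) b35460 (.tok (nat_lit 6) (nat_lit 0xbc0001780002fcacc) (.hit (nat_lit 48) (nat_lit 88) (nat_lit 0xbc0001780002fcacc) b35458 (.hit (nat_lit 49) (nat_lit 89) (nat_lit 0xbc0001780002fc27a) b35459 (.nil))) (.one (nat_lit 9) (nat_lit 47) (nat_lit 87) (nat_lit 0xbc0001780002fbce0) b35457 (.nil))))) (.one (nat_lit 59) (nat_lit 51) (nat_lit 91) (nat_lit 0xbc0001780002fe42a) b35461 (.one (nat_lit 62) (nat_lit 52) (nat_lit 92) (nat_lit 0xbc0001780002fec66) b35462 (.tok (nat_lit 65) (nat_lit 0xbc0001780002ff75c) (.hit (nat_lit 53) (nat_lit 93) (nat_lit 0xbc0001780002ff75c) b35463 (.hit (nat_lit 54) (nat_lit 94) (nat_lit 0xbc0001780002feb4e) b35464 (.nil)))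 (.tok (nat_lit 68) (nat_lit 0xbc0001780002ffc90) (.hit (nat_lit 55) (nat_lit 95) (nat_lit 0xbc0001780002ff952) b35465 (.one (nat_lit 3) (nat_lit 59) (nat_lit 99) (nat_lit 0xbc0001780002fecd4) b35469 (.one (nat_lit 6) (nat_lit 56) (nat_lit 96) (nat_lit 0xbc0001780002ffc90) b35466 (.tok (nat_lit 9) (nat_lit 0xbc0001780002ff945) (.hit (nat_lit 57) (nat_lit 97) (nat_lit 0xbc0001780002ff945) b35467 (.hit (nat_lit 58) (nat_lit 98) (nat_lit 0xbc0001780002ff35e) b35468 (.nil))) (.nil))))) (.one (nat_lit 71) (nat_lit 60) (nat_lit 100) (nat_lit 0xbc0001780002fe6b2) b35470 (.nil)))))))))))))))))) (.tok (nat_lit 64) (nat_lit 0xbc0001780003010f9) (.hit (nat_lit 176) (nat_lit 0) (nat_lit 0xbc0001780003010f9) b35471 (.tok (nat_lit 6) (nat_lit 0xbc0001780002ff9e4) (.hit (nat_lit 177) (nat_lit 7) (nat_lit 0xbc0001780002fe64c) b35472 (.hit (nat_lit 178) (nat_lit 15) (nat_lit 0xbc0001780002ff9e4)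 b35473 (.nil))) (.tok (nat_lit 9) (nat_lit 0xbc0001780002ffd13) (.hit (nat_lit 179) (nat_lit 20) (nat_lit 0xbc0001780002ffd13) b35474 (.hit (nat_lit 180) (nat_lit 28) (nat_lit 0xbc0001780002fec32) b35475 (.nil))) (.nil)))) (.tok (nat_lit 67) (nat_lit 0xbc0001780002ff5e8) (.hit (nat_lit 201) (nat_lit 0) (nat_lit 0xbc0001780002ff3a2) b35484 (.tok (nat_lit 3) (nat_lit 0xbc0001780002fecea) (.hit (nat_lit 202) (nat_lit 1) (nat_lit 0xbc0001780002fd646) b35485 (.one (nat_lit 55) (nat_lit 203) (nat_lit 3) (nat_lit 0xbc0001780002fecea) b35486 (.nil))) (.tok (nat_lit 9) (nat_lit 0xbc0001780002ff5e8) (.hit (nat_lit 204) (nat_lit 20) (nat_lit 0xbc0001780002fe0cb) b35487 (.hit (nat_lit 207) (nat_lit 28) (nat_lit 0xbc0001780002fd71c) b35490 (.tok (nat_lit 67) (nat_lit 0xbc0001780002ff5e8) (.hit (nat_lit 205) (nat_lit 21) (nat_lit 0xbc0001780002fefb3) b35488 (.hit (nat_lit 208) (nat_lit 29)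 (nat_lit 0xbc0001780002fef99) b35491 (.one (nat_lit 9) (nat_lit 206) (nat_lit 22) (nat_lit 0xbc0001780002ff5e8) b35489 (.nil)))) (.nil)))) (.nil)))) (.tok (nat_lit 70) (nat_lit 0xbc000178000300101) (.hit (nat_lit 187) (nat_lit 0) (nat_lit 0xbc0001780002ff871) b35476 (.tok (nat_lit 3) (nat_lit 0xbc0001780002ff7da) (.hit (nat_lit 188) (nat_lit 1) (nat_lit 0xbc0001780002fde43) b35477 (.one (nat_lit 67) (nat_lit 189) (nat_lit 2) (nat_lit 0xbc0001780002ff7da) b35478 (.nil))) (.tok (nat_lit 6) (nat_lit 0xbc000178000300101) (.hit (nat_lit 190) (nat_lit 7) (nat_lit 0xbc0001780002fe036) b35479 (.hit (nat_lit 193) (nat_lit 15) (nat_lit 0xbc0001780002fe063) b35482 (.tok (nat_lit 55) (nat_lit 0xbc000178000300101) (.hit (nat_lit 191) (nat_lit 8) (nat_lit 0xbc0001780002fed2d) b35480 (.hit (nat_lit 194) (nat_lit 16) (nat_lit 0xbc0001780002ffa9e) b35483 (.one (nat_lit 6) (nat_lit 192) (nat_lit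 9) (nat_lit 0xbc000178000300101) b35481 (.nil)))) (.nil)))) (.nil)))) (.nil))))
noncomputable def r19_4 : Rw Blk := .tok (nat_lit 3) (nat_lit 0xbc00017800030236c) (.hit (nat_lit 15) (nat_lit 0) (nat_lit 0xbc0001780003013e1) b35503 (.tok (nat_lit 6) (nat_lit 0xbc0001780003003ad) (.hit (nat_lit 16) (nat_lit 7) (nat_lit 0xbc0001780002fd0f3) b35504 (.hit (nat_lit 21) (nat_lit 15) (nat_lit 0xbc0001780002fe051) b35507 (.tok (nat_lit 56) (nat_lit 0xbc0001780002fed9c) (.hit (nat_lit 19) (nat_lit 13) (nat_lit 0xbc0001780002fe1fa) b35505 (.hit (nat_lit 24) (nat_lit 19) (nat_lit 0xbc0001780002fe84c) b35509 (.one (nat_lit 6) (nat_lit 20) (nat_lit 14) (nat_lit 0xbc0001780002fed9c) b35506 (.nil)))) (.one (nat_lit 68) (nat_lit 23) (nat_lit 18) (nat_lit 0xbc0001780003003ad) b35508 (.nil))))) (.tok (nat_lit 52) (nat_lit 0xbc0001780002ffaf5) (.hit (nat_lit 25) (nat_lit 39) (nat_lit 0xbc0001780002ff5df)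 b35510 (.hit (nat_lit 26) (nat_lit 40) (nat_lit 0xbc0001780002ffaf5) b35511 (.nil))) (.tok (nat_lit 55) (nat_lit 0xbc00017800030236c) (.hit (nat_lit 27) (nat_lit 41) (nat_lit 0xbc00017800030236c) b35512 (.one (nat_lit 3) (nat_lit 33) (nat_lit 47) (nat_lit 0xbc0001780002fecbc) b35518 (.tok (nat_lit 6) (nat_lit 0xbc0001780002ff4b3) (.hit (nat_lit 28) (nat_lit 42) (nat_lit 0xbc0001780002feda6) b35513 (.hit (nat_lit 31) (nat_lit 45) (nat_lit 0xbc0001780002fea44) b35516 (.tok (nat_lit 55) (nat_lit 0xbc0001780002ff4b3) (.hit (nat_lit 29) (nat_lit 43) (nat_lit 0xbc0001780002ff4b3) b35514 (.hit (nat_lit 32) (nat_lit 46) (nat_lit 0xbc0001780002ff42a) b35517 (.one (nat_lit 6) (nat_lit 30) (nat_lit 44) (nat_lit 0xbc0001780002fe940) b35515 (.nil)))) (.nil)))) (.nil)))) (.one (nat_lit 58) (nat_lit 35) (nat_lit 49) (nat_lit 0xbc000178000301f6b) b35519 (.nil)))))) (.tok (nat_lit 9) (nat_lit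 0xbc0001780003047be) (.hit (nat_lit 0) (nat_lit 0) (nat_lit 0xbc00017800030159c) b35492 (.tok (nat_lit 9) (nat_lit 0xbc000178000301785) (.hit (nat_lit 1) (nat_lit 20) (nat_lit 0xbc0001780002fe542) b35493 (.hit (nat_lit 4) (nat_lit 28) (nat_lit 0xbc0001780002fee95) b35494 (.one (nat_lit 56) (nat_lit 6) (nat_lit 31) (nat_lit 0xbc000178000301785) b35495 (.nil)))) (.tok (nat_lit 64) (nat_lit 0xbc000178000304692) (.hit (nat_lit 7) (nat_lit 50) (nat_lit 0xbc000178000304692) b35496 (.hit (nat_lit 8) (nat_lit 51) (nat_lit 0xbc000178000301fdc) b35497 (.nil))) (.tok (nat_lit 67) (nat_lit 0xbc0001780003047be) (.hit (nat_lit 9) (nat_lit 52) (nat_lit 0xbc000178000303869) b35498 (.one (nat_lit 3) (nat_lit 12) (nat_lit 58) (nat_lit 0xbc0001780003006af) b35501 (.tok (nat_lit 9) (nat_lit 0xbc0001780003047be) (.hit (nat_lit 10) (nat_lit 53) (nat_lit 0xbc0001780003047be) b35499 (.hit (nat_lit 11)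 (nat_lit 56) (nat_lit 0xbc000178000300b22) b35500 (.nil))) (.nil)))) (.one (nat_lit 70) (nat_lit 14) (nat_lit 60) (nat_lit 0xbc0001780003043f7) b35502 (.nil)))))) (.nil))
noncomputable def r19_5 : Rw Blk := .tok (nat_lit 9) (nat_lit 0xbc0001780003020a0) (.hit (nat_lit 0) (nat_lit 0) (nat_lit 0xbc000178000300652) b35520 (.one (nat_lit 26) (nat_lit 12) (nat_lit 72) (nat_lit 0xbc0001780003003bc) b35521 (.one (nat_lit 29) (nat_lit 13) (nat_lit 73) (nat_lit 0xbc0001780003009c8) b35522 (.one (nat_lit 32) (nat_lit 14) (nat_lit 74) (nat_lit 0xbc00017800030053d) b35523 (.one (nat_lit 35) (nat_lit 15) (nat_lit 75) (nat_lit 0xbc0001780002fefa1) b35524 (.one (nat_lit 38) (nat_lit 16) (nat_lit 76) (nat_lit 0xbc0001780002ff413) b35525 (.tok (nat_lit 41) (nat_lit 0xbc0001780002feff9) (.hit (nat_lit 17) (nat_lit 77) (nat_lit 0xbc0001780002fe769) b35526 (.hit (nat_lit 18) (nat_lit 78) (nat_lit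 0xbc0001780002feff9) b35527 (.nil))) (.tok (nat_lit 44) (nat_lit 0xbc0001780002ff983) (.hit (nat_lit 19) (nat_lit 79) (nat_lit 0xbc0001780002fe42c) b35528 (.hit (nat_lit 20) (nat_lit 80) (nat_lit 0xbc0001780002ff983) b35529 (.nil))) (.tok (nat_lit 47) (nat_lit 0xbc0001780002ffabf) (.hit (nat_lit 21) (nat_lit 81) (nat_lit 0xbc0001780002ffabf) b35530 (.hit (nat_lit 22) (nat_lit 82) (nat_lit 0xbc0001780002fe598) b35531 (.nil))) (.one (nat_lit 50) (nat_lit 23) (nat_lit 83) (nat_lit 0xbc000178000300c0a) b35532 (.tok (nat_lit 53) (nat_lit 0xbc0001780002ff809) (.hit (nat_lit 24) (nat_lit 84) (nat_lit 0xbc0001780002ff5fd) b35533 (.hit (nat_lit 25) (nat_lit 85) (nat_lit 0xbc0001780002ff809) b35534 (.nil))) (.tok (nat_lit 56) (nat_lit 0xbc0001780003020a0) (.hit (nat_lit 26) (nat_lit 86) (nat_lit 0xbc0001780003020a0) b35535 (.one (nat_lit 3) (nat_lit 30) (nat_lit 90) (nat_lit 0xbc0001780002ffbd3)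 b35539 (.tok (nat_lit 6) (nat_lit 0xbc0001780002ff96c) (.hit (nat_lit 28) (nat_lit 88) (nat_lit 0xbc0001780002ff96c) b35537 (.hit (nat_lit 29) (nat_lit 89) (nat_lit 0xbc0001780002fee0a) b35538 (.nil))) (.one (nat_lit 9) (nat_lit 27) (nat_lit 87) (nat_lit 0xbc0001780002ff700) b35536 (.nil))))) (.one (nat_lit 59) (nat_lit 31) (nat_lit 91) (nat_lit 0xbc0001780002ffa53) b35540 (.nil)))))))))))))) (.tok (nat_lit 64) (nat_lit 0xbc0001780003041d6) (.hit (nat_lit 45) (nat_lit 0) (nat_lit 0xbc0001780003041d6) b35552 (.tok (nat_lit 6) (nat_lit 0xbc000178000300f57) (.hit (nat_lit 46) (nat_lit 7) (nat_lit 0xbc0001780002fff5e) b35553 (.hit (nat_lit 47) (nat_lit 15) (nat_lit 0xbc000178000300f57) b35554 (.nil))) (.tok (nat_lit 9) (nat_lit 0xbc0001780003037c5) (.hit (nat_lit 48) (nat_lit 20) (nat_lit 0xbc0001780003037c5) b35555 (.hit (nat_lit 49) (nat_lit 28) (nat_lit 0xbc000178000302de7) b35556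 (.nil))) (.nil)))) (.tok (nat_lit 67) (nat_lit 0xbc000178000301efe) (.hit (nat_lit 40) (nat_lit 0) (nat_lit 0xbc000178000301abc) b35548 (.one (nat_lit 3) (nat_lit 41) (nat_lit 1) (nat_lit 0xbc000178000300ba7) b35549 (.tok (nat_lit 9) (nat_lit 0xbc000178000301efe) (.hit (nat_lit 43) (nat_lit 20) (nat_lit 0xbc000178000301efe) b35550 (.hit (nat_lit 44) (nat_lit 28) (nat_lit 0xbc000178000300226) b35551 (.nil))) (.nil)))) (.tok (nat_lit 70) (nat_lit 0xbc0001780003032c3) (.hit (nat_lit 32) (nat_lit 0) (nat_lit 0xbc000178000302305) b35541 (.one (nat_lit 3) (nat_lit 33) (nat_lit 1) (nat_lit 0xbc0001780003020dd) b35542 (.tok (nat_lit 6) (nat_lit 0xbc0001780003032c3) (.hit (nat_lit 35) (nat_lit 7) (nat_lit 0xbc0001780003025b5) b35543 (.hit (nat_lit 38) (nat_lit 15) (nat_lit 0xbc000178000301d67) b35546 (.tok (nat_lit 55) (nat_lit 0xbc0001780003032c3) (.hit (nat_lit 36) (nat_lit 8) (nat_lit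 0xbc000178000302c59) b35544 (.hit (nat_lit 39) (nat_lit 16) (nat_lit 0xbc000178000303141) b35547 (.one (nat_lit 6) (nat_lit 37) (nat_lit 9) (nat_lit 0xbc0001780003032c3) b35545 (.nil)))) (.nil)))) (.nil)))) (.nil))))
noncomputable def r19_6 : Rw Blk := .tok (nat_lit 3) (nat_lit 0xbc000178000303e39) (.hit (nat_lit 0) (nat_lit 0) (nat_lit 0xbc000178000303e39) b35557 (.tok (nat_lit 6) (nat_lit 0xbc0001780003028cf) (.hit (nat_lit 1) (nat_lit 7) (nat_lit 0xbc0001780002ff881) b35558 (.hit (nat_lit 6) (nat_lit 15) (nat_lit 0xbc0001780002ffe05) b35563 (.tok (nat_lit 14) (nat_lit 0xbc00017800030255d) (.hit (nat_lit 2) (nat_lit 11) (nat_lit 0xbc000178000301436) b35559 (.hit (nat_lit 7) (nat_lit 17) (nat_lit 0xbc00017800030255d) b35564 (.one (nat_lit 9) (nat_lit 3) (nat_lit 12) (nat_lit 0xbc0001780003011d1) b35560 (.nil)))) (.tok (nat_lit 56) (nat_lit 0xbc0001780003028cf) (.hit (nat_lit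 4) (nat_lit 13) (nat_lit 0xbc000178000300afd) b35561 (.hit (nat_lit 8) (nat_lit 19) (nat_lit 0xbc000178000301d82) b35565 (.one (nat_lit 6) (nat_lit 5) (nat_lit 14) (nat_lit 0xbc0001780003028cf) b35562 (.nil)))) (.nil))))) (.nil))) (.tok (nat_lit 9) (nat_lit 0xbc00017800030626a) (.hit (nat_lit 20) (nat_lit 0) (nat_lit 0xbc000178000304ffb) b35566 (.tok (nat_lit 9) (nat_lit 0xbc00017800030626a) (.hit (nat_lit 21) (nat_lit 20) (nat_lit 0xbc000178000303813) b35567 (.hit (nat_lit 24) (nat_lit 28) (nat_lit 0xbc00017800030303a) b35570 (.tok (nat_lit 14) (nat_lit 0xbc00017800030626a) (.hit (nat_lit 22) (nat_lit 24) (nat_lit 0xbc000178000304e84) b35568 (.hit (nat_lit 25) (nat_lit 30) (nat_lit 0xbc000178000303be0) b35571 (.one (nat_lit 6) (nat_lit 23) (nat_lit 25) (nat_lit 0xbc00017800030626a) b35569 (.nil)))) (.nil)))) (.nil))) (.nil))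
noncomputable def r19_7 : Rw Blk := .tok (nat_lit 9) (nat_lit 0xbc0001780003002d9) (.hit (nat_lit 0) (nat_lit 0) (nat_lit 0xbc0001780002fda94) b35572 (.tok (nat_lit 14) (nat_lit 0xbc0001780003002d9) (.hit (nat_lit 21) (nat_lit 61) (nat_lit 0xbc0001780002ff499) b35573 (.one (nat_lit 3) (nat_lit 22) (nat_lit 62) (nat_lit 0xbc0001780002fe72f) b35574 (.tok (nat_lit 6) (nat_lit 0xbc0001780003002d9) (.hit (nat_lit 25) (nat_lit 65) (nat_lit 0xbc0001780003002d9) b35577 (.hit (nat_lit 26) (nat_lit 66) (nat_lit 0xbc0001780002fec24) b35578 (.nil))) (.tok (nat_lit 9) (nat_lit 0xbc0001780002fe7a5) (.hit (nat_lit 23) (nat_lit 63) (nat_lit 0xbc0001780002fd4dd) b35575 (.hit (nat_lit 24) (nat_lit 64) (nat_lit 0xbc0001780002fe7a5) b35576 (.nil))) (.nil))))) (.one (nat_lit 17) (nat_lit 27) (nat_lit 67) (nat_lit 0xbc0001780002fdd47) b35579 (.tok (nat_lit 20) (nat_lit 0xbc0001780002fdd1d) (.hit (nat_lit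 28) (nat_lit 68) (nat_lit 0xbc0001780002fcd5e) b35580 (.hit (nat_lit 29) (nat_lit 69) (nat_lit 0xbc0001780002fdd1d) b35581 (.nil))) (.tok (nat_lit 23) (nat_lit 0xbc0001780002fe64b) (.hit (nat_lit 30) (nat_lit 70) (nat_lit 0xbc0001780002fe64b) b35582 (.hit (nat_lit 31) (nat_lit 71) (nat_lit 0xbc0001780002fda19) b35583 (.nil))) (.one (nat_lit 26) (nat_lit 32) (nat_lit 72) (nat_lit 0xbc0001780002fd5b3) b35584 (.one (nat_lit 29) (nat_lit 33) (nat_lit 73) (nat_lit 0xbc0001780002fd408) b35585 (.one (nat_lit 32) (nat_lit 34) (nat_lit 74) (nat_lit 0xbc0001780002fdb85) b35586 (.one (nat_lit 35) (nat_lit 35) (nat_lit 75) (nat_lit 0xbc0001780002fcc00) b35587 (.one (nat_lit 50) (nat_lit 43) (nat_lit 83) (nat_lit 0xbc0001780002fd78f) b35588 (.tok (nat_lit 53) (nat_lit 0xbc0001780002fd468) (.hit (nat_lit 44) (nat_lit 84) (nat_lit 0xbc0001780002fcf93) b35589 (.hit (nat_lit 45) (nat_lit 85)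 (nat_lit 0xbc0001780002fd468) b35590 (.nil))) (.tok (nat_lit 56) (nat_lit 0xbc0001780002fdb70) (.hit (nat_lit 46) (nat_lit 86) (nat_lit 0xbc0001780002fdb70) b35591 (.one (nat_lit 3) (nat_lit 50) (nat_lit 90) (nat_lit 0xbc0001780002fcb89) b35595 (.tok (nat_lit 6) (nat_lit 0xbc0001780002fceb7) (.hit (nat_lit 48) (nat_lit 88) (nat_lit 0xbc0001780002fceb7) b35593 (.hit (nat_lit 49) (nat_lit 89) (nat_lit 0xbc0001780002fcc65) b35594 (.nil))) (.one (nat_lit 9) (nat_lit 47) (nat_lit 87) (nat_lit 0xbc0001780002fca28) b35592 (.nil))))) (.one (nat_lit 59) (nat_lit 51) (nat_lit 91) (nat_lit 0xbc0001780002fd798) b35596 (.one (nat_lit 62) (nat_lit 52) (nat_lit 92) (nat_lit 0xbc0001780002fe311) b35597 (.tok (nat_lit 65) (nat_lit 0xbc0001780002fe4fa) (.hit (nat_lit 53) (nat_lit 93) (nat_lit 0xbc0001780002fe4fa) b35598 (.hit (nat_lit 54) (nat_lit 94) (nat_lit 0xbc0001780002fe086) b35599 (.nil)))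 (.tok (nat_lit 68) (nat_lit 0xbc0001780002ffb0e) (.hit (nat_lit 55) (nat_lit 95) (nat_lit 0xbc0001780002ff2b8) b35600 (.one (nat_lit 3) (nat_lit 59) (nat_lit 99) (nat_lit 0xbc0001780002fe82b) b35604 (.one (nat_lit 6) (nat_lit 56) (nat_lit 96) (nat_lit 0xbc0001780002ff7ab) b35601 (.tok (nat_lit 9) (nat_lit 0xbc0001780002ffb0e) (.hit (nat_lit 57) (nat_lit 97) (nat_lit 0xbc0001780002ffb0e) b35602 (.hit (nat_lit 58) (nat_lit 98) (nat_lit 0xbc0001780002fe71b) b35603 (.nil))) (.nil))))) (.one (nat_lit 71) (nat_lit 60) (nat_lit 100) (nat_lit 0xbc0001780002fdb74) b35605 (.nil)))))))))))))))))) (.tok (nat_lit 64) (nat_lit 0xbc0001780002ffa1f) (.hit (nat_lit 176) (nat_lit 0) (nat_lit 0xbc0001780002ff835) b35606 (.tok (nat_lit 6) (nat_lit 0xbc0001780002ff239) (.hit (nat_lit 177) (nat_lit 7) (nat_lit 0xbc0001780002fe3fa) b35607 (.hit (nat_lit 178) (nat_lit 15) (nat_lit 0xbc0001780002ff239)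 b35608 (.nil))) (.tok (nat_lit 9) (nat_lit 0xbc0001780002ffa1f) (.hit (nat_lit 179) (nat_lit 20) (nat_lit 0xbc0001780002ffa1f) b35609 (.hit (nat_lit 180) (nat_lit 28) (nat_lit 0xbc0001780002fe9fe) b35610 (.nil))) (.nil)))) (.tok (nat_lit 67) (nat_lit 0xbc0001780002ffd5b) (.hit (nat_lit 201) (nat_lit 0) (nat_lit 0xbc0001780002ffd5b) b35619 (.tok (nat_lit 3) (nat_lit 0xbc0001780002fea51) (.hit (nat_lit 202) (nat_lit 1) (nat_lit 0xbc0001780002fdd0c) b35620 (.one (nat_lit 55) (nat_lit 203) (nat_lit 3) (nat_lit 0xbc0001780002fea51) b35621 (.nil))) (.tok (nat_lit 9) (nat_lit 0xbc0001780002ff381) (.hit (nat_lit 204) (nat_lit 20) (nat_lit 0xbc0001780002fd9eb) b35622 (.hit (nat_lit 207) (nat_lit 28) (nat_lit 0xbc0001780002fdd1f) b35625 (.tok (nat_lit 67) (nat_lit 0xbc0001780002ff381) (.hit (nat_lit 205) (nat_lit 21) (nat_lit 0xbc0001780002fe96a) b35623 (.hit (nat_lit 208) (nat_lit 29)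 (nat_lit 0xbc0001780002fec15) b35626 (.one (nat_lit 9) (nat_lit 206) (nat_lit 22) (nat_lit 0xbc0001780002ff381) b35624 (.nil)))) (.nil)))) (.nil)))) (.tok (nat_lit 70) (nat_lit 0xbc000178000300f4a) (.hit (nat_lit 187) (nat_lit 0) (nat_lit 0xbc0001780002ff053) b35611 (.tok (nat_lit 3) (nat_lit 0xbc0001780002ff6bf) (.hit (nat_lit 188) (nat_lit 1) (nat_lit 0xbc0001780002fde38) b35612 (.one (nat_lit 67) (nat_lit 189) (nat_lit 2) (nat_lit 0xbc0001780002ff6bf) b35613 (.nil))) (.tok (nat_lit 6) (nat_lit 0xbc000178000300f4a) (.hit (nat_lit 190) (nat_lit 7) (nat_lit 0xbc0001780002fe595) b35614 (.hit (nat_lit 193) (nat_lit 15) (nat_lit 0xbc0001780002fdc4c) b35617 (.tok (nat_lit 55) (nat_lit 0xbc000178000300f4a) (.hit (nat_lit 191) (nat_lit 8) (nat_lit 0xbc0001780002ff23a) b35615 (.hit (nat_lit 194) (nat_lit 16) (nat_lit 0xbc0001780002ff60b) b35618 (.one (nat_lit 6) (nat_lit 192) (nat_lit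 9) (nat_lit 0xbc000178000300f4a) b35616 (.nil)))) (.nil)))) (.nil)))) (.nil))))
noncomputable def r19_8 : Rw Blk := .tok (nat_lit 3) (nat_lit 0xbc000178000301533) (.hit (nat_lit 15) (nat_lit 0) (nat_lit 0xbc0001780002fe1ba) b35638 (.tok (nat_lit 6) (nat_lit 0xbc0001780002fd65c) (.hit (nat_lit 16) (nat_lit 7) (nat_lit 0xbc0001780002fc087) b35639 (.hit (nat_lit 21) (nat_lit 15) (nat_lit 0xbc0001780002f9fce) b35642 (.tok (nat_lit 56) (nat_lit 0xbc0001780002fd65c) (.hit (nat_lit 19) (nat_lit 13) (nat_lit 0xbc0001780002fcc2e) b35640 (.hit (nat_lit 24) (nat_lit 19) (nat_lit 0xbc0001780002fc447) b35644 (.one (nat_lit 6) (nat_lit 20) (nat_lit 14) (nat_lit 0xbc0001780002fd65c) b35641 (.nil)))) (.one (nat_lit 68) (nat_lit 23) (nat_lit 18) (nat_lit 0xbc0001780002fc8c6) b35643 (.nil))))) (.tok (nat_lit 52) (nat_lit 0xbc0001780002fd2a8) (.hit (nat_lit 25) (nat_lit 39) (nat_lit 0xbc0001780002fd2a8)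 b35645 (.hit (nat_lit 26) (nat_lit 40) (nat_lit 0xbc0001780002fce41) b35646 (.nil))) (.tok (nat_lit 55) (nat_lit 0xbc000178000301533) (.hit (nat_lit 27) (nat_lit 41) (nat_lit 0xbc000178000301533) b35647 (.one (nat_lit 3) (nat_lit 33) (nat_lit 47) (nat_lit 0xbc0001780002fd9cd) b35653 (.tok (nat_lit 6) (nat_lit 0xbc0001780002fe048) (.hit (nat_lit 28) (nat_lit 42) (nat_lit 0xbc0001780002fd01d) b35648 (.hit (nat_lit 31) (nat_lit 45) (nat_lit 0xbc0001780002fcd8b) b35651 (.tok (nat_lit 55) (nat_lit 0xbc0001780002fe048) (.hit (nat_lit 29) (nat_lit 43) (nat_lit 0xbc0001780002fe048) b35649 (.hit (nat_lit 32) (nat_lit 46) (nat_lit 0xbc0001780002fd991) b35652 (.one (nat_lit 6) (nat_lit 30) (nat_lit 44) (nat_lit 0xbc0001780002fd1ae) b35650 (.nil)))) (.nil)))) (.nil)))) (.one (nat_lit 58) (nat_lit 35) (nat_lit 49) (nat_lit 0xbc0001780002fde1e) b35654 (.nil)))))) (.tok (nat_lit 9) (nat_lit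 0xbc0001780003028fb) (.hit (nat_lit 0) (nat_lit 0) (nat_lit 0xbc0001780002fed1c) b35627 (.tok (nat_lit 9) (nat_lit 0xbc0001780002fe8c9) (.hit (nat_lit 1) (nat_lit 20) (nat_lit 0xbc0001780002fe2a5) b35628 (.hit (nat_lit 4) (nat_lit 28) (nat_lit 0xbc0001780002fcac4) b35629 (.one (nat_lit 56) (nat_lit 6) (nat_lit 31) (nat_lit 0xbc0001780002fe8c9) b35630 (.nil)))) (.tok (nat_lit 64) (nat_lit 0xbc00017800030006a) (.hit (nat_lit 7) (nat_lit 50) (nat_lit 0xbc00017800030006a) b35631 (.hit (nat_lit 8) (nat_lit 51) (nat_lit 0xbc0001780002feaf1) b35632 (.nil))) (.tok (nat_lit 67) (nat_lit 0xbc0001780003028fb) (.hit (nat_lit 9) (nat_lit 52) (nat_lit 0xbc0001780003028fb) b35633 (.one (nat_lit 3) (nat_lit 12) (nat_lit 58) (nat_lit 0xbc0001780002ff97f) b35636 (.tok (nat_lit 9) (nat_lit 0xbc000178000300514) (.hit (nat_lit 10) (nat_lit 53) (nat_lit 0xbc000178000300514) b35634 (.hit (nat_lit 11)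 (nat_lit 56) (nat_lit 0xbc0001780002ff69b) b35635 (.nil))) (.nil)))) (.one (nat_lit 70) (nat_lit 14) (nat_lit 60) (nat_lit 0xbc0001780002fe192) b35637 (.nil)))))) (.nil))
noncomputable def r19_9 : Rw Blk := .tok (nat_lit 3) (nat_lit 0x5febfebf96ed7fa4a2ff4635fee20bfe0597f962aff0585fe23ebfe1397fda82ffc8f5fed64c000017fed02ffdfd) (.hit (nat_lit 0) (nat_lit 0) (nat_lit 0x5fa2aabf28297e90aafdfda5fbbb8bf5e5d7e9642fd28d5fb074bf731d7f541afe5fe5fae58bfa62d7f3feafdf8b) b35655 (.tok (nat_lit 9) (nat_lit 0x5fa476bf1c6d7f6712fdd4f5fcfb8bf79057ecb3afd8025fc892bfa3597f1712fddae5fb29ebf670d7ef57aff250) (.hit (nat_lit 10) (nat_lit 20) (nat_lit 0x5f7bc4becb097eb9a2fc8f65fa706bf27a17e2872fc3a95f9fe0bf51f57e7602fc7695f89ecbf0f957e546afddef) b35656 (.hit (nat_lit 15) (nat_lit 28) (nat_lit 0x5f76e6bec14d7e5df2fc6875fa228bf1de57e14fafc13a5f9b02bf48397eacfafd70b5f850ebf670d7ebd2afdc9c) b35661 (.tok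 (nat_lit 14) (nat_lit 0x5fa1bcbf16f97f4902fdbf25fccfebf73917ec052fd6a55fc5d8bf9de57f1712fddae5fafe4bf5ef97ef57afee4f) (.hit (nat_lit 11) (nat_lit 24) (nat_lit 0x5f88fcbee5797efa1afcf925fb43ebf42117e5d52fca455fad18bf6c657e6fbafc8065f9724bf2a057e4e22fe2f1) b35657 (.hit (nat_lit 16) (nat_lit 30) (nat_lit 0x5f8702bee1857ea792fce955fb244bf3e1d7e556afc9485fab1ebf68717ee3e2fddae5f952abf5ef97ebfdafe3b3) b35662 (.one (nat_lit 6) (nat_lit 12) (nat_lit 25) (nat_lit 0x5fa1bcbf16f97f4902fdbf25fccfebf73917ec052fd6a55fc5d8bf9de57f1712fdb8b5fafe4bf5b857ef57afee4f) b35658 (.nil)))) (.tok (nat_lit 68) (nat_lit 0x5fa476bf1c6d7f6712fdd4f5fcfb8bf79057ecb3afd8025fc892bfa3597f0c0afda2a5fb29ebf60f97eea72ff250) (.hit (nat_lit 13) (nat_lit 26) (nat_lit 0x5f9426befbcd7f0c22fd5275fbf68bf58657e89fafcfda5fb842bf82b97f0c0afda2a5fa24ebf51d97eea72fe99e) b35659 (.hit (nat_lit 18) (nat_lit 32) (nat_lit 0x5f8beebeeb5d7eb442fd10b5fb730bf47f57e691afcbbe5fb00abf72497eb6b2fd8b75f9a16bf4ac97e9872fde92)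 b35663 (.one (nat_lit 9) (nat_lit 14) (nat_lit 27) (nat_lit 0x5fa476bf1c6d7f6712fdd4f5fcfb8bf79057ecb3afd8025fc892bfa3597edda2fd5c35fb29ebf60f97ebc0aff250) b35660 (.nil)))) (.nil))))) (.tok (nat_lit 64) (nat_lit 0x5f8ee2bef1457eeacafd2855fba24bf4ddd7e74eafcd385fb2febf78317f6132ff0f55f9d0abfc32d7f736afe676) (.hit (nat_lit 30) (nat_lit 50) (nat_lit 0x5f888ebee49d7e80d2fcf5b5fb3d0bf41357e5b9afca0e5facaabf6b897f0092fd8c95f96b6bf5de97eefa2fe359) b35664 (.hit (nat_lit 31) (nat_lit 51) (nat_lit 0x5f8ee2bef1457eeacafd2855fba24bf4ddd7e74eafcd385fb2febf78317f6132ff0f55f9d0abfc32d7f736afe676) b35665 (.nil))) (.tok (nat_lit 67) (nat_lit 0x5febfebf96ed7fa4a2ff4635fee20bfe0597f962aff0585fe23ebfe1397fc23affb9d5fed64bff8d17fdd7affdfd) (.hit (nat_lit 32) (nat_lit 52) (nat_lit 0x5febfebf8aa17f95e2ff4635fe070bfe0597f962aff0585fddb8bfe1397fc23affb9d5fed64bff8d17fdd7affc4b) b35666 (.tok (nat_lit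 3) (nat_lit 0x5fb020bf33c17fa4a2fe3245fdb62bf90597ef9e2fddd75fd43cbfbaad7f6c2afe62e5fbe48bf81e97f4a92ffdfd) (.hit (nat_lit 38) (nat_lit 58) (nat_lit 0x5fa0d2bf15257f4102fdb7d5fcc14bf71bd7ebcaafd6305fc4eebf9c117f3022fdead5faefabf63e57f0e8afef21) b35672 (.one (nat_lit 55) (nat_lit 39) (nat_lit 59) (nat_lit 0x5fb020bf33c17fa4a2fe3245fdb62bf90597ef9e2fddd75fd43cbfbaad7f6c2afe62e5fbe48bf81e97f4a92ffdfd) b35673 (.nil))) (.tok (nat_lit 9) (nat_lit 0x5fd296bf96ed7f6952feaa45fee20bfc0457f31eafe4d85fe23ebfd6b17f6b62fe6155fcc4abf94517f49caff8f7) (.hit (nat_lit 33) (nat_lit 53) (nat_lit 0x5fb64cbf57317f27cafe0a45fd662bfa1a57ee5e2fdb575fcf3cbfb0ad7f436afe1165fb948bf6e4d7f21d2fef56) b35667 (.hit (nat_lit 36) (nat_lit 56) (nat_lit 0x5fa184bf16897f1f6afdbd65fccc6bf73217ebf72fd6895fc5a0bf9d757edeaafd47e5fafacbf5b157ebd12ff00d) b35670 (.tok (nat_lit 67) (nat_lit 0x5fd296bf96ed7f6952feaa45fee20bfc0457f31eafe4d85fe23ebfd6b17f6b62fe6155fcc4abf94517f49caff8f7)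 (.hit (nat_lit 34) (nat_lit 54) (nat_lit 0x5fd296bf96ed7f2f7afeaa45fee20bfc0457f31eafe4d85fe23ebfd6b17f6b62fe6155fcc4abf94517f49caff748) b35668 (.hit (nat_lit 37) (nat_lit 57) (nat_lit 0x5fb698bf40b17f6952fe6605fe1dabf9d497f13c2fe1135fdab4bfc79d7f2022fded45fc4c0bf853d7f030aff8f7) b35671 (.one (nat_lit 9) (nat_lit 35) (nat_lit 55) (nat_lit 0x5fb36abf3a557f2842fe4c95fdeacbf96ed7f070afdf7c5fd786bfc1417ed7c2fdd3d5fc192bf7ee17ef652ff880) b35669 (.nil)))) (.nil)))) (.nil)))) (.one (nat_lit 70) (nat_lit 40) (nat_lit 60) (nat_lit 0x5f9f42bf12057f20aafdab55fca84bf6e9d7eb66afd5685fc35ebf98f17fda82ffc8f5fad6ac000017fed02ff5bd) b35674 (.nil)))))) (.tok (nat_lit 6) (nat_lit 0x600000c0000180000300051600000c0000180000300000600000c0000180000300000600000bffc1580000300000) (.hit (nat_lit 81) (nat_lit 0) (nat_lit 0x5fcb34bf92717eef9afe9a95fdc14bfae2d7f57bafeafc5fcfd0bfb3e57f6722feb2a5fd338bfbaed7f62bafea85)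 b35675 (.tok (nat_lit 6) (nat_lit 0x600000c0000180000300051600000c0000180000300000600000c0000180000300000600000bffc1580000300000) (.hit (nat_lit 87) (nat_lit 7) (nat_lit 0x5fb7a4bf628d7eb01afdbe35fbd6abf8a357eddcafdac65fb644bf7ebd7ecfdafd5c15fb7eebf65317ebe5afdf38) b35676 (.hit (nat_lit 95) (nat_lit 15) (nat_lit 0x5f9c6cbef88d7e986afc93f5f86e4bf4e757e58d2fcb1f5f9008bf2f4d7e9a12fd6cd5fb3cebf58457ea762fdba2) b35681 (.tok (nat_lit 14) (nat_lit 0x600000c0000180000300051600000c0000180000300000600000c0000180000300000600000bffc15800002ffef2) (.hit (nat_lit 91) (nat_lit 11) (nat_lit 0x5ff958bfeed17ff572ffdd75fffa0bfeacd7fe652ffd045ff36cbff48d7fba82ff6ae5ff462bfde617fb722ffd4e) b35677 (.hit (nat_lit 97) (nat_lit 17) (nat_lit 0x5fd564bf67257f98cafe5f25fc00ebfa7c57f211afe6ee5fc21abf84a17f54b2fee345fe7acbfaf697f5d2afe8a8) b35682 (.one (nat_lit 9) (nat_lit 92) (nat_lit 12) (nat_lit 0x600000c0000180000300051600000c0000180000300000600000c0000180000300000600000bffc15800002ffef2)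 b35678 (.nil)))) (.tok (nat_lit 56) (nat_lit 0x5feac4bfdb957f81caff3545fe39abfd5a97f78f2fef6d5fdacebfc5617f7a1afec2b5fd8c4bfacb17f5f9300000) (.hit (nat_lit 93) (nat_lit 13) (nat_lit 0x5feac4bfbdd97f7c5aff3545fe39abfd5a97f78f2fef6d5fdacebfbd497f78d2fec2b5fd8c4bfacb17f5f92fed20) b35679 (.hit (nat_lit 99) (nat_lit 19) (nat_lit 0x5fc63abf4c397ee58afdfc75fb1c2bf899d7ee472fdf1c5fb2f0bf664d7f2242fe3b25fd1d4bf8ddd7f1732fdfd9) b35684 (.one (nat_lit 6) (nat_lit 94) (nat_lit 14) (nat_lit 0x5fd6eabfdb957f81cafe5d15fe0bcbfc6c17f0f4afe1715fd996bfc5617f7a1afe7ec5fd2c4bfa1497f588300000) b35680 (.nil)))) (.one (nat_lit 68) (nat_lit 98) (nat_lit 18) (nat_lit 0x5fc59abf4e357f24aafddf25fb1f6bf8bd17ee91afdd285fb41abf68a17f2a0afe61a5fdbf4bf97d57f2a4afe340) b35683 (.nil)))))) (.nil))) (.nil))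
noncomputable def r19_10 : Rw Blk := .tok (nat_lit 9) (nat_lit 0x5e0000bc00017f9b92fff19) (.hit (nat_lit 0) (nat_lit 0) (nat_lit 0x5e0000bc00017ee012fe451) b35685 (.tok (nat_lit 14) (nat_lit 0x5e0000bc00017f3e4aff1c0) (.hit (nat_lit 11) (nat_lit 61) (nat_lit 0x5e0000bc00017f3e4afeb6b) b35686 (.one (nat_lit 3) (nat_lit 12) (nat_lit 62) (nat_lit 0x5e0000bc00017f31a2fe1d3) b35687 (.tok (nat_lit 6) (nat_lit 0x5e0000bc00017f2252ff1c0) (.hit (nat_lit 15) (nat_lit 65) (nat_lit 0x5e0000bc00017f2252ff1c0) b35690 (.hit (nat_lit 16) (nat_lit 66) (nat_lit 0x5e0000bc00017ef67afea9d) b35691 (.nil))) (.tok (nat_lit 9) (nat_lit 0x5e0000bc00017eeb42feaa7) (.hit (nat_lit 13) (nat_lit 63) (nat_lit 0x5e0000bc00017e9972feaa7) b35688 (.hit (nat_lit 14) (nat_lit 64) (nat_lit 0x5e0000bc00017eeb42fe8e9) b35689 (.nil))) (.nil))))) (.one (nat_lit 17) (nat_lit 17) (nat_lit 67) (nat_lit 0x5e0000bc00017ee172fd742)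 b35692 (.tok (nat_lit 20) (nat_lit 0x5e0000bc00017ed752fd6ae) (.hit (nat_lit 18) (nat_lit 68) (nat_lit 0x5e0000bc00017df9aafd6ae) b35693 (.hit (nat_lit 19) (nat_lit 69) (nat_lit 0x5e0000bc00017ed752fd5ae) b35694 (.nil))) (.tok (nat_lit 23) (nat_lit 0x5e0000bc00017f89faffad2) (.hit (nat_lit 20) (nat_lit 70) (nat_lit 0x5e0000bc00017f89faffad2) b35695 (.hit (nat_lit 21) (nat_lit 71) (nat_lit 0x5e0000bc00017eeceafd5ae) b35696 (.nil))) (.one (nat_lit 26) (nat_lit 22) (nat_lit 72) (nat_lit 0x5e0000bc00017e5f62fc33e) b35697 (.one (nat_lit 29) (nat_lit 23) (nat_lit 73) (nat_lit 0x5e0000bc00017e5882fc650) b35698 (.one (nat_lit 32) (nat_lit 24) (nat_lit 74) (nat_lit 0x5e0000bc00017ea122fc92d) b35699 (.one (nat_lit 35) (nat_lit 25) (nat_lit 75) (nat_lit 0x5e0000bc00017e4caafc92d) b35700 (.one (nat_lit 38) (nat_lit 26) (nat_lit 76) (nat_lit 0x5e0000bc00017ed3aafd782) b35701 (.tok (nat_lit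 41) (nat_lit 0x5e0000bc00017ee8fafcee3) (.hit (nat_lit 27) (nat_lit 77) (nat_lit 0x5e0000bc00017ea56afc1ca) b35702 (.hit (nat_lit 28) (nat_lit 78) (nat_lit 0x5e0000bc00017ee8fafcee3) b35703 (.nil))) (.tok (nat_lit 44) (nat_lit 0x5e0000bc00017efe42fd0ff) (.hit (nat_lit 29) (nat_lit 79) (nat_lit 0x5e0000bc00017d532afc1de) b35704 (.hit (nat_lit 30) (nat_lit 80) (nat_lit 0x5e0000bc00017efe42fd0ff) b35705 (.nil))) (.tok (nat_lit 47) (nat_lit 0x5e0000bc00017efb6afd571) (.hit (nat_lit 31) (nat_lit 81) (nat_lit 0x5e0000bc00017efb6afd571) b35706 (.hit (nat_lit 32) (nat_lit 82) (nat_lit 0x5e0000bc00017e9972fcc82) b35707 (.nil))) (.one (nat_lit 62) (nat_lit 42) (nat_lit 92) (nat_lit 0x5e0000bc00017ed40afd0f0) b35708 (.tok (nat_lit 65) (nat_lit 0x5e0000bc00017edb3afd980) (.hit (nat_lit 43) (nat_lit 93) (nat_lit 0x5e0000bc00017e11aafd980) b35709 (.hit (nat_lit 44) (nat_lit 94) (nat_lit 0x5e0000bc00017edb3afd0f9)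 b35710 (.nil))) (.tok (nat_lit 68) (nat_lit 0x5e0000bc00017f9b92fff19) (.hit (nat_lit 45) (nat_lit 95) (nat_lit 0x5e0000bc00017f96daffe0a) b35711 (.one (nat_lit 3) (nat_lit 49) (nat_lit 99) (nat_lit 0x5e0000bc00017f9b92ff382) b35715 (.one (nat_lit 6) (nat_lit 46) (nat_lit 96) (nat_lit 0x5e0000bc00017f450afff19) b35712 (.tok (nat_lit 9) (nat_lit 0x5e0000bc00017f57b2fe754) (.hit (nat_lit 47) (nat_lit 97) (nat_lit 0x5e0000bc00017f57b2fe754) b35713 (.hit (nat_lit 48) (nat_lit 98) (nat_lit 0x5e0000bc00017eff52fda3e) b35714 (.nil))) (.nil))))) (.one (nat_lit 71) (nat_lit 50) (nat_lit 100) (nat_lit 0x5e0000bc00017e9ff2fc58a) b35716 (.nil)))))))))))))))))) (.tok (nat_lit 64) (nat_lit 0x5e0000bc000180000300e55) (.hit (nat_lit 180) (nat_lit 0) (nat_lit 0x5e0000bc00017fe76300e55) b35717 (.tok (nat_lit 6) (nat_lit 0x5e0000bc00017f1d4aff687) (.hit (nat_lit 181) (nat_lit 7) (nat_lit 0x5e0000bc00017e6ec2ff1e7)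 b35718 (.hit (nat_lit 182) (nat_lit 15) (nat_lit 0x5e0000bc00017f1d4aff687) b35719 (.nil))) (.tok (nat_lit 9) (nat_lit 0x5e0000bc000180000300b41) (.hit (nat_lit 183) (nat_lit 20) (nat_lit 0x5e0000bc000180000300b41) b35720 (.hit (nat_lit 184) (nat_lit 28) (nat_lit 0x5e0000bc00017f4752ff8c1) b35721 (.nil))) (.nil)))) (.tok (nat_lit 67) (nat_lit 0x5e0000bc00017f661b006e0) (.hit (nat_lit 205) (nat_lit 0) (nat_lit 0x5e0000bc00017f661aff2f7) b35727 (.tok (nat_lit 3) (nat_lit 0x5e0000bc00017f168b006e0) (.hit (nat_lit 206) (nat_lit 1) (nat_lit 0x5e0000bc00017e3e12febd1) b35728 (.one (nat_lit 55) (nat_lit 207) (nat_lit 3) (nat_lit 0x5e0000bc00017f168b006e0) b35729 (.nil))) (.tok (nat_lit 9) (nat_lit 0x5e0000bc00017ed372ffe7d) (.hit (nat_lit 208) (nat_lit 20) (nat_lit 0x5e0000bc00017e6e2aff1d4) b35730 (.hit (nat_lit 211) (nat_lit 28) (nat_lit 0x5e0000bc00017e357afeabe) b35733 (.tok (nat_lit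 67) (nat_lit 0x5e0000bc00017ed372ffe7d) (.hit (nat_lit 209) (nat_lit 21) (nat_lit 0x5e0000bc00017e8cc2ff5a7) b35731 (.hit (nat_lit 212) (nat_lit 29) (nat_lit 0x5e0000bc00017ed372ffe7d) b35734 (.one (nat_lit 9) (nat_lit 210) (nat_lit 22) (nat_lit 0x5e0000bc00017ebf22ffbf3) b35732 (.nil)))) (.nil)))) (.nil)))) (.tok (nat_lit 70) (nat_lit 0x5e0000bc00017fb04b00d64) (.hit (nat_lit 191) (nat_lit 0) (nat_lit 0x5e0000bc00017fb04aff903) b35722 (.tok (nat_lit 3) (nat_lit 0x5e0000bc00017f4aab00d64) (.hit (nat_lit 192) (nat_lit 1) (nat_lit 0x5e0000bc00017e3ac2feb67) b35723 (.one (nat_lit 67) (nat_lit 193) (nat_lit 2) (nat_lit 0x5e0000bc00017f4aab00d64) b35724 (.nil))) (.tok (nat_lit 6) (nat_lit 0x5e0000bc00017ea44aff898) (.hit (nat_lit 194) (nat_lit 7) (nat_lit 0x5e0000bc00017ea44aff898) b35725 (.hit (nat_lit 197) (nat_lit 15) (nat_lit 0x5e0000bc00017e6a32ff155) b35726 (.nil))) (.nil))))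 (.nil))))
noncomputable def r19_11 : Rw Blk := .tok (nat_lit 3) (nat_lit 0x5e0000bc0001802842ffc34) (.hit (nat_lit 15) (nat_lit 0) (nat_lit 0x5e0000bc00017f0d0afe041) b35750 (.tok (nat_lit 6) (nat_lit 0x5e0000bc00017e416afd71d) (.hit (nat_lit 16) (nat_lit 7) (nat_lit 0x5e0000bc00017de5f2fcbae) b35751 (.hit (nat_lit 21) (nat_lit 15) (nat_lit 0x5e0000bc00017d27e2fb3ec) b35754 (.tok (nat_lit 14) (nat_lit 0x5e0000bc00017e416afd71d) (.hit (nat_lit 17) (nat_lit 11) (nat_lit 0x5e0000bc00017dd032fc8f6) b35752 (.hit (nat_lit 22) (nat_lit 17) (nat_lit 0x5e0000bc00017e2aeafd44d) b35755 (.one (nat_lit 9) (nat_lit 18) (nat_lit 12) (nat_lit 0x5e0000bc00017e416afd71d) b35753 (.nil)))) (.one (nat_lit 68) (nat_lit 23) (nat_lit 18) (nat_lit 0x5e0000bc00017e1d3afd297) b35756 (.nil))))) (.tok (nat_lit 52) (nat_lit 0x5e0000bc00017e8372fdf5e) (.hit (nat_lit 25) (nat_lit 39) (nat_lit 0x5e0000bc00017e1a42fd238)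 b35757 (.hit (nat_lit 26) (nat_lit 40) (nat_lit 0x5e0000bc00017e8372fdf5e) b35758 (.nil))) (.tok (nat_lit 55) (nat_lit 0x5e0000bc0001802842ffc34) (.hit (nat_lit 27) (nat_lit 41) (nat_lit 0x5e0000bc0001802842ffc34) b35759 (.tok (nat_lit 3) (nat_lit 0x5e0000bc00017ec532fe796) (.hit (nat_lit 33) (nat_lit 47) (nat_lit 0x5e0000bc00017e843afdf77) b35762 (.one (nat_lit 67) (nat_lit 34) (nat_lit 48) (nat_lit 0x5e0000bc00017ec532fe796) b35763 (.nil))) (.tok (nat_lit 6) (nat_lit 0x5e0000bc00017e62eafdb4d) (.hit (nat_lit 28) (nat_lit 42) (nat_lit 0x5e0000bc00017e4932fd816) b35760 (.hit (nat_lit 31) (nat_lit 45) (nat_lit 0x5e0000bc00017e62eafdb4d) b35761 (.nil))) (.nil)))) (.one (nat_lit 58) (nat_lit 35) (nat_lit 49) (nat_lit 0x5e0000bc00017e7a9afde43) b35764 (.nil)))))) (.tok (nat_lit 9) (nat_lit 0x5e0000bc000180c623034be) (.hit (nat_lit 0) (nat_lit 0) (nat_lit 0x5e0000bc00017fabab00634)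 b35735 (.tok (nat_lit 9) (nat_lit 0x5e0000bc00017ff66affa1d) (.hit (nat_lit 1) (nat_lit 20) (nat_lit 0x5e0000bc00017ef74afe00a) b35736 (.hit (nat_lit 4) (nat_lit 28) (nat_lit 0x5e0000bc00017e9be2fd1dc) b35739 (.tok (nat_lit 14) (nat_lit 0x5e0000bc00017ff66affa1d) (.hit (nat_lit 2) (nat_lit 24) (nat_lit 0x5e0000bc00017fc6f2ff67c) b35737 (.hit (nat_lit 5) (nat_lit 30) (nat_lit 0x5e0000bc00017ef1e2fd45d) b35740 (.one (nat_lit 6) (nat_lit 3) (nat_lit 25) (nat_lit 0x5e0000bc00017ff66affa1d) b35738 (.nil)))) (.one (nat_lit 56) (nat_lit 6) (nat_lit 31) (nat_lit 0x5e0000bc00017f9dc2fe8c3) b35741 (.nil))))) (.tok (nat_lit 64) (nat_lit 0x5e0000bc0001803eab00efb) (.hit (nat_lit 7) (nat_lit 50) (nat_lit 0x5e0000bc00017ffa53004c3) b35742 (.hit (nat_lit 8) (nat_lit 51) (nat_lit 0x5e0000bc0001803eab00efb) b35743 (.nil))) (.tok (nat_lit 67) (nat_lit 0x5e0000bc00018045db012e2) (.hit (nat_lit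 9) (nat_lit 52) (nat_lit 0x5e0000bc000180158300a1f) b35744 (.tok (nat_lit 3) (nat_lit 0x5e0000bc00018045db012e2) (.hit (nat_lit 12) (nat_lit 58) (nat_lit 0x5e0000bc00017fd94300e31) b35747 (.one (nat_lit 55) (nat_lit 13) (nat_lit 59) (nat_lit 0x5e0000bc00018045db012e2) b35748 (.nil))) (.tok (nat_lit 9) (nat_lit 0x5e0000bc00017fb5eb004ae) (.hit (nat_lit 10) (nat_lit 53) (nat_lit 0x5e0000bc00017f4b7b004ae) b35745 (.hit (nat_lit 11) (nat_lit 56) (nat_lit 0x5e0000bc00017fb5eaffa7d) b35746 (.nil))) (.nil)))) (.one (nat_lit 70) (nat_lit 14) (nat_lit 60) (nat_lit 0x5e0000bc000180c623034be) b35749 (.nil)))))) (.nil))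
noncomputable def r19_12 : Rw Blk := .tok (nat_lit 6) (nat_lit 0x5e0000bc000180000301827601f5ec02d3580508300000) (.hit (nat_lit 0) (nat_lit 0) (nat_lit 0x5e0000bc00017ec5eafdce25fa7e8bf61c17e91d2fcc13) b35765 (.tok (nat_lit 14) (nat_lit 0x5e0000bc00017fe9f2ff3255fd6a2bfa6297f4442fedbf) (.hit (nat_lit 21) (nat_lit 61) (nat_lit 0x5e0000bc00017f8772fdec15fb732bf7c017ed20afdb8e) b35766 (.one (nat_lit 3) (nat_lit 22) (nat_lit 62) (nat_lit 0x5e0000bc00017faa1afdbfe5faea0bf6e057eac7afdf4f) b35767 (.tok (nat_lit 6) (nat_lit 0x5e0000bc00017f0642fe1c75fbaa2bf86397edb22fd4a7) (.hit (nat_lit 25) (nat_lit 65) (nat_lit 0x5e0000bc00017deb72fd8e25fab96bf64c97ea39afd039) b35770 (.hit (nat_lit 26) (nat_lit 66) (nat_lit 0x5e0000bc00017f0642fe1c75fbaa2bf86397edb22fd4a7) b35771 (.nil))) (.tok (nat_lit 9) (nat_lit 0x5e0000bc00017fe9f2ff3255fd6a2bfa6297f4442fedbf) (.hit (nat_lit 23) (nat_lit 63) (nat_lit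 0x5e0000bc00017fe9f2ff3255fd6a2bfa6297f4442fedbf) b35768 (.hit (nat_lit 24) (nat_lit 64) (nat_lit 0x5e0000bc00017efa3afd7305fa832bf5e017e960afce87) b35769 (.nil))) (.nil))))) (.one (nat_lit 17) (nat_lit 27) (nat_lit 67) (nat_lit 0x5e0000bc00017f4012fd3ac5f9fdebf452d7e601afce71) b35772 (.tok (nat_lit 20) (nat_lit 0x5e0000bc000180000301827601f5ec02d3580508300000) (.hit (nat_lit 28) (nat_lit 68) (nat_lit 0x5e0000bc000180000301827601f5ec02d3580508300000) b35773 (.hit (nat_lit 29) (nat_lit 69) (nat_lit 0x5e0000bc00017ed822fc9a55f8c8ebf2a317e2362fc156) b35774 (.nil))) (.tok (nat_lit 23) (nat_lit 0x5e0000bc00017ec112fc8255f8a1cbf21d57e1db2fc3b9) (.hit (nat_lit 30) (nat_lit 70) (nat_lit 0x5e0000bc00017d658afc8255f8a1cbf21d57e1db2fbf7c) b35775 (.hit (nat_lit 31) (nat_lit 71) (nat_lit 0x5e0000bc00017ec112fc7385f85ecbf14a17dfc9afc3b9) b35776 (.nil))) (.one (nat_lit 38) (nat_lit 36) (nat_lit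 76) (nat_lit 0x5e0000bc00017eb47afca375f8e40bf2a1d7e2e42fc18e) b35777 (.tok (nat_lit 41) (nat_lit 0x5e0000bc00017e9412fcc385f9170bf2cc57e29fafc6cc) (.hit (nat_lit 37) (nat_lit 77) (nat_lit 0x5e0000bc00017e619afbcb05f7116bef22d7db422fbdcb) b35778 (.hit (nat_lit 38) (nat_lit 78) (nat_lit 0x5e0000bc00017e9412fcc385f9170bf2cc57e29fafc6cc) b35779 (.nil))) (.tok (nat_lit 44) (nat_lit 0x5e0000bc00017f0f52fd3fc5f9b08bf2ebd7e61f2fd2a3) (.hit (nat_lit 39) (nat_lit 79) (nat_lit 0x5e0000bc00017f0f52fd3fc5f9b08bf2ebd7e61f2fd2a3) b35780 (.hit (nat_lit 40) (nat_lit 80) (nat_lit 0x5e0000bc00017eb162fbcb75f7110bef4957db792fbd1e) b35781 (.nil))) (.tok (nat_lit 47) (nat_lit 0x5e0000bc00017f5d1afd0045f9972bf3d2d7e4a12fd2be) (.hit (nat_lit 41) (nat_lit 81) (nat_lit 0x5e0000bc00017d2a42fc0bc5f7b4abf04317de26afb813) b35782 (.hit (nat_lit 42) (nat_lit 82) (nat_lit 0x5e0000bc00017f5d1afd0045f9972bf3d2d7e4a12fd2be)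 b35783 (.nil))) (.one (nat_lit 50) (nat_lit 43) (nat_lit 83) (nat_lit 0x5e0000bc00017efeeafc97a5f8ba8bf26017e1ac2fc64e) b35784 (.tok (nat_lit 53) (nat_lit 0x5e0000bc00017f569afe9b55fb8f8bf7f717ed5aafde19) (.hit (nat_lit 44) (nat_lit 84) (nat_lit 0x5e0000bc00017f569afe9b55fb8f8bf7f717ed5aafde19) b35785 (.hit (nat_lit 45) (nat_lit 85) (nat_lit 0x5e0000bc00017ef62afcd1e5f93b2bf33897e35f2fcb6d) b35786 (.nil))) (.tok (nat_lit 56) (nat_lit 0x5e0000bc00017f803aff2245fdb06bfb5c97f59d2fe504) (.hit (nat_lit 46) (nat_lit 86) (nat_lit 0x5e0000bc00017f664afef255fc7f6bf94b97f1ed2fd633) b35787 (.one (nat_lit 3) (nat_lit 50) (nat_lit 90) (nat_lit 0x5e0000bc00017f025afdbd95fa9ccbf5ef57e9ba2fcefa) b35791 (.tok (nat_lit 6) (nat_lit 0x5e0000bc00017f65e2fde465fb36abf7c857ec75afe504) (.hit (nat_lit 48) (nat_lit 88) (nat_lit 0x5e0000bc00017f65e2fde465fb36abf7c857ec75afe504) b35789 (.hit (nat_lit 49)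 (nat_lit 89) (nat_lit 0x5e0000bc00017f36aafd5995fa294bf59c17e8222fd718) b35790 (.nil))) (.one (nat_lit 9) (nat_lit 47) (nat_lit 87) (nat_lit 0x5e0000bc00017f803aff2245fdb06bfb5c97f59d2fe427) b35788 (.nil))))) (.one (nat_lit 59) (nat_lit 51) (nat_lit 91) (nat_lit 0x5e0000bc00017ed14afc3c35f8026bf0ca97de822fc0e9) b35792 (.one (nat_lit 62) (nat_lit 52) (nat_lit 92) (nat_lit 0x5e0000bc00017e87d2fc4805f82d2bf13417e008afbbd7) b35793 (.tok (nat_lit 65) (nat_lit 0x5e0000bc00017ee652fc9255f8c38bf1d457e1492fc52c) (.hit (nat_lit 53) (nat_lit 93) (nat_lit 0x5e0000bc00017ee652fc7015f8c38bf1d457e1492fc52c) b35794 (.hit (nat_lit 54) (nat_lit 94) (nat_lit 0x5e0000bc00017e3cb2fc9255f8a78bf161d7e01c2fbf9b) b35795 (.nil))) (.tok (nat_lit 68) (nat_lit 0x5e0000bc00017e7b8afe5005fc14abf98b17effb2fd10e) (.hit (nat_lit 55) (nat_lit 95) (nat_lit 0x5e0000bc00017e7b8afe5005fc14abf98b17effb2fcf78) b35796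 (.one (nat_lit 3) (nat_lit 59) (nat_lit 99) (nat_lit 0x5e0000bc00017d61a2fc7a85f8922bf1fe17e19cafbeff) b35800 (.one (nat_lit 6) (nat_lit 56) (nat_lit 96) (nat_lit 0x5e0000bc00017d82bafcbcb5f9168bf306d7e3ae2fc322) b35797 (.tok (nat_lit 9) (nat_lit 0x5e0000bc00017df21afd9b75fad40bf681d7eaa42fd10e) (.hit (nat_lit 57) (nat_lit 97) (nat_lit 0x5e0000bc00017df21afd9b75fad40bf681d7eaa42fd10e) b35798 (.hit (nat_lit 58) (nat_lit 98) (nat_lit 0x5e0000bc00017daf8afd1655f9c9cbf46d57e67b2fc8bc) b35799 (.nil))) (.nil))))) (.one (nat_lit 71) (nat_lit 60) (nat_lit 100) (nat_lit 0x5e0000bc00017ebd0afc4585f8268bf0e3d7dec3afbfbe) b35801 (.nil)))))))))))))))))) (.nil)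
noncomputable def r19_13 : Rw Blk := .tok (nat_lit 6) (nat_lit 0x5e0000bc000180000300000) (.hit (nat_lit 0) (nat_lit 0) (nat_lit 0x5e0000bc00017ebddafd606) b35802 (.tok (nat_lit 14) (nat_lit 0x5e0000bc000180000300000) (.hit (nat_lit 21) (nat_lit 61) (nat_lit 0x5e0000bc00017f8e02fe825) b35803 (.one (nat_lit 3) (nat_lit 22) (nat_lit 62) (nat_lit 0x5e0000bc00017f22b2fde50) b35804 (.tok (nat_lit 6) (nat_lit 0x5e0000bc00017f2662fe8b6) (.hit (nat_lit 25) (nat_lit 65) (nat_lit 0x5e0000bc00017e9022fe571) b35807 (.hit (nat_lit 26) (nat_lit 66) (nat_lit 0x5e0000bc00017f2662fe8b6) b35808 (.nil))) (.tok (nat_lit 9) (nat_lit 0x5e0000bc000180000300000) (.hit (nat_lit 23) (nat_lit 63) (nat_lit 0x5e0000bc000180000300000) b35805 (.hit (nat_lit 24) (nat_lit 64) (nat_lit 0x5e0000bc00017f4a5afe60a) b35806 (.nil))) (.nil))))) (.one (nat_lit 17) (nat_lit 27) (nat_lit 67) (nat_lit 0x5e0000bc00017ed372fd3bf)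 b35809 (.tok (nat_lit 20) (nat_lit 0x5e0000bc00017f1b92fe595) (.hit (nat_lit 28) (nat_lit 68) (nat_lit 0x5e0000bc00017f1b92fe595) b35810 (.hit (nat_lit 29) (nat_lit 69) (nat_lit 0x5e0000bc00017eba02fd22d) b35811 (.nil))) (.tok (nat_lit 23) (nat_lit 0x5e0000bc00017ed222fddf2) (.hit (nat_lit 30) (nat_lit 70) (nat_lit 0x5e0000bc00017e542afddf2) b35812 (.hit (nat_lit 31) (nat_lit 71) (nat_lit 0x5e0000bc00017ed222fd22b) b35813 (.nil))) (.one (nat_lit 38) (nat_lit 36) (nat_lit 76) (nat_lit 0x5e0000bc00017eb12afd3ff) b35814 (.tok (nat_lit 41) (nat_lit 0x5e0000bc00017e9e3afcb0a) (.hit (nat_lit 37) (nat_lit 77) (nat_lit 0x5e0000bc00017e9e3afc54e) b35815 (.hit (nat_lit 38) (nat_lit 78) (nat_lit 0x5e0000bc00017e85aafcb0a) b35816 (.nil))) (.tok (nat_lit 44) (nat_lit 0x5e0000bc00017eea6afce63) (.hit (nat_lit 39) (nat_lit 79) (nat_lit 0x5e0000bc00017eea6afce63) b35817 (.hit (nat_lit 40) (nat_lit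 80) (nat_lit 0x5e0000bc00017ea65afc7e9) b35818 (.nil))) (.tok (nat_lit 47) (nat_lit 0x5e0000bc00017edb8afcb14) (.hit (nat_lit 41) (nat_lit 81) (nat_lit 0x5e0000bc00017d41cafbba6) b35819 (.hit (nat_lit 42) (nat_lit 82) (nat_lit 0x5e0000bc00017edb8afcb14) b35820 (.nil))) (.one (nat_lit 50) (nat_lit 43) (nat_lit 83) (nat_lit 0x5e0000bc00017f01c2fcfd1) b35821 (.tok (nat_lit 53) (nat_lit 0x5e0000bc00017f110afdeb9) (.hit (nat_lit 44) (nat_lit 84) (nat_lit 0x5e0000bc00017f110afdeb9) b35822 (.hit (nat_lit 45) (nat_lit 85) (nat_lit 0x5e0000bc00017eed6afcdb8) b35823 (.nil))) (.tok (nat_lit 56) (nat_lit 0x5e0000bc00017fc1aafef68) (.hit (nat_lit 46) (nat_lit 86) (nat_lit 0x5e0000bc00017f7efafe555) b35824 (.one (nat_lit 3) (nat_lit 50) (nat_lit 90) (nat_lit 0x5e0000bc00017f2a92fd776) b35828 (.tok (nat_lit 6) (nat_lit 0x5e0000bc00017fc1aafef68) (.hit (nat_lit 48) (nat_lit 88) (nat_lit 0x5e0000bc00017fc1aafef68)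 b35826 (.hit (nat_lit 49) (nat_lit 89) (nat_lit 0x5e0000bc00017f2212fd6bd) b35827 (.nil))) (.one (nat_lit 9) (nat_lit 47) (nat_lit 87) (nat_lit 0x5e0000bc00017fa692fed0b) b35825 (.nil))))) (.one (nat_lit 59) (nat_lit 51) (nat_lit 91) (nat_lit 0x5e0000bc00017ec4dafc834) b35829 (.one (nat_lit 62) (nat_lit 52) (nat_lit 92) (nat_lit 0x5e0000bc00017ea5b2fcd6d) b35830 (.tok (nat_lit 65) (nat_lit 0x5e0000bc00017e8c7afd420) (.hit (nat_lit 53) (nat_lit 93) (nat_lit 0x5e0000bc00017e65d2fd420) b35831 (.hit (nat_lit 54) (nat_lit 94) (nat_lit 0x5e0000bc00017e8c7afc651) b35832 (.nil))) (.tok (nat_lit 68) (nat_lit 0x5e0000bc00017ec4bafdfba) (.hit (nat_lit 55) (nat_lit 95) (nat_lit 0x5e0000bc00017ec4bafdfba) b35833 (.one (nat_lit 3) (nat_lit 59) (nat_lit 99) (nat_lit 0x5e0000bc00017e4582fdc1d) b35837 (.one (nat_lit 6) (nat_lit 56) (nat_lit 96) (nat_lit 0x5e0000bc00017e3a7afdabc) b35834 (.tok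 (nat_lit 9) (nat_lit 0x5e0000bc00017e5ef2fdf4b) (.hit (nat_lit 57) (nat_lit 97) (nat_lit 0x5e0000bc00017e5ef2fdf4b) b35835 (.hit (nat_lit 58) (nat_lit 98) (nat_lit 0x5e0000bc00017e4c62fdcf9) b35836 (.nil))) (.nil))))) (.one (nat_lit 71) (nat_lit 60) (nat_lit 100) (nat_lit 0x5e0000bc00017ea5fafc4a4) b35838 (.nil)))))))))))))))))) (.nil)
noncomputable def r19_14 : Rw Blk := .tok (nat_lit 6) (nat_lit 0x300000600000c0000180000300000600000c0000180000300000) (.hit (nat_lit 81) (nat_lit 0) (nat_lit 0x2fe4b85fd5d4bf9869800002fe3b05fe076bfd0c97f756afe12e) b35839 (.tok (nat_lit 3) (nat_lit 0x2feb0b5fdbe0bfd9517f9acafe95a5fd936bfb0f17f967afe9ca) (.hit (nat_lit 82) (nat_lit 1) (nat_lit 0x2fcbb35f88b0bf69c97e94cafcd3c5f97f2bf2df17eb032fcdcc) b35840 (.one (nat_lit 14) (nat_lit 84) (nat_lit 4) (nat_lit 0x2fe8a95fdbe0bfbe497f363afe89b5fd532bf9ded7f819afe740) b35841 (.one (nat_lit 56) (nat_lit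 86) (nat_lit 6) (nat_lit 0x2fde885fbe9cbf85197f27b2fe0f45fc872bf84e57f5352fe165) b35843 (.one (nat_lit 68) (nat_lit 85) (nat_lit 5) (nat_lit 0x2feb0b5fd3a2bfd9517f9acafe95a5fd936bfb0f17f967afe9ca) b35842 (.nil))))) (.tok (nat_lit 40) (nat_lit 0x2fe7215fd042bfb9597f430afe6b35fcc0cbf93857f95bafe645) (.hit (nat_lit 100) (nat_lit 33) (nat_lit 0x2fe7215fd042bfb9597f430afe5115fc64abf93857f95bafe645) b35844 (.hit (nat_lit 101) (nat_lit 34) (nat_lit 0x2fe2775fb726bf90d17f0a82fe6b35fcc0cbf8b717f672afe4ac) b35845 (.nil))) (.tok (nat_lit 43) (nat_lit 0x2fecc7600000bfc0317fcfcaffd8b600000bfec99800002ff093) (.hit (nat_lit 102) (nat_lit 35) (nat_lit 0x2fecc7600000bfc0317fcfcaffd8b600000bfec99800002ff093) b35846 (.hit (nat_lit 103) (nat_lit 36) (nat_lit 0x2fe7225fd476bfbc317f8322fe9ee5fd348bfa51d7f9db2feb25) b35847 (.nil))) (.tok (nat_lit 46) (nat_lit 0x3000005ff54cc000017ffeeb000005ffc36c000017ff5fb00000)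 (.hit (nat_lit 104) (nat_lit 37) (nat_lit 0x2fe23a5fbc94bfed7d7ffeeafe2f45fc506bfe3017f3722fe2d1) b35848 (.hit (nat_lit 105) (nat_lit 38) (nat_lit 0x3000005ff54cc000017ff19b000005ffc36c000017ff5fb00000) b35849 (.nil))) (.nil)))))) (.tok (nat_lit 9) (nat_lit 0x2feb0b5fdbe0bfd951800002fe2d35fe36abfd0c97f8d0afe998) (.hit (nat_lit 157) (nat_lit 0) (nat_lit 0x2fe4b85fd5d4bf9869800002fe2d35fe36abfd0c97f7792fe2bb) b35850 (.tok (nat_lit 3) (nat_lit 0x2feb0b5fdbe0bfd9517fce4afd6705fd664bfb0f17f8d0afe998) (.hit (nat_lit 158) (nat_lit 1) (nat_lit 0x2fcbb35f88b0bf69c97ecca2fb5b05f92e0bf2df17eb2dafce2e) b35851 (.one (nat_lit 14) (nat_lit 160) (nat_lit 4) (nat_lit 0x2fe8a95fdbe0bfbe497f9daafc0345fd128bf927d7f8472fe768) b35852 (.one (nat_lit 56) (nat_lit 162) (nat_lit 6) (nat_lit 0x2feb0b5fd3a2bfd9517fce4afd6705fd664bfb0f17f8d0afe998) b35854 (.one (nat_lit 68) (nat_lit 161) (nat_lit 5) (nat_lit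 0x2fde885fbe9cbf85197f6bb2fc80d5fc268bf79b97f544afe165) b35853 (.nil))))) (.nil))) (.nil))
noncomputable def r19_15 : Rw Blk := .tok (nat_lit 3) (nat_lit 0xbc0001780002fed50) (.hit (nat_lit 61) (nat_lit 0) (nat_lit 0xbc0001780002fda8f) b35855 (.tok (nat_lit 14) (nat_lit 0xbc0001780002fed50) (.hit (nat_lit 82) (nat_lit 61) (nat_lit 0xbc0001780002fed50) b35856 (.one (nat_lit 3) (nat_lit 83) (nat_lit 62) (nat_lit 0xbc0001780002fc7ae) b35857 (.tok (nat_lit 6) (nat_lit 0xbc0001780002fcc39) (.hit (nat_lit 86) (nat_lit 65) (nat_lit 0xbc0001780002fcb5e) b35860 (.hit (nat_lit 87) (nat_lit 66) (nat_lit 0xbc0001780002fcc39) b35861 (.nil))) (.tok (nat_lit 9) (nat_lit 0xbc0001780002feb52) (.hit (nat_lit 84) (nat_lit 63) (nat_lit 0xbc0001780002feb52) b35858 (.hit (nat_lit 85) (nat_lit 64) (nat_lit 0xbc0001780002fca6b) b35859 (.nil))) (.nil))))) (.one (nat_lit 17) (nat_lit 88) (nat_lit 67)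 (nat_lit 0xbc0001780002fc350) b35862 (.tok (nat_lit 20) (nat_lit 0xbc0001780002fc979) (.hit (nat_lit 89) (nat_lit 68) (nat_lit 0xbc0001780002fc979) b35863 (.hit (nat_lit 90) (nat_lit 69) (nat_lit 0xbc0001780002fc159) b35864 (.nil))) (.tok (nat_lit 23) (nat_lit 0xbc0001780002fcf9e) (.hit (nat_lit 91) (nat_lit 70) (nat_lit 0xbc0001780002fcf9e) b35865 (.hit (nat_lit 92) (nat_lit 71) (nat_lit 0xbc0001780002fc179) b35866 (.nil))) (.one (nat_lit 26) (nat_lit 93) (nat_lit 72) (nat_lit 0xbc0001780002faede) b35867 (.one (nat_lit 29) (nat_lit 94) (nat_lit 73) (nat_lit 0xbc0001780002fb169) b35868 (.one (nat_lit 32) (nat_lit 95) (nat_lit 74) (nat_lit 0xbc0001780002fba98) b35869 (.one (nat_lit 35) (nat_lit 96) (nat_lit 75) (nat_lit 0xbc0001780002fb58a) b35870 (.one (nat_lit 50) (nat_lit 104) (nat_lit 83) (nat_lit 0xbc0001780002fc0f2) b35871 (.tok (nat_lit 53) (nat_lit 0xbc0001780002fc43d)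 (.hit (nat_lit 105) (nat_lit 84) (nat_lit 0xbc0001780002fc43d) b35872 (.hit (nat_lit 106) (nat_lit 85) (nat_lit 0xbc0001780002fbd65) b35873 (.nil))) (.tok (nat_lit 56) (nat_lit 0xbc0001780002fde00) (.hit (nat_lit 107) (nat_lit 86) (nat_lit 0xbc0001780002fde00) b35874 (.one (nat_lit 3) (nat_lit 111) (nat_lit 90) (nat_lit 0xbc0001780002fcc0c) b35878 (.tok (nat_lit 6) (nat_lit 0xbc0001780002fddf7) (.hit (nat_lit 109) (nat_lit 88) (nat_lit 0xbc0001780002fddf7) b35876 (.hit (nat_lit 110) (nat_lit 89) (nat_lit 0xbc0001780002fcc40) b35877 (.nil))) (.one (nat_lit 9) (nat_lit 108) (nat_lit 87) (nat_lit 0xbc0001780002fcf13) b35875 (.nil))))) (.one (nat_lit 59) (nat_lit 112) (nat_lit 91) (nat_lit 0xbc0001780002faca3) b35879 (.one (nat_lit 62) (nat_lit 113) (nat_lit 92) (nat_lit 0xbc0001780002fc7bb) b35880 (.tok (nat_lit 65) (nat_lit 0xbc0001780002fcd74) (.hit (nat_lit 114) (nat_lit 93)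 (nat_lit 0xbc0001780002fcd74) b35881 (.hit (nat_lit 115) (nat_lit 94) (nat_lit 0xbc0001780002fbd78) b35882 (.nil))) (.tok (nat_lit 68) (nat_lit 0xbc0001780002fec67) (.hit (nat_lit 116) (nat_lit 95) (nat_lit 0xbc0001780002fec67) b35883 (.one (nat_lit 3) (nat_lit 120) (nat_lit 99) (nat_lit 0xbc0001780002fd2fa) b35887 (.one (nat_lit 6) (nat_lit 117) (nat_lit 96) (nat_lit 0xbc0001780002fd601) b35884 (.tok (nat_lit 9) (nat_lit 0xbc0001780002fdaf6) (.hit (nat_lit 118) (nat_lit 97) (nat_lit 0xbc0001780002fd661) b35885 (.hit (nat_lit 119) (nat_lit 98) (nat_lit 0xbc0001780002fdaf6) b35886 (.nil))) (.nil))))) (.one (nat_lit 71) (nat_lit 121) (nat_lit 100) (nat_lit 0xbc0001780002fac83) b35888 (.nil)))))))))))))))))) (.tok (nat_lit 40) (nat_lit 0xbc000178000304598) (.hit (nat_lit 245) (nat_lit 0) (nat_lit 0xbc0001780003015e2) b35889 (.tok (nat_lit 6) (nat_lit 0xbc000178000304598) (.hit (nat_lit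 246) (nat_lit 7) (nat_lit 0xbc000178000304598) b35890 (.hit (nat_lit 247) (nat_lit 15) (nat_lit 0xbc0001780002ffe70) b35891 (.nil))) (.tok (nat_lit 9) (nat_lit 0xbc0001780003002ca) (.hit (nat_lit 248) (nat_lit 20) (nat_lit 0xbc0001780003002ca) b35892 (.hit (nat_lit 249) (nat_lit 28) (nat_lit 0xbc0001780002fed9d) b35893 (.nil))) (.nil)))) (.tok (nat_lit 43) (nat_lit 0xbc000178000303491) (.hit (nat_lit 270) (nat_lit 0) (nat_lit 0xbc000178000300668) b35902 (.tok (nat_lit 3) (nat_lit 0xbc000178000303491) (.hit (nat_lit 271) (nat_lit 1) (nat_lit 0xbc0001780002ffdac) b35903 (.one (nat_lit 67) (nat_lit 272) (nat_lit 2) (nat_lit 0xbc000178000303491) b35904 (.nil))) (.tok (nat_lit 6) (nat_lit 0xbc000178000301d63) (.hit (nat_lit 273) (nat_lit 7) (nat_lit 0xbc0001780002ff08c) b35905 (.hit (nat_lit 276) (nat_lit 15) (nat_lit 0xbc0001780002ff533) b35908 (.tok (nat_lit 55) (nat_lit 0xbc000178000301d63)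 (.hit (nat_lit 274) (nat_lit 8) (nat_lit 0xbc0001780002ffdc6) b35906 (.hit (nat_lit 277) (nat_lit 16) (nat_lit 0xbc000178000301d63) b35909 (.one (nat_lit 6) (nat_lit 275) (nat_lit 9) (nat_lit 0xbc0001780003019ee) b35907 (.nil)))) (.nil)))) (.nil)))) (.tok (nat_lit 46) (nat_lit 0xbc0001780003012c5) (.hit (nat_lit 256) (nat_lit 0) (nat_lit 0xbc0001780003012c5) b35894 (.tok (nat_lit 3) (nat_lit 0xbc0001780002ff3f2) (.hit (nat_lit 257) (nat_lit 1) (nat_lit 0xbc0001780002fdc01) b35895 (.one (nat_lit 55) (nat_lit 258) (nat_lit 3) (nat_lit 0xbc0001780002ff3f2) b35896 (.nil))) (.tok (nat_lit 9) (nat_lit 0xbc0001780003000d7) (.hit (nat_lit 259) (nat_lit 20) (nat_lit 0xbc0001780002fe3cb) b35897 (.hit (nat_lit 262) (nat_lit 28) (nat_lit 0xbc0001780002fde9c) b35900 (.tok (nat_lit 67) (nat_lit 0xbc0001780003000d7) (.hit (nat_lit 260) (nat_lit 21) (nat_lit 0xbc0001780002ffa13) b35898 (.hit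 (nat_lit 263) (nat_lit 29) (nat_lit 0xbc0001780003000d7) b35901 (.one (nat_lit 9) (nat_lit 261) (nat_lit 22) (nat_lit 0xbc0001780002ffe3a) b35899 (.nil)))) (.nil)))) (.nil)))) (.nil))))
noncomputable def r19_16 : Rw Blk := .tok (nat_lit 3) (nat_lit 0xbc0001780002fe1ec) (.hit (nat_lit 61) (nat_lit 0) (nat_lit 0xbc0001780002fcc92) b35910 (.tok (nat_lit 14) (nat_lit 0xbc0001780002fe13b) (.hit (nat_lit 82) (nat_lit 61) (nat_lit 0xbc0001780002fde03) b35911 (.one (nat_lit 3) (nat_lit 83) (nat_lit 62) (nat_lit 0xbc0001780002fd09e) b35912 (.tok (nat_lit 6) (nat_lit 0xbc0001780002fe13b) (.hit (nat_lit 86) (nat_lit 65) (nat_lit 0xbc0001780002fe13b) b35915 (.hit (nat_lit 87) (nat_lit 66) (nat_lit 0xbc0001780002fca79) b35916 (.nil))) (.tok (nat_lit 9) (nat_lit 0xbc0001780002fdfea) (.hit (nat_lit 84) (nat_lit 63) (nat_lit 0xbc0001780002fdfea) b35913 (.hit (nat_lit 85) (nat_lit 64) (nat_lit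 0xbc0001780002fda26) b35914 (.nil))) (.nil))))) (.one (nat_lit 17) (nat_lit 88) (nat_lit 67) (nat_lit 0xbc0001780002fc98a) b35917 (.tok (nat_lit 20) (nat_lit 0xbc0001780002fc3e0) (.hit (nat_lit 89) (nat_lit 68) (nat_lit 0xbc0001780002fc3e0) b35918 (.hit (nat_lit 90) (nat_lit 69) (nat_lit 0xbc0001780002fbb97) b35919 (.nil))) (.tok (nat_lit 23) (nat_lit 0xbc0001780002fc2da) (.hit (nat_lit 91) (nat_lit 70) (nat_lit 0xbc0001780002fc2da) b35920 (.hit (nat_lit 92) (nat_lit 71) (nat_lit 0xbc0001780002fbb97) b35919 (.nil))) (.one (nat_lit 26) (nat_lit 93) (nat_lit 72) (nat_lit 0xbc0001780002fb01f) b35921 (.one (nat_lit 29) (nat_lit 94) (nat_lit 73) (nat_lit 0xbc0001780002fb0db) b35922 (.one (nat_lit 32) (nat_lit 95) (nat_lit 74) (nat_lit 0xbc0001780002fb5c8) b35923 (.one (nat_lit 35) (nat_lit 96) (nat_lit 75) (nat_lit 0xbc0001780002fac10) b35924 (.one (nat_lit 50) (nat_lit 104) (nat_lit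 83) (nat_lit 0xbc0001780002fba38) b35925 (.tok (nat_lit 53) (nat_lit 0xbc0001780002fc3d3) (.hit (nat_lit 105) (nat_lit 84) (nat_lit 0xbc0001780002fbdbe) b35926 (.hit (nat_lit 106) (nat_lit 85) (nat_lit 0xbc0001780002fc3d3) b35927 (.nil))) (.tok (nat_lit 56) (nat_lit 0xbc0001780002fd51a) (.hit (nat_lit 107) (nat_lit 86) (nat_lit 0xbc0001780002fd445) b35928 (.one (nat_lit 3) (nat_lit 111) (nat_lit 90) (nat_lit 0xbc0001780002fccb9) b35932 (.tok (nat_lit 6) (nat_lit 0xbc0001780002fd51a) (.hit (nat_lit 109) (nat_lit 88) (nat_lit 0xbc0001780002fd51a) b35930 (.hit (nat_lit 110) (nat_lit 89) (nat_lit 0xbc0001780002fc383) b35931 (.nil))) (.one (nat_lit 9) (nat_lit 108) (nat_lit 87) (nat_lit 0xbc0001780002fcc56) b35929 (.nil))))) (.one (nat_lit 59) (nat_lit 112) (nat_lit 91) (nat_lit 0xbc0001780002fa798) b35933 (.one (nat_lit 62) (nat_lit 113) (nat_lit 92) (nat_lit 0xbc0001780002fbe86)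 b35934 (.tok (nat_lit 65) (nat_lit 0xbc0001780002fcfd2) (.hit (nat_lit 114) (nat_lit 93) (nat_lit 0xbc0001780002fcfd2) b35935 (.hit (nat_lit 115) (nat_lit 94) (nat_lit 0xbc0001780002fbff0) b35936 (.nil))) (.tok (nat_lit 68) (nat_lit 0xbc0001780002fe1ec) (.hit (nat_lit 116) (nat_lit 95) (nat_lit 0xbc0001780002fde57) b35937 (.one (nat_lit 3) (nat_lit 120) (nat_lit 99) (nat_lit 0xbc0001780002fc2bc) b35941 (.one (nat_lit 6) (nat_lit 117) (nat_lit 96) (nat_lit 0xbc0001780002fd9be) b35938 (.tok (nat_lit 9) (nat_lit 0xbc0001780002fe1ec) (.hit (nat_lit 118) (nat_lit 97) (nat_lit 0xbc0001780002fe1ec) b35939 (.hit (nat_lit 119) (nat_lit 98) (nat_lit 0xbc0001780002fbc19) b35940 (.nil))) (.nil))))) (.one (nat_lit 71) (nat_lit 121) (nat_lit 100) (nat_lit 0xbc0001780002fa785) b35942 (.nil)))))))))))))))))) (.tok (nat_lit 40) (nat_lit 0xbc0001780002fff40) (.hit (nat_lit 245) (nat_lit 0) (nat_lit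 0xbc0001780002fff40) b35943 (.tok (nat_lit 6) (nat_lit 0xbc0001780002ffe70) (.hit (nat_lit 246) (nat_lit 7) (nat_lit 0xbc0001780002ffe70) b35944 (.hit (nat_lit 247) (nat_lit 15) (nat_lit 0xbc0001780002ff21e) b35945 (.nil))) (.tok (nat_lit 9) (nat_lit 0xbc0001780002fed73) (.hit (nat_lit 248) (nat_lit 20) (nat_lit 0xbc0001780002fed73) b35946 (.hit (nat_lit 249) (nat_lit 28) (nat_lit 0xbc0001780002fe754) b35947 (.nil))) (.nil)))) (.tok (nat_lit 43) (nat_lit 0xbc000178000301f0a) (.hit (nat_lit 270) (nat_lit 0) (nat_lit 0xbc0001780002ff9e8) b35956 (.tok (nat_lit 3) (nat_lit 0xbc000178000301f0a) (.hit (nat_lit 271) (nat_lit 1) (nat_lit 0xbc0001780002feb64) b35957 (.one (nat_lit 67) (nat_lit 272) (nat_lit 2) (nat_lit 0xbc000178000301f0a) b35958 (.nil))) (.tok (nat_lit 6) (nat_lit 0xbc00017800030057d) (.hit (nat_lit 273) (nat_lit 7) (nat_lit 0xbc0001780002feda0) b35959 (.hit (nat_lit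 276) (nat_lit 15) (nat_lit 0xbc0001780002fe475) b35962 (.tok (nat_lit 55) (nat_lit 0xbc00017800030057d) (.hit (nat_lit 274) (nat_lit 8) (nat_lit 0xbc0001780002ffd82) b35960 (.hit (nat_lit 277) (nat_lit 16) (nat_lit 0xbc0001780002ffc2c) b35963 (.one (nat_lit 6) (nat_lit 275) (nat_lit 9) (nat_lit 0xbc00017800030057d) b35961 (.nil)))) (.nil)))) (.nil)))) (.tok (nat_lit 46) (nat_lit 0xbc000178000301312) (.hit (nat_lit 256) (nat_lit 0) (nat_lit 0xbc0001780002ffdae) b35948 (.tok (nat_lit 3) (nat_lit 0xbc000178000300ae0) (.hit (nat_lit 257) (nat_lit 1) (nat_lit 0xbc0001780002fe9ad) b35949 (.one (nat_lit 55) (nat_lit 258) (nat_lit 3) (nat_lit 0xbc000178000300ae0) b35950 (.nil))) (.tok (nat_lit 9) (nat_lit 0xbc000178000301312) (.hit (nat_lit 259) (nat_lit 20) (nat_lit 0xbc0001780003005d6) b35951 (.hit (nat_lit 262) (nat_lit 28) (nat_lit 0xbc0001780002ffa61) b35954 (.tok (nat_lit 67) (nat_lit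 0xbc000178000301312) (.hit (nat_lit 260) (nat_lit 21) (nat_lit 0xbc000178000300f49) b35952 (.hit (nat_lit 263) (nat_lit 29) (nat_lit 0xbc000178000301155) b35955 (.one (nat_lit 9) (nat_lit 261) (nat_lit 22) (nat_lit 0xbc000178000301312) b35953 (.nil)))) (.nil)))) (.nil)))) (.nil))))
noncomputable def r19_17 : Rw Blk := .tok (nat_lit 3) (nat_lit 0xbc000178000300000) (.hit (nat_lit 61) (nat_lit 0) (nat_lit 0xbc0001780002fed3f) b12933 (.tok (nat_lit 14) (nat_lit 0xbc000178000300000) (.hit (nat_lit 82) (nat_lit 61) (nat_lit 0xbc000178000300000) b12934 (.one (nat_lit 3) (nat_lit 83) (nat_lit 62) (nat_lit 0xbc0001780002fda5e) b12935 (.tok (nat_lit 6) (nat_lit 0xbc0001780002ffe02) (.hit (nat_lit 86) (nat_lit 65) (nat_lit 0xbc0001780002ffe02) b12936 (.hit (nat_lit 87) (nat_lit 66) (nat_lit 0xbc0001780002fdd1b) b12937 (.nil))) (.tok (nat_lit 9) (nat_lit 0xbc0001780002fdee9) (.hit (nat_lit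 84) (nat_lit 63) (nat_lit 0xbc0001780002fde0e) b12938 (.hit (nat_lit 85) (nat_lit 64) (nat_lit 0xbc0001780002fdee9) b12939 (.nil))) (.nil))))) (.one (nat_lit 17) (nat_lit 88) (nat_lit 67) (nat_lit 0xbc0001780002fd600) b12940 (.tok (nat_lit 20) (nat_lit 0xbc0001780002fe24e) (.hit (nat_lit 89) (nat_lit 68) (nat_lit 0xbc0001780002fe24e) b12943 (.hit (nat_lit 90) (nat_lit 69) (nat_lit 0xbc0001780002fd429) b12944 (.nil))) (.tok (nat_lit 23) (nat_lit 0xbc0001780002fdc29) (.hit (nat_lit 91) (nat_lit 70) (nat_lit 0xbc0001780002fdc29) b12941 (.hit (nat_lit 92) (nat_lit 71) (nat_lit 0xbc0001780002fd409) b12942 (.nil))) (.one (nat_lit 38) (nat_lit 97) (nat_lit 76) (nat_lit 0xbc0001780002fd320) b12945 (.tok (nat_lit 41) (nat_lit 0xbc0001780002fd15b) (.hit (nat_lit 98) (nat_lit 77) (nat_lit 0xbc0001780002fbadf) b12946 (.hit (nat_lit 99) (nat_lit 78) (nat_lit 0xbc0001780002fd15b) b12947 (.nil)))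 (.tok (nat_lit 44) (nat_lit 0xbc0001780002fcc75) (.hit (nat_lit 100) (nat_lit 79) (nat_lit 0xbc0001780002fcb7b) b12950 (.hit (nat_lit 101) (nat_lit 80) (nat_lit 0xbc0001780002fcc75) b12951 (.nil))) (.tok (nat_lit 47) (nat_lit 0xbc0001780002fcb88) (.hit (nat_lit 102) (nat_lit 81) (nat_lit 0xbc0001780002fbef3) b12948 (.hit (nat_lit 103) (nat_lit 82) (nat_lit 0xbc0001780002fcb88) b12949 (.nil))) (.one (nat_lit 50) (nat_lit 104) (nat_lit 83) (nat_lit 0xbc0001780002fda6b) b12961 (.tok (nat_lit 53) (nat_lit 0xbc0001780002fe024) (.hit (nat_lit 105) (nat_lit 84) (nat_lit 0xbc0001780002fe024) b12962 (.hit (nat_lit 106) (nat_lit 85) (nat_lit 0xbc0001780002fd028) b12963 (.nil))) (.tok (nat_lit 56) (nat_lit 0xbc0001780002fff17) (.hit (nat_lit 107) (nat_lit 86) (nat_lit 0xbc0001780002fff17) b12964 (.one (nat_lit 3) (nat_lit 111) (nat_lit 90) (nat_lit 0xbc0001780002fe5aa) b12968 (.tok (nat_lit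 6) (nat_lit 0xbc0001780002feda6) (.hit (nat_lit 109) (nat_lit 88) (nat_lit 0xbc0001780002fe911) b12966 (.hit (nat_lit 110) (nat_lit 89) (nat_lit 0xbc0001780002feda6) b12967 (.nil))) (.one (nat_lit 9) (nat_lit 108) (nat_lit 87) (nat_lit 0xbc0001780002fe8b1) b12965 (.nil))))) (.one (nat_lit 59) (nat_lit 112) (nat_lit 91) (nat_lit 0xbc0001780002fbf33) b12969 (.one (nat_lit 62) (nat_lit 113) (nat_lit 92) (nat_lit 0xbc0001780002fd3a2) b12952 (.tok (nat_lit 65) (nat_lit 0xbc0001780002fd6ed) (.hit (nat_lit 114) (nat_lit 93) (nat_lit 0xbc0001780002fd6ed) b12953 (.hit (nat_lit 115) (nat_lit 94) (nat_lit 0xbc0001780002fd015) b12954 (.nil))) (.tok (nat_lit 68) (nat_lit 0xbc0001780002ff0b0) (.hit (nat_lit 116) (nat_lit 95) (nat_lit 0xbc0001780002ff0b0) b12955 (.one (nat_lit 3) (nat_lit 120) (nat_lit 99) (nat_lit 0xbc0001780002fdebc) b12959 (.one (nat_lit 6) (nat_lit 117) (nat_lit 96) (nat_lit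 0xbc0001780002fe1c3) b12956 (.tok (nat_lit 9) (nat_lit 0xbc0001780002ff0a7) (.hit (nat_lit 118) (nat_lit 97) (nat_lit 0xbc0001780002ff0a7) b12957 (.hit (nat_lit 119) (nat_lit 98) (nat_lit 0xbc0001780002fdef0) b12958 (.nil))) (.nil))))) (.one (nat_lit 71) (nat_lit 121) (nat_lit 100) (nat_lit 0xbc0001780002fbf53) b12960 (.nil)))))))))))))))))) (.nil)
noncomputable def r19_18 : Rw Blk := .tok (nat_lit 3) (nat_lit 0xbc000178000300000) (.hit (nat_lit 61) (nat_lit 0) (nat_lit 0xbc0001780002feaa6) b12970 (.tok (nat_lit 14) (nat_lit 0xbc0001780002fff4f) (.hit (nat_lit 82) (nat_lit 61) (nat_lit 0xbc0001780002ffc17) b12971 (.one (nat_lit 3) (nat_lit 83) (nat_lit 62) (nat_lit 0xbc0001780002feeb2) b12972 (.tok (nat_lit 6) (nat_lit 0xbc0001780002ffdfe) (.hit (nat_lit 86) (nat_lit 65) (nat_lit 0xbc0001780002ffdfe) b12973 (.hit (nat_lit 87) (nat_lit 66) (nat_lit 0xbc0001780002ff83a) b12974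 (.nil))) (.tok (nat_lit 9) (nat_lit 0xbc0001780002fff4f) (.hit (nat_lit 84) (nat_lit 63) (nat_lit 0xbc0001780002fff4f) b12975 (.hit (nat_lit 85) (nat_lit 64) (nat_lit 0xbc0001780002fe88d) b12976 (.nil))) (.nil))))) (.one (nat_lit 17) (nat_lit 88) (nat_lit 67) (nat_lit 0xbc0001780002fe79e) b12977 (.tok (nat_lit 20) (nat_lit 0xbc0001780002fe0ee) (.hit (nat_lit 89) (nat_lit 68) (nat_lit 0xbc0001780002fe0ee) b12980 (.hit (nat_lit 90) (nat_lit 69) (nat_lit 0xbc0001780002fd9ab) b12979 (.nil))) (.tok (nat_lit 23) (nat_lit 0xbc0001780002fe1f4) (.hit (nat_lit 91) (nat_lit 70) (nat_lit 0xbc0001780002fe1f4) b12978 (.hit (nat_lit 92) (nat_lit 71) (nat_lit 0xbc0001780002fd9ab) b12979 (.nil))) (.one (nat_lit 38) (nat_lit 97) (nat_lit 76) (nat_lit 0xbc0001780002fdad4) b12981 (.tok (nat_lit 41) (nat_lit 0xbc0001780002fe302) (.hit (nat_lit 98) (nat_lit 77) (nat_lit 0xbc0001780002fbfc2) b12982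 (.hit (nat_lit 99) (nat_lit 78) (nat_lit 0xbc0001780002fe302) b12983 (.nil))) (.tok (nat_lit 44) (nat_lit 0xbc0001780002fdaf4) (.hit (nat_lit 100) (nat_lit 79) (nat_lit 0xbc0001780002fcf25) b12986 (.hit (nat_lit 101) (nat_lit 80) (nat_lit 0xbc0001780002fdaf4) b12987 (.nil))) (.tok (nat_lit 47) (nat_lit 0xbc0001780002fd459) (.hit (nat_lit 102) (nat_lit 81) (nat_lit 0xbc0001780002fc9a3) b12984 (.hit (nat_lit 103) (nat_lit 82) (nat_lit 0xbc0001780002fd459) b12985 (.nil))) (.one (nat_lit 50) (nat_lit 104) (nat_lit 83) (nat_lit 0xbc0001780002fdc9a) b12997 (.tok (nat_lit 53) (nat_lit 0xbc0001780002fede6) (.hit (nat_lit 105) (nat_lit 84) (nat_lit 0xbc0001780002fede6) b12998 (.hit (nat_lit 106) (nat_lit 85) (nat_lit 0xbc0001780002fde04) b12999 (.nil))) (.tok (nat_lit 56) (nat_lit 0xbc000178000300000) (.hit (nat_lit 107) (nat_lit 86) (nat_lit 0xbc0001780002ffc6b) b13000 (.one (nat_lit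 3) (nat_lit 111) (nat_lit 90) (nat_lit 0xbc0001780002fe0d0) b13004 (.tok (nat_lit 6) (nat_lit 0xbc000178000300000) (.hit (nat_lit 109) (nat_lit 88) (nat_lit 0xbc000178000300000) b13002 (.hit (nat_lit 110) (nat_lit 89) (nat_lit 0xbc0001780002fda2d) b13003 (.nil))) (.one (nat_lit 9) (nat_lit 108) (nat_lit 87) (nat_lit 0xbc0001780002ff7d2) b13001 (.nil))))) (.one (nat_lit 59) (nat_lit 112) (nat_lit 91) (nat_lit 0xbc0001780002fc599) b13005 (.one (nat_lit 62) (nat_lit 113) (nat_lit 92) (nat_lit 0xbc0001780002fd84c) b12988 (.tok (nat_lit 65) (nat_lit 0xbc0001780002fe1e7) (.hit (nat_lit 114) (nat_lit 93) (nat_lit 0xbc0001780002fdbd2) b12989 (.hit (nat_lit 115) (nat_lit 94) (nat_lit 0xbc0001780002fe1e7) b12990 (.nil))) (.tok (nat_lit 68) (nat_lit 0xbc0001780002ff32e) (.hit (nat_lit 116) (nat_lit 95) (nat_lit 0xbc0001780002ff259) b12991 (.one (nat_lit 3) (nat_lit 120) (nat_lit 99) (nat_lit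 0xbc0001780002feacd) b12995 (.one (nat_lit 6) (nat_lit 117) (nat_lit 96) (nat_lit 0xbc0001780002fea6a) b12992 (.tok (nat_lit 9) (nat_lit 0xbc0001780002ff32e) (.hit (nat_lit 118) (nat_lit 97) (nat_lit 0xbc0001780002ff32e) b12993 (.hit (nat_lit 119) (nat_lit 98) (nat_lit 0xbc0001780002fe197) b12994 (.nil))) (.nil))))) (.one (nat_lit 71) (nat_lit 121) (nat_lit 100) (nat_lit 0xbc0001780002fc5ac) b12996 (.nil)))))))))))))))))) (.nil)
noncomputable def r20_0 : Rw Blk := .tok (nat_lit 9) (nat_lit 0x3000005fdf2cbfb9b97ff732fee4e6006d0bfc0017f8e5aff0655fd61cbfbfe97fe37b00d00600148bfca017ff26afff375ff898bfa2a17fb4a2ff1d5) (.hit (nat_lit 157) (nat_lit 0) (nat_lit 0x2fddac5fbc80bf6b9d7eef4afdac35fc994bf7c257f0602fe8b85fa6a6bf9fed7efcfafd9715fbc44bf8af97f249afdec55fb9c0bf5c4d7efd8afdf15) b13117 (.tok (nat_lit 14) (nat_lit 0x3000005fdcb6bfb9b97ff732fee4e6006d0bfb3397f700afebbb5fcac8bfbba97fe37b00d00600148bf97897ff26aff7065ff534bfa2a17fb4a2fec35)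 (.hit (nat_lit 193) (nat_lit 61) (nat_lit 0x2ff2aa5fda56bfb9b97f785afedb66006d0bfb3397f700afebbb5fc57cbf9db17fe37afef165ffbe0bf97897fb952ff7065ff534bfa2a17f779afe7c0) b13118 (.one (nat_lit 3) (nat_lit 194) (nat_lit 62) (nat_lit 0x2fe5045fbe82bfa5dd7ea322fd30f5fcd18bf647d7ef28afd6425fc40abfa4917f6042fe3555fd3e8bf64fd7f5e1afe74b5fe048bf61b17f5b12fe360) b13119 (.tok (nat_lit 6) (nat_lit 0x3000005fdcb6bfb60d7ff732fee4e5ff7b0bfa7f17f545afea7a5fcac8bfbba97f570b00d00600148bf7ccd7ff26afef285fddbabf75017fb4a2fec35) (.hit (nat_lit 197) (nat_lit 65) (nat_lit 0x3000005fdcb6bf9d0d7ff732fee4e5ff7b0bfa7f17f545afea7a5fcac8bfbba97f570afe88f5fdbbcbf71297f9332fef285fddbabf63c97f402afe802) b13120 (.hit (nat_lit 198) (nat_lit 66) (nat_lit 0x2fe22e5fae22bfb60d7ec402fd72b5fcdfcbf64897ed6cafd6455faba4bf6c157f29db00d00600148bf7ccd7ff26afe5c45fcb10bf75017fb4a2fec35) b13121 (.nil))) (.tok (nat_lit 9) (nat_lit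 0x2fe7e35fbc30bf92d17f1d5afe2565fdf72bf7b017f07dafe05b5fc1aebf8e817fb292fe9fb5fec1ebf90757fbb0aff1695feff2bf93197f6f82fdf7a) (.hit (nat_lit 195) (nat_lit 63) (nat_lit 0x2fcf795f8bd6bf71f97f1d5afe2565fab60bf42417f07dafe05b5f90d4bf70317f280afda255fc584bf7dd17eab5afe1cd5fc4e4bf93197ee71afd250) b13122 (.hit (nat_lit 196) (nat_lit 64) (nat_lit 0x2fe7e35fbc30bf92d17edc92fd4895fdf72bf7b017f03bafdbe35fc1aebf8e817fb292fe9fb5fec1ebf90757fbb0aff1695feff2bf78ed7f6f82fdf7a) b13123 (.nil))) (.nil))))) (.one (nat_lit 17) (nat_lit 199) (nat_lit 67) (nat_lit 0x2fd79e5fae28bf70b17e6a8afcbfc5fadbebf467d7e9abafcfc65fbab0bfa37d7ecefafd90f5fb78ebf81697f2b6afe2cd5fbd34bf63097ef04afde6c) b13124 (.tok (nat_lit 20) (nat_lit 0x2fd5f55f9356bf61657f06b2fdf815faa72bf3fd97ef132fdd865f9ac8bf64dd7ed51afce265fad86bf7ad97ee562fd8b35fadeabf72f17ed58afd7ef) (.hit (nat_lit 200) (nat_lit 68) (nat_lit 0x2fcca45f862cbf61657f06b2fdf815fa5b6bf36ed7ef132fdd865f8b2abf64dd7ed51afce265fad86bf7ad97e94b2fd5ce5face6bf72f17ed58afd7ef)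 b13127 (.hit (nat_lit 201) (nat_lit 69) (nat_lit 0x2fd5f55f9356bf34357e5c4afc7f65faa72bf3fd97e8d6afce1d5f9ac8bf63c17ebd7afcddb5fa626bf42bd7ee562fd8b35fadeabf26897ea6a2fcb51) b13128 (.nil))) (.tok (nat_lit 23) (nat_lit 0x2fe9c45fd47ebf98e57f3f92fdf705fe64cbfaeb17f8032fee025fd61cbfadd97f3dd2fe6985fd62cbf78e17fa6f2fe5485fd0a4bf76dd7f6b02ff1d5) (.hit (nat_lit 202) (nat_lit 70) (nat_lit 0x2fe9c45fd47ebf98e57f3f92fdf705fe64cbfaeb17f8032fee025fd61cbfadd97f3dd2fe6985fd62cbf78e17fa6f2fe5485fd0a4bf76dd7f6b02ff1d5) b13125 (.hit (nat_lit 203) (nat_lit 71) (nat_lit 0x2fd6c85f908ebf8a917e4af2fc8095fabe2bf43257e9402fcef05f9a02bf44297ebbc2fe10b5fc868bf58a97f587afd4445faccabf295d7f3e92fd7a5) b13126 (.nil))) (.one (nat_lit 26) (nat_lit 204) (nat_lit 72) (nat_lit 0x2fcda05f7e40bf23557df572fbaff5f99c4bf1e857e4ac2fc5c85f87b2bf1f9d7e758afc6b65f954cbf24e97e9b1afca8a5f9a34bf009d7e621afc206) b13129 (.one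 (nat_lit 29) (nat_lit 205) (nat_lit 73) (nat_lit 0x2fcf4d5f9096bf46757e29eafb9e45f9d14bf25397e582afc7755f988cbf4acd7e8852fc7fa5f997ebf3fd97eccdafdb7f5fa4c6bf0a017e93e2fcc1f) b13130 (.one (nat_lit 32) (nat_lit 206) (nat_lit 74) (nat_lit 0x2fd62e5f9dc2bf584d7e406afbeee5faae2bf40bd7e8f32fce565fac34bf68897ebea2fcfb15fa95abf544d7ef122fd5355fae1cbf03797eb5d2fd129) b13132 (.one (nat_lit 35) (nat_lit 207) (nat_lit 75) (nat_lit 0x2fc25d5f71bcbf5dd17e03bafbf225f830ebef1797df0aafbd275f77f4bf04497e0772fcc105f9f78bf56817ec292fc5005f85f4bf03c97e9692fcb68) b13131 (.one (nat_lit 38) (nat_lit 208) (nat_lit 76) (nat_lit 0x2fd2a45f9252bf5e7d7e7162fccd75fa3b2bf32617e727afcadc5f9a9ebf45657eb71afd6165fa97ebf436d7ee8a2fd3af5fa8a8bf36fd7ebb1afc999) b13133 (.tok (nat_lit 41) (nat_lit 0x2fd7995fae12bf72097e53b2fc3475fadaabf46757e9a92fcfc15fb350bf7aa97ecceafd3835fb5aabf6d417f20e2fdfd05fba14bf5ce57ee2f2fd743)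 (.hit (nat_lit 209) (nat_lit 77) (nat_lit 0x2fcda65f9a02bf569d7de5c2fb65b5facc6bf1a8d7e42c2fc1b55f963ebf3e0d7e4302fd2795fb5aabeb3717f1092fcf365fa530bedb0d7ed20afd1d4) b13134 (.hit (nat_lit 210) (nat_lit 78) (nat_lit 0x2fd7995fae12bf72097e53b2fc3475fadaabf46757e9a92fcfc15fb350bf7aa97ecceafd3835fb078bf6d417f20e2fdfd05fba14bf5ce57ee2f2fd743) b13135 (.nil))) (.tok (nat_lit 44) (nat_lit 0x2fd7385f9c78bf479d7e6d8afcbc75facf8bf44e57e9782fcf605fa902bf82457eb80afced05fa808bf9fad7f1a8afdbad5fb856bf3bf57edbc2fe55d) (.hit (nat_lit 211) (nat_lit 79) (nat_lit 0x2fb8ea5f5eb8bf24617e68e2fcbc75f7e42bee8057e5362fc9cc5f63b6bf15f57e374afb85f5f81f8bf9fad7df6e2fc0075f8158bf3bf57e4702fe55d) b13138 (.hit (nat_lit 212) (nat_lit 80) (nat_lit 0x2fd7385f9c78bf479d7e6d8afc5bd5facf8bf44e57e9782fcf605fa902bf82457eb80afced05fa808bf4b857f1a8afdbad5fb856bf20857edbc2fd3dc) b13139 (.nil))) (.tok (nat_lit 47) (nat_lit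 0x2fdc135fc2debf933d7ec09afcaa65fbc3ebf5c317ec61afccaa5fa33abf6fed7e9ddafcfe75fa39ebf77f17f2582fd8005fb9dabf5e7d7ee58afd0cc) (.hit (nat_lit 213) (nat_lit 81) (nat_lit 0x2fdc135fc2debf933d7ec09afcaa65fbc3ebf5c317ec61afccaa5fa33abf6fed7e8e2afcf145fa380bf77f17f2582fd8005fb9dabf5e7d7ee58afd0cc) b13136 (.hit (nat_lit 214) (nat_lit 82) (nat_lit 0x2fd34c5f89c4bf51a17e1b82fbd545fa4ecbf35357e7822fcb745f930abf36397e9ddafcfe75fa39ebf52917ed682fd1285fa548bf3ad57eb39afca9c) b13137 (.nil))) (.one (nat_lit 50) (nat_lit 215) (nat_lit 83) (nat_lit 0x2fd1835f88d4bf4ea57e4fbafc8a25fa18abf2e117e69dafc9ab5f9888bf42597ea4cafd4565fa9c0bf4f217ef0b2fd46b5fa414bf3d097eb71afca9b) b13149 (.tok (nat_lit 53) (nat_lit 0x2fdaf85fb980bf6a0d7e569afc5ae5fc04ebf50797eaeaafcf345fb570bf7e557f14f2fd9905fc09abf5f817f479afe5c05fc012bf50797f10cafd5af) (.hit (nat_lit 216) (nat_lit 84) (nat_lit 0x2fdaf85fb980bf6a0d7e569afc5ae5fc04ebf50797eaeaafcf345fb570bf7e557f14f2fd9905fc09abf450d7f479afdf8e5fc012bf38a57f10cafd5af)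 b13150 (.hit (nat_lit 217) (nat_lit 85) (nat_lit 0x2fd4db5f9d4ebf50cd7e543afc18a5fa830bf3b3d7e8432fccfa5facbabf78157e9ba2fcc515fa2eabf5f817f301afe5c05fbdb6bf50797ef15afd42c) b13151 (.nil))) (.tok (nat_lit 56) (nat_lit 0x2fdfdd5fbb36bfa3dd7f179afe19e5fc49ebf67a17f021afdfa35faa32bf6f4d7f22f2fe2215fce14bfbfc57ea59afdcf05fc3e8bf83297f0ea2fe517) (.hit (nat_lit 218) (nat_lit 86) (nat_lit 0x2fdfdd5fbb36bfa3dd7f179afe19e5fc49ebf67a17f021afdfa35faa32bf6f4d7f22f2fe2215fce14bfaca17ea59afdcf05fc3e8bf83297f0ea2fe1e9) b13152 (.one (nat_lit 3) (nat_lit 222) (nat_lit 90) (nat_lit 0x2fc1c85f7074bf73357eafd2fd4a55f8ffebf0b7d7e9a52fd2aa5f7572bf396d7e7e3afc1535f93e0bf99997e3dd2fc8fb5f9340bf65117ea322fdf42) b13156 (.tok (nat_lit 6) (nat_lit 0x2fce235f892abfa2297f12aafe1005fa8b4bf3ce97efd2afdf055f8e28bf6ad97ef39afd3975fb868bfbfc57ea0aafdb3f5fb7c8bf80657ecbd2fe517) (.hit (nat_lit 220) (nat_lit 88)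 (nat_lit 0x2fc58d5f77febf9e217ecdfafd86a5f9788bf1a917eb87afd66f5f7cfcbf48817ef39afd3975fb868bfb79d7e5bfafdb3f5fb7c8bf80657ecbd2fd635) b13154 (.hit (nat_lit 221) (nat_lit 89) (nat_lit 0x2fce235f892abfa2297f12aafe1005fa8b4bf3ce97efd2afdf055f8e28bf6ad97ee112fc96c5fa1d2bfbfc57ea0aafcff45fa132bf7ac57ec55afe517) b13155 (.nil))) (.one (nat_lit 9) (nat_lit 219) (nat_lit 87) (nat_lit 0x2fccf75f86d2bf85057f094afdfd45fa65cbf38397ef3cafddd95f8bd0bf66297ed7b2fcf155faf64bfa4357e974afd6bd5faec4bf78a17ecc42fde99) b13153 (.nil))))) (.one (nat_lit 59) (nat_lit 223) (nat_lit 91) (nat_lit 0x2fcb365f81c0bf25657e0032fb3f75f94ecbf14dd7e3772fc35e5f968ebf5b5d7e5c32fc4845f8f34bf21697ea6c2fcd545f9b6abf0ee97e67e2fc839) b13157 (.one (nat_lit 62) (nat_lit 224) (nat_lit 92) (nat_lit 0x2fdbcb5fa288bf6da17e6d8afc6df5fb61abf57257ebc02fd3f05fb020bf70a57eed5afdbd55fbbbcbf80e97f2dd2fded25fba26bf3e557ef7b2fd5f2)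 b13140 (.tok (nat_lit 65) (nat_lit 0x2fdcc35fcf72bfa1697ed882fd9bb5fcc18bf7e657f0aaafdad45fbdb4bf73ad7f8a0afee4f5ff322bf95d17fa1c2ff7d35fe236bf5f717f8e62febe9) (.hit (nat_lit 225) (nat_lit 93) (nat_lit 0x2fdcc35fcf72bfa1697ed882fd9bb5fcc18bf7e657f0aaafdad45fbdb4bf73ad7f8a0afee4f5ff322bf95d17fa1c2ff7d35fe236bf5f717f8e62febe9) b13141 (.hit (nat_lit 226) (nat_lit 94) (nat_lit 0x2fd8825fa396bf704d7e60a2fc7425fac82bf4a0d7ea1bafcf535fb03ebf725d7ecb12fd3185fa702bf73597ef7dafdd335fb234bf42d57eec42fd827) b13142 (.nil))) (.tok (nat_lit 68) (nat_lit 0x2ff39a5fdf2cbfaf317fb78afe9d05fef4ebfc0017f8e5aff0655fcb70bfbfe97fc3e2ff38f5fee7cbfca017fd12afff375ff898bf9ebd7fa3bafed55) (.hit (nat_lit 227) (nat_lit 95) (nat_lit 0x2ff3835fdf2cbf9e117f783afe5b45fdb64bfc0017f7bdaff0655fca72bfbfe97f8acafecc65fdce4bfb5257f9712fe96a5fd922bf9ebd7f5e22fe33a) b13143 (.one (nat_lit 3) (nat_lit 231) (nat_lit 99)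 (nat_lit 0x2fe7df5fbc76bf7ff97f1d2afdc095fce38bf7b3d7f07eafda0e5faa06bf97b57f15fafd9d85fc100bf95117f3a72fdf8b5fc060bf6ef17f096afda93) b13147 (.one (nat_lit 6) (nat_lit 228) (nat_lit 96) (nat_lit 0x2ff0c45fdc6cbf9bdd7fb78afe9d05fef4ebfb04d7f8e5afe7d55fcb70bfbda57f9bdafecf85fe30abfca017fd12aff0235fe162bf9e697f809afe776) b13144 (.tok (nat_lit 9) (nat_lit 0x2ff39a5fc480bfaf317f1f62fe2975fe63abfab117f4e8afe47c5fc54abf9b757fc3e2ff38f5fee7cbfa5c17fcd52fff375ff898bf969d7fa3bafed55) (.hit (nat_lit 229) (nat_lit 97) (nat_lit 0x2ff39a5fc480bfaf317f1f62fe2975fe63abfab117f4e8afe47c5fc54abf9b757fc3e2ff38f5fee7cbfa5c17fcd52fff375ff898bf82bd7fa3bafed55) b13145 (.hit (nat_lit 230) (nat_lit 98) (nat_lit 0x2fd99f5fc248bf9b617eaeb2fd4815fb1fabf36e97e9932fd2865fafccbf762d7ef57afd3d35fb8e0bf72417f1b2afdb7b5fb840bf969d7f656afde33) b13146 (.nil))) (.nil))))) (.one (nat_lit 71) (nat_lit 232) (nat_lit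 100) (nat_lit 0x2fd4bb5f8e3abf55257e46d2fbd7b5fa7fabf3af17e839afcce35fa8ecbf6d497eb59afd2585fa6dabf4c757ef5eafd8e25fae98bf16797eb70afd442) b13148 (.nil)))))))))))))))))))))) (.tok (nat_lit 14) (nat_lit 0x2fca4f5f7f06bf53497e7c62fc96c5f90a4bf39297eab8afdb585f90b6bf89d57ec082fd6165fb494bf923d7ec51afdb335fbfecbf6d3d7f04aafdf76) (.hit (nat_lit 233) (nat_lit 0) (nat_lit 0x2fca4f5f7f06bf53497e7c62fc96c5f90a4bf39297eab8afdb585f90b6bf89d57ec082fd6165fb494bf923d7ec51afdb335fbfecbf6d3d7f04aafdf76) b35964 (.one (nat_lit 3) (nat_lit 234) (nat_lit 1) (nat_lit 0x2f9e125f268cbf04cd7d1a7af9d2f5f382abe614d7d204afa1035f2664beb7757d4b7af9df45f4c34beb2d57d0742fa3d85f50acbf1b0d7e564afc19c) b35965 (.tok (nat_lit 6) (nat_lit 0x2fc6795f775abf41c17e5db2fc5965f88f8bf02e97e6382fc96a5f7732bf59117ebd1afcc285fa89cbf6ba57e4a7afd20c5fad14bf49857e9ad2fd0f0) (.hit (nat_lit 235) (nat_lit 7) (nat_lit 0x2fc31b5f709ebf34e57e42c2fc2385f823cbef5717e4892fc60c5f7076bf4b997ebd1afcc285fa89cbf6ba57e2f8afd20c5fad14bf43c17e9ad2fd0f0)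 b13162 (.hit (nat_lit 236) (nat_lit 15) (nat_lit 0x2fc6795f775abf41c17e5db2fc5965f88f8bf02e97e6382fc96a5f7732bf59117ea23afc8cc5fa1e4bf5e357e4a7afceb05fa65cbf49857e89cafcd94) b13163 (.nil))) (.tok (nat_lit 9) (nat_lit 0x2fc6795f775abf41c17e5db2fc5965f88f8bf02e97e6382fc96a5f7732bf59117ebd1afcc285fa89cbf6ba57e4a7afd20c5fad14bf631d7ecd72fd0f0) (.hit (nat_lit 237) (nat_lit 20) (nat_lit 0x2fc31b5f709ebf34e57e42c2fc2385f823cbef5717e4892fc60c5f7076bf4b997ebd1afcc285fa89cbf6ba57e2f8afd20c5fad14bf631d7e7e12fd0f0) b13160 (.hit (nat_lit 238) (nat_lit 28) (nat_lit 0x2fc6795f775abf41c17e5db2fc5965f88f8bf02e97e6382fc96a5f7732bf59117ea23afc8cc5fa1e4bf5e357e4a7afceb05fa65cbf509d7ecd72fcf00) b13161 (.nil))) (.nil))))) (.tok (nat_lit 17) (nat_lit 0x2fd1f45f88f8bf41797eb42afcea15fa38ebf553d7eb832fd6e45fc9cebfa3b97efb6afdccb5fc2dcbf66657f6d5afef6a5fe922bf7be97fa352fd8ef) (.hit (nat_lit 239) (nat_lit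 0) (nat_lit 0x2fd1f45f8878bf2e8d7eb42afcea15fa38ebf553d7eb832fd6e45fc9cebfa3b97ec672fd3a15fb0a8bf66657f6d5afe3f95fd152bf68f57f3c22fd8ef) b35966 (.one (nat_lit 3) (nat_lit 240) (nat_lit 1) (nat_lit 0x2fa9585f3d18bf20f17d74aafa8755f4eb6be8e657d7a7afac495f3cf0bee48d7ecd3afd7945fb888bec80d7d6172fde995fc6debf46a57f14eafce91) b35967 (.tok (nat_lit 6) (nat_lit 0x2fcf485f88f8bf41797ea42afce655f9a96bf26257ea9fafd2395f88d0bf7c4d7efb6afdccb5fc2dcbf54d17e90f2fef6a5fe922bf7be97fa352fd3ba) (.hit (nat_lit 241) (nat_lit 7) (nat_lit 0x2fc9735f7d4ebf2c0d7e7582fc8905f8eecbf0ed17e7b52fcc645f7d26bf64f97eb952fd5515fb3f4bf3d7d7e624afef6a5fe922bf29017fa352fced3) b13168 (.hit (nat_lit 242) (nat_lit 15) (nat_lit 0x2fcf485f88f8bf41797ea42afce655f9a96bf26257ea9fafd2395f88d0bf7c4d7efb6afdccb5fc2dcbf54d17e90f2fe3f55fd16abf7be97f3e32fd3ba) b13169 (.nil))) (.tok (nat_lit 9) (nat_lit 0x2fcf485f88f8bf41797ea42afce655f9a96bf26257ea9fafd2395f88d0bf7c4d7ed522fd8965fba8ebf54d17e90f2fdf795fc8b6bf591d7f1d02fcf94)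 (.hit (nat_lit 243) (nat_lit 20) (nat_lit 0x2fc9735f7d4ebf2c0d7e7582fc8905f8eecbf0ed17e7b52fcc645f7d26bf64f97e3d82fbe2d5f88b6bf3d7d7e624afc2195f8d2ebf591d7e8c3afc841) b13166 (.hit (nat_lit 244) (nat_lit 28) (nat_lit 0x2fcf485f88f8bf41797ea42afce655f9a96bf26257ea9fafd2395f88d0bf7c4d7ed522fd8965fba8ebf54d17e90f2fdf795fc8b6bf535d7f1d02fcf94) b13167 (.nil))) (.nil))))) (.tok (nat_lit 20) (nat_lit 0x2fe1c75fbfb6bf896d7f2c5afdc925fcca8bf11b97e8122fcd1e5f9dcebf67e17f0d7afd6345fbcb4bf93d57ecb2afdd735fc340bf81817f31d2fdb99) (.hit (nat_lit 245) (nat_lit 0) (nat_lit 0x2fe1c75fbfb6bf73597f2c5afdc925fcca8bf05457e634afc9635f9dcebf58f57ebac2fd5695fb434bf7b897ecb2afdd735fc340bf81817f31d2fdb99) b13176 (.one (nat_lit 3) (nat_lit 246) (nat_lit 1) (nat_lit 0x2fd0b45f8558bf3f517ebdcafd11e5fa152be81457d603afa9015f3660bed76d7db372faaf35f6632bee6d17d4732fb0d75f6aaabf37d57e7a0afc8c7) b13177 (.tok (nat_lit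 6) (nat_lit 0x2fd07d5f84debf49d97ebc12fd0e75fa0cabf091d7e6feafcaf75f7a4cbf5f457ec042fcc8d5fa966bf6d397e56e2fd2715faddebf5cbd7ec402fd206) (.hit (nat_lit 247) (nat_lit 7) (nat_lit 0x2fbaff5f6066bf437d7e01e2fba1c5f7204bed5017e07b2fbdf05f603ebf2b297e7202fc2c55f95d6bf46197deeaafc8a95f9a4ebf43a17e91e2fcbc2) b13180 (.hit (nat_lit 248) (nat_lit 15) (nat_lit 0x2fd07d5f84debf49d97ebc12fd0e75fa0cabf091d7e6feafcaf75f7a4cbf5f457ec042fcc8d5fa966bf6d397e56e2fd2715faddebf5cbd7ec402fd206) b13181 (.nil))) (.tok (nat_lit 9) (nat_lit 0x2fd3065f8c52bf896d7ed032fd3805fabc2bf11b97e8122fcd1e5f7e9abf67e17f0d7afd6345fbcb4bf93d57e681afdc185fc12cbf66397ed4e2fdafc) (.hit (nat_lit 249) (nat_lit 20) (nat_lit 0x2fd3065f8c52bf896d7ed032fd3805fabc2bef0c97e3f42fc4e25f6e22bf46f17e94cafc71e5f9e88bf577d7e263afcd025fa300bf3b717e8182fcbe6) b13178 (.hit (nat_lit 250) (nat_lit 28) (nat_lit 0x2fce955f8088bf64fd7eacd2fceff5f9b9abf11b97e8122fcd1e5f7e9abf67e17f0d7afd6345fbcb4bf93d57e681afdc185fc12cbf66397ed4e2fdafc)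 b13179 (.nil))) (.nil))))) (.tok (nat_lit 23) (nat_lit 0x2fe1c75fbfb6bf896d7f3d42fd9435fd912bf9c717f469afe66d5fd600bfd0957f5e0afea155fe146bf93d57ff07aff1cf5fe730bf7a797fa70afe898) (.hit (nat_lit 251) (nat_lit 0) (nat_lit 0x2fe1c75fbfb6bf73597f3d42fd9435fd912bf9c717f469afe66d5fd600bfd0957f5e0afd8645fcd30bf7b657ff07aff1cf5fe730bf7a797fa70afe29c) b13170 (.one (nat_lit 3) (nat_lit 252) (nat_lit 1) (nat_lit 0x2fd0b45f8558bf3f517ebdcafd11e5fa2d2bf71517ef05afde525fbc0abf88317ef0bafd71a5fb798bee6d17fa662fe47f5fd30cbf37b57f6782fdf1d) b13171 (.tok (nat_lit 6) (nat_lit 0x2fd3065f8c52bf896d7ed032fd3805fabd0bf88317f1e1afe2745fc074bf91057f0d7afea155fe146bf93d57fd0f2feaaa5fdfc6bf65217f9cb2fe688) (.hit (nat_lit 253) (nat_lit 7) (nat_lit 0x2fd3065f8c52bf896d7ed032fd3805fabd0bf88317f1e1afe2745fc074bf91057ee182fea155fe146bf577d7fc832fea0b5fde98bf49617f9cb2fe688) b13174 (.hit (nat_lit 254) (nat_lit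 15) (nat_lit 0x2fce955f8088bf64fd7eacd2fceff5f9e58bf68d57edf62fdc335fb7ccbf7fb57f0d7afdf025fc7ccbf93d57fd0f2feaaa5fdfc6bf65217f9262fe54b) b13175 (.nil))) (.tok (nat_lit 9) (nat_lit 0x2fd07d5f84debf49d97ebc12fd0e75fa1d0bf70757eeea2fde1b5fbb9cbf87557f2b22fdbeb5fc266bf6d397fd6fafe9ed5fde46bf5cb17f981afe898) (.hit (nat_lit 255) (nat_lit 20) (nat_lit 0x2fbaff5f6066bf437d7e01e2fba1c5f7204bed5017e07b2fbdf05f603ebf2b297e7202fc2c55f95d6bf46197deeaafc8a95f9a4ebf43a17e91e2fcbce) b13172 (.hit (nat_lit 256) (nat_lit 28) (nat_lit 0x2fd07d5f84debf49d97ebc12fd0e75fa1d0bf70757eeea2fde1b5fbb9cbf87557f2b22fdbeb5fc266bf6d397fd6fafe9ed5fde46bf5cb17f981afe898) b13173 (.nil))) (.nil))))) (.tok (nat_lit 26) (nat_lit 0x2fdb425fa8a2bf65097ebe52fcffc5fb6dabfb65d7f7a72fec7e5ffa9cc003c97f6c32fe9a35fdc44bfc6b57fecfaffa2c5ffe90bf9ac17ff9baff15b) (.hit (nat_lit 257) (nat_lit 0) (nat_lit 0x2fdb425fa8a2bf65097ebe52fcffc5fb6dabfb65d7f7a72fec7e5ffa9cc003c97f6c32fe9a35fdc44bfc6b57fecfaffa2c5ffe90bf9ac17ff9baff15b)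 b35968 (.one (nat_lit 3) (nat_lit 258) (nat_lit 1) (nat_lit 0x2fa37a5f315cbeb32d7d45bafa2975f42fabe76ed7d4b8afa66b5f3134becd157e612afca8e5f9e16bea5997d3282fd90d5fbc80beec5d7ef0c2fd2c3) b35969 (.tok (nat_lit 6) (nat_lit 0x2fcae15f802abf281d7e80f2fc9fe5f91c8bf14897e86c2fcdd25f8002bf6ab17eb042fd46e5fb1e0bf478d7e6dbafe2d55fd00cbf6b657f3f4afdc86) (.hit (nat_lit 259) (nat_lit 7) (nat_lit 0x2fcae15f802abf281d7e80f2fc9fe5f91c8bf14897e86c2fcdd25f8002bf6ab17e74eafc3225f9690bf478d7e6dbafc9065f9b08bf6b657ec73afd26d) b13186 (.hit (nat_lit 260) (nat_lit 15) (nat_lit 0x2fb4e55f5432bedc357dd112fb4025f65d0bebc997dd6e2fb7d65f540abf12c17eb042fd46e5fb1e0bf0ce57dbddafe2d55fd00cbf12057f3f4afdc86) b13187 (.nil))) (.tok (nat_lit 9) (nat_lit 0x2fcae15f802abf281d7e80f2fc9fe5f91c8bf14897e86c2fcdd25f8002bf6ab17f2b62fe3625fcf86bf478d7e6dbaff5255ff4b8bf6b5d7fd1a2fed45) (.hit (nat_lit 261) (nat_lit 20) (nat_lit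 0x2fcae15f802abf281d7e80f2fc9fe5f91c8bf14897e86c2fcdd25f8002bf6ab17f2b62fe3625fcf86bf478d7e6dbaff5255ff4b8bf6b5d7fd1a2fed45) b13184 (.hit (nat_lit 262) (nat_lit 28) (nat_lit 0x2fb4e55f5432bedc357dd112fb4025f65d0bebc997dd6e2fb7d65f540abf12c17ea9cafd3a25fb03ebf0ce57dbddafe2295fcec0bf156d7f39c2fdbd8) b13185 (.nil))) (.nil))))) (.tok (nat_lit 29) (nat_lit 0x2fd5845f9570bf97e57ed60afd4a15fa70ebf88a57f1da2fe10f5fbc7cbf953d801f02ff80160078abf6dc17fbfd300071600680bfab0980118aff5f3) (.hit (nat_lit 263) (nat_lit 0) (nat_lit 0x2fcfbc5f8284bf51297e4faafc3d55f9f4cbf88a57f1da2fe10f5fbc7cbf89157f33e2fe34a5fd008bf59617fbfd2feaf15fe040bf9c857f8dcafe8ea) b35970 (.one (nat_lit 3) (nat_lit 264) (nat_lit 1) (nat_lit 0x2fa7355f38d2bf203d7d6392fa6525f4a70be85d97d6962faa265f38aabedc017f529afdf7d5fc8a6bec80d7d505afec815fe308bf3a857f876afe59a) b35971 (.tok (nat_lit 6) (nat_lit 0x2fd5845f9570bf97e57ed60afd4a15fa70ebf3f157edbdafd8755f9548bf953d801f02ff80160078abf6dc17ec2d300071600680bfab0980118aff5f3)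 (.hit (nat_lit 265) (nat_lit 7) (nat_lit 0x2fc5f75f7656bf97e57e59a2fc5145f87f4bf00e17e5f72fc8e85f762ebf5709801f02ff80160078abf3b257e466b00071600680bfab0980118aff5f3) b13192 (.hit (nat_lit 266) (nat_lit 15) (nat_lit 0x2fd5845f9570bf63597ed60afd4a15fa70ebf3f157edbdafd8755f9548bf953d7f503afe2a15fcaeabf6dc17ec2d2fe9b65fdcdebf8ef57f6daafe255) b13193 (.nil))) (.tok (nat_lit 9) (nat_lit 0x2fd5845f9570bf97e57ed60afd4a15fa70ebf3f157edbdafd8755f9548bf953d7f6962fec6d5fdc5abf6dc17ec2d2fef825fe2f6bf8f0d7fb07afe918) (.hit (nat_lit 267) (nat_lit 20) (nat_lit 0x2fc5f75f7656bf97e57e59a2fc5145f87f4bf00e17e5f72fc8e85f762ebf57097e5c1afc0085f905cbf3b257e466afc5ec5f94d4bf8ed17f0e62fdb3f) b13190 (.hit (nat_lit 268) (nat_lit 28) (nat_lit 0x2fd5845f9570bf63597ed60afd4a15fa70ebf3f157edbdafd8755f9548bf953d7f6962fec6d5fdc5abf6dc17ec2d2fef825fe2f6bf8f0d7fb07afe918) b13191 (.nil))) (.nil))))) (.tok (nat_lit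 32) (nat_lit 0x2fd5885fb19ebf95157e8e52fcbaa5f9520bfa34d7fa6e2feb245fc7cebfc5e17f8b7afe0c25fd69ebffe9d7f0fcaff09e5fe99ebfcb917f90d2fe9b2) (.hit (nat_lit 269) (nat_lit 0) (nat_lit 0x2fd5885fb19ebf95157e7052fc88a5f8b5cbfa34d7fa6e2feb245fc7cebfc5e17f8b7afe0c25fd69ebffe9d7f0fcaff09e5fe99ebfcb917f90d2fe9b2) b13200 (.one (nat_lit 3) (nat_lit 270) (nat_lit 1) (nat_lit 0x2fa8a85f3bb8bf11f17d6f2afa7c55f4d56be8ba57d74fafab995f3b90bee1cd7d47faf9d845f4b54bf3fb57d5bf2fa3685f4fccbf15c97e3632fc6ca) b13201 (.tok (nat_lit 6) (nat_lit 0x2fcc8d5f8382bf8d797e8e52fcbaa5f9520bf1b397e9422fcf7e5f835abf71617ef26afd2d25fb5f0bfaa8d7e7b1afd8b65fba68bf91dd7f2e5afe24a) (.hit (nat_lit 271) (nat_lit 7) (nat_lit 0x2fcc8d5f8382bf4a057e8e52fcbaa5f9520bf1b397e9422fcf7e5f835abf71617e9c2afc80a5fa060bfaa8d7e7b1afcdee5fa4d8bf90717f1f72fe24a) b13204 (.hit (nat_lit 272) (nat_lit 15) (nat_lit 0x2fc9035f7c6ebf8d797e7202fc8205f8e0cbf0d117e77d2fcbf45f7c46bf63397ef26afd2d25fb5f0bf98617e5ecafd8b65fba68bf91dd7f2e5afdf51)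 b13205 (.nil))) (.tok (nat_lit 9) (nat_lit 0x2fc0cf5f6c06bf709d7e3062fbfec5f7da4beec417e3632fc3c05f6bdebf42697e8fd2fc67f5f9d4abf87bd7e1d2afcc635fa1c2bfada17f4acafe2df) (.hit (nat_lit 273) (nat_lit 20) (nat_lit 0x2fc0cf5f6c06bf709d7e3062fbfec5f7da4beec417e3632fc3c05f6bdebf42697e8fd2fc67f5f9d4abf55017e1d2afcc635fa1c2bfada17f4acafe2df) b13202 (.hit (nat_lit 274) (nat_lit 28) (nat_lit 0x2fb3c75f51f6bf1a7d7dc822fb2e45f6394beb8217dcdf2fb6b85f51cebf0e497e4062fbc915f896ebf87bd7db4eafc2755f8de6bf602d7ecafafd8cb) b13203 (.nil))) (.nil))))) (.tok (nat_lit 35) (nat_lit 0x2fd5885fb19ebf95157e8e52fcbaa5f9520bf9f497f4c22fe6b85fc7e4bfa0597ef26afd2d25fb5f0bfce157e7b1afdda15fbf76bfad9d7f4acafea30) (.hit (nat_lit 275) (nat_lit 0) (nat_lit 0x2fd5885fb19ebf95157e6fc2fc88d5f8b5cbf9f497f4c22fe6b85fc7e4bfa0597e7fa2fcdfa5fa556bfce157e540afdda15fbf76bf8c017f1de2fea30) b13194 (.one (nat_lit 3) (nat_lit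 276) (nat_lit 1) (nat_lit 0x2fa8a85f3bb8bf11f17d6f2afa7c55f4d56be8ba57d74fafab995f3b90bee1cd7d47faf9d845f4b54bf424d7d5bf2fa3685f4fccbf18e97e376afc8b2) b13195 (.tok (nat_lit 6) (nat_lit 0x2fc0cf5f6c06bf709d7e3062fbfec5f7da4beec417e3632fc3c05f6bdebf42697e8fd2fc67f5f9d4abf8aa57e1d2afcc635fa1c2bfad9d7f4acafe2d0) (.hit (nat_lit 277) (nat_lit 7) (nat_lit 0x2fc0cf5f6c06bf709d7e3062fbfec5f7da4beec417e3632fc3c05f6bdebf42697e8fd2fc67f5f9d4abf55017e1d2afcc635fa1c2bfad9d7f4acafe2d0) b13198 (.hit (nat_lit 278) (nat_lit 15) (nat_lit 0x2fb3c75f51f6bf1a7d7dc822fb2e45f6394beb8217dcdf2fb6b85f51cebf0e497e4062fbc915f896ebf8aa57db4eafc2755f8de6bf634d7ecc32fda30) b13199 (.nil))) (.tok (nat_lit 9) (nat_lit 0x2fcc8d5f8382bf8d797e8e52fcbaa5f9520bf1b397e9422fcf7e5f835abf71617ef26afd2d25fb5f0bfaec57e7b1afd8b65fba68bf91dd7f2e7afe14c) (.hit (nat_lit 279) (nat_lit 20) (nat_lit 0x2fcc8d5f8382bf4a057e8e52fcbaa5f9520bf1b397e9422fcf7e5f835abf71617e9c2afc80a5fa060bfaec57e7b1afcdee5fa4d8bf903d7f207afe14c)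 b13196 (.hit (nat_lit 280) (nat_lit 28) (nat_lit 0x2fc9035f7c6ebf8d797e7202fc8205f8e0cbf0d117e77d2fcbf45f7c46bf63397ef26afd2d25fb5f0bf9e517e5ecafd8b65fba68bf91dd7f2e7afdfbc) b13197 (.nil))) (.nil))))) (.tok (nat_lit 38) (nat_lit 0x2fdf8f5fa85abf6e197f13d2fd7d55fbbb4bf93dd7f353afe6b360000ac007017f266afe4435fd988bfa6d97ffdc2ff33d5ff00abf8f8d7fbe4afe73b) (.hit (nat_lit 281) (nat_lit 0) (nat_lit 0x2fdf8f5fa85abf6e197f13d2fd7d55fbbb4bf93dd7f353afe6b360000ac007017f266afe4435fd988bfa6d97ffdc2ff33d5ff00abf8f8d7fbe4afe73b) b35972 (.one (nat_lit 3) (nat_lit 282) (nat_lit 1) (nat_lit 0x2fa7b65f39d4beb3057d679afa6d35f4b72be87dd7d6d6afaaa75f39acbede057e28c2fc3635f8fdcbeb6897d5462fc8135f9aa0bebb8d7e6862fc5a5) b35973 (.tok (nat_lit 6) (nat_lit 0x2fb9195f5c9abf117d7df2b2fb8365f6e38becd697df882fbc0a5f5c72bf23917eee62fdbf85fc13ebf0ce17ddf7afdfe65fca3abf0a817f27a2fd796) (.hit (nat_lit 283) (nat_lit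 7) (nat_lit 0x2fb9195f5c9abf117d7df2b2fb8365f6e38becd697df882fbc0a5f5c72bf23917eee62fdbf85fc13ebf0bc17ddf7afdfe65fca3abf0a817f27a2fd796) b13210 (.hit (nat_lit 284) (nat_lit 15) (nat_lit 0x2fb3245f50b0beddfd7dc30afb2415f624ebeb5957dc8dafb6155f5088bf0bbd7e6842fcb395f9fb2bf0ce17dafd2fd0095faa80bee6d97ea8c2fcd95) b13211 (.nil))) (.tok (nat_lit 9) (nat_lit 0x2fb9195f5c9abf117d7df2b2fb8365f6e38becd697df882fbc0a5f5c72bf23917e668afcb1c5f9f44bf0ce17ddf7afcf8b5fa9f8bf34dd7ea422fcd5d) (.hit (nat_lit 285) (nat_lit 20) (nat_lit 0x2fb9195f5c9abf117d7df2b2fb8365f6e38becd697df882fbc0a5f5c72bf23917dfd52fb42f5f78aabf0bc17ddf7afba135f7d22bf34dd7e614afc704) b13208 (.hit (nat_lit 286) (nat_lit 28) (nat_lit 0x2fb3245f50b0beddfd7dc30afb2415f624ebeb5957dc8dafb6155f5088bf0bbd7e668afcb1c5f9f44bf0ce17dafd2fcf8b5fa9f8bee4b57ea422fcd5d) b13209 (.nil))) (.nil))))) (.tok (nat_lit 41) (nat_lit 0x2fe5655fdefebfaf897f56f2fe4c55fa33ac000018021c2ffdc35fe3dcc058b97f49e2fe5d15fdc5ebfbcd97fbc32fec4c5fe5c6bf72797f5f1aff083)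 (.hit (nat_lit 292) (nat_lit 0) (nat_lit 0x2fd3c75fa9febf53e57ed36afd4285fa33abfae2d7f7202fe4fb5fd2cebfc4057f49e2fe5d15fdc5ebfb2717fbc32fec4c5fe5c6bf72797f5f1afe402) b35974 (.one (nat_lit 3) (nat_lit 293) (nat_lit 1) (nat_lit 0x2fccdc5f8da8bf19997e9282fcc955f4cdebf795d7f022afde3c5faa1ebfb3bd7eca02fd6435fb5f2bf7c9d7d5a12fdb825fc11cbf0dd57eff1afd87e) b35975 (.tok (nat_lit 6) (nat_lit 0x2fe5655fdefebfaf897f3632fdbd25f9d58bf99717f2bcafdd345fcbf0bfc1b17f16bafe07d5fc4a6bfb9357e9bfafe3e55fd47ebf5ded7f49cafe47e) (.hit (nat_lit 294) (nat_lit 7) (nat_lit 0x2fe5655fdefebfaf897f3632fdbd25f71aabf99717f2bcafdd345fcbf0bfc1b17e3ce2fbc215f888ebfad417ded42fc2055f8d06bf5ded7eae82fde60) b13216 (.hit (nat_lit 295) (nat_lit 15) (nat_lit 0x2fd0a95f900abf4ab17eaf32fcfc65f9d58bf77a17efd52fdc455fafe8bfa8457f16bafe07d5fc4a6bfb9357e9bfafe3e55fd47ebf56dd7f49cafe47e) b13217 (.nil))) (.tok (nat_lit 9) (nat_lit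 0x2fe5655fdefebfaf897f56f2fe4c55f9d58c000018021c2ffdc35fe3dcc058b97f11d2fdfd55fc95ebfbcd97e9bfafe5715fd51cbf65ed7f4b82ff083) (.hit (nat_lit 296) (nat_lit 20) (nat_lit 0x2fe5655fdefebfaf897f56f2fe4c55f71aac000018021c2ffdc35fe3dcc058b97f11d2fdfd55fc95ebfbcd97ded42fe5715fd51cbf0a7d7f4b82ff083) b13214 (.hit (nat_lit 297) (nat_lit 28) (nat_lit 0x2fd0a95f900abf4ab17eaf32fcfc65f9d58bf8b3d7f1dfafe2dd5fafe8bfbe497ef10afdb2c5fbfc6bfbaa57e9bfafe0a45fcb4ebf65ed7f285afe512) b13215 (.nil))) (.nil))))) (.tok (nat_lit 44) (nat_lit 0x2fe83e5fd420bf6c2d7fe592ff7b05fcf2ebfa1517fd28aff02f5fbf10c00cd17f3fb2fe51b5fd3c6bfe6d57ea4e2fed815fe096bf76ad7f6f42fe55b) (.hit (nat_lit 306) (nat_lit 0) (nat_lit 0x2fe5665fbd3cbf62457fe592ff70f5fc498bfa1517fd28aff02f5fbf10c00cd17f3fb2fe51b5fd3c6bfe6d57ea4e2fed815fe096bf76ad7f6f42fe55b) b13224 (.one (nat_lit 3) (nat_lit 307) (nat_lit 1) (nat_lit 0x2fc1085f7314bedef17e33e2fc0c15f7fe2be7d457d583afa8015f3460bed36d7d489af9d985f4b7cbf19517d3f32fa37c5f4ff4beed717dd8dafbc67)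 b13225 (.tok (nat_lit 6) (nat_lit 0x2fdccf5f9e80bf69197f10a2fd8655fb958bee5f57e299afc22d5f68b8bf3c1d7e97a2fc7795f9f3ebf58e97e1092fcd5d5fa3b6bf5d697ec33afd1ed) (.hit (nat_lit 308) (nat_lit 7) (nat_lit 0x2fdccf5f9e80bf69197f10a2fd8655fb958bee5f57e299afc22d5f68b8bf3c1d7e97a2fc7795f9f3ebf58e97e1092fcd5d5fa3b6bf5d697ec33afd1ed) b13228 (.hit (nat_lit 309) (nat_lit 15) (nat_lit 0x2fc9fd5f8d6cbf15017e7b8afc9b65f91ccbeaf897dbcc2fb4925f4d82bf05b17e5102fbea55f8d96bf50497da3bafc4895f920ebf37157e66bafca2a) b13229 (.nil))) (.tok (nat_lit 9) (nat_lit 0x2fe83e5fd420bf6c2d7fe232ff7b05fcf2ebf27717eac92fd28c5f8976bf7d997e9aaafc7da5fa000bf8ba17e938afcdbe5fa478bf6e497edf82fd8cc) (.hit (nat_lit 310) (nat_lit 20) (nat_lit 0x2fe83e5fd420bf6c2d7fe232ff7b05fcf2ebf0fd17e7d52fcca45f7da6bf65f97e47a2fbe6d5f8b3ebf8ba17e644afc35d5f8fb6bf6d0d7edf82fd8cc) b13226 (.hit (nat_lit 311) (nat_lit 28) (nat_lit 0x2fcf9b5f8f9cbf4abd7ea6c2fceb85f9b3cbf27717eac92fd28c5f8976bf7d997e9aaafc7da5fa000bf7ef17e938afcdbe5fa478bf6e497ed16afd606)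 b13227 (.nil))) (.nil))))) (.tok (nat_lit 47) (nat_lit 0x2fe83e5fd420bf6c2d7f848afe29a5fcd8abfad057f3da2fe5ae5fddd6bfc3c17f54cafe8275ff928bfc29d7ff40afeeb95feaeabf770d7f918afebca) (.hit (nat_lit 320) (nat_lit 0) (nat_lit 0x2fe5665fbd3cbf62457f4282fe29a5fcd8abfa0697f368afe0ac5fddd6bfae597eba6afd6f55fb73cbfc29d7fa872fe5fd5fd64abf6a517f37f2fe41b) b13218 (.one (nat_lit 3) (nat_lit 321) (nat_lit 1) (nat_lit 0x2fc1085f7314bedef17e52fafc0c15f8202bf33697e746afcceb5fb74abf7dc17e0122fbb0a5f8280bf16bd7ebaf2fcb0c5fa000bee7657e7a6afcb51) b13219 (.tok (nat_lit 6) (nat_lit 0x2fe83e5fd420bf6c2d7f848afe2695fc4e8bfad057f3532fe2725fda1ebfc3c17f54cafe63e5fd260bf8aa57fabaafe33f5fd404bf63ad7f43fafe572) (.hit (nat_lit 322) (nat_lit 7) (nat_lit 0x2fe83e5fd420bf6c2d7f848afe2695fc4e8bfad057f3532fe2725fda1ebfc3c17f54cafe63e5fd260bf8aa57fabaafe33f5fd404bf52dd7f43fafe572) b13222 (.hit (nat_lit 323) (nat_lit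 15) (nat_lit 0x2fcf9b5f8f9cbf4abd7ea6c2fceb85f9b3cbf62297ed0fafd8505fd8e2bfbcf97e9aaafcc935fab02bf7d217f608afde915fc870bf63ad7f1212fdccb) b13223 (.nil))) (.tok (nat_lit 9) (nat_lit 0x2fdccf5f9e80bf69197f0e02fd8675fbae8bf9c8d7f3da2fe5ae5fca0abfa2d57f543afe8275ff928bf58e97ff40afeeb95feaeabf770d7f918afebca) (.hit (nat_lit 324) (nat_lit 20) (nat_lit 0x2fdccf5f9e80bf69197f0e02fd8675fbae8bf9c8d7f3da2fe5ae5fc9c6bfa2d57f543afe8275ff928bf58e97ff40afeeb95feaeabf770d7f918afebca) b13220 (.hit (nat_lit 325) (nat_lit 28) (nat_lit 0x2fc9fd5f8d6cbf15017e7c22fc9975f9220bf569d7eb5a2fd4475fca0abf933d7e639afc92b5f9f52bf4d5d7f348afd42f5fb6acbf2d297ecf52fd734) b13221 (.nil))) (.nil))))) (.tok (nat_lit 50) (nat_lit 0x2fd4045f9270bf5ed57eca0afd3215fa40ebf5bdd7ecfdafd6f55fbb52bf8f3d7f89fafecf65fe002bf96417f4d4aff1665feb88bf8fe97f89dafeb66) (.hit (nat_lit 326) (nat_lit 0) (nat_lit 0x2fcac05f792cbf5ed57e0372fba4e5f95a6bf5bdd7ec632fd5595fbb52bf82457f591afe84e5fd7ecbf96417f4d4afedfe5fe8cabf8fe97f560afe846)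 b13275 (.one (nat_lit 3) (nat_lit 327) (nat_lit 1) (nat_lit 0x2fa0bb5f2bdebec1a17d2fc2f9fd85f3d7cbe6bf17d3592fa3ac5f2bb6bec2197e4c1afc69f5f964abec9d97d1c8afc9a45fa3ccbee18d7e53cafc796) b13276 (.tok (nat_lit 6) (nat_lit 0x2fd4045f9270bf582d7eca0afd3215fa40ebf39157ecfdafd6f55f9248bf8f3d7f89fafecf65fe002bf67c17eb6d2ff1665feb88bf6ac97f80e2feb66) (.hit (nat_lit 328) (nat_lit 7) (nat_lit 0x2fd4045f9270bf582d7eca0afd3215fa40ebf39157ecfdafd6f55f9248bf8f3d7f89fafecf65fe002bf67c17eb6d2ff1665feb88bf6ac97f80e2feb66) b13279 (.hit (nat_lit 329) (nat_lit 15) (nat_lit 0x2fa8415f3aeabedca17d6bf2fa75e5f4c88be8a097d71c2fab325f3ac2bee0317e81bafce775fa4bebec8857d58bafd4825fb3aabf0a697eb492fd35a) b13280 (.nil))) (.tok (nat_lit 9) (nat_lit 0x2fc21c5f6ea0bf2dd97e3acafc1395f803ebef1757e409afc50d5f6e78bf479d7f356afe4f35fd334bf57c97e2792fec3f5fe2aabf1cad7f89dafe742) (.hit (nat_lit 330) (nat_lit 20) (nat_lit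 0x2fc21c5f6ea0bf2dd97e3acafc1395f803ebef1757e409afc50d5f6e78bf479d7f356afe4f35fd334bf57c97e2792fec3f5fe2aabf09b17f89dafe742) b13277 (.hit (nat_lit 331) (nat_lit 28) (nat_lit 0x2fa8415f3aeabee1ad7d6bf2fa75e5f4c88be8a097d71c2fab325f3ac2bee0317e81bafced55fa65abf2ce17d58bafd5df5fb5ecbf1cad7ed672fd401) b13278 (.nil))) (.nil))))) (.tok (nat_lit 53) (nat_lit 0x2fe38c5fda9ebfa4c97eba1afd1235fa012bfc6b17fdd82ff1a25fdc90c00d498026eb00135600680bfd7617ef932ffe17600fa8bfa18d7f922aff452) (.hit (nat_lit 337) (nat_lit 0) (nat_lit 0x2fd85f5fc422bf7cf17e824afcbc35f8d44bfa6f97f8e32fe9aa5fbd7ebfce757f2eeafe0b95fc86cbfb78d7ef932fdf3e5fde3cbf5ded7ee43afe4f8) b13281 (.one (nat_lit 3) (nat_lit 338) (nat_lit 1) (nat_lit 0x2fce285fc0d2bf65417e2b12fbb7a5f5278bfa4dd7fb902fe6f35fb234bfd2a97fa7cafea835fe130bfa35d7d707afedf65fef86bf380d7f4b1afe9c1) b13282 (.tok (nat_lit 6) (nat_lit 0x2fe38c5fda9ebf78b97eba1afd1235fa012bfc6b17f79c2ff1a25fdc90bfd6057f509afe26a5fcc8ebfd7617ea6e2fe5eb5fd7f2bfa18d7f4bbafed09)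 (.hit (nat_lit 339) (nat_lit 7) (nat_lit 0x2fe38c5fda9ebf78b97eba1afd1235fa012bfc6b17f79c2ff0f25fdc90bfcf917f219afe15d5fcc8ebfd3097ea6e2fe5c25fd3febf0ae97f4bbafed09) b13285 (.hit (nat_lit 340) (nat_lit 15) (nat_lit 0x2fd4f95fb9a0bf64497e887afcaef5f93aabf9ddd7f750aff1a25fbfd6bfd6057f509afe26a5fc904bfd7617e7542fe5eb5fd7f2bfa18d7f383afe8d2) b13286 (.nil))) (.tok (nat_lit 9) (nat_lit 0x2fd4425fba32bfa4c97eb9fafd11f5fa00abfb1097fdd82feaa85fbe64c00d498026eb00135600680bfc9dd7ea6c2ffe17600fa8bf89957f922aff452) (.hit (nat_lit 341) (nat_lit 20) (nat_lit 0x2fd2025f8e6cbfa4c97eb9fafd11f5fa00abf310d7ebfcafd4f35f8e44bf87358026eb00135600680bf5fb97ea6c2ffe17600fa8bf6b7d7f922aff452) b13283 (.hit (nat_lit 342) (nat_lit 28) (nat_lit 0x2fd4425fba32bf6f757e887afcaef5f93aabfb1097fdd82feaa85fbe64c00d497f35eafddf75fc676bfc9dd7e7542fe4195fd608bf89957efefafe960) b13284 (.nil))) (.nil))))) (.tok (nat_lit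 56) (nat_lit 0x2fcdd35f860ebf76dd7e9882fccf05f97acbf58b97ebf02fd8bd5fbfbebf8c297f773afee1c5fe204bf87317f124afe9a95fd66ebfbc297f3b7afe0bf) (.hit (nat_lit 351) (nat_lit 0) (nat_lit 0x2fcdd35f860ebf649d7e9882fccf05f97acbf58b97ebf02fd8bd5fbfbebf8c297f773afee1c5fe204bf87317f124afe9a95fd66ebf8d657f3b7afded2) b13287 (.one (nat_lit 3) (nat_lit 352) (nat_lit 1) (nat_lit 0x2f9e125f268cbec82d7d1a7af9d2f5f382abe614d7d204afa1035f2664beb7757d7a9afa3d85f57fcbeca657d0742fa9bc5f5c74bf07f97e21e2fbc6d) b13288 (.tok (nat_lit 6) (nat_lit 0x2fc0605f6b28bf76dd7e2ceafbf7d5f7cc6beea857e32bafc3515f6b00bf40ad7ec342fcced5faa26bf6eb97e19b2fd2d15fae9ebf840d7f1e6afde9c) (.hit (nat_lit 353) (nat_lit 7) (nat_lit 0x2fc0605f6b28bf76dd7e2ceafbf7d5f7cc6beea857e32bafc3515f6b00bf40ad7ec342fcced5faa26bf6eb97e19b2fd2d15fae9ebf840d7f1e6afde9c) b13291 (.hit (nat_lit 354) (nat_lit 15) (nat_lit 0x2fa5f05f3648bf16797d596afa50d5f47e6be80c57d5f3afa8e15f3620bed6ed7e0292fb4d75f79fabf0e617d4632fbabb5f7e72bf4d457ea362fcf48)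 b13292 (.nil))) (.tok (nat_lit 9) (nat_lit 0x2fcc5b5f831ebf733d7e8cc2fcb785f94bcbf1a717e9292fcf4c5f82f6bf70997ed3dafcf005fae4cbf77057e798afd4e45fb2c4bfbc297f1f92fe0bf) (.hit (nat_lit 355) (nat_lit 20) (nat_lit 0x2fc13d5f6ce2bf733d7e33d2fc05a5f7e80beedf97e39a2fc42e5f6cbabf44217e8acafc5de5f9c08bf527d7e209afcbc25fa080bfbc297f1f92fe0bf) b13289 (.hit (nat_lit 356) (nat_lit 28) (nat_lit 0x2fcc5b5f831ebf51fd7e8cc2fcb785f94bcbf1a717e9292fcf4c5f82f6bf70997ed3dafcf005fae4cbf77057e798afd4e45fb2c4bf743d7efac2fd7af) b13290 (.nil))) (.nil))))) (.tok (nat_lit 59) (nat_lit 0x2fd6235f976abf769d7edb02fd5405fa84cbf78d17f023afdd985fb678bfc2f57f4552fe59a5fd7b4bf9d357f0222ff5995ffaeabf91797faccafe960) (.hit (nat_lit 365) (nat_lit 0) (nat_lit 0x2fd0935f976abf769d7e332afc0455f8dfabf78d17f023afdd985fb678bfc2f57efeeafdd925fc43cbf9d357f0222febd75fe204bf6dc57f736afdf96) b13293 (.one (nat_lit 3) (nat_lit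 366) (nat_lit 1) (nat_lit 0x2faaff5f4066bed2b17d81e2faa1c5f5204be95017d87b2fadf05f403ebeeb297e5eb2fc9b55f9c80bf19b57d6eaafd3a95fb004bf09fd7eaff2fcf31) b13294 (.tok (nat_lit 6) (nat_lit 0x2fccc65f83f4bf51957e901afcbe35f9592bf1c1d7e95eafcfb75f83ccbf72457f4552fe3485fd25cbf9c597e7ce2ff5995ffaeabf91797f9c0afe6d1) (.hit (nat_lit 367) (nat_lit 7) (nat_lit 0x2fcbeb5f823ebf4f997e8942fcb085f93dcbf18b17e8f12fcedc5f8216bf6ed97f4552fe3485fd25cbf9c597e760aff5995ffaeabf91797f9c0afe6d1) b13297 (.hit (nat_lit 368) (nat_lit 15) (nat_lit 0x2fccc65f83f4bf51957e901afcbe35f9592bf1c1d7e95eafcfb75f83ccbf72457edde2fd9165fbb6abf8f257e7ce2fe1b05fccc4bf76897f2c02fdeaf) b13298 (.nil))) (.tok (nat_lit 9) (nat_lit 0x2fd6235f96aebf73d17edb02fd5405fa84cbf41917ee0d2fd9145f9686bf97b97f3daafe59a5fd7b4bf703d7ec7cafee7e5fe8eebf8abd7faccafe960) (.hit (nat_lit 369) (nat_lit 20) (nat_lit 0x2fd6235f96aebf73d17edb02fd5405fa84cbf41917ee0d2fd9145f9686bf97b97f3daafe59a5fd7b4bf703d7ec7cafee7e5fe8eebf8abd7faccafe960)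 b13295 (.hit (nat_lit 370) (nat_lit 28) (nat_lit 0x2fb80c5f5a80bf1e857dea4afb7295f6c1ebec9357df01afbafd5f5a58bf1f5d7ee602fda8b5fbebcbf66517dd712fe3495fd20cbf5cdd7f38c2fdef4) b13296 (.nil))) (.nil))))) (.tok (nat_lit 62) (nat_lit 0x2fd4045f9270bf5ed57eca0afd3215fa40ebf7a117f02c2fdda45fb2eabf993d7f8a1afef065fe6f2bfbcf97f14aaff7b25ffa74bfaeb97fdf7aff0d2) (.hit (nat_lit 371) (nat_lit 0) (nat_lit 0x2fcac05f792cbf5ed57e2172fbc085f94e2bf7a117f02c2fdda45fb2eabf993d7f8a1afef065fe6f2bfbcf97f14aaff7b25ffa74bfaeb97fdf7aff0d2) b13230 (.one (nat_lit 3) (nat_lit 372) (nat_lit 1) (nat_lit 0x2fa0bb5f2bdebec1a17d2fc2f9fd85f3d7cbe6bf17d3592fa3ac5f2bb6bec2197d7982fa3b55f57b6bec9d97d1c8afa9995f5c2ebef3297df0e2fb7a2) b13231 (.tok (nat_lit 6) (nat_lit 0x2fc21c5f6ea0bf2dd97e3acafc1395f803ebef1757e409afc50d5f6e78bf479d7e9562fc7315f9eaebf57c97e2792fcd155fa326bf738d7ef1bafd7bd) (.hit (nat_lit 373) (nat_lit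 7) (nat_lit 0x2fc21c5f6ea0bf2dd97e3acafc1395f803ebef1757e409afc50d5f6e78bf479d7e9562fc7315f9eaebf57c97e2792fcd155fa326bf738d7ef1bafd7bd) b13234 (.hit (nat_lit 374) (nat_lit 15) (nat_lit 0x2fa8415f3aeabee1ad7d6bf2fa75e5f4c88be8a097d71c2fab325f3ac2bee0317e3f92fbc775f893abf2ce17d58bafc25b5f8db2bf2db97e6602fc646) b13235 (.nil))) (.tok (nat_lit 9) (nat_lit 0x2fd4045f9270bf582d7eca0afd3215fa40ebf39157ecfdafd6f55f9248bf8f3d7e8392fc8be5f9b42bf67c17eb6d2fcadb5f9eb2bf94957f373afd990) (.hit (nat_lit 375) (nat_lit 20) (nat_lit 0x2fd4045f9270bf582d7eca0afd3215fa40ebf39157ecfdafd6f55f9248bf8f3d7e8392fc8be5f9b42bf67c17eb6d2fcadb5f9eb2bf94957f373afd990) b13232 (.hit (nat_lit 376) (nat_lit 28) (nat_lit 0x2fa8415f3aeabedca17d6bf2fa75e5f4c88be8a097d71c2fab325f3ac2bee0317d76dafa3605f570cbec8857d58bafa9445f5b84bf1cb57e440afc207) b13233 (.nil))) (.nil))))) (.tok (nat_lit 64) (nat_lit 0x2ffa36600ae0c042597ff0e2ffeb05fe51ebfe8dd7fdf7aff5935fe1a0c00409803fd30056b601434c04f497f93faffa975ff728c01eb97ff793012ad)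 (.hit (nat_lit 377) (nat_lit 0) (nat_lit 0x2ffa365ff796c0329d7ff0e2ffeb05fe51ebfe8dd7fdf7aff5935fe1a0c00409803fd30056b601434c04f497f93faffa975ff728c01eb97ff79300ceb) b13236 (.tok (nat_lit 6) (nat_lit 0x2ff2f060052cc042597fe8a2ffda85fe30ebfa3857fc242ff1775fc782bfc9cd7fb54afefa55fe618bfe3857f8bbaff2965fdbb2bfc5f57f4cdaff5dc) (.hit (nat_lit 378) (nat_lit 7) (nat_lit 0x2feae95fc03ac042597fe8a2ffda85fe30ebfa3857fc242ff1775fc782bfc9cd7f8022fe9005fd8cebfbffd7f8bbafebf15fd3c6bfc21d7f4cdafed5c) b13239 (.hit (nat_lit 379) (nat_lit 15) (nat_lit 0x2ff2f060052cc01e757faa8aff5e55fd388bf9d797f842afeb4e5fb7fcbfaac17fb54afefa55fe618bfe3857f4da2ff2965fdbb2bfc5f57f36eaff5dc) b13240 (.nil))) (.tok (nat_lit 9) (nat_lit 0x2ff919600ae0bffe957fd99affbfc5fdf4cbfb7817fb33aff1cb5fc3c0bff3ed7f412afe2a95fcebec04e1d7f7cb2fe4125fd004bfd4e17f47db012ad) (.hit (nat_lit 380) (nat_lit 20) (nat_lit 0x2ff919600ae0bffe957fd99affbfc5fdf4cbfb7817fb33aff1cb5fc3c0bff3ed7f412afe2a95fcebec04e1d7f7cb2fe4125fd004bfd4e17f47db012ad)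 b13237 (.hit (nat_lit 381) (nat_lit 28) (nat_lit 0x2fed795fed4abfcbbd7f8a7aff1e35fcb84bf8b257f641afe6b95faff8bfb04d7f2b12fde5e5fc38abffd497f2d92fe14f5fbc3cbfaddd7efc6aff7bc) b13238 (.nil))) (.nil)))) (.tok (nat_lit 65) (nat_lit 0x2fe38c5fda9ebfa4c97eba1afd4005fa012bfc82d7fa2eaff1bf5fe11cbfc06d7f376afe5735fd450c005657ef13afe99f5fdcfcbfe3857f706aff84c) (.hit (nat_lit 382) (nat_lit 0) (nat_lit 0x2fd85f5fc422bf7cf17e6c52fceb65f8ca0bfc82d7fa2eaff1bf5fe11cbfc06d7f376afe5735fd450bfeb557ef13afe99f5fdcfcbfe3857f706aff070) b13241 (.one (nat_lit 3) (nat_lit 383) (nat_lit 1) (nat_lit 0x2fce285fc0d2bf65417e0952fbc845f5278bfa1c17f513afe7715fc89ebfa1597d75eafa3425f56d0bfd0ed7d707afa9265f5b48bf3e957e87cafeb2e) b13242 (.tok (nat_lit 6) (nat_lit 0x2fd4425fba32bfa4c97eb9fafd11f5fa00abfba297f81fafed8b5fd4d2bfb9c17e92aafc6da5f9e00c005657ea6c2fccbe5fa278bf8ac17f2022ff84c) (.hit (nat_lit 384) (nat_lit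 7) (nat_lit 0x2fd2025f8e6cbfa4c97eb9fafd11f5fa00abf310d7ebfcafd4f35f8e44bf87357e5142fc6bc5f973ebf5fb97ea6c2fc8675f9a4abf8ac17f2022fdd8a) b13245 (.hit (nat_lit 385) (nat_lit 15) (nat_lit 0x2fd4425fba32bf6f757e887afcaef5f93aabfba297f81fafed8b5fd4d2bfb9c17e92aafc6da5f9e00c005657e7542fccbe5fa278bf87517f1942ff84c) b13246 (.nil))) (.tok (nat_lit 9) (nat_lit 0x2fe38c5fda9ebf78b97eba1afd4005fa012bfc6d97f8702ff0cb5fdc08bfbc8d7efbc2fd3fd5fb846bff8697ea6e2fd9e15fbcbebf95457f350aff44e) (.hit (nat_lit 386) (nat_lit 20) (nat_lit 0x2fe38c5fda9ebf78b97eba1afd4005fa012bfc6d97f7c6aff0cb5fdc08bfb9117e518afc6c05f9746bff8697ea6e2fc86b5f9a52bf87857f10a2ff35d) b13243 (.hit (nat_lit 387) (nat_lit 28) (nat_lit 0x2fd4f95fb9a0bf64497e887afcaef5f93aabfbce17f8702fee3a5fd640bfbc8d7efbc2fd3fd5fb846bff5717e7542fd9e15fbcbebf95457f350aff44e) b13244 (.nil))) (.nil))))) (.tok (nat_lit 67) (nat_lit 0x2ff9725fdd4cc02ec9805ceb00c31600020bfdda980368b000005fe494c003f1805f9b004ef6010acc010f1800003007e0600646c00dad8012f300177)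 (.hit (nat_lit 388) (nat_lit 0) (nat_lit 0x2ff9535fd5a6bfeca97fe6eaffd715ff05cbfa2a97fc08aff46d5fc714bfc8f18018a2ffd96600472bfdab17f8a02ff7c75fe614bfd5257f7ebaff15e) b13247 (.tok (nat_lit 3) (nat_lit 0x2fed075fc476c0080d7ff992fffc65fe74abfabfd7fd332ff3955fcbbebfd2458022d2ffd5660017abff28d7f9cab000475ff714c000557fde6aff9de) (.hit (nat_lit 389) (nat_lit 1) (nat_lit 0x2fd2e45f9030bfa3017f287afe5a35fb304bf43717f021afd9725f9778bf69b97edd52fd4a65fb01abf5fe97ecb92fd7975fa5b4bf95c57ef7bafd443) b13248 (.one (nat_lit 55) (nat_lit 390) (nat_lit 3) (nat_lit 0x2fed075fc476c0080d7ff992fffc65fe74abfabfd7fd332ff3955fcbbebfd2458022d2ffd5660017abff28d7f9cab000475ff714c000557fde6aff9de) b13249 (.nil))) (.tok (nat_lit 9) (nat_lit 0x2ff9725fdd4cc02ec9805ceb00c31600020bfdda980368b000005fe494c003f1805f9b004ef6010acc010f1800003007e0600646c00dad8012f300177) (.hit (nat_lit 391) (nat_lit 20) (nat_lit 0x2fdc1a5fa29cbfb02d7f722afeed95fc570bf68497f4bcafe2a85fa9e4bf8e917f461afe1bf5fca4cbf84c17f1542fe4b05fbfe6bfab657f2e2afde47)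 b13250 (.hit (nat_lit 394) (nat_lit 28) (nat_lit 0x2fcca65f83b4bf9ae17ef68afdf655fa688bf2a797ed02afd3345f8afcbf50c17f4902fe21c5fcb06bf85a57e99a2fe50d5fc0a0bf8cbd7eebd2fdea4) b13253 (.tok (nat_lit 67) (nat_lit 0x2ff9725fdd4cc02ec9805ceb00c31600020bfdda980368b000005fe494c003f1805f9b004ef6010acc010f1800003007e0600646c00dad8012f300177) (.hit (nat_lit 392) (nat_lit 21) (nat_lit 0x2ff1cf5fce06c02151801fd30048e5ff0dabfbf1d7ff972ff85d5fd54ebfe565804e1b002bf600c4cc008317fc2eb005b06001e6c001e97ffaeafff47) b13251 (.hit (nat_lit 395) (nat_lit 29) (nat_lit 0x2fe6be5fb7e4bff9a57fc74aff97d5fdab8bf92d97fa0eafed4c5fbf2cbfb92180354afffa5600618bffbc97f6a63002965ffbb2c000917fc372ffc2d) b13254 (.one (nat_lit 9) (nat_lit 393) (nat_lit 22) (nat_lit 0x2ff9725fdd4cc02ec9805ceb00c31600020bfdda980368b000005fe494c003f1805f9b004ef6010acc010f1800003007e0600646c00dad8012f300177) b13252 (.nil)))) (.nil))))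 (.nil)))) (.tok (nat_lit 68) (nat_lit 0x2fcdd35f860ebf76dd7e9882fccf05f97acbf61317ed01afd74d5fb38ebf77397f7edafedb95fe402bf7df17f0f0afee225fe2e6bfa1857f8542fea2e) (.hit (nat_lit 396) (nat_lit 0) (nat_lit 0x2fcdd35f860ebf649d7e9882fccf05f97acbf61317ed01afd74d5fb38ebf77397f7edafedb95fe402bf7df17f0f0afee225fe2e6bf97f57f8542fea2e) b13255 (.one (nat_lit 3) (nat_lit 397) (nat_lit 1) (nat_lit 0x2f9e125f268cbec82d7d1a7af9d2f5f382abe614d7d204afa1035f2664beb7757d7a9afa3d85f57fcbeca657d0742fa9bc5f5c74bf22a97e4ff2fc384) b13256 (.tok (nat_lit 6) (nat_lit 0x2fcc5b5f831ebf733d7e8cc2fcb785f94bcbf1a717e9292fcf4c5f82f6bf70997ed3dafcf005fae4cbf77057e798afd4e45fb2c4bfa1857f4d9afe33b) (.hit (nat_lit 398) (nat_lit 7) (nat_lit 0x2fc13d5f6ce2bf733d7e33d2fc05a5f7e80beedf97e39a2fc42e5f6cbabf44217e8acafc5de5f9c08bf527d7e209afcbc25fa080bfa1857f4d9afe33b) b13259 (.hit (nat_lit 399) (nat_lit 15) (nat_lit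 0x2fcc5b5f831ebf51fd7e8cc2fcb785f94bcbf1a717e9292fcf4c5f82f6bf70997ed3dafcf005fae4cbf77057e798afd4e45fb2c4bf8fb17f2a02fdec6) b13260 (.nil))) (.tok (nat_lit 9) (nat_lit 0x2fc0605f6b28bf76dd7e2ceafbf7d5f7cc6beea857e32bafc3515f6b00bf40ad7ec342fcced5faa26bf6eb97e19b2fd2d15fae9ebfa0557f4b4afe2ef) (.hit (nat_lit 400) (nat_lit 20) (nat_lit 0x2fc0605f6b28bf76dd7e2ceafbf7d5f7cc6beea857e32bafc3515f6b00bf40ad7ec342fcced5faa26bf6eb97e19b2fd2d15fae9ebfa0557f4b4afe2ef) b13257 (.hit (nat_lit 401) (nat_lit 28) (nat_lit 0x2fa5f05f3648bf16797d596afa50d5f47e6be80c57d5f3afa8e15f3620bed6ed7e0292fb4d75f79fabf0e617d4632fbabb5f7e72bf6ead7ee7fafd685) b13258 (.nil))) (.nil))))) (.tok (nat_lit 70) (nat_lit 0x2ff8455fdaf2c01e5980538300b045ffdc6bfd8f5802d22ffed35fe23abfff3d7fe592ff5ae5ff22ac023297ff69aff89f5fee7ec06105809d1afff28) (.hit (nat_lit 402) (nat_lit 0) (nat_lit 0x2feb9c5fb846bfd2c17f795afefbf5fd234bf9f517f67baff3a25fb7e4bfcbcd7fd0faff33b5ff060bfc83d7f1ccafed885fd9c8bfbda97f41f2fedce)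 b13261 (.tok (nat_lit 3) (nat_lit 0x2fedd05fc608bfd46d7fffdb0008f5fe8dcbfaf217fd97aff45e5fcd50bfd5697fe592ff5ae5ff22ac023297fa2f2ff89f5fe7c4c01bbd7fef92ff3fa) (.hit (nat_lit 403) (nat_lit 1) (nat_lit 0x2fd6d05f9808bfb8e17f47dafe98f5fbadcbf53217f217afdd5e5f9f50bf79697ee962fd6285fb31ebfbbdd7eeaf2fd9195fab94bfc2417f4a1afdb17) b13262 (.one (nat_lit 67) (nat_lit 404) (nat_lit 2) (nat_lit 0x2fedd05fc608bfd46d7fffdb0008f5fe8dcbfaf217fd97aff45e5fcd50bfd5697fe592ff5ae5ff22ac023297fa2f2ff89f5fe7c4c01bbd7fef92ff3fa) b13263 (.nil))) (.tok (nat_lit 6) (nat_lit 0x2ff8455fdaf2c01e5980538300b045ffdc6bfd8f5802d22ffed35fe23abfff3d7fbdfaff1e65fed38c010417ff69aff3ac5fee7ec06105809d1afff28) (.hit (nat_lit 405) (nat_lit 7) (nat_lit 0x2fd8d55f9c12bfa9c17f5802feb945fbee6bf5b357f31a2fdf635fa35abf817d7ed632fd3c25fae58bf77ad7efb1afd6b35faf9ebfc0b57f5d52fd6fc) b13264 (.hit (nat_lit 408) (nat_lit 15) (nat_lit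 0x2fd6455f96f2bfb4417f4382fe9045fb9c6bf50f57f1d22fdcd35f9e3abf773d7eb8e2fd0185fa938bfabf17ee69afd3095faa7ebfb5d57f2ba2fdb0c) b13267 (.tok (nat_lit 55) (nat_lit 0x2ff8455fdaf2c01e5980538300b045ffdc6bfd8f5802d22ffed35fe23abfff3d7fbdfaff1e65fed38c010417ff69aff3ac5fee7ec06105809d1afff28) (.hit (nat_lit 406) (nat_lit 8) (nat_lit 0x2fe7ce5fba04bfd9e57fcfcaffa8d5fdcd8bf97197fa96afee5c5fc14cbfbd617f7d32fe8a25fd812bfb3917f72e2feb935fcdacc00c257fee82febc4) b13265 (.hit (nat_lit 409) (nat_lit 16) (nat_lit 0x2fee3a5fc6dcc00fc980032b000f95fe9b0bfb0c97fdccaff4c85fce24bfd7117f983afec035fded4c010417fa642feef45fda68bff7c57faf12fef58) b13268 (.one (nat_lit 6) (nat_lit 407) (nat_lit 9) (nat_lit 0x2ff8455fdaf2c01e5980538300b045ffdc6bfd8f5802d22ffed35fe23abfff3d7fbdfaff1e65fed38bff56d7ff69aff3ac5fee7ec06105809d1afff28) b13266 (.nil)))) (.nil)))) (.nil)))) (.tok (nat_lit 71) (nat_lit 0x2fd6235f976abf769d7edb02fd5405fa84cbfad717f6842fea5d5fcd74bfbb717f729afebaa5fe0a8bfd2597f082afed0d5fe43abfc9e17f8f4afeb89)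 (.hit (nat_lit 410) (nat_lit 0) (nat_lit 0x2fd0935f976abf769d7e332afc0455f8df6bfad717f6842fea5d5fcd74bfbb717f729afebaa5fe0a8bfd2597f082afed0d5fe43abfc9e17f8f4afeb89) b13269 (.one (nat_lit 3) (nat_lit 411) (nat_lit 1) (nat_lit 0x2faaff5f4066bed2b17d81e2faa1c5f5204be95017d87b2fadf05f403ebeeb297d7a92fa3d75f57fabf2fe97d6eaafa9bb5f5c72bf26397e5712fc468) b13270 (.tok (nat_lit 6) (nat_lit 0x2fd6235f96aebf73d17edb02fd5405fa84cbf41917ee0d2fd9145f9686bf97b97e711afcadd5f9f80bf7c897ec7cafcc885fa28cbfb4357f55c2fe243) (.hit (nat_lit 412) (nat_lit 7) (nat_lit 0x2fd6235f96aebf73d17edb02fd5405fa84cbf41917ee0d2fd9145f9686bf97b97e711afcadd5f9f80bf703d7ec7cafcc885fa28cbfb4357f55c2fe243) b13273 (.hit (nat_lit 413) (nat_lit 15) (nat_lit 0x2fb80c5f5a80bf1e857dea4afb7295f6c1ebec9357df01afbafd5f5a58bf1f5d7dba72facc65f67f2bf7c897dd712fb1b75f6c6abf79057efcaafd91b) b13274 (.nil))) (.tok (nat_lit 9) (nat_lit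 0x2fccc65f83f4bf51957e901afcbe35f9592bf1c1d7e95eafcfb75f83ccbf72457edde2fd0415fb0cebfbdad7e7ce2fd6255fb546bfa6557f5722fe46a) (.hit (nat_lit 414) (nat_lit 20) (nat_lit 0x2fcbeb5f823ebf4f997e8942fcb085f93dcbf18b17e8f12fcedc5f8216bf6ed97e6a1afc1c85f93dcbfbdad7e760afc7ac5f9854bfa6557f5722fe46a) b13271 (.hit (nat_lit 415) (nat_lit 28) (nat_lit 0x2fccc65f83f4bf51957e901afcbe35f9592bf1c1d7e95eafcfb75f83ccbf72457edde2fd0415fb0cebfa6b57e7ce2fd6255fb546bf92c17f3022fe0a0) b13272 (.nil))) (.nil))))) (.nil))))))))))))))))))))))))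
noncomputable def r20_1 : Rw Blk := .tok (nat_lit 14) (nat_lit 0x1780002f00005f8e7abf62157efd82fd85a5fbdecbf7be17edd3afd863) (.hit (nat_lit 140) (nat_lit 0) (nat_lit 0x1780002f00005f8e7abf62157efd82fd85a5fbdecbf7be17edd3afd863) b13310 (.one (nat_lit 3) (nat_lit 141) (nat_lit 1) (nat_lit 0x1780002f00005f3a64becb997dd08afb2bb5f72aebee5657db042fb2c4) b13311 (.tok (nat_lit 6) (nat_lit 0x1780002f00005f7aa2bf4c157ed182fd2da5fb2ecbf65e17eb13afd2e3) (.hit (nat_lit 142) (nat_lit 7) (nat_lit 0x1780002f00005f7764bf45997ec48afd13b5fafaebf5f657ea442fd144) b13312 (.hit (nat_lit 143) (nat_lit 15) (nat_lit 0x1780002f00005f7aa2bf4c157ed182fd2da5fb2ecbf65e17eb13afd2e3) b13314 (.nil))) (.tok (nat_lit 9) (nat_lit 0x1780002f00005f826abf5ba57ef0a2fd6be5fbab4bf75717ed05afd6c7) (.hit (nat_lit 144) (nat_lit 20) (nat_lit 0x1780002f00005f7764bf45997ec48afd13b5fafaebf5f657ea442fd144) b13312 (.hit (nat_lit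 145) (nat_lit 28) (nat_lit 0x1780002f00005f826abf5ba57ef0a2fd6be5fbab4bf75717ed05afd6c7) b13313 (.nil))) (.nil))))) (.tok (nat_lit 17) (nat_lit 0x1780002f00005f8f20bf4fe97ed92afd3cf5fc53abf80e17ed812fd4f5) (.hit (nat_lit 134) (nat_lit 0) (nat_lit 0x1780002f00005f8f20bf37817ea4b2fd0f95fc53abf80e17ed812fd4f5) b13315 (.one (nat_lit 3) (nat_lit 135) (nat_lit 1) (nat_lit 0x1780002f00005f304abeb7657da822fadae5f6894bed1317d87dafadb7) b13316 (.tok (nat_lit 6) (nat_lit 0x1780002f00005f768cbf43e97ec12afd0cf5faed6bf5db57ea0e2fd0d8) (.hit (nat_lit 136) (nat_lit 7) (nat_lit 0x1780002f00005f669ebf240d7e8172fc8d85f9ee8bf3dd97e612afc8e1) b13319 (.hit (nat_lit 137) (nat_lit 15) (nat_lit 0x1780002f00005f768cbf43e97ec12afd0cf5faed6bf5db57ea0e2fd0d8) b13320 (.nil))) (.tok (nat_lit 9) (nat_lit 0x1780002f00005f7c8cbf4fe97ed92afd3cf5fb4d6bf69b57eb8e2fd3d8) (.hit (nat_lit 138) (nat_lit 20) (nat_lit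 0x1780002f00005f6c8abf2fe57e9922fcbce5fa4d4bf49b17e78dafcbd7) b13317 (.hit (nat_lit 139) (nat_lit 28) (nat_lit 0x1780002f00005f7c8cbf4fe97ed92afd3cf5fb4d6bf69b57eb8e2fd3d8) b13318 (.nil))) (.nil))))) (.tok (nat_lit 20) (nat_lit 0x1780002f00005f9004bf57f17ee93afd5d15fb8dabf71bd7ec8f2fd5da) (.hit (nat_lit 122) (nat_lit 0) (nat_lit 0x1780002f00005f9004bf4c017ed15afd2d55fb2e2bf65cd7eb112fd2de) b13299 (.one (nat_lit 3) (nat_lit 123) (nat_lit 1) (nat_lit 0x1780002f00005f4156bed97d7dec52fb6345f79a0bef3497dcc0afb63d) b13300 (.tok (nat_lit 6) (nat_lit 0x1780002f00005f7c60bf4f917ed87afd3b95fb4aabf695d7eb832fd3c2) (.hit (nat_lit 124) (nat_lit 7) (nat_lit 0x1780002f00005f6ea2bf34157ea182fccda5fa6ecbf4de17e813afcce3) b13303 (.hit (nat_lit 125) (nat_lit 15) (nat_lit 0x1780002f00005f7c60bf4f917ed87afd3b95fb4aabf695d7eb832fd3c2) b13304 (.nil))) (.tok (nat_lit 9) (nat_lit 0x1780002f00005f8090bf57f17ee93afd5d15fb8dabf71bd7ec8f2fd5da)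 (.hit (nat_lit 126) (nat_lit 20) (nat_lit 0x1780002f00005f703cbf37497ea7eafcda75fa886bf51157e87a2fcdb0) b13301 (.hit (nat_lit 127) (nat_lit 28) (nat_lit 0x1780002f00005f8090bf57f17ee93afd5d15fb8dabf71bd7ec8f2fd5da) b13302 (.nil))) (.nil))))) (.tok (nat_lit 23) (nat_lit 0x1780002f00005fc67cbfb42d7f50b2feb335fe1f2bfc98d7f603afe668) (.hit (nat_lit 128) (nat_lit 0) (nat_lit 0x1780002f00005fc67cbfb42d7f50b2feb335fe1f2bfc98d7f603afe668) b13305 (.one (nat_lit 3) (nat_lit 129) (nat_lit 1) (nat_lit 0x1780002f00005fab6cbf55417ebec2fd9e35fc022bf7c8d7ed91afd6d0) b13306 (.tok (nat_lit 6) (nat_lit 0x1780002f00005fae20bf79017f2b5afe28f5fd526bfa38d7f1392fde1e) (.hit (nat_lit 130) (nat_lit 7) (nat_lit 0x1780002f00005fae20bf76b57f0372fe28f5fd526bfa38d7f1392fdda4) b13308 (.hit (nat_lit 131) (nat_lit 15) (nat_lit 0x1780002f00005fa2c2bf79017f2b5afdeab5fcaa4bf92cd7f0b12fde1e) b13309 (.nil))) (.tok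 (nat_lit 9) (nat_lit 0x1780002f00005fa6ecbf7a7d7f2e52fde745fca20bf94497f0e0afde7d) (.hit (nat_lit 132) (nat_lit 20) (nat_lit 0x1780002f00005f703cbf37497ea7eafcda75fa886bf51157e87a2fcdb0) b13301 (.hit (nat_lit 133) (nat_lit 28) (nat_lit 0x1780002f00005fa6ecbf7a7d7f2e52fde745fca20bf94497f0e0afde7d) b13307 (.nil))) (.nil))))) (.tok (nat_lit 26) (nat_lit 0x1780002f00005fc862bfa4d17f4a3afeb2a5fe638bfb3697f33a2fe2d8) (.hit (nat_lit 260) (nat_lit 0) (nat_lit 0x1780002f00005fc862bfa4d17f4a3afeb2a5fe638bfb3697f33a2fe2d8) b13365 (.one (nat_lit 3) (nat_lit 261) (nat_lit 1) (nat_lit 0x1780002f00005f336ebebdad7db4b2faf405f6bb8bed7797d946afaf49) b13366 (.tok (nat_lit 6) (nat_lit 0x1780002f00005f5724bf05197e438afc11b5f8f6ebf1ee57e2342fc124) (.hit (nat_lit 262) (nat_lit 7) (nat_lit 0x1780002f00005f5636bf033d7e3fd2fc0a45f8e80bf1d097e1f8afc0ad) b13369 (.hit (nat_lit 263) (nat_lit 15) (nat_lit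 0x1780002f00005f5724bf05197e438afc11b5f8f6ebf1ee57e2342fc124) b13370 (.nil))) (.tok (nat_lit 9) (nat_lit 0x1780002f00005f8eb2bf74357f21c2fdce25fc6fcbf8e017f017afdceb) (.hit (nat_lit 264) (nat_lit 20) (nat_lit 0x1780002f00005f8eb2bf74357f21c2fdce25fc6fcbf8e017f017afdceb) b13367 (.hit (nat_lit 265) (nat_lit 28) (nat_lit 0x1780002f00005f3022beb7157da782fad9a5f686cbed0e17d873afada3) b13368 (.nil))) (.nil))))) (.tok (nat_lit 29) (nat_lit 0x1780002f00005f9328bf5f8d7edc2afdd835fb596bf6b357ebbe2fd534) (.hit (nat_lit 266) (nat_lit 0) (nat_lit 0x1780002f00005f9328bf5f8d7edab2fdd835fab8abf4eb57e7beafd534) b13371 (.one (nat_lit 3) (nat_lit 267) (nat_lit 1) (nat_lit 0x1780002f00005f3832bec7357dc7c2fb1a25f707cbee1017da77afb1ab) b13372 (.tok (nat_lit 6) (nat_lit 0x1780002f00005f7d4cbf51697edc2afd42f5fb596bf6b357ebbe2fd438) (.hit (nat_lit 268) (nat_lit 7) (nat_lit 0x1780002f00005f77eebf46ad7ec6b2fd1805fb038bf60797ea66afd189)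 b13375 (.hit (nat_lit 269) (nat_lit 15) (nat_lit 0x1780002f00005f7d4cbf51697edc2afd42f5fb596bf6b357ebbe2fd438) b13376 (.nil))) (.tok (nat_lit 9) (nat_lit 0x1780002f00005f70babf38457ea9e2fcde65fa904bf52117e899afcdef) (.hit (nat_lit 270) (nat_lit 20) (nat_lit 0x1780002f00005f5184bef9d97e2d0afbe4b5f89cebf13a57e0cc2fbe54) b13373 (.hit (nat_lit 271) (nat_lit 28) (nat_lit 0x1780002f00005f70babf38457ea9e2fcde65fa904bf52117e899afcdef) b13374 (.nil))) (.nil))))) (.tok (nat_lit 32) (nat_lit 0x1780002f00005fcd4ebfbd9d7fb02aff27f5fd4e4bfa8417f1592fe1fd) (.hit (nat_lit 272) (nat_lit 0) (nat_lit 0x1780002f00005fcd4ebfbd9d7fb02aff27f5fd4e4bfa8417f1592fe1fd) b13377 (.one (nat_lit 3) (nat_lit 273) (nat_lit 1) (nat_lit 0x1780002f00005f5384befdd97e350afbf4b5f8bcebf17a57e14c2fbf54) b13378 (.tok (nat_lit 6) (nat_lit 0x1780002f00005f829abf5c057ef162fd6d65fbae4bf75d17ed11afd6df) (.hit (nat_lit 274)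 (nat_lit 7) (nat_lit 0x1780002f00005f829abf5c057ef162fd6d65fbae4bf75d17ed11afd6df) b13381 (.hit (nat_lit 275) (nat_lit 15) (nat_lit 0x1780002f00005f7ae8bf4ca17ed29afd2fd5fb332bf666d7eb252fd306) b13382 (.nil))) (.tok (nat_lit 9) (nat_lit 0x1780002f00005f7ea0bf54117ee17afd4d95fb6eabf6ddd7ec132fd4e2) (.hit (nat_lit 276) (nat_lit 20) (nat_lit 0x1780002f00005f77aabf46257ec5a2fd15e5faff4bf5ff17ea55afd167) b13379 (.hit (nat_lit 277) (nat_lit 28) (nat_lit 0x1780002f00005f7ea0bf54117ee17afd4d95fb6eabf6ddd7ec132fd4e2) b13380 (.nil))) (.nil))))) (.tok (nat_lit 35) (nat_lit 0x1780002f00005fad8abf8dad7f2e8afe7105fbc40bf76717ed25afdeb2) (.hit (nat_lit 278) (nat_lit 0) (nat_lit 0x1780002f00005fad8abf8dad7f2e8afe7105fbc40bf76717ed25afdeb2) b13383 (.one (nat_lit 3) (nat_lit 279) (nat_lit 1) (nat_lit 0x1780002f00005f4156bed97d7dec52fb6345f79a0bef3497dcc0afb63d) b13300 (.tok (nat_lit 6) (nat_lit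 0x1780002f00005f5148bef9617e2c1afbe2d5f8992bf132d7e0bd2fbe36) (.hit (nat_lit 280) (nat_lit 7) (nat_lit 0x1780002f00005f5148bef9617e2c1afbe2d5f8992bf132d7e0bd2fbe36) b13385 (.hit (nat_lit 281) (nat_lit 15) (nat_lit 0x1780002f00005f2d06beb0dd7d9b12fac0c5f6550becaa97d7acafac15) b13386 (.nil))) (.tok (nat_lit 9) (nat_lit 0x1780002f00005f6fbcbf36497ea5eafcd675fa806bf50157e85a2fcd70) (.hit (nat_lit 282) (nat_lit 20) (nat_lit 0x1780002f00005f6ad2bf2c757e9242fcaf25fa31cbf46417e71fafcafb) b13323 (.hit (nat_lit 283) (nat_lit 28) (nat_lit 0x1780002f00005f6fbcbf36497ea5eafcd675fa806bf50157e85a2fcd70) b13384 (.nil))) (.nil))))) (.tok (nat_lit 38) (nat_lit 0x1780002f00005fb760bfb69d7f6a02fef3d5ffe82bfed4d7fa19afe916) (.hit (nat_lit 215) (nat_lit 0) (nat_lit 0x1780002f00005fb760bfb69d7f6a02fef3d5ffe82bfed4d7fa19afe916) b13387 (.one (nat_lit 3) (nat_lit 216) (nat_lit 1) (nat_lit 0x1780002f00005f4a5abeeb857e1062fbab65f82a4bf05517df01afbabf)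 b13388 (.tok (nat_lit 6) (nat_lit 0x1780002f00005f749ebf400d7eb972fcfd85face8bf59d97e992afcfe1) (.hit (nat_lit 217) (nat_lit 7) (nat_lit 0x1780002f00005f749ebf400d7eb972fcfd85face8bf59d97e992afcfe1) b13390 (.hit (nat_lit 218) (nat_lit 15) (nat_lit 0x1780002f00005f524ebefb6d7e3032fbeb05f8a98bf15397e0feafbeb9) b13391 (.nil))) (.tok (nat_lit 9) (nat_lit 0x1780002f00005f5184bef9d97e2d0afbe4b5f89cebf13a57e0cc2fbe54) (.hit (nat_lit 219) (nat_lit 20) (nat_lit 0x1780002f00005f5184bef9d97e2d0afbe4b5f89cebf13a57e0cc2fbe54) b13373 (.hit (nat_lit 220) (nat_lit 28) (nat_lit 0x1780002f00005f452ebee12d7dfbb2fb8205f7d78befaf97ddb6afb829) b13389 (.nil))) (.nil))))) (.tok (nat_lit 41) (nat_lit 0x1780002f0000600000c0851d80ec5301e536041aec073ed80ef2300b3b) (.hit (nat_lit 226) (nat_lit 0) (nat_lit 0x1780002f00005fc858bfccf57f656affa635fee80bff6597fa0fafe5fb) b13392 (.one (nat_lit 3) (nat_lit 227)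 (nat_lit 1) (nat_lit 0x1780002f00005fb632bf89017f2822fe5135fc646bf88057f33aafd81c) b13393 (.tok (nat_lit 6) (nat_lit 0x1780002f00005fcf8cbfb3c17f94f2ff2bd5fd408bfa3c57f4192fe970) (.hit (nat_lit 228) (nat_lit 7) (nat_lit 0x1780002f00005fcf8cbfb3c17f94f2ff2bd5fd408bfa3c57f2862fe970) b13396 (.hit (nat_lit 229) (nat_lit 15) (nat_lit 0x1780002f00005fb1e4bf87617f1d7afe3d35fc5acbf8b617f4192fdc43) b13397 (.nil))) (.tok (nat_lit 9) (nat_lit 0x1780002f0000600000c0851d80ec5301e536041aec073ed80ef2300b3b) (.hit (nat_lit 230) (nat_lit 20) (nat_lit 0x1780002f0000600000c0851d80ec5301e536041aec073ed80ef2300b3b) b13394 (.hit (nat_lit 231) (nat_lit 28) (nat_lit 0x1780002f00005fb63cbf9fb97f4b7afe8e35fd16abfa5a97f3532fe222) b13395 (.nil))) (.nil))))) (.tok (nat_lit 44) (nat_lit 0x1780002f00005fcd22bfce61805612ffdd85fd656bfacad7f8de2fee25) (.hit (nat_lit 240) (nat_lit 0) (nat_lit 0x1780002f00005fcd22bfce61805612ffdd85fd656bfacad7f8de2fee25)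 b13398 (.one (nat_lit 3) (nat_lit 241) (nat_lit 1) (nat_lit 0x1780002f00005f56c0bf04517e41fafc0e95f8f0abf1e1d7e21b2fc0f2) b13399 (.tok (nat_lit 6) (nat_lit 0x1780002f00005f5e9ebf140d7e6172fc4d85f96e8bf2dd97e412afc4e1) (.hit (nat_lit 242) (nat_lit 7) (nat_lit 0x1780002f00005f5e9ebf140d7e6172fc4d85f96e8bf2dd97e412afc4e1) b13402 (.hit (nat_lit 243) (nat_lit 15) (nat_lit 0x1780002f00005f4f40bef5517e23fafbd295f878abf0f1d7e03b2fbd32) b13403 (.nil))) (.tok (nat_lit 9) (nat_lit 0x1780002f00005f839cbf5e097ef56afd7575fbbe6bf77d57ed522fd760) (.hit (nat_lit 244) (nat_lit 20) (nat_lit 0x1780002f00005f7fd4bf56797ee64afd5735fb81ebf70457ec602fd57c) b13400 (.hit (nat_lit 245) (nat_lit 28) (nat_lit 0x1780002f00005f839cbf5e097ef56afd7575fbbe6bf77d57ed522fd760) b13401 (.nil))) (.nil))))) (.tok (nat_lit 47) (nat_lit 0x1780002f00005ffc18c01285804e930063f60186ec02d01804da2ff654) (.hit (nat_lit 254)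 (nat_lit 0) (nat_lit 0x1780002f00005fc3b4bfb38d7f6802fec945fea5ebfc4f57f6d62fdfcc) b13404 (.one (nat_lit 3) (nat_lit 255) (nat_lit 1) (nat_lit 0x1780002f00005f9196bf31457ea9cafd1ff5fb656bf602d7eae0afc44b) b13405 (.tok (nat_lit 6) (nat_lit 0x1780002f00005ffc18c01285804e930063f60186ec02d01804da2ff654) (.hit (nat_lit 256) (nat_lit 7) (nat_lit 0x1780002f00005ffc18c01285804e930063f60186ec02d01804da2ff654) b13408 (.hit (nat_lit 257) (nat_lit 15) (nat_lit 0x1780002f00005fa878bf71597f104afe1f95fcbd0bf8cf97ef91afdabc) b13409 (.nil))) (.tok (nat_lit 9) (nat_lit 0x1780002f00005fcc68bfb4057f83b2ff2a25fd7c6bfab057f0ab2fe530) (.hit (nat_lit 258) (nat_lit 20) (nat_lit 0x1780002f00005fcc68bfb4057f83b2ff2a25fd7c6bfab057f0ab2fe530) b13406 (.hit (nat_lit 259) (nat_lit 28) (nat_lit 0x1780002f00005fa514bf68257ef332fdf9e5fc944bf8c797ed99afd118) b13407 (.nil))) (.nil))))) (.tok (nat_lit 50) (nat_lit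 0x1780002f00005f91c8bf66bd7f06d2fda235fc040bf80897ee68afd98d) (.hit (nat_lit 146) (nat_lit 0) (nat_lit 0x1780002f00005f91c8bf520d7ec012fda235fb6c4bf66117eaefafcc1d) b13321 (.one (nat_lit 3) (nat_lit 147) (nat_lit 1) (nat_lit 0x1780002f00005f22febe9ccd7d72f2fa7085f5b48beb6997d52aafa711) b13322 (.tok (nat_lit 6) (nat_lit 0x1780002f00005f87f6bf66bd7f06d2fd9845fc040bf80897ee68afd98d) (.hit (nat_lit 148) (nat_lit 7) (nat_lit 0x1780002f00005f87f6bf66bd7f06d2fd9845fc040bf80897ee68afd98d) b13325 (.hit (nat_lit 149) (nat_lit 15) (nat_lit 0x1780002f00005f300cbeb6e97da72afad8f5f6856bed0b57d86e2fad98) b13326 (.nil))) (.tok (nat_lit 9) (nat_lit 0x1780002f00005f6ad2bf2c757e9242fcaf25fa31cbf46417e71fafcafb) (.hit (nat_lit 150) (nat_lit 20) (nat_lit 0x1780002f00005f6ad2bf2c757e9242fcaf25fa31cbf46417e71fafcafb) b13323 (.hit (nat_lit 151) (nat_lit 28) (nat_lit 0x1780002f00005f5166bef99d7e2c92fbe3c5f89b0bf13697e0c4afbe45)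 b13324 (.nil))) (.nil))))) (.tok (nat_lit 53) (nat_lit 0x1780002f00005fdefcc039a5805e1300e26601638c01a2d8032d2ff8f3) (.hit (nat_lit 152) (nat_lit 0) (nat_lit 0x1780002f00005fc49cbfc76d7fadaaff3ed5fe48ebfd3417f683afe36f) b13327 (.one (nat_lit 3) (nat_lit 153) (nat_lit 1) (nat_lit 0x1780002f00005fd250bf8a457f681afeb8a5fb78cbf6d757f563afe756) b13328 (.tok (nat_lit 6) (nat_lit 0x1780002f00005fd83ec039a5805e1300e26601638c01a2d8032d2ff8f3) (.hit (nat_lit 154) (nat_lit 7) (nat_lit 0x1780002f00005fd83ec039a5805e1300e26601638c01a2d8032d2ff8f3) b13331 (.hit (nat_lit 155) (nat_lit 15) (nat_lit 0x1780002f00005fc4eebfc3817fb70aff2725fd454bfa28d7f580afe54b) b13332 (.nil))) (.tok (nat_lit 9) (nat_lit 0x1780002f00005fdefcbfbd6d80032b001355fd8a2bfa6657f7eaafeb78) (.hit (nat_lit 156) (nat_lit 20) (nat_lit 0x1780002f00005f80a6bf581d7ee992fd5dc5fb8f0bf71e97ec94afd5e5) b13329 (.hit (nat_lit 157)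 (nat_lit 28) (nat_lit 0x1780002f00005fdefcbfbd6d80032b001355fd8a2bfa6657f7eaafeb78) b13330 (.nil))) (.nil))))) (.tok (nat_lit 56) (nat_lit 0x1780002f00005f9d3cbf59e17ee80afdc185fd388bf929d7eeff2fd5b4) (.hit (nat_lit 164) (nat_lit 0) (nat_lit 0x1780002f00005f9d3cbf59e17ee80afdc185fd388bf929d7eeff2fd5b4) b13333 (.one (nat_lit 3) (nat_lit 165) (nat_lit 1) (nat_lit 0x1780002f00005f4156bed97d7dec52fb6345f79a0bef3497dcc0afb63d) b13300 (.tok (nat_lit 6) (nat_lit 0x1780002f00005f637cbf1dc97e74eafc7475f9bc6bf37957e54a2fc750) (.hit (nat_lit 166) (nat_lit 7) (nat_lit 0x1780002f00005f637cbf1dc97e74eafc7475f9bc6bf37957e54a2fc750) b13336 (.hit (nat_lit 167) (nat_lit 15) (nat_lit 0x1780002f00005f4432bedf357df7c2fb7a25f7c7cbef9017dd77afb7ab) b13337 (.nil))) (.tok (nat_lit 9) (nat_lit 0x1780002f00005f7246bf3b5d7eb012fceac5faa90bf55297e8fcafceb5) (.hit (nat_lit 168) (nat_lit 20) (nat_lit 0x1780002f00005f6bb4bf2e397e95cafcb635fa3febf48057e7582fcb6c)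 b13334 (.hit (nat_lit 169) (nat_lit 28) (nat_lit 0x1780002f00005f7246bf3b5d7eb012fceac5faa90bf55297e8fcafceb5) b13335 (.nil))) (.nil))))) (.tok (nat_lit 59) (nat_lit 0x1780002f00005fb222bf8f017f7a42fe88c5fbd78bf75557f345afd998) (.hit (nat_lit 158) (nat_lit 0) (nat_lit 0x1780002f00005fb222bf8f017f7a42fe88c5fbd78bf75557f345afd998) b13338 (.one (nat_lit 3) (nat_lit 159) (nat_lit 1) (nat_lit 0x1780002f00005f2b94beadf97d954afab535f63debec7c57d7502fab5c) b13339 (.tok (nat_lit 6) (nat_lit 0x1780002f00005f6ce6bf309d7e9a92fcbfc5fa530bf4a697e7a4afcc05) (.hit (nat_lit 160) (nat_lit 7) (nat_lit 0x1780002f00005f67babf26457e85e2fc9665fa004bf40117e659afc96f) b13342 (.hit (nat_lit 161) (nat_lit 15) (nat_lit 0x1780002f00005f6ce6bf309d7e9a92fcbfc5fa530bf4a697e7a4afcc05) b13343 (.nil))) (.tok (nat_lit 9) (nat_lit 0x1780002f00005f6f34bf35397ea3cafcd235fa77ebf4f057e8382fcd2c) (.hit (nat_lit 162)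 (nat_lit 20) (nat_lit 0x1780002f00005f6f34bf35397ea3cafcd235fa77ebf4f057e8382fcd2c) b13340 (.hit (nat_lit 163) (nat_lit 28) (nat_lit 0x1780002f00005f53e0befe917e367afbf795f8c2abf185d7e1632fbf82) b13341 (.nil))) (.nil))))) (.tok (nat_lit 62) (nat_lit 0x1780002f00005f8f6abf4ff17ec7bafd5de5fcc0cbf91f57f0a22fd8b1) (.hit (nat_lit 170) (nat_lit 0) (nat_lit 0x1780002f00005f8f6abf4ff17ea8d2fd5de5fcc0cbf91f57f0a22fd8b1) b13344 (.one (nat_lit 3) (nat_lit 171) (nat_lit 1) (nat_lit 0x1780002f00005f41dcbeda897dee6afb6775f7a26bef4557dce22fb680) b13345 (.tok (nat_lit 6) (nat_lit 0x1780002f00005f51cebefa6d7e2e32fbe705f8a18bf14397e0deafbe79) (.hit (nat_lit 172) (nat_lit 7) (nat_lit 0x1780002f00005f51cebefa6d7e2e32fbe705f8a18bf14397e0deafbe79) b13348 (.hit (nat_lit 173) (nat_lit 15) (nat_lit 0x1780002f00005f4bb6beee3d7e15d2fbb645f8400bf08097df58afbb6d) b13349 (.nil))) (.tok (nat_lit 9) (nat_lit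 0x1780002f00005f7830bf47317ec7bafd1a15fb07abf60fd7ea772fd1aa) (.hit (nat_lit 174) (nat_lit 20) (nat_lit 0x1780002f00005f7830bf47317ec7bafd1a15fb07abf60fd7ea772fd1aa) b13346 (.hit (nat_lit 175) (nat_lit 28) (nat_lit 0x1780002f00005f5274befbb97e30cafbec35f8abebf15857e1082fbecc) b13347 (.nil))) (.nil))))) (.tok (nat_lit 65) (nat_lit 0x1780002f00005fb1c8bfb3757f80f2ff24d5feb08bfca117f8faaff346) (.hit (nat_lit 181) (nat_lit 0) (nat_lit 0x1780002f00005fb0e8bfad357f66cafebe35feb08bfca117f8faaff080) b13350 (.one (nat_lit 3) (nat_lit 182) (nat_lit 1) (nat_lit 0x1780002f00005fa368bf90dd7f3d52fe5255fd95abfae017f3d0afebb7) b13351 (.tok (nat_lit 6) (nat_lit 0x1780002f00005fa4f2bf91717f4b7afe2265fd99cbfa5b17f309afe8c0) (.hit (nat_lit 183) (nat_lit 7) (nat_lit 0x1780002f00005f5f24bf15197e638afc51b5f976ebf2ee57e4342fc524) b13354 (.hit (nat_lit 184) (nat_lit 15) (nat_lit 0x1780002f00005fa4f2bf91717f4b7afe2265fd99cbfa5b17f309afe8c0)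 b13355 (.nil))) (.tok (nat_lit 9) (nat_lit 0x1780002f00005fb1c8bfb3757f80f2ff24d5fe5a4bfb9257f6ed2ff346) (.hit (nat_lit 185) (nat_lit 20) (nat_lit 0x1780002f00005fb1c8bfb3757f80f2ff24d5fe4c8bfaf197f6ecaff346) b13352 (.hit (nat_lit 186) (nat_lit 28) (nat_lit 0x1780002f00005fa018bf99e97f4f2afebbc5fe5a4bfb9257f6ed2fedea) b13353 (.nil))) (.nil))))) (.tok (nat_lit 68) (nat_lit 0x1780002f00005f9032bf74a17f229afdcfd5fcc4abf91d97f072afdd06) (.hit (nat_lit 209) (nat_lit 0) (nat_lit 0x1780002f00005f9032bf74a17f229afdcfd5fcc4abf91d97f072afdd06) b13356 (.one (nat_lit 3) (nat_lit 210) (nat_lit 1) (nat_lit 0x1780002f00005f4156bed97d7dec52fb6345f79a0bef3497dcc0afb63d) b13300 (.tok (nat_lit 6) (nat_lit 0x1780002f00005f7ffabf56c57ee6e2fd5865fb844bf70917ec69afd58f) (.hit (nat_lit 211) (nat_lit 7) (nat_lit 0x1780002f00005f6402bf1ed57e7702fc78a5f9c4cbf38a17e56bafc793) b13357 (.hit (nat_lit 212)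 (nat_lit 15) (nat_lit 0x1780002f00005f7ffabf56c57ee6e2fd5865fb844bf70917ec69afd58f) b13358 (.nil))) (.tok (nat_lit 9) (nat_lit 0x1780002f00005f7764bf45997ec48afd13b5fafaebf5f657ea442fd144) (.hit (nat_lit 213) (nat_lit 20) (nat_lit 0x1780002f00005f7764bf45997ec48afd13b5fafaebf5f657ea442fd144) b13312 (.hit (nat_lit 214) (nat_lit 28) (nat_lit 0x1780002f00005f4432bedf357df7c2fb7a25f7c7cbef9017dd77afb7ab) b13337 (.nil))) (.nil))))) (.tok (nat_lit 71) (nat_lit 0x1780002f00005f9d00bf83ed7f4132fe0d05fced8bf9db97f331afe8fd) (.hit (nat_lit 195) (nat_lit 0) (nat_lit 0x1780002f00005f9d00bf83ed7f4132fe0d05fced8bf9db97f331afe8fd) b13359 (.one (nat_lit 3) (nat_lit 196) (nat_lit 1) (nat_lit 0x1780002f00005f64b0bf20317e79bafc7e15f9cfabf39fd7e5972fc7ea) b13360 (.tok (nat_lit 6) (nat_lit 0x1780002f00005f8abebf6c4d7f11f2fdae85fc308bf86197ef1aafdaf1) (.hit (nat_lit 197) (nat_lit 7) (nat_lit 0x1780002f00005f7792bf45f57ec542fd1525fafdcbf5fc17ea4fafd15b)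 b13363 (.hit (nat_lit 198) (nat_lit 15) (nat_lit 0x1780002f00005f8abebf6c4d7f11f2fdae85fc308bf86197ef1aafdaf1) b13364 (.nil))) (.tok (nat_lit 9) (nat_lit 0x1780002f00005f7ea8bf54217ee19afd4dd5fb6f2bf6ded7ec152fd4e6) (.hit (nat_lit 199) (nat_lit 20) (nat_lit 0x1780002f00005f7ea8bf54217ee19afd4dd5fb6f2bf6ded7ec152fd4e6) b13361 (.hit (nat_lit 200) (nat_lit 28) (nat_lit 0x1780002f00005f7e32bf53357edfc2fd4a25fb67cbf6d017ebf7afd4ab) b13362 (.nil))) (.nil))))) (.nil))))))))))))))))))))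
noncomputable def r20_2 : Rw Blk := .tok (nat_lit 3) (nat_lit 0x1780002f00005fc170bf7af57f16cafe42f5fc5eebfa7057f4f22fd9c6) (.hit (nat_lit 18) (nat_lit 0) (nat_lit 0x1780002f00005fc10abf7af57f16cafe42f5fc5eebfa7057f4f22fd9c6) b13428 (.tok (nat_lit 6) (nat_lit 0x1780002f00005fc170bf23c97e7da2fd83a5f98eebf54ed7f264afd4a2) (.hit (nat_lit 19) (nat_lit 7) (nat_lit 0x1780002f00005fc170bf23c97e7da2fd83a5f98eebf54ed7f264afd4a2) b13431 (.hit (nat_lit 20) (nat_lit 15) (nat_lit 0x1780002f00005fa128bf17717e6922fd3e65f92c2bf48957ed602fcc29) b13432 (.nil))) (.tok (nat_lit 9) (nat_lit 0x1780002f00005fadf2bf197d7e9da2fdd4b5f93c8bf4aa17f1762fcf5f) (.hit (nat_lit 21) (nat_lit 20) (nat_lit 0x1780002f00005f7920bef1997e18dafcb6b5f7fd6bf22bd7e5772fbb21) b13429 (.hit (nat_lit 22) (nat_lit 28) (nat_lit 0x1780002f00005fadf2bf197d7e9da2fdd4b5f93c8bf4aa17f1762fcf5f) b13430 (.nil))) (.nil)))) (.tok (nat_lit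 6) (nat_lit 0x1780002f000060480ec0df29817f4b03b25605f62c0d1c1819d9b01e10) (.hit (nat_lit 9) (nat_lit 0) (nat_lit 0x1780002f00005fbe4abfcc517f72f2ff7955fef38bffd197fc192fe5fc) b13419 (.tok (nat_lit 3) (nat_lit 0x1780002f00006023e6c05ac17ff0f3022b360328ec07ea98121bb0090e) (.hit (nat_lit 10) (nat_lit 1) (nat_lit 0x1780002f00005fb692bfbcc57f3ec2ff2e35fe840bff5f97fe29afdf67) b13420 (.one (nat_lit 67) (nat_lit 11) (nat_lit 2) (nat_lit 0x1780002f00006023e6c05ac17ff0f3022b360328ec07ea98121bb0090e) b13421 (.nil))) (.tok (nat_lit 6) (nat_lit 0x1780002f000060480ec0df29817f4b03b25605f62c0d1c1819d9b01e10) (.hit (nat_lit 12) (nat_lit 7) (nat_lit 0x1780002f00005ffde0c028a580aca30153e600d3ec0274180271b00d15) b13422 (.hit (nat_lit 16) (nat_lit 15) (nat_lit 0x1780002f00005fd1fec014457f77a3002ab5ff5f0c008158026bafe5f8) b13426 (.tok (nat_lit 55) (nat_lit 0x1780002f000060480ec0df29817f4b03b25605f62c0d1c1819d9b01e10)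 (.hit (nat_lit 13) (nat_lit 8) (nat_lit 0x1780002f0000602604c06a55817f4b02de06037f4c073cd80fa8301b06) b13423 (.hit (nat_lit 17) (nat_lit 16) (nat_lit 0x1780002f000060480ec0df2980f01b03b25605f62c0d1c1819d9b01e10) b13427 (.tok (nat_lit 6) (nat_lit 0x1780002f00006011b4c0a915809693026246054cec0974980ca13013e9) (.hit (nat_lit 14) (nat_lit 9) (nat_lit 0x1780002f00006011b4c09f5580969302624605080c0924980ca13013e9) b13424 (.one (nat_lit 55) (nat_lit 15) (nat_lit 10) (nat_lit 0x1780002f0000600930c0a9158080f3025116054cec0974980873b01386) b13425 (.nil))) (.nil)))) (.nil)))) (.nil)))) (.tok (nat_lit 9) (nat_lit 0x1780002f00005fd378bf8ec57f5332ff9285fd2ccbfbfe97fc55afe8de) (.hit (nat_lit 0) (nat_lit 0) (nat_lit 0x1780002f00005fb5eebf8ea57f0c12fe7715fd2ccbfb7f17f8482fdd65) b13410 (.tok (nat_lit 3) (nat_lit 0x1780002f00005fab10bf4e457ed232fe4f45fae2cbf7f697f23bafd4aa) (.hit (nat_lit 1) (nat_lit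 1) (nat_lit 0x1780002f00005f80f6bf01457e3832fccfe5f87acbf32697e640afbcb4) b13411 (.one (nat_lit 55) (nat_lit 2) (nat_lit 3) (nat_lit 0x1780002f00005fab10bf4e457ed232fe4f45fae2cbf7f697f23bafd4aa) b13412 (.nil))) (.tok (nat_lit 9) (nat_lit 0x1780002f00005fd378bf8ec57f5332ff9285fce6cbfbfe97fc55afe8de) (.hit (nat_lit 3) (nat_lit 20) (nat_lit 0x1780002f00005f80a8beef117e13cafcfc05f7e92bf20357e7a1afbf76) b13413 (.hit (nat_lit 7) (nat_lit 28) (nat_lit 0x1780002f00005f834ebf05f57e4192fce215f8a04bf37197e38bafb74a) b13417 (.tok (nat_lit 67) (nat_lit 0x1780002f00005fd378bf8ec57f5332ff9285fce6cbfbfe97fc55afe8de) (.hit (nat_lit 4) (nat_lit 21) (nat_lit 0x1780002f00005fb6c0bf48517ec68afeacc5fab32bf79757f527afda82) b13414 (.hit (nat_lit 8) (nat_lit 29) (nat_lit 0x1780002f00005fd2d6bf70e57f36e2ff8d75fbf7cbfa2097fc2d2fe88d) b13418 (.tok (nat_lit 9) (nat_lit 0x1780002f00005fd378bf8ec57f5332ff9285fce6cbfbfe97fc55afe8de)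 (.hit (nat_lit 5) (nat_lit 22) (nat_lit 0x1780002f00005fbfe2bf5c397eee1afef5d5fb526bf8d5d7f7702fdf13) b13415 (.one (nat_lit 67) (nat_lit 6) (nat_lit 23) (nat_lit 0x1780002f00005fd378bf8ec57f5332ff9285fce6cbfbfe97fc55afe8de) b13416 (.nil))) (.nil)))) (.nil)))) (.nil)))) (.nil)))
noncomputable def r20_3 : Rw Blk := .tok (nat_lit 3) (nat_lit 0xbc00017800030049d60159ac0349981199b0068f) (.hit (nat_lit 0) (nat_lit 0) (nat_lit 0xbc0001780002fdbb75fcbfebfaea57f8f22fded8) b13433 (.tok (nat_lit 9) (nat_lit 0xbc0001780002fd7885fc698bfa42d7f86dafe7b0) (.hit (nat_lit 1) (nat_lit 20) (nat_lit 0xbc0001780002fbfa55f96d2bf44a17ec7c2fcfcd) b13434 (.hit (nat_lit 4) (nat_lit 28) (nat_lit 0xbc0001780002fbd725f926cbf3bd57eb62afcd9a) b13437 (.one (nat_lit 56) (nat_lit 5) (nat_lit 31) (nat_lit 0xbc0001780002fce845fb490bf801d7f3ebafdeac) b13438 (.tok (nat_lit 68) (nat_lit 0xbc0001780002fd7885fc698bfa42d7f86dafe7b0)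 (.hit (nat_lit 2) (nat_lit 26) (nat_lit 0xbc0001780002fd20d5fbba2bf8e417f5b02fe235) b13435 (.hit (nat_lit 6) (nat_lit 32) (nat_lit 0xbc0001780002fced15fb52abf81517f4122fdef9) b13439 (.one (nat_lit 9) (nat_lit 3) (nat_lit 27) (nat_lit 0xbc0001780002fd7885fc698bfa42d7f86dafe7b0) b13436 (.nil)))) (.nil))))) (.tok (nat_lit 64) (nat_lit 0xbc0001780002fd75a5fc63cbfa3757f856afe782) (.hit (nat_lit 7) (nat_lit 50) (nat_lit 0xbc0001780002fceae5fb4e4bf80c57f400afded6) b13440 (.hit (nat_lit 8) (nat_lit 51) (nat_lit 0xbc0001780002fd75a5fc63cbfa3757f856afe782) b13441 (.nil))) (.tok (nat_lit 67) (nat_lit 0xbc00017800030049d60159ac0349981199b0068f) (.hit (nat_lit 9) (nat_lit 52) (nat_lit 0xbc00017800030049d60159ac0349981199b0068f) b13442 (.one (nat_lit 3) (nat_lit 15) (nat_lit 58) (nat_lit 0xbc0001780002fceab5fb4debf80b97f3ff2fded3) b13448 (.tok (nat_lit 9) (nat_lit 0xbc0001780002fe3df5fdf46bfd5897fe992ff407)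 (.hit (nat_lit 10) (nat_lit 53) (nat_lit 0xbc0001780002fd4615fc04abf97917f6da2fe489) b13443 (.hit (nat_lit 13) (nat_lit 56) (nat_lit 0xbc0001780002fcc375faff6bf76e97f2c52fdc5f) b13446 (.tok (nat_lit 67) (nat_lit 0xbc0001780002fe3df5fdf46bfd5897fe992ff407) (.hit (nat_lit 11) (nat_lit 54) (nat_lit 0xbc0001780002fe3df5fdf46bfd5897fe992ff407) b13444 (.hit (nat_lit 14) (nat_lit 57) (nat_lit 0xbc0001780002fd9e75fcb56bfada97f99d2fea0f) b13447 (.one (nat_lit 9) (nat_lit 12) (nat_lit 55) (nat_lit 0xbc0001780002fd31c5fbdc0bf927d7f637afe344) b13445 (.nil)))) (.nil)))) (.nil)))) (.one (nat_lit 70) (nat_lit 16) (nat_lit 60) (nat_lit 0xbc0001780002fcdee5fb364bf7dc57f3a0afde16) b13449 (.nil)))))) (.tok (nat_lit 6) (nat_lit 0xbc000178000301fec606daac0d38581454b02df2) (.hit (nat_lit 17) (nat_lit 0) (nat_lit 0xbc0001780002ffc83601f0ac0470d80a84300a73) b13450 (.tok (nat_lit 6) (nat_lit 0xbc0001780003003dc602feec0549d809a93020f4)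 (.hit (nat_lit 18) (nat_lit 7) (nat_lit 0xbc0001780002ff5796025fec04575809a9300a0e) b13451 (.hit (nat_lit 21) (nat_lit 15) (nat_lit 0xbc0001780002fd2765fc82abfa5017f03dafd7c6) b13454 (.tok (nat_lit 56) (nat_lit 0xbc0001780003003dc602feec0549d808a8b020f4) (.hit (nat_lit 19) (nat_lit 13) (nat_lit 0xbc0001780002feb62601482c0347d804603008b7) b13452 (.hit (nat_lit 23) (nat_lit 19) (nat_lit 0xbc0001780002fdcb25fe556bfe1e97fc4b2ff14e) b13456 (.one (nat_lit 6) (nat_lit 20) (nat_lit 14) (nat_lit 0xbc0001780003003dc602feec0549d808a8b020f4) b13453 (.nil)))) (.one (nat_lit 68) (nat_lit 22) (nat_lit 18) (nat_lit 0xbc0001780002ff82e60076ac01a5180479afff1d) b13455 (.nil))))) (.tok (nat_lit 52) (nat_lit 0xbc000178000301bb5603ca4c085c180d6bb00de9) (.hit (nat_lit 24) (nat_lit 39) (nat_lit 0xbc0001780002fffd5603ca4c085c180810b00de9) b13457 (.hit (nat_lit 25) (nat_lit 40) (nat_lit 0xbc000178000301bb56027f8c0645980d6bb00cdc)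 b13458 (.nil))) (.tok (nat_lit 55) (nat_lit 0xbc000178000301fec606daac0d38581454b02df2) (.hit (nat_lit 26) (nat_lit 41) (nat_lit 0xbc000178000301fec606daac0d38581454b02df2) b13459 (.one (nat_lit 3) (nat_lit 32) (nat_lit 47) (nat_lit 0xbc0001780003009f66049a0c0937580e6a3014d5) b13465 (.tok (nat_lit 6) (nat_lit 0xbc000178000301a9660669ac0c32d80f53b02277) (.hit (nat_lit 27) (nat_lit 42) (nat_lit 0xbc0001780002ff0cd601bc4c022a97fe4c3003bd) b13460 (.hit (nat_lit 30) (nat_lit 45) (nat_lit 0xbc000178000300c76604a1cc08ce580c87301aae) b13463 (.tok (nat_lit 55) (nat_lit 0xbc000178000301a9660669ac0c32d80f53b02277) (.hit (nat_lit 28) (nat_lit 43) (nat_lit 0xbc000178000301a96605bd6c0a6a980efb302277) b13461 (.hit (nat_lit 31) (nat_lit 46) (nat_lit 0xbc0001780003000f0602dd2c05ae98063f300c8d) b13464 (.one (nat_lit 6) (nat_lit 29) (nat_lit 44) (nat_lit 0xbc00017800030153160669ac0c32d80f53b0226e)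 b13462 (.nil)))) (.nil)))) (.nil)))) (.one (nat_lit 58) (nat_lit 33) (nat_lit 49) (nat_lit 0xbc000178000300c45602d98c0691580eff301024) b13466 (.nil)))))) (.nil))
noncomputable def r20_4 : Rw Blk := .tok (nat_lit 3) (nat_lit 0x1780002f00005fa282bfa7917f4dc2fec965fdedcbfb39d7f674afe833) (.hit (nat_lit 14) (nat_lit 0) (nat_lit 0x1780002f00005f9d26bf90d97f4dc2fec965fdedcbfb39d7f674afe833) b13481 (.tok (nat_lit 6) (nat_lit 0x1780002f00005f7d3cbf4d557e6f4afd0c95fab6cbf525d7e838afd0df) (.hit (nat_lit 15) (nat_lit 7) (nat_lit 0x1780002f00005f52bcbf2e7d7e319afc9135f8ee8bf11457df8aafbb57) b13484 (.hit (nat_lit 16) (nat_lit 15) (nat_lit 0x1780002f00005f7d3cbf4d557e6f4afd0c95fab6cbf525d7e838afd0df) b13485 (.nil))) (.tok (nat_lit 9) (nat_lit 0x1780002f00005fa282bfa7917f23c2fe7585fd144bfa7757f5062fe737) (.hit (nat_lit 17) (nat_lit 20) (nat_lit 0x1780002f00005fa282bfa7917f23c2fe7585fd144bfa7757f5062fe737)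 b13482 (.hit (nat_lit 18) (nat_lit 28) (nat_lit 0x1780002f00005f8198bf92057ef8aafe1f55fc96abf90217f16aafe335) b13483 (.nil))) (.nil)))) (.tok (nat_lit 6) (nat_lit 0x1780002f00005fce5cc013417ffb2300244600a88bffda57fe72aff927) (.hit (nat_lit 0) (nat_lit 0) (nat_lit 0x1780002f00005fad56bfc9bd7f681afefe35fdfd8bfb5957f64dafeba7) b13467 (.tok (nat_lit 3) (nat_lit 0x1780002f00005fae4ebfc8397f6512fef825fea7abfbd897f66f2fe920) (.hit (nat_lit 1) (nat_lit 1) (nat_lit 0x1780002f00005f69b8bf67917ea3c2fd7585fa540bf4a597e44cafc54a) b13468 (.one (nat_lit 67) (nat_lit 2) (nat_lit 2) (nat_lit 0x1780002f00005fae4ebfc8397f6512fef825fea7abfbd897f66f2fe920) b13469 (.nil))) (.tok (nat_lit 6) (nat_lit 0x1780002f00005fce5cc013417ffb2300244600a88bffda57fe72aff927) (.hit (nat_lit 3) (nat_lit 7) (nat_lit 0x1780002f00005f8930bf46cd7e623afcf275fc55cbf734d7ed27afd691) b13470 (.hit (nat_lit 7) (nat_lit 15)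 (nat_lit 0x1780002f00005f819ebf79a97ec7f2fdbde5fbdcabf64297eb432fd2c8) b13474 (.tok (nat_lit 55) (nat_lit 0x1780002f00005fce5cc013417ffb2300244600a88bffda57fe72aff927) (.hit (nat_lit 4) (nat_lit 8) (nat_lit 0x1780002f00005fa884bf90917ef5c2fe1985fe4b0bfb1f57f4fcafe63b) b13471 (.hit (nat_lit 8) (nat_lit 16) (nat_lit 0x1780002f00005fc224bfe2cd7f9a3aff6275ffe50bfe5357fb64aff30b) b13475 (.tok (nat_lit 6) (nat_lit 0x1780002f00005fce5cc013417ffb2300244600a88bffda57fe72aff927) (.hit (nat_lit 5) (nat_lit 9) (nat_lit 0x1780002f00005fa952bf9f8d7f13bafe5575fe57ebfb3917f5302fe6a2) b13472 (.one (nat_lit 55) (nat_lit 6) (nat_lit 10) (nat_lit 0x1780002f00005fce5cc013417ffb2300244600a88bffda57fe72aff927) b13473 (.nil))) (.nil)))) (.nil)))) (.nil)))) (.tok (nat_lit 9) (nat_lit 0x1780002f0000600000c0403d80725b00d13600f12c020dd80000300000) (.hit (nat_lit 9) (nat_lit 0) (nat_lit 0x1780002f00005fbeecc000f17fdb33000ce600f12c020dd7ff3c2ffbaa)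 b13476 (.tok (nat_lit 3) (nat_lit 0x1780002f0000600000c0403d80725b00d136002b4bffcbd80000300000) (.hit (nat_lit 10) (nat_lit 1) (nat_lit 0x1780002f00005fb4cabfcc697fa6f2ff6c15fd3b8bfad157f3d8afec99) b13477 (.one (nat_lit 55) (nat_lit 11) (nat_lit 3) (nat_lit 0x1780002f0000600000c0403d80725b00d136002b4bffcbd80000300000) b13478 (.nil))) (.tok (nat_lit 9) (nat_lit 0x1780002f00005fa2eabfba717f7942ff0ff5fd57abf98ed7f0372feb75) (.hit (nat_lit 12) (nat_lit 20) (nat_lit 0x1780002f00005fa0aabfba717f7942fef255fd57abf98ed7f0372feb75) b13479 (.hit (nat_lit 13) (nat_lit 28) (nat_lit 0x1780002f00005fa2eabfb6417f6d12ff0ff5fc576bf86697eee1afe530) b13480 (.nil))) (.nil)))) (.nil)))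
noncomputable def r20_5 : Rw Blk := .tok (nat_lit 3) (nat_lit 0xbc0001780002ff0675fd382bfc7317fa742fe83e) (.hit (nat_lit 0) (nat_lit 0) (nat_lit 0xbc0001780002fd7a65fb3ccbf81257f1352fdc16) b13486 (.tok (nat_lit 6) (nat_lit 0xbc0001780002fe1ae5fbb56bf8a257f2dfafdac9) (.hit (nat_lit 1) (nat_lit 7) (nat_lit 0xbc0001780002fc6bd5f8574bf1e617e5672fbfd8) b13487 (.hit (nat_lit 6) (nat_lit 15) (nat_lit 0xbc0001780002fb8445f6882bee47d7de2aafb15f) b13492 (.tok (nat_lit 14) (nat_lit 0xbc0001780002fd4095fa00cbf53917ec0d2fcd24) (.hit (nat_lit 2) (nat_lit 11) (nat_lit 0xbc0001780002fcdd65f93a6bf3ac57e8f3afc6f1) b13488 (.hit (nat_lit 7) (nat_lit 17) (nat_lit 0xbc0001780002fced35f95a0bf3eb97e9722fc7ee) b13493 (.one (nat_lit 9) (nat_lit 3) (nat_lit 12) (nat_lit 0xbc0001780002fd4095fa00cbf53917ec0d2fcd24) b13489 (.nil)))) (.tok (nat_lit 56) (nat_lit 0xbc0001780002fe1ae5fbb56bf8a257f2dfafdac9) (.hit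 (nat_lit 4) (nat_lit 13) (nat_lit 0xbc0001780002fd9c25fab7ebf6a757eee9afd2dd) b13490 (.hit (nat_lit 8) (nat_lit 19) (nat_lit 0xbc0001780002fcb4b5f8e90bf30997e7ae2fc466) b13494 (.one (nat_lit 6) (nat_lit 5) (nat_lit 14) (nat_lit 0xbc0001780002fe1ae5fbb56bf8a257f2dfafdac9) b13491 (.nil)))) (.nil))))) (.tok (nat_lit 52) (nat_lit 0xbc0001780002fd4c65fa186bf56857ec6bafcde1) (.hit (nat_lit 9) (nat_lit 39) (nat_lit 0xbc0001780002fd4535fa0a0bf54b97ec322fcd6e) b13495 (.hit (nat_lit 10) (nat_lit 40) (nat_lit 0xbc0001780002fd4c65fa186bf56857ec6bafcde1) b13496 (.nil))) (.tok (nat_lit 55) (nat_lit 0xbc0001780002ff0675fd382bfc7317fa742fe83e) (.hit (nat_lit 11) (nat_lit 41) (nat_lit 0xbc0001780002ff0675fd382bfc7317fa742fe83e) b13497 (.tok (nat_lit 3) (nat_lit 0xbc0001780002fe85d5fc8b4bfa4e17f6372fe178) (.hit (nat_lit 17) (nat_lit 47) (nat_lit 0xbc0001780002fd9965fab26bf69c57eed3afd2b1) b13503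 (.one (nat_lit 67) (nat_lit 18) (nat_lit 48) (nat_lit 0xbc0001780002fe85d5fc8b4bfa4e17f6372fe178) b13504 (.nil))) (.tok (nat_lit 6) (nat_lit 0xbc0001780002fe4105fc01abf93ad7f410afdd2b) (.hit (nat_lit 12) (nat_lit 42) (nat_lit 0xbc0001780002fdaa55fad44bf6e017ef5b2fd3c0) b13498 (.hit (nat_lit 15) (nat_lit 45) (nat_lit 0xbc0001780002fd5da5fa3aebf5ad57ecf5afcef5) b13501 (.tok (nat_lit 55) (nat_lit 0xbc0001780002fe4105fc01abf93ad7f410afdd2b) (.hit (nat_lit 13) (nat_lit 43) (nat_lit 0xbc0001780002fe4105fc01abf93ad7f410afdd2b) b13499 (.hit (nat_lit 16) (nat_lit 46) (nat_lit 0xbc0001780002fe1b25fbb5ebf8a357f2e1afdacd) b13502 (.one (nat_lit 6) (nat_lit 14) (nat_lit 44) (nat_lit 0xbc0001780002fe1875fbb08bf89897f2cc2fdaa2) b13500 (.nil)))) (.nil)))) (.nil)))) (.one (nat_lit 58) (nat_lit 19) (nat_lit 49) (nat_lit 0xbc0001780002fd3fc5f9ff2bf535d7ec06afcd17) b13505 (.nil)))))) (.tok (nat_lit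 9) (nat_lit 0xbc0001780003023ba607a16c0f1e98192bb0296d) (.hit (nat_lit 20) (nat_lit 0) (nat_lit 0xbc0001780002fd7cc5fd528bfbf817f2eeafdefa) b13506 (.tok (nat_lit 9) (nat_lit 0xbc0001780003023ba607a16c0f1e98192bb0296d) (.hit (nat_lit 21) (nat_lit 20) (nat_lit 0xbc0001780002fd7d35fe1e2bfcd097f75a2fe1d8) b13507 (.hit (nat_lit 26) (nat_lit 28) (nat_lit 0xbc0001780002fb9db5f7494bef76d7dfd2afc7aa) b13512 (.tok (nat_lit 14) (nat_lit 0xbc0001780003023ba607a16c0f1e98192bb0296d) (.hit (nat_lit 22) (nat_lit 24) (nat_lit 0xbc0001780003023ba607a16c0f1e98192bb0296d) b13508 (.hit (nat_lit 27) (nat_lit 30) (nat_lit 0xbc0001780002fd95d5fbbf0bf84f97f10d2fe7b7) b13513 (.one (nat_lit 6) (nat_lit 23) (nat_lit 25) (nat_lit 0xbc000178000301db660664cc0d485818f2b024bf) b13509 (.nil)))) (.one (nat_lit 56) (nat_lit 28) (nat_lit 31) (nat_lit 0xbc0001780002fd7745fb964bf802d7f0b5afe6ab) b13514 (.tok (nat_lit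 68) (nat_lit 0xbc0001780002ff8c4602150c02d51801cdaffe66) (.hit (nat_lit 24) (nat_lit 26) (nat_lit 0xbc0001780002ff8c4602150c02d51801cdaffe66) b13510 (.hit (nat_lit 29) (nat_lit 32) (nat_lit 0xbc0001780002fd7f15fa68abf4d797eaeeafdc68) b13515 (.one (nat_lit 9) (nat_lit 25) (nat_lit 27) (nat_lit 0xbc0001780002fdecf5fcf9abfacf57f5b42ff03b) b13511 (.nil)))) (.nil)))))) (.nil))) (.nil))
noncomputable def r20_6 : Rw Blk := .tok (nat_lit 14) (nat_lit 0x2f00005e0000bf5c217f6e8afe4e9) (.hit (nat_lit 140) (nat_lit 0) (nat_lit 0x2f00005e0000bf309d7eeaa2fd46c) b13528 (.one (nat_lit 3) (nat_lit 141) (nat_lit 1) (nat_lit 0x2f00005e0000be78517da6eafabf5) b13529 (.tok (nat_lit 6) (nat_lit 0x2f00005e0000bf27c97f05dafd7d3) (.hit (nat_lit 142) (nat_lit 7) (nat_lit 0x2f00005e0000bf0a1d7eca82fd068) b13532 (.hit (nat_lit 143) (nat_lit 15) (nat_lit 0x2f00005e0000bf27c97f05dafd7d3) b13533 (.nil))) (.tok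 (nat_lit 9) (nat_lit 0x2f00005e0000bf5c217f6e8afe4e9) (.hit (nat_lit 144) (nat_lit 20) (nat_lit 0x2f00005e0000bf311d7f1882fda28) b13530 (.hit (nat_lit 145) (nat_lit 28) (nat_lit 0x2f00005e0000bf5c217f6e8afe4e9) b13531 (.nil))) (.nil))))) (.tok (nat_lit 17) (nat_lit 0x2f00005e0000bf725d7f99aafea4d) (.hit (nat_lit 134) (nat_lit 0) (nat_lit 0x2f00005e0000bf725d7f7832fdab5) b13534 (.one (nat_lit 3) (nat_lit 135) (nat_lit 1) (nat_lit 0x2f00005e0000beb5fd7e2242fbb60) b13535 (.tok (nat_lit 6) (nat_lit 0x2f00005e0000bf71b17f99aafea4d) (.hit (nat_lit 136) (nat_lit 7) (nat_lit 0x2f00005e0000bef9a57ea992fcc4a) b13538 (.hit (nat_lit 137) (nat_lit 15) (nat_lit 0x2f00005e0000bf71b17f99aafea4d) b13539 (.nil))) (.tok (nat_lit 9) (nat_lit 0x2f00005e0000bf45dd7f4202fdf58) (.hit (nat_lit 138) (nat_lit 20) (nat_lit 0x2f00005e0000bf396d7f2922fdc3c) b13536 (.hit (nat_lit 139) (nat_lit 28) (nat_lit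 0x2f00005e0000bf45dd7f4202fdf58) b13537 (.nil))) (.nil))))) (.tok (nat_lit 20) (nat_lit 0x2f00005e0000bfa12d7fbc12fec56) (.hit (nat_lit 122) (nat_lit 0) (nat_lit 0x2f00005e0000bf8b817fb912fec56) b13516 (.one (nat_lit 3) (nat_lit 123) (nat_lit 1) (nat_lit 0x2f00005e0000bf4bcd7f57eafe175) b13517 (.tok (nat_lit 6) (nat_lit 0x2f00005e0000bfa12d7fbc12fea23) (.hit (nat_lit 124) (nat_lit 7) (nat_lit 0x2f00005e0000bf1f917ef56afd5c5) b13520 (.hit (nat_lit 125) (nat_lit 15) (nat_lit 0x2f00005e0000bfa12d7fbc12fea23) b13521 (.nil))) (.tok (nat_lit 9) (nat_lit 0x2f00005e0000bf959d7fa94afeb06) (.hit (nat_lit 126) (nat_lit 20) (nat_lit 0x2f00005e0000bf8f097f7a52fe5df) b13518 (.hit (nat_lit 127) (nat_lit 28) (nat_lit 0x2f00005e0000bf959d7fa94afeb06) b13519 (.nil))) (.nil))))) (.tok (nat_lit 23) (nat_lit 0x2f00005e0000bf98517fc63afeb68) (.hit (nat_lit 128) (nat_lit 0) (nat_lit 0x2f00005e0000bf89717fbe52fea6b)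 b13522 (.one (nat_lit 3) (nat_lit 129) (nat_lit 1) (nat_lit 0x2f00005e0000bf6bd97f83aafe316) b13523 (.tok (nat_lit 6) (nat_lit 0x2f00005e0000bf7ffd7fc63afeb68) (.hit (nat_lit 130) (nat_lit 7) (nat_lit 0x2f00005e0000bf7bdd7fac7afe87a) b13526 (.hit (nat_lit 131) (nat_lit 15) (nat_lit 0x2f00005e0000bf7ffd7fc63afeb68) b13527 (.nil))) (.tok (nat_lit 9) (nat_lit 0x2f00005e0000bf98517faf82feb06) (.hit (nat_lit 132) (nat_lit 20) (nat_lit 0x2f00005e0000bf32117f1a6afda65) b13524 (.hit (nat_lit 133) (nat_lit 28) (nat_lit 0x2f00005e0000bf98517faf82feb06) b13525 (.nil))) (.nil))))) (.tok (nat_lit 26) (nat_lit 0x2f00005e0000bfa9cd7f475afe003) (.hit (nat_lit 260) (nat_lit 0) (nat_lit 0x2f00005e0000bfa9cd7f2922fda4a) b13583 (.one (nat_lit 3) (nat_lit 261) (nat_lit 1) (nat_lit 0x2f00005e0000bed7957e6572fc3c6) b13584 (.tok (nat_lit 6) (nat_lit 0x2f00005e0000bf3c497f2edafdcf3) (.hit (nat_lit 262)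 (nat_lit 7) (nat_lit 0x2f00005e0000bf3c497f2edafdcf3) b13587 (.hit (nat_lit 263) (nat_lit 15) (nat_lit 0x2f00005e0000bf02f57ebc32fce9e) b13588 (.nil))) (.tok (nat_lit 9) (nat_lit 0x2f00005e0000bf48897f475afe003) (.hit (nat_lit 264) (nat_lit 20) (nat_lit 0x2f00005e0000beee457e92d2fc972) b13585 (.hit (nat_lit 265) (nat_lit 28) (nat_lit 0x2f00005e0000bf48897f475afe003) b13586 (.nil))) (.nil))))) (.tok (nat_lit 29) (nat_lit 0x2f00005e0000bf58397f63bafe38f) (.hit (nat_lit 266) (nat_lit 0) (nat_lit 0x2f00005e0000bf58397f4822fe01c) b13589 (.one (nat_lit 3) (nat_lit 267) (nat_lit 1) (nat_lit 0x2f00005e0000becb1d7e4c82fc0a8) b13590 (.tok (nat_lit 6) (nat_lit 0x2f00005e0000bf56b97f63bafe38f) (.hit (nat_lit 268) (nat_lit 7) (nat_lit 0x2f00005e0000bf329d7f1b82fda88) b13593 (.hit (nat_lit 269) (nat_lit 15) (nat_lit 0x2f00005e0000bf56b97f63bafe38f) b13594 (.nil))) (.tok (nat_lit 9) (nat_lit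 0x2f00005e0000bf52097f5a5afe263) (.hit (nat_lit 270) (nat_lit 20) (nat_lit 0x2f00005e0000bf185d7ee702fd3f8) b13591 (.hit (nat_lit 271) (nat_lit 28) (nat_lit 0x2f00005e0000bf52097f5a5afe263) b13592 (.nil))) (.nil))))) (.tok (nat_lit 32) (nat_lit 0x2f00005e0000bf76f17f6362fe384) (.hit (nat_lit 272) (nat_lit 0) (nat_lit 0x2f00005e0000bf76f17ed39afcf93) b13595 (.one (nat_lit 3) (nat_lit 273) (nat_lit 1) (nat_lit 0x2f00005e0000bec5017e404afbf21) b13553 (.tok (nat_lit 6) (nat_lit 0x2f00005e0000bf568d7f6362fe384) (.hit (nat_lit 274) (nat_lit 7) (nat_lit 0x2f00005e0000beee197e927afc967) b13598 (.hit (nat_lit 275) (nat_lit 15) (nat_lit 0x2f00005e0000bf568d7f6362fe384) b13599 (.nil))) (.tok (nat_lit 9) (nat_lit 0x2f00005e0000bf31dd7f1a02fda58) (.hit (nat_lit 276) (nat_lit 20) (nat_lit 0x2f00005e0000bf31dd7f1a02fda58) b13596 (.hit (nat_lit 277) (nat_lit 28) (nat_lit 0x2f00005e0000bed5c97e61dafc353)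 b13597 (.nil))) (.nil))))) (.tok (nat_lit 35) (nat_lit 0x2f00005e0000bf68ed7f8822fe81c) (.hit (nat_lit 278) (nat_lit 0) (nat_lit 0x2f00005e0000bf68ed7f8822fe81c) b13600 (.one (nat_lit 3) (nat_lit 279) (nat_lit 1) (nat_lit 0x2f00005e0000bec5017e404afbf21) b13553 (.tok (nat_lit 6) (nat_lit 0x2f00005e0000bf24617eff0afd6f9) (.hit (nat_lit 280) (nat_lit 7) (nat_lit 0x2f00005e0000bf24617eff0afd6f9) b13603 (.hit (nat_lit 281) (nat_lit 15) (nat_lit 0x2f00005e0000becfa97e559afc1cb) b13604 (.nil))) (.tok (nat_lit 9) (nat_lit 0x2f00005e0000bf4e3d7f52c2fe170) (.hit (nat_lit 282) (nat_lit 20) (nat_lit 0x2f00005e0000bf30cd7f17e2fda14) b13601 (.hit (nat_lit 283) (nat_lit 28) (nat_lit 0x2f00005e0000bf4e3d7f52c2fe170) b13602 (.nil))) (.nil))))) (.tok (nat_lit 38) (nat_lit 0x2f00005e0000bfb4bd7f92dafebe6) (.hit (nat_lit 215) (nat_lit 0) (nat_lit 0x2f00005e0000bfb4bd7f92dafebe6) b13605 (.one (nat_lit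 3) (nat_lit 216) (nat_lit 1) (nat_lit 0x2f00005e0000bec5b97e41bafbf4f) b13606 (.tok (nat_lit 6) (nat_lit 0x2f00005e0000bf32297f1a9afda6b) (.hit (nat_lit 217) (nat_lit 7) (nat_lit 0x2f00005e0000bf32297f1a9afda6b) b13554 (.hit (nat_lit 218) (nat_lit 15) (nat_lit 0x2f00005e0000bee72d7e84a2fc7ac) b13609 (.nil))) (.tok (nat_lit 9) (nat_lit 0x2f00005e0000bef49d7e9f82fcb08) (.hit (nat_lit 219) (nat_lit 20) (nat_lit 0x2f00005e0000bef49d7e9f82fcb08) b13607 (.hit (nat_lit 220) (nat_lit 28) (nat_lit 0x2f00005e0000bee73d7e84c2fc7b0) b13608 (.nil))) (.nil))))) (.tok (nat_lit 41) (nat_lit 0x2f00005e0000bfb3417f9a82feef1) (.hit (nat_lit 226) (nat_lit 0) (nat_lit 0x2f00005e0000bf99817f4672fe28f) b13610 (.one (nat_lit 3) (nat_lit 227) (nat_lit 1) (nat_lit 0x2f00005e0000bf6ad57ee032fd79b) b13611 (.tok (nat_lit 6) (nat_lit 0x2f00005e0000bfb3417f764afeef1) (.hit (nat_lit 228) (nat_lit 7) (nat_lit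 0x2f00005e0000bfb3417f764afeef1) b13614 (.hit (nat_lit 229) (nat_lit 15) (nat_lit 0x2f00005e0000bf9b0d7f5942fe3aa) b13615 (.nil))) (.tok (nat_lit 9) (nat_lit 0x2f00005e0000bfaa617f9a82fed5b) (.hit (nat_lit 230) (nat_lit 20) (nat_lit 0x2f00005e0000bfaa617f768afed5b) b13612 (.hit (nat_lit 231) (nat_lit 28) (nat_lit 0x2f00005e0000bf94197f9a82fea68) b13613 (.nil))) (.nil))))) (.tok (nat_lit 44) (nat_lit 0x2f00005e0000c00001801ea3001e5) (.hit (nat_lit 240) (nat_lit 0) (nat_lit 0x2f00005e0000bfebf17fe92b00035) b13616 (.one (nat_lit 3) (nat_lit 241) (nat_lit 1) (nat_lit 0x2f00005e0000bf5fa97ecbc2fd4d0) b13617 (.tok (nat_lit 6) (nat_lit 0x2f00005e0000bfc9317fb07aff127) (.hit (nat_lit 242) (nat_lit 7) (nat_lit 0x2f00005e0000bfc9317fb07aff127) b13620 (.hit (nat_lit 243) (nat_lit 15) (nat_lit 0x2f00005e0000bf70c17eed12fd935) b13621 (.nil))) (.tok (nat_lit 9) (nat_lit 0x2f00005e0000c00001801ea3001e5)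 (.hit (nat_lit 244) (nat_lit 20) (nat_lit 0x2f00005e0000c00001801ea3001e5) b13618 (.hit (nat_lit 245) (nat_lit 28) (nat_lit 0x2f00005e0000bf86c17f1ebafdf6c) b13619 (.nil))) (.nil))))) (.tok (nat_lit 47) (nat_lit 0x2f00005e0000bfe1a57faa52ff381) (.hit (nat_lit 254) (nat_lit 0) (nat_lit 0x2f00005e0000bfe1a57f9322fec8b) b13622 (.one (nat_lit 3) (nat_lit 255) (nat_lit 1) (nat_lit 0x2f00005e0000bf351d7e74f2fca33) b13623 (.tok (nat_lit 6) (nat_lit 0x2f00005e0000bfb4597faa52ff381) (.hit (nat_lit 256) (nat_lit 7) (nat_lit 0x2f00005e0000bfb4597faa52ff381) b13626 (.hit (nat_lit 257) (nat_lit 15) (nat_lit 0x2f00005e0000bf87a17f85fafe7d7) b13627 (.nil))) (.tok (nat_lit 9) (nat_lit 0x2f00005e0000bfbff57f9efafee6c) (.hit (nat_lit 258) (nat_lit 20) (nat_lit 0x2f00005e0000bfbff57f9efafee6c) b13624 (.hit (nat_lit 259) (nat_lit 28) (nat_lit 0x2f00005e0000bf7c757f066afdc62) b13625 (.nil))) (.nil)))))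 (.tok (nat_lit 50) (nat_lit 0x2f00005e0000bf61917ef2aafd56d) (.hit (nat_lit 146) (nat_lit 0) (nat_lit 0x2f00005e0000bf61917ecedafd0f3) b13540 (.one (nat_lit 3) (nat_lit 147) (nat_lit 1) (nat_lit 0x2f00005e0000bec6517e42eafbf75) b13541 (.tok (nat_lit 6) (nat_lit 0x2f00005e0000bf1e317ef2aafd56d) (.hit (nat_lit 148) (nat_lit 7) (nat_lit 0x2f00005e0000bf1e317ef2aafd56d) b13544 (.hit (nat_lit 149) (nat_lit 15) (nat_lit 0x2f00005e0000bee67d7e8342fc780) b13545 (.nil))) (.tok (nat_lit 9) (nat_lit 0x2f00005e0000beeda57e9192fc94a) (.hit (nat_lit 150) (nat_lit 20) (nat_lit 0x2f00005e0000beeda57e9192fc94a) b13542 (.hit (nat_lit 151) (nat_lit 28) (nat_lit 0x2f00005e0000beddb57e71b2fc54e) b13543 (.nil))) (.nil))))) (.tok (nat_lit 53) (nat_lit 0x2f00005e0000bf8fb57f90cafe931) (.hit (nat_lit 152) (nat_lit 0) (nat_lit 0x2f00005e0000bf7ead7f0bd2fd892) b13546 (.one (nat_lit 3) (nat_lit 153) (nat_lit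 1) (nat_lit 0x2f00005e0000bf67657ea3cafcd25) b13547 (.tok (nat_lit 6) (nat_lit 0x2f00005e0000bf8fb57f90cafe931) (.hit (nat_lit 154) (nat_lit 7) (nat_lit 0x2f00005e0000bf8fb57f1b62fdc18) b13550 (.hit (nat_lit 155) (nat_lit 15) (nat_lit 0x2f00005e0000bf899d7f90cafe931) b13551 (.nil))) (.tok (nat_lit 9) (nat_lit 0x2f00005e0000bf80c97f5252fe162) (.hit (nat_lit 156) (nat_lit 20) (nat_lit 0x2f00005e0000bf4e057f5252fe162) b13548 (.hit (nat_lit 157) (nat_lit 28) (nat_lit 0x2f00005e0000bf80c97f05dafd7d3) b13549 (.nil))) (.nil))))) (.tok (nat_lit 56) (nat_lit 0x2f00005e0000bf55a97f619afe34b) (.hit (nat_lit 164) (nat_lit 0) (nat_lit 0x2f00005e0000bf4aad7f209afdb2b) b13552 (.one (nat_lit 3) (nat_lit 165) (nat_lit 1) (nat_lit 0x2f00005e0000bec5017e404afbf21) b13553 (.tok (nat_lit 6) (nat_lit 0x2f00005e0000bf23557efcf2fd6b6) (.hit (nat_lit 166) (nat_lit 7) (nat_lit 0x2f00005e0000bf23557efcf2fd6b6)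 b13556 (.hit (nat_lit 167) (nat_lit 15) (nat_lit 0x2f00005e0000becab97e4bbafc08f) b13557 (.nil))) (.tok (nat_lit 9) (nat_lit 0x2f00005e0000bf55a97f619afe34b) (.hit (nat_lit 168) (nat_lit 20) (nat_lit 0x2f00005e0000bf32297f1a9afda6b) b13554 (.hit (nat_lit 169) (nat_lit 28) (nat_lit 0x2f00005e0000bf55a97f619afe34b) b13555 (.nil))) (.nil))))) (.tok (nat_lit 59) (nat_lit 0x2f00005e0000bf77cd7f0aa2fd86c) (.hit (nat_lit 158) (nat_lit 0) (nat_lit 0x2f00005e0000bf77cd7f0a42fd860) b13558 (.one (nat_lit 3) (nat_lit 159) (nat_lit 1) (nat_lit 0x2f00005e0000bec5017e404afbf21) b13553 (.tok (nat_lit 6) (nat_lit 0x2f00005e0000bf2a2d7f0aa2fd86c) (.hit (nat_lit 160) (nat_lit 7) (nat_lit 0x2f00005e0000bf175d7ee502fd3b8) b13561 (.hit (nat_lit 161) (nat_lit 15) (nat_lit 0x2f00005e0000bf2a2d7f0aa2fd86c) b13562 (.nil))) (.tok (nat_lit 9) (nat_lit 0x2f00005e0000bf1c497eeedafd4f3) (.hit (nat_lit 162)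 (nat_lit 20) (nat_lit 0x2f00005e0000bf1c497eeedafd4f3) b13559 (.hit (nat_lit 163) (nat_lit 28) (nat_lit 0x2f00005e0000beeb857e8d52fc8c2) b13560 (.nil))) (.nil))))) (.tok (nat_lit 62) (nat_lit 0x2f00005e0000bf8c857fcf52ff102) (.hit (nat_lit 170) (nat_lit 0) (nat_lit 0x2f00005e0000bf4d117f6f92fdeee) b13563 (.one (nat_lit 3) (nat_lit 171) (nat_lit 1) (nat_lit 0x2f00005e0000bed94d7e68e2fc434) b13564 (.tok (nat_lit 6) (nat_lit 0x2f00005e0000bf03d17ebdeafced5) (.hit (nat_lit 172) (nat_lit 7) (nat_lit 0x2f00005e0000bf03d17ebdeafced5) b13567 (.hit (nat_lit 173) (nat_lit 15) (nat_lit 0x2f00005e0000beeb6d7e8d22fc8bc) b13568 (.nil))) (.tok (nat_lit 9) (nat_lit 0x2f00005e0000bf8c857fcf52ff102) (.hit (nat_lit 174) (nat_lit 20) (nat_lit 0x2f00005e0000bf8c857fcf52ff102) b13565 (.hit (nat_lit 175) (nat_lit 28) (nat_lit 0x2f00005e0000bef18d7e9962fca44) b13566 (.nil))) (.nil))))) (.tok (nat_lit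 65) (nat_lit 0x2f00005e0000bfa2dd800222ff410) (.hit (nat_lit 181) (nat_lit 0) (nat_lit 0x2f00005e0000bf8e9d7fd2faff13b) b13569 (.one (nat_lit 3) (nat_lit 182) (nat_lit 1) (nat_lit 0x2f00005e0000bf6ab57f82dafe2fd) b13570 (.tok (nat_lit 6) (nat_lit 0x2f00005e0000bfa2dd7fbdc2ff16a) (.hit (nat_lit 183) (nat_lit 7) (nat_lit 0x2f00005e0000bf48457f46d2fdff2) b13573 (.hit (nat_lit 184) (nat_lit 15) (nat_lit 0x2f00005e0000bfa2dd7fbdc2ff16a) b13574 (.nil))) (.tok (nat_lit 9) (nat_lit 0x2f00005e0000bf8875800222ff410) (.hit (nat_lit 185) (nat_lit 20) (nat_lit 0x2f00005e0000bf8875800222ff410) b13571 (.hit (nat_lit 186) (nat_lit 28) (nat_lit 0x2f00005e0000bf74957fa32afeb06) b13572 (.nil))) (.nil))))) (.tok (nat_lit 68) (nat_lit 0x2f00005e0000bf66317f82aafe76d) (.hit (nat_lit 209) (nat_lit 0) (nat_lit 0x2f00005e0000bf66317f82aafe76d) b13575 (.one (nat_lit 3) (nat_lit 210) (nat_lit 1) (nat_lit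 0x2f00005e0000bec5017e404afbf21) b13553 (.tok (nat_lit 6) (nat_lit 0x2f00005e0000bf610d7f7862fe624) (.hit (nat_lit 211) (nat_lit 7) (nat_lit 0x2f00005e0000bf32297f1a9afda6b) b13554 (.hit (nat_lit 212) (nat_lit 15) (nat_lit 0x2f00005e0000bf610d7f7862fe624) b13576 (.nil))) (.tok (nat_lit 9) (nat_lit 0x2f00005e0000bf311d7f1882fda28) (.hit (nat_lit 213) (nat_lit 20) (nat_lit 0x2f00005e0000bf311d7f1882fda28) b13530 (.hit (nat_lit 214) (nat_lit 28) (nat_lit 0x2f00005e0000becab97e4bbafc08f) b13557 (.nil))) (.nil))))) (.tok (nat_lit 71) (nat_lit 0x2f00005e0000bfa8598006faff7f7) (.hit (nat_lit 195) (nat_lit 0) (nat_lit 0x2f00005e0000bf73317f761afe096) b13577 (.one (nat_lit 3) (nat_lit 196) (nat_lit 1) (nat_lit 0x2f00005e0000bef6657ea312fcb7a) b13578 (.tok (nat_lit 6) (nat_lit 0x2f00005e0000bfa8598006faff7f7) (.hit (nat_lit 197) (nat_lit 7) (nat_lit 0x2f00005e0000bfa8598006faff7f7) b13581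 (.hit (nat_lit 198) (nat_lit 15) (nat_lit 0x2f00005e0000beb6ad7e23a2fbb8c) b13582 (.nil))) (.tok (nat_lit 9) (nat_lit 0x2f00005e0000bf66257f8292fe76a) (.hit (nat_lit 199) (nat_lit 20) (nat_lit 0x2f00005e0000bf51857f5952fe242) b13579 (.hit (nat_lit 200) (nat_lit 28) (nat_lit 0x2f00005e0000bf66257f8292fe76a) b13580 (.nil))) (.nil))))) (.nil))))))))))))))))))))
noncomputable def r20_7 : Rw Blk := .tok (nat_lit 3) (nat_lit 0x2f00005e0000bf7f8d7f0bfafd337) (.hit (nat_lit 18) (nat_lit 0) (nat_lit 0x2f00005e0000bf7f8d7f0bfafd337) b13646 (.tok (nat_lit 6) (nat_lit 0x2f00005e0000bf50997ebb72fcdbb) (.hit (nat_lit 19) (nat_lit 7) (nat_lit 0x2f00005e0000bf3f3d7e98bafc964) b13649 (.hit (nat_lit 20) (nat_lit 15) (nat_lit 0x2f00005e0000bf50997ebb72fcdbb) b13650 (.nil))) (.tok (nat_lit 9) (nat_lit 0x2f00005e0000bf3db57e95aafc902) (.hit (nat_lit 21) (nat_lit 20) (nat_lit 0x2f00005e0000bf3db57e95aafc902)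 b13647 (.hit (nat_lit 22) (nat_lit 28) (nat_lit 0x2f00005e0000bf39157e8c6afc7da) b13648 (.nil))) (.nil)))) (.tok (nat_lit 6) (nat_lit 0x2f00005e0000bfe4197fcfaaff389) (.hit (nat_lit 9) (nat_lit 0) (nat_lit 0x2f00005e0000bf7fd97f39a2fd917) b13637 (.tok (nat_lit 3) (nat_lit 0x2f00005e0000bfae397f59d2fe1fe) (.hit (nat_lit 10) (nat_lit 1) (nat_lit 0x2f00005e0000bf69fd7edb82fcd3d) b13638 (.one (nat_lit 67) (nat_lit 11) (nat_lit 2) (nat_lit 0x2f00005e0000bfae397f59d2fe1fe) b13639 (.nil))) (.tok (nat_lit 6) (nat_lit 0x2f00005e0000bfe4197fcfaaff389) (.hit (nat_lit 12) (nat_lit 7) (nat_lit 0x2f00005e0000bf50197ee892fcecb) b13640 (.hit (nat_lit 16) (nat_lit 15) (nat_lit 0x2f00005e0000bf6a717eeefafd1dc) b13644 (.tok (nat_lit 55) (nat_lit 0x2f00005e0000bfe4197fcfaaff389) (.hit (nat_lit 13) (nat_lit 8) (nat_lit 0x2f00005e0000bfe1797fcfaafebb2) b13641 (.hit (nat_lit 17) (nat_lit 16) (nat_lit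 0x2f00005e0000bfd6a57fb6bafe8ca) b13645 (.tok (nat_lit 6) (nat_lit 0x2f00005e0000bfe4197fc44aff389) (.hit (nat_lit 14) (nat_lit 9) (nat_lit 0x2f00005e0000bfc1457fa1fafe9d6) b13642 (.one (nat_lit 55) (nat_lit 15) (nat_lit 10) (nat_lit 0x2f00005e0000bfe4197fc44aff389) b13643 (.nil))) (.nil)))) (.nil)))) (.nil)))) (.tok (nat_lit 9) (nat_lit 0x2f00005e0000c000018012230032b) (.hit (nat_lit 0) (nat_lit 0) (nat_lit 0x2f00005e0000bfa9657f8212fe643) b13628 (.tok (nat_lit 3) (nat_lit 0x2f00005e0000bfc0617fca02febdf) (.hit (nat_lit 1) (nat_lit 1) (nat_lit 0x2f00005e0000bf4ce17f1bcafd557) b13629 (.one (nat_lit 55) (nat_lit 2) (nat_lit 3) (nat_lit 0x2f00005e0000bfc0617fca02febdf) b13630 (.nil))) (.tok (nat_lit 9) (nat_lit 0x2f00005e0000c000018012230032b) (.hit (nat_lit 3) (nat_lit 20) (nat_lit 0x2f00005e0000bfb3317f216afd961) b13631 (.hit (nat_lit 7) (nat_lit 28) (nat_lit 0x2f00005e0000bf6d957f32e2fd872)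 b13635 (.tok (nat_lit 67) (nat_lit 0x2f00005e0000c000018012230032b) (.hit (nat_lit 4) (nat_lit 21) (nat_lit 0x2f00005e0000bfee498012230032b) b13632 (.hit (nat_lit 8) (nat_lit 29) (nat_lit 0x2f00005e0000bfc3e17fd5a2ff2ae) b13636 (.tok (nat_lit 9) (nat_lit 0x2f00005e0000c000017fd7d2ffef4) (.hit (nat_lit 5) (nat_lit 22) (nat_lit 0x2f00005e0000bfe6bd7fd7d2ffe2c) b13633 (.one (nat_lit 67) (nat_lit 6) (nat_lit 23) (nat_lit 0x2f00005e0000c000017fd1f2ffef4) b13634 (.nil))) (.nil)))) (.nil)))) (.nil)))) (.nil)))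
noncomputable def r20_8 : Rw Blk := .tok (nat_lit 3) (nat_lit 0x2f00005e0000bf4dd17f1edafde71) (.hit (nat_lit 14) (nat_lit 0) (nat_lit 0x2f00005e0000bf4dd17f1edafde71) b13665 (.tok (nat_lit 6) (nat_lit 0x2f00005e0000bf134d7eadaafd28e) (.hit (nat_lit 15) (nat_lit 7) (nat_lit 0x2f00005e0000bf134d7eadaafd28e) b13668 (.hit (nat_lit 16) (nat_lit 15) (nat_lit 0x2f00005e0000bf05997e9242fcf21) b13669 (.nil))) (.tok (nat_lit 9) (nat_lit 0x2f00005e0000beea717e5bf2fc857) (.hit (nat_lit 17) (nat_lit 20) (nat_lit 0x2f00005e0000bed4b57e307afc2e8) b13666 (.hit (nat_lit 18) (nat_lit 28) (nat_lit 0x2f00005e0000beea717e5bf2fc857) b13667 (.nil))) (.nil)))) (.tok (nat_lit 6) (nat_lit 0x2f00005e0000c00001800003008fe) (.hit (nat_lit 9) (nat_lit 0) (nat_lit 0x2f00005e0000bf9ecd7f5adafec2c) b13660 (.tok (nat_lit 3) (nat_lit 0x2f00005e0000c00001800003008fe) (.hit (nat_lit 10) (nat_lit 1) (nat_lit 0x2f00005e0000bf9f557f6da2fed5d)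 b13661 (.one (nat_lit 67) (nat_lit 11) (nat_lit 2) (nat_lit 0x2f00005e0000c00001800003008fe) b13662 (.nil))) (.tok (nat_lit 6) (nat_lit 0x2f00005e0000bfc9e97fbeeaff17d) (.hit (nat_lit 12) (nat_lit 7) (nat_lit 0x2f00005e0000bfc9e97fbeeaff00f) b13663 (.hit (nat_lit 13) (nat_lit 15) (nat_lit 0x2f00005e0000bf7d817f6b6aff17d) b13664 (.nil))) (.nil)))) (.tok (nat_lit 9) (nat_lit 0x2f00005e0000bf851d7f8b42fee41) (.hit (nat_lit 0) (nat_lit 0) (nat_lit 0x2f00005e0000bf851d7f804afe803) b13651 (.tok (nat_lit 3) (nat_lit 0x2f00005e0000bf562d7f336afe346) (.hit (nat_lit 1) (nat_lit 1) (nat_lit 0x2f00005e0000bf0b997e9e42fd0a1) b13652 (.one (nat_lit 55) (nat_lit 2) (nat_lit 3) (nat_lit 0x2f00005e0000bf562d7f336afe346) b13653 (.nil))) (.tok (nat_lit 9) (nat_lit 0x2f00005e0000bf82197f8b42fee41) (.hit (nat_lit 3) (nat_lit 20) (nat_lit 0x2f00005e0000bef9c17e7a92fcc2b) b13654 (.hit (nat_lit 7) (nat_lit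 28) (nat_lit 0x2f00005e0000bf0f317ea572fd187) b13658 (.tok (nat_lit 67) (nat_lit 0x2f00005e0000bf82197f8b42fee41) (.hit (nat_lit 4) (nat_lit 21) (nat_lit 0x2f00005e0000bf57497f35a2fe38d) b13655 (.hit (nat_lit 8) (nat_lit 29) (nat_lit 0x2f00005e0000bf82197f8b42fee41) b13659 (.tok (nat_lit 9) (nat_lit 0x2f00005e0000bf80257f875afedc4) (.hit (nat_lit 5) (nat_lit 22) (nat_lit 0x2f00005e0000bf42157f0b3afde40) b13656 (.one (nat_lit 67) (nat_lit 6) (nat_lit 23) (nat_lit 0x2f00005e0000bf80257f875afedc4) b13657 (.nil))) (.nil)))) (.nil)))) (.nil)))) (.nil)))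
noncomputable def r20_9 : Rw Blk := .tok (nat_lit 3) (nat_lit 0x2f00005e0000bf8cc97f28eafe1f1) (.hit (nat_lit 14) (nat_lit 0) (nat_lit 0x2f00005e0000bf8cc97f28eafe1f1) b13684 (.tok (nat_lit 6) (nat_lit 0x2f00005e0000bf429d7edb32fd9d7) (.hit (nat_lit 15) (nat_lit 7) (nat_lit 0x2f00005e0000bf429d7edb32fd9d7) b13687 (.hit (nat_lit 16) (nat_lit 15) (nat_lit 0x2f00005e0000beaa257daa42fb3b9) b13688 (.nil))) (.tok (nat_lit 9) (nat_lit 0x2f00005e0000bf562d7f0252fdebb) (.hit (nat_lit 17) (nat_lit 20) (nat_lit 0x2f00005e0000bf562d7f0252fdebb) b13685 (.hit (nat_lit 18) (nat_lit 28) (nat_lit 0x2f00005e0000bf401d7ed632fd937) b13686 (.nil))) (.nil)))) (.tok (nat_lit 6) (nat_lit 0x2f00005e0000bfdb0d800c12ffff3) (.hit (nat_lit 0) (nat_lit 0) (nat_lit 0x2f00005e0000bfcbe97fbfd2ff546) b13670 (.tok (nat_lit 3) (nat_lit 0x2f00005e0000bf9ea17f933aff0d8) (.hit (nat_lit 1) (nat_lit 1) (nat_lit 0x2f00005e0000bf564d7f0292fdec3)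 b13671 (.one (nat_lit 67) (nat_lit 2) (nat_lit 2) (nat_lit 0x2f00005e0000bf9ea17f933aff0d8) b13672 (.nil))) (.tok (nat_lit 6) (nat_lit 0x2f00005e0000bfdb0d800c12ffff3) (.hit (nat_lit 3) (nat_lit 7) (nat_lit 0x2f00005e0000bf4ab57eeb62fdbdd) b13673 (.hit (nat_lit 7) (nat_lit 15) (nat_lit 0x2f00005e0000bf4e957ef322fdcd5) b13677 (.tok (nat_lit 55) (nat_lit 0x2f00005e0000bfdb0d800c12ffff3) (.hit (nat_lit 4) (nat_lit 8) (nat_lit 0x2f00005e0000bfa3257f9c42ff1f9) b13674 (.hit (nat_lit 8) (nat_lit 16) (nat_lit 0x2f00005e0000bfc3bd7fdd72ffa1f) b13678 (.tok (nat_lit 6) (nat_lit 0x2f00005e0000bfdb0d800c12ffff3) (.hit (nat_lit 5) (nat_lit 9) (nat_lit 0x2f00005e0000bfa3397f9c6aff1fe) b13675 (.one (nat_lit 55) (nat_lit 6) (nat_lit 10) (nat_lit 0x2f00005e0000bfdb0d800c12ffff3) b13676 (.nil))) (.nil)))) (.nil)))) (.nil)))) (.tok (nat_lit 9) (nat_lit 0x2f00005e0000c000017fe65b00000) (.hit (nat_lit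 9) (nat_lit 0) (nat_lit 0x2f00005e0000c000017f5daafed06) b13679 (.tok (nat_lit 3) (nat_lit 0x2f00005e0000bfebd57fad0b00000) (.hit (nat_lit 10) (nat_lit 1) (nat_lit 0x2f00005e0000bf69397f1d2afe2ea) b13680 (.one (nat_lit 55) (nat_lit 11) (nat_lit 3) (nat_lit 0x2f00005e0000bfebd57fad0b00000) b13681 (.nil))) (.tok (nat_lit 9) (nat_lit 0x2f00005e0000bfcb097fe65afff5d) (.hit (nat_lit 12) (nat_lit 20) (nat_lit 0x2f00005e0000bfcb097fe65afff5d) b13682 (.hit (nat_lit 13) (nat_lit 28) (nat_lit 0x2f00005e0000bf741d7f3772fe633) b13683 (.nil))) (.nil)))) (.nil)))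
noncomputable def r20_10 : Rw Blk := .tok (nat_lit 6) (nat_lit 0x2f00005e0000bfdff18065a300555) (.hit (nat_lit 0) (nat_lit 0) (nat_lit 0x2f00005e0000bfdff18065a300555) b13689 (.tok (nat_lit 3) (nat_lit 0x2f00005e0000bf36217f6072feeee) (.hit (nat_lit 1) (nat_lit 1) (nat_lit 0x2f00005e0000bec2517e78d2fd1fa) b13690 (.one (nat_lit 14) (nat_lit 2) (nat_lit 4) (nat_lit 0x2f00005e0000bf26657f40fafeaff) b13691 (.one (nat_lit 56) (nat_lit 3) (nat_lit 6) (nat_lit 0x2f00005e0000bf36217f6072feeee) b13692 (.nil)))) (.tok (nat_lit 40) (nat_lit 0x2f00005e0000bf49057f863aff3a7) (.hit (nat_lit 4) (nat_lit 33) (nat_lit 0x2f00005e0000bf32ed7f5a0afee21) b13693 (.hit (nat_lit 5) (nat_lit 34) (nat_lit 0x2f00005e0000bf49057f863aff3a7) b13694 (.nil))) (.tok (nat_lit 43) (nat_lit 0x2f00005e0000bf7a717fe91300002) (.hit (nat_lit 6) (nat_lit 35) (nat_lit 0x2f00005e0000bf7a717fe91300002) b13697 (.hit (nat_lit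 7) (nat_lit 36) (nat_lit 0x2f00005e0000bf64057fbc3affa67) b13698 (.nil))) (.tok (nat_lit 46) (nat_lit 0x2f00005e0000bf77157fe25afff2b) (.hit (nat_lit 8) (nat_lit 37) (nat_lit 0x2f00005e0000bf77157fe25afff2b) b13695 (.hit (nat_lit 9) (nat_lit 38) (nat_lit 0x2f00005e0000bf69817fc732ffbc6) b13696 (.nil))) (.nil)))))) (.tok (nat_lit 9) (nat_lit 0x2f00005e0000c09681823abb04691) (.hit (nat_lit 10) (nat_lit 0) (nat_lit 0x2f00005e0000c010958138eb0256f) b13699 (.tok (nat_lit 3) (nat_lit 0x2f00005e0000bfb50d80336b008b7) (.hit (nat_lit 11) (nat_lit 1) (nat_lit 0x2f00005e0000bf68517f7b82ff042) b13700 (.one (nat_lit 14) (nat_lit 12) (nat_lit 4) (nat_lit 0x2f00005e0000bfb50d801fcb008b7) b13701 (.one (nat_lit 68) (nat_lit 13) (nat_lit 5) (nat_lit 0x2f00005e0000bfa94980336b00589) b13702 (.nil)))) (.tok (nat_lit 40) (nat_lit 0x2f00005e0000bf9c19805bf300842) (.hit (nat_lit 14) (nat_lit 33) (nat_lit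 0x2f00005e0000bf9c19805bf300842) b13703 (.hit (nat_lit 15) (nat_lit 34) (nat_lit 0x2f00005e0000bf95b980075b0054c) b13704 (.nil))) (.tok (nat_lit 43) (nat_lit 0x2f00005e0000bfe25980c7930160e) (.hit (nat_lit 16) (nat_lit 35) (nat_lit 0x2f00005e0000bf5b057faa3aff827) b13707 (.hit (nat_lit 17) (nat_lit 36) (nat_lit 0x2f00005e0000bfe25980c7930160e) b13708 (.nil))) (.tok (nat_lit 46) (nat_lit 0x2f00005e0000c09681823abb04691) (.hit (nat_lit 18) (nat_lit 37) (nat_lit 0x2f00005e0000c09681823abb04691) b13705 (.hit (nat_lit 19) (nat_lit 38) (nat_lit 0x2f00005e0000bf58397fb7daffc92) b13706 (.nil))) (.nil)))))) (.nil))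
noncomputable def r20_11 : Rw Blk := .tok (nat_lit 6) (nat_lit 0x1780002f0000600000c031518071530027d) (.hit (nat_lit 0) (nat_lit 0) (nat_lit 0x1780002f00005fe9c6bfdf357fdf92feda7) b13709 (.tok (nat_lit 3) (nat_lit 0x1780002f00005ff7bec024c1807152ff5d7) (.hit (nat_lit 1) (nat_lit 1) (nat_lit 0x1780002f00005f9a10bf6f217ee572fc8f0) b13710 (.one (nat_lit 14) (nat_lit 2) (nat_lit 4) (nat_lit 0x1780002f00005ff7bec024c1807152ff5d7) b13711 (.one (nat_lit 56) (nat_lit 3) (nat_lit 6) (nat_lit 0x1780002f00005fcbe8bfb8a57f94bafe480) b13712 (.nil)))) (.tok (nat_lit 40) (nat_lit 0x1780002f00005fdd70c0130980165aff280) (.hit (nat_lit 4) (nat_lit 33) (nat_lit 0x1780002f00005fd4f2c0130980160aff280) b13713 (.hit (nat_lit 5) (nat_lit 34) (nat_lit 0x1780002f00005fdd70c002c580165aff081) b13714 (.nil))) (.tok (nat_lit 43) (nat_lit 0x1780002f00005ff3dac031518035c30027d) (.hit (nat_lit 6) (nat_lit 35)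 (nat_lit 0x1780002f00005ff3dac031518035c30027d) b13717 (.hit (nat_lit 7) (nat_lit 36) (nat_lit 0x1780002f00005fc79cbff2317fd982ff0bd) b13718 (.nil))) (.tok (nat_lit 46) (nat_lit 0x1780002f0000600000c013f980476b00094) (.hit (nat_lit 8) (nat_lit 37) (nat_lit 0x1780002f00005fb99cbfa7957f5092fe990) b13715 (.hit (nat_lit 9) (nat_lit 38) (nat_lit 0x1780002f0000600000c013f980476b00094) b13716 (.nil))) (.nil)))))) (.tok (nat_lit 9) (nat_lit 0x1780002f00005fe998c01e017ffa12ff5ac) (.hit (nat_lit 10) (nat_lit 0) (nat_lit 0x1780002f00005fbac0bfb8197f689afe8b3) b13719 (.tok (nat_lit 3) (nat_lit 0x1780002f00005fcd40bfa6cd7f4ae2fde9f) (.hit (nat_lit 11) (nat_lit 1) (nat_lit 0x1780002f00005f8d1ebf25a17e8e22fbf9d) b13720 (.one (nat_lit 14) (nat_lit 12) (nat_lit 4) (nat_lit 0x1780002f00005fcd40bf9e5d7f1adafd997) b13721 (.one (nat_lit 68) (nat_lit 13) (nat_lit 5) (nat_lit 0x1780002f00005fb8fabfa6cd7f4ae2fde9f)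 b13722 (.nil)))) (.tok (nat_lit 40) (nat_lit 0x1780002f00005fbd62bfbf5d7f7f22fe171) (.hit (nat_lit 14) (nat_lit 33) (nat_lit 0x1780002f00005fbd62bfbf5d7f7f22fe171) b13723 (.hit (nat_lit 15) (nat_lit 34) (nat_lit 0x1780002f00005fb158bf80197edd8afd7e2) b13724 (.nil))) (.tok (nat_lit 43) (nat_lit 0x1780002f00005fe0bebfe1b97f9e1afef33) (.hit (nat_lit 16) (nat_lit 35) (nat_lit 0x1780002f00005f9938bf66cd7ecf02fd95e) b13727 (.hit (nat_lit 17) (nat_lit 36) (nat_lit 0x1780002f00005fe0bebfe1b97f9e1afef33) b13728 (.nil))) (.tok (nat_lit 46) (nat_lit 0x1780002f00005fe998c01e017ffa12ff5ac) (.hit (nat_lit 18) (nat_lit 37) (nat_lit 0x1780002f00005fe998c01e017ffa12ff5ac) b13725 (.hit (nat_lit 19) (nat_lit 38) (nat_lit 0x1780002f00005fa7f4bf7d757f1e9afdf08) b13726 (.nil))) (.nil)))))) (.nil))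
noncomputable def r20_12 : Rw Blk := .tok (nat_lit 3) (nat_lit 0xc01e75801853011bc6021a4c00c0580d7cb00e5c60288ec02925808cfb0266c605316c0812581748b0258a6050ccc0abd18141ab0248d) (.hit (nat_lit 15) (nat_lit 0) (nat_lit 0xbf6e097f1722ff1745fda1abf75c17fbd62ff35c5ff53abfad2d80439b007955feab0bfc51d7fa4aaff41d5fed32bfe5217fc58afeb4d) b13744 (.tok (nat_lit 6) (nat_lit 0xbf72b97f214aff6875fc42ebf6805800bb2fd8ed5fbadebf57817f48eafe8ba5ff6d8bfc40d7fec6b000dc600972c020d57fbd2aff3e3) (.hit (nat_lit 16) (nat_lit 7) (nat_lit 0xbf04c17e889afd6105f8d32befa0d7f0e2afbd6f5f83e2bee9897dd42afc8b55fc906bf75657f372afe3bb5fcf6ebfac017f1d6afdaf7) b13745 (.hit (nat_lit 21) (nat_lit 15) (nat_lit 0xbe96dd7e2222fc6215f5640be8c297ed29afa1f65f4cf0be7ba57e4cf2fc8e85f7f06bef8157e0b32fc5935f9636bf34a57e536afc10c) b13750 (.tok (nat_lit 14) (nat_lit 0xbf43997f214aff6875fac9ebf38e57fc69afcd255fa34ebf28617f48eafe8ba5ff6d8bfb2f17fec6b000dc600972c020d57fbd2aff3e3)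 (.hit (nat_lit 17) (nat_lit 11) (nat_lit 0xbf39e17ed8fafe8d75fa7c2bf2f2d7f9572fcab75f9e72bf1ea97e7872fd5fd5fe0acbf82997f7dfafefff5ff686bffa997f6aeafe6e2) b13746 (.hit (nat_lit 22) (nat_lit 17) (nat_lit 0xbf385d7f022afe2ab5fa700bf2da97fb5a2fca565f9db0bf1d257f48eafe8ba5fb800bf71e97ee932fdaf95fcc56bfac297efecafe2d0) b13751 (.one (nat_lit 9) (nat_lit 18) (nat_lit 12) (nat_lit 0xbf43997f214aff6875fac9ebf38e57fc69afcd255fa34ebf28617ea4bafd86b5ff6d8bfb2f17fec6b000dc600972c020d57fbd2aff3e3) b13747 (.nil)))) (.tok (nat_lit 56) (nat_lit 0xbf72b97edba2ff6815fc42ebf6805800bb2fd8ed5fbadebf57817ec7d2fe4335fefd0bfc40d7fcbeaff9f65ffa58c005057fb96afef34) (.hit (nat_lit 19) (nat_lit 13) (nat_lit 0xbf26017ec0f2fdce95f9dd2bf1b4d7f8dcafc5bf5f9482bf0ac97e22aafd1055fd62ebf80397f667afe60d5fd5f6bfbc117f335afddac) b13748 (.hit (nat_lit 24) (nat_lit 19) (nat_lit 0xbf1a117e90a2fd6095f97dabf0f5d7f470afc2c35f8e8abefed97ec7d2fd8735fb58cbf5d9d7edbb2fd7db5fc68abf90f57ee5bafd468)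 b13753 (.one (nat_lit 6) (nat_lit 20) (nat_lit 14) (nat_lit 0xbf72b97edba2ff6815fc42ebf6805800bb2fd8ed5fbadebf57817eb01afe4335fefd0bfc40d7fcbeaff9f65ffa58c005057fb96afef34) b13749 (.nil)))) (.one (nat_lit 68) (nat_lit 23) (nat_lit 18) (nat_lit 0xbf5ce97ef4c2fde165fb946bf52357f4f12fd3795faff6bf41b17f19a2fe2ee5fc3f0bf77e17f148afde6c5fd510bfb2c17f1a8afdcf5) b13752 (.nil)))))) (.tok (nat_lit 52) (nat_lit 0xbf59e97f4bbafee275fb7c6bf4f357fc002fd2b95fae76bf3eb17f9ac2ff39060058abfca597fe99aff213600daec00ebd7fb78afefda) (.hit (nat_lit 25) (nat_lit 39) (nat_lit 0xbf51f17ea69afe0b65fb3cabf473d7f3922fd0bb5faa7abf36b97f0802fe24a5fcd84bf7cc17f3a2afe3aa5fe12ebfd4097f816afe2e3) b13754 (.hit (nat_lit 26) (nat_lit 40) (nat_lit 0xbf59e97f4bbafee275fb7c6bf4f357fc002fd2b95fae76bf3eb17f9ac2ff39060058abfca597fe99aff213600daec00ebd7fb78afefda) b13755 (.nil))) (.tok (nat_lit 55) (nat_lit 0xc01e75801853011bc6021a4c00c0580d7cb00e5c60288ec02925808cfb0266c605316c0812581748b0258a6050ccc0abd18141ab0248d)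 (.hit (nat_lit 27) (nat_lit 41) (nat_lit 0xc01e75801853011766021a4c00c0580d7cb00e5c60288ec02925808cfb0266c603fd0c081258167630258a6050ccc0abd18141ab0248d) b13756 (.tok (nat_lit 3) (nat_lit 0xbf90797f936b006905fd30ebf85c580109afe05d5fc9bebf75417f2912feba3601142c0002d80461b010c860287cc066fd802e3affe49) (.hit (nat_lit 33) (nat_lit 47) (nat_lit 0xbf7a997f2ce3000c35fc81ebf6fe580109afdae55fbecebf5f617ef63afe62b600fd4c0002d80334300e23602196c0448d802e3affe49) b13762 (.one (nat_lit 67) (nat_lit 34) (nat_lit 48) (nat_lit 0xbf90797f936b006905fd30ebf85c57fd54afe05d5fc9bebf75417f2912feba3601142bfdecd80461b010c860287cc066fd7ff7e2ffd0b) b13763 (.nil))) (.tok (nat_lit 6) (nat_lit 0xbf77117f7b63011bc5fc65abf6c5d80407afda035fbd0abf5bd97ecfcafe549605316c05e2981748b022dd60427ac08cb980cdb3015a1) (.hit (nat_lit 28) (nat_lit 42) (nat_lit 0xbf5fdd7ee872ff32b5fbac0bf55297fdbb2fd4365fb170bf44a57ebaf2fdf7c6015e4c02e65806d4b0074160229cc03e018070b300355)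 b13757 (.hit (nat_lit 31) (nat_lit 45) (nat_lit 0xbf727d7f489aff86d5fc410bf67c98024dafd8de5fbac0bf57457eafa2fe424602bb4c00ccd80ba3300925601d74c04205803f7300166) b13760 (.tok (nat_lit 55) (nat_lit 0xbf77117f7b63011bc5fc65abf6c5d80407afda035fbd0abf5bd97ecfcafe549605316c05e2981748b022dd60427ac08cb980cdb3015a1) (.hit (nat_lit 29) (nat_lit 43) (nat_lit 0xbf6cb17f0722ffb8a5fc12abf61fd802372fd76b5fb7dabf51797ecfcafe2b1601f04c0318d80ad130110b60264ec062dd8092c30101a) b13758 (.hit (nat_lit 32) (nat_lit 46) (nat_lit 0xbf77117f7b63011bc5fc65abf6c5d80407afda035fbd0abf5bd97eb8cafe549605316c05e2981748b022dd60427ac08cb980cdb3015a1) b13761 (.one (nat_lit 6) (nat_lit 30) (nat_lit 44) (nat_lit 0xbf51017ebea2ff7235fb352bf464d7f3742fd07f5faa02bf35c97e9122fdbc56019bac00b35806823006e3601934c03ce1805b8300771) b13759 (.nil)))) (.nil)))) (.nil)))) (.one (nat_lit 58) (nat_lit 35) (nat_lit 49) (nat_lit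 0xbf670d7f638afef265fbe58bf5c597fd162fd6025fb508bf4bd5800c73000f760013ebfe2197ff46affb23601250c024657fe22aff8fa) b13764 (.nil)))))) (.tok (nat_lit 9) (nat_lit 0xc0748d80df6b02c0e604350c06575810e7302afb606684c0bc51816d6b03900607802c0e065819473023f9605e06c0891d81618b02b56) (.hit (nat_lit 0) (nat_lit 0) (nat_lit 0xbfe5e980a0c3013a260150ec0015d80e47b0047f601816c020c5805f1300e696005b8bff0517ffb230000c6006a4c00b8d802733005a0) b13729 (.tok (nat_lit 9) (nat_lit 0xc03169807b8301c03603ac0c040a9810e73005b7601ba8c0292d80791300973607802c0e065819473023f9605e06c0891d81618b0297e) (.hit (nat_lit 1) (nat_lit 20) (nat_lit 0xbfc4f17e9242fde22601f7ebfe8317fd6b2fe6765fe978bfb4d17f5042ff3c85fdb54bfb5457f5b4afdc105fcf62bf83817f0752febac) b13730 (.hit (nat_lit 4) (nat_lit 28) (nat_lit 0xbf2cc97ea2fafdb245fc206bf54dd7f7c32fd8385fbea0bf6fe17ef0c2fe79a5f9cf8bf34fd7e84a2fcd4a5fa02cbf48a57e9122fdb63) b13733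 (.tok (nat_lit 14) (nat_lit 0xc0316980115301c03603ac0c040a98105db005b7601ba8c0292d80791300973607802c0e065819473023f9605e06c0891d81618b0297e) (.hit (nat_lit 2) (nat_lit 24) (nat_lit 0xc031697fde6b008186039bac040a9800fcaffa5d6004eabffcc980452affbff5ff524bfe1f17fc392fec8e5fe232bfc0f17f8d3b00c2f) b13731 (.hit (nat_lit 5) (nat_lit 30) (nat_lit 0xbf5a9d7f8eaafe8335fd10abf71797feedafec895fe744bfbb557fa86affad25fc1bebf7ea57f17cafde8d5fc092bf8a417f1b3afee44) b13734 (.one (nat_lit 6) (nat_lit 3) (nat_lit 25) (nat_lit 0xc00e5580115301c03603ac0c030ad8105db005b7601ba8c0292d80791300973607802c0e065819473023f9605e06c0891d81618b0297e) b13732 (.nil)))) (.one (nat_lit 56) (nat_lit 6) (nat_lit 31) (nat_lit 0xbf9e55807b83012015ff41abfc2a9810e72ff71a5ff49cbfe0557fffdb004f15fdab8bfd7557fad1aff62d5fe204bfcd917fd842ff904) b13735 (.nil))))) (.tok (nat_lit 64) (nat_lit 0xc0748d8074e301134604350c05511804ddb0262b60500ec0904980b8e3039005fe5ecbfc2dd7f9e3aff3885fdccebfc8a97f9afb021c4)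 (.hit (nat_lit 7) (nat_lit 50) (nat_lit 0xc0748d8074e301134604350c055117f66e30262b60500ec0904980b8e3039005fe27abfbd417f8532ff3885fdccebfb3217f9afb021c4) b13736 (.hit (nat_lit 8) (nat_lit 51) (nat_lit 0xc02b0d7febcaff98a6038d0c03ffd804ddaff8f96008fabff36d8037cb013ea5fe5ecbfc2dd7f9e3afeb645fdc6abfc8a97f82aaffe99) b13737 (.nil))) (.tok (nat_lit 67) (nat_lit 0xc0565980df6b02c0e604014c0657580f91b02afb606684c0bc51816d6b037ec606afec09f59816ca30146b604350c051c980d9f302b56) (.hit (nat_lit 9) (nat_lit 52) (nat_lit 0xc0565980df6b02c0e603ba8c0528d80f91b02afb606684c0bc51816d6b037ec6037e8c03e7180995afffda60135ec02dad804ddb02b56) b13738 (.tok (nat_lit 3) (nat_lit 0xc03af17fbd830043e603b2ec06575809a3b007996029b8c0372580301300fa96044e2c07d9580cc23003076025c2c00d7580556b00fd1) (.hit (nat_lit 12) (nat_lit 58) (nat_lit 0xc03ad57f6f8aff8b3602ee2c03ce180601300502601e96c029918024f300fa96022aac02d01803f22ff3b4600ee8bfdf6d7fd863004c0)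 b13741 (.one (nat_lit 55) (nat_lit 13) (nat_lit 59) (nat_lit 0xc03af17fbd830043e603b2ec06575809a3b007996029b8c03725803013009f96044e2c07d9580cc23003076025c2c00d7580556b00fd1) b13742 (.nil))) (.tok (nat_lit 9) (nat_lit 0xc01aa180192301545604014c0475d808e730129d603380c0566580997b02819606afec09f59816ca30146b604350c051c980d9f301932) (.hit (nat_lit 10) (nat_lit 53) (nat_lit 0xbfca1980192300ebf5fefa4bfbde17fb57b0129d603380c0566580997b02819600a2cc00639801052ffd7c6004f8bff699801c2301564) b13739 (.hit (nat_lit 11) (nat_lit 56) (nat_lit 0xc01aa17fc99b01545604014c0475d808e730034b6022f0c01c09805e5b00cdf606afec09f59816ca30146b604350c051c980d9f301932) b13740 (.nil))) (.nil)))) (.one (nat_lit 70) (nat_lit 14) (nat_lit 60) (nat_lit 0xc0000d800d72ff835602592c03049803e0b0033460231ac03dfd807843018825ff7d8bfedfd7fd5daffb0f5fefb0bfe0ad7ff66b00dd4) b13743 (.nil)))))) (.nil))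
noncomputable def r20_13 : Rw Blk := .tok (nat_lit 9) (nat_lit 0x1780003037bd608670c1249982655b04710) (.hit (nat_lit 18) (nat_lit 0) (nat_lit 0x1780002ff4f55ff76ac004ed805b530085c) b13783 (.tok (nat_lit 14) (nat_lit 0x1780003018f6602ac6c09c0d817c4b028af) (.hit (nat_lit 19) (nat_lit 61) (nat_lit 0x1780002ffea9602ac6c04b818112a30258a) b13784 (.one (nat_lit 3) (nat_lit 20) (nat_lit 62) (nat_lit 0x1780002ff9146001c4c0697980d34301933) b13785 (.tok (nat_lit 6) (nat_lit 0x1780003018f6602924c09c0d817c4b028af) (.hit (nat_lit 23) (nat_lit 65) (nat_lit 0x1780003018f6602924c09c0d817c4b028af) b13786 (.hit (nat_lit 24) (nat_lit 66) (nat_lit 0x1780002fefea5fdeb2c00009800b7b006ef) b13787 (.nil))) (.tok (nat_lit 9) (nat_lit 0x1780002febcf5fd87ec0287d806c5300af0) (.hit (nat_lit 21) (nat_lit 63) (nat_lit 0x1780002fde5d5fba68bfd2e57f78e2feed0) b13788 (.hit (nat_lit 22) (nat_lit 64) (nat_lit 0x1780002febcf5fd87ec0287d806c5300af0)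 b13789 (.nil))) (.nil))))) (.one (nat_lit 17) (nat_lit 25) (nat_lit 67) (nat_lit 0x1780002ff29b5ff422c0068980ef0b00cae) b13790 (.tok (nat_lit 20) (nat_lit 0x1780002fe3945fc888bfcbf9802bf2ffaa4) (.hit (nat_lit 26) (nat_lit 68) (nat_lit 0x1780002fdca25fb6f2bfcbf97f6b0afed15) b13793 (.hit (nat_lit 27) (nat_lit 69) (nat_lit 0x1780002fe3945fc888bfc061802bf2ffaa4) b13794 (.nil))) (.tok (nat_lit 23) (nat_lit 0x1780003037bd608670c1249982655b04710) (.hit (nat_lit 28) (nat_lit 70) (nat_lit 0x1780003037bd608670c1249982655b04710) b13791 (.hit (nat_lit 29) (nat_lit 71) (nat_lit 0x1780002fdc985fbddabf95cd7f69a2fed27) b13792 (.nil))) (.one (nat_lit 26) (nat_lit 30) (nat_lit 72) (nat_lit 0x1780002fdf075fbb24bfac9d7fdcd2fed90) b13795 (.one (nat_lit 29) (nat_lit 31) (nat_lit 73) (nat_lit 0x1780002fe4ac5fdea6c000dd806a8b0053a) b13796 (.one (nat_lit 32) (nat_lit 32) (nat_lit 74) (nat_lit 0x1780002febe05fddfac00d898090b3005bc)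 b13798 (.one (nat_lit 35) (nat_lit 33) (nat_lit 75) (nat_lit 0x1780002fdd6b5fb4e0bf7c0d7f4b42fe691) b13797 (.one (nat_lit 38) (nat_lit 34) (nat_lit 76) (nat_lit 0x1780002fe2305fc240bfa7197fb25aff17a) b13799 (.tok (nat_lit 41) (nat_lit 0x1780002fedfa5ff128c01a2d8131230139c) (.hit (nat_lit 35) (nat_lit 77) (nat_lit 0x1780002fd52d5fb70ebfd5c57fda1affb8d) b13800 (.hit (nat_lit 36) (nat_lit 78) (nat_lit 0x1780002fedfa5ff128c01a2d8131230139c) b13801 (.nil))) (.tok (nat_lit 44) (nat_lit 0x1780002fe66d5fd486bfe6a180a233003f7) (.hit (nat_lit 37) (nat_lit 79) (nat_lit 0x1780002fc9c35f9134bf807d7ed412fda36) b13804 (.hit (nat_lit 38) (nat_lit 80) (nat_lit 0x1780002fe66d5fd486bfe6a180a233003f7) b13805 (.nil))) (.tok (nat_lit 47) (nat_lit 0x1780002fdd995fecb4c0105d80733b010b5) (.hit (nat_lit 39) (nat_lit 81) (nat_lit 0x1780002fdd995fecb4c0105d80733b010b5) b13802 (.hit (nat_lit 40) (nat_lit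 82) (nat_lit 0x1780002fd55d5fc3c6bfa8817fdb22ff4f7) b13803 (.nil))) (.one (nat_lit 50) (nat_lit 41) (nat_lit 83) (nat_lit 0x1780002fede75fd648bfbf517ff172ff6d2) b13806 (.tok (nat_lit 53) (nat_lit 0x1780002ff0925fe3b6c0084d80973b00b6b) (.hit (nat_lit 42) (nat_lit 84) (nat_lit 0x1780002fe46f5fd824c0084d8009bb002a7) b13807 (.hit (nat_lit 43) (nat_lit 85) (nat_lit 0x1780002ff0925fe3b6c005f980973b00b6b) b13808 (.nil))) (.tok (nat_lit 56) (nat_lit 0x17800030089a5fdd50c02d4980114b00825) (.hit (nat_lit 44) (nat_lit 86) (nat_lit 0x17800030089a5fdd50c02d4980114b00825) b13809 (.one (nat_lit 3) (nat_lit 48) (nat_lit 90) (nat_lit 0x1780002fdd5b5fb864bfcedd7f70d2fedce) b13813 (.tok (nat_lit 6) (nat_lit 0x1780002fd8b35faf14bfbc3d7f4b92fe926) (.hit (nat_lit 46) (nat_lit 88) (nat_lit 0x1780002fd8b35faf14bfbc3d7f4b92fe926) b13811 (.hit (nat_lit 47) (nat_lit 89) (nat_lit 0x1780002fd1ad5fa108bfa0257f1362fe220)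 b13812 (.nil))) (.one (nat_lit 9) (nat_lit 45) (nat_lit 87) (nat_lit 0x1780002fdc355fb618bfca457f67a2feca8) b13810 (.nil))))) (.one (nat_lit 59) (nat_lit 49) (nat_lit 91) (nat_lit 0x1780002fe0de5fc1e4bfad217ffedaff546) b13814 (.nil)))))))))))))))))) (.tok (nat_lit 64) (nat_lit 0x178000302182604a2ac0bf2d8179030290a) (.hit (nat_lit 13) (nat_lit 0) (nat_lit 0x178000301c8a604a2ac0a969816c1b02467) b13778 (.tok (nat_lit 6) (nat_lit 0x1780002ffb945fdf06c01d2d8045fafff52) (.hit (nat_lit 14) (nat_lit 7) (nat_lit 0x1780002fe02e5fbe0abfd8a97f9a12fefd9) b13781 (.hit (nat_lit 15) (nat_lit 15) (nat_lit 0x1780002ffb945fdf06c01d2d8045fafff52) b13782 (.nil))) (.tok (nat_lit 9) (nat_lit 0x178000302182602952c0bf2d8179030290a) (.hit (nat_lit 16) (nat_lit 20) (nat_lit 0x17800030191960200ac0aa798157db02611) b13779 (.hit (nat_lit 17) (nat_lit 28) (nat_lit 0x178000302182602952c0bf2d8179030290a) b13780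 (.nil))) (.nil)))) (.tok (nat_lit 67) (nat_lit 0x1780002ff9db5ff048c03d2580630b008f8) (.hit (nat_lit 8) (nat_lit 0) (nat_lit 0x1780002ff9db5feb04c0329d80560b00656) b13773 (.tok (nat_lit 3) (nat_lit 0x1780002ff8d15fef50c03b35805f2b0087c) (.hit (nat_lit 9) (nat_lit 1) (nat_lit 0x1780002fe88e5fcecabffa297fdd12ff839) b13774 (.one (nat_lit 55) (nat_lit 10) (nat_lit 3) (nat_lit 0x1780002ff8d15fef50c03b35805f2b0087c) b13775 (.nil))) (.tok (nat_lit 9) (nat_lit 0x1780002ff94d5ff048c03d2580630b008f8) (.hit (nat_lit 11) (nat_lit 20) (nat_lit 0x1780002ff94d5ff048c03d2580630b008f8) b13776 (.hit (nat_lit 12) (nat_lit 28) (nat_lit 0x1780002fe4875fc6bcbfea0d7fbcdaff432) b13777 (.nil))) (.nil)))) (.tok (nat_lit 70) (nat_lit 0x178000300f7c601ca6c095e181148301f27) (.hit (nat_lit 0) (nat_lit 0) (nat_lit 0x178000300cae5ff5cac054c580901b012fc) b13765 (.tok (nat_lit 3) (nat_lit 0x178000300f7c601ca6c095e181148301f27)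 (.hit (nat_lit 1) (nat_lit 1) (nat_lit 0x1780002ffb535ff454c0453d80733b00afe) b13766 (.one (nat_lit 67) (nat_lit 2) (nat_lit 2) (nat_lit 0x178000300f7c601ca6c095e181148301f27) b13767 (.nil))) (.tok (nat_lit 6) (nat_lit 0x178000300c43601634c088fd80fabb01bee) (.hit (nat_lit 3) (nat_lit 7) (nat_lit 0x1780002ff6905feacec03231804d230063b) b13768 (.hit (nat_lit 6) (nat_lit 15) (nat_lit 0x1780002ff8a25feef2c03a79805db30084d) b13771 (.tok (nat_lit 55) (nat_lit 0x178000300c43601634c088fd80fabb01bee) (.hit (nat_lit 4) (nat_lit 8) (nat_lit 0x1780003004046005b6c0680180b8c3013af) b13769 (.hit (nat_lit 7) (nat_lit 16) (nat_lit 0x178000300bd2601552c0873980f73301b7d) b13772 (.one (nat_lit 6) (nat_lit 5) (nat_lit 9) (nat_lit 0x178000300c43601634c088fd80fabb01bee) b13770 (.nil)))) (.nil)))) (.nil)))) (.nil))))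
noncomputable def r20_14 : Rw Blk := .tok (nat_lit 3) (nat_lit 0x178000302e10605708c0b7a98193130384a) (.hit (nat_lit 0) (nat_lit 0) (nat_lit 0x178000302e10605626c0b7a9817c23034d8) b13815 (.tok (nat_lit 6) (nat_lit 0x178000300d49602172c0687580e12302392) (.hit (nat_lit 1) (nat_lit 7) (nat_lit 0x1780002fe1ec5fcd5cbfbb017f886aff422) b13816 (.hit (nat_lit 6) (nat_lit 15) (nat_lit 0x1780002fe0f35fdd0abfe1d97fd27b00060) b13821 (.tok (nat_lit 14) (nat_lit 0x1780002ffb21602172c059e980e12302392) (.hit (nat_lit 2) (nat_lit 11) (nat_lit 0x1780002ffa01600cf8c022858086db013f0) b13817 (.hit (nat_lit 7) (nat_lit 17) (nat_lit 0x1780002ffb216014b6c059e980e12302392) b13822 (.one (nat_lit 9) (nat_lit 3) (nat_lit 12) (nat_lit 0x1780002ff692602172c04b7980d8c301e2d) b13818 (.nil)))) (.tok (nat_lit 56) (nat_lit 0x178000300d49601c76c0687580da1301b9a) (.hit (nat_lit 4) (nat_lit 13) (nat_lit 0x1780002ff2af5ffd8ec003b180493300c3b)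 b13819 (.hit (nat_lit 8) (nat_lit 19) (nat_lit 0x1780002ff5ab5ff3c2c01131807fc30129d) b13823 (.one (nat_lit 6) (nat_lit 5) (nat_lit 14) (nat_lit 0x178000300d49601c76c0687580da1301b9a) b13820 (.nil)))) (.nil))))) (.tok (nat_lit 52) (nat_lit 0x178000300a4d603da6c08af181517b02dbe) (.hit (nat_lit 9) (nat_lit 39) (nat_lit 0x178000300a4d603da6c08af1810e8302dbe) b13824 (.hit (nat_lit 10) (nat_lit 40) (nat_lit 0x17800030016c602bf2c07be181517b02d8b) b13825 (.nil))) (.tok (nat_lit 55) (nat_lit 0x178000302c17605708c0adad8193130384a) (.hit (nat_lit 11) (nat_lit 41) (nat_lit 0x178000302c17605708c0adad8193130384a) b13826 (.tok (nat_lit 3) (nat_lit 0x1780003007ac6031e2c06c59811a8302665) (.hit (nat_lit 17) (nat_lit 47) (nat_lit 0x1780003007ac6026dec0565180ee73020e3) b13832 (.one (nat_lit 67) (nat_lit 18) (nat_lit 48) (nat_lit 0x1780003003f16031e2c06c59811a8302665) b13833 (.nil))) (.tok (nat_lit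 6) (nat_lit 0x178000300ec2602f58c06e5981105b02520) (.hit (nat_lit 12) (nat_lit 42) (nat_lit 0x178000300261601df6c0448180cad301c6f) b13827 (.hit (nat_lit 15) (nat_lit 45) (nat_lit 0x1780003001826019ccc03c2d80ba2b01a5a) b13830 (.tok (nat_lit 55) (nat_lit 0x178000300ec2602f58c06e5981105b02520) (.hit (nat_lit 13) (nat_lit 43) (nat_lit 0x178000300ec2602f58c06e5981105b02520) b13828 (.hit (nat_lit 16) (nat_lit 46) (nat_lit 0x178000300b926023acc0619980e1ab01f4a) b13831 (.one (nat_lit 6) (nat_lit 14) (nat_lit 44) (nat_lit 0x17800030055d60141cc048c580a36b01782) b13829 (.nil)))) (.nil)))) (.nil)))) (.one (nat_lit 58) (nat_lit 19) (nat_lit 49) (nat_lit 0x1780002ffa36600bb6c06d6580f7ab02218) b13834 (.nil)))))) (.tok (nat_lit 9) (nat_lit 0x17800030353f606c6ec0f229824d0b03f17) (.hit (nat_lit 20) (nat_lit 0) (nat_lit 0x178000303116605f18c0abb981a613031db) b13835 (.tok (nat_lit 9) (nat_lit 0x17800030353f606c6ec0f229824d0b03f17)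 (.hit (nat_lit 21) (nat_lit 20) (nat_lit 0x178000301a07603b42c072e1812eeb01e87) b13836 (.hit (nat_lit 24) (nat_lit 28) (nat_lit 0x178000300b8d6019ccc06e65815cab0197e) b13839 (.tok (nat_lit 14) (nat_lit 0x17800030353f606c6ec0f229824d0b03f17) (.hit (nat_lit 22) (nat_lit 24) (nat_lit 0x17800030282760556ac0c75182084303300) b13837 (.hit (nat_lit 25) (nat_lit 30) (nat_lit 0x17800030222860416ac0b9a581b9e302d5a) b13840 (.one (nat_lit 6) (nat_lit 23) (nat_lit 25) (nat_lit 0x17800030353f606c6ec0f229824d0b03f17) b13838 (.nil)))) (.one (nat_lit 56) (nat_lit 26) (nat_lit 31) (nat_lit 0x1780003033566067e4c0e62d821fab0364c) b13841 (.nil))))) (.nil))) (.nil))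
noncomputable def r20_15 : Rw Blk := .tok (nat_lit 9) (nat_lit 0x1780002f000060b5b8c19d3d8351fb072ac) (.hit (nat_lit 0) (nat_lit 0) (nat_lit 0x1780002f0000603110c098b18181cb02b8c) b13842 (.tok (nat_lit 14) (nat_lit 0x1780002f000060b5b8c19d3d832573072ac) (.hit (nat_lit 1) (nat_lit 61) (nat_lit 0x1780002f00006061a2c105b982015303be4) b13843 (.one (nat_lit 3) (nat_lit 2) (nat_lit 62) (nat_lit 0x1780002f0000604014c0d54d81a7f303b72) b13844 (.tok (nat_lit 6) (nat_lit 0x1780002f000060b5b8c19d3d832573072ac) (.hit (nat_lit 5) (nat_lit 65) (nat_lit 0x1780002f000060b5b8c19d3d832573072ac) b13845 (.hit (nat_lit 6) (nat_lit 66) (nat_lit 0x1780002f0000603176c0934d80fdb30229d) b13846 (.nil))) (.tok (nat_lit 9) (nat_lit 0x1780002f0000603b58c08fdd81339303052) (.hit (nat_lit 3) (nat_lit 63) (nat_lit 0x1780002f0000603b58c08fdd81339303052) b13847 (.hit (nat_lit 4) (nat_lit 64) (nat_lit 0x1780002f0000600594c055598084c301b0d)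 b13848 (.nil))) (.nil))))) (.one (nat_lit 17) (nat_lit 7) (nat_lit 67) (nat_lit 0x1780002f00006020c8c0afe18145f302c35) b13849 (.tok (nat_lit 20) (nat_lit 0x1780002f00006011e2c05731808dbb01b97) (.hit (nat_lit 8) (nat_lit 68) (nat_lit 0x1780002f00006011e2c03cf1808dbb01b97) b13852 (.hit (nat_lit 9) (nat_lit 69) (nat_lit 0x1780002f00006006dcc057318085a301655) b13853 (.nil))) (.tok (nat_lit 23) (nat_lit 0x1780002f00006098e6c12ea18351fb05f53) (.hit (nat_lit 10) (nat_lit 70) (nat_lit 0x1780002f00006098e6c12ea18351fb05f53) b13850 (.hit (nat_lit 11) (nat_lit 71) (nat_lit 0x1780002f0000601c82c0498d80cf330153e) b13851 (.nil))) (.one (nat_lit 38) (nat_lit 12) (nat_lit 76) (nat_lit 0x1780002f000060309ec092298145e302381) b13854 (.tok (nat_lit 41) (nat_lit 0x1780002f000060197ac07ad180f2b30206e) (.hit (nat_lit 13) (nat_lit 77) (nat_lit 0x1780002f00005ff2b2c01f15804e3b01047) b13855 (.hit (nat_lit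 14) (nat_lit 78) (nat_lit 0x1780002f000060197ac07ad180f2b30206e) b13856 (.nil))) (.tok (nat_lit 44) (nat_lit 0x1780002f0000600ad0c06329808d6b017c7) (.hit (nat_lit 15) (nat_lit 79) (nat_lit 0x1780002f00005ff2acbffe858010e300bfc) b13859 (.hit (nat_lit 16) (nat_lit 80) (nat_lit 0x1780002f0000600ad0c06329808d6b017c7) b13860 (.nil))) (.tok (nat_lit 47) (nat_lit 0x1780002f0000603ec0c096ad818a3302c4a) (.hit (nat_lit 17) (nat_lit 81) (nat_lit 0x1780002f0000603ec0c096ad818a3302c4a) b13857 (.hit (nat_lit 18) (nat_lit 82) (nat_lit 0x1780002f0000601196c062458106c301b97) b13858 (.nil))) (.one (nat_lit 50) (nat_lit 19) (nat_lit 83) (nat_lit 0x1780002f000060291ec0964581877302a68) b13861 (.tok (nat_lit 53) (nat_lit 0x1780002f0000601daec08bb580c6230200a) (.hit (nat_lit 20) (nat_lit 84) (nat_lit 0x1780002f00005ffb56c03bc1804ddb01337) b13862 (.hit (nat_lit 21) (nat_lit 85) (nat_lit 0x1780002f0000601daec08bb580c6230200a)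 b13863 (.nil))) (.tok (nat_lit 56) (nat_lit 0x1780002f0000605ac8c0ff9581aa4303d2c) (.hit (nat_lit 22) (nat_lit 86) (nat_lit 0x1780002f0000605ac8c0ff9581aa4303d2c) b13864 (.one (nat_lit 3) (nat_lit 26) (nat_lit 90) (nat_lit 0x1780002f000060209cc05a6580c8a3022f4) b13868 (.tok (nat_lit 6) (nat_lit 0x1780002f0000601222c03d71808ebb01bb7) (.hit (nat_lit 24) (nat_lit 88) (nat_lit 0x1780002f0000601222c03d71808ebb01bb7) b13866 (.hit (nat_lit 25) (nat_lit 89) (nat_lit 0x1780002f0000600618c0255d805e93015b2) b13867 (.nil))) (.one (nat_lit 9) (nat_lit 23) (nat_lit 87) (nat_lit 0x1780002f0000602758c067dd80e39302652) b13865 (.nil))))) (.one (nat_lit 59) (nat_lit 27) (nat_lit 91) (nat_lit 0x1780002f00005ff020c0489980a8fb011ec) b13869 (.nil)))))))))))))) (.nil)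
noncomputable def r20_16 : Rw Blk := .tok (nat_lit 9) (nat_lit 0x5e0000bc000181622b03e6f6098fec12dd182502304381) (.hit (nat_lit 18) (nat_lit 0) (nat_lit 0x5e0000bc00017ebf9aff5f05febeabfe2c17fbfe2fed95) b13888 (.tok (nat_lit 14) (nat_lit 0x5e0000bc000181622b03e6f6098fec12dd182502304381) (.hit (nat_lit 19) (nat_lit 61) (nat_lit 0x5e0000bc00017fe79b0087d60197cc03e1d807ecb001a7) b13889 (.one (nat_lit 3) (nat_lit 20) (nat_lit 62) (nat_lit 0x5e0000bc00017f569affb165ff818bffde17fd2f2ff134) b13890 (.tok (nat_lit 6) (nat_lit 0x5e0000bc000181622b03e6f6098fec12dd182502304381) (.hit (nat_lit 23) (nat_lit 65) (nat_lit 0x5e0000bc000181622b03e6f6098fec12dd182502304381) b13891 (.hit (nat_lit 24) (nat_lit 66) (nat_lit 0x5e0000bc00017f602aff8b45ff7dcbfe4a17fb8e2ff60f) b13892 (.nil))) (.tok (nat_lit 9) (nat_lit 0x5e0000bc00017f00f2feec85fe3b6bfcedd7f76aafec08) (.hit (nat_lit 21) (nat_lit 63) (nat_lit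 0x5e0000bc00017ed772febf25fc218bfa0117f2a4afec08) b13893 (.hit (nat_lit 22) (nat_lit 64) (nat_lit 0x5e0000bc00017f00f2feec85fe3b6bfcedd7f76aafe50c) b13894 (.nil))) (.nil))))) (.one (nat_lit 17) (nat_lit 25) (nat_lit 67) (nat_lit 0x5e0000bc00017f1412fdeeb5fce84bf99d17eed8afe28d) b13895 (.tok (nat_lit 20) (nat_lit 0x5e0000bc00017efd5afe5ef5fdbaabfb43d7f2902fe95e) (.hit (nat_lit 26) (nat_lit 68) (nat_lit 0x5e0000bc00017e7982fe0345faa9cbf71197ecc5afe04a) b13898 (.hit (nat_lit 27) (nat_lit 69) (nat_lit 0x5e0000bc00017efd5afe5ef5fdbaabfb43d7f2902fe95e) b13899 (.nil))) (.tok (nat_lit 23) (nat_lit 0x5e0000bc00018065db01abd603100c0737d80d2530128b) (.hit (nat_lit 28) (nat_lit 70) (nat_lit 0x5e0000bc00018065db01abd603100c0737d80d2530128b) b13896 (.hit (nat_lit 29) (nat_lit 71) (nat_lit 0x5e0000bc00017ef14afd8ac5fc0cebf7d6d7ed12afdc48) b13897 (.nil))) (.one (nat_lit 26) (nat_lit 30) (nat_lit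 72) (nat_lit 0x5e0000bc00017f12fafd7e45fc3babf81dd7ec7aafdb6c) b13900 (.one (nat_lit 29) (nat_lit 31) (nat_lit 73) (nat_lit 0x5e0000bc00017f1e5afe1495fd5aabfa8257f0bfafe4d5) b13901 (.one (nat_lit 32) (nat_lit 32) (nat_lit 74) (nat_lit 0x5e0000bc00017f562afdf735fd29abfa03d7f0222fe2fd) b13903 (.one (nat_lit 35) (nat_lit 33) (nat_lit 75) (nat_lit 0x5e0000bc00017ed60afcf915fb0a6bf5a517e8ffafd31d) b13902 (.one (nat_lit 38) (nat_lit 34) (nat_lit 76) (nat_lit 0x5e0000bc00017ef282fdd5c5fdcd4bf8f097ed5c2fe0fb) b13904 (.tok (nat_lit 41) (nat_lit 0x5e0000bc00017ee0dafe2c55fcfd6bf9b997ef4eafe3a1) (.hit (nat_lit 35) (nat_lit 77) (nat_lit 0x5e0000bc00017e8e5afe2c55fc438bf97397ef4eafdbe2) b13905 (.hit (nat_lit 36) (nat_lit 78) (nat_lit 0x5e0000bc00017ee0dafe0065fcfd6bf9b997ef2cafe3a1) b13906 (.nil))) (.tok (nat_lit 44) (nat_lit 0x5e0000bc00017ee062fdb6a5fc74ebf8aa17ecd02fdf14) (.hit (nat_lit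 37) (nat_lit 79) (nat_lit 0x5e0000bc00017dacaafc6995f7766bf0aad7dff82fc6af) b13909 (.hit (nat_lit 38) (nat_lit 80) (nat_lit 0x5e0000bc00017ee062fdb6a5fc74ebf8aa17ecd02fdf14) b13910 (.nil))) (.tok (nat_lit 47) (nat_lit 0x5e0000bc00017ea7dafdfb75fc824bf9e097ef692fdc0e) (.hit (nat_lit 39) (nat_lit 81) (nat_lit 0x5e0000bc00017e87aafdfb75fc824bf9e097ef692fd8d6) b13907 (.hit (nat_lit 40) (nat_lit 82) (nat_lit 0x5e0000bc00017ea7dafd8605fbfa4bf822d7ebcb2fdc0e) b13908 (.nil))) (.one (nat_lit 50) (nat_lit 41) (nat_lit 83) (nat_lit 0x5e0000bc00017f2a8afdb035fc994bf8ce57ee212fddba) b13911 (.tok (nat_lit 53) (nat_lit 0x5e0000bc00017f050afec705fdc52bfaf5d7f25c2fe6d4) (.hit (nat_lit 42) (nat_lit 84) (nat_lit 0x5e0000bc00017ec49afec705fdc52bfaf5d7f25c2fe6d4) b13912 (.hit (nat_lit 43) (nat_lit 85) (nat_lit 0x5e0000bc00017f050afe1725fd948bfaea57f153afe50d) b13913 (.nil))) (.tok (nat_lit 56) (nat_lit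 0x5e0000bc00017fa7baff8c45fe552bfe1217fa05aff73f) (.hit (nat_lit 44) (nat_lit 86) (nat_lit 0x5e0000bc00017fa7baff8c45fe552bfe1217fa05aff73f) b13914 (.one (nat_lit 3) (nat_lit 48) (nat_lit 90) (nat_lit 0x5e0000bc00017e7622fdfc85fa9c4bf6f697ec8fafdfde) b13918 (.tok (nat_lit 6) (nat_lit 0x5e0000bc00017edad2fec5e5fc2f0bfa1c17f2daafec74) (.hit (nat_lit 46) (nat_lit 88) (nat_lit 0x5e0000bc00017edad2fec5e5fc2f0bfa1c17f2daafec74) b13916 (.hit (nat_lit 47) (nat_lit 89) (nat_lit 0x5e0000bc00017e0faafd2f95f9026bf3c2d7e6282fd30f) b13917 (.nil))) (.one (nat_lit 9) (nat_lit 45) (nat_lit 87) (nat_lit 0x5e0000bc00017ed772febf25fc218bfa0117f2a4afec08) b13915 (.nil))))) (.one (nat_lit 59) (nat_lit 49) (nat_lit 91) (nat_lit 0x5e0000bc00017ee1c2fd23e5fbb98bf6ed97eb5b2fd5d0) b13919 (.nil)))))))))))))))))) (.tok (nat_lit 64) (nat_lit 0x5e0000bc000180f78b02d6c604cf6c0aab9812c3302fc2) (.hit (nat_lit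 13) (nat_lit 0) (nat_lit 0x5e0000bc0001807edb016af602310c04dbd807aa301574) b13883 (.tok (nat_lit 6) (nat_lit 0x5e0000bc00017fbe3affba25fecaabfeded7fb962fff6c) (.hit (nat_lit 14) (nat_lit 7) (nat_lit 0x5e0000bc00017f1ba2ff0cf5fddbabfc2017f5512fefc3) b13886 (.hit (nat_lit 15) (nat_lit 15) (nat_lit 0x5e0000bc00017fbe3affba25fecaabfeded7fb962fff6c) b13887 (.nil))) (.tok (nat_lit 9) (nat_lit 0x5e0000bc000180f78b02d6c604cf6c0aab9812c3302fc2) (.hit (nat_lit 16) (nat_lit 20) (nat_lit 0x5e0000bc000180dac3025c2604722c096d980fbd3028cf) b13884 (.hit (nat_lit 17) (nat_lit 28) (nat_lit 0x5e0000bc000180f78b02d6c604cf6c0aab9812c3302fc2) b13885 (.nil))) (.nil)))) (.tok (nat_lit 67) (nat_lit 0x5e0000bc000180037b00dca6017b0c035ed803ceb00cbe) (.hit (nat_lit 8) (nat_lit 0) (nat_lit 0x5e0000bc00017f8c9aff7ad5feb76bfdd797f8c02ff6a1) b13878 (.tok (nat_lit 3) (nat_lit 0x5e0000bc000180037b00dca6017b0c035ed803ceb00cbe)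 (.hit (nat_lit 9) (nat_lit 1) (nat_lit 0x5e0000bc00017f557aff80a5fec30bfdeed7f8eeaff6fe) b13879 (.one (nat_lit 55) (nat_lit 10) (nat_lit 3) (nat_lit 0x5e0000bc000180037b00dca6017b0c035ed803ceb00cbe) b13880 (.nil))) (.tok (nat_lit 9) (nat_lit 0x5e0000bc00017f58aaff8705fecfcbfe0857f921aff764) (.hit (nat_lit 11) (nat_lit 20) (nat_lit 0x5e0000bc00017f58aaff8705fecfcbfe0857f921aff764) b13881 (.hit (nat_lit 12) (nat_lit 28) (nat_lit 0x5e0000bc00017ef5c2fec135fd442bfaf117f2f32feb07) b13882 (.nil))) (.nil)))) (.tok (nat_lit 70) (nat_lit 0x5e0000bc0001807c5301ce56035e6c0725980b5c301bd9) (.hit (nat_lit 0) (nat_lit 0) (nat_lit 0x5e0000bc00017fcabb006b2600980c0198d80042b005a6) b13870 (.tok (nat_lit 3) (nat_lit 0x5e0000bc00018026eb0123860208cc047a580605b0112c) (.hit (nat_lit 1) (nat_lit 1) (nat_lit 0x5e0000bc00017f9f73001495ffeaec003e97fd8e30003d) b13871 (.one (nat_lit 67) (nat_lit 2) (nat_lit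 2) (nat_lit 0x5e0000bc00018026eb0123860208cc047a580605b0112c) b13872 (.nil))) (.tok (nat_lit 6) (nat_lit 0x5e0000bc0001807c5301ce56035e6c0725980b5c301bd9) (.hit (nat_lit 3) (nat_lit 7) (nat_lit 0x5e0000bc000180036b00dc86017acc035e5803cdb00cbc) b13873 (.hit (nat_lit 6) (nat_lit 15) (nat_lit 0x5e0000bc00017f9a130009d5ffd56c001397fd382fff91) b13876 (.tok (nat_lit 55) (nat_lit 0x5e0000bc0001807c5301ce56035e6c0725980b5c301bd9) (.hit (nat_lit 4) (nat_lit 8) (nat_lit 0x5e0000bc000180526b017a8602b6cc05d65808bdb0169c) b13874 (.hit (nat_lit 7) (nat_lit 16) (nat_lit 0x5e0000bc000180227b011aa601f70c0456d805beb0109e) b13877 (.one (nat_lit 6) (nat_lit 5) (nat_lit 9) (nat_lit 0x5e0000bc0001807c5301ce56035e6c0725980b5c301bd9) b13875 (.nil)))) (.nil)))) (.nil)))) (.nil))))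
noncomputable def r20_17 : Rw Blk := .tok (nat_lit 3) (nat_lit 0x5e0000bc000181aceb035d6608d96c10ab982410303d0d) (.hit (nat_lit 0) (nat_lit 0) (nat_lit 0x5e0000bc000180f6c3022c3605212c096758150cb0215f) b13920 (.tok (nat_lit 6) (nat_lit 0x5e0000bc00018072e30140c603698c05e9d80e3fb01507) (.hit (nat_lit 1) (nat_lit 7) (nat_lit 0x5e0000bc00017f3d42fed585fe930bfc3cd7fae5afee53) b13921 (.hit (nat_lit 6) (nat_lit 15) (nat_lit 0x5e0000bc00017ef2fafe40f5fd69ebf9ea97f6412fe50a) b13926 (.tok (nat_lit 14) (nat_lit 0x5e0000bc000180247b00a3f6022fec0376980959300b3a) (.hit (nat_lit 2) (nat_lit 11) (nat_lit 0x5e0000bc00018005ab00665601b4ac028018076c300760) b13922 (.hit (nat_lit 7) (nat_lit 17) (nat_lit 0x5e0000bc00017fafa2ffba46005c8bffcfd8020baffc9f) b13927 (.one (nat_lit 9) (nat_lit 3) (nat_lit 12) (nat_lit 0x5e0000bc000180247b00a3f6022fec0376980959300b3a) b13923 (.nil)))) (.tok (nat_lit 56)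 (nat_lit 0x5e0000bc00018072e30140c603698c05e9d80e3fb01507) (.hit (nat_lit 4) (nat_lit 13) (nat_lit 0x5e0000bc00017fd2f30000e600e9cc00ea580440b00109) b13924 (.hit (nat_lit 8) (nat_lit 19) (nat_lit 0x5e0000bc00017f9452ff83a5ffef4bfef5580056aff935) b13928 (.one (nat_lit 6) (nat_lit 5) (nat_lit 14) (nat_lit 0x5e0000bc00018072e30140c603698c05e9d80e3fb01507) b13925 (.nil)))) (.nil))))) (.tok (nat_lit 52) (nat_lit 0x5e0000bc00018075e30146c603758c0601d80e6fb01567) (.hit (nat_lit 9) (nat_lit 39) (nat_lit 0x5e0000bc00018075e30146c603758c0601d80e6fb01567) b13929 (.hit (nat_lit 10) (nat_lit 40) (nat_lit 0x5e0000bc000180095b006db601c36c029d9807a73007d6) b13930 (.nil))) (.tok (nat_lit 55) (nat_lit 0x5e0000bc000181aceb035d6608d96c10ab982410303d0d) (.hit (nat_lit 11) (nat_lit 41) (nat_lit 0x5e0000bc000181aceb035d6608d96c10ab982410303d0d) b13931 (.tok (nat_lit 3) (nat_lit 0x5e0000bc00018081f3015ee603a5cc0662580f30b016e9)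 (.hit (nat_lit 17) (nat_lit 47) (nat_lit 0x5e0000bc0001806e4301378603570c05c4d80df5b01473) b13937 (.one (nat_lit 67) (nat_lit 18) (nat_lit 48) (nat_lit 0x5e0000bc00018081f3015ee603a5cc0662580f30b016e9) b13938 (.nil))) (.tok (nat_lit 6) (nat_lit 0x5e0000bc0001808163015dc603a38c065dd80f27b016d7) (.hit (nat_lit 12) (nat_lit 42) (nat_lit 0x5e0000bc00018056db0108b602f96c0509980c7f301186) b13932 (.hit (nat_lit 15) (nat_lit 45) (nat_lit 0x5e0000bc0001802b2b00b156024aac03ac1809c4300c10) b13935 (.tok (nat_lit 55) (nat_lit 0x5e0000bc0001808163015dc603a38c065dd80f27b016d7) (.hit (nat_lit 13) (nat_lit 43) (nat_lit 0x5e0000bc0001808163015dc603a38c065dd80f27b016d7) b13933 (.hit (nat_lit 16) (nat_lit 46) (nat_lit 0x5e0000bc00018056c301088602f90c0508d80c7db01183) b13936 (.one (nat_lit 6) (nat_lit 14) (nat_lit 44) (nat_lit 0x5e0000bc000180760b01471603762c0603180e7230156c) b13934 (.nil)))) (.nil))))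 (.nil)))) (.one (nat_lit 58) (nat_lit 19) (nat_lit 49) (nat_lit 0x5e0000bc00017fa082ff9c0600200bff56d80119affabb) b13939 (.nil)))))) (.tok (nat_lit 9) (nat_lit 0x5e0000bc000182a333058fb60b370c15e2d827e0b051ef) (.hit (nat_lit 20) (nat_lit 0) (nat_lit 0x5e0000bc000180e7d302247604dc8c098fd8127a301903) b13940 (.tok (nat_lit 9) (nat_lit 0x5e0000bc000182a333058fb60b370c15e2d827e0b051ef) (.hit (nat_lit 21) (nat_lit 20) (nat_lit 0x5e0000bc000181557302bf260795ac0f3998151b302d13) b13941 (.hit (nat_lit 24) (nat_lit 28) (nat_lit 0x5e0000bc00017ffdab008fa600daec01de5804edaff651) b13944 (.tok (nat_lit 14) (nat_lit 0x5e0000bc000182a333058fb60b370c15e2d827e0b051ef) (.hit (nat_lit 22) (nat_lit 24) (nat_lit 0x5e0000bc000182a333058fb60b370c15e2d827e0b051ef) b13942 (.hit (nat_lit 25) (nat_lit 30) (nat_lit 0x5e0000bc000180853301d6f603d58c0728580fe2b004bd) b13945 (.one (nat_lit 6) (nat_lit 23) (nat_lit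 25) (nat_lit 0x5e0000bc000181b1db032026087ecc10a8981c0fb03671) b13943 (.nil)))) (.one (nat_lit 56) (nat_lit 26) (nat_lit 31) (nat_lit 0x5e0000bc00018120c30253f604abcc09309813ddb01216) b13946 (.nil))))) (.nil))) (.nil))
noncomputable def r20_18 : Rw Blk := .tok (nat_lit 6) (nat_lit 0x5e0000bc000180203301640602ba2c04bf980ba9300e7f) (.hit (nat_lit 21) (nat_lit 0) (nat_lit 0x5e0000bc00017ee712fe9e75fd588bfa4697f809afe6d4) b13968 (.tok (nat_lit 14) (nat_lit 0x5e0000bc00017fff0b00b77601e32c04bf980b68b009b7) (.hit (nat_lit 22) (nat_lit 61) (nat_lit 0x5e0000bc00017f6162ffd085ffdb8c007e1804772ffdd0) b13969 (.one (nat_lit 3) (nat_lit 23) (nat_lit 62) (nat_lit 0x5e0000bc00017f2cfafe4275fd208bfd1c97f6fb2fe726) b13970 (.tok (nat_lit 6) (nat_lit 0x5e0000bc00017efdfafea355fde08bfd6897f97e2ff005) (.hit (nat_lit 26) (nat_lit 65) (nat_lit 0x5e0000bc00017e75d2fe90c5fdc8cbfc7417f7bd2ff005) b13971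 (.hit (nat_lit 27) (nat_lit 66) (nat_lit 0x5e0000bc00017efdfafea355fde08bfd6897f97e2fea2b) b13972 (.nil))) (.tok (nat_lit 9) (nat_lit 0x5e0000bc00017fff0b00b77601e32c04bf980b68b009b7) (.hit (nat_lit 24) (nat_lit 63) (nat_lit 0x5e0000bc00017fff0b00b77601e32c04bf980b68b009b7) b13973 (.hit (nat_lit 25) (nat_lit 64) (nat_lit 0x5e0000bc00017f4d62fe9d05fde14bfca517f81f2ff0c9) b13974 (.nil))) (.nil))))) (.one (nat_lit 17) (nat_lit 28) (nat_lit 67) (nat_lit 0x5e0000bc00017f4312fe33d5fd372bf87c57f323afe774) b13975 (.tok (nat_lit 20) (nat_lit 0x5e0000bc00017f3f8b01162602290c01bb9802553007d4) (.hit (nat_lit 29) (nat_lit 68) (nat_lit 0x5e0000bc00017f3f8b01162602290c01bb9802553007d4) b13978 (.hit (nat_lit 30) (nat_lit 69) (nat_lit 0x5e0000bc00017ee742fd2215fa972bf4f617ea8dafd841) b13979 (.nil))) (.tok (nat_lit 23) (nat_lit 0x5e0000bc00017f6682fe6b85fd900bf99a57f546afeadc) (.hit (nat_lit 31)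 (nat_lit 70) (nat_lit 0x5e0000bc00017e043afdad95fc026bf8e757f0a3afe1d2) b13976 (.hit (nat_lit 32) (nat_lit 71) (nat_lit 0x5e0000bc00017f6682fe6b85fd900bf99a57f546afeadc) b13977 (.nil))) (.one (nat_lit 26) (nat_lit 33) (nat_lit 72) (nat_lit 0x5e0000bc00017f1702fd6f75fb56ebf59617ed902fda1b) b13980 (.one (nat_lit 29) (nat_lit 34) (nat_lit 73) (nat_lit 0x5e0000bc00017ead1afdbb65fbde2bf5dc17ef202fdefd) b13981 (.one (nat_lit 32) (nat_lit 35) (nat_lit 74) (nat_lit 0x5e0000bc00017e8e22fcb805f9950bf3f897e7be2fcf28) b13983 (.one (nat_lit 35) (nat_lit 36) (nat_lit 75) (nat_lit 0x5e0000bc00017f560afde995fc45ebf75f17f1892fe1bb) b13982 (.one (nat_lit 50) (nat_lit 37) (nat_lit 83) (nat_lit 0x5e0000bc00017e7c42fd11f5fa952bf411d7ea6b2fd625) b13993 (.tok (nat_lit 53) (nat_lit 0x5e0000bc00017f0312fead55fe2fcbfd4c97f6f3afee87) (.hit (nat_lit 38) (nat_lit 84) (nat_lit 0x5e0000bc00017f0312fead55fe2fcbfd4c97f6f3afee87)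 b13994 (.hit (nat_lit 39) (nat_lit 85) (nat_lit 0x5e0000bc00017e4642fd3685fab82bf3f317e988afd3c9) b13995 (.nil))) (.tok (nat_lit 56) (nat_lit 0x5e0000bc000180203301640602ba2c02ab580ba9300e7f) (.hit (nat_lit 40) (nat_lit 86) (nat_lit 0x5e0000bc00017fea83013df602590bfecf180b5cb00e7f) b13996 (.one (nat_lit 3) (nat_lit 44) (nat_lit 90) (nat_lit 0x5e0000bc00017f70b2ffc095ff332bfd5ad8004f2ffa86) b14000 (.tok (nat_lit 6) (nat_lit 0x5e0000bc00017f5d5b0068d601134c02ab5807be2ffc5c) (.hit (nat_lit 42) (nat_lit 88) (nat_lit 0x5e0000bc00017f5d5b0068d601134c02ab5807be2ffc5c) b13998 (.hit (nat_lit 43) (nat_lit 89) (nat_lit 0x5e0000bc00017e8fdafddc15fc934bf70e57eec12fd9d0) b13999 (.nil))) (.one (nat_lit 9) (nat_lit 41) (nat_lit 87) (nat_lit 0x5e0000bc000180203301640602ba2c029c180ba9300d89) b13997 (.nil))))) (.one (nat_lit 59) (nat_lit 45) (nat_lit 91) (nat_lit 0x5e0000bc00017e435afd14b5fafc4bf3fcd7e9e92fd5b7)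 b14001 (.one (nat_lit 62) (nat_lit 46) (nat_lit 92) (nat_lit 0x5e0000bc00017ef39afd32a5fad7ebf50757eb842fd5c6) b13984 (.tok (nat_lit 65) (nat_lit 0x5e0000bc00017f1db2fdd935fc59abf995d7f200afe48c) (.hit (nat_lit 47) (nat_lit 93) (nat_lit 0x5e0000bc00017ec17afdd935fc59abf995d7f200afe48c) b13985 (.hit (nat_lit 48) (nat_lit 94) (nat_lit 0x5e0000bc00017f1db2fd7735fb64ebf5f857ecb02fda18) b13986 (.nil))) (.tok (nat_lit 68) (nat_lit 0x5e0000bc00017f40e2fef9b5fe9aabfe17d7fb04aff694) (.hit (nat_lit 49) (nat_lit 95) (nat_lit 0x5e0000bc00017f40e2fef9b5fe9aabfe17d7fb04aff694) b13987 (.one (nat_lit 3) (nat_lit 53) (nat_lit 99) (nat_lit 0x5e0000bc00017e12e2fdcae5fc3d0bf95c97f18e2fe3a7) b13991 (.one (nat_lit 6) (nat_lit 50) (nat_lit 96) (nat_lit 0x5e0000bc00017e39b2fe1885fcd84bfa9317f3fb2fe881) b13988 (.tok (nat_lit 9) (nat_lit 0x5e0000bc00017e7e62fea1e5fdeb0bfcb897f8462ff117) (.hit (nat_lit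 51) (nat_lit 97) (nat_lit 0x5e0000bc00017e7e62fea1e5fdeb0bfcb897f8462ff117) b13989 (.hit (nat_lit 52) (nat_lit 98) (nat_lit 0x5e0000bc00017e3b3afe1b95fcde6bfa9f57f413afe8b2) b13990 (.nil))) (.nil))))) (.one (nat_lit 71) (nat_lit 54) (nat_lit 100) (nat_lit 0x5e0000bc00017ef912fd82f5fb77abf64e97ed6aafdaf3) b13992 (.nil)))))))))))))))))) (.tok (nat_lit 52) (nat_lit 0x5e0000bc000180495b0242a604afcc09e7981528302391) (.hit (nat_lit 16) (nat_lit 0) (nat_lit 0x5e0000bc0001801f2301cb56044aac07c8980e7bb01b0a) b13963 (.tok (nat_lit 6) (nat_lit 0x5e0000bc000180495b0242a604afcc09e7981528302391) (.hit (nat_lit 17) (nat_lit 7) (nat_lit 0x5e0000bc000180495b0242a604afcc09e7981528302391) b13966 (.hit (nat_lit 18) (nat_lit 15) (nat_lit 0x5e0000bc00018003fb01e75603da0c091218109ab0200c) b13967 (.nil))) (.tok (nat_lit 9) (nat_lit 0x5e0000bc0001804403017e960360ac0767180db2301959) (.hit (nat_lit 19)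 (nat_lit 20) (nat_lit 0x5e0000bc00017f2642ff3465ff414bfd55d7fd6baffaf6) b13964 (.hit (nat_lit 20) (nat_lit 28) (nat_lit 0x5e0000bc0001804403017e960360ac0767180db2301959) b13965 (.nil))) (.nil)))) (.tok (nat_lit 55) (nat_lit 0x5e0000bc0001801ea30097260193ec02d358048f3008e5) (.hit (nat_lit 8) (nat_lit 0) (nat_lit 0x5e0000bc0001801ea30097260193ec02d358048f30073b) b13955 (.tok (nat_lit 3) (nat_lit 0x5e0000bc00017f6ba2ffbf260056cbff80d801c1b003a2) (.hit (nat_lit 9) (nat_lit 1) (nat_lit 0x5e0000bc00017f4d02ff81e5ffdc4bfe8bd7ffd7afffce) b13956 (.one (nat_lit 67) (nat_lit 10) (nat_lit 2) (nat_lit 0x5e0000bc00017f6ba2ffbf260056cbff80d801c1b003a2) b13957 (.nil))) (.tok (nat_lit 6) (nat_lit 0x5e0000bc00017f95bb00135600ff2c00d19804633008e5) (.hit (nat_lit 11) (nat_lit 7) (nat_lit 0x5e0000bc00017f16daff1595ff03abfcda97fc752ff909) b13958 (.hit (nat_lit 14) (nat_lit 15) (nat_lit 0x5e0000bc00017ec1fafe6bd5fdb02bfa3397f7272fee6d)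 b13961 (.tok (nat_lit 55) (nat_lit 0x5e0000bc00017f95bb00135600ff2c00d19804633008e5) (.hit (nat_lit 12) (nat_lit 8) (nat_lit 0x5e0000bc00017f2102ff29e5ff2c4bfd2bd7fd17affa4e) b13959 (.hit (nat_lit 15) (nat_lit 16) (nat_lit 0x5e0000bc00017f95bb00135600ff2c00d19804633008e5) b13962 (.one (nat_lit 6) (nat_lit 13) (nat_lit 9) (nat_lit 0x5e0000bc00017f6be2ffbfa60057cbff82d801c5b003aa) b13960 (.nil)))) (.nil)))) (.nil)))) (.tok (nat_lit 58) (nat_lit 0x5e0000bc00018029f3013bc603500c0573580da6b01b6c) (.hit (nat_lit 0) (nat_lit 0) (nat_lit 0x5e0000bc00017f762300cad602032c03a258062d300a77) b13947 (.tok (nat_lit 3) (nat_lit 0x5e0000bc00017fce3300844601e10c02955807eab00ff4) (.hit (nat_lit 1) (nat_lit 1) (nat_lit 0x5e0000bc00017f9b23001e260114cc00fcd804b9b00992) b13948 (.one (nat_lit 55) (nat_lit 2) (nat_lit 3) (nat_lit 0x5e0000bc00017fce3300844601e10c02955807eab00ff4) b13949 (.nil))) (.tok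 (nat_lit 9) (nat_lit 0x5e0000bc00018029f3013bc603500c0573580da6b01b6c) (.hit (nat_lit 3) (nat_lit 20) (nat_lit 0x5e0000bc00017f8be2ffffa600d7cc0082d803c5b007aa) b13950 (.hit (nat_lit 6) (nat_lit 28) (nat_lit 0x5e0000bc00017f6312ffae0600348bff3c580138b00290) b13953 (.tok (nat_lit 67) (nat_lit 0x5e0000bc00018029f3013bc603500c0573580da6b01b6c) (.hit (nat_lit 4) (nat_lit 21) (nat_lit 0x5e0000bc00017fd9fb009bd602102c02f39808a730116d) b13951 (.hit (nat_lit 7) (nat_lit 29) (nat_lit 0x5e0000bc00017febfb00bfd602582c03839809c73013ad) b13954 (.one (nat_lit 9) (nat_lit 5) (nat_lit 22) (nat_lit 0x5e0000bc00018029f3013bc603500c0573580da6b01b6c) b13952 (.nil)))) (.nil)))) (.nil)))) (.nil))))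
noncomputable def r20_19 : Rw Blk := .tok (nat_lit 3) (nat_lit 0x5e0000bc000181aef302f3660794ac10f25826c4b034db) (.hit (nat_lit 0) (nat_lit 0) (nat_lit 0x5e0000bc0001810713021386051e6c0a3c581494b028db) b14002 (.tok (nat_lit 9) (nat_lit 0x5e0000bc000180afab0073f602cd4c094d980a7b30127a) (.hit (nat_lit 1) (nat_lit 20) (nat_lit 0x5e0000bc00017fd362febb65ff5c2c026b57fcb6aff6f1) b14003 (.hit (nat_lit 4) (nat_lit 28) (nat_lit 0x5e0000bc00017ef6cafd0235fbe9cbfb8697eeed2fdb5e) b14006 (.one (nat_lit 56) (nat_lit 5) (nat_lit 31) (nat_lit 0x5e0000bc00017fd882fec5a5ff70ac029457fd08aff795) b14007 (.tok (nat_lit 68) (nat_lit 0x5e0000bc000180afab0073f602cd4c094d980a7b30127a) (.hit (nat_lit 2) (nat_lit 26) (nat_lit 0x5e0000bc00017fc9d2fea845ff35ec021ed7fc1daff5bf) b14004 (.hit (nat_lit 6) (nat_lit 32) (nat_lit 0x5e0000bc00017f9eb2fe5205fe896c00c5d7f96baff05b) b14008 (.one (nat_lit 9) (nat_lit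 3) (nat_lit 27) (nat_lit 0x5e0000bc000180afab0073f602cd4c094d980a7b30127a) b14005 (.nil)))) (.nil))))) (.tok (nat_lit 64) (nat_lit 0x5e0000bc00018057daffc456016e0c068f1804fe300780) (.hit (nat_lit 7) (nat_lit 50) (nat_lit 0x5e0000bc000180557affbf9601648c067c1804d8300734) b14009 (.hit (nat_lit 8) (nat_lit 51) (nat_lit 0x5e0000bc00018057daffc456016e0c068f1804fe300780) b14010 (.nil))) (.tok (nat_lit 67) (nat_lit 0x5e0000bc000181aef302f3660794ac10f25826c4b034db) (.hit (nat_lit 9) (nat_lit 52) (nat_lit 0x5e0000bc000181aef302f3660794ac10f25826c4b034db) b14011 (.one (nat_lit 3) (nat_lit 15) (nat_lit 58) (nat_lit 0x5e0000bc0001808c93002dc60240ec0834d80849b00e17) b14017 (.tok (nat_lit 9) (nat_lit 0x5e0000bc000180dda300cfe603852c0abd580d5ab01839) (.hit (nat_lit 10) (nat_lit 53) (nat_lit 0x5e0000bc000180dda300cfe603852c0abd580d5ab01839) b14012 (.hit (nat_lit 13) (nat_lit 56) (nat_lit 0x5e0000bc0001807a6300096601f82c07a3580726b00bd1)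 b14015 (.tok (nat_lit 67) (nat_lit 0x5e0000bc000180d83300c506036f6c0a91d80d03b0178b) (.hit (nat_lit 11) (nat_lit 54) (nat_lit 0x5e0000bc000180d83300c506036f6c0a91d80d03b0178b) b14013 (.hit (nat_lit 14) (nat_lit 57) (nat_lit 0x5e0000bc0001809753004346026bec088ad808f5b00f6f) b14016 (.one (nat_lit 9) (nat_lit 12) (nat_lit 55) (nat_lit 0x5e0000bc0001806c3affed1601bf8c0732180644300a0c) b14014 (.nil)))) (.nil)))) (.nil)))) (.one (nat_lit 70) (nat_lit 16) (nat_lit 60) (nat_lit 0x5e0000bc00018033aaff7bf600dd4c056d9802bb3002fa) b14018 (.nil)))))) (.tok (nat_lit 6) (nat_lit 0x5e0000bc000182005b0645260ca36c11fe58278ab056de) (.hit (nat_lit 17) (nat_lit 0) (nat_lit 0x5e0000bc000181748304d36609edcc1052981db6b0441b) b14019 (.tok (nat_lit 6) (nat_lit 0x5e0000bc000181168b034ff607744c0ec1581c38b03b09) (.hit (nat_lit 18) (nat_lit 7) (nat_lit 0x5e0000bc000181168b034ff607744c0ec1581c38b03b09) b14020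 (.hit (nat_lit 19) (nat_lit 15) (nat_lit 0x5e0000bc00017fb55300d3e602d14c04ef5806e83013ab) b14021 (.one (nat_lit 68) (nat_lit 20) (nat_lit 18) (nat_lit 0x5e0000bc0001810cfb022756053c0c0975d8153530273e) b14022 (.nil)))) (.tok (nat_lit 52) (nat_lit 0x5e0000bc000181cf8304b1560bb1ac11fe58270a304ac0) (.hit (nat_lit 21) (nat_lit 39) (nat_lit 0x5e0000bc000181cf83044cc60bb1ac11fe5820fc304ac0) b14023 (.hit (nat_lit 22) (nat_lit 40) (nat_lit 0x5e0000bc000181cd5b04b15609ad2c0cd1d8270a304781) b14024 (.nil))) (.tok (nat_lit 55) (nat_lit 0x5e0000bc000181f92303f0b609208c1114d82181304688) (.hit (nat_lit 23) (nat_lit 41) (nat_lit 0x5e0000bc000181f92303f0b609208c1114d82181304688) b14025 (.one (nat_lit 3) (nat_lit 26) (nat_lit 47) (nat_lit 0x5e0000bc00018181eb035e56069cac0d09d81ddb303285) b14028 (.tok (nat_lit 6) (nat_lit 0x5e0000bc00018132eb02b7b607174c0bc158173b30340c) (.hit (nat_lit 24) (nat_lit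 42) (nat_lit 0x5e0000bc000181234302a40607174c0bc1581587b0340c) b14026 (.hit (nat_lit 25) (nat_lit 45) (nat_lit 0x5e0000bc00018132eb02b7b605e9ec0a42d8173b302f1b) b14027 (.nil))) (.nil)))) (.one (nat_lit 58) (nat_lit 27) (nat_lit 49) (nat_lit 0x5e0000bc000182005b0645260ca36c0e1858278ab056de) b14029 (.nil)))))) (.nil))
noncomputable def r20_20 : Rw Blk := .tok (nat_lit 3) (nat_lit 0x1780002f00005fb7e0bfea397fcccaffc5e) (.hit (nat_lit 15) (nat_lit 0) (nat_lit 0x1780002f00005f9916bf8d817f3692fe455) b14045 (.tok (nat_lit 9) (nat_lit 0x1780002f00005f86eabf63797eecf2fe02c) (.hit (nat_lit 16) (nat_lit 20) (nat_lit 0x1780002f00005f3d48bed0357dc66afbb5b) b14046 (.hit (nat_lit 21) (nat_lit 28) (nat_lit 0x1780002f00005f124abe7a397d1a72fa5dc) b14051 (.tok (nat_lit 14) (nat_lit 0x1780002f00005f7ea6bf52f17ecbe2fdc0a) (.hit (nat_lit 17) (nat_lit 24) (nat_lit 0x1780002f00005f63babf1d197e6032fce94)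 b14047 (.hit (nat_lit 22) (nat_lit 30) (nat_lit 0x1780002f00005f7ea6bf52f17ecbe2fdc0a) b14052 (.one (nat_lit 6) (nat_lit 18) (nat_lit 25) (nat_lit 0x1780002f00005f76dcbf435d7eacbafd825) b14048 (.nil)))) (.one (nat_lit 56) (nat_lit 23) (nat_lit 31) (nat_lit 0x1780002f00005f63d2bf1d497e6092fcea0) b14053 (.tok (nat_lit 68) (nat_lit 0x1780002f00005f86eabf63797eecf2fe02c) (.hit (nat_lit 19) (nat_lit 26) (nat_lit 0x1780002f00005f647cbf1e9d7e633afcef5) b14049 (.hit (nat_lit 24) (nat_lit 32) (nat_lit 0x1780002f00005f778cbf44bd7eaf7afd87d) b14054 (.one (nat_lit 9) (nat_lit 20) (nat_lit 27) (nat_lit 0x1780002f00005f86eabf63797eecf2fe02c) b14050 (.nil)))) (.nil)))))) (.tok (nat_lit 64) (nat_lit 0x1780002f00005f92d2bf7b497f1c92fe620) (.hit (nat_lit 25) (nat_lit 50) (nat_lit 0x1780002f00005f84a6bf5ef17ee3e2fdf0a) b14055 (.hit (nat_lit 26) (nat_lit 51) (nat_lit 0x1780002f00005f92d2bf7b497f1c92fe620)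 b14056 (.nil))) (.tok (nat_lit 67) (nat_lit 0x1780002f00005fb7e0bfea397fcccaffc5e) (.hit (nat_lit 27) (nat_lit 52) (nat_lit 0x1780002f00005fa94cbfd04d7fc172ff7c2) b14057 (.tok (nat_lit 3) (nat_lit 0x1780002f00005fa0f0bf97857f550afed2f) (.hit (nat_lit 33) (nat_lit 58) (nat_lit 0x1780002f00005fa0f0bf97857f550afed2f) b14063 (.one (nat_lit 55) (nat_lit 34) (nat_lit 59) (nat_lit 0x1780002f00005f8c74bf6e8d7f031afe2f1) b14064 (.nil))) (.tok (nat_lit 9) (nat_lit 0x1780002f00005fb7e0bfea397fcccaffc5e) (.hit (nat_lit 28) (nat_lit 53) (nat_lit 0x1780002f00005fa2d2bfaf497f5f1afee20) b14058 (.hit (nat_lit 31) (nat_lit 56) (nat_lit 0x1780002f00005f9b4abf8c397f3e72fea5c) b14061 (.tok (nat_lit 67) (nat_lit 0x1780002f00005fb7e0bfea397fcccaffc5e) (.hit (nat_lit 29) (nat_lit 54) (nat_lit 0x1780002f00005fb7e0bfea397fcccaffc5e) b14059 (.hit (nat_lit 32) (nat_lit 57) (nat_lit 0x1780002f00005f9c34bf8e0d7f421afead1)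 b14062 (.one (nat_lit 9) (nat_lit 30) (nat_lit 55) (nat_lit 0x1780002f00005fb53abfc0197fa632ff754) b14060 (.nil)))) (.nil)))) (.nil)))) (.one (nat_lit 70) (nat_lit 35) (nat_lit 60) (nat_lit 0x1780002f00005f9fd6bf95517f50a2feca2) b14065 (.nil)))))) (.tok (nat_lit 6) (nat_lit 0x1780002f0000601c14c0674180e293026bb) (.hit (nat_lit 0) (nat_lit 0) (nat_lit 0x1780002f00005fa528bfd2017ee7aafe277) b14030 (.tok (nat_lit 6) (nat_lit 0x1780002f00005fccc8bfb84d7f5cf2ff60c) (.hit (nat_lit 1) (nat_lit 7) (nat_lit 0x1780002f00005f8ce0bf2c6d7de1aafcdab) b14031 (.hit (nat_lit 4) (nat_lit 15) (nat_lit 0x1780002f00005f8e6cbf23157ddd72fbe3c) b14034 (.tok (nat_lit 14) (nat_lit 0x1780002f00005fccc8bfb84d7f5cf2ff60c) (.hit (nat_lit 2) (nat_lit 11) (nat_lit 0x1780002f00005fccc8bfb5757f5762ff60c) b14032 (.hit (nat_lit 5) (nat_lit 17) (nat_lit 0x1780002f00005f9894bf41957e3102fc8ae) b14035 (.one (nat_lit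 9) (nat_lit 3) (nat_lit 12) (nat_lit 0x1780002f00005fcbeebfb84d7f5cf2ff4a2) b14033 (.nil)))) (.one (nat_lit 68) (nat_lit 6) (nat_lit 18) (nat_lit 0x1780002f00005f9440bfa1b17ea902fd7ae) b14036 (.nil))))) (.tok (nat_lit 52) (nat_lit 0x1780002f00005fac68bfdd257ecd5afe198) (.hit (nat_lit 7) (nat_lit 39) (nat_lit 0x1780002f00005fac68bfdd257e97a2fe198) b14037 (.hit (nat_lit 8) (nat_lit 40) (nat_lit 0x1780002f00005f9f02bf53ad7ecd5afdc39) b14038 (.nil))) (.tok (nat_lit 55) (nat_lit 0x1780002f0000601c14c0674180e293026bb) (.hit (nat_lit 9) (nat_lit 41) (nat_lit 0x1780002f00005fe060c067418003ab004a1) b14039 (.tok (nat_lit 3) (nat_lit 0x1780002f0000601c14c006dd80e293026bb) (.hit (nat_lit 12) (nat_lit 47) (nat_lit 0x1780002f0000600e30bfbf3580429301087) b14042 (.one (nat_lit 67) (nat_lit 13) (nat_lit 48) (nat_lit 0x1780002f0000601c14c006dd80e293026bb) b14043 (.nil))) (.tok (nat_lit 6) (nat_lit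 0x1780002f00005fb992c024f17f5532ffd6a) (.hit (nat_lit 10) (nat_lit 42) (nat_lit 0x1780002f00005fb992c024f17f5532ffd6a) b14040 (.hit (nat_lit 11) (nat_lit 45) (nat_lit 0x1780002f00005faa5abf74957ecdb2fdc44) b14041 (.nil))) (.nil)))) (.one (nat_lit 58) (nat_lit 14) (nat_lit 49) (nat_lit 0x1780002f00005f84cebf9af97e7f8afda8c) b14044 (.nil)))))) (.nil))
noncomputable def r20_21 : Rw Blk := .tok (nat_lit 3) (nat_lit 0x5fa506bf8ed97e756afd97b5fc53ebf87317f1732fdd8a5f9e5ebfc5957f43e2fdf18) (.hit (nat_lit 0) (nat_lit 0) (nat_lit 0x5fa1e0bf57317e686afd97b5fba8cbf61bd7ecefafd45b5f9e5ebfc5957f2002fddb1) b35976 (.tok (nat_lit 6) (nat_lit 0x5fa506bf8ed97e756afd7615fc53ebf87317f1732fdd8a5f6d58bf99357f43e2fdd89) (.hit (nat_lit 1) (nat_lit 7) (nat_lit 0x5fa500bf8ed97e756afd75e5fc538bf87317f1732fdd8a5f6d52bf98bd7f1652fdd89) b14069 (.hit (nat_lit 2) (nat_lit 15) (nat_lit 0x5fa506bf40bd7e531afd7615fc53ebf49cd7eaefafce745f6d58bf99357f43e2fd73d)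 b14070 (.nil))) (.tok (nat_lit 9) (nat_lit 0x5fa506bf8ed97e756afd7615fc53ebf4f617eaefafcfd95f6d58bf86b17f4162fdf18) (.hit (nat_lit 3) (nat_lit 20) (nat_lit 0x5fa500bf8ed97e756afd75e5fc538bf024d7eaee2fcac65f6d52bf7b097f4162fdf18) b14067 (.hit (nat_lit 4) (nat_lit 28) (nat_lit 0x5fa506bf40bd7e531afd7615fc53ebf4f617eaefafcfd95f6d58bf86b17f2d7afdab8) b14068 (.nil))) (.nil)))) (.tok (nat_lit 6) (nat_lit 0x600000c053598051fb000005fff62c0825980f3a301dd6603d7ec04b117fe8cb01ce2) (.hit (nat_lit 14) (nat_lit 0) (nat_lit 0x5fd068bfad2d7eb99aff7f75fdf84bfc8217fc5baff0c25fec7ebfe6297f490aff0a5) b14071 (.tok (nat_lit 3) (nat_lit 0x5fe1b6bff8cd7f7902fefca5fd8e6c03335806edb00ac6601b9ec04b117f6da30094b) (.hit (nat_lit 15) (nat_lit 1) (nat_lit 0x5fb21cbf80a17e68a2fdcff5fbc8abfb7f97f7942febe05fdbe2bfb8217edb72fe4ec) b14072 (.one (nat_lit 67) (nat_lit 16) (nat_lit 2) (nat_lit 0x5fe1b6bff8cd7f7902fefca5fd8e6c03335806edb00ac6601b9ec04b117f6da30094b)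 b14073 (.nil))) (.tok (nat_lit 6) (nat_lit 0x600000c053598051fb000005fff62c0825980f3a301dd6603d7ec00a697fe8cb01ce2) (.hit (nat_lit 17) (nat_lit 7) (nat_lit 0x5fc2a2bfbd357ebd42fe4de5fc398bfde797fc602ff8c95fec5cbfde257f0432ff52d) b14074 (.hit (nat_lit 21) (nat_lit 15) (nat_lit 0x5facecbf7c3d7ea192fda5d5fc5aebfa9157f5afafe8a35fd470bfa7c17f052afe0a3) b14078 (.tok (nat_lit 55) (nat_lit 0x600000c053598051fb000005fff62c0825980f3a301dd6603d7ec00a697fe8cb01ce2) (.hit (nat_lit 18) (nat_lit 8) (nat_lit 0x5ff4febffff17f2a32ff9005fef0ac01fbd8041c3005ca6002bebfeb457f9163009da) b14075 (.hit (nat_lit 22) (nat_lit 16) (nat_lit 0x5fe21ac053598051fafec775fe68cc0825980f3a301dd6603d7ec00a697f84f301ce2) b14079 (.tok (nat_lit 6) (nat_lit 0x600000bff1017f97f3000005fff62c00a9d800e63002055ffed8bffe2d7fe8cb005c2) (.hit (nat_lit 19) (nat_lit 9) (nat_lit 0x5fe504bfc92d7f3a82ff3ff5fe54abff2797ffc22ffe965ff4b4bff0397fa4f2ff85a)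 b14076 (.one (nat_lit 55) (nat_lit 20) (nat_lit 10) (nat_lit 0x600000bff1017f97f3000005fff62c00a9d800e63002055ffed8bffe2d7fe8cb005c2) b14077 (.nil))) (.nil)))) (.nil)))) (.nil)))) (.tok (nat_lit 9) (nat_lit 0x600000c053598051faffc34600000bf98b97f86dafee9e5fb55ac00a69800002ffc04) (.hit (nat_lit 5) (nat_lit 0) (nat_lit 0x5fd068bfad2d7eb99aff12c5ff316bf98b97f3442fe5765fb55abfb7497f45aafdd29) b14080 (.tok (nat_lit 3) (nat_lit 0x5fe1b6bff8cd7f7902fe9735fe02ebf45217efd82fdd735f6e12bfc5bd7f6d9afe963) (.hit (nat_lit 6) (nat_lit 1) (nat_lit 0x5fb21cbf80a17e68a2fdce45fbcd2bf0e697e9012fcfc55f5a70bf8f057edb72fd5e1) b14081 (.one (nat_lit 55) (nat_lit 7) (nat_lit 3) (nat_lit 0x5fe1b6bff8cd7f7902fe9735fe02ebf45217efd82fdd735f6e12bfc5bd7f6d9afe963) b14082 (.nil))) (.tok (nat_lit 9) (nat_lit 0x600000c053598051faffc34600000bf89cd7f86dafee9e5f8ea6c00a69800002ffc04) (.hit (nat_lit 8) (nat_lit 20)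 (nat_lit 0x5fc2a2bfbd357ebd42fe0335fc3b8bf25557ebdeafd5805f588ebfa5f17f0422fdb10) b14083 (.hit (nat_lit 12) (nat_lit 28) (nat_lit 0x5facecbf7c3d7ea192fda4c5fc5aebf16c97eb0bafd1dd5f6dc8bf97657f1a3afdf21) b14087 (.tok (nat_lit 67) (nat_lit 0x600000c053598051faffc34600000bf89cd7f86dafee9e5f8ea6c00a69800002ffc04) (.hit (nat_lit 9) (nat_lit 21) (nat_lit 0x5ff4febffff17f2a32ff49d5fef0abf58dd7f24fafe2625f6fe0bfd9797f8ebafedda) b14084 (.hit (nat_lit 13) (nat_lit 29) (nat_lit 0x5fe21ac053598051fafe8085fe68cbf89cd7f86dafee9e5f8ea6c00a697fad1aff333) b14088 (.tok (nat_lit 9) (nat_lit 0x600000bff1017f97f2ffc34600000bf7d917f6e62feb8f5f8ab6bffe2d800002ffc04) (.hit (nat_lit 10) (nat_lit 22) (nat_lit 0x5fe504bfc92d7f3a82feeb35fe5e6bf5eb97f30b2fe3d95f7500bfdf557f825afec1d) b14085 (.one (nat_lit 67) (nat_lit 11) (nat_lit 23) (nat_lit 0x600000bff1017f97f2ffc34600000bf7d917f6e62feb8f5f8ab6bffe2d800002ffc04)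 b14086 (.nil))) (.nil)))) (.nil)))) (.nil)))) (.nil)))
noncomputable def r20_22 : Rw Blk := .tok (nat_lit 6) (nat_lit 0x2f00005e0000c000017fa23b001a3) (.hit (nat_lit 0) (nat_lit 0) (nat_lit 0x2f00005e0000bf9c2d7f301aff35b) b14099 (.tok (nat_lit 3) (nat_lit 0x2f00005e0000bfa98d7ee2bafe9af) (.hit (nat_lit 1) (nat_lit 1) (nat_lit 0x2f00005e0000bf2d817dd3e2fcbb4) b14100 (.one (nat_lit 56) (nat_lit 3) (nat_lit 6) (nat_lit 0x2f00005e0000bf779d7ea162fe184) b14101 (.one (nat_lit 68) (nat_lit 2) (nat_lit 5) (nat_lit 0x2f00005e0000bfa98d7ee2bafe9af) b14102 (.nil)))) (.tok (nat_lit 40) (nat_lit 0x2f00005e0000bf5c717edebafe92f) (.hit (nat_lit 4) (nat_lit 33) (nat_lit 0x2f00005e0000bf5c717ec8a2fe66c) b14103 (.hit (nat_lit 5) (nat_lit 34) (nat_lit 0x2f00005e0000bf58557edebafe92f) b14104 (.nil))) (.tok (nat_lit 43) (nat_lit 0x2f00005e0000bfb01d7f1a02ff1b2) (.hit (nat_lit 6) (nat_lit 35) (nat_lit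 0x2f00005e0000bfb01d7f1a02ff1b2) b14106 (.hit (nat_lit 7) (nat_lit 36) (nat_lit 0x2f00005e0000bf88657ecb1afead5) b14107 (.nil))) (.tok (nat_lit 46) (nat_lit 0x2f00005e0000c000017fa23b001a3) (.hit (nat_lit 8) (nat_lit 37) (nat_lit 0x2f00005e0000bf40397eae82fe328) b14097 (.hit (nat_lit 9) (nat_lit 38) (nat_lit 0x2f00005e0000c000017fa23b001a3) b14105 (.nil))) (.nil)))))) (.tok (nat_lit 9) (nat_lit 0x2f00005e0000c000018013cb0066b) (.hit (nat_lit 10) (nat_lit 0) (nat_lit 0x2f00005e0000bf9c2d7f6d7aff7c9) b14089 (.tok (nat_lit 3) (nat_lit 0x2f00005e0000bfa98d7f5feafec67) (.hit (nat_lit 11) (nat_lit 1) (nat_lit 0x2f00005e0000bf2d817e96c2fd47a) b14090 (.one (nat_lit 56) (nat_lit 13) (nat_lit 6) (nat_lit 0x2f00005e0000bfa98d7f5feafec67) b14091 (.one (nat_lit 68) (nat_lit 12) (nat_lit 5) (nat_lit 0x2f00005e0000bf779d7f1a02fe4c2) b14092 (.nil)))) (.tok (nat_lit 40) (nat_lit 0x2f00005e0000bf5c717f1cbafe92f)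 (.hit (nat_lit 14) (nat_lit 33) (nat_lit 0x2f00005e0000bf5c717ef602fe66c) b14093 (.hit (nat_lit 15) (nat_lit 34) (nat_lit 0x2f00005e0000bf58557f1cbafe92f) b14094 (.nil))) (.tok (nat_lit 43) (nat_lit 0x2f00005e0000c000017fe85b0066b) (.hit (nat_lit 16) (nat_lit 35) (nat_lit 0x2f00005e0000bf40397eae82fe328) b14097 (.hit (nat_lit 17) (nat_lit 36) (nat_lit 0x2f00005e0000c000017fe85b0066b) b14098 (.nil))) (.tok (nat_lit 46) (nat_lit 0x2f00005e0000bfb01d8013caffbbf) (.hit (nat_lit 18) (nat_lit 37) (nat_lit 0x2f00005e0000bfb01d8013caffbbf) b14095 (.hit (nat_lit 19) (nat_lit 38) (nat_lit 0x2f00005e0000bf88657f5b52fee8c) b14096 (.nil))) (.nil)))))) (.nil))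
noncomputable def r20_23 : Rw Blk := .tok (nat_lit 3) (nat_lit 0xbc0001801402ff95f) (.hit (nat_lit 17) (nat_lit 0) (nat_lit 0xbc00017f0bbafd716) b14193 (.tok (nat_lit 6) (nat_lit 0xbc00017ee9d2fdb93) (.hit (nat_lit 18) (nat_lit 7) (nat_lit 0xbc00017e3042fc461) b14194 (.hit (nat_lit 21) (nat_lit 15) (nat_lit 0xbc00017e3c6afc5e6) b14197 (.tok (nat_lit 56) (nat_lit 0xbc00017ee9d2fdb93) (.hit (nat_lit 19) (nat_lit 13) (nat_lit 0xbc00017ed242fd8a1) b14195 (.hit (nat_lit 23) (nat_lit 19) (nat_lit 0xbc00017eb562fd505) b14199 (.one (nat_lit 6) (nat_lit 20) (nat_lit 14) (nat_lit 0xbc00017ee9d2fdb93) b14196 (.nil)))) (.one (nat_lit 68) (nat_lit 22) (nat_lit 18) (nat_lit 0xbc00017ede1afda1c) b14198 (.nil))))) (.tok (nat_lit 52) (nat_lit 0xbc00017ecfaafd84e) (.hit (nat_lit 24) (nat_lit 39) (nat_lit 0xbc00017ebd6afd606) b14200 (.hit (nat_lit 25) (nat_lit 40) (nat_lit 0xbc00017ecfaafd84e)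 b14201 (.nil))) (.tok (nat_lit 55) (nat_lit 0xbc0001801402ff95f) (.hit (nat_lit 26) (nat_lit 41) (nat_lit 0xbc0001801402ff95f) b14202 (.one (nat_lit 3) (nat_lit 32) (nat_lit 47) (nat_lit 0xbc00017eb0c2fd471) b14208 (.tok (nat_lit 6) (nat_lit 0xbc00017f1a0afe19a) (.hit (nat_lit 27) (nat_lit 42) (nat_lit 0xbc00017ea84afd362) b14203 (.hit (nat_lit 30) (nat_lit 45) (nat_lit 0xbc00017e9822fd15d) b14206 (.tok (nat_lit 55) (nat_lit 0xbc00017f1a0afe19a) (.hit (nat_lit 28) (nat_lit 43) (nat_lit 0xbc00017f1a0afe19a) b14204 (.hit (nat_lit 31) (nat_lit 46) (nat_lit 0xbc00017f025afdea4) b14207 (.one (nat_lit 6) (nat_lit 29) (nat_lit 44) (nat_lit 0xbc00017ef90afdd7a) b14205 (.nil)))) (.nil)))) (.nil)))) (.one (nat_lit 58) (nat_lit 33) (nat_lit 49) (nat_lit 0xbc00017ec522fd6fd) b14209 (.nil)))))) (.tok (nat_lit 9) (nat_lit 0xbc000181536302c4d) (.hit (nat_lit 0) (nat_lit 0) (nat_lit 0xbc00017fd2aafee9a)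 b14176 (.tok (nat_lit 9) (nat_lit 0xbc00017ffeeb00ed9) (.hit (nat_lit 1) (nat_lit 20) (nat_lit 0xbc00017fa1a2ffc1f) b14177 (.hit (nat_lit 4) (nat_lit 28) (nat_lit 0xbc00017eec9afcb42) b14180 (.one (nat_lit 56) (nat_lit 5) (nat_lit 31) (nat_lit 0xbc00017f3beafe3e1) b14181 (.tok (nat_lit 68) (nat_lit 0xbc00017ffeeb00ed9) (.hit (nat_lit 2) (nat_lit 26) (nat_lit 0xbc00017ffeeaffb73) b14178 (.hit (nat_lit 6) (nat_lit 32) (nat_lit 0xbc00017f793afdff8) b14182 (.one (nat_lit 9) (nat_lit 3) (nat_lit 27) (nat_lit 0xbc00017ff76300ed9) b14179 (.nil)))) (.nil))))) (.tok (nat_lit 64) (nat_lit 0xbc00018096830003b) (.hit (nat_lit 7) (nat_lit 50) (nat_lit 0xbc00017fa8d2fe861) b14183 (.hit (nat_lit 8) (nat_lit 51) (nat_lit 0xbc00018096830003b) b14184 (.nil))) (.tok (nat_lit 67) (nat_lit 0xbc000181536302c4d) (.hit (nat_lit 9) (nat_lit 52) (nat_lit 0xbc00018139cb02c4d) b14185 (.one (nat_lit 3) (nat_lit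 15) (nat_lit 58) (nat_lit 0xbc00018084bb00dee) b14191 (.tok (nat_lit 9) (nat_lit 0xbc000181536302161) (.hit (nat_lit 10) (nat_lit 53) (nat_lit 0xbc0001802e92ff1fa) b14186 (.hit (nat_lit 13) (nat_lit 56) (nat_lit 0xbc000180487302161) b14189 (.tok (nat_lit 67) (nat_lit 0xbc000181536301c09) (.hit (nat_lit 11) (nat_lit 54) (nat_lit 0xbc000181536301c09) b14187 (.hit (nat_lit 14) (nat_lit 57) (nat_lit 0xbc000180475b00feb) b14190 (.one (nat_lit 9) (nat_lit 12) (nat_lit 55) (nat_lit 0xbc000181207301767) b14188 (.nil)))) (.nil)))) (.nil)))) (.one (nat_lit 70) (nat_lit 16) (nat_lit 60) (nat_lit 0xbc0001809633009f4) b14192 (.nil)))))) (.nil))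
noncomputable def r20_24 : Rw Blk := .tok (nat_lit 3) (nat_lit 0x2f00005e0000bf87997fea3afec3c) (.hit (nat_lit 17) (nat_lit 0) (nat_lit 0x2f00005e0000bf20457f47f2fd893) b14227 (.tok (nat_lit 6) (nat_lit 0x2f00005e0000bf3bfd7f7f62fdf81) (.hit (nat_lit 18) (nat_lit 7) (nat_lit 0x2f00005e0000beeee97ee53afcc3c) b14228 (.hit (nat_lit 21) (nat_lit 15) (nat_lit 0x2f00005e0000beb45d7e7022fbd99) b14231 (.tok (nat_lit 56) (nat_lit 0x2f00005e0000bf3bfd7f7f62fdf81) (.hit (nat_lit 19) (nat_lit 13) (nat_lit 0x2f00005e0000bf29a57f5ab2fdaeb) b14229 (.hit (nat_lit 23) (nat_lit 19) (nat_lit 0x2f00005e0000bee8357ed7d2fca8f) b14233 (.one (nat_lit 6) (nat_lit 20) (nat_lit 14) (nat_lit 0x2f00005e0000bf3bfd7f7f62fdf81) b14230 (.nil)))) (.one (nat_lit 68) (nat_lit 22) (nat_lit 18) (nat_lit 0x2f00005e0000bf2a597f5c1afdb18) b14232 (.nil))))) (.tok (nat_lit 52) (nat_lit 0x2f00005e0000bf0f157f2592fd447)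 (.hit (nat_lit 24) (nat_lit 39) (nat_lit 0x2f00005e0000bf0a217f1baafd30a) b14234 (.hit (nat_lit 25) (nat_lit 40) (nat_lit 0x2f00005e0000bf0f157f2592fd447) b14235 (.nil))) (.tok (nat_lit 55) (nat_lit 0x2f00005e0000bf87997fea3afec3c) (.hit (nat_lit 26) (nat_lit 41) (nat_lit 0x2f00005e0000bf87997f927afe1e4) b14236 (.one (nat_lit 3) (nat_lit 32) (nat_lit 47) (nat_lit 0x2f00005e0000bf32e17f6d2afdd3a) b14242 (.tok (nat_lit 6) (nat_lit 0x2f00005e0000bf76157fea3afec3c) (.hit (nat_lit 27) (nat_lit 42) (nat_lit 0x2f00005e0000bf2e417f71eafe282) b14237 (.hit (nat_lit 30) (nat_lit 45) (nat_lit 0x2f00005e0000bf0f0d7f2582fd445) b14240 (.tok (nat_lit 55) (nat_lit 0x2f00005e0000bf76157fea3afec3c) (.hit (nat_lit 28) (nat_lit 43) (nat_lit 0x2f00005e0000bf76157fea3afec3c) b14238 (.hit (nat_lit 31) (nat_lit 46) (nat_lit 0x2f00005e0000bf33917f6e8afdd66) b14241 (.one (nat_lit 6) (nat_lit 29) (nat_lit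 44) (nat_lit 0x2f00005e0000bf64697fd03afe99c) b14239 (.nil)))) (.nil)))) (.nil)))) (.one (nat_lit 58) (nat_lit 33) (nat_lit 49) (nat_lit 0x2f00005e0000bf3fa17f86aafe06a) b14243 (.nil)))))) (.tok (nat_lit 9) (nat_lit 0x2f00005e0000c03ce981443b02440) (.hit (nat_lit 0) (nat_lit 0) (nat_lit 0x2f00005e0000bf43657f6192fe1c7) b14210 (.tok (nat_lit 9) (nat_lit 0x2f00005e0000bf7ae57f93f2ff000) (.hit (nat_lit 1) (nat_lit 20) (nat_lit 0x2f00005e0000bf1df57ece72fd8a7) b14211 (.hit (nat_lit 4) (nat_lit 28) (nat_lit 0x2f00005e0000bf21a97e7f0afceb6) b14214 (.one (nat_lit 56) (nat_lit 5) (nat_lit 31) (nat_lit 0x2f00005e0000bf6a5d7efc82fdcc5) b14215 (.tok (nat_lit 68) (nat_lit 0x2f00005e0000bf7ae57f93f2ff000) (.hit (nat_lit 2) (nat_lit 26) (nat_lit 0x2f00005e0000bf7ae57f8062ff000) b14212 (.hit (nat_lit 6) (nat_lit 32) (nat_lit 0x2f00005e0000bf5cc97f070afdddf) b14216 (.one (nat_lit 9) (nat_lit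 3) (nat_lit 27) (nat_lit 0x2f00005e0000bf667d7f93f2fe93c) b14213 (.nil)))) (.nil))))) (.tok (nat_lit 64) (nat_lit 0x2f00005e0000bf77cd7f6e32fe96c) (.hit (nat_lit 7) (nat_lit 50) (nat_lit 0x2f00005e0000bf19517f12bafe251) b14217 (.hit (nat_lit 8) (nat_lit 51) (nat_lit 0x2f00005e0000bf77cd7f6e32fe96c) b14218 (.nil))) (.tok (nat_lit 67) (nat_lit 0x2f00005e0000c03ce981443b02440) (.hit (nat_lit 9) (nat_lit 52) (nat_lit 0x2f00005e0000bfb5597fe812fff09) b14219 (.one (nat_lit 3) (nat_lit 15) (nat_lit 58) (nat_lit 0x2f00005e0000bf8ccd7f93b2fed26) b14225 (.tok (nat_lit 9) (nat_lit 0x2f00005e0000c03ce981443b02440) (.hit (nat_lit 10) (nat_lit 53) (nat_lit 0x2f00005e0000bfae517fb1aaff609) b14220 (.hit (nat_lit 13) (nat_lit 56) (nat_lit 0x2f00005e0000bf92257fada2feccc) b14223 (.tok (nat_lit 67) (nat_lit 0x2f00005e0000c03ce981443b02440) (.hit (nat_lit 11) (nat_lit 54) (nat_lit 0x2f00005e0000bfdb91800fa300b8c)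 b14221 (.hit (nat_lit 14) (nat_lit 57) (nat_lit 0x2f00005e0000bfb1e97fdc3aff787) b14224 (.one (nat_lit 9) (nat_lit 12) (nat_lit 55) (nat_lit 0x2f00005e0000c03ce981443b02440) b14222 (.nil)))) (.nil)))) (.nil)))) (.one (nat_lit 70) (nat_lit 16) (nat_lit 60) (nat_lit 0x2f00005e0000bf834d7f893afecaf) b14226 (.nil)))))) (.nil))
noncomputable def r20_25 : Rw Blk := .tok (nat_lit 3) (nat_lit 0x5e0000bfc0697fa1030046e601698bfef9580aacb00200) (.hit (nat_lit 17) (nat_lit 0) (nat_lit 0x5e0000bf3c457e8ebafdd1d5fd392bf75197f7aa2fd7a1) b14125 (.tok (nat_lit 9) (nat_lit 0x5e0000bf2b517eb2a2fda795fbac8bf63a97f2d52fda7b) (.hit (nat_lit 18) (nat_lit 20) (nat_lit 0x5e0000bece897df912fc3475f8c64bf06e17e73c2fc349) b14126 (.hit (nat_lit 21) (nat_lit 28) (nat_lit 0x5e0000bed49d7e053afc4cc5f8f6ebf0cf57e7feafc4ce) b14129 (.one (nat_lit 56) (nat_lit 22) (nat_lit 31) (nat_lit 0x5e0000bf25757ea6eafd9025fb7dabf5dcd7f219afd904)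 b14130 (.tok (nat_lit 68) (nat_lit 0x5e0000bf2b517eb2a2fda795fbac8bf63a97f2d52fda7b) (.hit (nat_lit 19) (nat_lit 26) (nat_lit 0x5e0000bf1f897e9b12fd7875fb4e4bf57e17f15c2fd789) b14127 (.hit (nat_lit 23) (nat_lit 32) (nat_lit 0x5e0000bf11197e7e32fd3eb5fadacbf49717ef8e2fd3ed) b14131 (.one (nat_lit 9) (nat_lit 20) (nat_lit 27) (nat_lit 0x5e0000bf2b517eb2a2fda795fbac8bf63a97f2d52fda7b) b14128 (.nil)))) (.nil))))) (.tok (nat_lit 64) (nat_lit 0x5e0000bf1e3d7e987afd7345fb43ebf56957f132afd736) (.hit (nat_lit 24) (nat_lit 50) (nat_lit 0x5e0000bf151d7e863afd4ec5fafaebf4d757f00eafd4ee) b14132 (.hit (nat_lit 25) (nat_lit 51) (nat_lit 0x5e0000bf1e3d7e987afd7345fb43ebf56957f132afd736) b14133 (.nil))) (.tok (nat_lit 67) (nat_lit 0x5e0000bfc0697fa1030046e601698bfef9580aacb00200) (.hit (nat_lit 26) (nat_lit 52) (nat_lit 0x5e0000bfc0697fa1030046e601698bfef9580aacb00200) b14134 (.one (nat_lit 3)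 (nat_lit 32) (nat_lit 58) (nat_lit 0x5e0000bf0ec97e7992fd3575fac84bf47217ef442fd359) b14140 (.tok (nat_lit 9) (nat_lit 0x5e0000bf436d7ee2dafe0805fc6d6bf7bc57f5d8afe082) (.hit (nat_lit 27) (nat_lit 53) (nat_lit 0x5e0000bf0a8d7e711afd2485faa66bf42e57eebcafd24a) b14135 (.hit (nat_lit 30) (nat_lit 56) (nat_lit 0x5e0000bf02797e60f2fd0435fa65cbf3ad17edba2fd045) b14138 (.tok (nat_lit 67) (nat_lit 0x5e0000bf436d7ee2dafe0805fc6d6bf7bc57f5d8afe082) (.hit (nat_lit 28) (nat_lit 54) (nat_lit 0x5e0000bf436d7ee2dafe0805fc6d6bf7bc57f5d8afe082) b14136 (.hit (nat_lit 31) (nat_lit 57) (nat_lit 0x5e0000bf37957ecb2afdd8a5fc0eabf6fed7f45dafdd8c) b14139 (.one (nat_lit 9) (nat_lit 29) (nat_lit 55) (nat_lit 0x5e0000bf32ed7ec1dafdc605fbe96bf6b457f3c8afdc62) b14137 (.nil)))) (.nil)))) (.nil)))) (.one (nat_lit 70) (nat_lit 33) (nat_lit 60) (nat_lit 0x5e0000bf18f97e8df2fd5e35fb19cbf51517f08a2fd5e5) b14141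 (.nil)))))) (.tok (nat_lit 6) (nat_lit 0x5e0000c0601981387302a986050fec095fd818d3b02322) (.hit (nat_lit 0) (nat_lit 0) (nat_lit 0x5e0000bf9fbd7f4adaffed060080ebffa7d8054caffa24) b14108 (.tok (nat_lit 6) (nat_lit 0x5e0000bfb5dd804cd302a986050fec0915580ddf30212f) (.hit (nat_lit 1) (nat_lit 7) (nat_lit 0x5e0000bf87397fb7030139c60338ac05f458086bb00788) b14109 (.hit (nat_lit 4) (nat_lit 15) (nat_lit 0x5e0000bf2cb57e301afdb8e5fc020bf5a517f1e42fd7c2) b14112 (.tok (nat_lit 56) (nat_lit 0x5e0000bfb5dd804cd302a986050fec0915580ddf30212f) (.hit (nat_lit 2) (nat_lit 13) (nat_lit 0x5e0000bfb5dd7fb1a301075602e1cc05e9580da3300514) b14110 (.hit (nat_lit 6) (nat_lit 19) (nat_lit 0x5e0000bf73057ed5cafefdb5fe7eebfa8a97ff632fe31a) b14114 (.one (nat_lit 6) (nat_lit 3) (nat_lit 14) (nat_lit 0x5e0000bfb219804cd302a986050fec0915580ddf30212f) b14111 (.nil)))) (.one (nat_lit 68) (nat_lit 5) (nat_lit 18)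 (nat_lit 0x5e0000bf545d7ef512ff02e5ff1f2bfb9357fe1b2fe3b6) b14113 (.nil))))) (.tok (nat_lit 52) (nat_lit 0x5e0000c001a97fd7e30039d602804c00ce9808f2affe35) (.hit (nat_lit 7) (nat_lit 39) (nat_lit 0x5e0000bf8ad17f1912ffe08600ac8bfcc15805db2fef64) b14115 (.hit (nat_lit 8) (nat_lit 40) (nat_lit 0x5e0000c001a97fd7e30039d602804c00ce9808f2affe35) b14116 (.nil))) (.tok (nat_lit 55) (nat_lit 0x5e0000c06019813873028366050c8c095fd818d3b02322) (.hit (nat_lit 9) (nat_lit 41) (nat_lit 0x5e0000c0534d81387301f95604c14c08c15818d3b02322) b14117 (.one (nat_lit 3) (nat_lit 15) (nat_lit 47) (nat_lit 0x5e0000bff8c580457b01ca3603cd4c0734180a13b01adc) b14123 (.tok (nat_lit 6) (nat_lit 0x5e0000c0601980e113028366050c8c095fd81378b02071) (.hit (nat_lit 10) (nat_lit 42) (nat_lit 0x5e0000bfcdb17f65daff77c5fedf6bfcc018010f2ff534) b14118 (.hit (nat_lit 13) (nat_lit 45) (nat_lit 0x5e0000bfdaa180e113028366050c8c095fd81378b02071)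 b14121 (.tok (nat_lit 55) (nat_lit 0x5e0000c0601980b6530163d6038d4c05b5581213301c5a) (.hit (nat_lit 11) (nat_lit 43) (nat_lit 0x5e0000c0601980b6530163d6036d4c04fe981213301c5a) b14119 (.hit (nat_lit 14) (nat_lit 46) (nat_lit 0x5e0000bfda1580556301431602d14c05b5580a72300f41) b14122 (.one (nat_lit 6) (nat_lit 12) (nat_lit 44) (nat_lit 0x5e0000c046a180914300f466038d4c050e5811fab01b5f) b14120 (.nil)))) (.nil)))) (.nil)))) (.one (nat_lit 58) (nat_lit 16) (nat_lit 49) (nat_lit 0x5e0000c001818025ab000f9602846c0258d80e172fff85) b14124 (.nil)))))) (.nil))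
noncomputable def r20_26 : Rw Blk := .tok (nat_lit 3) (nat_lit 0x5e0000bc00017f1d7aff200) (.hit (nat_lit 17) (nat_lit 0) (nat_lit 0x5e0000bc00017e4ed2fd836) b14159 (.tok (nat_lit 9) (nat_lit 0x5e0000bc00017e8642fdd09) (.hit (nat_lit 18) (nat_lit 20) (nat_lit 0x5e0000bc00017dec1afc9c4) b14160 (.hit (nat_lit 21) (nat_lit 28) (nat_lit 0x5e0000bc00017d7702fbb21) b14163 (.one (nat_lit 56) (nat_lit 22) (nat_lit 31) (nat_lit 0x5e0000bc00017e62fafd8a0) b14164 (.tok (nat_lit 68) (nat_lit 0x5e0000bc00017e8642fdd09) (.hit (nat_lit 19) (nat_lit 26) (nat_lit 0x5e0000bc00017e6192fd873) b14161 (.hit (nat_lit 23) (nat_lit 32) (nat_lit 0x5e0000bc00017ddeb2fc817) b14165 (.one (nat_lit 9) (nat_lit 20) (nat_lit 27) (nat_lit 0x5e0000bc00017e8642fdd09) b14162 (.nil)))) (.nil))))) (.tok (nat_lit 64) (nat_lit 0x5e0000bc00017e2c72fd1cf) (.hit (nat_lit 24) (nat_lit 50) (nat_lit 0x5e0000bc00017e228afd092)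 b14166 (.hit (nat_lit 25) (nat_lit 51) (nat_lit 0x5e0000bc00017e2c72fd1cf) b14167 (.nil))) (.tok (nat_lit 67) (nat_lit 0x5e0000bc00017f1d7aff200) (.hit (nat_lit 26) (nat_lit 52) (nat_lit 0x5e0000bc00017f1d7afee87) b14168 (.one (nat_lit 3) (nat_lit 32) (nat_lit 58) (nat_lit 0x5e0000bc00017e740afdac2) b14174 (.tok (nat_lit 9) (nat_lit 0x5e0000bc00017efa72ff200) (.hit (nat_lit 27) (nat_lit 53) (nat_lit 0x5e0000bc00017e6acafdd2b) b14169 (.hit (nat_lit 30) (nat_lit 56) (nat_lit 0x5e0000bc00017e2c62fd1cd) b14172 (.tok (nat_lit 67) (nat_lit 0x5e0000bc00017efa72ff200) (.hit (nat_lit 28) (nat_lit 54) (nat_lit 0x5e0000bc00017efa72ff200) b14170 (.hit (nat_lit 31) (nat_lit 57) (nat_lit 0x5e0000bc00017e756afdaee) b14173 (.one (nat_lit 9) (nat_lit 29) (nat_lit 55) (nat_lit 0x5e0000bc00017ed71afe724) b14171 (.nil)))) (.nil)))) (.nil)))) (.one (nat_lit 70) (nat_lit 33) (nat_lit 60) (nat_lit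 0x5e0000bc00017e8d8afddf2) b14175 (.nil)))))) (.tok (nat_lit 6) (nat_lit 0x5e0000bc000180881b02909) (.hit (nat_lit 0) (nat_lit 0) (nat_lit 0x5e0000bc00017e9512fde87) b14142 (.tok (nat_lit 6) (nat_lit 0x5e0000bc00017f0412fee96) (.hit (nat_lit 1) (nat_lit 7) (nat_lit 0x5e0000bc00017e4a32fd896) b14143 (.hit (nat_lit 4) (nat_lit 15) (nat_lit 0x5e0000bc00017e519afce6b) b14146 (.tok (nat_lit 56) (nat_lit 0x5e0000bc00017f0412fee96) (.hit (nat_lit 2) (nat_lit 13) (nat_lit 0x5e0000bc00017f0412fee96) b14144 (.hit (nat_lit 6) (nat_lit 19) (nat_lit 0x5e0000bc00017ec7dafdbe1) b14148 (.one (nat_lit 6) (nat_lit 3) (nat_lit 14) (nat_lit 0x5e0000bc00017edb42fe96b) b14145 (.nil)))) (.one (nat_lit 68) (nat_lit 5) (nat_lit 18) (nat_lit 0x5e0000bc00017ee302fda90) b14147 (.nil))))) (.tok (nat_lit 52) (nat_lit 0x5e0000bc00017efde2fe6a5) (.hit (nat_lit 7) (nat_lit 39) (nat_lit 0x5e0000bc00017e40eafdd69)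 b14149 (.hit (nat_lit 8) (nat_lit 40) (nat_lit 0x5e0000bc00017efde2fe6a5) b14150 (.nil))) (.tok (nat_lit 55) (nat_lit 0x5e0000bc000180881b02909) (.hit (nat_lit 9) (nat_lit 41) (nat_lit 0x5e0000bc00017f78faff994) b14151 (.one (nat_lit 3) (nat_lit 15) (nat_lit 47) (nat_lit 0x5e0000bc00017f27e2fe887) b14157 (.tok (nat_lit 6) (nat_lit 0x5e0000bc000180881b02909) (.hit (nat_lit 10) (nat_lit 42) (nat_lit 0x5e0000bc00017f6aeaff7c1) b14152 (.hit (nat_lit 13) (nat_lit 45) (nat_lit 0x5e0000bc00017f3292fea1d) b14155 (.tok (nat_lit 55) (nat_lit 0x5e0000bc000180881b02909) (.hit (nat_lit 11) (nat_lit 43) (nat_lit 0x5e0000bc00017fc56b00b81) b14153 (.hit (nat_lit 14) (nat_lit 46) (nat_lit 0x5e0000bc00017f721aff678) b14156 (.one (nat_lit 6) (nat_lit 12) (nat_lit 44) (nat_lit 0x5e0000bc000180881b02909) b14154 (.nil)))) (.nil)))) (.nil)))) (.one (nat_lit 58) (nat_lit 16) (nat_lit 49) (nat_lit 0x5e0000bc00017f14e2fe6f3)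 b14158 (.nil)))))) (.nil))
noncomputable def r20_27 : Rw Blk := .tok (nat_lit 3) (nat_lit 0x1780002f00005fbb28bf82897e9332fdb95) (.hit (nat_lit 0) (nat_lit 0) (nat_lit 0x1780002f00005fbb28bf82897e9332fdb95) b35977 (.tok (nat_lit 6) (nat_lit 0x1780002f00005f840abf33517e1012fca69) (.hit (nat_lit 1) (nat_lit 7) (nat_lit 0x1780002f00005f7e12bf27617df832fc76d) b14245 (.hit (nat_lit 2) (nat_lit 15) (nat_lit 0x1780002f00005f840abf33517e1012fca69) b14246 (.nil))) (.tok (nat_lit 9) (nat_lit 0x1780002f00005f840abf33517e1012fca69) (.hit (nat_lit 3) (nat_lit 20) (nat_lit 0x1780002f00005f7e12bf27617df832fc76d) b14245 (.hit (nat_lit 4) (nat_lit 28) (nat_lit 0x1780002f00005f840abf33517e1012fca69) b14246 (.nil))) (.nil)))) (.tok (nat_lit 6) (nat_lit 0x1780002f0000600000bfd3bd7fffeaffc71) (.hit (nat_lit 5) (nat_lit 0) (nat_lit 0x1780002f00005fc8aabf71097f0892fdb70) b14256 (.tok (nat_lit 3) (nat_lit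 0x1780002f00005fdaaabf95e57f3202fe30e) (.hit (nat_lit 6) (nat_lit 1) (nat_lit 0x1780002f00005fa02ebf2c197e52bafc89b) b14257 (.one (nat_lit 67) (nat_lit 7) (nat_lit 2) (nat_lit 0x1780002f00005fdaaabf95e57f3202fe30e) b14258 (.nil))) (.tok (nat_lit 6) (nat_lit 0x1780002f0000600000bfd3bd7fffeaffc71) (.hit (nat_lit 8) (nat_lit 7) (nat_lit 0x1780002f00005fc458bf52497ebbdafd330) b14259 (.hit (nat_lit 12) (nat_lit 15) (nat_lit 0x1780002f00005f9d04bf56f97e5b2afd353) b14263 (.tok (nat_lit 55) (nat_lit 0x1780002f0000600000bfd3bd7fffeaffc71) (.hit (nat_lit 9) (nat_lit 8) (nat_lit 0x1780002f0000600000bfc8b97fffeaffc71) b14260 (.hit (nat_lit 13) (nat_lit 16) (nat_lit 0x1780002f00005fc422bf7ff17f172afdf59) b14264 (.tok (nat_lit 6) (nat_lit 0x1780002f00005fdfaabfd3bd7fc3baff48f) (.hit (nat_lit 10) (nat_lit 9) (nat_lit 0x1780002f00005fc06ebf6e417f1ba2fe154) b14261 (.one (nat_lit 55) (nat_lit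 11) (nat_lit 10) (nat_lit 0x1780002f00005fdfaabfd3bd7fc3baff48f) b14262 (.nil))) (.nil)))) (.nil)))) (.nil)))) (.tok (nat_lit 9) (nat_lit 0x1780002f0000600000c0403580000300f7f) (.hit (nat_lit 14) (nat_lit 0) (nat_lit 0x1780002f00005fc8aabfc9ad7f031afecce) b14247 (.tok (nat_lit 3) (nat_lit 0x1780002f00005fdaaabfb9fd7f3202fe91f) (.hit (nat_lit 15) (nat_lit 1) (nat_lit 0x1780002f00005fa02ebf372d7e52bafcb68) b14248 (.one (nat_lit 55) (nat_lit 16) (nat_lit 3) (nat_lit 0x1780002f00005fdaaabfb9fd7f3202fe91f) b14249 (.nil))) (.tok (nat_lit 9) (nat_lit 0x1780002f0000600000c0403580000300f7f) (.hit (nat_lit 17) (nat_lit 20) (nat_lit 0x1780002f00005fc458bf9c7d7ebbdafe28a) b14250 (.hit (nat_lit 21) (nat_lit 28) (nat_lit 0x1780002f00005f9d04bf56f97e5b2afd353) b14254 (.tok (nat_lit 67) (nat_lit 0x1780002f0000600000c0403580000300f7f) (.hit (nat_lit 18) (nat_lit 21) (nat_lit 0x1780002f0000600000c0403580000300f7f)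 b14251 (.hit (nat_lit 22) (nat_lit 29) (nat_lit 0x1780002f00005fc422bfa5897f172afe2df) b14255 (.tok (nat_lit 9) (nat_lit 0x1780002f00005fdfaac006197fb10affc8d) (.hit (nat_lit 19) (nat_lit 22) (nat_lit 0x1780002f00005fc06ebfca297f340afeb9f) b14252 (.one (nat_lit 67) (nat_lit 20) (nat_lit 23) (nat_lit 0x1780002f00005fdfaac006197fb10affc8d) b14253 (.nil))) (.nil)))) (.nil)))) (.nil)))) (.nil)))
noncomputable def r20_28 : Rw Blk := .tok (nat_lit 3) (nat_lit 0xbc0001780002feb2a) (.hit (nat_lit 18) (nat_lit 0) (nat_lit 0xbc0001780002feb2a) b14329 (.tok (nat_lit 6) (nat_lit 0xbc0001780002fda72) (.hit (nat_lit 19) (nat_lit 7) (nat_lit 0xbc0001780002fda72) b14332 (.hit (nat_lit 20) (nat_lit 15) (nat_lit 0xbc0001780002fc791) b14333 (.nil))) (.tok (nat_lit 9) (nat_lit 0xbc0001780002fcf43) (.hit (nat_lit 21) (nat_lit 20) (nat_lit 0xbc0001780002fcf43) b14330 (.hit (nat_lit 22) (nat_lit 28)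 (nat_lit 0xbc0001780002fc744) b14331 (.nil))) (.nil)))) (.tok (nat_lit 6) (nat_lit 0xbc0001780002fefe3) (.hit (nat_lit 0) (nat_lit 0) (nat_lit 0xbc0001780002fe975) b14311 (.tok (nat_lit 3) (nat_lit 0xbc0001780002fda71) (.hit (nat_lit 1) (nat_lit 1) (nat_lit 0xbc0001780002fc320) b14312 (.one (nat_lit 67) (nat_lit 2) (nat_lit 2) (nat_lit 0xbc0001780002fda71) b14313 (.nil))) (.tok (nat_lit 6) (nat_lit 0xbc0001780002fefe3) (.hit (nat_lit 3) (nat_lit 7) (nat_lit 0xbc0001780002fc278) b14314 (.hit (nat_lit 7) (nat_lit 15) (nat_lit 0xbc0001780002fcbe4) b14318 (.tok (nat_lit 55) (nat_lit 0xbc0001780002fefe3) (.hit (nat_lit 4) (nat_lit 8) (nat_lit 0xbc0001780002fe409) b14315 (.hit (nat_lit 8) (nat_lit 16) (nat_lit 0xbc0001780002feb5a) b14319 (.tok (nat_lit 6) (nat_lit 0xbc0001780002fefe3) (.hit (nat_lit 5) (nat_lit 9) (nat_lit 0xbc0001780002fdedb) b14316 (.one (nat_lit 55) (nat_lit 6)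 (nat_lit 10) (nat_lit 0xbc0001780002fefe3) b14317 (.nil))) (.nil)))) (.nil)))) (.nil)))) (.tok (nat_lit 9) (nat_lit 0xbc000178000303330) (.hit (nat_lit 9) (nat_lit 0) (nat_lit 0xbc000178000300118) b14320 (.tok (nat_lit 3) (nat_lit 0xbc000178000302940) (.hit (nat_lit 10) (nat_lit 1) (nat_lit 0xbc0001780002fedd2) b14321 (.one (nat_lit 55) (nat_lit 11) (nat_lit 3) (nat_lit 0xbc000178000302940) b14322 (.nil))) (.tok (nat_lit 9) (nat_lit 0xbc000178000303330) (.hit (nat_lit 12) (nat_lit 20) (nat_lit 0xbc0001780002ff4c7) b14323 (.hit (nat_lit 16) (nat_lit 28) (nat_lit 0xbc0001780002fe004) b14327 (.tok (nat_lit 67) (nat_lit 0xbc000178000303330) (.hit (nat_lit 13) (nat_lit 21) (nat_lit 0xbc000178000303011) b14324 (.hit (nat_lit 17) (nat_lit 29) (nat_lit 0xbc0001780003009a9) b14328 (.tok (nat_lit 9) (nat_lit 0xbc000178000303330) (.hit (nat_lit 14) (nat_lit 22) (nat_lit 0xbc000178000302739)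 b14325 (.one (nat_lit 67) (nat_lit 15) (nat_lit 23) (nat_lit 0xbc000178000303330) b14326 (.nil))) (.nil)))) (.nil)))) (.nil)))) (.nil)))
noncomputable def r20_29 : Rw Blk := .tok (nat_lit 3) (nat_lit 0x1780002f00005fab3cbf7f3d7ee202fdc21) (.hit (nat_lit 18) (nat_lit 0) (nat_lit 0x1780002f00005fab3cbf7f3d7ee202fdc21) b14352 (.tok (nat_lit 6) (nat_lit 0x1780002f00005f8e4ebf57657e9ce2fd54e) (.hit (nat_lit 19) (nat_lit 7) (nat_lit 0x1780002f00005f8e4ebf57657e9ce2fd54e) b14355 (.hit (nat_lit 20) (nat_lit 15) (nat_lit 0x1780002f00005f8a8abf4fdd7e8dd2fd36c) b14356 (.nil))) (.tok (nat_lit 9) (nat_lit 0x1780002f00005f8936bf4d357e8882fd2c2) (.hit (nat_lit 21) (nat_lit 20) (nat_lit 0x1780002f00005f845cbf43817e751afd055) b14353 (.hit (nat_lit 22) (nat_lit 28) (nat_lit 0x1780002f00005f8936bf4d357e8882fd2c2) b14354 (.nil))) (.nil)))) (.tok (nat_lit 6) (nat_lit 0x1780002f0000600000c0000180000300000)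 (.hit (nat_lit 0) (nat_lit 0) (nat_lit 0x1780002f00005fd22abfe9b97f9c4aff497) b14334 (.tok (nat_lit 3) (nat_lit 0x1780002f00005fcb7abfbd357faacafecf8) (.hit (nat_lit 1) (nat_lit 1) (nat_lit 0x1780002f00005f9d28bf610d7efebafd686) b14335 (.one (nat_lit 67) (nat_lit 2) (nat_lit 2) (nat_lit 0x1780002f00005fcb7abfbd357faacafecf8) b14336 (.nil))) (.tok (nat_lit 6) (nat_lit 0x1780002f0000600000c0000180000300000) (.hit (nat_lit 3) (nat_lit 7) (nat_lit 0x1780002f00005fbe5ebfaaa57f6ceafe708) b14337 (.hit (nat_lit 7) (nat_lit 15) (nat_lit 0x1780002f00005f9c54bf6d997f02f2fdadb) b14341 (.tok (nat_lit 55) (nat_lit 0x1780002f0000600000c0000180000300000) (.hit (nat_lit 4) (nat_lit 8) (nat_lit 0x1780002f00005fe480bff3717fe052ffd6c) b14338 (.hit (nat_lit 8) (nat_lit 16) (nat_lit 0x1780002f00005fc536bfaf857fa062fec34) b14342 (.tok (nat_lit 6) (nat_lit 0x1780002f0000600000c0000180000300000) (.hit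 (nat_lit 5) (nat_lit 9) (nat_lit 0x1780002f00005fd834bfc5b97f924aff100) b14339 (.one (nat_lit 55) (nat_lit 6) (nat_lit 10) (nat_lit 0x1780002f0000600000c0000180000300000) b14340 (.nil))) (.nil)))) (.nil)))) (.nil)))) (.tok (nat_lit 9) (nat_lit 0x1780002f00005fe5fcbfe5997ffa92ffa07) (.hit (nat_lit 9) (nat_lit 0) (nat_lit 0x1780002f00005fc05ebf98cd7f5af2fee41) b14343 (.tok (nat_lit 3) (nat_lit 0x1780002f00005fc9e6bfbc257fa1a2ff376) (.hit (nat_lit 10) (nat_lit 1) (nat_lit 0x1780002f00005fa66ebf65817ef45afd97c) b14344 (.one (nat_lit 55) (nat_lit 11) (nat_lit 3) (nat_lit 0x1780002f00005fc9e6bfbc257fa1a2ff376) b14345 (.nil))) (.tok (nat_lit 9) (nat_lit 0x1780002f00005fe5fcbfe5997ffa92ffa07) (.hit (nat_lit 12) (nat_lit 20) (nat_lit 0x1780002f00005fb89abf89d97f3d0afe312) b14346 (.hit (nat_lit 16) (nat_lit 28) (nat_lit 0x1780002f00005fa9e8bf6da17f0242fdb39) b14350 (.tok (nat_lit 67) (nat_lit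 0x1780002f00005fe5fcbfe5997ffa92ffa07) (.hit (nat_lit 13) (nat_lit 21) (nat_lit 0x1780002f00005fd6c4bfc8157fbb3aff227) b14347 (.hit (nat_lit 17) (nat_lit 29) (nat_lit 0x1780002f00005fd4febfc2f57faf42ff528) b14351 (.tok (nat_lit 9) (nat_lit 0x1780002f00005fe5fcbfe5997ffa92ffa07) (.hit (nat_lit 14) (nat_lit 22) (nat_lit 0x1780002f00005fcbe4bfad297f8cd2fec1f) b14348 (.one (nat_lit 67) (nat_lit 15) (nat_lit 23) (nat_lit 0x1780002f00005fe5fcbfe5997ffa92ffa07) b14349 (.nil))) (.nil)))) (.nil)))) (.nil)))) (.nil)))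
noncomputable def r20_30 : Rw Blk := .tok (nat_lit 3) (nat_lit 0x1780002f00005fa950bf35057e2042fca395f9f16bf5c857ec232fc51d) (.hit (nat_lit 18) (nat_lit 0) (nat_lit 0x1780002f00005fa950bf35057e2042fca395f9f16bf5c857ec232fc51d) b14283 (.tok (nat_lit 6) (nat_lit 0x1780002f00005f7182beb7417d5602facd75f5a92bee43d7d77cafa9f5) (.hit (nat_lit 19) (nat_lit 7) (nat_lit 0x1780002f00005f7182beb7417d5602facd75f5a92bee43d7d77cafa9f5) b14286 (.hit (nat_lit 20) (nat_lit 15) (nat_lit 0x1780002f00005f6184be97457d160afa4d85f4a94bec4417d37d2fa1f6) b14287 (.nil))) (.tok (nat_lit 9) (nat_lit 0x1780002f00005f87e0bee3fd7daf7afb8065f70f0bf10f97dd142fb524) (.hit (nat_lit 21) (nat_lit 20) (nat_lit 0x1780002f00005f87e0bee3fd7daf7afb8065f70f0bf10f97dd142fb524) b14284 (.hit (nat_lit 22) (nat_lit 28) (nat_lit 0x1780002f00005f621ebe98797d1872fa5255f4b2ebec5757d3a3afa243) b14285 (.nil))) (.nil)))) (.tok (nat_lit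 6) (nat_lit 0x1780002f000060395cc0c87181b37302fd7605dfcc0c23d81370302fd3) (.hit (nat_lit 9) (nat_lit 0) (nat_lit 0x1780002f00005fd52cbfa4bd7f0242fe6c45fd8d8bfecb57f8132ff454) b14274 (.tok (nat_lit 3) (nat_lit 0x1780002f000060257cc0223d7fc5030041160087cc088d580aa53006d9) (.hit (nat_lit 10) (nat_lit 1) (nat_lit 0x1780002f00005faea0bf42017e2612fcf1a5fab44bf87117ee25afd945) b14275 (.one (nat_lit 67) (nat_lit 11) (nat_lit 2) (nat_lit 0x1780002f000060257cc0223d7fc5030041160087cc088d580aa53006d9) b14276 (.nil))) (.tok (nat_lit 6) (nat_lit 0x1780002f000060395cc0c87181b37302fd7605dfcc0c23d81370302fd3) (.hit (nat_lit 12) (nat_lit 7) (nat_lit 0x1780002f00005fbc8abfc8397fafb2fec205ffa5abfef317fdf22ff846) b14277 (.hit (nat_lit 16) (nat_lit 15) (nat_lit 0x1780002f00005f9304bf35157e44f2fcd195fa126bf56f97ef162fdae0) b14281 (.tok (nat_lit 55) (nat_lit 0x1780002f000060395cc0c87181b37302fd7605dfcc0c23d81370302fd3)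 (.hit (nat_lit 13) (nat_lit 8) (nat_lit 0x1780002f000060331ec0496981b3730275d603abcc080b98137030293e) b14278 (.hit (nat_lit 17) (nat_lit 16) (nat_lit 0x1780002f00005fe64ebfb4e17f3c7afeb6a5fd73abfc5a17fc9e2ff7a8) b14282 (.tok (nat_lit 6) (nat_lit 0x1780002f000060395cc0c87181b09302fd7605dfcc0c23d811a2302fd3) (.hit (nat_lit 14) (nat_lit 9) (nat_lit 0x1780002f000060216ec08755814c6b01ee360422ac0856d811a2301de3) b14279 (.one (nat_lit 55) (nat_lit 15) (nat_lit 10) (nat_lit 0x1780002f000060395cc0c87181b09302fd7605dfcc0c23d810c9302fd3) b14280 (.nil))) (.nil)))) (.nil)))) (.nil)))) (.tok (nat_lit 9) (nat_lit 0x1780002f00005fb2c2bf39c17e5b02fcd775fa45cbf66bd7efdaafd2b9) (.hit (nat_lit 0) (nat_lit 0) (nat_lit 0x1780002f00005fa5e6bf1d3d7e083afc5685fa45cbf65717efdaafd2b9) b14265 (.tok (nat_lit 3) (nat_lit 0x1780002f00005f87debee3f97daf72fb8055f70eebf10f57dd13afb523) (.hit (nat_lit 1) (nat_lit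 1) (nat_lit 0x1780002f00005f593cbe86b57cf4eafa0b45f424cbeb3b17d16b2f9dd2) b14266 (.one (nat_lit 55) (nat_lit 2) (nat_lit 3) (nat_lit 0x1780002f00005f87debee3f97daf72fb8055f70eebf10f57dd13afb523) b14267 (.nil))) (.tok (nat_lit 9) (nat_lit 0x1780002f00005fb2c2bf39c17e5b02fcd775f9bd2bf66bd7e7ccafca95) (.hit (nat_lit 3) (nat_lit 20) (nat_lit 0x1780002f00005f57ecbe84157cefaafa00c5f40fcbeb1117d1172f9d2a) b14268 (.hit (nat_lit 7) (nat_lit 28) (nat_lit 0x1780002f00005f6ac4bea9c57d3b0afa9785f53d4bed6c17d5cd2fa696) b14272 (.tok (nat_lit 67) (nat_lit 0x1780002f00005fb2c2bf39c17e5b02fcd775f9bd2bf66bd7e7ccafca95) (.hit (nat_lit 4) (nat_lit 21) (nat_lit 0x1780002f00005f9b0ebf0a597dfc32fc19d5f841ebf37557e1dfafbebb) b14269 (.hit (nat_lit 8) (nat_lit 29) (nat_lit 0x1780002f00005fa9b0bf279d7e36bafc8ee5f92c0bf54997e5882fc60c) b14273 (.tok (nat_lit 9) (nat_lit 0x1780002f00005fb2c2bf39c17e5b02fcd775f9bd2bf66bd7e7ccafca95)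 (.hit (nat_lit 5) (nat_lit 22) (nat_lit 0x1780002f00005f90b2bef5a17dd2c2fbc6f5f79c2bf229d7df48afb98d) b14270 (.one (nat_lit 67) (nat_lit 6) (nat_lit 23) (nat_lit 0x1780002f00005fb2c2bf39c17e5b02fcd775f9bd2bf66bd7e7ccafca95) b14271 (.nil))) (.nil)))) (.nil)))) (.nil)))) (.nil)))
noncomputable def r20_31 : Rw Blk := .tok (nat_lit 3) (nat_lit 0x2f00005e0000bf56797eba92fd12b) (.hit (nat_lit 18) (nat_lit 0) (nat_lit 0x2f00005e0000bf56797eba92fd12b) b14306 (.tok (nat_lit 6) (nat_lit 0x2f00005e0000bf126d7e6112fc5fb) (.hit (nat_lit 19) (nat_lit 7) (nat_lit 0x2f00005e0000bf08b97e4daafc38e) b14309 (.hit (nat_lit 20) (nat_lit 15) (nat_lit 0x2f00005e0000bf126d7e6112fc5fb) b14310 (.nil))) (.tok (nat_lit 9) (nat_lit 0x2f00005e0000bf1c9d7e7572fc887) (.hit (nat_lit 21) (nat_lit 20) (nat_lit 0x2f00005e0000bf1c9d7e7572fc887) b14307 (.hit (nat_lit 22) (nat_lit 28) (nat_lit 0x2f00005e0000bf15157e6662fc6a5)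 b14308 (.nil))) (.nil)))) (.tok (nat_lit 6) (nat_lit 0x2f00005e0000bfcbf97f65c2fe691) (.hit (nat_lit 9) (nat_lit 0) (nat_lit 0x2f00005e0000bf80bd7f1bb2fdd4f) b14297 (.tok (nat_lit 3) (nat_lit 0x2f00005e0000bf93cd7f0dd2fdb93) (.hit (nat_lit 10) (nat_lit 1) (nat_lit 0x2f00005e0000bf4cdd7e5e22fc59d) b14298 (.one (nat_lit 67) (nat_lit 11) (nat_lit 2) (nat_lit 0x2f00005e0000bf93cd7f0dd2fdb93) b14299 (.nil))) (.tok (nat_lit 6) (nat_lit 0x2f00005e0000bfcbf97f65c2fe691) (.hit (nat_lit 12) (nat_lit 7) (nat_lit 0x2f00005e0000bf71357ea6d2fceb3) b14300 (.hit (nat_lit 16) (nat_lit 15) (nat_lit 0x2f00005e0000bf53d17ea1eafce16) b14304 (.tok (nat_lit 55) (nat_lit 0x2f00005e0000bfcbf97f65c2fe691) (.hit (nat_lit 13) (nat_lit 8) (nat_lit 0x2f00005e0000bfad897f2992fdf0b) b14301 (.hit (nat_lit 17) (nat_lit 16) (nat_lit 0x2f00005e0000bfa9fd7f217afde08) b14305 (.tok (nat_lit 6) (nat_lit 0x2f00005e0000bfcbf97f65c2fe691)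 (.hit (nat_lit 14) (nat_lit 9) (nat_lit 0x2f00005e0000bf97c97f18f2fdcf7) b14302 (.one (nat_lit 55) (nat_lit 15) (nat_lit 10) (nat_lit 0x2f00005e0000bfcbf97f65c2fe691) b14303 (.nil))) (.nil)))) (.nil)))) (.nil)))) (.tok (nat_lit 9) (nat_lit 0x2f00005e0000c000018000030021a) (.hit (nat_lit 0) (nat_lit 0) (nat_lit 0x2f00005e0000bfa4557f44bafe270) b14288 (.tok (nat_lit 3) (nat_lit 0x2f00005e0000bf96f57f496aff0c3) (.hit (nat_lit 1) (nat_lit 1) (nat_lit 0x2f00005e0000bf3a517e9d6afcd86) b14289 (.one (nat_lit 55) (nat_lit 2) (nat_lit 3) (nat_lit 0x2f00005e0000bf96f57f496aff0c3) b14290 (.nil))) (.tok (nat_lit 9) (nat_lit 0x2f00005e0000c000018000030021a) (.hit (nat_lit 3) (nat_lit 20) (nat_lit 0x2f00005e0000bf7cbd7f0b9afdb4c) b14291 (.hit (nat_lit 7) (nat_lit 28) (nat_lit 0x2f00005e0000bf38a97ea1dafce14) b14295 (.tok (nat_lit 67) (nat_lit 0x2f00005e0000c000018000030021a) (.hit (nat_lit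 4) (nat_lit 21) (nat_lit 0x2f00005e0000bfc9017f913afec00) b14292 (.hit (nat_lit 8) (nat_lit 29) (nat_lit 0x2f00005e0000bf8a6d7f43baff00d) b14296 (.tok (nat_lit 9) (nat_lit 0x2f00005e0000c000018000030021a) (.hit (nat_lit 5) (nat_lit 22) (nat_lit 0x2f00005e0000bfb0697f4fc2fe8bf) b14293 (.one (nat_lit 67) (nat_lit 6) (nat_lit 23) (nat_lit 0x2f00005e0000c000018000030021a) b14294 (.nil))) (.nil)))) (.nil)))) (.nil)))) (.nil)))
noncomputable def r20_32 : Rw Blk := .tok (nat_lit 3) (nat_lit 0x1780002f00005fcbd8bf8f197f2152fe0cb) (.hit (nat_lit 0) (nat_lit 0) (nat_lit 0x1780002f00005fcbd8bf8f197f2152fe0cb) b35978 (.tok (nat_lit 6) (nat_lit 0x1780002f00005fb6b8bf60517ee7cafda08) (.hit (nat_lit 1) (nat_lit 7) (nat_lit 0x1780002f00005fb460bf5ba17ede6afd8dc) b14358 (.hit (nat_lit 2) (nat_lit 15) (nat_lit 0x1780002f00005fb6b8bf60517ee7cafda08) b14359 (.nil))) (.tok (nat_lit 9) (nat_lit 0x1780002f00005fb6b8bf60517ee7cafda08)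 (.hit (nat_lit 3) (nat_lit 20) (nat_lit 0x1780002f00005fb460bf5ba17ede6afd8dc) b14358 (.hit (nat_lit 4) (nat_lit 28) (nat_lit 0x1780002f00005fb6b8bf60517ee7cafda08) b14359 (.nil))) (.nil)))) (.tok (nat_lit 6) (nat_lit 0x1780002f0000600000c000017fff9b00000) (.hit (nat_lit 13) (nat_lit 0) (nat_lit 0x1780002f00005fda4cbfbca17f7c7afebb2) b14360 (.tok (nat_lit 3) (nat_lit 0x1780002f00005ffc88bff3357ff872ffb95) (.hit (nat_lit 14) (nat_lit 1) (nat_lit 0x1780002f00005fbeb0bf77cd7f07a2fdd54) b14361 (.one (nat_lit 67) (nat_lit 15) (nat_lit 2) (nat_lit 0x1780002f00005ffc88bff3357ff872ffb95) b14362 (.nil))) (.tok (nat_lit 6) (nat_lit 0x1780002f0000600000c000017fff9b00000) (.hit (nat_lit 16) (nat_lit 7) (nat_lit 0x1780002f00005fd712bfb5f57f6922feda7) b14363 (.hit (nat_lit 19) (nat_lit 15) (nat_lit 0x1780002f00005fc43ebf8bb17f171afdf53) b14366 (.tok (nat_lit 55) (nat_lit 0x1780002f0000600000c000017fff9b00000)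 (.hit (nat_lit 17) (nat_lit 8) (nat_lit 0x1780002f00005fff50c000017ffa7300000) b14364 (.hit (nat_lit 20) (nat_lit 16) (nat_lit 0x1780002f00005ff7ccbff17d7fe5baffc01) b14367 (.one (nat_lit 6) (nat_lit 18) (nat_lit 9) (nat_lit 0x1780002f0000600000bffef17fff9affcc7) b14365 (.nil)))) (.nil)))) (.nil)))) (.tok (nat_lit 9) (nat_lit 0x1780002f0000600000bfec61800002ffbfa) (.hit (nat_lit 5) (nat_lit 0) (nat_lit 0x1780002f00005fda4cbfa8397f7c7afeb7f) b14368 (.tok (nat_lit 3) (nat_lit 0x1780002f00005ffc88bfe89d7ff872ffafe) (.hit (nat_lit 6) (nat_lit 1) (nat_lit 0x1780002f00005fbeb0bf70357f07a2fdce4) b14369 (.one (nat_lit 55) (nat_lit 7) (nat_lit 3) (nat_lit 0x1780002f00005ffc88bfe89d7ff872ffafe) b14370 (.nil))) (.tok (nat_lit 9) (nat_lit 0x1780002f0000600000bfec61800002ffbfa) (.hit (nat_lit 8) (nat_lit 20) (nat_lit 0x1780002f00005fd712bf9bdd7f6922fe914) b14371 (.hit (nat_lit 11) (nat_lit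 28) (nat_lit 0x1780002f00005fc43ebf77f17f171afded3) b14374 (.tok (nat_lit 67) (nat_lit 0x1780002f0000600000bfec61800002ffbfa) (.hit (nat_lit 9) (nat_lit 21) (nat_lit 0x1780002f00005fff50bfe99d7ffa72ffb3e) b14372 (.hit (nat_lit 12) (nat_lit 29) (nat_lit 0x1780002f00005ff7ccbfdf417fe5baff8a7) b14375 (.one (nat_lit 9) (nat_lit 10) (nat_lit 22) (nat_lit 0x1780002f0000600000bfec61800002ffbfa) b14373 (.nil)))) (.nil)))) (.nil)))) (.nil)))
noncomputable def r20_33 : Rw Blk := .tok (nat_lit 3) (nat_lit 0x1780002f00005fbf30bf6c717edc42fdd62) (.hit (nat_lit 0) (nat_lit 0) (nat_lit 0x1780002f00005fbf30bf6c717edc42fdd62) b35979 (.tok (nat_lit 6) (nat_lit 0x1780002f00005f9ddebf44557e51b2fd35b) (.hit (nat_lit 1) (nat_lit 7) (nat_lit 0x1780002f00005f9ddebf44557e51b2fd35b) b14377 (.hit (nat_lit 2) (nat_lit 15) (nat_lit 0x1780002f00005f9dcebf44357e5172fd353) b14378 (.nil))) (.tok (nat_lit 9)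 (nat_lit 0x1780002f00005f9ddebf44557e51b2fd35b) (.hit (nat_lit 3) (nat_lit 20) (nat_lit 0x1780002f00005f9ddebf44557e51b2fd35b) b14377 (.hit (nat_lit 4) (nat_lit 28) (nat_lit 0x1780002f00005f9dcebf44357e5172fd353) b14378 (.nil))) (.nil)))) (.tok (nat_lit 6) (nat_lit 0x1780002f0000600000bfc6757ff2f2ff9dc) (.hit (nat_lit 5) (nat_lit 0) (nat_lit 0x1780002f00005fdd30bf940d7f6272fe8fe) b14387 (.one (nat_lit 3) (nat_lit 6) (nat_lit 1) (nat_lit 0x1780002f00005fb320bf24bd7e939afcdf0) b14388 (.tok (nat_lit 6) (nat_lit 0x1780002f0000600000bfc6757ff2f2ff9dc) (.hit (nat_lit 7) (nat_lit 7) (nat_lit 0x1780002f00005fd57ebf863d7f34f2fe3d5) b14389 (.hit (nat_lit 11) (nat_lit 15) (nat_lit 0x1780002f00005fc3a6bf46597ec6eafd45a) b14393 (.tok (nat_lit 55) (nat_lit 0x1780002f0000600000bfc6757ff2f2ff9dc) (.hit (nat_lit 8) (nat_lit 8) (nat_lit 0x1780002f00005fd1f6bfa5317f944aff0c2) b14390 (.hit (nat_lit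 12) (nat_lit 16) (nat_lit 0x1780002f00005fdfdabfb9997fbae2ff708) b14394 (.tok (nat_lit 6) (nat_lit 0x1780002f0000600000bfc6757ff2f2ff9dc) (.hit (nat_lit 9) (nat_lit 9) (nat_lit 0x1780002f00005fe1e8bfa3697f877afec1e) b14391 (.one (nat_lit 55) (nat_lit 10) (nat_lit 10) (nat_lit 0x1780002f0000600000bfc6757ff2f2ff9dc) b14392 (.nil))) (.nil)))) (.nil)))) (.nil)))) (.tok (nat_lit 9) (nat_lit 0x1780002f0000600000c0022580000300000) (.hit (nat_lit 13) (nat_lit 0) (nat_lit 0x1780002f00005fdd30bfb0817f8f82fe99b) b14379 (.one (nat_lit 3) (nat_lit 14) (nat_lit 1) (nat_lit 0x1780002f00005fb320bf455d7e9392fd225) b14380 (.tok (nat_lit 9) (nat_lit 0x1780002f0000600000c0022580000300000) (.hit (nat_lit 15) (nat_lit 20) (nat_lit 0x1780002f00005fd57ebf8af57f2b7afe3d5) b14381 (.hit (nat_lit 19) (nat_lit 28) (nat_lit 0x1780002f00005fc3a6bf81557ec6fafdb8e) b14385 (.tok (nat_lit 67) (nat_lit 0x1780002f0000600000c0022580000300000)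 (.hit (nat_lit 16) (nat_lit 21) (nat_lit 0x1780002f00005fd1f6bfc5c97fb9eaff0d8) b14382 (.hit (nat_lit 20) (nat_lit 29) (nat_lit 0x1780002f00005fdfdabfea197fb912ff858) b14386 (.tok (nat_lit 9) (nat_lit 0x1780002f0000600000c0022580000300000) (.hit (nat_lit 17) (nat_lit 22) (nat_lit 0x1780002f00005fe1e8bfb09d7f5ddafec08) b14383 (.one (nat_lit 67) (nat_lit 18) (nat_lit 23) (nat_lit 0x1780002f0000600000c0022580000300000) b14384 (.nil))) (.nil)))) (.nil)))) (.nil)))) (.nil)))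
noncomputable def r20_34 : Rw Blk := .tok (nat_lit 3) (nat_lit 0x1780002f00005fb77ebf4b257e6a72fd787) (.hit (nat_lit 14) (nat_lit 0) (nat_lit 0x1780002f00005fb77ebf4b257e6a72fd787) b14428 (.tok (nat_lit 6) (nat_lit 0x1780002f00005f861abef1617da562fbe4a) (.hit (nat_lit 15) (nat_lit 7) (nat_lit 0x1780002f00005f861abef1617da562fbe4a) b14431 (.hit (nat_lit 16) (nat_lit 15) (nat_lit 0x1780002f00005f652ebeaf897d21b2fadd4) b14432 (.nil))) (.tok (nat_lit 9) (nat_lit 0x1780002f00005fa4e2bf2ef17e2082fcdae) (.hit (nat_lit 17) (nat_lit 20) (nat_lit 0x1780002f00005fa4e2bf2ef17e2082fcdae) b14429 (.hit (nat_lit 18) (nat_lit 28) (nat_lit 0x1780002f00005fa46ebf2e097e1eb2fcd74) b14430 (.nil))) (.nil)))) (.tok (nat_lit 6) (nat_lit 0x1780002f0000600000c00b3180000300000) (.hit (nat_lit 0) (nat_lit 0) (nat_lit 0x1780002f00005fe306bf98597f44cafec8a) b14414 (.tok (nat_lit 3) (nat_lit 0x1780002f00005ff60cbfbd297f64baff63a)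 (.hit (nat_lit 1) (nat_lit 1) (nat_lit 0x1780002f00005fc3aebf54d17e9b2afdd08) b14415 (.one (nat_lit 67) (nat_lit 2) (nat_lit 2) (nat_lit 0x1780002f00005ff60cbfbd297f64baff63a) b14416 (.nil))) (.tok (nat_lit 6) (nat_lit 0x1780002f0000600000c00b3180000300000) (.hit (nat_lit 3) (nat_lit 7) (nat_lit 0x1780002f00005fd4dcbf76f17ee422fe5b0) b14417 (.hit (nat_lit 7) (nat_lit 15) (nat_lit 0x1780002f00005fc0b4bf4f017e923afdb8b) b14421 (.tok (nat_lit 55) (nat_lit 0x1780002f0000600000c00b3180000300000) (.hit (nat_lit 4) (nat_lit 8) (nat_lit 0x1780002f00005fef66bfbded7f7762ff670) b14418 (.hit (nat_lit 8) (nat_lit 16) (nat_lit 0x1780002f00005ff260bfb2617f580aff464) b14422 (.tok (nat_lit 6) (nat_lit 0x1780002f0000600000c00b3180000300000) (.hit (nat_lit 5) (nat_lit 9) (nat_lit 0x1780002f00005fe3a6bfaff57f50aafee15) b14419 (.one (nat_lit 55) (nat_lit 6) (nat_lit 10) (nat_lit 0x1780002f0000600000c00b3180000300000)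 b14420 (.nil))) (.nil)))) (.nil)))) (.nil)))) (.tok (nat_lit 9) (nat_lit 0x1780002f00005fc8d2bfc3397f98eaffbf7) (.hit (nat_lit 9) (nat_lit 0) (nat_lit 0x1780002f00005fb784bf79657ee662fe683) b14423 (.tok (nat_lit 3) (nat_lit 0x1780002f00005fc45cbfc3397f98eaffbf7) (.hit (nat_lit 10) (nat_lit 1) (nat_lit 0x1780002f00005fb19ebf6a097ec772fe291) b14424 (.one (nat_lit 55) (nat_lit 11) (nat_lit 3) (nat_lit 0x1780002f00005fc45cbfc3397f98eaffbf7) b14425 (.nil))) (.tok (nat_lit 9) (nat_lit 0x1780002f00005fc8d2bf90517f143afecec) (.hit (nat_lit 12) (nat_lit 20) (nat_lit 0x1780002f00005fc8d2bf90517f143afecec) b14426 (.hit (nat_lit 13) (nat_lit 28) (nat_lit 0x1780002f00005fbf64bf78157ee38afe614) b14427 (.nil))) (.nil)))) (.nil)))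
noncomputable def r20_35 : Rw Blk := .tok (nat_lit 3) (nat_lit 0x2f00005e0000bf6efd7f2ecafe5dc) (.hit (nat_lit 14) (nat_lit 0) (nat_lit 0x2f00005e0000bf6efd7f2ecafe5dc) b14409 (.tok (nat_lit 6) (nat_lit 0x2f00005e0000bf49c57ee472fdbb0) (.hit (nat_lit 15) (nat_lit 7) (nat_lit 0x2f00005e0000bf49c57ee472fdbb0) b14412 (.hit (nat_lit 16) (nat_lit 15) (nat_lit 0x2f00005e0000bf48dd7ee2a2fdb76) b14413 (.nil))) (.tok (nat_lit 9) (nat_lit 0x2f00005e0000bf0c357e6952fcc4c) (.hit (nat_lit 17) (nat_lit 20) (nat_lit 0x2f00005e0000bf0c357e6952fcc4c) b14410 (.hit (nat_lit 18) (nat_lit 28) (nat_lit 0x2f00005e0000beca5d7de5a2fbbd6) b14411 (.nil))) (.nil)))) (.tok (nat_lit 6) (nat_lit 0x2f00005e0000bf91a57ff032ff6fb) (.hit (nat_lit 9) (nat_lit 0) (nat_lit 0x2f00005e0000bf6f097f33c2fe70a) b14404 (.tok (nat_lit 3) (nat_lit 0x2f00005e0000bf88b97ff032ff6fb) (.hit (nat_lit 10) (nat_lit 1) (nat_lit 0x2f00005e0000bf633d7f147afe298)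 b14405 (.one (nat_lit 67) (nat_lit 11) (nat_lit 2) (nat_lit 0x2f00005e0000bf88b97ff032ff6fb) b14406 (.nil))) (.tok (nat_lit 6) (nat_lit 0x2f00005e0000bf91a57f6142fec2a) (.hit (nat_lit 12) (nat_lit 7) (nat_lit 0x2f00005e0000bf91a57f6142fec2a) b14407 (.hit (nat_lit 13) (nat_lit 15) (nat_lit 0x2f00005e0000bf7ec97f3092fe834) b14408 (.nil))) (.nil)))) (.tok (nat_lit 9) (nat_lit 0x2f00005e0000c0000180000300000) (.hit (nat_lit 0) (nat_lit 0) (nat_lit 0x2f00005e0000bfc60d7f977aff131) b14395 (.tok (nat_lit 3) (nat_lit 0x2f00005e0000bfec197fdef2ff637) (.hit (nat_lit 1) (nat_lit 1) (nat_lit 0x2f00005e0000bf875d7ee832fdd08) b14396 (.one (nat_lit 55) (nat_lit 2) (nat_lit 3) (nat_lit 0x2f00005e0000bfec197fdef2ff637) b14397 (.nil))) (.tok (nat_lit 9) (nat_lit 0x2f00005e0000c0000180000300000) (.hit (nat_lit 3) (nat_lit 20) (nat_lit 0x2f00005e0000bfa9b97f2d72fe5b0) b14398 (.hit (nat_lit 7) (nat_lit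 28) (nat_lit 0x2f00005e0000bf81697f190afe243) b14402 (.tok (nat_lit 67) (nat_lit 0x2f00005e0000c0000180000300000) (.hit (nat_lit 4) (nat_lit 21) (nat_lit 0x2f00005e0000bfdecd7fbfe2ff7f6) b14399 (.hit (nat_lit 8) (nat_lit 29) (nat_lit 0x2f00005e0000bfe4c17fa322ff461) b14403 (.tok (nat_lit 9) (nat_lit 0x2f00005e0000c0000180000300000) (.hit (nat_lit 5) (nat_lit 22) (nat_lit 0x2f00005e0000bfc74d7fab52ff48c) b14400 (.one (nat_lit 67) (nat_lit 6) (nat_lit 23) (nat_lit 0x2f00005e0000c0000180000300000) b14401 (.nil))) (.nil)))) (.nil)))) (.nil)))) (.nil)))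
noncomputable def r20_36 : Rw Blk := .tok (nat_lit 3) (nat_lit 0x1780002f00005faab6bf7cc57ed572fd82a) (.hit (nat_lit 0) (nat_lit 0) (nat_lit 0x1780002f00005faab6bf7cc57ed572fd82a) b35980 (.tok (nat_lit 6) (nat_lit 0x1780002f00005f8ee4bf50cd7e806afcc62) (.hit (nat_lit 1) (nat_lit 7) (nat_lit 0x1780002f00005f8ee4bf50cd7e806afcc62) b14434 (.hit (nat_lit 2) (nat_lit 15) (nat_lit 0x1780002f00005f8e50bf4fa57e7e1afcc18) b14435 (.nil))) (.tok (nat_lit 9) (nat_lit 0x1780002f00005f8ee4bf50cd7e806afcc62) (.hit (nat_lit 3) (nat_lit 20) (nat_lit 0x1780002f00005f8ee4bf50cd7e806afcc62) b14434 (.hit (nat_lit 4) (nat_lit 28) (nat_lit 0x1780002f00005f8e50bf4fa57e7e1afcc18) b14435 (.nil))) (.nil)))) (.tok (nat_lit 6) (nat_lit 0x1780002f0000600a20c00001800002ff558) (.hit (nat_lit 5) (nat_lit 0) (nat_lit 0x1780002f00005fe9b2bfa2c17f8a62feb50) b14444 (.tok (nat_lit 3) (nat_lit 0x1780002f00005fcb2abfbe817f572afe4a6)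 (.hit (nat_lit 6) (nat_lit 1) (nat_lit 0x1780002f00005f9080bf4fc57e79bafc9f7) b14445 (.one (nat_lit 67) (nat_lit 7) (nat_lit 2) (nat_lit 0x1780002f00005fcb2abfbe817f572afe4a6) b14446 (.nil))) (.tok (nat_lit 6) (nat_lit 0x1780002f0000600a20c00001800002ff558) (.hit (nat_lit 8) (nat_lit 7) (nat_lit 0x1780002f00005fdc78bfaa617f35e2fe084) b14447 (.hit (nat_lit 11) (nat_lit 15) (nat_lit 0x1780002f00005f9ebcbf6bb17eb17afd1a4) b14450 (.tok (nat_lit 55) (nat_lit 0x1780002f0000600a20c00001800002ff558) (.hit (nat_lit 9) (nat_lit 8) (nat_lit 0x1780002f0000600a20c00001800002ff558) b14448 (.hit (nat_lit 12) (nat_lit 16) (nat_lit 0x1780002f00005feb8cbfe8b57fab92fef33) b14451 (.one (nat_lit 6) (nat_lit 10) (nat_lit 9) (nat_lit 0x1780002f00005ff1e2bfdc117f9232fec36) b14449 (.nil)))) (.nil)))) (.nil)))) (.tok (nat_lit 9) (nat_lit 0x1780002f0000600a20bff4c17fdb8b00000) (.hit (nat_lit 13) (nat_lit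 0) (nat_lit 0x1780002f00005fe9b2bfb6157f8c52ff1c0) b14436 (.tok (nat_lit 3) (nat_lit 0x1780002f00005fcb2abfc1157f695afe7c8) (.hit (nat_lit 14) (nat_lit 1) (nat_lit 0x1780002f00005f9080bf49957e838afc9f7) b14437 (.one (nat_lit 55) (nat_lit 15) (nat_lit 3) (nat_lit 0x1780002f00005fcb2abfc1157f695afe7c8) b14438 (.nil))) (.tok (nat_lit 9) (nat_lit 0x1780002f0000600a20bff4c17fdb8b00000) (.hit (nat_lit 16) (nat_lit 20) (nat_lit 0x1780002f00005fdc78bf9e6d7f2ed2fea8b) b14439 (.hit (nat_lit 19) (nat_lit 28) (nat_lit 0x1780002f00005f9ebcbf65d57eb0aafd1a4) b14442 (.tok (nat_lit 67) (nat_lit 0x1780002f0000600a20bff4c17fdb8b00000) (.hit (nat_lit 17) (nat_lit 21) (nat_lit 0x1780002f0000600a20bff4c17fdb8b00000) b14440 (.hit (nat_lit 20) (nat_lit 29) (nat_lit 0x1780002f00005feb8cbfeb897fabc2ff49c) b14443 (.one (nat_lit 9) (nat_lit 18) (nat_lit 22) (nat_lit 0x1780002f00005ff1e2bfc1a97f7502ff198)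 b14441 (.nil)))) (.nil)))) (.nil)))) (.nil)))
noncomputable def r20_37 : Rw Blk := .tok (nat_lit 3) (nat_lit 0x2f00005e0000bf93497ee8d2fe1da) (.hit (nat_lit 0) (nat_lit 0) (nat_lit 0x2f00005e0000bf93497ee8d2fe1da) b35981 (.tok (nat_lit 6) (nat_lit 0x2f00005e0000bf65ed7ea472fd4c6) (.hit (nat_lit 1) (nat_lit 7) (nat_lit 0x2f00005e0000bf65ed7ea472fd4c6) b14453 (.hit (nat_lit 2) (nat_lit 15) (nat_lit 0x2f00005e0000bf5f497e972afd31d) b14454 (.nil))) (.tok (nat_lit 9) (nat_lit 0x2f00005e0000bf65ed7ea472fd4c6) (.hit (nat_lit 3) (nat_lit 20) (nat_lit 0x2f00005e0000bf65ed7ea472fd4c6) b14453 (.hit (nat_lit 4) (nat_lit 28) (nat_lit 0x2f00005e0000bf5f497e972afd31d) b14454 (.nil))) (.nil)))) (.tok (nat_lit 6) (nat_lit 0x2f00005e0000c000017feb52ffeab) (.hit (nat_lit 13) (nat_lit 0) (nat_lit 0x2f00005e0000bfd8c97f60baff29a) b14455 (.one (nat_lit 3) (nat_lit 14) (nat_lit 1) (nat_lit 0x2f00005e0000bf4ff17e3e6afcbaa)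 b14456 (.tok (nat_lit 6) (nat_lit 0x2f00005e0000c000017feb52ffeab) (.hit (nat_lit 15) (nat_lit 7) (nat_lit 0x2f00005e0000bfc29d7ee51afdf20) b14457 (.hit (nat_lit 19) (nat_lit 15) (nat_lit 0x2f00005e0000bf89297ea63afd8ed) b14461 (.tok (nat_lit 55) (nat_lit 0x2f00005e0000c000017feb52ffeab) (.hit (nat_lit 16) (nat_lit 8) (nat_lit 0x2f00005e0000bfff297fd6caffeab) b14458 (.hit (nat_lit 20) (nat_lit 16) (nat_lit 0x2f00005e0000c000017f9bcaff867) b14462 (.tok (nat_lit 6) (nat_lit 0x2f00005e0000bffec17feb52ffe1b) (.hit (nat_lit 17) (nat_lit 9) (nat_lit 0x2f00005e0000bfc5a57f76eaff0fd) b14459 (.one (nat_lit 55) (nat_lit 18) (nat_lit 10) (nat_lit 0x2f00005e0000bffec17feb52ffe1b) b14460 (.nil))) (.nil)))) (.nil)))) (.nil)))) (.tok (nat_lit 9) (nat_lit 0x2f00005e0000c00001800b1300000) (.hit (nat_lit 5) (nat_lit 0) (nat_lit 0x2f00005e0000bfd8c97fab32fef2e) b14463 (.one (nat_lit 3) (nat_lit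 6) (nat_lit 1) (nat_lit 0x2f00005e0000bf4ff17e6e7afcefa) b14464 (.tok (nat_lit 9) (nat_lit 0x2f00005e0000c00001800b1300000) (.hit (nat_lit 7) (nat_lit 20) (nat_lit 0x2f00005e0000bfc29d7f1e3afea88) b14465 (.hit (nat_lit 11) (nat_lit 28) (nat_lit 0x2f00005e0000bf89297ed97afdd47) b14469 (.tok (nat_lit 67) (nat_lit 0x2f00005e0000c00001800b1300000) (.hit (nat_lit 8) (nat_lit 21) (nat_lit 0x2f00005e0000bfff297fd4aaffd69) b14466 (.hit (nat_lit 12) (nat_lit 29) (nat_lit 0x2f00005e0000c000017fd672ffb95) b14470 (.tok (nat_lit 9) (nat_lit 0x2f00005e0000bffec1800b1300000) (.hit (nat_lit 9) (nat_lit 22) (nat_lit 0x2f00005e0000bfc5a57fc6eaffb91) b14467 (.one (nat_lit 67) (nat_lit 10) (nat_lit 23) (nat_lit 0x2f00005e0000bffec1800b1300000) b14468 (.nil))) (.nil)))) (.nil)))) (.nil)))) (.nil)))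
noncomputable def r20_38 : Rw Blk := .tok (nat_lit 3) (nat_lit 0x1780002f00005fb1cabf7e457f1ec2fd97e) (.hit (nat_lit 0) (nat_lit 0) (nat_lit 0x1780002f00005fb1cabf7e457f1ec2fd97e) b35982 (.tok (nat_lit 6) (nat_lit 0x1780002f00005f8692bf26e57e121afc51e) (.hit (nat_lit 1) (nat_lit 7) (nat_lit 0x1780002f00005f8472bf22a57e099afc40e) b14472 (.hit (nat_lit 2) (nat_lit 15) (nat_lit 0x1780002f00005f8692bf26e57e121afc51e) b14473 (.nil))) (.tok (nat_lit 9) (nat_lit 0x1780002f00005f8692bf26e57e121afc51e) (.hit (nat_lit 3) (nat_lit 20) (nat_lit 0x1780002f00005f8472bf22a57e099afc40e) b14472 (.hit (nat_lit 4) (nat_lit 28) (nat_lit 0x1780002f00005f8692bf26e57e121afc51e) b14473 (.nil))) (.nil)))) (.tok (nat_lit 6) (nat_lit 0x1780002f0000600000c01a59805bab00000) (.hit (nat_lit 13) (nat_lit 0) (nat_lit 0x1780002f00005fc7a8bfa82d7f670afe4ef) b14474 (.one (nat_lit 3) (nat_lit 14) (nat_lit 1) (nat_lit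 0x1780002f00005f92f2bf38fd7e9cf2fc640) b14475 (.tok (nat_lit 6) (nat_lit 0x1780002f0000600000c01a59805bab00000) (.hit (nat_lit 15) (nat_lit 7) (nat_lit 0x1780002f00005fb88abf42697e8acafd18c) b14476 (.hit (nat_lit 19) (nat_lit 15) (nat_lit 0x1780002f00005f9ac2bf49d97e80e2fcbd7) b14480 (.tok (nat_lit 55) (nat_lit 0x1780002f0000600000c01a59805bab00000) (.hit (nat_lit 16) (nat_lit 8) (nat_lit 0x1780002f0000600000c01a59805bab00000) b14477 (.hit (nat_lit 20) (nat_lit 16) (nat_lit 0x1780002f00005fcbf2bfb2c17f26e2fe596) b14481 (.tok (nat_lit 6) (nat_lit 0x1780002f00005fe4c6bfe5857fbaeaff1b7) (.hit (nat_lit 17) (nat_lit 9) (nat_lit 0x1780002f00005fd612bf9b217f0262fe575) b14478 (.one (nat_lit 55) (nat_lit 18) (nat_lit 10) (nat_lit 0x1780002f00005fe4c6bfe5857fbaeaff1b7) b14479 (.nil))) (.nil)))) (.nil)))) (.nil)))) (.tok (nat_lit 9) (nat_lit 0x1780002f0000600000c019d180047afff1d) (.hit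 (nat_lit 5) (nat_lit 0) (nat_lit 0x1780002f00005fc7a8bfbaa97f33dafe098) b14482 (.one (nat_lit 3) (nat_lit 6) (nat_lit 1) (nat_lit 0x1780002f00005f92f2bf3e597e3ae2fc512) b14483 (.tok (nat_lit 9) (nat_lit 0x1780002f0000600000c019d180047afff1d) (.hit (nat_lit 7) (nat_lit 20) (nat_lit 0x1780002f00005fb88abf6e7d7ecd72fd91a) b14484 (.hit (nat_lit 11) (nat_lit 28) (nat_lit 0x1780002f00005f9ac2bf57117e5eeafc993) b14488 (.tok (nat_lit 67) (nat_lit 0x1780002f0000600000c019d180047afff1d) (.hit (nat_lit 8) (nat_lit 21) (nat_lit 0x1780002f0000600000c019d180047afff1d) b14485 (.hit (nat_lit 12) (nat_lit 29) (nat_lit 0x1780002f00005fcbf2bfcd517f2f2afe307) b14489 (.tok (nat_lit 9) (nat_lit 0x1780002f00005fe4c6c003dd7fabf2ff1db) (.hit (nat_lit 9) (nat_lit 22) (nat_lit 0x1780002f00005fd612bfd4797f601afeade) b14486 (.one (nat_lit 67) (nat_lit 10) (nat_lit 23) (nat_lit 0x1780002f00005fe4c6c003dd7fabf2ff1db)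 b14487 (.nil))) (.nil)))) (.nil)))) (.nil)))) (.nil)))
noncomputable def r20_39 : Rw Blk := .tok (nat_lit 3) (nat_lit 0xbc0001780002fe2cd) (.hit (nat_lit 14) (nat_lit 0) (nat_lit 0xbc0001780002fe2cd) b8399 (.tok (nat_lit 6) (nat_lit 0xbc0001780002fd794) (.hit (nat_lit 15) (nat_lit 7) (nat_lit 0xbc0001780002fd794) b8400 (.hit (nat_lit 16) (nat_lit 15) (nat_lit 0xbc0001780002fcb6d) b8401 (.nil))) (.tok (nat_lit 9) (nat_lit 0xbc0001780002fbfc6) (.hit (nat_lit 17) (nat_lit 20) (nat_lit 0xbc0001780002fbfc6) b8402 (.hit (nat_lit 18) (nat_lit 28) (nat_lit 0xbc0001780002fb9fe) b8403 (.nil))) (.nil)))) (.tok (nat_lit 6) (nat_lit 0xbc0001780002ffcad) (.hit (nat_lit 9) (nat_lit 0) (nat_lit 0xbc0001780002ff925) b8394 (.tok (nat_lit 3) (nat_lit 0xbc0001780002ffcad) (.hit (nat_lit 10) (nat_lit 1) (nat_lit 0xbc0001780002fe6ca) b8395 (.one (nat_lit 67) (nat_lit 11) (nat_lit 2) (nat_lit 0xbc0001780002ffcad)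 b8396 (.nil))) (.tok (nat_lit 6) (nat_lit 0xbc0001780002ff74e) (.hit (nat_lit 12) (nat_lit 7) (nat_lit 0xbc0001780002ff74e) b8397 (.hit (nat_lit 13) (nat_lit 15) (nat_lit 0xbc0001780002fe7fa) b8398 (.nil))) (.nil)))) (.tok (nat_lit 9) (nat_lit 0xbc000178000300000) (.hit (nat_lit 0) (nat_lit 0) (nat_lit 0xbc0001780002ff8d3) b8385 (.tok (nat_lit 3) (nat_lit 0xbc000178000300000) (.hit (nat_lit 1) (nat_lit 1) (nat_lit 0xbc0001780002fe45a) b8386 (.one (nat_lit 55) (nat_lit 2) (nat_lit 3) (nat_lit 0xbc000178000300000) b8387 (.nil))) (.tok (nat_lit 9) (nat_lit 0xbc0001780002ffdbf) (.hit (nat_lit 3) (nat_lit 20) (nat_lit 0xbc0001780002fee91) b8388 (.hit (nat_lit 7) (nat_lit 28) (nat_lit 0xbc0001780002fdcf4) b8392 (.tok (nat_lit 67) (nat_lit 0xbc0001780002ffdbf) (.hit (nat_lit 4) (nat_lit 21) (nat_lit 0xbc0001780002ffdbf) b8389 (.hit (nat_lit 8) (nat_lit 29) (nat_lit 0xbc0001780002fed2e)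 b8393 (.tok (nat_lit 9) (nat_lit 0xbc0001780002ffccd) (.hit (nat_lit 5) (nat_lit 22) (nat_lit 0xbc0001780002ff116) b8390 (.one (nat_lit 67) (nat_lit 6) (nat_lit 23) (nat_lit 0xbc0001780002ffccd) b8391 (.nil))) (.nil)))) (.nil)))) (.nil)))) (.nil)))
noncomputable def r20_40 : Rw Blk := .tok (nat_lit 3) (nat_lit 0x1780002f00005f9fb2bf17d97dedf2fc9a7) (.hit (nat_lit 14) (nat_lit 0) (nat_lit 0x1780002f00005f9fb2bf17d97ddaaafc9a7) b14542 (.tok (nat_lit 6) (nat_lit 0x1780002f00005f90eabef9397dedf2fc4c9) (.hit (nat_lit 15) (nat_lit 7) (nat_lit 0x1780002f00005f89acbeeabd7dd0fafc12a) b14545 (.hit (nat_lit 16) (nat_lit 15) (nat_lit 0x1780002f00005f90eabef9397dedf2fc4c9) b14546 (.nil))) (.tok (nat_lit 9) (nat_lit 0x1780002f00005f67d4bea70d7d499afb03e) (.hit (nat_lit 17) (nat_lit 20) (nat_lit 0x1780002f00005f67d4bea70d7d499afb03e) b14543 (.hit (nat_lit 18) (nat_lit 28) (nat_lit 0x1780002f00005f5e42be93e97d2352fab75)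 b14544 (.nil))) (.nil)))) (.tok (nat_lit 6) (nat_lit 0x1780002f00005fdc0ebf90257f0b5afe570) (.hit (nat_lit 9) (nat_lit 0) (nat_lit 0x1780002f00005fbbd0bf55a97e7e9afe207) b14537 (.tok (nat_lit 3) (nat_lit 0x1780002f00005fdc0ebf90257f0b5afe570) (.hit (nat_lit 10) (nat_lit 1) (nat_lit 0x1780002f00005fa9d2bf34217e42f2fd327) b14538 (.one (nat_lit 67) (nat_lit 11) (nat_lit 2) (nat_lit 0x1780002f00005fdc0ebf90257f0b5afe570) b14539 (.nil))) (.tok (nat_lit 6) (nat_lit 0x1780002f00005fc3c0bf49317e85dafe1f1) (.hit (nat_lit 12) (nat_lit 7) (nat_lit 0x1780002f00005fc3c0bf49317e85dafe1f1) b14540 (.hit (nat_lit 13) (nat_lit 15) (nat_lit 0x1780002f00005fabf8bf3a2d7e4ef2fd44e) b14541 (.nil))) (.nil)))) (.tok (nat_lit 9) (nat_lit 0x1780002f0000600000c037ad8027f3004da) (.hit (nat_lit 0) (nat_lit 0) (nat_lit 0x1780002f00005fd0eebfccc97f25cafeb32) b14528 (.tok (nat_lit 3) (nat_lit 0x1780002f00005ff2d2bfd7617f6852fef46)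 (.hit (nat_lit 1) (nat_lit 1) (nat_lit 0x1780002f00005fa9f2bf443d7e3f1afc9b9) b14529 (.one (nat_lit 55) (nat_lit 2) (nat_lit 3) (nat_lit 0x1780002f00005ff2d2bfd7617f6852fef46) b14530 (.nil))) (.tok (nat_lit 9) (nat_lit 0x1780002f0000600000c037ad8027f3004da) (.hit (nat_lit 3) (nat_lit 20) (nat_lit 0x1780002f00005fc224bf80b57ef0d2fdba7) b14531 (.hit (nat_lit 7) (nat_lit 28) (nat_lit 0x1780002f00005fa458bf3c117e2492fc8df) b14535 (.tok (nat_lit 67) (nat_lit 0x1780002f0000600000c037ad8027f3004da) (.hit (nat_lit 4) (nat_lit 21) (nat_lit 0x1780002f00005ff6d4bff3b97fbb7aff5e6) b14532 (.hit (nat_lit 8) (nat_lit 29) (nat_lit 0x1780002f00005fd640bfc8417f3b12fe7a2) b14536 (.tok (nat_lit 9) (nat_lit 0x1780002f0000600000c037ad8027f3004da) (.hit (nat_lit 5) (nat_lit 22) (nat_lit 0x1780002f00005fc982bfc6c17f4a52fe67d) b14533 (.one (nat_lit 67) (nat_lit 6) (nat_lit 23) (nat_lit 0x1780002f0000600000c037ad8027f3004da)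 b14534 (.nil))) (.nil)))) (.nil)))) (.nil)))) (.nil)))
noncomputable def r20_41 : Rw Blk := .tok (nat_lit 3) (nat_lit 0x1780002f00005fc59abfa9e57f3402fe9325fe314bfe4c17f9532fdc33) (.hit (nat_lit 14) (nat_lit 0) (nat_lit 0x1780002f00005fc59abfa9e57f3402fe9325fe314bfe4c17f9532fdc33) b14504 (.tok (nat_lit 6) (nat_lit 0x1780002f00005f7f8cbefa417dd83afc1625f6ba4bef0e57db3eafb2fd) (.hit (nat_lit 15) (nat_lit 7) (nat_lit 0x1780002f00005f7f8cbefa417dd83afc1625f6ba4bef0e57db3eafb2fd) b14507 (.hit (nat_lit 16) (nat_lit 15) (nat_lit 0x1780002f00005f73fcbee3217da9fafbb9a5f6014bed9c57d85aafad35) b14508 (.nil))) (.tok (nat_lit 9) (nat_lit 0x1780002f00005faf28bf59797e96aafd9305f9b40bf501d7e725afcacb) (.hit (nat_lit 17) (nat_lit 20) (nat_lit 0x1780002f00005faf28bf59797e96aafd9305f9b40bf501d7e725afcacb) b14505 (.hit (nat_lit 18) (nat_lit 28) (nat_lit 0x1780002f00005f96dabf28dd7e3572fcd095f82f2bf1f817e1122fbea4)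 b14506 (.nil))) (.nil)))) (.tok (nat_lit 6) (nat_lit 0x1780002f0000600000bfffcd800002fffd3600042c00e4580000300000) (.hit (nat_lit 0) (nat_lit 0) (nat_lit 0x1780002f00005ff1a6bfd6657f7e3afef325fc7e8bf9b397f340afe141) b14490 (.tok (nat_lit 3) (nat_lit 0x1780002f0000600000bfb6557f8352ff01f5fc960bf8bfd7f3032feb03) (.hit (nat_lit 1) (nat_lit 1) (nat_lit 0x1780002f00005fc8b4bf43397ea662fd4b15f90b4bf26f17e612afd238) b14491 (.one (nat_lit 67) (nat_lit 2) (nat_lit 2) (nat_lit 0x1780002f0000600000bfb6557f8352ff01f5fc960bf8bfd7f3032feb03) b14492 (.nil))) (.tok (nat_lit 6) (nat_lit 0x1780002f00005ffb7ebfffcd800002fffd3600042c00e4580000300000) (.hit (nat_lit 3) (nat_lit 7) (nat_lit 0x1780002f00005fdd22bf75817ee1fafd73c5fb5dabf83d97f0e6afd9cd) b14493 (.hit (nat_lit 7) (nat_lit 15) (nat_lit 0x1780002f00005fb9e8bf60197ea3eafdad85f9e90bf56bd7e7f9afcc73) b14497 (.tok (nat_lit 55) (nat_lit 0x1780002f00005ffb7ebfffcd800002fffd3600042c00e4580000300000)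 (.hit (nat_lit 4) (nat_lit 8) (nat_lit 0x1780002f00005ffb7ebfd6e57fb9e2ff639600042c00e457fe2c2ff49f) b14494 (.hit (nat_lit 8) (nat_lit 16) (nat_lit 0x1780002f00005fda5cbfcf457fad22ff5a05fd59cbf94897f6852ff0f8) b14498 (.tok (nat_lit 6) (nat_lit 0x1780002f00005ff99abfffcd800002fffd35ffc6ec0022d80000300000) (.hit (nat_lit 5) (nat_lit 9) (nat_lit 0x1780002f00005fe22cbf9e917f4f1afea765fe044bfbba57f5f6afe267) b14495 (.one (nat_lit 55) (nat_lit 6) (nat_lit 10) (nat_lit 0x1780002f00005ff99abfffcd800002fffd35ffc6ec0022d80000300000) b14496 (.nil))) (.nil)))) (.nil)))) (.nil)))) (.tok (nat_lit 9) (nat_lit 0x1780002f00005ff95ac000017ff5bb000005ff16cbff1017fd20aff155) (.hit (nat_lit 9) (nat_lit 0) (nat_lit 0x1780002f00005ff24abff7d17fc612fffbb5fe7e8bfd5117f8c72fea9f) b14499 (.tok (nat_lit 3) (nat_lit 0x1780002f00005ff95abfe6957fe63affc785fd3d0bfacbd7f52a2feabf) (.hit (nat_lit 10) (nat_lit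 1) (nat_lit 0x1780002f00005fcd94bf76ed7ee5aafdb9a5f9ca4bf4e097e9ad2fd090) b14500 (.one (nat_lit 55) (nat_lit 11) (nat_lit 3) (nat_lit 0x1780002f00005ff95abfe6957fe63affc785fd3d0bfacbd7f52a2feabf) b14501 (.nil))) (.tok (nat_lit 9) (nat_lit 0x1780002f00005fee9cc000017ff5bb000005ff16cbff1017fd20aff155) (.hit (nat_lit 12) (nat_lit 20) (nat_lit 0x1780002f00005fee9cc000017ff5bb000005ff16cbff1017fd20aff155) b14502 (.hit (nat_lit 13) (nat_lit 28) (nat_lit 0x1780002f00005fcff4bfb4017f27c2feb4a5fbfaebf7ca97f293afdb3d) b14503 (.nil))) (.nil)))) (.nil)))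
noncomputable def r20_42 : Rw Blk := .tok (nat_lit 3) (nat_lit 0x2f00005e0000bf3f657e8ba2fd6ce) (.hit (nat_lit 14) (nat_lit 0) (nat_lit 0x2f00005e0000bf3f657e8ba2fd6ce) b14523 (.tok (nat_lit 6) (nat_lit 0x2f00005e0000becfa97d8032fb936) (.hit (nat_lit 15) (nat_lit 7) (nat_lit 0x2f00005e0000becfa97d8032fb936) b14526 (.hit (nat_lit 16) (nat_lit 15) (nat_lit 0x2f00005e0000bebc857d59eafb46d) b14527 (.nil))) (.tok (nat_lit 9) (nat_lit 0x2f00005e0000bf21d57e248afcdc1) (.hit (nat_lit 17) (nat_lit 20) (nat_lit 0x2f00005e0000bf13597e0792fca22) b14524 (.hit (nat_lit 18) (nat_lit 28) (nat_lit 0x2f00005e0000bf21d57e248afcdc1) b14525 (.nil))) (.nil)))) (.tok (nat_lit 6) (nat_lit 0x2f00005e0000c0000180000300000) (.hit (nat_lit 0) (nat_lit 0) (nat_lit 0x2f00005e0000bfa1dd7f056afe84a) b14509 (.tok (nat_lit 3) (nat_lit 0x2f00005e0000bfe5a57f50b2fee1c) (.hit (nat_lit 1) (nat_lit 1) (nat_lit 0x2f00005e0000bf53e57e389afd043)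 b14510 (.one (nat_lit 67) (nat_lit 2) (nat_lit 2) (nat_lit 0x2f00005e0000bfe5a57f50b2fee1c) b14511 (.nil))) (.tok (nat_lit 6) (nat_lit 0x2f00005e0000c0000180000300000) (.hit (nat_lit 3) (nat_lit 7) (nat_lit 0x2f00005e0000bf84497f094afe071) b14512 (.hit (nat_lit 7) (nat_lit 15) (nat_lit 0x2f00005e0000bf48b17e453afd1d7) b14516 (.tok (nat_lit 55) (nat_lit 0x2f00005e0000c0000180000300000) (.hit (nat_lit 4) (nat_lit 8) (nat_lit 0x2f00005e0000bfeda97ff81affdd5) b14513 (.hit (nat_lit 8) (nat_lit 16) (nat_lit 0x2f00005e0000bfac817f30b2fea79) b14517 (.tok (nat_lit 6) (nat_lit 0x2f00005e0000c0000180000300000) (.hit (nat_lit 5) (nat_lit 9) (nat_lit 0x2f00005e0000bf93057f1cc2fe1ff) b14514 (.one (nat_lit 55) (nat_lit 6) (nat_lit 10) (nat_lit 0x2f00005e0000c0000180000300000) b14515 (.nil))) (.nil)))) (.nil)))) (.nil)))) (.tok (nat_lit 9) (nat_lit 0x2f00005e0000bfb81d7f41b2fefa4) (.hit (nat_lit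 9) (nat_lit 0) (nat_lit 0x2f00005e0000bf77a17eecdafe1e9) b14518 (.tok (nat_lit 3) (nat_lit 0x2f00005e0000bfb81d7f1872fefa4) (.hit (nat_lit 10) (nat_lit 1) (nat_lit 0x2f00005e0000bf53a57e68cafd995) b14519 (.one (nat_lit 55) (nat_lit 11) (nat_lit 3) (nat_lit 0x2f00005e0000bfb81d7f1872fefa4) b14520 (.nil))) (.tok (nat_lit 9) (nat_lit 0x2f00005e0000bf87817f41b2fe7d3) (.hit (nat_lit 12) (nat_lit 20) (nat_lit 0x2f00005e0000bf87817f41b2fe7d3) b14521 (.hit (nat_lit 13) (nat_lit 28) (nat_lit 0x2f00005e0000bf57f17e98e2fdb97) b14522 (.nil))) (.nil)))) (.nil)))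
noncomputable def r20_43 : Rw Blk := .tok (nat_lit 3) (nat_lit 0x1780002f00005faa54bf72dd7ed522fd981) (.hit (nat_lit 0) (nat_lit 0) (nat_lit 0x1780002f00005faa54bf71457ed522fd981) b14760 (.tok (nat_lit 6) (nat_lit 0x1780002f00005f9c96bf6a8d7eb52afd538) (.hit (nat_lit 1) (nat_lit 7) (nat_lit 0x1780002f00005f9c96bf6a8d7eb52afd538) b14763 (.hit (nat_lit 2) (nat_lit 15) (nat_lit 0x1780002f00005f9850bf62017ea412fd315) b14764 (.nil))) (.tok (nat_lit 9) (nat_lit 0x1780002f00005fa0bebf72dd7ec5cafd74c) (.hit (nat_lit 3) (nat_lit 20) (nat_lit 0x1780002f00005fa088bf72717ec4f2fd731) b14761 (.hit (nat_lit 4) (nat_lit 28) (nat_lit 0x1780002f00005fa0bebf72dd7ec5cafd74c) b14762 (.nil))) (.nil)))) (.tok (nat_lit 6) (nat_lit 0x1780002f0000600000c000018000030034c) (.hit (nat_lit 5) (nat_lit 0) (nat_lit 0x1780002f00005fccaebfa7717f390afe5ea) b14765 (.tok (nat_lit 3) (nat_lit 0x1780002f00005fdc4abfea497fb472ff51e)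 (.hit (nat_lit 6) (nat_lit 1) (nat_lit 0x1780002f00005fa000bf71bd7ec35afd6f8) b14766 (.one (nat_lit 67) (nat_lit 7) (nat_lit 2) (nat_lit 0x1780002f00005fdc4abfea497fb472ff51e) b14767 (.nil))) (.tok (nat_lit 6) (nat_lit 0x1780002f0000600000c000018000030034c) (.hit (nat_lit 8) (nat_lit 7) (nat_lit 0x1780002f00005fd11abfaf8d7f4e52febbb) b14768 (.hit (nat_lit 11) (nat_lit 15) (nat_lit 0x1780002f00005fa282bf76657eccdafd82e) b14771 (.tok (nat_lit 55) (nat_lit 0x1780002f0000600000c000018000030034c) (.hit (nat_lit 9) (nat_lit 8) (nat_lit 0x1780002f0000600000c000018000030034c) b14769 (.hit (nat_lit 12) (nat_lit 16) (nat_lit 0x1780002f00005fdabcbfe6fd7fadfaff453) b14772 (.one (nat_lit 6) (nat_lit 10) (nat_lit 9) (nat_lit 0x1780002f00005fd3a0bfbb597f56c2ff045) b14770 (.nil)))) (.nil)))) (.nil)))) (.tok (nat_lit 9) (nat_lit 0x1780002f00005feb70bfbf297f5e32fea53) (.hit (nat_lit 13) (nat_lit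 0) (nat_lit 0x1780002f00005fdef6bfaf6d7f3ebafe65c) b14773 (.tok (nat_lit 3) (nat_lit 0x1780002f00005fd812bfab5d7f36cafe56c) (.hit (nat_lit 14) (nat_lit 1) (nat_lit 0x1780002f00005fbf06bf681d7eb01afd490) b14774 (.one (nat_lit 55) (nat_lit 15) (nat_lit 3) (nat_lit 0x1780002f00005fd812bfab5d7f36cafe56c) b14775 (.nil))) (.tok (nat_lit 9) (nat_lit 0x1780002f00005feb70bfbf297f5e32fea53) (.hit (nat_lit 16) (nat_lit 20) (nat_lit 0x1780002f00005fc282bf7b957ed702fd969) b14776 (.hit (nat_lit 19) (nat_lit 28) (nat_lit 0x1780002f00005fba5cbf76657eccdafd82e) b14779 (.tok (nat_lit 67) (nat_lit 0x1780002f00005feb70bfbf297f5e32fea53) (.hit (nat_lit 17) (nat_lit 21) (nat_lit 0x1780002f00005fe43cbfbcb17f592afe9b3) b14777 (.hit (nat_lit 20) (nat_lit 29) (nat_lit 0x1780002f00005feb70bfbf297f5e32fea53) b14780 (.one (nat_lit 9) (nat_lit 18) (nat_lit 22) (nat_lit 0x1780002f00005fdff2bfbb497f56a2fe967)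 b14778 (.nil)))) (.nil)))) (.nil)))) (.nil)))
noncomputable def r20_44 : Rw Blk := .tok (nat_lit 3) (nat_lit 0x2f00005e0000bf28157f047afe607) (.hit (nat_lit 0) (nat_lit 0) (nat_lit 0x2f00005e0000bf28157f047afe607) b14781 (.tok (nat_lit 6) (nat_lit 0x2f00005e0000bee2c97ea3dafcfa5) (.hit (nat_lit 1) (nat_lit 7) (nat_lit 0x2f00005e0000bee1697ea11afcf4d) b14784 (.hit (nat_lit 2) (nat_lit 15) (nat_lit 0x2f00005e0000bee2c97ea3dafcfa5) b14785 (.nil))) (.tok (nat_lit 9) (nat_lit 0x2f00005e0000bee1d97ea1fafcf69) (.hit (nat_lit 3) (nat_lit 20) (nat_lit 0x2f00005e0000bedd557e98f2fce48) b14782 (.hit (nat_lit 4) (nat_lit 28) (nat_lit 0x2f00005e0000bee1d97ea1fafcf69) b14783 (.nil))) (.nil)))) (.tok (nat_lit 6) (nat_lit 0x2f00005e0000c01d318090eb01c22) (.hit (nat_lit 13) (nat_lit 0) (nat_lit 0x2f00005e0000bf57ad7f8ecaff185) b14794 (.one (nat_lit 3) (nat_lit 14) (nat_lit 1) (nat_lit 0x2f00005e0000beda857ef6b2fdd63)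 b14795 (.tok (nat_lit 6) (nat_lit 0x2f00005e0000c01d318090eb01c22) (.hit (nat_lit 15) (nat_lit 7) (nat_lit 0x2f00005e0000bf69a17f5f9afe849) b14796 (.hit (nat_lit 19) (nat_lit 15) (nat_lit 0x2f00005e0000bf01997f15bafe423) b14800 (.tok (nat_lit 55) (nat_lit 0x2f00005e0000c01d318090eb01c22) (.hit (nat_lit 16) (nat_lit 8) (nat_lit 0x2f00005e0000c01d318090eb01c22) b14797 (.hit (nat_lit 20) (nat_lit 16) (nat_lit 0x2f00005e0000bf6c157f6e22ff613) b14801 (.tok (nat_lit 6) (nat_lit 0x2f00005e0000bfe0a17fc09b00d1e) (.hit (nat_lit 17) (nat_lit 9) (nat_lit 0x2f00005e0000bf9fb57fc09affb26) b14798 (.one (nat_lit 55) (nat_lit 18) (nat_lit 10) (nat_lit 0x2f00005e0000bfe0a17fc02300d1e) b14799 (.nil))) (.nil)))) (.nil)))) (.nil)))) (.tok (nat_lit 9) (nat_lit 0x2f00005e0000bf842180139aff937) (.hit (nat_lit 5) (nat_lit 0) (nat_lit 0x2f00005e0000bf842180139aff937) b14786 (.one (nat_lit 3) (nat_lit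 6) (nat_lit 1) (nat_lit 0x2f00005e0000be99317e10aafbd3f) b14787 (.tok (nat_lit 9) (nat_lit 0x2f00005e0000bf63b17fa5aafefdf) (.hit (nat_lit 7) (nat_lit 20) (nat_lit 0x2f00005e0000bee6757eab32fd090) b14788 (.hit (nat_lit 11) (nat_lit 28) (nat_lit 0x2f00005e0000beb9b17e51aafc55f) b14792 (.tok (nat_lit 67) (nat_lit 0x2f00005e0000bf63b17fa5aafefdf) (.hit (nat_lit 8) (nat_lit 21) (nat_lit 0x2f00005e0000bf2c857f3752fe214) b14789 (.hit (nat_lit 12) (nat_lit 29) (nat_lit 0x2f00005e0000bf24197f267afdff9) b14793 (.tok (nat_lit 9) (nat_lit 0x2f00005e0000bf63b17fa5aafefdf) (.hit (nat_lit 9) (nat_lit 22) (nat_lit 0x2f00005e0000bf27717f2d2afe0cf) b14790 (.one (nat_lit 67) (nat_lit 10) (nat_lit 23) (nat_lit 0x2f00005e0000bf63b17fa5aafefdf) b14791 (.nil))) (.nil)))) (.nil)))) (.nil)))) (.nil)))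
noncomputable def r20_45 : Rw Blk := .tok (nat_lit 3) (nat_lit 0x1780002f00005fb302bf8b717f3b1afdf81) (.hit (nat_lit 0) (nat_lit 0) (nat_lit 0x1780002f00005fb302bf8b717f3b1afdf81) b14802 (.tok (nat_lit 6) (nat_lit 0x1780002f00005f9ca4bf57c97ea162fd354) (.hit (nat_lit 1) (nat_lit 7) (nat_lit 0x1780002f00005f9bacbf55d97e9d82fd2d8) b14805 (.hit (nat_lit 2) (nat_lit 15) (nat_lit 0x1780002f00005f9ca4bf57c97ea162fd354) b14806 (.nil))) (.tok (nat_lit 9) (nat_lit 0x1780002f00005f9e12bf5aa57ea71afd40b) (.hit (nat_lit 3) (nat_lit 20) (nat_lit 0x1780002f00005f98e6bf504d7e926afd175) b14803 (.hit (nat_lit 4) (nat_lit 28) (nat_lit 0x1780002f00005f9e12bf5aa57ea71afd40b) b14804 (.nil))) (.nil)))) (.tok (nat_lit 6) (nat_lit 0x1780002f00005fea08bfe3a97ff222ff0fa) (.hit (nat_lit 13) (nat_lit 0) (nat_lit 0x1780002f00005fc0eebfae897f64d2fdf5f) b14815 (.one (nat_lit 3) (nat_lit 14) (nat_lit 1) (nat_lit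 0x1780002f00005f90c2bf35757e7ba2fc2f0) b14816 (.tok (nat_lit 6) (nat_lit 0x1780002f00005fea08bfe3a97ff222ff0fa) (.hit (nat_lit 15) (nat_lit 7) (nat_lit 0x1780002f00005fb9d4bf90757f25a2fd05e) b14817 (.hit (nat_lit 19) (nat_lit 15) (nat_lit 0x1780002f00005fb2d2bf75457f0462fd2fe) b14821 (.tok (nat_lit 55) (nat_lit 0x1780002f00005fea08bfe3a97ff222ff0fa) (.hit (nat_lit 16) (nat_lit 8) (nat_lit 0x1780002f00005fdc44bfdd357fd552fe74e) b14818 (.hit (nat_lit 20) (nat_lit 16) (nat_lit 0x1780002f00005fd96ebfc49d7f9d42fe6a0) b14822 (.tok (nat_lit 6) (nat_lit 0x1780002f00005fea08bfe3a97ff222ff0fa) (.hit (nat_lit 17) (nat_lit 9) (nat_lit 0x1780002f00005fced0bfac4d7f626afe113) b14819 (.one (nat_lit 55) (nat_lit 18) (nat_lit 10) (nat_lit 0x1780002f00005fea08bfe3a97ff222ff0fa) b14820 (.nil))) (.nil)))) (.nil)))) (.nil)))) (.tok (nat_lit 9) (nat_lit 0x1780002f0000600000c0337580000300149) (.hit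 (nat_lit 5) (nat_lit 0) (nat_lit 0x1780002f00005fd76abfcd757f7fbafea2b) b14807 (.one (nat_lit 3) (nat_lit 6) (nat_lit 1) (nat_lit 0x1780002f00005f9288bf5b157eb832fcb7f) b14808 (.tok (nat_lit 9) (nat_lit 0x1780002f0000600000c0337580000300149) (.hit (nat_lit 7) (nat_lit 20) (nat_lit 0x1780002f00005fc0dcbfbb557f2a0aff356) b14809 (.hit (nat_lit 11) (nat_lit 28) (nat_lit 0x1780002f00005fa2e0bf62797ed342fd3ae) b14813 (.tok (nat_lit 67) (nat_lit 0x1780002f0000600000c0337580000300149) (.hit (nat_lit 8) (nat_lit 21) (nat_lit 0x1780002f0000600000c0337580000300149) b14810 (.hit (nat_lit 12) (nat_lit 29) (nat_lit 0x1780002f00005fe46cbfa3cd7f83dafefcd) b14814 (.tok (nat_lit 9) (nat_lit 0x1780002f00005fee4ebfeded7fdbbaff773) (.hit (nat_lit 9) (nat_lit 22) (nat_lit 0x1780002f00005fe6e4bfb8dd7f7bf2fec61) b14811 (.one (nat_lit 67) (nat_lit 10) (nat_lit 23) (nat_lit 0x1780002f00005fee4ebfeded7fdbbaff773)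 b14812 (.nil))) (.nil)))) (.nil)))) (.nil)))) (.nil)))
noncomputable def r20_46 : Rw Blk := .tok (nat_lit 3) (nat_lit 0x17e77c2fdc385fd974bf86e57ead52fedd9) (.hit (nat_lit 14) (nat_lit 0) (nat_lit 0x17e77c2fda3a5fc3cebf86e57ead52fe1eb) b14837 (.tok (nat_lit 6) (nat_lit 0x17e71fafdc385fd974bf786d7ea142fedd9) (.hit (nat_lit 15) (nat_lit 7) (nat_lit 0x17e71fafdc385fd974bf786d7ea142fedd9) b14840 (.hit (nat_lit 16) (nat_lit 15) (nat_lit 0x17e4162fd4355fb2f0bf60217e70aafe61f) b14841 (.nil))) (.tok (nat_lit 9) (nat_lit 0x17da1dafc9e35f9d5abf105d7dd122fdaee) (.hit (nat_lit 17) (nat_lit 20) (nat_lit 0x17da1dafc9e35f9d5abf105d7dd122fdaee) b14838 (.hit (nat_lit 18) (nat_lit 28) (nat_lit 0x17d0452fbeda5f8888bec1997d339afcfcb) b14839 (.nil))) (.nil)))) (.tok (nat_lit 6) (nat_lit 0x1800002ffbfe5fe416c0568d80bdcaff523) (.hit (nat_lit 9) (nat_lit 0) (nat_lit 0x17ef022fdc725fd38ebfc3457f6262fe14d)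 b14832 (.tok (nat_lit 3) (nat_lit 0x1800002ffbfe5fe416c0568d80bdcaff523) (.hit (nat_lit 10) (nat_lit 1) (nat_lit 0x17f02c2feb885fbdaabfbc6d7f470afe7b1) b14833 (.one (nat_lit 67) (nat_lit 11) (nat_lit 2) (nat_lit 0x1800002ffbfe5fe416c0568d80bdcaff523) b14834 (.nil))) (.tok (nat_lit 6) (nat_lit 0x17f7f7afe2805fd82abfdce57f8efafebc6) (.hit (nat_lit 12) (nat_lit 7) (nat_lit 0x17f7f7afe2805fd82abfdce57f8efafebc6) b14835 (.hit (nat_lit 13) (nat_lit 15) (nat_lit 0x17ebbe2fdf215fb1e0bfba997f46dafe106) b14836 (.nil))) (.nil)))) (.tok (nat_lit 9) (nat_lit 0x17f413300000600000bfcbe57f2fe300000) (.hit (nat_lit 0) (nat_lit 0) (nat_lit 0x17f4132fe5565fd850bfcbe57f2fe2ff1f7) b14823 (.tok (nat_lit 3) (nat_lit 0x17e8c1aff98c5fe5c2bf857d7ebb62ff40e) (.hit (nat_lit 1) (nat_lit 1) (nat_lit 0x17df232fd8175fb39cbf38897e217afe87f) b14824 (.one (nat_lit 55) (nat_lit 2) (nat_lit 3) (nat_lit 0x17e8c1aff98c5fe5c2bf857d7ebb62ff40e)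 b14825 (.nil))) (.tok (nat_lit 9) (nat_lit 0x17ef95b00000600000bfbc1d7f28a300000) (.hit (nat_lit 3) (nat_lit 20) (nat_lit 0x17e5b6afe2195fc19cbf6d257e8ab2fe986) b14826 (.hit (nat_lit 7) (nat_lit 28) (nat_lit 0x17e145afe1ae5fab64bf499d7e43a2fe2f8) b14830 (.tok (nat_lit 67) (nat_lit 0x17ef95b00000600000bfbc1d7f28a300000) (.hit (nat_lit 4) (nat_lit 21) (nat_lit 0x17ec752ff3935feb32bfa3197ef69afefc8) b14827 (.hit (nat_lit 8) (nat_lit 29) (nat_lit 0x17ea2d300000600000bf90d97ed21b00000) b14831 (.tok (nat_lit 9) (nat_lit 0x17ef95aff51d5ffc3ebfbc1d7f28a2ff857) (.hit (nat_lit 5) (nat_lit 22) (nat_lit 0x17eaf62fea665fd3c4bf97217edeaaff857) b14828 (.one (nat_lit 67) (nat_lit 6) (nat_lit 23) (nat_lit 0x17ef95aff51d5ffc3ebfbc1d7f28a2ff7c6) b14829 (.nil))) (.nil)))) (.nil)))) (.nil)))) (.nil)))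
noncomputable def r20_47 : Rw Blk := .tok (nat_lit 3) (nat_lit 0xbc0001780002ffaae) (.hit (nat_lit 0) (nat_lit 0) (nat_lit 0xbc0001780002fe71d) b14842 (.tok (nat_lit 6) (nat_lit 0xbc0001780002fd8a7) (.hit (nat_lit 1) (nat_lit 7) (nat_lit 0xbc0001780002fc702) b14843 (.hit (nat_lit 4) (nat_lit 15) (nat_lit 0xbc0001780002fbfdc) b14846 (.tok (nat_lit 14) (nat_lit 0xbc0001780002fd8a7) (.hit (nat_lit 2) (nat_lit 11) (nat_lit 0xbc0001780002fd61a) b14844 (.hit (nat_lit 5) (nat_lit 17) (nat_lit 0xbc0001780002fcdd7) b14847 (.one (nat_lit 9) (nat_lit 3) (nat_lit 12) (nat_lit 0xbc0001780002fd8a7) b14845 (.nil)))) (.one (nat_lit 68) (nat_lit 6) (nat_lit 18) (nat_lit 0xbc0001780002fd576) b14848 (.nil))))) (.tok (nat_lit 52) (nat_lit 0xbc0001780002fe48d) (.hit (nat_lit 7) (nat_lit 39) (nat_lit 0xbc0001780002fe48d) b14849 (.hit (nat_lit 8) (nat_lit 40) (nat_lit 0xbc0001780002fe0bc) b14850 (.nil)))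 (.tok (nat_lit 55) (nat_lit 0xbc0001780002ffaae) (.hit (nat_lit 9) (nat_lit 41) (nat_lit 0xbc0001780002ffaae) b14851 (.tok (nat_lit 3) (nat_lit 0xbc0001780002fe602) (.hit (nat_lit 12) (nat_lit 47) (nat_lit 0xbc0001780002fe366) b14854 (.one (nat_lit 67) (nat_lit 13) (nat_lit 48) (nat_lit 0xbc0001780002fe602) b14855 (.nil))) (.tok (nat_lit 6) (nat_lit 0xbc0001780002feff7) (.hit (nat_lit 10) (nat_lit 42) (nat_lit 0xbc0001780002feff7) b14852 (.hit (nat_lit 11) (nat_lit 45) (nat_lit 0xbc0001780002fe034) b14853 (.nil))) (.nil)))) (.one (nat_lit 58) (nat_lit 14) (nat_lit 49) (nat_lit 0xbc0001780002fdcf6) b14856 (.nil)))))) (.tok (nat_lit 9) (nat_lit 0xbc0001780003031b8) (.hit (nat_lit 15) (nat_lit 0) (nat_lit 0xbc0001780002fe9ee) b14857 (.tok (nat_lit 9) (nat_lit 0xbc0001780002fec99) (.hit (nat_lit 16) (nat_lit 20) (nat_lit 0xbc0001780002fdaa3) b14858 (.hit (nat_lit 21) (nat_lit 28)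 (nat_lit 0xbc0001780002fc879) b14863 (.tok (nat_lit 14) (nat_lit 0xbc0001780002fec99) (.hit (nat_lit 17) (nat_lit 24) (nat_lit 0xbc0001780002fe4e5) b14859 (.hit (nat_lit 22) (nat_lit 30) (nat_lit 0xbc0001780002fe6fc) b14864 (.one (nat_lit 6) (nat_lit 18) (nat_lit 25) (nat_lit 0xbc0001780002fec99) b14860 (.nil)))) (.one (nat_lit 56) (nat_lit 23) (nat_lit 31) (nat_lit 0xbc0001780002fd91d) b14865 (.tok (nat_lit 68) (nat_lit 0xbc0001780002fe928) (.hit (nat_lit 19) (nat_lit 26) (nat_lit 0xbc0001780002fe91c) b14861 (.hit (nat_lit 24) (nat_lit 32) (nat_lit 0xbc0001780002fe125) b14866 (.one (nat_lit 9) (nat_lit 20) (nat_lit 27) (nat_lit 0xbc0001780002fe928) b14862 (.nil)))) (.nil)))))) (.tok (nat_lit 64) (nat_lit 0xbc0001780002febf3) (.hit (nat_lit 25) (nat_lit 50) (nat_lit 0xbc0001780002fdc36) b14867 (.hit (nat_lit 26) (nat_lit 51) (nat_lit 0xbc0001780002febf3) b14868 (.nil))) (.tok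 (nat_lit 67) (nat_lit 0xbc0001780003031b8) (.hit (nat_lit 27) (nat_lit 52) (nat_lit 0xbc0001780002ffeed) b14869 (.tok (nat_lit 3) (nat_lit 0xbc00017800030024c) (.hit (nat_lit 33) (nat_lit 58) (nat_lit 0xbc0001780002ff6e5) b14875 (.one (nat_lit 55) (nat_lit 34) (nat_lit 59) (nat_lit 0xbc00017800030024c) b14876 (.nil))) (.tok (nat_lit 9) (nat_lit 0xbc0001780003031b8) (.hit (nat_lit 28) (nat_lit 53) (nat_lit 0xbc0001780003010f4) b14870 (.hit (nat_lit 31) (nat_lit 56) (nat_lit 0xbc0001780002fe918) b14873 (.tok (nat_lit 67) (nat_lit 0xbc0001780003031b8) (.hit (nat_lit 29) (nat_lit 54) (nat_lit 0xbc0001780003016b2) b14871 (.hit (nat_lit 32) (nat_lit 57) (nat_lit 0xbc000178000300608) b14874 (.one (nat_lit 9) (nat_lit 30) (nat_lit 55) (nat_lit 0xbc0001780003031b8) b14872 (.nil)))) (.nil)))) (.nil)))) (.one (nat_lit 70) (nat_lit 35) (nat_lit 60) (nat_lit 0xbc0001780002fe72c) b14877 (.nil))))))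 (.nil))
noncomputable def r20_48 : Rw Blk := .tok (nat_lit 3) (nat_lit 0xbc00017f97bafdc29) (.hit (nat_lit 0) (nat_lit 0) (nat_lit 0xbc00017f45c2fcbc2) b14878 (.tok (nat_lit 9) (nat_lit 0xbc00017f2cd2fd423) (.hit (nat_lit 1) (nat_lit 20) (nat_lit 0xbc00017e5f3afba70) b14879 (.hit (nat_lit 6) (nat_lit 28) (nat_lit 0xbc00017e3be2fb605) b14884 (.tok (nat_lit 14) (nat_lit 0xbc00017ed87afc998) (.hit (nat_lit 2) (nat_lit 24) (nat_lit 0xbc00017ed2d2fc8e3) b14880 (.hit (nat_lit 7) (nat_lit 30) (nat_lit 0xbc00017e8f3afc070) b14885 (.one (nat_lit 6) (nat_lit 3) (nat_lit 25) (nat_lit 0xbc00017ed87afc998) b14881 (.nil)))) (.tok (nat_lit 68) (nat_lit 0xbc00017f2cd2fd423) (.hit (nat_lit 4) (nat_lit 26) (nat_lit 0xbc00017efb3afcdf0) b14882 (.hit (nat_lit 8) (nat_lit 32) (nat_lit 0xbc00017e7122fbcad) b14886 (.one (nat_lit 9) (nat_lit 5) (nat_lit 27) (nat_lit 0xbc00017f2cd2fd423) b14883 (.nil))))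 (.nil))))) (.tok (nat_lit 64) (nat_lit 0xbc00017ef5f2fcd47) (.hit (nat_lit 9) (nat_lit 50) (nat_lit 0xbc00017ef5f2fcd47) b14887 (.hit (nat_lit 10) (nat_lit 51) (nat_lit 0xbc00017ef3eafcd06) b14888 (.nil))) (.tok (nat_lit 67) (nat_lit 0xbc00017f97bafdc29) (.hit (nat_lit 11) (nat_lit 52) (nat_lit 0xbc00017f97bafd8ee) b14889 (.tok (nat_lit 3) (nat_lit 0xbc00017f6d02fdc29) (.hit (nat_lit 17) (nat_lit 58) (nat_lit 0xbc00017f3242fd4d1) b14895 (.one (nat_lit 55) (nat_lit 18) (nat_lit 59) (nat_lit 0xbc00017f6d02fdc29) b14896 (.nil))) (.tok (nat_lit 9) (nat_lit 0xbc00017f23d2fd303) (.hit (nat_lit 12) (nat_lit 53) (nat_lit 0xbc00017ed43afc910) b14890 (.hit (nat_lit 15) (nat_lit 56) (nat_lit 0xbc00017ee8bafcba0) b14893 (.tok (nat_lit 67) (nat_lit 0xbc00017f23d2fd303) (.hit (nat_lit 13) (nat_lit 54) (nat_lit 0xbc00017f23d2fd303) b14891 (.hit (nat_lit 16) (nat_lit 57) (nat_lit 0xbc00017f1ea2fd25d)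 b14894 (.one (nat_lit 9) (nat_lit 14) (nat_lit 55) (nat_lit 0xbc00017f11bafd0c0) b14892 (.nil)))) (.nil)))) (.nil)))) (.one (nat_lit 70) (nat_lit 19) (nat_lit 60) (nat_lit 0xbc00017ea82afc38e) b14897 (.nil)))))) (.tok (nat_lit 6) (nat_lit 0xbc000181b4cb02355) (.hit (nat_lit 20) (nat_lit 0) (nat_lit 0xbc00017f678afd923) b14898 (.tok (nat_lit 6) (nat_lit 0xbc000181b4cb02355) (.hit (nat_lit 21) (nat_lit 7) (nat_lit 0xbc00017f5d3afe1ca) b14899 (.hit (nat_lit 26) (nat_lit 15) (nat_lit 0xbc00017e5e12fba13) b14904 (.tok (nat_lit 14) (nat_lit 0xbc000181b4cb02355) (.hit (nat_lit 22) (nat_lit 11) (nat_lit 0xbc000181b4cb02355) b14900 (.hit (nat_lit 27) (nat_lit 17) (nat_lit 0xbc00017f7952fde2c) b14905 (.one (nat_lit 9) (nat_lit 23) (nat_lit 12) (nat_lit 0xbc000180cc1300764) b14901 (.nil)))) (.tok (nat_lit 56) (nat_lit 0xbc0001804bdb000cf) (.hit (nat_lit 24) (nat_lit 13) (nat_lit 0xbc0001804bdaffa07)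 b14902 (.hit (nat_lit 29) (nat_lit 19) (nat_lit 0xbc00017ee70afce10) b14907 (.one (nat_lit 6) (nat_lit 25) (nat_lit 14) (nat_lit 0xbc00017f967b000cf) b14903 (.nil)))) (.one (nat_lit 68) (nat_lit 28) (nat_lit 18) (nat_lit 0xbc00017f09c2fd848) b14906 (.nil)))))) (.nil))) (.nil))
noncomputable def r20_49 : Rw Blk := .tok (nat_lit 3) (nat_lit 0xbc0001780002ff1e4) (.hit (nat_lit 0) (nat_lit 0) (nat_lit 0xbc0001780002fe705) b14908 (.tok (nat_lit 9) (nat_lit 0xbc0001780002fe777) (.hit (nat_lit 1) (nat_lit 20) (nat_lit 0xbc0001780002fcd4b) b14909 (.hit (nat_lit 6) (nat_lit 28) (nat_lit 0xbc0001780002fc91f) b14914 (.tok (nat_lit 14) (nat_lit 0xbc0001780002fdee4) (.hit (nat_lit 2) (nat_lit 24) (nat_lit 0xbc0001780002fdee4) b14910 (.hit (nat_lit 7) (nat_lit 30) (nat_lit 0xbc0001780002fd4f4) b14915 (.one (nat_lit 6) (nat_lit 3) (nat_lit 25) (nat_lit 0xbc0001780002fdd9e) b14911 (.nil))))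 (.tok (nat_lit 68) (nat_lit 0xbc0001780002fe777) (.hit (nat_lit 4) (nat_lit 26) (nat_lit 0xbc0001780002fe25c) b14912 (.hit (nat_lit 8) (nat_lit 32) (nat_lit 0xbc0001780002fd3c4) b14916 (.one (nat_lit 9) (nat_lit 5) (nat_lit 27) (nat_lit 0xbc0001780002fe777) b14913 (.nil)))) (.nil))))) (.tok (nat_lit 64) (nat_lit 0xbc0001780002fe402) (.hit (nat_lit 9) (nat_lit 50) (nat_lit 0xbc0001780002fe402) b14917 (.hit (nat_lit 10) (nat_lit 51) (nat_lit 0xbc0001780002fe03a) b14918 (.nil))) (.tok (nat_lit 67) (nat_lit 0xbc0001780002ff1e4) (.hit (nat_lit 11) (nat_lit 52) (nat_lit 0xbc0001780002ff1e4) b14919 (.tok (nat_lit 3) (nat_lit 0xbc0001780002fe887) (.hit (nat_lit 17) (nat_lit 58) (nat_lit 0xbc0001780002fe887) b14925 (.one (nat_lit 55) (nat_lit 18) (nat_lit 59) (nat_lit 0xbc0001780002fe3e2) b14926 (.nil))) (.tok (nat_lit 9) (nat_lit 0xbc0001780002fef75) (.hit (nat_lit 12) (nat_lit 53) (nat_lit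 0xbc0001780002fec6f) b14920 (.hit (nat_lit 15) (nat_lit 56) (nat_lit 0xbc0001780002fdb99) b14923 (.tok (nat_lit 67) (nat_lit 0xbc0001780002fef75) (.hit (nat_lit 13) (nat_lit 54) (nat_lit 0xbc0001780002feda8) b14921 (.hit (nat_lit 16) (nat_lit 57) (nat_lit 0xbc0001780002fe19a) b14924 (.one (nat_lit 9) (nat_lit 14) (nat_lit 55) (nat_lit 0xbc0001780002fef75) b14922 (.nil)))) (.nil)))) (.nil)))) (.one (nat_lit 70) (nat_lit 19) (nat_lit 60) (nat_lit 0xbc0001780002fdeeb) b14927 (.nil)))))) (.tok (nat_lit 6) (nat_lit 0xbc0001780003002f4) (.hit (nat_lit 20) (nat_lit 0) (nat_lit 0xbc0001780002fe8be) b14928 (.tok (nat_lit 6) (nat_lit 0xbc0001780003002f4) (.hit (nat_lit 21) (nat_lit 7) (nat_lit 0xbc0001780002fe40a) b14929 (.hit (nat_lit 26) (nat_lit 15) (nat_lit 0xbc0001780002fd627) b14934 (.tok (nat_lit 14) (nat_lit 0xbc0001780003002f4) (.hit (nat_lit 22) (nat_lit 11) (nat_lit 0xbc0001780003002f4)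 b14930 (.hit (nat_lit 27) (nat_lit 17) (nat_lit 0xbc0001780002ff1f4) b14935 (.one (nat_lit 9) (nat_lit 23) (nat_lit 12) (nat_lit 0xbc0001780003000a7) b14931 (.nil)))) (.tok (nat_lit 56) (nat_lit 0xbc0001780002ff174) (.hit (nat_lit 24) (nat_lit 13) (nat_lit 0xbc0001780002ff174) b14932 (.hit (nat_lit 29) (nat_lit 19) (nat_lit 0xbc0001780002fe53e) b14937 (.one (nat_lit 6) (nat_lit 25) (nat_lit 14) (nat_lit 0xbc0001780002feccb) b14933 (.nil)))) (.one (nat_lit 68) (nat_lit 28) (nat_lit 18) (nat_lit 0xbc0001780002fedf1) b14936 (.nil)))))) (.nil))) (.nil))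
noncomputable def r20_50 : Rw Blk := .tok (nat_lit 6) (nat_lit 0xbc000178000300c67) (.hit (nat_lit 0) (nat_lit 0) (nat_lit 0xbc0001780002ffdda) b14938 (.tok (nat_lit 3) (nat_lit 0xbc0001780002ffc22) (.hit (nat_lit 1) (nat_lit 1) (nat_lit 0xbc0001780002fe58e) b14939 (.one (nat_lit 14) (nat_lit 2) (nat_lit 4) (nat_lit 0xbc0001780002ffc22) b14940 (.one (nat_lit 56) (nat_lit 4) (nat_lit 6) (nat_lit 0xbc0001780002ff9f9) b14941 (.one (nat_lit 68) (nat_lit 3) (nat_lit 5) (nat_lit 0xbc0001780002ff98a) b14942 (.nil))))) (.tok (nat_lit 40) (nat_lit 0xbc0001780002fec25) (.hit (nat_lit 5) (nat_lit 33) (nat_lit 0xbc0001780002feb5f) b14943 (.hit (nat_lit 6) (nat_lit 34) (nat_lit 0xbc0001780002fec25) b14944 (.nil))) (.tok (nat_lit 43) (nat_lit 0xbc0001780002ffbba) (.hit (nat_lit 7) (nat_lit 35) (nat_lit 0xbc0001780002ffbba) b14947 (.hit (nat_lit 8) (nat_lit 36) (nat_lit 0xbc0001780002ff17c)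 b14948 (.nil))) (.tok (nat_lit 46) (nat_lit 0xbc000178000300c67) (.hit (nat_lit 9) (nat_lit 37) (nat_lit 0xbc0001780002fe5b4) b14945 (.hit (nat_lit 10) (nat_lit 38) (nat_lit 0xbc000178000300c67) b14946 (.nil))) (.nil)))))) (.tok (nat_lit 9) (nat_lit 0xbc000178000300340) (.hit (nat_lit 11) (nat_lit 0) (nat_lit 0xbc0001780002febd5) b14949 (.tok (nat_lit 3) (nat_lit 0xbc000178000300340) (.hit (nat_lit 12) (nat_lit 1) (nat_lit 0xbc0001780002fe174) b14950 (.one (nat_lit 14) (nat_lit 13) (nat_lit 4) (nat_lit 0xbc000178000300340) b14951 (.one (nat_lit 56) (nat_lit 15) (nat_lit 6) (nat_lit 0xbc0001780002ff3df) b14952 (.one (nat_lit 68) (nat_lit 14) (nat_lit 5) (nat_lit 0xbc0001780002ff5ca) b14953 (.nil))))) (.nil))) (.nil))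
noncomputable def r20_51 : Rw Blk := .tok (nat_lit 3) (nat_lit 0x1780002f00005fc7aebf5d3d7efb92fd7b8) (.hit (nat_lit 14) (nat_lit 0) (nat_lit 0x1780002f00005fc7aebf5d3d7efb92fd7b8) b14968 (.tok (nat_lit 6) (nat_lit 0x1780002f00005f7f4abee3157ddc12fb9ef) (.hit (nat_lit 15) (nat_lit 7) (nat_lit 0x1780002f00005f7f4abee3157ddc12fb9ef) b14971 (.hit (nat_lit 16) (nat_lit 15) (nat_lit 0x1780002f00005f66ccbeb2197d7a1afadb0) b14972 (.nil))) (.tok (nat_lit 9) (nat_lit 0x1780002f00005fbac4bf5a097ec9fafd7ac) (.hit (nat_lit 17) (nat_lit 20) (nat_lit 0x1780002f00005fbac4bf5a097ec9fafd7ac) b14969 (.hit (nat_lit 18) (nat_lit 28) (nat_lit 0x1780002f00005fbaa6bf59cd7ec982fd79d) b14970 (.nil))) (.nil)))) (.tok (nat_lit 6) (nat_lit 0x1780002f0000600000c0091d80000300000) (.hit (nat_lit 0) (nat_lit 0) (nat_lit 0x1780002f00005fe5c8bfd2097f9e42ff80c) b14954 (.tok (nat_lit 3) (nat_lit 0x1780002f0000600000bfc5797f8f52ff094)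 (.hit (nat_lit 1) (nat_lit 1) (nat_lit 0x1780002f00005fcc84bf5d997ec892fd6f2) b14955 (.one (nat_lit 67) (nat_lit 2) (nat_lit 2) (nat_lit 0x1780002f0000600000bfc5797f8f52ff094) b14956 (.nil))) (.tok (nat_lit 6) (nat_lit 0x1780002f00005ffed0c0091d80000300000) (.hit (nat_lit 3) (nat_lit 7) (nat_lit 0x1780002f00005febeabfa81d7f3aeafee3b) b14957 (.hit (nat_lit 7) (nat_lit 15) (nat_lit 0x1780002f00005fcb4abf68497ee67afdb3c) b14961 (.tok (nat_lit 55) (nat_lit 0x1780002f00005ffed0c0091d80000300000) (.hit (nat_lit 4) (nat_lit 8) (nat_lit 0x1780002f00005ffe6abff7cd7ff72afffd4) b14958 (.hit (nat_lit 8) (nat_lit 16) (nat_lit 0x1780002f00005ff2f0bfc0c97f9872fef83) b14962 (.tok (nat_lit 6) (nat_lit 0x1780002f00005ffed0c0091d80000300000) (.hit (nat_lit 5) (nat_lit 9) (nat_lit 0x1780002f00005fee68bfcf557f7d0aff1bc) b14959 (.one (nat_lit 55) (nat_lit 6) (nat_lit 10) (nat_lit 0x1780002f00005ffed0c0091d80000300000)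 b14960 (.nil))) (.nil)))) (.nil)))) (.nil)))) (.tok (nat_lit 9) (nat_lit 0x1780002f00005fee7abf9be57f9e92fec4f) (.hit (nat_lit 9) (nat_lit 0) (nat_lit 0x1780002f00005fd254bf74057f2942fe334) b14963 (.tok (nat_lit 3) (nat_lit 0x1780002f00005fee7abf9be57f9e92fec4f) (.hit (nat_lit 10) (nat_lit 1) (nat_lit 0x1780002f00005fbe3cbf4fe57ee0e2fd455) b14964 (.one (nat_lit 55) (nat_lit 11) (nat_lit 3) (nat_lit 0x1780002f00005fee7abf9be57f9e92fec4f) b14965 (.nil))) (.tok (nat_lit 9) (nat_lit 0x1780002f00005fde76bf8ff57f61eafe476) (.hit (nat_lit 12) (nat_lit 20) (nat_lit 0x1780002f00005fde76bf8ff57f61eafe476) b14966 (.hit (nat_lit 13) (nat_lit 28) (nat_lit 0x1780002f00005fc62abf5fc17f009afd859) b14967 (.nil))) (.nil)))) (.nil)))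
noncomputable def r20_52 : Rw Blk := .tok (nat_lit 3) (nat_lit 0x1780002f00005faa54bf53757e6032fd36e) (.hit (nat_lit 0) (nat_lit 0) (nat_lit 0x1780002f00005faa54bf53757e6032fd36e) b14547 (.tok (nat_lit 6) (nat_lit 0x1780002f00005fa0bebf3ae17e4ebafd0cf) (.hit (nat_lit 1) (nat_lit 7) (nat_lit 0x1780002f00005fa088bf3a757e4de2fd0b4) b14550 (.hit (nat_lit 2) (nat_lit 15) (nat_lit 0x1780002f00005fa0bebf3ae17e4ebafd0cf) b14551 (.nil))) (.tok (nat_lit 9) (nat_lit 0x1780002f00005f9c96bf32917e3e1afcebb) (.hit (nat_lit 3) (nat_lit 20) (nat_lit 0x1780002f00005f9c96bf32917e3e1afcebb) b14548 (.hit (nat_lit 4) (nat_lit 28) (nat_lit 0x1780002f00005f9850bf2a057e2d02fcc98) b14549 (.nil))) (.nil)))) (.tok (nat_lit 6) (nat_lit 0x1780002f00005feb70bfc2897f5e0aff3ce) (.hit (nat_lit 13) (nat_lit 0) (nat_lit 0x1780002f00005fdef6bf86e97ee612fe498) b14560 (.tok (nat_lit 3) (nat_lit 0x1780002f00005fd812bfa6197f252afeaf6)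 (.hit (nat_lit 14) (nat_lit 1) (nat_lit 0x1780002f00005fbf06bf6b7d7eaff2fdb3b) b14561 (.one (nat_lit 67) (nat_lit 15) (nat_lit 2) (nat_lit 0x1780002f00005fd812bfa6197f252afeaf6) b14562 (.nil))) (.tok (nat_lit 6) (nat_lit 0x1780002f00005feb70bfc2897f5e0aff3ce) (.hit (nat_lit 16) (nat_lit 7) (nat_lit 0x1780002f00005fc282bf7ef17ed6dafdf6a) b14563 (.hit (nat_lit 19) (nat_lit 15) (nat_lit 0x1780002f00005fba5cbf6dc57eb482fdaf8) b14566 (.tok (nat_lit 55) (nat_lit 0x1780002f00005feb70bfc2897f5e0aff3ce) (.hit (nat_lit 17) (nat_lit 8) (nat_lit 0x1780002f00005fe43cbfc0057f5902ff0a9) b14564 (.hit (nat_lit 20) (nat_lit 16) (nat_lit 0x1780002f00005feb70bfc2897f5e0aff3ce) b14567 (.one (nat_lit 6) (nat_lit 18) (nat_lit 9) (nat_lit 0x1780002f00005fdff2bfbacd7f4e92fee7a) b14565 (.nil)))) (.nil)))) (.nil)))) (.tok (nat_lit 9) (nat_lit 0x1780002f0000600000c00ef58000030045c) (.hit (nat_lit 5) (nat_lit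 0) (nat_lit 0x1780002f00005fccaebfb1d97f4f62fee53) b14552 (.tok (nat_lit 3) (nat_lit 0x1780002f00005fdc4abfec697fb44affaee) (.hit (nat_lit 6) (nat_lit 1) (nat_lit 0x1780002f00005fa000bf751d7ec332fdccb) b14553 (.one (nat_lit 55) (nat_lit 7) (nat_lit 3) (nat_lit 0x1780002f00005fdc4abfec697fb44affaee) b14554 (.nil))) (.tok (nat_lit 9) (nat_lit 0x1780002f0000600000c00ef58000030045c) (.hit (nat_lit 8) (nat_lit 20) (nat_lit 0x1780002f00005fd11abfbe917f5652fef2f) b14555 (.hit (nat_lit 11) (nat_lit 28) (nat_lit 0x1780002f00005fa282bf77957ec822fdd69) b14558 (.tok (nat_lit 67) (nat_lit 0x1780002f0000600000c00ef58000030045c) (.hit (nat_lit 9) (nat_lit 21) (nat_lit 0x1780002f0000600000c00ef58000030045c) b14556 (.hit (nat_lit 12) (nat_lit 29) (nat_lit 0x1780002f00005fdabcbfea7d7fadf2ffa23) b14559 (.one (nat_lit 9) (nat_lit 10) (nat_lit 22) (nat_lit 0x1780002f00005fd3a0bfda997f9092ff2fb) b14557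 (.nil)))) (.nil)))) (.nil)))) (.nil)))
noncomputable def r20_53 : Rw Blk := .tok (nat_lit 3) (nat_lit 0x2f00005e0000bf0d717ea4f2fd21c) (.hit (nat_lit 0) (nat_lit 0) (nat_lit 0x2f00005e0000bf0d717ea4f2fd21c) b14568 (.tok (nat_lit 6) (nat_lit 0x2f00005e0000bec7357e2ceafc55a) (.hit (nat_lit 1) (nat_lit 7) (nat_lit 0x2f00005e0000bec2b17e23e2fc439) b14571 (.hit (nat_lit 2) (nat_lit 15) (nat_lit 0x2f00005e0000bec7357e2ceafc55a) b14572 (.nil))) (.tok (nat_lit 9) (nat_lit 0x2f00005e0000bec8257e2ecafc596) (.hit (nat_lit 3) (nat_lit 20) (nat_lit 0x2f00005e0000bec6c57e2c0afc53e) b14569 (.hit (nat_lit 4) (nat_lit 28) (nat_lit 0x2f00005e0000bec8257e2ecafc596) b14570 (.nil))) (.nil)))) (.tok (nat_lit 6) (nat_lit 0x2f00005e0000bf697d7f309afe5d0) (.hit (nat_lit 5) (nat_lit 0) (nat_lit 0x2f00005e0000bf697d7f2e5afe46b) b14573 (.one (nat_lit 3) (nat_lit 6) (nat_lit 1) (nat_lit 0x2f00005e0000be7e8d7d9b9afb330)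 b14574 (.tok (nat_lit 6) (nat_lit 0x2f00005e0000bf490d7f309afe5d0) (.hit (nat_lit 7) (nat_lit 7) (nat_lit 0x2f00005e0000becbd17e3622fc681) b14575 (.hit (nat_lit 11) (nat_lit 15) (nat_lit 0x2f00005e0000be9f0d7ddc9afbb50) b14579 (.tok (nat_lit 55) (nat_lit 0x2f00005e0000bf490d7f309afe5d0) (.hit (nat_lit 8) (nat_lit 8) (nat_lit 0x2f00005e0000bf11e17ec242fd805) b14576 (.hit (nat_lit 12) (nat_lit 16) (nat_lit 0x2f00005e0000bf09757eb16afd5ea) b14580 (.tok (nat_lit 6) (nat_lit 0x2f00005e0000bf490d7f309afe5d0) (.hit (nat_lit 9) (nat_lit 9) (nat_lit 0x2f00005e0000bf0ccd7eb81afd6c0) b14577 (.one (nat_lit 55) (nat_lit 10) (nat_lit 10) (nat_lit 0x2f00005e0000bf490d7f309afe5d0) b14578 (.nil))) (.nil)))) (.nil)))) (.nil)))) (.tok (nat_lit 9) (nat_lit 0x2f00005e0000c0028d80b3eb01d02) (.hit (nat_lit 13) (nat_lit 0) (nat_lit 0x2f00005e0000bf3d097f4b72fe89f) b14581 (.one (nat_lit 3) (nat_lit 14)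 (nat_lit 1) (nat_lit 0x2f00005e0000bebfe17e6d02fd20b) b14582 (.tok (nat_lit 9) (nat_lit 0x2f00005e0000c0028d80b3eb01d02) (.hit (nat_lit 15) (nat_lit 20) (nat_lit 0x2f00005e0000bf4efd7f5ba2ff054) b14583 (.hit (nat_lit 19) (nat_lit 28) (nat_lit 0x2f00005e0000bee6f57ecda2fde1a) b14587 (.tok (nat_lit 67) (nat_lit 0x2f00005e0000c0028d80b3eb01d02) (.hit (nat_lit 16) (nat_lit 21) (nat_lit 0x2f00005e0000c0028d80b3eb01d02) b14584 (.hit (nat_lit 20) (nat_lit 29) (nat_lit 0x2f00005e0000bf51717f5e9afed39) b14588 (.tok (nat_lit 9) (nat_lit 0x2f00005e0000bfc5fd80b37b01586) (.hit (nat_lit 17) (nat_lit 22) (nat_lit 0x2f00005e0000bf85118020d300544) b14585 (.one (nat_lit 67) (nat_lit 18) (nat_lit 23) (nat_lit 0x2f00005e0000bfc5fd80b37b01586) b14586 (.nil))) (.nil)))) (.nil)))) (.nil)))) (.nil)))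
noncomputable def r20_54 : Rw Blk := .tok (nat_lit 3) (nat_lit 0x1780002f00005fb302bf5b3d7ea29afd3ba) (.hit (nat_lit 0) (nat_lit 0) (nat_lit 0x1780002f00005fb302bf5b3d7ea29afd3ba) b14589 (.tok (nat_lit 6) (nat_lit 0x1780002f00005f9e12bf28997e422afcdf9) (.hit (nat_lit 1) (nat_lit 7) (nat_lit 0x1780002f00005f98e6bf1e417e2d7afcb63) b14592 (.hit (nat_lit 2) (nat_lit 15) (nat_lit 0x1780002f00005f9e12bf28997e422afcdf9) b14593 (.nil))) (.tok (nat_lit 9) (nat_lit 0x1780002f00005f9ca4bf25bd7e3c72fcd42) (.hit (nat_lit 3) (nat_lit 20) (nat_lit 0x1780002f00005f9bacbf23cd7e3892fccc6) b14590 (.hit (nat_lit 4) (nat_lit 28) (nat_lit 0x1780002f00005f9ca4bf25bd7e3c72fcd42) b14591 (.nil))) (.nil)))) (.tok (nat_lit 6) (nat_lit 0x1780002f0000600000c00de980000300000) (.hit (nat_lit 5) (nat_lit 0) (nat_lit 0x1780002f00005fd76abfa2d57f5242fea12) b14594 (.one (nat_lit 3) (nat_lit 6) (nat_lit 1) (nat_lit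 0x1780002f00005f9288bf2c1d7e5572fcce3) b14595 (.tok (nat_lit 6) (nat_lit 0x1780002f0000600000c00de980000300000) (.hit (nat_lit 7) (nat_lit 7) (nat_lit 0x1780002f00005fc0dcbf7d217ee04afe0eb) b14596 (.hit (nat_lit 11) (nat_lit 15) (nat_lit 0x1780002f00005fa2e0bf51d97ea1b2fd63b) b14600 (.tok (nat_lit 55) (nat_lit 0x1780002f0000600000c00de980000300000) (.hit (nat_lit 8) (nat_lit 8) (nat_lit 0x1780002f0000600000bfdfa17f9b4affc21) b14597 (.hit (nat_lit 12) (nat_lit 16) (nat_lit 0x1780002f00005fe46cbfd99d7fbb7affd8d) b14601 (.tok (nat_lit 6) (nat_lit 0x1780002f00005fee4ec00de980000300000) (.hit (nat_lit 9) (nat_lit 9) (nat_lit 0x1780002f00005fe6e4bfce657f60baff0e2) b14598 (.one (nat_lit 55) (nat_lit 10) (nat_lit 10) (nat_lit 0x1780002f00005fee4ec00de980000300000) b14599 (.nil))) (.nil)))) (.nil)))) (.nil)))) (.tok (nat_lit 9) (nat_lit 0x1780002f00005fea08bfd8c57f7c62ff3d4) (.hit (nat_lit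 13) (nat_lit 0) (nat_lit 0x1780002f00005fc0eebf86197edc0afe2c5) b14602 (.one (nat_lit 3) (nat_lit 14) (nat_lit 1) (nat_lit 0x1780002f00005f90c2bf0c5d7e047afc52e) b14603 (.tok (nat_lit 9) (nat_lit 0x1780002f00005fea08bfd8c57f7c62ff3d4) (.hit (nat_lit 15) (nat_lit 20) (nat_lit 0x1780002f00005fb9d4bf77657eacdafda02) b14604 (.hit (nat_lit 19) (nat_lit 28) (nat_lit 0x1780002f00005fb2d2bf50b17e8d4afd646) b14608 (.tok (nat_lit 67) (nat_lit 0x1780002f00005fea08bfd8c57f7c62ff3d4) (.hit (nat_lit 16) (nat_lit 21) (nat_lit 0x1780002f00005fdc44bfa5a17ee972fe527) b14605 (.hit (nat_lit 20) (nat_lit 29) (nat_lit 0x1780002f00005fd96ebf83697efff2fe877) b14609 (.tok (nat_lit 9) (nat_lit 0x1780002f00005fea08bfd8c57f7c62ff3d4) (.hit (nat_lit 17) (nat_lit 22) (nat_lit 0x1780002f00005fced0bf94a57f0b2afe5e6) b14606 (.one (nat_lit 67) (nat_lit 18) (nat_lit 23) (nat_lit 0x1780002f00005fea08bfd8c57f7c62ff3d4)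 b14607 (.nil))) (.nil)))) (.nil)))) (.nil)))) (.nil)))
noncomputable def r20_55 : Rw Blk := .tok (nat_lit 3) (nat_lit 0xbf3be17ee1c2fecba5fc3b6bf57c57f38aafd8b45fb30ebf42257eeadafe6a85fdac0bfbb217f7bb2fee745feb66bfc85d7f6f42fe017) (.hit (nat_lit 14) (nat_lit 0) (nat_lit 0xbf3be17ed1d2fe1e75fc3b6bf57c57f0292fd8b45fb30ebf42257eeadafe6a85fd3c8bfbb217f5c22fe2dd5fde26bf9b8d7f129afdae8) b14624 (.tok (nat_lit 6) (nat_lit 0xbed0ed7e4f1afcead5f82a2bedee57eba8afb2125f6d24bec5217d7d92fc31b5fbd8ebf65117f01c2fdeff5fd20cbf8b457ef3aafd1fd) (.hit (nat_lit 15) (nat_lit 7) (nat_lit 0xbed0ed7e4f1afcead5f82a2bedee57eba8afb2125f6d24bec5217d4efafc31b5fbd8ebf65117f01c2fdeff5fd20cbf8b457ef3aafd1fd) b14627 (.hit (nat_lit 16) (nat_lit 15) (nat_lit 0xbe82297df6d2fc4445f5b40be90217e4c52f9e615f45c2be765d7d7d92fb5235fa3f2bf3f7d7ea0f2fd85c5fbf42bf70397ebe92fc9d3) b14628 (.nil))) (.tok (nat_lit 9) (nat_lit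 0xbf38fd7ee1c2fecba5fb6aabf46f57f38aafcc165fa12cbf2d317e7e42fddd35fdac0bfba857f7bb2fee745feb66bfc85d7f6f42fe017) (.hit (nat_lit 17) (nat_lit 20) (nat_lit 0xbf38fd7ee1c2fecba5fb6aabf46f57f38aafcc165fa12cbf2d317e7e42fddd35fdac0bfba857f7bb2fe7885fdaa2bfad3d7f37f2fdd46) b14625 (.hit (nat_lit 18) (nat_lit 28) (nat_lit 0xbf20b17ea1aafd9785faa84bf2ea97f013afc6035f9506bf14e57e5032fd70c5fd022bf999d7f5372fee745feb66bfc85d7f6f42fe017) b14626 (.nil))) (.nil)))) (.tok (nat_lit 6) (nat_lit 0xbfa099800003000005fd882bf8aa5803532fe87f5fd0d2bf9d317f4e9aff482601ffac037f980886300b19602174c035b58050cb00702) (.hit (nat_lit 0) (nat_lit 0) (nat_lit 0xbfa0997f2ab2fec285fd55ebf821d7fbbbafe87f5fd0d2bf9d317f4e9aff4825fe42ebfd08d7fa342fef9d5fe634bfc2c17f75aafebac) b14610 (.tok (nat_lit 3) (nat_lit 0xbf460d7fcc62ff2e15fbd32bf54057faf62fcf5a5fa7b4bf3a417eac72fe0635febe0bfdfc17fc3e2ff2845ff346bfda517f8ffafebc2)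 (.hit (nat_lit 1) (nat_lit 1) (nat_lit 0xbef9197ec0bafd9ce5f96b8bf07117f1e82fbc1d5f813abeed4d7d9f52fcd265fb47abf71657ee56afd51c5fb80abf64457ea49afcca8) b14611 (.one (nat_lit 67) (nat_lit 2) (nat_lit 2) (nat_lit 0xbf460d7fcc62ff2e15fbd32bf54057faf62fcf5a5fa7b4bf3a417eac72fe0635febe0bfdfc17fc3e2ff2845ff346bfda517f8ffafebc2) b14612 (.nil))) (.tok (nat_lit 6) (nat_lit 0xbf7cad800003000005fd882bf8aa5803532fdd025fc304bf70e17ee012fee0b601ffac037f980886300b19602174c035b58050cb00702) (.hit (nat_lit 3) (nat_lit 7) (nat_lit 0xbf2db57f10cafe0ce5fb106bf3bad7f0d12fc9445f9b88bf21e97e088afda4d5fcc42bf94097f528afe24f5fd2babf92417f0ae2fdd02) b14613 (.hit (nat_lit 7) (nat_lit 15) (nat_lit 0xbf0a2d7f0d72fd5b25f9f42bf18257ed8cafc0625f89c4befe617ded82fd16b5fb2ccbf6ded7ede42fd4675fb694bf61657e9efafcbf3) b14617 (.tok (nat_lit 55) (nat_lit 0xbf7cad800003000005fd882bf8aa5803532fdd025fc304bf70e17ee012fee0b601ffac037f980886300b19602174c035b58050cb00702)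 (.hit (nat_lit 4) (nat_lit 8) (nat_lit 0xbf63a97f9c9aff5995fcc00bf71a17fde82fd6c15fb682bf57dd7e7472fe7ca5fed92bfe6c97fe71aff8335ff7debfe8cd7fbc22ff436) b14614 (.hit (nat_lit 8) (nat_lit 16) (nat_lit 0xbf5169800003000005fc2e0bf5f617fcb5afd2315fad62bf459d7ee012fe6b95feb80bfe5ed7fd3caff3da5ff438bfdc3d7f9872ff064) b14618 (.tok (nat_lit 6) (nat_lit 0xbf7cad7fa8eaffe1f5fd882bf8aa5803532fdd025fc304bf70e17ea67afee0b601ffac037f980886300b19602174c035b58050cb00702) (.hit (nat_lit 5) (nat_lit 9) (nat_lit 0xbf57b17f5332fe9e25fc604bf65a97f94c2fd3c35fb086bf4be57e5c82fe4cc5ff952bff96d7ff8aaffba75ffb1cbfeef97fc20aff165) b14615 (.one (nat_lit 55) (nat_lit 6) (nat_lit 10) (nat_lit 0xbf7cad7fa8eaffe1f5fd882bf8aa5803532fdd025fc304bf70e17ea67afee0b601ffac037f980886300b19602174c035b58050cb00702) b14616 (.nil))) (.nil)))) (.nil)))) (.nil)))) (.tok (nat_lit 9) (nat_lit 0xc000017fdff2ff20b600bf4c000017f9eeb00000600000c00001800153006fe6005b6bfeafd7fdfe2ff7b6600074bfe9f97fb33affd46)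 (.hit (nat_lit 9) (nat_lit 0) (nat_lit 0xbf78117ee392fe9c75fe37cbf985d7f3c5aff0d05fdf02bfbca97f5dcafefe46005b6bfeafd7fdfe2fef84600074bfcb4d7f77a2feb37) b14619 (.tok (nat_lit 3) (nat_lit 0xc000017fdff2ff20b600bf4c000017f99bb00000600000c00001800153006fe5ff032bfe1517fd21aff7b65ffa6ebfe9f97fb33affd46) (.hit (nat_lit 10) (nat_lit 1) (nat_lit 0xbf81617f5c42fded55fcb6abf84857f287aff2705fe59cbfcf1d7f7ed2ff3c05fd382bfab717f5c5afe3cd5fd33cbf9d1d7f1a1afefd3) b14620 (.one (nat_lit 55) (nat_lit 11) (nat_lit 3) (nat_lit 0xc000017fdff2ff20b600bf4c000017f99bb00000600000c00001800153006fe5ff032bfe1517fd21aff7b65ffa6ebfe9f97fb33affd46) b14621 (.nil))) (.tok (nat_lit 9) (nat_lit 0xbfbfbd7f1402fec156006b0bfe4bd7f9eeaff7385ff116bfd4a17f898affb955ff77abfe2d97fd08afeed65feb2abfc87d7f7232ff131) (.hit (nat_lit 12) (nat_lit 20) (nat_lit 0xbfbfbd7f1402fec156006b0bfe4bd7f9eeaff7385ff116bfd4a17f898affb955ff77abfe2d97fd08afeed65feb2abfc87d7f7232ff131)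 b14622 (.hit (nat_lit 13) (nat_lit 28) (nat_lit 0xbf5df17ef90afd8f05fc9e0bf74bd7f2e7afe00c5fbe94bf79ed7ed4fafdfc85f9d1cbf3eb97e82c2fc8715fa4ccbf2fc17e3f3afda76) b14623 (.nil))) (.nil)))) (.nil)))
noncomputable def r20_56 : Rw Blk := .tok (nat_lit 3) (nat_lit 0xbc0001780002fe7155fe858bfbd497f9b9aff1eb5fe050bfc1c97f734afe6b1) (.hit (nat_lit 0) (nat_lit 0) (nat_lit 0xbc0001780002fd3845fdc78bfa5597f6beafdbbb5fc736bf94197ec46afd5ad) b14629 (.tok (nat_lit 9) (nat_lit 0xbc0001780002fc50e5fa834bf346d7e8a02fcb7f5fbc88bf7ebd7e430afcb3a) (.hit (nat_lit 1) (nat_lit 20) (nat_lit 0xbc0001780002fb3695f84eabeedd97dfcdafb9da5f993ebf38297db5e2fb995) b14630 (.hit (nat_lit 4) (nat_lit 28) (nat_lit 0xbc0001780002fac435f769ebed1417dc3aafb2b45f8af2bf1b917d7cb2fb26f) b14633 (.tok (nat_lit 14) (nat_lit 0xbc0001780002fc50e5fa834bf346d7e8a02fcb7f5fbc88bf7ebd7e430afcb3a) (.hit (nat_lit 2) (nat_lit 24) (nat_lit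 0xbc0001780002fc2815fa31abf2a397e759afc8f25fb76ebf74897e2ea2fc8ad) b14631 (.hit (nat_lit 5) (nat_lit 30) (nat_lit 0xbc0001780002fba3e5f9294bf092d7e3382fc0af5fa6e8bf537d7dec8afc06a) b14634 (.one (nat_lit 6) (nat_lit 3) (nat_lit 25) (nat_lit 0xbc0001780002fc50e5fa834bf346d7e8a02fcb7f5fbc88bf7ebd7e430afcb3a) b14632 (.nil)))) (.one (nat_lit 56) (nat_lit 6) (nat_lit 31) (nat_lit 0xbc0001780002fc1dd5fa1d2bf27a97e707afc84e5fb626bf71f97e2982fc809) b14635 (.nil))))) (.tok (nat_lit 64) (nat_lit 0xbc0001780002fd0f45fc000bf64057ee932fd7655fd454bfae557ea23afd720) (.hit (nat_lit 7) (nat_lit 50) (nat_lit 0xbc0001780002fd0f45fc000bf64057ee932fd7655fd454bfae557ea23afd720) b14636 (.hit (nat_lit 8) (nat_lit 51) (nat_lit 0xbc0001780002fcd235fb85ebf54c17ecaaafd3945fccb2bf9f117e83b2fd34f) b14637 (.nil))) (.tok (nat_lit 67) (nat_lit 0xbc0001780002fe7155fe858bfbd497f9b9aff1eb5fe050bfc1c97f734afe6b1)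 (.hit (nat_lit 9) (nat_lit 52) (nat_lit 0xbc0001780002fe7155fe858bfbd497f9b9aff1eb5fe050bfc1c97f734afe6b1) b14638 (.tok (nat_lit 3) (nat_lit 0xbc0001780002fd2695fc2eabf69d97ef4dafd8da5fd73ebfb4297eade2fd895) (.hit (nat_lit 12) (nat_lit 58) (nat_lit 0xbc0001780002fcfcd5fbdb2bf5f697edffafd63e5fd206bfa9b97e9902fd5f9) b14641 (.one (nat_lit 55) (nat_lit 13) (nat_lit 59) (nat_lit 0xbc0001780002fd2695fc2eabf69d97ef4dafd8da5fd73ebfb4297eade2fd895) b14642 (.nil))) (.tok (nat_lit 9) (nat_lit 0xbc0001780002fdc5e5fd686bfadf57f7012fe7be5fdb58bfbc5d7f21e2fde02) (.hit (nat_lit 10) (nat_lit 53) (nat_lit 0xbc0001780002fdc5e5fd686bfadf57f7012fe7be5fdb58bfbc5d7f21e2fde02) b14639 (.hit (nat_lit 11) (nat_lit 56) (nat_lit 0xbc0001780002fcc9b5fb74ebf52a17ec66afd30c5fcba2bf9cf17e7f72fd2c7) b14640 (.nil))) (.nil)))) (.one (nat_lit 70) (nat_lit 14) (nat_lit 60) (nat_lit 0xbc0001780002fc95d5fb0d2bf45a97eac7afcfce5fc526bf8ff97e6582fcf89)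 b14643 (.nil)))))) (.tok (nat_lit 6) (nat_lit 0xbc000178000301e1f606070c0bccd8178230296c605066c0c5b1817cf303287) (.hit (nat_lit 15) (nat_lit 0) (nat_lit 0xbc0001780002fd6555fcacabf76c57f06c2fd7fc5fc316bf82d57ec9fafdc4e) b14644 (.tok (nat_lit 6) (nat_lit 0xbc0001780002fd9005fee06bf8fdd7f9e3afe8875fe47abfc1657f230afe132) (.hit (nat_lit 16) (nat_lit 7) (nat_lit 0xbc0001780002fc70a5fb796bf2c117eb362fcddf5fb064bf58b17e52eafc6ed) b14645 (.hit (nat_lit 21) (nat_lit 15) (nat_lit 0xbc0001780002fb4e05f87d4befc057e1942fbc195f762cbee4297dc4bafb696) b14650 (.tok (nat_lit 14) (nat_lit 0xbc0001780002fd9005fee06bf84b17f9e3afe8875fe47abfc1657f230afe132) (.hit (nat_lit 17) (nat_lit 11) (nat_lit 0xbc0001780002fd14c5fd35abf59717f33b2fdb495fc9d6bf8c217eb95afd39b) b14646 (.hit (nat_lit 22) (nat_lit 17) (nat_lit 0xbc0001780002fd3635fb4c8bf55957ecf9afd5265fb0d0bf55a57e8d2afd159) b14651 (.one (nat_lit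 9) (nat_lit 18) (nat_lit 12) (nat_lit 0xbc0001780002fd9005fee06bf84b17f9e3afe8875fe47abfc1657f230afe132) b14647 (.nil)))) (.tok (nat_lit 56) (nat_lit 0xbc0001780002fd58f5fd356bf8fdd7f40f2fe1185fd114bfa7d57eecb2fdd15) (.hit (nat_lit 19) (nat_lit 13) (nat_lit 0xbc0001780002fd5835fd214bf7fe17f232afdced5fcb46bf8e957ecb5afd90c) b14648 (.hit (nat_lit 24) (nat_lit 19) (nat_lit 0xbc0001780002fcd8c5fa822bf3ca57e9dfafceb35fa2f8bf44117e598afcb04) b14653 (.one (nat_lit 6) (nat_lit 20) (nat_lit 14) (nat_lit 0xbc0001780002fd58f5fd356bf8fdd7f40f2fe1185fd114bfa7d57eecb2fdd15) b14649 (.nil)))) (.one (nat_lit 68) (nat_lit 23) (nat_lit 18) (nat_lit 0xbc0001780002fc5845f9812bf1c857e6182fc6ab5f9d0abf3fc17e194afc302) b14652 (.nil)))))) (.tok (nat_lit 52) (nat_lit 0xbc0001780002fd85a5fe6b4bf9c8d7f5adafe6ad5fdbe8bfa3b97f195afe1e5) (.hit (nat_lit 25) (nat_lit 39) (nat_lit 0xbc0001780002fc89d5fd296bf92c97f343afe0885fce4abf9c457ee812fdffc)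 b14654 (.hit (nat_lit 26) (nat_lit 40) (nat_lit 0xbc0001780002fd85a5fe6b4bf9c8d7f5adafe6ad5fdbe8bfa3b97f195afe1e5) b14655 (.nil))) (.tok (nat_lit 55) (nat_lit 0xbc000178000301e1f606070c0bccd8178230296c605066c0c5b1817cf303287) (.hit (nat_lit 27) (nat_lit 41) (nat_lit 0xbc0001780002feb545ffcb6bfdf5d7fd762ff6a45feea6bfebe97f9da2ffa2c) b14656 (.tok (nat_lit 3) (nat_lit 0xbc0001780002feeb35ffb94bfb9597fd47aff2975ffa28bfe4c97f62aafe9c0) (.hit (nat_lit 33) (nat_lit 47) (nat_lit 0xbc0001780002fe34c5ff594bfad657fca8afee345ffa28bfe4c97f5592fe311) b14662 (.one (nat_lit 67) (nat_lit 34) (nat_lit 48) (nat_lit 0xbc0001780002feeb35ffb94bfb9597fd47aff2975ff210bfdc917f62aafe9c0) b14663 (.nil))) (.tok (nat_lit 6) (nat_lit 0xbc000178000301e1f606070c0bccd8178230296c605066c0c5b1817cf303287) (.hit (nat_lit 28) (nat_lit 42) (nat_lit 0xbc0001780002ffd5b603796c045ad80c86b00dd46020eec0579980967301248)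 b14657 (.hit (nat_lit 31) (nat_lit 45) (nat_lit 0xbc0001780002fd57f5fdb58bfa2917f665afe82d5fd27cbf9eed7f255afe365) b14660 (.tok (nat_lit 55) (nat_lit 0xbc000178000301e1f606070c0bccd8178230296c605066c0c5b1817cf303287) (.hit (nat_lit 29) (nat_lit 43) (nat_lit 0xbc000178000300319604570c091e981024b01d616031d0c0918580edf30208e) b14658 (.hit (nat_lit 32) (nat_lit 46) (nat_lit 0xbc0001780002ff26f600130bfee7d7ffe32ffb285ff97cbfeb257fbd32ff660) b14661 (.one (nat_lit 6) (nat_lit 30) (nat_lit 44) (nat_lit 0xbc000178000301e1f606070c0bccd8178230296c605066c0c5b1817cf303287) b14659 (.nil)))) (.nil)))) (.nil)))) (.one (nat_lit 58) (nat_lit 35) (nat_lit 49) (nat_lit 0xbc0001780002fd3935fe99abfafb97f823afeb785fddd6bfab7d7f3fb2fe6b0) b14664 (.nil)))))) (.nil))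
noncomputable def r20_57 : Rw Blk := .tok (nat_lit 3) (nat_lit 0x1780002fe2755fb4bebfb9457f6fd2fefd1) (.hit (nat_lit 0) (nat_lit 0) (nat_lit 0x1780002fd8365f93f0bf715d7ee8eafddd7) b14665 (.tok (nat_lit 6) (nat_lit 0x1780002fd5185fa4b2bf992d7f2fa2fe7cb) (.hit (nat_lit 1) (nat_lit 7) (nat_lit 0x1780002fbb655f714cbf32617e620afce18) b14666 (.hit (nat_lit 6) (nat_lit 15) (nat_lit 0x1780002fb6fa5f6876bf20b57e3eb2fc9ad) b14671 (.tok (nat_lit 14) (nat_lit 0x1780002fca8d5f8f9cbf6f017edb4afdd40) (.hit (nat_lit 2) (nat_lit 11) (nat_lit 0x1780002fc9d85f8e32bf6c2d7ed5a2fdc8b) b14667 (.hit (nat_lit 7) (nat_lit 17) (nat_lit 0x1780002fc1655f7d4cbf4a617e920afd418) b14672 (.one (nat_lit 9) (nat_lit 3) (nat_lit 12) (nat_lit 0x1780002fca8d5f8f9cbf6f017edb4afdd40) b14668 (.nil)))) (.tok (nat_lit 56) (nat_lit 0x1780002fd5185fa4b2bf992d7f2fa2fe7cb) (.hit (nat_lit 4) (nat_lit 13) (nat_lit 0x1780002fcee55f984cbf80617efe0afe198)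 b14669 (.hit (nat_lit 8) (nat_lit 19) (nat_lit 0x1780002fbda25f75c6bf3b557e73f2fd055) b14673 (.one (nat_lit 6) (nat_lit 5) (nat_lit 14) (nat_lit 0x1780002fd5185fa4b2bf992d7f2fa2fe7cb) b14670 (.nil)))) (.nil))))) (.tok (nat_lit 52) (nat_lit 0x1780002fce3c5f96fabf7dbd7ef8c2fe0ef) (.hit (nat_lit 9) (nat_lit 39) (nat_lit 0x1780002fce3c5f96fabf7dbd7ef8c2fe0ef) b14674 (.hit (nat_lit 10) (nat_lit 40) (nat_lit 0x1780002fcdfb5f9678bf7cb97ef6bafe0ae) b14675 (.nil))) (.tok (nat_lit 55) (nat_lit 0x1780002fe2755fb4bebfb9457f6fd2fefd1) (.hit (nat_lit 11) (nat_lit 41) (nat_lit 0x1780002fe2755fae48bfb5597f6742fedb4) b14676 (.tok (nat_lit 3) (nat_lit 0x1780002fdd1e5fb4bebfb9457f6fd2fefd1) (.hit (nat_lit 17) (nat_lit 47) (nat_lit 0x1780002fd5c65fa60ebf9be57f3512fe879) b14682 (.one (nat_lit 67) (nat_lit 18) (nat_lit 48) (nat_lit 0x1780002fdd1e5fb4bebfb9457f6fd2fefd1) b14683 (.nil))) (.tok (nat_lit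 6) (nat_lit 0x1780002fd3f85fa272bf94ad7f26a2fe6ab) (.hit (nat_lit 12) (nat_lit 42) (nat_lit 0x1780002fca055f8e8cbf6ce17ed70afdcb8) b14677 (.hit (nat_lit 15) (nat_lit 45) (nat_lit 0x1780002fcc955f93acbf77217eeb8afdf48) b14680 (.tok (nat_lit 55) (nat_lit 0x1780002fd3f85fa272bf94ad7f26a2fe6ab) (.hit (nat_lit 13) (nat_lit 43) (nat_lit 0x1780002fd3f85fa272bf94ad7f26a2fe6ab) b14678 (.hit (nat_lit 16) (nat_lit 46) (nat_lit 0x1780002fd3525fa126bf92157f2172fe605) b14681 (.one (nat_lit 6) (nat_lit 14) (nat_lit 44) (nat_lit 0x1780002fd1b55f9decbf8ba17f148afe468) b14679 (.nil)))) (.nil)))) (.nil)))) (.one (nat_lit 58) (nat_lit 19) (nat_lit 49) (nat_lit 0x1780002fc4835f8388bf56d97eaafafd736) b14684 (.nil)))))) (.tok (nat_lit 9) (nat_lit 0x178000302617604316c0a51581398302ca0) (.hit (nat_lit 20) (nat_lit 0) (nat_lit 0x1780002fdc6f5faeb2bfae417f6e22fed07) b14685 (.tok (nat_lit 9) (nat_lit 0x178000302617604316c0a51581398302ca0)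 (.hit (nat_lit 21) (nat_lit 20) (nat_lit 0x1780002fdb255fc000bfb5157f66d2fee8e) b14686 (.hit (nat_lit 26) (nat_lit 28) (nat_lit 0x1780002fbb405f7092bf63f97ec13afd95f) b14691 (.tok (nat_lit 14) (nat_lit 0x178000302617604316c0940981398302ca0) (.hit (nat_lit 22) (nat_lit 24) (nat_lit 0x178000302617604316c0940981398302ca0) b14687 (.hit (nat_lit 27) (nat_lit 30) (nat_lit 0x1780002fdea85fb8c4bfeca17fd28affc23) b14692 (.one (nat_lit 6) (nat_lit 23) (nat_lit 25) (nat_lit 0x178000300900600b34c041f5809d6301b03) b14688 (.nil)))) (.one (nat_lit 56) (nat_lit 28) (nat_lit 31) (nat_lit 0x1780002fd0b65facfcbfd2617f9e62ff376) b14693 (.tok (nat_lit 68) (nat_lit 0x1780002ff8f95ffe0ac0a5158110330284d) (.hit (nat_lit 24) (nat_lit 26) (nat_lit 0x1780002ff8f95ff07ac027d180709b00f5a) b14689 (.hit (nat_lit 29) (nat_lit 32) (nat_lit 0x1780002fcc5f5f988cbfa0317f39e2fe6ff) b14694 (.one (nat_lit 9) (nat_lit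 25) (nat_lit 27) (nat_lit 0x1780002fe24d5ffe0ac0a5158110330284d) b14690 (.nil)))) (.nil)))))) (.nil))) (.nil))
noncomputable def r20_58 : Rw Blk := .tok (nat_lit 3) (nat_lit 0x5e0000bc00017f7782ff3eb5ff73abfd7d17fbaa2ff776) (.hit (nat_lit 0) (nat_lit 0) (nat_lit 0x5e0000bc00017f208afdf4e5fc9e6bf7d997f00a2fe0fc) b14695 (.tok (nat_lit 6) (nat_lit 0x5e0000bc00017f241afe5e35fd64abf8a557f213afe4a1) (.hit (nat_lit 1) (nat_lit 7) (nat_lit 0x5e0000bc00017e52bafcbb75fa1f2bf21a57e4fdafca75) b14696 (.hit (nat_lit 6) (nat_lit 15) (nat_lit 0x5e0000bc00017e315afc78b5f999abf10f57e2e7afc649) b14701 (.tok (nat_lit 14) (nat_lit 0x5e0000bc00017edf82fdd505fc524bf68097edca2fdc0e) (.hit (nat_lit 2) (nat_lit 11) (nat_lit 0x5e0000bc00017edf82fdd505fc524bf68097edca2fdc0e) b14697 (.hit (nat_lit 7) (nat_lit 17) (nat_lit 0x5e0000bc00017e9002fd3605fb144bf40497e8d22fd21e) b14702 (.one (nat_lit 9) (nat_lit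 3) (nat_lit 12) (nat_lit 0x5e0000bc00017ed552fdc0a5fc298bf62f17ed272fdac8) b14698 (.nil)))) (.tok (nat_lit 56) (nat_lit 0x5e0000bc00017f241afe5e35fd64abf8a557f213afe4a1) (.hit (nat_lit 4) (nat_lit 13) (nat_lit 0x5e0000bc00017efb42fe0c85fcc14bf75e97ef862fdf86) b14699 (.hit (nat_lit 8) (nat_lit 19) (nat_lit 0x5e0000bc00017e8682fd2305faee4bf3b897e83a2fd0ee) b14703 (.one (nat_lit 6) (nat_lit 5) (nat_lit 14) (nat_lit 0x5e0000bc00017f241afe5e35fd64abf8a557f213afe4a1) b14700 (.nil)))) (.nil))))) (.tok (nat_lit 52) (nat_lit 0x5e0000bc00017f0872fe26e5fcf60bf7c817f0592fe12c) (.hit (nat_lit 9) (nat_lit 39) (nat_lit 0x5e0000bc00017f0872fe26e5fcf60bf7c817f0592fe12c) b14704 (.hit (nat_lit 10) (nat_lit 40) (nat_lit 0x5e0000bc00017eea32fdea65fc7d0bf6d617ee752fdd64) b14705 (.nil))) (.tok (nat_lit 55) (nat_lit 0x5e0000bc00017f7782ff3eb5ff73abfd7d17fbaa2ff776) (.hit (nat_lit 11) (nat_lit 41) (nat_lit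 0x5e0000bc00017f7782ff3a25ff534bfd0e97fbaa2ff776) b14706 (.tok (nat_lit 3) (nat_lit 0x5e0000bc00017f2c9afe6f35fd86abf8e957f29bafe5b1) (.hit (nat_lit 17) (nat_lit 47) (nat_lit 0x5e0000bc00017f2c9afe6f35fd86abf8e957f29bafe5b1) b14712 (.one (nat_lit 67) (nat_lit 18) (nat_lit 48) (nat_lit 0x5e0000bc00017f0772fe24e5fcf20bf7c017f0492fe10c) b14713 (.nil))) (.tok (nat_lit 6) (nat_lit 0x5e0000bc00017f640aff3eb5ff73abfd7d17fb08aff46f) (.hit (nat_lit 12) (nat_lit 42) (nat_lit 0x5e0000bc00017f4bdafe3945fcdb8bf96a57f4742fe56a) b14707 (.hit (nat_lit 15) (nat_lit 45) (nat_lit 0x5e0000bc00017ec52afda055fbe8ebf5add7ec24afd8c3) b14710 (.tok (nat_lit 55) (nat_lit 0x5e0000bc00017f640aff3eb5ff73abfd7d17fb08aff46f) (.hit (nat_lit 13) (nat_lit 43) (nat_lit 0x5e0000bc00017f55a2ff3eb5ff73abfd7d17fb08aff46f) b14708 (.hit (nat_lit 16) (nat_lit 46) (nat_lit 0x5e0000bc00017ef532fe0065fca90bf72e17ef252fdec4)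 b14711 (.one (nat_lit 6) (nat_lit 14) (nat_lit 44) (nat_lit 0x5e0000bc00017f640afede15fe646bfaa4d7f612afec9f) b14709 (.nil)))) (.nil)))) (.nil)))) (.one (nat_lit 58) (nat_lit 19) (nat_lit 49) (nat_lit 0x5e0000bc00017edfbafdd575fc532bf68257edcdafdc15) b14714 (.nil)))))) (.tok (nat_lit 9) (nat_lit 0x5e0000bc000180000300000600bfec0000180000300351) (.hit (nat_lit 20) (nat_lit 0) (nat_lit 0x5e0000bc00017f2e52fe7565feaa2bfbbe17fac8afe80e) b14715 (.tok (nat_lit 9) (nat_lit 0x5e0000bc000180000300000600bfec0000180000300351) (.hit (nat_lit 21) (nat_lit 20) (nat_lit 0x5e0000bc00017f08b2fdef65fdaf0bf9df17f3bf2fe33b) b14716 (.hit (nat_lit 26) (nat_lit 28) (nat_lit 0x5e0000bc00017e999afd10a5fb6f0bf50357ea46afd555) b14721 (.tok (nat_lit 14) (nat_lit 0x5e0000bc000180000300000600bfec0000180000300351) (.hit (nat_lit 22) (nat_lit 24) (nat_lit 0x5e0000bc0001800002ffbeb6004debff8597ff432ffc4e) b14717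 (.hit (nat_lit 27) (nat_lit 30) (nat_lit 0x5e0000bc00017f7802fee3d5ff2bebfc7757f8af2ff275) b14722 (.one (nat_lit 6) (nat_lit 23) (nat_lit 25) (nat_lit 0x5e0000bc00017fed9b00000600bfec0000180000300351) b14718 (.nil)))) (.one (nat_lit 56) (nat_lit 28) (nat_lit 31) (nat_lit 0x5e0000bc00017f57eafe9745fe7d0bfb4657f60fafedac) b14723 (.tok (nat_lit 68) (nat_lit 0x5e0000bc00017f7402ff0205ffaa6bfd5097fa02aff465) (.hit (nat_lit 24) (nat_lit 26) (nat_lit 0x5e0000bc00017f7402fefe05ffaa6bfd5097fa02aff42a) b14719 (.hit (nat_lit 29) (nat_lit 32) (nat_lit 0x5e0000bc00017f1252fe3525fdd40bf9b8d7f3c12fe77e) b14724 (.one (nat_lit 9) (nat_lit 25) (nat_lit 27) (nat_lit 0x5e0000bc00017f4ebaff0205ff2d4bfce997f9602ff465) b14720 (.nil)))) (.nil)))))) (.nil))) (.nil))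
noncomputable def r20_59 : Rw Blk := .tok (nat_lit 6) (nat_lit 0x5e0000bc00017fb6cb009126011a4bffe957feb12fffa2) (.hit (nat_lit 11) (nat_lit 0) (nat_lit 0x5e0000bc00017efb7300623600bd0bf9a557f3f42fe687) b14736 (.tok (nat_lit 3) (nat_lit 0x5e0000bc00017fb6cb009126011a4bffe957feb12fffa2) (.hit (nat_lit 12) (nat_lit 1) (nat_lit 0x5e0000bc00017ea86afe83a5fd12ebf7efd7eebe2fdf99) b14737 (.one (nat_lit 14) (nat_lit 13) (nat_lit 4) (nat_lit 0x5e0000bc00017fb6cb009126011a4bffe957feb12fffa2) b14738 (.one (nat_lit 56) (nat_lit 15) (nat_lit 6) (nat_lit 0x5e0000bc00017f4b1affe295ffefabfd8a57f9f32ff628) b14739 (.one (nat_lit 68) (nat_lit 14) (nat_lit 5) (nat_lit 0x5e0000bc00017f3bc2fef9b5fdd02bfc85d7f7e72fecbf) b14740 (.nil))))) (.nil))) (.tok (nat_lit 9) (nat_lit 0x5e0000bc000180000300d4e6010a4c000018028c300000) (.hit (nat_lit 0) (nat_lit 0) (nat_lit 0x5e0000bc00017f8b9b001eb6006b0bfde458028c2ff8a2)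 b14725 (.tok (nat_lit 3) (nat_lit 0x5e0000bc00017f7ddaff43b5fe7fcbfb6c97f4592fecb7) (.hit (nat_lit 1) (nat_lit 1) (nat_lit 0x5e0000bc00017ec93afd7f35faf92bf39c97e73a2fce66) b14726 (.one (nat_lit 14) (nat_lit 2) (nat_lit 4) (nat_lit 0x5e0000bc00017f7ddafed835fe534bfb6c97f4592fecb7) b14727 (.one (nat_lit 56) (nat_lit 4) (nat_lit 6) (nat_lit 0x5e0000bc00017f691aff43b5fe7fcbfa6857f3af2fe99b) b14728 (.one (nat_lit 68) (nat_lit 3) (nat_lit 5) (nat_lit 0x5e0000bc00017f6c92ff2fd5fe59cbfa9617f40aafea52) b14729 (.nil))))) (.tok (nat_lit 40) (nat_lit 0x5e0000bc00017efdf2ff3dd5fe7a0bfa5097f37fafe93c) (.hit (nat_lit 5) (nat_lit 33) (nat_lit 0x5e0000bc00017ef7c2ff3dd5fe7a0bfa5097f37fafe93c) b14730 (.hit (nat_lit 6) (nat_lit 34) (nat_lit 0x5e0000bc00017efdf2ff2ce5fe514bf9c4d7f33fafe713) b14731 (.nil))) (.tok (nat_lit 43) (nat_lit 0x5e0000bc000180000300d4e6010a4c000017ffa0b00000) (.hit (nat_lit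 7) (nat_lit 35) (nat_lit 0x5e0000bc00017eca6afeb165fd51ebf891d7f1faafe3c8) b14734 (.hit (nat_lit 8) (nat_lit 36) (nat_lit 0x5e0000bc000180000300d4e6010a4c000017ffa0b00000) b14735 (.nil))) (.tok (nat_lit 46) (nat_lit 0x5e0000bc00017f7a9b001e2600458bfdee97ffd9affd6b) (.hit (nat_lit 9) (nat_lit 37) (nat_lit 0x5e0000bc00017f7a9b001e2600458bfdee97ffd9affd6b) b14732 (.hit (nat_lit 10) (nat_lit 38) (nat_lit 0x5e0000bc00017f28aaff9ea5ff5ccbfbd757f6912fef5d) b14733 (.nil))) (.nil)))))) (.nil))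
noncomputable def r20_60 : Rw Blk := .tok (nat_lit 3) (nat_lit 0x1780002f00005fc7aebf677d7ec69afd82b) (.hit (nat_lit 14) (nat_lit 0) (nat_lit 0x1780002f00005fc7aebf677d7ec69afd82b) b14755 (.tok (nat_lit 6) (nat_lit 0x1780002f00005fbac4bf3fc17e9502fd1e8) (.hit (nat_lit 15) (nat_lit 7) (nat_lit 0x1780002f00005fbac4bf3fc17e9502fd1e8) b14758 (.hit (nat_lit 16) (nat_lit 15) (nat_lit 0x1780002f00005fbaa6bf3f857e948afd1d9) b14759 (.nil))) (.tok (nat_lit 9) (nat_lit 0x1780002f00005f7f4abec8cd7da71afb42b) (.hit (nat_lit 17) (nat_lit 20) (nat_lit 0x1780002f00005f7f4abec8cd7da71afb42b) b14756 (.hit (nat_lit 18) (nat_lit 28) (nat_lit 0x1780002f00005f66ccbe97d17d4522fa7ec) b14757 (.nil))) (.nil)))) (.tok (nat_lit 6) (nat_lit 0x1780002f00005fee7abfc3257f9e32ff46e) (.hit (nat_lit 9) (nat_lit 0) (nat_lit 0x1780002f00005fd254bfa3997f61aafefba) b14750 (.tok (nat_lit 3) (nat_lit 0x1780002f00005fee7abfc3257f9e32ff46e)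 (.hit (nat_lit 10) (nat_lit 1) (nat_lit 0x1780002f00005fbe3cbf80817f1ab2fe29e) b14751 (.one (nat_lit 67) (nat_lit 11) (nat_lit 2) (nat_lit 0x1780002f00005fee7abfc3257f9e32ff46e) b14752 (.nil))) (.tok (nat_lit 6) (nat_lit 0x1780002f00005fde76bfc0f57f9b9aff2bb) (.hit (nat_lit 12) (nat_lit 7) (nat_lit 0x1780002f00005fde76bfc0f57f9b9aff2bb) b14753 (.hit (nat_lit 13) (nat_lit 15) (nat_lit 0x1780002f00005fc62abf905d7f3a6afe695) b14754 (.nil))) (.nil)))) (.tok (nat_lit 9) (nat_lit 0x1780002f0000600000c0060580000300000) (.hit (nat_lit 0) (nat_lit 0) (nat_lit 0x1780002f00005fe5c8bfa7997f68e2fec64) b14741 (.tok (nat_lit 3) (nat_lit 0x1780002f0000600000bfbcb17f92e2ff1a4) (.hit (nat_lit 1) (nat_lit 1) (nat_lit 0x1780002f00005fcc84bf59e57ecd7afd8f7) b14742 (.one (nat_lit 55) (nat_lit 2) (nat_lit 3) (nat_lit 0x1780002f0000600000bfbcb17f92e2ff1a4) b14743 (.nil))) (.tok (nat_lit 9) (nat_lit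 0x1780002f00005ffed0c0060580000300000) (.hit (nat_lit 3) (nat_lit 20) (nat_lit 0x1780002f00005febeabf884d7f376afe61d) b14744 (.hit (nat_lit 7) (nat_lit 28) (nat_lit 0x1780002f00005fcb4abf5f417ed832fd8df) b14748 (.tok (nat_lit 67) (nat_lit 0x1780002f00005ffed0c0060580000300000) (.hit (nat_lit 4) (nat_lit 21) (nat_lit 0x1780002f00005ffe6abfd8097fc6d2ff822) b14745 (.hit (nat_lit 8) (nat_lit 29) (nat_lit 0x1780002f00005ff2f0bfc1297f9c02ff2c8) b14749 (.tok (nat_lit 9) (nat_lit 0x1780002f00005ffed0c0060580000300000) (.hit (nat_lit 5) (nat_lit 22) (nat_lit 0x1780002f00005fee68bfb0917f781afee56) b14746 (.one (nat_lit 67) (nat_lit 6) (nat_lit 23) (nat_lit 0x1780002f00005ffed0c0060580000300000) b14747 (.nil))) (.nil)))) (.nil)))) (.nil)))) (.nil)))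
noncomputable def r20_61 : Rw Blk := .tok (nat_lit 6) (nat_lit 0xc000017f7fe2ff08c5fd236bfae657f4bdafee985fe63abfbad57ff8caff938) (.hit (nat_lit 81) (nat_lit 0) (nat_lit 0xbf76b17ef532fdd055fb69ebf72b57ed76afe27e5fc53cbf8bdd7f21a2fdf52) b14973 (.tok (nat_lit 14) (nat_lit 0xc000017f760aff08c5fcfb8bfad4d7f3482fe6a95fe20cbfb8c57ff8caff938) (.hit (nat_lit 117) (nat_lit 61) (nat_lit 0xbfcaa97f6c8aff08c5fc7f8bf8fdd7f3482fe6a95fd6a6bfb8c57ff8caff938) b14974 (.one (nat_lit 3) (nat_lit 118) (nat_lit 62) (nat_lit 0xbf94117efd3afeb955fa742bf4a4d7e5f4afcc025faf98bf5a497f6cf2fe679) b14975 (.tok (nat_lit 6) (nat_lit 0xbf9f8d7ef3f2fe6d25fb59abf6f917ed982fdb495fbfe6bf8b457fa842fedf1) (.hit (nat_lit 121) (nat_lit 65) (nat_lit 0xbf3de57e328afde9c5fb138bf625d7ed982fdb495fbfe6bf8b457ef3aafdb32) b14976 (.hit (nat_lit 122) (nat_lit 66) (nat_lit 0xbf9f8d7ef3f2fe6d25fb59abf6f917e6b1afcd7c5fbadabf70d17fa842fedf1)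 b14977 (.nil))) (.tok (nat_lit 9) (nat_lit 0xc000017f760afefa15fcfb8bfad4d7ee7c2fdd115fe20cbfb3817fd0f2ff454) (.hit (nat_lit 119) (nat_lit 63) (nat_lit 0xc000017f760afe9615fcfb8bfad4d7ee7c2fdd115fe20cbfb3817fd0f2ff454) b14978 (.hit (nat_lit 120) (nat_lit 64) (nat_lit 0xbf88b97ebbbafefa15fa428bf48357e802afd01e5faf9ebf5e997f5842fe56c) b14979 (.nil))) (.nil))))) (.one (nat_lit 17) (nat_lit 123) (nat_lit 67) (nat_lit 0xbf5e797ebbd2fde4a5f8aaabf133d7e26b2fc4ef5f9634bf31dd7eea52fd835) b14980 (.tok (nat_lit 20) (nat_lit 0xbfa7117f552afe8575fc970bf87b97e9d82fd3c95fd1a4bf9bbd7fdaaaff4e8) (.hit (nat_lit 124) (nat_lit 68) (nat_lit 0xbfa7117f552afe8575fc970bf87b97e9d82fd3c95fd1a4bf9bbd7fdaaaff4e8) b14983 (.hit (nat_lit 125) (nat_lit 69) (nat_lit 0xbf5b217e456afe4c25f8a24bf102d7e071afc0fc5f93f2bf22517ee332fd75f) b14984 (.nil))) (.tok (nat_lit 23) (nat_lit 0xbf57d57e508afda775fab8ebf57097ec2dafd8745fba3cbf7ff17edd0afd85d)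 (.hit (nat_lit 126) (nat_lit 70) (nat_lit 0xbf32917e1be2fda775fab8ebf57097ec2dafd8745fba3cbf7ff17edd02fd85d) b14981 (.hit (nat_lit 127) (nat_lit 71) (nat_lit 0xbf57d57e508afcf2b5f88c2bf0d117e0682fc0e95f92b8bf21c57edd0afd68c) b14982 (.nil))) (.one (nat_lit 26) (nat_lit 128) (nat_lit 72) (nat_lit 0xbf36817dfc32fcaf35f7790beeb797d9ecafb3f25f8272befdb17e9a62fce37) b14985 (.one (nat_lit 29) (nat_lit 129) (nat_lit 73) (nat_lit 0xbf3d357e458afd3bb5f7b1ebef25d7d95f2fb2d75f8548bf04657ea7cafcfe4) b14986 (.one (nat_lit 32) (nat_lit 130) (nat_lit 74) (nat_lit 0xbf09757dca22fd9925f6ad0bed58d7dbfe2fb8155f797ebefe757e4042fc2f4) b14988 (.one (nat_lit 35) (nat_lit 131) (nat_lit 75) (nat_lit 0xbf58b97e7a3afd8315f88dabf0dd97d8c8afb1aa5f9308bf1fe97eded2fd6c5) b14987 (.one (nat_lit 38) (nat_lit 132) (nat_lit 76) (nat_lit 0xbf4a917e4c7afd9bd5f8fc0bf0c617e2d8afc5ca5f94e8bf35497ec21afd32e) b14989 (.tok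 (nat_lit 41) (nat_lit 0xbf5e657ebb7afdea05f8fbebf13ad7de10afbc3a5f9d94bf259d7ef7dafd830) (.hit (nat_lit 133) (nat_lit 77) (nat_lit 0xbf36997e6b3afd7c55f78d8beed0d7d360afa6da5f80fcbefdc97ef7dafd655) b14990 (.hit (nat_lit 134) (nat_lit 78) (nat_lit 0xbf5e657ebb7afdea05f8fbebf13ad7de10afbc3a5f9d94bf259d7eea2afd830) b14991 (.nil))) (.tok (nat_lit 44) (nat_lit 0xbf704d7f0eaafe6ed5fa66cbf50897db25afb6645fb3eabf50097f1c1afdb94) (.hit (nat_lit 135) (nat_lit 79) (nat_lit 0xbf704d7f0eaafe6ed5fa66cbf50897db25afb6645fb3eabf50097f1c1afdb94) b14994 (.hit (nat_lit 136) (nat_lit 80) (nat_lit 0xbf4d317e2a42fd6865f834cbf02557db172fb6475f8d18bf14617ec7bafd3e3) b14995 (.nil))) (.tok (nat_lit 47) (nat_lit 0xbf5ce17e7512fd4055f8b68bf12297e250afc4ba5f965cbf31097ee722fd7cf) (.hit (nat_lit 137) (nat_lit 81) (nat_lit 0xbee3a97d7e12fcb365f841abf08217e250afc4ba5f92c8bf31097e3f32fc4a3) b14992 (.hit (nat_lit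 138) (nat_lit 82) (nat_lit 0xbf5ce17e7512fd4055f8b68bf12297df4bafbeb05f965cbf24197ee722fd7cf) b14993 (.nil))) (.one (nat_lit 50) (nat_lit 139) (nat_lit 83) (nat_lit 0xbf6f2d7e8d52fdd865f983abf24317dfdcafbfd25f9e38bf36517f0ba2fdc5f) b15005 (.tok (nat_lit 53) (nat_lit 0xbf730d7f40fafea785fab18bf50957e94aafd2ae5fb33abf68d97f80fafe911) (.hit (nat_lit 140) (nat_lit 84) (nat_lit 0xbf730d7f40fafea785fab18bf50957e94aafd2ae5fb33abf68d97f80fafe911) b15006 (.hit (nat_lit 141) (nat_lit 85) (nat_lit 0xbf62097e918afde315f8d92bf17317e00e2fc0355f97d6bf29397ef172fd919) b15007 (.nil))) (.tok (nat_lit 56) (nat_lit 0xbfce697f7fe2fedea5fd236bfae657f4bdafee985fe63abfbad57fc852ff3c5) (.hit (nat_lit 142) (nat_lit 86) (nat_lit 0xbfce0d7f7fe2fe9a25fc9d8bfa5757f4bdafee985fdd0abfbad57f8b2afec2f) b15008 (.one (nat_lit 3) (nat_lit 146) (nat_lit 90) (nat_lit 0xbf9f7d7ef50afe21c5fab6ebf56a17ea71afd4fc5fc1f0bf72997f5922fe20e)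 b15012 (.tok (nat_lit 6) (nat_lit 0xbfce697f1532fedea5fc62abf8b4d7edb8afdb8a5fc93cbf8e497fc27aff3c5) (.hit (nat_lit 144) (nat_lit 88) (nat_lit 0xbfce697f1532fedea5fc62abf8b4d7edb8afdb8a5fc93cbf8e497fc27aff3c5) b15010 (.hit (nat_lit 145) (nat_lit 89) (nat_lit 0xbf667d7f0c52fe8f65f958ebf2b1d7e6adafcd745fa43cbf53f17efecafda05) b15011 (.nil))) (.one (nat_lit 9) (nat_lit 143) (nat_lit 87) (nat_lit 0xbfc3117f74e2fe9155fd236bfae657f1552fe2c35fe63abfba917fc852ff1da) b15009 (.nil))))) (.one (nat_lit 59) (nat_lit 147) (nat_lit 91) (nat_lit 0xbf52ed7e3c1afd7675f84c4bf07c17d668afacea5f8ff0bf1a1d7ed33afd552) b15013 (.one (nat_lit 62) (nat_lit 148) (nat_lit 92) (nat_lit 0xbf460d7e2682fd5c75f7f3ebefb8d7e0be2fc1955f8c7ebf24757eb97afd21a) b14996 (.tok (nat_lit 65) (nat_lit 0xbf6be17ee932fdca15f93a2bf226d7df442fbea15f9bfabf33c57f469afe0e0) (.hit (nat_lit 149) (nat_lit 93) (nat_lit 0xbf6be17ee932fdca15f93a2bf226d7df442fbea15f9bfabf33c57f469afe0e0)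 b14997 (.hit (nat_lit 150) (nat_lit 94) (nat_lit 0xbf536d7e786afd6515f868ebf088d7dd322fba7d5f90aabf1a9d7ed43afd572) b14998 (.nil))) (.tok (nat_lit 68) (nat_lit 0xbf7f757ef00afeb155fb454bf6e217efb22fe62d5fc2f2bf88657f4eb2fe4ba) (.hit (nat_lit 151) (nat_lit 95) (nat_lit 0xbf7f757ef00afeb155fb454bf6e217efb22fe62d5fc2f2bf88657f4eb2fe4ba) b14999 (.one (nat_lit 3) (nat_lit 155) (nat_lit 99) (nat_lit 0xbf07217dc502fdeeb5f95d6bf2b997e6bfafcd985fa484bf54817e8622fcd81) b15003 (.one (nat_lit 6) (nat_lit 152) (nat_lit 96) (nat_lit 0xbf33dd7e1e7afe35f5fac34bf58557ec572fd8c75fbae2bf813d7edf9afd8b0) b15000 (.tok (nat_lit 9) (nat_lit 0xbf388d7e27dafeaa85fae8cbf5d057eced2fd9f35fbd3abf85ed7ee8fafd9dc) (.hit (nat_lit 153) (nat_lit 97) (nat_lit 0xbf16357de32afe9a65f9d60bf3aad7e8a22fd15d5fac0ebf63957ea44afd146) b15001 (.hit (nat_lit 154) (nat_lit 98) (nat_lit 0xbf388d7e27dafeaa85fae8cbf5d057eced2fd9f35fbd3abf85ed7ee8fafd9dc)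 b15002 (.nil))) (.nil))))) (.one (nat_lit 71) (nat_lit 156) (nat_lit 100) (nat_lit 0xbf2cd97e0a32fcb775f71cabee19d7d668afacea5f7cd6bef4097e8712fcbcd) b15004 (.nil)))))))))))))))))))))) (.tok (nat_lit 14) (nat_lit 0xbf293d7dff4afd6f05fa158bf44597e904afcfe65fa904bf4fb97e9822fcfc1) (.hit (nat_lit 233) (nat_lit 0) (nat_lit 0xbf293d7dff4afd6f05fa158bf44597e904afcfe65fa904bf4fb97e9822fcfc1) b35983 (.one (nat_lit 3) (nat_lit 234) (nat_lit 1) (nat_lit 0xbe78497c9d62fc3515f41d2be83a57d2e62fa39b5f508abe9ec57d363afa384) b15015 (.tok (nat_lit 6) (nat_lit 0xbf19e57de09afd28e5f92a0bf25417e719afcc025fa158bf40617e7972fcbeb) (.hit (nat_lit 235) (nat_lit 7) (nat_lit 0xbf0c6d7dc5aafcf575f8be4bf17c97e56aafc8a45f9a9cbf32e97e5e82fc88d) b15016 (.hit (nat_lit 236) (nat_lit 15) (nat_lit 0xbf19e57de09afd28e5f92a0bf25417e719afcc025fa158bf40617e7972fcbeb) b15017 (.nil))) (.tok (nat_lit 9) (nat_lit 0xbf19e57de09afd28e5f92a0bf25417e719afcc025fa158bf40617e7972fcbeb)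 (.hit (nat_lit 237) (nat_lit 20) (nat_lit 0xbf0c6d7dc5aafcf575f8be4bf17c97e56aafc8a45f9a9cbf32e97e5e82fc88d) b15016 (.hit (nat_lit 238) (nat_lit 28) (nat_lit 0xbf19e57de09afd28e5f92a0bf25417e719afcc025fa158bf40617e7972fcbeb) b15017 (.nil))) (.nil))))) (.tok (nat_lit 17) (nat_lit 0xbf47d17e2712fd27c5fcc6abf9a7d7eb812fdc895fb66cbf639d7ed972fd80d) (.hit (nat_lit 239) (nat_lit 0) (nat_lit 0xbf47d17e2512fcdc15fcc6abf9a7d7eb69afdc895fb66cbf5ee17ed972fd80d) b35984 (.one (nat_lit 3) (nat_lit 240) (nat_lit 1) (nat_lit 0xbea5617cf792fca5a5f585ebeb0bd7d8892faee15f6716becbdd7d906afaeca) b15019 (.tok (nat_lit 6) (nat_lit 0xbf3d217e2712fd27c5fa43ebf487d7eb812fd4d15fb2f6bf639d7ebfeafd4ba) (.hit (nat_lit 241) (nat_lit 7) (nat_lit 0xbf25cd7df86afcd215f9894bf31297e896afcefc5fa74cbf4c497e9142fcee5) b15020 (.hit (nat_lit 242) (nat_lit 15) (nat_lit 0xbf3d217e2712fd27c5fa43ebf487d7eb812fd4d15fb2f6bf639d7ebfeafd4ba)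 b15021 (.nil))) (.tok (nat_lit 9) (nat_lit 0xbf3d217e2712fd27c5fa43ebf487d7eb812fd4d15fb2f6bf639d7ebfeafd4ba) (.hit (nat_lit 243) (nat_lit 20) (nat_lit 0xbf25cd7df86afcd215f9894bf31297e896afcefc5fa74cbf4c497e9142fcee5) b15020 (.hit (nat_lit 244) (nat_lit 28) (nat_lit 0xbf3d217e2712fd27c5fa43ebf487d7eb812fd4d15fb2f6bf639d7ebfeafd4ba) b15021 (.nil))) (.nil))))) (.tok (nat_lit 20) (nat_lit 0xbf871d7f020afe4795fea74bfd7f97e8f3afcfb65fce8ebf89697f61cafe5eb) (.hit (nat_lit 245) (nat_lit 0) (nat_lit 0xbf871d7f020afdef45fea74bfd7f97e7162fcbfb5fce8ebf89697f61cafe5eb) b15028 (.one (nat_lit 3) (nat_lit 246) (nat_lit 1) (nat_lit 0xbf42d17e1892fd1f25fca84bf9d097d6e52fab995fb8dcbf68d57ec9e2fd626) b15029 (.tok (nat_lit 6) (nat_lit 0xbf41f57e16aafd4945fd35abfa8597e7e02fcd8f5fb86ebf67f97ec82afd5ef) (.hit (nat_lit 247) (nat_lit 7) (nat_lit 0xbeebfd7d84cafd2fd5f7bacbef7597e15cafc0885f8a64bf12797e1da2fc071)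 b15024 (.hit (nat_lit 248) (nat_lit 15) (nat_lit 0xbf41f57e16aafd4945fd35abfa8597e7e02fcd8f5fb86ebf67f97ec82afd5ef) b15032 (.nil))) (.tok (nat_lit 9) (nat_lit 0xbf4c197e347afe4795fd88cbfb2157e8f3afcfb65fbd76bf725d7eeabafda7b) (.hit (nat_lit 249) (nat_lit 20) (nat_lit 0xbf4c197e347afe4795fd88cbfb2157e4d5afc77a5fbd76bf725d7eeabafda7b) b15030 (.hit (nat_lit 250) (nat_lit 28) (nat_lit 0xbf3a557e0552fdb5d5fcf74bfa0e57e8f3afcfb65fb49ebf60597eb8eafd407) b15031 (.nil))) (.nil))))) (.tok (nat_lit 23) (nat_lit 0xbf871d7f020afe4795fe246bfc5517f104afe33f5fd572bf89697f641afe572) (.hit (nat_lit 251) (nat_lit 0) (nat_lit 0xbf871d7f020afdef45fe246bfc5517f104afe33f5fd572bf89697f641afe572) b15022 (.one (nat_lit 3) (nat_lit 252) (nat_lit 1) (nat_lit 0xbf42d17e1892fd1f25fc828bf98297e7cd2fd5ea5fb8dcbf68d57ecccafd626) b15023 (.tok (nat_lit 6) (nat_lit 0xbf4c197e347afe4795fd590bfaf8d7e8f3afd8195fbd76bf725d7eef1afda7c)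 (.hit (nat_lit 253) (nat_lit 7) (nat_lit 0xbf4c197e347afe4795fd590bfaf8d7e8f32fd8195fbd76bf725d7eef1afda7c) b15026 (.hit (nat_lit 254) (nat_lit 15) (nat_lit 0xbf3a557e0552fdb5d5fcf60bfa0657e8f3afd3cb5fb49ebf60597ebb52fd407) b15027 (.nil))) (.tok (nat_lit 9) (nat_lit 0xbf41f57e16aafd4945fcb2ebf9c217e7e02fd5b35fb838bf67f97ecb1afd5ef) (.hit (nat_lit 255) (nat_lit 20) (nat_lit 0xbeebfd7d84cafd2fd5f7bacbef7597e15cafc0885f8a64bf12797e1da2fc071) b15024 (.hit (nat_lit 256) (nat_lit 28) (nat_lit 0xbf41f57e16aafd4945fcb2ebf9c217e7e02fd5b35fb838bf67f97ecb1afd5ef) b15025 (.nil))) (.nil))))) (.tok (nat_lit 26) (nat_lit 0xbf6d097ea5bafdb605fb746bf6e857f42b2ff3595fb3f0bf5f5d7f1e7afe0b9) (.hit (nat_lit 257) (nat_lit 0) (nat_lit 0xbf6d097ea5bafdb605fb746bf6e857f42b2ff3595fb3f0bf5f5d7f1e7afe0b9) b35985 (.one (nat_lit 3) (nat_lit 258) (nat_lit 1) (nat_lit 0xbe8de97cc8a2faee95f4ca2be99457d59a2fa9035f5b5abeb4657d617afa8ec)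 b15034 (.tok (nat_lit 6) (nat_lit 0xbf2b857e03dafcc255f9b70bf36e17e94dafd06a5faa28bf52017e9cb2fd053) (.hit (nat_lit 259) (nat_lit 7) (nat_lit 0xbf2b857e03dafcc255f9b70bf36e17e94dafd06a5faa28bf52017e9cb2fd053) b15035 (.hit (nat_lit 260) (nat_lit 15) (nat_lit 0xbed3957d53fafb92b5f6f78bedef17de4fafba6e5f7e30befa117decd2fba57) b15036 (.nil))) (.tok (nat_lit 9) (nat_lit 0xbf2b857e03dafcc255f9b70bf36e17e94dafd06a5faa28bf52017e9cb2fd053) (.hit (nat_lit 261) (nat_lit 20) (nat_lit 0xbf2b857e03dafcc255f9b70bf36e17e94dafd06a5faa28bf52017e9cb2fd053) b15035 (.hit (nat_lit 262) (nat_lit 28) (nat_lit 0xbed3957d53fafb92b5f6f78bedef17de4fafba6e5f7e30befa117decd2fba57) b15036 (.nil))) (.nil))))) (.tok (nat_lit 29) (nat_lit 0xbf56117e58f2fe8175fb0b6bf616d7ee9f2fdb0d5fbf6ebf7c8d7ef1cafdaf6) (.hit (nat_lit 263) (nat_lit 0) (nat_lit 0xbf3ef17e0d42fd6685fa066bf40cd7e75fafd50f5f9dd6bf395d7ec5e2fd54b)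 b35986 (.one (nat_lit 3) (nat_lit 264) (nat_lit 1) (nat_lit 0xbe9cd57ce67afca2d5f5418bea8317d777afacbe5f62d0bec3517d7f52faca7) b15038 (.tok (nat_lit 6) (nat_lit 0xbf56117e58f2fe8175fb0b6bf616d7ee9f2fdb0d5fbf6ebf7c8d7ef1cafdaf6) (.hit (nat_lit 265) (nat_lit 7) (nat_lit 0xbf17dd7ddc8afe8175f919cbf23397e6d8afcb805fa054bf3e597e7562fcb69) b15039 (.hit (nat_lit 266) (nat_lit 15) (nat_lit 0xbf56117e58f2fdaf45fb0b6bf616d7ee9f2fdb0d5fbf6ebf7c8d7ef1cafdaf6) b15040 (.nil))) (.tok (nat_lit 9) (nat_lit 0xbf56117e58f2fe8175fb0b6bf616d7ee9f2fdb0d5fbf6ebf7c8d7ef1cafdaf6) (.hit (nat_lit 267) (nat_lit 20) (nat_lit 0xbf17dd7ddc8afe8175f919cbf23397e6d8afcb805fa054bf3e597e7562fcb69) b15039 (.hit (nat_lit 268) (nat_lit 28) (nat_lit 0xbf56117e58f2fdaf45fb0b6bf616d7ee9f2fdb0d5fbf6ebf7c8d7ef1cafdaf6) b15040 (.nil))) (.nil))))) (.tok (nat_lit 32) (nat_lit 0xbf56217ec9aafe7635fabb8bf57717eaa5afe2c15fad80bf58b17eaa12fd1ff)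 (.hit (nat_lit 269) (nat_lit 0) (nat_lit 0xbf56217ec9aafe7635fabb8bf57717eaa5afe2c15fa56cbf46897e8302fcd1d) b15047 (.one (nat_lit 3) (nat_lit 270) (nat_lit 1) (nat_lit 0xbea2a17cf212fc69a5f56febeadfd7d8312fae315f65b6bec91d7d8aeafae1a) b15042 (.tok (nat_lit 6) (nat_lit 0xbf32357e113afe57c5f9ec8bf3d917ea23afd2165fad80bf58b17eaa12fd1ff) (.hit (nat_lit 271) (nat_lit 7) (nat_lit 0xbf32357e113afd49f5f9ec8bf3d917ea23afd2165fad80bf58b17eaa12fd1ff) b15043 (.hit (nat_lit 272) (nat_lit 15) (nat_lit 0xbf240d7df4eafe57c5f97b4bf2f697e85eafce8c5fa66cbf4a897e8dc2fce75) b15044 (.nil))) (.tok (nat_lit 9) (nat_lit 0xbf033d7db34afde455f874cbf0e997e444afc6585f9604bf29b97e4c22fc641) (.hit (nat_lit 273) (nat_lit 20) (nat_lit 0xbf033d7db34afde455f874cbf0e997e444afc6585f9604bf29b97e4c22fc641) b15045 (.hit (nat_lit 274) (nat_lit 28) (nat_lit 0xbecf1d7d4b0afc8bd5f6d3cbeda797ddc0afb9505f7bf4bef5997de3e2fb939)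 b15046 (.nil))) (.nil))))) (.tok (nat_lit 35) (nat_lit 0xbf56217ec9aafe7635fb41ebf57717ea64afdac85fad80bf58b17eaa12fd1ff) (.hit (nat_lit 275) (nat_lit 0) (nat_lit 0xbf56217ec9aafe7635fb41ebf57717ea64afdac85fa55abf46857e8302fcd1d) b15041 (.one (nat_lit 3) (nat_lit 276) (nat_lit 1) (nat_lit 0xbea2a17cf212fc69a5f56febeadfd7d8312fae315f65b6bec91d7d8aeafae1a) b15042 (.tok (nat_lit 6) (nat_lit 0xbf033d7db34afde455f874cbf0e997e444afc6585f9604bf29b97e4c22fc641) (.hit (nat_lit 277) (nat_lit 7) (nat_lit 0xbf033d7db34afde455f874cbf0e997e444afc6585f9604bf29b97e4c22fc641) b15045 (.hit (nat_lit 278) (nat_lit 15) (nat_lit 0xbecf1d7d4b0afc8bd5f6d3cbeda797ddc0afb9505f7bf4bef5997de3e2fb939) b15046 (.nil))) (.tok (nat_lit 9) (nat_lit 0xbf32357e113afe57c5f9ec8bf3d917ea23afd2165fad80bf58b17eaa12fd1ff) (.hit (nat_lit 279) (nat_lit 20) (nat_lit 0xbf32357e113afd49f5f9ec8bf3d917ea23afd2165fad80bf58b17eaa12fd1ff)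 b15043 (.hit (nat_lit 280) (nat_lit 28) (nat_lit 0xbf240d7df4eafe57c5f97b4bf2f697e85eafce8c5fa66cbf4a897e8dc2fce75) b15044 (.nil))) (.nil))))) (.tok (nat_lit 38) (nat_lit 0xbf7e3d7ea49afdda45fea38bfd4717f762afeb945fcf7ebf81c57f4082fe4fa) (.hit (nat_lit 281) (nat_lit 0) (nat_lit 0xbf7e3d7ea49afdda45fea38bfd4717f762afeb945fcf7ebf81c57f4082fe4fa) b35987 (.one (nat_lit 3) (nat_lit 282) (nat_lit 1) (nat_lit 0xbe9ed97cea82faedf5f551abeaa357d7b82fad3f5f63d2bec5557d835afad28) b15049 (.tok (nat_lit 6) (nat_lit 0xbee4657d759afc67d5f77e0beefc17e069afbea25f8698bf0ae17e0e72fbe8b) (.hit (nat_lit 283) (nat_lit 7) (nat_lit 0xbee4657d759afc67d5f77e0beefc17e069afbea25f8698bf0ae17e0e72fbe8b) b15050 (.hit (nat_lit 284) (nat_lit 15) (nat_lit 0xbecc917d45f2fb99d5f6bf6bed7ed7dd6f2fb8ad5f7aaebef30d7ddecafb896) b15051 (.nil))) (.tok (nat_lit 9) (nat_lit 0xbee4657d759afc67d5f77e0beefc17e069afbea25f8698bf0ae17e0e72fbe8b)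 (.hit (nat_lit 285) (nat_lit 20) (nat_lit 0xbee4657d759afc67d5f77e0beefc17e069afbea25f8698bf0ae17e0e72fbe8b) b15050 (.hit (nat_lit 286) (nat_lit 28) (nat_lit 0xbecc917d45f2fb99d5f6bf6bed7ed7dd6f2fb8ad5f7aaebef30d7ddecafb896) b15051 (.nil))) (.nil))))) (.tok (nat_lit 41) (nat_lit 0xbf95957f7f2afee005ff5f8bfebf1803cfaffc285fdf30bfb7817ee66afd938) (.hit (nat_lit 292) (nat_lit 0) (nat_lit 0xbf4f1d7eab2afd7175fd3acbfa7597f4632fe0965fbe4cbf75a97ee66afd938) b35988 (.one (nat_lit 3) (nat_lit 293) (nat_lit 1) (nat_lit 0xbf33717e39d2fc8845fc4e0bf89c17eedcafd7495fae0abf56b17d890afadde) b35989 (.tok (nat_lit 6) (nat_lit 0xbf95957f7f2afee005ff5f8bfebf17f150afe4505fdf30bfb7717ecaf2fd61b) (.hit (nat_lit 294) (nat_lit 7) (nat_lit 0xbf95957f7f2afee005ff5f8bfebf17ef9c2fe4505fdf30bfb7717e1c3afc044) b15056 (.hit (nat_lit 295) (nat_lit 15) (nat_lit 0xbf42a57e435afd4ca5fcaaabf95557f150afdaff5fb5b8bf69217ecaf2fd61b)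 b15057 (.nil))) (.tok (nat_lit 9) (nat_lit 0xbf95957f7f2afee005ff216bfe46d803cfaffc285fdf30bfb7817ecaf2fd61b) (.hit (nat_lit 296) (nat_lit 20) (nat_lit 0xbf95957f7f2afee005ff216bfe46d803cfaffc285fdf30bfb7817e1c3afc044) b15054 (.hit (nat_lit 297) (nat_lit 28) (nat_lit 0xbf42a57e435afd4ca5fca8abf954d7ee442fdba05fb5b8bf69217ecaf2fd61b) b15055 (.nil))) (.nil))))) (.tok (nat_lit 44) (nat_lit 0xbfa0f97f53b2fdd295ff3d8bfe87d7f892afefdc5fea30bfc26d7f735afe8b8) (.hit (nat_lit 306) (nat_lit 0) (nat_lit 0xbf95997ef822fdaaf5feae6bfd5cd7f892afefdc5fe3b4bfc1257f47a2fe2df) b15064 (.one (nat_lit 3) (nat_lit 307) (nat_lit 1) (nat_lit 0xbf04217dcf82fb9da5fad38bf5a717d6652faa995f9662bf27617e4c82fc67a) b15065 (.tok (nat_lit 6) (nat_lit 0xbf733d7e7d32fdc645fdd3ebfc1f17e37b2fc4c55fcd92bf85f97f29b2fe220) (.hit (nat_lit 308) (nat_lit 7) (nat_lit 0xbf733d7e7d32fdc645fdd3ebfc1f17e37b2fc4c55fcd92bf85f97f29b2fe220)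 b15068 (.hit (nat_lit 309) (nat_lit 15) (nat_lit 0xbf27f57e38e2fc75e5fbf22bf7e197dcadafb72a5fa84cbf4b357e942afcf6f) b15069 (.nil))) (.tok (nat_lit 9) (nat_lit 0xbfa0f97f53b2fdd295ff3d8bfe87d7ebaaafd5245fea30bfc26d7f735afe8b8) (.hit (nat_lit 310) (nat_lit 20) (nat_lit 0xbfa0f97f53b2fdd295ff3d8bfe87d7e8b6afcf3c5fea30bfc26d7f735afe8b8) b15066 (.hit (nat_lit 311) (nat_lit 28) (nat_lit 0xbf3e6d7e41a2fd4cd5fc49ebf893d7ebaaafd5245fb39cbf64e97ec282fd50d) b15067 (.nil))) (.nil))))) (.tok (nat_lit 47) (nat_lit 0xbfa0f97f53b2fdd295ff3f4bfe885802caaffa23600346bff0d57f9432febb1) (.hit (nat_lit 320) (nat_lit 0) (nat_lit 0xbf95997ef822fdaaf5fde24bfb4b97f1a0afe10c5ff32abff0d57f44dafe1cf) b15058 (.one (nat_lit 3) (nat_lit 321) (nat_lit 1) (nat_lit 0xbf04217dcf82fb9da5fad38bf5a717e6c5afcbfa5f9724bf27ed7e4f2afc67e) b15059 (.tok (nat_lit 6) (nat_lit 0xbfa0f97f53b2fdd295ff3f4bfe885802caaffa23600346bfef697f9432febb1)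 (.hit (nat_lit 322) (nat_lit 7) (nat_lit 0xbfa0f97f53b2fdd295ff3f4bfe885802caaffa23600346bfef697f9432febb1) b15062 (.hit (nat_lit 323) (nat_lit 15) (nat_lit 0xbf3e6d7e41a2fd4cd5fc478bf89357ee8b2fdccd5fb39cbf64e97ec282fd50d) b15063 (.nil))) (.tok (nat_lit 9) (nat_lit 0xbf733d7e7d32fdc645fe484bfc9097edd92fe1e45fcd92bf86357f480afe2e5) (.hit (nat_lit 324) (nat_lit 20) (nat_lit 0xbf733d7e7d32fdc645fe484bfc9097edd92fe1e45fcd92bf86357f480afe2e5) b15060 (.hit (nat_lit 325) (nat_lit 28) (nat_lit 0xbf27f57e38e2fc75e5fbf22bf7e457ec9a2fd85c5fa954bf4b997e96a2fcf73) b15061 (.nil))) (.nil))))) (.tok (nat_lit 50) (nat_lit 0xbf50117e4cf2fd9d35fadb6bf5b6d7ef822fdc415fbc6ebf768d7ee5cafd976) (.hit (nat_lit 326) (nat_lit 0) (nat_lit 0xbf2b017de7e2fd9d35f9b38bf36717ef822fdc415f8ac8bf13417e9a72fd037) b15094 (.one (nat_lit 3) (nat_lit 327) (nat_lit 1) (nat_lit 0xbe82ed7cb2aafb2865f4724be8e497d43aafa6445f55dcbea9697d4b82fa62d)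 b15071 (.tok (nat_lit 6) (nat_lit 0xbf50117e4cf2fd8295fadb6bf5b6d7eddf2fd98d5fbc6ebf768d7ee5cafd976) (.hit (nat_lit 328) (nat_lit 7) (nat_lit 0xbf50117e4cf2fd8295fadb6bf5b6d7eddf2fd98d5fbc6ebf768d7ee5cafd976) b15072 (.hit (nat_lit 329) (nat_lit 15) (nat_lit 0xbea1057ceedafb9465f5630beac617d7fdafadca5f64e8bec7817d87b2fadb3) b15073 (.nil))) (.tok (nat_lit 9) (nat_lit 0xbf08717dbdb2fcd945f89e6bf13cd7e4eb2fc7a55f989ebf2eed7e568afc78e) (.hit (nat_lit 330) (nat_lit 20) (nat_lit 0xbf08717dbdb2fcd945f89e6bf13cd7e4eb2fc7a55f989ebf2eed7e568afc78e) b15074 (.hit (nat_lit 331) (nat_lit 28) (nat_lit 0xbea1057ceedafba895f5630beac617d7fdafadca5f64e8bec7817d87b2fadb3) b15075 (.nil))) (.nil))))) (.tok (nat_lit 52) (nat_lit 0xbfe8d9802eb3012b45ff020bffb19811bcb0187a5ffed2c014657f93faff518) (.hit (nat_lit 332) (nat_lit 0) (nat_lit 0xbfe8d97fe18b00ec55ff020bfef7180cb330187a5ffed2c008917f93faff518)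 b15095 (.tok (nat_lit 6) (nat_lit 0xbfe465802eb3001c35fee8cbffb19811bcb016175ffd76c014657f7cb2ff22f) (.hit (nat_lit 333) (nat_lit 7) (nat_lit 0xbfe465802eb3001c35fee8cbffb19811bcb016175ffd76c014657f7cb2ff22f) b15098 (.hit (nat_lit 334) (nat_lit 15) (nat_lit 0xbfb5e57fb85aff50d5fd5b4bfc2497f8792ff64c5fe466bfdb7d7f2d92fe84b) b15099 (.nil))) (.tok (nat_lit 9) (nat_lit 0xbfcbc18017e3012b45fe2eebfd49d8007cb005985fee90bfedd17f8bbaff410) (.hit (nat_lit 335) (nat_lit 20) (nat_lit 0xbfaba57f041b012b45fe2eebfc5dd7fb41aff4285fee90bfed697f8bbaff410) b15096 (.hit (nat_lit 336) (nat_lit 28) (nat_lit 0xbfcbc18017e3009bb5fdedebfd49d8007cb005985fed90bfedd17f4da2fec4d) b15097 (.nil))) (.nil)))) (.tok (nat_lit 53) (nat_lit 0xbf8e317f6daafeb505fccc6bf998d8030caff6a75fb9f0bf76a97ed5dafd778) (.hit (nat_lit 337) (nat_lit 0) (nat_lit 0xbf617d7f13bafe15a5fb66cbf71817fc912ff6a75fa500bf47b17e8812fcdbf)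 b15100 (.one (nat_lit 3) (nat_lit 338) (nat_lit 1) (nat_lit 0xbf38a17f067afdb6e5fa1febf43fd7f0b9afe24c5f8b38bf12417d9f72fb0ab) b15101 (.tok (nat_lit 6) (nat_lit 0xbf8e317f6daafe04c5fccc6bf998d8030caff5425fb9f0bf76a97ed5dafd778) (.hit (nat_lit 339) (nat_lit 7) (nat_lit 0xbf8e317f6daafe04c5fccc6bf998d8030caff5425fb9f0bf76a97ed5dafd778) b15103 (.hit (nat_lit 340) (nat_lit 15) (nat_lit 0xbf53e57ee9b2fdb305fafa0bf5f417f0f02fe1035fac0abf55c57ea43afd144) b15104 (.nil))) (.tok (nat_lit 9) (nat_lit 0xbf51097eebfafeb505fae32bf5c657f420afe7ba5fb86abf6e857ed5bafd774) (.hit (nat_lit 341) (nat_lit 20) (nat_lit 0xbf48097e3ce2feb505fa9b2bf53657ecde2fd78b5fb86abf6e857ed5bafd774) b15080 (.hit (nat_lit 342) (nat_lit 28) (nat_lit 0xbf51097eebfafddfb5fae32bf5c657f420afe7ba5fac0abf55c57ea43afd144) b15102 (.nil))) (.nil))))) (.tok (nat_lit 55) (nat_lit 0xbfe5c97f786300dd0600000c00001802863002b1600ba2c0278d80000300299)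 (.hit (nat_lit 343) (nat_lit 0) (nat_lit 0xbfe54d7f59caffd485fe280bfc5017fb262ffc9e5fee22bfec8d7ffed2ffda0) b15105 (.tok (nat_lit 3) (nat_lit 0xbfb41d7f150b004215fe72abfce557fc50aff6465ff2ccbff5e17f9caaff62e) (.hit (nat_lit 344) (nat_lit 1) (nat_lit 0xbf4b917e43f2feade5fb2e4bf65c97ef3f2fdc235fbe86bf8d557ecb92fdc0b) b15106 (.one (nat_lit 67) (nat_lit 345) (nat_lit 2) (nat_lit 0xbfb41d7f150b004215fe72abfce557fc50aff6465ff2ccbff5e17f9caaff62e) b15107 (.nil))) (.tok (nat_lit 6) (nat_lit 0xbfe5c97f786300dd0600000c00001802863002b1600ba2c0278d80000300299) (.hit (nat_lit 346) (nat_lit 7) (nat_lit 0xbf70697e8da2fee295fc550bf8aa17f3da2fe5595fd0f2bfb22d7f1542fe541) b15108 (.hit (nat_lit 349) (nat_lit 15) (nat_lit 0xbf32997e1202fe8d65fa668bf4cd17ec202fd5e55fb20abf745d7e99a2fd5cd) b15111 (.tok (nat_lit 55) (nat_lit 0xbfe5c97f786300dd0600000c00001802863002b1600ba2c0278d80000300299) (.hit (nat_lit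 347) (nat_lit 8) (nat_lit 0xbfc73d7f3b4b00a725ff0babfe1757feb4affb0e5ffc5cc009017fc2eaffaf6) b15109 (.hit (nat_lit 350) (nat_lit 16) (nat_lit 0xbf9af97ee2c3000875fda98bfb5317f92c2feffd5fe63abfdcbd7f6a62fefe5) b15112 (.one (nat_lit 6) (nat_lit 348) (nat_lit 9) (nat_lit 0xbfe5c97f786300dd0600000c00001802863002b1600ba2c0278d80000300299) b15110 (.nil)))) (.nil)))) (.nil)))) (.tok (nat_lit 56) (nat_lit 0xbf374d7e1b6afdfd55fa154bf42a97ed92afd4095fb00cbf5dc97eb442fd345) (.hit (nat_lit 351) (nat_lit 0) (nat_lit 0xbf374d7e1b6afdb455fa154bf42a97ed92afd4095fb00cbf5dc97eb442fd345) b15113 (.one (nat_lit 3) (nat_lit 352) (nat_lit 1) (nat_lit 0xbe78497c9d62fb4295f41d2be83a57d2e62fa39b5f508abe9ec57d363afa384) b15083 (.tok (nat_lit 6) (nat_lit 0xbf01817dafd2fdfd55f866ebf0cdd7e40d2fc5e95f9526bf27fd7e48aafc5d2) (.hit (nat_lit 353) (nat_lit 7) (nat_lit 0xbf01817dafd2fdfd55f866ebf0cdd7e40d2fc5e95f9526bf27fd7e48aafc5d2)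 b15084 (.hit (nat_lit 354) (nat_lit 15) (nat_lit 0xbe97c17cdc52fc7bc5f518ebea31d7d6d52fab795f6046bebe3d7d752afab62) b15085 (.nil))) (.tok (nat_lit 9) (nat_lit 0xbf316d7e0faafdeed5f9e64bf3cc97ea0aafd1e45fad1cbf57e97ea882fd1cd) (.hit (nat_lit 355) (nat_lit 20) (nat_lit 0xbf04f57db6bafdeed5f8828bf10517e47bafc6c65f96e0bf2b717e4f92fc6af) b15086 (.hit (nat_lit 356) (nat_lit 28) (nat_lit 0xbf316d7e0faafd69d5f9e64bf3cc97ea0aafd1e45fad1cbf57e97ea882fd1cd) b15087 (.nil))) (.nil))))) (.tok (nat_lit 58) (nat_lit 0xbfe1157f6efb009b45ffda6bffb4d801efb00184600948c022d97ff69b0016c) (.hit (nat_lit 357) (nat_lit 0) (nat_lit 0xbfae717ee44aff6ce5fc71cbf8e397f5992ff2415fd2bebfb5c57f849afee51) b15114 (.tok (nat_lit 3) (nat_lit 0xbfb7417f1b52ff7395fe8bcbfd1797fcb52ff70f5ff45ebff9057fa2f2ff6f7) (.hit (nat_lit 358) (nat_lit 1) (nat_lit 0xbf5b417e6352ff0565fbabcbf75797f1352fe00f5fc65ebf9d057eeaf2fdff7)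 b15115 (.one (nat_lit 55) (nat_lit 359) (nat_lit 3) (nat_lit 0xbfb7417f1b52ff7395fe8bcbfd1797fcb52ff70f5ff45ebff9057fa2f2ff6f7) b15116 (.nil))) (.tok (nat_lit 9) (nat_lit 0xbfe1157f6efb009b45ffda6bffb4d801efb00184600948c022d97ff69b0016c) (.hit (nat_lit 360) (nat_lit 20) (nat_lit 0xbf63557e737afec8e5fbec6bf7d8d7f237afe2145fca68bfa5197efb1afe1fc) b15117 (.hit (nat_lit 363) (nat_lit 28) (nat_lit 0xbf59157e5efafef2e5fb9a6bf734d7f0efafdf845fc548bf9ad97ee69afdf6c) b15120 (.tok (nat_lit 67) (nat_lit 0xbfe1157f6efb009b45ffda6bffb4d801efb00184600948c022d97ff69b0016c) (.hit (nat_lit 361) (nat_lit 21) (nat_lit 0xbf9f397eeb42ff8975fdcb8bfb9717f9b42ff10d5fe85abfe0fd7f72e2ff0f5) b15118 (.hit (nat_lit 364) (nat_lit 29) (nat_lit 0xbfb8e97f1ea3006105fe990bfd3217fcea2ff7795ff532bffaad7fa642ff761) b15121 (.one (nat_lit 9) (nat_lit 362) (nat_lit 22) (nat_lit 0xbfe1157f6efb009b45ffda6bffb4d801efb00184600948c022d97ff69b0016c)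 b15119 (.nil)))) (.nil)))) (.nil)))) (.tok (nat_lit 59) (nat_lit 0xbf588d7e60dafdfc55fb1f4bf63e97f10d2fdbac5fc0acbf7f097ef6c2fdb95) (.hit (nat_lit 365) (nat_lit 0) (nat_lit 0xbf424d7e60dafdfc55fa6d4bf4da97f10d2fdb215f96b6bf2b1d7e85aafcd57) b15122 (.one (nat_lit 3) (nat_lit 366) (nat_lit 1) (nat_lit 0xbeabfd7d04cafb6ca5f5bacbeb7597d95cafb0885f6a64bed2797d9da2fb071) b15089 (.tok (nat_lit 6) (nat_lit 0xbf33197e1302fd6835f9f3abf3e757ea402fd24f5fadf2bf59957eabdafd238) (.hit (nat_lit 367) (nat_lit 7) (nat_lit 0xbf2fad7e0c2afd6045f9d84bf3b097e9d2afd1745fac3cbf56297ea502fd15d) b15090 (.hit (nat_lit 368) (nat_lit 15) (nat_lit 0xbf33197e1302fd6835f9f3abf3e757ea402fd24f5fadf2bf59957eabdafd238) b15091 (.nil))) (.tok (nat_lit 9) (nat_lit 0xbf588d7e5deafdf125fb1f4bf63e97eeeeafdbac5fc0acbf7f097ef6c2fdb95) (.hit (nat_lit 369) (nat_lit 20) (nat_lit 0xbf588d7e5deafdf125fb1f4bf63e97eeeeafdbac5fc0acbf7f097ef6c2fdb95)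 b15092 (.hit (nat_lit 370) (nat_lit 28) (nat_lit 0xbee0317d6d32fc9bf5f75c6beeb8d7dfe32fbd955f847ebf06ad7e060afbd7e) b15093 (.nil))) (.nil))))) (.tok (nat_lit 62) (nat_lit 0xbf50117e4cf2fd9d35fadb6bf5b6d7eddf2fd98d5fbc6ebf768d7ee5cafd976) (.hit (nat_lit 371) (nat_lit 0) (nat_lit 0xbf2b017de7e2fd9d35f9b38bf36717e90bafcb005f8b84bf13417e9a72fd037) b15070 (.one (nat_lit 3) (nat_lit 372) (nat_lit 1) (nat_lit 0xbe82ed7cb2aafb2865f4724be8e497d43aafa6445f55dcbea9697d4b82fa62d) b15071 (.tok (nat_lit 6) (nat_lit 0xbf08717dbdb2fcd945f89e6bf13cd7e4eb2fc7a55f989ebf2eed7e568afc78e) (.hit (nat_lit 373) (nat_lit 7) (nat_lit 0xbf08717dbdb2fcd945f89e6bf13cd7e4eb2fc7a55f989ebf2eed7e568afc78e) b15074 (.hit (nat_lit 374) (nat_lit 15) (nat_lit 0xbea1057ceedafba895f5630beac617d7fdafadca5f64e8bec7817d87b2fadb3) b15075 (.nil))) (.tok (nat_lit 9) (nat_lit 0xbf50117e4cf2fd8295fadb6bf5b6d7eddf2fd98d5fbc6ebf768d7ee5cafd976)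 (.hit (nat_lit 375) (nat_lit 20) (nat_lit 0xbf50117e4cf2fd8295fadb6bf5b6d7eddf2fd98d5fbc6ebf768d7ee5cafd976) b15072 (.hit (nat_lit 376) (nat_lit 28) (nat_lit 0xbea1057ceedafb9465f5630beac617d7fdafadca5f64e8bec7817d87b2fadb3) b15073 (.nil))) (.nil))))) (.tok (nat_lit 65) (nat_lit 0xbf8e317f6daafeb505fccc6bf998d7f404afe9a15fb872bf6e957ed5dafd778) (.hit (nat_lit 382) (nat_lit 0) (nat_lit 0xbf617d7f13bafe15a5fb280bf69617f404afe9a15fa7b2bf47b17e8812fcdbf) b15076 (.one (nat_lit 3) (nat_lit 383) (nat_lit 1) (nat_lit 0xbf38a17f067afdb6e5fa1febf43fd7e68cafd35e5f8b38bf12417d9f72fb0ab) b15077 (.tok (nat_lit 6) (nat_lit 0xbf51097eebfafeb505faeb8bf5c657ecde2fd9795fb86abf6e857ed5bafd774) (.hit (nat_lit 384) (nat_lit 7) (nat_lit 0xbf48097e3ce2feb505fa9b2bf53657ecde2fd78b5fb86abf6e857ed5bafd774) b15080 (.hit (nat_lit 385) (nat_lit 15) (nat_lit 0xbf51097eebfafddfb5faeb8bf5c657e9c62fd9795fac0abf55c57ea43afd144)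 b15081 (.nil))) (.tok (nat_lit 9) (nat_lit 0xbf8e317f6daafe04c5fccc6bf998d7ece02fddf25fb872bf6e957ed5dafd778) (.hit (nat_lit 386) (nat_lit 20) (nat_lit 0xbf8e317f6daafe04c5fccc6bf998d7ece02fddf25fb872bf6e957ed5dafd778) b15078 (.hit (nat_lit 387) (nat_lit 28) (nat_lit 0xbf53e57ee9b2fdb305fafa0bf5f417ea002fda2f5fac0abf55c57ea43afd144) b15079 (.nil))) (.nil))))) (.tok (nat_lit 68) (nat_lit 0xbf374d7e1b6afdfd55fa154bf42a97eac6afd35c5fb00cbf5dc97eb442fd345) (.hit (nat_lit 396) (nat_lit 0) (nat_lit 0xbf374d7e1b6afdb455fa154bf42a97eac6afd35c5fb00cbf5dc97eb442fd345) b15082 (.one (nat_lit 3) (nat_lit 397) (nat_lit 1) (nat_lit 0xbe78497c9d62fb4295f41d2be83a57d2e62fa39b5f508abe9ec57d363afa384) b15083 (.tok (nat_lit 6) (nat_lit 0xbf316d7e0faafdeed5f9e64bf3cc97ea0aafd1e45fad1cbf57e97ea882fd1cd) (.hit (nat_lit 398) (nat_lit 7) (nat_lit 0xbf04f57db6bafdeed5f8828bf10517e47bafc6c65f96e0bf2b717e4f92fc6af)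 b15086 (.hit (nat_lit 399) (nat_lit 15) (nat_lit 0xbf316d7e0faafd69d5f9e64bf3cc97ea0aafd1e45fad1cbf57e97ea882fd1cd) b15087 (.nil))) (.tok (nat_lit 9) (nat_lit 0xbf01817dafd2fdfd55f866ebf0cdd7e40d2fc5e95f9526bf27fd7e48aafc5d2) (.hit (nat_lit 400) (nat_lit 20) (nat_lit 0xbf01817dafd2fdfd55f866ebf0cdd7e40d2fc5e95f9526bf27fd7e48aafc5d2) b15084 (.hit (nat_lit 401) (nat_lit 28) (nat_lit 0xbe97c17cdc52fc7bc5f518ebea31d7d6d52fab795f6046bebe3d7d752afab62) b15085 (.nil))) (.nil))))) (.tok (nat_lit 71) (nat_lit 0xbf588d7e60dafdfc55fb1f4bf63e97eeeeafdbac5fc0acbf7f097ef6c2fdb95) (.hit (nat_lit 410) (nat_lit 0) (nat_lit 0xbf424d7e60dafdfc55fa6d4bf4da97ebf1afd7835f96b6bf2b1d7e8372fcd57) b15088 (.one (nat_lit 3) (nat_lit 411) (nat_lit 1) (nat_lit 0xbeabfd7d04cafb6ca5f5bacbeb7597d95cafb0885f6a64bed2797d9da2fb071) b15089 (.tok (nat_lit 6) (nat_lit 0xbf588d7e5deafdf125fb1f4bf63e97eeeeafdbac5fc0acbf7f097ef6c2fdb95)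 (.hit (nat_lit 412) (nat_lit 7) (nat_lit 0xbf588d7e5deafdf125fb1f4bf63e97eeeeafdbac5fc0acbf7f097ef6c2fdb95) b15092 (.hit (nat_lit 413) (nat_lit 15) (nat_lit 0xbee0317d6d32fc9bf5f75c6beeb8d7dfe32fbd955f847ebf06ad7e060afbd7e) b15093 (.nil))) (.tok (nat_lit 9) (nat_lit 0xbf33197e1302fd6835f9f3abf3e757ea402fd24f5fadf2bf59957eabdafd238) (.hit (nat_lit 414) (nat_lit 20) (nat_lit 0xbf2fad7e0c2afd6045f9d84bf3b097e9d2afd1745fac3cbf56297ea502fd15d) b15090 (.hit (nat_lit 415) (nat_lit 28) (nat_lit 0xbf33197e1302fd6835f9f3abf3e757ea402fd24f5fadf2bf59957eabdafd238) b15091 (.nil))) (.nil))))) (.nil))))))))))))))))))))))))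
noncomputable def r20_62 : Rw Blk := .tok (nat_lit 14) (nat_lit 0xbc0001780002fda72) (.hit (nat_lit 134) (nat_lit 0) (nat_lit 0xbc0001780002fda72) b15140 (.one (nat_lit 3) (nat_lit 135) (nat_lit 1) (nat_lit 0xbc0001780002fb067) b15141 (.tok (nat_lit 6) (nat_lit 0xbc0001780002fd46a) (.hit (nat_lit 136) (nat_lit 7) (nat_lit 0xbc0001780002fcee7) b15142 (.hit (nat_lit 137) (nat_lit 15) (nat_lit 0xbc0001780002fd46a) b15144 (.nil))) (.tok (nat_lit 9) (nat_lit 0xbc0001780002fd086) (.hit (nat_lit 138) (nat_lit 20) (nat_lit 0xbc0001780002fcee7) b15142 (.hit (nat_lit 139) (nat_lit 28) (nat_lit 0xbc0001780002fd086) b15143 (.nil))) (.nil))))) (.tok (nat_lit 17) (nat_lit 0xbc0001780002fdac5) (.hit (nat_lit 140) (nat_lit 0) (nat_lit 0xbc0001780002fdac5) b15134 (.one (nat_lit 3) (nat_lit 141) (nat_lit 1) (nat_lit 0xbc0001780002fab5a) b15135 (.tok (nat_lit 6) (nat_lit 0xbc0001780002fd17b) (.hit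 (nat_lit 142) (nat_lit 7) (nat_lit 0xbc0001780002fc97a) b15138 (.hit (nat_lit 143) (nat_lit 15) (nat_lit 0xbc0001780002fd17b) b15139 (.nil))) (.tok (nat_lit 9) (nat_lit 0xbc0001780002fce7b) (.hit (nat_lit 144) (nat_lit 20) (nat_lit 0xbc0001780002fc684) b15136 (.hit (nat_lit 145) (nat_lit 28) (nat_lit 0xbc0001780002fce7b) b15137 (.nil))) (.nil))))) (.tok (nat_lit 20) (nat_lit 0xbc0001780002ff673) (.hit (nat_lit 128) (nat_lit 0) (nat_lit 0xbc0001780002ff673) b15129 (.one (nat_lit 3) (nat_lit 129) (nat_lit 1) (nat_lit 0xbc0001780002fe8eb) b15130 (.tok (nat_lit 6) (nat_lit 0xbc0001780002fe6ab) (.hit (nat_lit 130) (nat_lit 7) (nat_lit 0xbc0001780002fcb53) b15127 (.hit (nat_lit 131) (nat_lit 15) (nat_lit 0xbc0001780002fe6ab) b15133 (.nil))) (.tok (nat_lit 9) (nat_lit 0xbc0001780002fea45) (.hit (nat_lit 132) (nat_lit 20) (nat_lit 0xbc0001780002fea45) b15131 (.hit (nat_lit 133) (nat_lit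 28) (nat_lit 0xbc0001780002fe496) b15132 (.nil))) (.nil))))) (.tok (nat_lit 23) (nat_lit 0xbc0001780002fdb37) (.hit (nat_lit 122) (nat_lit 0) (nat_lit 0xbc0001780002fdb37) b15123 (.one (nat_lit 3) (nat_lit 123) (nat_lit 1) (nat_lit 0xbc0001780002fb3e0) b15124 (.tok (nat_lit 6) (nat_lit 0xbc0001780002fd37d) (.hit (nat_lit 124) (nat_lit 7) (nat_lit 0xbc0001780002fcb53) b15127 (.hit (nat_lit 125) (nat_lit 15) (nat_lit 0xbc0001780002fd37d) b15128 (.nil))) (.tok (nat_lit 9) (nat_lit 0xbc0001780002fd165) (.hit (nat_lit 126) (nat_lit 20) (nat_lit 0xbc0001780002fca86) b15125 (.hit (nat_lit 127) (nat_lit 28) (nat_lit 0xbc0001780002fd165) b15126 (.nil))) (.nil))))) (.tok (nat_lit 26) (nat_lit 0xbc0001780002ff766) (.hit (nat_lit 215) (nat_lit 0) (nat_lit 0xbc0001780002ff766) b15213 (.one (nat_lit 3) (nat_lit 216) (nat_lit 1) (nat_lit 0xbc0001780002facec) b15214 (.tok (nat_lit 6) (nat_lit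 0xbc0001780002fda8e) (.hit (nat_lit 217) (nat_lit 7) (nat_lit 0xbc0001780002fda8e) b15217 (.hit (nat_lit 218) (nat_lit 15) (nat_lit 0xbc0001780002fab46) b15218 (.nil))) (.tok (nat_lit 9) (nat_lit 0xbc0001780002fbec7) (.hit (nat_lit 219) (nat_lit 20) (nat_lit 0xbc0001780002fbe50) b15215 (.hit (nat_lit 220) (nat_lit 28) (nat_lit 0xbc0001780002fbec7) b15216 (.nil))) (.nil))))) (.tok (nat_lit 29) (nat_lit 0xbc0001780002fdcc9) (.hit (nat_lit 221) (nat_lit 0) (nat_lit 0xbc0001780002fdcc9) b15219 (.one (nat_lit 3) (nat_lit 222) (nat_lit 1) (nat_lit 0xbc0001780002faf4e) b15220 (.tok (nat_lit 6) (nat_lit 0xbc0001780002fcb92) (.hit (nat_lit 223) (nat_lit 7) (nat_lit 0xbc0001780002fbbf7) b15193 (.hit (nat_lit 224) (nat_lit 15) (nat_lit 0xbc0001780002fcb92) b15223 (.nil))) (.tok (nat_lit 9) (nat_lit 0xbc0001780002fd1db) (.hit (nat_lit 225) (nat_lit 20) (nat_lit 0xbc0001780002fcf2c) b15221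 (.hit (nat_lit 226) (nat_lit 28) (nat_lit 0xbc0001780002fd1db) b15222 (.nil))) (.nil))))) (.tok (nat_lit 32) (nat_lit 0xbc0001780002fe9fa) (.hit (nat_lit 233) (nat_lit 0) (nat_lit 0xbc0001780002fe9fa) b15230 (.one (nat_lit 3) (nat_lit 234) (nat_lit 1) (nat_lit 0xbc0001780002fb3e0) b15124 (.tok (nat_lit 6) (nat_lit 0xbc0001780002fcb13) (.hit (nat_lit 235) (nat_lit 7) (nat_lit 0xbc0001780002fc89e) b15149 (.hit (nat_lit 236) (nat_lit 15) (nat_lit 0xbc0001780002fcb13) b15233 (.nil))) (.tok (nat_lit 9) (nat_lit 0xbc0001780002fbbd9) (.hit (nat_lit 237) (nat_lit 20) (nat_lit 0xbc0001780002fbbd9) b15231 (.hit (nat_lit 238) (nat_lit 28) (nat_lit 0xbc0001780002fa9b8) b15232 (.nil))) (.nil))))) (.tok (nat_lit 35) (nat_lit 0xbc0001780002ff9dc) (.hit (nat_lit 227) (nat_lit 0) (nat_lit 0xbc0001780002ff9dc) b15224 (.one (nat_lit 3) (nat_lit 228) (nat_lit 1) (nat_lit 0xbc0001780002fbcf7) b15225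 (.tok (nat_lit 6) (nat_lit 0xbc0001780002fd285) (.hit (nat_lit 229) (nat_lit 7) (nat_lit 0xbc0001780002fcf0a) b15228 (.hit (nat_lit 230) (nat_lit 15) (nat_lit 0xbc0001780002fd285) b15229 (.nil))) (.tok (nat_lit 9) (nat_lit 0xbc0001780002fd482) (.hit (nat_lit 231) (nat_lit 20) (nat_lit 0xbc0001780002fd482) b15226 (.hit (nat_lit 232) (nat_lit 28) (nat_lit 0xbc0001780002fd0a9) b15227 (.nil))) (.nil))))) (.tok (nat_lit 38) (nat_lit 0xbc0001780002feee5) (.hit (nat_lit 239) (nat_lit 0) (nat_lit 0xbc0001780002feee5) b15189 (.one (nat_lit 3) (nat_lit 240) (nat_lit 1) (nat_lit 0xbc0001780002fb862) b15190 (.tok (nat_lit 6) (nat_lit 0xbc0001780002fbbf7) (.hit (nat_lit 241) (nat_lit 7) (nat_lit 0xbc0001780002fbbf7) b15193 (.hit (nat_lit 242) (nat_lit 15) (nat_lit 0xbc0001780002fb5cc) b15194 (.nil))) (.tok (nat_lit 9) (nat_lit 0xbc0001780002fcd84) (.hit (nat_lit 243) (nat_lit 20) (nat_lit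 0xbc0001780002fcd84) b15191 (.hit (nat_lit 244) (nat_lit 28) (nat_lit 0xbc0001780002fbc5c) b15192 (.nil))) (.nil))))) (.tok (nat_lit 41) (nat_lit 0xbc000178000301335) (.hit (nat_lit 250) (nat_lit 0) (nat_lit 0xbc0001780002ff761) b15195 (.one (nat_lit 3) (nat_lit 251) (nat_lit 1) (nat_lit 0xbc0001780002fee4e) b15196 (.tok (nat_lit 6) (nat_lit 0xbc000178000301335) (.hit (nat_lit 252) (nat_lit 7) (nat_lit 0xbc000178000301335) b15199 (.hit (nat_lit 253) (nat_lit 15) (nat_lit 0xbc0001780002fee53) b15200 (.nil))) (.tok (nat_lit 9) (nat_lit 0xbc0001780002ffafb) (.hit (nat_lit 254) (nat_lit 20) (nat_lit 0xbc0001780002ffafb) b15197 (.hit (nat_lit 255) (nat_lit 28) (nat_lit 0xbc0001780002fec27) b15198 (.nil))) (.nil))))) (.tok (nat_lit 44) (nat_lit 0xbc000178000301141) (.hit (nat_lit 278) (nat_lit 0) (nat_lit 0xbc0001780002ff50f) b15207 (.one (nat_lit 3) (nat_lit 279) (nat_lit 1) (nat_lit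 0xbc0001780002fdc00) b15208 (.tok (nat_lit 6) (nat_lit 0xbc0001780002ff969) (.hit (nat_lit 280) (nat_lit 7) (nat_lit 0xbc0001780002ff969) b15211 (.hit (nat_lit 281) (nat_lit 15) (nat_lit 0xbc0001780002fe5bf) b15212 (.nil))) (.tok (nat_lit 9) (nat_lit 0xbc000178000301141) (.hit (nat_lit 282) (nat_lit 20) (nat_lit 0xbc000178000301141) b15209 (.hit (nat_lit 283) (nat_lit 28) (nat_lit 0xbc0001780002fe771) b15210 (.nil))) (.nil))))) (.tok (nat_lit 47) (nat_lit 0xbc0001780002ff9c6) (.hit (nat_lit 264) (nat_lit 0) (nat_lit 0xbc0001780002ff9c6) b15201 (.one (nat_lit 3) (nat_lit 265) (nat_lit 1) (nat_lit 0xbc0001780002fbe95) b15202 (.tok (nat_lit 6) (nat_lit 0xbc0001780002fd503) (.hit (nat_lit 266) (nat_lit 7) (nat_lit 0xbc0001780002fd31f) b15205 (.hit (nat_lit 267) (nat_lit 15) (nat_lit 0xbc0001780002fd503) b15206 (.nil))) (.tok (nat_lit 9) (nat_lit 0xbc0001780002fc284) (.hit (nat_lit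 268) (nat_lit 20) (nat_lit 0xbc0001780002fc284) b15203 (.hit (nat_lit 269) (nat_lit 28) (nat_lit 0xbc0001780002fbad5) b15204 (.nil))) (.nil))))) (.tok (nat_lit 50) (nat_lit 0xbc0001780002fdaea) (.hit (nat_lit 170) (nat_lit 0) (nat_lit 0xbc0001780002fdaea) b15168 (.one (nat_lit 3) (nat_lit 171) (nat_lit 1) (nat_lit 0xbc0001780002fb423) b15169 (.tok (nat_lit 6) (nat_lit 0xbc0001780002fcf4d) (.hit (nat_lit 172) (nat_lit 7) (nat_lit 0xbc0001780002fcf4d) b15172 (.hit (nat_lit 173) (nat_lit 15) (nat_lit 0xbc0001780002fbc6f) b15173 (.nil))) (.tok (nat_lit 9) (nat_lit 0xbc0001780002fbc1c) (.hit (nat_lit 174) (nat_lit 20) (nat_lit 0xbc0001780002fbc1c) b15170 (.hit (nat_lit 175) (nat_lit 28) (nat_lit 0xbc0001780002fb910) b15171 (.nil))) (.nil))))) (.tok (nat_lit 53) (nat_lit 0xbc0001780002fec19) (.hit (nat_lit 181) (nat_lit 0) (nat_lit 0xbc0001780002feba9) b15174 (.one (nat_lit 3) (nat_lit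 182) (nat_lit 1) (nat_lit 0xbc0001780002fe4e9) b15175 (.tok (nat_lit 6) (nat_lit 0xbc0001780002fec19) (.hit (nat_lit 183) (nat_lit 7) (nat_lit 0xbc0001780002fec19) b15178 (.hit (nat_lit 184) (nat_lit 15) (nat_lit 0xbc0001780002fe341) b15179 (.nil))) (.tok (nat_lit 9) (nat_lit 0xbc0001780002fe5ae) (.hit (nat_lit 185) (nat_lit 20) (nat_lit 0xbc0001780002fc2c7) b15176 (.hit (nat_lit 186) (nat_lit 28) (nat_lit 0xbc0001780002fe5ae) b15177 (.nil))) (.nil))))) (.tok (nat_lit 56) (nat_lit 0xbc0001780002fdb4e) (.hit (nat_lit 195) (nat_lit 0) (nat_lit 0xbc0001780002fdb4e) b15186 (.one (nat_lit 3) (nat_lit 196) (nat_lit 1) (nat_lit 0xbc0001780002fb3e0) b15124 (.tok (nat_lit 6) (nat_lit 0xbc0001780002fcee7) (.hit (nat_lit 197) (nat_lit 7) (nat_lit 0xbc0001780002fcee7) b15142 (.hit (nat_lit 198) (nat_lit 15) (nat_lit 0xbc0001780002fb54e) b15165 (.nil))) (.tok (nat_lit 9) (nat_lit 0xbc0001780002fd332)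 (.hit (nat_lit 199) (nat_lit 20) (nat_lit 0xbc0001780002fc536) b15187 (.hit (nat_lit 200) (nat_lit 28) (nat_lit 0xbc0001780002fd332) b15188 (.nil))) (.nil))))) (.tok (nat_lit 59) (nat_lit 0xbc0001780002fe1b5) (.hit (nat_lit 209) (nat_lit 0) (nat_lit 0xbc0001780002fe1b5) b15180 (.one (nat_lit 3) (nat_lit 210) (nat_lit 1) (nat_lit 0xbc0001780002fc58d) b15181 (.tok (nat_lit 6) (nat_lit 0xbc0001780002fd289) (.hit (nat_lit 211) (nat_lit 7) (nat_lit 0xbc0001780002fd289) b15184 (.hit (nat_lit 212) (nat_lit 15) (nat_lit 0xbc0001780002fd24e) b15185 (.nil))) (.tok (nat_lit 9) (nat_lit 0xbc0001780002fd894) (.hit (nat_lit 213) (nat_lit 20) (nat_lit 0xbc0001780002fcefe) b15182 (.hit (nat_lit 214) (nat_lit 28) (nat_lit 0xbc0001780002fd894) b15183 (.nil))) (.nil))))) (.tok (nat_lit 62) (nat_lit 0xbc0001780002fdc19) (.hit (nat_lit 146) (nat_lit 0) (nat_lit 0xbc0001780002fdc19) b15145 (.one (nat_lit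 3) (nat_lit 147) (nat_lit 1) (nat_lit 0xbc0001780002fa4b4) b15146 (.tok (nat_lit 6) (nat_lit 0xbc0001780002fc89e) (.hit (nat_lit 148) (nat_lit 7) (nat_lit 0xbc0001780002fc89e) b15149 (.hit (nat_lit 149) (nat_lit 15) (nat_lit 0xbc0001780002fbbe8) b15150 (.nil))) (.tok (nat_lit 9) (nat_lit 0xbc0001780002fd730) (.hit (nat_lit 150) (nat_lit 20) (nat_lit 0xbc0001780002fd730) b15147 (.hit (nat_lit 151) (nat_lit 28) (nat_lit 0xbc0001780002fab3b) b15148 (.nil))) (.nil))))) (.tok (nat_lit 65) (nat_lit 0xbc0001780003002b3) (.hit (nat_lit 152) (nat_lit 0) (nat_lit 0xbc0001780002ff583) b15151 (.one (nat_lit 3) (nat_lit 153) (nat_lit 1) (nat_lit 0xbc0001780002ffc5d) b15152 (.tok (nat_lit 6) (nat_lit 0xbc0001780003002b3) (.hit (nat_lit 154) (nat_lit 7) (nat_lit 0xbc0001780002fd388) b15155 (.hit (nat_lit 155) (nat_lit 15) (nat_lit 0xbc0001780003002b3) b15156 (.nil))) (.tok (nat_lit 9) (nat_lit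 0xbc0001780002fff54) (.hit (nat_lit 156) (nat_lit 20) (nat_lit 0xbc0001780002fff54) b15153 (.hit (nat_lit 157) (nat_lit 28) (nat_lit 0xbc0001780002ff5ac) b15154 (.nil))) (.nil))))) (.tok (nat_lit 68) (nat_lit 0xbc0001780002fe1d3) (.hit (nat_lit 158) (nat_lit 0) (nat_lit 0xbc0001780002fe1d3) b15163 (.one (nat_lit 3) (nat_lit 159) (nat_lit 1) (nat_lit 0xbc0001780002fb3e0) b15124 (.tok (nat_lit 6) (nat_lit 0xbc0001780002fcc58) (.hit (nat_lit 160) (nat_lit 7) (nat_lit 0xbc0001780002fc90f) b15166 (.hit (nat_lit 161) (nat_lit 15) (nat_lit 0xbc0001780002fcc58) b15167 (.nil))) (.tok (nat_lit 9) (nat_lit 0xbc0001780002fc4f3) (.hit (nat_lit 162) (nat_lit 20) (nat_lit 0xbc0001780002fc4f3) b15164 (.hit (nat_lit 163) (nat_lit 28) (nat_lit 0xbc0001780002fb54e) b15165 (.nil))) (.nil))))) (.tok (nat_lit 71) (nat_lit 0xbc0001780002fec46) (.hit (nat_lit 164) (nat_lit 0) (nat_lit 0xbc0001780002fec46)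 b15157 (.one (nat_lit 3) (nat_lit 165) (nat_lit 1) (nat_lit 0xbc0001780002fa8ff) b15158 (.tok (nat_lit 6) (nat_lit 0xbc0001780002fcacf) (.hit (nat_lit 166) (nat_lit 7) (nat_lit 0xbc0001780002fcacf) b15161 (.hit (nat_lit 167) (nat_lit 15) (nat_lit 0xbc0001780002fbd25) b15162 (.nil))) (.tok (nat_lit 9) (nat_lit 0xbc0001780002fc9a8) (.hit (nat_lit 168) (nat_lit 20) (nat_lit 0xbc0001780002fc712) b15159 (.hit (nat_lit 169) (nat_lit 28) (nat_lit 0xbc0001780002fc9a8) b15160 (.nil))) (.nil))))) (.nil))))))))))))))))))))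
noncomputable def r20_63 : Rw Blk := .tok (nat_lit 3) (nat_lit 0xbc0001780002ffac4) (.hit (nat_lit 18) (nat_lit 0) (nat_lit 0xbc0001780002ffa91) b15252 (.tok (nat_lit 6) (nat_lit 0xbc0001780002ff105) (.hit (nat_lit 19) (nat_lit 7) (nat_lit 0xbc0001780002fd69c) b15255 (.hit (nat_lit 20) (nat_lit 15) (nat_lit 0xbc0001780002ff105) b15256 (.nil))) (.tok (nat_lit 9) (nat_lit 0xbc0001780002ffac4) (.hit (nat_lit 21) (nat_lit 20) (nat_lit 0xbc0001780002ffac4) b15253 (.hit (nat_lit 22) (nat_lit 28) (nat_lit 0xbc0001780002feaa0) b15254 (.nil))) (.nil)))) (.tok (nat_lit 6) (nat_lit 0xbc0001780003003c8) (.hit (nat_lit 0) (nat_lit 0) (nat_lit 0xbc0001780002ff503) b15234 (.tok (nat_lit 3) (nat_lit 0xbc0001780002fef94) (.hit (nat_lit 1) (nat_lit 1) (nat_lit 0xbc0001780002fda87) b15235 (.one (nat_lit 67) (nat_lit 2) (nat_lit 2) (nat_lit 0xbc0001780002fef94) b15236 (.nil))) (.tok (nat_lit 6)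 (nat_lit 0xbc0001780003003c8) (.hit (nat_lit 3) (nat_lit 7) (nat_lit 0xbc0001780002fda60) b15237 (.hit (nat_lit 7) (nat_lit 15) (nat_lit 0xbc0001780002fdbb3) b15241 (.tok (nat_lit 55) (nat_lit 0xbc0001780003003c8) (.hit (nat_lit 4) (nat_lit 8) (nat_lit 0xbc0001780002ff56c) b15238 (.hit (nat_lit 8) (nat_lit 16) (nat_lit 0xbc000178000300377) b15242 (.tok (nat_lit 6) (nat_lit 0xbc0001780003003c8) (.hit (nat_lit 5) (nat_lit 9) (nat_lit 0xbc0001780002ff9fd) b15239 (.one (nat_lit 55) (nat_lit 6) (nat_lit 10) (nat_lit 0xbc0001780003003c8) b15240 (.nil))) (.nil)))) (.nil)))) (.nil)))) (.tok (nat_lit 9) (nat_lit 0xbc000178000303e13) (.hit (nat_lit 9) (nat_lit 0) (nat_lit 0xbc0001780002ff931) b15243 (.tok (nat_lit 3) (nat_lit 0xbc000178000302bff) (.hit (nat_lit 10) (nat_lit 1) (nat_lit 0xbc0001780002ff555) b15244 (.one (nat_lit 55) (nat_lit 11) (nat_lit 3) (nat_lit 0xbc000178000302bff)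 b15245 (.nil))) (.tok (nat_lit 9) (nat_lit 0xbc000178000303e13) (.hit (nat_lit 12) (nat_lit 20) (nat_lit 0xbc0001780003018fc) b15246 (.hit (nat_lit 16) (nat_lit 28) (nat_lit 0xbc00017800030030b) b15250 (.tok (nat_lit 67) (nat_lit 0xbc000178000303e13) (.hit (nat_lit 13) (nat_lit 21) (nat_lit 0xbc000178000302d0e) b15247 (.hit (nat_lit 17) (nat_lit 29) (nat_lit 0xbc000178000303e13) b15251 (.tok (nat_lit 9) (nat_lit 0xbc0001780003022e6) (.hit (nat_lit 14) (nat_lit 22) (nat_lit 0xbc0001780003022e6) b15248 (.one (nat_lit 67) (nat_lit 15) (nat_lit 23) (nat_lit 0xbc000178000301ea4) b15249 (.nil))) (.nil)))) (.nil)))) (.nil)))) (.nil)))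
noncomputable def r20_64 : Rw Blk := .tok (nat_lit 3) (nat_lit 0xbc0001780003016e6) (.hit (nat_lit 0) (nat_lit 0) (nat_lit 0xbc0001780002fee00) b15257 (.tok (nat_lit 6) (nat_lit 0xbc0001780002fe9d1) (.hit (nat_lit 1) (nat_lit 7) (nat_lit 0xbc0001780002fd1ee) b15258 (.hit (nat_lit 4) (nat_lit 15) (nat_lit 0xbc0001780002fcfbb) b15261 (.tok (nat_lit 56) (nat_lit 0xbc0001780002fe9d1) (.hit (nat_lit 2) (nat_lit 13) (nat_lit 0xbc0001780002fe456) b15259 (.hit (nat_lit 6) (nat_lit 19) (nat_lit 0xbc0001780002fe11a) b15263 (.one (nat_lit 6) (nat_lit 3) (nat_lit 14) (nat_lit 0xbc0001780002fe9d1) b15260 (.nil)))) (.one (nat_lit 68) (nat_lit 5) (nat_lit 18) (nat_lit 0xbc0001780002fe0cd) b15262 (.nil))))) (.tok (nat_lit 52) (nat_lit 0xbc0001780002fe9a3) (.hit (nat_lit 7) (nat_lit 39) (nat_lit 0xbc0001780002fe0f7) b15264 (.hit (nat_lit 8) (nat_lit 40) (nat_lit 0xbc0001780002fe9a3) b15265 (.nil)))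 (.tok (nat_lit 55) (nat_lit 0xbc0001780003016e6) (.hit (nat_lit 9) (nat_lit 41) (nat_lit 0xbc0001780003016e6) b15266 (.one (nat_lit 3) (nat_lit 15) (nat_lit 47) (nat_lit 0xbc0001780002fe0f4) b15272 (.tok (nat_lit 6) (nat_lit 0xbc0001780002ff628) (.hit (nat_lit 10) (nat_lit 42) (nat_lit 0xbc0001780002fe6aa) b15267 (.hit (nat_lit 13) (nat_lit 45) (nat_lit 0xbc0001780002fde80) b15270 (.tok (nat_lit 55) (nat_lit 0xbc0001780002ff628) (.hit (nat_lit 11) (nat_lit 43) (nat_lit 0xbc0001780002ff628) b15268 (.hit (nat_lit 14) (nat_lit 46) (nat_lit 0xbc0001780002fec30) b15271 (.one (nat_lit 6) (nat_lit 12) (nat_lit 44) (nat_lit 0xbc0001780002fe565) b15269 (.nil)))) (.nil)))) (.nil)))) (.one (nat_lit 58) (nat_lit 16) (nat_lit 49) (nat_lit 0xbc0001780002fe037) b15273 (.nil)))))) (.tok (nat_lit 9) (nat_lit 0xbc000178000303235) (.hit (nat_lit 17) (nat_lit 0) (nat_lit 0xbc000178000300ecc) b15274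 (.tok (nat_lit 9) (nat_lit 0xbc000178000301625) (.hit (nat_lit 18) (nat_lit 20) (nat_lit 0xbc0001780003007c2) b15275 (.hit (nat_lit 21) (nat_lit 28) (nat_lit 0xbc0001780002fe4bf) b15278 (.one (nat_lit 56) (nat_lit 22) (nat_lit 31) (nat_lit 0xbc000178000300a77) b15279 (.tok (nat_lit 68) (nat_lit 0xbc000178000301625) (.hit (nat_lit 19) (nat_lit 26) (nat_lit 0xbc0001780002ffdab) b15276 (.hit (nat_lit 23) (nat_lit 32) (nat_lit 0xbc0001780002feefb) b15280 (.one (nat_lit 9) (nat_lit 20) (nat_lit 27) (nat_lit 0xbc000178000301625) b15277 (.nil)))) (.nil))))) (.tok (nat_lit 64) (nat_lit 0xbc000178000302dfe) (.hit (nat_lit 24) (nat_lit 50) (nat_lit 0xbc00017800030121e) b15281 (.hit (nat_lit 25) (nat_lit 51) (nat_lit 0xbc000178000302dfe) b15282 (.nil))) (.tok (nat_lit 67) (nat_lit 0xbc000178000303235) (.hit (nat_lit 26) (nat_lit 52) (nat_lit 0xbc000178000303235) b15283 (.one (nat_lit 3)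 (nat_lit 32) (nat_lit 58) (nat_lit 0xbc000178000301c3f) b15289 (.tok (nat_lit 9) (nat_lit 0xbc000178000302cdf) (.hit (nat_lit 27) (nat_lit 53) (nat_lit 0xbc000178000300316) b15284 (.hit (nat_lit 30) (nat_lit 56) (nat_lit 0xbc000178000301ebf) b15287 (.tok (nat_lit 67) (nat_lit 0xbc000178000302cdf) (.hit (nat_lit 28) (nat_lit 54) (nat_lit 0xbc000178000302cdf) b15285 (.hit (nat_lit 31) (nat_lit 57) (nat_lit 0xbc000178000301339) b15288 (.one (nat_lit 9) (nat_lit 29) (nat_lit 55) (nat_lit 0xbc00017800030277a) b15286 (.nil)))) (.nil)))) (.nil)))) (.one (nat_lit 70) (nat_lit 33) (nat_lit 60) (nat_lit 0xbc000178000301e8e) b15290 (.nil)))))) (.nil))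
noncomputable def r20_65 : Rw Blk := .tok (nat_lit 3) (nat_lit 0xbc0001780002fe402) (.hit (nat_lit 14) (nat_lit 0) (nat_lit 0xbc0001780002fe154) b15305 (.tok (nat_lit 6) (nat_lit 0xbc0001780002fe402) (.hit (nat_lit 15) (nat_lit 7) (nat_lit 0xbc0001780002fe402) b15308 (.hit (nat_lit 16) (nat_lit 15) (nat_lit 0xbc0001780002fd38d) b15309 (.nil))) (.tok (nat_lit 9) (nat_lit 0xbc0001780002fd15f) (.hit (nat_lit 17) (nat_lit 20) (nat_lit 0xbc0001780002fbc1f) b15306 (.hit (nat_lit 18) (nat_lit 28) (nat_lit 0xbc0001780002fd15f) b15307 (.nil))) (.nil)))) (.tok (nat_lit 6) (nat_lit 0xbc0001780003012c1) (.hit (nat_lit 9) (nat_lit 0) (nat_lit 0xbc0001780002ff237) b15300 (.tok (nat_lit 3) (nat_lit 0xbc0001780003012c1) (.hit (nat_lit 10) (nat_lit 1) (nat_lit 0xbc0001780002fed26) b15301 (.one (nat_lit 67) (nat_lit 11) (nat_lit 2) (nat_lit 0xbc0001780003012c1) b15302 (.nil))) (.tok (nat_lit 6)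 (nat_lit 0xbc0001780002fe436) (.hit (nat_lit 12) (nat_lit 7) (nat_lit 0xbc0001780002fe316) b15303 (.hit (nat_lit 13) (nat_lit 15) (nat_lit 0xbc0001780002fe436) b15304 (.nil))) (.nil)))) (.tok (nat_lit 9) (nat_lit 0xbc0001780002ff9ef) (.hit (nat_lit 0) (nat_lit 0) (nat_lit 0xbc0001780002fe96c) b15291 (.tok (nat_lit 3) (nat_lit 0xbc0001780002fe9e8) (.hit (nat_lit 1) (nat_lit 1) (nat_lit 0xbc0001780002fc79d) b15292 (.one (nat_lit 55) (nat_lit 2) (nat_lit 3) (nat_lit 0xbc0001780002fe9e8) b15293 (.nil))) (.tok (nat_lit 9) (nat_lit 0xbc0001780002ff9ef) (.hit (nat_lit 3) (nat_lit 20) (nat_lit 0xbc0001780002fd759) b15294 (.hit (nat_lit 7) (nat_lit 28) (nat_lit 0xbc0001780002fd390) b15298 (.tok (nat_lit 67) (nat_lit 0xbc0001780002ff9ef) (.hit (nat_lit 4) (nat_lit 21) (nat_lit 0xbc0001780002fe703) b15295 (.hit (nat_lit 8) (nat_lit 29) (nat_lit 0xbc0001780002ff3d3) b15299 (.tok (nat_lit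 9) (nat_lit 0xbc0001780002ff9ef) (.hit (nat_lit 5) (nat_lit 22) (nat_lit 0xbc0001780002fe76a) b15296 (.one (nat_lit 67) (nat_lit 6) (nat_lit 23) (nat_lit 0xbc0001780002ff9ef) b15297 (.nil))) (.nil)))) (.nil)))) (.nil)))) (.nil)))
noncomputable def r20_66 : Rw Blk := .tok (nat_lit 3) (nat_lit 0xbc00017800030064b) (.hit (nat_lit 0) (nat_lit 0) (nat_lit 0xbc0001780002fed8a) b15310 (.tok (nat_lit 9) (nat_lit 0xbc0001780002ff792) (.hit (nat_lit 1) (nat_lit 20) (nat_lit 0xbc0001780002fdca1) b15311 (.hit (nat_lit 6) (nat_lit 28) (nat_lit 0xbc0001780002fce28) b15316 (.tok (nat_lit 14) (nat_lit 0xbc0001780002fe9ed) (.hit (nat_lit 2) (nat_lit 24) (nat_lit 0xbc0001780002fe3ba) b15312 (.hit (nat_lit 7) (nat_lit 30) (nat_lit 0xbc0001780002fe4b7) b15317 (.one (nat_lit 6) (nat_lit 3) (nat_lit 25) (nat_lit 0xbc0001780002fe9ed) b15313 (.nil)))) (.tok (nat_lit 68) (nat_lit 0xbc0001780002ff792)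 (.hit (nat_lit 4) (nat_lit 26) (nat_lit 0xbc0001780002fefa6) b15314 (.hit (nat_lit 8) (nat_lit 32) (nat_lit 0xbc0001780002fe12f) b15318 (.one (nat_lit 9) (nat_lit 5) (nat_lit 27) (nat_lit 0xbc0001780002ff792) b15315 (.nil)))) (.nil))))) (.tok (nat_lit 64) (nat_lit 0xbc0001780002feaaa) (.hit (nat_lit 9) (nat_lit 50) (nat_lit 0xbc0001780002fea37) b15319 (.hit (nat_lit 10) (nat_lit 51) (nat_lit 0xbc0001780002feaaa) b15320 (.nil))) (.tok (nat_lit 67) (nat_lit 0xbc00017800030064b) (.hit (nat_lit 11) (nat_lit 52) (nat_lit 0xbc00017800030064b) b15321 (.tok (nat_lit 3) (nat_lit 0xbc0001780002ffe41) (.hit (nat_lit 17) (nat_lit 58) (nat_lit 0xbc0001780002fef7a) b15327 (.one (nat_lit 55) (nat_lit 18) (nat_lit 59) (nat_lit 0xbc0001780002ffe41) b15328 (.nil))) (.tok (nat_lit 9) (nat_lit 0xbc0001780002ff9f4) (.hit (nat_lit 12) (nat_lit 53) (nat_lit 0xbc0001780002ff089) b15322 (.hit (nat_lit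 15) (nat_lit 56) (nat_lit 0xbc0001780002febbe) b15325 (.tok (nat_lit 67) (nat_lit 0xbc0001780002ff9f4) (.hit (nat_lit 13) (nat_lit 54) (nat_lit 0xbc0001780002ff9f4) b15323 (.hit (nat_lit 16) (nat_lit 57) (nat_lit 0xbc0001780002ff796) b15326 (.one (nat_lit 9) (nat_lit 14) (nat_lit 55) (nat_lit 0xbc0001780002ff76b) b15324 (.nil)))) (.nil)))) (.nil)))) (.one (nat_lit 70) (nat_lit 19) (nat_lit 60) (nat_lit 0xbc0001780002fe9e0) b15329 (.nil)))))) (.tok (nat_lit 6) (nat_lit 0xbc00017800030399e) (.hit (nat_lit 20) (nat_lit 0) (nat_lit 0xbc0001780002fedb0) b15330 (.tok (nat_lit 6) (nat_lit 0xbc00017800030399e) (.hit (nat_lit 21) (nat_lit 7) (nat_lit 0xbc0001780002fedb7) b15331 (.hit (nat_lit 26) (nat_lit 15) (nat_lit 0xbc0001780002fcfbf) b15336 (.tok (nat_lit 14) (nat_lit 0xbc00017800030399e) (.hit (nat_lit 22) (nat_lit 11) (nat_lit 0xbc00017800030399e) b15332 (.hit (nat_lit 27) (nat_lit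 17) (nat_lit 0xbc0001780002fef41) b15337 (.one (nat_lit 9) (nat_lit 23) (nat_lit 12) (nat_lit 0xbc00017800030339a) b15333 (.nil)))) (.tok (nat_lit 56) (nat_lit 0xbc000178000300ea8) (.hit (nat_lit 24) (nat_lit 13) (nat_lit 0xbc000178000300ea8) b15334 (.hit (nat_lit 29) (nat_lit 19) (nat_lit 0xbc0001780002fedd5) b15339 (.one (nat_lit 6) (nat_lit 25) (nat_lit 14) (nat_lit 0xbc0001780002ff4b3) b15335 (.nil)))) (.one (nat_lit 68) (nat_lit 28) (nat_lit 18) (nat_lit 0xbc0001780002fed58) b15338 (.nil)))))) (.nil))) (.nil))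
noncomputable def r20_67 : Rw Blk := .tok (nat_lit 14) (nat_lit 0xbc0001780002fdca2) (.hit (nat_lit 134) (nat_lit 0) (nat_lit 0xbc0001780002fd1c1) b15358 (.one (nat_lit 3) (nat_lit 135) (nat_lit 1) (nat_lit 0xbc0001780002fa3ae) b15359 (.tok (nat_lit 6) (nat_lit 0xbc0001780002fdca2) (.hit (nat_lit 136) (nat_lit 7) (nat_lit 0xbc0001780002fd1e1) b15362 (.hit (nat_lit 137) (nat_lit 15) (nat_lit 0xbc0001780002fdca2) b15363 (.nil))) (.tok (nat_lit 9) (nat_lit 0xbc0001780002fcf8c) (.hit (nat_lit 138) (nat_lit 20) (nat_lit 0xbc0001780002fc821) b15360 (.hit (nat_lit 139) (nat_lit 28) (nat_lit 0xbc0001780002fcf8c) b15361 (.nil))) (.nil))))) (.tok (nat_lit 17) (nat_lit 0xbc0001780002fe231) (.hit (nat_lit 140) (nat_lit 0) (nat_lit 0xbc0001780002fe231) b15352 (.one (nat_lit 3) (nat_lit 141) (nat_lit 1) (nat_lit 0xbc0001780002fb319) b15353 (.tok (nat_lit 6) (nat_lit 0xbc0001780002fd711) (.hit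 (nat_lit 142) (nat_lit 7) (nat_lit 0xbc0001780002fd3f5) b15356 (.hit (nat_lit 143) (nat_lit 15) (nat_lit 0xbc0001780002fd711) b15357 (.nil))) (.tok (nat_lit 9) (nat_lit 0xbc0001780002fe206) (.hit (nat_lit 144) (nat_lit 20) (nat_lit 0xbc0001780002fc403) b15354 (.hit (nat_lit 145) (nat_lit 28) (nat_lit 0xbc0001780002fe206) b15355 (.nil))) (.nil))))) (.tok (nat_lit 20) (nat_lit 0xbc0001780002febae) (.hit (nat_lit 128) (nat_lit 0) (nat_lit 0xbc0001780002fe7f6) b15346 (.one (nat_lit 3) (nat_lit 129) (nat_lit 1) (nat_lit 0xbc0001780002fe090) b15347 (.tok (nat_lit 6) (nat_lit 0xbc0001780002febae) (.hit (nat_lit 130) (nat_lit 7) (nat_lit 0xbc0001780002fd21e) b15350 (.hit (nat_lit 131) (nat_lit 15) (nat_lit 0xbc0001780002febae) b15351 (.nil))) (.tok (nat_lit 9) (nat_lit 0xbc0001780002fe599) (.hit (nat_lit 132) (nat_lit 20) (nat_lit 0xbc0001780002fe491) b15348 (.hit (nat_lit 133) (nat_lit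 28) (nat_lit 0xbc0001780002fe599) b15349 (.nil))) (.nil))))) (.tok (nat_lit 23) (nat_lit 0xbc0001780002fede5) (.hit (nat_lit 122) (nat_lit 0) (nat_lit 0xbc0001780002fe87a) b15340 (.one (nat_lit 3) (nat_lit 123) (nat_lit 1) (nat_lit 0xbc0001780002fd88d) b15341 (.tok (nat_lit 6) (nat_lit 0xbc0001780002feb01) (.hit (nat_lit 124) (nat_lit 7) (nat_lit 0xbc0001780002fe95c) b15344 (.hit (nat_lit 125) (nat_lit 15) (nat_lit 0xbc0001780002feb01) b15345 (.nil))) (.tok (nat_lit 9) (nat_lit 0xbc0001780002fede5) (.hit (nat_lit 126) (nat_lit 20) (nat_lit 0xbc0001780002fcd7e) b15342 (.hit (nat_lit 127) (nat_lit 28) (nat_lit 0xbc0001780002fede5) b15343 (.nil))) (.nil))))) (.tok (nat_lit 26) (nat_lit 0xbc0001780002ff00d) (.hit (nat_lit 215) (nat_lit 0) (nat_lit 0xbc0001780002ff00d) b15430 (.one (nat_lit 3) (nat_lit 216) (nat_lit 1) (nat_lit 0xbc0001780002fbb7f) b15431 (.tok (nat_lit 6) (nat_lit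 0xbc0001780002fd7bc) (.hit (nat_lit 217) (nat_lit 7) (nat_lit 0xbc0001780002fc12b) b15434 (.hit (nat_lit 218) (nat_lit 15) (nat_lit 0xbc0001780002fd7bc) b15435 (.nil))) (.tok (nat_lit 9) (nat_lit 0xbc0001780002fd4ac) (.hit (nat_lit 219) (nat_lit 20) (nat_lit 0xbc0001780002fd4ac) b15432 (.hit (nat_lit 220) (nat_lit 28) (nat_lit 0xbc0001780002fc657) b15433 (.nil))) (.nil))))) (.tok (nat_lit 29) (nat_lit 0xbc0001780002fdba8) (.hit (nat_lit 221) (nat_lit 0) (nat_lit 0xbc0001780002fdba8) b15436 (.one (nat_lit 3) (nat_lit 222) (nat_lit 1) (nat_lit 0xbc0001780002fb861) b15437 (.tok (nat_lit 6) (nat_lit 0xbc0001780002fda1c) (.hit (nat_lit 223) (nat_lit 7) (nat_lit 0xbc0001780002fcbb1) b15440 (.hit (nat_lit 224) (nat_lit 15) (nat_lit 0xbc0001780002fda1c) b15441 (.nil))) (.tok (nat_lit 9) (nat_lit 0xbc0001780002fdb48) (.hit (nat_lit 225) (nat_lit 20) (nat_lit 0xbc0001780002fd241) b15438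 (.hit (nat_lit 226) (nat_lit 28) (nat_lit 0xbc0001780002fdb48) b15439 (.nil))) (.nil))))) (.tok (nat_lit 32) (nat_lit 0xbc0001780002fdfd5) (.hit (nat_lit 233) (nat_lit 0) (nat_lit 0xbc0001780002fdfd5) b15447 (.one (nat_lit 3) (nat_lit 234) (nat_lit 1) (nat_lit 0xbc0001780002fb6da) b15377 (.tok (nat_lit 6) (nat_lit 0xbc0001780002fd929) (.hit (nat_lit 235) (nat_lit 7) (nat_lit 0xbc0001780002fd1cd) b15450 (.hit (nat_lit 236) (nat_lit 15) (nat_lit 0xbc0001780002fd929) b15451 (.nil))) (.tok (nat_lit 9) (nat_lit 0xbc0001780002fceb2) (.hit (nat_lit 237) (nat_lit 20) (nat_lit 0xbc0001780002fceb2) b15448 (.hit (nat_lit 238) (nat_lit 28) (nat_lit 0xbc0001780002fb984) b15449 (.nil))) (.nil))))) (.tok (nat_lit 35) (nat_lit 0xbc0001780002fe356) (.hit (nat_lit 227) (nat_lit 0) (nat_lit 0xbc0001780002fe356) b15442 (.one (nat_lit 3) (nat_lit 228) (nat_lit 1) (nat_lit 0xbc0001780002fb6da) b15377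 (.tok (nat_lit 6) (nat_lit 0xbc0001780002fd211) (.hit (nat_lit 229) (nat_lit 7) (nat_lit 0xbc0001780002fd211) b15445 (.hit (nat_lit 230) (nat_lit 15) (nat_lit 0xbc0001780002fbb0c) b15446 (.nil))) (.tok (nat_lit 9) (nat_lit 0xbc0001780002fdb3d) (.hit (nat_lit 231) (nat_lit 20) (nat_lit 0xbc0001780002fc120) b15443 (.hit (nat_lit 232) (nat_lit 28) (nat_lit 0xbc0001780002fdb3d) b15444 (.nil))) (.nil))))) (.tok (nat_lit 38) (nat_lit 0xbc0001780002ff2c9) (.hit (nat_lit 239) (nat_lit 0) (nat_lit 0xbc0001780002ff2c9) b15407 (.one (nat_lit 3) (nat_lit 240) (nat_lit 1) (nat_lit 0xbc0001780002fb708) b15408 (.tok (nat_lit 6) (nat_lit 0xbc0001780002fc2c1) (.hit (nat_lit 241) (nat_lit 7) (nat_lit 0xbc0001780002fc2c1) b15410 (.hit (nat_lit 242) (nat_lit 15) (nat_lit 0xbc0001780002fbf69) b15411 (.nil))) (.tok (nat_lit 9) (nat_lit 0xbc0001780002fd224) (.hit (nat_lit 243) (nat_lit 20) (nat_lit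 0xbc0001780002fd224) b15385 (.hit (nat_lit 244) (nat_lit 28) (nat_lit 0xbc0001780002fbf65) b15409 (.nil))) (.nil))))) (.tok (nat_lit 41) (nat_lit 0xbc0001780002ff26a) (.hit (nat_lit 250) (nat_lit 0) (nat_lit 0xbc0001780002febfa) b15412 (.one (nat_lit 3) (nat_lit 251) (nat_lit 1) (nat_lit 0xbc0001780002fe04f) b15413 (.tok (nat_lit 6) (nat_lit 0xbc0001780002ff032) (.hit (nat_lit 252) (nat_lit 7) (nat_lit 0xbc0001780002ff032) b15416 (.hit (nat_lit 253) (nat_lit 15) (nat_lit 0xbc0001780002feaa0) b15417 (.nil))) (.tok (nat_lit 9) (nat_lit 0xbc0001780002ff26a) (.hit (nat_lit 254) (nat_lit 20) (nat_lit 0xbc0001780002ff26a) b15414 (.hit (nat_lit 255) (nat_lit 28) (nat_lit 0xbc0001780002fec5d) b15415 (.nil))) (.nil))))) (.tok (nat_lit 44) (nat_lit 0xbc0001780002ffe03) (.hit (nat_lit 278) (nat_lit 0) (nat_lit 0xbc0001780002ffe03) b15424 (.one (nat_lit 3) (nat_lit 279) (nat_lit 1) (nat_lit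 0xbc0001780002fd2e1) b15425 (.tok (nat_lit 6) (nat_lit 0xbc0001780002ff597) (.hit (nat_lit 280) (nat_lit 7) (nat_lit 0xbc0001780002ff597) b15428 (.hit (nat_lit 281) (nat_lit 15) (nat_lit 0xbc0001780002fe4b7) b15429 (.nil))) (.tok (nat_lit 9) (nat_lit 0xbc0001780002ff2b0) (.hit (nat_lit 282) (nat_lit 20) (nat_lit 0xbc0001780002ff2b0) b15426 (.hit (nat_lit 283) (nat_lit 28) (nat_lit 0xbc0001780002fe782) b15427 (.nil))) (.nil))))) (.tok (nat_lit 47) (nat_lit 0xbc00017800030059a) (.hit (nat_lit 264) (nat_lit 0) (nat_lit 0xbc000178000300096) b15418 (.one (nat_lit 3) (nat_lit 265) (nat_lit 1) (nat_lit 0xbc0001780002fdd84) b15419 (.tok (nat_lit 6) (nat_lit 0xbc00017800030059a) (.hit (nat_lit 266) (nat_lit 7) (nat_lit 0xbc00017800030059a) b15422 (.hit (nat_lit 267) (nat_lit 15) (nat_lit 0xbc0001780002fe74a) b15423 (.nil))) (.tok (nat_lit 9) (nat_lit 0xbc0001780002ff7e6) (.hit (nat_lit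 268) (nat_lit 20) (nat_lit 0xbc0001780002ff7e6) b15420 (.hit (nat_lit 269) (nat_lit 28) (nat_lit 0xbc0001780002fe1ca) b15421 (.nil))) (.nil))))) (.tok (nat_lit 50) (nat_lit 0xbc0001780002fe8bb) (.hit (nat_lit 170) (nat_lit 0) (nat_lit 0xbc0001780002fd8de) b15387 (.one (nat_lit 3) (nat_lit 171) (nat_lit 1) (nat_lit 0xbc0001780002fbbed) b15388 (.tok (nat_lit 6) (nat_lit 0xbc0001780002fe8bb) (.hit (nat_lit 172) (nat_lit 7) (nat_lit 0xbc0001780002fe8bb) b15391 (.hit (nat_lit 173) (nat_lit 15) (nat_lit 0xbc0001780002fc1fd) b15392 (.nil))) (.tok (nat_lit 9) (nat_lit 0xbc0001780002fc68e) (.hit (nat_lit 174) (nat_lit 20) (nat_lit 0xbc0001780002fc68e) b15389 (.hit (nat_lit 175) (nat_lit 28) (nat_lit 0xbc0001780002fc075) b15390 (.nil))) (.nil))))) (.tok (nat_lit 53) (nat_lit 0xbc0001780002fee51) (.hit (nat_lit 181) (nat_lit 0) (nat_lit 0xbc0001780002fe941) b15393 (.one (nat_lit 3) (nat_lit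 182) (nat_lit 1) (nat_lit 0xbc0001780002fe047) b15394 (.tok (nat_lit 6) (nat_lit 0xbc0001780002fe7b7) (.hit (nat_lit 183) (nat_lit 7) (nat_lit 0xbc0001780002fe7b7) b15397 (.hit (nat_lit 184) (nat_lit 15) (nat_lit 0xbc0001780002fe2bf) b15398 (.nil))) (.tok (nat_lit 9) (nat_lit 0xbc0001780002fee51) (.hit (nat_lit 185) (nat_lit 20) (nat_lit 0xbc0001780002fd7ab) b15395 (.hit (nat_lit 186) (nat_lit 28) (nat_lit 0xbc0001780002fee51) b15396 (.nil))) (.nil))))) (.tok (nat_lit 56) (nat_lit 0xbc0001780002fdf26) (.hit (nat_lit 195) (nat_lit 0) (nat_lit 0xbc0001780002fdf26) b15405 (.one (nat_lit 3) (nat_lit 196) (nat_lit 1) (nat_lit 0xbc0001780002fb6da) b15377 (.tok (nat_lit 6) (nat_lit 0xbc0001780002fd1e1) (.hit (nat_lit 197) (nat_lit 7) (nat_lit 0xbc0001780002fd1e1) b15362 (.hit (nat_lit 198) (nat_lit 15) (nat_lit 0xbc0001780002fb848) b15384 (.nil))) (.tok (nat_lit 9) (nat_lit 0xbc0001780002fdddd)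 (.hit (nat_lit 199) (nat_lit 20) (nat_lit 0xbc0001780002fd224) b15385 (.hit (nat_lit 200) (nat_lit 28) (nat_lit 0xbc0001780002fdddd) b15406 (.nil))) (.nil))))) (.tok (nat_lit 59) (nat_lit 0xbc0001780002fefb0) (.hit (nat_lit 209) (nat_lit 0) (nat_lit 0xbc0001780002fe266) b15399 (.one (nat_lit 3) (nat_lit 210) (nat_lit 1) (nat_lit 0xbc0001780002fc333) b15400 (.tok (nat_lit 6) (nat_lit 0xbc0001780002fdf23) (.hit (nat_lit 211) (nat_lit 7) (nat_lit 0xbc0001780002fd9fb) b15403 (.hit (nat_lit 212) (nat_lit 15) (nat_lit 0xbc0001780002fdf23) b15404 (.nil))) (.tok (nat_lit 9) (nat_lit 0xbc0001780002fefb0) (.hit (nat_lit 213) (nat_lit 20) (nat_lit 0xbc0001780002fefb0) b15401 (.hit (nat_lit 214) (nat_lit 28) (nat_lit 0xbc0001780002fb345) b15402 (.nil))) (.nil))))) (.tok (nat_lit 62) (nat_lit 0xbc0001780002fddfe) (.hit (nat_lit 146) (nat_lit 0) (nat_lit 0xbc0001780002fddfe) b15364 (.one (nat_lit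 3) (nat_lit 147) (nat_lit 1) (nat_lit 0xbc0001780002fb72e) b15365 (.tok (nat_lit 6) (nat_lit 0xbc0001780002fc103) (.hit (nat_lit 148) (nat_lit 7) (nat_lit 0xbc0001780002fc103) b15368 (.hit (nat_lit 149) (nat_lit 15) (nat_lit 0xbc0001780002fbd07) b15369 (.nil))) (.tok (nat_lit 9) (nat_lit 0xbc0001780002fcd26) (.hit (nat_lit 150) (nat_lit 20) (nat_lit 0xbc0001780002fcd26) b15366 (.hit (nat_lit 151) (nat_lit 28) (nat_lit 0xbc0001780002fbf39) b15367 (.nil))) (.nil))))) (.tok (nat_lit 65) (nat_lit 0xbc0001780002fe987) (.hit (nat_lit 152) (nat_lit 0) (nat_lit 0xbc0001780002fe545) b15370 (.one (nat_lit 3) (nat_lit 153) (nat_lit 1) (nat_lit 0xbc0001780002fdf73) b15371 (.tok (nat_lit 6) (nat_lit 0xbc0001780002fe5cc) (.hit (nat_lit 154) (nat_lit 7) (nat_lit 0xbc0001780002fd91b) b15374 (.hit (nat_lit 155) (nat_lit 15) (nat_lit 0xbc0001780002fe5cc) b15375 (.nil))) (.tok (nat_lit 9) (nat_lit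 0xbc0001780002fe987) (.hit (nat_lit 156) (nat_lit 20) (nat_lit 0xbc0001780002fe987) b15372 (.hit (nat_lit 157) (nat_lit 28) (nat_lit 0xbc0001780002fe801) b15373 (.nil))) (.nil))))) (.tok (nat_lit 68) (nat_lit 0xbc0001780002fdb04) (.hit (nat_lit 158) (nat_lit 0) (nat_lit 0xbc0001780002fd845) b15382 (.one (nat_lit 3) (nat_lit 159) (nat_lit 1) (nat_lit 0xbc0001780002fb6da) b15377 (.tok (nat_lit 6) (nat_lit 0xbc0001780002fdb04) (.hit (nat_lit 160) (nat_lit 7) (nat_lit 0xbc0001780002fd224) b15385 (.hit (nat_lit 161) (nat_lit 15) (nat_lit 0xbc0001780002fdb04) b15386 (.nil))) (.tok (nat_lit 9) (nat_lit 0xbc0001780002fce6f) (.hit (nat_lit 162) (nat_lit 20) (nat_lit 0xbc0001780002fce6f) b15383 (.hit (nat_lit 163) (nat_lit 28) (nat_lit 0xbc0001780002fb848) b15384 (.nil))) (.nil))))) (.tok (nat_lit 71) (nat_lit 0xbc0001780002fe38d) (.hit (nat_lit 164) (nat_lit 0) (nat_lit 0xbc0001780002fe38d)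 b15376 (.one (nat_lit 3) (nat_lit 165) (nat_lit 1) (nat_lit 0xbc0001780002fb6da) b15377 (.tok (nat_lit 6) (nat_lit 0xbc0001780002fccac) (.hit (nat_lit 166) (nat_lit 7) (nat_lit 0xbc0001780002fccac) b15380 (.hit (nat_lit 167) (nat_lit 15) (nat_lit 0xbc0001780002fc07b) b15381 (.nil))) (.tok (nat_lit 9) (nat_lit 0xbc0001780002fd025) (.hit (nat_lit 168) (nat_lit 20) (nat_lit 0xbc0001780002fcb71) b15378 (.hit (nat_lit 169) (nat_lit 28) (nat_lit 0xbc0001780002fd025) b15379 (.nil))) (.nil))))) (.nil))))))))))))))))))))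
noncomputable def r20_68 : Rw Blk := .tok (nat_lit 3) (nat_lit 0xbc0001780002fdfe3) (.hit (nat_lit 18) (nat_lit 0) (nat_lit 0xbc0001780002fdfe3) b11659 (.tok (nat_lit 6) (nat_lit 0xbc0001780002fcf6d) (.hit (nat_lit 19) (nat_lit 7) (nat_lit 0xbc0001780002fcf6d) b11660 (.hit (nat_lit 20) (nat_lit 15) (nat_lit 0xbc0001780002fce45) b11661 (.nil))) (.tok (nat_lit 9) (nat_lit 0xbc0001780002fd426) (.hit (nat_lit 21) (nat_lit 20) (nat_lit 0xbc0001780002fcfcf) b11662 (.hit (nat_lit 22) (nat_lit 28) (nat_lit 0xbc0001780002fd426) b11663 (.nil))) (.nil)))) (.tok (nat_lit 6) (nat_lit 0xbc000178000300000) (.hit (nat_lit 0) (nat_lit 0) (nat_lit 0xbc0001780002fea59) b11643 (.tok (nat_lit 3) (nat_lit 0xbc0001780002ff018) (.hit (nat_lit 1) (nat_lit 1) (nat_lit 0xbc0001780002fd338) b11644 (.one (nat_lit 67) (nat_lit 2) (nat_lit 2) (nat_lit 0xbc0001780002ff018) b15452 (.nil))) (.tok (nat_lit 6)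 (nat_lit 0xbc000178000300000) (.hit (nat_lit 3) (nat_lit 7) (nat_lit 0xbc0001780002feccc) b11645 (.hit (nat_lit 7) (nat_lit 15) (nat_lit 0xbc0001780002fdb65) b11649 (.tok (nat_lit 55) (nat_lit 0xbc000178000300000) (.hit (nat_lit 4) (nat_lit 8) (nat_lit 0xbc0001780002ffb92) b11646 (.hit (nat_lit 8) (nat_lit 16) (nat_lit 0xbc0001780002ff0f8) b11650 (.tok (nat_lit 6) (nat_lit 0xbc000178000300000) (.hit (nat_lit 5) (nat_lit 9) (nat_lit 0xbc0001780002ff9af) b11647 (.one (nat_lit 55) (nat_lit 6) (nat_lit 10) (nat_lit 0xbc000178000300000) b11648 (.nil))) (.nil)))) (.nil)))) (.nil)))) (.tok (nat_lit 9) (nat_lit 0xbc0001780002ff906) (.hit (nat_lit 9) (nat_lit 0) (nat_lit 0xbc0001780002fdff6) b11651 (.tok (nat_lit 3) (nat_lit 0xbc0001780002feb8e) (.hit (nat_lit 10) (nat_lit 1) (nat_lit 0xbc0001780002fda7f) b11652 (.one (nat_lit 55) (nat_lit 11) (nat_lit 3) (nat_lit 0xbc0001780002feb8e)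 b15453 (.nil))) (.tok (nat_lit 9) (nat_lit 0xbc0001780002ff906) (.hit (nat_lit 12) (nat_lit 20) (nat_lit 0xbc0001780002fd406) b11653 (.hit (nat_lit 16) (nat_lit 28) (nat_lit 0xbc0001780002fda9c) b11657 (.tok (nat_lit 67) (nat_lit 0xbc0001780002ff906) (.hit (nat_lit 13) (nat_lit 21) (nat_lit 0xbc0001780002ff85e) b11654 (.hit (nat_lit 17) (nat_lit 29) (nat_lit 0xbc0001780002ff5a9) b11658 (.tok (nat_lit 9) (nat_lit 0xbc0001780002ff906) (.hit (nat_lit 14) (nat_lit 22) (nat_lit 0xbc0001780002ff051) b11655 (.one (nat_lit 67) (nat_lit 15) (nat_lit 23) (nat_lit 0xbc0001780002ff906) b11656 (.nil))) (.nil)))) (.nil)))) (.nil)))) (.nil)))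
noncomputable def r20_69 : Rw Blk := .tok (nat_lit 3) (nat_lit 0xbc0001780002fd92f) (.hit (nat_lit 14) (nat_lit 0) (nat_lit 0xbc0001780002fd92f) b15468 (.tok (nat_lit 6) (nat_lit 0xbc0001780002fc057) (.hit (nat_lit 15) (nat_lit 7) (nat_lit 0xbc0001780002fbae8) b15471 (.hit (nat_lit 16) (nat_lit 15) (nat_lit 0xbc0001780002fc057) b15472 (.nil))) (.tok (nat_lit 9) (nat_lit 0xbc0001780002fca8e) (.hit (nat_lit 17) (nat_lit 20) (nat_lit 0xbc0001780002fca8e) b15469 (.hit (nat_lit 18) (nat_lit 28) (nat_lit 0xbc0001780002fc721) b15470 (.nil))) (.nil)))) (.tok (nat_lit 6) (nat_lit 0xbc0001780002fe702) (.hit (nat_lit 0) (nat_lit 0) (nat_lit 0xbc0001780002fe702) b15454 (.tok (nat_lit 3) (nat_lit 0xbc0001780002fdb46) (.hit (nat_lit 1) (nat_lit 1) (nat_lit 0xbc0001780002fc8a1) b15455 (.one (nat_lit 67) (nat_lit 2) (nat_lit 2) (nat_lit 0xbc0001780002fdb46) b15456 (.nil))) (.tok (nat_lit 6)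 (nat_lit 0xbc0001780002fe641) (.hit (nat_lit 3) (nat_lit 7) (nat_lit 0xbc0001780002fc42b) b15457 (.hit (nat_lit 7) (nat_lit 15) (nat_lit 0xbc0001780002fc987) b15461 (.tok (nat_lit 55) (nat_lit 0xbc0001780002fe641) (.hit (nat_lit 4) (nat_lit 8) (nat_lit 0xbc0001780002fdb8d) b15458 (.hit (nat_lit 8) (nat_lit 16) (nat_lit 0xbc0001780002fe641) b15462 (.tok (nat_lit 6) (nat_lit 0xbc0001780002fe5c4) (.hit (nat_lit 5) (nat_lit 9) (nat_lit 0xbc0001780002fd640) b15459 (.one (nat_lit 55) (nat_lit 6) (nat_lit 10) (nat_lit 0xbc0001780002fe5c4) b15460 (.nil))) (.nil)))) (.nil)))) (.nil)))) (.tok (nat_lit 9) (nat_lit 0xbc0001780003005bb) (.hit (nat_lit 9) (nat_lit 0) (nat_lit 0xbc0001780002fed6e) b15463 (.tok (nat_lit 3) (nat_lit 0xbc0001780003005bb) (.hit (nat_lit 10) (nat_lit 1) (nat_lit 0xbc0001780002fed90) b15464 (.one (nat_lit 55) (nat_lit 11) (nat_lit 3) (nat_lit 0xbc0001780003005bb)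 b15465 (.nil))) (.tok (nat_lit 9) (nat_lit 0xbc0001780002ff835) (.hit (nat_lit 12) (nat_lit 20) (nat_lit 0xbc0001780002ff835) b15466 (.hit (nat_lit 13) (nat_lit 28) (nat_lit 0xbc0001780002fe51b) b15467 (.nil))) (.nil)))) (.nil)))
noncomputable def r20_70 : Rw Blk := .tok (nat_lit 3) (nat_lit 0xbc0001780002fe332) (.hit (nat_lit 14) (nat_lit 0) (nat_lit 0xbc0001780002fe332) b15487 (.tok (nat_lit 6) (nat_lit 0xbc0001780002fd58b) (.hit (nat_lit 15) (nat_lit 7) (nat_lit 0xbc0001780002fd58b) b15490 (.hit (nat_lit 16) (nat_lit 15) (nat_lit 0xbc0001780002fd007) b15491 (.nil))) (.tok (nat_lit 9) (nat_lit 0xbc0001780002fd0a7) (.hit (nat_lit 17) (nat_lit 20) (nat_lit 0xbc0001780002fd0a7) b15488 (.hit (nat_lit 18) (nat_lit 28) (nat_lit 0xbc0001780002faa89) b15489 (.nil))) (.nil)))) (.tok (nat_lit 6) (nat_lit 0xbc000178000300000) (.hit (nat_lit 9) (nat_lit 0) (nat_lit 0xbc000178000300000)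 b15482 (.tok (nat_lit 3) (nat_lit 0xbc0001780002ffaf5) (.hit (nat_lit 10) (nat_lit 1) (nat_lit 0xbc0001780002fda4e) b15483 (.one (nat_lit 67) (nat_lit 11) (nat_lit 2) (nat_lit 0xbc0001780002ffaf5) b15484 (.nil))) (.tok (nat_lit 6) (nat_lit 0xbc0001780002ff2c2) (.hit (nat_lit 12) (nat_lit 7) (nat_lit 0xbc0001780002ff2c2) b15485 (.hit (nat_lit 13) (nat_lit 15) (nat_lit 0xbc0001780002fdd07) b15486 (.nil))) (.nil)))) (.tok (nat_lit 9) (nat_lit 0xbc0001780002ff6c3) (.hit (nat_lit 0) (nat_lit 0) (nat_lit 0xbc0001780002ff2fa) b15473 (.tok (nat_lit 3) (nat_lit 0xbc0001780002fe7a8) (.hit (nat_lit 1) (nat_lit 1) (nat_lit 0xbc0001780002fd593) b15474 (.one (nat_lit 55) (nat_lit 2) (nat_lit 3) (nat_lit 0xbc0001780002fe7a8) b15475 (.nil))) (.tok (nat_lit 9) (nat_lit 0xbc0001780002ff6c3) (.hit (nat_lit 3) (nat_lit 20) (nat_lit 0xbc0001780002fd2ad) b15476 (.hit (nat_lit 7) (nat_lit 28) (nat_lit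 0xbc0001780002fd3a5) b15480 (.tok (nat_lit 67) (nat_lit 0xbc0001780002ff6c3) (.hit (nat_lit 4) (nat_lit 21) (nat_lit 0xbc0001780002fe8c9) b15477 (.hit (nat_lit 8) (nat_lit 29) (nat_lit 0xbc0001780002ff0ef) b15481 (.tok (nat_lit 9) (nat_lit 0xbc0001780002ff6c3) (.hit (nat_lit 5) (nat_lit 22) (nat_lit 0xbc0001780002fe8ce) b15478 (.one (nat_lit 67) (nat_lit 6) (nat_lit 23) (nat_lit 0xbc0001780002ff6c3) b15479 (.nil))) (.nil)))) (.nil)))) (.nil)))) (.nil)))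
noncomputable def r20_71 : Rw Blk := .tok (nat_lit 6) (nat_lit 0xbc00017800030327d) (.hit (nat_lit 10) (nat_lit 0) (nat_lit 0xbc000178000301102) b15502 (.tok (nat_lit 3) (nat_lit 0xbc0001780002ffa20) (.hit (nat_lit 11) (nat_lit 1) (nat_lit 0xbc0001780002fe6f1) b15503 (.one (nat_lit 14) (nat_lit 12) (nat_lit 4) (nat_lit 0xbc0001780002ffa20) b15504 (.one (nat_lit 56) (nat_lit 13) (nat_lit 6) (nat_lit 0xbc0001780002ff72f) b15505 (.nil)))) (.tok (nat_lit 40) (nat_lit 0xbc0001780002ff3e3) (.hit (nat_lit 14) (nat_lit 33) (nat_lit 0xbc0001780002ff3e3) b15506 (.hit (nat_lit 15) (nat_lit 34) (nat_lit 0xbc0001780002ff24b) b15507 (.nil))) (.tok (nat_lit 43) (nat_lit 0xbc00017800030327d) (.hit (nat_lit 16) (nat_lit 35) (nat_lit 0xbc00017800030327d) b15510 (.hit (nat_lit 17) (nat_lit 36) (nat_lit 0xbc0001780002fe2eb) b15511 (.nil))) (.tok (nat_lit 46) (nat_lit 0xbc000178000300573) (.hit (nat_lit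 18) (nat_lit 37) (nat_lit 0xbc0001780002fe39e) b15508 (.hit (nat_lit 19) (nat_lit 38) (nat_lit 0xbc000178000300573) b15509 (.nil))) (.nil)))))) (.tok (nat_lit 9) (nat_lit 0xbc0001780003004d9) (.hit (nat_lit 0) (nat_lit 0) (nat_lit 0xbc0001780003004d9) b15492 (.tok (nat_lit 3) (nat_lit 0xbc0001780002fda65) (.hit (nat_lit 1) (nat_lit 1) (nat_lit 0xbc0001780002fbd71) b15493 (.one (nat_lit 14) (nat_lit 2) (nat_lit 4) (nat_lit 0xbc0001780002fd676) b15494 (.one (nat_lit 68) (nat_lit 3) (nat_lit 5) (nat_lit 0xbc0001780002fda65) b15495 (.nil)))) (.tok (nat_lit 40) (nat_lit 0xbc0001780002fdf1e) (.hit (nat_lit 4) (nat_lit 33) (nat_lit 0xbc0001780002fd998) b15496 (.hit (nat_lit 5) (nat_lit 34) (nat_lit 0xbc0001780002fdf1e) b15497 (.nil))) (.tok (nat_lit 43) (nat_lit 0xbc0001780002feaa2) (.hit (nat_lit 6) (nat_lit 35) (nat_lit 0xbc0001780002feaa2) b15500 (.hit (nat_lit 7) (nat_lit 36) (nat_lit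 0xbc0001780002fe73d) b15501 (.nil))) (.tok (nat_lit 46) (nat_lit 0xbc0001780002feb79) (.hit (nat_lit 8) (nat_lit 37) (nat_lit 0xbc0001780002feb79) b15498 (.hit (nat_lit 9) (nat_lit 38) (nat_lit 0xbc0001780002fe5de) b15499 (.nil))) (.nil)))))) (.nil))
noncomputable def r20_72 : Rw Blk := .tok (nat_lit 6) (nat_lit 0xbc000178000300026) (.hit (nat_lit 10) (nat_lit 0) (nat_lit 0xbc0001780002fe8ba) b15522 (.tok (nat_lit 3) (nat_lit 0xbc0001780002ff1fa) (.hit (nat_lit 11) (nat_lit 1) (nat_lit 0xbc0001780002fd1e9) b15523 (.one (nat_lit 14) (nat_lit 12) (nat_lit 4) (nat_lit 0xbc0001780002ff1fa) b15524 (.one (nat_lit 56) (nat_lit 13) (nat_lit 6) (nat_lit 0xbc0001780002fe7d7) b15525 (.nil)))) (.tok (nat_lit 40) (nat_lit 0xbc0001780002fea0b) (.hit (nat_lit 14) (nat_lit 33) (nat_lit 0xbc0001780002fea0b) b15526 (.hit (nat_lit 15) (nat_lit 34) (nat_lit 0xbc0001780002fe406) b15527 (.nil))) (.tok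 (nat_lit 43) (nat_lit 0xbc000178000300026) (.hit (nat_lit 16) (nat_lit 35) (nat_lit 0xbc000178000300026) b15530 (.hit (nat_lit 17) (nat_lit 36) (nat_lit 0xbc0001780002fdf54) b15531 (.nil))) (.tok (nat_lit 46) (nat_lit 0xbc0001780002ffbb9) (.hit (nat_lit 18) (nat_lit 37) (nat_lit 0xbc0001780002fd7f6) b15528 (.hit (nat_lit 19) (nat_lit 38) (nat_lit 0xbc0001780002ffbb9) b15529 (.nil))) (.nil)))))) (.tok (nat_lit 9) (nat_lit 0xbc000178000300b5a) (.hit (nat_lit 0) (nat_lit 0) (nat_lit 0xbc00017800030003d) b15512 (.tok (nat_lit 3) (nat_lit 0xbc000178000300739) (.hit (nat_lit 1) (nat_lit 1) (nat_lit 0xbc0001780002fd862) b15513 (.one (nat_lit 14) (nat_lit 2) (nat_lit 4) (nat_lit 0xbc000178000300739) b15514 (.one (nat_lit 68) (nat_lit 3) (nat_lit 5) (nat_lit 0xbc0001780002ff14e) b15515 (.nil)))) (.tok (nat_lit 40) (nat_lit 0xbc0001780002ffa12) (.hit (nat_lit 4) (nat_lit 33) (nat_lit 0xbc0001780002ff5d3)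 b15516 (.hit (nat_lit 5) (nat_lit 34) (nat_lit 0xbc0001780002ffa12) b15517 (.nil))) (.tok (nat_lit 43) (nat_lit 0xbc000178000300b5a) (.hit (nat_lit 6) (nat_lit 35) (nat_lit 0xbc0001780002fe828) b15520 (.hit (nat_lit 7) (nat_lit 36) (nat_lit 0xbc000178000300b5a) b15521 (.nil))) (.tok (nat_lit 46) (nat_lit 0xbc000178000300547) (.hit (nat_lit 8) (nat_lit 37) (nat_lit 0xbc000178000300547) b15518 (.hit (nat_lit 9) (nat_lit 38) (nat_lit 0xbc0001780002fef28) b15519 (.nil))) (.nil)))))) (.nil))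
noncomputable def r20_73 : Rw Blk := .tok (nat_lit 3) (nat_lit 0x3004fc600c78c053158079cb00df860298cc05ded80470b00c5a) (.hit (nat_lit 15) (nat_lit 0) (nat_lit 0x2fd8e15fcc2cbfd1f57f380afe8675feda6bfe2017f4572fe5cf) b15547 (.tok (nat_lit 9) (nat_lit 0x2fda0d5fceb6bfe6417f27dafe63f60135ac00db17f4ed2fe6fb) (.hit (nat_lit 16) (nat_lit 20) (nat_lit 0x2fbe8f5fa88abf64657e4beafcac15fd6d4bf947d7e72e2fcb7d) b15548 (.hit (nat_lit 21) (nat_lit 28) (nat_lit 0x2fa3165f8eecbf24a97d7022faf485fbc3abf78e57d971afb004) b15553 (.tok (nat_lit 14) (nat_lit 0x2fce455fceb6bfe6417ec99afda7760063ebfffd17ef092fdb33) (.hit (nat_lit 17) (nat_lit 24) (nat_lit 0x2fcbd75fbca2bfaf817eb62afd8095ff8f8bfdb397edd22fd8c5) b15549 (.hit (nat_lit 22) (nat_lit 30) (nat_lit 0x2fcb765fc6eebf96d17eb322fd7a85fe0e2bfc4b97eda1afd864) b15554 (.one (nat_lit 6) (nat_lit 18) (nat_lit 25) (nat_lit 0x2fce455fceb6bfe6417ec99afda7760063ebfffd17ef092fdb33)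 b15550 (.nil)))) (.one (nat_lit 56) (nat_lit 23) (nat_lit 31) (nat_lit 0x2fd4995fc394bf847d7efc3afe0cb5fd0bcbface97f2332fe187) b15555 (.tok (nat_lit 68) (nat_lit 0x2fda0d5fbd4cbfe6297f27dafe63f60135ac00db17f4ed2fe6fb) (.hit (nat_lit 19) (nat_lit 26) (nat_lit 0x2fc6df5fb6a0bf7fc97e8e6afd3115ffbe6bfdea17eb562fd3cd) b15551 (.hit (nat_lit 24) (nat_lit 32) (nat_lit 0x2fc3e35faa8cbf64497e768afd0155fc27cbf87ed7e9d82fd0d1) b15556 (.one (nat_lit 9) (nat_lit 20) (nat_lit 27) (nat_lit 0x2fda0d5fbd4cbfe6297f27dafe63f60135ac00db17f4ed2fe6fb) b15552 (.nil)))) (.nil)))))) (.tok (nat_lit 64) (nat_lit 0x2fd3d95fd952bfc4c17ef63afe00b5fee48bfc7157f1d32fe0c7) (.hit (nat_lit 25) (nat_lit 50) (nat_lit 0x2fd1db5fb00abf8efd7ee64afde0d5fcb40bfa1f17f0d42fdec9) b15557 (.hit (nat_lit 26) (nat_lit 51) (nat_lit 0x2fd3d95fd952bfc4c17ef63afe00b5fee48bfc7157f1d32fe0c7) b15558 (.nil))) (.tok (nat_lit 67) (nat_lit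 0x3004fc600c78c053158079cb00df860298cc05ded80470b00c5a) (.hit (nat_lit 27) (nat_lit 52) (nat_lit 0x3004fc600c78c051fd8079cb00df860298cc05ded80470b00c5a) b15559 (.tok (nat_lit 3) (nat_lit 0x2fe17d5feb3ec026657f635afedaf601674c01c3d7f8a52fee6b) (.hit (nat_lit 33) (nat_lit 58) (nat_lit 0x2fdc055fd19cc00f317f379afe837601674c01c3d7f5e92fe8f3) b15565 (.one (nat_lit 55) (nat_lit 34) (nat_lit 59) (nat_lit 0x2fe17d5feb3ec026657f635afedaf601420c016557f8a52fee6b) b15566 (.nil))) (.tok (nat_lit 9) (nat_lit 0x2fdb235fe53cc053157f308afe755601e84c032797f5782fe811) (.hit (nat_lit 28) (nat_lit 53) (nat_lit 0x2fd5565fc080bfd8d17f0222fe1885ffab0bfff317f291afe244) b15560 (.hit (nat_lit 31) (nat_lit 56) (nat_lit 0x2fd9fe5fd88abfedd97f2762fe63060044cbfff657f4e5afe6ec) b15563 (.tok (nat_lit 67) (nat_lit 0x2fdb235fe53cc053157f308afe755601e84c032797f5782fe811) (.hit (nat_lit 29) (nat_lit 54) (nat_lit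 0x2fd88b5fc82cbffa4d7f1bcafe4bd600974c032797f42c2fe579) b15561 (.hit (nat_lit 32) (nat_lit 57) (nat_lit 0x2fdb235fe53cc053157f308afe755601e84c02eb97f5782fe811) b15564 (.one (nat_lit 9) (nat_lit 30) (nat_lit 55) (nat_lit 0x2fd19f5fb60cbfe8b17ee46afddd15fd7e8bfbb9d7f0b62fde8d) b15562 (.nil)))) (.nil)))) (.nil)))) (.one (nat_lit 70) (nat_lit 35) (nat_lit 60) (nat_lit 0x2fd7225fdf46bfc8bd7f1082fe3545ff26cbfcf5d7f377afe410) b15567 (.nil)))))) (.tok (nat_lit 6) (nat_lit 0x301a82603e3ec0bc5d815dcb026fd605114c09d75817cb303329) (.hit (nat_lit 0) (nat_lit 0) (nat_lit 0x2ff6d9602e94c05aad8049830096260347ec08b81801653005a8) b15532 (.tok (nat_lit 6) (nat_lit 0x3009b9602544c07c3180edc3019e7603a0ec07f8980edd301a46) (.hit (nat_lit 1) (nat_lit 7) (nat_lit 0x2fee9b5faaf4bf84ad801822fff955fdd3ebfbd19803bdafff15) b15533 (.hit (nat_lit 4) (nat_lit 15) (nat_lit 0x2fc8915faf22bf78b57eebaafe00e5fcc6ebf9f617ea8d2fd823)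 b15536 (.tok (nat_lit 14) (nat_lit 0x3009b9600ab8c07c3180edc3019e76035e4c0710980edd301a46) (.hit (nat_lit 2) (nat_lit 11) (nat_lit 0x3009b95ffdfec02c8580edc3019e75fecf4bfdead80edd301a46) b15534 (.hit (nat_lit 5) (nat_lit 17) (nat_lit 0x2fd4065fea0ebfacf17f0e1afe74a5fe9e0bfd6557ef98afe06a) b15537 (.one (nat_lit 9) (nat_lit 3) (nat_lit 12) (nat_lit 0x3000f4600ab8c07c3180b50b012b16035e4c0710980e483016f8) b15535 (.nil)))) (.one (nat_lit 68) (nat_lit 6) (nat_lit 18) (nat_lit 0x2fe4f4602544c054297fd3b2ffc3f603a0ec07f897f95a2ff55f) b15538 (.nil))))) (.tok (nat_lit 52) (nat_lit 0x301a8260239cc050f5810ccb0203b5ffd18c0092d817cb303329) (.hit (nat_lit 7) (nat_lit 39) (nat_lit 0x301a8260239cc050f5810ccb0203b5fd6b0bfb8d1817cb303329) b15539 (.hit (nat_lit 8) (nat_lit 40) (nat_lit 0x300822600156bff24d80cd9301a165ffd18c0092d80945b012b1) b15540 (.nil))) (.tok (nat_lit 55) (nat_lit 0x3012f5603e3ec0bc5d815dcb026fd605114c09d758130ab021fc)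 (.hit (nat_lit 9) (nat_lit 41) (nat_lit 0x3012f5603e3ec0bc5d815dcb026fd605114c09d758130ab02123) b15541 (.tok (nat_lit 3) (nat_lit 0x300c1b5ff5c4c01d1d8153a30220b6020e0c03f41812acb021fc) (.hit (nat_lit 12) (nat_lit 47) (nat_lit 0x300c145fe246bfeef180cfe301afb5ffa60c00e6180972b01748) b15544 (.one (nat_lit 67) (nat_lit 13) (nat_lit 48) (nat_lit 0x300c1b5ff5c4c01d1d8153a30220b6020e0c03f41812acb021fc) b15545 (.nil))) (.tok (nat_lit 6) (nat_lit 0x300407600cacc06139809dab00be360074ec021118043db0058b) (.hit (nat_lit 10) (nat_lit 42) (nat_lit 0x2fefe5600cacc047217fb562ffaf1600010c00bed7fb0eaff580) b15542 (.hit (nat_lit 11) (nat_lit 45) (nat_lit 0x3004075ff8cac06139809dab00be360074ec021118043db0058b) b15543 (.nil))) (.nil)))) (.one (nat_lit 58) (nat_lit 14) (nat_lit 49) (nat_lit 0x2ffd626009c0bfecf980a66b014a55ff94ec00c8580530301137) b15546 (.nil)))))) (.nil))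
noncomputable def r20_74 : Rw Blk := .tok (nat_lit 6) (nat_lit 0xbc000182339b04ceb) (.hit (nat_lit 18) (nat_lit 0) (nat_lit 0xbc0001801d5b00568) b15586 (.tok (nat_lit 14) (nat_lit 0xbc0001813d6301f16) (.hit (nat_lit 19) (nat_lit 61) (nat_lit 0xbc0001806afb01f16) b15587 (.one (nat_lit 3) (nat_lit 20) (nat_lit 62) (nat_lit 0xbc0001803e5300a95) b15588 (.tok (nat_lit 6) (nat_lit 0xbc00017fd42aff5f2) (.hit (nat_lit 23) (nat_lit 65) (nat_lit 0xbc00017f689afe6e7) b15589 (.hit (nat_lit 24) (nat_lit 66) (nat_lit 0xbc00017fd42aff5f2) b15590 (.nil))) (.tok (nat_lit 9) (nat_lit 0xbc0001813d6301e45) (.hit (nat_lit 21) (nat_lit 63) (nat_lit 0xbc0001813d6301e45) b15591 (.hit (nat_lit 22) (nat_lit 64) (nat_lit 0xbc00017ff502ff90c) b15592 (.nil))) (.nil))))) (.one (nat_lit 17) (nat_lit 25) (nat_lit 67) (nat_lit 0xbc0001800a8b003c4) b15593 (.tok (nat_lit 20) (nat_lit 0xbc000182339b04ceb) (.hit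 (nat_lit 26) (nat_lit 68) (nat_lit 0xbc000182339b04ceb) b15596 (.hit (nat_lit 27) (nat_lit 69) (nat_lit 0xbc00017f5a72fe8a0) b15597 (.nil))) (.tok (nat_lit 23) (nat_lit 0xbc00017f9252fedf7) (.hit (nat_lit 28) (nat_lit 70) (nat_lit 0xbc00017f5ac2fe52c) b15594 (.hit (nat_lit 29) (nat_lit 71) (nat_lit 0xbc00017f9252fedf7) b15595 (.nil))) (.one (nat_lit 26) (nat_lit 30) (nat_lit 72) (nat_lit 0xbc00017f6deafe745) b15598 (.one (nat_lit 29) (nat_lit 31) (nat_lit 73) (nat_lit 0xbc00017f9b12ff906) b15599 (.one (nat_lit 32) (nat_lit 32) (nat_lit 74) (nat_lit 0xbc00017f610afe423) b15601 (.one (nat_lit 35) (nat_lit 33) (nat_lit 75) (nat_lit 0xbc00017fd4b2ff8b0) b15600 (.one (nat_lit 38) (nat_lit 34) (nat_lit 76) (nat_lit 0xbc00017f8732fead3) b15602 (.tok (nat_lit 41) (nat_lit 0xbc00017fe58300247) (.hit (nat_lit 35) (nat_lit 77) (nat_lit 0xbc00017f1f1afe53a) b15603 (.hit (nat_lit 36) (nat_lit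 78) (nat_lit 0xbc00017fe58300247) b15604 (.nil))) (.tok (nat_lit 44) (nat_lit 0xbc00017f627b0000d) (.hit (nat_lit 37) (nat_lit 79) (nat_lit 0xbc00017f627b0000d) b15607 (.hit (nat_lit 38) (nat_lit 80) (nat_lit 0xbc00017f209afeb96) b15608 (.nil))) (.tok (nat_lit 47) (nat_lit 0xbc00017fa91aff3f6) (.hit (nat_lit 39) (nat_lit 81) (nat_lit 0xbc00017ec3cafd24d) b15605 (.hit (nat_lit 40) (nat_lit 82) (nat_lit 0xbc00017fa91aff3f6) b15606 (.nil))) (.one (nat_lit 62) (nat_lit 41) (nat_lit 92) (nat_lit 0xbc00017fe4eaff4d7) b15609 (.tok (nat_lit 65) (nat_lit 0xbc00017ffa42ffb8e) (.hit (nat_lit 42) (nat_lit 93) (nat_lit 0xbc00017f992aff5c5) b15610 (.hit (nat_lit 43) (nat_lit 94) (nat_lit 0xbc00017ffa42ffb8e) b15611 (.nil))) (.tok (nat_lit 68) (nat_lit 0xbc000180ba82ff85b) (.hit (nat_lit 44) (nat_lit 95) (nat_lit 0xbc000180ba82ff85b) b15612 (.one (nat_lit 3) (nat_lit 48) (nat_lit 99) (nat_lit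 0xbc00017f608afe5e5) b15616 (.one (nat_lit 6) (nat_lit 45) (nat_lit 96) (nat_lit 0xbc00017f575afe4bf) b15613 (.tok (nat_lit 9) (nat_lit 0xbc00017f3b4afe13d) (.hit (nat_lit 46) (nat_lit 97) (nat_lit 0xbc00017f3b4afe13d) b15614 (.hit (nat_lit 47) (nat_lit 98) (nat_lit 0xbc00017f031afda37) b15615 (.nil))) (.nil))))) (.one (nat_lit 71) (nat_lit 49) (nat_lit 100) (nat_lit 0xbc00017f7ca2feaa5) b15617 (.nil)))))))))))))))))) (.tok (nat_lit 52) (nat_lit 0xbc00018181c302ec8) (.hit (nat_lit 13) (nat_lit 0) (nat_lit 0xbc0001815a0302ec8) b15581 (.tok (nat_lit 6) (nat_lit 0xbc00018181c301e5c) (.hit (nat_lit 14) (nat_lit 7) (nat_lit 0xbc0001813e7b019b8) b15584 (.hit (nat_lit 15) (nat_lit 15) (nat_lit 0xbc00018181c301e5c) b15585 (.nil))) (.tok (nat_lit 9) (nat_lit 0xbc0001805252ff936) (.hit (nat_lit 16) (nat_lit 20) (nat_lit 0xbc00017f7722fe8b8) b15582 (.hit (nat_lit 17) (nat_lit 28) (nat_lit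 0xbc0001805252ff936) b15583 (.nil))) (.nil)))) (.tok (nat_lit 55) (nat_lit 0xbc000180448b001d7) (.hit (nat_lit 8) (nat_lit 0) (nat_lit 0xbc000180448afff35) b15576 (.tok (nat_lit 3) (nat_lit 0xbc0001803c3b0015b) (.hit (nat_lit 9) (nat_lit 1) (nat_lit 0xbc00017fba22ff118) b15577 (.one (nat_lit 67) (nat_lit 10) (nat_lit 2) (nat_lit 0xbc0001803c3b0015b) b15578 (.nil))) (.tok (nat_lit 6) (nat_lit 0xbc000180401b001d7) (.hit (nat_lit 11) (nat_lit 7) (nat_lit 0xbc000180401b001d7) b15579 (.hit (nat_lit 12) (nat_lit 15) (nat_lit 0xbc00017f99eafed11) b15580 (.nil))) (.nil)))) (.tok (nat_lit 58) (nat_lit 0xbc000180f19301806) (.hit (nat_lit 0) (nat_lit 0) (nat_lit 0xbc000180db2300498) b15568 (.tok (nat_lit 3) (nat_lit 0xbc000180f19301806) (.hit (nat_lit 1) (nat_lit 1) (nat_lit 0xbc000180504b003dd) b15569 (.one (nat_lit 55) (nat_lit 2) (nat_lit 3) (nat_lit 0xbc000180f19301806) b15570 (.nil)))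 (.tok (nat_lit 9) (nat_lit 0xbc000180d7cb014cd) (.hit (nat_lit 3) (nat_lit 20) (nat_lit 0xbc0001802a32fff1a) b15571 (.hit (nat_lit 6) (nat_lit 28) (nat_lit 0xbc0001803ac30012c) b15574 (.tok (nat_lit 67) (nat_lit 0xbc000180d7cb014cd) (.hit (nat_lit 4) (nat_lit 21) (nat_lit 0xbc00018095d300c8e) b15572 (.hit (nat_lit 7) (nat_lit 29) (nat_lit 0xbc000180d4430145c) b15575 (.one (nat_lit 9) (nat_lit 5) (nat_lit 22) (nat_lit 0xbc000180d7cb014cd) b15573 (.nil)))) (.nil)))) (.nil)))) (.nil))))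
noncomputable def r20_75 : Rw Blk := .tok (nat_lit 3) (nat_lit 0xbc000181bd530305a) (.hit (nat_lit 0) (nat_lit 0) (nat_lit 0xbc000181bd5302fe9) b15618 (.tok (nat_lit 9) (nat_lit 0xbc000180b71b0158f) (.hit (nat_lit 1) (nat_lit 20) (nat_lit 0xbc00017f5c32feb84) b15619 (.hit (nat_lit 6) (nat_lit 28) (nat_lit 0xbc00017f546aff35b) b15624 (.tok (nat_lit 14) (nat_lit 0xbc00018025db0158f) (.hit (nat_lit 2) (nat_lit 24) (nat_lit 0xbc0001801cdb00b52) b15620 (.hit (nat_lit 7) (nat_lit 30) (nat_lit 0xbc00018025db00f31) b15625 (.one (nat_lit 6) (nat_lit 3) (nat_lit 25) (nat_lit 0xbc00018001630158f) b15621 (.nil)))) (.tok (nat_lit 68) (nat_lit 0xbc000180b71b01311) (.hit (nat_lit 4) (nat_lit 26) (nat_lit 0xbc00017fe24b0039d) b15622 (.hit (nat_lit 8) (nat_lit 32) (nat_lit 0xbc00017ffa2affeb7) b15626 (.one (nat_lit 9) (nat_lit 5) (nat_lit 27) (nat_lit 0xbc000180b71b01311) b15623 (.nil)))) (.nil)))))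 (.tok (nat_lit 64) (nat_lit 0xbc0001809f3b023a9) (.hit (nat_lit 9) (nat_lit 50) (nat_lit 0xbc0001809f3b023a9) b15627 (.hit (nat_lit 10) (nat_lit 51) (nat_lit 0xbc000180583301acf) b15628 (.nil))) (.tok (nat_lit 67) (nat_lit 0xbc000181ad8b0305a) (.hit (nat_lit 11) (nat_lit 52) (nat_lit 0xbc000181ad8b0305a) b15629 (.tok (nat_lit 3) (nat_lit 0xbc0001808a3301dc7) (.hit (nat_lit 17) (nat_lit 58) (nat_lit 0xbc0001808a3301845) b15635 (.one (nat_lit 55) (nat_lit 18) (nat_lit 59) (nat_lit 0xbc0001806c5b01dc7) b15636 (.nil))) (.tok (nat_lit 9) (nat_lit 0xbc000180c2e301c82) (.hit (nat_lit 12) (nat_lit 53) (nat_lit 0xbc0001805fdb013d1) b15630 (.hit (nat_lit 15) (nat_lit 56) (nat_lit 0xbc00018058e3011bc) b15633 (.tok (nat_lit 67) (nat_lit 0xbc000180c2e301c82) (.hit (nat_lit 13) (nat_lit 54) (nat_lit 0xbc000180c2e301c82) b15631 (.hit (nat_lit 16) (nat_lit 57) (nat_lit 0xbc000180a963016ac) b15634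 (.one (nat_lit 9) (nat_lit 14) (nat_lit 55) (nat_lit 0xbc00018077bb00ee4) b15632 (.nil)))) (.nil)))) (.nil)))) (.one (nat_lit 70) (nat_lit 19) (nat_lit 60) (nat_lit 0xbc0001801e8300ab1) b15637 (.nil)))))) (.tok (nat_lit 6) (nat_lit 0xbc000181f6cb03b0d) (.hit (nat_lit 20) (nat_lit 0) (nat_lit 0xbc000181d58303462) b15638 (.tok (nat_lit 6) (nat_lit 0xbc000181f6cb03b0d) (.hit (nat_lit 21) (nat_lit 7) (nat_lit 0xbc0001811d0b02277) b15639 (.hit (nat_lit 24) (nat_lit 15) (nat_lit 0xbc000180a93b011bc) b15642 (.tok (nat_lit 14) (nat_lit 0xbc000181f6cb03b0d) (.hit (nat_lit 22) (nat_lit 11) (nat_lit 0xbc0001818e0b02f8b) b15640 (.hit (nat_lit 25) (nat_lit 17) (nat_lit 0xbc0001815e130258b) b15643 (.one (nat_lit 9) (nat_lit 23) (nat_lit 12) (nat_lit 0xbc000181f6cb03b0d) b15641 (.nil)))) (.one (nat_lit 68) (nat_lit 26) (nat_lit 18) (nat_lit 0xbc000181e783038c8) b15644 (.nil))))) (.nil))) (.nil))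
noncomputable def r20_76 : Rw Blk := .tok (nat_lit 6) (nat_lit 0xbc000178000306840) (.hit (nat_lit 0) (nat_lit 0) (nat_lit 0xbc0001780003025ec) b15645 (.tok (nat_lit 14) (nat_lit 0xbc000178000306840) (.hit (nat_lit 1) (nat_lit 61) (nat_lit 0xbc000178000303e35) b15646 (.one (nat_lit 3) (nat_lit 2) (nat_lit 62) (nat_lit 0xbc000178000302d6e) b15647 (.tok (nat_lit 6) (nat_lit 0xbc000178000302b10) (.hit (nat_lit 5) (nat_lit 65) (nat_lit 0xbc000178000302b10) b15648 (.hit (nat_lit 6) (nat_lit 66) (nat_lit 0xbc00017800030102e) b15649 (.nil))) (.tok (nat_lit 9) (nat_lit 0xbc000178000306840) (.hit (nat_lit 3) (nat_lit 63) (nat_lit 0xbc000178000306840) b15650 (.hit (nat_lit 4) (nat_lit 64) (nat_lit 0xbc00017800030261f) b15651 (.nil))) (.nil))))) (.one (nat_lit 17) (nat_lit 7) (nat_lit 67) (nat_lit 0xbc000178000301dc8) b15652 (.tok (nat_lit 20) (nat_lit 0xbc0001780003059d7) (.hit (nat_lit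 8) (nat_lit 68) (nat_lit 0xbc0001780003059d7) b15655 (.hit (nat_lit 9) (nat_lit 69) (nat_lit 0xbc000178000301ba5) b15656 (.nil))) (.tok (nat_lit 23) (nat_lit 0xbc000178000301655) (.hit (nat_lit 10) (nat_lit 70) (nat_lit 0xbc000178000301655) b15653 (.hit (nat_lit 11) (nat_lit 71) (nat_lit 0xbc0001780003010d2) b15654 (.nil))) (.one (nat_lit 38) (nat_lit 12) (nat_lit 76) (nat_lit 0xbc0001780003025b3) b15657 (.tok (nat_lit 41) (nat_lit 0xbc000178000301a21) (.hit (nat_lit 13) (nat_lit 77) (nat_lit 0xbc0001780003006bd) b15658 (.hit (nat_lit 14) (nat_lit 78) (nat_lit 0xbc000178000301a21) b15659 (.nil))) (.tok (nat_lit 44) (nat_lit 0xbc000178000302cc4) (.hit (nat_lit 15) (nat_lit 79) (nat_lit 0xbc000178000302cc4) b15662 (.hit (nat_lit 16) (nat_lit 80) (nat_lit 0xbc00017800030162f) b15663 (.nil))) (.tok (nat_lit 47) (nat_lit 0xbc0001780003012cc) (.hit (nat_lit 17) (nat_lit 81) (nat_lit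 0xbc0001780003006ba) b15660 (.hit (nat_lit 18) (nat_lit 82) (nat_lit 0xbc0001780003012cc) b15661 (.nil))) (.one (nat_lit 62) (nat_lit 19) (nat_lit 92) (nat_lit 0xbc0001780003021f3) b15664 (.tok (nat_lit 65) (nat_lit 0xbc000178000301c3b) (.hit (nat_lit 20) (nat_lit 93) (nat_lit 0xbc000178000300b0f) b15665 (.hit (nat_lit 21) (nat_lit 94) (nat_lit 0xbc000178000301c3b) b15666 (.nil))) (.tok (nat_lit 68) (nat_lit 0xbc000178000303ac8) (.hit (nat_lit 22) (nat_lit 95) (nat_lit 0xbc000178000303ac8) b15667 (.one (nat_lit 3) (nat_lit 26) (nat_lit 99) (nat_lit 0xbc000178000301db2) b15671 (.one (nat_lit 6) (nat_lit 23) (nat_lit 96) (nat_lit 0xbc000178000302110) b15668 (.tok (nat_lit 9) (nat_lit 0xbc000178000301675) (.hit (nat_lit 24) (nat_lit 97) (nat_lit 0xbc000178000301675) b15669 (.hit (nat_lit 25) (nat_lit 98) (nat_lit 0xbc000178000301070) b15670 (.nil))) (.nil))))) (.one (nat_lit 71)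 (nat_lit 27) (nat_lit 100) (nat_lit 0xbc000178000300574) b15672 (.nil)))))))))))))) (.nil)
noncomputable def r20_77 : Rw Blk := .tok (nat_lit 6) (nat_lit 0xbc000178000303be8) (.hit (nat_lit 18) (nat_lit 0) (nat_lit 0xbc0001780002fe796) b15691 (.tok (nat_lit 14) (nat_lit 0xbc000178000303be8) (.hit (nat_lit 19) (nat_lit 61) (nat_lit 0xbc000178000300c96) b15692 (.one (nat_lit 3) (nat_lit 20) (nat_lit 62) (nat_lit 0xbc0001780002ffa76) b15693 (.tok (nat_lit 6) (nat_lit 0xbc0001780002fefc1) (.hit (nat_lit 23) (nat_lit 65) (nat_lit 0xbc0001780002fea91) b15694 (.hit (nat_lit 24) (nat_lit 66) (nat_lit 0xbc0001780002fefc1) b15695 (.nil))) (.tok (nat_lit 9) (nat_lit 0xbc000178000303be8) (.hit (nat_lit 21) (nat_lit 63) (nat_lit 0xbc000178000303be8) b15696 (.hit (nat_lit 22) (nat_lit 64) (nat_lit 0xbc0001780002ffba8) b15697 (.nil))) (.nil))))) (.one (nat_lit 17) (nat_lit 25) (nat_lit 67)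 (nat_lit 0xbc0001780002ff225) b15698 (.tok (nat_lit 20) (nat_lit 0xbc000178000301c5e) (.hit (nat_lit 26) (nat_lit 68) (nat_lit 0xbc000178000301c5e) b15701 (.hit (nat_lit 27) (nat_lit 69) (nat_lit 0xbc0001780002fedcc) b15702 (.nil))) (.tok (nat_lit 23) (nat_lit 0xbc0001780002fef4e) (.hit (nat_lit 28) (nat_lit 70) (nat_lit 0xbc0001780002fded3) b15699 (.hit (nat_lit 29) (nat_lit 71) (nat_lit 0xbc0001780002fef4e) b15700 (.nil))) (.one (nat_lit 26) (nat_lit 30) (nat_lit 72) (nat_lit 0xbc0001780002ff202) b15703 (.one (nat_lit 29) (nat_lit 31) (nat_lit 73) (nat_lit 0xbc0001780002ff36e) b15704 (.one (nat_lit 32) (nat_lit 32) (nat_lit 74) (nat_lit 0xbc0001780002fea64) b15706 (.one (nat_lit 35) (nat_lit 33) (nat_lit 75) (nat_lit 0xbc0001780002ffa68) b15705 (.one (nat_lit 38) (nat_lit 34) (nat_lit 76) (nat_lit 0xbc0001780002fedf3) b15707 (.tok (nat_lit 41) (nat_lit 0xbc0001780002febbe)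 (.hit (nat_lit 35) (nat_lit 77) (nat_lit 0xbc0001780002fe16e) b15708 (.hit (nat_lit 36) (nat_lit 78) (nat_lit 0xbc0001780002febbe) b15709 (.nil))) (.tok (nat_lit 44) (nat_lit 0xbc0001780002fe49e) (.hit (nat_lit 37) (nat_lit 79) (nat_lit 0xbc0001780002fe098) b15712 (.hit (nat_lit 38) (nat_lit 80) (nat_lit 0xbc0001780002fe49e) b15713 (.nil))) (.tok (nat_lit 47) (nat_lit 0xbc0001780002febaf) (.hit (nat_lit 39) (nat_lit 81) (nat_lit 0xbc0001780002fc538) b15710 (.hit (nat_lit 40) (nat_lit 82) (nat_lit 0xbc0001780002febaf) b15711 (.nil))) (.one (nat_lit 62) (nat_lit 41) (nat_lit 92) (nat_lit 0xbc0001780002ff4f4) b15714 (.tok (nat_lit 65) (nat_lit 0xbc0001780002ff044) (.hit (nat_lit 42) (nat_lit 93) (nat_lit 0xbc0001780002fe836) b15715 (.hit (nat_lit 43) (nat_lit 94) (nat_lit 0xbc0001780002ff044) b15716 (.nil))) (.tok (nat_lit 68) (nat_lit 0xbc00017800030049a) (.hit (nat_lit 44) (nat_lit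 95) (nat_lit 0xbc00017800030049a) b15717 (.one (nat_lit 3) (nat_lit 48) (nat_lit 99) (nat_lit 0xbc0001780002fde67) b15721 (.one (nat_lit 6) (nat_lit 45) (nat_lit 96) (nat_lit 0xbc0001780002fea91) b15718 (.tok (nat_lit 9) (nat_lit 0xbc0001780002feafd) (.hit (nat_lit 46) (nat_lit 97) (nat_lit 0xbc0001780002feafd) b15719 (.hit (nat_lit 47) (nat_lit 98) (nat_lit 0xbc0001780002fd198) b15720 (.nil))) (.nil))))) (.one (nat_lit 71) (nat_lit 49) (nat_lit 100) (nat_lit 0xbc0001780002febdb) b15722 (.nil)))))))))))))))))) (.tok (nat_lit 52) (nat_lit 0xbc000178000302e94) (.hit (nat_lit 13) (nat_lit 0) (nat_lit 0xbc000178000301f7e) b15686 (.tok (nat_lit 6) (nat_lit 0xbc000178000302e94) (.hit (nat_lit 14) (nat_lit 7) (nat_lit 0xbc000178000302afb) b15689 (.hit (nat_lit 15) (nat_lit 15) (nat_lit 0xbc000178000302e94) b15690 (.nil))) (.tok (nat_lit 9) (nat_lit 0xbc00017800030076a) (.hit (nat_lit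 16) (nat_lit 20) (nat_lit 0xbc0001780002ff317) b15687 (.hit (nat_lit 17) (nat_lit 28) (nat_lit 0xbc00017800030076a) b15688 (.nil))) (.nil)))) (.tok (nat_lit 55) (nat_lit 0xbc000178000301012) (.hit (nat_lit 8) (nat_lit 0) (nat_lit 0xbc000178000300136) b15681 (.tok (nat_lit 3) (nat_lit 0xbc000178000301012) (.hit (nat_lit 9) (nat_lit 1) (nat_lit 0xbc0001780002ffa52) b15682 (.one (nat_lit 67) (nat_lit 10) (nat_lit 2) (nat_lit 0xbc000178000301012) b15683 (.nil))) (.tok (nat_lit 6) (nat_lit 0xbc0001780002ffab8) (.hit (nat_lit 11) (nat_lit 7) (nat_lit 0xbc0001780002ffab8) b15684 (.hit (nat_lit 12) (nat_lit 15) (nat_lit 0xbc0001780002fee5b) b15685 (.nil))) (.nil)))) (.tok (nat_lit 58) (nat_lit 0xbc000178000301f2d) (.hit (nat_lit 0) (nat_lit 0) (nat_lit 0xbc0001780003008fa) b15673 (.tok (nat_lit 3) (nat_lit 0xbc000178000301480) (.hit (nat_lit 1) (nat_lit 1) (nat_lit 0xbc000178000300391)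 b15674 (.one (nat_lit 55) (nat_lit 2) (nat_lit 3) (nat_lit 0xbc000178000301480) b15675 (.nil))) (.tok (nat_lit 9) (nat_lit 0xbc000178000301f2d) (.hit (nat_lit 3) (nat_lit 20) (nat_lit 0xbc000178000301010) b15676 (.hit (nat_lit 6) (nat_lit 28) (nat_lit 0xbc0001780003002e5) b15679 (.tok (nat_lit 67) (nat_lit 0xbc000178000301f2d) (.hit (nat_lit 4) (nat_lit 21) (nat_lit 0xbc0001780003019f0) b15677 (.hit (nat_lit 7) (nat_lit 29) (nat_lit 0xbc0001780003013f2) b15680 (.one (nat_lit 9) (nat_lit 5) (nat_lit 22) (nat_lit 0xbc000178000301f2d) b15678 (.nil)))) (.nil)))) (.nil)))) (.nil))))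
noncomputable def r20_78 : Rw Blk := .tok (nat_lit 3) (nat_lit 0xbc000178000304065) (.hit (nat_lit 0) (nat_lit 0) (nat_lit 0xbc0001780003029a0) b15723 (.tok (nat_lit 9) (nat_lit 0xbc000178000301924) (.hit (nat_lit 1) (nat_lit 20) (nat_lit 0xbc0001780002ff270) b15724 (.hit (nat_lit 6) (nat_lit 28) (nat_lit 0xbc0001780002fe927) b15729 (.tok (nat_lit 14) (nat_lit 0xbc000178000300f57) (.hit (nat_lit 2) (nat_lit 24) (nat_lit 0xbc000178000300b7d) b15725 (.hit (nat_lit 7) (nat_lit 30) (nat_lit 0xbc0001780003000bc) b15730 (.one (nat_lit 6) (nat_lit 3) (nat_lit 25) (nat_lit 0xbc000178000300f57) b15726 (.nil)))) (.tok (nat_lit 68) (nat_lit 0xbc000178000301924) (.hit (nat_lit 4) (nat_lit 26) (nat_lit 0xbc000178000300526) b15727 (.hit (nat_lit 8) (nat_lit 32) (nat_lit 0xbc0001780002ffd52) b15731 (.one (nat_lit 9) (nat_lit 5) (nat_lit 27) (nat_lit 0xbc000178000301924) b15728 (.nil)))) (.nil)))))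 (.tok (nat_lit 64) (nat_lit 0xbc000178000301984) (.hit (nat_lit 9) (nat_lit 50) (nat_lit 0xbc000178000301984) b15732 (.hit (nat_lit 10) (nat_lit 51) (nat_lit 0xbc000178000300bf3) b15733 (.nil))) (.tok (nat_lit 67) (nat_lit 0xbc000178000304065) (.hit (nat_lit 11) (nat_lit 52) (nat_lit 0xbc000178000304065) b15734 (.tok (nat_lit 3) (nat_lit 0xbc000178000301b06) (.hit (nat_lit 17) (nat_lit 58) (nat_lit 0xbc000178000301890) b15740 (.one (nat_lit 55) (nat_lit 18) (nat_lit 59) (nat_lit 0xbc000178000301b06) b15741 (.nil))) (.tok (nat_lit 9) (nat_lit 0xbc000178000301af4) (.hit (nat_lit 12) (nat_lit 53) (nat_lit 0xbc0001780003015a3) b15735 (.hit (nat_lit 15) (nat_lit 56) (nat_lit 0xbc00017800030102d) b15738 (.tok (nat_lit 67) (nat_lit 0xbc000178000301af4) (.hit (nat_lit 13) (nat_lit 54) (nat_lit 0xbc000178000301af4) b15736 (.hit (nat_lit 16) (nat_lit 57) (nat_lit 0xbc0001780003015a0) b15739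 (.one (nat_lit 9) (nat_lit 14) (nat_lit 55) (nat_lit 0xbc000178000301989) b15737 (.nil)))) (.nil)))) (.nil)))) (.one (nat_lit 70) (nat_lit 19) (nat_lit 60) (nat_lit 0xbc0001780002ffed8) b15742 (.nil)))))) (.tok (nat_lit 6) (nat_lit 0xbc000178000305f2e) (.hit (nat_lit 20) (nat_lit 0) (nat_lit 0xbc0001780003027c2) b15743 (.tok (nat_lit 6) (nat_lit 0xbc000178000305f2e) (.hit (nat_lit 21) (nat_lit 7) (nat_lit 0xbc000178000303576) b15744 (.hit (nat_lit 24) (nat_lit 15) (nat_lit 0xbc000178000300a7d) b15747 (.tok (nat_lit 14) (nat_lit 0xbc000178000305f2e) (.hit (nat_lit 22) (nat_lit 11) (nat_lit 0xbc000178000305f2e) b15745 (.hit (nat_lit 25) (nat_lit 17) (nat_lit 0xbc000178000301b6e) b15748 (.one (nat_lit 9) (nat_lit 23) (nat_lit 12) (nat_lit 0xbc000178000304103) b15746 (.nil)))) (.one (nat_lit 68) (nat_lit 26) (nat_lit 18) (nat_lit 0xbc000178000302ee0) b15749 (.nil))))) (.nil))) (.nil))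
noncomputable def r20_79 : Rw Blk := .tok (nat_lit 9) (nat_lit 0xbc000178000301e0c) (.hit (nat_lit 21) (nat_lit 0) (nat_lit 0xbc0001780002ff6e8) b15771 (.tok (nat_lit 14) (nat_lit 0xbc0001780003019e7) (.hit (nat_lit 22) (nat_lit 61) (nat_lit 0xbc000178000300632) b15772 (.one (nat_lit 3) (nat_lit 23) (nat_lit 62) (nat_lit 0xbc0001780002fffa5) b15773 (.tok (nat_lit 6) (nat_lit 0xbc0001780003019e7) (.hit (nat_lit 26) (nat_lit 65) (nat_lit 0xbc0001780003019e7) b15774 (.hit (nat_lit 27) (nat_lit 66) (nat_lit 0xbc0001780003003b2) b15775 (.nil))) (.tok (nat_lit 9) (nat_lit 0xbc0001780002ff9c5) (.hit (nat_lit 24) (nat_lit 63) (nat_lit 0xbc0001780002fe8c0) b15776 (.hit (nat_lit 25) (nat_lit 64) (nat_lit 0xbc0001780002ff9c5) b15777 (.nil))) (.nil))))) (.one (nat_lit 17) (nat_lit 28) (nat_lit 67) (nat_lit 0xbc000178000300268) b15778 (.tok (nat_lit 20) (nat_lit 0xbc0001780003006d6) (.hit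 (nat_lit 29) (nat_lit 68) (nat_lit 0xbc0001780002fda8d) b15781 (.hit (nat_lit 30) (nat_lit 69) (nat_lit 0xbc0001780003006d6) b15782 (.nil))) (.tok (nat_lit 23) (nat_lit 0xbc0001780003001f7) (.hit (nat_lit 31) (nat_lit 70) (nat_lit 0xbc0001780003001f7) b15779 (.hit (nat_lit 32) (nat_lit 71) (nat_lit 0xbc0001780002ff6ee) b15780 (.nil))) (.one (nat_lit 26) (nat_lit 33) (nat_lit 72) (nat_lit 0xbc0001780002ffce6) b15783 (.one (nat_lit 29) (nat_lit 34) (nat_lit 73) (nat_lit 0xbc0001780002fefa9) b15784 (.one (nat_lit 32) (nat_lit 35) (nat_lit 74) (nat_lit 0xbc0001780003004c7) b15786 (.one (nat_lit 35) (nat_lit 36) (nat_lit 75) (nat_lit 0xbc0001780002febca) b15785 (.one (nat_lit 50) (nat_lit 37) (nat_lit 83) (nat_lit 0xbc0001780002ff879) b15796 (.tok (nat_lit 53) (nat_lit 0xbc0001780002ffdbc) (.hit (nat_lit 38) (nat_lit 84) (nat_lit 0xbc0001780002ff235) b15797 (.hit (nat_lit 39) (nat_lit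 85) (nat_lit 0xbc0001780002ffdbc) b15798 (.nil))) (.tok (nat_lit 56) (nat_lit 0xbc000178000300222) (.hit (nat_lit 40) (nat_lit 86) (nat_lit 0xbc000178000300222) b15799 (.one (nat_lit 3) (nat_lit 44) (nat_lit 90) (nat_lit 0xbc0001780002fdc62) b15803 (.tok (nat_lit 6) (nat_lit 0xbc0001780002fe9d2) (.hit (nat_lit 42) (nat_lit 88) (nat_lit 0xbc0001780002fe9d2) b15801 (.hit (nat_lit 43) (nat_lit 89) (nat_lit 0xbc0001780002fe16d) b15802 (.nil))) (.one (nat_lit 9) (nat_lit 41) (nat_lit 87) (nat_lit 0xbc0001780002fe13c) b15800 (.nil))))) (.one (nat_lit 59) (nat_lit 45) (nat_lit 91) (nat_lit 0xbc0001780002ff928) b15804 (.one (nat_lit 62) (nat_lit 46) (nat_lit 92) (nat_lit 0xbc0001780002fe98e) b15787 (.tok (nat_lit 65) (nat_lit 0xbc0001780002ffa68) (.hit (nat_lit 47) (nat_lit 93) (nat_lit 0xbc0001780002ffa68) b15788 (.hit (nat_lit 48) (nat_lit 94) (nat_lit 0xbc0001780002fe2ce) b15789 (.nil)))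 (.tok (nat_lit 68) (nat_lit 0xbc000178000301e0c) (.hit (nat_lit 49) (nat_lit 95) (nat_lit 0xbc000178000301756) b15790 (.one (nat_lit 3) (nat_lit 53) (nat_lit 99) (nat_lit 0xbc00017800030081c) b15794 (.one (nat_lit 6) (nat_lit 50) (nat_lit 96) (nat_lit 0xbc000178000301e0c) b15791 (.tok (nat_lit 9) (nat_lit 0xbc0001780003005b1) (.hit (nat_lit 51) (nat_lit 97) (nat_lit 0xbc0001780003005b1) b15792 (.hit (nat_lit 52) (nat_lit 98) (nat_lit 0xbc0001780002fec01) b15793 (.nil))) (.nil))))) (.one (nat_lit 71) (nat_lit 54) (nat_lit 100) (nat_lit 0xbc0001780002fe271) b15795 (.nil)))))))))))))))))) (.tok (nat_lit 64) (nat_lit 0xbc000178000302331) (.hit (nat_lit 16) (nat_lit 0) (nat_lit 0xbc000178000301dea) b15766 (.tok (nat_lit 6) (nat_lit 0xbc000178000302286) (.hit (nat_lit 17) (nat_lit 7) (nat_lit 0xbc0001780002ffece) b15769 (.hit (nat_lit 18) (nat_lit 15) (nat_lit 0xbc000178000302286)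 b15770 (.nil))) (.tok (nat_lit 9) (nat_lit 0xbc000178000302331) (.hit (nat_lit 19) (nat_lit 20) (nat_lit 0xbc000178000302331) b15767 (.hit (nat_lit 20) (nat_lit 28) (nat_lit 0xbc000178000301a85) b15768 (.nil))) (.nil)))) (.tok (nat_lit 67) (nat_lit 0xbc000178000301dda) (.hit (nat_lit 8) (nat_lit 0) (nat_lit 0xbc000178000301dda) b15758 (.tok (nat_lit 3) (nat_lit 0xbc00017800030077a) (.hit (nat_lit 9) (nat_lit 1) (nat_lit 0xbc0001780003003a6) b15759 (.one (nat_lit 55) (nat_lit 10) (nat_lit 3) (nat_lit 0xbc00017800030077a) b15760 (.nil))) (.tok (nat_lit 9) (nat_lit 0xbc000178000300cbd) (.hit (nat_lit 11) (nat_lit 20) (nat_lit 0xbc0001780002ffce1) b15761 (.hit (nat_lit 14) (nat_lit 28) (nat_lit 0xbc0001780002ff245) b15764 (.tok (nat_lit 67) (nat_lit 0xbc000178000300cbd) (.hit (nat_lit 12) (nat_lit 21) (nat_lit 0xbc0001780002ffe26) b15762 (.hit (nat_lit 15) (nat_lit 29) (nat_lit 0xbc000178000300cbd)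 b15765 (.one (nat_lit 9) (nat_lit 13) (nat_lit 22) (nat_lit 0xbc000178000300782) b15763 (.nil)))) (.nil)))) (.nil)))) (.tok (nat_lit 70) (nat_lit 0xbc000178000301f44) (.hit (nat_lit 0) (nat_lit 0) (nat_lit 0xbc0001780003008ca) b15750 (.tok (nat_lit 3) (nat_lit 0xbc0001780003013cc) (.hit (nat_lit 1) (nat_lit 1) (nat_lit 0xbc000178000300d6a) b15751 (.one (nat_lit 67) (nat_lit 2) (nat_lit 2) (nat_lit 0xbc0001780003013cc) b15752 (.nil))) (.tok (nat_lit 6) (nat_lit 0xbc000178000301f44) (.hit (nat_lit 3) (nat_lit 7) (nat_lit 0xbc000178000300b82) b15753 (.hit (nat_lit 6) (nat_lit 15) (nat_lit 0xbc000178000300668) b15756 (.tok (nat_lit 55) (nat_lit 0xbc000178000301f44) (.hit (nat_lit 4) (nat_lit 8) (nat_lit 0xbc000178000301545) b15754 (.hit (nat_lit 7) (nat_lit 16) (nat_lit 0xbc000178000301785) b15757 (.one (nat_lit 6) (nat_lit 5) (nat_lit 9) (nat_lit 0xbc000178000301f44) b15755 (.nil))))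 (.nil)))) (.nil)))) (.nil))))
noncomputable def r20_80 : Rw Blk := .tok (nat_lit 3) (nat_lit 0xbc00017800030474c) (.hit (nat_lit 0) (nat_lit 0) (nat_lit 0xbc000178000303250) b15805 (.tok (nat_lit 6) (nat_lit 0xbc000178000302763) (.hit (nat_lit 1) (nat_lit 7) (nat_lit 0xbc000178000300bda) b15806 (.hit (nat_lit 4) (nat_lit 15) (nat_lit 0xbc0001780002ff047) b15809 (.tok (nat_lit 56) (nat_lit 0xbc000178000302763) (.hit (nat_lit 2) (nat_lit 13) (nat_lit 0xbc000178000300aa8) b15807 (.hit (nat_lit 6) (nat_lit 19) (nat_lit 0xbc000178000300544) b15811 (.one (nat_lit 6) (nat_lit 3) (nat_lit 14) (nat_lit 0xbc000178000302763) b15808 (.nil)))) (.one (nat_lit 68) (nat_lit 5) (nat_lit 18) (nat_lit 0xbc000178000300c7e) b15810 (.nil))))) (.tok (nat_lit 52) (nat_lit 0xbc000178000301c69) (.hit (nat_lit 7) (nat_lit 39) (nat_lit 0xbc000178000301c1d) b15812 (.hit (nat_lit 8) (nat_lit 40) (nat_lit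 0xbc000178000301c69) b15813 (.nil))) (.tok (nat_lit 55) (nat_lit 0xbc00017800030474c) (.hit (nat_lit 9) (nat_lit 41) (nat_lit 0xbc00017800030474c) b15814 (.one (nat_lit 3) (nat_lit 15) (nat_lit 47) (nat_lit 0xbc000178000302300) b15820 (.tok (nat_lit 6) (nat_lit 0xbc000178000302d22) (.hit (nat_lit 10) (nat_lit 42) (nat_lit 0xbc000178000302d22) b15815 (.hit (nat_lit 13) (nat_lit 45) (nat_lit 0xbc0001780003020ba) b15818 (.tok (nat_lit 55) (nat_lit 0xbc000178000302c74) (.hit (nat_lit 11) (nat_lit 43) (nat_lit 0xbc000178000302c74) b15816 (.hit (nat_lit 14) (nat_lit 46) (nat_lit 0xbc000178000302458) b15819 (.one (nat_lit 6) (nat_lit 12) (nat_lit 44) (nat_lit 0xbc000178000301ef5) b15817 (.nil)))) (.nil)))) (.nil)))) (.one (nat_lit 58) (nat_lit 16) (nat_lit 49) (nat_lit 0xbc0001780003017e3) b15821 (.nil)))))) (.tok (nat_lit 9) (nat_lit 0xbc000178000305179) (.hit (nat_lit 17) (nat_lit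 0) (nat_lit 0xbc000178000303ffe) b15822 (.tok (nat_lit 9) (nat_lit 0xbc00017800030343f) (.hit (nat_lit 18) (nat_lit 20) (nat_lit 0xbc00017800030343f) b15823 (.hit (nat_lit 19) (nat_lit 28) (nat_lit 0xbc000178000300818) b15824 (.one (nat_lit 56) (nat_lit 20) (nat_lit 31) (nat_lit 0xbc00017800030330d) b15825 (.nil)))) (.tok (nat_lit 64) (nat_lit 0xbc000178000304b5e) (.hit (nat_lit 21) (nat_lit 50) (nat_lit 0xbc000178000304b5e) b15826 (.hit (nat_lit 22) (nat_lit 51) (nat_lit 0xbc000178000304b19) b15827 (.nil))) (.tok (nat_lit 67) (nat_lit 0xbc000178000305092) (.hit (nat_lit 23) (nat_lit 52) (nat_lit 0xbc000178000305092) b15828 (.one (nat_lit 3) (nat_lit 26) (nat_lit 58) (nat_lit 0xbc0001780003041ab) b15831 (.tok (nat_lit 9) (nat_lit 0xbc0001780003037cb) (.hit (nat_lit 24) (nat_lit 53) (nat_lit 0xbc0001780003035d6) b15829 (.hit (nat_lit 25) (nat_lit 56) (nat_lit 0xbc0001780003037cb)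 b15830 (.nil))) (.nil)))) (.one (nat_lit 70) (nat_lit 27) (nat_lit 60) (nat_lit 0xbc000178000305179) b15832 (.nil)))))) (.nil))
noncomputable def r20_81 : Rw Blk := .tok (nat_lit 3) (nat_lit 0xbc0001780002fe9d5) (.hit (nat_lit 15) (nat_lit 0) (nat_lit 0xbc0001780002fda70) b15848 (.tok (nat_lit 6) (nat_lit 0xbc0001780002fd15a) (.hit (nat_lit 16) (nat_lit 7) (nat_lit 0xbc0001780002fac89) b15849 (.hit (nat_lit 21) (nat_lit 15) (nat_lit 0xbc0001780002f970a) b15854 (.tok (nat_lit 14) (nat_lit 0xbc0001780002fcd38) (.hit (nat_lit 17) (nat_lit 11) (nat_lit 0xbc0001780002fbfc2) b15850 (.hit (nat_lit 22) (nat_lit 17) (nat_lit 0xbc0001780002fcd38) b15855 (.one (nat_lit 9) (nat_lit 18) (nat_lit 12) (nat_lit 0xbc0001780002fc953) b15851 (.nil)))) (.tok (nat_lit 56) (nat_lit 0xbc0001780002fd15a) (.hit (nat_lit 19) (nat_lit 13) (nat_lit 0xbc0001780002fc023) b15852 (.hit (nat_lit 24) (nat_lit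 19) (nat_lit 0xbc0001780002fc9ab) b15857 (.one (nat_lit 6) (nat_lit 20) (nat_lit 14) (nat_lit 0xbc0001780002fd15a) b15853 (.nil)))) (.one (nat_lit 68) (nat_lit 23) (nat_lit 18) (nat_lit 0xbc0001780002fbfce) b15856 (.nil)))))) (.tok (nat_lit 52) (nat_lit 0xbc0001780002fd74e) (.hit (nat_lit 25) (nat_lit 39) (nat_lit 0xbc0001780002fd038) b15858 (.hit (nat_lit 26) (nat_lit 40) (nat_lit 0xbc0001780002fd74e) b15859 (.nil))) (.tok (nat_lit 55) (nat_lit 0xbc0001780002fe9d5) (.hit (nat_lit 27) (nat_lit 41) (nat_lit 0xbc0001780002fe28b) b15860 (.tok (nat_lit 3) (nat_lit 0xbc0001780002fde5d) (.hit (nat_lit 33) (nat_lit 47) (nat_lit 0xbc0001780002fde5d) b15866 (.one (nat_lit 67) (nat_lit 34) (nat_lit 48) (nat_lit 0xbc0001780002fd41f) b15867 (.nil))) (.tok (nat_lit 6) (nat_lit 0xbc0001780002fe9d5) (.hit (nat_lit 28) (nat_lit 42) (nat_lit 0xbc0001780002fdf4e) b15861 (.hit (nat_lit 31) (nat_lit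 45) (nat_lit 0xbc0001780002fdb8a) b15864 (.tok (nat_lit 55) (nat_lit 0xbc0001780002fe9d5) (.hit (nat_lit 29) (nat_lit 43) (nat_lit 0xbc0001780002fe9d5) b15862 (.hit (nat_lit 32) (nat_lit 46) (nat_lit 0xbc0001780002fdbff) b15865 (.one (nat_lit 6) (nat_lit 30) (nat_lit 44) (nat_lit 0xbc0001780002fe882) b15863 (.nil)))) (.nil)))) (.nil)))) (.one (nat_lit 58) (nat_lit 35) (nat_lit 49) (nat_lit 0xbc0001780002fddd0) b15868 (.nil)))))) (.tok (nat_lit 9) (nat_lit 0xbc000178000301bef) (.hit (nat_lit 0) (nat_lit 0) (nat_lit 0xbc0001780002fe079) b15833 (.tok (nat_lit 9) (nat_lit 0xbc0001780002ff449) (.hit (nat_lit 1) (nat_lit 20) (nat_lit 0xbc0001780002fd455) b15834 (.hit (nat_lit 4) (nat_lit 28) (nat_lit 0xbc0001780002fd51b) b15837 (.tok (nat_lit 14) (nat_lit 0xbc0001780002ff449) (.hit (nat_lit 2) (nat_lit 24) (nat_lit 0xbc0001780002ff449) b15835 (.hit (nat_lit 5) (nat_lit 30) (nat_lit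 0xbc0001780002fda2f) b15838 (.one (nat_lit 6) (nat_lit 3) (nat_lit 25) (nat_lit 0xbc0001780002ff3dc) b15836 (.nil)))) (.one (nat_lit 56) (nat_lit 6) (nat_lit 31) (nat_lit 0xbc0001780002fd805) b15839 (.nil))))) (.tok (nat_lit 64) (nat_lit 0xbc0001780002fe419) (.hit (nat_lit 7) (nat_lit 50) (nat_lit 0xbc0001780002fe419) b15840 (.hit (nat_lit 8) (nat_lit 51) (nat_lit 0xbc0001780002fdd66) b15841 (.nil))) (.tok (nat_lit 67) (nat_lit 0xbc000178000301bef) (.hit (nat_lit 9) (nat_lit 52) (nat_lit 0xbc0001780002ffe15) b15842 (.tok (nat_lit 3) (nat_lit 0xbc000178000301bef) (.hit (nat_lit 12) (nat_lit 58) (nat_lit 0xbc0001780003014fd) b15845 (.one (nat_lit 55) (nat_lit 13) (nat_lit 59) (nat_lit 0xbc000178000301bef) b15846 (.nil))) (.tok (nat_lit 9) (nat_lit 0xbc0001780002feaae) (.hit (nat_lit 10) (nat_lit 53) (nat_lit 0xbc0001780002feaae) b15843 (.hit (nat_lit 11) (nat_lit 56) (nat_lit 0xbc0001780002fe312)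 b15844 (.nil))) (.nil)))) (.one (nat_lit 70) (nat_lit 14) (nat_lit 60) (nat_lit 0xbc0001780002fd04c) b15847 (.nil)))))) (.nil))
noncomputable def r20_82 : Rw Blk := .tok (nat_lit 3) (nat_lit 0x2fd2835fac88bf598d7e9562fd2ab5fd6fcbfc3757ecb0afda6c) (.hit (nat_lit 0) (nat_lit 0) (nat_lit 0x2fd0f05f90b4bf530d7e9562fd2ab5fd640bfb1317ecb0afda6c) b35990 (.tok (nat_lit 6) (nat_lit 0x2fd2835fac88bf598d7e6de2fcbf55fd6fcbfc3757e860afd431) (.hit (nat_lit 1) (nat_lit 7) (nat_lit 0x2fd2805fac88bf598d7e6dcafcbf25fd6fcbfc3757e85f2fd42e) b15872 (.hit (nat_lit 2) (nat_lit 15) (nat_lit 0x2fd2835f857abf48657e6de2fcbf55fab8ebf743d7e860afd431) b15873 (.nil))) (.tok (nat_lit 9) (nat_lit 0x2fd2835fac88bf598d7e6de2fcbf55fc8f0bfa8817e860afd431) (.hit (nat_lit 3) (nat_lit 20) (nat_lit 0x2fd2805fac88bf598d7e6dcafcbf25f9576bf38a97e85f2fd42e) b15870 (.hit (nat_lit 4) (nat_lit 28) (nat_lit 0x2fd2835f857abf48657e6de2fcbf55fc8f0bfa8817e860afd431)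 b15871 (.nil))) (.nil)))) (.tok (nat_lit 6) (nat_lit 0x300000600ec8c047d57fb4daff5f66049c2c0732d80000300000) (.hit (nat_lit 14) (nat_lit 0) (nat_lit 0x2fe8345fbbb2bf7ba57f1b5afe7b45fcaa8bfa8497f73e2ff188) b15874 (.tok (nat_lit 3) (nat_lit 0x2ff0db5fe182bfdb597f50e2ff229600898c003597f4dcaff03c) (.hit (nat_lit 15) (nat_lit 1) (nat_lit 0x2fd90e5fa56cbf53297eb99afd7325fcb68bf8bb17ee8d2fdc23) b15875 (.one (nat_lit 67) (nat_lit 16) (nat_lit 2) (nat_lit 0x2ff0db5fe182bfdb597f50e2ff229600898c003597f4dcaff03c) b15876 (.nil))) (.tok (nat_lit 6) (nat_lit 0x300000600ec8c047d57fb4daff5f66049c2c0732d80000300000) (.hit (nat_lit 17) (nat_lit 7) (nat_lit 0x2fe1515fc3b6bf7d797ec79afd8f25fc1a0bfb9997f06a2fe1bf) b15877 (.hit (nat_lit 21) (nat_lit 15) (nat_lit 0x2fd6765fa33abf6fa17ea4dafd49a5fcbb0bf81297ed412fd98b) b15881 (.tok (nat_lit 55) (nat_lit 0x300000600ec8c047d57fb4daff5f66049c2c0732d80000300000)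 (.hit (nat_lit 18) (nat_lit 8) (nat_lit 0x2ffa7f5fe514bfb3f17f6982fed3b5fe8d2c02f3d7fb232ff650) b15878 (.hit (nat_lit 22) (nat_lit 16) (nat_lit 0x2ff10d600ec8c047d57f7982ff2176049c2c0732d7f4a12feb7c) b15882 (.tok (nat_lit 6) (nat_lit 0x3000005fdd9cbfead17fb4daff5f65fee90bff63180000300000) (.hit (nat_lit 19) (nat_lit 9) (nat_lit 0x2ff2825fc9b2bfbc197f570afeae05fd632bfc97d7f9cd2ff41b) b15879 (.one (nat_lit 55) (nat_lit 20) (nat_lit 10) (nat_lit 0x3000005fdd9cbfead17fb4daff5f65fee90bff63180000300000) b15880 (.nil))) (.nil)))) (.nil)))) (.nil)))) (.tok (nat_lit 9) (nat_lit 0x300000600ec8c047d5800003000005fdd26bfb8857f9162ff73f) (.hit (nat_lit 5) (nat_lit 0) (nat_lit 0x2fe8345fbbb2bf7ba57f7712ff0115fb328bf74657f545afed53) b15883 (.tok (nat_lit 3) (nat_lit 0x2ff0db5fe182bfdb59800003000005fbad0bf73d97f723afe9bd) (.hit (nat_lit 6) (nat_lit 1) (nat_lit 0x2fd90e5fa56cbf53297f297afe52f5f9f74bf3d217ee8d2fdc23)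 b15884 (.one (nat_lit 55) (nat_lit 7) (nat_lit 3) (nat_lit 0x2ff0db5fe182bfdb59800003000005fbad0bf73d97f723afe9bd) b15885 (.nil))) (.tok (nat_lit 9) (nat_lit 0x300000600ec8c047d57fd0eaff9e25fdd26bfb8857f9162ff73f) (.hit (nat_lit 8) (nat_lit 20) (nat_lit 0x2fe1515fc3b6bf7d797f4d12fe8545faaeabf540d7f034afdfaa) b15886 (.hit (nat_lit 12) (nat_lit 28) (nat_lit 0x2fd6765fa33abf6fa17f14c2fe2975fa3a4bf45817ed412fd98b) b15890 (.tok (nat_lit 67) (nat_lit 0x300000600ec8c047d57fd0eaff9e25fdd26bfb8857f9162ff73f) (.hit (nat_lit 9) (nat_lit 21) (nat_lit 0x2ffa7f5fe514bfb3f17fb9aaff3415fc4aebf87957f6cdaff29a) b15887 (.hit (nat_lit 13) (nat_lit 29) (nat_lit 0x2ff10d600ec8c047d57fd0eaff9e25fdd26bfb8857f624afe6e6) b15891 (.tok (nat_lit 9) (nat_lit 0x3000005fdd9cbfead17faffaff4bc5fd708bfac497f9162ff73f) (.hit (nat_lit 10) (nat_lit 22) (nat_lit 0x2ff2825fc9b2bfbc197f705afee295fc79cbf8d717f4d4afeefe)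 b15888 (.one (nat_lit 67) (nat_lit 11) (nat_lit 23) (nat_lit 0x3000005fdd9cbfead17faffaff4bc5fd708bfac497f9162ff73f) b15889 (.nil))) (.nil)))) (.nil)))) (.nil)))) (.nil)))
noncomputable def r20_83 : Rw Blk := .tok (nat_lit 6) (nat_lit 0xbc00017800030062c) (.hit (nat_lit 0) (nat_lit 0) (nat_lit 0xbc0001780002fed37) b15892 (.tok (nat_lit 3) (nat_lit 0xbc0001780002ff08f) (.hit (nat_lit 1) (nat_lit 1) (nat_lit 0xbc0001780002fd18c) b15893 (.one (nat_lit 56) (nat_lit 3) (nat_lit 6) (nat_lit 0xbc0001780002fe413) b15895 (.one (nat_lit 68) (nat_lit 2) (nat_lit 5) (nat_lit 0xbc0001780002ff08f) b15894 (.nil)))) (.tok (nat_lit 40) (nat_lit 0xbc0001780002fdd48) (.hit (nat_lit 4) (nat_lit 33) (nat_lit 0xbc0001780002fdd48) b15896 (.hit (nat_lit 5) (nat_lit 34) (nat_lit 0xbc0001780002fdc41) b15897 (.nil))) (.tok (nat_lit 43) (nat_lit 0xbc0001780002ff233) (.hit (nat_lit 6) (nat_lit 35) (nat_lit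 0xbc0001780002ff233) b15898 (.hit (nat_lit 7) (nat_lit 36) (nat_lit 0xbc0001780002fe845) b15899 (.nil))) (.tok (nat_lit 46) (nat_lit 0xbc00017800030062c) (.hit (nat_lit 8) (nat_lit 37) (nat_lit 0xbc0001780002fd63a) b15900 (.hit (nat_lit 9) (nat_lit 38) (nat_lit 0xbc00017800030062c) b15901 (.nil))) (.nil)))))) (.tok (nat_lit 9) (nat_lit 0xbc00017800030062c) (.hit (nat_lit 10) (nat_lit 0) (nat_lit 0xbc0001780002fed37) b15892 (.tok (nat_lit 3) (nat_lit 0xbc0001780002ff08f) (.hit (nat_lit 11) (nat_lit 1) (nat_lit 0xbc0001780002fd18c) b15893 (.one (nat_lit 56) (nat_lit 13) (nat_lit 6) (nat_lit 0xbc0001780002ff08f) b15894 (.one (nat_lit 68) (nat_lit 12) (nat_lit 5) (nat_lit 0xbc0001780002fe413) b15895 (.nil)))) (.tok (nat_lit 40) (nat_lit 0xbc0001780002fdd48) (.hit (nat_lit 14) (nat_lit 33) (nat_lit 0xbc0001780002fdd48) b15896 (.hit (nat_lit 15) (nat_lit 34) (nat_lit 0xbc0001780002fdc41)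 b15897 (.nil))) (.tok (nat_lit 43) (nat_lit 0xbc00017800030062c) (.hit (nat_lit 16) (nat_lit 35) (nat_lit 0xbc0001780002fd63a) b15900 (.hit (nat_lit 17) (nat_lit 36) (nat_lit 0xbc00017800030062c) b15901 (.nil))) (.tok (nat_lit 46) (nat_lit 0xbc0001780002ff233) (.hit (nat_lit 18) (nat_lit 37) (nat_lit 0xbc0001780002ff233) b15898 (.hit (nat_lit 19) (nat_lit 38) (nat_lit 0xbc0001780002fe845) b15899 (.nil))) (.nil)))))) (.nil))
noncomputable def r20_84 : Rw Blk := .tok (nat_lit 3) (nat_lit 0xbc0001800862ffe45) (.hit (nat_lit 17) (nat_lit 0) (nat_lit 0xbc00017f001afdbfc) b15987 (.tok (nat_lit 6) (nat_lit 0xbc00017ede32fe079) (.hit (nat_lit 18) (nat_lit 7) (nat_lit 0xbc00017e24a2fc947) b15988 (.hit (nat_lit 21) (nat_lit 15) (nat_lit 0xbc00017e30cafcacc) b15991 (.tok (nat_lit 56) (nat_lit 0xbc00017ede32fe079) (.hit (nat_lit 19) (nat_lit 13) (nat_lit 0xbc00017ec6a2fdd87) b15989 (.hit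 (nat_lit 23) (nat_lit 19) (nat_lit 0xbc00017ea9c2fd9eb) b15993 (.one (nat_lit 6) (nat_lit 20) (nat_lit 14) (nat_lit 0xbc00017ede32fe079) b15990 (.nil)))) (.one (nat_lit 68) (nat_lit 22) (nat_lit 18) (nat_lit 0xbc00017ed27afdf02) b15992 (.nil))))) (.tok (nat_lit 52) (nat_lit 0xbc00017ec40afdd34) (.hit (nat_lit 24) (nat_lit 39) (nat_lit 0xbc00017eb1cafdaec) b15994 (.hit (nat_lit 25) (nat_lit 40) (nat_lit 0xbc00017ec40afdd34) b15995 (.nil))) (.tok (nat_lit 55) (nat_lit 0xbc0001800862ffe45) (.hit (nat_lit 26) (nat_lit 41) (nat_lit 0xbc0001800862ffe45) b15996 (.one (nat_lit 3) (nat_lit 32) (nat_lit 47) (nat_lit 0xbc00017ea522fd957) b16002 (.tok (nat_lit 6) (nat_lit 0xbc00017f0e6afe680) (.hit (nat_lit 27) (nat_lit 42) (nat_lit 0xbc00017e9caafd848) b15997 (.hit (nat_lit 30) (nat_lit 45) (nat_lit 0xbc00017e8c82fd643) b16000 (.tok (nat_lit 55) (nat_lit 0xbc00017f0e6afe680) (.hit (nat_lit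 28) (nat_lit 43) (nat_lit 0xbc00017f0e6afe680) b15998 (.hit (nat_lit 31) (nat_lit 46) (nat_lit 0xbc00017ef6bafe38a) b16001 (.one (nat_lit 6) (nat_lit 29) (nat_lit 44) (nat_lit 0xbc00017eed6afe260) b15999 (.nil)))) (.nil)))) (.nil)))) (.one (nat_lit 58) (nat_lit 33) (nat_lit 49) (nat_lit 0xbc00017eb982fdbe3) b16003 (.nil)))))) (.tok (nat_lit 9) (nat_lit 0xbc00018147c303133) (.hit (nat_lit 0) (nat_lit 0) (nat_lit 0xbc00017fc70aff380) b15970 (.tok (nat_lit 9) (nat_lit 0xbc00017ff34b013bf) (.hit (nat_lit 1) (nat_lit 20) (nat_lit 0xbc00017f960300105) b15971 (.hit (nat_lit 4) (nat_lit 28) (nat_lit 0xbc00017ee0fafd028) b15974 (.one (nat_lit 56) (nat_lit 5) (nat_lit 31) (nat_lit 0xbc00017f304afe8c7) b15975 (.tok (nat_lit 68) (nat_lit 0xbc00017ff34b013bf) (.hit (nat_lit 2) (nat_lit 26) (nat_lit 0xbc00017ff34b00059) b15972 (.hit (nat_lit 6) (nat_lit 32) (nat_lit 0xbc00017f6d9afe4de) b15976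 (.one (nat_lit 9) (nat_lit 3) (nat_lit 27) (nat_lit 0xbc00017febc3013bf) b15973 (.nil)))) (.nil))))) (.tok (nat_lit 64) (nat_lit 0xbc0001808ae300521) (.hit (nat_lit 7) (nat_lit 50) (nat_lit 0xbc00017f9d32fed47) b15977 (.hit (nat_lit 8) (nat_lit 51) (nat_lit 0xbc0001808ae300521) b15978 (.nil))) (.tok (nat_lit 67) (nat_lit 0xbc00018147c303133) (.hit (nat_lit 9) (nat_lit 52) (nat_lit 0xbc0001812e2b03133) b15979 (.one (nat_lit 3) (nat_lit 15) (nat_lit 58) (nat_lit 0xbc000180791b012d4) b15985 (.tok (nat_lit 9) (nat_lit 0xbc00018147c302647) (.hit (nat_lit 10) (nat_lit 53) (nat_lit 0xbc00018022f2ff6e0) b15980 (.hit (nat_lit 13) (nat_lit 56) (nat_lit 0xbc0001803cd302647) b15983 (.tok (nat_lit 67) (nat_lit 0xbc00018147c3020ef) (.hit (nat_lit 11) (nat_lit 54) (nat_lit 0xbc00018147c3020ef) b15981 (.hit (nat_lit 14) (nat_lit 57) (nat_lit 0xbc0001803bbb014d1) b15984 (.one (nat_lit 9) (nat_lit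 12) (nat_lit 55) (nat_lit 0xbc00018114d301c4d) b15982 (.nil)))) (.nil)))) (.nil)))) (.one (nat_lit 70) (nat_lit 16) (nat_lit 60) (nat_lit 0xbc0001808a9300eda) b15986 (.nil)))))) (.nil))
noncomputable def r20_85 : Rw Blk := .tok (nat_lit 3) (nat_lit 0xbc0001780002ff198) (.hit (nat_lit 17) (nat_lit 0) (nat_lit 0xbc0001780002fd7c3) b16021 (.tok (nat_lit 6) (nat_lit 0xbc0001780002fdeb1) (.hit (nat_lit 18) (nat_lit 7) (nat_lit 0xbc0001780002fcb6c) b16022 (.hit (nat_lit 21) (nat_lit 15) (nat_lit 0xbc0001780002fbcc9) b16025 (.tok (nat_lit 56) (nat_lit 0xbc0001780002fdeb1) (.hit (nat_lit 19) (nat_lit 13) (nat_lit 0xbc0001780002fda1b) b16023 (.hit (nat_lit 23) (nat_lit 19) (nat_lit 0xbc0001780002fc9bf) b16027 (.one (nat_lit 6) (nat_lit 20) (nat_lit 14) (nat_lit 0xbc0001780002fdeb1) b16024 (.nil)))) (.one (nat_lit 68) (nat_lit 22) (nat_lit 18) (nat_lit 0xbc0001780002fda48) b16026 (.nil)))))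 (.tok (nat_lit 52) (nat_lit 0xbc0001780002fd377) (.hit (nat_lit 24) (nat_lit 39) (nat_lit 0xbc0001780002fd23a) b16028 (.hit (nat_lit 25) (nat_lit 40) (nat_lit 0xbc0001780002fd377) b16029 (.nil))) (.tok (nat_lit 55) (nat_lit 0xbc0001780002ff198) (.hit (nat_lit 26) (nat_lit 41) (nat_lit 0xbc0001780002ff198) b16030 (.one (nat_lit 3) (nat_lit 32) (nat_lit 47) (nat_lit 0xbc0001780002fdc6a) b16036 (.tok (nat_lit 6) (nat_lit 0xbc0001780002fed37) (.hit (nat_lit 27) (nat_lit 42) (nat_lit 0xbc0001780002fdb42) b16031 (.hit (nat_lit 30) (nat_lit 45) (nat_lit 0xbc0001780002fd375) b16034 (.tok (nat_lit 55) (nat_lit 0xbc0001780002fed37) (.hit (nat_lit 28) (nat_lit 43) (nat_lit 0xbc0001780002fed37) b16032 (.hit (nat_lit 31) (nat_lit 46) (nat_lit 0xbc0001780002fdc96) b16035 (.one (nat_lit 6) (nat_lit 29) (nat_lit 44) (nat_lit 0xbc0001780002fe8cc) b16033 (.nil)))) (.nil)))) (.nil)))) (.one (nat_lit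 58) (nat_lit 33) (nat_lit 49) (nat_lit 0xbc0001780002fdf9a) b16037 (.nil)))))) (.tok (nat_lit 9) (nat_lit 0xbc000178000301eec) (.hit (nat_lit 0) (nat_lit 0) (nat_lit 0xbc0001780002fe08b) b16004 (.tok (nat_lit 9) (nat_lit 0xbc0001780002fee6b) (.hit (nat_lit 1) (nat_lit 20) (nat_lit 0xbc0001780002fd72f) b16005 (.hit (nat_lit 4) (nat_lit 28) (nat_lit 0xbc0001780002fd81c) b16008 (.one (nat_lit 56) (nat_lit 5) (nat_lit 31) (nat_lit 0xbc0001780002fea49) b16009 (.tok (nat_lit 68) (nat_lit 0xbc0001780002fee6b) (.hit (nat_lit 2) (nat_lit 26) (nat_lit 0xbc0001780002fee6b) b16006 (.hit (nat_lit 6) (nat_lit 32) (nat_lit 0xbc0001780002fe6e4) b16010 (.one (nat_lit 9) (nat_lit 3) (nat_lit 27) (nat_lit 0xbc0001780002fe951) b16007 (.nil)))) (.nil))))) (.tok (nat_lit 64) (nat_lit 0xbc0001780002feda5) (.hit (nat_lit 7) (nat_lit 50) (nat_lit 0xbc0001780002fd606) b16011 (.hit (nat_lit 8) (nat_lit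 51) (nat_lit 0xbc0001780002feda5) b16012 (.nil))) (.tok (nat_lit 67) (nat_lit 0xbc000178000301eec) (.hit (nat_lit 9) (nat_lit 52) (nat_lit 0xbc0001780002ffd08) b16013 (.one (nat_lit 3) (nat_lit 15) (nat_lit 58) (nat_lit 0xbc0001780002ff2e5) b16019 (.tok (nat_lit 9) (nat_lit 0xbc000178000301eec) (.hit (nat_lit 10) (nat_lit 53) (nat_lit 0xbc0001780002ffb46) b16014 (.hit (nat_lit 13) (nat_lit 56) (nat_lit 0xbc0001780002ff43b) b16017 (.tok (nat_lit 67) (nat_lit 0xbc000178000301eec) (.hit (nat_lit 11) (nat_lit 54) (nat_lit 0xbc000178000300696) b16015 (.hit (nat_lit 14) (nat_lit 57) (nat_lit 0xbc0001780002ffc2c) b16018 (.one (nat_lit 9) (nat_lit 12) (nat_lit 55) (nat_lit 0xbc000178000301eec) b16016 (.nil)))) (.nil)))) (.nil)))) (.one (nat_lit 70) (nat_lit 16) (nat_lit 60) (nat_lit 0xbc0001780002ff085) b16020 (.nil)))))) (.nil))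
noncomputable def r20_86 : Rw Blk := .tok (nat_lit 3) (nat_lit 0x2f00005fdf4ebfe6097fb4daff402) (.hit (nat_lit 17) (nat_lit 0) (nat_lit 0x2f00005f9d3cbf5ce57f326afd408) b15919 (.tok (nat_lit 9) (nat_lit 0x2f00005f94c2bf6ed97f0a4afd87f) (.hit (nat_lit 18) (nat_lit 20) (nat_lit 0x2f00005f665ebf12117e50bafc14d) b15920 (.hit (nat_lit 21) (nat_lit 28) (nat_lit 0x2f00005f6968bf18257e5ce2fc2d2) b15923 (.one (nat_lit 56) (nat_lit 22) (nat_lit 31) (nat_lit 0x2f00005f91d4bf68fd7efe92fd708) b15924 (.tok (nat_lit 68) (nat_lit 0x2f00005f94c2bf6ed97f0a4afd87f) (.hit (nat_lit 19) (nat_lit 26) (nat_lit 0x2f00005f8edebf63117ef2bafd58d) b15921 (.hit (nat_lit 23) (nat_lit 32) (nat_lit 0x2f00005f87a6bf54a17ed5dafd1f1) b15925 (.one (nat_lit 9) (nat_lit 20) (nat_lit 27) (nat_lit 0x2f00005f94c2bf6ed97f0a4afd87f) b15922 (.nil)))) (.nil))))) (.tok (nat_lit 64) (nat_lit 0x2f00005f8e38bf61c57ef022fd53a)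 (.hit (nat_lit 24) (nat_lit 50) (nat_lit 0x2f00005f89a8bf58a57edde2fd2f2) b15926 (.hit (nat_lit 25) (nat_lit 51) (nat_lit 0x2f00005f8e38bf61c57ef022fd53a) b15927 (.nil))) (.tok (nat_lit 67) (nat_lit 0x2f00005fdf4ebfe6097fb4daff402) (.hit (nat_lit 26) (nat_lit 52) (nat_lit 0x2f00005fdf4ebfe6097fb4daff402) b15928 (.one (nat_lit 3) (nat_lit 32) (nat_lit 58) (nat_lit 0x2f00005f867ebf52517ed13afd15d) b15934 (.tok (nat_lit 9) (nat_lit 0x2f00005fa0d0bf86f57f3a82fde86) (.hit (nat_lit 27) (nat_lit 53) (nat_lit 0x2f00005f8460bf4e157ec8c2fd04e) b15929 (.hit (nat_lit 30) (nat_lit 56) (nat_lit 0x2f00005f8056bf46017eb89afce49) b15932 (.tok (nat_lit 67) (nat_lit 0x2f00005fa0d0bf86f57f3a82fde86) (.hit (nat_lit 28) (nat_lit 54) (nat_lit 0x2f00005fa0d0bf86f57f3a82fde86) b15930 (.hit (nat_lit 31) (nat_lit 57) (nat_lit 0x2f00005f9ae4bf7b1d7f22d2fdb90) b15933 (.one (nat_lit 9) (nat_lit 29) (nat_lit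 55) (nat_lit 0x2f00005f9890bf76757f1982fda66) b15931 (.nil)))) (.nil)))) (.nil)))) (.one (nat_lit 70) (nat_lit 33) (nat_lit 60) (nat_lit 0x2f00005f8b96bf5c817ee59afd3e9) b15935 (.nil)))))) (.tok (nat_lit 6) (nat_lit 0x2f0000602f26c0b1c180db8302da9) (.hit (nat_lit 0) (nat_lit 0) (nat_lit 0x2f00005fcef8bfbaf57f7ce2ff8fc) b15902 (.tok (nat_lit 6) (nat_lit 0x2f00005fda08c03bf17f95caff382) (.hit (nat_lit 1) (nat_lit 7) (nat_lit 0x2f00005fc2b6bff1097f4e22fe716) b15903 (.hit (nat_lit 4) (nat_lit 15) (nat_lit 0x2f00005f9574bf2d957e7fcafce70) b15906 (.tok (nat_lit 56) (nat_lit 0x2f00005fda08c03bf17f95caff382) (.hit (nat_lit 2) (nat_lit 13) (nat_lit 0x2f00005fda08bfee597f95caff382) b15904 (.hit (nat_lit 6) (nat_lit 19) (nat_lit 0x2f00005fb89cbf806d7f15cafe2d6) b15908 (.one (nat_lit 6) (nat_lit 3) (nat_lit 14) (nat_lit 0x2f00005fd826c03bf17f699aff2a1) b15905 (.nil)))) (.one (nat_lit 68)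 (nat_lit 5) (nat_lit 18) (nat_lit 0x2f00005fa948bf90117f357afe57e) b15907 (.nil))))) (.tok (nat_lit 52) (nat_lit 0x2f00005fffeec001797fc8c2ff499) (.hit (nat_lit 7) (nat_lit 39) (nat_lit 0x2f00005fc482bfa2117f7a9aff499) b15909 (.hit (nat_lit 8) (nat_lit 40) (nat_lit 0x2f00005fffeec001797fc8c2ff470) b15910 (.nil))) (.tok (nat_lit 55) (nat_lit 0x2f0000602f26c0b1c180db8302da9) (.hit (nat_lit 9) (nat_lit 41) (nat_lit 0x2f00006028c0c0b1c180db8302da9) b15911 (.one (nat_lit 3) (nat_lit 15) (nat_lit 47) (nat_lit 0x2f00005ffb7cc038457fbf52ffa53) b15917 (.tok (nat_lit 6) (nat_lit 0x2f0000602f26c0861180a2eb0266b) (.hit (nat_lit 10) (nat_lit 42) (nat_lit 0x2f00005fe5f2bfc8757f999aff906) b15912 (.hit (nat_lit 13) (nat_lit 45) (nat_lit 0x2f00005fec6ac086117fe85b001c6) b15915 (.tok (nat_lit 55) (nat_lit 0x2f0000602f26c070b180a2eb0266b) (.hit (nat_lit 11) (nat_lit 43) (nat_lit 0x2f0000602f26c070b1808d5b01eaa)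 b15913 (.hit (nat_lit 14) (nat_lit 46) (nat_lit 0x2f00005fec24c04039802c6300683) b15916 (.one (nat_lit 6) (nat_lit 12) (nat_lit 44) (nat_lit 0x2f000060226ac05e2980a2eb0266b) b15914 (.nil)))) (.nil)))) (.nil)))) (.one (nat_lit 58) (nat_lit 16) (nat_lit 49) (nat_lit 0x2f00005fffdac0285d7fcdb2ff9a5) b15918 (.nil)))))) (.nil))
noncomputable def r20_87 : Rw Blk := .tok (nat_lit 3) (nat_lit 0xbc0001780002ff1db) (.hit (nat_lit 17) (nat_lit 0) (nat_lit 0xbc0001780002fd806) b15953 (.tok (nat_lit 9) (nat_lit 0xbc0001780002fdef4) (.hit (nat_lit 18) (nat_lit 20) (nat_lit 0xbc0001780002fcbaf) b15954 (.hit (nat_lit 21) (nat_lit 28) (nat_lit 0xbc0001780002fbd0c) b15957 (.one (nat_lit 56) (nat_lit 22) (nat_lit 31) (nat_lit 0xbc0001780002fda8b) b15958 (.tok (nat_lit 68) (nat_lit 0xbc0001780002fdef4) (.hit (nat_lit 19) (nat_lit 26) (nat_lit 0xbc0001780002fda5e) b15955 (.hit (nat_lit 23) (nat_lit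 32) (nat_lit 0xbc0001780002fca02) b15959 (.one (nat_lit 9) (nat_lit 20) (nat_lit 27) (nat_lit 0xbc0001780002fdef4) b15956 (.nil)))) (.nil))))) (.tok (nat_lit 64) (nat_lit 0xbc0001780002fd3ba) (.hit (nat_lit 24) (nat_lit 50) (nat_lit 0xbc0001780002fd27d) b15960 (.hit (nat_lit 25) (nat_lit 51) (nat_lit 0xbc0001780002fd3ba) b15961 (.nil))) (.tok (nat_lit 67) (nat_lit 0xbc0001780002ff1db) (.hit (nat_lit 26) (nat_lit 52) (nat_lit 0xbc0001780002ff1db) b15962 (.one (nat_lit 3) (nat_lit 32) (nat_lit 58) (nat_lit 0xbc0001780002fdcad) b15968 (.tok (nat_lit 9) (nat_lit 0xbc0001780002fed7a) (.hit (nat_lit 27) (nat_lit 53) (nat_lit 0xbc0001780002fdb85) b15963 (.hit (nat_lit 30) (nat_lit 56) (nat_lit 0xbc0001780002fd3b8) b15966 (.tok (nat_lit 67) (nat_lit 0xbc0001780002fed7a) (.hit (nat_lit 28) (nat_lit 54) (nat_lit 0xbc0001780002fed7a) b15964 (.hit (nat_lit 31) (nat_lit 57) (nat_lit 0xbc0001780002fdcd9)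 b15967 (.one (nat_lit 9) (nat_lit 29) (nat_lit 55) (nat_lit 0xbc0001780002fe90f) b15965 (.nil)))) (.nil)))) (.nil)))) (.one (nat_lit 70) (nat_lit 33) (nat_lit 60) (nat_lit 0xbc0001780002fdfdd) b15969 (.nil)))))) (.tok (nat_lit 6) (nat_lit 0xbc000178000301f2f) (.hit (nat_lit 0) (nat_lit 0) (nat_lit 0xbc0001780002fe0ce) b15936 (.tok (nat_lit 6) (nat_lit 0xbc0001780002feeae) (.hit (nat_lit 1) (nat_lit 7) (nat_lit 0xbc0001780002fd772) b15937 (.hit (nat_lit 4) (nat_lit 15) (nat_lit 0xbc0001780002fd85f) b15940 (.tok (nat_lit 56) (nat_lit 0xbc0001780002feeae) (.hit (nat_lit 2) (nat_lit 13) (nat_lit 0xbc0001780002feeae) b15938 (.hit (nat_lit 6) (nat_lit 19) (nat_lit 0xbc0001780002fe727) b15942 (.one (nat_lit 6) (nat_lit 3) (nat_lit 14) (nat_lit 0xbc0001780002fe994) b15939 (.nil)))) (.one (nat_lit 68) (nat_lit 5) (nat_lit 18) (nat_lit 0xbc0001780002fea8c) b15941 (.nil))))) (.tok (nat_lit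 52) (nat_lit 0xbc0001780002fede8) (.hit (nat_lit 7) (nat_lit 39) (nat_lit 0xbc0001780002fd649) b15943 (.hit (nat_lit 8) (nat_lit 40) (nat_lit 0xbc0001780002fede8) b15944 (.nil))) (.tok (nat_lit 55) (nat_lit 0xbc000178000301f2f) (.hit (nat_lit 9) (nat_lit 41) (nat_lit 0xbc0001780002ffd4b) b15945 (.one (nat_lit 3) (nat_lit 15) (nat_lit 47) (nat_lit 0xbc0001780002ff328) b15951 (.tok (nat_lit 6) (nat_lit 0xbc000178000301f2f) (.hit (nat_lit 10) (nat_lit 42) (nat_lit 0xbc0001780002ffb89) b15946 (.hit (nat_lit 13) (nat_lit 45) (nat_lit 0xbc0001780002ff47e) b15949 (.tok (nat_lit 55) (nat_lit 0xbc000178000301f2f) (.hit (nat_lit 11) (nat_lit 43) (nat_lit 0xbc0001780003006d9) b15947 (.hit (nat_lit 14) (nat_lit 46) (nat_lit 0xbc0001780002ffc6f) b15950 (.one (nat_lit 6) (nat_lit 12) (nat_lit 44) (nat_lit 0xbc000178000301f2f) b15948 (.nil)))) (.nil)))) (.nil)))) (.one (nat_lit 58) (nat_lit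 16) (nat_lit 49) (nat_lit 0xbc0001780002ff0c8) b15952 (.nil)))))) (.nil))
noncomputable def r20_88 : Rw Blk := .tok (nat_lit 3) (nat_lit 0xbc0001780002fdd94) (.hit (nat_lit 0) (nat_lit 0) (nat_lit 0xbc0001780002fdd94) b16038 (.tok (nat_lit 6) (nat_lit 0xbc0001780002fc205) (.hit (nat_lit 1) (nat_lit 7) (nat_lit 0xbc0001780002fbf09) b16039 (.hit (nat_lit 2) (nat_lit 15) (nat_lit 0xbc0001780002fc205) b16040 (.nil))) (.tok (nat_lit 9) (nat_lit 0xbc0001780002fc205) (.hit (nat_lit 3) (nat_lit 20) (nat_lit 0xbc0001780002fbf09) b16039 (.hit (nat_lit 4) (nat_lit 28) (nat_lit 0xbc0001780002fc205) b16040 (.nil))) (.nil)))) (.tok (nat_lit 6) (nat_lit 0xbc000178000300000) (.hit (nat_lit 5) (nat_lit 0) (nat_lit 0xbc0001780002fe455) b16041 (.tok (nat_lit 3) (nat_lit 0xbc0001780002fed55) (.hit (nat_lit 6) (nat_lit 1) (nat_lit 0xbc0001780002fd017) b16042 (.one (nat_lit 67) (nat_lit 7) (nat_lit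 2) (nat_lit 0xbc0001780002fed55) b16043 (.nil))) (.tok (nat_lit 6) (nat_lit 0xbc000178000300000) (.hit (nat_lit 8) (nat_lit 7) (nat_lit 0xbc0001780002fe22c) b16044 (.hit (nat_lit 12) (nat_lit 15) (nat_lit 0xbc0001780002fce82) b16048 (.tok (nat_lit 55) (nat_lit 0xbc000178000300000) (.hit (nat_lit 9) (nat_lit 8) (nat_lit 0xbc000178000300000) b16045 (.hit (nat_lit 13) (nat_lit 16) (nat_lit 0xbc0001780002fe211) b16049 (.tok (nat_lit 6) (nat_lit 0xbc0001780002fefd5) (.hit (nat_lit 10) (nat_lit 9) (nat_lit 0xbc0001780002fe037) b16046 (.one (nat_lit 55) (nat_lit 11) (nat_lit 10) (nat_lit 0xbc0001780002fefd5) b16047 (.nil))) (.nil)))) (.nil)))) (.nil)))) (.tok (nat_lit 9) (nat_lit 0xbc000178000300000) (.hit (nat_lit 14) (nat_lit 0) (nat_lit 0xbc0001780002fe455) b16041 (.tok (nat_lit 3) (nat_lit 0xbc0001780002fed55) (.hit (nat_lit 15) (nat_lit 1) (nat_lit 0xbc0001780002fd017) b16042 (.one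 (nat_lit 55) (nat_lit 16) (nat_lit 3) (nat_lit 0xbc0001780002fed55) b16043 (.nil))) (.tok (nat_lit 9) (nat_lit 0xbc000178000300000) (.hit (nat_lit 17) (nat_lit 20) (nat_lit 0xbc0001780002fe22c) b16044 (.hit (nat_lit 21) (nat_lit 28) (nat_lit 0xbc0001780002fce82) b16048 (.tok (nat_lit 67) (nat_lit 0xbc000178000300000) (.hit (nat_lit 18) (nat_lit 21) (nat_lit 0xbc000178000300000) b16045 (.hit (nat_lit 22) (nat_lit 29) (nat_lit 0xbc0001780002fe211) b16049 (.tok (nat_lit 9) (nat_lit 0xbc0001780002fefd5) (.hit (nat_lit 19) (nat_lit 22) (nat_lit 0xbc0001780002fe037) b16046 (.one (nat_lit 67) (nat_lit 20) (nat_lit 23) (nat_lit 0xbc0001780002fefd5) b16047 (.nil))) (.nil)))) (.nil)))) (.nil)))) (.nil)))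
noncomputable def r20_89 : Rw Blk := .tok (nat_lit 3) (nat_lit 0xbc0001780002feda9) (.hit (nat_lit 18) (nat_lit 0) (nat_lit 0xbc0001780002feda9) b16114 (.tok (nat_lit 6) (nat_lit 0xbc0001780002fdcf1) (.hit (nat_lit 19) (nat_lit 7) (nat_lit 0xbc0001780002fdcf1) b16117 (.hit (nat_lit 20) (nat_lit 15) (nat_lit 0xbc0001780002fca10) b16118 (.nil))) (.tok (nat_lit 9) (nat_lit 0xbc0001780002fd1c2) (.hit (nat_lit 21) (nat_lit 20) (nat_lit 0xbc0001780002fd1c2) b16115 (.hit (nat_lit 22) (nat_lit 28) (nat_lit 0xbc0001780002fc9c3) b16116 (.nil))) (.nil)))) (.tok (nat_lit 6) (nat_lit 0xbc0001780002ff262) (.hit (nat_lit 0) (nat_lit 0) (nat_lit 0xbc0001780002febf4) b16096 (.tok (nat_lit 3) (nat_lit 0xbc0001780002fdcf0) (.hit (nat_lit 1) (nat_lit 1) (nat_lit 0xbc0001780002fc59f) b16097 (.one (nat_lit 67) (nat_lit 2) (nat_lit 2) (nat_lit 0xbc0001780002fdcf0) b16098 (.nil))) (.tok (nat_lit 6)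 (nat_lit 0xbc0001780002ff262) (.hit (nat_lit 3) (nat_lit 7) (nat_lit 0xbc0001780002fc4f7) b16099 (.hit (nat_lit 7) (nat_lit 15) (nat_lit 0xbc0001780002fce63) b16103 (.tok (nat_lit 55) (nat_lit 0xbc0001780002ff262) (.hit (nat_lit 4) (nat_lit 8) (nat_lit 0xbc0001780002fe688) b16100 (.hit (nat_lit 8) (nat_lit 16) (nat_lit 0xbc0001780002fedd9) b16104 (.tok (nat_lit 6) (nat_lit 0xbc0001780002ff262) (.hit (nat_lit 5) (nat_lit 9) (nat_lit 0xbc0001780002fe15a) b16101 (.one (nat_lit 55) (nat_lit 6) (nat_lit 10) (nat_lit 0xbc0001780002ff262) b16102 (.nil))) (.nil)))) (.nil)))) (.nil)))) (.tok (nat_lit 9) (nat_lit 0xbc0001780003035af) (.hit (nat_lit 9) (nat_lit 0) (nat_lit 0xbc000178000300397) b16105 (.tok (nat_lit 3) (nat_lit 0xbc000178000302bbf) (.hit (nat_lit 10) (nat_lit 1) (nat_lit 0xbc0001780002ff051) b16106 (.one (nat_lit 55) (nat_lit 11) (nat_lit 3) (nat_lit 0xbc000178000302bbf)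 b16107 (.nil))) (.tok (nat_lit 9) (nat_lit 0xbc0001780003035af) (.hit (nat_lit 12) (nat_lit 20) (nat_lit 0xbc0001780002ff746) b16108 (.hit (nat_lit 16) (nat_lit 28) (nat_lit 0xbc0001780002fe283) b16112 (.tok (nat_lit 67) (nat_lit 0xbc0001780003035af) (.hit (nat_lit 13) (nat_lit 21) (nat_lit 0xbc000178000303290) b16109 (.hit (nat_lit 17) (nat_lit 29) (nat_lit 0xbc000178000300c28) b16113 (.tok (nat_lit 9) (nat_lit 0xbc0001780003035af) (.hit (nat_lit 14) (nat_lit 22) (nat_lit 0xbc0001780003029b8) b16110 (.one (nat_lit 67) (nat_lit 15) (nat_lit 23) (nat_lit 0xbc0001780003035af) b16111 (.nil))) (.nil)))) (.nil)))) (.nil)))) (.nil)))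
noncomputable def r20_90 : Rw Blk := .tok (nat_lit 3) (nat_lit 0xbc0001780002fd59e) (.hit (nat_lit 18) (nat_lit 0) (nat_lit 0xbc0001780002fd59e) b16091 (.tok (nat_lit 6) (nat_lit 0xbc0001780002fc727) (.hit (nat_lit 19) (nat_lit 7) (nat_lit 0xbc0001780002fc727) b16092 (.hit (nat_lit 20) (nat_lit 15) (nat_lit 0xbc0001780002fc545) b16093 (.nil))) (.tok (nat_lit 9) (nat_lit 0xbc0001780002fc49b) (.hit (nat_lit 21) (nat_lit 20) (nat_lit 0xbc0001780002fc22e) b16094 (.hit (nat_lit 22) (nat_lit 28) (nat_lit 0xbc0001780002fc49b) b16095 (.nil))) (.nil)))) (.tok (nat_lit 6) (nat_lit 0xbc000178000300000) (.hit (nat_lit 0) (nat_lit 0) (nat_lit 0xbc0001780002fe915) b16073 (.tok (nat_lit 3) (nat_lit 0xbc0001780002fe5bd) (.hit (nat_lit 1) (nat_lit 1) (nat_lit 0xbc0001780002fce94) b16074 (.one (nat_lit 67) (nat_lit 2) (nat_lit 2) (nat_lit 0xbc0001780002fe5bd) b16075 (.nil))) (.tok (nat_lit 6)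 (nat_lit 0xbc000178000300000) (.hit (nat_lit 3) (nat_lit 7) (nat_lit 0xbc0001780002fdf2f) b16076 (.hit (nat_lit 7) (nat_lit 15) (nat_lit 0xbc0001780002fce2a) b16080 (.tok (nat_lit 55) (nat_lit 0xbc000178000300000) (.hit (nat_lit 4) (nat_lit 8) (nat_lit 0xbc0001780002ff240) b16077 (.hit (nat_lit 8) (nat_lit 16) (nat_lit 0xbc0001780002fe29b) b16081 (.tok (nat_lit 6) (nat_lit 0xbc000178000300000) (.hit (nat_lit 5) (nat_lit 9) (nat_lit 0xbc0001780002fec1a) b16078 (.one (nat_lit 55) (nat_lit 6) (nat_lit 10) (nat_lit 0xbc000178000300000) b16079 (.nil))) (.nil)))) (.nil)))) (.nil)))) (.tok (nat_lit 9) (nat_lit 0xbc0001780002ff2fe) (.hit (nat_lit 9) (nat_lit 0) (nat_lit 0xbc0001780002fe02f) b16082 (.tok (nat_lit 3) (nat_lit 0xbc0001780002fe4f3) (.hit (nat_lit 10) (nat_lit 1) (nat_lit 0xbc0001780002fd337) b16083 (.one (nat_lit 55) (nat_lit 11) (nat_lit 3) (nat_lit 0xbc0001780002fe4f3)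 b16084 (.nil))) (.tok (nat_lit 9) (nat_lit 0xbc0001780002ff2fe) (.hit (nat_lit 12) (nat_lit 20) (nat_lit 0xbc0001780002fdc4d) b16085 (.hit (nat_lit 16) (nat_lit 28) (nat_lit 0xbc0001780002fd4f4) b16089 (.tok (nat_lit 67) (nat_lit 0xbc0001780002ff2fe) (.hit (nat_lit 13) (nat_lit 21) (nat_lit 0xbc0001780002feb62) b16086 (.hit (nat_lit 17) (nat_lit 29) (nat_lit 0xbc0001780002fea7f) b16090 (.tok (nat_lit 9) (nat_lit 0xbc0001780002ff2fe) (.hit (nat_lit 14) (nat_lit 22) (nat_lit 0xbc0001780002fe5f2) b16087 (.one (nat_lit 67) (nat_lit 15) (nat_lit 23) (nat_lit 0xbc0001780002ff2fe) b16088 (.nil))) (.nil)))) (.nil)))) (.nil)))) (.nil)))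
noncomputable def r20_91 : Rw Blk := .tok (nat_lit 3) (nat_lit 0xbc0001780002fe930) (.hit (nat_lit 18) (nat_lit 0) (nat_lit 0xbc0001780002fe930) b16068 (.tok (nat_lit 6) (nat_lit 0xbc0001780002fcd49) (.hit (nat_lit 19) (nat_lit 7) (nat_lit 0xbc0001780002fcd49) b16071 (.hit (nat_lit 20) (nat_lit 15) (nat_lit 0xbc0001780002fc54a) b16072 (.nil))) (.tok (nat_lit 9) (nat_lit 0xbc0001780002fd878) (.hit (nat_lit 21) (nat_lit 20) (nat_lit 0xbc0001780002fd878) b16069 (.hit (nat_lit 22) (nat_lit 28) (nat_lit 0xbc0001780002fc597) b16070 (.nil))) (.nil)))) (.tok (nat_lit 6) (nat_lit 0xbc000178000303136) (.hit (nat_lit 9) (nat_lit 0) (nat_lit 0xbc0001780002fff1e) b16059 (.tok (nat_lit 3) (nat_lit 0xbc000178000302746) (.hit (nat_lit 10) (nat_lit 1) (nat_lit 0xbc0001780002febd8) b16060 (.one (nat_lit 67) (nat_lit 11) (nat_lit 2) (nat_lit 0xbc000178000302746) b16061 (.nil))) (.tok (nat_lit 6)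 (nat_lit 0xbc000178000303136) (.hit (nat_lit 12) (nat_lit 7) (nat_lit 0xbc0001780002ff2cd) b16062 (.hit (nat_lit 16) (nat_lit 15) (nat_lit 0xbc0001780002fde0a) b16066 (.tok (nat_lit 55) (nat_lit 0xbc000178000303136) (.hit (nat_lit 13) (nat_lit 8) (nat_lit 0xbc000178000302e17) b16063 (.hit (nat_lit 17) (nat_lit 16) (nat_lit 0xbc0001780003007af) b16067 (.tok (nat_lit 6) (nat_lit 0xbc000178000303136) (.hit (nat_lit 14) (nat_lit 9) (nat_lit 0xbc00017800030253f) b16064 (.one (nat_lit 55) (nat_lit 15) (nat_lit 10) (nat_lit 0xbc000178000303136) b16065 (.nil))) (.nil)))) (.nil)))) (.nil)))) (.tok (nat_lit 9) (nat_lit 0xbc0001780002fede9) (.hit (nat_lit 0) (nat_lit 0) (nat_lit 0xbc0001780002fe77b) b16050 (.tok (nat_lit 3) (nat_lit 0xbc0001780002fd877) (.hit (nat_lit 1) (nat_lit 1) (nat_lit 0xbc0001780002fc126) b16051 (.one (nat_lit 55) (nat_lit 2) (nat_lit 3) (nat_lit 0xbc0001780002fd877)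 b16052 (.nil))) (.tok (nat_lit 9) (nat_lit 0xbc0001780002fede9) (.hit (nat_lit 3) (nat_lit 20) (nat_lit 0xbc0001780002fc07e) b16053 (.hit (nat_lit 7) (nat_lit 28) (nat_lit 0xbc0001780002fc9ea) b16057 (.tok (nat_lit 67) (nat_lit 0xbc0001780002fede9) (.hit (nat_lit 4) (nat_lit 21) (nat_lit 0xbc0001780002fe20f) b16054 (.hit (nat_lit 8) (nat_lit 29) (nat_lit 0xbc0001780002fe960) b16058 (.tok (nat_lit 9) (nat_lit 0xbc0001780002fede9) (.hit (nat_lit 5) (nat_lit 22) (nat_lit 0xbc0001780002fdce1) b16055 (.one (nat_lit 67) (nat_lit 6) (nat_lit 23) (nat_lit 0xbc0001780002fede9) b16056 (.nil))) (.nil)))) (.nil)))) (.nil)))) (.nil)))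
noncomputable def r20_92 : Rw Blk := .tok (nat_lit 3) (nat_lit 0xbc0001780002fd59e) (.hit (nat_lit 18) (nat_lit 0) (nat_lit 0xbc0001780002fd59e) b16091 (.tok (nat_lit 6) (nat_lit 0xbc0001780002fc49b) (.hit (nat_lit 19) (nat_lit 7) (nat_lit 0xbc0001780002fc22e) b16094 (.hit (nat_lit 20) (nat_lit 15) (nat_lit 0xbc0001780002fc49b) b16095 (.nil))) (.tok (nat_lit 9) (nat_lit 0xbc0001780002fc727) (.hit (nat_lit 21) (nat_lit 20) (nat_lit 0xbc0001780002fc727) b16092 (.hit (nat_lit 22) (nat_lit 28) (nat_lit 0xbc0001780002fc545) b16093 (.nil))) (.nil)))) (.tok (nat_lit 6) (nat_lit 0xbc0001780002ff2fe) (.hit (nat_lit 9) (nat_lit 0) (nat_lit 0xbc0001780002fe02f) b16082 (.tok (nat_lit 3) (nat_lit 0xbc0001780002fe4f3) (.hit (nat_lit 10) (nat_lit 1) (nat_lit 0xbc0001780002fd337) b16083 (.one (nat_lit 67) (nat_lit 11) (nat_lit 2) (nat_lit 0xbc0001780002fe4f3) b16084 (.nil))) (.tok (nat_lit 6)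 (nat_lit 0xbc0001780002ff2fe) (.hit (nat_lit 12) (nat_lit 7) (nat_lit 0xbc0001780002fdc4d) b16085 (.hit (nat_lit 16) (nat_lit 15) (nat_lit 0xbc0001780002fd4f4) b16089 (.tok (nat_lit 55) (nat_lit 0xbc0001780002ff2fe) (.hit (nat_lit 13) (nat_lit 8) (nat_lit 0xbc0001780002feb62) b16086 (.hit (nat_lit 17) (nat_lit 16) (nat_lit 0xbc0001780002fea7f) b16090 (.tok (nat_lit 6) (nat_lit 0xbc0001780002ff2fe) (.hit (nat_lit 14) (nat_lit 9) (nat_lit 0xbc0001780002fe5f2) b16087 (.one (nat_lit 55) (nat_lit 15) (nat_lit 10) (nat_lit 0xbc0001780002ff2fe) b16088 (.nil))) (.nil)))) (.nil)))) (.nil)))) (.tok (nat_lit 9) (nat_lit 0xbc000178000300000) (.hit (nat_lit 0) (nat_lit 0) (nat_lit 0xbc0001780002fe915) b16073 (.tok (nat_lit 3) (nat_lit 0xbc0001780002fe5bd) (.hit (nat_lit 1) (nat_lit 1) (nat_lit 0xbc0001780002fce94) b16074 (.one (nat_lit 55) (nat_lit 2) (nat_lit 3) (nat_lit 0xbc0001780002fe5bd)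 b16075 (.nil))) (.tok (nat_lit 9) (nat_lit 0xbc000178000300000) (.hit (nat_lit 3) (nat_lit 20) (nat_lit 0xbc0001780002fdf2f) b16076 (.hit (nat_lit 7) (nat_lit 28) (nat_lit 0xbc0001780002fce2a) b16080 (.tok (nat_lit 67) (nat_lit 0xbc000178000300000) (.hit (nat_lit 4) (nat_lit 21) (nat_lit 0xbc0001780002ff240) b16077 (.hit (nat_lit 8) (nat_lit 29) (nat_lit 0xbc0001780002fe29b) b16081 (.tok (nat_lit 9) (nat_lit 0xbc000178000300000) (.hit (nat_lit 5) (nat_lit 22) (nat_lit 0xbc0001780002fec1a) b16078 (.one (nat_lit 67) (nat_lit 6) (nat_lit 23) (nat_lit 0xbc000178000300000) b16079 (.nil))) (.nil)))) (.nil)))) (.nil)))) (.nil)))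
noncomputable def r20_93 : Rw Blk := .tok (nat_lit 3) (nat_lit 0xbc0001780002fe5ec) (.hit (nat_lit 0) (nat_lit 0) (nat_lit 0xbc0001780002fe5ec) b16119 (.tok (nat_lit 6) (nat_lit 0xbc0001780002fdb5c) (.hit (nat_lit 1) (nat_lit 7) (nat_lit 0xbc0001780002fda30) b16120 (.hit (nat_lit 2) (nat_lit 15) (nat_lit 0xbc0001780002fdb5c) b16121 (.nil))) (.tok (nat_lit 9) (nat_lit 0xbc0001780002fdb5c) (.hit (nat_lit 3) (nat_lit 20) (nat_lit 0xbc0001780002fda30) b16120 (.hit (nat_lit 4) (nat_lit 28) (nat_lit 0xbc0001780002fdb5c) b16121 (.nil))) (.nil)))) (.tok (nat_lit 6) (nat_lit 0xbc000178000300000) (.hit (nat_lit 13) (nat_lit 0) (nat_lit 0xbc0001780002fed26) b16122 (.tok (nat_lit 3) (nat_lit 0xbc0001780002ffe44) (.hit (nat_lit 14) (nat_lit 1) (nat_lit 0xbc0001780002fdf58) b16123 (.one (nat_lit 67) (nat_lit 15) (nat_lit 2) (nat_lit 0xbc0001780002ffe44) b16124 (.nil))) (.tok (nat_lit 6) (nat_lit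 0xbc000178000300000) (.hit (nat_lit 16) (nat_lit 7) (nat_lit 0xbc0001780002feb89) b16125 (.hit (nat_lit 19) (nat_lit 15) (nat_lit 0xbc0001780002fe21f) b16128 (.tok (nat_lit 55) (nat_lit 0xbc000178000300000) (.hit (nat_lit 17) (nat_lit 8) (nat_lit 0xbc0001780002fffa8) b16126 (.hit (nat_lit 20) (nat_lit 16) (nat_lit 0xbc0001780002ffbe6) b16129 (.one (nat_lit 6) (nat_lit 18) (nat_lit 9) (nat_lit 0xbc000178000300000) b16127 (.nil)))) (.nil)))) (.nil)))) (.tok (nat_lit 9) (nat_lit 0xbc000178000300000) (.hit (nat_lit 5) (nat_lit 0) (nat_lit 0xbc0001780002fed26) b16122 (.tok (nat_lit 3) (nat_lit 0xbc0001780002ffe44) (.hit (nat_lit 6) (nat_lit 1) (nat_lit 0xbc0001780002fdf58) b16123 (.one (nat_lit 55) (nat_lit 7) (nat_lit 3) (nat_lit 0xbc0001780002ffe44) b16124 (.nil))) (.tok (nat_lit 9) (nat_lit 0xbc000178000300000) (.hit (nat_lit 8) (nat_lit 20) (nat_lit 0xbc0001780002feb89) b16125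 (.hit (nat_lit 11) (nat_lit 28) (nat_lit 0xbc0001780002fe21f) b16128 (.tok (nat_lit 67) (nat_lit 0xbc000178000300000) (.hit (nat_lit 9) (nat_lit 21) (nat_lit 0xbc0001780002fffa8) b16126 (.hit (nat_lit 12) (nat_lit 29) (nat_lit 0xbc0001780002ffbe6) b16129 (.one (nat_lit 9) (nat_lit 10) (nat_lit 22) (nat_lit 0xbc000178000300000) b16127 (.nil)))) (.nil)))) (.nil)))) (.nil)))
noncomputable def r20_94 : Rw Blk := .tok (nat_lit 3) (nat_lit 0xbc0001780002fdf98) (.hit (nat_lit 0) (nat_lit 0) (nat_lit 0xbc0001780002fdf98) b16130 (.tok (nat_lit 6) (nat_lit 0xbc0001780002fceef) (.hit (nat_lit 1) (nat_lit 7) (nat_lit 0xbc0001780002fceef) b16131 (.hit (nat_lit 2) (nat_lit 15) (nat_lit 0xbc0001780002fcee7) b16132 (.nil))) (.tok (nat_lit 9) (nat_lit 0xbc0001780002fceef) (.hit (nat_lit 3) (nat_lit 20) (nat_lit 0xbc0001780002fceef) b16131 (.hit (nat_lit 4) (nat_lit 28) (nat_lit 0xbc0001780002fcee7)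 b16132 (.nil))) (.nil)))) (.tok (nat_lit 6) (nat_lit 0xbc000178000300000) (.hit (nat_lit 5) (nat_lit 0) (nat_lit 0xbc0001780002fee98) b16133 (.one (nat_lit 3) (nat_lit 6) (nat_lit 1) (nat_lit 0xbc0001780002fd990) b16134 (.tok (nat_lit 6) (nat_lit 0xbc000178000300000) (.hit (nat_lit 7) (nat_lit 7) (nat_lit 0xbc0001780002feabf) b16135 (.hit (nat_lit 11) (nat_lit 15) (nat_lit 0xbc0001780002fe1d3) b16139 (.tok (nat_lit 55) (nat_lit 0xbc000178000300000) (.hit (nat_lit 8) (nat_lit 8) (nat_lit 0xbc0001780002fe8fb) b16136 (.hit (nat_lit 12) (nat_lit 16) (nat_lit 0xbc0001780002fefed) b16140 (.tok (nat_lit 6) (nat_lit 0xbc000178000300000) (.hit (nat_lit 9) (nat_lit 9) (nat_lit 0xbc0001780002ff0f4) b16137 (.one (nat_lit 55) (nat_lit 10) (nat_lit 10) (nat_lit 0xbc000178000300000) b16138 (.nil))) (.nil)))) (.nil)))) (.nil)))) (.tok (nat_lit 9) (nat_lit 0xbc000178000300000) (.hit (nat_lit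 13) (nat_lit 0) (nat_lit 0xbc0001780002fee98) b16133 (.one (nat_lit 3) (nat_lit 14) (nat_lit 1) (nat_lit 0xbc0001780002fd990) b16134 (.tok (nat_lit 9) (nat_lit 0xbc000178000300000) (.hit (nat_lit 15) (nat_lit 20) (nat_lit 0xbc0001780002feabf) b16135 (.hit (nat_lit 19) (nat_lit 28) (nat_lit 0xbc0001780002fe1d3) b16139 (.tok (nat_lit 67) (nat_lit 0xbc000178000300000) (.hit (nat_lit 16) (nat_lit 21) (nat_lit 0xbc0001780002fe8fb) b16136 (.hit (nat_lit 20) (nat_lit 29) (nat_lit 0xbc0001780002fefed) b16140 (.tok (nat_lit 9) (nat_lit 0xbc000178000300000) (.hit (nat_lit 17) (nat_lit 22) (nat_lit 0xbc0001780002ff0f4) b16137 (.one (nat_lit 67) (nat_lit 18) (nat_lit 23) (nat_lit 0xbc000178000300000) b16138 (.nil))) (.nil)))) (.nil)))) (.nil)))) (.nil)))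
noncomputable def r20_95 : Rw Blk := .tok (nat_lit 3) (nat_lit 0xbc0001780002fdbbf) (.hit (nat_lit 14) (nat_lit 0) (nat_lit 0xbc0001780002fdbbf) b16155 (.tok (nat_lit 6) (nat_lit 0xbc0001780002fc30d) (.hit (nat_lit 15) (nat_lit 7) (nat_lit 0xbc0001780002fc30d) b16156 (.hit (nat_lit 16) (nat_lit 15) (nat_lit 0xbc0001780002fb297) b16157 (.nil))) (.tok (nat_lit 9) (nat_lit 0xbc0001780002fd271) (.hit (nat_lit 17) (nat_lit 20) (nat_lit 0xbc0001780002fd271) b16158 (.hit (nat_lit 18) (nat_lit 28) (nat_lit 0xbc0001780002fd237) b16159 (.nil))) (.nil)))) (.tok (nat_lit 6) (nat_lit 0xbc000178000300000) (.hit (nat_lit 0) (nat_lit 0) (nat_lit 0xbc0001780002ff183) b16141 (.tok (nat_lit 3) (nat_lit 0xbc0001780002ffb06) (.hit (nat_lit 1) (nat_lit 1) (nat_lit 0xbc0001780002fe1d7) b16142 (.one (nat_lit 67) (nat_lit 2) (nat_lit 2) (nat_lit 0xbc0001780002ffb06) b16143 (.nil))) (.tok (nat_lit 6)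 (nat_lit 0xbc000178000300000) (.hit (nat_lit 3) (nat_lit 7) (nat_lit 0xbc0001780002fea6e) b16144 (.hit (nat_lit 7) (nat_lit 15) (nat_lit 0xbc0001780002fe05a) b16148 (.tok (nat_lit 55) (nat_lit 0xbc000178000300000) (.hit (nat_lit 4) (nat_lit 8) (nat_lit 0xbc0001780002ff7b3) b16145 (.hit (nat_lit 8) (nat_lit 16) (nat_lit 0xbc0001780002ff930) b16149 (.tok (nat_lit 6) (nat_lit 0xbc000178000300000) (.hit (nat_lit 5) (nat_lit 9) (nat_lit 0xbc0001780002ff1d3) b16146 (.one (nat_lit 55) (nat_lit 6) (nat_lit 10) (nat_lit 0xbc000178000300000) b16147 (.nil))) (.nil)))) (.nil)))) (.nil)))) (.tok (nat_lit 9) (nat_lit 0xbc0001780002fe469) (.hit (nat_lit 9) (nat_lit 0) (nat_lit 0xbc0001780002fdbc2) b16150 (.tok (nat_lit 3) (nat_lit 0xbc0001780002fe22e) (.hit (nat_lit 10) (nat_lit 1) (nat_lit 0xbc0001780002fd8cf) b16151 (.one (nat_lit 55) (nat_lit 11) (nat_lit 3) (nat_lit 0xbc0001780002fe22e)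 b16152 (.nil))) (.tok (nat_lit 9) (nat_lit 0xbc0001780002fe469) (.hit (nat_lit 12) (nat_lit 20) (nat_lit 0xbc0001780002fe469) b16153 (.hit (nat_lit 13) (nat_lit 28) (nat_lit 0xbc0001780002fdfb2) b16154 (.nil))) (.nil)))) (.nil)))
noncomputable def r20_96 : Rw Blk := .tok (nat_lit 3) (nat_lit 0xbc0001780002fdbbf) (.hit (nat_lit 14) (nat_lit 0) (nat_lit 0xbc0001780002fdbbf) b16155 (.tok (nat_lit 6) (nat_lit 0xbc0001780002fd271) (.hit (nat_lit 15) (nat_lit 7) (nat_lit 0xbc0001780002fd271) b16158 (.hit (nat_lit 16) (nat_lit 15) (nat_lit 0xbc0001780002fd237) b16159 (.nil))) (.tok (nat_lit 9) (nat_lit 0xbc0001780002fc30d) (.hit (nat_lit 17) (nat_lit 20) (nat_lit 0xbc0001780002fc30d) b16156 (.hit (nat_lit 18) (nat_lit 28) (nat_lit 0xbc0001780002fb297) b16157 (.nil))) (.nil)))) (.tok (nat_lit 6) (nat_lit 0xbc0001780002fe469) (.hit (nat_lit 9) (nat_lit 0) (nat_lit 0xbc0001780002fdbc2)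 b16150 (.tok (nat_lit 3) (nat_lit 0xbc0001780002fe22e) (.hit (nat_lit 10) (nat_lit 1) (nat_lit 0xbc0001780002fd8cf) b16151 (.one (nat_lit 67) (nat_lit 11) (nat_lit 2) (nat_lit 0xbc0001780002fe22e) b16152 (.nil))) (.tok (nat_lit 6) (nat_lit 0xbc0001780002fe469) (.hit (nat_lit 12) (nat_lit 7) (nat_lit 0xbc0001780002fe469) b16153 (.hit (nat_lit 13) (nat_lit 15) (nat_lit 0xbc0001780002fdfb2) b16154 (.nil))) (.nil)))) (.tok (nat_lit 9) (nat_lit 0xbc000178000300000) (.hit (nat_lit 0) (nat_lit 0) (nat_lit 0xbc0001780002ff183) b16141 (.tok (nat_lit 3) (nat_lit 0xbc0001780002ffb06) (.hit (nat_lit 1) (nat_lit 1) (nat_lit 0xbc0001780002fe1d7) b16142 (.one (nat_lit 55) (nat_lit 2) (nat_lit 3) (nat_lit 0xbc0001780002ffb06) b16143 (.nil))) (.tok (nat_lit 9) (nat_lit 0xbc000178000300000) (.hit (nat_lit 3) (nat_lit 20) (nat_lit 0xbc0001780002fea6e) b16144 (.hit (nat_lit 7) (nat_lit 28) (nat_lit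 0xbc0001780002fe05a) b16148 (.tok (nat_lit 67) (nat_lit 0xbc000178000300000) (.hit (nat_lit 4) (nat_lit 21) (nat_lit 0xbc0001780002ff7b3) b16145 (.hit (nat_lit 8) (nat_lit 29) (nat_lit 0xbc0001780002ff930) b16149 (.tok (nat_lit 9) (nat_lit 0xbc000178000300000) (.hit (nat_lit 5) (nat_lit 22) (nat_lit 0xbc0001780002ff1d3) b16146 (.one (nat_lit 67) (nat_lit 6) (nat_lit 23) (nat_lit 0xbc000178000300000) b16147 (.nil))) (.nil)))) (.nil)))) (.nil)))) (.nil)))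
noncomputable def r20_97 : Rw Blk := .tok (nat_lit 3) (nat_lit 0xbc0001780002fd384) (.hit (nat_lit 0) (nat_lit 0) (nat_lit 0xbc0001780002fd384) b16160 (.tok (nat_lit 6) (nat_lit 0xbc0001780002fc59b) (.hit (nat_lit 1) (nat_lit 7) (nat_lit 0xbc0001780002fc59b) b16161 (.hit (nat_lit 2) (nat_lit 15) (nat_lit 0xbc0001780002fc551) b16162 (.nil))) (.tok (nat_lit 9) (nat_lit 0xbc0001780002fc59b) (.hit (nat_lit 3) (nat_lit 20) (nat_lit 0xbc0001780002fc59b) b16161 (.hit (nat_lit 4) (nat_lit 28) (nat_lit 0xbc0001780002fc551) b16162 (.nil))) (.nil)))) (.tok (nat_lit 6) (nat_lit 0xbc000178000300339) (.hit (nat_lit 5) (nat_lit 0) (nat_lit 0xbc0001780002ff302) b16163 (.tok (nat_lit 3) (nat_lit 0xbc0001780002fe3be) (.hit (nat_lit 6) (nat_lit 1) (nat_lit 0xbc0001780002fc669) b16164 (.one (nat_lit 67) (nat_lit 7) (nat_lit 2) (nat_lit 0xbc0001780002fe3be) b16165 (.nil))) (.tok (nat_lit 6) (nat_lit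 0xbc000178000300339) (.hit (nat_lit 8) (nat_lit 7) (nat_lit 0xbc0001780002fec65) b16166 (.hit (nat_lit 11) (nat_lit 15) (nat_lit 0xbc0001780002fcd87) b16169 (.tok (nat_lit 55) (nat_lit 0xbc000178000300339) (.hit (nat_lit 9) (nat_lit 8) (nat_lit 0xbc000178000300339) b16167 (.hit (nat_lit 12) (nat_lit 16) (nat_lit 0xbc0001780002ff3ef) b16170 (.one (nat_lit 6) (nat_lit 10) (nat_lit 9) (nat_lit 0xbc0001780002ff71a) b16168 (.nil)))) (.nil)))) (.nil)))) (.tok (nat_lit 9) (nat_lit 0xbc000178000300339) (.hit (nat_lit 13) (nat_lit 0) (nat_lit 0xbc0001780002ff302) b16163 (.tok (nat_lit 3) (nat_lit 0xbc0001780002fe3be) (.hit (nat_lit 14) (nat_lit 1) (nat_lit 0xbc0001780002fc669) b16164 (.one (nat_lit 55) (nat_lit 15) (nat_lit 3) (nat_lit 0xbc0001780002fe3be) b16165 (.nil))) (.tok (nat_lit 9) (nat_lit 0xbc000178000300339) (.hit (nat_lit 16) (nat_lit 20) (nat_lit 0xbc0001780002fec65) b16166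 (.hit (nat_lit 19) (nat_lit 28) (nat_lit 0xbc0001780002fcd87) b16169 (.tok (nat_lit 67) (nat_lit 0xbc000178000300339) (.hit (nat_lit 17) (nat_lit 21) (nat_lit 0xbc000178000300339) b16167 (.hit (nat_lit 20) (nat_lit 29) (nat_lit 0xbc0001780002ff3ef) b16170 (.one (nat_lit 9) (nat_lit 18) (nat_lit 22) (nat_lit 0xbc0001780002ff71a) b16168 (.nil)))) (.nil)))) (.nil)))) (.nil)))
noncomputable def r20_98 : Rw Blk := .tok (nat_lit 3) (nat_lit 0xbc0001780002fe4d2) (.hit (nat_lit 0) (nat_lit 0) (nat_lit 0xbc0001780002fe4d2) b16171 (.tok (nat_lit 6) (nat_lit 0xbc0001780002fd97b) (.hit (nat_lit 1) (nat_lit 7) (nat_lit 0xbc0001780002fd97b) b16172 (.hit (nat_lit 2) (nat_lit 15) (nat_lit 0xbc0001780002fd7d2) b16173 (.nil))) (.tok (nat_lit 9) (nat_lit 0xbc0001780002fd97b) (.hit (nat_lit 3) (nat_lit 20) (nat_lit 0xbc0001780002fd97b) b16172 (.hit (nat_lit 4) (nat_lit 28) (nat_lit 0xbc0001780002fd7d2)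 b16173 (.nil))) (.nil)))) (.tok (nat_lit 6) (nat_lit 0xbc000178000300000) (.hit (nat_lit 13) (nat_lit 0) (nat_lit 0xbc0001780002ff632) b16174 (.one (nat_lit 3) (nat_lit 14) (nat_lit 1) (nat_lit 0xbc0001780002fd3fc) b16175 (.tok (nat_lit 6) (nat_lit 0xbc000178000300000) (.hit (nat_lit 15) (nat_lit 7) (nat_lit 0xbc0001780002ff0a7) b16176 (.hit (nat_lit 19) (nat_lit 15) (nat_lit 0xbc0001780002fe24a) b16180 (.tok (nat_lit 55) (nat_lit 0xbc000178000300000) (.hit (nat_lit 16) (nat_lit 8) (nat_lit 0xbc0001780002fffca) b16177 (.hit (nat_lit 20) (nat_lit 16) (nat_lit 0xbc000178000300000) b16181 (.tok (nat_lit 6) (nat_lit 0xbc0001780002fffb0) (.hit (nat_lit 17) (nat_lit 9) (nat_lit 0xbc0001780002ff169) b16178 (.one (nat_lit 55) (nat_lit 18) (nat_lit 10) (nat_lit 0xbc0001780002fffb0) b16179 (.nil))) (.nil)))) (.nil)))) (.nil)))) (.tok (nat_lit 9) (nat_lit 0xbc000178000300000) (.hit (nat_lit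 5) (nat_lit 0) (nat_lit 0xbc0001780002ff632) b16174 (.one (nat_lit 3) (nat_lit 6) (nat_lit 1) (nat_lit 0xbc0001780002fd3fc) b16175 (.tok (nat_lit 9) (nat_lit 0xbc000178000300000) (.hit (nat_lit 7) (nat_lit 20) (nat_lit 0xbc0001780002ff0a7) b16176 (.hit (nat_lit 11) (nat_lit 28) (nat_lit 0xbc0001780002fe24a) b16180 (.tok (nat_lit 67) (nat_lit 0xbc000178000300000) (.hit (nat_lit 8) (nat_lit 21) (nat_lit 0xbc0001780002fffca) b16177 (.hit (nat_lit 12) (nat_lit 29) (nat_lit 0xbc000178000300000) b16181 (.tok (nat_lit 9) (nat_lit 0xbc0001780002fffb0) (.hit (nat_lit 9) (nat_lit 22) (nat_lit 0xbc0001780002ff169) b16178 (.one (nat_lit 67) (nat_lit 10) (nat_lit 23) (nat_lit 0xbc0001780002fffb0) b16179 (.nil))) (.nil)))) (.nil)))) (.nil)))) (.nil)))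
noncomputable def r20_99 : Rw Blk := .tok (nat_lit 3) (nat_lit 0xbc0001780002fd8e5) (.hit (nat_lit 0) (nat_lit 0) (nat_lit 0xbc0001780002fd8e5) b16182 (.tok (nat_lit 6) (nat_lit 0xbc0001780002fc349) (.hit (nat_lit 1) (nat_lit 7) (nat_lit 0xbc0001780002fc239) b16183 (.hit (nat_lit 2) (nat_lit 15) (nat_lit 0xbc0001780002fc349) b16184 (.nil))) (.tok (nat_lit 9) (nat_lit 0xbc0001780002fc349) (.hit (nat_lit 3) (nat_lit 20) (nat_lit 0xbc0001780002fc239) b16183 (.hit (nat_lit 4) (nat_lit 28) (nat_lit 0xbc0001780002fc349) b16184 (.nil))) (.nil)))) (.tok (nat_lit 6) (nat_lit 0xbc000178000300000) (.hit (nat_lit 13) (nat_lit 0) (nat_lit 0xbc0001780002fe3d4) b16185 (.one (nat_lit 3) (nat_lit 14) (nat_lit 1) (nat_lit 0xbc0001780002fc979) b16186 (.tok (nat_lit 6) (nat_lit 0xbc000178000300000) (.hit (nat_lit 15) (nat_lit 7) (nat_lit 0xbc0001780002fdc45) b16187 (.hit (nat_lit 19) (nat_lit 15)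 (nat_lit 0xbc0001780002fcd61) b16191 (.tok (nat_lit 55) (nat_lit 0xbc000178000300000) (.hit (nat_lit 16) (nat_lit 8) (nat_lit 0xbc000178000300000) b16188 (.hit (nat_lit 20) (nat_lit 16) (nat_lit 0xbc0001780002fe5f9) b16192 (.tok (nat_lit 6) (nat_lit 0xbc0001780002ff263) (.hit (nat_lit 17) (nat_lit 9) (nat_lit 0xbc0001780002feb09) b16189 (.one (nat_lit 55) (nat_lit 18) (nat_lit 10) (nat_lit 0xbc0001780002ff263) b16190 (.nil))) (.nil)))) (.nil)))) (.nil)))) (.tok (nat_lit 9) (nat_lit 0xbc000178000300000) (.hit (nat_lit 5) (nat_lit 0) (nat_lit 0xbc0001780002fe3d4) b16185 (.one (nat_lit 3) (nat_lit 6) (nat_lit 1) (nat_lit 0xbc0001780002fc979) b16186 (.tok (nat_lit 9) (nat_lit 0xbc000178000300000) (.hit (nat_lit 7) (nat_lit 20) (nat_lit 0xbc0001780002fdc45) b16187 (.hit (nat_lit 11) (nat_lit 28) (nat_lit 0xbc0001780002fcd61) b16191 (.tok (nat_lit 67) (nat_lit 0xbc000178000300000)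 (.hit (nat_lit 8) (nat_lit 21) (nat_lit 0xbc000178000300000) b16188 (.hit (nat_lit 12) (nat_lit 29) (nat_lit 0xbc0001780002fe5f9) b16192 (.tok (nat_lit 9) (nat_lit 0xbc0001780002ff263) (.hit (nat_lit 9) (nat_lit 22) (nat_lit 0xbc0001780002feb09) b16189 (.one (nat_lit 67) (nat_lit 10) (nat_lit 23) (nat_lit 0xbc0001780002ff263) b16190 (.nil))) (.nil)))) (.nil)))) (.nil)))) (.nil)))
noncomputable def r20_100 : Rw Blk := .tok (nat_lit 3) (nat_lit 0xbc0001780002fe2cd) (.hit (nat_lit 14) (nat_lit 0) (nat_lit 0xbc0001780002fe2cd) b8399 (.tok (nat_lit 6) (nat_lit 0xbc0001780002fd794) (.hit (nat_lit 15) (nat_lit 7) (nat_lit 0xbc0001780002fd794) b8400 (.hit (nat_lit 16) (nat_lit 15) (nat_lit 0xbc0001780002fcb6d) b8401 (.nil))) (.tok (nat_lit 9) (nat_lit 0xbc0001780002fbfc6) (.hit (nat_lit 17) (nat_lit 20) (nat_lit 0xbc0001780002fbfc6) b8402 (.hit (nat_lit 18) (nat_lit 28) (nat_lit 0xbc0001780002fb9fe)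 b8403 (.nil))) (.nil)))) (.tok (nat_lit 6) (nat_lit 0xbc0001780002ffcad) (.hit (nat_lit 9) (nat_lit 0) (nat_lit 0xbc0001780002ff925) b8394 (.tok (nat_lit 3) (nat_lit 0xbc0001780002ffcad) (.hit (nat_lit 10) (nat_lit 1) (nat_lit 0xbc0001780002fe6ca) b8395 (.one (nat_lit 67) (nat_lit 11) (nat_lit 2) (nat_lit 0xbc0001780002ffcad) b8396 (.nil))) (.tok (nat_lit 6) (nat_lit 0xbc0001780002ff74e) (.hit (nat_lit 12) (nat_lit 7) (nat_lit 0xbc0001780002ff74e) b8397 (.hit (nat_lit 13) (nat_lit 15) (nat_lit 0xbc0001780002fe7fa) b8398 (.nil))) (.nil)))) (.tok (nat_lit 9) (nat_lit 0xbc000178000300000) (.hit (nat_lit 0) (nat_lit 0) (nat_lit 0xbc0001780002ff8d3) b8385 (.tok (nat_lit 3) (nat_lit 0xbc000178000300000) (.hit (nat_lit 1) (nat_lit 1) (nat_lit 0xbc0001780002fe45a) b8386 (.one (nat_lit 55) (nat_lit 2) (nat_lit 3) (nat_lit 0xbc000178000300000) b8387 (.nil))) (.tok (nat_lit 9) (nat_lit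 0xbc0001780002ffdbf) (.hit (nat_lit 3) (nat_lit 20) (nat_lit 0xbc0001780002fee91) b8388 (.hit (nat_lit 7) (nat_lit 28) (nat_lit 0xbc0001780002fdcf4) b8392 (.tok (nat_lit 67) (nat_lit 0xbc0001780002ffdbf) (.hit (nat_lit 4) (nat_lit 21) (nat_lit 0xbc0001780002ffdbf) b8389 (.hit (nat_lit 8) (nat_lit 29) (nat_lit 0xbc0001780002fed2e) b8393 (.tok (nat_lit 9) (nat_lit 0xbc0001780002ffccd) (.hit (nat_lit 5) (nat_lit 22) (nat_lit 0xbc0001780002ff116) b8390 (.one (nat_lit 67) (nat_lit 6) (nat_lit 23) (nat_lit 0xbc0001780002ffccd) b8391 (.nil))) (.nil)))) (.nil)))) (.nil)))) (.nil)))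
noncomputable def r20_101 : Rw Blk := .tok (nat_lit 3) (nat_lit 0xbc0001780002fcfd9) (.hit (nat_lit 14) (nat_lit 0) (nat_lit 0xbc0001780002fcfd9) b16207 (.tok (nat_lit 6) (nat_lit 0xbc0001780002fc875) (.hit (nat_lit 15) (nat_lit 7) (nat_lit 0xbc0001780002fc4d6) b16208 (.hit (nat_lit 16) (nat_lit 15) (nat_lit 0xbc0001780002fc875) b16209 (.nil))) (.tok (nat_lit 9) (nat_lit 0xbc0001780002fb3ea) (.hit (nat_lit 17) (nat_lit 20) (nat_lit 0xbc0001780002fb3ea) b16210 (.hit (nat_lit 18) (nat_lit 28) (nat_lit 0xbc0001780002faf21) b16211 (.nil))) (.nil)))) (.tok (nat_lit 6) (nat_lit 0xbc0001780002fee07) (.hit (nat_lit 9) (nat_lit 0) (nat_lit 0xbc0001780002fdde8) b16202 (.tok (nat_lit 3) (nat_lit 0xbc0001780002fee07) (.hit (nat_lit 10) (nat_lit 1) (nat_lit 0xbc0001780002fd4e9) b16203 (.one (nat_lit 67) (nat_lit 11) (nat_lit 2) (nat_lit 0xbc0001780002fee07) b16204 (.nil))) (.tok (nat_lit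 6) (nat_lit 0xbc0001780002fe1e0) (.hit (nat_lit 12) (nat_lit 7) (nat_lit 0xbc0001780002fe1e0) b16205 (.hit (nat_lit 13) (nat_lit 15) (nat_lit 0xbc0001780002fd5fc) b16206 (.nil))) (.nil)))) (.tok (nat_lit 9) (nat_lit 0xbc000178000300000) (.hit (nat_lit 0) (nat_lit 0) (nat_lit 0xbc0001780002fe877) b16193 (.tok (nat_lit 3) (nat_lit 0xbc0001780002ff969) (.hit (nat_lit 1) (nat_lit 1) (nat_lit 0xbc0001780002fd4f9) b16194 (.one (nat_lit 55) (nat_lit 2) (nat_lit 3) (nat_lit 0xbc0001780002ff969) b16195 (.nil))) (.tok (nat_lit 9) (nat_lit 0xbc000178000300000) (.hit (nat_lit 3) (nat_lit 20) (nat_lit 0xbc0001780002fe112) b16196 (.hit (nat_lit 7) (nat_lit 28) (nat_lit 0xbc0001780002fd22c) b16200 (.tok (nat_lit 67) (nat_lit 0xbc000178000300000) (.hit (nat_lit 4) (nat_lit 21) (nat_lit 0xbc0001780002ffb6a) b16197 (.hit (nat_lit 8) (nat_lit 29) (nat_lit 0xbc0001780002feb20) b16201 (.tok (nat_lit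 9) (nat_lit 0xbc000178000300000) (.hit (nat_lit 5) (nat_lit 22) (nat_lit 0xbc0001780002fe4c1) b16198 (.one (nat_lit 67) (nat_lit 6) (nat_lit 23) (nat_lit 0xbc000178000300000) b16199 (.nil))) (.nil)))) (.nil)))) (.nil)))) (.nil)))
noncomputable def r20_102 : Rw Blk := .tok (nat_lit 3) (nat_lit 0xbc0001780002fe2cd) (.hit (nat_lit 14) (nat_lit 0) (nat_lit 0xbc0001780002fe2cd) b8399 (.tok (nat_lit 6) (nat_lit 0xbc0001780002fbfc6) (.hit (nat_lit 15) (nat_lit 7) (nat_lit 0xbc0001780002fbfc6) b8402 (.hit (nat_lit 16) (nat_lit 15) (nat_lit 0xbc0001780002fb9fe) b8403 (.nil))) (.tok (nat_lit 9) (nat_lit 0xbc0001780002fd794) (.hit (nat_lit 17) (nat_lit 20) (nat_lit 0xbc0001780002fd794) b8400 (.hit (nat_lit 18) (nat_lit 28) (nat_lit 0xbc0001780002fcb6d) b8401 (.nil))) (.nil)))) (.tok (nat_lit 6) (nat_lit 0xbc000178000300000) (.hit (nat_lit 0) (nat_lit 0) (nat_lit 0xbc0001780002ff8d3) b8385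 (.tok (nat_lit 3) (nat_lit 0xbc000178000300000) (.hit (nat_lit 1) (nat_lit 1) (nat_lit 0xbc0001780002fe45a) b8386 (.one (nat_lit 67) (nat_lit 2) (nat_lit 2) (nat_lit 0xbc000178000300000) b8387 (.nil))) (.tok (nat_lit 6) (nat_lit 0xbc0001780002ffdbf) (.hit (nat_lit 3) (nat_lit 7) (nat_lit 0xbc0001780002fee91) b8388 (.hit (nat_lit 7) (nat_lit 15) (nat_lit 0xbc0001780002fdcf4) b8392 (.tok (nat_lit 55) (nat_lit 0xbc0001780002ffdbf) (.hit (nat_lit 4) (nat_lit 8) (nat_lit 0xbc0001780002ffdbf) b8389 (.hit (nat_lit 8) (nat_lit 16) (nat_lit 0xbc0001780002fed2e) b8393 (.tok (nat_lit 6) (nat_lit 0xbc0001780002ffccd) (.hit (nat_lit 5) (nat_lit 9) (nat_lit 0xbc0001780002ff116) b8390 (.one (nat_lit 55) (nat_lit 6) (nat_lit 10) (nat_lit 0xbc0001780002ffccd) b8391 (.nil))) (.nil)))) (.nil)))) (.nil)))) (.tok (nat_lit 9) (nat_lit 0xbc0001780002ffcad) (.hit (nat_lit 9) (nat_lit 0) (nat_lit 0xbc0001780002ff925)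 b8394 (.tok (nat_lit 3) (nat_lit 0xbc0001780002ffcad) (.hit (nat_lit 10) (nat_lit 1) (nat_lit 0xbc0001780002fe6ca) b8395 (.one (nat_lit 55) (nat_lit 11) (nat_lit 3) (nat_lit 0xbc0001780002ffcad) b8396 (.nil))) (.tok (nat_lit 9) (nat_lit 0xbc0001780002ff74e) (.hit (nat_lit 12) (nat_lit 20) (nat_lit 0xbc0001780002ff74e) b8397 (.hit (nat_lit 13) (nat_lit 28) (nat_lit 0xbc0001780002fe7fa) b8398 (.nil))) (.nil)))) (.nil)))
noncomputable def r20_103 : Rw Blk := .tok (nat_lit 3) (nat_lit 0xbc0001780002fcfd9) (.hit (nat_lit 14) (nat_lit 0) (nat_lit 0xbc0001780002fcfd9) b16207 (.tok (nat_lit 6) (nat_lit 0xbc0001780002fb3ea) (.hit (nat_lit 15) (nat_lit 7) (nat_lit 0xbc0001780002fb3ea) b16210 (.hit (nat_lit 16) (nat_lit 15) (nat_lit 0xbc0001780002faf21) b16211 (.nil))) (.tok (nat_lit 9) (nat_lit 0xbc0001780002fc875) (.hit (nat_lit 17) (nat_lit 20) (nat_lit 0xbc0001780002fc4d6) b16208 (.hit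 (nat_lit 18) (nat_lit 28) (nat_lit 0xbc0001780002fc875) b16209 (.nil))) (.nil)))) (.tok (nat_lit 6) (nat_lit 0xbc000178000300000) (.hit (nat_lit 0) (nat_lit 0) (nat_lit 0xbc0001780002fe877) b16193 (.tok (nat_lit 3) (nat_lit 0xbc0001780002ff969) (.hit (nat_lit 1) (nat_lit 1) (nat_lit 0xbc0001780002fd4f9) b16194 (.one (nat_lit 67) (nat_lit 2) (nat_lit 2) (nat_lit 0xbc0001780002ff969) b16195 (.nil))) (.tok (nat_lit 6) (nat_lit 0xbc000178000300000) (.hit (nat_lit 3) (nat_lit 7) (nat_lit 0xbc0001780002fe112) b16196 (.hit (nat_lit 7) (nat_lit 15) (nat_lit 0xbc0001780002fd22c) b16200 (.tok (nat_lit 55) (nat_lit 0xbc000178000300000) (.hit (nat_lit 4) (nat_lit 8) (nat_lit 0xbc0001780002ffb6a) b16197 (.hit (nat_lit 8) (nat_lit 16) (nat_lit 0xbc0001780002feb20) b16201 (.tok (nat_lit 6) (nat_lit 0xbc000178000300000) (.hit (nat_lit 5) (nat_lit 9) (nat_lit 0xbc0001780002fe4c1) b16198 (.one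 (nat_lit 55) (nat_lit 6) (nat_lit 10) (nat_lit 0xbc000178000300000) b16199 (.nil))) (.nil)))) (.nil)))) (.nil)))) (.tok (nat_lit 9) (nat_lit 0xbc0001780002fee07) (.hit (nat_lit 9) (nat_lit 0) (nat_lit 0xbc0001780002fdde8) b16202 (.tok (nat_lit 3) (nat_lit 0xbc0001780002fee07) (.hit (nat_lit 10) (nat_lit 1) (nat_lit 0xbc0001780002fd4e9) b16203 (.one (nat_lit 55) (nat_lit 11) (nat_lit 3) (nat_lit 0xbc0001780002fee07) b16204 (.nil))) (.tok (nat_lit 9) (nat_lit 0xbc0001780002fe1e0) (.hit (nat_lit 12) (nat_lit 20) (nat_lit 0xbc0001780002fe1e0) b16205 (.hit (nat_lit 13) (nat_lit 28) (nat_lit 0xbc0001780002fd5fc) b16206 (.nil))) (.nil)))) (.nil)))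
noncomputable def r20_104 : Rw Blk := .tok (nat_lit 3) (nat_lit 0xbc0001780002fd52a) (.hit (nat_lit 0) (nat_lit 0) (nat_lit 0xbc0001780002fd52a) b16212 (.tok (nat_lit 6) (nat_lit 0xbc0001780002fce4b) (.hit (nat_lit 1) (nat_lit 7) (nat_lit 0xbc0001780002fce4b) b16213 (.hit (nat_lit 2) (nat_lit 15) (nat_lit 0xbc0001780002fcc28) b16214 (.nil))) (.tok (nat_lit 9) (nat_lit 0xbc0001780002fd05f) (.hit (nat_lit 3) (nat_lit 20) (nat_lit 0xbc0001780002fd044) b16215 (.hit (nat_lit 4) (nat_lit 28) (nat_lit 0xbc0001780002fd05f) b16216 (.nil))) (.nil)))) (.tok (nat_lit 6) (nat_lit 0xbc000178000300000) (.hit (nat_lit 5) (nat_lit 0) (nat_lit 0xbc0001780002fe657) b16217 (.tok (nat_lit 3) (nat_lit 0xbc0001780002fee25) (.hit (nat_lit 6) (nat_lit 1) (nat_lit 0xbc0001780002fd000) b16218 (.one (nat_lit 67) (nat_lit 7) (nat_lit 2) (nat_lit 0xbc0001780002fee25) b16219 (.nil))) (.tok (nat_lit 6) (nat_lit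 0xbc000178000300000) (.hit (nat_lit 8) (nat_lit 7) (nat_lit 0xbc0001780002fe88d) b16220 (.hit (nat_lit 11) (nat_lit 15) (nat_lit 0xbc0001780002fd141) b16223 (.tok (nat_lit 55) (nat_lit 0xbc000178000300000) (.hit (nat_lit 9) (nat_lit 8) (nat_lit 0xbc000178000300000) b16221 (.hit (nat_lit 12) (nat_lit 16) (nat_lit 0xbc0001780002fed5e) b16224 (.one (nat_lit 6) (nat_lit 10) (nat_lit 9) (nat_lit 0xbc0001780002fe9d0) b16222 (.nil)))) (.nil)))) (.nil)))) (.tok (nat_lit 9) (nat_lit 0xbc0001780002ff5b8) (.hit (nat_lit 13) (nat_lit 0) (nat_lit 0xbc0001780002fef7b) b16225 (.tok (nat_lit 3) (nat_lit 0xbc0001780002fec09) (.hit (nat_lit 14) (nat_lit 1) (nat_lit 0xbc0001780002fdf83) b16226 (.one (nat_lit 55) (nat_lit 15) (nat_lit 3) (nat_lit 0xbc0001780002fec09) b16227 (.nil))) (.tok (nat_lit 9) (nat_lit 0xbc0001780002ff5b8) (.hit (nat_lit 16) (nat_lit 20) (nat_lit 0xbc0001780002fe141) b16228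 (.hit (nat_lit 19) (nat_lit 28) (nat_lit 0xbc0001780002fdd2e) b16231 (.tok (nat_lit 67) (nat_lit 0xbc0001780002ff5b8) (.hit (nat_lit 17) (nat_lit 21) (nat_lit 0xbc0001780002ff21e) b16229 (.hit (nat_lit 20) (nat_lit 29) (nat_lit 0xbc0001780002ff5b8) b16232 (.one (nat_lit 9) (nat_lit 18) (nat_lit 22) (nat_lit 0xbc0001780002feff9) b16230 (.nil)))) (.nil)))) (.nil)))) (.nil)))
noncomputable def r20_105 : Rw Blk := .tok (nat_lit 3) (nat_lit 0xbc0001780002fcd65) (.hit (nat_lit 0) (nat_lit 0) (nat_lit 0xbc0001780002fcd65) b16425 (.tok (nat_lit 6) (nat_lit 0xbc0001780002fbc12) (.hit (nat_lit 1) (nat_lit 7) (nat_lit 0xbc0001780002fbbba) b16428 (.hit (nat_lit 2) (nat_lit 15) (nat_lit 0xbc0001780002fbc12) b16429 (.nil))) (.tok (nat_lit 9) (nat_lit 0xbc0001780002fbbd6) (.hit (nat_lit 3) (nat_lit 20) (nat_lit 0xbc0001780002fbab5) b16426 (.hit (nat_lit 4) (nat_lit 28) (nat_lit 0xbc0001780002fbbd6)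 b16427 (.nil))) (.nil)))) (.tok (nat_lit 6) (nat_lit 0xbc000178000300aac) (.hit (nat_lit 13) (nat_lit 0) (nat_lit 0xbc0001780002fd94b) b16438 (.one (nat_lit 3) (nat_lit 14) (nat_lit 1) (nat_lit 0xbc0001780002fba01) b16439 (.tok (nat_lit 6) (nat_lit 0xbc000178000300aac) (.hit (nat_lit 15) (nat_lit 7) (nat_lit 0xbc0001780002fddc8) b16440 (.hit (nat_lit 19) (nat_lit 15) (nat_lit 0xbc0001780002fc3c6) b16444 (.tok (nat_lit 55) (nat_lit 0xbc000178000300aac) (.hit (nat_lit 16) (nat_lit 8) (nat_lit 0xbc000178000300aac) b16441 (.hit (nat_lit 20) (nat_lit 16) (nat_lit 0xbc0001780002fde65) b16445 (.tok (nat_lit 6) (nat_lit 0xbc0001780002ffb88) (.hit (nat_lit 17) (nat_lit 9) (nat_lit 0xbc0001780002feb4d) b16442 (.one (nat_lit 55) (nat_lit 18) (nat_lit 10) (nat_lit 0xbc0001780002ffb88) b16443 (.nil))) (.nil)))) (.nil)))) (.nil)))) (.tok (nat_lit 9) (nat_lit 0xbc0001780002fe468) (.hit (nat_lit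 5) (nat_lit 0) (nat_lit 0xbc0001780002fe468) b16430 (.one (nat_lit 3) (nat_lit 6) (nat_lit 1) (nat_lit 0xbc0001780002fa9ac) b16431 (.tok (nat_lit 9) (nat_lit 0xbc0001780002fdc4c) (.hit (nat_lit 7) (nat_lit 20) (nat_lit 0xbc0001780002fbcfd) b16432 (.hit (nat_lit 11) (nat_lit 28) (nat_lit 0xbc0001780002fb1cc) b16436 (.tok (nat_lit 67) (nat_lit 0xbc0001780002fdc4c) (.hit (nat_lit 8) (nat_lit 21) (nat_lit 0xbc0001780002fce81) b16433 (.hit (nat_lit 12) (nat_lit 29) (nat_lit 0xbc0001780002fcc66) b16437 (.tok (nat_lit 9) (nat_lit 0xbc0001780002fdc4c) (.hit (nat_lit 9) (nat_lit 22) (nat_lit 0xbc0001780002fcd3c) b16434 (.one (nat_lit 67) (nat_lit 10) (nat_lit 23) (nat_lit 0xbc0001780002fdc4c) b16435 (.nil))) (.nil)))) (.nil)))) (.nil)))) (.nil)))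
noncomputable def r20_106 : Rw Blk := .tok (nat_lit 3) (nat_lit 0xbc0001780002fd981) (.hit (nat_lit 0) (nat_lit 0) (nat_lit 0xbc0001780002fd981) b16254 (.tok (nat_lit 6) (nat_lit 0xbc0001780002fce52) (.hit (nat_lit 1) (nat_lit 7) (nat_lit 0xbc0001780002fcdd6) b16255 (.hit (nat_lit 2) (nat_lit 15) (nat_lit 0xbc0001780002fce52) b16256 (.nil))) (.tok (nat_lit 9) (nat_lit 0xbc0001780002fcf09) (.hit (nat_lit 3) (nat_lit 20) (nat_lit 0xbc0001780002fcc73) b16257 (.hit (nat_lit 4) (nat_lit 28) (nat_lit 0xbc0001780002fcf09) b16258 (.nil))) (.nil)))) (.tok (nat_lit 6) (nat_lit 0xbc0001780002ff504) (.hit (nat_lit 13) (nat_lit 0) (nat_lit 0xbc0001780002fe077) b16267 (.one (nat_lit 3) (nat_lit 14) (nat_lit 1) (nat_lit 0xbc0001780002fc861) b16268 (.tok (nat_lit 6) (nat_lit 0xbc0001780002ff504) (.hit (nat_lit 15) (nat_lit 7) (nat_lit 0xbc0001780002fdcea) b16269 (.hit (nat_lit 19) (nat_lit 15)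 (nat_lit 0xbc0001780002fd969) b16273 (.tok (nat_lit 55) (nat_lit 0xbc0001780002ff504) (.hit (nat_lit 16) (nat_lit 8) (nat_lit 0xbc0001780002fee22) b16270 (.hit (nat_lit 20) (nat_lit 16) (nat_lit 0xbc0001780002fecb7) b16274 (.tok (nat_lit 6) (nat_lit 0xbc0001780002ff504) (.hit (nat_lit 17) (nat_lit 9) (nat_lit 0xbc0001780002fe768) b16271 (.one (nat_lit 55) (nat_lit 18) (nat_lit 10) (nat_lit 0xbc0001780002ff504) b16272 (.nil))) (.nil)))) (.nil)))) (.nil)))) (.tok (nat_lit 9) (nat_lit 0xbc000178000300000) (.hit (nat_lit 5) (nat_lit 0) (nat_lit 0xbc0001780002febb5) b16259 (.one (nat_lit 3) (nat_lit 6) (nat_lit 1) (nat_lit 0xbc0001780002fc944) b16260 (.tok (nat_lit 9) (nat_lit 0xbc000178000300000) (.hit (nat_lit 7) (nat_lit 20) (nat_lit 0xbc0001780002fe06e) b16261 (.hit (nat_lit 11) (nat_lit 28) (nat_lit 0xbc0001780002fd170) b16265 (.tok (nat_lit 67) (nat_lit 0xbc000178000300000)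 (.hit (nat_lit 8) (nat_lit 21) (nat_lit 0xbc000178000300000) b16262 (.hit (nat_lit 12) (nat_lit 29) (nat_lit 0xbc0001780002ff236) b16266 (.tok (nat_lit 9) (nat_lit 0xbc0001780002ff727) (.hit (nat_lit 9) (nat_lit 22) (nat_lit 0xbc0001780002ff372) b16263 (.one (nat_lit 67) (nat_lit 10) (nat_lit 23) (nat_lit 0xbc0001780002ff727) b16264 (.nil))) (.nil)))) (.nil)))) (.nil)))) (.nil)))
noncomputable def r20_107 : Rw Blk := .tok (nat_lit 3) (nat_lit 0x2fcef85fb870bfb2e97ec15afd1035fd314bf9c8d7eb06afd78d) (.hit (nat_lit 14) (nat_lit 0) (nat_lit 0x2fcef85fb474bf879d7ec15afce0d5fc112bf73bd7eae42fd75a) b16460 (.tok (nat_lit 6) (nat_lit 0x2fce3f5fb870bfb2e97eae4afd1035fd314bf9c8d7eb06afd78d) (.hit (nat_lit 15) (nat_lit 7) (nat_lit 0x2fce3f5fb870bfb2e97eae4afd1035fd314bf9c8d7eb06afd78d) b16463 (.hit (nat_lit 16) (nat_lit 15) (nat_lit 0x2fc82c5fa86abf65e17e7db2fcaf05fc8aabf89c57e7fd2fd17a)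 b16464 (.nil))) (.tok (nat_lit 9) (nat_lit 0x2fb43b5f93c6bf3ab57dde2afb6ff5fb578bf61597de04afbd89) (.hit (nat_lit 17) (nat_lit 20) (nat_lit 0x2fb43b5f93c6bf3ab57dde2afb6ff5fb578bf61597de04afbd89) b16461 (.hit (nat_lit 18) (nat_lit 28) (nat_lit 0x2fa08a5f7db4bf11117d40a2fa34e5f9b5cbf2f297d42c2fa9d8) b16462 (.nil))) (.nil)))) (.tok (nat_lit 6) (nat_lit 0x3000005ff7fcbfc82d80464b004b95ff7a0bfe40980332300ca5) (.hit (nat_lit 9) (nat_lit 0) (nat_lit 0x2fde045fb8e4bfa71d7f4a52fdfcb5fd246bf93d17f3ebafea34) b16455 (.tok (nat_lit 3) (nat_lit 0x3000005ff7fcbfc82d80464b004b95ff7a0bfe40980332300ca5) (.hit (nat_lit 10) (nat_lit 1) (nat_lit 0x2fe0585fd710bf7b557f138afde8f5fd232bf98897f48fafe890) b16456 (.one (nat_lit 67) (nat_lit 11) (nat_lit 2) (nat_lit 0x3000005ff7fcbfc82d80464b004b95ff7a0bfe40980332300ca5) b16457 (.nil))) (.tok (nat_lit 6) (nat_lit 0x2fefef5fc500bfb0557ff5f2ff3215fe05abfb45d80112b0003b)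 (.hit (nat_lit 12) (nat_lit 7) (nat_lit 0x2fefef5fc500bfb0557ff5f2ff3215fe05abfb45d80112b0003b) b16458 (.hit (nat_lit 13) (nat_lit 15) (nat_lit 0x2fd77c5fbe42bf63c17ee1e2fdb385fc302bf7a297f0372fdfdf) b16459 (.nil))) (.nil)))) (.tok (nat_lit 9) (nat_lit 0x2fe826600000c000017f35aafe1ef600000c000017f6b82fef02) (.hit (nat_lit 0) (nat_lit 0) (nat_lit 0x2fe8265fcaacbfb0a17f1dfafe1735fe55cbfb8e57f6b82fef02) b16446 (.tok (nat_lit 3) (nat_lit 0x2fd1835ff318bfcb857ec86afd4475ff2f4bfde8d7eca8afdad1) (.hit (nat_lit 1) (nat_lit 1) (nat_lit 0x2fbe465fb02ebf67397e2e82fc10a5fcf08bf96b57e30a2fc794) b16447 (.one (nat_lit 55) (nat_lit 2) (nat_lit 3) (nat_lit 0x2fd1835ff318bfcb857ec86afd4475ff2f4bfde8d7eca8afdad1) b16448 (.nil))) (.tok (nat_lit 9) (nat_lit 0x2fdf2b600000c000017f35aafe1ef600000c000017f37cafe879) (.hit (nat_lit 3) (nat_lit 20) (nat_lit 0x2fcb6d5fc432bf83397e97bafce315fd34cbf95217e99dafd4bb)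 b16449 (.hit (nat_lit 7) (nat_lit 28) (nat_lit 0x2fc28b5fc35cbf56c97e50aafc54f5fc32abf7ef97e52cafcbd9) b16453 (.tok (nat_lit 67) (nat_lit 0x2fdf2b600000c000017f35aafe1ef600000c000017f37cafe879) (.hit (nat_lit 4) (nat_lit 21) (nat_lit 0x2fd8ea5fe726bfd6657f03a2fdbae5ff8eabfe4bd7f05c2fe238) b16450 (.hit (nat_lit 8) (nat_lit 29) (nat_lit 0x2fd45a600000c000017edf22fd71e600000bff8a57ee142fdda8) b16454 (.tok (nat_lit 9) (nat_lit 0x2fdf2b5fea3abff87d7f35aafe1ef5fffd0c000017f37cafe879) (.hit (nat_lit 5) (nat_lit 22) (nat_lit 0x2fd5ec5fd4ccbfa7897eebb2fd8b05fec5abfd17d7eedd2fdf3a) b16451 (.one (nat_lit 67) (nat_lit 6) (nat_lit 23) (nat_lit 0x2fdf2b5fea3abff87d7f35aafe1ef5fffd0c000017f37cafe879) b16452 (.nil))) (.nil)))) (.nil)))) (.nil)))) (.nil)))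
noncomputable def r20_108 : Rw Blk := .tok (nat_lit 3) (nat_lit 0xbc0001780002ff1e1) (.hit (nat_lit 0) (nat_lit 0) (nat_lit 0xbc0001780002fde50) b16465 (.tok (nat_lit 6) (nat_lit 0xbc0001780002fcfda) (.hit (nat_lit 1) (nat_lit 7) (nat_lit 0xbc0001780002fbe35) b16466 (.hit (nat_lit 4) (nat_lit 15) (nat_lit 0xbc0001780002fb70f) b16469 (.tok (nat_lit 14) (nat_lit 0xbc0001780002fcfda) (.hit (nat_lit 2) (nat_lit 11) (nat_lit 0xbc0001780002fcd4d) b16467 (.hit (nat_lit 5) (nat_lit 17) (nat_lit 0xbc0001780002fc50a) b16470 (.one (nat_lit 9) (nat_lit 3) (nat_lit 12) (nat_lit 0xbc0001780002fcfda) b16468 (.nil)))) (.one (nat_lit 68) (nat_lit 6) (nat_lit 18) (nat_lit 0xbc0001780002fcca9) b16471 (.nil))))) (.tok (nat_lit 52) (nat_lit 0xbc0001780002fdbc0) (.hit (nat_lit 7) (nat_lit 39) (nat_lit 0xbc0001780002fdbc0) b16472 (.hit (nat_lit 8) (nat_lit 40) (nat_lit 0xbc0001780002fd7ef) b16473 (.nil)))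 (.tok (nat_lit 55) (nat_lit 0xbc0001780002ff1e1) (.hit (nat_lit 9) (nat_lit 41) (nat_lit 0xbc0001780002ff1e1) b16474 (.tok (nat_lit 3) (nat_lit 0xbc0001780002fdd35) (.hit (nat_lit 12) (nat_lit 47) (nat_lit 0xbc0001780002fda99) b16477 (.one (nat_lit 67) (nat_lit 13) (nat_lit 48) (nat_lit 0xbc0001780002fdd35) b16478 (.nil))) (.tok (nat_lit 6) (nat_lit 0xbc0001780002fe72a) (.hit (nat_lit 10) (nat_lit 42) (nat_lit 0xbc0001780002fe72a) b16475 (.hit (nat_lit 11) (nat_lit 45) (nat_lit 0xbc0001780002fd767) b16476 (.nil))) (.nil)))) (.one (nat_lit 58) (nat_lit 14) (nat_lit 49) (nat_lit 0xbc0001780002fd429) b16479 (.nil)))))) (.tok (nat_lit 9) (nat_lit 0xbc0001780003028eb) (.hit (nat_lit 15) (nat_lit 0) (nat_lit 0xbc0001780002fe121) b16480 (.tok (nat_lit 9) (nat_lit 0xbc0001780002fe3cc) (.hit (nat_lit 16) (nat_lit 20) (nat_lit 0xbc0001780002fd1d6) b16481 (.hit (nat_lit 21) (nat_lit 28)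 (nat_lit 0xbc0001780002fbfac) b16486 (.tok (nat_lit 14) (nat_lit 0xbc0001780002fe3cc) (.hit (nat_lit 17) (nat_lit 24) (nat_lit 0xbc0001780002fdc18) b16482 (.hit (nat_lit 22) (nat_lit 30) (nat_lit 0xbc0001780002fde2f) b16487 (.one (nat_lit 6) (nat_lit 18) (nat_lit 25) (nat_lit 0xbc0001780002fe3cc) b16483 (.nil)))) (.one (nat_lit 56) (nat_lit 23) (nat_lit 31) (nat_lit 0xbc0001780002fd050) b16488 (.tok (nat_lit 68) (nat_lit 0xbc0001780002fe05b) (.hit (nat_lit 19) (nat_lit 26) (nat_lit 0xbc0001780002fe04f) b16484 (.hit (nat_lit 24) (nat_lit 32) (nat_lit 0xbc0001780002fd858) b16489 (.one (nat_lit 9) (nat_lit 20) (nat_lit 27) (nat_lit 0xbc0001780002fe05b) b16485 (.nil)))) (.nil)))))) (.tok (nat_lit 64) (nat_lit 0xbc0001780002fe326) (.hit (nat_lit 25) (nat_lit 50) (nat_lit 0xbc0001780002fd369) b16490 (.hit (nat_lit 26) (nat_lit 51) (nat_lit 0xbc0001780002fe326) b16491 (.nil))) (.tok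 (nat_lit 67) (nat_lit 0xbc0001780003028eb) (.hit (nat_lit 27) (nat_lit 52) (nat_lit 0xbc0001780002ff620) b16492 (.tok (nat_lit 3) (nat_lit 0xbc0001780002ff97f) (.hit (nat_lit 33) (nat_lit 58) (nat_lit 0xbc0001780002fee18) b16498 (.one (nat_lit 55) (nat_lit 34) (nat_lit 59) (nat_lit 0xbc0001780002ff97f) b16499 (.nil))) (.tok (nat_lit 9) (nat_lit 0xbc0001780003028eb) (.hit (nat_lit 28) (nat_lit 53) (nat_lit 0xbc000178000300827) b16493 (.hit (nat_lit 31) (nat_lit 56) (nat_lit 0xbc0001780002fe04b) b16496 (.tok (nat_lit 67) (nat_lit 0xbc0001780003028eb) (.hit (nat_lit 29) (nat_lit 54) (nat_lit 0xbc000178000300de5) b16494 (.hit (nat_lit 32) (nat_lit 57) (nat_lit 0xbc0001780002ffd3b) b16497 (.one (nat_lit 9) (nat_lit 30) (nat_lit 55) (nat_lit 0xbc0001780003028eb) b16495 (.nil)))) (.nil)))) (.nil)))) (.one (nat_lit 70) (nat_lit 35) (nat_lit 60) (nat_lit 0xbc0001780002fde5f) b16500 (.nil))))))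 (.nil))
noncomputable def r20_109 : Rw Blk := .tok (nat_lit 3) (nat_lit 0xbc00017f33fafde68) (.hit (nat_lit 0) (nat_lit 0) (nat_lit 0xbc00017ee202fce01) b16501 (.tok (nat_lit 9) (nat_lit 0xbc00017ec912fd662) (.hit (nat_lit 1) (nat_lit 20) (nat_lit 0xbc00017dfb7afbcaf) b16502 (.hit (nat_lit 6) (nat_lit 28) (nat_lit 0xbc00017dd822fb844) b16507 (.tok (nat_lit 14) (nat_lit 0xbc00017e74bafcbd7) (.hit (nat_lit 2) (nat_lit 24) (nat_lit 0xbc00017e6f12fcb22) b16503 (.hit (nat_lit 7) (nat_lit 30) (nat_lit 0xbc00017e2b7afc2af) b16508 (.one (nat_lit 6) (nat_lit 3) (nat_lit 25) (nat_lit 0xbc00017e74bafcbd7) b16504 (.nil)))) (.tok (nat_lit 68) (nat_lit 0xbc00017ec912fd662) (.hit (nat_lit 4) (nat_lit 26) (nat_lit 0xbc00017e977afd02f) b16505 (.hit (nat_lit 8) (nat_lit 32) (nat_lit 0xbc00017e0d62fbeec) b16509 (.one (nat_lit 9) (nat_lit 5) (nat_lit 27) (nat_lit 0xbc00017ec912fd662) b16506 (.nil))))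 (.nil))))) (.tok (nat_lit 64) (nat_lit 0xbc00017e9232fcf86) (.hit (nat_lit 9) (nat_lit 50) (nat_lit 0xbc00017e9232fcf86) b16510 (.hit (nat_lit 10) (nat_lit 51) (nat_lit 0xbc00017e902afcf45) b16511 (.nil))) (.tok (nat_lit 67) (nat_lit 0xbc00017f33fafde68) (.hit (nat_lit 11) (nat_lit 52) (nat_lit 0xbc00017f33fafdb2d) b16512 (.tok (nat_lit 3) (nat_lit 0xbc00017f0942fde68) (.hit (nat_lit 17) (nat_lit 58) (nat_lit 0xbc00017ece82fd710) b16518 (.one (nat_lit 55) (nat_lit 18) (nat_lit 59) (nat_lit 0xbc00017f0942fde68) b16519 (.nil))) (.tok (nat_lit 9) (nat_lit 0xbc00017ec012fd542) (.hit (nat_lit 12) (nat_lit 53) (nat_lit 0xbc00017e707afcb4f) b16513 (.hit (nat_lit 15) (nat_lit 56) (nat_lit 0xbc00017e84fafcddf) b16516 (.tok (nat_lit 67) (nat_lit 0xbc00017ec012fd542) (.hit (nat_lit 13) (nat_lit 54) (nat_lit 0xbc00017ec012fd542) b16514 (.hit (nat_lit 16) (nat_lit 57) (nat_lit 0xbc00017ebae2fd49c)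 b16517 (.one (nat_lit 9) (nat_lit 14) (nat_lit 55) (nat_lit 0xbc00017eadfafd2ff) b16515 (.nil)))) (.nil)))) (.nil)))) (.one (nat_lit 70) (nat_lit 19) (nat_lit 60) (nat_lit 0xbc00017e446afc5cd) b16520 (.nil)))))) (.tok (nat_lit 6) (nat_lit 0xbc000181510b02594) (.hit (nat_lit 20) (nat_lit 0) (nat_lit 0xbc00017f03cafdb62) b16521 (.tok (nat_lit 6) (nat_lit 0xbc000181510b02594) (.hit (nat_lit 21) (nat_lit 7) (nat_lit 0xbc00017ef97afe409) b16522 (.hit (nat_lit 26) (nat_lit 15) (nat_lit 0xbc00017dfa52fbc52) b16527 (.tok (nat_lit 14) (nat_lit 0xbc000181510b02594) (.hit (nat_lit 22) (nat_lit 11) (nat_lit 0xbc000181510b02594) b16523 (.hit (nat_lit 27) (nat_lit 17) (nat_lit 0xbc00017f1592fe06b) b16528 (.one (nat_lit 9) (nat_lit 23) (nat_lit 12) (nat_lit 0xbc0001806853009a3) b16524 (.nil)))) (.tok (nat_lit 56) (nat_lit 0xbc00017fe81b0030e) (.hit (nat_lit 24) (nat_lit 13) (nat_lit 0xbc00017fe81affc46)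 b16525 (.hit (nat_lit 29) (nat_lit 19) (nat_lit 0xbc00017e834afd04f) b16530 (.one (nat_lit 6) (nat_lit 25) (nat_lit 14) (nat_lit 0xbc00017f32bb0030e) b16526 (.nil)))) (.one (nat_lit 68) (nat_lit 28) (nat_lit 18) (nat_lit 0xbc00017ea602fda87) b16529 (.nil)))))) (.nil))) (.nil))
noncomputable def r20_110 : Rw Blk := .tok (nat_lit 3) (nat_lit 0xbc0001780002feef0) (.hit (nat_lit 0) (nat_lit 0) (nat_lit 0xbc0001780002fe411) b8609 (.tok (nat_lit 9) (nat_lit 0xbc0001780002fe483) (.hit (nat_lit 1) (nat_lit 20) (nat_lit 0xbc0001780002fca57) b8610 (.hit (nat_lit 6) (nat_lit 28) (nat_lit 0xbc0001780002fc62b) b8615 (.tok (nat_lit 14) (nat_lit 0xbc0001780002fdbf0) (.hit (nat_lit 2) (nat_lit 24) (nat_lit 0xbc0001780002fdbf0) b8611 (.hit (nat_lit 7) (nat_lit 30) (nat_lit 0xbc0001780002fd200) b8616 (.one (nat_lit 6) (nat_lit 3) (nat_lit 25) (nat_lit 0xbc0001780002fdaaa) b8612 (.nil)))) (.tok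 (nat_lit 68) (nat_lit 0xbc0001780002fe483) (.hit (nat_lit 4) (nat_lit 26) (nat_lit 0xbc0001780002fdf68) b8613 (.hit (nat_lit 8) (nat_lit 32) (nat_lit 0xbc0001780002fd0d0) b8617 (.one (nat_lit 9) (nat_lit 5) (nat_lit 27) (nat_lit 0xbc0001780002fe483) b8614 (.nil)))) (.nil))))) (.tok (nat_lit 64) (nat_lit 0xbc0001780002fe10e) (.hit (nat_lit 9) (nat_lit 50) (nat_lit 0xbc0001780002fe10e) b8618 (.hit (nat_lit 10) (nat_lit 51) (nat_lit 0xbc0001780002fdd46) b8619 (.nil))) (.tok (nat_lit 67) (nat_lit 0xbc0001780002feef0) (.hit (nat_lit 11) (nat_lit 52) (nat_lit 0xbc0001780002feef0) b8620 (.tok (nat_lit 3) (nat_lit 0xbc0001780002fe593) (.hit (nat_lit 17) (nat_lit 58) (nat_lit 0xbc0001780002fe593) b8626 (.one (nat_lit 55) (nat_lit 18) (nat_lit 59) (nat_lit 0xbc0001780002fe0ee) b8627 (.nil))) (.tok (nat_lit 9) (nat_lit 0xbc0001780002fec81) (.hit (nat_lit 12) (nat_lit 53) (nat_lit 0xbc0001780002fe97b)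 b8621 (.hit (nat_lit 15) (nat_lit 56) (nat_lit 0xbc0001780002fd8a5) b8624 (.tok (nat_lit 67) (nat_lit 0xbc0001780002fec81) (.hit (nat_lit 13) (nat_lit 54) (nat_lit 0xbc0001780002feab4) b8622 (.hit (nat_lit 16) (nat_lit 57) (nat_lit 0xbc0001780002fdea6) b8625 (.one (nat_lit 9) (nat_lit 14) (nat_lit 55) (nat_lit 0xbc0001780002fec81) b8623 (.nil)))) (.nil)))) (.nil)))) (.one (nat_lit 70) (nat_lit 19) (nat_lit 60) (nat_lit 0xbc0001780002fdbf7) b8628 (.nil)))))) (.tok (nat_lit 6) (nat_lit 0xbc000178000300000) (.hit (nat_lit 20) (nat_lit 0) (nat_lit 0xbc0001780002fe5ca) b8629 (.tok (nat_lit 6) (nat_lit 0xbc000178000300000) (.hit (nat_lit 21) (nat_lit 7) (nat_lit 0xbc0001780002fe116) b8630 (.hit (nat_lit 26) (nat_lit 15) (nat_lit 0xbc0001780002fd333) b8635 (.tok (nat_lit 14) (nat_lit 0xbc000178000300000) (.hit (nat_lit 22) (nat_lit 11) (nat_lit 0xbc000178000300000) b8631 (.hit (nat_lit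 27) (nat_lit 17) (nat_lit 0xbc0001780002fef00) b8636 (.one (nat_lit 9) (nat_lit 23) (nat_lit 12) (nat_lit 0xbc0001780002ffdb3) b8632 (.nil)))) (.tok (nat_lit 56) (nat_lit 0xbc0001780002fee80) (.hit (nat_lit 24) (nat_lit 13) (nat_lit 0xbc0001780002fee80) b8633 (.hit (nat_lit 29) (nat_lit 19) (nat_lit 0xbc0001780002fe24a) b8638 (.one (nat_lit 6) (nat_lit 25) (nat_lit 14) (nat_lit 0xbc0001780002fe9d7) b8634 (.nil)))) (.one (nat_lit 68) (nat_lit 28) (nat_lit 18) (nat_lit 0xbc0001780002feafd) b8637 (.nil)))))) (.nil))) (.nil))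
noncomputable def r20_111 : Rw Blk := .tok (nat_lit 6) (nat_lit 0xbc000178000300000) (.hit (nat_lit 0) (nat_lit 0) (nat_lit 0xbc0001780002ff173) b8639 (.tok (nat_lit 3) (nat_lit 0xbc0001780002fefbb) (.hit (nat_lit 1) (nat_lit 1) (nat_lit 0xbc0001780002fd927) b8640 (.one (nat_lit 14) (nat_lit 2) (nat_lit 4) (nat_lit 0xbc0001780002fefbb) b8641 (.one (nat_lit 56) (nat_lit 4) (nat_lit 6) (nat_lit 0xbc0001780002fed92) b8643 (.one (nat_lit 68) (nat_lit 3) (nat_lit 5) (nat_lit 0xbc0001780002fed23) b8642 (.nil))))) (.tok (nat_lit 40) (nat_lit 0xbc0001780002fdfbe) (.hit (nat_lit 5) (nat_lit 33) (nat_lit 0xbc0001780002fdef8) b8644 (.hit (nat_lit 6) (nat_lit 34) (nat_lit 0xbc0001780002fdfbe) b8645 (.nil))) (.tok (nat_lit 43) (nat_lit 0xbc0001780002fef53) (.hit (nat_lit 7) (nat_lit 35) (nat_lit 0xbc0001780002fef53) b8646 (.hit (nat_lit 8) (nat_lit 36) (nat_lit 0xbc0001780002fe515) b8647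 (.nil))) (.tok (nat_lit 46) (nat_lit 0xbc000178000300000) (.hit (nat_lit 9) (nat_lit 37) (nat_lit 0xbc0001780002fd94d) b8648 (.hit (nat_lit 10) (nat_lit 38) (nat_lit 0xbc000178000300000) b8649 (.nil))) (.nil)))))) (.tok (nat_lit 9) (nat_lit 0xbc0001780002ff6d9) (.hit (nat_lit 11) (nat_lit 0) (nat_lit 0xbc0001780002fdf6e) b8650 (.tok (nat_lit 3) (nat_lit 0xbc0001780002ff6d9) (.hit (nat_lit 12) (nat_lit 1) (nat_lit 0xbc0001780002fd50d) b8651 (.one (nat_lit 14) (nat_lit 13) (nat_lit 4) (nat_lit 0xbc0001780002ff6d9) b8652 (.one (nat_lit 56) (nat_lit 15) (nat_lit 6) (nat_lit 0xbc0001780002fe778) b8654 (.one (nat_lit 68) (nat_lit 14) (nat_lit 5) (nat_lit 0xbc0001780002fe963) b8653 (.nil))))) (.nil))) (.nil))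
noncomputable def r20_112 : Rw Blk := .tok (nat_lit 3) (nat_lit 0xbc0001780002fe3d7) (.hit (nat_lit 14) (nat_lit 0) (nat_lit 0xbc0001780002fe3d7) b16420 (.tok (nat_lit 6) (nat_lit 0xbc0001780002fbfa5) (.hit (nat_lit 15) (nat_lit 7) (nat_lit 0xbc0001780002fbfa5) b16421 (.hit (nat_lit 16) (nat_lit 15) (nat_lit 0xbc0001780002fb366) b16422 (.nil))) (.tok (nat_lit 9) (nat_lit 0xbc0001780002fdd62) (.hit (nat_lit 17) (nat_lit 20) (nat_lit 0xbc0001780002fdd62) b16423 (.hit (nat_lit 18) (nat_lit 28) (nat_lit 0xbc0001780002fdd53) b16424 (.nil))) (.nil)))) (.tok (nat_lit 6) (nat_lit 0xbc000178000300000) (.hit (nat_lit 0) (nat_lit 0) (nat_lit 0xbc0001780002ff2e4) b16406 (.tok (nat_lit 3) (nat_lit 0xbc000178000300000) (.hit (nat_lit 1) (nat_lit 1) (nat_lit 0xbc0001780002fe642) b16407 (.one (nat_lit 67) (nat_lit 2) (nat_lit 2) (nat_lit 0xbc000178000300000) b16408 (.nil))) (.tok (nat_lit 6)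 (nat_lit 0xbc0001780002fff68) (.hit (nat_lit 3) (nat_lit 7) (nat_lit 0xbc0001780002ff5f5) b16409 (.hit (nat_lit 7) (nat_lit 15) (nat_lit 0xbc0001780002fe5a5) b16413 (.tok (nat_lit 55) (nat_lit 0xbc0001780002fff68) (.hit (nat_lit 4) (nat_lit 8) (nat_lit 0xbc0001780002fff35) b16410 (.hit (nat_lit 8) (nat_lit 16) (nat_lit 0xbc0001780002ff978) b16414 (.tok (nat_lit 6) (nat_lit 0xbc0001780002fff68) (.hit (nat_lit 5) (nat_lit 9) (nat_lit 0xbc0001780002ff734) b16411 (.one (nat_lit 55) (nat_lit 6) (nat_lit 10) (nat_lit 0xbc0001780002fff68) b16412 (.nil))) (.nil)))) (.nil)))) (.nil)))) (.tok (nat_lit 9) (nat_lit 0xbc0001780002ff73d) (.hit (nat_lit 9) (nat_lit 0) (nat_lit 0xbc0001780002fe92a) b16415 (.tok (nat_lit 3) (nat_lit 0xbc0001780002ff73d) (.hit (nat_lit 10) (nat_lit 1) (nat_lit 0xbc0001780002fdf1e) b16416 (.one (nat_lit 55) (nat_lit 11) (nat_lit 3) (nat_lit 0xbc0001780002ff73d)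 b16417 (.nil))) (.tok (nat_lit 9) (nat_lit 0xbc0001780002fef3b) (.hit (nat_lit 12) (nat_lit 20) (nat_lit 0xbc0001780002fef3b) b16418 (.hit (nat_lit 13) (nat_lit 28) (nat_lit 0xbc0001780002fe315) b16419 (.nil))) (.nil)))) (.nil)))
noncomputable def r20_113 : Rw Blk := .tok (nat_lit 3) (nat_lit 0xbc0001780002fd52a) (.hit (nat_lit 0) (nat_lit 0) (nat_lit 0xbc0001780002fd52a) b16212 (.tok (nat_lit 6) (nat_lit 0xbc0001780002fd05f) (.hit (nat_lit 1) (nat_lit 7) (nat_lit 0xbc0001780002fd044) b16215 (.hit (nat_lit 2) (nat_lit 15) (nat_lit 0xbc0001780002fd05f) b16216 (.nil))) (.tok (nat_lit 9) (nat_lit 0xbc0001780002fce4b) (.hit (nat_lit 3) (nat_lit 20) (nat_lit 0xbc0001780002fce4b) b16213 (.hit (nat_lit 4) (nat_lit 28) (nat_lit 0xbc0001780002fcc28) b16214 (.nil))) (.nil)))) (.tok (nat_lit 6) (nat_lit 0xbc0001780002ff5b8) (.hit (nat_lit 13) (nat_lit 0) (nat_lit 0xbc0001780002fef7b) b16225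 (.tok (nat_lit 3) (nat_lit 0xbc0001780002fec09) (.hit (nat_lit 14) (nat_lit 1) (nat_lit 0xbc0001780002fdf83) b16226 (.one (nat_lit 67) (nat_lit 15) (nat_lit 2) (nat_lit 0xbc0001780002fec09) b16227 (.nil))) (.tok (nat_lit 6) (nat_lit 0xbc0001780002ff5b8) (.hit (nat_lit 16) (nat_lit 7) (nat_lit 0xbc0001780002fe141) b16228 (.hit (nat_lit 19) (nat_lit 15) (nat_lit 0xbc0001780002fdd2e) b16231 (.tok (nat_lit 55) (nat_lit 0xbc0001780002ff5b8) (.hit (nat_lit 17) (nat_lit 8) (nat_lit 0xbc0001780002ff21e) b16229 (.hit (nat_lit 20) (nat_lit 16) (nat_lit 0xbc0001780002ff5b8) b16232 (.one (nat_lit 6) (nat_lit 18) (nat_lit 9) (nat_lit 0xbc0001780002feff9) b16230 (.nil)))) (.nil)))) (.nil)))) (.tok (nat_lit 9) (nat_lit 0xbc000178000300000) (.hit (nat_lit 5) (nat_lit 0) (nat_lit 0xbc0001780002fe657) b16217 (.tok (nat_lit 3) (nat_lit 0xbc0001780002fee25) (.hit (nat_lit 6) (nat_lit 1) (nat_lit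 0xbc0001780002fd000) b16218 (.one (nat_lit 55) (nat_lit 7) (nat_lit 3) (nat_lit 0xbc0001780002fee25) b16219 (.nil))) (.tok (nat_lit 9) (nat_lit 0xbc000178000300000) (.hit (nat_lit 8) (nat_lit 20) (nat_lit 0xbc0001780002fe88d) b16220 (.hit (nat_lit 11) (nat_lit 28) (nat_lit 0xbc0001780002fd141) b16223 (.tok (nat_lit 67) (nat_lit 0xbc000178000300000) (.hit (nat_lit 9) (nat_lit 21) (nat_lit 0xbc000178000300000) b16221 (.hit (nat_lit 12) (nat_lit 29) (nat_lit 0xbc0001780002fed5e) b16224 (.one (nat_lit 9) (nat_lit 10) (nat_lit 22) (nat_lit 0xbc0001780002fe9d0) b16222 (.nil)))) (.nil)))) (.nil)))) (.nil)))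
noncomputable def r20_114 : Rw Blk := .tok (nat_lit 3) (nat_lit 0xbc0001780002fdcfe) (.hit (nat_lit 0) (nat_lit 0) (nat_lit 0xbc0001780002fdcfe) b16233 (.tok (nat_lit 6) (nat_lit 0xbc0001780002fcb6f) (.hit (nat_lit 1) (nat_lit 7) (nat_lit 0xbc0001780002fca4e) b16236 (.hit (nat_lit 2) (nat_lit 15) (nat_lit 0xbc0001780002fcb6f) b16237 (.nil))) (.tok (nat_lit 9) (nat_lit 0xbc0001780002fcbab) (.hit (nat_lit 3) (nat_lit 20) (nat_lit 0xbc0001780002fcb53) b16234 (.hit (nat_lit 4) (nat_lit 28) (nat_lit 0xbc0001780002fcbab) b16235 (.nil))) (.nil)))) (.tok (nat_lit 6) (nat_lit 0xbc0001780002ff401) (.hit (nat_lit 5) (nat_lit 0) (nat_lit 0xbc0001780002ff401) b16238 (.one (nat_lit 3) (nat_lit 6) (nat_lit 1) (nat_lit 0xbc0001780002fb945) b16239 (.tok (nat_lit 6) (nat_lit 0xbc0001780002febe5) (.hit (nat_lit 7) (nat_lit 7) (nat_lit 0xbc0001780002fcc96) b16240 (.hit (nat_lit 11) (nat_lit 15)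 (nat_lit 0xbc0001780002fc165) b16244 (.tok (nat_lit 55) (nat_lit 0xbc0001780002febe5) (.hit (nat_lit 8) (nat_lit 8) (nat_lit 0xbc0001780002fde1a) b16241 (.hit (nat_lit 12) (nat_lit 16) (nat_lit 0xbc0001780002fdbff) b16245 (.tok (nat_lit 6) (nat_lit 0xbc0001780002febe5) (.hit (nat_lit 9) (nat_lit 9) (nat_lit 0xbc0001780002fdcd5) b16242 (.one (nat_lit 55) (nat_lit 10) (nat_lit 10) (nat_lit 0xbc0001780002febe5) b16243 (.nil))) (.nil)))) (.nil)))) (.nil)))) (.tok (nat_lit 9) (nat_lit 0xbc000178000301a45) (.hit (nat_lit 13) (nat_lit 0) (nat_lit 0xbc0001780002fe8e4) b16246 (.one (nat_lit 3) (nat_lit 14) (nat_lit 1) (nat_lit 0xbc0001780002fc99a) b16247 (.tok (nat_lit 9) (nat_lit 0xbc000178000301a45) (.hit (nat_lit 15) (nat_lit 20) (nat_lit 0xbc0001780002fed61) b16248 (.hit (nat_lit 19) (nat_lit 28) (nat_lit 0xbc0001780002fd35f) b16252 (.tok (nat_lit 67) (nat_lit 0xbc000178000301a45)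 (.hit (nat_lit 16) (nat_lit 21) (nat_lit 0xbc000178000301a45) b16249 (.hit (nat_lit 20) (nat_lit 29) (nat_lit 0xbc0001780002fedfe) b16253 (.tok (nat_lit 9) (nat_lit 0xbc000178000300b21) (.hit (nat_lit 17) (nat_lit 22) (nat_lit 0xbc0001780002ffae6) b16250 (.one (nat_lit 67) (nat_lit 18) (nat_lit 23) (nat_lit 0xbc000178000300b21) b16251 (.nil))) (.nil)))) (.nil)))) (.nil)))) (.nil)))
noncomputable def r20_115 : Rw Blk := .tok (nat_lit 3) (nat_lit 0xbc0001780002fd981) (.hit (nat_lit 0) (nat_lit 0) (nat_lit 0xbc0001780002fd981) b16254 (.tok (nat_lit 6) (nat_lit 0xbc0001780002fcf09) (.hit (nat_lit 1) (nat_lit 7) (nat_lit 0xbc0001780002fcc73) b16257 (.hit (nat_lit 2) (nat_lit 15) (nat_lit 0xbc0001780002fcf09) b16258 (.nil))) (.tok (nat_lit 9) (nat_lit 0xbc0001780002fce52) (.hit (nat_lit 3) (nat_lit 20) (nat_lit 0xbc0001780002fcdd6) b16255 (.hit (nat_lit 4) (nat_lit 28) (nat_lit 0xbc0001780002fce52)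 b16256 (.nil))) (.nil)))) (.tok (nat_lit 6) (nat_lit 0xbc000178000300000) (.hit (nat_lit 5) (nat_lit 0) (nat_lit 0xbc0001780002febb5) b16259 (.one (nat_lit 3) (nat_lit 6) (nat_lit 1) (nat_lit 0xbc0001780002fc944) b16260 (.tok (nat_lit 6) (nat_lit 0xbc000178000300000) (.hit (nat_lit 7) (nat_lit 7) (nat_lit 0xbc0001780002fe06e) b16261 (.hit (nat_lit 11) (nat_lit 15) (nat_lit 0xbc0001780002fd170) b16265 (.tok (nat_lit 55) (nat_lit 0xbc000178000300000) (.hit (nat_lit 8) (nat_lit 8) (nat_lit 0xbc000178000300000) b16262 (.hit (nat_lit 12) (nat_lit 16) (nat_lit 0xbc0001780002ff236) b16266 (.tok (nat_lit 6) (nat_lit 0xbc0001780002ff727) (.hit (nat_lit 9) (nat_lit 9) (nat_lit 0xbc0001780002ff372) b16263 (.one (nat_lit 55) (nat_lit 10) (nat_lit 10) (nat_lit 0xbc0001780002ff727) b16264 (.nil))) (.nil)))) (.nil)))) (.nil)))) (.tok (nat_lit 9) (nat_lit 0xbc0001780002ff504) (.hit (nat_lit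 13) (nat_lit 0) (nat_lit 0xbc0001780002fe077) b16267 (.one (nat_lit 3) (nat_lit 14) (nat_lit 1) (nat_lit 0xbc0001780002fc861) b16268 (.tok (nat_lit 9) (nat_lit 0xbc0001780002ff504) (.hit (nat_lit 15) (nat_lit 20) (nat_lit 0xbc0001780002fdcea) b16269 (.hit (nat_lit 19) (nat_lit 28) (nat_lit 0xbc0001780002fd969) b16273 (.tok (nat_lit 67) (nat_lit 0xbc0001780002ff504) (.hit (nat_lit 16) (nat_lit 21) (nat_lit 0xbc0001780002fee22) b16270 (.hit (nat_lit 20) (nat_lit 29) (nat_lit 0xbc0001780002fecb7) b16274 (.tok (nat_lit 9) (nat_lit 0xbc0001780002ff504) (.hit (nat_lit 17) (nat_lit 22) (nat_lit 0xbc0001780002fe768) b16271 (.one (nat_lit 67) (nat_lit 18) (nat_lit 23) (nat_lit 0xbc0001780002ff504) b16272 (.nil))) (.nil)))) (.nil)))) (.nil)))) (.nil)))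
noncomputable def r20_116 : Rw Blk := .tok (nat_lit 3) (nat_lit 0xbf3be17ee1c2fecba5fb54cbf646d7f77c2feb2f5fd12abfa1a57f9062fedbb) (.hit (nat_lit 14) (nat_lit 0) (nat_lit 0xbf3be17ed1d2fe1e75fb54cbf646d7eff32fe1305fc9d6bfa1a57f513afe8e8) b16289 (.tok (nat_lit 6) (nat_lit 0xbed0ed7e4f1afcead5f8128befb2d7ec00afdc6b5f9d22bf1bd97e77cafcdc6) (.hit (nat_lit 15) (nat_lit 7) (nat_lit 0xbed0ed7e4f1afcead5f8128befb2d7ec00afdc6b5f9d22bf1bd97e5baafc699) b16292 (.hit (nat_lit 16) (nat_lit 15) (nat_lit 0xbe82297df6d2fc4445f59c6beac697e57aafcfdf5f75c0becd157e77cafcdc6) b16293 (.nil))) (.tok (nat_lit 9) (nat_lit 0xbf38fd7ee1c2fecba5fb530bf633d7f77c2feb2f5fd12abf83e97f9062fedbb) (.hit (nat_lit 17) (nat_lit 20) (nat_lit 0xbf38fd7ee1c2fecba5fb530bf633d7f77c2feb2f5fd12abf83e97f9062fedbb) b16290 (.hit (nat_lit 18) (nat_lit 28) (nat_lit 0xbf20b17ea1aafd9785fa90abf4af17f472afe66f5fc504bf6b9d7f46cafe801)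 b16291 (.nil))) (.nil)))) (.tok (nat_lit 6) (nat_lit 0xbfa099800003000005fd708bfa6ed80000300000600000c000017fdc72ff64a) (.hit (nat_lit 0) (nat_lit 0) (nat_lit 0xbfa0997f2ab2fec285fd50ebf9e317ff0f2ff8ed600000c000017f7c72fedb8) b16275 (.tok (nat_lit 3) (nat_lit 0xbf460d7fcc62ff2e15fbbb8bf704d7fb0b2ffb9f5fd7b2bf90f97fa8d2fefd6) (.hit (nat_lit 1) (nat_lit 1) (nat_lit 0xbef9197ec0bafd9ce5f953ebf23597f239afe9595fb138bf44057eac02fd0a4) b16276 (.one (nat_lit 67) (nat_lit 2) (nat_lit 2) (nat_lit 0xbf460d7fcc62ff2e15fbbb8bf704d7fb0b2ffb9f5fd7b2bf90f97fa8d2fefd6) b16277 (.nil))) (.tok (nat_lit 6) (nat_lit 0xbf7cad800003000005fd708bfa6ed800003000005ff302bfc7997fdc72ff64a) (.hit (nat_lit 3) (nat_lit 7) (nat_lit 0xbf2db57f10cafe0ce5faf8cbf57f57f6132fecf35fcb86bf78a17f153afddcb) b16278 (.hit (nat_lit 7) (nat_lit 15) (nat_lit 0xbf0a2d7f0d72fd5b25f9dc8bf346d7f1a22fe3c15fb9c2bf55197ee9e2fd7f8)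 b16282 (.tok (nat_lit 55) (nat_lit 0xbf7cad800003000005fd708bfa6ed800003000005ff302bfc7997fdc72ff64a) (.hit (nat_lit 4) (nat_lit 8) (nat_lit 0xbf63a97f9c9aff5995fca86bf8de97ff042ffae25fe680bfae957f8122feb48) b16279 (.hit (nat_lit 8) (nat_lit 16) (nat_lit 0xbf5169800003000005fc166bf7ba97fd843000005fdd60bf9c557fdc72ff64a) b16283 (.tok (nat_lit 6) (nat_lit 0xbf7cad7fa8eaffe1f5fd708bfa6ed800002ffab15ff302bfc7997fb32aff189) (.hit (nat_lit 5) (nat_lit 9) (nat_lit 0xbf57b17f5332fe9e25fc48abf81f17fc04aff83a5fe084bfa29d7f6932fe84a) b16280 (.one (nat_lit 55) (nat_lit 6) (nat_lit 10) (nat_lit 0xbf7cad7fa8eaffe1f5fd708bfa6ed800002ffab15ff302bfc7997fb32aff189) b16281 (.nil))) (.nil)))) (.nil)))) (.nil)))) (.tok (nat_lit 9) (nat_lit 0xc000017fdff2ff20b602da8c049897fa292ff19b5ff0a8bfe8d580000300000) (.hit (nat_lit 9) (nat_lit 0) (nat_lit 0xbf78117ee392fe9c75fe282bfb2517f6ef2fe8ab5fd67ebfaa4d7f5d8afe593)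 b16284 (.tok (nat_lit 3) (nat_lit 0xc000017fdff2ff20b602da8c049897fa292fef1f5ff0a8bfe8d580000300000) (.hit (nat_lit 10) (nat_lit 1) (nat_lit 0xbf81617f5c42fded55fd53cbf9ae97f290afe9dd5fc48ebf8f3d7f9ecafee96) b16285 (.one (nat_lit 55) (nat_lit 11) (nat_lit 3) (nat_lit 0xc000017fdff2ff20b602da8c049897fa292fef1f5ff0a8bfe8d580000300000) b16286 (.nil))) (.tok (nat_lit 9) (nat_lit 0xbfbfbd7f1402fec155ffd98bfe6297f7342ff19b5fe60cbfbdd17f80fafeab7) (.hit (nat_lit 12) (nat_lit 20) (nat_lit 0xbfbfbd7f1402fec155ffd98bfe6297f7342ff19b5fe60cbfbdd17f80fafeab7) b16287 (.hit (nat_lit 13) (nat_lit 28) (nat_lit 0xbf5df17ef90afd8f05fd092bf8e457ef6eafe2a15fb04cbf63597f223afde51) b16288 (.nil))) (.nil)))) (.nil)))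
noncomputable def r20_117 : Rw Blk := .tok (nat_lit 3) (nat_lit 0xbc0001780002ff6fc) (.hit (nat_lit 0) (nat_lit 0) (nat_lit 0xbc0001780002fe36b) b16294 (.tok (nat_lit 9) (nat_lit 0xbc0001780002fd4f5) (.hit (nat_lit 1) (nat_lit 20) (nat_lit 0xbc0001780002fc350) b16295 (.hit (nat_lit 4) (nat_lit 28) (nat_lit 0xbc0001780002fbc2a) b16298 (.tok (nat_lit 14) (nat_lit 0xbc0001780002fd4f5) (.hit (nat_lit 2) (nat_lit 24) (nat_lit 0xbc0001780002fd268) b16296 (.hit (nat_lit 5) (nat_lit 30) (nat_lit 0xbc0001780002fca25) b16299 (.one (nat_lit 6) (nat_lit 3) (nat_lit 25) (nat_lit 0xbc0001780002fd4f5) b16297 (.nil)))) (.one (nat_lit 56) (nat_lit 6) (nat_lit 31) (nat_lit 0xbc0001780002fd1c4) b16300 (.nil))))) (.tok (nat_lit 64) (nat_lit 0xbc0001780002fe0db) (.hit (nat_lit 7) (nat_lit 50) (nat_lit 0xbc0001780002fe0db) b16301 (.hit (nat_lit 8) (nat_lit 51) (nat_lit 0xbc0001780002fdd0a) b16302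 (.nil))) (.tok (nat_lit 67) (nat_lit 0xbc0001780002ff6fc) (.hit (nat_lit 9) (nat_lit 52) (nat_lit 0xbc0001780002ff6fc) b16303 (.tok (nat_lit 3) (nat_lit 0xbc0001780002fe250) (.hit (nat_lit 12) (nat_lit 58) (nat_lit 0xbc0001780002fdfb4) b16306 (.one (nat_lit 55) (nat_lit 13) (nat_lit 59) (nat_lit 0xbc0001780002fe250) b16307 (.nil))) (.tok (nat_lit 9) (nat_lit 0xbc0001780002fec45) (.hit (nat_lit 10) (nat_lit 53) (nat_lit 0xbc0001780002fec45) b16304 (.hit (nat_lit 11) (nat_lit 56) (nat_lit 0xbc0001780002fdc82) b16305 (.nil))) (.nil)))) (.one (nat_lit 70) (nat_lit 14) (nat_lit 60) (nat_lit 0xbc0001780002fd944) b16308 (.nil)))))) (.tok (nat_lit 6) (nat_lit 0xbc000178000302e06) (.hit (nat_lit 15) (nat_lit 0) (nat_lit 0xbc0001780002fe63c) b16309 (.tok (nat_lit 6) (nat_lit 0xbc0001780002fe8e7) (.hit (nat_lit 16) (nat_lit 7) (nat_lit 0xbc0001780002fd6f1) b16310 (.hit (nat_lit 21) (nat_lit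 15) (nat_lit 0xbc0001780002fc4c7) b16315 (.tok (nat_lit 14) (nat_lit 0xbc0001780002fe8e7) (.hit (nat_lit 17) (nat_lit 11) (nat_lit 0xbc0001780002fe133) b16311 (.hit (nat_lit 22) (nat_lit 17) (nat_lit 0xbc0001780002fe34a) b16316 (.one (nat_lit 9) (nat_lit 18) (nat_lit 12) (nat_lit 0xbc0001780002fe8e7) b16312 (.nil)))) (.tok (nat_lit 56) (nat_lit 0xbc0001780002fe576) (.hit (nat_lit 19) (nat_lit 13) (nat_lit 0xbc0001780002fe56a) b16313 (.hit (nat_lit 24) (nat_lit 19) (nat_lit 0xbc0001780002fdd73) b16318 (.one (nat_lit 6) (nat_lit 20) (nat_lit 14) (nat_lit 0xbc0001780002fe576) b16314 (.nil)))) (.one (nat_lit 68) (nat_lit 23) (nat_lit 18) (nat_lit 0xbc0001780002fd56b) b16317 (.nil)))))) (.tok (nat_lit 52) (nat_lit 0xbc0001780002fe841) (.hit (nat_lit 25) (nat_lit 39) (nat_lit 0xbc0001780002fd884) b16319 (.hit (nat_lit 26) (nat_lit 40) (nat_lit 0xbc0001780002fe841) b16320 (.nil))) (.tok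 (nat_lit 55) (nat_lit 0xbc000178000302e06) (.hit (nat_lit 27) (nat_lit 41) (nat_lit 0xbc0001780002ffb3b) b16321 (.tok (nat_lit 3) (nat_lit 0xbc0001780002ffe9a) (.hit (nat_lit 33) (nat_lit 47) (nat_lit 0xbc0001780002ff333) b16327 (.one (nat_lit 67) (nat_lit 34) (nat_lit 48) (nat_lit 0xbc0001780002ffe9a) b16328 (.nil))) (.tok (nat_lit 6) (nat_lit 0xbc000178000302e06) (.hit (nat_lit 28) (nat_lit 42) (nat_lit 0xbc000178000300d42) b16322 (.hit (nat_lit 31) (nat_lit 45) (nat_lit 0xbc0001780002fe566) b16325 (.tok (nat_lit 55) (nat_lit 0xbc000178000302e06) (.hit (nat_lit 29) (nat_lit 43) (nat_lit 0xbc000178000301300) b16323 (.hit (nat_lit 32) (nat_lit 46) (nat_lit 0xbc000178000300256) b16326 (.one (nat_lit 6) (nat_lit 30) (nat_lit 44) (nat_lit 0xbc000178000302e06) b16324 (.nil)))) (.nil)))) (.nil)))) (.one (nat_lit 58) (nat_lit 35) (nat_lit 49) (nat_lit 0xbc0001780002fe37a) b16329 (.nil))))))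 (.nil))
noncomputable def r20_118 : Rw Blk := .tok (nat_lit 3) (nat_lit 0x2f00005fc6aebfa8397f9bb2fe94a) (.hit (nat_lit 0) (nat_lit 0) (nat_lit 0x2f00005fb230bf669d7f630afe6c6) b16330 (.tok (nat_lit 6) (nat_lit 0x2f00005fabf4bf88217f5b52fe062) (.hit (nat_lit 1) (nat_lit 7) (nat_lit 0x2f00005f788ebf21557e8dbafc6af) b16331 (.hit (nat_lit 6) (nat_lit 15) (nat_lit 0x2f00005f6fb8bf0fa97e6a62fc244) b16336 (.tok (nat_lit 14) (nat_lit 0x2f00005f96debf5df57f06fafd5d7) (.hit (nat_lit 2) (nat_lit 11) (nat_lit 0x2f00005f9574bf5b217f0152fd522) b16332 (.hit (nat_lit 7) (nat_lit 17) (nat_lit 0x2f00005f848ebf39557ebdbafccaf) b16337 (.one (nat_lit 9) (nat_lit 3) (nat_lit 12) (nat_lit 0x2f00005f96debf5df57f06fafd5d7) b16333 (.nil)))) (.tok (nat_lit 56) (nat_lit 0x2f00005fabf4bf88217f5b52fe062) (.hit (nat_lit 4) (nat_lit 13) (nat_lit 0x2f00005f9f8ebf6f557f29bafda2f) b16334 (.hit (nat_lit 8) (nat_lit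 19) (nat_lit 0x2f00005f7d08bf2a497e9fa2fc8ec) b16338 (.one (nat_lit 6) (nat_lit 5) (nat_lit 14) (nat_lit 0x2f00005fabf4bf88217f5b52fe062) b16335 (.nil)))) (.nil))))) (.tok (nat_lit 52) (nat_lit 0x2f00005f9e3cbf6cb17f2472fd986) (.hit (nat_lit 9) (nat_lit 39) (nat_lit 0x2f00005f9e3cbf6cb17f2472fd986) b16339 (.hit (nat_lit 10) (nat_lit 40) (nat_lit 0x2f00005f9dbabf6bad7f226afd945) b16340 (.nil))) (.tok (nat_lit 55) (nat_lit 0x2f00005fc6aebfa8397f9bb2fe94a) (.hit (nat_lit 11) (nat_lit 41) (nat_lit 0x2f00005fc6aebf9b4d7f9bb2fe94a) b16341 (.tok (nat_lit 3) (nat_lit 0x2f00005fbc00bfa8397f9b82fe868) (.hit (nat_lit 17) (nat_lit 47) (nat_lit 0x2f00005fad50bf8ad97f60c2fe110) b16347 (.one (nat_lit 67) (nat_lit 18) (nat_lit 48) (nat_lit 0x2f00005fbc00bfa8397f9b82fe868) b16348 (.nil))) (.tok (nat_lit 6) (nat_lit 0x2f00005fa9b4bf83a17f5252fdf42) (.hit (nat_lit 12) (nat_lit 42) (nat_lit 0x2f00005f95cebf5bd57f02bafd54f)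 b16342 (.hit (nat_lit 15) (nat_lit 45) (nat_lit 0x2f00005f9aeebf66157f173afd7df) b16345 (.tok (nat_lit 55) (nat_lit 0x2f00005fa9b4bf83a17f5252fdf42) (.hit (nat_lit 13) (nat_lit 43) (nat_lit 0x2f00005fa9b4bf83a17f5252fdf42) b16343 (.hit (nat_lit 16) (nat_lit 46) (nat_lit 0x2f00005fa868bf81097f4d22fde9c) b16346 (.one (nat_lit 6) (nat_lit 14) (nat_lit 44) (nat_lit 0x2f00005fa52ebf7a957f403afdcff) b16344 (.nil)))) (.nil)))) (.nil)))) (.one (nat_lit 58) (nat_lit 19) (nat_lit 49) (nat_lit 0x2f00005f8acabf45cd7ed6aafcfcd) b16349 (.nil)))))) (.tok (nat_lit 9) (nat_lit 0x2f0000604df2c0c4e981967b02e9b) (.hit (nat_lit 20) (nat_lit 0) (nat_lit 0x2f00005fbaa2bf9c217f8f1afe9b2) b16350 (.tok (nat_lit 9) (nat_lit 0x2f0000604df2c0c4e981967b02e9b) (.hit (nat_lit 21) (nat_lit 20) (nat_lit 0x2f00005fb80ebfbebd7f7f3afeade) b16351 (.hit (nat_lit 26) (nat_lit 28) (nat_lit 0x2f00005f7844bf1fe17e99b2fd63c)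 b16356 (.tok (nat_lit 14) (nat_lit 0x2f0000604df2c0c4e981967b02e9b) (.hit (nat_lit 22) (nat_lit 24) (nat_lit 0x2f0000604df2c0c4e981967b02e9b) b16352 (.hit (nat_lit 27) (nat_lit 30) (nat_lit 0x2f00005fbf14bfb0457fba52ffa48) b16357 (.one (nat_lit 6) (nat_lit 23) (nat_lit 25) (nat_lit 0x2f00006013c4c0552580e4830173d) b16353 (.nil)))) (.one (nat_lit 56) (nat_lit 28) (nat_lit 31) (nat_lit 0x2f00005fa330bf98b57f724aff142) b16358 (.tok (nat_lit 68) (nat_lit 0x2f00005ff3b6c03ad1809d0b00f9b) (.hit (nat_lit 24) (nat_lit 26) (nat_lit 0x2f00005ff3b6c01fb1809d0b00f9b) b16354 (.hit (nat_lit 29) (nat_lit 32) (nat_lit 0x2f00005f9a82bf6fd57f226afe74b) b16359 (.one (nat_lit 9) (nat_lit 25) (nat_lit 27) (nat_lit 0x2f00005fc65ec03ad17fed3affc94) b16355 (.nil)))) (.nil)))))) (.nil))) (.nil))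
noncomputable def r20_119 : Rw Blk := .tok (nat_lit 3) (nat_lit 0xbc0001780002fefda) (.hit (nat_lit 0) (nat_lit 0) (nat_lit 0xbc0001780002fe4fb) b16360 (.tok (nat_lit 6) (nat_lit 0xbc0001780002fe56d) (.hit (nat_lit 1) (nat_lit 7) (nat_lit 0xbc0001780002fcb41) b16361 (.hit (nat_lit 6) (nat_lit 15) (nat_lit 0xbc0001780002fc715) b16366 (.tok (nat_lit 14) (nat_lit 0xbc0001780002fdcda) (.hit (nat_lit 2) (nat_lit 11) (nat_lit 0xbc0001780002fdcda) b16362 (.hit (nat_lit 7) (nat_lit 17) (nat_lit 0xbc0001780002fd2ea) b16367 (.one (nat_lit 9) (nat_lit 3) (nat_lit 12) (nat_lit 0xbc0001780002fdb94) b16363 (.nil)))) (.tok (nat_lit 56) (nat_lit 0xbc0001780002fe56d) (.hit (nat_lit 4) (nat_lit 13) (nat_lit 0xbc0001780002fe052) b16364 (.hit (nat_lit 8) (nat_lit 19) (nat_lit 0xbc0001780002fd1ba) b16368 (.one (nat_lit 6) (nat_lit 5) (nat_lit 14) (nat_lit 0xbc0001780002fe56d) b16365 (.nil)))) (.nil)))))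 (.tok (nat_lit 52) (nat_lit 0xbc0001780002fe1f8) (.hit (nat_lit 9) (nat_lit 39) (nat_lit 0xbc0001780002fe1f8) b16369 (.hit (nat_lit 10) (nat_lit 40) (nat_lit 0xbc0001780002fde30) b16370 (.nil))) (.tok (nat_lit 55) (nat_lit 0xbc0001780002fefda) (.hit (nat_lit 11) (nat_lit 41) (nat_lit 0xbc0001780002fefda) b16371 (.tok (nat_lit 3) (nat_lit 0xbc0001780002fe67d) (.hit (nat_lit 17) (nat_lit 47) (nat_lit 0xbc0001780002fe67d) b16377 (.one (nat_lit 67) (nat_lit 18) (nat_lit 48) (nat_lit 0xbc0001780002fe1d8) b16378 (.nil))) (.tok (nat_lit 6) (nat_lit 0xbc0001780002fed6b) (.hit (nat_lit 12) (nat_lit 42) (nat_lit 0xbc0001780002fea65) b16372 (.hit (nat_lit 15) (nat_lit 45) (nat_lit 0xbc0001780002fd98f) b16375 (.tok (nat_lit 55) (nat_lit 0xbc0001780002fed6b) (.hit (nat_lit 13) (nat_lit 43) (nat_lit 0xbc0001780002feb9e) b16373 (.hit (nat_lit 16) (nat_lit 46) (nat_lit 0xbc0001780002fdf90) b16376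 (.one (nat_lit 6) (nat_lit 14) (nat_lit 44) (nat_lit 0xbc0001780002fed6b) b16374 (.nil)))) (.nil)))) (.nil)))) (.one (nat_lit 58) (nat_lit 19) (nat_lit 49) (nat_lit 0xbc0001780002fdce1) b16379 (.nil)))))) (.tok (nat_lit 9) (nat_lit 0xbc0001780003000ea) (.hit (nat_lit 20) (nat_lit 0) (nat_lit 0xbc0001780002fe6b4) b16380 (.tok (nat_lit 9) (nat_lit 0xbc0001780003000ea) (.hit (nat_lit 21) (nat_lit 20) (nat_lit 0xbc0001780002fe200) b16381 (.hit (nat_lit 26) (nat_lit 28) (nat_lit 0xbc0001780002fd41d) b16386 (.tok (nat_lit 14) (nat_lit 0xbc0001780003000ea) (.hit (nat_lit 22) (nat_lit 24) (nat_lit 0xbc0001780003000ea) b16382 (.hit (nat_lit 27) (nat_lit 30) (nat_lit 0xbc0001780002fefea) b16387 (.one (nat_lit 6) (nat_lit 23) (nat_lit 25) (nat_lit 0xbc0001780002ffe9d) b16383 (.nil)))) (.one (nat_lit 56) (nat_lit 28) (nat_lit 31) (nat_lit 0xbc0001780002febe7) b16388 (.tok (nat_lit 68) (nat_lit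 0xbc0001780002fef6a) (.hit (nat_lit 24) (nat_lit 26) (nat_lit 0xbc0001780002fef6a) b16384 (.hit (nat_lit 29) (nat_lit 32) (nat_lit 0xbc0001780002fe334) b16389 (.one (nat_lit 9) (nat_lit 25) (nat_lit 27) (nat_lit 0xbc0001780002feac1) b16385 (.nil)))) (.nil)))))) (.nil))) (.nil))
noncomputable def r20_120 : Rw Blk := .tok (nat_lit 6) (nat_lit 0xbc0001780002ff7b6) (.hit (nat_lit 11) (nat_lit 0) (nat_lit 0xbc0001780002fe04b) b16401 (.tok (nat_lit 3) (nat_lit 0xbc0001780002ff7b6) (.hit (nat_lit 12) (nat_lit 1) (nat_lit 0xbc0001780002fd5ea) b16402 (.one (nat_lit 14) (nat_lit 13) (nat_lit 4) (nat_lit 0xbc0001780002ff7b6) b16403 (.one (nat_lit 56) (nat_lit 15) (nat_lit 6) (nat_lit 0xbc0001780002fea40) b16404 (.one (nat_lit 68) (nat_lit 14) (nat_lit 5) (nat_lit 0xbc0001780002fe855) b16405 (.nil))))) (.nil))) (.tok (nat_lit 9) (nat_lit 0xbc0001780003000dd) (.hit (nat_lit 0) (nat_lit 0)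 (nat_lit 0xbc0001780002ff250) b16390 (.tok (nat_lit 3) (nat_lit 0xbc0001780002ff098) (.hit (nat_lit 1) (nat_lit 1) (nat_lit 0xbc0001780002fda04) b16391 (.one (nat_lit 14) (nat_lit 2) (nat_lit 4) (nat_lit 0xbc0001780002ff098) b16392 (.one (nat_lit 56) (nat_lit 4) (nat_lit 6) (nat_lit 0xbc0001780002fee00) b16393 (.one (nat_lit 68) (nat_lit 3) (nat_lit 5) (nat_lit 0xbc0001780002fee6f) b16394 (.nil))))) (.tok (nat_lit 40) (nat_lit 0xbc0001780002fe09b) (.hit (nat_lit 5) (nat_lit 33) (nat_lit 0xbc0001780002fdfd5) b16395 (.hit (nat_lit 6) (nat_lit 34) (nat_lit 0xbc0001780002fe09b) b16396 (.nil))) (.tok (nat_lit 43) (nat_lit 0xbc0001780003000dd) (.hit (nat_lit 7) (nat_lit 35) (nat_lit 0xbc0001780002fda2a) b16399 (.hit (nat_lit 8) (nat_lit 36) (nat_lit 0xbc0001780003000dd) b16400 (.nil))) (.tok (nat_lit 46) (nat_lit 0xbc0001780002ff030) (.hit (nat_lit 9) (nat_lit 37) (nat_lit 0xbc0001780002ff030)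 b16397 (.hit (nat_lit 10) (nat_lit 38) (nat_lit 0xbc0001780002fe5f2) b16398 (.nil))) (.nil)))))) (.nil))
noncomputable def r20_121 : Rw Blk := .tok (nat_lit 3) (nat_lit 0xbc0001780002fe3d7) (.hit (nat_lit 14) (nat_lit 0) (nat_lit 0xbc0001780002fe3d7) b16420 (.tok (nat_lit 6) (nat_lit 0xbc0001780002fdd62) (.hit (nat_lit 15) (nat_lit 7) (nat_lit 0xbc0001780002fdd62) b16423 (.hit (nat_lit 16) (nat_lit 15) (nat_lit 0xbc0001780002fdd53) b16424 (.nil))) (.tok (nat_lit 9) (nat_lit 0xbc0001780002fbfa5) (.hit (nat_lit 17) (nat_lit 20) (nat_lit 0xbc0001780002fbfa5) b16421 (.hit (nat_lit 18) (nat_lit 28) (nat_lit 0xbc0001780002fb366) b16422 (.nil))) (.nil)))) (.tok (nat_lit 6) (nat_lit 0xbc0001780002ff73d) (.hit (nat_lit 9) (nat_lit 0) (nat_lit 0xbc0001780002fe92a) b16415 (.tok (nat_lit 3) (nat_lit 0xbc0001780002ff73d) (.hit (nat_lit 10) (nat_lit 1) (nat_lit 0xbc0001780002fdf1e) b16416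 (.one (nat_lit 67) (nat_lit 11) (nat_lit 2) (nat_lit 0xbc0001780002ff73d) b16417 (.nil))) (.tok (nat_lit 6) (nat_lit 0xbc0001780002fef3b) (.hit (nat_lit 12) (nat_lit 7) (nat_lit 0xbc0001780002fef3b) b16418 (.hit (nat_lit 13) (nat_lit 15) (nat_lit 0xbc0001780002fe315) b16419 (.nil))) (.nil)))) (.tok (nat_lit 9) (nat_lit 0xbc000178000300000) (.hit (nat_lit 0) (nat_lit 0) (nat_lit 0xbc0001780002ff2e4) b16406 (.tok (nat_lit 3) (nat_lit 0xbc000178000300000) (.hit (nat_lit 1) (nat_lit 1) (nat_lit 0xbc0001780002fe642) b16407 (.one (nat_lit 55) (nat_lit 2) (nat_lit 3) (nat_lit 0xbc000178000300000) b16408 (.nil))) (.tok (nat_lit 9) (nat_lit 0xbc0001780002fff68) (.hit (nat_lit 3) (nat_lit 20) (nat_lit 0xbc0001780002ff5f5) b16409 (.hit (nat_lit 7) (nat_lit 28) (nat_lit 0xbc0001780002fe5a5) b16413 (.tok (nat_lit 67) (nat_lit 0xbc0001780002fff68) (.hit (nat_lit 4) (nat_lit 21) (nat_lit 0xbc0001780002fff35)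 b16410 (.hit (nat_lit 8) (nat_lit 29) (nat_lit 0xbc0001780002ff978) b16414 (.tok (nat_lit 9) (nat_lit 0xbc0001780002fff68) (.hit (nat_lit 5) (nat_lit 22) (nat_lit 0xbc0001780002ff734) b16411 (.one (nat_lit 67) (nat_lit 6) (nat_lit 23) (nat_lit 0xbc0001780002fff68) b16412 (.nil))) (.nil)))) (.nil)))) (.nil)))) (.nil)))
noncomputable def r20_122 : Rw Blk := .tok (nat_lit 3) (nat_lit 0xbf6f257e3482fdfc05fb808bf73357edbfafdb72) (.hit (nat_lit 0) (nat_lit 0) (nat_lit 0xbf6f257e3482fdfc05fb808bf73357edbfafdb72) b35991 (.tok (nat_lit 6) (nat_lit 0xbf3a757d7a6afdd295fa184bf3f5d7e7232fce39) (.hit (nat_lit 1) (nat_lit 7) (nat_lit 0xbf3a757d7a6afdd295fa184bf3f5d7e7232fce39) b16532 (.hit (nat_lit 6) (nat_lit 15) (nat_lit 0xbf30b97d66f2fd5255f9ca6bf35a17e5ebafcbca) b16533 (.nil))) (.tok (nat_lit 9) (nat_lit 0xbf3a757d7a6afdd295fa184bf3f5d7e7232fce39) (.hit (nat_lit 10) (nat_lit 20) (nat_lit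 0xbf3a757d7a6afdd295fa184bf3f5d7e7232fce39) b16532 (.hit (nat_lit 15) (nat_lit 28) (nat_lit 0xbf30b97d66f2fd5255f9ca6bf35a17e5ebafcbca) b16533 (.nil))) (.nil)))) (.tok (nat_lit 6) (nat_lit 0xc00001800003000005ffe48bff8e57ff732fff2d) (.hit (nat_lit 81) (nat_lit 0) (nat_lit 0xbfc8317eef52feb305fd8dcbfb51d7fb43aff0ad) b16543 (.tok (nat_lit 3) (nat_lit 0xbfc8697ea3a2ff1455fd9e8bfb6f57f917aff22c) (.hit (nat_lit 82) (nat_lit 1) (nat_lit 0xbf5c257dd03afdbb25fa2f4bf490d7eb592fd6b2) b16544 (.one (nat_lit 67) (nat_lit 83) (nat_lit 2) (nat_lit 0xbfc8697ea3a2ff1455fd9e8bfb6f57f917aff22c) b16545 (.nil))) (.tok (nat_lit 6) (nat_lit 0xc00001800003000005ffe48bff8e57ff732fff2d) (.hit (nat_lit 87) (nat_lit 7) (nat_lit 0xbfabf97ec222fe8e95fbea6bf80717f297afe48b) b16546 (.hit (nat_lit 95) (nat_lit 15) (nat_lit 0xbf64fd7dcd0afd3dd5fa636bf4f917ec29afd853) b16550 (.tok (nat_lit 55) (nat_lit 0xc00001800003000005ffe48bff8e57ff732fff2d)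 (.hit (nat_lit 88) (nat_lit 8) (nat_lit 0xbffb117f3fa2ff0ef5ff3e4bfec417ff732fff2d) b16547 (.hit (nat_lit 96) (nat_lit 16) (nat_lit 0xbfc75d7eb112fef375fdda0bfbe657fa032ff406) b16551 (.tok (nat_lit 6) (nat_lit 0xc00001800003000005ffe48bff8e57fe542ffc9b) (.hit (nat_lit 89) (nat_lit 9) (nat_lit 0xbfd0257f7e3aff2525fe3aabfc3a97f963aff333) b16548 (.one (nat_lit 55) (nat_lit 90) (nat_lit 10) (nat_lit 0xc00001800003000005ffe48bff8e57fe542ffc9b) b16549 (.nil))) (.nil)))) (.nil)))) (.nil)))) (.tok (nat_lit 9) (nat_lit 0xc0000180000300000600000c0000180000300000) (.hit (nat_lit 157) (nat_lit 0) (nat_lit 0xbfc8317eef52feb305fd8fcbfb51d7f843aff087) b16534 (.tok (nat_lit 3) (nat_lit 0xbfc8697ea3a2ff1455fe224bfc1997f9162ff22c) (.hit (nat_lit 158) (nat_lit 1) (nat_lit 0xbf5c257dd03afdbb25fa302bf490d7eb592fd6b2) b16535 (.one (nat_lit 55) (nat_lit 159) (nat_lit 3) (nat_lit 0xbfc8697ea3a2ff1455fe224bfc1997f9162ff22c)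 b16536 (.nil))) (.tok (nat_lit 9) (nat_lit 0xc0000180000300000600000c0000180000300000) (.hit (nat_lit 163) (nat_lit 20) (nat_lit 0xbfabf97ec222fe8e95fbea6bf80717f245afe48b) b16537 (.hit (nat_lit 171) (nat_lit 28) (nat_lit 0xbf64fd7dcd0afd3dd5fb078bf4f9d7ec29afd853) b16541 (.tok (nat_lit 67) (nat_lit 0xc0000180000300000600000c0000180000300000) (.hit (nat_lit 164) (nat_lit 21) (nat_lit 0xbffb117f3fa2ff0ef5ff4a4bfec6d7ffc52fff8a) b16538 (.hit (nat_lit 172) (nat_lit 29) (nat_lit 0xbfc75d7eb112fef375fea3cbfce217fa042ff408) b16542 (.tok (nat_lit 9) (nat_lit 0xc0000180000300000600000c0000180000300000) (.hit (nat_lit 165) (nat_lit 22) (nat_lit 0xbfd0257f7e3aff2525fe3aabfc3a97f9d92ff3b2) b16539 (.one (nat_lit 67) (nat_lit 166) (nat_lit 23) (nat_lit 0xc0000180000300000600000c0000180000300000) b16540 (.nil))) (.nil)))) (.nil)))) (.nil)))) (.nil)))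
noncomputable def r20_123 : Rw Blk := .tok (nat_lit 6) (nat_lit 0xbc000178000300000) (.hit (nat_lit 51) (nat_lit 0) (nat_lit 0xbc0001780002ff743) b8943 (.tok (nat_lit 3) (nat_lit 0xbc0001780002ff720) (.hit (nat_lit 52) (nat_lit 1) (nat_lit 0xbc0001780002fdccb) b8944 (.one (nat_lit 56) (nat_lit 55) (nat_lit 6) (nat_lit 0xbc0001780002ff720) b8945 (.one (nat_lit 68) (nat_lit 54) (nat_lit 5) (nat_lit 0xbc0001780002fef3e) b8946 (.nil)))) (.tok (nat_lit 40) (nat_lit 0xbc0001780002ff5de) (.hit (nat_lit 56) (nat_lit 33) (nat_lit 0xbc0001780002ff5de) b8947 (.hit (nat_lit 57) (nat_lit 34) (nat_lit 0xbc0001780002ff3d8) b8948 (.nil))) (.tok (nat_lit 43) (nat_lit 0xbc000178000300000) (.hit (nat_lit 58) (nat_lit 35) (nat_lit 0xbc000178000300000) b8951 (.hit (nat_lit 59) (nat_lit 36) (nat_lit 0xbc0001780002ff6ae) b8952 (.nil))) (.tok (nat_lit 46) (nat_lit 0xbc0001780002ffbd8) (.hit (nat_lit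 60) (nat_lit 37) (nat_lit 0xbc0001780002fe56f) b8949 (.hit (nat_lit 61) (nat_lit 38) (nat_lit 0xbc0001780002ffbd8) b8950 (.nil))) (.nil)))))) (.tok (nat_lit 9) (nat_lit 0xbc000178000300000) (.hit (nat_lit 0) (nat_lit 0) (nat_lit 0xbc0001780002ff743) b8943 (.tok (nat_lit 3) (nat_lit 0xbc0001780002ff720) (.hit (nat_lit 1) (nat_lit 1) (nat_lit 0xbc0001780002fdccb) b8944 (.one (nat_lit 56) (nat_lit 4) (nat_lit 6) (nat_lit 0xbc0001780002fef3e) b8946 (.one (nat_lit 68) (nat_lit 3) (nat_lit 5) (nat_lit 0xbc0001780002ff720) b8945 (.nil)))) (.tok (nat_lit 40) (nat_lit 0xbc0001780002ff5de) (.hit (nat_lit 5) (nat_lit 33) (nat_lit 0xbc0001780002ff5de) b8947 (.hit (nat_lit 6) (nat_lit 34) (nat_lit 0xbc0001780002ff3d8) b8948 (.nil))) (.tok (nat_lit 43) (nat_lit 0xbc0001780002ffbd8) (.hit (nat_lit 7) (nat_lit 35) (nat_lit 0xbc0001780002fe56f) b8949 (.hit (nat_lit 8) (nat_lit 36) (nat_lit 0xbc0001780002ffbd8)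 b8950 (.nil))) (.tok (nat_lit 46) (nat_lit 0xbc000178000300000) (.hit (nat_lit 9) (nat_lit 37) (nat_lit 0xbc000178000300000) b8951 (.hit (nat_lit 10) (nat_lit 38) (nat_lit 0xbc0001780002ff6ae) b8952 (.nil))) (.nil)))))) (.nil))
noncomputable def r20_124 : Rw Blk := .tok (nat_lit 3) (nat_lit 0xbc0001780002fdd96) (.hit (nat_lit 61) (nat_lit 0) (nat_lit 0xbc0001780002fd24b) b8970 (.tok (nat_lit 9) (nat_lit 0xbc0001780002fd581) (.hit (nat_lit 62) (nat_lit 20) (nat_lit 0xbc0001780002fbbf9) b8971 (.hit (nat_lit 67) (nat_lit 28) (nat_lit 0xbc0001780002fadd7) b8974 (.one (nat_lit 56) (nat_lit 69) (nat_lit 31) (nat_lit 0xbc0001780002fc055) b8975 (.tok (nat_lit 68) (nat_lit 0xbc0001780002fd581) (.hit (nat_lit 65) (nat_lit 26) (nat_lit 0xbc0001780002fcd73) b8972 (.hit (nat_lit 70) (nat_lit 32) (nat_lit 0xbc0001780002fbed5) b8976 (.one (nat_lit 9) (nat_lit 66) (nat_lit 27) (nat_lit 0xbc0001780002fd581)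 b8973 (.nil)))) (.nil))))) (.tok (nat_lit 64) (nat_lit 0xbc0001780002fc70f) (.hit (nat_lit 71) (nat_lit 50) (nat_lit 0xbc0001780002fbf8c) b8977 (.hit (nat_lit 72) (nat_lit 51) (nat_lit 0xbc0001780002fc70f) b8978 (.nil))) (.tok (nat_lit 67) (nat_lit 0xbc0001780002fdd96) (.hit (nat_lit 73) (nat_lit 52) (nat_lit 0xbc0001780002fdd96) b8979 (.one (nat_lit 3) (nat_lit 79) (nat_lit 58) (nat_lit 0xbc0001780002fd3b5) b8985 (.tok (nat_lit 9) (nat_lit 0xbc0001780002fd8c9) (.hit (nat_lit 74) (nat_lit 53) (nat_lit 0xbc0001780002fc8f3) b8980 (.hit (nat_lit 77) (nat_lit 56) (nat_lit 0xbc0001780002fcc00) b8983 (.tok (nat_lit 67) (nat_lit 0xbc0001780002fd8c9) (.hit (nat_lit 75) (nat_lit 54) (nat_lit 0xbc0001780002fd809) b8981 (.hit (nat_lit 78) (nat_lit 57) (nat_lit 0xbc0001780002fd8c9) b8984 (.one (nat_lit 9) (nat_lit 76) (nat_lit 55) (nat_lit 0xbc0001780002fd3cd) b8982 (.nil)))) (.nil)))) (.nil))))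 (.one (nat_lit 70) (nat_lit 81) (nat_lit 60) (nat_lit 0xbc0001780002fc7be) b8986 (.nil)))))) (.tok (nat_lit 6) (nat_lit 0xbc000178000300000) (.hit (nat_lit 0) (nat_lit 0) (nat_lit 0xbc0001780002feb42) b8953 (.tok (nat_lit 6) (nat_lit 0xbc000178000300000) (.hit (nat_lit 1) (nat_lit 7) (nat_lit 0xbc0001780002fd8ca) b8954 (.hit (nat_lit 6) (nat_lit 15) (nat_lit 0xbc0001780002fc64d) b8957 (.tok (nat_lit 56) (nat_lit 0xbc000178000300000) (.hit (nat_lit 4) (nat_lit 13) (nat_lit 0xbc0001780002fefdc) b8955 (.hit (nat_lit 9) (nat_lit 19) (nat_lit 0xbc0001780002fd664) b8959 (.one (nat_lit 6) (nat_lit 5) (nat_lit 14) (nat_lit 0xbc000178000300000) b8956 (.nil)))) (.one (nat_lit 68) (nat_lit 8) (nat_lit 18) (nat_lit 0xbc0001780002fdb60) b8958 (.nil))))) (.tok (nat_lit 52) (nat_lit 0xbc0001780002feaed) (.hit (nat_lit 10) (nat_lit 39) (nat_lit 0xbc0001780002fddba) b8960 (.hit (nat_lit 11) (nat_lit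 40) (nat_lit 0xbc0001780002feaed) b8961 (.nil))) (.tok (nat_lit 55) (nat_lit 0xbc0001780002ffcc4) (.hit (nat_lit 12) (nat_lit 41) (nat_lit 0xbc0001780002ff8c8) b8962 (.one (nat_lit 3) (nat_lit 18) (nat_lit 47) (nat_lit 0xbc0001780002fecd0) b8968 (.tok (nat_lit 6) (nat_lit 0xbc0001780002ffcc4) (.hit (nat_lit 13) (nat_lit 42) (nat_lit 0xbc0001780002fe135) b8963 (.hit (nat_lit 16) (nat_lit 45) (nat_lit 0xbc0001780002fed2b) b8966 (.tok (nat_lit 55) (nat_lit 0xbc0001780002ffcc4) (.hit (nat_lit 14) (nat_lit 43) (nat_lit 0xbc0001780002ff700) b8964 (.hit (nat_lit 17) (nat_lit 46) (nat_lit 0xbc0001780002ffcc4) b8967 (.one (nat_lit 6) (nat_lit 15) (nat_lit 44) (nat_lit 0xbc0001780002ff7ad) b8965 (.nil)))) (.nil)))) (.nil)))) (.one (nat_lit 58) (nat_lit 20) (nat_lit 49) (nat_lit 0xbc0001780002fed19) b8969 (.nil)))))) (.nil))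
noncomputable def r20_125 : Rw Blk := .tok (nat_lit 3) (nat_lit 0xbc0001780002fdf86) (.hit (nat_lit 61) (nat_lit 0) (nat_lit 0xbc0001780002fc3de) b16603 (.tok (nat_lit 9) (nat_lit 0xbc0001780002fc442) (.hit (nat_lit 62) (nat_lit 20) (nat_lit 0xbc0001780002fa8ef) b16604 (.hit (nat_lit 67) (nat_lit 28) (nat_lit 0xbc0001780002fac5e) b16607 (.one (nat_lit 56) (nat_lit 69) (nat_lit 31) (nat_lit 0xbc0001780002fc294) b16608 (.tok (nat_lit 68) (nat_lit 0xbc0001780002fc442) (.hit (nat_lit 65) (nat_lit 26) (nat_lit 0xbc0001780002fc0c1) b16605 (.hit (nat_lit 70) (nat_lit 32) (nat_lit 0xbc0001780002fbc8f) b16609 (.one (nat_lit 9) (nat_lit 66) (nat_lit 27) (nat_lit 0xbc0001780002fc442) b16606 (.nil)))) (.nil))))) (.tok (nat_lit 64) (nat_lit 0xbc0001780002fc6ad) (.hit (nat_lit 71) (nat_lit 50) (nat_lit 0xbc0001780002fbf77) b16610 (.hit (nat_lit 72) (nat_lit 51) (nat_lit 0xbc0001780002fc6ad)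 b16611 (.nil))) (.tok (nat_lit 67) (nat_lit 0xbc0001780002fdf86) (.hit (nat_lit 73) (nat_lit 52) (nat_lit 0xbc0001780002fd649) b16612 (.one (nat_lit 3) (nat_lit 79) (nat_lit 58) (nat_lit 0xbc0001780002fcede) b16618 (.tok (nat_lit 9) (nat_lit 0xbc0001780002fdf86) (.hit (nat_lit 74) (nat_lit 53) (nat_lit 0xbc0001780002fd838) b16613 (.hit (nat_lit 77) (nat_lit 56) (nat_lit 0xbc0001780002fc599) b16616 (.tok (nat_lit 67) (nat_lit 0xbc0001780002fdf86) (.hit (nat_lit 75) (nat_lit 54) (nat_lit 0xbc0001780002fdf86) b16614 (.hit (nat_lit 78) (nat_lit 57) (nat_lit 0xbc0001780002fd6de) b16617 (.one (nat_lit 9) (nat_lit 76) (nat_lit 55) (nat_lit 0xbc0001780002fd7ee) b16615 (.nil)))) (.nil)))) (.nil)))) (.one (nat_lit 70) (nat_lit 81) (nat_lit 60) (nat_lit 0xbc0001780002fc63d) b16619 (.nil)))))) (.tok (nat_lit 6) (nat_lit 0xbc0001780003009fd) (.hit (nat_lit 0) (nat_lit 0) (nat_lit 0xbc0001780002fd195)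 b16586 (.tok (nat_lit 6) (nat_lit 0xbc0001780002fd5f3) (.hit (nat_lit 1) (nat_lit 7) (nat_lit 0xbc0001780002fc5bf) b16587 (.hit (nat_lit 6) (nat_lit 15) (nat_lit 0xbc0001780002fb866) b16590 (.tok (nat_lit 56) (nat_lit 0xbc0001780002fd5f3) (.hit (nat_lit 4) (nat_lit 13) (nat_lit 0xbc0001780002fd51e) b16588 (.hit (nat_lit 9) (nat_lit 19) (nat_lit 0xbc0001780002fd4f4) b16592 (.one (nat_lit 6) (nat_lit 5) (nat_lit 14) (nat_lit 0xbc0001780002fd5f3) b16589 (.nil)))) (.one (nat_lit 68) (nat_lit 8) (nat_lit 18) (nat_lit 0xbc0001780002fd550) b16591 (.nil))))) (.tok (nat_lit 52) (nat_lit 0xbc0001780002fdb93) (.hit (nat_lit 10) (nat_lit 39) (nat_lit 0xbc0001780002fcb80) b16593 (.hit (nat_lit 11) (nat_lit 40) (nat_lit 0xbc0001780002fdb93) b16594 (.nil))) (.tok (nat_lit 55) (nat_lit 0xbc0001780003009fd) (.hit (nat_lit 12) (nat_lit 41) (nat_lit 0xbc0001780002fe115) b16595 (.one (nat_lit 3)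 (nat_lit 18) (nat_lit 47) (nat_lit 0xbc0001780002fd367) b16601 (.tok (nat_lit 6) (nat_lit 0xbc0001780003009fd) (.hit (nat_lit 13) (nat_lit 42) (nat_lit 0xbc0001780002fe677) b16596 (.hit (nat_lit 16) (nat_lit 45) (nat_lit 0xbc0001780002fe278) b16599 (.tok (nat_lit 55) (nat_lit 0xbc0001780003009fd) (.hit (nat_lit 14) (nat_lit 43) (nat_lit 0xbc0001780003002ef) b16597 (.hit (nat_lit 17) (nat_lit 46) (nat_lit 0xbc0001780002fde8e) b16600 (.one (nat_lit 6) (nat_lit 15) (nat_lit 44) (nat_lit 0xbc0001780003009fd) b16598 (.nil)))) (.nil)))) (.nil)))) (.one (nat_lit 58) (nat_lit 20) (nat_lit 49) (nat_lit 0xbc0001780002fd9e1) b16602 (.nil)))))) (.nil))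
noncomputable def r20_126 : Rw Blk := .tok (nat_lit 3) (nat_lit 0xbc0001780002fdd96) (.hit (nat_lit 61) (nat_lit 0) (nat_lit 0xbc0001780002fd24b) b8970 (.tok (nat_lit 6) (nat_lit 0xbc0001780002fd581) (.hit (nat_lit 62) (nat_lit 7) (nat_lit 0xbc0001780002fbbf9) b8971 (.hit (nat_lit 67) (nat_lit 15) (nat_lit 0xbc0001780002fadd7) b8974 (.tok (nat_lit 56) (nat_lit 0xbc0001780002fd581) (.hit (nat_lit 65) (nat_lit 13) (nat_lit 0xbc0001780002fcd73) b8972 (.hit (nat_lit 70) (nat_lit 19) (nat_lit 0xbc0001780002fbed5) b8976 (.one (nat_lit 6) (nat_lit 66) (nat_lit 14) (nat_lit 0xbc0001780002fd581) b8973 (.nil)))) (.one (nat_lit 68) (nat_lit 69) (nat_lit 18) (nat_lit 0xbc0001780002fc055) b8975 (.nil))))) (.tok (nat_lit 52) (nat_lit 0xbc0001780002fc70f) (.hit (nat_lit 71) (nat_lit 39) (nat_lit 0xbc0001780002fbf8c) b8977 (.hit (nat_lit 72) (nat_lit 40) (nat_lit 0xbc0001780002fc70f) b8978 (.nil)))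 (.tok (nat_lit 55) (nat_lit 0xbc0001780002fdd96) (.hit (nat_lit 73) (nat_lit 41) (nat_lit 0xbc0001780002fdd96) b8979 (.one (nat_lit 3) (nat_lit 79) (nat_lit 47) (nat_lit 0xbc0001780002fd3b5) b8985 (.tok (nat_lit 6) (nat_lit 0xbc0001780002fd8c9) (.hit (nat_lit 74) (nat_lit 42) (nat_lit 0xbc0001780002fc8f3) b8980 (.hit (nat_lit 77) (nat_lit 45) (nat_lit 0xbc0001780002fcc00) b8983 (.tok (nat_lit 55) (nat_lit 0xbc0001780002fd8c9) (.hit (nat_lit 75) (nat_lit 43) (nat_lit 0xbc0001780002fd809) b8981 (.hit (nat_lit 78) (nat_lit 46) (nat_lit 0xbc0001780002fd8c9) b8984 (.one (nat_lit 6) (nat_lit 76) (nat_lit 44) (nat_lit 0xbc0001780002fd3cd) b8982 (.nil)))) (.nil)))) (.nil)))) (.one (nat_lit 58) (nat_lit 81) (nat_lit 49) (nat_lit 0xbc0001780002fc7be) b8986 (.nil)))))) (.tok (nat_lit 9) (nat_lit 0xbc000178000300000) (.hit (nat_lit 0) (nat_lit 0) (nat_lit 0xbc0001780002feb42) b8953 (.tok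 (nat_lit 9) (nat_lit 0xbc000178000300000) (.hit (nat_lit 1) (nat_lit 20) (nat_lit 0xbc0001780002fd8ca) b8954 (.hit (nat_lit 6) (nat_lit 28) (nat_lit 0xbc0001780002fc64d) b8957 (.one (nat_lit 56) (nat_lit 8) (nat_lit 31) (nat_lit 0xbc0001780002fdb60) b8958 (.tok (nat_lit 68) (nat_lit 0xbc000178000300000) (.hit (nat_lit 4) (nat_lit 26) (nat_lit 0xbc0001780002fefdc) b8955 (.hit (nat_lit 9) (nat_lit 32) (nat_lit 0xbc0001780002fd664) b8959 (.one (nat_lit 9) (nat_lit 5) (nat_lit 27) (nat_lit 0xbc000178000300000) b8956 (.nil)))) (.nil))))) (.tok (nat_lit 64) (nat_lit 0xbc0001780002feaed) (.hit (nat_lit 10) (nat_lit 50) (nat_lit 0xbc0001780002fddba) b8960 (.hit (nat_lit 11) (nat_lit 51) (nat_lit 0xbc0001780002feaed) b8961 (.nil))) (.tok (nat_lit 67) (nat_lit 0xbc0001780002ffcc4) (.hit (nat_lit 12) (nat_lit 52) (nat_lit 0xbc0001780002ff8c8) b8962 (.one (nat_lit 3) (nat_lit 18) (nat_lit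 58) (nat_lit 0xbc0001780002fecd0) b8968 (.tok (nat_lit 9) (nat_lit 0xbc0001780002ffcc4) (.hit (nat_lit 13) (nat_lit 53) (nat_lit 0xbc0001780002fe135) b8963 (.hit (nat_lit 16) (nat_lit 56) (nat_lit 0xbc0001780002fed2b) b8966 (.tok (nat_lit 67) (nat_lit 0xbc0001780002ffcc4) (.hit (nat_lit 14) (nat_lit 54) (nat_lit 0xbc0001780002ff700) b8964 (.hit (nat_lit 17) (nat_lit 57) (nat_lit 0xbc0001780002ffcc4) b8967 (.one (nat_lit 9) (nat_lit 15) (nat_lit 55) (nat_lit 0xbc0001780002ff7ad) b8965 (.nil)))) (.nil)))) (.nil)))) (.one (nat_lit 70) (nat_lit 20) (nat_lit 60) (nat_lit 0xbc0001780002fed19) b8969 (.nil)))))) (.nil))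
noncomputable def r20_127 : Rw Blk := .tok (nat_lit 3) (nat_lit 0xbc0001780002fe20e) (.hit (nat_lit 61) (nat_lit 0) (nat_lit 0xbc0001780002fc666) b16569 (.tok (nat_lit 6) (nat_lit 0xbc0001780002fc6ca) (.hit (nat_lit 62) (nat_lit 7) (nat_lit 0xbc0001780002fab77) b16570 (.hit (nat_lit 67) (nat_lit 15) (nat_lit 0xbc0001780002faee6) b16573 (.tok (nat_lit 56) (nat_lit 0xbc0001780002fc6ca) (.hit (nat_lit 65) (nat_lit 13) (nat_lit 0xbc0001780002fc349) b16571 (.hit (nat_lit 70) (nat_lit 19) (nat_lit 0xbc0001780002fbf17) b16575 (.one (nat_lit 6) (nat_lit 66) (nat_lit 14) (nat_lit 0xbc0001780002fc6ca) b16572 (.nil)))) (.one (nat_lit 68) (nat_lit 69) (nat_lit 18) (nat_lit 0xbc0001780002fc51c) b16574 (.nil))))) (.tok (nat_lit 52) (nat_lit 0xbc0001780002fc935) (.hit (nat_lit 71) (nat_lit 39) (nat_lit 0xbc0001780002fc1ff) b16576 (.hit (nat_lit 72) (nat_lit 40) (nat_lit 0xbc0001780002fc935)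 b16577 (.nil))) (.tok (nat_lit 55) (nat_lit 0xbc0001780002fe20e) (.hit (nat_lit 73) (nat_lit 41) (nat_lit 0xbc0001780002fd8d1) b16578 (.one (nat_lit 3) (nat_lit 79) (nat_lit 47) (nat_lit 0xbc0001780002fd166) b16584 (.tok (nat_lit 6) (nat_lit 0xbc0001780002fe20e) (.hit (nat_lit 74) (nat_lit 42) (nat_lit 0xbc0001780002fdac0) b16579 (.hit (nat_lit 77) (nat_lit 45) (nat_lit 0xbc0001780002fc821) b16582 (.tok (nat_lit 55) (nat_lit 0xbc0001780002fe20e) (.hit (nat_lit 75) (nat_lit 43) (nat_lit 0xbc0001780002fe20e) b16580 (.hit (nat_lit 78) (nat_lit 46) (nat_lit 0xbc0001780002fd966) b16583 (.one (nat_lit 6) (nat_lit 76) (nat_lit 44) (nat_lit 0xbc0001780002fda76) b16581 (.nil)))) (.nil)))) (.nil)))) (.one (nat_lit 58) (nat_lit 81) (nat_lit 49) (nat_lit 0xbc0001780002fc8c5) b16585 (.nil)))))) (.tok (nat_lit 9) (nat_lit 0xbc000178000300c85) (.hit (nat_lit 0) (nat_lit 0) (nat_lit 0xbc0001780002fd41d)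 b16552 (.tok (nat_lit 9) (nat_lit 0xbc0001780002fd87b) (.hit (nat_lit 1) (nat_lit 20) (nat_lit 0xbc0001780002fc847) b16553 (.hit (nat_lit 6) (nat_lit 28) (nat_lit 0xbc0001780002fbaee) b16556 (.one (nat_lit 56) (nat_lit 8) (nat_lit 31) (nat_lit 0xbc0001780002fd7d8) b16557 (.tok (nat_lit 68) (nat_lit 0xbc0001780002fd87b) (.hit (nat_lit 4) (nat_lit 26) (nat_lit 0xbc0001780002fd7a6) b16554 (.hit (nat_lit 9) (nat_lit 32) (nat_lit 0xbc0001780002fd77c) b16558 (.one (nat_lit 9) (nat_lit 5) (nat_lit 27) (nat_lit 0xbc0001780002fd87b) b16555 (.nil)))) (.nil))))) (.tok (nat_lit 64) (nat_lit 0xbc0001780002fde1b) (.hit (nat_lit 10) (nat_lit 50) (nat_lit 0xbc0001780002fce08) b16559 (.hit (nat_lit 11) (nat_lit 51) (nat_lit 0xbc0001780002fde1b) b16560 (.nil))) (.tok (nat_lit 67) (nat_lit 0xbc000178000300c85) (.hit (nat_lit 12) (nat_lit 52) (nat_lit 0xbc0001780002fe39d) b16561 (.one (nat_lit 3)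 (nat_lit 18) (nat_lit 58) (nat_lit 0xbc0001780002fd5ef) b16567 (.tok (nat_lit 9) (nat_lit 0xbc000178000300c85) (.hit (nat_lit 13) (nat_lit 53) (nat_lit 0xbc0001780002fe8ff) b16562 (.hit (nat_lit 16) (nat_lit 56) (nat_lit 0xbc0001780002fe500) b16565 (.tok (nat_lit 67) (nat_lit 0xbc000178000300c85) (.hit (nat_lit 14) (nat_lit 54) (nat_lit 0xbc000178000300577) b16563 (.hit (nat_lit 17) (nat_lit 57) (nat_lit 0xbc0001780002fe116) b16566 (.one (nat_lit 9) (nat_lit 15) (nat_lit 55) (nat_lit 0xbc000178000300c85) b16564 (.nil)))) (.nil)))) (.nil)))) (.one (nat_lit 70) (nat_lit 20) (nat_lit 60) (nat_lit 0xbc0001780002fdc69) b16568 (.nil)))))) (.nil))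
noncomputable def r20_128 : Rw Blk := .tok (nat_lit 3) (nat_lit 0x5fb792bf1a417efe02fdeca5fbd92bf70b57f1b82fdf3a5fc10abf8a617f9aa2fe8bc) (.hit (nat_lit 0) (nat_lit 0) (nat_lit 0x5fb792bf1a417efe02fdeca5fbd92bf70b57f1b82fdf3a5fc10abf8a617f9aa2fe8bc) b35992 (.tok (nat_lit 6) (nat_lit 0x5f9d3abebd357ee94afd19e5fa33cbea88d7da4aafad5c5f6772bf1b617ed522fdb69) (.hit (nat_lit 1) (nat_lit 7) (nat_lit 0x5f9d3abebd357ee94afd19e5fa33cbea88d7da4aafad5c5f6772bf1b617ed522fdb69) b16623 (.hit (nat_lit 6) (nat_lit 15) (nat_lit 0x5f985cbeb3797ea92afcf2f5f9e5ebe9ed17d9132faaed5f6294bf11a57ebc32fd8cd) b16624 (.nil))) (.tok (nat_lit 9) (nat_lit 0x5f9d3abebd357ee94afd19e5fa33cbea88d7da4aafad5c5f6772bf1b617ed18afdc55) (.hit (nat_lit 10) (nat_lit 20) (nat_lit 0x5f9d3abebd357ee94afd19e5fa33cbea88d7da4aafad5c5f6772bf1b617ed18afdc55) b16621 (.hit (nat_lit 15) (nat_lit 28) (nat_lit 0x5f985cbeb3797ea92afcf2f5f9e5ebe9ed17d9132faaed5f6294bf11a57ebc32fda53)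 b16622 (.nil))) (.nil)))) (.tok (nat_lit 6) (nat_lit 0x600000c0000180000300000600000c00001804f1b00000600000c03b4d80000300897) (.hit (nat_lit 81) (nat_lit 0) (nat_lit 0x5fe418bf77a97f5982ff0fd5fe270bf8c917f4cd2fe4825fd09ebfba897fdc42fea15) b16634 (.tok (nat_lit 3) (nat_lit 0x5fe434bf51d17f8a2afefbc5fdf72bfdf31800afaff5e3600000bfe5297ff3baffc5c) (.hit (nat_lit 82) (nat_lit 1) (nat_lit 0x5fae12bee81d7edd92fd4405fa87ebf48197f0792fd1dd5fb738bf78c57f1812fda86) b16635 (.one (nat_lit 67) (nat_lit 83) (nat_lit 2) (nat_lit 0x5fe434bf51d17f8a2afefbc5fdf72bfdf31800afaff5e3600000bfe5297ff3baffc5c) b16636 (.nil))) (.tok (nat_lit 6) (nat_lit 0x600000c0000180000300000600000c00001804f1b000005fffc0c03b4d80000300897) (.hit (nat_lit 87) (nat_lit 7) (nat_lit 0x5fd5fcbf61117f474afe6ac5fc430bf6bc97f10aafde075fc520bf94ad7ed672fdf07) b16637 (.hit (nat_lit 95) (nat_lit 15) (nat_lit 0x5fb27ebee6857e9eeafd5e15fabc0bf37a57ea962fcff75faa58bf61997ecdc2fd5a9)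 b16641 (.tok (nat_lit 55) (nat_lit 0x600000c0000180000300000600000c00001804f1b000005fffc0c03b4d80000300897) (.hit (nat_lit 88) (nat_lit 8) (nat_lit 0x5ffd88bf9fd17f877afff935ffa2ebfc9157fcbbaff3885feeccbfedd57fb69aff84d) b16638 (.hit (nat_lit 96) (nat_lit 16) (nat_lit 0x5fe3aebf58897f79baff1965fe32abfa0717f7a42feb8e5fe538bfcbf57fedf2ff64a) b16642 (.tok (nat_lit 6) (nat_lit 0x600000c0000180000300000600000c00001804f1b000005fffc0c03b4d80000300897) (.hit (nat_lit 89) (nat_lit 9) (nat_lit 0x5fe812bfbf1d7f9292ff2b15fe562bfb6597fdfbafef3c5fe6d4bfe84d7f8772ff5f3) b16639 (.one (nat_lit 55) (nat_lit 90) (nat_lit 10) (nat_lit 0x600000c0000180000300000600000c00001804f1b000005fffc0c03b4d80000300897) b16640 (.nil))) (.nil)))) (.nil)))) (.nil)))) (.tok (nat_lit 9) (nat_lit 0x600000c0000180000300000600000bf8e697f56eafe5ce5fcfe4bfd4e97fdf7afed6c) (.hit (nat_lit 157) (nat_lit 0) (nat_lit 0x5fe418bf77a97f5982fef445fde86bf8e697f56eafe5ce5fcfe4bfa39d7fd4e2feaf5)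 b16625 (.tok (nat_lit 3) (nat_lit 0x5fe434bf51d17f8a2afefba5fdf72beeb1d7e29cafbe005f88babf5df17fb0c2fe80c) (.hit (nat_lit 158) (nat_lit 1) (nat_lit 0x5fae12bee81d7edd92fd4405fa87ebe88657d645afa5525f575ebefb397f0bd2fcdb9) b16626 (.one (nat_lit 55) (nat_lit 159) (nat_lit 3) (nat_lit 0x5fe434bf51d17f8a2afefba5fdf72beeb1d7e29cafbe005f88babf5df17fb0c2fe80c) b16627 (.nil))) (.tok (nat_lit 9) (nat_lit 0x600000c0000180000300000600000bf62157f17bafdbbe5fc436bfd4e97fdf7afed6c) (.hit (nat_lit 163) (nat_lit 20) (nat_lit 0x5fd5fcbf61117f474afe2195fc430bed5557dfe3afb88e5f7dd6bf48297ed63afc8ca) b16628 (.hit (nat_lit 171) (nat_lit 28) (nat_lit 0x5fb27ebee6857e9eeafd5e15fabc0be66857d209af9cda5f466ebed9597ec48afc4d6) b16632 (.tok (nat_lit 67) (nat_lit 0x600000c0000180000300000600000bf62157f17bafdbbe5fc436bfd4e97fdf7afed6c) (.hit (nat_lit 164) (nat_lit 21) (nat_lit 0x5ffd88bf9fd17f877affd185ffa2ebf25157e9dbafcc7e5fa5b6bf97e97fb95afe734)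 b16629 (.hit (nat_lit 172) (nat_lit 29) (nat_lit 0x5fe3aebf58897f79baff1965fe32abf1e317e8ff2fcac55fa244bf91057fc012fe4e6) b16633 (.tok (nat_lit 9) (nat_lit 0x600000c0000180000300000600000bf62157f17bafdbbe5fc436bfd4e97fdf7afed6c) (.hit (nat_lit 165) (nat_lit 22) (nat_lit 0x5fe812bfbf1d7f9292ff2b15fe562bf2cd97ead42fce6f5fa998bf9fad7f87eafe69f) b16630 (.one (nat_lit 67) (nat_lit 166) (nat_lit 23) (nat_lit 0x600000c0000180000300000600000bf62157f17bafdbbe5fc436bfd4e97fdf7afed6c) b16631 (.nil))) (.nil)))) (.nil)))) (.nil)))) (.nil)))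
noncomputable def r20_129 : Rw Blk := .tok (nat_lit 6) (nat_lit 0x5e0000bc0001800002ffdfc) (.hit (nat_lit 51) (nat_lit 0) (nat_lit 0x5e0000bc00017fba1afee61) b16643 (.tok (nat_lit 3) (nat_lit 0x5e0000bc00017fb902fefe6) (.hit (nat_lit 52) (nat_lit 1) (nat_lit 0x5e0000bc00017ee65afd584) b16644 (.one (nat_lit 56) (nat_lit 55) (nat_lit 6) (nat_lit 0x5e0000bc00017fb902fefe6) b16645 (.one (nat_lit 68) (nat_lit 54) (nat_lit 5) (nat_lit 0x5e0000bc00017f79f2febe4) b16646 (.nil)))) (.tok (nat_lit 40) (nat_lit 0x5e0000bc00017faef2fedef) (.hit (nat_lit 56) (nat_lit 33) (nat_lit 0x5e0000bc00017faef2fedef) b16647 (.hit (nat_lit 57) (nat_lit 34) (nat_lit 0x5e0000bc00017f9ec2fea77) b16648 (.nil))) (.tok (nat_lit 43) (nat_lit 0x5e0000bc0001800002ff4b9) (.hit (nat_lit 58) (nat_lit 35) (nat_lit 0x5e0000bc0001800002ff4b9) b16651 (.hit (nat_lit 59) (nat_lit 36) (nat_lit 0x5e0000bc00017fb572ff410)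 b16652 (.nil))) (.tok (nat_lit 46) (nat_lit 0x5e0000bc00017fdec2ffdfc) (.hit (nat_lit 60) (nat_lit 37) (nat_lit 0x5e0000bc00017f2b7afd763) b16649 (.hit (nat_lit 61) (nat_lit 38) (nat_lit 0x5e0000bc00017fdec2ffdfc) b16650 (.nil))) (.nil)))))) (.tok (nat_lit 9) (nat_lit 0x5e0000bc00018000030015d) (.hit (nat_lit 0) (nat_lit 0) (nat_lit 0x5e0000bc00017fba1aff212) b16653 (.tok (nat_lit 3) (nat_lit 0x5e0000bc00017fb902feb88) (.hit (nat_lit 1) (nat_lit 1) (nat_lit 0x5e0000bc00017ee65afd584) b16644 (.one (nat_lit 56) (nat_lit 4) (nat_lit 6) (nat_lit 0x5e0000bc00017f79f2feb88) b16654 (.one (nat_lit 68) (nat_lit 3) (nat_lit 5) (nat_lit 0x5e0000bc00017fb902feaa2) b16655 (.nil)))) (.tok (nat_lit 40) (nat_lit 0x5e0000bc00017faef2ff010) (.hit (nat_lit 5) (nat_lit 33) (nat_lit 0x5e0000bc00017faef2ff010) b16656 (.hit (nat_lit 6) (nat_lit 34) (nat_lit 0x5e0000bc00017f9ec2fed4e) b16657 (.nil)))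 (.tok (nat_lit 43) (nat_lit 0x5e0000bc00017fdec2ffbea) (.hit (nat_lit 7) (nat_lit 35) (nat_lit 0x5e0000bc00017f2b7afd763) b16649 (.hit (nat_lit 8) (nat_lit 36) (nat_lit 0x5e0000bc00017fdec2ffbea) b16660 (.nil))) (.tok (nat_lit 46) (nat_lit 0x5e0000bc00018000030015d) (.hit (nat_lit 9) (nat_lit 37) (nat_lit 0x5e0000bc00018000030015d) b16658 (.hit (nat_lit 10) (nat_lit 38) (nat_lit 0x5e0000bc00017fb572ff81a) b16659 (.nil))) (.nil)))))) (.nil))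
noncomputable def r20_130 : Rw Blk := .tok (nat_lit 3) (nat_lit 0x5e0000bc00017eecb2fe68e) (.hit (nat_lit 61) (nat_lit 0) (nat_lit 0x5e0000bc00017e925afd8ff) b16712 (.tok (nat_lit 9) (nat_lit 0x5e0000bc00017eac0afdf51) (.hit (nat_lit 62) (nat_lit 20) (nat_lit 0x5e0000bc00017ddfcafc5c9) b16713 (.hit (nat_lit 67) (nat_lit 28) (nat_lit 0x5e0000bc00017d6ebafb7a7) b16716 (.one (nat_lit 56) (nat_lit 69) (nat_lit 31) (nat_lit 0x5e0000bc00017e02aafca25) b16717 (.tok (nat_lit 68) (nat_lit 0x5e0000bc00017eac0afdf51) (.hit (nat_lit 65) (nat_lit 26) (nat_lit 0x5e0000bc00017e6b9afd743) b16714 (.hit (nat_lit 70) (nat_lit 32) (nat_lit 0x5e0000bc00017df6aafc8a5) b16718 (.one (nat_lit 9) (nat_lit 66) (nat_lit 27) (nat_lit 0x5e0000bc00017eac0afdf51) b16715 (.nil)))) (.nil))))) (.tok (nat_lit 64) (nat_lit 0x5e0000bc00017e387afd0df) (.hit (nat_lit 71) (nat_lit 50) (nat_lit 0x5e0000bc00017dfc62fc95c)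 b16719 (.hit (nat_lit 72) (nat_lit 51) (nat_lit 0x5e0000bc00017e387afd0df) b16720 (.nil))) (.tok (nat_lit 67) (nat_lit 0x5e0000bc00017eecb2fe68e) (.hit (nat_lit 73) (nat_lit 52) (nat_lit 0x5e0000bc00017eecb2fe68e) b16721 (.one (nat_lit 3) (nat_lit 79) (nat_lit 58) (nat_lit 0x5e0000bc00017e9daafdd85) b16727 (.tok (nat_lit 9) (nat_lit 0x5e0000bc00017ec64afe299) (.hit (nat_lit 74) (nat_lit 53) (nat_lit 0x5e0000bc00017e479afd2c3) b16722 (.hit (nat_lit 77) (nat_lit 56) (nat_lit 0x5e0000bc00017e6002fd5d0) b16725 (.tok (nat_lit 67) (nat_lit 0x5e0000bc00017ec64afe299) (.hit (nat_lit 75) (nat_lit 54) (nat_lit 0x5e0000bc00017ec04afe1d9) b16723 (.hit (nat_lit 78) (nat_lit 57) (nat_lit 0x5e0000bc00017ec64afe299) b16726 (.one (nat_lit 9) (nat_lit 76) (nat_lit 55) (nat_lit 0x5e0000bc00017e9e6afdd9d) b16724 (.nil)))) (.nil)))) (.nil)))) (.one (nat_lit 70) (nat_lit 81) (nat_lit 60) (nat_lit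 0x5e0000bc00017e3df2fd18e) b16728 (.nil)))))) (.tok (nat_lit 6) (nat_lit 0x5e0000bc000180000300000) (.hit (nat_lit 0) (nat_lit 0) (nat_lit 0x5e0000bc00017f5a12fdc80) b16695 (.tok (nat_lit 6) (nat_lit 0x5e0000bc0001800002ffda5) (.hit (nat_lit 1) (nat_lit 7) (nat_lit 0x5e0000bc00017ec652fd9f8) b16696 (.hit (nat_lit 6) (nat_lit 15) (nat_lit 0x5e0000bc00017e326afc11f) b16699 (.tok (nat_lit 56) (nat_lit 0x5e0000bc0001800002ffda5) (.hit (nat_lit 4) (nat_lit 13) (nat_lit 0x5e0000bc00017f7ee2fea3f) b16697 (.hit (nat_lit 9) (nat_lit 19) (nat_lit 0x5e0000bc00017eb322fde3b) b16701 (.one (nat_lit 6) (nat_lit 5) (nat_lit 14) (nat_lit 0x5e0000bc0001800002ffda5) b16698 (.nil)))) (.one (nat_lit 68) (nat_lit 8) (nat_lit 18) (nat_lit 0x5e0000bc00017edb02fde66) b16700 (.nil))))) (.tok (nat_lit 52) (nat_lit 0x5e0000bc00017f576afebd6) (.hit (nat_lit 10) (nat_lit 39) (nat_lit 0x5e0000bc00017eedd2fdfee)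 b16702 (.hit (nat_lit 11) (nat_lit 40) (nat_lit 0x5e0000bc00017f576afebd6) b16703 (.nil))) (.tok (nat_lit 55) (nat_lit 0x5e0000bc00017fe62300000) (.hit (nat_lit 12) (nat_lit 41) (nat_lit 0x5e0000bc00017fc642ffefa) b16704 (.one (nat_lit 3) (nat_lit 18) (nat_lit 47) (nat_lit 0x5e0000bc00017f6682ff2dd) b16710 (.tok (nat_lit 6) (nat_lit 0x5e0000bc00017fe62300000) (.hit (nat_lit 13) (nat_lit 42) (nat_lit 0x5e0000bc00017f09aafe96f) b16705 (.hit (nat_lit 16) (nat_lit 45) (nat_lit 0x5e0000bc00017f695aff2b4) b16708 (.tok (nat_lit 55) (nat_lit 0x5e0000bc00017fe62300000) (.hit (nat_lit 14) (nat_lit 43) (nat_lit 0x5e0000bc00017fb802fff79) b16706 (.hit (nat_lit 17) (nat_lit 46) (nat_lit 0x5e0000bc00017fe62300000) b16709 (.one (nat_lit 6) (nat_lit 15) (nat_lit 44) (nat_lit 0x5e0000bc00017fbd6aff234) b16707 (.nil)))) (.nil)))) (.nil)))) (.one (nat_lit 58) (nat_lit 20) (nat_lit 49) (nat_lit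 0x5e0000bc00017f68cafef52) b16711 (.nil)))))) (.nil))
noncomputable def r20_131 : Rw Blk := .tok (nat_lit 3) (nat_lit 0x5e0000bc00017eac4afe7c5) (.hit (nat_lit 61) (nat_lit 0) (nat_lit 0x5e0000bc00017dcf0afd21b) b16746 (.tok (nat_lit 9) (nat_lit 0x5e0000bc00017dd22afcca3) (.hit (nat_lit 62) (nat_lit 20) (nat_lit 0x5e0000bc00017cf792fb150) b16747 (.hit (nat_lit 67) (nat_lit 28) (nat_lit 0x5e0000bc00017d130afb4bf) b16750 (.one (nat_lit 56) (nat_lit 69) (nat_lit 31) (nat_lit 0x5e0000bc00017dc4bafcaf5) b16751 (.tok (nat_lit 68) (nat_lit 0x5e0000bc00017dd22afcca3) (.hit (nat_lit 65) (nat_lit 26) (nat_lit 0x5e0000bc00017db622fc922) b16748 (.hit (nat_lit 70) (nat_lit 32) (nat_lit 0x5e0000bc00017d9492fc4f0) b16752 (.one (nat_lit 9) (nat_lit 66) (nat_lit 27) (nat_lit 0x5e0000bc00017dd22afcca3) b16749 (.nil)))) (.nil))))) (.tok (nat_lit 64) (nat_lit 0x5e0000bc00017de582fcf0e) (.hit (nat_lit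 71) (nat_lit 50) (nat_lit 0x5e0000bc00017dabd2fc7d8) b16753 (.hit (nat_lit 72) (nat_lit 51) (nat_lit 0x5e0000bc00017de582fcf0e) b16754 (.nil))) (.tok (nat_lit 67) (nat_lit 0x5e0000bc00017eac4afe7c5) (.hit (nat_lit 73) (nat_lit 52) (nat_lit 0x5e0000bc00017e6262fe42c) b16755 (.one (nat_lit 3) (nat_lit 79) (nat_lit 58) (nat_lit 0x5e0000bc00017e270afd73f) b16761 (.tok (nat_lit 9) (nat_lit 0x5e0000bc00017eac4afe7c5) (.hit (nat_lit 74) (nat_lit 53) (nat_lit 0x5e0000bc00017e71dafe4ed) b16756 (.hit (nat_lit 77) (nat_lit 56) (nat_lit 0x5e0000bc00017ddce2fcdfa) b16759 (.tok (nat_lit 67) (nat_lit 0x5e0000bc00017eac4afe7c5) (.hit (nat_lit 75) (nat_lit 54) (nat_lit 0x5e0000bc00017eac4afe7c5) b16757 (.hit (nat_lit 78) (nat_lit 57) (nat_lit 0x5e0000bc00017e670afdf3f) b16760 (.one (nat_lit 9) (nat_lit 76) (nat_lit 55) (nat_lit 0x5e0000bc00017e6f8afe04f) b16758 (.nil)))) (.nil)))) (.nil)))) (.one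 (nat_lit 70) (nat_lit 81) (nat_lit 60) (nat_lit 0x5e0000bc00017de202fce9e) b16762 (.nil)))))) (.tok (nat_lit 6) (nat_lit 0x5e0000bc000180000300fed) (.hit (nat_lit 0) (nat_lit 0) (nat_lit 0x5e0000bc00017e3cc2fd5fb) b16729 (.tok (nat_lit 6) (nat_lit 0x5e0000bc00017e5fb2fe0b7) (.hit (nat_lit 1) (nat_lit 7) (nat_lit 0x5e0000bc00017dde12fcdef) b16730 (.hit (nat_lit 6) (nat_lit 15) (nat_lit 0x5e0000bc00017d734afc129) b16733 (.tok (nat_lit 56) (nat_lit 0x5e0000bc00017e5fb2fe0b7) (.hit (nat_lit 4) (nat_lit 13) (nat_lit 0x5e0000bc00017e590afdcb0) b16731 (.hit (nat_lit 9) (nat_lit 19) (nat_lit 0x5e0000bc00017e57bafd379) b16735 (.one (nat_lit 6) (nat_lit 5) (nat_lit 14) (nat_lit 0x5e0000bc00017e5fb2fe0b7) b16732 (.nil)))) (.one (nat_lit 68) (nat_lit 8) (nat_lit 18) (nat_lit 0x5e0000bc00017e5a9afd43a) b16734 (.nil))))) (.tok (nat_lit 52) (nat_lit 0x5e0000bc00017e8cb2fe028) (.hit (nat_lit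 10) (nat_lit 39) (nat_lit 0x5e0000bc00017e0c1afe028) b16736 (.hit (nat_lit 11) (nat_lit 40) (nat_lit 0x5e0000bc00017e8cb2fdc9a) b16737 (.nil))) (.tok (nat_lit 55) (nat_lit 0x5e0000bc000180000300fed) (.hit (nat_lit 12) (nat_lit 41) (nat_lit 0x5e0000bc00017eb8c2ffb09) b16738 (.one (nat_lit 3) (nat_lit 18) (nat_lit 47) (nat_lit 0x5e0000bc00017e4b52fe7fe) b16744 (.tok (nat_lit 6) (nat_lit 0x5e0000bc000180000300fed) (.hit (nat_lit 13) (nat_lit 42) (nat_lit 0x5e0000bc00017ee3d2fe8b9) b16739 (.hit (nat_lit 16) (nat_lit 45) (nat_lit 0x5e0000bc00017ec3dafe6c4) b16742 (.tok (nat_lit 55) (nat_lit 0x5e0000bc000180000300fed) (.hit (nat_lit 14) (nat_lit 43) (nat_lit 0x5e0000bc00017fc79300fed) b16740 (.hit (nat_lit 17) (nat_lit 46) (nat_lit 0x5e0000bc00017ea48aff1e1) b16743 (.one (nat_lit 6) (nat_lit 15) (nat_lit 44) (nat_lit 0x5e0000bc000180000300211) b16741 (.nil)))) (.nil)))) (.nil)))) (.one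 (nat_lit 58) (nat_lit 20) (nat_lit 49) (nat_lit 0x5e0000bc00017e7f22fe5ab) b16745 (.nil)))))) (.nil))
noncomputable def r20_132 : Rw Blk := .tok (nat_lit 3) (nat_lit 0xbc0001780002fdd96) (.hit (nat_lit 61) (nat_lit 0) (nat_lit 0xbc0001780002fd24b) b8970 (.tok (nat_lit 6) (nat_lit 0xbc0001780002fd581) (.hit (nat_lit 62) (nat_lit 7) (nat_lit 0xbc0001780002fbbf9) b8971 (.hit (nat_lit 67) (nat_lit 15) (nat_lit 0xbc0001780002fadd7) b8974 (.tok (nat_lit 56) (nat_lit 0xbc0001780002fd581) (.hit (nat_lit 65) (nat_lit 13) (nat_lit 0xbc0001780002fcd73) b8972 (.hit (nat_lit 70) (nat_lit 19) (nat_lit 0xbc0001780002fbed5) b8976 (.one (nat_lit 6) (nat_lit 66) (nat_lit 14) (nat_lit 0xbc0001780002fd581) b8973 (.nil)))) (.one (nat_lit 68) (nat_lit 69) (nat_lit 18) (nat_lit 0xbc0001780002fc055) b8975 (.nil))))) (.tok (nat_lit 52) (nat_lit 0xbc0001780002fc70f) (.hit (nat_lit 71) (nat_lit 39) (nat_lit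 0xbc0001780002fbf8c) b8977 (.hit (nat_lit 72) (nat_lit 40) (nat_lit 0xbc0001780002fc70f) b8978 (.nil))) (.tok (nat_lit 55) (nat_lit 0xbc0001780002fdd96) (.hit (nat_lit 73) (nat_lit 41) (nat_lit 0xbc0001780002fdd96) b8979 (.one (nat_lit 3) (nat_lit 79) (nat_lit 47) (nat_lit 0xbc0001780002fd3b5) b8985 (.tok (nat_lit 6) (nat_lit 0xbc0001780002fd8c9) (.hit (nat_lit 74) (nat_lit 42) (nat_lit 0xbc0001780002fc8f3) b8980 (.hit (nat_lit 77) (nat_lit 45) (nat_lit 0xbc0001780002fcc00) b8983 (.tok (nat_lit 55) (nat_lit 0xbc0001780002fd8c9) (.hit (nat_lit 75) (nat_lit 43) (nat_lit 0xbc0001780002fd809) b8981 (.hit (nat_lit 78) (nat_lit 46) (nat_lit 0xbc0001780002fd8c9) b8984 (.one (nat_lit 6) (nat_lit 76) (nat_lit 44) (nat_lit 0xbc0001780002fd3cd) b8982 (.nil)))) (.nil)))) (.nil)))) (.one (nat_lit 58) (nat_lit 81) (nat_lit 49) (nat_lit 0xbc0001780002fc7be) b8986 (.nil)))))) (.tok (nat_lit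 9) (nat_lit 0xbc000178000300000) (.hit (nat_lit 0) (nat_lit 0) (nat_lit 0xbc0001780002feb42) b8953 (.tok (nat_lit 9) (nat_lit 0xbc000178000300000) (.hit (nat_lit 1) (nat_lit 20) (nat_lit 0xbc0001780002fd8ca) b8954 (.hit (nat_lit 6) (nat_lit 28) (nat_lit 0xbc0001780002fc64d) b8957 (.one (nat_lit 56) (nat_lit 8) (nat_lit 31) (nat_lit 0xbc0001780002fdb60) b8958 (.tok (nat_lit 68) (nat_lit 0xbc000178000300000) (.hit (nat_lit 4) (nat_lit 26) (nat_lit 0xbc0001780002fefdc) b8955 (.hit (nat_lit 9) (nat_lit 32) (nat_lit 0xbc0001780002fd664) b8959 (.one (nat_lit 9) (nat_lit 5) (nat_lit 27) (nat_lit 0xbc000178000300000) b8956 (.nil)))) (.nil))))) (.tok (nat_lit 64) (nat_lit 0xbc0001780002feaed) (.hit (nat_lit 10) (nat_lit 50) (nat_lit 0xbc0001780002fddba) b8960 (.hit (nat_lit 11) (nat_lit 51) (nat_lit 0xbc0001780002feaed) b8961 (.nil))) (.tok (nat_lit 67) (nat_lit 0xbc0001780002ffcc4) (.hit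 (nat_lit 12) (nat_lit 52) (nat_lit 0xbc0001780002ff8c8) b8962 (.one (nat_lit 3) (nat_lit 18) (nat_lit 58) (nat_lit 0xbc0001780002fecd0) b8968 (.tok (nat_lit 9) (nat_lit 0xbc0001780002ffcc4) (.hit (nat_lit 13) (nat_lit 53) (nat_lit 0xbc0001780002fe135) b8963 (.hit (nat_lit 16) (nat_lit 56) (nat_lit 0xbc0001780002fed2b) b8966 (.tok (nat_lit 67) (nat_lit 0xbc0001780002ffcc4) (.hit (nat_lit 14) (nat_lit 54) (nat_lit 0xbc0001780002ff700) b8964 (.hit (nat_lit 17) (nat_lit 57) (nat_lit 0xbc0001780002ffcc4) b8967 (.one (nat_lit 9) (nat_lit 15) (nat_lit 55) (nat_lit 0xbc0001780002ff7ad) b8965 (.nil)))) (.nil)))) (.nil)))) (.one (nat_lit 70) (nat_lit 20) (nat_lit 60) (nat_lit 0xbc0001780002fed19) b8969 (.nil)))))) (.nil))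
noncomputable def r20_133 : Rw Blk := .tok (nat_lit 3) (nat_lit 0x5e0000bc00017eac4aff1c6) (.hit (nat_lit 61) (nat_lit 0) (nat_lit 0x5e0000bc00017dcf0afd337) b16678 (.tok (nat_lit 6) (nat_lit 0x5e0000bc00017dd22afd4c6) (.hit (nat_lit 62) (nat_lit 7) (nat_lit 0x5e0000bc00017cf792fb973) b16679 (.hit (nat_lit 67) (nat_lit 15) (nat_lit 0x5e0000bc00017d130afbce2) b16682 (.tok (nat_lit 56) (nat_lit 0x5e0000bc00017dd22afd4c6) (.hit (nat_lit 65) (nat_lit 13) (nat_lit 0x5e0000bc00017db622fd145) b16680 (.hit (nat_lit 70) (nat_lit 19) (nat_lit 0x5e0000bc00017d9492fcd13) b16684 (.one (nat_lit 6) (nat_lit 66) (nat_lit 14) (nat_lit 0x5e0000bc00017dd22afd4c6) b16681 (.nil)))) (.one (nat_lit 68) (nat_lit 69) (nat_lit 18) (nat_lit 0x5e0000bc00017dc4bafd318) b16683 (.nil))))) (.tok (nat_lit 52) (nat_lit 0x5e0000bc00017de582fd731) (.hit (nat_lit 71) (nat_lit 39) (nat_lit 0x5e0000bc00017dabd2fcffb)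 b16685 (.hit (nat_lit 72) (nat_lit 40) (nat_lit 0x5e0000bc00017de582fd731) b16686 (.nil))) (.tok (nat_lit 55) (nat_lit 0x5e0000bc00017eac4aff1c6) (.hit (nat_lit 73) (nat_lit 41) (nat_lit 0x5e0000bc00017e6262feacc) b16687 (.one (nat_lit 3) (nat_lit 79) (nat_lit 47) (nat_lit 0x5e0000bc00017e270afdf62) b16693 (.tok (nat_lit 6) (nat_lit 0x5e0000bc00017eac4aff1c6) (.hit (nat_lit 74) (nat_lit 42) (nat_lit 0x5e0000bc00017e71dafeba4) b16688 (.hit (nat_lit 77) (nat_lit 45) (nat_lit 0x5e0000bc00017ddce2fd61d) b16691 (.tok (nat_lit 55) (nat_lit 0x5e0000bc00017eac4aff1c6) (.hit (nat_lit 75) (nat_lit 43) (nat_lit 0x5e0000bc00017eac4aff1c6) b16689 (.hit (nat_lit 78) (nat_lit 46) (nat_lit 0x5e0000bc00017e670afe762) b16692 (.one (nat_lit 6) (nat_lit 76) (nat_lit 44) (nat_lit 0x5e0000bc00017e6f8afe872) b16690 (.nil)))) (.nil)))) (.nil)))) (.one (nat_lit 58) (nat_lit 81) (nat_lit 49) (nat_lit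 0x5e0000bc00017de202fd6c1) b16694 (.nil)))))) (.tok (nat_lit 9) (nat_lit 0x5e0000bc00018000030094f) (.hit (nat_lit 0) (nat_lit 0) (nat_lit 0x5e0000bc00017e3cc2fd714) b16661 (.tok (nat_lit 9) (nat_lit 0x5e0000bc00017e5fb2fe171) (.hit (nat_lit 1) (nat_lit 20) (nat_lit 0x5e0000bc00017dde12fcb02) b16662 (.hit (nat_lit 6) (nat_lit 28) (nat_lit 0x5e0000bc00017d734afc207) b16665 (.one (nat_lit 56) (nat_lit 8) (nat_lit 31) (nat_lit 0x5e0000bc00017e5a9afd536) b16666 (.tok (nat_lit 68) (nat_lit 0x5e0000bc00017e5fb2fe171) (.hit (nat_lit 4) (nat_lit 26) (nat_lit 0x5e0000bc00017e590afddc5) b16663 (.hit (nat_lit 9) (nat_lit 32) (nat_lit 0x5e0000bc00017e57bafd460) b16667 (.one (nat_lit 9) (nat_lit 5) (nat_lit 27) (nat_lit 0x5e0000bc00017e5fb2fe171) b16664 (.nil)))) (.nil))))) (.tok (nat_lit 64) (nat_lit 0x5e0000bc00017e8cb2fe025) (.hit (nat_lit 10) (nat_lit 50) (nat_lit 0x5e0000bc00017e0c1afe025)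 b16668 (.hit (nat_lit 11) (nat_lit 51) (nat_lit 0x5e0000bc00017e8cb2fdd7a) b16669 (.nil))) (.tok (nat_lit 67) (nat_lit 0x5e0000bc00018000030094f) (.hit (nat_lit 12) (nat_lit 52) (nat_lit 0x5e0000bc00017eb8c2ffc00) b16670 (.one (nat_lit 3) (nat_lit 18) (nat_lit 58) (nat_lit 0x5e0000bc00017e4b52fe8e7) b16676 (.tok (nat_lit 9) (nat_lit 0x5e0000bc00018000030094f) (.hit (nat_lit 13) (nat_lit 53) (nat_lit 0x5e0000bc00017ee3d2fe9dc) b16671 (.hit (nat_lit 16) (nat_lit 56) (nat_lit 0x5e0000bc00017ec3dafe788) b16674 (.tok (nat_lit 67) (nat_lit 0x5e0000bc00018000030094f) (.hit (nat_lit 14) (nat_lit 54) (nat_lit 0x5e0000bc00017fc793007ff) b16672 (.hit (nat_lit 17) (nat_lit 57) (nat_lit 0x5e0000bc00017ea48aff34f) b16675 (.one (nat_lit 9) (nat_lit 15) (nat_lit 55) (nat_lit 0x5e0000bc00018000030094f) b16673 (.nil)))) (.nil)))) (.nil)))) (.one (nat_lit 70) (nat_lit 20) (nat_lit 60) (nat_lit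 0x5e0000bc00017e7f22fe66a) b16677 (.nil)))))) (.nil))
noncomputable def r20_134 : Rw Blk := .tok (nat_lit 3) (nat_lit 0x2fdbc95f8d20bf7f017ee2bafdb665fac48bf5dc97ef9dafdb36) (.hit (nat_lit 0) (nat_lit 0) (nat_lit 0x2fdbc95f8d20bf7f017ee2bafdb665fac48bf5dc97ef9dafdb36) b35993 (.tok (nat_lit 6) (nat_lit 0x2fce9d5f5e9abf74a57e6bbafcd015f7a44bf00d57e8cf2fd19e) (.hit (nat_lit 1) (nat_lit 7) (nat_lit 0x2fce9d5f5e9abf74a57e6bbafcd015f7a44bf00d57e8cf2fd19e) b16853 (.hit (nat_lit 6) (nat_lit 15) (nat_lit 0x2fcc2e5f59bcbf54957e5842fca925f7566bef7197e797afcf2f) b16854 (.nil))) (.tok (nat_lit 9) (nat_lit 0x2fce9d5f5e9abf74a57e6bbafcd015f7a44bf00d57e8cf2fd19e) (.hit (nat_lit 10) (nat_lit 20) (nat_lit 0x2fce9d5f5e9abf74a57e6bbafcd015f7a44bf00d57e8cf2fd19e) b16853 (.hit (nat_lit 15) (nat_lit 28) (nat_lit 0x2fcc2e5f59bcbf54957e5842fca925f7566bef7197e797afcf2f) b16854 (.nil))) (.nil)))) (.tok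 (nat_lit 6) (nat_lit 0x300000600000c000017fdecaffb63600f10c034bd80000300000) (.hit (nat_lit 81) (nat_lit 0) (nat_lit 0x2ff20c5fbbd4bfacc17f668afea615fc5a0bf880d7f746aff4ca) b16864 (.tok (nat_lit 3) (nat_lit 0x2ff21a5fa8e8bfc5157f564afe9d85fdac4bfbac57f9d42ff253) (.hit (nat_lit 82) (nat_lit 1) (nat_lit 0x2fd7095f740ebf6ec97e7a7afce5e5f94e6bf2e797ea722fd0fe) b16865 (.one (nat_lit 67) (nat_lit 83) (nat_lit 2) (nat_lit 0x2ff21a5fa8e8bfc5157f564afe9d85fdac4bfbac57f9d42ff253) b16866 (.nil))) (.tok (nat_lit 6) (nat_lit 0x300000600000c000017fdecaffb63600f10c034bd80000300000) (.hit (nat_lit 87) (nat_lit 7) (nat_lit 0x2feafe5fb088bfa3a57ee862fdc1b5ff05abfd03d7f1542fded9) b16867 (.hit (nat_lit 95) (nat_lit 15) (nat_lit 0x2fd93f5f7342bf4f757e8782fcfff5f9834bf32ad7eb4f2fd520) b16871 (.tok (nat_lit 55) (nat_lit 0x300000600000c000017fdecaffb63600f10c034bd80000300000) (.hit (nat_lit 88) (nat_lit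 8) (nat_lit 0x2ffec45fcfe8bfc3bd7fc13aff736600388c00c757fec5aff992) b16868 (.hit (nat_lit 96) (nat_lit 16) (nat_lit 0x2ff1d75fac44bfbcdd7f652afebb45fcd9abfa0517fb562ff917) b16872 (.tok (nat_lit 6) (nat_lit 0x300000600000c000017fdecaffb63600f10c034bd80000300000) (.hit (nat_lit 89) (nat_lit 9) (nat_lit 0x2ff4095fdf8ebfc9497f7452fee145feca8bfebd97f958aff2b1) b16869 (.one (nat_lit 55) (nat_lit 90) (nat_lit 10) (nat_lit 0x300000600000c000017fdecaffb63600f10c034bd80000300000) b16870 (.nil))) (.nil)))) (.nil)))) (.nil)))) (.tok (nat_lit 9) (nat_lit 0x300000600000c00001800003000005fd708bfba5d80000300000) (.hit (nat_lit 157) (nat_lit 0) (nat_lit 0x2ff20c5fbbd4bfacc17f66b2febb95fc1cabfa3697f6d7afed11) b16855 (.tok (nat_lit 3) (nat_lit 0x2ff21a5fa8e8bfc5157f786afee215f9b8cbf43657f815afec1a) (.hit (nat_lit 158) (nat_lit 1) (nat_lit 0x2fd7095f740ebf6ec97e9c82fd29f5f6a30bee0ad7ea58afd0a0)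 b16856 (.one (nat_lit 55) (nat_lit 159) (nat_lit 3) (nat_lit 0x2ff21a5fa8e8bfc5157f786afee215f9b8cbf43657f815afec1a) b16857 (.nil))) (.tok (nat_lit 9) (nat_lit 0x300000600000c00001800003000005fd708bfba5d80000300000) (.hit (nat_lit 163) (nat_lit 20) (nat_lit 0x2feafe5fb088bfa3a57f524afe6aa5f90a8bf2d9d7f1452fde79) b16858 (.hit (nat_lit 171) (nat_lit 28) (nat_lit 0x2fd93f5f7342bf4f757ea98afd4405f5940bebecd7eb292fd241) b16862 (.tok (nat_lit 67) (nat_lit 0x300000600000c00001800003000005fd708bfba5d80000300000) (.hit (nat_lit 164) (nat_lit 21) (nat_lit 0x2ffec45fcfe8bfc3bd800003000005fb888bf7d5d7fb232ff70d) b16859 (.hit (nat_lit 172) (nat_lit 29) (nat_lit 0x2ff1d75fac44bfbcdd7f872aff0005fb516bf76797f8fe2fef07) b16863 (.tok (nat_lit 9) (nat_lit 0x300000600000c000017fe172ffb635fd708bfba5d80000300000) (.hit (nat_lit 165) (nat_lit 22) (nat_lit 0x2ff4095fdf8ebfc9497f80d2fef625fbc6abf85217f958aff2b1)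 b16860 (.one (nat_lit 67) (nat_lit 166) (nat_lit 23) (nat_lit 0x300000600000c000017fe172ffb635fd708bfba5d80000300000) b16861 (.nil))) (.nil)))) (.nil)))) (.nil)))) (.nil)))
noncomputable def r20_135 : Rw Blk := .tok (nat_lit 6) (nat_lit 0xbc000178000300000) (.hit (nat_lit 51) (nat_lit 0) (nat_lit 0xbc0001780002ff743) b8943 (.tok (nat_lit 3) (nat_lit 0xbc0001780002ff720) (.hit (nat_lit 52) (nat_lit 1) (nat_lit 0xbc0001780002fdccb) b8944 (.one (nat_lit 56) (nat_lit 55) (nat_lit 6) (nat_lit 0xbc0001780002ff720) b8945 (.one (nat_lit 68) (nat_lit 54) (nat_lit 5) (nat_lit 0xbc0001780002fef3e) b8946 (.nil)))) (.tok (nat_lit 40) (nat_lit 0xbc0001780002ff5de) (.hit (nat_lit 56) (nat_lit 33) (nat_lit 0xbc0001780002ff5de) b8947 (.hit (nat_lit 57) (nat_lit 34) (nat_lit 0xbc0001780002ff3d8) b8948 (.nil))) (.tok (nat_lit 43) (nat_lit 0xbc000178000300000) (.hit (nat_lit 58) (nat_lit 35) (nat_lit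 0xbc000178000300000) b8951 (.hit (nat_lit 59) (nat_lit 36) (nat_lit 0xbc0001780002ff6ae) b8952 (.nil))) (.tok (nat_lit 46) (nat_lit 0xbc0001780002ffbd8) (.hit (nat_lit 60) (nat_lit 37) (nat_lit 0xbc0001780002fe56f) b8949 (.hit (nat_lit 61) (nat_lit 38) (nat_lit 0xbc0001780002ffbd8) b8950 (.nil))) (.nil)))))) (.tok (nat_lit 9) (nat_lit 0xbc000178000300000) (.hit (nat_lit 0) (nat_lit 0) (nat_lit 0xbc0001780002ff743) b8943 (.tok (nat_lit 3) (nat_lit 0xbc0001780002ff720) (.hit (nat_lit 1) (nat_lit 1) (nat_lit 0xbc0001780002fdccb) b8944 (.one (nat_lit 56) (nat_lit 4) (nat_lit 6) (nat_lit 0xbc0001780002fef3e) b8946 (.one (nat_lit 68) (nat_lit 3) (nat_lit 5) (nat_lit 0xbc0001780002ff720) b8945 (.nil)))) (.tok (nat_lit 40) (nat_lit 0xbc0001780002ff5de) (.hit (nat_lit 5) (nat_lit 33) (nat_lit 0xbc0001780002ff5de) b8947 (.hit (nat_lit 6) (nat_lit 34) (nat_lit 0xbc0001780002ff3d8) b8948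 (.nil))) (.tok (nat_lit 43) (nat_lit 0xbc0001780002ffbd8) (.hit (nat_lit 7) (nat_lit 35) (nat_lit 0xbc0001780002fe56f) b8949 (.hit (nat_lit 8) (nat_lit 36) (nat_lit 0xbc0001780002ffbd8) b8950 (.nil))) (.tok (nat_lit 46) (nat_lit 0xbc000178000300000) (.hit (nat_lit 9) (nat_lit 37) (nat_lit 0xbc000178000300000) b8951 (.hit (nat_lit 10) (nat_lit 38) (nat_lit 0xbc0001780002ff6ae) b8952 (.nil))) (.nil)))))) (.nil))
noncomputable def r20_136 : Rw Blk := .tok (nat_lit 3) (nat_lit 0xbc0001780002fdd96) (.hit (nat_lit 61) (nat_lit 0) (nat_lit 0xbc0001780002fd24b) b8970 (.tok (nat_lit 9) (nat_lit 0xbc0001780002fd581) (.hit (nat_lit 62) (nat_lit 20) (nat_lit 0xbc0001780002fbbf9) b8971 (.hit (nat_lit 67) (nat_lit 28) (nat_lit 0xbc0001780002fadd7) b8974 (.one (nat_lit 56) (nat_lit 69) (nat_lit 31) (nat_lit 0xbc0001780002fc055) b8975 (.tok (nat_lit 68) (nat_lit 0xbc0001780002fd581) (.hit (nat_lit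 65) (nat_lit 26) (nat_lit 0xbc0001780002fcd73) b8972 (.hit (nat_lit 70) (nat_lit 32) (nat_lit 0xbc0001780002fbed5) b8976 (.one (nat_lit 9) (nat_lit 66) (nat_lit 27) (nat_lit 0xbc0001780002fd581) b8973 (.nil)))) (.nil))))) (.tok (nat_lit 64) (nat_lit 0xbc0001780002fc70f) (.hit (nat_lit 71) (nat_lit 50) (nat_lit 0xbc0001780002fbf8c) b8977 (.hit (nat_lit 72) (nat_lit 51) (nat_lit 0xbc0001780002fc70f) b8978 (.nil))) (.tok (nat_lit 67) (nat_lit 0xbc0001780002fdd96) (.hit (nat_lit 73) (nat_lit 52) (nat_lit 0xbc0001780002fdd96) b8979 (.one (nat_lit 3) (nat_lit 79) (nat_lit 58) (nat_lit 0xbc0001780002fd3b5) b8985 (.tok (nat_lit 9) (nat_lit 0xbc0001780002fd8c9) (.hit (nat_lit 74) (nat_lit 53) (nat_lit 0xbc0001780002fc8f3) b8980 (.hit (nat_lit 77) (nat_lit 56) (nat_lit 0xbc0001780002fcc00) b8983 (.tok (nat_lit 67) (nat_lit 0xbc0001780002fd8c9) (.hit (nat_lit 75) (nat_lit 54) (nat_lit 0xbc0001780002fd809)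 b8981 (.hit (nat_lit 78) (nat_lit 57) (nat_lit 0xbc0001780002fd8c9) b8984 (.one (nat_lit 9) (nat_lit 76) (nat_lit 55) (nat_lit 0xbc0001780002fd3cd) b8982 (.nil)))) (.nil)))) (.nil)))) (.one (nat_lit 70) (nat_lit 81) (nat_lit 60) (nat_lit 0xbc0001780002fc7be) b8986 (.nil)))))) (.tok (nat_lit 6) (nat_lit 0xbc000178000300000) (.hit (nat_lit 0) (nat_lit 0) (nat_lit 0xbc0001780002feb42) b8953 (.tok (nat_lit 6) (nat_lit 0xbc000178000300000) (.hit (nat_lit 1) (nat_lit 7) (nat_lit 0xbc0001780002fd8ca) b8954 (.hit (nat_lit 6) (nat_lit 15) (nat_lit 0xbc0001780002fc64d) b8957 (.tok (nat_lit 56) (nat_lit 0xbc000178000300000) (.hit (nat_lit 4) (nat_lit 13) (nat_lit 0xbc0001780002fefdc) b8955 (.hit (nat_lit 9) (nat_lit 19) (nat_lit 0xbc0001780002fd664) b8959 (.one (nat_lit 6) (nat_lit 5) (nat_lit 14) (nat_lit 0xbc000178000300000) b8956 (.nil)))) (.one (nat_lit 68) (nat_lit 8) (nat_lit 18)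 (nat_lit 0xbc0001780002fdb60) b8958 (.nil))))) (.tok (nat_lit 52) (nat_lit 0xbc0001780002feaed) (.hit (nat_lit 10) (nat_lit 39) (nat_lit 0xbc0001780002fddba) b8960 (.hit (nat_lit 11) (nat_lit 40) (nat_lit 0xbc0001780002feaed) b8961 (.nil))) (.tok (nat_lit 55) (nat_lit 0xbc0001780002ffcc4) (.hit (nat_lit 12) (nat_lit 41) (nat_lit 0xbc0001780002ff8c8) b8962 (.one (nat_lit 3) (nat_lit 18) (nat_lit 47) (nat_lit 0xbc0001780002fecd0) b8968 (.tok (nat_lit 6) (nat_lit 0xbc0001780002ffcc4) (.hit (nat_lit 13) (nat_lit 42) (nat_lit 0xbc0001780002fe135) b8963 (.hit (nat_lit 16) (nat_lit 45) (nat_lit 0xbc0001780002fed2b) b8966 (.tok (nat_lit 55) (nat_lit 0xbc0001780002ffcc4) (.hit (nat_lit 14) (nat_lit 43) (nat_lit 0xbc0001780002ff700) b8964 (.hit (nat_lit 17) (nat_lit 46) (nat_lit 0xbc0001780002ffcc4) b8967 (.one (nat_lit 6) (nat_lit 15) (nat_lit 44) (nat_lit 0xbc0001780002ff7ad) b8965 (.nil))))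 (.nil)))) (.nil)))) (.one (nat_lit 58) (nat_lit 20) (nat_lit 49) (nat_lit 0xbc0001780002fed19) b8969 (.nil)))))) (.nil))
noncomputable def r20_137 : Rw Blk := .tok (nat_lit 3) (nat_lit 0xbc0001780002fd8f5) (.hit (nat_lit 61) (nat_lit 0) (nat_lit 0xbc0001780002fbd4d) b16924 (.tok (nat_lit 9) (nat_lit 0xbc0001780002fbdb1) (.hit (nat_lit 62) (nat_lit 20) (nat_lit 0xbc0001780002fa25e) b16925 (.hit (nat_lit 67) (nat_lit 28) (nat_lit 0xbc0001780002fa5cd) b16928 (.one (nat_lit 56) (nat_lit 69) (nat_lit 31) (nat_lit 0xbc0001780002fbc03) b16929 (.tok (nat_lit 68) (nat_lit 0xbc0001780002fbdb1) (.hit (nat_lit 65) (nat_lit 26) (nat_lit 0xbc0001780002fba30) b16926 (.hit (nat_lit 70) (nat_lit 32) (nat_lit 0xbc0001780002fb5fe) b16930 (.one (nat_lit 9) (nat_lit 66) (nat_lit 27) (nat_lit 0xbc0001780002fbdb1) b16927 (.nil)))) (.nil))))) (.tok (nat_lit 64) (nat_lit 0xbc0001780002fc01c) (.hit (nat_lit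 71) (nat_lit 50) (nat_lit 0xbc0001780002fb8e6) b16931 (.hit (nat_lit 72) (nat_lit 51) (nat_lit 0xbc0001780002fc01c) b16932 (.nil))) (.tok (nat_lit 67) (nat_lit 0xbc0001780002fd8f5) (.hit (nat_lit 73) (nat_lit 52) (nat_lit 0xbc0001780002fcfb8) b16933 (.one (nat_lit 3) (nat_lit 79) (nat_lit 58) (nat_lit 0xbc0001780002fc84d) b16939 (.tok (nat_lit 9) (nat_lit 0xbc0001780002fd8f5) (.hit (nat_lit 74) (nat_lit 53) (nat_lit 0xbc0001780002fd1a7) b16934 (.hit (nat_lit 77) (nat_lit 56) (nat_lit 0xbc0001780002fbf08) b16937 (.tok (nat_lit 67) (nat_lit 0xbc0001780002fd8f5) (.hit (nat_lit 75) (nat_lit 54) (nat_lit 0xbc0001780002fd8f5) b16935 (.hit (nat_lit 78) (nat_lit 57) (nat_lit 0xbc0001780002fd04d) b16938 (.one (nat_lit 9) (nat_lit 76) (nat_lit 55) (nat_lit 0xbc0001780002fd15d) b16936 (.nil)))) (.nil)))) (.nil)))) (.one (nat_lit 70) (nat_lit 81) (nat_lit 60) (nat_lit 0xbc0001780002fbfac)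 b16940 (.nil)))))) (.tok (nat_lit 6) (nat_lit 0xbc00017800030036c) (.hit (nat_lit 0) (nat_lit 0) (nat_lit 0xbc0001780002fcb04) b16907 (.tok (nat_lit 6) (nat_lit 0xbc0001780002fcf62) (.hit (nat_lit 1) (nat_lit 7) (nat_lit 0xbc0001780002fbf2e) b16908 (.hit (nat_lit 6) (nat_lit 15) (nat_lit 0xbc0001780002fb1d5) b16911 (.tok (nat_lit 56) (nat_lit 0xbc0001780002fcf62) (.hit (nat_lit 4) (nat_lit 13) (nat_lit 0xbc0001780002fce8d) b16909 (.hit (nat_lit 9) (nat_lit 19) (nat_lit 0xbc0001780002fce63) b16913 (.one (nat_lit 6) (nat_lit 5) (nat_lit 14) (nat_lit 0xbc0001780002fcf62) b16910 (.nil)))) (.one (nat_lit 68) (nat_lit 8) (nat_lit 18) (nat_lit 0xbc0001780002fcebf) b16912 (.nil))))) (.tok (nat_lit 52) (nat_lit 0xbc0001780002fd502) (.hit (nat_lit 10) (nat_lit 39) (nat_lit 0xbc0001780002fc4ef) b16914 (.hit (nat_lit 11) (nat_lit 40) (nat_lit 0xbc0001780002fd502) b16915 (.nil))) (.tok (nat_lit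 55) (nat_lit 0xbc00017800030036c) (.hit (nat_lit 12) (nat_lit 41) (nat_lit 0xbc0001780002fda84) b16916 (.one (nat_lit 3) (nat_lit 18) (nat_lit 47) (nat_lit 0xbc0001780002fccd6) b16922 (.tok (nat_lit 6) (nat_lit 0xbc00017800030036c) (.hit (nat_lit 13) (nat_lit 42) (nat_lit 0xbc0001780002fdfe6) b16917 (.hit (nat_lit 16) (nat_lit 45) (nat_lit 0xbc0001780002fdbe7) b16920 (.tok (nat_lit 55) (nat_lit 0xbc00017800030036c) (.hit (nat_lit 14) (nat_lit 43) (nat_lit 0xbc0001780002ffc5e) b16918 (.hit (nat_lit 17) (nat_lit 46) (nat_lit 0xbc0001780002fd7fd) b16921 (.one (nat_lit 6) (nat_lit 15) (nat_lit 44) (nat_lit 0xbc00017800030036c) b16919 (.nil)))) (.nil)))) (.nil)))) (.one (nat_lit 58) (nat_lit 20) (nat_lit 49) (nat_lit 0xbc0001780002fd350) b16923 (.nil)))))) (.nil))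
noncomputable def r20_138 : Rw Blk := .tok (nat_lit 3) (nat_lit 0xbc0001780002fdd96) (.hit (nat_lit 61) (nat_lit 0) (nat_lit 0xbc0001780002fd24b) b8970 (.tok (nat_lit 6) (nat_lit 0xbc0001780002fd581) (.hit (nat_lit 62) (nat_lit 7) (nat_lit 0xbc0001780002fbbf9) b8971 (.hit (nat_lit 67) (nat_lit 15) (nat_lit 0xbc0001780002fadd7) b8974 (.tok (nat_lit 56) (nat_lit 0xbc0001780002fd581) (.hit (nat_lit 65) (nat_lit 13) (nat_lit 0xbc0001780002fcd73) b8972 (.hit (nat_lit 70) (nat_lit 19) (nat_lit 0xbc0001780002fbed5) b8976 (.one (nat_lit 6) (nat_lit 66) (nat_lit 14) (nat_lit 0xbc0001780002fd581) b8973 (.nil)))) (.one (nat_lit 68) (nat_lit 69) (nat_lit 18) (nat_lit 0xbc0001780002fc055) b8975 (.nil))))) (.tok (nat_lit 52) (nat_lit 0xbc0001780002fc70f) (.hit (nat_lit 71) (nat_lit 39) (nat_lit 0xbc0001780002fbf8c) b8977 (.hit (nat_lit 72) (nat_lit 40) (nat_lit 0xbc0001780002fc70f) b8978 (.nil)))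 (.tok (nat_lit 55) (nat_lit 0xbc0001780002fdd96) (.hit (nat_lit 73) (nat_lit 41) (nat_lit 0xbc0001780002fdd96) b8979 (.one (nat_lit 3) (nat_lit 79) (nat_lit 47) (nat_lit 0xbc0001780002fd3b5) b8985 (.tok (nat_lit 6) (nat_lit 0xbc0001780002fd8c9) (.hit (nat_lit 74) (nat_lit 42) (nat_lit 0xbc0001780002fc8f3) b8980 (.hit (nat_lit 77) (nat_lit 45) (nat_lit 0xbc0001780002fcc00) b8983 (.tok (nat_lit 55) (nat_lit 0xbc0001780002fd8c9) (.hit (nat_lit 75) (nat_lit 43) (nat_lit 0xbc0001780002fd809) b8981 (.hit (nat_lit 78) (nat_lit 46) (nat_lit 0xbc0001780002fd8c9) b8984 (.one (nat_lit 6) (nat_lit 76) (nat_lit 44) (nat_lit 0xbc0001780002fd3cd) b8982 (.nil)))) (.nil)))) (.nil)))) (.one (nat_lit 58) (nat_lit 81) (nat_lit 49) (nat_lit 0xbc0001780002fc7be) b8986 (.nil)))))) (.tok (nat_lit 9) (nat_lit 0xbc000178000300000) (.hit (nat_lit 0) (nat_lit 0) (nat_lit 0xbc0001780002feb42) b8953 (.tok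 (nat_lit 9) (nat_lit 0xbc000178000300000) (.hit (nat_lit 1) (nat_lit 20) (nat_lit 0xbc0001780002fd8ca) b8954 (.hit (nat_lit 6) (nat_lit 28) (nat_lit 0xbc0001780002fc64d) b8957 (.one (nat_lit 56) (nat_lit 8) (nat_lit 31) (nat_lit 0xbc0001780002fdb60) b8958 (.tok (nat_lit 68) (nat_lit 0xbc000178000300000) (.hit (nat_lit 4) (nat_lit 26) (nat_lit 0xbc0001780002fefdc) b8955 (.hit (nat_lit 9) (nat_lit 32) (nat_lit 0xbc0001780002fd664) b8959 (.one (nat_lit 9) (nat_lit 5) (nat_lit 27) (nat_lit 0xbc000178000300000) b8956 (.nil)))) (.nil))))) (.tok (nat_lit 64) (nat_lit 0xbc0001780002feaed) (.hit (nat_lit 10) (nat_lit 50) (nat_lit 0xbc0001780002fddba) b8960 (.hit (nat_lit 11) (nat_lit 51) (nat_lit 0xbc0001780002feaed) b8961 (.nil))) (.tok (nat_lit 67) (nat_lit 0xbc0001780002ffcc4) (.hit (nat_lit 12) (nat_lit 52) (nat_lit 0xbc0001780002ff8c8) b8962 (.one (nat_lit 3) (nat_lit 18) (nat_lit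 58) (nat_lit 0xbc0001780002fecd0) b8968 (.tok (nat_lit 9) (nat_lit 0xbc0001780002ffcc4) (.hit (nat_lit 13) (nat_lit 53) (nat_lit 0xbc0001780002fe135) b8963 (.hit (nat_lit 16) (nat_lit 56) (nat_lit 0xbc0001780002fed2b) b8966 (.tok (nat_lit 67) (nat_lit 0xbc0001780002ffcc4) (.hit (nat_lit 14) (nat_lit 54) (nat_lit 0xbc0001780002ff700) b8964 (.hit (nat_lit 17) (nat_lit 57) (nat_lit 0xbc0001780002ffcc4) b8967 (.one (nat_lit 9) (nat_lit 15) (nat_lit 55) (nat_lit 0xbc0001780002ff7ad) b8965 (.nil)))) (.nil)))) (.nil)))) (.one (nat_lit 70) (nat_lit 20) (nat_lit 60) (nat_lit 0xbc0001780002fed19) b8969 (.nil)))))) (.nil))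
noncomputable def r20_139 : Rw Blk := .tok (nat_lit 3) (nat_lit 0xbc0001780002fe5e7) (.hit (nat_lit 61) (nat_lit 0) (nat_lit 0xbc0001780002fca3f) b16890 (.tok (nat_lit 6) (nat_lit 0xbc0001780002fcaa3) (.hit (nat_lit 62) (nat_lit 7) (nat_lit 0xbc0001780002faf50) b16891 (.hit (nat_lit 67) (nat_lit 15) (nat_lit 0xbc0001780002fb2bf) b16894 (.tok (nat_lit 56) (nat_lit 0xbc0001780002fcaa3) (.hit (nat_lit 65) (nat_lit 13) (nat_lit 0xbc0001780002fc722) b16892 (.hit (nat_lit 70) (nat_lit 19) (nat_lit 0xbc0001780002fc2f0) b16896 (.one (nat_lit 6) (nat_lit 66) (nat_lit 14) (nat_lit 0xbc0001780002fcaa3) b16893 (.nil)))) (.one (nat_lit 68) (nat_lit 69) (nat_lit 18) (nat_lit 0xbc0001780002fc8f5) b16895 (.nil))))) (.tok (nat_lit 52) (nat_lit 0xbc0001780002fcd0e) (.hit (nat_lit 71) (nat_lit 39) (nat_lit 0xbc0001780002fc5d8) b16897 (.hit (nat_lit 72) (nat_lit 40) (nat_lit 0xbc0001780002fcd0e)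 b16898 (.nil))) (.tok (nat_lit 55) (nat_lit 0xbc0001780002fe5e7) (.hit (nat_lit 73) (nat_lit 41) (nat_lit 0xbc0001780002fdcaa) b16899 (.one (nat_lit 3) (nat_lit 79) (nat_lit 47) (nat_lit 0xbc0001780002fd53f) b16905 (.tok (nat_lit 6) (nat_lit 0xbc0001780002fe5e7) (.hit (nat_lit 74) (nat_lit 42) (nat_lit 0xbc0001780002fde99) b16900 (.hit (nat_lit 77) (nat_lit 45) (nat_lit 0xbc0001780002fcbfa) b16903 (.tok (nat_lit 55) (nat_lit 0xbc0001780002fe5e7) (.hit (nat_lit 75) (nat_lit 43) (nat_lit 0xbc0001780002fe5e7) b16901 (.hit (nat_lit 78) (nat_lit 46) (nat_lit 0xbc0001780002fdd3f) b16904 (.one (nat_lit 6) (nat_lit 76) (nat_lit 44) (nat_lit 0xbc0001780002fde4f) b16902 (.nil)))) (.nil)))) (.nil)))) (.one (nat_lit 58) (nat_lit 81) (nat_lit 49) (nat_lit 0xbc0001780002fcc9e) b16906 (.nil)))))) (.tok (nat_lit 9) (nat_lit 0xbc00017800030105e) (.hit (nat_lit 0) (nat_lit 0) (nat_lit 0xbc0001780002fd7f6)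 b16873 (.tok (nat_lit 9) (nat_lit 0xbc0001780002fdc54) (.hit (nat_lit 1) (nat_lit 20) (nat_lit 0xbc0001780002fcc20) b16874 (.hit (nat_lit 6) (nat_lit 28) (nat_lit 0xbc0001780002fbec7) b16877 (.one (nat_lit 56) (nat_lit 8) (nat_lit 31) (nat_lit 0xbc0001780002fdbb1) b16878 (.tok (nat_lit 68) (nat_lit 0xbc0001780002fdc54) (.hit (nat_lit 4) (nat_lit 26) (nat_lit 0xbc0001780002fdb7f) b16875 (.hit (nat_lit 9) (nat_lit 32) (nat_lit 0xbc0001780002fdb55) b16879 (.one (nat_lit 9) (nat_lit 5) (nat_lit 27) (nat_lit 0xbc0001780002fdc54) b16876 (.nil)))) (.nil))))) (.tok (nat_lit 64) (nat_lit 0xbc0001780002fe1f4) (.hit (nat_lit 10) (nat_lit 50) (nat_lit 0xbc0001780002fd1e1) b16880 (.hit (nat_lit 11) (nat_lit 51) (nat_lit 0xbc0001780002fe1f4) b16881 (.nil))) (.tok (nat_lit 67) (nat_lit 0xbc00017800030105e) (.hit (nat_lit 12) (nat_lit 52) (nat_lit 0xbc0001780002fe776) b16882 (.one (nat_lit 3)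 (nat_lit 18) (nat_lit 58) (nat_lit 0xbc0001780002fd9c8) b16888 (.tok (nat_lit 9) (nat_lit 0xbc00017800030105e) (.hit (nat_lit 13) (nat_lit 53) (nat_lit 0xbc0001780002fecd8) b16883 (.hit (nat_lit 16) (nat_lit 56) (nat_lit 0xbc0001780002fe8d9) b16886 (.tok (nat_lit 67) (nat_lit 0xbc00017800030105e) (.hit (nat_lit 14) (nat_lit 54) (nat_lit 0xbc000178000300950) b16884 (.hit (nat_lit 17) (nat_lit 57) (nat_lit 0xbc0001780002fe4ef) b16887 (.one (nat_lit 9) (nat_lit 15) (nat_lit 55) (nat_lit 0xbc00017800030105e) b16885 (.nil)))) (.nil)))) (.nil)))) (.one (nat_lit 70) (nat_lit 20) (nat_lit 60) (nat_lit 0xbc0001780002fe042) b16889 (.nil)))))) (.nil))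
noncomputable def r20_140 : Rw Blk := .tok (nat_lit 3) (nat_lit 0xbf6f257e5372fdfc05fbc26bf7ad57ec872fdc26) (.hit (nat_lit 0) (nat_lit 0) (nat_lit 0xbf6f257e5372fdfc05fbc26bf7ad57ec872fdc26) b35994 (.tok (nat_lit 6) (nat_lit 0xbf3a757d995afdd295fa1b0bf46257e5ad2fcefa) (.hit (nat_lit 1) (nat_lit 7) (nat_lit 0xbf3a757d995afdd295fa1b0bf46257e5ad2fcefa) b16764 (.hit (nat_lit 6) (nat_lit 15) (nat_lit 0xbf30b97d85e2fd5255f9cd2bf3c697e475afcc8b) b16765 (.nil))) (.tok (nat_lit 9) (nat_lit 0xbf3a757d995afdd295fa1b0bf46257e5ad2fcefa) (.hit (nat_lit 10) (nat_lit 20) (nat_lit 0xbf3a757d995afdd295fa1b0bf46257e5ad2fcefa) b16764 (.hit (nat_lit 15) (nat_lit 28) (nat_lit 0xbf30b97d85e2fd5255f9cd2bf3c697e475afcc8b) b16765 (.nil))) (.nil)))) (.tok (nat_lit 6) (nat_lit 0xc00001801ef300000600000c000017fcde2ffd5c) (.hit (nat_lit 81) (nat_lit 0) (nat_lit 0xbfc8317f0e42feb305fde24bfbf0d7f44dafec9f)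 b16775 (.tok (nat_lit 3) (nat_lit 0xbfc8697ec292ff1455fe16ebfc5a17f4b8afed20) (.hit (nat_lit 82) (nat_lit 1) (nat_lit 0xbf5c257def2afdbb25faa7abf57b97e6fbafd19b) b16776 (.one (nat_lit 67) (nat_lit 83) (nat_lit 2) (nat_lit 0xbfc8697ec292ff1455fe16ebfc5a17f4b8afed20) b16777 (.nil))) (.tok (nat_lit 6) (nat_lit 0xc00001801ef300000600000c000017fcde2ffd5c) (.hit (nat_lit 87) (nat_lit 7) (nat_lit 0xbfabf97ee112fe8e95fc822bf92c97ede82fdf74) b16778 (.hit (nat_lit 95) (nat_lit 15) (nat_lit 0xbf64fd7debfafd3dd5fadbcbf5e3d7e7cc2fd33c) b16782 (.tok (nat_lit 55) (nat_lit 0xc00001801ef300000600000c000017fcde2ffd5c) (.hit (nat_lit 88) (nat_lit 8) (nat_lit 0xbffb117f5e92ff0ef600000c000017fb67affa73) b16779 (.hit (nat_lit 96) (nat_lit 16) (nat_lit 0xbfc75d7ed002fef375fe526bfcd117f5a6afeef1) b16783 (.tok (nat_lit 6) (nat_lit 0xc00001801ef3000005ffe74bfffad7fcde2ffd5c) (.hit (nat_lit 89) (nat_lit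 9) (nat_lit 0xbfd0257f9d2aff2525fe47abfcbb97f636aff00d) b16780 (.one (nat_lit 55) (nat_lit 90) (nat_lit 10) (nat_lit 0xc00001801ef3000005ffe74bfffad7fcde2ffd5c) b16781 (.nil))) (.nil)))) (.nil)))) (.nil)))) (.tok (nat_lit 9) (nat_lit 0xc00001801ef3000005ffe74bfffad80000300000) (.hit (nat_lit 157) (nat_lit 0) (nat_lit 0xbfc8317f0e42feb305fdcfcbfbcbd7f47dafec9f) b16766 (.tok (nat_lit 3) (nat_lit 0xbfc8697ec292ff1455fd8e2bfb4997f5022fed58) (.hit (nat_lit 158) (nat_lit 1) (nat_lit 0xbf5c257def2afdbb25fa1f8bf46b57e7262fd1ba) b16767 (.one (nat_lit 55) (nat_lit 159) (nat_lit 3) (nat_lit 0xbfc8697ec292ff1455fd8e2bfb4997f5022fed58) b16768 (.nil))) (.tok (nat_lit 9) (nat_lit 0xc00001801ef3000005ffe74bfffad80000300000) (.hit (nat_lit 163) (nat_lit 20) (nat_lit 0xbfabf97ee112fe8e95fbd72bf7da97f314afe37e) b16769 (.hit (nat_lit 171) (nat_lit 28) (nat_lit 0xbf64fd7debfafd3dd5fa53abf4d397e7f42fd33c)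 b16773 (.tok (nat_lit 67) (nat_lit 0xc00001801ef3000005ffe74bfffad80000300000) (.hit (nat_lit 164) (nat_lit 21) (nat_lit 0xbffb117f5e92ff0ef5ff3a8bfea15800002ffd39) b16770 (.hit (nat_lit 172) (nat_lit 29) (nat_lit 0xbfc75d7ed002fef375fdca4bfbc0d7f600afef4c) b16774 (.tok (nat_lit 9) (nat_lit 0xc00001801ef3000005ffe74bfffad7fe38300000) (.hit (nat_lit 165) (nat_lit 22) (nat_lit 0xbfd0257f9d2aff2525fe3d6bfca717f636aff00d) b16771 (.one (nat_lit 67) (nat_lit 166) (nat_lit 23) (nat_lit 0xc00001801ef3000005ffe74bfffad7fe38300000) b16772 (.nil))) (.nil)))) (.nil)))) (.nil)))) (.nil)))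
noncomputable def r20_141 : Rw Blk := .tok (nat_lit 6) (nat_lit 0xbc000178000300000) (.hit (nat_lit 51) (nat_lit 0) (nat_lit 0xbc0001780002ff743) b8943 (.tok (nat_lit 3) (nat_lit 0xbc0001780002ff720) (.hit (nat_lit 52) (nat_lit 1) (nat_lit 0xbc0001780002fdccb) b8944 (.one (nat_lit 56) (nat_lit 55) (nat_lit 6) (nat_lit 0xbc0001780002ff720) b8945 (.one (nat_lit 68) (nat_lit 54) (nat_lit 5) (nat_lit 0xbc0001780002fef3e) b8946 (.nil)))) (.tok (nat_lit 40) (nat_lit 0xbc0001780002ff5de) (.hit (nat_lit 56) (nat_lit 33) (nat_lit 0xbc0001780002ff5de) b8947 (.hit (nat_lit 57) (nat_lit 34) (nat_lit 0xbc0001780002ff3d8) b8948 (.nil))) (.tok (nat_lit 43) (nat_lit 0xbc000178000300000) (.hit (nat_lit 58) (nat_lit 35) (nat_lit 0xbc000178000300000) b8951 (.hit (nat_lit 59) (nat_lit 36) (nat_lit 0xbc0001780002ff6ae) b8952 (.nil))) (.tok (nat_lit 46) (nat_lit 0xbc0001780002ffbd8) (.hit (nat_lit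 60) (nat_lit 37) (nat_lit 0xbc0001780002fe56f) b8949 (.hit (nat_lit 61) (nat_lit 38) (nat_lit 0xbc0001780002ffbd8) b8950 (.nil))) (.nil)))))) (.tok (nat_lit 9) (nat_lit 0xbc000178000300000) (.hit (nat_lit 0) (nat_lit 0) (nat_lit 0xbc0001780002ff743) b8943 (.tok (nat_lit 3) (nat_lit 0xbc0001780002ff720) (.hit (nat_lit 1) (nat_lit 1) (nat_lit 0xbc0001780002fdccb) b8944 (.one (nat_lit 56) (nat_lit 4) (nat_lit 6) (nat_lit 0xbc0001780002fef3e) b8946 (.one (nat_lit 68) (nat_lit 3) (nat_lit 5) (nat_lit 0xbc0001780002ff720) b8945 (.nil)))) (.tok (nat_lit 40) (nat_lit 0xbc0001780002ff5de) (.hit (nat_lit 5) (nat_lit 33) (nat_lit 0xbc0001780002ff5de) b8947 (.hit (nat_lit 6) (nat_lit 34) (nat_lit 0xbc0001780002ff3d8) b8948 (.nil))) (.tok (nat_lit 43) (nat_lit 0xbc0001780002ffbd8) (.hit (nat_lit 7) (nat_lit 35) (nat_lit 0xbc0001780002fe56f) b8949 (.hit (nat_lit 8) (nat_lit 36) (nat_lit 0xbc0001780002ffbd8)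 b8950 (.nil))) (.tok (nat_lit 46) (nat_lit 0xbc000178000300000) (.hit (nat_lit 9) (nat_lit 37) (nat_lit 0xbc000178000300000) b8951 (.hit (nat_lit 10) (nat_lit 38) (nat_lit 0xbc0001780002ff6ae) b8952 (.nil))) (.nil)))))) (.nil))
noncomputable def r20_142 : Rw Blk := .tok (nat_lit 3) (nat_lit 0xbc0001780002fdd96) (.hit (nat_lit 61) (nat_lit 0) (nat_lit 0xbc0001780002fd24b) b8970 (.tok (nat_lit 9) (nat_lit 0xbc0001780002fd581) (.hit (nat_lit 62) (nat_lit 20) (nat_lit 0xbc0001780002fbbf9) b8971 (.hit (nat_lit 67) (nat_lit 28) (nat_lit 0xbc0001780002fadd7) b8974 (.one (nat_lit 56) (nat_lit 69) (nat_lit 31) (nat_lit 0xbc0001780002fc055) b8975 (.tok (nat_lit 68) (nat_lit 0xbc0001780002fd581) (.hit (nat_lit 65) (nat_lit 26) (nat_lit 0xbc0001780002fcd73) b8972 (.hit (nat_lit 70) (nat_lit 32) (nat_lit 0xbc0001780002fbed5) b8976 (.one (nat_lit 9) (nat_lit 66) (nat_lit 27) (nat_lit 0xbc0001780002fd581)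 b8973 (.nil)))) (.nil))))) (.tok (nat_lit 64) (nat_lit 0xbc0001780002fc70f) (.hit (nat_lit 71) (nat_lit 50) (nat_lit 0xbc0001780002fbf8c) b8977 (.hit (nat_lit 72) (nat_lit 51) (nat_lit 0xbc0001780002fc70f) b8978 (.nil))) (.tok (nat_lit 67) (nat_lit 0xbc0001780002fdd96) (.hit (nat_lit 73) (nat_lit 52) (nat_lit 0xbc0001780002fdd96) b8979 (.one (nat_lit 3) (nat_lit 79) (nat_lit 58) (nat_lit 0xbc0001780002fd3b5) b8985 (.tok (nat_lit 9) (nat_lit 0xbc0001780002fd8c9) (.hit (nat_lit 74) (nat_lit 53) (nat_lit 0xbc0001780002fc8f3) b8980 (.hit (nat_lit 77) (nat_lit 56) (nat_lit 0xbc0001780002fcc00) b8983 (.tok (nat_lit 67) (nat_lit 0xbc0001780002fd8c9) (.hit (nat_lit 75) (nat_lit 54) (nat_lit 0xbc0001780002fd809) b8981 (.hit (nat_lit 78) (nat_lit 57) (nat_lit 0xbc0001780002fd8c9) b8984 (.one (nat_lit 9) (nat_lit 76) (nat_lit 55) (nat_lit 0xbc0001780002fd3cd) b8982 (.nil)))) (.nil)))) (.nil))))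 (.one (nat_lit 70) (nat_lit 81) (nat_lit 60) (nat_lit 0xbc0001780002fc7be) b8986 (.nil)))))) (.tok (nat_lit 6) (nat_lit 0xbc000178000300000) (.hit (nat_lit 0) (nat_lit 0) (nat_lit 0xbc0001780002feb42) b8953 (.tok (nat_lit 6) (nat_lit 0xbc000178000300000) (.hit (nat_lit 1) (nat_lit 7) (nat_lit 0xbc0001780002fd8ca) b8954 (.hit (nat_lit 6) (nat_lit 15) (nat_lit 0xbc0001780002fc64d) b8957 (.tok (nat_lit 56) (nat_lit 0xbc000178000300000) (.hit (nat_lit 4) (nat_lit 13) (nat_lit 0xbc0001780002fefdc) b8955 (.hit (nat_lit 9) (nat_lit 19) (nat_lit 0xbc0001780002fd664) b8959 (.one (nat_lit 6) (nat_lit 5) (nat_lit 14) (nat_lit 0xbc000178000300000) b8956 (.nil)))) (.one (nat_lit 68) (nat_lit 8) (nat_lit 18) (nat_lit 0xbc0001780002fdb60) b8958 (.nil))))) (.tok (nat_lit 52) (nat_lit 0xbc0001780002feaed) (.hit (nat_lit 10) (nat_lit 39) (nat_lit 0xbc0001780002fddba) b8960 (.hit (nat_lit 11) (nat_lit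 40) (nat_lit 0xbc0001780002feaed) b8961 (.nil))) (.tok (nat_lit 55) (nat_lit 0xbc0001780002ffcc4) (.hit (nat_lit 12) (nat_lit 41) (nat_lit 0xbc0001780002ff8c8) b8962 (.one (nat_lit 3) (nat_lit 18) (nat_lit 47) (nat_lit 0xbc0001780002fecd0) b8968 (.tok (nat_lit 6) (nat_lit 0xbc0001780002ffcc4) (.hit (nat_lit 13) (nat_lit 42) (nat_lit 0xbc0001780002fe135) b8963 (.hit (nat_lit 16) (nat_lit 45) (nat_lit 0xbc0001780002fed2b) b8966 (.tok (nat_lit 55) (nat_lit 0xbc0001780002ffcc4) (.hit (nat_lit 14) (nat_lit 43) (nat_lit 0xbc0001780002ff700) b8964 (.hit (nat_lit 17) (nat_lit 46) (nat_lit 0xbc0001780002ffcc4) b8967 (.one (nat_lit 6) (nat_lit 15) (nat_lit 44) (nat_lit 0xbc0001780002ff7ad) b8965 (.nil)))) (.nil)))) (.nil)))) (.one (nat_lit 58) (nat_lit 20) (nat_lit 49) (nat_lit 0xbc0001780002fed19) b8969 (.nil)))))) (.nil))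
noncomputable def r20_143 : Rw Blk := .tok (nat_lit 3) (nat_lit 0xbc0001780002fdb08) (.hit (nat_lit 61) (nat_lit 0) (nat_lit 0xbc0001780002fbf60) b16835 (.tok (nat_lit 9) (nat_lit 0xbc0001780002fbfc4) (.hit (nat_lit 62) (nat_lit 20) (nat_lit 0xbc0001780002fa471) b16836 (.hit (nat_lit 67) (nat_lit 28) (nat_lit 0xbc0001780002fa7e0) b16839 (.one (nat_lit 56) (nat_lit 69) (nat_lit 31) (nat_lit 0xbc0001780002fbe16) b16840 (.tok (nat_lit 68) (nat_lit 0xbc0001780002fbfc4) (.hit (nat_lit 65) (nat_lit 26) (nat_lit 0xbc0001780002fbc43) b16837 (.hit (nat_lit 70) (nat_lit 32) (nat_lit 0xbc0001780002fb811) b16841 (.one (nat_lit 9) (nat_lit 66) (nat_lit 27) (nat_lit 0xbc0001780002fbfc4) b16838 (.nil)))) (.nil))))) (.tok (nat_lit 64) (nat_lit 0xbc0001780002fc22f) (.hit (nat_lit 71) (nat_lit 50) (nat_lit 0xbc0001780002fbaf9) b16842 (.hit (nat_lit 72) (nat_lit 51) (nat_lit 0xbc0001780002fc22f)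 b16843 (.nil))) (.tok (nat_lit 67) (nat_lit 0xbc0001780002fdb08) (.hit (nat_lit 73) (nat_lit 52) (nat_lit 0xbc0001780002fd1cb) b16844 (.one (nat_lit 3) (nat_lit 79) (nat_lit 58) (nat_lit 0xbc0001780002fca60) b16850 (.tok (nat_lit 9) (nat_lit 0xbc0001780002fdb08) (.hit (nat_lit 74) (nat_lit 53) (nat_lit 0xbc0001780002fd3ba) b16845 (.hit (nat_lit 77) (nat_lit 56) (nat_lit 0xbc0001780002fc11b) b16848 (.tok (nat_lit 67) (nat_lit 0xbc0001780002fdb08) (.hit (nat_lit 75) (nat_lit 54) (nat_lit 0xbc0001780002fdb08) b16846 (.hit (nat_lit 78) (nat_lit 57) (nat_lit 0xbc0001780002fd260) b16849 (.one (nat_lit 9) (nat_lit 76) (nat_lit 55) (nat_lit 0xbc0001780002fd370) b16847 (.nil)))) (.nil)))) (.nil)))) (.one (nat_lit 70) (nat_lit 81) (nat_lit 60) (nat_lit 0xbc0001780002fc1bf) b16851 (.nil)))))) (.tok (nat_lit 6) (nat_lit 0xbc00017800030057f) (.hit (nat_lit 0) (nat_lit 0) (nat_lit 0xbc0001780002fcd17)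 b16818 (.tok (nat_lit 6) (nat_lit 0xbc0001780002fd175) (.hit (nat_lit 1) (nat_lit 7) (nat_lit 0xbc0001780002fc141) b16819 (.hit (nat_lit 6) (nat_lit 15) (nat_lit 0xbc0001780002fb3e8) b16822 (.tok (nat_lit 56) (nat_lit 0xbc0001780002fd175) (.hit (nat_lit 4) (nat_lit 13) (nat_lit 0xbc0001780002fd0a0) b16820 (.hit (nat_lit 9) (nat_lit 19) (nat_lit 0xbc0001780002fd076) b16824 (.one (nat_lit 6) (nat_lit 5) (nat_lit 14) (nat_lit 0xbc0001780002fd175) b16821 (.nil)))) (.one (nat_lit 68) (nat_lit 8) (nat_lit 18) (nat_lit 0xbc0001780002fd0d2) b16823 (.nil))))) (.tok (nat_lit 52) (nat_lit 0xbc0001780002fd715) (.hit (nat_lit 10) (nat_lit 39) (nat_lit 0xbc0001780002fc702) b16825 (.hit (nat_lit 11) (nat_lit 40) (nat_lit 0xbc0001780002fd715) b16826 (.nil))) (.tok (nat_lit 55) (nat_lit 0xbc00017800030057f) (.hit (nat_lit 12) (nat_lit 41) (nat_lit 0xbc0001780002fdc97) b16827 (.one (nat_lit 3)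 (nat_lit 18) (nat_lit 47) (nat_lit 0xbc0001780002fcee9) b16833 (.tok (nat_lit 6) (nat_lit 0xbc00017800030057f) (.hit (nat_lit 13) (nat_lit 42) (nat_lit 0xbc0001780002fe1f9) b16828 (.hit (nat_lit 16) (nat_lit 45) (nat_lit 0xbc0001780002fddfa) b16831 (.tok (nat_lit 55) (nat_lit 0xbc00017800030057f) (.hit (nat_lit 14) (nat_lit 43) (nat_lit 0xbc0001780002ffe71) b16829 (.hit (nat_lit 17) (nat_lit 46) (nat_lit 0xbc0001780002fda10) b16832 (.one (nat_lit 6) (nat_lit 15) (nat_lit 44) (nat_lit 0xbc00017800030057f) b16830 (.nil)))) (.nil)))) (.nil)))) (.one (nat_lit 58) (nat_lit 20) (nat_lit 49) (nat_lit 0xbc0001780002fd563) b16834 (.nil)))))) (.nil))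
noncomputable def r20_144 : Rw Blk := .tok (nat_lit 3) (nat_lit 0xbc0001780002fdd96) (.hit (nat_lit 61) (nat_lit 0) (nat_lit 0xbc0001780002fd24b) b8970 (.tok (nat_lit 6) (nat_lit 0xbc0001780002fd581) (.hit (nat_lit 62) (nat_lit 7) (nat_lit 0xbc0001780002fbbf9) b8971 (.hit (nat_lit 67) (nat_lit 15) (nat_lit 0xbc0001780002fadd7) b8974 (.tok (nat_lit 56) (nat_lit 0xbc0001780002fd581) (.hit (nat_lit 65) (nat_lit 13) (nat_lit 0xbc0001780002fcd73) b8972 (.hit (nat_lit 70) (nat_lit 19) (nat_lit 0xbc0001780002fbed5) b8976 (.one (nat_lit 6) (nat_lit 66) (nat_lit 14) (nat_lit 0xbc0001780002fd581) b8973 (.nil)))) (.one (nat_lit 68) (nat_lit 69) (nat_lit 18) (nat_lit 0xbc0001780002fc055) b8975 (.nil))))) (.tok (nat_lit 52) (nat_lit 0xbc0001780002fc70f) (.hit (nat_lit 71) (nat_lit 39) (nat_lit 0xbc0001780002fbf8c) b8977 (.hit (nat_lit 72) (nat_lit 40) (nat_lit 0xbc0001780002fc70f) b8978 (.nil)))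 (.tok (nat_lit 55) (nat_lit 0xbc0001780002fdd96) (.hit (nat_lit 73) (nat_lit 41) (nat_lit 0xbc0001780002fdd96) b8979 (.one (nat_lit 3) (nat_lit 79) (nat_lit 47) (nat_lit 0xbc0001780002fd3b5) b8985 (.tok (nat_lit 6) (nat_lit 0xbc0001780002fd8c9) (.hit (nat_lit 74) (nat_lit 42) (nat_lit 0xbc0001780002fc8f3) b8980 (.hit (nat_lit 77) (nat_lit 45) (nat_lit 0xbc0001780002fcc00) b8983 (.tok (nat_lit 55) (nat_lit 0xbc0001780002fd8c9) (.hit (nat_lit 75) (nat_lit 43) (nat_lit 0xbc0001780002fd809) b8981 (.hit (nat_lit 78) (nat_lit 46) (nat_lit 0xbc0001780002fd8c9) b8984 (.one (nat_lit 6) (nat_lit 76) (nat_lit 44) (nat_lit 0xbc0001780002fd3cd) b8982 (.nil)))) (.nil)))) (.nil)))) (.one (nat_lit 58) (nat_lit 81) (nat_lit 49) (nat_lit 0xbc0001780002fc7be) b8986 (.nil)))))) (.tok (nat_lit 9) (nat_lit 0xbc000178000300000) (.hit (nat_lit 0) (nat_lit 0) (nat_lit 0xbc0001780002feb42) b8953 (.tok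 (nat_lit 9) (nat_lit 0xbc000178000300000) (.hit (nat_lit 1) (nat_lit 20) (nat_lit 0xbc0001780002fd8ca) b8954 (.hit (nat_lit 6) (nat_lit 28) (nat_lit 0xbc0001780002fc64d) b8957 (.one (nat_lit 56) (nat_lit 8) (nat_lit 31) (nat_lit 0xbc0001780002fdb60) b8958 (.tok (nat_lit 68) (nat_lit 0xbc000178000300000) (.hit (nat_lit 4) (nat_lit 26) (nat_lit 0xbc0001780002fefdc) b8955 (.hit (nat_lit 9) (nat_lit 32) (nat_lit 0xbc0001780002fd664) b8959 (.one (nat_lit 9) (nat_lit 5) (nat_lit 27) (nat_lit 0xbc000178000300000) b8956 (.nil)))) (.nil))))) (.tok (nat_lit 64) (nat_lit 0xbc0001780002feaed) (.hit (nat_lit 10) (nat_lit 50) (nat_lit 0xbc0001780002fddba) b8960 (.hit (nat_lit 11) (nat_lit 51) (nat_lit 0xbc0001780002feaed) b8961 (.nil))) (.tok (nat_lit 67) (nat_lit 0xbc0001780002ffcc4) (.hit (nat_lit 12) (nat_lit 52) (nat_lit 0xbc0001780002ff8c8) b8962 (.one (nat_lit 3) (nat_lit 18) (nat_lit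 58) (nat_lit 0xbc0001780002fecd0) b8968 (.tok (nat_lit 9) (nat_lit 0xbc0001780002ffcc4) (.hit (nat_lit 13) (nat_lit 53) (nat_lit 0xbc0001780002fe135) b8963 (.hit (nat_lit 16) (nat_lit 56) (nat_lit 0xbc0001780002fed2b) b8966 (.tok (nat_lit 67) (nat_lit 0xbc0001780002ffcc4) (.hit (nat_lit 14) (nat_lit 54) (nat_lit 0xbc0001780002ff700) b8964 (.hit (nat_lit 17) (nat_lit 57) (nat_lit 0xbc0001780002ffcc4) b8967 (.one (nat_lit 9) (nat_lit 15) (nat_lit 55) (nat_lit 0xbc0001780002ff7ad) b8965 (.nil)))) (.nil)))) (.nil)))) (.one (nat_lit 70) (nat_lit 20) (nat_lit 60) (nat_lit 0xbc0001780002fed19) b8969 (.nil)))))) (.nil))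
noncomputable def r20_145 : Rw Blk := .tok (nat_lit 3) (nat_lit 0xbc0001780002fe0e4) (.hit (nat_lit 61) (nat_lit 0) (nat_lit 0xbc0001780002fc53c) b16801 (.tok (nat_lit 6) (nat_lit 0xbc0001780002fc5a0) (.hit (nat_lit 62) (nat_lit 7) (nat_lit 0xbc0001780002faa4d) b16802 (.hit (nat_lit 67) (nat_lit 15) (nat_lit 0xbc0001780002fadbc) b16805 (.tok (nat_lit 56) (nat_lit 0xbc0001780002fc5a0) (.hit (nat_lit 65) (nat_lit 13) (nat_lit 0xbc0001780002fc21f) b16803 (.hit (nat_lit 70) (nat_lit 19) (nat_lit 0xbc0001780002fbded) b16807 (.one (nat_lit 6) (nat_lit 66) (nat_lit 14) (nat_lit 0xbc0001780002fc5a0) b16804 (.nil)))) (.one (nat_lit 68) (nat_lit 69) (nat_lit 18) (nat_lit 0xbc0001780002fc3f2) b16806 (.nil))))) (.tok (nat_lit 52) (nat_lit 0xbc0001780002fc80b) (.hit (nat_lit 71) (nat_lit 39) (nat_lit 0xbc0001780002fc0d5) b16808 (.hit (nat_lit 72) (nat_lit 40) (nat_lit 0xbc0001780002fc80b)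 b16809 (.nil))) (.tok (nat_lit 55) (nat_lit 0xbc0001780002fe0e4) (.hit (nat_lit 73) (nat_lit 41) (nat_lit 0xbc0001780002fd7a7) b16810 (.one (nat_lit 3) (nat_lit 79) (nat_lit 47) (nat_lit 0xbc0001780002fd03c) b16816 (.tok (nat_lit 6) (nat_lit 0xbc0001780002fe0e4) (.hit (nat_lit 74) (nat_lit 42) (nat_lit 0xbc0001780002fd996) b16811 (.hit (nat_lit 77) (nat_lit 45) (nat_lit 0xbc0001780002fc6f7) b16814 (.tok (nat_lit 55) (nat_lit 0xbc0001780002fe0e4) (.hit (nat_lit 75) (nat_lit 43) (nat_lit 0xbc0001780002fe0e4) b16812 (.hit (nat_lit 78) (nat_lit 46) (nat_lit 0xbc0001780002fd83c) b16815 (.one (nat_lit 6) (nat_lit 76) (nat_lit 44) (nat_lit 0xbc0001780002fd94c) b16813 (.nil)))) (.nil)))) (.nil)))) (.one (nat_lit 58) (nat_lit 81) (nat_lit 49) (nat_lit 0xbc0001780002fc79b) b16817 (.nil)))))) (.tok (nat_lit 9) (nat_lit 0xbc000178000300b5b) (.hit (nat_lit 0) (nat_lit 0) (nat_lit 0xbc0001780002fd2f3)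 b16784 (.tok (nat_lit 9) (nat_lit 0xbc0001780002fd751) (.hit (nat_lit 1) (nat_lit 20) (nat_lit 0xbc0001780002fc71d) b16785 (.hit (nat_lit 6) (nat_lit 28) (nat_lit 0xbc0001780002fb9c4) b16788 (.one (nat_lit 56) (nat_lit 8) (nat_lit 31) (nat_lit 0xbc0001780002fd6ae) b16789 (.tok (nat_lit 68) (nat_lit 0xbc0001780002fd751) (.hit (nat_lit 4) (nat_lit 26) (nat_lit 0xbc0001780002fd67c) b16786 (.hit (nat_lit 9) (nat_lit 32) (nat_lit 0xbc0001780002fd652) b16790 (.one (nat_lit 9) (nat_lit 5) (nat_lit 27) (nat_lit 0xbc0001780002fd751) b16787 (.nil)))) (.nil))))) (.tok (nat_lit 64) (nat_lit 0xbc0001780002fdcf1) (.hit (nat_lit 10) (nat_lit 50) (nat_lit 0xbc0001780002fccde) b16791 (.hit (nat_lit 11) (nat_lit 51) (nat_lit 0xbc0001780002fdcf1) b16792 (.nil))) (.tok (nat_lit 67) (nat_lit 0xbc000178000300b5b) (.hit (nat_lit 12) (nat_lit 52) (nat_lit 0xbc0001780002fe273) b16793 (.one (nat_lit 3)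 (nat_lit 18) (nat_lit 58) (nat_lit 0xbc0001780002fd4c5) b16799 (.tok (nat_lit 9) (nat_lit 0xbc000178000300b5b) (.hit (nat_lit 13) (nat_lit 53) (nat_lit 0xbc0001780002fe7d5) b16794 (.hit (nat_lit 16) (nat_lit 56) (nat_lit 0xbc0001780002fe3d6) b16797 (.tok (nat_lit 67) (nat_lit 0xbc000178000300b5b) (.hit (nat_lit 14) (nat_lit 54) (nat_lit 0xbc00017800030044d) b16795 (.hit (nat_lit 17) (nat_lit 57) (nat_lit 0xbc0001780002fdfec) b16798 (.one (nat_lit 9) (nat_lit 15) (nat_lit 55) (nat_lit 0xbc000178000300b5b) b16796 (.nil)))) (.nil)))) (.nil)))) (.one (nat_lit 70) (nat_lit 20) (nat_lit 60) (nat_lit 0xbc0001780002fdb3f) b16800 (.nil)))))) (.nil))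
noncomputable def r20_146 : Rw Blk := .tok (nat_lit 3) (nat_lit 0x17ee82afd6c95fdadcbf3c6d7e924afe2635fc30ebf82117eb0f2fd61e) (.hit (nat_lit 0) (nat_lit 0) (nat_lit 0x17ee82afd6c95fdadcbf3c6d7e924afe2635fc30ebf82117eb0f2fd61e) b35995 (.tok (nat_lit 6) (nat_lit 0x17e7ecafbf865fd5aebf10ed7e188afc4a05f8d30bf1c717e4792fc336) (.hit (nat_lit 1) (nat_lit 7) (nat_lit 0x17e7ecafbf865fd5aebf10ed7e188afc4a05f8d30bf1c717e4792fc336) b16942 (.hit (nat_lit 6) (nat_lit 15) (nat_lit 0x17e6b52fbd175fc5a6bf07317e0512fc2315f8852bf12b57e341afc0c7) b16943 (.nil))) (.tok (nat_lit 9) (nat_lit 0x17e7ecafbf865fd5aebf10ed7e188afc4a05f8d30bf1c717e4792fc336) (.hit (nat_lit 10) (nat_lit 20) (nat_lit 0x17e7ecafbf865fd5aebf10ed7e188afc4a05f8d30bf1c717e4792fc336) b16942 (.hit (nat_lit 15) (nat_lit 28) (nat_lit 0x17e6b52fbd175fc5a6bf07317e0512fc2315f8852bf12b57e341afc0c7) b16943 (.nil))) (.nil)))) (.tok (nat_lit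 6) (nat_lit 0x180000300000600000c0000180000300000600000c0000180000300000) (.hit (nat_lit 81) (nat_lit 0) (nat_lit 0x17f9a42fee235ff1bcbfb9c57f87daff3d55fe942bfcf997f87eaff0fc) b16952 (.tok (nat_lit 3) (nat_lit 0x17f9ab2fe4ad5ffde6bfbdd17f9512ffc4e5ff6fabfe9b97f9512ff2a2) (.hit (nat_lit 82) (nat_lit 1) (nat_lit 0x17ec22afca405fd2c0bf4fe97eb942fe0d45fc006bf7bd17eb942fd728) b16953 (.one (nat_lit 67) (nat_lit 83) (nat_lit 2) (nat_lit 0x17f9ab2fe4ad5ffde6bfbdd17f9512ffc4e5ff6fabfe9b97f9512ff2a2) b16954 (.nil))) (.tok (nat_lit 6) (nat_lit 0x180000300000600000c0000180000300000600000c0000180000300000) (.hit (nat_lit 87) (nat_lit 7) (nat_lit 0x17f61d2fe87d5fed2ebf91797f280afe8215fdd66bfbea97f280afe864) b16955 (.hit (nat_lit 95) (nat_lit 15) (nat_lit 0x17ed3dafc9da5fc316bf566d7ec64afe2755fc348bf82557ec64afd8c9) b16950 (.tok (nat_lit 55) (nat_lit 0x180000300000600000c0000180000300000600000c0000180000300000)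 (.hit (nat_lit 88) (nat_lit 8) (nat_lit 0x1800002ff82d5ffd3ac0000180000300000600000c0000180000300000) b16956 (.hit (nat_lit 96) (nat_lit 16) (nat_lit 0x17f989afe65b5ff9cabfc5417fa3f2ffe2a5ffab2bff1297fa3f2ff47e) b16958 (.one (nat_lit 6) (nat_lit 89) (nat_lit 9) (nat_lit 0x17faa2b00000600000bfc3c57fa132ffd965ff4eabff1117fa11aff428) b16957 (.nil)))) (.nil)))) (.nil)))) (.tok (nat_lit 9) (nat_lit 0x180000300000600000bfd8d17fd712ffe285ffa6ebffa097fdf8aff918) (.hit (nat_lit 157) (nat_lit 0) (nat_lit 0x17f9a42fee235ff1bcbfb7357f8482ff5665feac0bfd4bd7f82b2ff0fd) b16944 (.tok (nat_lit 3) (nat_lit 0x17f9ab2fe4ad5ffde6bfbdbd7f8df2ffc495ff6d8bfda1d7f7612ff2a2) (.hit (nat_lit 158) (nat_lit 1) (nat_lit 0x17ec22afca405fd2c0bf4fe97eb942fe0d45fc006bf7bd57eb942fd728) b16945 (.one (nat_lit 55) (nat_lit 159) (nat_lit 3) (nat_lit 0x17f9ab2fe4ad5ffde6bfbdbd7f8df2ffc495ff6d8bfda1d7f7612ff2a2) b16946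 (.nil))) (.tok (nat_lit 9) (nat_lit 0x180000300000600000bfd8d17fd712ffe285ffa6ebffa097fdf8aff918) (.hit (nat_lit 163) (nat_lit 20) (nat_lit 0x17f61d2fe87d5fed2ebf88217f2832fee415fdf82bfc3717f282afe864) b16947 (.hit (nat_lit 171) (nat_lit 28) (nat_lit 0x17ed3dafc9da5fc316bf566d7ec64afe2755fc348bf82557ec64afd8c9) b16950 (.tok (nat_lit 67) (nat_lit 0x180000300000600000bfd8d17fd712ffe285ffa6ebffa097fdf8aff918) (.hit (nat_lit 164) (nat_lit 21) (nat_lit 0x1800002ff82d5ffd3abfd8d17fd712ffb935ffa20bffa097fdf8aff918) b16948 (.hit (nat_lit 172) (nat_lit 29) (nat_lit 0x17f989afe65b5ff9cabfc5417fa3f2ffe285ffa6ebff1297fa3f2ff47e) b16951 (.one (nat_lit 9) (nat_lit 165) (nat_lit 22) (nat_lit 0x17faa2b00000600000bfb2bd7fa11aff50a5fea7abfe6697fa57aff3fe) b16949 (.nil)))) (.nil)))) (.nil)))) (.nil)))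
noncomputable def r20_147 : Rw Blk := .tok (nat_lit 6) (nat_lit 0xbc000178000300000) (.hit (nat_lit 51) (nat_lit 0) (nat_lit 0xbc0001780002ff743) b8943 (.tok (nat_lit 3) (nat_lit 0xbc0001780002ffecc) (.hit (nat_lit 52) (nat_lit 1) (nat_lit 0xbc0001780002fdccb) b8944 (.one (nat_lit 14) (nat_lit 53) (nat_lit 4) (nat_lit 0xbc0001780002ffecc) b9239 (.one (nat_lit 56) (nat_lit 55) (nat_lit 6) (nat_lit 0xbc0001780002ff720) b8945 (.nil)))) (.tok (nat_lit 40) (nat_lit 0xbc0001780002ff5de) (.hit (nat_lit 56) (nat_lit 33) (nat_lit 0xbc0001780002ff5de) b8947 (.hit (nat_lit 57) (nat_lit 34) (nat_lit 0xbc0001780002ff3d8) b8948 (.nil))) (.tok (nat_lit 43) (nat_lit 0xbc000178000300000) (.hit (nat_lit 58) (nat_lit 35) (nat_lit 0xbc000178000300000) b8951 (.hit (nat_lit 59) (nat_lit 36) (nat_lit 0xbc0001780002ff6ae) b8952 (.nil))) (.tok (nat_lit 46) (nat_lit 0xbc0001780002ffbd8) (.hit (nat_lit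 60) (nat_lit 37) (nat_lit 0xbc0001780002fe56f) b8949 (.hit (nat_lit 61) (nat_lit 38) (nat_lit 0xbc0001780002ffbd8) b8950 (.nil))) (.nil)))))) (.tok (nat_lit 9) (nat_lit 0xbc000178000300000) (.hit (nat_lit 0) (nat_lit 0) (nat_lit 0xbc0001780002ff743) b8943 (.tok (nat_lit 3) (nat_lit 0xbc0001780002ffecc) (.hit (nat_lit 1) (nat_lit 1) (nat_lit 0xbc0001780002fdccb) b8944 (.one (nat_lit 14) (nat_lit 2) (nat_lit 4) (nat_lit 0xbc0001780002ffecc) b9239 (.one (nat_lit 68) (nat_lit 3) (nat_lit 5) (nat_lit 0xbc0001780002ff720) b8945 (.nil)))) (.tok (nat_lit 40) (nat_lit 0xbc0001780002ff5de) (.hit (nat_lit 5) (nat_lit 33) (nat_lit 0xbc0001780002ff5de) b8947 (.hit (nat_lit 6) (nat_lit 34) (nat_lit 0xbc0001780002ff3d8) b8948 (.nil))) (.tok (nat_lit 43) (nat_lit 0xbc0001780002ffbd8) (.hit (nat_lit 7) (nat_lit 35) (nat_lit 0xbc0001780002fe56f) b8949 (.hit (nat_lit 8) (nat_lit 36) (nat_lit 0xbc0001780002ffbd8)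 b8950 (.nil))) (.tok (nat_lit 46) (nat_lit 0xbc000178000300000) (.hit (nat_lit 9) (nat_lit 37) (nat_lit 0xbc000178000300000) b8951 (.hit (nat_lit 10) (nat_lit 38) (nat_lit 0xbc0001780002ff6ae) b8952 (.nil))) (.nil)))))) (.nil))
noncomputable def r20_148 : Rw Blk := .tok (nat_lit 3) (nat_lit 0xbc0001780002fe17d) (.hit (nat_lit 61) (nat_lit 0) (nat_lit 0xbc0001780002fd5b6) b16974 (.tok (nat_lit 9) (nat_lit 0xbc0001780002fd8ec) (.hit (nat_lit 62) (nat_lit 20) (nat_lit 0xbc0001780002fbf64) b16975 (.hit (nat_lit 67) (nat_lit 28) (nat_lit 0xbc0001780002fb142) b16980 (.tok (nat_lit 14) (nat_lit 0xbc0001780002fd16a) (.hit (nat_lit 63) (nat_lit 24) (nat_lit 0xbc0001780002fc177) b16976 (.hit (nat_lit 68) (nat_lit 30) (nat_lit 0xbc0001780002fc559) b16981 (.one (nat_lit 6) (nat_lit 64) (nat_lit 25) (nat_lit 0xbc0001780002fd16a) b16977 (.nil)))) (.one (nat_lit 56) (nat_lit 69) (nat_lit 31)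 (nat_lit 0xbc0001780002fc3c0) b16982 (.tok (nat_lit 68) (nat_lit 0xbc0001780002fd8ec) (.hit (nat_lit 65) (nat_lit 26) (nat_lit 0xbc0001780002fd0de) b16978 (.hit (nat_lit 70) (nat_lit 32) (nat_lit 0xbc0001780002fc240) b16983 (.one (nat_lit 9) (nat_lit 66) (nat_lit 27) (nat_lit 0xbc0001780002fd8ec) b16979 (.nil)))) (.nil)))))) (.tok (nat_lit 64) (nat_lit 0xbc0001780002fca7a) (.hit (nat_lit 71) (nat_lit 50) (nat_lit 0xbc0001780002fc2f7) b16984 (.hit (nat_lit 72) (nat_lit 51) (nat_lit 0xbc0001780002fca7a) b16985 (.nil))) (.tok (nat_lit 67) (nat_lit 0xbc0001780002fe17d) (.hit (nat_lit 73) (nat_lit 52) (nat_lit 0xbc0001780002fe101) b16986 (.tok (nat_lit 3) (nat_lit 0xbc0001780002fe17d) (.hit (nat_lit 79) (nat_lit 58) (nat_lit 0xbc0001780002fd720) b16992 (.one (nat_lit 55) (nat_lit 80) (nat_lit 59) (nat_lit 0xbc0001780002fe17d) b16993 (.nil))) (.tok (nat_lit 9) (nat_lit 0xbc0001780002fdc34)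 (.hit (nat_lit 74) (nat_lit 53) (nat_lit 0xbc0001780002fcc5e) b16987 (.hit (nat_lit 77) (nat_lit 56) (nat_lit 0xbc0001780002fcf6b) b16990 (.tok (nat_lit 67) (nat_lit 0xbc0001780002fdc34) (.hit (nat_lit 75) (nat_lit 54) (nat_lit 0xbc0001780002fdb74) b16988 (.hit (nat_lit 78) (nat_lit 57) (nat_lit 0xbc0001780002fdc34) b16991 (.one (nat_lit 9) (nat_lit 76) (nat_lit 55) (nat_lit 0xbc0001780002fd738) b16989 (.nil)))) (.nil)))) (.nil)))) (.one (nat_lit 70) (nat_lit 81) (nat_lit 60) (nat_lit 0xbc0001780002fcb29) b16994 (.nil)))))) (.tok (nat_lit 6) (nat_lit 0xbc0001780003003ae) (.hit (nat_lit 0) (nat_lit 0) (nat_lit 0xbc0001780002feead) b16959 (.tok (nat_lit 6) (nat_lit 0xbc0001780002ffbc5) (.hit (nat_lit 1) (nat_lit 7) (nat_lit 0xbc0001780002fdc35) b16960 (.hit (nat_lit 6) (nat_lit 15) (nat_lit 0xbc0001780002fc9b8) b16963 (.tok (nat_lit 14) (nat_lit 0xbc0001780002ffbc5) (.hit (nat_lit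 2) (nat_lit 11) (nat_lit 0xbc0001780002ffbc5) b16961 (.hit (nat_lit 7) (nat_lit 17) (nat_lit 0xbc0001780002fea0a) b16964 (.one (nat_lit 9) (nat_lit 3) (nat_lit 12) (nat_lit 0xbc0001780002ffa7a) b16962 (.nil)))) (.one (nat_lit 68) (nat_lit 8) (nat_lit 18) (nat_lit 0xbc0001780002fdecb) b16965 (.nil))))) (.tok (nat_lit 52) (nat_lit 0xbc0001780002fee58) (.hit (nat_lit 10) (nat_lit 39) (nat_lit 0xbc0001780002fe125) b16966 (.hit (nat_lit 11) (nat_lit 40) (nat_lit 0xbc0001780002fee58) b16967 (.nil))) (.tok (nat_lit 55) (nat_lit 0xbc0001780003003ae) (.hit (nat_lit 12) (nat_lit 41) (nat_lit 0xbc0001780002ffc33) b16968 (.tok (nat_lit 3) (nat_lit 0xbc0001780003003ae) (.hit (nat_lit 18) (nat_lit 47) (nat_lit 0xbc0001780002ff03b) b16971 (.one (nat_lit 67) (nat_lit 19) (nat_lit 48) (nat_lit 0xbc0001780003003ae) b16972 (.nil))) (.tok (nat_lit 6) (nat_lit 0xbc0001780002ff096) (.hit (nat_lit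 13) (nat_lit 42) (nat_lit 0xbc0001780002fe4a0) b16969 (.hit (nat_lit 16) (nat_lit 45) (nat_lit 0xbc0001780002ff096) b16970 (.nil))) (.nil)))) (.one (nat_lit 58) (nat_lit 20) (nat_lit 49) (nat_lit 0xbc0001780002ff084) b16973 (.nil)))))) (.nil))
noncomputable def r20_149 : Rw Blk := .tok (nat_lit 3) (nat_lit 0xbc0001780002ff90f) (.hit (nat_lit 61) (nat_lit 0) (nat_lit 0xbc0001780002fdd67) b9291 (.tok (nat_lit 9) (nat_lit 0xbc0001780002fe295) (.hit (nat_lit 62) (nat_lit 20) (nat_lit 0xbc0001780002fc278) b9292 (.hit (nat_lit 67) (nat_lit 28) (nat_lit 0xbc0001780002fc5e7) b9297 (.tok (nat_lit 14) (nat_lit 0xbc0001780002fe295) (.hit (nat_lit 63) (nat_lit 24) (nat_lit 0xbc0001780002fd806) b9293 (.hit (nat_lit 68) (nat_lit 30) (nat_lit 0xbc0001780002fd4f7) b9298 (.one (nat_lit 6) (nat_lit 64) (nat_lit 25) (nat_lit 0xbc0001780002fe295) b9294 (.nil)))) (.one (nat_lit 56) (nat_lit 69) (nat_lit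 31) (nat_lit 0xbc0001780002fdc1d) b9299 (.tok (nat_lit 68) (nat_lit 0xbc0001780002fddcb) (.hit (nat_lit 65) (nat_lit 26) (nat_lit 0xbc0001780002fda4a) b9295 (.hit (nat_lit 70) (nat_lit 32) (nat_lit 0xbc0001780002fd618) b9300 (.one (nat_lit 9) (nat_lit 66) (nat_lit 27) (nat_lit 0xbc0001780002fddcb) b9296 (.nil)))) (.nil)))))) (.tok (nat_lit 64) (nat_lit 0xbc0001780002fe036) (.hit (nat_lit 71) (nat_lit 50) (nat_lit 0xbc0001780002fd900) b9301 (.hit (nat_lit 72) (nat_lit 51) (nat_lit 0xbc0001780002fe036) b9302 (.nil))) (.tok (nat_lit 67) (nat_lit 0xbc0001780002ff90f) (.hit (nat_lit 73) (nat_lit 52) (nat_lit 0xbc0001780002fefd2) b9303 (.tok (nat_lit 3) (nat_lit 0xbc0001780002ff019) (.hit (nat_lit 79) (nat_lit 58) (nat_lit 0xbc0001780002fe867) b9309 (.one (nat_lit 55) (nat_lit 80) (nat_lit 59) (nat_lit 0xbc0001780002ff019) b9310 (.nil))) (.tok (nat_lit 9) (nat_lit 0xbc0001780002ff90f)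 (.hit (nat_lit 74) (nat_lit 53) (nat_lit 0xbc0001780002ff1c1) b9304 (.hit (nat_lit 77) (nat_lit 56) (nat_lit 0xbc0001780002fdf22) b9307 (.tok (nat_lit 67) (nat_lit 0xbc0001780002ff90f) (.hit (nat_lit 75) (nat_lit 54) (nat_lit 0xbc0001780002ff90f) b9305 (.hit (nat_lit 78) (nat_lit 57) (nat_lit 0xbc0001780002ff067) b9308 (.one (nat_lit 9) (nat_lit 76) (nat_lit 55) (nat_lit 0xbc0001780002ff177) b9306 (.nil)))) (.nil)))) (.nil)))) (.one (nat_lit 70) (nat_lit 81) (nat_lit 60) (nat_lit 0xbc0001780002fdfc6) b9311 (.nil)))))) (.tok (nat_lit 6) (nat_lit 0xbc000178000300000) (.hit (nat_lit 0) (nat_lit 0) (nat_lit 0xbc0001780002feb1e) b9276 (.tok (nat_lit 6) (nat_lit 0xbc0001780002ff88b) (.hit (nat_lit 1) (nat_lit 7) (nat_lit 0xbc0001780002fdf48) b9277 (.hit (nat_lit 6) (nat_lit 15) (nat_lit 0xbc0001780002fd1ef) b9280 (.tok (nat_lit 14) (nat_lit 0xbc0001780002ff88b) (.hit (nat_lit 2) (nat_lit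 11) (nat_lit 0xbc0001780002ff001) b9278 (.hit (nat_lit 7) (nat_lit 17) (nat_lit 0xbc0001780002ff88b) b9281 (.one (nat_lit 9) (nat_lit 3) (nat_lit 12) (nat_lit 0xbc0001780002fef49) b9279 (.nil)))) (.one (nat_lit 68) (nat_lit 8) (nat_lit 18) (nat_lit 0xbc0001780002feed9) b9282 (.nil))))) (.tok (nat_lit 52) (nat_lit 0xbc0001780002ff51c) (.hit (nat_lit 10) (nat_lit 39) (nat_lit 0xbc0001780002fe509) b9283 (.hit (nat_lit 11) (nat_lit 40) (nat_lit 0xbc0001780002ff51c) b9284 (.nil))) (.tok (nat_lit 55) (nat_lit 0xbc000178000300000) (.hit (nat_lit 12) (nat_lit 41) (nat_lit 0xbc0001780002ffa9e) b9285 (.tok (nat_lit 3) (nat_lit 0xbc0001780002fffab) (.hit (nat_lit 18) (nat_lit 47) (nat_lit 0xbc0001780002fecf0) b9288 (.one (nat_lit 67) (nat_lit 19) (nat_lit 48) (nat_lit 0xbc0001780002fffab) b9289 (.nil))) (.tok (nat_lit 6) (nat_lit 0xbc000178000300000) (.hit (nat_lit 13) (nat_lit 42) (nat_lit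 0xbc000178000300000) b9286 (.hit (nat_lit 16) (nat_lit 45) (nat_lit 0xbc0001780002ffc01) b9287 (.nil))) (.nil)))) (.one (nat_lit 58) (nat_lit 20) (nat_lit 49) (nat_lit 0xbc0001780002ff36a) b9290 (.nil)))))) (.nil))
noncomputable def r20_150 : Rw Blk := .tok (nat_lit 3) (nat_lit 0xbc0001780002fddcf) (.hit (nat_lit 61) (nat_lit 0) (nat_lit 0xbc0001780002fd208) b9255 (.tok (nat_lit 6) (nat_lit 0xbc0001780002fd53e) (.hit (nat_lit 62) (nat_lit 7) (nat_lit 0xbc0001780002fbbb6) b9256 (.hit (nat_lit 67) (nat_lit 15) (nat_lit 0xbc0001780002fad94) b9261 (.tok (nat_lit 14) (nat_lit 0xbc0001780002fcdbc) (.hit (nat_lit 63) (nat_lit 11) (nat_lit 0xbc0001780002fbdc9) b9257 (.hit (nat_lit 68) (nat_lit 17) (nat_lit 0xbc0001780002fc1ab) b9262 (.one (nat_lit 9) (nat_lit 64) (nat_lit 12) (nat_lit 0xbc0001780002fcdbc) b9258 (.nil)))) (.tok (nat_lit 56) (nat_lit 0xbc0001780002fd53e) (.hit (nat_lit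 65) (nat_lit 13) (nat_lit 0xbc0001780002fcd30) b9259 (.hit (nat_lit 70) (nat_lit 19) (nat_lit 0xbc0001780002fbe92) b9264 (.one (nat_lit 6) (nat_lit 66) (nat_lit 14) (nat_lit 0xbc0001780002fd53e) b9260 (.nil)))) (.one (nat_lit 68) (nat_lit 69) (nat_lit 18) (nat_lit 0xbc0001780002fc012) b9263 (.nil)))))) (.tok (nat_lit 52) (nat_lit 0xbc0001780002fc6cc) (.hit (nat_lit 71) (nat_lit 39) (nat_lit 0xbc0001780002fbf49) b9265 (.hit (nat_lit 72) (nat_lit 40) (nat_lit 0xbc0001780002fc6cc) b9266 (.nil))) (.tok (nat_lit 55) (nat_lit 0xbc0001780002fddcf) (.hit (nat_lit 73) (nat_lit 41) (nat_lit 0xbc0001780002fdd53) b9267 (.tok (nat_lit 3) (nat_lit 0xbc0001780002fddcf) (.hit (nat_lit 79) (nat_lit 47) (nat_lit 0xbc0001780002fd372) b9273 (.one (nat_lit 67) (nat_lit 80) (nat_lit 48) (nat_lit 0xbc0001780002fddcf) b9274 (.nil))) (.tok (nat_lit 6) (nat_lit 0xbc0001780002fd886) (.hit (nat_lit 74)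 (nat_lit 42) (nat_lit 0xbc0001780002fc8b0) b9268 (.hit (nat_lit 77) (nat_lit 45) (nat_lit 0xbc0001780002fcbbd) b9271 (.tok (nat_lit 55) (nat_lit 0xbc0001780002fd886) (.hit (nat_lit 75) (nat_lit 43) (nat_lit 0xbc0001780002fd7c6) b9269 (.hit (nat_lit 78) (nat_lit 46) (nat_lit 0xbc0001780002fd886) b9272 (.one (nat_lit 6) (nat_lit 76) (nat_lit 44) (nat_lit 0xbc0001780002fd38a) b9270 (.nil)))) (.nil)))) (.nil)))) (.one (nat_lit 58) (nat_lit 81) (nat_lit 49) (nat_lit 0xbc0001780002fc77b) b9275 (.nil)))))) (.tok (nat_lit 9) (nat_lit 0xbc000178000300000) (.hit (nat_lit 0) (nat_lit 0) (nat_lit 0xbc0001780002feaff) b9240 (.tok (nat_lit 9) (nat_lit 0xbc0001780002ff817) (.hit (nat_lit 1) (nat_lit 20) (nat_lit 0xbc0001780002fd887) b9241 (.hit (nat_lit 6) (nat_lit 28) (nat_lit 0xbc0001780002fc60a) b9244 (.tok (nat_lit 14) (nat_lit 0xbc0001780002ff817) (.hit (nat_lit 2) (nat_lit 24) (nat_lit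 0xbc0001780002ff817) b9242 (.hit (nat_lit 7) (nat_lit 30) (nat_lit 0xbc0001780002fe65c) b9245 (.one (nat_lit 6) (nat_lit 3) (nat_lit 25) (nat_lit 0xbc0001780002ff6cc) b9243 (.nil)))) (.one (nat_lit 56) (nat_lit 8) (nat_lit 31) (nat_lit 0xbc0001780002fdb1d) b9246 (.nil))))) (.tok (nat_lit 64) (nat_lit 0xbc0001780002feaaa) (.hit (nat_lit 10) (nat_lit 50) (nat_lit 0xbc0001780002fdd77) b9247 (.hit (nat_lit 11) (nat_lit 51) (nat_lit 0xbc0001780002feaaa) b9248 (.nil))) (.tok (nat_lit 67) (nat_lit 0xbc000178000300000) (.hit (nat_lit 12) (nat_lit 52) (nat_lit 0xbc0001780002ff885) b9249 (.tok (nat_lit 3) (nat_lit 0xbc000178000300000) (.hit (nat_lit 18) (nat_lit 58) (nat_lit 0xbc0001780002fec8d) b9252 (.one (nat_lit 55) (nat_lit 19) (nat_lit 59) (nat_lit 0xbc000178000300000) b9253 (.nil))) (.tok (nat_lit 9) (nat_lit 0xbc0001780002fece8) (.hit (nat_lit 13) (nat_lit 53) (nat_lit 0xbc0001780002fe0f2)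 b9250 (.hit (nat_lit 16) (nat_lit 56) (nat_lit 0xbc0001780002fece8) b9251 (.nil))) (.nil)))) (.one (nat_lit 70) (nat_lit 20) (nat_lit 60) (nat_lit 0xbc0001780002fecd6) b9254 (.nil)))))) (.nil))
noncomputable def r20_151 : Rw Blk := .tok (nat_lit 3) (nat_lit 0xbc0001780002ff90f) (.hit (nat_lit 61) (nat_lit 0) (nat_lit 0xbc0001780002fdd67) b9291 (.tok (nat_lit 6) (nat_lit 0xbc0001780002fe295) (.hit (nat_lit 62) (nat_lit 7) (nat_lit 0xbc0001780002fc278) b9292 (.hit (nat_lit 67) (nat_lit 15) (nat_lit 0xbc0001780002fc5e7) b9297 (.tok (nat_lit 14) (nat_lit 0xbc0001780002fe295) (.hit (nat_lit 63) (nat_lit 11) (nat_lit 0xbc0001780002fd806) b9293 (.hit (nat_lit 68) (nat_lit 17) (nat_lit 0xbc0001780002fd4f7) b9298 (.one (nat_lit 9) (nat_lit 64) (nat_lit 12) (nat_lit 0xbc0001780002fe295) b9294 (.nil)))) (.tok (nat_lit 56) (nat_lit 0xbc0001780002fddcb) (.hit (nat_lit 65) (nat_lit 13) (nat_lit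 0xbc0001780002fda4a) b9295 (.hit (nat_lit 70) (nat_lit 19) (nat_lit 0xbc0001780002fd618) b9300 (.one (nat_lit 6) (nat_lit 66) (nat_lit 14) (nat_lit 0xbc0001780002fddcb) b9296 (.nil)))) (.one (nat_lit 68) (nat_lit 69) (nat_lit 18) (nat_lit 0xbc0001780002fdc1d) b9299 (.nil)))))) (.tok (nat_lit 52) (nat_lit 0xbc0001780002fe036) (.hit (nat_lit 71) (nat_lit 39) (nat_lit 0xbc0001780002fd900) b9301 (.hit (nat_lit 72) (nat_lit 40) (nat_lit 0xbc0001780002fe036) b9302 (.nil))) (.tok (nat_lit 55) (nat_lit 0xbc0001780002ff90f) (.hit (nat_lit 73) (nat_lit 41) (nat_lit 0xbc0001780002fefd2) b9303 (.tok (nat_lit 3) (nat_lit 0xbc0001780002ff019) (.hit (nat_lit 79) (nat_lit 47) (nat_lit 0xbc0001780002fe867) b9309 (.one (nat_lit 67) (nat_lit 80) (nat_lit 48) (nat_lit 0xbc0001780002ff019) b9310 (.nil))) (.tok (nat_lit 6) (nat_lit 0xbc0001780002ff90f) (.hit (nat_lit 74) (nat_lit 42) (nat_lit 0xbc0001780002ff1c1)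 b9304 (.hit (nat_lit 77) (nat_lit 45) (nat_lit 0xbc0001780002fdf22) b9307 (.tok (nat_lit 55) (nat_lit 0xbc0001780002ff90f) (.hit (nat_lit 75) (nat_lit 43) (nat_lit 0xbc0001780002ff90f) b9305 (.hit (nat_lit 78) (nat_lit 46) (nat_lit 0xbc0001780002ff067) b9308 (.one (nat_lit 6) (nat_lit 76) (nat_lit 44) (nat_lit 0xbc0001780002ff177) b9306 (.nil)))) (.nil)))) (.nil)))) (.one (nat_lit 58) (nat_lit 81) (nat_lit 49) (nat_lit 0xbc0001780002fdfc6) b9311 (.nil)))))) (.tok (nat_lit 9) (nat_lit 0xbc000178000300000) (.hit (nat_lit 0) (nat_lit 0) (nat_lit 0xbc0001780002feb1e) b9276 (.tok (nat_lit 9) (nat_lit 0xbc0001780002ff88b) (.hit (nat_lit 1) (nat_lit 20) (nat_lit 0xbc0001780002fdf48) b9277 (.hit (nat_lit 6) (nat_lit 28) (nat_lit 0xbc0001780002fd1ef) b9280 (.tok (nat_lit 14) (nat_lit 0xbc0001780002ff88b) (.hit (nat_lit 2) (nat_lit 24) (nat_lit 0xbc0001780002ff001) b9278 (.hit (nat_lit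 7) (nat_lit 30) (nat_lit 0xbc0001780002ff88b) b9281 (.one (nat_lit 6) (nat_lit 3) (nat_lit 25) (nat_lit 0xbc0001780002fef49) b9279 (.nil)))) (.one (nat_lit 56) (nat_lit 8) (nat_lit 31) (nat_lit 0xbc0001780002feed9) b9282 (.nil))))) (.tok (nat_lit 64) (nat_lit 0xbc0001780002ff51c) (.hit (nat_lit 10) (nat_lit 50) (nat_lit 0xbc0001780002fe509) b9283 (.hit (nat_lit 11) (nat_lit 51) (nat_lit 0xbc0001780002ff51c) b9284 (.nil))) (.tok (nat_lit 67) (nat_lit 0xbc000178000300000) (.hit (nat_lit 12) (nat_lit 52) (nat_lit 0xbc0001780002ffa9e) b9285 (.tok (nat_lit 3) (nat_lit 0xbc0001780002fffab) (.hit (nat_lit 18) (nat_lit 58) (nat_lit 0xbc0001780002fecf0) b9288 (.one (nat_lit 55) (nat_lit 19) (nat_lit 59) (nat_lit 0xbc0001780002fffab) b9289 (.nil))) (.tok (nat_lit 9) (nat_lit 0xbc000178000300000) (.hit (nat_lit 13) (nat_lit 53) (nat_lit 0xbc000178000300000) b9286 (.hit (nat_lit 16) (nat_lit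 56) (nat_lit 0xbc0001780002ffc01) b9287 (.nil))) (.nil)))) (.one (nat_lit 70) (nat_lit 20) (nat_lit 60) (nat_lit 0xbc0001780002ff36a) b9290 (.nil)))))) (.nil))
noncomputable def r20_152 : Rw Blk := .tok (nat_lit 3) (nat_lit 0xbf6f257e3482fdfc05fc4a8bf6f4d7ed972ff14a5fd3eebfae6d7f421afe2885fcae6bfda3d7fcb6afe0a55fec2cbfd8217f3f2afee915fd9a6bfc45d7f86aafef785fd556bf9abd7f71aafe432) (.hit (nat_lit 0) (nat_lit 0) (nat_lit 0xbf6f257e3482fdfc05fc4a8bf6f4d7ed972ff14a5fd3eebfae6d7f421afe2885fcae6bfd7c97fcb6afe0a55fec2cbfd8217f3f2afee915fd9a6bfc45d7f86aafef785fd556bf9abd7f71aafe432) b35996 (.tok (nat_lit 6) (nat_lit 0xbf3a757d7a6afdd295f8d40bf39917e33aafc5ad5f7b50bf11197e0c42fab4e5f85c0bfda3d7f7692fb4795fe0cabfc19d7ee77afb5d25f6bc6bfac697f2ab2feb285fc5e0bf65097f118afd810) (.hit (nat_lit 1) (nat_lit 7) (nat_lit 0xbf3a757d7a6afdd295f8d40bf39917e33aafc5ad5f7b50bf11197e0c42fab4e5f85c0bfda3d7f7692fb4795fe0cabfc19d7ee77afb5d25f6bc6bfac697f2ab2feb285fc5e0bf65097f118afd810)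 b16998 (.hit (nat_lit 6) (nat_lit 15) (nat_lit 0xbf30b97d66f2fd5255f8862bf2fd57e2032fc33e5f7672bf075d7df8cafa8df5f80e2bf85d57f1c1afb20a5fca2abf942d7e8102fb3635f66e8bf74cd7ed972fda6a5fbbccbf54a17efc6afd59f) b16999 (.nil))) (.tok (nat_lit 9) (nat_lit 0xbf3a757d7a6afdd295f8d40bf39917e33aafc5ad5f7b50bf11197e0c42fab4e5f85c0bf81097f1512fb4795fc190bf909d7eda62fb5d25f6bc6bf84697ed4bafdf4d5fc1e8bf663d7f111afd87b) (.hit (nat_lit 10) (nat_lit 20) (nat_lit 0xbf3a757d7a6afdd295f8d40bf39917e33aafc5ad5f7b50bf11197e0c42fab4e5f85c0bf3f797e3ff2fb4795f8282bf0c417eda62fb5d25f6bc6bf0df17dfe5afdf4d5fc1e8bf663d7f111afd87b) b16996 (.hit (nat_lit 15) (nat_lit 28) (nat_lit 0xbf30b97d66f2fd5255f8862bf2fd57e2032fc33e5f7672bf075d7df8cafa8df5f80e2bf81097f1512fb20a5fc190bf909d7e7f5afb3635f66e8bf84697ed4bafde295fbdd2bf59417efccafd3ca) b16997 (.nil))) (.nil)))) (.tok (nat_lit 6) (nat_lit 0xc0000180000300000600000c0000180000300000600000c00001800003007c7600000c00001800003000d7600000c0000180000300000600000c00001800002ffe6a600000c01be980000300000)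 (.hit (nat_lit 81) (nat_lit 0) (nat_lit 0xbfc8317eef52feb305fd262bfc29d7f5b42ff0185fcf76bfbd917f8532fe8fd5fd8a2bfcafd7fa5cafe2835fe518bfe0557f462aff0265fdf32bfbc217f99f2fea285fd994bf9fd97f6ae2fe32d) b17008 (.one (nat_lit 3) (nat_lit 82) (nat_lit 1) (nat_lit 0xbf5c257dd03afdbb25fa72abf5b417eb3fafdde15fb4bcbf70097ef30afde265fcc0abf96897fa7b2ff25f5febf6bfd7cd7f0abafe79e5fcbbebf9c6d7f2fd2fdf645fa46ebf6b417f0efafd796) b17009 (.tok (nat_lit 6) (nat_lit 0xc0000180000300000600000c0000180000300000600000c00001800003007c7600000c00001800003000d7600000c0000180000300000600000c00001800002ffe6a600000c01be980000300000) (.hit (nat_lit 87) (nat_lit 7) (nat_lit 0xbfabf97ec222fe8e95fb9b8bf8dd17f3bd2fe3775fb0e0bf7e597f1942fd8765fb8c6bf78297f16eafd74a5fc1babf97ad7ebbd2fea855fc026bf77017f1492fce4f5faa90bf37b17ef77afd050) b17010 (.hit (nat_lit 95) (nat_lit 15) (nat_lit 0xbf64fd7dcd0afd3dd5fa164bf61c57ec102fdde55faaf2bf769d7ef6b2fd7c65fb56abf74bd7f5722fdf855fd852bfb3e97e922afe3475fc316bf64ed7f05eafd7b85f9d6ebf59557eebfafd35f)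 b17014 (.tok (nat_lit 55) (nat_lit 0xc0000180000300000600000c0000180000300000600000c00001800003007c7600000c00001800003000d7600000c0000180000300000600000c00001800002ffe6a600000c01be980000300000) (.hit (nat_lit 88) (nat_lit 8) (nat_lit 0xbffb117f3fa2ff0ef600000bffabd7fa46afffbb600000bfed017ff36aff9655ff6eabff0257ff122ff57d5ffe7abffa257f6933000005fed26bfdf057ff2e2fe3cf5fda38bfa2297fa422fecd7) b17011 (.hit (nat_lit 96) (nat_lit 16) (nat_lit 0xbfc75d7eb112fef375fe114bfd0297f9702ff0df5fe1debfc0c17f8c4afec975fd8c4bfe415800003000d75ffc26bfe4e17f7b42ff89e5fe538bfef2d7fad5afe9be5fd570bfa6ed7f9572febf0) b17015 (.tok (nat_lit 6) (nat_lit 0xc00001800003000005ffa60c00001800003000005ff9fec00001800003007c7600000c000017ff1a2ff107600000c00001800002ffdbd600000c00001800002ffe6a600000c01be980000300000) (.hit (nat_lit 89) (nat_lit 9) (nat_lit 0xbfd0257f7e3aff2525fd788bfced97f97d2ff0a25fc9dcbfbf5d7f77caffa695fdfd2bfc9b97f5472fd8fb5fd066bfac017f53a2ff1805fe302bfae4d7f9c3afed065fdd5abfa7f57f4a6afea6e)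 b17012 (.one (nat_lit 55) (nat_lit 90) (nat_lit 10) (nat_lit 0xc00001800003000005ffa60c00001800003000005ff9fec00001800003007c7600000c000017ff1a2ff107600000c00001800002ffdbd600000c00001800002ffe6a600000c01be980000300000) b17013 (.nil))) (.nil)))) (.nil)))) (.nil)))) (.tok (nat_lit 9) (nat_lit 0xc00001800003000005fee7abff8ed7fc282ff40f5fdfc6bfcaa17f7f52fe1f85ffb98bffd497fbb92fe2db5ff074bfe1157fca2afef545fdaf0bfcbc17f8c7b002905fe86ebfc7797f6dbafeaf1) (.hit (nat_lit 157) (nat_lit 0) (nat_lit 0xbfc8317eef52feb305fd9e8bfd2f97f5e9aff3925fdfc6bfca457f7682fe1f85ffb98bfdc997fba5afe1245ff074bfe1157fca2afef545fdaf0bfca557f8c7afeec05fdb66bfae797f6bc2fe68f) b17000 (.one (nat_lit 3) (nat_lit 158) (nat_lit 1) (nat_lit 0xbf5c257dd03afdbb25f9e18bf5b417eb3fafbda35f6b3cbef0f17dcbf2fa3445f75acbf69157e932afac6f5f8afebf28217ee4a2fadc85f5bb2bf378d7e5192fdead5fa4b4bf6b417e8c3afcd46) b17001 (.tok (nat_lit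 9) (nat_lit 0xc00001800003000005fee7abff8ed7fc282ff40f5fd814bfcaa17f7f52fd9b05fe284bffd497fbb92fe2db5fdf46bfc5c97f9032fe4345fc88abfcbc17f79fb002905fe86ebfc7797f6dbafeaf1) (.hit (nat_lit 163) (nat_lit 20) (nat_lit 0xbfabf97ec222fe8e95fbb18bf96597f3dcafd0df5f91b4bf3de17e65d2fb6805f9c24bf6c657e99cafbfab5f98e6bf39097ee4eafc1045f822abf3add7e5832fe4665fa0ccbf44f17e7d32fc6b8) b17002 (.hit (nat_lit 171) (nat_lit 28) (nat_lit 0xbf64fd7dcd0afd3dd5fa15abf61c57ec102fb52b5f5a4cbecf117d8832f9acc5f64bcbf51817e6402fa3f75f7f34bf108d7ea192fa5505f4ac2bf1ff97e226afdb995f9e0abf5de97e7542fc46b) b17006 (.tok (nat_lit 67) (nat_lit 0xc00001800003000005fee7abff8ed7fc282ff40f5fd814bfcaa17f7f52fd9b05fe284bffd497fbb92fe2db5fdf46bfc5c97f9032fe4345fc88abfcbc17f79fb002905fe86ebfc7797f6dbafeaf1) (.hit (nat_lit 164) (nat_lit 21) (nat_lit 0xbffb117f3fa2ff0ef5fee7abfefa57fbc32fe4cf5fb994bf8da17f0552fca705fc404bfc0a57f424afd39b5fc0c6bf88c97f6bc2fd4f45faa0abf8f1d7f00b2ff7dc5fd6c4bfa1f57f3752fddee)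 b17003 (.hit (nat_lit 172) (nat_lit 29) (nat_lit 0xbfc75d7eb112fef375fd8c4bfd0997f9eaafe3165fb622bf86bd7ef78afc8b75fc092bfe4157f892afd1e25fc87ebfa3217f6aaafd33b5fa698bfb28d7f4792ff5785fe164bfb3b97f6742fe5df) b17007 (.tok (nat_lit 9) (nat_lit 0xc00001800003000005fea04bff8ed7fc282ff40f5fd814bfcaa17f7f52fd9b05fe284bffd497fbb92fe2db5fdf46bfc5c97f9032fe4345fc88abfcbc17f79fb002905fe86ebfc7797f6dbafeaf1) (.hit (nat_lit 165) (nat_lit 22) (nat_lit 0xbfd0257f7e3aff2525fd804bfcf3d7f986afe6c05fbd76bf95657f14dafcc615fc7e6bfc9b97f5472fd58c5fc4a8bf908d7f8e2afd6e55fadecbf98317f12db0004e5fe008bfba217f6dbafe043) b17004 (.one (nat_lit 67) (nat_lit 166) (nat_lit 23) (nat_lit 0xc00001800003000005fea04bff8ed7fc282ff40f5fd814bfcaa17f7f52fd9b05fe284bffd497fbb92fe2db5fdf46bfc5c97f9032fe4345fc88abfcbc17f79fb002905fe86ebfc7797f4ccafeaf1) b17005 (.nil))) (.nil)))) (.nil)))) (.nil)))) (.nil)))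
noncomputable def r20_153 : Rw Blk := .tok (nat_lit 6) (nat_lit 0x5e0000bc0001800002ff9ea600000bffbdd80000300000) (.hit (nat_lit 51) (nat_lit 0) (nat_lit 0x5e0000bc00017fba1aff9ea600000bfdef17fcde2ff133) b17016 (.tok (nat_lit 3) (nat_lit 0x5e0000bc00017ff662fef9a5ff054bfee9d7fca82ff623) (.hit (nat_lit 52) (nat_lit 1) (nat_lit 0x5e0000bc00017ee65afcdb55fab2cbf5f457ea832fd361) b17017 (.one (nat_lit 14) (nat_lit 53) (nat_lit 4) (nat_lit 0x5e0000bc00017ff662fef9a5ff054bfee9d7fca82ff623) b17018 (.one (nat_lit 68) (nat_lit 54) (nat_lit 5) (nat_lit 0x5e0000bc00017f79f2fe83e5fd58cbfc0557f6d82fea8a) b17019 (.nil)))) (.tok (nat_lit 40) (nat_lit 0x5e0000bc00017faef2ff2385fe692bfd5b57f94cafef72) (.hit (nat_lit 56) (nat_lit 33) (nat_lit 0x5e0000bc00017faef2ff2385fe692bfd5b57f94cafef72) b17020 (.hit (nat_lit 57) (nat_lit 34) (nat_lit 0x5e0000bc00017f9ec2fe24d5fc58abfb00d7f4342fe2e4) b17021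 (.nil))) (.tok (nat_lit 43) (nat_lit 0x5e0000bc0001800002ff8995fee8abffbdd80000300000) (.hit (nat_lit 58) (nat_lit 35) (nat_lit 0x5e0000bc0001800002ff8995fee8abffbdd80000300000) b17024 (.hit (nat_lit 59) (nat_lit 36) (nat_lit 0x5e0000bc00017fb572ff13b5fe6bcbfdb497f9962feda8) b17025 (.nil))) (.tok (nat_lit 46) (nat_lit 0x5e0000bc00017fdec2fe8ec5fdad4bfd9dd7f6fcafee71) (.hit (nat_lit 60) (nat_lit 37) (nat_lit 0x5e0000bc00017f2b7afd9055fb59abf83897edd12fdc9e) b17022 (.hit (nat_lit 61) (nat_lit 38) (nat_lit 0x5e0000bc00017fdec2fe8ec5fdad4bfd9dd7f6fcafee71) b17023 (.nil))) (.nil)))))) (.tok (nat_lit 9) (nat_lit 0x5e0000bc0001800003000005fe952c000017ffb22ff886) (.hit (nat_lit 0) (nat_lit 0) (nat_lit 0x5e0000bc00017fba1afe5255fdad2bfc9a97f9deafedab) b17026 (.tok (nat_lit 3) (nat_lit 0x5e0000bc00017ff662ff5ce5fe588bfee057fca7aff62d) (.hit (nat_lit 1) (nat_lit 1) (nat_lit 0x5e0000bc00017ee65afcf895f9c82bf5e817ea6e2fd376)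 b17027 (.one (nat_lit 14) (nat_lit 2) (nat_lit 4) (nat_lit 0x5e0000bc00017ff662ff5ce5fe588bfee057fca7aff62d) b17028 (.one (nat_lit 56) (nat_lit 4) (nat_lit 6) (nat_lit 0x5e0000bc00017f79f2fdfce5fc67cbfb0f97f4cdafe6b7) b17029 (.nil)))) (.tok (nat_lit 40) (nat_lit 0x5e0000bc00017faef2fe69e5fd72ebfced57f921afe93a) (.hit (nat_lit 5) (nat_lit 33) (nat_lit 0x5e0000bc00017faef2fe3795fd72ebfced57f921afe93a) b17030 (.hit (nat_lit 6) (nat_lit 34) (nat_lit 0x5e0000bc00017f9ec2fe69e5fc3ecbfb0117f4342fe2e4) b17031 (.nil))) (.tok (nat_lit 43) (nat_lit 0x5e0000bc00017fdec2fe8a85fcbc4bfbbf17f3972feaec) (.hit (nat_lit 7) (nat_lit 35) (nat_lit 0x5e0000bc00017f2b7afd9055fb59abf83897edd12fdc9e) b17022 (.hit (nat_lit 8) (nat_lit 36) (nat_lit 0x5e0000bc00017fdec2fe8a85fcbc4bfbbf17f3972feaec) b17034 (.nil))) (.tok (nat_lit 46) (nat_lit 0x5e0000bc0001800003000005fe952c000017ffb22ff886) (.hit (nat_lit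 9) (nat_lit 37) (nat_lit 0x5e0000bc0001800003000005fe952c000017ffb22ff886) b17032 (.hit (nat_lit 10) (nat_lit 38) (nat_lit 0x5e0000bc00017fb572fef0c5fd270bfdb057f95b2fed64) b17033 (.nil))) (.nil)))))) (.nil))
noncomputable def r20_154 : Rw Blk := .tok (nat_lit 3) (nat_lit 0xbc0001780002fd53e5fc740bf6fd97eaa82fd9725fbaa8bf47a17ea9f2fd012) (.hit (nat_lit 61) (nat_lit 0) (nat_lit 0xbc0001780002fd2085fa002bf31e57e6ac2fcdf75fa79abf32e17e460afcd34) b17115 (.tok (nat_lit 9) (nat_lit 0xbc0001780002fd53e5fc740bf6fd97eaa82fd9725fbaa8bf47a17ea9f2fd012) (.hit (nat_lit 62) (nat_lit 20) (nat_lit 0xbc0001780002fbbb65f9430bf09b97dde42fbfea5f8798bee1817dddb2fb68a) b17116 (.hit (nat_lit 67) (nat_lit 28) (nat_lit 0xbc0001780002fad945f77ecbed1317d6d32fb1c85f6b54bea8f97d6ca2fa868) b17121 (.tok (nat_lit 14) (nat_lit 0xbc0001780002fcdbc5fb83cbf51d17e6e72fd1f05faba4bf29997e6de2fc890) (.hit (nat_lit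 63) (nat_lit 24) (nat_lit 0xbc0001780002fbdc95f9856bf12057deedafc1fd5f8bbebee9cd7dee4afb89d) b17117 (.hit (nat_lit 68) (nat_lit 30) (nat_lit 0xbc0001780002fc1ab5fa01abf218d7e0deafc5df5f9382bef9557e0d5afbc7f) b17122 (.one (nat_lit 6) (nat_lit 64) (nat_lit 25) (nat_lit 0xbc0001780002fcdbc5fb83cbf51d17e6e72fd1f05faba4bf29997e6de2fc890) b17118 (.nil)))) (.one (nat_lit 56) (nat_lit 69) (nat_lit 31) (nat_lit 0xbc0001780002fc0125f9ce8bf1b297e0122fc4465f9050bef2f17e0092fbae6) b17123 (.tok (nat_lit 68) (nat_lit 0xbc0001780002fd53e5fc740bf6fd97eaa82fd9725fbaa8bf47a17ea9f2fd012) (.hit (nat_lit 65) (nat_lit 26) (nat_lit 0xbc0001780002fcd305fb724bf4fa17e6a12fd1645faa8cbf27697e6982fc804) b17119 (.hit (nat_lit 70) (nat_lit 32) (nat_lit 0xbc0001780002fbe925f99e8bf15297df522fc2c65f8d50beecf17df492fb966) b17124 (.one (nat_lit 9) (nat_lit 66) (nat_lit 27) (nat_lit 0xbc0001780002fd53e5fc740bf6fd97eaa82fd9725fbaa8bf47a17ea9f2fd012)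 b17120 (.nil)))) (.nil)))))) (.nil))) (.tok (nat_lit 6) (nat_lit 0xbc00017800030000060060ec00781800003000006006b0c02091800003003a7) (.hit (nat_lit 0) (nat_lit 0) (nat_lit 0xbc0001780002feaff5fa9dabf5f517eb0fafda705fcfc4bf90ad7ede32fd69a) b17095 (.tok (nat_lit 6) (nat_lit 0xbc0001780002fffbd60060ec00781800003000006006b0c02091800003003a7) (.hit (nat_lit 1) (nat_lit 7) (nat_lit 0xbc0001780002fd8875faf4cbf7c097ed112fd8ff5fae3abf3f517ea682fd0a6) b17096 (.hit (nat_lit 6) (nat_lit 15) (nat_lit 0xbc0001780002fc60a5f7316bee1897dca2afb9ec5f8a46bf119d7dfe1afb358) b17101 (.tok (nat_lit 14) (nat_lit 0xbc0001780002ff81760060ec00781800003000005ff9fabfdea97ffdfaff78b) (.hit (nat_lit 2) (nat_lit 11) (nat_lit 0xbc0001780002ff81760060ec00781800003000005ff9fabfdea97ffdfaff78b) b17097 (.hit (nat_lit 7) (nat_lit 17) (nat_lit 0xbc0001780002fe65c5fac46bf69657ede22fdc6b5fb2bebf627d7ea29afd66d) b17102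 (.one (nat_lit 9) (nat_lit 3) (nat_lit 12) (nat_lit 0xbc0001780002ff6cc5fef7cbfea197f7a5aff3ef5fe486bfb4057f952afea53) b17098 (.nil)))) (.tok (nat_lit 56) (nat_lit 0xbc0001780002fffbd5fd2f0bfb8c97f6a62fe8d46006b0c02091800003003a7) (.hit (nat_lit 4) (nat_lit 13) (nat_lit 0xbc0001780002fef995fd2f0bfb8c97f6a62fe8d45fedaabfa29d7f6222fe6ba) b17099 (.hit (nat_lit 9) (nat_lit 19) (nat_lit 0xbc0001780002fd6215f8b50bf27a57e5a6afcbf45facc4bf55f57e897afd347) b17103 (.one (nat_lit 6) (nat_lit 5) (nat_lit 14) (nat_lit 0xbc0001780002fffbd5fc7fabf9a657f32dafe6fb6006b0c02091800003003a7) b17100 (.nil)))) (.nil))))) (.tok (nat_lit 52) (nat_lit 0xbc0001780002feaaa5fc3fcbf95e17ede02fdbe95fd988bf954d7ef3bafdc37) (.hit (nat_lit 10) (nat_lit 39) (nat_lit 0xbc0001780002fdd775fc3fcbf6a417eb572fd74f5fbeb4bf8b757ef3bafdc37) b17104 (.hit (nat_lit 11) (nat_lit 40) (nat_lit 0xbc0001780002feaaa5fbdccbf95e17ede02fdbe95fd988bf954d7eea0afd696)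 b17105 (.nil))) (.tok (nat_lit 55) (nat_lit 0xbc0001780003000005ff22abfe8657f973aff3a36004ccc00c897fc0eaff470) (.hit (nat_lit 12) (nat_lit 41) (nat_lit 0xbc0001780002ff8855ff22abfe8657f730afefea5fe5aabfa9397f31c2fe3cf) b17106 (.tok (nat_lit 3) (nat_lit 0xbc0001780003000005fe7cabfdb1d7f65dafefad5fe862bfc2597fab62feb92) (.hit (nat_lit 18) (nat_lit 47) (nat_lit 0xbc0001780002fec8d5fba7cbf8c597f08aafe1115fbea4bf72957efa82fd9b6) b17112 (.one (nat_lit 67) (nat_lit 19) (nat_lit 48) (nat_lit 0xbc0001780003000005fe7cabfdb1d7f65dafefad5fe862bfc2597fab62feb92) b17113 (.nil))) (.tok (nat_lit 6) (nat_lit 0xbc0001780002ffc815fdc38bfcdfd7f973aff3a36004ccc00c897fc0eaff470) (.hit (nat_lit 13) (nat_lit 42) (nat_lit 0xbc0001780002fe0f25fb084bf64897eeb02fdea25fad8ebf66017e876afd623) b17107 (.hit (nat_lit 16) (nat_lit 45) (nat_lit 0xbc0001780002fece85fb8acbf6f597eec4afde465fdfe4bfc1657ef62afe13e)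 b17110 (.tok (nat_lit 55) (nat_lit 0xbc0001780002ffc815fdc38bfcdfd7f973aff3a36004ccc00c897fc0eaff470) (.hit (nat_lit 14) (nat_lit 43) (nat_lit 0xbc0001780002ff6bd5fd134bfc2bd7f4d52feaf65fe024bfc1ed7f4a22fe904) b17108 (.hit (nat_lit 17) (nat_lit 46) (nat_lit 0xbc0001780002ffc815fd556bfbfc17f6422fecc26004ccc00c897fc0eaff1f2) b17111 (.one (nat_lit 6) (nat_lit 15) (nat_lit 44) (nat_lit 0xbc0001780002ff76a5fdc38bfcdfd7f973aff3a35feeeabfe3a57f9032ff470) b17109 (.nil)))) (.nil)))) (.nil)))) (.one (nat_lit 58) (nat_lit 20) (nat_lit 49) (nat_lit 0xbc0001780002fecd65fc67cbf9f117efc22fdf655fde6ebfa5057f27eafdc5f) b17114 (.nil)))))) (.nil))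
noncomputable def r20_155 : Rw Blk := .tok (nat_lit 3) (nat_lit 0x2f00005e0000befc3d7e6252fcc88) (.hit (nat_lit 61) (nat_lit 0) (nat_lit 0x2f00005e0000bee7857e5352fcc88) b17145 (.tok (nat_lit 9) (nat_lit 0x2f00005e0000befc3d7e6252fc9d1) (.hit (nat_lit 62) (nat_lit 20) (nat_lit 0x2f00005e0000be7bc97d616afa9b4) b17146 (.hit (nat_lit 67) (nat_lit 28) (nat_lit 0x2f00005e0000be89857d7ce2fad23) b17151 (.tok (nat_lit 14) (nat_lit 0x2f00005e0000befc3d7e6252fc9d1) (.hit (nat_lit 63) (nat_lit 24) (nat_lit 0x2f00005e0000bed2017e0ddafbf42) b17147 (.hit (nat_lit 68) (nat_lit 30) (nat_lit 0x2f00005e0000bec5c57df562fbc33) b17152 (.one (nat_lit 6) (nat_lit 64) (nat_lit 25) (nat_lit 0x2f00005e0000befc3d7e6252fc9d1) b17148 (.nil)))) (.one (nat_lit 56) (nat_lit 69) (nat_lit 31) (nat_lit 0x2f00005e0000bee25d7e2e92fc359) b17153 (.tok (nat_lit 68) (nat_lit 0x2f00005e0000bee9157e3c02fc507) (.hit (nat_lit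 65) (nat_lit 26) (nat_lit 0x2f00005e0000bedb117e1ffafc186) b17149 (.hit (nat_lit 70) (nat_lit 32) (nat_lit 0x2f00005e0000beca497dfe6afbd54) b17154 (.one (nat_lit 9) (nat_lit 66) (nat_lit 27) (nat_lit 0x2f00005e0000bee9157e3c02fc507) b17150 (.nil)))) (.nil)))))) (.nil))) (.tok (nat_lit 6) (nat_lit 0x2f00005e0000c0000180a6030156f) (.hit (nat_lit 0) (nat_lit 0) (nat_lit 0x2f00005e0000bf1e617eb332fd15a) b17125 (.tok (nat_lit 6) (nat_lit 0x2f00005e0000bf54157ec3d2fdabf) (.hit (nat_lit 1) (nat_lit 7) (nat_lit 0x2f00005e0000beef097dec0afbab3) b17126 (.hit (nat_lit 6) (nat_lit 15) (nat_lit 0x2f00005e0000beb9a57dc6f2fb648) b17131 (.tok (nat_lit 14) (nat_lit 0x2f00005e0000bf54157ec3d2fdabf) (.hit (nat_lit 2) (nat_lit 11) (nat_lit 0x2f00005e0000bf31ed7eb582fdabf) b17127 (.hit (nat_lit 7) (nat_lit 17) (nat_lit 0x2f00005e0000bf54157ec3d2fcfcf) b17132 (.one (nat_lit 9) (nat_lit 3) (nat_lit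 12) (nat_lit 0x2f00005e0000bf2f0d7ec352fd29d) b17128 (.nil)))) (.tok (nat_lit 56) (nat_lit 0x2f00005e0000bf2fd97ec3a2fd5a8) (.hit (nat_lit 4) (nat_lit 13) (nat_lit 0x2f00005e0000bf2c857ea3b2fd1a7) b17129 (.hit (nat_lit 9) (nat_lit 19) (nat_lit 0x2f00005e0000bf2bdd7e76dafc633) b17133 (.one (nat_lit 6) (nat_lit 5) (nat_lit 14) (nat_lit 0x2f00005e0000bf2fd97ec3a2fd5a8) b17130 (.nil)))) (.nil))))) (.tok (nat_lit 52) (nat_lit 0x2f00005e0000bf46597ede2afd872) (.hit (nat_lit 10) (nat_lit 39) (nat_lit 0x2f00005e0000bf060d7ede2afd872) b17134 (.hit (nat_lit 11) (nat_lit 40) (nat_lit 0x2f00005e0000bf46597e831afcc76) b17135 (.nil))) (.tok (nat_lit 55) (nat_lit 0x2f00005e0000c0000180a6030156f) (.hit (nat_lit 12) (nat_lit 41) (nat_lit 0x2f00005e0000bf5c617f2e02fe40c) b17136 (.tok (nat_lit 3) (nat_lit 0x2f00005e0000bf70957f0242fd9d1) (.hit (nat_lit 18) (nat_lit 47) (nat_lit 0x2f00005e0000bf25a97e8ceafcf24)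 b17142 (.one (nat_lit 67) (nat_lit 19) (nat_lit 48) (nat_lit 0x2f00005e0000bf70957f0242fd9d1) b17143 (.nil))) (.tok (nat_lit 6) (nat_lit 0x2f00005e0000c0000180a6030156f) (.hit (nat_lit 13) (nat_lit 42) (nat_lit 0x2f00005e0000bf71e97f3d82fe2c0) b17137 (.hit (nat_lit 16) (nat_lit 45) (nat_lit 0x2f00005e0000bf61ed7ed312fd6b3) b17140 (.tok (nat_lit 55) (nat_lit 0x2f00005e0000c0000180a6030156f) (.hit (nat_lit 14) (nat_lit 43) (nat_lit 0x2f00005e0000bfe3c9806b9b0140c) b17138 (.hit (nat_lit 17) (nat_lit 46) (nat_lit 0x2f00005e0000bf52457f1e6afe20d) b17141 (.one (nat_lit 6) (nat_lit 15) (nat_lit 44) (nat_lit 0x2f00005e0000c0000180a6030156f) b17139 (.nil)))) (.nil)))) (.nil)))) (.one (nat_lit 58) (nat_lit 20) (nat_lit 49) (nat_lit 0x2f00005e0000bf3f917ecbb2fd68e) b17144 (.nil)))))) (.nil))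
noncomputable def r20_156 : Rw Blk := .tok (nat_lit 3) (nat_lit 0xbc0001780002fdc18) (.hit (nat_lit 61) (nat_lit 0) (nat_lit 0xbc0001780002fd8e2) b17055 (.tok (nat_lit 6) (nat_lit 0xbc0001780002fdc18) (.hit (nat_lit 62) (nat_lit 7) (nat_lit 0xbc0001780002fc290) b17056 (.hit (nat_lit 67) (nat_lit 15) (nat_lit 0xbc0001780002fb46e) b17061 (.tok (nat_lit 14) (nat_lit 0xbc0001780002fd496) (.hit (nat_lit 63) (nat_lit 11) (nat_lit 0xbc0001780002fc4a3) b17057 (.hit (nat_lit 68) (nat_lit 17) (nat_lit 0xbc0001780002fc885) b17062 (.one (nat_lit 9) (nat_lit 64) (nat_lit 12) (nat_lit 0xbc0001780002fd496) b17058 (.nil)))) (.tok (nat_lit 56) (nat_lit 0xbc0001780002fdc18) (.hit (nat_lit 65) (nat_lit 13) (nat_lit 0xbc0001780002fd40a) b17059 (.hit (nat_lit 70) (nat_lit 19) (nat_lit 0xbc0001780002fc56c) b17064 (.one (nat_lit 6) (nat_lit 66) (nat_lit 14) (nat_lit 0xbc0001780002fdc18) b17060 (.nil))))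 (.one (nat_lit 68) (nat_lit 69) (nat_lit 18) (nat_lit 0xbc0001780002fc6ec) b17063 (.nil)))))) (.nil))) (.tok (nat_lit 9) (nat_lit 0xbc0001780003006da) (.hit (nat_lit 0) (nat_lit 0) (nat_lit 0xbc0001780002ff1d9) b17035 (.tok (nat_lit 9) (nat_lit 0xbc000178000300697) (.hit (nat_lit 1) (nat_lit 20) (nat_lit 0xbc0001780002fdf61) b17036 (.hit (nat_lit 6) (nat_lit 28) (nat_lit 0xbc0001780002fcce4) b17041 (.tok (nat_lit 14) (nat_lit 0xbc0001780002ffef1) (.hit (nat_lit 2) (nat_lit 24) (nat_lit 0xbc0001780002ffef1) b17037 (.hit (nat_lit 7) (nat_lit 30) (nat_lit 0xbc0001780002fed36) b17042 (.one (nat_lit 6) (nat_lit 3) (nat_lit 25) (nat_lit 0xbc0001780002ffda6) b17038 (.nil)))) (.tok (nat_lit 68) (nat_lit 0xbc000178000300697) (.hit (nat_lit 4) (nat_lit 26) (nat_lit 0xbc0001780002ff673) b17039 (.hit (nat_lit 9) (nat_lit 32) (nat_lit 0xbc0001780002fdcfb) b17043 (.one (nat_lit 9) (nat_lit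 5) (nat_lit 27) (nat_lit 0xbc000178000300697) b17040 (.nil)))) (.nil))))) (.tok (nat_lit 64) (nat_lit 0xbc0001780002ff184) (.hit (nat_lit 10) (nat_lit 50) (nat_lit 0xbc0001780002fe451) b17044 (.hit (nat_lit 11) (nat_lit 51) (nat_lit 0xbc0001780002ff184) b17045 (.nil))) (.tok (nat_lit 67) (nat_lit 0xbc0001780003006da) (.hit (nat_lit 12) (nat_lit 52) (nat_lit 0xbc0001780002fff5f) b17046 (.tok (nat_lit 3) (nat_lit 0xbc0001780003006da) (.hit (nat_lit 18) (nat_lit 58) (nat_lit 0xbc0001780002ff367) b17052 (.one (nat_lit 55) (nat_lit 19) (nat_lit 59) (nat_lit 0xbc0001780003006da) b17053 (.nil))) (.tok (nat_lit 9) (nat_lit 0xbc00017800030035b) (.hit (nat_lit 13) (nat_lit 53) (nat_lit 0xbc0001780002fe7cc) b17047 (.hit (nat_lit 16) (nat_lit 56) (nat_lit 0xbc0001780002ff3c2) b17050 (.tok (nat_lit 67) (nat_lit 0xbc00017800030035b) (.hit (nat_lit 14) (nat_lit 54) (nat_lit 0xbc0001780002ffd97)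 b17048 (.hit (nat_lit 17) (nat_lit 57) (nat_lit 0xbc00017800030035b) b17051 (.one (nat_lit 9) (nat_lit 15) (nat_lit 55) (nat_lit 0xbc0001780002ffe44) b17049 (.nil)))) (.nil)))) (.nil)))) (.one (nat_lit 70) (nat_lit 20) (nat_lit 60) (nat_lit 0xbc0001780002ff3b0) b17054 (.nil)))))) (.nil))
noncomputable def r20_157 : Rw Blk := .tok (nat_lit 3) (nat_lit 0x5e0000bc00017df87afdd615fbdb4bf41257e91fafda9e) (.hit (nat_lit 61) (nat_lit 0) (nat_lit 0x5e0000bc00017dcf0afd8fe5fad12bf2d597e683afd115) b17085 (.tok (nat_lit 6) (nat_lit 0x5e0000bc00017df87afdd615fbdb4bf41257e91fafda9e) (.hit (nat_lit 62) (nat_lit 7) (nat_lit 0x5e0000bc00017cf792fbd445f7d7abec0b17d9112fba81) b17086 (.hit (nat_lit 67) (nat_lit 15) (nat_lit 0x5e0000bc00017d130afc0b35f8458bece6d7dac8afbdf0) b17091 (.tok (nat_lit 14) (nat_lit 0x5e0000bc00017df87afdd615fbdb4bf41257e91fafda9e) (.hit (nat_lit 63) (nat_lit 11) (nat_lit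 0x5e0000bc00017da402fd2d25fa896bf16e97e3d82fd00f) b17087 (.hit (nat_lit 68) (nat_lit 17) (nat_lit 0x5e0000bc00017d8b8afcfc35fa278bf0aad7e250afcd00) b17092 (.one (nat_lit 9) (nat_lit 64) (nat_lit 12) (nat_lit 0x5e0000bc00017df87afdd615fbdb4bf41257e91fafda9e) b17088 (.nil)))) (.tok (nat_lit 56) (nat_lit 0x5e0000bc00017dd22afd8975fb420bf2dfd7e6baafd5d4) (.hit (nat_lit 65) (nat_lit 13) (nat_lit 0x5e0000bc00017db622fd5165fad1ebf1ff97e4fa2fd253) b17089 (.hit (nat_lit 70) (nat_lit 19) (nat_lit 0x5e0000bc00017d9492fd0e45fa4babf0f317e2e12fce21) b17094 (.one (nat_lit 6) (nat_lit 66) (nat_lit 14) (nat_lit 0x5e0000bc00017dd22afd8975fb420bf2dfd7e6baafd5d4) b17090 (.nil)))) (.one (nat_lit 68) (nat_lit 69) (nat_lit 18) (nat_lit 0x5e0000bc00017dc4bafd6e95fb0c4bf27457e5e3afd426) b17093 (.nil)))))) (.nil))) (.tok (nat_lit 9) (nat_lit 0x5e0000bc000180000301656602c68c047e980afdb0146a) (.hit (nat_lit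 0) (nat_lit 0) (nat_lit 0x5e0000bc00017e3cc2fe25f5fdda8bf7acd7f0fdafdefe) b17065 (.tok (nat_lit 9) (nat_lit 0x5e0000bc00017ea82afecdc5fd74ebfa3d97f478afe82d) (.hit (nat_lit 1) (nat_lit 20) (nat_lit 0x5e0000bc00017dde12fcc9f5f9716befde97e11dafc956) b17066 (.hit (nat_lit 6) (nat_lit 28) (nat_lit 0x5e0000bc00017d734afc9215f8f66beda317de3e2fbdf0) b17071 (.tok (nat_lit 14) (nat_lit 0x5e0000bc00017ea82afecdc5fd74ebfa3d97f478afe82d) (.hit (nat_lit 2) (nat_lit 24) (nat_lit 0x5e0000bc00017e63dafe32f5fc786bf85197f189afe3de) b17067 (.hit (nat_lit 7) (nat_lit 30) (nat_lit 0x5e0000bc00017ea82afe9b55fcd20bf5e997ee2eafd6ba) b17072 (.one (nat_lit 6) (nat_lit 3) (nat_lit 25) (nat_lit 0x5e0000bc00017e5e1afecdc5fd74ebfa3d97f478afe82d) b17068 (.nil)))) (.tok (nat_lit 68) (nat_lit 0x5e0000bc00017e5fb2feb165fc8f0bf56997ed96afde9a) (.hit (nat_lit 4) (nat_lit 26) (nat_lit 0x5e0000bc00017e590afe0f35fc538bf4c157ebd8afdd5a)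 b17069 (.hit (nat_lit 9) (nat_lit 32) (nat_lit 0x5e0000bc00017e57bafdcba5fb966bf384d7e9572fcd1b) b17073 (.one (nat_lit 9) (nat_lit 5) (nat_lit 27) (nat_lit 0x5e0000bc00017e5fb2feb165fc8f0bf56997ed96afde9a) b17070 (.nil)))) (.nil))))) (.tok (nat_lit 64) (nat_lit 0x5e0000bc00017e8cb2ffc405fdb7ebf7ed57f02cafde16) (.hit (nat_lit 10) (nat_lit 50) (nat_lit 0x5e0000bc00017e0c1affc405fdb7ebf7ed57f02cafde16) b17074 (.hit (nat_lit 11) (nat_lit 51) (nat_lit 0x5e0000bc00017e8cb2fdedf5fc4f2bf4f2d7ec90afdc1c) b17075 (.nil))) (.tok (nat_lit 67) (nat_lit 0x5e0000bc000180000301656602c68c047e980afdb0146a) (.hit (nat_lit 12) (nat_lit 52) (nat_lit 0x5e0000bc00017eb8c2ffa415ff146bfc1697f6d8aff389) b17076 (.tok (nat_lit 3) (nat_lit 0x5e0000bc00017ee12aff5475ff196bfdafd7fb082ffa9b) (.hit (nat_lit 18) (nat_lit 58) (nat_lit 0x5e0000bc00017e4b52fe8d05fcdccbf736d7efc52fe801) b17082 (.one (nat_lit 55) (nat_lit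 19) (nat_lit 59) (nat_lit 0x5e0000bc00017ee12aff5475ff196bfdafd7fb082ffa9b) b17083 (.nil))) (.tok (nat_lit 9) (nat_lit 0x5e0000bc000180000301656602c68c047e980afdb0146a) (.hit (nat_lit 13) (nat_lit 53) (nat_lit 0x5e0000bc00017ee3d2ffb465ff28abfd08d7f7f62ff17b) b17077 (.hit (nat_lit 16) (nat_lit 56) (nat_lit 0x5e0000bc00017ec3dafeabd5fd3cebf682d7f0132fdfa2) b17080 (.tok (nat_lit 67) (nat_lit 0x5e0000bc000180000301656602c68c047e980afdb0146a) (.hit (nat_lit 14) (nat_lit 54) (nat_lit 0x5e0000bc00017fc79301656602c68c047e98067e30146a) b17078 (.hit (nat_lit 17) (nat_lit 57) (nat_lit 0x5e0000bc00017ea48aff40d5fe2aebf915d7f2fe2fe9f2) b17081 (.one (nat_lit 9) (nat_lit 15) (nat_lit 55) (nat_lit 0x5e0000bc000180000300e17601c00c0256580afdb01014) b17079 (.nil)))) (.nil)))) (.nil)))) (.one (nat_lit 70) (nat_lit 20) (nat_lit 60) (nat_lit 0x5e0000bc00017e7f22ff5365fde96bf7bad7f27e2fe09a) b17084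 (.nil)))))) (.nil))
noncomputable def r20_158 : Rw Blk := .tok (nat_lit 3) (nat_lit 0xbf6f257e3482fdfc05fc51ebf74d57ef7c2fe06c5fb222bf699d7f0acafe247) (.hit (nat_lit 0) (nat_lit 0) (nat_lit 0xbf6f257e3482fdfc05fc51ebf74d57ef7c2fe06c5fb222bf699d7f0acafe247) b35997 (.tok (nat_lit 6) (nat_lit 0xbf3a757d7a6afdd295fa33cbf39017df9cafbb1b5f8adabf1c457e37cafcabb) (.hit (nat_lit 1) (nat_lit 7) (nat_lit 0xbf3a757d7a6afdd295fa33cbf39017df9cafbb1b5f8adabf1c457e37cafcabb) b17209 (.hit (nat_lit 6) (nat_lit 15) (nat_lit 0xbf30b97d66f2fd5255f9e5ebf2f457de652fb8ac5f85fcbf12897e2452fc84c) b17210 (.nil))) (.tok (nat_lit 9) (nat_lit 0xbf3a757d7a6afdd295fa33cbf39017df9cafbb1b5f8adabf1c457e37cafcabb) (.hit (nat_lit 10) (nat_lit 20) (nat_lit 0xbf3a757d7a6afdd295fa33cbf39017df9cafbb1b5f8adabf1c457e37cafcabb) b17209 (.hit (nat_lit 15) (nat_lit 28) (nat_lit 0xbf30b97d66f2fd5255f9e5ebf2f457de652fb8ac5f85fcbf12897e2452fc84c)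 b17210 (.nil))) (.nil)))) (.tok (nat_lit 6) (nat_lit 0xc0000180000300000600000c0000180952b01067600000c0000180000300000) (.hit (nat_lit 81) (nat_lit 0) (nat_lit 0xbfc8317eef52feb305fe670bfb6117f5d8afedb35fdb04bfc4017f768afefb0) b17216 (.tok (nat_lit 3) (nat_lit 0xbfc8697ea3a2ff1455fe7c6bfbaad7f9acaff5b45fe232bfc9b97faccaff686) (.hit (nat_lit 82) (nat_lit 1) (nat_lit 0xbf5c257dd03afdbb25fb0d2bf4cc57effdafd8d85fab3cbf5bd17ed0f2fdb0c) b17217 (.one (nat_lit 67) (nat_lit 83) (nat_lit 2) (nat_lit 0xbfc8697ea3a2ff1455fe7c6bfbaad7f9acaff5b45fe232bfc9b97faccaff686) b17218 (.nil))) (.tok (nat_lit 6) (nat_lit 0xc0000180000300000600000c0000180952b01067600000c0000180000300000) (.hit (nat_lit 87) (nat_lit 7) (nat_lit 0xbfabf97ec222fe8e95fcc4cbf8e917fbce2ff3ce5fcab8bf9c557f579afeb79) b17219 (.hit (nat_lit 95) (nat_lit 15) (nat_lit 0xbf64fd7dcd0afd3dd5fb414bf53497f0cfafde7f5fae7ebf62557eddfafdcad)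 b17223 (.tok (nat_lit 55) (nat_lit 0xc0000180000300000600000c0000180952b01067600000c0000180000300000) (.hit (nat_lit 88) (nat_lit 8) (nat_lit 0xbffb117f3fa2ff0ef5ffac8c0000180298300854600000c00001800002ffa6e) b17220 (.hit (nat_lit 96) (nat_lit 16) (nat_lit 0xbfc75d7eb112fef375feb7ebfc2257fbd92ff9775fe5e8bfd1297fbba2ff862) b17224 (.tok (nat_lit 6) (nat_lit 0xc0000180000300000600000bff2c980952b010675ff5f6bff1497ff33b00000) (.hit (nat_lit 89) (nat_lit 9) (nat_lit 0xbfd0257f7e3aff2525fead2bfc11d802a1b003ef5fe60cbfcfe17fbb72ff84a) b17221 (.one (nat_lit 55) (nat_lit 90) (nat_lit 10) (nat_lit 0xc0000180000300000600000bff2c980952b010675ff5f6bff1497ff33b00000) b17222 (.nil))) (.nil)))) (.nil)))) (.nil)))) (.tok (nat_lit 9) (nat_lit 0xbfc8697eef52ff1455ff8e0bfdce17f2642fe2785fed14bfdf817fa4faff5e9) (.hit (nat_lit 157) (nat_lit 0) (nat_lit 0xbfc8317eef52feb305ff8e0bfdce17f2642fe2785fed14bfdf817fa4faff5e9)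 b17211 (.tok (nat_lit 3) (nat_lit 0xbfc8697ea3a2ff1455ff574bfcfc97e7eeafcbbf5fe118bfc7a57f9a42ff55b) (.hit (nat_lit 158) (nat_lit 1) (nat_lit 0xbf5c257dd03afdbb25fc55cbf758d7db97afb3115fb962bf782d7f0022fe0f3) b17212 (.one (nat_lit 55) (nat_lit 159) (nat_lit 3) (nat_lit 0xbfc8697ea3a2ff1455ff574bfcfc97e7eeafcbbf5fe118bfc7a57f9a42ff55b) b17213 (.nil))) (.tok (nat_lit 9) (nat_lit 0xbfabf97ec222fe8e95fe0e8bfacf17e535afc64d5fd526bfaf917f82aaff572) (.hit (nat_lit 163) (nat_lit 20) (nat_lit 0xbfabf97ec222fe8e95fe0e8bfacf17e535afc64d5fd526bfaf917f82aaff572) b17214 (.hit (nat_lit 171) (nat_lit 28) (nat_lit 0xbf64fd7dcd0afd3dd5fc8b2bf7c117d75bafaa995fbcacbf7eb17f0d32fe294) b17215 (.nil))) (.nil)))) (.nil)))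
noncomputable def r20_159 : Rw Blk := .tok (nat_lit 6) (nat_lit 0xbc0001780002ffecc) (.hit (nat_lit 51) (nat_lit 0) (nat_lit 0xbc0001780002ff743) b8943 (.tok (nat_lit 3) (nat_lit 0xbc0001780002ffecc) (.hit (nat_lit 52) (nat_lit 1) (nat_lit 0xbc0001780002fdccb) b8944 (.one (nat_lit 14) (nat_lit 53) (nat_lit 4) (nat_lit 0xbc0001780002ffecc) b9239 (.one (nat_lit 56) (nat_lit 55) (nat_lit 6) (nat_lit 0xbc0001780002ff720) b8945 (.one (nat_lit 68) (nat_lit 54) (nat_lit 5) (nat_lit 0xbc0001780002fef3e) b8946 (.nil))))) (.nil))) (.tok (nat_lit 9) (nat_lit 0xbc000178000300000) (.hit (nat_lit 0) (nat_lit 0) (nat_lit 0xbc0001780002ff743) b8943 (.tok (nat_lit 3) (nat_lit 0xbc0001780002ffecc) (.hit (nat_lit 1) (nat_lit 1) (nat_lit 0xbc0001780002fdccb) b8944 (.one (nat_lit 14) (nat_lit 2) (nat_lit 4) (nat_lit 0xbc0001780002ffecc) b9239 (.one (nat_lit 56) (nat_lit 4) (nat_lit 6) (nat_lit 0xbc0001780002fef3e)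 b8946 (.one (nat_lit 68) (nat_lit 3) (nat_lit 5) (nat_lit 0xbc0001780002ff720) b8945 (.nil))))) (.tok (nat_lit 40) (nat_lit 0xbc0001780002ff5de) (.hit (nat_lit 5) (nat_lit 33) (nat_lit 0xbc0001780002ff5de) b8947 (.hit (nat_lit 6) (nat_lit 34) (nat_lit 0xbc0001780002ff3d8) b8948 (.nil))) (.tok (nat_lit 43) (nat_lit 0xbc0001780002ffbd8) (.hit (nat_lit 7) (nat_lit 35) (nat_lit 0xbc0001780002fe56f) b8949 (.hit (nat_lit 8) (nat_lit 36) (nat_lit 0xbc0001780002ffbd8) b8950 (.nil))) (.tok (nat_lit 46) (nat_lit 0xbc000178000300000) (.hit (nat_lit 9) (nat_lit 37) (nat_lit 0xbc000178000300000) b8951 (.hit (nat_lit 10) (nat_lit 38) (nat_lit 0xbc0001780002ff6ae) b8952 (.nil))) (.nil)))))) (.nil))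
noncomputable def r20_160 : Rw Blk := .tok (nat_lit 3) (nat_lit 0xbc0001780002fddcf) (.hit (nat_lit 61) (nat_lit 0) (nat_lit 0xbc0001780002fd208) b9255 (.tok (nat_lit 9) (nat_lit 0xbc0001780002fcdbc) (.hit (nat_lit 62) (nat_lit 20) (nat_lit 0xbc0001780002fbbb6) b9256 (.hit (nat_lit 67) (nat_lit 28) (nat_lit 0xbc0001780002fad94) b9261 (.tok (nat_lit 14) (nat_lit 0xbc0001780002fcdbc) (.hit (nat_lit 63) (nat_lit 24) (nat_lit 0xbc0001780002fbdc9) b9257 (.hit (nat_lit 68) (nat_lit 30) (nat_lit 0xbc0001780002fc1ab) b9262 (.one (nat_lit 6) (nat_lit 64) (nat_lit 25) (nat_lit 0xbc0001780002fcdbc) b9258 (.nil)))) (.one (nat_lit 56) (nat_lit 69) (nat_lit 31) (nat_lit 0xbc0001780002fc012) b9263 (.nil))))) (.tok (nat_lit 64) (nat_lit 0xbc0001780002fc6cc) (.hit (nat_lit 71) (nat_lit 50) (nat_lit 0xbc0001780002fbf49) b9265 (.hit (nat_lit 72) (nat_lit 51) (nat_lit 0xbc0001780002fc6cc) b9266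 (.nil))) (.tok (nat_lit 67) (nat_lit 0xbc0001780002fddcf) (.hit (nat_lit 73) (nat_lit 52) (nat_lit 0xbc0001780002fdd53) b9267 (.tok (nat_lit 3) (nat_lit 0xbc0001780002fddcf) (.hit (nat_lit 79) (nat_lit 58) (nat_lit 0xbc0001780002fd372) b9273 (.one (nat_lit 55) (nat_lit 80) (nat_lit 59) (nat_lit 0xbc0001780002fddcf) b9274 (.nil))) (.tok (nat_lit 9) (nat_lit 0xbc0001780002fcbbd) (.hit (nat_lit 74) (nat_lit 53) (nat_lit 0xbc0001780002fc8b0) b9268 (.hit (nat_lit 77) (nat_lit 56) (nat_lit 0xbc0001780002fcbbd) b9271 (.nil))) (.nil)))) (.one (nat_lit 70) (nat_lit 81) (nat_lit 60) (nat_lit 0xbc0001780002fc77b) b9275 (.nil)))))) (.tok (nat_lit 6) (nat_lit 0xbc000178000300000) (.hit (nat_lit 0) (nat_lit 0) (nat_lit 0xbc0001780002feaff) b9240 (.tok (nat_lit 6) (nat_lit 0xbc0001780002fffbd) (.hit (nat_lit 1) (nat_lit 7) (nat_lit 0xbc0001780002fd887) b9241 (.hit (nat_lit 6) (nat_lit 15) (nat_lit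 0xbc0001780002fc60a) b9244 (.tok (nat_lit 14) (nat_lit 0xbc0001780002ff817) (.hit (nat_lit 2) (nat_lit 11) (nat_lit 0xbc0001780002ff817) b9242 (.hit (nat_lit 7) (nat_lit 17) (nat_lit 0xbc0001780002fe65c) b9245 (.one (nat_lit 9) (nat_lit 3) (nat_lit 12) (nat_lit 0xbc0001780002ff6cc) b9243 (.nil)))) (.tok (nat_lit 56) (nat_lit 0xbc0001780002fffbd) (.hit (nat_lit 4) (nat_lit 13) (nat_lit 0xbc0001780002fef99) b9609 (.hit (nat_lit 9) (nat_lit 19) (nat_lit 0xbc0001780002fd621) b9611 (.one (nat_lit 6) (nat_lit 5) (nat_lit 14) (nat_lit 0xbc0001780002fffbd) b9610 (.nil)))) (.one (nat_lit 68) (nat_lit 8) (nat_lit 18) (nat_lit 0xbc0001780002fdb1d) b9246 (.nil)))))) (.tok (nat_lit 52) (nat_lit 0xbc0001780002feaaa) (.hit (nat_lit 10) (nat_lit 39) (nat_lit 0xbc0001780002fdd77) b9247 (.hit (nat_lit 11) (nat_lit 40) (nat_lit 0xbc0001780002feaaa) b9248 (.nil))) (.tok (nat_lit 55) (nat_lit 0xbc000178000300000)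 (.hit (nat_lit 12) (nat_lit 41) (nat_lit 0xbc0001780002ff885) b9249 (.tok (nat_lit 3) (nat_lit 0xbc000178000300000) (.hit (nat_lit 18) (nat_lit 47) (nat_lit 0xbc0001780002fec8d) b9252 (.one (nat_lit 67) (nat_lit 19) (nat_lit 48) (nat_lit 0xbc000178000300000) b9253 (.nil))) (.tok (nat_lit 6) (nat_lit 0xbc0001780002ffc81) (.hit (nat_lit 13) (nat_lit 42) (nat_lit 0xbc0001780002fe0f2) b9250 (.hit (nat_lit 16) (nat_lit 45) (nat_lit 0xbc0001780002fece8) b9251 (.tok (nat_lit 55) (nat_lit 0xbc0001780002ffc81) (.hit (nat_lit 14) (nat_lit 43) (nat_lit 0xbc0001780002ff6bd) b9612 (.hit (nat_lit 17) (nat_lit 46) (nat_lit 0xbc0001780002ffc81) b9614 (.one (nat_lit 6) (nat_lit 15) (nat_lit 44) (nat_lit 0xbc0001780002ff76a) b9613 (.nil)))) (.nil)))) (.nil)))) (.one (nat_lit 58) (nat_lit 20) (nat_lit 49) (nat_lit 0xbc0001780002fecd6) b9254 (.nil)))))) (.nil))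
noncomputable def r20_161 : Rw Blk := .tok (nat_lit 3) (nat_lit 0xbc0001780002fdda5) (.hit (nat_lit 61) (nat_lit 0) (nat_lit 0xbc0001780002fc94b) b17276 (.tok (nat_lit 9) (nat_lit 0xbc0001780002fce79) (.hit (nat_lit 62) (nat_lit 20) (nat_lit 0xbc0001780002fae5c) b17277 (.hit (nat_lit 67) (nat_lit 28) (nat_lit 0xbc0001780002fb1cb) b17280 (.tok (nat_lit 14) (nat_lit 0xbc0001780002fce79) (.hit (nat_lit 63) (nat_lit 24) (nat_lit 0xbc0001780002fc3ea) b17278 (.hit (nat_lit 68) (nat_lit 30) (nat_lit 0xbc0001780002fc0db) b17281 (.one (nat_lit 6) (nat_lit 64) (nat_lit 25) (nat_lit 0xbc0001780002fce79) b17279 (.nil)))) (.one (nat_lit 56) (nat_lit 69) (nat_lit 31) (nat_lit 0xbc0001780002fc801) b17282 (.nil))))) (.tok (nat_lit 64) (nat_lit 0xbc0001780002fcc1a) (.hit (nat_lit 71) (nat_lit 50) (nat_lit 0xbc0001780002fc4e4) b17283 (.hit (nat_lit 72) (nat_lit 51) (nat_lit 0xbc0001780002fcc1a)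 b17284 (.nil))) (.tok (nat_lit 67) (nat_lit 0xbc0001780002fdda5) (.hit (nat_lit 73) (nat_lit 52) (nat_lit 0xbc0001780002fdbb6) b17285 (.tok (nat_lit 3) (nat_lit 0xbc0001780002fdbfd) (.hit (nat_lit 79) (nat_lit 58) (nat_lit 0xbc0001780002fd44b) b17288 (.one (nat_lit 55) (nat_lit 80) (nat_lit 59) (nat_lit 0xbc0001780002fdbfd) b17289 (.nil))) (.tok (nat_lit 9) (nat_lit 0xbc0001780002fdda5) (.hit (nat_lit 74) (nat_lit 53) (nat_lit 0xbc0001780002fdda5) b17286 (.hit (nat_lit 77) (nat_lit 56) (nat_lit 0xbc0001780002fcb06) b17287 (.nil))) (.nil)))) (.one (nat_lit 70) (nat_lit 81) (nat_lit 60) (nat_lit 0xbc0001780002fcbaa) b17290 (.nil)))))) (.tok (nat_lit 6) (nat_lit 0xbc000178000300f6a) (.hit (nat_lit 0) (nat_lit 0) (nat_lit 0xbc0001780002fd702) b17255 (.tok (nat_lit 6) (nat_lit 0xbc0001780002fe46f) (.hit (nat_lit 1) (nat_lit 7) (nat_lit 0xbc0001780002fcb2c) b17256 (.hit (nat_lit 6)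 (nat_lit 15) (nat_lit 0xbc0001780002fbdd3) b17261 (.tok (nat_lit 14) (nat_lit 0xbc0001780002fe46f) (.hit (nat_lit 2) (nat_lit 11) (nat_lit 0xbc0001780002fdbe5) b17257 (.hit (nat_lit 7) (nat_lit 17) (nat_lit 0xbc0001780002fe46f) b17262 (.one (nat_lit 9) (nat_lit 3) (nat_lit 12) (nat_lit 0xbc0001780002fdb2d) b17258 (.nil)))) (.tok (nat_lit 56) (nat_lit 0xbc0001780002fdb60) (.hit (nat_lit 4) (nat_lit 13) (nat_lit 0xbc0001780002fda8b) b17259 (.hit (nat_lit 9) (nat_lit 19) (nat_lit 0xbc0001780002fda61) b17264 (.one (nat_lit 6) (nat_lit 5) (nat_lit 14) (nat_lit 0xbc0001780002fdb60) b17260 (.nil)))) (.one (nat_lit 68) (nat_lit 8) (nat_lit 18) (nat_lit 0xbc0001780002fdabd) b17263 (.nil)))))) (.tok (nat_lit 52) (nat_lit 0xbc0001780002fe100) (.hit (nat_lit 10) (nat_lit 39) (nat_lit 0xbc0001780002fd0ed) b17265 (.hit (nat_lit 11) (nat_lit 40) (nat_lit 0xbc0001780002fe100) b17266 (.nil)))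 (.tok (nat_lit 55) (nat_lit 0xbc000178000300f6a) (.hit (nat_lit 12) (nat_lit 41) (nat_lit 0xbc0001780002fe682) b17267 (.tok (nat_lit 3) (nat_lit 0xbc0001780002feb8f) (.hit (nat_lit 18) (nat_lit 47) (nat_lit 0xbc0001780002fd8d4) b17273 (.one (nat_lit 67) (nat_lit 19) (nat_lit 48) (nat_lit 0xbc0001780002feb8f) b17274 (.nil))) (.tok (nat_lit 6) (nat_lit 0xbc000178000300f6a) (.hit (nat_lit 13) (nat_lit 42) (nat_lit 0xbc0001780002febe4) b17268 (.hit (nat_lit 16) (nat_lit 45) (nat_lit 0xbc0001780002fe7e5) b17271 (.tok (nat_lit 55) (nat_lit 0xbc000178000300f6a) (.hit (nat_lit 14) (nat_lit 43) (nat_lit 0xbc00017800030085c) b17269 (.hit (nat_lit 17) (nat_lit 46) (nat_lit 0xbc0001780002fe3fb) b17272 (.one (nat_lit 6) (nat_lit 15) (nat_lit 44) (nat_lit 0xbc000178000300f6a) b17270 (.nil)))) (.nil)))) (.nil)))) (.one (nat_lit 58) (nat_lit 20) (nat_lit 49) (nat_lit 0xbc0001780002fdf4e) b17275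 (.nil)))))) (.nil))
noncomputable def r20_162 : Rw Blk := .tok (nat_lit 3) (nat_lit 0xbc0001780002fe71c) (.hit (nat_lit 61) (nat_lit 0) (nat_lit 0xbc0001780002fdb55) b17235 (.tok (nat_lit 6) (nat_lit 0xbc0001780002fde8b) (.hit (nat_lit 62) (nat_lit 7) (nat_lit 0xbc0001780002fc503) b17236 (.hit (nat_lit 67) (nat_lit 15) (nat_lit 0xbc0001780002fb6e1) b17241 (.tok (nat_lit 14) (nat_lit 0xbc0001780002fd709) (.hit (nat_lit 63) (nat_lit 11) (nat_lit 0xbc0001780002fc716) b17237 (.hit (nat_lit 68) (nat_lit 17) (nat_lit 0xbc0001780002fcaf8) b17242 (.one (nat_lit 9) (nat_lit 64) (nat_lit 12) (nat_lit 0xbc0001780002fd709) b17238 (.nil)))) (.tok (nat_lit 56) (nat_lit 0xbc0001780002fde8b) (.hit (nat_lit 65) (nat_lit 13) (nat_lit 0xbc0001780002fd67d) b17239 (.hit (nat_lit 70) (nat_lit 19) (nat_lit 0xbc0001780002fc7df) b17243 (.one (nat_lit 6) (nat_lit 66) (nat_lit 14) (nat_lit 0xbc0001780002fde8b)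 b17240 (.nil)))) (.nil))))) (.tok (nat_lit 52) (nat_lit 0xbc0001780002fd019) (.hit (nat_lit 71) (nat_lit 39) (nat_lit 0xbc0001780002fc896) b17244 (.hit (nat_lit 72) (nat_lit 40) (nat_lit 0xbc0001780002fd019) b17245 (.nil))) (.tok (nat_lit 55) (nat_lit 0xbc0001780002fe71c) (.hit (nat_lit 73) (nat_lit 41) (nat_lit 0xbc0001780002fe6a0) b17246 (.tok (nat_lit 3) (nat_lit 0xbc0001780002fe71c) (.hit (nat_lit 79) (nat_lit 47) (nat_lit 0xbc0001780002fdcbf) b17252 (.one (nat_lit 67) (nat_lit 80) (nat_lit 48) (nat_lit 0xbc0001780002fe71c) b17253 (.nil))) (.tok (nat_lit 6) (nat_lit 0xbc0001780002fe1d3) (.hit (nat_lit 74) (nat_lit 42) (nat_lit 0xbc0001780002fd1fd) b17247 (.hit (nat_lit 77) (nat_lit 45) (nat_lit 0xbc0001780002fd50a) b17250 (.tok (nat_lit 55) (nat_lit 0xbc0001780002fe1d3) (.hit (nat_lit 75) (nat_lit 43) (nat_lit 0xbc0001780002fe113) b17248 (.hit (nat_lit 78) (nat_lit 46) (nat_lit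 0xbc0001780002fe1d3) b17251 (.one (nat_lit 6) (nat_lit 76) (nat_lit 44) (nat_lit 0xbc0001780002fdcd7) b17249 (.nil)))) (.nil)))) (.nil)))) (.one (nat_lit 58) (nat_lit 81) (nat_lit 49) (nat_lit 0xbc0001780002fd0c8) b17254 (.nil)))))) (.tok (nat_lit 9) (nat_lit 0xbc00017800030090a) (.hit (nat_lit 0) (nat_lit 0) (nat_lit 0xbc0001780002ff44c) b17225 (.tok (nat_lit 9) (nat_lit 0xbc00017800030090a) (.hit (nat_lit 1) (nat_lit 20) (nat_lit 0xbc0001780002fe1d4) b17226 (.hit (nat_lit 6) (nat_lit 28) (nat_lit 0xbc0001780002fcf57) b17231 (.tok (nat_lit 14) (nat_lit 0xbc000178000300164) (.hit (nat_lit 2) (nat_lit 24) (nat_lit 0xbc000178000300164) b17227 (.hit (nat_lit 7) (nat_lit 30) (nat_lit 0xbc0001780002fefa9) b17232 (.one (nat_lit 6) (nat_lit 3) (nat_lit 25) (nat_lit 0xbc000178000300019) b17228 (.nil)))) (.one (nat_lit 56) (nat_lit 8) (nat_lit 31) (nat_lit 0xbc0001780002fe46a) b17233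 (.tok (nat_lit 68) (nat_lit 0xbc00017800030090a) (.hit (nat_lit 4) (nat_lit 26) (nat_lit 0xbc0001780002ff8e6) b17229 (.hit (nat_lit 9) (nat_lit 32) (nat_lit 0xbc0001780002fdf6e) b17234 (.one (nat_lit 9) (nat_lit 5) (nat_lit 27) (nat_lit 0xbc00017800030090a) b17230 (.nil)))) (.nil)))))) (.nil))) (.nil))
noncomputable def r20_163 : Rw Blk := .tok (nat_lit 3) (nat_lit 0xbc000178000300000) (.hit (nat_lit 61) (nat_lit 0) (nat_lit 0xbc0001780002fe458) b9679 (.tok (nat_lit 6) (nat_lit 0xbc0001780002fe986) (.hit (nat_lit 62) (nat_lit 7) (nat_lit 0xbc0001780002fc969) b9680 (.hit (nat_lit 67) (nat_lit 15) (nat_lit 0xbc0001780002fccd8) b9685 (.tok (nat_lit 14) (nat_lit 0xbc0001780002fe986) (.hit (nat_lit 63) (nat_lit 11) (nat_lit 0xbc0001780002fdef7) b9681 (.hit (nat_lit 68) (nat_lit 17) (nat_lit 0xbc0001780002fdbe8) b9686 (.one (nat_lit 9) (nat_lit 64) (nat_lit 12) (nat_lit 0xbc0001780002fe986)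 b9682 (.nil)))) (.tok (nat_lit 56) (nat_lit 0xbc0001780002fe4bc) (.hit (nat_lit 65) (nat_lit 13) (nat_lit 0xbc0001780002fe13b) b9683 (.hit (nat_lit 70) (nat_lit 19) (nat_lit 0xbc0001780002fdd09) b9687 (.one (nat_lit 6) (nat_lit 66) (nat_lit 14) (nat_lit 0xbc0001780002fe4bc) b9684 (.nil)))) (.nil))))) (.tok (nat_lit 52) (nat_lit 0xbc0001780002fe727) (.hit (nat_lit 71) (nat_lit 39) (nat_lit 0xbc0001780002fdff1) b9688 (.hit (nat_lit 72) (nat_lit 40) (nat_lit 0xbc0001780002fe727) b9689 (.nil))) (.tok (nat_lit 55) (nat_lit 0xbc000178000300000) (.hit (nat_lit 73) (nat_lit 41) (nat_lit 0xbc0001780002ff6c3) b9690 (.tok (nat_lit 3) (nat_lit 0xbc0001780002ff70a) (.hit (nat_lit 79) (nat_lit 47) (nat_lit 0xbc0001780002fef58) b9696 (.one (nat_lit 67) (nat_lit 80) (nat_lit 48) (nat_lit 0xbc0001780002ff70a) b9697 (.nil))) (.tok (nat_lit 6) (nat_lit 0xbc000178000300000) (.hit (nat_lit 74) (nat_lit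 42) (nat_lit 0xbc0001780002ff8b2) b9691 (.hit (nat_lit 77) (nat_lit 45) (nat_lit 0xbc0001780002fe613) b9694 (.tok (nat_lit 55) (nat_lit 0xbc000178000300000) (.hit (nat_lit 75) (nat_lit 43) (nat_lit 0xbc000178000300000) b9692 (.hit (nat_lit 78) (nat_lit 46) (nat_lit 0xbc0001780002ff758) b9695 (.one (nat_lit 6) (nat_lit 76) (nat_lit 44) (nat_lit 0xbc0001780002ff868) b9693 (.nil)))) (.nil)))) (.nil)))) (.one (nat_lit 58) (nat_lit 81) (nat_lit 49) (nat_lit 0xbc0001780002fe6b7) b9698 (.nil)))))) (.tok (nat_lit 9) (nat_lit 0xbc0001780002fff7c) (.hit (nat_lit 0) (nat_lit 0) (nat_lit 0xbc0001780002ff20f) b9669 (.tok (nat_lit 9) (nat_lit 0xbc0001780002fff7c) (.hit (nat_lit 1) (nat_lit 20) (nat_lit 0xbc0001780002fe639) b9670 (.hit (nat_lit 6) (nat_lit 28) (nat_lit 0xbc0001780002fd8e0) b9675 (.tok (nat_lit 14) (nat_lit 0xbc0001780002fff7c) (.hit (nat_lit 2) (nat_lit 24) (nat_lit 0xbc0001780002ff6f2)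 b9671 (.hit (nat_lit 7) (nat_lit 30) (nat_lit 0xbc0001780002fff7c) b9676 (.one (nat_lit 6) (nat_lit 3) (nat_lit 25) (nat_lit 0xbc0001780002ff63a) b9672 (.nil)))) (.one (nat_lit 56) (nat_lit 8) (nat_lit 31) (nat_lit 0xbc0001780002ff5ca) b9677 (.tok (nat_lit 68) (nat_lit 0xbc0001780002ff66d) (.hit (nat_lit 4) (nat_lit 26) (nat_lit 0xbc0001780002ff598) b9673 (.hit (nat_lit 9) (nat_lit 32) (nat_lit 0xbc0001780002ff56e) b9678 (.one (nat_lit 9) (nat_lit 5) (nat_lit 27) (nat_lit 0xbc0001780002ff66d) b9674 (.nil)))) (.nil)))))) (.nil))) (.nil))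
noncomputable def r20_164 : Rw Blk := .tok (nat_lit 3) (nat_lit 0xbf6f257e3482fdfc05fb466bf70197e84a2fd4c7) (.hit (nat_lit 0) (nat_lit 0) (nat_lit 0xbf6f257e3482fdfc05fb466bf70197e84a2fd4c7) b35998 (.tok (nat_lit 6) (nat_lit 0xbf3a757d7a6afdd295fa33cbf46797e4252fc577) (.hit (nat_lit 1) (nat_lit 7) (nat_lit 0xbf3a757d7a6afdd295fa33cbf46797e4252fc577) b17156 (.hit (nat_lit 6) (nat_lit 15) (nat_lit 0xbf30b97d66f2fd5255f9e5ebf3cbd7e2edafc308) b17157 (.nil))) (.tok (nat_lit 9) (nat_lit 0xbf3a757d7a6afdd295fa33cbf46797e4252fc577) (.hit (nat_lit 10) (nat_lit 20) (nat_lit 0xbf3a757d7a6afdd295fa33cbf46797e4252fc577) b17156 (.hit (nat_lit 15) (nat_lit 28) (nat_lit 0xbf30b97d66f2fd5255f9e5ebf3cbd7e2edafc308) b17157 (.nil))) (.nil)))) (.tok (nat_lit 6) (nat_lit 0xbfc8697eef52ff1455feb8abfdf617f79a2ff38d) (.hit (nat_lit 81) (nat_lit 0) (nat_lit 0xbfc8317eef52feb305fe8c2bfd8cd7f6ef2ff240)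 b17167 (.tok (nat_lit 3) (nat_lit 0xbfc8697ea3a2ff1455feb8abfdf617f79a2ff38d) (.hit (nat_lit 82) (nat_lit 1) (nat_lit 0xbf5c257dd03afdbb25fb518bf71797ea04afd86b) b17168 (.one (nat_lit 67) (nat_lit 83) (nat_lit 2) (nat_lit 0xbfc8697ea3a2ff1455feb8abfdf617f79a2ff38d) b17169 (.nil))) (.tok (nat_lit 6) (nat_lit 0xbfabf97ec222fe8e95fd0cabfa8dd7eed22fe644) (.hit (nat_lit 87) (nat_lit 7) (nat_lit 0xbfabf97ec222fe8e95fd0cabfa8dd7eed22fe644) b17170 (.hit (nat_lit 95) (nat_lit 15) (nat_lit 0xbf64fd7dcd0afd3dd5fb85abf77fd7ead52fda0c) b17171 (.nil))) (.nil)))) (.tok (nat_lit 9) (nat_lit 0xc0000180000300000600000c0000180000300000) (.hit (nat_lit 157) (nat_lit 0) (nat_lit 0xbfc8317eef52feb305fdf4ebfb1fd7f811afeb74) b17158 (.tok (nat_lit 3) (nat_lit 0xbfc8697ea3a2ff1455fe17cbfb7417f5c0afecce) (.hit (nat_lit 158) (nat_lit 1) (nat_lit 0xbf5c257dd03afdbb25fa194bf48bd7e6b32fd154) b17159 (.one (nat_lit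 55) (nat_lit 159) (nat_lit 3) (nat_lit 0xbfc8697ea3a2ff1455fe17cbfb7417f5c0afecce) b17160 (.nil))) (.tok (nat_lit 9) (nat_lit 0xc0000180000300000600000c0000180000300000) (.hit (nat_lit 163) (nat_lit 20) (nat_lit 0xbfabf97ec222fe8e95fbc2ebf7fa57f486afe754) b17161 (.hit (nat_lit 171) (nat_lit 28) (nat_lit 0xbf64fd7dcd0afd3dd5fa3febf4f397e855afd2f5) b17165 (.tok (nat_lit 67) (nat_lit 0xc0000180000300000600000c0000180000300000) (.hit (nat_lit 164) (nat_lit 21) (nat_lit 0xbffb117f3fa2ff0ef5ff264bfec1180000300000) b17162 (.hit (nat_lit 172) (nat_lit 29) (nat_lit 0xbfc75d7eb112fef375fde0ebfbe1d7f84b2feed0) b17166 (.tok (nat_lit 9) (nat_lit 0xc0000180000300000600000c000017ffca2ffadb) (.hit (nat_lit 165) (nat_lit 22) (nat_lit 0xbfd0257f7e3aff2525fe562bfcac57f9022fee56) b17163 (.one (nat_lit 67) (nat_lit 166) (nat_lit 23) (nat_lit 0xc0000180000300000600000c000017ffca2ffadb) b17164 (.nil)))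 (.nil)))) (.nil)))) (.nil)))) (.nil)))
noncomputable def r20_165 : Rw Blk := .tok (nat_lit 6) (nat_lit 0xbc000178000300000) (.hit (nat_lit 51) (nat_lit 0) (nat_lit 0xbc0001780002ff743) b8943 (.tok (nat_lit 3) (nat_lit 0xbc0001780002ffecc) (.hit (nat_lit 52) (nat_lit 1) (nat_lit 0xbc0001780002fdccb) b8944 (.one (nat_lit 14) (nat_lit 53) (nat_lit 4) (nat_lit 0xbc0001780002ffecc) b9239 (.one (nat_lit 56) (nat_lit 55) (nat_lit 6) (nat_lit 0xbc0001780002ff720) b8945 (.one (nat_lit 68) (nat_lit 54) (nat_lit 5) (nat_lit 0xbc0001780002fef3e) b8946 (.nil))))) (.tok (nat_lit 40) (nat_lit 0xbc0001780002ff5de) (.hit (nat_lit 56) (nat_lit 33) (nat_lit 0xbc0001780002ff5de) b8947 (.hit (nat_lit 57) (nat_lit 34) (nat_lit 0xbc0001780002ff3d8) b8948 (.nil))) (.tok (nat_lit 43) (nat_lit 0xbc000178000300000) (.hit (nat_lit 58) (nat_lit 35) (nat_lit 0xbc000178000300000) b8951 (.hit (nat_lit 59) (nat_lit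 36) (nat_lit 0xbc0001780002ff6ae) b8952 (.nil))) (.tok (nat_lit 46) (nat_lit 0xbc0001780002ffbd8) (.hit (nat_lit 60) (nat_lit 37) (nat_lit 0xbc0001780002fe56f) b8949 (.hit (nat_lit 61) (nat_lit 38) (nat_lit 0xbc0001780002ffbd8) b8950 (.nil))) (.nil)))))) (.tok (nat_lit 9) (nat_lit 0xbc0001780002ffecc) (.hit (nat_lit 0) (nat_lit 0) (nat_lit 0xbc0001780002ff743) b8943 (.tok (nat_lit 3) (nat_lit 0xbc0001780002ffecc) (.hit (nat_lit 1) (nat_lit 1) (nat_lit 0xbc0001780002fdccb) b8944 (.one (nat_lit 14) (nat_lit 2) (nat_lit 4) (nat_lit 0xbc0001780002ffecc) b9239 (.one (nat_lit 56) (nat_lit 4) (nat_lit 6) (nat_lit 0xbc0001780002fef3e) b8946 (.one (nat_lit 68) (nat_lit 3) (nat_lit 5) (nat_lit 0xbc0001780002ff720) b8945 (.nil))))) (.nil))) (.nil))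
noncomputable def r20_166 : Rw Blk := .tok (nat_lit 3) (nat_lit 0xbc0001780002fde12) (.hit (nat_lit 61) (nat_lit 0) (nat_lit 0xbc0001780002fd24b) b8970 (.tok (nat_lit 9) (nat_lit 0xbc0001780002fd581) (.hit (nat_lit 62) (nat_lit 20) (nat_lit 0xbc0001780002fbbf9) b8971 (.hit (nat_lit 67) (nat_lit 28) (nat_lit 0xbc0001780002fadd7) b8974 (.tok (nat_lit 14) (nat_lit 0xbc0001780002fcdff) (.hit (nat_lit 63) (nat_lit 24) (nat_lit 0xbc0001780002fbe0c) b9665 (.hit (nat_lit 68) (nat_lit 30) (nat_lit 0xbc0001780002fc1ee) b9667 (.one (nat_lit 6) (nat_lit 64) (nat_lit 25) (nat_lit 0xbc0001780002fcdff) b9666 (.nil)))) (.tok (nat_lit 68) (nat_lit 0xbc0001780002fd581) (.hit (nat_lit 65) (nat_lit 26) (nat_lit 0xbc0001780002fcd73) b8972 (.hit (nat_lit 70) (nat_lit 32) (nat_lit 0xbc0001780002fbed5) b8976 (.one (nat_lit 9) (nat_lit 66) (nat_lit 27) (nat_lit 0xbc0001780002fd581) b8973 (.nil)))) (.nil)))))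 (.tok (nat_lit 64) (nat_lit 0xbc0001780002fc70f) (.hit (nat_lit 71) (nat_lit 50) (nat_lit 0xbc0001780002fbf8c) b8977 (.hit (nat_lit 72) (nat_lit 51) (nat_lit 0xbc0001780002fc70f) b8978 (.nil))) (.tok (nat_lit 67) (nat_lit 0xbc0001780002fde12) (.hit (nat_lit 73) (nat_lit 52) (nat_lit 0xbc0001780002fdd96) b8979 (.tok (nat_lit 3) (nat_lit 0xbc0001780002fde12) (.hit (nat_lit 79) (nat_lit 58) (nat_lit 0xbc0001780002fd3b5) b8985 (.one (nat_lit 55) (nat_lit 80) (nat_lit 59) (nat_lit 0xbc0001780002fde12) b9668 (.nil))) (.tok (nat_lit 9) (nat_lit 0xbc0001780002fd8c9) (.hit (nat_lit 74) (nat_lit 53) (nat_lit 0xbc0001780002fc8f3) b8980 (.hit (nat_lit 77) (nat_lit 56) (nat_lit 0xbc0001780002fcc00) b8983 (.tok (nat_lit 67) (nat_lit 0xbc0001780002fd8c9) (.hit (nat_lit 75) (nat_lit 54) (nat_lit 0xbc0001780002fd809) b8981 (.hit (nat_lit 78) (nat_lit 57) (nat_lit 0xbc0001780002fd8c9) b8984 (.one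 (nat_lit 9) (nat_lit 76) (nat_lit 55) (nat_lit 0xbc0001780002fd3cd) b8982 (.nil)))) (.nil)))) (.nil)))) (.one (nat_lit 70) (nat_lit 81) (nat_lit 60) (nat_lit 0xbc0001780002fc7be) b8986 (.nil)))))) (.tok (nat_lit 6) (nat_lit 0xbc000178000300000) (.hit (nat_lit 0) (nat_lit 0) (nat_lit 0xbc0001780002feb42) b8953 (.tok (nat_lit 6) (nat_lit 0xbc000178000300000) (.hit (nat_lit 1) (nat_lit 7) (nat_lit 0xbc0001780002fd8ca) b8954 (.hit (nat_lit 6) (nat_lit 15) (nat_lit 0xbc0001780002fc64d) b8957 (.tok (nat_lit 14) (nat_lit 0xbc0001780002ff85a) (.hit (nat_lit 2) (nat_lit 11) (nat_lit 0xbc0001780002ff85a) b9662 (.hit (nat_lit 7) (nat_lit 17) (nat_lit 0xbc0001780002fe69f) b9664 (.one (nat_lit 9) (nat_lit 3) (nat_lit 12) (nat_lit 0xbc0001780002ff70f) b9663 (.nil)))) (.tok (nat_lit 56) (nat_lit 0xbc000178000300000) (.hit (nat_lit 4) (nat_lit 13) (nat_lit 0xbc0001780002fefdc) b8955 (.hit (nat_lit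 9) (nat_lit 19) (nat_lit 0xbc0001780002fd664) b8959 (.one (nat_lit 6) (nat_lit 5) (nat_lit 14) (nat_lit 0xbc000178000300000) b8956 (.nil)))) (.one (nat_lit 68) (nat_lit 8) (nat_lit 18) (nat_lit 0xbc0001780002fdb60) b8958 (.nil)))))) (.nil))) (.nil))
noncomputable def r20_167 : Rw Blk := .tok (nat_lit 3) (nat_lit 0xbc000178000300000) (.hit (nat_lit 61) (nat_lit 0) (nat_lit 0xbc0001780002fe458) b9679 (.tok (nat_lit 9) (nat_lit 0xbc0001780002fe986) (.hit (nat_lit 62) (nat_lit 20) (nat_lit 0xbc0001780002fc969) b9680 (.hit (nat_lit 67) (nat_lit 28) (nat_lit 0xbc0001780002fccd8) b9685 (.tok (nat_lit 14) (nat_lit 0xbc0001780002fe986) (.hit (nat_lit 63) (nat_lit 24) (nat_lit 0xbc0001780002fdef7) b9681 (.hit (nat_lit 68) (nat_lit 30) (nat_lit 0xbc0001780002fdbe8) b9686 (.one (nat_lit 6) (nat_lit 64) (nat_lit 25) (nat_lit 0xbc0001780002fe986) b9682 (.nil)))) (.tok (nat_lit 68) (nat_lit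 0xbc0001780002fe4bc) (.hit (nat_lit 65) (nat_lit 26) (nat_lit 0xbc0001780002fe13b) b9683 (.hit (nat_lit 70) (nat_lit 32) (nat_lit 0xbc0001780002fdd09) b9687 (.one (nat_lit 9) (nat_lit 66) (nat_lit 27) (nat_lit 0xbc0001780002fe4bc) b9684 (.nil)))) (.nil))))) (.tok (nat_lit 64) (nat_lit 0xbc0001780002fe727) (.hit (nat_lit 71) (nat_lit 50) (nat_lit 0xbc0001780002fdff1) b9688 (.hit (nat_lit 72) (nat_lit 51) (nat_lit 0xbc0001780002fe727) b9689 (.nil))) (.tok (nat_lit 67) (nat_lit 0xbc000178000300000) (.hit (nat_lit 73) (nat_lit 52) (nat_lit 0xbc0001780002ff6c3) b9690 (.tok (nat_lit 3) (nat_lit 0xbc0001780002ff70a) (.hit (nat_lit 79) (nat_lit 58) (nat_lit 0xbc0001780002fef58) b9696 (.one (nat_lit 55) (nat_lit 80) (nat_lit 59) (nat_lit 0xbc0001780002ff70a) b9697 (.nil))) (.tok (nat_lit 9) (nat_lit 0xbc000178000300000) (.hit (nat_lit 74) (nat_lit 53) (nat_lit 0xbc0001780002ff8b2) b9691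 (.hit (nat_lit 77) (nat_lit 56) (nat_lit 0xbc0001780002fe613) b9694 (.tok (nat_lit 67) (nat_lit 0xbc000178000300000) (.hit (nat_lit 75) (nat_lit 54) (nat_lit 0xbc000178000300000) b9692 (.hit (nat_lit 78) (nat_lit 57) (nat_lit 0xbc0001780002ff758) b9695 (.one (nat_lit 9) (nat_lit 76) (nat_lit 55) (nat_lit 0xbc0001780002ff868) b9693 (.nil)))) (.nil)))) (.nil)))) (.one (nat_lit 70) (nat_lit 81) (nat_lit 60) (nat_lit 0xbc0001780002fe6b7) b9698 (.nil)))))) (.tok (nat_lit 6) (nat_lit 0xbc0001780002fff7c) (.hit (nat_lit 0) (nat_lit 0) (nat_lit 0xbc0001780002ff20f) b9669 (.tok (nat_lit 6) (nat_lit 0xbc0001780002fff7c) (.hit (nat_lit 1) (nat_lit 7) (nat_lit 0xbc0001780002fe639) b9670 (.hit (nat_lit 6) (nat_lit 15) (nat_lit 0xbc0001780002fd8e0) b9675 (.tok (nat_lit 14) (nat_lit 0xbc0001780002fff7c) (.hit (nat_lit 2) (nat_lit 11) (nat_lit 0xbc0001780002ff6f2) b9671 (.hit (nat_lit 7) (nat_lit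 17) (nat_lit 0xbc0001780002fff7c) b9676 (.one (nat_lit 9) (nat_lit 3) (nat_lit 12) (nat_lit 0xbc0001780002ff63a) b9672 (.nil)))) (.tok (nat_lit 56) (nat_lit 0xbc0001780002ff66d) (.hit (nat_lit 4) (nat_lit 13) (nat_lit 0xbc0001780002ff598) b9673 (.hit (nat_lit 9) (nat_lit 19) (nat_lit 0xbc0001780002ff56e) b9678 (.one (nat_lit 6) (nat_lit 5) (nat_lit 14) (nat_lit 0xbc0001780002ff66d) b9674 (.nil)))) (.one (nat_lit 68) (nat_lit 8) (nat_lit 18) (nat_lit 0xbc0001780002ff5ca) b9677 (.nil)))))) (.nil))) (.nil))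
noncomputable def r20_168 : Rw Blk := .tok (nat_lit 3) (nat_lit 0xbc0001780002fddcf) (.hit (nat_lit 61) (nat_lit 0) (nat_lit 0xbc0001780002fd208) b9255 (.tok (nat_lit 6) (nat_lit 0xbc0001780002fcdbc) (.hit (nat_lit 62) (nat_lit 7) (nat_lit 0xbc0001780002fbbb6) b9256 (.hit (nat_lit 67) (nat_lit 15) (nat_lit 0xbc0001780002fad94) b9261 (.tok (nat_lit 14) (nat_lit 0xbc0001780002fcdbc) (.hit (nat_lit 63) (nat_lit 11) (nat_lit 0xbc0001780002fbdc9) b9257 (.hit (nat_lit 68) (nat_lit 17) (nat_lit 0xbc0001780002fc1ab) b9262 (.one (nat_lit 9) (nat_lit 64) (nat_lit 12) (nat_lit 0xbc0001780002fcdbc) b9258 (.nil)))) (.one (nat_lit 68) (nat_lit 69) (nat_lit 18) (nat_lit 0xbc0001780002fc012) b9263 (.nil))))) (.tok (nat_lit 52) (nat_lit 0xbc0001780002fc6cc) (.hit (nat_lit 71) (nat_lit 39) (nat_lit 0xbc0001780002fbf49) b9265 (.hit (nat_lit 72) (nat_lit 40) (nat_lit 0xbc0001780002fc6cc) b9266 (.nil)))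 (.tok (nat_lit 55) (nat_lit 0xbc0001780002fddcf) (.hit (nat_lit 73) (nat_lit 41) (nat_lit 0xbc0001780002fdd53) b9267 (.tok (nat_lit 3) (nat_lit 0xbc0001780002fddcf) (.hit (nat_lit 79) (nat_lit 47) (nat_lit 0xbc0001780002fd372) b9273 (.one (nat_lit 67) (nat_lit 80) (nat_lit 48) (nat_lit 0xbc0001780002fddcf) b9274 (.nil))) (.tok (nat_lit 6) (nat_lit 0xbc0001780002fcbbd) (.hit (nat_lit 74) (nat_lit 42) (nat_lit 0xbc0001780002fc8b0) b9268 (.hit (nat_lit 77) (nat_lit 45) (nat_lit 0xbc0001780002fcbbd) b9271 (.nil))) (.nil)))) (.one (nat_lit 58) (nat_lit 81) (nat_lit 49) (nat_lit 0xbc0001780002fc77b) b9275 (.nil)))))) (.tok (nat_lit 9) (nat_lit 0xbc000178000300000) (.hit (nat_lit 0) (nat_lit 0) (nat_lit 0xbc0001780002feaff) b9240 (.tok (nat_lit 9) (nat_lit 0xbc0001780002fffbd) (.hit (nat_lit 1) (nat_lit 20) (nat_lit 0xbc0001780002fd887) b9241 (.hit (nat_lit 6) (nat_lit 28) (nat_lit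 0xbc0001780002fc60a) b9244 (.tok (nat_lit 14) (nat_lit 0xbc0001780002ff817) (.hit (nat_lit 2) (nat_lit 24) (nat_lit 0xbc0001780002ff817) b9242 (.hit (nat_lit 7) (nat_lit 30) (nat_lit 0xbc0001780002fe65c) b9245 (.one (nat_lit 6) (nat_lit 3) (nat_lit 25) (nat_lit 0xbc0001780002ff6cc) b9243 (.nil)))) (.one (nat_lit 56) (nat_lit 8) (nat_lit 31) (nat_lit 0xbc0001780002fdb1d) b9246 (.tok (nat_lit 68) (nat_lit 0xbc0001780002fffbd) (.hit (nat_lit 4) (nat_lit 26) (nat_lit 0xbc0001780002fef99) b9609 (.hit (nat_lit 9) (nat_lit 32) (nat_lit 0xbc0001780002fd621) b9611 (.one (nat_lit 9) (nat_lit 5) (nat_lit 27) (nat_lit 0xbc0001780002fffbd) b9610 (.nil)))) (.nil)))))) (.tok (nat_lit 64) (nat_lit 0xbc0001780002feaaa) (.hit (nat_lit 10) (nat_lit 50) (nat_lit 0xbc0001780002fdd77) b9247 (.hit (nat_lit 11) (nat_lit 51) (nat_lit 0xbc0001780002feaaa) b9248 (.nil))) (.tok (nat_lit 67) (nat_lit 0xbc000178000300000)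 (.hit (nat_lit 12) (nat_lit 52) (nat_lit 0xbc0001780002ff885) b9249 (.tok (nat_lit 3) (nat_lit 0xbc000178000300000) (.hit (nat_lit 18) (nat_lit 58) (nat_lit 0xbc0001780002fec8d) b9252 (.one (nat_lit 55) (nat_lit 19) (nat_lit 59) (nat_lit 0xbc000178000300000) b9253 (.nil))) (.tok (nat_lit 9) (nat_lit 0xbc0001780002ffc81) (.hit (nat_lit 13) (nat_lit 53) (nat_lit 0xbc0001780002fe0f2) b9250 (.hit (nat_lit 16) (nat_lit 56) (nat_lit 0xbc0001780002fece8) b9251 (.tok (nat_lit 67) (nat_lit 0xbc0001780002ffc81) (.hit (nat_lit 14) (nat_lit 54) (nat_lit 0xbc0001780002ff6bd) b9612 (.hit (nat_lit 17) (nat_lit 57) (nat_lit 0xbc0001780002ffc81) b9614 (.one (nat_lit 9) (nat_lit 15) (nat_lit 55) (nat_lit 0xbc0001780002ff76a) b9613 (.nil)))) (.nil)))) (.nil)))) (.one (nat_lit 70) (nat_lit 20) (nat_lit 60) (nat_lit 0xbc0001780002fecd6) b9254 (.nil)))))) (.nil))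
noncomputable def r20_169 : Rw Blk := .tok (nat_lit 3) (nat_lit 0xbc0001780002fe1a8) (.hit (nat_lit 61) (nat_lit 0) (nat_lit 0xbc0001780002fcd4e) b17193 (.tok (nat_lit 6) (nat_lit 0xbc0001780002fd27c) (.hit (nat_lit 62) (nat_lit 7) (nat_lit 0xbc0001780002fb25f) b17194 (.hit (nat_lit 67) (nat_lit 15) (nat_lit 0xbc0001780002fb5ce) b17197 (.tok (nat_lit 14) (nat_lit 0xbc0001780002fd27c) (.hit (nat_lit 63) (nat_lit 11) (nat_lit 0xbc0001780002fc7ed) b17195 (.hit (nat_lit 68) (nat_lit 17) (nat_lit 0xbc0001780002fc4de) b17198 (.one (nat_lit 9) (nat_lit 64) (nat_lit 12) (nat_lit 0xbc0001780002fd27c) b17196 (.nil)))) (.one (nat_lit 68) (nat_lit 69) (nat_lit 18) (nat_lit 0xbc0001780002fcc04) b17199 (.nil))))) (.tok (nat_lit 52) (nat_lit 0xbc0001780002fd01d) (.hit (nat_lit 71) (nat_lit 39) (nat_lit 0xbc0001780002fc8e7) b17200 (.hit (nat_lit 72) (nat_lit 40) (nat_lit 0xbc0001780002fd01d)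 b17201 (.nil))) (.tok (nat_lit 55) (nat_lit 0xbc0001780002fe1a8) (.hit (nat_lit 73) (nat_lit 41) (nat_lit 0xbc0001780002fdfb9) b17202 (.tok (nat_lit 3) (nat_lit 0xbc0001780002fe000) (.hit (nat_lit 79) (nat_lit 47) (nat_lit 0xbc0001780002fd84e) b17205 (.one (nat_lit 67) (nat_lit 80) (nat_lit 48) (nat_lit 0xbc0001780002fe000) b17206 (.nil))) (.tok (nat_lit 6) (nat_lit 0xbc0001780002fe1a8) (.hit (nat_lit 74) (nat_lit 42) (nat_lit 0xbc0001780002fe1a8) b17203 (.hit (nat_lit 77) (nat_lit 45) (nat_lit 0xbc0001780002fcf09) b17204 (.nil))) (.nil)))) (.one (nat_lit 58) (nat_lit 81) (nat_lit 49) (nat_lit 0xbc0001780002fcfad) b17207 (.nil)))))) (.tok (nat_lit 9) (nat_lit 0xbc00017800030136d) (.hit (nat_lit 0) (nat_lit 0) (nat_lit 0xbc0001780002fdb05) b17172 (.tok (nat_lit 9) (nat_lit 0xbc0001780002fe872) (.hit (nat_lit 1) (nat_lit 20) (nat_lit 0xbc0001780002fcf2f) b17173 (.hit (nat_lit 6)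 (nat_lit 28) (nat_lit 0xbc0001780002fc1d6) b17178 (.tok (nat_lit 14) (nat_lit 0xbc0001780002fe872) (.hit (nat_lit 2) (nat_lit 24) (nat_lit 0xbc0001780002fdfe8) b17174 (.hit (nat_lit 7) (nat_lit 30) (nat_lit 0xbc0001780002fe872) b17179 (.one (nat_lit 6) (nat_lit 3) (nat_lit 25) (nat_lit 0xbc0001780002fdf30) b17175 (.nil)))) (.one (nat_lit 56) (nat_lit 8) (nat_lit 31) (nat_lit 0xbc0001780002fdec0) b17180 (.tok (nat_lit 68) (nat_lit 0xbc0001780002fdf63) (.hit (nat_lit 4) (nat_lit 26) (nat_lit 0xbc0001780002fde8e) b17176 (.hit (nat_lit 9) (nat_lit 32) (nat_lit 0xbc0001780002fde64) b17181 (.one (nat_lit 9) (nat_lit 5) (nat_lit 27) (nat_lit 0xbc0001780002fdf63) b17177 (.nil)))) (.nil)))))) (.tok (nat_lit 64) (nat_lit 0xbc0001780002fe503) (.hit (nat_lit 10) (nat_lit 50) (nat_lit 0xbc0001780002fd4f0) b17182 (.hit (nat_lit 11) (nat_lit 51) (nat_lit 0xbc0001780002fe503) b17183 (.nil)))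 (.tok (nat_lit 67) (nat_lit 0xbc00017800030136d) (.hit (nat_lit 12) (nat_lit 52) (nat_lit 0xbc0001780002fea85) b17184 (.tok (nat_lit 3) (nat_lit 0xbc0001780002fef92) (.hit (nat_lit 18) (nat_lit 58) (nat_lit 0xbc0001780002fdcd7) b17190 (.one (nat_lit 55) (nat_lit 19) (nat_lit 59) (nat_lit 0xbc0001780002fef92) b17191 (.nil))) (.tok (nat_lit 9) (nat_lit 0xbc00017800030136d) (.hit (nat_lit 13) (nat_lit 53) (nat_lit 0xbc0001780002fefe7) b17185 (.hit (nat_lit 16) (nat_lit 56) (nat_lit 0xbc0001780002febe8) b17188 (.tok (nat_lit 67) (nat_lit 0xbc00017800030136d) (.hit (nat_lit 14) (nat_lit 54) (nat_lit 0xbc000178000300c5f) b17186 (.hit (nat_lit 17) (nat_lit 57) (nat_lit 0xbc0001780002fe7fe) b17189 (.one (nat_lit 9) (nat_lit 15) (nat_lit 55) (nat_lit 0xbc00017800030136d) b17187 (.nil)))) (.nil)))) (.nil)))) (.one (nat_lit 70) (nat_lit 20) (nat_lit 60) (nat_lit 0xbc0001780002fe351) b17192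 (.nil)))))) (.nil))
noncomputable def r20_170 : Rw Blk := .tok (nat_lit 3) (nat_lit 0xbf74157eb64afed6e5fb888bf6fa17eb172fd61e) (.hit (nat_lit 0) (nat_lit 0) (nat_lit 0xbf74157eb64afed6e5fb888bf6fa17eb172fd61e) b35999 (.tok (nat_lit 6) (nat_lit 0xbf3f657dfc32fead75f9d78bf33497e3842fc86b) (.hit (nat_lit 1) (nat_lit 7) (nat_lit 0xbf3f657dfc32fead75f9d78bf33497e3842fc86b) b17292 (.hit (nat_lit 6) (nat_lit 15) (nat_lit 0xbf35a97de8bafe2d35f989abf298d7e24cafc5fc) b17293 (.nil))) (.tok (nat_lit 9) (nat_lit 0xbf3f657dfc32fead75f9d78bf33497e3842fc86b) (.hit (nat_lit 10) (nat_lit 20) (nat_lit 0xbf3f657dfc32fead75f9d78bf33497e3842fc86b) b17292 (.hit (nat_lit 15) (nat_lit 28) (nat_lit 0xbf35a97de8bafe2d35f989abf298d7e24cafc5fc) b17293 (.nil))) (.nil)))) (.tok (nat_lit 6) (nat_lit 0xc0000180000300000600000c0000180000300000) (.hit (nat_lit 81) (nat_lit 0) (nat_lit 0xbfcd217f711aff8de5fe1f8bfc2757f8302ff076)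 b17302 (.tok (nat_lit 3) (nat_lit 0xbfcd597f256affef35fe594bfca8d7f9512ff2a2) (.hit (nat_lit 82) (nat_lit 1) (nat_lit 0xbf61157e5202fe9605fae50bf5ca17eb942fd728) b17295 (.one (nat_lit 67) (nat_lit 83) (nat_lit 2) (nat_lit 0xbfcd597f256affef35fe594bfca8d7f9512ff2a2) b17303 (.nil))) (.tok (nat_lit 6) (nat_lit 0xc0000180000300000600000c0000180000300000) (.hit (nat_lit 87) (nat_lit 7) (nat_lit 0xbfb0e97f43eaff6975fca02bf94057f280afe863) b17304 (.hit (nat_lit 95) (nat_lit 15) (nat_lit 0xbf69ed7e4ed2fe18b5fb196bf63297ec64afd8c9) b17307 (.tok (nat_lit 55) (nat_lit 0xc0000180000300000600000c0000180000300000) (.hit (nat_lit 88) (nat_lit 8) (nat_lit 0xc000017fc16affe9d600000c0000180000300000) b17305 (.hit (nat_lit 96) (nat_lit 16) (nat_lit 0xbfcc4d7f32daffce55fe94abfd3617fa3f2ff47e) b17308 (.one (nat_lit 6) (nat_lit 89) (nat_lit 9) (nat_lit 0xbfd515800003000005fe852bfd0bd7fa142ff428) b17306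 (.nil)))) (.nil)))) (.nil)))) (.tok (nat_lit 9) (nat_lit 0xc0000180000300000600000c0000180000300000) (.hit (nat_lit 157) (nat_lit 0) (nat_lit 0xbfcd217f711aff8de5fe208bfc3f57fc9c2ff553) b17294 (.tok (nat_lit 3) (nat_lit 0xbfcd597f256affef35fe544bfca897f9502ff2a6) (.hit (nat_lit 158) (nat_lit 1) (nat_lit 0xbf61157e5202fe9605fae50bf5ca17eb942fd728) b17295 (.one (nat_lit 55) (nat_lit 159) (nat_lit 3) (nat_lit 0xbfcd597f256affef35fe544bfca897f9502ff2a6) b17296 (.nil))) (.tok (nat_lit 9) (nat_lit 0xc0000180000300000600000c0000180000300000) (.hit (nat_lit 163) (nat_lit 20) (nat_lit 0xbfb0e97f43eaff6975fca02bf94057f2b4afe864) b17297 (.hit (nat_lit 171) (nat_lit 28) (nat_lit 0xbf69ed7e4ed2fe18b5fb192bf63257ec64afd8c9) b17300 (.tok (nat_lit 67) (nat_lit 0xc0000180000300000600000c0000180000300000) (.hit (nat_lit 164) (nat_lit 21) (nat_lit 0xc000017fc16affe9d600000c0000180000300000) b17298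 (.hit (nat_lit 172) (nat_lit 29) (nat_lit 0xbfcc4d7f32daffce55fe8fcbfd1f97fa3f2ff47e) b17301 (.one (nat_lit 9) (nat_lit 165) (nat_lit 22) (nat_lit 0xbfd515800003000005fe842bfd0857fa1d2ff218) b17299 (.nil)))) (.nil)))) (.nil)))) (.nil)))
noncomputable def r20_171 : Rw Blk := .tok (nat_lit 6) (nat_lit 0xbc000178000300000) (.hit (nat_lit 51) (nat_lit 0) (nat_lit 0xbc0001780002ff743) b8943 (.tok (nat_lit 3) (nat_lit 0xbc0001780002ffecc) (.hit (nat_lit 52) (nat_lit 1) (nat_lit 0xbc0001780002fdccb) b8944 (.one (nat_lit 14) (nat_lit 53) (nat_lit 4) (nat_lit 0xbc0001780002ffecc) b9239 (.one (nat_lit 56) (nat_lit 55) (nat_lit 6) (nat_lit 0xbc0001780002ff720) b8945 (.nil)))) (.tok (nat_lit 40) (nat_lit 0xbc0001780002ff5de) (.hit (nat_lit 56) (nat_lit 33) (nat_lit 0xbc0001780002ff5de) b8947 (.hit (nat_lit 57) (nat_lit 34) (nat_lit 0xbc0001780002ff3d8) b8948 (.nil))) (.tok (nat_lit 43) (nat_lit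 0xbc000178000300000) (.hit (nat_lit 58) (nat_lit 35) (nat_lit 0xbc000178000300000) b8951 (.hit (nat_lit 59) (nat_lit 36) (nat_lit 0xbc0001780002ff6ae) b8952 (.nil))) (.tok (nat_lit 46) (nat_lit 0xbc0001780002ffbd8) (.hit (nat_lit 60) (nat_lit 37) (nat_lit 0xbc0001780002fe56f) b8949 (.hit (nat_lit 61) (nat_lit 38) (nat_lit 0xbc0001780002ffbd8) b8950 (.nil))) (.nil)))))) (.tok (nat_lit 9) (nat_lit 0xbc000178000300000) (.hit (nat_lit 0) (nat_lit 0) (nat_lit 0xbc0001780002ff743) b8943 (.tok (nat_lit 3) (nat_lit 0xbc0001780002ffecc) (.hit (nat_lit 1) (nat_lit 1) (nat_lit 0xbc0001780002fdccb) b8944 (.one (nat_lit 14) (nat_lit 2) (nat_lit 4) (nat_lit 0xbc0001780002ffecc) b9239 (.one (nat_lit 68) (nat_lit 3) (nat_lit 5) (nat_lit 0xbc0001780002ff720) b8945 (.nil)))) (.tok (nat_lit 40) (nat_lit 0xbc0001780002ff5de) (.hit (nat_lit 5) (nat_lit 33) (nat_lit 0xbc0001780002ff5de) b8947 (.hit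 (nat_lit 6) (nat_lit 34) (nat_lit 0xbc0001780002ff3d8) b8948 (.nil))) (.tok (nat_lit 43) (nat_lit 0xbc0001780002ffbd8) (.hit (nat_lit 7) (nat_lit 35) (nat_lit 0xbc0001780002fe56f) b8949 (.hit (nat_lit 8) (nat_lit 36) (nat_lit 0xbc0001780002ffbd8) b8950 (.nil))) (.tok (nat_lit 46) (nat_lit 0xbc000178000300000) (.hit (nat_lit 9) (nat_lit 37) (nat_lit 0xbc000178000300000) b8951 (.hit (nat_lit 10) (nat_lit 38) (nat_lit 0xbc0001780002ff6ae) b8952 (.nil))) (.nil)))))) (.nil))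
noncomputable def r20_172 : Rw Blk := .tok (nat_lit 3) (nat_lit 0xbc0001780002fddcf) (.hit (nat_lit 61) (nat_lit 0) (nat_lit 0xbc0001780002fd208) b9255 (.tok (nat_lit 9) (nat_lit 0xbc0001780002fd53e) (.hit (nat_lit 62) (nat_lit 20) (nat_lit 0xbc0001780002fbbb6) b9256 (.hit (nat_lit 67) (nat_lit 28) (nat_lit 0xbc0001780002fad94) b9261 (.tok (nat_lit 14) (nat_lit 0xbc0001780002fcdbc) (.hit (nat_lit 63) (nat_lit 24) (nat_lit 0xbc0001780002fbdc9) b9257 (.hit (nat_lit 68) (nat_lit 30) (nat_lit 0xbc0001780002fc1ab) b9262 (.one (nat_lit 6) (nat_lit 64) (nat_lit 25) (nat_lit 0xbc0001780002fcdbc) b9258 (.nil)))) (.one (nat_lit 56) (nat_lit 69) (nat_lit 31) (nat_lit 0xbc0001780002fc012) b9263 (.tok (nat_lit 68) (nat_lit 0xbc0001780002fd53e) (.hit (nat_lit 65) (nat_lit 26) (nat_lit 0xbc0001780002fcd30) b9259 (.hit (nat_lit 70) (nat_lit 32) (nat_lit 0xbc0001780002fbe92) b9264 (.one (nat_lit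 9) (nat_lit 66) (nat_lit 27) (nat_lit 0xbc0001780002fd53e) b9260 (.nil)))) (.nil)))))) (.tok (nat_lit 64) (nat_lit 0xbc0001780002fc6cc) (.hit (nat_lit 71) (nat_lit 50) (nat_lit 0xbc0001780002fbf49) b9265 (.hit (nat_lit 72) (nat_lit 51) (nat_lit 0xbc0001780002fc6cc) b9266 (.nil))) (.tok (nat_lit 67) (nat_lit 0xbc0001780002fddcf) (.hit (nat_lit 73) (nat_lit 52) (nat_lit 0xbc0001780002fdd53) b9267 (.tok (nat_lit 3) (nat_lit 0xbc0001780002fddcf) (.hit (nat_lit 79) (nat_lit 58) (nat_lit 0xbc0001780002fd372) b9273 (.one (nat_lit 55) (nat_lit 80) (nat_lit 59) (nat_lit 0xbc0001780002fddcf) b9274 (.nil))) (.tok (nat_lit 9) (nat_lit 0xbc0001780002fd886) (.hit (nat_lit 74) (nat_lit 53) (nat_lit 0xbc0001780002fc8b0) b9268 (.hit (nat_lit 77) (nat_lit 56) (nat_lit 0xbc0001780002fcbbd) b9271 (.tok (nat_lit 67) (nat_lit 0xbc0001780002fd886) (.hit (nat_lit 75) (nat_lit 54) (nat_lit 0xbc0001780002fd7c6)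 b9269 (.hit (nat_lit 78) (nat_lit 57) (nat_lit 0xbc0001780002fd886) b9272 (.one (nat_lit 9) (nat_lit 76) (nat_lit 55) (nat_lit 0xbc0001780002fd38a) b9270 (.nil)))) (.nil)))) (.nil)))) (.one (nat_lit 70) (nat_lit 81) (nat_lit 60) (nat_lit 0xbc0001780002fc77b) b9275 (.nil)))))) (.tok (nat_lit 6) (nat_lit 0xbc000178000300000) (.hit (nat_lit 0) (nat_lit 0) (nat_lit 0xbc0001780002feaff) b9240 (.tok (nat_lit 6) (nat_lit 0xbc0001780002ff817) (.hit (nat_lit 1) (nat_lit 7) (nat_lit 0xbc0001780002fd887) b9241 (.hit (nat_lit 6) (nat_lit 15) (nat_lit 0xbc0001780002fc60a) b9244 (.tok (nat_lit 14) (nat_lit 0xbc0001780002ff817) (.hit (nat_lit 2) (nat_lit 11) (nat_lit 0xbc0001780002ff817) b9242 (.hit (nat_lit 7) (nat_lit 17) (nat_lit 0xbc0001780002fe65c) b9245 (.one (nat_lit 9) (nat_lit 3) (nat_lit 12) (nat_lit 0xbc0001780002ff6cc) b9243 (.nil)))) (.one (nat_lit 68) (nat_lit 8) (nat_lit 18)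 (nat_lit 0xbc0001780002fdb1d) b9246 (.nil))))) (.tok (nat_lit 52) (nat_lit 0xbc0001780002feaaa) (.hit (nat_lit 10) (nat_lit 39) (nat_lit 0xbc0001780002fdd77) b9247 (.hit (nat_lit 11) (nat_lit 40) (nat_lit 0xbc0001780002feaaa) b9248 (.nil))) (.tok (nat_lit 55) (nat_lit 0xbc000178000300000) (.hit (nat_lit 12) (nat_lit 41) (nat_lit 0xbc0001780002ff885) b9249 (.tok (nat_lit 3) (nat_lit 0xbc000178000300000) (.hit (nat_lit 18) (nat_lit 47) (nat_lit 0xbc0001780002fec8d) b9252 (.one (nat_lit 67) (nat_lit 19) (nat_lit 48) (nat_lit 0xbc000178000300000) b9253 (.nil))) (.tok (nat_lit 6) (nat_lit 0xbc0001780002fece8) (.hit (nat_lit 13) (nat_lit 42) (nat_lit 0xbc0001780002fe0f2) b9250 (.hit (nat_lit 16) (nat_lit 45) (nat_lit 0xbc0001780002fece8) b9251 (.nil))) (.nil)))) (.one (nat_lit 58) (nat_lit 20) (nat_lit 49) (nat_lit 0xbc0001780002fecd6) b9254 (.nil)))))) (.nil))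
noncomputable def r20_173 : Rw Blk := .tok (nat_lit 3) (nat_lit 0xbc0001780002ff90f) (.hit (nat_lit 61) (nat_lit 0) (nat_lit 0xbc0001780002fdd67) b9291 (.tok (nat_lit 9) (nat_lit 0xbc0001780002fe295) (.hit (nat_lit 62) (nat_lit 20) (nat_lit 0xbc0001780002fc278) b9292 (.hit (nat_lit 67) (nat_lit 28) (nat_lit 0xbc0001780002fc5e7) b9297 (.tok (nat_lit 14) (nat_lit 0xbc0001780002fe295) (.hit (nat_lit 63) (nat_lit 24) (nat_lit 0xbc0001780002fd806) b9293 (.hit (nat_lit 68) (nat_lit 30) (nat_lit 0xbc0001780002fd4f7) b9298 (.one (nat_lit 6) (nat_lit 64) (nat_lit 25) (nat_lit 0xbc0001780002fe295) b9294 (.nil)))) (.one (nat_lit 56) (nat_lit 69) (nat_lit 31) (nat_lit 0xbc0001780002fdc1d) b9299 (.tok (nat_lit 68) (nat_lit 0xbc0001780002fddcb) (.hit (nat_lit 65) (nat_lit 26) (nat_lit 0xbc0001780002fda4a) b9295 (.hit (nat_lit 70) (nat_lit 32) (nat_lit 0xbc0001780002fd618) b9300 (.one (nat_lit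 9) (nat_lit 66) (nat_lit 27) (nat_lit 0xbc0001780002fddcb) b9296 (.nil)))) (.nil)))))) (.tok (nat_lit 64) (nat_lit 0xbc0001780002fe036) (.hit (nat_lit 71) (nat_lit 50) (nat_lit 0xbc0001780002fd900) b9301 (.hit (nat_lit 72) (nat_lit 51) (nat_lit 0xbc0001780002fe036) b9302 (.nil))) (.tok (nat_lit 67) (nat_lit 0xbc0001780002ff90f) (.hit (nat_lit 73) (nat_lit 52) (nat_lit 0xbc0001780002fefd2) b9303 (.tok (nat_lit 3) (nat_lit 0xbc0001780002ff019) (.hit (nat_lit 79) (nat_lit 58) (nat_lit 0xbc0001780002fe867) b9309 (.one (nat_lit 55) (nat_lit 80) (nat_lit 59) (nat_lit 0xbc0001780002ff019) b9310 (.nil))) (.tok (nat_lit 9) (nat_lit 0xbc0001780002ff90f) (.hit (nat_lit 74) (nat_lit 53) (nat_lit 0xbc0001780002ff1c1) b9304 (.hit (nat_lit 77) (nat_lit 56) (nat_lit 0xbc0001780002fdf22) b9307 (.tok (nat_lit 67) (nat_lit 0xbc0001780002ff90f) (.hit (nat_lit 75) (nat_lit 54) (nat_lit 0xbc0001780002ff90f)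 b9305 (.hit (nat_lit 78) (nat_lit 57) (nat_lit 0xbc0001780002ff067) b9308 (.one (nat_lit 9) (nat_lit 76) (nat_lit 55) (nat_lit 0xbc0001780002ff177) b9306 (.nil)))) (.nil)))) (.nil)))) (.one (nat_lit 70) (nat_lit 81) (nat_lit 60) (nat_lit 0xbc0001780002fdfc6) b9311 (.nil)))))) (.tok (nat_lit 6) (nat_lit 0xbc000178000300000) (.hit (nat_lit 0) (nat_lit 0) (nat_lit 0xbc0001780002feb1e) b9276 (.tok (nat_lit 6) (nat_lit 0xbc0001780002ff88b) (.hit (nat_lit 1) (nat_lit 7) (nat_lit 0xbc0001780002fdf48) b9277 (.hit (nat_lit 6) (nat_lit 15) (nat_lit 0xbc0001780002fd1ef) b9280 (.tok (nat_lit 14) (nat_lit 0xbc0001780002ff88b) (.hit (nat_lit 2) (nat_lit 11) (nat_lit 0xbc0001780002ff001) b9278 (.hit (nat_lit 7) (nat_lit 17) (nat_lit 0xbc0001780002ff88b) b9281 (.one (nat_lit 9) (nat_lit 3) (nat_lit 12) (nat_lit 0xbc0001780002fef49) b9279 (.nil)))) (.one (nat_lit 68) (nat_lit 8) (nat_lit 18)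 (nat_lit 0xbc0001780002feed9) b9282 (.nil))))) (.tok (nat_lit 52) (nat_lit 0xbc0001780002ff51c) (.hit (nat_lit 10) (nat_lit 39) (nat_lit 0xbc0001780002fe509) b9283 (.hit (nat_lit 11) (nat_lit 40) (nat_lit 0xbc0001780002ff51c) b9284 (.nil))) (.tok (nat_lit 55) (nat_lit 0xbc000178000300000) (.hit (nat_lit 12) (nat_lit 41) (nat_lit 0xbc0001780002ffa9e) b9285 (.tok (nat_lit 3) (nat_lit 0xbc0001780002fffab) (.hit (nat_lit 18) (nat_lit 47) (nat_lit 0xbc0001780002fecf0) b9288 (.one (nat_lit 67) (nat_lit 19) (nat_lit 48) (nat_lit 0xbc0001780002fffab) b9289 (.nil))) (.tok (nat_lit 6) (nat_lit 0xbc000178000300000) (.hit (nat_lit 13) (nat_lit 42) (nat_lit 0xbc000178000300000) b9286 (.hit (nat_lit 16) (nat_lit 45) (nat_lit 0xbc0001780002ffc01) b9287 (.nil))) (.nil)))) (.one (nat_lit 58) (nat_lit 20) (nat_lit 49) (nat_lit 0xbc0001780002ff36a) b9290 (.nil)))))) (.nil))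
noncomputable def r20_174 : Rw Blk := .tok (nat_lit 3) (nat_lit 0xbc0001780002fddcf) (.hit (nat_lit 61) (nat_lit 0) (nat_lit 0xbc0001780002fd208) b9255 (.tok (nat_lit 6) (nat_lit 0xbc0001780002fd53e) (.hit (nat_lit 62) (nat_lit 7) (nat_lit 0xbc0001780002fbbb6) b9256 (.hit (nat_lit 67) (nat_lit 15) (nat_lit 0xbc0001780002fad94) b9261 (.tok (nat_lit 14) (nat_lit 0xbc0001780002fcdbc) (.hit (nat_lit 63) (nat_lit 11) (nat_lit 0xbc0001780002fbdc9) b9257 (.hit (nat_lit 68) (nat_lit 17) (nat_lit 0xbc0001780002fc1ab) b9262 (.one (nat_lit 9) (nat_lit 64) (nat_lit 12) (nat_lit 0xbc0001780002fcdbc) b9258 (.nil)))) (.tok (nat_lit 56) (nat_lit 0xbc0001780002fd53e) (.hit (nat_lit 65) (nat_lit 13) (nat_lit 0xbc0001780002fcd30) b9259 (.hit (nat_lit 70) (nat_lit 19) (nat_lit 0xbc0001780002fbe92) b9264 (.one (nat_lit 6) (nat_lit 66) (nat_lit 14) (nat_lit 0xbc0001780002fd53e) b9260 (.nil)))) (.one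 (nat_lit 68) (nat_lit 69) (nat_lit 18) (nat_lit 0xbc0001780002fc012) b9263 (.nil)))))) (.tok (nat_lit 52) (nat_lit 0xbc0001780002fc6cc) (.hit (nat_lit 71) (nat_lit 39) (nat_lit 0xbc0001780002fbf49) b9265 (.hit (nat_lit 72) (nat_lit 40) (nat_lit 0xbc0001780002fc6cc) b9266 (.nil))) (.tok (nat_lit 55) (nat_lit 0xbc0001780002fddcf) (.hit (nat_lit 73) (nat_lit 41) (nat_lit 0xbc0001780002fdd53) b9267 (.tok (nat_lit 3) (nat_lit 0xbc0001780002fddcf) (.hit (nat_lit 79) (nat_lit 47) (nat_lit 0xbc0001780002fd372) b9273 (.one (nat_lit 67) (nat_lit 80) (nat_lit 48) (nat_lit 0xbc0001780002fddcf) b9274 (.nil))) (.tok (nat_lit 6) (nat_lit 0xbc0001780002fd886) (.hit (nat_lit 74) (nat_lit 42) (nat_lit 0xbc0001780002fc8b0) b9268 (.hit (nat_lit 77) (nat_lit 45) (nat_lit 0xbc0001780002fcbbd) b9271 (.tok (nat_lit 55) (nat_lit 0xbc0001780002fd886) (.hit (nat_lit 75) (nat_lit 43) (nat_lit 0xbc0001780002fd7c6)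 b9269 (.hit (nat_lit 78) (nat_lit 46) (nat_lit 0xbc0001780002fd886) b9272 (.one (nat_lit 6) (nat_lit 76) (nat_lit 44) (nat_lit 0xbc0001780002fd38a) b9270 (.nil)))) (.nil)))) (.nil)))) (.one (nat_lit 58) (nat_lit 81) (nat_lit 49) (nat_lit 0xbc0001780002fc77b) b9275 (.nil)))))) (.tok (nat_lit 9) (nat_lit 0xbc000178000300000) (.hit (nat_lit 0) (nat_lit 0) (nat_lit 0xbc0001780002feaff) b9240 (.tok (nat_lit 9) (nat_lit 0xbc0001780002ff817) (.hit (nat_lit 1) (nat_lit 20) (nat_lit 0xbc0001780002fd887) b9241 (.hit (nat_lit 6) (nat_lit 28) (nat_lit 0xbc0001780002fc60a) b9244 (.tok (nat_lit 14) (nat_lit 0xbc0001780002ff817) (.hit (nat_lit 2) (nat_lit 24) (nat_lit 0xbc0001780002ff817) b9242 (.hit (nat_lit 7) (nat_lit 30) (nat_lit 0xbc0001780002fe65c) b9245 (.one (nat_lit 6) (nat_lit 3) (nat_lit 25) (nat_lit 0xbc0001780002ff6cc) b9243 (.nil)))) (.one (nat_lit 56) (nat_lit 8) (nat_lit 31)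 (nat_lit 0xbc0001780002fdb1d) b9246 (.nil))))) (.tok (nat_lit 64) (nat_lit 0xbc0001780002feaaa) (.hit (nat_lit 10) (nat_lit 50) (nat_lit 0xbc0001780002fdd77) b9247 (.hit (nat_lit 11) (nat_lit 51) (nat_lit 0xbc0001780002feaaa) b9248 (.nil))) (.tok (nat_lit 67) (nat_lit 0xbc000178000300000) (.hit (nat_lit 12) (nat_lit 52) (nat_lit 0xbc0001780002ff885) b9249 (.tok (nat_lit 3) (nat_lit 0xbc000178000300000) (.hit (nat_lit 18) (nat_lit 58) (nat_lit 0xbc0001780002fec8d) b9252 (.one (nat_lit 55) (nat_lit 19) (nat_lit 59) (nat_lit 0xbc000178000300000) b9253 (.nil))) (.tok (nat_lit 9) (nat_lit 0xbc0001780002fece8) (.hit (nat_lit 13) (nat_lit 53) (nat_lit 0xbc0001780002fe0f2) b9250 (.hit (nat_lit 16) (nat_lit 56) (nat_lit 0xbc0001780002fece8) b9251 (.nil))) (.nil)))) (.one (nat_lit 70) (nat_lit 20) (nat_lit 60) (nat_lit 0xbc0001780002fecd6) b9254 (.nil)))))) (.nil))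
noncomputable def r20_175 : Rw Blk := .tok (nat_lit 3) (nat_lit 0xbc0001780002ff90f) (.hit (nat_lit 61) (nat_lit 0) (nat_lit 0xbc0001780002fdd67) b9291 (.tok (nat_lit 6) (nat_lit 0xbc0001780002fe295) (.hit (nat_lit 62) (nat_lit 7) (nat_lit 0xbc0001780002fc278) b9292 (.hit (nat_lit 67) (nat_lit 15) (nat_lit 0xbc0001780002fc5e7) b9297 (.tok (nat_lit 14) (nat_lit 0xbc0001780002fe295) (.hit (nat_lit 63) (nat_lit 11) (nat_lit 0xbc0001780002fd806) b9293 (.hit (nat_lit 68) (nat_lit 17) (nat_lit 0xbc0001780002fd4f7) b9298 (.one (nat_lit 9) (nat_lit 64) (nat_lit 12) (nat_lit 0xbc0001780002fe295) b9294 (.nil)))) (.tok (nat_lit 56) (nat_lit 0xbc0001780002fddcb) (.hit (nat_lit 65) (nat_lit 13) (nat_lit 0xbc0001780002fda4a) b9295 (.hit (nat_lit 70) (nat_lit 19) (nat_lit 0xbc0001780002fd618) b9300 (.one (nat_lit 6) (nat_lit 66) (nat_lit 14) (nat_lit 0xbc0001780002fddcb) b9296 (.nil)))) (.one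 (nat_lit 68) (nat_lit 69) (nat_lit 18) (nat_lit 0xbc0001780002fdc1d) b9299 (.nil)))))) (.tok (nat_lit 52) (nat_lit 0xbc0001780002fe036) (.hit (nat_lit 71) (nat_lit 39) (nat_lit 0xbc0001780002fd900) b9301 (.hit (nat_lit 72) (nat_lit 40) (nat_lit 0xbc0001780002fe036) b9302 (.nil))) (.tok (nat_lit 55) (nat_lit 0xbc0001780002ff90f) (.hit (nat_lit 73) (nat_lit 41) (nat_lit 0xbc0001780002fefd2) b9303 (.tok (nat_lit 3) (nat_lit 0xbc0001780002ff019) (.hit (nat_lit 79) (nat_lit 47) (nat_lit 0xbc0001780002fe867) b9309 (.one (nat_lit 67) (nat_lit 80) (nat_lit 48) (nat_lit 0xbc0001780002ff019) b9310 (.nil))) (.tok (nat_lit 6) (nat_lit 0xbc0001780002ff90f) (.hit (nat_lit 74) (nat_lit 42) (nat_lit 0xbc0001780002ff1c1) b9304 (.hit (nat_lit 77) (nat_lit 45) (nat_lit 0xbc0001780002fdf22) b9307 (.tok (nat_lit 55) (nat_lit 0xbc0001780002ff90f) (.hit (nat_lit 75) (nat_lit 43) (nat_lit 0xbc0001780002ff90f)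 b9305 (.hit (nat_lit 78) (nat_lit 46) (nat_lit 0xbc0001780002ff067) b9308 (.one (nat_lit 6) (nat_lit 76) (nat_lit 44) (nat_lit 0xbc0001780002ff177) b9306 (.nil)))) (.nil)))) (.nil)))) (.one (nat_lit 58) (nat_lit 81) (nat_lit 49) (nat_lit 0xbc0001780002fdfc6) b9311 (.nil)))))) (.tok (nat_lit 9) (nat_lit 0xbc000178000300000) (.hit (nat_lit 0) (nat_lit 0) (nat_lit 0xbc0001780002feb1e) b9276 (.tok (nat_lit 9) (nat_lit 0xbc0001780002ff88b) (.hit (nat_lit 1) (nat_lit 20) (nat_lit 0xbc0001780002fdf48) b9277 (.hit (nat_lit 6) (nat_lit 28) (nat_lit 0xbc0001780002fd1ef) b9280 (.tok (nat_lit 14) (nat_lit 0xbc0001780002ff88b) (.hit (nat_lit 2) (nat_lit 24) (nat_lit 0xbc0001780002ff001) b9278 (.hit (nat_lit 7) (nat_lit 30) (nat_lit 0xbc0001780002ff88b) b9281 (.one (nat_lit 6) (nat_lit 3) (nat_lit 25) (nat_lit 0xbc0001780002fef49) b9279 (.nil)))) (.one (nat_lit 56) (nat_lit 8) (nat_lit 31)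 (nat_lit 0xbc0001780002feed9) b9282 (.nil))))) (.tok (nat_lit 64) (nat_lit 0xbc0001780002ff51c) (.hit (nat_lit 10) (nat_lit 50) (nat_lit 0xbc0001780002fe509) b9283 (.hit (nat_lit 11) (nat_lit 51) (nat_lit 0xbc0001780002ff51c) b9284 (.nil))) (.tok (nat_lit 67) (nat_lit 0xbc000178000300000) (.hit (nat_lit 12) (nat_lit 52) (nat_lit 0xbc0001780002ffa9e) b9285 (.tok (nat_lit 3) (nat_lit 0xbc0001780002fffab) (.hit (nat_lit 18) (nat_lit 58) (nat_lit 0xbc0001780002fecf0) b9288 (.one (nat_lit 55) (nat_lit 19) (nat_lit 59) (nat_lit 0xbc0001780002fffab) b9289 (.nil))) (.tok (nat_lit 9) (nat_lit 0xbc000178000300000) (.hit (nat_lit 13) (nat_lit 53) (nat_lit 0xbc000178000300000) b9286 (.hit (nat_lit 16) (nat_lit 56) (nat_lit 0xbc0001780002ffc01) b9287 (.nil))) (.nil)))) (.one (nat_lit 70) (nat_lit 20) (nat_lit 60) (nat_lit 0xbc0001780002ff36a) b9290 (.nil)))))) (.nil))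
noncomputable def r20_176 : Rw Blk := .tok (nat_lit 6) (nat_lit 0x300000600000c000017fff9affe6d5f9d42bf40717ebbeafdc725fb21ebf65997fc0d2ff1d6) (.hit (nat_lit 81) (nat_lit 0) (nat_lit 0x2fe4975fcee6bf89a57f97a2ff12e5f94a0bf2fad7e9b8afd86f5f9c22bf43657f287afdcee) b17319 (.tok (nat_lit 3) (nat_lit 0x2fe8a95fe2babfadb97f44dafe7155f6774bed4d57de4b2fc18b5f7c50bef9fd7f16cafdb25) (.hit (nat_lit 82) (nat_lit 1) (nat_lit 0x2fcbb35f9952bf40597e617afca555f42babe8b617d51cafaf2e5f5796beb0897ee312fd4ff) b17320 (.one (nat_lit 14) (nat_lit 84) (nat_lit 4) (nat_lit 0x2fe8a95fe2babfadb97f44dafe7155f57c2beb5717da5eafb9b25f6c9ebeda997f16cafdb25) b17321 (.one (nat_lit 56) (nat_lit 86) (nat_lit 6) (nat_lit 0x2fe2a65fc9aebf88657f14cafe1135f6774bed4d57de4b2fc18b5f7c50bef9fd7f0632fd9d4) b17322 (.nil)))) (.tok (nat_lit 40) (nat_lit 0x2fe9365fd998bfaf1d7f495afe7a55f6c3cbede657df7d2fc3ef5f8118bf038d7efd5afd856)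 (.hit (nat_lit 100) (nat_lit 33) (nat_lit 0x2fe9365fd998bfaf1d7f495afe7a55f6c3cbede657df7d2fc3ef5f8118bf038d7e89e2fd856) b17323 (.hit (nat_lit 101) (nat_lit 34) (nat_lit 0x2fe3215fcd52bf80057f18a2fe18e5f5fc8bec57d7dc602fbdb55f74a4beeaa57efd5afd786) b17324 (.nil))) (.tok (nat_lit 43) (nat_lit 0x2fe6de600000bfbc957fb5caff38d5f917abf28e17e8ccafd68e5fa656bf4e097f3b8afe459) (.hit (nat_lit 102) (nat_lit 35) (nat_lit 0x2fe6de600000bfbc957fb5caff38d5f917abf28e17e8ccafd68e5fa656bf4e097f3b8afe459) b17327 (.hit (nat_lit 103) (nat_lit 36) (nat_lit 0x2fd94f5fcbc0bf72e17f4fd2fe8205f7e50bf028d7e4022fccf95f932cbf27b57f332afdf53) b17328 (.nil))) (.tok (nat_lit 46) (nat_lit 0x3000005ffc7ec000017fff9affe6d5f9d42bf40717ebbeafdc725fb21ebf65997fc0d2ff1d6) (.hit (nat_lit 104) (nat_lit 37) (nat_lit 0x2fe8c85fc926bfeca17fcb9aff7995f9d42bf40717ebbeafdc725fb21ebf65997fc0d2ff1d6) b17325 (.hit (nat_lit 105)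 (nat_lit 38) (nat_lit 0x3000005ffc7ec000017fff9affe6d5f8968bf18bd7e6c82fd2855f9e44bf3de57fb872fef47) b17326 (.nil))) (.nil)))))) (.tok (nat_lit 9) (nat_lit 0x300000600000c0000180000300000600cb4c0194d8000030000060086cc020e180000300000) (.hit (nat_lit 157) (nat_lit 0) (nat_lit 0x2fe4975fcee6bf89a57f89b2fef435fa76ebf55fd7ea1bafd6225fbb46bf6a8d7f14c2fdb23) b17309 (.tok (nat_lit 3) (nat_lit 0x2fe8a95fe2babfadb97f415afe66a5fcf9ebfa8997f250afe4395fe21cbfa0197ff2cafe84c) (.hit (nat_lit 158) (nat_lit 1) (nat_lit 0x2fcbb35f9952bf40597e617afca555f915ebf17797e6b0afc4a15fa9e2bf37057f387afd702) b17310 (.one (nat_lit 14) (nat_lit 160) (nat_lit 4) (nat_lit 0x2fe8a95fe2babfadb97f415afe66a5fcf9ebfa8997f250afe4395fe21cbfa0197f6a7afe84c) b17311 (.one (nat_lit 68) (nat_lit 161) (nat_lit 5) (nat_lit 0x2fe2a65fc9aebf88657f170afe1185fba0cbf81917ef00afdb545fd3fcbf89357ff2cafe3b1) b17312 (.nil)))) (.tok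 (nat_lit 40) (nat_lit 0x2fe9365fd998bfaf1d7f4982fe7a55fc002bf89e57f170afe23f5fc954bf8ea97f3212fe1fe) (.hit (nat_lit 176) (nat_lit 33) (nat_lit 0x2fe9365fd998bfaf1d7f4982fe7a55f9faebf4e857f085afe23f5fae06bf870d7e89e2fe1b9) b17313 (.hit (nat_lit 177) (nat_lit 34) (nat_lit 0x2fe3215fcd52bf80057f1a12fe1945fc002bf89e57f170afe02e5fc954bf8ea97f3212fe1fe) b17314 (.nil))) (.tok (nat_lit 43) (nat_lit 0x3000005ffc7ec0000180000300000600cb4c0194d8000030000060086cc020e180000300000) (.hit (nat_lit 178) (nat_lit 35) (nat_lit 0x2fe8c85fc926bfeca17fcb9aff7995f9d42bf40717ebbeafdc725fb21ebf6599800002ff791) b17317 (.hit (nat_lit 179) (nat_lit 36) (nat_lit 0x3000005ffc7ec0000180000300000600cb4c0194d8000030000060086cc020e17f9c6b00000) b17318 (.nil))) (.tok (nat_lit 46) (nat_lit 0x2fe6de600000bfbc957fbc92ff2975fad4cbf69957f2e92fdfcc5fb2ecbf9b7d7fc372fe4e5) (.hit (nat_lit 180) (nat_lit 37) (nat_lit 0x2fe6de600000bfbc957fbc92ff2975fad4cbf69957f2e92fdfcc5fb2ecbf9b7d7f4402fe04c)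 b17315 (.hit (nat_lit 181) (nat_lit 38) (nat_lit 0x2fd94f5fcbc0bf72e17f4fd2fe8205fa562bf61ed7ec49afd7f35fa1a8bf6a917fc372fe4e5) b17316 (.nil))) (.nil)))))) (.nil))
noncomputable def r20_177 : Rw Blk := .tok (nat_lit 3) (nat_lit 0xbc0001780002fedc0) (.hit (nat_lit 61) (nat_lit 0) (nat_lit 0xbc0001780002fd4cf) b17428 (.tok (nat_lit 14) (nat_lit 0xbc0001780002fedc0) (.hit (nat_lit 82) (nat_lit 61) (nat_lit 0xbc0001780002fe59e) b17429 (.one (nat_lit 3) (nat_lit 83) (nat_lit 62) (nat_lit 0xbc0001780002fcdf6) b17430 (.tok (nat_lit 6) (nat_lit 0xbc0001780002fd281) (.hit (nat_lit 86) (nat_lit 65) (nat_lit 0xbc0001780002fd1a6) b17431 (.hit (nat_lit 87) (nat_lit 66) (nat_lit 0xbc0001780002fd281) b17432 (.nil))) (.tok (nat_lit 9) (nat_lit 0xbc0001780002fedc0) (.hit (nat_lit 84) (nat_lit 63) (nat_lit 0xbc0001780002fedc0) b17433 (.hit (nat_lit 85) (nat_lit 64) (nat_lit 0xbc0001780002fd0b3)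 b17434 (.nil))) (.nil))))) (.one (nat_lit 17) (nat_lit 88) (nat_lit 67) (nat_lit 0xbc0001780002fc998) b17435 (.tok (nat_lit 20) (nat_lit 0xbc0001780002fcfc1) (.hit (nat_lit 89) (nat_lit 68) (nat_lit 0xbc0001780002fcfc1) b17438 (.hit (nat_lit 90) (nat_lit 69) (nat_lit 0xbc0001780002fc7a1) b17439 (.nil))) (.tok (nat_lit 23) (nat_lit 0xbc0001780002fd5e6) (.hit (nat_lit 91) (nat_lit 70) (nat_lit 0xbc0001780002fd5e6) b17436 (.hit (nat_lit 92) (nat_lit 71) (nat_lit 0xbc0001780002fc7c1) b17437 (.nil))) (.one (nat_lit 26) (nat_lit 93) (nat_lit 72) (nat_lit 0xbc0001780002fb526) b17440 (.one (nat_lit 29) (nat_lit 94) (nat_lit 73) (nat_lit 0xbc0001780002fb7b1) b17441 (.one (nat_lit 32) (nat_lit 95) (nat_lit 74) (nat_lit 0xbc0001780002fc0e0) b17443 (.one (nat_lit 35) (nat_lit 96) (nat_lit 75) (nat_lit 0xbc0001780002fbbd2) b17442 (.one (nat_lit 38) (nat_lit 97) (nat_lit 76) (nat_lit 0xbc0001780002fc6b8)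 b17444 (.tok (nat_lit 41) (nat_lit 0xbc0001780002fc4f3) (.hit (nat_lit 98) (nat_lit 77) (nat_lit 0xbc0001780002fae77) b17445 (.hit (nat_lit 99) (nat_lit 78) (nat_lit 0xbc0001780002fc4f3) b17446 (.nil))) (.tok (nat_lit 44) (nat_lit 0xbc0001780002fbf20) (.hit (nat_lit 100) (nat_lit 79) (nat_lit 0xbc0001780002fb28b) b17449 (.hit (nat_lit 101) (nat_lit 80) (nat_lit 0xbc0001780002fbf20) b17450 (.nil))) (.tok (nat_lit 47) (nat_lit 0xbc0001780002fc00d) (.hit (nat_lit 102) (nat_lit 81) (nat_lit 0xbc0001780002fbf13) b17447 (.hit (nat_lit 103) (nat_lit 82) (nat_lit 0xbc0001780002fc00d) b17448 (.nil))) (.one (nat_lit 50) (nat_lit 104) (nat_lit 83) (nat_lit 0xbc0001780002fc73a) b17451 (.tok (nat_lit 53) (nat_lit 0xbc0001780002fca85) (.hit (nat_lit 105) (nat_lit 84) (nat_lit 0xbc0001780002fca85) b17452 (.hit (nat_lit 106) (nat_lit 85) (nat_lit 0xbc0001780002fc3ad) b17453 (.nil))) (.tok (nat_lit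 56) (nat_lit 0xbc0001780002fe59b) (.hit (nat_lit 107) (nat_lit 86) (nat_lit 0xbc0001780002fde57) b17454 (.one (nat_lit 3) (nat_lit 111) (nat_lit 90) (nat_lit 0xbc0001780002fd254) b17458 (.tok (nat_lit 6) (nat_lit 0xbc0001780002fe59b) (.hit (nat_lit 109) (nat_lit 88) (nat_lit 0xbc0001780002fe59b) b17456 (.hit (nat_lit 110) (nat_lit 89) (nat_lit 0xbc0001780002fd288) b17457 (.nil))) (.one (nat_lit 9) (nat_lit 108) (nat_lit 87) (nat_lit 0xbc0001780002fd55b) b17455 (.nil))))) (.one (nat_lit 59) (nat_lit 112) (nat_lit 91) (nat_lit 0xbc0001780002fb2eb) b17459 (.nil)))))))))))))))))) (.tok (nat_lit 40) (nat_lit 0xbc000178000303d3f) (.hit (nat_lit 245) (nat_lit 0) (nat_lit 0xbc000178000301c15) b17460 (.tok (nat_lit 6) (nat_lit 0xbc000178000303d3f) (.hit (nat_lit 246) (nat_lit 7) (nat_lit 0xbc000178000303d3f) b17463 (.hit (nat_lit 247) (nat_lit 15) (nat_lit 0xbc0001780002ff4be) b17464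 (.nil))) (.tok (nat_lit 9) (nat_lit 0xbc00017800030071f) (.hit (nat_lit 248) (nat_lit 20) (nat_lit 0xbc00017800030071f) b17461 (.hit (nat_lit 249) (nat_lit 28) (nat_lit 0xbc0001780002ff66c) b17462 (.nil))) (.nil)))) (.tok (nat_lit 43) (nat_lit 0xbc000178000303654) (.hit (nat_lit 270) (nat_lit 0) (nat_lit 0xbc00017800030043d) b17470 (.tok (nat_lit 3) (nat_lit 0xbc000178000303654) (.hit (nat_lit 271) (nat_lit 1) (nat_lit 0xbc0001780002ff634) b17471 (.one (nat_lit 67) (nat_lit 272) (nat_lit 2) (nat_lit 0xbc000178000303654) b17472 (.nil))) (.tok (nat_lit 6) (nat_lit 0xbc000178000301f7f) (.hit (nat_lit 273) (nat_lit 7) (nat_lit 0xbc0001780002fe070) b17473 (.hit (nat_lit 276) (nat_lit 15) (nat_lit 0xbc0001780002ff242) b17476 (.tok (nat_lit 55) (nat_lit 0xbc000178000301f7f) (.hit (nat_lit 274) (nat_lit 8) (nat_lit 0xbc0001780002ff580) b17474 (.hit (nat_lit 277) (nat_lit 16) (nat_lit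 0xbc000178000301f7f) b17477 (.one (nat_lit 6) (nat_lit 275) (nat_lit 9) (nat_lit 0xbc000178000301796) b17475 (.nil)))) (.nil)))) (.nil)))) (.tok (nat_lit 46) (nat_lit 0xbc0001780003009fb) (.hit (nat_lit 256) (nat_lit 0) (nat_lit 0xbc0001780003009fb) b17465 (.tok (nat_lit 3) (nat_lit 0xbc0001780002fe8df) (.hit (nat_lit 257) (nat_lit 1) (nat_lit 0xbc0001780002fd0ee) b17466 (.one (nat_lit 55) (nat_lit 258) (nat_lit 3) (nat_lit 0xbc0001780002fe8df) b17467 (.nil))) (.tok (nat_lit 9) (nat_lit 0xbc0001780002fd8b8) (.hit (nat_lit 259) (nat_lit 20) (nat_lit 0xbc0001780002fd8b8) b17468 (.hit (nat_lit 262) (nat_lit 28) (nat_lit 0xbc0001780002fd389) b17469 (.nil))) (.nil)))) (.nil))))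
noncomputable def r20_178 : Rw Blk := .tok (nat_lit 3) (nat_lit 0x5e0000bc00017f2912fefbc) (.hit (nat_lit 61) (nat_lit 0) (nat_lit 0x5e0000bc00017e663afdbaf) b17478 (.tok (nat_lit 14) (nat_lit 0x5e0000bc00017f2912fefbc) (.hit (nat_lit 82) (nat_lit 61) (nat_lit 0x5e0000bc00017ef282fed13) b17479 (.one (nat_lit 3) (nat_lit 83) (nat_lit 62) (nat_lit 0x5e0000bc00017e860afde74) b17480 (.tok (nat_lit 6) (nat_lit 0x5e0000bc00017eebaafefbc) (.hit (nat_lit 86) (nat_lit 65) (nat_lit 0x5e0000bc00017eebaafefbc) b17481 (.hit (nat_lit 87) (nat_lit 66) (nat_lit 0x5e0000bc00017e54e2fd84f) b17482 (.nil))) (.tok (nat_lit 9) (nat_lit 0x5e0000bc00017f2912fee35) (.hit (nat_lit 84) (nat_lit 63) (nat_lit 0x5e0000bc00017f2912fee35) b17483 (.hit (nat_lit 85) (nat_lit 64) (nat_lit 0x5e0000bc00017ed24afe7fc) b17484 (.nil))) (.nil))))) (.one (nat_lit 17) (nat_lit 88) (nat_lit 67) (nat_lit 0x5e0000bc00017e4d6afd760)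 b17485 (.tok (nat_lit 20) (nat_lit 0x5e0000bc00017e201afd1b6) (.hit (nat_lit 89) (nat_lit 68) (nat_lit 0x5e0000bc00017e201afd1b6) b17488 (.hit (nat_lit 90) (nat_lit 69) (nat_lit 0x5e0000bc00017dddd2fc96d) b17487 (.nil))) (.tok (nat_lit 23) (nat_lit 0x5e0000bc00017e17eafd0b0) (.hit (nat_lit 91) (nat_lit 70) (nat_lit 0x5e0000bc00017e17eafd0b0) b17486 (.hit (nat_lit 92) (nat_lit 71) (nat_lit 0x5e0000bc00017dddd2fc96d) b17487 (.nil))) (.one (nat_lit 26) (nat_lit 93) (nat_lit 72) (nat_lit 0x5e0000bc00017d8212fbdf5) b17489 (.one (nat_lit 29) (nat_lit 94) (nat_lit 73) (nat_lit 0x5e0000bc00017d87f2fbeb1) b17490 (.one (nat_lit 32) (nat_lit 95) (nat_lit 74) (nat_lit 0x5e0000bc00017daf5afc39e) b17492 (.one (nat_lit 35) (nat_lit 96) (nat_lit 75) (nat_lit 0x5e0000bc00017d619afb9e6) b17491 (.one (nat_lit 38) (nat_lit 97) (nat_lit 76) (nat_lit 0x5e0000bc00017de71afca96) b17493 (.tok (nat_lit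 41) (nat_lit 0x5e0000bc00017e288afd2c4) (.hit (nat_lit 98) (nat_lit 77) (nat_lit 0x5e0000bc00017d0e8afaf84) b17494 (.hit (nat_lit 99) (nat_lit 78) (nat_lit 0x5e0000bc00017e288afd2c4) b17495 (.nil))) (.tok (nat_lit 44) (nat_lit 0x5e0000bc00017db342fc41b) (.hit (nat_lit 100) (nat_lit 79) (nat_lit 0x5e0000bc00017d5d92fb965) b17498 (.hit (nat_lit 101) (nat_lit 80) (nat_lit 0x5e0000bc00017db342fc41b) b17499 (.nil))) (.tok (nat_lit 47) (nat_lit 0x5e0000bc00017de81afcab6) (.hit (nat_lit 102) (nat_lit 81) (nat_lit 0x5e0000bc00017d89a2fbee7) b17496 (.hit (nat_lit 103) (nat_lit 82) (nat_lit 0x5e0000bc00017de81afcab6) b17497 (.nil))) (.one (nat_lit 50) (nat_lit 104) (nat_lit 83) (nat_lit 0x5e0000bc00017dd2dafc80e) b17500 (.tok (nat_lit 53) (nat_lit 0x5e0000bc00017e1fb2fd1a9) (.hit (nat_lit 105) (nat_lit 84) (nat_lit 0x5e0000bc00017def0afcb94) b17501 (.hit (nat_lit 106) (nat_lit 85) (nat_lit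 0x5e0000bc00017e1fb2fd1a9) b17502 (.nil))) (.tok (nat_lit 56) (nat_lit 0x5e0000bc00017ef222fe999) (.hit (nat_lit 107) (nat_lit 86) (nat_lit 0x5e0000bc00017ee17afe970) b17503 (.one (nat_lit 3) (nat_lit 111) (nat_lit 90) (nat_lit 0x5e0000bc00017e66e2fda8f) b17507 (.tok (nat_lit 6) (nat_lit 0x5e0000bc00017ef222fe999) (.hit (nat_lit 109) (nat_lit 88) (nat_lit 0x5e0000bc00017ef222fe999) b17505 (.hit (nat_lit 110) (nat_lit 89) (nat_lit 0x5e0000bc00017e1d32fd159) b17506 (.nil))) (.one (nat_lit 9) (nat_lit 108) (nat_lit 87) (nat_lit 0x5e0000bc00017e63cafda2c) b17504 (.nil))))) (.one (nat_lit 59) (nat_lit 112) (nat_lit 91) (nat_lit 0x5e0000bc00017d3ddafb56e) b17508 (.nil)))))))))))))))))) (.tok (nat_lit 40) (nat_lit 0x5e0000bc0001804073015ea) (.hit (nat_lit 245) (nat_lit 0) (nat_lit 0x5e0000bc0001804073015ea) b17509 (.tok (nat_lit 6) (nat_lit 0x5e0000bc000180053b00d61) (.hit (nat_lit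 246) (nat_lit 7) (nat_lit 0x5e0000bc000180053b00d61) b17512 (.hit (nat_lit 247) (nat_lit 15) (nat_lit 0x5e0000bc00017f96a3001a3) b17513 (.nil))) (.tok (nat_lit 9) (nat_lit 0x5e0000bc00017ffab300c83) (.hit (nat_lit 248) (nat_lit 20) (nat_lit 0x5e0000bc00017ffab300c83) b17510 (.hit (nat_lit 249) (nat_lit 28) (nat_lit 0x5e0000bc00017f7d3afff50) b17511 (.nil))) (.nil)))) (.tok (nat_lit 43) (nat_lit 0x5e0000bc000180bf0b02289) (.hit (nat_lit 270) (nat_lit 0) (nat_lit 0x5e0000bc00017fa47b0035f) b17519 (.tok (nat_lit 3) (nat_lit 0x5e0000bc000180bf0b02289) (.hit (nat_lit 271) (nat_lit 1) (nat_lit 0x5e0000bc00017f432affd8e) b17520 (.one (nat_lit 67) (nat_lit 272) (nat_lit 2) (nat_lit 0x5e0000bc000180bf0b02289) b17521 (.nil))) (.tok (nat_lit 6) (nat_lit 0x5e0000bc0001806c730124c) (.hit (nat_lit 273) (nat_lit 7) (nat_lit 0x5e0000bc00017f293afee4b) b17522 (.hit (nat_lit 276) (nat_lit 15)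 (nat_lit 0x5e0000bc00017f22eaff41e) b17525 (.tok (nat_lit 55) (nat_lit 0x5e0000bc0001806c730124c) (.hit (nat_lit 274) (nat_lit 8) (nat_lit 0x5e0000bc00017fe82b009ca) b17523 (.hit (nat_lit 277) (nat_lit 16) (nat_lit 0x5e0000bc00018030f3010fc) b17526 (.one (nat_lit 6) (nat_lit 275) (nat_lit 9) (nat_lit 0x5e0000bc0001806c730124c) b17524 (.nil)))) (.nil)))) (.nil)))) (.tok (nat_lit 46) (nat_lit 0x5e0000bc00018032db00f71) (.hit (nat_lit 256) (nat_lit 0) (nat_lit 0x5e0000bc00018004e300d50) b17514 (.tok (nat_lit 3) (nat_lit 0x5e0000bc00017ff8db00f71) (.hit (nat_lit 257) (nat_lit 1) (nat_lit 0x5e0000bc00017f38aafefdf) b17515 (.one (nat_lit 55) (nat_lit 258) (nat_lit 3) (nat_lit 0x5e0000bc00017ff8db00f71) b17516 (.nil))) (.tok (nat_lit 9) (nat_lit 0x5e0000bc00018032db00e7e) (.hit (nat_lit 259) (nat_lit 20) (nat_lit 0x5e0000bc00018032db00e7e) b17517 (.hit (nat_lit 262) (nat_lit 28) (nat_lit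 0x5e0000bc00017fd4b3007e7) b17518 (.nil))) (.nil)))) (.nil))))
noncomputable def r20_179 : Rw Blk := .tok (nat_lit 3) (nat_lit 0x5e0000bc00017ede32feca2) (.hit (nat_lit 61) (nat_lit 0) (nat_lit 0x5e0000bc00017e16aafdd9b) b17329 (.tok (nat_lit 14) (nat_lit 0x5e0000bc00017ede32feca2) (.hit (nat_lit 82) (nat_lit 61) (nat_lit 0x5e0000bc00017e9d22feca2) b17330 (.one (nat_lit 3) (nat_lit 83) (nat_lit 62) (nat_lit 0x5e0000bc00017ddfe2fcc6e) b17331 (.tok (nat_lit 6) (nat_lit 0x5e0000bc00017ede32fec5b) (.hit (nat_lit 86) (nat_lit 65) (nat_lit 0x5e0000bc00017ede32fec5b) b17332 (.hit (nat_lit 87) (nat_lit 66) (nat_lit 0x5e0000bc00017df5cafcf2b) b17333 (.nil))) (.tok (nat_lit 9) (nat_lit 0x5e0000bc00017e043afd0f9) (.hit (nat_lit 84) (nat_lit 63) (nat_lit 0x5e0000bc00017dfd62fd01e) b17334 (.hit (nat_lit 85) (nat_lit 64) (nat_lit 0x5e0000bc00017e043afd0f9) b17335 (.nil))) (.nil))))) (.one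 (nat_lit 17) (nat_lit 88) (nat_lit 67) (nat_lit 0x5e0000bc00017dbcf2fc810) b17336 (.tok (nat_lit 20) (nat_lit 0x5e0000bc00017e1f62fd45e) (.hit (nat_lit 89) (nat_lit 68) (nat_lit 0x5e0000bc00017e1f62fd45e) b17339 (.hit (nat_lit 90) (nat_lit 69) (nat_lit 0x5e0000bc00017dae3afc639) b17340 (.nil))) (.tok (nat_lit 23) (nat_lit 0x5e0000bc00017dee3afce39) (.hit (nat_lit 91) (nat_lit 70) (nat_lit 0x5e0000bc00017dee3afce39) b17337 (.hit (nat_lit 92) (nat_lit 71) (nat_lit 0x5e0000bc00017dad3afc619) b17338 (.nil))) (.one (nat_lit 26) (nat_lit 93) (nat_lit 72) (nat_lit 0x5e0000bc00017d1962fb39e) b17341 (.one (nat_lit 29) (nat_lit 94) (nat_lit 73) (nat_lit 0x5e0000bc00017d2dbafb629) b17342 (.one (nat_lit 32) (nat_lit 95) (nat_lit 74) (nat_lit 0x5e0000bc00017d4ec2fba4a) b17344 (.one (nat_lit 35) (nat_lit 96) (nat_lit 75) (nat_lit 0x5e0000bc00017d7732fbf58) b17343 (.one (nat_lit 38) (nat_lit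 97) (nat_lit 76) (nat_lit 0x5e0000bc00017da5f2fc530) b17345 (.tok (nat_lit 41) (nat_lit 0x5e0000bc00017d97cafc36b) (.hit (nat_lit 98) (nat_lit 77) (nat_lit 0x5e0000bc00017ce3eafacef) b17346 (.hit (nat_lit 99) (nat_lit 78) (nat_lit 0x5e0000bc00017d97cafc36b) b17347 (.nil))) (.tok (nat_lit 44) (nat_lit 0x5e0000bc00017d709afbe85) (.hit (nat_lit 100) (nat_lit 79) (nat_lit 0x5e0000bc00017d68cafbd8b) b17350 (.hit (nat_lit 101) (nat_lit 80) (nat_lit 0x5e0000bc00017d709afbe85) b17351 (.nil))) (.tok (nat_lit 47) (nat_lit 0x5e0000bc00017d6932fbd98) (.hit (nat_lit 102) (nat_lit 81) (nat_lit 0x5e0000bc00017d048afb103) b17348 (.hit (nat_lit 103) (nat_lit 82) (nat_lit 0x5e0000bc00017d6932fbd98) b17349 (.nil))) (.one (nat_lit 62) (nat_lit 113) (nat_lit 92) (nat_lit 0x5e0000bc00017daa02fc5b2) b17352 (.tok (nat_lit 65) (nat_lit 0x5e0000bc00017dc45afc8fd) (.hit (nat_lit 114) (nat_lit 93) (nat_lit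 0x5e0000bc00017dc45afc8fd) b17353 (.hit (nat_lit 115) (nat_lit 94) (nat_lit 0x5e0000bc00017d8d9afc225) b17354 (.nil))) (.tok (nat_lit 68) (nat_lit 0x5e0000bc00017e9d0afeaed) (.hit (nat_lit 116) (nat_lit 95) (nat_lit 0x5e0000bc00017e62eafeaed) b17355 (.one (nat_lit 3) (nat_lit 120) (nat_lit 99) (nat_lit 0x5e0000bc00017e02d2fd0cc) b17359 (.one (nat_lit 6) (nat_lit 117) (nat_lit 96) (nat_lit 0x5e0000bc00017e1b0afd3d3) b17356 (.tok (nat_lit 9) (nat_lit 0x5e0000bc00017e9d0afe395) (.hit (nat_lit 118) (nat_lit 97) (nat_lit 0x5e0000bc00017e9d0afe395) b17357 (.hit (nat_lit 119) (nat_lit 98) (nat_lit 0x5e0000bc00017e0472fd100) b17358 (.nil))) (.nil))))) (.one (nat_lit 71) (nat_lit 121) (nat_lit 100) (nat_lit 0x5e0000bc00017d078afb163) b17360 (.nil)))))))))))))))))) (.tok (nat_lit 40) (nat_lit 0x5e0000bc0001815a2b04025) (.hit (nat_lit 221) (nat_lit 0) (nat_lit 0x5e0000bc00018050db00ef4)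 b17361 (.tok (nat_lit 6) (nat_lit 0x5e0000bc00017fa92aff414) (.hit (nat_lit 222) (nat_lit 7) (nat_lit 0x5e0000bc00017fa92aff414) b17364 (.hit (nat_lit 223) (nat_lit 15) (nat_lit 0x5e0000bc00017f2392ff40a) b17365 (.nil))) (.tok (nat_lit 9) (nat_lit 0x5e0000bc0001815a2b04025) (.hit (nat_lit 224) (nat_lit 20) (nat_lit 0x5e0000bc0001815a2b04025) b17362 (.hit (nat_lit 225) (nat_lit 28) (nat_lit 0x5e0000bc00017f1622ff037) b17363 (.nil))) (.nil)))) (.tok (nat_lit 43) (nat_lit 0x5e0000bc00017fc00afff96) (.hit (nat_lit 232) (nat_lit 0) (nat_lit 0x5e0000bc00017fc00afff96) b17366 (.tok (nat_lit 3) (nat_lit 0x5e0000bc00017eb72afe24e) (.hit (nat_lit 233) (nat_lit 1) (nat_lit 0x5e0000bc00017df7a2fca5d) b17367 (.one (nat_lit 67) (nat_lit 234) (nat_lit 2) (nat_lit 0x5e0000bc00017eb72afe24e) b17368 (.nil))) (.tok (nat_lit 6) (nat_lit 0x5e0000bc00017e35f2fd227) (.hit (nat_lit 235) (nat_lit 7)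 (nat_lit 0x5e0000bc00017e35f2fd227) b17369 (.hit (nat_lit 238) (nat_lit 15) (nat_lit 0x5e0000bc00017e0c7afccf8) b17370 (.nil))) (.nil)))) (.tok (nat_lit 46) (nat_lit 0x5e0000bc00018122d3025fb) (.hit (nat_lit 246) (nat_lit 0) (nat_lit 0x5e0000bc00017f921aff59a) b17371 (.tok (nat_lit 3) (nat_lit 0x5e0000bc00018122d3025fb) (.hit (nat_lit 247) (nat_lit 1) (nat_lit 0x5e0000bc00017f21d2fe5c7) b17372 (.one (nat_lit 55) (nat_lit 248) (nat_lit 3) (nat_lit 0x5e0000bc00018122d3025fb) b17373 (.nil))) (.tok (nat_lit 9) (nat_lit 0x5e0000bc0001806c2b0120c) (.hit (nat_lit 249) (nat_lit 20) (nat_lit 0x5e0000bc00017e73b2fced6) b17374 (.hit (nat_lit 252) (nat_lit 28) (nat_lit 0x5e0000bc00017f0242fdaba) b17377 (.tok (nat_lit 67) (nat_lit 0x5e0000bc0001806c2b0120c) (.hit (nat_lit 250) (nat_lit 21) (nat_lit 0x5e0000bc00017f1c32ff71b) b17375 (.hit (nat_lit 253) (nat_lit 29) (nat_lit 0x5e0000bc0001806c2b011d7)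 b17378 (.one (nat_lit 9) (nat_lit 251) (nat_lit 22) (nat_lit 0x5e0000bc0001802ce30120c) b17376 (.nil)))) (.nil)))) (.nil)))) (.nil))))
noncomputable def r20_180 : Rw Blk := .tok (nat_lit 3) (nat_lit 0x5e0000bc00017ee202ff461) (.hit (nat_lit 61) (nat_lit 0) (nat_lit 0x5e0000bc00017e1f2afe5ce) b17379 (.tok (nat_lit 14) (nat_lit 0x5e0000bc00017ee202ff461) (.hit (nat_lit 82) (nat_lit 61) (nat_lit 0x5e0000bc00017eab72ff461) b17380 (.one (nat_lit 3) (nat_lit 83) (nat_lit 62) (nat_lit 0x5e0000bc00017e3efafe1fb) b17381 (.tok (nat_lit 6) (nat_lit 0x5e0000bc00017ee202ff1af) (.hit (nat_lit 86) (nat_lit 65) (nat_lit 0x5e0000bc00017ee202ff1af) b17382 (.hit (nat_lit 87) (nat_lit 66) (nat_lit 0x5e0000bc00017e8b3afeb83) b17383 (.nil))) (.tok (nat_lit 9) (nat_lit 0x5e0000bc00017ea49afe846) (.hit (nat_lit 84) (nat_lit 63) (nat_lit 0x5e0000bc00017ea49afe846) b17384 (.hit (nat_lit 85) (nat_lit 64)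 (nat_lit 0x5e0000bc00017e0dd2fdbd6) b17385 (.nil))) (.nil))))) (.one (nat_lit 17) (nat_lit 88) (nat_lit 67) (nat_lit 0x5e0000bc00017e065afdae7) b17386 (.tok (nat_lit 20) (nat_lit 0x5e0000bc00017dd0dafd437) (.hit (nat_lit 89) (nat_lit 68) (nat_lit 0x5e0000bc00017dd0dafd437) b17389 (.hit (nat_lit 90) (nat_lit 69) (nat_lit 0x5e0000bc00017d96c2fccf4) b17388 (.nil))) (.tok (nat_lit 23) (nat_lit 0x5e0000bc00017dd90afd53d) (.hit (nat_lit 91) (nat_lit 70) (nat_lit 0x5e0000bc00017dd90afd53d) b17387 (.hit (nat_lit 92) (nat_lit 71) (nat_lit 0x5e0000bc00017d96c2fccf4) b17388 (.nil))) (.one (nat_lit 26) (nat_lit 93) (nat_lit 72) (nat_lit 0x5e0000bc00017d3b02fc17c) b17390 (.one (nat_lit 29) (nat_lit 94) (nat_lit 73) (nat_lit 0x5e0000bc00017d40e2fc238) b17391 (.one (nat_lit 32) (nat_lit 95) (nat_lit 74) (nat_lit 0x5e0000bc00017d1a8afbd6d) b17393 (.one (nat_lit 35) (nat_lit 96) (nat_lit 75)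 (nat_lit 0x5e0000bc00017d684afc725) b17392 (.one (nat_lit 38) (nat_lit 97) (nat_lit 76) (nat_lit 0x5e0000bc00017da00afce1d) b17394 (.tok (nat_lit 41) (nat_lit 0x5e0000bc00017de17afd64b) (.hit (nat_lit 98) (nat_lit 77) (nat_lit 0x5e0000bc00017cc77afb30b) b17395 (.hit (nat_lit 99) (nat_lit 78) (nat_lit 0x5e0000bc00017de17afd64b) b17396 (.nil))) (.tok (nat_lit 44) (nat_lit 0x5e0000bc00017da10afce3d) (.hit (nat_lit 100) (nat_lit 79) (nat_lit 0x5e0000bc00017d4292fc26e) b17399 (.hit (nat_lit 101) (nat_lit 80) (nat_lit 0x5e0000bc00017da10afce3d) b17400 (.nil))) (.tok (nat_lit 47) (nat_lit 0x5e0000bc00017d6c32fc7a2) (.hit (nat_lit 102) (nat_lit 81) (nat_lit 0x5e0000bc00017d1682fbcec) b17397 (.hit (nat_lit 103) (nat_lit 82) (nat_lit 0x5e0000bc00017d6c32fc7a2) b17398 (.nil))) (.one (nat_lit 62) (nat_lit 113) (nat_lit 92) (nat_lit 0x5e0000bc00017d8bcafcb95) b17401 (.tok (nat_lit 65) (nat_lit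 0x5e0000bc00017dd8a2fd530) (.hit (nat_lit 114) (nat_lit 93) (nat_lit 0x5e0000bc00017da7fafcf1b) b17402 (.hit (nat_lit 115) (nat_lit 94) (nat_lit 0x5e0000bc00017dd8a2fd530) b17403 (.nil))) (.tok (nat_lit 68) (nat_lit 0x5e0000bc00017eab12fef84) (.hit (nat_lit 116) (nat_lit 95) (nat_lit 0x5e0000bc00017e9a6afef84) b17404 (.one (nat_lit 3) (nat_lit 120) (nat_lit 99) (nat_lit 0x5e0000bc00017e1fd2fde16) b17408 (.one (nat_lit 6) (nat_lit 117) (nat_lit 96) (nat_lit 0x5e0000bc00017e1cbafddb3) b17405 (.tok (nat_lit 9) (nat_lit 0x5e0000bc00017eab12fea39) (.hit (nat_lit 118) (nat_lit 97) (nat_lit 0x5e0000bc00017eab12fea39) b17406 (.hit (nat_lit 119) (nat_lit 98) (nat_lit 0x5e0000bc00017dd622fd4e0) b17407 (.nil))) (.nil))))) (.one (nat_lit 71) (nat_lit 121) (nat_lit 100) (nat_lit 0x5e0000bc00017cf6cafb8f5) b17409 (.nil)))))))))))))))))) (.tok (nat_lit 40) (nat_lit 0x5e0000bc00017ff96300b01)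 (.hit (nat_lit 221) (nat_lit 0) (nat_lit 0x5e0000bc00017ff96300b01) b17410 (.tok (nat_lit 6) (nat_lit 0x5e0000bc00017fb3a300a5e) (.hit (nat_lit 222) (nat_lit 7) (nat_lit 0x5e0000bc00017fb3a300a5e) b17413 (.hit (nat_lit 223) (nat_lit 15) (nat_lit 0x5e0000bc00017f362aff245) b17414 (.nil))) (.tok (nat_lit 9) (nat_lit 0x5e0000bc00017fbe2b0057c) (.hit (nat_lit 224) (nat_lit 20) (nat_lit 0x5e0000bc00017fbe2b0057c) b17411 (.hit (nat_lit 225) (nat_lit 28) (nat_lit 0x5e0000bc00017f4f92ff85e) b17412 (.nil))) (.nil)))) (.tok (nat_lit 43) (nat_lit 0x5e0000bc00017febcb0121a) (.hit (nat_lit 232) (nat_lit 0) (nat_lit 0x5e0000bc00017fbdd30121a) b17415 (.tok (nat_lit 3) (nat_lit 0x5e0000bc00017fb1cb00e92) (.hit (nat_lit 233) (nat_lit 1) (nat_lit 0x5e0000bc00017ef19afec4b) b17416 (.one (nat_lit 67) (nat_lit 234) (nat_lit 2) (nat_lit 0x5e0000bc00017fb1cb00e92) b17417 (.nil))) (.tok (nat_lit 6)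 (nat_lit 0x5e0000bc00017febcb00354) (.hit (nat_lit 235) (nat_lit 7) (nat_lit 0x5e0000bc00017febcb001fc) b17418 (.hit (nat_lit 238) (nat_lit 15) (nat_lit 0x5e0000bc00017f8da300354) b17419 (.nil))) (.nil)))) (.tok (nat_lit 46) (nat_lit 0x5e0000bc00018077fb01e4d) (.hit (nat_lit 246) (nat_lit 0) (nat_lit 0x5e0000bc00017f5d6b000a5) b17420 (.tok (nat_lit 3) (nat_lit 0x5e0000bc00018077fb01e4d) (.hit (nat_lit 247) (nat_lit 1) (nat_lit 0x5e0000bc00017efc1afed5b) b17421 (.one (nat_lit 55) (nat_lit 248) (nat_lit 3) (nat_lit 0x5e0000bc00018077fb01e4d) b17422 (.nil))) (.tok (nat_lit 9) (nat_lit 0x5e0000bc000180256300e2b) (.hit (nat_lit 249) (nat_lit 20) (nat_lit 0x5e0000bc00017ee22afe8d4) b17423 (.hit (nat_lit 252) (nat_lit 28) (nat_lit 0x5e0000bc00017edbdafe2cd) b17426 (.tok (nat_lit 67) (nat_lit 0x5e0000bc000180256300e2b) (.hit (nat_lit 250) (nat_lit 21) (nat_lit 0x5e0000bc00017fa11b008db)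 b17424 (.hit (nat_lit 253) (nat_lit 29) (nat_lit 0x5e0000bc00017fe9e300e2b) b17427 (.one (nat_lit 9) (nat_lit 251) (nat_lit 22) (nat_lit 0x5e0000bc000180256300d6b) b17425 (.nil)))) (.nil)))) (.nil)))) (.nil))))

end

end Pool.Agent.Lib.MP_5854e1_co.Cz
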