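import Pool.Agent.Lib.MP_5854e1_co.RwD
import Pool.Agent.Lib.MP_5854e1_co.Cz.B00
import Pool.Agent.Lib.MP_5854e1_co.Cz.B01
import Pool.Agent.Lib.MP_5854e1_co.Cz.B02
import Pool.Agent.Lib.MP_5854e1_co.Cz.B03
import Pool.Agent.Lib.MP_5854e1_co.Cz.B04
import Pool.Agent.Lib.MP_5854e1_co.Cz.B05
import Pool.Agent.Lib.MP_5854e1_co.Cz.B06
import Pool.Agent.Lib.MP_5854e1_co.Cz.B07
import Pool.Agent.Lib.MP_5854e1_co.Cz.B08
import Pool.Agent.Lib.MP_5854e1_co.Cz.B09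
import Pool.Agent.Lib.MP_5854e1_co.Cz.B10
import Pool.Agent.Lib.MP_5854e1_co.Cz.B11
import Pool.Agent.Lib.MP_5854e1_co.Cz.B12
import Pool.Agent.Lib.MP_5854e1_co.Cz.B13
import Pool.Agent.Lib.MP_5854e1_co.Cz.B14
import Pool.Agent.Lib.MP_5854e1_co.Cz.B15
import Pool.Agent.Lib.MP_5854e1_co.Cz.B16
import Pool.Agent.Lib.MP_5854e1_co.Cz.B17
import Pool.Agent.Lib.MP_5854e1_co.Cz.B18
import Pool.Agent.Lib.MP_5854e1_co.Cz.B19
import Pool.Agent.Lib.MP_5854e1_co.Cz.B20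
import Pool.Agent.Lib.MP_5854e1_co.Cz.B21
import Pool.Agent.Lib.MP_5854e1_co.Cz.B22
import Pool.Agent.Lib.MP_5854e1_co.Cz.B23
import Pool.Agent.Lib.MP_5854e1_co.Cz.B24
import Pool.Agent.Lib.MP_5854e1_co.Cz.B25
import Pool.Agent.Lib.MP_5854e1_co.Cz.B26
import Pool.Agent.Lib.MP_5854e1_co.Cz.B27
import Pool.Agent.Lib.MP_5854e1_co.Cz.B28
import Pool.Agent.Lib.MP_5854e1_co.Cz.B29
import Pool.Agent.Lib.MP_5854e1_co.Cz.B30
import Pool.Agent.Lib.MP_5854e1_co.Cz.B31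
import Pool.Agent.Lib.MP_5854e1_co.Cz.B32
import Pool.Agent.Lib.MP_5854e1_co.Cz.B33
import Pool.Agent.Lib.MP_5854e1_co.Cz.B34
import Pool.Agent.Lib.MP_5854e1_co.Cz.B35
import Pool.Agent.Lib.MP_5854e1_co.Cz.B36
import Pool.Agent.Lib.MP_5854e1_co.Cz.B37

/-!
# Rows
-/

set_option autoImplicit false
set_option maxRecDepth 100000

namespace Pool.Agent.Lib.MP_5854e1_co.Cz

open PB

noncomputable section

noncomputable def r20_181 : Rw Blk := .tok (nat_lit 3) (nat_lit 0x2fdbc95f8d20bf7f017f101afe2595fcd82bfb0017f2fb2fe5035fc5f0bfa2f17f889afebe9) (.hit (nat_lit 0) (nat_lit 0) (nat_lit 0x2fdbc95f8d20bf7f017f101afe2595fcd82bfb0017f2fb2fe5035fc5f0bfa2f17f889afebe9) b36000 (.tok (nat_lit 6) (nat_lit 0x2fce9d5f5e9abf74a57e83fafd19e5f676ebec7197d9f4afb4bb5f71a8bf08397edc0afdd7d) (.hit (nat_lit 1) (nat_lit 7) (nat_lit 0x2fce9d5f5e9abf74a57e83fafd19e5f676ebec7197d9f4afb4bb5f71a8bf08397edc0afdd7d)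 b17530 (.hit (nat_lit 6) (nat_lit 15) (nat_lit 0x2fcc2e5f59bcbf54957e7082fcf2f5f6290bebd5d7d8bd2fb24c5f6ccabefe7d7ec6b2fdc9d) b17531 (.nil))) (.tok (nat_lit 9) (nat_lit 0x2fce9d5f5e9abf74a57e83fafd19e5f676ebec7197d9f4afb4bb5f71a8bf08397f0722fdfcc) (.hit (nat_lit 10) (nat_lit 20) (nat_lit 0x2fce9d5f5e9abf74a57e83fafd19e5f676ebec7197d9f4afb4bb5f71a8bf08397f0722fdfcc) b17528 (.hit (nat_lit 15) (nat_lit 28) (nat_lit 0x2fcc2e5f59bcbf54957e7082fcf2f5f6290bebd5d7d8bd2fb24c5f6ccabefe7d7ec6b2fdd81) b17529 (.nil))) (.nil)))) (.tok (nat_lit 6) (nat_lit 0x300000600000c000017ff70b000005fd2babfbc717f4d42fe8c15fce6cbfc1c17fd67aff1ad) (.hit (nat_lit 81) (nat_lit 0) (nat_lit 0x2ff20c5fbbd4bfacc17f920aff2995fd2babfbc717f4d42fe8c15fce60bfb90d7f9ecafec8e) b17540 (.one (nat_lit 3) (nat_lit 82) (nat_lit 1) (nat_lit 0x2fd7095f740ebf6ec97e8cc2fd1ee5f575abea6f17d5efafacb15f6194bee8117f175afd4ff) b17541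 (.tok (nat_lit 6) (nat_lit 0x300000600000c000017ff70b000005fc432bf80a17f125afe31d5fce6cbfc1c17fd67aff1ad) (.hit (nat_lit 87) (nat_lit 7) (nat_lit 0x2feafe5fb088bfa3a57efdc2fdfc75f7dd2bef3e17df8dafbfed5f880cbf35017edffafcfbf) b17542 (.hit (nat_lit 95) (nat_lit 15) (nat_lit 0x2fd93f5f7342bf4f757e99cafd38f5f466abe85117d1b3afa4395f50a4bec6317ecf92fcc1c) b17546 (.tok (nat_lit 55) (nat_lit 0x300000600000c000017ff70b000005fc432bf80a17f125afe31d5fce6cbfc1c17fd67aff1ad) (.hit (nat_lit 88) (nat_lit 8) (nat_lit 0x2ffec45fcfe8bfc3bd7fbf6aff9265fa5b2bf43a17e985afd3dd5fafecbf84c17f75aafe5fa) b17543 (.hit (nat_lit 96) (nat_lit 16) (nat_lit 0x2ff1d75fac44bfbcdd7f6f42fef075fa240bf3cbd7e8a92fd2245fac7abf7ddd7f97e2fe512) b17547 (.tok (nat_lit 6) (nat_lit 0x300000600000c000017ff70b000005fc432bf80a17f125afe31d5fce6cbfc1c17fd67aff1ad) (.hit (nat_lit 89) (nat_lit 9) (nat_lit 0x2ff4095fdf8ebfc9497f8c92ff2b15fa994bf4b657ea7e2fd5ce5fb3cebf8c857f471afe06e)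 b17544 (.one (nat_lit 55) (nat_lit 90) (nat_lit 10) (nat_lit 0x300000600000c000017ff70b000005fc432bf80a17f125afe31d5fce6cbfc1c17fd67aff1ad) b17545 (.nil))) (.nil)))) (.nil)))) (.nil)))) (.tok (nat_lit 9) (nat_lit 0x300000600000c0000180000300000601becc046b18079f300a71600d62c0444580000300fd0) (.hit (nat_lit 157) (nat_lit 0) (nat_lit 0x2ff20c5fbbd4bfacc17f90caff2725fddcabfcce17f4eeafedd75fd820bfc1357f9a22febc3) b17532 (.one (nat_lit 3) (nat_lit 158) (nat_lit 1) (nat_lit 0x2fd7095f740ebf6ec97e8ccafd1ee5fc47cbfa0257eec42fdced5fca48bf9a617f2f6afe14b) b17533 (.tok (nat_lit 9) (nat_lit 0x300000600000c0000180000300000601becc046b18079f300a71600d62c0444580000300fd0) (.hit (nat_lit 163) (nat_lit 20) (nat_lit 0x2feafe5fb088bfa3a57f310afdfc15fbe0abfa7757ef082fe1885fbb0cbf82917ecb72fe278) b17534 (.hit (nat_lit 171) (nat_lit 28) (nat_lit 0x2fd93f5f7342bf4f757e99cafd38f5fb054bf76797ec592fdb1c5fb364bf6c4d7ec0d2fd9b4)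 b17538 (.tok (nat_lit 67) (nat_lit 0x300000600000c0000180000300000601becc046b18079f300a71600d62c0444580000300fd0) (.hit (nat_lit 164) (nat_lit 21) (nat_lit 0x2ffec45fcfe8bfc3bd800002ffa8f5ff0cebff48d7fbe02ff81f5fee68bff6557f989affa89) b17535 (.hit (nat_lit 172) (nat_lit 29) (nat_lit 0x2ff1d75fac44bfbcdd7f786afef445fe366bfe9617f85b2ff5725ff2c6bfdde17fe972ff962) b17539 (.tok (nat_lit 9) (nat_lit 0x300000600000c000017ff70b00000601becc046b18079f300a71600d62c0444580000300fd0) (.hit (nat_lit 165) (nat_lit 22) (nat_lit 0x2ff4095fdf8ebfc9497f8c92ff2b15ff3d0bffa3d7fc0e2ff43e5ff67ac005f97f8b8affc09) b17536 (.one (nat_lit 67) (nat_lit 166) (nat_lit 23) (nat_lit 0x300000600000c000017ff70b00000601becc046b18079f300a71600d62c0444580000300fd0) b17537 (.nil))) (.nil)))) (.nil)))) (.nil)))) (.nil)))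
noncomputable def r20_182 : Rw Blk := .tok (nat_lit 6) (nat_lit 0x5e0000bc0001800002ffbc3) (.hit (nat_lit 51) (nat_lit 0) (nat_lit 0x5e0000bc00017fba1aff0ff) b17548 (.tok (nat_lit 3) (nat_lit 0x5e0000bc00017ff662ff2db) (.hit (nat_lit 52) (nat_lit 1) (nat_lit 0x5e0000bc00017ee65afd41e) b17549 (.one (nat_lit 14) (nat_lit 53) (nat_lit 4) (nat_lit 0x5e0000bc00017ff662ff2db) b17550 (.one (nat_lit 68) (nat_lit 54) (nat_lit 5) (nat_lit 0x5e0000bc00017f79f2feae5) b17551 (.nil)))) (.tok (nat_lit 40) (nat_lit 0x5e0000bc00017faef2fefcd) (.hit (nat_lit 56) (nat_lit 33) (nat_lit 0x5e0000bc00017faef2fefcd) b17552 (.hit (nat_lit 57) (nat_lit 34) (nat_lit 0x5e0000bc00017f9ec2fe33f) b17553 (.nil))) (.tok (nat_lit 43) (nat_lit 0x5e0000bc0001800002ffbc3) (.hit (nat_lit 58) (nat_lit 35) (nat_lit 0x5e0000bc0001800002ffbc3) b17556 (.hit (nat_lit 59) (nat_lit 36) (nat_lit 0x5e0000bc00017fb572fea3c)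 b17557 (.nil))) (.tok (nat_lit 46) (nat_lit 0x5e0000bc00017fdec2ff59b) (.hit (nat_lit 60) (nat_lit 37) (nat_lit 0x5e0000bc00017f2b7afdcd7) b17554 (.hit (nat_lit 61) (nat_lit 38) (nat_lit 0x5e0000bc00017fdec2ff59b) b17555 (.nil))) (.nil)))))) (.tok (nat_lit 9) (nat_lit 0x5e0000bc00018000030008b) (.hit (nat_lit 0) (nat_lit 0) (nat_lit 0x5e0000bc00017fba1aff3c1) b17558 (.tok (nat_lit 3) (nat_lit 0x5e0000bc00017ff662ff675) (.hit (nat_lit 1) (nat_lit 1) (nat_lit 0x5e0000bc00017ee65afd43d) b17559 (.one (nat_lit 14) (nat_lit 2) (nat_lit 4) (nat_lit 0x5e0000bc00017ff662ff675) b17560 (.one (nat_lit 56) (nat_lit 4) (nat_lit 6) (nat_lit 0x5e0000bc00017f79f2fe6fe) b17561 (.nil)))) (.tok (nat_lit 40) (nat_lit 0x5e0000bc00017faef2fefce) (.hit (nat_lit 5) (nat_lit 33) (nat_lit 0x5e0000bc00017faef2fefce) b17562 (.hit (nat_lit 6) (nat_lit 34) (nat_lit 0x5e0000bc00017f9ec2fe3dd) b17563 (.nil)))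 (.tok (nat_lit 43) (nat_lit 0x5e0000bc00017fdec2fed88) (.hit (nat_lit 7) (nat_lit 35) (nat_lit 0x5e0000bc00017f2b7afdcd7) b17554 (.hit (nat_lit 8) (nat_lit 36) (nat_lit 0x5e0000bc00017fdec2fed88) b17566 (.nil))) (.tok (nat_lit 46) (nat_lit 0x5e0000bc00018000030008b) (.hit (nat_lit 9) (nat_lit 37) (nat_lit 0x5e0000bc00018000030008b) b17564 (.hit (nat_lit 10) (nat_lit 38) (nat_lit 0x5e0000bc00017fb572fee33) b17565 (.nil))) (.nil)))))) (.nil))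
noncomputable def r20_183 : Rw Blk := .tok (nat_lit 3) (nat_lit 0xbc0001780002fd53e) (.hit (nat_lit 61) (nat_lit 0) (nat_lit 0xbc0001780002fd208) b9255 (.tok (nat_lit 9) (nat_lit 0xbc0001780002fd53e) (.hit (nat_lit 62) (nat_lit 20) (nat_lit 0xbc0001780002fbbb6) b9256 (.hit (nat_lit 67) (nat_lit 28) (nat_lit 0xbc0001780002fad94) b9261 (.tok (nat_lit 14) (nat_lit 0xbc0001780002fcdbc) (.hit (nat_lit 63) (nat_lit 24) (nat_lit 0xbc0001780002fbdc9) b9257 (.hit (nat_lit 68) (nat_lit 30) (nat_lit 0xbc0001780002fc1ab) b9262 (.one (nat_lit 6) (nat_lit 64) (nat_lit 25) (nat_lit 0xbc0001780002fcdbc) b9258 (.nil)))) (.one (nat_lit 56) (nat_lit 69) (nat_lit 31) (nat_lit 0xbc0001780002fc012) b9263 (.tok (nat_lit 68) (nat_lit 0xbc0001780002fd53e) (.hit (nat_lit 65) (nat_lit 26) (nat_lit 0xbc0001780002fcd30) b9259 (.hit (nat_lit 70) (nat_lit 32) (nat_lit 0xbc0001780002fbe92) b9264 (.one (nat_lit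 9) (nat_lit 66) (nat_lit 27) (nat_lit 0xbc0001780002fd53e) b9260 (.nil)))) (.nil)))))) (.nil))) (.tok (nat_lit 6) (nat_lit 0xbc000178000300000) (.hit (nat_lit 0) (nat_lit 0) (nat_lit 0xbc0001780002feaff) b9240 (.tok (nat_lit 6) (nat_lit 0xbc0001780002fffbd) (.hit (nat_lit 1) (nat_lit 7) (nat_lit 0xbc0001780002fd887) b9241 (.hit (nat_lit 6) (nat_lit 15) (nat_lit 0xbc0001780002fc60a) b9244 (.tok (nat_lit 14) (nat_lit 0xbc0001780002ff817) (.hit (nat_lit 2) (nat_lit 11) (nat_lit 0xbc0001780002ff817) b9242 (.hit (nat_lit 7) (nat_lit 17) (nat_lit 0xbc0001780002fe65c) b9245 (.one (nat_lit 9) (nat_lit 3) (nat_lit 12) (nat_lit 0xbc0001780002ff6cc) b9243 (.nil)))) (.tok (nat_lit 56) (nat_lit 0xbc0001780002fffbd) (.hit (nat_lit 4) (nat_lit 13) (nat_lit 0xbc0001780002fef99) b9609 (.hit (nat_lit 9) (nat_lit 19) (nat_lit 0xbc0001780002fd621) b9611 (.one (nat_lit 6) (nat_lit 5) (nat_lit 14)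 (nat_lit 0xbc0001780002fffbd) b9610 (.nil)))) (.nil))))) (.tok (nat_lit 52) (nat_lit 0xbc0001780002feaaa) (.hit (nat_lit 10) (nat_lit 39) (nat_lit 0xbc0001780002fdd77) b9247 (.hit (nat_lit 11) (nat_lit 40) (nat_lit 0xbc0001780002feaaa) b9248 (.nil))) (.tok (nat_lit 55) (nat_lit 0xbc000178000300000) (.hit (nat_lit 12) (nat_lit 41) (nat_lit 0xbc0001780002ff885) b9249 (.tok (nat_lit 3) (nat_lit 0xbc000178000300000) (.hit (nat_lit 18) (nat_lit 47) (nat_lit 0xbc0001780002fec8d) b9252 (.one (nat_lit 67) (nat_lit 19) (nat_lit 48) (nat_lit 0xbc000178000300000) b9253 (.nil))) (.tok (nat_lit 6) (nat_lit 0xbc0001780002ffc81) (.hit (nat_lit 13) (nat_lit 42) (nat_lit 0xbc0001780002fe0f2) b9250 (.hit (nat_lit 16) (nat_lit 45) (nat_lit 0xbc0001780002fece8) b9251 (.tok (nat_lit 55) (nat_lit 0xbc0001780002ffc81) (.hit (nat_lit 14) (nat_lit 43) (nat_lit 0xbc0001780002ff6bd) b9612 (.hit (nat_lit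 17) (nat_lit 46) (nat_lit 0xbc0001780002ffc81) b9614 (.one (nat_lit 6) (nat_lit 15) (nat_lit 44) (nat_lit 0xbc0001780002ff76a) b9613 (.nil)))) (.nil)))) (.nil)))) (.one (nat_lit 58) (nat_lit 20) (nat_lit 49) (nat_lit 0xbc0001780002fecd6) b9254 (.nil)))))) (.nil))
noncomputable def r20_184 : Rw Blk := .tok (nat_lit 3) (nat_lit 0x5e0000bc00017df87afdfb6) (.hit (nat_lit 61) (nat_lit 0) (nat_lit 0x5e0000bc00017dcf0afdb15) b17647 (.tok (nat_lit 9) (nat_lit 0x5e0000bc00017df87afdfb6) (.hit (nat_lit 62) (nat_lit 20) (nat_lit 0x5e0000bc00017cf792fbf99) b17648 (.hit (nat_lit 67) (nat_lit 28) (nat_lit 0x5e0000bc00017d130afc308) b17653 (.tok (nat_lit 14) (nat_lit 0x5e0000bc00017df87afdfb6) (.hit (nat_lit 63) (nat_lit 24) (nat_lit 0x5e0000bc00017da402fd527) b17649 (.hit (nat_lit 68) (nat_lit 30) (nat_lit 0x5e0000bc00017d8b8afd218) b17654 (.one (nat_lit 6) (nat_lit 64) (nat_lit 25) (nat_lit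 0x5e0000bc00017df87afdfb6) b17650 (.nil)))) (.one (nat_lit 56) (nat_lit 69) (nat_lit 31) (nat_lit 0x5e0000bc00017dc4bafd93e) b17655 (.tok (nat_lit 68) (nat_lit 0x5e0000bc00017dd22afdaec) (.hit (nat_lit 65) (nat_lit 26) (nat_lit 0x5e0000bc00017db622fd76b) b17651 (.hit (nat_lit 70) (nat_lit 32) (nat_lit 0x5e0000bc00017d9492fd339) b17656 (.one (nat_lit 9) (nat_lit 66) (nat_lit 27) (nat_lit 0x5e0000bc00017dd22afdaec) b17652 (.nil)))) (.nil)))))) (.nil))) (.tok (nat_lit 6) (nat_lit 0x5e0000bc0001800003015d6) (.hit (nat_lit 0) (nat_lit 0) (nat_lit 0x5e0000bc00017e3cc2fdb6d) b17627 (.tok (nat_lit 6) (nat_lit 0x5e0000bc00017ea82aff0b7) (.hit (nat_lit 1) (nat_lit 7) (nat_lit 0x5e0000bc00017dde12fcbca) b17628 (.hit (nat_lit 6) (nat_lit 15) (nat_lit 0x5e0000bc00017d734afc4e8) b17633 (.tok (nat_lit 14) (nat_lit 0x5e0000bc00017ea82aff0b7) (.hit (nat_lit 2) (nat_lit 11) (nat_lit 0x5e0000bc00017e63dafe8fe)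 b17629 (.hit (nat_lit 7) (nat_lit 17) (nat_lit 0x5e0000bc00017ea82afde67) b17634 (.one (nat_lit 9) (nat_lit 3) (nat_lit 12) (nat_lit 0x5e0000bc00017e5e1aff0b7) b17630 (.nil)))) (.tok (nat_lit 56) (nat_lit 0x5e0000bc00017e5fb2fe456) (.hit (nat_lit 4) (nat_lit 13) (nat_lit 0x5e0000bc00017e590afe272) b17631 (.hit (nat_lit 9) (nat_lit 19) (nat_lit 0x5e0000bc00017e57bafd4bd) b17635 (.one (nat_lit 6) (nat_lit 5) (nat_lit 14) (nat_lit 0x5e0000bc00017e5fb2fe456) b17632 (.nil)))) (.nil))))) (.tok (nat_lit 52) (nat_lit 0x5e0000bc00017e8cb2fe195) (.hit (nat_lit 10) (nat_lit 39) (nat_lit 0x5e0000bc00017e0c1afe195) b17636 (.hit (nat_lit 11) (nat_lit 40) (nat_lit 0x5e0000bc00017e8cb2fe134) b17637 (.nil))) (.tok (nat_lit 55) (nat_lit 0x5e0000bc0001800003015d6) (.hit (nat_lit 12) (nat_lit 41) (nat_lit 0x5e0000bc00017eb8c2fee65) b17638 (.tok (nat_lit 3) (nat_lit 0x5e0000bc00017ee12aff784) (.hit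 (nat_lit 18) (nat_lit 47) (nat_lit 0x5e0000bc00017e4b52fe509) b17644 (.one (nat_lit 67) (nat_lit 19) (nat_lit 48) (nat_lit 0x5e0000bc00017ee12aff784) b17645 (.nil))) (.tok (nat_lit 6) (nat_lit 0x5e0000bc0001800003015d6) (.hit (nat_lit 13) (nat_lit 42) (nat_lit 0x5e0000bc00017ee3d2febe9) b17639 (.hit (nat_lit 16) (nat_lit 45) (nat_lit 0x5e0000bc00017ec3dafe31d) b17642 (.tok (nat_lit 55) (nat_lit 0x5e0000bc0001800003015d6) (.hit (nat_lit 14) (nat_lit 43) (nat_lit 0x5e0000bc00017fc79300d04) b17640 (.hit (nat_lit 17) (nat_lit 46) (nat_lit 0x5e0000bc00017ea48aff064) b17643 (.one (nat_lit 6) (nat_lit 15) (nat_lit 44) (nat_lit 0x5e0000bc0001800003015d6) b17641 (.nil)))) (.nil)))) (.nil)))) (.one (nat_lit 58) (nat_lit 20) (nat_lit 49) (nat_lit 0x5e0000bc00017e7f22fe436) b17646 (.nil)))))) (.nil))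
noncomputable def r20_185 : Rw Blk := .tok (nat_lit 3) (nat_lit 0x5e0000bc00017ea9f2fed25) (.hit (nat_lit 61) (nat_lit 0) (nat_lit 0x5e0000bc00017e9042fdce0) b17587 (.tok (nat_lit 6) (nat_lit 0x5e0000bc00017ea9f2fed25) (.hit (nat_lit 62) (nat_lit 7) (nat_lit 0x5e0000bc00017dddb2fd39d) b17588 (.hit (nat_lit 67) (nat_lit 15) (nat_lit 0x5e0000bc00017d6ca2fc57b) b17593 (.tok (nat_lit 14) (nat_lit 0x5e0000bc00017e6de2fe5a3) (.hit (nat_lit 63) (nat_lit 11) (nat_lit 0x5e0000bc00017dee4afd5b0) b17589 (.hit (nat_lit 68) (nat_lit 17) (nat_lit 0x5e0000bc00017e0d5afd992) b17594 (.one (nat_lit 9) (nat_lit 64) (nat_lit 12) (nat_lit 0x5e0000bc00017e6de2fe5a3) b17590 (.nil)))) (.tok (nat_lit 56) (nat_lit 0x5e0000bc00017ea9f2fed25) (.hit (nat_lit 65) (nat_lit 13) (nat_lit 0x5e0000bc00017e6982fe517) b17591 (.hit (nat_lit 70) (nat_lit 19) (nat_lit 0x5e0000bc00017df492fd679) b17596 (.one (nat_lit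 6) (nat_lit 66) (nat_lit 14) (nat_lit 0x5e0000bc00017ea9f2fed25) b17592 (.nil)))) (.one (nat_lit 68) (nat_lit 69) (nat_lit 18) (nat_lit 0x5e0000bc00017e0092fd7f9) b17595 (.nil)))))) (.nil))) (.tok (nat_lit 9) (nat_lit 0x5e0000bc0001800003008e6) (.hit (nat_lit 0) (nat_lit 0) (nat_lit 0x5e0000bc00017f57fafe810) b17567 (.tok (nat_lit 9) (nat_lit 0x5e0000bc00017ffdeb008e6) (.hit (nat_lit 1) (nat_lit 20) (nat_lit 0x5e0000bc00017ec43afde28) b17568 (.hit (nat_lit 6) (nat_lit 28) (nat_lit 0x5e0000bc00017e3052fc310) b17573 (.tok (nat_lit 14) (nat_lit 0x5e0000bc00017fc0bb000ea) (.hit (nat_lit 2) (nat_lit 24) (nat_lit 0x5e0000bc00017fc0bb000ea) b17569 (.hit (nat_lit 7) (nat_lit 30) (nat_lit 0x5e0000bc00017f32e2fe3da) b17574 (.one (nat_lit 6) (nat_lit 3) (nat_lit 25) (nat_lit 0x5e0000bc00017fb662ffcb0) b17570 (.nil)))) (.tok (nat_lit 68) (nat_lit 0x5e0000bc00017ffdeb008e6) (.hit (nat_lit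 4) (nat_lit 26) (nat_lit 0x5e0000bc00017f7ccaff462) b17571 (.hit (nat_lit 9) (nat_lit 32) (nat_lit 0x5e0000bc00017eb10afe2f3) b17575 (.one (nat_lit 9) (nat_lit 5) (nat_lit 27) (nat_lit 0x5e0000bc00017ffdeb008e6) b17572 (.nil)))) (.nil))))) (.tok (nat_lit 64) (nat_lit 0x5e0000bc00017f5552fec20) (.hit (nat_lit 10) (nat_lit 50) (nat_lit 0x5e0000bc00017eebbafec20) b17576 (.hit (nat_lit 11) (nat_lit 51) (nat_lit 0x5e0000bc00017f5552fea91) b17577 (.nil))) (.tok (nat_lit 67) (nat_lit 0x5e0000bc0001800002fffce) (.hit (nat_lit 12) (nat_lit 52) (nat_lit 0x5e0000bc00017fc42affb4f) b17578 (.tok (nat_lit 3) (nat_lit 0x5e0000bc0001800002fffce) (.hit (nat_lit 18) (nat_lit 58) (nat_lit 0x5e0000bc00017f646aff1a0) b17584 (.one (nat_lit 55) (nat_lit 19) (nat_lit 59) (nat_lit 0x5e0000bc0001800002fffce) b17585 (.nil))) (.tok (nat_lit 9) (nat_lit 0x5e0000bc00017fe40affe39) (.hit (nat_lit 13) (nat_lit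 53) (nat_lit 0x5e0000bc00017f0792fe805) b17579 (.hit (nat_lit 16) (nat_lit 56) (nat_lit 0x5e0000bc00017f6742ff04a) b17582 (.tok (nat_lit 67) (nat_lit 0x5e0000bc00017fe40affe39) (.hit (nat_lit 14) (nat_lit 54) (nat_lit 0x5e0000bc00017fb5eaffc43) b17580 (.hit (nat_lit 17) (nat_lit 57) (nat_lit 0x5e0000bc00017fe40affe39) b17583 (.one (nat_lit 9) (nat_lit 15) (nat_lit 55) (nat_lit 0x5e0000bc00017fbb52ffc17) b17581 (.nil)))) (.nil)))) (.nil)))) (.one (nat_lit 70) (nat_lit 20) (nat_lit 60) (nat_lit 0x5e0000bc00017f66b2febfd) b17586 (.nil)))))) (.nil))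
noncomputable def r20_186 : Rw Blk := .tok (nat_lit 3) (nat_lit 0x5e0000bc00017df87afdf9a) (.hit (nat_lit 61) (nat_lit 0) (nat_lit 0x5e0000bc00017dcf0afd9c6) b17617 (.tok (nat_lit 6) (nat_lit 0x5e0000bc00017df87afdf9a) (.hit (nat_lit 62) (nat_lit 7) (nat_lit 0x5e0000bc00017cf792fbf7d) b17618 (.hit (nat_lit 67) (nat_lit 15) (nat_lit 0x5e0000bc00017d130afc2ec) b17623 (.tok (nat_lit 14) (nat_lit 0x5e0000bc00017df87afdf9a) (.hit (nat_lit 63) (nat_lit 11) (nat_lit 0x5e0000bc00017da402fd50b) b17619 (.hit (nat_lit 68) (nat_lit 17) (nat_lit 0x5e0000bc00017d8b8afd1fc) b17624 (.one (nat_lit 9) (nat_lit 64) (nat_lit 12) (nat_lit 0x5e0000bc00017df87afdf9a) b17620 (.nil)))) (.tok (nat_lit 56) (nat_lit 0x5e0000bc00017dd22afdad0) (.hit (nat_lit 65) (nat_lit 13) (nat_lit 0x5e0000bc00017db622fd74f) b17621 (.hit (nat_lit 70) (nat_lit 19) (nat_lit 0x5e0000bc00017d9492fd31d) b17626 (.one (nat_lit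 6) (nat_lit 66) (nat_lit 14) (nat_lit 0x5e0000bc00017dd22afdad0) b17622 (.nil)))) (.one (nat_lit 68) (nat_lit 69) (nat_lit 18) (nat_lit 0x5e0000bc00017dc4bafd922) b17625 (.nil)))))) (.nil))) (.tok (nat_lit 9) (nat_lit 0x5e0000bc00018000030166e) (.hit (nat_lit 0) (nat_lit 0) (nat_lit 0x5e0000bc00017e3cc2fda0d) b17597 (.tok (nat_lit 9) (nat_lit 0x5e0000bc00017ea82aff111) (.hit (nat_lit 1) (nat_lit 20) (nat_lit 0x5e0000bc00017dde12fcbae) b17598 (.hit (nat_lit 6) (nat_lit 28) (nat_lit 0x5e0000bc00017d734afc3fb) b17603 (.tok (nat_lit 14) (nat_lit 0x5e0000bc00017ea82aff111) (.hit (nat_lit 2) (nat_lit 24) (nat_lit 0x5e0000bc00017e63dafe4ed) b17599 (.hit (nat_lit 7) (nat_lit 30) (nat_lit 0x5e0000bc00017ea82afddb3) b17604 (.one (nat_lit 6) (nat_lit 3) (nat_lit 25) (nat_lit 0x5e0000bc00017e5e1aff111) b17600 (.nil)))) (.tok (nat_lit 68) (nat_lit 0x5e0000bc00017e5fb2fe3d4) (.hit (nat_lit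 4) (nat_lit 26) (nat_lit 0x5e0000bc00017e590afe256) b17601 (.hit (nat_lit 9) (nat_lit 32) (nat_lit 0x5e0000bc00017e57bafd428) b17605 (.one (nat_lit 9) (nat_lit 5) (nat_lit 27) (nat_lit 0x5e0000bc00017e5fb2fe3d4) b17602 (.nil)))) (.nil))))) (.tok (nat_lit 64) (nat_lit 0x5e0000bc00017e8cb2fe118) (.hit (nat_lit 10) (nat_lit 50) (nat_lit 0x5e0000bc00017e0c1afe04c) b17606 (.hit (nat_lit 11) (nat_lit 51) (nat_lit 0x5e0000bc00017e8cb2fe118) b17607 (.nil))) (.tok (nat_lit 67) (nat_lit 0x5e0000bc00018000030166e) (.hit (nat_lit 12) (nat_lit 52) (nat_lit 0x5e0000bc00017eb8c2ff062) b17608 (.tok (nat_lit 3) (nat_lit 0x5e0000bc00017ee12aff56e) (.hit (nat_lit 18) (nat_lit 58) (nat_lit 0x5e0000bc00017e4b52fe4ed) b17614 (.one (nat_lit 55) (nat_lit 19) (nat_lit 59) (nat_lit 0x5e0000bc00017ee12aff56e) b17615 (.nil))) (.tok (nat_lit 9) (nat_lit 0x5e0000bc00018000030166e) (.hit (nat_lit 13) (nat_lit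 53) (nat_lit 0x5e0000bc00017ee3d2fec65) b17609 (.hit (nat_lit 16) (nat_lit 56) (nat_lit 0x5e0000bc00017ec3dafe552) b17612 (.tok (nat_lit 67) (nat_lit 0x5e0000bc00018000030166e) (.hit (nat_lit 14) (nat_lit 54) (nat_lit 0x5e0000bc00017fc7930166e) b17610 (.hit (nat_lit 17) (nat_lit 57) (nat_lit 0x5e0000bc00017ea48aff118) b17613 (.one (nat_lit 9) (nat_lit 15) (nat_lit 55) (nat_lit 0x5e0000bc000180000300d3d) b17611 (.nil)))) (.nil)))) (.nil)))) (.one (nat_lit 70) (nat_lit 20) (nat_lit 60) (nat_lit 0x5e0000bc00017e7f22fe3ec) b17616 (.nil)))))) (.nil))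
noncomputable def r20_187 : Rw Blk := .tok (nat_lit 3) (nat_lit 0x2fedc35fd5debfb0f97f2032fe9eb5feac6bfd8997fa312ff40c) (.hit (nat_lit 0) (nat_lit 0) (nat_lit 0x2fc5a55f8a2cbf3af97e62d2fcb795faafcbf48557eaec2fd565) b36001 (.tok (nat_lit 9) (nat_lit 0x2fcd575f9478bf8fc17e6a22fd0755f936ebf1f917e9dfafd53b) (.hit (nat_lit 10) (nat_lit 20) (nat_lit 0x2fb8fe5f6bc6bf4b097dc75afbc1c5f6abcbece2d7dfb32fc0e2) b18012 (.hit (nat_lit 15) (nat_lit 28) (nat_lit 0x2fb68f5f66e8bf1e917db3e2fb9ad5f65debec4717de7bafbe73) b18017 (.tok (nat_lit 14) (nat_lit 0x2fcbfa5f91bebf66897e5f3afcf185f90b4bf1a1d7e9312fd3de) (.hit (nat_lit 11) (nat_lit 24) (nat_lit 0x2fbf9a5f78febf4a597dfc3afc2b85f77f4bee89d7e3012fc77e) b18013 (.hit (nat_lit 16) (nat_lit 30) (nat_lit 0x2fbe9d5f7704bf43417df452fc1bb5f75fabee4a97e282afc681) b18018 (.one (nat_lit 6) (nat_lit 12) (nat_lit 25) (nat_lit 0x2fcbfa5f91bebf66897e5f3afcf185f90b4bf1a1d7e9312fd3de)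 b18014 (.nil)))) (.one (nat_lit 56) (nat_lit 17) (nat_lit 31) (nat_lit 0x2fcbbc5f9142bf75597e5d4afceda5f9038bf19257e9122fd3a0) b18019 (.tok (nat_lit 68) (nat_lit 0x2fcd575f9478bf8fc17e6a22fd0755f936ebf1f917e9dfafd53b) (.hit (nat_lit 13) (nat_lit 26) (nat_lit 0x2fc52f5f8428bf72a57e28e2fc84d5f831ebefef17e5cbafcd13) b18015 (.hit (nat_lit 18) (nat_lit 32) (nat_lit 0x2fc1135f7bf0bf49b97e0802fc4315f7ae6beee817e3bdafc8f7) b18020 (.one (nat_lit 9) (nat_lit 14) (nat_lit 27) (nat_lit 0x2fcd575f9478bf8fc17e6a22fd0755f936ebf1f917e9dfafd53b) b18016 (.nil)))) (.nil)))))) (.tok (nat_lit 64) (nat_lit 0x2fc28d5f7ee4bf64517e13d2fc5ab5f7ddabef4697e47aafca71) (.hit (nat_lit 30) (nat_lit 50) (nat_lit 0x2fbf635f7890bf3c797dfa82fc2815f7786bee7c17e2e5afc747) b18021 (.hit (nat_lit 31) (nat_lit 51) (nat_lit 0x2fc28d5f7ee4bf64517e13d2fc5ab5f7ddabef4697e47aafca71) b18022 (.nil))) (.tok (nat_lit 67) (nat_lit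 0x2fedc35fd5debfb0f97f2032fe9eb5feac6bfd8997fa312ff40c) (.hit (nat_lit 32) (nat_lit 52) (nat_lit 0x2fedc35fd5debfb0f97f2032fe3465feac6bfba317f6dbafed5e) b18023 (.tok (nat_lit 3) (nat_lit 0x2fd32c5fa022bfa82d7e98cafd64a5f9f18bf36e57ecca2fdb10) (.hit (nat_lit 38) (nat_lit 58) (nat_lit 0x2fcb855f90d4bfa82d7e5b92fcea35f8fcabf18497e8f6afd369) b18029 (.one (nat_lit 55) (nat_lit 39) (nat_lit 59) (nat_lit 0x2fd32c5fa022bf8ab57e98cafd64a5f9f18bf36e57ecca2fdb10) b18030 (.nil))) (.tok (nat_lit 9) (nat_lit 0x2fe32d5fcf5abfa3497f06dafe9eb5fe8fabfd8997fa312ff40c) (.hit (nat_lit 33) (nat_lit 53) (nat_lit 0x2fd9e85fb53ebf8d457f035afdf8b5fdbc8bfa6357f50cafe9ac) b18024 (.hit (nat_lit 36) (nat_lit 56) (nat_lit 0x2fcbde5f9186bf88557e5e5afcefc5f907cbf19ad7e9232fd3c2) b18027 (.tok (nat_lit 67) (nat_lit 0x2fe32d5fcf5abfa3497f06dafe9eb5fe8fabfd8997fa312ff40c) (.hit (nat_lit 34) (nat_lit 54) (nat_lit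 0x2fe32d5fcf5abf863d7f06dafe9eb5fe8fabfd8997fa312ff40c) b18025 (.hit (nat_lit 37) (nat_lit 57) (nat_lit 0x2fd6685fa69abfa3497eb2aafd9865fa590bf43d57ee682fde4c) b18028 (.one (nat_lit 9) (nat_lit 35) (nat_lit 55) (nat_lit 0x2fd4d15fa36cbf79397ea5f2fd7ef5fa262bf3d797ed9cafdcb5) b18026 (.nil)))) (.nil)))) (.nil)))) (.one (nat_lit 70) (nat_lit 40) (nat_lit 60) (nat_lit 0x2fcabd5f8f44bf91317e5552fcddb5f8e3abf15297e892afd2a1) b18031 (.nil)))))) (.tok (nat_lit 6) (nat_lit 0x300000600000c0000180000300000600e7cc012d580000300000) (.hit (nat_lit 81) (nat_lit 0) (nat_lit 0x2fda075fbbfabf82117ef35afde495fd428bf95b17f1efafe3b4) b18032 (.tok (nat_lit 6) (nat_lit 0x2fef1d5fe284bfab8d7f6332fef085f9bf8bf30a57efebafdd72) (.hit (nat_lit 87) (nat_lit 7) (nat_lit 0x2fcf405fb466bf456d7eb5b2fd6245f8120befaf57e54c2fcc14) b18033 (.hit (nat_lit 95) (nat_lit 15) (nat_lit 0x2fc2c45f7fe0bf19017d870afaea05f49b8be8c257d8252fb060)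 b18036 (.tok (nat_lit 14) (nat_lit 0x2fef1d5fe284bfab8d7f6332fef085f9bf8bf30a57efebafdd72) (.hit (nat_lit 91) (nat_lit 11) (nat_lit 0x2febff5fde7cbfab8d7f3eeafeb845f8a9ebf0df17ee5fafdac4) b18034 (.hit (nat_lit 97) (nat_lit 17) (nat_lit 0x2fdf405fb8d8bf8e357e6722fcc6e5f6d00bed2b57e8b92fd02b) b18037 (.one (nat_lit 9) (nat_lit 92) (nat_lit 12) (nat_lit 0x2fef1d5fe284bfaa497f6332fef085f9bf8bf30a57efebafdd72) b18035 (.nil)))) (.one (nat_lit 68) (nat_lit 98) (nat_lit 18) (nat_lit 0x2fd8405faae4bf62497e2fb2fc5635f7432bee1197e5392fc959) b18038 (.nil))))) (.tok (nat_lit 52) (nat_lit 0x2fdf605fd006bf88297e6b9afceb05f859cbf03ed7e90dafcfd3) (.hit (nat_lit 106) (nat_lit 39) (nat_lit 0x2fdf605fd006bf77f57e63eafcc2a5f859cbf03ed7e90dafcfd3) b18039 (.hit (nat_lit 107) (nat_lit 40) (nat_lit 0x2fdcc25fc552bf88297e6b9afceb05f8288befdc57e8182fcf10) b18040 (.nil))) (.tok (nat_lit 55) (nat_lit 0x300000600000c0000180000300000600e7cc012d580000300000)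 (.hit (nat_lit 108) (nat_lit 41) (nat_lit 0x300000600000bfe25d7fc152ffee6600e7cc012d580000300000) b18041 (.tok (nat_lit 3) (nat_lit 0x2ffee95fedcabfa6b1800003000005fa81ebf48f17fc2a2ff71f) (.hit (nat_lit 114) (nat_lit 47) (nat_lit 0x2fefa15fe4cebf9b117f900aff4b95f9feebf38917f38a2fe436) b18044 (.one (nat_lit 67) (nat_lit 115) (nat_lit 48) (nat_lit 0x2ffee95fedcabfa6b1800003000005fa81ebf48f17fc2a2ff71f) b18045 (.nil))) (.tok (nat_lit 6) (nat_lit 0x2ff9655fe98cc000017f0612fddce5f9f48bf37457f786aff112) (.hit (nat_lit 109) (nat_lit 42) (nat_lit 0x2ff9655fde62bfa4c57f0612fddce5f9d58bf33657f786aff112) b18042 (.hit (nat_lit 112) (nat_lit 45) (nat_lit 0x2fe6715fe98cc000017eb862fd8005f9f48bf37457ecefafdb28) b18043 (.nil))) (.nil)))) (.one (nat_lit 58) (nat_lit 116) (nat_lit 49) (nat_lit 0x2fdf625fc5a4bf880d7e8fc2fd3295f8720bf06f57ec6dafd764) b18046 (.nil)))))) (.nil))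
noncomputable def r20_188 : Rw Blk := .tok (nat_lit 9) (nat_lit 0xbc0001780002fff1d) (.hit (nat_lit 0) (nat_lit 0) (nat_lit 0xbc0001780002feae7) b18047 (.tok (nat_lit 14) (nat_lit 0xbc0001780002ff84a) (.hit (nat_lit 11) (nat_lit 61) (nat_lit 0xbc0001780002fef1c) b18048 (.one (nat_lit 3) (nat_lit 12) (nat_lit 62) (nat_lit 0xbc0001780002ff36c) b18049 (.tok (nat_lit 6) (nat_lit 0xbc0001780002ff84a) (.hit (nat_lit 15) (nat_lit 65) (nat_lit 0xbc0001780002ff84a) b18050 (.hit (nat_lit 16) (nat_lit 66) (nat_lit 0xbc0001780002feac6) b18051 (.nil))) (.tok (nat_lit 9) (nat_lit 0xbc0001780002feedd) (.hit (nat_lit 13) (nat_lit 63) (nat_lit 0xbc0001780002fd66a) b18052 (.hit (nat_lit 14) (nat_lit 64) (nat_lit 0xbc0001780002feedd) b18053 (.nil))) (.nil))))) (.one (nat_lit 17) (nat_lit 17) (nat_lit 67) (nat_lit 0xbc0001780002febfe) b18054 (.tok (nat_lit 20) (nat_lit 0xbc0001780002fe7f2) (.hit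 (nat_lit 18) (nat_lit 68) (nat_lit 0xbc0001780002fc271) b18057 (.hit (nat_lit 19) (nat_lit 69) (nat_lit 0xbc0001780002fe7f2) b18058 (.nil))) (.tok (nat_lit 23) (nat_lit 0xbc0001780002ff6fd) (.hit (nat_lit 20) (nat_lit 70) (nat_lit 0xbc0001780002ff6fd) b18055 (.hit (nat_lit 21) (nat_lit 71) (nat_lit 0xbc0001780002fed67) b18056 (.nil))) (.one (nat_lit 26) (nat_lit 22) (nat_lit 72) (nat_lit 0xbc0001780002fdd73) b18059 (.one (nat_lit 29) (nat_lit 23) (nat_lit 73) (nat_lit 0xbc0001780002fd740) b18060 (.one (nat_lit 32) (nat_lit 24) (nat_lit 74) (nat_lit 0xbc0001780002fe229) b18062 (.one (nat_lit 35) (nat_lit 25) (nat_lit 75) (nat_lit 0xbc0001780002fd941) b18061 (.one (nat_lit 50) (nat_lit 33) (nat_lit 83) (nat_lit 0xbc0001780002fe2c9) b18072 (.tok (nat_lit 53) (nat_lit 0xbc0001780002feb1e) (.hit (nat_lit 34) (nat_lit 84) (nat_lit 0xbc0001780002fe520) b18073 (.hit (nat_lit 35) (nat_lit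 85) (nat_lit 0xbc0001780002feb1e) b18074 (.nil))) (.tok (nat_lit 56) (nat_lit 0xbc0001780002ff011) (.hit (nat_lit 36) (nat_lit 86) (nat_lit 0xbc0001780002ff011) b18075 (.one (nat_lit 3) (nat_lit 40) (nat_lit 90) (nat_lit 0xbc0001780002fc5cf) b18079 (.tok (nat_lit 6) (nat_lit 0xbc0001780002fd072) (.hit (nat_lit 38) (nat_lit 88) (nat_lit 0xbc0001780002fd072) b18077 (.hit (nat_lit 39) (nat_lit 89) (nat_lit 0xbc0001780002fcb27) b18078 (.nil))) (.one (nat_lit 9) (nat_lit 37) (nat_lit 87) (nat_lit 0xbc0001780002fcdba) b18076 (.nil))))) (.one (nat_lit 59) (nat_lit 41) (nat_lit 91) (nat_lit 0xbc0001780002fe351) b18080 (.one (nat_lit 62) (nat_lit 42) (nat_lit 92) (nat_lit 0xbc0001780002feb2d) b18063 (.tok (nat_lit 65) (nat_lit 0xbc0001780002fefd9) (.hit (nat_lit 43) (nat_lit 93) (nat_lit 0xbc0001780002fe55d) b18064 (.hit (nat_lit 44) (nat_lit 94) (nat_lit 0xbc0001780002fefd9) b18065 (.nil)))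 (.tok (nat_lit 68) (nat_lit 0xbc0001780002fff1d) (.hit (nat_lit 45) (nat_lit 95) (nat_lit 0xbc0001780002fff1d) b18066 (.one (nat_lit 3) (nat_lit 49) (nat_lit 99) (nat_lit 0xbc0001780002ff7a4) b18070 (.one (nat_lit 6) (nat_lit 46) (nat_lit 96) (nat_lit 0xbc0001780002ffed1) b18067 (.tok (nat_lit 9) (nat_lit 0xbc0001780002ff9fd) (.hit (nat_lit 47) (nat_lit 97) (nat_lit 0xbc0001780002ff9fd) b18068 (.hit (nat_lit 48) (nat_lit 98) (nat_lit 0xbc0001780002fefbc) b18069 (.nil))) (.nil))))) (.one (nat_lit 71) (nat_lit 50) (nat_lit 100) (nat_lit 0xbc0001780002fe4a1) b18071 (.nil)))))))))))))))))) (.tok (nat_lit 64) (nat_lit 0xbc000178000300e90) (.hit (nat_lit 180) (nat_lit 0) (nat_lit 0xbc000178000300e90) b18081 (.tok (nat_lit 6) (nat_lit 0xbc0001780002ffb4c) (.hit (nat_lit 181) (nat_lit 7) (nat_lit 0xbc0001780002fe6ae) b18084 (.hit (nat_lit 182) (nat_lit 15) (nat_lit 0xbc0001780002ffb4c)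 b18085 (.nil))) (.tok (nat_lit 9) (nat_lit 0xbc000178000300901) (.hit (nat_lit 183) (nat_lit 20) (nat_lit 0xbc000178000300901) b18082 (.hit (nat_lit 184) (nat_lit 28) (nat_lit 0xbc0001780002ff845) b18083 (.nil))) (.nil)))) (.tok (nat_lit 67) (nat_lit 0xbc0001780002ffbf7) (.hit (nat_lit 205) (nat_lit 0) (nat_lit 0xbc0001780002ffbf7) b18094 (.tok (nat_lit 3) (nat_lit 0xbc0001780002ffba7) (.hit (nat_lit 206) (nat_lit 1) (nat_lit 0xbc0001780002fe098) b18095 (.one (nat_lit 55) (nat_lit 207) (nat_lit 3) (nat_lit 0xbc0001780002ffba7) b18096 (.nil))) (.tok (nat_lit 9) (nat_lit 0xbc0001780002ff344) (.hit (nat_lit 208) (nat_lit 20) (nat_lit 0xbc0001780002fe69b) b18097 (.hit (nat_lit 211) (nat_lit 28) (nat_lit 0xbc0001780002fdf85) b18100 (.tok (nat_lit 67) (nat_lit 0xbc0001780002ff344) (.hit (nat_lit 209) (nat_lit 21) (nat_lit 0xbc0001780002fea6e) b18098 (.hit (nat_lit 212) (nat_lit 29)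 (nat_lit 0xbc0001780002ff344) b18101 (.one (nat_lit 9) (nat_lit 210) (nat_lit 22) (nat_lit 0xbc0001780002ff0ba) b18099 (.nil)))) (.nil)))) (.nil)))) (.tok (nat_lit 70) (nat_lit 0xbc000178000300dc1) (.hit (nat_lit 191) (nat_lit 0) (nat_lit 0xbc00017800030068f) b18086 (.tok (nat_lit 3) (nat_lit 0xbc00017800030022b) (.hit (nat_lit 192) (nat_lit 1) (nat_lit 0xbc0001780002fe02e) b18087 (.one (nat_lit 67) (nat_lit 193) (nat_lit 2) (nat_lit 0xbc00017800030022b) b18088 (.nil))) (.tok (nat_lit 6) (nat_lit 0xbc000178000300dc1) (.hit (nat_lit 194) (nat_lit 7) (nat_lit 0xbc0001780002fed5f) b18089 (.hit (nat_lit 197) (nat_lit 15) (nat_lit 0xbc0001780002fe61c) b18092 (.tok (nat_lit 55) (nat_lit 0xbc000178000300dc1) (.hit (nat_lit 195) (nat_lit 8) (nat_lit 0xbc0001780002ff872) b18090 (.hit (nat_lit 198) (nat_lit 16) (nat_lit 0xbc0001780002ffd1d) b18093 (.one (nat_lit 6) (nat_lit 196) (nat_lit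 9) (nat_lit 0xbc000178000300dc1) b18091 (.nil)))) (.nil)))) (.nil)))) (.nil))))
noncomputable def r20_189 : Rw Blk := .tok (nat_lit 3) (nat_lit 0xbc000178000300e91) (.hit (nat_lit 15) (nat_lit 0) (nat_lit 0xbc0001780002ff57a) b18113 (.tok (nat_lit 6) (nat_lit 0xbc0001780002febd2) (.hit (nat_lit 16) (nat_lit 7) (nat_lit 0xbc0001780002fd907) b18114 (.hit (nat_lit 21) (nat_lit 15) (nat_lit 0xbc0001780002fc145) b18117 (.tok (nat_lit 56) (nat_lit 0xbc0001780002febd2) (.hit (nat_lit 19) (nat_lit 13) (nat_lit 0xbc0001780002fe148) b18115 (.hit (nat_lit 24) (nat_lit 19) (nat_lit 0xbc0001780002fe223) b18119 (.one (nat_lit 6) (nat_lit 20) (nat_lit 14) (nat_lit 0xbc0001780002febd2) b18116 (.nil)))) (.one (nat_lit 68) (nat_lit 23) (nat_lit 18) (nat_lit 0xbc0001780002fdff0) b18118 (.nil))))) (.tok (nat_lit 52) (nat_lit 0xbc0001780002fecb7) (.hit (nat_lit 25) (nat_lit 39) (nat_lit 0xbc0001780002fdf91)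 b18120 (.hit (nat_lit 26) (nat_lit 40) (nat_lit 0xbc0001780002fecb7) b18121 (.nil))) (.tok (nat_lit 55) (nat_lit 0xbc000178000300e91) (.hit (nat_lit 27) (nat_lit 41) (nat_lit 0xbc000178000300e91) b18122 (.one (nat_lit 3) (nat_lit 33) (nat_lit 47) (nat_lit 0xbc0001780002fecd0) b18128 (.tok (nat_lit 6) (nat_lit 0xbc0001780002fef8a) (.hit (nat_lit 28) (nat_lit 42) (nat_lit 0xbc0001780002fe56f) b18123 (.hit (nat_lit 31) (nat_lit 45) (nat_lit 0xbc0001780002fe8a6) b18126 (.tok (nat_lit 55) (nat_lit 0xbc0001780002fef8a) (.hit (nat_lit 29) (nat_lit 43) (nat_lit 0xbc0001780002fef8a) b18124 (.hit (nat_lit 32) (nat_lit 46) (nat_lit 0xbc0001780002fee8d) b18127 (.one (nat_lit 6) (nat_lit 30) (nat_lit 44) (nat_lit 0xbc0001780002fe4c0) b18125 (.nil)))) (.nil)))) (.nil)))) (.one (nat_lit 58) (nat_lit 35) (nat_lit 49) (nat_lit 0xbc0001780002feb9c) b18129 (.nil)))))) (.tok (nat_lit 9) (nat_lit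 0xbc000178000302a0d) (.hit (nat_lit 0) (nat_lit 0) (nat_lit 0xbc0001780003012c0) b18102 (.tok (nat_lit 9) (nat_lit 0xbc0001780002ffa5f) (.hit (nat_lit 1) (nat_lit 20) (nat_lit 0xbc0001780002ff006) b18103 (.hit (nat_lit 4) (nat_lit 28) (nat_lit 0xbc0001780002fe887) b18104 (.one (nat_lit 56) (nat_lit 6) (nat_lit 31) (nat_lit 0xbc0001780002ffa5f) b18105 (.nil)))) (.tok (nat_lit 64) (nat_lit 0xbc000178000301a64) (.hit (nat_lit 7) (nat_lit 50) (nat_lit 0xbc000178000301081) b18106 (.hit (nat_lit 8) (nat_lit 51) (nat_lit 0xbc000178000301a64) b18107 (.nil))) (.tok (nat_lit 67) (nat_lit 0xbc000178000302489) (.hit (nat_lit 9) (nat_lit 52) (nat_lit 0xbc000178000302489) b18108 (.one (nat_lit 3) (nat_lit 12) (nat_lit 58) (nat_lit 0xbc000178000301a35) b18111 (.tok (nat_lit 9) (nat_lit 0xbc0001780003008e4) (.hit (nat_lit 10) (nat_lit 53) (nat_lit 0xbc0001780002ffc3a) b18109 (.hit (nat_lit 11)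 (nat_lit 56) (nat_lit 0xbc0001780003008e4) b18110 (.nil))) (.nil)))) (.one (nat_lit 70) (nat_lit 14) (nat_lit 60) (nat_lit 0xbc000178000302a0d) b18112 (.nil)))))) (.nil))
noncomputable def r20_190 : Rw Blk := .tok (nat_lit 6) (nat_lit 0xbc000178000301c86) (.hit (nat_lit 0) (nat_lit 0) (nat_lit 0xbc0001780002fe4d7) b18130 (.tok (nat_lit 14) (nat_lit 0xbc0001780002ffe46) (.hit (nat_lit 21) (nat_lit 61) (nat_lit 0xbc0001780002ffa5c) b18131 (.one (nat_lit 3) (nat_lit 22) (nat_lit 62) (nat_lit 0xbc0001780002ff9fc) b18132 (.tok (nat_lit 6) (nat_lit 0xbc0001780002ff153) (.hit (nat_lit 25) (nat_lit 65) (nat_lit 0xbc0001780002fd607) b18133 (.hit (nat_lit 26) (nat_lit 66) (nat_lit 0xbc0001780002ff153) b18134 (.nil))) (.tok (nat_lit 9) (nat_lit 0xbc0001780002ffe46) (.hit (nat_lit 23) (nat_lit 63) (nat_lit 0xbc0001780002ffe46) b18135 (.hit (nat_lit 24) (nat_lit 64) (nat_lit 0xbc0001780002fdbd7)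 b18136 (.nil))) (.nil))))) (.one (nat_lit 17) (nat_lit 27) (nat_lit 67) (nat_lit 0xbc0001780002fe7c4) b18137 (.tok (nat_lit 20) (nat_lit 0xbc000178000301c86) (.hit (nat_lit 28) (nat_lit 68) (nat_lit 0xbc000178000301c86) b18140 (.hit (nat_lit 29) (nat_lit 69) (nat_lit 0xbc0001780002fe307) b18141 (.nil))) (.tok (nat_lit 23) (nat_lit 0xbc0001780002fe090) (.hit (nat_lit 30) (nat_lit 70) (nat_lit 0xbc0001780002fc54a) b18138 (.hit (nat_lit 31) (nat_lit 71) (nat_lit 0xbc0001780002fe090) b18139 (.nil))) (.one (nat_lit 26) (nat_lit 32) (nat_lit 72) (nat_lit 0xbc0001780002fd931) b18142 (.one (nat_lit 29) (nat_lit 33) (nat_lit 73) (nat_lit 0xbc0001780002fe846) b18143 (.one (nat_lit 32) (nat_lit 34) (nat_lit 74) (nat_lit 0xbc0001780002fd1a6) b18145 (.one (nat_lit 35) (nat_lit 35) (nat_lit 75) (nat_lit 0xbc0001780002fe22d) b18144 (.one (nat_lit 38) (nat_lit 36) (nat_lit 76) (nat_lit 0xbc0001780002fde97)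 b18146 (.tok (nat_lit 41) (nat_lit 0xbc0001780002fe7aa) (.hit (nat_lit 37) (nat_lit 77) (nat_lit 0xbc0001780002fe2a6) b18147 (.hit (nat_lit 38) (nat_lit 78) (nat_lit 0xbc0001780002fe7aa) b18148 (.nil))) (.tok (nat_lit 44) (nat_lit 0xbc0001780002ff391) (.hit (nat_lit 39) (nat_lit 79) (nat_lit 0xbc0001780002ff391) b18151 (.hit (nat_lit 40) (nat_lit 80) (nat_lit 0xbc0001780002fde2f) b18152 (.nil))) (.tok (nat_lit 47) (nat_lit 0xbc0001780002fe658) (.hit (nat_lit 41) (nat_lit 81) (nat_lit 0xbc0001780002fbde1) b18149 (.hit (nat_lit 42) (nat_lit 82) (nat_lit 0xbc0001780002fe658) b18150 (.nil))) (.one (nat_lit 62) (nat_lit 52) (nat_lit 92) (nat_lit 0xbc0001780002fd940) b18153 (.tok (nat_lit 65) (nat_lit 0xbc0001780002fe9e3) (.hit (nat_lit 53) (nat_lit 93) (nat_lit 0xbc0001780002fe9e3) b18154 (.hit (nat_lit 54) (nat_lit 94) (nat_lit 0xbc0001780002fddfe) b18155 (.nil))) (.tok (nat_lit 68)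 (nat_lit 0xbc0001780002fe31c) (.hit (nat_lit 55) (nat_lit 95) (nat_lit 0xbc0001780002fe31c) b18156 (.one (nat_lit 3) (nat_lit 59) (nat_lit 99) (nat_lit 0xbc0001780002fc4cd) b18160 (.one (nat_lit 6) (nat_lit 56) (nat_lit 96) (nat_lit 0xbc0001780002fc8f0) b18157 (.tok (nat_lit 9) (nat_lit 0xbc0001780002fd6dc) (.hit (nat_lit 57) (nat_lit 97) (nat_lit 0xbc0001780002fd6dc) b18158 (.hit (nat_lit 58) (nat_lit 98) (nat_lit 0xbc0001780002fce8a) b18159 (.nil))) (.nil))))) (.one (nat_lit 71) (nat_lit 60) (nat_lit 100) (nat_lit 0xbc0001780002fdfe2) b18161 (.nil)))))))))))))))))) (.tok (nat_lit 52) (nat_lit 0xbc00017800030107d) (.hit (nat_lit 176) (nat_lit 0) (nat_lit 0xbc00017800030107d) b18162 (.tok (nat_lit 6) (nat_lit 0xbc0001780002ffe0e) (.hit (nat_lit 177) (nat_lit 7) (nat_lit 0xbc0001780002ffe0e) b18165 (.hit (nat_lit 178) (nat_lit 15) (nat_lit 0xbc0001780002fed8b) b18166 (.nil))) (.tok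 (nat_lit 9) (nat_lit 0xbc0001780002ff4f4) (.hit (nat_lit 179) (nat_lit 20) (nat_lit 0xbc0001780002fe101) b18163 (.hit (nat_lit 180) (nat_lit 28) (nat_lit 0xbc0001780002ff4f4) b18164 (.nil))) (.nil)))) (.tok (nat_lit 55) (nat_lit 0xbc0001780002ff0dc) (.hit (nat_lit 187) (nat_lit 0) (nat_lit 0xbc0001780002ff0dc) b18175 (.tok (nat_lit 3) (nat_lit 0xbc0001780002fe79f) (.hit (nat_lit 188) (nat_lit 1) (nat_lit 0xbc0001780002fd0fb) b18176 (.one (nat_lit 67) (nat_lit 189) (nat_lit 2) (nat_lit 0xbc0001780002fe79f) b18177 (.nil))) (.tok (nat_lit 6) (nat_lit 0xbc0001780002fdb80) (.hit (nat_lit 190) (nat_lit 7) (nat_lit 0xbc0001780002fdb80) b18178 (.hit (nat_lit 193) (nat_lit 15) (nat_lit 0xbc0001780002fd1d1) b18179 (.nil))) (.nil)))) (.tok (nat_lit 58) (nat_lit 0xbc0001780002ffbb6) (.hit (nat_lit 201) (nat_lit 0) (nat_lit 0xbc0001780002ff284) b18167 (.tok (nat_lit 3) (nat_lit 0xbc0001780002ff28f)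 (.hit (nat_lit 202) (nat_lit 1) (nat_lit 0xbc0001780002fd8f8) b18168 (.one (nat_lit 55) (nat_lit 203) (nat_lit 3) (nat_lit 0xbc0001780002ff28f) b18169 (.nil))) (.tok (nat_lit 9) (nat_lit 0xbc0001780002ffbb6) (.hit (nat_lit 204) (nat_lit 20) (nat_lit 0xbc0001780002fdaeb) b18170 (.hit (nat_lit 207) (nat_lit 28) (nat_lit 0xbc0001780002fdb18) b18173 (.tok (nat_lit 67) (nat_lit 0xbc0001780002ffbb6) (.hit (nat_lit 205) (nat_lit 21) (nat_lit 0xbc0001780002fe7e2) b18171 (.hit (nat_lit 208) (nat_lit 29) (nat_lit 0xbc0001780002ff553) b18174 (.one (nat_lit 9) (nat_lit 206) (nat_lit 22) (nat_lit 0xbc0001780002ffbb6) b18172 (.nil)))) (.nil)))) (.nil)))) (.nil))))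
noncomputable def r20_191 : Rw Blk := .tok (nat_lit 3) (nat_lit 0xbc0001780003023de) (.hit (nat_lit 15) (nat_lit 0) (nat_lit 0xbc000178000300f67) b18187 (.tok (nat_lit 9) (nat_lit 0xbc0001780002ffcba) (.hit (nat_lit 16) (nat_lit 20) (nat_lit 0xbc0001780002fd829) b18188 (.hit (nat_lit 21) (nat_lit 28) (nat_lit 0xbc0001780002fe447) b18193 (.tok (nat_lit 14) (nat_lit 0xbc0001780002ffcba) (.hit (nat_lit 17) (nat_lit 24) (nat_lit 0xbc0001780002fe97d) b18189 (.hit (nat_lit 22) (nat_lit 30) (nat_lit 0xbc0001780002ffcba) b18194 (.one (nat_lit 6) (nat_lit 18) (nat_lit 25) (nat_lit 0xbc0001780002ffb3d) b18190 (.nil)))) (.tok (nat_lit 68) (nat_lit 0xbc0001780002ff68d) (.hit (nat_lit 19) (nat_lit 26) (nat_lit 0xbc0001780002fe930) b18191 (.hit (nat_lit 24) (nat_lit 32) (nat_lit 0xbc0001780002ff68d) b18195 (.one (nat_lit 9) (nat_lit 20) (nat_lit 27) (nat_lit 0xbc0001780002ff4d2) b18192 (.nil))))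 (.nil))))) (.tok (nat_lit 64) (nat_lit 0xbc0001780002ffc12) (.hit (nat_lit 25) (nat_lit 50) (nat_lit 0xbc0001780002ff968) b18196 (.hit (nat_lit 26) (nat_lit 51) (nat_lit 0xbc0001780002ffc12) b18197 (.nil))) (.tok (nat_lit 67) (nat_lit 0xbc000178000301f17) (.hit (nat_lit 27) (nat_lit 52) (nat_lit 0xbc000178000301f17) b18198 (.tok (nat_lit 3) (nat_lit 0xbc0001780003006e3) (.hit (nat_lit 33) (nat_lit 58) (nat_lit 0xbc0001780002ff3f2) b18204 (.one (nat_lit 55) (nat_lit 34) (nat_lit 59) (nat_lit 0xbc0001780003006e3) b18205 (.nil))) (.tok (nat_lit 9) (nat_lit 0xbc0001780002ffbe9) (.hit (nat_lit 28) (nat_lit 53) (nat_lit 0xbc0001780002ff4dc) b18199 (.hit (nat_lit 31) (nat_lit 56) (nat_lit 0xbc0001780002ff17a) b18202 (.tok (nat_lit 67) (nat_lit 0xbc0001780002ffbe9) (.hit (nat_lit 29) (nat_lit 54) (nat_lit 0xbc0001780002ffbe9) b18200 (.hit (nat_lit 32) (nat_lit 57) (nat_lit 0xbc0001780002ffb60)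 b18203 (.one (nat_lit 9) (nat_lit 30) (nat_lit 55) (nat_lit 0xbc0001780002ff076) b18201 (.nil)))) (.nil)))) (.nil)))) (.one (nat_lit 70) (nat_lit 35) (nat_lit 60) (nat_lit 0xbc0001780003023de) b18206 (.nil)))))) (.tok (nat_lit 6) (nat_lit 0xbc0001780003032f9) (.hit (nat_lit 0) (nat_lit 0) (nat_lit 0xbc000178000301bb1) b18180 (.tok (nat_lit 6) (nat_lit 0xbc0001780003032f9) (.hit (nat_lit 1) (nat_lit 7) (nat_lit 0xbc0001780002fec18) b18181 (.hit (nat_lit 4) (nat_lit 15) (nat_lit 0xbc0001780002ffac3) b18184 (.tok (nat_lit 14) (nat_lit 0xbc0001780003032f9) (.hit (nat_lit 2) (nat_lit 11) (nat_lit 0xbc0001780003009db) b18182 (.hit (nat_lit 5) (nat_lit 17) (nat_lit 0xbc000178000300795) b18185 (.one (nat_lit 9) (nat_lit 3) (nat_lit 12) (nat_lit 0xbc0001780003032f9) b18183 (.nil)))) (.one (nat_lit 68) (nat_lit 6) (nat_lit 18) (nat_lit 0xbc000178000301770) b18186 (.nil))))) (.nil))) (.nil))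
noncomputable def r20_192 : Rw Blk := .tok (nat_lit 6) (nat_lit 0xbc00017800030553c) (.hit (nat_lit 0) (nat_lit 0) (nat_lit 0xbc00017800030020a) b18207 (.tok (nat_lit 14) (nat_lit 0xbc000178000303c95) (.hit (nat_lit 1) (nat_lit 61) (nat_lit 0xbc000178000300f25) b18208 (.one (nat_lit 3) (nat_lit 2) (nat_lit 62) (nat_lit 0xbc0001780002ffecb) b18209 (.tok (nat_lit 6) (nat_lit 0xbc0001780002ffae0) (.hit (nat_lit 5) (nat_lit 65) (nat_lit 0xbc0001780002ffae0) b18210 (.hit (nat_lit 6) (nat_lit 66) (nat_lit 0xbc0001780002ffa3d) b18211 (.nil))) (.tok (nat_lit 9) (nat_lit 0xbc000178000303c95) (.hit (nat_lit 3) (nat_lit 63) (nat_lit 0xbc000178000303c95) b18212 (.hit (nat_lit 4) (nat_lit 64) (nat_lit 0xbc000178000300c5f) b18213 (.nil))) (.nil))))) (.one (nat_lit 17) (nat_lit 7) (nat_lit 67) (nat_lit 0xbc0001780002fe93c) b18214 (.tok (nat_lit 20) (nat_lit 0xbc00017800030553c) (.hit (nat_lit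 8) (nat_lit 68) (nat_lit 0xbc00017800030553c) b18217 (.hit (nat_lit 9) (nat_lit 69) (nat_lit 0xbc0001780002ff2d0) b18218 (.nil))) (.tok (nat_lit 23) (nat_lit 0xbc0001780002ff70a) (.hit (nat_lit 10) (nat_lit 70) (nat_lit 0xbc0001780002ff0a3) b18215 (.hit (nat_lit 11) (nat_lit 71) (nat_lit 0xbc0001780002ff70a) b18216 (.nil))) (.one (nat_lit 38) (nat_lit 16) (nat_lit 76) (nat_lit 0xbc0001780002ff335) b18219 (.tok (nat_lit 41) (nat_lit 0xbc0001780002fea51) (.hit (nat_lit 17) (nat_lit 77) (nat_lit 0xbc0001780002fe9c5) b18220 (.hit (nat_lit 18) (nat_lit 78) (nat_lit 0xbc0001780002fea51) b18221 (.nil))) (.tok (nat_lit 44) (nat_lit 0xbc0001780003007e4) (.hit (nat_lit 19) (nat_lit 79) (nat_lit 0xbc0001780003007e4) b18224 (.hit (nat_lit 20) (nat_lit 80) (nat_lit 0xbc0001780002fe704) b18225 (.nil))) (.tok (nat_lit 47) (nat_lit 0xbc0001780002ff3f2) (.hit (nat_lit 21) (nat_lit 81) (nat_lit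 0xbc0001780002fe100) b18222 (.hit (nat_lit 22) (nat_lit 82) (nat_lit 0xbc0001780002ff3f2) b18223 (.nil))) (.one (nat_lit 62) (nat_lit 23) (nat_lit 92) (nat_lit 0xbc0001780002ffdff) b18226 (.tok (nat_lit 65) (nat_lit 0xbc0001780002ff0f1) (.hit (nat_lit 24) (nat_lit 93) (nat_lit 0xbc0001780002ff0f1) b18227 (.hit (nat_lit 25) (nat_lit 94) (nat_lit 0xbc0001780002feac8) b18228 (.nil))) (.tok (nat_lit 68) (nat_lit 0xbc00017800030139f) (.hit (nat_lit 26) (nat_lit 95) (nat_lit 0xbc00017800030139f) b18229 (.one (nat_lit 3) (nat_lit 30) (nat_lit 99) (nat_lit 0xbc0001780002ff8a7) b18233 (.one (nat_lit 6) (nat_lit 27) (nat_lit 96) (nat_lit 0xbc0001780002ff3d4) b18230 (.tok (nat_lit 9) (nat_lit 0xbc0001780002ff640) (.hit (nat_lit 28) (nat_lit 97) (nat_lit 0xbc0001780002ff640) b18231 (.hit (nat_lit 29) (nat_lit 98) (nat_lit 0xbc0001780002feade) b18232 (.nil))) (.nil))))) (.one (nat_lit 71)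 (nat_lit 31) (nat_lit 100) (nat_lit 0xbc0001780002fe803) b18234 (.nil)))))))))))))) (.nil)
noncomputable def r20_193 : Rw Blk := .tok (nat_lit 6) (nat_lit 0xbc0001780002ffebf) (.hit (nat_lit 0) (nat_lit 0) (nat_lit 0xbc0001780002fe82a) b18235 (.tok (nat_lit 14) (nat_lit 0xbc0001780002ffd7a) (.hit (nat_lit 21) (nat_lit 61) (nat_lit 0xbc0001780002fecb0) b18236 (.one (nat_lit 3) (nat_lit 22) (nat_lit 62) (nat_lit 0xbc0001780002fea47) b18237 (.tok (nat_lit 6) (nat_lit 0xbc0001780002ffcc6) (.hit (nat_lit 25) (nat_lit 65) (nat_lit 0xbc0001780002fdf9d) b18238 (.hit (nat_lit 26) (nat_lit 66) (nat_lit 0xbc0001780002ffcc6) b18239 (.nil))) (.tok (nat_lit 9) (nat_lit 0xbc0001780002ffd7a) (.hit (nat_lit 23) (nat_lit 63) (nat_lit 0xbc0001780002ffd7a) b18240 (.hit (nat_lit 24) (nat_lit 64) (nat_lit 0xbc0001780002fe5dd) b18241 (.nil))) (.nil))))) (.one (nat_lit 17) (nat_lit 27) (nat_lit 67) (nat_lit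 0xbc0001780002fe4b0) b18242 (.tok (nat_lit 20) (nat_lit 0xbc0001780002ffebf) (.hit (nat_lit 28) (nat_lit 68) (nat_lit 0xbc0001780002ffebf) b18245 (.hit (nat_lit 29) (nat_lit 69) (nat_lit 0xbc0001780002fe50d) b18246 (.nil))) (.tok (nat_lit 23) (nat_lit 0xbc0001780002fe7ce) (.hit (nat_lit 30) (nat_lit 70) (nat_lit 0xbc0001780002fd81e) b18243 (.hit (nat_lit 31) (nat_lit 71) (nat_lit 0xbc0001780002fe7ce) b18244 (.nil))) (.one (nat_lit 26) (nat_lit 32) (nat_lit 72) (nat_lit 0xbc0001780002fe180) b18247 (.one (nat_lit 29) (nat_lit 33) (nat_lit 73) (nat_lit 0xbc0001780002fe1f7) b18248 (.one (nat_lit 32) (nat_lit 34) (nat_lit 74) (nat_lit 0xbc0001780002fd71d) b18250 (.one (nat_lit 35) (nat_lit 35) (nat_lit 75) (nat_lit 0xbc0001780002fe242) b18249 (.one (nat_lit 38) (nat_lit 36) (nat_lit 76) (nat_lit 0xbc0001780002fe492) b18251 (.tok (nat_lit 41) (nat_lit 0xbc0001780002fe521) (.hit (nat_lit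 37) (nat_lit 77) (nat_lit 0xbc0001780002fe3b2) b18252 (.hit (nat_lit 38) (nat_lit 78) (nat_lit 0xbc0001780002fe521) b18253 (.nil))) (.tok (nat_lit 44) (nat_lit 0xbc0001780002fec20) (.hit (nat_lit 39) (nat_lit 79) (nat_lit 0xbc0001780002fec20) b18256 (.hit (nat_lit 40) (nat_lit 80) (nat_lit 0xbc0001780002fe29d) b18257 (.nil))) (.tok (nat_lit 47) (nat_lit 0xbc0001780002fe4ba) (.hit (nat_lit 41) (nat_lit 81) (nat_lit 0xbc0001780002fb5d2) b18254 (.hit (nat_lit 42) (nat_lit 82) (nat_lit 0xbc0001780002fe4ba) b18255 (.nil))) (.one (nat_lit 62) (nat_lit 52) (nat_lit 92) (nat_lit 0xbc0001780002fe346) b18258 (.tok (nat_lit 65) (nat_lit 0xbc0001780002fe3c0) (.hit (nat_lit 53) (nat_lit 93) (nat_lit 0xbc0001780002fd84b) b18259 (.hit (nat_lit 54) (nat_lit 94) (nat_lit 0xbc0001780002fe3c0) b18260 (.nil))) (.tok (nat_lit 68) (nat_lit 0xbc0001780002fe906) (.hit (nat_lit 55) (nat_lit 95) (nat_lit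 0xbc0001780002fe906) b18261 (.one (nat_lit 3) (nat_lit 59) (nat_lit 99) (nat_lit 0xbc0001780002fd649) b18265 (.one (nat_lit 6) (nat_lit 56) (nat_lit 96) (nat_lit 0xbc0001780002fd4e8) b18262 (.tok (nat_lit 9) (nat_lit 0xbc0001780002fd977) (.hit (nat_lit 57) (nat_lit 97) (nat_lit 0xbc0001780002fd977) b18263 (.hit (nat_lit 58) (nat_lit 98) (nat_lit 0xbc0001780002fd725) b18264 (.nil))) (.nil))))) (.one (nat_lit 71) (nat_lit 60) (nat_lit 100) (nat_lit 0xbc0001780002fe2cf) b18266 (.nil)))))))))))))))))) (.tok (nat_lit 52) (nat_lit 0xbc00017800030082f) (.hit (nat_lit 176) (nat_lit 0) (nat_lit 0xbc00017800030031b) b18267 (.tok (nat_lit 6) (nat_lit 0xbc00017800030082f) (.hit (nat_lit 177) (nat_lit 7) (nat_lit 0xbc00017800030082f) b18270 (.hit (nat_lit 178) (nat_lit 15) (nat_lit 0xbc0001780002ff7c3) b18271 (.nil))) (.tok (nat_lit 9) (nat_lit 0xbc0001780002ffce9) (.hit (nat_lit 179) (nat_lit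 20) (nat_lit 0xbc0001780002fda3d) b18268 (.hit (nat_lit 180) (nat_lit 28) (nat_lit 0xbc0001780002ffce9) b18269 (.nil))) (.nil)))) (.tok (nat_lit 55) (nat_lit 0xbc000178000300a06) (.hit (nat_lit 187) (nat_lit 0) (nat_lit 0xbc000178000300a06) b18280 (.tok (nat_lit 3) (nat_lit 0xbc0001780002fe094) (.hit (nat_lit 188) (nat_lit 1) (nat_lit 0xbc0001780002fd34f) b18281 (.one (nat_lit 67) (nat_lit 189) (nat_lit 2) (nat_lit 0xbc0001780002fe094) b18282 (.nil))) (.tok (nat_lit 6) (nat_lit 0xbc0001780002fd362) (.hit (nat_lit 190) (nat_lit 7) (nat_lit 0xbc0001780002fd02e) b18283 (.hit (nat_lit 193) (nat_lit 15) (nat_lit 0xbc0001780002fd362) b18284 (.nil))) (.nil)))) (.tok (nat_lit 58) (nat_lit 0xbc00017800030058d) (.hit (nat_lit 201) (nat_lit 0) (nat_lit 0xbc0001780002ff98e) b18272 (.tok (nat_lit 3) (nat_lit 0xbc0001780002fed02) (.hit (nat_lit 202) (nat_lit 1) (nat_lit 0xbc0001780002fd47b)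 b18273 (.one (nat_lit 55) (nat_lit 203) (nat_lit 3) (nat_lit 0xbc0001780002fed02) b18274 (.nil))) (.tok (nat_lit 9) (nat_lit 0xbc00017800030058d) (.hit (nat_lit 204) (nat_lit 20) (nat_lit 0xbc0001780002fdbd8) b18275 (.hit (nat_lit 207) (nat_lit 28) (nat_lit 0xbc0001780002fd28f) b18278 (.tok (nat_lit 67) (nat_lit 0xbc00017800030058d) (.hit (nat_lit 205) (nat_lit 21) (nat_lit 0xbc0001780002fe87d) b18276 (.hit (nat_lit 208) (nat_lit 29) (nat_lit 0xbc0001780002fec4e) b18279 (.one (nat_lit 9) (nat_lit 206) (nat_lit 22) (nat_lit 0xbc00017800030058d) b18277 (.nil)))) (.nil)))) (.nil)))) (.nil))))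
noncomputable def r20_194 : Rw Blk := .tok (nat_lit 3) (nat_lit 0xbc0001780003018d6) (.hit (nat_lit 15) (nat_lit 0) (nat_lit 0xbc0001780002ff056) b18292 (.tok (nat_lit 9) (nat_lit 0xbc0001780002fea15) (.hit (nat_lit 16) (nat_lit 20) (nat_lit 0xbc0001780002fd440) b18293 (.hit (nat_lit 21) (nat_lit 28) (nat_lit 0xbc0001780002fb387) b18298 (.tok (nat_lit 14) (nat_lit 0xbc0001780002fe3bb) (.hit (nat_lit 17) (nat_lit 24) (nat_lit 0xbc0001780002fdbfb) b18294 (.hit (nat_lit 22) (nat_lit 30) (nat_lit 0xbc0001780002fdb16) b18299 (.one (nat_lit 6) (nat_lit 18) (nat_lit 25) (nat_lit 0xbc0001780002fe3bb) b18295 (.nil)))) (.tok (nat_lit 68) (nat_lit 0xbc0001780002fea15) (.hit (nat_lit 19) (nat_lit 26) (nat_lit 0xbc0001780002fdfe7) b18296 (.hit (nat_lit 24) (nat_lit 32) (nat_lit 0xbc0001780002fd800) b18300 (.one (nat_lit 9) (nat_lit 20) (nat_lit 27) (nat_lit 0xbc0001780002fea15) b18297 (.nil))))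 (.nil))))) (.tok (nat_lit 64) (nat_lit 0xbc0001780002fe661) (.hit (nat_lit 25) (nat_lit 50) (nat_lit 0xbc0001780002fe661) b18301 (.hit (nat_lit 26) (nat_lit 51) (nat_lit 0xbc0001780002fe1fa) b18302 (.nil))) (.tok (nat_lit 67) (nat_lit 0xbc0001780003018d6) (.hit (nat_lit 27) (nat_lit 52) (nat_lit 0xbc0001780003018d6) b18303 (.tok (nat_lit 3) (nat_lit 0xbc0001780002ff1e7) (.hit (nat_lit 33) (nat_lit 58) (nat_lit 0xbc0001780002fed86) b18309 (.one (nat_lit 55) (nat_lit 34) (nat_lit 59) (nat_lit 0xbc0001780002ff1e7) b18310 (.nil))) (.tok (nat_lit 9) (nat_lit 0xbc0001780002ff401) (.hit (nat_lit 28) (nat_lit 53) (nat_lit 0xbc0001780002fe3d6) b18304 (.hit (nat_lit 31) (nat_lit 56) (nat_lit 0xbc0001780002fe144) b18307 (.tok (nat_lit 67) (nat_lit 0xbc0001780002ff401) (.hit (nat_lit 29) (nat_lit 54) (nat_lit 0xbc0001780002ff401) b18305 (.hit (nat_lit 32) (nat_lit 57) (nat_lit 0xbc0001780002fed4a)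 b18308 (.one (nat_lit 9) (nat_lit 30) (nat_lit 55) (nat_lit 0xbc0001780002fe567) b18306 (.nil)))) (.nil)))) (.nil)))) (.one (nat_lit 70) (nat_lit 35) (nat_lit 60) (nat_lit 0xbc0001780002ff1d7) b18311 (.nil)))))) (.tok (nat_lit 6) (nat_lit 0xbc0001780003019f8) (.hit (nat_lit 0) (nat_lit 0) (nat_lit 0xbc000178000300c94) b18285 (.tok (nat_lit 6) (nat_lit 0xbc0001780003019f8) (.hit (nat_lit 1) (nat_lit 7) (nat_lit 0xbc0001780002ff193) b18286 (.hit (nat_lit 4) (nat_lit 15) (nat_lit 0xbc0001780002fdc90) b18289 (.tok (nat_lit 14) (nat_lit 0xbc0001780003019f8) (.hit (nat_lit 2) (nat_lit 11) (nat_lit 0xbc0001780003019f8) b18287 (.hit (nat_lit 5) (nat_lit 17) (nat_lit 0xbc0001780002ff29e) b18290 (.one (nat_lit 9) (nat_lit 3) (nat_lit 12) (nat_lit 0xbc000178000300d21) b18288 (.nil)))) (.one (nat_lit 68) (nat_lit 6) (nat_lit 18) (nat_lit 0xbc0001780002fee46) b18291 (.nil))))) (.nil))) (.nil))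
noncomputable def r20_195 : Rw Blk := .tok (nat_lit 3) (nat_lit 0x2fdbc95f8d20bf7f017ef652fdc695fc252bf92217ee4e2fdae2) (.hit (nat_lit 0) (nat_lit 0) (nat_lit 0x2fdbc95f8d20bf7f017ef652fdc695fc252bf92217ee4e2fdae2) b36002 (.tok (nat_lit 6) (nat_lit 0x2fce9d5f5e9abf74a57e8cf2fd19e5f782abf086d7e7472fcea4) (.hit (nat_lit 1) (nat_lit 7) (nat_lit 0x2fce9d5f5e9abf74a57e8cf2fd19e5f782abf086d7e7472fcea4) b18313 (.hit (nat_lit 6) (nat_lit 15) (nat_lit 0x2fcc2e5f59bcbf54957e797afcf2f5f734cbefeb17e60fafcc35) b18314 (.nil))) (.tok (nat_lit 9) (nat_lit 0x2fce9d5f5e9abf74a57e8cf2fd19e5f782abf086d7e7472fcea4) (.hit (nat_lit 10) (nat_lit 20) (nat_lit 0x2fce9d5f5e9abf74a57e8cf2fd19e5f782abf086d7e7472fcea4) b18313 (.hit (nat_lit 15) (nat_lit 28) (nat_lit 0x2fcc2e5f59bcbf54957e797afcf2f5f734cbefeb17e60fafcc35) b18314 (.nil))) (.nil)))) (.tok (nat_lit 6) (nat_lit 0x2ff21a5fbbd4bfc5157fd35aff7fa5fce04bfb8397fa882ff357)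 (.hit (nat_lit 81) (nat_lit 0) (nat_lit 0x2ff20c5fbbd4bfacc17fc7c2ff6995fce04bfb8397f9c9aff1d9) b18324 (.tok (nat_lit 3) (nat_lit 0x2ff21a5fa8e8bfc5157fd35aff7fa5f9972bf4afd7fa882ff357) (.hit (nat_lit 82) (nat_lit 1) (nat_lit 0x2fd7095f740ebf6ec97ef91afdcc25f6816bee8457ecdf2fd804) b18325 (.one (nat_lit 67) (nat_lit 83) (nat_lit 2) (nat_lit 0x2ff21a5fa8e8bfc5157fd35aff7fa5f9972bf4afd7fa882ff357) b18326 (.nil))) (.tok (nat_lit 6) (nat_lit 0x2feafe5fb088bfa3a57f7a5aff03f5f8e8ebf35357f3cbafe5dd) (.hit (nat_lit 87) (nat_lit 7) (nat_lit 0x2feafe5fb088bfa3a57f7a5aff03f5f8e8ebf35357f3cbafe5dd) b18327 (.hit (nat_lit 95) (nat_lit 15) (nat_lit 0x2fd93f5f7342bf4f757f0622fde635f5726bec6657edafafd9a5) b18328 (.nil))) (.nil)))) (.tok (nat_lit 9) (nat_lit 0x300000600000c0000180000300000601de0c0480580000300000) (.hit (nat_lit 157) (nat_lit 0) (nat_lit 0x2ff20c5fbbd4bfacc17f7a22fece75fd6c0bfb74d7f70e2fec07)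 b18315 (.tok (nat_lit 3) (nat_lit 0x2ff21a5fa8e8bfc5157f835afee0a5ff830c00e057f8d9aff237) (.hit (nat_lit 158) (nat_lit 1) (nat_lit 0x2fd7095f740ebf6ec97ea78afd2905fb9f2bf80a57eab6afd3b8) b18316 (.one (nat_lit 55) (nat_lit 159) (nat_lit 3) (nat_lit 0x2ff21a5fa8e8bfc5157f835afee0a5ff830c00e057f8d9aff237) b18317 (.nil))) (.tok (nat_lit 9) (nat_lit 0x300000600000c0000180000300000601de0c0480580000300000) (.hit (nat_lit 163) (nat_lit 20) (nat_lit 0x2feafe5fb088bfa3a57f1572fe04d5fd78cbfb3cd7f19eafe183) b18318 (.hit (nat_lit 171) (nat_lit 28) (nat_lit 0x2fd93f5f7342bf4f757eb492fd4315fb720bf6dc17eb8e2fd5e4) b18322 (.tok (nat_lit 67) (nat_lit 0x300000600000c0000180000300000601de0c0480580000300000) (.hit (nat_lit 164) (nat_lit 21) (nat_lit 0x2ffec45fcfe8bfc3bd7fee4affb685ff7b8c006f97ff1e2ffc82) b18319 (.hit (nat_lit 172) (nat_lit 29) (nat_lit 0x2ff1d75fac44bfbcdd7f923afefe65fe8b4bfe1cd7fa1baff59f)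 b18323 (.tok (nat_lit 9) (nat_lit 0x300000600000c0000180000300000601de0c0480580000300000) (.hit (nat_lit 165) (nat_lit 22) (nat_lit 0x2ff4095fdf8ebfc9497f958aff2b160057ac014f17f9952ff14e) b18320 (.one (nat_lit 67) (nat_lit 166) (nat_lit 23) (nat_lit 0x300000600000c0000180000300000601de0c0480580000300000) b18321 (.nil))) (.nil)))) (.nil)))) (.nil)))) (.nil)))
noncomputable def r20_196 : Rw Blk := .tok (nat_lit 6) (nat_lit 0xbc000178000300000) (.hit (nat_lit 51) (nat_lit 0) (nat_lit 0xbc0001780002ff743) b8943 (.tok (nat_lit 3) (nat_lit 0xbc0001780002ffecc) (.hit (nat_lit 52) (nat_lit 1) (nat_lit 0xbc0001780002fdccb) b8944 (.one (nat_lit 14) (nat_lit 53) (nat_lit 4) (nat_lit 0xbc0001780002ffecc) b9239 (.one (nat_lit 56) (nat_lit 55) (nat_lit 6) (nat_lit 0xbc0001780002ff720) b8945 (.one (nat_lit 68) (nat_lit 54) (nat_lit 5) (nat_lit 0xbc0001780002fef3e) b8946 (.nil))))) (.tok (nat_lit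 40) (nat_lit 0xbc0001780002ff5de) (.hit (nat_lit 56) (nat_lit 33) (nat_lit 0xbc0001780002ff5de) b8947 (.hit (nat_lit 57) (nat_lit 34) (nat_lit 0xbc0001780002ff3d8) b8948 (.nil))) (.tok (nat_lit 43) (nat_lit 0xbc000178000300000) (.hit (nat_lit 58) (nat_lit 35) (nat_lit 0xbc000178000300000) b8951 (.hit (nat_lit 59) (nat_lit 36) (nat_lit 0xbc0001780002ff6ae) b8952 (.nil))) (.tok (nat_lit 46) (nat_lit 0xbc0001780002ffbd8) (.hit (nat_lit 60) (nat_lit 37) (nat_lit 0xbc0001780002fe56f) b8949 (.hit (nat_lit 61) (nat_lit 38) (nat_lit 0xbc0001780002ffbd8) b8950 (.nil))) (.nil)))))) (.tok (nat_lit 9) (nat_lit 0xbc0001780002ffecc) (.hit (nat_lit 0) (nat_lit 0) (nat_lit 0xbc0001780002ff743) b8943 (.tok (nat_lit 3) (nat_lit 0xbc0001780002ffecc) (.hit (nat_lit 1) (nat_lit 1) (nat_lit 0xbc0001780002fdccb) b8944 (.one (nat_lit 14) (nat_lit 2) (nat_lit 4) (nat_lit 0xbc0001780002ffecc) b9239 (.one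 (nat_lit 56) (nat_lit 4) (nat_lit 6) (nat_lit 0xbc0001780002fef3e) b8946 (.one (nat_lit 68) (nat_lit 3) (nat_lit 5) (nat_lit 0xbc0001780002ff720) b8945 (.nil))))) (.nil))) (.nil))
noncomputable def r20_197 : Rw Blk := .tok (nat_lit 3) (nat_lit 0xbc0001780002fde12) (.hit (nat_lit 61) (nat_lit 0) (nat_lit 0xbc0001780002fd24b) b8970 (.tok (nat_lit 9) (nat_lit 0xbc0001780002fd581) (.hit (nat_lit 62) (nat_lit 20) (nat_lit 0xbc0001780002fbbf9) b8971 (.hit (nat_lit 67) (nat_lit 28) (nat_lit 0xbc0001780002fadd7) b8974 (.tok (nat_lit 14) (nat_lit 0xbc0001780002fcdff) (.hit (nat_lit 63) (nat_lit 24) (nat_lit 0xbc0001780002fbe0c) b9665 (.hit (nat_lit 68) (nat_lit 30) (nat_lit 0xbc0001780002fc1ee) b9667 (.one (nat_lit 6) (nat_lit 64) (nat_lit 25) (nat_lit 0xbc0001780002fcdff) b9666 (.nil)))) (.tok (nat_lit 68) (nat_lit 0xbc0001780002fd581) (.hit (nat_lit 65) (nat_lit 26) (nat_lit 0xbc0001780002fcd73)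 b8972 (.hit (nat_lit 70) (nat_lit 32) (nat_lit 0xbc0001780002fbed5) b8976 (.one (nat_lit 9) (nat_lit 66) (nat_lit 27) (nat_lit 0xbc0001780002fd581) b8973 (.nil)))) (.nil))))) (.tok (nat_lit 64) (nat_lit 0xbc0001780002fc70f) (.hit (nat_lit 71) (nat_lit 50) (nat_lit 0xbc0001780002fbf8c) b8977 (.hit (nat_lit 72) (nat_lit 51) (nat_lit 0xbc0001780002fc70f) b8978 (.nil))) (.tok (nat_lit 67) (nat_lit 0xbc0001780002fde12) (.hit (nat_lit 73) (nat_lit 52) (nat_lit 0xbc0001780002fdd96) b8979 (.tok (nat_lit 3) (nat_lit 0xbc0001780002fde12) (.hit (nat_lit 79) (nat_lit 58) (nat_lit 0xbc0001780002fd3b5) b8985 (.one (nat_lit 55) (nat_lit 80) (nat_lit 59) (nat_lit 0xbc0001780002fde12) b9668 (.nil))) (.tok (nat_lit 9) (nat_lit 0xbc0001780002fd8c9) (.hit (nat_lit 74) (nat_lit 53) (nat_lit 0xbc0001780002fc8f3) b8980 (.hit (nat_lit 77) (nat_lit 56) (nat_lit 0xbc0001780002fcc00) b8983 (.tok (nat_lit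 67) (nat_lit 0xbc0001780002fd8c9) (.hit (nat_lit 75) (nat_lit 54) (nat_lit 0xbc0001780002fd809) b8981 (.hit (nat_lit 78) (nat_lit 57) (nat_lit 0xbc0001780002fd8c9) b8984 (.one (nat_lit 9) (nat_lit 76) (nat_lit 55) (nat_lit 0xbc0001780002fd3cd) b8982 (.nil)))) (.nil)))) (.nil)))) (.one (nat_lit 70) (nat_lit 81) (nat_lit 60) (nat_lit 0xbc0001780002fc7be) b8986 (.nil)))))) (.tok (nat_lit 6) (nat_lit 0xbc000178000300000) (.hit (nat_lit 0) (nat_lit 0) (nat_lit 0xbc0001780002feb42) b8953 (.tok (nat_lit 6) (nat_lit 0xbc000178000300000) (.hit (nat_lit 1) (nat_lit 7) (nat_lit 0xbc0001780002fd8ca) b8954 (.hit (nat_lit 6) (nat_lit 15) (nat_lit 0xbc0001780002fc64d) b8957 (.tok (nat_lit 14) (nat_lit 0xbc0001780002ff85a) (.hit (nat_lit 2) (nat_lit 11) (nat_lit 0xbc0001780002ff85a) b9662 (.hit (nat_lit 7) (nat_lit 17) (nat_lit 0xbc0001780002fe69f) b9664 (.one (nat_lit 9) (nat_lit 3) (nat_lit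 12) (nat_lit 0xbc0001780002ff70f) b9663 (.nil)))) (.tok (nat_lit 56) (nat_lit 0xbc000178000300000) (.hit (nat_lit 4) (nat_lit 13) (nat_lit 0xbc0001780002fefdc) b8955 (.hit (nat_lit 9) (nat_lit 19) (nat_lit 0xbc0001780002fd664) b8959 (.one (nat_lit 6) (nat_lit 5) (nat_lit 14) (nat_lit 0xbc000178000300000) b8956 (.nil)))) (.one (nat_lit 68) (nat_lit 8) (nat_lit 18) (nat_lit 0xbc0001780002fdb60) b8958 (.nil)))))) (.nil))) (.nil))
noncomputable def r20_198 : Rw Blk := .tok (nat_lit 3) (nat_lit 0xbc000178000300000) (.hit (nat_lit 61) (nat_lit 0) (nat_lit 0xbc0001780002fe458) b9679 (.tok (nat_lit 9) (nat_lit 0xbc0001780002fe986) (.hit (nat_lit 62) (nat_lit 20) (nat_lit 0xbc0001780002fc969) b9680 (.hit (nat_lit 67) (nat_lit 28) (nat_lit 0xbc0001780002fccd8) b9685 (.tok (nat_lit 14) (nat_lit 0xbc0001780002fe986) (.hit (nat_lit 63) (nat_lit 24) (nat_lit 0xbc0001780002fdef7) b9681 (.hit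 (nat_lit 68) (nat_lit 30) (nat_lit 0xbc0001780002fdbe8) b9686 (.one (nat_lit 6) (nat_lit 64) (nat_lit 25) (nat_lit 0xbc0001780002fe986) b9682 (.nil)))) (.tok (nat_lit 68) (nat_lit 0xbc0001780002fe4bc) (.hit (nat_lit 65) (nat_lit 26) (nat_lit 0xbc0001780002fe13b) b9683 (.hit (nat_lit 70) (nat_lit 32) (nat_lit 0xbc0001780002fdd09) b9687 (.one (nat_lit 9) (nat_lit 66) (nat_lit 27) (nat_lit 0xbc0001780002fe4bc) b9684 (.nil)))) (.nil))))) (.tok (nat_lit 64) (nat_lit 0xbc0001780002fe727) (.hit (nat_lit 71) (nat_lit 50) (nat_lit 0xbc0001780002fdff1) b9688 (.hit (nat_lit 72) (nat_lit 51) (nat_lit 0xbc0001780002fe727) b9689 (.nil))) (.tok (nat_lit 67) (nat_lit 0xbc000178000300000) (.hit (nat_lit 73) (nat_lit 52) (nat_lit 0xbc0001780002ff6c3) b9690 (.tok (nat_lit 3) (nat_lit 0xbc0001780002ff70a) (.hit (nat_lit 79) (nat_lit 58) (nat_lit 0xbc0001780002fef58) b9696 (.one (nat_lit 55) (nat_lit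 80) (nat_lit 59) (nat_lit 0xbc0001780002ff70a) b9697 (.nil))) (.tok (nat_lit 9) (nat_lit 0xbc000178000300000) (.hit (nat_lit 74) (nat_lit 53) (nat_lit 0xbc0001780002ff8b2) b9691 (.hit (nat_lit 77) (nat_lit 56) (nat_lit 0xbc0001780002fe613) b9694 (.tok (nat_lit 67) (nat_lit 0xbc000178000300000) (.hit (nat_lit 75) (nat_lit 54) (nat_lit 0xbc000178000300000) b9692 (.hit (nat_lit 78) (nat_lit 57) (nat_lit 0xbc0001780002ff758) b9695 (.one (nat_lit 9) (nat_lit 76) (nat_lit 55) (nat_lit 0xbc0001780002ff868) b9693 (.nil)))) (.nil)))) (.nil)))) (.one (nat_lit 70) (nat_lit 81) (nat_lit 60) (nat_lit 0xbc0001780002fe6b7) b9698 (.nil)))))) (.tok (nat_lit 6) (nat_lit 0xbc0001780002fff7c) (.hit (nat_lit 0) (nat_lit 0) (nat_lit 0xbc0001780002ff20f) b9669 (.tok (nat_lit 6) (nat_lit 0xbc0001780002fff7c) (.hit (nat_lit 1) (nat_lit 7) (nat_lit 0xbc0001780002fe639) b9670 (.hit (nat_lit 6) (nat_lit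 15) (nat_lit 0xbc0001780002fd8e0) b9675 (.tok (nat_lit 14) (nat_lit 0xbc0001780002fff7c) (.hit (nat_lit 2) (nat_lit 11) (nat_lit 0xbc0001780002ff6f2) b9671 (.hit (nat_lit 7) (nat_lit 17) (nat_lit 0xbc0001780002fff7c) b9676 (.one (nat_lit 9) (nat_lit 3) (nat_lit 12) (nat_lit 0xbc0001780002ff63a) b9672 (.nil)))) (.tok (nat_lit 56) (nat_lit 0xbc0001780002ff66d) (.hit (nat_lit 4) (nat_lit 13) (nat_lit 0xbc0001780002ff598) b9673 (.hit (nat_lit 9) (nat_lit 19) (nat_lit 0xbc0001780002ff56e) b9678 (.one (nat_lit 6) (nat_lit 5) (nat_lit 14) (nat_lit 0xbc0001780002ff66d) b9674 (.nil)))) (.one (nat_lit 68) (nat_lit 8) (nat_lit 18) (nat_lit 0xbc0001780002ff5ca) b9677 (.nil)))))) (.nil))) (.nil))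
noncomputable def r20_199 : Rw Blk := .tok (nat_lit 3) (nat_lit 0xbc0001780002fdf62) (.hit (nat_lit 61) (nat_lit 0) (nat_lit 0xbc0001780002fd39b) b18350 (.tok (nat_lit 6) (nat_lit 0xbc0001780002fcf4f) (.hit (nat_lit 62) (nat_lit 7) (nat_lit 0xbc0001780002fbd49) b18351 (.hit (nat_lit 67) (nat_lit 15) (nat_lit 0xbc0001780002faf27) b18354 (.tok (nat_lit 14) (nat_lit 0xbc0001780002fcf4f) (.hit (nat_lit 63) (nat_lit 11) (nat_lit 0xbc0001780002fbf5c) b18352 (.hit (nat_lit 68) (nat_lit 17) (nat_lit 0xbc0001780002fc33e) b18355 (.one (nat_lit 9) (nat_lit 64) (nat_lit 12) (nat_lit 0xbc0001780002fcf4f) b18353 (.nil)))) (.one (nat_lit 68) (nat_lit 69) (nat_lit 18) (nat_lit 0xbc0001780002fc1a5) b18356 (.nil))))) (.tok (nat_lit 52) (nat_lit 0xbc0001780002fc85f) (.hit (nat_lit 71) (nat_lit 39) (nat_lit 0xbc0001780002fc0dc) b18357 (.hit (nat_lit 72) (nat_lit 40) (nat_lit 0xbc0001780002fc85f)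 b18358 (.nil))) (.tok (nat_lit 55) (nat_lit 0xbc0001780002fdf62) (.hit (nat_lit 73) (nat_lit 41) (nat_lit 0xbc0001780002fdee6) b18359 (.tok (nat_lit 3) (nat_lit 0xbc0001780002fdf62) (.hit (nat_lit 79) (nat_lit 47) (nat_lit 0xbc0001780002fd505) b18362 (.one (nat_lit 67) (nat_lit 80) (nat_lit 48) (nat_lit 0xbc0001780002fdf62) b18363 (.nil))) (.tok (nat_lit 6) (nat_lit 0xbc0001780002fcd50) (.hit (nat_lit 74) (nat_lit 42) (nat_lit 0xbc0001780002fca43) b18360 (.hit (nat_lit 77) (nat_lit 45) (nat_lit 0xbc0001780002fcd50) b18361 (.nil))) (.nil)))) (.one (nat_lit 58) (nat_lit 81) (nat_lit 49) (nat_lit 0xbc0001780002fc90e) b18364 (.nil)))))) (.tok (nat_lit 9) (nat_lit 0xbc000178000300193) (.hit (nat_lit 0) (nat_lit 0) (nat_lit 0xbc0001780002fec92) b18329 (.tok (nat_lit 9) (nat_lit 0xbc000178000300150) (.hit (nat_lit 1) (nat_lit 20) (nat_lit 0xbc0001780002fda1a) b18330 (.hit (nat_lit 6)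 (nat_lit 28) (nat_lit 0xbc0001780002fc79d) b18335 (.tok (nat_lit 14) (nat_lit 0xbc0001780002ff9aa) (.hit (nat_lit 2) (nat_lit 24) (nat_lit 0xbc0001780002ff9aa) b18331 (.hit (nat_lit 7) (nat_lit 30) (nat_lit 0xbc0001780002fe7ef) b18336 (.one (nat_lit 6) (nat_lit 3) (nat_lit 25) (nat_lit 0xbc0001780002ff85f) b18332 (.nil)))) (.one (nat_lit 56) (nat_lit 8) (nat_lit 31) (nat_lit 0xbc0001780002fdcb0) b18337 (.tok (nat_lit 68) (nat_lit 0xbc000178000300150) (.hit (nat_lit 4) (nat_lit 26) (nat_lit 0xbc0001780002ff12c) b18333 (.hit (nat_lit 9) (nat_lit 32) (nat_lit 0xbc0001780002fd7b4) b18338 (.one (nat_lit 9) (nat_lit 5) (nat_lit 27) (nat_lit 0xbc000178000300150) b18334 (.nil)))) (.nil)))))) (.tok (nat_lit 64) (nat_lit 0xbc0001780002fec3d) (.hit (nat_lit 10) (nat_lit 50) (nat_lit 0xbc0001780002fdf0a) b18339 (.hit (nat_lit 11) (nat_lit 51) (nat_lit 0xbc0001780002fec3d) b18340 (.nil)))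 (.tok (nat_lit 67) (nat_lit 0xbc000178000300193) (.hit (nat_lit 12) (nat_lit 52) (nat_lit 0xbc0001780002ffa18) b18341 (.tok (nat_lit 3) (nat_lit 0xbc000178000300193) (.hit (nat_lit 18) (nat_lit 58) (nat_lit 0xbc0001780002fee20) b18347 (.one (nat_lit 55) (nat_lit 19) (nat_lit 59) (nat_lit 0xbc000178000300193) b18348 (.nil))) (.tok (nat_lit 9) (nat_lit 0xbc0001780002ffe14) (.hit (nat_lit 13) (nat_lit 53) (nat_lit 0xbc0001780002fe285) b18342 (.hit (nat_lit 16) (nat_lit 56) (nat_lit 0xbc0001780002fee7b) b18345 (.tok (nat_lit 67) (nat_lit 0xbc0001780002ffe14) (.hit (nat_lit 14) (nat_lit 54) (nat_lit 0xbc0001780002ff850) b18343 (.hit (nat_lit 17) (nat_lit 57) (nat_lit 0xbc0001780002ffe14) b18346 (.one (nat_lit 9) (nat_lit 15) (nat_lit 55) (nat_lit 0xbc0001780002ff8fd) b18344 (.nil)))) (.nil)))) (.nil)))) (.one (nat_lit 70) (nat_lit 20) (nat_lit 60) (nat_lit 0xbc0001780002fee69) b18349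 (.nil)))))) (.nil))
noncomputable def r20_200 : Rw Blk := .tok (nat_lit 3) (nat_lit 0xbc0001780002fd67d) (.hit (nat_lit 61) (nat_lit 0) (nat_lit 0xbc0001780002fc223) b18386 (.tok (nat_lit 6) (nat_lit 0xbc0001780002fc751) (.hit (nat_lit 62) (nat_lit 7) (nat_lit 0xbc0001780002fa734) b18387 (.hit (nat_lit 67) (nat_lit 15) (nat_lit 0xbc0001780002faaa3) b18390 (.tok (nat_lit 14) (nat_lit 0xbc0001780002fc751) (.hit (nat_lit 63) (nat_lit 11) (nat_lit 0xbc0001780002fbcc2) b18388 (.hit (nat_lit 68) (nat_lit 17) (nat_lit 0xbc0001780002fb9b3) b18391 (.one (nat_lit 9) (nat_lit 64) (nat_lit 12) (nat_lit 0xbc0001780002fc751) b18389 (.nil)))) (.one (nat_lit 68) (nat_lit 69) (nat_lit 18) (nat_lit 0xbc0001780002fc0d9) b18392 (.nil))))) (.tok (nat_lit 52) (nat_lit 0xbc0001780002fc4f2) (.hit (nat_lit 71) (nat_lit 39) (nat_lit 0xbc0001780002fbdbc) b18393 (.hit (nat_lit 72) (nat_lit 40) (nat_lit 0xbc0001780002fc4f2)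 b18394 (.nil))) (.tok (nat_lit 55) (nat_lit 0xbc0001780002fd67d) (.hit (nat_lit 73) (nat_lit 41) (nat_lit 0xbc0001780002fd48e) b18395 (.tok (nat_lit 3) (nat_lit 0xbc0001780002fd4d5) (.hit (nat_lit 79) (nat_lit 47) (nat_lit 0xbc0001780002fcd23) b18398 (.one (nat_lit 67) (nat_lit 80) (nat_lit 48) (nat_lit 0xbc0001780002fd4d5) b18399 (.nil))) (.tok (nat_lit 6) (nat_lit 0xbc0001780002fd67d) (.hit (nat_lit 74) (nat_lit 42) (nat_lit 0xbc0001780002fd67d) b18396 (.hit (nat_lit 77) (nat_lit 45) (nat_lit 0xbc0001780002fc3de) b18397 (.nil))) (.nil)))) (.one (nat_lit 58) (nat_lit 81) (nat_lit 49) (nat_lit 0xbc0001780002fc482) b18400 (.nil)))))) (.tok (nat_lit 9) (nat_lit 0xbc000178000300842) (.hit (nat_lit 0) (nat_lit 0) (nat_lit 0xbc0001780002fcfda) b18365 (.tok (nat_lit 9) (nat_lit 0xbc0001780002fdd47) (.hit (nat_lit 1) (nat_lit 20) (nat_lit 0xbc0001780002fc404) b18366 (.hit (nat_lit 6)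 (nat_lit 28) (nat_lit 0xbc0001780002fb6ab) b18371 (.tok (nat_lit 14) (nat_lit 0xbc0001780002fdd47) (.hit (nat_lit 2) (nat_lit 24) (nat_lit 0xbc0001780002fd4bd) b18367 (.hit (nat_lit 7) (nat_lit 30) (nat_lit 0xbc0001780002fdd47) b18372 (.one (nat_lit 6) (nat_lit 3) (nat_lit 25) (nat_lit 0xbc0001780002fd405) b18368 (.nil)))) (.one (nat_lit 56) (nat_lit 8) (nat_lit 31) (nat_lit 0xbc0001780002fd395) b18373 (.tok (nat_lit 68) (nat_lit 0xbc0001780002fd438) (.hit (nat_lit 4) (nat_lit 26) (nat_lit 0xbc0001780002fd363) b18369 (.hit (nat_lit 9) (nat_lit 32) (nat_lit 0xbc0001780002fd339) b18374 (.one (nat_lit 9) (nat_lit 5) (nat_lit 27) (nat_lit 0xbc0001780002fd438) b18370 (.nil)))) (.nil)))))) (.tok (nat_lit 64) (nat_lit 0xbc0001780002fd9d8) (.hit (nat_lit 10) (nat_lit 50) (nat_lit 0xbc0001780002fc9c5) b18375 (.hit (nat_lit 11) (nat_lit 51) (nat_lit 0xbc0001780002fd9d8) b18376 (.nil)))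 (.tok (nat_lit 67) (nat_lit 0xbc000178000300842) (.hit (nat_lit 12) (nat_lit 52) (nat_lit 0xbc0001780002fdf5a) b18377 (.tok (nat_lit 3) (nat_lit 0xbc0001780002fe467) (.hit (nat_lit 18) (nat_lit 58) (nat_lit 0xbc0001780002fd1ac) b18383 (.one (nat_lit 55) (nat_lit 19) (nat_lit 59) (nat_lit 0xbc0001780002fe467) b18384 (.nil))) (.tok (nat_lit 9) (nat_lit 0xbc000178000300842) (.hit (nat_lit 13) (nat_lit 53) (nat_lit 0xbc0001780002fe4bc) b18378 (.hit (nat_lit 16) (nat_lit 56) (nat_lit 0xbc0001780002fe0bd) b18381 (.tok (nat_lit 67) (nat_lit 0xbc000178000300842) (.hit (nat_lit 14) (nat_lit 54) (nat_lit 0xbc000178000300134) b18379 (.hit (nat_lit 17) (nat_lit 57) (nat_lit 0xbc0001780002fdcd3) b18382 (.one (nat_lit 9) (nat_lit 15) (nat_lit 55) (nat_lit 0xbc000178000300842) b18380 (.nil)))) (.nil)))) (.nil)))) (.one (nat_lit 70) (nat_lit 20) (nat_lit 60) (nat_lit 0xbc0001780002fd826) b18385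 (.nil)))))) (.nil))
noncomputable def r20_201 : Rw Blk := .tok (nat_lit 3) (nat_lit 0xbfb70d7f577aff6bb5fe728bfc05d7f9202ff25d) (.hit (nat_lit 0) (nat_lit 0) (nat_lit 0xbf16957e28b2fd93b5fa744bf42bd7ea39afd2ea) b36003 (.tok (nat_lit 6) (nat_lit 0xbf355d7e51e2fee6d5fb53cbf5c657ee6aafd960) (.hit (nat_lit 1) (nat_lit 7) (nat_lit 0xbee3f97daf1afdd3f5f8c8abf0b017e43e2fc507) b17658 (.hit (nat_lit 6) (nat_lit 15) (nat_lit 0xbeda3d7d9ba2fd2215f87acbf01457e306afc298) b17663 (.tok (nat_lit 14) (nat_lit 0xbf2fe97e46fafe41f5fb282bf56f17edbc2fd803) (.hit (nat_lit 2) (nat_lit 11) (nat_lit 0xbefe697de3fafdd135f99c2bf25717e78c2fcba3) b17659 (.hit (nat_lit 7) (nat_lit 17) (nat_lit 0xbefa757ddc12fdb4d5f97c8bf217d7e70dafcaa6) b17664 (.one (nat_lit 9) (nat_lit 3) (nat_lit 12) (nat_lit 0xbf2fe97e46fafe41f5fb282bf56f17edbc2fd803) b17660 (.nil)))) (.tok (nat_lit 56) (nat_lit 0xbf355d7e51e2fee6d5fb53cbf5c657ee6aafd960)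 (.hit (nat_lit 4) (nat_lit 13) (nat_lit 0xbf14bd7e10a2fe7265fa4ecbf3bc57ea56afd138) b17661 (.hit (nat_lit 9) (nat_lit 19) (nat_lit 0xbf044d7defc2fdceb5f9cb4bf2b557e848afcd1c) b17666 (.one (nat_lit 6) (nat_lit 5) (nat_lit 14) (nat_lit 0xbf355d7e51e2fee6d5fb53cbf5c657ee6aafd960) b17662 (.nil)))) (.one (nat_lit 68) (nat_lit 8) (nat_lit 18) (nat_lit 0xbf2ef17e450afe7d35fb206bf55f97ed9d2fd7c5) b17665 (.nil)))))) (.tok (nat_lit 52) (nat_lit 0xbf0a357dfb92fe3915f9fa8bf313d7e905afce96) (.hit (nat_lit 19) (nat_lit 39) (nat_lit 0xbefd8d7de242fd99b5f9954bf24957e770afcb6c) b17667 (.hit (nat_lit 20) (nat_lit 40) (nat_lit 0xbf0a357dfb92fe3915f9fa8bf313d7e905afce96) b17668 (.nil))) (.tok (nat_lit 55) (nat_lit 0xbfb70d7f577aff6bb5fe728bfc05d7f9202ff25d) (.hit (nat_lit 21) (nat_lit 41) (nat_lit 0xbfb70d7f577aff6bb5fd11ebf94217f81cafe810) b17669 (.tok (nat_lit 3) (nat_lit 0xbf4cb17e808aff4885fc0e6bf73b97f1552fdf35)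 (.hit (nat_lit 27) (nat_lit 47) (nat_lit 0xbf2e157e4352ff4885fb198bf551d7ed81afd78e) b17675 (.one (nat_lit 67) (nat_lit 28) (nat_lit 48) (nat_lit 0xbf4cb17e808afed2a5fc0e6bf73b97f1552fdf35) b17676 (.nil))) (.tok (nat_lit 6) (nat_lit 0xbf8cb57f3d6aff34f5fe728bfc05d7f9202ff25d) (.hit (nat_lit 22) (nat_lit 42) (nat_lit 0xbf67a17ed4fafedce5fc916bf842d7f2a0afe39e) b17670 (.hit (nat_lit 25) (nat_lit 45) (nat_lit 0xbf2f797e461afec925fb24abf56817edae2fd7e7) b17673 (.tok (nat_lit 55) (nat_lit 0xbf8cb57f3d6aff34f5fe728bfc05d7f9202ff25d) (.hit (nat_lit 23) (nat_lit 43) (nat_lit 0xbf8cb57f3d6afec0c5fe728bfc05d7f9202ff25d) b17671 (.hit (nat_lit 26) (nat_lit 46) (nat_lit 0xbf59a17e9a6aff34f5fc75ebf80a97f2f32fe271) b17674 (.one (nat_lit 6) (nat_lit 24) (nat_lit 44) (nat_lit 0xbf53457e8db2fe8cb5fc430bf7a4d7f227afe0da) b17672 (.nil)))) (.nil)))) (.nil)))) (.one (nat_lit 58) (nat_lit 29) (nat_lit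 49) (nat_lit 0xbf2af57e3d12feec95fb008bf51fd7ed1dafd6c6) b17677 (.nil)))))) (.tok (nat_lit 9) (nat_lit 0xc0000180000300a7d600000c0000180000300000) (.hit (nat_lit 157) (nat_lit 0) (nat_lit 0xbf681d7eefeafeb015fcba2bf88b17f21bafe472) b17678 (.tok (nat_lit 9) (nat_lit 0xbfbc757f8a12ff5605fdb80bfbb097f08d2fdf9c) (.hit (nat_lit 163) (nat_lit 20) (nat_lit 0xbf3d017ed19afdbd85fa2eebf42ed7e9d72fd039) b17679 (.hit (nat_lit 171) (nat_lit 28) (nat_lit 0xbf0b117dff82fd0bd5f6dccbece457dbfd2fb485) b17682 (.tok (nat_lit 14) (nat_lit 0xbfbc757f8a12ff5605fdb80bfbb097f08d2fdf9c) (.hit (nat_lit 167) (nat_lit 24) (nat_lit 0xbfaffd7f79f2ff5605fdb80bfbb097eec22fdcf8) b17680 (.hit (nat_lit 173) (nat_lit 30) (nat_lit 0xbf7d017ee362fee0a5fa98cbf44417e78c2fcecc) b17683 (.one (nat_lit 6) (nat_lit 168) (nat_lit 25) (nat_lit 0xbfbc757f8a12ff50f5fd4f4bfb8257f08d2fdf9c) b17681 (.nil)))) (.one (nat_lit 56) (nat_lit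 174) (nat_lit 31) (nat_lit 0xbf61017eab92fe30f5f9b8cbf28417e69bafc9c2) b17684 (.nil))))) (.tok (nat_lit 64) (nat_lit 0xbf7d817f401afec875faad0bf4cc97eaf62fd277) (.hit (nat_lit 182) (nat_lit 50) (nat_lit 0xbf7d817f401afe87a5faad0bf47a57eaf62fd277) b17685 (.hit (nat_lit 183) (nat_lit 51) (nat_lit 0xbf73097f154afec875fa7f2bf4cc97ea312fd0ed) b17686 (.nil))) (.tok (nat_lit 67) (nat_lit 0xc0000180000300a7d600000c0000180000300000) (.hit (nat_lit 184) (nat_lit 52) (nat_lit 0xc00001800003003145ffd74bff70d80000300000) b17687 (.tok (nat_lit 3) (nat_lit 0xbffba57fb72aff429600000c000017fc57aff7c4) (.hit (nat_lit 190) (nat_lit 58) (nat_lit 0xbfbe857f933aff1415fe424bfd64d7f3e82fe7b7) b17690 (.one (nat_lit 55) (nat_lit 191) (nat_lit 59) (nat_lit 0xbffba57fb72aff429600000c000017fc57aff7c4) b17691 (.nil))) (.tok (nat_lit 9) (nat_lit 0xbfe5957fa63300a7d5fcf5ebf8fc57f177afe6b4) (.hit (nat_lit 185)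 (nat_lit 53) (nat_lit 0xbfe5957f798aff3ae5fcf5ebf8fc57f177afe6b4) b17688 (.hit (nat_lit 188) (nat_lit 56) (nat_lit 0xbf99c57fa63300a7d5fc116bf74197f1612fdf4d) b17689 (.nil))) (.nil)))) (.one (nat_lit 70) (nat_lit 192) (nat_lit 60) (nat_lit 0xbf7d897f1692fec805fb996bf70857eb642fd61c) b17692 (.nil)))))) (.nil))
noncomputable def r20_202 : Rw Blk := .tok (nat_lit 6) (nat_lit 0xbc0001780002ffeb1) (.hit (nat_lit 51) (nat_lit 0) (nat_lit 0xbc0001780002fea7b) b17693 (.tok (nat_lit 14) (nat_lit 0xbc0001780002ff7de) (.hit (nat_lit 62) (nat_lit 61) (nat_lit 0xbc0001780002feeb0) b17694 (.one (nat_lit 3) (nat_lit 63) (nat_lit 62) (nat_lit 0xbc0001780002ff300) b17695 (.tok (nat_lit 6) (nat_lit 0xbc0001780002fee71) (.hit (nat_lit 66) (nat_lit 65) (nat_lit 0xbc0001780002fd5fe) b17696 (.hit (nat_lit 67) (nat_lit 66) (nat_lit 0xbc0001780002fee71) b17697 (.nil))) (.tok (nat_lit 9) (nat_lit 0xbc0001780002ff7de)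 (.hit (nat_lit 64) (nat_lit 63) (nat_lit 0xbc0001780002ff7de) b17698 (.hit (nat_lit 65) (nat_lit 64) (nat_lit 0xbc0001780002fea5a) b17699 (.nil))) (.nil))))) (.one (nat_lit 17) (nat_lit 68) (nat_lit 67) (nat_lit 0xbc0001780002feb92) b17700 (.tok (nat_lit 20) (nat_lit 0xbc0001780002ff691) (.hit (nat_lit 69) (nat_lit 68) (nat_lit 0xbc0001780002ff691) b17703 (.hit (nat_lit 70) (nat_lit 69) (nat_lit 0xbc0001780002fecfb) b17704 (.nil))) (.tok (nat_lit 23) (nat_lit 0xbc0001780002fe786) (.hit (nat_lit 71) (nat_lit 70) (nat_lit 0xbc0001780002fc205) b17701 (.hit (nat_lit 72) (nat_lit 71) (nat_lit 0xbc0001780002fe786) b17702 (.nil))) (.one (nat_lit 26) (nat_lit 73) (nat_lit 72) (nat_lit 0xbc0001780002fdd07) b17705 (.one (nat_lit 29) (nat_lit 74) (nat_lit 73) (nat_lit 0xbc0001780002fd6d4) b17706 (.one (nat_lit 32) (nat_lit 75) (nat_lit 74) (nat_lit 0xbc0001780002fd8d5) b17708 (.one (nat_lit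 35) (nat_lit 76) (nat_lit 75) (nat_lit 0xbc0001780002fe1bd) b17707 (.one (nat_lit 50) (nat_lit 84) (nat_lit 83) (nat_lit 0xbc0001780002feac1) b17718 (.tok (nat_lit 53) (nat_lit 0xbc0001780002fef6d) (.hit (nat_lit 85) (nat_lit 84) (nat_lit 0xbc0001780002fe4f1) b17719 (.hit (nat_lit 86) (nat_lit 85) (nat_lit 0xbc0001780002fef6d) b17720 (.nil))) (.tok (nat_lit 56) (nat_lit 0xbc0001780002ffeb1) (.hit (nat_lit 87) (nat_lit 86) (nat_lit 0xbc0001780002ffeb1) b17721 (.one (nat_lit 3) (nat_lit 91) (nat_lit 90) (nat_lit 0xbc0001780002ff738) b17725 (.tok (nat_lit 6) (nat_lit 0xbc0001780002ff991) (.hit (nat_lit 89) (nat_lit 88) (nat_lit 0xbc0001780002ff991) b17723 (.hit (nat_lit 90) (nat_lit 89) (nat_lit 0xbc0001780002fef50) b17724 (.nil))) (.one (nat_lit 9) (nat_lit 88) (nat_lit 87) (nat_lit 0xbc0001780002ffe65) b17722 (.nil))))) (.one (nat_lit 59) (nat_lit 92) (nat_lit 91) (nat_lit 0xbc0001780002fe435)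 b17726 (.one (nat_lit 62) (nat_lit 93) (nat_lit 92) (nat_lit 0xbc0001780002fe25d) b17709 (.tok (nat_lit 65) (nat_lit 0xbc0001780002feab2) (.hit (nat_lit 94) (nat_lit 93) (nat_lit 0xbc0001780002fe4b4) b17710 (.hit (nat_lit 95) (nat_lit 94) (nat_lit 0xbc0001780002feab2) b17711 (.nil))) (.tok (nat_lit 68) (nat_lit 0xbc0001780002fefa5) (.hit (nat_lit 96) (nat_lit 95) (nat_lit 0xbc0001780002fefa5) b17712 (.one (nat_lit 3) (nat_lit 100) (nat_lit 99) (nat_lit 0xbc0001780002fc563) b17716 (.one (nat_lit 6) (nat_lit 97) (nat_lit 96) (nat_lit 0xbc0001780002fcd4e) b17713 (.tok (nat_lit 9) (nat_lit 0xbc0001780002fd006) (.hit (nat_lit 98) (nat_lit 97) (nat_lit 0xbc0001780002fd006) b17714 (.hit (nat_lit 99) (nat_lit 98) (nat_lit 0xbc0001780002fcabb) b17715 (.nil))) (.nil))))) (.one (nat_lit 71) (nat_lit 101) (nat_lit 100) (nat_lit 0xbc0001780002fe2e5) b17717 (.nil)))))))))))))))))) (.tok (nat_lit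 52) (nat_lit 0xbc000178000300e24) (.hit (nat_lit 225) (nat_lit 0) (nat_lit 0xbc000178000300e24) b17727 (.tok (nat_lit 6) (nat_lit 0xbc000178000300895) (.hit (nat_lit 226) (nat_lit 7) (nat_lit 0xbc000178000300895) b17730 (.hit (nat_lit 227) (nat_lit 15) (nat_lit 0xbc0001780002ff7d9) b17731 (.nil))) (.tok (nat_lit 9) (nat_lit 0xbc0001780002ffae0) (.hit (nat_lit 228) (nat_lit 20) (nat_lit 0xbc0001780002fe642) b17728 (.hit (nat_lit 229) (nat_lit 28) (nat_lit 0xbc0001780002ffae0) b17729 (.nil))) (.nil)))) (.tok (nat_lit 55) (nat_lit 0xbc0001780002ffb8b) (.hit (nat_lit 250) (nat_lit 0) (nat_lit 0xbc0001780002ffb8b) b17740 (.tok (nat_lit 3) (nat_lit 0xbc0001780002ffb3b) (.hit (nat_lit 251) (nat_lit 1) (nat_lit 0xbc0001780002fe02c) b17741 (.one (nat_lit 67) (nat_lit 252) (nat_lit 2) (nat_lit 0xbc0001780002ffb3b) b17742 (.nil))) (.tok (nat_lit 6) (nat_lit 0xbc0001780002ff2d8) (.hit (nat_lit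 253) (nat_lit 7) (nat_lit 0xbc0001780002fe62f) b17743 (.hit (nat_lit 256) (nat_lit 15) (nat_lit 0xbc0001780002fdf19) b17746 (.tok (nat_lit 55) (nat_lit 0xbc0001780002ff2d8) (.hit (nat_lit 254) (nat_lit 8) (nat_lit 0xbc0001780002fea02) b17744 (.hit (nat_lit 257) (nat_lit 16) (nat_lit 0xbc0001780002ff2d8) b17747 (.one (nat_lit 6) (nat_lit 255) (nat_lit 9) (nat_lit 0xbc0001780002ff04e) b17745 (.nil)))) (.nil)))) (.nil)))) (.tok (nat_lit 58) (nat_lit 0xbc000178000300d55) (.hit (nat_lit 236) (nat_lit 0) (nat_lit 0xbc000178000300623) b17732 (.tok (nat_lit 3) (nat_lit 0xbc0001780003001bf) (.hit (nat_lit 237) (nat_lit 1) (nat_lit 0xbc0001780002fdfc2) b17733 (.one (nat_lit 55) (nat_lit 238) (nat_lit 3) (nat_lit 0xbc0001780003001bf) b17734 (.nil))) (.tok (nat_lit 9) (nat_lit 0xbc000178000300d55) (.hit (nat_lit 239) (nat_lit 20) (nat_lit 0xbc0001780002fecf3) b17735 (.hit (nat_lit 242) (nat_lit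 28) (nat_lit 0xbc0001780002fe5b0) b17738 (.tok (nat_lit 67) (nat_lit 0xbc000178000300d55) (.hit (nat_lit 240) (nat_lit 21) (nat_lit 0xbc0001780002ff806) b17736 (.hit (nat_lit 243) (nat_lit 29) (nat_lit 0xbc0001780002ffcb1) b17739 (.one (nat_lit 9) (nat_lit 241) (nat_lit 22) (nat_lit 0xbc000178000300d55) b17737 (.nil)))) (.nil)))) (.nil)))) (.nil))))
noncomputable def r20_203 : Rw Blk := .tok (nat_lit 3) (nat_lit 0xbc000178000300fbd) (.hit (nat_lit 15) (nat_lit 0) (nat_lit 0xbc0001780002ff6a6) b17759 (.tok (nat_lit 9) (nat_lit 0xbc0001780002fecfe) (.hit (nat_lit 16) (nat_lit 20) (nat_lit 0xbc0001780002fda33) b17760 (.hit (nat_lit 21) (nat_lit 28) (nat_lit 0xbc0001780002fc271) b17763 (.one (nat_lit 56) (nat_lit 23) (nat_lit 31) (nat_lit 0xbc0001780002fe11c) b17764 (.tok (nat_lit 68) (nat_lit 0xbc0001780002fecfe) (.hit (nat_lit 19) (nat_lit 26) (nat_lit 0xbc0001780002fe274) b17761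 (.hit (nat_lit 24) (nat_lit 32) (nat_lit 0xbc0001780002fe34f) b17765 (.one (nat_lit 9) (nat_lit 20) (nat_lit 27) (nat_lit 0xbc0001780002fecfe) b17762 (.nil)))) (.nil))))) (.tok (nat_lit 64) (nat_lit 0xbc0001780002fede3) (.hit (nat_lit 25) (nat_lit 50) (nat_lit 0xbc0001780002fe0bd) b17766 (.hit (nat_lit 26) (nat_lit 51) (nat_lit 0xbc0001780002fede3) b17767 (.nil))) (.tok (nat_lit 67) (nat_lit 0xbc000178000300fbd) (.hit (nat_lit 27) (nat_lit 52) (nat_lit 0xbc000178000300fbd) b17768 (.one (nat_lit 3) (nat_lit 33) (nat_lit 58) (nat_lit 0xbc0001780002fedfc) b17774 (.tok (nat_lit 9) (nat_lit 0xbc0001780002ff0b6) (.hit (nat_lit 28) (nat_lit 53) (nat_lit 0xbc0001780002fe69b) b17769 (.hit (nat_lit 31) (nat_lit 56) (nat_lit 0xbc0001780002fe9d2) b17772 (.tok (nat_lit 67) (nat_lit 0xbc0001780002ff0b6) (.hit (nat_lit 29) (nat_lit 54) (nat_lit 0xbc0001780002ff0b6) b17770 (.hit (nat_lit 32)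 (nat_lit 57) (nat_lit 0xbc0001780002fefb9) b17773 (.one (nat_lit 9) (nat_lit 30) (nat_lit 55) (nat_lit 0xbc0001780002fe5ec) b17771 (.nil)))) (.nil)))) (.nil)))) (.one (nat_lit 70) (nat_lit 35) (nat_lit 60) (nat_lit 0xbc0001780002fecc8) b17775 (.nil)))))) (.tok (nat_lit 6) (nat_lit 0xbc000178000302b39) (.hit (nat_lit 0) (nat_lit 0) (nat_lit 0xbc0001780003013ec) b17748 (.tok (nat_lit 6) (nat_lit 0xbc0001780002ffb8b) (.hit (nat_lit 1) (nat_lit 7) (nat_lit 0xbc0001780002ff132) b17749 (.hit (nat_lit 4) (nat_lit 15) (nat_lit 0xbc0001780002fe9b3) b17750 (.one (nat_lit 68) (nat_lit 6) (nat_lit 18) (nat_lit 0xbc0001780002ffb8b) b17751 (.nil)))) (.tok (nat_lit 52) (nat_lit 0xbc000178000301b90) (.hit (nat_lit 7) (nat_lit 39) (nat_lit 0xbc0001780003011ad) b17752 (.hit (nat_lit 8) (nat_lit 40) (nat_lit 0xbc000178000301b90) b17753 (.nil))) (.tok (nat_lit 55) (nat_lit 0xbc0001780003025b5) (.hit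 (nat_lit 9) (nat_lit 41) (nat_lit 0xbc0001780003025b5) b17754 (.one (nat_lit 3) (nat_lit 12) (nat_lit 47) (nat_lit 0xbc000178000301b61) b17757 (.tok (nat_lit 6) (nat_lit 0xbc000178000300a10) (.hit (nat_lit 10) (nat_lit 42) (nat_lit 0xbc0001780002ffd66) b17755 (.hit (nat_lit 11) (nat_lit 45) (nat_lit 0xbc000178000300a10) b17756 (.nil))) (.nil)))) (.one (nat_lit 58) (nat_lit 14) (nat_lit 49) (nat_lit 0xbc000178000302b39) b17758 (.nil)))))) (.nil))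
noncomputable def r20_204 : Rw Blk := .tok (nat_lit 9) (nat_lit 0xbc000178000301be5) (.hit (nat_lit 0) (nat_lit 0) (nat_lit 0xbc0001780002fe436) b17776 (.tok (nat_lit 14) (nat_lit 0xbc0001780002ffda5) (.hit (nat_lit 21) (nat_lit 61) (nat_lit 0xbc0001780002ff9bb) b17777 (.one (nat_lit 3) (nat_lit 22) (nat_lit 62) (nat_lit 0xbc0001780002ff95b) b17778 (.tok (nat_lit 6) (nat_lit 0xbc0001780002ffda5) (.hit (nat_lit 25) (nat_lit 65) (nat_lit 0xbc0001780002ffda5) b17779 (.hit (nat_lit 26) (nat_lit 66) (nat_lit 0xbc0001780002fdb36) b17780 (.nil))) (.tok (nat_lit 9) (nat_lit 0xbc0001780002ff0b2) (.hit (nat_lit 23) (nat_lit 63) (nat_lit 0xbc0001780002fd566) b17781 (.hit (nat_lit 24) (nat_lit 64) (nat_lit 0xbc0001780002ff0b2) b17782 (.nil))) (.nil))))) (.one (nat_lit 17) (nat_lit 27) (nat_lit 67) (nat_lit 0xbc0001780002fe723) b17783 (.tok (nat_lit 20) (nat_lit 0xbc0001780002fdfef) (.hit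 (nat_lit 28) (nat_lit 68) (nat_lit 0xbc0001780002fc4a9) b17786 (.hit (nat_lit 29) (nat_lit 69) (nat_lit 0xbc0001780002fdfef) b17787 (.nil))) (.tok (nat_lit 23) (nat_lit 0xbc000178000301be5) (.hit (nat_lit 30) (nat_lit 70) (nat_lit 0xbc000178000301be5) b17784 (.hit (nat_lit 31) (nat_lit 71) (nat_lit 0xbc0001780002fe266) b17785 (.nil))) (.one (nat_lit 26) (nat_lit 32) (nat_lit 72) (nat_lit 0xbc0001780002fd890) b17788 (.one (nat_lit 29) (nat_lit 33) (nat_lit 73) (nat_lit 0xbc0001780002fe7a5) b17789 (.one (nat_lit 32) (nat_lit 34) (nat_lit 74) (nat_lit 0xbc0001780002fe18c) b17791 (.one (nat_lit 35) (nat_lit 35) (nat_lit 75) (nat_lit 0xbc0001780002fd105) b17790 (.one (nat_lit 38) (nat_lit 36) (nat_lit 76) (nat_lit 0xbc0001780002fddf6) b17792 (.tok (nat_lit 41) (nat_lit 0xbc0001780002fe709) (.hit (nat_lit 37) (nat_lit 77) (nat_lit 0xbc0001780002fe205) b17793 (.hit (nat_lit 38) (nat_lit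 78) (nat_lit 0xbc0001780002fe709) b17794 (.nil))) (.tok (nat_lit 44) (nat_lit 0xbc0001780002fe5b7) (.hit (nat_lit 39) (nat_lit 79) (nat_lit 0xbc0001780002fbd40) b17797 (.hit (nat_lit 40) (nat_lit 80) (nat_lit 0xbc0001780002fe5b7) b17798 (.nil))) (.tok (nat_lit 47) (nat_lit 0xbc0001780002ff2f0) (.hit (nat_lit 41) (nat_lit 81) (nat_lit 0xbc0001780002ff2f0) b17795 (.hit (nat_lit 42) (nat_lit 82) (nat_lit 0xbc0001780002fdd8e) b17796 (.nil))) (.one (nat_lit 50) (nat_lit 43) (nat_lit 83) (nat_lit 0xbc0001780002fd89f) b17799 (.tok (nat_lit 53) (nat_lit 0xbc0001780002fe942) (.hit (nat_lit 44) (nat_lit 84) (nat_lit 0xbc0001780002fe942) b17800 (.hit (nat_lit 45) (nat_lit 85) (nat_lit 0xbc0001780002fdd5d) b17801 (.nil))) (.tok (nat_lit 56) (nat_lit 0xbc0001780002fe27b) (.hit (nat_lit 46) (nat_lit 86) (nat_lit 0xbc0001780002fe27b) b17802 (.one (nat_lit 3) (nat_lit 50) (nat_lit 90) (nat_lit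 0xbc0001780002fc42c) b17806 (.tok (nat_lit 6) (nat_lit 0xbc0001780002fd63b) (.hit (nat_lit 48) (nat_lit 88) (nat_lit 0xbc0001780002fd63b) b17804 (.hit (nat_lit 49) (nat_lit 89) (nat_lit 0xbc0001780002fcde9) b17805 (.nil))) (.one (nat_lit 9) (nat_lit 47) (nat_lit 87) (nat_lit 0xbc0001780002fc84f) b17803 (.nil))))) (.one (nat_lit 59) (nat_lit 51) (nat_lit 91) (nat_lit 0xbc0001780002fdf41) b17807 (.nil)))))))))))))))))) (.tok (nat_lit 64) (nat_lit 0xbc000178000300fdc) (.hit (nat_lit 176) (nat_lit 0) (nat_lit 0xbc000178000300fdc) b17808 (.tok (nat_lit 6) (nat_lit 0xbc0001780002ff453) (.hit (nat_lit 177) (nat_lit 7) (nat_lit 0xbc0001780002fe060) b17811 (.hit (nat_lit 178) (nat_lit 15) (nat_lit 0xbc0001780002ff453) b17812 (.nil))) (.tok (nat_lit 9) (nat_lit 0xbc0001780002ffd6d) (.hit (nat_lit 179) (nat_lit 20) (nat_lit 0xbc0001780002ffd6d) b17809 (.hit (nat_lit 180) (nat_lit 28) (nat_lit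 0xbc0001780002fecea) b17810 (.nil))) (.nil)))) (.tok (nat_lit 67) (nat_lit 0xbc0001780002ff03b) (.hit (nat_lit 201) (nat_lit 0) (nat_lit 0xbc0001780002ff03b) b17813 (.tok (nat_lit 3) (nat_lit 0xbc0001780002fe6fe) (.hit (nat_lit 202) (nat_lit 1) (nat_lit 0xbc0001780002fd05a) b17814 (.one (nat_lit 55) (nat_lit 203) (nat_lit 3) (nat_lit 0xbc0001780002fe6fe) b17815 (.nil))) (.tok (nat_lit 9) (nat_lit 0xbc0001780002fdadf) (.hit (nat_lit 204) (nat_lit 20) (nat_lit 0xbc0001780002fdadf) b17816 (.hit (nat_lit 207) (nat_lit 28) (nat_lit 0xbc0001780002fd130) b17817 (.nil))) (.nil)))) (.tok (nat_lit 70) (nat_lit 0xbc0001780002ffb15) (.hit (nat_lit 187) (nat_lit 0) (nat_lit 0xbc0001780002ff1e3) b17818 (.tok (nat_lit 3) (nat_lit 0xbc0001780002ff1ee) (.hit (nat_lit 188) (nat_lit 1) (nat_lit 0xbc0001780002fd857) b17819 (.one (nat_lit 67) (nat_lit 189) (nat_lit 2) (nat_lit 0xbc0001780002ff1ee)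 b17820 (.nil))) (.tok (nat_lit 6) (nat_lit 0xbc0001780002ffb15) (.hit (nat_lit 190) (nat_lit 7) (nat_lit 0xbc0001780002fda4a) b17821 (.hit (nat_lit 193) (nat_lit 15) (nat_lit 0xbc0001780002fda77) b17824 (.tok (nat_lit 55) (nat_lit 0xbc0001780002ffb15) (.hit (nat_lit 191) (nat_lit 8) (nat_lit 0xbc0001780002fe741) b17822 (.hit (nat_lit 194) (nat_lit 16) (nat_lit 0xbc0001780002ff4b2) b17825 (.one (nat_lit 6) (nat_lit 192) (nat_lit 9) (nat_lit 0xbc0001780002ffb15) b17823 (.nil)))) (.nil)))) (.nil)))) (.nil))))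
noncomputable def r20_205 : Rw Blk := .tok (nat_lit 3) (nat_lit 0xbc000178000302469) (.hit (nat_lit 15) (nat_lit 0) (nat_lit 0xbc000178000300ff2) b17833 (.tok (nat_lit 6) (nat_lit 0xbc0001780002ffd45) (.hit (nat_lit 16) (nat_lit 7) (nat_lit 0xbc0001780002fd8b4) b17834 (.hit (nat_lit 21) (nat_lit 15) (nat_lit 0xbc0001780002fe4d2) b17839 (.tok (nat_lit 14) (nat_lit 0xbc0001780002ffd45) (.hit (nat_lit 17) (nat_lit 11) (nat_lit 0xbc0001780002fea08) b17835 (.hit (nat_lit 22) (nat_lit 17) (nat_lit 0xbc0001780002ffd45) b17840 (.one (nat_lit 9) (nat_lit 18) (nat_lit 12) (nat_lit 0xbc0001780002ffbc8) b17836 (.nil)))) (.tok (nat_lit 56) (nat_lit 0xbc0001780002ff718) (.hit (nat_lit 19) (nat_lit 13) (nat_lit 0xbc0001780002fe9bb) b17837 (.hit (nat_lit 24) (nat_lit 19) (nat_lit 0xbc0001780002ff718) b17841 (.one (nat_lit 6) (nat_lit 20) (nat_lit 14) (nat_lit 0xbc0001780002ff55d) b17838 (.nil))))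 (.nil))))) (.tok (nat_lit 52) (nat_lit 0xbc0001780002ffc9d) (.hit (nat_lit 25) (nat_lit 39) (nat_lit 0xbc0001780002ff9f3) b17842 (.hit (nat_lit 26) (nat_lit 40) (nat_lit 0xbc0001780002ffc9d) b17843 (.nil))) (.tok (nat_lit 55) (nat_lit 0xbc000178000301fa2) (.hit (nat_lit 27) (nat_lit 41) (nat_lit 0xbc000178000301fa2) b17844 (.tok (nat_lit 3) (nat_lit 0xbc00017800030076e) (.hit (nat_lit 33) (nat_lit 47) (nat_lit 0xbc0001780002ff47d) b17850 (.one (nat_lit 67) (nat_lit 34) (nat_lit 48) (nat_lit 0xbc00017800030076e) b17851 (.nil))) (.tok (nat_lit 6) (nat_lit 0xbc0001780002ffc74) (.hit (nat_lit 28) (nat_lit 42) (nat_lit 0xbc0001780002ff567) b17845 (.hit (nat_lit 31) (nat_lit 45) (nat_lit 0xbc0001780002ff205) b17848 (.tok (nat_lit 55) (nat_lit 0xbc0001780002ffc74) (.hit (nat_lit 29) (nat_lit 43) (nat_lit 0xbc0001780002ffc74) b17846 (.hit (nat_lit 32) (nat_lit 46) (nat_lit 0xbc0001780002ffbeb)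 b17849 (.one (nat_lit 6) (nat_lit 30) (nat_lit 44) (nat_lit 0xbc0001780002ff101) b17847 (.nil)))) (.nil)))) (.nil)))) (.one (nat_lit 58) (nat_lit 35) (nat_lit 49) (nat_lit 0xbc000178000302469) b17852 (.nil)))))) (.tok (nat_lit 9) (nat_lit 0xbc000178000303384) (.hit (nat_lit 0) (nat_lit 0) (nat_lit 0xbc000178000301c3c) b17826 (.tok (nat_lit 9) (nat_lit 0xbc000178000303384) (.hit (nat_lit 1) (nat_lit 20) (nat_lit 0xbc0001780002feca3) b17827 (.hit (nat_lit 4) (nat_lit 28) (nat_lit 0xbc0001780002ffb4e) b17830 (.tok (nat_lit 14) (nat_lit 0xbc000178000303384) (.hit (nat_lit 2) (nat_lit 24) (nat_lit 0xbc000178000300a66) b17828 (.hit (nat_lit 5) (nat_lit 30) (nat_lit 0xbc000178000300820) b17831 (.one (nat_lit 6) (nat_lit 3) (nat_lit 25) (nat_lit 0xbc000178000303384) b17829 (.nil)))) (.one (nat_lit 56) (nat_lit 6) (nat_lit 31) (nat_lit 0xbc0001780003017fb) b17832 (.nil))))) (.nil))) (.nil))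
noncomputable def r20_206 : Rw Blk := .tok (nat_lit 9) (nat_lit 0xbc000178000305b04) (.hit (nat_lit 0) (nat_lit 0) (nat_lit 0xbc0001780003007d2) b17853 (.tok (nat_lit 14) (nat_lit 0xbc00017800030425d) (.hit (nat_lit 1) (nat_lit 61) (nat_lit 0xbc0001780003014ed) b17854 (.one (nat_lit 3) (nat_lit 2) (nat_lit 62) (nat_lit 0xbc000178000300493) b17855 (.tok (nat_lit 6) (nat_lit 0xbc00017800030425d) (.hit (nat_lit 5) (nat_lit 65) (nat_lit 0xbc00017800030425d) b17856 (.hit (nat_lit 6) (nat_lit 66) (nat_lit 0xbc000178000301227) b17857 (.nil))) (.tok (nat_lit 9) (nat_lit 0xbc0001780003000a8) (.hit (nat_lit 3) (nat_lit 63) (nat_lit 0xbc0001780003000a8) b17858 (.hit (nat_lit 4) (nat_lit 64) (nat_lit 0xbc000178000300005) b17859 (.nil))) (.nil))))) (.one (nat_lit 17) (nat_lit 7) (nat_lit 67) (nat_lit 0xbc0001780002fef04) b17860 (.tok (nat_lit 20) (nat_lit 0xbc0001780002ffcd2) (.hit (nat_lit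 8) (nat_lit 68) (nat_lit 0xbc0001780002ff66b) b17863 (.hit (nat_lit 9) (nat_lit 69) (nat_lit 0xbc0001780002ffcd2) b17864 (.nil))) (.tok (nat_lit 23) (nat_lit 0xbc000178000305b04) (.hit (nat_lit 10) (nat_lit 70) (nat_lit 0xbc000178000305b04) b17861 (.hit (nat_lit 11) (nat_lit 71) (nat_lit 0xbc0001780002ff898) b17862 (.nil))) (.one (nat_lit 38) (nat_lit 16) (nat_lit 76) (nat_lit 0xbc0001780002ff8fd) b17865 (.tok (nat_lit 41) (nat_lit 0xbc0001780002ff019) (.hit (nat_lit 17) (nat_lit 77) (nat_lit 0xbc0001780002fef8d) b17866 (.hit (nat_lit 18) (nat_lit 78) (nat_lit 0xbc0001780002ff019) b17867 (.nil))) (.tok (nat_lit 44) (nat_lit 0xbc0001780002ff9ba) (.hit (nat_lit 19) (nat_lit 79) (nat_lit 0xbc0001780002fe6c8) b17870 (.hit (nat_lit 20) (nat_lit 80) (nat_lit 0xbc0001780002ff9ba) b17871 (.nil))) (.tok (nat_lit 47) (nat_lit 0xbc000178000300dac) (.hit (nat_lit 21) (nat_lit 81) (nat_lit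 0xbc000178000300dac) b17868 (.hit (nat_lit 22) (nat_lit 82) (nat_lit 0xbc0001780002feccc) b17869 (.nil))) (.one (nat_lit 50) (nat_lit 23) (nat_lit 83) (nat_lit 0xbc0001780003003c7) b17872 (.tok (nat_lit 53) (nat_lit 0xbc0001780002ff6b9) (.hit (nat_lit 24) (nat_lit 84) (nat_lit 0xbc0001780002ff6b9) b17873 (.hit (nat_lit 25) (nat_lit 85) (nat_lit 0xbc0001780002ff090) b17874 (.nil))) (.tok (nat_lit 56) (nat_lit 0xbc000178000301967) (.hit (nat_lit 26) (nat_lit 86) (nat_lit 0xbc000178000301967) b17875 (.one (nat_lit 3) (nat_lit 30) (nat_lit 90) (nat_lit 0xbc0001780002ffe6f) b17879 (.tok (nat_lit 6) (nat_lit 0xbc0001780002ffc08) (.hit (nat_lit 28) (nat_lit 88) (nat_lit 0xbc0001780002ffc08) b17877 (.hit (nat_lit 29) (nat_lit 89) (nat_lit 0xbc0001780002ff0a6) b17878 (.nil))) (.one (nat_lit 9) (nat_lit 27) (nat_lit 87) (nat_lit 0xbc0001780002ff99c) b17876 (.nil))))) (.one (nat_lit 59)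 (nat_lit 31) (nat_lit 91) (nat_lit 0xbc0001780002fedcb) b17880 (.nil)))))))))))))) (.nil)
noncomputable def r20_207 : Rw Blk := .tok (nat_lit 9) (nat_lit 0xbc0001780002fffbf) (.hit (nat_lit 0) (nat_lit 0) (nat_lit 0xbc0001780002fe92a) b17881 (.tok (nat_lit 14) (nat_lit 0xbc0001780002ffe7a) (.hit (nat_lit 21) (nat_lit 61) (nat_lit 0xbc0001780002fedb0) b17882 (.one (nat_lit 3) (nat_lit 22) (nat_lit 62) (nat_lit 0xbc0001780002feb47) b17883 (.tok (nat_lit 6) (nat_lit 0xbc0001780002ffe7a) (.hit (nat_lit 25) (nat_lit 65) (nat_lit 0xbc0001780002ffe7a) b17884 (.hit (nat_lit 26) (nat_lit 66) (nat_lit 0xbc0001780002fe6dd) b17885 (.nil))) (.tok (nat_lit 9) (nat_lit 0xbc0001780002ffdc6) (.hit (nat_lit 23) (nat_lit 63) (nat_lit 0xbc0001780002fe09d) b17886 (.hit (nat_lit 24) (nat_lit 64) (nat_lit 0xbc0001780002ffdc6) b17887 (.nil))) (.nil))))) (.one (nat_lit 17) (nat_lit 27) (nat_lit 67) (nat_lit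 0xbc0001780002fe5b0) b17888 (.tok (nat_lit 20) (nat_lit 0xbc0001780002fe8ce) (.hit (nat_lit 28) (nat_lit 68) (nat_lit 0xbc0001780002fd91e) b17891 (.hit (nat_lit 29) (nat_lit 69) (nat_lit 0xbc0001780002fe8ce) b17892 (.nil))) (.tok (nat_lit 23) (nat_lit 0xbc0001780002fffbf) (.hit (nat_lit 30) (nat_lit 70) (nat_lit 0xbc0001780002fffbf) b17889 (.hit (nat_lit 31) (nat_lit 71) (nat_lit 0xbc0001780002fe60d) b17890 (.nil))) (.one (nat_lit 26) (nat_lit 32) (nat_lit 72) (nat_lit 0xbc0001780002fe280) b17893 (.one (nat_lit 29) (nat_lit 33) (nat_lit 73) (nat_lit 0xbc0001780002fe2f7) b17894 (.one (nat_lit 32) (nat_lit 34) (nat_lit 74) (nat_lit 0xbc0001780002fe342) b17896 (.one (nat_lit 35) (nat_lit 35) (nat_lit 75) (nat_lit 0xbc0001780002fd81d) b17895 (.one (nat_lit 38) (nat_lit 36) (nat_lit 76) (nat_lit 0xbc0001780002fe592) b17897 (.tok (nat_lit 41) (nat_lit 0xbc0001780002fe621) (.hit (nat_lit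 37) (nat_lit 77) (nat_lit 0xbc0001780002fe4b2) b17898 (.hit (nat_lit 38) (nat_lit 78) (nat_lit 0xbc0001780002fe621) b17899 (.nil))) (.tok (nat_lit 44) (nat_lit 0xbc0001780002fe5ba) (.hit (nat_lit 39) (nat_lit 79) (nat_lit 0xbc0001780002fb6d2) b17902 (.hit (nat_lit 40) (nat_lit 80) (nat_lit 0xbc0001780002fe5ba) b17903 (.nil))) (.tok (nat_lit 47) (nat_lit 0xbc0001780002fed20) (.hit (nat_lit 41) (nat_lit 81) (nat_lit 0xbc0001780002fed20) b17900 (.hit (nat_lit 42) (nat_lit 82) (nat_lit 0xbc0001780002fe39d) b17901 (.nil))) (.one (nat_lit 50) (nat_lit 43) (nat_lit 83) (nat_lit 0xbc0001780002fe446) b17904 (.tok (nat_lit 53) (nat_lit 0xbc0001780002fe4c0) (.hit (nat_lit 44) (nat_lit 84) (nat_lit 0xbc0001780002fd94b) b17905 (.hit (nat_lit 45) (nat_lit 85) (nat_lit 0xbc0001780002fe4c0) b17906 (.nil))) (.tok (nat_lit 56) (nat_lit 0xbc0001780002fea06) (.hit (nat_lit 46) (nat_lit 86) (nat_lit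 0xbc0001780002fea06) b17907 (.one (nat_lit 3) (nat_lit 50) (nat_lit 90) (nat_lit 0xbc0001780002fd749) b17911 (.tok (nat_lit 6) (nat_lit 0xbc0001780002fda77) (.hit (nat_lit 48) (nat_lit 88) (nat_lit 0xbc0001780002fda77) b17909 (.hit (nat_lit 49) (nat_lit 89) (nat_lit 0xbc0001780002fd825) b17910 (.nil))) (.one (nat_lit 9) (nat_lit 47) (nat_lit 87) (nat_lit 0xbc0001780002fd5e8) b17908 (.nil))))) (.one (nat_lit 59) (nat_lit 51) (nat_lit 91) (nat_lit 0xbc0001780002fe3cf) b17912 (.nil)))))))))))))))))) (.tok (nat_lit 64) (nat_lit 0xbc00017800030092f) (.hit (nat_lit 176) (nat_lit 0) (nat_lit 0xbc00017800030041b) b17913 (.tok (nat_lit 6) (nat_lit 0xbc0001780002ffde9) (.hit (nat_lit 177) (nat_lit 7) (nat_lit 0xbc0001780002fdb3d) b17916 (.hit (nat_lit 178) (nat_lit 15) (nat_lit 0xbc0001780002ffde9) b17917 (.nil))) (.tok (nat_lit 9) (nat_lit 0xbc00017800030092f) (.hit (nat_lit 179) (nat_lit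 20) (nat_lit 0xbc00017800030092f) b17914 (.hit (nat_lit 180) (nat_lit 28) (nat_lit 0xbc0001780002ff8c3) b17915 (.nil))) (.nil)))) (.tok (nat_lit 67) (nat_lit 0xbc000178000300b06) (.hit (nat_lit 201) (nat_lit 0) (nat_lit 0xbc000178000300b06) b17918 (.tok (nat_lit 3) (nat_lit 0xbc0001780002fe194) (.hit (nat_lit 202) (nat_lit 1) (nat_lit 0xbc0001780002fd44f) b17919 (.one (nat_lit 55) (nat_lit 203) (nat_lit 3) (nat_lit 0xbc0001780002fe194) b17920 (.nil))) (.tok (nat_lit 9) (nat_lit 0xbc0001780002fd462) (.hit (nat_lit 204) (nat_lit 20) (nat_lit 0xbc0001780002fd12e) b17921 (.hit (nat_lit 207) (nat_lit 28) (nat_lit 0xbc0001780002fd462) b17922 (.nil))) (.nil)))) (.tok (nat_lit 70) (nat_lit 0xbc00017800030068d) (.hit (nat_lit 187) (nat_lit 0) (nat_lit 0xbc0001780002ffa8e) b17923 (.tok (nat_lit 3) (nat_lit 0xbc0001780002fee02) (.hit (nat_lit 188) (nat_lit 1) (nat_lit 0xbc0001780002fd57b)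 b17924 (.one (nat_lit 67) (nat_lit 189) (nat_lit 2) (nat_lit 0xbc0001780002fee02) b17925 (.nil))) (.tok (nat_lit 6) (nat_lit 0xbc00017800030068d) (.hit (nat_lit 190) (nat_lit 7) (nat_lit 0xbc0001780002fdcd8) b17926 (.hit (nat_lit 193) (nat_lit 15) (nat_lit 0xbc0001780002fd38f) b17929 (.tok (nat_lit 55) (nat_lit 0xbc00017800030068d) (.hit (nat_lit 191) (nat_lit 8) (nat_lit 0xbc0001780002fe97d) b17927 (.hit (nat_lit 194) (nat_lit 16) (nat_lit 0xbc0001780002fed4e) b17930 (.one (nat_lit 6) (nat_lit 192) (nat_lit 9) (nat_lit 0xbc00017800030068d) b17928 (.nil)))) (.nil)))) (.nil)))) (.nil))))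
noncomputable def r20_208 : Rw Blk := .tok (nat_lit 3) (nat_lit 0xbc000178000301b5b) (.hit (nat_lit 15) (nat_lit 0) (nat_lit 0xbc0001780002ff2db) b17938 (.tok (nat_lit 6) (nat_lit 0xbc0001780002fec9a) (.hit (nat_lit 16) (nat_lit 7) (nat_lit 0xbc0001780002fd6c5) b17939 (.hit (nat_lit 21) (nat_lit 15) (nat_lit 0xbc0001780002fb60c) b17944 (.tok (nat_lit 14) (nat_lit 0xbc0001780002fe640) (.hit (nat_lit 17) (nat_lit 11) (nat_lit 0xbc0001780002fde80) b17940 (.hit (nat_lit 22) (nat_lit 17) (nat_lit 0xbc0001780002fdd9b) b17945 (.one (nat_lit 9) (nat_lit 18) (nat_lit 12) (nat_lit 0xbc0001780002fe640) b17941 (.nil)))) (.tok (nat_lit 56) (nat_lit 0xbc0001780002fec9a) (.hit (nat_lit 19) (nat_lit 13) (nat_lit 0xbc0001780002fe26c) b17942 (.hit (nat_lit 24) (nat_lit 19) (nat_lit 0xbc0001780002fda85) b17946 (.one (nat_lit 6) (nat_lit 20) (nat_lit 14) (nat_lit 0xbc0001780002fec9a) b17943 (.nil))))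 (.nil))))) (.tok (nat_lit 52) (nat_lit 0xbc0001780002fe8e6) (.hit (nat_lit 25) (nat_lit 39) (nat_lit 0xbc0001780002fe8e6) b17947 (.hit (nat_lit 26) (nat_lit 40) (nat_lit 0xbc0001780002fe47f) b17948 (.nil))) (.tok (nat_lit 55) (nat_lit 0xbc000178000301b5b) (.hit (nat_lit 27) (nat_lit 41) (nat_lit 0xbc000178000301b5b) b17949 (.tok (nat_lit 3) (nat_lit 0xbc0001780002ff46c) (.hit (nat_lit 33) (nat_lit 47) (nat_lit 0xbc0001780002ff00b) b17955 (.one (nat_lit 67) (nat_lit 34) (nat_lit 48) (nat_lit 0xbc0001780002ff46c) b17956 (.nil))) (.tok (nat_lit 6) (nat_lit 0xbc0001780002ff686) (.hit (nat_lit 28) (nat_lit 42) (nat_lit 0xbc0001780002fe65b) b17950 (.hit (nat_lit 31) (nat_lit 45) (nat_lit 0xbc0001780002fe3c9) b17953 (.tok (nat_lit 55) (nat_lit 0xbc0001780002ff686) (.hit (nat_lit 29) (nat_lit 43) (nat_lit 0xbc0001780002ff686) b17951 (.hit (nat_lit 32) (nat_lit 46) (nat_lit 0xbc0001780002fefcf)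 b17954 (.one (nat_lit 6) (nat_lit 30) (nat_lit 44) (nat_lit 0xbc0001780002fe7ec) b17952 (.nil)))) (.nil)))) (.nil)))) (.one (nat_lit 58) (nat_lit 35) (nat_lit 49) (nat_lit 0xbc0001780002ff45c) b17957 (.nil)))))) (.tok (nat_lit 9) (nat_lit 0xbc000178000301c7d) (.hit (nat_lit 0) (nat_lit 0) (nat_lit 0xbc000178000300f19) b17931 (.tok (nat_lit 9) (nat_lit 0xbc000178000301c7d) (.hit (nat_lit 1) (nat_lit 20) (nat_lit 0xbc0001780002ff418) b17932 (.hit (nat_lit 4) (nat_lit 28) (nat_lit 0xbc0001780002fdf15) b17935 (.tok (nat_lit 14) (nat_lit 0xbc000178000301c7d) (.hit (nat_lit 2) (nat_lit 24) (nat_lit 0xbc000178000301c7d) b17933 (.hit (nat_lit 5) (nat_lit 30) (nat_lit 0xbc0001780002ff523) b17936 (.one (nat_lit 6) (nat_lit 3) (nat_lit 25) (nat_lit 0xbc000178000300fa6) b17934 (.nil)))) (.one (nat_lit 56) (nat_lit 6) (nat_lit 31) (nat_lit 0xbc0001780002ff0cb) b17937 (.nil))))) (.nil))) (.nil))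
noncomputable def r20_209 : Rw Blk := .tok (nat_lit 3) (nat_lit 0xbf6f257e3482fdfc05fbe3ebf7b417ee48afddbc) (.hit (nat_lit 0) (nat_lit 0) (nat_lit 0xbf6f257e3482fdfc05fbe3ebf7b417ee48afddbc) b36004 (.tok (nat_lit 6) (nat_lit 0xbf3a757d7a6afdd295fa33cbf46797e4a8afcfd4) (.hit (nat_lit 1) (nat_lit 7) (nat_lit 0xbf3a757d7a6afdd295fa33cbf46797e4a8afcfd4) b17959 (.hit (nat_lit 6) (nat_lit 15) (nat_lit 0xbf30b97d66f2fd5255f9e5ebf3cbd7e3712fcd65) b17960 (.nil))) (.tok (nat_lit 9) (nat_lit 0xbf3a757d7a6afdd295fa33cbf46797e4a8afcfd4) (.hit (nat_lit 10) (nat_lit 20) (nat_lit 0xbf3a757d7a6afdd295fa33cbf46797e4a8afcfd4) b17959 (.hit (nat_lit 15) (nat_lit 28) (nat_lit 0xbf30b97d66f2fd5255f9e5ebf3cbd7e3712fcd65) b17960 (.nil))) (.nil)))) (.tok (nat_lit 6) (nat_lit 0xc0000180000300000600000c0000180000300000) (.hit (nat_lit 81) (nat_lit 0) (nat_lit 0xbfc8317eef52feb305fdf32bfbd957f4f42ff05e) b17966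 (.tok (nat_lit 3) (nat_lit 0xbfc8697ea3a2ff1455fe180bfc1c57f5fd2ff222) (.hit (nat_lit 82) (nat_lit 1) (nat_lit 0xbf5c257dd03afdbb25faa8cbf53dd7e8232fd684) b17967 (.one (nat_lit 67) (nat_lit 83) (nat_lit 2) (nat_lit 0xbfc8697ea3a2ff1455fe180bfc1c57f5fd2ff222) b17968 (.nil))) (.tok (nat_lit 6) (nat_lit 0xc0000180000300000600000c0000180000300000) (.hit (nat_lit 87) (nat_lit 7) (nat_lit 0xbfabf97ec222fe8e95fb9a0bf74c97ee3fafded2) b17969 (.hit (nat_lit 95) (nat_lit 15) (nat_lit 0xbf64fd7dcd0afd3dd5fadcebf5a617e8e5afd825) b17973 (.tok (nat_lit 55) (nat_lit 0xc0000180000300000600000c0000180000300000) (.hit (nat_lit 88) (nat_lit 8) (nat_lit 0xbffb117f3fa2ff0ef5fef76bfe1617fa67aff984) b17970 (.hit (nat_lit 96) (nat_lit 16) (nat_lit 0xbfc75d7eb112fef375fe538bfc9357f712aff3e6) b17974 (.tok (nat_lit 6) (nat_lit 0xc0000180000300000600000c0000180000300000) (.hit (nat_lit 89) (nat_lit 9) (nat_lit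 0xbfd0257f7e3aff2525fe562bfcac57f6c2aff33b) b17971 (.one (nat_lit 55) (nat_lit 90) (nat_lit 10) (nat_lit 0xc0000180000300000600000c0000180000300000) b17972 (.nil))) (.nil)))) (.nil)))) (.nil)))) (.tok (nat_lit 9) (nat_lit 0xbfc8697eef52ff1455ff35ebfe6317f78c2ff5a4) (.hit (nat_lit 157) (nat_lit 0) (nat_lit 0xbfc8317eef52feb305ff29abfe3f97f719aff4b3) b17961 (.tok (nat_lit 3) (nat_lit 0xbfc8697ea3a2ff1455ff35ebfe6317f78c2ff5a4) (.hit (nat_lit 158) (nat_lit 1) (nat_lit 0xbf5c257dd03afdbb25fbef0bf7ca57ea2f2fdade) b17962 (.one (nat_lit 55) (nat_lit 159) (nat_lit 3) (nat_lit 0xbfc8697ea3a2ff1455ff35ebfe6317f78c2ff5a4) b17963 (.nil))) (.tok (nat_lit 9) (nat_lit 0xbfabf97ec222fe8e95fdb3abfb5d17f11bafe8b7) (.hit (nat_lit 163) (nat_lit 20) (nat_lit 0xbfabf97ec222fe8e95fdb3abfb5d17f11bafe8b7) b17964 (.hit (nat_lit 171) (nat_lit 28) (nat_lit 0xbf64fd7dcd0afd3dd5fc232bf83297eaffafdc7f) b17965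 (.nil))) (.nil)))) (.nil)))
noncomputable def r20_210 : Rw Blk := .tok (nat_lit 6) (nat_lit 0xbc0001780002ffecc) (.hit (nat_lit 51) (nat_lit 0) (nat_lit 0xbc0001780002ff743) b8943 (.tok (nat_lit 3) (nat_lit 0xbc0001780002ffecc) (.hit (nat_lit 52) (nat_lit 1) (nat_lit 0xbc0001780002fdccb) b8944 (.one (nat_lit 14) (nat_lit 53) (nat_lit 4) (nat_lit 0xbc0001780002ffecc) b9239 (.one (nat_lit 56) (nat_lit 55) (nat_lit 6) (nat_lit 0xbc0001780002ff720) b8945 (.one (nat_lit 68) (nat_lit 54) (nat_lit 5) (nat_lit 0xbc0001780002fef3e) b8946 (.nil))))) (.nil))) (.tok (nat_lit 9) (nat_lit 0xbc000178000300000) (.hit (nat_lit 0) (nat_lit 0) (nat_lit 0xbc0001780002ff743) b8943 (.tok (nat_lit 3) (nat_lit 0xbc0001780002ffecc) (.hit (nat_lit 1) (nat_lit 1) (nat_lit 0xbc0001780002fdccb) b8944 (.one (nat_lit 14) (nat_lit 2) (nat_lit 4) (nat_lit 0xbc0001780002ffecc) b9239 (.one (nat_lit 56) (nat_lit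 4) (nat_lit 6) (nat_lit 0xbc0001780002fef3e) b8946 (.one (nat_lit 68) (nat_lit 3) (nat_lit 5) (nat_lit 0xbc0001780002ff720) b8945 (.nil))))) (.tok (nat_lit 40) (nat_lit 0xbc0001780002ff5de) (.hit (nat_lit 5) (nat_lit 33) (nat_lit 0xbc0001780002ff5de) b8947 (.hit (nat_lit 6) (nat_lit 34) (nat_lit 0xbc0001780002ff3d8) b8948 (.nil))) (.tok (nat_lit 43) (nat_lit 0xbc0001780002ffbd8) (.hit (nat_lit 7) (nat_lit 35) (nat_lit 0xbc0001780002fe56f) b8949 (.hit (nat_lit 8) (nat_lit 36) (nat_lit 0xbc0001780002ffbd8) b8950 (.nil))) (.tok (nat_lit 46) (nat_lit 0xbc000178000300000) (.hit (nat_lit 9) (nat_lit 37) (nat_lit 0xbc000178000300000) b8951 (.hit (nat_lit 10) (nat_lit 38) (nat_lit 0xbc0001780002ff6ae) b8952 (.nil))) (.nil)))))) (.nil))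
noncomputable def r20_211 : Rw Blk := .tok (nat_lit 3) (nat_lit 0xbc0001780002fddcf) (.hit (nat_lit 61) (nat_lit 0) (nat_lit 0xbc0001780002fd208) b9255 (.tok (nat_lit 9) (nat_lit 0xbc0001780002fcdbc) (.hit (nat_lit 62) (nat_lit 20) (nat_lit 0xbc0001780002fbbb6) b9256 (.hit (nat_lit 67) (nat_lit 28) (nat_lit 0xbc0001780002fad94) b9261 (.tok (nat_lit 14) (nat_lit 0xbc0001780002fcdbc) (.hit (nat_lit 63) (nat_lit 24) (nat_lit 0xbc0001780002fbdc9) b9257 (.hit (nat_lit 68) (nat_lit 30) (nat_lit 0xbc0001780002fc1ab) b9262 (.one (nat_lit 6) (nat_lit 64) (nat_lit 25) (nat_lit 0xbc0001780002fcdbc) b9258 (.nil)))) (.one (nat_lit 56) (nat_lit 69) (nat_lit 31) (nat_lit 0xbc0001780002fc012) b9263 (.nil))))) (.tok (nat_lit 64) (nat_lit 0xbc0001780002fc6cc) (.hit (nat_lit 71) (nat_lit 50) (nat_lit 0xbc0001780002fbf49) b9265 (.hit (nat_lit 72) (nat_lit 51) (nat_lit 0xbc0001780002fc6cc) b9266 (.nil)))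 (.tok (nat_lit 67) (nat_lit 0xbc0001780002fddcf) (.hit (nat_lit 73) (nat_lit 52) (nat_lit 0xbc0001780002fdd53) b9267 (.tok (nat_lit 3) (nat_lit 0xbc0001780002fddcf) (.hit (nat_lit 79) (nat_lit 58) (nat_lit 0xbc0001780002fd372) b9273 (.one (nat_lit 55) (nat_lit 80) (nat_lit 59) (nat_lit 0xbc0001780002fddcf) b9274 (.nil))) (.tok (nat_lit 9) (nat_lit 0xbc0001780002fcbbd) (.hit (nat_lit 74) (nat_lit 53) (nat_lit 0xbc0001780002fc8b0) b9268 (.hit (nat_lit 77) (nat_lit 56) (nat_lit 0xbc0001780002fcbbd) b9271 (.nil))) (.nil)))) (.one (nat_lit 70) (nat_lit 81) (nat_lit 60) (nat_lit 0xbc0001780002fc77b) b9275 (.nil)))))) (.tok (nat_lit 6) (nat_lit 0xbc000178000300000) (.hit (nat_lit 0) (nat_lit 0) (nat_lit 0xbc0001780002feaff) b9240 (.tok (nat_lit 6) (nat_lit 0xbc0001780002fffbd) (.hit (nat_lit 1) (nat_lit 7) (nat_lit 0xbc0001780002fd887) b9241 (.hit (nat_lit 6) (nat_lit 15) (nat_lit 0xbc0001780002fc60a)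 b9244 (.tok (nat_lit 14) (nat_lit 0xbc0001780002ff817) (.hit (nat_lit 2) (nat_lit 11) (nat_lit 0xbc0001780002ff817) b9242 (.hit (nat_lit 7) (nat_lit 17) (nat_lit 0xbc0001780002fe65c) b9245 (.one (nat_lit 9) (nat_lit 3) (nat_lit 12) (nat_lit 0xbc0001780002ff6cc) b9243 (.nil)))) (.tok (nat_lit 56) (nat_lit 0xbc0001780002fffbd) (.hit (nat_lit 4) (nat_lit 13) (nat_lit 0xbc0001780002fef99) b9609 (.hit (nat_lit 9) (nat_lit 19) (nat_lit 0xbc0001780002fd621) b9611 (.one (nat_lit 6) (nat_lit 5) (nat_lit 14) (nat_lit 0xbc0001780002fffbd) b9610 (.nil)))) (.one (nat_lit 68) (nat_lit 8) (nat_lit 18) (nat_lit 0xbc0001780002fdb1d) b9246 (.nil)))))) (.tok (nat_lit 52) (nat_lit 0xbc0001780002feaaa) (.hit (nat_lit 10) (nat_lit 39) (nat_lit 0xbc0001780002fdd77) b9247 (.hit (nat_lit 11) (nat_lit 40) (nat_lit 0xbc0001780002feaaa) b9248 (.nil))) (.tok (nat_lit 55) (nat_lit 0xbc000178000300000) (.hit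 (nat_lit 12) (nat_lit 41) (nat_lit 0xbc0001780002ff885) b9249 (.tok (nat_lit 3) (nat_lit 0xbc000178000300000) (.hit (nat_lit 18) (nat_lit 47) (nat_lit 0xbc0001780002fec8d) b9252 (.one (nat_lit 67) (nat_lit 19) (nat_lit 48) (nat_lit 0xbc000178000300000) b9253 (.nil))) (.tok (nat_lit 6) (nat_lit 0xbc0001780002ffc81) (.hit (nat_lit 13) (nat_lit 42) (nat_lit 0xbc0001780002fe0f2) b9250 (.hit (nat_lit 16) (nat_lit 45) (nat_lit 0xbc0001780002fece8) b9251 (.tok (nat_lit 55) (nat_lit 0xbc0001780002ffc81) (.hit (nat_lit 14) (nat_lit 43) (nat_lit 0xbc0001780002ff6bd) b9612 (.hit (nat_lit 17) (nat_lit 46) (nat_lit 0xbc0001780002ffc81) b9614 (.one (nat_lit 6) (nat_lit 15) (nat_lit 44) (nat_lit 0xbc0001780002ff76a) b9613 (.nil)))) (.nil)))) (.nil)))) (.one (nat_lit 58) (nat_lit 20) (nat_lit 49) (nat_lit 0xbc0001780002fecd6) b9254 (.nil)))))) (.nil))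
noncomputable def r20_212 : Rw Blk := .tok (nat_lit 3) (nat_lit 0xbc0001780002fd75c) (.hit (nat_lit 61) (nat_lit 0) (nat_lit 0xbc0001780002fc302) b17996 (.tok (nat_lit 9) (nat_lit 0xbc0001780002fc830) (.hit (nat_lit 62) (nat_lit 20) (nat_lit 0xbc0001780002fa813) b17997 (.hit (nat_lit 67) (nat_lit 28) (nat_lit 0xbc0001780002fab82) b18000 (.tok (nat_lit 14) (nat_lit 0xbc0001780002fc830) (.hit (nat_lit 63) (nat_lit 24) (nat_lit 0xbc0001780002fbda1) b17998 (.hit (nat_lit 68) (nat_lit 30) (nat_lit 0xbc0001780002fba92) b18001 (.one (nat_lit 6) (nat_lit 64) (nat_lit 25) (nat_lit 0xbc0001780002fc830) b17999 (.nil)))) (.one (nat_lit 56) (nat_lit 69) (nat_lit 31) (nat_lit 0xbc0001780002fc1b8) b18002 (.nil))))) (.tok (nat_lit 64) (nat_lit 0xbc0001780002fc5d1) (.hit (nat_lit 71) (nat_lit 50) (nat_lit 0xbc0001780002fbe9b) b18003 (.hit (nat_lit 72) (nat_lit 51) (nat_lit 0xbc0001780002fc5d1)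 b18004 (.nil))) (.tok (nat_lit 67) (nat_lit 0xbc0001780002fd75c) (.hit (nat_lit 73) (nat_lit 52) (nat_lit 0xbc0001780002fd56d) b18005 (.tok (nat_lit 3) (nat_lit 0xbc0001780002fd5b4) (.hit (nat_lit 79) (nat_lit 58) (nat_lit 0xbc0001780002fce02) b18008 (.one (nat_lit 55) (nat_lit 80) (nat_lit 59) (nat_lit 0xbc0001780002fd5b4) b18009 (.nil))) (.tok (nat_lit 9) (nat_lit 0xbc0001780002fd75c) (.hit (nat_lit 74) (nat_lit 53) (nat_lit 0xbc0001780002fd75c) b18006 (.hit (nat_lit 77) (nat_lit 56) (nat_lit 0xbc0001780002fc4bd) b18007 (.nil))) (.nil)))) (.one (nat_lit 70) (nat_lit 81) (nat_lit 60) (nat_lit 0xbc0001780002fc561) b18010 (.nil)))))) (.tok (nat_lit 6) (nat_lit 0xbc000178000300921) (.hit (nat_lit 0) (nat_lit 0) (nat_lit 0xbc0001780002fd0b9) b17975 (.tok (nat_lit 6) (nat_lit 0xbc0001780002fde26) (.hit (nat_lit 1) (nat_lit 7) (nat_lit 0xbc0001780002fc4e3) b17976 (.hit (nat_lit 6)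 (nat_lit 15) (nat_lit 0xbc0001780002fb78a) b17981 (.tok (nat_lit 14) (nat_lit 0xbc0001780002fde26) (.hit (nat_lit 2) (nat_lit 11) (nat_lit 0xbc0001780002fd59c) b17977 (.hit (nat_lit 7) (nat_lit 17) (nat_lit 0xbc0001780002fde26) b17982 (.one (nat_lit 9) (nat_lit 3) (nat_lit 12) (nat_lit 0xbc0001780002fd4e4) b17978 (.nil)))) (.tok (nat_lit 56) (nat_lit 0xbc0001780002fd517) (.hit (nat_lit 4) (nat_lit 13) (nat_lit 0xbc0001780002fd442) b17979 (.hit (nat_lit 9) (nat_lit 19) (nat_lit 0xbc0001780002fd418) b17984 (.one (nat_lit 6) (nat_lit 5) (nat_lit 14) (nat_lit 0xbc0001780002fd517) b17980 (.nil)))) (.one (nat_lit 68) (nat_lit 8) (nat_lit 18) (nat_lit 0xbc0001780002fd474) b17983 (.nil)))))) (.tok (nat_lit 52) (nat_lit 0xbc0001780002fdab7) (.hit (nat_lit 10) (nat_lit 39) (nat_lit 0xbc0001780002fcaa4) b17985 (.hit (nat_lit 11) (nat_lit 40) (nat_lit 0xbc0001780002fdab7) b17986 (.nil)))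 (.tok (nat_lit 55) (nat_lit 0xbc000178000300921) (.hit (nat_lit 12) (nat_lit 41) (nat_lit 0xbc0001780002fe039) b17987 (.tok (nat_lit 3) (nat_lit 0xbc0001780002fe546) (.hit (nat_lit 18) (nat_lit 47) (nat_lit 0xbc0001780002fd28b) b17993 (.one (nat_lit 67) (nat_lit 19) (nat_lit 48) (nat_lit 0xbc0001780002fe546) b17994 (.nil))) (.tok (nat_lit 6) (nat_lit 0xbc000178000300921) (.hit (nat_lit 13) (nat_lit 42) (nat_lit 0xbc0001780002fe59b) b17988 (.hit (nat_lit 16) (nat_lit 45) (nat_lit 0xbc0001780002fe19c) b17991 (.tok (nat_lit 55) (nat_lit 0xbc000178000300921) (.hit (nat_lit 14) (nat_lit 43) (nat_lit 0xbc000178000300213) b17989 (.hit (nat_lit 17) (nat_lit 46) (nat_lit 0xbc0001780002fddb2) b17992 (.one (nat_lit 6) (nat_lit 15) (nat_lit 44) (nat_lit 0xbc000178000300921) b17990 (.nil)))) (.nil)))) (.nil)))) (.one (nat_lit 58) (nat_lit 20) (nat_lit 49) (nat_lit 0xbc0001780002fd905) b17995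 (.nil)))))) (.nil))
noncomputable def r20_213 : Rw Blk := .tok (nat_lit 3) (nat_lit 0xbc0001780002fde12) (.hit (nat_lit 61) (nat_lit 0) (nat_lit 0xbc0001780002fd24b) b8970 (.tok (nat_lit 6) (nat_lit 0xbc0001780002fd581) (.hit (nat_lit 62) (nat_lit 7) (nat_lit 0xbc0001780002fbbf9) b8971 (.hit (nat_lit 67) (nat_lit 15) (nat_lit 0xbc0001780002fadd7) b8974 (.tok (nat_lit 14) (nat_lit 0xbc0001780002fcdff) (.hit (nat_lit 63) (nat_lit 11) (nat_lit 0xbc0001780002fbe0c) b9665 (.hit (nat_lit 68) (nat_lit 17) (nat_lit 0xbc0001780002fc1ee) b9667 (.one (nat_lit 9) (nat_lit 64) (nat_lit 12) (nat_lit 0xbc0001780002fcdff) b9666 (.nil)))) (.tok (nat_lit 56) (nat_lit 0xbc0001780002fd581) (.hit (nat_lit 65) (nat_lit 13) (nat_lit 0xbc0001780002fcd73) b8972 (.hit (nat_lit 70) (nat_lit 19) (nat_lit 0xbc0001780002fbed5) b8976 (.one (nat_lit 6) (nat_lit 66) (nat_lit 14) (nat_lit 0xbc0001780002fd581)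 b8973 (.nil)))) (.nil))))) (.tok (nat_lit 52) (nat_lit 0xbc0001780002fc70f) (.hit (nat_lit 71) (nat_lit 39) (nat_lit 0xbc0001780002fbf8c) b8977 (.hit (nat_lit 72) (nat_lit 40) (nat_lit 0xbc0001780002fc70f) b8978 (.nil))) (.tok (nat_lit 55) (nat_lit 0xbc0001780002fde12) (.hit (nat_lit 73) (nat_lit 41) (nat_lit 0xbc0001780002fdd96) b8979 (.tok (nat_lit 3) (nat_lit 0xbc0001780002fde12) (.hit (nat_lit 79) (nat_lit 47) (nat_lit 0xbc0001780002fd3b5) b8985 (.one (nat_lit 67) (nat_lit 80) (nat_lit 48) (nat_lit 0xbc0001780002fde12) b9668 (.nil))) (.tok (nat_lit 6) (nat_lit 0xbc0001780002fd8c9) (.hit (nat_lit 74) (nat_lit 42) (nat_lit 0xbc0001780002fc8f3) b8980 (.hit (nat_lit 77) (nat_lit 45) (nat_lit 0xbc0001780002fcc00) b8983 (.tok (nat_lit 55) (nat_lit 0xbc0001780002fd8c9) (.hit (nat_lit 75) (nat_lit 43) (nat_lit 0xbc0001780002fd809) b8981 (.hit (nat_lit 78) (nat_lit 46) (nat_lit 0xbc0001780002fd8c9)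 b8984 (.one (nat_lit 6) (nat_lit 76) (nat_lit 44) (nat_lit 0xbc0001780002fd3cd) b8982 (.nil)))) (.nil)))) (.nil)))) (.one (nat_lit 58) (nat_lit 81) (nat_lit 49) (nat_lit 0xbc0001780002fc7be) b8986 (.nil)))))) (.tok (nat_lit 9) (nat_lit 0xbc000178000300000) (.hit (nat_lit 0) (nat_lit 0) (nat_lit 0xbc0001780002feb42) b8953 (.tok (nat_lit 9) (nat_lit 0xbc000178000300000) (.hit (nat_lit 1) (nat_lit 20) (nat_lit 0xbc0001780002fd8ca) b8954 (.hit (nat_lit 6) (nat_lit 28) (nat_lit 0xbc0001780002fc64d) b8957 (.tok (nat_lit 14) (nat_lit 0xbc0001780002ff85a) (.hit (nat_lit 2) (nat_lit 24) (nat_lit 0xbc0001780002ff85a) b9662 (.hit (nat_lit 7) (nat_lit 30) (nat_lit 0xbc0001780002fe69f) b9664 (.one (nat_lit 6) (nat_lit 3) (nat_lit 25) (nat_lit 0xbc0001780002ff70f) b9663 (.nil)))) (.one (nat_lit 56) (nat_lit 8) (nat_lit 31) (nat_lit 0xbc0001780002fdb60) b8958 (.tok (nat_lit 68) (nat_lit 0xbc000178000300000)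 (.hit (nat_lit 4) (nat_lit 26) (nat_lit 0xbc0001780002fefdc) b8955 (.hit (nat_lit 9) (nat_lit 32) (nat_lit 0xbc0001780002fd664) b8959 (.one (nat_lit 9) (nat_lit 5) (nat_lit 27) (nat_lit 0xbc000178000300000) b8956 (.nil)))) (.nil)))))) (.nil))) (.nil))
noncomputable def r20_214 : Rw Blk := .tok (nat_lit 3) (nat_lit 0xbc000178000300000) (.hit (nat_lit 61) (nat_lit 0) (nat_lit 0xbc0001780002fe458) b9679 (.tok (nat_lit 6) (nat_lit 0xbc0001780002fe986) (.hit (nat_lit 62) (nat_lit 7) (nat_lit 0xbc0001780002fc969) b9680 (.hit (nat_lit 67) (nat_lit 15) (nat_lit 0xbc0001780002fccd8) b9685 (.tok (nat_lit 14) (nat_lit 0xbc0001780002fe986) (.hit (nat_lit 63) (nat_lit 11) (nat_lit 0xbc0001780002fdef7) b9681 (.hit (nat_lit 68) (nat_lit 17) (nat_lit 0xbc0001780002fdbe8) b9686 (.one (nat_lit 9) (nat_lit 64) (nat_lit 12) (nat_lit 0xbc0001780002fe986) b9682 (.nil)))) (.tok (nat_lit 56) (nat_lit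 0xbc0001780002fe4bc) (.hit (nat_lit 65) (nat_lit 13) (nat_lit 0xbc0001780002fe13b) b9683 (.hit (nat_lit 70) (nat_lit 19) (nat_lit 0xbc0001780002fdd09) b9687 (.one (nat_lit 6) (nat_lit 66) (nat_lit 14) (nat_lit 0xbc0001780002fe4bc) b9684 (.nil)))) (.nil))))) (.tok (nat_lit 52) (nat_lit 0xbc0001780002fe727) (.hit (nat_lit 71) (nat_lit 39) (nat_lit 0xbc0001780002fdff1) b9688 (.hit (nat_lit 72) (nat_lit 40) (nat_lit 0xbc0001780002fe727) b9689 (.nil))) (.tok (nat_lit 55) (nat_lit 0xbc000178000300000) (.hit (nat_lit 73) (nat_lit 41) (nat_lit 0xbc0001780002ff6c3) b9690 (.tok (nat_lit 3) (nat_lit 0xbc0001780002ff70a) (.hit (nat_lit 79) (nat_lit 47) (nat_lit 0xbc0001780002fef58) b9696 (.one (nat_lit 67) (nat_lit 80) (nat_lit 48) (nat_lit 0xbc0001780002ff70a) b9697 (.nil))) (.tok (nat_lit 6) (nat_lit 0xbc000178000300000) (.hit (nat_lit 74) (nat_lit 42) (nat_lit 0xbc0001780002ff8b2) b9691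 (.hit (nat_lit 77) (nat_lit 45) (nat_lit 0xbc0001780002fe613) b9694 (.tok (nat_lit 55) (nat_lit 0xbc000178000300000) (.hit (nat_lit 75) (nat_lit 43) (nat_lit 0xbc000178000300000) b9692 (.hit (nat_lit 78) (nat_lit 46) (nat_lit 0xbc0001780002ff758) b9695 (.one (nat_lit 6) (nat_lit 76) (nat_lit 44) (nat_lit 0xbc0001780002ff868) b9693 (.nil)))) (.nil)))) (.nil)))) (.one (nat_lit 58) (nat_lit 81) (nat_lit 49) (nat_lit 0xbc0001780002fe6b7) b9698 (.nil)))))) (.tok (nat_lit 9) (nat_lit 0xbc0001780002fff7c) (.hit (nat_lit 0) (nat_lit 0) (nat_lit 0xbc0001780002ff20f) b9669 (.tok (nat_lit 9) (nat_lit 0xbc0001780002fff7c) (.hit (nat_lit 1) (nat_lit 20) (nat_lit 0xbc0001780002fe639) b9670 (.hit (nat_lit 6) (nat_lit 28) (nat_lit 0xbc0001780002fd8e0) b9675 (.tok (nat_lit 14) (nat_lit 0xbc0001780002fff7c) (.hit (nat_lit 2) (nat_lit 24) (nat_lit 0xbc0001780002ff6f2) b9671 (.hit (nat_lit 7) (nat_lit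 30) (nat_lit 0xbc0001780002fff7c) b9676 (.one (nat_lit 6) (nat_lit 3) (nat_lit 25) (nat_lit 0xbc0001780002ff63a) b9672 (.nil)))) (.one (nat_lit 56) (nat_lit 8) (nat_lit 31) (nat_lit 0xbc0001780002ff5ca) b9677 (.tok (nat_lit 68) (nat_lit 0xbc0001780002ff66d) (.hit (nat_lit 4) (nat_lit 26) (nat_lit 0xbc0001780002ff598) b9673 (.hit (nat_lit 9) (nat_lit 32) (nat_lit 0xbc0001780002ff56e) b9678 (.one (nat_lit 9) (nat_lit 5) (nat_lit 27) (nat_lit 0xbc0001780002ff66d) b9674 (.nil)))) (.nil)))))) (.nil))) (.nil))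
noncomputable def r20_215 : Rw Blk := .tok (nat_lit 3) (nat_lit 0x17ee82afd6c95fdadcbf6d017ecf7afcf7c5fab16bf50c97e9d62fd003) (.hit (nat_lit 0) (nat_lit 0) (nat_lit 0x17ee82afd6c95fdadcbf6d017ecf7afcf7c5fab16bf50c97e9d62fd003) b36005 (.tok (nat_lit 6) (nat_lit 0x17e7ecafbf865fd5aebf34997e5f02fbce25f6df2bec8597e1572fc760) (.hit (nat_lit 1) (nat_lit 7) (nat_lit 0x17e7ecafbf865fd5aebf34997e5f02fbce25f6df2bec8597e1572fc760) b18678 (.hit (nat_lit 6) (nat_lit 15) (nat_lit 0x17e6b52fbd175fc5a6bf2add7e4b8afba735f6914bebe9d7e01fafc4f1) b18679 (.nil))) (.tok (nat_lit 9) (nat_lit 0x17e7ecafbf865fd5aebf34997e5f02fbce25f6df2bec8597e1572fc760) (.hit (nat_lit 10) (nat_lit 20) (nat_lit 0x17e7ecafbf865fd5aebf34997e5f02fbce25f6df2bec8597e1572fc760) b18678 (.hit (nat_lit 15) (nat_lit 28) (nat_lit 0x17e6b52fbd175fc5a6bf2add7e4b8afba735f6914bebe9d7e01fafc4f1) b18679 (.nil))) (.nil)))) (.tok (nat_lit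 6) (nat_lit 0x180000300000600000bfee997fdb3300709600882c018e180000300000) (.hit (nat_lit 81) (nat_lit 0) (nat_lit 0x17f9a42fee235ff1bcbfaf4d7f5c0afe9ea5fd8eebfb4117f9d1aff061) b18688 (.tok (nat_lit 3) (nat_lit 0x17f9ab2fe4ad5ffde6bfb9217f7042fe7315fd9d0bfb4457f5e62fea05) (.hit (nat_lit 82) (nat_lit 1) (nat_lit 0x17ec22afca405fd2c0bf4b397e9472fd5485fb67ebf65e57e839afce8b) b18689 (.one (nat_lit 67) (nat_lit 83) (nat_lit 2) (nat_lit 0x17f9ab2fe4ad5ffde6bfb9217f7042fe7315fd9d0bfb4457f5e62fea05) b18690 (.nil))) (.tok (nat_lit 6) (nat_lit 0x180000300000600000bfee997fdb3300709600882c018e180000300000) (.hit (nat_lit 87) (nat_lit 7) (nat_lit 0x17f61d2fe87d5fed2ebf822d7f025afe8fd5fdf12bfb3b17f2cbafe6ae) b18691 (.hit (nat_lit 95) (nat_lit 15) (nat_lit 0x17ed3dafc9da5fc316bf51bd7ea17afd9bd5fbf9ebf79d97e90a2fd02c) b18694 (.tok (nat_lit 55) (nat_lit 0x180000300000600000bfee997fdb3300709600882c018e180000300000)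 (.hit (nat_lit 88) (nat_lit 8) (nat_lit 0x1800002ff82d5ffd3abfee997fdb3300709600882c018e180000300000) b18692 (.hit (nat_lit 96) (nat_lit 16) (nat_lit 0x17f989afe65b5ff9cabfc0917f7f22ff5625ff27cbfe8817f6e4afebe1) b18695 (.one (nat_lit 6) (nat_lit 89) (nat_lit 9) (nat_lit 0x17faa2b00000600000bfbf397f7c73004256000b2c0132d7f7c42fecf6) b18693 (.nil)))) (.nil)))) (.nil)))) (.tok (nat_lit 9) (nat_lit 0x180000300000600000c00001800002fddf55fb018bf56317fc96aff760) (.hit (nat_lit 157) (nat_lit 0) (nat_lit 0x17f9a42fee235ff1bcbfc10d7f81a2fd0435fae88bf56317f4f2afe78e) b18680 (.tok (nat_lit 3) (nat_lit 0x17f9ab2fe4ad5ffde6bfcb1d7f93e2fcd865f8f3abf0ae97f5f6afea05) (.hit (nat_lit 158) (nat_lit 1) (nat_lit 0x17ec22afca405fd2c0bf5ca17eb742fb4d85f5ddebea8317e837afce8b) b18681 (.one (nat_lit 55) (nat_lit 159) (nat_lit 3) (nat_lit 0x17f9ab2fe4ad5ffde6bfcb1d7f93e2fcd865f8f3abf0ae97f5f6afea05) b18682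 (.nil))) (.tok (nat_lit 9) (nat_lit 0x180000300000600000c00001800002fddf55fb018bf4ca57fc96aff760) (.hit (nat_lit 163) (nat_lit 20) (nat_lit 0x17f61d2fe87d5fed2ebf94057f260afc8145f8456bef5217ef252fdfa0) b18683 (.hit (nat_lit 171) (nat_lit 28) (nat_lit 0x17ed3dafc9da5fc316bf63257ec44afac605f4ceebe86517e90a2fd02c) b18686 (.tok (nat_lit 67) (nat_lit 0x180000300000600000c00001800002fddf55fb018bf4ca57fc96aff760) (.hit (nat_lit 164) (nat_lit 21) (nat_lit 0x1800002ff82d5ffd3ac000017ffe02fdc045fac36bf44e17fc96aff760) b18684 (.hit (nat_lit 172) (nat_lit 29) (nat_lit 0x17f989afe65b5ff9cabfd2917fa2f2fda4b5fa8c4bf3dfd7f6e4afebe1) b18687 (.one (nat_lit 9) (nat_lit 165) (nat_lit 22) (nat_lit 0x17faa2b00000600000bfdfcd800002fddf55fb018bf4ca57f6b62feb84) b18685 (.nil)))) (.nil)))) (.nil)))) (.nil)))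
noncomputable def r20_216 : Rw Blk := .tok (nat_lit 6) (nat_lit 0xbc000178000300000) (.hit (nat_lit 51) (nat_lit 0) (nat_lit 0xbc0001780002ff743) b8943 (.tok (nat_lit 3) (nat_lit 0xbc0001780002ffecc) (.hit (nat_lit 52) (nat_lit 1) (nat_lit 0xbc0001780002fdccb) b8944 (.one (nat_lit 14) (nat_lit 53) (nat_lit 4) (nat_lit 0xbc0001780002ffecc) b9239 (.one (nat_lit 56) (nat_lit 55) (nat_lit 6) (nat_lit 0xbc0001780002ff720) b8945 (.nil)))) (.tok (nat_lit 40) (nat_lit 0xbc0001780002ff5de) (.hit (nat_lit 56) (nat_lit 33) (nat_lit 0xbc0001780002ff5de) b8947 (.hit (nat_lit 57) (nat_lit 34) (nat_lit 0xbc0001780002ff3d8) b8948 (.nil))) (.tok (nat_lit 43) (nat_lit 0xbc000178000300000) (.hit (nat_lit 58) (nat_lit 35) (nat_lit 0xbc000178000300000) b8951 (.hit (nat_lit 59) (nat_lit 36) (nat_lit 0xbc0001780002ff6ae) b8952 (.nil))) (.tok (nat_lit 46) (nat_lit 0xbc0001780002ffbd8) (.hit (nat_lit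 60) (nat_lit 37) (nat_lit 0xbc0001780002fe56f) b8949 (.hit (nat_lit 61) (nat_lit 38) (nat_lit 0xbc0001780002ffbd8) b8950 (.nil))) (.nil)))))) (.tok (nat_lit 9) (nat_lit 0xbc000178000300000) (.hit (nat_lit 0) (nat_lit 0) (nat_lit 0xbc0001780002ff743) b8943 (.tok (nat_lit 3) (nat_lit 0xbc0001780002ffecc) (.hit (nat_lit 1) (nat_lit 1) (nat_lit 0xbc0001780002fdccb) b8944 (.one (nat_lit 14) (nat_lit 2) (nat_lit 4) (nat_lit 0xbc0001780002ffecc) b9239 (.one (nat_lit 68) (nat_lit 3) (nat_lit 5) (nat_lit 0xbc0001780002ff720) b8945 (.nil)))) (.tok (nat_lit 40) (nat_lit 0xbc0001780002ff5de) (.hit (nat_lit 5) (nat_lit 33) (nat_lit 0xbc0001780002ff5de) b8947 (.hit (nat_lit 6) (nat_lit 34) (nat_lit 0xbc0001780002ff3d8) b8948 (.nil))) (.tok (nat_lit 43) (nat_lit 0xbc0001780002ffbd8) (.hit (nat_lit 7) (nat_lit 35) (nat_lit 0xbc0001780002fe56f) b8949 (.hit (nat_lit 8) (nat_lit 36) (nat_lit 0xbc0001780002ffbd8)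 b8950 (.nil))) (.tok (nat_lit 46) (nat_lit 0xbc000178000300000) (.hit (nat_lit 9) (nat_lit 37) (nat_lit 0xbc000178000300000) b8951 (.hit (nat_lit 10) (nat_lit 38) (nat_lit 0xbc0001780002ff6ae) b8952 (.nil))) (.nil)))))) (.nil))
noncomputable def r20_217 : Rw Blk := .tok (nat_lit 3) (nat_lit 0xbc0001780002fdf77) (.hit (nat_lit 61) (nat_lit 0) (nat_lit 0xbc0001780002fd3b0) b18711 (.tok (nat_lit 9) (nat_lit 0xbc0001780002fd6e6) (.hit (nat_lit 62) (nat_lit 20) (nat_lit 0xbc0001780002fbd5e) b18712 (.hit (nat_lit 67) (nat_lit 28) (nat_lit 0xbc0001780002faf3c) b18717 (.tok (nat_lit 14) (nat_lit 0xbc0001780002fcf64) (.hit (nat_lit 63) (nat_lit 24) (nat_lit 0xbc0001780002fbf71) b18713 (.hit (nat_lit 68) (nat_lit 30) (nat_lit 0xbc0001780002fc353) b18718 (.one (nat_lit 6) (nat_lit 64) (nat_lit 25) (nat_lit 0xbc0001780002fcf64) b18714 (.nil)))) (.one (nat_lit 56) (nat_lit 69) (nat_lit 31)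 (nat_lit 0xbc0001780002fc1ba) b18719 (.tok (nat_lit 68) (nat_lit 0xbc0001780002fd6e6) (.hit (nat_lit 65) (nat_lit 26) (nat_lit 0xbc0001780002fced8) b18715 (.hit (nat_lit 70) (nat_lit 32) (nat_lit 0xbc0001780002fc03a) b18720 (.one (nat_lit 9) (nat_lit 66) (nat_lit 27) (nat_lit 0xbc0001780002fd6e6) b18716 (.nil)))) (.nil)))))) (.tok (nat_lit 64) (nat_lit 0xbc0001780002fc874) (.hit (nat_lit 71) (nat_lit 50) (nat_lit 0xbc0001780002fc0f1) b18721 (.hit (nat_lit 72) (nat_lit 51) (nat_lit 0xbc0001780002fc874) b18722 (.nil))) (.tok (nat_lit 67) (nat_lit 0xbc0001780002fdf77) (.hit (nat_lit 73) (nat_lit 52) (nat_lit 0xbc0001780002fdefb) b18723 (.tok (nat_lit 3) (nat_lit 0xbc0001780002fdf77) (.hit (nat_lit 79) (nat_lit 58) (nat_lit 0xbc0001780002fd51a) b18729 (.one (nat_lit 55) (nat_lit 80) (nat_lit 59) (nat_lit 0xbc0001780002fdf77) b18730 (.nil))) (.tok (nat_lit 9) (nat_lit 0xbc0001780002fda2e)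 (.hit (nat_lit 74) (nat_lit 53) (nat_lit 0xbc0001780002fca58) b18724 (.hit (nat_lit 77) (nat_lit 56) (nat_lit 0xbc0001780002fcd65) b18727 (.tok (nat_lit 67) (nat_lit 0xbc0001780002fda2e) (.hit (nat_lit 75) (nat_lit 54) (nat_lit 0xbc0001780002fd96e) b18725 (.hit (nat_lit 78) (nat_lit 57) (nat_lit 0xbc0001780002fda2e) b18728 (.one (nat_lit 9) (nat_lit 76) (nat_lit 55) (nat_lit 0xbc0001780002fd532) b18726 (.nil)))) (.nil)))) (.nil)))) (.one (nat_lit 70) (nat_lit 81) (nat_lit 60) (nat_lit 0xbc0001780002fc923) b18731 (.nil)))))) (.tok (nat_lit 6) (nat_lit 0xbc0001780003001a8) (.hit (nat_lit 0) (nat_lit 0) (nat_lit 0xbc0001780002feca7) b18696 (.tok (nat_lit 6) (nat_lit 0xbc0001780002ff9bf) (.hit (nat_lit 1) (nat_lit 7) (nat_lit 0xbc0001780002fda2f) b18697 (.hit (nat_lit 6) (nat_lit 15) (nat_lit 0xbc0001780002fc7b2) b18700 (.tok (nat_lit 14) (nat_lit 0xbc0001780002ff9bf) (.hit (nat_lit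 2) (nat_lit 11) (nat_lit 0xbc0001780002ff9bf) b18698 (.hit (nat_lit 7) (nat_lit 17) (nat_lit 0xbc0001780002fe804) b18701 (.one (nat_lit 9) (nat_lit 3) (nat_lit 12) (nat_lit 0xbc0001780002ff874) b18699 (.nil)))) (.one (nat_lit 68) (nat_lit 8) (nat_lit 18) (nat_lit 0xbc0001780002fdcc5) b18702 (.nil))))) (.tok (nat_lit 52) (nat_lit 0xbc0001780002fec52) (.hit (nat_lit 10) (nat_lit 39) (nat_lit 0xbc0001780002fdf1f) b18703 (.hit (nat_lit 11) (nat_lit 40) (nat_lit 0xbc0001780002fec52) b18704 (.nil))) (.tok (nat_lit 55) (nat_lit 0xbc0001780003001a8) (.hit (nat_lit 12) (nat_lit 41) (nat_lit 0xbc0001780002ffa2d) b18705 (.tok (nat_lit 3) (nat_lit 0xbc0001780003001a8) (.hit (nat_lit 18) (nat_lit 47) (nat_lit 0xbc0001780002fee35) b18708 (.one (nat_lit 67) (nat_lit 19) (nat_lit 48) (nat_lit 0xbc0001780003001a8) b18709 (.nil))) (.tok (nat_lit 6) (nat_lit 0xbc0001780002fee90) (.hit (nat_lit 13)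 (nat_lit 42) (nat_lit 0xbc0001780002fe29a) b18706 (.hit (nat_lit 16) (nat_lit 45) (nat_lit 0xbc0001780002fee90) b18707 (.nil))) (.nil)))) (.one (nat_lit 58) (nat_lit 20) (nat_lit 49) (nat_lit 0xbc0001780002fee7e) b18710 (.nil)))))) (.nil))
noncomputable def r20_218 : Rw Blk := .tok (nat_lit 3) (nat_lit 0xbc0001780002ff90f) (.hit (nat_lit 61) (nat_lit 0) (nat_lit 0xbc0001780002fdd67) b9291 (.tok (nat_lit 9) (nat_lit 0xbc0001780002fe295) (.hit (nat_lit 62) (nat_lit 20) (nat_lit 0xbc0001780002fc278) b9292 (.hit (nat_lit 67) (nat_lit 28) (nat_lit 0xbc0001780002fc5e7) b9297 (.tok (nat_lit 14) (nat_lit 0xbc0001780002fe295) (.hit (nat_lit 63) (nat_lit 24) (nat_lit 0xbc0001780002fd806) b9293 (.hit (nat_lit 68) (nat_lit 30) (nat_lit 0xbc0001780002fd4f7) b9298 (.one (nat_lit 6) (nat_lit 64) (nat_lit 25) (nat_lit 0xbc0001780002fe295) b9294 (.nil)))) (.one (nat_lit 56) (nat_lit 69) (nat_lit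 31) (nat_lit 0xbc0001780002fdc1d) b9299 (.tok (nat_lit 68) (nat_lit 0xbc0001780002fddcb) (.hit (nat_lit 65) (nat_lit 26) (nat_lit 0xbc0001780002fda4a) b9295 (.hit (nat_lit 70) (nat_lit 32) (nat_lit 0xbc0001780002fd618) b9300 (.one (nat_lit 9) (nat_lit 66) (nat_lit 27) (nat_lit 0xbc0001780002fddcb) b9296 (.nil)))) (.nil)))))) (.tok (nat_lit 64) (nat_lit 0xbc0001780002fe036) (.hit (nat_lit 71) (nat_lit 50) (nat_lit 0xbc0001780002fd900) b9301 (.hit (nat_lit 72) (nat_lit 51) (nat_lit 0xbc0001780002fe036) b9302 (.nil))) (.tok (nat_lit 67) (nat_lit 0xbc0001780002ff90f) (.hit (nat_lit 73) (nat_lit 52) (nat_lit 0xbc0001780002fefd2) b9303 (.tok (nat_lit 3) (nat_lit 0xbc0001780002ff019) (.hit (nat_lit 79) (nat_lit 58) (nat_lit 0xbc0001780002fe867) b9309 (.one (nat_lit 55) (nat_lit 80) (nat_lit 59) (nat_lit 0xbc0001780002ff019) b9310 (.nil))) (.tok (nat_lit 9) (nat_lit 0xbc0001780002ff90f)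 (.hit (nat_lit 74) (nat_lit 53) (nat_lit 0xbc0001780002ff1c1) b9304 (.hit (nat_lit 77) (nat_lit 56) (nat_lit 0xbc0001780002fdf22) b9307 (.tok (nat_lit 67) (nat_lit 0xbc0001780002ff90f) (.hit (nat_lit 75) (nat_lit 54) (nat_lit 0xbc0001780002ff90f) b9305 (.hit (nat_lit 78) (nat_lit 57) (nat_lit 0xbc0001780002ff067) b9308 (.one (nat_lit 9) (nat_lit 76) (nat_lit 55) (nat_lit 0xbc0001780002ff177) b9306 (.nil)))) (.nil)))) (.nil)))) (.one (nat_lit 70) (nat_lit 81) (nat_lit 60) (nat_lit 0xbc0001780002fdfc6) b9311 (.nil)))))) (.tok (nat_lit 6) (nat_lit 0xbc000178000300000) (.hit (nat_lit 0) (nat_lit 0) (nat_lit 0xbc0001780002feb1e) b9276 (.tok (nat_lit 6) (nat_lit 0xbc0001780002ff88b) (.hit (nat_lit 1) (nat_lit 7) (nat_lit 0xbc0001780002fdf48) b9277 (.hit (nat_lit 6) (nat_lit 15) (nat_lit 0xbc0001780002fd1ef) b9280 (.tok (nat_lit 14) (nat_lit 0xbc0001780002ff88b) (.hit (nat_lit 2) (nat_lit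 11) (nat_lit 0xbc0001780002ff001) b9278 (.hit (nat_lit 7) (nat_lit 17) (nat_lit 0xbc0001780002ff88b) b9281 (.one (nat_lit 9) (nat_lit 3) (nat_lit 12) (nat_lit 0xbc0001780002fef49) b9279 (.nil)))) (.one (nat_lit 68) (nat_lit 8) (nat_lit 18) (nat_lit 0xbc0001780002feed9) b9282 (.nil))))) (.tok (nat_lit 52) (nat_lit 0xbc0001780002ff51c) (.hit (nat_lit 10) (nat_lit 39) (nat_lit 0xbc0001780002fe509) b9283 (.hit (nat_lit 11) (nat_lit 40) (nat_lit 0xbc0001780002ff51c) b9284 (.nil))) (.tok (nat_lit 55) (nat_lit 0xbc000178000300000) (.hit (nat_lit 12) (nat_lit 41) (nat_lit 0xbc0001780002ffa9e) b9285 (.tok (nat_lit 3) (nat_lit 0xbc0001780002fffab) (.hit (nat_lit 18) (nat_lit 47) (nat_lit 0xbc0001780002fecf0) b9288 (.one (nat_lit 67) (nat_lit 19) (nat_lit 48) (nat_lit 0xbc0001780002fffab) b9289 (.nil))) (.tok (nat_lit 6) (nat_lit 0xbc000178000300000) (.hit (nat_lit 13) (nat_lit 42) (nat_lit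 0xbc000178000300000) b9286 (.hit (nat_lit 16) (nat_lit 45) (nat_lit 0xbc0001780002ffc01) b9287 (.nil))) (.nil)))) (.one (nat_lit 58) (nat_lit 20) (nat_lit 49) (nat_lit 0xbc0001780002ff36a) b9290 (.nil)))))) (.nil))
noncomputable def r20_219 : Rw Blk := .tok (nat_lit 3) (nat_lit 0xbc0001780002fddcf) (.hit (nat_lit 61) (nat_lit 0) (nat_lit 0xbc0001780002fd208) b9255 (.tok (nat_lit 6) (nat_lit 0xbc0001780002fd53e) (.hit (nat_lit 62) (nat_lit 7) (nat_lit 0xbc0001780002fbbb6) b9256 (.hit (nat_lit 67) (nat_lit 15) (nat_lit 0xbc0001780002fad94) b9261 (.tok (nat_lit 14) (nat_lit 0xbc0001780002fcdbc) (.hit (nat_lit 63) (nat_lit 11) (nat_lit 0xbc0001780002fbdc9) b9257 (.hit (nat_lit 68) (nat_lit 17) (nat_lit 0xbc0001780002fc1ab) b9262 (.one (nat_lit 9) (nat_lit 64) (nat_lit 12) (nat_lit 0xbc0001780002fcdbc) b9258 (.nil)))) (.tok (nat_lit 56) (nat_lit 0xbc0001780002fd53e) (.hit (nat_lit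 65) (nat_lit 13) (nat_lit 0xbc0001780002fcd30) b9259 (.hit (nat_lit 70) (nat_lit 19) (nat_lit 0xbc0001780002fbe92) b9264 (.one (nat_lit 6) (nat_lit 66) (nat_lit 14) (nat_lit 0xbc0001780002fd53e) b9260 (.nil)))) (.one (nat_lit 68) (nat_lit 69) (nat_lit 18) (nat_lit 0xbc0001780002fc012) b9263 (.nil)))))) (.tok (nat_lit 52) (nat_lit 0xbc0001780002fc6cc) (.hit (nat_lit 71) (nat_lit 39) (nat_lit 0xbc0001780002fbf49) b9265 (.hit (nat_lit 72) (nat_lit 40) (nat_lit 0xbc0001780002fc6cc) b9266 (.nil))) (.tok (nat_lit 55) (nat_lit 0xbc0001780002fddcf) (.hit (nat_lit 73) (nat_lit 41) (nat_lit 0xbc0001780002fdd53) b9267 (.tok (nat_lit 3) (nat_lit 0xbc0001780002fddcf) (.hit (nat_lit 79) (nat_lit 47) (nat_lit 0xbc0001780002fd372) b9273 (.one (nat_lit 67) (nat_lit 80) (nat_lit 48) (nat_lit 0xbc0001780002fddcf) b9274 (.nil))) (.tok (nat_lit 6) (nat_lit 0xbc0001780002fd886) (.hit (nat_lit 74) (nat_lit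 42) (nat_lit 0xbc0001780002fc8b0) b9268 (.hit (nat_lit 77) (nat_lit 45) (nat_lit 0xbc0001780002fcbbd) b9271 (.tok (nat_lit 55) (nat_lit 0xbc0001780002fd886) (.hit (nat_lit 75) (nat_lit 43) (nat_lit 0xbc0001780002fd7c6) b9269 (.hit (nat_lit 78) (nat_lit 46) (nat_lit 0xbc0001780002fd886) b9272 (.one (nat_lit 6) (nat_lit 76) (nat_lit 44) (nat_lit 0xbc0001780002fd38a) b9270 (.nil)))) (.nil)))) (.nil)))) (.one (nat_lit 58) (nat_lit 81) (nat_lit 49) (nat_lit 0xbc0001780002fc77b) b9275 (.nil)))))) (.tok (nat_lit 9) (nat_lit 0xbc000178000300000) (.hit (nat_lit 0) (nat_lit 0) (nat_lit 0xbc0001780002feaff) b9240 (.tok (nat_lit 9) (nat_lit 0xbc0001780002ff817) (.hit (nat_lit 1) (nat_lit 20) (nat_lit 0xbc0001780002fd887) b9241 (.hit (nat_lit 6) (nat_lit 28) (nat_lit 0xbc0001780002fc60a) b9244 (.tok (nat_lit 14) (nat_lit 0xbc0001780002ff817) (.hit (nat_lit 2) (nat_lit 24) (nat_lit 0xbc0001780002ff817)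 b9242 (.hit (nat_lit 7) (nat_lit 30) (nat_lit 0xbc0001780002fe65c) b9245 (.one (nat_lit 6) (nat_lit 3) (nat_lit 25) (nat_lit 0xbc0001780002ff6cc) b9243 (.nil)))) (.one (nat_lit 56) (nat_lit 8) (nat_lit 31) (nat_lit 0xbc0001780002fdb1d) b9246 (.nil))))) (.tok (nat_lit 64) (nat_lit 0xbc0001780002feaaa) (.hit (nat_lit 10) (nat_lit 50) (nat_lit 0xbc0001780002fdd77) b9247 (.hit (nat_lit 11) (nat_lit 51) (nat_lit 0xbc0001780002feaaa) b9248 (.nil))) (.tok (nat_lit 67) (nat_lit 0xbc000178000300000) (.hit (nat_lit 12) (nat_lit 52) (nat_lit 0xbc0001780002ff885) b9249 (.tok (nat_lit 3) (nat_lit 0xbc000178000300000) (.hit (nat_lit 18) (nat_lit 58) (nat_lit 0xbc0001780002fec8d) b9252 (.one (nat_lit 55) (nat_lit 19) (nat_lit 59) (nat_lit 0xbc000178000300000) b9253 (.nil))) (.tok (nat_lit 9) (nat_lit 0xbc0001780002fece8) (.hit (nat_lit 13) (nat_lit 53) (nat_lit 0xbc0001780002fe0f2) b9250 (.hit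 (nat_lit 16) (nat_lit 56) (nat_lit 0xbc0001780002fece8) b9251 (.nil))) (.nil)))) (.one (nat_lit 70) (nat_lit 20) (nat_lit 60) (nat_lit 0xbc0001780002fecd6) b9254 (.nil)))))) (.nil))
noncomputable def r20_220 : Rw Blk := .tok (nat_lit 3) (nat_lit 0xbc0001780002ff90f) (.hit (nat_lit 61) (nat_lit 0) (nat_lit 0xbc0001780002fdd67) b9291 (.tok (nat_lit 6) (nat_lit 0xbc0001780002fe295) (.hit (nat_lit 62) (nat_lit 7) (nat_lit 0xbc0001780002fc278) b9292 (.hit (nat_lit 67) (nat_lit 15) (nat_lit 0xbc0001780002fc5e7) b9297 (.tok (nat_lit 14) (nat_lit 0xbc0001780002fe295) (.hit (nat_lit 63) (nat_lit 11) (nat_lit 0xbc0001780002fd806) b9293 (.hit (nat_lit 68) (nat_lit 17) (nat_lit 0xbc0001780002fd4f7) b9298 (.one (nat_lit 9) (nat_lit 64) (nat_lit 12) (nat_lit 0xbc0001780002fe295) b9294 (.nil)))) (.tok (nat_lit 56) (nat_lit 0xbc0001780002fddcb) (.hit (nat_lit 65) (nat_lit 13) (nat_lit 0xbc0001780002fda4a)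 b9295 (.hit (nat_lit 70) (nat_lit 19) (nat_lit 0xbc0001780002fd618) b9300 (.one (nat_lit 6) (nat_lit 66) (nat_lit 14) (nat_lit 0xbc0001780002fddcb) b9296 (.nil)))) (.one (nat_lit 68) (nat_lit 69) (nat_lit 18) (nat_lit 0xbc0001780002fdc1d) b9299 (.nil)))))) (.tok (nat_lit 52) (nat_lit 0xbc0001780002fe036) (.hit (nat_lit 71) (nat_lit 39) (nat_lit 0xbc0001780002fd900) b9301 (.hit (nat_lit 72) (nat_lit 40) (nat_lit 0xbc0001780002fe036) b9302 (.nil))) (.tok (nat_lit 55) (nat_lit 0xbc0001780002ff90f) (.hit (nat_lit 73) (nat_lit 41) (nat_lit 0xbc0001780002fefd2) b9303 (.tok (nat_lit 3) (nat_lit 0xbc0001780002ff019) (.hit (nat_lit 79) (nat_lit 47) (nat_lit 0xbc0001780002fe867) b9309 (.one (nat_lit 67) (nat_lit 80) (nat_lit 48) (nat_lit 0xbc0001780002ff019) b9310 (.nil))) (.tok (nat_lit 6) (nat_lit 0xbc0001780002ff90f) (.hit (nat_lit 74) (nat_lit 42) (nat_lit 0xbc0001780002ff1c1) b9304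 (.hit (nat_lit 77) (nat_lit 45) (nat_lit 0xbc0001780002fdf22) b9307 (.tok (nat_lit 55) (nat_lit 0xbc0001780002ff90f) (.hit (nat_lit 75) (nat_lit 43) (nat_lit 0xbc0001780002ff90f) b9305 (.hit (nat_lit 78) (nat_lit 46) (nat_lit 0xbc0001780002ff067) b9308 (.one (nat_lit 6) (nat_lit 76) (nat_lit 44) (nat_lit 0xbc0001780002ff177) b9306 (.nil)))) (.nil)))) (.nil)))) (.one (nat_lit 58) (nat_lit 81) (nat_lit 49) (nat_lit 0xbc0001780002fdfc6) b9311 (.nil)))))) (.tok (nat_lit 9) (nat_lit 0xbc000178000300000) (.hit (nat_lit 0) (nat_lit 0) (nat_lit 0xbc0001780002feb1e) b9276 (.tok (nat_lit 9) (nat_lit 0xbc0001780002ff88b) (.hit (nat_lit 1) (nat_lit 20) (nat_lit 0xbc0001780002fdf48) b9277 (.hit (nat_lit 6) (nat_lit 28) (nat_lit 0xbc0001780002fd1ef) b9280 (.tok (nat_lit 14) (nat_lit 0xbc0001780002ff88b) (.hit (nat_lit 2) (nat_lit 24) (nat_lit 0xbc0001780002ff001) b9278 (.hit (nat_lit 7) (nat_lit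 30) (nat_lit 0xbc0001780002ff88b) b9281 (.one (nat_lit 6) (nat_lit 3) (nat_lit 25) (nat_lit 0xbc0001780002fef49) b9279 (.nil)))) (.one (nat_lit 56) (nat_lit 8) (nat_lit 31) (nat_lit 0xbc0001780002feed9) b9282 (.nil))))) (.tok (nat_lit 64) (nat_lit 0xbc0001780002ff51c) (.hit (nat_lit 10) (nat_lit 50) (nat_lit 0xbc0001780002fe509) b9283 (.hit (nat_lit 11) (nat_lit 51) (nat_lit 0xbc0001780002ff51c) b9284 (.nil))) (.tok (nat_lit 67) (nat_lit 0xbc000178000300000) (.hit (nat_lit 12) (nat_lit 52) (nat_lit 0xbc0001780002ffa9e) b9285 (.tok (nat_lit 3) (nat_lit 0xbc0001780002fffab) (.hit (nat_lit 18) (nat_lit 58) (nat_lit 0xbc0001780002fecf0) b9288 (.one (nat_lit 55) (nat_lit 19) (nat_lit 59) (nat_lit 0xbc0001780002fffab) b9289 (.nil))) (.tok (nat_lit 9) (nat_lit 0xbc000178000300000) (.hit (nat_lit 13) (nat_lit 53) (nat_lit 0xbc000178000300000) b9286 (.hit (nat_lit 16) (nat_lit 56) (nat_lit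 0xbc0001780002ffc01) b9287 (.nil))) (.nil)))) (.one (nat_lit 70) (nat_lit 20) (nat_lit 60) (nat_lit 0xbc0001780002ff36a) b9290 (.nil)))))) (.nil))
noncomputable def r20_221 : Rw Blk := .tok (nat_lit 6) (nat_lit 0xc0000180000300000600000c000017e881afffff5fffcec000017fffcafff78600000bfb7a57f1df2fddbf5fc49ebf9a757f0002fecbf5fd2d8bf99ad7fcc8affcf8) (.hit (nat_lit 81) (nat_lit 0) (nat_lit 0xbf925d7f3b9afe2695fd31abfa3497e8212fe1ec5fd1e8bfb2117f06eafeb6a5fc236bf3d0d7e2e7afc2a65f8f86bf20157eae12fdb285f9efebf52397f1c0afe567) b18742 (.tok (nat_lit 3) (nat_lit 0xbfa2a57f8aeafeb6e5fcc3cbf9d497db0e2fe4ca5fc8f6bf99ed7f2912fd9035fc6a2bf64ed7e7882fc9115f9b42bf47bd7e5a92fd8115fa97cbf46f57f21f2fe6e4) (.hit (nat_lit 82) (nat_lit 1) (nat_lit 0xbf2ecd7e654afd0165f95c4bf2db97d1dfafcb305f955cbf340d7e597afcaa15f956ebf1c917de7cafb6fa5f7714beff617dc9dafc5fa5f854ebefe997e9ce2fd4fa) b18743 (.one (nat_lit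 14) (nat_lit 84) (nat_lit 4) (nat_lit 0xbfa2a57f8aeafeb6e5fcc3cbf9d497d721afe4ca5fc8f6bf99ed7f2912fd5b15fc6a2bf58fd7e60a2fc6155f954abf3bcd7e42b2fd5155fa384bf3b057f1c1afe6e4) b18744 (.one (nat_lit 56) (nat_lit 86) (nat_lit 6) (nat_lit 0xbf8a997f26bafe2195fc3eebf8a997db0e2fe1cb5fb59ebf893d7f0b3afd9035fb5d4bf64ed7e7882fc9115f9b42bf47bd7e5a92fd8115fa97cbf46f57f21f2fe61b) b18745 (.nil)))) (.tok (nat_lit 40) (nat_lit 0xbfa4d97f6662febc75fd140bfa4e17dc402ff5185fe38cbfd68d7f71a2fe8b95fd42abf76597e9b5afcd6c5fa3f8bf59297e7d6afdc6c5fb232bf58617f35aaff0fb) (.hit (nat_lit 100) (nat_lit 33) (nat_lit 0xbfa4d97f6662febc75fd140bfa4e17dc402ff5185fe38cbfd68d7f71a2fe8b95fd42abf76597e9b5afcd6c5fa3f8bf59297e7d6afdc6c5fb232bf58617f2cdaff0fb) b18746 (.hit (nat_lit 101) (nat_lit 34) (nat_lit 0xbf8c857f354afe0015fc638bf8c857d9232fe3215fc642bf8c817f190afe28f5fc62ebf6c557e8752fcaeb5f9ef6bf4f257e6962fd9eb5fad30bf4e5d7f35aafe87b)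 b18747 (.nil))) (.tok (nat_lit 43) (nat_lit 0xbf9b79800002fef255fe836bfd3897e58faff1795fea36bfec917f88d2fed7b5fdd2abf86ed7ebc82fd1915fac42bf69bd7e9e92fe0915fba7cbf68f57f702aff3c4) (.hit (nat_lit 102) (nat_lit 35) (nat_lit 0xbf9b79800002fef255fe836bfd3897e58faff1795fea36bfec917f88d2fed7b5fdd2abf86ed7ebc82fd1915fac42bf69bd7e9e92fe0915fba7cbf68f57f702aff3c4) b18750 (.hit (nat_lit 103) (nat_lit 36) (nat_lit 0xbf653d7f2f02fdcb85fd13ebfa2897e0c52fe9f55fd918bfa3ed7f4632fe4645fca04bf83bd7eb622fd0c55faaaabf668d7e9832fdfc55fb8e4bf65c57f567afef70) b18751 (.nil))) (.tok (nat_lit 46) (nat_lit 0xc000017ff1fb00000600000c000017e881afffff5fffcec000017fffcafff78600000bfb7a57f1df2fddbf5fc49ebf9a757f0002fecbf5fd2d8bf99ad7fcc8affcf8) (.hit (nat_lit 104) (nat_lit 37) (nat_lit 0xbfa3217f249affb285fe550bfc1997e881afe87c5fe974bfa3a97f440aff0ed5fd0bcbf7fc57eae32fd5d95fb248bf62957ec06afdec75fb6e8bf722d7f89baff342)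 b18748 (.hit (nat_lit 105) (nat_lit 38) (nat_lit 0xc000017ff1fb00000600000c000017e38b2fffff5fffcec000017fffcafff78600000bfb7a57f1df2fddbf5fc49ebf9a757f0002fecbf5fd2d8bf99ad7fcc8affcf8) b18749 (.nil))) (.nil)))))) (.tok (nat_lit 9) (nat_lit 0xc00001800003000005ff316bfe87580000300000600000bfff89800003000005fff8cc0021d80000300000600338c0000180000300000600000c0000180000300000) (.hit (nat_lit 157) (nat_lit 0) (nat_lit 0xbf925d7f3b9afe2695fd080bfa3497f06bafe1e75fc634bf8f1d7f0222fec905fccaebf7c5d7ee192fe3885fc418bf70457f191afe11d5fbbc4bf8a8d7f319afe782) b18732 (.tok (nat_lit 3) (nat_lit 0xbfa2a57f8aeafeb6e5fc436bf8ab57f3a8afe8305fd026bfa16d7f425afe7d05fcfbabf85397f0d82fe1895fbacebf86c57f2f0afe6605fbfdcbf97797f4612fea3d) (.hit (nat_lit 158) (nat_lit 1) (nat_lit 0xbf2ecd7e654afd0165f8ac8bf17317e5672fcbb55f9758bf2f117e5d02fc7725f954cbf22c17e7e62fcda95f9ac8bf38617e871afcfcb5f9190bf31497ea6bafd512)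 b18733 (.one (nat_lit 14) (nat_lit 160) (nat_lit 4) (nat_lit 0xbfa2a57f8aeafeb6e5fc436bf8ab57f3a8afe8305fd026bfa16d7f425afe7d05fcfbabf85397f0d82fe1895fbacebf86c57f2f0afe6605fbfdcbf97797f4612fea3d) b18734 (.one (nat_lit 68) (nat_lit 161) (nat_lit 5) (nat_lit 0xbf8a997f26bafe2195fb85abf72fd7eb162fdd875fbbeebf7f697ef42afd6065fb650bf64ed7ef872fd9bc5fb158bf6f6d7f2022fe3275fb990bf7f0d7f346afe5de) b18735 (.nil)))) (.tok (nat_lit 40) (nat_lit 0xbfa4d97f6662febc75fd110bf8d457f3552fe9315fd262bfa44d7f49c2fe9375fd264bfd9c97fc29affcb55ff37abfb8e17f4f32fed095fd50abfc04d7fa33b00000) (.hit (nat_lit 176) (nat_lit 33) (nat_lit 0xbfa4d97f6662febc75fd110bf8d457efd42fe9315fd262bfa44d7f49c2fe9375fd264bfd9c97fc29affcb55ff37abfb8e17f4cd2fed095fd50abfc04d7fa33b00000) b18736 (.hit (nat_lit 177) (nat_lit 34) (nat_lit 0xbf8c857f354afe0015fb958bf74f97f3552fe3215fc642bf8c0d7f190afe3215fc5cebf91ed7f1f42fe1425fcc0cbf8e557f4f32fe88a5fcdeebfa07d7f547afe88e)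 b18737 (.nil))) (.tok (nat_lit 43) (nat_lit 0xc000017ff1fb000005ff316bfe87580000300000600000bfff89800003000005fff8cc0021d80000300000600338c0000180000300000600000c00001800002ffd85) (.hit (nat_lit 178) (nat_lit 35) (nat_lit 0xbfa3217f249affb285fe550bfc1997e881afe87c5fe974bfa3a97f440aff0ed5fd0bcbf7fc57eae32fd5d95fb248bf62957ec06afdec75fb6e8bf722d7f922aff3a8) b18740 (.hit (nat_lit 179) (nat_lit 36) (nat_lit 0xc000017ff1fb000005ff316bfe87580000300000600000bfff89800003000005fff8cc0021d80000300000600338c0000180000300000600000c00001800002ffd85) b18741 (.nil))) (.tok (nat_lit 46) (nat_lit 0xbf9b79800002fef255fdd5abfbcfd7f47eafec9f5fddacbfc4a57f6f02fee095fd574bfac097f5d9afefd25ff238bfa7b17f80aaff13b5fddfabfb1d97faf32ff2a5) (.hit (nat_lit 180) (nat_lit 37) (nat_lit 0xbf9b79800002fef255fdd5abfbcfd7f47eafec9f5fddacbfc4a57f6f02fee095fd574bfac097f40e2fefd25ff238bfa7b17f80aaff13b5fd41ebfb1d97f9adaff2a5)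 b18738 (.hit (nat_lit 181) (nat_lit 38) (nat_lit 0xbf653d7f2f02fdcb85fc65ebf8c197f14bafe8ae5fd18ebfa31d7f45cafe8b15fcb8cbf8a357f5d9afed815fce72bf941d7f5c32fee475fddfabfb0397faf32ff20b) b18739 (.nil))) (.nil)))))) (.nil))
noncomputable def r20_222 : Rw Blk := .tok (nat_lit 3) (nat_lit 0x5e0000bc00017f1552fe8da) (.hit (nat_lit 61) (nat_lit 0) (nat_lit 0x5e0000bc00017e4dcafcf04) b18851 (.tok (nat_lit 14) (nat_lit 0x5e0000bc00017f1552fe8da) (.hit (nat_lit 82) (nat_lit 61) (nat_lit 0x5e0000bc00017ed442fd4ec) b18852 (.one (nat_lit 3) (nat_lit 83) (nat_lit 62) (nat_lit 0x5e0000bc00017e1702fc6b3) b18853 (.tok (nat_lit 6) (nat_lit 0x5e0000bc00017e3b5afcb3e) (.hit (nat_lit 86) (nat_lit 65) (nat_lit 0x5e0000bc00017e3482fca63) b18854 (.hit (nat_lit 87) (nat_lit 66) (nat_lit 0x5e0000bc00017e3b5afcb3e) b18855 (.nil))) (.tok (nat_lit 9) (nat_lit 0x5e0000bc00017f1552fe8da) (.hit (nat_lit 84)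 (nat_lit 63) (nat_lit 0x5e0000bc00017f1552fe8da) b18856 (.hit (nat_lit 85) (nat_lit 64) (nat_lit 0x5e0000bc00017e2ceafc970) b18857 (.nil))) (.nil))))) (.one (nat_lit 17) (nat_lit 88) (nat_lit 67) (nat_lit 0x5e0000bc00017df412fc255) b18858 (.tok (nat_lit 20) (nat_lit 0x5e0000bc00017e255afc87e) (.hit (nat_lit 89) (nat_lit 68) (nat_lit 0x5e0000bc00017e255afc87e) b18861 (.hit (nat_lit 90) (nat_lit 69) (nat_lit 0x5e0000bc00017de45afc05e) b18862 (.nil))) (.tok (nat_lit 23) (nat_lit 0x5e0000bc00017e5682fcea3) (.hit (nat_lit 91) (nat_lit 70) (nat_lit 0x5e0000bc00017e5682fcea3) b18859 (.hit (nat_lit 92) (nat_lit 71) (nat_lit 0x5e0000bc00017de55afc07e) b18860 (.nil))) (.one (nat_lit 26) (nat_lit 93) (nat_lit 72) (nat_lit 0x5e0000bc00017d5082fade3) b18863 (.one (nat_lit 29) (nat_lit 94) (nat_lit 73) (nat_lit 0x5e0000bc00017d64dafb06e) b18864 (.one (nat_lit 32) (nat_lit 95) (nat_lit 74) (nat_lit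 0x5e0000bc00017dae52fb99d) b18866 (.one (nat_lit 35) (nat_lit 96) (nat_lit 75) (nat_lit 0x5e0000bc00017d85e2fb48f) b18865 (.one (nat_lit 38) (nat_lit 97) (nat_lit 76) (nat_lit 0x5e0000bc00017ddd12fbf75) b18867 (.tok (nat_lit 41) (nat_lit 0x5e0000bc00017dceeafbdb0) (.hit (nat_lit 98) (nat_lit 77) (nat_lit 0x5e0000bc00017d1b0afa734) b18868 (.hit (nat_lit 99) (nat_lit 78) (nat_lit 0x5e0000bc00017dceeafbdb0) b18869 (.nil))) (.tok (nat_lit 44) (nat_lit 0x5e0000bc00017da052fb7dd) (.hit (nat_lit 100) (nat_lit 79) (nat_lit 0x5e0000bc00017d3baafab48) b18872 (.hit (nat_lit 101) (nat_lit 80) (nat_lit 0x5e0000bc00017da052fb7dd) b18873 (.nil))) (.tok (nat_lit 47) (nat_lit 0x5e0000bc00017da7bafb8ca) (.hit (nat_lit 102) (nat_lit 81) (nat_lit 0x5e0000bc00017d9feafb7d0) b18870 (.hit (nat_lit 103) (nat_lit 82) (nat_lit 0x5e0000bc00017da7bafb8ca) b18871 (.nil))) (.one (nat_lit 50) (nat_lit 104)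 (nat_lit 83) (nat_lit 0x5e0000bc00017de122fbff7) b18874 (.tok (nat_lit 53) (nat_lit 0x5e0000bc00017dfb7afc342) (.hit (nat_lit 105) (nat_lit 84) (nat_lit 0x5e0000bc00017dfb7afc342) b18875 (.hit (nat_lit 106) (nat_lit 85) (nat_lit 0x5e0000bc00017dc4bafbc6a) b18876 (.nil))) (.tok (nat_lit 56) (nat_lit 0x5e0000bc00017ed42afde89) (.hit (nat_lit 107) (nat_lit 86) (nat_lit 0x5e0000bc00017e9a0afdb4c) b18877 (.one (nat_lit 3) (nat_lit 111) (nat_lit 90) (nat_lit 0x5e0000bc00017e39f2fcb11) b18881 (.tok (nat_lit 6) (nat_lit 0x5e0000bc00017ed42afde89) (.hit (nat_lit 109) (nat_lit 88) (nat_lit 0x5e0000bc00017ed42afde89) b18879 (.hit (nat_lit 110) (nat_lit 89) (nat_lit 0x5e0000bc00017e3b92fcb45) b18880 (.nil))) (.one (nat_lit 9) (nat_lit 108) (nat_lit 87) (nat_lit 0x5e0000bc00017e522afce18) b18878 (.nil))))) (.one (nat_lit 59) (nat_lit 112) (nat_lit 91) (nat_lit 0x5e0000bc00017d3eaafaba8) b18882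 (.nil)))))))))))))))))) (.tok (nat_lit 40) (nat_lit 0x5e0000bc000181914b04115) (.hit (nat_lit 245) (nat_lit 0) (nat_lit 0x5e0000bc00018087fb00cc5) b18883 (.tok (nat_lit 6) (nat_lit 0x5e0000bc000181914b04115) (.hit (nat_lit 246) (nat_lit 7) (nat_lit 0x5e0000bc000181914b04115) b18886 (.hit (nat_lit 247) (nat_lit 15) (nat_lit 0x5e0000bc00017f4d42ff3ff) b18887 (.nil))) (.tok (nat_lit 9) (nat_lit 0x5e0000bc00017fe04aff175) (.hit (nat_lit 248) (nat_lit 20) (nat_lit 0x5e0000bc00017fe04aff175) b18884 (.hit (nat_lit 249) (nat_lit 28) (nat_lit 0x5e0000bc00017f5ab2fef3c) b18885 (.nil))) (.nil)))) (.tok (nat_lit 43) (nat_lit 0x5e0000bc00018159f302c87) (.hit (nat_lit 270) (nat_lit 0) (nat_lit 0x5e0000bc00017fc93b01332) b18893 (.tok (nat_lit 3) (nat_lit 0x5e0000bc00018159f302c87) (.hit (nat_lit 271) (nat_lit 1) (nat_lit 0x5e0000bc00017f58f2ff330) b18894 (.one (nat_lit 67) (nat_lit 272) (nat_lit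 2) (nat_lit 0x5e0000bc00018159f302c87) b18895 (.nil))) (.tok (nat_lit 6) (nat_lit 0x5e0000bc000180a34b01d66) (.hit (nat_lit 273) (nat_lit 7) (nat_lit 0x5e0000bc00017eaad2fdd8c) b18896 (.hit (nat_lit 276) (nat_lit 15) (nat_lit 0x5e0000bc00017f3962feb86) b18899 (.tok (nat_lit 55) (nat_lit 0x5e0000bc000180a34b01d66) (.hit (nat_lit 274) (nat_lit 8) (nat_lit 0x5e0000bc00017f535300461) b18897 (.hit (nat_lit 277) (nat_lit 16) (nat_lit 0x5e0000bc000180a34b01c4e) b18900 (.one (nat_lit 6) (nat_lit 275) (nat_lit 9) (nat_lit 0x5e0000bc000180640301d66) b18898 (.nil)))) (.nil)))) (.nil)))) (.tok (nat_lit 46) (nat_lit 0x5e0000bc00017ff72b00842) (.hit (nat_lit 256) (nat_lit 0) (nat_lit 0x5e0000bc00017ff72b00842) b18888 (.tok (nat_lit 3) (nat_lit 0x5e0000bc00017eee4aff104) (.hit (nat_lit 257) (nat_lit 1) (nat_lit 0x5e0000bc00017e2ec2fd913) b18889 (.one (nat_lit 55) (nat_lit 258) (nat_lit 3) (nat_lit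 0x5e0000bc00017eee4aff104) b18890 (.nil))) (.tok (nat_lit 9) (nat_lit 0x5e0000bc00017e6d12fe0dd) (.hit (nat_lit 259) (nat_lit 20) (nat_lit 0x5e0000bc00017e6d12fe0dd) b18891 (.hit (nat_lit 262) (nat_lit 28) (nat_lit 0x5e0000bc00017e439afdbae) b18892 (.nil))) (.nil)))) (.nil))))
noncomputable def r20_223 : Rw Blk := .tok (nat_lit 3) (nat_lit 0x2f00005e0000bf7d3d7f5f42fec65) (.hit (nat_lit 61) (nat_lit 0) (nat_lit 0x2f00005e0000bf1bd17ea642fd80d) b18901 (.tok (nat_lit 14) (nat_lit 0x2f00005e0000bf7d3d7f5f42fec65) (.hit (nat_lit 82) (nat_lit 61) (nat_lit 0x2f00005e0000bf61f57ec3aafe04f) b18902 (.one (nat_lit 3) (nat_lit 83) (nat_lit 62) (nat_lit 0x2f00005e0000bf2bb97e4d92fcc24) b18903 (.tok (nat_lit 6) (nat_lit 0x2f00005e0000bf5e897eb5b2fd789) (.hit (nat_lit 86) (nat_lit 65) (nat_lit 0x2f00005e0000bf5e897eb5b2fd789) b18904 (.hit (nat_lit 87) (nat_lit 66) (nat_lit 0x2f00005e0000bf13257e1c6afc5ff)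 b18905 (.nil))) (.tok (nat_lit 9) (nat_lit 0x2f00005e0000bf7d3d7f5f42fec65) (.hit (nat_lit 84) (nat_lit 63) (nat_lit 0x2f00005e0000bf7d3d7f5f42fec65) b18906 (.hit (nat_lit 85) (nat_lit 64) (nat_lit 0x2f00005e0000bf51d97e99d2fd5ac) b18907 (.nil))) (.nil))))) (.one (nat_lit 17) (nat_lit 88) (nat_lit 67) (nat_lit 0x2f00005e0000bf0f697e14f2fc510) b18908 (.tok (nat_lit 20) (nat_lit 0x2f00005e0000bef8c17de7a2fbf66) (.hit (nat_lit 89) (nat_lit 68) (nat_lit 0x2f00005e0000bef8c17de7a2fbf66) b18911 (.hit (nat_lit 90) (nat_lit 69) (nat_lit 0x2f00005e0000bed79d7da55afb71d) b18910 (.nil))) (.tok (nat_lit 23) (nat_lit 0x2f00005e0000bef4a97ddf72fbe60) (.hit (nat_lit 91) (nat_lit 70) (nat_lit 0x2f00005e0000bef4a97ddf72fbe60) b18909 (.hit (nat_lit 92) (nat_lit 71) (nat_lit 0x2f00005e0000bed79d7da55afb71d) b18910 (.nil))) (.one (nat_lit 26) (nat_lit 93) (nat_lit 72) (nat_lit 0x2f00005e0000bea9bd7d499afaba5)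 b18912 (.one (nat_lit 29) (nat_lit 94) (nat_lit 73) (nat_lit 0x2f00005e0000beacad7d4f7afac61) b18913 (.one (nat_lit 32) (nat_lit 95) (nat_lit 74) (nat_lit 0x2f00005e0000bec0617d76e2fb14e) b18915 (.one (nat_lit 35) (nat_lit 96) (nat_lit 75) (nat_lit 0x2f00005e0000be99817d2922fa796) b18914 (.one (nat_lit 38) (nat_lit 97) (nat_lit 76) (nat_lit 0x2f00005e0000bedc417daea2fb846) b18916 (.tok (nat_lit 41) (nat_lit 0x2f00005e0000befcf97df012fc074) (.hit (nat_lit 98) (nat_lit 77) (nat_lit 0x2f00005e0000be6ff97cd612f9d34) b18917 (.hit (nat_lit 99) (nat_lit 78) (nat_lit 0x2f00005e0000befcf97df012fc074) b18918 (.nil))) (.tok (nat_lit 44) (nat_lit 0x2f00005e0000bec2557d7acafb1cb) (.hit (nat_lit 100) (nat_lit 79) (nat_lit 0x2f00005e0000be977d7d251afa715) b18921 (.hit (nat_lit 101) (nat_lit 80) (nat_lit 0x2f00005e0000bec2557d7acafb1cb) b18922 (.nil))) (.tok (nat_lit 47) (nat_lit 0x2f00005e0000bedcc17dafa2fb866)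 (.hit (nat_lit 102) (nat_lit 81) (nat_lit 0x2f00005e0000bead857d512afac97) b18919 (.hit (nat_lit 103) (nat_lit 82) (nat_lit 0x2f00005e0000bedcc17dafa2fb866) b18920 (.nil))) (.one (nat_lit 50) (nat_lit 104) (nat_lit 83) (nat_lit 0x2f00005e0000bed2217d9a62fb5be) b18923 (.tok (nat_lit 53) (nat_lit 0x2f00005e0000bef88d7de73afbf59) (.hit (nat_lit 105) (nat_lit 84) (nat_lit 0x2f00005e0000bee0397db692fb944) b18924 (.hit (nat_lit 106) (nat_lit 85) (nat_lit 0x2f00005e0000bef88d7de73afbf59) b18925 (.nil))) (.tok (nat_lit 56) (nat_lit 0x2f00005e0000bf61c57f0d9afe5b1) (.hit (nat_lit 107) (nat_lit 86) (nat_lit 0x2f00005e0000bf59717ef902fe2e3) b18926 (.one (nat_lit 3) (nat_lit 111) (nat_lit 90) (nat_lit 0x2f00005e0000bf1c257e2e6afc83f) b18930 (.tok (nat_lit 6) (nat_lit 0x2f00005e0000bf61c57f0d9afe5b1) (.hit (nat_lit 109) (nat_lit 88) (nat_lit 0x2f00005e0000bf61c57f0d9afe5b1) b18928 (.hit (nat_lit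 110) (nat_lit 89) (nat_lit 0x2f00005e0000bef74d7de4bafbf09) b18929 (.nil))) (.one (nat_lit 9) (nat_lit 108) (nat_lit 87) (nat_lit 0x2f00005e0000bf1a997e2b52fc7dc) b18927 (.nil))))) (.one (nat_lit 59) (nat_lit 112) (nat_lit 91) (nat_lit 0x2f00005e0000be87a17d0562fa31e) b18931 (.nil)))))))))))))))))) (.tok (nat_lit 40) (nat_lit 0x2f00005e0000c008ed807fdb010ca) (.hit (nat_lit 245) (nat_lit 0) (nat_lit 0x2f00005e0000c008ed807fdb010ca) b18932 (.tok (nat_lit 6) (nat_lit 0x2f00005e0000bfeb51802a730074f) (.hit (nat_lit 246) (nat_lit 7) (nat_lit 0x2f00005e0000bfeb51802a730074f) b18935 (.hit (nat_lit 247) (nat_lit 15) (nat_lit 0x2f00005e0000bfb4057fd472ffbdc) b18936 (.nil))) (.tok (nat_lit 9) (nat_lit 0x2f00005e0000bfe60d801c5b00666) (.hit (nat_lit 248) (nat_lit 20) (nat_lit 0x2f00005e0000bfe60d801c5b00666) b18933 (.hit (nat_lit 249) (nat_lit 28) (nat_lit 0x2f00005e0000bfa7517fb1baff911)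 b18934 (.nil))) (.nil)))) (.tok (nat_lit 43) (nat_lit 0x2f00005e0000c04839810ffb024a1) (.hit (nat_lit 270) (nat_lit 0) (nat_lit 0x2f00005e0000bfbaf180533300a2c) b18942 (.tok (nat_lit 3) (nat_lit 0x2f00005e0000c04839810ffb024a1) (.hit (nat_lit 271) (nat_lit 1) (nat_lit 0x2f00005e0000bf8a497fafa2ff84c) b18943 (.one (nat_lit 67) (nat_lit 272) (nat_lit 2) (nat_lit 0x2f00005e0000c04839810ffb024a1) b18944 (.nil))) (.tok (nat_lit 6) (nat_lit 0x2f00005e0000c01eed80929b01279) (.hit (nat_lit 273) (nat_lit 7) (nat_lit 0x2f00005e0000bf7d517f9862fee62) b18945 (.hit (nat_lit 276) (nat_lit 15) (nat_lit 0x2f00005e0000bf7a297f94a2ff4de) b18948 (.tok (nat_lit 55) (nat_lit 0x2f00005e0000c01eed80929b01279) (.hit (nat_lit 274) (nat_lit 8) (nat_lit 0x2f00005e0000bfdcc9805aeb00c82) b18946 (.hit (nat_lit 277) (nat_lit 16) (nat_lit 0x2f00005e0000c0012d8065b30102e) b18949 (.one (nat_lit 6) (nat_lit 275)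 (nat_lit 9) (nat_lit 0x2f00005e0000c01eed80929b01279) b18947 (.nil)))) (.nil)))) (.nil)))) (.tok (nat_lit 46) (nat_lit 0x2f00005e0000c0022180852301296) (.hit (nat_lit 256) (nat_lit 0) (nat_lit 0x2f00005e0000bfeb2580586b008d3) b18937 (.tok (nat_lit 3) (nat_lit 0x2f00005e0000bfe5218024e300624) (.hit (nat_lit 257) (nat_lit 1) (nat_lit 0x2f00005e0000bf85097f7fa2ff2c5) b18938 (.one (nat_lit 55) (nat_lit 258) (nat_lit 3) (nat_lit 0x2f00005e0000bfe5218024e300624) b18939 (.nil))) (.tok (nat_lit 9) (nat_lit 0x2f00005e0000c0022180852301296) (.hit (nat_lit 259) (nat_lit 20) (nat_lit 0x2f00005e0000c0022180852301296) b18940 (.hit (nat_lit 262) (nat_lit 28) (nat_lit 0x2f00005e0000bfd30d80121b004cb) b18941 (.nil))) (.nil)))) (.nil))))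
noncomputable def r20_224 : Rw Blk := .tok (nat_lit 3) (nat_lit 0x1780002f00005fb718bef39d7e4a32fd13c5f9282bf4acd7dee52fd25e5fa516bf308d7ec0d2fdb7f) (.hit (nat_lit 61) (nat_lit 0) (nat_lit 0x1780002f00005f8536beafc97d8412fba515f6854bf00757d30b2fbed75f7ba8bed4257e4332fc8ba) b18752 (.tok (nat_lit 14) (nat_lit 0x1780002f00005fb718bef39d7e4a32fd13c5f9282bf4acd7dee52fd25e5fa516bf308d7ec0d2fdb7f) (.hit (nat_lit 82) (nat_lit 61) (nat_lit 0x1780002f00005fa6d4bee2657e2722fcd2d5f8a6cbf37017daecafcef05f9ce0bf11557eb9cafd960) b18753 (.one (nat_lit 3) (nat_lit 83) (nat_lit 62) (nat_lit 0x1780002f00005f7784bea8117d6a52fbeab5f5c4cbeea817d29b2fb80f5f6ffebebe8d7e1192fc229) b18754 (.tok (nat_lit 6) (nat_lit 0x1780002f00005fb718bef39d7e4a32fd13c5f9282bf4acd7dee52fd25e5fa516bf308d7ec0d2fdb7f) (.hit (nat_lit 86) (nat_lit 65) (nat_lit 0x1780002f00005fb718bef39d7e4a32fd13c5f9282bf4acd7dee52fd25e5fa516bf308d7ec0d2fdb7f)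 b18755 (.hit (nat_lit 87) (nat_lit 66) (nat_lit 0x1780002f00005f7cfebeb3057d803afc1685f61c6bef5757d3f9afbacc5f7578bec9817e277afc4e6) b18756 (.nil))) (.tok (nat_lit 9) (nat_lit 0x1780002f00005f809abeba3d7d8eaafc3365f6562befcad7d4e0afbc9a5f7914bed0b97e35eafc6b4) (.hit (nat_lit 84) (nat_lit 63) (nat_lit 0x1780002f00005f7ee4beb6d17d87d2fc25b5f63acbef9417d4732fbbbf5f775ebecd4d7e2f12fc5d9) b18757 (.hit (nat_lit 85) (nat_lit 64) (nat_lit 0x1780002f00005f809abeba3d7d8eaafc3365f6562befcad7d4e0afbc9a5f7914bed0b97e35eafc6b4) b18758 (.nil))) (.nil))))) (.one (nat_lit 17) (nat_lit 88) (nat_lit 67) (nat_lit 0x1780002f00005f6ec8be96997d4762fba4d5f5390bed9097d06c2fb3b15f6742bead157deea2fbdcb) b18759 (.tok (nat_lit 20) (nat_lit 0x1780002f00005f8764bec7d17da9d2fc69b5f6c2cbf0a417d6932fbfff5f7fdebede4d7e5112fca19) (.hit (nat_lit 89) (nat_lit 68) (nat_lit 0x1780002f00005f8764bec7d17da9d2fc69b5f6c2cbf0a417d6932fbfff5f7fdebede4d7e5112fca19)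 b18762 (.hit (nat_lit 90) (nat_lit 69) (nat_lit 0x1780002f00005f6b1abe8f3d7d38aafb8765f4fe2bed1ad7cf80afb1da5f6394bea5b97ddfeafbbf4) b18763 (.nil))) (.tok (nat_lit 23) (nat_lit 0x1780002f00005f7b1abeaf3d7d78aafc0765f5fe2bef1ad7d380afb9da5f7394bec5b97e1feafc3f4) (.hit (nat_lit 91) (nat_lit 70) (nat_lit 0x1780002f00005f7b1abeaf3d7d78aafc0765f5fe2bef1ad7d380afb9da5f7394bec5b97e1feafc3f4) b18760 (.hit (nat_lit 92) (nat_lit 71) (nat_lit 0x1780002f00005f6adabe8ebd7d37aafb8565f4fa2bed12d7cf70afb1ba5f6354bea5397ddeeafbbd4) b18761 (.nil))) (.one (nat_lit 26) (nat_lit 93) (nat_lit 72) (nat_lit 0x1780002f00005f45e4be44d17ca3d2fa5db5f2aacbe87417c6332f9f3f5f3e5ebe5b4d7d4b12fa959) b18764 (.one (nat_lit 29) (nat_lit 94) (nat_lit 73) (nat_lit 0x1780002f00005f4afabe4efd7cb82afa8665f2fc2be916d7c778afa1ca5f4374be65797d5f6afabe4) b18765 (.one (nat_lit 32) (nat_lit 95) (nat_lit 74) (nat_lit 0x1780002f00005f533cbe5f817cd932fac875f3804bea1f17c9892fa5eb5f4bb6be75fd7d8072fb005)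 b18767 (.one (nat_lit 35) (nat_lit 96) (nat_lit 75) (nat_lit 0x1780002f00005f5d58be73b97d01a2fb1955f4220beb6297cc102faaf95f55d2be8a357da8e2fb513) b18766 (.one (nat_lit 38) (nat_lit 97) (nat_lit 76) (nat_lit 0x1780002f00005f6908be8b197d3062fb76d5f4dd0becd897cefc2fb0d15f6182bea1957dd7a2fbaeb) b18768 (.tok (nat_lit 41) (nat_lit 0x1780002f00005f657ebe84057d223afb5a85f4a46bec6757ce19afaf0c5f5df8be9a817dc97afb926) (.hit (nat_lit 98) (nat_lit 77) (nat_lit 0x1780002f00005f3886be2a157c6e5af9f2c5f1d4ebe6c857c2dbaf98905f3100be40917d159afa2aa) b18769 (.hit (nat_lit 99) (nat_lit 78) (nat_lit 0x1780002f00005f657ebe84057d223afb5a85f4a46bec6757ce19afaf0c5f5df8be9a817dc97afb926) b18770 (.nil))) (.tok (nat_lit 44) (nat_lit 0x1780002f00005f5bb2be706d7cfb0afb0c25f407abeb2dd7cba6afaa265f542cbe86e97da24afb440) (.hit (nat_lit 100) (nat_lit 79) (nat_lit 0x1780002f00005f59bebe6c857cf33afafc85f3e86beaef57cb29afa92c5f5238be83017d9a7afb346)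 b18773 (.hit (nat_lit 101) (nat_lit 80) (nat_lit 0x1780002f00005f5bb2be706d7cfb0afb0c25f407abeb2dd7cba6afaa265f542cbe86e97da24afb440) b18774 (.nil))) (.tok (nat_lit 47) (nat_lit 0x1780002f00005f59d8be6cb97cf3a2fafd55f3ea0beaf297cb302fa9395f5252be83357d9ae2fb353) (.hit (nat_lit 102) (nat_lit 81) (nat_lit 0x1780002f00005f40aebe3a657c8efafa3405f2576be7cd57c4e5af9ca45f3928be50e17d363afa6be) b18771 (.hit (nat_lit 103) (nat_lit 82) (nat_lit 0x1780002f00005f59d8be6cb97cf3a2fafd55f3ea0beaf297cb302fa9395f5252be83357d9ae2fb353) b18772 (.nil))) (.one (nat_lit 62) (nat_lit 113) (nat_lit 92) (nat_lit 0x1780002f00005f6a0cbe8d217d3472fb7ef5f4ed4becf917cf3d2fb1535f6286bea39d7ddbb2fbb6d) b18775 (.tok (nat_lit 65) (nat_lit 0x1780002f00005f70a2be9a4d7d4ecafbb3a5f556abedcbd7d0e2afb49e5f691cbeb0c97df60afbeb8) (.hit (nat_lit 114) (nat_lit 93) (nat_lit 0x1780002f00005f70a2be9a4d7d4ecafbb3a5f556abedcbd7d0e2afb49e5f691cbeb0c97df60afbeb8)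 b18776 (.hit (nat_lit 115) (nat_lit 94) (nat_lit 0x1780002f00005f62f2be7eed7d180afb4625f47babec15d7cd76afadc65f5b6cbe95697dbf4afb7e0) b18777 (.nil))) (.tok (nat_lit 68) (nat_lit 0x1780002f00005fa6cebee7d57e16bafcf165f88e8bf210d7db012fc83a5f91d6bf04f57e7eaafd347) (.hit (nat_lit 116) (nat_lit 95) (nat_lit 0x1780002f00005f9846bebd257dd00afc74e5f72c0bf092d7d632afbe6c5f7d9abed9617e3bbafc969) b18778 (.one (nat_lit 3) (nat_lit 120) (nat_lit 99) (nat_lit 0x1780002f00005f8040beb9897d8d42fc3095f6508befbf97d4ca2fbc6d5f78babed0057e3482fc687) b18782 (.one (nat_lit 6) (nat_lit 117) (nat_lit 96) (nat_lit 0x1780002f00005f864ebec5a57da57afc6105f6b16bf08157d64dafbf745f7ec8bedc217e4cbafc98e) b18779 (.tok (nat_lit 9) (nat_lit 0x1780002f00005fa6cebee7d57e16bafcf165f88e8bf210d7db012fc83a5f91d6bf04f57e7eaafd347) (.hit (nat_lit 118) (nat_lit 97) (nat_lit 0x1780002f00005fa6cebee7d57e16bafcf165f88e8bf210d7db012fc83a5f91d6bf04f57e7eaafd347)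 b18780 (.hit (nat_lit 119) (nat_lit 98) (nat_lit 0x1780002f00005f80a8beba597d8ee2fc33d5f6570befcc97d4e42fbca15f7922bed0d57e3622fc6bb) b18781 (.nil))) (.nil))))) (.one (nat_lit 71) (nat_lit 121) (nat_lit 100) (nat_lit 0x1780002f00005f416ebe3be57c91fafa3a05f2636be7e557c515af9d045f39e8be52617d393afa71e) b18783 (.nil)))))))))))))))))) (.tok (nat_lit 40) (nat_lit 0x1780002f0000605616c064598156e302b446056e2c09c4980bebb02876607170c0ab59814ce30323c) (.hit (nat_lit 221) (nat_lit 0) (nat_lit 0x1780002f00006013c2c014797f891b001905fec50c0485d7f9afb0009e602544bff5118009eb0096f) b18784 (.tok (nat_lit 6) (nat_lit 0x1780002f00005fe9d6bf62e17eb9eaff63f5fce66bfc6597e6bd2fe42f5fe888bf87897f91baff24f) (.hit (nat_lit 222) (nat_lit 7) (nat_lit 0x1780002f00005fe9d6bf62e17eb9eaff63f5fce66bfc6597e6bd2fe42f5fe888bf87897f91baff24f) b18787 (.hit (nat_lit 223) (nat_lit 15) (nat_lit 0x1780002f00005fc870bf50857e87f2fe1765fb634bf91357e35eafe0d35fcd06bf56417f45b2fee57)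 b18788 (.nil))) (.tok (nat_lit 9) (nat_lit 0x1780002f0000605616c064598156e302b446056e2c09c4980bebb02876607170c0ab59814ce30323c) (.hit (nat_lit 224) (nat_lit 20) (nat_lit 0x1780002f0000605616c064598156e302b446056e2c09c4980bebb02876607170c0ab59814ce30323c) b18785 (.hit (nat_lit 225) (nat_lit 28) (nat_lit 0x1780002f00005fc514bf56797e92aafdc4b5faeb8bf89c57e6832fdb705fc54abf5cdd7f339afe896) b18786 (.nil))) (.nil)))) (.tok (nat_lit 43) (nat_lit 0x1780002f00005fef8ebf73157f9272ffe125fe560bfd6517ea802fe8e25fdcb2bf7fb97fb192ffec8) (.hit (nat_lit 232) (nat_lit 0) (nat_lit 0x1780002f00005fef8ebf73157f9272ffe125fe560bfd6517ea802fe8e25fdcb2bf7fb97fb192ffec8) b18789 (.tok (nat_lit 3) (nat_lit 0x1780002f00005fad56bf479d7e92c2fdc4e5fa72abf63817e684afdb735fc25ebf5ce97f0adafe43b) (.hit (nat_lit 233) (nat_lit 1) (nat_lit 0x1780002f00005f7d74bee7d97dd33afc45d5f7748bf03bd7da8c2fc3825f927cbefd257e4b52fcc4a)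 b18790 (.one (nat_lit 67) (nat_lit 234) (nat_lit 2) (nat_lit 0x1780002f00005fad56bf479d7e92c2fdc4e5fa72abf63817e684afdb735fc25ebf5ce97f0adafe43b) b18791 (.nil))) (.tok (nat_lit 6) (nat_lit 0x1780002f00005f8d08bf07017e118afcc275f86dcbf22e57de712fcb4c5fa210bf1c4d7e89a2fd414) (.hit (nat_lit 235) (nat_lit 7) (nat_lit 0x1780002f00005f8d08bf07017e118afcc275f86dcbf22e57de712fcb4c5fa210bf1c4d7e89a2fd414) b18792 (.hit (nat_lit 238) (nat_lit 15) (nat_lit 0x1780002f00005f82aabef2457de812fc6f85f7c7ebf0e297dbd9afc61d5f97b2bf07917e602afcee5) b18793 (.nil))) (.nil)))) (.tok (nat_lit 46) (nat_lit 0x1780002f0000604840c071e180c1d302749604b8ec08bdd809c7b02ea560644ec06d7d813d0b031d8) (.hit (nat_lit 246) (nat_lit 0) (nat_lit 0x1780002f00005fe412bfac697f02dafeebb5fec7ebff6f57efab2ffa085ffa80bf99c9800b6300667) b18794 (.tok (nat_lit 3) (nat_lit 0x1780002f0000604840c071e180c1d302749604b8ec08bdd809c7b02ea560644ec06d7d813d0b031d8)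 (.hit (nat_lit 247) (nat_lit 1) (nat_lit 0x1780002f00005fc800bf77cd7efaeafee9d5fcd96bfa4bd7ee562ff2eb5fe60ebf9fe17f7a2aff1bb) b18795 (.one (nat_lit 55) (nat_lit 248) (nat_lit 3) (nat_lit 0x1780002f0000604840c071e180c1d302749604b8ec08bdd809c7b02ea560644ec06d7d813d0b031d8) b18796 (.nil))) (.tok (nat_lit 9) (nat_lit 0x1780002f0000601a96c01e1180269b01ad760371ac061b97fba2b014a3602cd4c016e180ed1301ffc) (.hit (nat_lit 249) (nat_lit 20) (nat_lit 0x1780002f00005f9c78bf19e97e23eafdd565fbf1abf8e957dcc8afcb845fa756bf34117f38aafeb9d) b18797 (.hit (nat_lit 252) (nat_lit 28) (nat_lit 0x1780002f00005fc01cbf6b157ebc7afe43f5fc73cbf94dd7e6792fe8815fd3a2bf67517f5caafeffc) b18800 (.tok (nat_lit 67) (nat_lit 0x1780002f0000601a96c01e1180269b01ad760371ac061b97fba2b014a3602cd4c016e180ed1301ffc) (.hit (nat_lit 250) (nat_lit 21) (nat_lit 0x1780002f00005fc698bf62797eccc2ff1265fe4ccbfd5757e8f52fe45b5fce52bf90d17fdffb0024c)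 b18798 (.hit (nat_lit 253) (nat_lit 29) (nat_lit 0x1780002f0000601a96c01e1180269b01029602264c037897fba2b014a3602cd4c00c41808dbb01d1b) b18801 (.one (nat_lit 9) (nat_lit 251) (nat_lit 22) (nat_lit 0x1780002f0000600ac4c0071d8002ab01ad760371ac061b97f9b9b0060d601fc0c016e180ed1301ffc) b18799 (.nil)))) (.nil)))) (.nil)))) (.nil))))
noncomputable def r20_225 : Rw Blk := .tok (nat_lit 3) (nat_lit 0x2f00005e0000bf720d7f4622feb78) (.hit (nat_lit 61) (nat_lit 0) (nat_lit 0x2f00005e0000bf10a17ec3eafdab3) b18802 (.tok (nat_lit 14) (nat_lit 0x2f00005e0000bf720d7f4622feb78) (.hit (nat_lit 82) (nat_lit 61) (nat_lit 0x2f00005e0000bf56c57f2b72fe76b) b18803 (.one (nat_lit 3) (nat_lit 83) (nat_lit 62) (nat_lit 0x2f00005e0000bf20897ee1bafde34) b18804 (.tok (nat_lit 6) (nat_lit 0x2f00005e0000bf720d7f3122fe7bc) (.hit (nat_lit 86) (nat_lit 65) (nat_lit 0x2f00005e0000bf720d7f3122fe7b0) b18805 (.hit (nat_lit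 87) (nat_lit 66) (nat_lit 0x2f00005e0000bf46a97f2dfafe7bc) b18806 (.nil))) (.tok (nat_lit 9) (nat_lit 0x2f00005e0000bf53597f4622feb78) (.hit (nat_lit 84) (nat_lit 63) (nat_lit 0x2f00005e0000bf53597f4622feb78) b18807 (.hit (nat_lit 85) (nat_lit 64) (nat_lit 0x2f00005e0000bf07f57eb092fd80f) b18808 (.nil))) (.nil))))) (.one (nat_lit 17) (nat_lit 88) (nat_lit 67) (nat_lit 0x2f00005e0000bf04397ea91afd720) b18809 (.tok (nat_lit 20) (nat_lit 0x2f00005e0000bee9797e739afd070) (.hit (nat_lit 89) (nat_lit 68) (nat_lit 0x2f00005e0000bee9797e739afd070) b18812 (.hit (nat_lit 90) (nat_lit 69) (nat_lit 0x2f00005e0000becc6d7e3982fc92d) b18811 (.nil))) (.tok (nat_lit 23) (nat_lit 0x2f00005e0000beed917e7bcafd176) (.hit (nat_lit 91) (nat_lit 70) (nat_lit 0x2f00005e0000beed917e7bcafd176) b18810 (.hit (nat_lit 92) (nat_lit 71) (nat_lit 0x2f00005e0000becc6d7e3982fc92d) b18811 (.nil))) (.one (nat_lit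 26) (nat_lit 93) (nat_lit 72) (nat_lit 0x2f00005e0000be9e8d7dddc2fbdb5) b18813 (.one (nat_lit 29) (nat_lit 94) (nat_lit 73) (nat_lit 0x2f00005e0000bea17d7de3a2fbe71) b18814 (.one (nat_lit 32) (nat_lit 95) (nat_lit 74) (nat_lit 0x2f00005e0000be8e517dbd4afb9a6) b18816 (.one (nat_lit 35) (nat_lit 96) (nat_lit 75) (nat_lit 0x2f00005e0000beb5317e0b0afc35e) b18815 (.one (nat_lit 38) (nat_lit 97) (nat_lit 76) (nat_lit 0x2f00005e0000bed1117e42cafca56) b18817 (.tok (nat_lit 41) (nat_lit 0x2f00005e0000bef1c97e843afd284) (.hit (nat_lit 98) (nat_lit 77) (nat_lit 0x2f00005e0000be64c97d6a3afaf44) b18818 (.hit (nat_lit 99) (nat_lit 78) (nat_lit 0x2f00005e0000bef1c97e843afd284) b18819 (.nil))) (.tok (nat_lit 44) (nat_lit 0x2f00005e0000bed1917e43cafca76) (.hit (nat_lit 100) (nat_lit 79) (nat_lit 0x2f00005e0000bea2557de552fbea7) b18822 (.hit (nat_lit 101) (nat_lit 80) (nat_lit 0x2f00005e0000bed1917e43cafca76)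 b18823 (.nil))) (.tok (nat_lit 47) (nat_lit 0x2f00005e0000beb7257e0ef2fc3db) (.hit (nat_lit 102) (nat_lit 81) (nat_lit 0x2f00005e0000be8c4d7db942fb925) b18820 (.hit (nat_lit 103) (nat_lit 82) (nat_lit 0x2f00005e0000beb7257e0ef2fc3db) b18821 (.nil))) (.one (nat_lit 62) (nat_lit 113) (nat_lit 92) (nat_lit 0x2f00005e0000bec6f17e2e8afc7ce) b18824 (.tok (nat_lit 65) (nat_lit 0x2f00005e0000beed5d7e7b62fd169) (.hit (nat_lit 114) (nat_lit 93) (nat_lit 0x2f00005e0000bed5097e4abafcb54) b18825 (.hit (nat_lit 115) (nat_lit 94) (nat_lit 0x2f00005e0000beed5d7e7b62fd169) b18826 (.nil))) (.tok (nat_lit 68) (nat_lit 0x2f00005e0000bf56957efa72fe14b) (.hit (nat_lit 116) (nat_lit 95) (nat_lit 0x2f00005e0000bf4e417eef92fdff5) b18827 (.one (nat_lit 3) (nat_lit 120) (nat_lit 99) (nat_lit 0x2f00005e0000bf10f57ec292fda4f) b18831 (.one (nat_lit 6) (nat_lit 117) (nat_lit 96) (nat_lit 0x2f00005e0000bf0f697ebf7afd9ec)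 b18828 (.tok (nat_lit 9) (nat_lit 0x2f00005e0000bf56957efa72fe14b) (.hit (nat_lit 118) (nat_lit 97) (nat_lit 0x2f00005e0000bf56957efa72fe14b) b18829 (.hit (nat_lit 119) (nat_lit 98) (nat_lit 0x2f00005e0000beec1d7e78e2fd119) b18830 (.nil))) (.nil))))) (.one (nat_lit 71) (nat_lit 121) (nat_lit 100) (nat_lit 0x2f00005e0000be7c717d998afb52e) b18832 (.nil)))))))))))))))))) (.tok (nat_lit 40) (nat_lit 0x2f00005e0000bffdbd8095cb01270) (.hit (nat_lit 221) (nat_lit 0) (nat_lit 0x2f00005e0000bffdbd8095cb01270) b18833 (.tok (nat_lit 6) (nat_lit 0x2f00005e0000bfdadd80470b00862) (.hit (nat_lit 222) (nat_lit 7) (nat_lit 0x2f00005e0000bfdadd80470b00862) b18836 (.hit (nat_lit 223) (nat_lit 15) (nat_lit 0x2f00005e0000bf9c217fdf8affbd0) b18837 (.nil))) (.tok (nat_lit 9) (nat_lit 0x2f00005e0000bfe02180423b008d0) (.hit (nat_lit 224) (nat_lit 20) (nat_lit 0x2f00005e0000bfe02180423b008d0) b18834 (.hit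 (nat_lit 225) (nat_lit 28) (nat_lit 0x2f00005e0000bfa8d57fec3affd5d) b18835 (.nil))) (.nil)))) (.tok (nat_lit 43) (nat_lit 0x2f00005e0000bff6f180a6cb015c1) (.hit (nat_lit 232) (nat_lit 0) (nat_lit 0x2f00005e0000bfdff5808a23008b7) b18838 (.tok (nat_lit 3) (nat_lit 0x2f00005e0000bfd9f180a6cb015c1) (.hit (nat_lit 233) (nat_lit 1) (nat_lit 0x2f00005e0000bf79d97faeaaff6e9) b18839 (.one (nat_lit 67) (nat_lit 234) (nat_lit 2) (nat_lit 0x2f00005e0000bfd9f180a6cb015c1) b18840 (.nil))) (.tok (nat_lit 6) (nat_lit 0x2f00005e0000bff6f180a0cb01487) (.hit (nat_lit 235) (nat_lit 7) (nat_lit 0x2f00005e0000bff6f180a0cb01487) b18841 (.hit (nat_lit 238) (nat_lit 15) (nat_lit 0x2f00005e0000bfc7dd8029eb0064e) b18842 (.nil))) (.nil)))) (.tok (nat_lit 46) (nat_lit 0x2f00005e0000c03d09813343024fe) (.hit (nat_lit 246) (nat_lit 0) (nat_lit 0x2f00005e0000bfafc18013130030d) b18843 (.tok (nat_lit 3) (nat_lit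 0x2f00005e0000c03d09813343024fe) (.hit (nat_lit 247) (nat_lit 1) (nat_lit 0x2f00005e0000bf7f197fde8affc38) b18844 (.one (nat_lit 55) (nat_lit 248) (nat_lit 3) (nat_lit 0x2f00005e0000c03d09813343024fe) b18845 (.nil))) (.tok (nat_lit 9) (nat_lit 0x2f00005e0000c013bd80a77b01407) (.hit (nat_lit 249) (nat_lit 20) (nat_lit 0x2f00005e0000bf72217f8dcaff0e5) b18846 (.hit (nat_lit 252) (nat_lit 28) (nat_lit 0x2f00005e0000bf6ef97fc0caff88a) b18849 (.tok (nat_lit 67) (nat_lit 0x2f00005e0000c013bd80a77b01407) (.hit (nat_lit 250) (nat_lit 21) (nat_lit 0x2f00005e0000bfd19980575300b7f) b18847 (.hit (nat_lit 253) (nat_lit 29) (nat_lit 0x2f00005e0000bff5fd8076730138f) b18850 (.one (nat_lit 9) (nat_lit 251) (nat_lit 22) (nat_lit 0x2f00005e0000c013bd80a77b01407) b18848 (.nil)))) (.nil)))) (.nil)))) (.nil))))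
noncomputable def r20_226 : Rw Blk := .tok (nat_lit 3) (nat_lit 0xbf6f257e3482fdfc05fbd1abf7bc57e7682feed25fc70abf95d97f5d62fea9b5fcd64bfdb197f62e2fe4745fceeabfc1457f5e1aff20a5fdd7abfc7097f8e8aff46f) (.hit (nat_lit 0) (nat_lit 0) (nat_lit 0xbf6f257e3482fdfc05fbd1abf7bc57e7682feed25fc70abf95d97f5d62fea9b5fcd64bfdb197f62e2fe4745fceeabfc1457f5e1aff20a5fdd7abfc7097f8e8aff46f) b36006 (.tok (nat_lit 6) (nat_lit 0xbf3a757d7a6afdd295fa2b4bf46797d84cafc7d35fa33cbf0b7d7e2aeafd19e5f86c6bf77917ed41afd29b5fab4ebf79f97ea822fdb4b5fae2cbf6d397f2daafe852) (.hit (nat_lit 1) (nat_lit 7) (nat_lit 0xbf3a757d7a6afdd295fa2b4bf46797d84cafc7d35fa33cbf0b7d7e2aeafd19e5f86c6bf27d57e0d4afbeba5f83cebf25c97dc2eafca0d5f8436bf1bf17f2daafe852) b18953 (.hit (nat_lit 6) (nat_lit 15) (nat_lit 0xbf30b97d66f2fd5255f9dd6bf3cbd7d7152fc5645f9e5ebf01c17e1772fcf2f5f81e8bf77917ed41afd29b5fab4ebf79f97ea822fdb4b5fae2cbf6d397f1b52fe5f5)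 b18954 (.nil))) (.tok (nat_lit 9) (nat_lit 0xbf3a757d7a6afdd295fa2b4bf46797d84cafc7d35fa33cbf0b7d7e2aeafd19e5f86c6bfbb817f200afd71e5fb79cbfaed57ee79afe3505fd544bf9f557f1e22fe7c2) (.hit (nat_lit 10) (nat_lit 20) (nat_lit 0xbf3a757d7a6afdd295fa2b4bf46797d84cafc7d35fa33cbf0b7d7e2aeafd19e5f86c6bfbb817f200afd71e5fb79cbfaed57ee79afe3505fd544bf9f557f1e22fe7c2) b18951 (.hit (nat_lit 15) (nat_lit 28) (nat_lit 0xbf30b97d66f2fd5255f9dd6bf3cbd7d7152fc5645f9e5ebf01c17e1772fcf2f5f81e8bf6c8d7ed6a2fcea75faacabf7c157eadfafdc245fae92bf70357ef61afe524) b18952 (.nil))) (.nil)))) (.tok (nat_lit 6) (nat_lit 0xc0000180000300000600000c000017ef7daffb74600000c0000180000300000600000bfe5a57f88eafee2e5fe2b6bfe3997f4aa2ff9815fe31ebfd9c17f9cb2ffd13) (.hit (nat_lit 81) (nat_lit 0) (nat_lit 0xbfc8317eef52feb305fdeb2bfbbb57eab4aff7e05fd60cbfc1fd7fb1faff71b5fe7a4bfb3f57f72e2fe2605fd2d2bfc9957f4aa2ff10e5fd1d6bfc0297f85faff380)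 b18963 (.one (nat_lit 3) (nat_lit 82) (nat_lit 1) (nat_lit 0xbf5c257dd03afdbb25fa40cbf49957d447afe5fe5fb562bf72897f1b42fe1865fc2fabf51717e6082fc9215f989cbf4f657e07dafd4745f9904bf458d7ea6b2fe704) b18964 (.tok (nat_lit 6) (nat_lit 0xc0000180000300000600000c000017ef7daffb74600000c0000180000300000600000bfe5a57f88eafee2e5fe2b6bfe3997f35faff9815fe31ebfd9c17f9cb2ffd13) (.hit (nat_lit 87) (nat_lit 7) (nat_lit 0xbfabf97ec222fe8e95fc2b4bf89157dde5afebe75fbc48bfa1b17f4f02fe9045fd078bf54c17e6722fc9f55f9a44bf52b57e1c7afd5485f9aacbf48dd7e76c2fed43) b18965 (.hit (nat_lit 95) (nat_lit 15) (nat_lit 0xbf64fd7dcd0afd3dd5fa752bf50197d00bafe70b5fb00cbf79057f266afe37b5fc59ebf39dd7e315afc33c5f8cd2bf37d17dd8b2fce8f5f8d3abf2df97e8fbafe28f) b18969 (.tok (nat_lit 55) (nat_lit 0xc0000180000300000600000c000017ef7daffb74600000c0000180000300000600000bfe5a57f88eafee2e5fe2b6bfe3997f35faff9815fe31ebfd9c17f9cb2ffd13)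 (.hit (nat_lit 88) (nat_lit 8) (nat_lit 0xbffb117f3fa2ff0ef5ff1e8bfeee57e7ddaffb745fe180bfec497fd21aff4035ff8eebfa9017f0fa2fdf055fc464bfa6f57ebbfafea585fc4ccbf9d1d7f545aff8d7) b18966 (.hit (nat_lit 96) (nat_lit 16) (nat_lit 0xbfc75d7eb112fef375fdfecbfbeed7e7012ffa3d5fde0ebfdae17fe192ff6ef5fea80bfcc717f5682fe7e15fd61cbfca657efddaff3345fd684bfc08d7f821aff742) b18970 (.tok (nat_lit 6) (nat_lit 0xc0000180000300000600000c000017ef7daff823600000c0000180000300000600000bfe5a57f88eafee2e5fe2b6bfe3997f35faff9815fe31ebfd9c17f9cb2ffd13) (.hit (nat_lit 89) (nat_lit 9) (nat_lit 0xbfd0257f7e3aff2525fe558bfcac57e8d62ff38d5fe562bfc7597faf52ff2b15fefb6bfb2157f21cafe14a5fc8eebfb0097ecb82fec9d5fc956bfa6317f41aaff1f2) b18967 (.one (nat_lit 55) (nat_lit 90) (nat_lit 10) (nat_lit 0xc0000180000300000600000c000017ef7daff823600000c0000180000300000600000bfe5a57f88eafee2e5fe2b6bfe3997f35faff9815fe31ebfd9c17f9cb2ffd13)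 b18968 (.nil))) (.nil)))) (.nil)))) (.nil)))) (.tok (nat_lit 9) (nat_lit 0xc00001800003000005fff78c0000180009300000600000bff0b97ff6cb000005ff7c2c0000180000300712600c76c0000180000300000600000c0000180000300000) (.hit (nat_lit 157) (nat_lit 0) (nat_lit 0xbfc8317eef52feb305fd6e4bfbc797f3062ff8095fd2b0bfbbe97fac92ff8f45fea24bfd44d7f8a2aff6ad5fe93cbfd5517f8d02ff66b5fdd20bfdd117f87aaff3b5) b18955 (.one (nat_lit 3) (nat_lit 158) (nat_lit 1) (nat_lit 0xbf5c257dd03afdbb25f95d4bf2d397e9f9afe5fe5fb562bf72897f1b42fe2245fc2fabf98ed7f6522fed2b5fcea8bfc0ad7f2772feb1d5fc192bf9b9d7f2922fe7cb) b18956 (.tok (nat_lit 9) (nat_lit 0xc00001800003000005fff78c0000180009300000600000bff0b97ff6cb000005ff7c2c0000180000300712600c76c0000180000300000600000c0000180000300000) (.hit (nat_lit 163) (nat_lit 20) (nat_lit 0xbfabf97ec222fe8e95fb918bf73417ed8eafe64d5fb9a0bf73d17efb3aff0345fd898bf7f117f4ae2ff7975ff3d8bfcc857f7eaafea3f5fbb32bf8ee57f3ffafef7a)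 b18957 (.hit (nat_lit 171) (nat_lit 28) (nat_lit 0xbf64fd7dcd0afd3dd5f9916bf33bd7ea222fe79f5fb8a4bf790d7f284afe7075fc63cbf71897f4192fec6d5fc652bfb0157f0932fe6ef5fb3c8bf8c317f07bafe394) b18961 (.tok (nat_lit 67) (nat_lit 0xc00001800003000005fff78c0000180009300000600000bff0b97ff6cb000005ff7c2c0000180000300712600c76c0000180000300000600000c0000180000300000) (.hit (nat_lit 164) (nat_lit 21) (nat_lit 0xbffb117f3fa2ff0ef5fe77abfd0817f644aff8465fe180bfd7f57fca6aff8e45fe9a2bfda817fc3eb00712600c76c00001800002ffde95feb22bff4897fdb7300000) b18958 (.hit (nat_lit 172) (nat_lit 29) (nat_lit 0xbfc75d7eb112fef375fdd86bfbc1d7f490affc9c5fde0ebfd2697fd672ffad15fec3ebfcc71800003001f05feaaebff8457ff6d2ffe1e5febeabff6ed800002ffabd) b18962 (.tok (nat_lit 9) (nat_lit 0xc00001800003000005fff78c0000180009300000600000bff0b97ff6cb000005ff7c2c000017febf2ffdd95ff02abff0197fe0ab00000600000c000017ff0f2ffe14)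 (.hit (nat_lit 165) (nat_lit 22) (nat_lit 0xbfd0257f7e3aff2525fe4dabfcac57f9b8affb895fe562bfc8f97fa6d2ff75c5fe6c0bfe1f97fb312ff8035fe978bfe30d7fac32ffba35feaf4bfed017fad42ffb9f) b18959 (.one (nat_lit 67) (nat_lit 166) (nat_lit 23) (nat_lit 0xc00001800003000005fff78c0000180009300000600000bff0b97ff6cb000005ff7c2c000017febf2ffdd95ff02abff0197fe0ab00000600000c000017ff0f2ffe14) b18960 (.nil))) (.nil)))) (.nil)))) (.nil)))) (.nil)))
noncomputable def r20_227 : Rw Blk := .tok (nat_lit 6) (nat_lit 0x2f00005e0000c0000180000300000) (.hit (nat_lit 51) (nat_lit 0) (nat_lit 0x2f00005e0000bfdd0d7f9eeaff0ac) b18971 (.tok (nat_lit 3) (nat_lit 0x2f00005e0000bffb317f6dcaff1ea) (.hit (nat_lit 52) (nat_lit 1) (nat_lit 0x2f00005e0000bf732d7e6d1afcfd5) b18972 (.one (nat_lit 14) (nat_lit 53) (nat_lit 4) (nat_lit 0x2f00005e0000bffb317f6dcaff1ea) b18973 (.one (nat_lit 68) (nat_lit 54) (nat_lit 5) (nat_lit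 0x2f00005e0000bfbcf97f101afe0ac) b18974 (.nil)))) (.tok (nat_lit 40) (nat_lit 0x2f00005e0000bfd7797f5ae2feb95) (.hit (nat_lit 56) (nat_lit 33) (nat_lit 0x2f00005e0000bfd7797f5ae2feb95) b18975 (.hit (nat_lit 57) (nat_lit 34) (nat_lit 0x2f00005e0000bfcf617f119afdfc9) b18976 (.nil))) (.tok (nat_lit 43) (nat_lit 0x2f00005e0000c0000180000300000) (.hit (nat_lit 58) (nat_lit 35) (nat_lit 0x2f00005e0000c0000180000300000) b18979 (.hit (nat_lit 59) (nat_lit 36) (nat_lit 0x2f00005e0000bfdab97f600afe9e0) b18980 (.nil))) (.tok (nat_lit 46) (nat_lit 0x2f00005e0000bfef617f7d1afec16) (.hit (nat_lit 60) (nat_lit 37) (nat_lit 0x2f00005e0000bf95bd7ed9d2fd9e3) b18977 (.hit (nat_lit 61) (nat_lit 38) (nat_lit 0x2f00005e0000bfef617f7d1afec16) b18978 (.nil))) (.nil)))))) (.tok (nat_lit 9) (nat_lit 0x2f00005e0000c000017fc592ffb66) (.hit (nat_lit 0) (nat_lit 0) (nat_lit 0x2f00005e0000bfdd0d7f93b2fe9e9)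 b18981 (.tok (nat_lit 3) (nat_lit 0x2f00005e0000bffb317f6c2afed01) (.hit (nat_lit 1) (nat_lit 1) (nat_lit 0x2f00005e0000bf732d7e6e5afcfe8) b18982 (.one (nat_lit 14) (nat_lit 2) (nat_lit 4) (nat_lit 0x2f00005e0000bffb317f6c2afed01) b18983 (.one (nat_lit 56) (nat_lit 4) (nat_lit 6) (nat_lit 0x2f00005e0000bfbcf97f2b82fe6b0) b18984 (.nil)))) (.tok (nat_lit 40) (nat_lit 0x2f00005e0000bfd7797f393afeb5f) (.hit (nat_lit 5) (nat_lit 33) (nat_lit 0x2f00005e0000bfd7797f393afeb5f) b18985 (.hit (nat_lit 6) (nat_lit 34) (nat_lit 0x2f00005e0000bfcf617efe9afdf06) b18986 (.nil))) (.tok (nat_lit 43) (nat_lit 0x2f00005e0000bfef617f4ccafeb7d) (.hit (nat_lit 7) (nat_lit 35) (nat_lit 0x2f00005e0000bf95bd7ed9d2fd9e3) b18977 (.hit (nat_lit 8) (nat_lit 36) (nat_lit 0x2f00005e0000bfef617f4ccafeb7d) b18989 (.nil))) (.tok (nat_lit 46) (nat_lit 0x2f00005e0000c000017fc592ffb66) (.hit (nat_lit 9) (nat_lit 37)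 (nat_lit 0x2f00005e0000c000017fc592ffb66) b18987 (.hit (nat_lit 10) (nat_lit 38) (nat_lit 0x2f00005e0000bfdab97f5f6afe9ca) b18988 (.nil))) (.nil)))))) (.nil))
noncomputable def r20_228 : Rw Blk := .tok (nat_lit 3) (nat_lit 0x5e0000bc00017ea9f2fdf6e) (.hit (nat_lit 61) (nat_lit 0) (nat_lit 0x5e0000bc00017e9042fd003) b19070 (.tok (nat_lit 9) (nat_lit 0x5e0000bc00017ea9f2fdf6e) (.hit (nat_lit 62) (nat_lit 20) (nat_lit 0x5e0000bc00017dddb2fc5e6) b19071 (.hit (nat_lit 67) (nat_lit 28) (nat_lit 0x5e0000bc00017d6ca2fb7c4) b19076 (.tok (nat_lit 14) (nat_lit 0x5e0000bc00017e6de2fd7ec) (.hit (nat_lit 63) (nat_lit 24) (nat_lit 0x5e0000bc00017dee4afc7f9) b19072 (.hit (nat_lit 68) (nat_lit 30) (nat_lit 0x5e0000bc00017e0d5afcbdb) b19077 (.one (nat_lit 6) (nat_lit 64) (nat_lit 25) (nat_lit 0x5e0000bc00017e6de2fd7ec) b19073 (.nil)))) (.one (nat_lit 56) (nat_lit 69) (nat_lit 31) (nat_lit 0x5e0000bc00017e0092fca42)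 b19078 (.tok (nat_lit 68) (nat_lit 0x5e0000bc00017ea9f2fdf6e) (.hit (nat_lit 65) (nat_lit 26) (nat_lit 0x5e0000bc00017e6982fd760) b19074 (.hit (nat_lit 70) (nat_lit 32) (nat_lit 0x5e0000bc00017df492fc8c2) b19079 (.one (nat_lit 9) (nat_lit 66) (nat_lit 27) (nat_lit 0x5e0000bc00017ea9f2fdf6e) b19075 (.nil)))) (.nil)))))) (.nil))) (.tok (nat_lit 6) (nat_lit 0x5e0000bc000180000300000) (.hit (nat_lit 0) (nat_lit 0) (nat_lit 0x5e0000bc00017f57fafea74) b19050 (.tok (nat_lit 6) (nat_lit 0x5e0000bc00017ffdeaffe69) (.hit (nat_lit 1) (nat_lit 7) (nat_lit 0x5e0000bc00017ec43afcefa) b19051 (.hit (nat_lit 6) (nat_lit 15) (nat_lit 0x5e0000bc00017e3052fb7d9) b19056 (.tok (nat_lit 14) (nat_lit 0x5e0000bc00017fc0baff140) (.hit (nat_lit 2) (nat_lit 11) (nat_lit 0x5e0000bc00017fc0bafeeb8) b19052 (.hit (nat_lit 7) (nat_lit 17) (nat_lit 0x5e0000bc00017f32e2fd35c) b19057 (.one (nat_lit 9) (nat_lit 3)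 (nat_lit 12) (nat_lit 0x5e0000bc00017fb662ff140) b19053 (.nil)))) (.tok (nat_lit 56) (nat_lit 0x5e0000bc00017ffdeaffe69) (.hit (nat_lit 4) (nat_lit 13) (nat_lit 0x5e0000bc00017f7ccafe6ee) b19054 (.hit (nat_lit 9) (nat_lit 19) (nat_lit 0x5e0000bc00017eb10afd761) b19058 (.one (nat_lit 6) (nat_lit 5) (nat_lit 14) (nat_lit 0x5e0000bc00017ffdeaffe69) b19055 (.nil)))) (.nil))))) (.tok (nat_lit 52) (nat_lit 0x5e0000bc00017f5552fe19f) (.hit (nat_lit 10) (nat_lit 39) (nat_lit 0x5e0000bc00017eebbafe19f) b19059 (.hit (nat_lit 11) (nat_lit 40) (nat_lit 0x5e0000bc00017f5552fda8f) b19060 (.nil))) (.tok (nat_lit 55) (nat_lit 0x5e0000bc000180000300000) (.hit (nat_lit 12) (nat_lit 41) (nat_lit 0x5e0000bc00017fc42b00000) b19061 (.tok (nat_lit 3) (nat_lit 0x5e0000bc0001800002ff6f6) (.hit (nat_lit 18) (nat_lit 47) (nat_lit 0x5e0000bc00017f646afe57a) b19067 (.one (nat_lit 67) (nat_lit 19) (nat_lit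 48) (nat_lit 0x5e0000bc0001800002ff6f6) b19068 (.nil))) (.tok (nat_lit 6) (nat_lit 0x5e0000bc00017fe40affcb4) (.hit (nat_lit 13) (nat_lit 42) (nat_lit 0x5e0000bc00017f0792fe563) b19062 (.hit (nat_lit 16) (nat_lit 45) (nat_lit 0x5e0000bc00017f6742fe1b9) b19065 (.tok (nat_lit 55) (nat_lit 0x5e0000bc00017fe40affcb4) (.hit (nat_lit 14) (nat_lit 43) (nat_lit 0x5e0000bc00017fb5eaffcb4) b19063 (.hit (nat_lit 17) (nat_lit 46) (nat_lit 0x5e0000bc00017fe40afefd2) b19066 (.one (nat_lit 6) (nat_lit 15) (nat_lit 44) (nat_lit 0x5e0000bc00017fbb52ff8e6) b19064 (.nil)))) (.nil)))) (.nil)))) (.one (nat_lit 58) (nat_lit 20) (nat_lit 49) (nat_lit 0x5e0000bc00017f66b2fe674) b19069 (.nil)))))) (.nil))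
noncomputable def r20_229 : Rw Blk := .tok (nat_lit 3) (nat_lit 0x2f00005e0000bf111d7edcb2fe0d1) (.hit (nat_lit 61) (nat_lit 0) (nat_lit 0x2f00005e0000befc657ec6a2fda93) b19100 (.tok (nat_lit 9) (nat_lit 0x2f00005e0000bf111d7edcb2fe0d1) (.hit (nat_lit 62) (nat_lit 20) (nat_lit 0x2f00005e0000be90a97ddbcafc0b4) b19101 (.hit (nat_lit 67) (nat_lit 28) (nat_lit 0x2f00005e0000be9e657df742fc423) b19106 (.tok (nat_lit 14) (nat_lit 0x2f00005e0000bf111d7edcb2fe0d1) (.hit (nat_lit 63) (nat_lit 24) (nat_lit 0x2f00005e0000bee6e17e883afd642) b19102 (.hit (nat_lit 68) (nat_lit 30) (nat_lit 0x2f00005e0000bedaa57e6fc2fd333) b19107 (.one (nat_lit 6) (nat_lit 64) (nat_lit 25) (nat_lit 0x2f00005e0000bf111d7edcb2fe0d1) b19103 (.nil)))) (.one (nat_lit 56) (nat_lit 69) (nat_lit 31) (nat_lit 0x2f00005e0000bef73d7ea8f2fda59) b19108 (.tok (nat_lit 68) (nat_lit 0x2f00005e0000befdf57eb662fdc07) (.hit (nat_lit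 65) (nat_lit 26) (nat_lit 0x2f00005e0000beeff17e9a5afd886) b19104 (.hit (nat_lit 70) (nat_lit 32) (nat_lit 0x2f00005e0000bedf297e78cafd454) b19109 (.one (nat_lit 9) (nat_lit 66) (nat_lit 27) (nat_lit 0x2f00005e0000befdf57eb662fdc07) b19105 (.nil)))) (.nil)))))) (.nil))) (.tok (nat_lit 6) (nat_lit 0x2f00005e0000c014e180980b01425) (.hit (nat_lit 0) (nat_lit 0) (nat_lit 0x2f00005e0000bf33417f0b5afe01c) b19080 (.tok (nat_lit 6) (nat_lit 0x2f00005e0000bf68f57f4d8aff17d) (.hit (nat_lit 1) (nat_lit 7) (nat_lit 0x2f00005e0000bf03e97e441afcce5) b19081 (.hit (nat_lit 6) (nat_lit 15) (nat_lit 0x2f00005e0000bece857e1eeafc4c0) b19086 (.tok (nat_lit 14) (nat_lit 0x2f00005e0000bf68f57f4d8aff17d) (.hit (nat_lit 2) (nat_lit 11) (nat_lit 0x2f00005e0000bf46cd7f0882fe3e4) b19082 (.hit (nat_lit 7) (nat_lit 17) (nat_lit 0x2f00005e0000bf68f57ef172fdd6c) b19087 (.one (nat_lit 9) (nat_lit 3) (nat_lit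 12) (nat_lit 0x2f00005e0000bf43ed7f4d8aff17d) b19083 (.nil)))) (.tok (nat_lit 56) (nat_lit 0x2f00005e0000bf44b97f1bbafe4cd) (.hit (nat_lit 4) (nat_lit 13) (nat_lit 0x2f00005e0000bf41657efbb2fe38d) b19084 (.hit (nat_lit 9) (nat_lit 19) (nat_lit 0x2f00005e0000bf40bd7eced2fd489) b19088 (.one (nat_lit 6) (nat_lit 5) (nat_lit 14) (nat_lit 0x2f00005e0000bf44b97f1bbafe4cd) b19085 (.nil)))) (.nil))))) (.tok (nat_lit 52) (nat_lit 0x2f00005e0000bf5b397f36d2fe24f) (.hit (nat_lit 10) (nat_lit 39) (nat_lit 0x2f00005e0000bf1aed7f36d2fe17f) b19089 (.hit (nat_lit 11) (nat_lit 40) (nat_lit 0x2f00005e0000bf5b397ee8a2fe24f) b19090 (.nil))) (.tok (nat_lit 55) (nat_lit 0x2f00005e0000c014e180980b01425) (.hit (nat_lit 12) (nat_lit 41) (nat_lit 0x2f00005e0000bf71417fba4aff727) b19091 (.tok (nat_lit 3) (nat_lit 0x2f00005e0000bf85757f9afaff626) (.hit (nat_lit 18) (nat_lit 47) (nat_lit 0x2f00005e0000bf3a897f1902fe624)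 b19097 (.one (nat_lit 67) (nat_lit 19) (nat_lit 48) (nat_lit 0x2f00005e0000bf85757f9afaff626) b19098 (.nil))) (.tok (nat_lit 6) (nat_lit 0x2f00005e0000c014e180980b01425) (.hit (nat_lit 13) (nat_lit 42) (nat_lit 0x2f00005e0000bf86c97f8ecaff1f5) b19092 (.hit (nat_lit 16) (nat_lit 45) (nat_lit 0x2f00005e0000bf76cd7f2ac2fe4e3) b19095 (.tok (nat_lit 55) (nat_lit 0x2f00005e0000c014e180980b01425) (.hit (nat_lit 14) (nat_lit 43) (nat_lit 0x2f00005e0000bff8a980980b01425) b19093 (.hit (nat_lit 17) (nat_lit 46) (nat_lit 0x2f00005e0000bf67257f7e2aff0ab) b19096 (.one (nat_lit 6) (nat_lit 15) (nat_lit 44) (nat_lit 0x2f00005e0000c014e1805e13009f5) b19094 (.nil)))) (.nil)))) (.nil)))) (.one (nat_lit 58) (nat_lit 20) (nat_lit 49) (nat_lit 0x2f00005e0000bf54717f2dbafe51e) b19099 (.nil)))))) (.nil))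
noncomputable def r20_230 : Rw Blk := .tok (nat_lit 3) (nat_lit 0x1780002f00005faa7cbf30317e64eafdbfd5fac10bf6e697e9042fc46a5f9ac0bf3e457ed0c2fd135) (.hit (nat_lit 61) (nat_lit 0) (nat_lit 0x1780002f00005fa410bf30317e4d6afd56d5fa488bf4b717e3822fc1f55f9ac0bf1fc17e7d62fc952) b19010 (.tok (nat_lit 6) (nat_lit 0x1780002f00005faa7cbf2c157e64eafdbfd5fac10bf6e697e9042fc46a5f9a60bf3e457ed0c2fd135) (.hit (nat_lit 62) (nat_lit 7) (nat_lit 0x1780002f00005f776cbec5f57d98aafc2755f7900bf08497dc402faae25f6750bed8257e0482fb7ad) b19011 (.hit (nat_lit 67) (nat_lit 15) (nat_lit 0x1780002f00005f5b28be8d6d7d279afb4535f5cbcbecfc17d52f2f9cc05f4b0cbe9f9d7d9372fa98b) b19016 (.tok (nat_lit 14) (nat_lit 0x1780002f00005f9b78bf0e0d7e28dafd47b5f9d0cbf50617e5432fbce85f8b5cbf203d7e94b2fc9b3) (.hit (nat_lit 63) (nat_lit 11) (nat_lit 0x1780002f00005f7b92bece417da942fc4885f7d26bf10957dd49afacf55f6b76bee0717e151afb9c0)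 b19012 (.hit (nat_lit 68) (nat_lit 17) (nat_lit 0x1780002f00005f8356beddc97dc852fc86a5f84eabf201d7df3aafb0d75f733abeeff97e342afbda2) b19017 (.one (nat_lit 9) (nat_lit 64) (nat_lit 12) (nat_lit 0x1780002f00005f9b78bf0e0d7e28dafd47b5f9d0cbf50617e5432fbce85f8b5cbf203d7e94b2fc9b3) b19013 (.nil)))) (.tok (nat_lit 56) (nat_lit 0x1780002f00005faa7cbf2c157e64eafdbfd5fac10bf6e697e9042fc46a5f9a60bf3e457ed0c2fd135) (.hit (nat_lit 65) (nat_lit 13) (nat_lit 0x1780002f00005f9a60bf0bdd7e247afd3ef5f9bf4bf4e317e4fd2fbc5c5f8a44bf1e0d7e9052fc927) b19014 (.hit (nat_lit 70) (nat_lit 19) (nat_lit 0x1780002f00005f7d24bed1657daf8afc5515f7eb8bf13b97ddae2fadbe5f6d08bee3957e1b62fba89) b19019 (.one (nat_lit 6) (nat_lit 66) (nat_lit 14) (nat_lit 0x1780002f00005faa7cbf2c157e64eafdbfd5fac10bf6e697e9042fc46a5f9a60bf3e457ed0c2fd135) b19015 (.nil)))) (.one (nat_lit 68) (nat_lit 69) (nat_lit 18) (nat_lit 0x1780002f00005f8024bed7657dbb8afc6d15f81b8bf19b97de6e2faf3e5f7008bee9957e2762fbc09)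 b19018 (.nil)))))) (.nil))) (.tok (nat_lit 9) (nat_lit 0x1780002f0000600000c000018000030032c6005eec00001802e1b00000600000c0051580000300000) (.hit (nat_lit 0) (nat_lit 0) (nat_lit 0x1780002f00005fd5febf6cf97ef862fe76c5fdf08bfb9e57efda2fd68e5fc070bf70997f4f8afe0c4) b18990 (.tok (nat_lit 9) (nat_lit 0x1780002f00005fff7ac000017f7e02ff1c16005eebfd319801aab000005feb8ac0051580000300000) (.hit (nat_lit 1) (nat_lit 20) (nat_lit 0x1780002f00005fb10ebf47417e75f2fd1415fb132bf3abd7eb09afd1865faf84bf46957e9042fd3af) b18991 (.hit (nat_lit 6) (nat_lit 28) (nat_lit 0x1780002f00005f8c14becef97dd09afbb9e5f7d9cbf1c457dd7e2fb44e5f770ebee6157e388afb0d5) b18996 (.tok (nat_lit 14) (nat_lit 0x1780002f00005ff02ebfea857f3c1aff1c15fe5f2bfbc81800b2b000005fdd24bfa6217fdc22ff7dc) (.hit (nat_lit 2) (nat_lit 24) (nat_lit 0x1780002f00005ff02ebfea857f3482ff1c15fe5f2bfb781800b2b000005fdce8bfa6217fdc22ff7dc) b18992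 (.hit (nat_lit 7) (nat_lit 30) (nat_lit 0x1780002f00005fccb8bf4e297eba2afd71a5fb388bf89717e896afc9545faa60bf38717edd5afd153) b18997 (.one (nat_lit 6) (nat_lit 3) (nat_lit 25) (nat_lit 0x1780002f00005fed98bfd1d97f3c1aff0f95fd404bfbc81800902fe39d5fdd24bf8e9d7fb53afef22) b18993 (.nil)))) (.tok (nat_lit 68) (nat_lit 0x1780002f00005fff7ac000017f7e02feede6005eebfd319801aaaff89f5feb8ac0051580000300000) (.hit (nat_lit 4) (nat_lit 26) (nat_lit 0x1780002f00005fdf32bf6b217ee4a2fdf3c5fdcd0bf96a97f2a5afe5b65fbdcebf875d7f57baff1ba) b18994 (.hit (nat_lit 9) (nat_lit 32) (nat_lit 0x1780002f00005fac42bf13c97e68f2fd09f5fab60bf7be97e703afc62e5fa522bf2bf17ec42afce2e) b18998 (.one (nat_lit 9) (nat_lit 5) (nat_lit 27) (nat_lit 0x1780002f00005fff7ac000017f7e02feede6005eebfd319801aaaff89f5feb8ac0051580000300000) b18995 (.nil)))) (.nil))))) (.tok (nat_lit 64) (nat_lit 0x1780002f00005fd554bf98cd7f6642ff21f5fd8f4bfb04d7f61dafdbae5fcd8cbf7c557f42cafdfcb)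 (.hit (nat_lit 10) (nat_lit 50) (nat_lit 0x1780002f00005fbaeebf86117f3d82ff21f5fd8f4bf94cd7f61dafda9b5fb008bf78c97f3142fdb67) b18999 (.hit (nat_lit 11) (nat_lit 51) (nat_lit 0x1780002f00005fd554bf98cd7f6642fe4b75fd8bcbfb04d7efec2fdbae5fcd8cbf7c557f42cafdfcb) b19000 (.nil))) (.tok (nat_lit 67) (nat_lit 0x1780002f0000600000bff51d8000030032c6001a0c00001802e1afefc1600000bfe1797fde8aff975) (.hit (nat_lit 12) (nat_lit 52) (nat_lit 0x1780002f00005ff10abff51d7f8292ff79c5ff058bfdd857fd90afecd45ff00ebfc1797f801afefb0) b19001 (.tok (nat_lit 3) (nat_lit 0x1780002f0000600000bfedbd8000030032c6001a0bfeee5802e1afefc15ffd5ebfe1797fde8aff314) (.hit (nat_lit 18) (nat_lit 58) (nat_lit 0x1780002f00005fd91abfc48d7f6e4afee0a5fde0ebfbbb97fb1aafe1415fe9babfa7b57f6862fe690) b19007 (.one (nat_lit 55) (nat_lit 19) (nat_lit 59) (nat_lit 0x1780002f0000600000bfedbd8000030032c6001a0bfeee5802e1afefc15ffd5ebfe1797fde8aff314)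 b19008 (.nil))) (.tok (nat_lit 9) (nat_lit 0x1780002f00005ff902bfba697faef2ffba85ff950c000017feb42fe405600000bfdb817fdd92ff975) (.hit (nat_lit 13) (nat_lit 53) (nat_lit 0x1780002f00005fc1e4bf5f917ecbdafe4435fc2c2bf97897ec03afcced5fa61abf778d7efa0afdee1) b19002 (.hit (nat_lit 16) (nat_lit 56) (nat_lit 0x1780002f00005fd9d0bf949d7f16aafe9a65fc66cbf98617f5132fdc135fd7a2bfac497f3a52fe494) b19005 (.tok (nat_lit 67) (nat_lit 0x1780002f00005ff902bfba697faef2ffba85ff950c000017feb42fe405600000bfdb817fdd92ff975) (.hit (nat_lit 14) (nat_lit 54) (nat_lit 0x1780002f00005fed7abf84957f672aff47c5fe52cbfd86d7f4302fd60f5fbf2abfc30d7f76e2fef61) b19003 (.hit (nat_lit 17) (nat_lit 57) (nat_lit 0x1780002f00005ff902bfb9617f7aa2ff5605fdde0bfb9997feb42fe405600000bfdb817fd14aff368) b19006 (.one (nat_lit 9) (nat_lit 15) (nat_lit 55) (nat_lit 0x1780002f00005feed4bfba697faef2ffba85ff950c000017f823afe33a5fd7ecbfd5297fdd92ff975)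 b19004 (.nil)))) (.nil)))) (.nil)))) (.one (nat_lit 70) (nat_lit 20) (nat_lit 60) (nat_lit 0x1780002f00005fd9acbfaa617f6172fe7505fe690bfbb197f01fafdd325fd5c6bf87e97f55eafe750) b19009 (.nil)))))) (.nil))
noncomputable def r20_231 : Rw Blk := .tok (nat_lit 3) (nat_lit 0x2f00005e0000befc3d7ebd72fd654) (.hit (nat_lit 61) (nat_lit 0) (nat_lit 0x2f00005e0000bee7857e9832fd20c) b19040 (.tok (nat_lit 6) (nat_lit 0x2f00005e0000befc3d7ebd72fd654) (.hit (nat_lit 62) (nat_lit 7) (nat_lit 0x2f00005e0000be7bc97dbc8afb637) b19041 (.hit (nat_lit 67) (nat_lit 15) (nat_lit 0x2f00005e0000be89857dd802fb9a6) b19046 (.tok (nat_lit 14) (nat_lit 0x2f00005e0000befc3d7ebd72fd654) (.hit (nat_lit 63) (nat_lit 11) (nat_lit 0x2f00005e0000bed2017e68fafcbc5) b19042 (.hit (nat_lit 68) (nat_lit 17) (nat_lit 0x2f00005e0000bec5c57e5082fc8b6) b19047 (.one (nat_lit 9) (nat_lit 64) (nat_lit 12) (nat_lit 0x2f00005e0000befc3d7ebd72fd654)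 b19043 (.nil)))) (.tok (nat_lit 56) (nat_lit 0x2f00005e0000bee9157e9722fd18a) (.hit (nat_lit 65) (nat_lit 13) (nat_lit 0x2f00005e0000bedb117e7b1afce09) b19044 (.hit (nat_lit 70) (nat_lit 19) (nat_lit 0x2f00005e0000beca497e598afc9d7) b19049 (.one (nat_lit 6) (nat_lit 66) (nat_lit 14) (nat_lit 0x2f00005e0000bee9157e9722fd18a) b19045 (.nil)))) (.one (nat_lit 68) (nat_lit 69) (nat_lit 18) (nat_lit 0x2f00005e0000bee25d7e89b2fcfdc) b19048 (.nil)))))) (.nil))) (.tok (nat_lit 9) (nat_lit 0x2f00005e0000c0000180cc0b01932) (.hit (nat_lit 0) (nat_lit 0) (nat_lit 0x2f00005e0000bf1e617f12b2fd2be) b19020 (.tok (nat_lit 9) (nat_lit 0x2f00005e0000bf54157f0c92fe155) (.hit (nat_lit 1) (nat_lit 20) (nat_lit 0x2f00005e0000beef097e34cafc268) b19021 (.hit (nat_lit 6) (nat_lit 28) (nat_lit 0x2f00005e0000beb9a57e0fb2fbc24) b19026 (.tok (nat_lit 14) (nat_lit 0x2f00005e0000bf54157f0c92fe155) (.hit (nat_lit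 2) (nat_lit 24) (nat_lit 0x2f00005e0000bf31ed7ee2a2fdaba) b19022 (.hit (nat_lit 7) (nat_lit 30) (nat_lit 0x2f00005e0000bf54157f0c92fd58c) b19027 (.one (nat_lit 6) (nat_lit 3) (nat_lit 25) (nat_lit 0x2f00005e0000bf2f0d7f02eafe155) b19023 (.nil)))) (.tok (nat_lit 68) (nat_lit 0x2f00005e0000bf2fd97ee8c2fda50) (.hit (nat_lit 4) (nat_lit 26) (nat_lit 0x2f00005e0000bf2c857ed352fd910) b19024 (.hit (nat_lit 9) (nat_lit 32) (nat_lit 0x2f00005e0000bf2bdd7ebf9afcbed) b19028 (.one (nat_lit 9) (nat_lit 5) (nat_lit 27) (nat_lit 0x2f00005e0000bf2fd97ee8c2fda50) b19025 (.nil)))) (.nil))))) (.tok (nat_lit 64) (nat_lit 0x2f00005e0000bf46597f26e2fd8d6) (.hit (nat_lit 10) (nat_lit 50) (nat_lit 0x2f00005e0000bf060d7f26e2fd8d6) b19029 (.hit (nat_lit 11) (nat_lit 51) (nat_lit 0x2f00005e0000bf46597ecbd2fd7d2) b19030 (.nil))) (.tok (nat_lit 67) (nat_lit 0x2f00005e0000c0000180cc0b01932) (.hit (nat_lit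 12) (nat_lit 52) (nat_lit 0x2f00005e0000bf5c617f6cc2fe86f) b19031 (.tok (nat_lit 3) (nat_lit 0x2f00005e0000bf70957f58a2fe663) (.hit (nat_lit 18) (nat_lit 58) (nat_lit 0x2f00005e0000bf25a97f0b1afdba7) b19037 (.one (nat_lit 55) (nat_lit 19) (nat_lit 59) (nat_lit 0x2f00005e0000bf70957f58a2fe663) b19038 (.nil))) (.tok (nat_lit 9) (nat_lit 0x2f00005e0000c0000180cc0b01932) (.hit (nat_lit 13) (nat_lit 53) (nat_lit 0x2f00005e0000bf71e97f79eafed33) b19032 (.hit (nat_lit 16) (nat_lit 56) (nat_lit 0x2f00005e0000bf61ed7f1bc2fdc48) b19035 (.tok (nat_lit 67) (nat_lit 0x2f00005e0000c0000180cc0b01932) (.hit (nat_lit 14) (nat_lit 54) (nat_lit 0x2f00005e0000bfe3c98082d300d90) b19033 (.hit (nat_lit 17) (nat_lit 57) (nat_lit 0x2f00005e0000bf52457f77d2fe7e1) b19036 (.one (nat_lit 9) (nat_lit 15) (nat_lit 55) (nat_lit 0x2f00005e0000c0000180cc0b01932) b19034 (.nil)))) (.nil)))) (.nil)))) (.one (nat_lit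 70) (nat_lit 20) (nat_lit 60) (nat_lit 0x2f00005e0000bf3f917f145afdb5b) b19039 (.nil)))))) (.nil))
noncomputable def r20_232 : Rw Blk := .tok (nat_lit 3) (nat_lit 0xbfb70d7f577afec3e5fcd00bfa45d7fd1cb000005ffa74c000017f1c6afe33e) (.hit (nat_lit 0) (nat_lit 0) (nat_lit 0xbf16957e28b2fcebe5f9680bf26dd7eaf8afd1055fa746bf3fa17e0422fc355) b36007 (.tok (nat_lit 9) (nat_lit 0xbf355d7e51e2fe3f05fa0f8bf43717f1002fdb7b5fbd4ebf6cbd7e40bafcd97) (.hit (nat_lit 10) (nat_lit 20) (nat_lit 0xbee3f97daf1afd2c25f7846bef20d7e6d3afc7225f949cbf1b597d9df2fb93e) b19111 (.hit (nat_lit 15) (nat_lit 28) (nat_lit 0xbeda3d7d9ba2fc7a45f7368bee8517e59c2fc4b35f8fbebf119d7d8a7afb6cf) b19116 (.tok (nat_lit 14) (nat_lit 0xbf2fe97e46fafd9a25f9e3ebf3dfd7f051afda1e5fba94bf67497e35d2fcc3a) (.hit (nat_lit 11) (nat_lit 24) (nat_lit 0xbefe697de3fafd2965f857ebf0c7d7ea21afcdbe5fa1d4bf35c97dd2d2fbfda) b19112 (.hit (nat_lit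 16) (nat_lit 30) (nat_lit 0xbefa757ddc12fd0d05f8384bf08897e9a32fccc15f9fdabf31d57dcaeafbedd) b19117 (.one (nat_lit 6) (nat_lit 12) (nat_lit 25) (nat_lit 0xbf2fe97e46fafd9a25f9e3ebf3dfd7f051afda1e5fba94bf67497e35d2fcc3a) b19113 (.nil)))) (.one (nat_lit 56) (nat_lit 17) (nat_lit 31) (nat_lit 0xbf2ef17e450afdd565f9dc2bf3d057f032afd9e05fba18bf66517e33e2fcbfc) b19118 (.tok (nat_lit 68) (nat_lit 0xbf355d7e51e2fe3f05fa0f8bf43717f1002fdb7b5fbd4ebf6cbd7e40bafcd97) (.hit (nat_lit 13) (nat_lit 26) (nat_lit 0xbf14bd7e10a2fdca95f90a8bf22d17ecec2fd3535facfebf4c1d7dff7afc56f) b19114 (.hit (nat_lit 18) (nat_lit 32) (nat_lit 0xbf044d7defc2fd26e5f8870bf12617eade2fcf375fa4c6bf3bad7dde9afc153) b19119 (.one (nat_lit 9) (nat_lit 14) (nat_lit 27) (nat_lit 0xbf355d7e51e2fe3f05fa0f8bf43717f1002fdb7b5fbd4ebf6cbd7e40bafcd97) b19115 (.nil)))) (.nil)))))) (.tok (nat_lit 64) (nat_lit 0xbf0a357dfb92fd9145f8b64bf18497eb9b2fd0b15fa7babf41957dea6afc2cd)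 (.hit (nat_lit 30) (nat_lit 50) (nat_lit 0xbefd8d7de242fcf1e5f8510bf0ba17ea062fcd875fa166bf34ed7dd11afbfa3) b19120 (.hit (nat_lit 31) (nat_lit 51) (nat_lit 0xbf0a357dfb92fd9145f8b64bf18497eb9b2fd0b15fa7babf41957dea6afc2cd) b19121 (.nil))) (.tok (nat_lit 67) (nat_lit 0xbfb70d7f577afec3e5fcd00bfa45d7fd1cb000005ffa74c000017f1c6afe33e) (.hit (nat_lit 32) (nat_lit 52) (nat_lit 0xbfb70d7f577afec3e5fb594bf6e917f506afecc55fd712bfb5a57ebfc2fda75) b19122 (.tok (nat_lit 3) (nat_lit 0xbf4cb17e808afea0b5faca2bf5ac57f3eaafe1505fc8f8bf84117e6f62fd36c) (.hit (nat_lit 38) (nat_lit 58) (nat_lit 0xbf2e157e4352fea0b5f9d54bf3c297f0172fd9a95fb9aabf65757e322afcbc5) b19128 (.one (nat_lit 55) (nat_lit 39) (nat_lit 59) (nat_lit 0xbf4cb17e808afe2ad5faca2bf5ac57f3eaafe1505fc8f8bf84117e6f62fd36c) b19129 (.nil))) (.tok (nat_lit 9) (nat_lit 0xbf8cb57f3d6afe8d25fcd00bfa45d7fd1cb000005ffa74c000017f1c6afe33e)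 (.hit (nat_lit 33) (nat_lit 53) (nat_lit 0xbf67a17ed4fafe3515fac4cbf6c717f4f42fee3a5fd742bfba6d7eb7c2fd30b) b19123 (.hit (nat_lit 36) (nat_lit 56) (nat_lit 0xbf2f797e461afe2155f9e06bf3d8d7f043afda025fba5cbf66d97e34f2fcc1e) b19126 (.tok (nat_lit 67) (nat_lit 0xbf8cb57f3d6afe8d25fcd00bfa45d7fd1cb000005ffa74c000017f1c6afe33e) (.hit (nat_lit 34) (nat_lit 54) (nat_lit 0xbf8cb57f3d6afe18f5fcd00bfa45d7fd1cb000005ffa74c000017f1c6afe33e) b19124 (.hit (nat_lit 37) (nat_lit 57) (nat_lit 0xbf59a17e9a6afe8d25fb31abf67b57f588afe48c5fcf70bf91017e8942fd6a8) b19127 (.one (nat_lit 9) (nat_lit 35) (nat_lit 55) (nat_lit 0xbf53457e8db2fde4e5fafecbf61597f4bd2fe2f55fcc42bf8aa57e7c8afd511) b19125 (.nil)))) (.nil)))) (.nil)))) (.one (nat_lit 70) (nat_lit 40) (nat_lit 60) (nat_lit 0xbf2af57e3d12fe44c5f9bc4bf39097efb32fd8e15fb81abf62557e2beafcafd) b19130 (.nil)))))) (.tok (nat_lit 6) (nat_lit 0xc0000180000300000600000c00001802ceafff2c600000bfefdd80000300000)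 (.hit (nat_lit 81) (nat_lit 0) (nat_lit 0xbf681d7eefeafe0845fbb48bf6d797f2062fdee25fc360bf68c17e94aafddcb) b19131 (.tok (nat_lit 6) (nat_lit 0xbfbc757f8a12feae35fd7b6bf9a597f322afdfc05fc5d8bf7dd17f0ea2fed1e) (.hit (nat_lit 87) (nat_lit 7) (nat_lit 0xbf3d017ed19afd15b5f8eaabf1ed57ec6cafd2545fab00bf48217df782fc683) b19132 (.hit (nat_lit 95) (nat_lit 15) (nat_lit 0xbf0b117dff82fc6405f6466bec5b97de92afb6a05f7398bed9517dcf4afbc80) b19135 (.tok (nat_lit 14) (nat_lit 0xbfbc757f8a12feae35fd7b6bf9a597f322afdfc05fc5d8bf7dd17f0ea2fed1e) (.hit (nat_lit 91) (nat_lit 11) (nat_lit 0xbfaffd7f79f2feae35fcd20bf99d57eecc2fd7135fb47ebf5b1d7f0052fe77c) b19133 (.hit (nat_lit 97) (nat_lit 17) (nat_lit 0xbf7d017ee362fe38d5f9d08bf39717e764afc8445f96e0bf1fe17eb182fd889) b19136 (.one (nat_lit 9) (nat_lit 92) (nat_lit 12) (nat_lit 0xbfbc757f8a12fea925fd7b6bf9a597f322afdfc05fc5d8bf7dd17f0ea2fed1e) b19134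 (.nil)))) (.one (nat_lit 68) (nat_lit 98) (nat_lit 18) (nat_lit 0xbf61017eab92fd8925f8fe8bf1d857e9312fcbdd5f9e12bf2e457e7b2afd1cd) b19137 (.nil))))) (.tok (nat_lit 52) (nat_lit 0xbf7d817f401afe20a5fa67cbf3d297ed8bafd4925faf7cbf51197eb83afd96f) (.hit (nat_lit 106) (nat_lit 39) (nat_lit 0xbf7d817f401afddfd5fa67cbf2f017ed8bafd4925faf7cbf51197eb83afd96f) b19138 (.hit (nat_lit 107) (nat_lit 40) (nat_lit 0xbf73097f154afe20a5f9dc4bf3d297ecc6afd3085fac68bf4af17e967afd76a) b19139 (.nil))) (.tok (nat_lit 55) (nat_lit 0xc0000180000300000600000c00001802ceafff2c600000bfefdd80000300000) (.hit (nat_lit 108) (nat_lit 41) (nat_lit 0xc00001800002ff8975ff122bfdbd9802ceafff2c600000bfefdd7f9ef2ff85d) b19140 (.tok (nat_lit 3) (nat_lit 0xbffba57fb72afe9ac600000c000017f62c2fe5d35fd1febf961d80000300000) (.hit (nat_lit 114) (nat_lit 47) (nat_lit 0xbfbe857f933afe6c45fe2dcbfccad7f4202fe1bb5fc9cebf85bd7fa4caff85d)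 b19143 (.one (nat_lit 67) (nat_lit 115) (nat_lit 48) (nat_lit 0xbffba57fb72afe9ac600000c000017f62c2fe5d35fd1febf961d80000300000) b19144 (.nil))) (.tok (nat_lit 6) (nat_lit 0xbfe5957fa633000005fcafcbf78597f3f6afe1685fc928bf84717f538afebb6) (.hit (nat_lit 109) (nat_lit 42) (nat_lit 0xbfe5957f798afe9315fcafcbf75017f37aafe0705fc738bf80917f538afebb6) b19141 (.hit (nat_lit 112) (nat_lit 45) (nat_lit 0xbf99c57fa633000005fb9cabf78597f3f6afe1685fc928bf84717ee3f2fe119) b19142 (.nil))) (.nil)))) (.one (nat_lit 58) (nat_lit 116) (nat_lit 49) (nat_lit 0xbf7d897f1692fe2035faf8abf616d7edecafd5545fb100bf54217eddbafe058) b19145 (.nil)))))) (.nil))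
noncomputable def r20_233 : Rw Blk := .tok (nat_lit 9) (nat_lit 0xbc0001780002ffbdf) (.hit (nat_lit 0) (nat_lit 0) (nat_lit 0xbc0001780002fe7a9) b19146 (.tok (nat_lit 14) (nat_lit 0xbc0001780002ff50c) (.hit (nat_lit 11) (nat_lit 61) (nat_lit 0xbc0001780002febde) b19147 (.one (nat_lit 3) (nat_lit 12) (nat_lit 62) (nat_lit 0xbc0001780002ff02e) b19148 (.tok (nat_lit 6) (nat_lit 0xbc0001780002ff50c) (.hit (nat_lit 15) (nat_lit 65) (nat_lit 0xbc0001780002ff50c) b19149 (.hit (nat_lit 16) (nat_lit 66) (nat_lit 0xbc0001780002fe788) b19150 (.nil))) (.tok (nat_lit 9) (nat_lit 0xbc0001780002feb9f) (.hit (nat_lit 13) (nat_lit 63) (nat_lit 0xbc0001780002fd32c) b19151 (.hit (nat_lit 14) (nat_lit 64) (nat_lit 0xbc0001780002feb9f) b19152 (.nil))) (.nil))))) (.one (nat_lit 17) (nat_lit 17) (nat_lit 67) (nat_lit 0xbc0001780002fe8c0) b19153 (.tok (nat_lit 20) (nat_lit 0xbc0001780002fe4b4) (.hit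 (nat_lit 18) (nat_lit 68) (nat_lit 0xbc0001780002fbf33) b19156 (.hit (nat_lit 19) (nat_lit 69) (nat_lit 0xbc0001780002fe4b4) b19157 (.nil))) (.tok (nat_lit 23) (nat_lit 0xbc0001780002ff3bf) (.hit (nat_lit 20) (nat_lit 70) (nat_lit 0xbc0001780002ff3bf) b19154 (.hit (nat_lit 21) (nat_lit 71) (nat_lit 0xbc0001780002fea29) b19155 (.nil))) (.one (nat_lit 26) (nat_lit 22) (nat_lit 72) (nat_lit 0xbc0001780002fda35) b19158 (.one (nat_lit 29) (nat_lit 23) (nat_lit 73) (nat_lit 0xbc0001780002fd402) b19159 (.one (nat_lit 32) (nat_lit 24) (nat_lit 74) (nat_lit 0xbc0001780002fdeeb) b19161 (.one (nat_lit 35) (nat_lit 25) (nat_lit 75) (nat_lit 0xbc0001780002fd603) b19160 (.one (nat_lit 50) (nat_lit 33) (nat_lit 83) (nat_lit 0xbc0001780002fdf8b) b19171 (.tok (nat_lit 53) (nat_lit 0xbc0001780002fe7e0) (.hit (nat_lit 34) (nat_lit 84) (nat_lit 0xbc0001780002fe1e2) b19172 (.hit (nat_lit 35) (nat_lit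 85) (nat_lit 0xbc0001780002fe7e0) b19173 (.nil))) (.tok (nat_lit 56) (nat_lit 0xbc0001780002fecd3) (.hit (nat_lit 36) (nat_lit 86) (nat_lit 0xbc0001780002fecd3) b19174 (.one (nat_lit 3) (nat_lit 40) (nat_lit 90) (nat_lit 0xbc0001780002fc291) b19178 (.tok (nat_lit 6) (nat_lit 0xbc0001780002fcd34) (.hit (nat_lit 38) (nat_lit 88) (nat_lit 0xbc0001780002fcd34) b19176 (.hit (nat_lit 39) (nat_lit 89) (nat_lit 0xbc0001780002fc7e9) b19177 (.nil))) (.one (nat_lit 9) (nat_lit 37) (nat_lit 87) (nat_lit 0xbc0001780002fca7c) b19175 (.nil))))) (.one (nat_lit 59) (nat_lit 41) (nat_lit 91) (nat_lit 0xbc0001780002fe013) b19179 (.one (nat_lit 62) (nat_lit 42) (nat_lit 92) (nat_lit 0xbc0001780002fe7ef) b19162 (.tok (nat_lit 65) (nat_lit 0xbc0001780002fec9b) (.hit (nat_lit 43) (nat_lit 93) (nat_lit 0xbc0001780002fe21f) b19163 (.hit (nat_lit 44) (nat_lit 94) (nat_lit 0xbc0001780002fec9b) b19164 (.nil)))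 (.tok (nat_lit 68) (nat_lit 0xbc0001780002ffbdf) (.hit (nat_lit 45) (nat_lit 95) (nat_lit 0xbc0001780002ffbdf) b19165 (.one (nat_lit 3) (nat_lit 49) (nat_lit 99) (nat_lit 0xbc0001780002ff466) b19169 (.one (nat_lit 6) (nat_lit 46) (nat_lit 96) (nat_lit 0xbc0001780002ffb93) b19166 (.tok (nat_lit 9) (nat_lit 0xbc0001780002ff6bf) (.hit (nat_lit 47) (nat_lit 97) (nat_lit 0xbc0001780002ff6bf) b19167 (.hit (nat_lit 48) (nat_lit 98) (nat_lit 0xbc0001780002fec7e) b19168 (.nil))) (.nil))))) (.one (nat_lit 71) (nat_lit 50) (nat_lit 100) (nat_lit 0xbc0001780002fe163) b19170 (.nil)))))))))))))))))) (.tok (nat_lit 64) (nat_lit 0xbc000178000300b52) (.hit (nat_lit 180) (nat_lit 0) (nat_lit 0xbc000178000300b52) b19180 (.tok (nat_lit 6) (nat_lit 0xbc0001780002ff80e) (.hit (nat_lit 181) (nat_lit 7) (nat_lit 0xbc0001780002fe370) b19183 (.hit (nat_lit 182) (nat_lit 15) (nat_lit 0xbc0001780002ff80e)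 b19184 (.nil))) (.tok (nat_lit 9) (nat_lit 0xbc0001780003005c3) (.hit (nat_lit 183) (nat_lit 20) (nat_lit 0xbc0001780003005c3) b19181 (.hit (nat_lit 184) (nat_lit 28) (nat_lit 0xbc0001780002ff507) b19182 (.nil))) (.nil)))) (.tok (nat_lit 67) (nat_lit 0xbc0001780002ff8b9) (.hit (nat_lit 205) (nat_lit 0) (nat_lit 0xbc0001780002ff8b9) b19193 (.tok (nat_lit 3) (nat_lit 0xbc0001780002ff869) (.hit (nat_lit 206) (nat_lit 1) (nat_lit 0xbc0001780002fdd5a) b19194 (.one (nat_lit 55) (nat_lit 207) (nat_lit 3) (nat_lit 0xbc0001780002ff869) b19195 (.nil))) (.tok (nat_lit 9) (nat_lit 0xbc0001780002ff006) (.hit (nat_lit 208) (nat_lit 20) (nat_lit 0xbc0001780002fe35d) b19196 (.hit (nat_lit 211) (nat_lit 28) (nat_lit 0xbc0001780002fdc47) b19199 (.tok (nat_lit 67) (nat_lit 0xbc0001780002ff006) (.hit (nat_lit 209) (nat_lit 21) (nat_lit 0xbc0001780002fe730) b19197 (.hit (nat_lit 212) (nat_lit 29)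 (nat_lit 0xbc0001780002ff006) b19200 (.one (nat_lit 9) (nat_lit 210) (nat_lit 22) (nat_lit 0xbc0001780002fed7c) b19198 (.nil)))) (.nil)))) (.nil)))) (.tok (nat_lit 70) (nat_lit 0xbc000178000300a83) (.hit (nat_lit 191) (nat_lit 0) (nat_lit 0xbc000178000300351) b19185 (.tok (nat_lit 3) (nat_lit 0xbc0001780002ffeed) (.hit (nat_lit 192) (nat_lit 1) (nat_lit 0xbc0001780002fdcf0) b19186 (.one (nat_lit 67) (nat_lit 193) (nat_lit 2) (nat_lit 0xbc0001780002ffeed) b19187 (.nil))) (.tok (nat_lit 6) (nat_lit 0xbc000178000300a83) (.hit (nat_lit 194) (nat_lit 7) (nat_lit 0xbc0001780002fea21) b19188 (.hit (nat_lit 197) (nat_lit 15) (nat_lit 0xbc0001780002fe2de) b19191 (.tok (nat_lit 55) (nat_lit 0xbc000178000300a83) (.hit (nat_lit 195) (nat_lit 8) (nat_lit 0xbc0001780002ff534) b19189 (.hit (nat_lit 198) (nat_lit 16) (nat_lit 0xbc0001780002ff9df) b19192 (.one (nat_lit 6) (nat_lit 196) (nat_lit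 9) (nat_lit 0xbc000178000300a83) b19190 (.nil)))) (.nil)))) (.nil)))) (.nil))))
noncomputable def r20_234 : Rw Blk := .tok (nat_lit 3) (nat_lit 0xbc00017800030115a) (.hit (nat_lit 15) (nat_lit 0) (nat_lit 0xbc0001780002ff843) b19212 (.tok (nat_lit 6) (nat_lit 0xbc0001780002fee9b) (.hit (nat_lit 16) (nat_lit 7) (nat_lit 0xbc0001780002fdbd0) b19213 (.hit (nat_lit 21) (nat_lit 15) (nat_lit 0xbc0001780002fc40e) b19216 (.tok (nat_lit 56) (nat_lit 0xbc0001780002fee9b) (.hit (nat_lit 19) (nat_lit 13) (nat_lit 0xbc0001780002fe411) b19214 (.hit (nat_lit 24) (nat_lit 19) (nat_lit 0xbc0001780002fe4ec) b19218 (.one (nat_lit 6) (nat_lit 20) (nat_lit 14) (nat_lit 0xbc0001780002fee9b) b19215 (.nil)))) (.one (nat_lit 68) (nat_lit 23) (nat_lit 18) (nat_lit 0xbc0001780002fe2b9) b19217 (.nil))))) (.tok (nat_lit 52) (nat_lit 0xbc0001780002fef80) (.hit (nat_lit 25) (nat_lit 39) (nat_lit 0xbc0001780002fe25a)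 b19219 (.hit (nat_lit 26) (nat_lit 40) (nat_lit 0xbc0001780002fef80) b19220 (.nil))) (.tok (nat_lit 55) (nat_lit 0xbc00017800030115a) (.hit (nat_lit 27) (nat_lit 41) (nat_lit 0xbc00017800030115a) b19221 (.one (nat_lit 3) (nat_lit 33) (nat_lit 47) (nat_lit 0xbc0001780002fef99) b19227 (.tok (nat_lit 6) (nat_lit 0xbc0001780002ff253) (.hit (nat_lit 28) (nat_lit 42) (nat_lit 0xbc0001780002fe838) b19222 (.hit (nat_lit 31) (nat_lit 45) (nat_lit 0xbc0001780002feb6f) b19225 (.tok (nat_lit 55) (nat_lit 0xbc0001780002ff253) (.hit (nat_lit 29) (nat_lit 43) (nat_lit 0xbc0001780002ff253) b19223 (.hit (nat_lit 32) (nat_lit 46) (nat_lit 0xbc0001780002ff156) b19226 (.one (nat_lit 6) (nat_lit 30) (nat_lit 44) (nat_lit 0xbc0001780002fe789) b19224 (.nil)))) (.nil)))) (.nil)))) (.one (nat_lit 58) (nat_lit 35) (nat_lit 49) (nat_lit 0xbc0001780002fee65) b19228 (.nil)))))) (.tok (nat_lit 9) (nat_lit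 0xbc000178000302cd6) (.hit (nat_lit 0) (nat_lit 0) (nat_lit 0xbc000178000301589) b19201 (.tok (nat_lit 9) (nat_lit 0xbc0001780002ffd28) (.hit (nat_lit 1) (nat_lit 20) (nat_lit 0xbc0001780002ff2cf) b19202 (.hit (nat_lit 4) (nat_lit 28) (nat_lit 0xbc0001780002feb50) b19203 (.one (nat_lit 56) (nat_lit 6) (nat_lit 31) (nat_lit 0xbc0001780002ffd28) b19204 (.nil)))) (.tok (nat_lit 64) (nat_lit 0xbc000178000301d2d) (.hit (nat_lit 7) (nat_lit 50) (nat_lit 0xbc00017800030134a) b19205 (.hit (nat_lit 8) (nat_lit 51) (nat_lit 0xbc000178000301d2d) b19206 (.nil))) (.tok (nat_lit 67) (nat_lit 0xbc000178000302752) (.hit (nat_lit 9) (nat_lit 52) (nat_lit 0xbc000178000302752) b19207 (.one (nat_lit 3) (nat_lit 12) (nat_lit 58) (nat_lit 0xbc000178000301cfe) b19210 (.tok (nat_lit 9) (nat_lit 0xbc000178000300bad) (.hit (nat_lit 10) (nat_lit 53) (nat_lit 0xbc0001780002fff03) b19208 (.hit (nat_lit 11)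 (nat_lit 56) (nat_lit 0xbc000178000300bad) b19209 (.nil))) (.nil)))) (.one (nat_lit 70) (nat_lit 14) (nat_lit 60) (nat_lit 0xbc000178000302cd6) b19211 (.nil)))))) (.nil))
noncomputable def r20_235 : Rw Blk := .tok (nat_lit 6) (nat_lit 0xbc000178000301e1d) (.hit (nat_lit 0) (nat_lit 0) (nat_lit 0xbc0001780002fe66e) b19229 (.tok (nat_lit 14) (nat_lit 0xbc0001780002fffdd) (.hit (nat_lit 21) (nat_lit 61) (nat_lit 0xbc0001780002ffbf3) b19230 (.one (nat_lit 3) (nat_lit 22) (nat_lit 62) (nat_lit 0xbc0001780002ffb93) b19231 (.tok (nat_lit 6) (nat_lit 0xbc0001780002ff2ea) (.hit (nat_lit 25) (nat_lit 65) (nat_lit 0xbc0001780002fd79e) b19232 (.hit (nat_lit 26) (nat_lit 66) (nat_lit 0xbc0001780002ff2ea) b19233 (.nil))) (.tok (nat_lit 9) (nat_lit 0xbc0001780002fffdd) (.hit (nat_lit 23) (nat_lit 63) (nat_lit 0xbc0001780002fffdd) b19234 (.hit (nat_lit 24) (nat_lit 64) (nat_lit 0xbc0001780002fdd6e)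 b19235 (.nil))) (.nil))))) (.one (nat_lit 17) (nat_lit 27) (nat_lit 67) (nat_lit 0xbc0001780002fe95b) b19236 (.tok (nat_lit 20) (nat_lit 0xbc000178000301e1d) (.hit (nat_lit 28) (nat_lit 68) (nat_lit 0xbc000178000301e1d) b19239 (.hit (nat_lit 29) (nat_lit 69) (nat_lit 0xbc0001780002fe49e) b19240 (.nil))) (.tok (nat_lit 23) (nat_lit 0xbc0001780002fe227) (.hit (nat_lit 30) (nat_lit 70) (nat_lit 0xbc0001780002fc6e1) b19237 (.hit (nat_lit 31) (nat_lit 71) (nat_lit 0xbc0001780002fe227) b19238 (.nil))) (.one (nat_lit 26) (nat_lit 32) (nat_lit 72) (nat_lit 0xbc0001780002fdac8) b19241 (.one (nat_lit 29) (nat_lit 33) (nat_lit 73) (nat_lit 0xbc0001780002fe9dd) b19242 (.one (nat_lit 32) (nat_lit 34) (nat_lit 74) (nat_lit 0xbc0001780002fd33d) b19244 (.one (nat_lit 35) (nat_lit 35) (nat_lit 75) (nat_lit 0xbc0001780002fe3c4) b19243 (.one (nat_lit 38) (nat_lit 36) (nat_lit 76) (nat_lit 0xbc0001780002fe02e)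 b19245 (.tok (nat_lit 41) (nat_lit 0xbc0001780002fe941) (.hit (nat_lit 37) (nat_lit 77) (nat_lit 0xbc0001780002fe43d) b19246 (.hit (nat_lit 38) (nat_lit 78) (nat_lit 0xbc0001780002fe941) b19247 (.nil))) (.tok (nat_lit 44) (nat_lit 0xbc0001780002ff528) (.hit (nat_lit 39) (nat_lit 79) (nat_lit 0xbc0001780002ff528) b19250 (.hit (nat_lit 40) (nat_lit 80) (nat_lit 0xbc0001780002fdfc6) b19251 (.nil))) (.tok (nat_lit 47) (nat_lit 0xbc0001780002fe7ef) (.hit (nat_lit 41) (nat_lit 81) (nat_lit 0xbc0001780002fbf78) b19248 (.hit (nat_lit 42) (nat_lit 82) (nat_lit 0xbc0001780002fe7ef) b19249 (.nil))) (.one (nat_lit 62) (nat_lit 52) (nat_lit 92) (nat_lit 0xbc0001780002fdad7) b19252 (.tok (nat_lit 65) (nat_lit 0xbc0001780002feb7a) (.hit (nat_lit 53) (nat_lit 93) (nat_lit 0xbc0001780002feb7a) b19253 (.hit (nat_lit 54) (nat_lit 94) (nat_lit 0xbc0001780002fdf95) b19254 (.nil))) (.tok (nat_lit 68)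 (nat_lit 0xbc0001780002fe4b3) (.hit (nat_lit 55) (nat_lit 95) (nat_lit 0xbc0001780002fe4b3) b19255 (.one (nat_lit 3) (nat_lit 59) (nat_lit 99) (nat_lit 0xbc0001780002fc664) b19259 (.one (nat_lit 6) (nat_lit 56) (nat_lit 96) (nat_lit 0xbc0001780002fca87) b19256 (.tok (nat_lit 9) (nat_lit 0xbc0001780002fd873) (.hit (nat_lit 57) (nat_lit 97) (nat_lit 0xbc0001780002fd873) b19257 (.hit (nat_lit 58) (nat_lit 98) (nat_lit 0xbc0001780002fd021) b19258 (.nil))) (.nil))))) (.one (nat_lit 71) (nat_lit 60) (nat_lit 100) (nat_lit 0xbc0001780002fe179) b19260 (.nil)))))))))))))))))) (.tok (nat_lit 52) (nat_lit 0xbc000178000301214) (.hit (nat_lit 176) (nat_lit 0) (nat_lit 0xbc000178000301214) b19261 (.tok (nat_lit 6) (nat_lit 0xbc0001780002fffa5) (.hit (nat_lit 177) (nat_lit 7) (nat_lit 0xbc0001780002fffa5) b19264 (.hit (nat_lit 178) (nat_lit 15) (nat_lit 0xbc0001780002fef22) b19265 (.nil))) (.tok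 (nat_lit 9) (nat_lit 0xbc0001780002ff68b) (.hit (nat_lit 179) (nat_lit 20) (nat_lit 0xbc0001780002fe298) b19262 (.hit (nat_lit 180) (nat_lit 28) (nat_lit 0xbc0001780002ff68b) b19263 (.nil))) (.nil)))) (.tok (nat_lit 55) (nat_lit 0xbc0001780002ff273) (.hit (nat_lit 187) (nat_lit 0) (nat_lit 0xbc0001780002ff273) b19274 (.tok (nat_lit 3) (nat_lit 0xbc0001780002fe936) (.hit (nat_lit 188) (nat_lit 1) (nat_lit 0xbc0001780002fd292) b19275 (.one (nat_lit 67) (nat_lit 189) (nat_lit 2) (nat_lit 0xbc0001780002fe936) b19276 (.nil))) (.tok (nat_lit 6) (nat_lit 0xbc0001780002fdd17) (.hit (nat_lit 190) (nat_lit 7) (nat_lit 0xbc0001780002fdd17) b19277 (.hit (nat_lit 193) (nat_lit 15) (nat_lit 0xbc0001780002fd368) b19278 (.nil))) (.nil)))) (.tok (nat_lit 58) (nat_lit 0xbc0001780002ffd4d) (.hit (nat_lit 201) (nat_lit 0) (nat_lit 0xbc0001780002ff41b) b19266 (.tok (nat_lit 3) (nat_lit 0xbc0001780002ff426)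 (.hit (nat_lit 202) (nat_lit 1) (nat_lit 0xbc0001780002fda8f) b19267 (.one (nat_lit 55) (nat_lit 203) (nat_lit 3) (nat_lit 0xbc0001780002ff426) b19268 (.nil))) (.tok (nat_lit 9) (nat_lit 0xbc0001780002ffd4d) (.hit (nat_lit 204) (nat_lit 20) (nat_lit 0xbc0001780002fdc82) b19269 (.hit (nat_lit 207) (nat_lit 28) (nat_lit 0xbc0001780002fdcaf) b19272 (.tok (nat_lit 67) (nat_lit 0xbc0001780002ffd4d) (.hit (nat_lit 205) (nat_lit 21) (nat_lit 0xbc0001780002fe979) b19270 (.hit (nat_lit 208) (nat_lit 29) (nat_lit 0xbc0001780002ff6ea) b19273 (.one (nat_lit 9) (nat_lit 206) (nat_lit 22) (nat_lit 0xbc0001780002ffd4d) b19271 (.nil)))) (.nil)))) (.nil)))) (.nil))))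
noncomputable def r20_236 : Rw Blk := .tok (nat_lit 3) (nat_lit 0xbc0001780003018f6) (.hit (nat_lit 15) (nat_lit 0) (nat_lit 0xbc00017800030047f) b19286 (.tok (nat_lit 9) (nat_lit 0xbc0001780002ff1d2) (.hit (nat_lit 16) (nat_lit 20) (nat_lit 0xbc0001780002fcd41) b19287 (.hit (nat_lit 21) (nat_lit 28) (nat_lit 0xbc0001780002fd95f) b19292 (.tok (nat_lit 14) (nat_lit 0xbc0001780002ff1d2) (.hit (nat_lit 17) (nat_lit 24) (nat_lit 0xbc0001780002fde95) b19288 (.hit (nat_lit 22) (nat_lit 30) (nat_lit 0xbc0001780002ff1d2) b19293 (.one (nat_lit 6) (nat_lit 18) (nat_lit 25) (nat_lit 0xbc0001780002ff055) b19289 (.nil)))) (.tok (nat_lit 68) (nat_lit 0xbc0001780002feba5) (.hit (nat_lit 19) (nat_lit 26) (nat_lit 0xbc0001780002fde48) b19290 (.hit (nat_lit 24) (nat_lit 32) (nat_lit 0xbc0001780002feba5) b19294 (.one (nat_lit 9) (nat_lit 20) (nat_lit 27) (nat_lit 0xbc0001780002fe9ea) b19291 (.nil))))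 (.nil))))) (.tok (nat_lit 64) (nat_lit 0xbc0001780002ff12a) (.hit (nat_lit 25) (nat_lit 50) (nat_lit 0xbc0001780002fee80) b19295 (.hit (nat_lit 26) (nat_lit 51) (nat_lit 0xbc0001780002ff12a) b19296 (.nil))) (.tok (nat_lit 67) (nat_lit 0xbc00017800030142f) (.hit (nat_lit 27) (nat_lit 52) (nat_lit 0xbc00017800030142f) b19297 (.tok (nat_lit 3) (nat_lit 0xbc0001780002ffbfb) (.hit (nat_lit 33) (nat_lit 58) (nat_lit 0xbc0001780002fe90a) b19303 (.one (nat_lit 55) (nat_lit 34) (nat_lit 59) (nat_lit 0xbc0001780002ffbfb) b19304 (.nil))) (.tok (nat_lit 9) (nat_lit 0xbc0001780002ff101) (.hit (nat_lit 28) (nat_lit 53) (nat_lit 0xbc0001780002fe9f4) b19298 (.hit (nat_lit 31) (nat_lit 56) (nat_lit 0xbc0001780002fe692) b19301 (.tok (nat_lit 67) (nat_lit 0xbc0001780002ff101) (.hit (nat_lit 29) (nat_lit 54) (nat_lit 0xbc0001780002ff101) b19299 (.hit (nat_lit 32) (nat_lit 57) (nat_lit 0xbc0001780002ff078)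 b19302 (.one (nat_lit 9) (nat_lit 30) (nat_lit 55) (nat_lit 0xbc0001780002fe58e) b19300 (.nil)))) (.nil)))) (.nil)))) (.one (nat_lit 70) (nat_lit 35) (nat_lit 60) (nat_lit 0xbc0001780003018f6) b19305 (.nil)))))) (.tok (nat_lit 6) (nat_lit 0xbc000178000302811) (.hit (nat_lit 0) (nat_lit 0) (nat_lit 0xbc0001780003010c9) b19279 (.tok (nat_lit 6) (nat_lit 0xbc000178000302811) (.hit (nat_lit 1) (nat_lit 7) (nat_lit 0xbc0001780002fe130) b19280 (.hit (nat_lit 4) (nat_lit 15) (nat_lit 0xbc0001780002fefdb) b19283 (.tok (nat_lit 14) (nat_lit 0xbc000178000302811) (.hit (nat_lit 2) (nat_lit 11) (nat_lit 0xbc0001780002ffef3) b19281 (.hit (nat_lit 5) (nat_lit 17) (nat_lit 0xbc0001780002ffcad) b19284 (.one (nat_lit 9) (nat_lit 3) (nat_lit 12) (nat_lit 0xbc000178000302811) b19282 (.nil)))) (.one (nat_lit 68) (nat_lit 6) (nat_lit 18) (nat_lit 0xbc000178000300c88) b19285 (.nil))))) (.nil))) (.nil))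
noncomputable def r20_237 : Rw Blk := .tok (nat_lit 6) (nat_lit 0xbc000178000305367) (.hit (nat_lit 0) (nat_lit 0) (nat_lit 0xbc000178000300035) b19306 (.tok (nat_lit 14) (nat_lit 0xbc000178000303ac0) (.hit (nat_lit 1) (nat_lit 61) (nat_lit 0xbc000178000300d50) b19307 (.one (nat_lit 3) (nat_lit 2) (nat_lit 62) (nat_lit 0xbc0001780002ffcf6) b19308 (.tok (nat_lit 6) (nat_lit 0xbc0001780002ff90b) (.hit (nat_lit 5) (nat_lit 65) (nat_lit 0xbc0001780002ff90b) b19309 (.hit (nat_lit 6) (nat_lit 66) (nat_lit 0xbc0001780002ff868) b19310 (.nil))) (.tok (nat_lit 9) (nat_lit 0xbc000178000303ac0) (.hit (nat_lit 3) (nat_lit 63) (nat_lit 0xbc000178000303ac0) b19311 (.hit (nat_lit 4) (nat_lit 64) (nat_lit 0xbc000178000300a8a) b19312 (.nil))) (.nil))))) (.one (nat_lit 17) (nat_lit 7) (nat_lit 67) (nat_lit 0xbc0001780002fe767) b19313 (.tok (nat_lit 20) (nat_lit 0xbc000178000305367) (.hit (nat_lit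 8) (nat_lit 68) (nat_lit 0xbc000178000305367) b19316 (.hit (nat_lit 9) (nat_lit 69) (nat_lit 0xbc0001780002ff0fb) b19317 (.nil))) (.tok (nat_lit 23) (nat_lit 0xbc0001780002ff535) (.hit (nat_lit 10) (nat_lit 70) (nat_lit 0xbc0001780002feece) b19314 (.hit (nat_lit 11) (nat_lit 71) (nat_lit 0xbc0001780002ff535) b19315 (.nil))) (.one (nat_lit 38) (nat_lit 16) (nat_lit 76) (nat_lit 0xbc0001780002ff160) b19318 (.tok (nat_lit 41) (nat_lit 0xbc0001780002fe87c) (.hit (nat_lit 17) (nat_lit 77) (nat_lit 0xbc0001780002fe7f0) b19319 (.hit (nat_lit 18) (nat_lit 78) (nat_lit 0xbc0001780002fe87c) b19320 (.nil))) (.tok (nat_lit 44) (nat_lit 0xbc00017800030060f) (.hit (nat_lit 19) (nat_lit 79) (nat_lit 0xbc00017800030060f) b19323 (.hit (nat_lit 20) (nat_lit 80) (nat_lit 0xbc0001780002fe52f) b19324 (.nil))) (.tok (nat_lit 47) (nat_lit 0xbc0001780002ff21d) (.hit (nat_lit 21) (nat_lit 81) (nat_lit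 0xbc0001780002fdf2b) b19321 (.hit (nat_lit 22) (nat_lit 82) (nat_lit 0xbc0001780002ff21d) b19322 (.nil))) (.one (nat_lit 62) (nat_lit 23) (nat_lit 92) (nat_lit 0xbc0001780002ffc2a) b19325 (.tok (nat_lit 65) (nat_lit 0xbc0001780002fef1c) (.hit (nat_lit 24) (nat_lit 93) (nat_lit 0xbc0001780002fef1c) b19326 (.hit (nat_lit 25) (nat_lit 94) (nat_lit 0xbc0001780002fe8f3) b19327 (.nil))) (.tok (nat_lit 68) (nat_lit 0xbc0001780003011ca) (.hit (nat_lit 26) (nat_lit 95) (nat_lit 0xbc0001780003011ca) b19328 (.one (nat_lit 3) (nat_lit 30) (nat_lit 99) (nat_lit 0xbc0001780002ff6d2) b19332 (.one (nat_lit 6) (nat_lit 27) (nat_lit 96) (nat_lit 0xbc0001780002ff1ff) b19329 (.tok (nat_lit 9) (nat_lit 0xbc0001780002ff46b) (.hit (nat_lit 28) (nat_lit 97) (nat_lit 0xbc0001780002ff46b) b19330 (.hit (nat_lit 29) (nat_lit 98) (nat_lit 0xbc0001780002fe909) b19331 (.nil))) (.nil))))) (.one (nat_lit 71)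 (nat_lit 31) (nat_lit 100) (nat_lit 0xbc0001780002fe62e) b19333 (.nil)))))))))))))) (.nil)
noncomputable def r20_238 : Rw Blk := .tok (nat_lit 6) (nat_lit 0xbc0001780002ffde4) (.hit (nat_lit 0) (nat_lit 0) (nat_lit 0xbc0001780002fe74f) b19334 (.tok (nat_lit 14) (nat_lit 0xbc0001780002ffc9f) (.hit (nat_lit 21) (nat_lit 61) (nat_lit 0xbc0001780002febd5) b19335 (.one (nat_lit 3) (nat_lit 22) (nat_lit 62) (nat_lit 0xbc0001780002fe96c) b19336 (.tok (nat_lit 6) (nat_lit 0xbc0001780002ffbeb) (.hit (nat_lit 25) (nat_lit 65) (nat_lit 0xbc0001780002fdec2) b19337 (.hit (nat_lit 26) (nat_lit 66) (nat_lit 0xbc0001780002ffbeb) b19338 (.nil))) (.tok (nat_lit 9) (nat_lit 0xbc0001780002ffc9f) (.hit (nat_lit 23) (nat_lit 63) (nat_lit 0xbc0001780002ffc9f) b19339 (.hit (nat_lit 24) (nat_lit 64) (nat_lit 0xbc0001780002fe502) b19340 (.nil))) (.nil))))) (.one (nat_lit 17) (nat_lit 27) (nat_lit 67) (nat_lit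 0xbc0001780002fe3d5) b19341 (.tok (nat_lit 20) (nat_lit 0xbc0001780002ffde4) (.hit (nat_lit 28) (nat_lit 68) (nat_lit 0xbc0001780002ffde4) b19344 (.hit (nat_lit 29) (nat_lit 69) (nat_lit 0xbc0001780002fe432) b19345 (.nil))) (.tok (nat_lit 23) (nat_lit 0xbc0001780002fe6f3) (.hit (nat_lit 30) (nat_lit 70) (nat_lit 0xbc0001780002fd743) b19342 (.hit (nat_lit 31) (nat_lit 71) (nat_lit 0xbc0001780002fe6f3) b19343 (.nil))) (.one (nat_lit 26) (nat_lit 32) (nat_lit 72) (nat_lit 0xbc0001780002fe0a5) b19346 (.one (nat_lit 29) (nat_lit 33) (nat_lit 73) (nat_lit 0xbc0001780002fe11c) b19347 (.one (nat_lit 32) (nat_lit 34) (nat_lit 74) (nat_lit 0xbc0001780002fd642) b19349 (.one (nat_lit 35) (nat_lit 35) (nat_lit 75) (nat_lit 0xbc0001780002fe167) b19348 (.one (nat_lit 38) (nat_lit 36) (nat_lit 76) (nat_lit 0xbc0001780002fe3b7) b19350 (.tok (nat_lit 41) (nat_lit 0xbc0001780002fe446) (.hit (nat_lit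 37) (nat_lit 77) (nat_lit 0xbc0001780002fe2d7) b19351 (.hit (nat_lit 38) (nat_lit 78) (nat_lit 0xbc0001780002fe446) b19352 (.nil))) (.tok (nat_lit 44) (nat_lit 0xbc0001780002feb45) (.hit (nat_lit 39) (nat_lit 79) (nat_lit 0xbc0001780002feb45) b19355 (.hit (nat_lit 40) (nat_lit 80) (nat_lit 0xbc0001780002fe1c2) b19356 (.nil))) (.tok (nat_lit 47) (nat_lit 0xbc0001780002fe3df) (.hit (nat_lit 41) (nat_lit 81) (nat_lit 0xbc0001780002fb4f7) b19353 (.hit (nat_lit 42) (nat_lit 82) (nat_lit 0xbc0001780002fe3df) b19354 (.nil))) (.one (nat_lit 62) (nat_lit 52) (nat_lit 92) (nat_lit 0xbc0001780002fe26b) b19357 (.tok (nat_lit 65) (nat_lit 0xbc0001780002fe2e5) (.hit (nat_lit 53) (nat_lit 93) (nat_lit 0xbc0001780002fd770) b19358 (.hit (nat_lit 54) (nat_lit 94) (nat_lit 0xbc0001780002fe2e5) b19359 (.nil))) (.tok (nat_lit 68) (nat_lit 0xbc0001780002fe82b) (.hit (nat_lit 55) (nat_lit 95) (nat_lit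 0xbc0001780002fe82b) b19360 (.one (nat_lit 3) (nat_lit 59) (nat_lit 99) (nat_lit 0xbc0001780002fd56e) b19364 (.one (nat_lit 6) (nat_lit 56) (nat_lit 96) (nat_lit 0xbc0001780002fd40d) b19361 (.tok (nat_lit 9) (nat_lit 0xbc0001780002fd89c) (.hit (nat_lit 57) (nat_lit 97) (nat_lit 0xbc0001780002fd89c) b19362 (.hit (nat_lit 58) (nat_lit 98) (nat_lit 0xbc0001780002fd64a) b19363 (.nil))) (.nil))))) (.one (nat_lit 71) (nat_lit 60) (nat_lit 100) (nat_lit 0xbc0001780002fe1f4) b19365 (.nil)))))))))))))))))) (.tok (nat_lit 52) (nat_lit 0xbc000178000300754) (.hit (nat_lit 176) (nat_lit 0) (nat_lit 0xbc000178000300240) b19366 (.tok (nat_lit 6) (nat_lit 0xbc000178000300754) (.hit (nat_lit 177) (nat_lit 7) (nat_lit 0xbc000178000300754) b19369 (.hit (nat_lit 178) (nat_lit 15) (nat_lit 0xbc0001780002ff6e8) b19370 (.nil))) (.tok (nat_lit 9) (nat_lit 0xbc0001780002ffc0e) (.hit (nat_lit 179) (nat_lit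 20) (nat_lit 0xbc0001780002fd962) b19367 (.hit (nat_lit 180) (nat_lit 28) (nat_lit 0xbc0001780002ffc0e) b19368 (.nil))) (.nil)))) (.tok (nat_lit 55) (nat_lit 0xbc00017800030092b) (.hit (nat_lit 187) (nat_lit 0) (nat_lit 0xbc00017800030092b) b19379 (.tok (nat_lit 3) (nat_lit 0xbc0001780002fdfb9) (.hit (nat_lit 188) (nat_lit 1) (nat_lit 0xbc0001780002fd274) b19380 (.one (nat_lit 67) (nat_lit 189) (nat_lit 2) (nat_lit 0xbc0001780002fdfb9) b19381 (.nil))) (.tok (nat_lit 6) (nat_lit 0xbc0001780002fd287) (.hit (nat_lit 190) (nat_lit 7) (nat_lit 0xbc0001780002fcf53) b19382 (.hit (nat_lit 193) (nat_lit 15) (nat_lit 0xbc0001780002fd287) b19383 (.nil))) (.nil)))) (.tok (nat_lit 58) (nat_lit 0xbc0001780003004b2) (.hit (nat_lit 201) (nat_lit 0) (nat_lit 0xbc0001780002ff8b3) b19371 (.tok (nat_lit 3) (nat_lit 0xbc0001780002fec27) (.hit (nat_lit 202) (nat_lit 1) (nat_lit 0xbc0001780002fd3a0)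 b19372 (.one (nat_lit 55) (nat_lit 203) (nat_lit 3) (nat_lit 0xbc0001780002fec27) b19373 (.nil))) (.tok (nat_lit 9) (nat_lit 0xbc0001780003004b2) (.hit (nat_lit 204) (nat_lit 20) (nat_lit 0xbc0001780002fdafd) b19374 (.hit (nat_lit 207) (nat_lit 28) (nat_lit 0xbc0001780002fd1b4) b19377 (.tok (nat_lit 67) (nat_lit 0xbc0001780003004b2) (.hit (nat_lit 205) (nat_lit 21) (nat_lit 0xbc0001780002fe7a2) b19375 (.hit (nat_lit 208) (nat_lit 29) (nat_lit 0xbc0001780002feb73) b19378 (.one (nat_lit 9) (nat_lit 206) (nat_lit 22) (nat_lit 0xbc0001780003004b2) b19376 (.nil)))) (.nil)))) (.nil)))) (.nil))))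
noncomputable def r20_239 : Rw Blk := .tok (nat_lit 3) (nat_lit 0xbc0001780003015cb) (.hit (nat_lit 15) (nat_lit 0) (nat_lit 0xbc0001780002fed4b) b19391 (.tok (nat_lit 9) (nat_lit 0xbc0001780002fe70a) (.hit (nat_lit 16) (nat_lit 20) (nat_lit 0xbc0001780002fd135) b19392 (.hit (nat_lit 21) (nat_lit 28) (nat_lit 0xbc0001780002fb07c) b19397 (.tok (nat_lit 14) (nat_lit 0xbc0001780002fe0b0) (.hit (nat_lit 17) (nat_lit 24) (nat_lit 0xbc0001780002fd8f0) b19393 (.hit (nat_lit 22) (nat_lit 30) (nat_lit 0xbc0001780002fd80b) b19398 (.one (nat_lit 6) (nat_lit 18) (nat_lit 25) (nat_lit 0xbc0001780002fe0b0) b19394 (.nil)))) (.tok (nat_lit 68) (nat_lit 0xbc0001780002fe70a) (.hit (nat_lit 19) (nat_lit 26) (nat_lit 0xbc0001780002fdcdc) b19395 (.hit (nat_lit 24) (nat_lit 32) (nat_lit 0xbc0001780002fd4f5) b19399 (.one (nat_lit 9) (nat_lit 20) (nat_lit 27) (nat_lit 0xbc0001780002fe70a) b19396 (.nil))))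 (.nil))))) (.tok (nat_lit 64) (nat_lit 0xbc0001780002fe356) (.hit (nat_lit 25) (nat_lit 50) (nat_lit 0xbc0001780002fe356) b19400 (.hit (nat_lit 26) (nat_lit 51) (nat_lit 0xbc0001780002fdeef) b19401 (.nil))) (.tok (nat_lit 67) (nat_lit 0xbc0001780003015cb) (.hit (nat_lit 27) (nat_lit 52) (nat_lit 0xbc0001780003015cb) b19402 (.tok (nat_lit 3) (nat_lit 0xbc0001780002feedc) (.hit (nat_lit 33) (nat_lit 58) (nat_lit 0xbc0001780002fea7b) b19408 (.one (nat_lit 55) (nat_lit 34) (nat_lit 59) (nat_lit 0xbc0001780002feedc) b19409 (.nil))) (.tok (nat_lit 9) (nat_lit 0xbc0001780002ff0f6) (.hit (nat_lit 28) (nat_lit 53) (nat_lit 0xbc0001780002fe0cb) b19403 (.hit (nat_lit 31) (nat_lit 56) (nat_lit 0xbc0001780002fde39) b19406 (.tok (nat_lit 67) (nat_lit 0xbc0001780002ff0f6) (.hit (nat_lit 29) (nat_lit 54) (nat_lit 0xbc0001780002ff0f6) b19404 (.hit (nat_lit 32) (nat_lit 57) (nat_lit 0xbc0001780002fea3f)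 b19407 (.one (nat_lit 9) (nat_lit 30) (nat_lit 55) (nat_lit 0xbc0001780002fe25c) b19405 (.nil)))) (.nil)))) (.nil)))) (.one (nat_lit 70) (nat_lit 35) (nat_lit 60) (nat_lit 0xbc0001780002feecc) b19410 (.nil)))))) (.tok (nat_lit 6) (nat_lit 0xbc0001780003016ed) (.hit (nat_lit 0) (nat_lit 0) (nat_lit 0xbc000178000300989) b19384 (.tok (nat_lit 6) (nat_lit 0xbc0001780003016ed) (.hit (nat_lit 1) (nat_lit 7) (nat_lit 0xbc0001780002fee88) b19385 (.hit (nat_lit 4) (nat_lit 15) (nat_lit 0xbc0001780002fd985) b19388 (.tok (nat_lit 14) (nat_lit 0xbc0001780003016ed) (.hit (nat_lit 2) (nat_lit 11) (nat_lit 0xbc0001780003016ed) b19386 (.hit (nat_lit 5) (nat_lit 17) (nat_lit 0xbc0001780002fef93) b19389 (.one (nat_lit 9) (nat_lit 3) (nat_lit 12) (nat_lit 0xbc000178000300a16) b19387 (.nil)))) (.one (nat_lit 68) (nat_lit 6) (nat_lit 18) (nat_lit 0xbc0001780002feb3b) b19390 (.nil))))) (.nil))) (.nil))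
noncomputable def r20_240 : Rw Blk := .tok (nat_lit 3) (nat_lit 0xbf6f257e3482fdfc05fbd94bf7bc17ed292fd0465fbf3cbf670d7eaaf2fd6c7) (.hit (nat_lit 0) (nat_lit 0) (nat_lit 0xbf6f257e3482fdfc05fbd94bf7bc17ed292fd0465fbf3cbf670d7eaaf2fd6c7) b36008 (.tok (nat_lit 6) (nat_lit 0xbf3a757d7a6afdd295fa33cbf46797e2e9afb84f5f7a06bee7d97e3b82fcb62) (.hit (nat_lit 1) (nat_lit 7) (nat_lit 0xbf3a757d7a6afdd295fa33cbf46797e2e9afb84f5f7a06bee7d97e3b82fcb62) b19412 (.hit (nat_lit 6) (nat_lit 15) (nat_lit 0xbf30b97d66f2fd5255f9e5ebf3cbd7e1b22fb5e05f7528bede1d7e280afc8f3) b19413 (.nil))) (.tok (nat_lit 9) (nat_lit 0xbf3a757d7a6afdd295fa33cbf46797e2e9afb84f5f7a06bee7d97e3b82fcb62) (.hit (nat_lit 10) (nat_lit 20) (nat_lit 0xbf3a757d7a6afdd295fa33cbf46797e2e9afb84f5f7a06bee7d97e3b82fcb62) b19412 (.hit (nat_lit 15) (nat_lit 28) (nat_lit 0xbf30b97d66f2fd5255f9e5ebf3cbd7e1b22fb5e05f7528bede1d7e280afc8f3)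 b19413 (.nil))) (.nil)))) (.tok (nat_lit 6) (nat_lit 0xbfc8697eef52ff1455ff4d4bfed417f0a22fd7a55fcaeebf7e617f8e2aff424) (.hit (nat_lit 81) (nat_lit 0) (nat_lit 0xbfc8317eef52feb305ff1f0bfe3e17f0a22fd7a55fcaeebf7e617f822aff424) b19423 (.tok (nat_lit 3) (nat_lit 0xbfc8697ea3a2ff1455ff4d4bfed417eb3bafc8f35f9b4ebf2a697f8e2aff3b4) (.hit (nat_lit 82) (nat_lit 1) (nat_lit 0xbf5c257dd03afdbb25fbe46bf7c8d7dee4afb0455f69f2bec7b17eb382fda4f) b19424 (.one (nat_lit 67) (nat_lit 83) (nat_lit 2) (nat_lit 0xbfc8697ea3a2ff1455ff4d4bfed417eb3bafc8f35f9b4ebf2a697f8e2aff3b4) b19425 (.nil))) (.tok (nat_lit 6) (nat_lit 0xbfabf97ec222fe8e95fd9f8bfb3f17e882afc3815f906abf14a17f224afe912) (.hit (nat_lit 87) (nat_lit 7) (nat_lit 0xbfabf97ec222fe8e95fd9f8bfb3f17e882afc3815f906abf14a17f224afe912) b19426 (.hit (nat_lit 95) (nat_lit 15) (nat_lit 0xbf64fd7dcd0afd3dd5fc188bf83117daa8afa7cd5f5902bea5d17ec08afdbf0)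 b19427 (.nil))) (.nil)))) (.tok (nat_lit 9) (nat_lit 0xc0000180000300000600000c00001809c3b012e8601b54c0503580000300000) (.hit (nat_lit 157) (nat_lit 0) (nat_lit 0xbfc8317eef52feb305fde88bfbd117f899afe48f5fd9fcbfb8757f63d2ff1b1) b19414 (.tok (nat_lit 3) (nat_lit 0xbfc8697ea3a2ff1455fe0d6bfc1ad7fb922ff2bd5ff574bfd3417f6d4aff188) (.hit (nat_lit 158) (nat_lit 1) (nat_lit 0xbf5c257dd03afdbb25fa9e2bf53c57edb22fd1eb5fc160bf61157e917afd60e) b19415 (.one (nat_lit 55) (nat_lit 159) (nat_lit 3) (nat_lit 0xbfc8697ea3a2ff1455fe0d6bfc1ad7fb922ff2bd5ff574bfd3417f6d4aff188) b19416 (.nil))) (.tok (nat_lit 9) (nat_lit 0xc0000180000300000600000c00001809c3b012e8601b54c0503580000300000) (.hit (nat_lit 163) (nat_lit 20) (nat_lit 0xbfabf97ec222fe8e95fc234bf85597f7002fe2fe5fc73cbfa4597ee942fe213) b19417 (.hit (nat_lit 171) (nat_lit 28) (nat_lit 0xbf64fd7dcd0afd3dd5fad24bf5a497edd52fd0e05fc106bf5bf17e9e82fd7af)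 b19421 (.tok (nat_lit 67) (nat_lit 0xc0000180000300000600000c00001809c3b012e8601b54c0503580000300000) (.hit (nat_lit 164) (nat_lit 21) (nat_lit 0xbffb117f3fa2ff0ef5ff70cbfed797fe9faffb385ffedcc00af97fac4affcd8) b19418 (.hit (nat_lit 172) (nat_lit 29) (nat_lit 0xbfc75d7eb112fef375fe48ebfc91d7f71b2fe7185fe2f8bfbf817f7c1aff364) b19422 (.tok (nat_lit 9) (nat_lit 0xc0000180000300000600000c00001809c3b012e8601b54c0503580000300000) (.hit (nat_lit 165) (nat_lit 22) (nat_lit 0xbfd0257f7e3aff2525fe562bfcac5801892ffea25ff8e8c00eed7f7e32ff31a) b19419 (.one (nat_lit 67) (nat_lit 166) (nat_lit 23) (nat_lit 0xc0000180000300000600000c00001809c3b012e8601b54c0503580000300000) b19420 (.nil))) (.nil)))) (.nil)))) (.nil)))) (.nil)))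
noncomputable def r20_241 : Rw Blk := .tok (nat_lit 6) (nat_lit 0xbc000178000300000) (.hit (nat_lit 51) (nat_lit 0) (nat_lit 0xbc0001780002ff743) b8943 (.tok (nat_lit 3) (nat_lit 0xbc0001780002ffecc) (.hit (nat_lit 52) (nat_lit 1) (nat_lit 0xbc0001780002fdccb) b8944 (.one (nat_lit 14) (nat_lit 53) (nat_lit 4) (nat_lit 0xbc0001780002ffecc) b9239 (.one (nat_lit 56) (nat_lit 55) (nat_lit 6) (nat_lit 0xbc0001780002ff720) b8945 (.one (nat_lit 68) (nat_lit 54) (nat_lit 5) (nat_lit 0xbc0001780002fef3e) b8946 (.nil))))) (.tok (nat_lit 40) (nat_lit 0xbc0001780002ff5de) (.hit (nat_lit 56) (nat_lit 33) (nat_lit 0xbc0001780002ff5de) b8947 (.hit (nat_lit 57) (nat_lit 34) (nat_lit 0xbc0001780002ff3d8) b8948 (.nil))) (.tok (nat_lit 43) (nat_lit 0xbc000178000300000) (.hit (nat_lit 58) (nat_lit 35) (nat_lit 0xbc000178000300000) b8951 (.hit (nat_lit 59) (nat_lit 36) (nat_lit 0xbc0001780002ff6ae)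 b8952 (.nil))) (.tok (nat_lit 46) (nat_lit 0xbc0001780002ffbd8) (.hit (nat_lit 60) (nat_lit 37) (nat_lit 0xbc0001780002fe56f) b8949 (.hit (nat_lit 61) (nat_lit 38) (nat_lit 0xbc0001780002ffbd8) b8950 (.nil))) (.nil)))))) (.tok (nat_lit 9) (nat_lit 0xbc0001780002ffecc) (.hit (nat_lit 0) (nat_lit 0) (nat_lit 0xbc0001780002ff743) b8943 (.tok (nat_lit 3) (nat_lit 0xbc0001780002ffecc) (.hit (nat_lit 1) (nat_lit 1) (nat_lit 0xbc0001780002fdccb) b8944 (.one (nat_lit 14) (nat_lit 2) (nat_lit 4) (nat_lit 0xbc0001780002ffecc) b9239 (.one (nat_lit 56) (nat_lit 4) (nat_lit 6) (nat_lit 0xbc0001780002fef3e) b8946 (.one (nat_lit 68) (nat_lit 3) (nat_lit 5) (nat_lit 0xbc0001780002ff720) b8945 (.nil))))) (.nil))) (.nil))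
noncomputable def r20_242 : Rw Blk := .tok (nat_lit 3) (nat_lit 0xbc0001780002fde12) (.hit (nat_lit 61) (nat_lit 0) (nat_lit 0xbc0001780002fd24b) b8970 (.tok (nat_lit 9) (nat_lit 0xbc0001780002fd581) (.hit (nat_lit 62) (nat_lit 20) (nat_lit 0xbc0001780002fbbf9) b8971 (.hit (nat_lit 67) (nat_lit 28) (nat_lit 0xbc0001780002fadd7) b8974 (.tok (nat_lit 14) (nat_lit 0xbc0001780002fcdff) (.hit (nat_lit 63) (nat_lit 24) (nat_lit 0xbc0001780002fbe0c) b9665 (.hit (nat_lit 68) (nat_lit 30) (nat_lit 0xbc0001780002fc1ee) b9667 (.one (nat_lit 6) (nat_lit 64) (nat_lit 25) (nat_lit 0xbc0001780002fcdff) b9666 (.nil)))) (.tok (nat_lit 68) (nat_lit 0xbc0001780002fd581) (.hit (nat_lit 65) (nat_lit 26) (nat_lit 0xbc0001780002fcd73) b8972 (.hit (nat_lit 70) (nat_lit 32) (nat_lit 0xbc0001780002fbed5) b8976 (.one (nat_lit 9) (nat_lit 66) (nat_lit 27) (nat_lit 0xbc0001780002fd581) b8973 (.nil)))) (.nil)))))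 (.tok (nat_lit 64) (nat_lit 0xbc0001780002fc70f) (.hit (nat_lit 71) (nat_lit 50) (nat_lit 0xbc0001780002fbf8c) b8977 (.hit (nat_lit 72) (nat_lit 51) (nat_lit 0xbc0001780002fc70f) b8978 (.nil))) (.tok (nat_lit 67) (nat_lit 0xbc0001780002fde12) (.hit (nat_lit 73) (nat_lit 52) (nat_lit 0xbc0001780002fdd96) b8979 (.tok (nat_lit 3) (nat_lit 0xbc0001780002fde12) (.hit (nat_lit 79) (nat_lit 58) (nat_lit 0xbc0001780002fd3b5) b8985 (.one (nat_lit 55) (nat_lit 80) (nat_lit 59) (nat_lit 0xbc0001780002fde12) b9668 (.nil))) (.tok (nat_lit 9) (nat_lit 0xbc0001780002fd8c9) (.hit (nat_lit 74) (nat_lit 53) (nat_lit 0xbc0001780002fc8f3) b8980 (.hit (nat_lit 77) (nat_lit 56) (nat_lit 0xbc0001780002fcc00) b8983 (.tok (nat_lit 67) (nat_lit 0xbc0001780002fd8c9) (.hit (nat_lit 75) (nat_lit 54) (nat_lit 0xbc0001780002fd809) b8981 (.hit (nat_lit 78) (nat_lit 57) (nat_lit 0xbc0001780002fd8c9) b8984 (.one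 (nat_lit 9) (nat_lit 76) (nat_lit 55) (nat_lit 0xbc0001780002fd3cd) b8982 (.nil)))) (.nil)))) (.nil)))) (.one (nat_lit 70) (nat_lit 81) (nat_lit 60) (nat_lit 0xbc0001780002fc7be) b8986 (.nil)))))) (.tok (nat_lit 6) (nat_lit 0xbc000178000300000) (.hit (nat_lit 0) (nat_lit 0) (nat_lit 0xbc0001780002feb42) b8953 (.tok (nat_lit 6) (nat_lit 0xbc000178000300000) (.hit (nat_lit 1) (nat_lit 7) (nat_lit 0xbc0001780002fd8ca) b8954 (.hit (nat_lit 6) (nat_lit 15) (nat_lit 0xbc0001780002fc64d) b8957 (.tok (nat_lit 14) (nat_lit 0xbc0001780002ff85a) (.hit (nat_lit 2) (nat_lit 11) (nat_lit 0xbc0001780002ff85a) b9662 (.hit (nat_lit 7) (nat_lit 17) (nat_lit 0xbc0001780002fe69f) b9664 (.one (nat_lit 9) (nat_lit 3) (nat_lit 12) (nat_lit 0xbc0001780002ff70f) b9663 (.nil)))) (.tok (nat_lit 56) (nat_lit 0xbc000178000300000) (.hit (nat_lit 4) (nat_lit 13) (nat_lit 0xbc0001780002fefdc) b8955 (.hit (nat_lit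 9) (nat_lit 19) (nat_lit 0xbc0001780002fd664) b8959 (.one (nat_lit 6) (nat_lit 5) (nat_lit 14) (nat_lit 0xbc000178000300000) b8956 (.nil)))) (.one (nat_lit 68) (nat_lit 8) (nat_lit 18) (nat_lit 0xbc0001780002fdb60) b8958 (.nil)))))) (.nil))) (.nil))
noncomputable def r20_243 : Rw Blk := .tok (nat_lit 3) (nat_lit 0xbc000178000300000) (.hit (nat_lit 61) (nat_lit 0) (nat_lit 0xbc0001780002fe458) b9679 (.tok (nat_lit 9) (nat_lit 0xbc0001780002fe986) (.hit (nat_lit 62) (nat_lit 20) (nat_lit 0xbc0001780002fc969) b9680 (.hit (nat_lit 67) (nat_lit 28) (nat_lit 0xbc0001780002fccd8) b9685 (.tok (nat_lit 14) (nat_lit 0xbc0001780002fe986) (.hit (nat_lit 63) (nat_lit 24) (nat_lit 0xbc0001780002fdef7) b9681 (.hit (nat_lit 68) (nat_lit 30) (nat_lit 0xbc0001780002fdbe8) b9686 (.one (nat_lit 6) (nat_lit 64) (nat_lit 25) (nat_lit 0xbc0001780002fe986) b9682 (.nil)))) (.tok (nat_lit 68) (nat_lit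 0xbc0001780002fe4bc) (.hit (nat_lit 65) (nat_lit 26) (nat_lit 0xbc0001780002fe13b) b9683 (.hit (nat_lit 70) (nat_lit 32) (nat_lit 0xbc0001780002fdd09) b9687 (.one (nat_lit 9) (nat_lit 66) (nat_lit 27) (nat_lit 0xbc0001780002fe4bc) b9684 (.nil)))) (.nil))))) (.tok (nat_lit 64) (nat_lit 0xbc0001780002fe727) (.hit (nat_lit 71) (nat_lit 50) (nat_lit 0xbc0001780002fdff1) b9688 (.hit (nat_lit 72) (nat_lit 51) (nat_lit 0xbc0001780002fe727) b9689 (.nil))) (.tok (nat_lit 67) (nat_lit 0xbc000178000300000) (.hit (nat_lit 73) (nat_lit 52) (nat_lit 0xbc0001780002ff6c3) b9690 (.tok (nat_lit 3) (nat_lit 0xbc0001780002ff70a) (.hit (nat_lit 79) (nat_lit 58) (nat_lit 0xbc0001780002fef58) b9696 (.one (nat_lit 55) (nat_lit 80) (nat_lit 59) (nat_lit 0xbc0001780002ff70a) b9697 (.nil))) (.tok (nat_lit 9) (nat_lit 0xbc000178000300000) (.hit (nat_lit 74) (nat_lit 53) (nat_lit 0xbc0001780002ff8b2) b9691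 (.hit (nat_lit 77) (nat_lit 56) (nat_lit 0xbc0001780002fe613) b9694 (.tok (nat_lit 67) (nat_lit 0xbc000178000300000) (.hit (nat_lit 75) (nat_lit 54) (nat_lit 0xbc000178000300000) b9692 (.hit (nat_lit 78) (nat_lit 57) (nat_lit 0xbc0001780002ff758) b9695 (.one (nat_lit 9) (nat_lit 76) (nat_lit 55) (nat_lit 0xbc0001780002ff868) b9693 (.nil)))) (.nil)))) (.nil)))) (.one (nat_lit 70) (nat_lit 81) (nat_lit 60) (nat_lit 0xbc0001780002fe6b7) b9698 (.nil)))))) (.tok (nat_lit 6) (nat_lit 0xbc0001780002fff7c) (.hit (nat_lit 0) (nat_lit 0) (nat_lit 0xbc0001780002ff20f) b9669 (.tok (nat_lit 6) (nat_lit 0xbc0001780002fff7c) (.hit (nat_lit 1) (nat_lit 7) (nat_lit 0xbc0001780002fe639) b9670 (.hit (nat_lit 6) (nat_lit 15) (nat_lit 0xbc0001780002fd8e0) b9675 (.tok (nat_lit 14) (nat_lit 0xbc0001780002fff7c) (.hit (nat_lit 2) (nat_lit 11) (nat_lit 0xbc0001780002ff6f2) b9671 (.hit (nat_lit 7) (nat_lit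 17) (nat_lit 0xbc0001780002fff7c) b9676 (.one (nat_lit 9) (nat_lit 3) (nat_lit 12) (nat_lit 0xbc0001780002ff63a) b9672 (.nil)))) (.tok (nat_lit 56) (nat_lit 0xbc0001780002ff66d) (.hit (nat_lit 4) (nat_lit 13) (nat_lit 0xbc0001780002ff598) b9673 (.hit (nat_lit 9) (nat_lit 19) (nat_lit 0xbc0001780002ff56e) b9678 (.one (nat_lit 6) (nat_lit 5) (nat_lit 14) (nat_lit 0xbc0001780002ff66d) b9674 (.nil)))) (.one (nat_lit 68) (nat_lit 8) (nat_lit 18) (nat_lit 0xbc0001780002ff5ca) b9677 (.nil)))))) (.nil))) (.nil))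
noncomputable def r20_244 : Rw Blk := .tok (nat_lit 3) (nat_lit 0xbc0001780002fe512) (.hit (nat_lit 61) (nat_lit 0) (nat_lit 0xbc0001780002fd94b) b19449 (.tok (nat_lit 6) (nat_lit 0xbc0001780002fd4ff) (.hit (nat_lit 62) (nat_lit 7) (nat_lit 0xbc0001780002fc2f9) b19450 (.hit (nat_lit 67) (nat_lit 15) (nat_lit 0xbc0001780002fb4d7) b19453 (.tok (nat_lit 14) (nat_lit 0xbc0001780002fd4ff) (.hit (nat_lit 63) (nat_lit 11) (nat_lit 0xbc0001780002fc50c) b19451 (.hit (nat_lit 68) (nat_lit 17) (nat_lit 0xbc0001780002fc8ee) b19454 (.one (nat_lit 9) (nat_lit 64) (nat_lit 12) (nat_lit 0xbc0001780002fd4ff) b19452 (.nil)))) (.one (nat_lit 68) (nat_lit 69) (nat_lit 18) (nat_lit 0xbc0001780002fc755) b19455 (.nil))))) (.tok (nat_lit 52) (nat_lit 0xbc0001780002fce0f) (.hit (nat_lit 71) (nat_lit 39) (nat_lit 0xbc0001780002fc68c) b19456 (.hit (nat_lit 72) (nat_lit 40) (nat_lit 0xbc0001780002fce0f)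 b19457 (.nil))) (.tok (nat_lit 55) (nat_lit 0xbc0001780002fe512) (.hit (nat_lit 73) (nat_lit 41) (nat_lit 0xbc0001780002fe496) b19458 (.tok (nat_lit 3) (nat_lit 0xbc0001780002fe512) (.hit (nat_lit 79) (nat_lit 47) (nat_lit 0xbc0001780002fdab5) b19461 (.one (nat_lit 67) (nat_lit 80) (nat_lit 48) (nat_lit 0xbc0001780002fe512) b19462 (.nil))) (.tok (nat_lit 6) (nat_lit 0xbc0001780002fd300) (.hit (nat_lit 74) (nat_lit 42) (nat_lit 0xbc0001780002fcff3) b19459 (.hit (nat_lit 77) (nat_lit 45) (nat_lit 0xbc0001780002fd300) b19460 (.nil))) (.nil)))) (.one (nat_lit 58) (nat_lit 81) (nat_lit 49) (nat_lit 0xbc0001780002fcebe) b19463 (.nil)))))) (.tok (nat_lit 9) (nat_lit 0xbc000178000300743) (.hit (nat_lit 0) (nat_lit 0) (nat_lit 0xbc0001780002ff242) b19428 (.tok (nat_lit 9) (nat_lit 0xbc000178000300700) (.hit (nat_lit 1) (nat_lit 20) (nat_lit 0xbc0001780002fdfca) b19429 (.hit (nat_lit 6)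 (nat_lit 28) (nat_lit 0xbc0001780002fcd4d) b19434 (.tok (nat_lit 14) (nat_lit 0xbc0001780002fff5a) (.hit (nat_lit 2) (nat_lit 24) (nat_lit 0xbc0001780002fff5a) b19430 (.hit (nat_lit 7) (nat_lit 30) (nat_lit 0xbc0001780002fed9f) b19435 (.one (nat_lit 6) (nat_lit 3) (nat_lit 25) (nat_lit 0xbc0001780002ffe0f) b19431 (.nil)))) (.one (nat_lit 56) (nat_lit 8) (nat_lit 31) (nat_lit 0xbc0001780002fe260) b19436 (.tok (nat_lit 68) (nat_lit 0xbc000178000300700) (.hit (nat_lit 4) (nat_lit 26) (nat_lit 0xbc0001780002ff6dc) b19432 (.hit (nat_lit 9) (nat_lit 32) (nat_lit 0xbc0001780002fdd64) b19437 (.one (nat_lit 9) (nat_lit 5) (nat_lit 27) (nat_lit 0xbc000178000300700) b19433 (.nil)))) (.nil)))))) (.tok (nat_lit 64) (nat_lit 0xbc0001780002ff1ed) (.hit (nat_lit 10) (nat_lit 50) (nat_lit 0xbc0001780002fe4ba) b19438 (.hit (nat_lit 11) (nat_lit 51) (nat_lit 0xbc0001780002ff1ed) b19439 (.nil)))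 (.tok (nat_lit 67) (nat_lit 0xbc000178000300743) (.hit (nat_lit 12) (nat_lit 52) (nat_lit 0xbc0001780002fffc8) b19440 (.tok (nat_lit 3) (nat_lit 0xbc000178000300743) (.hit (nat_lit 18) (nat_lit 58) (nat_lit 0xbc0001780002ff3d0) b19446 (.one (nat_lit 55) (nat_lit 19) (nat_lit 59) (nat_lit 0xbc000178000300743) b19447 (.nil))) (.tok (nat_lit 9) (nat_lit 0xbc0001780003003c4) (.hit (nat_lit 13) (nat_lit 53) (nat_lit 0xbc0001780002fe835) b19441 (.hit (nat_lit 16) (nat_lit 56) (nat_lit 0xbc0001780002ff42b) b19444 (.tok (nat_lit 67) (nat_lit 0xbc0001780003003c4) (.hit (nat_lit 14) (nat_lit 54) (nat_lit 0xbc0001780002ffe00) b19442 (.hit (nat_lit 17) (nat_lit 57) (nat_lit 0xbc0001780003003c4) b19445 (.one (nat_lit 9) (nat_lit 15) (nat_lit 55) (nat_lit 0xbc0001780002ffead) b19443 (.nil)))) (.nil)))) (.nil)))) (.one (nat_lit 70) (nat_lit 20) (nat_lit 60) (nat_lit 0xbc0001780002ff419) b19448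 (.nil)))))) (.nil))
noncomputable def r20_245 : Rw Blk := .tok (nat_lit 3) (nat_lit 0xbc0001780002fdff4) (.hit (nat_lit 61) (nat_lit 0) (nat_lit 0xbc0001780002fcb9a) b19485 (.tok (nat_lit 6) (nat_lit 0xbc0001780002fd0c8) (.hit (nat_lit 62) (nat_lit 7) (nat_lit 0xbc0001780002fb0ab) b19486 (.hit (nat_lit 67) (nat_lit 15) (nat_lit 0xbc0001780002fb41a) b19489 (.tok (nat_lit 14) (nat_lit 0xbc0001780002fd0c8) (.hit (nat_lit 63) (nat_lit 11) (nat_lit 0xbc0001780002fc639) b19487 (.hit (nat_lit 68) (nat_lit 17) (nat_lit 0xbc0001780002fc32a) b19490 (.one (nat_lit 9) (nat_lit 64) (nat_lit 12) (nat_lit 0xbc0001780002fd0c8) b19488 (.nil)))) (.one (nat_lit 68) (nat_lit 69) (nat_lit 18) (nat_lit 0xbc0001780002fca50) b19491 (.nil))))) (.tok (nat_lit 52) (nat_lit 0xbc0001780002fce69) (.hit (nat_lit 71) (nat_lit 39) (nat_lit 0xbc0001780002fc733) b19492 (.hit (nat_lit 72) (nat_lit 40) (nat_lit 0xbc0001780002fce69)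 b19493 (.nil))) (.tok (nat_lit 55) (nat_lit 0xbc0001780002fdff4) (.hit (nat_lit 73) (nat_lit 41) (nat_lit 0xbc0001780002fde05) b19494 (.tok (nat_lit 3) (nat_lit 0xbc0001780002fde4c) (.hit (nat_lit 79) (nat_lit 47) (nat_lit 0xbc0001780002fd69a) b19497 (.one (nat_lit 67) (nat_lit 80) (nat_lit 48) (nat_lit 0xbc0001780002fde4c) b19498 (.nil))) (.tok (nat_lit 6) (nat_lit 0xbc0001780002fdff4) (.hit (nat_lit 74) (nat_lit 42) (nat_lit 0xbc0001780002fdff4) b19495 (.hit (nat_lit 77) (nat_lit 45) (nat_lit 0xbc0001780002fcd55) b19496 (.nil))) (.nil)))) (.one (nat_lit 58) (nat_lit 81) (nat_lit 49) (nat_lit 0xbc0001780002fcdf9) b19499 (.nil)))))) (.tok (nat_lit 9) (nat_lit 0xbc0001780003011b9) (.hit (nat_lit 0) (nat_lit 0) (nat_lit 0xbc0001780002fd951) b19464 (.tok (nat_lit 9) (nat_lit 0xbc0001780002fe6be) (.hit (nat_lit 1) (nat_lit 20) (nat_lit 0xbc0001780002fcd7b) b19465 (.hit (nat_lit 6)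 (nat_lit 28) (nat_lit 0xbc0001780002fc022) b19470 (.tok (nat_lit 14) (nat_lit 0xbc0001780002fe6be) (.hit (nat_lit 2) (nat_lit 24) (nat_lit 0xbc0001780002fde34) b19466 (.hit (nat_lit 7) (nat_lit 30) (nat_lit 0xbc0001780002fe6be) b19471 (.one (nat_lit 6) (nat_lit 3) (nat_lit 25) (nat_lit 0xbc0001780002fdd7c) b19467 (.nil)))) (.one (nat_lit 56) (nat_lit 8) (nat_lit 31) (nat_lit 0xbc0001780002fdd0c) b19472 (.tok (nat_lit 68) (nat_lit 0xbc0001780002fddaf) (.hit (nat_lit 4) (nat_lit 26) (nat_lit 0xbc0001780002fdcda) b19468 (.hit (nat_lit 9) (nat_lit 32) (nat_lit 0xbc0001780002fdcb0) b19473 (.one (nat_lit 9) (nat_lit 5) (nat_lit 27) (nat_lit 0xbc0001780002fddaf) b19469 (.nil)))) (.nil)))))) (.tok (nat_lit 64) (nat_lit 0xbc0001780002fe34f) (.hit (nat_lit 10) (nat_lit 50) (nat_lit 0xbc0001780002fd33c) b19474 (.hit (nat_lit 11) (nat_lit 51) (nat_lit 0xbc0001780002fe34f) b19475 (.nil)))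 (.tok (nat_lit 67) (nat_lit 0xbc0001780003011b9) (.hit (nat_lit 12) (nat_lit 52) (nat_lit 0xbc0001780002fe8d1) b19476 (.tok (nat_lit 3) (nat_lit 0xbc0001780002fedde) (.hit (nat_lit 18) (nat_lit 58) (nat_lit 0xbc0001780002fdb23) b19482 (.one (nat_lit 55) (nat_lit 19) (nat_lit 59) (nat_lit 0xbc0001780002fedde) b19483 (.nil))) (.tok (nat_lit 9) (nat_lit 0xbc0001780003011b9) (.hit (nat_lit 13) (nat_lit 53) (nat_lit 0xbc0001780002fee33) b19477 (.hit (nat_lit 16) (nat_lit 56) (nat_lit 0xbc0001780002fea34) b19480 (.tok (nat_lit 67) (nat_lit 0xbc0001780003011b9) (.hit (nat_lit 14) (nat_lit 54) (nat_lit 0xbc000178000300aab) b19478 (.hit (nat_lit 17) (nat_lit 57) (nat_lit 0xbc0001780002fe64a) b19481 (.one (nat_lit 9) (nat_lit 15) (nat_lit 55) (nat_lit 0xbc0001780003011b9) b19479 (.nil)))) (.nil)))) (.nil)))) (.one (nat_lit 70) (nat_lit 20) (nat_lit 60) (nat_lit 0xbc0001780002fe19d) b19484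 (.nil)))))) (.nil))
noncomputable def r20_246 : Rw Blk := .tok (nat_lit 3) (nat_lit 0xbfb70d7f577afec3e5fdef4bfaf3d7fd99afeffa5fd56ebfbf517fcacafed0f600000c0000180122300000600000c000017fef42ffe53) (.hit (nat_lit 0) (nat_lit 0) (nat_lit 0xbf16957e28b2fcebe5f9c1ebf33997e74e2fc7ce5f820ebf2c017e75aafc4795fc8bcbf61f57ed3fafdbd25fc118bf82c97f07dafe102) b36009 (.tok (nat_lit 6) (nat_lit 0xbf355d7e51e2fe3f05f9e72bf2a397e5b42fcb225f86b6bf1f697ea952fc6b75fe040bfa8157f4e6afec7b5fd7cabfad417f59d2fee6c) (.hit (nat_lit 1) (nat_lit 7) (nat_lit 0xbee3f97daf1afd2c25f75c0bed8d57db87afb6c95f5e04bece057e068afb25e5fc7dcbf5d9d7edceafd6f85fbc34bf7d3d7ebfc2fdcf3) b19501 (.hit (nat_lit 6) (nat_lit 15) (nat_lit 0xbeda3d7d9ba2fc7a45f70e2becf197da502fb45a5f5926bec4497df312fafef5fa44ebf586d7e8d72fd94f5faa86bf5a997eb33afd668) b19506 (.tok (nat_lit 14) (nat_lit 0xbf2fe97e46fafd9a25f9bb8bf24c57e505afc9c55f83fcbf19f57e9e6afc55a5fcf5abf75017f0e5afda835fc7d0bf92fd7eff7afe21d)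 (.hit (nat_lit 2) (nat_lit 11) (nat_lit 0xbefe697de3fafd2965f82f8bef3457ded5afbd655f6b3cbee8757e3b6afb8fa5fbf7cbf5b097ecdf2fd6c95fb762bf72617eff7afe19f) b19502 (.hit (nat_lit 7) (nat_lit 17) (nat_lit 0xbefa757ddc12fd0d05f80febeef517de572fbc685f6942bee4817e3382fb7fd5faef4bf61f57ea07afced15fa19abf42cd7e5d32fdbc7) b19507 (.one (nat_lit 9) (nat_lit 3) (nat_lit 12) (nat_lit 0xbf2fe97e46fafd9a25f9bb8bf24c57e505afc9c55f83fcbf19f57e9e6afc55a5fcf5abf75017f0e5afda835fc7d0bf92fd7ef67afe21d) b19503 (.nil)))) (.tok (nat_lit 56) (nat_lit 0xbf355d7e51e2fe3f05f9e72bf2a397e5b42fcb225f86b6bf1f697ea952fc6b75fe040bfa8157f4e6afec7b5fd7cabfad417f59d2fee6c) (.hit (nat_lit 4) (nat_lit 13) (nat_lit 0xbf14bd7e10a2fdca95f8e22bf09997e1a02fc2fa5f7666befec97e6812fbe8f5fe040bf89817f4e6afe4fc5fd7cabfad417f2cc2fea6f) b19504 (.hit (nat_lit 9) (nat_lit 19) (nat_lit 0xbf044d7defc2fd26e5f85eabef9297df922fbede5f6e2ebeee597e4732fba735fb36ebf69957eb362fd05d5fa6a6bf4a217e692afd740)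 b19509 (.one (nat_lit 6) (nat_lit 5) (nat_lit 14) (nat_lit 0xbf355d7e51e2fe3f05f9e72bf2a397e5b42fcb225f86b6bf1f697ea952fc6b75fd0bcbfa8157f3142fec7b5fd2c8bfa9f17f59d2fee6c) b19505 (.nil)))) (.one (nat_lit 68) (nat_lit 8) (nat_lit 18) (nat_lit 0xbf2ef17e450afdd565f9b3cbf23cd7e4e6afc9875f8380bf18fd7e9c7afc51c5fbfcebf82b17ee7aafd6a45fb19cbf62d57f07eafe77b) b19508 (.nil)))))) (.tok (nat_lit 52) (nat_lit 0xbf0a357dfb92fd9145f88debeff117e04f2fc0585f7122bef4417e5302fbbed5fc5dabf824d7ee79afde5f5fb30abf5d797ed8f2fe14a) (.hit (nat_lit 19) (nat_lit 39) (nat_lit 0xbefd8d7de242fcf1e5f828abef2697deba2fbd2e5f6acebee7997e39b2fb8c35fab7cbf5b4d7e93f2fc7f05f9876bf2e297e7f4afd475) b19510 (.hit (nat_lit 20) (nat_lit 40) (nat_lit 0xbf0a357dfb92fd9145f88debeff117e04f2fc0585f7122bef4417e5302fbbed5fc5dabf824d7ee79afde5f5fb30abf5d797ed8f2fe14a) b19511 (.nil))) (.tok (nat_lit 55) (nat_lit 0xbfb70d7f577afec3e5fdef4bfaf3d7fd99afeffa5fd56ebfbf517fcacafed0f600000c0000180122300000600000c000017fef42ffe53)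 (.hit (nat_lit 21) (nat_lit 41) (nat_lit 0xbfb70d7f577afec3e5fd194bf94bd7f80bafeffa5fd56ebfbf517fcacafed0f5ff35abfe2bd7fa39aff8095fede0bfd6797fd98affe53) b19512 (.tok (nat_lit 3) (nat_lit 0xbf4cb17e808afea0b5faa1cbf418d7e89eafd0f75f9260bf36bd7ed7fafcc8c5ff054bfc23d7f9302fef4a5fee4ebfdba97f5b62fefcd) (.hit (nat_lit 27) (nat_lit 47) (nat_lit 0xbf2e157e4352fea0b5f9acebf22f17e4cb2fc9505f8312bf18217e9ac2fc4e55ff054bfc23d7f9302fef4a5fee4ebfdba97f5b62fefcd) b19518 (.one (nat_lit 67) (nat_lit 28) (nat_lit 48) (nat_lit 0xbf4cb17e808afe2ad5faa1cbf418d7e89eafd0f75f9260bf36bd7ed7fafcc8c5fe690bfaba17f6b02fe2fd5fdfecbfc3557f3de2fe620) b19519 (.nil))) (.tok (nat_lit 6) (nat_lit 0xbf8cb57f3d6afe8d25fdef4bfaf3d7fd99afe6895fc28cbfa6e57f7142fe176600000c0000180122300000600000c000017fef42ffe53) (.hit (nat_lit 22) (nat_lit 42) (nat_lit 0xbf67a17ed4fafe3515fca76bf85bd7f88bafdc1f5fadb8bf7d3d7f1df2fdae35fe98abfd9c97fb98aff6a95fe63cbfd6897fb7a2ffb92)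 b19513 (.hit (nat_lit 25) (nat_lit 45) (nat_lit 0xbf2f797e461afe2155f9b80bf24557e4f7afc9a95f83c4bf19857e9d8afc53e5fe380bfb3957f518afeccf5fd5e0bfaea97f4892fee95) b19516 (.tok (nat_lit 55) (nat_lit 0xbf8cb57f3d6afe8d25fdef4bfaf3d7fd99afe6895fc28cbfa6e57f7142fe176600000c0000180122300000600000c000017fef42ffe53) (.hit (nat_lit 23) (nat_lit 43) (nat_lit 0xbf8cb57f3d6afe18f5fdef4bfaf3d7fd99afe6895fc28cbfa6e57f7142fe176600000c0000180122300000600000c000017fef42ffe53) b19514 (.hit (nat_lit 26) (nat_lit 46) (nat_lit 0xbf59a17e9a6afe8d25fb094bf4e7d7ea3cafd4335f98d8bf43ad7ef1dafcfc85fe452bfca557f7b4aff28c5fe1bebfc4717f9d22ff426) b19517 (.one (nat_lit 6) (nat_lit 24) (nat_lit 44) (nat_lit 0xbf53457e8db2fde4e5fad66bf48217e9712fd29c5f95aabf3d517ee522fce315febacbfd61d7fb4b2ff63c5fe4e8bfd3a57fa14aff740) b19515 (.nil)))) (.nil)))) (.nil)))) (.one (nat_lit 58) (nat_lit 29) (nat_lit 49) (nat_lit 0xbf2af57e3d12fe44c5f993ebf1fd17e4672fc8885f8182bf15017e9482fc41d5fd6e0bfbc057f382afeed25fd278bfa58d7f5742ff0b6)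 b19520 (.nil)))))) (.tok (nat_lit 9) (nat_lit 0xc0000180000300000600000c00001800003000006003f8c00001800003000005fe956bfe36d7fa4a2ffc405fefd4bfe22180000300000) (.hit (nat_lit 157) (nat_lit 0) (nat_lit 0xbf681d7eefeafe0845fb826bf749d7f194afd7975fa914bf6bbd7efbeafd87f5fa3c2bf50817e7dfafda905fad46bf5fc17f3062fe6b0) b19521 (.tok (nat_lit 9) (nat_lit 0xbfbc757f8a12feae35fd272bfb6117e7d6afe3e25fc5f6bfaef17f49dafeaeb5fa51abf5f3d7e808afce115f99dabf54a17f44faff72a) (.hit (nat_lit 163) (nat_lit 20) (nat_lit 0xbf3d017ed19afd15b5f9662bf31157e120afcf785fa524bf448d7e8e8afd5ec5f8be8bf298d7e15aafc0a55f80a8bf1ef17e5932fddf0) b19522 (.hit (nat_lit 171) (nat_lit 28) (nat_lit 0xbf0b117dff82fc6405f6d34bebd5d7d346afc4fb5f7f70bf20ad7e69fafc6505f7e76bed7c57ddfe2fb6425f7336bef27d7e8b02fd161) b19525 (.tok (nat_lit 14) (nat_lit 0xbfbc757f8a12feae35fd272bfb6117e7d6afe3e25fc5f6bfaef17f49dafeaeb5fa51abf5f3d7e808afce115f99dabf54a17f44faff72a)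 (.hit (nat_lit 167) (nat_lit 24) (nat_lit 0xbfaffd7f79f2feae35fd00cbf96017e3802fdca15fc114bf9e257f046afe96f5fa230bf3c897e6ecafc81f5f96f0bf39f17f3082ff20b) b19523 (.hit (nat_lit 173) (nat_lit 30) (nat_lit 0xbf7d017ee362fe38d5fa93cbf337d7dc18afe1315fb70abf916d7f49dafdeae5f9ffabf1acd7e65f2fc7045f94babf35857eb5d2fe594) b19526 (.one (nat_lit 6) (nat_lit 168) (nat_lit 25) (nat_lit 0xbfbc757f8a12fea925fd272bfb6117e7d6afe3e25fc5f6bfaef17f3a52feaeb5fa51abf5f3d7e808afce115f99dabf54a17f44faff72a) b19524 (.nil)))) (.one (nat_lit 56) (nat_lit 174) (nat_lit 31) (nat_lit 0xbf61017eab92fd8925f9a80bf17817dde52fda775faa58bf75e97f1552fda495f9a4cbf0fb17e4f3afc42d5f8f0cbf2a297f4402fe881) b19527 (.nil))))) (.tok (nat_lit 64) (nat_lit 0xbf7d817f401afe20a5fa61ebf3c417e23fafe2db5fbacebf9ef97f32cafe13c5fb43abf434d7eb6f2fd1245fa8fabf5e057f3b8afebe1) (.hit (nat_lit 182) (nat_lit 50) (nat_lit 0xbf7d817f401afddfd5fa2eebf35897e23fafe2db5fbacebf9ef97f32cafe13c5fa69cbf32857e807afca555f9b5cbf42c97f3b8afebe1)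 b19528 (.hit (nat_lit 183) (nat_lit 51) (nat_lit 0xbf73097f154afe20a5fa61ebf3c417e17aafdef75fb36abf88257f235afdee45fb43abf434d7eb6f2fd1245fa8fabf5e057f14d2fe5c6) b19529 (.nil))) (.tok (nat_lit 67) (nat_lit 0xc0000180000300000600000c00001800003000006003f8c00001800003000005fe956bfe36d7fa4a2ffc405fefd4bfe22180000300000) (.hit (nat_lit 184) (nat_lit 52) (nat_lit 0xc00001800002ff8975ff87cbfe5f1800003000005ff670c00001800003000005fe956bfe36d7fa4a2ffc405fefd4bfe22180000300000) b19530 (.tok (nat_lit 3) (nat_lit 0xbffba57fb72afe9ac600000c000017eae02ff4a66003f8bff5e97f9c1aff68e5fcba2bf77897f1492fdcd85fc062bf8cd57f6882ff5e9) (.hit (nat_lit 190) (nat_lit 58) (nat_lit 0xbfbe857f933afe6c45fefd4bfe3cd7e8d42ff4655fff8abfe6f97f9c1aff68c5fbc78bf67297ed7eafd5435fb138bf6e817f39b2ff3ac) b19533 (.one (nat_lit 55) (nat_lit 191) (nat_lit 59) (nat_lit 0xbffba57fb72afe9ac600000c000017eae02ff4a66003f8bff5e97f6962ff68e5fcba2bf77897f1492fdcd85fc062bf8cd57f6882ff5e9)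 b19534 (.nil))) (.tok (nat_lit 9) (nat_lit 0xbfe5957fa633000005fd8acbf7f497e8aaaff43c5fe214bfddfd7ff47afedb75fbbb4bf65dd7ed4dafd4e15fb074bf6cf97f9082ffbad) (.hit (nat_lit 185) (nat_lit 53) (nat_lit 0xbfe5957f798afe9315fd8acbf7f497e82eaff43c5fe214bfddfd7ff47afedb75fba90bf61fd7ed04afd44f5faf50bf6ab17f8992ffa13) b19531 (.hit (nat_lit 188) (nat_lit 56) (nat_lit 0xbf99c57fa633000005fbb4ebf67857e8aaafe8a65fc6c6bfaee17f70d2fea975fbbb4bf65dd7ed4dafd4e15fb074bf6cf97f9082ffbad) b19532 (.nil))) (.nil)))) (.one (nat_lit 70) (nat_lit 192) (nat_lit 60) (nat_lit 0xbf7d897f1692fe2035fb70cbf5ff97e2a0afe78d5fc544bfab297f66fafe46e5fb64ebf47757ebf42fd22e5fab0ebf622d7f7862ff603) b19535 (.nil)))))) (.nil))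
noncomputable def r20_247 : Rw Blk := .tok (nat_lit 6) (nat_lit 0x2f00005e0000bfc2357ffb9affe1b) (.hit (nat_lit 51) (nat_lit 0) (nat_lit 0x2f00005e0000bf715d7f2b5afe56c) b19536 (.tok (nat_lit 14) (nat_lit 0x2f00005e0000bfa6e97f65eafe906) (.hit (nat_lit 62) (nat_lit 61) (nat_lit 0x2f00005e0000bf82317f4baafdfdd) b19537 (.one (nat_lit 3) (nat_lit 63) (nat_lit 62) (nat_lit 0x2f00005e0000bf93717f10c2fe2f7) b19538 (.tok (nat_lit 6) (nat_lit 0x2f00005e0000bf81357f4182fe906) (.hit (nat_lit 66) (nat_lit 65) (nat_lit 0x2f00005e0000bf1f697ed832fd93e) b19539 (.hit (nat_lit 67) (nat_lit 66) (nat_lit 0x2f00005e0000bf81357f4182fe906) b19540 (.nil))) (.tok (nat_lit 9) (nat_lit 0x2f00005e0000bfa6e97f65eafe2f5) (.hit (nat_lit 64) (nat_lit 63) (nat_lit 0x2f00005e0000bfa6e97f65eafde8d) b19541 (.hit (nat_lit 65) (nat_lit 64) (nat_lit 0x2f00005e0000bf70d97f1c6afe2f5) b19542 (.nil))) (.nil))))) (.one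 (nat_lit 17) (nat_lit 68) (nat_lit 67) (nat_lit 0x2f00005e0000bf75b97edb1afdc9e) b19543 (.tok (nat_lit 20) (nat_lit 0x2f00005e0000bfa1b57ffb9affe1b) (.hit (nat_lit 69) (nat_lit 68) (nat_lit 0x2f00005e0000bfa1b57ffb9affe1b) b19546 (.hit (nat_lit 70) (nat_lit 69) (nat_lit 0x2f00005e0000bf7b5d7ee692fde0d) b19547 (.nil))) (.tok (nat_lit 23) (nat_lit 0x2f00005e0000bf65897ed03afdb1f) (.hit (nat_lit 71) (nat_lit 70) (nat_lit 0x2f00005e0000becf857e386afc545) b19544 (.hit (nat_lit 72) (nat_lit 71) (nat_lit 0x2f00005e0000bf65897ed03afdb1f) b19545 (.nil))) (.one (nat_lit 26) (nat_lit 73) (nat_lit 72) (nat_lit 0x2f00005e0000bf3b8d7e68b2fce13) b19548 (.one (nat_lit 29) (nat_lit 74) (nat_lit 73) (nat_lit 0x2f00005e0000bf22c17e6a42fce31) b19549 (.one (nat_lit 32) (nat_lit 75) (nat_lit 74) (nat_lit 0x2f00005e0000bf2ac57e4952fca65) b19551 (.one (nat_lit 35) (nat_lit 76) (nat_lit 75) (nat_lit 0x2f00005e0000bf4e657ea96afd661)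 b19550 (.one (nat_lit 50) (nat_lit 84) (nat_lit 83) (nat_lit 0x2f00005e0000bf72757ed492fdbcd) b19561 (.tok (nat_lit 53) (nat_lit 0x2f00005e0000bf85257efaf2fe099) (.hit (nat_lit 85) (nat_lit 84) (nat_lit 0x2f00005e0000bf5b357ee122fdb97) b19562 (.hit (nat_lit 86) (nat_lit 85) (nat_lit 0x2f00005e0000bf85257efaf2fe099) b19563 (.nil))) (.tok (nat_lit 56) (nat_lit 0x2f00005e0000bfc2357fdbc2ffd17) (.hit (nat_lit 87) (nat_lit 86) (nat_lit 0x2f00005e0000bfc2357fcc82ffb5f) b19564 (.one (nat_lit 3) (nat_lit 91) (nat_lit 90) (nat_lit 0x2f00005e0000bfa4517f62fafee5d) b19568 (.tok (nat_lit 6) (nat_lit 0x2f00005e0000bfadb57fc2aafe9d9) (.hit (nat_lit 89) (nat_lit 88) (nat_lit 0x2f00005e0000bfadb57fc2aafe9d9) b19566 (.hit (nat_lit 90) (nat_lit 89) (nat_lit 0x2f00005e0000bf84b17edc52fdd12) b19567 (.nil))) (.one (nat_lit 9) (nat_lit 88) (nat_lit 87) (nat_lit 0x2f00005e0000bfc1057fdbc2ffd17) b19565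 (.nil))))) (.one (nat_lit 59) (nat_lit 92) (nat_lit 91) (nat_lit 0x2f00005e0000bf58457ea032fd541) b19569 (.one (nat_lit 62) (nat_lit 93) (nat_lit 92) (nat_lit 0x2f00005e0000bf50e57e938afd369) b19552 (.tok (nat_lit 65) (nat_lit 0x2f00005e0000bf72397ed47afdbca) (.hit (nat_lit 94) (nat_lit 93) (nat_lit 0x2f00005e0000bf5a417e9642fd349) b19553 (.hit (nat_lit 95) (nat_lit 94) (nat_lit 0x2f00005e0000bf72397ed47afdbca) b19554 (.nil))) (.tok (nat_lit 68) (nat_lit 0x2f00005e0000bf86057f3ec2fe9f7) (.hit (nat_lit 96) (nat_lit 95) (nat_lit 0x2f00005e0000bf86057f3ec2fe9f7) b19555 (.one (nat_lit 3) (nat_lit 100) (nat_lit 99) (nat_lit 0x2f00005e0000bedcfd7e535afc8a3) b19559 (.one (nat_lit 6) (nat_lit 97) (nat_lit 96) (nat_lit 0x2f00005e0000befca97e92b2fd08e) b19556 (.tok (nat_lit 9) (nat_lit 0x2f00005e0000bf07897ea872fd346) (.hit (nat_lit 98) (nat_lit 97) (nat_lit 0x2f00005e0000bf07897ea872fd346)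 b19557 (.hit (nat_lit 99) (nat_lit 98) (nat_lit 0x2f00005e0000bef25d7e7e1afcdfb) b19558 (.nil))) (.nil))))) (.one (nat_lit 71) (nat_lit 101) (nat_lit 100) (nat_lit 0x2f00005e0000bf53057e95aafd3f1) b19560 (.nil)))))))))))))))))) (.tok (nat_lit 52) (nat_lit 0x2f00005e0000c000017ff1e2ffc33) (.hit (nat_lit 225) (nat_lit 0) (nat_lit 0x2f00005e0000c000017fb30aff663) b19570 (.tok (nat_lit 6) (nat_lit 0x2f00005e0000bfe9c57ff1e2ffc33) (.hit (nat_lit 226) (nat_lit 7) (nat_lit 0x2f00005e0000bfe9c57ff1e2ffc33) b19573 (.hit (nat_lit 227) (nat_lit 15) (nat_lit 0x2f00005e0000bfa6d57f630afecab) b19574 (.nil))) (.tok (nat_lit 9) (nat_lit 0x2f00005e0000bfb2f17f88caff23c) (.hit (nat_lit 228) (nat_lit 20) (nat_lit 0x2f00005e0000bf60797edbaafe31c) b19571 (.hit (nat_lit 229) (nat_lit 28) (nat_lit 0x2f00005e0000bfb2f17f88caff23c) b19572 (.nil))) (.nil)))) (.tok (nat_lit 55) (nat_lit 0x2f00005e0000bfb59d7f8372ff815)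 (.hit (nat_lit 250) (nat_lit 0) (nat_lit 0x2f00005e0000bfb59d7f733aff0f6) b19583 (.tok (nat_lit 3) (nat_lit 0x2f00005e0000bfb45d7f8372ff815) (.hit (nat_lit 251) (nat_lit 1) (nat_lit 0x2f00005e0000bf48217eaafafdd06) b19584 (.one (nat_lit 67) (nat_lit 252) (nat_lit 2) (nat_lit 0x2f00005e0000bfb45d7f8372ff815) b19585 (.nil))) (.tok (nat_lit 6) (nat_lit 0x2f00005e0000bf92d17f405afefb2) (.hit (nat_lit 253) (nat_lit 7) (nat_lit 0x2f00005e0000bf602d7edb12fe309) b19586 (.hit (nat_lit 256) (nat_lit 15) (nat_lit 0x2f00005e0000bf43d57ea262fdbf3) b19589 (.tok (nat_lit 55) (nat_lit 0x2f00005e0000bf92d17f405afefb2) (.hit (nat_lit 254) (nat_lit 8) (nat_lit 0x2f00005e0000bf6f797ef9aafe6dc) b19587 (.hit (nat_lit 257) (nat_lit 16) (nat_lit 0x2f00005e0000bf92d17f405afefb2) b19590 (.one (nat_lit 6) (nat_lit 255) (nat_lit 9) (nat_lit 0x2f00005e0000bf88a97f2c0afed28) b19588 (.nil)))) (.nil)))) (.nil))))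 (.tok (nat_lit 58) (nat_lit 0x2f00005e0000bffcc580144300a2f) (.hit (nat_lit 236) (nat_lit 0) (nat_lit 0x2f00005e0000bfdffd7fb8f2ff897) b19575 (.tok (nat_lit 3) (nat_lit 0x2f00005e0000bfce6d7fb792ffe99) (.hit (nat_lit 237) (nat_lit 1) (nat_lit 0x2f00005e0000bf46797ea7aafdc9c) b19576 (.one (nat_lit 55) (nat_lit 238) (nat_lit 3) (nat_lit 0x2f00005e0000bfce6d7fb792ffe99) b19577 (.nil))) (.tok (nat_lit 9) (nat_lit 0x2f00005e0000bffcc580144300a2f) (.hit (nat_lit 239) (nat_lit 20) (nat_lit 0x2f00005e0000bf7b3d7f1132fe9cd) b19578 (.hit (nat_lit 242) (nat_lit 28) (nat_lit 0x2f00005e0000bf5e317ed71afe28a) b19581 (.tok (nat_lit 67) (nat_lit 0x2f00005e0000bffcc580144300a2f) (.hit (nat_lit 240) (nat_lit 21) (nat_lit 0x2f00005e0000bfa7897f69caff4e0) b19579 (.hit (nat_lit 243) (nat_lit 29) (nat_lit 0x2f00005e0000bfba357f8f22ff98b) b19582 (.one (nat_lit 9) (nat_lit 241) (nat_lit 22) (nat_lit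 0x2f00005e0000bffcc580144300a2f) b19580 (.nil)))) (.nil)))) (.nil)))) (.nil))))
noncomputable def r20_248 : Rw Blk := .tok (nat_lit 3) (nat_lit 0x2f00005e0000c01e597f16caff303) (.hit (nat_lit 15) (nat_lit 0) (nat_lit 0x2f00005e0000bfb9fd7e9dbafe77a) b19602 (.tok (nat_lit 9) (nat_lit 0x2f00005e0000bf935d7ded92fd1aa) (.hit (nat_lit 16) (nat_lit 20) (nat_lit 0x2f00005e0000bf48317d573afbedf) b19603 (.hit (nat_lit 21) (nat_lit 28) (nat_lit 0x2f00005e0000bee9297c992afa71d) b19606 (.one (nat_lit 56) (nat_lit 23) (nat_lit 31) (nat_lit 0x2f00005e0000bf63d57d8e82fc5c8) b19607 (.tok (nat_lit 68) (nat_lit 0x2f00005e0000bf935d7ded92fd1aa) (.hit (nat_lit 19) (nat_lit 26) (nat_lit 0x2f00005e0000bf69357d9942fc720) b19604 (.hit (nat_lit 24) (nat_lit 32) (nat_lit 0x2f00005e0000bf6ca17da01afc7fb) b19608 (.one (nat_lit 9) (nat_lit 20) (nat_lit 27) (nat_lit 0x2f00005e0000bf935d7ded92fd1aa) b19605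 (.nil)))) (.nil))))) (.tok (nat_lit 64) (nat_lit 0x2f00005e0000bf96f17df4bafd28f) (.hit (nat_lit 25) (nat_lit 50) (nat_lit 0x2f00005e0000bf62597d8b8afc569) b19609 (.hit (nat_lit 26) (nat_lit 51) (nat_lit 0x2f00005e0000bf96f17df4bafd28f) b19610 (.nil))) (.tok (nat_lit 67) (nat_lit 0x2f00005e0000c01e597f16caff303) (.hit (nat_lit 27) (nat_lit 52) (nat_lit 0x2f00005e0000c01e597f16caff303) b19611 (.one (nat_lit 3) (nat_lit 33) (nat_lit 58) (nat_lit 0x2f00005e0000bf97557df582fd2a8) b19617 (.tok (nat_lit 9) (nat_lit 0x2f00005e0000bfa23d7e0b52fd562) (.hit (nat_lit 28) (nat_lit 53) (nat_lit 0x2f00005e0000bf79d17dba7afcb47) b19612 (.hit (nat_lit 31) (nat_lit 56) (nat_lit 0x2f00005e0000bf86ad7dd432fce7e) b19615 (.tok (nat_lit 67) (nat_lit 0x2f00005e0000bfa23d7e0b52fd562) (.hit (nat_lit 29) (nat_lit 54) (nat_lit 0x2f00005e0000bfa23d7e0b52fd562) b19613 (.hit (nat_lit 32) (nat_lit 57) (nat_lit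 0x2f00005e0000bf9e497e036afd465) b19616 (.one (nat_lit 9) (nat_lit 30) (nat_lit 55) (nat_lit 0x2f00005e0000bf77157db502fca98) b19614 (.nil)))) (.nil)))) (.nil)))) (.one (nat_lit 70) (nat_lit 35) (nat_lit 60) (nat_lit 0x2f00005e0000bf92857debe2fd174) b19618 (.nil)))))) (.tok (nat_lit 6) (nat_lit 0x2f00005e0000c08c498089eb031c8) (.hit (nat_lit 0) (nat_lit 0) (nat_lit 0x2f00005e0000c02f157f21b3002b6) b19591 (.tok (nat_lit 6) (nat_lit 0x2f00005e0000bfcd917ed122ff715) (.hit (nat_lit 1) (nat_lit 7) (nat_lit 0x2f00005e0000bfa42d7e6a9afe940) b19592 (.hit (nat_lit 4) (nat_lit 15) (nat_lit 0x2f00005e0000bf86317dfd0afdac5) b19593 (.one (nat_lit 68) (nat_lit 6) (nat_lit 18) (nat_lit 0x2f00005e0000bfcd917ed122ff715) b19594 (.nil)))) (.tok (nat_lit 52) (nat_lit 0x2f00005e0000c04da57fdcf301523) (.hit (nat_lit 7) (nat_lit 39) (nat_lit 0x2f00005e0000c026197f61bb0049b) b19595 (.hit (nat_lit 8)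 (nat_lit 40) (nat_lit 0x2f00005e0000c04da57fdcf301523) b19596 (.nil))) (.tok (nat_lit 55) (nat_lit 0x2f00005e0000c076398089eb01ce1) (.hit (nat_lit 9) (nat_lit 41) (nat_lit 0x2f00005e0000c076398089eb01ce1) b19597 (.one (nat_lit 3) (nat_lit 12) (nat_lit 47) (nat_lit 0x2f00005e0000c04ce97fee03012a8) b19600 (.tok (nat_lit 6) (nat_lit 0x2f00005e0000c007a57f596b009c9) (.hit (nat_lit 10) (nat_lit 42) (nat_lit 0x2f00005e0000bfd4fd7f596b009c9) b19598 (.hit (nat_lit 11) (nat_lit 45) (nat_lit 0x2f00005e0000c007a57f48bb0028f) b19599 (.nil))) (.nil)))) (.one (nat_lit 58) (nat_lit 14) (nat_lit 49) (nat_lit 0x2f00005e0000c08c49807d8b031c8) b19601 (.nil)))))) (.nil))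
noncomputable def r20_249 : Rw Blk := .tok (nat_lit 9) (nat_lit 0x5e0000bc000180a23b01690) (.hit (nat_lit 0) (nat_lit 0) (nat_lit 0x5e0000bc00017ee4c2ff5e1) b19619 (.tok (nat_lit 14) (nat_lit 0x5e0000bc00017fb03b00a0c) (.hit (nat_lit 21) (nat_lit 61) (nat_lit 0x5e0000bc00017f90eaffaf9) b19620 (.one (nat_lit 3) (nat_lit 22) (nat_lit 62) (nat_lit 0x5e0000bc00017f8deb00258) b19621 (.tok (nat_lit 6) (nat_lit 0x5e0000bc00017fb03b00a0c) (.hit (nat_lit 25) (nat_lit 65) (nat_lit 0x5e0000bc00017fb03b00a0c) b19622 (.hit (nat_lit 26) (nat_lit 66) (nat_lit 0x5e0000bc00017e9cc2fe862) b19623 (.nil))) (.tok (nat_lit 9) (nat_lit 0x5e0000bc00017f48a2ffadd) (.hit (nat_lit 23) (nat_lit 63) (nat_lit 0x5e0000bc00017e6e42fe01c) b19624 (.hit (nat_lit 24) (nat_lit 64) (nat_lit 0x5e0000bc00017f48a2ffadd) b19625 (.nil))) (.nil))))) (.one (nat_lit 17) (nat_lit 27) (nat_lit 67) (nat_lit 0x5e0000bc00017efc2aff97b)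 b19626 (.tok (nat_lit 20) (nat_lit 0x5e0000bc00017ec28afec2d) (.hit (nat_lit 28) (nat_lit 68) (nat_lit 0x5e0000bc00017de85afcf5f) b19629 (.hit (nat_lit 29) (nat_lit 69) (nat_lit 0x5e0000bc00017ec28afec2d) b19630 (.nil))) (.tok (nat_lit 23) (nat_lit 0x5e0000bc000180a23b01690) (.hit (nat_lit 30) (nat_lit 70) (nat_lit 0x5e0000bc000180a23b01690) b19627 (.hit (nat_lit 31) (nat_lit 71) (nat_lit 0x5e0000bc00017ed642feb74) b19628 (.nil))) (.one (nat_lit 26) (nat_lit 32) (nat_lit 72) (nat_lit 0x5e0000bc00017e8792fe200) b19631 (.one (nat_lit 29) (nat_lit 33) (nat_lit 73) (nat_lit 0x5e0000bc00017f003afefa8) b19632 (.one (nat_lit 32) (nat_lit 34) (nat_lit 74) (nat_lit 0x5e0000bc00017ecf72ff147) b19634 (.one (nat_lit 35) (nat_lit 35) (nat_lit 75) (nat_lit 0x5e0000bc00017e4b3afda13) b19633 (.one (nat_lit 38) (nat_lit 36) (nat_lit 76) (nat_lit 0x5e0000bc00017eb2c2fe717) b19635 (.tok (nat_lit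 41) (nat_lit 0x5e0000bc00017efb5aff017) (.hit (nat_lit 37) (nat_lit 77) (nat_lit 0x5e0000bc00017ed33afe83d) b19636 (.hit (nat_lit 38) (nat_lit 78) (nat_lit 0x5e0000bc00017efb5aff017) b19637 (.nil))) (.tok (nat_lit 44) (nat_lit 0x5e0000bc00017ef0caffcc1) (.hit (nat_lit 39) (nat_lit 79) (nat_lit 0x5e0000bc00017dad12fc7f6) b19640 (.hit (nat_lit 40) (nat_lit 80) (nat_lit 0x5e0000bc00017ef0caffcc1) b19641 (.nil))) (.tok (nat_lit 47) (nat_lit 0x5e0000bc00017f5a92fedfe) (.hit (nat_lit 41) (nat_lit 81) (nat_lit 0x5e0000bc00017f5a92fedfe) b19638 (.hit (nat_lit 42) (nat_lit 82) (nat_lit 0x5e0000bc00017eaf82fde7c) b19639 (.nil))) (.one (nat_lit 50) (nat_lit 43) (nat_lit 83) (nat_lit 0x5e0000bc00017e880afe1ad) b19642 (.tok (nat_lit 53) (nat_lit 0x5e0000bc00017f0d22fe941) (.hit (nat_lit 44) (nat_lit 84) (nat_lit 0x5e0000bc00017f0d22fe781) b19643 (.hit (nat_lit 45) (nat_lit 85) (nat_lit 0x5e0000bc00017eadfafe941)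 b19644 (.nil))) (.tok (nat_lit 56) (nat_lit 0x5e0000bc00017ed6eaff0ab) (.hit (nat_lit 46) (nat_lit 86) (nat_lit 0x5e0000bc00017ed6eaff0ab) b19645 (.one (nat_lit 3) (nat_lit 50) (nat_lit 90) (nat_lit 0x5e0000bc00017de472fcee2) b19649 (.tok (nat_lit 6) (nat_lit 0x5e0000bc00017e74eafe0f1) (.hit (nat_lit 48) (nat_lit 88) (nat_lit 0x5e0000bc00017e74eafe0f1) b19647 (.hit (nat_lit 49) (nat_lit 89) (nat_lit 0x5e0000bc00017e325afd89f) b19648 (.nil))) (.one (nat_lit 9) (nat_lit 47) (nat_lit 87) (nat_lit 0x5e0000bc00017e058afd305) b19646 (.nil))))) (.one (nat_lit 59) (nat_lit 51) (nat_lit 91) (nat_lit 0x5e0000bc00017ebd1afebf9) b19650 (.nil)))))))))))))))))) (.tok (nat_lit 64) (nat_lit 0x5e0000bc00018041f300df6) (.hit (nat_lit 176) (nat_lit 0) (nat_lit 0x5e0000bc00018041f300df6) b19651 (.tok (nat_lit 6) (nat_lit 0x5e0000bc00017f65aafff02) (.hit (nat_lit 177) (nat_lit 7) (nat_lit 0x5e0000bc00017ec612ff15c)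 b19654 (.hit (nat_lit 178) (nat_lit 15) (nat_lit 0x5e0000bc00017f65aafff02) b19655 (.nil))) (.tok (nat_lit 9) (nat_lit 0x5e0000bc00017fae7afffd2) (.hit (nat_lit 179) (nat_lit 20) (nat_lit 0x5e0000bc00017fae7afffd2) b19652 (.hit (nat_lit 180) (nat_lit 28) (nat_lit 0x5e0000bc00017f2a62ff0f9) b19653 (.nil))) (.nil)))) (.tok (nat_lit 67) (nat_lit 0x5e0000bc00017f44eaffa85) (.hit (nat_lit 201) (nat_lit 0) (nat_lit 0x5e0000bc00017f44eaffa85) b19656 (.tok (nat_lit 3) (nat_lit 0x5e0000bc00017efb02ff7fa) (.hit (nat_lit 202) (nat_lit 1) (nat_lit 0x5e0000bc00017e45e2fe156) b19657 (.one (nat_lit 55) (nat_lit 203) (nat_lit 3) (nat_lit 0x5e0000bc00017efb02ff7fa) b19658 (.nil))) (.tok (nat_lit 9) (nat_lit 0x5e0000bc00017e9a0afebdb) (.hit (nat_lit 204) (nat_lit 20) (nat_lit 0x5e0000bc00017e9a0afebdb) b19659 (.hit (nat_lit 207) (nat_lit 28) (nat_lit 0x5e0000bc00017e4c92fe22c) b19660 (.nil))) (.nil))))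 (.tok (nat_lit 70) (nat_lit 0x5e0000bc00017f9bbb00c11) (.hit (nat_lit 187) (nat_lit 0) (nat_lit 0x5e0000bc00017f522b000a6) b19661 (.tok (nat_lit 3) (nat_lit 0x5e0000bc00017f5283002ea) (.hit (nat_lit 188) (nat_lit 1) (nat_lit 0x5e0000bc00017e85cafe953) b19662 (.one (nat_lit 67) (nat_lit 189) (nat_lit 2) (nat_lit 0x5e0000bc00017f5283002ea) b19663 (.nil))) (.tok (nat_lit 6) (nat_lit 0x5e0000bc00017f9bbb00c11) (.hit (nat_lit 190) (nat_lit 7) (nat_lit 0x5e0000bc00017e9562feb46) b19664 (.hit (nat_lit 193) (nat_lit 15) (nat_lit 0x5e0000bc00017e96cafeb73) b19667 (.tok (nat_lit 55) (nat_lit 0x5e0000bc00017f9bbb00c11) (.hit (nat_lit 191) (nat_lit 8) (nat_lit 0x5e0000bc00017efd1aff83d) b19665 (.hit (nat_lit 194) (nat_lit 16) (nat_lit 0x5e0000bc00017f68a3005ae) b19668 (.one (nat_lit 6) (nat_lit 192) (nat_lit 9) (nat_lit 0x5e0000bc00017f9bbb00c11) b19666 (.nil)))) (.nil)))) (.nil)))) (.nil))))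
noncomputable def r20_250 : Rw Blk := .tok (nat_lit 3) (nat_lit 0x5e0000bc000180ad6b0248e) (.hit (nat_lit 15) (nat_lit 0) (nat_lit 0x5e0000bc00018009b300fe8) b19676 (.tok (nat_lit 6) (nat_lit 0x5e0000bc00017f744affa2e) (.hit (nat_lit 16) (nat_lit 7) (nat_lit 0x5e0000bc00017e4fc2fd3c5) b19677 (.hit (nat_lit 21) (nat_lit 15) (nat_lit 0x5e0000bc00017eb0b2fe3e9) b19682 (.tok (nat_lit 14) (nat_lit 0x5e0000bc00017f744affa2e) (.hit (nat_lit 17) (nat_lit 11) (nat_lit 0x5e0000bc00017eda62fe519) b19678 (.hit (nat_lit 22) (nat_lit 17) (nat_lit 0x5e0000bc00017f744affa2e) b19683 (.one (nat_lit 9) (nat_lit 18) (nat_lit 12) (nat_lit 0x5e0000bc00017f6862ff6d9) b19679 (.nil)))) (.tok (nat_lit 56) (nat_lit 0x5e0000bc00017f42e2ff261) (.hit (nat_lit 19) (nat_lit 13) (nat_lit 0x5e0000bc00017ed7fafe4cc) b19680 (.hit (nat_lit 24) (nat_lit 19) (nat_lit 0x5e0000bc00017f42e2ff261) b19684 (.one (nat_lit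 6) (nat_lit 20) (nat_lit 14) (nat_lit 0x5e0000bc00017f350aff06e) b19681 (.nil)))) (.nil))))) (.tok (nat_lit 52) (nat_lit 0x5e0000bc00017f6f0aff9ed) (.hit (nat_lit 25) (nat_lit 39) (nat_lit 0x5e0000bc00017f59baff9ed) b19685 (.hit (nat_lit 26) (nat_lit 40) (nat_lit 0x5e0000bc00017f6f0aff5f5) b19686 (.nil))) (.tok (nat_lit 55) (nat_lit 0x5e0000bc00018087330248e) (.hit (nat_lit 27) (nat_lit 41) (nat_lit 0x5e0000bc00018087330248e) b19687 (.tok (nat_lit 3) (nat_lit 0x5e0000bc00017fc5930027f) (.hit (nat_lit 33) (nat_lit 47) (nat_lit 0x5e0000bc00017f2e0afef8e) b19693 (.one (nat_lit 67) (nat_lit 34) (nat_lit 48) (nat_lit 0x5e0000bc00017fc5930027f) b19694 (.nil))) (.tok (nat_lit 6) (nat_lit 0x5e0000bc00017f6dc2ff785) (.hit (nat_lit 28) (nat_lit 42) (nat_lit 0x5e0000bc00017f355aff078) b19688 (.hit (nat_lit 31) (nat_lit 45) (nat_lit 0x5e0000bc00017f1a4afed16) b19691 (.tok (nat_lit 55) (nat_lit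 0x5e0000bc00017f6dc2ff785) (.hit (nat_lit 29) (nat_lit 43) (nat_lit 0x5e0000bc00017f6dc2ff785) b19689 (.hit (nat_lit 32) (nat_lit 46) (nat_lit 0x5e0000bc00017f697aff6fc) b19692 (.one (nat_lit 6) (nat_lit 30) (nat_lit 44) (nat_lit 0x5e0000bc00017f122afec12) b19690 (.nil)))) (.nil)))) (.nil)))) (.one (nat_lit 58) (nat_lit 35) (nat_lit 49) (nat_lit 0x5e0000bc000180ad6b02063) b19695 (.nil)))))) (.tok (nat_lit 9) (nat_lit 0x5e0000bc0001812643032a4) (.hit (nat_lit 0) (nat_lit 0) (nat_lit 0x5e0000bc0001806c0300f8d) b19669 (.tok (nat_lit 9) (nat_lit 0x5e0000bc0001812643032a4) (.hit (nat_lit 1) (nat_lit 20) (nat_lit 0x5e0000bc00017eef3afe4ef) b19670 (.hit (nat_lit 4) (nat_lit 28) (nat_lit 0x5e0000bc00017f6492fea76) b19673 (.tok (nat_lit 14) (nat_lit 0x5e0000bc0001812643032a4) (.hit (nat_lit 2) (nat_lit 24) (nat_lit 0x5e0000bc00017fdd5300955) b19671 (.hit (nat_lit 5) (nat_lit 30) (nat_lit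 0x5e0000bc00017fcb2300364) b19674 (.one (nat_lit 6) (nat_lit 3) (nat_lit 25) (nat_lit 0x5e0000bc0001812643032a4) b19672 (.nil)))) (.one (nat_lit 56) (nat_lit 6) (nat_lit 31) (nat_lit 0x5e0000bc00018049fb00608) b19675 (.nil))))) (.nil))) (.nil))
noncomputable def r20_251 : Rw Blk := .tok (nat_lit 9) (nat_lit 0x5e0000bc000182903b03d97) (.hit (nat_lit 0) (nat_lit 0) (nat_lit 0x5e0000bc00017ff6aafe843) b19696 (.tok (nat_lit 14) (nat_lit 0x5e0000bc000181cb0302be4) (.hit (nat_lit 1) (nat_lit 61) (nat_lit 0x5e0000bc0001805f8300348) b19697 (.one (nat_lit 3) (nat_lit 2) (nat_lit 62) (nat_lit 0x5e0000bc00017fdcb2ff49d) b19698 (.tok (nat_lit 6) (nat_lit 0x5e0000bc000181cb0302be4) (.hit (nat_lit 5) (nat_lit 65) (nat_lit 0x5e0000bc000181cb0302be4) b19699 (.hit (nat_lit 6) (nat_lit 66) (nat_lit 0x5e0000bc0001804952ff78e) b19700 (.nil))) (.tok (nat_lit 9) (nat_lit 0x5e0000bc00017fbd5afe160)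 (.hit (nat_lit 3) (nat_lit 63) (nat_lit 0x5e0000bc00017fbd5afe121) b19701 (.hit (nat_lit 4) (nat_lit 64) (nat_lit 0x5e0000bc00017fb842fe160) b19702 (.nil))) (.nil))))) (.one (nat_lit 17) (nat_lit 7) (nat_lit 67) (nat_lit 0x5e0000bc00017f303afdbf1) b19703 (.tok (nat_lit 20) (nat_lit 0x5e0000bc00017f9eaafdf9c) (.hit (nat_lit 8) (nat_lit 68) (nat_lit 0x5e0000bc00017f6b72fd6e4) b19706 (.hit (nat_lit 9) (nat_lit 69) (nat_lit 0x5e0000bc00017f9eaafdf9c) b19707 (.nil))) (.tok (nat_lit 23) (nat_lit 0x5e0000bc000182903b03d97) (.hit (nat_lit 10) (nat_lit 70) (nat_lit 0x5e0000bc000182903b03d97) b19704 (.hit (nat_lit 11) (nat_lit 71) (nat_lit 0x5e0000bc00017f7cdafd6d6) b19705 (.nil))) (.one (nat_lit 38) (nat_lit 16) (nat_lit 76) (nat_lit 0x5e0000bc00017f8002fd826) b19708 (.tok (nat_lit 41) (nat_lit 0x5e0000bc00017f38e2fd94a) (.hit (nat_lit 17) (nat_lit 77) (nat_lit 0x5e0000bc00017f3482fd7c6)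 b19709 (.hit (nat_lit 18) (nat_lit 78) (nat_lit 0x5e0000bc00017f38e2fd94a) b19710 (.nil))) (.tok (nat_lit 44) (nat_lit 0x5e0000bc00017f85eafe029) (.hit (nat_lit 19) (nat_lit 79) (nat_lit 0x5e0000bc00017eee5afc741) b19713 (.hit (nat_lit 20) (nat_lit 80) (nat_lit 0x5e0000bc00017f85eafe029) b19714 (.nil))) (.tok (nat_lit 47) (nat_lit 0x5e0000bc000180257afe1bb) (.hit (nat_lit 21) (nat_lit 81) (nat_lit 0x5e0000bc000180257afe1bb) b19711 (.hit (nat_lit 22) (nat_lit 82) (nat_lit 0x5e0000bc00017f1e7afce2e) b19712 (.nil))) (.one (nat_lit 50) (nat_lit 23) (nat_lit 83) (nat_lit 0x5e0000bc00017fd652fe759) b19715 (.tok (nat_lit 53) (nat_lit 0x5e0000bc00017f6de2fd889) (.hit (nat_lit 24) (nat_lit 84) (nat_lit 0x5e0000bc00017f6de2fd889) b19716 (.hit (nat_lit 25) (nat_lit 85) (nat_lit 0x5e0000bc00017f3c9afd372) b19717 (.nil))) (.tok (nat_lit 56) (nat_lit 0x5e0000bc0001808352ff81f) (.hit (nat_lit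 26) (nat_lit 86) (nat_lit 0x5e0000bc0001808352ff81f) b19718 (.one (nat_lit 3) (nat_lit 30) (nat_lit 90) (nat_lit 0x5e0000bc00017fab92fdee8) b19722 (.tok (nat_lit 6) (nat_lit 0x5e0000bc00017f985afdc81) (.hit (nat_lit 28) (nat_lit 88) (nat_lit 0x5e0000bc00017f985afdc81) b19720 (.hit (nat_lit 29) (nat_lit 89) (nat_lit 0x5e0000bc00017f3d4afd11f) b19721 (.nil))) (.one (nat_lit 9) (nat_lit 27) (nat_lit 87) (nat_lit 0x5e0000bc00017f84fafda15) b19719 (.nil))))) (.one (nat_lit 59) (nat_lit 31) (nat_lit 91) (nat_lit 0x5e0000bc00017f2672fd2b0) b19723 (.nil)))))))))))))) (.nil)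
noncomputable def r20_252 : Rw Blk := .tok (nat_lit 9) (nat_lit 0x2f00005e0000bfd2e5803592ff7a5) (.hit (nat_lit 0) (nat_lit 0) (nat_lit 0x2f00005e0000bf78917f4602fe812) b19724 (.tok (nat_lit 14) (nat_lit 0x2f00005e0000bfcdd1803592ff53b) (.hit (nat_lit 21) (nat_lit 61) (nat_lit 0x2f00005e0000bf8aa97f881afee87) b19725 (.one (nat_lit 3) (nat_lit 22) (nat_lit 62) (nat_lit 0x2f00005e0000bf81057f2eeafe825) b19726 (.tok (nat_lit 6) (nat_lit 0x2f00005e0000bfcdd1803592ff53b) (.hit (nat_lit 25) (nat_lit 65) (nat_lit 0x2f00005e0000bfcdd1803592ff53b) b19727 (.hit (nat_lit 26) (nat_lit 66) (nat_lit 0x2f00005e0000bf6f5d7f39bafe573) b19728 (.nil))) (.tok (nat_lit 9) (nat_lit 0x2f00005e0000bfcb017f88a2ff395) (.hit (nat_lit 23) (nat_lit 63) (nat_lit 0x2f00005e0000bf565d7ebe5afd7bf) b19729 (.hit (nat_lit 24) (nat_lit 64) (nat_lit 0x2f00005e0000bfcb017f88a2ff395) b19730 (.nil))) (.nil))))) (.one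 (nat_lit 17) (nat_lit 27) (nat_lit 67) (nat_lit 0x2f00005e0000bf6aa97ee66afe010) b19731 (.tok (nat_lit 20) (nat_lit 0x2f00005e0000bf77217ee35afdfba) (.hit (nat_lit 28) (nat_lit 68) (nat_lit 0x2f00005e0000bf38617e8262fd040) b19734 (.hit (nat_lit 29) (nat_lit 69) (nat_lit 0x2f00005e0000bf77217ee35afdfba) b19735 (.nil))) (.tok (nat_lit 23) (nat_lit 0x2f00005e0000bfd2e57f9ec2ff7a5) (.hit (nat_lit 30) (nat_lit 70) (nat_lit 0x2f00005e0000bfd2e57f9ec2ff7a5) b19732 (.hit (nat_lit 31) (nat_lit 71) (nat_lit 0x2f00005e0000bf6c1d7eccfafdce2) b19733 (.nil))) (.one (nat_lit 26) (nat_lit 32) (nat_lit 72) (nat_lit 0x2f00005e0000bf5de97eaa6afd890) b19736 (.one (nat_lit 29) (nat_lit 33) (nat_lit 73) (nat_lit 0x2f00005e0000bf5fc57eace2fd8df) b19737 (.one (nat_lit 32) (nat_lit 34) (nat_lit 74) (nat_lit 0x2f00005e0000bf60f17ed83afde4e) b19739 (.one (nat_lit 35) (nat_lit 35) (nat_lit 75) (nat_lit 0x2f00005e0000bf345d7e5d7afcef2)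 b19738 (.one (nat_lit 38) (nat_lit 36) (nat_lit 76) (nat_lit 0x2f00005e0000bf6a317eccd2fdcdd) b19740 (.tok (nat_lit 41) (nat_lit 0x2f00005e0000bf6c6d7eceaafdd18) (.hit (nat_lit 37) (nat_lit 77) (nat_lit 0x2f00005e0000bf66b17e90e2fd409) b19741 (.hit (nat_lit 38) (nat_lit 78) (nat_lit 0x2f00005e0000bf6c6d7eceaafdd18) b19742 (.nil))) (.tok (nat_lit 44) (nat_lit 0x2f00005e0000bf6ad17eee82fe113) (.hit (nat_lit 39) (nat_lit 79) (nat_lit 0x2f00005e0000beaf317d7002fadf4) b19745 (.hit (nat_lit 40) (nat_lit 80) (nat_lit 0x2f00005e0000bf6ad17eee82fe113) b19746 (.nil))) (.tok (nat_lit 47) (nat_lit 0x2f00005e0000bf88697f39c2febb8) (.hit (nat_lit 41) (nat_lit 81) (nat_lit 0x2f00005e0000bf88697f39c2febb8) b19743 (.hit (nat_lit 42) (nat_lit 82) (nat_lit 0x2f00005e0000bf625d7eb97afda72) b19744 (.nil))) (.one (nat_lit 50) (nat_lit 43) (nat_lit 83) (nat_lit 0x2f00005e0000bf65017ebec2fdb1b) b19747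 (.tok (nat_lit 53) (nat_lit 0x2f00005e0000bf66e97ec732fdc32) (.hit (nat_lit 44) (nat_lit 84) (nat_lit 0x2f00005e0000bf39157e9aaafd3fd) b19748 (.hit (nat_lit 45) (nat_lit 85) (nat_lit 0x2f00005e0000bf66e97ec732fdc32) b19749 (.nil))) (.tok (nat_lit 56) (nat_lit 0x2f00005e0000bf7c017f6fa2ff28e) (.hit (nat_lit 46) (nat_lit 86) (nat_lit 0x2f00005e0000bf7c017f6fa2ff28e) b19750 (.one (nat_lit 3) (nat_lit 50) (nat_lit 90) (nat_lit 0x2f00005e0000bf310d7e73bafce6b) b19754 (.tok (nat_lit 6) (nat_lit 0x2f00005e0000bf3dc57e8d2afd199) (.hit (nat_lit 48) (nat_lit 88) (nat_lit 0x2f00005e0000bf3dc57e8d2afd199) b19752 (.hit (nat_lit 49) (nat_lit 89) (nat_lit 0x2f00005e0000bf347d7e7a9afcf47) b19753 (.nil))) (.one (nat_lit 9) (nat_lit 47) (nat_lit 87) (nat_lit 0x2f00005e0000bf2b897e68b2fcd0a) b19751 (.nil))))) (.one (nat_lit 59) (nat_lit 51) (nat_lit 91) (nat_lit 0x2f00005e0000bf63257ebb0afdaa4)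 b19755 (.nil)))))))))))))))))) (.tok (nat_lit 64) (nat_lit 0x2f00005e0000bff8a57ff5bb00358) (.hit (nat_lit 176) (nat_lit 0) (nat_lit 0x2f00005e0000bfe4557ff5bb00358) b19756 (.tok (nat_lit 6) (nat_lit 0x2f00005e0000bfcb8d7fbc72ffc42) (.hit (nat_lit 177) (nat_lit 7) (nat_lit 0x2f00005e0000bf40dd7f51c2fec6c) b19759 (.hit (nat_lit 178) (nat_lit 15) (nat_lit 0x2f00005e0000bfcb8d7fbc72ffc42) b19760 (.nil))) (.tok (nat_lit 9) (nat_lit 0x2f00005e0000bff8a57fef23002c4) (.hit (nat_lit 179) (nat_lit 20) (nat_lit 0x2f00005e0000bff8a57fef23002c4) b19757 (.hit (nat_lit 180) (nat_lit 28) (nat_lit 0x2f00005e0000bfb6f57f81c2ff4d5) b19758 (.nil))) (.nil)))) (.tok (nat_lit 67) (nat_lit 0x2f00005e0000c0000180165b00773) (.hit (nat_lit 201) (nat_lit 0) (nat_lit 0x2f00005e0000c0000180165b00773) b19761 (.tok (nat_lit 3) (nat_lit 0x2f00005e0000bf5a397f847aff2c3) (.hit (nat_lit 202) (nat_lit 1) (nat_lit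 0x2f00005e0000bf25257f1a52fe57e) b19762 (.one (nat_lit 55) (nat_lit 203) (nat_lit 3) (nat_lit 0x2f00005e0000bf5a397f847aff2c3) b19763 (.nil))) (.tok (nat_lit 9) (nat_lit 0x2f00005e0000bf25717f1aeafe591) (.hit (nat_lit 204) (nat_lit 20) (nat_lit 0x2f00005e0000bf18a17f014afe25d) b19764 (.hit (nat_lit 207) (nat_lit 28) (nat_lit 0x2f00005e0000bf25717f1aeafe591) b19765 (.nil))) (.nil)))) (.tok (nat_lit 70) (nat_lit 0x2f00005e0000bfee1d80ac43017bc) (.hit (nat_lit 187) (nat_lit 0) (nat_lit 0x2f00005e0000bfbe217fb92affbc6) b19766 (.tok (nat_lit 3) (nat_lit 0x2f00005e0000bf8bf17fe7eafff31) (.hit (nat_lit 188) (nat_lit 1) (nat_lit 0x2f00005e0000bf29d57f23b2fe6aa) b19767 (.one (nat_lit 67) (nat_lit 189) (nat_lit 2) (nat_lit 0x2f00005e0000bf8bf17fe7eafff31) b19768 (.nil))) (.tok (nat_lit 6) (nat_lit 0x2f00005e0000bfee1d80ac43017bc) (.hit (nat_lit 190) (nat_lit 7) (nat_lit 0x2f00005e0000bf47497f5e9afee07)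 b19769 (.hit (nat_lit 193) (nat_lit 15) (nat_lit 0x2f00005e0000bf22257f1452fe4be) b19772 (.tok (nat_lit 55) (nat_lit 0x2f00005e0000bfee1d80ac43017bc) (.hit (nat_lit 191) (nat_lit 8) (nat_lit 0x2f00005e0000bf79dd7fc3c2ffaac) b19770 (.hit (nat_lit 194) (nat_lit 16) (nat_lit 0x2f00005e0000bf89217fe24affe7d) b19773 (.one (nat_lit 6) (nat_lit 192) (nat_lit 9) (nat_lit 0x2f00005e0000bfee1d80ac43017bc) b19771 (.nil)))) (.nil)))) (.nil)))) (.nil))))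
noncomputable def r20_253 : Rw Blk := .tok (nat_lit 3) (nat_lit 0x2f00005e0000c04f39808cc301722) (.hit (nat_lit 15) (nat_lit 0) (nat_lit 0x2f00005e0000bfad397f3b22fee90) b19781 (.tok (nat_lit 6) (nat_lit 0x2f00005e0000bf94357ec32afe671) (.hit (nat_lit 16) (nat_lit 7) (nat_lit 0x2f00005e0000bf3ce17e1482fd09c) b19782 (.hit (nat_lit 21) (nat_lit 15) (nat_lit 0x2f00005e0000beb9fd7d0ebafafe3) b19787 (.tok (nat_lit 14) (nat_lit 0x2f00005e0000bf7acd7e905afe017) (.hit (nat_lit 17) (nat_lit 11) (nat_lit 0x2f00005e0000bf5bcd7e525afd857) b19783 (.hit (nat_lit 22) (nat_lit 17) (nat_lit 0x2f00005e0000bf58397e4b32fd772) b19788 (.one (nat_lit 9) (nat_lit 18) (nat_lit 12) (nat_lit 0x2f00005e0000bf7acd7e905afe017) b19784 (.nil)))) (.tok (nat_lit 56) (nat_lit 0x2f00005e0000bf94357ec32afe671) (.hit (nat_lit 19) (nat_lit 13) (nat_lit 0x2f00005e0000bf6b7d7e71bafdc43) b19785 (.hit (nat_lit 24) (nat_lit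 19) (nat_lit 0x2f00005e0000bf4be17e3282fd45c) b19789 (.one (nat_lit 6) (nat_lit 20) (nat_lit 14) (nat_lit 0x2f00005e0000bf94357ec32afe671) b19786 (.nil)))) (.nil))))) (.tok (nat_lit 52) (nat_lit 0x2f00005e0000bf85657ea58afe2bd) (.hit (nat_lit 25) (nat_lit 39) (nat_lit 0x2f00005e0000bf85657ea58afe2bd) b19790 (.hit (nat_lit 26) (nat_lit 40) (nat_lit 0x2f00005e0000bf73c97e8252fde56) b19791 (.nil))) (.tok (nat_lit 55) (nat_lit 0x2f00005e0000c04f39808cc301722) (.hit (nat_lit 27) (nat_lit 41) (nat_lit 0x2f00005e0000c04f39808cc301722) b19792 (.tok (nat_lit 3) (nat_lit 0x2f00005e0000bfb37d7f01bafee43) (.hit (nat_lit 33) (nat_lit 47) (nat_lit 0x2f00005e0000bfa1f97edeb2fe9e2) b19798 (.one (nat_lit 67) (nat_lit 34) (nat_lit 48) (nat_lit 0x2f00005e0000bfb37d7f01bafee43) b19799 (.nil))) (.tok (nat_lit 6) (nat_lit 0x2f00005e0000bfbbe57f128aff05d) (.hit (nat_lit 28) (nat_lit 42) (nat_lit 0x2f00005e0000bf7b397e9132fe032)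 b19793 (.hit (nat_lit 31) (nat_lit 45) (nat_lit 0x2f00005e0000bf70f17e7ca2fdda0) b19796 (.tok (nat_lit 55) (nat_lit 0x2f00005e0000bfbbe57f128aff05d) (.hit (nat_lit 29) (nat_lit 43) (nat_lit 0x2f00005e0000bfbbe57f128aff05d) b19794 (.hit (nat_lit 32) (nat_lit 46) (nat_lit 0x2f00005e0000bfa1097edcd2fe9a6) b19797 (.one (nat_lit 6) (nat_lit 30) (nat_lit 44) (nat_lit 0x2f00005e0000bf817d7e9dbafe1c3) b19795 (.nil)))) (.nil)))) (.nil)))) (.one (nat_lit 58) (nat_lit 35) (nat_lit 49) (nat_lit 0x2f00005e0000bfb33d7f013afee33) b19800 (.nil)))))) (.tok (nat_lit 9) (nat_lit 0x2f00005e0000c053c180403b0182e) (.hit (nat_lit 0) (nat_lit 0) (nat_lit 0x2f00005e0000c01e317f8ecb0010e) b19774 (.tok (nat_lit 9) (nat_lit 0x2f00005e0000c053c180403b0182e) (.hit (nat_lit 1) (nat_lit 20) (nat_lit 0x2f00005e0000bfb22d7ef09aff66a) b19775 (.hit (nat_lit 4) (nat_lit 28) (nat_lit 0x2f00005e0000bf5e217e5a22fdef6)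 b19778 (.tok (nat_lit 14) (nat_lit 0x2f00005e0000c053c180403b0182e) (.hit (nat_lit 2) (nat_lit 24) (nat_lit 0x2f00005e0000c053c180403b0182e) b19776 (.hit (nat_lit 5) (nat_lit 30) (nat_lit 0x2f00005e0000bfb6597f1732ff695) b19779 (.one (nat_lit 6) (nat_lit 3) (nat_lit 25) (nat_lit 0x2f00005e0000c02065801ae3010e7) b19777 (.nil)))) (.one (nat_lit 56) (nat_lit 6) (nat_lit 31) (nat_lit 0x2f00005e0000bfa4f97ed4a2ff2d6) b19780 (.nil))))) (.nil))) (.nil))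
noncomputable def r20_254 : Rw Blk := .tok (nat_lit 3) (nat_lit 0xbf6f257e3482fdfc05fb6a4bf75157f077afe1d35fc3cebf94a57f22dafe5285fe3a4bf90757f412afe86f5fd4a8bf9f1d7f1622fe382) (.hit (nat_lit 0) (nat_lit 0) (nat_lit 0xbf6f257e3482fdfc05fb6a4bf75157f077afe1d35fc3cebf94a57f22dafe5285fe2aebf90757f2beafe86f5fd4a8bf9f1d7f1622fe382) b36010 (.tok (nat_lit 6) (nat_lit 0xbf3a757d7a6afdd295fa33cbf46797e1232fb8995f8448bf0d117e2bcafc83a5fe3a4bf88f97f412afdf485fd1c8bf98dd7ecc62fcfd2) (.hit (nat_lit 1) (nat_lit 7) (nat_lit 0xbf3a757d7a6afdd295fa33cbf46797e1232fb8995f8448bf0d117e2bcafc83a5fe3a4bf88f97f412afdf485fd1c8bf98dd7ecc62fcfd2) b19804 (.hit (nat_lit 6) (nat_lit 15) (nat_lit 0xbf30b97d66f2fd5255f9e5ebf3cbd7dfebafb62a5f7f6abf03557e1852fc5cb5fb0eabf4dad7e962afd7b25fab8ebf52517e8fb2fced4) b19805 (.nil))) (.tok (nat_lit 9) (nat_lit 0xbf3a757d7a6afdd295fa33cbf46797e1232fb8995f8448bf0d117e2bcafc83a5fab72bf49fd7e8fa2fd6c65faa66bf4fa97e8852fd094)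 (.hit (nat_lit 10) (nat_lit 20) (nat_lit 0xbf3a757d7a6afdd295fa33cbf46797e1232fb8995f8448bf0d117e2bcafc83a5f9bb8bee8097e2252fbb5f5f8e60bf167d7e757afd094) b19802 (.hit (nat_lit 15) (nat_lit 28) (nat_lit 0xbf30b97d66f2fd5255f9e5ebf3cbd7dfebafb62a5f7f6abf03557e1852fc5cb5fab72bf49fd7e8fa2fd6c65faa66bf4fa97e8852fcf4b) b19803 (.nil))) (.nil)))) (.tok (nat_lit 6) (nat_lit 0xc0000180000300000600000c000018081e300000600000c0000180000300000600000c00c1980130300000600000c0000180000300000) (.hit (nat_lit 81) (nat_lit 0) (nat_lit 0xbfc8317eef52feb305fdb72bfb5f97f6a3afe6885fcd4cbfa7e57f5cdaff0be5fdcd8bfa4917f437afefed5fd892bfb4297f4f32feacf) b19811 (.tok (nat_lit 3) (nat_lit 0xbfc8697ea3a2ff1455fd9e6bfbb917ffdbaff2425fe4acbfd6d57fa84aff5d65ff976bff9817fe4b2ffab65ff48ebfd64d7fc38aff52d) (.hit (nat_lit 82) (nat_lit 1) (nat_lit 0xbf5c257dd03afdbb25fa2f2bf4da97ee16afd6605fad42bf67b17ec932fd9d65fbb34bf98bd7f2d82fe50b5fba92bf6ea57ef9bafe000)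 b19812 (.one (nat_lit 67) (nat_lit 83) (nat_lit 2) (nat_lit 0xbfc8697ea3a2ff1455fd9e6bfbb917ffdbaff2425fe4acbfd6d57fa84aff5d65ff976bff9817fe4b2ffab65ff48ebfd64d7fc38aff52d) b19813 (.nil))) (.tok (nat_lit 6) (nat_lit 0xc0000180000300000600000c000018081e300000600000c0000180000300000600000c00c1980130300000600000c0000180000300000) (.hit (nat_lit 87) (nat_lit 7) (nat_lit 0xbfabf97ec222fe8e95fbe5abf848d7f3a1afd8d85fb1eebf71d57f462afebe65fba66bf7e9d7f40a2fe4215fbfa4bf7d2d7f0da2fe43d) b19814 (.hit (nat_lit 95) (nat_lit 15) (nat_lit 0xbf64fd7dcd0afd3dd5fa634bf542d7ee7cafd7fd5fb038bf6de97ed68afdb425faffcbf8a497f0dd2fe0865fb14cbf5a2d7ed592fdb9b) b19818 (.tok (nat_lit 55) (nat_lit 0xc0000180000300000600000c000018081e300000600000c0000180000300000600000c00c1980130300000600000c0000180000300000) (.hit (nat_lit 88) (nat_lit 8) (nat_lit 0xbffb117f3fa2ff0ef5ff4a2bff1097feadaff5ef5fec06bfe2e97faf92ff9575ff21cbfe1897fdafaffd5d5ff5d4bfdeb97fbbe2ffb2c)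 b19815 (.hit (nat_lit 96) (nat_lit 16) (nat_lit 0xbfc75d7eb112fef375fde0ebfc3017fb04aff41e5fe864bfde417fb732ff3db5fee06c00c19801302ffe575fed7cbfd0c5800002ff8ae) b19819 (.tok (nat_lit 6) (nat_lit 0xc0000180000300000600000c000018081e300000600000c0000180000300000600000bff0157fdcfb00000600000c000017fd22300000) (.hit (nat_lit 89) (nat_lit 9) (nat_lit 0xbfd0257f7e3aff2525fe562bfcac5801572ff3c85fe7b8bfdce57fb452ff7575feeaabfd3117fb8daffb4b5ff250bfe03d7fac7aff641) b19816 (.one (nat_lit 55) (nat_lit 90) (nat_lit 10) (nat_lit 0xc0000180000300000600000c000018081e300000600000c0000180000300000600000bff0157fdcfb00000600000c000017fd22300000) b19817 (.nil))) (.nil)))) (.nil)))) (.nil)))) (.tok (nat_lit 9) (nat_lit 0xbfc8697eef52ff1455ff240bfe3817f3f62ff6435fed76bfe7cd7fc742ff9e65fe006bf9c5d7f338afeb9f5fd2aebf9f457f2d02ff880) (.hit (nat_lit 157) (nat_lit 0) (nat_lit 0xbfc8317eef52feb305ff240bfde6d7f3f62ff6435fed76bfe7cd7fc742ff9e65fd1acbf9c5d7f3282feb9f5fd122bf9f457f2d02ff880)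 b19806 (.tok (nat_lit 3) (nat_lit 0xbfc8697ea3a2ff1455fece4bfe3817e9752ff0085fe13cbfd87d7fb402ff3e75fe006bf61717f338afdb5b5fd2aebf9f197eeae2ff5db) (.hit (nat_lit 158) (nat_lit 1) (nat_lit 0xbf5c257dd03afdbb25fb756bf76717dd1e2fddab5fbbc2bf84957f0b1afe1275fb086bf02717e758afc39b5fa32ebf40197def02fe7fb) b19807 (.one (nat_lit 55) (nat_lit 159) (nat_lit 3) (nat_lit 0xbfc8697ea3a2ff1455fece4bfe3817e9752ff0085fe13cbfd87d7fb402ff3e75fe006bf61717f338afdb5b5fd2aebf9f197eeae2ff5db) b19808 (.nil))) (.tok (nat_lit 9) (nat_lit 0xbfabf97ec222fe8e95fdac2bfb2597e6bc2ff2385fdeb4bfd6c97fa90aff53e5fb22ebf14d17e7c2afc6915fa4d6bf43697e0682ff013) (.hit (nat_lit 163) (nat_lit 20) (nat_lit 0xbfabf97ec222fe8e95fdac2bfb2597e6bc2ff2385fdeb4bfd6c97fa90aff53e5fb22ebf14d17e7c2afc6915fa4d6bf43697e0682ff013) b19809 (.hit (nat_lit 171) (nat_lit 28) (nat_lit 0xbf64fd7dcd0afd3dd5fba98bf7cf57d8e22fe3ac5fc780bf9c797f3392fe73f5fa4bcbeeadd7e4662fbdb65f9764bf28857dc36afe70b)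 b19810 (.nil))) (.nil)))) (.nil)))
noncomputable def r20_255 : Rw Blk := .tok (nat_lit 6) (nat_lit 0x2f00005e0000bffb317fe57affc46) (.hit (nat_lit 51) (nat_lit 0) (nat_lit 0x2f00005e0000bfdd0d7fdd3affae0) b19820 (.tok (nat_lit 3) (nat_lit 0x2f00005e0000bffb317fe57affc46) (.hit (nat_lit 52) (nat_lit 1) (nat_lit 0x2f00005e0000bf732d7edee2fdda2) b19821 (.one (nat_lit 14) (nat_lit 53) (nat_lit 4) (nat_lit 0x2f00005e0000bffb317fe57affc46) b19822 (.one (nat_lit 56) (nat_lit 55) (nat_lit 6) (nat_lit 0x2f00005e0000bfdc817fbe22ff334) b19823 (.one (nat_lit 68) (nat_lit 54) (nat_lit 5) (nat_lit 0x2f00005e0000bfbcf97f7502ff3c9) b19824 (.nil))))) (.nil))) (.tok (nat_lit 9) (nat_lit 0x2f00005e0000c0000180000300000) (.hit (nat_lit 0) (nat_lit 0) (nat_lit 0x2f00005e0000bfdd0d7fcd52ffb1f) b19825 (.tok (nat_lit 3) (nat_lit 0x2f00005e0000bffb317f7502ff0d8) (.hit (nat_lit 1) (nat_lit 1) (nat_lit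 0x2f00005e0000bf732d7e8cc2fd135) b19826 (.one (nat_lit 14) (nat_lit 2) (nat_lit 4) (nat_lit 0x2f00005e0000bffb317f73f2ff0d8) b19827 (.one (nat_lit 56) (nat_lit 4) (nat_lit 6) (nat_lit 0x2f00005e0000bfbcf97f7502feb36) b19828 (.one (nat_lit 68) (nat_lit 3) (nat_lit 5) (nat_lit 0x2f00005e0000bfdc817f73e2feb7f) b19829 (.nil))))) (.tok (nat_lit 40) (nat_lit 0x2f00005e0000bfd7797f717afeac5) (.hit (nat_lit 5) (nat_lit 33) (nat_lit 0x2f00005e0000bfd7797f717afeac5) b19830 (.hit (nat_lit 6) (nat_lit 34) (nat_lit 0x2f00005e0000bfcf617f6382fe927) b19831 (.nil))) (.tok (nat_lit 43) (nat_lit 0x2f00005e0000bfef617fe78affba0) (.hit (nat_lit 7) (nat_lit 35) (nat_lit 0x2f00005e0000bf95bd7f3ebafe46d) b19834 (.hit (nat_lit 8) (nat_lit 36) (nat_lit 0x2f00005e0000bfef617fe78affba0) b19835 (.nil))) (.tok (nat_lit 46) (nat_lit 0x2f00005e0000c0000180000300000) (.hit (nat_lit 9) (nat_lit 37) (nat_lit 0x2f00005e0000c0000180000300000)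 b19832 (.hit (nat_lit 10) (nat_lit 38) (nat_lit 0x2f00005e0000bfdab97f96daff30d) b19833 (.nil))) (.nil)))))) (.nil))
noncomputable def r20_256 : Rw Blk := .tok (nat_lit 3) (nat_lit 0xbc0001780002fddcf5fdf76bfbdb97f5fc2fe7405fd9b4bfa3a57f2a12fe9c6) (.hit (nat_lit 61) (nat_lit 0) (nat_lit 0xbc0001780002fd2085fa414bf37b97e7bfafcd5b5f9e74bf3eed7e5ae2fca1a) b19917 (.tok (nat_lit 9) (nat_lit 0xbc0001780002fcdbc5f9b5cbf0cd97e66dafc3ad5f8e62bf3ba17e258afc691) (.hit (nat_lit 62) (nat_lit 20) (nat_lit 0xbc0001780002fbbb65f7750bec4c17dd6aafb1a75f6a56bef3897d955afb48b) b19918 (.hit (nat_lit 67) (nat_lit 28) (nat_lit 0xbc0001780002fad945f5b0cbe8c397d659afa3855f4e12bebb017d244afa669) b19921 (.tok (nat_lit 14) (nat_lit 0xbc0001780002fcdbc5f9b5cbf0cd97e66dafc3ad5f8e62bf3ba17e258afc691) (.hit (nat_lit 63) (nat_lit 24) (nat_lit 0xbc0001780002fbdc95f7b76becd0d7de742fb3ba5f6e7cbefbd57da5f2fb69e)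 b19919 (.hit (nat_lit 68) (nat_lit 30) (nat_lit 0xbc0001780002fc1ab5f833abedc957e0652fb79c5f7640bf0b5d7dc502fba80) b19922 (.one (nat_lit 6) (nat_lit 64) (nat_lit 25) (nat_lit 0xbc0001780002fcdbc5f9b5cbf0cd97e66dafc3ad5f8e62bf3ba17e258afc691) b19920 (.nil)))) (.one (nat_lit 56) (nat_lit 69) (nat_lit 31) (nat_lit 0xbc0001780002fc0125f8008bed6317df98afb6035f730ebf04f97db83afb8e7) b19923 (.nil))))) (.tok (nat_lit 64) (nat_lit 0xbc0001780002fc6cc5f8d7cbef1197e2f5afbcbd5f8082bf1fe17dee0afbfa1) (.hit (nat_lit 71) (nat_lit 50) (nat_lit 0xbc0001780002fbf495f7e76bed30d7df342fb53a5f717cbf01d57db1f2fb81e) b19924 (.hit (nat_lit 72) (nat_lit 51) (nat_lit 0xbc0001780002fc6cc5f8d7cbef1197e2f5afbcbd5f8082bf1fe17dee0afbfa1) b19925 (.nil))) (.tok (nat_lit 67) (nat_lit 0xbc0001780002fddcf5fdf76bfbdb97f5fc2fe7405fd9b4bfa3a57f2a12fe9c6) (.hit (nat_lit 73) (nat_lit 52) (nat_lit 0xbc0001780002fdd535fdf76bfbdb97f5fc2fe7405fd9b4bfa3a57f2a12fe9c6)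 b19926 (.tok (nat_lit 3) (nat_lit 0xbc0001780002fddcf5fbb82bf4d257ee772fd3c05fae88bf7bed7ea622fd6a4) (.hit (nat_lit 79) (nat_lit 58) (nat_lit 0xbc0001780002fd3725fa6c8bf23b17e948afc9635f99cebf52797e533afcc47) b19929 (.one (nat_lit 55) (nat_lit 80) (nat_lit 59) (nat_lit 0xbc0001780002fddcf5fbb82bf4d257ee772fd3c05fae88bf7bed7ea622fd6a4) b19930 (.nil))) (.tok (nat_lit 9) (nat_lit 0xbc0001780002fcbbd5f975ebf04dd7e56e2fc1ae5f8a64bf33a57e1592fc492) (.hit (nat_lit 74) (nat_lit 53) (nat_lit 0xbc0001780002fc8b05f9144bef8a97e3e7afbea15f844abf27717dfd2afc185) b19927 (.hit (nat_lit 77) (nat_lit 56) (nat_lit 0xbc0001780002fcbbd5f975ebf04dd7e56e2fc1ae5f8a64bf33a57e1592fc492) b19928 (.nil))) (.nil)))) (.one (nat_lit 70) (nat_lit 81) (nat_lit 60) (nat_lit 0xbc0001780002fc77b5f8edabef3d57e34d2fbd6c5f81e0bf229d7df382fc050) b19931 (.nil)))))) (.tok (nat_lit 6) (nat_lit 0xbc00017800030000060071ec000018004830000060054ec00e5980000300000)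 (.hit (nat_lit 0) (nat_lit 0) (nat_lit 0xbc0001780002feaff5fc398bf99357f2212fe84d5fbec0bf956d7f311afdc00) b19896 (.tok (nat_lit 6) (nat_lit 0xbc0001780002fffbd60071ebff37d7feceb000005ffde6c00e5980000300000) (.hit (nat_lit 1) (nat_lit 7) (nat_lit 0xbc0001780002fd8875fb21abf47c17e8e7afd11d5fb642bf60317e6e02fced0) b19897 (.hit (nat_lit 6) (nat_lit 15) (nat_lit 0xbc0001780002fc60a5f7db8bf13d57e224afc3735f85f2bf037d7e0c42fb2dd) b19902 (.tok (nat_lit 14) (nat_lit 0xbc0001780002ff8175fe5cabfa5ad7f6a82fed1f5fdee6bfc0d57f463afedf3) (.hit (nat_lit 2) (nat_lit 11) (nat_lit 0xbc0001780002ff8175fd782bf85e57f08b2fed1f5fdac0bfa1c57f463afeb10) b19898 (.hit (nat_lit 7) (nat_lit 17) (nat_lit 0xbc0001780002fe65c5fb55abf74e17ee81afdaa15fb418bf5f197ec4aafd344) b19903 (.one (nat_lit 9) (nat_lit 3) (nat_lit 12) (nat_lit 0xbc0001780002ff6cc5fe5cabfa5ad7f6a82feb465fdee6bfc0d57f2ad2fedf3) b19899 (.nil))))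 (.tok (nat_lit 56) (nat_lit 0xbc0001780002fffbd60071ebff37d7feceb000005ffde6c00e5980000300000) (.hit (nat_lit 4) (nat_lit 13) (nat_lit 0xbc0001780002fef995fd47cbf9c0d7f285afe7b75fcdc4bfa8417f3612feb80) b19900 (.hit (nat_lit 9) (nat_lit 19) (nat_lit 0xbc0001780002fd6215fb7e8bf7db57ef9d2fd7855fafacbf54217eac32fcff6) b19905 (.one (nat_lit 6) (nat_lit 5) (nat_lit 14) (nat_lit 0xbc0001780002fffbd60071ebff37d7feceb000005ffde6c00e5980000300000) b19901 (.nil)))) (.one (nat_lit 68) (nat_lit 8) (nat_lit 18) (nat_lit 0xbc0001780002fdb1d5fc884bf8e9d7f1baafdbbf5fbbf0bf66497ece02fd435) b19904 (.nil)))))) (.tok (nat_lit 52) (nat_lit 0xbc0001780002feaaa5fcaa4bfa1517f27eafe4645fc372bf8f2d7f165afdcf5) (.hit (nat_lit 10) (nat_lit 39) (nat_lit 0xbc0001780002fdd775fb506bf7ab17eab52fd4205f8f64bf4b657e792afd7ea) b19906 (.hit (nat_lit 11) (nat_lit 40) (nat_lit 0xbc0001780002feaaa5fcaa4bfa1517f27eafe4645fc372bf8f2d7f165afdcf5)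 b19907 (.nil))) (.tok (nat_lit 55) (nat_lit 0xbc000178000300000600698c00001800482ffac660054ec00b4d7fc192ffaac) (.hit (nat_lit 12) (nat_lit 41) (nat_lit 0xbc0001780002ff8855ff112bfc2517fa6c2ff12d5fec7cbfd6257f797aff0ba) b19908 (.tok (nat_lit 3) (nat_lit 0xbc000178000300000600698c00001800482ff8015fffacbffb397f966affaac) (.hit (nat_lit 18) (nat_lit 47) (nat_lit 0xbc0001780002fec8d5ff42cbfc1f57fbe5afee325fe960bfdd917f537afe865) b19914 (.one (nat_lit 67) (nat_lit 19) (nat_lit 48) (nat_lit 0xbc000178000300000600698c00001800482ff8015fffacbffb397f966affaac) b19915 (.nil))) (.tok (nat_lit 6) (nat_lit 0xbc0001780002ffc815ff092bfe9b17fcabaffac660054ec00b4d7fc192ff43e) (.hit (nat_lit 13) (nat_lit 42) (nat_lit 0xbc0001780002fe0f25fc20abf92397f3092fdd9d5fb48ebf89917edcf2fdb5b) b19909 (.hit (nat_lit 16) (nat_lit 45) (nat_lit 0xbc0001780002fece85fe12cbfacc17f4d72fe7f05fe9e6bfd6817f2b72fe689)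 b19912 (.tok (nat_lit 55) (nat_lit 0xbc0001780002ffc815ff092bfe9b17fcabaffac660054ec00b4d7fc192ff43e) (.hit (nat_lit 14) (nat_lit 43) (nat_lit 0xbc0001780002ff6bd5fe076bfe5d57fb97aff2375fdb0ebfd5817f81dafedeb) b19910 (.hit (nat_lit 17) (nat_lit 46) (nat_lit 0xbc0001780002ffc815ff092bfd9857fb24affac660054ec00b4d7fc192ff43e) b19913 (.one (nat_lit 6) (nat_lit 15) (nat_lit 44) (nat_lit 0xbc0001780002ff76a5fdbb8bfe9b17fcabaff2315fde7abfd8097f90eaff2bb) b19911 (.nil)))) (.nil)))) (.nil)))) (.one (nat_lit 58) (nat_lit 20) (nat_lit 49) (nat_lit 0xbc0001780002fecd65fd48cbfb22d7f4932fe2f35fc8febf92c97f0782fe5b2) b19916 (.nil)))))) (.nil))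
noncomputable def r20_257 : Rw Blk := .tok (nat_lit 3) (nat_lit 0x2f00005e0000bf4a9d7fab1aff462) (.hit (nat_lit 61) (nat_lit 0) (nat_lit 0x2f00005e0000bef9357ece1afd813) b19953 (.tok (nat_lit 9) (nat_lit 0x2f00005e0000bf0ded7ed0bafd9f5) (.hit (nat_lit 62) (nat_lit 20) (nat_lit 0x2f00005e0000be8d797dcfd2fb9d8) b19954 (.hit (nat_lit 67) (nat_lit 28) (nat_lit 0x2f00005e0000be9b357deb4afbd47) b19957 (.tok (nat_lit 14) (nat_lit 0x2f00005e0000bf0ded7ed0bafd9f5) (.hit (nat_lit 63) (nat_lit 24) (nat_lit 0x2f00005e0000bee3b17e7c42fcf66) b19955 (.hit (nat_lit 68) (nat_lit 30) (nat_lit 0x2f00005e0000bed7757e63cafcc57) b19958 (.one (nat_lit 6) (nat_lit 64) (nat_lit 25) (nat_lit 0x2f00005e0000bf0ded7ed0bafd9f5) b19956 (.nil)))) (.one (nat_lit 56) (nat_lit 69) (nat_lit 31) (nat_lit 0x2f00005e0000bef40d7e9cfafd37d) b19959 (.nil))))) (.tok (nat_lit 64) (nat_lit 0x2f00005e0000bf04717ebdc2fd796)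 (.hit (nat_lit 71) (nat_lit 50) (nat_lit 0x2f00005e0000bee7997e8412fd060) b19960 (.hit (nat_lit 72) (nat_lit 51) (nat_lit 0x2f00005e0000bf04717ebdc2fd796) b19961 (.nil))) (.tok (nat_lit 67) (nat_lit 0x2f00005e0000bf4a9d7fab1aff462) (.hit (nat_lit 73) (nat_lit 52) (nat_lit 0x2f00005e0000bf42e17fab1aff462) b19962 (.tok (nat_lit 3) (nat_lit 0x2f00005e0000bf43fd7f3cdafe779) (.hit (nat_lit 79) (nat_lit 58) (nat_lit 0x2f00005e0000bf25357eff4afdfc7) b19965 (.one (nat_lit 55) (nat_lit 80) (nat_lit 59) (nat_lit 0x2f00005e0000bf43fd7f3cdafe779) b19966 (.nil))) (.tok (nat_lit 9) (nat_lit 0x2f00005e0000bf4a9d7f94aaff19c) (.hit (nat_lit 74) (nat_lit 53) (nat_lit 0x2f00005e0000bf4a9d7f94aaff19c) b19963 (.hit (nat_lit 77) (nat_lit 56) (nat_lit 0x2f00005e0000bf00217eb522fd682) b19964 (.nil))) (.nil)))) (.one (nat_lit 70) (nat_lit 81) (nat_lit 60) (nat_lit 0x2f00005e0000bf02b17eba42fd726) b19967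 (.nil)))))) (.tok (nat_lit 6) (nat_lit 0x2f00005e0000c011b180c3a3015af) (.hit (nat_lit 0) (nat_lit 0) (nat_lit 0x2f00005e0000bf30117ecaa2fd8e5) b19932 (.tok (nat_lit 6) (nat_lit 0x2f00005e0000bf65c57efb8afdefb) (.hit (nat_lit 1) (nat_lit 7) (nat_lit 0x2f00005e0000bf00b97e315afc609) b19933 (.hit (nat_lit 6) (nat_lit 15) (nat_lit 0x2f00005e0000becb557deb4afbd47) b19938 (.tok (nat_lit 14) (nat_lit 0x2f00005e0000bf65c57efb8afdefb) (.hit (nat_lit 2) (nat_lit 11) (nat_lit 0x2f00005e0000bf439d7ed252fda28) b19934 (.hit (nat_lit 7) (nat_lit 17) (nat_lit 0x2f00005e0000bf65c57efb8afda33) b19939 (.one (nat_lit 9) (nat_lit 3) (nat_lit 12) (nat_lit 0x2f00005e0000bf40bd7ef8eafdefb) b19935 (.nil)))) (.tok (nat_lit 56) (nat_lit 0x2f00005e0000bf41897ef09afddf1) (.hit (nat_lit 4) (nat_lit 13) (nat_lit 0x2f00005e0000bf3e357ee69afdcb1) b19936 (.hit (nat_lit 9) (nat_lit 19) (nat_lit 0x2f00005e0000bf3d8d7eae92fd094)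 b19941 (.one (nat_lit 6) (nat_lit 5) (nat_lit 14) (nat_lit 0x2f00005e0000bf41897ef09afddf1) b19937 (.nil)))) (.one (nat_lit 68) (nat_lit 8) (nat_lit 18) (nat_lit 0x2f00005e0000bf3efd7eb542fd42e) b19940 (.nil)))))) (.tok (nat_lit 52) (nat_lit 0x2f00005e0000bf58097edcaafdb73) (.hit (nat_lit 10) (nat_lit 39) (nat_lit 0x2f00005e0000bf17bd7ebe9afd6df) b19942 (.hit (nat_lit 11) (nat_lit 40) (nat_lit 0x2f00005e0000bf58097edcaafdb73) b19943 (.nil))) (.tok (nat_lit 55) (nat_lit 0x2f00005e0000c011b180c3a3015af) (.hit (nat_lit 12) (nat_lit 41) (nat_lit 0x2f00005e0000bf6e117f7f82fede5) b19944 (.tok (nat_lit 3) (nat_lit 0x2f00005e0000bf82457fa102ff28a) (.hit (nat_lit 18) (nat_lit 47) (nat_lit 0x2f00005e0000bf37597f08eafdf48) b19950 (.one (nat_lit 67) (nat_lit 19) (nat_lit 48) (nat_lit 0x2f00005e0000bf82457fa102ff28a) b19951 (.nil))) (.tok (nat_lit 6) (nat_lit 0x2f00005e0000c011b180c3a3015af)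 (.hit (nat_lit 13) (nat_lit 42) (nat_lit 0x2f00005e0000bf83997f6d92febb4) b19945 (.hit (nat_lit 16) (nat_lit 45) (nat_lit 0x2f00005e0000bf739d7f1992fe0fe) b19948 (.tok (nat_lit 55) (nat_lit 0x2f00005e0000c011b180c3a3015af) (.hit (nat_lit 14) (nat_lit 43) (nat_lit 0x2f00005e0000bff57980af73014c5) b19946 (.hit (nat_lit 17) (nat_lit 46) (nat_lit 0x2f00005e0000bf63f57f77cafecc5) b19949 (.one (nat_lit 6) (nat_lit 15) (nat_lit 44) (nat_lit 0x2f00005e0000c011b180c3a3015af) b19947 (.nil)))) (.nil)))) (.nil)))) (.one (nat_lit 58) (nat_lit 20) (nat_lit 49) (nat_lit 0x2f00005e0000bf51417f122afe00e) b19952 (.nil)))))) (.nil))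
noncomputable def r20_258 : Rw Blk := .tok (nat_lit 3) (nat_lit 0x5e0000bc00017ef092fe866) (.hit (nat_lit 61) (nat_lit 0) (nat_lit 0x5e0000bc00017e925afd508) b19846 (.tok (nat_lit 6) (nat_lit 0x5e0000bc00017eac0afdfd5) (.hit (nat_lit 62) (nat_lit 7) (nat_lit 0x5e0000bc00017ddfcafc64d) b19847 (.hit (nat_lit 67) (nat_lit 15) (nat_lit 0x5e0000bc00017d6ebafb82b) b19852 (.tok (nat_lit 14) (nat_lit 0x5e0000bc00017e6ffafd853) (.hit (nat_lit 63) (nat_lit 11) (nat_lit 0x5e0000bc00017df062fc860) b19848 (.hit (nat_lit 68) (nat_lit 17) (nat_lit 0x5e0000bc00017e0f72fcc42) b19853 (.one (nat_lit 9) (nat_lit 64) (nat_lit 12) (nat_lit 0x5e0000bc00017e6ffafd853) b19849 (.nil)))) (.tok (nat_lit 56) (nat_lit 0x5e0000bc00017eac0afdfd5) (.hit (nat_lit 65) (nat_lit 13) (nat_lit 0x5e0000bc00017e6b9afd7c7) b19850 (.hit (nat_lit 70) (nat_lit 19) (nat_lit 0x5e0000bc00017df6aafc929) b19854 (.one (nat_lit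 6) (nat_lit 66) (nat_lit 14) (nat_lit 0x5e0000bc00017eac0afdfd5) b19851 (.nil)))) (.nil))))) (.tok (nat_lit 52) (nat_lit 0x5e0000bc00017e387afd163) (.hit (nat_lit 71) (nat_lit 39) (nat_lit 0x5e0000bc00017dfc62fc9e0) b19855 (.hit (nat_lit 72) (nat_lit 40) (nat_lit 0x5e0000bc00017e387afd163) b19856 (.nil))) (.tok (nat_lit 55) (nat_lit 0x5e0000bc00017ef092fe866) (.hit (nat_lit 73) (nat_lit 41) (nat_lit 0x5e0000bc00017eecb2fe54a) b19857 (.tok (nat_lit 3) (nat_lit 0x5e0000bc00017ef092fe866) (.hit (nat_lit 79) (nat_lit 47) (nat_lit 0x5e0000bc00017e9daafde09) b19863 (.one (nat_lit 67) (nat_lit 80) (nat_lit 48) (nat_lit 0x5e0000bc00017ef092fe866) b19864 (.nil))) (.tok (nat_lit 6) (nat_lit 0x5e0000bc00017ec64afe31d) (.hit (nat_lit 74) (nat_lit 42) (nat_lit 0x5e0000bc00017e479afd347) b19858 (.hit (nat_lit 77) (nat_lit 45) (nat_lit 0x5e0000bc00017e6002fd654) b19861 (.tok (nat_lit 55) (nat_lit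 0x5e0000bc00017ec64afe31d) (.hit (nat_lit 75) (nat_lit 43) (nat_lit 0x5e0000bc00017ec04afe25d) b19859 (.hit (nat_lit 78) (nat_lit 46) (nat_lit 0x5e0000bc00017ec64afe31d) b19862 (.one (nat_lit 6) (nat_lit 76) (nat_lit 44) (nat_lit 0x5e0000bc00017e9e6afde21) b19860 (.nil)))) (.nil)))) (.nil)))) (.one (nat_lit 58) (nat_lit 81) (nat_lit 49) (nat_lit 0x5e0000bc00017e3df2fd212) b19865 (.nil)))))) (.tok (nat_lit 9) (nat_lit 0x5e0000bc000180000300a5d) (.hit (nat_lit 0) (nat_lit 0) (nat_lit 0x5e0000bc00017f5a12ff45e) b19836 (.tok (nat_lit 9) (nat_lit 0x5e0000bc000180000300a5d) (.hit (nat_lit 1) (nat_lit 20) (nat_lit 0x5e0000bc00017ec652fe11c) b19837 (.hit (nat_lit 6) (nat_lit 28) (nat_lit 0x5e0000bc00017e326afd571) b19842 (.tok (nat_lit 14) (nat_lit 0x5e0000bc00017fc2d300125) (.hit (nat_lit 2) (nat_lit 24) (nat_lit 0x5e0000bc00017fc2d300125) b19838 (.hit (nat_lit 7) (nat_lit 30) (nat_lit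 0x5e0000bc00017f34faff246) b19843 (.one (nat_lit 6) (nat_lit 3) (nat_lit 25) (nat_lit 0x5e0000bc00017fb87affb0a) b19839 (.nil)))) (.one (nat_lit 56) (nat_lit 8) (nat_lit 31) (nat_lit 0x5e0000bc00017edb02fe3b3) b19844 (.tok (nat_lit 68) (nat_lit 0x5e0000bc000180000300a5d) (.hit (nat_lit 4) (nat_lit 26) (nat_lit 0x5e0000bc00017f7ee2ff021) b19840 (.hit (nat_lit 9) (nat_lit 32) (nat_lit 0x5e0000bc00017eb322fe1cd) b19845 (.one (nat_lit 9) (nat_lit 5) (nat_lit 27) (nat_lit 0x5e0000bc000180000300a5d) b19841 (.nil)))) (.nil)))))) (.nil))) (.nil))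
noncomputable def r20_259 : Rw Blk := .tok (nat_lit 3) (nat_lit 0x2f00005e0000c000017fce42ff09b) (.hit (nat_lit 61) (nat_lit 0) (nat_lit 0x2f00005e0000bf91617ee512fd98b) b19876 (.tok (nat_lit 6) (nat_lit 0x2f00005e0000bfa6197ed882fdca7) (.hit (nat_lit 62) (nat_lit 7) (nat_lit 0x2f00005e0000bf25a57dd79afbc8a) b19877 (.hit (nat_lit 67) (nat_lit 15) (nat_lit 0x2f00005e0000bf33617df312fbff9) b19882 (.tok (nat_lit 14) (nat_lit 0x2f00005e0000bfa6197ed882fdca7) (.hit (nat_lit 63) (nat_lit 11) (nat_lit 0x2f00005e0000bf7bdd7e840afd218) b19878 (.hit (nat_lit 68) (nat_lit 17) (nat_lit 0x2f00005e0000bf6fa17e6b92fcf09) b19883 (.one (nat_lit 9) (nat_lit 64) (nat_lit 12) (nat_lit 0x2f00005e0000bfa6197ed882fdca7) b19879 (.nil)))) (.tok (nat_lit 56) (nat_lit 0x2f00005e0000bf92f17eb232fd7dd) (.hit (nat_lit 65) (nat_lit 13) (nat_lit 0x2f00005e0000bf84ed7e962afd45c) b19880 (.hit (nat_lit 70) (nat_lit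 19) (nat_lit 0x2f00005e0000bf74257e749afd02a) b19884 (.one (nat_lit 6) (nat_lit 66) (nat_lit 14) (nat_lit 0x2f00005e0000bf92f17eb232fd7dd) b19881 (.nil)))) (.nil))))) (.tok (nat_lit 52) (nat_lit 0x2f00005e0000bf9c9d7ec58afda48) (.hit (nat_lit 71) (nat_lit 39) (nat_lit 0x2f00005e0000bf7fc57e8bdafd312) b19885 (.hit (nat_lit 72) (nat_lit 40) (nat_lit 0x2f00005e0000bf9c9d7ec58afda48) b19886 (.nil))) (.tok (nat_lit 55) (nat_lit 0x2f00005e0000c000017fce42ff09b) (.hit (nat_lit 73) (nat_lit 41) (nat_lit 0x2f00005e0000bfdb0d7f604afeb9c) b19887 (.tok (nat_lit 3) (nat_lit 0x2f00005e0000bfdc297f44a2fea2b) (.hit (nat_lit 79) (nat_lit 47) (nat_lit 0x2f00005e0000bfbd617f0712fe279) b19893 (.one (nat_lit 67) (nat_lit 80) (nat_lit 48) (nat_lit 0x2f00005e0000bfdc297f44a2fea2b) b19894 (.nil))) (.tok (nat_lit 6) (nat_lit 0x2f00005e0000c000017fce42ff09b) (.hit (nat_lit 74) (nat_lit 42) (nat_lit 0x2f00005e0000bfe2c97f56c2fe96f)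 b19888 (.hit (nat_lit 77) (nat_lit 45) (nat_lit 0x2f00005e0000bf984d7ebceafd934) b19891 (.tok (nat_lit 55) (nat_lit 0x2f00005e0000c000017fce42ff09b) (.hit (nat_lit 75) (nat_lit 43) (nat_lit 0x2f00005e0000c000017fce42ff09b) b19889 (.hit (nat_lit 78) (nat_lit 46) (nat_lit 0x2f00005e0000bfdd617f4712fea79) b19892 (.one (nat_lit 6) (nat_lit 76) (nat_lit 44) (nat_lit 0x2f00005e0000bfe1a17f4f92feb89) b19890 (.nil)))) (.nil)))) (.nil)))) (.one (nat_lit 58) (nat_lit 81) (nat_lit 49) (nat_lit 0x2f00005e0000bf9add7ec20afd9d8) b19895 (.nil)))))) (.tok (nat_lit 9) (nat_lit 0x2f00005e0000bffdf180000300000) (.hit (nat_lit 0) (nat_lit 0) (nat_lit 0x2f00005e0000bfc83d7f7e62fe781) b19866 (.tok (nat_lit 9) (nat_lit 0x2f00005e0000bffdf180000300000) (.hit (nat_lit 1) (nat_lit 20) (nat_lit 0x2f00005e0000bf98e57efaf2fdda6) b19867 (.hit (nat_lit 6) (nat_lit 28) (nat_lit 0x2f00005e0000bf63817e9d1afd0c2)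 b19872 (.tok (nat_lit 14) (nat_lit 0x2f00005e0000bffdf180000300000) (.hit (nat_lit 2) (nat_lit 24) (nat_lit 0x2f00005e0000bfdbc97fda5aff9e8) b19868 (.hit (nat_lit 7) (nat_lit 30) (nat_lit 0x2f00005e0000bffdf17fac6aff2ac) b19873 (.one (nat_lit 6) (nat_lit 3) (nat_lit 25) (nat_lit 0x2f00005e0000bfd8e980000300000) b19869 (.nil)))) (.one (nat_lit 56) (nat_lit 8) (nat_lit 31) (nat_lit 0x2f00005e0000bfd7297f6612fe8f5) b19874 (.tok (nat_lit 68) (nat_lit 0x2f00005e0000bfd9b57f9812ff021) (.hit (nat_lit 4) (nat_lit 26) (nat_lit 0x2f00005e0000bfd6617f780afec89) b19870 (.hit (nat_lit 9) (nat_lit 32) (nat_lit 0x2f00005e0000bfd5b97f3bcafe73b) b19875 (.one (nat_lit 9) (nat_lit 5) (nat_lit 27) (nat_lit 0x2f00005e0000bfd9b57f9812ff021) b19871 (.nil)))) (.nil)))))) (.nil))) (.nil))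
noncomputable def r20_260 : Rw Blk := .tok (nat_lit 3) (nat_lit 0x17ee82afd6c95fdadcbf5d917ec99afd1b65fb0babf5f057eb412fd61e) (.hit (nat_lit 0) (nat_lit 0) (nat_lit 0x17ee82afd6c95fdadcbf5d917ec99afd1b65fb0babf5f057eb412fd61e) b36011 (.tok (nat_lit 6) (nat_lit 0x17e7ecafbf865fd5aebf28b57e603afa8565f5cb6beb3d57e476afc445) (.hit (nat_lit 1) (nat_lit 7) (nat_lit 0x17e7ecafbf865fd5aebf28b57e603afa8565f5cb6beb3d57e476afc445) b18402 (.hit (nat_lit 6) (nat_lit 15) (nat_lit 0x17e6b52fbd175fc5a6bf1ef97e4cc2fa5e75f57d8beaa197e33f2fc1d6) b18403 (.nil))) (.tok (nat_lit 9) (nat_lit 0x17e7ecafbf865fd5aebf28b57e603afa8565f5cb6beb3d57e476afc445) (.hit (nat_lit 10) (nat_lit 20) (nat_lit 0x17e7ecafbf865fd5aebf28b57e603afa8565f5cb6beb3d57e476afc445) b18402 (.hit (nat_lit 15) (nat_lit 28) (nat_lit 0x17e6b52fbd175fc5a6bf1ef97e4cc2fa5e75f57d8beaa197e33f2fc1d6) b18403 (.nil))) (.nil)))) (.tok (nat_lit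 6) (nat_lit 0x180000300000600000c00001800002fd7c55fb70abf71557fad7aff6d1) (.hit (nat_lit 81) (nat_lit 0) (nat_lit 0x17f9a42fee235ff1bcbfb6b97f81bafd7c55fb70abf71557f89cafef92) b18412 (.tok (nat_lit 3) (nat_lit 0x17f9ab2fe4ad5ffde6bfbfbd7f8d8afb8fa5f7dfebef6657f9512ff2a2) (.hit (nat_lit 82) (nat_lit 1) (nat_lit 0x17ec22afca405fd2c0bf51497eb162fa04c5f4ca2be93ad7eb942fd728) b18413 (.one (nat_lit 67) (nat_lit 83) (nat_lit 2) (nat_lit 0x17f9ab2fe4ad5ffde6bfbfbd7f8d8afb8fa5f7dfebef6657f9512ff2a2) b18414 (.nil))) (.tok (nat_lit 6) (nat_lit 0x180000300000600000c00001800002fc9695f9edcbf38217fad7aff6d1) (.hit (nat_lit 87) (nat_lit 7) (nat_lit 0x17f61d2fe87d5fed2ebf99017f4252fb3885f731abee09d7f280afe866) b18415 (.hit (nat_lit 95) (nat_lit 15) (nat_lit 0x17ed3dafc9da5fc316bf57cd7ebe6af97d45f3bb2be71cd7ec64afd8c9) b18418 (.tok (nat_lit 55) (nat_lit 0x180000300000600000c00001800002fc9695f9edcbf38217fad7aff6d1)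 (.hit (nat_lit 88) (nat_lit 8) (nat_lit 0x1800002ff82d5ffd3ac00001800002fc7785f9afabf305d7fad7aff6d1) b18416 (.hit (nat_lit 96) (nat_lit 16) (nat_lit 0x17f989afe65b5ff9cabfc72d7f9c6afc5bf5f9788bf29797fa3f2ff47e) b18419 (.one (nat_lit 6) (nat_lit 89) (nat_lit 9) (nat_lit 0x17faa2b00000600000bfc50d7f9902fc9695f9edcbf38217fa0c2ff1a8) b18417 (.nil)))) (.nil)))) (.nil)))) (.tok (nat_lit 9) (nat_lit 0x180000300000600000bfe3417fd5530038a600b1cc017f580000300000) (.hit (nat_lit 157) (nat_lit 0) (nat_lit 0x17f9a42fee235ff1bcbfa6557f557afee4c5fde90bfc24d7f9fcaff0fd) b18404 (.tok (nat_lit 3) (nat_lit 0x17f9ab2fe4ad5ffde6bfadc97f6a62ff9e25ff4fec0066d7f9512ff2a2) (.hit (nat_lit 158) (nat_lit 1) (nat_lit 0x17ec22afca405fd2c0bf3fe17e8e92fda8e5fc0dcbf81017eb942fd728) b18405 (.one (nat_lit 55) (nat_lit 159) (nat_lit 3) (nat_lit 0x17f9ab2fe4ad5ffde6bfadc97f6a62ff9e25ff4fec0066d7f9512ff2a2) b18406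 (.nil))) (.tok (nat_lit 9) (nat_lit 0x180000300000600000bfe3417fd5530038a600b1cc017f580000300000) (.hit (nat_lit 163) (nat_lit 20) (nat_lit 0x17f61d2fe87d5fed2ebf76d57efc7afed095fe724bfbce57f280afe864) b18407 (.hit (nat_lit 171) (nat_lit 28) (nat_lit 0x17ed3dafc9da5fc316bf46657e9b9afe01f5fc542bf88157ec64afd8c9) b18410 (.tok (nat_lit 67) (nat_lit 0x180000300000600000bfe3417fd5530038a600b1cc017f580000300000) (.hit (nat_lit 164) (nat_lit 21) (nat_lit 0x1800002ff82d5ffd3abfe3417fd5530038a600b1cc017f580000300000) b18408 (.hit (nat_lit 172) (nat_lit 29) (nat_lit 0x17f989afe65b5ff9cabfb5397f7942ffbc15ff820bff6bd7fa3f2ff47e) b18411 (.one (nat_lit 9) (nat_lit 165) (nat_lit 22) (nat_lit 0x17faa2b00000600000bfb3e17f7692ff6125fff22c008dd7fa142ffdba) b18409 (.nil)))) (.nil)))) (.nil)))) (.nil)))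
noncomputable def r20_261 : Rw Blk := .tok (nat_lit 6) (nat_lit 0xbc000178000300000) (.hit (nat_lit 51) (nat_lit 0) (nat_lit 0xbc0001780002ff743) b8943 (.tok (nat_lit 3) (nat_lit 0xbc0001780002ffecc) (.hit (nat_lit 52) (nat_lit 1) (nat_lit 0xbc0001780002fdccb) b8944 (.one (nat_lit 14) (nat_lit 53) (nat_lit 4) (nat_lit 0xbc0001780002ffecc) b9239 (.one (nat_lit 56) (nat_lit 55) (nat_lit 6) (nat_lit 0xbc0001780002ff720) b8945 (.nil)))) (.tok (nat_lit 40) (nat_lit 0xbc0001780002ff5de) (.hit (nat_lit 56) (nat_lit 33) (nat_lit 0xbc0001780002ff5de) b8947 (.hit (nat_lit 57) (nat_lit 34) (nat_lit 0xbc0001780002ff3d8) b8948 (.nil))) (.tok (nat_lit 43) (nat_lit 0xbc000178000300000) (.hit (nat_lit 58) (nat_lit 35) (nat_lit 0xbc000178000300000) b8951 (.hit (nat_lit 59) (nat_lit 36) (nat_lit 0xbc0001780002ff6ae) b8952 (.nil))) (.tok (nat_lit 46) (nat_lit 0xbc0001780002ffbd8) (.hit (nat_lit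 60) (nat_lit 37) (nat_lit 0xbc0001780002fe56f) b8949 (.hit (nat_lit 61) (nat_lit 38) (nat_lit 0xbc0001780002ffbd8) b8950 (.nil))) (.nil)))))) (.tok (nat_lit 9) (nat_lit 0xbc000178000300000) (.hit (nat_lit 0) (nat_lit 0) (nat_lit 0xbc0001780002ff743) b8943 (.tok (nat_lit 3) (nat_lit 0xbc0001780002ffecc) (.hit (nat_lit 1) (nat_lit 1) (nat_lit 0xbc0001780002fdccb) b8944 (.one (nat_lit 14) (nat_lit 2) (nat_lit 4) (nat_lit 0xbc0001780002ffecc) b9239 (.one (nat_lit 68) (nat_lit 3) (nat_lit 5) (nat_lit 0xbc0001780002ff720) b8945 (.nil)))) (.tok (nat_lit 40) (nat_lit 0xbc0001780002ff5de) (.hit (nat_lit 5) (nat_lit 33) (nat_lit 0xbc0001780002ff5de) b8947 (.hit (nat_lit 6) (nat_lit 34) (nat_lit 0xbc0001780002ff3d8) b8948 (.nil))) (.tok (nat_lit 43) (nat_lit 0xbc0001780002ffbd8) (.hit (nat_lit 7) (nat_lit 35) (nat_lit 0xbc0001780002fe56f) b8949 (.hit (nat_lit 8) (nat_lit 36) (nat_lit 0xbc0001780002ffbd8)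 b8950 (.nil))) (.tok (nat_lit 46) (nat_lit 0xbc000178000300000) (.hit (nat_lit 9) (nat_lit 37) (nat_lit 0xbc000178000300000) b8951 (.hit (nat_lit 10) (nat_lit 38) (nat_lit 0xbc0001780002ff6ae) b8952 (.nil))) (.nil)))))) (.nil))
noncomputable def r20_262 : Rw Blk := .tok (nat_lit 3) (nat_lit 0xbc0001780002fddcf) (.hit (nat_lit 61) (nat_lit 0) (nat_lit 0xbc0001780002fd208) b9255 (.tok (nat_lit 9) (nat_lit 0xbc0001780002fd53e) (.hit (nat_lit 62) (nat_lit 20) (nat_lit 0xbc0001780002fbbb6) b9256 (.hit (nat_lit 67) (nat_lit 28) (nat_lit 0xbc0001780002fad94) b9261 (.tok (nat_lit 14) (nat_lit 0xbc0001780002fcdbc) (.hit (nat_lit 63) (nat_lit 24) (nat_lit 0xbc0001780002fbdc9) b9257 (.hit (nat_lit 68) (nat_lit 30) (nat_lit 0xbc0001780002fc1ab) b9262 (.one (nat_lit 6) (nat_lit 64) (nat_lit 25) (nat_lit 0xbc0001780002fcdbc) b9258 (.nil)))) (.one (nat_lit 56) (nat_lit 69) (nat_lit 31) (nat_lit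 0xbc0001780002fc012) b9263 (.tok (nat_lit 68) (nat_lit 0xbc0001780002fd53e) (.hit (nat_lit 65) (nat_lit 26) (nat_lit 0xbc0001780002fcd30) b9259 (.hit (nat_lit 70) (nat_lit 32) (nat_lit 0xbc0001780002fbe92) b9264 (.one (nat_lit 9) (nat_lit 66) (nat_lit 27) (nat_lit 0xbc0001780002fd53e) b9260 (.nil)))) (.nil)))))) (.tok (nat_lit 64) (nat_lit 0xbc0001780002fc6cc) (.hit (nat_lit 71) (nat_lit 50) (nat_lit 0xbc0001780002fbf49) b9265 (.hit (nat_lit 72) (nat_lit 51) (nat_lit 0xbc0001780002fc6cc) b9266 (.nil))) (.tok (nat_lit 67) (nat_lit 0xbc0001780002fddcf) (.hit (nat_lit 73) (nat_lit 52) (nat_lit 0xbc0001780002fdd53) b9267 (.tok (nat_lit 3) (nat_lit 0xbc0001780002fddcf) (.hit (nat_lit 79) (nat_lit 58) (nat_lit 0xbc0001780002fd372) b9273 (.one (nat_lit 55) (nat_lit 80) (nat_lit 59) (nat_lit 0xbc0001780002fddcf) b9274 (.nil))) (.tok (nat_lit 9) (nat_lit 0xbc0001780002fd886) (.hit (nat_lit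 74) (nat_lit 53) (nat_lit 0xbc0001780002fc8b0) b9268 (.hit (nat_lit 77) (nat_lit 56) (nat_lit 0xbc0001780002fcbbd) b9271 (.tok (nat_lit 67) (nat_lit 0xbc0001780002fd886) (.hit (nat_lit 75) (nat_lit 54) (nat_lit 0xbc0001780002fd7c6) b9269 (.hit (nat_lit 78) (nat_lit 57) (nat_lit 0xbc0001780002fd886) b9272 (.one (nat_lit 9) (nat_lit 76) (nat_lit 55) (nat_lit 0xbc0001780002fd38a) b9270 (.nil)))) (.nil)))) (.nil)))) (.one (nat_lit 70) (nat_lit 81) (nat_lit 60) (nat_lit 0xbc0001780002fc77b) b9275 (.nil)))))) (.tok (nat_lit 6) (nat_lit 0xbc000178000300000) (.hit (nat_lit 0) (nat_lit 0) (nat_lit 0xbc0001780002feaff) b9240 (.tok (nat_lit 6) (nat_lit 0xbc0001780002ff817) (.hit (nat_lit 1) (nat_lit 7) (nat_lit 0xbc0001780002fd887) b9241 (.hit (nat_lit 6) (nat_lit 15) (nat_lit 0xbc0001780002fc60a) b9244 (.tok (nat_lit 14) (nat_lit 0xbc0001780002ff817) (.hit (nat_lit 2) (nat_lit 11) (nat_lit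 0xbc0001780002ff817) b9242 (.hit (nat_lit 7) (nat_lit 17) (nat_lit 0xbc0001780002fe65c) b9245 (.one (nat_lit 9) (nat_lit 3) (nat_lit 12) (nat_lit 0xbc0001780002ff6cc) b9243 (.nil)))) (.one (nat_lit 68) (nat_lit 8) (nat_lit 18) (nat_lit 0xbc0001780002fdb1d) b9246 (.nil))))) (.tok (nat_lit 52) (nat_lit 0xbc0001780002feaaa) (.hit (nat_lit 10) (nat_lit 39) (nat_lit 0xbc0001780002fdd77) b9247 (.hit (nat_lit 11) (nat_lit 40) (nat_lit 0xbc0001780002feaaa) b9248 (.nil))) (.tok (nat_lit 55) (nat_lit 0xbc000178000300000) (.hit (nat_lit 12) (nat_lit 41) (nat_lit 0xbc0001780002ff885) b9249 (.tok (nat_lit 3) (nat_lit 0xbc000178000300000) (.hit (nat_lit 18) (nat_lit 47) (nat_lit 0xbc0001780002fec8d) b9252 (.one (nat_lit 67) (nat_lit 19) (nat_lit 48) (nat_lit 0xbc000178000300000) b9253 (.nil))) (.tok (nat_lit 6) (nat_lit 0xbc0001780002fece8) (.hit (nat_lit 13) (nat_lit 42) (nat_lit 0xbc0001780002fe0f2)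 b9250 (.hit (nat_lit 16) (nat_lit 45) (nat_lit 0xbc0001780002fece8) b9251 (.nil))) (.nil)))) (.one (nat_lit 58) (nat_lit 20) (nat_lit 49) (nat_lit 0xbc0001780002fecd6) b9254 (.nil)))))) (.nil))
noncomputable def r20_263 : Rw Blk := .tok (nat_lit 3) (nat_lit 0xbc0001780002ff90f) (.hit (nat_lit 61) (nat_lit 0) (nat_lit 0xbc0001780002fdd67) b9291 (.tok (nat_lit 9) (nat_lit 0xbc0001780002fe295) (.hit (nat_lit 62) (nat_lit 20) (nat_lit 0xbc0001780002fc278) b9292 (.hit (nat_lit 67) (nat_lit 28) (nat_lit 0xbc0001780002fc5e7) b9297 (.tok (nat_lit 14) (nat_lit 0xbc0001780002fe295) (.hit (nat_lit 63) (nat_lit 24) (nat_lit 0xbc0001780002fd806) b9293 (.hit (nat_lit 68) (nat_lit 30) (nat_lit 0xbc0001780002fd4f7) b9298 (.one (nat_lit 6) (nat_lit 64) (nat_lit 25) (nat_lit 0xbc0001780002fe295) b9294 (.nil)))) (.one (nat_lit 56) (nat_lit 69) (nat_lit 31) (nat_lit 0xbc0001780002fdc1d) b9299 (.tok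 (nat_lit 68) (nat_lit 0xbc0001780002fddcb) (.hit (nat_lit 65) (nat_lit 26) (nat_lit 0xbc0001780002fda4a) b9295 (.hit (nat_lit 70) (nat_lit 32) (nat_lit 0xbc0001780002fd618) b9300 (.one (nat_lit 9) (nat_lit 66) (nat_lit 27) (nat_lit 0xbc0001780002fddcb) b9296 (.nil)))) (.nil)))))) (.tok (nat_lit 64) (nat_lit 0xbc0001780002fe036) (.hit (nat_lit 71) (nat_lit 50) (nat_lit 0xbc0001780002fd900) b9301 (.hit (nat_lit 72) (nat_lit 51) (nat_lit 0xbc0001780002fe036) b9302 (.nil))) (.tok (nat_lit 67) (nat_lit 0xbc0001780002ff90f) (.hit (nat_lit 73) (nat_lit 52) (nat_lit 0xbc0001780002fefd2) b9303 (.tok (nat_lit 3) (nat_lit 0xbc0001780002ff019) (.hit (nat_lit 79) (nat_lit 58) (nat_lit 0xbc0001780002fe867) b9309 (.one (nat_lit 55) (nat_lit 80) (nat_lit 59) (nat_lit 0xbc0001780002ff019) b9310 (.nil))) (.tok (nat_lit 9) (nat_lit 0xbc0001780002ff90f) (.hit (nat_lit 74) (nat_lit 53) (nat_lit 0xbc0001780002ff1c1)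 b9304 (.hit (nat_lit 77) (nat_lit 56) (nat_lit 0xbc0001780002fdf22) b9307 (.tok (nat_lit 67) (nat_lit 0xbc0001780002ff90f) (.hit (nat_lit 75) (nat_lit 54) (nat_lit 0xbc0001780002ff90f) b9305 (.hit (nat_lit 78) (nat_lit 57) (nat_lit 0xbc0001780002ff067) b9308 (.one (nat_lit 9) (nat_lit 76) (nat_lit 55) (nat_lit 0xbc0001780002ff177) b9306 (.nil)))) (.nil)))) (.nil)))) (.one (nat_lit 70) (nat_lit 81) (nat_lit 60) (nat_lit 0xbc0001780002fdfc6) b9311 (.nil)))))) (.tok (nat_lit 6) (nat_lit 0xbc000178000300000) (.hit (nat_lit 0) (nat_lit 0) (nat_lit 0xbc0001780002feb1e) b9276 (.tok (nat_lit 6) (nat_lit 0xbc0001780002ff88b) (.hit (nat_lit 1) (nat_lit 7) (nat_lit 0xbc0001780002fdf48) b9277 (.hit (nat_lit 6) (nat_lit 15) (nat_lit 0xbc0001780002fd1ef) b9280 (.tok (nat_lit 14) (nat_lit 0xbc0001780002ff88b) (.hit (nat_lit 2) (nat_lit 11) (nat_lit 0xbc0001780002ff001) b9278 (.hit (nat_lit 7)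 (nat_lit 17) (nat_lit 0xbc0001780002ff88b) b9281 (.one (nat_lit 9) (nat_lit 3) (nat_lit 12) (nat_lit 0xbc0001780002fef49) b9279 (.nil)))) (.one (nat_lit 68) (nat_lit 8) (nat_lit 18) (nat_lit 0xbc0001780002feed9) b9282 (.nil))))) (.tok (nat_lit 52) (nat_lit 0xbc0001780002ff51c) (.hit (nat_lit 10) (nat_lit 39) (nat_lit 0xbc0001780002fe509) b9283 (.hit (nat_lit 11) (nat_lit 40) (nat_lit 0xbc0001780002ff51c) b9284 (.nil))) (.tok (nat_lit 55) (nat_lit 0xbc000178000300000) (.hit (nat_lit 12) (nat_lit 41) (nat_lit 0xbc0001780002ffa9e) b9285 (.tok (nat_lit 3) (nat_lit 0xbc0001780002fffab) (.hit (nat_lit 18) (nat_lit 47) (nat_lit 0xbc0001780002fecf0) b9288 (.one (nat_lit 67) (nat_lit 19) (nat_lit 48) (nat_lit 0xbc0001780002fffab) b9289 (.nil))) (.tok (nat_lit 6) (nat_lit 0xbc000178000300000) (.hit (nat_lit 13) (nat_lit 42) (nat_lit 0xbc000178000300000) b9286 (.hit (nat_lit 16) (nat_lit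 45) (nat_lit 0xbc0001780002ffc01) b9287 (.nil))) (.nil)))) (.one (nat_lit 58) (nat_lit 20) (nat_lit 49) (nat_lit 0xbc0001780002ff36a) b9290 (.nil)))))) (.nil))
noncomputable def r20_264 : Rw Blk := .tok (nat_lit 3) (nat_lit 0xbc0001780002fe012) (.hit (nat_lit 61) (nat_lit 0) (nat_lit 0xbc0001780002fd44b) b18435 (.tok (nat_lit 6) (nat_lit 0xbc0001780002fd781) (.hit (nat_lit 62) (nat_lit 7) (nat_lit 0xbc0001780002fbdf9) b18436 (.hit (nat_lit 67) (nat_lit 15) (nat_lit 0xbc0001780002fafd7) b18441 (.tok (nat_lit 14) (nat_lit 0xbc0001780002fcfff) (.hit (nat_lit 63) (nat_lit 11) (nat_lit 0xbc0001780002fc00c) b18437 (.hit (nat_lit 68) (nat_lit 17) (nat_lit 0xbc0001780002fc3ee) b18442 (.one (nat_lit 9) (nat_lit 64) (nat_lit 12) (nat_lit 0xbc0001780002fcfff) b18438 (.nil)))) (.tok (nat_lit 56) (nat_lit 0xbc0001780002fd781) (.hit (nat_lit 65) (nat_lit 13) (nat_lit 0xbc0001780002fcf73) b18439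 (.hit (nat_lit 70) (nat_lit 19) (nat_lit 0xbc0001780002fc0d5) b18444 (.one (nat_lit 6) (nat_lit 66) (nat_lit 14) (nat_lit 0xbc0001780002fd781) b18440 (.nil)))) (.one (nat_lit 68) (nat_lit 69) (nat_lit 18) (nat_lit 0xbc0001780002fc255) b18443 (.nil)))))) (.tok (nat_lit 52) (nat_lit 0xbc0001780002fc90f) (.hit (nat_lit 71) (nat_lit 39) (nat_lit 0xbc0001780002fc18c) b18445 (.hit (nat_lit 72) (nat_lit 40) (nat_lit 0xbc0001780002fc90f) b18446 (.nil))) (.tok (nat_lit 55) (nat_lit 0xbc0001780002fe012) (.hit (nat_lit 73) (nat_lit 41) (nat_lit 0xbc0001780002fdf96) b18447 (.tok (nat_lit 3) (nat_lit 0xbc0001780002fe012) (.hit (nat_lit 79) (nat_lit 47) (nat_lit 0xbc0001780002fd5b5) b18453 (.one (nat_lit 67) (nat_lit 80) (nat_lit 48) (nat_lit 0xbc0001780002fe012) b18454 (.nil))) (.tok (nat_lit 6) (nat_lit 0xbc0001780002fdac9) (.hit (nat_lit 74) (nat_lit 42) (nat_lit 0xbc0001780002fcaf3) b18448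 (.hit (nat_lit 77) (nat_lit 45) (nat_lit 0xbc0001780002fce00) b18451 (.tok (nat_lit 55) (nat_lit 0xbc0001780002fdac9) (.hit (nat_lit 75) (nat_lit 43) (nat_lit 0xbc0001780002fda09) b18449 (.hit (nat_lit 78) (nat_lit 46) (nat_lit 0xbc0001780002fdac9) b18452 (.one (nat_lit 6) (nat_lit 76) (nat_lit 44) (nat_lit 0xbc0001780002fd5cd) b18450 (.nil)))) (.nil)))) (.nil)))) (.one (nat_lit 58) (nat_lit 81) (nat_lit 49) (nat_lit 0xbc0001780002fc9be) b18455 (.nil)))))) (.tok (nat_lit 9) (nat_lit 0xbc000178000300243) (.hit (nat_lit 0) (nat_lit 0) (nat_lit 0xbc0001780002fed42) b18420 (.tok (nat_lit 9) (nat_lit 0xbc0001780002ffa5a) (.hit (nat_lit 1) (nat_lit 20) (nat_lit 0xbc0001780002fdaca) b18421 (.hit (nat_lit 6) (nat_lit 28) (nat_lit 0xbc0001780002fc84d) b18424 (.tok (nat_lit 14) (nat_lit 0xbc0001780002ffa5a) (.hit (nat_lit 2) (nat_lit 24) (nat_lit 0xbc0001780002ffa5a) b18422 (.hit (nat_lit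 7) (nat_lit 30) (nat_lit 0xbc0001780002fe89f) b18425 (.one (nat_lit 6) (nat_lit 3) (nat_lit 25) (nat_lit 0xbc0001780002ff90f) b18423 (.nil)))) (.one (nat_lit 56) (nat_lit 8) (nat_lit 31) (nat_lit 0xbc0001780002fdd60) b18426 (.nil))))) (.tok (nat_lit 64) (nat_lit 0xbc0001780002feced) (.hit (nat_lit 10) (nat_lit 50) (nat_lit 0xbc0001780002fdfba) b18427 (.hit (nat_lit 11) (nat_lit 51) (nat_lit 0xbc0001780002feced) b18428 (.nil))) (.tok (nat_lit 67) (nat_lit 0xbc000178000300243) (.hit (nat_lit 12) (nat_lit 52) (nat_lit 0xbc0001780002ffac8) b18429 (.tok (nat_lit 3) (nat_lit 0xbc000178000300243) (.hit (nat_lit 18) (nat_lit 58) (nat_lit 0xbc0001780002feed0) b18432 (.one (nat_lit 55) (nat_lit 19) (nat_lit 59) (nat_lit 0xbc000178000300243) b18433 (.nil))) (.tok (nat_lit 9) (nat_lit 0xbc0001780002fef2b) (.hit (nat_lit 13) (nat_lit 53) (nat_lit 0xbc0001780002fe335) b18430 (.hit (nat_lit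 16) (nat_lit 56) (nat_lit 0xbc0001780002fef2b) b18431 (.nil))) (.nil)))) (.one (nat_lit 70) (nat_lit 20) (nat_lit 60) (nat_lit 0xbc0001780002fef19) b18434 (.nil)))))) (.nil))
noncomputable def r20_265 : Rw Blk := .tok (nat_lit 3) (nat_lit 0xbc0001780002ff90f) (.hit (nat_lit 61) (nat_lit 0) (nat_lit 0xbc0001780002fdd67) b9291 (.tok (nat_lit 6) (nat_lit 0xbc0001780002fe295) (.hit (nat_lit 62) (nat_lit 7) (nat_lit 0xbc0001780002fc278) b9292 (.hit (nat_lit 67) (nat_lit 15) (nat_lit 0xbc0001780002fc5e7) b9297 (.tok (nat_lit 14) (nat_lit 0xbc0001780002fe295) (.hit (nat_lit 63) (nat_lit 11) (nat_lit 0xbc0001780002fd806) b9293 (.hit (nat_lit 68) (nat_lit 17) (nat_lit 0xbc0001780002fd4f7) b9298 (.one (nat_lit 9) (nat_lit 64) (nat_lit 12) (nat_lit 0xbc0001780002fe295) b9294 (.nil)))) (.tok (nat_lit 56) (nat_lit 0xbc0001780002fddcb) (.hit (nat_lit 65) (nat_lit 13) (nat_lit 0xbc0001780002fda4a)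 b9295 (.hit (nat_lit 70) (nat_lit 19) (nat_lit 0xbc0001780002fd618) b9300 (.one (nat_lit 6) (nat_lit 66) (nat_lit 14) (nat_lit 0xbc0001780002fddcb) b9296 (.nil)))) (.one (nat_lit 68) (nat_lit 69) (nat_lit 18) (nat_lit 0xbc0001780002fdc1d) b9299 (.nil)))))) (.tok (nat_lit 52) (nat_lit 0xbc0001780002fe036) (.hit (nat_lit 71) (nat_lit 39) (nat_lit 0xbc0001780002fd900) b9301 (.hit (nat_lit 72) (nat_lit 40) (nat_lit 0xbc0001780002fe036) b9302 (.nil))) (.tok (nat_lit 55) (nat_lit 0xbc0001780002ff90f) (.hit (nat_lit 73) (nat_lit 41) (nat_lit 0xbc0001780002fefd2) b9303 (.tok (nat_lit 3) (nat_lit 0xbc0001780002ff019) (.hit (nat_lit 79) (nat_lit 47) (nat_lit 0xbc0001780002fe867) b9309 (.one (nat_lit 67) (nat_lit 80) (nat_lit 48) (nat_lit 0xbc0001780002ff019) b9310 (.nil))) (.tok (nat_lit 6) (nat_lit 0xbc0001780002ff90f) (.hit (nat_lit 74) (nat_lit 42) (nat_lit 0xbc0001780002ff1c1) b9304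 (.hit (nat_lit 77) (nat_lit 45) (nat_lit 0xbc0001780002fdf22) b9307 (.tok (nat_lit 55) (nat_lit 0xbc0001780002ff90f) (.hit (nat_lit 75) (nat_lit 43) (nat_lit 0xbc0001780002ff90f) b9305 (.hit (nat_lit 78) (nat_lit 46) (nat_lit 0xbc0001780002ff067) b9308 (.one (nat_lit 6) (nat_lit 76) (nat_lit 44) (nat_lit 0xbc0001780002ff177) b9306 (.nil)))) (.nil)))) (.nil)))) (.one (nat_lit 58) (nat_lit 81) (nat_lit 49) (nat_lit 0xbc0001780002fdfc6) b9311 (.nil)))))) (.tok (nat_lit 9) (nat_lit 0xbc000178000300000) (.hit (nat_lit 0) (nat_lit 0) (nat_lit 0xbc0001780002feb1e) b9276 (.tok (nat_lit 9) (nat_lit 0xbc0001780002ff88b) (.hit (nat_lit 1) (nat_lit 20) (nat_lit 0xbc0001780002fdf48) b9277 (.hit (nat_lit 6) (nat_lit 28) (nat_lit 0xbc0001780002fd1ef) b9280 (.tok (nat_lit 14) (nat_lit 0xbc0001780002ff88b) (.hit (nat_lit 2) (nat_lit 24) (nat_lit 0xbc0001780002ff001) b9278 (.hit (nat_lit 7) (nat_lit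 30) (nat_lit 0xbc0001780002ff88b) b9281 (.one (nat_lit 6) (nat_lit 3) (nat_lit 25) (nat_lit 0xbc0001780002fef49) b9279 (.nil)))) (.one (nat_lit 56) (nat_lit 8) (nat_lit 31) (nat_lit 0xbc0001780002feed9) b9282 (.nil))))) (.tok (nat_lit 64) (nat_lit 0xbc0001780002ff51c) (.hit (nat_lit 10) (nat_lit 50) (nat_lit 0xbc0001780002fe509) b9283 (.hit (nat_lit 11) (nat_lit 51) (nat_lit 0xbc0001780002ff51c) b9284 (.nil))) (.tok (nat_lit 67) (nat_lit 0xbc000178000300000) (.hit (nat_lit 12) (nat_lit 52) (nat_lit 0xbc0001780002ffa9e) b9285 (.tok (nat_lit 3) (nat_lit 0xbc0001780002fffab) (.hit (nat_lit 18) (nat_lit 58) (nat_lit 0xbc0001780002fecf0) b9288 (.one (nat_lit 55) (nat_lit 19) (nat_lit 59) (nat_lit 0xbc0001780002fffab) b9289 (.nil))) (.tok (nat_lit 9) (nat_lit 0xbc000178000300000) (.hit (nat_lit 13) (nat_lit 53) (nat_lit 0xbc000178000300000) b9286 (.hit (nat_lit 16) (nat_lit 56) (nat_lit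 0xbc0001780002ffc01) b9287 (.nil))) (.nil)))) (.one (nat_lit 70) (nat_lit 20) (nat_lit 60) (nat_lit 0xbc0001780002ff36a) b9290 (.nil)))))) (.nil))
noncomputable def r20_266 : Rw Blk := .tok (nat_lit 3) (nat_lit 0x17ede4afc6905fbf80bf8cf97f198afdf88) (.hit (nat_lit 0) (nat_lit 0) (nat_lit 0x17ede4afc6905fbf80bf8cf97f198afdf88) b36012 (.tok (nat_lit 6) (nat_lit 0x17e74eafaf4d5fba52bf2a097e79bafb376) (.hit (nat_lit 1) (nat_lit 7) (nat_lit 0x17e74eafaf4d5fba52bf2a097e79bafb376) b18457 (.hit (nat_lit 6) (nat_lit 15) (nat_lit 0x17e6172facde5faa4abf204d7e6642fb107) b18458 (.nil))) (.tok (nat_lit 9) (nat_lit 0x17e74eafaf4d5fba52bf2a097e79bafb376) (.hit (nat_lit 10) (nat_lit 20) (nat_lit 0x17e74eafaf4d5fba52bf2a097e79bafb376) b18457 (.hit (nat_lit 15) (nat_lit 28) (nat_lit 0x17e6172facde5faa4abf204d7e6642fb107) b18458 (.nil))) (.nil)))) (.tok (nat_lit 6) (nat_lit 0x180000300000600000bff30d7feccb0070f)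 (.hit (nat_lit 81) (nat_lit 0) (nat_lit 0x17f9062fddea5fd660bfcee17f9d5aff8da) b18467 (.one (nat_lit 3) (nat_lit 82) (nat_lit 1) (nat_lit 0x17eb84afba075fb764bf3e6d7e7c72fe4ab) b18468 (.tok (nat_lit 6) (nat_lit 0x180000300000600000bff30d7feccb0070f) (.hit (nat_lit 87) (nat_lit 7) (nat_lit 0x17f57f2fd8445fd1d2bf86e57eea5afeb81) b18469 (.hit (nat_lit 95) (nat_lit 15) (nat_lit 0x17ec9fafb9a15fa7babf44f17e897afe57b) b18473 (.tok (nat_lit 55) (nat_lit 0x180000300000600000bff30d7feccb0070f) (.hit (nat_lit 88) (nat_lit 8) (nat_lit 0x17ff622fe7f45fe1debff30d7fc33300044) b18470 (.hit (nat_lit 96) (nat_lit 16) (nat_lit 0x17f8ebafd6225fde6ebfb45d7f6852ffb8b) b18474 (.tok (nat_lit 6) (nat_lit 0x180000300000600000bfe3c97feccb0070f) (.hit (nat_lit 89) (nat_lit 9) (nat_lit 0x17fa04afefc75fe4a4bfb26d7f82530070f) b18471 (.one (nat_lit 55) (nat_lit 90) (nat_lit 10) (nat_lit 0x180000300000600000bfe3c97feccb004c2)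 b18472 (.nil))) (.nil)))) (.nil)))) (.nil)))) (.tok (nat_lit 9) (nat_lit 0x180000300000600000c00001800002fe1d8) (.hit (nat_lit 157) (nat_lit 0) (nat_lit 0x17f9062fddea5fd660bfba417f9862fe0ac) b18459 (.one (nat_lit 3) (nat_lit 158) (nat_lit 1) (nat_lit 0x17eb84afba075fb764bf5ac97eb52afab6c) b18460 (.tok (nat_lit 9) (nat_lit 0x180000300000600000c00001800002fe1d8) (.hit (nat_lit 163) (nat_lit 20) (nat_lit 0x17f57f2fd8445fd1d2bf92357f34bafbea8) b18461 (.hit (nat_lit 171) (nat_lit 28) (nat_lit 0x17ec9fafb9a15fa7babf614d7ec232fa2f4) b18465 (.tok (nat_lit 67) (nat_lit 0x180000300000600000c00001800002fe1d8) (.hit (nat_lit 164) (nat_lit 21) (nat_lit 0x17ff622fe7f45fe1debfccf17faf4afd298) b18462 (.hit (nat_lit 172) (nat_lit 29) (nat_lit 0x17f8ebafd6225fde6ebfa5617f6712fd0df) b18466 (.tok (nat_lit 9) (nat_lit 0x180000300000600000c00001800002fe1d8) (.hit (nat_lit 165) (nat_lit 22) (nat_lit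 0x17fa04afefc75fe4a4bfaea57f8412fd489) b18463 (.one (nat_lit 67) (nat_lit 166) (nat_lit 23) (nat_lit 0x180000300000600000c00001800002fe1d8) b18464 (.nil))) (.nil)))) (.nil)))) (.nil)))) (.nil)))
noncomputable def r20_267 : Rw Blk := .tok (nat_lit 6) (nat_lit 0xbc000178000300000) (.hit (nat_lit 51) (nat_lit 0) (nat_lit 0xbc0001780002ff743) b8943 (.tok (nat_lit 3) (nat_lit 0xbc0001780002ffecc) (.hit (nat_lit 52) (nat_lit 1) (nat_lit 0xbc0001780002fdccb) b8944 (.one (nat_lit 14) (nat_lit 53) (nat_lit 4) (nat_lit 0xbc0001780002ffecc) b9239 (.one (nat_lit 68) (nat_lit 54) (nat_lit 5) (nat_lit 0xbc0001780002fef3e) b8946 (.nil)))) (.tok (nat_lit 40) (nat_lit 0xbc0001780002ff5de) (.hit (nat_lit 56) (nat_lit 33) (nat_lit 0xbc0001780002ff5de) b8947 (.hit (nat_lit 57) (nat_lit 34) (nat_lit 0xbc0001780002ff3d8) b8948 (.nil))) (.tok (nat_lit 43) (nat_lit 0xbc000178000300000) (.hit (nat_lit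 58) (nat_lit 35) (nat_lit 0xbc000178000300000) b8951 (.hit (nat_lit 59) (nat_lit 36) (nat_lit 0xbc0001780002ff6ae) b8952 (.nil))) (.tok (nat_lit 46) (nat_lit 0xbc0001780002ffbd8) (.hit (nat_lit 60) (nat_lit 37) (nat_lit 0xbc0001780002fe56f) b8949 (.hit (nat_lit 61) (nat_lit 38) (nat_lit 0xbc0001780002ffbd8) b8950 (.nil))) (.nil)))))) (.tok (nat_lit 9) (nat_lit 0xbc000178000300000) (.hit (nat_lit 0) (nat_lit 0) (nat_lit 0xbc0001780002ff743) b8943 (.tok (nat_lit 3) (nat_lit 0xbc0001780002ffecc) (.hit (nat_lit 1) (nat_lit 1) (nat_lit 0xbc0001780002fdccb) b8944 (.one (nat_lit 14) (nat_lit 2) (nat_lit 4) (nat_lit 0xbc0001780002ffecc) b9239 (.one (nat_lit 56) (nat_lit 4) (nat_lit 6) (nat_lit 0xbc0001780002fef3e) b8946 (.nil)))) (.tok (nat_lit 40) (nat_lit 0xbc0001780002ff5de) (.hit (nat_lit 5) (nat_lit 33) (nat_lit 0xbc0001780002ff5de) b8947 (.hit (nat_lit 6) (nat_lit 34) (nat_lit 0xbc0001780002ff3d8)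 b8948 (.nil))) (.tok (nat_lit 43) (nat_lit 0xbc0001780002ffbd8) (.hit (nat_lit 7) (nat_lit 35) (nat_lit 0xbc0001780002fe56f) b8949 (.hit (nat_lit 8) (nat_lit 36) (nat_lit 0xbc0001780002ffbd8) b8950 (.nil))) (.tok (nat_lit 46) (nat_lit 0xbc000178000300000) (.hit (nat_lit 9) (nat_lit 37) (nat_lit 0xbc000178000300000) b8951 (.hit (nat_lit 10) (nat_lit 38) (nat_lit 0xbc0001780002ff6ae) b8952 (.nil))) (.nil)))))) (.nil))
noncomputable def r20_268 : Rw Blk := .tok (nat_lit 3) (nat_lit 0xbc0001780002fd53e) (.hit (nat_lit 61) (nat_lit 0) (nat_lit 0xbc0001780002fd208) b9255 (.tok (nat_lit 9) (nat_lit 0xbc0001780002fd53e) (.hit (nat_lit 62) (nat_lit 20) (nat_lit 0xbc0001780002fbbb6) b9256 (.hit (nat_lit 67) (nat_lit 28) (nat_lit 0xbc0001780002fad94) b9261 (.tok (nat_lit 14) (nat_lit 0xbc0001780002fcdbc) (.hit (nat_lit 63) (nat_lit 24) (nat_lit 0xbc0001780002fbdc9) b9257 (.hit (nat_lit 68)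 (nat_lit 30) (nat_lit 0xbc0001780002fc1ab) b9262 (.one (nat_lit 6) (nat_lit 64) (nat_lit 25) (nat_lit 0xbc0001780002fcdbc) b9258 (.nil)))) (.one (nat_lit 56) (nat_lit 69) (nat_lit 31) (nat_lit 0xbc0001780002fc012) b9263 (.tok (nat_lit 68) (nat_lit 0xbc0001780002fd53e) (.hit (nat_lit 65) (nat_lit 26) (nat_lit 0xbc0001780002fcd30) b9259 (.hit (nat_lit 70) (nat_lit 32) (nat_lit 0xbc0001780002fbe92) b9264 (.one (nat_lit 9) (nat_lit 66) (nat_lit 27) (nat_lit 0xbc0001780002fd53e) b9260 (.nil)))) (.nil)))))) (.nil))) (.tok (nat_lit 6) (nat_lit 0xbc000178000300000) (.hit (nat_lit 0) (nat_lit 0) (nat_lit 0xbc0001780002feaff) b9240 (.tok (nat_lit 6) (nat_lit 0xbc0001780002fffbd) (.hit (nat_lit 1) (nat_lit 7) (nat_lit 0xbc0001780002fd887) b9241 (.hit (nat_lit 6) (nat_lit 15) (nat_lit 0xbc0001780002fc60a) b9244 (.tok (nat_lit 14) (nat_lit 0xbc0001780002ff817) (.hit (nat_lit 2) (nat_lit 11)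 (nat_lit 0xbc0001780002ff817) b9242 (.hit (nat_lit 7) (nat_lit 17) (nat_lit 0xbc0001780002fe65c) b9245 (.one (nat_lit 9) (nat_lit 3) (nat_lit 12) (nat_lit 0xbc0001780002ff6cc) b9243 (.nil)))) (.tok (nat_lit 56) (nat_lit 0xbc0001780002fffbd) (.hit (nat_lit 4) (nat_lit 13) (nat_lit 0xbc0001780002fef99) b9609 (.hit (nat_lit 9) (nat_lit 19) (nat_lit 0xbc0001780002fd621) b9611 (.one (nat_lit 6) (nat_lit 5) (nat_lit 14) (nat_lit 0xbc0001780002fffbd) b9610 (.nil)))) (.nil))))) (.tok (nat_lit 52) (nat_lit 0xbc0001780002feaaa) (.hit (nat_lit 10) (nat_lit 39) (nat_lit 0xbc0001780002fdd77) b9247 (.hit (nat_lit 11) (nat_lit 40) (nat_lit 0xbc0001780002feaaa) b9248 (.nil))) (.tok (nat_lit 55) (nat_lit 0xbc000178000300000) (.hit (nat_lit 12) (nat_lit 41) (nat_lit 0xbc0001780002ff885) b9249 (.tok (nat_lit 3) (nat_lit 0xbc000178000300000) (.hit (nat_lit 18) (nat_lit 47) (nat_lit 0xbc0001780002fec8d)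 b9252 (.one (nat_lit 67) (nat_lit 19) (nat_lit 48) (nat_lit 0xbc000178000300000) b9253 (.nil))) (.tok (nat_lit 6) (nat_lit 0xbc0001780002ffc81) (.hit (nat_lit 13) (nat_lit 42) (nat_lit 0xbc0001780002fe0f2) b9250 (.hit (nat_lit 16) (nat_lit 45) (nat_lit 0xbc0001780002fece8) b9251 (.tok (nat_lit 55) (nat_lit 0xbc0001780002ffc81) (.hit (nat_lit 14) (nat_lit 43) (nat_lit 0xbc0001780002ff6bd) b9612 (.hit (nat_lit 17) (nat_lit 46) (nat_lit 0xbc0001780002ffc81) b9614 (.one (nat_lit 6) (nat_lit 15) (nat_lit 44) (nat_lit 0xbc0001780002ff76a) b9613 (.nil)))) (.nil)))) (.nil)))) (.one (nat_lit 58) (nat_lit 20) (nat_lit 49) (nat_lit 0xbc0001780002fecd6) b9254 (.nil)))))) (.nil))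
noncomputable def r20_269 : Rw Blk := .tok (nat_lit 3) (nat_lit 0xbc0001780002fccf9) (.hit (nat_lit 61) (nat_lit 0) (nat_lit 0xbc0001780002fc7cb) b18525 (.tok (nat_lit 9) (nat_lit 0xbc0001780002fccf9) (.hit (nat_lit 62) (nat_lit 20) (nat_lit 0xbc0001780002facdc) b18526 (.hit (nat_lit 67) (nat_lit 28) (nat_lit 0xbc0001780002fb04b) b18531 (.tok (nat_lit 14) (nat_lit 0xbc0001780002fccf9) (.hit (nat_lit 63) (nat_lit 24) (nat_lit 0xbc0001780002fc26a) b18527 (.hit (nat_lit 68) (nat_lit 30) (nat_lit 0xbc0001780002fbf5b) b18532 (.one (nat_lit 6) (nat_lit 64) (nat_lit 25) (nat_lit 0xbc0001780002fccf9) b18528 (.nil)))) (.one (nat_lit 56) (nat_lit 69) (nat_lit 31) (nat_lit 0xbc0001780002fc681) b18533 (.tok (nat_lit 68) (nat_lit 0xbc0001780002fc82f) (.hit (nat_lit 65) (nat_lit 26) (nat_lit 0xbc0001780002fc4ae) b18529 (.hit (nat_lit 70) (nat_lit 32) (nat_lit 0xbc0001780002fc07c) b18534 (.one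 (nat_lit 9) (nat_lit 66) (nat_lit 27) (nat_lit 0xbc0001780002fc82f) b18530 (.nil)))) (.nil)))))) (.nil))) (.tok (nat_lit 6) (nat_lit 0xbc000178000300dea) (.hit (nat_lit 0) (nat_lit 0) (nat_lit 0xbc0001780002fd582) b18505 (.tok (nat_lit 6) (nat_lit 0xbc0001780002fe2ef) (.hit (nat_lit 1) (nat_lit 7) (nat_lit 0xbc0001780002fc9ac) b18506 (.hit (nat_lit 6) (nat_lit 15) (nat_lit 0xbc0001780002fbc53) b18511 (.tok (nat_lit 14) (nat_lit 0xbc0001780002fe2ef) (.hit (nat_lit 2) (nat_lit 11) (nat_lit 0xbc0001780002fda65) b18507 (.hit (nat_lit 7) (nat_lit 17) (nat_lit 0xbc0001780002fe2ef) b18512 (.one (nat_lit 9) (nat_lit 3) (nat_lit 12) (nat_lit 0xbc0001780002fd9ad) b18508 (.nil)))) (.tok (nat_lit 56) (nat_lit 0xbc0001780002fd9e0) (.hit (nat_lit 4) (nat_lit 13) (nat_lit 0xbc0001780002fd90b) b18509 (.hit (nat_lit 9) (nat_lit 19) (nat_lit 0xbc0001780002fd8e1) b18513 (.one (nat_lit 6) (nat_lit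 5) (nat_lit 14) (nat_lit 0xbc0001780002fd9e0) b18510 (.nil)))) (.nil))))) (.tok (nat_lit 52) (nat_lit 0xbc0001780002fdf80) (.hit (nat_lit 10) (nat_lit 39) (nat_lit 0xbc0001780002fcf6d) b18514 (.hit (nat_lit 11) (nat_lit 40) (nat_lit 0xbc0001780002fdf80) b18515 (.nil))) (.tok (nat_lit 55) (nat_lit 0xbc000178000300dea) (.hit (nat_lit 12) (nat_lit 41) (nat_lit 0xbc0001780002fe502) b18516 (.tok (nat_lit 3) (nat_lit 0xbc0001780002fea0f) (.hit (nat_lit 18) (nat_lit 47) (nat_lit 0xbc0001780002fd754) b18522 (.one (nat_lit 67) (nat_lit 19) (nat_lit 48) (nat_lit 0xbc0001780002fea0f) b18523 (.nil))) (.tok (nat_lit 6) (nat_lit 0xbc000178000300dea) (.hit (nat_lit 13) (nat_lit 42) (nat_lit 0xbc0001780002fea64) b18517 (.hit (nat_lit 16) (nat_lit 45) (nat_lit 0xbc0001780002fe665) b18520 (.tok (nat_lit 55) (nat_lit 0xbc000178000300dea) (.hit (nat_lit 14) (nat_lit 43) (nat_lit 0xbc0001780003006dc)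 b18518 (.hit (nat_lit 17) (nat_lit 46) (nat_lit 0xbc0001780002fe27b) b18521 (.one (nat_lit 6) (nat_lit 15) (nat_lit 44) (nat_lit 0xbc000178000300dea) b18519 (.nil)))) (.nil)))) (.nil)))) (.one (nat_lit 58) (nat_lit 20) (nat_lit 49) (nat_lit 0xbc0001780002fddce) b18524 (.nil)))))) (.nil))
noncomputable def r20_270 : Rw Blk := .tok (nat_lit 3) (nat_lit 0xbc0001780002fd53e) (.hit (nat_lit 61) (nat_lit 0) (nat_lit 0xbc0001780002fd208) b9255 (.tok (nat_lit 6) (nat_lit 0xbc0001780002fd53e) (.hit (nat_lit 62) (nat_lit 7) (nat_lit 0xbc0001780002fbbb6) b9256 (.hit (nat_lit 67) (nat_lit 15) (nat_lit 0xbc0001780002fad94) b9261 (.tok (nat_lit 14) (nat_lit 0xbc0001780002fcdbc) (.hit (nat_lit 63) (nat_lit 11) (nat_lit 0xbc0001780002fbdc9) b9257 (.hit (nat_lit 68) (nat_lit 17) (nat_lit 0xbc0001780002fc1ab) b9262 (.one (nat_lit 9) (nat_lit 64) (nat_lit 12) (nat_lit 0xbc0001780002fcdbc) b9258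 (.nil)))) (.tok (nat_lit 56) (nat_lit 0xbc0001780002fd53e) (.hit (nat_lit 65) (nat_lit 13) (nat_lit 0xbc0001780002fcd30) b9259 (.hit (nat_lit 70) (nat_lit 19) (nat_lit 0xbc0001780002fbe92) b9264 (.one (nat_lit 6) (nat_lit 66) (nat_lit 14) (nat_lit 0xbc0001780002fd53e) b9260 (.nil)))) (.one (nat_lit 68) (nat_lit 69) (nat_lit 18) (nat_lit 0xbc0001780002fc012) b9263 (.nil)))))) (.nil))) (.tok (nat_lit 9) (nat_lit 0xbc000178000300000) (.hit (nat_lit 0) (nat_lit 0) (nat_lit 0xbc0001780002feaff) b9240 (.tok (nat_lit 9) (nat_lit 0xbc0001780002fffbd) (.hit (nat_lit 1) (nat_lit 20) (nat_lit 0xbc0001780002fd887) b9241 (.hit (nat_lit 6) (nat_lit 28) (nat_lit 0xbc0001780002fc60a) b9244 (.tok (nat_lit 14) (nat_lit 0xbc0001780002ff817) (.hit (nat_lit 2) (nat_lit 24) (nat_lit 0xbc0001780002ff817) b9242 (.hit (nat_lit 7) (nat_lit 30) (nat_lit 0xbc0001780002fe65c) b9245 (.one (nat_lit 6) (nat_lit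 3) (nat_lit 25) (nat_lit 0xbc0001780002ff6cc) b9243 (.nil)))) (.tok (nat_lit 68) (nat_lit 0xbc0001780002fffbd) (.hit (nat_lit 4) (nat_lit 26) (nat_lit 0xbc0001780002fef99) b9609 (.hit (nat_lit 9) (nat_lit 32) (nat_lit 0xbc0001780002fd621) b9611 (.one (nat_lit 9) (nat_lit 5) (nat_lit 27) (nat_lit 0xbc0001780002fffbd) b9610 (.nil)))) (.nil))))) (.tok (nat_lit 64) (nat_lit 0xbc0001780002feaaa) (.hit (nat_lit 10) (nat_lit 50) (nat_lit 0xbc0001780002fdd77) b9247 (.hit (nat_lit 11) (nat_lit 51) (nat_lit 0xbc0001780002feaaa) b9248 (.nil))) (.tok (nat_lit 67) (nat_lit 0xbc000178000300000) (.hit (nat_lit 12) (nat_lit 52) (nat_lit 0xbc0001780002ff885) b9249 (.tok (nat_lit 3) (nat_lit 0xbc000178000300000) (.hit (nat_lit 18) (nat_lit 58) (nat_lit 0xbc0001780002fec8d) b9252 (.one (nat_lit 55) (nat_lit 19) (nat_lit 59) (nat_lit 0xbc000178000300000) b9253 (.nil))) (.tok (nat_lit 9) (nat_lit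 0xbc0001780002ffc81) (.hit (nat_lit 13) (nat_lit 53) (nat_lit 0xbc0001780002fe0f2) b9250 (.hit (nat_lit 16) (nat_lit 56) (nat_lit 0xbc0001780002fece8) b9251 (.tok (nat_lit 67) (nat_lit 0xbc0001780002ffc81) (.hit (nat_lit 14) (nat_lit 54) (nat_lit 0xbc0001780002ff6bd) b9612 (.hit (nat_lit 17) (nat_lit 57) (nat_lit 0xbc0001780002ffc81) b9614 (.one (nat_lit 9) (nat_lit 15) (nat_lit 55) (nat_lit 0xbc0001780002ff76a) b9613 (.nil)))) (.nil)))) (.nil)))) (.one (nat_lit 70) (nat_lit 20) (nat_lit 60) (nat_lit 0xbc0001780002fecd6) b9254 (.nil)))))) (.nil))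
noncomputable def r20_271 : Rw Blk := .tok (nat_lit 3) (nat_lit 0xbc0001780002fc3df) (.hit (nat_lit 61) (nat_lit 0) (nat_lit 0xbc0001780002fbeb1) b18495 (.tok (nat_lit 6) (nat_lit 0xbc0001780002fc3df) (.hit (nat_lit 62) (nat_lit 7) (nat_lit 0xbc0001780002fa3c2) b18496 (.hit (nat_lit 67) (nat_lit 15) (nat_lit 0xbc0001780002fa731) b18501 (.tok (nat_lit 14) (nat_lit 0xbc0001780002fc3df) (.hit (nat_lit 63) (nat_lit 11) (nat_lit 0xbc0001780002fb950) b18497 (.hit (nat_lit 68) (nat_lit 17) (nat_lit 0xbc0001780002fb641) b18502 (.one (nat_lit 9) (nat_lit 64) (nat_lit 12) (nat_lit 0xbc0001780002fc3df) b18498 (.nil)))) (.tok (nat_lit 56) (nat_lit 0xbc0001780002fbf15) (.hit (nat_lit 65) (nat_lit 13) (nat_lit 0xbc0001780002fbb94) b18499 (.hit (nat_lit 70) (nat_lit 19) (nat_lit 0xbc0001780002fb762) b18504 (.one (nat_lit 6) (nat_lit 66) (nat_lit 14) (nat_lit 0xbc0001780002fbf15) b18500 (.nil))))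 (.one (nat_lit 68) (nat_lit 69) (nat_lit 18) (nat_lit 0xbc0001780002fbd67) b18503 (.nil)))))) (.nil))) (.tok (nat_lit 9) (nat_lit 0xbc0001780003004d0) (.hit (nat_lit 0) (nat_lit 0) (nat_lit 0xbc0001780002fcc68) b18475 (.tok (nat_lit 9) (nat_lit 0xbc0001780002fd9d5) (.hit (nat_lit 1) (nat_lit 20) (nat_lit 0xbc0001780002fc092) b18476 (.hit (nat_lit 6) (nat_lit 28) (nat_lit 0xbc0001780002fb339) b18481 (.tok (nat_lit 14) (nat_lit 0xbc0001780002fd9d5) (.hit (nat_lit 2) (nat_lit 24) (nat_lit 0xbc0001780002fd14b) b18477 (.hit (nat_lit 7) (nat_lit 30) (nat_lit 0xbc0001780002fd9d5) b18482 (.one (nat_lit 6) (nat_lit 3) (nat_lit 25) (nat_lit 0xbc0001780002fd093) b18478 (.nil)))) (.tok (nat_lit 68) (nat_lit 0xbc0001780002fd0c6) (.hit (nat_lit 4) (nat_lit 26) (nat_lit 0xbc0001780002fcff1) b18479 (.hit (nat_lit 9) (nat_lit 32) (nat_lit 0xbc0001780002fcfc7) b18483 (.one (nat_lit 9) (nat_lit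 5) (nat_lit 27) (nat_lit 0xbc0001780002fd0c6) b18480 (.nil)))) (.nil))))) (.tok (nat_lit 64) (nat_lit 0xbc0001780002fd666) (.hit (nat_lit 10) (nat_lit 50) (nat_lit 0xbc0001780002fc653) b18484 (.hit (nat_lit 11) (nat_lit 51) (nat_lit 0xbc0001780002fd666) b18485 (.nil))) (.tok (nat_lit 67) (nat_lit 0xbc0001780003004d0) (.hit (nat_lit 12) (nat_lit 52) (nat_lit 0xbc0001780002fdbe8) b18486 (.tok (nat_lit 3) (nat_lit 0xbc0001780002fe0f5) (.hit (nat_lit 18) (nat_lit 58) (nat_lit 0xbc0001780002fce3a) b18492 (.one (nat_lit 55) (nat_lit 19) (nat_lit 59) (nat_lit 0xbc0001780002fe0f5) b18493 (.nil))) (.tok (nat_lit 9) (nat_lit 0xbc0001780003004d0) (.hit (nat_lit 13) (nat_lit 53) (nat_lit 0xbc0001780002fe14a) b18487 (.hit (nat_lit 16) (nat_lit 56) (nat_lit 0xbc0001780002fdd4b) b18490 (.tok (nat_lit 67) (nat_lit 0xbc0001780003004d0) (.hit (nat_lit 14) (nat_lit 54) (nat_lit 0xbc0001780002ffdc2)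 b18488 (.hit (nat_lit 17) (nat_lit 57) (nat_lit 0xbc0001780002fd961) b18491 (.one (nat_lit 9) (nat_lit 15) (nat_lit 55) (nat_lit 0xbc0001780003004d0) b18489 (.nil)))) (.nil)))) (.nil)))) (.one (nat_lit 70) (nat_lit 20) (nat_lit 60) (nat_lit 0xbc0001780002fd4b4) b18494 (.nil)))))) (.nil))
noncomputable def r20_272 : Rw Blk := .tok (nat_lit 3) (nat_lit 0xbf6f257e3482fdfc05fbceabf7acd7ef00afdf3a5fbf68bf688d7ea0f2fd6e6) (.hit (nat_lit 0) (nat_lit 0) (nat_lit 0xbf6f257e3482fdfc05fbceabf7acd7ef00afdf3a5fbf68bf688d7ea0f2fd6e6) b36013 (.tok (nat_lit 6) (nat_lit 0xbf3a757d7a6afdd295fa33cbf46797db65afb6a05f7156bec81d7e3792fc9bb) (.hit (nat_lit 1) (nat_lit 7) (nat_lit 0xbf3a757d7a6afdd295fa33cbf46797db65afb6a05f7156bec81d7e3792fc9bb) b18536 (.hit (nat_lit 6) (nat_lit 15) (nat_lit 0xbf30b97d66f2fd5255f9e5ebf3cbd7da2e2fb4315f6c78bebe617e241afc74c) b18537 (.nil))) (.tok (nat_lit 9) (nat_lit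 0xbf3a757d7a6afdd295fa33cbf46797db65afb6a05f7156bec81d7e3792fc9bb) (.hit (nat_lit 10) (nat_lit 20) (nat_lit 0xbf3a757d7a6afdd295fa33cbf46797db65afb6a05f7156bec81d7e3792fc9bb) b18536 (.hit (nat_lit 15) (nat_lit 28) (nat_lit 0xbf30b97d66f2fd5255f9e5ebf3cbd7da2e2fb4315f6c78bebe617e241afc74c) b18537 (.nil))) (.nil)))) (.tok (nat_lit 6) (nat_lit 0xc0000180000300000600000c0000180258b00000602b3cc03f2d80000300000) (.hit (nat_lit 81) (nat_lit 0) (nat_lit 0xbfc8317eef52feb305fdddebfbcb57f78b2fee2d5fde6abfa3617f854aff035) b18543 (.tok (nat_lit 3) (nat_lit 0xbfc8697ea3a2ff1455fe02cbfc1517fb60aff6535ff9f6bfe56d7f76faff1a7) (.hit (nat_lit 82) (nat_lit 1) (nat_lit 0xbf5c257dd03afdbb25fa938bf53697edb3afdada5fc18cbf5acd7e9b2afd62d) b18544 (.one (nat_lit 67) (nat_lit 83) (nat_lit 2) (nat_lit 0xbfc8697ea3a2ff1455fe02cbfc1517fb60aff6535ff9f6bfe56d7f76faff1a7) b18545 (.nil))) (.tok (nat_lit 6) (nat_lit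 0xc0000180000300000600000c0000180258b00000602b3cc03f2d80000300000) (.hit (nat_lit 87) (nat_lit 7) (nat_lit 0xbfabf97ec222fe8e95fc3e2bf88d57f3672fe9995fcf7cbf79197f005afe73c) b18546 (.hit (nat_lit 95) (nat_lit 15) (nat_lit 0xbf64fd7dcd0afd3dd5fac7abf59ed7ee842fdbf55fc31ebf60f17ea832fd7ce) b18550 (.tok (nat_lit 55) (nat_lit 0xc0000180000300000600000c0000180258b00000602b3cc03f2d80000300000) (.hit (nat_lit 88) (nat_lit 8) (nat_lit 0xbffb117f3fa2ff0ef5ffae8bff6c980258afff55600e50c00dad7fe1e2fff40) b18547 (.hit (nat_lit 96) (nat_lit 16) (nat_lit 0xbfc75d7eb112fef375fe3e4bfc8c17fc4eaff82f5ff178bfccb97f85daff383) b18551 (.tok (nat_lit 6) (nat_lit 0xc0000180000300000600000c000017fdb2300000602b3cc03f2d80000300000) (.hit (nat_lit 89) (nat_lit 9) (nat_lit 0xbfd0257f7e3aff2525fe562bfcac57f77caff2c56001c8bffc657f832aff36c) b18548 (.one (nat_lit 55) (nat_lit 90) (nat_lit 10) (nat_lit 0xc0000180000300000600000c000017fdb2300000602b3cc03f2d80000300000)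 b18549 (.nil))) (.nil)))) (.nil)))) (.nil)))) (.tok (nat_lit 9) (nat_lit 0xbfc8697eef52ff1455ff490bfea197f2b72fe6a75fcb1abf85cd7f9902ff5e8) (.hit (nat_lit 157) (nat_lit 0) (nat_lit 0xbfc8317eef52feb305ff3acbfe4717f2b72fe6a75fcb1abf85cd7f8e8aff456) b18538 (.tok (nat_lit 3) (nat_lit 0xbfc8697ea3a2ff1455ff490bfea197e3b7afc7445f929ebf0aad7f9902ff5e8) (.hit (nat_lit 158) (nat_lit 1) (nat_lit 0xbf5c257dd03afdbb25fbd9cbf7c317d760afae965f6142bea7f57ebd32fda6e) b18539 (.one (nat_lit 55) (nat_lit 159) (nat_lit 3) (nat_lit 0xbfc8697ea3a2ff1455ff490bfea197e3b7afc7445f929ebf0aad7f9902ff5e8) b18540 (.nil))) (.tok (nat_lit 9) (nat_lit 0xbfabf97ec222fe8e95fe6d0bfca457e0feafc1d25f87babef4e57f2bfafe931) (.hit (nat_lit 163) (nat_lit 20) (nat_lit 0xbfabf97ec222fe8e95fe6d0bfca457e0feafc1d25f87babef4e57f2bfafe931) b18541 (.hit (nat_lit 171) (nat_lit 28) (nat_lit 0xbf64fd7dcd0afd3dd5fc0debf82b57d324afa61e5f5052be86157eca3afdc0f)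 b18542 (.nil))) (.nil)))) (.nil)))
noncomputable def r20_273 : Rw Blk := .tok (nat_lit 6) (nat_lit 0xbc0001780002ffecc) (.hit (nat_lit 51) (nat_lit 0) (nat_lit 0xbc0001780002ff743) b8943 (.tok (nat_lit 3) (nat_lit 0xbc0001780002ffecc) (.hit (nat_lit 52) (nat_lit 1) (nat_lit 0xbc0001780002fdccb) b8944 (.one (nat_lit 14) (nat_lit 53) (nat_lit 4) (nat_lit 0xbc0001780002ffecc) b9239 (.one (nat_lit 56) (nat_lit 55) (nat_lit 6) (nat_lit 0xbc0001780002ff720) b8945 (.one (nat_lit 68) (nat_lit 54) (nat_lit 5) (nat_lit 0xbc0001780002fef3e) b8946 (.nil))))) (.nil))) (.tok (nat_lit 9) (nat_lit 0xbc000178000300000) (.hit (nat_lit 0) (nat_lit 0) (nat_lit 0xbc0001780002ff743) b8943 (.tok (nat_lit 3) (nat_lit 0xbc0001780002ffecc) (.hit (nat_lit 1) (nat_lit 1) (nat_lit 0xbc0001780002fdccb) b8944 (.one (nat_lit 14) (nat_lit 2) (nat_lit 4) (nat_lit 0xbc0001780002ffecc) b9239 (.one (nat_lit 56) (nat_lit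 4) (nat_lit 6) (nat_lit 0xbc0001780002fef3e) b8946 (.one (nat_lit 68) (nat_lit 3) (nat_lit 5) (nat_lit 0xbc0001780002ff720) b8945 (.nil))))) (.tok (nat_lit 40) (nat_lit 0xbc0001780002ff5de) (.hit (nat_lit 5) (nat_lit 33) (nat_lit 0xbc0001780002ff5de) b8947 (.hit (nat_lit 6) (nat_lit 34) (nat_lit 0xbc0001780002ff3d8) b8948 (.nil))) (.tok (nat_lit 43) (nat_lit 0xbc0001780002ffbd8) (.hit (nat_lit 7) (nat_lit 35) (nat_lit 0xbc0001780002fe56f) b8949 (.hit (nat_lit 8) (nat_lit 36) (nat_lit 0xbc0001780002ffbd8) b8950 (.nil))) (.tok (nat_lit 46) (nat_lit 0xbc000178000300000) (.hit (nat_lit 9) (nat_lit 37) (nat_lit 0xbc000178000300000) b8951 (.hit (nat_lit 10) (nat_lit 38) (nat_lit 0xbc0001780002ff6ae) b8952 (.nil))) (.nil)))))) (.nil))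
noncomputable def r20_274 : Rw Blk := .tok (nat_lit 3) (nat_lit 0xbc0001780002fe42b) (.hit (nat_lit 61) (nat_lit 0) (nat_lit 0xbc0001780002fd864) b18573 (.tok (nat_lit 9) (nat_lit 0xbc0001780002fd418) (.hit (nat_lit 62) (nat_lit 20) (nat_lit 0xbc0001780002fc212) b18574 (.hit (nat_lit 67) (nat_lit 28) (nat_lit 0xbc0001780002fb3f0) b18577 (.tok (nat_lit 14) (nat_lit 0xbc0001780002fd418) (.hit (nat_lit 63) (nat_lit 24) (nat_lit 0xbc0001780002fc425) b18575 (.hit (nat_lit 68) (nat_lit 30) (nat_lit 0xbc0001780002fc807) b18578 (.one (nat_lit 6) (nat_lit 64) (nat_lit 25) (nat_lit 0xbc0001780002fd418) b18576 (.nil)))) (.one (nat_lit 56) (nat_lit 69) (nat_lit 31) (nat_lit 0xbc0001780002fc66e) b18579 (.nil))))) (.tok (nat_lit 64) (nat_lit 0xbc0001780002fcd28) (.hit (nat_lit 71) (nat_lit 50) (nat_lit 0xbc0001780002fc5a5) b18580 (.hit (nat_lit 72) (nat_lit 51) (nat_lit 0xbc0001780002fcd28)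 b18581 (.nil))) (.tok (nat_lit 67) (nat_lit 0xbc0001780002fe42b) (.hit (nat_lit 73) (nat_lit 52) (nat_lit 0xbc0001780002fe3af) b18582 (.tok (nat_lit 3) (nat_lit 0xbc0001780002fe42b) (.hit (nat_lit 79) (nat_lit 58) (nat_lit 0xbc0001780002fd9ce) b18585 (.one (nat_lit 55) (nat_lit 80) (nat_lit 59) (nat_lit 0xbc0001780002fe42b) b18586 (.nil))) (.tok (nat_lit 9) (nat_lit 0xbc0001780002fd219) (.hit (nat_lit 74) (nat_lit 53) (nat_lit 0xbc0001780002fcf0c) b18583 (.hit (nat_lit 77) (nat_lit 56) (nat_lit 0xbc0001780002fd219) b18584 (.nil))) (.nil)))) (.one (nat_lit 70) (nat_lit 81) (nat_lit 60) (nat_lit 0xbc0001780002fcdd7) b18587 (.nil)))))) (.tok (nat_lit 6) (nat_lit 0xbc00017800030065c) (.hit (nat_lit 0) (nat_lit 0) (nat_lit 0xbc0001780002ff15b) b18552 (.tok (nat_lit 6) (nat_lit 0xbc000178000300619) (.hit (nat_lit 1) (nat_lit 7) (nat_lit 0xbc0001780002fdee3) b18553 (.hit (nat_lit 6)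 (nat_lit 15) (nat_lit 0xbc0001780002fcc66) b18558 (.tok (nat_lit 14) (nat_lit 0xbc0001780002ffe73) (.hit (nat_lit 2) (nat_lit 11) (nat_lit 0xbc0001780002ffe73) b18554 (.hit (nat_lit 7) (nat_lit 17) (nat_lit 0xbc0001780002fecb8) b18559 (.one (nat_lit 9) (nat_lit 3) (nat_lit 12) (nat_lit 0xbc0001780002ffd28) b18555 (.nil)))) (.tok (nat_lit 56) (nat_lit 0xbc000178000300619) (.hit (nat_lit 4) (nat_lit 13) (nat_lit 0xbc0001780002ff5f5) b18556 (.hit (nat_lit 9) (nat_lit 19) (nat_lit 0xbc0001780002fdc7d) b18561 (.one (nat_lit 6) (nat_lit 5) (nat_lit 14) (nat_lit 0xbc000178000300619) b18557 (.nil)))) (.one (nat_lit 68) (nat_lit 8) (nat_lit 18) (nat_lit 0xbc0001780002fe179) b18560 (.nil)))))) (.tok (nat_lit 52) (nat_lit 0xbc0001780002ff106) (.hit (nat_lit 10) (nat_lit 39) (nat_lit 0xbc0001780002fe3d3) b18562 (.hit (nat_lit 11) (nat_lit 40) (nat_lit 0xbc0001780002ff106) b18563 (.nil)))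 (.tok (nat_lit 55) (nat_lit 0xbc00017800030065c) (.hit (nat_lit 12) (nat_lit 41) (nat_lit 0xbc0001780002ffee1) b18564 (.tok (nat_lit 3) (nat_lit 0xbc00017800030065c) (.hit (nat_lit 18) (nat_lit 47) (nat_lit 0xbc0001780002ff2e9) b18570 (.one (nat_lit 67) (nat_lit 19) (nat_lit 48) (nat_lit 0xbc00017800030065c) b18571 (.nil))) (.tok (nat_lit 6) (nat_lit 0xbc0001780003002dd) (.hit (nat_lit 13) (nat_lit 42) (nat_lit 0xbc0001780002fe74e) b18565 (.hit (nat_lit 16) (nat_lit 45) (nat_lit 0xbc0001780002ff344) b18568 (.tok (nat_lit 55) (nat_lit 0xbc0001780003002dd) (.hit (nat_lit 14) (nat_lit 43) (nat_lit 0xbc0001780002ffd19) b18566 (.hit (nat_lit 17) (nat_lit 46) (nat_lit 0xbc0001780003002dd) b18569 (.one (nat_lit 6) (nat_lit 15) (nat_lit 44) (nat_lit 0xbc0001780002ffdc6) b18567 (.nil)))) (.nil)))) (.nil)))) (.one (nat_lit 58) (nat_lit 20) (nat_lit 49) (nat_lit 0xbc0001780002ff332) b18572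 (.nil)))))) (.nil))
noncomputable def r20_275 : Rw Blk := .tok (nat_lit 3) (nat_lit 0xbc0001780002fd859) (.hit (nat_lit 61) (nat_lit 0) (nat_lit 0xbc0001780002fc3ff) b18609 (.tok (nat_lit 9) (nat_lit 0xbc0001780002fc92d) (.hit (nat_lit 62) (nat_lit 20) (nat_lit 0xbc0001780002fa910) b18610 (.hit (nat_lit 67) (nat_lit 28) (nat_lit 0xbc0001780002fac7f) b18613 (.tok (nat_lit 14) (nat_lit 0xbc0001780002fc92d) (.hit (nat_lit 63) (nat_lit 24) (nat_lit 0xbc0001780002fbe9e) b18611 (.hit (nat_lit 68) (nat_lit 30) (nat_lit 0xbc0001780002fbb8f) b18614 (.one (nat_lit 6) (nat_lit 64) (nat_lit 25) (nat_lit 0xbc0001780002fc92d) b18612 (.nil)))) (.one (nat_lit 56) (nat_lit 69) (nat_lit 31) (nat_lit 0xbc0001780002fc2b5) b18615 (.nil))))) (.tok (nat_lit 64) (nat_lit 0xbc0001780002fc6ce) (.hit (nat_lit 71) (nat_lit 50) (nat_lit 0xbc0001780002fbf98) b18616 (.hit (nat_lit 72) (nat_lit 51) (nat_lit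 0xbc0001780002fc6ce) b18617 (.nil))) (.tok (nat_lit 67) (nat_lit 0xbc0001780002fd859) (.hit (nat_lit 73) (nat_lit 52) (nat_lit 0xbc0001780002fd66a) b18618 (.tok (nat_lit 3) (nat_lit 0xbc0001780002fd6b1) (.hit (nat_lit 79) (nat_lit 58) (nat_lit 0xbc0001780002fceff) b18621 (.one (nat_lit 55) (nat_lit 80) (nat_lit 59) (nat_lit 0xbc0001780002fd6b1) b18622 (.nil))) (.tok (nat_lit 9) (nat_lit 0xbc0001780002fd859) (.hit (nat_lit 74) (nat_lit 53) (nat_lit 0xbc0001780002fd859) b18619 (.hit (nat_lit 77) (nat_lit 56) (nat_lit 0xbc0001780002fc5ba) b18620 (.nil))) (.nil)))) (.one (nat_lit 70) (nat_lit 81) (nat_lit 60) (nat_lit 0xbc0001780002fc65e) b18623 (.nil)))))) (.tok (nat_lit 6) (nat_lit 0xbc000178000300a1e) (.hit (nat_lit 0) (nat_lit 0) (nat_lit 0xbc0001780002fd1b6) b18588 (.tok (nat_lit 6) (nat_lit 0xbc0001780002fdf23) (.hit (nat_lit 1) (nat_lit 7) (nat_lit 0xbc0001780002fc5e0) b18589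 (.hit (nat_lit 6) (nat_lit 15) (nat_lit 0xbc0001780002fb887) b18594 (.tok (nat_lit 14) (nat_lit 0xbc0001780002fdf23) (.hit (nat_lit 2) (nat_lit 11) (nat_lit 0xbc0001780002fd699) b18590 (.hit (nat_lit 7) (nat_lit 17) (nat_lit 0xbc0001780002fdf23) b18595 (.one (nat_lit 9) (nat_lit 3) (nat_lit 12) (nat_lit 0xbc0001780002fd5e1) b18591 (.nil)))) (.tok (nat_lit 56) (nat_lit 0xbc0001780002fd614) (.hit (nat_lit 4) (nat_lit 13) (nat_lit 0xbc0001780002fd53f) b18592 (.hit (nat_lit 9) (nat_lit 19) (nat_lit 0xbc0001780002fd515) b18597 (.one (nat_lit 6) (nat_lit 5) (nat_lit 14) (nat_lit 0xbc0001780002fd614) b18593 (.nil)))) (.one (nat_lit 68) (nat_lit 8) (nat_lit 18) (nat_lit 0xbc0001780002fd571) b18596 (.nil)))))) (.tok (nat_lit 52) (nat_lit 0xbc0001780002fdbb4) (.hit (nat_lit 10) (nat_lit 39) (nat_lit 0xbc0001780002fcba1) b18598 (.hit (nat_lit 11) (nat_lit 40) (nat_lit 0xbc0001780002fdbb4)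 b18599 (.nil))) (.tok (nat_lit 55) (nat_lit 0xbc000178000300a1e) (.hit (nat_lit 12) (nat_lit 41) (nat_lit 0xbc0001780002fe136) b18600 (.tok (nat_lit 3) (nat_lit 0xbc0001780002fe643) (.hit (nat_lit 18) (nat_lit 47) (nat_lit 0xbc0001780002fd388) b18606 (.one (nat_lit 67) (nat_lit 19) (nat_lit 48) (nat_lit 0xbc0001780002fe643) b18607 (.nil))) (.tok (nat_lit 6) (nat_lit 0xbc000178000300a1e) (.hit (nat_lit 13) (nat_lit 42) (nat_lit 0xbc0001780002fe698) b18601 (.hit (nat_lit 16) (nat_lit 45) (nat_lit 0xbc0001780002fe299) b18604 (.tok (nat_lit 55) (nat_lit 0xbc000178000300a1e) (.hit (nat_lit 14) (nat_lit 43) (nat_lit 0xbc000178000300310) b18602 (.hit (nat_lit 17) (nat_lit 46) (nat_lit 0xbc0001780002fdeaf) b18605 (.one (nat_lit 6) (nat_lit 15) (nat_lit 44) (nat_lit 0xbc000178000300a1e) b18603 (.nil)))) (.nil)))) (.nil)))) (.one (nat_lit 58) (nat_lit 20) (nat_lit 49) (nat_lit 0xbc0001780002fda02)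 b18608 (.nil)))))) (.nil))
noncomputable def r20_276 : Rw Blk := .tok (nat_lit 3) (nat_lit 0xbc0001780002fde12) (.hit (nat_lit 61) (nat_lit 0) (nat_lit 0xbc0001780002fd24b) b8970 (.tok (nat_lit 6) (nat_lit 0xbc0001780002fd581) (.hit (nat_lit 62) (nat_lit 7) (nat_lit 0xbc0001780002fbbf9) b8971 (.hit (nat_lit 67) (nat_lit 15) (nat_lit 0xbc0001780002fadd7) b8974 (.tok (nat_lit 14) (nat_lit 0xbc0001780002fcdff) (.hit (nat_lit 63) (nat_lit 11) (nat_lit 0xbc0001780002fbe0c) b9665 (.hit (nat_lit 68) (nat_lit 17) (nat_lit 0xbc0001780002fc1ee) b9667 (.one (nat_lit 9) (nat_lit 64) (nat_lit 12) (nat_lit 0xbc0001780002fcdff) b9666 (.nil)))) (.tok (nat_lit 56) (nat_lit 0xbc0001780002fd581) (.hit (nat_lit 65) (nat_lit 13) (nat_lit 0xbc0001780002fcd73) b8972 (.hit (nat_lit 70) (nat_lit 19) (nat_lit 0xbc0001780002fbed5) b8976 (.one (nat_lit 6) (nat_lit 66) (nat_lit 14) (nat_lit 0xbc0001780002fd581)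 b8973 (.nil)))) (.nil))))) (.tok (nat_lit 52) (nat_lit 0xbc0001780002fc70f) (.hit (nat_lit 71) (nat_lit 39) (nat_lit 0xbc0001780002fbf8c) b8977 (.hit (nat_lit 72) (nat_lit 40) (nat_lit 0xbc0001780002fc70f) b8978 (.nil))) (.tok (nat_lit 55) (nat_lit 0xbc0001780002fde12) (.hit (nat_lit 73) (nat_lit 41) (nat_lit 0xbc0001780002fdd96) b8979 (.tok (nat_lit 3) (nat_lit 0xbc0001780002fde12) (.hit (nat_lit 79) (nat_lit 47) (nat_lit 0xbc0001780002fd3b5) b8985 (.one (nat_lit 67) (nat_lit 80) (nat_lit 48) (nat_lit 0xbc0001780002fde12) b9668 (.nil))) (.tok (nat_lit 6) (nat_lit 0xbc0001780002fd8c9) (.hit (nat_lit 74) (nat_lit 42) (nat_lit 0xbc0001780002fc8f3) b8980 (.hit (nat_lit 77) (nat_lit 45) (nat_lit 0xbc0001780002fcc00) b8983 (.tok (nat_lit 55) (nat_lit 0xbc0001780002fd8c9) (.hit (nat_lit 75) (nat_lit 43) (nat_lit 0xbc0001780002fd809) b8981 (.hit (nat_lit 78) (nat_lit 46) (nat_lit 0xbc0001780002fd8c9)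 b8984 (.one (nat_lit 6) (nat_lit 76) (nat_lit 44) (nat_lit 0xbc0001780002fd3cd) b8982 (.nil)))) (.nil)))) (.nil)))) (.one (nat_lit 58) (nat_lit 81) (nat_lit 49) (nat_lit 0xbc0001780002fc7be) b8986 (.nil)))))) (.tok (nat_lit 9) (nat_lit 0xbc000178000300000) (.hit (nat_lit 0) (nat_lit 0) (nat_lit 0xbc0001780002feb42) b8953 (.tok (nat_lit 9) (nat_lit 0xbc000178000300000) (.hit (nat_lit 1) (nat_lit 20) (nat_lit 0xbc0001780002fd8ca) b8954 (.hit (nat_lit 6) (nat_lit 28) (nat_lit 0xbc0001780002fc64d) b8957 (.tok (nat_lit 14) (nat_lit 0xbc0001780002ff85a) (.hit (nat_lit 2) (nat_lit 24) (nat_lit 0xbc0001780002ff85a) b9662 (.hit (nat_lit 7) (nat_lit 30) (nat_lit 0xbc0001780002fe69f) b9664 (.one (nat_lit 6) (nat_lit 3) (nat_lit 25) (nat_lit 0xbc0001780002ff70f) b9663 (.nil)))) (.one (nat_lit 56) (nat_lit 8) (nat_lit 31) (nat_lit 0xbc0001780002fdb60) b8958 (.tok (nat_lit 68) (nat_lit 0xbc000178000300000)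 (.hit (nat_lit 4) (nat_lit 26) (nat_lit 0xbc0001780002fefdc) b8955 (.hit (nat_lit 9) (nat_lit 32) (nat_lit 0xbc0001780002fd664) b8959 (.one (nat_lit 9) (nat_lit 5) (nat_lit 27) (nat_lit 0xbc000178000300000) b8956 (.nil)))) (.nil)))))) (.nil))) (.nil))
noncomputable def r20_277 : Rw Blk := .tok (nat_lit 3) (nat_lit 0xbc000178000300000) (.hit (nat_lit 61) (nat_lit 0) (nat_lit 0xbc0001780002fe458) b9679 (.tok (nat_lit 6) (nat_lit 0xbc0001780002fe986) (.hit (nat_lit 62) (nat_lit 7) (nat_lit 0xbc0001780002fc969) b9680 (.hit (nat_lit 67) (nat_lit 15) (nat_lit 0xbc0001780002fccd8) b9685 (.tok (nat_lit 14) (nat_lit 0xbc0001780002fe986) (.hit (nat_lit 63) (nat_lit 11) (nat_lit 0xbc0001780002fdef7) b9681 (.hit (nat_lit 68) (nat_lit 17) (nat_lit 0xbc0001780002fdbe8) b9686 (.one (nat_lit 9) (nat_lit 64) (nat_lit 12) (nat_lit 0xbc0001780002fe986) b9682 (.nil)))) (.tok (nat_lit 56) (nat_lit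 0xbc0001780002fe4bc) (.hit (nat_lit 65) (nat_lit 13) (nat_lit 0xbc0001780002fe13b) b9683 (.hit (nat_lit 70) (nat_lit 19) (nat_lit 0xbc0001780002fdd09) b9687 (.one (nat_lit 6) (nat_lit 66) (nat_lit 14) (nat_lit 0xbc0001780002fe4bc) b9684 (.nil)))) (.nil))))) (.tok (nat_lit 52) (nat_lit 0xbc0001780002fe727) (.hit (nat_lit 71) (nat_lit 39) (nat_lit 0xbc0001780002fdff1) b9688 (.hit (nat_lit 72) (nat_lit 40) (nat_lit 0xbc0001780002fe727) b9689 (.nil))) (.tok (nat_lit 55) (nat_lit 0xbc000178000300000) (.hit (nat_lit 73) (nat_lit 41) (nat_lit 0xbc0001780002ff6c3) b9690 (.tok (nat_lit 3) (nat_lit 0xbc0001780002ff70a) (.hit (nat_lit 79) (nat_lit 47) (nat_lit 0xbc0001780002fef58) b9696 (.one (nat_lit 67) (nat_lit 80) (nat_lit 48) (nat_lit 0xbc0001780002ff70a) b9697 (.nil))) (.tok (nat_lit 6) (nat_lit 0xbc000178000300000) (.hit (nat_lit 74) (nat_lit 42) (nat_lit 0xbc0001780002ff8b2) b9691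 (.hit (nat_lit 77) (nat_lit 45) (nat_lit 0xbc0001780002fe613) b9694 (.tok (nat_lit 55) (nat_lit 0xbc000178000300000) (.hit (nat_lit 75) (nat_lit 43) (nat_lit 0xbc000178000300000) b9692 (.hit (nat_lit 78) (nat_lit 46) (nat_lit 0xbc0001780002ff758) b9695 (.one (nat_lit 6) (nat_lit 76) (nat_lit 44) (nat_lit 0xbc0001780002ff868) b9693 (.nil)))) (.nil)))) (.nil)))) (.one (nat_lit 58) (nat_lit 81) (nat_lit 49) (nat_lit 0xbc0001780002fe6b7) b9698 (.nil)))))) (.tok (nat_lit 9) (nat_lit 0xbc0001780002fff7c) (.hit (nat_lit 0) (nat_lit 0) (nat_lit 0xbc0001780002ff20f) b9669 (.tok (nat_lit 9) (nat_lit 0xbc0001780002fff7c) (.hit (nat_lit 1) (nat_lit 20) (nat_lit 0xbc0001780002fe639) b9670 (.hit (nat_lit 6) (nat_lit 28) (nat_lit 0xbc0001780002fd8e0) b9675 (.tok (nat_lit 14) (nat_lit 0xbc0001780002fff7c) (.hit (nat_lit 2) (nat_lit 24) (nat_lit 0xbc0001780002ff6f2) b9671 (.hit (nat_lit 7) (nat_lit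 30) (nat_lit 0xbc0001780002fff7c) b9676 (.one (nat_lit 6) (nat_lit 3) (nat_lit 25) (nat_lit 0xbc0001780002ff63a) b9672 (.nil)))) (.one (nat_lit 56) (nat_lit 8) (nat_lit 31) (nat_lit 0xbc0001780002ff5ca) b9677 (.tok (nat_lit 68) (nat_lit 0xbc0001780002ff66d) (.hit (nat_lit 4) (nat_lit 26) (nat_lit 0xbc0001780002ff598) b9673 (.hit (nat_lit 9) (nat_lit 32) (nat_lit 0xbc0001780002ff56e) b9678 (.one (nat_lit 9) (nat_lit 5) (nat_lit 27) (nat_lit 0xbc0001780002ff66d) b9674 (.nil)))) (.nil)))))) (.nil))) (.nil))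
noncomputable def r20_278 : Rw Blk := .tok (nat_lit 3) (nat_lit 0x17ede4afc6905fbf80bf822d7f045afdc57) (.hit (nat_lit 0) (nat_lit 0) (nat_lit 0x17ede4afc6905fbf80bf822d7f045afdc57) b36014 (.tok (nat_lit 6) (nat_lit 0x17e74eafaf4d5fba52bf3b217e6162fab76) (.hit (nat_lit 1) (nat_lit 7) (nat_lit 0x17e74eafaf4d5fba52bf3b217e6162fab76) b18625 (.hit (nat_lit 6) (nat_lit 15) (nat_lit 0x17e6172facde5faa4abf31657e4deafa907) b18626 (.nil))) (.tok (nat_lit 9) (nat_lit 0x17e74eafaf4d5fba52bf3b217e6162fab76) (.hit (nat_lit 10) (nat_lit 20) (nat_lit 0x17e74eafaf4d5fba52bf3b217e6162fab76) b18625 (.hit (nat_lit 15) (nat_lit 28) (nat_lit 0x17e6172facde5faa4abf31657e4deafa907) b18626 (.nil))) (.nil)))) (.tok (nat_lit 6) (nat_lit 0x17f90d2fddea5fe28abfeaf57fb35afdca1) (.hit (nat_lit 81) (nat_lit 0) (nat_lit 0x17f9062fddea5fd660bfeaf57fb35afdca1) b18636 (.tok (nat_lit 3) (nat_lit 0x17f90d2fd4745fe28abfd7e17f7e12fbc1a)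 (.hit (nat_lit 82) (nat_lit 1) (nat_lit 0x17eb84afba075fb764bf83917f0722fa36c) b18637 (.one (nat_lit 67) (nat_lit 83) (nat_lit 2) (nat_lit 0x17f90d2fd4745fe28abfd7e17f7e12fbc1a) b18638 (.nil))) (.tok (nat_lit 6) (nat_lit 0x17f57f2fd8445fd1d2bfbaf57f75eafb6a8) (.hit (nat_lit 87) (nat_lit 7) (nat_lit 0x17f57f2fd8445fd1d2bfbaf57f75eafb6a8) b18639 (.hit (nat_lit 95) (nat_lit 15) (nat_lit 0x17ec9fafb9a15fa7babf8a157f142af9af4) b18640 (.nil))) (.nil)))) (.tok (nat_lit 9) (nat_lit 0x180000300000600000c000018000030063b) (.hit (nat_lit 157) (nat_lit 0) (nat_lit 0x17f9062fddea5fd660bfc4157fa532fe938) b18627 (.tok (nat_lit 3) (nat_lit 0x17f90d2fd4745fe28abfc8b17fb342ff19c) (.hit (nat_lit 158) (nat_lit 1) (nat_lit 0x17eb84afba075fb764bf5ac97eb592fd8e2) b18628 (.one (nat_lit 55) (nat_lit 159) (nat_lit 3) (nat_lit 0x17f90d2fd4745fe28abfc8b17fb342ff19c) b18629 (.nil))) (.tok (nat_lit 9) (nat_lit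 0x180000300000600000c000018000030063b) (.hit (nat_lit 163) (nat_lit 20) (nat_lit 0x17f57f2fd8445fd1d2bf91bd7f237afe91e) b18630 (.hit (nat_lit 171) (nat_lit 28) (nat_lit 0x17ec9fafb9a15fa7babf614d7ec29afda6d) b18634 (.tok (nat_lit 67) (nat_lit 0x180000300000600000c000018000030063b) (.hit (nat_lit 164) (nat_lit 21) (nat_lit 0x17ff622fe7f45fe1debffe297ffc52ffba8) b18631 (.hit (nat_lit 172) (nat_lit 29) (nat_lit 0x17f8ebafd6225fde6ebfd0217fa042ff55f) b18635 (.tok (nat_lit 9) (nat_lit 0x180000300000600000c000018000030063b) (.hit (nat_lit 165) (nat_lit 22) (nat_lit 0x17fa04afefc75fe4a4bfcec97f9d93001e2) b18632 (.one (nat_lit 67) (nat_lit 166) (nat_lit 23) (nat_lit 0x180000300000600000c000018000030063b) b18633 (.nil))) (.nil)))) (.nil)))) (.nil)))) (.nil)))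
noncomputable def r20_279 : Rw Blk := .tok (nat_lit 6) (nat_lit 0xbc000178000300000) (.hit (nat_lit 51) (nat_lit 0) (nat_lit 0xbc0001780002ff743) b8943 (.tok (nat_lit 3) (nat_lit 0xbc0001780002ffecc) (.hit (nat_lit 52) (nat_lit 1) (nat_lit 0xbc0001780002fdccb) b8944 (.one (nat_lit 14) (nat_lit 53) (nat_lit 4) (nat_lit 0xbc0001780002ffecc) b9239 (.one (nat_lit 56) (nat_lit 55) (nat_lit 6) (nat_lit 0xbc0001780002ff720) b8945 (.one (nat_lit 68) (nat_lit 54) (nat_lit 5) (nat_lit 0xbc0001780002fef3e) b8946 (.nil))))) (.tok (nat_lit 40) (nat_lit 0xbc0001780002ff5de) (.hit (nat_lit 56) (nat_lit 33) (nat_lit 0xbc0001780002ff5de) b8947 (.hit (nat_lit 57) (nat_lit 34) (nat_lit 0xbc0001780002ff3d8) b8948 (.nil))) (.tok (nat_lit 43) (nat_lit 0xbc000178000300000) (.hit (nat_lit 58) (nat_lit 35) (nat_lit 0xbc000178000300000) b8951 (.hit (nat_lit 59) (nat_lit 36) (nat_lit 0xbc0001780002ff6ae)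 b8952 (.nil))) (.tok (nat_lit 46) (nat_lit 0xbc0001780002ffbd8) (.hit (nat_lit 60) (nat_lit 37) (nat_lit 0xbc0001780002fe56f) b8949 (.hit (nat_lit 61) (nat_lit 38) (nat_lit 0xbc0001780002ffbd8) b8950 (.nil))) (.nil)))))) (.tok (nat_lit 9) (nat_lit 0xbc0001780002ffecc) (.hit (nat_lit 0) (nat_lit 0) (nat_lit 0xbc0001780002ff743) b8943 (.tok (nat_lit 3) (nat_lit 0xbc0001780002ffecc) (.hit (nat_lit 1) (nat_lit 1) (nat_lit 0xbc0001780002fdccb) b8944 (.one (nat_lit 14) (nat_lit 2) (nat_lit 4) (nat_lit 0xbc0001780002ffecc) b9239 (.one (nat_lit 56) (nat_lit 4) (nat_lit 6) (nat_lit 0xbc0001780002fef3e) b8946 (.one (nat_lit 68) (nat_lit 3) (nat_lit 5) (nat_lit 0xbc0001780002ff720) b8945 (.nil))))) (.nil))) (.nil))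
noncomputable def r20_280 : Rw Blk := .tok (nat_lit 3) (nat_lit 0xbc0001780002fde12) (.hit (nat_lit 61) (nat_lit 0) (nat_lit 0xbc0001780002fd24b) b8970 (.tok (nat_lit 9) (nat_lit 0xbc0001780002fd581) (.hit (nat_lit 62) (nat_lit 20) (nat_lit 0xbc0001780002fbbf9) b8971 (.hit (nat_lit 67) (nat_lit 28) (nat_lit 0xbc0001780002fadd7) b8974 (.tok (nat_lit 14) (nat_lit 0xbc0001780002fcdff) (.hit (nat_lit 63) (nat_lit 24) (nat_lit 0xbc0001780002fbe0c) b9665 (.hit (nat_lit 68) (nat_lit 30) (nat_lit 0xbc0001780002fc1ee) b9667 (.one (nat_lit 6) (nat_lit 64) (nat_lit 25) (nat_lit 0xbc0001780002fcdff) b9666 (.nil)))) (.tok (nat_lit 68) (nat_lit 0xbc0001780002fd581) (.hit (nat_lit 65) (nat_lit 26) (nat_lit 0xbc0001780002fcd73) b8972 (.hit (nat_lit 70) (nat_lit 32) (nat_lit 0xbc0001780002fbed5) b8976 (.one (nat_lit 9) (nat_lit 66) (nat_lit 27) (nat_lit 0xbc0001780002fd581) b8973 (.nil)))) (.nil)))))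 (.tok (nat_lit 64) (nat_lit 0xbc0001780002fc70f) (.hit (nat_lit 71) (nat_lit 50) (nat_lit 0xbc0001780002fbf8c) b8977 (.hit (nat_lit 72) (nat_lit 51) (nat_lit 0xbc0001780002fc70f) b8978 (.nil))) (.tok (nat_lit 67) (nat_lit 0xbc0001780002fde12) (.hit (nat_lit 73) (nat_lit 52) (nat_lit 0xbc0001780002fdd96) b8979 (.tok (nat_lit 3) (nat_lit 0xbc0001780002fde12) (.hit (nat_lit 79) (nat_lit 58) (nat_lit 0xbc0001780002fd3b5) b8985 (.one (nat_lit 55) (nat_lit 80) (nat_lit 59) (nat_lit 0xbc0001780002fde12) b9668 (.nil))) (.tok (nat_lit 9) (nat_lit 0xbc0001780002fd8c9) (.hit (nat_lit 74) (nat_lit 53) (nat_lit 0xbc0001780002fc8f3) b8980 (.hit (nat_lit 77) (nat_lit 56) (nat_lit 0xbc0001780002fcc00) b8983 (.tok (nat_lit 67) (nat_lit 0xbc0001780002fd8c9) (.hit (nat_lit 75) (nat_lit 54) (nat_lit 0xbc0001780002fd809) b8981 (.hit (nat_lit 78) (nat_lit 57) (nat_lit 0xbc0001780002fd8c9) b8984 (.one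 (nat_lit 9) (nat_lit 76) (nat_lit 55) (nat_lit 0xbc0001780002fd3cd) b8982 (.nil)))) (.nil)))) (.nil)))) (.one (nat_lit 70) (nat_lit 81) (nat_lit 60) (nat_lit 0xbc0001780002fc7be) b8986 (.nil)))))) (.tok (nat_lit 6) (nat_lit 0xbc000178000300000) (.hit (nat_lit 0) (nat_lit 0) (nat_lit 0xbc0001780002feb42) b8953 (.tok (nat_lit 6) (nat_lit 0xbc000178000300000) (.hit (nat_lit 1) (nat_lit 7) (nat_lit 0xbc0001780002fd8ca) b8954 (.hit (nat_lit 6) (nat_lit 15) (nat_lit 0xbc0001780002fc64d) b8957 (.tok (nat_lit 14) (nat_lit 0xbc0001780002ff85a) (.hit (nat_lit 2) (nat_lit 11) (nat_lit 0xbc0001780002ff85a) b9662 (.hit (nat_lit 7) (nat_lit 17) (nat_lit 0xbc0001780002fe69f) b9664 (.one (nat_lit 9) (nat_lit 3) (nat_lit 12) (nat_lit 0xbc0001780002ff70f) b9663 (.nil)))) (.tok (nat_lit 56) (nat_lit 0xbc000178000300000) (.hit (nat_lit 4) (nat_lit 13) (nat_lit 0xbc0001780002fefdc) b8955 (.hit (nat_lit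 9) (nat_lit 19) (nat_lit 0xbc0001780002fd664) b8959 (.one (nat_lit 6) (nat_lit 5) (nat_lit 14) (nat_lit 0xbc000178000300000) b8956 (.nil)))) (.one (nat_lit 68) (nat_lit 8) (nat_lit 18) (nat_lit 0xbc0001780002fdb60) b8958 (.nil)))))) (.nil))) (.nil))
noncomputable def r20_281 : Rw Blk := .tok (nat_lit 3) (nat_lit 0xbc000178000300000) (.hit (nat_lit 61) (nat_lit 0) (nat_lit 0xbc0001780002fe458) b9679 (.tok (nat_lit 9) (nat_lit 0xbc0001780002fe986) (.hit (nat_lit 62) (nat_lit 20) (nat_lit 0xbc0001780002fc969) b9680 (.hit (nat_lit 67) (nat_lit 28) (nat_lit 0xbc0001780002fccd8) b9685 (.tok (nat_lit 14) (nat_lit 0xbc0001780002fe986) (.hit (nat_lit 63) (nat_lit 24) (nat_lit 0xbc0001780002fdef7) b9681 (.hit (nat_lit 68) (nat_lit 30) (nat_lit 0xbc0001780002fdbe8) b9686 (.one (nat_lit 6) (nat_lit 64) (nat_lit 25) (nat_lit 0xbc0001780002fe986) b9682 (.nil)))) (.tok (nat_lit 68) (nat_lit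 0xbc0001780002fe4bc) (.hit (nat_lit 65) (nat_lit 26) (nat_lit 0xbc0001780002fe13b) b9683 (.hit (nat_lit 70) (nat_lit 32) (nat_lit 0xbc0001780002fdd09) b9687 (.one (nat_lit 9) (nat_lit 66) (nat_lit 27) (nat_lit 0xbc0001780002fe4bc) b9684 (.nil)))) (.nil))))) (.tok (nat_lit 64) (nat_lit 0xbc0001780002fe727) (.hit (nat_lit 71) (nat_lit 50) (nat_lit 0xbc0001780002fdff1) b9688 (.hit (nat_lit 72) (nat_lit 51) (nat_lit 0xbc0001780002fe727) b9689 (.nil))) (.tok (nat_lit 67) (nat_lit 0xbc000178000300000) (.hit (nat_lit 73) (nat_lit 52) (nat_lit 0xbc0001780002ff6c3) b9690 (.tok (nat_lit 3) (nat_lit 0xbc0001780002ff70a) (.hit (nat_lit 79) (nat_lit 58) (nat_lit 0xbc0001780002fef58) b9696 (.one (nat_lit 55) (nat_lit 80) (nat_lit 59) (nat_lit 0xbc0001780002ff70a) b9697 (.nil))) (.tok (nat_lit 9) (nat_lit 0xbc000178000300000) (.hit (nat_lit 74) (nat_lit 53) (nat_lit 0xbc0001780002ff8b2) b9691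 (.hit (nat_lit 77) (nat_lit 56) (nat_lit 0xbc0001780002fe613) b9694 (.tok (nat_lit 67) (nat_lit 0xbc000178000300000) (.hit (nat_lit 75) (nat_lit 54) (nat_lit 0xbc000178000300000) b9692 (.hit (nat_lit 78) (nat_lit 57) (nat_lit 0xbc0001780002ff758) b9695 (.one (nat_lit 9) (nat_lit 76) (nat_lit 55) (nat_lit 0xbc0001780002ff868) b9693 (.nil)))) (.nil)))) (.nil)))) (.one (nat_lit 70) (nat_lit 81) (nat_lit 60) (nat_lit 0xbc0001780002fe6b7) b9698 (.nil)))))) (.tok (nat_lit 6) (nat_lit 0xbc0001780002fff7c) (.hit (nat_lit 0) (nat_lit 0) (nat_lit 0xbc0001780002ff20f) b9669 (.tok (nat_lit 6) (nat_lit 0xbc0001780002fff7c) (.hit (nat_lit 1) (nat_lit 7) (nat_lit 0xbc0001780002fe639) b9670 (.hit (nat_lit 6) (nat_lit 15) (nat_lit 0xbc0001780002fd8e0) b9675 (.tok (nat_lit 14) (nat_lit 0xbc0001780002fff7c) (.hit (nat_lit 2) (nat_lit 11) (nat_lit 0xbc0001780002ff6f2) b9671 (.hit (nat_lit 7) (nat_lit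 17) (nat_lit 0xbc0001780002fff7c) b9676 (.one (nat_lit 9) (nat_lit 3) (nat_lit 12) (nat_lit 0xbc0001780002ff63a) b9672 (.nil)))) (.tok (nat_lit 56) (nat_lit 0xbc0001780002ff66d) (.hit (nat_lit 4) (nat_lit 13) (nat_lit 0xbc0001780002ff598) b9673 (.hit (nat_lit 9) (nat_lit 19) (nat_lit 0xbc0001780002ff56e) b9678 (.one (nat_lit 6) (nat_lit 5) (nat_lit 14) (nat_lit 0xbc0001780002ff66d) b9674 (.nil)))) (.one (nat_lit 68) (nat_lit 8) (nat_lit 18) (nat_lit 0xbc0001780002ff5ca) b9677 (.nil)))))) (.nil))) (.nil))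
noncomputable def r20_282 : Rw Blk := .tok (nat_lit 3) (nat_lit 0xbc0001780002fddcf) (.hit (nat_lit 61) (nat_lit 0) (nat_lit 0xbc0001780002fd208) b9255 (.tok (nat_lit 6) (nat_lit 0xbc0001780002fcdbc) (.hit (nat_lit 62) (nat_lit 7) (nat_lit 0xbc0001780002fbbb6) b9256 (.hit (nat_lit 67) (nat_lit 15) (nat_lit 0xbc0001780002fad94) b9261 (.tok (nat_lit 14) (nat_lit 0xbc0001780002fcdbc) (.hit (nat_lit 63) (nat_lit 11) (nat_lit 0xbc0001780002fbdc9) b9257 (.hit (nat_lit 68) (nat_lit 17) (nat_lit 0xbc0001780002fc1ab) b9262 (.one (nat_lit 9) (nat_lit 64) (nat_lit 12) (nat_lit 0xbc0001780002fcdbc) b9258 (.nil)))) (.one (nat_lit 68) (nat_lit 69) (nat_lit 18) (nat_lit 0xbc0001780002fc012) b9263 (.nil))))) (.tok (nat_lit 52) (nat_lit 0xbc0001780002fc6cc) (.hit (nat_lit 71) (nat_lit 39) (nat_lit 0xbc0001780002fbf49) b9265 (.hit (nat_lit 72) (nat_lit 40) (nat_lit 0xbc0001780002fc6cc) b9266 (.nil)))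 (.tok (nat_lit 55) (nat_lit 0xbc0001780002fddcf) (.hit (nat_lit 73) (nat_lit 41) (nat_lit 0xbc0001780002fdd53) b9267 (.tok (nat_lit 3) (nat_lit 0xbc0001780002fddcf) (.hit (nat_lit 79) (nat_lit 47) (nat_lit 0xbc0001780002fd372) b9273 (.one (nat_lit 67) (nat_lit 80) (nat_lit 48) (nat_lit 0xbc0001780002fddcf) b9274 (.nil))) (.tok (nat_lit 6) (nat_lit 0xbc0001780002fcbbd) (.hit (nat_lit 74) (nat_lit 42) (nat_lit 0xbc0001780002fc8b0) b9268 (.hit (nat_lit 77) (nat_lit 45) (nat_lit 0xbc0001780002fcbbd) b9271 (.nil))) (.nil)))) (.one (nat_lit 58) (nat_lit 81) (nat_lit 49) (nat_lit 0xbc0001780002fc77b) b9275 (.nil)))))) (.tok (nat_lit 9) (nat_lit 0xbc000178000300000) (.hit (nat_lit 0) (nat_lit 0) (nat_lit 0xbc0001780002feaff) b9240 (.tok (nat_lit 9) (nat_lit 0xbc0001780002fffbd) (.hit (nat_lit 1) (nat_lit 20) (nat_lit 0xbc0001780002fd887) b9241 (.hit (nat_lit 6) (nat_lit 28) (nat_lit 0xbc0001780002fc60a)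 b9244 (.tok (nat_lit 14) (nat_lit 0xbc0001780002ff817) (.hit (nat_lit 2) (nat_lit 24) (nat_lit 0xbc0001780002ff817) b9242 (.hit (nat_lit 7) (nat_lit 30) (nat_lit 0xbc0001780002fe65c) b9245 (.one (nat_lit 6) (nat_lit 3) (nat_lit 25) (nat_lit 0xbc0001780002ff6cc) b9243 (.nil)))) (.one (nat_lit 56) (nat_lit 8) (nat_lit 31) (nat_lit 0xbc0001780002fdb1d) b9246 (.tok (nat_lit 68) (nat_lit 0xbc0001780002fffbd) (.hit (nat_lit 4) (nat_lit 26) (nat_lit 0xbc0001780002fef99) b9609 (.hit (nat_lit 9) (nat_lit 32) (nat_lit 0xbc0001780002fd621) b9611 (.one (nat_lit 9) (nat_lit 5) (nat_lit 27) (nat_lit 0xbc0001780002fffbd) b9610 (.nil)))) (.nil)))))) (.tok (nat_lit 64) (nat_lit 0xbc0001780002feaaa) (.hit (nat_lit 10) (nat_lit 50) (nat_lit 0xbc0001780002fdd77) b9247 (.hit (nat_lit 11) (nat_lit 51) (nat_lit 0xbc0001780002feaaa) b9248 (.nil))) (.tok (nat_lit 67) (nat_lit 0xbc000178000300000) (.hit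 (nat_lit 12) (nat_lit 52) (nat_lit 0xbc0001780002ff885) b9249 (.tok (nat_lit 3) (nat_lit 0xbc000178000300000) (.hit (nat_lit 18) (nat_lit 58) (nat_lit 0xbc0001780002fec8d) b9252 (.one (nat_lit 55) (nat_lit 19) (nat_lit 59) (nat_lit 0xbc000178000300000) b9253 (.nil))) (.tok (nat_lit 9) (nat_lit 0xbc0001780002ffc81) (.hit (nat_lit 13) (nat_lit 53) (nat_lit 0xbc0001780002fe0f2) b9250 (.hit (nat_lit 16) (nat_lit 56) (nat_lit 0xbc0001780002fece8) b9251 (.tok (nat_lit 67) (nat_lit 0xbc0001780002ffc81) (.hit (nat_lit 14) (nat_lit 54) (nat_lit 0xbc0001780002ff6bd) b9612 (.hit (nat_lit 17) (nat_lit 57) (nat_lit 0xbc0001780002ffc81) b9614 (.one (nat_lit 9) (nat_lit 15) (nat_lit 55) (nat_lit 0xbc0001780002ff76a) b9613 (.nil)))) (.nil)))) (.nil)))) (.one (nat_lit 70) (nat_lit 20) (nat_lit 60) (nat_lit 0xbc0001780002fecd6) b9254 (.nil)))))) (.nil))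
noncomputable def r20_283 : Rw Blk := .tok (nat_lit 3) (nat_lit 0xbc0001780002fd1cc) (.hit (nat_lit 61) (nat_lit 0) (nat_lit 0xbc0001780002fbd72) b18662 (.tok (nat_lit 6) (nat_lit 0xbc0001780002fc2a0) (.hit (nat_lit 62) (nat_lit 7) (nat_lit 0xbc0001780002fa283) b18663 (.hit (nat_lit 67) (nat_lit 15) (nat_lit 0xbc0001780002fa5f2) b18666 (.tok (nat_lit 14) (nat_lit 0xbc0001780002fc2a0) (.hit (nat_lit 63) (nat_lit 11) (nat_lit 0xbc0001780002fb811) b18664 (.hit (nat_lit 68) (nat_lit 17) (nat_lit 0xbc0001780002fb502) b18667 (.one (nat_lit 9) (nat_lit 64) (nat_lit 12) (nat_lit 0xbc0001780002fc2a0) b18665 (.nil)))) (.one (nat_lit 68) (nat_lit 69) (nat_lit 18) (nat_lit 0xbc0001780002fbc28) b18668 (.nil))))) (.tok (nat_lit 52) (nat_lit 0xbc0001780002fc041) (.hit (nat_lit 71) (nat_lit 39) (nat_lit 0xbc0001780002fb90b) b18669 (.hit (nat_lit 72) (nat_lit 40) (nat_lit 0xbc0001780002fc041)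 b18670 (.nil))) (.tok (nat_lit 55) (nat_lit 0xbc0001780002fd1cc) (.hit (nat_lit 73) (nat_lit 41) (nat_lit 0xbc0001780002fcfdd) b18671 (.tok (nat_lit 3) (nat_lit 0xbc0001780002fd024) (.hit (nat_lit 79) (nat_lit 47) (nat_lit 0xbc0001780002fc872) b18674 (.one (nat_lit 67) (nat_lit 80) (nat_lit 48) (nat_lit 0xbc0001780002fd024) b18675 (.nil))) (.tok (nat_lit 6) (nat_lit 0xbc0001780002fd1cc) (.hit (nat_lit 74) (nat_lit 42) (nat_lit 0xbc0001780002fd1cc) b18672 (.hit (nat_lit 77) (nat_lit 45) (nat_lit 0xbc0001780002fbf2d) b18673 (.nil))) (.nil)))) (.one (nat_lit 58) (nat_lit 81) (nat_lit 49) (nat_lit 0xbc0001780002fbfd1) b18676 (.nil)))))) (.tok (nat_lit 9) (nat_lit 0xbc000178000300391) (.hit (nat_lit 0) (nat_lit 0) (nat_lit 0xbc0001780002fcb29) b18641 (.tok (nat_lit 9) (nat_lit 0xbc0001780002fd896) (.hit (nat_lit 1) (nat_lit 20) (nat_lit 0xbc0001780002fbf53) b18642 (.hit (nat_lit 6)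 (nat_lit 28) (nat_lit 0xbc0001780002fb1fa) b18647 (.tok (nat_lit 14) (nat_lit 0xbc0001780002fd896) (.hit (nat_lit 2) (nat_lit 24) (nat_lit 0xbc0001780002fd00c) b18643 (.hit (nat_lit 7) (nat_lit 30) (nat_lit 0xbc0001780002fd896) b18648 (.one (nat_lit 6) (nat_lit 3) (nat_lit 25) (nat_lit 0xbc0001780002fcf54) b18644 (.nil)))) (.one (nat_lit 56) (nat_lit 8) (nat_lit 31) (nat_lit 0xbc0001780002fcee4) b18649 (.tok (nat_lit 68) (nat_lit 0xbc0001780002fcf87) (.hit (nat_lit 4) (nat_lit 26) (nat_lit 0xbc0001780002fceb2) b18645 (.hit (nat_lit 9) (nat_lit 32) (nat_lit 0xbc0001780002fce88) b18650 (.one (nat_lit 9) (nat_lit 5) (nat_lit 27) (nat_lit 0xbc0001780002fcf87) b18646 (.nil)))) (.nil)))))) (.tok (nat_lit 64) (nat_lit 0xbc0001780002fd527) (.hit (nat_lit 10) (nat_lit 50) (nat_lit 0xbc0001780002fc514) b18651 (.hit (nat_lit 11) (nat_lit 51) (nat_lit 0xbc0001780002fd527) b18652 (.nil)))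 (.tok (nat_lit 67) (nat_lit 0xbc000178000300391) (.hit (nat_lit 12) (nat_lit 52) (nat_lit 0xbc0001780002fdaa9) b18653 (.tok (nat_lit 3) (nat_lit 0xbc0001780002fdfb6) (.hit (nat_lit 18) (nat_lit 58) (nat_lit 0xbc0001780002fccfb) b18659 (.one (nat_lit 55) (nat_lit 19) (nat_lit 59) (nat_lit 0xbc0001780002fdfb6) b18660 (.nil))) (.tok (nat_lit 9) (nat_lit 0xbc000178000300391) (.hit (nat_lit 13) (nat_lit 53) (nat_lit 0xbc0001780002fe00b) b18654 (.hit (nat_lit 16) (nat_lit 56) (nat_lit 0xbc0001780002fdc0c) b18657 (.tok (nat_lit 67) (nat_lit 0xbc000178000300391) (.hit (nat_lit 14) (nat_lit 54) (nat_lit 0xbc0001780002ffc83) b18655 (.hit (nat_lit 17) (nat_lit 57) (nat_lit 0xbc0001780002fd822) b18658 (.one (nat_lit 9) (nat_lit 15) (nat_lit 55) (nat_lit 0xbc000178000300391) b18656 (.nil)))) (.nil)))) (.nil)))) (.one (nat_lit 70) (nat_lit 20) (nat_lit 60) (nat_lit 0xbc0001780002fd375) b18661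 (.nil)))))) (.nil))
noncomputable def r21_0 : Rw Blk := .tok (nat_lit 9) (nat_lit 0x1800002fe8eb5fbbb0bf9f9d7fafb2fe6c45fe094c000017fe1b2ffb5c5fff66bfed617fe4fb000005ff926bfedd1800002ffd7b5fe1fcbfc0317f7032fe9b85fadbebf5b817f13bafdbb85fcbf4bf8e397ed8c2ff702) (.hit (nat_lit 157) (nat_lit 0) (nat_lit 0x17eed62fd8d05f94a2bf837d7f0222fe0a95fa700bf52057f037afdff65fbf2abf81317f1372fd51d5fc0b6bf7b097e97b2fde975fc95abf88a97ee2bafdb0a5fa3f6bf35017ed1e2fd5245fb148bf33497eaf2afd639) b19968 (.tok (nat_lit 14) (nat_lit 0x1800002fe8eb5fbbb0bf9f9d7fafb2fe6c45fc810bf9ea57f9952ff1ed5fe290bfc8117f98dafed105fea48bfe7257f2372ff2d05fda06bfa2597f7032fe9b85f9d1cbf33417ec7dafd15b5fa594bf8e397e97b2fe5a4) (.hit (nat_lit 193) (nat_lit 61) (nat_lit 0x17f9552fe7bb5fbbb0bf9b257f316afe6c45fb890bf75bd7f592afe9535fd0ecbfa7497f5e0afe0475fd61cbfae757ed5cafeae95fd786bf9f157f7032fe91e5f9d1cbf33417ec7dafd15b5fa594bf8e397e97b2fe1d0)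 b19969 (.one (nat_lit 3) (nat_lit 194) (nat_lit 62) (nat_lit 0x17f2822fd9d15fb1c2bf51217ea092fd2915fb6b6bf82497f44eafda995fb5b8bf6a2d7f2acafd9f05fc978bf92517ebfcafe4895fcbfcbf89157f18c2fe1a55f78f2bef2017df502fb6b45f754abf49cd7e3562fd991) b19970 (.tok (nat_lit 6) (nat_lit 0x1800002fe8eb5fb9dabf9f9d7fafb2fe5d85fc810bf9ea57f9952ff1ed5fe290bfc8117f98dafed105fea48bfe7257f2372ff2d05fda06bfa1997f5822fe9b85f89ecbf0ce17e3312fc7c35f8bdabf53117e5b5afe5a4) (.hit (nat_lit 197) (nat_lit 65) (nat_lit 0x1800002fe8eb5fad5abf9f9d7fafb2fe5d85fc810bf9ea57f9952ff1ed5fe290bfc8117f98dafed105fea48bfe7257f2372ff2d05fda06bfa1997f5822fe9b85f89ecbf0ce17e3312fc7c35f8bdabf53117e5b5afe5a4) b19971 (.hit (nat_lit 198) (nat_lit 66) (nat_lit 0x17f1172fd1a15fb9dabf52f97ea082fd3065f8cb6bf251d7ed9fafd8595fb662bf6c757ea71afc94c5fb656bf64957e511afdb2b5faac2bf2e7d7f32fafe3a55f84dabf09d17e24a2fbad05f8132bf4b797e2cdafda31)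 b19972 (.nil))) (.tok (nat_lit 9) (nat_lit 0x17f3f1afd8a85fa83cbf6da57ee9c2fdb645fb412bf6dd97f3a22fdfb85fc152bf81697f23bafdc6b5fc6b8bf8bcd7eb75afe2e65fcbc4bfa2597f6cb2fe7975f8eaebf1d797ec2e2fc5fb5f9c2cbf6cb17e711afdf57) (.hit (nat_lit 195) (nat_lit 63) (nat_lit 0x17e7bcafc07b5f97d0bf6da57ed66afdb645f80b0bf14117ebf42fd1a05f9fc0bf5ea57ec6f2fc3055fafa8bf44257e253afd7d45fa158bf2f597e8f22fcd085f865cbf08e97ec2e2fc5fb5f9c2cbf6cb17e711afd033) b19973 (.hit (nat_lit 196) (nat_lit 64) (nat_lit 0x17f3f1afd8a85fa83cbf695d7ee9c2fd8a05fb412bf6dd97f3a22fdfb85fc152bf81697f23bafdc6b5fc6b8bf8bcd7eb75afe2e65fcbc4bfa2597f6cb2fe7975f8eaebf1d797e4bf2fb82e5f8b06bf5c457e685afdf57) b19974 (.nil))) (.nil))))) (.one (nat_lit 17) (nat_lit 199) (nat_lit 67) (nat_lit 0x17ebcf2fd1a45f972cbf22ad7e360afc52d5fb00cbf71ad7f11a2fd3a05fa65abf4e497f804afdaa65fc562bf87ed7e9c6afe1f95fdac8bfb7497ebdd2fd6065fa486bf29f97e8ad2fafa15fa3f8bf302d7e7562fd4c0)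 b19975 (.tok (nat_lit 20) (nat_lit 0x17eafaafc43b5f8f86bf62517ebfc2fd88f5f9a34bf2fb17ea89afd1375fa0b2bf53517eedd2fd0b65fa9febf49957e177afd4ff5fbde4bf615d7e706afcc405f8cf4bf0f3d7e873afc3265f986abf42297e18aafc8d6) (.hit (nat_lit 200) (nat_lit 68) (nat_lit 0x17e6522fbda65f8f86bf62517ebfc2fd88f5f7b06bf08bd7ea89afcecb5f9a16bf53517eb04afc0305fa9febf38d17e0e92fd4ff5f9baebf24057e2f2afc66e5f8cf4bf0f3d7e873afc3265f986abf42297e18aafc8d6) b19978 (.hit (nat_lit 201) (nat_lit 69) (nat_lit 0x17eafaafc43b5f78eebf1df97e2a9afc3ed5f9a34bf2fb17e967afd1375fa0b2bf46b57eedd2fd0b65fa6b8bf49957e177afd2435fbde4bf615d7e706afcc405f812abeed997e12eafab9b5f8558bef6417deb72fc43b) b19979 (.nil))) (.tok (nat_lit 23) (nat_lit 0x17f4e22fe4cf5fab46bf89ed7f3f8afda985fe094c000017fe1b2ffb5c5fff66bfed617fe4fb000005ff926bfedd1800002ffd7b5fe1fcbfb5c57f3b32fe6355f95eebf1f057e791afbe7b5f9be2bf29657e50c2ff702) (.hit (nat_lit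 202) (nat_lit 70) (nat_lit 0x17f4e22fe4cf5fab46bf89ed7f3f8afda985fe094c000017fe1b2ffb5c5fff66bfed617fe4fb000005ff926bfedd1800002ffd7b5fe1fcbfb5c57f3b32fe6355f95eebf1f057e791afbe7b5f9be2bf29657e50c2ff702) b19976 (.hit (nat_lit 203) (nat_lit 71) (nat_lit 0x17eb642fc2d75fa41cbf21857e316afc4c15f94e4bf3fd17eccc2fd4135fa75cbf50157f1762fce4b5fb80ebf66117e58bafd9845fb6f2bf6d497f0062fdb605f94e0bf01357e38b2fabae5f919ebefb2d7e238afd358) b19977 (.nil))) (.one (nat_lit 26) (nat_lit 204) (nat_lit 72) (nat_lit 0x17e6d02fb9b05f707ebefce57de832fbb905f82e8bf19a17e78f2fcaeb5f950cbf2b757ecf02fc3cd5fa436bf3c297e04eafcf0a5fa450bf56a17e4172fc6ee5f7a9cbeceb97dd3baf9ea45f78d8bed04d7dbe92fbd36) b19980 (.one (nat_lit 29) (nat_lit 205) (nat_lit 73) (nat_lit 0x17e7a6afc2db5f820ebf03997df5bafbd475fa8d4bf63857ede62fcc985f9866bf32297f571afd2ab5fb78abf61757e4f82fd85d5fcfc2bf91e57e4e6afc89b5f8882bee9157e0872f9d895f8602bed9097df34afc85a)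 b19981 (.one (nat_lit 32) (nat_lit 206) (nat_lit 74) (nat_lit 0x17eb172fc9715f8afabf1f1d7e2caafc4285fa9d2bf59ed7efc3afd3795fa628bf4dad7f4b72fd4c55fc2cebf7dcd7e8832fdf735fca9ebf99157e8572fcf7c5f8b16bf00257e3692f9c5c5f8eb2bed0c97e2162fcc69) b19983 (.one (nat_lit 35) (nat_lit 207) (nat_lit 75) (nat_lit 0x17e12eafb36e5f8dbcbee0d57dbccafb8305f76a6bf06d97e537afbfa85f7e86befe697ea90afbf225f9a1abf29697ddf6afca5b5f9918bf328d7e68eafc9c75f93eabeff897e355afa2c75f9140bed3097e2032fc90e) b19982 (.one (nat_lit 38) (nat_lit 208) (nat_lit 76) (nat_lit 0x17e9522fc3b95f8e12bf17a97e2a72fc5e55f9916bf52397ed64afce0f5f9b86bf3f517ed9bafcf495fb748bf5ba97e44eafdab55fb8a4bf78597e86aafcddc5f7a70bee4597dfefafb07c5f833ebf06dd7de9c2fc717) b19984 (.tok (nat_lit 41) (nat_lit 0x17ebccafd1995f97d8bf24c97e582afc5a25fae66bf6d457f230afd4e45fa8febf53597f5372fd9245fd004bf8d757ea51afe3225fd650bfa2a57ea2d2fd3295f9caabf1b297e6c9afa6ec5f9d82bf2d017e5772fd027)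 (.hit (nat_lit 209) (nat_lit 77) (nat_lit 0x17e6d32fc7915f8a22bef6ad7de70afbb745f8202bf21757e7a72fc6475f8e70bf18e57e7b3afc3fd5f9e72bf3ce97e24c2fcf395fa010bf325d7e7b7afcecd5f202cbe40757c91eaf918c5f1f6cbecc397d4a2afc964) b19985 (.hit (nat_lit 210) (nat_lit 78) (nat_lit 0x17ebccafd1995f97d8bf24c97e582afc5a25fae66bf6d457f230afd4e45fa8febf53597f5372fd9245fd004bf8d757ea51afe3225fd650bfa2a57ea2d2fd3295f9caabf1b297e6c9afa6ec5f9d82bf2d017e5772fd027) b19986 (.nil))) (.tok (nat_lit 44) (nat_lit 0x17eb9c2fc8cc5f82a2bf23417e37bafc54c5fa0a8bf52d57ef80afd2445fa3e2bf51d57ef452fd3dc5fd554bf6bed7e5e9afde6d5fbdd6bf75097e64cafccbb5f887cbf0fb57e9a12faf6c5f9018beedd57e0bd2fcf1f) (.hit (nat_lit 211) (nat_lit 79) (nat_lit 0x17dc752fa9ec5f7104bf13697e21f2fc4d55f5392beb9d57e0acafbb115f72a2bf04697e127afac765f828abee9e97d70c2fc1455f743abed51d7d8e0afb2b45f887cbf0fb57e9a12faf6c5f9018beca4d7df5e2fc039) b19989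 (.hit (nat_lit 212) (nat_lit 80) (nat_lit 0x17eb9c2fc8cc5f82a2bf23417e37bafc54c5fa0a8bf52d57ef80afd2445fa3e2bf51d57ef452fd3dc5fd554bf6bed7e5e9afde6d5fbdd6bf75097e64cafccbb5f8016bef7857e259afa9625f8826beedd57e0bd2fcf1f) b19990 (.nil))) (.tok (nat_lit 47) (nat_lit 0x17ee09afdbff5fa872bf542d7e9f72fca855f9318bf44517ec602fd6995fb842bf5a6d7ef1cafd5775fb1ccbf74317ea9a2fe0b95fb4e4bf5eb17e6e5afcc2b5f8e94bf0d757e5422fa1165f9db8bf0a5d7e2bcafcf2b) (.hit (nat_lit 213) (nat_lit 81) (nat_lit 0x17ee09afdbff5fa872bf542d7e9f72fca855f9318bf44517ec602fd6995fb842bf5a6d7ef1cafd5775fb1ccbf74317ea9a2fe0b95fb4e4bf5eb17e68cafcbe75f8b42bf0d757e5422fa1165f92b4be96ad7e2bcafcf2b) b19987 (.hit (nat_lit 214) (nat_lit 82) (nat_lit 0x17e9a62fbf725f87a4bf13957e158afc1455f8ea8bf219d7eb3d2fd0975fa064bf42257ee48afcb2d5fb05abf59997e1b4afd6665fb0cabf5a697e6e5afcc2b5f8e94befeb57e343afa0f95f9db8bf0a5d7e1e8afc874) b19988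 (.nil))) (.one (nat_lit 50) (nat_lit 215) (nat_lit 83) (nat_lit 0x17e8c1afbefa5f8626bf0c717e08cafc1b05f98d0bf3e017ecb2afcece5f9cd2bf3b017f1402fce275fb2a2bf56757e3982fd59d5fb902bf80557ea412fcf225f90debef8217e268afac475f90a2bf0c097e1162fc7e9) b19991 (.tok (nat_lit 53) (nat_lit 0x17ed7c2fd7505f93dabf2ca97e5282fc8f35fa986bf60a97efbbafd3c65fa838bf4ee17f5822fd8aa5fbed4bf78457e65b2fdba25fc810bfc0317eb2a2fd6155f9702bf09717e491afa9535f970ebf45917e33eafd0b9) (.hit (nat_lit 216) (nat_lit 84) (nat_lit 0x17ed7c2fd7505f93dabf2ca97e5282fc8f35fa0e8bf53157eddeafd3c65fa838bf4ee17edd7afd0755fb712bf6d817e65b2fdba25fb9d0bf6d9d7eb2a2fd6155f68fabed2117db522fa9535f6552bf45917e070afd0b9) b19992 (.hit (nat_lit 217) (nat_lit 85) (nat_lit 0x17ea6dafc9375f873abf19d17e225afc2d45fa986bf60a97efbbafd2265fa382bf48617f5822fd8aa5fbed4bf78457e5f1afda4a5fc810bfc0317e7ad2fcdef5f9702bf09717e491afa52f5f970ebf220d7e33eafcd62)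 b19993 (.nil))) (.tok (nat_lit 56) (nat_lit 0x17efeeafd82b5fb0c2bf753d7ed0aafdcf25fa360bf51c17f08bafe1175fc0babf84017f0a62fd5c55fc1fcbf844d7e93fafe1135fc222bf784d7f084afddad5fadbebf5b817f13bafdbb85fcbf4bf6b297ed8c2fda89) (.hit (nat_lit 218) (nat_lit 86) (nat_lit 0x17efeeafd82b5fb0c2bf753d7ed0aafdcf25fa360bf51c17f08bafe1175fc0babf84017f0a62fd5c55fc1fcbf844d7e93fafe1135fc222bf784d7f084afddad5fa8d4bf454d7ee962fdbb85fbd82bf677d7ed8c2fda89) b19994 (.one (nat_lit 3) (nat_lit 222) (nat_lit 90) (nat_lit 0x17e0e42fb2ca5f986ebf36e17e68e2fcdb35f654ebedd4d7e51bafc3ef5f845ebf27e17e596afb5545f9446bf0d617db7b2fca235f85f6bef8957dd4fafbb925fad2ebf5b817ef30afb84a5fbea0bf457d7e577afd1d7) b19998 (.tok (nat_lit 6) (nat_lit 0x17e711afbf255fafe8bf684d7ecbbafda0e5f7e04bf0eb97eb492fd04a5f9d14bf594d7ebc42fc1af5facfcbf3ecd7e1a8afd67e5f9eacbf2a017e5ab2fc7ed5faa62bf50117f13bafc4a55fcbf4bf6b297e801afd533)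 (.hit (nat_lit 220) (nat_lit 88) (nat_lit 0x17e2c6afb68f5fade4bf45f57e870afd1785f6cd8beec617e6fe2fc7b45f8be8bf36f57e7792fb9195f9bd0bf1c757dd5dafcde85f8d80bf07a97e5ab2fc67a5f8f4cbf1de57f13bafbc0f5fa094bf6b297e6f32fd102) b19996 (.hit (nat_lit 221) (nat_lit 89) (nat_lit 0x17e711afbf255fafe8bf684d7ecbbafda0e5f7e04bf0eb97eb492fd04a5f9d14bf594d7ebc42fc1af5facfcbf3ecd7e1a8afd67e5f9eacbf2a017e37d2fc7ed5faa62bf50117efc9afc4a55fcbf4bf56217e801afd533) b19997 (.nil))) (.one (nat_lit 9) (nat_lit 219) (nat_lit 87) (nat_lit 0x17e67bafbdf95fa156bf639d7ec25afd8e25f7bacbf0a097eab32fcf1e5f9abcbf549d7eb2e2fc0835faaa4bf3a1d7e112afd5525f9c54bf25517e36a2fc6c15fadbebf54f57ecf62fc3795fba52bf4e9d7e603afd392) b19995 (.nil))))) (.one (nat_lit 59) (nat_lit 223) (nat_lit 91) (nat_lit 0x17e59b2fbb705f7186bef33d7dd512fb92f5fa436bf4cc57ea362fc8815f9038bf21cd7f18bafd4ea5fa984bf44a17e15dafd1285fc20ebf7b657e2db2fc4845f7914beca717dcb2af979c5f75debedc4d7db5fafc3c2)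 b19999 (.nil)))))))))))))))))) (.tok (nat_lit 64) (nat_lit 0x17fd1b300000600000bfdd017fc622fffcc600000bfce1580000300000600000c00001800002ffca9600000c000017f9bbb00000600000c00001800003000006007a4c00ee580000300592600724bfe45580000300000) (.hit (nat_lit 377) (nat_lit 0) (nat_lit 0x17fd1b2ff65b5ff822bfdd017fa9b2ff5d4600000bfce1580000300000600000c00001800002ffca9600000c000017f9bbb00000600000c00001800003000006007a4c00ee57fbc1b00592600724bfe4557fc73affab7) b20000 (.tok (nat_lit 6) (nat_lit 0x17f9782ffd26600000bfca917f9522ff2a45fcd28bfa4b57fae42ff5b45fea9ebfd6997fad9afea785feb68bfd6d17f3a3aff5b45feb68bfc9d57f31aafe4c85fe2fcbfc3017fb852ff2c45feb26bfd77d7fa62aff4b2) (.hit (nat_lit 378) (nat_lit 7) (nat_lit 0x17f574afdaad600000bfca917f9522ff2a45fc28abf8c117f8b22ff0355fdeaabfc40d7f7e22fe0f25fe29cbfc2bd7f0e12ff1465fd904bfa1397f3192fe4c85fbbacbf81f97efb62fe1dd5fb87ebfd77d7f8712ff1f2) b20003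 (.hit (nat_lit 379) (nat_lit 15) (nat_lit 0x17f9782ffd265fee0ebfbf257f788aff0dc5fcd28bfa4b57fae42ff5b45fea9ebfd6997fad9afea785feb68bfd6d17f3a3aff5b45feb68bfc9d57f31aafe2095fe2fcbfc3017fb852ff2c45feb26bfc0a17fa62aff4b2) b20004 (.nil))) (.tok (nat_lit 9) (nat_lit 0x17fc8cb000005fde1ebfd0ad7fc622fffcc5fd954bfb7597fe21affbf25fef64bff0897fca52ff07c5ff85ebfefe57f6bcaffc2f5ff04ebfd2657f228afe2e7600034c008e9800002ffe005ffbdabfca1580000300000) (.hit (nat_lit 380) (nat_lit 20) (nat_lit 0x17fc8cb000005fde1ebfd0ad7fc622fffcc5fd954bfb7597fe21affbf25fef64bff0897fca52ff07c5ff85ebfefe57f6bcaffc2f5ff04ebfd2657f228afe2e7600034c008e9800002ffe005ffbdabfca1580000300000) b20001 (.hit (nat_lit 381) (nat_lit 28) (nat_lit 0x17f6bcaff1355fc4b2bfab8d7f36fafebda5fb562bf76ed7f8782fefdc5fd4fcbfc3357f49cafdef15fe1b6bfbfe97edeb2ff0dc5fd4aabf9d5d7ed36afd9035fd26abf998d7f6872fed6a5fd4d6bfae6d7f6702fed0e) b20002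 (.nil))) (.nil)))) (.tok (nat_lit 67) (nat_lit 0x17fca9afe5635fe2dabfd3097fa612ff4c25fdd9abfc2bd7ff5aaffd335ff78ebffa017fc84aff2925ffd40bff14d7f720affe965ffbecbfdfc57fd53affb295fd528bfadfd7f7bc2feb325fd676bfc6217f7a3afef8f) (.hit (nat_lit 388) (nat_lit 0) (nat_lit 0x17fca9afe5635fd528bfc9b57f936aff26d5fdd9abfc2bd7ff5aaffd335ff78ebffa017fc84aff2925ffd40bff14d7f720affe965ffbecbfdfc57fd53affb295fd528bfadfd7f7bc2feb325fd676bfb5217f7a3afef8f) b20005 (.tok (nat_lit 3) (nat_lit 0x17f683afdccb5fe2dabfd3097fa612ff4c25fc6c6bf94897f9c12ff2535fe2e6bfcc857f8f12fe3105fe6d8bfcb357f1f02ff3645fdd40bfa9b17f9f32fefba5fd450bf954d7f4e72fe3fb5fd17abfc6217f4a2afef42) (.hit (nat_lit 389) (nat_lit 1) (nat_lit 0x17e9722fc2a85fb054bf6a7d7ed4fafda9f5f9280bf2bfd7ecafafd8305faea0bf63f97ebdfafc8ed5fb292bf62a97e4deafd9415fa8fabf41257e716afccc35f8ba2bf21e57e3b3afc9d85f8874bf5b457e5df2fd1ca) b20006 (.one (nat_lit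 55) (nat_lit 390) (nat_lit 3) (nat_lit 0x17f683afdccb5fe2dabfd3097fa612ff4c25fc6c6bf94897f9c12ff2535fe2e6bfcc857f8f12fe3105fe6d8bfcb357f1f02ff3645fdd40bfa9b17f9f32fefba5fd450bf954d7f4e72fe3fb5fd17abfc6217f4a2afef42) b20007 (.nil))) (.tok (nat_lit 9) (nat_lit 0x17ee0d2fcbde5fb6eabf8f557f1eaafe3d55fa4ecbf50d57f14aafe1665fc10cbf88d17f07aafd2235fc4febf87817e979afe2775fbb66bf65fd7ec562fd5f95f9e0ebf46bd7e84eafd30e5f9b06bf658d7e96e2fd4e5) (.hit (nat_lit 391) (nat_lit 20) (nat_lit 0x17ee0d2fcbde5fb6eabf8f557f1eaafe3d55fa4ecbf50d57f14aafe1665fc10cbf88d17f07aafd2235fc4febf87817e979afe2775fbb66bf65fd7ec27afd5f95f9e0ebf46bd7e84eafd30e5f9ae0bf658d7e96e2fd4e5) b20008 (.hit (nat_lit 394) (nat_lit 28) (nat_lit 0x17e6532fbc6a5fac44bf51857ea30afd4615f8604bf13057e990afd1f25fa224bf4b017e8c0afc2af5fa616bf49b17e1bfafd3035f9c7ebf282d7ec562fd4805f9ddcbf28657e74a2fc39a5f9b06bf53057e705afd1df) b20009 (.nil)))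 (.nil)))) (.tok (nat_lit 70) (nat_lit 0x17fc22afe8095fee00c00001800003000005fdd42bfc1817ff602ffd915ff962bff97d7fe902fee4e5ffd54bff82d7f78f2ffea25ff3bcbfd6a97f9c72ff2245fd664bfb7697fd9baff4f15feb9ac000017fb17aff8b1) (.hit (nat_lit 402) (nat_lit 0) (nat_lit 0x17f5ce2fd6b35fc834bf92ed7f25dafe4bb5fcaaabf9bc17fc3b2ff7685fed28bfe06d7fb042fec085ff064bfde7d7f252aff5625fe76ebfbefd7f51eafe8fc5fccc0bf87a57f5a22ff4f15fd0a4bf784d7f5982fec03) b20010 (.tok (nat_lit 3) (nat_lit 0x17f6e82fdd945fc90abfd62d7fac5aff58b5fc858bf97ad7fa25aff31c5fe478bfcfa97f955afe3d95fe86abfce597f254aff42d5fded2bfacd57f61f2fe8125fcc7abf8e197fd9bafe4c45feb9abfe31d7f42eafed44) (.hit (nat_lit 403) (nat_lit 1) (nat_lit 0x17eb682fc6945fbb44bf7a2d7ef45afde8b5f9a58bf3bad7eea5afdc1c5fb678bf73a97edd5afccd95fba6abf72597e6d4afdd2d5fb0d2bf50d57e90cafd0af5fa664bf3e597f0cd2fcdc45fbf32bf9d6d7e8e6afd625) b20011 (.one (nat_lit 67) (nat_lit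 404) (nat_lit 2) (nat_lit 0x17f6e82fdd945fc90abfd62d7fac5aff58b5fc858bf97ad7fa25aff31c5fe478bfcfa97f955afe3d95fe86abfce597f254aff42d5fded2bfacd57f61f2fe8125fcc7abf8e197fd9bafe4c45feb9abfe31d7f42eafed44) b20012 (.nil))) (.tok (nat_lit 6) (nat_lit 0x17fc22afe8095fee00c00001800003000005fdd42bfc1817ff602ffd915ff962bff97d7fe902fee4e5ffd54bff82d7f78f2ffea25ff3bcbfd6a97f9c72ff2245fd664bfb7697fcac2fef395fdd80c000017fb17aff8b1) (.hit (nat_lit 405) (nat_lit 7) (nat_lit 0x17ec6aafc8995fb3b4bf82417f0482fe0905f9e62bf43c17efa82fde215fba82bf7bbd7eed82fcede5fbe74bf7a6d7e7d72fdf325fb4dcbf58e97ea0f2fd2b45f9784bf39a97e6ac2fcfc95f9456bfa1017e8642fd8bf) b20013 (.hit (nat_lit 408) (nat_lit 15) (nat_lit 0x17eb22afc6095fb8f4bf78017ef002fde005f9942bf39817ee602fdb915fb562bf717d7ed902fcc4e5fb954bf702d7e68f2fdca25fafbcbf4ea97e8c72fd0245f9f10bf2ff17ed6cafcd395fb1e8bf8b597e87dafd667) b20016 (.tok (nat_lit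 55) (nat_lit 0x17fc22afe8095fee00c00001800003000005fdd42bfc1817ff602ffd915ff962bff97d7fe902fee4e5ffd54bff82d7f78f2ffea25ff3bcbfd6a97f9c72ff2245fd664bfb7697fcac2fef395fdd80c000017fb17aff8b1) (.hit (nat_lit 406) (nat_lit 8) (nat_lit 0x17f3e72fd7925fcbc6bfbe257f7c4afef895fbc54bf7fa57f724afed1a5fd874bfb7a17f654afddd75fdc66bfb6517ef53afee2b5fd2cebf94cd7f18bafe1ad5fb576bf758d7ee28afdec25fb248bfe1ed7f3d9afe64d) b20014 (.hit (nat_lit 409) (nat_lit 16) (nat_lit 0x17f71d2fddfe5fe6b8bfd7d57fafaaff5f55fc92cbf99557fa5aaff3865fe54cbfd1517f98aafe4435fe93ebfd0017f289aff4975fdfa6bfae7d7f4c1afe8195fc4e8bf8f3d7fcac2fe52e5fdd80bfdbe57f27e2fead0) b20017 (.one (nat_lit 6) (nat_lit 407) (nat_lit 9) (nat_lit 0x17fc22afe8095fee00c00001800003000005fdd42bfc1817ff602ffd915ff962bff97d7fe902fee4e5ffd54bff82d7f78f2ffea25ff3bcbfd6a97f9c72ff2245fd664bfb7697f6642fef395fd336c000017fb17aff8b1) b20015 (.nil)))) (.nil))))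 (.nil)))) (.nil))))
noncomputable def r21_1 : Rw Blk := .tok (nat_lit 14) (nat_lit 0x1780002f00005f8e7abf843d7ed37afdf69) (.hit (nat_lit 140) (nat_lit 0) (nat_lit 0x1780002f00005f8e7abf843d7ed37afdf69) b20029 (.one (nat_lit 3) (nat_lit 141) (nat_lit 1) (nat_lit 0x1780002f00005f3a64beedc17da682fb9ca) b20030 (.tok (nat_lit 6) (nat_lit 0x1780002f00005f7aa2bf6e3d7ea77afd9e9) (.hit (nat_lit 142) (nat_lit 7) (nat_lit 0x1780002f00005f7764bf67c17e9a82fd84a) b20031 (.hit (nat_lit 143) (nat_lit 15) (nat_lit 0x1780002f00005f7aa2bf6e3d7ea77afd9e9) b20033 (.nil))) (.tok (nat_lit 9) (nat_lit 0x1780002f00005f826abf7dcd7ec69afddcd) (.hit (nat_lit 144) (nat_lit 20) (nat_lit 0x1780002f00005f7764bf67c17e9a82fd84a) b20031 (.hit (nat_lit 145) (nat_lit 28) (nat_lit 0x1780002f00005f826abf7dcd7ec69afddcd) b20032 (.nil))) (.nil))))) (.tok (nat_lit 17) (nat_lit 0x1780002f00005f8f20bf76357f02eafece1) (.hit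 (nat_lit 134) (nat_lit 0) (nat_lit 0x1780002f00005f8f20bf76357f02eafece1) b20034 (.one (nat_lit 3) (nat_lit 135) (nat_lit 1) (nat_lit 0x1780002f00005f304abed98d7d7e1afb4bd) b20035 (.tok (nat_lit 6) (nat_lit 0x1780002f00005f768cbf66117e9722fd7de) (.hit (nat_lit 136) (nat_lit 7) (nat_lit 0x1780002f00005f669ebf46357e576afcfe7) b20038 (.hit (nat_lit 137) (nat_lit 15) (nat_lit 0x1780002f00005f768cbf66117e9722fd7de) b20039 (.nil))) (.tok (nat_lit 9) (nat_lit 0x1780002f00005f7c8cbf72117eaf22fdade) (.hit (nat_lit 138) (nat_lit 20) (nat_lit 0x1780002f00005f6c8abf520d7e6f1afd2dd) b20036 (.hit (nat_lit 139) (nat_lit 28) (nat_lit 0x1780002f00005f7c8cbf72117eaf22fdade) b20037 (.nil))) (.nil))))) (.tok (nat_lit 20) (nat_lit 0x1780002f00005f9004bf7a197ec42afe05c) (.hit (nat_lit 122) (nat_lit 0) (nat_lit 0x1780002f00005f9004bf6e297ec42afe05c) b20018 (.one (nat_lit 3) (nat_lit 123) (nat_lit 1)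 (nat_lit 0x1780002f00005f4156befba57dc24afbd43) b20019 (.tok (nat_lit 6) (nat_lit 0x1780002f00005f7c60bf71b97eae72fdac8) (.hit (nat_lit 124) (nat_lit 7) (nat_lit 0x1780002f00005f6ea2bf563d7e777afd3e9) b20022 (.hit (nat_lit 125) (nat_lit 15) (nat_lit 0x1780002f00005f7c60bf71b97eae72fdac8) b20023 (.nil))) (.tok (nat_lit 9) (nat_lit 0x1780002f00005f8090bf7a197ebf32fdce0) (.hit (nat_lit 126) (nat_lit 20) (nat_lit 0x1780002f00005f703cbf59717e7de2fd4b6) b20020 (.hit (nat_lit 127) (nat_lit 28) (nat_lit 0x1780002f00005f8090bf7a197ebf32fdce0) b20021 (.nil))) (.nil))))) (.tok (nat_lit 23) (nat_lit 0x1780002f00005fc67cbfe9417fa962ff7ac) (.hit (nat_lit 128) (nat_lit 0) (nat_lit 0x1780002f00005fc67cbfe9417fa962ff7ac) b20024 (.one (nat_lit 3) (nat_lit 129) (nat_lit 1) (nat_lit 0x1780002f00005fab6cbf8a7d7f2d12feae3) b20025 (.tok (nat_lit 6) (nat_lit 0x1780002f00005fae20bfafe97f7572ff53f) (.hit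 (nat_lit 130) (nat_lit 7) (nat_lit 0x1780002f00005fae20bfafe97f7572ff53f) b20027 (.hit (nat_lit 131) (nat_lit 15) (nat_lit 0x1780002f00005fa2c2bfa1217f579aff051) b20028 (.nil))) (.tok (nat_lit 9) (nat_lit 0x1780002f00005fa6ecbf9d097f5112fef3b) (.hit (nat_lit 132) (nat_lit 20) (nat_lit 0x1780002f00005f703cbf59717e7de2fd4b6) b20020 (.hit (nat_lit 133) (nat_lit 28) (nat_lit 0x1780002f00005fa6ecbf9d097f5112fef3b) b20026 (.nil))) (.nil))))) (.tok (nat_lit 26) (nat_lit 0x1780002f00005fc862bfb84d7f875affa8a) (.hit (nat_lit 260) (nat_lit 0) (nat_lit 0x1780002f00005fc862bfb84d7f875affa8a) b20063 (.one (nat_lit 3) (nat_lit 261) (nat_lit 1) (nat_lit 0x1780002f00005f336ebedfd57d8aaafb64f) b20064 (.tok (nat_lit 6) (nat_lit 0x1780002f00005f5724bf27417e1982fc82a) (.hit (nat_lit 262) (nat_lit 7) (nat_lit 0x1780002f00005f5636bf25657e15cafc7b3) b20067 (.hit (nat_lit 263) (nat_lit 15) (nat_lit 0x1780002f00005f5724bf27417e1982fc82a)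 b20068 (.nil))) (.tok (nat_lit 9) (nat_lit 0x1780002f00005f8eb2bf965d7ef7bafe3f1) (.hit (nat_lit 264) (nat_lit 20) (nat_lit 0x1780002f00005f8eb2bf965d7ef7bafe3f1) b20065 (.hit (nat_lit 265) (nat_lit 28) (nat_lit 0x1780002f00005f3022bed93d7d7d7afb4a9) b20066 (.nil))) (.nil))))) (.tok (nat_lit 29) (nat_lit 0x1780002f00005f9328bf818d7f1a3afeb02) (.hit (nat_lit 266) (nat_lit 0) (nat_lit 0x1780002f00005f9328bf818d7f1a3afeb02) b20069 (.one (nat_lit 3) (nat_lit 267) (nat_lit 1) (nat_lit 0x1780002f00005f3832bee95d7d9dbafb8b1) b20070 (.tok (nat_lit 6) (nat_lit 0x1780002f00005f7d4cbf73917eb222fdb3e) (.hit (nat_lit 268) (nat_lit 7) (nat_lit 0x1780002f00005f77eebf68d57e9caafd88f) b20073 (.hit (nat_lit 269) (nat_lit 15) (nat_lit 0x1780002f00005f7d4cbf73917eb222fdb3e) b20074 (.nil))) (.tok (nat_lit 9) (nat_lit 0x1780002f00005f70babf5a6d7e7fdafd4f5) (.hit (nat_lit 270) (nat_lit 20) (nat_lit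 0x1780002f00005f5184bf1c017e0302fc55a) b20071 (.hit (nat_lit 271) (nat_lit 28) (nat_lit 0x1780002f00005f70babf5a6d7e7fdafd4f5) b20072 (.nil))) (.nil))))) (.tok (nat_lit 32) (nat_lit 0x1780002f00005fcd4ebfdfe57fbce2ffbbe) (.hit (nat_lit 272) (nat_lit 0) (nat_lit 0x1780002f00005fcd4ebfdfe57fbce2ffbbe) b20075 (.one (nat_lit 3) (nat_lit 273) (nat_lit 1) (nat_lit 0x1780002f00005f5384bf20017e0b02fc65a) b20076 (.tok (nat_lit 6) (nat_lit 0x1780002f00005f829abf7e2d7ec75afdde5) (.hit (nat_lit 274) (nat_lit 7) (nat_lit 0x1780002f00005f829abf7e2d7ec75afdde5) b20079 (.hit (nat_lit 275) (nat_lit 15) (nat_lit 0x1780002f00005f7ae8bf6ec97ea892fda0c) b20080 (.nil))) (.tok (nat_lit 9) (nat_lit 0x1780002f00005f7ea0bf76397eb772fdbe8) (.hit (nat_lit 276) (nat_lit 20) (nat_lit 0x1780002f00005f77aabf684d7e9b9afd86d) b20077 (.hit (nat_lit 277) (nat_lit 28) (nat_lit 0x1780002f00005f7ea0bf76397eb772fdbe8)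 b20078 (.nil))) (.nil))))) (.tok (nat_lit 35) (nat_lit 0x1780002f00005fad8abfd1a17f662aff463) (.hit (nat_lit 278) (nat_lit 0) (nat_lit 0x1780002f00005fad8abfd1a17f662aff463) b20081 (.one (nat_lit 3) (nat_lit 279) (nat_lit 1) (nat_lit 0x1780002f00005f4156befba57dc24afbd43) b20019 (.tok (nat_lit 6) (nat_lit 0x1780002f00005f5148bf1b897e0212fc53c) (.hit (nat_lit 280) (nat_lit 7) (nat_lit 0x1780002f00005f5148bf1b897e0212fc53c) b20083 (.hit (nat_lit 281) (nat_lit 15) (nat_lit 0x1780002f00005f2d06bed3057d710afb31b) b20084 (.nil))) (.tok (nat_lit 9) (nat_lit 0x1780002f00005f6fbcbf58717e7be2fd476) (.hit (nat_lit 282) (nat_lit 20) (nat_lit 0x1780002f00005f6ad2bf4e9d7e683afd201) b20042 (.hit (nat_lit 283) (nat_lit 28) (nat_lit 0x1780002f00005f6fbcbf58717e7be2fd476) b20082 (.nil))) (.nil))))) (.tok (nat_lit 38) (nat_lit 0x1780002f00005fb760bfc2557f9bc2ff805) (.hit (nat_lit 215) (nat_lit 0)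 (nat_lit 0x1780002f00005fb760bfc2557f9bc2ff805) b20085 (.one (nat_lit 3) (nat_lit 216) (nat_lit 1) (nat_lit 0x1780002f00005f4a5abf0dad7de65afc1c5) b20086 (.tok (nat_lit 6) (nat_lit 0x1780002f00005f749ebf62357e8f6afd6e7) (.hit (nat_lit 217) (nat_lit 7) (nat_lit 0x1780002f00005f749ebf62357e8f6afd6e7) b20088 (.hit (nat_lit 218) (nat_lit 15) (nat_lit 0x1780002f00005f524ebf1d957e062afc5bf) b20089 (.nil))) (.tok (nat_lit 9) (nat_lit 0x1780002f00005f5184bf1c017e0302fc55a) (.hit (nat_lit 219) (nat_lit 20) (nat_lit 0x1780002f00005f5184bf1c017e0302fc55a) b20071 (.hit (nat_lit 220) (nat_lit 28) (nat_lit 0x1780002f00005f452ebf03557dd1aafbf2f) b20087 (.nil))) (.nil))))) (.tok (nat_lit 41) (nat_lit 0x1780002f0000600000c0745980d6b301c9e) (.hit (nat_lit 226) (nat_lit 0) (nat_lit 0x1780002f00005fc858bfd7d17fdebaff4ff) b20090 (.one (nat_lit 3) (nat_lit 227) (nat_lit 1) (nat_lit 0x1780002f00005fb632bfb6c17f6e82fee5c)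 b20091 (.tok (nat_lit 6) (nat_lit 0x1780002f00005fcf8cc001157fc3d2ff5aa) (.hit (nat_lit 228) (nat_lit 7) (nat_lit 0x1780002f00005fcf8cc001157fc3d2ff5aa) b20094 (.hit (nat_lit 229) (nat_lit 15) (nat_lit 0x1780002f00005fb1e4bfad457f4fcafe949) b20095 (.nil))) (.tok (nat_lit 9) (nat_lit 0x1780002f0000600000c0745980d6b301c9e) (.hit (nat_lit 230) (nat_lit 20) (nat_lit 0x1780002f0000600000c0745980d6b301c9e) b20092 (.hit (nat_lit 231) (nat_lit 28) (nat_lit 0x1780002f00005fb63cbfbc457f7852fecac) b20093 (.nil))) (.nil))))) (.tok (nat_lit 44) (nat_lit 0x1780002f00005fcd22bfdfdd7faa72ff45d) (.hit (nat_lit 240) (nat_lit 0) (nat_lit 0x1780002f00005fcd22bfdfdd7faa72ff45d) b20096 (.one (nat_lit 3) (nat_lit 241) (nat_lit 1) (nat_lit 0x1780002f00005f56c0bf26797e17f2fc7f8) b20097 (.tok (nat_lit 6) (nat_lit 0x1780002f00005f5e9ebf36357e376afcbe7) (.hit (nat_lit 242) (nat_lit 7) (nat_lit 0x1780002f00005f5e9ebf36357e376afcbe7)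 b20100 (.hit (nat_lit 243) (nat_lit 15) (nat_lit 0x1780002f00005f4f40bf17797df9f2fc438) b20101 (.nil))) (.tok (nat_lit 9) (nat_lit 0x1780002f00005f839cbf80317ecb62fde66) (.hit (nat_lit 244) (nat_lit 20) (nat_lit 0x1780002f00005f7fd4bf78a17ebc42fdc82) b20098 (.hit (nat_lit 245) (nat_lit 28) (nat_lit 0x1780002f00005f839cbf80317ecb62fde66) b20099 (.nil))) (.nil))))) (.tok (nat_lit 47) (nat_lit 0x1780002f00005ffc18bff8397ffa1b001ff) (.hit (nat_lit 254) (nat_lit 0) (nat_lit 0x1780002f00005fc3b4bfc3917f8612ff279) b20102 (.one (nat_lit 3) (nat_lit 255) (nat_lit 1) (nat_lit 0x1780002f00005f9196bf53f17eb6eafd79d) b20103 (.tok (nat_lit 6) (nat_lit 0x1780002f00005ffc18bff8397ffa1b001ff) (.hit (nat_lit 256) (nat_lit 7) (nat_lit 0x1780002f00005ffc18bff8397ffa1b001ff) b20106 (.hit (nat_lit 257) (nat_lit 15) (nat_lit 0x1780002f00005fa878bf906d7f37eafe515) b20107 (.nil))) (.tok (nat_lit 9) (nat_lit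 0x1780002f00005fcc68bfc7c97fa79aff43a) (.hit (nat_lit 258) (nat_lit 20) (nat_lit 0x1780002f00005fcc68bfc7c97fa79aff43a) b20104 (.hit (nat_lit 259) (nat_lit 28) (nat_lit 0x1780002f00005fa514bf85a57f243afe2c8) b20105 (.nil))) (.nil))))) (.tok (nat_lit 50) (nat_lit 0x1780002f00005f91c8bf88e57f04a2fe4ad) (.hit (nat_lit 146) (nat_lit 0) (nat_lit 0x1780002f00005f91c8bf7f917f04a2fe4ad) b20040 (.one (nat_lit 3) (nat_lit 147) (nat_lit 1) (nat_lit 0x1780002f00005f22febebef57d48eafae17) b20041 (.tok (nat_lit 6) (nat_lit 0x1780002f00005f87f6bf88e57edccafe093) (.hit (nat_lit 148) (nat_lit 7) (nat_lit 0x1780002f00005f87f6bf88e57edccafe093) b20044 (.hit (nat_lit 149) (nat_lit 15) (nat_lit 0x1780002f00005f300cbed9117d7d22fb49e) b20045 (.nil))) (.tok (nat_lit 9) (nat_lit 0x1780002f00005f6ad2bf4e9d7e683afd201) (.hit (nat_lit 150) (nat_lit 20) (nat_lit 0x1780002f00005f6ad2bf4e9d7e683afd201) b20042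 (.hit (nat_lit 151) (nat_lit 28) (nat_lit 0x1780002f00005f5166bf1bc57e028afc54b) b20043 (.nil))) (.nil))))) (.tok (nat_lit 53) (nat_lit 0x1780002f00005fdefcc03b7580739b00da0) (.hit (nat_lit 152) (nat_lit 0) (nat_lit 0x1780002f00005fc49cbff7b97fa0baffb8e) b20046 (.one (nat_lit 3) (nat_lit 153) (nat_lit 1) (nat_lit 0x1780002f00005fd250c002317f952affd79) b20047 (.tok (nat_lit 6) (nat_lit 0x1780002f00005fd83ec03b7580739b00da0) (.hit (nat_lit 154) (nat_lit 7) (nat_lit 0x1780002f00005fd83ec03b7580739b00da0) b20050 (.hit (nat_lit 155) (nat_lit 15) (nat_lit 0x1780002f00005fc4eec008557fdbe300411) b20051 (.nil))) (.tok (nat_lit 9) (nat_lit 0x1780002f00005fdefcc005657feee300307) (.hit (nat_lit 156) (nat_lit 20) (nat_lit 0x1780002f00005f80a6bf7a457ebf8afdceb) b20048 (.hit (nat_lit 157) (nat_lit 28) (nat_lit 0x1780002f00005fdefcc005657feee300307) b20049 (.nil))) (.nil))))) (.tok (nat_lit 56)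 (nat_lit 0x1780002f00005f9d3cbf79f97efcc2fe9eb) (.hit (nat_lit 164) (nat_lit 0) (nat_lit 0x1780002f00005f9d3cbf79f97efcc2fe9eb) b20052 (.one (nat_lit 3) (nat_lit 165) (nat_lit 1) (nat_lit 0x1780002f00005f4156befba57dc24afbd43) b20019 (.tok (nat_lit 6) (nat_lit 0x1780002f00005f637cbf3ff17e4ae2fce56) (.hit (nat_lit 166) (nat_lit 7) (nat_lit 0x1780002f00005f637cbf3ff17e4ae2fce56) b20055 (.hit (nat_lit 167) (nat_lit 15) (nat_lit 0x1780002f00005f4432bf015d7dcdbafbeb1) b20056 (.nil))) (.tok (nat_lit 9) (nat_lit 0x1780002f00005f7246bf5d857e860afd5bb) (.hit (nat_lit 168) (nat_lit 20) (nat_lit 0x1780002f00005f6bb4bf50617e6bc2fd272) b20053 (.hit (nat_lit 169) (nat_lit 28) (nat_lit 0x1780002f00005f7246bf5d857e860afd5bb) b20054 (.nil))) (.nil))))) (.tok (nat_lit 59) (nat_lit 0x1780002f00005fb222bfe1a57f7ab2ff2cf) (.hit (nat_lit 158) (nat_lit 0) (nat_lit 0x1780002f00005fb222bfe1a57f7ab2ff2cf)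 b20057 (.one (nat_lit 3) (nat_lit 159) (nat_lit 1) (nat_lit 0x1780002f00005f2b94bed0217d6b42fb262) b20058 (.tok (nat_lit 6) (nat_lit 0x1780002f00005f6ce6bf52c57e708afd30b) (.hit (nat_lit 160) (nat_lit 7) (nat_lit 0x1780002f00005f67babf486d7e5bdafd075) b20061 (.hit (nat_lit 161) (nat_lit 15) (nat_lit 0x1780002f00005f6ce6bf52c57e708afd30b) b20062 (.nil))) (.tok (nat_lit 9) (nat_lit 0x1780002f00005f6f34bf57617e79c2fd432) (.hit (nat_lit 162) (nat_lit 20) (nat_lit 0x1780002f00005f6f34bf57617e79c2fd432) b20059 (.hit (nat_lit 163) (nat_lit 28) (nat_lit 0x1780002f00005f53e0bf20b97e0c72fc688) b20060 (.nil))) (.nil))))) (.nil))))))))))))))))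
noncomputable def r21_2 : Rw Blk := .tok (nat_lit 3) (nat_lit 0x1780002f00005fd248bfeb3d7f5a32ff5e8) (.hit (nat_lit 18) (nat_lit 0) (nat_lit 0x1780002f00005fd1e2bfeb3d7f5a32ff5e8) b20122 (.tok (nat_lit 6) (nat_lit 0x1780002f00005fd248bfc7517f554afeeed) (.hit (nat_lit 19) (nat_lit 7) (nat_lit 0x1780002f00005fd248bfc7517f554afeeed) b20125 (.hit (nat_lit 20) (nat_lit 15) (nat_lit 0x1780002f00005fb200bfa65d7f1022fe14f) b20126 (.nil))) (.tok (nat_lit 9) (nat_lit 0x1780002f00005fbecabf93557f1b22fe3a1) (.hit (nat_lit 21) (nat_lit 20) (nat_lit 0x1780002f00005f89f8bf82157e5f5afd687) b20123 (.hit (nat_lit 22) (nat_lit 28) (nat_lit 0x1780002f00005fbecabf93557f1b22fe3a1) b20124 (.nil))) (.nil)))) (.tok (nat_lit 6) (nat_lit 0x1780002f00006058e6c0cb0181b2db03956) (.hit (nat_lit 9) (nat_lit 0) (nat_lit 0x1780002f00005fcf22bfde6d7fb76aff876) b20113 (.tok (nat_lit 3) (nat_lit 0x1780002f00006034bec0477580c69301ab9)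 (.hit (nat_lit 10) (nat_lit 1) (nat_lit 0x1780002f00005fc76abfc3297f8cbaff404) b20114 (.one (nat_lit 67) (nat_lit 11) (nat_lit 2) (nat_lit 0x1780002f00006034bec0477580c69301ab9) b20115 (.nil))) (.tok (nat_lit 6) (nat_lit 0x1780002f00006058e6c0cb0181b2db03956) (.hit (nat_lit 12) (nat_lit 7) (nat_lit 0x1780002f0000600eb8c05d49809c0b01405) b20116 (.hit (nat_lit 16) (nat_lit 15) (nat_lit 0x1780002f00005fe2d6bfe3ed7fdaf2ffbba) b20120 (.tok (nat_lit 55) (nat_lit 0x1780002f00006058e6c0cb0181b2db03956) (.hit (nat_lit 13) (nat_lit 8) (nat_lit 0x1780002f00006036dcc0c375811dd302f98) b20117 (.hit (nat_lit 17) (nat_lit 16) (nat_lit 0x1780002f00006058e6c0cb0181b2db03956) b20121 (.tok (nat_lit 6) (nat_lit 0x1780002f000060228cc0646d80efcb01d1a) (.hit (nat_lit 14) (nat_lit 9) (nat_lit 0x1780002f000060228cc062f180ea7301896) b20118 (.one (nat_lit 55) (nat_lit 15) (nat_lit 10) (nat_lit 0x1780002f0000601a08c0646d80efcb01d1a)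 b20119 (.nil))) (.nil)))) (.nil)))) (.nil)))) (.tok (nat_lit 9) (nat_lit 0x1780002f00005fc6c6bfe8397f5a72ff010) (.hit (nat_lit 0) (nat_lit 0) (nat_lit 0x1780002f00005fc6c6bfc9dd7f5a72fed65) b20108 (.tok (nat_lit 3) (nat_lit 0x1780002f00005fbbe8bfe8397f2ba2ff010) (.hit (nat_lit 1) (nat_lit 1) (nat_lit 0x1780002f00005f91cebf88617e6bf2fd81a) b20109 (.one (nat_lit 55) (nat_lit 2) (nat_lit 3) (nat_lit 0x1780002f00005fbbe8bfe8397f2ba2ff010) b20110 (.nil))) (.tok (nat_lit 9) (nat_lit 0x1780002f00005f9426bf93697e8202fdadc) (.hit (nat_lit 3) (nat_lit 20) (nat_lit 0x1780002f00005f9180bf93697e8202fdadc) b20111 (.hit (nat_lit 7) (nat_lit 28) (nat_lit 0x1780002f00005f9426bf72b97e7112fd2e8) b20112 (.nil))) (.nil)))) (.nil)))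
noncomputable def r21_3 : Rw Blk := .tok (nat_lit 3) (nat_lit 0x1780002f0000600fe8bfc8217fc142ffa10) (.hit (nat_lit 0) (nat_lit 0) (nat_lit 0x1780002f00005fbe1cbf2d517eaecafd10d) b20127 (.tok (nat_lit 9) (nat_lit 0x1780002f00005fa3b6bef5797e24c2fc8db) (.hit (nat_lit 1) (nat_lit 20) (nat_lit 0x1780002f00005f85f8beb9fd7dadcafb9fc) b20128 (.hit (nat_lit 4) (nat_lit 28) (nat_lit 0x1780002f00005f8192beb1317d9c32fb7c9) b20129 (.one (nat_lit 56) (nat_lit 5) (nat_lit 31) (nat_lit 0x1780002f00005fa3b6bef5797e24c2fc8db) b20130 (.nil)))) (.tok (nat_lit 64) (nat_lit 0x1780002f00005fb562bf18d17e6b72fd1b1) (.hit (nat_lit 7) (nat_lit 50) (nat_lit 0x1780002f00005fa40abef6217e2612fc905) b20131 (.hit (nat_lit 8) (nat_lit 51) (nat_lit 0x1780002f00005fb562bf18d17e6b72fd1b1) b20132 (.nil))) (.tok (nat_lit 67) (nat_lit 0x1780002f0000600fe8bfc8217fc142ffa10) (.hit (nat_lit 9) (nat_lit 52) (nat_lit 0x1780002f0000600fe8bfc8217fc142ffa10)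 b20133 (.one (nat_lit 3) (nat_lit 15) (nat_lit 58) (nat_lit 0x1780002f00005fa404bef6157e25fafc902) b20136 (.tok (nat_lit 9) (nat_lit 0x1780002f00005faf70bf0ced7e53aafceb8) (.hit (nat_lit 10) (nat_lit 53) (nat_lit 0x1780002f00005faf70bf0ced7e53aafceb8) b20134 (.hit (nat_lit 13) (nat_lit 56) (nat_lit 0x1780002f00005f9f1cbeec457e125afc68e) b20135 (.nil))) (.nil)))) (.one (nat_lit 70) (nat_lit 16) (nat_lit 60) (nat_lit 0x1780002f00005fa28abef3217e2012fc845) b20137 (.nil)))))) (.tok (nat_lit 6) (nat_lit 0x1780002f0000604686c07855813bab02ad7) (.hit (nat_lit 17) (nat_lit 0) (nat_lit 0x1780002f00005fffb4bfc1317fb1b2ff3d0) b20138 (.tok (nat_lit 6) (nat_lit 0x1780002f0000600e66c0581580ef430235f) (.hit (nat_lit 18) (nat_lit 7) (nat_lit 0x1780002f00005ff1a0bfbf4d7fd22b000e5) b20139 (.hit (nat_lit 21) (nat_lit 15) (nat_lit 0x1780002f00005fab9abf1c397eb4cafcc82) b20142 (.tok (nat_lit 56) (nat_lit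 0x1780002f0000600e66c0581580ef430235f) (.hit (nat_lit 19) (nat_lit 13) (nat_lit 0x1780002f00005fdd72bff0d17ff1eb00c94) b20140 (.hit (nat_lit 23) (nat_lit 19) (nat_lit 0x1780002f00005fc012bf6ea17ef672fe100) b20144 (.one (nat_lit 6) (nat_lit 20) (nat_lit 14) (nat_lit 0x1780002f0000600e66c0581580ef430235f) b20141 (.nil)))) (.one (nat_lit 68) (nat_lit 22) (nat_lit 18) (nat_lit 0x1780002f00005ff70abf7f517f3ed2fe509) b20143 (.nil))))) (.tok (nat_lit 52) (nat_lit 0x1780002f0000603e18bff961803533003b9) (.hit (nat_lit 24) (nat_lit 39) (nat_lit 0x1780002f0000600658bfe0c57fcb22ff9d5) b20145 (.hit (nat_lit 25) (nat_lit 40) (nat_lit 0x1780002f0000603e18bff961803533003b9) b20146 (.nil))) (.tok (nat_lit 55) (nat_lit 0x1780002f0000604686c07855813bab02ad7) (.hit (nat_lit 26) (nat_lit 41) (nat_lit 0x1780002f0000604686c07855813bab02ad7) b20147 (.one (nat_lit 3) (nat_lit 32) (nat_lit 47) (nat_lit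 0x1780002f0000601a9ac020b5808b9b00f00) b20153 (.tok (nat_lit 6) (nat_lit 0x1780002f0000603bdac0667580dfe301f4b) (.hit (nat_lit 27) (nat_lit 42) (nat_lit 0x1780002f00005fe848bfce397fdfe2ffae8) b20148 (.hit (nat_lit 30) (nat_lit 45) (nat_lit 0x1780002f0000601f9ac02d95808efb01310) b20151 (.tok (nat_lit 55) (nat_lit 0x1780002f0000603bdac0667580dfe301f4b) (.hit (nat_lit 28) (nat_lit 43) (nat_lit 0x1780002f0000603bdac0667580dfe301f4b) b20149 (.hit (nat_lit 31) (nat_lit 46) (nat_lit 0x1780002f000060088ebffcfd80398b00b10) b20152 (.one (nat_lit 6) (nat_lit 29) (nat_lit 44) (nat_lit 0x1780002f0000603110c02629807eeb00a0c) b20150 (.nil)))) (.nil)))) (.nil)))) (.one (nat_lit 58) (nat_lit 33) (nat_lit 49) (nat_lit 0x1780002f0000601f38bffbd17fe0daffebe) b20154 (.nil)))))) (.nil))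
noncomputable def r21_4 : Rw Blk := .tok (nat_lit 14) (nat_lit 0x1780002f00005fae10bfa2bd7f0912fe6e5) (.hit (nat_lit 140) (nat_lit 0) (nat_lit 0x1780002f00005f984ebf60c97e852afd668) b20167 (.one (nat_lit 3) (nat_lit 141) (nat_lit 1) (nat_lit 0x1780002f00005f3c28bebeed7d4172fadf1) b20168 (.tok (nat_lit 6) (nat_lit 0x1780002f00005f93e4bf6e657ea062fd9cf) (.hit (nat_lit 142) (nat_lit 7) (nat_lit 0x1780002f00005f850ebf50b97e650afd264) b20171 (.hit (nat_lit 143) (nat_lit 15) (nat_lit 0x1780002f00005f93e4bf6e657ea062fd9cf) b20172 (.nil))) (.tok (nat_lit 9) (nat_lit 0x1780002f00005fae10bfa2bd7f0912fe6e5) (.hit (nat_lit 144) (nat_lit 20) (nat_lit 0x1780002f00005f988ebf77b97eb30afdc24) b20169 (.hit (nat_lit 145) (nat_lit 28) (nat_lit 0x1780002f00005fae10bfa2bd7f0912fe6e5) b20170 (.nil))) (.nil))))) (.tok (nat_lit 17) (nat_lit 0x1780002f00005fb92ebfb84d7f3432fec49) (.hit (nat_lit 134) (nat_lit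 0) (nat_lit 0x1780002f00005fb92ebf5d857ea8bafdc04) b20173 (.one (nat_lit 3) (nat_lit 135) (nat_lit 1) (nat_lit 0x1780002f00005f5afebefc997dbccafbd5c) b20174 (.tok (nat_lit 6) (nat_lit 0x1780002f00005fb8d8bfb84d7f3432fec49) (.hit (nat_lit 136) (nat_lit 7) (nat_lit 0x1780002f00005f7cd2bf40417e441afce46) b20177 (.hit (nat_lit 137) (nat_lit 15) (nat_lit 0x1780002f00005fb8d8bfb84d7f3432fec49) b20178 (.nil))) (.tok (nat_lit 9) (nat_lit 0x1780002f00005fa2eebf8c797edc8afe154) (.hit (nat_lit 138) (nat_lit 20) (nat_lit 0x1780002f00005f9cb6bf80097ec3aafde38) b20175 (.hit (nat_lit 139) (nat_lit 28) (nat_lit 0x1780002f00005fa2eebf8c797edc8afe154) b20176 (.nil))) (.nil))))) (.tok (nat_lit 20) (nat_lit 0x1780002f00005fd096bfcc997f39faff4a8) (.hit (nat_lit 122) (nat_lit 0) (nat_lit 0x1780002f00005fc5c0bfcc997f2c72ff4a8) b20155 (.one (nat_lit 3) (nat_lit 123) (nat_lit 1) (nat_lit 0x1780002f00005fa5e6bf77f17ee10afe424)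 b20156 (.tok (nat_lit 6) (nat_lit 0x1780002f00005fd096bf937d7f286afebd2) (.hit (nat_lit 124) (nat_lit 7) (nat_lit 0x1780002f00005f8fc8bf662d7e8ff2fd7c1) b20159 (.hit (nat_lit 125) (nat_lit 15) (nat_lit 0x1780002f00005fd096bf937d7f286afebd2) b20160 (.nil))) (.tok (nat_lit 9) (nat_lit 0x1780002f00005fcacebfbb317f39fafee4e) (.hit (nat_lit 126) (nat_lit 20) (nat_lit 0x1780002f00005fc784bf94a57f0742fee4e) b20157 (.hit (nat_lit 127) (nat_lit 28) (nat_lit 0x1780002f00005fcacebfbb317f39fafed02) b20158 (.nil))) (.nil))))) (.tok (nat_lit 23) (nat_lit 0x1780002f00005fcc28bfbb317f39faff083) (.hit (nat_lit 128) (nat_lit 0) (nat_lit 0x1780002f00005fc4b8bfa3a97f311afe917) b20161 (.one (nat_lit 3) (nat_lit 129) (nat_lit 1) (nat_lit 0x1780002f00005fb5ecbf78e57eefaafe60a) b20162 (.tok (nat_lit 6) (nat_lit 0x1780002f00005fbffebfb8957f34c2ff083) (.hit (nat_lit 130) (nat_lit 7) (nat_lit 0x1780002f00005fbdeebf9e417f1ad2ff083)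 b20165 (.hit (nat_lit 131) (nat_lit 15) (nat_lit 0x1780002f00005fbffebfb8957f34c2fef0a) b20166 (.nil))) (.tok (nat_lit 9) (nat_lit 0x1780002f00005fcc28bfbb317f39fafed02) (.hit (nat_lit 132) (nat_lit 20) (nat_lit 0x1780002f00005f9908bf78ad7eb4f2fdc61) b20163 (.hit (nat_lit 133) (nat_lit 28) (nat_lit 0x1780002f00005fcc28bfbb317f39fafed02) b20164 (.nil))) (.nil))))) (.tok (nat_lit 26) (nat_lit 0x1780002f00005fd4e6bfba557f216afefd4) (.hit (nat_lit 260) (nat_lit 0) (nat_lit 0x1780002f00005fd4e6bfba557f216afefd4) b20202 (.one (nat_lit 3) (nat_lit 261) (nat_lit 1) (nat_lit 0x1780002f00005f6bcabf1e317dfffafc5c2) b20203 (.tok (nat_lit 6) (nat_lit 0x1780002f00005f9e24bf82e57ec962fdeef) (.hit (nat_lit 262) (nat_lit 7) (nat_lit 0x1780002f00005f9e24bf82e57ec962fdeef) b20206 (.hit (nat_lit 263) (nat_lit 15) (nat_lit 0x1780002f00005f817abf49917e56bafd09a) b20207 (.nil))) (.tok (nat_lit 9) (nat_lit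 0x1780002f00005fa444bf8f257ee1e2fe1ff) (.hit (nat_lit 264) (nat_lit 20) (nat_lit 0x1780002f00005f7722bf34e17e2d5afcb6e) b20204 (.hit (nat_lit 265) (nat_lit 28) (nat_lit 0x1780002f00005fa444bf8f257ee1e2fe1ff) b20205 (.nil))) (.nil))))) (.tok (nat_lit 29) (nat_lit 0x1780002f00005fac1cbf9d557efe42fe58b) (.hit (nat_lit 266) (nat_lit 0) (nat_lit 0x1780002f00005fac1cbf8f897eeb3afe218) b20208 (.one (nat_lit 3) (nat_lit 267) (nat_lit 1) (nat_lit 0x1780002f00005f658ebf11b97de70afc2a4) b20209 (.tok (nat_lit 6) (nat_lit 0x1780002f00005fab5cbf9d557efe42fe58b) (.hit (nat_lit 268) (nat_lit 7) (nat_lit 0x1780002f00005f994ebf79397eb60afdc84) b20212 (.hit (nat_lit 269) (nat_lit 15) (nat_lit 0x1780002f00005fab5cbf9d557efe42fe58b) b20213 (.nil))) (.tok (nat_lit 9) (nat_lit 0x1780002f00005fa904bf98a57ef4e2fe45f) (.hit (nat_lit 270) (nat_lit 20) (nat_lit 0x1780002f00005f8c2ebf5ef97e818afd5f4) b20210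 (.hit (nat_lit 271) (nat_lit 28) (nat_lit 0x1780002f00005fa904bf98a57ef4e2fe45f) b20211 (.nil))) (.nil))))) (.tok (nat_lit 32) (nat_lit 0x1780002f00005fbb78bf9d297efdeafe580) (.hit (nat_lit 272) (nat_lit 0) (nat_lit 0x1780002f00005fbb78bf95517ecbe2fdefe) b20214 (.one (nat_lit 3) (nat_lit 273) (nat_lit 1) (nat_lit 0x1780002f00005f6280bf0b9d7ddad2fc11d) b20192 (.tok (nat_lit 6) (nat_lit 0x1780002f00005fab46bf9d297efdeafe580) (.hit (nat_lit 274) (nat_lit 7) (nat_lit 0x1780002f00005f770cbf34b57e2d02fcb63) b20217 (.hit (nat_lit 275) (nat_lit 15) (nat_lit 0x1780002f00005fab46bf9d297efdeafe580) b20218 (.nil))) (.tok (nat_lit 9) (nat_lit 0x1780002f00005f98eebf78797eb48afdc54) (.hit (nat_lit 276) (nat_lit 20) (nat_lit 0x1780002f00005f98eebf78797eb48afdc54) b20215 (.hit (nat_lit 277) (nat_lit 28) (nat_lit 0x1780002f00005f6ae4bf1c657dfc62fc54f) b20216 (.nil))) (.nil))))) (.tok (nat_lit 35)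 (nat_lit 0x1780002f00005fb476bfaf897f22aafea18) (.hit (nat_lit 278) (nat_lit 0) (nat_lit 0x1780002f00005fb476bfaf897f22aafea18) b20219 (.one (nat_lit 3) (nat_lit 279) (nat_lit 1) (nat_lit 0x1780002f00005f6280bf0b9d7ddad2fc11d) b20192 (.tok (nat_lit 6) (nat_lit 0x1780002f00005f9230bf6afd7e9992fd8f5) (.hit (nat_lit 280) (nat_lit 7) (nat_lit 0x1780002f00005f9230bf6afd7e9992fd8f5) b20222 (.hit (nat_lit 281) (nat_lit 15) (nat_lit 0x1780002f00005f67d4bf16457df022fc3c7) b20223 (.nil))) (.tok (nat_lit 9) (nat_lit 0x1780002f00005fa71ebf94d97eed4afe36c) (.hit (nat_lit 282) (nat_lit 20) (nat_lit 0x1780002f00005f9866bf77697eb26afdc10) b20220 (.hit (nat_lit 283) (nat_lit 28) (nat_lit 0x1780002f00005fa71ebf94d97eed4afe36c) b20221 (.nil))) (.nil))))) (.tok (nat_lit 38) (nat_lit 0x1780002f00005fda5ebfd0d17f6d12ff35b) (.hit (nat_lit 215) (nat_lit 0) (nat_lit 0x1780002f00005fda5ebfd0d17f6d12ff35b)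 b20224 (.one (nat_lit 3) (nat_lit 216) (nat_lit 1) (nat_lit 0x1780002f00005f62dcbf0c557ddc42fc14b) b20225 (.tok (nat_lit 6) (nat_lit 0x1780002f00005f9914bf78c57eb522fdc67) (.hit (nat_lit 217) (nat_lit 7) (nat_lit 0x1780002f00005f9914bf78c57eb522fdc67) b20193 (.hit (nat_lit 218) (nat_lit 15) (nat_lit 0x1780002f00005f7396bf2dc97e1f2afc9a8) b20228 (.nil))) (.tok (nat_lit 9) (nat_lit 0x1780002f00005f7a4ebf3b397e3a0afcd04) (.hit (nat_lit 219) (nat_lit 20) (nat_lit 0x1780002f00005f7a4ebf3b397e3a0afcd04) b20226 (.hit (nat_lit 220) (nat_lit 28) (nat_lit 0x1780002f00005f739ebf2dd97e1f4afc9ac) b20227 (.nil))) (.nil))))) (.tok (nat_lit 41) (nat_lit 0x1780002f00005fd9a0bfdd3d7f6d52ff92d) (.hit (nat_lit 226) (nat_lit 0) (nat_lit 0x1780002f00005fccc0bfa0f97f119afebba) b20229 (.one (nat_lit 3) (nat_lit 227) (nat_lit 1) (nat_lit 0x1780002f00005fb56abf6c417eb3cafdb80) b20230 (.tok (nat_lit 6)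 (nat_lit 0x1780002f00005fd9a0bfdd3d7f6b9aff436) (.hit (nat_lit 228) (nat_lit 7) (nat_lit 0x1780002f00005fd9a0bfdd3d7f6b9aff436) b20233 (.hit (nat_lit 229) (nat_lit 15) (nat_lit 0x1780002f00005fcd86bf9a457f1442fe795) b20234 (.nil))) (.tok (nat_lit 9) (nat_lit 0x1780002f00005fd530bfd6cd7f6d52ff92d) (.hit (nat_lit 230) (nat_lit 20) (nat_lit 0x1780002f00005fd530bfd6cd7f6d52ff92d) b20231 (.hit (nat_lit 231) (nat_lit 28) (nat_lit 0x1780002f00005fca0cbfb8b97f350afec64) b20232 (.nil))) (.nil))))) (.tok (nat_lit 44) (nat_lit 0x1780002f0000600000c03a9d80000300eb6) (.hit (nat_lit 240) (nat_lit 0) (nat_lit 0x1780002f00005ff5f8c0109d7ff573002c6) b20235 (.one (nat_lit 3) (nat_lit 241) (nat_lit 1) (nat_lit 0x1780002f00005fafd4bf6a097e9d72fdd2f) b20236 (.tok (nat_lit 6) (nat_lit 0x1780002f00005fe498bfbd1d7f87c2ff5b7) (.hit (nat_lit 242) (nat_lit 7) (nat_lit 0x1780002f00005fe498bfbd1d7f87c2ff5b7)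 b20239 (.hit (nat_lit 243) (nat_lit 15) (nat_lit 0x1780002f00005fb860bf7bd97ebe8afe143) b20240 (.nil))) (.tok (nat_lit 9) (nat_lit 0x1780002f0000600000c03a9d80000300eb6) (.hit (nat_lit 244) (nat_lit 20) (nat_lit 0x1780002f0000600000c03a9d80000300eb6) b20237 (.hit (nat_lit 245) (nat_lit 28) (nat_lit 0x1780002f00005fc360bfac457ef252fe8fd) b20238 (.nil))) (.nil))))) (.tok (nat_lit 47) (nat_lit 0x1780002f00005ff0d2bff2e17fb0eaffbd4) (.hit (nat_lit 254) (nat_lit 0) (nat_lit 0x1780002f00005ff0d2bfcb057f6562ff061) b20241 (.one (nat_lit 3) (nat_lit 255) (nat_lit 1) (nat_lit 0x1780002f00005f9a8ebf36e17e488afce70) b20242 (.tok (nat_lit 6) (nat_lit 0x1780002f00005fda2cbff2e17fb0eaffbd4) (.hit (nat_lit 256) (nat_lit 7) (nat_lit 0x1780002f00005fda2cbff2e17fb0eaffbd4) b20245 (.hit (nat_lit 257) (nat_lit 15) (nat_lit 0x1780002f00005fc3d0bfae757f2082fe9d3) b20246 (.nil))) (.tok (nat_lit 9) (nat_lit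 0x1780002f00005fdffabfc4117f73c2ff372) (.hit (nat_lit 258) (nat_lit 20) (nat_lit 0x1780002f00005fdffabfc4117f73c2ff372) b20243 (.hit (nat_lit 259) (nat_lit 28) (nat_lit 0x1780002f00005fbe3abf82f97eda02fe0b7) b20244 (.nil))) (.nil))))) (.tok (nat_lit 50) (nat_lit 0x1780002f00005fb0c8bf6cc97e8d32fd7d6) (.hit (nat_lit 146) (nat_lit 0) (nat_lit 0x1780002f00005fb0c8bf6cc97e863afd7d6) b20179 (.one (nat_lit 3) (nat_lit 147) (nat_lit 1) (nat_lit 0x1780002f00005f6328bf0ced7ddd72fc171) b20180 (.tok (nat_lit 6) (nat_lit 0x1780002f00005f8f18bf64cd7e8d32fd769) (.hit (nat_lit 148) (nat_lit 7) (nat_lit 0x1780002f00005f8f18bf64cd7e8d32fd769) b20183 (.hit (nat_lit 149) (nat_lit 15) (nat_lit 0x1780002f00005f733ebf2d197e1dcafc97c) b20184 (.nil))) (.tok (nat_lit 9) (nat_lit 0x1780002f00005f76d2bf34417e2c1afcb46) (.hit (nat_lit 150) (nat_lit 20) (nat_lit 0x1780002f00005f76d2bf34417e2c1afcb46) b20181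 (.hit (nat_lit 151) (nat_lit 28) (nat_lit 0x1780002f00005f6edabf24517e0c3afc74a) b20182 (.nil))) (.nil))))) (.tok (nat_lit 53) (nat_lit 0x1780002f00005fc7dabfb3dd7f2e2afeb90) (.hit (nat_lit 152) (nat_lit 0) (nat_lit 0x1780002f00005fbf56bfabfd7f09e2feb12) b20185 (.one (nat_lit 3) (nat_lit 153) (nat_lit 1) (nat_lit 0x1780002f00005fb3b2bf7e0d7eb822fd9a2) b20186 (.tok (nat_lit 6) (nat_lit 0x1780002f00005fc7dabfb3dd7f2e2afeb90) (.hit (nat_lit 154) (nat_lit 7) (nat_lit 0x1780002f00005fc7dabfa7a17f2e2afeb90) b20189 (.hit (nat_lit 155) (nat_lit 15) (nat_lit 0x1780002f00005fc4cebfb3dd7f2b52feb2d) b20190 (.nil))) (.tok (nat_lit 9) (nat_lit 0x1780002f00005fc064bf94a17eecdafe35e) (.hit (nat_lit 156) (nat_lit 20) (nat_lit 0x1780002f00005fa702bf94a17eecdafe35e) b20187 (.hit (nat_lit 157) (nat_lit 28) (nat_lit 0x1780002f00005fc064bf864d7ee492fdef6) b20188 (.nil))) (.nil))))) (.tok (nat_lit 56)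 (nat_lit 0x1780002f00005faad4bf9c457efc22fe547) (.hit (nat_lit 164) (nat_lit 0) (nat_lit 0x1780002f00005fa556bf7bc57ebb22fdd27) b20191 (.one (nat_lit 3) (nat_lit 165) (nat_lit 1) (nat_lit 0x1780002f00005f6280bf0b9d7ddad2fc11d) b20192 (.tok (nat_lit 6) (nat_lit 0x1780002f00005f91aabf69f17e977afd8b2) (.hit (nat_lit 166) (nat_lit 7) (nat_lit 0x1780002f00005f91aabf69f17e977afd8b2) b20195 (.hit (nat_lit 167) (nat_lit 15) (nat_lit 0x1780002f00005f655cbf11557de642fc28b) b20196 (.nil))) (.tok (nat_lit 9) (nat_lit 0x1780002f00005faad4bf9c457efc22fe547) (.hit (nat_lit 168) (nat_lit 20) (nat_lit 0x1780002f00005f9914bf78c57eb522fdc67) b20193 (.hit (nat_lit 169) (nat_lit 28) (nat_lit 0x1780002f00005faad4bf9c457efc22fe547) b20194 (.nil))) (.nil))))) (.tok (nat_lit 59) (nat_lit 0x1780002f00005fbbe6bf70c97eb5f2fdc0a) (.hit (nat_lit 158) (nat_lit 0) (nat_lit 0x1780002f00005fbbe6bf70997eb5f2fdc0a)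 b20197 (.one (nat_lit 3) (nat_lit 159) (nat_lit 1) (nat_lit 0x1780002f00005f6280bf0b9d7ddad2fc11d) b20192 (.tok (nat_lit 6) (nat_lit 0x1780002f00005f9516bf70c97ea52afda68) (.hit (nat_lit 160) (nat_lit 7) (nat_lit 0x1780002f00005f8baebf5df97e7f8afd5b4) b20200 (.hit (nat_lit 161) (nat_lit 15) (nat_lit 0x1780002f00005f9516bf70c97ea52afda68) b20201 (.nil))) (.tok (nat_lit 9) (nat_lit 0x1780002f00005f8e24bf62e57e8962fd6ef) (.hit (nat_lit 162) (nat_lit 20) (nat_lit 0x1780002f00005f8e24bf62e57e8962fd6ef) b20198 (.hit (nat_lit 163) (nat_lit 28) (nat_lit 0x1780002f00005f75c2bf32217e27dafcabe) b20199 (.nil))) (.nil))))) (.nil))))))))))))))))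
noncomputable def r21_5 : Rw Blk := .tok (nat_lit 3) (nat_lit 0x1780002f00005fcdbabf6e597edd8afe5ea) (.hit (nat_lit 18) (nat_lit 0) (nat_lit 0x1780002f00005fcdbabf6e597edd8afe5ea) b20261 (.tok (nat_lit 6) (nat_lit 0x1780002f00005fb640bf589d7eca8afe2e9) (.hit (nat_lit 19) (nat_lit 7) (nat_lit 0x1780002f00005fad92bf47417ea7d2fde92) b20264 (.hit (nat_lit 20) (nat_lit 15) (nat_lit 0x1780002f00005fb640bf589d7eca8afe2e9) b20265 (.nil))) (.tok (nat_lit 9) (nat_lit 0x1780002f00005faccebf45b97ea4c2fde30) (.hit (nat_lit 21) (nat_lit 20) (nat_lit 0x1780002f00005faccebf45b97ea4c2fde30) b20262 (.hit (nat_lit 22) (nat_lit 28) (nat_lit 0x1780002f00005faa7ebf41197e9b82fdd08) b20263 (.nil))) (.nil)))) (.tok (nat_lit 6) (nat_lit 0x1780002f0000600000c000c980000300000) (.hit (nat_lit 9) (nat_lit 0) (nat_lit 0x1780002f00005fcde0bfef717fa502ff53c) b20252 (.tok (nat_lit 3) (nat_lit 0x1780002f00005fe510bfca497f9652ff56c)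 (.hit (nat_lit 10) (nat_lit 1) (nat_lit 0x1780002f00005fc2f2bf862d7ef442fe455) b20253 (.one (nat_lit 67) (nat_lit 11) (nat_lit 2) (nat_lit 0x1780002f00005fe510bfca497f9652ff56c) b20254 (.nil))) (.tok (nat_lit 6) (nat_lit 0x1780002f0000600000c000c980000300000) (.hit (nat_lit 12) (nat_lit 7) (nat_lit 0x1780002f00005fb600bf909d7ec702fdf16) b20255 (.hit (nat_lit 16) (nat_lit 15) (nat_lit 0x1780002f00005fc32cbf85cd7f07bafe70a) b20259 (.tok (nat_lit 55) (nat_lit 0x1780002f0000600000c000c980000300000) (.hit (nat_lit 13) (nat_lit 8) (nat_lit 0x1780002f00005ffeb0bfc7897fb182ff604) b20256 (.hit (nat_lit 17) (nat_lit 16) (nat_lit 0x1780002f00005ff946bff27d80000300000) b20260 (.tok (nat_lit 6) (nat_lit 0x1780002f0000600000c000c97ffb9affe7f) (.hit (nat_lit 14) (nat_lit 9) (nat_lit 0x1780002f00005fee96bfc5a97f7262ff722) b20257 (.one (nat_lit 55) (nat_lit 15) (nat_lit 10) (nat_lit 0x1780002f0000600000c000c97ffb9affe7f)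 b20258 (.nil))) (.nil)))) (.nil)))) (.nil)))) (.tok (nat_lit 9) (nat_lit 0x1780002f00005fee24bfe2a17f67faff78b) (.hit (nat_lit 0) (nat_lit 0) (nat_lit 0x1780002f00005fe2a6bfe2a17f67faff78b) b20247 (.tok (nat_lit 3) (nat_lit 0x1780002f00005fee24bfc4517f3282fef6e) (.hit (nat_lit 1) (nat_lit 1) (nat_lit 0x1780002f00005fb464bf84b57eafbafe11b) b20248 (.one (nat_lit 55) (nat_lit 2) (nat_lit 3) (nat_lit 0x1780002f00005fee24bfc4517f3282fef6e) b20249 (.nil))) (.tok (nat_lit 9) (nat_lit 0x1780002f00005fe78cbfac557f22dafea28) (.hit (nat_lit 3) (nat_lit 20) (nat_lit 0x1780002f00005fe78cbfac557f22dafe769) b20250 (.hit (nat_lit 7) (nat_lit 28) (nat_lit 0x1780002f00005fc4bebf99957f0482fea28) b20251 (.nil))) (.nil)))) (.nil)))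
noncomputable def r21_6 : Rw Blk := .tok (nat_lit 3) (nat_lit 0x1780002f00005fa6e8bf61797f049afd3cc) (.hit (nat_lit 14) (nat_lit 0) (nat_lit 0x1780002f00005fa6e8bf61797f049afd3cc) b20280 (.tok (nat_lit 6) (nat_lit 0x1780002f00005f89a6bf06357e7842fb823) (.hit (nat_lit 15) (nat_lit 7) (nat_lit 0x1780002f00005f89a6bf06357e7842fb823) b20283 (.hit (nat_lit 16) (nat_lit 15) (nat_lit 0x1780002f00005f82ccbef8817e5cdafb4b6) b20284 (.nil))) (.tok (nat_lit 9) (nat_lit 0x1780002f00005f7538bedd597e268afadec) (.hit (nat_lit 17) (nat_lit 20) (nat_lit 0x1780002f00005f6a5abec79d7dfb12fa87d) b20281 (.hit (nat_lit 18) (nat_lit 28) (nat_lit 0x1780002f00005f7538bedd597e268afadec) b20282 (.nil))) (.nil)))) (.tok (nat_lit 6) (nat_lit 0x1780002f0000600000c0000180000300000) (.hit (nat_lit 9) (nat_lit 0) (nat_lit 0x1780002f00005fcf66bf8a1d7f38f2fe217) b20275 (.tok (nat_lit 3) (nat_lit 0x1780002f0000600000c0000180000300000)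 (.hit (nat_lit 10) (nat_lit 1) (nat_lit 0x1780002f00005fcfaabfcb897fa832fec33) b20276 (.one (nat_lit 67) (nat_lit 11) (nat_lit 2) (nat_lit 0x1780002f0000600000c0000180000300000) b20277 (.nil))) (.tok (nat_lit 6) (nat_lit 0x1780002f00005fe4f4bfbe457fd532feacf) (.hit (nat_lit 12) (nat_lit 7) (nat_lit 0x1780002f00005fe4f4bfbe457fd532feacf) b20278 (.hit (nat_lit 13) (nat_lit 15) (nat_lit 0x1780002f00005fbec0bfb4797fa64afe8d7) b20279 (.nil))) (.nil)))) (.tok (nat_lit 9) (nat_lit 0x1780002f00005fc28ebf75017f55dafdc78) (.hit (nat_lit 0) (nat_lit 0) (nat_lit 0x1780002f00005fc28ebf5c097f3022fdc78) b20266 (.tok (nat_lit 3) (nat_lit 0x1780002f00005fab16bf49157efe02fc8db) (.hit (nat_lit 1) (nat_lit 1) (nat_lit 0x1780002f00005f85ccbefe817e68dafb636) b20267 (.one (nat_lit 55) (nat_lit 2) (nat_lit 3) (nat_lit 0x1780002f00005fab16bf49157efe02fc8db) b20268 (.nil))) (.tok (nat_lit 9) (nat_lit 0x1780002f00005fc10cbf75017f55dafd3d6)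 (.hit (nat_lit 3) (nat_lit 20) (nat_lit 0x1780002f00005f7ce0beeca97e452afb1c0) b20269 (.hit (nat_lit 7) (nat_lit 28) (nat_lit 0x1780002f00005f8798bf02197e700afb71c) b20273 (.tok (nat_lit 67) (nat_lit 0x1780002f00005fc10cbf75017f55dafd3d6) (.hit (nat_lit 4) (nat_lit 21) (nat_lit 0x1780002f00005faba4bf4a317f003afc922) b20270 (.hit (nat_lit 8) (nat_lit 29) (nat_lit 0x1780002f00005fc10cbf75017f55dafd3d6) b20274 (.tok (nat_lit 9) (nat_lit 0x1780002f00005fc012bf730d7f51f2fd359) (.hit (nat_lit 5) (nat_lit 22) (nat_lit 0x1780002f00005fa10abf34fd7ed5d2fc3d5) b20271 (.one (nat_lit 67) (nat_lit 6) (nat_lit 23) (nat_lit 0x1780002f00005fc012bf730d7f51f2fd359) b20272 (.nil))) (.nil)))) (.nil)))) (.nil)))) (.nil)))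
noncomputable def r21_7 : Rw Blk := .tok (nat_lit 6) (nat_lit 0x2f00005e0000bfeebd7e4bb2ffd3560038cbf534d7fd3d2ffaaa) (.hit (nat_lit 0) (nat_lit 0) (nat_lit 0x2f00005e0000bfeebd7e4bb2ffd3560038cbf534d7fd3d2ffaaa) b20285 (.tok (nat_lit 3) (nat_lit 0x2f00005e0000bf44ed7d69dafdbea5fa380becd197e9e82fdb7f) (.hit (nat_lit 1) (nat_lit 1) (nat_lit 0x2f00005e0000bed11d7c823afbef65f6998be59497db6e2fbe8b) b20286 (.one (nat_lit 14) (nat_lit 2) (nat_lit 4) (nat_lit 0x2f00005e0000bf35317d4a62fd7fb5f9ba2bebd5d7e7f0afd790) b20287 (.one (nat_lit 56) (nat_lit 3) (nat_lit 6) (nat_lit 0x2f00005e0000bf44ed7d69dafdbea5fa380becd197e9e82fdb7f) b20288 (.nil)))) (.nil))) (.tok (nat_lit 9) (nat_lit 0x2f00005e0000c0a54d810dab0383a6079bec0ae6581c7d303897) (.hit (nat_lit 10) (nat_lit 0) (nat_lit 0x2f00005e0000c01f617efec300c55601488bfaf85802d1b00ab1) b20289 (.tok (nat_lit 3) (nat_lit 0x2f00005e0000bfc3d97e54faffd175ff7d4bf51e97f9bdaff578)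 (.hit (nat_lit 11) (nat_lit 1) (nat_lit 0x2f00005e0000bf771d7dd95afeeef5fd660bf1f117f085afe14e) b20290 (.one (nat_lit 14) (nat_lit 12) (nat_lit 4) (nat_lit 0x2f00005e0000bfc3d97e3492ffd175ff7d4bf51e97f5d6afef73) b20291 (.one (nat_lit 68) (nat_lit 13) (nat_lit 5) (nat_lit 0x2f00005e0000bfb8157e54faff7555fef7abf4b357f9bdaff578) b20292 (.nil)))) (.tok (nat_lit 40) (nat_lit 0x2f00005e0000bfaae57df012ff4bb5fee9ebf2d897f559afee57) (.hit (nat_lit 14) (nat_lit 33) (nat_lit 0x2f00005e0000bfaae57dd832ff13a5fdf68bf1e2d7f2e52febcf) b20293 (.hit (nat_lit 15) (nat_lit 34) (nat_lit 0x2f00005e0000bfa4857df012ff4bb5fee9ebf2d897f559afee57) b20294 (.nil))) (.tok (nat_lit 43) (nat_lit 0x2f00005e0000bff1257ebd8300bdc600786bf9dc180233b007f9) (.hit (nat_lit 16) (nat_lit 35) (nat_lit 0x2f00005e0000bf69d17db3a2fe5235fb5f2bef1fd7ee84afe4b8) b20297 (.hit (nat_lit 17) (nat_lit 36) (nat_lit 0x2f00005e0000bff1257ebd8300bdc600786bf9dc180233b007f9)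 b20298 (.nil))) (.tok (nat_lit 46) (nat_lit 0x2f00005e0000c0a54d810dab0383a6079bec0ae6581c7d303897) (.hit (nat_lit 18) (nat_lit 37) (nat_lit 0x2f00005e0000c0a54d810dab0383a6079bec0ae6581c7d303897) b20295 (.hit (nat_lit 19) (nat_lit 38) (nat_lit 0x2f00005e0000bf67057ecf22ffe536004dabfa1bd7fa29aff4f7) b20296 (.nil))) (.nil)))))) (.nil))
noncomputable def r21_8 : Rw Blk := .tok (nat_lit 6) (nat_lit 0x2f00005e0000c000017fc3a2ff566) (.hit (nat_lit 0) (nat_lit 0) (nat_lit 0x2f00005e0000bfe4117fc3a2ff2dc) b20299 (.tok (nat_lit 3) (nat_lit 0x2f00005e0000c000017fc022ff566) (.hit (nat_lit 1) (nat_lit 1) (nat_lit 0x2f00005e0000bf44a57e8ce2fcb44) b20300 (.one (nat_lit 14) (nat_lit 2) (nat_lit 4) (nat_lit 0x2f00005e0000c000017fc022ff566) b20301 (.one (nat_lit 56) (nat_lit 3) (nat_lit 6) (nat_lit 0x2f00005e0000bfa8557f6edafe9b5) b20302 (.nil)))) (.nil))) (.tok (nat_lit 9) (nat_lit 0x2f00005e0000bfe3b580000300000)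 (.hit (nat_lit 10) (nat_lit 0) (nat_lit 0x2f00005e0000bf86057f9142feadb) b20303 (.tok (nat_lit 3) (nat_lit 0x2f00005e0000bfab057f3deafe397) (.hit (nat_lit 11) (nat_lit 1) (nat_lit 0x2f00005e0000bf2ac17e47c2fc4d2) b20304 (.one (nat_lit 14) (nat_lit 12) (nat_lit 4) (nat_lit 0x2f00005e0000bfab057f15b2fdcb4) b20305 (.one (nat_lit 68) (nat_lit 13) (nat_lit 5) (nat_lit 0x2f00005e0000bf82797f3deafe397) b20306 (.nil)))) (.tok (nat_lit 40) (nat_lit 0x2f00005e0000bf8b497f5662fe6a6) (.hit (nat_lit 14) (nat_lit 33) (nat_lit 0x2f00005e0000bf8b497f5662fe6a6) b20307 (.hit (nat_lit 15) (nat_lit 34) (nat_lit 0x2f00005e0000bf73357f09eafdd17) b20308 (.nil))) (.tok (nat_lit 43) (nat_lit 0x2f00005e0000bfd2017fc622ff2c2) (.hit (nat_lit 16) (nat_lit 35) (nat_lit 0x2f00005e0000bf42f57f15cafde93) b20311 (.hit (nat_lit 17) (nat_lit 36) (nat_lit 0x2f00005e0000bfd2017fc622ff2c2) b20312 (.nil))) (.tok (nat_lit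 46) (nat_lit 0x2f00005e0000bfe3b580000300000) (.hit (nat_lit 18) (nat_lit 37) (nat_lit 0x2f00005e0000bfe3b580000300000) b20309 (.hit (nat_lit 19) (nat_lit 38) (nat_lit 0x2f00005e0000bf606d7f431afe43d) b20310 (.nil))) (.nil)))))) (.nil))
noncomputable def r21_9 : Rw Blk := .tok (nat_lit 3) (nat_lit 0xc041d180650b0171f5ff480c037e580375b007775fd66cc02585806d7b00ea760130ec042dd7f587300230601824c026558051ab00729600c3cc0838180d893015cf) (.hit (nat_lit 15) (nat_lit 0) (nat_lit 0xbf91657f63daff6d75fafd2bf85497f1b92ff8255fc0e2bfd9e57fbf7affc415fed34c001ad7f0c92ff6505fe528bfc7dd7f8b72ff8275ff6ecbfbd317f6ccaff702) b20320 (.tok (nat_lit 6) (nat_lit 0xbf96157f6e02ffbea5fb22abf75c57f0cd2fe7bc5fa356bf987d7ee742fe1be5fb916bfb7457e79dafe5fa5fd062bfab697f33dafe4b45fd1f8bfe5017fdf2aff245) (.hit (nat_lit 16) (nat_lit 7) (nat_lit 0xbf281d7ed552fdb735f7b2ebf07cd7e30e2fc4b35f6c5abf0f757e0b52fc6405f821abf43957d9deafc3b55f968abf27917e239afc4b15f9482bf7f697ecefafd5fb)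 b20321 (.hit (nat_lit 21) (nat_lit 15) (nat_lit 0xbeba397e6edafcb845f443cbe99e97d551afd17d5f71b2bf3e197d2f8afaac75f4b28bf43217dcfe2fcf615fa24abf42a97e7f1afd17a5fa466bf16b97dfdaafcc2d) b20326 (.tok (nat_lit 14) (nat_lit 0xbf66f57f6e02ffbea5f9a9abf46a57eae92fe7bc5f98d4bf987d7e8902fd5f65fa186bfb7457e688afe5fa5fd062bfab697f33dafe4b45fd1f8bfe5017fdf2aff245) (.hit (nat_lit 17) (nat_lit 11) (nat_lit 0xbf5d3d7f25b2fee3a5f95bebf3ced7e9b22fdc165f86eabf6d017e7592fd3885f9caabfa1217e082afdb185fc550bf687d7edeb2fdc145fc348bfc5997f6f52fe6aa) b20322 (.hit (nat_lit 22) (nat_lit 17) (nat_lit 0xbf5bb97f4ee2fe80e5f94fcbf3b697e981afe7bc5f98d4bf987d7e728afd3275f9be8bf9c757e688afe5fa5fcf2abfab697f33dafe4b45fd1f8bf76757ec0a2fe9c9) b20327 (.one (nat_lit 9) (nat_lit 18) (nat_lit 12) (nat_lit 0xbf66f57f6e02ffbea5f9a9abf46a57eae92fe19f5f8f44bf83257e8902fd5f65fa186bfb7457e3132fe0a15fd062bf7ea17f0afafe19d5fce5abfe5017fdf2aff245)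 b20323 (.nil)))) (.tok (nat_lit 56) (nat_lit 0xbf96157f285affbe45fb22abf75c57f0cd2fddcd5fa356bf73ed7ee742fe1be5fb916bfa4597e79dafdd1c5fc6ecbf95897eea32fddf85fc4e4bfdb057f9d9afeb71) (.hit (nat_lit 19) (nat_lit 13) (nat_lit 0xbf495d7f0daafe24c5f8bcebf290d7e7362fd15d5f7cfabf421d7e4dd2fce905f92babf763d7de06afd05f5fafdebf48d17e88eafd15b5fadd6bf80417eb792fd3b8) b20324 (.hit (nat_lit 24) (nat_lit 19) (nat_lit 0xbf3d6d7edd5afdb6c5f85d6bf1d1d7e5b82fd34a5f7e24bf54017e35f2fcb945f8cc2bf50a17dc88afd4d35facf2bf4d097eafcafd02c5faf2ebf62d57eb02afda28) b20328 (.one (nat_lit 6) (nat_lit 20) (nat_lit 14) (nat_lit 0xbf96157f285affbe45fb22abf75c57f0cd2fddcd5fa356bf73ed7ee742fe1be5fb916bfa4597e79dafdd1c5fc6ecbf95897eea32fddf85fc4e4bfdb057f9d9afeb71) b20325 (.nil)))) (.nil))))) (.tok (nat_lit 52) (nat_lit 0xbf7d457f9872ff38a5fa5c2bf5cf57edb32ff33a5fb108bfb6017eb5a2fdb8a5facaebfbe857e99bafed4e5fe470bfc9017f6fbafed745fe0dabfe2097f853afefdb)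 (.hit (nat_lit 25) (nat_lit 39) (nat_lit 0xbf754d7ef352fe6195fa1c6bf54fd7ecb42fe77a5fb108bf97257ea5b2fd98c5fa8b2bf8c617e7f2afe19f5fd006bfa07d7f1122fe45e5fd0b8bfb3d57f656afee24) b20329 (.hit (nat_lit 26) (nat_lit 40) (nat_lit 0xbf7d457f9872ff38a5fa5c2bf5cf57edb32ff33a5fa9ecbfb6017eb5a2fdb8a5facaebfbe857e99bafed4e5fe470bfc9017f6fbafed745fe0dabfe2097f853afefdb) b20330 (.nil))) (.tok (nat_lit 55) (nat_lit 0xc041d180650b0171f5ff480c037e580375b007775fd66cc02585806d7b00ea760130ec042dd7f587300230601824c026558051ab00729600c3cc0838180d893015cf) (.hit (nat_lit 27) (nat_lit 41) (nat_lit 0xc041d180650b016d95ff480c037e580375b007775fd66cc02585806d7b00ea760130ec042dd7f587300230601824c026558051ab00729600c3cc060d580a1eb01233) b20331 (.tok (nat_lit 3) (nat_lit 0xbfb3d57fe02300bf35fc10abf93857f4852ff22a5fb236bfc5517f22c2fe92e5fc7f6bff9717eb58aff12c5ff178bfc0cd7f8f52ff2285fef70c017b580155affe75) (.hit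 (nat_lit 33) (nat_lit 47) (nat_lit 0xbf9df57f799b006265fb61abf7da57f1c92febcf5fa746bfabe57ef702fe3b65fbd06bfe0057e899afead15fe4c2bfa7617f5c7afebcd5fe2bac0000d7fbb4aff51e) b20337 (.one (nat_lit 67) (nat_lit 34) (nat_lit 48) (nat_lit 0xbfb3d57fe02300bf35fc10abf93857f4852ff22a5fb236bfc5517f22c2fe92e5fc7f6bff9717eb58aff12c5ff178bfc0cd7f8f52ff2285fef70c017b580155affe75) b20338 (.nil))) (.tok (nat_lit 6) (nat_lit 0xbf9a6d7fc81b0171f5fb456bf7a1d7f1582fe7015fa582bf98ad7eeff2fe2d45fbb42bfcccd7e828afe6035fdb26bf99e17f360afe6ff5fd91ec0838180d893015cf) (.hit (nat_lit 28) (nat_lit 42) (nat_lit 0xbf83397f352aff88e5fa8bcbf62e97ee71afe4665f99e8bf8e417ec18afdd075fafa8bfc2617e5422fe3685fd5f0bf89bd7f2132fe4645fd3e8c00725802af3001c0) b20332 (.hit (nat_lit 31) (nat_lit 45) (nat_lit 0xbf95d97f9552ffdd05fb20cbf75897f0c5afdfaf5fa338bf7b657ee6cafe1af5fb8f8bfaf857e7962fdeb15fcc82bf954d7efb7afdfad5fca7ac006597fd492ff7f0)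 b20335 (.tok (nat_lit 55) (nat_lit 0xbf9a6d7fc81b0171f5fb456bf7a1d7f1582fe7015fa582bf98ad7eeff2fe2d45fbb42bfcccd7e828afe6035fdb26bf99e17f360afe6ff5fd91ec0838180d893015cf) (.hit (nat_lit 29) (nat_lit 43) (nat_lit 0xbf900d7f53db000ed5faf26bf6fbd7f00c2fe7015fa052bf98ad7edb32fe03c5fb612bfcccd7e6dcafe6035fdb26bf94297f360afe6ff5fd91ec037b580880300996) b20333 (.hit (nat_lit 32) (nat_lit 46) (nat_lit 0xbf9a6d7fc81b0171f5fb456bf7a1d7f1582fe3535fa582bf89f57eeff2fe2d45fbb42bfbe157e828afe2555fd3cabf99e17f189afe3515fd1c2c0838180d893015cf) b20336 (.one (nat_lit 6) (nat_lit 30) (nat_lit 44) (nat_lit 0xbf745d7f0b5affc865fa14ebf540d7ec962fdf2c5f927abf79597ea3d2fd9505fa83abfad797e366afde2e5fcb7cbf74d57ef762fdf2a5fc974c048f9807e3b00a73) b20334 (.nil)))) (.nil)))) (.nil)))) (.one (nat_lit 58) (nat_lit 35) (nat_lit 49) (nat_lit 0xbf8a697fb042ff4895fac54bf6a197ef57affbee5fbadabfeba57ecfeafded35fb340bfddd57ee6c2ff7bd5fef2abff43d7fd92aff6d65ff8debfec857fcaeaffd04)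 b20339 (.nil)))))) (.tok (nat_lit 9) (nat_lit 0xc054c580ed7b021666011cec082b980e70300e47602f12c07d2180a5ab012d6602a10c04e1980673b0170e602986c04d7180a8ab015676026fac092b580f80b019a1) (.hit (nat_lit 0) (nat_lit 0) (nat_lit 0xc0094580ed7b019056011cebff689803bd300e47600824c03fc980a5ab0125b602a10c04c5d7fea9301495602986c04d7180a8ab015676026fac00ce17fe9f301022) b20313 (.tok (nat_lit 9) (nat_lit 0xc054c580c83b021665fffb4c082b980e70300d02602f12c07d21806d9b012d6601adac04e1980673b0170e601094c047cd80645b0044d600722c092b580f80b019a1) (.hit (nat_lit 1) (nat_lit 20) (nat_lit 0xbfe84d7edefafe3855fd7fcc014d57fffb2ff07d5fc278bfc4f17f88eaff1fa5fe36cbfb74d7ed8b2ff17c5fe0a8bfbe517f8dcafeeb55fdc72bf83ed7ed8eaff260) b20314 (.hit (nat_lit 4) (nat_lit 28) (nat_lit 0xbf50257eefb2fe0875f9b36bf6c617ed532fe7235f9eb0bf97a17f3d02fea775fcc58bf9a7d7e83fafe5bd5fce66bfa4857f31c2fe6b35fcdcebf53ad7e7822fe40c) b20317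 (.tok (nat_lit 14) (nat_lit 0xc054c5805e0b021665fffb4c082b980e70300d02602f12c07d21806d9b012d6601adac04e1980673b0170e601094c0282d80645b0044d600722c092b580f80b019a1) (.hit (nat_lit 2) (nat_lit 24) (nat_lit 0xc054c5802b2300d7b5fffb4c082b980e703003fe601696c04651802afb00709600e00c02ce980673b00de160082ec00ab98030d3001c65ffee4bfd8217f924b00dfb) b20315 (.hit (nat_lit 5) (nat_lit 30) (nat_lit 0xbf7df97fdb62fed965fb554bf8ad17f358b000255fcafcbff9c18001db0019c5ffd7abffdf97f4edaffe4c5fff38c00c717fff1b000106000cebf98357f00b2ffc0c) b20318 (.one (nat_lit 6) (nat_lit 3) (nat_lit 25) (nat_lit 0xc031b1805e0b021665ff378c035ad80625300d02602f12c07d21806d9b012d6601adac04e198062e30170e601094c0282d80645b0044d600722c092b580f80b019a1) b20316 (.nil)))) (.one (nat_lit 56) (nat_lit 6) (nat_lit 31) (nat_lit 0xbfc1b180c83b017645fcb6cbfde717fba3b001625fd106c01aed800d5b00395600de4bfffcd7f4d930068260022cc047cd8043c2ffaeb5ff206bff4457fbacb004a7)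 b20319 (.nil))))) (.nil))) (.nil))
noncomputable def r21_10 : Rw Blk := .tok (nat_lit 9) (nat_lit 0xbc000181fc33049b960630ec0a77181b3ab04ec7609522c1321181ebdb04024607b94c12919809e1304bd2) (.hit (nat_lit 18) (nat_lit 0) (nat_lit 0xbc00017fe5f3002365fffd8bfa6b97fe792ffe175ffe00c02c457fe62affb1e5ffe68bff6a97e98db001ea) b20340 (.tok (nat_lit 14) (nat_lit 0xbc00018105fb01be4604078c0613181432300e3860389cc085358114d301add60404cc0928580513301f90) (.hit (nat_lit 19) (nat_lit 61) (nat_lit 0xbc000180339301be460335abfedfd80f272ffcd7603218c06c19806543009c8601c12c05f2d7f012301790) b20341 (.one (nat_lit 3) (nat_lit 20) (nat_lit 62) (nat_lit 0xbc00018006eb0076360101cbfbae58034e2ff3f26013acc032557fbabaff6315ff210c02a317e9b8b0055b) b20342 (.tok (nat_lit 6) (nat_lit 0xbc00018105fb01b13604078c0613181432300e3860389cc085358114d301add60404cc0928580513301f90) (.hit (nat_lit 23) (nat_lit 65) (nat_lit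 0xbc00018105fb01b13604078c0613181432300e3860389cc085358114d301add60404cc0928580513301f90) b20343 (.hit (nat_lit 24) (nat_lit 66) (nat_lit 0xbc00017fbd9aff5da6005c8bfa8d580237aff2ed600ab4c011018020eb003ea60082ac00bd17eb7f300356) b20344 (.nil))) (.tok (nat_lit 9) (nat_lit 0xbc00017f9cc2ff2c05ffb0ebf70557fefbafec5860099ebff4317fe6aaffc585ffadcbffbcd7e47faffaad) (.hit (nat_lit 21) (nat_lit 63) (nat_lit 0xbc00017f3132fe3b55fd8a6bf2f517f4b0afe4985fdd90bfb17d7fa91aff0df5fdad6bfc0a17d78baff216) b20345 (.hit (nat_lit 22) (nat_lit 64) (nat_lit 0xbc00017f9cc2ff2c05ffb0ebf70557fefbafec5860099ebff4317fe6aaffc585ffadcbffbcd7e47faffaad) b20346 (.nil))) (.nil))))) (.one (nat_lit 17) (nat_lit 25) (nat_lit 67) (nat_lit 0xbc00017fd323000926003c0bfa8457fac9aff3de6005dcbfe3c57f4de2fe6c35fd2fcc00ebd7e7e7aff9dc) b20347 (.tok (nat_lit 20) (nat_lit 0xbc00017f5aeafeac55ff528bf4b1d7f6c3afea355ff492bfb2457f9b42fef245fd798bfd29d7e0712ff05b)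 (.hit (nat_lit 26) (nat_lit 68) (nat_lit 0xbc00017f235afe1fa5fd530bf28657f3d32fe2dd5fda1abfaa917f9b42fef245fd760bfb9b57d6ae2ff05b) b20350 (.hit (nat_lit 27) (nat_lit 69) (nat_lit 0xbc00017f5aeafeac55ff528bf4b1d7f6c3afea355ff492bfb2457f50a2fee8c5fd798bfd29d7e0712fecb4) b20351 (.nil))) (.tok (nat_lit 23) (nat_lit 0xbc000181fc33049b960630ec0a77181b3ab04ec7609522c1321181ebdb04024607b94c12919809e1304bd2) (.hit (nat_lit 28) (nat_lit 70) (nat_lit 0xbc000181fc33049b960630ec0a77181b3ab04ec7609522c1321181ebdb04024607b94c12919809e1304bd2) b20348 (.hit (nat_lit 29) (nat_lit 71) (nat_lit 0xbc00017f230afe56e5fdb46bf43dd7f69b2fe2675fda38bfaf997f7732fef125fdbdebfb3b97dc792fea7b) b20349 (.nil))) (.one (nat_lit 38) (nat_lit 34) (nat_lit 76) (nat_lit 0xbc00017f4fcafe7a15feef4bf61a97f8ccafefcf5fe7babfc0e17f9d3aff4b45fe4e6bfd85d7e0212feece) b20352 (.tok (nat_lit 41) (nat_lit 0xbc00017fae1afff15601e30bfa85d804c8affd6f6015f6c020cd7f796aff6a75fe65ec015557eab1b0073c)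 (.hit (nat_lit 35) (nat_lit 77) (nat_lit 0xbc00017ee7b2fe2085fde8abf3cbd7f41d2fddd35fdc08bfaab57f16aafe3475fcc72bfa19d7dc052fe7db) b20353 (.hit (nat_lit 36) (nat_lit 78) (nat_lit 0xbc00017fae1afff15601e30bfa85d804c8affd6f6015f6c020cd7f796aff6a75fe65ec015557eab1b0073c) b20354 (.nil))) (.tok (nat_lit 44) (nat_lit 0xbc00017f71b2ff0c45fed6abf81997f8b0afee3e5ff968bfbf617f56c2fea615fd5b2bfed097e7022ff51e) (.hit (nat_lit 37) (nat_lit 79) (nat_lit 0xbc00017e8c62fcf1b5faf72bedce97ea63afcffe5fb45cbf5f157f044afdc455fb1a2bf6e397cd3eafdd7c) b20357 (.hit (nat_lit 38) (nat_lit 80) (nat_lit 0xbc00017f71b2ff0c45fed6abf81997f8b0afee3e5ff968bfbf617f56c2fea615fd5b2bfed097e7022ff51e) b20358 (.nil))) (.tok (nat_lit 47) (nat_lit 0xbc00017f2b12ffcdb5ffe5cbfbd057fad4b006975ff99abfddf97f9132ff25c5fe37ebff2057ed32affa16) (.hit (nat_lit 39) (nat_lit 81) (nat_lit 0xbc00017f2b12ffcdb5ffe5cbfbd057fad4b006975ff99abfddf97f9132ff25c5fe37ebff2057ed32affa16)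 b20355 (.hit (nat_lit 40) (nat_lit 82) (nat_lit 0xbc00017ee932fe8645ff26ebf67717fa9c2ff0b45fec0ebfcf757f83daff1775fde22bfdfc57e3e92fefd5) b20356 (.nil))) (.one (nat_lit 50) (nat_lit 41) (nat_lit 83) (nat_lit 0xbc00017fad82ff1a55ffba6bf67bd7fb79aff5fa5ff79ebfd6457fc8d2ffa3f5fefacbfe66d7e4a8aff426) b20359 (.tok (nat_lit 53) (nat_lit 0xbc00017fc2daff85c6001d0bf85757fcf3aff3785fff72bfe6697fa272ff5845fefbcc00cfd7e4162ff992) (.hit (nat_lit 42) (nat_lit 84) (nat_lit 0xbc00017f61c2ff2935fe9d6bf57397fc1cafe5585fe87ebfdda17fa272ff4575fefbcbfdc817ddddaff2bd) b20360 (.hit (nat_lit 43) (nat_lit 85) (nat_lit 0xbc00017fc2daff85c6001d0bf85757fcf3aff3785fff72bfe6697f8ca2ff5845fea06c00cfd7e4162ff992) b20361 (.nil))) (.tok (nat_lit 56) (nat_lit 0xbc000180831aff5295ff776bf5241800f1afeba35ff78ec002c57ff06afff30600b46bfdccd7dec12ff964) (.hit (nat_lit 44) (nat_lit 86) (nat_lit 0xbc000180831aff5295ff776bf5241800f1afeba35ff78ec002c57ff06afff30600b46bfdccd7dec12ff964)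 b20362 (.one (nat_lit 3) (nat_lit 48) (nat_lit 90) (nat_lit 0xbc00017f2922fe2b35fd6a2bf2b497f42fafe3965fdb8cbfad757fa10afefdd5fd8d2bfbc997d70aaff114) b20366 (.tok (nat_lit 6) (nat_lit 0xbc00017f03e2fde0b5fcd52bf18a97f1dbafdeee5fd23cbf9ad57f7bcafeb355fcf82bfa9f97d4b6afec6c) (.hit (nat_lit 46) (nat_lit 88) (nat_lit 0xbc00017f03e2fde0b5fcd52bf18a97f1dbafdeee5fd23cbf9ad57f7bcafeb355fcf82bfa9f97d4b6afec6c) b20364 (.hit (nat_lit 47) (nat_lit 89) (nat_lit 0xbc00017ecbb2fd7055fbf46befc917ee58afd7e85fc430bf7ebd7f439afe42f5fc176bf8de17d133afe566) b20365 (.nil))) (.one (nat_lit 9) (nat_lit 45) (nat_lit 87) (nat_lit 0xbc00017f1ff2fe18d5fd456bf26b17f39cafe2705fd940bfa8dd7f97dafeeb75fd686bfb8017d677afefee) b20363 (.nil))))) (.one (nat_lit 59) (nat_lit 49) (nat_lit 91) (nat_lit 0xbc00017f453afe7735fde08bf3d997f1c82fe6cf5fd322bf8bd97ee792fdf885fbe5ebfa4697dd6eafe56f) b20367 (.nil))))))))))))))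 (.nil)
noncomputable def r21_11 : Rw Blk := .tok (nat_lit 9) (nat_lit 0x5e0000bc000181ba2b04068) (.hit (nat_lit 18) (nat_lit 0) (nat_lit 0x5e0000bc00017f179aff802) b20368 (.tok (nat_lit 14) (nat_lit 0x5e0000bc000181ba2b04068) (.hit (nat_lit 19) (nat_lit 61) (nat_lit 0x5e0000bc0001803f9b00dbe) b20369 (.one (nat_lit 3) (nat_lit 20) (nat_lit 62) (nat_lit 0x5e0000bc00017fae9aff83a) b20370 (.tok (nat_lit 6) (nat_lit 0x5e0000bc000181ba2b04068) (.hit (nat_lit 23) (nat_lit 65) (nat_lit 0x5e0000bc000181ba2b04068) b20371 (.hit (nat_lit 24) (nat_lit 66) (nat_lit 0x5e0000bc00017fb82b002f9) b20372 (.nil))) (.tok (nat_lit 9) (nat_lit 0x5e0000bc00017f58f2ffa79) (.hit (nat_lit 21) (nat_lit 63) (nat_lit 0x5e0000bc00017f2f72ffa79) b20373 (.hit (nat_lit 22) (nat_lit 64) (nat_lit 0x5e0000bc00017f58f2ff3e8) b20374 (.nil))) (.nil))))) (.one (nat_lit 17) (nat_lit 25) (nat_lit 67) (nat_lit 0x5e0000bc00017f6c12fef86)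 b20375 (.tok (nat_lit 20) (nat_lit 0x5e0000bc00017f555aff9d2) (.hit (nat_lit 26) (nat_lit 68) (nat_lit 0x5e0000bc00017ed182feebb) b20378 (.hit (nat_lit 27) (nat_lit 69) (nat_lit 0x5e0000bc00017f555aff9d2) b20379 (.nil))) (.tok (nat_lit 23) (nat_lit 0x5e0000bc000180bddb01ebe) (.hit (nat_lit 28) (nat_lit 70) (nat_lit 0x5e0000bc000180bddb01ebe) b20376 (.hit (nat_lit 29) (nat_lit 71) (nat_lit 0x5e0000bc00017f494afec80) b20377 (.nil))) (.one (nat_lit 38) (nat_lit 34) (nat_lit 76) (nat_lit 0x5e0000bc00017f4a82ff133) b20380 (.tok (nat_lit 41) (nat_lit 0x5e0000bc00017f38daff3d9) (.hit (nat_lit 35) (nat_lit 77) (nat_lit 0x5e0000bc00017ee65afeb47) b20381 (.hit (nat_lit 36) (nat_lit 78) (nat_lit 0x5e0000bc00017f38daff3d9) b20382 (.nil))) (.tok (nat_lit 44) (nat_lit 0x5e0000bc00017f3862fedf4) (.hit (nat_lit 37) (nat_lit 79) (nat_lit 0x5e0000bc00017e04aafd520) b20385 (.hit (nat_lit 38) (nat_lit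 80) (nat_lit 0x5e0000bc00017f3862fedf4) b20386 (.nil))) (.tok (nat_lit 47) (nat_lit 0x5e0000bc00017effdafec46) (.hit (nat_lit 39) (nat_lit 81) (nat_lit 0x5e0000bc00017edfaafe839) b20383 (.hit (nat_lit 40) (nat_lit 82) (nat_lit 0x5e0000bc00017effdafec46) b20384 (.nil))) (.one (nat_lit 50) (nat_lit 41) (nat_lit 83) (nat_lit 0x5e0000bc00017f828afedf2) b20387 (.tok (nat_lit 53) (nat_lit 0x5e0000bc00017f5d0aff545) (.hit (nat_lit 42) (nat_lit 84) (nat_lit 0x5e0000bc00017f1c9aff545) b20388 (.hit (nat_lit 43) (nat_lit 85) (nat_lit 0x5e0000bc00017f5d0aff3a9) b20389 (.nil))) (.tok (nat_lit 56) (nat_lit 0x5e0000bc00017fffbb005b0) (.hit (nat_lit 44) (nat_lit 86) (nat_lit 0x5e0000bc00017fffbb005b0) b20390 (.one (nat_lit 3) (nat_lit 48) (nat_lit 90) (nat_lit 0x5e0000bc00017ece22fee4f) b20394 (.tok (nat_lit 6) (nat_lit 0x5e0000bc00017f32d2ffae5) (.hit (nat_lit 46) (nat_lit 88) (nat_lit 0x5e0000bc00017f32d2ffae5)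 b20392 (.hit (nat_lit 47) (nat_lit 89) (nat_lit 0x5e0000bc00017e67aafe180) b20393 (.nil))) (.one (nat_lit 9) (nat_lit 45) (nat_lit 87) (nat_lit 0x5e0000bc00017f2f72ffa79) b20391 (.nil))))) (.one (nat_lit 59) (nat_lit 49) (nat_lit 91) (nat_lit 0x5e0000bc00017f39c2fe5f1) b20395 (.nil)))))))))))))) (.nil)
noncomputable def r21_12 : Rw Blk := .tok (nat_lit 6) (nat_lit 0x1780002f0000600f60c0572180b0db011ea) (.hit (nat_lit 21) (nat_lit 0) (nat_lit 0x1780002f00005fc118bfafdd7f80a2fe809) b20414 (.tok (nat_lit 14) (nat_lit 0x1780002f0000600716c032b980aad3008e8) (.hit (nat_lit 22) (nat_lit 61) (nat_lit 0x1780002f00005fdfacbfe801801812ffb70) b20415 (.one (nat_lit 3) (nat_lit 23) (nat_lit 62) (nat_lit 0x1780002f00005fd292bfa4657f7ba2fe8f5) b20416 (.tok (nat_lit 6) (nat_lit 0x1780002f00005fc6d2bf5b597f29fafdd6d) (.hit (nat_lit 26) (nat_lit 65) (nat_lit 0x1780002f00005fa4c8bf488d7f0bfafdd1c)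 b20417 (.hit (nat_lit 27) (nat_lit 66) (nat_lit 0x1780002f00005fc6d2bf5b597f29fafdd6d) b20418 (.nil))) (.tok (nat_lit 9) (nat_lit 0x1780002f0000600716c032b980aad3008e8) (.hit (nat_lit 24) (nat_lit 63) (nat_lit 0x1780002f0000600716c032b980aad3008e8) b20419 (.hit (nat_lit 25) (nat_lit 64) (nat_lit 0x1780002f00005fdaacbfb8a97fa28afeea6) b20420 (.nil))) (.nil))))) (.one (nat_lit 17) (nat_lit 28) (nat_lit 67) (nat_lit 0x1780002f00005fd818bfaae17f7752fea6b) b20421 (.tok (nat_lit 20) (nat_lit 0x1780002f00005fd736c005057ffd52ff366) (.hit (nat_lit 29) (nat_lit 68) (nat_lit 0x1780002f00005fd736c005057ffd52ff366) b20424 (.hit (nat_lit 30) (nat_lit 69) (nat_lit 0x1780002f00005fc124bf64957ef2a2fd956) b20425 (.nil))) (.tok (nat_lit 23) (nat_lit 0x1780002f00005fe0f4bfb9d17f9562feb91) (.hit (nat_lit 31) (nat_lit 70) (nat_lit 0x1780002f00005f8862bf0fc17e9a62fcee9) b20422 (.hit (nat_lit 32) (nat_lit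 71) (nat_lit 0x1780002f00005fe0f4bfb9d17f9562feb91) b20423 (.nil))) (.one (nat_lit 26) (nat_lit 33) (nat_lit 72) (nat_lit 0x1780002f00005fcd14bf76ed7f0e2afdd1a) b20426 (.one (nat_lit 29) (nat_lit 34) (nat_lit 73) (nat_lit 0x1780002f00005fb29abf74517f2d22fdf75) b20427 (.one (nat_lit 32) (nat_lit 35) (nat_lit 74) (nat_lit 0x1780002f00005faadcbf333d7eaaa2fd21c) b20429 (.one (nat_lit 35) (nat_lit 36) (nat_lit 75) (nat_lit 0x1780002f00005fdcd6bf96f17f4d5afe4bc) b20428 (.one (nat_lit 50) (nat_lit 37) (nat_lit 83) (nat_lit 0x1780002f00005fa664bf63a17eeb12fd919) b20430 (.tok (nat_lit 53) (nat_lit 0x1780002f00005fc818bf40657f2fa2fd6c5) (.hit (nat_lit 38) (nat_lit 84) (nat_lit 0x1780002f00005fc818bf40657f2fa2fd6c5) b20431 (.hit (nat_lit 39) (nat_lit 85) (nat_lit 0x1780002f00005f98e4bf3bbd7edb6afd5b7) b20432 (.nil))) (.tok (nat_lit 56) (nat_lit 0x1780002f0000600f60c0572180b0db011ea) (.hit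 (nat_lit 40) (nat_lit 86) (nat_lit 0x1780002f00006001f4c04fa980b0db00cbb) b20433 (.one (nat_lit 3) (nat_lit 44) (nat_lit 90) (nat_lit 0x1780002f00005fe380c011c580177b0019a) b20437 (.tok (nat_lit 6) (nat_lit 0x1780002f00005fdeaabfdc9980118aff671) (.hit (nat_lit 42) (nat_lit 88) (nat_lit 0x1780002f00005fdeaabfdc9980118aff671) b20435 (.hit (nat_lit 43) (nat_lit 89) (nat_lit 0x1780002f00005fab4abf90517f3522fdea8) b20436 (.nil))) (.one (nat_lit 9) (nat_lit 41) (nat_lit 87) (nat_lit 0x1780002f0000600f60c05721805b4b011ea) b20434 (.nil))))) (.one (nat_lit 59) (nat_lit 45) (nat_lit 91) (nat_lit 0x1780002f00005f982abf4d297ee952fd8ae) b20438 (.nil)))))))))))))) (.tok (nat_lit 52) (nat_lit 0x1780002f00006019aac08a2981464b0259d) (.hit (nat_lit 16) (nat_lit 0) (nat_lit 0x1780002f0000600f1cc07039811dbb0179c) b20409 (.tok (nat_lit 6) (nat_lit 0x1780002f00006019aac08a2981464b0259d) (.hit (nat_lit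 17) (nat_lit 7) (nat_lit 0x1780002f00006019aac08a2981464b0259d) b20412 (.hit (nat_lit 18) (nat_lit 15) (nat_lit 0x1780002f0000600852c06b1981085301ae4) b20413 (.nil))) (.tok (nat_lit 9) (nat_lit 0x1780002f0000601854c02cbd80ad5b011a8) (.hit (nat_lit 19) (nat_lit 20) (nat_lit 0x1780002f00005fd0e4bf84197fab62fe5b9) b20410 (.hit (nat_lit 20) (nat_lit 28) (nat_lit 0x1780002f0000601854c02cbd80ad5b011a8) b20411 (.nil))) (.nil)))) (.tok (nat_lit 55) (nat_lit 0x1780002f0000600efcbfffb18031e300100) (.hit (nat_lit 8) (nat_lit 0) (nat_lit 0x1780002f0000600efcbfffb18031e300100) b20401 (.tok (nat_lit 3) (nat_lit 0x1780002f00005fe23cbfa6c97ff0c2fee65) (.hit (nat_lit 9) (nat_lit 1) (nat_lit 0x1780002f00005fda94bf97797fd222fea91) b20402 (.one (nat_lit 67) (nat_lit 10) (nat_lit 2) (nat_lit 0x1780002f00005fe23cbfa6c97ff0c2fee65) b20403 (.nil))) (.tok (nat_lit 6) (nat_lit 0x1780002f00005fecc2bfbbd5801adaff3a8)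 (.hit (nat_lit 11) (nat_lit 7) (nat_lit 0x1780002f00005fcd0abf7c657f9bfafe3cc) b20404 (.hit (nat_lit 14) (nat_lit 15) (nat_lit 0x1780002f00005fb7d2bf51f57f471afd930) b20407 (.tok (nat_lit 55) (nat_lit 0x1780002f00005fecc2bfbbd5801adaff3a8) (.hit (nat_lit 12) (nat_lit 8) (nat_lit 0x1780002f00005fcf94bf81797fa622fe511) b20405 (.hit (nat_lit 15) (nat_lit 16) (nat_lit 0x1780002f00005fecc2bfbbd5801adaff3a8) b20408 (.one (nat_lit 6) (nat_lit 13) (nat_lit 9) (nat_lit 0x1780002f00005fe24cbfa6e97ff102fee6d) b20406 (.nil)))) (.nil)))) (.nil)))) (.tok (nat_lit 58) (nat_lit 0x1780002f00005ffae0bff5f18058c2fffdc) (.hit (nat_lit 0) (nat_lit 0) (nat_lit 0x1780002f00005fe4dcbff5f18058c2fffdc) b20396 (.tok (nat_lit 3) (nat_lit 0x1780002f00005ffae0bfd811805352ffab7) (.hit (nat_lit 1) (nat_lit 1) (nat_lit 0x1780002f00005fee1cbfbe89802042ff455) b20397 (.one (nat_lit 55) (nat_lit 2) (nat_lit 3) (nat_lit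 0x1780002f00005ffae0bfd811805352ffab7) b20398 (.nil))) (.tok (nat_lit 9) (nat_lit 0x1780002f00005fea4cbfb6e9801102ff26d) (.hit (nat_lit 3) (nat_lit 20) (nat_lit 0x1780002f00005fea4cbfb6e9801102ff26d) b20399 (.hit (nat_lit 6) (nat_lit 28) (nat_lit 0x1780002f00005fe018bfa2817fe832fed53) b20400 (.nil))) (.nil)))) (.nil))))
noncomputable def r21_13 : Rw Blk := .tok (nat_lit 3) (nat_lit 0x1780002f000060758ec0bc798178bb035af) (.hit (nat_lit 0) (nat_lit 0) (nat_lit 0x1780002f0000604b96c0a2f980d163022f8) b20439 (.tok (nat_lit 9) (nat_lit 0x1780002f00005ffff2bff2a97fbf42ffb07) (.hit (nat_lit 1) (nat_lit 20) (nat_lit 0x1780002f00005ffeaabff0197fba22ffa63) b20440 (.hit (nat_lit 4) (nat_lit 28) (nat_lit 0x1780002f00005fc784bf81cd7edd8afded0) b20441 (.one (nat_lit 56) (nat_lit 5) (nat_lit 31) (nat_lit 0x1780002f00005ffff2bff2a97fbf42ffb07) b20442 (.nil)))) (.tok (nat_lit 64) (nat_lit 0x1780002f0000601fc8c03255803e9b00af2)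 (.hit (nat_lit 7) (nat_lit 50) (nat_lit 0x1780002f0000601f30c03125803c3b00aa6) b20443 (.hit (nat_lit 8) (nat_lit 51) (nat_lit 0x1780002f0000601fc8c03255803e9b00af2) b20444 (.nil))) (.tok (nat_lit 67) (nat_lit 0x1780002f000060758ec0bc798178bb035af) (.hit (nat_lit 9) (nat_lit 52) (nat_lit 0x1780002f000060758ec0bc798178bb035af) b20445 (.one (nat_lit 3) (nat_lit 15) (nat_lit 58) (nat_lit 0x1780002f0000602cf6c04cb180735301189) b20448 (.tok (nat_lit 9) (nat_lit 0x1780002f000060413ac0753980c46301bab) (.hit (nat_lit 10) (nat_lit 53) (nat_lit 0x1780002f000060413ac0753980c46301bab) b20446 (.hit (nat_lit 13) (nat_lit 56) (nat_lit 0x1780002f000060286ac0439980612300f43) b20447 (.nil))) (.nil)))) (.one (nat_lit 70) (nat_lit 16) (nat_lit 60) (nat_lit 0x1780002f00006016bcc0203d801a6b0066c) b20449 (.nil)))))) (.tok (nat_lit 6) (nat_lit 0x1780002f00006089e8c140e58257db0493b) (.hit (nat_lit 17)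 (nat_lit 0) (nat_lit 0x1780002f00006066f2c0f6dd81daab038e9) b20450 (.tok (nat_lit 6) (nat_lit 0x1780002f0000604f74c0c24581683b0293f) (.hit (nat_lit 18) (nat_lit 7) (nat_lit 0x1780002f0000604f74c0c24581683b0293f) b20451 (.hit (nat_lit 19) (nat_lit 15) (nat_lit 0x1780002f00005ff726c05a15808f3301101) b20452 (.one (nat_lit 68) (nat_lit 20) (nat_lit 18) (nat_lit 0x1780002f0000604d10c0a145810413023a8) b20453 (.nil)))) (.tok (nat_lit 52) (nat_lit 0x1780002f0000607db2c140e58257db0493b) (.hit (nat_lit 21) (nat_lit 39) (nat_lit 0x1780002f0000607db2c0fc55821f8b03d22) b20454 (.hit (nat_lit 22) (nat_lit 40) (nat_lit 0x1780002f0000607d28c140e58257db0493b) b20455 (.nil))) (.tok (nat_lit 55) (nat_lit 0x1780002f000060881ac10d65822cdb03bb4) (.hit (nat_lit 23) (nat_lit 41) (nat_lit 0x1780002f000060881ac10d65822cdb03bb4) b20456 (.one (nat_lit 3) (nat_lit 26) (nat_lit 47) (nat_lit 0x1780002f0000606a4cc0cbb181938b030f9)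 b20459 (.tok (nat_lit 6) (nat_lit 0x1780002f000060568cc0dfd581e7bb033e9) (.hit (nat_lit 24) (nat_lit 42) (nat_lit 0x1780002f00006052a2c0d4c981e7bb033e9) b20457 (.hit (nat_lit 25) (nat_lit 45) (nat_lit 0x1780002f000060568cc0dfd581b18b031bc) b20458 (.nil))) (.nil)))) (.one (nat_lit 58) (nat_lit 27) (nat_lit 49) (nat_lit 0x1780002f00006089e8c13fb58231eb04900) b20460 (.nil)))))) (.nil))
noncomputable def r21_14 : Rw Blk := .tok (nat_lit 3) (nat_lit 0x1780002f00005fb568bf04b97ec242fd711) (.hit (nat_lit 15) (nat_lit 0) (nat_lit 0x1780002f00005fa532bed0e57e793afceb6) b20476 (.tok (nat_lit 9) (nat_lit 0x1780002f00005f8ac2be6f597d3f82fad23) (.hit (nat_lit 16) (nat_lit 20) (nat_lit 0x1780002f00005f4964bdec9d7c3a0af8c74) b20477 (.hit (nat_lit 21) (nat_lit 28) (nat_lit 0x1780002f00005f1e66bd96a17b8e12f76f5) b20480 (.tok (nat_lit 14) (nat_lit 0x1780002f00005f8ac2be6f597d3f82fad23) (.hit (nat_lit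 17) (nat_lit 24) (nat_lit 0x1780002f00005f6fd6be39817cd3d2f9fad) b20478 (.hit (nat_lit 22) (nat_lit 30) (nat_lit 0x1780002f00005f8ac2be6f597d3f82fad23) b20481 (.one (nat_lit 6) (nat_lit 18) (nat_lit 25) (nat_lit 0x1780002f00005f82f8be5fc57d205afa93e) b20479 (.nil)))) (.one (nat_lit 56) (nat_lit 23) (nat_lit 31) (nat_lit 0x1780002f00005f6feebe39b17cd432f9fb9) b20482 (.nil))))) (.tok (nat_lit 64) (nat_lit 0x1780002f00005f9eeebe97b17d9032fb739) (.hit (nat_lit 25) (nat_lit 50) (nat_lit 0x1780002f00005f90c2be7b597d5782fb023) b20483 (.hit (nat_lit 26) (nat_lit 51) (nat_lit 0x1780002f00005f9eeebe97b17d9032fb739) b20484 (.nil))) (.tok (nat_lit 67) (nat_lit 0x1780002f00005fb568bf04b97ec242fd711) (.hit (nat_lit 27) (nat_lit 52) (nat_lit 0x1780002f00005fb568bf04b97ec242fd711) b20485 (.tok (nat_lit 3) (nat_lit 0x1780002f00005fad0cbeb3ed7dc8aafbe48) (.hit (nat_lit 33) (nat_lit 58) (nat_lit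 0x1780002f00005fad0cbeb3ed7dc8aafbe48) b20488 (.one (nat_lit 55) (nat_lit 34) (nat_lit 59) (nat_lit 0x1780002f00005f9890be8af57d76bafb40a) b20489 (.nil))) (.tok (nat_lit 9) (nat_lit 0x1780002f00005faeeebec7157e6762fc95d) (.hit (nat_lit 28) (nat_lit 53) (nat_lit 0x1780002f00005faeeebec7157e6762fc95d) b20486 (.hit (nat_lit 31) (nat_lit 56) (nat_lit 0x1780002f00005fa766bea8a17db212fbb75) b20487 (.nil))) (.nil)))) (.one (nat_lit 70) (nat_lit 35) (nat_lit 60) (nat_lit 0x1780002f00005fabf2beb1b97dc442fbdbb) b20490 (.nil)))))) (.tok (nat_lit 6) (nat_lit 0x1780002f0000602830c042f580fb8301907) (.hit (nat_lit 0) (nat_lit 0) (nat_lit 0x1780002f00005fb144bf03d17e953afd2fd) b20461 (.tok (nat_lit 6) (nat_lit 0x1780002f00005fd8e4bf7c0d7e6692fe2ed) (.hit (nat_lit 1) (nat_lit 7) (nat_lit 0x1780002f00005f98fcbed4f57da57afc916) b20462 (.hit (nat_lit 4) (nat_lit 15) (nat_lit 0x1780002f00005f9a88be74d17cf9dafa6a6)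 b20465 (.tok (nat_lit 14) (nat_lit 0x1780002f00005fd8e4bf7c0d7e6692fe2ed) (.hit (nat_lit 2) (nat_lit 11) (nat_lit 0x1780002f00005fd8e4bf653d7e454afdfc8) b20463 (.hit (nat_lit 5) (nat_lit 17) (nat_lit 0x1780002f00005fa4b0be8c817d3512fae90) b20466 (.one (nat_lit 9) (nat_lit 3) (nat_lit 12) (nat_lit 0x1780002f00005fd80abf7c0d7e6692fe2ed) b20464 (.nil)))) (.one (nat_lit 68) (nat_lit 6) (nat_lit 18) (nat_lit 0x1780002f00005fa05cbedcb17dd21afc26f) b20467 (.nil))))) (.tok (nat_lit 52) (nat_lit 0x1780002f00005fb884beb3fd7de272fbfd3) (.hit (nat_lit 7) (nat_lit 39) (nat_lit 0x1780002f00005fb884be90517de272fbcad) b20468 (.hit (nat_lit 8) (nat_lit 40) (nat_lit 0x1780002f00005fab1ebeb3fd7daadafbfd3) b20469 (.nil))) (.tok (nat_lit 55) (nat_lit 0x1780002f0000602830c042f580fb8301907) (.hit (nat_lit 9) (nat_lit 41) (nat_lit 0x1780002f00005fec7cbfa0f57f76eaffd16) b20470 (.tok (nat_lit 3) (nat_lit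 0x1780002f0000602830c042f580fb8301907) (.hit (nat_lit 12) (nat_lit 47) (nat_lit 0x1780002f0000601a4cc00c1980ad0b01309) b20473 (.one (nat_lit 67) (nat_lit 13) (nat_lit 48) (nat_lit 0x1780002f0000602830c042f580fb8301907) b20474 (.nil))) (.tok (nat_lit 6) (nat_lit 0x1780002f00005fc5aebf3dd97ec522fe8c5) (.hit (nat_lit 10) (nat_lit 42) (nat_lit 0x1780002f00005fc5aebf3dd97ec522fe8c5) b20471 (.hit (nat_lit 11) (nat_lit 45) (nat_lit 0x1780002f00005fb676bf13e17e075afd078) b20472 (.nil))) (.nil)))) (.one (nat_lit 58) (nat_lit 14) (nat_lit 49) (nat_lit 0x1780002f00005f90eabeff957e0492fcb31) b20475 (.nil)))))) (.nil))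
noncomputable def r21_15 : Rw Blk := .tok (nat_lit 6) (nat_lit 0xc000017f5132fddd85fe306bfae397fdca2fe8d55fc3f4c00001800002fe5a85fae7ebf68c97f086afddc7) (.hit (nat_lit 81) (nat_lit 0) (nat_lit 0xbf76b17ec682fca515fd216bf7ef17f3f52fe3095faff8bfd9b97f742afdc2c5f9552bf40917e172afcf24) b20491 (.tok (nat_lit 14) (nat_lit 0xc000017f475afddd85fcf1cbf87117f93d2fd0825f9a10bff7dd800002fe0d15f8cdabf096d7e7092fdaa9) (.hit (nat_lit 117) (nat_lit 61) (nat_lit 0xbfcaa97f3ddafddd85fc38ebf87117f62dafd0825f9a10bfcb05800002fdc5e5f8cdabf096d7e7092fdaa9) b20492 (.one (nat_lit 3) (nat_lit 118) (nat_lit 62) (nat_lit 0xbf94117ece8afd8e15fa87ebf50a97ee16afb5db5f64c2bf6fb97f2ad2fcea05f578cbe9ed17dbc52fd04f) b20493 (.tok (nat_lit 6) (nat_lit 0xbf9f8d7ec542fd41e5fa86cbf46c97f13c2fc5225f8350bf6ecd7eed0afca775f761abedbed7e1342fcd31) (.hit (nat_lit 121) (nat_lit 65) (nat_lit 0xbf3de57e03dafcbe85fa460bf25997eba0afc5225f8350bf6ecd7ec55afc64c5f761abedbed7e0912fc365)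 b20494 (.hit (nat_lit 122) (nat_lit 66) (nat_lit 0xbf9f8d7ec542fd41e5fa86cbf46c97f13c2fb7555f67b6bf52497eed0afca775f5a80bea4b97e1342fcd31) b20495 (.nil))) (.tok (nat_lit 9) (nat_lit 0xc000017f475afdced5fcf1cbf7c1d7f93d2fc6ea5f86e0bff7dd7fbfdafe0d15f79aabee30d7df882fd68e) (.hit (nat_lit 119) (nat_lit 63) (nat_lit 0xc000017f475afd6ad5fcf1cbf7c1d7f93d2fc6ea5f86e0bff7dd7fbfdafe0d15f79aabee30d7df882fd088) b20496 (.hit (nat_lit 120) (nat_lit 64) (nat_lit 0xbf88b97e8d0afdced5fa882bf50ed7ede4afb9f75f6cfabf71557f237afceac5f5fc4beaf417debf2fd68e) b20497 (.nil))) (.nil))))) (.one (nat_lit 17) (nat_lit 123) (nat_lit 67) (nat_lit 0xbf5e797e8d22fcb965f96f8bf1f157e82aafaec85f569cbf60397edcc2fc1345f4966be82857d873afc8de) b20498 (.tok (nat_lit 20) (nat_lit 0xbfa7117f267afd5a35fcefebf82a57f670afbda25f7450bf9e997f8a42fd1e15f671abebded7dc072fc7a5) (.hit (nat_lit 124) (nat_lit 68) (nat_lit 0xbfa7117f267afd5a35fcefebf82a57f670afbda25f7450bf9e997f8a42fd1e15f671abebded7dc072fc7a5)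 b20501 (.hit (nat_lit 125) (nat_lit 69) (nat_lit 0xbf5b217e16bafd20e5f900cbf1bbd7e7c5afaad55f4eb6bf4e0d7ed60afc05e5f4180be72b97d7ddafbd41) b20502 (.nil))) (.tok (nat_lit 23) (nat_lit 0xbf57d57e21dafc7c35f9eb6bf1a457ea362fc24d5f7da6bf63797ecf7afc3775f7070bed0997dd39afccf4) (.hit (nat_lit 126) (nat_lit 70) (nat_lit 0xbf32917ded32fc7c35f9eb6bf1a457ea362fc24d5f7da6bf63797eaeb2fc3775f7070bed0997dd39afccf4) b20499 (.hit (nat_lit 127) (nat_lit 71) (nat_lit 0xbf57d57e21dafbc775f94a8bf18717e7652faac25f4e90bf5b097ecf7afbf8b5f415abe726d7d4f8afb9e8) b20500 (.nil))) (.one (nat_lit 26) (nat_lit 128) (nat_lit 72) (nat_lit 0xbf36817dcd82fb83f5f839abef71d7e3342f9dcb5f34a2bf39097e8cd2fb7365f276cbe3e917cbaeafb0cf) b20503 (.one (nat_lit 29) (nat_lit 129) (nat_lit 73) (nat_lit 0xbf3d357e16dafc1075f8640befdd17e4112f9cb05f326cbf2ee97e9a32fb8e35f2536be3a257cc8c2fb768) b20504 (.one (nat_lit 32) (nat_lit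 130) (nat_lit 74) (nat_lit 0xbf09757d9b72fc6de5f6738beca117dd90afa1ee5f3ce8befb317e32b2fabf35f2fb2be4f1d7cd0a2fbd08) b20506 (.one (nat_lit 35) (nat_lit 131) (nat_lit 75) (nat_lit 0xbf58b97e4b8afc57d5f9514bf19557e781af9b835f3012bf5b857ed142fbfc45f22dcbe35717d2d72fbcd8) b20505 (.one (nat_lit 50) (nat_lit 139) (nat_lit 83) (nat_lit 0xbf6f2d7e5ea2fcad25f9e0abf2fc17ea4a2fa9ab5f4c62bf6c557efc32fc55e5f3f2cbe6e117d5c72fc709) b20516 (.tok (nat_lit 53) (nat_lit 0xbf730d7f124afd7c45fa19ebf55c57eeec2fbc875f721abf6e097ee1eafcbc75f64e4beb9817e1dfafcc8a) (.hit (nat_lit 140) (nat_lit 84) (nat_lit 0xbf730d7f124afd7c45fa19ebf55c57eeec2fbc875f721abf4c617ed58afcbc75f64e4beb9817e1dfafcc8a) b20517 (.hit (nat_lit 141) (nat_lit 85) (nat_lit 0xbf62097e62dafcb7d5f99f2bf22a57e8b12faa0e5f4d28bf6e097ee1eafc2185f3ff2be6f9d7d5692fc735) b20518 (.nil))) (.tok (nat_lit 56) (nat_lit 0xbfce697f5132fdb365fe306bfae397fdca2fe8d55fc3f4c000017f9b5afe5a85fae7ebf68c97efe1afddc7)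 (.hit (nat_lit 142) (nat_lit 86) (nat_lit 0xbfce0d7f5132fd6ee5fd44cbfa8457fa022fe8d55fc3f4bfff757f9272fe5a85fae7ebf68c97efe1afdbf8) b20519 (.one (nat_lit 3) (nat_lit 146) (nat_lit 90) (nat_lit 0xbf9f7d7ec65afcf685fc6cebf6db17f4d5afbed55f76b6bfcb817f8562fd2565f6980bec2b97dd812fd2a8) b20523 (.tok (nat_lit 6) (nat_lit 0xbfce697ee682fdb365fa4e2bf663d7f35fafc5635f83d2bf90717f2102fd28c5f769cbedcf17e3ddafd09c) (.hit (nat_lit 144) (nat_lit 88) (nat_lit 0xbfce697ee682fdb365fa4e2bf663d7f35fafc5635f83d2bf90717f2102fd28c5f769cbedcf17e3ddafd043) b20521 (.hit (nat_lit 145) (nat_lit 89) (nat_lit 0xbf667d7edda2fd6425f99e4bf28e97e9e72fb74d5f67a6bf6a217eea1afc3e15f5a70bea4997db792fd09c) b20522 (.nil))) (.one (nat_lit 9) (nat_lit 143) (nat_lit 87) (nat_lit 0xbfc3117f4632fd6615fe306bfae397fdca2fcc9c5f9244c000017f9b5afe24e5f850ebef9d57e2612fddc7) b20520 (.nil))))) (.one (nat_lit 59) (nat_lit 147)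 (nat_lit 91) (nat_lit 0xbf52ed7e0d6afc4b35f9170bf13897e6ba2f96c35f2692bf5dd17ec352fbe515f195cbe22717d04a2fb9f0) b20524 (.one (nat_lit 62) (nat_lit 148) (nat_lit 92) (nat_lit 0xbf460d7df7d2fc3135f8bf6bf06a97e53a2fab6e5f4fe8bf55f57eabf2fbb195f42b2be751d7d66e2fbfb3) b20507 (.tok (nat_lit 65) (nat_lit 0xbf6be17eba82fc9ed5f93e0bf27457e923afa87a5f4a00bf63ad7ef442fc4aa5f3ccabe694d7d7c72fc745) (.hit (nat_lit 149) (nat_lit 93) (nat_lit 0xbf6be17eba82fc9ed5f93e0bf27457e923afa87a5f4a00bf49357ef442fc4aa5f3ccabe694d7d7c72fc745) b20508 (.hit (nat_lit 150) (nat_lit 94) (nat_lit 0xbf536d7e49bafc39d5f9314bf14097e6edafa4565f41b8bf63ad7ec6b2fbe715f3482be58bd7d36f2fc453) b20509 (.nil))) (.tok (nat_lit 68) (nat_lit 0xbf7f757ec15afd8615fbb74bf76ed7f3642fe6d55facfabf9c897ef622fda945fa230bf4fd17f086afd9ca) (.hit (nat_lit 151) (nat_lit 95) (nat_lit 0xbf7f757ec15afd8615fbb74bf76ed7f3642fe6d55facfabf9c897ef622fda945fa230bf4fd17f086afd9ca)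 b20510 (.one (nat_lit 3) (nat_lit 155) (nat_lit 99) (nat_lit 0xbf07217d9652fcc375f88febeeed57e4c82fb7715f67eebf38097e57d2fb89b5f5ab8bea5297d7cbafce65) b20514 (.one (nat_lit 6) (nat_lit 152) (nat_lit 96) (nat_lit 0xbf33dd7defcafd0ab5f9f5cbf1b917ea5fafc2a05f7e4cbf64c57eb14afc3ca5f7116bed1e57dd632fd452) b20511 (.tok (nat_lit 9) (nat_lit 0xbf388d7df92afd7f45fa1b4bf20417eaf5afc3cc5f80a4bf69757ebaaafc4f65f736ebed6957e6ffafd395) (.hit (nat_lit 153) (nat_lit 97) (nat_lit 0xbf16357db47afd6f25f9088befde97e6aaafbb365f6f78bf471d7e75fafbc605f6242beb43d7e6ffafd395) b20512 (.hit (nat_lit 154) (nat_lit 98) (nat_lit 0xbf388d7df92afd7f45fa1b4bf20417eaf5afc3cc5f80a4bf69757ebaaafc4f65f736ebed6957ddf92fd2a9) b20513 (.nil))) (.nil))))) (.one (nat_lit 71) (nat_lit 156) (nat_lit 100) (nat_lit 0xbf2cd97ddb82fb8c35f7f1ebeed757e1f8af96c35f2692bf3be57e798afb4cc5f195cbe22717cec7afb3ef) b20515 (.nil))))))))))))))))))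 (.tok (nat_lit 52) (nat_lit 0xbfe8d980000300000600000c000017ff0830111d602138bff1957f6afb000006002fec00ced80029affa9d) (.hit (nat_lit 332) (nat_lit 0) (nat_lit 0xbfe8d97fb2daffc115ff99cbff3a97ff083005a95ff28abfe72d7f6afafed9b5fd8c8bfae1d7fbde2fe9ea) b20525 (.tok (nat_lit 6) (nat_lit 0xbfe465800002fef0f600000c000017fd9b30111d602138bff1957f53b3000006002fec00ced7ffec2ffa9d) (.hit (nat_lit 333) (nat_lit 7) (nat_lit 0xbfe465800002fef0f600000c000017fd9b30111d602138bff1957f53b3000006002fec00ced7ffec2ffa9d) b20528 (.hit (nat_lit 334) (nat_lit 15) (nat_lit 0xbfb5e57f89aafe2595fe852bfd0a97f91faff71d5fc95ebfcc357f0492fe7ed5fc09cbfa7957f587afebe2) b20529 (.nil))) (.tok (nat_lit 9) (nat_lit 0xbfcbc17fe933000005fee5ebfdaf57fb50b002d95fe54ebfb2557f62bafe7195fcee8bfdc1d80029aff116) (.hit (nat_lit 335) (nat_lit 20) (nat_lit 0xbfaba57ed56b000005fd9babfb5957f8bbafea245fbff2bfaa4d7f62bafdca25f97b6bf3bc980029aff116)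 b20526 (.hit (nat_lit 336) (nat_lit 28) (nat_lit 0xbfcbc17fe932ff7075fee5ebfdaf57fb50b002d95fe54ebfb2557f24a2fe7195fcee8bfdc1d7f5dbafe4af) b20527 (.nil))) (.nil)))) (.tok (nat_lit 55) (nat_lit 0xbfe5c97f49b2ffb1c5ff6ccbfefb9800002ff8ad5fdd04bfe4717ff682feb2b5fcd78bfad0d7f386affe41) (.hit (nat_lit 343) (nat_lit 0) (nat_lit 0xbfe54d7f2b1afea945fd94cbfb4b97f8a02feb1c5fc568bfbf997ff682fe92d5fcd78bfad0d7f386afe8e8) b20530 (.tok (nat_lit 3) (nat_lit 0xbfb41d7ee65aff16d5fddf6bfbe0d7f9caafec425fc42ebfb2c57f73aafdec05f9bf2bf44417ef872ff6a6) (.hit (nat_lit 344) (nat_lit 1) (nat_lit 0xbf4b917e1542fd82a5fa9b0bf55817ecb92fd21f5f8fe8bf4a397ea292fc49d5f67acbedbb57db2f2fdd66) b20531 (.one (nat_lit 67) (nat_lit 345) (nat_lit 2) (nat_lit 0xbfb41d7ee65aff16d5fddf6bfbe0d7f9caafec425fc42ebfb2c57f73aafdec05f9bf2bf44417ef872ff6a6) b20532 (.nil))) (.tok (nat_lit 6) (nat_lit 0xbfe5c97f49b2ffb1c5ff6ccbfefb9800002ff8ad5fdd04bfe4717fd702feb2b5fb4c8bf75ed7f353affe41)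 (.hit (nat_lit 346) (nat_lit 7) (nat_lit 0xbf70697e5ef2fdb755fbc1cbf7a597f1542fdb555fa254bf6f117eec42fcdd35f7a18bf008d7e1bbafdd1e) b20533 (.hit (nat_lit 349) (nat_lit 15) (nat_lit 0xbf32997de352fd6225f9d34bf3c897e99a2fcbe15f836cbf31417e70a2fbe5f5f5b30bec2bd7e1ea2fdb36) b20536 (.tok (nat_lit 55) (nat_lit 0xbfe5c97f49b2ffb1c5ff6ccbfefb9800002ff8ad5fdd04bfe4717fd702feb2b5fb4c8bf75ed7f353affe41) (.hit (nat_lit 347) (nat_lit 8) (nat_lit 0xbfc73d7f0c9aff7be5fe786bfd12d7fc2eaff10a5fcdbebfc5e57f99eafe3885fa582bf57617f23baff848) b20534 (.hit (nat_lit 350) (nat_lit 16) (nat_lit 0xbf9af97eb412fedd35fd164bfa4e97f6a62fe5f95fb79cbf99a17f4162fd8775f8f60bf2b1d7f0aeaff2fc) b20537 (.one (nat_lit 6) (nat_lit 348) (nat_lit 9) (nat_lit 0xbfe5c97f49b2ffb1c5ff6ccbfefb9800002ff8ad5fdd04bfe4717fd702feb2b5fb4c8bf75ed7f353affe41) b20535 (.nil)))) (.nil)))) (.nil)))) (.tok (nat_lit 58) (nat_lit 0xbfe1157f404aff7005ff472bfeb057ff69aff7805fdaaabfdfbd7fcd9afe9fe5fb8b0bf7cf580843b00ac5)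 (.hit (nat_lit 357) (nat_lit 0) (nat_lit 0xbfae717eb59afe41a5fbde8bf7df17f1c72fe5fe5fb904bf8dc97f7cbafdc985fb8b0bf7cf57f856afeb98) b20538 (.tok (nat_lit 3) (nat_lit 0xbfb7417eeca2fe4855fdf88bfc1317fa2f2fed0b5fc5c0bfb5e97f79f2fdf895f9d84bf47657f658afef1d) (.hit (nat_lit 358) (nat_lit 1) (nat_lit 0xbf5b417e34a2fdda25fb188bf65317eeaf2fd60b5f97c0bf59e97ec1f2fc8895f6f84beeb657ef612fe418) b20539 (.one (nat_lit 55) (nat_lit 359) (nat_lit 3) (nat_lit 0xbfb7417eeca2fe4855fdf88bfc1317fa2f2fed0b5fc5c0bfb5e97f79f2fdf895f9d84bf47657f658afef1d) b20540 (.nil))) (.tok (nat_lit 9) (nat_lit 0xbfe1157f404aff7005ff472bfeb057ff69aff7805fdaaabfdfbd7fcd9afe9fe5fb26ebf713980843b00ac5) (.hit (nat_lit 360) (nat_lit 20) (nat_lit 0xbf63557e44cafd9da5fb592bf6d457efb1afd8105f9bcabf61fd7ed21afca8e5f738ebef3797f1a42fe741) b20541 (.hit (nat_lit 363) (nat_lit 28) (nat_lit 0xbf59157e304afdc7a5fb072bf63057ee69afd5805f96aabf57bd7ebd9afc7fe5f6e6ebee9397f02f2fe192)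 b20544 (.tok (nat_lit 67) (nat_lit 0xbfe1157f404aff7005ff472bfeb057ff69aff7805fdaaabfdfbd7fcd9afe9fe5fb26ebf713980843b00ac5) (.hit (nat_lit 361) (nat_lit 21) (nat_lit 0xbf9f397ebc92fe5e35fd384bfa9297f72e2fe7095fb9bcbf9de17f49e2fd9875f9180bf2f5d7fd3c2ff70c) b20542 (.hit (nat_lit 364) (nat_lit 29) (nat_lit 0xbfb8e97eeff2ff35c5fe05cbfc2d97fa642fed755fc694bfb7917f7d42fdff35f9e58bf490d7fa90aff10f) b20545 (.one (nat_lit 9) (nat_lit 362) (nat_lit 22) (nat_lit 0xbfe1157f404aff7005ff472bfeb057ff69aff7805fdaaabfdfbd7fcd9afe9fe5fb26ebf713980843b00ac5) b20543 (.nil)))) (.nil)))) (.nil)))) (.nil))))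
noncomputable def r21_16 : Rw Blk := .tok (nat_lit 14) (nat_lit 0xbc0001780002fdb2a) (.hit (nat_lit 134) (nat_lit 0) (nat_lit 0xbc0001780002fdb2a) b20563 (.one (nat_lit 3) (nat_lit 135) (nat_lit 1) (nat_lit 0xbc0001780002fb11f) b20564 (.tok (nat_lit 6) (nat_lit 0xbc0001780002fd522) (.hit (nat_lit 136) (nat_lit 7) (nat_lit 0xbc0001780002fcf9f) b20565 (.hit (nat_lit 137) (nat_lit 15) (nat_lit 0xbc0001780002fd522) b20567 (.nil))) (.tok (nat_lit 9) (nat_lit 0xbc0001780002fd13e) (.hit (nat_lit 138) (nat_lit 20) (nat_lit 0xbc0001780002fcf9f) b20565 (.hit (nat_lit 139) (nat_lit 28) (nat_lit 0xbc0001780002fd13e) b20566 (.nil))) (.nil))))) (.tok (nat_lit 17) (nat_lit 0xbc0001780002fdb7d) (.hit (nat_lit 140) (nat_lit 0) (nat_lit 0xbc0001780002fdb7d) b20557 (.one (nat_lit 3) (nat_lit 141) (nat_lit 1) (nat_lit 0xbc0001780002fac12) b20558 (.tok (nat_lit 6) (nat_lit 0xbc0001780002fd233) (.hit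 (nat_lit 142) (nat_lit 7) (nat_lit 0xbc0001780002fca32) b20561 (.hit (nat_lit 143) (nat_lit 15) (nat_lit 0xbc0001780002fd233) b20562 (.nil))) (.tok (nat_lit 9) (nat_lit 0xbc0001780002fcf33) (.hit (nat_lit 144) (nat_lit 20) (nat_lit 0xbc0001780002fc73c) b20559 (.hit (nat_lit 145) (nat_lit 28) (nat_lit 0xbc0001780002fcf33) b20560 (.nil))) (.nil))))) (.tok (nat_lit 20) (nat_lit 0xbc0001780002ff72b) (.hit (nat_lit 128) (nat_lit 0) (nat_lit 0xbc0001780002ff72b) b20552 (.one (nat_lit 3) (nat_lit 129) (nat_lit 1) (nat_lit 0xbc0001780002fe9a3) b20553 (.tok (nat_lit 6) (nat_lit 0xbc0001780002fe763) (.hit (nat_lit 130) (nat_lit 7) (nat_lit 0xbc0001780002fcc0b) b20550 (.hit (nat_lit 131) (nat_lit 15) (nat_lit 0xbc0001780002fe763) b20556 (.nil))) (.tok (nat_lit 9) (nat_lit 0xbc0001780002feafd) (.hit (nat_lit 132) (nat_lit 20) (nat_lit 0xbc0001780002feafd) b20554 (.hit (nat_lit 133) (nat_lit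 28) (nat_lit 0xbc0001780002fe54e) b20555 (.nil))) (.nil))))) (.tok (nat_lit 23) (nat_lit 0xbc0001780002fdbef) (.hit (nat_lit 122) (nat_lit 0) (nat_lit 0xbc0001780002fdbef) b20546 (.one (nat_lit 3) (nat_lit 123) (nat_lit 1) (nat_lit 0xbc0001780002fb498) b20547 (.tok (nat_lit 6) (nat_lit 0xbc0001780002fd435) (.hit (nat_lit 124) (nat_lit 7) (nat_lit 0xbc0001780002fcc0b) b20550 (.hit (nat_lit 125) (nat_lit 15) (nat_lit 0xbc0001780002fd435) b20551 (.nil))) (.tok (nat_lit 9) (nat_lit 0xbc0001780002fd21d) (.hit (nat_lit 126) (nat_lit 20) (nat_lit 0xbc0001780002fcb3e) b20548 (.hit (nat_lit 127) (nat_lit 28) (nat_lit 0xbc0001780002fd21d) b20549 (.nil))) (.nil))))) (.tok (nat_lit 26) (nat_lit 0xbc0001780002ff81e) (.hit (nat_lit 215) (nat_lit 0) (nat_lit 0xbc0001780002ff81e) b20612 (.one (nat_lit 3) (nat_lit 216) (nat_lit 1) (nat_lit 0xbc0001780002fada4) b20613 (.tok (nat_lit 6) (nat_lit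 0xbc0001780002fdb46) (.hit (nat_lit 217) (nat_lit 7) (nat_lit 0xbc0001780002fdb46) b20616 (.hit (nat_lit 218) (nat_lit 15) (nat_lit 0xbc0001780002fabfe) b20617 (.nil))) (.tok (nat_lit 9) (nat_lit 0xbc0001780002fbf7f) (.hit (nat_lit 219) (nat_lit 20) (nat_lit 0xbc0001780002fbf08) b20614 (.hit (nat_lit 220) (nat_lit 28) (nat_lit 0xbc0001780002fbf7f) b20615 (.nil))) (.nil))))) (.tok (nat_lit 29) (nat_lit 0xbc0001780002fdd81) (.hit (nat_lit 221) (nat_lit 0) (nat_lit 0xbc0001780002fdd81) b20618 (.one (nat_lit 3) (nat_lit 222) (nat_lit 1) (nat_lit 0xbc0001780002fb006) b20619 (.tok (nat_lit 6) (nat_lit 0xbc0001780002fcc4a) (.hit (nat_lit 223) (nat_lit 7) (nat_lit 0xbc0001780002fbcaf) b20622 (.hit (nat_lit 224) (nat_lit 15) (nat_lit 0xbc0001780002fcc4a) b20623 (.nil))) (.tok (nat_lit 9) (nat_lit 0xbc0001780002fd293) (.hit (nat_lit 225) (nat_lit 20) (nat_lit 0xbc0001780002fcfe4) b20620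 (.hit (nat_lit 226) (nat_lit 28) (nat_lit 0xbc0001780002fd293) b20621 (.nil))) (.nil))))) (.tok (nat_lit 32) (nat_lit 0xbc0001780002feab2) (.hit (nat_lit 233) (nat_lit 0) (nat_lit 0xbc0001780002feab2) b20630 (.one (nat_lit 3) (nat_lit 234) (nat_lit 1) (nat_lit 0xbc0001780002fb498) b20547 (.tok (nat_lit 6) (nat_lit 0xbc0001780002fcbcb) (.hit (nat_lit 235) (nat_lit 7) (nat_lit 0xbc0001780002fc956) b20572 (.hit (nat_lit 236) (nat_lit 15) (nat_lit 0xbc0001780002fcbcb) b20633 (.nil))) (.tok (nat_lit 9) (nat_lit 0xbc0001780002fbc91) (.hit (nat_lit 237) (nat_lit 20) (nat_lit 0xbc0001780002fbc91) b20631 (.hit (nat_lit 238) (nat_lit 28) (nat_lit 0xbc0001780002faa70) b20632 (.nil))) (.nil))))) (.tok (nat_lit 35) (nat_lit 0xbc0001780002ffa94) (.hit (nat_lit 227) (nat_lit 0) (nat_lit 0xbc0001780002ffa94) b20624 (.one (nat_lit 3) (nat_lit 228) (nat_lit 1) (nat_lit 0xbc0001780002fbdaf) b20625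 (.tok (nat_lit 6) (nat_lit 0xbc0001780002fd33d) (.hit (nat_lit 229) (nat_lit 7) (nat_lit 0xbc0001780002fcfc2) b20628 (.hit (nat_lit 230) (nat_lit 15) (nat_lit 0xbc0001780002fd33d) b20629 (.nil))) (.tok (nat_lit 9) (nat_lit 0xbc0001780002fd53a) (.hit (nat_lit 231) (nat_lit 20) (nat_lit 0xbc0001780002fd53a) b20626 (.hit (nat_lit 232) (nat_lit 28) (nat_lit 0xbc0001780002fd161) b20627 (.nil))) (.nil))))) (.tok (nat_lit 50) (nat_lit 0xbc0001780002fdba2) (.hit (nat_lit 170) (nat_lit 0) (nat_lit 0xbc0001780002fdba2) b20591 (.one (nat_lit 3) (nat_lit 171) (nat_lit 1) (nat_lit 0xbc0001780002fb4db) b20592 (.tok (nat_lit 6) (nat_lit 0xbc0001780002fd005) (.hit (nat_lit 172) (nat_lit 7) (nat_lit 0xbc0001780002fd005) b20595 (.hit (nat_lit 173) (nat_lit 15) (nat_lit 0xbc0001780002fbd27) b20596 (.nil))) (.tok (nat_lit 9) (nat_lit 0xbc0001780002fbcd4) (.hit (nat_lit 174) (nat_lit 20) (nat_lit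 0xbc0001780002fbcd4) b20593 (.hit (nat_lit 175) (nat_lit 28) (nat_lit 0xbc0001780002fb9c8) b20594 (.nil))) (.nil))))) (.tok (nat_lit 53) (nat_lit 0xbc0001780002fecd1) (.hit (nat_lit 181) (nat_lit 0) (nat_lit 0xbc0001780002fec61) b20597 (.one (nat_lit 3) (nat_lit 182) (nat_lit 1) (nat_lit 0xbc0001780002fe5a1) b20598 (.tok (nat_lit 6) (nat_lit 0xbc0001780002fecd1) (.hit (nat_lit 183) (nat_lit 7) (nat_lit 0xbc0001780002fecd1) b20601 (.hit (nat_lit 184) (nat_lit 15) (nat_lit 0xbc0001780002fe3f9) b20602 (.nil))) (.tok (nat_lit 9) (nat_lit 0xbc0001780002fe666) (.hit (nat_lit 185) (nat_lit 20) (nat_lit 0xbc0001780002fc37f) b20599 (.hit (nat_lit 186) (nat_lit 28) (nat_lit 0xbc0001780002fe666) b20600 (.nil))) (.nil))))) (.tok (nat_lit 56) (nat_lit 0xbc0001780002fdc06) (.hit (nat_lit 195) (nat_lit 0) (nat_lit 0xbc0001780002fdc06) b20609 (.one (nat_lit 3) (nat_lit 196) (nat_lit 1) (nat_lit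 0xbc0001780002fb498) b20547 (.tok (nat_lit 6) (nat_lit 0xbc0001780002fcf9f) (.hit (nat_lit 197) (nat_lit 7) (nat_lit 0xbc0001780002fcf9f) b20565 (.hit (nat_lit 198) (nat_lit 15) (nat_lit 0xbc0001780002fb606) b20588 (.nil))) (.tok (nat_lit 9) (nat_lit 0xbc0001780002fd3ea) (.hit (nat_lit 199) (nat_lit 20) (nat_lit 0xbc0001780002fc5ee) b20610 (.hit (nat_lit 200) (nat_lit 28) (nat_lit 0xbc0001780002fd3ea) b20611 (.nil))) (.nil))))) (.tok (nat_lit 59) (nat_lit 0xbc0001780002fe26d) (.hit (nat_lit 209) (nat_lit 0) (nat_lit 0xbc0001780002fe26d) b20603 (.one (nat_lit 3) (nat_lit 210) (nat_lit 1) (nat_lit 0xbc0001780002fc645) b20604 (.tok (nat_lit 6) (nat_lit 0xbc0001780002fd341) (.hit (nat_lit 211) (nat_lit 7) (nat_lit 0xbc0001780002fd341) b20607 (.hit (nat_lit 212) (nat_lit 15) (nat_lit 0xbc0001780002fd306) b20608 (.nil))) (.tok (nat_lit 9) (nat_lit 0xbc0001780002fd94c) (.hit (nat_lit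 213) (nat_lit 20) (nat_lit 0xbc0001780002fcfb6) b20605 (.hit (nat_lit 214) (nat_lit 28) (nat_lit 0xbc0001780002fd94c) b20606 (.nil))) (.nil))))) (.tok (nat_lit 62) (nat_lit 0xbc0001780002fdcd1) (.hit (nat_lit 146) (nat_lit 0) (nat_lit 0xbc0001780002fdcd1) b20568 (.one (nat_lit 3) (nat_lit 147) (nat_lit 1) (nat_lit 0xbc0001780002fa56c) b20569 (.tok (nat_lit 6) (nat_lit 0xbc0001780002fc956) (.hit (nat_lit 148) (nat_lit 7) (nat_lit 0xbc0001780002fc956) b20572 (.hit (nat_lit 149) (nat_lit 15) (nat_lit 0xbc0001780002fbca0) b20573 (.nil))) (.tok (nat_lit 9) (nat_lit 0xbc0001780002fd7e8) (.hit (nat_lit 150) (nat_lit 20) (nat_lit 0xbc0001780002fd7e8) b20570 (.hit (nat_lit 151) (nat_lit 28) (nat_lit 0xbc0001780002fabf3) b20571 (.nil))) (.nil))))) (.tok (nat_lit 65) (nat_lit 0xbc00017800030036b) (.hit (nat_lit 152) (nat_lit 0) (nat_lit 0xbc0001780002ff63b) b20574 (.one (nat_lit 3) (nat_lit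 153) (nat_lit 1) (nat_lit 0xbc0001780002ffd15) b20575 (.tok (nat_lit 6) (nat_lit 0xbc00017800030036b) (.hit (nat_lit 154) (nat_lit 7) (nat_lit 0xbc0001780002fd440) b20578 (.hit (nat_lit 155) (nat_lit 15) (nat_lit 0xbc00017800030036b) b20579 (.nil))) (.tok (nat_lit 9) (nat_lit 0xbc00017800030000c) (.hit (nat_lit 156) (nat_lit 20) (nat_lit 0xbc00017800030000c) b20576 (.hit (nat_lit 157) (nat_lit 28) (nat_lit 0xbc0001780002ff664) b20577 (.nil))) (.nil))))) (.tok (nat_lit 68) (nat_lit 0xbc0001780002fe28b) (.hit (nat_lit 158) (nat_lit 0) (nat_lit 0xbc0001780002fe28b) b20586 (.one (nat_lit 3) (nat_lit 159) (nat_lit 1) (nat_lit 0xbc0001780002fb498) b20547 (.tok (nat_lit 6) (nat_lit 0xbc0001780002fcd10) (.hit (nat_lit 160) (nat_lit 7) (nat_lit 0xbc0001780002fc9c7) b20589 (.hit (nat_lit 161) (nat_lit 15) (nat_lit 0xbc0001780002fcd10) b20590 (.nil))) (.tok (nat_lit 9) (nat_lit 0xbc0001780002fc5ab)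 (.hit (nat_lit 162) (nat_lit 20) (nat_lit 0xbc0001780002fc5ab) b20587 (.hit (nat_lit 163) (nat_lit 28) (nat_lit 0xbc0001780002fb606) b20588 (.nil))) (.nil))))) (.tok (nat_lit 71) (nat_lit 0xbc0001780002fecfe) (.hit (nat_lit 164) (nat_lit 0) (nat_lit 0xbc0001780002fecfe) b20580 (.one (nat_lit 3) (nat_lit 165) (nat_lit 1) (nat_lit 0xbc0001780002fa9b7) b20581 (.tok (nat_lit 6) (nat_lit 0xbc0001780002fcb87) (.hit (nat_lit 166) (nat_lit 7) (nat_lit 0xbc0001780002fcb87) b20584 (.hit (nat_lit 167) (nat_lit 15) (nat_lit 0xbc0001780002fbddd) b20585 (.nil))) (.tok (nat_lit 9) (nat_lit 0xbc0001780002fca60) (.hit (nat_lit 168) (nat_lit 20) (nat_lit 0xbc0001780002fc7ca) b20582 (.hit (nat_lit 169) (nat_lit 28) (nat_lit 0xbc0001780002fca60) b20583 (.nil))) (.nil))))) (.nil))))))))))))))))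
noncomputable def r21_17 : Rw Blk := .tok (nat_lit 3) (nat_lit 0xbc0001780002ff783) (.hit (nat_lit 18) (nat_lit 0) (nat_lit 0xbc0001780002ff750) b20650 (.tok (nat_lit 6) (nat_lit 0xbc0001780002fedc4) (.hit (nat_lit 19) (nat_lit 7) (nat_lit 0xbc0001780002fd35b) b20653 (.hit (nat_lit 20) (nat_lit 15) (nat_lit 0xbc0001780002fedc4) b20654 (.nil))) (.tok (nat_lit 9) (nat_lit 0xbc0001780002ff783) (.hit (nat_lit 21) (nat_lit 20) (nat_lit 0xbc0001780002ff783) b20651 (.hit (nat_lit 22) (nat_lit 28) (nat_lit 0xbc0001780002fe75f) b20652 (.nil))) (.nil)))) (.tok (nat_lit 6) (nat_lit 0xbc000178000300087) (.hit (nat_lit 0) (nat_lit 0) (nat_lit 0xbc0001780002ff1c2) b20634 (.one (nat_lit 3) (nat_lit 1) (nat_lit 1) (nat_lit 0xbc0001780002fd746) b20635 (.tok (nat_lit 6) (nat_lit 0xbc000178000300087) (.hit (nat_lit 3) (nat_lit 7) (nat_lit 0xbc0001780002fd71f) b20636 (.hit (nat_lit 7) (nat_lit 15)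 (nat_lit 0xbc0001780002fd872) b20640 (.tok (nat_lit 55) (nat_lit 0xbc000178000300087) (.hit (nat_lit 4) (nat_lit 8) (nat_lit 0xbc0001780002ff22b) b20637 (.hit (nat_lit 8) (nat_lit 16) (nat_lit 0xbc000178000300036) b20641 (.tok (nat_lit 6) (nat_lit 0xbc000178000300087) (.hit (nat_lit 5) (nat_lit 9) (nat_lit 0xbc0001780002ff6bc) b20638 (.one (nat_lit 55) (nat_lit 6) (nat_lit 10) (nat_lit 0xbc000178000300087) b20639 (.nil))) (.nil)))) (.nil)))) (.nil)))) (.tok (nat_lit 9) (nat_lit 0xbc000178000303ad2) (.hit (nat_lit 9) (nat_lit 0) (nat_lit 0xbc0001780002ff5f0) b20642 (.one (nat_lit 3) (nat_lit 10) (nat_lit 1) (nat_lit 0xbc0001780002ff214) b20643 (.tok (nat_lit 9) (nat_lit 0xbc000178000303ad2) (.hit (nat_lit 12) (nat_lit 20) (nat_lit 0xbc0001780003015bb) b20644 (.hit (nat_lit 16) (nat_lit 28) (nat_lit 0xbc0001780002fffca) b20648 (.tok (nat_lit 67) (nat_lit 0xbc000178000303ad2) (.hit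 (nat_lit 13) (nat_lit 21) (nat_lit 0xbc0001780003029cd) b20645 (.hit (nat_lit 17) (nat_lit 29) (nat_lit 0xbc000178000303ad2) b20649 (.tok (nat_lit 9) (nat_lit 0xbc000178000301fa5) (.hit (nat_lit 14) (nat_lit 22) (nat_lit 0xbc000178000301fa5) b20646 (.one (nat_lit 67) (nat_lit 15) (nat_lit 23) (nat_lit 0xbc000178000301b63) b20647 (.nil))) (.nil)))) (.nil)))) (.nil)))) (.nil)))
noncomputable def r21_18 : Rw Blk := .tok (nat_lit 3) (nat_lit 0xbc0001780002fef98) (.hit (nat_lit 0) (nat_lit 0) (nat_lit 0xbc0001780002fef98) b20655 (.tok (nat_lit 6) (nat_lit 0xbc0001780002feb69) (.hit (nat_lit 1) (nat_lit 7) (nat_lit 0xbc0001780002fd386) b20656 (.hit (nat_lit 4) (nat_lit 15) (nat_lit 0xbc0001780002fd153) b20659 (.tok (nat_lit 56) (nat_lit 0xbc0001780002feb69) (.hit (nat_lit 2) (nat_lit 13) (nat_lit 0xbc0001780002fe5ee) b20657 (.hit (nat_lit 6) (nat_lit 19) (nat_lit 0xbc0001780002fe2b2)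 b20661 (.one (nat_lit 6) (nat_lit 3) (nat_lit 14) (nat_lit 0xbc0001780002feb69) b20658 (.nil)))) (.one (nat_lit 68) (nat_lit 5) (nat_lit 18) (nat_lit 0xbc0001780002fe265) b20660 (.nil))))) (.nil))) (.tok (nat_lit 9) (nat_lit 0xbc0001780003033cd) (.hit (nat_lit 17) (nat_lit 0) (nat_lit 0xbc000178000301064) b20662 (.tok (nat_lit 9) (nat_lit 0xbc0001780003017bd) (.hit (nat_lit 18) (nat_lit 20) (nat_lit 0xbc00017800030095a) b20663 (.hit (nat_lit 21) (nat_lit 28) (nat_lit 0xbc0001780002fe657) b20666 (.tok (nat_lit 68) (nat_lit 0xbc0001780003017bd) (.hit (nat_lit 19) (nat_lit 26) (nat_lit 0xbc0001780002fff43) b20664 (.hit (nat_lit 23) (nat_lit 32) (nat_lit 0xbc0001780002ff093) b20667 (.one (nat_lit 9) (nat_lit 20) (nat_lit 27) (nat_lit 0xbc0001780003017bd) b20665 (.nil)))) (.nil)))) (.tok (nat_lit 64) (nat_lit 0xbc000178000302f96) (.hit (nat_lit 24) (nat_lit 50) (nat_lit 0xbc0001780003013b6)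 b20668 (.hit (nat_lit 25) (nat_lit 51) (nat_lit 0xbc000178000302f96) b20669 (.nil))) (.tok (nat_lit 67) (nat_lit 0xbc0001780003033cd) (.hit (nat_lit 26) (nat_lit 52) (nat_lit 0xbc0001780003033cd) b20670 (.one (nat_lit 3) (nat_lit 32) (nat_lit 58) (nat_lit 0xbc000178000301dd7) b20676 (.tok (nat_lit 9) (nat_lit 0xbc000178000302e77) (.hit (nat_lit 27) (nat_lit 53) (nat_lit 0xbc0001780003004ae) b20671 (.hit (nat_lit 30) (nat_lit 56) (nat_lit 0xbc000178000302057) b20674 (.tok (nat_lit 67) (nat_lit 0xbc000178000302e77) (.hit (nat_lit 28) (nat_lit 54) (nat_lit 0xbc000178000302e77) b20672 (.hit (nat_lit 31) (nat_lit 57) (nat_lit 0xbc0001780003014d1) b20675 (.one (nat_lit 9) (nat_lit 29) (nat_lit 55) (nat_lit 0xbc000178000302912) b20673 (.nil)))) (.nil)))) (.nil)))) (.one (nat_lit 70) (nat_lit 33) (nat_lit 60) (nat_lit 0xbc000178000302026) b20677 (.nil)))))) (.nil))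
noncomputable def r21_19 : Rw Blk := .tok (nat_lit 3) (nat_lit 0xbc0001780002fef15) (.hit (nat_lit 14) (nat_lit 0) (nat_lit 0xbc0001780002fec67) b20690 (.tok (nat_lit 6) (nat_lit 0xbc0001780002fef15) (.hit (nat_lit 15) (nat_lit 7) (nat_lit 0xbc0001780002fef15) b20693 (.hit (nat_lit 16) (nat_lit 15) (nat_lit 0xbc0001780002fdea0) b20694 (.nil))) (.tok (nat_lit 9) (nat_lit 0xbc0001780002fdc72) (.hit (nat_lit 17) (nat_lit 20) (nat_lit 0xbc0001780002fc732) b20691 (.hit (nat_lit 18) (nat_lit 28) (nat_lit 0xbc0001780002fdc72) b20692 (.nil))) (.nil)))) (.tok (nat_lit 6) (nat_lit 0xbc0001780002ffd4a) (.hit (nat_lit 9) (nat_lit 0) (nat_lit 0xbc0001780002ffd4a) b20686 (.one (nat_lit 3) (nat_lit 10) (nat_lit 1) (nat_lit 0xbc0001780002ff839) b20687 (.tok (nat_lit 6) (nat_lit 0xbc0001780002fef49) (.hit (nat_lit 12) (nat_lit 7) (nat_lit 0xbc0001780002fee29) b20688 (.hit (nat_lit 13) (nat_lit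 15) (nat_lit 0xbc0001780002fef49) b20689 (.nil))) (.nil)))) (.tok (nat_lit 9) (nat_lit 0xbc000178000300502) (.hit (nat_lit 0) (nat_lit 0) (nat_lit 0xbc0001780002ff47f) b20678 (.one (nat_lit 3) (nat_lit 1) (nat_lit 1) (nat_lit 0xbc0001780002fd2b0) b20679 (.tok (nat_lit 9) (nat_lit 0xbc000178000300502) (.hit (nat_lit 3) (nat_lit 20) (nat_lit 0xbc0001780002fe26c) b20680 (.hit (nat_lit 7) (nat_lit 28) (nat_lit 0xbc0001780002fdea3) b20684 (.tok (nat_lit 67) (nat_lit 0xbc000178000300502) (.hit (nat_lit 4) (nat_lit 21) (nat_lit 0xbc0001780002ff216) b20681 (.hit (nat_lit 8) (nat_lit 29) (nat_lit 0xbc0001780002ffee6) b20685 (.tok (nat_lit 9) (nat_lit 0xbc000178000300502) (.hit (nat_lit 5) (nat_lit 22) (nat_lit 0xbc0001780002ff27d) b20682 (.one (nat_lit 67) (nat_lit 6) (nat_lit 23) (nat_lit 0xbc000178000300502) b20683 (.nil))) (.nil)))) (.nil)))) (.nil)))) (.nil)))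
noncomputable def r21_20 : Rw Blk := .tok (nat_lit 3) (nat_lit 0xbc0001780002ff844) (.hit (nat_lit 0) (nat_lit 0) (nat_lit 0xbc0001780002fee3c) b20695 (.tok (nat_lit 9) (nat_lit 0xbc0001780002ff844) (.hit (nat_lit 1) (nat_lit 20) (nat_lit 0xbc0001780002fdd53) b20696 (.hit (nat_lit 6) (nat_lit 28) (nat_lit 0xbc0001780002fceda) b20701 (.tok (nat_lit 14) (nat_lit 0xbc0001780002fea9f) (.hit (nat_lit 2) (nat_lit 24) (nat_lit 0xbc0001780002fe46c) b20697 (.hit (nat_lit 7) (nat_lit 30) (nat_lit 0xbc0001780002fe569) b20702 (.one (nat_lit 6) (nat_lit 3) (nat_lit 25) (nat_lit 0xbc0001780002fea9f) b20698 (.nil)))) (.tok (nat_lit 68) (nat_lit 0xbc0001780002ff844) (.hit (nat_lit 4) (nat_lit 26) (nat_lit 0xbc0001780002ff058) b20699 (.hit (nat_lit 8) (nat_lit 32) (nat_lit 0xbc0001780002fe1e1) b20703 (.one (nat_lit 9) (nat_lit 5) (nat_lit 27) (nat_lit 0xbc0001780002ff844) b20700 (.nil)))) (.nil)))))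 (.nil))) (.tok (nat_lit 6) (nat_lit 0xbc000178000303a50) (.hit (nat_lit 20) (nat_lit 0) (nat_lit 0xbc0001780002fee62) b20704 (.tok (nat_lit 6) (nat_lit 0xbc000178000303a50) (.hit (nat_lit 21) (nat_lit 7) (nat_lit 0xbc0001780002fee69) b20705 (.hit (nat_lit 26) (nat_lit 15) (nat_lit 0xbc0001780002fd071) b20710 (.tok (nat_lit 14) (nat_lit 0xbc000178000303a50) (.hit (nat_lit 22) (nat_lit 11) (nat_lit 0xbc000178000303a50) b20706 (.hit (nat_lit 27) (nat_lit 17) (nat_lit 0xbc0001780002feff3) b20711 (.one (nat_lit 9) (nat_lit 23) (nat_lit 12) (nat_lit 0xbc00017800030344c) b20707 (.nil)))) (.tok (nat_lit 56) (nat_lit 0xbc000178000300f5a) (.hit (nat_lit 24) (nat_lit 13) (nat_lit 0xbc000178000300f5a) b20708 (.hit (nat_lit 29) (nat_lit 19) (nat_lit 0xbc0001780002fee87) b20712 (.one (nat_lit 6) (nat_lit 25) (nat_lit 14) (nat_lit 0xbc0001780002ff565) b20709 (.nil)))) (.nil))))) (.nil))) (.nil))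
noncomputable def r21_21 : Rw Blk := .tok (nat_lit 14) (nat_lit 0x5e0000bc00017f64aafea70) (.hit (nat_lit 134) (nat_lit 0) (nat_lit 0x5e0000bc00017f0da2fe05a) b20731 (.one (nat_lit 3) (nat_lit 135) (nat_lit 1) (nat_lit 0x5e0000bc00017d9d0afb17c) b20732 (.tok (nat_lit 6) (nat_lit 0x5e0000bc00017f64aafea70) (.hit (nat_lit 136) (nat_lit 7) (nat_lit 0x5e0000bc00017f0ea2fdfaf) b20735 (.hit (nat_lit 137) (nat_lit 15) (nat_lit 0x5e0000bc00017f64aafea70) b20736 (.nil))) (.tok (nat_lit 9) (nat_lit 0x5e0000bc00017efbfafdd5a) (.hit (nat_lit 138) (nat_lit 20) (nat_lit 0x5e0000bc00017ec0a2fd5ef) b20733 (.hit (nat_lit 139) (nat_lit 28) (nat_lit 0x5e0000bc00017efbfafdd5a) b20734 (.nil))) (.nil))))) (.tok (nat_lit 17) (nat_lit 0x5e0000bc00017f9122ff4b7) (.hit (nat_lit 140) (nat_lit 0) (nat_lit 0x5e0000bc00017f9122ff4b7) b20725 (.one (nat_lit 3) (nat_lit 141) (nat_lit 1) (nat_lit 0x5e0000bc00017e1862fc0e7)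 b20726 (.tok (nat_lit 6) (nat_lit 0x5e0000bc00017f3822fe4df) (.hit (nat_lit 142) (nat_lit 7) (nat_lit 0x5e0000bc00017f1f42fe1c3) b20729 (.hit (nat_lit 143) (nat_lit 15) (nat_lit 0x5e0000bc00017f3822fe4df) b20730 (.nil))) (.tok (nat_lit 9) (nat_lit 0x5e0000bc00017f8fcafefd4) (.hit (nat_lit 144) (nat_lit 20) (nat_lit 0x5e0000bc00017e9fb2fd1d1) b20727 (.hit (nat_lit 145) (nat_lit 28) (nat_lit 0x5e0000bc00017f8fcafefd4) b20728 (.nil))) (.nil))))) (.tok (nat_lit 20) (nat_lit 0x5e0000bc00017fdd0aff930) (.hit (nat_lit 128) (nat_lit 0) (nat_lit 0x5e0000bc00017fbf4aff5ef) b20719 (.one (nat_lit 3) (nat_lit 129) (nat_lit 1) (nat_lit 0x5e0000bc00017f841aff326) b20720 (.tok (nat_lit 6) (nat_lit 0x5e0000bc00017fdd0aff930) (.hit (nat_lit 130) (nat_lit 7) (nat_lit 0x5e0000bc00017f108afdfec) b20723 (.hit (nat_lit 131) (nat_lit 15) (nat_lit 0x5e0000bc00017fdd0aff930) b20724 (.nil))) (.tok (nat_lit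 9) (nat_lit 0x5e0000bc00017fac62ff717) (.hit (nat_lit 132) (nat_lit 20) (nat_lit 0x5e0000bc00017fa422ff6b3) b20721 (.hit (nat_lit 133) (nat_lit 28) (nat_lit 0x5e0000bc00017fac62ff717) b20722 (.nil))) (.nil))))) (.tok (nat_lit 23) (nat_lit 0x5e0000bc00017feec300000) (.hit (nat_lit 122) (nat_lit 0) (nat_lit 0x5e0000bc00017fc36b00000) b20713 (.one (nat_lit 3) (nat_lit 123) (nat_lit 1) (nat_lit 0x5e0000bc00017f4402fefc9) b20714 (.tok (nat_lit 6) (nat_lit 0x5e0000bc00017fd7a2ffa12) (.hit (nat_lit 124) (nat_lit 7) (nat_lit 0x5e0000bc00017fca7affa12) b20717 (.hit (nat_lit 125) (nat_lit 15) (nat_lit 0x5e0000bc00017fd7a2ff893) b20718 (.nil))) (.tok (nat_lit 9) (nat_lit 0x5e0000bc00017feec2ff498) (.hit (nat_lit 126) (nat_lit 20) (nat_lit 0x5e0000bc00017eeb8afdb4c) b20715 (.hit (nat_lit 127) (nat_lit 28) (nat_lit 0x5e0000bc00017feec2ff498) b20716 (.nil))) (.nil))))) (.tok (nat_lit 26) (nat_lit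 0x5e0000bc0001800002ff562) (.hit (nat_lit 215) (nat_lit 0) (nat_lit 0x5e0000bc0001800002ff562) b20780 (.one (nat_lit 3) (nat_lit 216) (nat_lit 1) (nat_lit 0x5e0000bc00017e5b92fc94d) b20781 (.tok (nat_lit 6) (nat_lit 0x5e0000bc00017f3d7afe58a) (.hit (nat_lit 217) (nat_lit 7) (nat_lit 0x5e0000bc00017e88f2fcef9) b20784 (.hit (nat_lit 218) (nat_lit 15) (nat_lit 0x5e0000bc00017f3d7afe58a) b20785 (.nil))) (.tok (nat_lit 9) (nat_lit 0x5e0000bc00017f24fafe27a) (.hit (nat_lit 219) (nat_lit 20) (nat_lit 0x5e0000bc00017f24fafe27a) b20782 (.hit (nat_lit 220) (nat_lit 28) (nat_lit 0x5e0000bc00017eb252fd425) b20783 (.nil))) (.nil))))) (.tok (nat_lit 29) (nat_lit 0x5e0000bc00017f5cdafe916) (.hit (nat_lit 221) (nat_lit 0) (nat_lit 0x5e0000bc00017f5cdafe635) b20786 (.one (nat_lit 3) (nat_lit 222) (nat_lit 1) (nat_lit 0x5e0000bc00017e42a2fc62f) b20787 (.tok (nat_lit 6) (nat_lit 0x5e0000bc00017f507afe7ea)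 (.hit (nat_lit 223) (nat_lit 7) (nat_lit 0x5e0000bc00017edd22fd97f) b20790 (.hit (nat_lit 224) (nat_lit 15) (nat_lit 0x5e0000bc00017f507afe7ea) b20791 (.nil))) (.tok (nat_lit 9) (nat_lit 0x5e0000bc00017f59dafe916) (.hit (nat_lit 225) (nat_lit 20) (nat_lit 0x5e0000bc00017f11a2fe00f) b20788 (.hit (nat_lit 226) (nat_lit 28) (nat_lit 0x5e0000bc00017f59dafe916) b20789 (.nil))) (.nil))))) (.tok (nat_lit 32) (nat_lit 0x5e0000bc00017f7e42feda3) (.hit (nat_lit 233) (nat_lit 0) (nat_lit 0x5e0000bc00017f7e42feda3) b20797 (.one (nat_lit 3) (nat_lit 234) (nat_lit 1) (nat_lit 0x5e0000bc00017e366afc4a8) b20750 (.tok (nat_lit 6) (nat_lit 0x5e0000bc00017f48e2fe6f7) (.hit (nat_lit 235) (nat_lit 7) (nat_lit 0x5e0000bc00017f0e02fdf9b) b20800 (.hit (nat_lit 236) (nat_lit 15) (nat_lit 0x5e0000bc00017f48e2fe6f7) b20801 (.nil))) (.tok (nat_lit 9) (nat_lit 0x5e0000bc00017ef52afdc80) (.hit (nat_lit 237)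 (nat_lit 20) (nat_lit 0x5e0000bc00017ef52afdc80) b20798 (.hit (nat_lit 238) (nat_lit 28) (nat_lit 0x5e0000bc00017e4bbafc752) b20799 (.nil))) (.nil))))) (.tok (nat_lit 35) (nat_lit 0x5e0000bc00017f9a4afeab1) (.hit (nat_lit 227) (nat_lit 0) (nat_lit 0x5e0000bc00017f9a4afeab1) b20792 (.one (nat_lit 3) (nat_lit 228) (nat_lit 1) (nat_lit 0x5e0000bc00017e366afc4a8) b20750 (.tok (nat_lit 6) (nat_lit 0x5e0000bc00017f1022fdfdf) (.hit (nat_lit 229) (nat_lit 7) (nat_lit 0x5e0000bc00017f1022fdfdf) b20795 (.hit (nat_lit 230) (nat_lit 15) (nat_lit 0x5e0000bc00017e57fafc8da) b20796 (.nil))) (.tok (nat_lit 9) (nat_lit 0x5e0000bc00017f5982fe90b) (.hit (nat_lit 231) (nat_lit 20) (nat_lit 0x5e0000bc00017e889afceee) b20793 (.hit (nat_lit 232) (nat_lit 28) (nat_lit 0x5e0000bc00017f5982fe90b) b20794 (.nil))) (.nil))))) (.tok (nat_lit 50) (nat_lit 0x5e0000bc00017fc572ff689) (.hit (nat_lit 170) (nat_lit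 0) (nat_lit 0x5e0000bc00017f468afe854) b20760 (.one (nat_lit 3) (nat_lit 171) (nat_lit 1) (nat_lit 0x5e0000bc00017e5f02fc9bb) b20761 (.tok (nat_lit 6) (nat_lit 0x5e0000bc00017fc572ff689) (.hit (nat_lit 172) (nat_lit 7) (nat_lit 0x5e0000bc00017fc572ff689) b20764 (.hit (nat_lit 173) (nat_lit 15) (nat_lit 0x5e0000bc00017e8f82fcfcb) b20765 (.nil))) (.tok (nat_lit 9) (nat_lit 0x5e0000bc00017eb40afd45c) (.hit (nat_lit 174) (nat_lit 20) (nat_lit 0x5e0000bc00017eb40afd45c) b20762 (.hit (nat_lit 175) (nat_lit 28) (nat_lit 0x5e0000bc00017e8342fce43) b20763 (.nil))) (.nil))))) (.tok (nat_lit 53) (nat_lit 0x5e0000bc00017ff222ffa76) (.hit (nat_lit 181) (nat_lit 0) (nat_lit 0x5e0000bc00017fc9a2ff6c2) b20766 (.one (nat_lit 3) (nat_lit 182) (nat_lit 1) (nat_lit 0x5e0000bc00017f81d2feaca) b20767 (.tok (nat_lit 6) (nat_lit 0x5e0000bc00017fbd52ff5e4) (.hit (nat_lit 183) (nat_lit 7) (nat_lit 0x5e0000bc00017fbd52ff5e4)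 b20770 (.hit (nat_lit 184) (nat_lit 15) (nat_lit 0x5e0000bc00017f9592ff08d) b20771 (.nil))) (.tok (nat_lit 9) (nat_lit 0x5e0000bc00017ff222ffa76) (.hit (nat_lit 185) (nat_lit 20) (nat_lit 0x5e0000bc00017f3cf2fe579) b20768 (.hit (nat_lit 186) (nat_lit 28) (nat_lit 0x5e0000bc00017ff222ffa76) b20769 (.nil))) (.nil))))) (.tok (nat_lit 56) (nat_lit 0x5e0000bc00017f78cafecf4) (.hit (nat_lit 195) (nat_lit 0) (nat_lit 0x5e0000bc00017f78cafecf4) b20778 (.one (nat_lit 3) (nat_lit 196) (nat_lit 1) (nat_lit 0x5e0000bc00017e366afc4a8) b20750 (.tok (nat_lit 6) (nat_lit 0x5e0000bc00017f0ea2fdfaf) (.hit (nat_lit 197) (nat_lit 7) (nat_lit 0x5e0000bc00017f0ea2fdfaf) b20735 (.hit (nat_lit 198) (nat_lit 15) (nat_lit 0x5e0000bc00017e41dafc616) b20757 (.nil))) (.tok (nat_lit 9) (nat_lit 0x5e0000bc00017f6e82febab) (.hit (nat_lit 199) (nat_lit 20) (nat_lit 0x5e0000bc00017f10bafdff2) b20758 (.hit (nat_lit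 200) (nat_lit 28) (nat_lit 0x5e0000bc00017f6e82febab) b20779 (.nil))) (.nil))))) (.tok (nat_lit 59) (nat_lit 0x5e0000bc00017ffd1affd7e) (.hit (nat_lit 209) (nat_lit 0) (nat_lit 0x5e0000bc00017f92cafe85b) b20772 (.one (nat_lit 3) (nat_lit 210) (nat_lit 1) (nat_lit 0x5e0000bc00017e9932fd101) b20773 (.tok (nat_lit 6) (nat_lit 0x5e0000bc00017f78b2fecf1) (.hit (nat_lit 211) (nat_lit 7) (nat_lit 0x5e0000bc00017f4f72fe7c9) b20776 (.hit (nat_lit 212) (nat_lit 15) (nat_lit 0x5e0000bc00017f78b2fecf1) b20777 (.nil))) (.tok (nat_lit 9) (nat_lit 0x5e0000bc00017ffd1affd7e) (.hit (nat_lit 213) (nat_lit 20) (nat_lit 0x5e0000bc00017ffd1affd7e) b20774 (.hit (nat_lit 214) (nat_lit 28) (nat_lit 0x5e0000bc00017e19c2fc113) b20775 (.nil))) (.nil))))) (.tok (nat_lit 62) (nat_lit 0x5e0000bc00017f6f8afeef6) (.hit (nat_lit 146) (nat_lit 0) (nat_lit 0x5e0000bc00017f6f8afeef6) b20737 (.one (nat_lit 3) (nat_lit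 147) (nat_lit 1) (nat_lit 0x5e0000bc00017e390afc4fc) b20738 (.tok (nat_lit 6) (nat_lit 0x5e0000bc00017e87b2fced1) (.hit (nat_lit 148) (nat_lit 7) (nat_lit 0x5e0000bc00017e87b2fced1) b20741 (.hit (nat_lit 149) (nat_lit 15) (nat_lit 0x5e0000bc00017e67d2fcad5) b20742 (.nil))) (.tok (nat_lit 9) (nat_lit 0x5e0000bc00017ee8cafdaf4) (.hit (nat_lit 150) (nat_lit 20) (nat_lit 0x5e0000bc00017ee8cafdaf4) b20739 (.hit (nat_lit 151) (nat_lit 28) (nat_lit 0x5e0000bc00017e7962fcd07) b20740 (.nil))) (.nil))))) (.tok (nat_lit 65) (nat_lit 0x5e0000bc00017fcbd2fffd0) (.hit (nat_lit 152) (nat_lit 0) (nat_lit 0x5e0000bc00017fa9c2ffa1e) b20743 (.one (nat_lit 3) (nat_lit 153) (nat_lit 1) (nat_lit 0x5e0000bc00017f7b32ff11e) b20744 (.tok (nat_lit 6) (nat_lit 0x5e0000bc00017fadfaff6ac) (.hit (nat_lit 154) (nat_lit 7) (nat_lit 0x5e0000bc00017f4872fe6e9) b20747 (.hit (nat_lit 155) (nat_lit 15) (nat_lit 0x5e0000bc00017fadfaff6ac)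 b20748 (.nil))) (.tok (nat_lit 9) (nat_lit 0x5e0000bc00017fcbd2fffd0) (.hit (nat_lit 156) (nat_lit 20) (nat_lit 0x5e0000bc00017fcbd2fffd0) b20745 (.hit (nat_lit 157) (nat_lit 28) (nat_lit 0x5e0000bc00017fbfa2ffb02) b20746 (.nil))) (.nil))))) (.tok (nat_lit 68) (nat_lit 0x5e0000bc00017f57bafe8d2) (.hit (nat_lit 158) (nat_lit 0) (nat_lit 0x5e0000bc00017f41c2fe804) b20755 (.one (nat_lit 3) (nat_lit 159) (nat_lit 1) (nat_lit 0x5e0000bc00017e366afc4a8) b20750 (.tok (nat_lit 6) (nat_lit 0x5e0000bc00017f57bafe8d2) (.hit (nat_lit 160) (nat_lit 7) (nat_lit 0x5e0000bc00017f10bafdff2) b20758 (.hit (nat_lit 161) (nat_lit 15) (nat_lit 0x5e0000bc00017f57bafe8d2) b20759 (.nil))) (.tok (nat_lit 9) (nat_lit 0x5e0000bc00017ef312fdc3d) (.hit (nat_lit 162) (nat_lit 20) (nat_lit 0x5e0000bc00017ef312fdc3d) b20756 (.hit (nat_lit 163) (nat_lit 28) (nat_lit 0x5e0000bc00017e41dafc616) b20757 (.nil))) (.nil)))))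 (.tok (nat_lit 71) (nat_lit 0x5e0000bc00017f9c02ff4d0) (.hit (nat_lit 164) (nat_lit 0) (nat_lit 0x5e0000bc00017f9c02ff4d0) b20749 (.one (nat_lit 3) (nat_lit 165) (nat_lit 1) (nat_lit 0x5e0000bc00017e366afc4a8) b20750 (.tok (nat_lit 6) (nat_lit 0x5e0000bc00017ee4fafda7a) (.hit (nat_lit 166) (nat_lit 7) (nat_lit 0x5e0000bc00017ee4fafda7a) b20753 (.hit (nat_lit 167) (nat_lit 15) (nat_lit 0x5e0000bc00017e8372fce49) b20754 (.nil))) (.tok (nat_lit 9) (nat_lit 0x5e0000bc00017f00c2fddf3) (.hit (nat_lit 168) (nat_lit 20) (nat_lit 0x5e0000bc00017edb22fd93f) b20751 (.hit (nat_lit 169) (nat_lit 28) (nat_lit 0x5e0000bc00017f00c2fddf3) b20752 (.nil))) (.nil))))) (.nil))))))))))))))))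
noncomputable def r21_22 : Rw Blk := .tok (nat_lit 3) (nat_lit 0x5e0000bc00017eff1afe3e4) (.hit (nat_lit 18) (nat_lit 0) (nat_lit 0x5e0000bc00017eff1afe3e4) b20818 (.tok (nat_lit 6) (nat_lit 0x5e0000bc00017e7b6afcb6f) (.hit (nat_lit 19) (nat_lit 7) (nat_lit 0x5e0000bc00017e7b6afcb6f) b20821 (.hit (nat_lit 20) (nat_lit 15) (nat_lit 0x5e0000bc00017e722afca47) b20822 (.nil))) (.tok (nat_lit 9) (nat_lit 0x5e0000bc00017ea132fd028) (.hit (nat_lit 21) (nat_lit 20) (nat_lit 0x5e0000bc00017e7e7afcbd1) b20819 (.hit (nat_lit 22) (nat_lit 28) (nat_lit 0x5e0000bc00017ea132fd028) b20820 (.nil))) (.nil)))) (.tok (nat_lit 6) (nat_lit 0x5e0000bc000180000300165) (.hit (nat_lit 0) (nat_lit 0) (nat_lit 0x5e0000bc00017f52cafe86c) b20802 (.one (nat_lit 3) (nat_lit 1) (nat_lit 1) (nat_lit 0x5e0000bc00017e99c2fd684) b20803 (.tok (nat_lit 6) (nat_lit 0x5e0000bc000180000300165) (.hit (nat_lit 3) (nat_lit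 7) (nat_lit 0x5e0000bc00017f6662feade) b20804 (.hit (nat_lit 7) (nat_lit 15) (nat_lit 0x5e0000bc00017edb2afd96a) b20808 (.tok (nat_lit 55) (nat_lit 0x5e0000bc000180000300165) (.hit (nat_lit 4) (nat_lit 8) (nat_lit 0x5e0000bc00017fdc9300165) b20805 (.hit (nat_lit 8) (nat_lit 16) (nat_lit 0x5e0000bc00017f87c2feeef) b20809 (.tok (nat_lit 6) (nat_lit 0x5e0000bc0001800002ffda2) (.hit (nat_lit 5) (nat_lit 9) (nat_lit 0x5e0000bc00017fcd7aff769) b20806 (.one (nat_lit 55) (nat_lit 6) (nat_lit 10) (nat_lit 0x5e0000bc0001800002ffda2) b20807 (.nil))) (.nil)))) (.nil)))) (.nil)))) (.tok (nat_lit 9) (nat_lit 0x5e0000bc00017fc832ffa8e) (.hit (nat_lit 9) (nat_lit 0) (nat_lit 0x5e0000bc00017effb2ff1fd) b20810 (.one (nat_lit 3) (nat_lit 10) (nat_lit 1) (nat_lit 0x5e0000bc00017ed3fafe39e) b20811 (.tok (nat_lit 9) (nat_lit 0x5e0000bc00017fc832ffa8e) (.hit (nat_lit 12) (nat_lit 20) (nat_lit 0x5e0000bc00017ea032fd3e9)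 b20812 (.hit (nat_lit 16) (nat_lit 28) (nat_lit 0x5e0000bc00017ed4e2fe60e) b20816 (.tok (nat_lit 67) (nat_lit 0x5e0000bc00017fc832ffa8e) (.hit (nat_lit 13) (nat_lit 21) (nat_lit 0x5e0000bc00017fc2f2ffa8e) b20813 (.hit (nat_lit 17) (nat_lit 29) (nat_lit 0x5e0000bc00017fad4aff6f3) b20817 (.tok (nat_lit 9) (nat_lit 0x5e0000bc00017fc832ff9a6) (.hit (nat_lit 14) (nat_lit 22) (nat_lit 0x5e0000bc00017f828afea22) b20814 (.one (nat_lit 67) (nat_lit 15) (nat_lit 23) (nat_lit 0x5e0000bc00017fc832ff9a6) b20815 (.nil))) (.nil)))) (.nil)))) (.nil)))) (.nil)))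
noncomputable def r21_23 : Rw Blk := .tok (nat_lit 3) (nat_lit 0x5e0000bc00017f07d2fe630) (.hit (nat_lit 14) (nat_lit 0) (nat_lit 0x5e0000bc00017f07d2fe630) b20835 (.tok (nat_lit 6) (nat_lit 0x5e0000bc00017e4112fca44) (.hit (nat_lit 15) (nat_lit 7) (nat_lit 0x5e0000bc00017e159afc4d5) b20838 (.hit (nat_lit 16) (nat_lit 15) (nat_lit 0x5e0000bc00017e4112fca44) b20839 (.nil))) (.tok (nat_lit 9) (nat_lit 0x5e0000bc00017e92cafd47b) (.hit (nat_lit 17) (nat_lit 20) (nat_lit 0x5e0000bc00017e92cafd47b) b20836 (.hit (nat_lit 18) (nat_lit 28) (nat_lit 0x5e0000bc00017e7762fd10e) b20837 (.nil))) (.nil)))) (.tok (nat_lit 6) (nat_lit 0x5e0000bc00017f766aff051) (.hit (nat_lit 0) (nat_lit 0) (nat_lit 0x5e0000bc00017f766aff051) b20823 (.one (nat_lit 3) (nat_lit 1) (nat_lit 1) (nat_lit 0x5e0000bc00017e8362fd28e) b20824 (.tok (nat_lit 6) (nat_lit 0x5e0000bc00017f7062ff02e) (.hit (nat_lit 3) (nat_lit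 7) (nat_lit 0x5e0000bc00017e5fb2fce18) b20825 (.hit (nat_lit 7) (nat_lit 15) (nat_lit 0x5e0000bc00017e8a92fd374) b20829 (.tok (nat_lit 55) (nat_lit 0x5e0000bc00017f7062ff02e) (.hit (nat_lit 4) (nat_lit 8) (nat_lit 0x5e0000bc00017f1ac2fe57a) b20826 (.hit (nat_lit 8) (nat_lit 16) (nat_lit 0x5e0000bc00017f7062ff02e) b20830 (.tok (nat_lit 6) (nat_lit 0x5e0000bc00017f6c7afefb1) (.hit (nat_lit 5) (nat_lit 9) (nat_lit 0x5e0000bc00017ef05afe02d) b20827 (.one (nat_lit 55) (nat_lit 6) (nat_lit 10) (nat_lit 0x5e0000bc00017f6c7afefb1) b20828 (.nil))) (.nil)))) (.nil)))) (.nil)))) (.tok (nat_lit 9) (nat_lit 0x5e0000bc000180000300000) (.hit (nat_lit 9) (nat_lit 0) (nat_lit 0x5e0000bc00017fa9caffeae) b20831 (.one (nat_lit 3) (nat_lit 10) (nat_lit 1) (nat_lit 0x5e0000bc00017faadb00000) b20832 (.tok (nat_lit 9) (nat_lit 0x5e0000bc0001800002ff5be) (.hit (nat_lit 12) (nat_lit 20) (nat_lit 0x5e0000bc0001800002ff5be)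 b20833 (.hit (nat_lit 13) (nat_lit 28) (nat_lit 0x5e0000bc00017f6732fef64) b20834 (.nil))) (.nil)))) (.nil)))
noncomputable def r21_24 : Rw Blk := .tok (nat_lit 3) (nat_lit 0x5e0000bc00017f1992fe6ee) (.hit (nat_lit 14) (nat_lit 0) (nat_lit 0x5e0000bc00017f1992fe6ee) b20852 (.tok (nat_lit 6) (nat_lit 0x5e0000bc00017eac5afe09d) (.hit (nat_lit 15) (nat_lit 7) (nat_lit 0x5e0000bc00017eac5afe09d) b20855 (.hit (nat_lit 16) (nat_lit 15) (nat_lit 0x5e0000bc00017e803afdb19) b20856 (.nil))) (.tok (nat_lit 9) (nat_lit 0x5e0000bc00017e853afdbb9) (.hit (nat_lit 17) (nat_lit 20) (nat_lit 0x5e0000bc00017e853afdbb9) b20853 (.hit (nat_lit 18) (nat_lit 28) (nat_lit 0x5e0000bc00017d544afb59b) b20854 (.nil))) (.nil)))) (.tok (nat_lit 6) (nat_lit 0x5e0000bc0001800002ffa44) (.hit (nat_lit 9) (nat_lit 0) (nat_lit 0x5e0000bc0001800002ff235) b20848 (.one (nat_lit 3) (nat_lit 10) (nat_lit 1) (nat_lit 0x5e0000bc00017ed272fe0e0)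 b20849 (.tok (nat_lit 6) (nat_lit 0x5e0000bc00017f9612ffa44) (.hit (nat_lit 12) (nat_lit 7) (nat_lit 0x5e0000bc00017f9612ffa44) b20850 (.hit (nat_lit 13) (nat_lit 15) (nat_lit 0x5e0000bc00017ee83afe362) b20851 (.nil))) (.nil)))) (.tok (nat_lit 9) (nat_lit 0x5e0000bc00017fb61b001d5) (.hit (nat_lit 0) (nat_lit 0) (nat_lit 0x5e0000bc00017f97d2ffbfa) b20840 (.one (nat_lit 3) (nat_lit 1) (nat_lit 1) (nat_lit 0x5e0000bc00017eac9afe0a5) b20841 (.tok (nat_lit 9) (nat_lit 0x5e0000bc00017fb61b001d5) (.hit (nat_lit 3) (nat_lit 20) (nat_lit 0x5e0000bc00017e956afddbf) b20842 (.hit (nat_lit 7) (nat_lit 28) (nat_lit 0x5e0000bc00017e9d2afdeb7) b20846 (.tok (nat_lit 67) (nat_lit 0x5e0000bc00017fb61b001d5) (.hit (nat_lit 4) (nat_lit 21) (nat_lit 0x5e0000bc00017f464aff3db) b20843 (.hit (nat_lit 8) (nat_lit 29) (nat_lit 0x5e0000bc00017f877affc01) b20847 (.tok (nat_lit 9) (nat_lit 0x5e0000bc00017fb61b001d5)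 (.hit (nat_lit 5) (nat_lit 22) (nat_lit 0x5e0000bc00017f4672ff3e0) b20844 (.one (nat_lit 67) (nat_lit 6) (nat_lit 23) (nat_lit 0x5e0000bc00017fb61b001d5) b20845 (.nil))) (.nil)))) (.nil)))) (.nil)))) (.nil)))
noncomputable def r21_25 : Rw Blk := .tok (nat_lit 6) (nat_lit 0x5e0000bc000181b22b048ca) (.hit (nat_lit 10) (nat_lit 0) (nat_lit 0x5e0000bc000180a653024ea) b20866 (.tok (nat_lit 3) (nat_lit 0x5e0000bc00017fd7bb00c01) (.hit (nat_lit 11) (nat_lit 1) (nat_lit 0x5e0000bc00017f55caff4cd) b20867 (.one (nat_lit 56) (nat_lit 13) (nat_lit 6) (nat_lit 0x5e0000bc00017fd7bb00c01) b20868 (.nil))) (.tok (nat_lit 40) (nat_lit 0x5e0000bc00017fbd5b00786) (.hit (nat_lit 14) (nat_lit 33) (nat_lit 0x5e0000bc00017fbd5b000e2) b20869 (.hit (nat_lit 15) (nat_lit 34) (nat_lit 0x5e0000bc00017fb09b00786) b20870 (.nil))) (.tok (nat_lit 43) (nat_lit 0x5e0000bc000181b22b048ca) (.hit (nat_lit 16) (nat_lit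 35) (nat_lit 0x5e0000bc000181b22b048ca) b20873 (.hit (nat_lit 17) (nat_lit 36) (nat_lit 0x5e0000bc00017f359b003b6) b20874 (.nil))) (.tok (nat_lit 46) (nat_lit 0x5e0000bc00018049db021eb) (.hit (nat_lit 18) (nat_lit 37) (nat_lit 0x5e0000bc00017f3b32fe485) b20871 (.hit (nat_lit 19) (nat_lit 38) (nat_lit 0x5e0000bc00018049db021eb) b20872 (.nil))) (.nil)))))) (.tok (nat_lit 9) (nat_lit 0x5e0000bc000180450b00bd7) (.hit (nat_lit 0) (nat_lit 0) (nat_lit 0x5e0000bc000180450b00bd7) b20857 (.tok (nat_lit 3) (nat_lit 0x5e0000bc00017ef16afdb4c) (.hit (nat_lit 1) (nat_lit 1) (nat_lit 0x5e0000bc00017e09cafbe58) b20858 (.one (nat_lit 68) (nat_lit 3) (nat_lit 5) (nat_lit 0x5e0000bc00017ef16afdb4c) b20859 (.nil))) (.tok (nat_lit 40) (nat_lit 0x5e0000bc00017f1732fe005) (.hit (nat_lit 4) (nat_lit 33) (nat_lit 0x5e0000bc00017eeb02fda7f) b20860 (.hit (nat_lit 5) (nat_lit 34) (nat_lit 0x5e0000bc00017f1732fe005)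 b20861 (.nil))) (.tok (nat_lit 43) (nat_lit 0x5e0000bc00017f7352feb89) (.hit (nat_lit 6) (nat_lit 35) (nat_lit 0x5e0000bc00017f7352feb89) b20864 (.hit (nat_lit 7) (nat_lit 36) (nat_lit 0x5e0000bc00017f582afe824) b20865 (.nil))) (.tok (nat_lit 46) (nat_lit 0x5e0000bc00017f7a0afec60) (.hit (nat_lit 8) (nat_lit 37) (nat_lit 0x5e0000bc00017f7a0afec60) b20862 (.hit (nat_lit 9) (nat_lit 38) (nat_lit 0x5e0000bc00017f4d32fe6c5) b20863 (.nil))) (.nil)))))) (.nil))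
noncomputable def r21_26 : Rw Blk := .tok (nat_lit 6) (nat_lit 0x5e0000bc00017fcfbb00eb9) (.hit (nat_lit 10) (nat_lit 0) (nat_lit 0x5e0000bc00017f145affa87) b20884 (.tok (nat_lit 3) (nat_lit 0x5e0000bc00017f0d42ff6f1) (.hit (nat_lit 11) (nat_lit 1) (nat_lit 0x5e0000bc00017e5dd2fdf11) b20885 (.one (nat_lit 56) (nat_lit 13) (nat_lit 6) (nat_lit 0x5e0000bc00017f0d42ff6f1) b20886 (.nil))) (.tok (nat_lit 40) (nat_lit 0x5e0000bc00017f1ee2ff9a4) (.hit (nat_lit 14) (nat_lit 33) (nat_lit 0x5e0000bc00017f1ee2ff9a4) b20887 (.hit (nat_lit 15) (nat_lit 34) (nat_lit 0x5e0000bc00017eeebaff8f9) b20888 (.nil))) (.tok (nat_lit 43) (nat_lit 0x5e0000bc00017fcfbb00eb7) (.hit (nat_lit 16) (nat_lit 35) (nat_lit 0x5e0000bc00017fcfbb00eb7) b20891 (.hit (nat_lit 17) (nat_lit 36) (nat_lit 0x5e0000bc00017ec92aff4ff) b20892 (.nil))) (.tok (nat_lit 46) (nat_lit 0x5e0000bc00017fac5300eb9) (.hit (nat_lit 18)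 (nat_lit 37) (nat_lit 0x5e0000bc00017e8e3afd979) b20889 (.hit (nat_lit 19) (nat_lit 38) (nat_lit 0x5e0000bc00017fac5300eb9) b20890 (.nil))) (.nil)))))) (.tok (nat_lit 9) (nat_lit 0x5e0000bc000180295b00bf8) (.hit (nat_lit 0) (nat_lit 0) (nat_lit 0x5e0000bc00017fd072fffac) b20875 (.tok (nat_lit 3) (nat_lit 0x5e0000bc00017f58fafef94) (.hit (nat_lit 1) (nat_lit 1) (nat_lit 0x5e0000bc00017e919afd8f7) b20876 (.one (nat_lit 68) (nat_lit 3) (nat_lit 5) (nat_lit 0x5e0000bc00017f58fafef94) b20877 (.nil))) (.tok (nat_lit 40) (nat_lit 0x5e0000bc00017f9f1affbf8) (.hit (nat_lit 4) (nat_lit 33) (nat_lit 0x5e0000bc00017f7d22ff63f) b20878 (.hit (nat_lit 5) (nat_lit 34) (nat_lit 0x5e0000bc00017f9f1affbf8) b20879 (.nil))) (.tok (nat_lit 43) (nat_lit 0x5e0000bc000180295b00bf8) (.hit (nat_lit 6) (nat_lit 35) (nat_lit 0x5e0000bc00017f0fcafe9ab) b20882 (.hit (nat_lit 7) (nat_lit 36) (nat_lit 0x5e0000bc000180295b00bf8)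 b20883 (.nil))) (.tok (nat_lit 46) (nat_lit 0x5e0000bc00017ff8c30045b) (.hit (nat_lit 8) (nat_lit 37) (nat_lit 0x5e0000bc00017ff8c30045b) b20880 (.hit (nat_lit 9) (nat_lit 38) (nat_lit 0x5e0000bc00017f47cafef4d) b20881 (.nil))) (.nil)))))) (.nil))
noncomputable def r21_27 : Rw Blk := .tok (nat_lit 3) (nat_lit 0x300e9b60136cc058d5803c9300cdc60069ebfdd317fcd5affe62) (.hit (nat_lit 15) (nat_lit 0) (nat_lit 0x2fe2805fd320bfd7b57f10a2fe9115fd7c8bf858d7f3b62fe560) b20904 (.tok (nat_lit 9) (nat_lit 0x2fe3ac5fca88bfebe97ed152fdda35fe776bf3fa17e798afdfb0) (.hit (nat_lit 16) (nat_lit 20) (nat_lit 0x2fc82e5faf7ebf6a257df562fc2255fb7babed1a97d9d9afc432) b20905 (.hit (nat_lit 21) (nat_lit 28) (nat_lit 0x2facb55f95e0bf2a697d199afa6ac5fa230be63c57cc1d2fa8b9) b20908 (.one (nat_lit 56) (nat_lit 23) (nat_lit 31) (nat_lit 0x2fde385fca88bf8a3d7ea5b2fd82f5fc2ecbf29d17e4deafda3c) b20909 (.tok (nat_lit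 68) (nat_lit 0x2fe3ac5fc440bfebe97ed152fdda35fe776bf3fa17e798afdfb0) (.hit (nat_lit 19) (nat_lit 26) (nat_lit 0x2fd07e5fbd94bf85897e37e2fca755fda40bef2e97de01afcc82) b20906 (.hit (nat_lit 24) (nat_lit 32) (nat_lit 0x2fcd825fb180bf6a097e2002fc7795fc196bee6f97dc83afc986) b20910 (.one (nat_lit 9) (nat_lit 20) (nat_lit 27) (nat_lit 0x2fe3ac5fc440bfebe97ed152fdda35fe776bf3fa17e798afdfb0) b20907 (.nil)))) (.nil))))) (.tok (nat_lit 64) (nat_lit 0x2fdd785fe046bfca817e9fb2fd76f5fc7fcbf26d17e47eafd97c) (.hit (nat_lit 25) (nat_lit 50) (nat_lit 0x2fdb7a5fb6febf94bd7e8fc2fd5715f9ffebf1ed97e37fafd77e) b20911 (.hit (nat_lit 26) (nat_lit 51) (nat_lit 0x2fdd785fe046bfca817e9fb2fd76f5fc7fcbf26d17e47eafd97c) b20912 (.nil))) (.tok (nat_lit 67) (nat_lit 0x300e9b60136cc058d5803c9300cdc60069ebfdd317fcd5affe62) (.hit (nat_lit 27) (nat_lit 52) (nat_lit 0x300e9b60136cc057bd803c9300cdc60069ebfdd317fcd5affe62)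 b20913 (.one (nat_lit 3) (nat_lit 33) (nat_lit 58) (nat_lit 0x2fe5a45fd890c014f17ee112fdf9b5fdce6bf47817e894afe1a8) b20919 (.tok (nat_lit 9) (nat_lit 0x2fe4c25fec30c058d57eda02fdeb95fdb26bf43f97e823afe0c6) (.hit (nat_lit 28) (nat_lit 53) (nat_lit 0x2fdef55fc774bfde917eab9afd8ec5fd154bf2cc57e53d2fdaf9) b20914 (.hit (nat_lit 31) (nat_lit 56) (nat_lit 0x2fe39d5fdf7ebff3997ed0dafdd945fdb26bf3f657e7912fdfa1) b20917 (.tok (nat_lit 67) (nat_lit 0x2fe4c25fec30c058d57eda02fdeb95fd194bf43f97e823afe0c6) (.hit (nat_lit 29) (nat_lit 54) (nat_lit 0x2fe22a5fcf20c0000d7ec542fdc215fc7d2bf39997e6d7afde2e) b20915 (.hit (nat_lit 32) (nat_lit 57) (nat_lit 0x2fe4c25fec30c058d57eda02fdeb95fd194bf43f97e823afe0c6) b20918 (.one (nat_lit 9) (nat_lit 30) (nat_lit 55) (nat_lit 0x2fdb3e5fbd00bfee717e8de2fd5355faa80bf1de97e361afd742) b20916 (.nil)))) (.nil)))) (.nil)))) (.one (nat_lit 70) (nat_lit 35) (nat_lit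 60) (nat_lit 0x2fe0c15fe63abfce7d7eb9fafdab85fc354bf33f57e6232fdcc5) b20920 (.nil)))))) (.tok (nat_lit 6) (nat_lit 0x302421604532c0c21d80eb9301d2560361ac093ad81578302ef1) (.hit (nat_lit 0) (nat_lit 0) (nat_lit 0x300078603588c0606d7fd5ab00e90602404c02ab58018330078c) b20893 (.tok (nat_lit 6) (nat_lit 0x2ff83a602c38c059e9804c630038f60361ac003b180210b00941) (.hit (nat_lit 1) (nat_lit 7) (nat_lit 0x2ff83a5fb1e8bf8a6d804c630038f5fca10c003b180210b00941) b20894 (.hit (nat_lit 4) (nat_lit 15) (nat_lit 0x2fd2305fb616bf7e757eded2fe33f5fc266bf7e917ee702fdf4f) b20895 (.one (nat_lit 68) (nat_lit 6) (nat_lit 18) (nat_lit 0x2fee93602c38c059e97fc35affd5e60361abfcd517f9142ff6c8) b20896 (.nil)))) (.tok (nat_lit 52) (nat_lit 0x302421602a90c056b580eb9301ba15ff628c082ed81578302ef1) (.hit (nat_lit 7) (nat_lit 39) (nat_lit 0x302421602a90c056b580eb93016bb5fab6ec082ed81578302ef1) b20897 (.hit (nat_lit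 8) (nat_lit 40) (nat_lit 0x3011c160084abff80d805b1b01ba15ff628c0706980d3b3020fb) b20898 (.nil))) (.tok (nat_lit 55) (nat_lit 0x301c94604532c0c21d80e38301d25602326c093ad81040302282) (.hit (nat_lit 9) (nat_lit 41) (nat_lit 0x301c94604532c0c21d80e383016e0602326c066dd80f5eb02248) b20899 (.one (nat_lit 3) (nat_lit 12) (nat_lit 47) (nat_lit 0x3015b35fe93abff4b180399301d255fd044c093ad81040302282) b20902 (.tok (nat_lit 6) (nat_lit 0x300da66013a0c066f98041ab007fb5fe6eec00e0980538300d62) (.hit (nat_lit 10) (nat_lit 42) (nat_lit 0x2ff9846013a0c04ce17fb50afedac5fd2a8bfd6cd800b02ffedf) b20900 (.hit (nat_lit 11) (nat_lit 45) (nat_lit 0x300da65fffbec066f98041ab007fb5fe6eec00e0980538300d62) b20901 (.nil))) (.nil)))) (.one (nat_lit 58) (nat_lit 14) (nat_lit 49) (nat_lit 0x3007016010b4bff2b97fe913016ce5fe98ec055d1806da301300) b20903 (.nil)))))) (.nil))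
noncomputable def r21_28 : Rw Blk := .tok (nat_lit 6) (nat_lit 0xbc000180f26300402) (.hit (nat_lit 18) (nat_lit 0) (nat_lit 0xbc000180553b00402) b20937 (.one (nat_lit 26) (nat_lit 30) (nat_lit 72) (nat_lit 0xbc00017fa5cafe5df) b20938 (.one (nat_lit 29) (nat_lit 31) (nat_lit 73) (nat_lit 0xbc00017fd2f2ff7a0) b20939 (.one (nat_lit 32) (nat_lit 32) (nat_lit 74) (nat_lit 0xbc00017f98eafe2bd) b20941 (.one (nat_lit 35) (nat_lit 33) (nat_lit 75) (nat_lit 0xbc0001800c92ff74a) b20940 (.one (nat_lit 38) (nat_lit 34) (nat_lit 76) (nat_lit 0xbc00017fbf12fe96d) b20942 (.tok (nat_lit 41) (nat_lit 0xbc0001801d63000e1) (.hit (nat_lit 35) (nat_lit 77) (nat_lit 0xbc00017f56fafe3d4) b20943 (.hit (nat_lit 36) (nat_lit 78) (nat_lit 0xbc0001801d63000e1) b20944 (.nil))) (.tok (nat_lit 44) (nat_lit 0xbc00017f9a5affea7) (.hit (nat_lit 37) (nat_lit 79) (nat_lit 0xbc00017f9a5affea7) b20947 (.hit (nat_lit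 38) (nat_lit 80) (nat_lit 0xbc00017f587afea30) b20948 (.nil))) (.tok (nat_lit 47) (nat_lit 0xbc00017fe0faff290) (.hit (nat_lit 39) (nat_lit 81) (nat_lit 0xbc00017efbaafd0e7) b20945 (.hit (nat_lit 40) (nat_lit 82) (nat_lit 0xbc00017fe0faff290) b20946 (.nil))) (.one (nat_lit 62) (nat_lit 41) (nat_lit 92) (nat_lit 0xbc0001801ccaff371) b20949 (.tok (nat_lit 65) (nat_lit 0xbc0001803222ffa28) (.hit (nat_lit 42) (nat_lit 93) (nat_lit 0xbc00017fd10aff45f) b20950 (.hit (nat_lit 43) (nat_lit 94) (nat_lit 0xbc0001803222ffa28) b20951 (.nil))) (.tok (nat_lit 68) (nat_lit 0xbc000180f262ff6f5) (.hit (nat_lit 44) (nat_lit 95) (nat_lit 0xbc000180f262ff6f5) b20952 (.one (nat_lit 3) (nat_lit 48) (nat_lit 99) (nat_lit 0xbc00017f986afe47f) b20956 (.one (nat_lit 6) (nat_lit 45) (nat_lit 96) (nat_lit 0xbc00017f8f3afe359) b20953 (.tok (nat_lit 9) (nat_lit 0xbc00017f732afdfd7) (.hit (nat_lit 46) (nat_lit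 97) (nat_lit 0xbc00017f732afdfd7) b20954 (.hit (nat_lit 47) (nat_lit 98) (nat_lit 0xbc00017f3afafd8d1) b20955 (.nil))) (.nil))))) (.one (nat_lit 71) (nat_lit 49) (nat_lit 100) (nat_lit 0xbc00017fb482fe93f) b20957 (.nil)))))))))))))) (.tok (nat_lit 52) (nat_lit 0xbc000181b9a302d62) (.hit (nat_lit 13) (nat_lit 0) (nat_lit 0xbc00018191e302d62) b20932 (.tok (nat_lit 6) (nat_lit 0xbc000181b9a301cf6) (.hit (nat_lit 14) (nat_lit 7) (nat_lit 0xbc000181765b01852) b20935 (.hit (nat_lit 15) (nat_lit 15) (nat_lit 0xbc000181b9a301cf6) b20936 (.nil))) (.tok (nat_lit 9) (nat_lit 0xbc0001808a32ff7d0) (.hit (nat_lit 16) (nat_lit 20) (nat_lit 0xbc00017faf02fe752) b20933 (.hit (nat_lit 17) (nat_lit 28) (nat_lit 0xbc0001808a32ff7d0) b20934 (.nil))) (.nil)))) (.tok (nat_lit 55) (nat_lit 0xbc0001807c6b00071) (.hit (nat_lit 8) (nat_lit 0) (nat_lit 0xbc0001807c6affdcf) b20928 (.one (nat_lit 3) (nat_lit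 9) (nat_lit 1) (nat_lit 0xbc00017ff202fefb2) b20929 (.tok (nat_lit 6) (nat_lit 0xbc00018077fb00071) (.hit (nat_lit 11) (nat_lit 7) (nat_lit 0xbc00018077fb00071) b20930 (.hit (nat_lit 12) (nat_lit 15) (nat_lit 0xbc00017fd1cafebab) b20931 (.nil))) (.nil)))) (.tok (nat_lit 58) (nat_lit 0xbc000181130301367) (.hit (nat_lit 0) (nat_lit 0) (nat_lit 0xbc000181130300332) b20921 (.one (nat_lit 3) (nat_lit 1) (nat_lit 1) (nat_lit 0xbc000180882b00277) b20922 (.tok (nat_lit 9) (nat_lit 0xbc0001810fab01367) (.hit (nat_lit 3) (nat_lit 20) (nat_lit 0xbc0001806212ffdb4) b20923 (.hit (nat_lit 6) (nat_lit 28) (nat_lit 0xbc00018072a2fffc6) b20926 (.tok (nat_lit 67) (nat_lit 0xbc0001810fab01367) (.hit (nat_lit 4) (nat_lit 21) (nat_lit 0xbc000180cdb300b28) b20924 (.hit (nat_lit 7) (nat_lit 29) (nat_lit 0xbc0001810c23012f6) b20927 (.one (nat_lit 9) (nat_lit 5) (nat_lit 22) (nat_lit 0xbc0001810fab01367)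 b20925 (.nil)))) (.nil)))) (.nil)))) (.nil))))
noncomputable def r21_29 : Rw Blk := .tok (nat_lit 3) (nat_lit 0xbc0001820b1b0340e) (.hit (nat_lit 0) (nat_lit 0) (nat_lit 0xbc0001820b1b0340e) b20958 (.tok (nat_lit 9) (nat_lit 0xbc00018104e3019b4) (.hit (nat_lit 1) (nat_lit 20) (nat_lit 0xbc00017fa9fafefa9) b20959 (.hit (nat_lit 6) (nat_lit 28) (nat_lit 0xbc00017fa232ff780) b20964 (.tok (nat_lit 14) (nat_lit 0xbc00018073a3019b4) (.hit (nat_lit 2) (nat_lit 24) (nat_lit 0xbc0001806aa300f77) b20960 (.hit (nat_lit 7) (nat_lit 30) (nat_lit 0xbc00018073a301356) b20965 (.one (nat_lit 6) (nat_lit 3) (nat_lit 25) (nat_lit 0xbc0001804f2b019b4) b20961 (.nil)))) (.tok (nat_lit 68) (nat_lit 0xbc00018104e301736) (.hit (nat_lit 4) (nat_lit 26) (nat_lit 0xbc0001803013007c2) b20962 (.hit (nat_lit 8) (nat_lit 32) (nat_lit 0xbc00018047f3002dc) b20966 (.one (nat_lit 9) (nat_lit 5) (nat_lit 27) (nat_lit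 0xbc00018104e301736) b20963 (.nil)))) (.nil))))) (.nil))) (.tok (nat_lit 6) (nat_lit 0xbc000182449303f32) (.hit (nat_lit 20) (nat_lit 0) (nat_lit 0xbc000182234b03887) b20967 (.tok (nat_lit 6) (nat_lit 0xbc000182449303f32) (.hit (nat_lit 21) (nat_lit 7) (nat_lit 0xbc0001816ad30269c) b20968 (.hit (nat_lit 24) (nat_lit 15) (nat_lit 0xbc000180f703015e1) b20971 (.tok (nat_lit 14) (nat_lit 0xbc000182449303f32) (.hit (nat_lit 22) (nat_lit 11) (nat_lit 0xbc000181dbd3033b0) b20969 (.hit (nat_lit 25) (nat_lit 17) (nat_lit 0xbc000181abdb029b0) b20972 (.one (nat_lit 9) (nat_lit 23) (nat_lit 12) (nat_lit 0xbc000182449303f32) b20970 (.nil)))) (.nil)))) (.nil))) (.nil))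
noncomputable def r21_30 : Rw Blk := .tok (nat_lit 6) (nat_lit 0xbc000178000307131) (.hit (nat_lit 0) (nat_lit 0) (nat_lit 0xbc000178000302edd) b20973 (.tok (nat_lit 14) (nat_lit 0xbc000178000307131) (.hit (nat_lit 1) (nat_lit 61) (nat_lit 0xbc000178000304726) b20974 (.one (nat_lit 3) (nat_lit 2) (nat_lit 62) (nat_lit 0xbc00017800030365f) b20975 (.tok (nat_lit 6) (nat_lit 0xbc000178000303401) (.hit (nat_lit 5) (nat_lit 65) (nat_lit 0xbc000178000303401) b20976 (.hit (nat_lit 6) (nat_lit 66) (nat_lit 0xbc00017800030191f) b20977 (.nil))) (.tok (nat_lit 9) (nat_lit 0xbc000178000307131) (.hit (nat_lit 3) (nat_lit 63) (nat_lit 0xbc000178000307131) b20978 (.hit (nat_lit 4) (nat_lit 64) (nat_lit 0xbc000178000302f10) b20979 (.nil))) (.nil))))) (.one (nat_lit 17) (nat_lit 7) (nat_lit 67) (nat_lit 0xbc0001780003026b9) b20980 (.tok (nat_lit 20) (nat_lit 0xbc0001780003062c8) (.hit (nat_lit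 8) (nat_lit 68) (nat_lit 0xbc0001780003062c8) b20983 (.hit (nat_lit 9) (nat_lit 69) (nat_lit 0xbc000178000302496) b20984 (.nil))) (.tok (nat_lit 23) (nat_lit 0xbc000178000301f46) (.hit (nat_lit 10) (nat_lit 70) (nat_lit 0xbc000178000301f46) b20981 (.hit (nat_lit 11) (nat_lit 71) (nat_lit 0xbc0001780003019c3) b20982 (.nil))) (.one (nat_lit 38) (nat_lit 12) (nat_lit 76) (nat_lit 0xbc000178000302ea4) b20985 (.tok (nat_lit 41) (nat_lit 0xbc000178000302312) (.hit (nat_lit 13) (nat_lit 77) (nat_lit 0xbc000178000300fae) b20986 (.hit (nat_lit 14) (nat_lit 78) (nat_lit 0xbc000178000302312) b20987 (.nil))) (.tok (nat_lit 44) (nat_lit 0xbc0001780003035b5) (.hit (nat_lit 15) (nat_lit 79) (nat_lit 0xbc0001780003035b5) b20990 (.hit (nat_lit 16) (nat_lit 80) (nat_lit 0xbc000178000301f20) b20991 (.nil))) (.tok (nat_lit 47) (nat_lit 0xbc000178000301bbd) (.hit (nat_lit 17) (nat_lit 81) (nat_lit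 0xbc000178000300fab) b20988 (.hit (nat_lit 18) (nat_lit 82) (nat_lit 0xbc000178000301bbd) b20989 (.nil))) (.nil)))))))))) (.nil)
noncomputable def r21_31 : Rw Blk := .tok (nat_lit 6) (nat_lit 0xbc000178000300787) (.hit (nat_lit 18) (nat_lit 0) (nat_lit 0xbc0001780002fea83) b21008 (.one (nat_lit 26) (nat_lit 30) (nat_lit 72) (nat_lit 0xbc0001780002ff4ef) b21009 (.one (nat_lit 29) (nat_lit 31) (nat_lit 73) (nat_lit 0xbc0001780002ff65b) b21010 (.one (nat_lit 32) (nat_lit 32) (nat_lit 74) (nat_lit 0xbc0001780002fed51) b21012 (.one (nat_lit 35) (nat_lit 33) (nat_lit 75) (nat_lit 0xbc0001780002ffd55) b21011 (.one (nat_lit 38) (nat_lit 34) (nat_lit 76) (nat_lit 0xbc0001780002ff0e0) b21013 (.tok (nat_lit 41) (nat_lit 0xbc0001780002feeab) (.hit (nat_lit 35) (nat_lit 77) (nat_lit 0xbc0001780002fe45b) b21014 (.hit (nat_lit 36) (nat_lit 78) (nat_lit 0xbc0001780002feeab) b21015 (.nil))) (.tok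 (nat_lit 44) (nat_lit 0xbc0001780002fe78b) (.hit (nat_lit 37) (nat_lit 79) (nat_lit 0xbc0001780002fe385) b21018 (.hit (nat_lit 38) (nat_lit 80) (nat_lit 0xbc0001780002fe78b) b21019 (.nil))) (.tok (nat_lit 47) (nat_lit 0xbc0001780002fee9c) (.hit (nat_lit 39) (nat_lit 81) (nat_lit 0xbc0001780002fc825) b21016 (.hit (nat_lit 40) (nat_lit 82) (nat_lit 0xbc0001780002fee9c) b21017 (.nil))) (.one (nat_lit 62) (nat_lit 41) (nat_lit 92) (nat_lit 0xbc0001780002ff7e1) b21020 (.tok (nat_lit 65) (nat_lit 0xbc0001780002ff331) (.hit (nat_lit 42) (nat_lit 93) (nat_lit 0xbc0001780002feb23) b21021 (.hit (nat_lit 43) (nat_lit 94) (nat_lit 0xbc0001780002ff331) b21022 (.nil))) (.tok (nat_lit 68) (nat_lit 0xbc000178000300787) (.hit (nat_lit 44) (nat_lit 95) (nat_lit 0xbc000178000300787) b21023 (.one (nat_lit 3) (nat_lit 48) (nat_lit 99) (nat_lit 0xbc0001780002fe154) b21027 (.one (nat_lit 6) (nat_lit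 45) (nat_lit 96) (nat_lit 0xbc0001780002fed7e) b21024 (.tok (nat_lit 9) (nat_lit 0xbc0001780002fedea) (.hit (nat_lit 46) (nat_lit 97) (nat_lit 0xbc0001780002fedea) b21025 (.hit (nat_lit 47) (nat_lit 98) (nat_lit 0xbc0001780002fd485) b21026 (.nil))) (.nil))))) (.one (nat_lit 71) (nat_lit 49) (nat_lit 100) (nat_lit 0xbc0001780002feec8) b21028 (.nil)))))))))))))) (.tok (nat_lit 52) (nat_lit 0xbc000178000303181) (.hit (nat_lit 13) (nat_lit 0) (nat_lit 0xbc00017800030226b) b21003 (.tok (nat_lit 6) (nat_lit 0xbc000178000303181) (.hit (nat_lit 14) (nat_lit 7) (nat_lit 0xbc000178000302de8) b21006 (.hit (nat_lit 15) (nat_lit 15) (nat_lit 0xbc000178000303181) b21007 (.nil))) (.tok (nat_lit 9) (nat_lit 0xbc000178000300a57) (.hit (nat_lit 16) (nat_lit 20) (nat_lit 0xbc0001780002ff604) b21004 (.hit (nat_lit 17) (nat_lit 28) (nat_lit 0xbc000178000300a57) b21005 (.nil))) (.nil)))) (.tok (nat_lit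 55) (nat_lit 0xbc000178000300423) (.hit (nat_lit 8) (nat_lit 0) (nat_lit 0xbc000178000300423) b20999 (.one (nat_lit 3) (nat_lit 9) (nat_lit 1) (nat_lit 0xbc0001780002ffd3f) b21000 (.tok (nat_lit 6) (nat_lit 0xbc0001780002ffda5) (.hit (nat_lit 11) (nat_lit 7) (nat_lit 0xbc0001780002ffda5) b21001 (.hit (nat_lit 12) (nat_lit 15) (nat_lit 0xbc0001780002ff148) b21002 (.nil))) (.nil)))) (.tok (nat_lit 58) (nat_lit 0xbc00017800030221a) (.hit (nat_lit 0) (nat_lit 0) (nat_lit 0xbc000178000300be7) b20992 (.one (nat_lit 3) (nat_lit 1) (nat_lit 1) (nat_lit 0xbc00017800030067e) b20993 (.tok (nat_lit 9) (nat_lit 0xbc00017800030221a) (.hit (nat_lit 3) (nat_lit 20) (nat_lit 0xbc0001780003012fd) b20994 (.hit (nat_lit 6) (nat_lit 28) (nat_lit 0xbc0001780003005d2) b20997 (.tok (nat_lit 67) (nat_lit 0xbc00017800030221a) (.hit (nat_lit 4) (nat_lit 21) (nat_lit 0xbc000178000301cdd) b20995 (.hit (nat_lit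 7) (nat_lit 29) (nat_lit 0xbc0001780003016df) b20998 (.one (nat_lit 9) (nat_lit 5) (nat_lit 22) (nat_lit 0xbc00017800030221a) b20996 (.nil)))) (.nil)))) (.nil)))) (.nil))))
noncomputable def r21_32 : Rw Blk := .tok (nat_lit 3) (nat_lit 0xbc000178000302dd3) (.hit (nat_lit 0) (nat_lit 0) (nat_lit 0xbc000178000302dd3) b21029 (.tok (nat_lit 9) (nat_lit 0xbc000178000301d57) (.hit (nat_lit 1) (nat_lit 20) (nat_lit 0xbc0001780002ff6a3) b21030 (.hit (nat_lit 6) (nat_lit 28) (nat_lit 0xbc0001780002fed5a) b21035 (.tok (nat_lit 14) (nat_lit 0xbc00017800030138a) (.hit (nat_lit 2) (nat_lit 24) (nat_lit 0xbc000178000300fb0) b21031 (.hit (nat_lit 7) (nat_lit 30) (nat_lit 0xbc0001780003004ef) b21036 (.one (nat_lit 6) (nat_lit 3) (nat_lit 25) (nat_lit 0xbc00017800030138a) b21032 (.nil)))) (.tok (nat_lit 68) (nat_lit 0xbc000178000301d57) (.hit (nat_lit 4) (nat_lit 26) (nat_lit 0xbc000178000300959)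 b21033 (.hit (nat_lit 8) (nat_lit 32) (nat_lit 0xbc000178000300185) b21037 (.one (nat_lit 9) (nat_lit 5) (nat_lit 27) (nat_lit 0xbc000178000301d57) b21034 (.nil)))) (.nil))))) (.nil))) (.tok (nat_lit 6) (nat_lit 0xbc000178000306361) (.hit (nat_lit 20) (nat_lit 0) (nat_lit 0xbc000178000302bf5) b21038 (.tok (nat_lit 6) (nat_lit 0xbc000178000306361) (.hit (nat_lit 21) (nat_lit 7) (nat_lit 0xbc0001780003039a9) b21039 (.hit (nat_lit 24) (nat_lit 15) (nat_lit 0xbc000178000300eb0) b21042 (.tok (nat_lit 14) (nat_lit 0xbc000178000306361) (.hit (nat_lit 22) (nat_lit 11) (nat_lit 0xbc000178000306361) b21040 (.hit (nat_lit 25) (nat_lit 17) (nat_lit 0xbc000178000301fa1) b21043 (.one (nat_lit 9) (nat_lit 23) (nat_lit 12) (nat_lit 0xbc000178000304536) b21041 (.nil)))) (.nil)))) (.nil))) (.nil))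
noncomputable def r21_33 : Rw Blk := .tok (nat_lit 9) (nat_lit 0xbc000178000301e3b) (.hit (nat_lit 21) (nat_lit 0) (nat_lit 0xbc0001780002ff717) b21063 (.one (nat_lit 26) (nat_lit 33) (nat_lit 72) (nat_lit 0xbc0001780002ffd15) b21064 (.one (nat_lit 29) (nat_lit 34) (nat_lit 73) (nat_lit 0xbc0001780002fefd8) b21065 (.one (nat_lit 32) (nat_lit 35) (nat_lit 74) (nat_lit 0xbc0001780003004f6) b21067 (.one (nat_lit 35) (nat_lit 36) (nat_lit 75) (nat_lit 0xbc0001780002febf9) b21066 (.one (nat_lit 50) (nat_lit 37) (nat_lit 83) (nat_lit 0xbc0001780002ff8a8) b21077 (.tok (nat_lit 53) (nat_lit 0xbc0001780002ffdeb) (.hit (nat_lit 38) (nat_lit 84) (nat_lit 0xbc0001780002ff264) b21078 (.hit (nat_lit 39) (nat_lit 85) (nat_lit 0xbc0001780002ffdeb) b21079 (.nil))) (.tok (nat_lit 56) (nat_lit 0xbc000178000300251) (.hit (nat_lit 40) (nat_lit 86) (nat_lit 0xbc000178000300251) b21080 (.one (nat_lit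 3) (nat_lit 44) (nat_lit 90) (nat_lit 0xbc0001780002fdc91) b21084 (.tok (nat_lit 6) (nat_lit 0xbc0001780002fea01) (.hit (nat_lit 42) (nat_lit 88) (nat_lit 0xbc0001780002fea01) b21082 (.hit (nat_lit 43) (nat_lit 89) (nat_lit 0xbc0001780002fe19c) b21083 (.nil))) (.one (nat_lit 9) (nat_lit 41) (nat_lit 87) (nat_lit 0xbc0001780002fe16b) b21081 (.nil))))) (.one (nat_lit 59) (nat_lit 45) (nat_lit 91) (nat_lit 0xbc0001780002ff957) b21085 (.one (nat_lit 62) (nat_lit 46) (nat_lit 92) (nat_lit 0xbc0001780002fe9bd) b21068 (.tok (nat_lit 65) (nat_lit 0xbc0001780002ffa97) (.hit (nat_lit 47) (nat_lit 93) (nat_lit 0xbc0001780002ffa97) b21069 (.hit (nat_lit 48) (nat_lit 94) (nat_lit 0xbc0001780002fe2fd) b21070 (.nil))) (.tok (nat_lit 68) (nat_lit 0xbc000178000301e3b) (.hit (nat_lit 49) (nat_lit 95) (nat_lit 0xbc000178000301785) b21071 (.one (nat_lit 3) (nat_lit 53) (nat_lit 99) (nat_lit 0xbc00017800030084b)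 b21075 (.one (nat_lit 6) (nat_lit 50) (nat_lit 96) (nat_lit 0xbc000178000301e3b) b21072 (.tok (nat_lit 9) (nat_lit 0xbc0001780003005e0) (.hit (nat_lit 51) (nat_lit 97) (nat_lit 0xbc0001780003005e0) b21073 (.hit (nat_lit 52) (nat_lit 98) (nat_lit 0xbc0001780002fec30) b21074 (.nil))) (.nil))))) (.one (nat_lit 71) (nat_lit 54) (nat_lit 100) (nat_lit 0xbc0001780002fe2a0) b21076 (.nil)))))))))))))) (.tok (nat_lit 64) (nat_lit 0xbc000178000302360) (.hit (nat_lit 16) (nat_lit 0) (nat_lit 0xbc000178000301e19) b21058 (.tok (nat_lit 6) (nat_lit 0xbc0001780003022b5) (.hit (nat_lit 17) (nat_lit 7) (nat_lit 0xbc0001780002ffefd) b21061 (.hit (nat_lit 18) (nat_lit 15) (nat_lit 0xbc0001780003022b5) b21062 (.nil))) (.tok (nat_lit 9) (nat_lit 0xbc000178000302360) (.hit (nat_lit 19) (nat_lit 20) (nat_lit 0xbc000178000302360) b21059 (.hit (nat_lit 20) (nat_lit 28) (nat_lit 0xbc000178000301ab4) b21060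 (.nil))) (.nil)))) (.tok (nat_lit 67) (nat_lit 0xbc000178000301e09) (.hit (nat_lit 8) (nat_lit 0) (nat_lit 0xbc000178000301e09) b21051 (.one (nat_lit 3) (nat_lit 9) (nat_lit 1) (nat_lit 0xbc0001780003003d5) b21052 (.tok (nat_lit 9) (nat_lit 0xbc000178000300cec) (.hit (nat_lit 11) (nat_lit 20) (nat_lit 0xbc0001780002ffd10) b21053 (.hit (nat_lit 14) (nat_lit 28) (nat_lit 0xbc0001780002ff274) b21056 (.tok (nat_lit 67) (nat_lit 0xbc000178000300cec) (.hit (nat_lit 12) (nat_lit 21) (nat_lit 0xbc0001780002ffe55) b21054 (.hit (nat_lit 15) (nat_lit 29) (nat_lit 0xbc000178000300cec) b21057 (.one (nat_lit 9) (nat_lit 13) (nat_lit 22) (nat_lit 0xbc0001780003007b1) b21055 (.nil)))) (.nil)))) (.nil)))) (.tok (nat_lit 70) (nat_lit 0xbc000178000301f73) (.hit (nat_lit 0) (nat_lit 0) (nat_lit 0xbc0001780003008f9) b21044 (.one (nat_lit 3) (nat_lit 1) (nat_lit 1) (nat_lit 0xbc000178000300d99) b21045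 (.tok (nat_lit 6) (nat_lit 0xbc000178000301f73) (.hit (nat_lit 3) (nat_lit 7) (nat_lit 0xbc000178000300bb1) b21046 (.hit (nat_lit 6) (nat_lit 15) (nat_lit 0xbc000178000300697) b21049 (.tok (nat_lit 55) (nat_lit 0xbc000178000301f73) (.hit (nat_lit 4) (nat_lit 8) (nat_lit 0xbc000178000301574) b21047 (.hit (nat_lit 7) (nat_lit 16) (nat_lit 0xbc0001780003017b4) b21050 (.one (nat_lit 6) (nat_lit 5) (nat_lit 9) (nat_lit 0xbc000178000301f73) b21048 (.nil)))) (.nil)))) (.nil)))) (.nil))))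
noncomputable def r21_34 : Rw Blk := .tok (nat_lit 3) (nat_lit 0xbc000178000303223) (.hit (nat_lit 0) (nat_lit 0) (nat_lit 0xbc000178000303223) b21086 (.tok (nat_lit 6) (nat_lit 0xbc000178000302736) (.hit (nat_lit 1) (nat_lit 7) (nat_lit 0xbc000178000300bad) b21087 (.hit (nat_lit 4) (nat_lit 15) (nat_lit 0xbc0001780002ff01a) b21090 (.tok (nat_lit 56) (nat_lit 0xbc000178000302736) (.hit (nat_lit 2) (nat_lit 13) (nat_lit 0xbc000178000300a7b) b21088 (.hit (nat_lit 6) (nat_lit 19) (nat_lit 0xbc000178000300517) b21092 (.one (nat_lit 6) (nat_lit 3) (nat_lit 14) (nat_lit 0xbc000178000302736) b21089 (.nil)))) (.one (nat_lit 68) (nat_lit 5) (nat_lit 18) (nat_lit 0xbc000178000300c51) b21091 (.nil))))) (.nil))) (.tok (nat_lit 9) (nat_lit 0xbc00017800030514c) (.hit (nat_lit 17) (nat_lit 0) (nat_lit 0xbc000178000303fd1) b21093 (.tok (nat_lit 9) (nat_lit 0xbc000178000303412) (.hit (nat_lit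 18) (nat_lit 20) (nat_lit 0xbc000178000303412) b21094 (.hit (nat_lit 19) (nat_lit 28) (nat_lit 0xbc0001780003007eb) b21095 (.nil))) (.tok (nat_lit 64) (nat_lit 0xbc000178000304b31) (.hit (nat_lit 21) (nat_lit 50) (nat_lit 0xbc000178000304b31) b21096 (.hit (nat_lit 22) (nat_lit 51) (nat_lit 0xbc000178000304aec) b21097 (.nil))) (.tok (nat_lit 67) (nat_lit 0xbc000178000305065) (.hit (nat_lit 23) (nat_lit 52) (nat_lit 0xbc000178000305065) b21098 (.one (nat_lit 3) (nat_lit 26) (nat_lit 58) (nat_lit 0xbc00017800030417e) b21101 (.tok (nat_lit 9) (nat_lit 0xbc00017800030379e) (.hit (nat_lit 24) (nat_lit 53) (nat_lit 0xbc0001780003035a9) b21099 (.hit (nat_lit 25) (nat_lit 56) (nat_lit 0xbc00017800030379e) b21100 (.nil))) (.nil)))) (.one (nat_lit 70) (nat_lit 27) (nat_lit 60) (nat_lit 0xbc00017800030514c) b21102 (.nil)))))) (.nil))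
noncomputable def r21_35 : Rw Blk := .tok (nat_lit 3) (nat_lit 0x5e0000bc00017f62dafda07) (.hit (nat_lit 15) (nat_lit 0) (nat_lit 0x5e0000bc00017ee7b2fd0a9) b21114 (.tok (nat_lit 6) (nat_lit 0x5e0000bc00017e9f02fbbe4) (.hit (nat_lit 16) (nat_lit 7) (nat_lit 0x5e0000bc00017d787af9713) b21115 (.hit (nat_lit 21) (nat_lit 15) (nat_lit 0x5e0000bc00017ccc82f8194) b21118 (.tok (nat_lit 56) (nat_lit 0x5e0000bc00017e9f02fbbe4) (.hit (nat_lit 19) (nat_lit 13) (nat_lit 0x5e0000bc00017e154afaaad) b21116 (.hit (nat_lit 24) (nat_lit 19) (nat_lit 0x5e0000bc00017e618afb435) b21120 (.one (nat_lit 6) (nat_lit 20) (nat_lit 14) (nat_lit 0x5e0000bc00017e9f02fbbe4) b21117 (.nil)))) (.one (nat_lit 68) (nat_lit 23) (nat_lit 18) (nat_lit 0x5e0000bc00017e12a2faa58) b21119 (.nil))))) (.tok (nat_lit 52) (nat_lit 0x5e0000bc00017ecea2fc1d8) (.hit (nat_lit 25) (nat_lit 39) (nat_lit 0x5e0000bc00017e95f2fbac2)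 b21121 (.hit (nat_lit 26) (nat_lit 40) (nat_lit 0x5e0000bc00017ecea2fc1d8) b21122 (.nil))) (.tok (nat_lit 55) (nat_lit 0x5e0000bc00017f62dafda07) (.hit (nat_lit 27) (nat_lit 41) (nat_lit 0x5e0000bc00017f288afda07) b21123 (.one (nat_lit 3) (nat_lit 33) (nat_lit 47) (nat_lit 0x5e0000bc00017f071afc8e7) b21129 (.tok (nat_lit 6) (nat_lit 0x5e0000bc00017f62dafd30c) (.hit (nat_lit 28) (nat_lit 42) (nat_lit 0x5e0000bc00017f0ea2fd0fc) b21124 (.hit (nat_lit 31) (nat_lit 45) (nat_lit 0x5e0000bc00017ef082fc614) b21127 (.tok (nat_lit 55) (nat_lit 0x5e0000bc00017f62dafd30c) (.hit (nat_lit 29) (nat_lit 43) (nat_lit 0x5e0000bc00017f62dafd2bc) b21125 (.hit (nat_lit 32) (nat_lit 46) (nat_lit 0x5e0000bc00017ef42afc689) b21128 (.one (nat_lit 6) (nat_lit 30) (nat_lit 44) (nat_lit 0x5e0000bc00017f5842fd30c) b21126 (.nil)))) (.nil)))) (.nil)))) (.one (nat_lit 58) (nat_lit 35) (nat_lit 49) (nat_lit 0x5e0000bc00017f02b2fc85a)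 b21130 (.nil)))))) (.tok (nat_lit 9) (nat_lit 0x5e0000bc000180bc1b002e6) (.hit (nat_lit 0) (nat_lit 0) (nat_lit 0x5e0000bc00017f17fafd778) b21103 (.tok (nat_lit 9) (nat_lit 0x5e0000bc00017ed45afdbfc) (.hit (nat_lit 1) (nat_lit 20) (nat_lit 0x5e0000bc00017eb6dafc72a) b21104 (.hit (nat_lit 4) (nat_lit 28) (nat_lit 0x5e0000bc00017ebd0afbee8) b21105 (.one (nat_lit 56) (nat_lit 6) (nat_lit 31) (nat_lit 0x5e0000bc00017ed45afdbfc) b21106 (.nil)))) (.tok (nat_lit 64) (nat_lit 0x5e0000bc00017f34fafdf5f) (.hit (nat_lit 7) (nat_lit 50) (nat_lit 0x5e0000bc00017f34fafdf5f) b21107 (.hit (nat_lit 8) (nat_lit 51) (nat_lit 0x5e0000bc00017eff62fcfd0) b21108 (.nil))) (.tok (nat_lit 67) (nat_lit 0x5e0000bc000180bc1b002e6) (.hit (nat_lit 9) (nat_lit 52) (nat_lit 0x5e0000bc00018004db0018d) b21109 (.one (nat_lit 3) (nat_lit 12) (nat_lit 58) (nat_lit 0x5e0000bc000180bc1b002e6) b21112 (.tok (nat_lit 9)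 (nat_lit 0x5e0000bc00017f69a2fe10b) (.hit (nat_lit 10) (nat_lit 53) (nat_lit 0x5e0000bc00017f69a2fe10b) b21110 (.hit (nat_lit 11) (nat_lit 56) (nat_lit 0x5e0000bc00017f2cc2fd81d) b21111 (.nil))) (.nil)))) (.one (nat_lit 70) (nat_lit 14) (nat_lit 60) (nat_lit 0x5e0000bc00017e9692fd406) b21113 (.nil)))))) (.nil))
noncomputable def r22_0 : Rw Blk := .tok (nat_lit 14) (nat_lit 0x2fe2115fa008bfa3c17ed14afcff95fbfc8bf3ee17e86dafdc835fa488bf67997ee89afe5f5) (.hit (nat_lit 233) (nat_lit 0) (nat_lit 0x2fe2115fa008bfa3c17ed14afcff95fbfc8bf3ee17e86dafdc835fa488bf67997ee89afe5f5) b36015 (.one (nat_lit 3) (nat_lit 234) (nat_lit 1) (nat_lit 0x2fb5d45f478ebf55457d6f62fa3bc5f674ebe5f317cd892fa20b5f4006be7e997d33aafcb49) b36016 (.tok (nat_lit 6) (nat_lit 0x2fde3b5f985cbf92397eb29afcc235fb81cbf00cd7e1bcafca725f9c6ebf37697ea54afdb7d) (.hit (nat_lit 235) (nat_lit 7) (nat_lit 0x2fdadd5f91a0bf855d7e97aafc8c55fb160bef3557e00dafc7145f9c6ebf37697ea54afdb7d)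 b21135 (.hit (nat_lit 236) (nat_lit 15) (nat_lit 0x2fde3b5f985cbf92397eb29afcc235fb81cbf00cd7e1bcafca725f95b6bf29f97e8a6afd821) b21136 (.nil))) (.tok (nat_lit 9) (nat_lit 0x2fde3b5f985cbf92397eb29afcc235fb81cbf00cd7e1bcafca725f9c6ebf37697ea54afdb7d) (.hit (nat_lit 237) (nat_lit 20) (nat_lit 0x2fdadd5f91a0bf855d7e97aafc8c55fb160bef3557e00dafc7145f9c6ebf37697ea54afdb7d) b21133 (.hit (nat_lit 238) (nat_lit 28) (nat_lit 0x2fde3b5f985cbf92397eb29afcc235fb81cbf00cd7e1bcafca725f95b6bf29f97e8a6afd881) b21134 (.nil))) (.nil))))) (.tok (nat_lit 17) (nat_lit 0x2fe9b65fa9fabf91f17f0c9afd5725fd076bf52917e83a2fd40b5fbc04bf84ad7f208afe09a) (.hit (nat_lit 239) (nat_lit 0) (nat_lit 0x2fe9b65fa97abf7f057f0c9afd5725fd076bf52917e83a2fd40b5fb00ebf564d7eda0afe09a) b36017 (.one (nat_lit 3) (nat_lit 240) (nat_lit 1) (nat_lit 0x2fc11a5f5e1abf71697dc992faf025f7ddabe8c497d32c2fad515fa734bf603d7ee25afd891)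 b36018 (.tok (nat_lit 6) (nat_lit 0x2fe70a5fa9fabf91f17ef912fd4f25fc9babf24097e6242fd3415fbc04bf84ad7f208afddba) (.hit (nat_lit 241) (nat_lit 7) (nat_lit 0x2fe1355f9e50bf7c857eca6afcf1d5fbe10bf0cb57e339afcd6c5f9bbcbf4fa17ec852fd8d3) b21141 (.hit (nat_lit 242) (nat_lit 15) (nat_lit 0x2fe70a5fa9fabf91f17ef912fd4f25fc9babf24097e6242fd3415fbc04bf84ad7f208afddba) b21142 (.nil))) (.tok (nat_lit 9) (nat_lit 0x2fe70a5fa9fabf91f17ef912fd4f25fc9babf24097e6242fd3415fa618bf4c457ea932fd925) (.hit (nat_lit 243) (nat_lit 20) (nat_lit 0x2fe1355f9e50bf7c857eca6afcf1d5fbe10bf0cb57e339afcd6c5f809abf0dbd7e356afd1cb) b21139 (.hit (nat_lit 244) (nat_lit 28) (nat_lit 0x2fe70a5fa9fabf91f17ef912fd4f25fc9babf24097e6242fd3415fa618bf4c457ea932fd925) b21140 (.nil))) (.nil))))) (.tok (nat_lit 20) (nat_lit 0x2ff9895fe0b8bfd9e57f68aafe45e5febc4bf0f9d7e396afce265fb086bf5f997ef5aafe67b) (.hit (nat_lit 245) (nat_lit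 0) (nat_lit 0x2ff9895fe0b8bfc3d17f68aafe45e5febc4bf04ad7e1b92fca6b5f881abf2f917e69e2fe67b) b21149 (.one (nat_lit 3) (nat_lit 246) (nat_lit 1) (nat_lit 0x2fe8765fa65abf8fc97f105afd9165fcb56be7f297d1882faa095f5a04beb2957d9ba2fd27e) b21150 (.tok (nat_lit 6) (nat_lit 0x2fe83f5fa5e0bf9a517ee98afd43e5fcac2bf07017e2832fcbff5f9d38bf38fd7ea872fdbe2) (.hit (nat_lit 247) (nat_lit 7) (nat_lit 0x2fd2c15f8168bf93f57e56cafc0a95fa128bed2e57dbffafbef85f89a8bf11dd7e5a32fd570) b21153 (.hit (nat_lit 248) (nat_lit 15) (nat_lit 0x2fe83f5fa5e0bf9a517ee98afd43e5fcac2bf07017e2832fcbff5f9d38bf38fd7ea872fdbe2) b21154 (.nil))) (.tok (nat_lit 9) (nat_lit 0x2feac85fad54bfd9e57f3dbafdee95fd8dabf0f9d7e396afce265fb086bf5f997ef5aafe589) (.hit (nat_lit 249) (nat_lit 20) (nat_lit 0x2feac85fad54bfd9e57f3dbafdee95fd8dabeeead7df78afc5ea5f925abf23417e7cfafd673) b21151 (.hit (nat_lit 250) (nat_lit 28) (nat_lit 0x2fe6575fa18abfb5757f1a5afda685fc8f8bf0f9d7e396afce265fb086bf5f997ef5aafe589)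 b21152 (.nil))) (.nil))))) (.tok (nat_lit 23) (nat_lit 0x2ff9895fe0b8bfd9e57fb5bafe514600000bf97ad7f24eafe3025fca1cbfa8c97f6feaff296) (.hit (nat_lit 251) (nat_lit 0) (nat_lit 0x2ff9895fe0b8bfc3d17fb5bafe514600000bf97ad7f24eafe3025fca1cbf7ef17f6feafec56) b21143 (.one (nat_lit 3) (nat_lit 252) (nat_lit 1) (nat_lit 0x2fe8765fa65abf8fc97f1ee2fdae55fcdfebf66f17eab9afd8d05facf6bf64417efdcafe2da) b21144 (.tok (nat_lit 6) (nat_lit 0x2feac85fad54bfd9e57f497afdecc5fd8bcbf85317ee8d2fdfbd5fbc10bfa8c97f68a2ff02b) (.hit (nat_lit 253) (nat_lit 7) (nat_lit 0x2feac85fad54bfd9e57f497afdecc5fd8bcbf85317ee8d2fdfbd5fbc10bfa8c97f68a2ff02b) b21147 (.hit (nat_lit 254) (nat_lit 15) (nat_lit 0x2fe6575fa18abfb5757f19bafda545fcb9cbf66097eaac2fd96c5fb94cbf89917f233afeee0) b21148 (.nil))) (.tok (nat_lit 9) (nat_lit 0x2fe83f5fa5e0bf9a517f299afdc505fce94bf6f717ebebafdc415fbbf4bf83917f222aff296) (.hit (nat_lit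 255) (nat_lit 20) (nat_lit 0x2fd2c15f8168bf93f57e56cafc0a95fa128bed2e57dbffafbef85f89a8bf11dd7e5a32fd65f) b21145 (.hit (nat_lit 256) (nat_lit 28) (nat_lit 0x2fe83f5fa5e0bf9a517f299afdc505fce94bf6f717ebebafdc415fbbf4bf83917f222aff296) b21146 (.nil))) (.nil))))) (.tok (nat_lit 26) (nat_lit 0x2ff3045fc9a4bfb5817f15f2fdc095fe39cbfb5997f4a92feaa45fdcbebfb9dd7f8992ffb57) (.hit (nat_lit 257) (nat_lit 0) (nat_lit 0x2ff3045fc9a4bfb5817f15f2fdc095fe39cbfb5997f4a92feaa45fdcbebfb9dd7f8992ffb57) b36019 (.one (nat_lit 3) (nat_lit 258) (nat_lit 1) (nat_lit 0x2fbb3c5f525ebf03a57d9aa2fa9245f721ebe74d17d03d2fa7735f99cabf3d997e90dafdcc4) b36020 (.tok (nat_lit 6) (nat_lit 0x2fe2a35fa12cbf78957ed5dafd08b5fc0ecbf126d7e3f0afceda5f9a44bf510d7ec0b2fe4df) (.hit (nat_lit 259) (nat_lit 7) (nat_lit 0x2fe2a35fa12cbf78957ed5dafd08b5fc0ecbf126d7e3f0afceda5f8a62bf13757e5d1afdc5d) b21159 (.hit (nat_lit 260) (nat_lit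 15) (nat_lit 0x2fcca75f7534bf2cad7e25fafba8f5f94f4beba7d7d8f2afb8de5f9a44bf510d7ec0b2fe4df) b21160 (.nil))) (.tok (nat_lit 9) (nat_lit 0x2fe2a35fa12cbf78957ed5dafd08b5fc0ecbf126d7e3f0afceda5fcce2bfa0c57f569aff73a) (.hit (nat_lit 261) (nat_lit 20) (nat_lit 0x2fe2a35fa12cbf78957ed5dafd08b5fc0ecbf126d7e3f0afceda5fcce2bfa0c57f569aff73a) b21157 (.hit (nat_lit 262) (nat_lit 28) (nat_lit 0x2fcca75f7534bf2cad7e25fafba8f5f94f4beba7d7d8f2afb8de5fabdcbf61cd7ed95afe5d2) b21158 (.nil))) (.nil))))) (.tok (nat_lit 29) (nat_lit 0x2fed465fb672bfe85d7f2af2fdb2e5fd632bf87a57eef22fdf365ff7debfe7d58009b300000) (.hit (nat_lit 263) (nat_lit 0) (nat_lit 0x2fe77e5fa386bfa1a17eb002fce4a5fcc26bf87a57eef22fdf365fcf22bfa0cd7f5e0aff2ea) b36021 (.one (nat_lit 3) (nat_lit 264) (nat_lit 1) (nat_lit 0x2fbef75f59d4bf70b57db87afacdf5f7994be83bd7d21aafab2e5fca48bf8efd7f4daafef9c) b36022 (.tok (nat_lit 6) (nat_lit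 0x2fed465fb672bfe85d7f2af2fdb2e5fd632bf3cf97e9422fd97d5ff7debfe7d58009b300000) (.hit (nat_lit 265) (nat_lit 7) (nat_lit 0x2fddb95f9758bfe85d7eae8afcba15fb718befec57e17bafc9f05ff7debfe7d58009b300000) b21165 (.hit (nat_lit 266) (nat_lit 15) (nat_lit 0x2fed465fb672bfb3d17f2af2fdb2e5fd632bf3cf97e9422fd97d5fc986bf945d7f58f2fec55) b21166 (.nil))) (.tok (nat_lit 9) (nat_lit 0x2fed465fb672bfe85d7f2af2fdb2e5fd632bf3cf97e9422fd97d5fda20bfbc0d7fa38aff69d) (.hit (nat_lit 267) (nat_lit 20) (nat_lit 0x2fddb95f9758bfe85d7eae8afcba15fb718befec57e17bafc9f05f842ebf06e97e444afecd6) b21163 (.hit (nat_lit 268) (nat_lit 28) (nat_lit 0x2fed465fb672bfb3d17f2af2fdb2e5fd632bf3cf97e9422fd97d5fda20bfbc0d7fa38aff69d) b21164 (.nil))) (.nil))))) (.tok (nat_lit 32) (nat_lit 0x2fed4a5fd2a0bfe58d7ee33afd3f35fc444bf9f317f409afe8845fd06abf8d017f76aaff7b8) (.hit (nat_lit 269) (nat_lit 0) (nat_lit 0x2fed4a5fd2a0bfe58d7ede22fd3f35fba80bf9f317f409afe8845fd06abf8d017f76aaff7b8)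 b21173 (.one (nat_lit 3) (nat_lit 270) (nat_lit 1) (nat_lit 0x2fc06a5f5cbabf62697dc412fae525f7c7abe89897d2d42faca15f3f26be8a917d302afd0fd) b21174 (.tok (nat_lit 6) (nat_lit 0x2fe44f5fa484bfddf17ee33afd2375fc444bf191d7e4c6afd0865fa9c2bf52117eda9afec46) (.hit (nat_lit 271) (nat_lit 7) (nat_lit 0x2fe44f5fa484bf9a7d7ee33afd2375fc444bf191d7e4c6afd0865f9432bf26f17e845afec46) b21177 (.hit (nat_lit 272) (nat_lit 15) (nat_lit 0x2fe0c55f9d70bfddf17ec6eafcead5fbd30bf0af57e301afccfc5fa9c2bf52117eda9afe951) b21178 (.nil))) (.tok (nat_lit 9) (nat_lit 0x2fd8915f8d08bfc1157e854afc6795facc8beea257dee7afc4c85f911cbf20c57e7802feacf) (.hit (nat_lit 273) (nat_lit 20) (nat_lit 0x2fd8915f8d08bfc1157e854afc6795facc8beea257dee7afc4c85f911cbf20c57e7802feacf) b21175 (.hit (nat_lit 274) (nat_lit 28) (nat_lit 0x2fcb895f72f8bf6af57e1d0afb9715f92b8beb6057d863afb7c05f7d40bef90d7e2892fe2f2) b21176 (.nil))) (.nil)))))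 (.tok (nat_lit 35) (nat_lit 0x2fed4a5fd2a0bfe58d7ee33afd3f95fc444bf8f057f11aafe4da5fa9c2bf52117eda9aff766) (.hit (nat_lit 275) (nat_lit 0) (nat_lit 0x2fed4a5fd2a0bfe58d7edd4afd3f95fba80bf8f057f11aafe4da5f9b34bf48c97eaddaff766) b21167 (.one (nat_lit 3) (nat_lit 276) (nat_lit 1) (nat_lit 0x2fc06a5f5cbabf62697dc412fae525f7c7abe89897d2d42faca15f3f26be8a917d302afd3f2) b21168 (.tok (nat_lit 6) (nat_lit 0x2fd8915f8d08bfc1157e854afc6795facc8beea257dee7afc4c85f911cbf20c57e7802fecdf) (.hit (nat_lit 277) (nat_lit 7) (nat_lit 0x2fd8915f8d08bfc1157e854afc6795facc8beea257dee7afc4c85f911cbf20c57e7802fecdf) b21171 (.hit (nat_lit 278) (nat_lit 15) (nat_lit 0x2fcb895f72f8bf6af57e1d0afb9715f92b8beb6057d863afb7c05f7d40bef90d7e2892fe5f1) b21172 (.nil))) (.tok (nat_lit 9) (nat_lit 0x2fe44f5fa484bfddf17ee33afd2375fc444bf191d7e4c6afd0865fa9c2bf52117eda9afea15) (.hit (nat_lit 279) (nat_lit 20) (nat_lit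 0x2fe44f5fa484bf9a7d7ee33afd2375fc444bf191d7e4c6afd0865f9432bf26f17e845afe76f) b21169 (.hit (nat_lit 280) (nat_lit 28) (nat_lit 0x2fe0c55f9d70bfddf17ec6eafcead5fbd30bf0af57e301afccfc5fa9c2bf52117eda9afea15) b21170 (.nil))) (.nil))))) (.tok (nat_lit 38) (nat_lit 0x2ff7515fc95cbfbe917f7d3afe24b5fe814bf92bd7f038afe46f5fc7c6bf9b0d7f457aff0ee) (.hit (nat_lit 281) (nat_lit 0) (nat_lit 0x2ff7515fc95cbfbe917f7d3afe24b5fe814bf92bd7f038afe46f5fc7c6bf9b0d7f457aff0ee) b36023 (.one (nat_lit 3) (nat_lit 282) (nat_lit 1) (nat_lit 0x2fbf785f5ad6bf037d7dbc82fad605f7a96be85c17d25b2fabaf5f8afcbf1f997e4fa2fcf58) b36024 (.tok (nat_lit 6) (nat_lit 0x2fd0db5f7d9cbf61f57e479afbec35f9d5cbecb4d7db0cafbd125fbc64bf823d7f19a2fe196) (.hit (nat_lit 283) (nat_lit 7) (nat_lit 0x2fd0db5f7d9cbf61f57e479afbec35f9d5cbecb4d7db0cafbd125fbc64bf823d7f19a2fe196) b21183 (.hit (nat_lit 284) (nat_lit 15) (nat_lit 0x2fcae65f71b2bf2e757e17f2fb8ce5f9172beb3797d8122fb71d5f8108bf39397e8ceafd6e4)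 b21184 (.nil))) (.tok (nat_lit 9) (nat_lit 0x2fd0db5f7d9cbf61f57e479afbec35f9d5cbecb4d7db0cafbd125f8cbcbf2ab17e522afd47d) (.hit (nat_lit 285) (nat_lit 20) (nat_lit 0x2fd0db5f7d9cbf61f57e479afbec35f9d5cbecb4d7db0cafbd125f6c7cbed7857de582fccd5) b21181 (.hit (nat_lit 286) (nat_lit 28) (nat_lit 0x2fcae65f71b2bf2e757e17f2fb8ce5f9172beb3797d8122fb71d5f8cbcbf2ab17e522afd47d) b21182 (.nil))) (.nil))))) (.tok (nat_lit 41) (nat_lit 0x2ffd27600000c000017fc382ff0265fcffec00001800003000005fd1f0bf98dd7f5dbaffaba) (.hit (nat_lit 292) (nat_lit 0) (nat_lit 0x2feb895fcb00bfa45d7f3312fddb15fcffebfae717f2e9afe55a5fd1f0bf98dd7f5dbafee9e) b36025 (.one (nat_lit 3) (nat_lit 293) (nat_lit 1) (nat_lit 0x2fe49e5faeaabf6a117efdfafd7b85f7c02bf71197eb022fdb505fab76bf67a97ec4aafe1d9) b36026 (.tok (nat_lit 6) (nat_lit 0x2ffd27600000c000017f751afe7e55fcc7cbf919d7edacafde6a5fc3f8bf91d97f19dafef08) (.hit (nat_lit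 294) (nat_lit 7) (nat_lit 0x2ffd27600000c000017f751afe7e55fa0cebf919d7edacafde6a5f7c60bef74d7e2512fef08) b21189 (.hit (nat_lit 295) (nat_lit 15) (nat_lit 0x2fe86b5fb10cbf9b297f1562fdaa15fcc7cbf74717ea84afd90f5fc3f8bf91d97f19dafed1a) b21190 (.nil))) (.tok (nat_lit 9) (nat_lit 0x2ffd27600000c000017fc382ff0265fcc7cc00001800003000005fbdd6bf97397f4382ffaba) (.hit (nat_lit 296) (nat_lit 20) (nat_lit 0x2ffd27600000c000017fc382ff0265fa0cec00001800003000005fb84ebf97397f4382ffaba) b21187 (.hit (nat_lit 297) (nat_lit 28) (nat_lit 0x2fe86b5fb10cbf9b297f16a2fdae35fcc7cbf8a497ef2fafe0e15fbdd6bf80257f170afeede) b21188 (.nil))) (.nil))))) (.tok (nat_lit 44) (nat_lit 0x3000005ff522bfbca5800003000005ffa2abf82917f1042fe3db5fbacebf7a197f1352fecf2) (.hit (nat_lit 306) (nat_lit 0) (nat_lit 0x2ffd285fde3ebfb2bd7ff47affbff5ff656bf82917f1042fe3db5fbacebf7a197f1352fecf2) b21197 (.one (nat_lit 3) (nat_lit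 307) (nat_lit 1) (nat_lit 0x2fd8ca5f9416bf2f697ea0b2fcc1c5fad0ebe7b297d1082fa9095f3f4ebe7d297d30cafc688) b21198 (.tok (nat_lit 6) (nat_lit 0x2ff4915fbf82bfb9917f0a0afdd5d5fd80cbee3d97de1e2fc3355f9310bf24ad7e7fd2fdb95) (.hit (nat_lit 308) (nat_lit 7) (nat_lit 0x2ff4915fbf82bfb9917f0a0afdd5d5fd80cbee3d97de1e2fc3355f9310bf24ad7e7fd2fdb95) b21201 (.hit (nat_lit 309) (nat_lit 15) (nat_lit 0x2fe1bf5fae6ebf65797eb642fcfc55fbd4ebead6d7d750afb59a5f8168bf015d7e3932fd1cc) b21202 (.nil))) (.tok (nat_lit 9) (nat_lit 0x3000005ff522bfbca5800003000005ffa2abf25557e64dafd3945f93d2bf265d7e82dafe27f) (.hit (nat_lit 310) (nat_lit 20) (nat_lit 0x3000005ff522bfbca5800003000005ffa2abf0db57e359afcdac5f811abf0ebd7e376afe27f) b21199 (.hit (nat_lit 311) (nat_lit 28) (nat_lit 0x2fe75d5fb09ebf9b357efdb2fd7c95fca60bf25557e64dafd3945f93d2bf265d7e82dafe00d) b21200 (.nil))) (.nil))))) (.tok (nat_lit 47) (nat_lit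 0x3000005ff522bfbca57fc3b2fef365ff388bfa0417f14f2fe4b75fd758bfb7397fa282ff5bb) (.hit (nat_lit 320) (nat_lit 0) (nat_lit 0x2ffd285fde3ebfb2bd7fa38afef365ff388bf8f497ef5eafdde05fa9f8bf5d217ed512fe9d9) b21191 (.one (nat_lit 3) (nat_lit 321) (nat_lit 1) (nat_lit 0x2fd8ca5f9416bf2f697ebe5afcc4d5faf3cbf32697e4382fcae35f8a2abf0f857e26dafd53a) b21192 (.tok (nat_lit 6) (nat_lit 0x3000005ff522bfbca57fc3b2feeeb5feee8bfa0417f078afe3535fd2f8bfa1757f53e2fef07) (.hit (nat_lit 322) (nat_lit 7) (nat_lit 0x3000005ff522bfbca57fc3b2feeeb5feee8bfa0417f078afe3535fd2f8bfa1757f53e2fef07) b21195 (.hit (nat_lit 323) (nat_lit 15) (nat_lit 0x2fe75d5fb09ebf9b357efd3afd7885fca60bf5fd57e8b6afd3945fa50ebf45b97ec23afe501) b21196 (.nil))) (.tok (nat_lit 9) (nat_lit 0x2ff4915fbf82bfb9917f9452fe3d05fe81abf9c197f14f2fe4b75fd758bfb7397fa282ff5bb) (.hit (nat_lit 324) (nat_lit 20) (nat_lit 0x2ff4915fbf82bfb9917f9452fe3d05fe81abf9c197f14f2fe4b75fd758bfb7397fa282ff5bb)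 b21193 (.hit (nat_lit 325) (nat_lit 28) (nat_lit 0x2fe1bf5fae6ebf65797ee902fd4e75fbf84bf52497e82e2fd0c85fa8acbf38457e8ffafe0f9) b21194 (.nil))) (.nil))))) (.tok (nat_lit 50) (nat_lit 0x2febc65fb372bfaf4d7f1ef2fd9ae5fd332bf5b417e9662fd7fd5fe3a0bfcc4d7fa57affa7e) (.hit (nat_lit 326) (nat_lit 0) (nat_lit 0x2fe2825f9a2ebfaf4d7e796afc3c35fc296bf5b417e9662fd53f5fd46ebfacf97f711aff29d) b21203 (.one (nat_lit 3) (nat_lit 327) (nat_lit 1) (nat_lit 0x2fb87d5f4ce0bf12197d84aafa6655f6ca0be69d57ceddafa4b45f8650bf154d7e2a7afcd32) b21204 (.tok (nat_lit 6) (nat_lit 0x2febc65fb372bfa8a57f1ef2fd9ae5fd332bf36f97e8822fd7fd5fe3a0bfcc4d7fa57affa7e) (.hit (nat_lit 328) (nat_lit 7) (nat_lit 0x2febc65fb372bfa8a57f1ef2fd9ae5fd332bf36f97e8822fd7fd5fe3a0bfcc4d7fa57affa7e) b21207 (.hit (nat_lit 329) (nat_lit 15) (nat_lit 0x2fc0035f5becbf2d197dc0dafadeb5f7bacbe87ed7d2a0afac3a5f9e84bf4ed17eb332fde3e) b21208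 (.nil))) (.tok (nat_lit 9) (nat_lit 0x2fd9de5f8fa2bf7e517e8fb2fc7c65faf62beef597df8e2fc6155fcf40bf9f817f6522ff149) (.hit (nat_lit 330) (nat_lit 20) (nat_lit 0x2fd9de5f8fa2bf7e517e8fb2fc7c65faf62beef597df8e2fc6155fcf40bf9f817f6522ff149) b21205 (.hit (nat_lit 331) (nat_lit 28) (nat_lit 0x2fc0035f5becbf32257dc0dafadeb5f7bacbe87ed7d2a0afac3a5fa216bf4ea17eb1f2fde01) b21206 (.nil))) (.nil))))) (.tok (nat_lit 53) (nat_lit 0x2ffb4e5ffba0bff5417f2ccafdc455fcf36bfcf997f7752ff10f600000c0000180176aff7cb) (.hit (nat_lit 337) (nat_lit 0) (nat_lit 0x2ff0215fe524bfcd697eeaaafd79b5fbbc4bf94fd7f2382fe75f5fc6eebf80157f2f5afec52) b21209 (.one (nat_lit 3) (nat_lit 338) (nat_lit 1) (nat_lit 0x2fe5ea5fe1d4bfb5b97ea4f2fc6f95f819cbf9b0d7f236afe63a5fe1e8bfafe17f977aff16f) b21210 (.tok (nat_lit 6) (nat_lit 0x2ffb4e5ffba0bfc9317f2ccafdc455fcf36bfcf997f7752ff10f5fc7dcbf96797f5de2ff7cb) (.hit (nat_lit 339)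 (nat_lit 7) (nat_lit 0x2ffb4e5ffba0bfc9317f2ccafdc455fcf36bfcf997f7752ff10f5fc3c4bf96797f5de2ff7cb) b21213 (.hit (nat_lit 340) (nat_lit 15) (nat_lit 0x2fecbb5fdaa2bfb4c17edd62fd17c5fc2cebf9df17f49aafefeb5fc7dcbf8e4d7f5302ff2fc) b21214 (.nil))) (.tok (nat_lit 9) (nat_lit 0x2fec045fdb34bff5417f0ee2fd7ac5fcf2ebf9f7d7f4cfafe989600000c0000180176aff701) (.hit (nat_lit 341) (nat_lit 20) (nat_lit 0x2fe9c45faf6ebff5417f0ee2fd7ac5fcf2ebf2ef17e7812fd5fb600000c0000180176aff701) b21211 (.hit (nat_lit 342) (nat_lit 28) (nat_lit 0x2fec045fdb34bfbfed7edd62fd17c5fc2cebf9f7d7f4cfafe9895fc888bf81817f1ae2febc6) b21212 (.nil))) (.nil))))) (.tok (nat_lit 56) (nat_lit 0x2fe5955fa710bfc7557eed6afd37d5fc6d0bf57d97e8f12fd9d75fbde0bfa6f17f74c2fedb4) (.hit (nat_lit 351) (nat_lit 0) (nat_lit 0x2fe5955fa710bfb5157eed6afd37d5fc6d0bf57d97e8f12fd9d75fbde0bfa6f17f74c2fe6e5) b21215 (.one (nat_lit 3) (nat_lit 352)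 (nat_lit 1) (nat_lit 0x2fb5d45f478ebf18a57d6f62fa3bc5f674ebe5f317cd892fa20b5f4bcebe96297d62cafc66d) b21216 (.tok (nat_lit 6) (nat_lit 0x2fd8225f8c2abfc7557e81d2fc60a5fabeabee8697deb02fc4595f9df8bf3a7d7eab72fe916) (.hit (nat_lit 353) (nat_lit 7) (nat_lit 0x2fd8225f8c2abfc7557e81d2fc60a5fabeabee8697deb02fc4595f9df8bf3a7d7eab72fe916) b21219 (.hit (nat_lit 354) (nat_lit 15) (nat_lit 0x2fbdb25f574abf66f17dae52fab9a5f770abe7ea97d1782fa9e95f6dccbeda257deac2fd966) b21220 (.nil))) (.tok (nat_lit 9) (nat_lit 0x2fe41d5fa420bfc3b57ee1aafd2055fc3e0bf18557e4adafd0545fa21ebf42c97ebc0afedb4) (.hit (nat_lit 355) (nat_lit 20) (nat_lit 0x2fd8ff5f8de4bfc3b57e88bafc6e75fada4beebdd7df1eafc5365f8fdabf1e417e72fafedb4) b21217 (.hit (nat_lit 356) (nat_lit 28) (nat_lit 0x2fe41d5fa420bfa2757ee1aafd2055fc3e0bf18557e4adafd0545fa21ebf42c97ebc0afe1af) b21218 (.nil))) (.nil))))) (.tok (nat_lit 59) (nat_lit 0x2fede55fb86cbfc7157f2feafdbcd5fd770bf665d7ea4b2fda1c5fd35abfb1f97f6fd2ff4c1)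 (.hit (nat_lit 365) (nat_lit 0) (nat_lit 0x2fe8555fb86cbfc7157e88fafc95a5fbb0ebf665d7ea4b2fd4e85fbbc4bf75ad7f03dafe680) b21221 (.one (nat_lit 3) (nat_lit 366) (nat_lit 1) (nat_lit 0x2fc2c15f6168bf23297dd6cafb0a95f8128be92e57d3ffafaef85f99a4bf3a5d7e8a72fd931) b21222 (.tok (nat_lit 6) (nat_lit 0x2fe4885fa4f6bfa20d7ee502fd2705fc4b6bf1a017e4e32fd0bf5fd146bf934d7f51b2fed13) (.hit (nat_lit 367) (nat_lit 7) (nat_lit 0x2fe3ad5fa340bfa0117ede2afd1955fc300bf16957e475afcfe45fd146bf934d7f51b2fed13) b21225 (.hit (nat_lit 368) (nat_lit 15) (nat_lit 0x2fe4885fa4f6bfa20d7ee502fd2705fc4b6bf1a017e4e32fd0bf5fafb6bf76c97ede2afe4dd) b21226 (.nil))) (.tok (nat_lit 9) (nat_lit 0x2fede55fb7b0bfc4497f2feafdbcd5fd770bf3f757e991afda1c5fd35abfb1f97f6fd2ff4c1) (.hit (nat_lit 369) (nat_lit 20) (nat_lit 0x2fede55fb7b0bfc4497f2feafdbcd5fd770bf3f757e991afda1c5fd35abfb1f97f6fd2ff4c1) b21223 (.hit (nat_lit 370)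 (nat_lit 28) (nat_lit 0x2fcfce5f7b82bf6efd7e3f32fbdb65f9b42bec7197da862fbc055fb17abf7ec97f1612feaa5) b21224 (.nil))) (.nil))))) (.nil))))))))))))))))
noncomputable def r22_1 : Rw Blk := .tok (nat_lit 3) (nat_lit 0x2fd2835fbc5ebf4f5d7ec052fe2145fb654bf6eed7ec5bafde83) (.hit (nat_lit 0) (nat_lit 0) (nat_lit 0x2fd0f05fa08abf48dd7ec052fddfb5fa2fcbf48ed7e788afd81a) b36027 (.tok (nat_lit 6) (nat_lit 0x2fd2835fbc5ebf4f5d7e8332fe2145fb654bf6eed7ec5bafde83) (.hit (nat_lit 1) (nat_lit 7) (nat_lit 0x2fd2805fbc5ebf4f5d7e831afe2115fb654bf6eed7ec5bafde83) b21230 (.hit (nat_lit 2) (nat_lit 15) (nat_lit 0x2fd2835f9550bf3e357e8332fe2145f97a2bf320d7e4d0afdade) b21231 (.nil))) (.tok (nat_lit 9) (nat_lit 0x2fd2835fbc5ebf4f5d7e8332fe2145f9826bf30257e42f2fd966) (.hit (nat_lit 3) (nat_lit 20) (nat_lit 0x2fd2805fbc5ebf4f5d7e831afe2115f7a34bf30197e3772fd966) b21228 (.hit (nat_lit 4) (nat_lit 28) (nat_lit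 0x2fd2835f9550bf3e357e8332fe2145f9826bf30257e42f2fd5be) b21229 (.nil))) (.nil)))) (.tok (nat_lit 6) (nat_lit 0x300000601e9ec03da58000030000060358ac071b580c1d301910) (.hit (nat_lit 14) (nat_lit 0) (nat_lit 0x2fe8345fcb88bf71757f9652ff3095fd43ebfab397f4c22fe7ee) b21232 (.tok (nat_lit 3) (nat_lit 0x2ff0db5ff158bfd1297f708afed036002e8c002397ff7c2ffd34) (.hit (nat_lit 15) (nat_lit 1) (nat_lit 0x2fd90e5fb542bf48f97edc52fde805fc9e8bf94917f0dd2fe274) b21233 (.one (nat_lit 67) (nat_lit 16) (nat_lit 2) (nat_lit 0x2ff0db5ff158bfd1297f708afed036002e8c002397ff7c2ffd34) b21234 (.nil))) (.tok (nat_lit 6) (nat_lit 0x300000601e9ec03da58000030000060358ac071b580c1d301910) (.hit (nat_lit 17) (nat_lit 7) (nat_lit 0x2fe1515fd38cbf73497f1962fe1775fded4bfbd8d7f7592feee6) b21235 (.hit (nat_lit 21) (nat_lit 15) (nat_lit 0x2fd6765fb310bf65717ec92afe24c5fc552bf8b257f08aafdf70) b21239 (.tok (nat_lit 55) (nat_lit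 0x300000601e9ec03da58000030000060358ac071b580c1d301910) (.hit (nat_lit 18) (nat_lit 8) (nat_lit 0x2ffa7f5ff4eabfa9c17fc2c2ff7bf600888c0026d800213002e5) b21236 (.hit (nat_lit 22) (nat_lit 16) (nat_lit 0x2ff10d601e9ec03da57f57daff2bb60358ac071b580c1d301910) b21240 (.tok (nat_lit 6) (nat_lit 0x3000005fed72bfe0a180000300000600496bff4ed7ff80b003e1) (.hit (nat_lit 19) (nat_lit 9) (nat_lit 0x2ff2825fd988bfb1e97f987aff2f45ff06ebfe9757fd952ff7de) b21237 (.one (nat_lit 55) (nat_lit 20) (nat_lit 10) (nat_lit 0x3000005fed72bfe0a180000300000600496bff4ed7ff80b003e1) b21238 (.nil))) (.nil)))) (.nil)))) (.nil)))) (.tok (nat_lit 9) (nat_lit 0x2ff0db5ff158bfd1297f502aff86a5fb926bf70517efea2fdfe1) (.hit (nat_lit 5) (nat_lit 0) (nat_lit 0x2fe8345fcb88bf71757f502aff86a5fb926bf70517efea2fdcbf) b21241 (.tok (nat_lit 3) (nat_lit 0x2ff0db5ff158bfd1297edb3afea3b5f9f8ebf625d7eccdafdecd) (.hit (nat_lit 6)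 (nat_lit 1) (nat_lit 0x2fd90e5fb542bf48f97eb75afde3e5f8432bf2ba57e5f6afd53b) b21242 (.one (nat_lit 55) (nat_lit 7) (nat_lit 3) (nat_lit 0x2ff0db5ff158bfd1297edb3afea3b5f9f8ebf625d7eccdafdecd) b21243 (.nil))) (.tok (nat_lit 9) (nat_lit 0x2fe1515fd38cbf73497ed09afe39e5f8fa8bf42917e8d42fdfe1) (.hit (nat_lit 8) (nat_lit 20) (nat_lit 0x2fe1515fd38cbf73497ed09afe39e5f8fa8bf42917e8d42fd861) b21244 (.hit (nat_lit 12) (nat_lit 28) (nat_lit 0x2fd6765fb310bf65717ec522fe24c5f8862bf34057e702afdfe1) b21245 (.nil))) (.nil)))) (.nil)))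
noncomputable def r22_2 : Rw Blk := .tok (nat_lit 6) (nat_lit 0x5e0000bc00017f531afe1c3) (.hit (nat_lit 0) (nat_lit 0) (nat_lit 0x5e0000bc00017f385afe1c3) b21256 (.tok (nat_lit 3) (nat_lit 0x5e0000bc00017f531afd950) (.hit (nat_lit 1) (nat_lit 1) (nat_lit 0x5e0000bc00017e5b02fc251) b21257 (.one (nat_lit 56) (nat_lit 3) (nat_lit 6) (nat_lit 0x5e0000bc00017eef3afcbc7) b21258 (.one (nat_lit 68) (nat_lit 2) (nat_lit 5) (nat_lit 0x5e0000bc00017f531afd950) b21259 (.nil)))) (.nil))) (.tok (nat_lit 9) (nat_lit 0x5e0000bc0001800003003a8) (.hit (nat_lit 10) (nat_lit 0) (nat_lit 0x5e0000bc00017f385afe11d) b21246 (.tok (nat_lit 3) (nat_lit 0x5e0000bc00017f531afe3a3) (.hit (nat_lit 11) (nat_lit 1) (nat_lit 0x5e0000bc00017e5b02fcd53) b21247 (.one (nat_lit 56) (nat_lit 13) (nat_lit 6) (nat_lit 0x5e0000bc00017f531afe3a3) b21248 (.one (nat_lit 68) (nat_lit 12) (nat_lit 5) (nat_lit 0x5e0000bc00017eef3afd7c2)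 b21249 (.nil)))) (.tok (nat_lit 40) (nat_lit 0x5e0000bc00017eb8e2fda7f) (.hit (nat_lit 14) (nat_lit 33) (nat_lit 0x5e0000bc00017eb8e2fd63e) b21250 (.hit (nat_lit 15) (nat_lit 34) (nat_lit 0x5e0000bc00017eb0aafda7f) b21251 (.nil))) (.tok (nat_lit 43) (nat_lit 0x5e0000bc0001800003003a8) (.hit (nat_lit 16) (nat_lit 35) (nat_lit 0x5e0000bc00017e8072fcd6b) b21254 (.hit (nat_lit 17) (nat_lit 36) (nat_lit 0x5e0000bc0001800003003a8) b21255 (.nil))) (.tok (nat_lit 46) (nat_lit 0x5e0000bc00017f603afdfc4) (.hit (nat_lit 18) (nat_lit 37) (nat_lit 0x5e0000bc00017f603afdfc4) b21252 (.hit (nat_lit 19) (nat_lit 38) (nat_lit 0x5e0000bc00017f10cafdec7) b21253 (.nil))) (.nil)))))) (.nil))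
noncomputable def r22_3 : Rw Blk := .tok (nat_lit 3) (nat_lit 0xbc0001806d9b0018d) (.hit (nat_lit 17) (nat_lit 0) (nat_lit 0xbc00017f6552fdf44) b21323 (.tok (nat_lit 6) (nat_lit 0xbc00017f436afe3c1) (.hit (nat_lit 18) (nat_lit 7) (nat_lit 0xbc00017e89dafcc8f) b21324 (.hit (nat_lit 21) (nat_lit 15) (nat_lit 0xbc00017e9602fce14) b21327 (.tok (nat_lit 56) (nat_lit 0xbc00017f436afe3c1) (.hit (nat_lit 19) (nat_lit 13) (nat_lit 0xbc00017f2bdafe0cf) b21325 (.hit (nat_lit 23) (nat_lit 19) (nat_lit 0xbc00017f0efafdd33) b21328 (.one (nat_lit 6) (nat_lit 20) (nat_lit 14) (nat_lit 0xbc00017f436afe3c1) b21326 (.nil)))) (.nil)))) (.tok (nat_lit 52) (nat_lit 0xbc00017f2942fe07c) (.hit (nat_lit 24) (nat_lit 39) (nat_lit 0xbc00017f1702fde34) b21329 (.hit (nat_lit 25) (nat_lit 40) (nat_lit 0xbc00017f2942fe07c) b21330 (.nil))) (.tok (nat_lit 55) (nat_lit 0xbc0001806d9b0018d) (.hit (nat_lit 26) (nat_lit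 41) (nat_lit 0xbc0001806d9b0018d) b21331 (.one (nat_lit 3) (nat_lit 32) (nat_lit 47) (nat_lit 0xbc00017f0a5afdc9f) b21337 (.tok (nat_lit 6) (nat_lit 0xbc00017f73a2fe9c8) (.hit (nat_lit 27) (nat_lit 42) (nat_lit 0xbc00017f01e2fdb90) b21332 (.hit (nat_lit 30) (nat_lit 45) (nat_lit 0xbc00017ef1bafd98b) b21335 (.tok (nat_lit 55) (nat_lit 0xbc00017f73a2fe9c8) (.hit (nat_lit 28) (nat_lit 43) (nat_lit 0xbc00017f73a2fe9c8) b21333 (.hit (nat_lit 31) (nat_lit 46) (nat_lit 0xbc00017f5bf2fe6d2) b21336 (.one (nat_lit 6) (nat_lit 29) (nat_lit 44) (nat_lit 0xbc00017f52a2fe5a8) b21334 (.nil)))) (.nil)))) (.nil)))) (.one (nat_lit 58) (nat_lit 33) (nat_lit 49) (nat_lit 0xbc00017f1ebafdf2b) b21338 (.nil)))))) (.tok (nat_lit 9) (nat_lit 0xbc000180588301707) (.hit (nat_lit 0) (nat_lit 0) (nat_lit 0xbc0001802c42ff6c8) b21316 (.tok (nat_lit 9) (nat_lit 0xbc000180588301707) (.hit (nat_lit 1) (nat_lit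 20) (nat_lit 0xbc00017ffb3b0044d) b21317 (.hit (nat_lit 4) (nat_lit 28) (nat_lit 0xbc00017f4632fd370) b21320 (.one (nat_lit 56) (nat_lit 5) (nat_lit 31) (nat_lit 0xbc00017f9582fec0f) b21321 (.tok (nat_lit 68) (nat_lit 0xbc000180588301707) (.hit (nat_lit 2) (nat_lit 26) (nat_lit 0xbc0001805883003a1) b21318 (.hit (nat_lit 6) (nat_lit 32) (nat_lit 0xbc00017fd2d2fe826) b21322 (.one (nat_lit 9) (nat_lit 3) (nat_lit 27) (nat_lit 0xbc00018050fb01707) b21319 (.nil)))) (.nil))))) (.nil))) (.nil))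
noncomputable def r22_4 : Rw Blk := .tok (nat_lit 3) (nat_lit 0x5e0000bc0001800002ff6f7) (.hit (nat_lit 17) (nat_lit 0) (nat_lit 0x5e0000bc00017f315afe0ef) b21346 (.tok (nat_lit 6) (nat_lit 0x5e0000bc00017f68cafe7dd) (.hit (nat_lit 18) (nat_lit 7) (nat_lit 0x5e0000bc00017ecea2fd498) b21347 (.hit (nat_lit 21) (nat_lit 15) (nat_lit 0x5e0000bc00017e598afc5f5) b21350 (.tok (nat_lit 56) (nat_lit 0x5e0000bc00017f68cafe7dd) (.hit (nat_lit 19) (nat_lit 13) (nat_lit 0x5e0000bc00017f441afe347) b21348 (.hit (nat_lit 23) (nat_lit 19) (nat_lit 0x5e0000bc00017ec13afd2eb) b21351 (.one (nat_lit 6) (nat_lit 20) (nat_lit 14) (nat_lit 0x5e0000bc00017f68cafe7dd) b21349 (.nil)))) (.nil)))) (.tok (nat_lit 52) (nat_lit 0x5e0000bc00017f0efafdca3) (.hit (nat_lit 24) (nat_lit 39) (nat_lit 0x5e0000bc00017f0512fdb66) b21352 (.hit (nat_lit 25) (nat_lit 40) (nat_lit 0x5e0000bc00017f0efafdca3) b21353 (.nil)))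 (.tok (nat_lit 55) (nat_lit 0x5e0000bc0001800002ff6f7) (.hit (nat_lit 26) (nat_lit 41) (nat_lit 0x5e0000bc0001800002fea40) b21354 (.one (nat_lit 3) (nat_lit 32) (nat_lit 47) (nat_lit 0x5e0000bc00017f5692fe596) b21360 (.tok (nat_lit 6) (nat_lit 0x5e0000bc00017fdcfaff6f7) (.hit (nat_lit 27) (nat_lit 42) (nat_lit 0x5e0000bc00017f4d52fe5d6) b21355 (.hit (nat_lit 30) (nat_lit 45) (nat_lit 0x5e0000bc00017f0eeafdca1) b21358 (.tok (nat_lit 55) (nat_lit 0x5e0000bc00017fdcfaff6f7) (.hit (nat_lit 28) (nat_lit 43) (nat_lit 0x5e0000bc00017fdcfaff6f7) b21356 (.hit (nat_lit 31) (nat_lit 46) (nat_lit 0x5e0000bc00017f57f2fe5c2) b21359 (.one (nat_lit 6) (nat_lit 29) (nat_lit 44) (nat_lit 0x5e0000bc00017fb9a2ff1f8) b21357 (.nil)))) (.nil)))) (.nil)))) (.one (nat_lit 58) (nat_lit 33) (nat_lit 49) (nat_lit 0x5e0000bc00017f7012fe8c6) b21361 (.nil)))))) (.tok (nat_lit 9) (nat_lit 0x5e0000bc00017fe69b00000)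 (.hit (nat_lit 0) (nat_lit 0) (nat_lit 0x5e0000bc00017f779afed0c) b21339 (.tok (nat_lit 9) (nat_lit 0x5e0000bc00017fe69b00000) (.hit (nat_lit 1) (nat_lit 20) (nat_lit 0x5e0000bc00017f2cbafeb43) b21340 (.hit (nat_lit 4) (nat_lit 28) (nat_lit 0x5e0000bc00017f3422fe0f7) b21343 (.one (nat_lit 56) (nat_lit 5) (nat_lit 31) (nat_lit 0x5e0000bc00017fc58afe3f8) b21344 (.tok (nat_lit 68) (nat_lit 0x5e0000bc00017fe69b00000) (.hit (nat_lit 2) (nat_lit 26) (nat_lit 0x5e0000bc00017fe69b00000) b21341 (.hit (nat_lit 6) (nat_lit 32) (nat_lit 0x5e0000bc00017faa62ff259) b21345 (.one (nat_lit 9) (nat_lit 3) (nat_lit 27) (nat_lit 0x5e0000bc00017fbdcaff6f0) b21342 (.nil)))) (.nil))))) (.nil))) (.nil))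
noncomputable def r22_5 : Rw Blk := .tok (nat_lit 3) (nat_lit 0xbc00017fa642ff8275faa24bfd9757f1d8aff9cd) (.hit (nat_lit 17) (nat_lit 0) (nat_lit 0xbc00017e9dfafd5de5f5ee0bf2bf97de0aafd370) b21277 (.tok (nat_lit 9) (nat_lit 0xbc00017e705afd8e45f5970beff917de20afcb28) (.hit (nat_lit 18) (nat_lit 20) (nat_lit 0xbc00017dc282fc3295f2dfabea8a57d3432fb56d) b21278 (.hit (nat_lit 21) (nat_lit 28) (nat_lit 0xbc00017dceaafc4ae5f3104beaeb97d405afb6f2) b21279 (.one (nat_lit 56) (nat_lit 22) (nat_lit 31) (nat_lit 0xbc00017e705afd8e45f5970beff917de20afcb28) b21280 (.nil)))) (.tok (nat_lit 64) (nat_lit 0xbc00017e61eafd7165f55d4bef8597dd39afc95a) (.hit (nat_lit 24) (nat_lit 50) (nat_lit 0xbc00017e4faafd4ce5f5144beef397dc15afc712) b21281 (.hit (nat_lit 25) (nat_lit 51) (nat_lit 0xbc00017e61eafd7165f55d4bef8597dd39afc95a) b21282 (.nil))) (.tok (nat_lit 67) (nat_lit 0xbc00017fa642ff8275faa24bfd9757f1d8aff9cd)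 (.hit (nat_lit 26) (nat_lit 52) (nat_lit 0xbc00017fa642ff8275faa24bfd9757f1d8aff9cd) b21283 (.one (nat_lit 3) (nat_lit 32) (nat_lit 58) (nat_lit 0xbc00017e4302fd3395f4e1abee8e57db4b2fc57d) b21286 (.tok (nat_lit 9) (nat_lit 0xbc00017e3a8afd22a5f4bfcbee4a97dac3afc46e) (.hit (nat_lit 27) (nat_lit 53) (nat_lit 0xbc00017e3a8afd22a5f4bfcbee4a97dac3afc46e) b21284 (.hit (nat_lit 30) (nat_lit 56) (nat_lit 0xbc00017e2a62fd0255f47f2bedc957d9c12fc269) b21285 (.nil))) (.nil)))) (.one (nat_lit 70) (nat_lit 33) (nat_lit 60) (nat_lit 0xbc00017e5762fd5c55f5332bef3157dc912fc809) b21287 (.nil)))))) (.tok (nat_lit 6) (nat_lit 0xbc000180e5a302b15601d76c0742d8099d302269) (.hit (nat_lit 0) (nat_lit 0) (nat_lit 0xbc00017f64eafed625f9838bf8e857f0a22ff3df) b21260 (.tok (nat_lit 6) (nat_lit 0xbc00017f912b00da1601d76c067f58099d301f59) (.hit (nat_lit 1) (nat_lit 7) (nat_lit 0xbc00017f33e2ffae75fc610bff6657fe53b006d9)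 b21261 (.hit (nat_lit 4) (nat_lit 15) (nat_lit 0xbc00017e7edafca0a5f61b6bf2e257dd612fd9b8) b21264 (.tok (nat_lit 56) (nat_lit 0xbc00017f912b00da1601d76c067f58099d301f59) (.hit (nat_lit 2) (nat_lit 13) (nat_lit 0xbc00017f912affa3b5fdb86c012a9800b3b00501) b21262 (.hit (nat_lit 6) (nat_lit 19) (nat_lit 0xbc00017f0b7afdec05f8a6abf81957e7f42fe453) b21266 (.one (nat_lit 6) (nat_lit 3) (nat_lit 14) (nat_lit 0xbc00017f89a300da1601d76c067f58099d301f59) b21263 (.nil)))) (.one (nat_lit 68) (nat_lit 5) (nat_lit 18) (nat_lit 0xbc00017ece2afe2a95f7e48bf50657e6442fe3c7) b21265 (.nil))))) (.tok (nat_lit 52) (nat_lit 0xbc00018028c2fff035fac56bfc64d7ef49affdf9) (.hit (nat_lit 7) (nat_lit 39) (nat_lit 0xbc00017f3b12fe7295f9bf0bf8a097e6d22fe9c1) b21267 (.hit (nat_lit 8) (nat_lit 40) (nat_lit 0xbc00018028c2fff035fac56bfc64d7ef49affdf9) b21268 (.nil))) (.tok (nat_lit 55) (nat_lit 0xbc000180e5a302b156008a0c0742d807bab02269)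 (.hit (nat_lit 9) (nat_lit 41) (nat_lit 0xbc000180cc0b02b155ffa40c05d25807bab01f06) b21269 (.one (nat_lit 3) (nat_lit 15) (nat_lit 47) (nat_lit 0xbc00018016fb00cb65fe6a0c029f17ff14301b85) b21275 (.tok (nat_lit 6) (nat_lit 0xbc000180e5a3020296008a0c0742d807af302269) (.hit (nat_lit 10) (nat_lit 42) (nat_lit 0xbc00017fc0d2ff0c25f977cbf85d57e8e1aff277) b21270 (.hit (nat_lit 13) (nat_lit 45) (nat_lit 0xbc00017fdab3020296008a0c0742d807af302269) b21273 (.tok (nat_lit 55) (nat_lit 0xbc000180e5a301ad15feb4ac0323d8027db01a8e) (.hit (nat_lit 11) (nat_lit 43) (nat_lit 0xbc000180e5a301ad15fda58c015697fb16301990) b21271 (.hit (nat_lit 14) (nat_lit 46) (nat_lit 0xbc00017fd99b00eb35feb4ac0323d8027db014a6) b21274 (.one (nat_lit 6) (nat_lit 12) (nat_lit 44) (nat_lit 0xbc000180b2b30162f5fceacc001857f7cf301a8e) b21272 (.nil)))) (.nil)))) (.nil)))) (.one (nat_lit 58) (nat_lit 16) (nat_lit 49) (nat_lit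 0xbc0001802873008bc5fae54bfc22d7f1202ffb46) b21276 (.nil)))))) (.nil))
noncomputable def r22_6 : Rw Blk := .tok (nat_lit 3) (nat_lit 0x5e0000bc00017f32cafe86a) (.hit (nat_lit 17) (nat_lit 0) (nat_lit 0x5e0000bc00017e6422fd348) b21305 (.tok (nat_lit 9) (nat_lit 0x5e0000bc00017e784afd5cd) (.hit (nat_lit 18) (nat_lit 20) (nat_lit 0x5e0000bc00017e016afc6f1) b21306 (.hit (nat_lit 21) (nat_lit 28) (nat_lit 0x5e0000bc00017d8c52fb84e) b21307 (.one (nat_lit 56) (nat_lit 22) (nat_lit 31) (nat_lit 0x5e0000bc00017e784afd5cd) b21308 (.nil)))) (.tok (nat_lit 64) (nat_lit 0x5e0000bc00017e41c2fcefc) (.hit (nat_lit 24) (nat_lit 50) (nat_lit 0x5e0000bc00017e37dafcdbf) b21309 (.hit (nat_lit 25) (nat_lit 51) (nat_lit 0x5e0000bc00017e41c2fcefc) b21310 (.nil))) (.tok (nat_lit 67) (nat_lit 0x5e0000bc00017f32cafe86a) (.hit (nat_lit 26) (nat_lit 52) (nat_lit 0x5e0000bc00017f32cafe86a) b21311 (.one (nat_lit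 3) (nat_lit 32) (nat_lit 58) (nat_lit 0x5e0000bc00017e895afd7ef) b21314 (.tok (nat_lit 9) (nat_lit 0x5e0000bc00017e801afd6c7) (.hit (nat_lit 27) (nat_lit 53) (nat_lit 0x5e0000bc00017e801afd6c7) b21312 (.hit (nat_lit 30) (nat_lit 56) (nat_lit 0x5e0000bc00017e41b2fcefa) b21313 (.nil))) (.nil)))) (.one (nat_lit 70) (nat_lit 33) (nat_lit 60) (nat_lit 0x5e0000bc00017ea2dafdb1f) b21315 (.nil)))))) (.tok (nat_lit 6) (nat_lit 0x5e0000bc0001809d6b016eb) (.hit (nat_lit 0) (nat_lit 0) (nat_lit 0x5e0000bc00017eaa62fda74) b21288 (.tok (nat_lit 6) (nat_lit 0x5e0000bc00017f1962fea83) (.hit (nat_lit 1) (nat_lit 7) (nat_lit 0x5e0000bc00017e5f82fd2a4) b21289 (.hit (nat_lit 4) (nat_lit 15) (nat_lit 0x5e0000bc00017e66eafca58) b21292 (.tok (nat_lit 56) (nat_lit 0x5e0000bc00017f1962fea83) (.hit (nat_lit 2) (nat_lit 13) (nat_lit 0x5e0000bc00017f1962fea83) b21290 (.hit (nat_lit 6) (nat_lit 19) (nat_lit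 0x5e0000bc00017edd2afd7ce) b21294 (.one (nat_lit 6) (nat_lit 3) (nat_lit 14) (nat_lit 0x5e0000bc00017ef092fe558) b21291 (.nil)))) (.one (nat_lit 68) (nat_lit 5) (nat_lit 18) (nat_lit 0x5e0000bc00017ef852fd676) b21293 (.nil))))) (.tok (nat_lit 52) (nat_lit 0x5e0000bc00017f1332fe258) (.hit (nat_lit 7) (nat_lit 39) (nat_lit 0x5e0000bc00017e563afcd60) b21295 (.hit (nat_lit 8) (nat_lit 40) (nat_lit 0x5e0000bc00017f1332fe258) b21296 (.nil))) (.tok (nat_lit 55) (nat_lit 0x5e0000bc0001809d6b016eb) (.hit (nat_lit 9) (nat_lit 41) (nat_lit 0x5e0000bc00017f8e4aff494) b21297 (.one (nat_lit 3) (nat_lit 15) (nat_lit 47) (nat_lit 0x5e0000bc00017f3d32fe474) b21303 (.tok (nat_lit 6) (nat_lit 0x5e0000bc0001809d6b016eb) (.hit (nat_lit 10) (nat_lit 42) (nat_lit 0x5e0000bc00017f803afeed9) b21298 (.hit (nat_lit 13) (nat_lit 45) (nat_lit 0x5e0000bc00017f47e2fe60a) b21301 (.tok (nat_lit 55) (nat_lit 0x5e0000bc0001809d6b016eb)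 (.hit (nat_lit 11) (nat_lit 43) (nat_lit 0x5e0000bc00017fdabb00af7) b21299 (.hit (nat_lit 14) (nat_lit 46) (nat_lit 0x5e0000bc00017f876aff2e0) b21302 (.one (nat_lit 6) (nat_lit 12) (nat_lit 44) (nat_lit 0x5e0000bc0001809d6b016eb) b21300 (.nil)))) (.nil)))) (.nil)))) (.one (nat_lit 58) (nat_lit 16) (nat_lit 49) (nat_lit 0x5e0000bc00017f2a32fdf99) b21304 (.nil)))))) (.nil))
noncomputable def r22_7 : Rw Blk := .tok (nat_lit 3) (nat_lit 0x5e0000bc00017eeca2feec2) (.hit (nat_lit 0) (nat_lit 0) (nat_lit 0x5e0000bc00017eeca2feec2) b36028 (.tok (nat_lit 6) (nat_lit 0x5e0000bc00017e102afcac4) (.hit (nat_lit 1) (nat_lit 7) (nat_lit 0x5e0000bc00017df84afc7c8) b21363 (.hit (nat_lit 2) (nat_lit 15) (nat_lit 0x5e0000bc00017e102afcac4) b21364 (.nil))) (.tok (nat_lit 9) (nat_lit 0x5e0000bc00017e102afcac4) (.hit (nat_lit 3) (nat_lit 20) (nat_lit 0x5e0000bc00017df84afc7c8) b21363 (.hit (nat_lit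 4) (nat_lit 28) (nat_lit 0x5e0000bc00017e102afcac4) b21364 (.nil))) (.nil)))) (.tok (nat_lit 6) (nat_lit 0x5e0000bc00017f6aaaff40e) (.hit (nat_lit 5) (nat_lit 0) (nat_lit 0x5e0000bc00017f22aafee46) b21374 (.tok (nat_lit 3) (nat_lit 0x5e0000bc00017f6aaaff40e) (.hit (nat_lit 6) (nat_lit 1) (nat_lit 0x5e0000bc00017e80bafd964) b21375 (.one (nat_lit 67) (nat_lit 7) (nat_lit 2) (nat_lit 0x5e0000bc00017f6aaaff40e) b21376 (.nil))) (.tok (nat_lit 6) (nat_lit 0x5e0000bc00017f1162fe3a4) (.hit (nat_lit 8) (nat_lit 7) (nat_lit 0x5e0000bc00017f1162fe3a4) b21377 (.hit (nat_lit 12) (nat_lit 15) (nat_lit 0x5e0000bc00017e7412fd9ce) b21378 (.nil))) (.nil)))) (.tok (nat_lit 9) (nat_lit 0x5e0000bc000180000300d5a) (.hit (nat_lit 14) (nat_lit 0) (nat_lit 0x5e0000bc00017f22aafef11) b21365 (.tok (nat_lit 3) (nat_lit 0x5e0000bc00017f6aaaffca9) (.hit (nat_lit 15) (nat_lit 1) (nat_lit 0x5e0000bc00017e80bafdf0d)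 b21366 (.one (nat_lit 55) (nat_lit 16) (nat_lit 3) (nat_lit 0x5e0000bc00017f6aaaffca9) b21367 (.nil))) (.tok (nat_lit 9) (nat_lit 0x5e0000bc000180000300d5a) (.hit (nat_lit 17) (nat_lit 20) (nat_lit 0x5e0000bc00017f1162ff1f0) b21368 (.hit (nat_lit 21) (nat_lit 28) (nat_lit 0x5e0000bc00017e7412fdd9e) b21372 (.tok (nat_lit 67) (nat_lit 0x5e0000bc000180000300d5a) (.hit (nat_lit 18) (nat_lit 21) (nat_lit 0x5e0000bc000180000300d5a) b21369 (.hit (nat_lit 22) (nat_lit 29) (nat_lit 0x5e0000bc00017f108afef97) b21373 (.tok (nat_lit 9) (nat_lit 0x5e0000bc00017f7eaafff6f) (.hit (nat_lit 19) (nat_lit 22) (nat_lit 0x5e0000bc00017f01bafff6f) b21370 (.one (nat_lit 67) (nat_lit 20) (nat_lit 23) (nat_lit 0x5e0000bc00017f7eaaff850) b21371 (.nil))) (.nil)))) (.nil)))) (.nil)))) (.nil)))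
noncomputable def r22_8 : Rw Blk := .tok (nat_lit 3) (nat_lit 0xbc0001780002fe9c6) (.hit (nat_lit 18) (nat_lit 0) (nat_lit 0xbc0001780002fe9c6) b21437 (.tok (nat_lit 6) (nat_lit 0xbc0001780002fd90e) (.hit (nat_lit 19) (nat_lit 7) (nat_lit 0xbc0001780002fd90e) b21440 (.hit (nat_lit 20) (nat_lit 15) (nat_lit 0xbc0001780002fc62d) b21441 (.nil))) (.tok (nat_lit 9) (nat_lit 0xbc0001780002fcddf) (.hit (nat_lit 21) (nat_lit 20) (nat_lit 0xbc0001780002fcddf) b21438 (.hit (nat_lit 22) (nat_lit 28) (nat_lit 0xbc0001780002fc5e0) b21439 (.nil))) (.nil)))) (.tok (nat_lit 6) (nat_lit 0xbc0001780002fee7f) (.hit (nat_lit 0) (nat_lit 0) (nat_lit 0xbc0001780002fe811) b21421 (.one (nat_lit 3) (nat_lit 1) (nat_lit 1) (nat_lit 0xbc0001780002fc1bc) b21422 (.tok (nat_lit 6) (nat_lit 0xbc0001780002fee7f) (.hit (nat_lit 3) (nat_lit 7) (nat_lit 0xbc0001780002fc114) b21423 (.hit (nat_lit 7) (nat_lit 15)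 (nat_lit 0xbc0001780002fca80) b21427 (.tok (nat_lit 55) (nat_lit 0xbc0001780002fee7f) (.hit (nat_lit 4) (nat_lit 8) (nat_lit 0xbc0001780002fe2a5) b21424 (.hit (nat_lit 8) (nat_lit 16) (nat_lit 0xbc0001780002fe9f6) b21428 (.tok (nat_lit 6) (nat_lit 0xbc0001780002fee7f) (.hit (nat_lit 5) (nat_lit 9) (nat_lit 0xbc0001780002fdd77) b21425 (.one (nat_lit 55) (nat_lit 6) (nat_lit 10) (nat_lit 0xbc0001780002fee7f) b21426 (.nil))) (.nil)))) (.nil)))) (.nil)))) (.tok (nat_lit 9) (nat_lit 0xbc0001780003031cc) (.hit (nat_lit 9) (nat_lit 0) (nat_lit 0xbc0001780002fffb4) b21429 (.one (nat_lit 3) (nat_lit 10) (nat_lit 1) (nat_lit 0xbc0001780002fec6e) b21430 (.tok (nat_lit 9) (nat_lit 0xbc0001780003031cc) (.hit (nat_lit 12) (nat_lit 20) (nat_lit 0xbc0001780002ff363) b21431 (.hit (nat_lit 16) (nat_lit 28) (nat_lit 0xbc0001780002fdea0) b21435 (.tok (nat_lit 67) (nat_lit 0xbc0001780003031cc) (.hit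 (nat_lit 13) (nat_lit 21) (nat_lit 0xbc000178000302ead) b21432 (.hit (nat_lit 17) (nat_lit 29) (nat_lit 0xbc000178000300845) b21436 (.tok (nat_lit 9) (nat_lit 0xbc0001780003031cc) (.hit (nat_lit 14) (nat_lit 22) (nat_lit 0xbc0001780003025d5) b21433 (.one (nat_lit 67) (nat_lit 15) (nat_lit 23) (nat_lit 0xbc0001780003031cc) b21434 (.nil))) (.nil)))) (.nil)))) (.nil)))) (.nil)))
noncomputable def r22_9 : Rw Blk := .tok (nat_lit 3) (nat_lit 0x5e0000bc00017eacf2fdc2a) (.hit (nat_lit 18) (nat_lit 0) (nat_lit 0x5e0000bc00017eacf2fdc2a) b21458 (.tok (nat_lit 6) (nat_lit 0x5e0000bc00017e393afd8cd) (.hit (nat_lit 19) (nat_lit 7) (nat_lit 0x5e0000bc00017e393afd8cd) b21461 (.hit (nat_lit 20) (nat_lit 15) (nat_lit 0x5e0000bc00017e2a2afd6eb) b21462 (.nil))) (.tok (nat_lit 9) (nat_lit 0x5e0000bc00017e24dafd641) (.hit (nat_lit 21) (nat_lit 20) (nat_lit 0x5e0000bc00017e1172fd3d4) b21459 (.hit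 (nat_lit 22) (nat_lit 28) (nat_lit 0x5e0000bc00017e24dafd641) b21460 (.nil))) (.nil)))) (.tok (nat_lit 6) (nat_lit 0x5e0000bc0001800002ff751) (.hit (nat_lit 0) (nat_lit 0) (nat_lit 0x5e0000bc00017f48aafeb80) b21442 (.one (nat_lit 3) (nat_lit 1) (nat_lit 1) (nat_lit 0x5e0000bc00017e74a2fd6e7) b21443 (.tok (nat_lit 6) (nat_lit 0x5e0000bc0001800002ff751) (.hit (nat_lit 3) (nat_lit 7) (nat_lit 0x5e0000bc00017ef97afe794) b21444 (.hit (nat_lit 7) (nat_lit 15) (nat_lit 0x5e0000bc00017e7152fde5a) b21448 (.tok (nat_lit 55) (nat_lit 0x5e0000bc0001800002ff751) (.hit (nat_lit 4) (nat_lit 8) (nat_lit 0x5e0000bc00017f9202ff751) b21445 (.hit (nat_lit 8) (nat_lit 16) (nat_lit 0x5e0000bc00017f14dafe79e) b21449 (.tok (nat_lit 6) (nat_lit 0x5e0000bc0001800002ff630) (.hit (nat_lit 5) (nat_lit 9) (nat_lit 0x5e0000bc00017f60d2fe3bd) b21446 (.one (nat_lit 55) (nat_lit 6) (nat_lit 10) (nat_lit 0x5e0000bc0001800002ff630)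 b21447 (.nil))) (.nil)))) (.nil)))) (.nil)))) (.tok (nat_lit 9) (nat_lit 0x5e0000bc00017f97f300000) (.hit (nat_lit 9) (nat_lit 0) (nat_lit 0x5e0000bc00017f017affa28) b21450 (.one (nat_lit 3) (nat_lit 10) (nat_lit 1) (nat_lit 0x5e0000bc00017e99bafdf14) b21451 (.tok (nat_lit 9) (nat_lit 0x5e0000bc00017f97f300000) (.hit (nat_lit 12) (nat_lit 20) (nat_lit 0x5e0000bc00017ee26afe938) b21452 (.hit (nat_lit 16) (nat_lit 28) (nat_lit 0x5e0000bc00017ea7a2fdff0) b21456 (.tok (nat_lit 67) (nat_lit 0x5e0000bc00017f97f300000) (.hit (nat_lit 13) (nat_lit 21) (nat_lit 0x5e0000bc00017f5b12ff3ec) b21453 (.hit (nat_lit 17) (nat_lit 29) (nat_lit 0x5e0000bc00017f53fb00000) b21457 (.tok (nat_lit 9) (nat_lit 0x5e0000bc00017f97f2ffb50) (.hit (nat_lit 14) (nat_lit 22) (nat_lit 0x5e0000bc00017f2f92fed3d) b21454 (.one (nat_lit 67) (nat_lit 15) (nat_lit 23) (nat_lit 0x5e0000bc00017f97f2ffb50) b21455 (.nil)))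 (.nil)))) (.nil)))) (.nil)))) (.nil)))
noncomputable def r22_10 : Rw Blk := .tok (nat_lit 3) (nat_lit 0xbc0001780002fdb465f654abe80757ddb72fc0f1) (.hit (nat_lit 18) (nat_lit 0) (nat_lit 0xbc0001780002fdb465f654abe80757ddb72fc0f1) b21395 (.tok (nat_lit 6) (nat_lit 0xbc0001780002fbf5f5f2570be39f17d1242fa42c) (.hit (nat_lit 19) (nat_lit 7) (nat_lit 0xbc0001780002fbf5f5f2570be39f17d1242fa42c) b21398 (.hit (nat_lit 20) (nat_lit 15) (nat_lit 0xbc0001780002fb7605f1572be19f57cd24af9c2d) b21399 (.nil))) (.tok (nat_lit 9) (nat_lit 0xbc0001780002fca8e5f3bcebe66ad7d6bbafaf5b) (.hit (nat_lit 21) (nat_lit 20) (nat_lit 0xbc0001780002fca8e5f3bcebe66ad7d6bbafaf5b) b21396 (.hit (nat_lit 22) (nat_lit 28) (nat_lit 0xbc0001780002fb7ad5f160cbe1b297cd4b2f9c7a) b21397 (.nil))) (.nil)))) (.tok (nat_lit 6) (nat_lit 0xbc00017800030202d60225cc0649d81467b028bc) (.hit (nat_lit 9) (nat_lit 0) (nat_lit 0xbc0001780002ff1345fbbbcbf0a3d7f33d2ff1f3)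 b21387 (.tok (nat_lit 3) (nat_lit 0xbc00017800030195c5fd28abf40817fc2eaffd00) (.hit (nat_lit 10) (nat_lit 1) (nat_lit 0xbc0001780002fddee5f61b8be9bcd7e09aafd1f9) b21388 (.one (nat_lit 67) (nat_lit 11) (nat_lit 2) (nat_lit 0xbc00017800030195c5fd28abf40817fc2eaffd00) b21389 (.nil))) (.tok (nat_lit 6) (nat_lit 0xbc00017800030202d60225cc0649d81467b028bc) (.hit (nat_lit 12) (nat_lit 7) (nat_lit 0xbc0001780002fe4e35fbc1cbf48597f39daff301) b21390 (.hit (nat_lit 16) (nat_lit 15) (nat_lit 0xbc0001780002fd0205f64c0beb1b97dfe4afd6d4) b21393 (.tok (nat_lit 55) (nat_lit 0xbc00017800030202d60225cc0649d81467b028bc) (.hit (nat_lit 13) (nat_lit 8) (nat_lit 0xbc00017800030202d6009f0c0649d81467b028bc) b21391 (.hit (nat_lit 17) (nat_lit 16) (nat_lit 0xbc0001780002ff9c55fb41cbf46117f315aff64e) b21394 (.one (nat_lit 6) (nat_lit 14) (nat_lit 9) (nat_lit 0xbc00017800030175560225cc03ed180f4db01ac8) b21392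 (.nil)))) (.nil)))) (.nil)))) (.tok (nat_lit 9) (nat_lit 0xbc0001780002fdb765f5d9ebeaa4d7df2fafca02) (.hit (nat_lit 0) (nat_lit 0) (nat_lit 0xbc0001780002fd9915f4ac0be91d57dca02fca02) b21379 (.tok (nat_lit 3) (nat_lit 0xbc0001780002fca8d5f3bccbe66a97d6bb2faf5a) (.hit (nat_lit 1) (nat_lit 1) (nat_lit 0xbc0001780002fb33c5f0d2abe09657cb12af9809) b21380 (.one (nat_lit 55) (nat_lit 2) (nat_lit 3) (nat_lit 0xbc0001780002fca8d5f3bccbe66a97d6bb2faf5a) b21381 (.nil))) (.tok (nat_lit 9) (nat_lit 0xbc0001780002fdb765f5d9ebeaa4d7df2fafc043) (.hit (nat_lit 3) (nat_lit 20) (nat_lit 0xbc0001780002fb2945f0bdabe06c57cabeaf9761) b21382 (.hit (nat_lit 7) (nat_lit 28) (nat_lit 0xbc0001780002fbc005f1eb2be2c757cf74afa0cd) b21385 (.tok (nat_lit 67) (nat_lit 0xbc0001780002fdb765f5d9ebeaa4d7df2fafc043) (.hit (nat_lit 4) (nat_lit 21) (nat_lit 0xbc0001780002fd4255f4efcbe8d097db872fb8f2) b21383 (.hit (nat_lit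 8) (nat_lit 29) (nat_lit 0xbc0001780002fdb765f5d9ebeaa4d7df2fafc043) b21386 (.one (nat_lit 9) (nat_lit 5) (nat_lit 22) (nat_lit 0xbc0001780002fcef75f44a0be78517d8f02fb3c4) b21384 (.nil)))) (.nil)))) (.nil)))) (.nil)))
noncomputable def r22_11 : Rw Blk := .tok (nat_lit 3) (nat_lit 0x5e0000bc00017f1af2fe067) (.hit (nat_lit 18) (nat_lit 0) (nat_lit 0x5e0000bc00017f1af2fe067) b21416 (.tok (nat_lit 6) (nat_lit 0x5e0000bc00017e92dafd4c3) (.hit (nat_lit 19) (nat_lit 7) (nat_lit 0x5e0000bc00017e7f72fd256) b21419 (.hit (nat_lit 20) (nat_lit 15) (nat_lit 0x5e0000bc00017e92dafd4c3) b21420 (.nil))) (.tok (nat_lit 9) (nat_lit 0x5e0000bc00017ea73afd74f) (.hit (nat_lit 21) (nat_lit 20) (nat_lit 0x5e0000bc00017ea73afd74f) b21417 (.hit (nat_lit 22) (nat_lit 28) (nat_lit 0x5e0000bc00017e982afd56d) b21418 (.nil))) (.nil)))) (.tok (nat_lit 6) (nat_lit 0x5e0000bc00017fc912fedd3) (.hit (nat_lit 9)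 (nat_lit 0) (nat_lit 0x5e0000bc00017f6f7afec0b) b21408 (.tok (nat_lit 3) (nat_lit 0x5e0000bc00017f959afea5b) (.hit (nat_lit 10) (nat_lit 1) (nat_lit 0x5e0000bc00017f07bafd4da) b21409 (.one (nat_lit 67) (nat_lit 11) (nat_lit 2) (nat_lit 0x5e0000bc00017f959afea5b) b21410 (.nil))) (.tok (nat_lit 6) (nat_lit 0x5e0000bc00017fc912fedd3) (.hit (nat_lit 12) (nat_lit 7) (nat_lit 0x5e0000bc00017f506afddf0) b21411 (.hit (nat_lit 16) (nat_lit 15) (nat_lit 0x5e0000bc00017f15a2fdcde) b21414 (.tok (nat_lit 55) (nat_lit 0x5e0000bc00017fc912fedd3) (.hit (nat_lit 13) (nat_lit 8) (nat_lit 0x5e0000bc00017fc912fedd3) b21412 (.hit (nat_lit 17) (nat_lit 16) (nat_lit 0x5e0000bc00017fc1fafecd0) b21415 (.one (nat_lit 6) (nat_lit 14) (nat_lit 9) (nat_lit 0x5e0000bc00017f9d92febbf) b21413 (.nil)))) (.nil)))) (.nil)))) (.tok (nat_lit 9) (nat_lit 0x5e0000bc000180000300000) (.hit (nat_lit 0) (nat_lit 0) (nat_lit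 0x5e0000bc00017fb6aafefe4) b21400 (.tok (nat_lit 3) (nat_lit 0x5e0000bc00017f9beb00000) (.hit (nat_lit 1) (nat_lit 1) (nat_lit 0x5e0000bc00017ee2a2fdc98) b21401 (.one (nat_lit 55) (nat_lit 2) (nat_lit 3) (nat_lit 0x5e0000bc00017f9beb00000) b21402 (.nil))) (.tok (nat_lit 9) (nat_lit 0x5e0000bc0001800002ff969) (.hit (nat_lit 3) (nat_lit 20) (nat_lit 0x5e0000bc00017f677afea68) b21403 (.hit (nat_lit 7) (nat_lit 28) (nat_lit 0x5e0000bc00017edf52fdcdd) b21406 (.tok (nat_lit 67) (nat_lit 0x5e0000bc0001800002ff969) (.hit (nat_lit 4) (nat_lit 21) (nat_lit 0x5e0000bc0001800002ff969) b21404 (.hit (nat_lit 8) (nat_lit 29) (nat_lit 0x5e0000bc00017f82daff938) b21407 (.one (nat_lit 9) (nat_lit 5) (nat_lit 22) (nat_lit 0x5e0000bc00017fced2fee3d) b21405 (.nil)))) (.nil)))) (.nil)))) (.nil)))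
noncomputable def r22_12 : Rw Blk := .tok (nat_lit 3) (nat_lit 0x5e0000bc00017f2f62fe2cb) (.hit (nat_lit 0) (nat_lit 0) (nat_lit 0x5e0000bc00017f2f62fe2cb) b36029 (.tok (nat_lit 6) (nat_lit 0x5e0000bc00017edae2fdc63) (.hit (nat_lit 1) (nat_lit 7) (nat_lit 0x5e0000bc00017ed182fdb37) b21464 (.hit (nat_lit 2) (nat_lit 15) (nat_lit 0x5e0000bc00017edae2fdc63) b21465 (.nil))) (.tok (nat_lit 9) (nat_lit 0x5e0000bc00017edae2fdc63) (.hit (nat_lit 3) (nat_lit 20) (nat_lit 0x5e0000bc00017ed182fdb37) b21464 (.hit (nat_lit 4) (nat_lit 28) (nat_lit 0x5e0000bc00017edae2fdc63) b21465 (.nil))) (.nil)))) (.tok (nat_lit 6) (nat_lit 0x5e0000bc000180000300000) (.hit (nat_lit 13) (nat_lit 0) (nat_lit 0x5e0000bc00017f6932fecd1) b21466 (.tok (nat_lit 3) (nat_lit 0x5e0000bc00017ff222ffcc0) (.hit (nat_lit 14) (nat_lit 1) (nat_lit 0x5e0000bc00017efac2fdf2e) b21467 (.one (nat_lit 67) (nat_lit 15) (nat_lit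 2) (nat_lit 0x5e0000bc00017ff222ffcc0) b21468 (.nil))) (.tok (nat_lit 6) (nat_lit 0x5e0000bc000180000300000) (.hit (nat_lit 16) (nat_lit 7) (nat_lit 0x5e0000bc00017f5c4afef94) b21469 (.hit (nat_lit 19) (nat_lit 15) (nat_lit 0x5e0000bc00017f10fafe54d) b21472 (.tok (nat_lit 55) (nat_lit 0x5e0000bc000180000300000) (.hit (nat_lit 17) (nat_lit 8) (nat_lit 0x5e0000bc00017ffd4300000) b21470 (.hit (nat_lit 20) (nat_lit 16) (nat_lit 0x5e0000bc00017fdf32ffb45) b21473 (.one (nat_lit 6) (nat_lit 18) (nat_lit 9) (nat_lit 0x5e0000bc0001800002fff10) b21471 (.nil)))) (.nil)))) (.nil)))) (.tok (nat_lit 9) (nat_lit 0x5e0000bc00017ff222ffce0) (.hit (nat_lit 5) (nat_lit 0) (nat_lit 0x5e0000bc00017f6932fed55) b21474 (.tok (nat_lit 3) (nat_lit 0x5e0000bc00017ff222ffce0) (.hit (nat_lit 6) (nat_lit 1) (nat_lit 0x5e0000bc00017efac2fdeb6) b21475 (.one (nat_lit 55) (nat_lit 7) (nat_lit 3) (nat_lit 0x5e0000bc00017ff222ffce0)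 b21476 (.nil))) (.tok (nat_lit 9) (nat_lit 0x5e0000bc00017f5c4afeaf0) (.hit (nat_lit 8) (nat_lit 20) (nat_lit 0x5e0000bc00017f5c4afeaf0) b21477 (.hit (nat_lit 11) (nat_lit 28) (nat_lit 0x5e0000bc00017f10fafe0b1) b21478 (.nil))) (.nil)))) (.nil)))
noncomputable def r22_13 : Rw Blk := .tok (nat_lit 3) (nat_lit 0x5e0000bc00017efcc2fdf3a) (.hit (nat_lit 0) (nat_lit 0) (nat_lit 0x5e0000bc00017efcc2fdf3a) b36030 (.tok (nat_lit 6) (nat_lit 0x5e0000bc00017e777afd533) (.hit (nat_lit 1) (nat_lit 7) (nat_lit 0x5e0000bc00017e777afd533) b21480 (.hit (nat_lit 2) (nat_lit 15) (nat_lit 0x5e0000bc00017e773afd52b) b21481 (.nil))) (.tok (nat_lit 9) (nat_lit 0x5e0000bc00017e777afd533) (.hit (nat_lit 3) (nat_lit 20) (nat_lit 0x5e0000bc00017e777afd533) b21480 (.hit (nat_lit 4) (nat_lit 28) (nat_lit 0x5e0000bc00017e773afd52b) b21481 (.nil))) (.nil)))) (.tok (nat_lit 6) (nat_lit 0x5e0000bc00017f74c2fe9c3)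 (.hit (nat_lit 5) (nat_lit 0) (nat_lit 0x5e0000bc00017f74c2fe9c3) b21490 (.one (nat_lit 3) (nat_lit 6) (nat_lit 1) (nat_lit 0x5e0000bc00017ecc82fce28) b21491 (.tok (nat_lit 6) (nat_lit 0x5e0000bc00017f55fafe5ad) (.hit (nat_lit 7) (nat_lit 7) (nat_lit 0x5e0000bc00017f55fafe5ad) b21492 (.hit (nat_lit 11) (nat_lit 15) (nat_lit 0x5e0000bc00017f0e9afd5b4) b21493 (.nil))) (.nil)))) (.tok (nat_lit 9) (nat_lit 0x5e0000bc000180000300000) (.hit (nat_lit 13) (nat_lit 0) (nat_lit 0x5e0000bc00017f74c2fe921) b21482 (.one (nat_lit 3) (nat_lit 14) (nat_lit 1) (nat_lit 0x5e0000bc00017ecc82fd208) b21483 (.tok (nat_lit 9) (nat_lit 0x5e0000bc000180000300000) (.hit (nat_lit 15) (nat_lit 20) (nat_lit 0x5e0000bc00017f55fafe5ad) b21484 (.hit (nat_lit 19) (nat_lit 28) (nat_lit 0x5e0000bc00017f0e9afdc33) b21488 (.tok (nat_lit 67) (nat_lit 0x5e0000bc000180000300000) (.hit (nat_lit 16) (nat_lit 21) (nat_lit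 0x5e0000bc00017f47dafec1c) b21485 (.hit (nat_lit 20) (nat_lit 29) (nat_lit 0x5e0000bc00017f7f6affc12) b21489 (.tok (nat_lit 9) (nat_lit 0x5e0000bc000180000300000) (.hit (nat_lit 17) (nat_lit 22) (nat_lit 0x5e0000bc00017f87a2fedb0) b21486 (.one (nat_lit 67) (nat_lit 18) (nat_lit 23) (nat_lit 0x5e0000bc000180000300000) b21487 (.nil))) (.nil)))) (.nil)))) (.nil)))) (.nil)))
noncomputable def r22_14 : Rw Blk := .tok (nat_lit 3) (nat_lit 0x5e0000bc00017eddfafdc22) (.hit (nat_lit 14) (nat_lit 0) (nat_lit 0x5e0000bc00017eddfafdc22) b21524 (.tok (nat_lit 6) (nat_lit 0x5e0000bc00017e186afbf96) (.hit (nat_lit 15) (nat_lit 7) (nat_lit 0x5e0000bc00017e186afbf96) b21527 (.hit (nat_lit 16) (nat_lit 15) (nat_lit 0x5e0000bc00017d94bafaf20) b21528 (.nil))) (.tok (nat_lit 9) (nat_lit 0x5e0000bc00017e938afcefa) (.hit (nat_lit 17) (nat_lit 20) (nat_lit 0x5e0000bc00017e938afcefa) b21525 (.hit (nat_lit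 18) (nat_lit 28) (nat_lit 0x5e0000bc00017e91bafcec0) b21526 (.nil))) (.nil)))) (.tok (nat_lit 6) (nat_lit 0x5e0000bc000180000300155) (.hit (nat_lit 0) (nat_lit 0) (nat_lit 0x5e0000bc00017f8c1afedda) b21512 (.one (nat_lit 3) (nat_lit 1) (nat_lit 1) (nat_lit 0x5e0000bc00017f0ebafde5d) b21513 (.tok (nat_lit 6) (nat_lit 0x5e0000bc000180000300155) (.hit (nat_lit 3) (nat_lit 7) (nat_lit 0x5e0000bc00017f5372fe441) b21514 (.hit (nat_lit 7) (nat_lit 15) (nat_lit 0x5e0000bc00017f02d2fdcce) b21518 (.tok (nat_lit 55) (nat_lit 0x5e0000bc000180000300155) (.hit (nat_lit 4) (nat_lit 8) (nat_lit 0x5e0000bc00017fbd9aff54d) b21515 (.hit (nat_lit 8) (nat_lit 16) (nat_lit 0x5e0000bc00017fc982ff5b9) b21519 (.tok (nat_lit 6) (nat_lit 0x5e0000bc000180000300155) (.hit (nat_lit 5) (nat_lit 9) (nat_lit 0x5e0000bc00017f8e9afef89) b21516 (.one (nat_lit 55) (nat_lit 6) (nat_lit 10) (nat_lit 0x5e0000bc000180000300155)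 b21517 (.nil))) (.nil)))) (.nil)))) (.nil)))) (.tok (nat_lit 9) (nat_lit 0x5e0000bc00017f234afed2f) (.hit (nat_lit 9) (nat_lit 0) (nat_lit 0x5e0000bc00017ede12fe7c4) b21520 (.one (nat_lit 3) (nat_lit 10) (nat_lit 1) (nat_lit 0x5e0000bc00017ec67afe3e6) b21521 (.tok (nat_lit 9) (nat_lit 0x5e0000bc00017f234afed2f) (.hit (nat_lit 12) (nat_lit 20) (nat_lit 0x5e0000bc00017f234afed2f) b21522 (.hit (nat_lit 13) (nat_lit 28) (nat_lit 0x5e0000bc00017efd92fe1bf) b21523 (.nil))) (.nil)))) (.nil)))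
noncomputable def r22_15 : Rw Blk := .tok (nat_lit 3) (nat_lit 0x5e0000bc00017f05cafe796) (.hit (nat_lit 14) (nat_lit 0) (nat_lit 0x5e0000bc00017f05cafe796) b21507 (.tok (nat_lit 6) (nat_lit 0x5e0000bc00017ebb5afddea) (.hit (nat_lit 15) (nat_lit 7) (nat_lit 0x5e0000bc00017ebb5afddea) b21510 (.hit (nat_lit 16) (nat_lit 15) (nat_lit 0x5e0000bc00017eb98afddb0) b21511 (.nil))) (.tok (nat_lit 9) (nat_lit 0x5e0000bc00017e403afce86) (.hit (nat_lit 17) (nat_lit 20) (nat_lit 0x5e0000bc00017e403afce86) b21508 (.hit (nat_lit 18) (nat_lit 28) (nat_lit 0x5e0000bc00017dbc8afbe10) b21509 (.nil))) (.nil)))) (.tok (nat_lit 6) (nat_lit 0x5e0000bc00017f4b1b00000) (.hit (nat_lit 9) (nat_lit 0) (nat_lit 0x5e0000bc00017f05e2fe825) b21502 (.tok (nat_lit 3) (nat_lit 0x5e0000bc00017f394300000) (.hit (nat_lit 10) (nat_lit 1) (nat_lit 0x5e0000bc00017eee4afe44b) b21503 (.one (nat_lit 67) (nat_lit 11) (nat_lit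 2) (nat_lit 0x5e0000bc00017f394300000) b21504 (.nil))) (.tok (nat_lit 6) (nat_lit 0x5e0000bc00017f4b1afedf3) (.hit (nat_lit 12) (nat_lit 7) (nat_lit 0x5e0000bc00017f4b1afedf3) b21505 (.hit (nat_lit 13) (nat_lit 15) (nat_lit 0x5e0000bc00017f2562fe86d) b21506 (.nil))) (.nil)))) (.tok (nat_lit 9) (nat_lit 0x5e0000bc0001800002ff98d) (.hit (nat_lit 0) (nat_lit 0) (nat_lit 0x5e0000bc00017fb3eafee46) b21494 (.tok (nat_lit 3) (nat_lit 0x5e0000bc0001800002ff7f2) (.hit (nat_lit 1) (nat_lit 1) (nat_lit 0x5e0000bc00017f368afdec3) b21495 (.one (nat_lit 55) (nat_lit 2) (nat_lit 3) (nat_lit 0x5e0000bc0001800002ff7f2) b21496 (.nil))) (.tok (nat_lit 9) (nat_lit 0x5e0000bc00017ff152ff98d) (.hit (nat_lit 3) (nat_lit 20) (nat_lit 0x5e0000bc00017f7b42fe769) b21497 (.hit (nat_lit 7) (nat_lit 28) (nat_lit 0x5e0000bc00017f2aa2fe47d) b21500 (.tok (nat_lit 67) (nat_lit 0x5e0000bc00017ff152ff98d) (.hit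 (nat_lit 4) (nat_lit 21) (nat_lit 0x5e0000bc00017fe56aff98d) b21498 (.hit (nat_lit 8) (nat_lit 29) (nat_lit 0x5e0000bc00017ff152ff538) b21501 (.one (nat_lit 9) (nat_lit 5) (nat_lit 22) (nat_lit 0x5e0000bc00017fb66aff6c6) b21499 (.nil)))) (.nil)))) (.nil)))) (.nil)))
noncomputable def r22_16 : Rw Blk := .tok (nat_lit 3) (nat_lit 0x5e0000bc00017e825afe325) (.hit (nat_lit 0) (nat_lit 0) (nat_lit 0x5e0000bc00017e825afe325) b36031 (.tok (nat_lit 6) (nat_lit 0x5e0000bc00017e1312fd05b) (.hit (nat_lit 1) (nat_lit 7) (nat_lit 0x5e0000bc00017e1312fd05b) b21530 (.hit (nat_lit 2) (nat_lit 15) (nat_lit 0x5e0000bc00017e10c2fd011) b21531 (.nil))) (.tok (nat_lit 9) (nat_lit 0x5e0000bc00017e1312fd05b) (.hit (nat_lit 3) (nat_lit 20) (nat_lit 0x5e0000bc00017e1312fd05b) b21530 (.hit (nat_lit 4) (nat_lit 28) (nat_lit 0x5e0000bc00017e10c2fd011) b21531 (.nil))) (.nil)))) (.tok (nat_lit 6) (nat_lit 0x5e0000bc00017f7e4aff60b)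 (.hit (nat_lit 5) (nat_lit 0) (nat_lit 0x5e0000bc00017f7e4aff60b) b21540 (.tok (nat_lit 3) (nat_lit 0x5e0000bc00017f042afeb91) (.hit (nat_lit 6) (nat_lit 1) (nat_lit 0x5e0000bc00017e1982fd358) b21541 (.one (nat_lit 67) (nat_lit 7) (nat_lit 2) (nat_lit 0x5e0000bc00017f042afeb91) b21542 (.nil))) (.tok (nat_lit 6) (nat_lit 0x5e0000bc00017f4962feb78) (.hit (nat_lit 8) (nat_lit 7) (nat_lit 0x5e0000bc00017f4962feb78) b21543 (.hit (nat_lit 11) (nat_lit 15) (nat_lit 0x5e0000bc00017e5272fdb2f) b21544 (.nil))) (.nil)))) (.tok (nat_lit 9) (nat_lit 0x5e0000bc000180000300a6e) (.hit (nat_lit 13) (nat_lit 0) (nat_lit 0x5e0000bc00017f7e4aff54e) b21532 (.tok (nat_lit 3) (nat_lit 0x5e0000bc00017f042afebb5) (.hit (nat_lit 14) (nat_lit 1) (nat_lit 0x5e0000bc00017e1982fd332) b21533 (.one (nat_lit 55) (nat_lit 15) (nat_lit 3) (nat_lit 0x5e0000bc00017f042afebb5) b21534 (.nil))) (.tok (nat_lit 9) (nat_lit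 0x5e0000bc000180000300a6e) (.hit (nat_lit 16) (nat_lit 20) (nat_lit 0x5e0000bc00017f4962ff032) b21535 (.hit (nat_lit 19) (nat_lit 28) (nat_lit 0x5e0000bc00017e5272fd59d) b21538 (.tok (nat_lit 67) (nat_lit 0x5e0000bc000180000300a6e) (.hit (nat_lit 17) (nat_lit 21) (nat_lit 0x5e0000bc000180000300a6e) b21536 (.hit (nat_lit 20) (nat_lit 29) (nat_lit 0x5e0000bc00017f85b2fff36) b21539 (.one (nat_lit 9) (nat_lit 18) (nat_lit 22) (nat_lit 0x5e0000bc00017f9f0aff852) b21537 (.nil)))) (.nil)))) (.nil)))) (.nil)))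
noncomputable def r22_17 : Rw Blk := .tok (nat_lit 3) (nat_lit 0x5e0000bc00017f2692fdffa) (.hit (nat_lit 0) (nat_lit 0) (nat_lit 0x5e0000bc00017f2692fdffa) b36032 (.tok (nat_lit 6) (nat_lit 0x5e0000bc00017ecbdafc254) (.hit (nat_lit 1) (nat_lit 7) (nat_lit 0x5e0000bc00017ecbdafc254) b21546 (.hit (nat_lit 2) (nat_lit 15) (nat_lit 0x5e0000bc00017ebe92fc0ab) b21547 (.nil))) (.tok (nat_lit 9) (nat_lit 0x5e0000bc00017ecbdafc254) (.hit (nat_lit 3) (nat_lit 20) (nat_lit 0x5e0000bc00017ecbdafc254) b21546 (.hit (nat_lit 4) (nat_lit 28) (nat_lit 0x5e0000bc00017ebe92fc0ab) b21547 (.nil))) (.nil)))) (.tok (nat_lit 6) (nat_lit 0x5e0000bc000180000300186) (.hit (nat_lit 13) (nat_lit 0) (nat_lit 0x5e0000bc00017fb192fee39) b21548 (.one (nat_lit 3) (nat_lit 14) (nat_lit 1) (nat_lit 0x5e0000bc00017e9fe2fc915) b21549 (.tok (nat_lit 6) (nat_lit 0x5e0000bc000180000300186) (.hit (nat_lit 15) (nat_lit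 7) (nat_lit 0x5e0000bc00017f853afdbe1) b21550 (.hit (nat_lit 19) (nat_lit 15) (nat_lit 0x5e0000bc00017f1252fd1d1) b21554 (.tok (nat_lit 55) (nat_lit 0x5e0000bc000180000300186) (.hit (nat_lit 16) (nat_lit 8) (nat_lit 0x5e0000bc00017ffe52ff1aa) b21551 (.hit (nat_lit 20) (nat_lit 16) (nat_lit 0x5e0000bc0001800002ff5f3) b21555 (.tok (nat_lit 6) (nat_lit 0x5e0000bc00017ffd8300186) (.hit (nat_lit 17) (nat_lit 9) (nat_lit 0x5e0000bc00017f8b4afe949) b21552 (.one (nat_lit 55) (nat_lit 18) (nat_lit 10) (nat_lit 0x5e0000bc00017ffd8300186) b21553 (.nil))) (.nil)))) (.nil)))) (.nil)))) (.tok (nat_lit 9) (nat_lit 0x5e0000bc00017fb192fedb2) (.hit (nat_lit 5) (nat_lit 0) (nat_lit 0x5e0000bc00017fb192fedb2) b21556 (.one (nat_lit 3) (nat_lit 6) (nat_lit 1) (nat_lit 0x5e0000bc00017e9fe2fcc2c) b21557 (.tok (nat_lit 9) (nat_lit 0x5e0000bc00017f853afe5e1) (.hit (nat_lit 7) (nat_lit 20) (nat_lit 0x5e0000bc00017f853afe5e1)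 b21558 (.hit (nat_lit 11) (nat_lit 28) (nat_lit 0x5e0000bc00017f1252fdab4) b21559 (.nil))) (.nil)))) (.nil)))
noncomputable def r22_18 : Rw Blk := .tok (nat_lit 3) (nat_lit 0x5e0000bc00017ec72afe811) (.hit (nat_lit 0) (nat_lit 0) (nat_lit 0x5e0000bc00017ec72afe811) b36033 (.tok (nat_lit 6) (nat_lit 0x5e0000bc00017e1a4afcb1d) (.hit (nat_lit 1) (nat_lit 7) (nat_lit 0x5e0000bc00017e11cafca0d) b21561 (.hit (nat_lit 2) (nat_lit 15) (nat_lit 0x5e0000bc00017e1a4afcb1d) b21562 (.nil))) (.tok (nat_lit 9) (nat_lit 0x5e0000bc00017e1a4afcb1d) (.hit (nat_lit 3) (nat_lit 20) (nat_lit 0x5e0000bc00017e11cafca0d) b21561 (.hit (nat_lit 4) (nat_lit 28) (nat_lit 0x5e0000bc00017e1a4afcb1d) b21562 (.nil))) (.nil)))) (.tok (nat_lit 6) (nat_lit 0x5e0000bc000180000300893) (.hit (nat_lit 13) (nat_lit 0) (nat_lit 0x5e0000bc00017f1ea2fefd0) b21563 (.one (nat_lit 3) (nat_lit 14) (nat_lit 1) (nat_lit 0x5e0000bc00017e4bcafd393)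 b21564 (.tok (nat_lit 6) (nat_lit 0x5e0000bc000180000300893) (.hit (nat_lit 15) (nat_lit 7) (nat_lit 0x5e0000bc00017ee22afda9a) b21565 (.hit (nat_lit 19) (nat_lit 15) (nat_lit 0x5e0000bc00017e6b0afd598) b21569 (.tok (nat_lit 55) (nat_lit 0x5e0000bc000180000300893) (.hit (nat_lit 16) (nat_lit 8) (nat_lit 0x5e0000bc000180000300893) b21566 (.hit (nat_lit 20) (nat_lit 16) (nat_lit 0x5e0000bc00017f2fcaff14c) b21570 (.tok (nat_lit 6) (nat_lit 0x5e0000bc00017f931b0020e) (.hit (nat_lit 17) (nat_lit 9) (nat_lit 0x5e0000bc00017f584afed00) b21567 (.one (nat_lit 55) (nat_lit 18) (nat_lit 10) (nat_lit 0x5e0000bc00017f931b0020e) b21568 (.nil))) (.nil)))) (.nil)))) (.nil)))) (.tok (nat_lit 9) (nat_lit 0x5e0000bc00017f1ea2fed93) (.hit (nat_lit 5) (nat_lit 0) (nat_lit 0x5e0000bc00017f1ea2fed93) b21571 (.one (nat_lit 3) (nat_lit 6) (nat_lit 1) (nat_lit 0x5e0000bc00017e4bcafd1a9) b21572 (.tok (nat_lit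 9) (nat_lit 0x5e0000bc00017ee22afe7be) (.hit (nat_lit 7) (nat_lit 20) (nat_lit 0x5e0000bc00017ee22afe7be) b21573 (.hit (nat_lit 11) (nat_lit 28) (nat_lit 0x5e0000bc00017e6b0afd648) b21574 (.nil))) (.nil)))) (.nil)))
noncomputable def r22_19 : Rw Blk := .tok (nat_lit 3) (nat_lit 0xbc0001780002fe50e) (.hit (nat_lit 14) (nat_lit 0) (nat_lit 0xbc0001780002fe50e) b21623 (.tok (nat_lit 6) (nat_lit 0xbc0001780002fd9d5) (.hit (nat_lit 15) (nat_lit 7) (nat_lit 0xbc0001780002fd9d5) b21626 (.hit (nat_lit 16) (nat_lit 15) (nat_lit 0xbc0001780002fcdae) b21627 (.nil))) (.tok (nat_lit 9) (nat_lit 0xbc0001780002fc207) (.hit (nat_lit 17) (nat_lit 20) (nat_lit 0xbc0001780002fc207) b21624 (.hit (nat_lit 18) (nat_lit 28) (nat_lit 0xbc0001780002fbc3f) b21625 (.nil))) (.nil)))) (.tok (nat_lit 6) (nat_lit 0xbc0001780002ffb66) (.hit (nat_lit 9) (nat_lit 0) (nat_lit 0xbc0001780002ffb66) b21619 (.one (nat_lit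 3) (nat_lit 10) (nat_lit 1) (nat_lit 0xbc0001780002fe90b) b21620 (.tok (nat_lit 6) (nat_lit 0xbc0001780002ff98f) (.hit (nat_lit 12) (nat_lit 7) (nat_lit 0xbc0001780002ff98f) b21621 (.hit (nat_lit 13) (nat_lit 15) (nat_lit 0xbc0001780002fea3b) b21622 (.nil))) (.nil)))) (.tok (nat_lit 9) (nat_lit 0xbc000178000300000) (.hit (nat_lit 0) (nat_lit 0) (nat_lit 0xbc0001780002ffb14) b21611 (.one (nat_lit 3) (nat_lit 1) (nat_lit 1) (nat_lit 0xbc0001780002fe69b) b21612 (.tok (nat_lit 9) (nat_lit 0xbc000178000300000) (.hit (nat_lit 3) (nat_lit 20) (nat_lit 0xbc0001780002ff0d2) b21613 (.hit (nat_lit 7) (nat_lit 28) (nat_lit 0xbc0001780002fdf35) b21617 (.tok (nat_lit 67) (nat_lit 0xbc000178000300000) (.hit (nat_lit 4) (nat_lit 21) (nat_lit 0xbc000178000300000) b21614 (.hit (nat_lit 8) (nat_lit 29) (nat_lit 0xbc0001780002fef6f) b21618 (.tok (nat_lit 9) (nat_lit 0xbc0001780002fff0e) (.hit (nat_lit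 5) (nat_lit 22) (nat_lit 0xbc0001780002ff357) b21615 (.one (nat_lit 67) (nat_lit 6) (nat_lit 23) (nat_lit 0xbc0001780002fff0e) b21616 (.nil))) (.nil)))) (.nil)))) (.nil)))) (.nil)))
noncomputable def r22_20 : Rw Blk := .tok (nat_lit 3) (nat_lit 0x5e0000bc00017e7ecafdfe6) (.hit (nat_lit 14) (nat_lit 0) (nat_lit 0x5e0000bc00017e7ecafdfe6) b21640 (.tok (nat_lit 6) (nat_lit 0x5e0000bc00017e43aafd706) (.hit (nat_lit 15) (nat_lit 7) (nat_lit 0x5e0000bc00017e26b2fd367) b21643 (.hit (nat_lit 16) (nat_lit 15) (nat_lit 0x5e0000bc00017e43aafd706) b21644 (.nil))) (.tok (nat_lit 9) (nat_lit 0x5e0000bc00017d9f52fc27b) (.hit (nat_lit 17) (nat_lit 20) (nat_lit 0x5e0000bc00017d9f52fc27b) b21641 (.hit (nat_lit 18) (nat_lit 28) (nat_lit 0x5e0000bc00017d790afbdb2) b21642 (.nil))) (.nil)))) (.tok (nat_lit 6) (nat_lit 0x5e0000bc00017f0f02ff57b) (.hit (nat_lit 9) (nat_lit 0) (nat_lit 0x5e0000bc00017eef42ff44f)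 b21636 (.one (nat_lit 3) (nat_lit 10) (nat_lit 1) (nat_lit 0x5e0000bc00017ea74afe660) b21637 (.tok (nat_lit 6) (nat_lit 0x5e0000bc00017f0f02ff57b) (.hit (nat_lit 12) (nat_lit 7) (nat_lit 0x5e0000bc00017f0f02ff57b) b21638 (.hit (nat_lit 13) (nat_lit 15) (nat_lit 0x5e0000bc00017eafe2fe935) b21639 (.nil))) (.nil)))) (.tok (nat_lit 9) (nat_lit 0x5e0000bc000180000300cfb) (.hit (nat_lit 0) (nat_lit 0) (nat_lit 0x5e0000bc00017f43baff8e6) b21628 (.one (nat_lit 3) (nat_lit 1) (nat_lit 1) (nat_lit 0x5e0000bc00017ea7cafdb01) b21629 (.tok (nat_lit 9) (nat_lit 0x5e0000bc000180000300cfb) (.hit (nat_lit 3) (nat_lit 20) (nat_lit 0x5e0000bc00017f0892fe2c8) b21630 (.hit (nat_lit 7) (nat_lit 28) (nat_lit 0x5e0000bc00017e9162fdb1c) b21634 (.tok (nat_lit 67) (nat_lit 0x5e0000bc000180000300cfb) (.hit (nat_lit 4) (nat_lit 21) (nat_lit 0x5e0000bc00017fdb52ffcae) b21631 (.hit (nat_lit 8) (nat_lit 29)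 (nat_lit 0x5e0000bc00017f5902ff65d) b21635 (.tok (nat_lit 9) (nat_lit 0x5e0000bc000180000300cfb) (.hit (nat_lit 5) (nat_lit 22) (nat_lit 0x5e0000bc00017f260afeafe) b21632 (.one (nat_lit 67) (nat_lit 6) (nat_lit 23) (nat_lit 0x5e0000bc000180000300cfb) b21633 (.nil))) (.nil)))) (.nil)))) (.nil)))) (.nil)))
noncomputable def r22_21 : Rw Blk := .tok (nat_lit 3) (nat_lit 0xbc0001780002fe2cd5fc778bfa0797f4bfafe9f3) (.hit (nat_lit 14) (nat_lit 0) (nat_lit 0xbc0001780002fe2cd5fc778bfa0797f4bfafe9f3) b21588 (.tok (nat_lit 6) (nat_lit 0xbc0001780002fbfc65f717cbeddc57dc992fc084) (.hit (nat_lit 15) (nat_lit 7) (nat_lit 0xbc0001780002fbfc65f717cbeddc57dc992fc084) b21591 (.hit (nat_lit 16) (nat_lit 15) (nat_lit 0xbc0001780002fb9fe5f65ecbec6a57d9b52fbabc) b21592 (.nil))) (.tok (nat_lit 9) (nat_lit 0xbc0001780002fd7945fa118bf3cfd7e8802fd852) (.hit (nat_lit 17) (nat_lit 20) (nat_lit 0xbc0001780002fd7945fa118bf3cfd7e8802fd852)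 b21589 (.hit (nat_lit 18) (nat_lit 28) (nat_lit 0xbc0001780002fcb6d5f88cabf0c617e26cafcc2b) b21590 (.nil))) (.nil)))) (.tok (nat_lit 6) (nat_lit 0xbc0001780003000005fd8aabfbcdd7f5dfaff902) (.hit (nat_lit 0) (nat_lit 0) (nat_lit 0xbc0001780002ff8d35fd8aabfb4457f494afeab4) b21575 (.tok (nat_lit 3) (nat_lit 0xbc0001780003000005fd672bfbcdd7f569aff6db) (.hit (nat_lit 1) (nat_lit 1) (nat_lit 0xbc0001780002fe45a5fa13ebf54317e848afdba8) b21576 (.one (nat_lit 67) (nat_lit 2) (nat_lit 2) (nat_lit 0xbc0001780003000005fd672bfbcdd7f569aff6db) b21577 (.nil))) (.tok (nat_lit 6) (nat_lit 0xbc0001780002ffdbf5fd0debfb8ad7f5dfaff902) (.hit (nat_lit 3) (nat_lit 7) (nat_lit 0xbc0001780002fee915fb18abf72157ecc0afeab4) b21578 (.hit (nat_lit 7) (nat_lit 15) (nat_lit 0xbc0001780002fdcf45fa468bf586d7e9542fde1a) b21581 (.tok (nat_lit 55) (nat_lit 0xbc0001780002ffdbf5fd0debfb8ad7f5dfaff902) (.hit (nat_lit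 4) (nat_lit 8) (nat_lit 0xbc0001780002ffdbf5fc744bfafa17f49caff902) b21579 (.hit (nat_lit 8) (nat_lit 16) (nat_lit 0xbc0001780002fed2e5fd0debfb8ad7f5dfaff7cb) b21582 (.one (nat_lit 6) (nat_lit 5) (nat_lit 9) (nat_lit 0xbc0001780002ff1165fc3a4bf82157f1232fed15) b21580 (.nil)))) (.nil)))) (.nil)))) (.tok (nat_lit 9) (nat_lit 0xbc0001780002ffcad600000c0000180000300000) (.hit (nat_lit 9) (nat_lit 0) (nat_lit 0xbc0001780002ff9255ff328bfe5017fee82ffa11) b21583 (.tok (nat_lit 3) (nat_lit 0xbc0001780002ffcad5ff088bff9497ff022ff9a0) (.hit (nat_lit 10) (nat_lit 1) (nat_lit 0xbc0001780002fe6ca5fac0ebf603d7ec612fdc45) b21584 (.one (nat_lit 55) (nat_lit 11) (nat_lit 3) (nat_lit 0xbc0001780002ffcad5ff088bff9497ff022ff9a0) b21585 (.nil))) (.tok (nat_lit 9) (nat_lit 0xbc0001780002ff74e600000c0000180000300000) (.hit (nat_lit 12) (nat_lit 20) (nat_lit 0xbc0001780002ff74e600000c0000180000300000)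 b21586 (.hit (nat_lit 13) (nat_lit 28) (nat_lit 0xbc0001780002fe7fa5fdbe0bf98d97f5abafea26) b21587 (.nil))) (.nil)))) (.nil)))
noncomputable def r22_22 : Rw Blk := .tok (nat_lit 3) (nat_lit 0x5e0000bc00017ea37afe1dc) (.hit (nat_lit 14) (nat_lit 0) (nat_lit 0x5e0000bc00017ea37afe1dc) b21606 (.tok (nat_lit 6) (nat_lit 0x5e0000bc00017dc402fc2d8) (.hit (nat_lit 15) (nat_lit 7) (nat_lit 0x5e0000bc00017dc402fc2d8) b21609 (.hit (nat_lit 16) (nat_lit 15) (nat_lit 0x5e0000bc00017d9dbafbe0f) b21610 (.nil))) (.tok (nat_lit 9) (nat_lit 0x5e0000bc00017e685afd763) (.hit (nat_lit 17) (nat_lit 20) (nat_lit 0x5e0000bc00017e4b62fd3c4) b21607 (.hit (nat_lit 18) (nat_lit 28) (nat_lit 0x5e0000bc00017e685afd763) b21608 (.nil))) (.nil)))) (.tok (nat_lit 6) (nat_lit 0x5e0000bc000180000300000) (.hit (nat_lit 0) (nat_lit 0) (nat_lit 0x5e0000bc00017f686afeb4c) b21593 (.tok (nat_lit 3) (nat_lit 0x5e0000bc00017feffaff96b)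 (.hit (nat_lit 1) (nat_lit 1) (nat_lit 0x5e0000bc00017ecc7afd9e5) b21594 (.one (nat_lit 67) (nat_lit 2) (nat_lit 2) (nat_lit 0x5e0000bc00017feffaff96b) b21595 (.nil))) (.tok (nat_lit 6) (nat_lit 0x5e0000bc000180000300000) (.hit (nat_lit 3) (nat_lit 7) (nat_lit 0x5e0000bc00017f2d42fec0b) b21596 (.hit (nat_lit 7) (nat_lit 15) (nat_lit 0x5e0000bc00017eb612fdb79) b21599 (.tok (nat_lit 55) (nat_lit 0x5e0000bc000180000300000) (.hit (nat_lit 4) (nat_lit 8) (nat_lit 0x5e0000bc000180000300000) b21597 (.hit (nat_lit 8) (nat_lit 16) (nat_lit 0x5e0000bc00017f7db2ff514) b21600 (.one (nat_lit 6) (nat_lit 5) (nat_lit 9) (nat_lit 0x5e0000bc00017f4abafe92e) b21598 (.nil)))) (.nil)))) (.nil)))) (.tok (nat_lit 9) (nat_lit 0x5e0000bc00017f94eaff3e9) (.hit (nat_lit 9) (nat_lit 0) (nat_lit 0x5e0000bc00017f13f2fecad) b21601 (.tok (nat_lit 3) (nat_lit 0x5e0000bc00017f94eaff3e9) (.hit (nat_lit 10) (nat_lit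 1) (nat_lit 0x5e0000bc00017ecbfafde7f) b21602 (.one (nat_lit 55) (nat_lit 11) (nat_lit 3) (nat_lit 0x5e0000bc00017f94eaff3e9) b21603 (.nil))) (.tok (nat_lit 9) (nat_lit 0x5e0000bc00017f33b2ff372) (.hit (nat_lit 12) (nat_lit 20) (nat_lit 0x5e0000bc00017f33b2ff372) b21604 (.hit (nat_lit 13) (nat_lit 28) (nat_lit 0x5e0000bc00017ed492fe6a2) b21605 (.nil))) (.nil)))) (.nil)))
noncomputable def r22_23 : Rw Blk := .tok (nat_lit 3) (nat_lit 0x5e0000bc00017ea952fd30a) (.hit (nat_lit 0) (nat_lit 0) (nat_lit 0x5e0000bc00017ea952fd30a) b21645 (.tok (nat_lit 6) (nat_lit 0x5e0000bc00017e725afcd9c) (.hit (nat_lit 1) (nat_lit 7) (nat_lit 0x5e0000bc00017e725afcd9c) b21648 (.hit (nat_lit 2) (nat_lit 15) (nat_lit 0x5e0000bc00017e6142fcb79) b21649 (.nil))) (.tok (nat_lit 9) (nat_lit 0x5e0000bc00017e82fafcfb0) (.hit (nat_lit 3) (nat_lit 20) (nat_lit 0x5e0000bc00017e8222fcf95) b21646 (.hit (nat_lit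 4) (nat_lit 28) (nat_lit 0x5e0000bc00017e82fafcfb0) b21647 (.nil))) (.nil)))) (.tok (nat_lit 6) (nat_lit 0x5e0000bc000180000300018) (.hit (nat_lit 5) (nat_lit 0) (nat_lit 0x5e0000bc00017f32bafe286) b21650 (.tok (nat_lit 3) (nat_lit 0x5e0000bc00017f712aff095) (.hit (nat_lit 6) (nat_lit 1) (nat_lit 0x5e0000bc00017e8002fd088) b21651 (.one (nat_lit 67) (nat_lit 7) (nat_lit 2) (nat_lit 0x5e0000bc00017f712aff095) b21652 (.nil))) (.tok (nat_lit 6) (nat_lit 0x5e0000bc000180000300018) (.hit (nat_lit 8) (nat_lit 7) (nat_lit 0x5e0000bc00017f446afe8bd) b21653 (.hit (nat_lit 11) (nat_lit 15) (nat_lit 0x5e0000bc00017e8a0afd0f8) b21656 (.tok (nat_lit 55) (nat_lit 0x5e0000bc000180000300018) (.hit (nat_lit 9) (nat_lit 8) (nat_lit 0x5e0000bc000180000300018) b21654 (.hit (nat_lit 12) (nat_lit 16) (nat_lit 0x5e0000bc00017f6af2fedde) b21657 (.one (nat_lit 6) (nat_lit 10) (nat_lit 9) (nat_lit 0x5e0000bc00017f4e82fea4e)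 b21655 (.nil)))) (.nil)))) (.nil)))) (.tok (nat_lit 9) (nat_lit 0x5e0000bc00017fadc2fe3e3) (.hit (nat_lit 13) (nat_lit 0) (nat_lit 0x5e0000bc00017f7bdafdff6) b21658 (.tok (nat_lit 3) (nat_lit 0x5e0000bc00017f604afddd0) (.hit (nat_lit 14) (nat_lit 1) (nat_lit 0x5e0000bc00017efc1afce20) b21659 (.one (nat_lit 55) (nat_lit 15) (nat_lit 3) (nat_lit 0x5e0000bc00017f604afddd0) b21660 (.nil))) (.tok (nat_lit 9) (nat_lit 0x5e0000bc00017fadc2fe3e3) (.hit (nat_lit 16) (nat_lit 20) (nat_lit 0x5e0000bc00017f0a0afd2fd) b21661 (.hit (nat_lit 19) (nat_lit 28) (nat_lit 0x5e0000bc00017ee972fd092) b21664 (.tok (nat_lit 67) (nat_lit 0x5e0000bc00017fadc2fe3e3) (.hit (nat_lit 17) (nat_lit 21) (nat_lit 0x5e0000bc00017f90f2fe343) b21662 (.hit (nat_lit 20) (nat_lit 29) (nat_lit 0x5e0000bc00017fadc2fe3e3) b21665 (.one (nat_lit 9) (nat_lit 18) (nat_lit 22) (nat_lit 0x5e0000bc00017f7fcafe1f4) b21663 (.nil))))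 (.nil)))) (.nil)))) (.nil)))
noncomputable def r22_24 : Rw Blk := .tok (nat_lit 3) (nat_lit 0x5e0000bc00017e6a6afddc1) (.hit (nat_lit 0) (nat_lit 0) (nat_lit 0x5e0000bc00017e6a6afddc1) b21666 (.tok (nat_lit 6) (nat_lit 0x5e0000bc00017ddfd2fc8ce) (.hit (nat_lit 1) (nat_lit 7) (nat_lit 0x5e0000bc00017ddd12fc876) b21669 (.hit (nat_lit 2) (nat_lit 15) (nat_lit 0x5e0000bc00017ddfd2fc8ce) b21670 (.nil))) (.tok (nat_lit 9) (nat_lit 0x5e0000bc00017dddf2fc892) (.hit (nat_lit 3) (nat_lit 20) (nat_lit 0x5e0000bc00017dd4eafc771) b21667 (.hit (nat_lit 4) (nat_lit 28) (nat_lit 0x5e0000bc00017dddf2fc892) b21668 (.nil))) (.nil)))) (.tok (nat_lit 6) (nat_lit 0x5e0000bc00018054a301db9) (.hit (nat_lit 13) (nat_lit 0) (nat_lit 0x5e0000bc00017ec99aff533) b21679 (.one (nat_lit 3) (nat_lit 14) (nat_lit 1) (nat_lit 0x5e0000bc00017dcf4afd84f) b21680 (.tok (nat_lit 6) (nat_lit 0x5e0000bc00018054a301db9)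 (.hit (nat_lit 15) (nat_lit 7) (nat_lit 0x5e0000bc00017eed82fed14) b21681 (.hit (nat_lit 19) (nat_lit 15) (nat_lit 0x5e0000bc00017e1d72fe263) b21685 (.tok (nat_lit 55) (nat_lit 0x5e0000bc00018054a301db9) (.hit (nat_lit 16) (nat_lit 8) (nat_lit 0x5e0000bc00018054a301db9) b21682 (.hit (nat_lit 20) (nat_lit 16) (nat_lit 0x5e0000bc00017ef26aff6cc) b21686 (.tok (nat_lit 6) (nat_lit 0x5e0000bc00017fdb8300ac8) (.hit (nat_lit 17) (nat_lit 9) (nat_lit 0x5e0000bc00017f59aafec42) b21683 (.one (nat_lit 55) (nat_lit 18) (nat_lit 10) (nat_lit 0x5e0000bc00017fdb8300ac8) b21684 (.nil))) (.nil)))) (.nil)))) (.nil)))) (.tok (nat_lit 9) (nat_lit 0x5e0000bc00017f2282ff415) (.hit (nat_lit 5) (nat_lit 0) (nat_lit 0x5e0000bc00017f2282ff415) b21671 (.one (nat_lit 3) (nat_lit 6) (nat_lit 1) (nat_lit 0x5e0000bc00017d4ca2fb668) b21672 (.tok (nat_lit 9) (nat_lit 0x5e0000bc00017ee1a2fe908) (.hit (nat_lit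 7) (nat_lit 20) (nat_lit 0x5e0000bc00017de72afc9b9) b21673 (.hit (nat_lit 11) (nat_lit 28) (nat_lit 0x5e0000bc00017d8da2fbe88) b21677 (.tok (nat_lit 67) (nat_lit 0x5e0000bc00017ee1a2fe908) (.hit (nat_lit 8) (nat_lit 21) (nat_lit 0x5e0000bc00017e734afdb3d) b21674 (.hit (nat_lit 12) (nat_lit 29) (nat_lit 0x5e0000bc00017e6272fd922) b21678 (.tok (nat_lit 9) (nat_lit 0x5e0000bc00017ee1a2fe908) (.hit (nat_lit 9) (nat_lit 22) (nat_lit 0x5e0000bc00017e6922fd9f8) b21675 (.one (nat_lit 67) (nat_lit 10) (nat_lit 23) (nat_lit 0x5e0000bc00017ee1a2fe908) b21676 (.nil))) (.nil)))) (.nil)))) (.nil)))) (.nil)))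
noncomputable def r22_25 : Rw Blk := .tok (nat_lit 3) (nat_lit 0x5e0000bc00017ecc0afe96d) (.hit (nat_lit 0) (nat_lit 0) (nat_lit 0x5e0000bc00017ecc0afe96d) b21687 (.tok (nat_lit 6) (nat_lit 0x5e0000bc00017e7292fd561) (.hit (nat_lit 1) (nat_lit 7) (nat_lit 0x5e0000bc00017e6eb2fd4e5) b21690 (.hit (nat_lit 2) (nat_lit 15) (nat_lit 0x5e0000bc00017e7292fd561) b21691 (.nil))) (.tok (nat_lit 9) (nat_lit 0x5e0000bc00017e784afd618) (.hit (nat_lit 3) (nat_lit 20) (nat_lit 0x5e0000bc00017e639afd382) b21688 (.hit (nat_lit 4) (nat_lit 28) (nat_lit 0x5e0000bc00017e784afd618) b21689 (.nil))) (.nil)))) (.tok (nat_lit 6) (nat_lit 0x5e0000bc00017fa822ff9c0) (.hit (nat_lit 13) (nat_lit 0) (nat_lit 0x5e0000bc00017f03bafe8e6) b21700 (.one (nat_lit 3) (nat_lit 14) (nat_lit 1) (nat_lit 0x5e0000bc00017e430afcc98) b21701 (.tok (nat_lit 6) (nat_lit 0x5e0000bc00017fa822ff9c0) (.hit (nat_lit 15) (nat_lit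 7) (nat_lit 0x5e0000bc00017ee752fe24c) b21702 (.hit (nat_lit 19) (nat_lit 15) (nat_lit 0x5e0000bc00017ecb4afdd84) b21706 (.tok (nat_lit 55) (nat_lit 0x5e0000bc00017fa822ff9c0) (.hit (nat_lit 16) (nat_lit 8) (nat_lit 0x5e0000bc00017f7112ff73d) b21703 (.hit (nat_lit 20) (nat_lit 16) (nat_lit 0x5e0000bc00017f65baff0c7) b21707 (.tok (nat_lit 6) (nat_lit 0x5e0000bc00017fa822ff9c0) (.hit (nat_lit 17) (nat_lit 9) (nat_lit 0x5e0000bc00017f3b42fe3f6) b21704 (.one (nat_lit 55) (nat_lit 18) (nat_lit 10) (nat_lit 0x5e0000bc00017fa822ff9c0) b21705 (.nil))) (.nil)))) (.nil)))) (.nil)))) (.tok (nat_lit 9) (nat_lit 0x5e0000bc000180000300c08) (.hit (nat_lit 5) (nat_lit 0) (nat_lit 0x5e0000bc00017f5daaff391) b21692 (.one (nat_lit 3) (nat_lit 6) (nat_lit 1) (nat_lit 0x5e0000bc00017e4a22fd552) b21693 (.tok (nat_lit 9) (nat_lit 0x5e0000bc000180000300c08) (.hit (nat_lit 7) (nat_lit 20) (nat_lit 0x5e0000bc00017f0372ffdba)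 b21694 (.hit (nat_lit 11) (nat_lit 28) (nat_lit 0x5e0000bc00017e8b82fdd5b) b21698 (.tok (nat_lit 67) (nat_lit 0x5e0000bc000180000300c08) (.hit (nat_lit 8) (nat_lit 21) (nat_lit 0x5e0000bc000180000300c08) b21695 (.hit (nat_lit 12) (nat_lit 29) (nat_lit 0x5e0000bc00017f91b2ff8ad) b21699 (.tok (nat_lit 9) (nat_lit 0x5e0000bc00017fb93aff3b5) (.hit (nat_lit 9) (nat_lit 22) (nat_lit 0x5e0000bc00017f9b92ff22d) b21696 (.one (nat_lit 67) (nat_lit 10) (nat_lit 23) (nat_lit 0x5e0000bc00017fb93aff3b5) b21697 (.nil))) (.nil)))) (.nil)))) (.nil)))) (.nil)))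
noncomputable def r22_26 : Rw Blk := .tok (nat_lit 3) (nat_lit 0x17e77c2fdc385fd974bf1df57e525aff46c) (.hit (nat_lit 14) (nat_lit 0) (nat_lit 0x17e77c2fda3a5fc3cebf1df57e525afe7ca) b21722 (.tok (nat_lit 6) (nat_lit 0x17e71fafdc385fd974bf12397e42e2ff46c) (.hit (nat_lit 15) (nat_lit 7) (nat_lit 0x17e71fafdc385fd974bf12397e42e2ff46c) b21725 (.hit (nat_lit 16) (nat_lit 15) (nat_lit 0x17e4162fd4355fb2f0bef9ed7e124afeaf4) b21726 (.nil))) (.tok (nat_lit 9) (nat_lit 0x17da1dafc9e35f9d5abeaa297d72c2fe107) (.hit (nat_lit 17) (nat_lit 20) (nat_lit 0x17da1dafc9e35f9d5abeaa297d72c2fe107) b21723 (.hit (nat_lit 18) (nat_lit 28) (nat_lit 0x17d0452fbeda5f8888be5b657cd53afd492) b21724 (.nil))) (.nil)))) (.tok (nat_lit 6) (nat_lit 0x1800002ffbfe5fe416c014298068f2ff86a) (.hit (nat_lit 9) (nat_lit 0) (nat_lit 0x17ef022fdc725fd38ebf7a397f29eafe534) b21717 (.tok (nat_lit 3) (nat_lit 0x1800002ffbfe5fe416c014298068f2ff86a)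 (.hit (nat_lit 10) (nat_lit 1) (nat_lit 0x17f02c2feb885fbdaabf7a817efddafee4f) b21718 (.one (nat_lit 67) (nat_lit 11) (nat_lit 2) (nat_lit 0x1800002ffbfe5fe416c014298068f2ff86a) b21719 (.nil))) (.tok (nat_lit 6) (nat_lit 0x17f7f7afe2805fd82abfc0417f654aff64e) (.hit (nat_lit 12) (nat_lit 7) (nat_lit 0x17f7f7afe2805fd82abfc0417f654aff64e) b21720 (.hit (nat_lit 13) (nat_lit 15) (nat_lit 0x17ebbe2fdf215fb1e0bf652d7eff9afea70) b21721 (.nil))) (.nil)))) (.tok (nat_lit 9) (nat_lit 0x17f413300000600000bf70657edf5b00000) (.hit (nat_lit 0) (nat_lit 0) (nat_lit 0x17f4132fe5565fd850bf70657edf5aff54e) b21708 (.tok (nat_lit 3) (nat_lit 0x17e8c1aff98c5fe5c2bf1f497e5d02ffe3b) (.hit (nat_lit 1) (nat_lit 1) (nat_lit 0x17df232fd8175fb39cbed2557dc31afea41) b21709 (.one (nat_lit 55) (nat_lit 2) (nat_lit 3) (nat_lit 0x17e8c1aff98c5fe5c2bf1f497e5d02ffe3b) b21710 (.nil))) (.tok (nat_lit 9) (nat_lit 0x17ef95b00000600000bf55e97eca4300000)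 (.hit (nat_lit 3) (nat_lit 20) (nat_lit 0x17e5b6afe2195fc19cbf06f17e2c52ff1e9) b21711 (.hit (nat_lit 7) (nat_lit 28) (nat_lit 0x17e145afe1ae5fab64bee3697de542fe885) b21715 (.tok (nat_lit 67) (nat_lit 0x17ef95b00000600000bf55e97eca4300000) (.hit (nat_lit 4) (nat_lit 21) (nat_lit 0x17ec752ff3935feb32bf3ce57e983aff6a8) b21712 (.hit (nat_lit 8) (nat_lit 29) (nat_lit 0x17ea2d300000600000bf2aa57e73bb00000) b21716 (.tok (nat_lit 9) (nat_lit 0x17ef95aff51d5ffc3ebf55e97eca42ffd24) (.hit (nat_lit 5) (nat_lit 22) (nat_lit 0x17eaf62fea665fd3c4bf30ed7e804affd24) b21713 (.one (nat_lit 67) (nat_lit 6) (nat_lit 23) (nat_lit 0x17ef95aff51d5ffc3ebf55e97eca42ffb93) b21714 (.nil))) (.nil)))) (.nil)))) (.nil)))) (.nil)))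
noncomputable def r22_27 : Rw Blk := .tok (nat_lit 3) (nat_lit 0xbc0001780002ff76a) (.hit (nat_lit 0) (nat_lit 0) (nat_lit 0xbc0001780002fe3d9) b21727 (.tok (nat_lit 6) (nat_lit 0xbc0001780002fd232) (.hit (nat_lit 1) (nat_lit 7) (nat_lit 0xbc0001780002fc3be) b21728 (.hit (nat_lit 4) (nat_lit 15) (nat_lit 0xbc0001780002fbc98) b21729 (.one (nat_lit 68) (nat_lit 6) (nat_lit 18) (nat_lit 0xbc0001780002fd232) b21730 (.nil)))) (.tok (nat_lit 52) (nat_lit 0xbc0001780002fe149) (.hit (nat_lit 7) (nat_lit 39) (nat_lit 0xbc0001780002fe149) b21731 (.hit (nat_lit 8) (nat_lit 40) (nat_lit 0xbc0001780002fdd78) b21732 (.nil))) (.tok (nat_lit 55) (nat_lit 0xbc0001780002ff76a) (.hit (nat_lit 9) (nat_lit 41) (nat_lit 0xbc0001780002ff76a) b21733 (.one (nat_lit 3) (nat_lit 12) (nat_lit 47) (nat_lit 0xbc0001780002fe022) b21736 (.tok (nat_lit 6) (nat_lit 0xbc0001780002fecb3) (.hit (nat_lit 10) (nat_lit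 42) (nat_lit 0xbc0001780002fecb3) b21734 (.hit (nat_lit 11) (nat_lit 45) (nat_lit 0xbc0001780002fdcf0) b21735 (.nil))) (.nil)))) (.one (nat_lit 58) (nat_lit 14) (nat_lit 49) (nat_lit 0xbc0001780002fd9b2) b21737 (.nil)))))) (.tok (nat_lit 9) (nat_lit 0xbc000178000302e74) (.hit (nat_lit 15) (nat_lit 0) (nat_lit 0xbc0001780002fe6aa) b21738 (.tok (nat_lit 9) (nat_lit 0xbc0001780002fe5e4) (.hit (nat_lit 16) (nat_lit 20) (nat_lit 0xbc0001780002fd75f) b21739 (.hit (nat_lit 21) (nat_lit 28) (nat_lit 0xbc0001780002fc535) b21742 (.one (nat_lit 56) (nat_lit 23) (nat_lit 31) (nat_lit 0xbc0001780002fd5d9) b21743 (.tok (nat_lit 68) (nat_lit 0xbc0001780002fe5e4) (.hit (nat_lit 19) (nat_lit 26) (nat_lit 0xbc0001780002fe5d8) b21740 (.hit (nat_lit 24) (nat_lit 32) (nat_lit 0xbc0001780002fdde1) b21744 (.one (nat_lit 9) (nat_lit 20) (nat_lit 27) (nat_lit 0xbc0001780002fe5e4) b21741 (.nil)))) (.nil)))))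 (.tok (nat_lit 64) (nat_lit 0xbc0001780002fe8af) (.hit (nat_lit 25) (nat_lit 50) (nat_lit 0xbc0001780002fd8f2) b21745 (.hit (nat_lit 26) (nat_lit 51) (nat_lit 0xbc0001780002fe8af) b21746 (.nil))) (.tok (nat_lit 67) (nat_lit 0xbc000178000302e74) (.hit (nat_lit 27) (nat_lit 52) (nat_lit 0xbc0001780002ffba9) b21747 (.one (nat_lit 3) (nat_lit 33) (nat_lit 58) (nat_lit 0xbc0001780002ff3a1) b21753 (.tok (nat_lit 9) (nat_lit 0xbc000178000302e74) (.hit (nat_lit 28) (nat_lit 53) (nat_lit 0xbc000178000300db0) b21748 (.hit (nat_lit 31) (nat_lit 56) (nat_lit 0xbc0001780002fe5d4) b21751 (.tok (nat_lit 67) (nat_lit 0xbc000178000302e74) (.hit (nat_lit 29) (nat_lit 54) (nat_lit 0xbc00017800030136e) b21749 (.hit (nat_lit 32) (nat_lit 57) (nat_lit 0xbc0001780003002c4) b21752 (.one (nat_lit 9) (nat_lit 30) (nat_lit 55) (nat_lit 0xbc000178000302e74) b21750 (.nil)))) (.nil)))) (.nil)))) (.one (nat_lit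 70) (nat_lit 35) (nat_lit 60) (nat_lit 0xbc0001780002fe3e8) b21754 (.nil)))))) (.nil))
noncomputable def r22_28 : Rw Blk := .tok (nat_lit 3) (nat_lit 0xbc00017fcd1afdfd0) (.hit (nat_lit 0) (nat_lit 0) (nat_lit 0xbc00017f7b22fd2a4) b21755 (.tok (nat_lit 9) (nat_lit 0xbc00017f6232fdb05) (.hit (nat_lit 1) (nat_lit 20) (nat_lit 0xbc00017e949afc152) b21756 (.hit (nat_lit 6) (nat_lit 28) (nat_lit 0xbc00017e7142fbce7) b21759 (.tok (nat_lit 68) (nat_lit 0xbc00017f6232fdb05) (.hit (nat_lit 4) (nat_lit 26) (nat_lit 0xbc00017f309afd4d2) b21757 (.hit (nat_lit 8) (nat_lit 32) (nat_lit 0xbc00017ea682fc38f) b21760 (.one (nat_lit 9) (nat_lit 5) (nat_lit 27) (nat_lit 0xbc00017f6232fdb05) b21758 (.nil)))) (.nil)))) (.tok (nat_lit 64) (nat_lit 0xbc00017f2b52fd429) (.hit (nat_lit 9) (nat_lit 50) (nat_lit 0xbc00017f2b52fd429) b21761 (.hit (nat_lit 10) (nat_lit 51) (nat_lit 0xbc00017f294afd3e8) b21762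 (.nil))) (.tok (nat_lit 67) (nat_lit 0xbc00017fcd1afdfd0) (.hit (nat_lit 11) (nat_lit 52) (nat_lit 0xbc00017fcd1afdfd0) b21763 (.one (nat_lit 3) (nat_lit 17) (nat_lit 58) (nat_lit 0xbc00017f67a2fdbb3) b21769 (.tok (nat_lit 9) (nat_lit 0xbc00017f5932fd9e5) (.hit (nat_lit 12) (nat_lit 53) (nat_lit 0xbc00017f099afcff2) b21764 (.hit (nat_lit 15) (nat_lit 56) (nat_lit 0xbc00017f1e1afd282) b21767 (.tok (nat_lit 67) (nat_lit 0xbc00017f5932fd9e5) (.hit (nat_lit 13) (nat_lit 54) (nat_lit 0xbc00017f5932fd9e5) b21765 (.hit (nat_lit 16) (nat_lit 57) (nat_lit 0xbc00017f5402fd93f) b21768 (.one (nat_lit 9) (nat_lit 14) (nat_lit 55) (nat_lit 0xbc00017f471afd7a2) b21766 (.nil)))) (.nil)))) (.nil)))) (.one (nat_lit 70) (nat_lit 19) (nat_lit 60) (nat_lit 0xbc00017edd8afca70) b21770 (.nil)))))) (.tok (nat_lit 6) (nat_lit 0xbc000180813b007b1) (.hit (nat_lit 20) (nat_lit 0) (nat_lit 0xbc00017f9ceafe005)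 b21771 (.tok (nat_lit 6) (nat_lit 0xbc000180813b007b1) (.hit (nat_lit 21) (nat_lit 7) (nat_lit 0xbc00017f929afe8ac) b21772 (.hit (nat_lit 26) (nat_lit 15) (nat_lit 0xbc00017e9372fc0f5) b21775 (.tok (nat_lit 56) (nat_lit 0xbc000180813b007b1) (.hit (nat_lit 24) (nat_lit 13) (nat_lit 0xbc000180813b000e9) b21773 (.hit (nat_lit 29) (nat_lit 19) (nat_lit 0xbc00017f1c6afd4f2) b21777 (.one (nat_lit 6) (nat_lit 25) (nat_lit 14) (nat_lit 0xbc00017fcbdb007b1) b21774 (.nil)))) (.one (nat_lit 68) (nat_lit 28) (nat_lit 18) (nat_lit 0xbc00017f3f22fdf2a) b21776 (.nil))))) (.nil))) (.nil))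
noncomputable def r22_29 : Rw Blk := .tok (nat_lit 3) (nat_lit 0xbc000178000300000) (.hit (nat_lit 0) (nat_lit 0) (nat_lit 0xbc0001780002ff521) b21778 (.tok (nat_lit 9) (nat_lit 0xbc0001780002ff593) (.hit (nat_lit 1) (nat_lit 20) (nat_lit 0xbc0001780002fdb67) b21779 (.hit (nat_lit 6) (nat_lit 28) (nat_lit 0xbc0001780002fd73b) b21782 (.tok (nat_lit 68) (nat_lit 0xbc0001780002ff593) (.hit (nat_lit 4) (nat_lit 26) (nat_lit 0xbc0001780002ff078) b21780 (.hit (nat_lit 8) (nat_lit 32) (nat_lit 0xbc0001780002fe1e0) b21783 (.one (nat_lit 9) (nat_lit 5) (nat_lit 27) (nat_lit 0xbc0001780002ff593) b21781 (.nil)))) (.nil)))) (.tok (nat_lit 64) (nat_lit 0xbc0001780002ff21e) (.hit (nat_lit 9) (nat_lit 50) (nat_lit 0xbc0001780002ff21e) b21784 (.hit (nat_lit 10) (nat_lit 51) (nat_lit 0xbc0001780002fee56) b21785 (.nil))) (.tok (nat_lit 67) (nat_lit 0xbc000178000300000) (.hit (nat_lit 11) (nat_lit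 52) (nat_lit 0xbc000178000300000) b21786 (.one (nat_lit 3) (nat_lit 17) (nat_lit 58) (nat_lit 0xbc0001780002ff6a3) b21792 (.tok (nat_lit 9) (nat_lit 0xbc0001780002ffd91) (.hit (nat_lit 12) (nat_lit 53) (nat_lit 0xbc0001780002ffa8b) b21787 (.hit (nat_lit 15) (nat_lit 56) (nat_lit 0xbc0001780002fe9b5) b21790 (.tok (nat_lit 67) (nat_lit 0xbc0001780002ffd91) (.hit (nat_lit 13) (nat_lit 54) (nat_lit 0xbc0001780002ffbc4) b21788 (.hit (nat_lit 16) (nat_lit 57) (nat_lit 0xbc0001780002fefb6) b21791 (.one (nat_lit 9) (nat_lit 14) (nat_lit 55) (nat_lit 0xbc0001780002ffd91) b21789 (.nil)))) (.nil)))) (.nil)))) (.one (nat_lit 70) (nat_lit 19) (nat_lit 60) (nat_lit 0xbc0001780002fed07) b21793 (.nil)))))) (.tok (nat_lit 6) (nat_lit 0xbc0001780002fff90) (.hit (nat_lit 20) (nat_lit 0) (nat_lit 0xbc0001780002ff6da) b21794 (.tok (nat_lit 6) (nat_lit 0xbc0001780002fff90) (.hit (nat_lit 21) (nat_lit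 7) (nat_lit 0xbc0001780002ff226) b21795 (.hit (nat_lit 26) (nat_lit 15) (nat_lit 0xbc0001780002fe443) b21798 (.tok (nat_lit 56) (nat_lit 0xbc0001780002fff90) (.hit (nat_lit 24) (nat_lit 13) (nat_lit 0xbc0001780002fff90) b21796 (.hit (nat_lit 29) (nat_lit 19) (nat_lit 0xbc0001780002ff35a) b21800 (.one (nat_lit 6) (nat_lit 25) (nat_lit 14) (nat_lit 0xbc0001780002ffae7) b21797 (.nil)))) (.one (nat_lit 68) (nat_lit 28) (nat_lit 18) (nat_lit 0xbc0001780002ffc0d) b21799 (.nil))))) (.nil))) (.nil))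
noncomputable def r22_30 : Rw Blk := .tok (nat_lit 6) (nat_lit 0xbc0001780003003b7) (.hit (nat_lit 0) (nat_lit 0) (nat_lit 0xbc0001780002ff52a) b21801 (.tok (nat_lit 3) (nat_lit 0xbc0001780002ff149) (.hit (nat_lit 1) (nat_lit 1) (nat_lit 0xbc0001780002fdcde) b21802 (.one (nat_lit 56) (nat_lit 4) (nat_lit 6) (nat_lit 0xbc0001780002ff149) b21803 (.one (nat_lit 68) (nat_lit 3) (nat_lit 5) (nat_lit 0xbc0001780002ff0da) b21804 (.nil)))) (.tok (nat_lit 40) (nat_lit 0xbc0001780002fe375) (.hit (nat_lit 5) (nat_lit 33) (nat_lit 0xbc0001780002fe2af) b21805 (.hit (nat_lit 6) (nat_lit 34) (nat_lit 0xbc0001780002fe375) b21806 (.nil))) (.tok (nat_lit 43) (nat_lit 0xbc0001780002ff30a) (.hit (nat_lit 7) (nat_lit 35) (nat_lit 0xbc0001780002ff30a) b21809 (.hit (nat_lit 8) (nat_lit 36) (nat_lit 0xbc0001780002fe8cc) b21810 (.nil))) (.tok (nat_lit 46) (nat_lit 0xbc0001780003003b7) (.hit (nat_lit 9)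 (nat_lit 37) (nat_lit 0xbc0001780002fdd04) b21807 (.hit (nat_lit 10) (nat_lit 38) (nat_lit 0xbc0001780003003b7) b21808 (.nil))) (.nil)))))) (.tok (nat_lit 9) (nat_lit 0xbc0001780002fed1a) (.hit (nat_lit 11) (nat_lit 0) (nat_lit 0xbc0001780002fe325) b21811 (.tok (nat_lit 3) (nat_lit 0xbc0001780002fed1a) (.hit (nat_lit 12) (nat_lit 1) (nat_lit 0xbc0001780002fd8c4) b21812 (.one (nat_lit 56) (nat_lit 15) (nat_lit 6) (nat_lit 0xbc0001780002feb2f) b21813 (.one (nat_lit 68) (nat_lit 14) (nat_lit 5) (nat_lit 0xbc0001780002fed1a) b21814 (.nil)))) (.nil))) (.nil))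
noncomputable def r22_31 : Rw Blk := .tok (nat_lit 3) (nat_lit 0x5e0000bc00017f1ebafe2db) (.hit (nat_lit 14) (nat_lit 0) (nat_lit 0x5e0000bc00017f1ebafe2db) b21829 (.tok (nat_lit 6) (nat_lit 0x5e0000bc00017dfd2afbd75) (.hit (nat_lit 15) (nat_lit 7) (nat_lit 0x5e0000bc00017dfd2afbd75) b21832 (.hit (nat_lit 16) (nat_lit 15) (nat_lit 0x5e0000bc00017d9b32fb136) b21833 (.nil))) (.tok (nat_lit 9) (nat_lit 0x5e0000bc00017eeb12fdb32) (.hit (nat_lit 17) (nat_lit 20) (nat_lit 0x5e0000bc00017eeb12fdb32) b21830 (.hit (nat_lit 18) (nat_lit 28) (nat_lit 0x5e0000bc00017eea9afdb23) b21831 (.nil))) (.nil)))) (.tok (nat_lit 6) (nat_lit 0x5e0000bc000180000300000) (.hit (nat_lit 0) (nat_lit 0) (nat_lit 0x5e0000bc00017f9722ff969) b21815 (.tok (nat_lit 3) (nat_lit 0x5e0000bc0001800002ffc1a) (.hit (nat_lit 1) (nat_lit 1) (nat_lit 0x5e0000bc00017f3212fe24b) b21816 (.one (nat_lit 67) (nat_lit 2) (nat_lit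 2) (nat_lit 0x5e0000bc0001800002ffc1a) b21817 (.nil))) (.tok (nat_lit 6) (nat_lit 0x5e0000bc00017ffb4300000) (.hit (nat_lit 3) (nat_lit 7) (nat_lit 0x5e0000bc00017fafaaff746) b21818 (.hit (nat_lit 7) (nat_lit 15) (nat_lit 0x5e0000bc00017f2d2afe133) b21822 (.tok (nat_lit 55) (nat_lit 0x5e0000bc00017ffb4300000) (.hit (nat_lit 4) (nat_lit 8) (nat_lit 0x5e0000bc00017ff9ab00000) b21819 (.hit (nat_lit 8) (nat_lit 16) (nat_lit 0x5e0000bc00017fcbc2ff16e) b21823 (.tok (nat_lit 6) (nat_lit 0x5e0000bc00017ffb42ff9c4) (.hit (nat_lit 5) (nat_lit 9) (nat_lit 0x5e0000bc00017fb9a2ff508) b21820 (.one (nat_lit 55) (nat_lit 6) (nat_lit 10) (nat_lit 0x5e0000bc00017ffb42ff9c4) b21821 (.nil))) (.nil)))) (.nil)))) (.nil)))) (.tok (nat_lit 9) (nat_lit 0x5e0000bc00017fb9eaff86d) (.hit (nat_lit 9) (nat_lit 0) (nat_lit 0x5e0000bc00017f4952feabc) b21824 (.tok (nat_lit 3) (nat_lit 0x5e0000bc00017fb9eaff86d)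 (.hit (nat_lit 10) (nat_lit 1) (nat_lit 0x5e0000bc00017ef8f2fdf81) b21825 (.one (nat_lit 55) (nat_lit 11) (nat_lit 3) (nat_lit 0x5e0000bc00017fb9eaff86d) b21826 (.nil))) (.tok (nat_lit 9) (nat_lit 0x5e0000bc00017f79dafefa7) (.hit (nat_lit 12) (nat_lit 20) (nat_lit 0x5e0000bc00017f79dafefa7) b21827 (.hit (nat_lit 13) (nat_lit 28) (nat_lit 0x5e0000bc00017f18aafe376) b21828 (.nil))) (.nil)))) (.nil)))
noncomputable def r22_32 : Rw Blk := .tok (nat_lit 3) (nat_lit 0x5fdb86bfabbd7f61f2fe0085faffcbfa5297f3ebaff199) (.hit (nat_lit 0) (nat_lit 0) (nat_lit 0x5f8b4abf14597e75f2fd1075f9250bf3ca57e84c2fdb10) b36034 (.tok (nat_lit 9) (nat_lit 0x5f97f4bf237d7eeab2fc2765f8398beef9d7ddfdafd7ee) (.hit (nat_lit 10) (nat_lit 20) (nat_lit 0x5f71fcbed78d7e9612faf7a5f5da0bea3ad7d47fafc4f2) b21835 (.hit (nat_lit 15) (nat_lit 28) (nat_lit 0x5f6d1ebecdd17e3d22fad0b5f58c2be99f17d3482fc283) b21838 (.tok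 (nat_lit 14) (nat_lit 0x5f97f4bf237d7ecd12fc2765f8398beef9d7ddfdafd7ee) (.hit (nat_lit 11) (nat_lit 24) (nat_lit 0x5f7f34bef1fd7e94b2fb6165f6ad8bebe1d7d7cdafcb8e) b21836 (.hit (nat_lit 16) (nat_lit 30) (nat_lit 0x5f7d3abeee097e8682fb5195f68debeba297d74f2fca91) b21839 (.one (nat_lit 6) (nat_lit 12) (nat_lit 25) (nat_lit 0x5f97f4bf237d7ecd12fc2765f8398beef9d7ddfdafd7ee) b21837 (.nil)))) (.one (nat_lit 56) (nat_lit 17) (nat_lit 31) (nat_lit 0x5f9778bf22857eeab2fc2385f831cbeeea57dddeafd7b0) b21840 (.nil))))) (.tok (nat_lit 64) (nat_lit 0x5f851abefdc97ec8a2fb9095f70bebec9e97d9472fce81) (.hit (nat_lit 30) (nat_lit 50) (nat_lit 0x5f7ec6bef1217e78f2fb5df5f6a6abebd417d7b22fcb57) b21841 (.hit (nat_lit 31) (nat_lit 51) (nat_lit 0x5f851abefdc97ec8a2fb9095f70bebec9e97d9472fce81) b21842 (.nil))) (.tok (nat_lit 67) (nat_lit 0x5fdb86bfabbd7f61f2fe0085faffcbfa5297f3ebaff199) (.hit (nat_lit 32)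 (nat_lit 52) (nat_lit 0x5fdb86bfabbd7f61f2fda2b5faed8bfa5297f3ebaff199) b21843 (.tok (nat_lit 3) (nat_lit 0x5fa658bf40457f505afc9a85f91fcbf0c657e196afdf20) (.hit (nat_lit 38) (nat_lit 58) (nat_lit 0x5f970abf21a97f505afc2015f82aebeedc97ddc32fd779) b21846 (.one (nat_lit 55) (nat_lit 39) (nat_lit 59) (nat_lit 0x5fa658bf40457f156afc9a85f91fcbf0c657e196afdf20) b21847 (.nil))) (.tok (nat_lit 9) (nat_lit 0x5fb3d0bf6a7d7f1a8afe0085faffcbf8c1d7f0c3afebca) (.hit (nat_lit 33) (nat_lit 53) (nat_lit 0x5fb3d0bf6a7d7f1a8afe0085faffcbf8c1d7f0c3afebca) b21844 (.hit (nat_lit 36) (nat_lit 56) (nat_lit 0x5f97bcbf230d7f10aafc25a5f8360beef2d7ddefafd7d2) b21845 (.nil))) (.nil)))) (.one (nat_lit 70) (nat_lit 40) (nat_lit 60) (nat_lit 0x5f957abf1e897f2262fc1395f811ebeeaa97dd5f2fd6b1) b21848 (.nil)))))) (.tok (nat_lit 6) (nat_lit 0x600000c0000180000300000600000c0000180000300000) (.hit (nat_lit 81) (nat_lit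 0) (nat_lit 0x5fb40ebf77f57f0422fdfef5fbc8abf83c57f01bafe5d1) b21849 (.tok (nat_lit 6) (nat_lit 0x5fde3abfc5097f571afed815fd802bf06257e0ceafde62) (.hit (nat_lit 87) (nat_lit 7) (nat_lit 0x5f9e80bf68cd7e8adafda025fa9d0bed0757da18afd024) b21850 (.hit (nat_lit 95) (nat_lit 15) (nat_lit 0x5f8588beffc17e3202fb3605f6334be61a57cc3eafb470) b21853 (.tok (nat_lit 14) (nat_lit 0x5fde3abfc5097f571afed815fd802bf06257e0ceafde62) (.hit (nat_lit 91) (nat_lit 11) (nat_lit 0x5fd7febfbcf97f571afe7ee5fcd3cbee3717dc782fdb3f) b21851 (.hit (nat_lit 97) (nat_lit 17) (nat_lit 0x5fbe80bf71b17f1c6afd1685f9b92bea8357d510afd589) b21854 (.one (nat_lit 9) (nat_lit 92) (nat_lit 12) (nat_lit 0x5fde3abfc5097f5492fed815fd802bf06257e0ceafde62) b21852 (.nil)))) (.one (nat_lit 68) (nat_lit 98) (nat_lit 18) (nat_lit 0x5fb080bf55c97ec492fca765f8e7cbeb6997d6dd2fceac) b21855 (.nil))))) (.tok (nat_lit 52) (nat_lit 0x5fbec0bfa00d7f1052fd1a55f9f78bed96d7db37afd4d8)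 (.hit (nat_lit 106) (nat_lit 39) (nat_lit 0x5fbec0bfa00d7eefeafc1d35f7ccebed96d7db37afd4d8) b21856 (.hit (nat_lit 107) (nat_lit 40) (nat_lit 0x5fb984bf8aa57f1052fd1a55f9f78bed3457da72afd457) b21857 (.nil))) (.tok (nat_lit 55) (nat_lit 0x600000c0000180000300000600000c0000180000300000) (.hit (nat_lit 108) (nat_lit 41) (nat_lit 0x600000c000017fc4bb000005fff70c0000180000300000) b21858 (.tok (nat_lit 3) (nat_lit 0x5ffdd2bfdb957f4d62fff42600000bf1e717e3d82ff27a) (.hit (nat_lit 114) (nat_lit 47) (nat_lit 0x5fdf42bfc99d7f3622ff9b35fef08bf0e117e1cc2feefc) b21861 (.one (nat_lit 67) (nat_lit 115) (nat_lit 48) (nat_lit 0x5ffdd2bfdb957f4d62fff42600000bf1e717e3d82ff27a) b21862 (.nil))) (.tok (nat_lit 6) (nat_lit 0x5ff2cabfd319800002fe5995fb958bf0cc57e1a2aff7a1) (.hit (nat_lit 109) (nat_lit 42) (nat_lit 0x5ff2cabfbcc57f498afe5995fb958bf08e57e126aff7a1) b21859 (.hit (nat_lit 112) (nat_lit 45)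 (nat_lit 0x5fcce2bfd319800002fdb8e5fb0dabf0cc57e1a2afdf38) b21860 (.nil))) (.nil)))) (.one (nat_lit 58) (nat_lit 116) (nat_lit 49) (nat_lit 0x5fbec4bf8b497f101afda675fae36bedc757db98afdd06) b21863 (.nil)))))) (.nil))
noncomputable def r22_33 : Rw Blk := .tok (nat_lit 9) (nat_lit 0xbc0001780002fe9ba) (.hit (nat_lit 0) (nat_lit 0) (nat_lit 0xbc0001780002fdc57) b21864 (.tok (nat_lit 14) (nat_lit 0xbc0001780002fe9ba) (.hit (nat_lit 11) (nat_lit 61) (nat_lit 0xbc0001780002fe08c) b21865 (.one (nat_lit 3) (nat_lit 12) (nat_lit 62) (nat_lit 0xbc0001780002fe4dc) b21866 (.tok (nat_lit 6) (nat_lit 0xbc0001780002fe9ba) (.hit (nat_lit 15) (nat_lit 65) (nat_lit 0xbc0001780002fe9ba) b21867 (.hit (nat_lit 16) (nat_lit 66) (nat_lit 0xbc0001780002fdc36) b21868 (.nil))) (.tok (nat_lit 9) (nat_lit 0xbc0001780002fe04d) (.hit (nat_lit 13) (nat_lit 63) (nat_lit 0xbc0001780002fc7da) b21869 (.hit (nat_lit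 14) (nat_lit 64) (nat_lit 0xbc0001780002fe04d) b21870 (.nil))) (.nil))))) (.one (nat_lit 17) (nat_lit 17) (nat_lit 67) (nat_lit 0xbc0001780002fdd6e) b21871 (.tok (nat_lit 20) (nat_lit 0xbc0001780002fd962) (.hit (nat_lit 18) (nat_lit 68) (nat_lit 0xbc0001780002fb3e1) b21874 (.hit (nat_lit 19) (nat_lit 69) (nat_lit 0xbc0001780002fd962) b21875 (.nil))) (.tok (nat_lit 23) (nat_lit 0xbc0001780002fe86d) (.hit (nat_lit 20) (nat_lit 70) (nat_lit 0xbc0001780002fe86d) b21872 (.hit (nat_lit 21) (nat_lit 71) (nat_lit 0xbc0001780002fded7) b21873 (.nil))) (.one (nat_lit 26) (nat_lit 22) (nat_lit 72) (nat_lit 0xbc0001780002fcee3) b21876 (.one (nat_lit 29) (nat_lit 23) (nat_lit 73) (nat_lit 0xbc0001780002fc8b0) b21877 (.one (nat_lit 32) (nat_lit 24) (nat_lit 74) (nat_lit 0xbc0001780002fd399) b21879 (.one (nat_lit 35) (nat_lit 25) (nat_lit 75) (nat_lit 0xbc0001780002fcab1) b21878 (.one (nat_lit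 50) (nat_lit 33) (nat_lit 83) (nat_lit 0xbc0001780002fd439) b21880 (.tok (nat_lit 53) (nat_lit 0xbc0001780002fdc8e) (.hit (nat_lit 34) (nat_lit 84) (nat_lit 0xbc0001780002fd690) b21881 (.hit (nat_lit 35) (nat_lit 85) (nat_lit 0xbc0001780002fdc8e) b21882 (.nil))) (.tok (nat_lit 56) (nat_lit 0xbc0001780002fe181) (.hit (nat_lit 36) (nat_lit 86) (nat_lit 0xbc0001780002fe181) b21883 (.one (nat_lit 3) (nat_lit 40) (nat_lit 90) (nat_lit 0xbc0001780002fb73f) b21887 (.tok (nat_lit 6) (nat_lit 0xbc0001780002fc1e2) (.hit (nat_lit 38) (nat_lit 88) (nat_lit 0xbc0001780002fc1e2) b21885 (.hit (nat_lit 39) (nat_lit 89) (nat_lit 0xbc0001780002fbc97) b21886 (.nil))) (.one (nat_lit 9) (nat_lit 37) (nat_lit 87) (nat_lit 0xbc0001780002fbf2a) b21884 (.nil))))) (.one (nat_lit 59) (nat_lit 41) (nat_lit 91) (nat_lit 0xbc0001780002fd4c1) b21888 (.nil)))))))))))))) (.tok (nat_lit 64) (nat_lit 0xbc000178000300000)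 (.hit (nat_lit 180) (nat_lit 0) (nat_lit 0xbc000178000300000) b21889 (.tok (nat_lit 6) (nat_lit 0xbc0001780002fecbc) (.hit (nat_lit 181) (nat_lit 7) (nat_lit 0xbc0001780002fd81e) b21892 (.hit (nat_lit 182) (nat_lit 15) (nat_lit 0xbc0001780002fecbc) b21893 (.nil))) (.tok (nat_lit 9) (nat_lit 0xbc0001780002ffa71) (.hit (nat_lit 183) (nat_lit 20) (nat_lit 0xbc0001780002ffa71) b21890 (.hit (nat_lit 184) (nat_lit 28) (nat_lit 0xbc0001780002fe9b5) b21891 (.nil))) (.nil)))) (.tok (nat_lit 67) (nat_lit 0xbc0001780002fed67) (.hit (nat_lit 205) (nat_lit 0) (nat_lit 0xbc0001780002fed67) b21902 (.tok (nat_lit 3) (nat_lit 0xbc0001780002fed17) (.hit (nat_lit 206) (nat_lit 1) (nat_lit 0xbc0001780002fd208) b21903 (.one (nat_lit 55) (nat_lit 207) (nat_lit 3) (nat_lit 0xbc0001780002fed17) b21904 (.nil))) (.tok (nat_lit 9) (nat_lit 0xbc0001780002fd80b) (.hit (nat_lit 208) (nat_lit 20) (nat_lit 0xbc0001780002fd80b)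 b21905 (.hit (nat_lit 211) (nat_lit 28) (nat_lit 0xbc0001780002fd0f5) b21906 (.nil))) (.nil)))) (.tok (nat_lit 70) (nat_lit 0xbc0001780002fff31) (.hit (nat_lit 191) (nat_lit 0) (nat_lit 0xbc0001780002ff7ff) b21894 (.tok (nat_lit 3) (nat_lit 0xbc0001780002ff39b) (.hit (nat_lit 192) (nat_lit 1) (nat_lit 0xbc0001780002fd19e) b21895 (.one (nat_lit 67) (nat_lit 193) (nat_lit 2) (nat_lit 0xbc0001780002ff39b) b21896 (.nil))) (.tok (nat_lit 6) (nat_lit 0xbc0001780002fff31) (.hit (nat_lit 194) (nat_lit 7) (nat_lit 0xbc0001780002fdecf) b21897 (.hit (nat_lit 197) (nat_lit 15) (nat_lit 0xbc0001780002fd78c) b21900 (.tok (nat_lit 55) (nat_lit 0xbc0001780002fff31) (.hit (nat_lit 195) (nat_lit 8) (nat_lit 0xbc0001780002fe9e2) b21898 (.hit (nat_lit 198) (nat_lit 16) (nat_lit 0xbc0001780002fee8d) b21901 (.one (nat_lit 6) (nat_lit 196) (nat_lit 9) (nat_lit 0xbc0001780002fff31) b21899 (.nil)))) (.nil))))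 (.nil)))) (.nil))))
noncomputable def r22_34 : Rw Blk := .tok (nat_lit 3) (nat_lit 0xbc00017800030066b) (.hit (nat_lit 15) (nat_lit 0) (nat_lit 0xbc0001780002fed54) b21911 (.tok (nat_lit 6) (nat_lit 0xbc0001780002fe3ac) (.hit (nat_lit 16) (nat_lit 7) (nat_lit 0xbc0001780002fd0e1) b21912 (.hit (nat_lit 21) (nat_lit 15) (nat_lit 0xbc0001780002fb91f) b21915 (.tok (nat_lit 56) (nat_lit 0xbc0001780002fe3ac) (.hit (nat_lit 19) (nat_lit 13) (nat_lit 0xbc0001780002fd922) b21913 (.hit (nat_lit 24) (nat_lit 19) (nat_lit 0xbc0001780002fd9fd) b21916 (.one (nat_lit 6) (nat_lit 20) (nat_lit 14) (nat_lit 0xbc0001780002fe3ac) b21914 (.nil)))) (.nil)))) (.tok (nat_lit 52) (nat_lit 0xbc0001780002fe491) (.hit (nat_lit 25) (nat_lit 39) (nat_lit 0xbc0001780002fd76b) b21917 (.hit (nat_lit 26) (nat_lit 40) (nat_lit 0xbc0001780002fe491) b21918 (.nil))) (.tok (nat_lit 55) (nat_lit 0xbc00017800030066b)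 (.hit (nat_lit 27) (nat_lit 41) (nat_lit 0xbc00017800030066b) b21919 (.one (nat_lit 3) (nat_lit 33) (nat_lit 47) (nat_lit 0xbc0001780002fe4aa) b21925 (.tok (nat_lit 6) (nat_lit 0xbc0001780002fe764) (.hit (nat_lit 28) (nat_lit 42) (nat_lit 0xbc0001780002fdd49) b21920 (.hit (nat_lit 31) (nat_lit 45) (nat_lit 0xbc0001780002fe080) b21923 (.tok (nat_lit 55) (nat_lit 0xbc0001780002fe764) (.hit (nat_lit 29) (nat_lit 43) (nat_lit 0xbc0001780002fe764) b21921 (.hit (nat_lit 32) (nat_lit 46) (nat_lit 0xbc0001780002fe667) b21924 (.one (nat_lit 6) (nat_lit 30) (nat_lit 44) (nat_lit 0xbc0001780002fdc9a) b21922 (.nil)))) (.nil)))) (.nil)))) (.one (nat_lit 58) (nat_lit 35) (nat_lit 49) (nat_lit 0xbc0001780002fe376) b21926 (.nil)))))) (.tok (nat_lit 9) (nat_lit 0xbc000178000300a9a) (.hit (nat_lit 0) (nat_lit 0) (nat_lit 0xbc000178000300a9a) b21907 (.tok (nat_lit 9) (nat_lit 0xbc0001780002ff239)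 (.hit (nat_lit 1) (nat_lit 20) (nat_lit 0xbc0001780002fe7e0) b21908 (.hit (nat_lit 4) (nat_lit 28) (nat_lit 0xbc0001780002fe061) b21909 (.one (nat_lit 56) (nat_lit 6) (nat_lit 31) (nat_lit 0xbc0001780002ff239) b21910 (.nil)))) (.nil))) (.nil))
noncomputable def r22_35 : Rw Blk := .tok (nat_lit 6) (nat_lit 0xbc000178000300c21) (.hit (nat_lit 0) (nat_lit 0) (nat_lit 0xbc0001780002fd472) b21927 (.tok (nat_lit 14) (nat_lit 0xbc0001780002fede1) (.hit (nat_lit 21) (nat_lit 61) (nat_lit 0xbc0001780002fe9f7) b21928 (.one (nat_lit 3) (nat_lit 22) (nat_lit 62) (nat_lit 0xbc0001780002fe997) b21929 (.tok (nat_lit 6) (nat_lit 0xbc0001780002fe0ee) (.hit (nat_lit 25) (nat_lit 65) (nat_lit 0xbc0001780002fc5a2) b21930 (.hit (nat_lit 26) (nat_lit 66) (nat_lit 0xbc0001780002fe0ee) b21931 (.nil))) (.tok (nat_lit 9) (nat_lit 0xbc0001780002fede1) (.hit (nat_lit 23) (nat_lit 63) (nat_lit 0xbc0001780002fede1)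 b21932 (.hit (nat_lit 24) (nat_lit 64) (nat_lit 0xbc0001780002fcb72) b21933 (.nil))) (.nil))))) (.one (nat_lit 17) (nat_lit 27) (nat_lit 67) (nat_lit 0xbc0001780002fd75f) b21934 (.tok (nat_lit 20) (nat_lit 0xbc000178000300c21) (.hit (nat_lit 28) (nat_lit 68) (nat_lit 0xbc000178000300c21) b21937 (.hit (nat_lit 29) (nat_lit 69) (nat_lit 0xbc0001780002fd2a2) b21938 (.nil))) (.tok (nat_lit 23) (nat_lit 0xbc0001780002fd02b) (.hit (nat_lit 30) (nat_lit 70) (nat_lit 0xbc0001780002fb4e5) b21935 (.hit (nat_lit 31) (nat_lit 71) (nat_lit 0xbc0001780002fd02b) b21936 (.nil))) (.one (nat_lit 26) (nat_lit 32) (nat_lit 72) (nat_lit 0xbc0001780002fc8cc) b21939 (.one (nat_lit 29) (nat_lit 33) (nat_lit 73) (nat_lit 0xbc0001780002fd7e1) b21940 (.one (nat_lit 32) (nat_lit 34) (nat_lit 74) (nat_lit 0xbc0001780002fc141) b21942 (.one (nat_lit 35) (nat_lit 35) (nat_lit 75) (nat_lit 0xbc0001780002fd1c8)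 b21941 (.one (nat_lit 62) (nat_lit 52) (nat_lit 92) (nat_lit 0xbc0001780002fc8db) b21943 (.tok (nat_lit 65) (nat_lit 0xbc0001780002fd97e) (.hit (nat_lit 53) (nat_lit 93) (nat_lit 0xbc0001780002fd97e) b21944 (.hit (nat_lit 54) (nat_lit 94) (nat_lit 0xbc0001780002fcd99) b21945 (.nil))) (.tok (nat_lit 68) (nat_lit 0xbc0001780002fd2b7) (.hit (nat_lit 55) (nat_lit 95) (nat_lit 0xbc0001780002fd2b7) b21946 (.one (nat_lit 3) (nat_lit 59) (nat_lit 99) (nat_lit 0xbc0001780002fb468) b21950 (.one (nat_lit 6) (nat_lit 56) (nat_lit 96) (nat_lit 0xbc0001780002fb88b) b21947 (.tok (nat_lit 9) (nat_lit 0xbc0001780002fc677) (.hit (nat_lit 57) (nat_lit 97) (nat_lit 0xbc0001780002fc677) b21948 (.hit (nat_lit 58) (nat_lit 98) (nat_lit 0xbc0001780002fbe25) b21949 (.nil))) (.nil))))) (.one (nat_lit 71) (nat_lit 60) (nat_lit 100) (nat_lit 0xbc0001780002fcf7d) b21951 (.nil)))))))))))))) (.tok (nat_lit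 52) (nat_lit 0xbc000178000300018) (.hit (nat_lit 176) (nat_lit 0) (nat_lit 0xbc000178000300018) b21952 (.tok (nat_lit 6) (nat_lit 0xbc0001780002feda9) (.hit (nat_lit 177) (nat_lit 7) (nat_lit 0xbc0001780002feda9) b21955 (.hit (nat_lit 178) (nat_lit 15) (nat_lit 0xbc0001780002fdd26) b21956 (.nil))) (.tok (nat_lit 9) (nat_lit 0xbc0001780002fe48f) (.hit (nat_lit 179) (nat_lit 20) (nat_lit 0xbc0001780002fd09c) b21953 (.hit (nat_lit 180) (nat_lit 28) (nat_lit 0xbc0001780002fe48f) b21954 (.nil))) (.nil)))) (.tok (nat_lit 55) (nat_lit 0xbc0001780002fe077) (.hit (nat_lit 187) (nat_lit 0) (nat_lit 0xbc0001780002fe077) b21965 (.tok (nat_lit 3) (nat_lit 0xbc0001780002fd73a) (.hit (nat_lit 188) (nat_lit 1) (nat_lit 0xbc0001780002fc096) b21966 (.one (nat_lit 67) (nat_lit 189) (nat_lit 2) (nat_lit 0xbc0001780002fd73a) b21967 (.nil))) (.tok (nat_lit 6) (nat_lit 0xbc0001780002fcb1b) (.hit (nat_lit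 190) (nat_lit 7) (nat_lit 0xbc0001780002fcb1b) b21968 (.hit (nat_lit 193) (nat_lit 15) (nat_lit 0xbc0001780002fc16c) b21969 (.nil))) (.nil)))) (.tok (nat_lit 58) (nat_lit 0xbc0001780002feb51) (.hit (nat_lit 201) (nat_lit 0) (nat_lit 0xbc0001780002fe21f) b21957 (.tok (nat_lit 3) (nat_lit 0xbc0001780002fe22a) (.hit (nat_lit 202) (nat_lit 1) (nat_lit 0xbc0001780002fc893) b21958 (.one (nat_lit 55) (nat_lit 203) (nat_lit 3) (nat_lit 0xbc0001780002fe22a) b21959 (.nil))) (.tok (nat_lit 9) (nat_lit 0xbc0001780002feb51) (.hit (nat_lit 204) (nat_lit 20) (nat_lit 0xbc0001780002fca86) b21960 (.hit (nat_lit 207) (nat_lit 28) (nat_lit 0xbc0001780002fcab3) b21963 (.tok (nat_lit 67) (nat_lit 0xbc0001780002feb51) (.hit (nat_lit 205) (nat_lit 21) (nat_lit 0xbc0001780002fd77d) b21961 (.hit (nat_lit 208) (nat_lit 29) (nat_lit 0xbc0001780002fe4ee) b21964 (.one (nat_lit 9) (nat_lit 206) (nat_lit 22)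 (nat_lit 0xbc0001780002feb51) b21962 (.nil)))) (.nil)))) (.nil)))) (.nil))))
noncomputable def r22_36 : Rw Blk := .tok (nat_lit 3) (nat_lit 0xbc0001780003019cf) (.hit (nat_lit 15) (nat_lit 0) (nat_lit 0xbc000178000300558) b21974 (.tok (nat_lit 9) (nat_lit 0xbc0001780002fec7e) (.hit (nat_lit 16) (nat_lit 20) (nat_lit 0xbc0001780002fce1a) b21975 (.hit (nat_lit 21) (nat_lit 28) (nat_lit 0xbc0001780002fda38) b21978 (.tok (nat_lit 68) (nat_lit 0xbc0001780002fec7e) (.hit (nat_lit 19) (nat_lit 26) (nat_lit 0xbc0001780002fdf21) b21976 (.hit (nat_lit 24) (nat_lit 32) (nat_lit 0xbc0001780002fec7e) b21979 (.one (nat_lit 9) (nat_lit 20) (nat_lit 27) (nat_lit 0xbc0001780002feac3) b21977 (.nil)))) (.nil)))) (.tok (nat_lit 64) (nat_lit 0xbc0001780002ff203) (.hit (nat_lit 25) (nat_lit 50) (nat_lit 0xbc0001780002fef59) b21980 (.hit (nat_lit 26) (nat_lit 51) (nat_lit 0xbc0001780002ff203) b21981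 (.nil))) (.tok (nat_lit 67) (nat_lit 0xbc000178000301508) (.hit (nat_lit 27) (nat_lit 52) (nat_lit 0xbc000178000301508) b21982 (.one (nat_lit 3) (nat_lit 33) (nat_lit 58) (nat_lit 0xbc0001780002fe9e3) b21988 (.tok (nat_lit 9) (nat_lit 0xbc0001780002ff1da) (.hit (nat_lit 28) (nat_lit 53) (nat_lit 0xbc0001780002feacd) b21983 (.hit (nat_lit 31) (nat_lit 56) (nat_lit 0xbc0001780002fe76b) b21986 (.tok (nat_lit 67) (nat_lit 0xbc0001780002ff1da) (.hit (nat_lit 29) (nat_lit 54) (nat_lit 0xbc0001780002ff1da) b21984 (.hit (nat_lit 32) (nat_lit 57) (nat_lit 0xbc0001780002ff151) b21987 (.one (nat_lit 9) (nat_lit 30) (nat_lit 55) (nat_lit 0xbc0001780002fe667) b21985 (.nil)))) (.nil)))) (.nil)))) (.one (nat_lit 70) (nat_lit 35) (nat_lit 60) (nat_lit 0xbc0001780003019cf) b21989 (.nil)))))) (.tok (nat_lit 6) (nat_lit 0xbc0001780003011a2) (.hit (nat_lit 0) (nat_lit 0) (nat_lit 0xbc0001780003011a2)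 b21970 (.tok (nat_lit 6) (nat_lit 0xbc000178000300d61) (.hit (nat_lit 1) (nat_lit 7) (nat_lit 0xbc0001780002fe209) b21971 (.hit (nat_lit 4) (nat_lit 15) (nat_lit 0xbc0001780002ff0b4) b21972 (.one (nat_lit 68) (nat_lit 6) (nat_lit 18) (nat_lit 0xbc000178000300d61) b21973 (.nil)))) (.nil))) (.nil))
noncomputable def r22_37 : Rw Blk := .tok (nat_lit 6) (nat_lit 0xbc00017800030176a) (.hit (nat_lit 0) (nat_lit 0) (nat_lit 0xbc0001780003005d5) b21990 (.one (nat_lit 38) (nat_lit 16) (nat_lit 76) (nat_lit 0xbc0001780002ff700) b21991 (.tok (nat_lit 41) (nat_lit 0xbc0001780002fee1c) (.hit (nat_lit 17) (nat_lit 77) (nat_lit 0xbc0001780002fed90) b21992 (.hit (nat_lit 18) (nat_lit 78) (nat_lit 0xbc0001780002fee1c) b21993 (.nil))) (.tok (nat_lit 44) (nat_lit 0xbc000178000300baf) (.hit (nat_lit 19) (nat_lit 79) (nat_lit 0xbc000178000300baf) b21996 (.hit (nat_lit 20) (nat_lit 80) (nat_lit 0xbc0001780002feacf)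 b21997 (.nil))) (.tok (nat_lit 47) (nat_lit 0xbc0001780002ff7bd) (.hit (nat_lit 21) (nat_lit 81) (nat_lit 0xbc0001780002fe4cb) b21994 (.hit (nat_lit 22) (nat_lit 82) (nat_lit 0xbc0001780002ff7bd) b21995 (.nil))) (.one (nat_lit 62) (nat_lit 23) (nat_lit 92) (nat_lit 0xbc0001780003001ca) b21998 (.tok (nat_lit 65) (nat_lit 0xbc0001780002ff4bc) (.hit (nat_lit 24) (nat_lit 93) (nat_lit 0xbc0001780002ff4bc) b21999 (.hit (nat_lit 25) (nat_lit 94) (nat_lit 0xbc0001780002fee93) b22000 (.nil))) (.tok (nat_lit 68) (nat_lit 0xbc00017800030176a) (.hit (nat_lit 26) (nat_lit 95) (nat_lit 0xbc00017800030176a) b22001 (.one (nat_lit 3) (nat_lit 30) (nat_lit 99) (nat_lit 0xbc0001780002ffc72) b22005 (.one (nat_lit 6) (nat_lit 27) (nat_lit 96) (nat_lit 0xbc0001780002ff79f) b22002 (.tok (nat_lit 9) (nat_lit 0xbc0001780002ffa0b) (.hit (nat_lit 28) (nat_lit 97) (nat_lit 0xbc0001780002ffa0b) b22003 (.hit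 (nat_lit 29) (nat_lit 98) (nat_lit 0xbc0001780002feea9) b22004 (.nil))) (.nil))))) (.one (nat_lit 71) (nat_lit 31) (nat_lit 100) (nat_lit 0xbc0001780002febce) b22006 (.nil)))))))))) (.nil)
noncomputable def r22_38 : Rw Blk := .tok (nat_lit 6) (nat_lit 0xbc0001780002ff4b9) (.hit (nat_lit 0) (nat_lit 0) (nat_lit 0xbc0001780002fde24) b22007 (.tok (nat_lit 14) (nat_lit 0xbc0001780002ff374) (.hit (nat_lit 21) (nat_lit 61) (nat_lit 0xbc0001780002fe2aa) b22008 (.one (nat_lit 3) (nat_lit 22) (nat_lit 62) (nat_lit 0xbc0001780002fe041) b22009 (.tok (nat_lit 6) (nat_lit 0xbc0001780002ff2c0) (.hit (nat_lit 25) (nat_lit 65) (nat_lit 0xbc0001780002fd597) b22010 (.hit (nat_lit 26) (nat_lit 66) (nat_lit 0xbc0001780002ff2c0) b22011 (.nil))) (.tok (nat_lit 9) (nat_lit 0xbc0001780002ff374) (.hit (nat_lit 23) (nat_lit 63) (nat_lit 0xbc0001780002ff374) b22012 (.hit (nat_lit 24) (nat_lit 64) (nat_lit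 0xbc0001780002fdbd7) b22013 (.nil))) (.nil))))) (.one (nat_lit 17) (nat_lit 27) (nat_lit 67) (nat_lit 0xbc0001780002fdaaa) b22014 (.tok (nat_lit 20) (nat_lit 0xbc0001780002ff4b9) (.hit (nat_lit 28) (nat_lit 68) (nat_lit 0xbc0001780002ff4b9) b22017 (.hit (nat_lit 29) (nat_lit 69) (nat_lit 0xbc0001780002fdb07) b22018 (.nil))) (.tok (nat_lit 23) (nat_lit 0xbc0001780002fddc8) (.hit (nat_lit 30) (nat_lit 70) (nat_lit 0xbc0001780002fce18) b22015 (.hit (nat_lit 31) (nat_lit 71) (nat_lit 0xbc0001780002fddc8) b22016 (.nil))) (.one (nat_lit 26) (nat_lit 32) (nat_lit 72) (nat_lit 0xbc0001780002fd77a) b22019 (.one (nat_lit 29) (nat_lit 33) (nat_lit 73) (nat_lit 0xbc0001780002fd7f1) b22020 (.one (nat_lit 32) (nat_lit 34) (nat_lit 74) (nat_lit 0xbc0001780002fcd17) b22022 (.one (nat_lit 35) (nat_lit 35) (nat_lit 75) (nat_lit 0xbc0001780002fd83c) b22021 (.one (nat_lit 62) (nat_lit 52) (nat_lit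 92) (nat_lit 0xbc0001780002fd940) b22023 (.tok (nat_lit 65) (nat_lit 0xbc0001780002fd9ba) (.hit (nat_lit 53) (nat_lit 93) (nat_lit 0xbc0001780002fce45) b22024 (.hit (nat_lit 54) (nat_lit 94) (nat_lit 0xbc0001780002fd9ba) b22025 (.nil))) (.tok (nat_lit 68) (nat_lit 0xbc0001780002fdf00) (.hit (nat_lit 55) (nat_lit 95) (nat_lit 0xbc0001780002fdf00) b22026 (.one (nat_lit 3) (nat_lit 59) (nat_lit 99) (nat_lit 0xbc0001780002fcc43) b22030 (.one (nat_lit 6) (nat_lit 56) (nat_lit 96) (nat_lit 0xbc0001780002fcae2) b22027 (.tok (nat_lit 9) (nat_lit 0xbc0001780002fcf71) (.hit (nat_lit 57) (nat_lit 97) (nat_lit 0xbc0001780002fcf71) b22028 (.hit (nat_lit 58) (nat_lit 98) (nat_lit 0xbc0001780002fcd1f) b22029 (.nil))) (.nil))))) (.one (nat_lit 71) (nat_lit 60) (nat_lit 100) (nat_lit 0xbc0001780002fd8c9) b22031 (.nil)))))))))))))) (.tok (nat_lit 52) (nat_lit 0xbc0001780002ffe29) (.hit (nat_lit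 176) (nat_lit 0) (nat_lit 0xbc0001780002ff915) b22032 (.tok (nat_lit 6) (nat_lit 0xbc0001780002ffe29) (.hit (nat_lit 177) (nat_lit 7) (nat_lit 0xbc0001780002ffe29) b22035 (.hit (nat_lit 178) (nat_lit 15) (nat_lit 0xbc0001780002fedbd) b22036 (.nil))) (.tok (nat_lit 9) (nat_lit 0xbc0001780002ff2e3) (.hit (nat_lit 179) (nat_lit 20) (nat_lit 0xbc0001780002fd037) b22033 (.hit (nat_lit 180) (nat_lit 28) (nat_lit 0xbc0001780002ff2e3) b22034 (.nil))) (.nil)))) (.tok (nat_lit 55) (nat_lit 0xbc000178000300000) (.hit (nat_lit 187) (nat_lit 0) (nat_lit 0xbc000178000300000) b22045 (.tok (nat_lit 3) (nat_lit 0xbc0001780002fd68e) (.hit (nat_lit 188) (nat_lit 1) (nat_lit 0xbc0001780002fc949) b22046 (.one (nat_lit 67) (nat_lit 189) (nat_lit 2) (nat_lit 0xbc0001780002fd68e) b22047 (.nil))) (.tok (nat_lit 6) (nat_lit 0xbc0001780002fc95c) (.hit (nat_lit 190) (nat_lit 7) (nat_lit 0xbc0001780002fc628)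 b22048 (.hit (nat_lit 193) (nat_lit 15) (nat_lit 0xbc0001780002fc95c) b22049 (.nil))) (.nil)))) (.tok (nat_lit 58) (nat_lit 0xbc0001780002ffb87) (.hit (nat_lit 201) (nat_lit 0) (nat_lit 0xbc0001780002fef88) b22037 (.tok (nat_lit 3) (nat_lit 0xbc0001780002fe2fc) (.hit (nat_lit 202) (nat_lit 1) (nat_lit 0xbc0001780002fca75) b22038 (.one (nat_lit 55) (nat_lit 203) (nat_lit 3) (nat_lit 0xbc0001780002fe2fc) b22039 (.nil))) (.tok (nat_lit 9) (nat_lit 0xbc0001780002ffb87) (.hit (nat_lit 204) (nat_lit 20) (nat_lit 0xbc0001780002fd1d2) b22040 (.hit (nat_lit 207) (nat_lit 28) (nat_lit 0xbc0001780002fc889) b22043 (.tok (nat_lit 67) (nat_lit 0xbc0001780002ffb87) (.hit (nat_lit 205) (nat_lit 21) (nat_lit 0xbc0001780002fde77) b22041 (.hit (nat_lit 208) (nat_lit 29) (nat_lit 0xbc0001780002fe248) b22044 (.one (nat_lit 9) (nat_lit 206) (nat_lit 22) (nat_lit 0xbc0001780002ffb87) b22042 (.nil))))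 (.nil)))) (.nil)))) (.nil))))
noncomputable def r22_39 : Rw Blk := .tok (nat_lit 3) (nat_lit 0xbc000178000301734) (.hit (nat_lit 15) (nat_lit 0) (nat_lit 0xbc0001780002feeb4) b22054 (.tok (nat_lit 9) (nat_lit 0xbc0001780002fe873) (.hit (nat_lit 16) (nat_lit 20) (nat_lit 0xbc0001780002fd29e) b22055 (.hit (nat_lit 21) (nat_lit 28) (nat_lit 0xbc0001780002fb1e5) b22058 (.tok (nat_lit 68) (nat_lit 0xbc0001780002fe873) (.hit (nat_lit 19) (nat_lit 26) (nat_lit 0xbc0001780002fde45) b22056 (.hit (nat_lit 24) (nat_lit 32) (nat_lit 0xbc0001780002fd65e) b22059 (.one (nat_lit 9) (nat_lit 20) (nat_lit 27) (nat_lit 0xbc0001780002fe873) b22057 (.nil)))) (.nil)))) (.tok (nat_lit 64) (nat_lit 0xbc0001780002fe4bf) (.hit (nat_lit 25) (nat_lit 50) (nat_lit 0xbc0001780002fe4bf) b22060 (.hit (nat_lit 26) (nat_lit 51) (nat_lit 0xbc0001780002fe058) b22061 (.nil))) (.tok (nat_lit 67) (nat_lit 0xbc000178000301734)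 (.hit (nat_lit 27) (nat_lit 52) (nat_lit 0xbc000178000301734) b22062 (.one (nat_lit 3) (nat_lit 33) (nat_lit 58) (nat_lit 0xbc0001780002febe4) b22068 (.tok (nat_lit 9) (nat_lit 0xbc0001780002ff25f) (.hit (nat_lit 28) (nat_lit 53) (nat_lit 0xbc0001780002fe234) b22063 (.hit (nat_lit 31) (nat_lit 56) (nat_lit 0xbc0001780002fdfa2) b22066 (.tok (nat_lit 67) (nat_lit 0xbc0001780002ff25f) (.hit (nat_lit 29) (nat_lit 54) (nat_lit 0xbc0001780002ff25f) b22064 (.hit (nat_lit 32) (nat_lit 57) (nat_lit 0xbc0001780002feba8) b22067 (.one (nat_lit 9) (nat_lit 30) (nat_lit 55) (nat_lit 0xbc0001780002fe3c5) b22065 (.nil)))) (.nil)))) (.nil)))) (.one (nat_lit 70) (nat_lit 35) (nat_lit 60) (nat_lit 0xbc0001780002ff035) b22069 (.nil)))))) (.tok (nat_lit 6) (nat_lit 0xbc000178000300af2) (.hit (nat_lit 0) (nat_lit 0) (nat_lit 0xbc000178000300af2) b22050 (.tok (nat_lit 6) (nat_lit 0xbc0001780002feff1)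 (.hit (nat_lit 1) (nat_lit 7) (nat_lit 0xbc0001780002feff1) b22051 (.hit (nat_lit 4) (nat_lit 15) (nat_lit 0xbc0001780002fdaee) b22052 (.one (nat_lit 68) (nat_lit 6) (nat_lit 18) (nat_lit 0xbc0001780002feca4) b22053 (.nil)))) (.nil))) (.nil))
noncomputable def r22_40 : Rw Blk := .tok (nat_lit 3) (nat_lit 0x17ff532ff9ad600000c0000180000300000) (.hit (nat_lit 0) (nat_lit 0) (nat_lit 0x17eb442fd3d45fc500bf95a57f0faafe1da) b36035 (.tok (nat_lit 6) (nat_lit 0x17ef1d2fd8fa5fef64bfb1c97f4912fe90a) (.hit (nat_lit 1) (nat_lit 7) (nat_lit 0x17e4f0afc4a15fcd08bf60657ea64afd4b1) b22071 (.hit (nat_lit 6) (nat_lit 15) (nat_lit 0x17e3b92fc2325fb6ccbf56a97e92d2fd242) b22076 (.tok (nat_lit 14) (nat_lit 0x17ee6eafd79d5fdac8bfac557f3e2afe7ad) (.hit (nat_lit 2) (nat_lit 11) (nat_lit 0x17e83eafcb3d5fccb0bf7ad57edb2afdb4d) b22072 (.hit (nat_lit 7) (nat_lit 17) (nat_lit 0x17e7c02fca405fc924bf76e17ed342fda50)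 b22077 (.one (nat_lit 9) (nat_lit 3) (nat_lit 12) (nat_lit 0x17ee6eafd79d5fdac8bfac557f3e2afe7ad) b22073 (.nil)))) (.tok (nat_lit 56) (nat_lit 0x17ef1d2fd8fa5fef64bfb1c97f4912fe90a) (.hit (nat_lit 4) (nat_lit 13) (nat_lit 0x17eb092fd0d25fe0d6bf91297f07d2fe0e2) b22074 (.hit (nat_lit 9) (nat_lit 19) (nat_lit 0x17e8fb2fccb65fcc60bf80b97ee6f2fdcc6) b22078 (.one (nat_lit 6) (nat_lit 5) (nat_lit 14) (nat_lit 0x17ef1d2fd8fa5fef64bfb1c97f4912fe90a) b22075 (.nil)))) (.nil))))) (.tok (nat_lit 52) (nat_lit 0x17e9b82fce305fd9acbf86a17ef2c2fde40) (.hit (nat_lit 19) (nat_lit 39) (nat_lit 0x17e8232fcb065fc5c0bf79f97ed972fdb16) b22079 (.hit (nat_lit 20) (nat_lit 40) (nat_lit 0x17e9b82fce305fd9acbf86a17ef2c2fde40) b22080 (.nil))) (.tok (nat_lit 55) (nat_lit 0x17ff532ff9ad600000c0000180000300000) (.hit (nat_lit 21) (nat_lit 41) (nat_lit 0x17ff532ff9ad600000bfde517fcb92ff988) b22081 (.tok (nat_lit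 3) (nat_lit 0x17f207afdecf5ffb9abfc91d7f77bafeedf) (.hit (nat_lit 27) (nat_lit 47) (nat_lit 0x17ee342fd7285ffb9abfaa817f3a82fe738) b22087 (.one (nat_lit 67) (nat_lit 28) (nat_lit 48) (nat_lit 0x17f207afdecf5fecdebfc91d7f77bafeedf) b22088 (.nil))) (.tok (nat_lit 6) (nat_lit 0x17fa082ff66b5ff928c0000180000300000) (.hit (nat_lit 22) (nat_lit 42) (nat_lit 0x17f565afe95d5fee26bfdced7faac2ff553) b22082 (.hit (nat_lit 25) (nat_lit 45) (nat_lit 0x17ee60afd7815febaebfabe57f3d4afe791) b22085 (.tok (nat_lit 55) (nat_lit 0x17fa082ff66b5ff928c0000180000300000) (.hit (nat_lit 23) (nat_lit 43) (nat_lit 0x17fa082ff66b5feaa2c0000180000300000) b22083 (.hit (nat_lit 26) (nat_lit 46) (nat_lit 0x17f3a5afe20b5ff928bfd60d7f919aff21b) b22086 (.one (nat_lit 6) (nat_lit 24) (nat_lit 44) (nat_lit 0x17f2da2fe0745fe420bfcfb17f84e2ff084) b22084 (.nil)))) (.nil)))) (.nil)))) (.one (nat_lit 58) (nat_lit 29)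 (nat_lit 49) (nat_lit 0x17edd02fd6605ff01cbfa7617f3442fe670) b22089 (.nil)))))) (.tok (nat_lit 9) (nat_lit 0x1800003000005ffd4abff43d7fff7aff261) (.hit (nat_lit 157) (nat_lit 0) (nat_lit 0x17f5752fecbb5fe88cbfd3dd7f937aff261) b22090 (.tok (nat_lit 9) (nat_lit 0x1800003000005ffd4abff43d7fff7aff05a) (.hit (nat_lit 163) (nat_lit 20) (nat_lit 0x17f011afe8f15fca3abf8d2d7f0d5afdfe3) b22091 (.hit (nat_lit 171) (nat_lit 28) (nat_lit 0x17e9d3afceae5fb404bf1e5d7e223afc42f) b22094 (.tok (nat_lit 14) (nat_lit 0x1800003000005ffd4abff43d7fff7aff05a) (.hit (nat_lit 167) (nat_lit 24) (nat_lit 0x17fe712ffdfc5ffd4abff2f57fff7afec00) b22092 (.hit (nat_lit 173) (nat_lit 30) (nat_lit 0x17f811afeb2a5fee9ebf93657f0a9afdcda) b22095 (.one (nat_lit 6) (nat_lit 168) (nat_lit 25) (nat_lit 0x1800003000005ffca8bff43d7feb0aff05a) b22093 (.nil)))) (.one (nat_lit 56) (nat_lit 174) (nat_lit 31) (nat_lit 0x17f491afe4305fd8a8bf77657ed29afd96c)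 b22096 (.nil))))) (.nil))) (.nil))
noncomputable def r22_41 : Rw Blk := .tok (nat_lit 6) (nat_lit 0xbc0001780002ff08d) (.hit (nat_lit 51) (nat_lit 0) (nat_lit 0xbc0001780002fdc57) b21864 (.tok (nat_lit 14) (nat_lit 0xbc0001780002fe9ba) (.hit (nat_lit 62) (nat_lit 61) (nat_lit 0xbc0001780002fe08c) b21865 (.one (nat_lit 3) (nat_lit 63) (nat_lit 62) (nat_lit 0xbc0001780002fe4dc) b21866 (.tok (nat_lit 6) (nat_lit 0xbc0001780002fe04d) (.hit (nat_lit 66) (nat_lit 65) (nat_lit 0xbc0001780002fc7da) b21869 (.hit (nat_lit 67) (nat_lit 66) (nat_lit 0xbc0001780002fe04d) b21870 (.nil))) (.tok (nat_lit 9) (nat_lit 0xbc0001780002fe9ba) (.hit (nat_lit 64) (nat_lit 63) (nat_lit 0xbc0001780002fe9ba) b21867 (.hit (nat_lit 65) (nat_lit 64) (nat_lit 0xbc0001780002fdc36) b21868 (.nil))) (.nil))))) (.one (nat_lit 17) (nat_lit 68) (nat_lit 67) (nat_lit 0xbc0001780002fdd6e) b21871 (.tok (nat_lit 20) (nat_lit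 0xbc0001780002fe86d) (.hit (nat_lit 69) (nat_lit 68) (nat_lit 0xbc0001780002fe86d) b21872 (.hit (nat_lit 70) (nat_lit 69) (nat_lit 0xbc0001780002fded7) b21873 (.nil))) (.tok (nat_lit 23) (nat_lit 0xbc0001780002fd962) (.hit (nat_lit 71) (nat_lit 70) (nat_lit 0xbc0001780002fb3e1) b21874 (.hit (nat_lit 72) (nat_lit 71) (nat_lit 0xbc0001780002fd962) b21875 (.nil))) (.one (nat_lit 26) (nat_lit 73) (nat_lit 72) (nat_lit 0xbc0001780002fcee3) b21876 (.one (nat_lit 29) (nat_lit 74) (nat_lit 73) (nat_lit 0xbc0001780002fc8b0) b21877 (.one (nat_lit 32) (nat_lit 75) (nat_lit 74) (nat_lit 0xbc0001780002fcab1) b21878 (.one (nat_lit 35) (nat_lit 76) (nat_lit 75) (nat_lit 0xbc0001780002fd399) b21879 (.one (nat_lit 50) (nat_lit 84) (nat_lit 83) (nat_lit 0xbc0001780002fdc9d) b22097 (.tok (nat_lit 53) (nat_lit 0xbc0001780002fe149) (.hit (nat_lit 85) (nat_lit 84) (nat_lit 0xbc0001780002fd6cd) b22098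 (.hit (nat_lit 86) (nat_lit 85) (nat_lit 0xbc0001780002fe149) b22099 (.nil))) (.tok (nat_lit 56) (nat_lit 0xbc0001780002ff08d) (.hit (nat_lit 87) (nat_lit 86) (nat_lit 0xbc0001780002ff08d) b22100 (.one (nat_lit 3) (nat_lit 91) (nat_lit 90) (nat_lit 0xbc0001780002fe914) b22104 (.tok (nat_lit 6) (nat_lit 0xbc0001780002feb6d) (.hit (nat_lit 89) (nat_lit 88) (nat_lit 0xbc0001780002feb6d) b22102 (.hit (nat_lit 90) (nat_lit 89) (nat_lit 0xbc0001780002fe12c) b22103 (.nil))) (.one (nat_lit 9) (nat_lit 88) (nat_lit 87) (nat_lit 0xbc0001780002ff041) b22101 (.nil))))) (.one (nat_lit 59) (nat_lit 92) (nat_lit 91) (nat_lit 0xbc0001780002fd611) b22105 (.nil)))))))))))))) (.tok (nat_lit 52) (nat_lit 0xbc000178000300000) (.hit (nat_lit 225) (nat_lit 0) (nat_lit 0xbc000178000300000) b21889 (.tok (nat_lit 6) (nat_lit 0xbc0001780002ffa71) (.hit (nat_lit 226) (nat_lit 7) (nat_lit 0xbc0001780002ffa71)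 b21890 (.hit (nat_lit 227) (nat_lit 15) (nat_lit 0xbc0001780002fe9b5) b21891 (.nil))) (.tok (nat_lit 9) (nat_lit 0xbc0001780002fecbc) (.hit (nat_lit 228) (nat_lit 20) (nat_lit 0xbc0001780002fd81e) b21892 (.hit (nat_lit 229) (nat_lit 28) (nat_lit 0xbc0001780002fecbc) b21893 (.nil))) (.nil)))) (.tok (nat_lit 55) (nat_lit 0xbc0001780002fed67) (.hit (nat_lit 250) (nat_lit 0) (nat_lit 0xbc0001780002fed67) b21902 (.tok (nat_lit 3) (nat_lit 0xbc0001780002fed17) (.hit (nat_lit 251) (nat_lit 1) (nat_lit 0xbc0001780002fd208) b21903 (.one (nat_lit 67) (nat_lit 252) (nat_lit 2) (nat_lit 0xbc0001780002fed17) b21904 (.nil))) (.tok (nat_lit 6) (nat_lit 0xbc0001780002fe4b4) (.hit (nat_lit 253) (nat_lit 7) (nat_lit 0xbc0001780002fd80b) b21905 (.hit (nat_lit 256) (nat_lit 15) (nat_lit 0xbc0001780002fd0f5) b21906 (.tok (nat_lit 55) (nat_lit 0xbc0001780002fe4b4) (.hit (nat_lit 254) (nat_lit 8) (nat_lit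 0xbc0001780002fdbde) b22106 (.hit (nat_lit 257) (nat_lit 16) (nat_lit 0xbc0001780002fe4b4) b22108 (.one (nat_lit 6) (nat_lit 255) (nat_lit 9) (nat_lit 0xbc0001780002fe22a) b22107 (.nil)))) (.nil)))) (.nil)))) (.tok (nat_lit 58) (nat_lit 0xbc0001780002ff7ff) (.hit (nat_lit 236) (nat_lit 0) (nat_lit 0xbc0001780002ff7ff) b21894 (.tok (nat_lit 3) (nat_lit 0xbc0001780002ff39b) (.hit (nat_lit 237) (nat_lit 1) (nat_lit 0xbc0001780002fd19e) b21895 (.one (nat_lit 55) (nat_lit 238) (nat_lit 3) (nat_lit 0xbc0001780002ff39b) b21896 (.nil))) (.tok (nat_lit 9) (nat_lit 0xbc0001780002fdecf) (.hit (nat_lit 239) (nat_lit 20) (nat_lit 0xbc0001780002fdecf) b21897 (.hit (nat_lit 242) (nat_lit 28) (nat_lit 0xbc0001780002fd78c) b21900 (.nil))) (.nil)))) (.nil))))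
noncomputable def r22_42 : Rw Blk := .tok (nat_lit 3) (nat_lit 0xbc000178000300ab2) (.hit (nat_lit 15) (nat_lit 0) (nat_lit 0xbc0001780002ff19b) b22120 (.tok (nat_lit 9) (nat_lit 0xbc0001780002fdc11) (.hit (nat_lit 16) (nat_lit 20) (nat_lit 0xbc0001780002fd528) b22121 (.hit (nat_lit 21) (nat_lit 28) (nat_lit 0xbc0001780002fbd66) b22122 (.one (nat_lit 56) (nat_lit 23) (nat_lit 31) (nat_lit 0xbc0001780002fdc11) b22123 (.nil)))) (.tok (nat_lit 64) (nat_lit 0xbc0001780002fe8d8) (.hit (nat_lit 25) (nat_lit 50) (nat_lit 0xbc0001780002fdbb2) b22124 (.hit (nat_lit 26) (nat_lit 51) (nat_lit 0xbc0001780002fe8d8) b22125 (.nil))) (.tok (nat_lit 67) (nat_lit 0xbc000178000300ab2) (.hit (nat_lit 27) (nat_lit 52) (nat_lit 0xbc000178000300ab2) b22126 (.one (nat_lit 3) (nat_lit 33) (nat_lit 58) (nat_lit 0xbc0001780002fe8f1) b22129 (.tok (nat_lit 9) (nat_lit 0xbc0001780002fe4c7) (.hit (nat_lit 28)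 (nat_lit 53) (nat_lit 0xbc0001780002fe190) b22127 (.hit (nat_lit 31) (nat_lit 56) (nat_lit 0xbc0001780002fe4c7) b22128 (.nil))) (.nil)))) (.one (nat_lit 70) (nat_lit 35) (nat_lit 60) (nat_lit 0xbc0001780002fe7bd) b22130 (.nil)))))) (.tok (nat_lit 6) (nat_lit 0xbc00017800030262e) (.hit (nat_lit 0) (nat_lit 0) (nat_lit 0xbc000178000300ee1) b22109 (.tok (nat_lit 6) (nat_lit 0xbc0001780002ff680) (.hit (nat_lit 1) (nat_lit 7) (nat_lit 0xbc0001780002fec27) b22110 (.hit (nat_lit 4) (nat_lit 15) (nat_lit 0xbc0001780002fe4a8) b22111 (.one (nat_lit 68) (nat_lit 6) (nat_lit 18) (nat_lit 0xbc0001780002ff680) b22112 (.nil)))) (.tok (nat_lit 52) (nat_lit 0xbc000178000301685) (.hit (nat_lit 7) (nat_lit 39) (nat_lit 0xbc000178000300ca2) b22113 (.hit (nat_lit 8) (nat_lit 40) (nat_lit 0xbc000178000301685) b22114 (.nil))) (.tok (nat_lit 55) (nat_lit 0xbc0001780003020aa) (.hit (nat_lit 9) (nat_lit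 41) (nat_lit 0xbc0001780003020aa) b22115 (.one (nat_lit 3) (nat_lit 12) (nat_lit 47) (nat_lit 0xbc000178000301656) b22118 (.tok (nat_lit 6) (nat_lit 0xbc000178000300505) (.hit (nat_lit 10) (nat_lit 42) (nat_lit 0xbc0001780002ff85b) b22116 (.hit (nat_lit 11) (nat_lit 45) (nat_lit 0xbc000178000300505) b22117 (.nil))) (.nil)))) (.one (nat_lit 58) (nat_lit 14) (nat_lit 49) (nat_lit 0xbc00017800030262e) b22119 (.nil)))))) (.nil))
noncomputable def r22_43 : Rw Blk := .tok (nat_lit 9) (nat_lit 0xbc000178000300d87) (.hit (nat_lit 0) (nat_lit 0) (nat_lit 0xbc0001780002fd5d8) b22131 (.tok (nat_lit 14) (nat_lit 0xbc0001780002fef47) (.hit (nat_lit 21) (nat_lit 61) (nat_lit 0xbc0001780002feb5d) b22132 (.one (nat_lit 3) (nat_lit 22) (nat_lit 62) (nat_lit 0xbc0001780002feafd) b22133 (.tok (nat_lit 6) (nat_lit 0xbc0001780002fef47) (.hit (nat_lit 25) (nat_lit 65) (nat_lit 0xbc0001780002fef47)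 b22134 (.hit (nat_lit 26) (nat_lit 66) (nat_lit 0xbc0001780002fccd8) b22135 (.nil))) (.tok (nat_lit 9) (nat_lit 0xbc0001780002fe254) (.hit (nat_lit 23) (nat_lit 63) (nat_lit 0xbc0001780002fc708) b22136 (.hit (nat_lit 24) (nat_lit 64) (nat_lit 0xbc0001780002fe254) b22137 (.nil))) (.nil))))) (.one (nat_lit 17) (nat_lit 27) (nat_lit 67) (nat_lit 0xbc0001780002fd8c5) b22138 (.tok (nat_lit 20) (nat_lit 0xbc0001780002fd191) (.hit (nat_lit 28) (nat_lit 68) (nat_lit 0xbc0001780002fb64b) b22141 (.hit (nat_lit 29) (nat_lit 69) (nat_lit 0xbc0001780002fd191) b22142 (.nil))) (.tok (nat_lit 23) (nat_lit 0xbc000178000300d87) (.hit (nat_lit 30) (nat_lit 70) (nat_lit 0xbc000178000300d87) b22139 (.hit (nat_lit 31) (nat_lit 71) (nat_lit 0xbc0001780002fd408) b22140 (.nil))) (.one (nat_lit 38) (nat_lit 36) (nat_lit 76) (nat_lit 0xbc0001780002fcf98) b22143 (.tok (nat_lit 41) (nat_lit 0xbc0001780002fd8ab)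 (.hit (nat_lit 37) (nat_lit 77) (nat_lit 0xbc0001780002fd3a7) b22144 (.hit (nat_lit 38) (nat_lit 78) (nat_lit 0xbc0001780002fd8ab) b22145 (.nil))) (.tok (nat_lit 44) (nat_lit 0xbc0001780002fd759) (.hit (nat_lit 39) (nat_lit 79) (nat_lit 0xbc0001780002faee2) b22148 (.hit (nat_lit 40) (nat_lit 80) (nat_lit 0xbc0001780002fd759) b22149 (.nil))) (.tok (nat_lit 47) (nat_lit 0xbc0001780002fe492) (.hit (nat_lit 41) (nat_lit 81) (nat_lit 0xbc0001780002fe492) b22146 (.hit (nat_lit 42) (nat_lit 82) (nat_lit 0xbc0001780002fcf30) b22147 (.nil))) (.one (nat_lit 50) (nat_lit 43) (nat_lit 83) (nat_lit 0xbc0001780002fca41) b22150 (.tok (nat_lit 53) (nat_lit 0xbc0001780002fdae4) (.hit (nat_lit 44) (nat_lit 84) (nat_lit 0xbc0001780002fdae4) b22151 (.hit (nat_lit 45) (nat_lit 85) (nat_lit 0xbc0001780002fceff) b22152 (.nil))) (.tok (nat_lit 56) (nat_lit 0xbc0001780002fd41d) (.hit (nat_lit 46) (nat_lit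 86) (nat_lit 0xbc0001780002fd41d) b22153 (.one (nat_lit 3) (nat_lit 50) (nat_lit 90) (nat_lit 0xbc0001780002fb5ce) b22157 (.tok (nat_lit 6) (nat_lit 0xbc0001780002fc7dd) (.hit (nat_lit 48) (nat_lit 88) (nat_lit 0xbc0001780002fc7dd) b22155 (.hit (nat_lit 49) (nat_lit 89) (nat_lit 0xbc0001780002fbf8b) b22156 (.nil))) (.one (nat_lit 9) (nat_lit 47) (nat_lit 87) (nat_lit 0xbc0001780002fb9f1) b22154 (.nil))))) (.one (nat_lit 59) (nat_lit 51) (nat_lit 91) (nat_lit 0xbc0001780002fd0e3) b22158 (.nil)))))))))))))) (.nil)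
noncomputable def r22_44 : Rw Blk := .tok (nat_lit 9) (nat_lit 0xbc000178000300000) (.hit (nat_lit 0) (nat_lit 0) (nat_lit 0xbc0001780002fe96b) b22159 (.tok (nat_lit 14) (nat_lit 0xbc0001780002ffebb) (.hit (nat_lit 21) (nat_lit 61) (nat_lit 0xbc0001780002fedf1) b22160 (.one (nat_lit 3) (nat_lit 22) (nat_lit 62) (nat_lit 0xbc0001780002feb88) b22161 (.tok (nat_lit 6) (nat_lit 0xbc0001780002ffebb) (.hit (nat_lit 25) (nat_lit 65) (nat_lit 0xbc0001780002ffebb) b22162 (.hit (nat_lit 26) (nat_lit 66) (nat_lit 0xbc0001780002fe71e) b22163 (.nil))) (.tok (nat_lit 9) (nat_lit 0xbc0001780002ffe07) (.hit (nat_lit 23) (nat_lit 63) (nat_lit 0xbc0001780002fe0de) b22164 (.hit (nat_lit 24) (nat_lit 64) (nat_lit 0xbc0001780002ffe07) b22165 (.nil))) (.nil))))) (.one (nat_lit 17) (nat_lit 27) (nat_lit 67) (nat_lit 0xbc0001780002fe5f1) b22166 (.tok (nat_lit 20) (nat_lit 0xbc0001780002fe90f) (.hit (nat_lit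 28) (nat_lit 68) (nat_lit 0xbc0001780002fd95f) b22169 (.hit (nat_lit 29) (nat_lit 69) (nat_lit 0xbc0001780002fe90f) b22170 (.nil))) (.tok (nat_lit 23) (nat_lit 0xbc000178000300000) (.hit (nat_lit 30) (nat_lit 70) (nat_lit 0xbc000178000300000) b22167 (.hit (nat_lit 31) (nat_lit 71) (nat_lit 0xbc0001780002fe64e) b22168 (.nil))) (.one (nat_lit 38) (nat_lit 36) (nat_lit 76) (nat_lit 0xbc0001780002fe5d3) b22171 (.tok (nat_lit 41) (nat_lit 0xbc0001780002fe662) (.hit (nat_lit 37) (nat_lit 77) (nat_lit 0xbc0001780002fe4f3) b22172 (.hit (nat_lit 38) (nat_lit 78) (nat_lit 0xbc0001780002fe662) b22173 (.nil))) (.tok (nat_lit 44) (nat_lit 0xbc0001780002fe5fb) (.hit (nat_lit 39) (nat_lit 79) (nat_lit 0xbc0001780002fb713) b22176 (.hit (nat_lit 40) (nat_lit 80) (nat_lit 0xbc0001780002fe5fb) b22177 (.nil))) (.tok (nat_lit 47) (nat_lit 0xbc0001780002fed61) (.hit (nat_lit 41) (nat_lit 81) (nat_lit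 0xbc0001780002fed61) b22174 (.hit (nat_lit 42) (nat_lit 82) (nat_lit 0xbc0001780002fe3de) b22175 (.nil))) (.one (nat_lit 50) (nat_lit 43) (nat_lit 83) (nat_lit 0xbc0001780002fe487) b22178 (.tok (nat_lit 53) (nat_lit 0xbc0001780002fe501) (.hit (nat_lit 44) (nat_lit 84) (nat_lit 0xbc0001780002fd98c) b22179 (.hit (nat_lit 45) (nat_lit 85) (nat_lit 0xbc0001780002fe501) b22180 (.nil))) (.tok (nat_lit 56) (nat_lit 0xbc0001780002fea47) (.hit (nat_lit 46) (nat_lit 86) (nat_lit 0xbc0001780002fea47) b22181 (.one (nat_lit 3) (nat_lit 50) (nat_lit 90) (nat_lit 0xbc0001780002fd78a) b22185 (.tok (nat_lit 6) (nat_lit 0xbc0001780002fdab8) (.hit (nat_lit 48) (nat_lit 88) (nat_lit 0xbc0001780002fdab8) b22183 (.hit (nat_lit 49) (nat_lit 89) (nat_lit 0xbc0001780002fd866) b22184 (.nil))) (.one (nat_lit 9) (nat_lit 47) (nat_lit 87) (nat_lit 0xbc0001780002fd629) b22182 (.nil))))) (.one (nat_lit 59)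 (nat_lit 51) (nat_lit 91) (nat_lit 0xbc0001780002fe410) b22186 (.nil)))))))))))))) (.nil)
noncomputable def r22_45 : Rw Blk := .tok (nat_lit 6) (nat_lit 0xbfa2a57f8aeafeb6e5fe61ebf3c9d7e82aafe14a5f9d22bf48dd7f6812fe6c9) (.hit (nat_lit 81) (nat_lit 0) (nat_lit 0xbf925d7f3b9afe2695fe61ebf3c9d7e82aafe14a5f9d22bf48dd7f6812fe6c9) b22197 (.tok (nat_lit 3) (nat_lit 0xbfa2a57f8aeafeb6e5fd150bedac17dc052fca125f777ebee16d7f3692fe45c) (.hit (nat_lit 82) (nat_lit 1) (nat_lit 0xbf2ecd7e654afd0165f99c4be914d7d2d6afb7b55f52c4be97f97f024afd81f) b22198 (.one (nat_lit 14) (nat_lit 84) (nat_lit 4) (nat_lit 0xbfa2a57f8aeafeb6e5fd150bebb5d7d818afc2395f67ccbec2097f3692fe45c) b22199 (.one (nat_lit 56) (nat_lit 86) (nat_lit 6) (nat_lit 0xbf8a997f26bafe2195fc54abedac17dc052fca125f777ebee16d7f296afe250) b22200 (.nil)))) (.nil))) (.tok (nat_lit 9) (nat_lit 0xc0000180000300000600000c003fd80000300000600000c0000180000300000)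 (.hit (nat_lit 157) (nat_lit 0) (nat_lit 0xbf925d7f3b9afe2695fe518bf57fd7ef2dafddf35fb876bf677d7f4f92fe4a3) b22187 (.tok (nat_lit 3) (nat_lit 0xbfa2a57f8aeafeb6e5fce46bf88ad7f2b5afe0a25fc82abf8fd97fa142fe8f3) (.hit (nat_lit 158) (nat_lit 1) (nat_lit 0xbf2ecd7e654afd0165f99c4bf23d97e7762fccb45f9bc6bf38bd7f4202fdf92) b22188 (.one (nat_lit 14) (nat_lit 160) (nat_lit 4) (nat_lit 0xbfa2a57f8aeafeb6e5fce46bf88ad7f2b5afe0a25fc82abf8fd97f20dafe4f1) b22189 (.one (nat_lit 68) (nat_lit 161) (nat_lit 5) (nat_lit 0xbf8a997f26bafe2195fc554bf60417ebe12fdd9d5fad52bf600d7fa142fe8f3) b22190 (.nil)))) (.tok (nat_lit 40) (nat_lit 0xbfa4d97f6662febc75fd26ebf717d7ef13afe8e55fbe0abf76957f1e72fe66a) (.hit (nat_lit 176) (nat_lit 33) (nat_lit 0xbfa4d97f6662febc75fd26ebf3c917ecb7afe8e55fa5eabf4fe97f080afe66a) b22191 (.hit (nat_lit 177) (nat_lit 34) (nat_lit 0xbf8c857f354afe0015fc648bf717d7ef13afe1fe5fbe0abf76957f1e72fe0ea)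 b22192 (.nil))) (.tok (nat_lit 43) (nat_lit 0xc000017ff1fb00000600000c003fd80000300000600000c000017fdf0b00000) (.hit (nat_lit 178) (nat_lit 35) (nat_lit 0xbfa3217f249affb285ff44cbf465d7e978afe4f95fad4cbf4d097fdf0aff346) b22195 (.hit (nat_lit 179) (nat_lit 36) (nat_lit 0xc000017ff1fb00000600000c003fd80000300000600000c000017fbd8b00000) b22196 (.nil))) (.tok (nat_lit 46) (nat_lit 0xbf9b79800002fef255fea4abfa6097f4b8aff3ec5fcb72bfb641800002ff71d) (.hit (nat_lit 180) (nat_lit 37) (nat_lit 0xbf9b79800002fef255fea4abfa6097f4b8aff3ec5fcb72bfb6417f9902ff1b0) b22193 (.hit (nat_lit 181) (nat_lit 38) (nat_lit 0xbf653d7f2f02fdcb85fd55abf81217f2832fe4a25fbcb4bf79fd800002ff71d) b22194 (.nil))) (.nil)))))) (.nil))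
noncomputable def r22_46 : Rw Blk := .tok (nat_lit 3) (nat_lit 0xbc000178000300000) (.hit (nat_lit 61) (nat_lit 0) (nat_lit 0xbc0001780002fe70f) b22286 (.tok (nat_lit 14) (nat_lit 0xbc000178000300000) (.hit (nat_lit 82) (nat_lit 61) (nat_lit 0xbc0001780002ff7de) b22287 (.one (nat_lit 3) (nat_lit 83) (nat_lit 62) (nat_lit 0xbc0001780002fe036) b22288 (.tok (nat_lit 6) (nat_lit 0xbc0001780002fe4c1) (.hit (nat_lit 86) (nat_lit 65) (nat_lit 0xbc0001780002fe3e6) b22289 (.hit (nat_lit 87) (nat_lit 66) (nat_lit 0xbc0001780002fe4c1) b22290 (.nil))) (.tok (nat_lit 9) (nat_lit 0xbc000178000300000) (.hit (nat_lit 84) (nat_lit 63) (nat_lit 0xbc000178000300000) b22291 (.hit (nat_lit 85) (nat_lit 64) (nat_lit 0xbc0001780002fe2f3) b22292 (.nil))) (.nil))))) (.one (nat_lit 17) (nat_lit 88) (nat_lit 67) (nat_lit 0xbc0001780002fdbd8) b22293 (.tok (nat_lit 20) (nat_lit 0xbc0001780002fe201) (.hit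 (nat_lit 89) (nat_lit 68) (nat_lit 0xbc0001780002fe201) b22296 (.hit (nat_lit 90) (nat_lit 69) (nat_lit 0xbc0001780002fd9e1) b22297 (.nil))) (.tok (nat_lit 23) (nat_lit 0xbc0001780002fe826) (.hit (nat_lit 91) (nat_lit 70) (nat_lit 0xbc0001780002fe826) b22294 (.hit (nat_lit 92) (nat_lit 71) (nat_lit 0xbc0001780002fda01) b22295 (.nil))) (.one (nat_lit 38) (nat_lit 97) (nat_lit 76) (nat_lit 0xbc0001780002fd8f8) b22298 (.tok (nat_lit 41) (nat_lit 0xbc0001780002fd733) (.hit (nat_lit 98) (nat_lit 77) (nat_lit 0xbc0001780002fc0b7) b22299 (.hit (nat_lit 99) (nat_lit 78) (nat_lit 0xbc0001780002fd733) b22300 (.nil))) (.tok (nat_lit 44) (nat_lit 0xbc0001780002fd160) (.hit (nat_lit 100) (nat_lit 79) (nat_lit 0xbc0001780002fc4cb) b22303 (.hit (nat_lit 101) (nat_lit 80) (nat_lit 0xbc0001780002fd160) b22304 (.nil))) (.tok (nat_lit 47) (nat_lit 0xbc0001780002fd24d) (.hit (nat_lit 102) (nat_lit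 81) (nat_lit 0xbc0001780002fd153) b22301 (.hit (nat_lit 103) (nat_lit 82) (nat_lit 0xbc0001780002fd24d) b22302 (.nil))) (.one (nat_lit 50) (nat_lit 104) (nat_lit 83) (nat_lit 0xbc0001780002fd97a) b22305 (.tok (nat_lit 53) (nat_lit 0xbc0001780002fdcc5) (.hit (nat_lit 105) (nat_lit 84) (nat_lit 0xbc0001780002fdcc5) b22306 (.hit (nat_lit 106) (nat_lit 85) (nat_lit 0xbc0001780002fd5ed) b22307 (.nil))) (.tok (nat_lit 56) (nat_lit 0xbc0001780002ff7db) (.hit (nat_lit 107) (nat_lit 86) (nat_lit 0xbc0001780002ff097) b22308 (.one (nat_lit 3) (nat_lit 111) (nat_lit 90) (nat_lit 0xbc0001780002fe494) b22312 (.tok (nat_lit 6) (nat_lit 0xbc0001780002ff7db) (.hit (nat_lit 109) (nat_lit 88) (nat_lit 0xbc0001780002ff7db) b22310 (.hit (nat_lit 110) (nat_lit 89) (nat_lit 0xbc0001780002fe4c8) b22311 (.nil))) (.one (nat_lit 9) (nat_lit 108) (nat_lit 87) (nat_lit 0xbc0001780002fe79b) b22309 (.nil)))))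 (.one (nat_lit 59) (nat_lit 112) (nat_lit 91) (nat_lit 0xbc0001780002fc52b) b22313 (.nil)))))))))))))) (.nil)
noncomputable def r22_47 : Rw Blk := .tok (nat_lit 3) (nat_lit 0x5e0000bc000180000300000) (.hit (nat_lit 61) (nat_lit 0) (nat_lit 0x5e0000bc00017f3d2afef73) b22314 (.tok (nat_lit 14) (nat_lit 0x5e0000bc0001800002ffe90) (.hit (nat_lit 82) (nat_lit 61) (nat_lit 0x5e0000bc00017fc972ffe90) b22315 (.one (nat_lit 3) (nat_lit 83) (nat_lit 62) (nat_lit 0x5e0000bc00017f5cfaff068) b22316 (.tok (nat_lit 6) (nat_lit 0x5e0000bc00017fc29affb5c) (.hit (nat_lit 86) (nat_lit 65) (nat_lit 0x5e0000bc00017fc29affb5c) b22317 (.hit (nat_lit 87) (nat_lit 66) (nat_lit 0x5e0000bc00017f2bd2fea43) b22318 (.nil))) (.tok (nat_lit 9) (nat_lit 0x5e0000bc0001800002ffb09) (.hit (nat_lit 84) (nat_lit 63) (nat_lit 0x5e0000bc0001800002ffb09) b22319 (.hit (nat_lit 85) (nat_lit 64) (nat_lit 0x5e0000bc00017fa93aff9f0)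 b22320 (.nil))) (.nil))))) (.one (nat_lit 17) (nat_lit 88) (nat_lit 67) (nat_lit 0x5e0000bc00017f245afe954) b22321 (.tok (nat_lit 20) (nat_lit 0x5e0000bc00017ef70afe3aa) (.hit (nat_lit 89) (nat_lit 68) (nat_lit 0x5e0000bc00017ef70afe3aa) b22324 (.hit (nat_lit 90) (nat_lit 69) (nat_lit 0x5e0000bc00017eb4c2fdb61) b22323 (.nil))) (.tok (nat_lit 23) (nat_lit 0x5e0000bc00017eeedafe2a4) (.hit (nat_lit 91) (nat_lit 70) (nat_lit 0x5e0000bc00017eeedafe2a4) b22322 (.hit (nat_lit 92) (nat_lit 71) (nat_lit 0x5e0000bc00017eb4c2fdb61) b22323 (.nil))) (.one (nat_lit 38) (nat_lit 97) (nat_lit 76) (nat_lit 0x5e0000bc00017ebe0afdc8a) b22325 (.tok (nat_lit 41) (nat_lit 0x5e0000bc00017eff7afe4b8) (.hit (nat_lit 98) (nat_lit 77) (nat_lit 0x5e0000bc00017de57afc178) b22326 (.hit (nat_lit 99) (nat_lit 78) (nat_lit 0x5e0000bc00017eff7afe4b8) b22327 (.nil))) (.tok (nat_lit 44) (nat_lit 0x5e0000bc00017e8a32fd60f)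 (.hit (nat_lit 100) (nat_lit 79) (nat_lit 0x5e0000bc00017e3482fcb59) b22330 (.hit (nat_lit 101) (nat_lit 80) (nat_lit 0x5e0000bc00017e8a32fd60f) b22331 (.nil))) (.tok (nat_lit 47) (nat_lit 0x5e0000bc00017ebf0afdcaa) (.hit (nat_lit 102) (nat_lit 81) (nat_lit 0x5e0000bc00017e6092fd0db) b22328 (.hit (nat_lit 103) (nat_lit 82) (nat_lit 0x5e0000bc00017ebf0afdcaa) b22329 (.nil))) (.one (nat_lit 50) (nat_lit 104) (nat_lit 83) (nat_lit 0x5e0000bc00017ea9cafda02) b22332 (.tok (nat_lit 53) (nat_lit 0x5e0000bc00017ef6a2fe39d) (.hit (nat_lit 105) (nat_lit 84) (nat_lit 0x5e0000bc00017ec5fafdd88) b22333 (.hit (nat_lit 106) (nat_lit 85) (nat_lit 0x5e0000bc00017ef6a2fe39d) b22334 (.nil))) (.tok (nat_lit 56) (nat_lit 0x5e0000bc00017fc91300000) (.hit (nat_lit 107) (nat_lit 86) (nat_lit 0x5e0000bc00017fb86b00000) b22335 (.one (nat_lit 3) (nat_lit 111) (nat_lit 90) (nat_lit 0x5e0000bc00017f3dd2fec83)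 b22339 (.tok (nat_lit 6) (nat_lit 0x5e0000bc00017fc912ffecb) (.hit (nat_lit 109) (nat_lit 88) (nat_lit 0x5e0000bc00017fc912ffecb) b22337 (.hit (nat_lit 110) (nat_lit 89) (nat_lit 0x5e0000bc00017ef422fe34d) b22338 (.nil))) (.one (nat_lit 9) (nat_lit 108) (nat_lit 87) (nat_lit 0x5e0000bc00017f3abafec20) b22336 (.nil))))) (.one (nat_lit 59) (nat_lit 112) (nat_lit 91) (nat_lit 0x5e0000bc00017e14cafc762) b22340 (.nil)))))))))))))) (.nil)
noncomputable def r22_48 : Rw Blk := .tok (nat_lit 3) (nat_lit 0x5e0000bc00017eefe2fd44d) (.hit (nat_lit 61) (nat_lit 0) (nat_lit 0x5e0000bc00017e285afcbed) b22201 (.tok (nat_lit 14) (nat_lit 0x5e0000bc00017eefe2fc898) (.hit (nat_lit 82) (nat_lit 61) (nat_lit 0x5e0000bc00017eaed2fc7e9) b22202 (.one (nat_lit 3) (nat_lit 83) (nat_lit 62) (nat_lit 0x5e0000bc00017df192fab99) b22203 (.tok (nat_lit 6) (nat_lit 0x5e0000bc00017eefe2fc898) (.hit (nat_lit 86)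 (nat_lit 65) (nat_lit 0x5e0000bc00017eefe2fc898) b22204 (.hit (nat_lit 87) (nat_lit 66) (nat_lit 0x5e0000bc00017e077afae56) b22205 (.nil))) (.tok (nat_lit 9) (nat_lit 0x5e0000bc00017e15eafb024) (.hit (nat_lit 84) (nat_lit 63) (nat_lit 0x5e0000bc00017e0f12faf49) b22206 (.hit (nat_lit 85) (nat_lit 64) (nat_lit 0x5e0000bc00017e15eafb024) b22207 (.nil))) (.nil))))) (.one (nat_lit 17) (nat_lit 88) (nat_lit 67) (nat_lit 0x5e0000bc00017dcea2fa73b) b22208 (.tok (nat_lit 20) (nat_lit 0x5e0000bc00017e3112fb389) (.hit (nat_lit 89) (nat_lit 68) (nat_lit 0x5e0000bc00017e3112fb389) b22211 (.hit (nat_lit 90) (nat_lit 69) (nat_lit 0x5e0000bc00017dbfeafa564) b22212 (.nil))) (.tok (nat_lit 23) (nat_lit 0x5e0000bc00017dffeafad64) (.hit (nat_lit 91) (nat_lit 70) (nat_lit 0x5e0000bc00017dffeafad64) b22209 (.hit (nat_lit 92) (nat_lit 71) (nat_lit 0x5e0000bc00017dbeeafa544) b22210 (.nil))) (.one (nat_lit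 26) (nat_lit 93) (nat_lit 72) (nat_lit 0x5e0000bc00017d2b12f92c9) b22213 (.one (nat_lit 29) (nat_lit 94) (nat_lit 73) (nat_lit 0x5e0000bc00017d3f6af9554) b22214 (.one (nat_lit 32) (nat_lit 95) (nat_lit 74) (nat_lit 0x5e0000bc00017d6072f9975) b22216 (.one (nat_lit 35) (nat_lit 96) (nat_lit 75) (nat_lit 0x5e0000bc00017d88e2f9e83) b22215 (.one (nat_lit 62) (nat_lit 113) (nat_lit 92) (nat_lit 0x5e0000bc00017dbbb2fa4dd) b22217 (.tok (nat_lit 65) (nat_lit 0x5e0000bc00017dd60afa828) (.hit (nat_lit 114) (nat_lit 93) (nat_lit 0x5e0000bc00017dd60afa828) b22218 (.hit (nat_lit 115) (nat_lit 94) (nat_lit 0x5e0000bc00017d9f4afa150) b22219 (.nil))) (.tok (nat_lit 68) (nat_lit 0x5e0000bc00017eaebafd44d) (.hit (nat_lit 116) (nat_lit 95) (nat_lit 0x5e0000bc00017e749afd44d) b22220 (.one (nat_lit 3) (nat_lit 120) (nat_lit 99) (nat_lit 0x5e0000bc00017e1482faff7) b22224 (.one (nat_lit 6) (nat_lit 117)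 (nat_lit 96) (nat_lit 0x5e0000bc00017e2cbafb2fe) b22221 (.tok (nat_lit 9) (nat_lit 0x5e0000bc00017eaebafd0b3) (.hit (nat_lit 118) (nat_lit 97) (nat_lit 0x5e0000bc00017eaebafd0b3) b22222 (.hit (nat_lit 119) (nat_lit 98) (nat_lit 0x5e0000bc00017e1622fb02b) b22223 (.nil))) (.nil))))) (.one (nat_lit 71) (nat_lit 121) (nat_lit 100) (nat_lit 0x5e0000bc00017d193af908e) b22225 (.nil)))))))))))))) (.tok (nat_lit 40) (nat_lit 0x5e0000bc0001816bdb0336f) (.hit (nat_lit 221) (nat_lit 0) (nat_lit 0x5e0000bc000180628affc18) b22226 (.tok (nat_lit 6) (nat_lit 0x5e0000bc00017fbadafeb28) (.hit (nat_lit 222) (nat_lit 7) (nat_lit 0x5e0000bc00017fbadafeb28) b22229 (.hit (nat_lit 223) (nat_lit 15) (nat_lit 0x5e0000bc00017f3542fe5f7) b22230 (.nil))) (.tok (nat_lit 9) (nat_lit 0x5e0000bc0001816bdb0336f) (.hit (nat_lit 224) (nat_lit 20) (nat_lit 0x5e0000bc0001816bdb0336f) b22227 (.hit (nat_lit 225) (nat_lit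 28) (nat_lit 0x5e0000bc00017f27d2fe10f) b22228 (.nil))) (.nil)))) (.tok (nat_lit 43) (nat_lit 0x5e0000bc00017fd1bafe801) (.hit (nat_lit 232) (nat_lit 0) (nat_lit 0x5e0000bc00017fd1bafe801) b22231 (.tok (nat_lit 3) (nat_lit 0x5e0000bc00017ec8dafcf3d) (.hit (nat_lit 233) (nat_lit 1) (nat_lit 0x5e0000bc00017e0952fb74c) b22232 (.one (nat_lit 67) (nat_lit 234) (nat_lit 2) (nat_lit 0x5e0000bc00017ec8dafcf3d) b22233 (.nil))) (.tok (nat_lit 6) (nat_lit 0x5e0000bc00017e47a2fbf16) (.hit (nat_lit 235) (nat_lit 7) (nat_lit 0x5e0000bc00017e47a2fbf16) b22234 (.hit (nat_lit 238) (nat_lit 15) (nat_lit 0x5e0000bc00017e1e2afb9e7) b22235 (.nil))) (.nil)))) (.tok (nat_lit 46) (nat_lit 0x5e0000bc000181348301e5e) (.hit (nat_lit 246) (nat_lit 0) (nat_lit 0x5e0000bc00017fa3cafee3c) b22236 (.tok (nat_lit 3) (nat_lit 0x5e0000bc000181348301e5e) (.hit (nat_lit 247) (nat_lit 1) (nat_lit 0x5e0000bc00017f3382fd715)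 b22237 (.one (nat_lit 55) (nat_lit 248) (nat_lit 3) (nat_lit 0x5e0000bc000181348301e5e) b22238 (.nil))) (.tok (nat_lit 9) (nat_lit 0x5e0000bc0001807ddb008e8) (.hit (nat_lit 249) (nat_lit 20) (nat_lit 0x5e0000bc00017e8562fc7d5) b22239 (.hit (nat_lit 252) (nat_lit 28) (nat_lit 0x5e0000bc00017f13f2fd750) b22242 (.tok (nat_lit 67) (nat_lit 0x5e0000bc0001807ddb008e8) (.hit (nat_lit 250) (nat_lit 21) (nat_lit 0x5e0000bc00017f2de2fefac) b22240 (.hit (nat_lit 253) (nat_lit 29) (nat_lit 0x5e0000bc0001807ddb008e8) b22243 (.one (nat_lit 9) (nat_lit 251) (nat_lit 22) (nat_lit 0x5e0000bc0001803e9300011) b22241 (.nil)))) (.nil)))) (.nil)))) (.nil))))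
noncomputable def r22_49 : Rw Blk := .tok (nat_lit 3) (nat_lit 0x5e0000bc00017ebf3afcfc2) (.hit (nat_lit 61) (nat_lit 0) (nat_lit 0x5e0000bc00017dfc62fc7ad) b22244 (.tok (nat_lit 14) (nat_lit 0x5e0000bc00017ebf3afc338) (.hit (nat_lit 82) (nat_lit 61) (nat_lit 0x5e0000bc00017e88aafc32b) b22245 (.one (nat_lit 3) (nat_lit 83) (nat_lit 62) (nat_lit 0x5e0000bc00017e1c32fb973) b22246 (.tok (nat_lit 6) (nat_lit 0x5e0000bc00017ebf3afc338) (.hit (nat_lit 86) (nat_lit 65) (nat_lit 0x5e0000bc00017ebf3afc338) b22247 (.hit (nat_lit 87) (nat_lit 66) (nat_lit 0x5e0000bc00017e6872fc2fb) b22248 (.nil))) (.tok (nat_lit 9) (nat_lit 0x5e0000bc00017e81d2fbb44) (.hit (nat_lit 84) (nat_lit 63) (nat_lit 0x5e0000bc00017e81d2fbb44) b22249 (.hit (nat_lit 85) (nat_lit 64) (nat_lit 0x5e0000bc00017deb0afb34e) b22250 (.nil))) (.nil))))) (.one (nat_lit 17) (nat_lit 88) (nat_lit 67) (nat_lit 0x5e0000bc00017de392fb25f)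 b22251 (.tok (nat_lit 20) (nat_lit 0x5e0000bc00017dae12fabaf) (.hit (nat_lit 89) (nat_lit 68) (nat_lit 0x5e0000bc00017dae12fabaf) b22254 (.hit (nat_lit 90) (nat_lit 69) (nat_lit 0x5e0000bc00017d73fafa46c) b22253 (.nil))) (.tok (nat_lit 23) (nat_lit 0x5e0000bc00017db642facb5) (.hit (nat_lit 91) (nat_lit 70) (nat_lit 0x5e0000bc00017db642facb5) b22252 (.hit (nat_lit 92) (nat_lit 71) (nat_lit 0x5e0000bc00017d73fafa46c) b22253 (.nil))) (.one (nat_lit 26) (nat_lit 93) (nat_lit 72) (nat_lit 0x5e0000bc00017d183af98f4) b22255 (.one (nat_lit 29) (nat_lit 94) (nat_lit 73) (nat_lit 0x5e0000bc00017d1e1af99b0) b22256 (.one (nat_lit 32) (nat_lit 95) (nat_lit 74) (nat_lit 0x5e0000bc00017cf7c2f94e5) b22258 (.one (nat_lit 35) (nat_lit 96) (nat_lit 75) (nat_lit 0x5e0000bc00017d4582f9e9d) b22257 (.one (nat_lit 62) (nat_lit 113) (nat_lit 92) (nat_lit 0x5e0000bc00017d6902fa30d) b22259 (.tok (nat_lit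 65) (nat_lit 0x5e0000bc00017db5dafaca8) (.hit (nat_lit 114) (nat_lit 93) (nat_lit 0x5e0000bc00017d8532fa693) b22260 (.hit (nat_lit 115) (nat_lit 94) (nat_lit 0x5e0000bc00017db5dafaca8) b22261 (.nil))) (.tok (nat_lit 68) (nat_lit 0x5e0000bc00017e884afcfc2) (.hit (nat_lit 116) (nat_lit 95) (nat_lit 0x5e0000bc00017e77a2fcfc2) b22262 (.one (nat_lit 3) (nat_lit 120) (nat_lit 99) (nat_lit 0x5e0000bc00017dfd0afb58e) b22266 (.one (nat_lit 6) (nat_lit 117) (nat_lit 96) (nat_lit 0x5e0000bc00017df9f2fb52b) b22263 (.tok (nat_lit 9) (nat_lit 0x5e0000bc00017e884afcc27) (.hit (nat_lit 118) (nat_lit 97) (nat_lit 0x5e0000bc00017e884afcc27) b22264 (.hit (nat_lit 119) (nat_lit 98) (nat_lit 0x5e0000bc00017db35afac58) b22265 (.nil))) (.nil))))) (.one (nat_lit 71) (nat_lit 121) (nat_lit 100) (nat_lit 0x5e0000bc00017cd402f906d) b22267 (.nil)))))))))))))) (.tok (nat_lit 40) (nat_lit 0x5e0000bc00017fd69afe940)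 (.hit (nat_lit 221) (nat_lit 0) (nat_lit 0x5e0000bc00017fd69afe8a6) b22268 (.tok (nat_lit 6) (nat_lit 0x5e0000bc00017f90dafe940) (.hit (nat_lit 222) (nat_lit 7) (nat_lit 0x5e0000bc00017f90dafe940) b22271 (.hit (nat_lit 223) (nat_lit 15) (nat_lit 0x5e0000bc00017f1362fd817) b22272 (.nil))) (.tok (nat_lit 9) (nat_lit 0x5e0000bc00017f9b62fe839) (.hit (nat_lit 224) (nat_lit 20) (nat_lit 0x5e0000bc00017f9b62fe839) b22269 (.hit (nat_lit 225) (nat_lit 28) (nat_lit 0x5e0000bc00017f2ccafdcea) b22270 (.nil))) (.nil)))) (.tok (nat_lit 43) (nat_lit 0x5e0000bc00017fc902fef2a) (.hit (nat_lit 232) (nat_lit 0) (nat_lit 0x5e0000bc00017f9b0afef2a) b22273 (.tok (nat_lit 3) (nat_lit 0x5e0000bc00017f8f02fe469) (.hit (nat_lit 233) (nat_lit 1) (nat_lit 0x5e0000bc00017eced2fd133) b22274 (.one (nat_lit 67) (nat_lit 234) (nat_lit 2) (nat_lit 0x5e0000bc00017f8f02fe469) b22275 (.nil))) (.tok (nat_lit 6) (nat_lit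 0x5e0000bc00017fc902feda4) (.hit (nat_lit 235) (nat_lit 7) (nat_lit 0x5e0000bc00017fc902feda4) b22276 (.hit (nat_lit 238) (nat_lit 15) (nat_lit 0x5e0000bc00017f6adafe04b) b22277 (.nil))) (.nil)))) (.tok (nat_lit 46) (nat_lit 0x5e0000bc0001805533004ef) (.hit (nat_lit 246) (nat_lit 0) (nat_lit 0x5e0000bc00017f3aa2fe74f) b22278 (.tok (nat_lit 3) (nat_lit 0x5e0000bc0001805533004ef) (.hit (nat_lit 247) (nat_lit 1) (nat_lit 0x5e0000bc00017ed952fd16c) b22279 (.one (nat_lit 55) (nat_lit 248) (nat_lit 3) (nat_lit 0x5e0000bc0001805533004ef) b22280 (.nil))) (.tok (nat_lit 9) (nat_lit 0x5e0000bc000180029aff163) (.hit (nat_lit 249) (nat_lit 20) (nat_lit 0x5e0000bc00017ebf62fd0d6) b22281 (.hit (nat_lit 252) (nat_lit 28) (nat_lit 0x5e0000bc00017eb912fcdcf) b22284 (.tok (nat_lit 67) (nat_lit 0x5e0000bc000180029aff163) (.hit (nat_lit 250) (nat_lit 21) (nat_lit 0x5e0000bc00017f7e52ff163) b22282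 (.hit (nat_lit 253) (nat_lit 29) (nat_lit 0x5e0000bc00017fc71aff03d) b22285 (.one (nat_lit 9) (nat_lit 251) (nat_lit 22) (nat_lit 0x5e0000bc000180029afed8c) b22283 (.nil)))) (.nil)))) (.nil)))) (.nil))))
noncomputable def r23_0 : Rw Blk := .tok (nat_lit 6) (nat_lit 0x600000bfa8997ef8caff2025fd42cbff4ed7ed852fd7b2) (.hit (nat_lit 81) (nat_lit 0) (nat_lit 0x5fbb58bf63417e5c92fe5be5fbf76bfb79d7e788afcdec) b22341 (.tok (nat_lit 14) (nat_lit 0x600000bfa3ad7ef8cafe5d45fca22bfc8857dd60afbdce) (.hit (nat_lit 117) (nat_lit 61) (nat_lit 0x5fe554bf9eed7ef8cafe5d45fc64ebfc8857dd60afbdce) b22342 (.one (nat_lit 3) (nat_lit 118) (nat_lit 62) (nat_lit 0x5fca08bf67457ed112fd23b5fa89cbf77017cfacaf9fb6) b22343 (.tok (nat_lit 6) (nat_lit 0x5fcfc6bf62a17eaafafce295fab02bf6cd97d7502faefd) (.hit (nat_lit 121) (nat_lit 65) (nat_lit 0x5f9ef2bf01ed7e694afce295f9df2bf6cd97d7502faefd) b22344 (.hit (nat_lit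 122) (nat_lit 66) (nat_lit 0x5fcfc6bf62a17eaafafcd7e5fab02bf6b517d069afa130) b22345 (.nil))) (.tok (nat_lit 9) (nat_lit 0x600000bfa3ad7ef172fe3455fca22bfc5dd7d8342fb0c5) (.hit (nat_lit 119) (nat_lit 63) (nat_lit 0x600000bfa3ad7ebf72fe3455fca22bfc5dd7d8342fb0c5) b22346 (.hit (nat_lit 120) (nat_lit 64) (nat_lit 0x5fc45cbf46857ef172fd2b05fa878bf75e57d1baafa3d2) b22347 (.nil))) (.nil))))) (.one (nat_lit 17) (nat_lit 123) (nat_lit 67) (nat_lit 0x5faf3cbf46917e66bafcc2a5f8ffebf52017cc232f98a3) b22348 (.tok (nat_lit 20) (nat_lit 0x5fd388bf933d7eb722fe1df5fc228bfb7297d3902fa77d) (.hit (nat_lit 124) (nat_lit 68) (nat_lit 0x5fd388bf933d7eb722fe1df5fc228bfb7297d3902fa77d) b22351 (.hit (nat_lit 125) (nat_lit 69) (nat_lit 0x5fad90bf0b5d7e9a7afc8895f8e14bf4d517ca29af94b0) b22352 (.nil))) (.tok (nat_lit 23) (nat_lit 0x5fabeabf10ed7e4822fcb545f9848bf61857d5e5afac28) (.hit (nat_lit 126) (nat_lit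 70) (nat_lit 0x5f9948bef6997e4822fcb545f9848bf61857d5e5afac28) b22349 (.hit (nat_lit 127) (nat_lit 71) (nat_lit 0x5fabeabf10ed7dedc2fcb305f8caabf4d297ca202f949d) b22350 (.nil))) (.one (nat_lit 26) (nat_lit 128) (nat_lit 72) (nat_lit 0x5f9b40bee6c17dcc02fc2a15f7c02bf2b1d7c3a4af87a6) b22353 (.one (nat_lit 29) (nat_lit 129) (nat_lit 73) (nat_lit 0x5f9e9abf0b6d7e1242fc07e5f7f46bf2af97c3172f868b) b22354 (.one (nat_lit 32) (nat_lit 130) (nat_lit 74) (nat_lit 0x5f84babecdb97e40fafb1925f653cbef4a17c5b62f8bc9) b22356 (.one (nat_lit 35) (nat_lit 131) (nat_lit 75) (nat_lit 0x5fac5cbf25c57e35f2fcb655f8d1abf4e017c280af855e) b22355 (.one (nat_lit 50) (nat_lit 139) (nat_lit 83) (nat_lit 0x5fb796bf2f517e609afd0ec5f9852bf63fd7c994af9386) b22357 (.tok (nat_lit 53) (nat_lit 0x5fb986bf89257ec82afcd8d5f9e78bf66457d302afa662) (.hit (nat_lit 140) (nat_lit 84) (nat_lit 0x5fb986bf89257ec82afc58e5f9e78bf4a6d7d302afa662)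 b22358 (.hit (nat_lit 141) (nat_lit 85) (nat_lit 0x5fb104bf316d7e65f2fcd8d5f91c4bf66457c9c62f93e9) b22359 (.nil))) (.tok (nat_lit 56) (nat_lit 0x5fe734bfa8997ee3baff2025fd42cbff4ed7ed852fd7b2) (.hit (nat_lit 142) (nat_lit 86) (nat_lit 0x5fe706bfa8997ec17afee8d5fd42cbfe9f17ed852fd7b2) b22360 (.one (nat_lit 3) (nat_lit 146) (nat_lit 90) (nat_lit 0x5fcfbebf632d7e854afdfc45fb6fcbfb2497d429afa8b0) b22364 (.tok (nat_lit 6) (nat_lit 0x5fe734bf73417ee3bafe09b5fc0e2bfaaa97d770afaf3e) (.hit (nat_lit 144) (nat_lit 88) (nat_lit 0x5fe734bf73417ee3bafe09b5fc0e2bfaaa97d770afaf3e) b22362 (.hit (nat_lit 145) (nat_lit 89) (nat_lit 0x5fb33ebf6ed17ebc1afd3c65fa196bf63e17d065afa128) b22363 (.nil))) (.one (nat_lit 9) (nat_lit 143) (nat_lit 87) (nat_lit 0x5fe188bfa3197ebd12ff2025fd426bff4ed7db0d2fb677) b22361 (.nil))))) (.one (nat_lit 59) (nat_lit 147) (nat_lit 91) (nat_lit 0x5fa976bf06b57e2fa2fc9395f8a38bf463d7c020af809e)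 b22365 (.nil)))))))))))))) (.tok (nat_lit 52) (nat_lit 0x5ff46cc00001800a0b00000600000bfffd580000300000) (.hit (nat_lit 332) (nat_lit 0) (nat_lit 0x5ff46cbfd96d7fea92ffaea5ff578bfffd57fb042ff738) b22366 (.tok (nat_lit 6) (nat_lit 0x5ff232c000017f828300000600000bff42d80000300000) (.hit (nat_lit 333) (nat_lit 7) (nat_lit 0x5ff232c000017f828300000600000bff42d80000300000) b22369 (.hit (nat_lit 334) (nat_lit 15) (nat_lit 0x5fdaf2bfc4d57f1cd2ff41d5fe84ebfd0517f44aafe10f) b22370 (.nil))) (.tok (nat_lit 9) (nat_lit 0x5fe5e0bff499800a0aff25b5fed14bfcf397f804afe8d3) (.hit (nat_lit 335) (nat_lit 20) (nat_lit 0x5fd5d2bf6ab5800a0afe35c5fc0a8bfc5dd7e4d6afcbd8) b22367 (.hit (nat_lit 336) (nat_lit 28) (nat_lit 0x5fe5e0bff4997fc242ff25b5fed14bfcf397f804afe8d3) b22368 (.nil))) (.nil)))) (.tok (nat_lit 55) (nat_lit 0x5ff2e4bfa4d97fe2eaff1e55fddbac000017ef252fdd9d) (.hit (nat_lit 343) (nat_lit 0)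 (nat_lit 0x5ff2a6bf958d7f5eaafe7885fcf10bfc5017ef252fdd9d) b22371 (.tok (nat_lit 3) (nat_lit 0x5fda0ebf732d7f9572fe57a5fc4e4bfce557e5e5afcdf6) (.hit (nat_lit 344) (nat_lit 1) (nat_lit 0x5fa5c8bf0aa17ecb5afcb575f909ebf65c97d8d42fb3d3) b22372 (.one (nat_lit 67) (nat_lit 345) (nat_lit 2) (nat_lit 0x5fda0ebf732d7f9572fe57a5fc4e4bfce557e5e5afcdf6) b22373 (.nil))) (.tok (nat_lit 6) (nat_lit 0x5ff2e4bfa4d97fe2eaff1e55fddbac000017ec1b2fda61) (.hit (nat_lit 346) (nat_lit 7) (nat_lit 0x5fb834bf2f797ee5b2fd48d5fa30abf8aa17dd6f2fbd09) b22374 (.hit (nat_lit 349) (nat_lit 15) (nat_lit 0x5f994cbef1a97ebb1afc5195f8422bf4cd17d5b52fad95) b22377 (.tok (nat_lit 55) (nat_lit 0x5ff2e4bfa4d97fe2eaff1e55fddbac000017ec1b2fda61) (.hit (nat_lit 347) (nat_lit 8) (nat_lit 0x5fe39ebf864d7fc7fafea425fce74bfe1757e849afd2be) b22375 (.hit (nat_lit 350) (nat_lit 16) (nat_lit 0x5fcd7cbf5a097f78a2fdf315fb852bfb5317e2c12fc7ad)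 b22378 (.one (nat_lit 6) (nat_lit 348) (nat_lit 9) (nat_lit 0x5ff2e4bfa4d97fe2eaff1e55fddbac000017ec1b2fda61) b22376 (.nil)))) (.nil)))) (.nil)))) (.tok (nat_lit 58) (nat_lit 0x5fdba0bf76517f2e32fe6435fc676bfd1797e932afd2e7) (.hit (nat_lit 357) (nat_lit 0) (nat_lit 0x5fd738bf5acd7f2adafdaf35fb5e6bf8e397e932afd2e7) b22379 (.tok (nat_lit 3) (nat_lit 0x5fdba0bf76517f2e32fe6435fc676bfd1797e64a2fcebf) (.hit (nat_lit 358) (nat_lit 1) (nat_lit 0x5fada0bf1a517ef71afcf435f9876bf75797daca2fb7bf) b22380 (.one (nat_lit 55) (nat_lit 359) (nat_lit 3) (nat_lit 0x5fdba0bf76517f2e32fe6435fc676bfd1797e64a2fcebf) b22381 (.nil))) (.tok (nat_lit 9) (nat_lit 0x5fb1aabf22657eeddafd1485f9c80bf7d8d7dbccafb9c4) (.hit (nat_lit 360) (nat_lit 20) (nat_lit 0x5fb1aabf22657ed8dafd1485f9c80bf7d8d7dbccafb9c4) b22382 (.hit (nat_lit 363) (nat_lit 28) (nat_lit 0x5fac8abf18257eeddafceb85f9760bf734d7da84afb734) b22383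 (.nil))) (.nil)))) (.nil))))
noncomputable def r23_1 : Rw Blk := .tok (nat_lit 14) (nat_lit 0xbc0001780002fe096) (.hit (nat_lit 134) (nat_lit 0) (nat_lit 0xbc0001780002fe096) b22401 (.one (nat_lit 3) (nat_lit 135) (nat_lit 1) (nat_lit 0xbc0001780002fb68b) b22402 (.tok (nat_lit 6) (nat_lit 0xbc0001780002fda8e) (.hit (nat_lit 136) (nat_lit 7) (nat_lit 0xbc0001780002fd50b) b22403 (.hit (nat_lit 137) (nat_lit 15) (nat_lit 0xbc0001780002fda8e) b22405 (.nil))) (.tok (nat_lit 9) (nat_lit 0xbc0001780002fd6aa) (.hit (nat_lit 138) (nat_lit 20) (nat_lit 0xbc0001780002fd50b) b22403 (.hit (nat_lit 139) (nat_lit 28) (nat_lit 0xbc0001780002fd6aa) b22404 (.nil))) (.nil))))) (.tok (nat_lit 17) (nat_lit 0xbc0001780002fe0e9) (.hit (nat_lit 140) (nat_lit 0) (nat_lit 0xbc0001780002fe0e9) b22395 (.one (nat_lit 3) (nat_lit 141) (nat_lit 1) (nat_lit 0xbc0001780002fb17e) b22396 (.tok (nat_lit 6) (nat_lit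 0xbc0001780002fd79f) (.hit (nat_lit 142) (nat_lit 7) (nat_lit 0xbc0001780002fcf9e) b22399 (.hit (nat_lit 143) (nat_lit 15) (nat_lit 0xbc0001780002fd79f) b22400 (.nil))) (.tok (nat_lit 9) (nat_lit 0xbc0001780002fd49f) (.hit (nat_lit 144) (nat_lit 20) (nat_lit 0xbc0001780002fcca8) b22397 (.hit (nat_lit 145) (nat_lit 28) (nat_lit 0xbc0001780002fd49f) b22398 (.nil))) (.nil))))) (.tok (nat_lit 20) (nat_lit 0xbc0001780002ffc97) (.hit (nat_lit 128) (nat_lit 0) (nat_lit 0xbc0001780002ffc97) b22390 (.one (nat_lit 3) (nat_lit 129) (nat_lit 1) (nat_lit 0xbc0001780002fef0f) b22391 (.tok (nat_lit 6) (nat_lit 0xbc0001780002feccf) (.hit (nat_lit 130) (nat_lit 7) (nat_lit 0xbc0001780002fd177) b22388 (.hit (nat_lit 131) (nat_lit 15) (nat_lit 0xbc0001780002feccf) b22394 (.nil))) (.tok (nat_lit 9) (nat_lit 0xbc0001780002ff069) (.hit (nat_lit 132) (nat_lit 20) (nat_lit 0xbc0001780002ff069) b22392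 (.hit (nat_lit 133) (nat_lit 28) (nat_lit 0xbc0001780002feaba) b22393 (.nil))) (.nil))))) (.tok (nat_lit 23) (nat_lit 0xbc0001780002fe15b) (.hit (nat_lit 122) (nat_lit 0) (nat_lit 0xbc0001780002fe15b) b22384 (.one (nat_lit 3) (nat_lit 123) (nat_lit 1) (nat_lit 0xbc0001780002fba04) b22385 (.tok (nat_lit 6) (nat_lit 0xbc0001780002fd9a1) (.hit (nat_lit 124) (nat_lit 7) (nat_lit 0xbc0001780002fd177) b22388 (.hit (nat_lit 125) (nat_lit 15) (nat_lit 0xbc0001780002fd9a1) b22389 (.nil))) (.tok (nat_lit 9) (nat_lit 0xbc0001780002fd789) (.hit (nat_lit 126) (nat_lit 20) (nat_lit 0xbc0001780002fd0aa) b22386 (.hit (nat_lit 127) (nat_lit 28) (nat_lit 0xbc0001780002fd789) b22387 (.nil))) (.nil))))) (.tok (nat_lit 26) (nat_lit 0xbc0001780002ffd8a) (.hit (nat_lit 215) (nat_lit 0) (nat_lit 0xbc0001780002ffd8a) b22428 (.one (nat_lit 3) (nat_lit 216) (nat_lit 1) (nat_lit 0xbc0001780002fb310) b22429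 (.tok (nat_lit 6) (nat_lit 0xbc0001780002fe0b2) (.hit (nat_lit 217) (nat_lit 7) (nat_lit 0xbc0001780002fe0b2) b22432 (.hit (nat_lit 218) (nat_lit 15) (nat_lit 0xbc0001780002fb16a) b22433 (.nil))) (.tok (nat_lit 9) (nat_lit 0xbc0001780002fc4eb) (.hit (nat_lit 219) (nat_lit 20) (nat_lit 0xbc0001780002fc474) b22430 (.hit (nat_lit 220) (nat_lit 28) (nat_lit 0xbc0001780002fc4eb) b22431 (.nil))) (.nil))))) (.tok (nat_lit 29) (nat_lit 0xbc0001780002fe2ed) (.hit (nat_lit 221) (nat_lit 0) (nat_lit 0xbc0001780002fe2ed) b22434 (.one (nat_lit 3) (nat_lit 222) (nat_lit 1) (nat_lit 0xbc0001780002fb572) b22435 (.tok (nat_lit 6) (nat_lit 0xbc0001780002fd1b6) (.hit (nat_lit 223) (nat_lit 7) (nat_lit 0xbc0001780002fc21b) b22438 (.hit (nat_lit 224) (nat_lit 15) (nat_lit 0xbc0001780002fd1b6) b22439 (.nil))) (.tok (nat_lit 9) (nat_lit 0xbc0001780002fd7ff) (.hit (nat_lit 225) (nat_lit 20) (nat_lit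 0xbc0001780002fd550) b22436 (.hit (nat_lit 226) (nat_lit 28) (nat_lit 0xbc0001780002fd7ff) b22437 (.nil))) (.nil))))) (.tok (nat_lit 32) (nat_lit 0xbc0001780002ff01e) (.hit (nat_lit 233) (nat_lit 0) (nat_lit 0xbc0001780002ff01e) b22446 (.one (nat_lit 3) (nat_lit 234) (nat_lit 1) (nat_lit 0xbc0001780002fba04) b22385 (.tok (nat_lit 6) (nat_lit 0xbc0001780002fd137) (.hit (nat_lit 235) (nat_lit 7) (nat_lit 0xbc0001780002fcec2) b22449 (.hit (nat_lit 236) (nat_lit 15) (nat_lit 0xbc0001780002fd137) b22450 (.nil))) (.tok (nat_lit 9) (nat_lit 0xbc0001780002fc1fd) (.hit (nat_lit 237) (nat_lit 20) (nat_lit 0xbc0001780002fc1fd) b22447 (.hit (nat_lit 238) (nat_lit 28) (nat_lit 0xbc0001780002fafdc) b22448 (.nil))) (.nil))))) (.tok (nat_lit 35) (nat_lit 0xbc000178000300000) (.hit (nat_lit 227) (nat_lit 0) (nat_lit 0xbc000178000300000) b22440 (.one (nat_lit 3) (nat_lit 228) (nat_lit 1) (nat_lit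 0xbc0001780002fc31b) b22441 (.tok (nat_lit 6) (nat_lit 0xbc0001780002fd8a9) (.hit (nat_lit 229) (nat_lit 7) (nat_lit 0xbc0001780002fd52e) b22444 (.hit (nat_lit 230) (nat_lit 15) (nat_lit 0xbc0001780002fd8a9) b22445 (.nil))) (.tok (nat_lit 9) (nat_lit 0xbc0001780002fdaa6) (.hit (nat_lit 231) (nat_lit 20) (nat_lit 0xbc0001780002fdaa6) b22442 (.hit (nat_lit 232) (nat_lit 28) (nat_lit 0xbc0001780002fd6cd) b22443 (.nil))) (.nil))))) (.tok (nat_lit 50) (nat_lit 0xbc0001780002fe10e) (.hit (nat_lit 170) (nat_lit 0) (nat_lit 0xbc0001780002fe10e) b22406 (.one (nat_lit 3) (nat_lit 171) (nat_lit 1) (nat_lit 0xbc0001780002fba47) b22407 (.tok (nat_lit 6) (nat_lit 0xbc0001780002fd571) (.hit (nat_lit 172) (nat_lit 7) (nat_lit 0xbc0001780002fd571) b22410 (.hit (nat_lit 173) (nat_lit 15) (nat_lit 0xbc0001780002fc293) b22411 (.nil))) (.tok (nat_lit 9) (nat_lit 0xbc0001780002fc240) (.hit (nat_lit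 174) (nat_lit 20) (nat_lit 0xbc0001780002fc240) b22408 (.hit (nat_lit 175) (nat_lit 28) (nat_lit 0xbc0001780002fbf34) b22409 (.nil))) (.nil))))) (.tok (nat_lit 53) (nat_lit 0xbc0001780002ff23d) (.hit (nat_lit 181) (nat_lit 0) (nat_lit 0xbc0001780002ff1cd) b22412 (.one (nat_lit 3) (nat_lit 182) (nat_lit 1) (nat_lit 0xbc0001780002feb0d) b22413 (.tok (nat_lit 6) (nat_lit 0xbc0001780002ff23d) (.hit (nat_lit 183) (nat_lit 7) (nat_lit 0xbc0001780002ff23d) b22416 (.hit (nat_lit 184) (nat_lit 15) (nat_lit 0xbc0001780002fe965) b22417 (.nil))) (.tok (nat_lit 9) (nat_lit 0xbc0001780002febd2) (.hit (nat_lit 185) (nat_lit 20) (nat_lit 0xbc0001780002fc8eb) b22414 (.hit (nat_lit 186) (nat_lit 28) (nat_lit 0xbc0001780002febd2) b22415 (.nil))) (.nil))))) (.tok (nat_lit 56) (nat_lit 0xbc0001780002fe172) (.hit (nat_lit 195) (nat_lit 0) (nat_lit 0xbc0001780002fe172) b22424 (.one (nat_lit 3) (nat_lit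 196) (nat_lit 1) (nat_lit 0xbc0001780002fba04) b22385 (.tok (nat_lit 6) (nat_lit 0xbc0001780002fd50b) (.hit (nat_lit 197) (nat_lit 7) (nat_lit 0xbc0001780002fd50b) b22403 (.hit (nat_lit 198) (nat_lit 15) (nat_lit 0xbc0001780002fbb72) b22427 (.nil))) (.tok (nat_lit 9) (nat_lit 0xbc0001780002fd956) (.hit (nat_lit 199) (nat_lit 20) (nat_lit 0xbc0001780002fcb5a) b22425 (.hit (nat_lit 200) (nat_lit 28) (nat_lit 0xbc0001780002fd956) b22426 (.nil))) (.nil))))) (.tok (nat_lit 59) (nat_lit 0xbc0001780002fe7d9) (.hit (nat_lit 209) (nat_lit 0) (nat_lit 0xbc0001780002fe7d9) b22418 (.one (nat_lit 3) (nat_lit 210) (nat_lit 1) (nat_lit 0xbc0001780002fcbb1) b22419 (.tok (nat_lit 6) (nat_lit 0xbc0001780002fd8ad) (.hit (nat_lit 211) (nat_lit 7) (nat_lit 0xbc0001780002fd8ad) b22422 (.hit (nat_lit 212) (nat_lit 15) (nat_lit 0xbc0001780002fd872) b22423 (.nil))) (.tok (nat_lit 9) (nat_lit 0xbc0001780002fdeb8)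 (.hit (nat_lit 213) (nat_lit 20) (nat_lit 0xbc0001780002fd522) b22420 (.hit (nat_lit 214) (nat_lit 28) (nat_lit 0xbc0001780002fdeb8) b22421 (.nil))) (.nil))))) (.nil))))))))))))
noncomputable def r23_2 : Rw Blk := .tok (nat_lit 3) (nat_lit 0xbc0001780002feaff) (.hit (nat_lit 18) (nat_lit 0) (nat_lit 0xbc0001780002feacc) b22463 (.tok (nat_lit 6) (nat_lit 0xbc0001780002fe140) (.hit (nat_lit 19) (nat_lit 7) (nat_lit 0xbc0001780002fc6d7) b22466 (.hit (nat_lit 20) (nat_lit 15) (nat_lit 0xbc0001780002fe140) b22467 (.nil))) (.tok (nat_lit 9) (nat_lit 0xbc0001780002feaff) (.hit (nat_lit 21) (nat_lit 20) (nat_lit 0xbc0001780002feaff) b22464 (.hit (nat_lit 22) (nat_lit 28) (nat_lit 0xbc0001780002fdadb) b22465 (.nil))) (.nil)))) (.tok (nat_lit 6) (nat_lit 0xbc0001780002ff403) (.hit (nat_lit 0) (nat_lit 0) (nat_lit 0xbc0001780002fe53e) b22451 (.one (nat_lit 3) (nat_lit 1) (nat_lit 1) (nat_lit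 0xbc0001780002fcac2) b22452 (.tok (nat_lit 6) (nat_lit 0xbc0001780002ff403) (.hit (nat_lit 3) (nat_lit 7) (nat_lit 0xbc0001780002fca9b) b22453 (.hit (nat_lit 7) (nat_lit 15) (nat_lit 0xbc0001780002fcbee) b22457 (.tok (nat_lit 55) (nat_lit 0xbc0001780002ff403) (.hit (nat_lit 4) (nat_lit 8) (nat_lit 0xbc0001780002fe5a7) b22454 (.hit (nat_lit 8) (nat_lit 16) (nat_lit 0xbc0001780002ff3b2) b22458 (.tok (nat_lit 6) (nat_lit 0xbc0001780002ff403) (.hit (nat_lit 5) (nat_lit 9) (nat_lit 0xbc0001780002fea38) b22455 (.one (nat_lit 55) (nat_lit 6) (nat_lit 10) (nat_lit 0xbc0001780002ff403) b22456 (.nil))) (.nil)))) (.nil)))) (.nil)))) (.tok (nat_lit 9) (nat_lit 0xbc000178000300937) (.hit (nat_lit 9) (nat_lit 0) (nat_lit 0xbc0001780002fe96c) b22459 (.one (nat_lit 3) (nat_lit 10) (nat_lit 1) (nat_lit 0xbc0001780002fe590) b22460 (.tok (nat_lit 9) (nat_lit 0xbc000178000300937) (.hit (nat_lit 12)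 (nat_lit 20) (nat_lit 0xbc000178000300937) b22461 (.hit (nat_lit 16) (nat_lit 28) (nat_lit 0xbc0001780002ff346) b22462 (.nil))) (.nil)))) (.nil)))
noncomputable def r23_3 : Rw Blk := .tok (nat_lit 3) (nat_lit 0xbc0001780002fe9f6) (.hit (nat_lit 0) (nat_lit 0) (nat_lit 0xbc0001780002fe9f6) b22468 (.tok (nat_lit 6) (nat_lit 0xbc0001780002fe5c7) (.hit (nat_lit 1) (nat_lit 7) (nat_lit 0xbc0001780002fcde4) b22469 (.hit (nat_lit 4) (nat_lit 15) (nat_lit 0xbc0001780002fcbb1) b22472 (.tok (nat_lit 56) (nat_lit 0xbc0001780002fe5c7) (.hit (nat_lit 2) (nat_lit 13) (nat_lit 0xbc0001780002fe04c) b22470 (.hit (nat_lit 6) (nat_lit 19) (nat_lit 0xbc0001780002fdd10) b22473 (.one (nat_lit 6) (nat_lit 3) (nat_lit 14) (nat_lit 0xbc0001780002fe5c7) b22471 (.nil)))) (.nil)))) (.nil))) (.tok (nat_lit 9) (nat_lit 0xbc00017800030121b) (.hit (nat_lit 17) (nat_lit 0) (nat_lit 0xbc000178000300ac2) b22474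 (.tok (nat_lit 9) (nat_lit 0xbc00017800030121b) (.hit (nat_lit 18) (nat_lit 20) (nat_lit 0xbc0001780003003b8) b22475 (.hit (nat_lit 21) (nat_lit 28) (nat_lit 0xbc0001780002fe0b5) b22478 (.tok (nat_lit 68) (nat_lit 0xbc00017800030121b) (.hit (nat_lit 19) (nat_lit 26) (nat_lit 0xbc0001780002ff9a1) b22476 (.hit (nat_lit 23) (nat_lit 32) (nat_lit 0xbc0001780002feaf1) b22479 (.one (nat_lit 9) (nat_lit 20) (nat_lit 27) (nat_lit 0xbc00017800030121b) b22477 (.nil)))) (.nil)))) (.nil))) (.nil))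
noncomputable def r23_4 : Rw Blk := .tok (nat_lit 3) (nat_lit 0xbc0001780002fea13) (.hit (nat_lit 14) (nat_lit 0) (nat_lit 0xbc0001780002fe765) b11531 (.tok (nat_lit 6) (nat_lit 0xbc0001780002fea13) (.hit (nat_lit 15) (nat_lit 7) (nat_lit 0xbc0001780002fea13) b11532 (.hit (nat_lit 16) (nat_lit 15) (nat_lit 0xbc0001780002fd99e) b11533 (.nil))) (.tok (nat_lit 9) (nat_lit 0xbc0001780002fd770) (.hit (nat_lit 17) (nat_lit 20) (nat_lit 0xbc0001780002fc230) b11534 (.hit (nat_lit 18) (nat_lit 28) (nat_lit 0xbc0001780002fd770) b11535 (.nil))) (.nil)))) (.tok (nat_lit 6) (nat_lit 0xbc0001780002ff848) (.hit (nat_lit 9) (nat_lit 0) (nat_lit 0xbc0001780002ff848) b11527 (.one (nat_lit 3) (nat_lit 10) (nat_lit 1) (nat_lit 0xbc0001780002ff337) b11528 (.tok (nat_lit 6) (nat_lit 0xbc0001780002fea47) (.hit (nat_lit 12) (nat_lit 7) (nat_lit 0xbc0001780002fe927) b11529 (.hit (nat_lit 13) (nat_lit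 15) (nat_lit 0xbc0001780002fea47) b11530 (.nil))) (.nil)))) (.tok (nat_lit 9) (nat_lit 0xbc000178000300000) (.hit (nat_lit 0) (nat_lit 0) (nat_lit 0xbc0001780002fef7d) b11519 (.one (nat_lit 3) (nat_lit 1) (nat_lit 1) (nat_lit 0xbc0001780002fcdae) b11520 (.tok (nat_lit 9) (nat_lit 0xbc000178000300000) (.hit (nat_lit 3) (nat_lit 20) (nat_lit 0xbc0001780002fdd6a) b11521 (.hit (nat_lit 7) (nat_lit 28) (nat_lit 0xbc0001780002fd9a1) b11525 (.tok (nat_lit 67) (nat_lit 0xbc000178000300000) (.hit (nat_lit 4) (nat_lit 21) (nat_lit 0xbc0001780002fed14) b11522 (.hit (nat_lit 8) (nat_lit 29) (nat_lit 0xbc0001780002ff9e4) b11526 (.tok (nat_lit 9) (nat_lit 0xbc000178000300000) (.hit (nat_lit 5) (nat_lit 22) (nat_lit 0xbc0001780002fed7b) b11523 (.one (nat_lit 67) (nat_lit 6) (nat_lit 23) (nat_lit 0xbc000178000300000) b11524 (.nil))) (.nil)))) (.nil)))) (.nil)))) (.nil)))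
noncomputable def r23_5 : Rw Blk := .tok (nat_lit 3) (nat_lit 0xbc0001780002ff0a8) (.hit (nat_lit 0) (nat_lit 0) (nat_lit 0xbc0001780002fe6a0) b22480 (.tok (nat_lit 9) (nat_lit 0xbc0001780002ff0a8) (.hit (nat_lit 1) (nat_lit 20) (nat_lit 0xbc0001780002fd5b7) b22481 (.hit (nat_lit 6) (nat_lit 28) (nat_lit 0xbc0001780002fc73e) b22484 (.tok (nat_lit 68) (nat_lit 0xbc0001780002ff0a8) (.hit (nat_lit 4) (nat_lit 26) (nat_lit 0xbc0001780002fe8bc) b22482 (.hit (nat_lit 8) (nat_lit 32) (nat_lit 0xbc0001780002fda45) b22485 (.one (nat_lit 9) (nat_lit 5) (nat_lit 27) (nat_lit 0xbc0001780002ff0a8) b22483 (.nil)))) (.nil)))) (.nil))) (.tok (nat_lit 6) (nat_lit 0xbc0001780003007be) (.hit (nat_lit 20) (nat_lit 0) (nat_lit 0xbc0001780002fe6c6) b22486 (.tok (nat_lit 6) (nat_lit 0xbc0001780003007be) (.hit (nat_lit 21) (nat_lit 7) (nat_lit 0xbc0001780002fe6cd) b22487 (.hit (nat_lit 26) (nat_lit 15)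 (nat_lit 0xbc0001780002fc8d5) b22490 (.tok (nat_lit 56) (nat_lit 0xbc0001780003007be) (.hit (nat_lit 24) (nat_lit 13) (nat_lit 0xbc0001780003007be) b22488 (.hit (nat_lit 29) (nat_lit 19) (nat_lit 0xbc0001780002fe6eb) b22491 (.one (nat_lit 6) (nat_lit 25) (nat_lit 14) (nat_lit 0xbc0001780002fedc9) b22489 (.nil)))) (.nil)))) (.nil))) (.nil))
noncomputable def r23_6 : Rw Blk := .tok (nat_lit 14) (nat_lit 0xbc0001780002fec95) (.hit (nat_lit 134) (nat_lit 0) (nat_lit 0xbc0001780002fe1b4) b11566 (.one (nat_lit 3) (nat_lit 135) (nat_lit 1) (nat_lit 0xbc0001780002fb3a1) b11567 (.tok (nat_lit 6) (nat_lit 0xbc0001780002fec95) (.hit (nat_lit 136) (nat_lit 7) (nat_lit 0xbc0001780002fe1d4) b11568 (.hit (nat_lit 137) (nat_lit 15) (nat_lit 0xbc0001780002fec95) b11569 (.nil))) (.tok (nat_lit 9) (nat_lit 0xbc0001780002fdf7f) (.hit (nat_lit 138) (nat_lit 20) (nat_lit 0xbc0001780002fd814) b11570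 (.hit (nat_lit 139) (nat_lit 28) (nat_lit 0xbc0001780002fdf7f) b11571 (.nil))) (.nil))))) (.tok (nat_lit 17) (nat_lit 0xbc0001780002ff224) (.hit (nat_lit 140) (nat_lit 0) (nat_lit 0xbc0001780002ff224) b11572 (.one (nat_lit 3) (nat_lit 141) (nat_lit 1) (nat_lit 0xbc0001780002fc30c) b11573 (.tok (nat_lit 6) (nat_lit 0xbc0001780002fe704) (.hit (nat_lit 142) (nat_lit 7) (nat_lit 0xbc0001780002fe3e8) b11574 (.hit (nat_lit 143) (nat_lit 15) (nat_lit 0xbc0001780002fe704) b11575 (.nil))) (.tok (nat_lit 9) (nat_lit 0xbc0001780002ff1f9) (.hit (nat_lit 144) (nat_lit 20) (nat_lit 0xbc0001780002fd3f6) b11576 (.hit (nat_lit 145) (nat_lit 28) (nat_lit 0xbc0001780002ff1f9) b11577 (.nil))) (.nil))))) (.tok (nat_lit 20) (nat_lit 0xbc0001780002ffba1) (.hit (nat_lit 128) (nat_lit 0) (nat_lit 0xbc0001780002ff7e9) b11560 (.one (nat_lit 3) (nat_lit 129) (nat_lit 1) (nat_lit 0xbc0001780002ff083) b11561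 (.tok (nat_lit 6) (nat_lit 0xbc0001780002ffba1) (.hit (nat_lit 130) (nat_lit 7) (nat_lit 0xbc0001780002fe211) b11562 (.hit (nat_lit 131) (nat_lit 15) (nat_lit 0xbc0001780002ffba1) b11563 (.nil))) (.tok (nat_lit 9) (nat_lit 0xbc0001780002ff58c) (.hit (nat_lit 132) (nat_lit 20) (nat_lit 0xbc0001780002ff484) b11564 (.hit (nat_lit 133) (nat_lit 28) (nat_lit 0xbc0001780002ff58c) b11565 (.nil))) (.nil))))) (.tok (nat_lit 23) (nat_lit 0xbc0001780002ffdd8) (.hit (nat_lit 122) (nat_lit 0) (nat_lit 0xbc0001780002ff86d) b11554 (.one (nat_lit 3) (nat_lit 123) (nat_lit 1) (nat_lit 0xbc0001780002fe880) b11555 (.tok (nat_lit 6) (nat_lit 0xbc0001780002ffaf4) (.hit (nat_lit 124) (nat_lit 7) (nat_lit 0xbc0001780002ff94f) b11556 (.hit (nat_lit 125) (nat_lit 15) (nat_lit 0xbc0001780002ffaf4) b11557 (.nil))) (.tok (nat_lit 9) (nat_lit 0xbc0001780002ffdd8) (.hit (nat_lit 126) (nat_lit 20) (nat_lit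 0xbc0001780002fdd71) b11558 (.hit (nat_lit 127) (nat_lit 28) (nat_lit 0xbc0001780002ffdd8) b11559 (.nil))) (.nil))))) (.tok (nat_lit 26) (nat_lit 0xbc000178000300000) (.hit (nat_lit 215) (nat_lit 0) (nat_lit 0xbc000178000300000) b11621 (.one (nat_lit 3) (nat_lit 216) (nat_lit 1) (nat_lit 0xbc0001780002fcb72) b11622 (.tok (nat_lit 6) (nat_lit 0xbc0001780002fe7af) (.hit (nat_lit 217) (nat_lit 7) (nat_lit 0xbc0001780002fd11e) b11623 (.hit (nat_lit 218) (nat_lit 15) (nat_lit 0xbc0001780002fe7af) b11624 (.nil))) (.tok (nat_lit 9) (nat_lit 0xbc0001780002fe49f) (.hit (nat_lit 219) (nat_lit 20) (nat_lit 0xbc0001780002fe49f) b11625 (.hit (nat_lit 220) (nat_lit 28) (nat_lit 0xbc0001780002fd64a) b11626 (.nil))) (.nil))))) (.tok (nat_lit 29) (nat_lit 0xbc0001780002feb9b) (.hit (nat_lit 221) (nat_lit 0) (nat_lit 0xbc0001780002feb9b) b11627 (.one (nat_lit 3) (nat_lit 222) (nat_lit 1) (nat_lit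 0xbc0001780002fc854) b11628 (.tok (nat_lit 6) (nat_lit 0xbc0001780002fea0f) (.hit (nat_lit 223) (nat_lit 7) (nat_lit 0xbc0001780002fdba4) b11629 (.hit (nat_lit 224) (nat_lit 15) (nat_lit 0xbc0001780002fea0f) b11630 (.nil))) (.tok (nat_lit 9) (nat_lit 0xbc0001780002feb3b) (.hit (nat_lit 225) (nat_lit 20) (nat_lit 0xbc0001780002fe234) b11631 (.hit (nat_lit 226) (nat_lit 28) (nat_lit 0xbc0001780002feb3b) b11632 (.nil))) (.nil))))) (.tok (nat_lit 32) (nat_lit 0xbc0001780002fefc8) (.hit (nat_lit 233) (nat_lit 0) (nat_lit 0xbc0001780002fefc8) b11638 (.one (nat_lit 3) (nat_lit 234) (nat_lit 1) (nat_lit 0xbc0001780002fc6cd) b11591 (.tok (nat_lit 6) (nat_lit 0xbc0001780002fe91c) (.hit (nat_lit 235) (nat_lit 7) (nat_lit 0xbc0001780002fe1c0) b11639 (.hit (nat_lit 236) (nat_lit 15) (nat_lit 0xbc0001780002fe91c) b11640 (.nil))) (.tok (nat_lit 9) (nat_lit 0xbc0001780002fdea5) (.hit (nat_lit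 237) (nat_lit 20) (nat_lit 0xbc0001780002fdea5) b11641 (.hit (nat_lit 238) (nat_lit 28) (nat_lit 0xbc0001780002fc977) b11642 (.nil))) (.nil))))) (.tok (nat_lit 35) (nat_lit 0xbc0001780002ff349) (.hit (nat_lit 227) (nat_lit 0) (nat_lit 0xbc0001780002ff349) b11633 (.one (nat_lit 3) (nat_lit 228) (nat_lit 1) (nat_lit 0xbc0001780002fc6cd) b11591 (.tok (nat_lit 6) (nat_lit 0xbc0001780002fe204) (.hit (nat_lit 229) (nat_lit 7) (nat_lit 0xbc0001780002fe204) b11634 (.hit (nat_lit 230) (nat_lit 15) (nat_lit 0xbc0001780002fcaff) b11635 (.nil))) (.tok (nat_lit 9) (nat_lit 0xbc0001780002feb30) (.hit (nat_lit 231) (nat_lit 20) (nat_lit 0xbc0001780002fd113) b11636 (.hit (nat_lit 232) (nat_lit 28) (nat_lit 0xbc0001780002feb30) b11637 (.nil))) (.nil))))) (.tok (nat_lit 50) (nat_lit 0xbc0001780002ff8ae) (.hit (nat_lit 170) (nat_lit 0) (nat_lit 0xbc0001780002fe8d1) b11601 (.one (nat_lit 3) (nat_lit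 171) (nat_lit 1) (nat_lit 0xbc0001780002fcbe0) b11602 (.tok (nat_lit 6) (nat_lit 0xbc0001780002ff8ae) (.hit (nat_lit 172) (nat_lit 7) (nat_lit 0xbc0001780002ff8ae) b11603 (.hit (nat_lit 173) (nat_lit 15) (nat_lit 0xbc0001780002fd1f0) b11604 (.nil))) (.tok (nat_lit 9) (nat_lit 0xbc0001780002fd681) (.hit (nat_lit 174) (nat_lit 20) (nat_lit 0xbc0001780002fd681) b11605 (.hit (nat_lit 175) (nat_lit 28) (nat_lit 0xbc0001780002fd068) b11606 (.nil))) (.nil))))) (.tok (nat_lit 53) (nat_lit 0xbc0001780002ffe44) (.hit (nat_lit 181) (nat_lit 0) (nat_lit 0xbc0001780002ff934) b11607 (.one (nat_lit 3) (nat_lit 182) (nat_lit 1) (nat_lit 0xbc0001780002ff03a) b11608 (.tok (nat_lit 6) (nat_lit 0xbc0001780002ff7aa) (.hit (nat_lit 183) (nat_lit 7) (nat_lit 0xbc0001780002ff7aa) b11609 (.hit (nat_lit 184) (nat_lit 15) (nat_lit 0xbc0001780002ff2b2) b11610 (.nil))) (.tok (nat_lit 9) (nat_lit 0xbc0001780002ffe44)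 (.hit (nat_lit 185) (nat_lit 20) (nat_lit 0xbc0001780002fe79e) b11611 (.hit (nat_lit 186) (nat_lit 28) (nat_lit 0xbc0001780002ffe44) b11612 (.nil))) (.nil))))) (.tok (nat_lit 56) (nat_lit 0xbc0001780002fef19) (.hit (nat_lit 195) (nat_lit 0) (nat_lit 0xbc0001780002fef19) b11613 (.one (nat_lit 3) (nat_lit 196) (nat_lit 1) (nat_lit 0xbc0001780002fc6cd) b11591 (.tok (nat_lit 6) (nat_lit 0xbc0001780002fe1d4) (.hit (nat_lit 197) (nat_lit 7) (nat_lit 0xbc0001780002fe1d4) b11568 (.hit (nat_lit 198) (nat_lit 15) (nat_lit 0xbc0001780002fc83b) b11595 (.nil))) (.tok (nat_lit 9) (nat_lit 0xbc0001780002fedd0) (.hit (nat_lit 199) (nat_lit 20) (nat_lit 0xbc0001780002fe217) b11592 (.hit (nat_lit 200) (nat_lit 28) (nat_lit 0xbc0001780002fedd0) b11614 (.nil))) (.nil))))) (.tok (nat_lit 59) (nat_lit 0xbc0001780002fffa3) (.hit (nat_lit 209) (nat_lit 0) (nat_lit 0xbc0001780002ff259) b11615 (.one (nat_lit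 3) (nat_lit 210) (nat_lit 1) (nat_lit 0xbc0001780002fd326) b11616 (.tok (nat_lit 6) (nat_lit 0xbc0001780002fef16) (.hit (nat_lit 211) (nat_lit 7) (nat_lit 0xbc0001780002fe9ee) b11617 (.hit (nat_lit 212) (nat_lit 15) (nat_lit 0xbc0001780002fef16) b11618 (.nil))) (.tok (nat_lit 9) (nat_lit 0xbc0001780002fffa3) (.hit (nat_lit 213) (nat_lit 20) (nat_lit 0xbc0001780002fffa3) b11619 (.hit (nat_lit 214) (nat_lit 28) (nat_lit 0xbc0001780002fc338) b11620 (.nil))) (.nil))))) (.nil))))))))))))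
noncomputable def r23_7 : Rw Blk := .tok (nat_lit 3) (nat_lit 0xbc0001780002fdfe3) (.hit (nat_lit 18) (nat_lit 0) (nat_lit 0xbc0001780002fdfe3) b11659 (.tok (nat_lit 6) (nat_lit 0xbc0001780002fcf6d) (.hit (nat_lit 19) (nat_lit 7) (nat_lit 0xbc0001780002fcf6d) b11660 (.hit (nat_lit 20) (nat_lit 15) (nat_lit 0xbc0001780002fce45) b11661 (.nil))) (.tok (nat_lit 9) (nat_lit 0xbc0001780002fd426) (.hit (nat_lit 21) (nat_lit 20) (nat_lit 0xbc0001780002fcfcf) b11662 (.hit (nat_lit 22) (nat_lit 28) (nat_lit 0xbc0001780002fd426) b11663 (.nil))) (.nil)))) (.tok (nat_lit 6) (nat_lit 0xbc000178000300000) (.hit (nat_lit 0) (nat_lit 0) (nat_lit 0xbc0001780002fea59) b11643 (.one (nat_lit 3) (nat_lit 1) (nat_lit 1) (nat_lit 0xbc0001780002fd338) b11644 (.tok (nat_lit 6) (nat_lit 0xbc000178000300000) (.hit (nat_lit 3) (nat_lit 7) (nat_lit 0xbc0001780002feccc) b11645 (.hit (nat_lit 7) (nat_lit 15)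 (nat_lit 0xbc0001780002fdb65) b11649 (.tok (nat_lit 55) (nat_lit 0xbc000178000300000) (.hit (nat_lit 4) (nat_lit 8) (nat_lit 0xbc0001780002ffb92) b11646 (.hit (nat_lit 8) (nat_lit 16) (nat_lit 0xbc0001780002ff0f8) b11650 (.tok (nat_lit 6) (nat_lit 0xbc000178000300000) (.hit (nat_lit 5) (nat_lit 9) (nat_lit 0xbc0001780002ff9af) b11647 (.one (nat_lit 55) (nat_lit 6) (nat_lit 10) (nat_lit 0xbc000178000300000) b11648 (.nil))) (.nil)))) (.nil)))) (.nil)))) (.tok (nat_lit 9) (nat_lit 0xbc0001780002fdff6) (.hit (nat_lit 9) (nat_lit 0) (nat_lit 0xbc0001780002fdff6) b11651 (.one (nat_lit 3) (nat_lit 10) (nat_lit 1) (nat_lit 0xbc0001780002fda7f) b11652 (.tok (nat_lit 9) (nat_lit 0xbc0001780002fda9c) (.hit (nat_lit 12) (nat_lit 20) (nat_lit 0xbc0001780002fd406) b11653 (.hit (nat_lit 16) (nat_lit 28) (nat_lit 0xbc0001780002fda9c) b11657 (.nil))) (.nil)))) (.nil)))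
noncomputable def r23_8 : Rw Blk := .tok (nat_lit 3) (nat_lit 0xbc0001780002fe332) (.hit (nat_lit 14) (nat_lit 0) (nat_lit 0xbc0001780002fe332) b15487 (.tok (nat_lit 6) (nat_lit 0xbc0001780002fd58b) (.hit (nat_lit 15) (nat_lit 7) (nat_lit 0xbc0001780002fd58b) b15490 (.hit (nat_lit 16) (nat_lit 15) (nat_lit 0xbc0001780002fd007) b15491 (.nil))) (.tok (nat_lit 9) (nat_lit 0xbc0001780002fd0a7) (.hit (nat_lit 17) (nat_lit 20) (nat_lit 0xbc0001780002fd0a7) b15488 (.hit (nat_lit 18) (nat_lit 28) (nat_lit 0xbc0001780002faa89) b15489 (.nil))) (.nil)))) (.tok (nat_lit 6) (nat_lit 0xbc000178000300000) (.hit (nat_lit 9) (nat_lit 0) (nat_lit 0xbc000178000300000) b15482 (.one (nat_lit 3) (nat_lit 10) (nat_lit 1) (nat_lit 0xbc0001780002fda4e) b15483 (.tok (nat_lit 6) (nat_lit 0xbc0001780002ff2c2) (.hit (nat_lit 12) (nat_lit 7) (nat_lit 0xbc0001780002ff2c2) b15485 (.hit (nat_lit 13) (nat_lit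 15) (nat_lit 0xbc0001780002fdd07) b15486 (.nil))) (.nil)))) (.tok (nat_lit 9) (nat_lit 0xbc0001780002ff6c3) (.hit (nat_lit 0) (nat_lit 0) (nat_lit 0xbc0001780002ff2fa) b15473 (.one (nat_lit 3) (nat_lit 1) (nat_lit 1) (nat_lit 0xbc0001780002fd593) b15474 (.tok (nat_lit 9) (nat_lit 0xbc0001780002ff6c3) (.hit (nat_lit 3) (nat_lit 20) (nat_lit 0xbc0001780002fd2ad) b15476 (.hit (nat_lit 7) (nat_lit 28) (nat_lit 0xbc0001780002fd3a5) b15480 (.tok (nat_lit 67) (nat_lit 0xbc0001780002ff6c3) (.hit (nat_lit 4) (nat_lit 21) (nat_lit 0xbc0001780002fe8c9) b15477 (.hit (nat_lit 8) (nat_lit 29) (nat_lit 0xbc0001780002ff0ef) b15481 (.tok (nat_lit 9) (nat_lit 0xbc0001780002ff6c3) (.hit (nat_lit 5) (nat_lit 22) (nat_lit 0xbc0001780002fe8ce) b15478 (.one (nat_lit 67) (nat_lit 6) (nat_lit 23) (nat_lit 0xbc0001780002ff6c3) b15479 (.nil))) (.nil)))) (.nil)))) (.nil)))) (.nil)))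
noncomputable def r23_9 : Rw Blk := .tok (nat_lit 6) (nat_lit 0xbc000178000300f4a) (.hit (nat_lit 10) (nat_lit 0) (nat_lit 0xbc000178000300f4a) b22501 (.tok (nat_lit 3) (nat_lit 0xbc0001780002ff577) (.hit (nat_lit 11) (nat_lit 1) (nat_lit 0xbc0001780002fe539) b22502 (.one (nat_lit 56) (nat_lit 13) (nat_lit 6) (nat_lit 0xbc0001780002ff577) b22503 (.nil))) (.nil))) (.tok (nat_lit 9) (nat_lit 0xbc000178000300321) (.hit (nat_lit 0) (nat_lit 0) (nat_lit 0xbc000178000300321) b22492 (.tok (nat_lit 3) (nat_lit 0xbc0001780002fd8ad) (.hit (nat_lit 1) (nat_lit 1) (nat_lit 0xbc0001780002fbbb9) b22493 (.one (nat_lit 68) (nat_lit 3) (nat_lit 5) (nat_lit 0xbc0001780002fd8ad) b22494 (.nil))) (.tok (nat_lit 40) (nat_lit 0xbc0001780002fdd66) (.hit (nat_lit 4) (nat_lit 33) (nat_lit 0xbc0001780002fd7e0) b22495 (.hit (nat_lit 5) (nat_lit 34) (nat_lit 0xbc0001780002fdd66) b22496 (.nil))) (.tok (nat_lit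 43) (nat_lit 0xbc0001780002fe8ea) (.hit (nat_lit 6) (nat_lit 35) (nat_lit 0xbc0001780002fe8ea) b22499 (.hit (nat_lit 7) (nat_lit 36) (nat_lit 0xbc0001780002fe585) b22500 (.nil))) (.tok (nat_lit 46) (nat_lit 0xbc0001780002fe9c1) (.hit (nat_lit 8) (nat_lit 37) (nat_lit 0xbc0001780002fe9c1) b22497 (.hit (nat_lit 9) (nat_lit 38) (nat_lit 0xbc0001780002fe426) b22498 (.nil))) (.nil)))))) (.nil))
noncomputable def r23_10 : Rw Blk := .tok (nat_lit 6) (nat_lit 0xbc0001780002fe1a4) (.hit (nat_lit 10) (nat_lit 0) (nat_lit 0xbc0001780002fe1a4) b22513 (.tok (nat_lit 3) (nat_lit 0xbc0001780002fe0c1) (.hit (nat_lit 11) (nat_lit 1) (nat_lit 0xbc0001780002fcad3) b22514 (.one (nat_lit 56) (nat_lit 13) (nat_lit 6) (nat_lit 0xbc0001780002fe0c1) b22515 (.nil))) (.nil))) (.tok (nat_lit 9) (nat_lit 0xbc000178000300444) (.hit (nat_lit 0) (nat_lit 0) (nat_lit 0xbc0001780002ff927) b22504 (.tok (nat_lit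 3) (nat_lit 0xbc0001780002fea38) (.hit (nat_lit 1) (nat_lit 1) (nat_lit 0xbc0001780002fd14c) b22505 (.one (nat_lit 68) (nat_lit 3) (nat_lit 5) (nat_lit 0xbc0001780002fea38) b22506 (.nil))) (.tok (nat_lit 40) (nat_lit 0xbc0001780002ff2fc) (.hit (nat_lit 4) (nat_lit 33) (nat_lit 0xbc0001780002feebd) b22507 (.hit (nat_lit 5) (nat_lit 34) (nat_lit 0xbc0001780002ff2fc) b22508 (.nil))) (.tok (nat_lit 43) (nat_lit 0xbc000178000300444) (.hit (nat_lit 6) (nat_lit 35) (nat_lit 0xbc0001780002fe112) b22511 (.hit (nat_lit 7) (nat_lit 36) (nat_lit 0xbc000178000300444) b22512 (.nil))) (.tok (nat_lit 46) (nat_lit 0xbc0001780002ffe31) (.hit (nat_lit 8) (nat_lit 37) (nat_lit 0xbc0001780002ffe31) b22509 (.hit (nat_lit 9) (nat_lit 38) (nat_lit 0xbc0001780002fe812) b22510 (.nil))) (.nil)))))) (.nil))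
noncomputable def r23_11 : Rw Blk := .tok (nat_lit 3) (nat_lit 0x1808ebb00d72603444bffce97fc2db000f5) (.hit (nat_lit 15) (nat_lit 0) (nat_lit 0x17f2de2fed4c5ff440bf7f317f09fafdf18) b22527 (.tok (nat_lit 9) (nat_lit 0x17f0ba2fe9005fcd84bf40f57eb552fd74e) (.hit (nat_lit 16) (nat_lit 20) (nat_lit 0x17e5b52fdb7b5fbd78bee8cd7e0502fc144) b22528 (.hit (nat_lit 21) (nat_lit 28) (nat_lit 0x17d7f8afceac5f9d9abe7ae97d293afa5cb) b22529 (.one (nat_lit 56) (nat_lit 23) (nat_lit 31) (nat_lit 0x17f0ba2fe9005fcd84bf40f57eb552fd74e) b22530 (.nil)))) (.tok (nat_lit 64) (nat_lit 0x17f05a2ff3df5feda6bf3df57eaf52fd68e) (.hit (nat_lit 25) (nat_lit 50) (nat_lit 0x17ef5b2fdf3b5fd2c4bf35fd7e9f62fd490) b22531 (.hit (nat_lit 26) (nat_lit 51) (nat_lit 0x17f05a2ff3df5feda6bf3df57eaf52fd68e) b22532 (.nil))) (.tok (nat_lit 67) (nat_lit 0x1808ebb00d72603444bffce97fc2db000f5) (.hit (nat_lit 27) (nat_lit 52) (nat_lit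 0x1808ebb00d72603444bffce97fc2db000f5) b22533 (.one (nat_lit 3) (nat_lit 33) (nat_lit 58) (nat_lit 0x17f4702ff0046012debf5ea57ef0b2fdeba) b22536 (.tok (nat_lit 9) (nat_lit 0x17f36caff37b600232bf56897ee07afdcb3) (.hit (nat_lit 28) (nat_lit 53) (nat_lit 0x17f118afe7765ff7aebf43e97ebb3afd80b) b22534 (.hit (nat_lit 31) (nat_lit 56) (nat_lit 0x17f36caff37b600232bf56897ee07afdcb3) b22535 (.nil))) (.nil)))) (.one (nat_lit 70) (nat_lit 35) (nat_lit 60) (nat_lit 0x17f1feaff6d95fefa4bf4b197ec99afd9d7) b22537 (.nil)))))) (.tok (nat_lit 6) (nat_lit 0x1813aeb02655606974c09585816a93027b1) (.hit (nat_lit 0) (nat_lit 0) (nat_lit 0x1801da301e8060389cc0143580247b003ad) b22516 (.tok (nat_lit 6) (nat_lit 0x17fdbb3019d860355abff3757ff162fff96) (.hit (nat_lit 1) (nat_lit 7) (nat_lit 0x17fdbb2fdcb05fcd9cbff3757ff162fff96) b22517 (.hit (nat_lit 4) (nat_lit 15) (nat_lit 0x17eab62fdec75fc7a0bf9a557ef25afe5db)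 b22518 (.one (nat_lit 68) (nat_lit 6) (nat_lit 18) (nat_lit 0x17f8e7b019d860355abfd1c57f749aff7ca) b22519 (.nil)))) (.tok (nat_lit 52) (nat_lit 0x1813aeb019046033c0c08545816a930229f) (.hit (nat_lit 7) (nat_lit 39) (nat_lit 0x1813aeb019046033c0c08545816a930229f) b22520 (.hit (nat_lit 8) (nat_lit 40) (nat_lit 0x180a7eb007e160046cc079d580d0ab01ddd) b22521 (.nil))) (.tok (nat_lit 55) (nat_lit 0x180fe8302655606974c09585811edb027b1) (.hit (nat_lit 9) (nat_lit 41) (nat_lit 0x180fe8302655606974c09585811edb027b1) b22522 (.one (nat_lit 3) (nat_lit 12) (nat_lit 47) (nat_lit 0x180c77aff8596002bec0816180d8d301e18) b22525 (.tok (nat_lit 6) (nat_lit 0x180871300d8c603be2c053c5806553011cf) (.hit (nat_lit 10) (nat_lit 42) (nat_lit 0x17fe60300d8c602ed6bffb79801ec2fff25) b22523 (.hit (nat_lit 11) (nat_lit 45) (nat_lit 0x18087130039b603be2c053c5806553011cf) b22524 (.nil))) (.nil)))) (.one (nat_lit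 58) (nat_lit 14) (nat_lit 49) (nat_lit 0x18051eb00c166001c2c066dd804d6b015c8) b22526 (.nil)))))) (.nil))
noncomputable def r23_12 : Rw Blk := .tok (nat_lit 6) (nat_lit 0xbc000180860b00396) (.hit (nat_lit 18) (nat_lit 0) (nat_lit 0xbc00017fe8e300396) b22554 (.one (nat_lit 26) (nat_lit 30) (nat_lit 72) (nat_lit 0xbc00017f3972fe573) b22555 (.one (nat_lit 29) (nat_lit 31) (nat_lit 73) (nat_lit 0xbc00017f669aff734) b22556 (.one (nat_lit 32) (nat_lit 32) (nat_lit 74) (nat_lit 0xbc00017f2c92fe251) b22558 (.one (nat_lit 35) (nat_lit 33) (nat_lit 75) (nat_lit 0xbc00017fa03aff6de) b22557 (.one (nat_lit 62) (nat_lit 41) (nat_lit 92) (nat_lit 0xbc00017fb072ff305) b22559 (.tok (nat_lit 65) (nat_lit 0xbc00017fc5caff9bc) (.hit (nat_lit 42) (nat_lit 93) (nat_lit 0xbc00017f64b2ff3f3) b22560 (.hit (nat_lit 43) (nat_lit 94) (nat_lit 0xbc00017fc5caff9bc) b22561 (.nil))) (.tok (nat_lit 68) (nat_lit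 0xbc000180860aff689) (.hit (nat_lit 44) (nat_lit 95) (nat_lit 0xbc000180860aff689) b22562 (.one (nat_lit 3) (nat_lit 48) (nat_lit 99) (nat_lit 0xbc00017f2c12fe413) b22566 (.one (nat_lit 6) (nat_lit 45) (nat_lit 96) (nat_lit 0xbc00017f22e2fe2ed) b22563 (.tok (nat_lit 9) (nat_lit 0xbc00017f06d2fdf6b) (.hit (nat_lit 46) (nat_lit 97) (nat_lit 0xbc00017f06d2fdf6b) b22564 (.hit (nat_lit 47) (nat_lit 98) (nat_lit 0xbc00017ecea2fd865) b22565 (.nil))) (.nil))))) (.one (nat_lit 71) (nat_lit 49) (nat_lit 100) (nat_lit 0xbc00017f482afe8d3) b22567 (.nil)))))))))) (.tok (nat_lit 52) (nat_lit 0xbc0001814d4b02cf6) (.hit (nat_lit 13) (nat_lit 0) (nat_lit 0xbc000181258b02cf6) b22549 (.tok (nat_lit 6) (nat_lit 0xbc0001814d4b01c8a) (.hit (nat_lit 14) (nat_lit 7) (nat_lit 0xbc0001810a03017e6) b22552 (.hit (nat_lit 15) (nat_lit 15) (nat_lit 0xbc0001814d4b01c8a) b22553 (.nil))) (.tok (nat_lit 9) (nat_lit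 0xbc0001801ddaff764) (.hit (nat_lit 16) (nat_lit 20) (nat_lit 0xbc00017f42aafe6e6) b22550 (.hit (nat_lit 17) (nat_lit 28) (nat_lit 0xbc0001801ddaff764) b22551 (.nil))) (.nil)))) (.tok (nat_lit 55) (nat_lit 0xbc000180101300005) (.hit (nat_lit 8) (nat_lit 0) (nat_lit 0xbc0001801012ffd63) b22545 (.one (nat_lit 3) (nat_lit 9) (nat_lit 1) (nat_lit 0xbc00017f85aafef46) b22546 (.tok (nat_lit 6) (nat_lit 0xbc0001800ba300005) (.hit (nat_lit 11) (nat_lit 7) (nat_lit 0xbc0001800ba300005) b22547 (.hit (nat_lit 12) (nat_lit 15) (nat_lit 0xbc00017f6572feb3f) b22548 (.nil))) (.nil)))) (.tok (nat_lit 58) (nat_lit 0xbc000180a6ab012fb) (.hit (nat_lit 0) (nat_lit 0) (nat_lit 0xbc000180a6ab002c6) b22538 (.one (nat_lit 3) (nat_lit 1) (nat_lit 1) (nat_lit 0xbc0001801bd30020b) b22539 (.tok (nat_lit 9) (nat_lit 0xbc000180a353012fb) (.hit (nat_lit 3) (nat_lit 20) (nat_lit 0xbc00017ff5baffd48) b22540 (.hit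 (nat_lit 6) (nat_lit 28) (nat_lit 0xbc000180064afff5a) b22543 (.tok (nat_lit 67) (nat_lit 0xbc000180a353012fb) (.hit (nat_lit 4) (nat_lit 21) (nat_lit 0xbc000180615b00abc) b22541 (.hit (nat_lit 7) (nat_lit 29) (nat_lit 0xbc0001809fcb0128a) b22544 (.one (nat_lit 9) (nat_lit 5) (nat_lit 22) (nat_lit 0xbc000180a353012fb) b22542 (.nil)))) (.nil)))) (.nil)))) (.nil))))
noncomputable def r23_13 : Rw Blk := .tok (nat_lit 3) (nat_lit 0xbc000181c8f3033b6) (.hit (nat_lit 0) (nat_lit 0) (nat_lit 0xbc000181c8f3033b6) b22568 (.tok (nat_lit 9) (nat_lit 0xbc000180c2bb016de) (.hit (nat_lit 1) (nat_lit 20) (nat_lit 0xbc00017f67d2fef51) b22569 (.hit (nat_lit 6) (nat_lit 28) (nat_lit 0xbc00017f600aff728) b22572 (.tok (nat_lit 68) (nat_lit 0xbc000180c2bb016de) (.hit (nat_lit 4) (nat_lit 26) (nat_lit 0xbc00017fedeb0076a) b22570 (.hit (nat_lit 8) (nat_lit 32) (nat_lit 0xbc00018005cb00284) b22573 (.one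 (nat_lit 9) (nat_lit 5) (nat_lit 27) (nat_lit 0xbc000180c2bb016de) b22571 (.nil)))) (.nil)))) (.nil))) (.tok (nat_lit 6) (nat_lit 0xbc000181e1230382f) (.hit (nat_lit 20) (nat_lit 0) (nat_lit 0xbc000181e1230382f) b22574 (.tok (nat_lit 6) (nat_lit 0xbc00018128ab02644) (.hit (nat_lit 21) (nat_lit 7) (nat_lit 0xbc00018128ab02644) b22575 (.hit (nat_lit 24) (nat_lit 15) (nat_lit 0xbc000180b4db01589) b22576 (.nil))) (.nil))) (.nil))
noncomputable def r23_14 : Rw Blk := .tok (nat_lit 6) (nat_lit 0xbc000178000302a00) (.hit (nat_lit 0) (nat_lit 0) (nat_lit 0xbc000178000302328) b22577 (.one (nat_lit 38) (nat_lit 12) (nat_lit 76) (nat_lit 0xbc0001780003022ef) b22578 (.tok (nat_lit 41) (nat_lit 0xbc00017800030175d) (.hit (nat_lit 13) (nat_lit 77) (nat_lit 0xbc0001780003003f9) b22579 (.hit (nat_lit 14) (nat_lit 78) (nat_lit 0xbc00017800030175d) b22580 (.nil))) (.tok (nat_lit 44) (nat_lit 0xbc000178000302a00)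 (.hit (nat_lit 15) (nat_lit 79) (nat_lit 0xbc000178000302a00) b22583 (.hit (nat_lit 16) (nat_lit 80) (nat_lit 0xbc00017800030136b) b22584 (.nil))) (.tok (nat_lit 47) (nat_lit 0xbc000178000301008) (.hit (nat_lit 17) (nat_lit 81) (nat_lit 0xbc0001780003003f6) b22581 (.hit (nat_lit 18) (nat_lit 82) (nat_lit 0xbc000178000301008) b22582 (.nil))) (.nil)))))) (.nil)
noncomputable def r23_15 : Rw Blk := .tok (nat_lit 6) (nat_lit 0xbc0001780002ffe5f) (.hit (nat_lit 18) (nat_lit 0) (nat_lit 0xbc0001780002fe15b) b22601 (.one (nat_lit 26) (nat_lit 30) (nat_lit 72) (nat_lit 0xbc0001780002febc7) b22602 (.one (nat_lit 29) (nat_lit 31) (nat_lit 73) (nat_lit 0xbc0001780002fed33) b22603 (.one (nat_lit 32) (nat_lit 32) (nat_lit 74) (nat_lit 0xbc0001780002fe429) b22605 (.one (nat_lit 35) (nat_lit 33) (nat_lit 75) (nat_lit 0xbc0001780002ff42d) b22604 (.one (nat_lit 62) (nat_lit 41) (nat_lit 92) (nat_lit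 0xbc0001780002feeb9) b22606 (.tok (nat_lit 65) (nat_lit 0xbc0001780002fea09) (.hit (nat_lit 42) (nat_lit 93) (nat_lit 0xbc0001780002fe1fb) b22607 (.hit (nat_lit 43) (nat_lit 94) (nat_lit 0xbc0001780002fea09) b22608 (.nil))) (.tok (nat_lit 68) (nat_lit 0xbc0001780002ffe5f) (.hit (nat_lit 44) (nat_lit 95) (nat_lit 0xbc0001780002ffe5f) b22609 (.one (nat_lit 3) (nat_lit 48) (nat_lit 99) (nat_lit 0xbc0001780002fd82c) b22613 (.one (nat_lit 6) (nat_lit 45) (nat_lit 96) (nat_lit 0xbc0001780002fe456) b22610 (.tok (nat_lit 9) (nat_lit 0xbc0001780002fe4c2) (.hit (nat_lit 46) (nat_lit 97) (nat_lit 0xbc0001780002fe4c2) b22611 (.hit (nat_lit 47) (nat_lit 98) (nat_lit 0xbc0001780002fcb5d) b22612 (.nil))) (.nil))))) (.one (nat_lit 71) (nat_lit 49) (nat_lit 100) (nat_lit 0xbc0001780002fe5a0) b22614 (.nil)))))))))) (.tok (nat_lit 52) (nat_lit 0xbc000178000302859) (.hit (nat_lit 13) (nat_lit 0)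 (nat_lit 0xbc000178000301943) b22596 (.tok (nat_lit 6) (nat_lit 0xbc000178000302859) (.hit (nat_lit 14) (nat_lit 7) (nat_lit 0xbc0001780003024c0) b22599 (.hit (nat_lit 15) (nat_lit 15) (nat_lit 0xbc000178000302859) b22600 (.nil))) (.tok (nat_lit 9) (nat_lit 0xbc00017800030012f) (.hit (nat_lit 16) (nat_lit 20) (nat_lit 0xbc0001780002fecdc) b22597 (.hit (nat_lit 17) (nat_lit 28) (nat_lit 0xbc00017800030012f) b22598 (.nil))) (.nil)))) (.tok (nat_lit 55) (nat_lit 0xbc0001780002ffafb) (.hit (nat_lit 8) (nat_lit 0) (nat_lit 0xbc0001780002ffafb) b22592 (.one (nat_lit 3) (nat_lit 9) (nat_lit 1) (nat_lit 0xbc0001780002ff417) b22593 (.tok (nat_lit 6) (nat_lit 0xbc0001780002ff47d) (.hit (nat_lit 11) (nat_lit 7) (nat_lit 0xbc0001780002ff47d) b22594 (.hit (nat_lit 12) (nat_lit 15) (nat_lit 0xbc0001780002fe820) b22595 (.nil))) (.nil)))) (.tok (nat_lit 58) (nat_lit 0xbc0001780003018f2) (.hit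 (nat_lit 0) (nat_lit 0) (nat_lit 0xbc0001780003002bf) b22585 (.one (nat_lit 3) (nat_lit 1) (nat_lit 1) (nat_lit 0xbc0001780002ffd56) b22586 (.tok (nat_lit 9) (nat_lit 0xbc0001780003018f2) (.hit (nat_lit 3) (nat_lit 20) (nat_lit 0xbc0001780003009d5) b22587 (.hit (nat_lit 6) (nat_lit 28) (nat_lit 0xbc0001780002ffcaa) b22590 (.tok (nat_lit 67) (nat_lit 0xbc0001780003018f2) (.hit (nat_lit 4) (nat_lit 21) (nat_lit 0xbc0001780003013b5) b22588 (.hit (nat_lit 7) (nat_lit 29) (nat_lit 0xbc000178000300db7) b22591 (.one (nat_lit 9) (nat_lit 5) (nat_lit 22) (nat_lit 0xbc0001780003018f2) b22589 (.nil)))) (.nil)))) (.nil)))) (.nil))))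
noncomputable def r23_16 : Rw Blk := .tok (nat_lit 3) (nat_lit 0xbc000178000302acc) (.hit (nat_lit 0) (nat_lit 0) (nat_lit 0xbc000178000302acc) b22615 (.tok (nat_lit 9) (nat_lit 0xbc000178000301a50) (.hit (nat_lit 1) (nat_lit 20) (nat_lit 0xbc0001780002ff39c) b22616 (.hit (nat_lit 6) (nat_lit 28) (nat_lit 0xbc0001780002fea53) b22619 (.tok (nat_lit 68) (nat_lit 0xbc000178000301a50) (.hit (nat_lit 4) (nat_lit 26) (nat_lit 0xbc000178000300652) b22617 (.hit (nat_lit 8) (nat_lit 32) (nat_lit 0xbc0001780002ffe7e) b22620 (.one (nat_lit 9) (nat_lit 5) (nat_lit 27) (nat_lit 0xbc000178000301a50) b22618 (.nil)))) (.nil)))) (.nil))) (.tok (nat_lit 6) (nat_lit 0xbc0001780003036a2) (.hit (nat_lit 20) (nat_lit 0) (nat_lit 0xbc0001780003028ee) b22621 (.tok (nat_lit 6) (nat_lit 0xbc0001780003036a2) (.hit (nat_lit 21) (nat_lit 7) (nat_lit 0xbc0001780003036a2) b22622 (.hit (nat_lit 24) (nat_lit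 15) (nat_lit 0xbc000178000300ba9) b22623 (.nil))) (.nil))) (.nil))
noncomputable def r23_17 : Rw Blk := .tok (nat_lit 9) (nat_lit 0xbc0001780002ff683) (.hit (nat_lit 21) (nat_lit 0) (nat_lit 0xbc0001780002fe8a4) b22640 (.one (nat_lit 26) (nat_lit 33) (nat_lit 72) (nat_lit 0xbc0001780002feea2) b22641 (.one (nat_lit 29) (nat_lit 34) (nat_lit 73) (nat_lit 0xbc0001780002fe165) b22642 (.one (nat_lit 32) (nat_lit 35) (nat_lit 74) (nat_lit 0xbc0001780002ff683) b22644 (.one (nat_lit 35) (nat_lit 36) (nat_lit 75) (nat_lit 0xbc0001780002fdd86) b22643 (.one (nat_lit 50) (nat_lit 37) (nat_lit 83) (nat_lit 0xbc0001780002fea35) b22645 (.tok (nat_lit 53) (nat_lit 0xbc0001780002fef78) (.hit (nat_lit 38) (nat_lit 84) (nat_lit 0xbc0001780002fe3f1) b22646 (.hit (nat_lit 39) (nat_lit 85) (nat_lit 0xbc0001780002fef78) b22647 (.nil))) (.tok (nat_lit 56) (nat_lit 0xbc0001780002ff3de) (.hit (nat_lit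 40) (nat_lit 86) (nat_lit 0xbc0001780002ff3de) b22648 (.one (nat_lit 3) (nat_lit 44) (nat_lit 90) (nat_lit 0xbc0001780002fce1e) b22652 (.tok (nat_lit 6) (nat_lit 0xbc0001780002fdb8e) (.hit (nat_lit 42) (nat_lit 88) (nat_lit 0xbc0001780002fdb8e) b22650 (.hit (nat_lit 43) (nat_lit 89) (nat_lit 0xbc0001780002fd329) b22651 (.nil))) (.one (nat_lit 9) (nat_lit 41) (nat_lit 87) (nat_lit 0xbc0001780002fd2f8) b22649 (.nil))))) (.one (nat_lit 59) (nat_lit 45) (nat_lit 91) (nat_lit 0xbc0001780002feae4) b22653 (.nil)))))))))) (.tok (nat_lit 64) (nat_lit 0xbc0001780003014ed) (.hit (nat_lit 16) (nat_lit 0) (nat_lit 0xbc000178000300fa6) b22635 (.tok (nat_lit 6) (nat_lit 0xbc000178000301442) (.hit (nat_lit 17) (nat_lit 7) (nat_lit 0xbc0001780002ff08a) b22638 (.hit (nat_lit 18) (nat_lit 15) (nat_lit 0xbc000178000301442) b22639 (.nil))) (.tok (nat_lit 9) (nat_lit 0xbc0001780003014ed) (.hit (nat_lit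 19) (nat_lit 20) (nat_lit 0xbc0001780003014ed) b22636 (.hit (nat_lit 20) (nat_lit 28) (nat_lit 0xbc000178000300c41) b22637 (.nil))) (.nil)))) (.tok (nat_lit 67) (nat_lit 0xbc000178000300f96) (.hit (nat_lit 8) (nat_lit 0) (nat_lit 0xbc000178000300f96) b22631 (.one (nat_lit 3) (nat_lit 9) (nat_lit 1) (nat_lit 0xbc0001780002ff562) b22632 (.tok (nat_lit 9) (nat_lit 0xbc0001780002fee9d) (.hit (nat_lit 11) (nat_lit 20) (nat_lit 0xbc0001780002fee9d) b22633 (.hit (nat_lit 14) (nat_lit 28) (nat_lit 0xbc0001780002fe401) b22634 (.nil))) (.nil)))) (.tok (nat_lit 70) (nat_lit 0xbc000178000301100) (.hit (nat_lit 0) (nat_lit 0) (nat_lit 0xbc0001780002ffa86) b22624 (.one (nat_lit 3) (nat_lit 1) (nat_lit 1) (nat_lit 0xbc0001780002fff26) b22625 (.tok (nat_lit 6) (nat_lit 0xbc000178000301100) (.hit (nat_lit 3) (nat_lit 7) (nat_lit 0xbc0001780002ffd3e) b22626 (.hit (nat_lit 6) (nat_lit 15) (nat_lit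 0xbc0001780002ff824) b22629 (.tok (nat_lit 55) (nat_lit 0xbc000178000301100) (.hit (nat_lit 4) (nat_lit 8) (nat_lit 0xbc000178000300701) b22627 (.hit (nat_lit 7) (nat_lit 16) (nat_lit 0xbc000178000300941) b22630 (.one (nat_lit 6) (nat_lit 5) (nat_lit 9) (nat_lit 0xbc000178000301100) b22628 (.nil)))) (.nil)))) (.nil)))) (.nil))))
noncomputable def r23_18 : Rw Blk := .tok (nat_lit 3) (nat_lit 0xbc000178000302fca) (.hit (nat_lit 0) (nat_lit 0) (nat_lit 0xbc000178000302fca) b22654 (.tok (nat_lit 6) (nat_lit 0xbc0001780003024dd) (.hit (nat_lit 1) (nat_lit 7) (nat_lit 0xbc000178000300954) b22655 (.hit (nat_lit 4) (nat_lit 15) (nat_lit 0xbc0001780002fedc1) b22658 (.tok (nat_lit 56) (nat_lit 0xbc0001780003024dd) (.hit (nat_lit 2) (nat_lit 13) (nat_lit 0xbc000178000300822) b22656 (.hit (nat_lit 6) (nat_lit 19) (nat_lit 0xbc0001780003002be) b22659 (.one (nat_lit 6) (nat_lit 3) (nat_lit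 14) (nat_lit 0xbc0001780003024dd) b22657 (.nil)))) (.nil)))) (.nil))) (.tok (nat_lit 9) (nat_lit 0xbc000178000303d78) (.hit (nat_lit 17) (nat_lit 0) (nat_lit 0xbc000178000303d78) b22660 (.tok (nat_lit 9) (nat_lit 0xbc0001780003031b9) (.hit (nat_lit 18) (nat_lit 20) (nat_lit 0xbc0001780003031b9) b22661 (.hit (nat_lit 19) (nat_lit 28) (nat_lit 0xbc000178000300592) b22662 (.nil))) (.nil))) (.nil))
noncomputable def r23_19 : Rw Blk := .tok (nat_lit 3) (nat_lit 0xbc000178000300000) (.hit (nat_lit 15) (nat_lit 0) (nat_lit 0xbc0001780002ff09b) b22667 (.tok (nat_lit 6) (nat_lit 0xbc0001780002fe785) (.hit (nat_lit 16) (nat_lit 7) (nat_lit 0xbc0001780002fc2b4) b22668 (.hit (nat_lit 21) (nat_lit 15) (nat_lit 0xbc0001780002fad35) b22671 (.tok (nat_lit 56) (nat_lit 0xbc0001780002fe785) (.hit (nat_lit 19) (nat_lit 13) (nat_lit 0xbc0001780002fd64e) b22669 (.hit (nat_lit 24) (nat_lit 19) (nat_lit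 0xbc0001780002fdfd6) b22672 (.one (nat_lit 6) (nat_lit 20) (nat_lit 14) (nat_lit 0xbc0001780002fe785) b22670 (.nil)))) (.nil)))) (.tok (nat_lit 52) (nat_lit 0xbc0001780002fed79) (.hit (nat_lit 25) (nat_lit 39) (nat_lit 0xbc0001780002fe663) b22673 (.hit (nat_lit 26) (nat_lit 40) (nat_lit 0xbc0001780002fed79) b22674 (.nil))) (.tok (nat_lit 55) (nat_lit 0xbc000178000300000) (.hit (nat_lit 27) (nat_lit 41) (nat_lit 0xbc0001780002ff8b6) b22675 (.one (nat_lit 3) (nat_lit 33) (nat_lit 47) (nat_lit 0xbc0001780002ff488) b22681 (.tok (nat_lit 6) (nat_lit 0xbc000178000300000) (.hit (nat_lit 28) (nat_lit 42) (nat_lit 0xbc0001780002ff579) b22676 (.hit (nat_lit 31) (nat_lit 45) (nat_lit 0xbc0001780002ff1b5) b22679 (.tok (nat_lit 55) (nat_lit 0xbc000178000300000) (.hit (nat_lit 29) (nat_lit 43) (nat_lit 0xbc000178000300000) b22677 (.hit (nat_lit 32) (nat_lit 46) (nat_lit 0xbc0001780002ff22a)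 b22680 (.one (nat_lit 6) (nat_lit 30) (nat_lit 44) (nat_lit 0xbc0001780002ffead) b22678 (.nil)))) (.nil)))) (.nil)))) (.one (nat_lit 58) (nat_lit 35) (nat_lit 49) (nat_lit 0xbc0001780002ff3fb) b22682 (.nil)))))) (.tok (nat_lit 9) (nat_lit 0xbc0001780002ff6a4) (.hit (nat_lit 0) (nat_lit 0) (nat_lit 0xbc0001780002ff6a4) b22663 (.tok (nat_lit 9) (nat_lit 0xbc0001780002fee30) (.hit (nat_lit 1) (nat_lit 20) (nat_lit 0xbc0001780002fea80) b22664 (.hit (nat_lit 4) (nat_lit 28) (nat_lit 0xbc0001780002feb46) b22665 (.one (nat_lit 56) (nat_lit 6) (nat_lit 31) (nat_lit 0xbc0001780002fee30) b22666 (.nil)))) (.nil))) (.nil))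
noncomputable def r23_20 : Rw Blk := .tok (nat_lit 9) (nat_lit 0xc0000180000300000600000c0000180000300000600000c0000180000300000600000c0000180000300000600000c0000180000300000600000c0000180000300000) (.hit (nat_lit 157) (nat_lit 0) (nat_lit 0xbf76b17f7f2afec795fd338bf37997f0c9afd9a65fe01cbf4ee97f1fcafd8ac5ff6c4bff7f57f4422fe7dc5ff580bfea957fa5d2ff8445ff43abfb18d7fc892fe171) b22683 (.tok (nat_lit 14) (nat_lit 0xc00001800003000005fe1ccbf82e97fa16afeb285fe868bfa2417fbb9afea6d5ffb5ebff00d800003000005fe8d4c000017fd052ff1dd5fe64cc000017fc872fedd0) (.hit (nat_lit 193) (nat_lit 61) (nat_lit 0xbfcaa97ff683000005fd73abf3d657f78dafe57b5fe5cebf68797f7732fe3845ffb5ebff00d7fe4faffa115fe8d4c000017fd052ff1dd5fe64cc000017fc872fed55) b22684 (.one (nat_lit 3) (nat_lit 194) (nat_lit 62) (nat_lit 0xbf94117f8732ffb095fc72cbf122d7eb572fd3355fb38ebf12817ef802fd7b95fcb04bfb9257f513afeda05fc3e6bf95657ed8a2fd7365fb9b6bf94457f02d2fdc1e)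 b22685 (.tok (nat_lit 6) (nat_lit 0xc00001800002fff155fe1ccbf82e97fa16afeb285fe868bfa2417fbb9afea6d5fef4cbfcded800003000005fd5a4bfd9a17f4c1afe8455fcb10bfc2297f8b62feda6) (.hit (nat_lit 197) (nat_lit 65) (nat_lit 0xc00001800002ff8d55fe1ccbf82e97fa16afeb285fe868bfa2417fbb9afea6d5fef4cbfcded7fa162ff44d5fd5a4bfd9a17f4c1afe8455fcb10bfc1c97f8b62feda6) b22686 (.hit (nat_lit 198) (nat_lit 66) (nat_lit 0xbf88b97f45b2fff155fb492bef2a97ef58afda435fc3fcbf23197f0aa2fd59a5fd8d4bfae61800003000005fcfcebfa89d7f0842fdb525fc59ebfc2297f68b2fe9b9) b22687 (.nil))) (.tok (nat_lit 9) (nat_lit 0xbf9f8d7f7deaff6465fd5f6bf302d7f337afddd45fd9febf4d797f3182fdaa65ff14abfed517fec8affa825fd9a2bfd2817f985afe67d5fdd2cbfeef97fab6afedd0) (.hit (nat_lit 195) (nat_lit 63) (nat_lit 0xbf3de57ebc82fee105fb7e0bef6d97ed5e2fd02a5fc6eabf25057ef0a2fd1c95fd28cbf9f517f2872fe2025fd214bfd2817f985afe67d5fdd2cbfeef97fab6afe27d)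 b22688 (.hit (nat_lit 196) (nat_lit 64) (nat_lit 0xbf9f8d7f7deaff6465fd5f6bf302d7f337afddd45fd9febf4d797f3182fdaa65ff14abfed517fec8affa825fd9a2bfbc457f2f92fd8b05fcf72bfd9997fa3aafedd0) b22689 (.nil))) (.nil))))) (.one (nat_lit 17) (nat_lit 199) (nat_lit 67) (nat_lit 0xbf5e797f45cafedbe5fdb4cbf3ecd7e9752fc9985fe816bf545d7efcf2fd4e35ff75ebff33d7f50f2fe51d5fde84bfa2c57f40e2fd0235fdd8abf894d7f43fafda32) b22690 (.tok (nat_lit 20) (nat_lit 0xbf57d57eda82fe9eb5fbbd0bf02217ebf3afcd555fc8e2bf1c297ed9fafcef45fdbccbfbf2d7ef36afdbd65fe01cbfc72d7f6d8afe3a85fe2f4bfc6b57f6102fd9b2) (.hit (nat_lit 200) (nat_lit 68) (nat_lit 0xbf32917ea5dafe9eb5fb236beeb857ebf3afcd555fc140bf19b17ed9fafcef45fcce2bf93fd7ef36afdbd65fe01cbfc72d7f6d8afe3a85fe2f4bfc6b57f6102fd9b2) b22693 (.hit (nat_lit 201) (nat_lit 69) (nat_lit 0xbf57d57eda82fde9f5fbbd0bf02217e96aafc91b5fc8e2bf1c297ea9a2fc9b05fdbccbfbf2d7ee03afd9595fcb6cbf8dfd7f0532fcc1d5fc2e8bf70b17f0b52fcdad)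 b22694 (.nil))) (.tok (nat_lit 23) (nat_lit 0xbfa7117fdf22ff7cb600000c0000180000300000600000c0000180000300000600000bffc097fb97aff4d15fdd88bfbc357f51c2fdefd5fd41ebf981d7f639b00000) (.hit (nat_lit 202) (nat_lit 70) (nat_lit 0xbfa7117fdf22ff7cb600000c0000180000300000600000c0000180000300000600000bffc097fb97aff4d15fdd88bfbc357f51c2fdefd5fd3debf981d7f639b00000) b22691 (.hit (nat_lit 203) (nat_lit 71) (nat_lit 0xbf5b217ecf62ff4365fbef2bf32457ede4afd1b85fd508bf2b217efe82fd4495fe7ccbfdd717fa32aff0bd5fd662bfa8ed7f3792fcc305fd41ebf76217f4c3afe45d) b22692 (.nil))) (.one (nat_lit 38) (nat_lit 208) (nat_lit 76) (nat_lit 0xbf4a917ed672fe9315fc5eabf32f97eb9f2fcd325fd63ebf32fd7f0592fd5245fe9b6bff1e17f484afe3a95fd236bf8da17f0212fd0fe5fc9acbf87197f21d2fd659) b22695 (.tok (nat_lit 41) (nat_lit 0xbf5e657f4572fee145fdbf2bf49a97eb93afcbbe5fee76bf60417f0782fd6765ffdd4c000017f317afe3835fe13ebfa9017f5632fc76e5fda2ebfad6d7f6d72fdb6b)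 (.hit (nat_lit 209) (nat_lit 77) (nat_lit 0xbf36997ef532fe7395fb096bedd1d7e6102fc3dc5fa3f8bee10d7e8c1afc8e95fba68bf77017ec172fdcca5f6b20bf00c57d9a62fb20e5f60f0bf4f057e8662fce11) b22696 (.hit (nat_lit 210) (nat_lit 78) (nat_lit 0xbf5e657f4572fee145fdbf2bf49a97eb93afcbbe5fee76bf60417f0782fd6765ffdd4c000017f317afe3835fe13ebfa9017f5632fc76e5fda2ebfad6d7f6d72fdb6b) b22697 (.nil))) (.tok (nat_lit 44) (nat_lit 0xbf5ce17eff0afe3795fcd6cbf23397e7db2fc6965fd774bf32457eb04afc9775feb40bfd7417eb172fd5825fe3b6bfa70d7f7fb2fcfee5fd652bf52b57f13dafd95f) (.hit (nat_lit 211) (nat_lit 79) (nat_lit 0xbee3a97e080afdaaa5f8ac2be9c9d7e216afb99b5f99ccbecac97e3c2afbb3a5fa56ebf45157e559afc81c5fe3b6bfa70d7f7fb2fcfee5fd652bf32f97f13dafcefe) b22700 (.hit (nat_lit 212) (nat_lit 80) (nat_lit 0xbf5ce17eff0afe3795fcd6cbf23397e7db2fc6965fd774bf32457eb04afc9775feb40bfd7417eb172fd5825fc378bf869d7f002afc9e45fbd8cbf52b57ee612fd95f)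 b22701 (.nil))) (.tok (nat_lit 47) (nat_lit 0xbf704d7f98a2ff6615fc3c2bf1cc57eead2fd6075fcc64bf402d7ee7a2fd6ec5fe3d6bfbbc57f0dbafdd915fded0bfbb757f5a4afc1985fdca6bf7dcd7f5afafdaa1) (.hit (nat_lit 213) (nat_lit 81) (nat_lit 0xbf704d7f98a2ff6615fc3c2bf1cc57eead2fd6075fcbf2bf402d7ee7a2fd6ec5fe3d6bfb6657f05c2fdd685fd3a8bfbb757f5a4afc1985fcde6bf05657f5afafdaa1) b22698 (.hit (nat_lit 214) (nat_lit 82) (nat_lit 0xbf4d317eb43afe5fa5fb83ebf0fc97ea272fca165fcc64bf1e597ee49afd10d5fdd6abfbbc57f0dbafdd915fded0bfa7757f363afc17b5fdca6bf7dcd7f4322fd45d) b22699 (.nil))) (.one (nat_lit 50) (nat_lit 215) (nat_lit 83) (nat_lit 0xbf460d7eb07afe53b5fc69abf291d7eb422fcc735fd9b2bf2d857edf4afd0625fea84bfe4c57f593afe4925fdd68bfa1517f28c2fccc95fd43abf88857f2e9afd74f) b22702 (.tok (nat_lit 53) (nat_lit 0xbf6be17f732afec155fcc1abf2e157ecd02fcde35fd8eabf4d317ede9afce5b5fee62bfe74d7f66a2fec6c5fd9f8bfa1d17f347afc9d55fd1f0bfc6557f4c4afdd4b)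 (.hit (nat_lit 216) (nat_lit 84) (nat_lit 0xbf6be17f732afec155fb9d0bef0117ecd02fcde35fb9b4bf10917ec832fce5b5fcd68bfa8f97f66a2fec6c5fb3eebf70dd7e98c2fc9d55fa9bebfc6557f4c4afdd4b) b22703 (.hit (nat_lit 217) (nat_lit 85) (nat_lit 0xbf536d7f0262fe5c55fcc1abf2e157e90eafc8325fd8eabf4d317ede9afcd8f5fee62bfe74d7ed5a2fdad85fd9f8bfa1d17f347afc5b15fd1f0bf96e17f3e0afd6f7) b22704 (.nil))) (.tok (nat_lit 56) (nat_lit 0xbf7f757f7a02ffa895fc86abf1b6d7f342afdb6b5fd51cbf3cbd7f31e2fdac75fe84ebfd7ed7f9322ff2c4600000bffa7580000300000600000bff641800002fe473) (.hit (nat_lit 218) (nat_lit 86) (nat_lit 0xbf7f757f7a02ffa895fc86abf1b6d7f342afdb6b5fd51cbf3cbd7f31e2fdac75fe84ebfd7ed7f9322ff2c4600000bff42d800003000005ffbfcbff641800002fe3bf) b22705 (.one (nat_lit 3) (nat_lit 222) (nat_lit 90) (nat_lit 0xbf07217e4efafee5f5f9c7ebec0157e685afc2795fab88beee417e831afc4185fb72abf688d7e9c8afd0fa5fea1ebfcf617f9ab2fd8cc5fe452bfa3017f7352fd8de)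 b22709 (.tok (nat_lit 6) (nat_lit 0xbf388d7eb1d2ffa1c5fb534bef1817ecb32fced45fc43ebf1fad7ee5f2fd0735fcfe0bf99f97eff62fdd555ffdf2bffa757ff292fe5275ffcaabff1fd7fb742fe473) (.hit (nat_lit 220) (nat_lit 88) (nat_lit 0xbf16357e6d22ff91a5fa408becf297e8682fc63e5fb312befd557ea142fc7dd5fbeb4bf77a17ef402fdb745fe518bfc40d7ff292fdc915feab6bff1fd7fb742fe288) b22707 (.hit (nat_lit 221) (nat_lit 89) (nat_lit 0xbf388d7eb1d2ffa1c5fb534bef1817ecb32fced45fc43ebf1fad7ee5f2fd0735fcfe0bf99f97eff62fdd555ffdf2bffa757fd382fe5275ffcaabfd1617fb232fe473) b22708 (.nil))) (.one (nat_lit 9) (nat_lit 219) (nat_lit 87) (nat_lit 0xbf33dd7ea872ff2d35fb2dcbeecd17ec1d2fcda85fc1e6bf1afd7edc92fcf475fcd88bf95497ef602fdc295ffd4cbff4d17fe0e2fe3fb600000bfc3217f9bf2fe1db) b22706 (.nil))))) (.one (nat_lit 59) (nat_lit 223) (nat_lit 91) (nat_lit 0xbf2cd97e942afdaeb5fb496bef3717e4d92fbe3a5fc0c4bf110d7e76f2fc2475fd39cbfafdd7eba6afd4535fbb8ebf6bc17eb902fb81e5fb306bf49317ead52fc65e)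 b22710 (.nil)))))))))))))) (.nil)
noncomputable def r23_21 : Rw Blk := .tok (nat_lit 14) (nat_lit 0x1780002f00005f8e7abf17cd7de492fc07c) (.hit (nat_lit 140) (nat_lit 0) (nat_lit 0x1780002f00005f8e7abf17cd7de492fc07c) b22722 (.one (nat_lit 3) (nat_lit 141) (nat_lit 1) (nat_lit 0x1780002f00005f3a64be81517cb79af9708) b22723 (.tok (nat_lit 6) (nat_lit 0x1780002f00005f7aa2bf01cd7db892fb727) (.hit (nat_lit 142) (nat_lit 7) (nat_lit 0x1780002f00005f7764befb517dab9afb588) b22724 (.hit (nat_lit 143) (nat_lit 15) (nat_lit 0x1780002f00005f7aa2bf01cd7db892fb727) b22726 (.nil))) (.tok (nat_lit 9) (nat_lit 0x1780002f00005f826abf115d7dd7b2fbb0b) (.hit (nat_lit 144) (nat_lit 20) (nat_lit 0x1780002f00005f7764befb517dab9afb588) b22724 (.hit (nat_lit 145) (nat_lit 28) (nat_lit 0x1780002f00005f826abf115d7dd7b2fbb0b) b22725 (.nil))) (.nil))))) (.tok (nat_lit 17) (nat_lit 0x1780002f00005f8f20bf05a17e140afbfd0)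 (.hit (nat_lit 134) (nat_lit 0) (nat_lit 0x1780002f00005f8f20beeb657e140afbfd0) b22727 (.one (nat_lit 3) (nat_lit 135) (nat_lit 1) (nat_lit 0x1780002f00005f304abe6d1d7c8f32f91fb) b22728 (.tok (nat_lit 6) (nat_lit 0x1780002f00005f768cbef9a17da83afb51c) (.hit (nat_lit 136) (nat_lit 7) (nat_lit 0x1780002f00005f669ebed9c57d6882fad25) b22731 (.hit (nat_lit 137) (nat_lit 15) (nat_lit 0x1780002f00005f768cbef9a17da83afb51c) b22732 (.nil))) (.tok (nat_lit 9) (nat_lit 0x1780002f00005f7c8cbf05a17dc03afb81c) (.hit (nat_lit 138) (nat_lit 20) (nat_lit 0x1780002f00005f6c8abee59d7d8032fb01b) b22729 (.hit (nat_lit 139) (nat_lit 28) (nat_lit 0x1780002f00005f7c8cbf05a17dc03afb81c) b22730 (.nil))) (.nil))))) (.tok (nat_lit 20) (nat_lit 0x1780002f00005f9004bf0da97de042fc05b) (.hit (nat_lit 122) (nat_lit 0) (nat_lit 0x1780002f00005f9004bf0a117de042fc05b) b22711 (.one (nat_lit 3) (nat_lit 123) (nat_lit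 1) (nat_lit 0x1780002f00005f4156be8f357cd362f9a81) b22712 (.tok (nat_lit 6) (nat_lit 0x1780002f00005f7c60bf05497dbf8afb806) (.hit (nat_lit 124) (nat_lit 7) (nat_lit 0x1780002f00005f6ea2bee9cd7d8892fb127) b22715 (.hit (nat_lit 125) (nat_lit 15) (nat_lit 0x1780002f00005f7c60bf05497dbf8afb806) b22716 (.nil))) (.tok (nat_lit 9) (nat_lit 0x1780002f00005f8090bf0da97dd04afba1e) (.hit (nat_lit 126) (nat_lit 20) (nat_lit 0x1780002f00005f703cbeed017d8efafb1f4) b22713 (.hit (nat_lit 127) (nat_lit 28) (nat_lit 0x1780002f00005f8090bf0da97dd04afba1e) b22714 (.nil))) (.nil))))) (.tok (nat_lit 23) (nat_lit 0x1780002f00005fc67cbf53b97eaf6afd062) (.hit (nat_lit 128) (nat_lit 0) (nat_lit 0x1780002f00005fc67cbf53b97eaf6afccce) b22717 (.one (nat_lit 3) (nat_lit 129) (nat_lit 1) (nat_lit 0x1780002f00005fab6cbf17a97e45a2fc301) b22718 (.tok (nat_lit 6) (nat_lit 0x1780002f00005fae20bf2eb97e8a7afc7f6)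 (.hit (nat_lit 130) (nat_lit 7) (nat_lit 0x1780002f00005fae20bf209d7e8a7afc7f6) b22720 (.hit (nat_lit 131) (nat_lit 15) (nat_lit 0x1780002f00005fa2c2bf2eb97e6adafc5f7) b22721 (.nil))) (.tok (nat_lit 9) (nat_lit 0x1780002f00005fa6ecbf3dad7e6d3afd062) (.hit (nat_lit 132) (nat_lit 20) (nat_lit 0x1780002f00005f703cbeed017d8efafb1f4) b22713 (.hit (nat_lit 133) (nat_lit 28) (nat_lit 0x1780002f00005fa6ecbf3dad7e6d3afd062) b22719 (.nil))) (.nil))))) (.tok (nat_lit 38) (nat_lit 0x1780002f00005fb760bf51d97ea662fd25a) (.hit (nat_lit 215) (nat_lit 0) (nat_lit 0x1780002f00005fb760bf51d97ea662fd25a) b22756 (.one (nat_lit 3) (nat_lit 216) (nat_lit 1) (nat_lit 0x1780002f00005f4a5abea13d7cf772f9f03) b22757 (.tok (nat_lit 6) (nat_lit 0x1780002f00005f749ebef5c57da082fb425) (.hit (nat_lit 217) (nat_lit 7) (nat_lit 0x1780002f00005f749ebef5c57da082fb425) b22760 (.hit (nat_lit 218) (nat_lit 15) (nat_lit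 0x1780002f00005f524ebeb1257d1742fa2fd) b22761 (.nil))) (.tok (nat_lit 9) (nat_lit 0x1780002f00005f5184beaf917d141afa298) (.hit (nat_lit 219) (nat_lit 20) (nat_lit 0x1780002f00005f5184beaf917d141afa298) b22758 (.hit (nat_lit 220) (nat_lit 28) (nat_lit 0x1780002f00005f452ebe96e57ce2c2f9c6d) b22759 (.nil))) (.nil))))) (.tok (nat_lit 41) (nat_lit 0x1780002f0000600000c01b258004d300000) (.hit (nat_lit 226) (nat_lit 0) (nat_lit 0x1780002f00005fc858bf71cd7f07eafd6a9) b22762 (.one (nat_lit 3) (nat_lit 227) (nat_lit 1) (nat_lit 0x1780002f00005fb632bf4d417e8baafce5f) b22763 (.tok (nat_lit 6) (nat_lit 0x1780002f00005fcf8cbf88d17ea3bafcf0c) (.hit (nat_lit 228) (nat_lit 7) (nat_lit 0x1780002f00005fcf8cbf88d17ea3bafcf0c) b22766 (.hit (nat_lit 229) (nat_lit 15) (nat_lit 0x1780002f00005fb1e4bf33917e4922fc4a3) b22767 (.nil))) (.tok (nat_lit 9) (nat_lit 0x1780002f0000600000c01b258004d300000) (.hit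 (nat_lit 230) (nat_lit 20) (nat_lit 0x1780002f0000600000c01b258004d300000) b22764 (.hit (nat_lit 231) (nat_lit 28) (nat_lit 0x1780002f00005fb63cbf5dc17e94fafcdba) b22765 (.nil))) (.nil))))) (.tok (nat_lit 44) (nat_lit 0x1780002f00005fcd22bf7a257e8db2fd314) (.hit (nat_lit 240) (nat_lit 0) (nat_lit 0x1780002f00005fcd22bf7a257e8db2fd314) b22768 (.one (nat_lit 3) (nat_lit 241) (nat_lit 1) (nat_lit 0x1780002f00005f56c0beba097d290afa536) b22769 (.tok (nat_lit 6) (nat_lit 0x1780002f00005f5e9ebec9c57d4882fa925) (.hit (nat_lit 242) (nat_lit 7) (nat_lit 0x1780002f00005f5e9ebec9c57d4882fa925) b22772 (.hit (nat_lit 243) (nat_lit 15) (nat_lit 0x1780002f00005f4f40beab097d0b0afa176) b22773 (.nil))) (.tok (nat_lit 9) (nat_lit 0x1780002f00005f839cbf13c17ddc7afbba4) (.hit (nat_lit 244) (nat_lit 20) (nat_lit 0x1780002f00005f7fd4bf0c317dcd5afb9c0) b22770 (.hit (nat_lit 245) (nat_lit 28) (nat_lit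 0x1780002f00005f839cbf13c17ddc7afbba4) b22771 (.nil))) (.nil))))) (.tok (nat_lit 47) (nat_lit 0x1780002f00005ffc18bfbd697f4192fe945) (.hit (nat_lit 254) (nat_lit 0) (nat_lit 0x1780002f00005fc3b4bf57857ea26afd152) b22774 (.one (nat_lit 3) (nat_lit 255) (nat_lit 1) (nat_lit 0x1780002f00005f9196bed3097da3c2fad80) b22775 (.tok (nat_lit 6) (nat_lit 0x1780002f00005ffc18bfbd697f4192fe945) (.hit (nat_lit 256) (nat_lit 7) (nat_lit 0x1780002f00005ffc18bfbd697f4192fe945) b22778 (.hit (nat_lit 257) (nat_lit 15) (nat_lit 0x1780002f00005fa878bf31357e544afc67b) b22779 (.nil))) (.tok (nat_lit 9) (nat_lit 0x1780002f00005fcc68bf58717ec412fd171) (.hit (nat_lit 258) (nat_lit 20) (nat_lit 0x1780002f00005fcc68bf58717ec412fd171) b22776 (.hit (nat_lit 259) (nat_lit 28) (nat_lit 0x1780002f00005fa514bf27bd7e40b2fc3d3) b22777 (.nil))) (.nil))))) (.tok (nat_lit 50) (nat_lit 0x1780002f00005f91c8bf1c757e20b2fc5e9)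 (.hit (nat_lit 146) (nat_lit 0) (nat_lit 0x1780002f00005f91c8bf19b97e20b2fc5e9) b22733 (.one (nat_lit 3) (nat_lit 147) (nat_lit 1) (nat_lit 0x1780002f00005f22febe52857c5a02f8b55) b22734 (.tok (nat_lit 6) (nat_lit 0x1780002f00005f87f6bf1c757dede2fbdd1) (.hit (nat_lit 148) (nat_lit 7) (nat_lit 0x1780002f00005f87f6bf1c757dede2fbdd1) b22737 (.hit (nat_lit 149) (nat_lit 15) (nat_lit 0x1780002f00005f300cbe6ca17c8e3af91dc) b22738 (.nil))) (.tok (nat_lit 9) (nat_lit 0x1780002f00005f6ad2bee22d7d7952faf3f) (.hit (nat_lit 150) (nat_lit 20) (nat_lit 0x1780002f00005f6ad2bee22d7d7952faf3f) b22735 (.hit (nat_lit 151) (nat_lit 28) (nat_lit 0x1780002f00005f5166beaf557d13a2fa289) b22736 (.nil))) (.nil))))) (.tok (nat_lit 53) (nat_lit 0x1780002f00005fdefcbfcc3d7f5c0afeb18) (.hit (nat_lit 152) (nat_lit 0) (nat_lit 0x1780002f00005fc49cbf8d217ec102fd9d9) b22739 (.one (nat_lit 3) (nat_lit 153) (nat_lit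 1) (nat_lit 0x1780002f00005fd250bfa5f97ed84afde50) b22740 (.tok (nat_lit 6) (nat_lit 0x1780002f00005fd83ebfc2397f5c0afeb18) (.hit (nat_lit 154) (nat_lit 7) (nat_lit 0x1780002f00005fd83ebfc2397f5c0afeb18) b22743 (.hit (nat_lit 155) (nat_lit 15) (nat_lit 0x1780002f00005fc4eebfb4b97f03d2fe44d) b22744 (.nil))) (.tok (nat_lit 9) (nat_lit 0x1780002f00005fdefcbfcc3d7ed30afdb36) (.hit (nat_lit 156) (nat_lit 20) (nat_lit 0x1780002f00005f80a6bf0dd57dd0a2fba29) b22741 (.hit (nat_lit 157) (nat_lit 28) (nat_lit 0x1780002f00005fdefcbfcc3d7ed30afdb36) b22742 (.nil))) (.nil))))) (.tok (nat_lit 56) (nat_lit 0x1780002f00005f9d3cbf21357e18dafc9fd) (.hit (nat_lit 164) (nat_lit 0) (nat_lit 0x1780002f00005f9d3cbf21357e18dafc9fd) b22745 (.one (nat_lit 3) (nat_lit 165) (nat_lit 1) (nat_lit 0x1780002f00005f4156be8f357cd362f9a81) b22712 (.tok (nat_lit 6) (nat_lit 0x1780002f00005f637cbed3817d5bfafab94)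 (.hit (nat_lit 166) (nat_lit 7) (nat_lit 0x1780002f00005f637cbed3817d5bfafab94) b22748 (.hit (nat_lit 167) (nat_lit 15) (nat_lit 0x1780002f00005f4432be94ed7cded2f9bef) b22749 (.nil))) (.tok (nat_lit 9) (nat_lit 0x1780002f00005f7246bef1157d9722fb2f9) (.hit (nat_lit 168) (nat_lit 20) (nat_lit 0x1780002f00005f6bb4bee3f17d7cdafafb0) b22746 (.hit (nat_lit 169) (nat_lit 28) (nat_lit 0x1780002f00005f7246bef1157d9722fb2f9) b22747 (.nil))) (.nil))))) (.tok (nat_lit 59) (nat_lit 0x1780002f00005fb222bf32fd7e3422fc36f) (.hit (nat_lit 158) (nat_lit 0) (nat_lit 0x1780002f00005fb222bf32fd7e3422fc36f) b22750 (.one (nat_lit 3) (nat_lit 159) (nat_lit 1) (nat_lit 0x1780002f00005f2b94be63b17c7c5af8fa0) b22751 (.tok (nat_lit 6) (nat_lit 0x1780002f00005f6ce6bee6557d81a2fb049) (.hit (nat_lit 160) (nat_lit 7) (nat_lit 0x1780002f00005f67babedbfd7d6cf2fadb3) b22754 (.hit (nat_lit 161) (nat_lit 15) (nat_lit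 0x1780002f00005f6ce6bee6557d81a2fb049) b22755 (.nil))) (.tok (nat_lit 9) (nat_lit 0x1780002f00005f6f34beeaf17d8adafb170) (.hit (nat_lit 162) (nat_lit 20) (nat_lit 0x1780002f00005f6f34beeaf17d8adafb170) b22752 (.hit (nat_lit 163) (nat_lit 28) (nat_lit 0x1780002f00005f53e0beb4497d1d8afa3c6) b22753 (.nil))) (.nil))))) (.nil))))))))))))
noncomputable def r23_22 : Rw Blk := .tok (nat_lit 3) (nat_lit 0x1780002f00005fcfe6bfd2917e8b5afe402) (.hit (nat_lit 18) (nat_lit 0) (nat_lit 0x1780002f00005fcf80bfd2917e8b5afe402) b22793 (.tok (nat_lit 6) (nat_lit 0x1780002f00005fcfe6bfc2bd7e534afdc12) (.hit (nat_lit 19) (nat_lit 7) (nat_lit 0x1780002f00005fcfe6bfc2bd7e534afdc12) b22796 (.hit (nat_lit 20) (nat_lit 15) (nat_lit 0x1780002f00005faf9ebf94497e0f8afd0d4) b22797 (.nil))) (.tok (nat_lit 9) (nat_lit 0x1780002f00005fbc68bf5d457dde42fc9b2) (.hit (nat_lit 21) (nat_lit 20) (nat_lit 0x1780002f00005f8796bf40dd7d76b2fb7f1)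 b22794 (.hit (nat_lit 22) (nat_lit 28) (nat_lit 0x1780002f00005fbc68bf5d457dde42fc9b2) b22795 (.nil))) (.nil)))) (.tok (nat_lit 6) (nat_lit 0x1780002f0000605684c0a5ed80a7b302660) (.hit (nat_lit 9) (nat_lit 0) (nat_lit 0x1780002f00005fccc0bfbe157ed732fe69c) b22785 (.tok (nat_lit 3) (nat_lit 0x1780002f000060325cc04d3180193b013e1) (.hit (nat_lit 10) (nat_lit 1) (nat_lit 0x1780002f00005fc508bfab717e7122fe108) b22786 (.one (nat_lit 67) (nat_lit 11) (nat_lit 2) (nat_lit 0x1780002f000060325cc04d3180193b013e1) b22787 (.nil))) (.tok (nat_lit 6) (nat_lit 0x1780002f0000605684c0a5ed80a7b302660) (.hit (nat_lit 12) (nat_lit 7) (nat_lit 0x1780002f0000600c56c02a7d7f8743005be) b22788 (.hit (nat_lit 16) (nat_lit 15) (nat_lit 0x1780002f00005fe074bfb94d7eb9b2fe480) b22791 (.tok (nat_lit 55) (nat_lit 0x1780002f0000605684c0a5ed80a7b302660) (.hit (nat_lit 13) (nat_lit 8) (nat_lit 0x1780002f000060347ac0a5ed80445302660)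 b22789 (.hit (nat_lit 17) (nat_lit 16) (nat_lit 0x1780002f0000605684c0902980a7b302294) b22792 (.one (nat_lit 6) (nat_lit 14) (nat_lit 9) (nat_lit 0x1780002f000060202ac022197fbf330073c) b22790 (.nil)))) (.nil)))) (.nil)))) (.tok (nat_lit 9) (nat_lit 0x1780002f00005fc464bfb7117e69eafdf0f) (.hit (nat_lit 0) (nat_lit 0) (nat_lit 0x1780002f00005fc464bfb7117e69eafdf0f) b22780 (.tok (nat_lit 3) (nat_lit 0x1780002f00005fb986bfa7017e300afcf2f) (.hit (nat_lit 1) (nat_lit 1) (nat_lit 0x1780002f00005f8f6cbf47297d960afbbdc) b22781 (.one (nat_lit 55) (nat_lit 2) (nat_lit 3) (nat_lit 0x1780002f00005fb986bfa7017e300afcf2f) b22782 (.nil))) (.tok (nat_lit 9) (nat_lit 0x1780002f00005f91c4bf52317d9f6afbd08) (.hit (nat_lit 3) (nat_lit 20) (nat_lit 0x1780002f00005f8f1ebf52317d71a2fb9fb) b22783 (.hit (nat_lit 7) (nat_lit 28) (nat_lit 0x1780002f00005f91c4bf31817d9f6afbd08) b22784 (.nil))) (.nil)))) (.nil)))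
noncomputable def r23_23 : Rw Blk := .tok (nat_lit 3) (nat_lit 0x1780002f0000601948bfe0f9806aab00e16) (.hit (nat_lit 0) (nat_lit 0) (nat_lit 0x1780002f00005fc77cbf30397ece82fe0d1) b22798 (.tok (nat_lit 9) (nat_lit 0x1780002f00005fad16bf08d97eadbafdba4) (.hit (nat_lit 1) (nat_lit 20) (nat_lit 0x1780002f00005f8f58becd5d7e36c2fccc5) b22799 (.hit (nat_lit 4) (nat_lit 28) (nat_lit 0x1780002f00005f8af2bec4917e252afca92) b22800 (.one (nat_lit 56) (nat_lit 5) (nat_lit 31) (nat_lit 0x1780002f00005fad16bf08d97eadbafdba4) b22801 (.nil)))) (.tok (nat_lit 64) (nat_lit 0x1780002f00005fbec2bf2c317ef46afe47a) (.hit (nat_lit 7) (nat_lit 50) (nat_lit 0x1780002f00005fad6abf09817eaf0afdbce) b22802 (.hit (nat_lit 8) (nat_lit 51) (nat_lit 0x1780002f00005fbec2bf2c317ef46afe47a) b22803 (.nil))) (.tok (nat_lit 67) (nat_lit 0x1780002f0000601948bfe0f9806aab00e16) (.hit (nat_lit 9) (nat_lit 52) (nat_lit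 0x1780002f0000601948bfe0f9806aab00e16) b22804 (.one (nat_lit 3) (nat_lit 15) (nat_lit 58) (nat_lit 0x1780002f00005fad64bf09757eaef2fdbcb) b22807 (.tok (nat_lit 9) (nat_lit 0x1780002f00005fb8d0bf204d7edca2fe181) (.hit (nat_lit 10) (nat_lit 53) (nat_lit 0x1780002f00005fb8d0bf204d7edca2fe181) b22805 (.hit (nat_lit 13) (nat_lit 56) (nat_lit 0x1780002f00005fa87cbeffa57e9b52fd957) b22806 (.nil))) (.nil)))) (.one (nat_lit 70) (nat_lit 16) (nat_lit 60) (nat_lit 0x1780002f00005fabeabf06817ea90afdb0e) b22808 (.nil)))))) (.tok (nat_lit 6) (nat_lit 0x1780002f0000604fe6c072f581196b035bb) (.hit (nat_lit 17) (nat_lit 0) (nat_lit 0x1780002f0000600914bfd2b57fd3030006f) b22809 (.tok (nat_lit 6) (nat_lit 0x1780002f000060006abfe0298034b3010d7) (.hit (nat_lit 18) (nat_lit 7) (nat_lit 0x1780002f00005ffb00bfe0298034b3010d7) b22810 (.hit (nat_lit 21) (nat_lit 15) (nat_lit 0x1780002f00005fb4fabf18e97ec97afd9f0)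 b22811 (.one (nat_lit 68) (nat_lit 22) (nat_lit 18) (nat_lit 0x1780002f000060006abf85057f9fa2ff6a1) b22812 (.nil)))) (.tok (nat_lit 52) (nat_lit 0x1780002f0000604778bfdfcd802bbb00bc7) (.hit (nat_lit 24) (nat_lit 39) (nat_lit 0x1780002f0000600fb8bfdb917fb9830018f) b22813 (.hit (nat_lit 25) (nat_lit 40) (nat_lit 0x1780002f0000604778bfdfcd802bbb00bc7) b22814 (.nil))) (.tok (nat_lit 55) (nat_lit 0x1780002f0000604fe6c072f581196b035bb) (.hit (nat_lit 26) (nat_lit 41) (nat_lit 0x1780002f0000604fe6c072f581196b035bb) b22815 (.one (nat_lit 3) (nat_lit 32) (nat_lit 47) (nat_lit 0x1780002f00006023fabff799803cc301721) b22818 (.tok (nat_lit 6) (nat_lit 0x1780002f00006028fac00171808cf301997) (.hit (nat_lit 27) (nat_lit 42) (nat_lit 0x1780002f00005ff1a8bfa7f97fd6730049a) b22816 (.hit (nat_lit 30) (nat_lit 45) (nat_lit 0x1780002f00006028fac00171808cf301997) b22817 (.nil))) (.nil)))) (.one (nat_lit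 58) (nat_lit 33) (nat_lit 49) (nat_lit 0x1780002f0000602898c0111d80392300f14) b22819 (.nil)))))) (.nil))
noncomputable def r23_24 : Rw Blk := .tok (nat_lit 14) (nat_lit 0x1780002f00005fae10bf69ed7eb37afe08d) (.hit (nat_lit 140) (nat_lit 0) (nat_lit 0x1780002f00005f984ebf27f97e39eafd010) b22832 (.one (nat_lit 3) (nat_lit 141) (nat_lit 1) (nat_lit 0x1780002f00005f3c28be861d7cebdafa799) b22833 (.tok (nat_lit 6) (nat_lit 0x1780002f00005f93e4bf35957e4acafd377) (.hit (nat_lit 142) (nat_lit 7) (nat_lit 0x1780002f00005f850ebf17e97e0f72fcc0c) b22836 (.hit (nat_lit 143) (nat_lit 15) (nat_lit 0x1780002f00005f93e4bf35957e4acafd377) b22837 (.nil))) (.tok (nat_lit 9) (nat_lit 0x1780002f00005fae10bf69ed7eb37afe08d) (.hit (nat_lit 144) (nat_lit 20) (nat_lit 0x1780002f00005f988ebf3ee97e5d72fd5cc) b22834 (.hit (nat_lit 145) (nat_lit 28) (nat_lit 0x1780002f00005fae10bf69ed7eb37afe08d) b22835 (.nil)))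 (.nil))))) (.tok (nat_lit 17) (nat_lit 0x1780002f00005fb92ebf7f7d7ede9afe5f1) (.hit (nat_lit 134) (nat_lit 0) (nat_lit 0x1780002f00005fb92ebf22857ea872fcf1f) b22838 (.one (nat_lit 3) (nat_lit 135) (nat_lit 1) (nat_lit 0x1780002f00005f5afebec3c97d6732fb704) b22839 (.tok (nat_lit 6) (nat_lit 0x1780002f00005fb8d8bf7f7d7ede9afe5f1) (.hit (nat_lit 136) (nat_lit 7) (nat_lit 0x1780002f00005f7cd2bf07717dee82fc7ee) b22842 (.hit (nat_lit 137) (nat_lit 15) (nat_lit 0x1780002f00005fb8d8bf7f7d7ede9afe5f1) b22843 (.nil))) (.tok (nat_lit 9) (nat_lit 0x1780002f00005fa2eebf53a97e86f2fdafc) (.hit (nat_lit 138) (nat_lit 20) (nat_lit 0x1780002f00005f9cb6bf47397e6e12fd7e0) b22840 (.hit (nat_lit 139) (nat_lit 28) (nat_lit 0x1780002f00005fa2eebf53a97e86f2fdafc) b22841 (.nil))) (.nil))))) (.tok (nat_lit 20) (nat_lit 0x1780002f00005fd096bf90b97f5ad2feab1) (.hit (nat_lit 122) (nat_lit 0) (nat_lit 0x1780002f00005fc5c0bf90b97f5ad2feab1)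 b22820 (.one (nat_lit 3) (nat_lit 123) (nat_lit 1) (nat_lit 0x1780002f00005fa5e6bf42dd7f0b8afd723) b22821 (.tok (nat_lit 6) (nat_lit 0x1780002f00005fd096bf61b97f26b2fde71) (.hit (nat_lit 124) (nat_lit 7) (nat_lit 0x1780002f00005f8fc8bf2d5d7e3a5afd169) b22824 (.hit (nat_lit 125) (nat_lit 15) (nat_lit 0x1780002f00005fd096bf61b97f26b2fde71) b22825 (.nil))) (.tok (nat_lit 9) (nat_lit 0x1780002f00005fcacebf82617f45fafe6aa) (.hit (nat_lit 126) (nat_lit 20) (nat_lit 0x1780002f00005fc784bf580d7f2daafdaeb) b22822 (.hit (nat_lit 127) (nat_lit 28) (nat_lit 0x1780002f00005fcacebf82617f45fafe6aa) b22823 (.nil))) (.nil))))) (.tok (nat_lit 23) (nat_lit 0x1780002f00005fcc28bf82617f4b82fe6aa) (.hit (nat_lit 128) (nat_lit 0) (nat_lit 0x1780002f00005fc4b8bf6ad97f3bdafe0c8) b22826 (.one (nat_lit 3) (nat_lit 129) (nat_lit 1) (nat_lit 0x1780002f00005fb5ecbf2ba17efe62fd51d) b22827 (.tok (nat_lit 6)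 (nat_lit 0x1780002f00005fbffebf7fc57f31bafe603) (.hit (nat_lit 130) (nat_lit 7) (nat_lit 0x1780002f00005fbdeebf48757f23fafdcd8) b22830 (.hit (nat_lit 131) (nat_lit 15) (nat_lit 0x1780002f00005fbffebf7fc57f31bafe603) b22831 (.nil))) (.tok (nat_lit 9) (nat_lit 0x1780002f00005fcc28bf82617f4b82fe6aa) (.hit (nat_lit 132) (nat_lit 20) (nat_lit 0x1780002f00005f9908bf3fdd7e5f5afd609) b22828 (.hit (nat_lit 133) (nat_lit 28) (nat_lit 0x1780002f00005fcc28bf82617f4b82fe6aa) b22829 (.nil))) (.nil))))) (.tok (nat_lit 38) (nat_lit 0x1780002f00005fda5ebfab1d7f9d62ff160) (.hit (nat_lit 215) (nat_lit 0) (nat_lit 0x1780002f00005fda5ebfab1d7f9d62ff160) b22867 (.one (nat_lit 3) (nat_lit 216) (nat_lit 1) (nat_lit 0x1780002f00005f62dcbed3857d86aafbaf3) b22868 (.tok (nat_lit 6) (nat_lit 0x1780002f00005f9914bf3ff57e5f8afd60f) (.hit (nat_lit 217) (nat_lit 7) (nat_lit 0x1780002f00005f9914bf3ff57e5f8afd60f)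 b22858 (.hit (nat_lit 218) (nat_lit 15) (nat_lit 0x1780002f00005f7396bef4f97dc992fc350) b22871 (.nil))) (.tok (nat_lit 9) (nat_lit 0x1780002f00005f7a4ebf02697de472fc6ac) (.hit (nat_lit 219) (nat_lit 20) (nat_lit 0x1780002f00005f7a4ebf02697de472fc6ac) b22869 (.hit (nat_lit 220) (nat_lit 28) (nat_lit 0x1780002f00005f739ebef5097dc9b2fc354) b22870 (.nil))) (.nil))))) (.tok (nat_lit 41) (nat_lit 0x1780002f00005fd9a0bfbfe17f9baaff19f) (.hit (nat_lit 226) (nat_lit 0) (nat_lit 0x1780002f00005fccc0bf5e817f3c92fde3c) b22872 (.one (nat_lit 3) (nat_lit 227) (nat_lit 1) (nat_lit 0x1780002f00005fb56abf4dc57ee162fd3e3) b22873 (.tok (nat_lit 6) (nat_lit 0x1780002f00005fd9a0bf7df97f927afe675) (.hit (nat_lit 228) (nat_lit 7) (nat_lit 0x1780002f00005fd9a0bf7df97f927afe675) b22876 (.hit (nat_lit 229) (nat_lit 15) (nat_lit 0x1780002f00005fcd86bf5f497f1a6afdde4) b22877 (.nil))) (.tok (nat_lit 9) (nat_lit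 0x1780002f00005fd530bfbfe17f9baaff19f) (.hit (nat_lit 230) (nat_lit 20) (nat_lit 0x1780002f00005fd530bfbfe17f9baaff19f) b22874 (.hit (nat_lit 231) (nat_lit 28) (nat_lit 0x1780002f00005fca0cbf83417f361afe60c) b22875 (.nil))) (.nil))))) (.tok (nat_lit 44) (nat_lit 0x1780002f0000600000c0000180000300000) (.hit (nat_lit 240) (nat_lit 0) (nat_lit 0x1780002f00005ff5f8bfd5417fbda2ff4cf) b22878 (.one (nat_lit 3) (nat_lit 241) (nat_lit 1) (nat_lit 0x1780002f00005fafd4bf49c57ec8fafd5ce) b22879 (.tok (nat_lit 6) (nat_lit 0x1780002f00005fe498bfabb97fbca2ff1c4) (.hit (nat_lit 242) (nat_lit 7) (nat_lit 0x1780002f00005fe498bfabb97fbca2ff1c4) b22882 (.hit (nat_lit 243) (nat_lit 15) (nat_lit 0x1780002f00005fb860bf761d7eeefafdbe0) b22883 (.nil))) (.tok (nat_lit 9) (nat_lit 0x1780002f0000600000c0000180000300000) (.hit (nat_lit 244) (nat_lit 20) (nat_lit 0x1780002f0000600000c0000180000300000) b22880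 (.hit (nat_lit 245) (nat_lit 28) (nat_lit 0x1780002f00005fc360bf428d7ed26afd4ff) b22881 (.nil))) (.nil))))) (.tok (nat_lit 47) (nat_lit 0x1780002f00005ff0d2bfe2157ff052ffa82) (.hit (nat_lit 254) (nat_lit 0) (nat_lit 0x1780002f00005ff0d2bfb5297fb2bafee45) b22884 (.one (nat_lit 3) (nat_lit 255) (nat_lit 1) (nat_lit 0x1780002f00005f9a8ebef7157e525afc167) b22885 (.tok (nat_lit 6) (nat_lit 0x1780002f00005fda2cbfe2157ff052ffa82) (.hit (nat_lit 256) (nat_lit 7) (nat_lit 0x1780002f00005fda2cbfe2157ff052ffa82) b22888 (.hit (nat_lit 257) (nat_lit 15) (nat_lit 0x1780002f00005fc3d0bf75a57f1f8afe37b) b22889 (.nil))) (.tok (nat_lit 9) (nat_lit 0x1780002f00005fdffabf80897fa0a2febb5) (.hit (nat_lit 258) (nat_lit 20) (nat_lit 0x1780002f00005fdffabf80897fa0a2febb5) b22886 (.hit (nat_lit 259) (nat_lit 28) (nat_lit 0x1780002f00005fbe3abf519d7f070afd8db) b22887 (.nil))) (.nil))))) (.tok (nat_lit 50)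 (nat_lit 0x1780002f00005fb0c8bf38917eb21afd111) (.hit (nat_lit 146) (nat_lit 0) (nat_lit 0x1780002f00005fb0c8bf38917eb21afd087) b22844 (.one (nat_lit 3) (nat_lit 147) (nat_lit 1) (nat_lit 0x1780002f00005f6328bed41d7d87dafbb19) b22845 (.tok (nat_lit 6) (nat_lit 0x1780002f00005f8f18bf2bfd7e379afd111) (.hit (nat_lit 148) (nat_lit 7) (nat_lit 0x1780002f00005f8f18bf2bfd7e379afd111) b22848 (.hit (nat_lit 149) (nat_lit 15) (nat_lit 0x1780002f00005f733ebef4497dc832fc324) b22849 (.nil))) (.tok (nat_lit 9) (nat_lit 0x1780002f00005f76d2befb717dd682fc4ee) (.hit (nat_lit 150) (nat_lit 20) (nat_lit 0x1780002f00005f76d2befb717dd682fc4ee) b22846 (.hit (nat_lit 151) (nat_lit 28) (nat_lit 0x1780002f00005f6edabeeb817db6a2fc0f2) b22847 (.nil))) (.nil))))) (.tok (nat_lit 53) (nat_lit 0x1780002f00005fc7dabf88a57f5c82fe6d5) (.hit (nat_lit 152) (nat_lit 0) (nat_lit 0x1780002f00005fbf56bf86bd7f3deafe6d5)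 b22850 (.one (nat_lit 3) (nat_lit 153) (nat_lit 1) (nat_lit 0x1780002f00005fb3b2bf74117ee67afd258) b22851 (.tok (nat_lit 6) (nat_lit 0x1780002f00005fc7dabf88a57f5c82fe4d5) (.hit (nat_lit 154) (nat_lit 7) (nat_lit 0x1780002f00005fc7dabf88a57f5c82fe41f) b22854 (.hit (nat_lit 155) (nat_lit 15) (nat_lit 0x1780002f00005fc4cebf820d7f359afe4d5) b22855 (.nil))) (.tok (nat_lit 9) (nat_lit 0x1780002f00005fc064bf5bd17f0202fdd06) (.hit (nat_lit 156) (nat_lit 20) (nat_lit 0x1780002f00005fa702bf5bd17e9742fdd06) b22852 (.hit (nat_lit 157) (nat_lit 28) (nat_lit 0x1780002f00005fc064bf579d7f0202fd377) b22853 (.nil))) (.nil))))) (.tok (nat_lit 56) (nat_lit 0x1780002f00005faad4bf63757ea68afdeef) (.hit (nat_lit 164) (nat_lit 0) (nat_lit 0x1780002f00005fa556bf42f57e7d0afd6cf) b22856 (.one (nat_lit 3) (nat_lit 165) (nat_lit 1) (nat_lit 0x1780002f00005f6280bed2cd7d853afbac5) b22857 (.tok (nat_lit 6)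 (nat_lit 0x1780002f00005f91aabf31217e41e2fd25a) (.hit (nat_lit 166) (nat_lit 7) (nat_lit 0x1780002f00005f91aabf31217e41e2fd25a) b22860 (.hit (nat_lit 167) (nat_lit 15) (nat_lit 0x1780002f00005f655cbed8857d90aafbc33) b22861 (.nil))) (.tok (nat_lit 9) (nat_lit 0x1780002f00005faad4bf63757ea68afdeef) (.hit (nat_lit 168) (nat_lit 20) (nat_lit 0x1780002f00005f9914bf3ff57e5f8afd60f) b22858 (.hit (nat_lit 169) (nat_lit 28) (nat_lit 0x1780002f00005faad4bf63757ea68afdeef) b22859 (.nil))) (.nil))))) (.tok (nat_lit 59) (nat_lit 0x1780002f00005fbbe6bf37f97e9e0afd410) (.hit (nat_lit 158) (nat_lit 0) (nat_lit 0x1780002f00005fbbe6bf37c97e9e0afd404) b22862 (.one (nat_lit 3) (nat_lit 159) (nat_lit 1) (nat_lit 0x1780002f00005f6280bed2cd7d853afbac5) b22857 (.tok (nat_lit 6) (nat_lit 0x1780002f00005f9516bf37f97e4f92fd410) (.hit (nat_lit 160) (nat_lit 7) (nat_lit 0x1780002f00005f8baebf25297e29f2fcf5c)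 b22865 (.hit (nat_lit 161) (nat_lit 15) (nat_lit 0x1780002f00005f9516bf37f97e4f92fd410) b22866 (.nil))) (.tok (nat_lit 9) (nat_lit 0x1780002f00005f8e24bf2a157e33cafd097) (.hit (nat_lit 162) (nat_lit 20) (nat_lit 0x1780002f00005f8e24bf2a157e33cafd097) b22863 (.hit (nat_lit 163) (nat_lit 28) (nat_lit 0x1780002f00005f75c2bef9517dd242fc466) b22864 (.nil))) (.nil))))) (.nil))))))))))))
noncomputable def r23_25 : Rw Blk := .tok (nat_lit 3) (nat_lit 0x1780002f00005fcf0abf5cf57edd82fdd54) (.hit (nat_lit 18) (nat_lit 0) (nat_lit 0x1780002f00005fcf0abf5cf57edd82fdd54) b22903 (.tok (nat_lit 6) (nat_lit 0x1780002f00005fb790bf44a97e6a6afd609) (.hit (nat_lit 19) (nat_lit 7) (nat_lit 0x1780002f00005faee2bf334d7e47b2fd1b2) b22906 (.hit (nat_lit 20) (nat_lit 15) (nat_lit 0x1780002f00005fb790bf44a97e6a6afd609) b22907 (.nil))) (.tok (nat_lit 9) (nat_lit 0x1780002f00005fae1ebf31c57e44a2fd150) (.hit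 (nat_lit 21) (nat_lit 20) (nat_lit 0x1780002f00005fae1ebf31c57e44a2fd150) b22904 (.hit (nat_lit 22) (nat_lit 28) (nat_lit 0x1780002f00005fabcebf2d257e3b62fd028) b22905 (.nil))) (.nil)))) (.tok (nat_lit 6) (nat_lit 0x1780002f0000600000c0000180000300000) (.hit (nat_lit 9) (nat_lit 0) (nat_lit 0x1780002f00005fcf30c000017fc6faff499) b22895 (.tok (nat_lit 3) (nat_lit 0x1780002f00005fe660bfdd71800002ff9ce) (.hit (nat_lit 10) (nat_lit 1) (nat_lit 0x1780002f00005fc442bf83157f1a6afe2c5) b22896 (.one (nat_lit 67) (nat_lit 11) (nat_lit 2) (nat_lit 0x1780002f00005fe660bfdd71800002ff9ce) b22897 (.nil))) (.tok (nat_lit 6) (nat_lit 0x1780002f0000600000bfd48d7feccb00000) (.hit (nat_lit 12) (nat_lit 7) (nat_lit 0x1780002f00005fb750bf733d7ed66afdf6b) b22898 (.hit (nat_lit 16) (nat_lit 15) (nat_lit 0x1780002f00005fc47cbf70f57f143afe0d9) b22901 (.tok (nat_lit 55) (nat_lit 0x1780002f0000600000bfd48d7feccb00000)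 (.hit (nat_lit 13) (nat_lit 8) (nat_lit 0x1780002f0000600000bfc1c97f911aff75c) b22899 (.hit (nat_lit 17) (nat_lit 16) (nat_lit 0x1780002f00005ffa96bfd48d7feccb00000) b22902 (.one (nat_lit 6) (nat_lit 14) (nat_lit 9) (nat_lit 0x1780002f00005fefe6bfa73d7f753aff0da) b22900 (.nil)))) (.nil)))) (.nil)))) (.tok (nat_lit 9) (nat_lit 0x1780002f00005fef74bfc9757fb42aff9f8) (.hit (nat_lit 0) (nat_lit 0) (nat_lit 0x1780002f00005fe3f6bfc40d7fb42aff9f8) b22890 (.tok (nat_lit 3) (nat_lit 0x1780002f00005fef74bfc9757f6eaaff9df) (.hit (nat_lit 1) (nat_lit 1) (nat_lit 0x1780002f00005fb5b4bf777d7ef292fe473) b22891 (.one (nat_lit 55) (nat_lit 2) (nat_lit 3) (nat_lit 0x1780002f00005fef74bfc9757f6eaaff9df) b22892 (.nil))) (.tok (nat_lit 9) (nat_lit 0x1780002f00005fe8dcbf92e97f40dafeb22) (.hit (nat_lit 3) (nat_lit 20) (nat_lit 0x1780002f00005fe8dcbf88c17f40dafe376) b22893 (.hit (nat_lit 7) (nat_lit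 28) (nat_lit 0x1780002f00005fc60ebf92e97f190afeb22) b22894 (.nil))) (.nil)))) (.nil)))
noncomputable def r23_26 : Rw Blk := .tok (nat_lit 3) (nat_lit 0x1780002f00005fa6e8bf48b57ed2dafd1f3) (.hit (nat_lit 14) (nat_lit 0) (nat_lit 0x1780002f00005fa6e8bf48b57ed2dafd1f3) b22921 (.tok (nat_lit 6) (nat_lit 0x1780002f00005f89a6bf1ec57e3a02fc630) (.hit (nat_lit 15) (nat_lit 7) (nat_lit 0x1780002f00005f89a6bf1ec57e3a02fc630) b22924 (.hit (nat_lit 16) (nat_lit 15) (nat_lit 0x1780002f00005f82ccbf11117e1e9afc2c3) b22925 (.nil))) (.tok (nat_lit 9) (nat_lit 0x1780002f00005f7538bef5e97de84afbbf9) (.hit (nat_lit 17) (nat_lit 20) (nat_lit 0x1780002f00005f6a5abee02d7dbcd2fb68a) b22922 (.hit (nat_lit 18) (nat_lit 28) (nat_lit 0x1780002f00005f7538bef5e97de84afbbf9) b22923 (.nil))) (.nil)))) (.tok (nat_lit 6) (nat_lit 0x1780002f0000600000c0122580000300322) (.hit (nat_lit 9) (nat_lit 0) (nat_lit 0x1780002f00005fcf66bfbbe57f307afed75)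 b22916 (.tok (nat_lit 3) (nat_lit 0x1780002f0000600000c0122580000300322) (.hit (nat_lit 10) (nat_lit 1) (nat_lit 0x1780002f00005fcfaabfca757f97f2ff143) b22917 (.one (nat_lit 67) (nat_lit 11) (nat_lit 2) (nat_lit 0x1780002f0000600000c0122580000300322) b22918 (.nil))) (.tok (nat_lit 6) (nat_lit 0x1780002f00005fe4f4bfc7057fc6d2ff22e) (.hit (nat_lit 12) (nat_lit 7) (nat_lit 0x1780002f00005fe4f4bfc7057fc6d2fee80) b22919 (.hit (nat_lit 13) (nat_lit 15) (nat_lit 0x1780002f00005fbec0bfc0457fa1f2ff22e) b22920 (.nil))) (.nil)))) (.tok (nat_lit 9) (nat_lit 0x1780002f00005fc28ebf8d917f179afe1e3) (.hit (nat_lit 0) (nat_lit 0) (nat_lit 0x1780002f00005fc28ebf74997f0b4afdc6f) b22908 (.tok (nat_lit 3) (nat_lit 0x1780002f00005fab16bf61a57ebfc2fd6e8) (.hit (nat_lit 1) (nat_lit 1) (nat_lit 0x1780002f00005f85ccbf17117e2a9afc443) b22909 (.one (nat_lit 55) (nat_lit 2) (nat_lit 3) (nat_lit 0x1780002f00005fab16bf61a57ebfc2fd6e8)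 b22910 (.nil))) (.tok (nat_lit 9) (nat_lit 0x1780002f00005fc10cbf8d917f179afe1e3) (.hit (nat_lit 3) (nat_lit 20) (nat_lit 0x1780002f00005f7ce0bf05397e06eafbfcd) b22911 (.hit (nat_lit 7) (nat_lit 28) (nat_lit 0x1780002f00005f8798bf1aa97e31cafc529) b22914 (.tok (nat_lit 67) (nat_lit 0x1780002f00005fc10cbf8d917f179afe1e3) (.hit (nat_lit 4) (nat_lit 21) (nat_lit 0x1780002f00005faba4bf62c17ec1fafd72f) b22912 (.hit (nat_lit 8) (nat_lit 29) (nat_lit 0x1780002f00005fc10cbf8d917f179afe1e3) b22915 (.one (nat_lit 9) (nat_lit 5) (nat_lit 22) (nat_lit 0x1780002f00005fa10abf4d8d7e9792fd1e2) b22913 (.nil)))) (.nil)))) (.nil)))) (.nil)))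
noncomputable def r24_0 : Rw Blk := .tok (nat_lit 3) (nat_lit 0x5fc4eabf76f97f9bdafdb885fc730bf7c057ecfcafddb75fb678bf896d7eeffafe297) (.hit (nat_lit 0) (nat_lit 0) (nat_lit 0x5f7b96bf08357e96a2fccfb5f9dbebf2ac57e436afcca75f9418bf3d617e6342fd174) b36036 (.tok (nat_lit 6) (nat_lit 0x5f7d62befc797f6d0afc6235f870abf3d017e2c8afd0e15f915abf46397e78a2fd0cd) (.hit (nat_lit 1) (nat_lit 7) (nat_lit 0x5f54b0beab157ebf9afb1ca5f5e58beeb9d7d89c2fbc885f68a8bef4d57dd5dafbc74) b22927 (.hit (nat_lit 6) (nat_lit 15) (nat_lit 0x5f4fd2bea1597e63eafaf5b5f597abee1e17d764afba195f63cabeeb197dc262fba05) b22930 (.tok (nat_lit 56) (nat_lit 0x5f7d62befc797f6d0afc6235f870abf3d017e2c8afd0e15f915abf46397e78a2fd0cd) (.hit (nat_lit 4) (nat_lit 13) (nat_lit 0x5f6d12bedbd97f121afbdfb5f76babf1c617deb4afc8b95f810abf25997e3762fc8a5) b22928 (.hit (nat_lit 9) (nat_lit 19) (nat_lit 0x5f64dabecb697eba3afb9df5f6e82bf0bf17dca6afc49d5f78d2bf15297e1682fc489)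 b22932 (.one (nat_lit 6) (nat_lit 5) (nat_lit 14) (nat_lit 0x5f7d62befc797f6d0afc6235f870abf3d017e2c8afd0e15f915abf46397e78a2fd0cd) b22929 (.nil)))) (.one (nat_lit 68) (nat_lit 8) (nat_lit 18) (nat_lit 0x5f7a2cbef60d7f117afc4885f83d4bf36957e1fb2fcf465f8e24bf3fcd7e6bcafcf32) b22931 (.nil))))) (.tok (nat_lit 52) (nat_lit 0x5f67cebed1517ef0c2fbb595f7176bf11d97dd63afc6175f7bc6bf1b117e2252fc603) (.hit (nat_lit 19) (nat_lit 39) (nat_lit 0x5f617abec4a97e86cafb82f5f6b22bf05317dbceafc2ed5f7572bf0e697e0902fc2d9) b22933 (.hit (nat_lit 20) (nat_lit 40) (nat_lit 0x5f67cebed1517ef0c2fbb595f7176bf11d97dd63afc6175f7bc6bf1b117e2252fc603) b22934 (.nil))) (.tok (nat_lit 55) (nat_lit 0x5fc4eabf76f97f9bdafdb885fc730bf7c057ecfcafddb75fb678bf896d7eeffafe297) (.hit (nat_lit 21) (nat_lit 41) (nat_lit 0x5fc4eabf6aad7f9bdafdb885fc730bf7c057ecf7afdd905fb678bf896d7eeffafe297) b22935 (.one (nat_lit 3) (nat_lit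 27) (nat_lit 47) (nat_lit 0x5f79bebef5317f46fafc4515f8366bf35b97e1dfafcf0f5f8db6bf3ef17e6a12fcefb) b22941 (.tok (nat_lit 6) (nat_lit 0x5fab82bf76f97f6f4afd3cd5faf36bf76c57ecfcafddb75fb3babf83bd7eea6afdfdf) (.hit (nat_lit 22) (nat_lit 42) (nat_lit 0x5f8f38bf373d7f2dc2fcafe5fa006bf4a557e6002fd4365f9804bf59dd7e934afd49b) b22936 (.hit (nat_lit 25) (nat_lit 45) (nat_lit 0x5f7a70bef6957f2562fc4aa5f8418bf371d7e20c2fcf685f8e68bf40557e6cdafcf54) b22939 (.tok (nat_lit 55) (nat_lit 0x5fab82bf76f97f6f4afd3cd5faf36bf76c57ecfcafddb75fb3babf83bd7eea6afdfdf) (.hit (nat_lit 23) (nat_lit 43) (nat_lit 0x5fab82bf76f97f3572fd3cd5faf36bf76c57ecfcafddb75fb3babf83bd7eea6afdfdf) b22937 (.hit (nat_lit 26) (nat_lit 46) (nat_lit 0x5f8f84bf20bd7f6f4afcf345f992cbf61457e7512fd9f25fa37cbf6a7d7ec12afd9de) b22940 (.one (nat_lit 6) (nat_lit 24) (nat_lit 44) (nat_lit 0x5f8c56bf1a617f2e3afcd9d5f95febf5ae97e685afd85b5fa04ebf64217eb472fd847)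 b22938 (.nil)))) (.nil)))) (.nil)))) (.one (nat_lit 58) (nat_lit 29) (nat_lit 49) (nat_lit 0x5f782ebef2117f26a2fc3895f81d6bf32997e17bafce475f8c26bf3bd17e63d2fce33) b22942 (.nil)))))) (.tok (nat_lit 9) (nat_lit 0x600136c0000180518b00000600aa4c0000180000300551600000c0000180000300000) (.hit (nat_lit 157) (nat_lit 0) (nat_lit 0x5fa420bf727d7ef592fdf1b5fd0d2bf79497ecabafdf105fbfeebf94e17f122afe4ca) b22943 (.tok (nat_lit 9) (nat_lit 0x5fc3b0bfbba17f87c2fecc05f980ebf98f57f2292fd9635fce74bf96357f3a92fe16a) (.hit (nat_lit 163) (nat_lit 20) (nat_lit 0x5f9090bf42997eb612fd6295f74bcbf2ea17e8af2fc7ba5fa3c8bf32697e63aafc813) b22944 (.hit (nat_lit 171) (nat_lit 28) (nat_lit 0x5f7558bed8997e9e62fb5d55f3d54becdc57db16afb2435f686cbee5d97db582fb8fc) b22947 (.one (nat_lit 56) (nat_lit 174) (nat_lit 31) (nat_lit 0x5f9e86bf2e417f2aa2fcb585f67cebf22c57e4f62fc7c65f9534bf3b957e6102fce5e) b22948 (.tok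 (nat_lit 68) (nat_lit 0x5fc3b0bfbba17f87c2fecc05f980ebf98f57f2292fd9635fce74bf96357f3a92fe16a) (.hit (nat_lit 169) (nat_lit 26) (nat_lit 0x5fc3b0bf9de57f8252fecc05f9232bf98f57f2292fd7c55fce74bf96357f3a92fe16a) b22945 (.hit (nat_lit 175) (nat_lit 32) (nat_lit 0x5f9f26bf2c457eeb82fcb215f65a4bf20897e4ac2fc7835f93d4bf39417e5ceafcdc9) b22949 (.one (nat_lit 9) (nat_lit 170) (nat_lit 27) (nat_lit 0x5fafd6bfbba17f87c2fd3905f980ebf5f097e9e4afd9635fa55abf68417ebcb2fd94f) b22946 (.nil)))) (.nil))))) (.tok (nat_lit 64) (nat_lit 0x5fa954bf7dbd7f296afd3e25f7938bf413d7e8c62fcf8f5fa428bf5a1d7e9da2fd600) (.hit (nat_lit 182) (nat_lit 50) (nat_lit 0x5fa4eebf7dbd7f207afd2da5f7938bf413d7e8c62fcf8f5fa428bf5a1d7e9da2fd600) b22950 (.hit (nat_lit 183) (nat_lit 51) (nat_lit 0x5fa954bf636d7f296afd3e25f7624bf36917e6dc2fce505fa11abf4db97e8e2afd2fa) b22951 (.nil))) (.tok (nat_lit 67) (nat_lit 0x600136c0000180518b00000600aa4c0000180000300551600000c0000180000300000)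 (.hit (nat_lit 184) (nat_lit 52) (nat_lit 0x5fee22bfef5d7fd8bb00000600aa4c000017fbdeaff8cb5ff400c00001800002ffe46) b22952 (.one (nat_lit 3) (nat_lit 190) (nat_lit 58) (nat_lit 0x5fdaa2bfad897fc32aff5105f938abfdbb17faacafe5f25fe2b2bff6c97fb42aff450) b22958 (.tok (nat_lit 9) (nat_lit 0x600136c0000180518aff5a25faa86bfcc8180000300551600000bff7797fe62300000) (.hit (nat_lit 185) (nat_lit 53) (nat_lit 0x5fd5f2bf87717f7b62fe2655f90f4bf887d7f6072fed965fd690bfa2417f42a2fe801) b22953 (.hit (nat_lit 188) (nat_lit 56) (nat_lit 0x5fbcb2bfa41d8006dafdd615f92e4bf5fe57eb8dafd7fb5fb01ebf74717ee34afdca8) b22956 (.tok (nat_lit 67) (nat_lit 0x600136c0000180518aff5a25faa86bfcc8180000300551600000bff7797fe62300000) (.hit (nat_lit 186) (nat_lit 54) (nat_lit 0x600136bfe6518036eaff5435faa86bfb6218000030048f5ff738bfec557fe102ffaa4) b22954 (.hit (nat_lit 189) (nat_lit 57) (nat_lit 0x5fdb4ac0000180518afecde5fa4e8bf9d3d7f31c2fe79a5fce70bfb0157f5652febe9)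 b22957 (.one (nat_lit 9) (nat_lit 187) (nat_lit 55) (nat_lit 0x5ffc38bfcc7580250aff5a25f7c0abfcc817ffd5b00551600000bff7797fe62300000) b22955 (.nil)))) (.nil)))) (.nil)))) (.one (nat_lit 70) (nat_lit 192) (nat_lit 60) (nat_lit 0x5fba96bf75f57fb14afdcce5f7abcbf5a597eb552fd7385fb440bf71817ed492fdbec) b22959 (.nil)))))) (.nil))
noncomputable def r24_1 : Rw Blk := .tok (nat_lit 6) (nat_lit 0xbc0001780002fffe8) (.hit (nat_lit 51) (nat_lit 0) (nat_lit 0xbc0001780002fe878) b22960 (.one (nat_lit 26) (nat_lit 73) (nat_lit 72) (nat_lit 0xbc0001780002fd862) b22961 (.one (nat_lit 29) (nat_lit 74) (nat_lit 73) (nat_lit 0xbc0001780002fd786) b22962 (.one (nat_lit 32) (nat_lit 75) (nat_lit 74) (nat_lit 0xbc0001780002fd60b) b22964 (.one (nat_lit 35) (nat_lit 76) (nat_lit 75) (nat_lit 0xbc0001780002fe09a) b22963 (.one (nat_lit 38) (nat_lit 77) (nat_lit 76) (nat_lit 0xbc0001780002fe6eb) b22965 (.tok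 (nat_lit 41) (nat_lit 0xbc0001780002fe995) (.hit (nat_lit 78) (nat_lit 77) (nat_lit 0xbc0001780002fe123) b22966 (.hit (nat_lit 79) (nat_lit 78) (nat_lit 0xbc0001780002fe995) b22967 (.nil))) (.tok (nat_lit 44) (nat_lit 0xbc0001780002febe3) (.hit (nat_lit 80) (nat_lit 79) (nat_lit 0xbc0001780002febe3) b22970 (.hit (nat_lit 81) (nat_lit 80) (nat_lit 0xbc0001780002fdfa4) b22971 (.nil))) (.tok (nat_lit 47) (nat_lit 0xbc0001780002fec3e) (.hit (nat_lit 82) (nat_lit 81) (nat_lit 0xbc0001780002fb6db) b22968 (.hit (nat_lit 83) (nat_lit 82) (nat_lit 0xbc0001780002fec3e) b22969 (.nil))) (.one (nat_lit 50) (nat_lit 84) (nat_lit 83) (nat_lit 0xbc0001780002fe6f7) b22981 (.tok (nat_lit 53) (nat_lit 0xbc0001780002fe7dd) (.hit (nat_lit 85) (nat_lit 84) (nat_lit 0xbc0001780002fceab) b22982 (.hit (nat_lit 86) (nat_lit 85) (nat_lit 0xbc0001780002fe7dd) b22983 (.nil))) (.tok (nat_lit 56) (nat_lit 0xbc0001780002fffe8)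 (.hit (nat_lit 87) (nat_lit 86) (nat_lit 0xbc0001780002fff51) b22984 (.one (nat_lit 3) (nat_lit 91) (nat_lit 90) (nat_lit 0xbc0001780002fffe8) b22988 (.tok (nat_lit 6) (nat_lit 0xbc0001780002ff76c) (.hit (nat_lit 89) (nat_lit 88) (nat_lit 0xbc0001780002ff76c) b22986 (.hit (nat_lit 90) (nat_lit 89) (nat_lit 0xbc0001780002fec60) b22987 (.nil))) (.one (nat_lit 9) (nat_lit 88) (nat_lit 87) (nat_lit 0xbc0001780002ff517) b22985 (.nil))))) (.one (nat_lit 59) (nat_lit 92) (nat_lit 91) (nat_lit 0xbc0001780002fe074) b22989 (.one (nat_lit 62) (nat_lit 93) (nat_lit 92) (nat_lit 0xbc0001780002fdf6f) b22972 (.tok (nat_lit 65) (nat_lit 0xbc0001780002fe6dd) (.hit (nat_lit 94) (nat_lit 93) (nat_lit 0xbc0001780002fda98) b22973 (.hit (nat_lit 95) (nat_lit 94) (nat_lit 0xbc0001780002fe6dd) b22974 (.nil))) (.tok (nat_lit 68) (nat_lit 0xbc0001780002fe851) (.hit (nat_lit 96) (nat_lit 95) (nat_lit 0xbc0001780002fe851)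 b22975 (.one (nat_lit 3) (nat_lit 100) (nat_lit 99) (nat_lit 0xbc0001780002fcf09) b22979 (.one (nat_lit 6) (nat_lit 97) (nat_lit 96) (nat_lit 0xbc0001780002fd6f4) b22976 (.tok (nat_lit 9) (nat_lit 0xbc0001780002fd9ac) (.hit (nat_lit 98) (nat_lit 97) (nat_lit 0xbc0001780002fd9ac) b22977 (.hit (nat_lit 99) (nat_lit 98) (nat_lit 0xbc0001780002fd461) b22978 (.nil))) (.nil))))) (.one (nat_lit 71) (nat_lit 101) (nat_lit 100) (nat_lit 0xbc0001780002fdfd9) b22980 (.nil)))))))))))))))))) (.tok (nat_lit 52) (nat_lit 0xbc000178000300c76) (.hit (nat_lit 225) (nat_lit 0) (nat_lit 0xbc000178000300962) b22990 (.tok (nat_lit 6) (nat_lit 0xbc000178000300c76) (.hit (nat_lit 226) (nat_lit 7) (nat_lit 0xbc000178000300c76) b22993 (.hit (nat_lit 227) (nat_lit 15) (nat_lit 0xbc0001780002ff560) b22994 (.nil))) (.tok (nat_lit 9) (nat_lit 0xbc0001780002ff01f) (.hit (nat_lit 228) (nat_lit 20) (nat_lit 0xbc0001780002fda4e)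 b22991 (.hit (nat_lit 229) (nat_lit 28) (nat_lit 0xbc0001780002ff01f) b22992 (.nil))) (.nil)))) (.tok (nat_lit 55) (nat_lit 0xbc0001780002ff939) (.hit (nat_lit 250) (nat_lit 0) (nat_lit 0xbc0001780002ff939) b23002 (.one (nat_lit 3) (nat_lit 251) (nat_lit 1) (nat_lit 0xbc0001780002fd438) b23003 (.tok (nat_lit 6) (nat_lit 0xbc0001780002fe6e4) (.hit (nat_lit 253) (nat_lit 7) (nat_lit 0xbc0001780002fda3b) b23004 (.hit (nat_lit 256) (nat_lit 15) (nat_lit 0xbc0001780002fd325) b23007 (.tok (nat_lit 55) (nat_lit 0xbc0001780002fe6e4) (.hit (nat_lit 254) (nat_lit 8) (nat_lit 0xbc0001780002fde0e) b23005 (.hit (nat_lit 257) (nat_lit 16) (nat_lit 0xbc0001780002fe6e4) b23008 (.one (nat_lit 6) (nat_lit 255) (nat_lit 9) (nat_lit 0xbc0001780002fe45a) b23006 (.nil)))) (.nil)))) (.nil)))) (.tok (nat_lit 58) (nat_lit 0xbc00017800030027f) (.hit (nat_lit 236) (nat_lit 0) (nat_lit 0xbc00017800030027f)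 b22995 (.one (nat_lit 3) (nat_lit 237) (nat_lit 1) (nat_lit 0xbc0001780002fd3ce) b22996 (.tok (nat_lit 9) (nat_lit 0xbc000178000300161) (.hit (nat_lit 239) (nat_lit 20) (nat_lit 0xbc0001780002fe0ff) b22997 (.hit (nat_lit 242) (nat_lit 28) (nat_lit 0xbc0001780002fd9bc) b23000 (.tok (nat_lit 67) (nat_lit 0xbc000178000300161) (.hit (nat_lit 240) (nat_lit 21) (nat_lit 0xbc0001780002fec12) b22998 (.hit (nat_lit 243) (nat_lit 29) (nat_lit 0xbc0001780002ff0bd) b23001 (.one (nat_lit 9) (nat_lit 241) (nat_lit 22) (nat_lit 0xbc000178000300161) b22999 (.nil)))) (.nil)))) (.nil)))) (.nil))))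
noncomputable def r24_2 : Rw Blk := .tok (nat_lit 3) (nat_lit 0xbc0001780002ff6c1) (.hit (nat_lit 15) (nat_lit 0) (nat_lit 0xbc0001780002ff6c1) b23023 (.tok (nat_lit 9) (nat_lit 0xbc0001780002fe4a9) (.hit (nat_lit 16) (nat_lit 20) (nat_lit 0xbc0001780002fd1de) b23024 (.hit (nat_lit 21) (nat_lit 28) (nat_lit 0xbc0001780002fba1c) b23029 (.tok (nat_lit 14) (nat_lit 0xbc0001780002fdd4d) (.hit (nat_lit 17) (nat_lit 24) (nat_lit 0xbc0001780002fcf26) b23025 (.hit (nat_lit 22) (nat_lit 30) (nat_lit 0xbc0001780002fda7d) b23030 (.one (nat_lit 6) (nat_lit 18) (nat_lit 25) (nat_lit 0xbc0001780002fdd4d) b23026 (.nil)))) (.one (nat_lit 56) (nat_lit 23) (nat_lit 31) (nat_lit 0xbc0001780002fd8c7) b23031 (.tok (nat_lit 68) (nat_lit 0xbc0001780002fe4a9) (.hit (nat_lit 19) (nat_lit 26) (nat_lit 0xbc0001780002fda1f) b23027 (.hit (nat_lit 24) (nat_lit 32) (nat_lit 0xbc0001780002fdafa) b23032 (.one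 (nat_lit 9) (nat_lit 20) (nat_lit 27) (nat_lit 0xbc0001780002fe4a9) b23028 (.nil)))) (.nil)))))) (.nil))) (.tok (nat_lit 6) (nat_lit 0xbc000178000302de4) (.hit (nat_lit 0) (nat_lit 0) (nat_lit 0xbc000178000300a95) b23009 (.tok (nat_lit 6) (nat_lit 0xbc0001780003013ed) (.hit (nat_lit 1) (nat_lit 7) (nat_lit 0xbc0001780002ff409) b23010 (.hit (nat_lit 4) (nat_lit 15) (nat_lit 0xbc0001780002fe89c) b23013 (.tok (nat_lit 14) (nat_lit 0xbc0001780003013ed) (.hit (nat_lit 2) (nat_lit 11) (nat_lit 0xbc000178000300dfe) b23011 (.hit (nat_lit 5) (nat_lit 17) (nat_lit 0xbc0001780002ff35c) b23014 (.one (nat_lit 9) (nat_lit 3) (nat_lit 12) (nat_lit 0xbc0001780003013ed) b23012 (.nil)))) (.nil)))) (.tok (nat_lit 52) (nat_lit 0xbc000178000301cf5) (.hit (nat_lit 7) (nat_lit 39) (nat_lit 0xbc00017800030146a) b23015 (.hit (nat_lit 8) (nat_lit 40) (nat_lit 0xbc000178000301cf5) b23016 (.nil))) (.tok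 (nat_lit 55) (nat_lit 0xbc000178000301ddb) (.hit (nat_lit 9) (nat_lit 41) (nat_lit 0xbc0001780003017d0) b23017 (.tok (nat_lit 3) (nat_lit 0xbc000178000301ddb) (.hit (nat_lit 12) (nat_lit 47) (nat_lit 0xbc000178000301048) b23020 (.one (nat_lit 67) (nat_lit 13) (nat_lit 48) (nat_lit 0xbc000178000301ddb) b23021 (.nil))) (.tok (nat_lit 6) (nat_lit 0xbc000178000300bdd) (.hit (nat_lit 10) (nat_lit 42) (nat_lit 0xbc0001780002ffe8f) b23018 (.hit (nat_lit 11) (nat_lit 45) (nat_lit 0xbc000178000300bdd) b23019 (.nil))) (.nil)))) (.one (nat_lit 58) (nat_lit 14) (nat_lit 49) (nat_lit 0xbc000178000302de4) b23022 (.nil)))))) (.nil))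
noncomputable def r24_3 : Rw Blk := .tok (nat_lit 9) (nat_lit 0xbc000178000300024) (.hit (nat_lit 0) (nat_lit 0) (nat_lit 0xbc0001780002fe8da) b23033 (.one (nat_lit 26) (nat_lit 32) (nat_lit 72) (nat_lit 0xbc0001780002fe154) b23034 (.one (nat_lit 29) (nat_lit 33) (nat_lit 73) (nat_lit 0xbc0001780002fe696) b23035 (.one (nat_lit 32) (nat_lit 34) (nat_lit 74) (nat_lit 0xbc0001780002ff120) b23037 (.one (nat_lit 35) (nat_lit 35) (nat_lit 75) (nat_lit 0xbc0001780002fd99d) b23036 (.one (nat_lit 38) (nat_lit 36) (nat_lit 76) (nat_lit 0xbc0001780002fe6ac) b23038 (.tok (nat_lit 41) (nat_lit 0xbc0001780002fe29f) (.hit (nat_lit 37) (nat_lit 77) (nat_lit 0xbc0001780002fdc50) b23039 (.hit (nat_lit 38) (nat_lit 78) (nat_lit 0xbc0001780002fe29f) b23040 (.nil))) (.tok (nat_lit 44) (nat_lit 0xbc0001780002ffbc0) (.hit (nat_lit 39) (nat_lit 79) (nat_lit 0xbc0001780002fb565) b23043 (.hit (nat_lit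 40) (nat_lit 80) (nat_lit 0xbc0001780002ffbc0) b23044 (.nil))) (.tok (nat_lit 47) (nat_lit 0xbc0001780002ff207) (.hit (nat_lit 41) (nat_lit 81) (nat_lit 0xbc0001780002ff207) b23041 (.hit (nat_lit 42) (nat_lit 82) (nat_lit 0xbc0001780002fe649) b23042 (.nil))) (.one (nat_lit 50) (nat_lit 43) (nat_lit 83) (nat_lit 0xbc0001780002fe117) b23054 (.tok (nat_lit 53) (nat_lit 0xbc0001780002fece7) (.hit (nat_lit 44) (nat_lit 84) (nat_lit 0xbc0001780002fece7) b23055 (.hit (nat_lit 45) (nat_lit 85) (nat_lit 0xbc0001780002fd7b3) b23056 (.nil))) (.tok (nat_lit 56) (nat_lit 0xbc0001780002fdf8e) (.hit (nat_lit 46) (nat_lit 86) (nat_lit 0xbc0001780002fdf8e) b23057 (.one (nat_lit 3) (nat_lit 50) (nat_lit 90) (nat_lit 0xbc0001780002fbc51) b23061 (.tok (nat_lit 6) (nat_lit 0xbc0001780002fce60) (.hit (nat_lit 48) (nat_lit 88) (nat_lit 0xbc0001780002fce60) b23059 (.hit (nat_lit 49) (nat_lit 89) (nat_lit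 0xbc0001780002fc60e) b23060 (.nil))) (.one (nat_lit 9) (nat_lit 47) (nat_lit 87) (nat_lit 0xbc0001780002fc074) b23058 (.nil))))) (.one (nat_lit 59) (nat_lit 51) (nat_lit 91) (nat_lit 0xbc0001780002fe7be) b23062 (.one (nat_lit 62) (nat_lit 52) (nat_lit 92) (nat_lit 0xbc0001780002feffa) b23045 (.tok (nat_lit 65) (nat_lit 0xbc0001780002ffaf0) (.hit (nat_lit 53) (nat_lit 93) (nat_lit 0xbc0001780002ffaf0) b23046 (.hit (nat_lit 54) (nat_lit 94) (nat_lit 0xbc0001780002feee2) b23047 (.nil))) (.tok (nat_lit 68) (nat_lit 0xbc000178000300024) (.hit (nat_lit 55) (nat_lit 95) (nat_lit 0xbc0001780002ffce6) b23048 (.one (nat_lit 3) (nat_lit 59) (nat_lit 99) (nat_lit 0xbc0001780002ff068) b23052 (.one (nat_lit 6) (nat_lit 56) (nat_lit 96) (nat_lit 0xbc000178000300024) b23049 (.tok (nat_lit 9) (nat_lit 0xbc0001780002ffcd9) (.hit (nat_lit 57) (nat_lit 97) (nat_lit 0xbc0001780002ffcd9) b23050 (.hit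 (nat_lit 58) (nat_lit 98) (nat_lit 0xbc0001780002ff6f2) b23051 (.nil))) (.nil))))) (.one (nat_lit 71) (nat_lit 60) (nat_lit 100) (nat_lit 0xbc0001780002fea46) b23053 (.nil)))))))))))))))))) (.tok (nat_lit 64) (nat_lit 0xbc00017800030148d) (.hit (nat_lit 176) (nat_lit 0) (nat_lit 0xbc00017800030148d) b23063 (.tok (nat_lit 6) (nat_lit 0xbc0001780002ffd78) (.hit (nat_lit 177) (nat_lit 7) (nat_lit 0xbc0001780002fe9e0) b23066 (.hit (nat_lit 178) (nat_lit 15) (nat_lit 0xbc0001780002ffd78) b23067 (.nil))) (.tok (nat_lit 9) (nat_lit 0xbc0001780003000a7) (.hit (nat_lit 179) (nat_lit 20) (nat_lit 0xbc0001780003000a7) b23064 (.hit (nat_lit 180) (nat_lit 28) (nat_lit 0xbc0001780002fefc6) b23065 (.nil))) (.nil)))) (.tok (nat_lit 67) (nat_lit 0xbc0001780002ff97c) (.hit (nat_lit 201) (nat_lit 0) (nat_lit 0xbc0001780002ff736) b23068 (.one (nat_lit 3) (nat_lit 202) (nat_lit 1) (nat_lit 0xbc0001780002fd9da)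 b23069 (.tok (nat_lit 9) (nat_lit 0xbc0001780002ff97c) (.hit (nat_lit 204) (nat_lit 20) (nat_lit 0xbc0001780002fe45f) b23070 (.hit (nat_lit 207) (nat_lit 28) (nat_lit 0xbc0001780002fdab0) b23073 (.tok (nat_lit 67) (nat_lit 0xbc0001780002ff97c) (.hit (nat_lit 205) (nat_lit 21) (nat_lit 0xbc0001780002ff347) b23071 (.hit (nat_lit 208) (nat_lit 29) (nat_lit 0xbc0001780002ff32d) b23074 (.one (nat_lit 9) (nat_lit 206) (nat_lit 22) (nat_lit 0xbc0001780002ff97c) b23072 (.nil)))) (.nil)))) (.nil)))) (.tok (nat_lit 70) (nat_lit 0xbc000178000300495) (.hit (nat_lit 187) (nat_lit 0) (nat_lit 0xbc0001780002ffc05) b23075 (.one (nat_lit 3) (nat_lit 188) (nat_lit 1) (nat_lit 0xbc0001780002fe1d7) b23076 (.tok (nat_lit 6) (nat_lit 0xbc000178000300495) (.hit (nat_lit 190) (nat_lit 7) (nat_lit 0xbc0001780002fe3ca) b23077 (.hit (nat_lit 193) (nat_lit 15) (nat_lit 0xbc0001780002fe3f7) b23080 (.tok (nat_lit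 55) (nat_lit 0xbc000178000300495) (.hit (nat_lit 191) (nat_lit 8) (nat_lit 0xbc0001780002ff0c1) b23078 (.hit (nat_lit 194) (nat_lit 16) (nat_lit 0xbc0001780002ffe32) b23081 (.one (nat_lit 6) (nat_lit 192) (nat_lit 9) (nat_lit 0xbc000178000300495) b23079 (.nil)))) (.nil)))) (.nil)))) (.nil))))
noncomputable def r24_4 : Rw Blk := .tok (nat_lit 3) (nat_lit 0xbc00017800030147b) (.hit (nat_lit 15) (nat_lit 0) (nat_lit 0xbc00017800030147b) b23096 (.tok (nat_lit 6) (nat_lit 0xbc000178000300447) (.hit (nat_lit 16) (nat_lit 7) (nat_lit 0xbc0001780002fd18d) b23097 (.hit (nat_lit 21) (nat_lit 15) (nat_lit 0xbc0001780002fe0eb) b23102 (.tok (nat_lit 14) (nat_lit 0xbc0001780002ff4a1) (.hit (nat_lit 17) (nat_lit 11) (nat_lit 0xbc0001780002fe2e1) b23098 (.hit (nat_lit 22) (nat_lit 17) (nat_lit 0xbc0001780002fec6a) b23103 (.one (nat_lit 9) (nat_lit 18) (nat_lit 12) (nat_lit 0xbc0001780002ff4a1)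 b23099 (.nil)))) (.tok (nat_lit 56) (nat_lit 0xbc0001780002fee36) (.hit (nat_lit 19) (nat_lit 13) (nat_lit 0xbc0001780002fe294) b23100 (.hit (nat_lit 24) (nat_lit 19) (nat_lit 0xbc0001780002fe8e6) b23105 (.one (nat_lit 6) (nat_lit 20) (nat_lit 14) (nat_lit 0xbc0001780002fee36) b23101 (.nil)))) (.one (nat_lit 68) (nat_lit 23) (nat_lit 18) (nat_lit 0xbc000178000300447) b23104 (.nil)))))) (.nil))) (.tok (nat_lit 9) (nat_lit 0xbc000178000304858) (.hit (nat_lit 0) (nat_lit 0) (nat_lit 0xbc000178000301636) b23082 (.tok (nat_lit 9) (nat_lit 0xbc000178000301fb9) (.hit (nat_lit 1) (nat_lit 20) (nat_lit 0xbc0001780002fe5dc) b23083 (.hit (nat_lit 4) (nat_lit 28) (nat_lit 0xbc0001780002fef2f) b23086 (.tok (nat_lit 14) (nat_lit 0xbc000178000301fb9) (.hit (nat_lit 2) (nat_lit 24) (nat_lit 0xbc0001780002ffc5c) b23084 (.hit (nat_lit 5) (nat_lit 30) (nat_lit 0xbc00017800030089a) b23087 (.one (nat_lit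 6) (nat_lit 3) (nat_lit 25) (nat_lit 0xbc000178000301fb9) b23085 (.nil)))) (.nil)))) (.tok (nat_lit 64) (nat_lit 0xbc00017800030472c) (.hit (nat_lit 7) (nat_lit 50) (nat_lit 0xbc00017800030472c) b23088 (.hit (nat_lit 8) (nat_lit 51) (nat_lit 0xbc000178000302076) b23089 (.nil))) (.tok (nat_lit 67) (nat_lit 0xbc000178000304858) (.hit (nat_lit 9) (nat_lit 52) (nat_lit 0xbc000178000303903) b23090 (.tok (nat_lit 3) (nat_lit 0xbc000178000301431) (.hit (nat_lit 12) (nat_lit 58) (nat_lit 0xbc000178000300749) b23093 (.one (nat_lit 55) (nat_lit 13) (nat_lit 59) (nat_lit 0xbc000178000301431) b23094 (.nil))) (.tok (nat_lit 9) (nat_lit 0xbc000178000304858) (.hit (nat_lit 10) (nat_lit 53) (nat_lit 0xbc000178000304858) b23091 (.hit (nat_lit 11) (nat_lit 56) (nat_lit 0xbc000178000300bbc) b23092 (.nil))) (.nil)))) (.one (nat_lit 70) (nat_lit 14) (nat_lit 60) (nat_lit 0xbc000178000304491) b23095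 (.nil)))))) (.nil))
noncomputable def r24_5 : Rw Blk := .tok (nat_lit 9) (nat_lit 0xbc000178000305477) (.hit (nat_lit 0) (nat_lit 0) (nat_lit 0xbc000178000300606) b23106 (.tok (nat_lit 14) (nat_lit 0xbc000178000303f0e) (.hit (nat_lit 1) (nat_lit 61) (nat_lit 0xbc0001780003015e2) b23107 (.one (nat_lit 3) (nat_lit 2) (nat_lit 62) (nat_lit 0xbc000178000301e40) b23108 (.tok (nat_lit 6) (nat_lit 0xbc000178000303f0e) (.hit (nat_lit 5) (nat_lit 65) (nat_lit 0xbc000178000303f0e) b23109 (.hit (nat_lit 6) (nat_lit 66) (nat_lit 0xbc00017800030048d) b23110 (.nil))) (.tok (nat_lit 9) (nat_lit 0xbc0001780002ffdc0) (.hit (nat_lit 3) (nat_lit 63) (nat_lit 0xbc0001780002ffdc0) b23111 (.hit (nat_lit 4) (nat_lit 64) (nat_lit 0xbc0001780002ff498) b23112 (.nil))) (.nil))))) (.one (nat_lit 17) (nat_lit 7) (nat_lit 67) (nat_lit 0xbc0001780003001bc) b23113 (.tok (nat_lit 20) (nat_lit 0xbc0001780002ffaa4)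 (.hit (nat_lit 8) (nat_lit 68) (nat_lit 0xbc0001780002ff383) b23116 (.hit (nat_lit 9) (nat_lit 69) (nat_lit 0xbc0001780002ffaa4) b23117 (.nil))) (.tok (nat_lit 23) (nat_lit 0xbc000178000305477) (.hit (nat_lit 10) (nat_lit 70) (nat_lit 0xbc000178000305477) b23114 (.hit (nat_lit 11) (nat_lit 71) (nat_lit 0xbc0001780002ffc82) b23115 (.nil))) (.one (nat_lit 26) (nat_lit 12) (nat_lit 72) (nat_lit 0xbc000178000300370) b23118 (.one (nat_lit 29) (nat_lit 13) (nat_lit 73) (nat_lit 0xbc00017800030097c) b23119 (.one (nat_lit 32) (nat_lit 14) (nat_lit 74) (nat_lit 0xbc0001780003004f1) b23121 (.one (nat_lit 35) (nat_lit 15) (nat_lit 75) (nat_lit 0xbc0001780002fef55) b23120 (.one (nat_lit 38) (nat_lit 16) (nat_lit 76) (nat_lit 0xbc0001780002ff3c7) b23122 (.tok (nat_lit 41) (nat_lit 0xbc0001780002fefad) (.hit (nat_lit 17) (nat_lit 77) (nat_lit 0xbc0001780002fe71d) b23123 (.hit (nat_lit 18) (nat_lit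 78) (nat_lit 0xbc0001780002fefad) b23124 (.nil))) (.tok (nat_lit 44) (nat_lit 0xbc0001780002ff937) (.hit (nat_lit 19) (nat_lit 79) (nat_lit 0xbc0001780002fe3e0) b23127 (.hit (nat_lit 20) (nat_lit 80) (nat_lit 0xbc0001780002ff937) b23128 (.nil))) (.tok (nat_lit 47) (nat_lit 0xbc0001780002ffa73) (.hit (nat_lit 21) (nat_lit 81) (nat_lit 0xbc0001780002ffa73) b23125 (.hit (nat_lit 22) (nat_lit 82) (nat_lit 0xbc0001780002fe54c) b23126 (.nil))) (.nil)))))))))))))) (.tok (nat_lit 64) (nat_lit 0xbc00017800030418a) (.hit (nat_lit 45) (nat_lit 0) (nat_lit 0xbc00017800030418a) b23139 (.tok (nat_lit 6) (nat_lit 0xbc000178000300f0b) (.hit (nat_lit 46) (nat_lit 7) (nat_lit 0xbc0001780002fff12) b23142 (.hit (nat_lit 47) (nat_lit 15) (nat_lit 0xbc000178000300f0b) b23143 (.nil))) (.tok (nat_lit 9) (nat_lit 0xbc000178000303779) (.hit (nat_lit 48) (nat_lit 20) (nat_lit 0xbc000178000303779) b23140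 (.hit (nat_lit 49) (nat_lit 28) (nat_lit 0xbc000178000302d9b) b23141 (.nil))) (.nil)))) (.tok (nat_lit 67) (nat_lit 0xbc000178000301eb2) (.hit (nat_lit 40) (nat_lit 0) (nat_lit 0xbc000178000301a70) b23134 (.tok (nat_lit 3) (nat_lit 0xbc000178000301a11) (.hit (nat_lit 41) (nat_lit 1) (nat_lit 0xbc000178000300b5b) b23135 (.one (nat_lit 55) (nat_lit 42) (nat_lit 3) (nat_lit 0xbc000178000301a11) b23136 (.nil))) (.tok (nat_lit 9) (nat_lit 0xbc000178000301eb2) (.hit (nat_lit 43) (nat_lit 20) (nat_lit 0xbc000178000301eb2) b23137 (.hit (nat_lit 44) (nat_lit 28) (nat_lit 0xbc0001780003001da) b23138 (.nil))) (.nil)))) (.tok (nat_lit 70) (nat_lit 0xbc0001780003033c7) (.hit (nat_lit 32) (nat_lit 0) (nat_lit 0xbc0001780003022b9) b23129 (.tok (nat_lit 3) (nat_lit 0xbc0001780003033c7) (.hit (nat_lit 33) (nat_lit 1) (nat_lit 0xbc000178000302091) b23130 (.one (nat_lit 67) (nat_lit 34) (nat_lit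 2) (nat_lit 0xbc0001780003033c7) b23131 (.nil))) (.tok (nat_lit 6) (nat_lit 0xbc000178000302569) (.hit (nat_lit 35) (nat_lit 7) (nat_lit 0xbc000178000302569) b23132 (.hit (nat_lit 38) (nat_lit 15) (nat_lit 0xbc000178000301d1b) b23133 (.nil))) (.nil)))) (.nil))))
noncomputable def r24_6 : Rw Blk := .tok (nat_lit 3) (nat_lit 0xbc000178000304007) (.hit (nat_lit 0) (nat_lit 0) (nat_lit 0xbc000178000304007) b23144 (.tok (nat_lit 6) (nat_lit 0xbc00017800030272b) (.hit (nat_lit 1) (nat_lit 7) (nat_lit 0xbc0001780002ffa4f) b23145 (.hit (nat_lit 6) (nat_lit 15) (nat_lit 0xbc0001780002fffd3) b23148 (.tok (nat_lit 14) (nat_lit 0xbc00017800030272b) (.hit (nat_lit 2) (nat_lit 11) (nat_lit 0xbc000178000301604) b23146 (.hit (nat_lit 7) (nat_lit 17) (nat_lit 0xbc00017800030272b) b23149 (.one (nat_lit 9) (nat_lit 3) (nat_lit 12) (nat_lit 0xbc00017800030139f) b23147 (.nil)))) (.nil)))) (.tok (nat_lit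 52) (nat_lit 0xbc000178000302f58) (.hit (nat_lit 9) (nat_lit 39) (nat_lit 0xbc000178000302a0f) b23150 (.hit (nat_lit 10) (nat_lit 40) (nat_lit 0xbc000178000302f58) b23151 (.nil))) (.tok (nat_lit 55) (nat_lit 0xbc000178000303df9) (.hit (nat_lit 11) (nat_lit 41) (nat_lit 0xbc000178000303df9) b23152 (.tok (nat_lit 3) (nat_lit 0xbc0001780003021b9) (.hit (nat_lit 17) (nat_lit 47) (nat_lit 0xbc0001780003021b9) b23155 (.one (nat_lit 67) (nat_lit 18) (nat_lit 48) (nat_lit 0xbc0001780003020d9) b23156 (.nil))) (.tok (nat_lit 6) (nat_lit 0xbc000178000301ca1) (.hit (nat_lit 12) (nat_lit 42) (nat_lit 0xbc000178000301ca1) b23153 (.hit (nat_lit 15) (nat_lit 45) (nat_lit 0xbc000178000301ba6) b23154 (.nil))) (.nil)))) (.one (nat_lit 58) (nat_lit 19) (nat_lit 49) (nat_lit 0xbc000178000302621) b23157 (.nil)))))) (.tok (nat_lit 9) (nat_lit 0xbc000178000306438) (.hit (nat_lit 20) (nat_lit 0) (nat_lit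 0xbc0001780003051c9) b23158 (.tok (nat_lit 9) (nat_lit 0xbc000178000306438) (.hit (nat_lit 21) (nat_lit 20) (nat_lit 0xbc0001780003039e1) b23159 (.hit (nat_lit 24) (nat_lit 28) (nat_lit 0xbc000178000303208) b23162 (.tok (nat_lit 14) (nat_lit 0xbc000178000306438) (.hit (nat_lit 22) (nat_lit 24) (nat_lit 0xbc000178000305052) b23160 (.hit (nat_lit 25) (nat_lit 30) (nat_lit 0xbc000178000303dae) b23163 (.one (nat_lit 6) (nat_lit 23) (nat_lit 25) (nat_lit 0xbc000178000306438) b23161 (.nil)))) (.one (nat_lit 56) (nat_lit 26) (nat_lit 31) (nat_lit 0xbc000178000304bbf) b23164 (.nil))))) (.nil))) (.nil))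
noncomputable def r24_7 : Rw Blk := .tok (nat_lit 9) (nat_lit 0xbc0001780002ffff3) (.hit (nat_lit 0) (nat_lit 0) (nat_lit 0xbc0001780002fdf79) b23165 (.one (nat_lit 26) (nat_lit 32) (nat_lit 72) (nat_lit 0xbc0001780002fda98) b23166 (.one (nat_lit 29) (nat_lit 33) (nat_lit 73) (nat_lit 0xbc0001780002fd8ed) b23167 (.one (nat_lit 32) (nat_lit 34) (nat_lit 74) (nat_lit 0xbc0001780002fe06a) b23169 (.one (nat_lit 35) (nat_lit 35) (nat_lit 75) (nat_lit 0xbc0001780002fd0e5) b23168 (.one (nat_lit 38) (nat_lit 36) (nat_lit 76) (nat_lit 0xbc0001780002fdde3) b23170 (.tok (nat_lit 41) (nat_lit 0xbc0001780002fdb85) (.hit (nat_lit 37) (nat_lit 77) (nat_lit 0xbc0001780002fdb85) b23171 (.hit (nat_lit 38) (nat_lit 78) (nat_lit 0xbc0001780002fd873) b23172 (.nil))) (.tok (nat_lit 44) (nat_lit 0xbc0001780002fe32f) (.hit (nat_lit 39) (nat_lit 79) (nat_lit 0xbc0001780002faff7) b23175 (.hit (nat_lit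 40) (nat_lit 80) (nat_lit 0xbc0001780002fe32f) b23176 (.nil))) (.tok (nat_lit 47) (nat_lit 0xbc0001780002fe50b) (.hit (nat_lit 41) (nat_lit 81) (nat_lit 0xbc0001780002fe50b) b23173 (.hit (nat_lit 42) (nat_lit 82) (nat_lit 0xbc0001780002fdc89) b23174 (.nil))) (.one (nat_lit 50) (nat_lit 43) (nat_lit 83) (nat_lit 0xbc0001780002fdc74) b23186 (.tok (nat_lit 53) (nat_lit 0xbc0001780002fd94d) (.hit (nat_lit 44) (nat_lit 84) (nat_lit 0xbc0001780002fd478) b23187 (.hit (nat_lit 45) (nat_lit 85) (nat_lit 0xbc0001780002fd94d) b23188 (.nil))) (.tok (nat_lit 56) (nat_lit 0xbc0001780002fe055) (.hit (nat_lit 46) (nat_lit 86) (nat_lit 0xbc0001780002fe055) b23189 (.one (nat_lit 3) (nat_lit 50) (nat_lit 90) (nat_lit 0xbc0001780002fd06e) b23193 (.tok (nat_lit 6) (nat_lit 0xbc0001780002fd39c) (.hit (nat_lit 48) (nat_lit 88) (nat_lit 0xbc0001780002fd39c) b23191 (.hit (nat_lit 49) (nat_lit 89) (nat_lit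 0xbc0001780002fd14a) b23192 (.nil))) (.one (nat_lit 9) (nat_lit 47) (nat_lit 87) (nat_lit 0xbc0001780002fcf0d) b23190 (.nil))))) (.one (nat_lit 59) (nat_lit 51) (nat_lit 91) (nat_lit 0xbc0001780002fdc7d) b23194 (.one (nat_lit 62) (nat_lit 52) (nat_lit 92) (nat_lit 0xbc0001780002fe7f6) b23177 (.tok (nat_lit 65) (nat_lit 0xbc0001780002fe9df) (.hit (nat_lit 53) (nat_lit 93) (nat_lit 0xbc0001780002fe9df) b23178 (.hit (nat_lit 54) (nat_lit 94) (nat_lit 0xbc0001780002fe56b) b23179 (.nil))) (.tok (nat_lit 68) (nat_lit 0xbc0001780002ffff3) (.hit (nat_lit 55) (nat_lit 95) (nat_lit 0xbc0001780002ff79d) b23180 (.one (nat_lit 3) (nat_lit 59) (nat_lit 99) (nat_lit 0xbc0001780002fed10) b23184 (.one (nat_lit 6) (nat_lit 56) (nat_lit 96) (nat_lit 0xbc0001780002ffc90) b23181 (.tok (nat_lit 9) (nat_lit 0xbc0001780002ffff3) (.hit (nat_lit 57) (nat_lit 97) (nat_lit 0xbc0001780002ffff3) b23182 (.hit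 (nat_lit 58) (nat_lit 98) (nat_lit 0xbc0001780002fec00) b23183 (.nil))) (.nil))))) (.one (nat_lit 71) (nat_lit 60) (nat_lit 100) (nat_lit 0xbc0001780002fe059) b23185 (.nil)))))))))))))))))) (.tok (nat_lit 64) (nat_lit 0xbc0001780002fff04) (.hit (nat_lit 176) (nat_lit 0) (nat_lit 0xbc0001780002ffd1a) b23195 (.tok (nat_lit 6) (nat_lit 0xbc0001780002ff71e) (.hit (nat_lit 177) (nat_lit 7) (nat_lit 0xbc0001780002fe8df) b23198 (.hit (nat_lit 178) (nat_lit 15) (nat_lit 0xbc0001780002ff71e) b23199 (.nil))) (.tok (nat_lit 9) (nat_lit 0xbc0001780002fff04) (.hit (nat_lit 179) (nat_lit 20) (nat_lit 0xbc0001780002fff04) b23196 (.hit (nat_lit 180) (nat_lit 28) (nat_lit 0xbc0001780002feee3) b23197 (.nil))) (.nil)))) (.tok (nat_lit 67) (nat_lit 0xbc000178000300240) (.hit (nat_lit 201) (nat_lit 0) (nat_lit 0xbc000178000300240) b23200 (.one (nat_lit 3) (nat_lit 202) (nat_lit 1) (nat_lit 0xbc0001780002fe1f1)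 b23201 (.tok (nat_lit 9) (nat_lit 0xbc0001780002ff866) (.hit (nat_lit 204) (nat_lit 20) (nat_lit 0xbc0001780002fded0) b23202 (.hit (nat_lit 207) (nat_lit 28) (nat_lit 0xbc0001780002fe204) b23205 (.tok (nat_lit 67) (nat_lit 0xbc0001780002ff866) (.hit (nat_lit 205) (nat_lit 21) (nat_lit 0xbc0001780002fee4f) b23203 (.hit (nat_lit 208) (nat_lit 29) (nat_lit 0xbc0001780002ff0fa) b23206 (.one (nat_lit 9) (nat_lit 206) (nat_lit 22) (nat_lit 0xbc0001780002ff866) b23204 (.nil)))) (.nil)))) (.nil)))) (.tok (nat_lit 70) (nat_lit 0xbc00017800030142f) (.hit (nat_lit 187) (nat_lit 0) (nat_lit 0xbc0001780002ff538) b23207 (.one (nat_lit 3) (nat_lit 188) (nat_lit 1) (nat_lit 0xbc0001780002fe31d) b23208 (.tok (nat_lit 6) (nat_lit 0xbc00017800030142f) (.hit (nat_lit 190) (nat_lit 7) (nat_lit 0xbc0001780002fea7a) b23209 (.hit (nat_lit 193) (nat_lit 15) (nat_lit 0xbc0001780002fe131) b23212 (.tok (nat_lit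 55) (nat_lit 0xbc00017800030142f) (.hit (nat_lit 191) (nat_lit 8) (nat_lit 0xbc0001780002ff71f) b23210 (.hit (nat_lit 194) (nat_lit 16) (nat_lit 0xbc0001780002ffaf0) b23213 (.one (nat_lit 6) (nat_lit 192) (nat_lit 9) (nat_lit 0xbc00017800030142f) b23211 (.nil)))) (.nil)))) (.nil)))) (.nil))))
noncomputable def r24_8 : Rw Blk := .tok (nat_lit 3) (nat_lit 0xbc0001780002fe79e) (.hit (nat_lit 15) (nat_lit 0) (nat_lit 0xbc0001780002fe79e) b23228 (.tok (nat_lit 6) (nat_lit 0xbc0001780002fdc40) (.hit (nat_lit 16) (nat_lit 7) (nat_lit 0xbc0001780002fc66b) b23229 (.hit (nat_lit 21) (nat_lit 15) (nat_lit 0xbc0001780002fa5b2) b23234 (.tok (nat_lit 14) (nat_lit 0xbc0001780002fd5e6) (.hit (nat_lit 17) (nat_lit 11) (nat_lit 0xbc0001780002fce26) b23230 (.hit (nat_lit 22) (nat_lit 17) (nat_lit 0xbc0001780002fcd41) b23235 (.one (nat_lit 9) (nat_lit 18) (nat_lit 12) (nat_lit 0xbc0001780002fd5e6)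 b23231 (.nil)))) (.tok (nat_lit 56) (nat_lit 0xbc0001780002fdc40) (.hit (nat_lit 19) (nat_lit 13) (nat_lit 0xbc0001780002fd212) b23232 (.hit (nat_lit 24) (nat_lit 19) (nat_lit 0xbc0001780002fca2b) b23237 (.one (nat_lit 6) (nat_lit 20) (nat_lit 14) (nat_lit 0xbc0001780002fdc40) b23233 (.nil)))) (.one (nat_lit 68) (nat_lit 23) (nat_lit 18) (nat_lit 0xbc0001780002fceaa) b23236 (.nil)))))) (.nil))) (.tok (nat_lit 9) (nat_lit 0xbc000178000302edf) (.hit (nat_lit 0) (nat_lit 0) (nat_lit 0xbc0001780002ff300) b23214 (.tok (nat_lit 9) (nat_lit 0xbc0001780003008ce) (.hit (nat_lit 1) (nat_lit 20) (nat_lit 0xbc0001780002fe889) b23215 (.hit (nat_lit 4) (nat_lit 28) (nat_lit 0xbc0001780002fd0a8) b23218 (.tok (nat_lit 14) (nat_lit 0xbc0001780003008ce) (.hit (nat_lit 2) (nat_lit 24) (nat_lit 0xbc0001780003008ce) b23216 (.hit (nat_lit 5) (nat_lit 30) (nat_lit 0xbc0001780002fe820) b23219 (.one (nat_lit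 6) (nat_lit 3) (nat_lit 25) (nat_lit 0xbc0001780002ffe05) b23217 (.nil)))) (.nil)))) (.tok (nat_lit 64) (nat_lit 0xbc00017800030064e) (.hit (nat_lit 7) (nat_lit 50) (nat_lit 0xbc00017800030064e) b23220 (.hit (nat_lit 8) (nat_lit 51) (nat_lit 0xbc0001780002ff0d5) b23221 (.nil))) (.tok (nat_lit 67) (nat_lit 0xbc000178000302edf) (.hit (nat_lit 9) (nat_lit 52) (nat_lit 0xbc000178000302edf) b23222 (.tok (nat_lit 3) (nat_lit 0xbc000178000301890) (.hit (nat_lit 12) (nat_lit 58) (nat_lit 0xbc0001780002fff63) b23225 (.one (nat_lit 55) (nat_lit 13) (nat_lit 59) (nat_lit 0xbc000178000301890) b23226 (.nil))) (.tok (nat_lit 9) (nat_lit 0xbc000178000300af8) (.hit (nat_lit 10) (nat_lit 53) (nat_lit 0xbc000178000300af8) b23223 (.hit (nat_lit 11) (nat_lit 56) (nat_lit 0xbc0001780002ffc7f) b23224 (.nil))) (.nil)))) (.one (nat_lit 70) (nat_lit 14) (nat_lit 60) (nat_lit 0xbc0001780002fe776) b23227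 (.nil)))))) (.nil))
noncomputable def r24_9 : Rw Blk := .tok (nat_lit 3) (nat_lit 0x2fe1da5fbb7cbfa5297f318afd9725fcd56bfa1c97f341afe9265fd4cabf9c957f586afefb95fd164bfa7317f50cafe5635fd752bfa7817fadeaff5bc5fdb06bf9d717f44fafe9005ffbc0bfc47d7f89baffb1c5feb62c000017fbcb2ff231) (.hit (nat_lit 0) (nat_lit 0) (nat_lit 0x2fbd305f841abf228d7e9362fc5955fa484bf3f297e691afd3d55fa91cbf4dcd7eb20afd5c45fa432bf4f757ea0a2fd5205fa846bf52917f2922fe5cb5fb91cbf4be17edf12fd7515fcd16bf67d17ed38afe5245fbe06bf8d597ee3a2fda35) b36037 (.tok (nat_lit 9) (nat_lit 0x2fbe165f7e3cbf8dc17eab5afc9d85faca4bf23bd7e36c2fc3f75f8d82bf08dd7e574afc31e5f7d16bf26357e335afc58d5f955ebf16457f752aff0fb5fd6b8bf0d017f44fafe9005fde74bfb3557e6e02ff6645fea10bfa74d7f6e42fece1) (.hit (nat_lit 10) (nat_lit 20) (nat_lit 0x2fa9bd5f558abf37097e0892fb57f5f83f2bed2597d93fafaf9e5f64d0beb7797db482faec55f5464bed4d17d9092fb1345f6cacbec4e17e2e8afd7a45fb252bebb9d7dd33afac965fa5e8bf2d957dcb3afdff25fb8b0bf4a757ede52fd8af)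 b23239 (.hit (nat_lit 15) (nat_lit 28) (nat_lit 0x2fa74e5f50acbf09317df51afb3105f7f14bec89d7d8082fad2f5f5ff2beadbd7da10afac565f4f86becb157d7d1afaec55f67cebebb257ed80afd8b55fb584beb1e17ea0fafd3ff5fa280bf60217db7c2fd9cc5fb922bf45017ee8eafd820) b23242 (.one (nat_lit 56) (nat_lit 17) (nat_lit 31) (nat_lit 0x2fbc7b5f7b06bf5ff97e9e82fc83d5fa96ebf1d517e29eafc25c5f8a4cbf02717e4a72fc1835f79e0bf1fc97e2682fc3f25f9228bf0fd97f752afeaa75fd09ebf06957f44fafe9005fc6bcbfb3557e612afe9e75fda1cbfa0f57f61dafece1) b23243 (.tok (nat_lit 68) (nat_lit 0x2fbe165f7e3cbf8dc17eab5afc9d85faca4bf23bd7e36c2fc3f75f8d82bf08dd7e574afc31e5f7d16bf26357e335afc58d5f955ebf16457f0a42ff0fb5fd6b8bf0d017ebf12fcb745fde74bf7b3d7e6e02ff6645fea10bfa74d7f6e42feb8f) (.hit (nat_lit 13) (nat_lit 26) (nat_lit 0x2fb5ee5f6decbf60497e6a1afc1b05f9c54bf031d7df582fbbcf5f7d32bee83d7e160afbaf65f6cc6bf05957df21afbd655f850ebef5a57ec492fea2b5fc944beec617e6942fbf575fde74bf6a857e2cc2ff4465fdc90bfa74d7f53a2fe634)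 b23240 (.hit (nat_lit 18) (nat_lit 32) (nat_lit 0x2fb1d25f65b4bf34597e493afbd945f941cbef2ad7dd4a2fb7b35f74fabed7cd7df52afb6da5f648ebef5257dd13afb9495f7cd6bee5357f0a42fdf3a5fba6cbedbf17ebf12fcb745fa940bf72f57e0be2fde7e5fc3f2bf40e17f0a4afdd19) b23244 (.one (nat_lit 9) (nat_lit 14) (nat_lit 27) (nat_lit 0x2fbe165f7e3cbf8dc17eab5afc9d85faca4bf23bd7e36c2fc3f75f8d82bf08dd7e574afc31e5f7d16bf26357e335afc58d5f955ebf16457e962aff0fb5fd6b8bf0d017e3adafb98a5fd56abf7b3d7e6e02ff6645fea10bfa37d7f6e42feb8f) b23241 (.nil)))) (.nil))))) (.tok (nat_lit 64) (nat_lit 0x2fb34c5f68a8bf4f9d7e550afbf0e5f9710bef8957de072fb92d5f77eebeddb57e00fafb8545f6782befb0d7ddd0afbac35f7fcabeeb1d7f393afdc355fad04bee1d97ef63afde8a5fc79abf85757e17b2fe3f85fc392bf8e517ede9afe1da) (.hit (nat_lit 30) (nat_lit 50) (nat_lit 0x2fb0225f6254bf1aa17e3bbafbbe45f90bcbeebed7dc722fb6035f719abed10d7de7aafb52a5f612ebeee657dc3bafb7995f7976bede757edce2fd12a5f8e06bed5317eea4afda5a5fae50bf6c597dfe62fcdfa5f8826bf7b497e8662fdc01)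 b23245 (.hit (nat_lit 31) (nat_lit 51) (nat_lit 0x2fb34c5f68a8bf4f9d7e550afbf0e5f9710bef8957de072fb92d5f77eebeddb57e00fafb8545f6782befb0d7ddd0afbac35f7fcabeeb1d7f393afdc355fad04bee1d97ef63afde8a5fc79abf85757e17b2fe3f85fc392bf8e517ede9afe1da) b23246 (.nil))) (.tok (nat_lit 67) (nat_lit 0x2fe1da5fbb7cbfa5297f318afd9725fcd56bfa1c97f341afe9265fd4cabf9c957f586afefb95fd164bfa7317f50cafe5635fd752bfa7817fadeaff5bc5fdb06bf9d717f308afe6fd5ffbc0bfc47d7f89baffb1c5feb62c000017fbcb2ff231) (.hit (nat_lit 32) (nat_lit 52) (nat_lit 0x2fe1da5fb556bfa5297f318afd9725fcd56bfa1c97f341afe9265fd4cabf9c957f586afefb95fd164bfa7317f50cafe5635fd752bfa7817fadeaff5bc5fdb06bf9d717f308afe6fd5ffbc0bfc47d7f89baffb1c5feb62c000017fbcb2ff231) b23247 (.one (nat_lit 3) (nat_lit 38) (nat_lit 58) (nat_lit 0x2fbc445f7a98bf7ab97e9ccafc8065fa900bf1c757e2832fc2255f89debf01957e48bafc14c5f7972bf1eed7e24cafc3bb5f91babf0efd7ee8aafeb1b5fc6b8bf05b97e8d5afc3da5fdde0bf87057e5f72ff09d5fdb96bfb1b17f4f4afe4de)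 b23253 (.tok (nat_lit 9) (nat_lit 0x2fd5265fbb7cbf8ee17f13a2fd84f5fc650bf57157e9d72fd0cd5fa72ebf3c357ebdfafcff45f96c2bf598d7e9a0afd2635faf0abf499d7f23eaff0305fc7e8bf40597ec89afcb425fedbcbf96557ed4b2ff4a15fe004bfc7257f709afe6be) (.hit (nat_lit 33) (nat_lit 53) (nat_lit 0x2fc7015f9b9ebf6e1d7f03fafd4b85fc254bf31117e516afc74c5f942cbf16317e71f2fc6735f83c0bf33897e4e02fc8e25f9c08bf23997efbf2fe84f5fb702bf1a557ea0a2fc6435fea86bf96557e88aafdf435fbc90bfbddd7f4a02fe6be) b23248 (.hit (nat_lit 36) (nat_lit 56) (nat_lit 0x2fbc9d5f7b4abf69ed7e9f92fc85f5fa9b2bf1dd97e2afafc27e5f8a90bf02f97e4b82fc1a55f7a24bf20517e2792fc4145f926cbf10617e9732fecc35fc14ebf071d7e3be2fb9ab5fedbcbf7f317e623aff4a15fe004bf9dd97f5102fe44c) b23251 (.tok (nat_lit 67) (nat_lit 0x2fd5265fbb7cbf8ee17f13a2fd84f5fc650bf57157e9d72fd0cd5fa72ebf3c357ebdfafcff45f96c2bf598d7e9a0afd2635faf0abf499d7f23eaff0305fc7e8bf40597ec89afcb425fe5f2bf88297ed4b2ff3d05fdc36bfc7257f709afe3c1)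 (.hit (nat_lit 34) (nat_lit 54) (nat_lit 0x2fd5265fbb7cbf71f57f13a2fd84f5fc650bf57157e9d72fd0cd5fa72ebf3c357ebdfafcff45f96c2bf598d7e9a0afd2635faf0abf499d7f23eaff0305fc33cbf40597ec89afcb425fe5f2bf874d7ed4b2fe8c45fc69ebfc7257f5fb2fe24b) b23249 (.hit (nat_lit 37) (nat_lit 57) (nat_lit 0x2fc7275f905ebf8ee17ef3e2fd2e95fbec6bf48017e7f4afcd085f9fa4bf2d217e9fd2fcc2f5f8f38bf4a797e7be2fce9e5fa780bf3a897ed8aafedb35fc7e8bf31457e7d5afc1da5fe512bf88297eb68aff3d05fdc36bfc3657f709afe3c1) b23252 (.one (nat_lit 9) (nat_lit 35) (nat_lit 55) (nat_lit 0x2fc5905f8d30bf6e597ee72afd1525fbb98bf41a57e7292fcb715f9c76bf26c57e931afca985f8c0abf441d7e6f2afcd075fa452bf342d7ea412fdc225fb0dabf2ae97e36aafbf225fd9a8bf6f857ea9d2fe3685fa6eebfaf857f39aafdbae) b23250 (.nil)))) (.nil)))) (.nil)))) (.one (nat_lit 70) (nat_lit 40) (nat_lit 60) (nat_lit 0x2fbb7c5f7908bf6a8d7e968afc73e5fa770bf19557e21f2fc15d5f884ebefe757e427afc0845f77e2bf1bcd7e1e8afc2f35f902abf0bdd7f68aafe4f35fc528bf02997f29c2fe8425fd0b6bf930d7e5932feb755fd076bfb4b17f2a32fe607)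 b23254 (.nil)))))) (.tok (nat_lit 6) (nat_lit 0x300000600000c0000180000300000600000c0000180000300000600000c0166180000300000600000c0000180000300000600000c00001803073000a0600000c00001800003008b5601beac0000180000300000600000bffe4d80000300000) (.hit (nat_lit 81) (nat_lit 0) (nat_lit 0x2fd1755fb93ebf52057f2152fd9305fc93ebf7e717ee9bafdd1f5fba0cbf71257f0732fdee15fba1cbf6b417ed9eafe1fa5fc40abf7da97f6cdaffa285fd9eabf94cd7f4782fe4ed5fca7cbf8ecd7f52c2ff4065fd8bebfd7557f61a2fe6ec) b23255 (.tok (nat_lit 6) (nat_lit 0x2fe13d5fddd0bf9b1d7f692afede25fbda8bf9cd97f242aff0c25fe450bfc52d7f8eaaff0d95fde42bfcd157f9ccafec215fe1d4bfc2c97f853affbe55fe58abfa5957f96b2feb295feb8cbfb5cd7eb212fee8b5fe354bfb7017f7f02fef5b) (.hit (nat_lit 87) (nat_lit 7) (nat_lit 0x2fc7ad5fa14cbf32457e9c3afc4e45f9a56bf48457e9162fd46d5fa842bf4e717ead22fd4195fb7a4bf4cf57e9d5afcfb95faa00bf574d7eec22fe8dd5fc67abf3c497f0342fc83e5fbedebf62e97e24cafe3745fc174bf4e4d7efe92fdb7e)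 b23256 (.hit (nat_lit 95) (nat_lit 15) (nat_lit 0x2fba115f6c4cbf266d7dd6bafae565f6fa4bf2b617e418afc84b5f8ffebf1de97e6592fce975f92b0bf1c6d7e3c42fc8b75f9286bf29d17efc72fe1885fbd48bf54e17eb7dafcae25f9820bf41657d472afda3d5fbb94bf43757ee3bafd887) b23259 (.tok (nat_lit 56) (nat_lit 0x2fe13d5fddd0bf9b1d7f692afede25fbda8bf9cd97f242aff0c25fe450bfc52d7f8eaaff0d95fde42bfcd157f9ccafec215fe1d4bfc2c97f728aff36c5fe58abfa5957f96b2feb295feb8cbfb5cd7eb212fee8b5fe354bf99c97f7f02fef5b) (.hit (nat_lit 93) (nat_lit 13) (nat_lit 0x2fe13d5fcef2bf98657f692afede25fbb90bf9cd97f242afebf45fd72abfabd57f68a2fece65fde42bfaad97f58eafeba05fd94ebfb46d7f728aff36c5fdd82bfa5957f96b2feb295feb8cbfb2997e9aa2fee8b5fd8b8bf91f57f5b1afeac3) b23257 (.hit (nat_lit 99) (nat_lit 19) (nat_lit 0x2fcef85f9622bf4cfd7e7e12fc3315f9adabf63557eb172fda0c5fb37cbf65117edbbafdbe95fb62ebf63697eca3afda7b5fb594bf6eb57f58caff0035fd074bf69a17ee53afd63c5fad52bf64d57de86afe1355fca7ebf6f857f2942fe07f)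 b23261 (.one (nat_lit 6) (nat_lit 94) (nat_lit 14) (nat_lit 0x2fd7505fddd0bf9b1d7eef6afd25a5fbda8bf8ff97f0a1aff0c25fe450bfc52d7f8eaaff0d95fdc2abfcd157f9ccafec215fe1d4bfc2c97f37eaff1d85fe58abfa1017f487afe9405feaecbfb5cd7eb212fed865fe354bf99c97f7f02fef5b) b23258 (.nil)))) (.one (nat_lit 68) (nat_lit 98) (nat_lit 18) (nat_lit 0x2fcea85f9720bf6c8d7e8252fc3a35f9b62bf65957eb612fd78d5fae98bf5b257ec80afd97f5fb11abf59857eb6a2fd7fb5fb0a6bf64b97f853affbe55fdb4abf70a17ef33afd6d05fc4d4bf64a57df112fe6635fd8e4bfb7017f518afe598) b23260 (.nil))))) (.tok (nat_lit 52) (nat_lit 0x2fd40f5fbedebf6bf17ec712fcb315fa9febf7fed7eedc2ff0f25fd9e6bfbf897fc21aff1c15fd314bfa06d7f41aafed635feae0bfc52d7f3042ff06f5fe592bf952d7ff73afe7f75fca14bf9bed7e36bafe7f55fdb64bfb7957f5572feea4) (.hit (nat_lit 106) (nat_lit 39) (nat_lit 0x2fd1dc5fbedebf67797eb89afcb315fa9febf4be97e8ce2fe0cc5fc15ebf75597f178afdf935fc494bf81257ef65afddbf5fcac6bf7fa97f2562fe4905fb4d2bf83757ff73afe3b65fc118bf9bed7e36bafd5055faef2bf8e897eca02fe307)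 b23262 (.hit (nat_lit 107) (nat_lit 40) (nat_lit 0x2fd40f5fb1b6bf6bf17ec712fc8705fa7c2bf7fed7eedc2ff0f25fd9e6bfbf897fc21aff1c15fd314bfa06d7f41aafed635feae0bfc52d7f3042ff06f5fe592bf952d7f3f9afe7f75fca14bf93657e2a6afe7f55fdb64bfb7957f5572feea4) b23263 (.nil))) (.tok (nat_lit 55) (nat_lit 0x300000600000c0000180000300000600000c0000180000300000600000c0166180000300000600000c0000180000300000600000c00001803073000a0600000c00001800003008b5601beac0000180000300000600000bffe4d80000300000) (.hit (nat_lit 108) (nat_lit 41) (nat_lit 0x2ff6765ff7aebfc39980000300000600000c00001800002ffdea5ffae6bff2f57ff9baffe145ffc58bff3417fe7b3000005ffd20bffa7d7ff8c2ffcb25ffb7abfe3d9800002ffdf95ff6f8bfef61800003000005ff912bffe4d800002fffd8) b23264 (.one (nat_lit 3) (nat_lit 114) (nat_lit 47) (nat_lit 0x2fecb65fd6c4bfb8d17f9d2aff0c75fd4dcbfc77d7f7a6aff2055fe2f2bfc7f97f9d82ff59a5fec20bfc4997f8b6aff50f5fe756bfcaed7f52f2ff2d75ff440bfc1c17f9312fefef5feaa8bfc6a57ea002fecc95fd950bfb9e17f63b2ff235)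 b23270 (.tok (nat_lit 6) (nat_lit 0x300000600000c000017fdff2fee925ff96cbfe4657fabab00000600000c0166180000300000600000c00001800002ffdc8600000c00001803073000a0600000c000017fd0a3008b5601beac000017efbf2ffbbf600000bffdd97ff86b00000) (.hit (nat_lit 109) (nat_lit 42) (nat_lit 0x2fea5e5fc3b8bf94ed7f5182fdd815fd1aebfcaa57f7a6aff0585fde7abfbd197f8902ff0a75fe246bfbce17f7b32fef785fe122bfc4997fef82fee8a5fc8c6bfbf217f9602ff1bb5ff612bfd41d7e95aafe0e35fc2e6bfdd117f56f2ff280) b23265 (.hit (nat_lit 112) (nat_lit 45) (nat_lit 0x2fddbe5fd20ebfdaa97f148afd25f5fbb08bfb15d7f4da2ffa035ff33ebff2e17fd8faffaf65ff650bfe2f97fc922ff6155fed42bfda057f77e3000a05ffa4abfcf217fa8a2ff5fe6017e6bfdba97e9d6affbbf5ff832bf92997fe4b2ff89c) b23268 (.tok (nat_lit 55) (nat_lit 0x300000600000c000017fdff2fee925ff96cbfe4657fabab00000600000c0166180000300000600000c00001800002ffdc8600000c00001803072ffab8600000c000017fd0a3008b5601beac000017efbf2ffab5600000bffdd97ff86b00000)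 (.hit (nat_lit 110) (nat_lit 43) (nat_lit 0x3000005ff328bff2b17fd682fe87c5ff5ecbfdf857fa7eaffa4f5ff48cbfdfb57fdfc2ff9e75ff1aabfecc57fd1b2ff86c5ff736bfeab5800efaff8535fdc58bffc057fcd0b002345ffe34c000017efbf2fedac5fd678bffdd97fc102fff1d) b23266 (.hit (nat_lit 113) (nat_lit 46) (nat_lit 0x2fed0a600000c000017f902afe2c95fd9a0bfe4657fabab00000600000c0166180000300000600000c00001800002ffdc8600000c000017fdacaffab8600000bfe48d7fc092ffc7f601beabff91d7ee57affab5600000bfc9cd7ff86b00000) b23269 (.one (nat_lit 6) (nat_lit 111) (nat_lit 44) (nat_lit 0x2ffd815fe63abfe9c17fdff2fee925ff96cbfde517fa832ff9b95ff44ebfdbd97fdba2ff8685ff276bfe4297fcc32ff76e5ff3ecbfe9a1803072fed5b5fc668c000017fd0a3008b55ff144bff9497e4202fdc965fc088bfe4e57f4d8affda4) b23267 (.nil)))) (.nil)))) (.nil)))) (.one (nat_lit 58) (nat_lit 116) (nat_lit 49) (nat_lit 0x2fdcb05fbafabfafe17f0d02fd14c5fb9d4bf78957ee532ff25c5fdd4cbfbc117fcfaaff1bb5fda70bfb05d7f5e1afefe35ff4f6bfd13d7ff8baffa1a5fe5dcbfb3597f7ccafea7e5fd94cbfbc6d7e3ccafe48b5fdcfcbfc8bd7f49e2ff1c2)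 b23271 (.nil)))))) (.nil))
noncomputable def r24_10 : Rw Blk := .tok (nat_lit 9) (nat_lit 0x5e0000bc00017f9b93002625fed3cc008f5800c8afe6c1) (.hit (nat_lit 0) (nat_lit 0) (nat_lit 0x5e0000bc00017ee012fe9e65fbba2bf9df97efa6afd9fd) b23272 (.one (nat_lit 26) (nat_lit 22) (nat_lit 72) (nat_lit 0x5e0000bc00017e5f62fcb405f72d2bf29097de02afb3a5) b23273 (.one (nat_lit 29) (nat_lit 23) (nat_lit 73) (nat_lit 0x5e0000bc00017e5882fcbf55f74febf2a397de882fb4ce) b23274 (.one (nat_lit 32) (nat_lit 24) (nat_lit 74) (nat_lit 0x5e0000bc00017ea122fd3d95f83b0bf46ed7e23aafbc0f) b23276 (.one (nat_lit 35) (nat_lit 25) (nat_lit 75) (nat_lit 0x5e0000bc00017e4caafc65f5f6b64bf138d7dba32fb292) b23275 (.one (nat_lit 38) (nat_lit 26) (nat_lit 76) (nat_lit 0x5e0000bc00017ed3aafd82a5f8c68bf66957e46b2fc0e7) b23277 (.tok (nat_lit 41) (nat_lit 0x5e0000bc00017ee8fafdae45f9290bf6a897e60b2fc38e) (.hit (nat_lit 27) (nat_lit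 77) (nat_lit 0x5e0000bc00017ea56afd4f85f807cbf47017e0f42fae3e) b23278 (.hit (nat_lit 28) (nat_lit 78) (nat_lit 0x5e0000bc00017ee8fafdae45f9290bf6a897e60b2fc38e) b23279 (.nil))) (.tok (nat_lit 44) (nat_lit 0x5e0000bc00017efe42fddaa5f9720bf6fe97e719afc5cd) (.hit (nat_lit 29) (nat_lit 79) (nat_lit 0x5e0000bc00017d532afb7225f5cc6bee45d7d745afab43) b23282 (.hit (nat_lit 30) (nat_lit 80) (nat_lit 0x5e0000bc00017efe42fddaa5f9720bf6fe97e719afc5cd) b23283 (.nil))) (.tok (nat_lit 47) (nat_lit 0x5e0000bc00017efb6afe2315fa2aabf7a157e760afbedf) (.hit (nat_lit 31) (nat_lit 81) (nat_lit 0x5e0000bc00017efb6afe2315fa2aabf7a157e760afbedf) b23280 (.hit (nat_lit 32) (nat_lit 82) (nat_lit 0x5e0000bc00017e9972fd0575f7d4cbf3b417e04e2fb929) b23281 (.nil))) (.one (nat_lit 50) (nat_lit 33) (nat_lit 83) (nat_lit 0x5e0000bc00017e97cafd0f15f7dd6bf3e497e0beafba55) b23293 (.tok (nat_lit 53) (nat_lit 0x5e0000bc00017ed33afd9065f920ebf5d8d7e4d52fc5e7)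 (.hit (nat_lit 34) (nat_lit 84) (nat_lit 0x5e0000bc00017e7112fd3025f920ebf4eed7e497afc5e7) b23294 (.hit (nat_lit 35) (nat_lit 85) (nat_lit 0x5e0000bc00017ed33afd9065f8e9abf5d8d7e4d52fc15c) b23295 (.nil))) (.tok (nat_lit 56) (nat_lit 0x5e0000bc00017ededafec8a5fc0bcbfa8397f1032fdb58) (.hit (nat_lit 36) (nat_lit 86) (nat_lit 0x5e0000bc00017ededafec8a5fc0bcbfa8397f1032fdb58) b23296 (.one (nat_lit 3) (nat_lit 40) (nat_lit 90) (nat_lit 0x5e0000bc00017e149afcf505f8d22bf45157e35cafc371) b23300 (.tok (nat_lit 6) (nat_lit 0x5e0000bc00017e69b2fd9f35fa268bf6fa17e8ae2fce14) (.hit (nat_lit 38) (nat_lit 88) (nat_lit 0x5e0000bc00017e69b2fd9f35fa268bf6fa17e8ae2fce14) b23298 (.hit (nat_lit 39) (nat_lit 89) (nat_lit 0x5e0000bc00017e3f5afd4a85f97d2bf5a757e608afc8c9) b23299 (.nil))) (.one (nat_lit 9) (nat_lit 37) (nat_lit 87) (nat_lit 0x5e0000bc00017e53f2fd73b5f9cf8bf64c17e7522fcb5c) b23297 (.nil)))))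 (.one (nat_lit 59) (nat_lit 41) (nat_lit 91) (nat_lit 0x5e0000bc00017e9b1afd1d65f7edabf3ad97e0f0afb985) b23301 (.one (nat_lit 62) (nat_lit 42) (nat_lit 92) (nat_lit 0x5e0000bc00017ed40afd90b5f8e44bf5d997e4df2fc15b) b23284 (.tok (nat_lit 65) (nat_lit 0x5e0000bc00017edb3afe0b75f97bcbf90ed7e747afc5ed) (.hit (nat_lit 43) (nat_lit 93) (nat_lit 0x5e0000bc00017e11aafe0b75f97bcbf90ed7e6d22fc2e5) b23285 (.hit (nat_lit 44) (nat_lit 94) (nat_lit 0x5e0000bc00017edb3afdcfd5f974ebf6ed57e747afc5ed) b23286 (.nil))) (.tok (nat_lit 68) (nat_lit 0x5e0000bc00017f9b93002625fed3cc008f5800c8afe6c1) (.hit (nat_lit 45) (nat_lit 95) (nat_lit 0x5e0000bc00017f96daffd8a5fe438bfeb2d7fcc8afe521) b23287 (.one (nat_lit 3) (nat_lit 49) (nat_lit 99) (nat_lit 0x5e0000bc00017f9b92ff0c05fcea2bfbf597f3bf2fd79c) b23291 (.one (nat_lit 6) (nat_lit 46) (nat_lit 96) (nat_lit 0x5e0000bc00017f450b002625fed3cc008f5800c8afe6c1)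 b23288 (.tok (nat_lit 9) (nat_lit 0x5e0000bc00017f57b2ff16a5fbb8cbfa9517f009afd74e) (.hit (nat_lit 47) (nat_lit 97) (nat_lit 0x5e0000bc00017f57b2ff16a5fbb8cbfa9517f009afd74e) b23289 (.hit (nat_lit 48) (nat_lit 98) (nat_lit 0x5e0000bc00017eff52fe4815f9b56bf7bed7e7f42fc4d6) b23290 (.nil))) (.nil))))) (.one (nat_lit 71) (nat_lit 50) (nat_lit 100) (nat_lit 0x5e0000bc00017e9ff2fd2885f810cbf3f297e1862fbace) b23292 (.nil)))))))))))))))))) (.tok (nat_lit 64) (nat_lit 0x5e0000bc000180000300a9b5fff9ec03d357ff4d300000) (.hit (nat_lit 180) (nat_lit 0) (nat_lit 0x5e0000bc00017fe76300a9b5fff9ec0336d7ff4d300000) b23302 (.tok (nat_lit 6) (nat_lit 0x5e0000bc00017f1d4aff3665fcb66bfe1017f51e2fe0e6) (.hit (nat_lit 181) (nat_lit 7) (nat_lit 0x5e0000bc00017e6ec2fed365fb7b6bfaabd7eafd2fd18f) b23305 (.hit (nat_lit 182) (nat_lit 15) (nat_lit 0x5e0000bc00017f1d4aff3665fcb66bfe1017f51e2fe0e6) b23306 (.nil)))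 (.tok (nat_lit 9) (nat_lit 0x5e0000bc0001800003007a45fe9cec03d357fb98aff52c) (.hit (nat_lit 183) (nat_lit 20) (nat_lit 0x5e0000bc0001800003007a45fe9cec03d357fb98aff52c) b23303 (.hit (nat_lit 184) (nat_lit 28) (nat_lit 0x5e0000bc00017f4752ff4105fc914bfc6257f2b52fe09e) b23304 (.nil))) (.nil)))) (.tok (nat_lit 67) (nat_lit 0x5e0000bc00017f661aff9cc5fd0e2bfdd157f15aafdf4c) (.hit (nat_lit 205) (nat_lit 0) (nat_lit 0x5e0000bc00017f661aff2f75fbd92bfd02d7f15aafdf4c) b23314 (.one (nat_lit 3) (nat_lit 206) (nat_lit 1) (nat_lit 0x5e0000bc00017e3e12fe7205fab8abf92657e7f22fcb79) b23315 (.tok (nat_lit 9) (nat_lit 0x5e0000bc00017ed372ff9cc5fd0e2bfdd157f1482fde25) (.hit (nat_lit 208) (nat_lit 20) (nat_lit 0x5e0000bc00017e6e2afed235fb790bfaa717eaf3afd17c) b23316 (.hit (nat_lit 211) (nat_lit 28) (nat_lit 0x5e0000bc00017e357afe60d5fa964bf8e197e768afca66) b23319 (.tok (nat_lit 67) (nat_lit 0x5e0000bc00017ed372ff9cc5fd0e2bfdd157f1482fde25)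 (.hit (nat_lit 209) (nat_lit 21) (nat_lit 0x5e0000bc00017e8cc2ff0f65fbf36bfb9bd7ecdd2fd54f) b23317 (.hit (nat_lit 212) (nat_lit 29) (nat_lit 0x5e0000bc00017ed372ff9cc5fd0e2bfdd157f1482fde25) b23320 (.one (nat_lit 9) (nat_lit 210) (nat_lit 22) (nat_lit 0x5e0000bc00017ebf22ff7425fcbcebfd2ed7f0032fdb9b) b23318 (.nil)))) (.nil)))) (.nil)))) (.tok (nat_lit 70) (nat_lit 0x5e0000bc00017fb04b014496005dcc047097fe86aff8a2) (.hit (nat_lit 191) (nat_lit 0) (nat_lit 0x5e0000bc00017fb04affc695fd3c6bfe8b17f5c02fe80b) b23307 (.one (nat_lit 3) (nat_lit 192) (nat_lit 1) (nat_lit 0x5e0000bc00017e3ac2fe6b65faab6bf90bd7e7bd2fcb0f) b23308 (.tok (nat_lit 6) (nat_lit 0x5e0000bc00017fa75b014496005dcc047097fe86aff8a2) (.hit (nat_lit 194) (nat_lit 7) (nat_lit 0x5e0000bc00017ea44aff3e75fc518bfc5817ee55afd840) b23309 (.hit (nat_lit 197) (nat_lit 15) (nat_lit 0x5e0000bc00017e6a32feca45fb692bfa8757eab42fd0fd)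 b23312 (.tok (nat_lit 55) (nat_lit 0x5e0000bc00017fa75b014496005dcc047097fe86aff8a2) (.hit (nat_lit 195) (nat_lit 8) (nat_lit 0x5e0000bc00017efce2ffefa5fdb3ebff1cd7f3df2fe353) b23310 (.hit (nat_lit 198) (nat_lit 16) (nat_lit 0x5e0000bc00017f223b003a55fe494c004797f634afe7fe) b23313 (.one (nat_lit 6) (nat_lit 196) (nat_lit 9) (nat_lit 0x5e0000bc00017fa75b014496005dcc047097fe86aff8a2) b23311 (.nil)))) (.nil)))) (.nil)))) (.nil))))
noncomputable def r24_11 : Rw Blk := .tok (nat_lit 3) (nat_lit 0x5e0000bc00017f35bafe9ba5fcf10bf52557f1ccafe4d9) (.hit (nat_lit 15) (nat_lit 0) (nat_lit 0x5e0000bc00017f35bafe9ba5fcf10bf52557f1ccafe4d9) b23335 (.tok (nat_lit 6) (nat_lit 0x5e0000bc00017ea4fafe0375fb5e4bf33657eb60afda24) (.hit (nat_lit 16) (nat_lit 7) (nat_lit 0x5e0000bc00017e0ea2fcd6c5f904ebee8397e1fb2fc759) b23336 (.hit (nat_lit 21) (nat_lit 15) (nat_lit 0x5e0000bc00017d5092fb5aa5f60cabe89317d61a2faf97)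 b23341 (.tok (nat_lit 14) (nat_lit 0x5e0000bc00017e6a1afd8db5fa72cbf15f57e7b2afd2c8) (.hit (nat_lit 17) (nat_lit 11) (nat_lit 0x5e0000bc00017df8e2fcab45f8adebedd597e09f2fc4a1) b23337 (.hit (nat_lit 22) (nat_lit 17) (nat_lit 0x5e0000bc00017e539afd60b5fa18cbf0ab57e64aafcff8) b23342 (.one (nat_lit 9) (nat_lit 18) (nat_lit 12) (nat_lit 0x5e0000bc00017e6a1afd8db5fa72cbf15f57e7b2afd2c8) b23338 (.nil)))) (.tok (nat_lit 56) (nat_lit 0x5e0000bc00017ea4fafe0375fb5e4bf33657eb60afda24) (.hit (nat_lit 19) (nat_lit 13) (nat_lit 0x5e0000bc00017e50aafd5ad5fa0d0bf093d7e61bafcf9a) b23339 (.hit (nat_lit 24) (nat_lit 19) (nat_lit 0x5e0000bc00017e5782fd6885fa286bf0ca97e6892fd075) b23344 (.one (nat_lit 6) (nat_lit 20) (nat_lit 14) (nat_lit 0x5e0000bc00017ea4fafe0375fb5e4bf33657eb60afda24) b23340 (.nil)))) (.one (nat_lit 68) (nat_lit 23) (nat_lit 18) (nat_lit 0x5e0000bc00017e45eafd4555f9e20bf03dd7e56fafce42)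 b23343 (.nil)))))) (.nil))) (.tok (nat_lit 9) (nat_lit 0x5e0000bc000180eed30339b60592ac077fd815e2b02665) (.hit (nat_lit 0) (nat_lit 0) (nat_lit 0x5e0000bc00017fd45b00d416008e6bfcccd8005d2ff8c2) b23321 (.tok (nat_lit 9) (nat_lit 0x5e0000bc0001801f1b0080e5ff5fcc01b217ffb430007a) (.hit (nat_lit 1) (nat_lit 20) (nat_lit 0x5e0000bc00017f1ffafe2d45faf18bf44d97e982afd63d) b23322 (.hit (nat_lit 4) (nat_lit 28) (nat_lit 0x5e0000bc00017ec492fd4515fb07abf06157e79fafd252) b23325 (.tok (nat_lit 14) (nat_lit 0x5e0000bc0001801f1b0080e5ff5fcc01b217ffb430007a) (.hit (nat_lit 2) (nat_lit 24) (nat_lit 0x5e0000bc00017fefa3006de5fef28bffe717fa06aff990) b23323 (.hit (nat_lit 5) (nat_lit 30) (nat_lit 0x5e0000bc00017f1a92fdceb5fb0a2bf32bd7ebb2afd133) b23326 (.one (nat_lit 6) (nat_lit 3) (nat_lit 25) (nat_lit 0x5e0000bc0001801f1b0080e5ff5fcc01b217ffb430007a) b23324 (.nil)))) (.nil)))) (.tok (nat_lit 64)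 (nat_lit 0x5e0000bc000180675b01d53601d6cc007e980768b007c9) (.hit (nat_lit 7) (nat_lit 50) (nat_lit 0x5e0000bc000180230301d535ffe9abfdc158007f300182) b23327 (.hit (nat_lit 8) (nat_lit 51) (nat_lit 0x5e0000bc000180675b01052601d6cc007e980768b007c9) b23328 (.nil))) (.tok (nat_lit 67) (nat_lit 0x5e0000bc0001806e8b012f460239cc03a29808e33005a4) (.hit (nat_lit 9) (nat_lit 52) (nat_lit 0x5e0000bc0001803e33002fa6002c6c014f18027eb004be) b23329 (.tok (nat_lit 3) (nat_lit 0x5e0000bc0001806e8b012f460239cc03a29808e33005a4) (.hit (nat_lit 12) (nat_lit 58) (nat_lit 0x5e0000bc00018001f30100b60239cc01d0d808e33005a4) b23332 (.one (nat_lit 55) (nat_lit 13) (nat_lit 59) (nat_lit 0x5e0000bc0001806e8b012f4601bcec03a2980496b00244) b23333 (.nil))) (.tok (nat_lit 9) (nat_lit 0x5e0000bc00017fde9b001205fe72cbfadbd7f9812ff31b) (.hit (nat_lit 10) (nat_lit 53) (nat_lit 0x5e0000bc00017f742b001205fd7acbf8bf57f590aff21c)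 b23330 (.hit (nat_lit 11) (nat_lit 56) (nat_lit 0x5e0000bc00017fde9affeab5fe72cbfadbd7f9812ff31b) b23331 (.nil))) (.nil)))) (.one (nat_lit 70) (nat_lit 14) (nat_lit 60) (nat_lit 0x5e0000bc000180eed30339b60592ac077fd815e2b02665) b23334 (.nil)))))) (.nil))
noncomputable def r24_12 : Rw Blk := .tok (nat_lit 6) (nat_lit 0x5e0000bc00017f5cbafed845ffd1ebfd0a57fdda2fe62c) (.hit (nat_lit 0) (nat_lit 0) (nat_lit 0x5e0000bc00017ea26afd5325fb8c8bf48117ed912fd557) b23345 (.one (nat_lit 26) (nat_lit 32) (nat_lit 72) (nat_lit 0x5e0000bc00017e663afc31d5f9b9cbf12c17e20e2fbf37) b23346 (.one (nat_lit 29) (nat_lit 33) (nat_lit 73) (nat_lit 0x5e0000bc00017e904afbdb05fa308bf30997e6f52fc7ba) b23347 (.one (nat_lit 32) (nat_lit 34) (nat_lit 74) (nat_lit 0x5e0000bc00017e2882fbfcd5f8f10bef9457dd3c2fb84a) b23349 (.one (nat_lit 35) (nat_lit 35) (nat_lit 75) (nat_lit 0x5e0000bc00017ee49afd2eb5fc962bf4e817ea23afcb88)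 b23348 (.one (nat_lit 38) (nat_lit 36) (nat_lit 76) (nat_lit 0x5e0000bc00017e90fafcaa55fa918bf2d557e3be2fc76e) b23350 (.tok (nat_lit 41) (nat_lit 0x5e0000bc00017e7092fce945fc2d8bf397d7ea63afca50) (.hit (nat_lit 37) (nat_lit 77) (nat_lit 0x5e0000bc00017e3e1afbf8a5face8bf00697e572afbd71) b23351 (.hit (nat_lit 38) (nat_lit 78) (nat_lit 0x5e0000bc00017e7092fce945fc2d8bf397d7ea63afca50) b23352 (.nil))) (.tok (nat_lit 44) (nat_lit 0x5e0000bc00017eebd2fc71f5fc540bf42ed7f20e2fd089) (.hit (nat_lit 39) (nat_lit 79) (nat_lit 0x5e0000bc00017eebd2fc71f5fc540bf42ed7f20e2fd089) b23355 (.hit (nat_lit 40) (nat_lit 80) (nat_lit 0x5e0000bc00017e8de2fc2105faaccbf27a97e60e2fc281) b23356 (.nil))) (.tok (nat_lit 47) (nat_lit 0x5e0000bc00017f399afd1235fdf36bf7c417f05c2fd6d8) (.hit (nat_lit 41) (nat_lit 81) (nat_lit 0x5e0000bc00017d06c2fbf095f8982bedcd57de632fbdf3) b23353 (.hit (nat_lit 42) (nat_lit 82)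 (nat_lit 0x5e0000bc00017f399afd1235fdf36bf7c417f05c2fd6d8) b23354 (.nil))) (.one (nat_lit 50) (nat_lit 43) (nat_lit 83) (nat_lit 0x5e0000bc00017edb6afccbc5fbdb8bf50117e9c52fcb91) b23366 (.tok (nat_lit 53) (nat_lit 0x5e0000bc00017f331afda475ffd1ebf802d7fd7e2fdea3) (.hit (nat_lit 44) (nat_lit 84) (nat_lit 0x5e0000bc00017f331afda475ffd1ebf802d7fd7e2fdea3) b23367 (.hit (nat_lit 45) (nat_lit 85) (nat_lit 0x5e0000bc00017ed2aafcbd85fc8ccbf59317eec22fcdde) b23368 (.nil))) (.tok (nat_lit 56) (nat_lit 0x5e0000bc00017f5cbafed845ff224bfd0a57fdda2fe62c) (.hit (nat_lit 46) (nat_lit 86) (nat_lit 0x5e0000bc00017f42cafe3aa5fe2a2bf95297f4a12fdc7a) b23369 (.one (nat_lit 3) (nat_lit 50) (nat_lit 90) (nat_lit 0x5e0000bc00017ededafdcad5fc1dcbf5d697ee272fd0a0) b23373 (.tok (nat_lit 6) (nat_lit 0x5e0000bc00017f4262fd4ab5fd7b6bf89c57f1622fe291) (.hit (nat_lit 48) (nat_lit 88) (nat_lit 0x5e0000bc00017f4262fce425fd7b6bf89c57f1622fe291)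 b23371 (.hit (nat_lit 49) (nat_lit 89) (nat_lit 0x5e0000bc00017f132afd4ab5fceeabf78ed7f0572fd8ba) b23372 (.nil))) (.one (nat_lit 9) (nat_lit 47) (nat_lit 87) (nat_lit 0x5e0000bc00017f5cbafed845ff224bfd0a57fdda2fe62c) b23370 (.nil))))) (.one (nat_lit 59) (nat_lit 51) (nat_lit 91) (nat_lit 0x5e0000bc00017eadcafcf085fb9b8bf29b17e679afc3e8) b23374 (.one (nat_lit 62) (nat_lit 52) (nat_lit 92) (nat_lit 0x5e0000bc00017e6452fc7635f9e44bf17ad7e268afc1b7) b23357 (.tok (nat_lit 65) (nat_lit 0x5e0000bc00017ec2d2fcca45fc286bf2ba17e9122fc4b8) (.hit (nat_lit 53) (nat_lit 93) (nat_lit 0x5e0000bc00017ec2d2fc54e5fc286bf18f17e9122fc4b8) b23358 (.hit (nat_lit 54) (nat_lit 94) (nat_lit 0x5e0000bc00017e1932fcca45fb068bf2ba17e6ec2fc4a6) b23359 (.nil))) (.tok (nat_lit 68) (nat_lit 0x5e0000bc00017e580afe45e5fc6d4bf68f57eefdafd6ee) (.hit (nat_lit 55) (nat_lit 95) (nat_lit 0x5e0000bc00017e580afe45e5fc6d4bf68f57eefdafd3a3)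 b23360 (.one (nat_lit 3) (nat_lit 59) (nat_lit 99) (nat_lit 0x5e0000bc00017d3e22fc5f55f975abef8857e1d92fc4df) b23364 (.one (nat_lit 6) (nat_lit 56) (nat_lit 96) (nat_lit 0x5e0000bc00017d5f3afca185f9fa0bf09117e3eaafc902) b23361 (.tok (nat_lit 9) (nat_lit 0x5e0000bc00017dce9afd8045fbb78bf40c17eae0afd6ee) (.hit (nat_lit 57) (nat_lit 97) (nat_lit 0x5e0000bc00017dce9afd8045fbb78bf40c17eae0afd6ee) b23362 (.hit (nat_lit 58) (nat_lit 98) (nat_lit 0x5e0000bc00017d8c0afcfb25faad4bf1f797e6b7afce9c) b23363 (.nil))) (.nil))))) (.one (nat_lit 71) (nat_lit 60) (nat_lit 100) (nat_lit 0x5e0000bc00017e998afc5e55fb708bf24517e7dd2fc2ae) b23365 (.nil)))))))))))))))))) (.tok (nat_lit 52) (nat_lit 0x5e0000bc000180000300000600000c0000180000300000) (.hit (nat_lit 176) (nat_lit 0) (nat_lit 0x5e0000bc000180000300000600000c0000180000300000) b23375 (.tok (nat_lit 6) (nat_lit 0x5e0000bc00017f60d2ff46b5fe7aebfab297f7c0afede3)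 (.hit (nat_lit 177) (nat_lit 7) (nat_lit 0x5e0000bc00017f60d2ff46b5fe7aebfab297f7c0afede3) b23378 (.hit (nat_lit 178) (nat_lit 15) (nat_lit 0x5e0000bc00017ed9cafe5415fcf2abf70517f1202fdfd8) b23379 (.nil))) (.tok (nat_lit 9) (nat_lit 0x5e0000bc00017f475aff0905feedabfba997f8d0afeae3) (.hit (nat_lit 179) (nat_lit 20) (nat_lit 0x5e0000bc00017eaa9afdbf35fbc52bf42cd7ebe82fd495) b23376 (.hit (nat_lit 180) (nat_lit 28) (nat_lit 0x5e0000bc00017f475aff0905feedabfba997f8d0afeae3) b23377 (.nil))) (.nil)))) (.tok (nat_lit 55) (nat_lit 0x5e0000bc00017f277afed835fe25ebfa0417f3b62fe431) (.hit (nat_lit 187) (nat_lit 0) (nat_lit 0x5e0000bc00017f154afed835fe25ebfa0417f1ca2fe096) b23387 (.one (nat_lit 3) (nat_lit 188) (nat_lit 1) (nat_lit 0x5e0000bc00017e2a6afcbed5f9c46bf02b57e3e52fc48f) b23388 (.tok (nat_lit 6) (nat_lit 0x5e0000bc00017f277afeb8f5fdb8abf813d7f3b62fe431) (.hit (nat_lit 190) (nat_lit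 7) (nat_lit 0x5e0000bc00017e7e92fd6725fb150bf2cc97e927afcf14) b23389 (.hit (nat_lit 193) (nat_lit 15) (nat_lit 0x5e0000bc00017e311afccc35f9df2bf060d7e4502fc565) b23392 (.tok (nat_lit 55) (nat_lit 0x5e0000bc00017f277afeb8f5fdb8abf813d7f3b62fe431) (.hit (nat_lit 191) (nat_lit 8) (nat_lit 0x5e0000bc00017ef5d2fe55a5fcf20bf68697f09bafddfc) b23390 (.hit (nat_lit 194) (nat_lit 16) (nat_lit 0x5e0000bc00017ef502fe5405fceecbf68017f08eafdde2) b23393 (.one (nat_lit 6) (nat_lit 192) (nat_lit 9) (nat_lit 0x5e0000bc00017f277afeb8f5fdb8abf813d7f3b62fe431) b23391 (.nil)))) (.nil)))) (.nil)))) (.tok (nat_lit 58) (nat_lit 0x5e0000bc00017f8042ff6a85ff1bcbfada17f942afef4a) (.hit (nat_lit 201) (nat_lit 0) (nat_lit 0x5e0000bc00017f3bc2fee8c5fdce0bf96b57f5bf2fe81c) b23380 (.one (nat_lit 3) (nat_lit 202) (nat_lit 1) (nat_lit 0x5e0000bc00017e6a52fd3ea5fac40bf22a97e7e3afcc8c) b23381 (.tok (nat_lit 9) (nat_lit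 0x5e0000bc00017f8042ff6a85ff1bcbfada17f942afef4a) (.hit (nat_lit 204) (nat_lit 20) (nat_lit 0x5e0000bc00017e79eafd5dd5fb026bf2a757e8dd2fce7f) b23382 (.hit (nat_lit 207) (nat_lit 28) (nat_lit 0x5e0000bc00017e7b52fd60a5fb080bf2b297e8f3afceac) b23385 (.tok (nat_lit 67) (nat_lit 0x5e0000bc00017f8042ff6a85ff1bcbfada17f942afef4a) (.hit (nat_lit 205) (nat_lit 21) (nat_lit 0x5e0000bc00017ee1a2fe2d45fca14bf5e517ef58afdb76) b23383 (.hit (nat_lit 208) (nat_lit 29) (nat_lit 0x5e0000bc00017f4d2aff0455fe4f6bf94157f6112fe8e7) b23386 (.one (nat_lit 9) (nat_lit 206) (nat_lit 22) (nat_lit 0x5e0000bc00017f8042ff6a85ff1bcbfada17f942afef4a) b23384 (.nil)))) (.nil)))) (.nil)))) (.nil))))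
noncomputable def r24_13 : Rw Blk := .tok (nat_lit 3) (nat_lit 0x5e0000bc0001802e12ff0cd601f7cc0115d80071b0020b) (.hit (nat_lit 15) (nat_lit 0) (nat_lit 0x5e0000bc0001802e12ff0cd601f7cc0115d80071b0020b) b23408 (.tok (nat_lit 9) (nat_lit 0x5e0000bc00017fac72fd8fa5fdcc2bfb1d97f4c9afeaeb) (.hit (nat_lit 16) (nat_lit 20) (nat_lit 0x5e0000bc00017e16a2fb69e5f8f02bf25897decfafbf51) b23409 (.hit (nat_lit 21) (nat_lit 28) (nat_lit 0x5e0000bc00017e9192fab1f5fa58abf50257e8f0afd5fa) b23414 (.tok (nat_lit 14) (nat_lit 0x5e0000bc00017f2f42fd2955fd7debfb1d97f3832fe936) (.hit (nat_lit 17) (nat_lit 24) (nat_lit 0x5e0000bc00017ea142fc1fa5fb1aabf6ad97e779afd0a5) b23410 (.hit (nat_lit 22) (nat_lit 30) (nat_lit 0x5e0000bc00017eed8afd2955fd7debfa0bd7f3832fe936) b23415 (.one (nat_lit 6) (nat_lit 18) (nat_lit 25) (nat_lit 0x5e0000bc00017f2f42fc5a15fd52abfb1d97f059afe265) b23411 (.nil)))) (.one (nat_lit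 56) (nat_lit 23) (nat_lit 31) (nat_lit 0x5e0000bc00017fac72fd7dc5fdcc2bfaf1d7f4c9afeaeb) b23416 (.tok (nat_lit 68) (nat_lit 0x5e0000bc00017efbeafd8fa5fc854bf982d7ef6a2fdbfa) (.hit (nat_lit 19) (nat_lit 26) (nat_lit 0x5e0000bc00017e9edafbf2b5fb110bf69a57e7532fd058) b23412 (.hit (nat_lit 24) (nat_lit 32) (nat_lit 0x5e0000bc00017ed16afce975fbdacbf6b917ecf32fd4c1) b23417 (.one (nat_lit 9) (nat_lit 20) (nat_lit 27) (nat_lit 0x5e0000bc00017efbeafd8fa5fc854bf982d7ef6a2fdbfa) b23413 (.nil)))) (.nil)))))) (.nil))) (.tok (nat_lit 6) (nat_lit 0x5e0000bc000181ccfb0573960767ac0e231824ffb04641) (.hit (nat_lit 0) (nat_lit 0) (nat_lit 0x5e0000bc0001803beaffbe260130ac01e398099a3005c6) b23394 (.tok (nat_lit 6) (nat_lit 0x5e0000bc000180880301e2e602000c0b309812fb302265) (.hit (nat_lit 1) (nat_lit 7) (nat_lit 0x5e0000bc00017eb91afcdd45fa632bf7cf57ed75afd960) b23395 (.hit (nat_lit 4) (nat_lit 15) (nat_lit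 0x5e0000bc00017f03b2fca9d5fa41ebf79b57f0202fdc42) b23398 (.tok (nat_lit 14) (nat_lit 0x5e0000bc000180880301e2e602000c0b309812fb302265) (.hit (nat_lit 2) (nat_lit 11) (nat_lit 0x5e0000bc00017f6d1aff4375fe0a4bff6fd7fd3aaffc4d) b23396 (.hit (nat_lit 5) (nat_lit 17) (nat_lit 0x5e0000bc00017fcf0aff0865fda36bfe3557fd4d2ff5ca) b23399 (.one (nat_lit 9) (nat_lit 3) (nat_lit 12) (nat_lit 0x5e0000bc000180880301e2e602000c0b309812fb302265) b23397 (.nil)))) (.nil)))) (.tok (nat_lit 52) (nat_lit 0x5e0000bc000181c39b03f1a60767ac0d03d820bdb04063) (.hit (nat_lit 7) (nat_lit 39) (nat_lit 0x5e0000bc000181c39b03f1a60767ac0d03d820bdb04063) b23400 (.hit (nat_lit 8) (nat_lit 40) (nat_lit 0x5e0000bc0001808deb006176012e6c01f3d804b6b0064f) b23401 (.nil))) (.tok (nat_lit 55) (nat_lit 0x5e0000bc000181ccfb05739603ecec0d1ed81ee9304641) (.hit (nat_lit 9) (nat_lit 41) (nat_lit 0x5e0000bc00018152530106e603ecec08bf580dc4302b20)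 b23402 (.tok (nat_lit 3) (nat_lit 0x5e0000bc0001802bc300d0b601a12c04e25805eab00982) (.hit (nat_lit 12) (nat_lit 47) (nat_lit 0x5e0000bc00017fc48300d0b5ff5c8c03d85805eab00472) b23405 (.one (nat_lit 67) (nat_lit 13) (nat_lit 48) (nat_lit 0x5e0000bc0001802bc300479601a12c04e258050a300982) b23406 (.nil))) (.tok (nat_lit 6) (nat_lit 0x5e0000bc000181ccfb057396017cac0d1ed81ee9304641) (.hit (nat_lit 10) (nat_lit 42) (nat_lit 0x5e0000bc000181ccfb057396017cac0d1ed81ee9304641) b23403 (.hit (nat_lit 11) (nat_lit 45) (nat_lit 0x5e0000bc00017fe81aff2985fe474bfe1a97fb9c2ff689) b23404 (.nil))) (.nil)))) (.one (nat_lit 58) (nat_lit 14) (nat_lit 49) (nat_lit 0x5e0000bc000181aec30366f603fd6c0e231824ffb037ae) b23407 (.nil)))))) (.nil))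
noncomputable def r24_14 : Rw Blk := .tok (nat_lit 6) (nat_lit 0xbc000178000304830607a4ac0f8bd814ec303c09) (.hit (nat_lit 0) (nat_lit 0) (nat_lit 0xbc0001780002ff9bf5ff548bfeadd7fc5faff782) b23418 (.tok (nat_lit 14) (nat_lit 0xbc0001780003032c760631ac0812d81096302b33) (.hit (nat_lit 1) (nat_lit 61) (nat_lit 0xbc00017800030099b601686c00551802b1b009fb) b23419 (.one (nat_lit 3) (nat_lit 2) (nat_lit 62) (nat_lit 0xbc0001780003011f9601accc010c1803bfb00a46) b23420 (.tok (nat_lit 6) (nat_lit 0xbc0001780002ff1795ff1f4bf9c597fb52aff39b) (.hit (nat_lit 5) (nat_lit 65) (nat_lit 0xbc0001780002ff1795fd352bf9c597f5b82fe248) b23421 (.hit (nat_lit 6) (nat_lit 66) (nat_lit 0xbc0001780002fe8515ff1f4bf9c357fb52aff39b) b23422 (.nil))) (.tok (nat_lit 9) (nat_lit 0xbc0001780003032c760631ac0812d81096302b33) (.hit (nat_lit 3) (nat_lit 63) (nat_lit 0xbc0001780003032c760631ac0812d81096302b33) b23423 (.hit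 (nat_lit 4) (nat_lit 64) (nat_lit 0xbc0001780002ff846600a62bffbfd80018b00271) b23424 (.nil))) (.nil))))) (.one (nat_lit 17) (nat_lit 7) (nat_lit 67) (nat_lit 0xbc0001780002ff5755fd5c8bf86957f58cafe3ff) b23425 (.tok (nat_lit 20) (nat_lit 0xbc000178000304830607a4ac0f8bd814ec303c09) (.hit (nat_lit 8) (nat_lit 68) (nat_lit 0xbc000178000304830607a4ac0f8bd814ec303c09) b23428 (.hit (nat_lit 9) (nat_lit 69) (nat_lit 0xbc0001780002ff03b5fbfbcbf606d7ecd8afdf3b) b23429 (.nil))) (.tok (nat_lit 23) (nat_lit 0xbc0001780002fee5d5fd0babf82657f262afe879) (.hit (nat_lit 10) (nat_lit 70) (nat_lit 0xbc0001780002fe73c5fbed8bf73657f099afd80b) b23426 (.hit (nat_lit 11) (nat_lit 71) (nat_lit 0xbc0001780002fee5d5fd0babf82657f262afe879) b23427 (.nil))) (.one (nat_lit 26) (nat_lit 12) (nat_lit 72) (nat_lit 0xbc0001780002ff7295fd5acbf7c257f260afe355) b23430 (.one (nat_lit 29) (nat_lit 13) (nat_lit 73) (nat_lit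 0xbc0001780002ffd355fe896bf945d7f678afe96d) b23431 (.one (nat_lit 32) (nat_lit 14) (nat_lit 74) (nat_lit 0xbc0001780002fe30e5fb366bf46957ea74afd7b2) b23433 (.one (nat_lit 35) (nat_lit 15) (nat_lit 75) (nat_lit 0xbc0001780002ff8aa5fe0b0bf8be17f559afe77e) b23432 (.one (nat_lit 38) (nat_lit 16) (nat_lit 76) (nat_lit 0xbc0001780002fe7805fb1a0bf5f757ec3cafd986) b23434 (.tok (nat_lit 41) (nat_lit 0xbc0001780002fe3665fd652bf88a17f39c2fe75e) (.hit (nat_lit 17) (nat_lit 77) (nat_lit 0xbc0001780002fdad65fd652bf84717f39c2fe75e) b23435 (.hit (nat_lit 18) (nat_lit 78) (nat_lit 0xbc0001780002fe3665fcf8abf88a17efc6afe20e) b23436 (.nil))) (.tok (nat_lit 44) (nat_lit 0xbc0001780002fee2c5fd8dcbfb7197f2dcafec21) (.hit (nat_lit 19) (nat_lit 79) (nat_lit 0xbc0001780002fee2c5fd8dcbfb7197f2dcafec21) b23439 (.hit (nat_lit 20) (nat_lit 80) (nat_lit 0xbc0001780002fd9055fad92bf462d7e8dd2fd677) b23440 (.nil)))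 (.tok (nat_lit 47) (nat_lit 0xbc0001780002fecf05fbc06bf5be17ed2dafd468) (.hit (nat_lit 21) (nat_lit 81) (nat_lit 0xbc0001780002fd7995f9f92bf34d97e8c82fc868) b23437 (.hit (nat_lit 22) (nat_lit 82) (nat_lit 0xbc0001780002fecf05fbc06bf5be17ed2dafd468) b23438 (.nil))) (.nil)))))))))))))) (.tok (nat_lit 52) (nat_lit 0xbc000178000303543607738c0b1c581c9a3028b8) (.hit (nat_lit 45) (nat_lit 0) (nat_lit 0xbc000178000303543607738c0abc981c9a3028b8) b23451 (.tok (nat_lit 6) (nat_lit 0xbc000178000302b32605744c0b1c58174f302758) (.hit (nat_lit 46) (nat_lit 7) (nat_lit 0xbc000178000302b326051a6c0b1c58174f3026c8) b23454 (.hit (nat_lit 47) (nat_lit 15) (nat_lit 0xbc000178000302154605744c0a03181671b02758) b23455 (.nil))) (.tok (nat_lit 9) (nat_lit 0xbc0001780003002c45fff4ec005897ff1f2ffea3) (.hit (nat_lit 48) (nat_lit 20) (nat_lit 0xbc0001780002ff2cb5fd54abf980d7f694afeb91) b23452 (.hit (nat_lit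 49) (nat_lit 28) (nat_lit 0xbc0001780003002c45fff4ec005897ff1f2ffea3) b23453 (.nil))) (.nil)))) (.tok (nat_lit 55) (nat_lit 0xbc00017800030126b60148ac0168d80664b00b31) (.hit (nat_lit 40) (nat_lit 0) (nat_lit 0xbc000178000300e295ff99cbfe0b17ffa92ffdba) b23446 (.tok (nat_lit 3) (nat_lit 0xbc000178000300dca600b48c0040980414300690) (.hit (nat_lit 41) (nat_lit 1) (nat_lit 0xbc0001780002fff145feddcbfc9317fcb92ff7da) b23447 (.one (nat_lit 67) (nat_lit 42) (nat_lit 2) (nat_lit 0xbc000178000300dca600b48c0040980414300690) b23448 (.nil))) (.tok (nat_lit 6) (nat_lit 0xbc00017800030126b60148ac0168d80664b00b31) (.hit (nat_lit 43) (nat_lit 7) (nat_lit 0xbc00017800030126b60148ac0168d80664b00b31) b23449 (.hit (nat_lit 44) (nat_lit 15) (nat_lit 0xbc0001780002ff5935fdadabfa32d7f7f8afee59) b23450 (.nil))) (.nil)))) (.tok (nat_lit 58) (nat_lit 0xbc000178000302780603eb4c06ae1810ef302046) (.hit (nat_lit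 32) (nat_lit 0) (nat_lit 0xbc000178000301672603054c0566d80df2301191) b23441 (.tok (nat_lit 3) (nat_lit 0xbc000178000302780603eb4c06ae1810ef302046) (.hit (nat_lit 33) (nat_lit 1) (nat_lit 0xbc00017800030144a601848c01e0980754300d10) b23442 (.one (nat_lit 55) (nat_lit 34) (nat_lit 3) (nat_lit 0xbc000178000302780603eb4c06ae1810ef302046) b23443 (.nil))) (.tok (nat_lit 9) (nat_lit 0xbc0001780003019226021f8c03169809c03011e8) (.hit (nat_lit 35) (nat_lit 20) (nat_lit 0xbc0001780003019226021f8c03169809c03011e8) b23444 (.hit (nat_lit 38) (nat_lit 28) (nat_lit 0xbc0001780003010d460115cc010318059930099a) b23445 (.nil))) (.nil)))) (.nil))))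
noncomputable def r24_15 : Rw Blk := .tok (nat_lit 3) (nat_lit 0xbc000178000303c8260758ac0bced81dc0b02eec) (.hit (nat_lit 0) (nat_lit 0) (nat_lit 0xbc000178000303c82606f66c0bced81dc0b02a39) b23456 (.tok (nat_lit 9) (nat_lit 0xbc0001780003023a6603eeec062b5810aeb011aa) (.hit (nat_lit 1) (nat_lit 20) (nat_lit 0xbc0001780002ff6ca5fe536bfaf457fa40afe4ce) b23457 (.hit (nat_lit 6) (nat_lit 28) (nat_lit 0xbc0001780002ffc4e5ff03ebfc5557fd02afea52) b23460 (.tok (nat_lit 14) (nat_lit 0xbc0001780003023a6603eeec062b5810aeb011aa) (.hit (nat_lit 2) (nat_lit 24) (nat_lit 0xbc00017800030127f601ca0c01e198081b300083) b23458 (.hit (nat_lit 7) (nat_lit 30) (nat_lit 0xbc0001780003023a6603eeec062b5810aeb011aa) b23461 (.one (nat_lit 6) (nat_lit 3) (nat_lit 25) (nat_lit 0xbc00017800030101a6017d6c01485806e8affe1e) b23459 (.nil)))) (.nil)))) (.tok (nat_lit 64) (nat_lit 0xbc000178000302bd3604f48c08369814c53019d7)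 (.hit (nat_lit 9) (nat_lit 50) (nat_lit 0xbc00017800030268a6044b6c06e4581220b0148e) b23462 (.hit (nat_lit 10) (nat_lit 51) (nat_lit 0xbc000178000302bd3604f48c08369814c53019d7) b23463 (.nil))) (.tok (nat_lit 67) (nat_lit 0xbc000178000303a7460758ac0a54d81d9e302eec) (.hit (nat_lit 11) (nat_lit 52) (nat_lit 0xbc000178000303a7460758ac0a54d81d9e302eec) b23464 (.tok (nat_lit 3) (nat_lit 0xbc000178000301e3460340ac04ced80df5b00c38) (.hit (nat_lit 17) (nat_lit 58) (nat_lit 0xbc000178000301e3460340ac04ced80df5b00c38) b23467 (.one (nat_lit 55) (nat_lit 18) (nat_lit 59) (nat_lit 0xbc000178000301d5460324ac0496d80d85b00b58) b23468 (.nil))) (.tok (nat_lit 9) (nat_lit 0xbc00017800030191c6029dac0388d80b69b00720) (.hit (nat_lit 12) (nat_lit 53) (nat_lit 0xbc00017800030191c6029dac0388d80b69b00720) b23465 (.hit (nat_lit 15) (nat_lit 56) (nat_lit 0xbc0001780003018216027e4c034a180aec300625) b23466 (.nil)))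 (.nil)))) (.one (nat_lit 70) (nat_lit 19) (nat_lit 60) (nat_lit 0xbc00017800030229c603cdac05e8d81029b010a0) b23469 (.nil)))))) (.tok (nat_lit 6) (nat_lit 0xbc0001780003060b3609c7cc157e582898b05065) (.hit (nat_lit 20) (nat_lit 0) (nat_lit 0xbc000178000304e44609c7cc0974182058b04277) b23470 (.tok (nat_lit 6) (nat_lit 0xbc0001780003060b36092e8c157e582898b05065) (.hit (nat_lit 21) (nat_lit 7) (nat_lit 0xbc00017800030365c605d90c0ce3d81c9eb029bd) b23471 (.hit (nat_lit 24) (nat_lit 15) (nat_lit 0xbc000178000302e83605f34c0dac58161eb03139) b23474 (.tok (nat_lit 14) (nat_lit 0xbc0001780003060b36092e8c157e582898b05065) (.hit (nat_lit 22) (nat_lit 11) (nat_lit 0xbc000178000304ccd607a84c0afb181fabb037c9) b23472 (.hit (nat_lit 25) (nat_lit 17) (nat_lit 0xbc000178000303a29605204c0bf09817a3b02d6c) b23475 (.one (nat_lit 9) (nat_lit 23) (nat_lit 12) (nat_lit 0xbc0001780003060b36092e8c157e582898b05065)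 b23473 (.nil)))) (.one (nat_lit 68) (nat_lit 26) (nat_lit 18) (nat_lit 0xbc00017800030483a608a1cc12bdd822fc30443d) b23476 (.nil))))) (.nil))) (.nil))
noncomputable def r24_16 : Rw Blk := .tok (nat_lit 6) (nat_lit 0xbc0001780002febc45fd178bffe3d7f6152fe230) (.hit (nat_lit 0) (nat_lit 0) (nat_lit 0xbc0001780002fcb4a5fb55cbf56717ed1f2fd1a9) b23477 (.one (nat_lit 26) (nat_lit 32) (nat_lit 72) (nat_lit 0xbc0001780002fc6695f7d66bf38697df42afb7c6) b23478 (.one (nat_lit 29) (nat_lit 33) (nat_lit 73) (nat_lit 0xbc0001780002fc4be5f7e04bf2e1d7df632fb816) b23479 (.one (nat_lit 32) (nat_lit 34) (nat_lit 74) (nat_lit 0xbc0001780002fbcb65f7fa4bf12a57de632fb94c) b23481 (.one (nat_lit 35) (nat_lit 35) (nat_lit 75) (nat_lit 0xbc0001780002fcc3b5f88eebf512d7e22a2fbd8c) b23480 (.one (nat_lit 38) (nat_lit 36) (nat_lit 76) (nat_lit 0xbc0001780002fc9b45f9c4ebf50a97e58dafc7a1) b23482 (.tok (nat_lit 41)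 (nat_lit 0xbc0001780002fc7565f8a64bf4ae17e18c2fbeac) (.hit (nat_lit 37) (nat_lit 77) (nat_lit 0xbc0001780002fc7565f8208bf32cd7e070afba84) b23483 (.hit (nat_lit 38) (nat_lit 78) (nat_lit 0xbc0001780002fc4445f8a64bf4ae17e18c2fbeac) b23484 (.nil))) (.tok (nat_lit 44) (nat_lit 0xbc0001780002fd0dc5f92c8bf56557e4a0afc32c) (.hit (nat_lit 39) (nat_lit 79) (nat_lit 0xbc0001780002fd0dc5f92c8bf56557e4a0afc32c) b23487 (.hit (nat_lit 40) (nat_lit 80) (nat_lit 0xbc0001780002fc85a5f8422bf3f857e0392fbb8b) b23488 (.nil))) (.tok (nat_lit 47) (nat_lit 0xbc0001780002fcf005f8e6cbf61397e389afc05d) (.hit (nat_lit 41) (nat_lit 81) (nat_lit 0xbc0001780002f9bc85f6b9cbee3e57d9612faf48) b23485 (.hit (nat_lit 42) (nat_lit 82) (nat_lit 0xbc0001780002fcf005f8e6cbf61397e389afc05d) b23486 (.nil))) (.one (nat_lit 50) (nat_lit 43) (nat_lit 83) (nat_lit 0xbc0001780002fd3c75f97fabf6f7d7e5ed2fc50f) b23498 (.tok (nat_lit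 53) (nat_lit 0xbc0001780002fd5b05fb2febf987d7ecae2fd32a) (.hit (nat_lit 44) (nat_lit 84) (nat_lit 0xbc0001780002fd5b05fb2febf987d7ecae2fd32a) b23499 (.hit (nat_lit 45) (nat_lit 85) (nat_lit 0xbc0001780002fd13c5f93d0bf68697e4e2afc2fb) b23500 (.nil))) (.tok (nat_lit 56) (nat_lit 0xbc0001780002febc45fd178bffe3d7f6152fe230) (.hit (nat_lit 46) (nat_lit 86) (nat_lit 0xbc0001780002fe36e5fcce6bfc2817f323afdd72) b23501 (.one (nat_lit 3) (nat_lit 50) (nat_lit 90) (nat_lit 0xbc0001780002fd8e15fa712bf99e17ebd9afcd7f) b23505 (.tok (nat_lit 6) (nat_lit 0xbc0001780002febc45fd178bf9a6d7f2ac2fdd8f) (.hit (nat_lit 48) (nat_lit 88) (nat_lit 0xbc0001780002febc45fd178bf9a6d7f2ac2fdd8f) b23503 (.hit (nat_lit 49) (nat_lit 89) (nat_lit 0xbc0001780002fd7d15fa1cabf86557e8112fca5f) b23504 (.nil))) (.one (nat_lit 9) (nat_lit 47) (nat_lit 87) (nat_lit 0xbc0001780002fe8615fd09cbffe3d7f6152fe230) b23502 (.nil)))))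 (.one (nat_lit 59) (nat_lit 51) (nat_lit 91) (nat_lit 0xbc0001780002fcc2a5f88c0bf51257e21eafbd73) b23506 (.one (nat_lit 62) (nat_lit 52) (nat_lit 92) (nat_lit 0xbc0001780002fc8455f8f2abf443d7e244afc10f) b23489 (.tok (nat_lit 65) (nat_lit 0xbc0001780002fc51e5f9c90bf4a957e59e2fc7c2) (.hit (nat_lit 53) (nat_lit 93) (nat_lit 0xbc0001780002fc0495f9c90bf45cd7e59e2fc7c2) b23490 (.hit (nat_lit 54) (nat_lit 94) (nat_lit 0xbc0001780002fc51e5f8502bf4a957e12f2fbb9c) b23491 (.nil))) (.tok (nat_lit 68) (nat_lit 0xbc0001780002fcc265fc8c4bf77817f18aafdacf) (.hit (nat_lit 55) (nat_lit 95) (nat_lit 0xbc0001780002fcc265fc8c4bf77817f18aafdacf) b23492 (.one (nat_lit 3) (nat_lit 59) (nat_lit 99) (nat_lit 0xbc0001780002fbc3f5fac8abf65c17e99cafcfbf) b23496 (.one (nat_lit 6) (nat_lit 56) (nat_lit 96) (nat_lit 0xbc0001780002fbade5fa9c8bf603d7e8ec2fce5e) b23493 (.tok (nat_lit 9) (nat_lit 0xbc0001780002fbf6d5fb2e6bf72797eb33afd2ed)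 (.hit (nat_lit 57) (nat_lit 97) (nat_lit 0xbc0001780002fbf6d5fb2e6bf72797eb33afd2ed) b23494 (.hit (nat_lit 58) (nat_lit 98) (nat_lit 0xbc0001780002fbd1b5fae42bf69317ea0aafd09b) b23495 (.nil))) (.nil))))) (.one (nat_lit 71) (nat_lit 60) (nat_lit 100) (nat_lit 0xbc0001780002fc84e5f818ebf43cd7e0522fb9e0) b23497 (.nil)))))))))))))))))) (.tok (nat_lit 52) (nat_lit 0xbc0001780002fead55ff214c023c57fbc6aff1d5) (.hit (nat_lit 176) (nat_lit 0) (nat_lit 0xbc0001780002fe8eb5fe91cbfd5617f8d8aff026) b23507 (.tok (nat_lit 6) (nat_lit 0xbc0001780002fead55ff214c023c57fbc6aff1d5) (.hit (nat_lit 177) (nat_lit 7) (nat_lit 0xbc0001780002fead55ff214c023c57fbc6aff1d5) b23510 (.hit (nat_lit 178) (nat_lit 15) (nat_lit 0xbc0001780002fdab45fc9f8bf8ff17f1deafde05) b23511 (.nil))) (.tok (nat_lit 9) (nat_lit 0xbc0001780002fe2ef5fe76abfcfe97f9c9afe82f) (.hit (nat_lit 179) (nat_lit 20) (nat_lit 0xbc0001780002fd4b05fa960bf87097ea582fd5c8)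 b23508 (.hit (nat_lit 180) (nat_lit 28) (nat_lit 0xbc0001780002fe2ef5fe76abfcfe97f9c9afe82f) b23509 (.nil))) (.nil)))) (.tok (nat_lit 55) (nat_lit 0xbc0001780002fee115fe164bfd4417f847afe9ee) (.hit (nat_lit 187) (nat_lit 0) (nat_lit 0xbc0001780002fee115fe164bfd4417f847afe9ee) b23519 (.one (nat_lit 3) (nat_lit 188) (nat_lit 1) (nat_lit 0xbc0001780002fcdc25f9b84bf6b517e6e12fceda) b23520 (.tok (nat_lit 6) (nat_lit 0xbc0001780002fe4375fc86ebfc5257f21bafe54f) (.hit (nat_lit 190) (nat_lit 7) (nat_lit 0xbc0001780002fcaa15f9542bf5ecd7e550afcbb9) b23521 (.hit (nat_lit 193) (nat_lit 15) (nat_lit 0xbc0001780002fcdd55f9baabf6b9d7e6eaafceed) b23524 (.tok (nat_lit 55) (nat_lit 0xbc0001780002fe4375fc86ebfc5257f21bafe54f) (.hit (nat_lit 191) (nat_lit 8) (nat_lit 0xbc0001780002fda205fb440bf9cc97ed102fdb38) b23522 (.hit (nat_lit 194) (nat_lit 16) (nat_lit 0xbc0001780002fdccb5fb996bfa7757ee65afdde3)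 b23525 (.one (nat_lit 6) (nat_lit 192) (nat_lit 9) (nat_lit 0xbc0001780002fe4375fc86ebfc5257f21bafe54f) b23523 (.nil)))) (.nil)))) (.nil)))) (.tok (nat_lit 58) (nat_lit 0xbc000178000300000600000c0344980000300118) (.hit (nat_lit 201) (nat_lit 0) (nat_lit 0xbc0001780002fe1095fca38bfa3517f1e52fdd54) b23512 (.one (nat_lit 3) (nat_lit 202) (nat_lit 1) (nat_lit 0xbc0001780002fceee5f9ddcbf70017e7772fd006) b23513 (.tok (nat_lit 9) (nat_lit 0xbc000178000300000600000c0344980000300118) (.hit (nat_lit 204) (nat_lit 20) (nat_lit 0xbc0001780002fd64b5fac96bf8d757eb25afd763) b23514 (.hit (nat_lit 207) (nat_lit 28) (nat_lit 0xbc0001780002fcd025f9a04bf68517e6812fce1a) b23517 (.tok (nat_lit 67) (nat_lit 0xbc000178000300000600000c0344980000300118) (.hit (nat_lit 205) (nat_lit 21) (nat_lit 0xbc0001780002fe2f05fc5e0bfc0097f1782fe408) b23515 (.hit (nat_lit 208) (nat_lit 29) (nat_lit 0xbc0001780002fe6c15fcd82bfcf4d7f360afe7d9)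 b23518 (.one (nat_lit 9) (nat_lit 206) (nat_lit 22) (nat_lit 0xbc000178000300000600000c0344980000300118) b23516 (.nil)))) (.nil)))) (.nil)))) (.nil))))
noncomputable def r24_17 : Rw Blk := .tok (nat_lit 3) (nat_lit 0xbc0001780002fe3045fcc48bf18017f2872fe739) (.hit (nat_lit 15) (nat_lit 0) (nat_lit 0xbc0001780002fe3045fcc48bf18017f2872fe739) b23540 (.tok (nat_lit 9) (nat_lit 0xbc0001780002fd7a65fb02cbf00f17eb1cafd7e9) (.hit (nat_lit 16) (nat_lit 20) (nat_lit 0xbc0001780002fc1d15f8482bea99d7e0322fc214) b23541 (.hit (nat_lit 21) (nat_lit 28) (nat_lit 0xbc0001780002fa1185f4310be26b97cfd5afa15b) b23546 (.tok (nat_lit 14) (nat_lit 0xbc0001780002fd14c5fa378bee7897e7efafd18f) (.hit (nat_lit 17) (nat_lit 24) (nat_lit 0xbc0001780002fc98c5f93f8bec8897e40fafc9cf) b23542 (.hit (nat_lit 22) (nat_lit 30) (nat_lit 0xbc0001780002fc8a75f922ebec4f57e39d2fc8ea) b23547 (.one (nat_lit 6) (nat_lit 18)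 (nat_lit 25) (nat_lit 0xbc0001780002fd14c5fa378bee7897e7efafd18f) b23543 (.nil)))) (.one (nat_lit 56) (nat_lit 23) (nat_lit 31) (nat_lit 0xbc0001780002fca105f9500beca997e451afca53) b23548 (.tok (nat_lit 68) (nat_lit 0xbc0001780002fd7a65fb02cbf00f17eb1cafd7e9) (.hit (nat_lit 19) (nat_lit 26) (nat_lit 0xbc0001780002fcd785f9bd0bed8397e605afcdbb) b23544 (.hit (nat_lit 24) (nat_lit 32) (nat_lit 0xbc0001780002fc5915f8c02beb89d7e2122fc5d4) b23549 (.one (nat_lit 9) (nat_lit 20) (nat_lit 27) (nat_lit 0xbc0001780002fd7a65fb02cbf00f17eb1cafd7e9) b23545 (.nil)))) (.nil)))))) (.nil))) (.tok (nat_lit 6) (nat_lit 0xbc000178000302a45603feac06fc5810dd302589) (.hit (nat_lit 0) (nat_lit 0) (nat_lit 0xbc0001780002fee665fddc0bf71dd7f7742fef93) b23526 (.tok (nat_lit 6) (nat_lit 0xbc000178000300434602b74c028618089e301351) (.hit (nat_lit 1) (nat_lit 7) (nat_lit 0xbc0001780002fe3ef5fbfcabf59ed7f0b92fe290)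 b23527 (.hit (nat_lit 4) (nat_lit 15) (nat_lit 0xbc0001780002fcc0e5f8e50bed4c97e39b2fc96b) b23530 (.tok (nat_lit 14) (nat_lit 0xbc000178000300434602b74c028618089e301351) (.hit (nat_lit 2) (nat_lit 11) (nat_lit 0xbc000178000300434602b74c028618089e301351) b23528 (.hit (nat_lit 5) (nat_lit 17) (nat_lit 0xbc0001780002fe3865fbdfabf54797efea2fe036) b23531 (.one (nat_lit 9) (nat_lit 3) (nat_lit 12) (nat_lit 0xbc0001780002ff96b60160ebffadd803dcb00d38) b23529 (.nil)))) (.nil)))) (.tok (nat_lit 52) (nat_lit 0xbc0001780003001b45ffc60bfab9d7ff6eb00034) (.hit (nat_lit 7) (nat_lit 39) (nat_lit 0xbc0001780003001b45ffc60bfab9d7ff6eb00034) b23532 (.hit (nat_lit 8) (nat_lit 40) (nat_lit 0xbc0001780002fec3b5fce02bf75757f3b1afe9de) b23533 (.nil))) (.tok (nat_lit 55) (nat_lit 0xbc000178000302a45603feac06fc5810dd302589) (.hit (nat_lit 9) (nat_lit 41) (nat_lit 0xbc000178000302a45603feac06fc5810dd302589)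 b23534 (.tok (nat_lit 3) (nat_lit 0xbc0001780003013f6601cf0c00b19807e7b00f00) (.hit (nat_lit 12) (nat_lit 47) (nat_lit 0xbc0001780002ffac95fee48bfae297fe7baffb66) b23537 (.one (nat_lit 67) (nat_lit 13) (nat_lit 48) (nat_lit 0xbc0001780003013f6601cf0c00b19807e7b00f00) b23538 (.nil))) (.tok (nat_lit 6) (nat_lit 0xbc00017800030065e5ffc52bf8e317fedab000be) (.hit (nat_lit 10) (nat_lit 42) (nat_lit 0xbc00017800030065e5ffc52bf8e317fedab000be) b23535 (.hit (nat_lit 11) (nat_lit 45) (nat_lit 0xbc0001780002ff7e55fe568bf8d457fa26aff5da) b23536 (.nil))) (.nil)))) (.one (nat_lit 58) (nat_lit 14) (nat_lit 49) (nat_lit 0xbc0001780002fe2dc5fdc3cbf844d7f8472ff193) b23539 (.nil)))))) (.nil))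
noncomputable def r24_18 : Rw Blk := .tok (nat_lit 6) (nat_lit 0x300000600000c000017f5c4aff4935fe2cebfc9ad801cb300000600000bfea9d7ffe0b00000600000c02961800003000c7) (.hit (nat_lit 81) (nat_lit 0) (nat_lit 0x2fe4b85fd5d4bf98697f5c4aff1715fe2cebfc9ad7f19aafe1515fc834bfca717f6312ff8105fca3cbf6c597f29cafe3be) b23560 (.tok (nat_lit 3) (nat_lit 0x2feb0b5fd3a2bfd9517ef1b2fe80f5fc8fcbf94897f9ec2ff4515fd63ebfa0ad7f5e6afe9295fdce0bfbdd17fd822ff809) (.hit (nat_lit 82) (nat_lit 1) (nat_lit 0x2fcbb35f88b0bf69c97debb2fc74f5f877cbf11897e895afcc775f9baabf1dad7e6ce2fc9a35fa02cbf25897ebd9afdc11) b23561 (.one (nat_lit 56) (nat_lit 86) (nat_lit 6) (nat_lit 0x2fde885fbe9cbf85197e7e9afd9ac5fac36bf5afd7f4ed2fe12a5fb604bf73b57f1a4afe0d45fc1b2bf8b157f4342fe349) b23562 (.one (nat_lit 68) (nat_lit 85) (nat_lit 5) (nat_lit 0x2feb0b5fd3a2bfd9517ef1b2fe80f5fc8fcbf94897f9ec2ff4515fd63ebfa0ad7f5e6afe9295fdce0bfbdd17fd822ff809)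 b23563 (.nil)))) (.tok (nat_lit 40) (nat_lit 0x2fe7215fd042bfb9597ea082fdc105fb326bf67197f6e62fe8da5fd0d2bf8d7d7f55fafe72d5fd570bfa6bd7fb152fe7bb) (.hit (nat_lit 100) (nat_lit 33) (nat_lit 0x2fe7215fd042bfb9597ea082fdc105fb326bf67197f5afafe87a5fc54abf8d7d7f55fafe72d5fd570bfa6bd7fb152fe7bb) b23564 (.hit (nat_lit 101) (nat_lit 34) (nat_lit 0x2fe2775fb726bf90d17e6e92fd5d65fa736bf4ed97f6e62fe8da5fd0d2bf76857f163afe32b5fccd2bf9ecd7f5b2afe756) b23565 (.nil))) (.tok (nat_lit 43) (nat_lit 0x2fecc7600000bfc0317f26b2feeaf5fd63cbfaf097ffa42ff96c5fec5cbfc3697fb58aff2e35ff0a6bfa0857fbdbaff2b8) (.hit (nat_lit 102) (nat_lit 35) (nat_lit 0x2fecc7600000bfc0317f26b2feeaf5fd63cbfaf097ffa42ff96c5fec5cbfc3697fb58aff2e35ff0a6bfa0857faccaff2b8) b23568 (.hit (nat_lit 103) (nat_lit 36) (nat_lit 0x2fe7225fd476bfbc317eda0afe51a5fc312bf88b57f5a2afe5935fcdc4bf94d97f62aafe8e35fda3ebf8c417fbdbafeea3) b23569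 (.nil))) (.tok (nat_lit 46) (nat_lit 0x3000005ff54cc000017f55d2ff4935fe204bfc699801cb300000600000bfea9d7ffe0b00000600000c02961800003000c7) (.hit (nat_lit 104) (nat_lit 37) (nat_lit 0x2fe23a5fbc94bfed7d7f55d2ff4935fe204bfc6997f05eafe4c35fb794bfd2bd7f8ceaff1c25fca7cbf31457f28b3000c7) b23566 (.hit (nat_lit 105) (nat_lit 38) (nat_lit 0x3000005ff54cc000017f559aff04a5fe114bfc255801cb300000600000bfea9d7ffe0b00000600000c02961800003000b0) b23567 (.nil))) (.nil)))))) (.tok (nat_lit 9) (nat_lit 0x300000600000c0000180000300000600000c000017f05eafe6aa5fbbb6c00001800002ffff55fca7cbf31457f467aff21d) (.hit (nat_lit 157) (nat_lit 0) (nat_lit 0x2fe4b85fd5d4bf98697f0f6afec4f5fcf4abfa4297edf8afe6aa5fbbb6bfd2597f8b82fedf05fc95cbf29997ed67afe0ec) b23550 (.tok (nat_lit 3) (nat_lit 0x2feb0b5fd3a2bfd9517f30bafe80f5fcd3abf9b997ea1cafd83f5f9e8cbfa0ad7f5d3afe9005fb174beff357ec8dafea90) (.hit (nat_lit 158)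 (nat_lit 1) (nat_lit 0x2fcbb35f88b0bf69c97e133afc74f5f8e96bf1e317d9bcafb77f5f5d0cbf1dad7e6d4afc9a25f6ff4be7c357e1052fd91c) b23551 (.one (nat_lit 56) (nat_lit 162) (nat_lit 6) (nat_lit 0x2feb0b5fd3a2bfd9517f30bafe80f5fcd3abf9b997ea1cafd83f5f9e8cbfa0ad7f5d3afe9005fb174beff357ec8dafea90) b23552 (.one (nat_lit 68) (nat_lit 161) (nat_lit 5) (nat_lit 0x2fde885fbe9cbf85197ed47afde395fbc70bf7a017e2eb2fc9dc5f81c6bf78b97f191afe09b5f94aebec5a97ea10afe233) b23553 (.nil)))) (.tok (nat_lit 40) (nat_lit 0x2fe7215fd042bfb9597f06eafe3ab5fc48ebf8d257e41d2fcc405f868ebf88757f2f5afe6125f9976becf397ec3e2fd96b) (.hit (nat_lit 176) (nat_lit 33) (nat_lit 0x2fe7215fd042bfb9597ee5f2fe3ab5fc48ebf8d257e41d2fcc405f868ebf88757f2f5afe6125f9976becf397ec3e2fd3fe) b23554 (.hit (nat_lit 177) (nat_lit 34) (nat_lit 0x2fe2775fb726bf90d17f06eafe2785fc2ecbf88f97e1002fc6065f7a1abf82c97f10a2fe2a15f8d02beb6517eafdafd96b)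 b23555 (.nil))) (.tok (nat_lit 43) (nat_lit 0x3000005ff54cc0000180000300000600000c000017f05eafe4c35fb794c00001800002ffff55fca7cbf31457f467aff21d) (.hit (nat_lit 178) (nat_lit 35) (nat_lit 0x2fe23a5fbc94bfed7d7f55d2ff4935fe204bfc6997f05eafe4c35fb794bfd2bd7f8ceaff1c25fca7cbf31457f28b2fee3e) b23558 (.hit (nat_lit 179) (nat_lit 36) (nat_lit 0x3000005ff54cc0000180000300000600000c000017eb682fdad65fa3bac00001800002ffff55fb6a2bf09917f467aff21d) b23559 (.nil))) (.tok (nat_lit 46) (nat_lit 0x2fecc7600000bfc0317f2ecaff3535fe8d0bfbe8d7ed6cafdedf5fabccbfd8f17fbc4afec9a5fbeb4bf19b57ef992fd8f2) (.hit (nat_lit 180) (nat_lit 37) (nat_lit 0x2fecc7600000bfc0317f2df2ff3535fe8d0bfbe8d7ed6cafdedf5fabccbfd8f17fbc4afec9a5fbeb4bf19b57ef992fd8f2) b23556 (.hit (nat_lit 181) (nat_lit 38) (nat_lit 0x2fe7225fd476bfbc317f2ecafe7cd5fcc7ebf9c997e8a22fd54a5f98a2bf94d97f3d0afe42f5fab8abef3617edeaafd682) b23557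 (.nil))) (.nil)))))) (.nil))
noncomputable def r24_19 : Rw Blk := .tok (nat_lit 3) (nat_lit 0x2f00005e0000bfbaf97f4f12feb45) (.hit (nat_lit 61) (nat_lit 0) (nat_lit 0x2f00005e0000bf73997e9392fd420) b23668 (.one (nat_lit 26) (nat_lit 93) (nat_lit 72) (nat_lit 0x2f00005e0000bec4d57d94d2fb363) b23669 (.one (nat_lit 29) (nat_lit 94) (nat_lit 73) (nat_lit 0x2f00005e0000becf017da92afb5ee) b23670 (.one (nat_lit 32) (nat_lit 95) (nat_lit 74) (nat_lit 0x2f00005e0000bef3bd7df2a2fbf1d) b23672 (.one (nat_lit 35) (nat_lit 96) (nat_lit 75) (nat_lit 0x2f00005e0000bedf857dca32fba0f) b23671 (.one (nat_lit 38) (nat_lit 97) (nat_lit 76) (nat_lit 0x2f00005e0000bf0b1d7e2162fc4f5) b23673 (.tok (nat_lit 41) (nat_lit 0x2f00005e0000bf04097e133afc330) (.hit (nat_lit 98) (nat_lit 77) (nat_lit 0x2f00005e0000beaa197d5f5afacb4) b23674 (.hit (nat_lit 99) (nat_lit 78) (nat_lit 0x2f00005e0000bf04097e133afc330)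 b23675 (.nil))) (.tok (nat_lit 44) (nat_lit 0x2f00005e0000beecbd7de4a2fbd5d) (.hit (nat_lit 100) (nat_lit 79) (nat_lit 0x2f00005e0000beba697d7ffafb0c8) b23678 (.hit (nat_lit 101) (nat_lit 80) (nat_lit 0x2f00005e0000beecbd7de4a2fbd5d) b23679 (.nil))) (.tok (nat_lit 47) (nat_lit 0x2f00005e0000bef0717dec0afbe4a) (.hit (nat_lit 102) (nat_lit 81) (nat_lit 0x2f00005e0000beec897de43afbd50) b23676 (.hit (nat_lit 103) (nat_lit 82) (nat_lit 0x2f00005e0000bef0717dec0afbe4a) b23677 (.nil))) (.one (nat_lit 50) (nat_lit 104) (nat_lit 83) (nat_lit 0x2f00005e0000bf0d257e2572fc577) b23689 (.tok (nat_lit 53) (nat_lit 0x2f00005e0000bf1a517e3fcafc8c2) (.hit (nat_lit 105) (nat_lit 84) (nat_lit 0x2f00005e0000bf1a517e3fcafc8c2) b23690 (.hit (nat_lit 106) (nat_lit 85) (nat_lit 0x2f00005e0000befef17e090afc1ea) b23691 (.nil))) (.tok (nat_lit 56) (nat_lit 0x2f00005e0000bf815d7ece42fde48) (.hit (nat_lit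 107) (nat_lit 86) (nat_lit 0x2f00005e0000bf815d7ece42fde48) b23692 (.one (nat_lit 3) (nat_lit 111) (nat_lit 90) (nat_lit 0x2f00005e0000bf398d7e7e42fd091) b23696 (.tok (nat_lit 6) (nat_lit 0x2f00005e0000bf81397ec86afd9d6) (.hit (nat_lit 109) (nat_lit 88) (nat_lit 0x2f00005e0000bf81397ec86afd9d6) b23694 (.hit (nat_lit 110) (nat_lit 89) (nat_lit 0x2f00005e0000bf3a5d7e7fe2fd0c5) b23695 (.nil))) (.one (nat_lit 9) (nat_lit 108) (nat_lit 87) (nat_lit 0x2f00005e0000bf45a97e967afd398) b23693 (.nil))))) (.one (nat_lit 59) (nat_lit 112) (nat_lit 91) (nat_lit 0x2f00005e0000bebbe97d82fafb128) b23697 (.one (nat_lit 62) (nat_lit 113) (nat_lit 92) (nat_lit 0x2f00005e0000bf28497e5bbafcc40) b23680 (.tok (nat_lit 65) (nat_lit 0x2f00005e0000bf3f2d7e8982fd1f9) (.hit (nat_lit 114) (nat_lit 93) (nat_lit 0x2f00005e0000bf3f2d7e8982fd1f9) b23681 (.hit (nat_lit 115) (nat_lit 94) (nat_lit 0x2f00005e0000beff3d7e09a2fc1fd)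 b23682 (.nil))) (.tok (nat_lit 68) (nat_lit 0x2f00005e0000bfbaf97f4f12feb45) (.hit (nat_lit 116) (nat_lit 95) (nat_lit 0x2f00005e0000bfbaf97f4f12feb45) b23683 (.one (nat_lit 3) (nat_lit 120) (nat_lit 99) (nat_lit 0x2f00005e0000bf55457eb5b2fd77f) b23687 (.one (nat_lit 6) (nat_lit 117) (nat_lit 96) (nat_lit 0x2f00005e0000bf61617ecdeafda86) b23684 (.tok (nat_lit 9) (nat_lit 0x2f00005e0000bf75357ef592fdf7b) (.hit (nat_lit 118) (nat_lit 97) (nat_lit 0x2f00005e0000bf62e17ed0eafdae6) b23685 (.hit (nat_lit 119) (nat_lit 98) (nat_lit 0x2f00005e0000bf75357ef592fdf7b) b23686 (.nil))) (.nil))))) (.one (nat_lit 71) (nat_lit 121) (nat_lit 100) (nat_lit 0x2f00005e0000bebb697d81fafb108) b23688 (.nil)))))))))))))))))) (.tok (nat_lit 40) (nat_lit 0x2f00005e0000c11fbd81c20b03681) (.hit (nat_lit 245) (nat_lit 0) (nat_lit 0x2f00005e0000c060e58079cb010ff) b23698 (.tok (nat_lit 6) (nat_lit 0x2f00005e0000c11fbd81c20b03681)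 (.hit (nat_lit 246) (nat_lit 7) (nat_lit 0x2f00005e0000c11fbd81c20b03681) b23701 (.hit (nat_lit 247) (nat_lit 15) (nat_lit 0x2f00005e0000c0031d7f9ddaff9cc) b23702 (.nil))) (.tok (nat_lit 9) (nat_lit 0x2f00005e0000c01485801ffb00798) (.hit (nat_lit 248) (nat_lit 20) (nat_lit 0x2f00005e0000c01485801ffb00798) b23699 (.hit (nat_lit 249) (nat_lit 28) (nat_lit 0x2f00005e0000bfbfd17fddfaffea3) b23700 (.nil))) (.nil)))) (.tok (nat_lit 43) (nat_lit 0x2f00005e0000c07ee980b5eb01b91) (.hit (nat_lit 270) (nat_lit 0) (nat_lit 0x2f00005e0000c022fd8068d3004bc) b23710 (.one (nat_lit 3) (nat_lit 271) (nat_lit 1) (nat_lit 0x2f00005e0000c0000d7fe512ff9fb) b23711 (.tok (nat_lit 6) (nat_lit 0x2f00005e0000c07ee980b5eb01b91) (.hit (nat_lit 273) (nat_lit 7) (nat_lit 0x2f00005e0000bfcb8d7f848afefb0) b23712 (.hit (nat_lit 276) (nat_lit 15) (nat_lit 0x2f00005e0000bfde297fd02b001f5) b23715 (.tok (nat_lit 55)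 (nat_lit 0x2f00005e0000c07ee980b5eb01b91) (.hit (nat_lit 274) (nat_lit 8) (nat_lit 0x2f00005e0000c0007580103affcd4) b23713 (.hit (nat_lit 277) (nat_lit 16) (nat_lit 0x2f00005e0000c07ee98048a301b91) b23716 (.one (nat_lit 6) (nat_lit 275) (nat_lit 9) (nat_lit 0x2f00005e0000c0711580b5eb01994) b23714 (.nil)))) (.nil)))) (.nil)))) (.tok (nat_lit 46) (nat_lit 0x2f00005e0000c054718031cb00348) (.hit (nat_lit 256) (nat_lit 0) (nat_lit 0x2f00005e0000c054718031cb00140) b23703 (.one (nat_lit 3) (nat_lit 257) (nat_lit 1) (nat_lit 0x2f00005e0000bf79617edcdafde72) b23704 (.tok (nat_lit 9) (nat_lit 0x2f00005e0000c00cb980038b00348) (.hit (nat_lit 259) (nat_lit 20) (nat_lit 0x2f00005e0000bf98897f1b2afe63c) b23705 (.hit (nat_lit 262) (nat_lit 28) (nat_lit 0x2f00005e0000bf83cd7ef1b2fe10d) b23708 (.tok (nat_lit 67) (nat_lit 0x2f00005e0000c00cb980038b00348) (.hit (nat_lit 260) (nat_lit 21) (nat_lit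 0x2f00005e0000bff1a97fcd6affc84) b23706 (.hit (nat_lit 263) (nat_lit 29) (nat_lit 0x2f00005e0000c00cb980038b00348) b23709 (.one (nat_lit 9) (nat_lit 261) (nat_lit 22) (nat_lit 0x2f00005e0000c002457feea3000ab) b23707 (.nil)))) (.nil)))) (.nil)))) (.nil))))
noncomputable def r24_20 : Rw Blk := .tok (nat_lit 3) (nat_lit 0x5e0000bc00017f54dafeefd) (.hit (nat_lit 61) (nat_lit 0) (nat_lit 0x5e0000bc00017eaa0afd6df) b23717 (.one (nat_lit 26) (nat_lit 93) (nat_lit 72) (nat_lit 0x5e0000bc00017dc672fbb45) b23718 (.one (nat_lit 29) (nat_lit 94) (nat_lit 73) (nat_lit 0x5e0000bc00017dcc52fbc01) b23719 (.one (nat_lit 32) (nat_lit 95) (nat_lit 74) (nat_lit 0x5e0000bc00017df3bafc0ee) b23721 (.one (nat_lit 35) (nat_lit 96) (nat_lit 75) (nat_lit 0x5e0000bc00017da5fafb736) b23720 (.one (nat_lit 38) (nat_lit 97) (nat_lit 76) (nat_lit 0x5e0000bc00017e2b7afc7e6) b23722 (.tok (nat_lit 41) (nat_lit 0x5e0000bc00017e6ceafd014)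 (.hit (nat_lit 98) (nat_lit 77) (nat_lit 0x5e0000bc00017d52eafacd4) b23723 (.hit (nat_lit 99) (nat_lit 78) (nat_lit 0x5e0000bc00017e6ceafd014) b23724 (.nil))) (.tok (nat_lit 44) (nat_lit 0x5e0000bc00017df7a2fc16b) (.hit (nat_lit 100) (nat_lit 79) (nat_lit 0x5e0000bc00017da1f2fb6b5) b23727 (.hit (nat_lit 101) (nat_lit 80) (nat_lit 0x5e0000bc00017df7a2fc16b) b23728 (.nil))) (.tok (nat_lit 47) (nat_lit 0x5e0000bc00017e2c7afc806) (.hit (nat_lit 102) (nat_lit 81) (nat_lit 0x5e0000bc00017dce02fbc37) b23725 (.hit (nat_lit 103) (nat_lit 82) (nat_lit 0x5e0000bc00017e2c7afc806) b23726 (.nil))) (.one (nat_lit 50) (nat_lit 104) (nat_lit 83) (nat_lit 0x5e0000bc00017e173afc55e) b23738 (.tok (nat_lit 53) (nat_lit 0x5e0000bc00017e6412fcef9) (.hit (nat_lit 105) (nat_lit 84) (nat_lit 0x5e0000bc00017e336afc8e4) b23739 (.hit (nat_lit 106) (nat_lit 85) (nat_lit 0x5e0000bc00017e6412fcef9) b23740 (.nil)))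 (.tok (nat_lit 56) (nat_lit 0x5e0000bc00017eee4afe0c7) (.hit (nat_lit 107) (nat_lit 86) (nat_lit 0x5e0000bc00017ee7a2fe0c7) b23741 (.one (nat_lit 3) (nat_lit 111) (nat_lit 90) (nat_lit 0x5e0000bc00017eab42fd7df) b23745 (.tok (nat_lit 6) (nat_lit 0x5e0000bc00017eee4afdedb) (.hit (nat_lit 109) (nat_lit 88) (nat_lit 0x5e0000bc00017eee4afdedb) b23743 (.hit (nat_lit 110) (nat_lit 89) (nat_lit 0x5e0000bc00017e6192fcea9) b23744 (.nil))) (.one (nat_lit 9) (nat_lit 108) (nat_lit 87) (nat_lit 0x5e0000bc00017ea82afd77c) b23742 (.nil))))) (.one (nat_lit 59) (nat_lit 112) (nat_lit 91) (nat_lit 0x5e0000bc00017d823afb2be) b23746 (.one (nat_lit 62) (nat_lit 113) (nat_lit 92) (nat_lit 0x5e0000bc00017e39aafc9ac) b23729 (.tok (nat_lit 65) (nat_lit 0x5e0000bc00017ec40afdaf8) (.hit (nat_lit 114) (nat_lit 93) (nat_lit 0x5e0000bc00017ec40afdaf8) b23730 (.hit (nat_lit 115) (nat_lit 94) (nat_lit 0x5e0000bc00017e44fafcb16)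 b23731 (.nil))) (.tok (nat_lit 68) (nat_lit 0x5e0000bc00017f54dafeefd) (.hit (nat_lit 116) (nat_lit 95) (nat_lit 0x5e0000bc00017f3832feefd) b23732 (.one (nat_lit 3) (nat_lit 120) (nat_lit 99) (nat_lit 0x5e0000bc00017e5b5afcde2) b23736 (.one (nat_lit 6) (nat_lit 117) (nat_lit 96) (nat_lit 0x5e0000bc00017f136afe4e4) b23733 (.tok (nat_lit 9) (nat_lit 0x5e0000bc00017f54dafecc1) (.hit (nat_lit 118) (nat_lit 97) (nat_lit 0x5e0000bc00017f54dafecc1) b23734 (.hit (nat_lit 119) (nat_lit 98) (nat_lit 0x5e0000bc00017e2642fc73f) b23735 (.nil))) (.nil))))) (.one (nat_lit 71) (nat_lit 121) (nat_lit 100) (nat_lit 0x5e0000bc00017d81a2fb2ab) b23737 (.nil)))))))))))))))))) (.tok (nat_lit 40) (nat_lit 0x5e0000bc0001803f7b00ab9) (.hit (nat_lit 245) (nat_lit 0) (nat_lit 0x5e0000bc0001803f7b00382) b23747 (.tok (nat_lit 6) (nat_lit 0x5e0000bc00018038fb003c6) (.hit (nat_lit 246) (nat_lit 7) (nat_lit 0x5e0000bc00018038fb003c6)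 b23750 (.hit (nat_lit 247) (nat_lit 15) (nat_lit 0x5e0000bc00017fd66affc62) b23751 (.nil))) (.tok (nat_lit 9) (nat_lit 0x5e0000bc00017fb11300ab9) (.hit (nat_lit 248) (nat_lit 20) (nat_lit 0x5e0000bc00017fb11300ab9) b23748 (.hit (nat_lit 249) (nat_lit 28) (nat_lit 0x5e0000bc00017f801aff90e) b23749 (.nil))) (.nil)))) (.tok (nat_lit 43) (nat_lit 0x5e0000bc000180716300b1c) (.hit (nat_lit 270) (nat_lit 0) (nat_lit 0x5e0000bc00018014bb00139) b23759 (.one (nat_lit 3) (nat_lit 271) (nat_lit 1) (nat_lit 0x5e0000bc00017fa09aff47d) b23760 (.tok (nat_lit 6) (nat_lit 0x5e0000bc000180716300b1c) (.hit (nat_lit 273) (nat_lit 7) (nat_lit 0x5e0000bc00017fb27aff92e) b23761 (.hit (nat_lit 276) (nat_lit 15) (nat_lit 0x5e0000bc00017f6922ffbcd) b23764 (.tok (nat_lit 55) (nat_lit 0x5e0000bc000180716300b1c) (.hit (nat_lit 274) (nat_lit 8) (nat_lit 0x5e0000bc000180318b00030) b23762 (.hit (nat_lit 277)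 (nat_lit 16) (nat_lit 0x5e0000bc00018026db00a8c) b23765 (.one (nat_lit 6) (nat_lit 275) (nat_lit 9) (nat_lit 0x5e0000bc000180716300b1c) b23763 (.nil)))) (.nil)))) (.nil)))) (.tok (nat_lit 46) (nat_lit 0x5e0000bc000180de0b01f5d) (.hit (nat_lit 256) (nat_lit 0) (nat_lit 0x5e0000bc00018032eb0101a) b23752 (.one (nat_lit 3) (nat_lit 257) (nat_lit 1) (nat_lit 0x5e0000bc00017f92e2ff5d5) b23753 (.tok (nat_lit 9) (nat_lit 0x5e0000bc000180de0b01f5d) (.hit (nat_lit 259) (nat_lit 20) (nat_lit 0x5e0000bc000180742b01171) b23754 (.hit (nat_lit 262) (nat_lit 28) (nat_lit 0x5e0000bc000180188300858) b23757 (.tok (nat_lit 67) (nat_lit 0x5e0000bc000180de0b01f5d) (.hit (nat_lit 260) (nat_lit 21) (nat_lit 0x5e0000bc000180bfc301f5d) b23755 (.hit (nat_lit 263) (nat_lit 29) (nat_lit 0x5e0000bc000180d02301b9c) b23758 (.one (nat_lit 9) (nat_lit 261) (nat_lit 22) (nat_lit 0x5e0000bc000180de0b0198d) b23756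 (.nil)))) (.nil)))) (.nil)))) (.nil))))
noncomputable def r24_21 : Rw Blk := .tok (nat_lit 3) (nat_lit 0xbc0001780002fef65) (.hit (nat_lit 61) (nat_lit 0) (nat_lit 0xbc0001780002fdd8d) b23570 (.one (nat_lit 26) (nat_lit 93) (nat_lit 72) (nat_lit 0xbc0001780002fb1dc) b23571 (.one (nat_lit 29) (nat_lit 94) (nat_lit 73) (nat_lit 0xbc0001780002fb467) b23572 (.one (nat_lit 32) (nat_lit 95) (nat_lit 74) (nat_lit 0xbc0001780002fb888) b23574 (.one (nat_lit 35) (nat_lit 96) (nat_lit 75) (nat_lit 0xbc0001780002fbd96) b23573 (.one (nat_lit 38) (nat_lit 97) (nat_lit 76) (nat_lit 0xbc0001780002fc36e) b23575 (.tok (nat_lit 41) (nat_lit 0xbc0001780002fc1a9) (.hit (nat_lit 98) (nat_lit 77) (nat_lit 0xbc0001780002fab2d) b23576 (.hit (nat_lit 99) (nat_lit 78) (nat_lit 0xbc0001780002fc1a9) b23577 (.nil))) (.tok (nat_lit 44) (nat_lit 0xbc0001780002fbcc3) (.hit (nat_lit 100) (nat_lit 79) (nat_lit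 0xbc0001780002fbbc9) b23580 (.hit (nat_lit 101) (nat_lit 80) (nat_lit 0xbc0001780002fbcc3) b23581 (.nil))) (.tok (nat_lit 47) (nat_lit 0xbc0001780002fbbd6) (.hit (nat_lit 102) (nat_lit 81) (nat_lit 0xbc0001780002faf41) b23578 (.hit (nat_lit 103) (nat_lit 82) (nat_lit 0xbc0001780002fbbd6) b23579 (.nil))) (.one (nat_lit 50) (nat_lit 104) (nat_lit 83) (nat_lit 0xbc0001780002fcab9) b23591 (.tok (nat_lit 53) (nat_lit 0xbc0001780002fd072) (.hit (nat_lit 105) (nat_lit 84) (nat_lit 0xbc0001780002fd072) b23592 (.hit (nat_lit 106) (nat_lit 85) (nat_lit 0xbc0001780002fc076) b23593 (.nil))) (.tok (nat_lit 56) (nat_lit 0xbc0001780002fef65) (.hit (nat_lit 107) (nat_lit 86) (nat_lit 0xbc0001780002fef65) b23594 (.one (nat_lit 3) (nat_lit 111) (nat_lit 90) (nat_lit 0xbc0001780002fd5f8) b23598 (.tok (nat_lit 6) (nat_lit 0xbc0001780002fddf4) (.hit (nat_lit 109) (nat_lit 88) (nat_lit 0xbc0001780002fd95f)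 b23596 (.hit (nat_lit 110) (nat_lit 89) (nat_lit 0xbc0001780002fddf4) b23597 (.nil))) (.one (nat_lit 9) (nat_lit 108) (nat_lit 87) (nat_lit 0xbc0001780002fd8ff) b23595 (.nil))))) (.one (nat_lit 59) (nat_lit 112) (nat_lit 91) (nat_lit 0xbc0001780002faf81) b23599 (.one (nat_lit 62) (nat_lit 113) (nat_lit 92) (nat_lit 0xbc0001780002fc3f0) b23582 (.tok (nat_lit 65) (nat_lit 0xbc0001780002fc73b) (.hit (nat_lit 114) (nat_lit 93) (nat_lit 0xbc0001780002fc73b) b23583 (.hit (nat_lit 115) (nat_lit 94) (nat_lit 0xbc0001780002fc063) b23584 (.nil))) (.tok (nat_lit 68) (nat_lit 0xbc0001780002fe0fe) (.hit (nat_lit 116) (nat_lit 95) (nat_lit 0xbc0001780002fe0fe) b23585 (.one (nat_lit 3) (nat_lit 120) (nat_lit 99) (nat_lit 0xbc0001780002fcf0a) b23589 (.one (nat_lit 6) (nat_lit 117) (nat_lit 96) (nat_lit 0xbc0001780002fd211) b23586 (.tok (nat_lit 9) (nat_lit 0xbc0001780002fe0f5) (.hit (nat_lit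 118) (nat_lit 97) (nat_lit 0xbc0001780002fe0f5) b23587 (.hit (nat_lit 119) (nat_lit 98) (nat_lit 0xbc0001780002fcf3e) b23588 (.nil))) (.nil))))) (.one (nat_lit 71) (nat_lit 121) (nat_lit 100) (nat_lit 0xbc0001780002fafa1) b23590 (.nil)))))))))))))))))) (.tok (nat_lit 40) (nat_lit 0xbc000178000304896) (.hit (nat_lit 221) (nat_lit 0) (nat_lit 0xbc0001780003018e0) b23600 (.tok (nat_lit 6) (nat_lit 0xbc0001780003005c8) (.hit (nat_lit 222) (nat_lit 7) (nat_lit 0xbc0001780003005c8) b23603 (.hit (nat_lit 223) (nat_lit 15) (nat_lit 0xbc0001780002ff09b) b23604 (.nil))) (.tok (nat_lit 9) (nat_lit 0xbc000178000304896) (.hit (nat_lit 224) (nat_lit 20) (nat_lit 0xbc000178000304896) b23601 (.hit (nat_lit 225) (nat_lit 28) (nat_lit 0xbc00017800030016e) b23602 (.nil))) (.nil)))) (.tok (nat_lit 43) (nat_lit 0xbc0001780003015c3) (.hit (nat_lit 232) (nat_lit 0) (nat_lit 0xbc0001780003015c3) b23605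 (.one (nat_lit 3) (nat_lit 233) (nat_lit 1) (nat_lit 0xbc0001780002fdeff) b23606 (.tok (nat_lit 6) (nat_lit 0xbc0001780003003d5) (.hit (nat_lit 235) (nat_lit 7) (nat_lit 0xbc0001780002fe6c9) b23607 (.hit (nat_lit 238) (nat_lit 15) (nat_lit 0xbc0001780002fe19a) b23610 (.tok (nat_lit 55) (nat_lit 0xbc0001780003003d5) (.hit (nat_lit 236) (nat_lit 8) (nat_lit 0xbc0001780002ffd11) b23608 (.hit (nat_lit 239) (nat_lit 16) (nat_lit 0xbc0001780003003d5) b23611 (.one (nat_lit 6) (nat_lit 237) (nat_lit 9) (nat_lit 0xbc000178000300138) b23609 (.nil)))) (.nil)))) (.nil)))) (.tok (nat_lit 46) (nat_lit 0xbc000178000302061) (.hit (nat_lit 246) (nat_lit 0) (nat_lit 0xbc000178000300966) b23612 (.one (nat_lit 3) (nat_lit 247) (nat_lit 1) (nat_lit 0xbc0001780003000aa) b23613 (.tok (nat_lit 9) (nat_lit 0xbc000178000302061) (.hit (nat_lit 249) (nat_lit 20) (nat_lit 0xbc0001780002ff38a) b23614 (.hit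 (nat_lit 252) (nat_lit 28) (nat_lit 0xbc0001780002ff831) b23617 (.tok (nat_lit 67) (nat_lit 0xbc000178000302061) (.hit (nat_lit 250) (nat_lit 21) (nat_lit 0xbc0001780003000c4) b23615 (.hit (nat_lit 253) (nat_lit 29) (nat_lit 0xbc000178000302061) b23618 (.one (nat_lit 9) (nat_lit 251) (nat_lit 22) (nat_lit 0xbc000178000301cec) b23616 (.nil)))) (.nil)))) (.nil)))) (.nil))))
noncomputable def r24_22 : Rw Blk := .tok (nat_lit 3) (nat_lit 0x5e0000bc00017f2152fee4e) (.hit (nat_lit 61) (nat_lit 0) (nat_lit 0x5e0000bc00017e7682fd95d) b23619 (.one (nat_lit 26) (nat_lit 93) (nat_lit 72) (nat_lit 0x5e0000bc00017d92eafbe16) b23620 (.one (nat_lit 29) (nat_lit 94) (nat_lit 73) (nat_lit 0x5e0000bc00017d98cafbed2) b23621 (.one (nat_lit 32) (nat_lit 95) (nat_lit 74) (nat_lit 0x5e0000bc00017d7272fba07) b23623 (.one (nat_lit 35) (nat_lit 96) (nat_lit 75) (nat_lit 0x5e0000bc00017dc032fc3bf) b23622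 (.one (nat_lit 38) (nat_lit 97) (nat_lit 76) (nat_lit 0x5e0000bc00017df7f2fcab7) b23624 (.tok (nat_lit 41) (nat_lit 0x5e0000bc00017e3962fd2e5) (.hit (nat_lit 98) (nat_lit 77) (nat_lit 0x5e0000bc00017d1f62fafa5) b23625 (.hit (nat_lit 99) (nat_lit 78) (nat_lit 0x5e0000bc00017e3962fd2e5) b23626 (.nil))) (.tok (nat_lit 44) (nat_lit 0x5e0000bc00017df8f2fcad7) (.hit (nat_lit 100) (nat_lit 79) (nat_lit 0x5e0000bc00017d9a7afbf08) b23629 (.hit (nat_lit 101) (nat_lit 80) (nat_lit 0x5e0000bc00017df8f2fcad7) b23630 (.nil))) (.tok (nat_lit 47) (nat_lit 0x5e0000bc00017dc41afc43c) (.hit (nat_lit 102) (nat_lit 81) (nat_lit 0x5e0000bc00017d6e6afb986) b23627 (.hit (nat_lit 103) (nat_lit 82) (nat_lit 0x5e0000bc00017dc41afc43c) b23628 (.nil))) (.one (nat_lit 50) (nat_lit 104) (nat_lit 83) (nat_lit 0x5e0000bc00017e0622fcc7d) b23640 (.tok (nat_lit 53) (nat_lit 0x5e0000bc00017e9082fddc9) (.hit (nat_lit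 105) (nat_lit 84) (nat_lit 0x5e0000bc00017e9082fddc9) b23641 (.hit (nat_lit 106) (nat_lit 85) (nat_lit 0x5e0000bc00017e1172fcde7) b23642 (.nil))) (.tok (nat_lit 56) (nat_lit 0x5e0000bc00017f2152fee4e) (.hit (nat_lit 107) (nat_lit 86) (nat_lit 0x5e0000bc00017f04aafecc4) b23643 (.one (nat_lit 3) (nat_lit 111) (nat_lit 90) (nat_lit 0x5e0000bc00017e27d2fd0b3) b23647 (.tok (nat_lit 6) (nat_lit 0x5e0000bc00017f2152fee4e) (.hit (nat_lit 109) (nat_lit 88) (nat_lit 0x5e0000bc00017f2152fee4e) b23645 (.hit (nat_lit 110) (nat_lit 89) (nat_lit 0x5e0000bc00017df2bafca10) b23646 (.nil))) (.one (nat_lit 9) (nat_lit 108) (nat_lit 87) (nat_lit 0x5e0000bc00017edfe2fe7b5) b23644 (.nil))))) (.one (nat_lit 59) (nat_lit 112) (nat_lit 91) (nat_lit 0x5e0000bc00017d4e1afb57c) b23648 (.one (nat_lit 62) (nat_lit 113) (nat_lit 92) (nat_lit 0x5e0000bc00017de3b2fc82f) b23631 (.tok (nat_lit 65) (nat_lit 0x5e0000bc00017e308afd1ca)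 (.hit (nat_lit 114) (nat_lit 93) (nat_lit 0x5e0000bc00017dffe2fcbb5) b23632 (.hit (nat_lit 115) (nat_lit 94) (nat_lit 0x5e0000bc00017e308afd1ca) b23633 (.nil))) (.tok (nat_lit 68) (nat_lit 0x5e0000bc00017ebac2fe826) (.hit (nat_lit 116) (nat_lit 95) (nat_lit 0x5e0000bc00017eb41afe826) b23634 (.one (nat_lit 3) (nat_lit 120) (nat_lit 99) (nat_lit 0x5e0000bc00017e77bafdab0) b23638 (.one (nat_lit 6) (nat_lit 117) (nat_lit 96) (nat_lit 0x5e0000bc00017e74a2fda4d) b23635 (.tok (nat_lit 9) (nat_lit 0x5e0000bc00017ebac2fe722) (.hit (nat_lit 118) (nat_lit 97) (nat_lit 0x5e0000bc00017ebac2fe722) b23636 (.hit (nat_lit 119) (nat_lit 98) (nat_lit 0x5e0000bc00017e2e0afd17a) b23637 (.nil))) (.nil))))) (.one (nat_lit 71) (nat_lit 121) (nat_lit 100) (nat_lit 0x5e0000bc00017d4eb2fb58f) b23639 (.nil)))))))))))))))))) (.tok (nat_lit 40) (nat_lit 0x5e0000bc0001800bf300f81) (.hit (nat_lit 221) (nat_lit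 0) (nat_lit 0x5e0000bc0001800bf300f81) b23649 (.tok (nat_lit 6) (nat_lit 0x5e0000bc00017f7d8aff763) (.hit (nat_lit 222) (nat_lit 7) (nat_lit 0x5e0000bc00017f7d8aff763) b23652 (.hit (nat_lit 223) (nat_lit 15) (nat_lit 0x5e0000bc00017f4c92ff162) b23653 (.nil))) (.tok (nat_lit 9) (nat_lit 0x5e0000bc00018005730090e) (.hit (nat_lit 224) (nat_lit 20) (nat_lit 0x5e0000bc00018005730090e) b23650 (.hit (nat_lit 225) (nat_lit 28) (nat_lit 0x5e0000bc00017fa2e2ffde5) b23651 (.nil))) (.nil)))) (.tok (nat_lit 43) (nat_lit 0x5e0000bc000180aa8301f41) (.hit (nat_lit 232) (nat_lit 0) (nat_lit 0x5e0000bc00017fff6300c00) b23654 (.one (nat_lit 3) (nat_lit 233) (nat_lit 1) (nat_lit 0x5e0000bc00017f5f5aff6fc) b23655 (.tok (nat_lit 6) (nat_lit 0x5e0000bc000180aa8301f41) (.hit (nat_lit 235) (nat_lit 7) (nat_lit 0x5e0000bc00018040a301478) b23656 (.hit (nat_lit 238) (nat_lit 15) (nat_lit 0x5e0000bc00017fe4fb007b6)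 b23659 (.tok (nat_lit 55) (nat_lit 0x5e0000bc000180aa8301f41) (.hit (nat_lit 236) (nat_lit 8) (nat_lit 0x5e0000bc0001808c3b01f41) b23657 (.hit (nat_lit 239) (nat_lit 16) (nat_lit 0x5e0000bc0001809c9b01bb0) b23660 (.one (nat_lit 6) (nat_lit 237) (nat_lit 9) (nat_lit 0x5e0000bc000180aa8301b60) b23658 (.nil)))) (.nil)))) (.nil)))) (.tok (nat_lit 46) (nat_lit 0x5e0000bc0001803ddb004a8) (.hit (nat_lit 246) (nat_lit 0) (nat_lit 0x5e0000bc00017fe133002fb) b23661 (.one (nat_lit 3) (nat_lit 247) (nat_lit 1) (nat_lit 0x5e0000bc00017f6d12ffe3e) b23662 (.tok (nat_lit 9) (nat_lit 0x5e0000bc0001803ddb004a8) (.hit (nat_lit 249) (nat_lit 20) (nat_lit 0x5e0000bc00017f7ef2ff145) b23663 (.hit (nat_lit 252) (nat_lit 28) (nat_lit 0x5e0000bc00017f359aff1c5) b23666 (.tok (nat_lit 67) (nat_lit 0x5e0000bc0001803ddb004a8) (.hit (nat_lit 250) (nat_lit 21) (nat_lit 0x5e0000bc00017ffe02ffd9c) b23664 (.hit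 (nat_lit 253) (nat_lit 29) (nat_lit 0x5e0000bc00017ff3530029d) b23667 (.one (nat_lit 9) (nat_lit 251) (nat_lit 22) (nat_lit 0x5e0000bc0001803ddb004a8) b23665 (.nil)))) (.nil)))) (.nil)))) (.nil))))
noncomputable def r25_0 : Rw Blk := .tok (nat_lit 9) (nat_lit 0xbfe5917f7972fec125fe81cbfc3417f77eaff1935ff4dcbfb87d7fbc1aff201) (.hit (nat_lit 157) (nat_lit 0) (nat_lit 0xbf8dd97eeec2fdb2d5fcb50bf87417f0ff2fe8525fd67ebf87017f1eaafdb88) b23766 (.one (nat_lit 26) (nat_lit 204) (nat_lit 72) (nat_lit 0xbf4da97df5c2fc91b5f8d3abeff897ddecafb5a85f9b14bef8d57e95bafceb6) b23767 (.one (nat_lit 29) (nat_lit 205) (nat_lit 73) (nat_lit 0xbf545d7e3f1afd1e35f90c4bf064d7dd5f2fb48d5f9c98beff897e7fc2fd049) b23768 (.one (nat_lit 32) (nat_lit 206) (nat_lit 74) (nat_lit 0xbf6fe17e73cafd6595f9e82bf21d17dcc8afb3605fa8d6bf1b0d7edbb2fd744) b23770 (.one (nat_lit 35) (nat_lit 207) (nat_lit 75) (nat_lit 0xbf209d7dc3b2fd7ba5f76bcbee9717dffe2fb9cb5f8c7abeeb817e38f2fc372)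 b23769 (.one (nat_lit 38) (nat_lit 208) (nat_lit 76) (nat_lit 0xbf61b97e460afd7e55fa5e4bf20457e6d8afc7805faebebf22557ebec2fd352) b23771 (.tok (nat_lit 41) (nat_lit 0xbf758d7eb50afdcc85fa626bf279d7e210afbdf05fb6a4bf20c17ee2eafd7dc) (.hit (nat_lit 209) (nat_lit 77) (nat_lit 0xbf4dc17e64cafd5ed5f8ebabeffed7d760afa8905f9262bef8f57ec5aafd556) b23772 (.hit (nat_lit 210) (nat_lit 78) (nat_lit 0xbf758d7eb50afdcc85fa626bf279d7e210afbdf05fb6a4bf20c17ee2eafd7dc) b23773 (.nil))) (.tok (nat_lit 44) (nat_lit 0xbf74097e6ea2fd22d5fa108bf26197e650afc6705faf5cbf1f3d7ee40afd84e) (.hit (nat_lit 211) (nat_lit 79) (nat_lit 0xbefad17d77a2fc95e5f8e0abf1c057e650afc6705fa5c4bf1e157e440afc50a) b23776 (.hit (nat_lit 212) (nat_lit 80) (nat_lit 0xbf74097e6ea2fd22d5fa108bf26197e34bafc0665faf5cbf1f3d7ee40afd84e) b23777 (.nil))) (.tok (nat_lit 47) (nat_lit 0xbf87757f083afe5155fc196bf68e57df25afb81a5fc9e2bf52e97f33aafdc10)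 (.hit (nat_lit 213) (nat_lit 81) (nat_lit 0xbf87757f083afe5155fc196bf68e57df25afb81a5fc9e2bf52e97f33aafdc10) b23774 (.hit (nat_lit 214) (nat_lit 82) (nat_lit 0xbf64597e23d2fd4ae5f9a9cbf16457df172fb7fd5fa5b0bf0f857ec33afd462) b23775 (.nil))) (.one (nat_lit 50) (nat_lit 215) (nat_lit 83) (nat_lit 0xbf5d357e2012fd3ef5f94d6bf0f717e4be2fc34b5fa0dcbf11817eb502fd299) b23787 (.tok (nat_lit 53) (nat_lit 0xbf83097ee2c2fdac95f9f1ebf35797e3442fc0575fa864bf2eed7f01e2fdbea) (.hit (nat_lit 216) (nat_lit 84) (nat_lit 0xbf83097ee2c2fdac95f9f1ebf35797e3442fc0575fa5eabf2eed7f01e2fdbea) b23788 (.hit (nat_lit 217) (nat_lit 85) (nat_lit 0xbf6a957e71fafd4795f9c28bf1c857e1322fbc335fa864bf15c17ec832fd5a2) b23789 (.nil))) (.tok (nat_lit 56) (nat_lit 0xbf969d7ee99afe93d5fc904bf82ad7f5ea2fe9905fd434bf82717f4b0afe55c) (.hit (nat_lit 218) (nat_lit 86) (nat_lit 0xbf969d7ee99afe93d5fc904bf82ad7f5ea2fe9905fd434bf82717f4b0afe55c)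 b23790 (.one (nat_lit 3) (nat_lit 222) (nat_lit 90) (nat_lit 0xbf1e497dbe92fdd135f9fc6bf3f7d7eabfafcf4e5fb780bf418d7e8afafcde8) b23794 (.tok (nat_lit 6) (nat_lit 0xbf4fb57e216afe8d05fb87cbf70e97f0ed2fdba95fd036bf72f97eedd2fda43) (.hit (nat_lit 220) (nat_lit 88) (nat_lit 0xbf2d5d7ddcbafe7ce5fa750bf4e917eca22fd3135fbf0abf50a17ea922fd1ad) b23792 (.hit (nat_lit 221) (nat_lit 89) (nat_lit 0xbf4fb57e216afe8d05fb87cbf70e97f0ed2fdba95fd036bf72f97eedd2fda43) b23793 (.nil))) (.one (nat_lit 9) (nat_lit 219) (nat_lit 87) (nat_lit 0xbf4b057e180afe1875fb624bf6c397f0572fda7d5fcddebf6e497ee472fd917) b23791 (.nil))))) (.one (nat_lit 59) (nat_lit 223) (nat_lit 91) (nat_lit 0xbf44017e03c2fc99f5f875cbef5cd7da68afaea05f9278beef2d7e6862fcc4c) b23795 (.one (nat_lit 62) (nat_lit 224) (nat_lit 92) (nat_lit 0xbf86557e86e2fdbae5faff0bf383d7e3dcafc1885fb420bf31757f0882fdca5) b23778 (.tok (nat_lit 65) (nat_lit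 0xbf8a357f3a8afe8a05fbf4abf64017ed4aafd4645fc2f2bf5d6d7f4f72fe765) (.hit (nat_lit 225) (nat_lit 93) (nat_lit 0xbf8a357f3a8afe8a05fbf4abf64017ed4aafd4645fc2f2bf5d6d7f4f72fe765) b23779 (.hit (nat_lit 226) (nat_lit 94) (nat_lit 0xbf79317e8b1afdc595fa2a6bf2b257e40e2fc1eb5faf82bf245d7ee612fd81a) b23780 (.nil))) (.tok (nat_lit 68) (nat_lit 0xbfe5917f7972fec125fe81cbfc3417f77eaff1935ff4dcbfb87d7fbc1aff201) (.hit (nat_lit 227) (nat_lit 95) (nat_lit 0xbfe5357f7972fe7ca5fda3abfb7a17f77eaff1935fec50bfb3997f994afea38) b23781 (.one (nat_lit 3) (nat_lit 231) (nat_lit 99) (nat_lit 0xbfb6a57eee9afe0445fc014bf8aa17ee71afd6b25fd2febf75417f4382fe04c) b23785 (.one (nat_lit 6) (nat_lit 228) (nat_lit 96) (nat_lit 0xbfda397f6e72fe73d5fe81cbfc3417f5552fe4795ff4dcbfb87d7fbc1aff201) b23782 (.tok (nat_lit 9) (nat_lit 0xbfe5917f0ec2fec125fd8cabf9f9d7f1b8afdd405fd9d8bf896d7faf12fee52) (.hit (nat_lit 229)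 (nat_lit 97) (nat_lit 0xbfe5917f0ec2fec125fd8cabf9f9d7f1b8afdd405fd9d8bf896d7faf12fee52) b23783 (.hit (nat_lit 230) (nat_lit 98) (nat_lit 0xbf7da57f05e2fe71e5fa6e0bf3eed7eaadafcf2a5fb738bf40fd7ef3f2fd93e) b23784 (.nil))) (.nil))))) (.one (nat_lit 71) (nat_lit 232) (nat_lit 100) (nat_lit 0xbf6a157e35aafd58f5f9a58bf1bed7da68afaea05fa510bf15417ed01afd5d1) b23786 (.nil)))))))))))))))))) (.tok (nat_lit 64) (nat_lit 0xc00001802843010dc600000c0000180e3ab0175860051ac000017f93faff27f) (.hit (nat_lit 377) (nat_lit 0) (nat_lit 0xc000017fdb1b00ced600000c0000180cbb30175860051ac000017f93faff27f) b23796 (.tok (nat_lit 6) (nat_lit 0xbfe2e9801173010dc5ff2d4bfe8d580462b0079d5ff7f0bfe8717f8bbaff177) (.hit (nat_lit 378) (nat_lit 7) (nat_lit 0xbfc2cd7efdab010dc5fd5fcbf9f917fc72afeeed5fed30bfc5c17f8bbaff177) b23799 (.hit (nat_lit 379) (nat_lit 15) (nat_lit 0xbfe2e9801173007e35ff2d4bfe8d580462b0079d5ff7f0bfe8717f4da2fe9b4)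 b23800 (.nil))) (.tok (nat_lit 9) (nat_lit 0xbffb8d802842fffeb5fea68bfe96d80e3ab015965ff3f2bfe7bd7f7cb2fef96) (.hit (nat_lit 380) (nat_lit 20) (nat_lit 0xbffb8d802842fffeb5fea68bfe96d80e3ab015965ff3f2bfe7bd7f7cb2fef96) b23797 (.hit (nat_lit 381) (nat_lit 28) (nat_lit 0xbfcd0d7fb1eaff3355fd1d4bfba557f8dbaff2f95fd94ebfc2217f2d92fe5b2) b23798 (.nil))) (.nil)))) (.tok (nat_lit 67) (nat_lit 0xbffcf17f71f300bf85ff30ebfd9b5803b72ffd76600a42bfffe580000300000) (.hit (nat_lit 388) (nat_lit 0) (nat_lit 0xbffc757f535affb705fda48bf9f497fdd72ffca15fecc2bfc4e57fe52affc62) b23801 (.one (nat_lit 3) (nat_lit 389) (nat_lit 1) (nat_lit 0xbf62b97e3d82fe9065fa5f2bf3f7d7f0702fd6e85fbd26bf65ad7ecb92fd972) b23802 (.tok (nat_lit 9) (nat_lit 0xbffcf17f71f300bf85ff30ebfd9b5803b72ffd76600a42bfffe580000300000) (.hit (nat_lit 391) (nat_lit 20) (nat_lit 0xbf87917e8732fec515fb85ebf64557f50b2fe01e5fcf92bf8a857f1542fe2a8)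 b23803 (.hit (nat_lit 394) (nat_lit 28) (nat_lit 0xbf49c17e0b92fe6fe5f9976bf26857ed512fd0aa5fb0aabf4cb57e99a2fd334) b23806 (.tok (nat_lit 67) (nat_lit 0xbffcf17f71f300bf85ff30ebfd9b5803b72ffd76600a42bfffe580000300000) (.hit (nat_lit 392) (nat_lit 21) (nat_lit 0xbfde657f34db0089a5fe3c8bfbb297ffe5aff5d35ffafcbfe1597fc2eaff85d) b23804 (.hit (nat_lit 395) (nat_lit 29) (nat_lit 0xbfb2217edc52ffeaf5fcda6bf8ee57fa5d2feac25fe4dabfb5157f6a62fed4c) b23807 (.one (nat_lit 9) (nat_lit 393) (nat_lit 22) (nat_lit 0xbffcf17f71f300bf85ff30ebfd9b5803b72ffd76600a42bfffe580000300000) b23805 (.nil)))) (.nil)))) (.nil)))) (.tok (nat_lit 70) (nat_lit 0xbff83d7f688b007dc5ff0b4bfd50180320affc496007e8bffb317ff69affed3) (.hit (nat_lit 402) (nat_lit 0) (nat_lit 0xbfc5997edddaff4f65fc878bf6cf57fa252ff3225fd15ebf8e1d7f921afeea8) b23808 (.one (nat_lit 3) (nat_lit 403) (nat_lit 1) (nat_lit 0xbf72697e5ce2fee7e5fadcabf4f2d7f2662fdad45fc4febf755d7eeaf2fdd5e)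 b23809 (.tok (nat_lit 6) (nat_lit 0xbff83d7f688b007dc5ff0b4bfd50180320affc496007e8bffb317ff69affed3) (.hit (nat_lit 405) (nat_lit 7) (nat_lit 0xbf7a7d7e6d0afeab65fb1d4bf57417f368afdcd95fc908bf7d717efb1afdf63) b23810 (.hit (nat_lit 408) (nat_lit 15) (nat_lit 0xbf703d7e588afed565facb4bf4d017f220afda495fc3e8bf73317ee69afdcd3) b23813 (.tok (nat_lit 55) (nat_lit 0xbff83d7f688b007dc5ff0b4bfd50180320affc496007e8bffb317ff69affed3) (.hit (nat_lit 406) (nat_lit 8) (nat_lit 0xbfb6617ee4d2ff6bf5fcfc6bf93257fae52febd25fe6fabfb9557f72e2fee5c) b23811 (.hit (nat_lit 409) (nat_lit 16) (nat_lit 0xbfd0117f1833004385fdc9ebfacd57fe1b2ff23e5ff3d2bfd3057fa642ff4c8) b23814 (.one (nat_lit 6) (nat_lit 407) (nat_lit 9) (nat_lit 0xbff83d7f688b007dc5ff0b4bfd50180320affc496007e8bffb317ff69affed3) b23812 (.nil)))) (.nil)))) (.nil)))) (.nil))))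
noncomputable def r25_1 : Rw Blk := .tok (nat_lit 26) (nat_lit 0xbc0001780002ff634) (.hit (nat_lit 260) (nat_lit 0) (nat_lit 0xbc0001780002ff634) b23861 (.one (nat_lit 3) (nat_lit 261) (nat_lit 1) (nat_lit 0xbc0001780002fabba) b23862 (.tok (nat_lit 6) (nat_lit 0xbc0001780002fbd95) (.hit (nat_lit 262) (nat_lit 7) (nat_lit 0xbc0001780002fbd1e) b23865 (.hit (nat_lit 263) (nat_lit 15) (nat_lit 0xbc0001780002fbd95) b23866 (.nil))) (.tok (nat_lit 9) (nat_lit 0xbc0001780002fd95c) (.hit (nat_lit 264) (nat_lit 20) (nat_lit 0xbc0001780002fd95c) b23863 (.hit (nat_lit 265) (nat_lit 28) (nat_lit 0xbc0001780002faa14) b23864 (.nil))) (.nil))))) (.tok (nat_lit 29) (nat_lit 0xbc0001780002fdb97) (.hit (nat_lit 266) (nat_lit 0) (nat_lit 0xbc0001780002fdb97) b23867 (.one (nat_lit 3) (nat_lit 267) (nat_lit 1) (nat_lit 0xbc0001780002fae1c) b23868 (.tok (nat_lit 6) (nat_lit 0xbc0001780002fd0a9) (.hit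 (nat_lit 268) (nat_lit 7) (nat_lit 0xbc0001780002fcdfa) b23871 (.hit (nat_lit 269) (nat_lit 15) (nat_lit 0xbc0001780002fd0a9) b23872 (.nil))) (.tok (nat_lit 9) (nat_lit 0xbc0001780002fca60) (.hit (nat_lit 270) (nat_lit 20) (nat_lit 0xbc0001780002fbac5) b23869 (.hit (nat_lit 271) (nat_lit 28) (nat_lit 0xbc0001780002fca60) b23870 (.nil))) (.nil))))) (.tok (nat_lit 32) (nat_lit 0xbc0001780002ff8aa) (.hit (nat_lit 272) (nat_lit 0) (nat_lit 0xbc0001780002ff8aa) b23873 (.one (nat_lit 3) (nat_lit 273) (nat_lit 1) (nat_lit 0xbc0001780002fbbc5) b23874 (.tok (nat_lit 6) (nat_lit 0xbc0001780002fd350) (.hit (nat_lit 274) (nat_lit 7) (nat_lit 0xbc0001780002fd350) b23877 (.hit (nat_lit 275) (nat_lit 15) (nat_lit 0xbc0001780002fcf77) b23878 (.nil))) (.tok (nat_lit 9) (nat_lit 0xbc0001780002fd153) (.hit (nat_lit 276) (nat_lit 20) (nat_lit 0xbc0001780002fcdd8) b23875 (.hit (nat_lit 277) (nat_lit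 28) (nat_lit 0xbc0001780002fd153) b23876 (.nil))) (.nil))))) (.tok (nat_lit 35) (nat_lit 0xbc0001780002fe8c8) (.hit (nat_lit 278) (nat_lit 0) (nat_lit 0xbc0001780002fe8c8) b23879 (.one (nat_lit 3) (nat_lit 279) (nat_lit 1) (nat_lit 0xbc0001780002fb2ae) b23828 (.tok (nat_lit 6) (nat_lit 0xbc0001780002fbaa7) (.hit (nat_lit 280) (nat_lit 7) (nat_lit 0xbc0001780002fbaa7) b23881 (.hit (nat_lit 281) (nat_lit 15) (nat_lit 0xbc0001780002fa886) b23882 (.nil))) (.tok (nat_lit 9) (nat_lit 0xbc0001780002fc9e1) (.hit (nat_lit 282) (nat_lit 20) (nat_lit 0xbc0001780002fc76c) b23817 (.hit (nat_lit 283) (nat_lit 28) (nat_lit 0xbc0001780002fc9e1) b23880 (.nil))) (.nil))))) (.tok (nat_lit 38) (nat_lit 0xbc0001780002fedb3) (.hit (nat_lit 215) (nat_lit 0) (nat_lit 0xbc0001780002fedb3) b23883 (.one (nat_lit 3) (nat_lit 216) (nat_lit 1) (nat_lit 0xbc0001780002fb730) b23884 (.tok (nat_lit 6) (nat_lit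 0xbc0001780002fcc52) (.hit (nat_lit 217) (nat_lit 7) (nat_lit 0xbc0001780002fcc52) b23886 (.hit (nat_lit 218) (nat_lit 15) (nat_lit 0xbc0001780002fbb2a) b23887 (.nil))) (.tok (nat_lit 9) (nat_lit 0xbc0001780002fbac5) (.hit (nat_lit 219) (nat_lit 20) (nat_lit 0xbc0001780002fbac5) b23869 (.hit (nat_lit 220) (nat_lit 28) (nat_lit 0xbc0001780002fb49a) b23885 (.nil))) (.nil))))) (.tok (nat_lit 41) (nat_lit 0xbc000178000301203) (.hit (nat_lit 226) (nat_lit 0) (nat_lit 0xbc0001780002ff62f) b23888 (.one (nat_lit 3) (nat_lit 227) (nat_lit 1) (nat_lit 0xbc0001780002fed1c) b23889 (.tok (nat_lit 6) (nat_lit 0xbc0001780002ff9c9) (.hit (nat_lit 228) (nat_lit 7) (nat_lit 0xbc0001780002ff9c9) b23892 (.hit (nat_lit 229) (nat_lit 15) (nat_lit 0xbc0001780002feaf5) b23893 (.nil))) (.tok (nat_lit 9) (nat_lit 0xbc000178000301203) (.hit (nat_lit 230) (nat_lit 20) (nat_lit 0xbc000178000301203) b23890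 (.hit (nat_lit 231) (nat_lit 28) (nat_lit 0xbc0001780002fed21) b23891 (.nil))) (.nil))))) (.tok (nat_lit 44) (nat_lit 0xbc0001780002ff894) (.hit (nat_lit 240) (nat_lit 0) (nat_lit 0xbc0001780002ff894) b23894 (.one (nat_lit 3) (nat_lit 241) (nat_lit 1) (nat_lit 0xbc0001780002fbd63) b23895 (.tok (nat_lit 6) (nat_lit 0xbc0001780002fc152) (.hit (nat_lit 242) (nat_lit 7) (nat_lit 0xbc0001780002fc152) b23898 (.hit (nat_lit 243) (nat_lit 15) (nat_lit 0xbc0001780002fb9a3) b23899 (.nil))) (.tok (nat_lit 9) (nat_lit 0xbc0001780002fd3d1) (.hit (nat_lit 244) (nat_lit 20) (nat_lit 0xbc0001780002fd1ed) b23896 (.hit (nat_lit 245) (nat_lit 28) (nat_lit 0xbc0001780002fd3d1) b23897 (.nil))) (.nil))))) (.tok (nat_lit 47) (nat_lit 0xbc00017800030100f) (.hit (nat_lit 254) (nat_lit 0) (nat_lit 0xbc0001780002ff3dd) b23900 (.one (nat_lit 3) (nat_lit 255) (nat_lit 1) (nat_lit 0xbc0001780002fdace) b23901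 (.tok (nat_lit 6) (nat_lit 0xbc00017800030100f) (.hit (nat_lit 256) (nat_lit 7) (nat_lit 0xbc00017800030100f) b23904 (.hit (nat_lit 257) (nat_lit 15) (nat_lit 0xbc0001780002fe63f) b23905 (.nil))) (.tok (nat_lit 9) (nat_lit 0xbc0001780002ff837) (.hit (nat_lit 258) (nat_lit 20) (nat_lit 0xbc0001780002ff837) b23902 (.hit (nat_lit 259) (nat_lit 28) (nat_lit 0xbc0001780002fe48d) b23903 (.nil))) (.nil))))) (.tok (nat_lit 50) (nat_lit 0xbc0001780002fdae7) (.hit (nat_lit 146) (nat_lit 0) (nat_lit 0xbc0001780002fdae7) b23815 (.one (nat_lit 3) (nat_lit 147) (nat_lit 1) (nat_lit 0xbc0001780002fa382) b23816 (.tok (nat_lit 6) (nat_lit 0xbc0001780002fd5fe) (.hit (nat_lit 148) (nat_lit 7) (nat_lit 0xbc0001780002fd5fe) b23819 (.hit (nat_lit 149) (nat_lit 15) (nat_lit 0xbc0001780002faa09) b23820 (.nil))) (.tok (nat_lit 9) (nat_lit 0xbc0001780002fc76c) (.hit (nat_lit 150) (nat_lit 20) (nat_lit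 0xbc0001780002fc76c) b23817 (.hit (nat_lit 151) (nat_lit 28) (nat_lit 0xbc0001780002fbab6) b23818 (.nil))) (.nil))))) (.tok (nat_lit 53) (nat_lit 0xbc000178000300181) (.hit (nat_lit 152) (nat_lit 0) (nat_lit 0xbc0001780002ff451) b23821 (.one (nat_lit 3) (nat_lit 153) (nat_lit 1) (nat_lit 0xbc0001780002ffb2b) b23822 (.tok (nat_lit 6) (nat_lit 0xbc0001780002ffe22) (.hit (nat_lit 154) (nat_lit 7) (nat_lit 0xbc0001780002ffe22) b23825 (.hit (nat_lit 155) (nat_lit 15) (nat_lit 0xbc0001780002ff47a) b23826 (.nil))) (.tok (nat_lit 9) (nat_lit 0xbc000178000300181) (.hit (nat_lit 156) (nat_lit 20) (nat_lit 0xbc0001780002fd256) b23823 (.hit (nat_lit 157) (nat_lit 28) (nat_lit 0xbc000178000300181) b23824 (.nil))) (.nil))))) (.tok (nat_lit 56) (nat_lit 0xbc0001780002fe0a1) (.hit (nat_lit 164) (nat_lit 0) (nat_lit 0xbc0001780002fe0a1) b23827 (.one (nat_lit 3) (nat_lit 165) (nat_lit 1) (nat_lit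 0xbc0001780002fb2ae) b23828 (.tok (nat_lit 6) (nat_lit 0xbc0001780002fc3c1) (.hit (nat_lit 166) (nat_lit 7) (nat_lit 0xbc0001780002fc3c1) b23831 (.hit (nat_lit 167) (nat_lit 15) (nat_lit 0xbc0001780002fb41c) b23832 (.nil))) (.tok (nat_lit 9) (nat_lit 0xbc0001780002fcb26) (.hit (nat_lit 168) (nat_lit 20) (nat_lit 0xbc0001780002fc7dd) b23829 (.hit (nat_lit 169) (nat_lit 28) (nat_lit 0xbc0001780002fcb26) b23830 (.nil))) (.nil))))) (.tok (nat_lit 59) (nat_lit 0xbc0001780002feb14) (.hit (nat_lit 158) (nat_lit 0) (nat_lit 0xbc0001780002feb14) b23833 (.one (nat_lit 3) (nat_lit 159) (nat_lit 1) (nat_lit 0xbc0001780002fa7cd) b23834 (.tok (nat_lit 6) (nat_lit 0xbc0001780002fc876) (.hit (nat_lit 160) (nat_lit 7) (nat_lit 0xbc0001780002fc5e0) b23837 (.hit (nat_lit 161) (nat_lit 15) (nat_lit 0xbc0001780002fc876) b23838 (.nil))) (.tok (nat_lit 9) (nat_lit 0xbc0001780002fc99d) (.hit (nat_lit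 162) (nat_lit 20) (nat_lit 0xbc0001780002fc99d) b23835 (.hit (nat_lit 163) (nat_lit 28) (nat_lit 0xbc0001780002fbbf3) b23836 (.nil))) (.nil))))) (.tok (nat_lit 62) (nat_lit 0xbc0001780002fd9b8) (.hit (nat_lit 170) (nat_lit 0) (nat_lit 0xbc0001780002fd9b8) b23839 (.one (nat_lit 3) (nat_lit 171) (nat_lit 1) (nat_lit 0xbc0001780002fb2f1) b23840 (.tok (nat_lit 6) (nat_lit 0xbc0001780002fbaea) (.hit (nat_lit 172) (nat_lit 7) (nat_lit 0xbc0001780002fbaea) b23843 (.hit (nat_lit 173) (nat_lit 15) (nat_lit 0xbc0001780002fb7de) b23844 (.nil))) (.tok (nat_lit 9) (nat_lit 0xbc0001780002fce1b) (.hit (nat_lit 174) (nat_lit 20) (nat_lit 0xbc0001780002fce1b) b23841 (.hit (nat_lit 175) (nat_lit 28) (nat_lit 0xbc0001780002fbb3d) b23842 (.nil))) (.nil))))) (.tok (nat_lit 65) (nat_lit 0xbc0001780002feae7) (.hit (nat_lit 181) (nat_lit 0) (nat_lit 0xbc0001780002fea77) b23845 (.one (nat_lit 3) (nat_lit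 182) (nat_lit 1) (nat_lit 0xbc0001780002fe3b7) b23846 (.tok (nat_lit 6) (nat_lit 0xbc0001780002fe47c) (.hit (nat_lit 183) (nat_lit 7) (nat_lit 0xbc0001780002fc195) b23849 (.hit (nat_lit 184) (nat_lit 15) (nat_lit 0xbc0001780002fe47c) b23850 (.nil))) (.tok (nat_lit 9) (nat_lit 0xbc0001780002feae7) (.hit (nat_lit 185) (nat_lit 20) (nat_lit 0xbc0001780002feae7) b23847 (.hit (nat_lit 186) (nat_lit 28) (nat_lit 0xbc0001780002fe20f) b23848 (.nil))) (.nil))))) (.tok (nat_lit 68) (nat_lit 0xbc0001780002fda1c) (.hit (nat_lit 209) (nat_lit 0) (nat_lit 0xbc0001780002fda1c) b23851 (.one (nat_lit 3) (nat_lit 210) (nat_lit 1) (nat_lit 0xbc0001780002fb2ae) b23828 (.tok (nat_lit 6) (nat_lit 0xbc0001780002fd200) (.hit (nat_lit 211) (nat_lit 7) (nat_lit 0xbc0001780002fc404) b23853 (.hit (nat_lit 212) (nat_lit 15) (nat_lit 0xbc0001780002fd200) b23854 (.nil))) (.tok (nat_lit 9) (nat_lit 0xbc0001780002fcdb5)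 (.hit (nat_lit 213) (nat_lit 20) (nat_lit 0xbc0001780002fcdb5) b23852 (.hit (nat_lit 214) (nat_lit 28) (nat_lit 0xbc0001780002fb41c) b23832 (.nil))) (.nil))))) (.tok (nat_lit 71) (nat_lit 0xbc0001780002fe083) (.hit (nat_lit 195) (nat_lit 0) (nat_lit 0xbc0001780002fe083) b23855 (.one (nat_lit 3) (nat_lit 196) (nat_lit 1) (nat_lit 0xbc0001780002fc45b) b23856 (.tok (nat_lit 6) (nat_lit 0xbc0001780002fd762) (.hit (nat_lit 197) (nat_lit 7) (nat_lit 0xbc0001780002fcdcc) b23859 (.hit (nat_lit 198) (nat_lit 15) (nat_lit 0xbc0001780002fd762) b23860 (.nil))) (.tok (nat_lit 9) (nat_lit 0xbc0001780002fd157) (.hit (nat_lit 199) (nat_lit 20) (nat_lit 0xbc0001780002fd157) b23857 (.hit (nat_lit 200) (nat_lit 28) (nat_lit 0xbc0001780002fd11c) b23858 (.nil))) (.nil))))) (.nil))))))))))))))))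
noncomputable def r25_2 : Rw Blk := .tok (nat_lit 3) (nat_lit 0xbc0001780002fe0ea) (.hit (nat_lit 14) (nat_lit 0) (nat_lit 0xbc0001780002fde3c) b23916 (.tok (nat_lit 6) (nat_lit 0xbc0001780002fce47) (.hit (nat_lit 15) (nat_lit 7) (nat_lit 0xbc0001780002fb907) b23919 (.hit (nat_lit 16) (nat_lit 15) (nat_lit 0xbc0001780002fce47) b23920 (.nil))) (.tok (nat_lit 9) (nat_lit 0xbc0001780002fe0ea) (.hit (nat_lit 17) (nat_lit 20) (nat_lit 0xbc0001780002fe0ea) b23917 (.hit (nat_lit 18) (nat_lit 28) (nat_lit 0xbc0001780002fd075) b23918 (.nil))) (.nil)))) (.tok (nat_lit 6) (nat_lit 0xbc0001780002fe6d0) (.hit (nat_lit 0) (nat_lit 0) (nat_lit 0xbc0001780002fe654) b23906 (.tok (nat_lit 3) (nat_lit 0xbc0001780002fe6d0) (.hit (nat_lit 1) (nat_lit 1) (nat_lit 0xbc0001780002fc485) b23907 (.one (nat_lit 67) (nat_lit 2) (nat_lit 2) (nat_lit 0xbc0001780002fe6d0) b23908 (.nil))) (.tok (nat_lit 6) (nat_lit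 0xbc0001780002fd441) (.hit (nat_lit 3) (nat_lit 7) (nat_lit 0xbc0001780002fd441) b23909 (.hit (nat_lit 7) (nat_lit 15) (nat_lit 0xbc0001780002fd078) b23910 (.nil))) (.nil)))) (.tok (nat_lit 9) (nat_lit 0xbc000178000300fa9) (.hit (nat_lit 9) (nat_lit 0) (nat_lit 0xbc0001780002fef1f) b23911 (.tok (nat_lit 3) (nat_lit 0xbc000178000300fa9) (.hit (nat_lit 10) (nat_lit 1) (nat_lit 0xbc0001780002fea0e) b23912 (.one (nat_lit 55) (nat_lit 11) (nat_lit 3) (nat_lit 0xbc000178000300fa9) b23913 (.nil))) (.tok (nat_lit 9) (nat_lit 0xbc0001780002fe11e) (.hit (nat_lit 12) (nat_lit 20) (nat_lit 0xbc0001780002fdffe) b23914 (.hit (nat_lit 13) (nat_lit 28) (nat_lit 0xbc0001780002fe11e) b23915 (.nil))) (.nil)))) (.nil)))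
noncomputable def r25_3 : Rw Blk := .tok (nat_lit 3) (nat_lit 0xbc0001780003005ca) (.hit (nat_lit 0) (nat_lit 0) (nat_lit 0xbc0001780002fed09) b23921 (.tok (nat_lit 6) (nat_lit 0xbc0001780002fe96c) (.hit (nat_lit 1) (nat_lit 7) (nat_lit 0xbc0001780002fdc20) b23922 (.hit (nat_lit 6) (nat_lit 15) (nat_lit 0xbc0001780002fcda7) b23925 (.tok (nat_lit 14) (nat_lit 0xbc0001780002fe96c) (.hit (nat_lit 2) (nat_lit 11) (nat_lit 0xbc0001780002fe339) b23923 (.hit (nat_lit 7) (nat_lit 17) (nat_lit 0xbc0001780002fe436) b23926 (.one (nat_lit 9) (nat_lit 3) (nat_lit 12) (nat_lit 0xbc0001780002fe96c) b23924 (.nil)))) (.nil)))) (.tok (nat_lit 52) (nat_lit 0xbc0001780002fea29) (.hit (nat_lit 9) (nat_lit 39) (nat_lit 0xbc0001780002fe9b6) b23927 (.hit (nat_lit 10) (nat_lit 40) (nat_lit 0xbc0001780002fea29) b23928 (.nil))) (.tok (nat_lit 55) (nat_lit 0xbc0001780003005ca) (.hit (nat_lit 11) (nat_lit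 41) (nat_lit 0xbc0001780003005ca) b23929 (.tok (nat_lit 3) (nat_lit 0xbc0001780002ffdc0) (.hit (nat_lit 17) (nat_lit 47) (nat_lit 0xbc0001780002feef9) b23932 (.one (nat_lit 67) (nat_lit 18) (nat_lit 48) (nat_lit 0xbc0001780002ffdc0) b23933 (.nil))) (.tok (nat_lit 6) (nat_lit 0xbc0001780002ff008) (.hit (nat_lit 12) (nat_lit 42) (nat_lit 0xbc0001780002ff008) b23930 (.hit (nat_lit 15) (nat_lit 45) (nat_lit 0xbc0001780002feb3d) b23931 (.nil))) (.nil)))) (.one (nat_lit 58) (nat_lit 19) (nat_lit 49) (nat_lit 0xbc0001780002fe95f) b23934 (.nil)))))) (.tok (nat_lit 9) (nat_lit 0xbc00017800030391d) (.hit (nat_lit 20) (nat_lit 0) (nat_lit 0xbc0001780002fed2f) b23935 (.tok (nat_lit 9) (nat_lit 0xbc00017800030391d) (.hit (nat_lit 21) (nat_lit 20) (nat_lit 0xbc0001780002fed36) b23936 (.hit (nat_lit 26) (nat_lit 28) (nat_lit 0xbc0001780002fcf3e) b23941 (.tok (nat_lit 14) (nat_lit 0xbc00017800030391d)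 (.hit (nat_lit 22) (nat_lit 24) (nat_lit 0xbc00017800030391d) b23937 (.hit (nat_lit 27) (nat_lit 30) (nat_lit 0xbc0001780002feec0) b23942 (.one (nat_lit 6) (nat_lit 23) (nat_lit 25) (nat_lit 0xbc000178000303319) b23938 (.nil)))) (.one (nat_lit 56) (nat_lit 28) (nat_lit 31) (nat_lit 0xbc0001780002fecd7) b23943 (.tok (nat_lit 68) (nat_lit 0xbc000178000300e27) (.hit (nat_lit 24) (nat_lit 26) (nat_lit 0xbc000178000300e27) b23939 (.hit (nat_lit 29) (nat_lit 32) (nat_lit 0xbc0001780002fed54) b23944 (.one (nat_lit 9) (nat_lit 25) (nat_lit 27) (nat_lit 0xbc0001780002ff432) b23940 (.nil)))) (.nil)))))) (.nil))) (.nil))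
noncomputable def r25_4 : Rw Blk := .tok (nat_lit 26) (nat_lit 0xbc0001780002ff0d4) (.hit (nat_lit 260) (nat_lit 0) (nat_lit 0xbc0001780002ff0d4) b23989 (.one (nat_lit 3) (nat_lit 261) (nat_lit 1) (nat_lit 0xbc0001780002fbc46) b23990 (.tok (nat_lit 6) (nat_lit 0xbc0001780002fd573) (.hit (nat_lit 262) (nat_lit 7) (nat_lit 0xbc0001780002fd573) b23993 (.hit (nat_lit 263) (nat_lit 15) (nat_lit 0xbc0001780002fc71e) b23994 (.nil))) (.tok (nat_lit 9) (nat_lit 0xbc0001780002fd883) (.hit (nat_lit 264) (nat_lit 20) (nat_lit 0xbc0001780002fc1f2) b23991 (.hit (nat_lit 265) (nat_lit 28) (nat_lit 0xbc0001780002fd883) b23992 (.nil))) (.nil))))) (.tok (nat_lit 29) (nat_lit 0xbc0001780002fdc6f) (.hit (nat_lit 266) (nat_lit 0) (nat_lit 0xbc0001780002fdc6f) b23995 (.one (nat_lit 3) (nat_lit 267) (nat_lit 1) (nat_lit 0xbc0001780002fb928) b23996 (.tok (nat_lit 6) (nat_lit 0xbc0001780002fdc0f) (.hit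 (nat_lit 268) (nat_lit 7) (nat_lit 0xbc0001780002fd308) b23999 (.hit (nat_lit 269) (nat_lit 15) (nat_lit 0xbc0001780002fdc0f) b24000 (.nil))) (.tok (nat_lit 9) (nat_lit 0xbc0001780002fdae3) (.hit (nat_lit 270) (nat_lit 20) (nat_lit 0xbc0001780002fcc78) b23997 (.hit (nat_lit 271) (nat_lit 28) (nat_lit 0xbc0001780002fdae3) b23998 (.nil))) (.nil))))) (.tok (nat_lit 32) (nat_lit 0xbc0001780002fe41d) (.hit (nat_lit 272) (nat_lit 0) (nat_lit 0xbc0001780002fe41d) b24001 (.one (nat_lit 3) (nat_lit 273) (nat_lit 1) (nat_lit 0xbc0001780002fb7a1) b23958 (.tok (nat_lit 6) (nat_lit 0xbc0001780002fdc04) (.hit (nat_lit 274) (nat_lit 7) (nat_lit 0xbc0001780002fc1e7) b24004 (.hit (nat_lit 275) (nat_lit 15) (nat_lit 0xbc0001780002fdc04) b24005 (.nil))) (.tok (nat_lit 9) (nat_lit 0xbc0001780002fd2d8) (.hit (nat_lit 276) (nat_lit 20) (nat_lit 0xbc0001780002fd2d8) b24002 (.hit (nat_lit 277) (nat_lit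 28) (nat_lit 0xbc0001780002fbbd3) b24003 (.nil))) (.nil))))) (.tok (nat_lit 35) (nat_lit 0xbc0001780002fe09c) (.hit (nat_lit 278) (nat_lit 0) (nat_lit 0xbc0001780002fe09c) b24006 (.one (nat_lit 3) (nat_lit 279) (nat_lit 1) (nat_lit 0xbc0001780002fb7a1) b23958 (.tok (nat_lit 6) (nat_lit 0xbc0001780002fcf79) (.hit (nat_lit 280) (nat_lit 7) (nat_lit 0xbc0001780002fcf79) b24009 (.hit (nat_lit 281) (nat_lit 15) (nat_lit 0xbc0001780002fba4b) b24010 (.nil))) (.tok (nat_lit 9) (nat_lit 0xbc0001780002fd9f0) (.hit (nat_lit 282) (nat_lit 20) (nat_lit 0xbc0001780002fd294) b24007 (.hit (nat_lit 283) (nat_lit 28) (nat_lit 0xbc0001780002fd9f0) b24008 (.nil))) (.nil))))) (.tok (nat_lit 38) (nat_lit 0xbc0001780002ff390) (.hit (nat_lit 215) (nat_lit 0) (nat_lit 0xbc0001780002ff390) b24011 (.one (nat_lit 3) (nat_lit 216) (nat_lit 1) (nat_lit 0xbc0001780002fb7cf) b24012 (.tok (nat_lit 6) (nat_lit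 0xbc0001780002fd2eb) (.hit (nat_lit 217) (nat_lit 7) (nat_lit 0xbc0001780002fd2eb) b23959 (.hit (nat_lit 218) (nat_lit 15) (nat_lit 0xbc0001780002fc02c) b24015 (.nil))) (.tok (nat_lit 9) (nat_lit 0xbc0001780002fc388) (.hit (nat_lit 219) (nat_lit 20) (nat_lit 0xbc0001780002fc388) b24013 (.hit (nat_lit 220) (nat_lit 28) (nat_lit 0xbc0001780002fc030) b24014 (.nil))) (.nil))))) (.tok (nat_lit 41) (nat_lit 0xbc0001780002ff331) (.hit (nat_lit 226) (nat_lit 0) (nat_lit 0xbc0001780002fecc1) b24016 (.one (nat_lit 3) (nat_lit 227) (nat_lit 1) (nat_lit 0xbc0001780002fe116) b24017 (.tok (nat_lit 6) (nat_lit 0xbc0001780002ff331) (.hit (nat_lit 228) (nat_lit 7) (nat_lit 0xbc0001780002ff331) b24020 (.hit (nat_lit 229) (nat_lit 15) (nat_lit 0xbc0001780002fed24) b24021 (.nil))) (.tok (nat_lit 9) (nat_lit 0xbc0001780002ff0f9) (.hit (nat_lit 230) (nat_lit 20) (nat_lit 0xbc0001780002ff0f9) b24018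 (.hit (nat_lit 231) (nat_lit 28) (nat_lit 0xbc0001780002feb67) b24019 (.nil))) (.nil))))) (.tok (nat_lit 44) (nat_lit 0xbc000178000300661) (.hit (nat_lit 240) (nat_lit 0) (nat_lit 0xbc00017800030015d) b24022 (.one (nat_lit 3) (nat_lit 241) (nat_lit 1) (nat_lit 0xbc0001780002fde4b) b24023 (.tok (nat_lit 6) (nat_lit 0xbc0001780002ff8ad) (.hit (nat_lit 242) (nat_lit 7) (nat_lit 0xbc0001780002ff8ad) b24026 (.hit (nat_lit 243) (nat_lit 15) (nat_lit 0xbc0001780002fe291) b24027 (.nil))) (.tok (nat_lit 9) (nat_lit 0xbc000178000300661) (.hit (nat_lit 244) (nat_lit 20) (nat_lit 0xbc000178000300661) b24024 (.hit (nat_lit 245) (nat_lit 28) (nat_lit 0xbc0001780002fe811) b24025 (.nil))) (.nil))))) (.tok (nat_lit 47) (nat_lit 0xbc0001780002ffeca) (.hit (nat_lit 254) (nat_lit 0) (nat_lit 0xbc0001780002ffeca) b24028 (.one (nat_lit 3) (nat_lit 255) (nat_lit 1) (nat_lit 0xbc0001780002fd3a8) b24029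 (.tok (nat_lit 6) (nat_lit 0xbc0001780002ff377) (.hit (nat_lit 256) (nat_lit 7) (nat_lit 0xbc0001780002ff377) b24032 (.hit (nat_lit 257) (nat_lit 15) (nat_lit 0xbc0001780002fe849) b24033 (.nil))) (.tok (nat_lit 9) (nat_lit 0xbc0001780002ff65e) (.hit (nat_lit 258) (nat_lit 20) (nat_lit 0xbc0001780002ff65e) b24030 (.hit (nat_lit 259) (nat_lit 28) (nat_lit 0xbc0001780002fe57e) b24031 (.nil))) (.nil))))) (.tok (nat_lit 50) (nat_lit 0xbc0001780002fdec5) (.hit (nat_lit 146) (nat_lit 0) (nat_lit 0xbc0001780002fdec5) b23945 (.one (nat_lit 3) (nat_lit 147) (nat_lit 1) (nat_lit 0xbc0001780002fb7f5) b23946 (.tok (nat_lit 6) (nat_lit 0xbc0001780002fcded) (.hit (nat_lit 148) (nat_lit 7) (nat_lit 0xbc0001780002fcded) b23949 (.hit (nat_lit 149) (nat_lit 15) (nat_lit 0xbc0001780002fc000) b23950 (.nil))) (.tok (nat_lit 9) (nat_lit 0xbc0001780002fc1ca) (.hit (nat_lit 150) (nat_lit 20) (nat_lit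 0xbc0001780002fc1ca) b23947 (.hit (nat_lit 151) (nat_lit 28) (nat_lit 0xbc0001780002fbdce) b23948 (.nil))) (.nil))))) (.tok (nat_lit 53) (nat_lit 0xbc0001780002fea4e) (.hit (nat_lit 152) (nat_lit 0) (nat_lit 0xbc0001780002fe60c) b23951 (.one (nat_lit 3) (nat_lit 153) (nat_lit 1) (nat_lit 0xbc0001780002fe03a) b23952 (.tok (nat_lit 6) (nat_lit 0xbc0001780002fea4e) (.hit (nat_lit 154) (nat_lit 7) (nat_lit 0xbc0001780002fea4e) b23955 (.hit (nat_lit 155) (nat_lit 15) (nat_lit 0xbc0001780002fe8c8) b23956 (.nil))) (.tok (nat_lit 9) (nat_lit 0xbc0001780002fe693) (.hit (nat_lit 156) (nat_lit 20) (nat_lit 0xbc0001780002fd9e2) b23953 (.hit (nat_lit 157) (nat_lit 28) (nat_lit 0xbc0001780002fe693) b23954 (.nil))) (.nil))))) (.tok (nat_lit 56) (nat_lit 0xbc0001780002fdbcb) (.hit (nat_lit 164) (nat_lit 0) (nat_lit 0xbc0001780002fd90c) b23957 (.one (nat_lit 3) (nat_lit 165) (nat_lit 1) (nat_lit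 0xbc0001780002fb7a1) b23958 (.tok (nat_lit 6) (nat_lit 0xbc0001780002fcf36) (.hit (nat_lit 166) (nat_lit 7) (nat_lit 0xbc0001780002fcf36) b23961 (.hit (nat_lit 167) (nat_lit 15) (nat_lit 0xbc0001780002fb90f) b23962 (.nil))) (.tok (nat_lit 9) (nat_lit 0xbc0001780002fdbcb) (.hit (nat_lit 168) (nat_lit 20) (nat_lit 0xbc0001780002fd2eb) b23959 (.hit (nat_lit 169) (nat_lit 28) (nat_lit 0xbc0001780002fdbcb) b23960 (.nil))) (.nil))))) (.tok (nat_lit 59) (nat_lit 0xbc0001780002fe454) (.hit (nat_lit 158) (nat_lit 0) (nat_lit 0xbc0001780002fe454) b23963 (.one (nat_lit 3) (nat_lit 159) (nat_lit 1) (nat_lit 0xbc0001780002fb7a1) b23958 (.tok (nat_lit 6) (nat_lit 0xbc0001780002fd0ec) (.hit (nat_lit 160) (nat_lit 7) (nat_lit 0xbc0001780002fcc38) b23966 (.hit (nat_lit 161) (nat_lit 15) (nat_lit 0xbc0001780002fd0ec) b23967 (.nil))) (.tok (nat_lit 9) (nat_lit 0xbc0001780002fcd73) (.hit (nat_lit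 162) (nat_lit 20) (nat_lit 0xbc0001780002fcd73) b23964 (.hit (nat_lit 163) (nat_lit 28) (nat_lit 0xbc0001780002fc142) b23965 (.nil))) (.nil))))) (.tok (nat_lit 62) (nat_lit 0xbc0001780002fe982) (.hit (nat_lit 170) (nat_lit 0) (nat_lit 0xbc0001780002fd9a5) b23968 (.one (nat_lit 3) (nat_lit 171) (nat_lit 1) (nat_lit 0xbc0001780002fbcb4) b23969 (.tok (nat_lit 6) (nat_lit 0xbc0001780002fc755) (.hit (nat_lit 172) (nat_lit 7) (nat_lit 0xbc0001780002fc755) b23972 (.hit (nat_lit 173) (nat_lit 15) (nat_lit 0xbc0001780002fc13c) b23973 (.nil))) (.tok (nat_lit 9) (nat_lit 0xbc0001780002fe982) (.hit (nat_lit 174) (nat_lit 20) (nat_lit 0xbc0001780002fe982) b23970 (.hit (nat_lit 175) (nat_lit 28) (nat_lit 0xbc0001780002fc2c4) b23971 (.nil))) (.nil))))) (.tok (nat_lit 65) (nat_lit 0xbc0001780002fef18) (.hit (nat_lit 181) (nat_lit 0) (nat_lit 0xbc0001780002fea08) b23974 (.one (nat_lit 3) (nat_lit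 182) (nat_lit 1) (nat_lit 0xbc0001780002fe10e) b23975 (.tok (nat_lit 6) (nat_lit 0xbc0001780002fef18) (.hit (nat_lit 183) (nat_lit 7) (nat_lit 0xbc0001780002fd872) b23978 (.hit (nat_lit 184) (nat_lit 15) (nat_lit 0xbc0001780002fef18) b23979 (.nil))) (.tok (nat_lit 9) (nat_lit 0xbc0001780002fe87e) (.hit (nat_lit 185) (nat_lit 20) (nat_lit 0xbc0001780002fe87e) b23976 (.hit (nat_lit 186) (nat_lit 28) (nat_lit 0xbc0001780002fe386) b23977 (.nil))) (.nil))))) (.tok (nat_lit 68) (nat_lit 0xbc0001780002fdfed) (.hit (nat_lit 209) (nat_lit 0) (nat_lit 0xbc0001780002fdfed) b23980 (.one (nat_lit 3) (nat_lit 210) (nat_lit 1) (nat_lit 0xbc0001780002fb7a1) b23958 (.tok (nat_lit 6) (nat_lit 0xbc0001780002fdea4) (.hit (nat_lit 211) (nat_lit 7) (nat_lit 0xbc0001780002fd2eb) b23959 (.hit (nat_lit 212) (nat_lit 15) (nat_lit 0xbc0001780002fdea4) b23982 (.nil))) (.tok (nat_lit 9) (nat_lit 0xbc0001780002fd2a8)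 (.hit (nat_lit 213) (nat_lit 20) (nat_lit 0xbc0001780002fd2a8) b23981 (.hit (nat_lit 214) (nat_lit 28) (nat_lit 0xbc0001780002fb90f) b23962 (.nil))) (.nil))))) (.tok (nat_lit 71) (nat_lit 0xbc0001780002ff077) (.hit (nat_lit 195) (nat_lit 0) (nat_lit 0xbc0001780002fe32d) b23983 (.one (nat_lit 3) (nat_lit 196) (nat_lit 1) (nat_lit 0xbc0001780002fc3fa) b23984 (.tok (nat_lit 6) (nat_lit 0xbc0001780002ff077) (.hit (nat_lit 197) (nat_lit 7) (nat_lit 0xbc0001780002ff077) b23987 (.hit (nat_lit 198) (nat_lit 15) (nat_lit 0xbc0001780002fb40c) b23988 (.nil))) (.tok (nat_lit 9) (nat_lit 0xbc0001780002fdfea) (.hit (nat_lit 199) (nat_lit 20) (nat_lit 0xbc0001780002fdac2) b23985 (.hit (nat_lit 200) (nat_lit 28) (nat_lit 0xbc0001780002fdfea) b23986 (.nil))) (.nil))))) (.nil))))))))))))))))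
noncomputable def r25_5 : Rw Blk := .tok (nat_lit 3) (nat_lit 0xbc0001780002fdda1) (.hit (nat_lit 14) (nat_lit 0) (nat_lit 0xbc0001780002fdda1) b24044 (.tok (nat_lit 6) (nat_lit 0xbc0001780002fcf00) (.hit (nat_lit 15) (nat_lit 7) (nat_lit 0xbc0001780002fcf00) b24047 (.hit (nat_lit 16) (nat_lit 15) (nat_lit 0xbc0001780002fcb93) b24048 (.nil))) (.tok (nat_lit 9) (nat_lit 0xbc0001780002fc4c9) (.hit (nat_lit 17) (nat_lit 20) (nat_lit 0xbc0001780002fbf5a) b24045 (.hit (nat_lit 18) (nat_lit 28) (nat_lit 0xbc0001780002fc4c9) b24046 (.nil))) (.nil)))) (.tok (nat_lit 6) (nat_lit 0xbc000178000300a2d) (.hit (nat_lit 9) (nat_lit 0) (nat_lit 0xbc0001780002ff1e0) b24039 (.tok (nat_lit 3) (nat_lit 0xbc000178000300a2d) (.hit (nat_lit 10) (nat_lit 1) (nat_lit 0xbc0001780002ff202) b24040 (.one (nat_lit 67) (nat_lit 11) (nat_lit 2) (nat_lit 0xbc000178000300a2d) b24041 (.nil))) (.tok (nat_lit 6)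 (nat_lit 0xbc0001780002ffca7) (.hit (nat_lit 12) (nat_lit 7) (nat_lit 0xbc0001780002ffca7) b24042 (.hit (nat_lit 13) (nat_lit 15) (nat_lit 0xbc0001780002fe98d) b24043 (.nil))) (.nil)))) (.tok (nat_lit 9) (nat_lit 0xbc0001780002feb74) (.hit (nat_lit 0) (nat_lit 0) (nat_lit 0xbc0001780002feb74) b24034 (.tok (nat_lit 3) (nat_lit 0xbc0001780002fdfb8) (.hit (nat_lit 1) (nat_lit 1) (nat_lit 0xbc0001780002fcd13) b24035 (.one (nat_lit 55) (nat_lit 2) (nat_lit 3) (nat_lit 0xbc0001780002fdfb8) b24036 (.nil))) (.tok (nat_lit 9) (nat_lit 0xbc0001780002fcdf9) (.hit (nat_lit 3) (nat_lit 20) (nat_lit 0xbc0001780002fc89d) b24037 (.hit (nat_lit 7) (nat_lit 28) (nat_lit 0xbc0001780002fcdf9) b24038 (.nil))) (.nil)))) (.nil)))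
noncomputable def r25_6 : Rw Blk := .tok (nat_lit 3) (nat_lit 0xbc0001780002fe332) (.hit (nat_lit 14) (nat_lit 0) (nat_lit 0xbc0001780002fe332) b15487 (.tok (nat_lit 6) (nat_lit 0xbc0001780002fd0a7) (.hit (nat_lit 15) (nat_lit 7) (nat_lit 0xbc0001780002fd0a7) b15488 (.hit (nat_lit 16) (nat_lit 15) (nat_lit 0xbc0001780002faa89) b15489 (.nil))) (.tok (nat_lit 9) (nat_lit 0xbc0001780002fd58b) (.hit (nat_lit 17) (nat_lit 20) (nat_lit 0xbc0001780002fd58b) b15490 (.hit (nat_lit 18) (nat_lit 28) (nat_lit 0xbc0001780002fd007) b15491 (.nil))) (.nil)))) (.tok (nat_lit 6) (nat_lit 0xbc0001780002ff2fa) (.hit (nat_lit 0) (nat_lit 0) (nat_lit 0xbc0001780002ff2fa) b15473 (.tok (nat_lit 3) (nat_lit 0xbc0001780002fe7a8) (.hit (nat_lit 1) (nat_lit 1) (nat_lit 0xbc0001780002fd593) b15474 (.one (nat_lit 67) (nat_lit 2) (nat_lit 2) (nat_lit 0xbc0001780002fe7a8) b15475 (.nil))) (.tok (nat_lit 6) (nat_lit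 0xbc0001780002fd3a5) (.hit (nat_lit 3) (nat_lit 7) (nat_lit 0xbc0001780002fd2ad) b15476 (.hit (nat_lit 7) (nat_lit 15) (nat_lit 0xbc0001780002fd3a5) b15480 (.nil))) (.nil)))) (.tok (nat_lit 9) (nat_lit 0xbc000178000300000) (.hit (nat_lit 9) (nat_lit 0) (nat_lit 0xbc000178000300000) b15482 (.tok (nat_lit 3) (nat_lit 0xbc0001780002ffaf5) (.hit (nat_lit 10) (nat_lit 1) (nat_lit 0xbc0001780002fda4e) b15483 (.one (nat_lit 55) (nat_lit 11) (nat_lit 3) (nat_lit 0xbc0001780002ffaf5) b15484 (.nil))) (.tok (nat_lit 9) (nat_lit 0xbc0001780002ff2c2) (.hit (nat_lit 12) (nat_lit 20) (nat_lit 0xbc0001780002ff2c2) b15485 (.hit (nat_lit 13) (nat_lit 28) (nat_lit 0xbc0001780002fdd07) b15486 (.nil))) (.nil)))) (.nil)))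
noncomputable def r25_7 : Rw Blk := .tok (nat_lit 6) (nat_lit 0xbc000178000300f58) (.hit (nat_lit 0) (nat_lit 0) (nat_lit 0xbc000178000300f58) b24049 (.tok (nat_lit 3) (nat_lit 0xbc0001780002fe0f5) (.hit (nat_lit 1) (nat_lit 1) (nat_lit 0xbc0001780002fc7f0) b24050 (.one (nat_lit 14) (nat_lit 2) (nat_lit 4) (nat_lit 0xbc0001780002fe0f5) b24051 (.nil))) (.tok (nat_lit 40) (nat_lit 0xbc0001780002fe99d) (.hit (nat_lit 4) (nat_lit 33) (nat_lit 0xbc0001780002fe417) b24052 (.hit (nat_lit 5) (nat_lit 34) (nat_lit 0xbc0001780002fe99d) b24053 (.nil))) (.tok (nat_lit 43) (nat_lit 0xbc0001780002ff5f8) (.hit (nat_lit 6) (nat_lit 35) (nat_lit 0xbc0001780002ff5f8) b24056 (.hit (nat_lit 7) (nat_lit 36) (nat_lit 0xbc0001780002ff05d) b24057 (.nil))) (.tok (nat_lit 46) (nat_lit 0xbc0001780002ff521) (.hit (nat_lit 8) (nat_lit 37) (nat_lit 0xbc0001780002ff521) b24054 (.hit (nat_lit 9) (nat_lit 38)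 (nat_lit 0xbc0001780002ff1bc) b24055 (.nil))) (.nil)))))) (.tok (nat_lit 9) (nat_lit 0xbc000178000303cfc) (.hit (nat_lit 10) (nat_lit 0) (nat_lit 0xbc000178000301b81) b24058 (.tok (nat_lit 3) (nat_lit 0xbc00017800030049f) (.hit (nat_lit 11) (nat_lit 1) (nat_lit 0xbc0001780002ff170) b24059 (.one (nat_lit 14) (nat_lit 12) (nat_lit 4) (nat_lit 0xbc00017800030049f) b24060 (.nil))) (.tok (nat_lit 40) (nat_lit 0xbc0001780002ffe62) (.hit (nat_lit 14) (nat_lit 33) (nat_lit 0xbc0001780002ffe62) b24061 (.hit (nat_lit 15) (nat_lit 34) (nat_lit 0xbc0001780002ffcca) b24062 (.nil))) (.tok (nat_lit 43) (nat_lit 0xbc000178000300ff2) (.hit (nat_lit 16) (nat_lit 35) (nat_lit 0xbc0001780002fee1d) b24065 (.hit (nat_lit 17) (nat_lit 36) (nat_lit 0xbc000178000300ff2) b24066 (.nil))) (.tok (nat_lit 46) (nat_lit 0xbc000178000303cfc) (.hit (nat_lit 18) (nat_lit 37) (nat_lit 0xbc000178000303cfc) b24063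 (.hit (nat_lit 19) (nat_lit 38) (nat_lit 0xbc0001780002fed6a) b24064 (.nil))) (.nil)))))) (.nil))
noncomputable def r25_8 : Rw Blk := .tok (nat_lit 6) (nat_lit 0xbc000178000300bfd) (.hit (nat_lit 0) (nat_lit 0) (nat_lit 0xbc0001780003000e0) b24067 (.tok (nat_lit 3) (nat_lit 0xbc0001780003007dc) (.hit (nat_lit 1) (nat_lit 1) (nat_lit 0xbc0001780002fd905) b24068 (.one (nat_lit 14) (nat_lit 2) (nat_lit 4) (nat_lit 0xbc0001780003007dc) b24069 (.nil))) (.tok (nat_lit 40) (nat_lit 0xbc0001780002ffab5) (.hit (nat_lit 4) (nat_lit 33) (nat_lit 0xbc0001780002ff676) b24070 (.hit (nat_lit 5) (nat_lit 34) (nat_lit 0xbc0001780002ffab5) b24071 (.nil))) (.tok (nat_lit 43) (nat_lit 0xbc0001780003005ea) (.hit (nat_lit 6) (nat_lit 35) (nat_lit 0xbc0001780003005ea) b24074 (.hit (nat_lit 7) (nat_lit 36) (nat_lit 0xbc0001780002fefcb) b24075 (.nil))) (.tok (nat_lit 46) (nat_lit 0xbc000178000300bfd)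 (.hit (nat_lit 8) (nat_lit 37) (nat_lit 0xbc0001780002fe8cb) b24072 (.hit (nat_lit 9) (nat_lit 38) (nat_lit 0xbc000178000300bfd) b24073 (.nil))) (.nil)))))) (.tok (nat_lit 9) (nat_lit 0xbc0001780003000c9) (.hit (nat_lit 10) (nat_lit 0) (nat_lit 0xbc0001780002fe95d) b24076 (.tok (nat_lit 3) (nat_lit 0xbc0001780002ff29d) (.hit (nat_lit 11) (nat_lit 1) (nat_lit 0xbc0001780002fd28c) b24077 (.one (nat_lit 14) (nat_lit 12) (nat_lit 4) (nat_lit 0xbc0001780002ff29d) b24078 (.nil))) (.tok (nat_lit 40) (nat_lit 0xbc0001780002feaae) (.hit (nat_lit 14) (nat_lit 33) (nat_lit 0xbc0001780002feaae) b24079 (.hit (nat_lit 15) (nat_lit 34) (nat_lit 0xbc0001780002fe4a9) b24080 (.nil))) (.tok (nat_lit 43) (nat_lit 0xbc0001780002ffc5c) (.hit (nat_lit 16) (nat_lit 35) (nat_lit 0xbc0001780002fd899) b24083 (.hit (nat_lit 17) (nat_lit 36) (nat_lit 0xbc0001780002ffc5c) b24084 (.nil))) (.tok (nat_lit 46)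 (nat_lit 0xbc0001780003000c9) (.hit (nat_lit 18) (nat_lit 37) (nat_lit 0xbc0001780003000c9) b24081 (.hit (nat_lit 19) (nat_lit 38) (nat_lit 0xbc0001780002fdff7) b24082 (.nil))) (.nil)))))) (.nil))
noncomputable def r25_9 : Rw Blk := .tok (nat_lit 3) (nat_lit 0x2fe0815fd7e6bfee497f38bafdf735fd6aebfa3cd7edc5afe0f5) (.hit (nat_lit 15) (nat_lit 0) (nat_lit 0x2fdf555fd55cbfd9fd7f38bafdf735fd6aebf99d17edc5afdfc9) b24099 (.tok (nat_lit 6) (nat_lit 0x2fe0815fd7e6bfee497f08f2fdb3c5fc752bfa3cd7ecfd2fe0f5) (.hit (nat_lit 16) (nat_lit 7) (nat_lit 0x2fc5035fb1babf6c6d7e2d02fbfbe5fb29abf58b57df3e2fc577) b24100 (.hit (nat_lit 21) (nat_lit 15) (nat_lit 0x2fa98a5f981cbf2cb17d513afa4455f9616bf3c397d181afa9fe) b24105 (.tok (nat_lit 14) (nat_lit 0x2fd4b95fd7e6bfee497eaab2fcf745fb5c4bf90617e7192fd52d) (.hit (nat_lit 17) (nat_lit 11) (nat_lit 0x2fd24b5fc5d2bfb7897e9742fcd065faae6bf64157e5e22fd2bf)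 b24101 (.hit (nat_lit 22) (nat_lit 17) (nat_lit 0x2fd1ea5fd01ebf9ed97e943afcca55fb45abf7a497e5b1afd25e) b24106 (.one (nat_lit 9) (nat_lit 18) (nat_lit 12) (nat_lit 0x2fd4b95fd7e6bfee497eaab2fcf745fb5c4bf90617e7192fd52d) b24102 (.nil)))) (.tok (nat_lit 56) (nat_lit 0x2fe0815fc67cbfee317f08f2fdb3c5fc752bfa3cd7ecfd2fe0f5) (.hit (nat_lit 19) (nat_lit 13) (nat_lit 0x2fcd535fbfd0bf87d17e6f82fc80e5fba5cbf82a57e3662fcdc7) b24103 (.hit (nat_lit 24) (nat_lit 19) (nat_lit 0x2fca575fb3bcbf6c517e57a2fc5125fa540bf4b0d7e1e82fcacb) b24108 (.one (nat_lit 6) (nat_lit 20) (nat_lit 14) (nat_lit 0x2fe0815fc67cbfee317f08f2fdb3c5fc752bfa3cd7ecfd2fe0f5) b24104 (.nil)))) (.one (nat_lit 68) (nat_lit 23) (nat_lit 18) (nat_lit 0x2fdb0d5fccc4bf8c857edd52fd5c85fbc6abf7ea17ea432fdb81) b24107 (.nil)))))) (.nil))) (.tok (nat_lit 9) (nat_lit 0x3020f660476ec0c46580ffa3019806038bac05cb1814ebb02bb5) (.hit (nat_lit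 0) (nat_lit 0) (nat_lit 0x2ffd4d6037c4c062b580192b001e560356ec04c697fc8130027d) b24085 (.tok (nat_lit 9) (nat_lit 0x30102d6013e8c08439809e63006065ff490c0008180d24b010f2) (.hit (nat_lit 1) (nat_lit 20) (nat_lit 0x2ff50f5fb424bf8cb57fd0aaff6e55fbabebf67917fa502ff446) b24086 (.hit (nat_lit 4) (nat_lit 28) (nat_lit 0x2fcf055fb852bf80bd7ee34afd68c5fa47cbf4f797e3adafd3b7) b24089 (.tok (nat_lit 14) (nat_lit 0x30102d6013e8c08439809e63006065ff490c0008180d24b010f2) (.hit (nat_lit 2) (nat_lit 24) (nat_lit 0x30102d60072ec0348d80958b0039d5fcb46bfa071809be300d13) b24087 (.hit (nat_lit 5) (nat_lit 30) (nat_lit 0x2fda7a5ff33ebfb4f97f3562fdcfd5fcddcbf96357e82bafde98) b24090 (.one (nat_lit 6) (nat_lit 3) (nat_lit 25) (nat_lit 0x3007686013e8c08439809e63006065ff490c0008180d24b010f2) b24088 (.nil)))) (.nil)))) (.tok (nat_lit 64) (nat_lit 0x3020f6602cccc058fd80f7c3017485fee32bfcbd1814ebb02bb5) (.hit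 (nat_lit 7) (nat_lit 50) (nat_lit 0x3020f6602cccc058fd80f7c3017485fc25ebf8a89814ebb02bb5) b24091 (.hit (nat_lit 8) (nat_lit 51) (nat_lit 0x300e96600a86bffa5580f28b011225fee32bfcbd1803e83011b6) b24092 (.nil))) (.tok (nat_lit 67) (nat_lit 0x30196960476ec0c46580ffa3019806038bac05cb181027301905) (.hit (nat_lit 9) (nat_lit 52) (nat_lit 0x30196960476ec0c46580ffa3019806038bac05cb1806ae300e47) b24093 (.tok (nat_lit 3) (nat_lit 0x30128f5ffef4c0252580e81b017815ffff2bfe12581027301905) (.hit (nat_lit 12) (nat_lit 58) (nat_lit 0x3012885feb76bff6f980e23b017815ffff2bfe1258071d301905) b24096 (.one (nat_lit 55) (nat_lit 13) (nat_lit 59) (nat_lit 0x30128f5ffef4c0252580e81b00f0f5fdf38bfd78d81027301887) b24097 (.nil))) (.tok (nat_lit 9) (nat_lit 0x300a7b6015dcc06941808682ffeb55ff58cbfde9d7f898aff990) (.hit (nat_lit 10) (nat_lit 53) (nat_lit 0x2ff6596015dcc04f297f4162ff03d5fd7b0bfb9217f3daaff3f5)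 b24094 (.hit (nat_lit 11) (nat_lit 56) (nat_lit 0x300a7b6001fac06941808682ffeb55ff58cbfde9d7f898aff990) b24095 (.nil))) (.nil)))) (.one (nat_lit 70) (nat_lit 14) (nat_lit 60) (nat_lit 0x3003d66012f0bff501809c9b00fa1600720bfe1c18011a301353) b24098 (.nil)))))) (.nil))
noncomputable def r25_10 : Rw Blk := .tok (nat_lit 9) (nat_lit 0xbc0001827b0304673) (.hit (nat_lit 18) (nat_lit 0) (nat_lit 0xbc00018064c2ffef0) b24124 (.tok (nat_lit 14) (nat_lit 0xbc00018184cb0189e) (.hit (nat_lit 19) (nat_lit 61) (nat_lit 0xbc000180b2630189e) b24125 (.one (nat_lit 3) (nat_lit 20) (nat_lit 62) (nat_lit 0xbc00018085bb0041d) b24126 (.tok (nat_lit 6) (nat_lit 0xbc00018184cb017cd) (.hit (nat_lit 23) (nat_lit 65) (nat_lit 0xbc00018184cb017cd) b24127 (.hit (nat_lit 24) (nat_lit 66) (nat_lit 0xbc0001803c6aff294) b24128 (.nil))) (.tok (nat_lit 9) (nat_lit 0xbc0001801b92fef7a) (.hit (nat_lit 21) (nat_lit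 63) (nat_lit 0xbc00017fb002fe06f) b24129 (.hit (nat_lit 22) (nat_lit 64) (nat_lit 0xbc0001801b92fef7a) b24130 (.nil))) (.nil))))) (.one (nat_lit 17) (nat_lit 25) (nat_lit 67) (nat_lit 0xbc00018051f2ffd4c) b24131 (.tok (nat_lit 20) (nat_lit 0xbc00017fd9bafe77f) (.hit (nat_lit 26) (nat_lit 68) (nat_lit 0xbc00017fa22afdeb4) b24134 (.hit (nat_lit 27) (nat_lit 69) (nat_lit 0xbc00017fd9bafe77f) b24135 (.nil))) (.tok (nat_lit 23) (nat_lit 0xbc0001827b0304673) (.hit (nat_lit 28) (nat_lit 70) (nat_lit 0xbc0001827b0304673) b24132 (.hit (nat_lit 29) (nat_lit 71) (nat_lit 0xbc00017fa1dafe228) b24133 (.nil))) (.one (nat_lit 26) (nat_lit 30) (nat_lit 72) (nat_lit 0xbc00017fb552fe0cd) b24136 (.one (nat_lit 29) (nat_lit 31) (nat_lit 73) (nat_lit 0xbc00017fe27aff28e) b24137 (.one (nat_lit 32) (nat_lit 32) (nat_lit 74) (nat_lit 0xbc0001801c1aff238) b24139 (.one (nat_lit 35) (nat_lit 33) (nat_lit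 75) (nat_lit 0xbc00017fa872fddab) b24138 (.one (nat_lit 38) (nat_lit 34) (nat_lit 76) (nat_lit 0xbc00017fce9afe45b) b24140 (.tok (nat_lit 41) (nat_lit 0xbc0001802ceaffbcf) (.hit (nat_lit 35) (nat_lit 77) (nat_lit 0xbc00017f6682fdec2) b24141 (.hit (nat_lit 36) (nat_lit 78) (nat_lit 0xbc0001802ceaffbcf) b24142 (.nil))) (.tok (nat_lit 44) (nat_lit 0xbc00017ff082fed7e) (.hit (nat_lit 37) (nat_lit 79) (nat_lit 0xbc00017f0b32fcbd5) b24145 (.hit (nat_lit 38) (nat_lit 80) (nat_lit 0xbc00017ff082fed7e) b24146 (.nil))) (.tok (nat_lit 47) (nat_lit 0xbc00017fa9e2ff995) (.hit (nat_lit 39) (nat_lit 81) (nat_lit 0xbc00017fa9e2ff995) b24143 (.hit (nat_lit 40) (nat_lit 82) (nat_lit 0xbc00017f6802fe51e) b24144 (.nil))) (.nil)))))))))))))) (.tok (nat_lit 64) (nat_lit 0xbc000181c92b02850) (.hit (nat_lit 13) (nat_lit 0) (nat_lit 0xbc000181a16b02850) b24119 (.tok (nat_lit 6) (nat_lit 0xbc00018099baff2be)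 (.hit (nat_lit 14) (nat_lit 7) (nat_lit 0xbc00017fbe8afe240) b24122 (.hit (nat_lit 15) (nat_lit 15) (nat_lit 0xbc00018099baff2be) b24123 (.nil))) (.tok (nat_lit 9) (nat_lit 0xbc000181c92b017e4) (.hit (nat_lit 16) (nat_lit 20) (nat_lit 0xbc00018185e301340) b24120 (.hit (nat_lit 17) (nat_lit 28) (nat_lit 0xbc000181c92b017e4) b24121 (.nil))) (.nil)))) (.tok (nat_lit 67) (nat_lit 0xbc0001808bf2ffb5f) (.hit (nat_lit 8) (nat_lit 0) (nat_lit 0xbc0001808bf2ff8bd) b24114 (.tok (nat_lit 3) (nat_lit 0xbc00018083a2ffae3) (.hit (nat_lit 9) (nat_lit 1) (nat_lit 0xbc000180018afeaa0) b24115 (.one (nat_lit 55) (nat_lit 10) (nat_lit 3) (nat_lit 0xbc00018083a2ffae3) b24116 (.nil))) (.tok (nat_lit 9) (nat_lit 0xbc0001808782ffb5f) (.hit (nat_lit 11) (nat_lit 20) (nat_lit 0xbc0001808782ffb5f) b24117 (.hit (nat_lit 12) (nat_lit 28) (nat_lit 0xbc00017fe152fe699) b24118 (.nil))) (.nil)))) (.tok (nat_lit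 70) (nat_lit 0xbc00018138fb0118e) (.hit (nat_lit 0) (nat_lit 0) (nat_lit 0xbc000181228affe20) b24109 (.tok (nat_lit 3) (nat_lit 0xbc00018138fb0118e) (.hit (nat_lit 1) (nat_lit 1) (nat_lit 0xbc00018097b2ffd65) b24110 (.one (nat_lit 67) (nat_lit 2) (nat_lit 2) (nat_lit 0xbc00018138fb0118e) b24111 (.nil))) (.tok (nat_lit 6) (nat_lit 0xbc000180822affab4) (.hit (nat_lit 3) (nat_lit 7) (nat_lit 0xbc000180719aff8a2) b24112 (.hit (nat_lit 6) (nat_lit 15) (nat_lit 0xbc000180822affab4) b24113 (.nil))) (.nil)))) (.nil))))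
noncomputable def r25_11 : Rw Blk := .tok (nat_lit 3) (nat_lit 0xbc000181fc0302bee) (.hit (nat_lit 0) (nat_lit 0) (nat_lit 0xbc000181fc0302b7d) b24147 (.tok (nat_lit 6) (nat_lit 0xbc000180648b01123) (.hit (nat_lit 1) (nat_lit 7) (nat_lit 0xbc00017f9ae2fe718) b24148 (.hit (nat_lit 6) (nat_lit 15) (nat_lit 0xbc00017f931afeeef) b24151 (.tok (nat_lit 14) (nat_lit 0xbc000180648b01123) (.hit (nat_lit 2) (nat_lit 11) (nat_lit 0xbc0001805b8b006e6) b24149 (.hit (nat_lit 7) (nat_lit 17) (nat_lit 0xbc000180648b00ac5) b24152 (.one (nat_lit 9) (nat_lit 3) (nat_lit 12) (nat_lit 0xbc000180401301123) b24150 (.nil)))) (.nil)))) (.tok (nat_lit 52) (nat_lit 0xbc000180ddeb01f3d) (.hit (nat_lit 9) (nat_lit 39) (nat_lit 0xbc000180ddeb01f3d) b24153 (.hit (nat_lit 10) (nat_lit 40) (nat_lit 0xbc00018096e301663) b24154 (.nil))) (.tok (nat_lit 55) (nat_lit 0xbc000181ec3b02bee) (.hit (nat_lit 11) (nat_lit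 41) (nat_lit 0xbc000181ec3b02bee) b24155 (.tok (nat_lit 3) (nat_lit 0xbc000180c8e30195b) (.hit (nat_lit 17) (nat_lit 47) (nat_lit 0xbc000180c8e3013d9) b24158 (.one (nat_lit 67) (nat_lit 18) (nat_lit 48) (nat_lit 0xbc000180ab0b0195b) b24159 (.nil))) (.tok (nat_lit 6) (nat_lit 0xbc0001809e8b00f65) (.hit (nat_lit 12) (nat_lit 42) (nat_lit 0xbc0001809e8b00f65) b24156 (.hit (nat_lit 15) (nat_lit 45) (nat_lit 0xbc000180979300d50) b24157 (.nil))) (.nil)))) (.one (nat_lit 58) (nat_lit 19) (nat_lit 49) (nat_lit 0xbc0001805d3300645) b24160 (.nil)))))) (.tok (nat_lit 9) (nat_lit 0xbc000182357b036a1) (.hit (nat_lit 20) (nat_lit 0) (nat_lit 0xbc000182143302ff6) b24161 (.tok (nat_lit 9) (nat_lit 0xbc000182357b036a1) (.hit (nat_lit 21) (nat_lit 20) (nat_lit 0xbc0001815bbb01e0b) b24162 (.hit (nat_lit 24) (nat_lit 28) (nat_lit 0xbc000180e7eb00d50) b24165 (.tok (nat_lit 14) (nat_lit 0xbc000182357b036a1)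 (.hit (nat_lit 22) (nat_lit 24) (nat_lit 0xbc000181ccbb02b1f) b24163 (.hit (nat_lit 25) (nat_lit 30) (nat_lit 0xbc0001819cc30211f) b24166 (.one (nat_lit 6) (nat_lit 23) (nat_lit 25) (nat_lit 0xbc000182357b036a1) b24164 (.nil)))) (.one (nat_lit 56) (nat_lit 26) (nat_lit 31) (nat_lit 0xbc00018226330345c) b24167 (.nil))))) (.nil))) (.nil))
noncomputable def r25_12 : Rw Blk := .tok (nat_lit 9) (nat_lit 0xbc000178000306887) (.hit (nat_lit 0) (nat_lit 0) (nat_lit 0xbc000178000302633) b24168 (.tok (nat_lit 14) (nat_lit 0xbc000178000306887) (.hit (nat_lit 1) (nat_lit 61) (nat_lit 0xbc000178000303e7c) b24169 (.one (nat_lit 3) (nat_lit 2) (nat_lit 62) (nat_lit 0xbc000178000302db5) b24170 (.tok (nat_lit 6) (nat_lit 0xbc000178000306887) (.hit (nat_lit 5) (nat_lit 65) (nat_lit 0xbc000178000306887) b24171 (.hit (nat_lit 6) (nat_lit 66) (nat_lit 0xbc000178000302666) b24172 (.nil))) (.tok (nat_lit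 9) (nat_lit 0xbc000178000302b57) (.hit (nat_lit 3) (nat_lit 63) (nat_lit 0xbc000178000302b57) b24173 (.hit (nat_lit 4) (nat_lit 64) (nat_lit 0xbc000178000301075) b24174 (.nil))) (.nil))))) (.one (nat_lit 17) (nat_lit 7) (nat_lit 67) (nat_lit 0xbc000178000301e0f) b24175 (.tok (nat_lit 20) (nat_lit 0xbc00017800030169c) (.hit (nat_lit 8) (nat_lit 68) (nat_lit 0xbc00017800030169c) b24178 (.hit (nat_lit 9) (nat_lit 69) (nat_lit 0xbc000178000301119) b24179 (.nil))) (.tok (nat_lit 23) (nat_lit 0xbc000178000305a1e) (.hit (nat_lit 10) (nat_lit 70) (nat_lit 0xbc000178000305a1e) b24176 (.hit (nat_lit 11) (nat_lit 71) (nat_lit 0xbc000178000301bec) b24177 (.nil))) (.one (nat_lit 50) (nat_lit 19) (nat_lit 83) (nat_lit 0xbc00017800030223a) b24180 (.tok (nat_lit 53) (nat_lit 0xbc000178000301c82) (.hit (nat_lit 20) (nat_lit 84) (nat_lit 0xbc000178000300b56) b24181 (.hit (nat_lit 21) (nat_lit 85)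 (nat_lit 0xbc000178000301c82) b24182 (.nil))) (.tok (nat_lit 56) (nat_lit 0xbc000178000303b0f) (.hit (nat_lit 22) (nat_lit 86) (nat_lit 0xbc000178000303b0f) b24183 (.one (nat_lit 3) (nat_lit 26) (nat_lit 90) (nat_lit 0xbc000178000301df9) b24187 (.tok (nat_lit 6) (nat_lit 0xbc0001780003016bc) (.hit (nat_lit 24) (nat_lit 88) (nat_lit 0xbc0001780003016bc) b24185 (.hit (nat_lit 25) (nat_lit 89) (nat_lit 0xbc0001780003010b7) b24186 (.nil))) (.one (nat_lit 9) (nat_lit 23) (nat_lit 87) (nat_lit 0xbc000178000302157) b24184 (.nil))))) (.one (nat_lit 59) (nat_lit 27) (nat_lit 91) (nat_lit 0xbc0001780003005bb) b24188 (.nil)))))))))) (.nil)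
noncomputable def r25_13 : Rw Blk := .tok (nat_lit 9) (nat_lit 0xbc000178000303eda) (.hit (nat_lit 18) (nat_lit 0) (nat_lit 0xbc0001780002fea88) b24204 (.tok (nat_lit 14) (nat_lit 0xbc000178000303eda) (.hit (nat_lit 19) (nat_lit 61) (nat_lit 0xbc000178000300f88) b24205 (.one (nat_lit 3) (nat_lit 20) (nat_lit 62) (nat_lit 0xbc0001780002ffd68) b24206 (.tok (nat_lit 6) (nat_lit 0xbc000178000303eda) (.hit (nat_lit 23) (nat_lit 65) (nat_lit 0xbc000178000303eda) b24207 (.hit (nat_lit 24) (nat_lit 66) (nat_lit 0xbc0001780002ffe9a) b24208 (.nil))) (.tok (nat_lit 9) (nat_lit 0xbc0001780002ff2b3) (.hit (nat_lit 21) (nat_lit 63) (nat_lit 0xbc0001780002fed83) b24209 (.hit (nat_lit 22) (nat_lit 64) (nat_lit 0xbc0001780002ff2b3) b24210 (.nil))) (.nil))))) (.one (nat_lit 17) (nat_lit 25) (nat_lit 67) (nat_lit 0xbc0001780002ff517) b24211 (.tok (nat_lit 20) (nat_lit 0xbc0001780002ff240) (.hit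 (nat_lit 26) (nat_lit 68) (nat_lit 0xbc0001780002fe1c5) b24214 (.hit (nat_lit 27) (nat_lit 69) (nat_lit 0xbc0001780002ff240) b24215 (.nil))) (.tok (nat_lit 23) (nat_lit 0xbc000178000301f50) (.hit (nat_lit 28) (nat_lit 70) (nat_lit 0xbc000178000301f50) b24212 (.hit (nat_lit 29) (nat_lit 71) (nat_lit 0xbc0001780002ff0be) b24213 (.nil))) (.one (nat_lit 26) (nat_lit 30) (nat_lit 72) (nat_lit 0xbc0001780002ff4f4) b24216 (.one (nat_lit 29) (nat_lit 31) (nat_lit 73) (nat_lit 0xbc0001780002ff660) b24217 (.one (nat_lit 32) (nat_lit 32) (nat_lit 74) (nat_lit 0xbc0001780002ffd5a) b24219 (.one (nat_lit 35) (nat_lit 33) (nat_lit 75) (nat_lit 0xbc0001780002fed56) b24218 (.one (nat_lit 38) (nat_lit 34) (nat_lit 76) (nat_lit 0xbc0001780002ff0e5) b24220 (.tok (nat_lit 41) (nat_lit 0xbc0001780002feeb0) (.hit (nat_lit 35) (nat_lit 77) (nat_lit 0xbc0001780002fe460) b24221 (.hit (nat_lit 36) (nat_lit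 78) (nat_lit 0xbc0001780002feeb0) b24222 (.nil))) (.tok (nat_lit 44) (nat_lit 0xbc0001780002feea1) (.hit (nat_lit 37) (nat_lit 79) (nat_lit 0xbc0001780002fc82a) b24225 (.hit (nat_lit 38) (nat_lit 80) (nat_lit 0xbc0001780002feea1) b24226 (.nil))) (.tok (nat_lit 47) (nat_lit 0xbc0001780002fe790) (.hit (nat_lit 39) (nat_lit 81) (nat_lit 0xbc0001780002fe38a) b24223 (.hit (nat_lit 40) (nat_lit 82) (nat_lit 0xbc0001780002fe790) b24224 (.nil))) (.nil)))))))))))))) (.tok (nat_lit 64) (nat_lit 0xbc000178000303186) (.hit (nat_lit 13) (nat_lit 0) (nat_lit 0xbc000178000302270) b24199 (.tok (nat_lit 6) (nat_lit 0xbc000178000300a5c) (.hit (nat_lit 14) (nat_lit 7) (nat_lit 0xbc0001780002ff609) b24202 (.hit (nat_lit 15) (nat_lit 15) (nat_lit 0xbc000178000300a5c) b24203 (.nil))) (.tok (nat_lit 9) (nat_lit 0xbc000178000303186) (.hit (nat_lit 16) (nat_lit 20) (nat_lit 0xbc000178000302ded) b24200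 (.hit (nat_lit 17) (nat_lit 28) (nat_lit 0xbc000178000303186) b24201 (.nil))) (.nil)))) (.tok (nat_lit 67) (nat_lit 0xbc000178000301304) (.hit (nat_lit 8) (nat_lit 0) (nat_lit 0xbc000178000300428) b24194 (.tok (nat_lit 3) (nat_lit 0xbc000178000301304) (.hit (nat_lit 9) (nat_lit 1) (nat_lit 0xbc0001780002ffd44) b24195 (.one (nat_lit 55) (nat_lit 10) (nat_lit 3) (nat_lit 0xbc000178000301304) b24196 (.nil))) (.tok (nat_lit 9) (nat_lit 0xbc0001780002ffdaa) (.hit (nat_lit 11) (nat_lit 20) (nat_lit 0xbc0001780002ffdaa) b24197 (.hit (nat_lit 12) (nat_lit 28) (nat_lit 0xbc0001780002ff14d) b24198 (.nil))) (.nil)))) (.tok (nat_lit 70) (nat_lit 0xbc000178000301772) (.hit (nat_lit 0) (nat_lit 0) (nat_lit 0xbc000178000300bec) b24189 (.tok (nat_lit 3) (nat_lit 0xbc000178000301772) (.hit (nat_lit 1) (nat_lit 1) (nat_lit 0xbc000178000300683) b24190 (.one (nat_lit 67) (nat_lit 2) (nat_lit 2) (nat_lit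 0xbc000178000301772) b24191 (.nil))) (.tok (nat_lit 6) (nat_lit 0xbc000178000301302) (.hit (nat_lit 3) (nat_lit 7) (nat_lit 0xbc000178000301302) b24192 (.hit (nat_lit 6) (nat_lit 15) (nat_lit 0xbc0001780003005d7) b24193 (.nil))) (.nil)))) (.nil))))
noncomputable def r25_14 : Rw Blk := .tok (nat_lit 3) (nat_lit 0xbc0001780003041b9) (.hit (nat_lit 0) (nat_lit 0) (nat_lit 0xbc000178000302af4) b24227 (.tok (nat_lit 6) (nat_lit 0xbc0001780003010ab) (.hit (nat_lit 1) (nat_lit 7) (nat_lit 0xbc0001780002ff3c4) b24228 (.hit (nat_lit 6) (nat_lit 15) (nat_lit 0xbc0001780002fea7b) b24231 (.tok (nat_lit 14) (nat_lit 0xbc0001780003010ab) (.hit (nat_lit 2) (nat_lit 11) (nat_lit 0xbc000178000300cd1) b24229 (.hit (nat_lit 7) (nat_lit 17) (nat_lit 0xbc000178000300210) b24232 (.one (nat_lit 9) (nat_lit 3) (nat_lit 12) (nat_lit 0xbc0001780003010ab) b24230 (.nil)))) (.nil)))) (.tok (nat_lit 52) (nat_lit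 0xbc000178000301ad8) (.hit (nat_lit 9) (nat_lit 39) (nat_lit 0xbc000178000301ad8) b24233 (.hit (nat_lit 10) (nat_lit 40) (nat_lit 0xbc000178000300d47) b24234 (.nil))) (.tok (nat_lit 55) (nat_lit 0xbc0001780003041b9) (.hit (nat_lit 11) (nat_lit 41) (nat_lit 0xbc0001780003041b9) b24235 (.tok (nat_lit 3) (nat_lit 0xbc000178000301c5a) (.hit (nat_lit 17) (nat_lit 47) (nat_lit 0xbc0001780003019e4) b24238 (.one (nat_lit 67) (nat_lit 18) (nat_lit 48) (nat_lit 0xbc000178000301c5a) b24239 (.nil))) (.tok (nat_lit 6) (nat_lit 0xbc0001780003016f7) (.hit (nat_lit 12) (nat_lit 42) (nat_lit 0xbc0001780003016f7) b24236 (.hit (nat_lit 15) (nat_lit 45) (nat_lit 0xbc000178000301181) b24237 (.nil))) (.nil)))) (.one (nat_lit 58) (nat_lit 19) (nat_lit 49) (nat_lit 0xbc00017800030002c) b24240 (.nil)))))) (.tok (nat_lit 9) (nat_lit 0xbc000178000306082) (.hit (nat_lit 20) (nat_lit 0) (nat_lit 0xbc000178000302916)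 b24241 (.tok (nat_lit 9) (nat_lit 0xbc000178000306082) (.hit (nat_lit 21) (nat_lit 20) (nat_lit 0xbc0001780003036ca) b24242 (.hit (nat_lit 24) (nat_lit 28) (nat_lit 0xbc000178000300bd1) b24245 (.tok (nat_lit 14) (nat_lit 0xbc000178000306082) (.hit (nat_lit 22) (nat_lit 24) (nat_lit 0xbc000178000306082) b24243 (.hit (nat_lit 25) (nat_lit 30) (nat_lit 0xbc000178000301cc2) b24246 (.one (nat_lit 6) (nat_lit 23) (nat_lit 25) (nat_lit 0xbc000178000304257) b24244 (.nil)))) (.one (nat_lit 56) (nat_lit 26) (nat_lit 31) (nat_lit 0xbc000178000303034) b24247 (.nil))))) (.nil))) (.nil))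
noncomputable def r25_15 : Rw Blk := .tok (nat_lit 6) (nat_lit 0xbc000178000301eab) (.hit (nat_lit 21) (nat_lit 0) (nat_lit 0xbc0001780002ff787) b24248 (.tok (nat_lit 14) (nat_lit 0xbc000178000301a86) (.hit (nat_lit 22) (nat_lit 61) (nat_lit 0xbc0001780003006d1) b24249 (.one (nat_lit 3) (nat_lit 23) (nat_lit 62) (nat_lit 0xbc000178000300044) b24250 (.tok (nat_lit 6) (nat_lit 0xbc0001780002ffa64) (.hit (nat_lit 26) (nat_lit 65) (nat_lit 0xbc0001780002fe95f) b24251 (.hit (nat_lit 27) (nat_lit 66) (nat_lit 0xbc0001780002ffa64) b24252 (.nil))) (.tok (nat_lit 9) (nat_lit 0xbc000178000301a86) (.hit (nat_lit 24) (nat_lit 63) (nat_lit 0xbc000178000301a86) b24253 (.hit (nat_lit 25) (nat_lit 64) (nat_lit 0xbc000178000300451) b24254 (.nil))) (.nil))))) (.one (nat_lit 17) (nat_lit 28) (nat_lit 67) (nat_lit 0xbc000178000300307) b24255 (.tok (nat_lit 20) (nat_lit 0xbc000178000300296) (.hit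 (nat_lit 29) (nat_lit 68) (nat_lit 0xbc000178000300296) b24258 (.hit (nat_lit 30) (nat_lit 69) (nat_lit 0xbc0001780002ff78d) b24259 (.nil))) (.tok (nat_lit 23) (nat_lit 0xbc000178000300775) (.hit (nat_lit 31) (nat_lit 70) (nat_lit 0xbc0001780002fdb2c) b24256 (.hit (nat_lit 32) (nat_lit 71) (nat_lit 0xbc000178000300775) b24257 (.nil))) (.one (nat_lit 50) (nat_lit 37) (nat_lit 83) (nat_lit 0xbc0001780002fea2d) b24269 (.tok (nat_lit 53) (nat_lit 0xbc0001780002ffb07) (.hit (nat_lit 38) (nat_lit 84) (nat_lit 0xbc0001780002ffb07) b24270 (.hit (nat_lit 39) (nat_lit 85) (nat_lit 0xbc0001780002fe36d) b24271 (.nil))) (.tok (nat_lit 56) (nat_lit 0xbc000178000301eab) (.hit (nat_lit 40) (nat_lit 86) (nat_lit 0xbc0001780003017f5) b24272 (.one (nat_lit 3) (nat_lit 44) (nat_lit 90) (nat_lit 0xbc0001780003008bb) b24276 (.tok (nat_lit 6) (nat_lit 0xbc000178000300650) (.hit (nat_lit 42) (nat_lit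 88) (nat_lit 0xbc000178000300650) b24274 (.hit (nat_lit 43) (nat_lit 89) (nat_lit 0xbc0001780002feca0) b24275 (.nil))) (.one (nat_lit 9) (nat_lit 41) (nat_lit 87) (nat_lit 0xbc000178000301eab) b24273 (.nil))))) (.one (nat_lit 59) (nat_lit 45) (nat_lit 91) (nat_lit 0xbc0001780002fe310) b24277 (.one (nat_lit 62) (nat_lit 46) (nat_lit 92) (nat_lit 0xbc0001780002ff918) b24260 (.tok (nat_lit 65) (nat_lit 0xbc0001780002ffe5b) (.hit (nat_lit 47) (nat_lit 93) (nat_lit 0xbc0001780002ff2d4) b24261 (.hit (nat_lit 48) (nat_lit 94) (nat_lit 0xbc0001780002ffe5b) b24262 (.nil))) (.tok (nat_lit 68) (nat_lit 0xbc0001780003002c1) (.hit (nat_lit 49) (nat_lit 95) (nat_lit 0xbc0001780003002c1) b24263 (.one (nat_lit 3) (nat_lit 53) (nat_lit 99) (nat_lit 0xbc0001780002fdd01) b24267 (.one (nat_lit 6) (nat_lit 50) (nat_lit 96) (nat_lit 0xbc0001780002fe1db) b24264 (.tok (nat_lit 9) (nat_lit 0xbc0001780002fea71)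 (.hit (nat_lit 51) (nat_lit 97) (nat_lit 0xbc0001780002fea71) b24265 (.hit (nat_lit 52) (nat_lit 98) (nat_lit 0xbc0001780002fe20c) b24266 (.nil))) (.nil))))) (.one (nat_lit 71) (nat_lit 54) (nat_lit 100) (nat_lit 0xbc0001780002ff9c7) b24268 (.nil)))))))))))))) (.nil)
noncomputable def r25_16 : Rw Blk := .tok (nat_lit 3) (nat_lit 0xbc0001780002fe633) (.hit (nat_lit 15) (nat_lit 0) (nat_lit 0xbc0001780002fe633) b24292 (.tok (nat_lit 9) (nat_lit 0xbc0001780002fdd1d) (.hit (nat_lit 16) (nat_lit 20) (nat_lit 0xbc0001780002fb84c) b24293 (.hit (nat_lit 21) (nat_lit 28) (nat_lit 0xbc0001780002fa2cd) b24298 (.tok (nat_lit 14) (nat_lit 0xbc0001780002fd8fb) (.hit (nat_lit 17) (nat_lit 24) (nat_lit 0xbc0001780002fcb85) b24294 (.hit (nat_lit 22) (nat_lit 30) (nat_lit 0xbc0001780002fd8fb) b24299 (.one (nat_lit 6) (nat_lit 18) (nat_lit 25) (nat_lit 0xbc0001780002fd516) b24295 (.nil)))) (.one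 (nat_lit 56) (nat_lit 23) (nat_lit 31) (nat_lit 0xbc0001780002fcb91) b24300 (.tok (nat_lit 68) (nat_lit 0xbc0001780002fdd1d) (.hit (nat_lit 19) (nat_lit 26) (nat_lit 0xbc0001780002fcbe6) b24296 (.hit (nat_lit 24) (nat_lit 32) (nat_lit 0xbc0001780002fd56e) b24301 (.one (nat_lit 9) (nat_lit 20) (nat_lit 27) (nat_lit 0xbc0001780002fdd1d) b24297 (.nil)))) (.nil)))))) (.nil))) (.tok (nat_lit 6) (nat_lit 0xbc0001780003027b2) (.hit (nat_lit 0) (nat_lit 0) (nat_lit 0xbc0001780002fec3c) b24278 (.tok (nat_lit 6) (nat_lit 0xbc00017800030000c) (.hit (nat_lit 1) (nat_lit 7) (nat_lit 0xbc0001780002fe018) b24279 (.hit (nat_lit 4) (nat_lit 15) (nat_lit 0xbc0001780002fe0de) b24282 (.tok (nat_lit 14) (nat_lit 0xbc00017800030000c) (.hit (nat_lit 2) (nat_lit 11) (nat_lit 0xbc00017800030000c) b24280 (.hit (nat_lit 5) (nat_lit 17) (nat_lit 0xbc0001780002fe5f2) b24283 (.one (nat_lit 9) (nat_lit 3) (nat_lit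 12) (nat_lit 0xbc0001780002fff9f) b24281 (.nil)))) (.nil)))) (.tok (nat_lit 52) (nat_lit 0xbc0001780002fefdc) (.hit (nat_lit 7) (nat_lit 39) (nat_lit 0xbc0001780002fefdc) b24284 (.hit (nat_lit 8) (nat_lit 40) (nat_lit 0xbc0001780002fe929) b24285 (.nil))) (.tok (nat_lit 55) (nat_lit 0xbc0001780003027b2) (.hit (nat_lit 9) (nat_lit 41) (nat_lit 0xbc0001780003009d8) b24286 (.tok (nat_lit 3) (nat_lit 0xbc0001780003027b2) (.hit (nat_lit 12) (nat_lit 47) (nat_lit 0xbc0001780003020c0) b24289 (.one (nat_lit 67) (nat_lit 13) (nat_lit 48) (nat_lit 0xbc0001780003027b2) b24290 (.nil))) (.tok (nat_lit 6) (nat_lit 0xbc0001780002ff671) (.hit (nat_lit 10) (nat_lit 42) (nat_lit 0xbc0001780002ff671) b24287 (.hit (nat_lit 11) (nat_lit 45) (nat_lit 0xbc0001780002feed5) b24288 (.nil))) (.nil)))) (.one (nat_lit 58) (nat_lit 14) (nat_lit 49) (nat_lit 0xbc0001780002fdc0f) b24291 (.nil)))))) (.nil))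
noncomputable def r25_17 : Rw Blk := .tok (nat_lit 6) (nat_lit 0x2ff9645fd44cbf6cd9800002fe38c5fea10bfdee17f73eaffde75fe5b8bfca8d7f105300000600000bf83d17f59dafeafa) (.hit (nat_lit 81) (nat_lit 0) (nat_lit 0x2fe3765fb1a0bf29457f11c2fd82f5fb62ebf8fe57f246afe9035fd148bf62d57eb46afe52d5fb6c2bf360d7edc3afd726) b24302 (.one (nat_lit 26) (nat_lit 128) (nat_lit 72) (nat_lit 0x2fd36a5f7360bee0fd7e3842fb4a95f9eb2bf44d57e61aafd9c15f942cbf1b917dcefafd55e5f9f86bed9bd7e1e1afc1aa) b24303 (.one (nat_lit 29) (nat_lit 129) (nat_lit 73) (nat_lit 0x2fd5175f85b6bf041d7e6eeafb6585f9cecbf3d457e6f12fde335f9430bf1aed7df18afd93e5f8b64bee2857e01bafc979) b24304 (.one (nat_lit 32) (nat_lit 130) (nat_lit 74) (nat_lit 0x2fc8275f66dcbf1b797dd7cafb2785f8712bf19e17e1e7afd39d5f8628bf2cd17e3be2fd7525f8aa2bede057ded02fca84) b24306 (.one (nat_lit 35) (nat_lit 131) (nat_lit 75) (nat_lit 0x2fdbf85f92e2bf15f57e886afbd395fb03abf69317ea61afedba5fbe4abf47c57e3992fe3d25fb642bedf4d7e917afd0cf)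 b24305 (.one (nat_lit 38) (nat_lit 132) (nat_lit 76) (nat_lit 0x2fd86e5f8772bf1c257e690afc02d5fa908bf5ad57e8c22fe4915faba6bf5ec17e0d6afe2765fb780bf11957e8882fc93e) b24307 (.tok (nat_lit 41) (nat_lit 0x2fdd635fa332bf2fb17e9a72fbea45fb2eabf6db57eb02afeda45fbc84bf6abd7e5fb2fe8015fbcb6bf32d17eae22fd442) (.hit (nat_lit 133) (nat_lit 77) (nat_lit 0x2fd3705f8f22bf14457e13f2fb4aa5fa922bf41257e403afd8a25f99a4bf6abd7d1292fe2c95f9d62bebeed7e7ea2fcf79) b24308 (.hit (nat_lit 134) (nat_lit 78) (nat_lit 0x2fdd635fa332bf2fb17e9a72fbea45fb2eabf6db57eb02afeda45fbc84bf4cc17e5fb2fe8015fbcb6bf32d17eae22fd442) b24309 (.nil))) (.tok (nat_lit 44) (nat_lit 0x2fe1dd5fb7febf50e57ee2e2fca4c5fc34abf83797e98bafe9435fc382bf52217e59bafe7905fbb60bf45817eb88afd067) (.hit (nat_lit 135) (nat_lit 79) (nat_lit 0x2fe1dd5fb7febf50e57ee2e2fca4c5fc34abf83797e98bafe9435fc382bf38957e59bafe7905fbb60bf45817eb88afd067) b24312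 (.hit (nat_lit 136) (nat_lit 80) (nat_lit 0x2fd9165f7ee4bf0f497e613afba505fa8f8bf5da97e8f0afe1435fa6a4bf52217e2adafe0885fb130bf19e97e6e82fc9f1) b24313 (.nil))) (.tok (nat_lit 47) (nat_lit 0x2fdd025f9198bf05457eab1afbf1d5fb24ebf6c397ead42feb105fbdecbf3fed7edbf2fe7a65fbbf8bf08b97eacd2fd722) (.hit (nat_lit 137) (nat_lit 81) (nat_lit 0x2fbeb45f53d8bee2097e3baafbf1d5f81debf45497e83a2fcb9d5f9f72bf10217edbf2fc7905f9030bf08b97e1f62fd722) b24310 (.hit (nat_lit 138) (nat_lit 82) (nat_lit 0x2fdd025f9198bf05457eab1afbe445fb24ebf6c397ead42feb105fbdecbf3fed7e226afe7a65fbbf8bef8657eacd2fd4a7) b24311 (.nil))) (.one (nat_lit 50) (nat_lit 139) (nat_lit 83) (nat_lit 0x2fe1955f97a8bf2b497eb6b2fc2d15fbef0bf75057ecd5afef3d5fbba6bf65e17e8ed2fe90f5fbd26bf157d7ebcd2fd47c) b24323 (.tok (nat_lit 53) (nat_lit 0x2fe28d5fc492bf5f117ef7b2fcdc95fdf94bfa4357ef342ff5345fc306bfca8d7eb232ff8675fed90bf45b57f2ef2feafa)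 (.hit (nat_lit 140) (nat_lit 84) (nat_lit 0x2fe28d5fc492bf5f117ef7b2fcdc95fdf94bfa4357ef342ff03e5fc306bfca8d7eb232ff8675fed90bf45b57f2ef2feafa) b24324 (.hit (nat_lit 141) (nat_lit 85) (nat_lit 0x2fde4c5f98b6bf2df57ea8e2fbf8e5fb6e4bf72657e93baff5345fb506bf4d717e8822fe7465fbbd2bf1f897e85fafd666) b24325 (.nil))) (.tok (nat_lit 56) (nat_lit 0x2ff9645fd44cbf6cd9800002fe38c5fea10bfdee17f73eaffde75fe5b8bfc1157f105300000600000bf83d17f59dafe8b1) (.hit (nat_lit 142) (nat_lit 86) (nat_lit 0x2ff94d5fd44cbf5bb97fbee2fdf105fe0b2bfdee17f64aaffc2e5fd744bf95e97eef32ff8735fe120bf6db57f1c02fe189) b24326 (.one (nat_lit 3) (nat_lit 146) (nat_lit 90) (nat_lit 0x2feda95fb196bf3da17f6e72fcf785fd502bfae597f05b2feccf5fd538bf8e317ec2bafed2f5fcf38bf59f97eed0afd975) b24330 (.tok (nat_lit 6) (nat_lit 0x2ff9645fb9a0bf6cd97f356afd8c75fe286bfbc757f3a22ff6c65fcd12bfc1157ed212ffb5a600000bf6d157f3c8afe8b1) (.hit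 (nat_lit 144) (nat_lit 88) (nat_lit 0x2ff9645fb9a0bf6cd97f356afd8c75fe286bfbc757f3a22ff6c65fcd12bfc1157ed212ffb5a600000bf6d157f3c8afe8b1) b24328 (.hit (nat_lit 145) (nat_lit 89) (nat_lit 0x2fdf695fb768bf59097ec03afc7d75fb988bf68317ec972fef4c5fb98ebf7df17e7e02fe90c5fc718bf62257f37aafdbfe) b24329 (.nil))) (.one (nat_lit 9) (nat_lit 143) (nat_lit 87) (nat_lit 0x2ff68e5fd18cbf5985800002fe38c5fea10bfdded7f73eaffde75fe5b8bfb7c97f1053000005fe7e6bf83d17f59dafe5f5) b24327 (.nil))))) (.one (nat_lit 59) (nat_lit 147) (nat_lit 91) (nat_lit 0x2fda855f835abf12cd7e89bafbbbf5fb0cabf63657e9a82fec045fc054bf4cc97e2c5afe41e5fb6e2bef4a17e93dafd412) b24331 (.one (nat_lit 62) (nat_lit 148) (nat_lit 92) (nat_lit 0x2fd74d5f7df4bf0c4d7e572afbbf85fa6dcbf56857e80c2fe3fe5fa99abf55997e2d6afe3715fb2ecbf17817e8dcafca40) b24314 (.tok (nat_lit 65) (nat_lit 0x2fe0c25faea0bf27b57e9232fc2295fb7d0bf62917ead0afee3a5fb4e4bf69f17e3a62fe9545fb936bf294d7ec002fda7d)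 (.hit (nat_lit 149) (nat_lit 93) (nat_lit 0x2fe0c25faea0bf27b57e9232fc2295fb7d0bf60d57ead0afdd855fa39abf69f17e10aafe67b5fb850bf01157e850afd516) b24315 (.hit (nat_lit 150) (nat_lit 94) (nat_lit 0x2fdaa55f926ebf0e757e8cfafbbe65fad36bf62917e9b82fee3a5fb4e4bf3da17e3a62fe9545fb936bf294d7ec002fda7d) b24316 (.nil))) (.tok (nat_lit 68) (nat_lit 0x2fe5a75fb056bf61857efe82fd70b5fc8e8bf9ca57f325afecff5fcbc6bf8a2d7eff5afdd675fc6a0bf646d7eb71afe475) (.hit (nat_lit 151) (nat_lit 95) (nat_lit 0x2fe5a75fb056bf61857efe82fd70b5fc8e8bf9ca57f325afecff5fcbc6bf8a2d7ee9b2fdd675fbc1cbf646d7eb71afdc23) b24317 (.one (nat_lit 3) (nat_lit 155) (nat_lit 99) (nat_lit 0x2fc7925f6594bf30dd7e829afc7fb5f939abf68c17eca92fd47b5fb12ebf33f17ebc52fd06e5fa218bf36f17e939afdab3) b24321 (.one (nat_lit 6) (nat_lit 152) (nat_lit 96) (nat_lit 0x2fd2c15f7bf2bf42ad7edc12fd32a5fa9f8bf957d7f240afdfaa5fc78cbf6af97ebfeafdb9d5fbd9cbf438d7eaff2fdcf9)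 b24318 (.tok (nat_lit 9) (nat_lit 0x2fd3ed5f7e4abf5fd17ee572fd4565fac50bf9a2d7f2d6afe0d65fc9e4bf7d017eff5afdcc95fc6a0bf49a17e98b2fe475) (.hit (nat_lit 153) (nat_lit 97) (nat_lit 0x2fcb575f6d1ebf5bc97ea0c2fcbc05f9b24bf77d57ee8bafd8405fb8b8bf7d017eb5dafd4335fc6a0bf40b57e8b8afd8f0) b24319 (.hit (nat_lit 154) (nat_lit 98) (nat_lit 0x2fd3ed5f7e4abf5fd17ee572fd4565fac50bf9a2d7f2d6afe0d65fc9e4bf4fd57eff5afdcc95fb00abf49a17e98b2fe475) b24320 (.nil))) (.nil))))) (.one (nat_lit 71) (nat_lit 156) (nat_lit 100) (nat_lit 0x2fd1005f76e0bee30d7e36bafb23a5f99c2bf3bbd7e4e5afdc8f5fa1cebf18657dcefafd8eb5f9e2abee3d97e36c2fcb24) b24322 (.nil)))))))))))))))))) (.tok (nat_lit 52) (nat_lit 0x300000600000c000017fa58aff68e5fe4febff32d7fdd0b00000600000c00001801662feb9f5ffbecbfde517fa6b300000) (.hit (nat_lit 332) (nat_lit 0) (nat_lit 0x3000005fecb6bff0457f99eaff6175fe4febff32d7fdd0b00000600000c00001801662feb9f5ffbecbfde517fa6b300000)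 b24332 (.tok (nat_lit 6) (nat_lit 0x2ffee3600000bfbc3d7fa56aff68e5fdf2cbfc3d57faedaff4a35fece8bf93357ff21afe8b65fb7c4bfa82d7ed6caff96f) (.hit (nat_lit 333) (nat_lit 7) (nat_lit 0x2ffee3600000bfbc3d7fa56aff68e5fdf2cbfc3d57faedaff4a35fece8bf93357ff21afe8b65fb7c4bfa82d7ed6caff96f) b24335 (.hit (nat_lit 334) (nat_lit 15) (nat_lit 0x2ff3435fe26abf89657f4eb2fe9fe5fcb64bf98ad7f58b2fe9535fd388bf6ba57f44cafded25fb23ebf76a97ec472feb9c) b24336 (.nil))) (.tok (nat_lit 9) (nat_lit 0x2ff8ba5ffa4cc000017fa58aff1775fe2eebfc5dd7f8ddaff1305feceabfa9a97f6daafea975fd4ccbfad897f2152ff71a) (.hit (nat_lit 335) (nat_lit 20) (nat_lit 0x2ff0b35fb55ac000017f832aff1775fe2eebfc5dd7f8bbafec5f5fdbaabf9ab97f0fbafea975fc782bfad897f2152fec9b) b24333 (.hit (nat_lit 336) (nat_lit 28) (nat_lit 0x2ff8ba5ffa4cbfdc1d7fa58aff0885fd368bfc1a57f8ddaff1305feceabfa9a97f6daafe2d45fd4ccbfa3b17ef422ff71a) b24334 (.nil))) (.nil))))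 (.tok (nat_lit 55) (nat_lit 0x2fff3c5fd26cbfec717ff77300000600000c00001800002ffae85ff8bcbffed17faceaff9205fff60bfd1017fcb52ff2f8) (.hit (nat_lit 343) (nat_lit 0) (nat_lit 0x2fff1d5fcac6bfaa517f8172ff1405ff244bfc5017fcdf2ff53b5ff1eebff2b17f40f2fedd15ff83abfb6397f5c02ff056) b24337 (.one (nat_lit 3) (nat_lit 344) (nat_lit 1) (nat_lit 0x2fd8ae5f8550bf60a97ec302fd9725fb2e4bf65c97ecb92fd45a5faba0bf3dad7e4f92fd2925f9ecebf6a597eba3afd150) b24338 (.tok (nat_lit 6) (nat_lit 0x2fff3c5fd26cbfec717ff77300000600000c00001800002ffae85ff8bcbffed17faceaff9205fff60bfd1017fcb52ff2f8) (.hit (nat_lit 346) (nat_lit 7) (nat_lit 0x2fe1e45f97bcbf6dd57f0cb2fe2a85fc550bf8aa17f1542fdd905fbe0cbf72117e9942fdbc85fb900bf719d7eca4afd439) b24339 (.hit (nat_lit 349) (nat_lit 15) (nat_lit 0x2fd2705f78d4bf58897e9112fd3345fa668bf4cd17e99a2fce1c5f9f24bf73857e9652fcc545fb9babf66997eb57afd0c7) b24342 (.tok (nat_lit 55)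 (nat_lit 0x2fff3c5fd26cbfec717ff77300000600000c00001800002ffae85ff8bcbffed17faceaff9205fff60bfd1017fcb52ff2f8) (.hit (nat_lit 347) (nat_lit 8) (nat_lit 0x2ff7995fc326bfdef97fba5aff85d5ff0babfe1757fc2eaff3455fe976bff6117f9b6aff17d5ffb00bfcd157fb49aff085) b24340 (.hit (nat_lit 350) (nat_lit 16) (nat_lit 0x2fec885fad04bfb74d7f61d2fed4c5fda98bfb5317f6a62fe8345fd354bfe9a97f829afe66c5ff4ccbfd1017f8db2fefce) b24343 (.one (nat_lit 6) (nat_lit 348) (nat_lit 9) (nat_lit 0x2fff3c5fd26cbfec717ff77300000600000c00001800002ffae85ff8bcbffed17faceaff9205fff60bfcd857fcb52ff2f8) b24341 (.nil)))) (.nil)))) (.nil)))) (.tok (nat_lit 58) (nat_lit 0x2ffe0f5fd012bfdc017fee0affed35ffda6bffb4d7ff69aff9bb5ff662bfd0297f7a9aff7f35fd6f8c00001800002ff9a9) (.hit (nat_lit 357) (nat_lit 0) (nat_lit 0x2ff1665fad66bf90697f13e2fe38e5fca14bfad997f9b12fedc95fe34cbfa8817eb59afe8a35fbe10bf92e97ed77afea3d) b24344 (.one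 (nat_lit 3) (nat_lit 358) (nat_lit 1) (nat_lit 0x2fdc9a5f8d28bf76897ee262fdd5e5fbabcbf75797eeaf2fd8465fb378bf4a557f0932fd67e5fa1d2bf94d97ef40afd9d4) b24345 (.tok (nat_lit 9) (nat_lit 0x2ffe0f5fd012bfdc017fee0affed35ffda6bffb4d7ff69aff9bb5ff662bfd0297f7a9aff7f35fd6f8c00001800002ff9a9) (.hit (nat_lit 360) (nat_lit 20) (nat_lit 0x2fde9f5f9132bf67697ef28afdf635fbec6bf7d8d7efb1afda4b5fb782bf52697e7f1afd8835f9d06bf75457ef50afd756) b24346 (.hit (nat_lit 363) (nat_lit 28) (nat_lit 0x2fdc0f5f8c12bf71e97ede0afdcd35fb9a6bf734d7ee69afd7bb5fb262bf48297ed2fafd5f35f95b2bf7ab97ed672fd65a) b24349 (.tok (nat_lit 67) (nat_lit 0x2ffe0f5fd012bfdc017fee0affed35ffda6bffb4d7ff69aff9bb5ff662bfd0297f7a9aff7f35fd6f8c00001800002ff9a9) (.hit (nat_lit 361) (nat_lit 21) (nat_lit 0x2fed985faf24bf978d7f6a52fee5c5fdcb8bfb9717f72e2fe9445fd574bf8e4d7ef6e2fe77c5fc6c6bfa8957f530afe753) b24347 (.hit (nat_lit 364) (nat_lit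 29) (nat_lit 0x2ff4045fbbfcbfcd717f9db2ff4c85fe990bfd3217fa642fefb05fe24cbfa7fd7f4a52fede85fcd88bfa5bd7f37b2fe9b8) b24350 (.one (nat_lit 9) (nat_lit 362) (nat_lit 22) (nat_lit 0x2ffe0f5fd012bfdc017fee0affed35ffda6bffb4d7ff69aff9bb5ff662bfd0297f7a9aff7f35fd6f8c00001800002ff9a9) b24348 (.nil)))) (.nil)))) (.nil)))) (.nil))))
noncomputable def r25_18 : Rw Blk := .tok (nat_lit 26) (nat_lit 0xbc0001780002fe4315fb13abf62e57e9c12fdec2) (.hit (nat_lit 215) (nat_lit 0) (nat_lit 0xbc0001780002fe4315fb13abf62e57e9c12fdec2) b24421 (.one (nat_lit 3) (nat_lit 216) (nat_lit 1) (nat_lit 0xbc0001780002f99b75f4786be6fa97ce1b2fa1ef) b24422 (.tok (nat_lit 6) (nat_lit 0xbc0001780002fc7595fa2cabf26317e4ec2fcf91) (.hit (nat_lit 217) (nat_lit 7) (nat_lit 0xbc0001780002fc7595fa2cabf26317e4ec2fcf91) b24425 (.hit (nat_lit 218) (nat_lit 15) (nat_lit 0xbc0001780002f98115f443abe69117cd482fa049) b24426 (.nil)))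 (.tok (nat_lit 9) (nat_lit 0xbc0001780002fab925f6b3cbeb7157d708afb3ca) (.hit (nat_lit 219) (nat_lit 20) (nat_lit 0xbc0001780002fab1b5f6a4ebeb5397d6cd2fb353) b24423 (.hit (nat_lit 220) (nat_lit 28) (nat_lit 0xbc0001780002fab925f6b3cbeb7157d708afb3ca) b24424 (.nil))) (.nil))))) (.tok (nat_lit 29) (nat_lit 0xbc0001780002fc9945f95cabf03657e092afd0b0) (.hit (nat_lit 221) (nat_lit 0) (nat_lit 0xbc0001780002fc9945f95cabeffe57df96afd0b0) b24427 (.one (nat_lit 3) (nat_lit 222) (nat_lit 1) (nat_lit 0xbc0001780002f9c195f4c4abe79317cf4c2fa451) b24428 (.tok (nat_lit 6) (nat_lit 0xbc0001780002fb85d5f84d2beea417dd6e2fc095) (.hit (nat_lit 223) (nat_lit 7) (nat_lit 0xbc0001780002fa8c25f659cbeabd57d5a0afb0fa) b24401 (.hit (nat_lit 224) (nat_lit 15) (nat_lit 0xbc0001780002fb85d5f84d2beea417dd6e2fc095) b24431 (.nil))) (.tok (nat_lit 9) (nat_lit 0xbc0001780002fbea65f9164bf03657e092afc6de) (.hit (nat_lit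 225) (nat_lit 20) (nat_lit 0xbc0001780002fbbf75f8c06bef8a97df3b2fc42f) b24429 (.hit (nat_lit 226) (nat_lit 28) (nat_lit 0xbc0001780002fbea65f9164bf03657e092afc6de) b24430 (.nil))) (.nil))))) (.tok (nat_lit 32) (nat_lit 0xbc0001780002fd6c55fa9b0bf22217e47fafdaa2) (.hit (nat_lit 233) (nat_lit 0) (nat_lit 0xbc0001780002fd6c55fa9b0bf22217e47fafdaa2) b24438 (.one (nat_lit 3) (nat_lit 234) (nat_lit 1) (nat_lit 0xbc0001780002fa0ab5f556ebe8b797d1952fa8e3) b24370 (.tok (nat_lit 6) (nat_lit 0xbc0001780002fb7de5f83d4bee8457dd2eafc016) (.hit (nat_lit 235) (nat_lit 7) (nat_lit 0xbc0001780002fb5695f7eeabede717dbf42fbda1) b24355 (.hit (nat_lit 236) (nat_lit 15) (nat_lit 0xbc0001780002fb7de5f83d4bee8457dd2eafc016) b24441 (.nil))) (.tok (nat_lit 9) (nat_lit 0xbc0001780002fa8a45f6560beab5d7d591afb0dc) (.hit (nat_lit 237) (nat_lit 20) (nat_lit 0xbc0001780002fa8a45f6560beab5d7d591afb0dc) b24439 (.hit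 (nat_lit 238) (nat_lit 28) (nat_lit 0xbc0001780002f96835f411ebe62d97cc812f9ebb) b24440 (.nil))) (.nil))))) (.tok (nat_lit 35) (nat_lit 0xbc0001780002fe6a75fc688bf72797e9cf2fdde1) (.hit (nat_lit 227) (nat_lit 0) (nat_lit 0xbc0001780002fe6a75fc688bf72797e9cf2fdde1) b24432 (.one (nat_lit 3) (nat_lit 228) (nat_lit 1) (nat_lit 0xbc0001780002fa9c25f679cbeafd57d620afb1fa) b24433 (.tok (nat_lit 6) (nat_lit 0xbc0001780002fbf505f92b8bf060d7e0e7afc788) (.hit (nat_lit 229) (nat_lit 7) (nat_lit 0xbc0001780002fbbd55f8bc2bef8217df2a2fc40d) b24436 (.hit (nat_lit 230) (nat_lit 15) (nat_lit 0xbc0001780002fbf505f92b8bf060d7e0e7afc788) b24437 (.nil))) (.tok (nat_lit 9) (nat_lit 0xbc0001780002fc14d5f96b2bf0e017e1e62fc985) (.hit (nat_lit 231) (nat_lit 20) (nat_lit 0xbc0001780002fc14d5f96b2bf0e017e1e62fc985) b24434 (.hit (nat_lit 232) (nat_lit 28) (nat_lit 0xbc0001780002fbd745f8f00befe9d7dff9afc5ac)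 b24435 (.nil))) (.nil))))) (.tok (nat_lit 38) (nat_lit 0xbc0001780002fdbb05fb5acbfad417f104afe478) (.hit (nat_lit 239) (nat_lit 0) (nat_lit 0xbc0001780002fdbb05fb5acbfad417f104afe478) b24397 (.one (nat_lit 3) (nat_lit 240) (nat_lit 1) (nat_lit 0xbc0001780002fa52d5f5e72be9d817d3d62fad65) b24398 (.tok (nat_lit 6) (nat_lit 0xbc0001780002fa8c25f659cbeabd57d5a0afb0fa) (.hit (nat_lit 241) (nat_lit 7) (nat_lit 0xbc0001780002fa8c25f659cbeabd57d5a0afb0fa) b24401 (.hit (nat_lit 242) (nat_lit 15) (nat_lit 0xbc0001780002fa2975f5946be93297d28b2faacf) b24402 (.nil))) (.tok (nat_lit 9) (nat_lit 0xbc0001780002fba4f5f88b6bef2097de672fc287) (.hit (nat_lit 243) (nat_lit 20) (nat_lit 0xbc0001780002fba4f5f88b6bef2097de672fc287) b24399 (.hit (nat_lit 244) (nat_lit 28) (nat_lit 0xbc0001780002fa9275f6666bead697d5d32fb15f) b24400 (.nil))) (.nil))))) (.tok (nat_lit 41) (nat_lit 0xbc00017800030000060123ec0172180488b00000)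 (.hit (nat_lit 250) (nat_lit 0) (nat_lit 0xbc0001780002fe42c5fdb74bfc0297ef4cafe11e) b24403 (.one (nat_lit 3) (nat_lit 251) (nat_lit 1) (nat_lit 0xbc0001780002fdb195fab62bf4fad7eb0bafd471) b24404 (.tok (nat_lit 6) (nat_lit 0xbc00017800030000060123ec0172180488b00000) (.hit (nat_lit 252) (nat_lit 7) (nat_lit 0xbc00017800030000060123ec0172180488b00000) b24407 (.hit (nat_lit 253) (nat_lit 15) (nat_lit 0xbc0001780002fdb1e5fad38bf67f17eb432fd622) b24408 (.nil))) (.tok (nat_lit 9) (nat_lit 0xbc0001780002fe7c65fc8a6bf54757ec2e2fe90e) (.hit (nat_lit 254) (nat_lit 20) (nat_lit 0xbc0001780002fe7c65fc8a6bf54757eac72fe90e) b24405 (.hit (nat_lit 255) (nat_lit 28) (nat_lit 0xbc0001780002fd8f25fac22bf49dd7ec2e2fd3cb) b24406 (.nil))) (.nil))))) (.tok (nat_lit 44) (nat_lit 0xbc0001780002ffe0c5fe7dabfbe117fb0e2fe86a) (.hit (nat_lit 278) (nat_lit 0) (nat_lit 0xbc0001780002fe1da5fbe40bf79697eec6afdbac)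 b24415 (.one (nat_lit 3) (nat_lit 279) (nat_lit 1) (nat_lit 0xbc0001780002fc8cb5f7e6abf1b857e3322fc014) b24416 (.tok (nat_lit 6) (nat_lit 0xbc0001780002fe6345fad98bf59917e8ea2fe0e9) (.hit (nat_lit 280) (nat_lit 7) (nat_lit 0xbc0001780002fe6345fad98bf59917e8ea2fe0e9) b24419 (.hit (nat_lit 281) (nat_lit 15) (nat_lit 0xbc0001780002fd28a5f9a68bf31217e76f2fcce7) b24420 (.nil))) (.tok (nat_lit 9) (nat_lit 0xbc0001780002ffe0c5fe7dabfbe117fb0e2fe86a) (.hit (nat_lit 282) (nat_lit 20) (nat_lit 0xbc0001780002ffe0c5fe7dabfbe117fb0e2fe86a) b24417 (.hit (nat_lit 283) (nat_lit 28) (nat_lit 0xbc0001780002fd43c5fa012bf3a4d7e79eafcf6c) b24418 (.nil))) (.nil))))) (.tok (nat_lit 47) (nat_lit 0xbc0001780002fe6915fde36bf74097f1bdafeb75) (.hit (nat_lit 264) (nat_lit 0) (nat_lit 0xbc0001780002fe6915fde36bf74097f1bdafeb75) b24409 (.one (nat_lit 3) (nat_lit 265) (nat_lit 1) (nat_lit 0xbc0001780002fab605f6ad8beb64d7d6efafb398)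 b24410 (.tok (nat_lit 6) (nat_lit 0xbc0001780002fc1ce5f97b4bf10057e226afca06) (.hit (nat_lit 266) (nat_lit 7) (nat_lit 0xbc0001780002fbfea5f93ecbf08757e134afc822) b24413 (.hit (nat_lit 267) (nat_lit 15) (nat_lit 0xbc0001780002fc1ce5f97b4bf10057e226afca06) b24414 (.nil))) (.tok (nat_lit 9) (nat_lit 0xbc0001780002faf4f5f72b6bec6097d8e72fb787) (.hit (nat_lit 268) (nat_lit 20) (nat_lit 0xbc0001780002faf4f5f72b6bec6097d8e72fb787) b24411 (.hit (nat_lit 269) (nat_lit 28) (nat_lit 0xbc0001780002fa7a05f6358bea74d7d50fafafd8) b24412 (.nil))) (.nil))))) (.tok (nat_lit 50) (nat_lit 0xbc0001780002fc7b55f8d62bf3f057e86aafd403) (.hit (nat_lit 170) (nat_lit 0) (nat_lit 0xbc0001780002fc7b55f8d62bf3f057e86aafd403) b24375 (.one (nat_lit 3) (nat_lit 171) (nat_lit 1) (nat_lit 0xbc0001780002fa0ee5f55f4be8c857d1b6afa926) b24376 (.tok (nat_lit 6) (nat_lit 0xbc0001780002fbc185f8c48bef92d7df4bafc450) (.hit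 (nat_lit 172) (nat_lit 7) (nat_lit 0xbc0001780002fbc185f8c48bef92d7df4bafc450) b24379 (.hit (nat_lit 173) (nat_lit 15) (nat_lit 0xbc0001780002fa93a5f668cbeadb57d5dcafb172) b24380 (.nil))) (.tok (nat_lit 9) (nat_lit 0xbc0001780002fa8e75f65e6beac697d5b32fb11f) (.hit (nat_lit 174) (nat_lit 20) (nat_lit 0xbc0001780002fa8e75f65e6beac697d5b32fb11f) b24377 (.hit (nat_lit 175) (nat_lit 28) (nat_lit 0xbc0001780002fa5db5f5fcebea0397d42d2fae13) b24378 (.nil))) (.nil))))) (.tok (nat_lit 53) (nat_lit 0xbc0001780002fd8e45fb4c6bf7d317efdcafeab1) (.hit (nat_lit 181) (nat_lit 0) (nat_lit 0xbc0001780002fd8745fb476bf7d317efdcafeab1) b24381 (.one (nat_lit 3) (nat_lit 182) (nat_lit 1) (nat_lit 0xbc0001780002fd1b45f9e86bf57397eae2afe551) b24382 (.tok (nat_lit 6) (nat_lit 0xbc0001780002fd8e45fb4c6bf5ca97ec4aafea33) (.hit (nat_lit 183) (nat_lit 7) (nat_lit 0xbc0001780002fd8e45fb4c6bf52f97eb80afea33)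 b24385 (.hit (nat_lit 184) (nat_lit 15) (nat_lit 0xbc0001780002fd00c5fb364bf5ca97ec4aafe990) b24386 (.nil))) (.tok (nat_lit 9) (nat_lit 0xbc0001780002fd2795fad38bf50e97eb122fdedf) (.hit (nat_lit 185) (nat_lit 20) (nat_lit 0xbc0001780002faf925f733cbec7157d908afb7ca) b24383 (.hit (nat_lit 186) (nat_lit 28) (nat_lit 0xbc0001780002fd2795fad38bf50e97eb122fdedf) b24384 (.nil))) (.nil))))) (.tok (nat_lit 56) (nat_lit 0xbc0001780002fc8195fa300bf41517e8a6afd3c8) (.hit (nat_lit 195) (nat_lit 0) (nat_lit 0xbc0001780002fc8195fa300bf41517e8a6afd3c8) b24393 (.one (nat_lit 3) (nat_lit 196) (nat_lit 1) (nat_lit 0xbc0001780002fa0ab5f556ebe8b797d1952fa8e3) b24370 (.tok (nat_lit 6) (nat_lit 0xbc0001780002fbbb25f8b7cbef7957df18afc3ea) (.hit (nat_lit 197) (nat_lit 7) (nat_lit 0xbc0001780002fbbb25f8b7cbef7957df18afc3ea) b24396 (.hit (nat_lit 198) (nat_lit 15) (nat_lit 0xbc0001780002fa2195f584abe91317d24c2faa51)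 b24372 (.nil))) (.tok (nat_lit 9) (nat_lit 0xbc0001780002fbffd5f9412bf08c17e13e2fc835) (.hit (nat_lit 199) (nat_lit 20) (nat_lit 0xbc0001780002fb2015f781abed0d17da402fba39) b24394 (.hit (nat_lit 200) (nat_lit 28) (nat_lit 0xbc0001780002fbffd5f9412bf08c17e13e2fc835) b24395 (.nil))) (.nil))))) (.tok (nat_lit 59) (nat_lit 0xbc0001780002fce805faaa6bf5d997ee742fe4df) (.hit (nat_lit 209) (nat_lit 0) (nat_lit 0xbc0001780002fce805faaa6bf5d997ee742fe4df) b24387 (.one (nat_lit 3) (nat_lit 210) (nat_lit 1) (nat_lit 0xbc0001780002fb2585f78c8bed22d7da6bafba90) b24388 (.tok (nat_lit 6) (nat_lit 0xbc0001780002fbf545f92c0bf061d7e0e9afc78c) (.hit (nat_lit 211) (nat_lit 7) (nat_lit 0xbc0001780002fbf545f92c0bf061d7e0e9afc78c) b24391 (.hit (nat_lit 212) (nat_lit 15) (nat_lit 0xbc0001780002fbf195f924abf05317e0cc2fc751) b24392 (.nil))) (.tok (nat_lit 9) (nat_lit 0xbc0001780002fc55f5f9ed6bf1e497e3ef2fcd97)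 (.hit (nat_lit 213) (nat_lit 20) (nat_lit 0xbc0001780002fbbc95f8baabef7f17df242fc401) b24389 (.hit (nat_lit 214) (nat_lit 28) (nat_lit 0xbc0001780002fc55f5f9ed6bf1e497e3ef2fcd97) b24390 (.nil))) (.nil))))) (.tok (nat_lit 62) (nat_lit 0xbc0001780002fc8e45f9c0ebf18b97e33d2fcc33) (.hit (nat_lit 146) (nat_lit 0) (nat_lit 0xbc0001780002fc8e45f9066bf10e97e3372fc7ff) b24351 (.one (nat_lit 3) (nat_lit 147) (nat_lit 1) (nat_lit 0xbc0001780002f917f5f3716be4ec97c9ff2f99b7) b24352 (.tok (nat_lit 6) (nat_lit 0xbc0001780002fb5695f7eeabede717dbf42fbda1) (.hit (nat_lit 148) (nat_lit 7) (nat_lit 0xbc0001780002fb5695f7eeabede717dbf42fbda1) b24355 (.hit (nat_lit 149) (nat_lit 15) (nat_lit 0xbc0001780002fa8b35f657ebeab997d5992fb0eb) b24356 (.nil))) (.tok (nat_lit 9) (nat_lit 0xbc0001780002fc3fb5f9c0ebf18b97e33d2fcc33) (.hit (nat_lit 150) (nat_lit 20) (nat_lit 0xbc0001780002fc3fb5f9c0ebf18b97e33d2fcc33)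 b24353 (.hit (nat_lit 151) (nat_lit 28) (nat_lit 0xbc0001780002f98065f4424be68e57cd42afa03e) b24354 (.nil))) (.nil))))) (.tok (nat_lit 65) (nat_lit 0xbc0001780002fef7e5fe6acbf8aa17f6e8afee04) (.hit (nat_lit 152) (nat_lit 0) (nat_lit 0xbc0001780002fe24e5fc728bf75217eaefafdd8a) b24357 (.one (nat_lit 3) (nat_lit 153) (nat_lit 1) (nat_lit 0xbc0001780002fe9285fb4b4bf24e57ec402fdf63) b24358 (.tok (nat_lit 6) (nat_lit 0xbc0001780002fef7e5fe6acbf6d5d7ee93afea12) (.hit (nat_lit 154) (nat_lit 7) (nat_lit 0xbc0001780002fc0535f94bebf0a197e1692fc88b) b24361 (.hit (nat_lit 155) (nat_lit 15) (nat_lit 0xbc0001780002fef7e5fe6acbf6d5d7ee93afea12) b24362 (.nil))) (.tok (nat_lit 9) (nat_lit 0xbc0001780002fec1f5fe2a0bf8aa17f6e8afee04) (.hit (nat_lit 156) (nat_lit 20) (nat_lit 0xbc0001780002fec1f5fe2a0bf8aa17f6e8afee04) b24359 (.hit (nat_lit 157) (nat_lit 28) (nat_lit 0xbc0001780002fe2775fc548bf4aa57e96cafe12e)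 b24360 (.nil))) (.nil))))) (.tok (nat_lit 68) (nat_lit 0xbc0001780002fce9e5f946abf56a57e75cafcc9b) (.hit (nat_lit 158) (nat_lit 0) (nat_lit 0xbc0001780002fce9e5f946abf56a57e75cafcc9b) b24369 (.one (nat_lit 3) (nat_lit 159) (nat_lit 1) (nat_lit 0xbc0001780002fa0ab5f556ebe8b797d1952fa8e3) b24370 (.tok (nat_lit 6) (nat_lit 0xbc0001780002fb9235f865ebeed597ddd12fc15b) (.hit (nat_lit 160) (nat_lit 7) (nat_lit 0xbc0001780002fb5da5f7fccbee0357dc2cafbe12) b24373 (.hit (nat_lit 161) (nat_lit 15) (nat_lit 0xbc0001780002fb9235f865ebeed597ddd12fc15b) b24374 (.nil))) (.tok (nat_lit 9) (nat_lit 0xbc0001780002fb1be5f7794becfc57da1eafb9f6) (.hit (nat_lit 162) (nat_lit 20) (nat_lit 0xbc0001780002fb1be5f7794becfc57da1eafb9f6) b24371 (.hit (nat_lit 163) (nat_lit 28) (nat_lit 0xbc0001780002fa2195f584abe91317d24c2faa51) b24372 (.nil))) (.nil))))) (.tok (nat_lit 71) (nat_lit 0xbc0001780002fd9115fb3babf34157e989afd846)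 (.hit (nat_lit 164) (nat_lit 0) (nat_lit 0xbc0001780002fd9115fb3babf34157e989afd846) b24363 (.one (nat_lit 3) (nat_lit 165) (nat_lit 1) (nat_lit 0xbc0001780002f95ca5f3facbe5ff57cc24af9e02) b24364 (.tok (nat_lit 6) (nat_lit 0xbc0001780002fb79a5f834cbee7357dd0cafbfd2) (.hit (nat_lit 166) (nat_lit 7) (nat_lit 0xbc0001780002fb79a5f834cbee7357dd0cafbfd2) b24367 (.hit (nat_lit 167) (nat_lit 15) (nat_lit 0xbc0001780002fa9f05f67f8beb08d7d637afb228) b24368 (.nil))) (.tok (nat_lit 9) (nat_lit 0xbc0001780002fb6735f80febee2997dc792fbeab) (.hit (nat_lit 168) (nat_lit 20) (nat_lit 0xbc0001780002fb3dd5f7bd2bed8417db2e2fbc15) b24365 (.hit (nat_lit 169) (nat_lit 28) (nat_lit 0xbc0001780002fb6735f80febee2997dc792fbeab) b24366 (.nil))) (.nil))))) (.nil))))))))))))))))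
noncomputable def r25_19 : Rw Blk := .tok (nat_lit 3) (nat_lit 0xbc0001780002fd1fc5fc5fabfaef57f61f2fef37) (.hit (nat_lit 14) (nat_lit 0) (nat_lit 0xbc0001780002fcf4e5fc5fabfaef57f61f2fef37) b24452 (.tok (nat_lit 6) (nat_lit 0xbc0001780002fd1fc5fb1d6bf9ebd7f4a8afee1e) (.hit (nat_lit 15) (nat_lit 7) (nat_lit 0xbc0001780002fd1fc5fb1d6bf9ebd7f4a8afee1e) b24455 (.hit (nat_lit 16) (nat_lit 15) (nat_lit 0xbc0001780002fc1875fa710bf7c597f1f52fea2b) b24456 (.nil))) (.tok (nat_lit 9) (nat_lit 0xbc0001780002fbf595f84b8bf4fb97ea1c2fd7e2) (.hit (nat_lit 17) (nat_lit 20) (nat_lit 0xbc0001780002faa195f754cbf0a397dfe8afbf28) b24453 (.hit (nat_lit 18) (nat_lit 28) (nat_lit 0xbc0001780002fbf595f84b8bf4fb97ea1c2fd7e2) b24454 (.nil))) (.nil)))) (.tok (nat_lit 6) (nat_lit 0xbc0001780003000bb6006e6c0163180000300000) (.hit (nat_lit 9) (nat_lit 0) (nat_lit 0xbc0001780002fe0315fe38ec016317f8dc2ffb78)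 b24447 (.tok (nat_lit 3) (nat_lit 0xbc0001780003000bb6006e6bff83180000300000) (.hit (nat_lit 10) (nat_lit 1) (nat_lit 0xbc0001780002fdb205fd020bfa2e97f55e2ff2f9) b24448 (.one (nat_lit 67) (nat_lit 11) (nat_lit 2) (nat_lit 0xbc0001780003000bb6006e6bff83180000300000) b24449 (.nil))) (.tok (nat_lit 6) (nat_lit 0xbc0001780002fd2305fdd9abf9a397f1f82fef3b) (.hit (nat_lit 12) (nat_lit 7) (nat_lit 0xbc0001780002fd1105fdd9abf9a397f1f82fef3b) b24450 (.hit (nat_lit 13) (nat_lit 15) (nat_lit 0xbc0001780002fd2305fc550bf82057efef2fec24) b24451 (.nil))) (.nil)))) (.tok (nat_lit 9) (nat_lit 0xbc0001780002fd7e25fc44cbfc15d7f835aff442) (.hit (nat_lit 0) (nat_lit 0) (nat_lit 0xbc0001780002fd7665fc44cbfb9097f835aff442) b24442 (.tok (nat_lit 3) (nat_lit 0xbc0001780002fd7e25fc22abfc15d7f58b2fecf1) (.hit (nat_lit 1) (nat_lit 1) (nat_lit 0xbc0001780002fb5975f91d6bf35957e70b2fc8ac) b24443 (.one (nat_lit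 55) (nat_lit 2) (nat_lit 3) (nat_lit 0xbc0001780002fd7e25fc22abfc15d7f58b2fecf1) b24444 (.nil))) (.tok (nat_lit 9) (nat_lit 0xbc0001780002fc5535f9ae2bf77217ec43afda62) (.hit (nat_lit 3) (nat_lit 20) (nat_lit 0xbc0001780002fc5535f8174bf77217ec43afda62) b24445 (.hit (nat_lit 7) (nat_lit 28) (nat_lit 0xbc0001780002fc18a5f9ae2bf67fd7ea5f2fd699) b24446 (.nil))) (.nil)))) (.nil)))
noncomputable def r25_20 : Rw Blk := .tok (nat_lit 3) (nat_lit 0x1780002f00005febd0bfa8897fdb9afeaf2) (.hit (nat_lit 0) (nat_lit 0) (nat_lit 0x1780002f00005fba4ebf5e617f65aafe0dd) b24457 (.tok (nat_lit 9) (nat_lit 0x1780002f00005fb314bf2bb17eee7afcd60) (.hit (nat_lit 1) (nat_lit 20) (nat_lit 0x1780002f00005f987cbef6817e841afc014) b24458 (.hit (nat_lit 6) (nat_lit 28) (nat_lit 0x1780002f00005f7b8abebc9d7e1052fb19b) b24461 (.tok (nat_lit 14) (nat_lit 0x1780002f00005fb314bf2bb17eee7afcd60) (.hit (nat_lit 2) (nat_lit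 24) (nat_lit 0x1780002f00005fa6aebf12e57ebce2fc72d) b24459 (.hit (nat_lit 7) (nat_lit 30) (nat_lit 0x1780002f00005fa8a8bf16d97ec4cafc82a) b24462 (.one (nat_lit 6) (nat_lit 3) (nat_lit 25) (nat_lit 0x1780002f00005fb314bf2bb17eee7afcd60) b24460 (.nil)))) (.nil)))) (.tok (nat_lit 64) (nat_lit 0x1780002f00005fb48ebf2ea57ef462fce1d) (.hit (nat_lit 9) (nat_lit 50) (nat_lit 0x1780002f00005fb3a8bf2cd97ef0cafcdaa) b24463 (.hit (nat_lit 10) (nat_lit 51) (nat_lit 0x1780002f00005fb48ebf2ea57ef462fce1d) b24464 (.nil))) (.tok (nat_lit 67) (nat_lit 0x1780002f00005febd0bfa8897fdb9afeaf2) (.hit (nat_lit 11) (nat_lit 52) (nat_lit 0x1780002f00005febd0bfa8897fdb9afeaf2) b24465 (.tok (nat_lit 3) (nat_lit 0x1780002f00005fdbbcbf7d017f911afe1b4) (.hit (nat_lit 17) (nat_lit 58) (nat_lit 0x1780002f00005fbe2ebf41e57f1ae2fd2ed) b24468 (.one (nat_lit 55) (nat_lit 18) (nat_lit 59) (nat_lit 0x1780002f00005fdbbcbf7d017f911afe1b4)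 b24469 (.nil))) (.tok (nat_lit 9) (nat_lit 0x1780002f00005fc04cbf46217f235afd3fc) (.hit (nat_lit 12) (nat_lit 53) (nat_lit 0x1780002f00005fc04cbf46217f235afd3fc) b24466 (.hit (nat_lit 15) (nat_lit 56) (nat_lit 0x1780002f00005fb6b6bf32f57efd02fcf31) b24467 (.nil))) (.nil)))) (.one (nat_lit 70) (nat_lit 19) (nat_lit 60) (nat_lit 0x1780002f00005fb2fabf2b7d7eee12fcd53) b24470 (.nil)))))) (.tok (nat_lit 6) (nat_lit 0x1780002f0000605276c0930181549b02941) (.hit (nat_lit 20) (nat_lit 0) (nat_lit 0x1780002f00005fba9abf85617f3baafe66e) b24471 (.tok (nat_lit 6) (nat_lit 0x1780002f0000605276c0930181549b02941) (.hit (nat_lit 21) (nat_lit 7) (nat_lit 0x1780002f00005fbaa8bf9f797f9a52fe7a8) b24472 (.hit (nat_lit 26) (nat_lit 15) (nat_lit 0x1780002f00005f7eb8bed6a57e3e6afcf3d) b24477 (.tok (nat_lit 14) (nat_lit 0x1780002f0000605276c0930181549b02941) (.hit (nat_lit 22) (nat_lit 11) (nat_lit 0x1780002f0000605276c0930181549b02941)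 b24473 (.hit (nat_lit 27) (nat_lit 17) (nat_lit 0x1780002f00005fbdbcbf54857f26a2fef3a) b24478 (.one (nat_lit 9) (nat_lit 23) (nat_lit 12) (nat_lit 0x1780002f000060466ec084a9813a6b0247d) b24474 (.nil)))) (.tok (nat_lit 56) (nat_lit 0x1780002f00005ffc8abffbc580437b0048d) (.hit (nat_lit 24) (nat_lit 13) (nat_lit 0x1780002f00005ffc8abffbc580437b0048d) b24475 (.hit (nat_lit 29) (nat_lit 19) (nat_lit 0x1780002f00005fbae4bf1e457eba02fdf4a) b24480 (.one (nat_lit 6) (nat_lit 25) (nat_lit 14) (nat_lit 0x1780002f00005fc8a0bf8b197fad02ff7e9) b24476 (.nil)))) (.one (nat_lit 68) (nat_lit 28) (nat_lit 18) (nat_lit 0x1780002f00005fb9eabf5edd7f4a12fee55) b24479 (.nil)))))) (.nil))) (.nil))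
noncomputable def r25_21 : Rw Blk := .tok (nat_lit 26) (nat_lit 0x2f00005e0000bfa9cd7f566afd7d0) (.hit (nat_lit 215) (nat_lit 0) (nat_lit 0x2f00005e0000bfa9cd7f566afd7d0) b24548 (.one (nat_lit 3) (nat_lit 216) (nat_lit 1) (nat_lit 0x2f00005e0000bed7957dd042fb3ad) b24549 (.tok (nat_lit 6) (nat_lit 0x2f00005e0000bf48897eb22afcfea) (.hit (nat_lit 217) (nat_lit 7) (nat_lit 0x2f00005e0000beee457dfda2fb959) b24552 (.hit (nat_lit 218) (nat_lit 15) (nat_lit 0x2f00005e0000bf48897eb22afcfea) b24553 (.nil))) (.tok (nat_lit 9) (nat_lit 0x2f00005e0000bf3c497e99aafccda) (.hit (nat_lit 219) (nat_lit 20) (nat_lit 0x2f00005e0000bf3c497e99aafccda) b24550 (.hit (nat_lit 220) (nat_lit 28) (nat_lit 0x2f00005e0000bf02f57e2702fbe85) b24551 (.nil))) (.nil))))) (.tok (nat_lit 29) (nat_lit 0x2f00005e0000bf58397f1db2fd376) (.hit (nat_lit 221) (nat_lit 0) (nat_lit 0x2f00005e0000bf58397f1db2fd0d7) b24554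 (.one (nat_lit 3) (nat_lit 222) (nat_lit 1) (nat_lit 0x2f00005e0000becb1d7db752fb08f) b24555 (.tok (nat_lit 6) (nat_lit 0x2f00005e0000bf52097ec52afd24a) (.hit (nat_lit 223) (nat_lit 7) (nat_lit 0x2f00005e0000bf185d7e51d2fc3df) b24558 (.hit (nat_lit 224) (nat_lit 15) (nat_lit 0x2f00005e0000bf52097ec52afd24a) b24559 (.nil))) (.tok (nat_lit 9) (nat_lit 0x2f00005e0000bf56b97ece8afd376) (.hit (nat_lit 225) (nat_lit 20) (nat_lit 0x2f00005e0000bf329d7e8652fca6f) b24556 (.hit (nat_lit 226) (nat_lit 28) (nat_lit 0x2f00005e0000bf56b97ece8afd376) b24557 (.nil))) (.nil))))) (.tok (nat_lit 32) (nat_lit 0x2f00005e0000bf68ed7ef632fd803) (.hit (nat_lit 233) (nat_lit 0) (nat_lit 0x2f00005e0000bf68ed7ef632fd803) b24565 (.one (nat_lit 3) (nat_lit 234) (nat_lit 1) (nat_lit 0x2f00005e0000bec5017dab1afaf08) b24494 (.tok (nat_lit 6) (nat_lit 0x2f00005e0000bf4e3d7ebd92fd157) (.hit (nat_lit 235) (nat_lit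 7) (nat_lit 0x2f00005e0000bf30cd7e82b2fc9fb) b24568 (.hit (nat_lit 236) (nat_lit 15) (nat_lit 0x2f00005e0000bf4e3d7ebd92fd157) b24569 (.nil))) (.tok (nat_lit 9) (nat_lit 0x2f00005e0000bf24617e69dafc6e0) (.hit (nat_lit 237) (nat_lit 20) (nat_lit 0x2f00005e0000bf24617e69dafc6e0) b24566 (.hit (nat_lit 238) (nat_lit 28) (nat_lit 0x2f00005e0000becfa97dc06afb1b2) b24567 (.nil))) (.nil))))) (.tok (nat_lit 35) (nat_lit 0x2f00005e0000bf76f17f018afd36b) (.hit (nat_lit 227) (nat_lit 0) (nat_lit 0x2f00005e0000bf76f17f018afccda) b24560 (.one (nat_lit 3) (nat_lit 228) (nat_lit 1) (nat_lit 0x2f00005e0000bec5017dab1afaf08) b24494 (.tok (nat_lit 6) (nat_lit 0x2f00005e0000bf31dd7e84d2fca3f) (.hit (nat_lit 229) (nat_lit 7) (nat_lit 0x2f00005e0000bf31dd7e84d2fca3f) b24563 (.hit (nat_lit 230) (nat_lit 15) (nat_lit 0x2f00005e0000bed5c97dccaafb33a) b24564 (.nil))) (.tok (nat_lit 9) (nat_lit 0x2f00005e0000bf568d7ece32fd36b)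 (.hit (nat_lit 231) (nat_lit 20) (nat_lit 0x2f00005e0000beee197dfd4afb94e) b24561 (.hit (nat_lit 232) (nat_lit 28) (nat_lit 0x2f00005e0000bf568d7ece32fd36b) b24562 (.nil))) (.nil))))) (.tok (nat_lit 38) (nat_lit 0x2f00005e0000bfb4bd7fc382fe92d) (.hit (nat_lit 239) (nat_lit 0) (nat_lit 0x2f00005e0000bfb4bd7fc382fe92d) b24525 (.one (nat_lit 3) (nat_lit 240) (nat_lit 1) (nat_lit 0x2f00005e0000bec5b97dac8afaf36) b24526 (.tok (nat_lit 6) (nat_lit 0x2f00005e0000bef49d7e0a52fbaef) (.hit (nat_lit 241) (nat_lit 7) (nat_lit 0x2f00005e0000bef49d7e0a52fbaef) b24528 (.hit (nat_lit 242) (nat_lit 15) (nat_lit 0x2f00005e0000bee73d7def92fb797) b24529 (.nil))) (.tok (nat_lit 9) (nat_lit 0x2f00005e0000bf32297e856afca52) (.hit (nat_lit 243) (nat_lit 20) (nat_lit 0x2f00005e0000bf32297e856afca52) b24502 (.hit (nat_lit 244) (nat_lit 28) (nat_lit 0x2f00005e0000bee72d7def72fb793) b24527 (.nil))) (.nil)))))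 (.tok (nat_lit 41) (nat_lit 0x2f00005e0000bfb3417fa43afec61) (.hit (nat_lit 250) (nat_lit 0) (nat_lit 0x2f00005e0000bf99817f6e9afdfc2) b24530 (.one (nat_lit 3) (nat_lit 251) (nat_lit 1) (nat_lit 0x2f00005e0000bf6ad57f0deafd4e2) b24531 (.tok (nat_lit 6) (nat_lit 0x2f00005e0000bfaa617f6842fe5aa) (.hit (nat_lit 252) (nat_lit 7) (nat_lit 0x2f00005e0000bfaa617f6842fe5aa) b24534 (.hit (nat_lit 253) (nat_lit 15) (nat_lit 0x2f00005e0000bf94197f59bafdf16) b24535 (.nil))) (.tok (nat_lit 9) (nat_lit 0x2f00005e0000bfb3417fa43afec61) (.hit (nat_lit 254) (nat_lit 20) (nat_lit 0x2f00005e0000bfb3417fa43afec61) b24532 (.hit (nat_lit 255) (nat_lit 28) (nat_lit 0x2f00005e0000bf9b0d7f6e9afe0f1) b24533 (.nil))) (.nil))))) (.tok (nat_lit 44) (nat_lit 0x2f00005e0000bfe1a57fc71afeab6) (.hit (nat_lit 278) (nat_lit 0) (nat_lit 0x2f00005e0000bfe1a57fbf1afe958) b24542 (.one (nat_lit 3) (nat_lit 279) (nat_lit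 1) (nat_lit 0x2f00005e0000bf351d7ea2e2fc77a) b24543 (.tok (nat_lit 6) (nat_lit 0x2f00005e0000bfbff57fc71afeab6) (.hit (nat_lit 280) (nat_lit 7) (nat_lit 0x2f00005e0000bfbff57fc71afeab6) b24546 (.hit (nat_lit 281) (nat_lit 15) (nat_lit 0x2f00005e0000bf7c757f3312fd99d) b24547 (.nil))) (.tok (nat_lit 9) (nat_lit 0x2f00005e0000bfb4597f852afe91a) (.hit (nat_lit 282) (nat_lit 20) (nat_lit 0x2f00005e0000bfb4597f852afe91a) b24544 (.hit (nat_lit 283) (nat_lit 28) (nat_lit 0x2f00005e0000bf87a17f4a82fdc8c) b24545 (.nil))) (.nil))))) (.tok (nat_lit 47) (nat_lit 0x2f00005e0000c00001803f1b00000) (.hit (nat_lit 264) (nat_lit 0) (nat_lit 0x2f00005e0000bfebf1801752ffe71) b24536 (.one (nat_lit 3) (nat_lit 265) (nat_lit 1) (nat_lit 0x2f00005e0000bf5fa97efaeafd217) b24537 (.tok (nat_lit 6) (nat_lit 0x2f00005e0000c00001803f1b00000) (.hit (nat_lit 266) (nat_lit 7) (nat_lit 0x2f00005e0000c00001803f1b00000)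 b24540 (.hit (nat_lit 267) (nat_lit 15) (nat_lit 0x2f00005e0000bf86c17f4c7afdcb3) b24541 (.nil))) (.tok (nat_lit 9) (nat_lit 0x2f00005e0000bfc9317fd5e2fee26) (.hit (nat_lit 268) (nat_lit 20) (nat_lit 0x2f00005e0000bfc9317fd5e2fee26) b24538 (.hit (nat_lit 269) (nat_lit 28) (nat_lit 0x2f00005e0000bf70c17f13eafd636) b24539 (.nil))) (.nil))))) (.tok (nat_lit 50) (nat_lit 0x2f00005e0000bf8c857f910afe0e9) (.hit (nat_lit 170) (nat_lit 0) (nat_lit 0x2f00005e0000bf4d117f910afd876) b24504 (.one (nat_lit 3) (nat_lit 171) (nat_lit 1) (nat_lit 0x2f00005e0000bed94d7dd3b2fb41b) b24505 (.tok (nat_lit 6) (nat_lit 0x2f00005e0000bf8c857f3a22fe0e9) (.hit (nat_lit 172) (nat_lit 7) (nat_lit 0x2f00005e0000bf8c857f3a22fe0e9) b24508 (.hit (nat_lit 173) (nat_lit 15) (nat_lit 0x2f00005e0000bef18d7e0432fba2b) b24509 (.nil))) (.tok (nat_lit 9) (nat_lit 0x2f00005e0000bf03d17e28bafbebc) (.hit (nat_lit 174)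 (nat_lit 20) (nat_lit 0x2f00005e0000bf03d17e28bafbebc) b24506 (.hit (nat_lit 175) (nat_lit 28) (nat_lit 0x2f00005e0000beeb6d7df7f2fb8a3) b24507 (.nil))) (.nil))))) (.tok (nat_lit 53) (nat_lit 0x2f00005e0000bfa2dd800132ff162) (.hit (nat_lit 181) (nat_lit 0) (nat_lit 0x2f00005e0000bf8e9d7ff53afe993) b24510 (.one (nat_lit 3) (nat_lit 182) (nat_lit 1) (nat_lit 0x2f00005e0000bf6ab57fa452fdfb2) b24511 (.tok (nat_lit 6) (nat_lit 0x2f00005e0000bf88757ff1faff162) (.hit (nat_lit 183) (nat_lit 7) (nat_lit 0x2f00005e0000bf88757ff1faff162) b24514 (.hit (nat_lit 184) (nat_lit 15) (nat_lit 0x2f00005e0000bf74957fc77afe44d) b24515 (.nil))) (.tok (nat_lit 9) (nat_lit 0x2f00005e0000bfa2dd800132fedb3) (.hit (nat_lit 185) (nat_lit 20) (nat_lit 0x2f00005e0000bf48457eb1a2fcfd9) b24512 (.hit (nat_lit 186) (nat_lit 28) (nat_lit 0x2f00005e0000bfa2dd800132fedb3) b24513 (.nil))) (.nil))))) (.tok (nat_lit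 56) (nat_lit 0x2f00005e0000bf66317f6b6afd754) (.hit (nat_lit 195) (nat_lit 0) (nat_lit 0x2f00005e0000bf66317f6b6afd754) b24522 (.one (nat_lit 3) (nat_lit 196) (nat_lit 1) (nat_lit 0x2f00005e0000bec5017dab1afaf08) b24494 (.tok (nat_lit 6) (nat_lit 0x2f00005e0000bf311d7e8352fca0f) (.hit (nat_lit 197) (nat_lit 7) (nat_lit 0x2f00005e0000bf311d7e8352fca0f) b24524 (.hit (nat_lit 198) (nat_lit 15) (nat_lit 0x2f00005e0000becab97db68afb076) b24501 (.nil))) (.tok (nat_lit 9) (nat_lit 0x2f00005e0000bf610d7ee332fd60b) (.hit (nat_lit 199) (nat_lit 20) (nat_lit 0x2f00005e0000bf32297e856afca52) b24502 (.hit (nat_lit 200) (nat_lit 28) (nat_lit 0x2f00005e0000bf610d7ee332fd60b) b24523 (.nil))) (.nil))))) (.tok (nat_lit 59) (nat_lit 0x2f00005e0000bfa8597fb672fe7de) (.hit (nat_lit 209) (nat_lit 0) (nat_lit 0x2f00005e0000bf73317fb672fdddd) b24516 (.one (nat_lit 3) (nat_lit 210) (nat_lit 1) (nat_lit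 0x2f00005e0000bef6657e0de2fbb61) b24517 (.tok (nat_lit 6) (nat_lit 0x2f00005e0000bf66257eed62fd751) (.hit (nat_lit 211) (nat_lit 7) (nat_lit 0x2f00005e0000bf51857ec422fd229) b24520 (.hit (nat_lit 212) (nat_lit 15) (nat_lit 0x2f00005e0000bf66257eed62fd751) b24521 (.nil))) (.tok (nat_lit 9) (nat_lit 0x2f00005e0000bfa8597f71cafe7de) (.hit (nat_lit 213) (nat_lit 20) (nat_lit 0x2f00005e0000bfa8597f71cafe7de) b24518 (.hit (nat_lit 214) (nat_lit 28) (nat_lit 0x2f00005e0000beb6ad7d8e72fab73) b24519 (.nil))) (.nil))))) (.tok (nat_lit 62) (nat_lit 0x2f00005e0000bf61917e7d6afc79c) (.hit (nat_lit 146) (nat_lit 0) (nat_lit 0x2f00005e0000bf61917e7d6afc79c) b24481 (.one (nat_lit 3) (nat_lit 147) (nat_lit 1) (nat_lit 0x2f00005e0000bec6517dadbafaf5c) b24482 (.tok (nat_lit 6) (nat_lit 0x2f00005e0000beeda57dfc62fb931) (.hit (nat_lit 148) (nat_lit 7) (nat_lit 0x2f00005e0000beeda57dfc62fb931) b24485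 (.hit (nat_lit 149) (nat_lit 15) (nat_lit 0x2f00005e0000beddb57ddc82fb535) b24486 (.nil))) (.tok (nat_lit 9) (nat_lit 0x2f00005e0000bf1e317e5d7afc554) (.hit (nat_lit 150) (nat_lit 20) (nat_lit 0x2f00005e0000bf1e317e5d7afc554) b24483 (.hit (nat_lit 151) (nat_lit 28) (nat_lit 0x2f00005e0000bee67d7dee12fb767) b24484 (.nil))) (.nil))))) (.tok (nat_lit 65) (nat_lit 0x2f00005e0000bf8fb57efe2afd918) (.hit (nat_lit 152) (nat_lit 0) (nat_lit 0x2f00005e0000bf7ead7ec81afd30e) b24487 (.one (nat_lit 3) (nat_lit 153) (nat_lit 1) (nat_lit 0x2f00005e0000bf67657eccf2fca6c) b24488 (.tok (nat_lit 6) (nat_lit 0x2f00005e0000bf80c97efe2afd149) (.hit (nat_lit 154) (nat_lit 7) (nat_lit 0x2f00005e0000bf4e057ebd22fd149) b24491 (.hit (nat_lit 155) (nat_lit 15) (nat_lit 0x2f00005e0000bf80c97efe2afcffa) b24492 (.nil))) (.tok (nat_lit 9) (nat_lit 0x2f00005e0000bf8fb57efb9afd918) (.hit (nat_lit 156) (nat_lit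 20) (nat_lit 0x2f00005e0000bf8fb57ece92fd42f) b24489 (.hit (nat_lit 157) (nat_lit 28) (nat_lit 0x2f00005e0000bf899d7efb9afd918) b24490 (.nil))) (.nil))))) (.tok (nat_lit 68) (nat_lit 0x2f00005e0000bf55a97ecc6afd332) (.hit (nat_lit 158) (nat_lit 0) (nat_lit 0x2f00005e0000bf4aad7e8b6afcb12) b24499 (.one (nat_lit 3) (nat_lit 159) (nat_lit 1) (nat_lit 0x2f00005e0000bec5017dab1afaf08) b24494 (.tok (nat_lit 6) (nat_lit 0x2f00005e0000bf55a97ecc6afd332) (.hit (nat_lit 160) (nat_lit 7) (nat_lit 0x2f00005e0000bf32297e856afca52) b24502 (.hit (nat_lit 161) (nat_lit 15) (nat_lit 0x2f00005e0000bf55a97ecc6afd332) b24503 (.nil))) (.tok (nat_lit 9) (nat_lit 0x2f00005e0000bf23557e67c2fc69d) (.hit (nat_lit 162) (nat_lit 20) (nat_lit 0x2f00005e0000bf23557e67c2fc69d) b24500 (.hit (nat_lit 163) (nat_lit 28) (nat_lit 0x2f00005e0000becab97db68afb076) b24501 (.nil))) (.nil))))) (.tok (nat_lit 71) (nat_lit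 0x2f00005e0000bf77cd7eacb2fcd90) (.hit (nat_lit 164) (nat_lit 0) (nat_lit 0x2f00005e0000bf77cd7eacb2fcd90) b24493 (.one (nat_lit 3) (nat_lit 165) (nat_lit 1) (nat_lit 0x2f00005e0000bec5017dab1afaf08) b24494 (.tok (nat_lit 6) (nat_lit 0x2f00005e0000bf1c497e59aafc4da) (.hit (nat_lit 166) (nat_lit 7) (nat_lit 0x2f00005e0000bf1c497e59aafc4da) b24497 (.hit (nat_lit 167) (nat_lit 15) (nat_lit 0x2f00005e0000beeb857df822fb8a9) b24498 (.nil))) (.tok (nat_lit 9) (nat_lit 0x2f00005e0000bf2a2d7e7572fc853) (.hit (nat_lit 168) (nat_lit 20) (nat_lit 0x2f00005e0000bf175d7e4fd2fc39f) b24495 (.hit (nat_lit 169) (nat_lit 28) (nat_lit 0x2f00005e0000bf2a2d7e7572fc853) b24496 (.nil))) (.nil))))) (.nil))))))))))))))))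
noncomputable def r25_22 : Rw Blk := .tok (nat_lit 3) (nat_lit 0x2f00005e0000bf4dd17ef9e2fd501) (.hit (nat_lit 14) (nat_lit 0) (nat_lit 0x2f00005e0000bf4dd17ef9e2fd501) b24580 (.tok (nat_lit 6) (nat_lit 0x2f00005e0000beea717da8a2faf2d) (.hit (nat_lit 15) (nat_lit 7) (nat_lit 0x2f00005e0000bed4b57d7d2afa9be) b24583 (.hit (nat_lit 16) (nat_lit 15) (nat_lit 0x2f00005e0000beea717da8a2faf2d) b24584 (.nil))) (.tok (nat_lit 9) (nat_lit 0x2f00005e0000bf134d7dfa5afb964) (.hit (nat_lit 17) (nat_lit 20) (nat_lit 0x2f00005e0000bf134d7dfa5afb964) b24581 (.hit (nat_lit 18) (nat_lit 28) (nat_lit 0x2f00005e0000bf05997ddef2fb5f7) b24582 (.nil))) (.nil)))) (.tok (nat_lit 6) (nat_lit 0x2f00005e0000bf851d7f419afdb7c) (.hit (nat_lit 0) (nat_lit 0) (nat_lit 0x2f00005e0000bf851d7f419afdb7c) b24570 (.tok (nat_lit 3) (nat_lit 0x2f00005e0000bf562d7e801afca1c) (.hit (nat_lit 1) (nat_lit 1) (nat_lit 0x2f00005e0000bf0b997deaf2fb777)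 b24571 (.one (nat_lit 67) (nat_lit 2) (nat_lit 2) (nat_lit 0x2f00005e0000bf562d7e801afca1c) b24572 (.nil))) (.tok (nat_lit 6) (nat_lit 0x2f00005e0000bf0f317df222fb85d) (.hit (nat_lit 3) (nat_lit 7) (nat_lit 0x2f00005e0000bef9c17dc742fb301) b24573 (.hit (nat_lit 7) (nat_lit 15) (nat_lit 0x2f00005e0000bf0f317df222fb85d) b24574 (.nil))) (.nil)))) (.tok (nat_lit 9) (nat_lit 0x2f00005e0000c000018024cb002e5) (.hit (nat_lit 9) (nat_lit 0) (nat_lit 0x2f00005e0000bf9ecd7f1b4afe6c1) b24575 (.tok (nat_lit 3) (nat_lit 0x2f00005e0000c000018024cb002e5) (.hit (nat_lit 10) (nat_lit 1) (nat_lit 0x2f00005e0000bf9f557f4f2afe155) b24576 (.one (nat_lit 55) (nat_lit 11) (nat_lit 3) (nat_lit 0x2f00005e0000c000018024cb002e5) b24577 (.nil))) (.tok (nat_lit 9) (nat_lit 0x2f00005e0000bfc9e97f4d52fe5a5) (.hit (nat_lit 12) (nat_lit 20) (nat_lit 0x2f00005e0000bfc9e97f4d52fdfe0) b24578 (.hit (nat_lit 13) (nat_lit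 28) (nat_lit 0x2f00005e0000bf7d817f358afe5a5) b24579 (.nil))) (.nil)))) (.nil)))
noncomputable def r25_23 : Rw Blk := .tok (nat_lit 3) (nat_lit 0x2f00005e0000bf8cc97f69cafe1be) (.hit (nat_lit 14) (nat_lit 0) (nat_lit 0x2f00005e0000bf8cc97f69cafe1be) b24595 (.tok (nat_lit 6) (nat_lit 0x2f00005e0000bf562d7f18d2fd957) (.hit (nat_lit 15) (nat_lit 7) (nat_lit 0x2f00005e0000bf562d7f18d2fd957) b24598 (.hit (nat_lit 16) (nat_lit 15) (nat_lit 0x2f00005e0000bf401d7eecb2fd3d3) b24599 (.nil))) (.tok (nat_lit 9) (nat_lit 0x2f00005e0000bf429d7ef1b2fd473) (.hit (nat_lit 17) (nat_lit 20) (nat_lit 0x2f00005e0000bf429d7ef1b2fd473) b24596 (.hit (nat_lit 18) (nat_lit 28) (nat_lit 0x2f00005e0000beaa257dc0c2fae55) b24597 (.nil))) (.nil)))) (.tok (nat_lit 6) (nat_lit 0x2f00005e0000c00001801f3b00000) (.hit (nat_lit 9) (nat_lit 0) (nat_lit 0x2f00005e0000c000017f6612fe8c9) b24590 (.tok (nat_lit 3) (nat_lit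 0x2f00005e0000bfebd57ffedaff76b) (.hit (nat_lit 10) (nat_lit 1) (nat_lit 0x2f00005e0000bf69397f5f02fe2b7) b24591 (.one (nat_lit 67) (nat_lit 11) (nat_lit 2) (nat_lit 0x2f00005e0000bfebd57ffedaff76b) b24592 (.nil))) (.tok (nat_lit 6) (nat_lit 0x2f00005e0000bfcb09801f3b00000) (.hit (nat_lit 12) (nat_lit 7) (nat_lit 0x2f00005e0000bfcb09801f3b00000) b24593 (.hit (nat_lit 13) (nat_lit 15) (nat_lit 0x2f00005e0000bf741d7f72c2fe600) b24594 (.nil))) (.nil)))) (.tok (nat_lit 9) (nat_lit 0x2f00005e0000bfcbe98000baff3c6) (.hit (nat_lit 0) (nat_lit 0) (nat_lit 0x2f00005e0000bfcbe98000baff3c6) b24585 (.tok (nat_lit 3) (nat_lit 0x2f00005e0000bf9ea17fa9bafeb74) (.hit (nat_lit 1) (nat_lit 1) (nat_lit 0x2f00005e0000bf564d7f1912fd95f) b24586 (.one (nat_lit 55) (nat_lit 2) (nat_lit 3) (nat_lit 0x2f00005e0000bf9ea17fa9bafeb74) b24587 (.nil))) (.tok (nat_lit 9) (nat_lit 0x2f00005e0000bf4e957f09a2fd771)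 (.hit (nat_lit 3) (nat_lit 20) (nat_lit 0x2f00005e0000bf4ab57f01e2fd679) b24588 (.hit (nat_lit 7) (nat_lit 28) (nat_lit 0x2f00005e0000bf4e957f09a2fd771) b24589 (.nil))) (.nil)))) (.nil)))
noncomputable def r25_24 : Rw Blk := .tok (nat_lit 6) (nat_lit 0x2f00005e0000c097e981d3fb029f7) (.hit (nat_lit 10) (nat_lit 0) (nat_lit 0x2f00005e0000c011fd80a633006bc) b24609 (.tok (nat_lit 3) (nat_lit 0x2f00005e0000bfb6757ff293000e4) (.hit (nat_lit 11) (nat_lit 1) (nat_lit 0x2f00005e0000bf69b97ef31afe5d3) b24610 (.one (nat_lit 14) (nat_lit 12) (nat_lit 4) (nat_lit 0x2f00005e0000bfb6757ff293000e4) b24611 (.nil))) (.tok (nat_lit 40) (nat_lit 0x2f00005e0000bf9d817feadaff15b) (.hit (nat_lit 14) (nat_lit 33) (nat_lit 0x2f00005e0000bf9d817feadaff080) b24612 (.hit (nat_lit 15) (nat_lit 34) (nat_lit 0x2f00005e0000bf97217f82f2ff15b) b24613 (.nil))) (.tok (nat_lit 43) (nat_lit 0x2f00005e0000c097e981d3fb029f7)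 (.hit (nat_lit 16) (nat_lit 35) (nat_lit 0x2f00005e0000c097e981d3fb029f7) b24616 (.hit (nat_lit 17) (nat_lit 36) (nat_lit 0x2f00005e0000bf59a17f32e2fdf8f) b24617 (.nil))) (.tok (nat_lit 46) (nat_lit 0x2f00005e0000bfe3c1800a9b00205) (.hit (nat_lit 18) (nat_lit 37) (nat_lit 0x2f00005e0000bf5c6d7f050afdf60) b24614 (.hit (nat_lit 19) (nat_lit 38) (nat_lit 0x2f00005e0000bfe3c1800a9b00205) b24615 (.nil))) (.nil)))))) (.tok (nat_lit 9) (nat_lit 0x2f00005e0000bfe1597fc6aaff042) (.hit (nat_lit 0) (nat_lit 0) (nat_lit 0x2f00005e0000bfe1597fc6aaff042) b24600 (.tok (nat_lit 3) (nat_lit 0x2f00005e0000bf27cd7e9bcafd238) (.hit (nat_lit 1) (nat_lit 1) (nat_lit 0x2f00005e0000bec3b97dd3a2fb933) b24601 (.one (nat_lit 14) (nat_lit 2) (nat_lit 4) (nat_lit 0x2f00005e0000bf27cd7e9bcafd238) b24602 (.nil))) (.tok (nat_lit 40) (nat_lit 0x2f00005e0000bf4a6d7ee10afdae0) (.hit (nat_lit 4) (nat_lit 33) (nat_lit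 0x2f00005e0000bf34557eb4dafd55a) b24603 (.hit (nat_lit 5) (nat_lit 34) (nat_lit 0x2f00005e0000bf4a6d7ee10afdae0) b24604 (.nil))) (.tok (nat_lit 43) (nat_lit 0x2f00005e0000bf787d7f3d2afe664) (.hit (nat_lit 6) (nat_lit 35) (nat_lit 0x2f00005e0000bf787d7f3d2afe664) b24607 (.hit (nat_lit 7) (nat_lit 36) (nat_lit 0x2f00005e0000bf6ae97f2202fe2ff) b24608 (.nil))) (.tok (nat_lit 46) (nat_lit 0x2f00005e0000bf7bd97f43e2fe73b) (.hit (nat_lit 8) (nat_lit 37) (nat_lit 0x2f00005e0000bf7bd97f43e2fe73b) b24605 (.hit (nat_lit 9) (nat_lit 38) (nat_lit 0x2f00005e0000bf656d7f170afe1a0) b24606 (.nil))) (.nil)))))) (.nil))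
noncomputable def r25_25 : Rw Blk := .tok (nat_lit 6) (nat_lit 0x1780002f00005fe9c4bfbbd57f5142ff37f) (.hit (nat_lit 10) (nat_lit 0) (nat_lit 0x1780002f00005fbaecbf80757ec58afdc8e) b24627 (.tok (nat_lit 3) (nat_lit 0x1780002f00005fcd6cbf6ef57ec84afd8b9) (.hit (nat_lit 11) (nat_lit 1) (nat_lit 0x1780002f00005f8d4abf01e57df8c2fb902) b24628 (.one (nat_lit 14) (nat_lit 12) (nat_lit 4) (nat_lit 0x1780002f00005fcd6cbf6ef57ec84afd8b9) b24629 (.nil))) (.tok (nat_lit 40) (nat_lit 0x1780002f00005fbd8ebf85d97ee22afdd68) (.hit (nat_lit 14) (nat_lit 33) (nat_lit 0x1780002f00005fbd8ebf85d97ee22afdd68) b24630 (.hit (nat_lit 15) (nat_lit 34) (nat_lit 0x1780002f00005fb184bf3c6d7e4deafd53e) b24631 (.nil))) (.tok (nat_lit 43) (nat_lit 0x1780002f00005fe9c4bfbbd57f5142ff37f) (.hit (nat_lit 16) (nat_lit 35) (nat_lit 0x1780002f00005fe9c4bfbbd57f5142ff37f) b24634 (.hit (nat_lit 17) (nat_lit 36) (nat_lit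 0x1780002f00005fa820bf41dd7e6a52fd7ac) b24635 (.nil))) (.tok (nat_lit 46) (nat_lit 0x1780002f00005fe0eabf96797f148afea05) (.hit (nat_lit 18) (nat_lit 37) (nat_lit 0x1780002f00005f9964bf1c7d7e2b1afd202) b24632 (.hit (nat_lit 19) (nat_lit 38) (nat_lit 0x1780002f00005fe0eabf96797f148afea05) b24633 (.nil))) (.nil)))))) (.tok (nat_lit 9) (nat_lit 0x1780002f000060002cc01211801d3b0005d) (.hit (nat_lit 0) (nat_lit 0) (nat_lit 0x1780002f00005fe9f2bfb41d7f5622feb61) b24618 (.tok (nat_lit 3) (nat_lit 0x1780002f00005ff7eac00551801d3aff50b) (.hit (nat_lit 1) (nat_lit 1) (nat_lit 0x1780002f00005f9a3cbf1e697e0c82fc7fc) b24619 (.one (nat_lit 14) (nat_lit 2) (nat_lit 4) (nat_lit 0x1780002f00005ff7eac00551801d3aff50b) b24620 (.nil))) (.tok (nat_lit 40) (nat_lit 0x1780002f00005fdd9cbfeb317fdc32ff2e5) (.hit (nat_lit 4) (nat_lit 33) (nat_lit 0x1780002f00005fd51ebfeb317fdc32ff2e5) b24621 (.hit (nat_lit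 5) (nat_lit 34) (nat_lit 0x1780002f00005fdd9cbfd99d7fc00afefdd) b24622 (.nil))) (.tok (nat_lit 43) (nat_lit 0x1780002f000060002cbfe2097fbdf2ffdcd) (.hit (nat_lit 6) (nat_lit 35) (nat_lit 0x1780002f00005fb9c8bf5d457eacaafe234) b24625 (.hit (nat_lit 7) (nat_lit 36) (nat_lit 0x1780002f000060002cbfe2097fbdf2ffdcd) b24626 (.nil))) (.tok (nat_lit 46) (nat_lit 0x1780002f00005ff406c012117fc4930005d) (.hit (nat_lit 8) (nat_lit 37) (nat_lit 0x1780002f00005ff406c012117fc4930005d) b24623 (.hit (nat_lit 9) (nat_lit 38) (nat_lit 0x1780002f00005fc7c8bfc4097f577afedff) b24624 (.nil))) (.nil)))))) (.nil))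
noncomputable def r25_26 : Rw Blk := .tok (nat_lit 3) (nat_lit 0xbf8a3d7f5642ffcd05fc4a6bf7e317f78daff6af5fe27cc029057f1f0afffd9600c4abfdd5d7fd3e2ff44f) (.hit (nat_lit 15) (nat_lit 0) (nat_lit 0xbf858d7f4c1aff7bd5fc4a6bf7e317f78daff6af5fe27cc029057f1f0aff38d5fee0abf57097fd3e2ff2c8) b24650 (.tok (nat_lit 9) (nat_lit 0xbf8a3d7f5642ffcd05fa61cbf6db57f71e2fd9bd5fb6debfb9357ea842fffd9600c4abfdd5d7fb902ff44f) (.hit (nat_lit 16) (nat_lit 20) (nat_lit 0xbf1c457ebd92fdc595f6f20beffbd7eefeafbe3f5f7fe2bf137d7d9f3afe61d5fd9a0bf28697f4872fe01d) b24651 (.hit (nat_lit 21) (nat_lit 28) (nat_lit 0xbeae617e571afcc6a5f382ebe91d97e8baafa2c65f48f0bf3b657d61fafbf8a5f9874beab6d7e6602fc63c) b24656 (.tok (nat_lit 14) (nat_lit 0xbf5b1d7f5642ffcd05f8e8cbf3e957f71e2fcdf55f9f4ebfb9357ea842fffd9600c4abfdd5d7fb902ff44f) (.hit (nat_lit 17) (nat_lit 24) (nat_lit 0xbf51657f0df2fef205f89b0bf34dd7f2e7afcb875f9a72bf5a857e097aff4365feaacbfb1c17f75aafe91e)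 b24652 (.hit (nat_lit 22) (nat_lit 30) (nat_lit 0xbf4fe17f3722fe8f45f88eebf33597f71e2fcb265f99b0bfb9357ea842fe0755fc8ecbf41157f1a3afe827) b24657 (.one (nat_lit 6) (nat_lit 18) (nat_lit 25) (nat_lit 0xbf5b1d7f5642ffcd05f8e8cbf3e957f4d22fcdf55f9f4ebf70a97e270afffd9600c4abfdd5d7fb902ff44f) b24653 (.nil)))) (.one (nat_lit 56) (nat_lit 23) (nat_lit 31) (nat_lit 0xbf746d7f29bafe45f5f9b34bf57e57f0bf2fd4495fabf6bfa3997e7f32fe6ce5fc7cebf3d597f477afe225) b24658 (.tok (nat_lit 68) (nat_lit 0xbf8a3d7f109affcca5fa61cbf6db57f53e2fd9bd5fb6debf81757e7b2afec675fefd2bf71617f9c8afe658) (.hit (nat_lit 19) (nat_lit 26) (nat_lit 0xbf3d857ef5eafe3325f7fc0bf20fd7ec55afc68f5f9082bf34bd7de1bafe93c5fbdc6bf1e157ed95afd4df) b24654 (.hit (nat_lit 24) (nat_lit 32) (nat_lit 0xbf31957ec59afdc525f79c8bf150d7eb472fc3935f8a8abf4e917dc9dafd99e5fb576bf07a97eefe2fd673) b24659 (.one (nat_lit 9) (nat_lit 20) (nat_lit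 27) (nat_lit 0xbf8a3d7f109affcca5fa61cbf6db57f53e2fd9bd5fb6debf81757e7b2afec675fefd2bf71617f9c8afe658) b24655 (.nil)))) (.nil)))))) (.nil))) (.tok (nat_lit 6) (nat_lit 0xc08c1181146303257603a02c05d5181007b026c1605d9ac096b98143cb030ff605854c02849817a6302b4d) (.hit (nat_lit 0) (nat_lit 0) (nat_lit 0xbffd6d80d5bb019eb5ffc4ebffecd80b1f3007a4601bf4c03fd97f8caaffe00600cb0bf8ef1803c7b00acd) b24636 (.tok (nat_lit 6) (nat_lit 0xc048ed80464b0224c603a02c0577981007b011e9603166c082d57fd8fb030ff605854c02849817a6302b4d) (.hit (nat_lit 1) (nat_lit 7) (nat_lit 0xbfdc757ec73afe46b60004cbfef6d7f7fbafec705fe544bfba417ea78afea375fba5cbeea257f1c42fed22) b24637 (.hit (nat_lit 4) (nat_lit 15) (nat_lit 0xbf444d7ed7f2fe16d5fa932bf5cdd7eb8c2fd8435fc350bf80e97e15b2fce4f5fa922beabe17ebd2afdc9e) b24640 (.tok (nat_lit 14) (nat_lit 0xc048ed80464b0224c603a02c0577981007b011e9603166c082d57fd8fb030ff605854c02849817a6302b4d)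 (.hit (nat_lit 2) (nat_lit 11) (nat_lit 0xc048ed80136300e61603a02c057797fe84b004a2601c44c050257fb1baff94a5fe7fcbf48b17fd0d3017f4) b24638 (.hit (nat_lit 5) (nat_lit 17) (nat_lit 0xbf72217fc3a2fee7c5fba3abf79bd7fb18afef965fe93ebfe8417f42d2fe1985fcbfcbf0c617f47eaff629) b24641 (.one (nat_lit 9) (nat_lit 3) (nat_lit 12) (nat_lit 0xc025d980464b0224c601346c02a9d81007b011e9603166c082d57fd8fb030ff605854c02849817a6302b4d) b24639 (.nil)))) (.nil)))) (.tok (nat_lit 52) (nat_lit 0xc08c1180a9db0177d60337cc05d51800f2b026c1605d9ac07a658143caff46d5ffa54bf4cfd7fe5b3029af) (.hit (nat_lit 7) (nat_lit 39) (nat_lit 0xc08c1180a9db0177d60337cc05d517f22bb026c1605d9ac07a658143caff46d5ffa54bf4cfd7fe5b3029af) b24642 (.hit (nat_lit 8) (nat_lit 40) (nat_lit 0xc042918020c2fffd3601af2c044c1800f2b0028560053ec032c57ff142ff23e5fe5aabf446d7faea3003c9) b24643 (.nil))) (.tok (nat_lit 55) (nat_lit 0xc06ddd81146303257603790c047c180b0fb02682605c44c096b98104630294b602732bfda9980d643026e7)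 (.hit (nat_lit 9) (nat_lit 41) (nat_lit 0xc06ddd81146303257602e3ac047c180b0fb02682605c44c096b981046300e23600622bfb0c5805fe3026e7) b24644 (.tok (nat_lit 3) (nat_lit 0xc052757ff27b00a87603342c0440180867301300601db0c048c97fd8b30170e601d92bfb7f980a0eb016bf) (.hit (nat_lit 12) (nat_lit 47) (nat_lit 0xc052597fa482ffefc6024ecc042b9804c2b00d926011b4c01d157fd8b3003525ff648bf77457ff24b00b6e) b24647 (.one (nat_lit 67) (nat_lit 13) (nat_lit 48) (nat_lit 0xc052757ff27b00a87603342c0440180867301300601db0c048c97fc2c30170e601d92bfb7f980a0eb016bf) b24648 (.nil))) (.tok (nat_lit 6) (nat_lit 0xc03225804e1b01b8e603790c03c698025cb00fab602c70c0396580ae130294b602732bfda9980d643018c5) (.hit (nat_lit 10) (nat_lit 42) (nat_lit 0xbfe19d804e1b015085fc4e4bfc0e57f650b00e8a602c70c0396580ae12ffe7b5ff6dcbf76e180208b00eb6) b24645 (.hit (nat_lit 11) (nat_lit 45) (nat_lit 0xc032257ffe9301b8e603790c03c698025cb00fab6019f6c033f97fa14b0294b602732bfda9980d643018c5)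 b24646 (.nil))) (.nil)))) (.one (nat_lit 58) (nat_lit 14) (nat_lit 49) (nat_lit 0xc0179180426affe7e600b2cc0252d7fe3430082e602df2c057298036eaff5c460061ebf59118010e300ef0) b24649 (.nil)))))) (.nil))
noncomputable def r25_27 : Rw Blk := .tok (nat_lit 6) (nat_lit 0x1780003039f2608cb6c121918233ab040c6) (.hit (nat_lit 18) (nat_lit 0) (nat_lit 0x1780002ff72a5ffdb0c00341801f0afffbf) b24675 (.tok (nat_lit 14) (nat_lit 0x178000301b2b60310cc08589817b9302c2f) (.hit (nat_lit 19) (nat_lit 61) (nat_lit 0x1780003000de60310cc05005811753026fe) b24676 (.one (nat_lit 3) (nat_lit 20) (nat_lit 62) (nat_lit 0x1780002ffb4960080ac0634180eddb01c01) b24677 (.tok (nat_lit 6) (nat_lit 0x1780002fee045fdec4c00b29802b6b006e9) (.hit (nat_lit 23) (nat_lit 65) (nat_lit 0x1780002fe0925fc0aebf6ea97efd2afdd99) b24678 (.hit (nat_lit 24) (nat_lit 66) (nat_lit 0x1780002fee045fdec4c00b29802b6b006e9) b24679 (.nil))) (.tok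 (nat_lit 9) (nat_lit 0x178000301b2b602f6ac08589817b9302c2f) (.hit (nat_lit 21) (nat_lit 63) (nat_lit 0x178000301b2b602f6ac08589817b9302c2f) b24680 (.hit (nat_lit 22) (nat_lit 64) (nat_lit 0x1780002ff21f5fe4f8c018d980431300677) b24681 (.nil))) (.nil))))) (.one (nat_lit 17) (nat_lit 25) (nat_lit 67) (nat_lit 0x1780002ff4d05ffa68c000f180cd1300e59) b24682 (.tok (nat_lit 20) (nat_lit 0x1780003039f2608cb6c121918233ab040c6) (.hit (nat_lit 26) (nat_lit 68) (nat_lit 0x1780003039f2608cb6c121918233ab040c6) b24685 (.hit (nat_lit 27) (nat_lit 69) (nat_lit 0x1780002fdecd5fc420bf8bcd7f48b2fea9a) b24686 (.nil))) (.tok (nat_lit 23) (nat_lit 0x1780002fe5c95fcecebfb7e97fb822ff2e7) (.hit (nat_lit 28) (nat_lit 70) (nat_lit 0x1780002fded75fbd38bf67bd7eef52fdbde) b24683 (.hit (nat_lit 29) (nat_lit 71) (nat_lit 0x1780002fe5c95fcecebfb7e97fb822ff2e7) b24684 (.nil))) (.one (nat_lit 26) (nat_lit 30) (nat_lit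 72) (nat_lit 0x1780002fe13c5fc16abfa9ad7faec2fedef) b24687 (.one (nat_lit 29) (nat_lit 31) (nat_lit 73) (nat_lit 0x1780002fe6e15fe4ecbffd1580478b003fe) b24688 (.one (nat_lit 32) (nat_lit 32) (nat_lit 74) (nat_lit 0x1780002fdfa05fbb26bf72217f2922fe40c) b24690 (.one (nat_lit 35) (nat_lit 33) (nat_lit 75) (nat_lit 0x1780002fee155fe440c007ed806e83004d7) b24689 (.one (nat_lit 38) (nat_lit 34) (nat_lit 76) (nat_lit 0x1780002fe4655fc886bf8ef17f2e82fe8ae) b24691 (.tok (nat_lit 41) (nat_lit 0x1780002ff02f5ff76ec00ffd80c16300d71) (.hit (nat_lit 35) (nat_lit 77) (nat_lit 0x1780002fd7625fbd54bfc9fd7f5f2aff2fe) b24692 (.hit (nat_lit 36) (nat_lit 78) (nat_lit 0x1780002ff02f5ff76ec00ffd80c16300d71) b24693 (.nil))) (.tok (nat_lit 44) (nat_lit 0x1780002fdfce5ff2fabffa097ff40b0035a) (.hit (nat_lit 37) (nat_lit 79) (nat_lit 0x1780002fdfce5ff2fabffa097ff40b0035a) b24696 (.hit (nat_lit 38) (nat_lit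 80) (nat_lit 0x1780002fd7925fca0cbf9eb97f995aff162) b24697 (.nil))) (.tok (nat_lit 47) (nat_lit 0x1780002fe8a25fdaccbf7d597ffa62ff1ef) (.hit (nat_lit 39) (nat_lit 81) (nat_lit 0x1780002fcbf85f977abf1c417e585afc8ff) b24694 (.hit (nat_lit 40) (nat_lit 82) (nat_lit 0x1780002fe8a25fdaccbf7d597ffa62ff1ef) b24695 (.nil))) (.nil)))))))))))))) (.tok (nat_lit 52) (nat_lit 0x1780003023b7605070c0bc8d81734b029c6) (.hit (nat_lit 13) (nat_lit 0) (nat_lit 0x178000301ebf605070c08f6981433b0222a) b24670 (.tok (nat_lit 6) (nat_lit 0x1780003023b7602f98c0bc8d81734b029c6) (.hit (nat_lit 14) (nat_lit 7) (nat_lit 0x178000301b4e602650c0a5218158a302955) b24673 (.hit (nat_lit 15) (nat_lit 15) (nat_lit 0x1780003023b7602f98c0bc8d81734b029c6) b24674 (.nil))) (.tok (nat_lit 9) (nat_lit 0x1780002ffdc95fe54cc010218020b2ffc5e) (.hit (nat_lit 16) (nat_lit 20) (nat_lit 0x1780002fe2635fc450bfc4c17f70d2fe753) b24671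 (.hit (nat_lit 17) (nat_lit 28) (nat_lit 0x1780002ffdc95fe54cc010218020b2ffc5e) b24672 (.nil))) (.nil)))) (.tok (nat_lit 55) (nat_lit 0x1780002ffc105ff68ec0293d8039cb00072) (.hit (nat_lit 8) (nat_lit 0) (nat_lit 0x1780002ffc105ff14ac01eb58024baffdd0) b24665 (.tok (nat_lit 3) (nat_lit 0x1780002ffb065ff596c0274d8035eaffff6) (.hit (nat_lit 9) (nat_lit 1) (nat_lit 0x1780002feac35fd510bfe6417fb3d2fefb3) b24666 (.one (nat_lit 67) (nat_lit 10) (nat_lit 2) (nat_lit 0x1780002ffb065ff596c0274d8035eaffff6) b24667 (.nil))) (.tok (nat_lit 6) (nat_lit 0x1780002ffb825ff68ec0293d8039cb00072) (.hit (nat_lit 11) (nat_lit 7) (nat_lit 0x1780002ffb825ff68ec0293d8039cb00072) b24668 (.hit (nat_lit 12) (nat_lit 15) (nat_lit 0x1780002fe6bc5fcd02bfd6257f939afebac) b24669 (.nil))) (.nil)))) (.tok (nat_lit 58) (nat_lit 0x1780003011b16022ecc081f980eb43016a1) (.hit (nat_lit 0) (nat_lit 0) (nat_lit 0x178000300ee35ffc10c04f7d80943301072)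 b24660 (.tok (nat_lit 3) (nat_lit 0x1780003011b16022ecc081f980eb43016a1) (.hit (nat_lit 1) (nat_lit 1) (nat_lit 0x1780002ffd885ffa9ac031558049fb00278) b24661 (.one (nat_lit 55) (nat_lit 2) (nat_lit 3) (nat_lit 0x1780003011b16022ecc081f980eb43016a1) b24662 (.nil))) (.tok (nat_lit 9) (nat_lit 0x1780002ffad75ff538c02691803472fffc7) (.hit (nat_lit 3) (nat_lit 20) (nat_lit 0x1780002ff8c55ff114c01e498023e2ffdb5) b24663 (.hit (nat_lit 6) (nat_lit 28) (nat_lit 0x1780002ffad75ff538c02691803472fffc7) b24664 (.nil))) (.nil)))) (.nil))))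
noncomputable def r25_28 : Rw Blk := .tok (nat_lit 3) (nat_lit 0x1780003032ff605c7ac0ab1180f5ab02f91) (.hit (nat_lit 0) (nat_lit 0) (nat_lit 0x1780003032ff605b98c0ab1180c30b02ef9) b24698 (.tok (nat_lit 9) (nat_lit 0x1780003000106026e4c073fd8059c301f62) (.hit (nat_lit 1) (nat_lit 20) (nat_lit 0x1780002fe6db5fd2cebfb68d7eddb2fea12) b24699 (.hit (nat_lit 6) (nat_lit 28) (nat_lit 0x1780002fe5e25fe27cbfd3c97f0a02ff47c) b24702 (.tok (nat_lit 14) (nat_lit 0x1780003000106026e4c073fd8059c301f62) (.hit (nat_lit 2) (nat_lit 24) (nat_lit 0x1780002ffef060126ac016e17fdc23009e0) b24700 (.hit (nat_lit 7) (nat_lit 30) (nat_lit 0x178000300010601a28c073fd8059c301f62) b24703 (.one (nat_lit 6) (nat_lit 3) (nat_lit 25) (nat_lit 0x1780002ffb816026e4c02cb5802e0b0141d) b24701 (.nil)))) (.nil)))) (.tok (nat_lit 64) (nat_lit 0x178000300f3c604318c0a14d80d44302e53) (.hit (nat_lit 9) (nat_lit 50) (nat_lit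 0x178000300f3c604318c08e75806b3b025e1) b24704 (.hit (nat_lit 10) (nat_lit 51) (nat_lit 0x17800030065b603164c0a14d80d44302e53) b24705 (.nil))) (.tok (nat_lit 67) (nat_lit 0x178000303106605c7ac0989980f5ab02f91) (.hit (nat_lit 11) (nat_lit 52) (nat_lit 0x178000303106605c7ac0989980f5ab02f91) b24706 (.tok (nat_lit 3) (nat_lit 0x178000300c9b603754c04d95806fcb01c55) (.hit (nat_lit 17) (nat_lit 58) (nat_lit 0x178000300c9b602c50c04d8d8043bb016d3) b24709 (.one (nat_lit 55) (nat_lit 18) (nat_lit 59) (nat_lit 0x1780003008e0603754c04d95806fcb01c55) b24710 (.nil))) (.tok (nat_lit 9) (nat_lit 0x178000300750602368c0386180201b0125f) (.hit (nat_lit 12) (nat_lit 53) (nat_lit 0x178000300750602368c0386180201b0125f) b24707 (.hit (nat_lit 15) (nat_lit 56) (nat_lit 0x178000300671601f3ec034e5800f730104a) b24708 (.nil))) (.nil)))) (.one (nat_lit 70) (nat_lit 19) (nat_lit 60) (nat_lit 0x1780002fff25601128c0615980415b019a1)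 b24711 (.nil)))))) (.tok (nat_lit 6) (nat_lit 0x178000303a2e6071e0c10a458192f30369e) (.hit (nat_lit 20) (nat_lit 0) (nat_lit 0x17800030360560648ac0767580d37b01e21) b24712 (.tok (nat_lit 6) (nat_lit 0x178000303a2e6071e0c10a458192f30369e) (.hit (nat_lit 21) (nat_lit 7) (nat_lit 0x178000301ef66040b4c0859180c89301bb9) b24713 (.hit (nat_lit 24) (nat_lit 15) (nat_lit 0x17800030107c601f3ec0866d80f9bb01644) b24716 (.tok (nat_lit 14) (nat_lit 0x178000303a2e6071e0c0aa49811dab02542) (.hit (nat_lit 22) (nat_lit 11) (nat_lit 0x178000302d16605adcc0961180e8f302036) b24714 (.hit (nat_lit 25) (nat_lit 17) (nat_lit 0x1780003027176046dcc0861580a243017b2) b24717 (.one (nat_lit 9) (nat_lit 23) (nat_lit 12) (nat_lit 0x178000303a2e6071e0c0aa49811dab02542) b24715 (.nil)))) (.one (nat_lit 68) (nat_lit 26) (nat_lit 18) (nat_lit 0x178000303845606d56c10a458192f30369e) b24718 (.nil))))) (.nil))) (.nil))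
noncomputable def r25_29 : Rw Blk := .tok (nat_lit 6) (nat_lit 0x1780002f000060bfa8c12d4d82d2bb067ad) (.hit (nat_lit 0) (nat_lit 0) (nat_lit 0x1780002f0000603b00c08425814bb302429) b24719 (.tok (nat_lit 14) (nat_lit 0x1780002f000060bfa8c12d4d827a2b067ad) (.hit (nat_lit 1) (nat_lit 61) (nat_lit 0x1780002f0000606b92c0a3318162f3029a3) b24720 (.one (nat_lit 3) (nat_lit 2) (nat_lit 62) (nat_lit 0x1780002f0000604a04c08b658111030289f) b24721 (.tok (nat_lit 6) (nat_lit 0x1780002f0000604548c087a180fa730263b) (.hit (nat_lit 5) (nat_lit 65) (nat_lit 0x1780002f0000604548c087a180fa730263b) b24722 (.hit (nat_lit 6) (nat_lit 66) (nat_lit 0x1780002f0000600f84c024e180564301130) b24723 (.nil))) (.tok (nat_lit 9) (nat_lit 0x1780002f000060bfa8c12d4d827a2b067ad) (.hit (nat_lit 3) (nat_lit 63) (nat_lit 0x1780002f000060bfa8c12d4d827a2b067ad) b24724 (.hit (nat_lit 4) (nat_lit 64) (nat_lit 0x1780002f0000603b66c043cd806cd3011f9)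 b24725 (.nil))) (.nil))))) (.one (nat_lit 17) (nat_lit 7) (nat_lit 67) (nat_lit 0x1780002f0000602ab8c05dd180ae6b0181f) b24726 (.tok (nat_lit 20) (nat_lit 0x1780002f000060a2d6c0d9f982d2bb04c9e) (.hit (nat_lit 8) (nat_lit 68) (nat_lit 0x1780002f000060a2d6c0d9f982d2bb04c9e) b24729 (.hit (nat_lit 9) (nat_lit 69) (nat_lit 0x1780002f0000602672c01ce180767300e5f) b24730 (.nil))) (.tok (nat_lit 23) (nat_lit 0x1780002f0000601bd2c034b580593b01180) (.hit (nat_lit 10) (nat_lit 70) (nat_lit 0x1780002f0000601bd2c034b580549b01180) b24727 (.hit (nat_lit 11) (nat_lit 71) (nat_lit 0x1780002f00006010ccc02a5980593b00ced) b24728 (.nil))) (.one (nat_lit 62) (nat_lit 19) (nat_lit 92) (nat_lit 0x1780002f000060330ec0703181435b023a1) b24731 (.tok (nat_lit 65) (nat_lit 0x1780002f000060279ec07b3581388302389) (.hit (nat_lit 20) (nat_lit 93) (nat_lit 0x1780002f0000600546c038b9807cd301519) b24732 (.hit (nat_lit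 21) (nat_lit 94) (nat_lit 0x1780002f000060279ec07b3581388302389) b24733 (.nil))) (.tok (nat_lit 68) (nat_lit 0x1780002f00006064b8c0f8e581c0bb03afe) (.hit (nat_lit 22) (nat_lit 95) (nat_lit 0x1780002f00006064b8c0f8e581c0bb03afe) b24734 (.one (nat_lit 3) (nat_lit 26) (nat_lit 99) (nat_lit 0x1780002f0000602a8cc05229808f83018dd) b24738 (.one (nat_lit 6) (nat_lit 23) (nat_lit 96) (nat_lit 0x1780002f0000603148c05fa180aa7301c3b) b24735 (.tok (nat_lit 9) (nat_lit 0x1780002f0000601c12c0353580559b011a0) (.hit (nat_lit 24) (nat_lit 97) (nat_lit 0x1780002f0000601c12c0353580559b011a0) b24736 (.hit (nat_lit 25) (nat_lit 98) (nat_lit 0x1780002f0000601008c01d2180257300b9b) b24737 (.nil))) (.nil))))) (.one (nat_lit 71) (nat_lit 27) (nat_lit 100) (nat_lit 0x1780002f00005ffa10c009b980266300556) b24739 (.nil)))))))))) (.nil)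
noncomputable def r25_30 : Rw Blk := .tok (nat_lit 6) (nat_lit 0xbc0001780003033156077aec0cd05820d1304232) (.hit (nat_lit 18) (nat_lit 0) (nat_lit 0xbc0001780002fdec35fd1f6bf52217f296afe822) b24755 (.tok (nat_lit 14) (nat_lit 0xbc0001780003033156077aec0cd05820d1304232) (.hit (nat_lit 19) (nat_lit 61) (nat_lit 0xbc0001780003003c3600c30bfdb118043c2ffd50) b24756 (.one (nat_lit 3) (nat_lit 20) (nat_lit 62) (nat_lit 0xbc0001780002ff1a35ff006bf9b357f9972fef8d) b24757 (.tok (nat_lit 6) (nat_lit 0xbc0001780002fe6ee5fd32ebf61217f2bcafe37a) (.hit (nat_lit 23) (nat_lit 65) (nat_lit 0xbc0001780002fe1be5fc0d2bf16b57e9caafe113) b24758 (.hit (nat_lit 24) (nat_lit 66) (nat_lit 0xbc0001780002fe6ee5fd32ebf61217f2bcafe37a) b24759 (.nil))) (.tok (nat_lit 9) (nat_lit 0xbc0001780003033156077aec0cd05820d1304232) (.hit (nat_lit 21) (nat_lit 63) (nat_lit 0xbc0001780003033156077aec0cd05820d1304232) b24760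 (.hit (nat_lit 22) (nat_lit 64) (nat_lit 0xbc0001780002ff2d55ff9c4bfa7817fa08aff45e) b24761 (.nil))) (.nil))))) (.one (nat_lit 17) (nat_lit 25) (nat_lit 67) (nat_lit 0xbc0001780002fe9525fb7ccbf369d7ea1aafe0e0) b24762 (.tok (nat_lit 20) (nat_lit 0xbc00017800030138b60232ec015f98045f300f9e) (.hit (nat_lit 26) (nat_lit 68) (nat_lit 0xbc00017800030138b60232ec015f98045f300f9e) b24765 (.hit (nat_lit 27) (nat_lit 69) (nat_lit 0xbc0001780002fe4f95fab54bf1a117e8b0afda9b) b24766 (.nil))) (.tok (nat_lit 23) (nat_lit 0xbc0001780002fe67b5fc58abf47217edcf2fe72e) (.hit (nat_lit 28) (nat_lit 70) (nat_lit 0xbc0001780002fd6005fa956bee7bd7e3ebafd555) b24763 (.hit (nat_lit 29) (nat_lit 71) (nat_lit 0xbc0001780002fe67b5fc58abf47217edcf2fe72e) b24764 (.nil))) (.one (nat_lit 26) (nat_lit 30) (nat_lit 72) (nat_lit 0xbc0001780002fe92f5fa9c8bf1e657e7d8afd9bd) b24767 (.one (nat_lit 29) (nat_lit 31) (nat_lit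 73) (nat_lit 0xbc0001780002fea9b5fbc90bf418d7ec70afe328) b24768 (.one (nat_lit 32) (nat_lit 32) (nat_lit 74) (nat_lit 0xbc0001780002fe1915f9920bef7f57e4e72fd170) b24770 (.one (nat_lit 35) (nat_lit 33) (nat_lit 75) (nat_lit 0xbc0001780002ff1955fb8e8bf3cfd7eb76afe14f) b24769 (.one (nat_lit 38) (nat_lit 34) (nat_lit 76) (nat_lit 0xbc0001780002fe5205fa9d6bf05397e59cafdb1a) b24771 (.tok (nat_lit 41) (nat_lit 0xbc0001780002fe2eb5fbc44bf38597eae2afe1f4) (.hit (nat_lit 35) (nat_lit 77) (nat_lit 0xbc0001780002fd89b5fbc44bf2c797eae2afda35) b24772 (.hit (nat_lit 36) (nat_lit 78) (nat_lit 0xbc0001780002fe2eb5fb9f4bf38597ea952fe1f4) b24773 (.nil))) (.tok (nat_lit 44) (nat_lit 0xbc0001780002fdbcb5fb7c4bf30dd7ead1afda61) (.hit (nat_lit 37) (nat_lit 79) (nat_lit 0xbc0001780002fd7c55fb7c4bf30dd7ead1afd72a) b24776 (.hit (nat_lit 38) (nat_lit 80) (nat_lit 0xbc0001780002fdbcb5faaaebf1e197e71eafda61)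 b24777 (.nil))) (.tok (nat_lit 47) (nat_lit 0xbc0001780002fe2dc5f9a7cbef3517e4bbafd815) (.hit (nat_lit 39) (nat_lit 81) (nat_lit 0xbc0001780002fbc655f7620be81517d71e2fbbba) b24774 (.hit (nat_lit 40) (nat_lit 82) (nat_lit 0xbc0001780002fe2dc5f9a7cbef3517e4bbafd815) b24775 (.nil))) (.nil)))))))))))))) (.tok (nat_lit 52) (nat_lit 0xbc0001780003025c1604ef2c03f3d80f80302d85) (.hit (nat_lit 13) (nat_lit 0) (nat_lit 0xbc0001780003016ab6024bcbfde9d802b5b01391) b24750 (.tok (nat_lit 6) (nat_lit 0xbc0001780003025c1604ef2c03f3d80f80302d85) (.hit (nat_lit 14) (nat_lit 7) (nat_lit 0xbc000178000302228604ef2c037c180e98b026ed) b24753 (.hit (nat_lit 15) (nat_lit 15) (nat_lit 0xbc0001780003025c1604d40c03f3d80f80302d85) b24754 (.nil))) (.tok (nat_lit 9) (nat_lit 0xbc0001780002ffe975feb5ebf88697f7deaffd8e) (.hit (nat_lit 16) (nat_lit 20) (nat_lit 0xbc0001780002fea445fd634bf31997ede4afe526) b24751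 (.hit (nat_lit 17) (nat_lit 28) (nat_lit 0xbc0001780002ffe975feb5ebf88697f7deaffd8e) b24752 (.nil))) (.nil)))) (.tok (nat_lit 55) (nat_lit 0xbc00017800030073f60102abfa5857fc62300221) (.hit (nat_lit 8) (nat_lit 0) (nat_lit 0xbc0001780002ff8635fed62bf51117f153afec04) b24745 (.tok (nat_lit 3) (nat_lit 0xbc00017800030073f60102abfa5857fc62300221) (.hit (nat_lit 9) (nat_lit 1) (nat_lit 0xbc0001780002ff17f5fe4aabf4e857f1822fec61) b24746 (.one (nat_lit 67) (nat_lit 10) (nat_lit 2) (nat_lit 0xbc00017800030073f60102abfa5857fc62300221) b24747 (.nil))) (.tok (nat_lit 6) (nat_lit 0xbc0001780002ff1e55fe576bf501d7f1b52fecc7) (.hit (nat_lit 11) (nat_lit 7) (nat_lit 0xbc0001780002ff1e55fe576bf501d7f1b52fecc7) b24748 (.hit (nat_lit 12) (nat_lit 15) (nat_lit 0xbc0001780002fe5885fccbcbf1ea97eb86afe06a) b24749 (.nil))) (.nil)))) (.tok (nat_lit 58) (nat_lit 0xbc000178000300bad601906bfb73d7fe9930068f)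 (.hit (nat_lit 0) (nat_lit 0) (nat_lit 0xbc0001780003000276001fabf9e097facb2ffb09) b24740 (.tok (nat_lit 3) (nat_lit 0xbc000178000300bad601906bfb73d7fe9930068f) (.hit (nat_lit 1) (nat_lit 1) (nat_lit 0xbc0001780002ffabe5ff728bf73817f621aff5a0) b24741 (.one (nat_lit 55) (nat_lit 2) (nat_lit 3) (nat_lit 0xbc000178000300bad601906bfb73d7fe9930068f) b24742 (.nil))) (.tok (nat_lit 9) (nat_lit 0xbc00017800030073d601026bfa57d7fc6130021f) (.hit (nat_lit 3) (nat_lit 20) (nat_lit 0xbc00017800030073d601026bfa57d7fc6130021f) b24743 (.hit (nat_lit 6) (nat_lit 28) (nat_lit 0xbc0001780002ffa125ff5d0bf70d17f5cbaff4f4) b24744 (.nil))) (.nil)))) (.nil))))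
noncomputable def r25_31 : Rw Blk := .tok (nat_lit 3) (nat_lit 0xbc000178000303a28606f48c11f458233f3040f6) (.hit (nat_lit 0) (nat_lit 0) (nat_lit 0xbc000178000302363604ae0c099c1810953025dd) b24778 (.tok (nat_lit 9) (nat_lit 0xbc00017800030091a601990c04829807c3b0109a) (.hit (nat_lit 1) (nat_lit 20) (nat_lit 0xbc0001780002fec335fdfc2bfd48d7f9502ff3b3) b24779 (.hit (nat_lit 6) (nat_lit 28) (nat_lit 0xbc0001780002fe2ea5fcd30bfaf697f4abafea6a) b24782 (.tok (nat_lit 14) (nat_lit 0xbc00017800030091a601990c04829807c3b0109a) (.hit (nat_lit 2) (nat_lit 24) (nat_lit 0xbc0001780003005406011dcc038c1805d6b00cc0) b24780 (.hit (nat_lit 7) (nat_lit 30) (nat_lit 0xbc0001780002ffa7f5ffc5ac00dbd800763001ff) b24783 (.one (nat_lit 6) (nat_lit 3) (nat_lit 25) (nat_lit 0xbc00017800030091a601990c04829807c3b0109a) b24781 (.nil)))) (.nil)))) (.tok (nat_lit 64) (nat_lit 0xbc000178000301347602deac070dd80cda301ac7)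 (.hit (nat_lit 9) (nat_lit 50) (nat_lit 0xbc000178000301347602deac070dd80cda301ac7) b24784 (.hit (nat_lit 10) (nat_lit 51) (nat_lit 0xbc0001780003005b66012c8c03a9980611b00d36) b24785 (.nil))) (.tok (nat_lit 67) (nat_lit 0xbc000178000303a28606f48c11f458233f3040f6) (.hit (nat_lit 11) (nat_lit 52) (nat_lit 0xbc000178000303a28606f48c11f458233f3040f6) b24786 (.tok (nat_lit 3) (nat_lit 0xbc0001780003014c96030eec076e580d9b301c49) (.hit (nat_lit 17) (nat_lit 58) (nat_lit 0xbc000178000301253602c02c06d0d80c603019d3) b24789 (.one (nat_lit 55) (nat_lit 18) (nat_lit 59) (nat_lit 0xbc0001780003014c96030eec076e580d9b301c49) b24790 (.nil))) (.tok (nat_lit 9) (nat_lit 0xbc000178000300f66602628c0615980ae9b016e6) (.hit (nat_lit 12) (nat_lit 53) (nat_lit 0xbc000178000300f66602628c0615980ae9b016e6) b24787 (.hit (nat_lit 15) (nat_lit 56) (nat_lit 0xbc0001780003009f0601b3cc04b818082eb01170) b24788 (.nil)))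 (.nil)))) (.one (nat_lit 70) (nat_lit 19) (nat_lit 60) (nat_lit 0xbc0001780002ff89b5ff892c0062d7ff8430001b) b24791 (.nil)))))) (.tok (nat_lit 6) (nat_lit 0xbc0001780003058f160982ac1412182194b04867) (.hit (nat_lit 20) (nat_lit 0) (nat_lit 0xbc000178000302185603abcc0911d80d4f301d44) b24792 (.tok (nat_lit 6) (nat_lit 0xbc0001780003058f160982ac1412182194b04867) (.hit (nat_lit 21) (nat_lit 7) (nat_lit 0xbc000178000302f39606508c0e3d181190b02f5f) b24793 (.hit (nat_lit 24) (nat_lit 15) (nat_lit 0xbc000178000300440601578c02dd5804ca2ffbb1) b24796 (.tok (nat_lit 14) (nat_lit 0xbc0001780003058f160982ac1412182194b04867) (.hit (nat_lit 22) (nat_lit 11) (nat_lit 0xbc0001780003058f160982ac1412182194b04867) b24794 (.hit (nat_lit 25) (nat_lit 17) (nat_lit 0xbc000178000301531602d04c06da580babb00a26) b24797 (.one (nat_lit 9) (nat_lit 23) (nat_lit 12) (nat_lit 0xbc000178000303ac6604850c0c05d811ea303092)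 b24795 (.nil)))) (.one (nat_lit 68) (nat_lit 26) (nat_lit 18) (nat_lit 0xbc0001780003028a3605a9ec0b82d81563b0177e) b24798 (.nil))))) (.nil))) (.nil))
noncomputable def r25_32 : Rw Blk := .tok (nat_lit 9) (nat_lit 0xbc000178000300b766023c0c05015809a9b010be) (.hit (nat_lit 21) (nat_lit 0) (nat_lit 0xbc0001780002fe4525fd772bfa8857ef2a2fe84c) b24799 (.tok (nat_lit 14) (nat_lit 0xbc0001780003007516023c0c05015809a9b00a2b) (.hit (nat_lit 22) (nat_lit 61) (nat_lit 0xbc0001780002ff39c6002b2c00951801de2ffbf9) b24800 (.one (nat_lit 3) (nat_lit 23) (nat_lit 62) (nat_lit 0xbc0001780002fed0f5fe9e4bfd5057f25a2fed8a) b24801 (.tok (nat_lit 6) (nat_lit 0xbc0001780003007516023c0c05015809a9b00a2b) (.hit (nat_lit 26) (nat_lit 65) (nat_lit 0xbc0001780003007516023c0c05015809a9b00a2b) b24802 (.hit (nat_lit 27) (nat_lit 66) (nat_lit 0xbc0001780002ff11c5fe71abfe07d7f4bd2ff249) b24803 (.nil))) (.tok (nat_lit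 9) (nat_lit 0xbc0001780002fe72f5fed34bfd9557f08aafebd4) (.hit (nat_lit 24) (nat_lit 63) (nat_lit 0xbc0001780002fd62a5fe424bf8f817eca42febd4) b24804 (.hit (nat_lit 25) (nat_lit 64) (nat_lit 0xbc0001780002fe72f5fed34bfd9557f08aafeb87) b24805 (.nil))) (.nil))))) (.one (nat_lit 17) (nat_lit 28) (nat_lit 67) (nat_lit 0xbc0001780002fefd25fd642bf95697ecb62fe97b) b24806 (.tok (nat_lit 20) (nat_lit 0xbc0001780002ff4405fdb18bfa5797ee812fece3) (.hit (nat_lit 29) (nat_lit 68) (nat_lit 0xbc0001780002fc7f75fc7bebf56b57e58aafdda1) b24809 (.hit (nat_lit 30) (nat_lit 69) (nat_lit 0xbc0001780002ff4405fdb18bfa5797ee812fece3) b24810 (.nil))) (.tok (nat_lit 23) (nat_lit 0xbc0001780002fef61601ee8c024757fcb6b00e87) (.hit (nat_lit 31) (nat_lit 70) (nat_lit 0xbc0001780002fef61601ee8c024757fcb6b00e87) b24807 (.hit (nat_lit 32) (nat_lit 71) (nat_lit 0xbc0001780002fe4585fb3aebf56a17e47dafda48) b24808 (.nil)))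 (.one (nat_lit 50) (nat_lit 37) (nat_lit 83) (nat_lit 0xbc0001780002fe5e35fb2aabf5a1d7e4c32fd7d2) b24820 (.tok (nat_lit 53) (nat_lit 0xbc0001780002feb265fd898bf88857e93bafe089) (.hit (nat_lit 38) (nat_lit 84) (nat_lit 0xbc0001780002fdf9f5fd898bf88857e93bafe089) b24821 (.hit (nat_lit 39) (nat_lit 85) (nat_lit 0xbc0001780002feb265fc2a4bf6a197e5e2afdc24) b24822 (.nil))) (.tok (nat_lit 56) (nat_lit 0xbc0001780002fef8c5ff142bfbaed7f016aff263) (.hit (nat_lit 40) (nat_lit 86) (nat_lit 0xbc0001780002fef8c5ff142bfbaed7f016aff263) b24823 (.one (nat_lit 3) (nat_lit 44) (nat_lit 90) (nat_lit 0xbc0001780002fc9cc5fcb68bf5e097e6752fdf76) b24827 (.tok (nat_lit 6) (nat_lit 0xbc0001780002fd73c5fe648bf93c97ed2d2fece6) (.hit (nat_lit 42) (nat_lit 88) (nat_lit 0xbc0001780002fd73c5fe648bf93c97ed2d2fece6) b24825 (.hit (nat_lit 43) (nat_lit 89) (nat_lit 0xbc0001780002fced75fd57ebf72357e8faafe481) b24826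 (.nil))) (.one (nat_lit 9) (nat_lit 41) (nat_lit 87) (nat_lit 0xbc0001780002fcea65fd51cbf71717e8e22fe450) b24824 (.nil))))) (.one (nat_lit 59) (nat_lit 45) (nat_lit 91) (nat_lit 0xbc0001780002fe6925fb588bf6eb17e73f2fdceb) b24828 (.one (nat_lit 62) (nat_lit 46) (nat_lit 92) (nat_lit 0xbc0001780002fd6f85fac6abf45257dfd8afd4cc) b24811 (.tok (nat_lit 65) (nat_lit 0xbc0001780002fe7d25fe9ccbfbf297eee5afed20) (.hit (nat_lit 47) (nat_lit 93) (nat_lit 0xbc0001780002fe7d25fe9ccbfbf297eee5afed20) b24812 (.hit (nat_lit 48) (nat_lit 94) (nat_lit 0xbc0001780002fd0385fac32bf3db17e242afd5d0) b24813 (.nil))) (.tok (nat_lit 68) (nat_lit 0xbc000178000300b76601d92bffded7fddd3010be) (.hit (nat_lit 49) (nat_lit 95) (nat_lit 0xbc0001780003004c060083ebf9ecd7fddd3001f0) b24814 (.one (nat_lit 3) (nat_lit 53) (nat_lit 99) (nat_lit 0xbc0001780002ff5865ff7dcbfbf517f4a72ffce0) b24818 (.one (nat_lit 6) (nat_lit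 50) (nat_lit 96) (nat_lit 0xbc000178000300b76601d92bfe7ed7fddd3010be) b24815 (.tok (nat_lit 9) (nat_lit 0xbc0001780002ff31b5ff9d2bffded7fba72ff1f1) (.hit (nat_lit 51) (nat_lit 97) (nat_lit 0xbc0001780002ff31b5ff9d2bffded7fba72ff1f1) b24816 (.hit (nat_lit 52) (nat_lit 98) (nat_lit 0xbc0001780002fd96b5fc29abf68997e4c1afdc8a) b24817 (.nil))) (.nil))))) (.one (nat_lit 71) (nat_lit 54) (nat_lit 100) (nat_lit 0xbc0001780002fcfdb5fb782bf54a97e362afd7be) b24819 (.nil)))))))))))))) (.nil)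
noncomputable def r25_33 : Rw Blk := .tok (nat_lit 3) (nat_lit 0x1780002f00005fa4febf629d7f3622fe5e6) (.hit (nat_lit 15) (nat_lit 0) (nat_lit 0x1780002f00005fa4febf629d7f3622fe5e6) b24843 (.tok (nat_lit 6) (nat_lit 0x1780002f00005f92d2bf39d57ebb0afd318) (.hit (nat_lit 16) (nat_lit 7) (nat_lit 0x1780002f00005f4930bea6917d9482fae47) b24844 (.hit (nat_lit 21) (nat_lit 15) (nat_lit 0x1780002f00005f1e32be50957ce88af98c8) b24849 (.tok (nat_lit 14) (nat_lit 0x1780002f00005f8a8ebf294d7e99fafcef6) (.hit (nat_lit 17) (nat_lit 11) (nat_lit 0x1780002f00005f6fa2bef3757e2e4afc180) b24845 (.hit (nat_lit 22) (nat_lit 17) (nat_lit 0x1780002f00005f8a8ebf294d7e99fafcef6) b24850 (.one (nat_lit 9) (nat_lit 18) (nat_lit 12) (nat_lit 0x1780002f00005f82c4bf19b97e7ad2fcb11) b24846 (.nil)))) (.tok (nat_lit 56) (nat_lit 0x1780002f00005f92d2bf39d57ebb0afd318) (.hit (nat_lit 19) (nat_lit 13) (nat_lit 0x1780002f00005f7064bef4f97e3152fc1e1)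 b24847 (.hit (nat_lit 24) (nat_lit 19) (nat_lit 0x1780002f00005f8374bf1b197e7d92fcb69) b24852 (.one (nat_lit 6) (nat_lit 20) (nat_lit 14) (nat_lit 0x1780002f00005f92d2bf39d57ebb0afd318) b24848 (.nil)))) (.one (nat_lit 68) (nat_lit 23) (nat_lit 18) (nat_lit 0x1780002f00005f6fbabef3a57e2eaafc18c) b24851 (.nil)))))) (.nil))) (.tok (nat_lit 9) (nat_lit 0x1780002f00006027fcc0114980b43301a22) (.hit (nat_lit 0) (nat_lit 0) (nat_lit 0x1780002f00005fb110bf90357f1152fe541) b24829 (.tok (nat_lit 9) (nat_lit 0x1780002f00005fd8b0bfb2d97fa3d2ffe65) (.hit (nat_lit 1) (nat_lit 20) (nat_lit 0x1780002f00005f98c8bf0d897e234afd112) b24830 (.hit (nat_lit 4) (nat_lit 28) (nat_lit 0x1780002f00005f9a54bf01117dd82afb6fa) b24833 (.tok (nat_lit 14) (nat_lit 0x1780002f00005fd8b0bfb2d97fa3d2ffe65) (.hit (nat_lit 2) (nat_lit 24) (nat_lit 0x1780002f00005fd8b0bfadbd7fa3d2ffa39) b24831 (.hit (nat_lit 5) (nat_lit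 30) (nat_lit 0x1780002f00005fa47cbf35b97dff1afc0fa) b24834 (.one (nat_lit 6) (nat_lit 3) (nat_lit 25) (nat_lit 0x1780002f00005fd7d6bfb2d97f8be2ffe65) b24832 (.nil)))) (.nil)))) (.tok (nat_lit 64) (nat_lit 0x1780002f00005fb850bf92b97ebca2fe0bd) (.hit (nat_lit 7) (nat_lit 50) (nat_lit 0x1780002f00005fb850bf92b97ebca2fe0bd) b24835 (.hit (nat_lit 8) (nat_lit 51) (nat_lit 0x1780002f00005faaeabf3b917e9b72fcf25) b24836 (.nil))) (.tok (nat_lit 67) (nat_lit 0x1780002f00006027fcc0114980b43301a22) (.hit (nat_lit 9) (nat_lit 52) (nat_lit 0x1780002f00005fec48c002517ff7c300290) b24837 (.tok (nat_lit 3) (nat_lit 0x1780002f00006027fcbfd7bd80b43301a22) (.hit (nat_lit 12) (nat_lit 58) (nat_lit 0x1780002f0000601a18bfb0097fe50b00eb5) b24840 (.one (nat_lit 55) (nat_lit 13) (nat_lit 59) (nat_lit 0x1780002f00006027fcbfd7bd80b43301a22) b24841 (.nil))) (.tok (nat_lit 9) (nat_lit 0x1780002f00005fc57ac011497fbf5afef5e)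 (.hit (nat_lit 10) (nat_lit 53) (nat_lit 0x1780002f00005fc57ac011497fbf5afef5e) b24838 (.hit (nat_lit 11) (nat_lit 56) (nat_lit 0x1780002f00005fb642bf4d897e9e5afdaec) b24839 (.nil))) (.nil)))) (.one (nat_lit 70) (nat_lit 14) (nat_lit 60) (nat_lit 0x1780002f00005f90b6bf43957eb1d2fd586) b24842 (.nil)))))) (.nil))
noncomputable def r26_0 : Rw Blk := .tok (nat_lit 3) (nat_lit 0xbf6da17ed55afeb225fc6e4bfc46d7f6752fe2fe5fbfeebf81dd7ee932fe580) (.hit (nat_lit 0) (nat_lit 0) (nat_lit 0xbedaf97e106afc8a35f9f34bf825d7ec672fcdc25f9724bf316d7e4852fd165) b36038 (.tok (nat_lit 9) (nat_lit 0xbed91d7dee0afdfae5fad72bf80557f1c02fd44a5fa6acbf5c357e9de2fdb05) (.hit (nat_lit 10) (nat_lit 20) (nat_lit 0xbe8d2d7d562afcdc25f877abf34657e8422fc14e5f80b4bf10457e0602fc809) b24854 (.hit (nat_lit 15) (nat_lit 28) (nat_lit 0xbe83717d42b2fc24c5f829cbf2aa97e70aafbedf5f7bd6bf06897df28afc59a) b24857 (.tok (nat_lit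 14) (nat_lit 0xbed91d7dee0afdfae5fad72bf80557f1c02fd44a5fa6acbf5c357e9de2fdb05) (.hit (nat_lit 11) (nat_lit 24) (nat_lit 0xbea79d7d8b0afd5d15f94b2bf4ed57eb902fc7ea5f8decbf2ab57e3ae2fcea5) b24855 (.hit (nat_lit 16) (nat_lit 30) (nat_lit 0xbea3a97d8322fcb805f92b8bf4ae17eb11afc6ed5f8bf2bf26c17e32fafcda8) b24858 (.one (nat_lit 6) (nat_lit 12) (nat_lit 25) (nat_lit 0xbed91d7dee0afdfae5fad72bf80557f1c02fd44a5fa6acbf5c357e9de2fdb05) b24856 (.nil)))) (.one (nat_lit 56) (nat_lit 17) (nat_lit 31) (nat_lit 0xbed8257dec1afd7fe5facf6bf7f5d7f1a12fd40c5fa630bf5b3d7e9bf2fdac7) b24859 (.nil))))) (.tok (nat_lit 64) (nat_lit 0xbeb3697da2a2fd3e75f9a98bf5aa17ed09afcadd5f93d2bf36817e527afd198) (.hit (nat_lit 30) (nat_lit 50) (nat_lit 0xbea6c17d8952fc6a85f9444bf4df97eb74afc7b35f8d7ebf29d97e392afce6e) b24860 (.hit (nat_lit 31) (nat_lit 51) (nat_lit 0xbeb3697da2a2fd3e75f9a98bf5aa17ed09afcadd5f93d2bf36817e527afd198)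 b24861 (.nil))) (.tok (nat_lit 67) (nat_lit 0xbf6da17ed55afeb225fc6e4bfc46d7f6752fe2fe5fbfeebf81dd7ee932fe580) (.hit (nat_lit 32) (nat_lit 52) (nat_lit 0xbf6da17ed55afe94a5fc6e4bfc46d7f6752fe2fe5fbfeebf81dd7ee932fe580) b24862 (.tok (nat_lit 3) (nat_lit 0xbef5e57e279afeb225fbbd6bf9d1d7f5592fdb7c5fb510bf78fd7ed772fe237) (.hit (nat_lit 38) (nat_lit 58) (nat_lit 0xbed7497dea62fdeae5fac88bf7e817f185afd3d55fa5c2bf5a617e9a3afda90) b24865 (.one (nat_lit 55) (nat_lit 39) (nat_lit 59) (nat_lit 0xbef5e57e279afeb225fbbd6bf9d1d7f5592fdb7c5fb510bf78fd7ed772fe237) b24866 (.nil))) (.tok (nat_lit 9) (nat_lit 0xbf023d7e6e7afdb875fbc36bfb3757f4192fdddb5fb54cbf79397ec372fe36a) (.hit (nat_lit 33) (nat_lit 53) (nat_lit 0xbf023d7e6e7afdb875fbc36bfb3757f4192fdddb5fb54cbf79397ec372fe36a) b24863 (.hit (nat_lit 36) (nat_lit 56) (nat_lit 0xbed8ad7ded2afda7b5fad3abf7fe57f1b22fd42e5fa674bf5bc57e9d02fdae9)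 b24864 (.nil))) (.nil)))) (.one (nat_lit 70) (nat_lit 40) (nat_lit 60) (nat_lit 0xbed4297de422fdaa35faaf8bf7b617f121afd30d5fa432bf57417e93fafd9c8) b24867 (.nil)))))) (.tok (nat_lit 6) (nat_lit 0xc0000180000300000600000c000018000030072e6002dac000018000030094a) (.hit (nat_lit 81) (nat_lit 0) (nat_lit 0xbf2c0d7ee4fafd4815fb7d0bfaa117f13b2fe07b5fb0eebf6aad7eeabafde2e) b24868 (.tok (nat_lit 6) (nat_lit 0xbf95a57fc01aff68e5fdb3abfa7d17f8662fed245fc468bf8bf57f39f2fe4e9) (.hit (nat_lit 87) (nat_lit 7) (nat_lit 0xbf04ed7e8532fcc915fa392bf612d7eddb2fda0d5f9718bf3d0d7e5f92fd33b) b24869 (.hit (nat_lit 95) (nat_lit 15) (nat_lit 0xbece7d7db132fc99b5f7024bef25d7e0012fbb745f6244bed1117d955afb8ed) b24874 (.tok (nat_lit 14) (nat_lit 0xbf95a57fc01aff68e5fdb3abf96dd7f8662fed245fc468bf8bf57f39f2fe4e9) (.hit (nat_lit 91) (nat_lit 11) (nat_lit 0xbf88557f9dbaff53c5fd086bf74297f391afe2435fbb48bf8a1d7f33c2fe4e9)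 b24870 (.hit (nat_lit 97) (nat_lit 17) (nat_lit 0xbf406d7e8e62fe9a75fa92cbf38ed7ed432fd5ee5f9b50bf42cd7e78dafd550) b24875 (.one (nat_lit 9) (nat_lit 92) (nat_lit 12) (nat_lit 0xbf95a57fc01aff68e5fdb3abf96dd7f8662fed245fc468bf8bf57f39f2fe3f7) b24871 (.nil)))) (.tok (nat_lit 56) (nat_lit 0xbf6b2d7f7742fe6c75fd1c0bfa7d17f6afafe9995fba6abf83b17efeeafe4e4) (.hit (nat_lit 93) (nat_lit 13) (nat_lit 0xbf6b2d7f3bcafe6195fd1c0bf9c197f538afe9995fb48ebf81657efeeafe1f6) b24872 (.hit (nat_lit 99) (nat_lit 19) (nat_lit 0xbf22197e588afd33f5f9a84bf42fd7ea152fce9f5f8cc6bf24797e3c32fcdbb) b24877 (.one (nat_lit 6) (nat_lit 94) (nat_lit 14) (nat_lit 0xbf43797f7742fe6c75fc130bfa7d17f6afafde295fba6abf83b17eecdafe4e4) b24873 (.nil)))) (.one (nat_lit 68) (nat_lit 98) (nat_lit 18) (nat_lit 0xbf20d97e5c82fdb235f9b2abf47517ea9fafcf345f8d4abf26cd7e40dafce52) b24876 (.nil)))))) (.tok (nat_lit 52) (nat_lit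 0xbf36757efb7afdafc5fac3ebf6a257eefa2fd4885f9cd4bf46057e7e9afd579) (.hit (nat_lit 106) (nat_lit 39) (nat_lit 0xbf2da97efb7afd9de5faa66bf6a257eefa2fd4885f9cd4bf46057e7e9afd579) b24878 (.hit (nat_lit 107) (nat_lit 40) (nat_lit 0xbf36757ec6dafdafc5fac3ebf63fd7ee352fd0dc5f9a5ebf3fdd7e692afd3ef) b24879 (.nil))) (.tok (nat_lit 55) (nat_lit 0xc0000180000300000600000c000018000030072e6002dac000018000030094a) (.hit (nat_lit 108) (nat_lit 41) (nat_lit 0xbfc0117fdebaff0e65ff830c000017fd11affb0f5fe1eebfdce97faf52ff827) b24880 (.tok (nat_lit 3) (nat_lit 0xc000017fcee2ffa03600000bfaf29800002fff145fe51ac00001800002ffb28) (.hit (nat_lit 114) (nat_lit 47) (nat_lit 0xbf99117f5b12fee345ff3aabf9ec97fd912fff145fc9a0bfdae17fd22aff59e) b24886 (.one (nat_lit 67) (nat_lit 115) (nat_lit 48) (nat_lit 0xc000017fcee2ffa03600000bfaf29800002ffb145fe51ac00001800002ffb28) b24887 (.nil))) (.tok (nat_lit 6) (nat_lit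 0xbfe639800003000005ff62ebfccc17fe6fb0072e6002dabfe8797fd47b0094a) (.hit (nat_lit 109) (nat_lit 42) (nat_lit 0xbf8fb17f0ee2fe53b5fcdf0bf999d7f4e92ff0655fd124bf8e617f2a62ff06c) b24881 (.hit (nat_lit 112) (nat_lit 45) (nat_lit 0xbf5d317f483aff6aa5fbfaebf9d7d7f5652fdf295fb540bf795d7ed832fe24f) b24884 (.tok (nat_lit 55) (nat_lit 0xbfe639800003000005ff62ebfccc17fe6fb0072e6002dabfe8797fd47b0094a) (.hit (nat_lit 110) (nat_lit 43) (nat_lit 0xbfe6397fcca2ffcac5ff62ebfccc17fc9430072e5ff9fabfe2417fc0c300577) b24882 (.hit (nat_lit 113) (nat_lit 46) (nat_lit 0xbf9a61800003000005fdef8bfc1857f9e62fefe55fcd32bfa3b57f33e2febe6) b24885 (.one (nat_lit 6) (nat_lit 111) (nat_lit 44) (nat_lit 0xbfdc3d7f98eaffa705ff370bf6fc97fe6fb0052e6002dabfe8797fd47b0094a) b24883 (.nil)))) (.nil)))) (.nil)))) (.one (nat_lit 58) (nat_lit 116) (nat_lit 49) (nat_lit 0xbf58f97eebeafebf85fbe14bf6d2d7f0482fde3e5fac2ebf5fb57eb02afdc10)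 b24888 (.nil)))))) (.nil))
noncomputable def r26_1 : Rw Blk := .tok (nat_lit 9) (nat_lit 0xbc0001780002ffcd8) (.hit (nat_lit 0) (nat_lit 0) (nat_lit 0xbc0001780002fe79b) b24889 (.tok (nat_lit 14) (nat_lit 0xbc0001780002ff362) (.hit (nat_lit 11) (nat_lit 61) (nat_lit 0xbc0001780002ff362) b24890 (.one (nat_lit 3) (nat_lit 12) (nat_lit 62) (nat_lit 0xbc0001780002ff1cd) b24891 (.tok (nat_lit 6) (nat_lit 0xbc0001780002fefe3) (.hit (nat_lit 15) (nat_lit 65) (nat_lit 0xbc0001780002fefe3) b24892 (.hit (nat_lit 16) (nat_lit 66) (nat_lit 0xbc0001780002fea68) b24893 (.nil))) (.tok (nat_lit 9) (nat_lit 0xbc0001780002fe901) (.hit (nat_lit 13) (nat_lit 63) (nat_lit 0xbc0001780002fdec7) b24894 (.hit (nat_lit 14) (nat_lit 64) (nat_lit 0xbc0001780002fe901) b24895 (.nil))) (.nil))))) (.one (nat_lit 17) (nat_lit 17) (nat_lit 67) (nat_lit 0xbc0001780002fe7c7) b24896 (.tok (nat_lit 20) (nat_lit 0xbc0001780002fe683)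 (.hit (nat_lit 18) (nat_lit 68) (nat_lit 0xbc0001780002fcace) b24899 (.hit (nat_lit 19) (nat_lit 69) (nat_lit 0xbc0001780002fe683) b24900 (.nil))) (.tok (nat_lit 23) (nat_lit 0xbc0001780002ffcd8) (.hit (nat_lit 20) (nat_lit 70) (nat_lit 0xbc0001780002ffcd8) b24897 (.hit (nat_lit 21) (nat_lit 71) (nat_lit 0xbc0001780002fe936) b24898 (.nil))) (.one (nat_lit 26) (nat_lit 22) (nat_lit 72) (nat_lit 0xbc0001780002fd785) b24901 (.one (nat_lit 29) (nat_lit 23) (nat_lit 73) (nat_lit 0xbc0001780002fd6a9) b24902 (.one (nat_lit 32) (nat_lit 24) (nat_lit 74) (nat_lit 0xbc0001780002fdfbd) b24904 (.one (nat_lit 35) (nat_lit 25) (nat_lit 75) (nat_lit 0xbc0001780002fd52e) b24903 (.one (nat_lit 38) (nat_lit 26) (nat_lit 76) (nat_lit 0xbc0001780002fe60e) b24905 (.tok (nat_lit 41) (nat_lit 0xbc0001780002fe8b8) (.hit (nat_lit 27) (nat_lit 77) (nat_lit 0xbc0001780002fe046) b24906 (.hit (nat_lit 28)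 (nat_lit 78) (nat_lit 0xbc0001780002fe8b8) b24907 (.nil))) (.tok (nat_lit 44) (nat_lit 0xbc0001780002feb61) (.hit (nat_lit 29) (nat_lit 79) (nat_lit 0xbc0001780002fb5fe) b24910 (.hit (nat_lit 30) (nat_lit 80) (nat_lit 0xbc0001780002feb61) b24911 (.nil))) (.tok (nat_lit 47) (nat_lit 0xbc0001780002feb06) (.hit (nat_lit 31) (nat_lit 81) (nat_lit 0xbc0001780002feb06) b24908 (.hit (nat_lit 32) (nat_lit 82) (nat_lit 0xbc0001780002fdec7) b24909 (.nil))) (.one (nat_lit 50) (nat_lit 33) (nat_lit 83) (nat_lit 0xbc0001780002fde92) b24912 (.tok (nat_lit 53) (nat_lit 0xbc0001780002fe600) (.hit (nat_lit 34) (nat_lit 84) (nat_lit 0xbc0001780002fd9bb) b24913 (.hit (nat_lit 35) (nat_lit 85) (nat_lit 0xbc0001780002fe600) b24914 (.nil))) (.tok (nat_lit 56) (nat_lit 0xbc0001780002fe774) (.hit (nat_lit 36) (nat_lit 86) (nat_lit 0xbc0001780002fe774) b24915 (.one (nat_lit 3) (nat_lit 40) (nat_lit 90)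 (nat_lit 0xbc0001780002fce2c) b24919 (.tok (nat_lit 6) (nat_lit 0xbc0001780002fd8cf) (.hit (nat_lit 38) (nat_lit 88) (nat_lit 0xbc0001780002fd8cf) b24917 (.hit (nat_lit 39) (nat_lit 89) (nat_lit 0xbc0001780002fd384) b24918 (.nil))) (.one (nat_lit 9) (nat_lit 37) (nat_lit 87) (nat_lit 0xbc0001780002fd617) b24916 (.nil))))) (.one (nat_lit 59) (nat_lit 41) (nat_lit 91) (nat_lit 0xbc0001780002fdefc) b24920 (.nil)))))))))))))))))) (.tok (nat_lit 64) (nat_lit 0xbc000178000300b99) (.hit (nat_lit 180) (nat_lit 0) (nat_lit 0xbc000178000300885) b24921 (.tok (nat_lit 6) (nat_lit 0xbc0001780002fef42) (.hit (nat_lit 181) (nat_lit 7) (nat_lit 0xbc0001780002fd971) b24924 (.hit (nat_lit 182) (nat_lit 15) (nat_lit 0xbc0001780002fef42) b24925 (.nil))) (.tok (nat_lit 9) (nat_lit 0xbc000178000300b99) (.hit (nat_lit 183) (nat_lit 20) (nat_lit 0xbc000178000300b99) b24922 (.hit (nat_lit 184) (nat_lit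 28) (nat_lit 0xbc0001780002ff483) b24923 (.nil))) (.nil)))) (.tok (nat_lit 67) (nat_lit 0xbc0001780002ff85c) (.hit (nat_lit 205) (nat_lit 0) (nat_lit 0xbc0001780002ff85c) b24934 (.tok (nat_lit 3) (nat_lit 0xbc0001780002fee6a) (.hit (nat_lit 206) (nat_lit 1) (nat_lit 0xbc0001780002fd35b) b24935 (.one (nat_lit 55) (nat_lit 207) (nat_lit 3) (nat_lit 0xbc0001780002fee6a) b24936 (.nil))) (.tok (nat_lit 9) (nat_lit 0xbc0001780002fd95e) (.hit (nat_lit 208) (nat_lit 20) (nat_lit 0xbc0001780002fd95e) b24937 (.hit (nat_lit 211) (nat_lit 28) (nat_lit 0xbc0001780002fd248) b24938 (.nil))) (.nil)))) (.tok (nat_lit 70) (nat_lit 0xbc0001780003001a2) (.hit (nat_lit 191) (nat_lit 0) (nat_lit 0xbc0001780003001a2) b24926 (.tok (nat_lit 3) (nat_lit 0xbc0001780002ff4ee) (.hit (nat_lit 192) (nat_lit 1) (nat_lit 0xbc0001780002fd2f1) b24927 (.one (nat_lit 67) (nat_lit 193) (nat_lit 2) (nat_lit 0xbc0001780002ff4ee)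 b24928 (.nil))) (.tok (nat_lit 6) (nat_lit 0xbc000178000300084) (.hit (nat_lit 194) (nat_lit 7) (nat_lit 0xbc0001780002fe022) b24929 (.hit (nat_lit 197) (nat_lit 15) (nat_lit 0xbc0001780002fd8df) b24932 (.tok (nat_lit 55) (nat_lit 0xbc000178000300084) (.hit (nat_lit 195) (nat_lit 8) (nat_lit 0xbc0001780002feb35) b24930 (.hit (nat_lit 198) (nat_lit 16) (nat_lit 0xbc0001780002fefe0) b24933 (.one (nat_lit 6) (nat_lit 196) (nat_lit 9) (nat_lit 0xbc000178000300084) b24931 (.nil)))) (.nil)))) (.nil)))) (.nil))))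
noncomputable def r26_2 : Rw Blk := .tok (nat_lit 3) (nat_lit 0xbc0001780003013e5) (.hit (nat_lit 15) (nat_lit 0) (nat_lit 0xbc0001780002ff07e) b24946 (.tok (nat_lit 6) (nat_lit 0xbc0001780002fde66) (.hit (nat_lit 16) (nat_lit 7) (nat_lit 0xbc0001780002fcb9b) b24947 (.hit (nat_lit 21) (nat_lit 15) (nat_lit 0xbc0001780002fb3d9) b24952 (.tok (nat_lit 14) (nat_lit 0xbc0001780002fd70a) (.hit (nat_lit 17) (nat_lit 11) (nat_lit 0xbc0001780002fc8e3) b24948 (.hit (nat_lit 22) (nat_lit 17) (nat_lit 0xbc0001780002fd43a) b24953 (.one (nat_lit 9) (nat_lit 18) (nat_lit 12) (nat_lit 0xbc0001780002fd70a) b24949 (.nil)))) (.tok (nat_lit 56) (nat_lit 0xbc0001780002fde66) (.hit (nat_lit 19) (nat_lit 13) (nat_lit 0xbc0001780002fd3dc) b24950 (.hit (nat_lit 24) (nat_lit 19) (nat_lit 0xbc0001780002fd4b7) b24954 (.one (nat_lit 6) (nat_lit 20) (nat_lit 14) (nat_lit 0xbc0001780002fde66) b24951 (.nil))))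 (.nil))))) (.tok (nat_lit 52) (nat_lit 0xbc0001780002fdf4b) (.hit (nat_lit 25) (nat_lit 39) (nat_lit 0xbc0001780002fd225) b24955 (.hit (nat_lit 26) (nat_lit 40) (nat_lit 0xbc0001780002fdf4b) b24956 (.nil))) (.tok (nat_lit 55) (nat_lit 0xbc0001780003013e5) (.hit (nat_lit 27) (nat_lit 41) (nat_lit 0xbc0001780003013e5) b24957 (.tok (nat_lit 3) (nat_lit 0xbc0001780002fe783) (.hit (nat_lit 33) (nat_lit 47) (nat_lit 0xbc0001780002fdf64) b24963 (.one (nat_lit 67) (nat_lit 34) (nat_lit 48) (nat_lit 0xbc0001780002fe783) b24964 (.nil))) (.tok (nat_lit 6) (nat_lit 0xbc0001780002fe21e) (.hit (nat_lit 28) (nat_lit 42) (nat_lit 0xbc0001780002fd803) b24958 (.hit (nat_lit 31) (nat_lit 45) (nat_lit 0xbc0001780002fdb3a) b24961 (.tok (nat_lit 55) (nat_lit 0xbc0001780002fe21e) (.hit (nat_lit 29) (nat_lit 43) (nat_lit 0xbc0001780002fe21e) b24959 (.hit (nat_lit 32) (nat_lit 46) (nat_lit 0xbc0001780002fe121)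 b24962 (.one (nat_lit 6) (nat_lit 30) (nat_lit 44) (nat_lit 0xbc0001780002fd754) b24960 (.nil)))) (.nil)))) (.nil)))) (.one (nat_lit 58) (nat_lit 35) (nat_lit 49) (nat_lit 0xbc0001780002fde30) b24965 (.nil)))))) (.tok (nat_lit 9) (nat_lit 0xbc000178000300daa) (.hit (nat_lit 0) (nat_lit 0) (nat_lit 0xbc000178000300452) b24939 (.tok (nat_lit 9) (nat_lit 0xbc000178000300daa) (.hit (nat_lit 1) (nat_lit 20) (nat_lit 0xbc0001780002fedc6) b24940 (.hit (nat_lit 4) (nat_lit 28) (nat_lit 0xbc0001780002fe259) b24943 (.tok (nat_lit 14) (nat_lit 0xbc000178000300daa) (.hit (nat_lit 2) (nat_lit 24) (nat_lit 0xbc0001780003007bb) b24941 (.hit (nat_lit 5) (nat_lit 30) (nat_lit 0xbc0001780002fed19) b24944 (.one (nat_lit 6) (nat_lit 3) (nat_lit 25) (nat_lit 0xbc000178000300daa) b24942 (.nil)))) (.one (nat_lit 56) (nat_lit 6) (nat_lit 31) (nat_lit 0xbc000178000300295) b24945 (.nil))))) (.nil))) (.nil))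
noncomputable def r26_3 : Rw Blk := .tok (nat_lit 6) (nat_lit 0xbc0001780003009c0) (.hit (nat_lit 0) (nat_lit 0) (nat_lit 0xbc0001780002fe27d) b24966 (.tok (nat_lit 14) (nat_lit 0xbc0001780003006fe) (.hit (nat_lit 21) (nat_lit 61) (nat_lit 0xbc0001780002ffaae) b24967 (.one (nat_lit 3) (nat_lit 22) (nat_lit 62) (nat_lit 0xbc0001780002fff03) b24968 (.tok (nat_lit 6) (nat_lit 0xbc0001780002fea88) (.hit (nat_lit 25) (nat_lit 65) (nat_lit 0xbc0001780002fc72e) b24969 (.hit (nat_lit 26) (nat_lit 66) (nat_lit 0xbc0001780002fea88) b24970 (.nil))) (.tok (nat_lit 9) (nat_lit 0xbc0001780003006fe) (.hit (nat_lit 23) (nat_lit 63) (nat_lit 0xbc0001780003006fe) b24971 (.hit (nat_lit 24) (nat_lit 64) (nat_lit 0xbc0001780002fe907) b24972 (.nil))) (.nil))))) (.one (nat_lit 17) (nat_lit 27) (nat_lit 67) (nat_lit 0xbc0001780002ff1c2) b24973 (.tok (nat_lit 20) (nat_lit 0xbc0001780003009c0) (.hit (nat_lit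 28) (nat_lit 68) (nat_lit 0xbc0001780003009c0) b24976 (.hit (nat_lit 29) (nat_lit 69) (nat_lit 0xbc0001780002fe4c4) b24977 (.nil))) (.tok (nat_lit 23) (nat_lit 0xbc0001780002fe1e2) (.hit (nat_lit 30) (nat_lit 70) (nat_lit 0xbc0001780002fb671) b24974 (.hit (nat_lit 31) (nat_lit 71) (nat_lit 0xbc0001780002fe1e2) b24975 (.nil))) (.one (nat_lit 26) (nat_lit 32) (nat_lit 72) (nat_lit 0xbc0001780002fdaf7) b24978 (.one (nat_lit 29) (nat_lit 33) (nat_lit 73) (nat_lit 0xbc0001780002fe039) b24979 (.one (nat_lit 32) (nat_lit 34) (nat_lit 74) (nat_lit 0xbc0001780002fd340) b24981 (.one (nat_lit 35) (nat_lit 35) (nat_lit 75) (nat_lit 0xbc0001780002feac3) b24980 (.one (nat_lit 50) (nat_lit 43) (nat_lit 83) (nat_lit 0xbc0001780002fe99d) b24991 (.tok (nat_lit 53) (nat_lit 0xbc0001780002ff493) (.hit (nat_lit 44) (nat_lit 84) (nat_lit 0xbc0001780002ff493) b24992 (.hit (nat_lit 45) (nat_lit 85) (nat_lit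 0xbc0001780002fe885) b24993 (.nil))) (.tok (nat_lit 56) (nat_lit 0xbc0001780002ff9c7) (.hit (nat_lit 46) (nat_lit 86) (nat_lit 0xbc0001780002ff689) b24994 (.one (nat_lit 3) (nat_lit 50) (nat_lit 90) (nat_lit 0xbc0001780002fea0b) b24998 (.tok (nat_lit 6) (nat_lit 0xbc0001780002ff67c) (.hit (nat_lit 48) (nat_lit 88) (nat_lit 0xbc0001780002ff67c) b24996 (.hit (nat_lit 49) (nat_lit 89) (nat_lit 0xbc0001780002ff095) b24997 (.nil))) (.one (nat_lit 9) (nat_lit 47) (nat_lit 87) (nat_lit 0xbc0001780002ff9c7) b24995 (.nil))))) (.one (nat_lit 59) (nat_lit 51) (nat_lit 91) (nat_lit 0xbc0001780002fe3e9) b24999 (.one (nat_lit 62) (nat_lit 52) (nat_lit 92) (nat_lit 0xbc0001780002fdaba) b24982 (.tok (nat_lit 65) (nat_lit 0xbc0001780002fe68a) (.hit (nat_lit 53) (nat_lit 93) (nat_lit 0xbc0001780002fe68a) b24983 (.hit (nat_lit 54) (nat_lit 94) (nat_lit 0xbc0001780002fd156) b24984 (.nil))) (.tok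 (nat_lit 68) (nat_lit 0xbc0001780002fd931) (.hit (nat_lit 55) (nat_lit 95) (nat_lit 0xbc0001780002fd931) b24985 (.one (nat_lit 3) (nat_lit 59) (nat_lit 99) (nat_lit 0xbc0001780002fb5f4) b24989 (.one (nat_lit 6) (nat_lit 56) (nat_lit 96) (nat_lit 0xbc0001780002fba17) b24986 (.tok (nat_lit 9) (nat_lit 0xbc0001780002fc803) (.hit (nat_lit 57) (nat_lit 97) (nat_lit 0xbc0001780002fc803) b24987 (.hit (nat_lit 58) (nat_lit 98) (nat_lit 0xbc0001780002fbfb1) b24988 (.nil))) (.nil))))) (.one (nat_lit 71) (nat_lit 60) (nat_lit 100) (nat_lit 0xbc0001780002fe161) b24990 (.nil)))))))))))))))))) (.tok (nat_lit 52) (nat_lit 0xbc000178000300e30) (.hit (nat_lit 176) (nat_lit 0) (nat_lit 0xbc000178000300e30) b25000 (.tok (nat_lit 6) (nat_lit 0xbc0001780002ffa4a) (.hit (nat_lit 177) (nat_lit 7) (nat_lit 0xbc0001780002ffa4a) b25003 (.hit (nat_lit 178) (nat_lit 15) (nat_lit 0xbc0001780002fe969) b25004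 (.nil))) (.tok (nat_lit 9) (nat_lit 0xbc0001780002ff71b) (.hit (nat_lit 179) (nat_lit 20) (nat_lit 0xbc0001780002fe383) b25001 (.hit (nat_lit 180) (nat_lit 28) (nat_lit 0xbc0001780002ff71b) b25002 (.nil))) (.nil)))) (.tok (nat_lit 55) (nat_lit 0xbc0001780002ff31f) (.hit (nat_lit 187) (nat_lit 0) (nat_lit 0xbc0001780002ff0d9) b25013 (.tok (nat_lit 3) (nat_lit 0xbc0001780002fea21) (.hit (nat_lit 188) (nat_lit 1) (nat_lit 0xbc0001780002fd37d) b25014 (.one (nat_lit 67) (nat_lit 189) (nat_lit 2) (nat_lit 0xbc0001780002fea21) b25015 (.nil))) (.tok (nat_lit 6) (nat_lit 0xbc0001780002ff31f) (.hit (nat_lit 190) (nat_lit 7) (nat_lit 0xbc0001780002fde02) b25016 (.hit (nat_lit 193) (nat_lit 15) (nat_lit 0xbc0001780002fd453) b25019 (.tok (nat_lit 55) (nat_lit 0xbc0001780002ff31f) (.hit (nat_lit 191) (nat_lit 8) (nat_lit 0xbc0001780002fecea) b25017 (.hit (nat_lit 194) (nat_lit 16) (nat_lit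 0xbc0001780002fecd0) b25020 (.one (nat_lit 6) (nat_lit 192) (nat_lit 9) (nat_lit 0xbc0001780002ff31f) b25018 (.nil)))) (.nil)))) (.nil)))) (.tok (nat_lit 58) (nat_lit 0xbc0001780002ffe38) (.hit (nat_lit 201) (nat_lit 0) (nat_lit 0xbc0001780002ff5a8) b25005 (.tok (nat_lit 3) (nat_lit 0xbc0001780002ff511) (.hit (nat_lit 202) (nat_lit 1) (nat_lit 0xbc0001780002fdb7a) b25006 (.one (nat_lit 55) (nat_lit 203) (nat_lit 3) (nat_lit 0xbc0001780002ff511) b25007 (.nil))) (.tok (nat_lit 9) (nat_lit 0xbc0001780002ffe38) (.hit (nat_lit 204) (nat_lit 20) (nat_lit 0xbc0001780002fdd6d) b25008 (.hit (nat_lit 207) (nat_lit 28) (nat_lit 0xbc0001780002fdd9a) b25011 (.tok (nat_lit 67) (nat_lit 0xbc0001780002ffe38) (.hit (nat_lit 205) (nat_lit 21) (nat_lit 0xbc0001780002fea64) b25009 (.hit (nat_lit 208) (nat_lit 29) (nat_lit 0xbc0001780002ff7d5) b25012 (.one (nat_lit 9) (nat_lit 206) (nat_lit 22) (nat_lit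 0xbc0001780002ffe38) b25010 (.nil)))) (.nil)))) (.nil)))) (.nil))))
noncomputable def r26_4 : Rw Blk := .tok (nat_lit 3) (nat_lit 0xbc0001780003023ff) (.hit (nat_lit 15) (nat_lit 0) (nat_lit 0xbc000178000301474) b25032 (.tok (nat_lit 9) (nat_lit 0xbc000178000300440) (.hit (nat_lit 16) (nat_lit 20) (nat_lit 0xbc0001780002fd186) b25033 (.hit (nat_lit 21) (nat_lit 28) (nat_lit 0xbc0001780002fe0e4) b25036 (.one (nat_lit 56) (nat_lit 23) (nat_lit 31) (nat_lit 0xbc000178000300440) b25037 (.tok (nat_lit 68) (nat_lit 0xbc0001780002fee2f) (.hit (nat_lit 19) (nat_lit 26) (nat_lit 0xbc0001780002fe28d) b25034 (.hit (nat_lit 24) (nat_lit 32) (nat_lit 0xbc0001780002fe8df) b25038 (.one (nat_lit 9) (nat_lit 20) (nat_lit 27) (nat_lit 0xbc0001780002fee2f) b25035 (.nil)))) (.nil))))) (.tok (nat_lit 64) (nat_lit 0xbc0001780002ffb88) (.hit (nat_lit 25) (nat_lit 50) (nat_lit 0xbc0001780002ff672) b25039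 (.hit (nat_lit 26) (nat_lit 51) (nat_lit 0xbc0001780002ffb88) b25040 (.nil))) (.tok (nat_lit 67) (nat_lit 0xbc0001780003023ff) (.hit (nat_lit 27) (nat_lit 52) (nat_lit 0xbc0001780003023ff) b25041 (.one (nat_lit 3) (nat_lit 33) (nat_lit 58) (nat_lit 0xbc0001780002fed4f) b25047 (.tok (nat_lit 9) (nat_lit 0xbc0001780002ff546) (.hit (nat_lit 28) (nat_lit 53) (nat_lit 0xbc0001780002fee39) b25042 (.hit (nat_lit 31) (nat_lit 56) (nat_lit 0xbc0001780002fead7) b25045 (.tok (nat_lit 67) (nat_lit 0xbc0001780002ff546) (.hit (nat_lit 29) (nat_lit 54) (nat_lit 0xbc0001780002ff546) b25043 (.hit (nat_lit 32) (nat_lit 57) (nat_lit 0xbc0001780002ff4bd) b25046 (.one (nat_lit 9) (nat_lit 30) (nat_lit 55) (nat_lit 0xbc0001780002fe9d3) b25044 (.nil)))) (.nil)))) (.nil)))) (.one (nat_lit 70) (nat_lit 35) (nat_lit 60) (nat_lit 0xbc000178000301ffe) b25048 (.nil)))))) (.tok (nat_lit 6) (nat_lit 0xbc000178000304851)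 (.hit (nat_lit 0) (nat_lit 0) (nat_lit 0xbc00017800030162f) b25021 (.tok (nat_lit 6) (nat_lit 0xbc000178000301818) (.hit (nat_lit 1) (nat_lit 7) (nat_lit 0xbc0001780002fe5d5) b25022 (.hit (nat_lit 4) (nat_lit 15) (nat_lit 0xbc0001780002fef28) b25023 (.one (nat_lit 68) (nat_lit 6) (nat_lit 18) (nat_lit 0xbc000178000301818) b25024 (.nil)))) (.tok (nat_lit 52) (nat_lit 0xbc000178000304725) (.hit (nat_lit 7) (nat_lit 39) (nat_lit 0xbc000178000304725) b25025 (.hit (nat_lit 8) (nat_lit 40) (nat_lit 0xbc00017800030206f) b25026 (.nil))) (.tok (nat_lit 55) (nat_lit 0xbc000178000304851) (.hit (nat_lit 9) (nat_lit 41) (nat_lit 0xbc0001780003038fc) b25027 (.one (nat_lit 3) (nat_lit 12) (nat_lit 47) (nat_lit 0xbc000178000300742) b25030 (.tok (nat_lit 6) (nat_lit 0xbc000178000304851) (.hit (nat_lit 10) (nat_lit 42) (nat_lit 0xbc000178000304851) b25028 (.hit (nat_lit 11) (nat_lit 45) (nat_lit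 0xbc000178000300bb5) b25029 (.nil))) (.nil)))) (.one (nat_lit 58) (nat_lit 14) (nat_lit 49) (nat_lit 0xbc00017800030448a) b25031 (.nil)))))) (.nil))
noncomputable def r26_5 : Rw Blk := .tok (nat_lit 6) (nat_lit 0xbc000178000301f87) (.hit (nat_lit 0) (nat_lit 0) (nat_lit 0xbc000178000300539) b25049 (.one (nat_lit 26) (nat_lit 12) (nat_lit 72) (nat_lit 0xbc0001780003002a3) b25050 (.one (nat_lit 29) (nat_lit 13) (nat_lit 73) (nat_lit 0xbc0001780003008af) b25051 (.one (nat_lit 32) (nat_lit 14) (nat_lit 74) (nat_lit 0xbc0001780002fee88) b25053 (.one (nat_lit 35) (nat_lit 15) (nat_lit 75) (nat_lit 0xbc000178000300424) b25052 (.one (nat_lit 38) (nat_lit 16) (nat_lit 76) (nat_lit 0xbc0001780002ff2fa) b25054 (.tok (nat_lit 41) (nat_lit 0xbc0001780002feee0) (.hit (nat_lit 17) (nat_lit 77) (nat_lit 0xbc0001780002fe650) b25055 (.hit (nat_lit 18) (nat_lit 78) (nat_lit 0xbc0001780002feee0)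 b25056 (.nil))) (.tok (nat_lit 44) (nat_lit 0xbc0001780002ff9a6) (.hit (nat_lit 19) (nat_lit 79) (nat_lit 0xbc0001780002ff9a6) b25059 (.hit (nat_lit 20) (nat_lit 80) (nat_lit 0xbc0001780002fe47f) b25060 (.nil))) (.tok (nat_lit 47) (nat_lit 0xbc0001780002ff86a) (.hit (nat_lit 21) (nat_lit 81) (nat_lit 0xbc0001780002fe313) b25057 (.hit (nat_lit 22) (nat_lit 82) (nat_lit 0xbc0001780002ff86a) b25058 (.nil))) (.one (nat_lit 62) (nat_lit 23) (nat_lit 92) (nat_lit 0xbc000178000300af1) b25061 (.tok (nat_lit 65) (nat_lit 0xbc0001780002ff6f0) (.hit (nat_lit 24) (nat_lit 93) (nat_lit 0xbc0001780002ff4e4) b25062 (.hit (nat_lit 25) (nat_lit 94) (nat_lit 0xbc0001780002ff6f0) b25063 (.nil))) (.tok (nat_lit 68) (nat_lit 0xbc000178000301f87) (.hit (nat_lit 26) (nat_lit 95) (nat_lit 0xbc000178000301f87) b25064 (.one (nat_lit 3) (nat_lit 30) (nat_lit 99) (nat_lit 0xbc0001780002ffaba) b25068 (.one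 (nat_lit 6) (nat_lit 27) (nat_lit 96) (nat_lit 0xbc0001780002ff5e7) b25065 (.tok (nat_lit 9) (nat_lit 0xbc0001780002ff853) (.hit (nat_lit 28) (nat_lit 97) (nat_lit 0xbc0001780002ff853) b25066 (.hit (nat_lit 29) (nat_lit 98) (nat_lit 0xbc0001780002fecf1) b25067 (.nil))) (.nil))))) (.one (nat_lit 71) (nat_lit 31) (nat_lit 100) (nat_lit 0xbc0001780002ff93a) b25069 (.nil)))))))))))))) (.tok (nat_lit 52) (nat_lit 0xbc0001780003040bd) (.hit (nat_lit 45) (nat_lit 0) (nat_lit 0xbc0001780003040bd) b25081 (.tok (nat_lit 6) (nat_lit 0xbc0001780003036ac) (.hit (nat_lit 46) (nat_lit 7) (nat_lit 0xbc0001780003036ac) b25084 (.hit (nat_lit 47) (nat_lit 15) (nat_lit 0xbc000178000302cce) b25085 (.nil))) (.tok (nat_lit 9) (nat_lit 0xbc000178000300e3e) (.hit (nat_lit 48) (nat_lit 20) (nat_lit 0xbc0001780002ffe45) b25082 (.hit (nat_lit 49) (nat_lit 28) (nat_lit 0xbc000178000300e3e) b25083 (.nil)))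 (.nil)))) (.tok (nat_lit 55) (nat_lit 0xbc000178000301de5) (.hit (nat_lit 40) (nat_lit 0) (nat_lit 0xbc0001780003019a3) b25077 (.one (nat_lit 3) (nat_lit 41) (nat_lit 1) (nat_lit 0xbc000178000300a8e) b25078 (.tok (nat_lit 6) (nat_lit 0xbc000178000301de5) (.hit (nat_lit 43) (nat_lit 7) (nat_lit 0xbc000178000301de5) b25079 (.hit (nat_lit 44) (nat_lit 15) (nat_lit 0xbc00017800030010d) b25080 (.nil))) (.nil)))) (.tok (nat_lit 58) (nat_lit 0xbc0001780003031aa) (.hit (nat_lit 32) (nat_lit 0) (nat_lit 0xbc0001780003021ec) b25070 (.one (nat_lit 3) (nat_lit 33) (nat_lit 1) (nat_lit 0xbc000178000301fc4) b25071 (.tok (nat_lit 9) (nat_lit 0xbc0001780003031aa) (.hit (nat_lit 35) (nat_lit 20) (nat_lit 0xbc00017800030249c) b25072 (.hit (nat_lit 38) (nat_lit 28) (nat_lit 0xbc000178000301c4e) b25075 (.tok (nat_lit 67) (nat_lit 0xbc0001780003031aa) (.hit (nat_lit 36) (nat_lit 21) (nat_lit 0xbc000178000302b40)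 b25073 (.hit (nat_lit 39) (nat_lit 29) (nat_lit 0xbc000178000303028) b25076 (.one (nat_lit 9) (nat_lit 37) (nat_lit 22) (nat_lit 0xbc0001780003031aa) b25074 (.nil)))) (.nil)))) (.nil)))) (.nil))))
noncomputable def r26_6 : Rw Blk := .tok (nat_lit 3) (nat_lit 0xbc000178000303990) (.hit (nat_lit 0) (nat_lit 0) (nat_lit 0xbc000178000303990) b25086 (.tok (nat_lit 9) (nat_lit 0xbc000178000302426) (.hit (nat_lit 1) (nat_lit 20) (nat_lit 0xbc0001780002ff3d8) b25087 (.hit (nat_lit 6) (nat_lit 28) (nat_lit 0xbc0001780002ff95c) b25092 (.tok (nat_lit 14) (nat_lit 0xbc0001780003020b4) (.hit (nat_lit 2) (nat_lit 24) (nat_lit 0xbc000178000300f8d) b25088 (.hit (nat_lit 7) (nat_lit 30) (nat_lit 0xbc0001780003020b4) b25093 (.one (nat_lit 6) (nat_lit 3) (nat_lit 25) (nat_lit 0xbc000178000300d28) b25089 (.nil)))) (.tok (nat_lit 68) (nat_lit 0xbc000178000302426) (.hit (nat_lit 4) (nat_lit 26) (nat_lit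 0xbc000178000300654) b25090 (.hit (nat_lit 8) (nat_lit 32) (nat_lit 0xbc0001780003018d9) b25094 (.one (nat_lit 9) (nat_lit 5) (nat_lit 27) (nat_lit 0xbc000178000302426) b25091 (.nil)))) (.nil))))) (.nil))) (.tok (nat_lit 6) (nat_lit 0xbc000178000305dc1) (.hit (nat_lit 20) (nat_lit 0) (nat_lit 0xbc000178000304b52) b25095 (.tok (nat_lit 6) (nat_lit 0xbc000178000305dc1) (.hit (nat_lit 21) (nat_lit 7) (nat_lit 0xbc00017800030336a) b25096 (.hit (nat_lit 24) (nat_lit 15) (nat_lit 0xbc000178000302b91) b25099 (.tok (nat_lit 14) (nat_lit 0xbc000178000305dc1) (.hit (nat_lit 22) (nat_lit 11) (nat_lit 0xbc0001780003049db) b25097 (.hit (nat_lit 25) (nat_lit 17) (nat_lit 0xbc000178000303737) b25100 (.one (nat_lit 9) (nat_lit 23) (nat_lit 12) (nat_lit 0xbc000178000305dc1) b25098 (.nil)))) (.nil)))) (.nil))) (.nil))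
noncomputable def r26_7 : Rw Blk := .tok (nat_lit 6) (nat_lit 0xbc0001780002fffe7) (.hit (nat_lit 0) (nat_lit 0) (nat_lit 0xbc0001780002fd7a2) b25101 (.tok (nat_lit 14) (nat_lit 0xbc0001780002fffe7) (.hit (nat_lit 21) (nat_lit 61) (nat_lit 0xbc0001780002ff1a7) b25102 (.one (nat_lit 3) (nat_lit 22) (nat_lit 62) (nat_lit 0xbc0001780002fe43d) b25103 (.tok (nat_lit 6) (nat_lit 0xbc0001780002fe4b3) (.hit (nat_lit 25) (nat_lit 65) (nat_lit 0xbc0001780002fd1eb) b25104 (.hit (nat_lit 26) (nat_lit 66) (nat_lit 0xbc0001780002fe4b3) b25105 (.nil))) (.tok (nat_lit 9) (nat_lit 0xbc0001780002fffe7) (.hit (nat_lit 23) (nat_lit 63) (nat_lit 0xbc0001780002fffe7) b25106 (.hit (nat_lit 24) (nat_lit 64) (nat_lit 0xbc0001780002fe932) b25107 (.nil))) (.nil))))) (.one (nat_lit 17) (nat_lit 27) (nat_lit 67) (nat_lit 0xbc0001780002fda55) b25108 (.tok (nat_lit 20) (nat_lit 0xbc0001780002fe359) (.hit (nat_lit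 28) (nat_lit 68) (nat_lit 0xbc0001780002fe359) b25111 (.hit (nat_lit 29) (nat_lit 69) (nat_lit 0xbc0001780002fd727) b25112 (.nil))) (.tok (nat_lit 23) (nat_lit 0xbc0001780002fda2b) (.hit (nat_lit 30) (nat_lit 70) (nat_lit 0xbc0001780002fca6c) b25109 (.hit (nat_lit 31) (nat_lit 71) (nat_lit 0xbc0001780002fda2b) b25110 (.nil))) (.one (nat_lit 26) (nat_lit 32) (nat_lit 72) (nat_lit 0xbc0001780002fd2c1) b25113 (.one (nat_lit 29) (nat_lit 33) (nat_lit 73) (nat_lit 0xbc0001780002fd116) b25114 (.one (nat_lit 32) (nat_lit 34) (nat_lit 74) (nat_lit 0xbc0001780002fc90e) b25116 (.one (nat_lit 35) (nat_lit 35) (nat_lit 75) (nat_lit 0xbc0001780002fd893) b25115 (.one (nat_lit 50) (nat_lit 43) (nat_lit 83) (nat_lit 0xbc0001780002fe01f) b25126 (.tok (nat_lit 53) (nat_lit 0xbc0001780002fe208) (.hit (nat_lit 44) (nat_lit 84) (nat_lit 0xbc0001780002fe208) b25127 (.hit (nat_lit 45) (nat_lit 85) (nat_lit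 0xbc0001780002fdd94) b25128 (.nil))) (.tok (nat_lit 56) (nat_lit 0xbc0001780002ff81c) (.hit (nat_lit 46) (nat_lit 86) (nat_lit 0xbc0001780002fefc6) b25129 (.one (nat_lit 3) (nat_lit 50) (nat_lit 90) (nat_lit 0xbc0001780002fe539) b25133 (.tok (nat_lit 6) (nat_lit 0xbc0001780002ff81c) (.hit (nat_lit 48) (nat_lit 88) (nat_lit 0xbc0001780002ff81c) b25131 (.hit (nat_lit 49) (nat_lit 89) (nat_lit 0xbc0001780002fe429) b25132 (.nil))) (.one (nat_lit 9) (nat_lit 47) (nat_lit 87) (nat_lit 0xbc0001780002ff4b9) b25130 (.nil))))) (.one (nat_lit 59) (nat_lit 51) (nat_lit 91) (nat_lit 0xbc0001780002fd882) b25134 (.one (nat_lit 62) (nat_lit 52) (nat_lit 92) (nat_lit 0xbc0001780002fd49d) b25117 (.tok (nat_lit 65) (nat_lit 0xbc0001780002fd176) (.hit (nat_lit 53) (nat_lit 93) (nat_lit 0xbc0001780002fcca1) b25118 (.hit (nat_lit 54) (nat_lit 94) (nat_lit 0xbc0001780002fd176) b25119 (.nil))) (.tok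 (nat_lit 68) (nat_lit 0xbc0001780002fd87e) (.hit (nat_lit 55) (nat_lit 95) (nat_lit 0xbc0001780002fd87e) b25120 (.one (nat_lit 3) (nat_lit 59) (nat_lit 99) (nat_lit 0xbc0001780002fc897) b25124 (.one (nat_lit 6) (nat_lit 56) (nat_lit 96) (nat_lit 0xbc0001780002fc736) b25121 (.tok (nat_lit 9) (nat_lit 0xbc0001780002fcbc5) (.hit (nat_lit 57) (nat_lit 97) (nat_lit 0xbc0001780002fcbc5) b25122 (.hit (nat_lit 58) (nat_lit 98) (nat_lit 0xbc0001780002fc973) b25123 (.nil))) (.nil))))) (.one (nat_lit 71) (nat_lit 60) (nat_lit 100) (nat_lit 0xbc0001780002fd4a6) b25125 (.nil)))))))))))))))))) (.tok (nat_lit 52) (nat_lit 0xbc0001780002ff72d) (.hit (nat_lit 176) (nat_lit 0) (nat_lit 0xbc0001780002ff543) b25135 (.tok (nat_lit 6) (nat_lit 0xbc0001780002ff72d) (.hit (nat_lit 177) (nat_lit 7) (nat_lit 0xbc0001780002ff72d) b25138 (.hit (nat_lit 178) (nat_lit 15) (nat_lit 0xbc0001780002fe70c) b25139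 (.nil))) (.tok (nat_lit 9) (nat_lit 0xbc0001780002fef47) (.hit (nat_lit 179) (nat_lit 20) (nat_lit 0xbc0001780002fe108) b25136 (.hit (nat_lit 180) (nat_lit 28) (nat_lit 0xbc0001780002fef47) b25137 (.nil))) (.nil)))) (.tok (nat_lit 55) (nat_lit 0xbc0001780002ffa69) (.hit (nat_lit 187) (nat_lit 0) (nat_lit 0xbc0001780002ffa69) b25148 (.tok (nat_lit 3) (nat_lit 0xbc0001780002fe75f) (.hit (nat_lit 188) (nat_lit 1) (nat_lit 0xbc0001780002fda1a) b25149 (.one (nat_lit 67) (nat_lit 189) (nat_lit 2) (nat_lit 0xbc0001780002fe75f) b25150 (.nil))) (.tok (nat_lit 6) (nat_lit 0xbc0001780002ff08f) (.hit (nat_lit 190) (nat_lit 7) (nat_lit 0xbc0001780002fd6f9) b25151 (.hit (nat_lit 193) (nat_lit 15) (nat_lit 0xbc0001780002fda2d) b25154 (.tok (nat_lit 55) (nat_lit 0xbc0001780002ff08f) (.hit (nat_lit 191) (nat_lit 8) (nat_lit 0xbc0001780002fe678) b25152 (.hit (nat_lit 194) (nat_lit 16) (nat_lit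 0xbc0001780002fe923) b25155 (.one (nat_lit 6) (nat_lit 192) (nat_lit 9) (nat_lit 0xbc0001780002ff08f) b25153 (.nil)))) (.nil)))) (.nil)))) (.tok (nat_lit 58) (nat_lit 0xbc000178000300c58) (.hit (nat_lit 201) (nat_lit 0) (nat_lit 0xbc0001780002fed61) b25140 (.tok (nat_lit 3) (nat_lit 0xbc0001780002ff3cd) (.hit (nat_lit 202) (nat_lit 1) (nat_lit 0xbc0001780002fdb46) b25141 (.one (nat_lit 55) (nat_lit 203) (nat_lit 3) (nat_lit 0xbc0001780002ff3cd) b25142 (.nil))) (.tok (nat_lit 9) (nat_lit 0xbc000178000300c58) (.hit (nat_lit 204) (nat_lit 20) (nat_lit 0xbc0001780002fe2a3) b25143 (.hit (nat_lit 207) (nat_lit 28) (nat_lit 0xbc0001780002fd95a) b25146 (.tok (nat_lit 67) (nat_lit 0xbc000178000300c58) (.hit (nat_lit 205) (nat_lit 21) (nat_lit 0xbc0001780002fef48) b25144 (.hit (nat_lit 208) (nat_lit 29) (nat_lit 0xbc0001780002ff319) b25147 (.one (nat_lit 9) (nat_lit 206) (nat_lit 22) (nat_lit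 0xbc000178000300c58) b25145 (.nil)))) (.nil)))) (.nil)))) (.nil))))
noncomputable def r26_8 : Rw Blk := .tok (nat_lit 3) (nat_lit 0xbc000178000301b29) (.hit (nat_lit 15) (nat_lit 0) (nat_lit 0xbc0001780002fe7b0) b25167 (.tok (nat_lit 9) (nat_lit 0xbc0001780002fdc52) (.hit (nat_lit 16) (nat_lit 20) (nat_lit 0xbc0001780002fc67d) b25168 (.hit (nat_lit 21) (nat_lit 28) (nat_lit 0xbc0001780002fa5c4) b25171 (.one (nat_lit 56) (nat_lit 23) (nat_lit 31) (nat_lit 0xbc0001780002fcebc) b25172 (.tok (nat_lit 68) (nat_lit 0xbc0001780002fdc52) (.hit (nat_lit 19) (nat_lit 26) (nat_lit 0xbc0001780002fd224) b25169 (.hit (nat_lit 24) (nat_lit 32) (nat_lit 0xbc0001780002fca3d) b25173 (.one (nat_lit 9) (nat_lit 20) (nat_lit 27) (nat_lit 0xbc0001780002fdc52) b25170 (.nil)))) (.nil))))) (.tok (nat_lit 64) (nat_lit 0xbc0001780002fd89e) (.hit (nat_lit 25) (nat_lit 50) (nat_lit 0xbc0001780002fd89e) b25174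 (.hit (nat_lit 26) (nat_lit 51) (nat_lit 0xbc0001780002fd437) b25175 (.nil))) (.tok (nat_lit 67) (nat_lit 0xbc000178000301b29) (.hit (nat_lit 27) (nat_lit 52) (nat_lit 0xbc000178000301b29) b25176 (.one (nat_lit 3) (nat_lit 33) (nat_lit 58) (nat_lit 0xbc0001780002fdfc3) b25182 (.tok (nat_lit 9) (nat_lit 0xbc0001780002fe63e) (.hit (nat_lit 28) (nat_lit 53) (nat_lit 0xbc0001780002fd613) b25177 (.hit (nat_lit 31) (nat_lit 56) (nat_lit 0xbc0001780002fd381) b25180 (.tok (nat_lit 67) (nat_lit 0xbc0001780002fe63e) (.hit (nat_lit 29) (nat_lit 54) (nat_lit 0xbc0001780002fe63e) b25178 (.hit (nat_lit 32) (nat_lit 57) (nat_lit 0xbc0001780002fdf87) b25181 (.one (nat_lit 9) (nat_lit 30) (nat_lit 55) (nat_lit 0xbc0001780002fd7a4) b25179 (.nil)))) (.nil)))) (.nil)))) (.one (nat_lit 70) (nat_lit 35) (nat_lit 60) (nat_lit 0xbc0001780002fe414) b25183 (.nil)))))) (.tok (nat_lit 6) (nat_lit 0xbc000178000302ef1)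 (.hit (nat_lit 0) (nat_lit 0) (nat_lit 0xbc0001780002ff312) b25156 (.tok (nat_lit 6) (nat_lit 0xbc0001780002feebf) (.hit (nat_lit 1) (nat_lit 7) (nat_lit 0xbc0001780002fe89b) b25157 (.hit (nat_lit 4) (nat_lit 15) (nat_lit 0xbc0001780002fd0ba) b25158 (.one (nat_lit 68) (nat_lit 6) (nat_lit 18) (nat_lit 0xbc0001780002feebf) b25159 (.nil)))) (.tok (nat_lit 52) (nat_lit 0xbc000178000300660) (.hit (nat_lit 7) (nat_lit 39) (nat_lit 0xbc000178000300660) b25160 (.hit (nat_lit 8) (nat_lit 40) (nat_lit 0xbc0001780002ff0e7) b25161 (.nil))) (.tok (nat_lit 55) (nat_lit 0xbc000178000302ef1) (.hit (nat_lit 9) (nat_lit 41) (nat_lit 0xbc000178000302ef1) b25162 (.one (nat_lit 3) (nat_lit 12) (nat_lit 47) (nat_lit 0xbc0001780002fff75) b25165 (.tok (nat_lit 6) (nat_lit 0xbc000178000300b0a) (.hit (nat_lit 10) (nat_lit 42) (nat_lit 0xbc000178000300b0a) b25163 (.hit (nat_lit 11) (nat_lit 45) (nat_lit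 0xbc0001780002ffc91) b25164 (.nil))) (.nil)))) (.one (nat_lit 58) (nat_lit 14) (nat_lit 49) (nat_lit 0xbc0001780002fe788) b25166 (.nil)))))) (.nil))
noncomputable def r26_9 : Rw Blk := .tok (nat_lit 3) (nat_lit 0x17faffafe5bb5fe928bfe5457fbceb000005fd104bf9e757f55d2ff05d5fd124bfbf857f7b6afda275fdd46bf9f457ebdeafe60f5fe092bfb4957fbf6aff7065fee4cbfe44d80000300000600000c00001800002fedd9) (.hit (nat_lit 0) (nat_lit 0) (nat_lit 0x17e8aaafca0a5fa42abf85d17eee12fe8485fba96bf9e757eea5afdab15fab70bf64817eedb2fd3075fba98bf65d57e6fdafd8f25fc5aabfa00d7f5162fedc65fc996bf97a57f1772fec4f5fe00ebfa8117f43b2fdbf8) b36039 (.tok (nat_lit 6) (nat_lit 0x17e91dafc71b5fd9c4bf99417f22dafedc75faa30bf5aa17eb6d2fdab25fa974bf68017eb06afca455fac3ebf4f4d7e118afd2865fb8b8bf67497f48b2fec645fdde2bfca697fb92afe28b5febd2bfe2257fa652fe541) (.hit (nat_lit 1) (nat_lit 7) (nat_lit 0x17def12fb2c25fae68bf47dd7e8012fd96e5f817ebf093d7e140afc6595f80c2bf169d7e0da2fb5ec5f838cbefde97d6ec2fbe2d5f9006bf15e57e3caafc8395fc1c6bf88057f1972fce325fd42cbf67e97f2742fd9bc)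 b25185 (.hit (nat_lit 6) (nat_lit 15) (nat_lit 0x17ddb9afb0535f977cbf3e217e6c9afd6ff5f7ca0beff817e0092fc3ea5f7be4bf0ce17dfa2afb37d5f7eaebef42d7d5b4afbbbe5f8b28bf0c297f116afe5ad5fc4f8bf8e697ef5bafcbc35fcf14bf5dc17f35bafd937) b25190 (.tok (nat_lit 14) (nat_lit 0x17e86f2fc5be5fd240bf93cd7f17f2fec6a5fa776bf552d7eabeafd9555fa6babf628d7ea582fc8e85fa984bf49d97e06a2fd1295fb5febf61d57f48b2fec645fddc6bfc1497fb92afe12e5febd2bfe2257fa4aafe2fd) (.hit (nat_lit 2) (nat_lit 11) (nat_lit 0x17e23f2fb95e5fbe86bf624d7eb4f2fe00a5f8eb6bf23ad7e48eafccf55f8dfabf310d7e4282fbc885f90c4bf18597da3a2fc4c95f9d3ebf30557e6142fced55fcaf6bf9aa97f341afd4ce5fd892bfca057f52eafdc0e) b25186 (.hit (nat_lit 7) (nat_lit 17) (nat_lit 0x17e1c0afb8615fa9e4bf5e597ead0afdf0d5f8cbcbf1fb97e4102fcbf85f8c00bf2d197e3a9afbb8b5f8ecabf14657d9bbafc3cc5f9b44bf2c617f48b2fec645fd7aebfb3f57f416afd3d15fe73ebf63217f811afe299) b25191 (.one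 (nat_lit 9) (nat_lit 3) (nat_lit 12) (nat_lit 0x17e86f2fc5be5fd240bf93cd7f17f2fec6a5fa776bf552d7eabeafd9555fa6babf628d7ea582fc8e85fa984bf49d97e06a2fd1295fb5febf61d57eddbafdb355fddc6bfc1497fb92afe12e5febd2bfe2257fa4aafe2fd) b25187 (.nil)))) (.tok (nat_lit 56) (nat_lit 0x17e91dafc71b5fd9c4bf99417f22dafedc75faa30bf5aa17eb6d2fdab25fa974bf68017eb06afca455fac3ebf4f4d7e118afd2865fb8b8bf67497f189afe3ae5fdde2bfca697f891afe28b5fe668bfc1617fa652fe541) (.hit (nat_lit 4) (nat_lit 13) (nat_lit 0x17e509afbef35fc308bf78a17ee19afe59f5f99e0bf3a017e7592fd28a5f9924bf47617e6f2afc21d5f9beebf2ead7dd04afca5e5fa868bf46a97ed2b2fd9595fd522bfb6b57f693afda635fe0fabfc0fd7f84f2fdfa6) b25188 (.hit (nat_lit 9) (nat_lit 19) (nat_lit 0x17e2fbafbad75fad10bf68317ec0bafe1835f91a8bf29917e54b2fce6e5f90ecbf36f17e4e4afbe015f93b6bf1e3d7daf6afc6425fa030bf36397f189afe3ae5fc8a0bf9ba97f10a2fd6475fd0d4bf5e3d7f502afd7c0) b25192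 (.one (nat_lit 6) (nat_lit 5) (nat_lit 14) (nat_lit 0x17e91dafc71b5fd9c4bf99417f22dafedc75faa30bf5aa17eb6d2fdab25fa974bf68017eb06afca455fac3ebf4f4d7e118afd2865fb8b8bf67497ecf2afdc925fdde2bfca697f891afe28b5fe668bfc1617fa652fe541) b25189 (.nil)))) (.nil))))) (.tok (nat_lit 52) (nat_lit 0x17e3b8afbc515fbab2bf6e197ecc8afe2fd5f949cbf2f797e6082fcfe85f93e0bf3cd97e5a1afbf7b5f96aabf24257dbb3afc7bc5fa324bf3c217f7372ff1bf5fbcf2bf7d7d7f0c72fd7c15fdd1abfa83d7f219afe2e3) (.hit (nat_lit 19) (nat_lit 39) (nat_lit 0x17e223afb9275fa034bf61717eb33afdfd35f8e48bf22d17e4732fccbe5f8d8cbf30317e40cafbc515f9056bf177d7da1eafc4925f9cd0bf2f797f4502fec375fa0acbf52457e602afd4975fa364bf9afd7ed67afe199) b25193 (.hit (nat_lit 20) (nat_lit 40) (nat_lit 0x17e3b8afbc515fbab2bf6e197ecc8afe2fd5f949cbf2f797e6082fcfe85f93e0bf3cd97e5a1afbf7b5f96aabf24257dbb3afc7bc5fa324bf3c217f7372ff1bf5fbcf2bf7d7d7f0c72fd7c15fdd1abfa83d7f219afe2e3)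 b25194 (.nil))) (.tok (nat_lit 55) (nat_lit 0x17faffafe5bb5fe928bfe5457fbceb000005fd104bf93e57f55d2ff05d5fd124bfbf857f7b6afda275fdd46bf9f457ebdeafe60f5fe092bfb4957f9512ff5355fee4cbfe44d80000300000600000c00001800002fedd9) (.hit (nat_lit 21) (nat_lit 41) (nat_lit 0x17faffafe2a85fe578bfd2a97f8c2affc095fd104bf93e57f55d2ff05d5fd124bfbf857f7b6afda275fdd46bf9f457ebdeafe60f5fe092bfb4957f9512ff5355fe8eabfd4bd7fb11b000005ffa8ec000017fe1bafed7a) b25195 (.tok (nat_lit 3) (nat_lit 0x17ec082fccf05fe928bfb0957f5182ff39c5fb5dabf71f57ee57afe0875fb51ebf7f557edf12fd01a5fb7e8bf66a17e4032fd85b5fc462bf7e9d7f32d2fe55d5fee4cbfe44d800002fe860600000bff985800002fedd9) (.hit (nat_lit 27) (nat_lit 47) (nat_lit 0x17e834afc5495fd040bf91f97f144afebf55fa68cbf53597ea842fd8e05fa5d0bf60b97ea1dafc8735fa89abf48057e02fafd0b45fb514bf60017ef6cafdddc5fd3febfb1697f546afe0b95fe448bfc8e57f83cafe125) b25201 (.one (nat_lit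 67) (nat_lit 28) (nat_lit 48) (nat_lit 0x17ec082fccf05fe928bfb0957f5182ff39c5fb5dabf71f57ee57afe0875fb51ebf7f557edf12fd01a5fb7e8bf66a17e4032fd85b5fc462bf7e9d7f32d2fe55d5fee4cbfe44d800002fe860600000bff985800002fedd9) b25202 (.nil))) (.tok (nat_lit 6) (nat_lit 0x17f4a5afe5bb5fda54bfe5457fbceb000005fc3dcbf8df97f1d82fe7885fc320bf9b597f171afd71b5fc5eabf82a57e783afdf5c5fd264bf9aa17f35dafe9685fd7a4bfc3257faa02fef615ff208bff2917fb762fe98a) (.hit (nat_lit 22) (nat_lit 42) (nat_lit 0x17ed932fd5cc5fc9f2bfa6957f3d82ff11c5fb0dabf67f57ed17afde075fb01ebf75557ecb12fcd9a5fb2e8bf5ca17e2c32fd5db5fbf62bf749d7f0a12fe0455fc33ebf97697eea72fe5e05fc5f6bfc3a57f66a2fdf07) b25196 (.hit (nat_lit 25) (nat_lit 45) (nat_lit 0x17e8612fc5a25fc7dabf935d7f1712fec4e5fa73ebf54bd7eab0afd9395fa682bf621d7ea4a2fc8cc5fa94cbf49697e05c2fd10d5fb5c6bf61657ec362fdb195fcb72bf9e497f71fafe1125fe796bfab297f620afdf78) b25199 (.tok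 (nat_lit 55) (nat_lit 0x17f4a5afe5bb5fda54bfe5457fbceb000005fc3dcbf8df97f1d82fe7885fc320bf9b597f171afd71b5fc5eabf82a57e783afdf5c5fd264bf9aa17f35dafe9685fd7a4bfc3257faa02fef615ff208bff2917fb762fe98a) (.hit (nat_lit 23) (nat_lit 43) (nat_lit 0x17f4a5afe5bb5fcbdebfe5457fbceb000005fc3dcbf8df97f1d82fe7885fc320bf9b597f171afd71b5fc5eabf82a57e783afdf5c5fd264bf9aa17f35dafe9685fd640bfbd6d7f3f0afef615fdcaebff2917fb4aafe91d) b25197 (.hit (nat_lit 26) (nat_lit 46) (nat_lit 0x17eda62fd02c5fda54bfbd857f6b62ff6d85fbc52bf7ee57eff5afe3c35fbb96bf8c457ef8f2fd3565fbe60bf73917e5a12fdb975fcadabf8b8d7f17b2fe5a35fd7a4bfc3257faa02feb9c5ff208bfd99d7fb762fe98a) b25200 (.one (nat_lit 6) (nat_lit 24) (nat_lit 44) (nat_lit 0x17ecdaafce955fca10bfb7297f5eaaff5415fb924bf78897ef2a2fe22c5fb868bf85e97eec3afd1bf5fbb32bf6d357e4d5afda005fc7acbf85317f0afafe40c5fcb88bfa7fd7f0b9afea055fce40bfeaa57fa6fafe8ac) b25198 (.nil))))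 (.nil)))) (.nil)))) (.one (nat_lit 58) (nat_lit 29) (nat_lit 49) (nat_lit 0x17e7d0afc4815fc82abf8ed97f0e0afeb2d5fa4fcbf50397ea202fd8185fa440bf5d997e9b9afc7ab5fa70abf44e57dfcbafcfec5fb384bf5ce17fbf6aff7065fd550bfae117f6d6afdff15ffa0cbfde2d7f745afed94) b25203 (.nil)))))) (.tok (nat_lit 9) (nat_lit 0x180000300000600000c00001800002fff3e600000c0000180000300000600000c0000180000300000600000c0000180000300000600000c0000180000300000600000c000017fc332ff7215ff97cbfd6997ff89b00000) (.hit (nat_lit 157) (nat_lit 0) (nat_lit 0x17f2cd2fe49c5fbbe6bfccc97f8af2ffaa55fd1febfb3a17f2a4afeac75fd160bfa4d57f8832fde3f5fca94bf80857eb25afdf9e5fe3babfcdbd7f7ae2ff2f65fede6bfdcd57f731aff7215fec46bfd2cd7fa3a2fe603) b25204 (.tok (nat_lit 9) (nat_lit 0x180000300000600000c00001800002fff3e600000c0000180000300000600000c0000180000300000600000c0000180000300000600000c0000180000300000600000c000017fc332feb0d5ff97cbfd6997ff89b00000)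 (.hit (nat_lit 163) (nat_lit 20) (nat_lit 0x17ede92fd8a35fac06bf74a57ed9a2fe4a05fb36cbf85497ecdb2fde625fbc28bf71bd7ed012fd8735fb4cebf57817eb712fd5875fbed8bf7a357ef542fdcd45fc814bfa4b97f0f6afd9645fcaeabf692d7f4002fd8e2) b25205 (.hit (nat_lit 171) (nat_lit 28) (nat_lit 0x17e71b2fbe235fa61abf277d7e35c2fcdd85fa098bf592d7e8212fd5bf5fa18cbf50b57eb562fc58c5fa514bf31b17e0792fcbe95faef4bf62917ef272fe00b5fce74bf9b297eedc2fbdb05fd132bf5a417f29aafd790) b25210 (.tok (nat_lit 14) (nat_lit 0x180000300000600000c00001800002fff3e5ff5dec000017fe00b00000600000c000017fdcdaff6335ff830bfde2d800002fffd95ffc68bff35d80000300000600000c000017fc332fe6d05ff97cbfb53d7ff89b00000) (.hit (nat_lit 167) (nat_lit 24) (nat_lit 0x17fe562ffbb45ffd5cc000017ff71affb1f5ff4a6c000017fd2c2fff5b600000bff9dd7fda9aff6335ff664bfd991800002fffd95ffb28bff35d800002ffe8f5ffd20bffee97faaeafde235ff97cbfb53d7fdb8300000) b25206 (.hit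 (nat_lit 173) (nat_lit 30) (nat_lit 0x17f5592fd9c95fe632bf99497f16c2fea795fd65abfafd17f57b2feb525fce26bfa7017f65b2fe0485fd5fcbf9c817edd32fe69d5fe3c0bfc6797fc70aff1b05fefdebfd1697f4b5afcf545feb18bf861d7f9852fe539) b25211 (.one (nat_lit 6) (nat_lit 168) (nat_lit 25) (nat_lit 0x180000300000600000bff665800002fff3e5ff5debfea057fe00b000005ffce0c000017fdcdaff02e5ff830bfde2d7fcb4aff91b5ffc68bfece57fed4b00000600000c000017fc332fe6d05ff6c6bfad217ff89aff42f) b25207 (.nil)))) (.one (nat_lit 56) (nat_lit 174) (nat_lit 31) (nat_lit 0x17f166afd38d5fc92abf7d497edf02fe3af5fbf7ebf85957efc7afe4525fbebcbf8b017f0e42fd4f95fbf24bf6ef97e7ffafdb365fcce2bf99617f572afeaeb5ff588bfce3d7f651afd2ed5ff7c2bfd6997f9252fe47e) b25212 (.tok (nat_lit 68) (nat_lit 0x17fab12ff6e55fe072bfea217fa202ff649600000bff43d800002ff2195fe6ecbfc61d80000300000600000c000017f7d0300000600000c000017f847aff4295ff7bcbff3a57f955afeb0d5ff430bfb4a97fc5f2ff9c7)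 (.hit (nat_lit 169) (nat_lit 26) (nat_lit 0x17fab12fef765fdf16bfea217fa202ff3c35fe7ccbfc5497f9f42ff2195fe6ecbfc61d7fa9fafe9ef5fe7e2bfc0557f2b22ff2ee5ff410bfe7c97f847aff4295fed1cbfde797f6aeafe81f5fe996bfacd57f9b82feaa5) b25208 (.hit (nat_lit 175) (nat_lit 32) (nat_lit 0x17f18eafd30e5fb962bf7b297edc9afe36c5fc452bf80857f0faafe3bd5fbf1cbf88ad7f1f2afd4bc5fc3eebf78ad7e7132fdd595fd198bfa0b97f4f1afe98e5fe15abfb9217f1d0afd1d85fe26abf84e57f68c2fdbfb) b25213 (.one (nat_lit 9) (nat_lit 170) (nat_lit 27) (nat_lit 0x17f5baaff6e55fe072bfbb497f66eaff649600000bff43d800002feee65fd3e6bfb55180000300000600000c000017f7d0300000600000c000017f6d6aff1475ff7bcbff3a57f955afeb0d5ff430bfb4a97fc5f2ff9c7) b25209 (.nil)))) (.nil)))))) (.nil))) (.nil))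
noncomputable def r26_10 : Rw Blk := .tok (nat_lit 6) (nat_lit 0x1780002f00005fe6e4bfcb257f8fcaff05d) (.hit (nat_lit 51) (nat_lit 0) (nat_lit 0x1780002f00005fb804bf7e397f054afe657) b25214 (.tok (nat_lit 14) (nat_lit 0x1780002f00005fcf92bfbc497f67eaff05d) (.hit (nat_lit 62) (nat_lit 61) (nat_lit 0x1780002f00005fcf92bf9ed97f453afe7b6) b25215 (.one (nat_lit 3) (nat_lit 63) (nat_lit 62) (nat_lit 0x1780002f00005fcc68bf78797ef87afde1e) b25216 (.tok (nat_lit 6) (nat_lit 0x1780002f00005fbad0bf9bc97f3f1afe6f2) (.hit (nat_lit 66) (nat_lit 65) (nat_lit 0x1780002f00005fa65cbf9bc97f3f1afe6f2) b25217 (.hit (nat_lit 67) (nat_lit 66) (nat_lit 0x1780002f00005fbad0bf94d17f312afe534) b25218 (.nil))) (.tok (nat_lit 9) (nat_lit 0x1780002f00005fc894bfbc497f67eaff05d) (.hit (nat_lit 64) (nat_lit 63) (nat_lit 0x1780002f00005fc894bfbc497f67eaff05d) b25219 (.hit (nat_lit 65) (nat_lit 64) (nat_lit 0x1780002f00005fbd9ebf9ba17f3ecafe6e8)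 b25220 (.nil))) (.nil))))) (.one (nat_lit 17) (nat_lit 68) (nat_lit 67) (nat_lit 0x1780002f00005fb85cbf4e357ea3f2fd38d) b25221 (.tok (nat_lit 20) (nat_lit 0x1780002f00005fe27ebfa6757f54aafe8a3) (.hit (nat_lit 69) (nat_lit 68) (nat_lit 0x1780002f00005fe27ebfa6757f54aafe8a3) b25224 (.hit (nat_lit 70) (nat_lit 69) (nat_lit 0x1780002f00005fbb3abf47e57e9752fd1f9) b25225 (.nil))) (.tok (nat_lit 23) (nat_lit 0x1780002f00005fb5d4bf4be57e9f52fd2f9) (.hit (nat_lit 71) (nat_lit 70) (nat_lit 0x1780002f00005f7e6abf4be57e9f52fd2f9) b25222 (.hit (nat_lit 72) (nat_lit 71) (nat_lit 0x1780002f00005fb5d4bf47e57e9752fd1f9) b25223 (.nil))) (.one (nat_lit 26) (nat_lit 73) (nat_lit 72) (nat_lit 0x1780002f00005f97d8bf028d7e03d2fc15c) b25226 (.one (nat_lit 29) (nat_lit 74) (nat_lit 73) (nat_lit 0x1780002f00005f9620bf0a6d7e1c62fc29b) b25227 (.one (nat_lit 32) (nat_lit 75) (nat_lit 74) (nat_lit 0x1780002f00005f932abf15e17e334afc578)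 b25229 (.one (nat_lit 35) (nat_lit 76) (nat_lit 75) (nat_lit 0x1780002f00005fa848bf23497e334afc8b5) b25228 (.one (nat_lit 38) (nat_lit 77) (nat_lit 76) (nat_lit 0x1780002f00005fb4eabf4f357ea5f2fd3cd) b25230 (.tok (nat_lit 41) (nat_lit 0x1780002f00005fba3ebf46e57e66cafd158) (.hit (nat_lit 78) (nat_lit 77) (nat_lit 0x1780002f00005fa95abf24f57e189afbcc6) b25231 (.hit (nat_lit 79) (nat_lit 78) (nat_lit 0x1780002f00005fba3ebf46e57e66cafd158) b25232 (.nil))) (.tok (nat_lit 44) (nat_lit 0x1780002f00005fbedabf52d17e7a3afce1a) (.hit (nat_lit 80) (nat_lit 79) (nat_lit 0x1780002f00005fbedabf52d17e7a3afce1a) b25235 (.hit (nat_lit 81) (nat_lit 80) (nat_lit 0x1780002f00005fa65cbf23357e4df2fc8cd) b25236 (.nil))) (.tok (nat_lit 47) (nat_lit 0x1780002f00005fbf90bf4ad57e77fafd2dc) (.hit (nat_lit 82) (nat_lit 81) (nat_lit 0x1780002f00005f54cabef8a57df8d2fbe29) b25233 (.hit (nat_lit 83) (nat_lit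 82) (nat_lit 0x1780002f00005fbf90bf4ad57e77fafd2dc) b25234 (.nil))) (.one (nat_lit 50) (nat_lit 84) (nat_lit 83) (nat_lit 0x1780002f00005fb502bf383d7e7162fce81) b25237 (.tok (nat_lit 53) (nat_lit 0x1780002f00005fb6cebf74a97eb5e2fd5cb) (.hit (nat_lit 85) (nat_lit 84) (nat_lit 0x1780002f00005f846abf74a97eb5e2fd5cb) b25238 (.hit (nat_lit 86) (nat_lit 85) (nat_lit 0x1780002f00005fb6cebf4bc57e7af2fd2b9) b25239 (.nil))) (.tok (nat_lit 56) (nat_lit 0x1780002f00005fe6e4bfcb257f8fcafef36) (.hit (nat_lit 87) (nat_lit 86) (nat_lit 0x1780002f00005fe5b6bfb8e17f77d2fef36) b25240 (.one (nat_lit 3) (nat_lit 91) (nat_lit 90) (nat_lit 0x1780002f00005fe6e4bf9f817f566afe3e8) b25244 (.tok (nat_lit 6) (nat_lit 0x1780002f00005fd5ecbf8e7d7f2482fe39f) (.hit (nat_lit 89) (nat_lit 88) (nat_lit 0x1780002f00005fd5ecbf8e7d7f2482fe39f) b25242 (.hit (nat_lit 90) (nat_lit 89) (nat_lit 0x1780002f00005fbfd4bf5a257ebbd2fd689)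 b25243 (.nil))) (.one (nat_lit 9) (nat_lit 88) (nat_lit 87) (nat_lit 0x1780002f00005fd142bfcb257f8fcafee48) b25241 (.nil))))) (.one (nat_lit 59) (nat_lit 92) (nat_lit 91) (nat_lit 0x1780002f00005fa7fcbf1b6d7e1f1afc72c) b25245 (.nil)))))))))))))))))) (.tok (nat_lit 52) (nat_lit 0x1780002f0000600000c07041806d7b013a4) (.hit (nat_lit 225) (nat_lit 0) (nat_lit 0x1780002f00005ff9d8c03e0d806d7b013a4) b25246 (.tok (nat_lit 6) (nat_lit 0x1780002f0000600000c070418019bb00c7f) (.hit (nat_lit 226) (nat_lit 7) (nat_lit 0x1780002f0000600000c070418019bb00c7f) b25249 (.hit (nat_lit 227) (nat_lit 15) (nat_lit 0x1780002f00005fd1d4bfdc197fa72aff488) b25250 (.nil))) (.tok (nat_lit 9) (nat_lit 0x1780002f00005fc752bfe39d7f955aff24e) (.hit (nat_lit 228) (nat_lit 20) (nat_lit 0x1780002f00005f9bb0bfc0b17f705afedae) b25247 (.hit (nat_lit 229) (nat_lit 28) (nat_lit 0x1780002f00005fc752bfe39d7f955aff24e)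 b25248 (.nil))) (.nil)))) (.tok (nat_lit 55) (nat_lit 0x1780002f00005fd986c01495801823002a7) (.hit (nat_lit 250) (nat_lit 0) (nat_lit 0x1780002f00005fd986bfc4f17f78dafeebe) b25256 (.tok (nat_lit 3) (nat_lit 0x1780002f00005fc5a2c01495801823002a7) (.hit (nat_lit 251) (nat_lit 1) (nat_lit 0x1780002f00005f8f84bfa8597f3faafe798) b25257 (.one (nat_lit 67) (nat_lit 252) (nat_lit 2) (nat_lit 0x1780002f00005fc5a2c01495801823002a7) b25258 (.nil))) (.tok (nat_lit 6) (nat_lit 0x1780002f00005fb4dcbff3097fd50affa44) (.hit (nat_lit 253) (nat_lit 7) (nat_lit 0x1780002f00005f9b8abfc0657f6fc2fed9b) b25259 (.hit (nat_lit 256) (nat_lit 15) (nat_lit 0x1780002f00005f8d5ebfa40d7f3712fe685) b25262 (.tok (nat_lit 55) (nat_lit 0x1780002f00005fb4dcbff3097fd50affa44) (.hit (nat_lit 254) (nat_lit 8) (nat_lit 0x1780002f00005fa330bfcfb17f8e5aff16e) b25260 (.hit (nat_lit 257) (nat_lit 16) (nat_lit 0x1780002f00005fb4dcbff3097fd50affa44)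 b25263 (.one (nat_lit 6) (nat_lit 255) (nat_lit 9) (nat_lit 0x1780002f00005fafc8bfe8e17fc0baff7ba) b25261 (.nil)))) (.nil)))) (.nil)))) (.tok (nat_lit 58) (nat_lit 0x1780002f00005fec12c02ea5804c430092b) (.hit (nat_lit 236) (nat_lit 0) (nat_lit 0x1780002f00005fec12bfdd217fa93aff4ca) b25251 (.tok (nat_lit 3) (nat_lit 0x1780002f00005fd2aac02ea5804c430092b) (.hit (nat_lit 237) (nat_lit 1) (nat_lit 0x1780002f00005f8eb0bfa6b17f3c5afe72e) b25252 (.one (nat_lit 55) (nat_lit 238) (nat_lit 3) (nat_lit 0x1780002f00005fd2aac02ea5804c430092b) b25253 (.nil))) (.tok (nat_lit 9) (nat_lit 0x1780002f00005fa912bfdb757fa5e2ff45f) (.hit (nat_lit 239) (nat_lit 20) (nat_lit 0x1780002f00005fa912bfdb757fa5e2ff45f) b25254 (.hit (nat_lit 242) (nat_lit 28) (nat_lit 0x1780002f00005f9a8cbfbe697f6bcafed1c) b25255 (.nil))) (.nil)))) (.nil))))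
noncomputable def r26_11 : Rw Blk := .tok (nat_lit 3) (nat_lit 0x1780002f0000600fa4bfedad7fe453001fe) (.hit (nat_lit 15) (nat_lit 0) (nat_lit 0x1780002f00005fc8d6bf97417f3302fee63) b25279 (.tok (nat_lit 9) (nat_lit 0x1780002f00005f95eebf5af57e693afd804) (.hit (nat_lit 16) (nat_lit 20) (nat_lit 0x1780002f00005f7f10bf2d397e0dc2fcc95) b25280 (.hit (nat_lit 21) (nat_lit 28) (nat_lit 0x1780002f00005f4f8cbece317d4fb2fb4d3) b25283 (.tok (nat_lit 14) (nat_lit 0x1780002f00005f95eebf5af57e693afd804) (.hit (nat_lit 17) (nat_lit 24) (nat_lit 0x1780002f00005f79a0bf22597df802fc9dd) b25281 (.hit (nat_lit 22) (nat_lit 30) (nat_lit 0x1780002f00005f904ebf4fb57e52bafd534) b25284 (.one (nat_lit 6) (nat_lit 18) (nat_lit 25) (nat_lit 0x1780002f00005f95eebf5af57e693afd804) b25282 (.nil)))) (.one (nat_lit 56) (nat_lit 23) (nat_lit 31) (nat_lit 0x1780002f00005f8ce2bf48dd7e450afd37e) b25285 (.nil)))))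 (.tok (nat_lit 64) (nat_lit 0x1780002f00005fa670bf7bf97eab42fe045) (.hit (nat_lit 25) (nat_lit 50) (nat_lit 0x1780002f00005f8c24bf47617e4212fd31f) b25286 (.hit (nat_lit 26) (nat_lit 51) (nat_lit 0x1780002f00005fa670bf7bf97eab42fe045) b25287 (.nil))) (.tok (nat_lit 67) (nat_lit 0x1780002f0000600fa4bfedad7fe453001fe) (.hit (nat_lit 27) (nat_lit 52) (nat_lit 0x1780002f0000600fa4bfedad7fe453001fe) b25288 (.tok (nat_lit 3) (nat_lit 0x1780002f00005fb6e0bf9cd97eed02fe87d) (.hit (nat_lit 33) (nat_lit 58) (nat_lit 0x1780002f00005fa6a2bf7c5d7eac0afe05e) b25291 (.one (nat_lit 55) (nat_lit 34) (nat_lit 59) (nat_lit 0x1780002f00005fb6e0bf9cd97eed02fe87d) b25292 (.nil))) (.tok (nat_lit 9) (nat_lit 0x1780002f00005f9e4ebf6bb57e8abafdc34) (.hit (nat_lit 28) (nat_lit 53) (nat_lit 0x1780002f00005f97e0bf5ed97e7102fd8fd) b25289 (.hit (nat_lit 31) (nat_lit 56) (nat_lit 0x1780002f00005f9e4ebf6bb57e8abafdc34)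 b25290 (.nil))) (.nil)))) (.one (nat_lit 70) (nat_lit 35) (nat_lit 60) (nat_lit 0x1780002f00005fa43abf778d7ea26afdf2a) b25293 (.nil)))))) (.tok (nat_lit 6) (nat_lit 0x1780002f000060371cc088f5811973029a6) (.hit (nat_lit 0) (nat_lit 0) (nat_lit 0x1780002f00005ff07ec010057ffff300379) b25264 (.tok (nat_lit 6) (nat_lit 0x1780002f000060032ec037617fa3db00579) (.hit (nat_lit 1) (nat_lit 7) (nat_lit 0x1780002f00005fc366bfb6757ef09afeb1e) b25265 (.hit (nat_lit 4) (nat_lit 15) (nat_lit 0x1780002f00005fac8cbf641d7e9b92fdfb1) b25268 (.tok (nat_lit 14) (nat_lit 0x1780002f000060032ec037617fa3db00579) (.hit (nat_lit 2) (nat_lit 11) (nat_lit 0x1780002f00005ff750c01a4d7f5e82fff41) b25266 (.hit (nat_lit 5) (nat_lit 17) (nat_lit 0x1780002f00005fc20cbf6c157e927afde29) b25269 (.one (nat_lit 9) (nat_lit 3) (nat_lit 12) (nat_lit 0x1780002f000060032ec037617fa3db00579) b25267 (.nil)))) (.one (nat_lit 68)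 (nat_lit 6) (nat_lit 18) (nat_lit 0x1780002f00005fed04bfbc317f2a5aff4e0) b25270 (.nil))))) (.tok (nat_lit 52) (nat_lit 0x1780002f000060153ec0304d8052530108e) (.hit (nat_lit 7) (nat_lit 39) (nat_lit 0x1780002f0000600428bf9bcd7f63e300e06) b25271 (.hit (nat_lit 8) (nat_lit 40) (nat_lit 0x1780002f000060153ec0304d8052530108e) b25272 (.nil))) (.tok (nat_lit 55) (nat_lit 0x1780002f000060170ac05ec9807e530144a) (.hit (nat_lit 9) (nat_lit 41) (nat_lit 0x1780002f0000600af4c048398006cb0135c) b25273 (.tok (nat_lit 3) (nat_lit 0x1780002f000060170ac05ec9807e530144a) (.hit (nat_lit 12) (nat_lit 47) (nat_lit 0x1780002f00005ffbe4c05ec9807e530144a) b25276 (.one (nat_lit 67) (nat_lit 13) (nat_lit 48) (nat_lit 0x1780002f000060170ac0565180361b00c26) b25277 (.nil))) (.tok (nat_lit 6) (nat_lit 0x1780002f00005ff30ec0309d7fcd0b00889) (.hit (nat_lit 10) (nat_lit 42) (nat_lit 0x1780002f00005fd872bff6c17fcb2300889)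 b25274 (.hit (nat_lit 11) (nat_lit 45) (nat_lit 0x1780002f00005ff30ec0309d7fcd0b004a5) b25275 (.nil))) (.nil)))) (.one (nat_lit 58) (nat_lit 14) (nat_lit 49) (nat_lit 0x1780002f000060371cc088f5811973029a6) b25278 (.nil)))))) (.nil))
noncomputable def r26_12 : Rw Blk := .tok (nat_lit 9) (nat_lit 0x1780002f0000600000c0570980c18b01380) (.hit (nat_lit 0) (nat_lit 0) (nat_lit 0x1780002f00005fb17abfa0d57f5c4afeb07) b25294 (.tok (nat_lit 14) (nat_lit 0x1780002f00005ffa7cbfea257fd2a2ff9a2) (.hit (nat_lit 21) (nat_lit 61) (nat_lit 0x1780002f00005fe1dcbfc7357f8592ff566) b25295 (.one (nat_lit 3) (nat_lit 22) (nat_lit 62) (nat_lit 0x1780002f00005fea86bfc1e97f7e12ff9a2) b25296 (.tok (nat_lit 6) (nat_lit 0x1780002f00005ffa7cbfe3ad7fc99aff5f7) (.hit (nat_lit 25) (nat_lit 65) (nat_lit 0x1780002f00005ffa7cbfe3ad7fc99aff5f7) b25297 (.hit (nat_lit 26) (nat_lit 66) (nat_lit 0x1780002f00005fbe8ebf9ef57f59b2fe335)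 b25298 (.nil))) (.tok (nat_lit 9) (nat_lit 0x1780002f00005fc190bfea257fd2a2ff3a2) (.hit (nat_lit 23) (nat_lit 63) (nat_lit 0x1780002f00005f7adcbfa5bd7f5722fe07e) b25299 (.hit (nat_lit 24) (nat_lit 64) (nat_lit 0x1780002f00005fc190bfea257fd2a2ff3a2) b25300 (.nil))) (.nil))))) (.one (nat_lit 17) (nat_lit 27) (nat_lit 67) (nat_lit 0x1780002f00005fd004bf9bcd7f382afe681) b25301 (.tok (nat_lit 20) (nat_lit 0x1780002f00005fb044bf6de17ed932fd9f6) (.hit (nat_lit 28) (nat_lit 68) (nat_lit 0x1780002f00005f5962bf62c97ed13afcfc1) b25304 (.hit (nat_lit 29) (nat_lit 69) (nat_lit 0x1780002f00005fb044bf6de17ed932fd9f6) b25305 (.nil))) (.tok (nat_lit 23) (nat_lit 0x1780002f0000600000c0570980c18b01380) (.hit (nat_lit 30) (nat_lit 70) (nat_lit 0x1780002f0000600000c0570980c18b01380) b25302 (.hit (nat_lit 31) (nat_lit 71) (nat_lit 0x1780002f00005fb608bf71957f0412fdf22) b25303 (.nil))) (.one (nat_lit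 38) (nat_lit 36) (nat_lit 76) (nat_lit 0x1780002f00005fad1ebf71b97ee1cafdafe) b25306 (.tok (nat_lit 41) (nat_lit 0x1780002f00005fa504bf860d7f0982fe19a) (.hit (nat_lit 37) (nat_lit 77) (nat_lit 0x1780002f00005f9866bf46f57e8bcafd30c) b25307 (.hit (nat_lit 38) (nat_lit 78) (nat_lit 0x1780002f00005fa504bf860d7f0982fe19a) b25308 (.nil))) (.tok (nat_lit 44) (nat_lit 0x1780002f00005fd746bf94157f2492fee14) (.hit (nat_lit 39) (nat_lit 79) (nat_lit 0x1780002f00005f4a90bf45257e95f2fc858) b25311 (.hit (nat_lit 40) (nat_lit 80) (nat_lit 0x1780002f00005fd746bf94157f2492fee14) b25312 (.nil))) (.tok (nat_lit 47) (nat_lit 0x1780002f00005fc3d4bfa6217f2bfafeb7d) (.hit (nat_lit 41) (nat_lit 81) (nat_lit 0x1780002f00005fc3d4bfa6217f2bfafeb7d) b25309 (.hit (nat_lit 42) (nat_lit 82) (nat_lit 0x1780002f00005fac58bf4d917e9922fd831) b25310 (.nil))) (.one (nat_lit 50) (nat_lit 43) (nat_lit 83) (nat_lit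 0x1780002f00005fa1f4bf5c117eb622fd594) b25322 (.tok (nat_lit 53) (nat_lit 0x1780002f00005fb994bf6f817edc2afda77) (.hit (nat_lit 44) (nat_lit 84) (nat_lit 0x1780002f00005fb994bf6bed7ed562fda77) b25323 (.hit (nat_lit 45) (nat_lit 85) (nat_lit 0x1780002f00005f8f2cbf6f817edc2afda56) b25324 (.nil))) (.tok (nat_lit 56) (nat_lit 0x1780002f00005f9ee2bfb4fd7f5dcafe949) (.hit (nat_lit 46) (nat_lit 86) (nat_lit 0x1780002f00005f9ee2bfb4fd7f17cafe949) b25325 (.one (nat_lit 3) (nat_lit 50) (nat_lit 90) (nat_lit 0x1780002f00005f5868bf60d57ecd52fcf44) b25329 (.tok (nat_lit 6) (nat_lit 0x1780002f00005f7c86bfa9117f5dcafe153) (.hit (nat_lit 48) (nat_lit 88) (nat_lit 0x1780002f00005f7c86bfa9117f5dcafe153) b25327 (.hit (nat_lit 49) (nat_lit 89) (nat_lit 0x1780002f00005f6be2bf87c97f1b3afd901) b25328 (.nil))) (.one (nat_lit 9) (nat_lit 47) (nat_lit 87) (nat_lit 0x1780002f00005f60aebf71617eee6afd367)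 b25326 (.nil))))) (.one (nat_lit 59) (nat_lit 51) (nat_lit 91) (nat_lit 0x1780002f00005faf42bf676d7ecc72fd85e) b25330 (.one (nat_lit 62) (nat_lit 52) (nat_lit 92) (nat_lit 0x1780002f00005fbfbabf7efd7efbfafe13b) b25313 (.tok (nat_lit 65) (nat_lit 0x1780002f00005fd5a6bfd4297fa64aff4a3) (.hit (nat_lit 53) (nat_lit 93) (nat_lit 0x1780002f00005fd5a6bfd4297fa64aff4a3) b25314 (.hit (nat_lit 54) (nat_lit 94) (nat_lit 0x1780002f00005fbd8abf8a617f171afe3b6) b25315 (.nil))) (.tok (nat_lit 68) (nat_lit 0x1780002f00005fe00ec00fe18030d2ffabb) (.hit (nat_lit 55) (nat_lit 95) (nat_lit 0x1780002f00005fd992bfe4097fc86aff22a) b25316 (.one (nat_lit 3) (nat_lit 59) (nat_lit 99) (nat_lit 0x1780002f00005fc096bfea617fd2eafe643) b25320 (.one (nat_lit 6) (nat_lit 56) (nat_lit 96) (nat_lit 0x1780002f00005fe00ec00fe18030d2ffabb) b25317 (.tok (nat_lit 9) (nat_lit 0x1780002f00005fd978bfd13d7fa07aff86d) (.hit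 (nat_lit 57) (nat_lit 97) (nat_lit 0x1780002f00005fd978bfd13d7fa07aff86d) b25318 (.hit (nat_lit 58) (nat_lit 98) (nat_lit 0x1780002f00005fcdaabfbe1d7f7a3afee6a) b25319 (.nil))) (.nil))))) (.one (nat_lit 71) (nat_lit 60) (nat_lit 100) (nat_lit 0x1780002f00005fb452bf65a97ec94afd9df) b25321 (.nil)))))))))))))))))) (.nil)
noncomputable def r26_13 : Rw Blk := .tok (nat_lit 9) (nat_lit 0x1780002f0000600000c00a0180000300000) (.hit (nat_lit 0) (nat_lit 0) (nat_lit 0x1780002f00005faf76bfa8d57f62bafebfc) b25331 (.tok (nat_lit 14) (nat_lit 0x1780002f0000600000bfe59580000300000) (.hit (nat_lit 21) (nat_lit 61) (nat_lit 0x1780002f00005fe380bfdcc97fabfaff712) b25332 (.one (nat_lit 3) (nat_lit 22) (nat_lit 62) (nat_lit 0x1780002f00005fc8acbfaeb17f5d52fed3d) b25333 (.tok (nat_lit 6) (nat_lit 0x1780002f0000600000bfe59580000300000) (.hit (nat_lit 25) (nat_lit 65) (nat_lit 0x1780002f0000600000bfe59580000300000)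 b25334 (.hit (nat_lit 26) (nat_lit 66) (nat_lit 0x1780002f00005fd296bfcd997f9b22ff4f7) b25335 (.nil))) (.tok (nat_lit 9) (nat_lit 0x1780002f00005fc998bfe0b97fb082ff7a3) (.hit (nat_lit 23) (nat_lit 63) (nat_lit 0x1780002f00005fa408bfcb357f965aff45e) b25336 (.hit (nat_lit 24) (nat_lit 64) (nat_lit 0x1780002f00005fc998bfe0b97fb082ff7a3) b25337 (.nil))) (.nil))))) (.one (nat_lit 17) (nat_lit 27) (nat_lit 67) (nat_lit 0x1780002f00005fb4dcbf846d7f08cafe2ac) b25338 (.tok (nat_lit 20) (nat_lit 0x1780002f00005fb488bfad397f5a62fecdf) (.hit (nat_lit 28) (nat_lit 68) (nat_lit 0x1780002f00005f950abfad397f5a62fecdf) b25341 (.hit (nat_lit 29) (nat_lit 69) (nat_lit 0x1780002f00005fb488bf7f197efc2afe118) b25342 (.nil))) (.tok (nat_lit 23) (nat_lit 0x1780002f00005fc6e4bfdf357f7bfaff5ac) (.hit (nat_lit 30) (nat_lit 70) (nat_lit 0x1780002f00005fc6e4bfdf357f7bfaff5ac) b25339 (.hit (nat_lit 31) (nat_lit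 71) (nat_lit 0x1780002f00005fae80bf7e257efc3afe11a) b25340 (.nil))) (.one (nat_lit 38) (nat_lit 36) (nat_lit 76) (nat_lit 0x1780002f00005fac4abf856d7f0acafe2ec) b25343 (.tok (nat_lit 41) (nat_lit 0x1780002f00005fa78ebf70f57ec322fd9f7) (.hit (nat_lit 37) (nat_lit 77) (nat_lit 0x1780002f00005fa78ebf62217e949afd598) b25344 (.hit (nat_lit 38) (nat_lit 78) (nat_lit 0x1780002f00005fa16abf70f57ec322fd9f7) b25345 (.nil))) (.tok (nat_lit 44) (nat_lit 0x1780002f00005fb6e2bf82957ec62afdaf0) (.hit (nat_lit 39) (nat_lit 79) (nat_lit 0x1780002f00005f5072bf24097e4802fca93) b25348 (.hit (nat_lit 40) (nat_lit 80) (nat_lit 0x1780002f00005fb6e2bf82957ec62afdaf0) b25349 (.nil))) (.tok (nat_lit 47) (nat_lit 0x1780002f00005fba9abf8a017ed79afddc2) (.hit (nat_lit 41) (nat_lit 81) (nat_lit 0x1780002f00005fba9abf8a017ed79afddc2) b25346 (.hit (nat_lit 42) (nat_lit 82) (nat_lit 0x1780002f00005fa996bf63b57eaa1afd6d6)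 b25347 (.nil))) (.one (nat_lit 50) (nat_lit 43) (nat_lit 83) (nat_lit 0x1780002f00005fa96cbf6b257ed63afdc5a) b25359 (.tok (nat_lit 53) (nat_lit 0x1780002f00005fa31ebf85f17f0bd2fe30d) (.hit (nat_lit 44) (nat_lit 84) (nat_lit 0x1780002f00005f9974bf85f17f0bd2fe30d) b25360 (.hit (nat_lit 45) (nat_lit 85) (nat_lit 0x1780002f00005fa31ebf74157ea082fd698) b25361 (.nil))) (.tok (nat_lit 56) (nat_lit 0x1780002f00005fb12ebfce257fb032ff4b9) (.hit (nat_lit 46) (nat_lit 86) (nat_lit 0x1780002f00005fb12ebfce257fb032ff4b9) b25362 (.one (nat_lit 3) (nat_lit 50) (nat_lit 90) (nat_lit 0x1780002f00005f9160bfa5e57f4bbafeb0a) b25366 (.tok (nat_lit 6) (nat_lit 0x1780002f00005f97bcbfb29d7f652afee38) (.hit (nat_lit 48) (nat_lit 88) (nat_lit 0x1780002f00005f97bcbfb29d7f652afee38) b25364 (.hit (nat_lit 49) (nat_lit 89) (nat_lit 0x1780002f00005f9318bfa9557f529afebe6) b25365 (.nil))) (.one (nat_lit 9) (nat_lit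 47) (nat_lit 87) (nat_lit 0x1780002f00005f8e9ebfa0617f40b2fe9a9) b25363 (.nil))))) (.one (nat_lit 59) (nat_lit 51) (nat_lit 91) (nat_lit 0x1780002f00005fa97ebf65f57e92b2fd468) b25367 (.one (nat_lit 62) (nat_lit 52) (nat_lit 92) (nat_lit 0x1780002f00005fc070bf92d17eec62fdf91) b25350 (.tok (nat_lit 65) (nat_lit 0x1780002f00005fc442bfd1a97f609afeebf) (.hit (nat_lit 53) (nat_lit 93) (nat_lit 0x1780002f00005fc442bfd1a97f609afeebf) b25351 (.hit (nat_lit 54) (nat_lit 94) (nat_lit 0x1780002f00005fbb5abf86217edbbafdd7d) b25352 (.nil))) (.tok (nat_lit 68) (nat_lit 0x1780002f00005ff06ac00a017fcfa2ffcb0) (.hit (nat_lit 55) (nat_lit 95) (nat_lit 0x1780002f00005fdfbebfe43d7faa4aff7bd) b25353 (.one (nat_lit 3) (nat_lit 59) (nat_lit 99) (nat_lit 0x1780002f00005fcaa4bfc1697f2afafe978) b25357 (.one (nat_lit 6) (nat_lit 56) (nat_lit 96) (nat_lit 0x1780002f00005fe9a4c00a017fcfa2ffcb0) b25354 (.tok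 (nat_lit 9) (nat_lit 0x1780002f00005ff06abfe3857fcb42ff7f3) (.hit (nat_lit 57) (nat_lit 97) (nat_lit 0x1780002f00005ff06abfe3857fcb42ff7f3) b25355 (.hit (nat_lit 58) (nat_lit 98) (nat_lit 0x1780002f00005fc884bfad657f20bafe5aa) b25356 (.nil))) (.nil))))) (.one (nat_lit 71) (nat_lit 60) (nat_lit 100) (nat_lit 0x1780002f00005fb136bf73d17eaf7afd7f6) b25358 (.nil)))))))))))))))))) (.nil)
noncomputable def r26_14 : Rw Blk := .tok (nat_lit 6) (nat_lit 0xbfac2d7f6f82ff654600000bfeab97fe96afea8e5fd5c8c000017fb242ff81a5fbfe2bfbe917f0362feac6) (.hit (nat_lit 81) (nat_lit 0) (nat_lit 0xbf92e17f5752fe61a600000bfeab97fe96afea8e5fd5c8c000017fb242ff81a5fbfe2bfbe917efd7afe2d9) b25379 (.tok (nat_lit 3) (nat_lit 0xbfac2d7f6f82ff6545fe7b8bfcdf17f9be2fd9205fb77cbfab657f6562fef9c5faf00bf64d57f0362feac6) (.hit (nat_lit 82) (nat_lit 1) (nat_lit 0xbf2ecd7e22c2fda725fa486bf4af17e95e2fb8605f75fcbf27697e75c2fcedc5f6d80bee1d57e4adafd7e5)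 b25380 (.one (nat_lit 14) (nat_lit 84) (nat_lit 4) (nat_lit 0xbfa2a57f6f82fef925fdf20bfb4117f7af2fc2e45f8b04bf9ab57f518afe6a75f8288bf0be57ec3b2fe372) b25381 (.one (nat_lit 56) (nat_lit 86) (nat_lit 6) (nat_lit 0xbf7a217efa72fe1465fd39ebf9c057f4a72fcabd5f9ab6bf837d7f213afe1395f923abf2b497edb92fe0cf) b25382 (.one (nat_lit 68) (nat_lit 85) (nat_lit 5) (nat_lit 0xbfac2d7f4e8aff6545fe7b8bfcdf17f9be2fd9205fb77cbfab657f6562fef9c5faf00bf64d57f0362feac6) b25383 (.nil))))) (.nil))) (.tok (nat_lit 9) (nat_lit 0xc00001800003000005ffe10c0000180000300000600000bfda0580000300000600000c0000180000300000) (.hit (nat_lit 157) (nat_lit 0) (nat_lit 0xbf92e17f5752fe61a5ff414bfeab97fe96afdffb5fc688bfa41d7f465aff7465fb96ebf986d7f3292fe18d) b25368 (.tok (nat_lit 3) (nat_lit 0xbfac2d7f6f82ff6545fe508bfcdf17f9be2ff28e5fd77cbf8d717f6202fef9c5fe5eebfbdb97feb82fef02) (.hit (nat_lit 158) (nat_lit 1) (nat_lit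 0xbf2ecd7e22c2fda725fa388bf4af17e95e2fca065f9c3cbf0cb17e71bafcedc5f9436bf42897efdeafd858) b25369 (.one (nat_lit 14) (nat_lit 160) (nat_lit 4) (nat_lit 0xbfa2a57f6f82fef925fc24abf87457f1f82febda5fd186bf7f957f4be2fe6905fd4fabfb1617f66bafe68d) b25370 (.one (nat_lit 56) (nat_lit 162) (nat_lit 6) (nat_lit 0xbfac2d7f4e8aff6545fe508bfcdf17f9be2ff28e5fd77cbf8d717f6202fef9c5fe5eebfbdb97feb82fef02) b25371 (.one (nat_lit 68) (nat_lit 161) (nat_lit 5) (nat_lit 0xbf7a217efa72fe1465fc842bf94657f28cafe5045fb754bf68357f1ddafe1395fcfccbf9c257fa1b2fe1eb) b25372 (.nil))))) (.tok (nat_lit 40) (nat_lit 0xbf9c857f410afee565fcd0abf9df57f3beafe30f5fcc1ebf68157f4392fe6a25fc28abf8a057f8b12fe61a) (.hit (nat_lit 176) (nat_lit 33) (nat_lit 0xbf9c857f410afee565fcd0abf9df57f3beafe2aa5fc676bf68157f4392fe6a25fbf22bf8a057f8b12fe61a) b25373 (.hit (nat_lit 177) (nat_lit 34) (nat_lit 0xbf89dd7edc9afe4345fc096bf850d7f0a1afe30f5fcc1ebf5a017f1ba2fe2c75fc28abf86dd7f4e72fdf50)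 b25374 (.nil))) (.tok (nat_lit 43) (nat_lit 0xc000017fd533000005ffe10c00001800002ffe3c600000bfda0580000300000600000c0000180000300000) (.hit (nat_lit 178) (nat_lit 35) (nat_lit 0xbf88e97ef252ffb5f5ffe10c00001800002fe5a45fd084bfbf817f9812ffc205fc808bf96e57f26eb00000) b25377 (.hit (nat_lit 179) (nat_lit 36) (nat_lit 0xc000017fd533000005ff12abfe54d7fdb0affe3c600000bfda0580000300000600000c00001800002ff9d3) b25378 (.nil))) (.tok (nat_lit 46) (nat_lit 0xbfb31d800002ff00c5ff248bfe8717fd0e3000005ff4dcbfb9fd7fc522ff63c5ff4a2bfee057fb8f2ff278) (.hit (nat_lit 180) (nat_lit 37) (nat_lit 0xbfb31d800002ff00c5ff248bfe8717fd0e3000005ff4dcbfb9fd7fc522ff63c5ff4a2bfee057fb8f2ff278) b25375 (.hit (nat_lit 181) (nat_lit 38) (nat_lit 0xbf9c897f51dafef0c5fdf1ebfc21d7f843afe39c5fd430bf819d7f499afeca75fc81abfaef17faaaafeb40) b25376 (.nil))) (.nil)))))) (.nil))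
noncomputable def r26_15 : Rw Blk := .tok (nat_lit 3) (nat_lit 0xbc000178000300000) (.hit (nat_lit 61) (nat_lit 0) (nat_lit 0xbc0001780002fed3f) b12933 (.tok (nat_lit 14) (nat_lit 0xbc000178000300000) (.hit (nat_lit 82) (nat_lit 61) (nat_lit 0xbc000178000300000) b12934 (.one (nat_lit 3) (nat_lit 83) (nat_lit 62) (nat_lit 0xbc0001780002fda5e) b12935 (.tok (nat_lit 6) (nat_lit 0xbc0001780002fdee9) (.hit (nat_lit 86) (nat_lit 65) (nat_lit 0xbc0001780002fde0e) b12938 (.hit (nat_lit 87) (nat_lit 66) (nat_lit 0xbc0001780002fdee9) b12939 (.nil))) (.tok (nat_lit 9) (nat_lit 0xbc0001780002ffe02) (.hit (nat_lit 84) (nat_lit 63) (nat_lit 0xbc0001780002ffe02) b12936 (.hit (nat_lit 85) (nat_lit 64) (nat_lit 0xbc0001780002fdd1b) b12937 (.nil))) (.nil))))) (.one (nat_lit 17) (nat_lit 88) (nat_lit 67) (nat_lit 0xbc0001780002fd600) b12940 (.tok (nat_lit 20) (nat_lit 0xbc0001780002fdc29) (.hit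 (nat_lit 89) (nat_lit 68) (nat_lit 0xbc0001780002fdc29) b12941 (.hit (nat_lit 90) (nat_lit 69) (nat_lit 0xbc0001780002fd409) b12942 (.nil))) (.tok (nat_lit 23) (nat_lit 0xbc0001780002fe24e) (.hit (nat_lit 91) (nat_lit 70) (nat_lit 0xbc0001780002fe24e) b12943 (.hit (nat_lit 92) (nat_lit 71) (nat_lit 0xbc0001780002fd429) b12944 (.nil))) (.one (nat_lit 38) (nat_lit 97) (nat_lit 76) (nat_lit 0xbc0001780002fd320) b12945 (.tok (nat_lit 41) (nat_lit 0xbc0001780002fd15b) (.hit (nat_lit 98) (nat_lit 77) (nat_lit 0xbc0001780002fbadf) b12946 (.hit (nat_lit 99) (nat_lit 78) (nat_lit 0xbc0001780002fd15b) b12947 (.nil))) (.tok (nat_lit 44) (nat_lit 0xbc0001780002fcb88) (.hit (nat_lit 100) (nat_lit 79) (nat_lit 0xbc0001780002fbef3) b12948 (.hit (nat_lit 101) (nat_lit 80) (nat_lit 0xbc0001780002fcb88) b12949 (.nil))) (.tok (nat_lit 47) (nat_lit 0xbc0001780002fcc75) (.hit (nat_lit 102) (nat_lit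 81) (nat_lit 0xbc0001780002fcb7b) b12950 (.hit (nat_lit 103) (nat_lit 82) (nat_lit 0xbc0001780002fcc75) b12951 (.nil))) (.one (nat_lit 50) (nat_lit 104) (nat_lit 83) (nat_lit 0xbc0001780002fd3a2) b12952 (.tok (nat_lit 53) (nat_lit 0xbc0001780002fd6ed) (.hit (nat_lit 105) (nat_lit 84) (nat_lit 0xbc0001780002fd6ed) b12953 (.hit (nat_lit 106) (nat_lit 85) (nat_lit 0xbc0001780002fd015) b12954 (.nil))) (.tok (nat_lit 56) (nat_lit 0xbc0001780002ff0b0) (.hit (nat_lit 107) (nat_lit 86) (nat_lit 0xbc0001780002ff0b0) b12955 (.one (nat_lit 3) (nat_lit 111) (nat_lit 90) (nat_lit 0xbc0001780002fdebc) b12959 (.tok (nat_lit 6) (nat_lit 0xbc0001780002ff0a7) (.hit (nat_lit 109) (nat_lit 88) (nat_lit 0xbc0001780002ff0a7) b12957 (.hit (nat_lit 110) (nat_lit 89) (nat_lit 0xbc0001780002fdef0) b12958 (.nil))) (.one (nat_lit 9) (nat_lit 108) (nat_lit 87) (nat_lit 0xbc0001780002fe1c3) b12956 (.nil)))))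 (.one (nat_lit 59) (nat_lit 112) (nat_lit 91) (nat_lit 0xbc0001780002fbf53) b12960 (.one (nat_lit 62) (nat_lit 113) (nat_lit 92) (nat_lit 0xbc0001780002fda6b) b12961 (.tok (nat_lit 65) (nat_lit 0xbc0001780002fe024) (.hit (nat_lit 114) (nat_lit 93) (nat_lit 0xbc0001780002fe024) b12962 (.hit (nat_lit 115) (nat_lit 94) (nat_lit 0xbc0001780002fd028) b12963 (.nil))) (.tok (nat_lit 68) (nat_lit 0xbc0001780002fff17) (.hit (nat_lit 116) (nat_lit 95) (nat_lit 0xbc0001780002fff17) b12964 (.one (nat_lit 3) (nat_lit 120) (nat_lit 99) (nat_lit 0xbc0001780002fe5aa) b12968 (.one (nat_lit 6) (nat_lit 117) (nat_lit 96) (nat_lit 0xbc0001780002fe8b1) b12965 (.tok (nat_lit 9) (nat_lit 0xbc0001780002feda6) (.hit (nat_lit 118) (nat_lit 97) (nat_lit 0xbc0001780002fe911) b12966 (.hit (nat_lit 119) (nat_lit 98) (nat_lit 0xbc0001780002feda6) b12967 (.nil))) (.nil))))) (.one (nat_lit 71) (nat_lit 121) (nat_lit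 100) (nat_lit 0xbc0001780002fbf33) b12969 (.nil)))))))))))))))))) (.nil)
noncomputable def r26_16 : Rw Blk := .tok (nat_lit 3) (nat_lit 0x5e0000bc000180000300000) (.hit (nat_lit 61) (nat_lit 0) (nat_lit 0x5e0000bc00017f5532fea6f) b25493 (.tok (nat_lit 14) (nat_lit 0x5e0000bc00017ffa7affea5) (.hit (nat_lit 82) (nat_lit 61) (nat_lit 0x5e0000bc00017fe0baffb80) b25494 (.one (nat_lit 3) (nat_lit 83) (nat_lit 62) (nat_lit 0x5e0000bc00017f7592fefaa) b25495 (.tok (nat_lit 6) (nat_lit 0x5e0000bc00017ffa7affd96) (.hit (nat_lit 86) (nat_lit 65) (nat_lit 0x5e0000bc00017ffa7affd96) b25496 (.hit (nat_lit 87) (nat_lit 66) (nat_lit 0x5e0000bc00017f446afe985) b25497 (.nil))) (.tok (nat_lit 9) (nat_lit 0x5e0000bc00017feff2ffea5) (.hit (nat_lit 84) (nat_lit 63) (nat_lit 0x5e0000bc00017feff2ffea5) b25498 (.hit (nat_lit 85) (nat_lit 64) (nat_lit 0x5e0000bc00017fc1d2ff932) b25499 (.nil))) (.nil)))))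 (.one (nat_lit 17) (nat_lit 88) (nat_lit 67) (nat_lit 0x5e0000bc00017f3cf2fe896) b25500 (.tok (nat_lit 20) (nat_lit 0x5e0000bc00017f0fa2fe2ec) (.hit (nat_lit 89) (nat_lit 68) (nat_lit 0x5e0000bc00017f0fa2fe2ec) b25503 (.hit (nat_lit 90) (nat_lit 69) (nat_lit 0x5e0000bc00017ecd5afdaa3) b25502 (.nil))) (.tok (nat_lit 23) (nat_lit 0x5e0000bc00017f0772fe1e6) (.hit (nat_lit 91) (nat_lit 70) (nat_lit 0x5e0000bc00017f0772fe1e6) b25501 (.hit (nat_lit 92) (nat_lit 71) (nat_lit 0x5e0000bc00017ecd5afdaa3) b25502 (.nil))) (.one (nat_lit 38) (nat_lit 97) (nat_lit 76) (nat_lit 0x5e0000bc00017ed6a2fdbcc) b25504 (.tok (nat_lit 41) (nat_lit 0x5e0000bc00017f1812fe3fa) (.hit (nat_lit 98) (nat_lit 77) (nat_lit 0x5e0000bc00017dfe12fc0ba) b25505 (.hit (nat_lit 99) (nat_lit 78) (nat_lit 0x5e0000bc00017f1812fe3fa) b25506 (.nil))) (.tok (nat_lit 44) (nat_lit 0x5e0000bc00017ea2cafd551) (.hit (nat_lit 100)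 (nat_lit 79) (nat_lit 0x5e0000bc00017e4d1afca9b) b25509 (.hit (nat_lit 101) (nat_lit 80) (nat_lit 0x5e0000bc00017ea2cafd551) b25510 (.nil))) (.tok (nat_lit 47) (nat_lit 0x5e0000bc00017ed7a2fdbec) (.hit (nat_lit 102) (nat_lit 81) (nat_lit 0x5e0000bc00017e792afd01d) b25507 (.hit (nat_lit 103) (nat_lit 82) (nat_lit 0x5e0000bc00017ed7a2fdbec) b25508 (.nil))) (.one (nat_lit 50) (nat_lit 104) (nat_lit 83) (nat_lit 0x5e0000bc00017ec262fd944) b25520 (.tok (nat_lit 53) (nat_lit 0x5e0000bc00017f0f3afe2df) (.hit (nat_lit 105) (nat_lit 84) (nat_lit 0x5e0000bc00017ede92fdcca) b25521 (.hit (nat_lit 106) (nat_lit 85) (nat_lit 0x5e0000bc00017f0f3afe2df) b25522 (.nil))) (.tok (nat_lit 56) (nat_lit 0x5e0000bc00017f9972ff933) (.hit (nat_lit 107) (nat_lit 86) (nat_lit 0x5e0000bc00017f92caff933) b25523 (.one (nat_lit 3) (nat_lit 111) (nat_lit 90) (nat_lit 0x5e0000bc00017f566afebc5) b25527 (.tok (nat_lit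 6) (nat_lit 0x5e0000bc00017f9972ff875) (.hit (nat_lit 109) (nat_lit 88) (nat_lit 0x5e0000bc00017f9972ff875) b25525 (.hit (nat_lit 110) (nat_lit 89) (nat_lit 0x5e0000bc00017f0cbafe28f) b25526 (.nil))) (.one (nat_lit 9) (nat_lit 108) (nat_lit 87) (nat_lit 0x5e0000bc00017f5352feb62) b25524 (.nil))))) (.one (nat_lit 59) (nat_lit 112) (nat_lit 91) (nat_lit 0x5e0000bc00017e2d62fc6a4) b25528 (.one (nat_lit 62) (nat_lit 113) (nat_lit 92) (nat_lit 0x5e0000bc00017ee4d2fdd92) b25511 (.tok (nat_lit 65) (nat_lit 0x5e0000bc00017f6f32feede) (.hit (nat_lit 114) (nat_lit 93) (nat_lit 0x5e0000bc00017f6f32feede) b25512 (.hit (nat_lit 115) (nat_lit 94) (nat_lit 0x5e0000bc00017ef022fdefc) b25513 (.nil))) (.tok (nat_lit 68) (nat_lit 0x5e0000bc000180000300000) (.hit (nat_lit 116) (nat_lit 95) (nat_lit 0x5e0000bc00017fe35affde0) b25514 (.one (nat_lit 3) (nat_lit 120) (nat_lit 99) (nat_lit 0x5e0000bc00017f0682fe1c8)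 b25518 (.one (nat_lit 6) (nat_lit 117) (nat_lit 96) (nat_lit 0x5e0000bc00017fbe92ff8ca) b25515 (.tok (nat_lit 9) (nat_lit 0x5e0000bc000180000300000) (.hit (nat_lit 118) (nat_lit 97) (nat_lit 0x5e0000bc000180000300000) b25516 (.hit (nat_lit 119) (nat_lit 98) (nat_lit 0x5e0000bc00017ed16afdb25) b25517 (.nil))) (.nil))))) (.one (nat_lit 71) (nat_lit 121) (nat_lit 100) (nat_lit 0x5e0000bc00017e2ccafc691) b25519 (.nil)))))))))))))))))) (.nil)
noncomputable def r26_17 : Rw Blk := .tok (nat_lit 3) (nat_lit 0x2f00005e0000bfb1617f7372fe862) (.hit (nat_lit 61) (nat_lit 0) (nat_lit 0x2f00005e0000bf665d7ebd9afd7c0) b25384 (.tok (nat_lit 14) (nat_lit 0x2f00005e0000bfb1617f3282fe449) (.hit (nat_lit 82) (nat_lit 61) (nat_lit 0x2f00005e0000bfb1617f3282fe449) b25385 (.one (nat_lit 3) (nat_lit 83) (nat_lit 62) (nat_lit 0x2f00005e0000bf1ad97e4522fcb8c) b25386 (.tok (nat_lit 6) (nat_lit 0x2f00005e0000bfa9697f075afe339)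 (.hit (nat_lit 86) (nat_lit 65) (nat_lit 0x2f00005e0000bfa9697f075afe339) b25387 (.hit (nat_lit 87) (nat_lit 66) (nat_lit 0x2f00005e0000bf25cd7e5b0afce49) b25388 (.nil))) (.tok (nat_lit 9) (nat_lit 0x2f00005e0000bf2d057e697afd017) (.hit (nat_lit 84) (nat_lit 63) (nat_lit 0x2f00005e0000bf29997e62a2fcf3c) b25389 (.hit (nat_lit 85) (nat_lit 64) (nat_lit 0x2f00005e0000bf2d057e697afd017) b25390 (.nil))) (.nil))))) (.one (nat_lit 17) (nat_lit 88) (nat_lit 67) (nat_lit 0x2f00005e0000bf09617e2232fc72e) b25391 (.tok (nat_lit 20) (nat_lit 0x2f00005e0000bf3a997e84a2fd37c) (.hit (nat_lit 89) (nat_lit 68) (nat_lit 0x2f00005e0000bf3a997e84a2fd37c) b25394 (.hit (nat_lit 90) (nat_lit 69) (nat_lit 0x2f00005e0000bf02057e137afc557) b25395 (.nil))) (.tok (nat_lit 23) (nat_lit 0x2f00005e0000bf22057e537afcd57) (.hit (nat_lit 91) (nat_lit 70) (nat_lit 0x2f00005e0000bf22057e537afcd57) b25392 (.hit (nat_lit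 92) (nat_lit 71) (nat_lit 0x2f00005e0000bf01857e127afc537) b25393 (.nil))) (.one (nat_lit 26) (nat_lit 93) (nat_lit 72) (nat_lit 0x2f00005e0000beb7997d7ea2fb2bc) b25396 (.one (nat_lit 29) (nat_lit 94) (nat_lit 73) (nat_lit 0x2f00005e0000bec1c57d92fafb547) b25397 (.one (nat_lit 32) (nat_lit 95) (nat_lit 74) (nat_lit 0x2f00005e0000bed2497db402fb968) b25399 (.one (nat_lit 35) (nat_lit 96) (nat_lit 75) (nat_lit 0x2f00005e0000bee6817ddc72fbe76) b25398 (.one (nat_lit 50) (nat_lit 104) (nat_lit 83) (nat_lit 0x2f00005e0000bf1b0d7e458afcb99) b25409 (.tok (nat_lit 53) (nat_lit 0x2f00005e0000bf31f17e7352fd152) (.hit (nat_lit 105) (nat_lit 84) (nat_lit 0x2f00005e0000bf31f17e7352fd152) b25410 (.hit (nat_lit 106) (nat_lit 85) (nat_lit 0x2f00005e0000bef2017df372fc156) b25411 (.nil))) (.tok (nat_lit 56) (nat_lit 0x2f00005e0000bfadbd7f7372fe862) (.hit (nat_lit 107) (nat_lit 86) (nat_lit 0x2f00005e0000bfadbd7f7372fe862)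 b25412 (.one (nat_lit 3) (nat_lit 111) (nat_lit 90) (nat_lit 0x2f00005e0000bf48097e9f82fd6d8) b25416 (.tok (nat_lit 6) (nat_lit 0x2f00005e0000bf67f97edf62fded4) (.hit (nat_lit 109) (nat_lit 88) (nat_lit 0x2f00005e0000bf55a57ebabafda3f) b25414 (.hit (nat_lit 110) (nat_lit 89) (nat_lit 0x2f00005e0000bf67f97edf62fded4) b25415 (.nil))) (.one (nat_lit 9) (nat_lit 108) (nat_lit 87) (nat_lit 0x2f00005e0000bf54257eb7bafd9df) b25413 (.nil))))) (.one (nat_lit 59) (nat_lit 112) (nat_lit 91) (nat_lit 0x2f00005e0000beae2d7d6bcafb061) b25417 (.one (nat_lit 62) (nat_lit 113) (nat_lit 92) (nat_lit 0x2f00005e0000beffe97e0f42fc4d0) b25400 (.tok (nat_lit 65) (nat_lit 0x2f00005e0000bf0d157e299afc81b) (.hit (nat_lit 114) (nat_lit 93) (nat_lit 0x2f00005e0000bf0d157e299afc81b) b25401 (.hit (nat_lit 115) (nat_lit 94) (nat_lit 0x2f00005e0000bef1b57df2dafc143) b25402 (.nil))) (.tok (nat_lit 68) (nat_lit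 0x2f00005e0000bf74217f32b2fdf9f) (.hit (nat_lit 116) (nat_lit 95) (nat_lit 0x2f00005e0000bf74217f32b2fdf85) b25403 (.one (nat_lit 3) (nat_lit 120) (nat_lit 99) (nat_lit 0x2f00005e0000bf2c517e6812fcfea) b25407 (.one (nat_lit 6) (nat_lit 117) (nat_lit 96) (nat_lit 0x2f00005e0000bf386d7e804afd2f1) b25404 (.tok (nat_lit 9) (nat_lit 0x2f00005e0000bf73fd7f0362fdf9f) (.hit (nat_lit 118) (nat_lit 97) (nat_lit 0x2f00005e0000bf73fd7f0362fdf9f) b25405 (.hit (nat_lit 119) (nat_lit 98) (nat_lit 0x2f00005e0000bf2d217e69b2fd01e) b25406 (.nil))) (.nil))))) (.one (nat_lit 71) (nat_lit 121) (nat_lit 100) (nat_lit 0x2f00005e0000beaead7d6ccafb081) b25408 (.nil)))))))))))))))))) (.tok (nat_lit 40) (nat_lit 0x2f00005e0000c1128182232b030bb) (.hit (nat_lit 221) (nat_lit 0) (nat_lit 0x2f00005e0000c053a980b07b00cdb) b25418 (.tok (nat_lit 6) (nat_lit 0x2f00005e0000c007498048130033f) (.hit (nat_lit 222)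 (nat_lit 7) (nat_lit 0x2f00005e0000c007498048130033f) b25421 (.hit (nat_lit 223) (nat_lit 15) (nat_lit 0x2f00005e0000bfb2958003a2ffc1d) b25422 (.nil))) (.tok (nat_lit 9) (nat_lit 0x2f00005e0000c1128182232b030bb) (.hit (nat_lit 224) (nat_lit 20) (nat_lit 0x2f00005e0000c1128182232b030bb) b25419 (.hit (nat_lit 225) (nat_lit 28) (nat_lit 0x2f00005e0000bff5e17fcfb2ff683) b25420 (.nil))) (.nil)))) (.tok (nat_lit 43) (nat_lit 0x2f00005e0000c04735807d8b00042) (.hit (nat_lit 232) (nat_lit 0) (nat_lit 0x2f00005e0000c04735807d8affec3) b25423 (.tok (nat_lit 3) (nat_lit 0x2f00005e0000bfcbe97fcfcaff35d) (.hit (nat_lit 233) (nat_lit 1) (nat_lit 0x2f00005e0000bf6c257f1042fdb6c) b25424 (.one (nat_lit 67) (nat_lit 234) (nat_lit 2) (nat_lit 0x2f00005e0000bfcbe97fcfcaff35d) b25425 (.nil))) (.tok (nat_lit 6) (nat_lit 0x2f00005e0000bfff7d8036f300042) (.hit (nat_lit 235) (nat_lit 7) (nat_lit 0x2f00005e0000bf8b4d7f4e92fe336)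 b25426 (.hit (nat_lit 238) (nat_lit 15) (nat_lit 0x2f00005e0000bf76917f251afde07) b25429 (.tok (nat_lit 55) (nat_lit 0x2f00005e0000bfff7d8036f300042) (.hit (nat_lit 236) (nat_lit 8) (nat_lit 0x2f00005e0000bfe46d8000d2ff97e) b25427 (.hit (nat_lit 239) (nat_lit 16) (nat_lit 0x2f00005e0000bfff7d8036f300042) b25430 (.one (nat_lit 6) (nat_lit 237) (nat_lit 9) (nat_lit 0x2f00005e0000bff50980220affda5) b25428 (.nil)))) (.nil)))) (.nil)))) (.tok (nat_lit 46) (nat_lit 0x2f00005e0000c0ce65816b5302d52) (.hit (nat_lit 246) (nat_lit 0) (nat_lit 0x2f00005e0000c015c180310b0018b) b25431 (.tok (nat_lit 3) (nat_lit 0x2f00005e0000c0ce6580a2a302d52) (.hit (nat_lit 247) (nat_lit 1) (nat_lit 0x2f00005e0000bff2d18028eb00370) b25432 (.one (nat_lit 55) (nat_lit 248) (nat_lit 3) (nat_lit 0x2f00005e0000c0ce6580a2a302d52) b25433 (.nil))) (.tok (nat_lit 9) (nat_lit 0x2f00005e0000c071ad816b53028c6) (.hit (nat_lit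 249) (nat_lit 20) (nat_lit 0x2f00005e0000bfbe517fb0aafed24) b25434 (.hit (nat_lit 252) (nat_lit 28) (nat_lit 0x2f00005e0000bfd0ed7ffb72fffe0) b25437 (.tok (nat_lit 67) (nat_lit 0x2f00005e0000c071ad816b53028c6) (.hit (nat_lit 250) (nat_lit 21) (nat_lit 0x2f00005e0000bff3398090ab001a7) b25435 (.hit (nat_lit 253) (nat_lit 29) (nat_lit 0x2f00005e0000c071ad80874b01e7b) b25438 (.one (nat_lit 9) (nat_lit 251) (nat_lit 22) (nat_lit 0x2f00005e0000c063d9816b53028c6) b25436 (.nil)))) (.nil)))) (.nil)))) (.nil))))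
noncomputable def r26_18 : Rw Blk := .tok (nat_lit 3) (nat_lit 0x5e0000bc00017f0ddafeb09) (.hit (nat_lit 61) (nat_lit 0) (nat_lit 0x5e0000bc00017e630afd3c7) b25439 (.tok (nat_lit 14) (nat_lit 0x5e0000bc00017f0852fe936) (.hit (nat_lit 82) (nat_lit 61) (nat_lit 0x5e0000bc00017eee92fe3da) b25440 (.one (nat_lit 3) (nat_lit 83) (nat_lit 62) (nat_lit 0x5e0000bc00017e836afd488) b25441 (.tok (nat_lit 6) (nat_lit 0x5e0000bc00017efdcafde10) (.hit (nat_lit 86) (nat_lit 65) (nat_lit 0x5e0000bc00017efdcafdd38) b25442 (.hit (nat_lit 87) (nat_lit 66) (nat_lit 0x5e0000bc00017ecfaafde10) b25443 (.nil))) (.tok (nat_lit 9) (nat_lit 0x5e0000bc00017f0852fe936) (.hit (nat_lit 84) (nat_lit 63) (nat_lit 0x5e0000bc00017f0852fe936) b25444 (.hit (nat_lit 85) (nat_lit 64) (nat_lit 0x5e0000bc00017e5242fce63) b25445 (.nil))) (.nil))))) (.one (nat_lit 17) (nat_lit 88) (nat_lit 67) (nat_lit 0x5e0000bc00017e4acafcd74)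 b25446 (.tok (nat_lit 20) (nat_lit 0x5e0000bc00017e154afc6c4) (.hit (nat_lit 89) (nat_lit 68) (nat_lit 0x5e0000bc00017e154afc6c4) b25449 (.hit (nat_lit 90) (nat_lit 69) (nat_lit 0x5e0000bc00017ddb32fbf81) b25448 (.nil))) (.tok (nat_lit 23) (nat_lit 0x5e0000bc00017e1d7afc7ca) (.hit (nat_lit 91) (nat_lit 70) (nat_lit 0x5e0000bc00017e1d7afc7ca) b25447 (.hit (nat_lit 92) (nat_lit 71) (nat_lit 0x5e0000bc00017ddb32fbf81) b25448 (.nil))) (.one (nat_lit 26) (nat_lit 93) (nat_lit 72) (nat_lit 0x5e0000bc00017d7f72fb409) b25450 (.one (nat_lit 29) (nat_lit 94) (nat_lit 73) (nat_lit 0x5e0000bc00017d8552fb4c5) b25451 (.one (nat_lit 32) (nat_lit 95) (nat_lit 74) (nat_lit 0x5e0000bc00017d5efafaffa) b25453 (.one (nat_lit 35) (nat_lit 96) (nat_lit 75) (nat_lit 0x5e0000bc00017dacbafb9b2) b25452 (.one (nat_lit 50) (nat_lit 104) (nat_lit 83) (nat_lit 0x5e0000bc00017df2aafc270) b25463 (.tok (nat_lit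 53) (nat_lit 0x5e0000bc00017e7d0afd3bc) (.hit (nat_lit 105) (nat_lit 84) (nat_lit 0x5e0000bc00017e7d0afd3bc) b25464 (.hit (nat_lit 106) (nat_lit 85) (nat_lit 0x5e0000bc00017dfdfafc3da) b25465 (.nil))) (.tok (nat_lit 56) (nat_lit 0x5e0000bc00017f0ddafeb09) (.hit (nat_lit 107) (nat_lit 86) (nat_lit 0x5e0000bc00017ef132feb09) b25466 (.one (nat_lit 3) (nat_lit 111) (nat_lit 90) (nat_lit 0x5e0000bc00017e145afc6a6) b25470 (.tok (nat_lit 6) (nat_lit 0x5e0000bc00017f0ddafea25) (.hit (nat_lit 109) (nat_lit 88) (nat_lit 0x5e0000bc00017f0ddafea25) b25468 (.hit (nat_lit 110) (nat_lit 89) (nat_lit 0x5e0000bc00017ddf42fc003) b25469 (.nil))) (.one (nat_lit 9) (nat_lit 108) (nat_lit 87) (nat_lit 0x5e0000bc00017ecc6afdda8) b25467 (.nil))))) (.one (nat_lit 59) (nat_lit 112) (nat_lit 91) (nat_lit 0x5e0000bc00017d3aa2fab6f) b25471 (.one (nat_lit 62) (nat_lit 113) (nat_lit 92) (nat_lit 0x5e0000bc00017dd03afbe22)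 b25454 (.tok (nat_lit 65) (nat_lit 0x5e0000bc00017e1d12fc7bd) (.hit (nat_lit 114) (nat_lit 93) (nat_lit 0x5e0000bc00017dec6afc1a8) b25455 (.hit (nat_lit 115) (nat_lit 94) (nat_lit 0x5e0000bc00017e1d12fc7bd) b25456 (.nil))) (.tok (nat_lit 68) (nat_lit 0x5e0000bc00017ea74afe1ee) (.hit (nat_lit 116) (nat_lit 95) (nat_lit 0x5e0000bc00017ea0a2fe1ee) b25457 (.one (nat_lit 3) (nat_lit 120) (nat_lit 99) (nat_lit 0x5e0000bc00017e6442fd0a3) b25461 (.one (nat_lit 6) (nat_lit 117) (nat_lit 96) (nat_lit 0x5e0000bc00017e612afd040) b25458 (.tok (nat_lit 9) (nat_lit 0x5e0000bc00017ea74afe148) (.hit (nat_lit 118) (nat_lit 97) (nat_lit 0x5e0000bc00017ea74afe148) b25459 (.hit (nat_lit 119) (nat_lit 98) (nat_lit 0x5e0000bc00017e1a92fc76d) b25460 (.nil))) (.nil))))) (.one (nat_lit 71) (nat_lit 121) (nat_lit 100) (nat_lit 0x5e0000bc00017d3b3afab82) b25462 (.nil)))))))))))))))))) (.tok (nat_lit 40)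 (nat_lit 0x5e0000bc00017ff87b0066e) (.hit (nat_lit 221) (nat_lit 0) (nat_lit 0x5e0000bc00017ff87afff59) b25472 (.tok (nat_lit 6) (nat_lit 0x5e0000bc00017f6a130066e) (.hit (nat_lit 222) (nat_lit 7) (nat_lit 0x5e0000bc00017f6a130066e) b25475 (.hit (nat_lit 223) (nat_lit 15) (nat_lit 0x5e0000bc00017f391aff88a) b25476 (.nil))) (.tok (nat_lit 9) (nat_lit 0x5e0000bc00017ff1fafff55) (.hit (nat_lit 224) (nat_lit 20) (nat_lit 0x5e0000bc00017ff1fafff55) b25473 (.hit (nat_lit 225) (nat_lit 28) (nat_lit 0x5e0000bc00017f8f6aff918) b25474 (.nil))) (.nil)))) (.tok (nat_lit 43) (nat_lit 0x5e0000bc000180970b020e3) (.hit (nat_lit 232) (nat_lit 0) (nat_lit 0x5e0000bc00017febeb00653) b25477 (.tok (nat_lit 3) (nat_lit 0x5e0000bc000180557b01669) (.hit (nat_lit 233) (nat_lit 1) (nat_lit 0x5e0000bc00017f4be2ff75b) b25478 (.one (nat_lit 67) (nat_lit 234) (nat_lit 2) (nat_lit 0x5e0000bc000180557b01669)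 b25479 (.nil))) (.tok (nat_lit 6) (nat_lit 0x5e0000bc000180970b020e3) (.hit (nat_lit 235) (nat_lit 7) (nat_lit 0x5e0000bc0001802d2b01069) b25480 (.hit (nat_lit 238) (nat_lit 15) (nat_lit 0x5e0000bc00017fd18300266) b25483 (.tok (nat_lit 55) (nat_lit 0x5e0000bc000180970b020e3) (.hit (nat_lit 236) (nat_lit 8) (nat_lit 0x5e0000bc00018078c301a82) b25481 (.hit (nat_lit 239) (nat_lit 16) (nat_lit 0x5e0000bc000180892301d1e) b25484 (.one (nat_lit 6) (nat_lit 237) (nat_lit 9) (nat_lit 0x5e0000bc000180970b020e3) b25482 (.nil)))) (.nil)))) (.nil)))) (.tok (nat_lit 46) (nat_lit 0x5e0000bc000180f6cb02053) (.hit (nat_lit 246) (nat_lit 0) (nat_lit 0x5e0000bc00017fcdbaffcac) b25485 (.tok (nat_lit 3) (nat_lit 0x5e0000bc000180f6cb02053) (.hit (nat_lit 247) (nat_lit 1) (nat_lit 0x5e0000bc00017f599affd0e) b25486 (.one (nat_lit 55) (nat_lit 248) (nat_lit 3) (nat_lit 0x5e0000bc000180f6cb02053) b25487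 (.nil))) (.tok (nat_lit 9) (nat_lit 0x5e0000bc0001802a630179f) (.hit (nat_lit 249) (nat_lit 20) (nat_lit 0x5e0000bc00017f6b7aff54c) b25488 (.hit (nat_lit 252) (nat_lit 28) (nat_lit 0x5e0000bc00017f2222ff96b) b25491 (.tok (nat_lit 67) (nat_lit 0x5e0000bc0001802a630179f) (.hit (nat_lit 250) (nat_lit 21) (nat_lit 0x5e0000bc00017fea8b006a5) b25489 (.hit (nat_lit 253) (nat_lit 29) (nat_lit 0x5e0000bc00017fdfdb00b74) b25492 (.one (nat_lit 9) (nat_lit 251) (nat_lit 22) (nat_lit 0x5e0000bc0001802a630179f) b25490 (.nil)))) (.nil)))) (.nil)))) (.nil))))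
noncomputable def r27_0 : Rw Blk := .tok (nat_lit 6) (nat_lit 0x3000005fd44cbfa96d7f553afe99b5fe476bfc0797f999aff50f) (.hit (nat_lit 81) (nat_lit 0) (nat_lit 0x2fddac5fb1a0bf5b517ee562fdf145fc5ccbf7f6d7ee3e2fde7d) b25529 (.tok (nat_lit 14) (nat_lit 0x3000005fd1d6bfa96d7f553afe50c5fe476bfc0797f999aff50f) (.hit (nat_lit 117) (nat_lit 61) (nat_lit 0x2ff2aa5fcf76bfa96d7f1faafe50c5fd9b0bfc0797f999aff50f) b25530 (.one (nat_lit 3) (nat_lit 118) (nat_lit 62) (nat_lit 0x2fe5045fb3a2bf95917ea812fca655fb02cbf55dd7f236afe095) b25531 (.tok (nat_lit 6) (nat_lit 0x2fe7e35fb150bf82857ee222fd9ac5fc2f0bf92f97f8b22fecba) (.hit (nat_lit 121) (nat_lit 65) (nat_lit 0x2fcf795f80f6bf61ad7ec4aafd9ac5fc2f0bf92f97eb612fd8bd) b25532 (.hit (nat_lit 122) (nat_lit 66) (nat_lit 0x2fe7e35fb150bf82857ee222fcbdf5fbb6ebf6bed7f8b22fecba) b25533 (.nil))) (.tok (nat_lit 9) (nat_lit 0x3000005fd1d6bfa5c17f553afdb745fe476bfb12d7f8222ff501)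 (.hit (nat_lit 119) (nat_lit 63) (nat_lit 0x3000005fd1d6bf8cc17f553afdb745fe476bfb12d7f8222ff501) b25534 (.hit (nat_lit 120) (nat_lit 64) (nat_lit 0x2fe22e5fa342bfa5c17e9062fce815fb02ebf664d7f121afe298) b25535 (.nil))) (.nil))))) (.one (nat_lit 17) (nat_lit 123) (nat_lit 67) (nat_lit 0x2fd79e5fa348bf60657e269afc3525f99b2bf39917ea1d2fd0e0) b25536 (.tok (nat_lit 20) (nat_lit 0x2fe9c45fc99ebf88997ee6dafd22c5fc8b6bf7f497f4e92feaeb) (.hit (nat_lit 124) (nat_lit 68) (nat_lit 0x2fe9c45fc99ebf88997ee6dafd22c5fc8b6bf7f497f4e92feaeb) b25539 (.hit (nat_lit 125) (nat_lit 69) (nat_lit 0x2fd6c85f85aebf7a457e20b2fbf5f5f9548bf29c57e9be2fd48e) b25540 (.nil))) (.tok (nat_lit 23) (nat_lit 0x2fd5f55f8876bf51197eae02fd6d75fbd46bf87a57e9f6afd5e8) (.hit (nat_lit 126) (nat_lit 70) (nat_lit 0x2fcca45f7b4cbf51197eae02fd6d75fbd46bf87a57e9f6afd5e8) b25537 (.hit (nat_lit 127) (nat_lit 71) (nat_lit 0x2fd5f55f8876bf23e97e1a72fbf4c5f96febf29797e955afd3bb)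 b25538 (.nil))) (.one (nat_lit 26) (nat_lit 128) (nat_lit 72) (nat_lit 0x2fcda05f7360bf13097dd752fb2555f86d8bef59d7e52aafcb66) b25541 (.one (nat_lit 29) (nat_lit 129) (nat_lit 73) (nat_lit 0x2fcf4d5f85b6bf36297de502fb13a5f8b42bef88d7e6012fcd13) b25542 (.one (nat_lit 32) (nat_lit 130) (nat_lit 74) (nat_lit 0x2fc25d5f66dcbf4d857dab0afb6785f7c88bf06297df88afc023) b25544 (.one (nat_lit 35) (nat_lit 131) (nat_lit 75) (nat_lit 0x2fd62e5f92e2bf48017e1c0afb00d5f97d8bf13817e971afd3f4) b25543 (.one (nat_lit 38) (nat_lit 132) (nat_lit 76) (nat_lit 0x2fd2a45f8772bf4e317e18b2fc42d5f97f2bf3cfd7e7a6afd05d) b25545 (.tok (nat_lit 41) (nat_lit 0x2fd7995fa332bf61bd7e281afba9d5fa16abf1ce17ea0c2fd438) (.hit (nat_lit 133) (nat_lit 77) (nat_lit 0x2fcda65f8f22bf46517dd8f2fa53d5f8190bef1dd7ea0c2fd438) b25546 (.hit (nat_lit 134) (nat_lit 78) (nat_lit 0x2fd7995fa332bf61bd7e281afba9d5fa16abf1ce17e9d82fd358)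 b25547 (.nil))) (.tok (nat_lit 44) (nat_lit 0x2fdc135fb7febf82f17ea0f2fb4c75fb458bf41e57eeb82fd8d8) (.hit (nat_lit 135) (nat_lit 79) (nat_lit 0x2fdc135fb7febf82f17ea0f2fb4c75fb458bf41e57eeb82fd8d8) b25550 (.hit (nat_lit 136) (nat_lit 80) (nat_lit 0x2fd34c5f7ee4bf41557e04e2fb4aa5f93ccbf07f17e8002fd112) b25551 (.nil))) (.tok (nat_lit 47) (nat_lit 0x2fd7385f9198bf37517e24d2fc31d5f9cd6bf38bd7e9f72fd4fe) (.hit (nat_lit 137) (nat_lit 81) (nat_lit 0x2fb8ea5f53d8bf14157e1032fc31d5f95d2bf38bd7e019afc22e) b25548 (.hit (nat_lit 138) (nat_lit 82) (nat_lit 0x2fd7385f9198bf37517e24d2fbd135f9cd6bf20957e9f72fd4fe) b25549 (.nil))) (.one (nat_lit 50) (nat_lit 139) (nat_lit 83) (nat_lit 0x2fdbcb5f97a8bf5d557e4892fbe355fa228bf29e97ec3eafd98e) b25552 (.tok (nat_lit 53) (nat_lit 0x2fdcc35fc492bf911d7eb142fd1115fb3ccbf708d7ef8dafe198) (.hit (nat_lit 140) (nat_lit 84) (nat_lit 0x2fdcc35fc492bf911d7eb142fd1115fb3ccbf708d7ef8dafe198)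 b25553 (.hit (nat_lit 141) (nat_lit 85) (nat_lit 0x2fd8825f98b6bf60017e2ebafbe985f9b96bf26a97e784afd118) b25554 (.nil))) (.tok (nat_lit 56) (nat_lit 0x2ff39a5fd44cbf9ee57f367afe99b5fe314bfb0e17f36bafe824) (.hit (nat_lit 142) (nat_lit 86) (nat_lit 0x2ff3835fd44cbf8dc57f177afe99b5fd51abf9c597f234afe5bd) b25555 (.one (nat_lit 3) (nat_lit 146) (nat_lit 90) (nat_lit 0x2fe7df5fb196bf6fad7e995afd35f5fc27ebf79c57f36bafe4d6) b25559 (.tok (nat_lit 6) (nat_lit 0x2ff39a5fb9a0bf9ee57ef772fd9ed5fc8b2bf93fd7f3512fe824) (.hit (nat_lit 144) (nat_lit 88) (nat_lit 0x2ff39a5fb9a0bf9ee57ef772fd9ed5fc8b2bf93fd7f3512fe824) b25557 (.hit (nat_lit 145) (nat_lit 89) (nat_lit 0x2fd99f5fb768bf8b157e64eafcbd75fa746bf5ba57eb172fd669) b25558 (.nil))) (.one (nat_lit 9) (nat_lit 143) (nat_lit 87) (nat_lit 0x2ff0c45fd18cbf8b917f367afe1265fe314bfb0e17f2a12fe71b) b25556 (.nil))))) (.one (nat_lit 59) (nat_lit 147)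 (nat_lit 91) (nat_lit 0x2fd4bb5f835abf44d97e0fbafab4d5f9418bf0dad7e8b82fd281) b25560 (.nil)))))))))))))))))) (.tok (nat_lit 52) (nat_lit 0x2ffa36600000c0320d7ff633014a85fff62c012697f93faff27f) (.hit (nat_lit 332) (nat_lit 0) (nat_lit 0x2ffa365fecb6c022517fdf0b014a85fff62bffc217f93faff27f) b25561 (.tok (nat_lit 6) (nat_lit 0x2ff919600000bfee497ff633013795fff04c012697f7cb2fef96) (.hit (nat_lit 333) (nat_lit 7) (nat_lit 0x2ff919600000bfee497ff633013795fff04c012697f7cb2fef96) b25564 (.hit (nat_lit 334) (nat_lit 15) (nat_lit 0x2fed795fe26abfbb717f848aff3075fe4f6bfcf0d7f2d92fe5b2) b25565 (.nil))) (.tok (nat_lit 9) (nat_lit 0x2ff2f05ffa4cc0320d7fa8a3001505ff3eebfe31d7f8bbaff177) (.hit (nat_lit 335) (nat_lit 20) (nat_lit 0x2feae95fb55ac0320d7f8bbaff1a15ff3eebfe31d7f8bbaff177) b25562 (.hit (nat_lit 336) (nat_lit 28) (nat_lit 0x2ff2f05ffa4cc00e297fa8a3001505fee18bfdee57f4da2fe9b4) b25563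 (.nil))) (.nil)))) (.tok (nat_lit 55) (nat_lit 0x2ff9725fd26cc01e7d8000030002a601100c01d4180000300000) (.hit (nat_lit 343) (nat_lit 0) (nat_lit 0x2ff9535fcac6bfdc5d7f8a02ff48f5ff380bfe2417f8a02ff140) b25566 (.tok (nat_lit 3) (nat_lit 0x2fed075fb996bff7c17f9caaff3bf5ff82abfeb957f9caaff395) (.hit (nat_lit 344) (nat_lit 1) (nat_lit 0x2fd2e45f8550bf92b57ecb92fd99c5fc3e4bf83097ecb92fd972) b25567 (.one (nat_lit 67) (nat_lit 345) (nat_lit 2) (nat_lit 0x2fed075fb996bff7c17f9caaff3bf5ff82abfeb957f9caaff395) b25568 (.nil))) (.tok (nat_lit 6) (nat_lit 0x2ff9725fd26cc01e7d8000030002a601100c01d4180000300000) (.hit (nat_lit 346) (nat_lit 7) (nat_lit 0x2fdc1a5f97bcbf9fe17f1542fe2d25fd650bfa7e17f1542fe2a8) b25569 (.hit (nat_lit 349) (nat_lit 15) (nat_lit 0x2fcca65f78d4bf8a957e99a2fd35e5fb768bf6a117e99a2fd334) b25572 (.tok (nat_lit 55) (nat_lit 0x2ff9725fd26cc01e7d8000030002a601100c01d4180000300000)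 (.hit (nat_lit 347) (nat_lit 8) (nat_lit 0x2ff1cf5fc326c011057fc2eaff8876001babffeb57fc2eaff85d) b25570 (.hit (nat_lit 350) (nat_lit 16) (nat_lit 0x2fe6be5fad04bfe9597f6a62fed765feb98bfd2717f6a62fed4c) b25573 (.one (nat_lit 6) (nat_lit 348) (nat_lit 9) (nat_lit 0x2ff9725fd26cc01e7d8000030002a601100c01d4180000300000) b25571 (.nil)))) (.nil)))) (.nil)))) (.tok (nat_lit 58) (nat_lit 0x2fedd05fbb28bfc4217fa2f2ff4885ff9bcbfeeb97fa2f2ff45e) (.hit (nat_lit 357) (nat_lit 0) (nat_lit 0x2feb9c5fad66bfc2757f1c72feefc5fd81cbfab797f46eafebf0) b25574 (.tok (nat_lit 3) (nat_lit 0x2fedd05fbb28bfc4217fa2f2ff4885ff9bcbfeeb97fa2f2ff45e) (.hit (nat_lit 358) (nat_lit 1) (nat_lit 0x2fd6d05f8d28bfa8957eeaf2fdd885fcbbcbf92b97eeaf2fdd5e) b25575 (.one (nat_lit 55) (nat_lit 359) (nat_lit 3) (nat_lit 0x2fedd05fbb28bfc4217fa2f2ff4885ff9bcbfeeb97fa2f2ff45e) b25576 (.nil))) (.tok (nat_lit 9) (nat_lit 0x2fd8d55f9132bfa3f57efb1afdf8d5fcfc6bf9acd7efb1afdf63)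 (.hit (nat_lit 360) (nat_lit 20) (nat_lit 0x2fd8d55f9132bf99757efb1afdf8d5fcfc6bf9acd7efb1afdf63) b25577 (.hit (nat_lit 363) (nat_lit 28) (nat_lit 0x2fd6455f8c12bfa3f57ee69afdcfd5fcaa6bf908d7ee69afdcd3) b25578 (.nil))) (.nil)))) (.nil))))
noncomputable def r27_1 : Rw Blk := .tok (nat_lit 14) (nat_lit 0xbc0001780002fdcf3) (.hit (nat_lit 134) (nat_lit 0) (nat_lit 0xbc0001780002fdcf3) b25596 (.one (nat_lit 3) (nat_lit 135) (nat_lit 1) (nat_lit 0xbc0001780002fb2e8) b25597 (.tok (nat_lit 6) (nat_lit 0xbc0001780002fd6eb) (.hit (nat_lit 136) (nat_lit 7) (nat_lit 0xbc0001780002fd168) b25598 (.hit (nat_lit 137) (nat_lit 15) (nat_lit 0xbc0001780002fd6eb) b25600 (.nil))) (.tok (nat_lit 9) (nat_lit 0xbc0001780002fd307) (.hit (nat_lit 138) (nat_lit 20) (nat_lit 0xbc0001780002fd168) b25598 (.hit (nat_lit 139) (nat_lit 28) (nat_lit 0xbc0001780002fd307) b25599 (.nil))) (.nil))))) (.tok (nat_lit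 17) (nat_lit 0xbc0001780002fdd46) (.hit (nat_lit 140) (nat_lit 0) (nat_lit 0xbc0001780002fdd46) b25590 (.one (nat_lit 3) (nat_lit 141) (nat_lit 1) (nat_lit 0xbc0001780002faddb) b25591 (.tok (nat_lit 6) (nat_lit 0xbc0001780002fd3fc) (.hit (nat_lit 142) (nat_lit 7) (nat_lit 0xbc0001780002fcbfb) b25594 (.hit (nat_lit 143) (nat_lit 15) (nat_lit 0xbc0001780002fd3fc) b25595 (.nil))) (.tok (nat_lit 9) (nat_lit 0xbc0001780002fd0fc) (.hit (nat_lit 144) (nat_lit 20) (nat_lit 0xbc0001780002fc905) b25592 (.hit (nat_lit 145) (nat_lit 28) (nat_lit 0xbc0001780002fd0fc) b25593 (.nil))) (.nil))))) (.tok (nat_lit 20) (nat_lit 0xbc0001780002ff8f4) (.hit (nat_lit 128) (nat_lit 0) (nat_lit 0xbc0001780002ff8f4) b25585 (.one (nat_lit 3) (nat_lit 129) (nat_lit 1) (nat_lit 0xbc0001780002feb6c) b25586 (.tok (nat_lit 6) (nat_lit 0xbc0001780002fe92c) (.hit (nat_lit 130) (nat_lit 7) (nat_lit 0xbc0001780002fcdd4)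 b25583 (.hit (nat_lit 131) (nat_lit 15) (nat_lit 0xbc0001780002fe92c) b25589 (.nil))) (.tok (nat_lit 9) (nat_lit 0xbc0001780002fecc6) (.hit (nat_lit 132) (nat_lit 20) (nat_lit 0xbc0001780002fecc6) b25587 (.hit (nat_lit 133) (nat_lit 28) (nat_lit 0xbc0001780002fe717) b25588 (.nil))) (.nil))))) (.tok (nat_lit 23) (nat_lit 0xbc0001780002fddb8) (.hit (nat_lit 122) (nat_lit 0) (nat_lit 0xbc0001780002fddb8) b25579 (.one (nat_lit 3) (nat_lit 123) (nat_lit 1) (nat_lit 0xbc0001780002fb661) b25580 (.tok (nat_lit 6) (nat_lit 0xbc0001780002fd5fe) (.hit (nat_lit 124) (nat_lit 7) (nat_lit 0xbc0001780002fcdd4) b25583 (.hit (nat_lit 125) (nat_lit 15) (nat_lit 0xbc0001780002fd5fe) b25584 (.nil))) (.tok (nat_lit 9) (nat_lit 0xbc0001780002fd3e6) (.hit (nat_lit 126) (nat_lit 20) (nat_lit 0xbc0001780002fcd07) b25581 (.hit (nat_lit 127) (nat_lit 28) (nat_lit 0xbc0001780002fd3e6) b25582 (.nil))) (.nil)))))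 (.tok (nat_lit 26) (nat_lit 0xbc0001780002ff9e7) (.hit (nat_lit 215) (nat_lit 0) (nat_lit 0xbc0001780002ff9e7) b25647 (.one (nat_lit 3) (nat_lit 216) (nat_lit 1) (nat_lit 0xbc0001780002faf6d) b25648 (.tok (nat_lit 6) (nat_lit 0xbc0001780002fdd0f) (.hit (nat_lit 217) (nat_lit 7) (nat_lit 0xbc0001780002fdd0f) b25651 (.hit (nat_lit 218) (nat_lit 15) (nat_lit 0xbc0001780002fadc7) b25652 (.nil))) (.tok (nat_lit 9) (nat_lit 0xbc0001780002fc148) (.hit (nat_lit 219) (nat_lit 20) (nat_lit 0xbc0001780002fc0d1) b25649 (.hit (nat_lit 220) (nat_lit 28) (nat_lit 0xbc0001780002fc148) b25650 (.nil))) (.nil))))) (.tok (nat_lit 29) (nat_lit 0xbc0001780002fdf4a) (.hit (nat_lit 221) (nat_lit 0) (nat_lit 0xbc0001780002fdf4a) b25653 (.one (nat_lit 3) (nat_lit 222) (nat_lit 1) (nat_lit 0xbc0001780002fb1cf) b25654 (.tok (nat_lit 6) (nat_lit 0xbc0001780002fce13) (.hit (nat_lit 223) (nat_lit 7) (nat_lit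 0xbc0001780002fbe78) b25627 (.hit (nat_lit 224) (nat_lit 15) (nat_lit 0xbc0001780002fce13) b25657 (.nil))) (.tok (nat_lit 9) (nat_lit 0xbc0001780002fd45c) (.hit (nat_lit 225) (nat_lit 20) (nat_lit 0xbc0001780002fd1ad) b25655 (.hit (nat_lit 226) (nat_lit 28) (nat_lit 0xbc0001780002fd45c) b25656 (.nil))) (.nil))))) (.tok (nat_lit 32) (nat_lit 0xbc0001780002fec7b) (.hit (nat_lit 233) (nat_lit 0) (nat_lit 0xbc0001780002fec7b) b25664 (.one (nat_lit 3) (nat_lit 234) (nat_lit 1) (nat_lit 0xbc0001780002fb661) b25580 (.tok (nat_lit 6) (nat_lit 0xbc0001780002fcd94) (.hit (nat_lit 235) (nat_lit 7) (nat_lit 0xbc0001780002fcb1f) b25667 (.hit (nat_lit 236) (nat_lit 15) (nat_lit 0xbc0001780002fcd94) b25668 (.nil))) (.tok (nat_lit 9) (nat_lit 0xbc0001780002fbe5a) (.hit (nat_lit 237) (nat_lit 20) (nat_lit 0xbc0001780002fbe5a) b25665 (.hit (nat_lit 238) (nat_lit 28) (nat_lit 0xbc0001780002fac39)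 b25666 (.nil))) (.nil))))) (.tok (nat_lit 35) (nat_lit 0xbc0001780002ffc5d) (.hit (nat_lit 227) (nat_lit 0) (nat_lit 0xbc0001780002ffc5d) b25658 (.one (nat_lit 3) (nat_lit 228) (nat_lit 1) (nat_lit 0xbc0001780002fbf78) b25659 (.tok (nat_lit 6) (nat_lit 0xbc0001780002fd506) (.hit (nat_lit 229) (nat_lit 7) (nat_lit 0xbc0001780002fd18b) b25662 (.hit (nat_lit 230) (nat_lit 15) (nat_lit 0xbc0001780002fd506) b25663 (.nil))) (.tok (nat_lit 9) (nat_lit 0xbc0001780002fd703) (.hit (nat_lit 231) (nat_lit 20) (nat_lit 0xbc0001780002fd703) b25660 (.hit (nat_lit 232) (nat_lit 28) (nat_lit 0xbc0001780002fd32a) b25661 (.nil))) (.nil))))) (.tok (nat_lit 38) (nat_lit 0xbc0001780002ff166) (.hit (nat_lit 239) (nat_lit 0) (nat_lit 0xbc0001780002ff166) b25623 (.one (nat_lit 3) (nat_lit 240) (nat_lit 1) (nat_lit 0xbc0001780002fbae3) b25624 (.tok (nat_lit 6) (nat_lit 0xbc0001780002fbe78) (.hit (nat_lit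 241) (nat_lit 7) (nat_lit 0xbc0001780002fbe78) b25627 (.hit (nat_lit 242) (nat_lit 15) (nat_lit 0xbc0001780002fb84d) b25628 (.nil))) (.tok (nat_lit 9) (nat_lit 0xbc0001780002fd005) (.hit (nat_lit 243) (nat_lit 20) (nat_lit 0xbc0001780002fd005) b25625 (.hit (nat_lit 244) (nat_lit 28) (nat_lit 0xbc0001780002fbedd) b25626 (.nil))) (.nil))))) (.tok (nat_lit 41) (nat_lit 0xbc0001780003015b6) (.hit (nat_lit 250) (nat_lit 0) (nat_lit 0xbc0001780002ff9e2) b25629 (.one (nat_lit 3) (nat_lit 251) (nat_lit 1) (nat_lit 0xbc0001780002ff0cf) b25630 (.tok (nat_lit 6) (nat_lit 0xbc0001780003015b6) (.hit (nat_lit 252) (nat_lit 7) (nat_lit 0xbc0001780003015b6) b25633 (.hit (nat_lit 253) (nat_lit 15) (nat_lit 0xbc0001780002ff0d4) b25634 (.nil))) (.tok (nat_lit 9) (nat_lit 0xbc0001780002ffd7c) (.hit (nat_lit 254) (nat_lit 20) (nat_lit 0xbc0001780002ffd7c) b25631 (.hit (nat_lit 255) (nat_lit 28) (nat_lit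 0xbc0001780002feea8) b25632 (.nil))) (.nil))))) (.tok (nat_lit 44) (nat_lit 0xbc0001780003013c2) (.hit (nat_lit 278) (nat_lit 0) (nat_lit 0xbc0001780002ff790) b25641 (.one (nat_lit 3) (nat_lit 279) (nat_lit 1) (nat_lit 0xbc0001780002fde81) b25642 (.tok (nat_lit 6) (nat_lit 0xbc0001780002ffbea) (.hit (nat_lit 280) (nat_lit 7) (nat_lit 0xbc0001780002ffbea) b25645 (.hit (nat_lit 281) (nat_lit 15) (nat_lit 0xbc0001780002fe840) b25646 (.nil))) (.tok (nat_lit 9) (nat_lit 0xbc0001780003013c2) (.hit (nat_lit 282) (nat_lit 20) (nat_lit 0xbc0001780003013c2) b25643 (.hit (nat_lit 283) (nat_lit 28) (nat_lit 0xbc0001780002fe9f2) b25644 (.nil))) (.nil))))) (.tok (nat_lit 47) (nat_lit 0xbc0001780002ffc47) (.hit (nat_lit 264) (nat_lit 0) (nat_lit 0xbc0001780002ffc47) b25635 (.one (nat_lit 3) (nat_lit 265) (nat_lit 1) (nat_lit 0xbc0001780002fc116) b25636 (.tok (nat_lit 6) (nat_lit 0xbc0001780002fd784)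 (.hit (nat_lit 266) (nat_lit 7) (nat_lit 0xbc0001780002fd5a0) b25639 (.hit (nat_lit 267) (nat_lit 15) (nat_lit 0xbc0001780002fd784) b25640 (.nil))) (.tok (nat_lit 9) (nat_lit 0xbc0001780002fc505) (.hit (nat_lit 268) (nat_lit 20) (nat_lit 0xbc0001780002fc505) b25637 (.hit (nat_lit 269) (nat_lit 28) (nat_lit 0xbc0001780002fbd56) b25638 (.nil))) (.nil))))) (.tok (nat_lit 50) (nat_lit 0xbc0001780002fdd6b) (.hit (nat_lit 170) (nat_lit 0) (nat_lit 0xbc0001780002fdd6b) b25601 (.one (nat_lit 3) (nat_lit 171) (nat_lit 1) (nat_lit 0xbc0001780002fb6a4) b25602 (.tok (nat_lit 6) (nat_lit 0xbc0001780002fd1ce) (.hit (nat_lit 172) (nat_lit 7) (nat_lit 0xbc0001780002fd1ce) b25605 (.hit (nat_lit 173) (nat_lit 15) (nat_lit 0xbc0001780002fbef0) b25606 (.nil))) (.tok (nat_lit 9) (nat_lit 0xbc0001780002fbe9d) (.hit (nat_lit 174) (nat_lit 20) (nat_lit 0xbc0001780002fbe9d) b25603 (.hit (nat_lit 175)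 (nat_lit 28) (nat_lit 0xbc0001780002fbb91) b25604 (.nil))) (.nil))))) (.tok (nat_lit 53) (nat_lit 0xbc0001780002fee9a) (.hit (nat_lit 181) (nat_lit 0) (nat_lit 0xbc0001780002fee2a) b25607 (.one (nat_lit 3) (nat_lit 182) (nat_lit 1) (nat_lit 0xbc0001780002fe76a) b25608 (.tok (nat_lit 6) (nat_lit 0xbc0001780002fee9a) (.hit (nat_lit 183) (nat_lit 7) (nat_lit 0xbc0001780002fee9a) b25611 (.hit (nat_lit 184) (nat_lit 15) (nat_lit 0xbc0001780002fe5c2) b25612 (.nil))) (.tok (nat_lit 9) (nat_lit 0xbc0001780002fe82f) (.hit (nat_lit 185) (nat_lit 20) (nat_lit 0xbc0001780002fc548) b25609 (.hit (nat_lit 186) (nat_lit 28) (nat_lit 0xbc0001780002fe82f) b25610 (.nil))) (.nil))))) (.tok (nat_lit 56) (nat_lit 0xbc0001780002fddcf) (.hit (nat_lit 195) (nat_lit 0) (nat_lit 0xbc0001780002fddcf) b25619 (.one (nat_lit 3) (nat_lit 196) (nat_lit 1) (nat_lit 0xbc0001780002fb661) b25580 (.tok (nat_lit 6)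 (nat_lit 0xbc0001780002fd168) (.hit (nat_lit 197) (nat_lit 7) (nat_lit 0xbc0001780002fd168) b25598 (.hit (nat_lit 198) (nat_lit 15) (nat_lit 0xbc0001780002fb7cf) b25622 (.nil))) (.tok (nat_lit 9) (nat_lit 0xbc0001780002fd5b3) (.hit (nat_lit 199) (nat_lit 20) (nat_lit 0xbc0001780002fc7b7) b25620 (.hit (nat_lit 200) (nat_lit 28) (nat_lit 0xbc0001780002fd5b3) b25621 (.nil))) (.nil))))) (.tok (nat_lit 59) (nat_lit 0xbc0001780002fe436) (.hit (nat_lit 209) (nat_lit 0) (nat_lit 0xbc0001780002fe436) b25613 (.one (nat_lit 3) (nat_lit 210) (nat_lit 1) (nat_lit 0xbc0001780002fc80e) b25614 (.tok (nat_lit 6) (nat_lit 0xbc0001780002fd50a) (.hit (nat_lit 211) (nat_lit 7) (nat_lit 0xbc0001780002fd50a) b25617 (.hit (nat_lit 212) (nat_lit 15) (nat_lit 0xbc0001780002fd4cf) b25618 (.nil))) (.tok (nat_lit 9) (nat_lit 0xbc0001780002fdb15) (.hit (nat_lit 213) (nat_lit 20) (nat_lit 0xbc0001780002fd17f)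 b25615 (.hit (nat_lit 214) (nat_lit 28) (nat_lit 0xbc0001780002fdb15) b25616 (.nil))) (.nil))))) (.nil))))))))))))))))
noncomputable def r27_2 : Rw Blk := .tok (nat_lit 3) (nat_lit 0xbc0001780002ff751) (.hit (nat_lit 18) (nat_lit 0) (nat_lit 0xbc0001780002ff71e) b25683 (.tok (nat_lit 6) (nat_lit 0xbc0001780002fed92) (.hit (nat_lit 19) (nat_lit 7) (nat_lit 0xbc0001780002fd329) b25686 (.hit (nat_lit 20) (nat_lit 15) (nat_lit 0xbc0001780002fed92) b25687 (.nil))) (.tok (nat_lit 9) (nat_lit 0xbc0001780002ff751) (.hit (nat_lit 21) (nat_lit 20) (nat_lit 0xbc0001780002ff751) b25684 (.hit (nat_lit 22) (nat_lit 28) (nat_lit 0xbc0001780002fe72d) b25685 (.nil))) (.nil)))) (.tok (nat_lit 6) (nat_lit 0xbc000178000300055) (.hit (nat_lit 0) (nat_lit 0) (nat_lit 0xbc0001780002ff190) b25669 (.tok (nat_lit 3) (nat_lit 0xbc0001780002fec21) (.hit (nat_lit 1) (nat_lit 1) (nat_lit 0xbc0001780002fd714)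 b25670 (.one (nat_lit 67) (nat_lit 2) (nat_lit 2) (nat_lit 0xbc0001780002fec21) b25671 (.nil))) (.tok (nat_lit 6) (nat_lit 0xbc000178000300055) (.hit (nat_lit 3) (nat_lit 7) (nat_lit 0xbc0001780002fd6ed) b25672 (.hit (nat_lit 7) (nat_lit 15) (nat_lit 0xbc0001780002fd840) b25676 (.tok (nat_lit 55) (nat_lit 0xbc000178000300055) (.hit (nat_lit 4) (nat_lit 8) (nat_lit 0xbc0001780002ff1f9) b25673 (.hit (nat_lit 8) (nat_lit 16) (nat_lit 0xbc000178000300004) b25677 (.tok (nat_lit 6) (nat_lit 0xbc000178000300055) (.hit (nat_lit 5) (nat_lit 9) (nat_lit 0xbc0001780002ff68a) b25674 (.one (nat_lit 55) (nat_lit 6) (nat_lit 10) (nat_lit 0xbc000178000300055) b25675 (.nil))) (.nil)))) (.nil)))) (.nil)))) (.tok (nat_lit 9) (nat_lit 0xbc00017800030288c) (.hit (nat_lit 9) (nat_lit 0) (nat_lit 0xbc0001780002ff5be) b25678 (.tok (nat_lit 3) (nat_lit 0xbc00017800030288c) (.hit (nat_lit 10) (nat_lit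 1) (nat_lit 0xbc0001780002ff1e2) b25679 (.one (nat_lit 55) (nat_lit 11) (nat_lit 3) (nat_lit 0xbc00017800030288c) b25680 (.nil))) (.tok (nat_lit 9) (nat_lit 0xbc000178000301589) (.hit (nat_lit 12) (nat_lit 20) (nat_lit 0xbc000178000301589) b25681 (.hit (nat_lit 16) (nat_lit 28) (nat_lit 0xbc0001780002fff98) b25682 (.nil))) (.nil)))) (.nil)))
noncomputable def r27_3 : Rw Blk := .tok (nat_lit 3) (nat_lit 0xbc000178000301d2d) (.hit (nat_lit 0) (nat_lit 0) (nat_lit 0xbc0001780002ff447) b25688 (.tok (nat_lit 6) (nat_lit 0xbc0001780002ff018) (.hit (nat_lit 1) (nat_lit 7) (nat_lit 0xbc0001780002fd835) b25689 (.hit (nat_lit 4) (nat_lit 15) (nat_lit 0xbc0001780002fd602) b25692 (.tok (nat_lit 56) (nat_lit 0xbc0001780002ff018) (.hit (nat_lit 2) (nat_lit 13) (nat_lit 0xbc0001780002fea9d) b25690 (.hit (nat_lit 6) (nat_lit 19) (nat_lit 0xbc0001780002fe761) b25693 (.one (nat_lit 6) (nat_lit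 3) (nat_lit 14) (nat_lit 0xbc0001780002ff018) b25691 (.nil)))) (.nil)))) (.tok (nat_lit 52) (nat_lit 0xbc0001780002fefea) (.hit (nat_lit 7) (nat_lit 39) (nat_lit 0xbc0001780002fe73e) b25694 (.hit (nat_lit 8) (nat_lit 40) (nat_lit 0xbc0001780002fefea) b25695 (.nil))) (.tok (nat_lit 55) (nat_lit 0xbc000178000301d2d) (.hit (nat_lit 9) (nat_lit 41) (nat_lit 0xbc000178000301d2d) b25696 (.one (nat_lit 3) (nat_lit 15) (nat_lit 47) (nat_lit 0xbc0001780002fe73b) b25702 (.tok (nat_lit 6) (nat_lit 0xbc0001780002ffc6f) (.hit (nat_lit 10) (nat_lit 42) (nat_lit 0xbc0001780002fecf1) b25697 (.hit (nat_lit 13) (nat_lit 45) (nat_lit 0xbc0001780002fe4c7) b25700 (.tok (nat_lit 55) (nat_lit 0xbc0001780002ffc6f) (.hit (nat_lit 11) (nat_lit 43) (nat_lit 0xbc0001780002ffc6f) b25698 (.hit (nat_lit 14) (nat_lit 46) (nat_lit 0xbc0001780002ff277) b25701 (.one (nat_lit 6) (nat_lit 12) (nat_lit 44) (nat_lit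 0xbc0001780002febac) b25699 (.nil)))) (.nil)))) (.nil)))) (.one (nat_lit 58) (nat_lit 16) (nat_lit 49) (nat_lit 0xbc0001780002fe67e) b25703 (.nil)))))) (.tok (nat_lit 9) (nat_lit 0xbc000178000301c6c) (.hit (nat_lit 17) (nat_lit 0) (nat_lit 0xbc000178000301513) b25704 (.tok (nat_lit 9) (nat_lit 0xbc000178000301c6c) (.hit (nat_lit 18) (nat_lit 20) (nat_lit 0xbc000178000300e09) b25705 (.hit (nat_lit 21) (nat_lit 28) (nat_lit 0xbc0001780002feb06) b25708 (.one (nat_lit 56) (nat_lit 22) (nat_lit 31) (nat_lit 0xbc0001780003010be) b25709 (.tok (nat_lit 68) (nat_lit 0xbc000178000301c6c) (.hit (nat_lit 19) (nat_lit 26) (nat_lit 0xbc0001780003003f2) b25706 (.hit (nat_lit 23) (nat_lit 32) (nat_lit 0xbc0001780002ff542) b25710 (.one (nat_lit 9) (nat_lit 20) (nat_lit 27) (nat_lit 0xbc000178000301c6c) b25707 (.nil)))) (.nil))))) (.nil))) (.nil))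
noncomputable def r27_4 : Rw Blk := .tok (nat_lit 3) (nat_lit 0xbc0001780002fe348) (.hit (nat_lit 14) (nat_lit 0) (nat_lit 0xbc0001780002fe09a) b25725 (.tok (nat_lit 6) (nat_lit 0xbc0001780002fe348) (.hit (nat_lit 15) (nat_lit 7) (nat_lit 0xbc0001780002fe348) b25728 (.hit (nat_lit 16) (nat_lit 15) (nat_lit 0xbc0001780002fd2d3) b25729 (.nil))) (.tok (nat_lit 9) (nat_lit 0xbc0001780002fd0a5) (.hit (nat_lit 17) (nat_lit 20) (nat_lit 0xbc0001780002fbb65) b25726 (.hit (nat_lit 18) (nat_lit 28) (nat_lit 0xbc0001780002fd0a5) b25727 (.nil))) (.nil)))) (.tok (nat_lit 6) (nat_lit 0xbc000178000301207) (.hit (nat_lit 9) (nat_lit 0) (nat_lit 0xbc0001780002ff17d) b25720 (.tok (nat_lit 3) (nat_lit 0xbc000178000301207) (.hit (nat_lit 10) (nat_lit 1) (nat_lit 0xbc0001780002fec6c) b25721 (.one (nat_lit 67) (nat_lit 11) (nat_lit 2) (nat_lit 0xbc000178000301207) b25722 (.nil))) (.tok (nat_lit 6)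 (nat_lit 0xbc0001780002fe37c) (.hit (nat_lit 12) (nat_lit 7) (nat_lit 0xbc0001780002fe25c) b25723 (.hit (nat_lit 13) (nat_lit 15) (nat_lit 0xbc0001780002fe37c) b25724 (.nil))) (.nil)))) (.tok (nat_lit 9) (nat_lit 0xbc0001780002ff935) (.hit (nat_lit 0) (nat_lit 0) (nat_lit 0xbc0001780002fe8b2) b25711 (.tok (nat_lit 3) (nat_lit 0xbc0001780002fe92e) (.hit (nat_lit 1) (nat_lit 1) (nat_lit 0xbc0001780002fc6e3) b25712 (.one (nat_lit 55) (nat_lit 2) (nat_lit 3) (nat_lit 0xbc0001780002fe92e) b25713 (.nil))) (.tok (nat_lit 9) (nat_lit 0xbc0001780002ff935) (.hit (nat_lit 3) (nat_lit 20) (nat_lit 0xbc0001780002fd69f) b25714 (.hit (nat_lit 7) (nat_lit 28) (nat_lit 0xbc0001780002fd2d6) b25718 (.tok (nat_lit 67) (nat_lit 0xbc0001780002ff935) (.hit (nat_lit 4) (nat_lit 21) (nat_lit 0xbc0001780002fe649) b25715 (.hit (nat_lit 8) (nat_lit 29) (nat_lit 0xbc0001780002ff319) b25719 (.tok (nat_lit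 9) (nat_lit 0xbc0001780002ff935) (.hit (nat_lit 5) (nat_lit 22) (nat_lit 0xbc0001780002fe6b0) b25716 (.one (nat_lit 67) (nat_lit 6) (nat_lit 23) (nat_lit 0xbc0001780002ff935) b25717 (.nil))) (.nil)))) (.nil)))) (.nil)))) (.nil)))
noncomputable def r27_5 : Rw Blk := .tok (nat_lit 3) (nat_lit 0xbc0001780003005e5) (.hit (nat_lit 0) (nat_lit 0) (nat_lit 0xbc0001780002fed24) b25730 (.tok (nat_lit 9) (nat_lit 0xbc0001780002ff72c) (.hit (nat_lit 1) (nat_lit 20) (nat_lit 0xbc0001780002fdc3b) b25731 (.hit (nat_lit 6) (nat_lit 28) (nat_lit 0xbc0001780002fcdc2) b25734 (.tok (nat_lit 68) (nat_lit 0xbc0001780002ff72c) (.hit (nat_lit 4) (nat_lit 26) (nat_lit 0xbc0001780002fef40) b25732 (.hit (nat_lit 8) (nat_lit 32) (nat_lit 0xbc0001780002fe0c9) b25735 (.one (nat_lit 9) (nat_lit 5) (nat_lit 27) (nat_lit 0xbc0001780002ff72c) b25733 (.nil)))) (.nil)))) (.tok (nat_lit 64) (nat_lit 0xbc0001780002fea44)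 (.hit (nat_lit 9) (nat_lit 50) (nat_lit 0xbc0001780002fe9d1) b25736 (.hit (nat_lit 10) (nat_lit 51) (nat_lit 0xbc0001780002fea44) b25737 (.nil))) (.tok (nat_lit 67) (nat_lit 0xbc0001780003005e5) (.hit (nat_lit 11) (nat_lit 52) (nat_lit 0xbc0001780003005e5) b25738 (.one (nat_lit 3) (nat_lit 17) (nat_lit 58) (nat_lit 0xbc0001780002fef14) b25744 (.tok (nat_lit 9) (nat_lit 0xbc0001780002ff98e) (.hit (nat_lit 12) (nat_lit 53) (nat_lit 0xbc0001780002ff023) b25739 (.hit (nat_lit 15) (nat_lit 56) (nat_lit 0xbc0001780002feb58) b25742 (.tok (nat_lit 67) (nat_lit 0xbc0001780002ff98e) (.hit (nat_lit 13) (nat_lit 54) (nat_lit 0xbc0001780002ff98e) b25740 (.hit (nat_lit 16) (nat_lit 57) (nat_lit 0xbc0001780002ff730) b25743 (.one (nat_lit 9) (nat_lit 14) (nat_lit 55) (nat_lit 0xbc0001780002ff705) b25741 (.nil)))) (.nil)))) (.nil)))) (.one (nat_lit 70) (nat_lit 19) (nat_lit 60) (nat_lit 0xbc0001780002fe97a)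 b25745 (.nil)))))) (.tok (nat_lit 6) (nat_lit 0xbc000178000300e42) (.hit (nat_lit 20) (nat_lit 0) (nat_lit 0xbc0001780002fed4a) b25746 (.tok (nat_lit 6) (nat_lit 0xbc000178000300e42) (.hit (nat_lit 21) (nat_lit 7) (nat_lit 0xbc0001780002fed51) b25747 (.hit (nat_lit 26) (nat_lit 15) (nat_lit 0xbc0001780002fcf59) b25750 (.tok (nat_lit 56) (nat_lit 0xbc000178000300e42) (.hit (nat_lit 24) (nat_lit 13) (nat_lit 0xbc000178000300e42) b25748 (.hit (nat_lit 29) (nat_lit 19) (nat_lit 0xbc0001780002fed6f) b25752 (.one (nat_lit 6) (nat_lit 25) (nat_lit 14) (nat_lit 0xbc0001780002ff44d) b25749 (.nil)))) (.one (nat_lit 68) (nat_lit 28) (nat_lit 18) (nat_lit 0xbc0001780002fecf2) b25751 (.nil))))) (.nil))) (.nil))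
noncomputable def r27_6 : Rw Blk := .tok (nat_lit 14) (nat_lit 0xbc0001780002fd708) (.hit (nat_lit 134) (nat_lit 0) (nat_lit 0xbc0001780002fcc27) b25771 (.one (nat_lit 3) (nat_lit 135) (nat_lit 1) (nat_lit 0xbc0001780002f9e14) b25772 (.tok (nat_lit 6) (nat_lit 0xbc0001780002fd708) (.hit (nat_lit 136) (nat_lit 7) (nat_lit 0xbc0001780002fcc47) b25775 (.hit (nat_lit 137) (nat_lit 15) (nat_lit 0xbc0001780002fd708) b25776 (.nil))) (.tok (nat_lit 9) (nat_lit 0xbc0001780002fc9f2) (.hit (nat_lit 138) (nat_lit 20) (nat_lit 0xbc0001780002fc287) b25773 (.hit (nat_lit 139) (nat_lit 28) (nat_lit 0xbc0001780002fc9f2) b25774 (.nil))) (.nil))))) (.tok (nat_lit 17) (nat_lit 0xbc0001780002fdc97) (.hit (nat_lit 140) (nat_lit 0) (nat_lit 0xbc0001780002fdc97) b25765 (.one (nat_lit 3) (nat_lit 141) (nat_lit 1) (nat_lit 0xbc0001780002fad7f) b25766 (.tok (nat_lit 6) (nat_lit 0xbc0001780002fd177) (.hit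 (nat_lit 142) (nat_lit 7) (nat_lit 0xbc0001780002fce5b) b25769 (.hit (nat_lit 143) (nat_lit 15) (nat_lit 0xbc0001780002fd177) b25770 (.nil))) (.tok (nat_lit 9) (nat_lit 0xbc0001780002fdc6c) (.hit (nat_lit 144) (nat_lit 20) (nat_lit 0xbc0001780002fbe69) b25767 (.hit (nat_lit 145) (nat_lit 28) (nat_lit 0xbc0001780002fdc6c) b25768 (.nil))) (.nil))))) (.tok (nat_lit 20) (nat_lit 0xbc0001780002fe614) (.hit (nat_lit 128) (nat_lit 0) (nat_lit 0xbc0001780002fe25c) b25759 (.one (nat_lit 3) (nat_lit 129) (nat_lit 1) (nat_lit 0xbc0001780002fdaf6) b25760 (.tok (nat_lit 6) (nat_lit 0xbc0001780002fe614) (.hit (nat_lit 130) (nat_lit 7) (nat_lit 0xbc0001780002fcc84) b25763 (.hit (nat_lit 131) (nat_lit 15) (nat_lit 0xbc0001780002fe614) b25764 (.nil))) (.tok (nat_lit 9) (nat_lit 0xbc0001780002fdfff) (.hit (nat_lit 132) (nat_lit 20) (nat_lit 0xbc0001780002fdef7) b25761 (.hit (nat_lit 133) (nat_lit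 28) (nat_lit 0xbc0001780002fdfff) b25762 (.nil))) (.nil))))) (.tok (nat_lit 23) (nat_lit 0xbc0001780002fe84b) (.hit (nat_lit 122) (nat_lit 0) (nat_lit 0xbc0001780002fe2e0) b25753 (.one (nat_lit 3) (nat_lit 123) (nat_lit 1) (nat_lit 0xbc0001780002fd2f3) b25754 (.tok (nat_lit 6) (nat_lit 0xbc0001780002fe567) (.hit (nat_lit 124) (nat_lit 7) (nat_lit 0xbc0001780002fe3c2) b25757 (.hit (nat_lit 125) (nat_lit 15) (nat_lit 0xbc0001780002fe567) b25758 (.nil))) (.tok (nat_lit 9) (nat_lit 0xbc0001780002fe84b) (.hit (nat_lit 126) (nat_lit 20) (nat_lit 0xbc0001780002fc7e4) b25755 (.hit (nat_lit 127) (nat_lit 28) (nat_lit 0xbc0001780002fe84b) b25756 (.nil))) (.nil))))) (.tok (nat_lit 26) (nat_lit 0xbc0001780002fea73) (.hit (nat_lit 215) (nat_lit 0) (nat_lit 0xbc0001780002fea73) b25823 (.one (nat_lit 3) (nat_lit 216) (nat_lit 1) (nat_lit 0xbc0001780002fb5e5) b25824 (.tok (nat_lit 6) (nat_lit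 0xbc0001780002fd222) (.hit (nat_lit 217) (nat_lit 7) (nat_lit 0xbc0001780002fbb91) b25827 (.hit (nat_lit 218) (nat_lit 15) (nat_lit 0xbc0001780002fd222) b25828 (.nil))) (.tok (nat_lit 9) (nat_lit 0xbc0001780002fcf12) (.hit (nat_lit 219) (nat_lit 20) (nat_lit 0xbc0001780002fcf12) b25825 (.hit (nat_lit 220) (nat_lit 28) (nat_lit 0xbc0001780002fc0bd) b25826 (.nil))) (.nil))))) (.tok (nat_lit 29) (nat_lit 0xbc0001780002fd60e) (.hit (nat_lit 221) (nat_lit 0) (nat_lit 0xbc0001780002fd60e) b25829 (.one (nat_lit 3) (nat_lit 222) (nat_lit 1) (nat_lit 0xbc0001780002fb2c7) b25830 (.tok (nat_lit 6) (nat_lit 0xbc0001780002fd482) (.hit (nat_lit 223) (nat_lit 7) (nat_lit 0xbc0001780002fc617) b25833 (.hit (nat_lit 224) (nat_lit 15) (nat_lit 0xbc0001780002fd482) b25834 (.nil))) (.tok (nat_lit 9) (nat_lit 0xbc0001780002fd5ae) (.hit (nat_lit 225) (nat_lit 20) (nat_lit 0xbc0001780002fcca7) b25831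 (.hit (nat_lit 226) (nat_lit 28) (nat_lit 0xbc0001780002fd5ae) b25832 (.nil))) (.nil))))) (.tok (nat_lit 32) (nat_lit 0xbc0001780002fda3b) (.hit (nat_lit 233) (nat_lit 0) (nat_lit 0xbc0001780002fda3b) b25840 (.one (nat_lit 3) (nat_lit 234) (nat_lit 1) (nat_lit 0xbc0001780002fb140) b25796 (.tok (nat_lit 6) (nat_lit 0xbc0001780002fd38f) (.hit (nat_lit 235) (nat_lit 7) (nat_lit 0xbc0001780002fcc33) b25843 (.hit (nat_lit 236) (nat_lit 15) (nat_lit 0xbc0001780002fd38f) b25844 (.nil))) (.tok (nat_lit 9) (nat_lit 0xbc0001780002fc918) (.hit (nat_lit 237) (nat_lit 20) (nat_lit 0xbc0001780002fc918) b25841 (.hit (nat_lit 238) (nat_lit 28) (nat_lit 0xbc0001780002fb3ea) b25842 (.nil))) (.nil))))) (.tok (nat_lit 35) (nat_lit 0xbc0001780002fddbc) (.hit (nat_lit 227) (nat_lit 0) (nat_lit 0xbc0001780002fddbc) b25835 (.one (nat_lit 3) (nat_lit 228) (nat_lit 1) (nat_lit 0xbc0001780002fb140) b25796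 (.tok (nat_lit 6) (nat_lit 0xbc0001780002fcc77) (.hit (nat_lit 229) (nat_lit 7) (nat_lit 0xbc0001780002fcc77) b25838 (.hit (nat_lit 230) (nat_lit 15) (nat_lit 0xbc0001780002fb572) b25839 (.nil))) (.tok (nat_lit 9) (nat_lit 0xbc0001780002fd5a3) (.hit (nat_lit 231) (nat_lit 20) (nat_lit 0xbc0001780002fbb86) b25836 (.hit (nat_lit 232) (nat_lit 28) (nat_lit 0xbc0001780002fd5a3) b25837 (.nil))) (.nil))))) (.tok (nat_lit 38) (nat_lit 0xbc0001780002fed2f) (.hit (nat_lit 239) (nat_lit 0) (nat_lit 0xbc0001780002fed2f) b25800 (.one (nat_lit 3) (nat_lit 240) (nat_lit 1) (nat_lit 0xbc0001780002fb16e) b25801 (.tok (nat_lit 6) (nat_lit 0xbc0001780002fbd27) (.hit (nat_lit 241) (nat_lit 7) (nat_lit 0xbc0001780002fbd27) b25803 (.hit (nat_lit 242) (nat_lit 15) (nat_lit 0xbc0001780002fb9cf) b25804 (.nil))) (.tok (nat_lit 9) (nat_lit 0xbc0001780002fcc8a) (.hit (nat_lit 243) (nat_lit 20) (nat_lit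 0xbc0001780002fcc8a) b25797 (.hit (nat_lit 244) (nat_lit 28) (nat_lit 0xbc0001780002fb9cb) b25802 (.nil))) (.nil))))) (.tok (nat_lit 41) (nat_lit 0xbc0001780002fecd0) (.hit (nat_lit 250) (nat_lit 0) (nat_lit 0xbc0001780002fe660) b25805 (.one (nat_lit 3) (nat_lit 251) (nat_lit 1) (nat_lit 0xbc0001780002fdab5) b25806 (.tok (nat_lit 6) (nat_lit 0xbc0001780002fea98) (.hit (nat_lit 252) (nat_lit 7) (nat_lit 0xbc0001780002fea98) b25809 (.hit (nat_lit 253) (nat_lit 15) (nat_lit 0xbc0001780002fe506) b25810 (.nil))) (.tok (nat_lit 9) (nat_lit 0xbc0001780002fecd0) (.hit (nat_lit 254) (nat_lit 20) (nat_lit 0xbc0001780002fecd0) b25807 (.hit (nat_lit 255) (nat_lit 28) (nat_lit 0xbc0001780002fe6c3) b25808 (.nil))) (.nil))))) (.tok (nat_lit 44) (nat_lit 0xbc0001780002ff869) (.hit (nat_lit 278) (nat_lit 0) (nat_lit 0xbc0001780002ff869) b25817 (.one (nat_lit 3) (nat_lit 279) (nat_lit 1) (nat_lit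 0xbc0001780002fcd47) b25818 (.tok (nat_lit 6) (nat_lit 0xbc0001780002feffd) (.hit (nat_lit 280) (nat_lit 7) (nat_lit 0xbc0001780002feffd) b25821 (.hit (nat_lit 281) (nat_lit 15) (nat_lit 0xbc0001780002fdf1d) b25822 (.nil))) (.tok (nat_lit 9) (nat_lit 0xbc0001780002fed16) (.hit (nat_lit 282) (nat_lit 20) (nat_lit 0xbc0001780002fed16) b25819 (.hit (nat_lit 283) (nat_lit 28) (nat_lit 0xbc0001780002fe1e8) b25820 (.nil))) (.nil))))) (.tok (nat_lit 47) (nat_lit 0xbc000178000300000) (.hit (nat_lit 264) (nat_lit 0) (nat_lit 0xbc0001780002ffafc) b25811 (.one (nat_lit 3) (nat_lit 265) (nat_lit 1) (nat_lit 0xbc0001780002fd7ea) b25812 (.tok (nat_lit 6) (nat_lit 0xbc000178000300000) (.hit (nat_lit 266) (nat_lit 7) (nat_lit 0xbc000178000300000) b25815 (.hit (nat_lit 267) (nat_lit 15) (nat_lit 0xbc0001780002fe1b0) b25816 (.nil))) (.tok (nat_lit 9) (nat_lit 0xbc0001780002ff24c) (.hit (nat_lit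 268) (nat_lit 20) (nat_lit 0xbc0001780002ff24c) b25813 (.hit (nat_lit 269) (nat_lit 28) (nat_lit 0xbc0001780002fdc30) b25814 (.nil))) (.nil))))) (.tok (nat_lit 50) (nat_lit 0xbc0001780002fe321) (.hit (nat_lit 170) (nat_lit 0) (nat_lit 0xbc0001780002fd344) b25777 (.one (nat_lit 3) (nat_lit 171) (nat_lit 1) (nat_lit 0xbc0001780002fb653) b25778 (.tok (nat_lit 6) (nat_lit 0xbc0001780002fe321) (.hit (nat_lit 172) (nat_lit 7) (nat_lit 0xbc0001780002fe321) b25781 (.hit (nat_lit 173) (nat_lit 15) (nat_lit 0xbc0001780002fbc63) b25782 (.nil))) (.tok (nat_lit 9) (nat_lit 0xbc0001780002fc0f4) (.hit (nat_lit 174) (nat_lit 20) (nat_lit 0xbc0001780002fc0f4) b25779 (.hit (nat_lit 175) (nat_lit 28) (nat_lit 0xbc0001780002fbadb) b25780 (.nil))) (.nil))))) (.tok (nat_lit 53) (nat_lit 0xbc0001780002fe8b7) (.hit (nat_lit 181) (nat_lit 0) (nat_lit 0xbc0001780002fe3a7) b25783 (.one (nat_lit 3) (nat_lit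 182) (nat_lit 1) (nat_lit 0xbc0001780002fdaad) b25784 (.tok (nat_lit 6) (nat_lit 0xbc0001780002fe21d) (.hit (nat_lit 183) (nat_lit 7) (nat_lit 0xbc0001780002fe21d) b25787 (.hit (nat_lit 184) (nat_lit 15) (nat_lit 0xbc0001780002fdd25) b25788 (.nil))) (.tok (nat_lit 9) (nat_lit 0xbc0001780002fe8b7) (.hit (nat_lit 185) (nat_lit 20) (nat_lit 0xbc0001780002fd211) b25785 (.hit (nat_lit 186) (nat_lit 28) (nat_lit 0xbc0001780002fe8b7) b25786 (.nil))) (.nil))))) (.tok (nat_lit 56) (nat_lit 0xbc0001780002fd98c) (.hit (nat_lit 195) (nat_lit 0) (nat_lit 0xbc0001780002fd98c) b25795 (.one (nat_lit 3) (nat_lit 196) (nat_lit 1) (nat_lit 0xbc0001780002fb140) b25796 (.tok (nat_lit 6) (nat_lit 0xbc0001780002fcc47) (.hit (nat_lit 197) (nat_lit 7) (nat_lit 0xbc0001780002fcc47) b25775 (.hit (nat_lit 198) (nat_lit 15) (nat_lit 0xbc0001780002fb2ae) b25799 (.nil))) (.tok (nat_lit 9) (nat_lit 0xbc0001780002fd843)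 (.hit (nat_lit 199) (nat_lit 20) (nat_lit 0xbc0001780002fcc8a) b25797 (.hit (nat_lit 200) (nat_lit 28) (nat_lit 0xbc0001780002fd843) b25798 (.nil))) (.nil))))) (.tok (nat_lit 59) (nat_lit 0xbc0001780002fea16) (.hit (nat_lit 209) (nat_lit 0) (nat_lit 0xbc0001780002fdccc) b25789 (.one (nat_lit 3) (nat_lit 210) (nat_lit 1) (nat_lit 0xbc0001780002fbd99) b25790 (.tok (nat_lit 6) (nat_lit 0xbc0001780002fd989) (.hit (nat_lit 211) (nat_lit 7) (nat_lit 0xbc0001780002fd461) b25793 (.hit (nat_lit 212) (nat_lit 15) (nat_lit 0xbc0001780002fd989) b25794 (.nil))) (.tok (nat_lit 9) (nat_lit 0xbc0001780002fea16) (.hit (nat_lit 213) (nat_lit 20) (nat_lit 0xbc0001780002fea16) b25791 (.hit (nat_lit 214) (nat_lit 28) (nat_lit 0xbc0001780002fadab) b25792 (.nil))) (.nil))))) (.nil))))))))))))))))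
noncomputable def r27_7 : Rw Blk := .tok (nat_lit 3) (nat_lit 0xbc0001780002fdfe3) (.hit (nat_lit 18) (nat_lit 0) (nat_lit 0xbc0001780002fdfe3) b11659 (.tok (nat_lit 6) (nat_lit 0xbc0001780002fcf6d) (.hit (nat_lit 19) (nat_lit 7) (nat_lit 0xbc0001780002fcf6d) b11660 (.hit (nat_lit 20) (nat_lit 15) (nat_lit 0xbc0001780002fce45) b11661 (.nil))) (.tok (nat_lit 9) (nat_lit 0xbc0001780002fd426) (.hit (nat_lit 21) (nat_lit 20) (nat_lit 0xbc0001780002fcfcf) b11662 (.hit (nat_lit 22) (nat_lit 28) (nat_lit 0xbc0001780002fd426) b11663 (.nil))) (.nil)))) (.tok (nat_lit 6) (nat_lit 0xbc000178000300000) (.hit (nat_lit 0) (nat_lit 0) (nat_lit 0xbc0001780002fea59) b11643 (.tok (nat_lit 3) (nat_lit 0xbc0001780002ff018) (.hit (nat_lit 1) (nat_lit 1) (nat_lit 0xbc0001780002fd338) b11644 (.one (nat_lit 67) (nat_lit 2) (nat_lit 2) (nat_lit 0xbc0001780002ff018) b15452 (.nil))) (.tok (nat_lit 6) (nat_lit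 0xbc000178000300000) (.hit (nat_lit 3) (nat_lit 7) (nat_lit 0xbc0001780002feccc) b11645 (.hit (nat_lit 7) (nat_lit 15) (nat_lit 0xbc0001780002fdb65) b11649 (.tok (nat_lit 55) (nat_lit 0xbc000178000300000) (.hit (nat_lit 4) (nat_lit 8) (nat_lit 0xbc0001780002ffb92) b11646 (.hit (nat_lit 8) (nat_lit 16) (nat_lit 0xbc0001780002ff0f8) b11650 (.tok (nat_lit 6) (nat_lit 0xbc000178000300000) (.hit (nat_lit 5) (nat_lit 9) (nat_lit 0xbc0001780002ff9af) b11647 (.one (nat_lit 55) (nat_lit 6) (nat_lit 10) (nat_lit 0xbc000178000300000) b11648 (.nil))) (.nil)))) (.nil)))) (.nil)))) (.tok (nat_lit 9) (nat_lit 0xbc0001780002feb8e) (.hit (nat_lit 9) (nat_lit 0) (nat_lit 0xbc0001780002fdff6) b11651 (.tok (nat_lit 3) (nat_lit 0xbc0001780002feb8e) (.hit (nat_lit 10) (nat_lit 1) (nat_lit 0xbc0001780002fda7f) b11652 (.one (nat_lit 55) (nat_lit 11) (nat_lit 3) (nat_lit 0xbc0001780002feb8e) b15453 (.nil)))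 (.tok (nat_lit 9) (nat_lit 0xbc0001780002fda9c) (.hit (nat_lit 12) (nat_lit 20) (nat_lit 0xbc0001780002fd406) b11653 (.hit (nat_lit 16) (nat_lit 28) (nat_lit 0xbc0001780002fda9c) b11657 (.nil))) (.nil)))) (.nil)))
noncomputable def r27_8 : Rw Blk := .tok (nat_lit 3) (nat_lit 0xbc0001780002fe332) (.hit (nat_lit 14) (nat_lit 0) (nat_lit 0xbc0001780002fe332) b15487 (.tok (nat_lit 6) (nat_lit 0xbc0001780002fd58b) (.hit (nat_lit 15) (nat_lit 7) (nat_lit 0xbc0001780002fd58b) b15490 (.hit (nat_lit 16) (nat_lit 15) (nat_lit 0xbc0001780002fd007) b15491 (.nil))) (.tok (nat_lit 9) (nat_lit 0xbc0001780002fd0a7) (.hit (nat_lit 17) (nat_lit 20) (nat_lit 0xbc0001780002fd0a7) b15488 (.hit (nat_lit 18) (nat_lit 28) (nat_lit 0xbc0001780002faa89) b15489 (.nil))) (.nil)))) (.tok (nat_lit 6) (nat_lit 0xbc000178000300000) (.hit (nat_lit 9) (nat_lit 0) (nat_lit 0xbc000178000300000) b15482 (.tok (nat_lit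 3) (nat_lit 0xbc0001780002ffaf5) (.hit (nat_lit 10) (nat_lit 1) (nat_lit 0xbc0001780002fda4e) b15483 (.one (nat_lit 67) (nat_lit 11) (nat_lit 2) (nat_lit 0xbc0001780002ffaf5) b15484 (.nil))) (.tok (nat_lit 6) (nat_lit 0xbc0001780002ff2c2) (.hit (nat_lit 12) (nat_lit 7) (nat_lit 0xbc0001780002ff2c2) b15485 (.hit (nat_lit 13) (nat_lit 15) (nat_lit 0xbc0001780002fdd07) b15486 (.nil))) (.nil)))) (.tok (nat_lit 9) (nat_lit 0xbc0001780002ff6c3) (.hit (nat_lit 0) (nat_lit 0) (nat_lit 0xbc0001780002ff2fa) b15473 (.tok (nat_lit 3) (nat_lit 0xbc0001780002fe7a8) (.hit (nat_lit 1) (nat_lit 1) (nat_lit 0xbc0001780002fd593) b15474 (.one (nat_lit 55) (nat_lit 2) (nat_lit 3) (nat_lit 0xbc0001780002fe7a8) b15475 (.nil))) (.tok (nat_lit 9) (nat_lit 0xbc0001780002ff6c3) (.hit (nat_lit 3) (nat_lit 20) (nat_lit 0xbc0001780002fd2ad) b15476 (.hit (nat_lit 7) (nat_lit 28) (nat_lit 0xbc0001780002fd3a5)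 b15480 (.tok (nat_lit 67) (nat_lit 0xbc0001780002ff6c3) (.hit (nat_lit 4) (nat_lit 21) (nat_lit 0xbc0001780002fe8c9) b15477 (.hit (nat_lit 8) (nat_lit 29) (nat_lit 0xbc0001780002ff0ef) b15481 (.tok (nat_lit 9) (nat_lit 0xbc0001780002ff6c3) (.hit (nat_lit 5) (nat_lit 22) (nat_lit 0xbc0001780002fe8ce) b15478 (.one (nat_lit 67) (nat_lit 6) (nat_lit 23) (nat_lit 0xbc0001780002ff6c3) b15479 (.nil))) (.nil)))) (.nil)))) (.nil)))) (.nil)))
noncomputable def r27_9 : Rw Blk := .tok (nat_lit 6) (nat_lit 0xbc000178000301547) (.hit (nat_lit 10) (nat_lit 0) (nat_lit 0xbc000178000301547) b25855 (.tok (nat_lit 3) (nat_lit 0xbc0001780002ffe65) (.hit (nat_lit 11) (nat_lit 1) (nat_lit 0xbc0001780002feb36) b25856 (.one (nat_lit 14) (nat_lit 12) (nat_lit 4) (nat_lit 0xbc0001780002ffe65) b25857 (.one (nat_lit 56) (nat_lit 13) (nat_lit 6) (nat_lit 0xbc0001780002ffb74) b25858 (.nil)))) (.nil))) (.tok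 (nat_lit 9) (nat_lit 0xbc00017800030091e) (.hit (nat_lit 0) (nat_lit 0) (nat_lit 0xbc00017800030091e) b25845 (.tok (nat_lit 3) (nat_lit 0xbc0001780002fdeaa) (.hit (nat_lit 1) (nat_lit 1) (nat_lit 0xbc0001780002fc1b6) b25846 (.one (nat_lit 14) (nat_lit 2) (nat_lit 4) (nat_lit 0xbc0001780002fdabb) b25847 (.one (nat_lit 68) (nat_lit 3) (nat_lit 5) (nat_lit 0xbc0001780002fdeaa) b25848 (.nil)))) (.tok (nat_lit 40) (nat_lit 0xbc0001780002fe363) (.hit (nat_lit 4) (nat_lit 33) (nat_lit 0xbc0001780002fdddd) b25849 (.hit (nat_lit 5) (nat_lit 34) (nat_lit 0xbc0001780002fe363) b25850 (.nil))) (.tok (nat_lit 43) (nat_lit 0xbc0001780002feee7) (.hit (nat_lit 6) (nat_lit 35) (nat_lit 0xbc0001780002feee7) b25853 (.hit (nat_lit 7) (nat_lit 36) (nat_lit 0xbc0001780002feb82) b25854 (.nil))) (.tok (nat_lit 46) (nat_lit 0xbc0001780002fefbe) (.hit (nat_lit 8) (nat_lit 37) (nat_lit 0xbc0001780002fefbe)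 b25851 (.hit (nat_lit 9) (nat_lit 38) (nat_lit 0xbc0001780002fea23) b25852 (.nil))) (.nil)))))) (.nil))
noncomputable def r27_10 : Rw Blk := .tok (nat_lit 6) (nat_lit 0xbc0001780002ff1bb) (.hit (nat_lit 10) (nat_lit 0) (nat_lit 0xbc0001780002fe87b) b25869 (.tok (nat_lit 3) (nat_lit 0xbc0001780002ff1bb) (.hit (nat_lit 11) (nat_lit 1) (nat_lit 0xbc0001780002fd1aa) b25870 (.one (nat_lit 14) (nat_lit 12) (nat_lit 4) (nat_lit 0xbc0001780002ff1bb) b25871 (.one (nat_lit 56) (nat_lit 13) (nat_lit 6) (nat_lit 0xbc0001780002fe798) b25872 (.nil)))) (.nil))) (.tok (nat_lit 9) (nat_lit 0xbc000178000300b1b) (.hit (nat_lit 0) (nat_lit 0) (nat_lit 0xbc0001780002ffffe) b25859 (.tok (nat_lit 3) (nat_lit 0xbc0001780003006fa) (.hit (nat_lit 1) (nat_lit 1) (nat_lit 0xbc0001780002fd823) b25860 (.one (nat_lit 14) (nat_lit 2) (nat_lit 4) (nat_lit 0xbc0001780003006fa) b25861 (.one (nat_lit 68) (nat_lit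 3) (nat_lit 5) (nat_lit 0xbc0001780002ff10f) b25862 (.nil)))) (.tok (nat_lit 40) (nat_lit 0xbc0001780002ff9d3) (.hit (nat_lit 4) (nat_lit 33) (nat_lit 0xbc0001780002ff594) b25863 (.hit (nat_lit 5) (nat_lit 34) (nat_lit 0xbc0001780002ff9d3) b25864 (.nil))) (.tok (nat_lit 43) (nat_lit 0xbc000178000300b1b) (.hit (nat_lit 6) (nat_lit 35) (nat_lit 0xbc0001780002fe7e9) b25867 (.hit (nat_lit 7) (nat_lit 36) (nat_lit 0xbc000178000300b1b) b25868 (.nil))) (.tok (nat_lit 46) (nat_lit 0xbc000178000300508) (.hit (nat_lit 8) (nat_lit 37) (nat_lit 0xbc000178000300508) b25865 (.hit (nat_lit 9) (nat_lit 38) (nat_lit 0xbc0001780002feee9) b25866 (.nil))) (.nil)))))) (.nil))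
noncomputable def r27_11 : Rw Blk := .tok (nat_lit 3) (nat_lit 0x600e08c0165d80a12300bd16013e0c04569808f9300695) (.hit (nat_lit 15) (nat_lit 0) (nat_lit 0x5fb5d2bf95c57fa112fe4685fd040bfdfd97f8bb2fe984) b25888 (.tok (nat_lit 9) (nat_lit 0x5fad42bf9ad97fc9aafda835fc7b0bfc7257f7ba2fe53c) (.hit (nat_lit 16) (nat_lit 20) (nat_lit 0x5f812ebf4e817ec5f2fc4795f9b9cbfa7757f0202fcf32) b25889 (.hit (nat_lit 21) (nat_lit 28) (nat_lit 0x5f4a3cbf1b457e467afa9005f64aabf72197ecacafb3b9) b25892 (.tok (nat_lit 14) (nat_lit 0x5fa09abf9ad97fc9aafd42f5fbb08bfc7257f7ba2fdee8) (.hit (nat_lit 17) (nat_lit 24) (nat_lit 0x5f9bbebf76b17f5c2afd1c15fb62cbf96c57f1f9afdc7a) b25890 (.hit (nat_lit 22) (nat_lit 30) (nat_lit 0x5f9afcbf8b497f2acafd1605fb56abfb8317f4a7afdc19) b25893 (.one (nat_lit 6) (nat_lit 18) (nat_lit 25) (nat_lit 0x5fa09abf9ad97fc9aafd42f5fbb08bfc7257f7ba2fdee8) b25891 (.nil)))) (.one (nat_lit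 56) (nat_lit 23) (nat_lit 31) (nat_lit 0x5fad42bf84957f0622fda835fc7b0bf81797f076afe53c) b25894 (.nil))))) (.tok (nat_lit 64) (nat_lit 0x5fabc2bfb0117f86aafd9c35fc630bfd6657f6732fe47c) (.hit (nat_lit 25) (nat_lit 50) (nat_lit 0x5fa7c6bf5d817f1b22fd7c55fc234bf72ad7ef17afe27e) b25895 (.hit (nat_lit 26) (nat_lit 51) (nat_lit 0x5fabc2bfb0117f86aafd9c35fc630bfd6657f6732fe47c) b25896 (.nil))) (.tok (nat_lit 67) (nat_lit 0x600e08c0165d80a12300bd16013e0c04569808f9300695) (.hit (nat_lit 27) (nat_lit 52) (nat_lit 0x600e08c0165d80a12300bd16013e0c04569808f9300695) b25897 (.tok (nat_lit 3) (nat_lit 0x5fc70abfd3e98049f2fe7675fe178c00f31800da2ff220) (.hit (nat_lit 33) (nat_lit 58) (nat_lit 0x5fbc1abfa0a5801b8afe1ef5fd688c00f31800da2feca8) b25900 (.one (nat_lit 55) (nat_lit 34) (nat_lit 59) (nat_lit 0x5fc70abfd3e98049f2fe7675fe178bfbe9d7f6e8aff220) b25901 (.nil))) (.tok (nat_lit 9) (nat_lit 0x5fb80cbfae817fd8dafdfe85fd27ac004617fd8d2feaa1)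 (.hit (nat_lit 28) (nat_lit 53) (nat_lit 0x5faebcbf7e6d7faecafdb405fc92abfe1d17fb912fe5f9) b25898 (.hit (nat_lit 31) (nat_lit 56) (nat_lit 0x5fb80cbfae817fd8dafdfe85fd27ac004617fd8d2feaa1) b25899 (.nil))) (.nil)))) (.one (nat_lit 70) (nat_lit 35) (nat_lit 60) (nat_lit 0x5fb254bfbbf97f8ea2fdd0c5fccc2bfdead7f77c2fe7c5) b25902 (.nil)))))) (.tok (nat_lit 6) (nat_lit 0x603914c079e98175e3020ef6040b8c08bb980feeb02a2e) (.hit (nat_lit 0) (nat_lit 0) (nat_lit 0x5ff1c2c05a9580b283004b060081ec08bb980f933001f4) b25873 (.tok (nat_lit 6) (nat_lit 0x601782c047f580f58b013f260136ec08a5180fb4b00944) (.hit (nat_lit 1) (nat_lit 7) (nat_lit 0x5fe146bf53557f0683002545ffcd8bfc0117f715aff7ee) b25874 (.hit (nat_lit 4) (nat_lit 15) (nat_lit 0x5f9532bf5bb17eee92fdaf55fb954bfb15d7f4a5afd25e) b25877 (.tok (nat_lit 14) (nat_lit 0x601782c012dd80f58b013f260136ec01e8d8041cb00944) (.hit (nat_lit 2) (nat_lit 11)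 (nat_lit 0x601782bff96980563300c89600c38bfaa857f5ddb00944) b25875 (.hit (nat_lit 5) (nat_lit 17) (nat_lit 0x5fac1cbfd1897f570afe14d5fc7b2bfbb0d7f5fb2fe007) b25878 (.one (nat_lit 9) (nat_lit 3) (nat_lit 12) (nat_lit 0x6005f8c012dd80f58b013f260136ec01e8d8041cb0024c) b25876 (.nil)))) (.one (nat_lit 68) (nat_lit 6) (nat_lit 18) (nat_lit 0x5fcdf8c047f580a57aff56d5ff1b6c08a5180fb4afef9a) b25879 (.nil))))) (.tok (nat_lit 52) (nat_lit 0x603914c044a5809f1301168602126bff5e97fd2b302a2e) (.hit (nat_lit 7) (nat_lit 39) (nat_lit 0x603914c044a5809f1300e7a601740bf898d7f1f3b02a2e) b25880 (.hit (nat_lit 8) (nat_lit 40) (nat_lit 0x601454c000197fe1c301168602126bff5e97fd2b300ceb) b25881 (.nil))) (.tok (nat_lit 55) (nat_lit 0x6029fac079e98175e3020ef6040b8c07ae980feeb01513) (.hit (nat_lit 9) (nat_lit 41) (nat_lit 0x6029fac079e98175e3020ef6040b8c07ae980feeb01513) b25882 (.tok (nat_lit 3) (nat_lit 0x601c46bfe8f580376301fc6603992c01939803afb01349)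 (.hit (nat_lit 12) (nat_lit 47) (nat_lit 0x601c38bfc1f97fdb0b01fc6603992c01939803afb01349) b25885 (.one (nat_lit 67) (nat_lit 13) (nat_lit 48) (nat_lit 0x601c46bfe8f5803763016f36023b6bfecc57fe0f300c0c) b25886 (.nil))) (.tok (nat_lit 6) (nat_lit 0x600c1ec016c580bf9b0169d6017dac01a85803daafff62) (.hit (nat_lit 10) (nat_lit 42) (nat_lit 0x5fe3dac016c5808b6aff4165fef26bfb9a57f5c8aff388) b25883 (.hit (nat_lit 11) (nat_lit 45) (nat_lit 0x600c1ebfef0180bf9b0169d6017dac01a85803daafff62) b25884 (.nil))) (.nil)))) (.one (nat_lit 58) (nat_lit 14) (nat_lit 49) (nat_lit 0x5ffed4c010ed7fd71b011fc601662c027a180443b006c5) b25887 (.nil)))))) (.nil))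
noncomputable def r27_12 : Rw Blk := .tok (nat_lit 6) (nat_lit 0xbc0001824ddb0514c) (.hit (nat_lit 18) (nat_lit 0) (nat_lit 0xbc000180379b009c9) b25921 (.tok (nat_lit 14) (nat_lit 0xbc00018157a302377) (.hit (nat_lit 19) (nat_lit 61) (nat_lit 0xbc000180853b02377) b25922 (.one (nat_lit 3) (nat_lit 20) (nat_lit 62) (nat_lit 0xbc000180589300ef6) b25923 (.tok (nat_lit 6) (nat_lit 0xbc00017fee6affa53) (.hit (nat_lit 23) (nat_lit 65) (nat_lit 0xbc00017f82dafeb48) b25924 (.hit (nat_lit 24) (nat_lit 66) (nat_lit 0xbc00017fee6affa53) b25925 (.nil))) (.tok (nat_lit 9) (nat_lit 0xbc00018157a3022a6) (.hit (nat_lit 21) (nat_lit 63) (nat_lit 0xbc00018157a3022a6) b25926 (.hit (nat_lit 22) (nat_lit 64) (nat_lit 0xbc0001800f42ffd6d) b25927 (.nil))) (.nil))))) (.one (nat_lit 17) (nat_lit 25) (nat_lit 67) (nat_lit 0xbc00018024cb00825) b25928 (.tok (nat_lit 20) (nat_lit 0xbc0001824ddb0514c) (.hit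 (nat_lit 26) (nat_lit 68) (nat_lit 0xbc0001824ddb0514c) b25931 (.hit (nat_lit 27) (nat_lit 69) (nat_lit 0xbc00017f74b2fed01) b25932 (.nil))) (.tok (nat_lit 23) (nat_lit 0xbc00017fac92ff258) (.hit (nat_lit 28) (nat_lit 70) (nat_lit 0xbc00017f7502fe98d) b25929 (.hit (nat_lit 29) (nat_lit 71) (nat_lit 0xbc00017fac92ff258) b25930 (.nil))) (.one (nat_lit 26) (nat_lit 30) (nat_lit 72) (nat_lit 0xbc00017f882afeba6) b25933 (.one (nat_lit 29) (nat_lit 31) (nat_lit 73) (nat_lit 0xbc00017fb552ffd67) b25934 (.one (nat_lit 32) (nat_lit 32) (nat_lit 74) (nat_lit 0xbc00017f7b4afe884) b25936 (.one (nat_lit 35) (nat_lit 33) (nat_lit 75) (nat_lit 0xbc00017feef2ffd11) b25935 (.one (nat_lit 62) (nat_lit 41) (nat_lit 92) (nat_lit 0xbc00017fff2aff938) b25937 (.tok (nat_lit 65) (nat_lit 0xbc0001801482fffef) (.hit (nat_lit 42) (nat_lit 93) (nat_lit 0xbc00017fb36affa26) b25938 (.hit (nat_lit 43) (nat_lit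 94) (nat_lit 0xbc0001801482fffef) b25939 (.nil))) (.tok (nat_lit 68) (nat_lit 0xbc000180d4c2ffcbc) (.hit (nat_lit 44) (nat_lit 95) (nat_lit 0xbc000180d4c2ffcbc) b25940 (.one (nat_lit 3) (nat_lit 48) (nat_lit 99) (nat_lit 0xbc00017f7acafea46) b25944 (.one (nat_lit 6) (nat_lit 45) (nat_lit 96) (nat_lit 0xbc00017f719afe920) b25941 (.tok (nat_lit 9) (nat_lit 0xbc00017f558afe59e) (.hit (nat_lit 46) (nat_lit 97) (nat_lit 0xbc00017f558afe59e) b25942 (.hit (nat_lit 47) (nat_lit 98) (nat_lit 0xbc00017f1d5afde98) b25943 (.nil))) (.nil))))) (.one (nat_lit 71) (nat_lit 49) (nat_lit 100) (nat_lit 0xbc00017f96e2fef06) b25945 (.nil)))))))))))))) (.tok (nat_lit 52) (nat_lit 0xbc0001819c0303329) (.hit (nat_lit 13) (nat_lit 0) (nat_lit 0xbc000181744303329) b25916 (.tok (nat_lit 6) (nat_lit 0xbc0001819c03022bd) (.hit (nat_lit 14) (nat_lit 7) (nat_lit 0xbc00018158bb01e19) b25919 (.hit (nat_lit 15)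 (nat_lit 15) (nat_lit 0xbc0001819c03022bd) b25920 (.nil))) (.tok (nat_lit 9) (nat_lit 0xbc0001806c92ffd97) (.hit (nat_lit 16) (nat_lit 20) (nat_lit 0xbc00017f9162fed19) b25917 (.hit (nat_lit 17) (nat_lit 28) (nat_lit 0xbc0001806c92ffd97) b25918 (.nil))) (.nil)))) (.tok (nat_lit 55) (nat_lit 0xbc0001805ecb00638) (.hit (nat_lit 8) (nat_lit 0) (nat_lit 0xbc0001805ecb00396) b25911 (.tok (nat_lit 3) (nat_lit 0xbc000180567b005bc) (.hit (nat_lit 9) (nat_lit 1) (nat_lit 0xbc00017fd462ff579) b25912 (.one (nat_lit 67) (nat_lit 10) (nat_lit 2) (nat_lit 0xbc000180567b005bc) b25913 (.nil))) (.tok (nat_lit 6) (nat_lit 0xbc0001805a5b00638) (.hit (nat_lit 11) (nat_lit 7) (nat_lit 0xbc0001805a5b00638) b25914 (.hit (nat_lit 12) (nat_lit 15) (nat_lit 0xbc00017fb42aff172) b25915 (.nil))) (.nil)))) (.tok (nat_lit 58) (nat_lit 0xbc0001810bd301c67) (.hit (nat_lit 0) (nat_lit 0) (nat_lit 0xbc000180f563008f9)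 b25903 (.tok (nat_lit 3) (nat_lit 0xbc0001810bd301c67) (.hit (nat_lit 1) (nat_lit 1) (nat_lit 0xbc0001806a8b0083e) b25904 (.one (nat_lit 55) (nat_lit 2) (nat_lit 3) (nat_lit 0xbc0001810bd301c67) b25905 (.nil))) (.tok (nat_lit 9) (nat_lit 0xbc000180f20b0192e) (.hit (nat_lit 3) (nat_lit 20) (nat_lit 0xbc00018044730037b) b25906 (.hit (nat_lit 6) (nat_lit 28) (nat_lit 0xbc00018055030058d) b25909 (.tok (nat_lit 67) (nat_lit 0xbc000180f20b0192e) (.hit (nat_lit 4) (nat_lit 21) (nat_lit 0xbc000180b013010ef) b25907 (.hit (nat_lit 7) (nat_lit 29) (nat_lit 0xbc000180ee83018bd) b25910 (.one (nat_lit 9) (nat_lit 5) (nat_lit 22) (nat_lit 0xbc000180f20b0192e) b25908 (.nil)))) (.nil)))) (.nil)))) (.nil))))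
noncomputable def r27_13 : Rw Blk := .tok (nat_lit 3) (nat_lit 0xbc000181d51b037c7) (.hit (nat_lit 0) (nat_lit 0) (nat_lit 0xbc000181d51b03756) b25946 (.tok (nat_lit 9) (nat_lit 0xbc000180cee301a7e) (.hit (nat_lit 1) (nat_lit 20) (nat_lit 0xbc00017f73faff2f1) b25947 (.hit (nat_lit 6) (nat_lit 28) (nat_lit 0xbc00017f6c32ffac8) b25950 (.tok (nat_lit 68) (nat_lit 0xbc000180cee301a7e) (.hit (nat_lit 4) (nat_lit 26) (nat_lit 0xbc00017ffa1300b0a) b25948 (.hit (nat_lit 8) (nat_lit 32) (nat_lit 0xbc00018011f300624) b25951 (.one (nat_lit 9) (nat_lit 5) (nat_lit 27) (nat_lit 0xbc000180cee301a7e) b25949 (.nil)))) (.nil)))) (.tok (nat_lit 64) (nat_lit 0xbc000180b70302b16) (.hit (nat_lit 9) (nat_lit 50) (nat_lit 0xbc000180b70302b16) b25952 (.hit (nat_lit 10) (nat_lit 51) (nat_lit 0xbc0001806ffb0223c) b25953 (.nil))) (.tok (nat_lit 67) (nat_lit 0xbc000181c553037c7) (.hit (nat_lit 11) (nat_lit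 52) (nat_lit 0xbc000181c553037c7) b25954 (.one (nat_lit 3) (nat_lit 17) (nat_lit 58) (nat_lit 0xbc000180a1fb01fb2) b25960 (.tok (nat_lit 9) (nat_lit 0xbc000180daab023ef) (.hit (nat_lit 12) (nat_lit 53) (nat_lit 0xbc00018077a301b3e) b25955 (.hit (nat_lit 15) (nat_lit 56) (nat_lit 0xbc00018070ab01929) b25958 (.tok (nat_lit 67) (nat_lit 0xbc000180daab023ef) (.hit (nat_lit 13) (nat_lit 54) (nat_lit 0xbc000180daab023ef) b25956 (.hit (nat_lit 16) (nat_lit 57) (nat_lit 0xbc000180c12b01e19) b25959 (.one (nat_lit 9) (nat_lit 14) (nat_lit 55) (nat_lit 0xbc0001808f8301651) b25957 (.nil)))) (.nil)))) (.nil)))) (.one (nat_lit 70) (nat_lit 19) (nat_lit 60) (nat_lit 0xbc000180364b0121e) b25961 (.nil)))))) (.tok (nat_lit 6) (nat_lit 0xbc000181ff4b04035) (.hit (nat_lit 20) (nat_lit 0) (nat_lit 0xbc000181ed4b03bcf) b25962 (.tok (nat_lit 6) (nat_lit 0xbc000181ff4b04035) (.hit (nat_lit 21) (nat_lit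 7) (nat_lit 0xbc00018134d3029e4) b25963 (.hit (nat_lit 24) (nat_lit 15) (nat_lit 0xbc000180c10301929) b25964 (.one (nat_lit 68) (nat_lit 26) (nat_lit 18) (nat_lit 0xbc000181ff4b04035) b25965 (.nil)))) (.nil))) (.nil))
noncomputable def r27_14 : Rw Blk := .tok (nat_lit 6) (nat_lit 0xbc00017800030440b) (.hit (nat_lit 0) (nat_lit 0) (nat_lit 0xbc000178000302f2f) b25966 (.one (nat_lit 38) (nat_lit 12) (nat_lit 76) (nat_lit 0xbc000178000302ef6) b25967 (.tok (nat_lit 41) (nat_lit 0xbc000178000302364) (.hit (nat_lit 13) (nat_lit 77) (nat_lit 0xbc000178000301000) b25968 (.hit (nat_lit 14) (nat_lit 78) (nat_lit 0xbc000178000302364) b25969 (.nil))) (.tok (nat_lit 44) (nat_lit 0xbc000178000303607) (.hit (nat_lit 15) (nat_lit 79) (nat_lit 0xbc000178000303607) b25972 (.hit (nat_lit 16) (nat_lit 80) (nat_lit 0xbc000178000301f72) b25973 (.nil))) (.tok (nat_lit 47) (nat_lit 0xbc000178000301c0f)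 (.hit (nat_lit 17) (nat_lit 81) (nat_lit 0xbc000178000300ffd) b25970 (.hit (nat_lit 18) (nat_lit 82) (nat_lit 0xbc000178000301c0f) b25971 (.nil))) (.one (nat_lit 62) (nat_lit 19) (nat_lit 92) (nat_lit 0xbc000178000302b36) b25974 (.tok (nat_lit 65) (nat_lit 0xbc00017800030257e) (.hit (nat_lit 20) (nat_lit 93) (nat_lit 0xbc000178000301452) b25975 (.hit (nat_lit 21) (nat_lit 94) (nat_lit 0xbc00017800030257e) b25976 (.nil))) (.tok (nat_lit 68) (nat_lit 0xbc00017800030440b) (.hit (nat_lit 22) (nat_lit 95) (nat_lit 0xbc00017800030440b) b25977 (.one (nat_lit 3) (nat_lit 26) (nat_lit 99) (nat_lit 0xbc0001780003026f5) b25981 (.one (nat_lit 6) (nat_lit 23) (nat_lit 96) (nat_lit 0xbc000178000302a53) b25978 (.tok (nat_lit 9) (nat_lit 0xbc000178000301fb8) (.hit (nat_lit 24) (nat_lit 97) (nat_lit 0xbc000178000301fb8) b25979 (.hit (nat_lit 25) (nat_lit 98) (nat_lit 0xbc0001780003019b3) b25980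 (.nil))) (.nil))))) (.one (nat_lit 71) (nat_lit 27) (nat_lit 100) (nat_lit 0xbc000178000300eb7) b25982 (.nil)))))))))) (.nil)
noncomputable def r27_15 : Rw Blk := .tok (nat_lit 6) (nat_lit 0xbc000178000303e80) (.hit (nat_lit 18) (nat_lit 0) (nat_lit 0xbc0001780002fea2e) b26001 (.tok (nat_lit 14) (nat_lit 0xbc000178000303e80) (.hit (nat_lit 19) (nat_lit 61) (nat_lit 0xbc000178000300f2e) b26002 (.one (nat_lit 3) (nat_lit 20) (nat_lit 62) (nat_lit 0xbc0001780002ffd0e) b26003 (.tok (nat_lit 6) (nat_lit 0xbc0001780002ff259) (.hit (nat_lit 23) (nat_lit 65) (nat_lit 0xbc0001780002fed29) b26004 (.hit (nat_lit 24) (nat_lit 66) (nat_lit 0xbc0001780002ff259) b26005 (.nil))) (.tok (nat_lit 9) (nat_lit 0xbc000178000303e80) (.hit (nat_lit 21) (nat_lit 63) (nat_lit 0xbc000178000303e80) b26006 (.hit (nat_lit 22) (nat_lit 64) (nat_lit 0xbc0001780002ffe40) b26007 (.nil))) (.nil))))) (.one (nat_lit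 17) (nat_lit 25) (nat_lit 67) (nat_lit 0xbc0001780002ff4bd) b26008 (.tok (nat_lit 20) (nat_lit 0xbc000178000301ef6) (.hit (nat_lit 26) (nat_lit 68) (nat_lit 0xbc000178000301ef6) b26011 (.hit (nat_lit 27) (nat_lit 69) (nat_lit 0xbc0001780002ff064) b26012 (.nil))) (.tok (nat_lit 23) (nat_lit 0xbc0001780002ff1e6) (.hit (nat_lit 28) (nat_lit 70) (nat_lit 0xbc0001780002fe16b) b26009 (.hit (nat_lit 29) (nat_lit 71) (nat_lit 0xbc0001780002ff1e6) b26010 (.nil))) (.one (nat_lit 26) (nat_lit 30) (nat_lit 72) (nat_lit 0xbc0001780002ff49a) b26013 (.one (nat_lit 29) (nat_lit 31) (nat_lit 73) (nat_lit 0xbc0001780002ff606) b26014 (.one (nat_lit 32) (nat_lit 32) (nat_lit 74) (nat_lit 0xbc0001780002fecfc) b26016 (.one (nat_lit 35) (nat_lit 33) (nat_lit 75) (nat_lit 0xbc0001780002ffd00) b26015 (.one (nat_lit 62) (nat_lit 41) (nat_lit 92) (nat_lit 0xbc0001780002ff78c) b26017 (.tok (nat_lit 65) (nat_lit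 0xbc0001780002ff2dc) (.hit (nat_lit 42) (nat_lit 93) (nat_lit 0xbc0001780002feace) b26018 (.hit (nat_lit 43) (nat_lit 94) (nat_lit 0xbc0001780002ff2dc) b26019 (.nil))) (.tok (nat_lit 68) (nat_lit 0xbc000178000300732) (.hit (nat_lit 44) (nat_lit 95) (nat_lit 0xbc000178000300732) b26020 (.one (nat_lit 3) (nat_lit 48) (nat_lit 99) (nat_lit 0xbc0001780002fe0ff) b26024 (.one (nat_lit 6) (nat_lit 45) (nat_lit 96) (nat_lit 0xbc0001780002fed29) b26021 (.tok (nat_lit 9) (nat_lit 0xbc0001780002fed95) (.hit (nat_lit 46) (nat_lit 97) (nat_lit 0xbc0001780002fed95) b26022 (.hit (nat_lit 47) (nat_lit 98) (nat_lit 0xbc0001780002fd430) b26023 (.nil))) (.nil))))) (.one (nat_lit 71) (nat_lit 49) (nat_lit 100) (nat_lit 0xbc0001780002fee73) b26025 (.nil)))))))))))))) (.tok (nat_lit 52) (nat_lit 0xbc00017800030312c) (.hit (nat_lit 13) (nat_lit 0) (nat_lit 0xbc000178000302216) b25996 (.tok (nat_lit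 6) (nat_lit 0xbc00017800030312c) (.hit (nat_lit 14) (nat_lit 7) (nat_lit 0xbc000178000302d93) b25999 (.hit (nat_lit 15) (nat_lit 15) (nat_lit 0xbc00017800030312c) b26000 (.nil))) (.tok (nat_lit 9) (nat_lit 0xbc000178000300a02) (.hit (nat_lit 16) (nat_lit 20) (nat_lit 0xbc0001780002ff5af) b25997 (.hit (nat_lit 17) (nat_lit 28) (nat_lit 0xbc000178000300a02) b25998 (.nil))) (.nil)))) (.tok (nat_lit 55) (nat_lit 0xbc0001780003012aa) (.hit (nat_lit 8) (nat_lit 0) (nat_lit 0xbc0001780003003ce) b25991 (.tok (nat_lit 3) (nat_lit 0xbc0001780003012aa) (.hit (nat_lit 9) (nat_lit 1) (nat_lit 0xbc0001780002ffcea) b25992 (.one (nat_lit 67) (nat_lit 10) (nat_lit 2) (nat_lit 0xbc0001780003012aa) b25993 (.nil))) (.tok (nat_lit 6) (nat_lit 0xbc0001780002ffd50) (.hit (nat_lit 11) (nat_lit 7) (nat_lit 0xbc0001780002ffd50) b25994 (.hit (nat_lit 12) (nat_lit 15) (nat_lit 0xbc0001780002ff0f3) b25995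 (.nil))) (.nil)))) (.tok (nat_lit 58) (nat_lit 0xbc0001780003021c5) (.hit (nat_lit 0) (nat_lit 0) (nat_lit 0xbc000178000300b92) b25983 (.tok (nat_lit 3) (nat_lit 0xbc000178000301718) (.hit (nat_lit 1) (nat_lit 1) (nat_lit 0xbc000178000300629) b25984 (.one (nat_lit 55) (nat_lit 2) (nat_lit 3) (nat_lit 0xbc000178000301718) b25985 (.nil))) (.tok (nat_lit 9) (nat_lit 0xbc0001780003021c5) (.hit (nat_lit 3) (nat_lit 20) (nat_lit 0xbc0001780003012a8) b25986 (.hit (nat_lit 6) (nat_lit 28) (nat_lit 0xbc00017800030057d) b25989 (.tok (nat_lit 67) (nat_lit 0xbc0001780003021c5) (.hit (nat_lit 4) (nat_lit 21) (nat_lit 0xbc000178000301c88) b25987 (.hit (nat_lit 7) (nat_lit 29) (nat_lit 0xbc00017800030168a) b25990 (.one (nat_lit 9) (nat_lit 5) (nat_lit 22) (nat_lit 0xbc0001780003021c5) b25988 (.nil)))) (.nil)))) (.nil)))) (.nil))))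
noncomputable def r27_16 : Rw Blk := .tok (nat_lit 3) (nat_lit 0xbc0001780003044a9) (.hit (nat_lit 0) (nat_lit 0) (nat_lit 0xbc000178000302de4) b26026 (.tok (nat_lit 9) (nat_lit 0xbc000178000301d68) (.hit (nat_lit 1) (nat_lit 20) (nat_lit 0xbc0001780002ff6b4) b26027 (.hit (nat_lit 6) (nat_lit 28) (nat_lit 0xbc0001780002fed6b) b26030 (.tok (nat_lit 68) (nat_lit 0xbc000178000301d68) (.hit (nat_lit 4) (nat_lit 26) (nat_lit 0xbc00017800030096a) b26028 (.hit (nat_lit 8) (nat_lit 32) (nat_lit 0xbc000178000300196) b26031 (.one (nat_lit 9) (nat_lit 5) (nat_lit 27) (nat_lit 0xbc000178000301d68) b26029 (.nil)))) (.nil)))) (.tok (nat_lit 64) (nat_lit 0xbc000178000301dc8) (.hit (nat_lit 9) (nat_lit 50) (nat_lit 0xbc000178000301dc8) b26032 (.hit (nat_lit 10) (nat_lit 51) (nat_lit 0xbc000178000301037) b26033 (.nil))) (.tok (nat_lit 67) (nat_lit 0xbc0001780003044a9) (.hit (nat_lit 11) (nat_lit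 52) (nat_lit 0xbc0001780003044a9) b26034 (.one (nat_lit 3) (nat_lit 17) (nat_lit 58) (nat_lit 0xbc000178000301cd4) b26040 (.tok (nat_lit 9) (nat_lit 0xbc000178000301f38) (.hit (nat_lit 12) (nat_lit 53) (nat_lit 0xbc0001780003019e7) b26035 (.hit (nat_lit 15) (nat_lit 56) (nat_lit 0xbc000178000301471) b26038 (.tok (nat_lit 67) (nat_lit 0xbc000178000301f38) (.hit (nat_lit 13) (nat_lit 54) (nat_lit 0xbc000178000301f38) b26036 (.hit (nat_lit 16) (nat_lit 57) (nat_lit 0xbc0001780003019e4) b26039 (.one (nat_lit 9) (nat_lit 14) (nat_lit 55) (nat_lit 0xbc000178000301dcd) b26037 (.nil)))) (.nil)))) (.nil)))) (.one (nat_lit 70) (nat_lit 19) (nat_lit 60) (nat_lit 0xbc00017800030031c) b26041 (.nil)))))) (.tok (nat_lit 6) (nat_lit 0xbc0001780003039ba) (.hit (nat_lit 20) (nat_lit 0) (nat_lit 0xbc000178000302c06) b26042 (.tok (nat_lit 6) (nat_lit 0xbc0001780003039ba) (.hit (nat_lit 21) (nat_lit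 7) (nat_lit 0xbc0001780003039ba) b26043 (.hit (nat_lit 24) (nat_lit 15) (nat_lit 0xbc000178000300ec1) b26044 (.one (nat_lit 68) (nat_lit 26) (nat_lit 18) (nat_lit 0xbc000178000303324) b26045 (.nil)))) (.nil))) (.nil))
noncomputable def r27_17 : Rw Blk := .tok (nat_lit 9) (nat_lit 0xbc0001780003019e9) (.hit (nat_lit 21) (nat_lit 0) (nat_lit 0xbc0001780002ff6ea) b26064 (.tok (nat_lit 14) (nat_lit 0xbc0001780003019e9) (.hit (nat_lit 22) (nat_lit 61) (nat_lit 0xbc000178000300634) b26065 (.one (nat_lit 3) (nat_lit 23) (nat_lit 62) (nat_lit 0xbc0001780002fffa7) b26066 (.tok (nat_lit 6) (nat_lit 0xbc0001780003019e9) (.hit (nat_lit 26) (nat_lit 65) (nat_lit 0xbc0001780003019e9) b26067 (.hit (nat_lit 27) (nat_lit 66) (nat_lit 0xbc0001780003003b4) b26068 (.nil))) (.tok (nat_lit 9) (nat_lit 0xbc0001780002ff9c7) (.hit (nat_lit 24) (nat_lit 63) (nat_lit 0xbc0001780002fe8c2) b26069 (.hit (nat_lit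 25) (nat_lit 64) (nat_lit 0xbc0001780002ff9c7) b26070 (.nil))) (.nil))))) (.one (nat_lit 17) (nat_lit 28) (nat_lit 67) (nat_lit 0xbc00017800030026a) b26071 (.tok (nat_lit 20) (nat_lit 0xbc0001780003006d8) (.hit (nat_lit 29) (nat_lit 68) (nat_lit 0xbc0001780002fda8f) b26074 (.hit (nat_lit 30) (nat_lit 69) (nat_lit 0xbc0001780003006d8) b26075 (.nil))) (.tok (nat_lit 23) (nat_lit 0xbc0001780003001f9) (.hit (nat_lit 31) (nat_lit 70) (nat_lit 0xbc0001780003001f9) b26072 (.hit (nat_lit 32) (nat_lit 71) (nat_lit 0xbc0001780002ff6f0) b26073 (.nil))) (.one (nat_lit 26) (nat_lit 33) (nat_lit 72) (nat_lit 0xbc0001780002ffce8) b26076 (.one (nat_lit 29) (nat_lit 34) (nat_lit 73) (nat_lit 0xbc0001780002fefab) b26077 (.one (nat_lit 32) (nat_lit 35) (nat_lit 74) (nat_lit 0xbc0001780003004c9) b26079 (.one (nat_lit 35) (nat_lit 36) (nat_lit 75) (nat_lit 0xbc0001780002febcc) b26078 (.one (nat_lit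 50) (nat_lit 37) (nat_lit 83) (nat_lit 0xbc0001780002ff87b) b26080 (.tok (nat_lit 53) (nat_lit 0xbc0001780002ffdbe) (.hit (nat_lit 38) (nat_lit 84) (nat_lit 0xbc0001780002ff237) b26081 (.hit (nat_lit 39) (nat_lit 85) (nat_lit 0xbc0001780002ffdbe) b26082 (.nil))) (.tok (nat_lit 56) (nat_lit 0xbc000178000300224) (.hit (nat_lit 40) (nat_lit 86) (nat_lit 0xbc000178000300224) b26083 (.one (nat_lit 3) (nat_lit 44) (nat_lit 90) (nat_lit 0xbc0001780002fdc64) b26087 (.tok (nat_lit 6) (nat_lit 0xbc0001780002fe9d4) (.hit (nat_lit 42) (nat_lit 88) (nat_lit 0xbc0001780002fe9d4) b26085 (.hit (nat_lit 43) (nat_lit 89) (nat_lit 0xbc0001780002fe16f) b26086 (.nil))) (.one (nat_lit 9) (nat_lit 41) (nat_lit 87) (nat_lit 0xbc0001780002fe13e) b26084 (.nil))))) (.one (nat_lit 59) (nat_lit 45) (nat_lit 91) (nat_lit 0xbc0001780002ff92a) b26088 (.nil)))))))))))))) (.tok (nat_lit 64) (nat_lit 0xbc000178000302333)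 (.hit (nat_lit 16) (nat_lit 0) (nat_lit 0xbc000178000301dec) b26059 (.tok (nat_lit 6) (nat_lit 0xbc000178000302288) (.hit (nat_lit 17) (nat_lit 7) (nat_lit 0xbc0001780002ffed0) b26062 (.hit (nat_lit 18) (nat_lit 15) (nat_lit 0xbc000178000302288) b26063 (.nil))) (.tok (nat_lit 9) (nat_lit 0xbc000178000302333) (.hit (nat_lit 19) (nat_lit 20) (nat_lit 0xbc000178000302333) b26060 (.hit (nat_lit 20) (nat_lit 28) (nat_lit 0xbc000178000301a87) b26061 (.nil))) (.nil)))) (.tok (nat_lit 67) (nat_lit 0xbc000178000301ddc) (.hit (nat_lit 8) (nat_lit 0) (nat_lit 0xbc000178000301ddc) b26054 (.tok (nat_lit 3) (nat_lit 0xbc00017800030077c) (.hit (nat_lit 9) (nat_lit 1) (nat_lit 0xbc0001780003003a8) b26055 (.one (nat_lit 55) (nat_lit 10) (nat_lit 3) (nat_lit 0xbc00017800030077c) b26056 (.nil))) (.tok (nat_lit 9) (nat_lit 0xbc0001780002ffce3) (.hit (nat_lit 11) (nat_lit 20) (nat_lit 0xbc0001780002ffce3)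 b26057 (.hit (nat_lit 14) (nat_lit 28) (nat_lit 0xbc0001780002ff247) b26058 (.nil))) (.nil)))) (.tok (nat_lit 70) (nat_lit 0xbc000178000301f46) (.hit (nat_lit 0) (nat_lit 0) (nat_lit 0xbc0001780003008cc) b26046 (.tok (nat_lit 3) (nat_lit 0xbc0001780003013ce) (.hit (nat_lit 1) (nat_lit 1) (nat_lit 0xbc000178000300d6c) b26047 (.one (nat_lit 67) (nat_lit 2) (nat_lit 2) (nat_lit 0xbc0001780003013ce) b26048 (.nil))) (.tok (nat_lit 6) (nat_lit 0xbc000178000301f46) (.hit (nat_lit 3) (nat_lit 7) (nat_lit 0xbc000178000300b84) b26049 (.hit (nat_lit 6) (nat_lit 15) (nat_lit 0xbc00017800030066a) b26052 (.tok (nat_lit 55) (nat_lit 0xbc000178000301f46) (.hit (nat_lit 4) (nat_lit 8) (nat_lit 0xbc000178000301547) b26050 (.hit (nat_lit 7) (nat_lit 16) (nat_lit 0xbc000178000301787) b26053 (.one (nat_lit 6) (nat_lit 5) (nat_lit 9) (nat_lit 0xbc000178000301f46) b26051 (.nil)))) (.nil)))) (.nil))))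 (.nil))))
noncomputable def r27_18 : Rw Blk := .tok (nat_lit 3) (nat_lit 0xbc000178000304823) (.hit (nat_lit 0) (nat_lit 0) (nat_lit 0xbc000178000303327) b26089 (.tok (nat_lit 6) (nat_lit 0xbc00017800030283a) (.hit (nat_lit 1) (nat_lit 7) (nat_lit 0xbc000178000300cb1) b26090 (.hit (nat_lit 4) (nat_lit 15) (nat_lit 0xbc0001780002ff11e) b26093 (.tok (nat_lit 56) (nat_lit 0xbc00017800030283a) (.hit (nat_lit 2) (nat_lit 13) (nat_lit 0xbc000178000300b7f) b26091 (.hit (nat_lit 6) (nat_lit 19) (nat_lit 0xbc00017800030061b) b26094 (.one (nat_lit 6) (nat_lit 3) (nat_lit 14) (nat_lit 0xbc00017800030283a) b26092 (.nil)))) (.nil)))) (.tok (nat_lit 52) (nat_lit 0xbc000178000301d40) (.hit (nat_lit 7) (nat_lit 39) (nat_lit 0xbc000178000301cf4) b26095 (.hit (nat_lit 8) (nat_lit 40) (nat_lit 0xbc000178000301d40) b26096 (.nil))) (.tok (nat_lit 55) (nat_lit 0xbc000178000304823) (.hit (nat_lit 9)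 (nat_lit 41) (nat_lit 0xbc000178000304823) b26097 (.one (nat_lit 3) (nat_lit 15) (nat_lit 47) (nat_lit 0xbc0001780003023d7) b26103 (.tok (nat_lit 6) (nat_lit 0xbc000178000302df9) (.hit (nat_lit 10) (nat_lit 42) (nat_lit 0xbc000178000302df9) b26098 (.hit (nat_lit 13) (nat_lit 45) (nat_lit 0xbc000178000302191) b26101 (.tok (nat_lit 55) (nat_lit 0xbc000178000302d4b) (.hit (nat_lit 11) (nat_lit 43) (nat_lit 0xbc000178000302d4b) b26099 (.hit (nat_lit 14) (nat_lit 46) (nat_lit 0xbc00017800030252f) b26102 (.one (nat_lit 6) (nat_lit 12) (nat_lit 44) (nat_lit 0xbc000178000301fcc) b26100 (.nil)))) (.nil)))) (.nil)))) (.one (nat_lit 58) (nat_lit 16) (nat_lit 49) (nat_lit 0xbc0001780003018ba) b26104 (.nil)))))) (.tok (nat_lit 9) (nat_lit 0xbc0001780003040d5) (.hit (nat_lit 17) (nat_lit 0) (nat_lit 0xbc0001780003040d5) b26105 (.tok (nat_lit 9) (nat_lit 0xbc000178000303516) (.hit (nat_lit 18)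 (nat_lit 20) (nat_lit 0xbc000178000303516) b26106 (.hit (nat_lit 19) (nat_lit 28) (nat_lit 0xbc0001780003008ef) b26107 (.one (nat_lit 56) (nat_lit 20) (nat_lit 31) (nat_lit 0xbc0001780003033e4) b26108 (.nil)))) (.nil))) (.nil))
noncomputable def r27_19 : Rw Blk := .tok (nat_lit 3) (nat_lit 0xbc0001780002ff58c) (.hit (nat_lit 15) (nat_lit 0) (nat_lit 0xbc0001780002fe627) b26116 (.tok (nat_lit 6) (nat_lit 0xbc0001780002fdd11) (.hit (nat_lit 16) (nat_lit 7) (nat_lit 0xbc0001780002fb840) b26117 (.hit (nat_lit 21) (nat_lit 15) (nat_lit 0xbc0001780002fa2c1) b26122 (.tok (nat_lit 14) (nat_lit 0xbc0001780002fd8ef) (.hit (nat_lit 17) (nat_lit 11) (nat_lit 0xbc0001780002fcb79) b26118 (.hit (nat_lit 22) (nat_lit 17) (nat_lit 0xbc0001780002fd8ef) b26123 (.one (nat_lit 9) (nat_lit 18) (nat_lit 12) (nat_lit 0xbc0001780002fd50a) b26119 (.nil)))) (.tok (nat_lit 56) (nat_lit 0xbc0001780002fdd11)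 (.hit (nat_lit 19) (nat_lit 13) (nat_lit 0xbc0001780002fcbda) b26120 (.hit (nat_lit 24) (nat_lit 19) (nat_lit 0xbc0001780002fd562) b26124 (.one (nat_lit 6) (nat_lit 20) (nat_lit 14) (nat_lit 0xbc0001780002fdd11) b26121 (.nil)))) (.nil))))) (.tok (nat_lit 52) (nat_lit 0xbc0001780002fe305) (.hit (nat_lit 25) (nat_lit 39) (nat_lit 0xbc0001780002fdbef) b26125 (.hit (nat_lit 26) (nat_lit 40) (nat_lit 0xbc0001780002fe305) b26126 (.nil))) (.tok (nat_lit 55) (nat_lit 0xbc0001780002ff58c) (.hit (nat_lit 27) (nat_lit 41) (nat_lit 0xbc0001780002fee42) b26127 (.tok (nat_lit 3) (nat_lit 0xbc0001780002fea14) (.hit (nat_lit 33) (nat_lit 47) (nat_lit 0xbc0001780002fea14) b26133 (.one (nat_lit 67) (nat_lit 34) (nat_lit 48) (nat_lit 0xbc0001780002fdfd6) b26134 (.nil))) (.tok (nat_lit 6) (nat_lit 0xbc0001780002ff58c) (.hit (nat_lit 28) (nat_lit 42) (nat_lit 0xbc0001780002feb05) b26128 (.hit (nat_lit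 31) (nat_lit 45) (nat_lit 0xbc0001780002fe741) b26131 (.tok (nat_lit 55) (nat_lit 0xbc0001780002ff58c) (.hit (nat_lit 29) (nat_lit 43) (nat_lit 0xbc0001780002ff58c) b26129 (.hit (nat_lit 32) (nat_lit 46) (nat_lit 0xbc0001780002fe7b6) b26132 (.one (nat_lit 6) (nat_lit 30) (nat_lit 44) (nat_lit 0xbc0001780002ff439) b26130 (.nil)))) (.nil)))) (.nil)))) (.one (nat_lit 58) (nat_lit 35) (nat_lit 49) (nat_lit 0xbc0001780002fe987) b26135 (.nil)))))) (.tok (nat_lit 9) (nat_lit 0xbc000178000300000) (.hit (nat_lit 0) (nat_lit 0) (nat_lit 0xbc0001780002fec30) b26109 (.tok (nat_lit 9) (nat_lit 0xbc000178000300000) (.hit (nat_lit 1) (nat_lit 20) (nat_lit 0xbc0001780002fe00c) b26110 (.hit (nat_lit 4) (nat_lit 28) (nat_lit 0xbc0001780002fe0d2) b26113 (.tok (nat_lit 14) (nat_lit 0xbc000178000300000) (.hit (nat_lit 2) (nat_lit 24) (nat_lit 0xbc000178000300000) b26111 (.hit (nat_lit 5) (nat_lit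 30) (nat_lit 0xbc0001780002fe5e6) b26114 (.one (nat_lit 6) (nat_lit 3) (nat_lit 25) (nat_lit 0xbc0001780002fff93) b26112 (.nil)))) (.one (nat_lit 56) (nat_lit 6) (nat_lit 31) (nat_lit 0xbc0001780002fe3bc) b26115 (.nil))))) (.nil))) (.nil))
noncomputable def r27_20 : Rw Blk := .tok (nat_lit 9) (nat_lit 0x300000600000c0000180000300000600000c00001800003000006000b0c0367580322b00000) (.hit (nat_lit 157) (nat_lit 0) (nat_lit 0x2fddac5fdd54bfb1e57f3bf2ff08f5fbb3abf87997f1e1aff0c05fd612bf948d7f24dafe215) b26136 (.tok (nat_lit 14) (nat_lit 0x3000005ffd8ac0000180000300000600000bfca657fb5b2ffb595ffd58c0367580322aff3b1) (.hit (nat_lit 193) (nat_lit 61) (nat_lit 0x2ff2aa5ffb2ac000017fb80affc3e600000bfc6417fb5b2ff6cb5ffd58bfdc41800032ff291) b26137 (.one (nat_lit 3) (nat_lit 194) (nat_lit 62) (nat_lit 0x2fe5045fdf56bfec257eec1afe40f5fd5c8bf78a57f09cafe4a15fdb5cbfa7e17f644afe6a1) b26138 (.tok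 (nat_lit 6) (nat_lit 0x3000005ffd8abffc55800003000005ff1d6bfca657fad12ffb595fde08c0367580322aff3b1) (.hit (nat_lit 197) (nat_lit 65) (nat_lit 0x3000005ffd8abfe355800003000005ff1d6bfca657fad12ffb595fde08bfcaa17f9ad2ff3b1) b26139 (.hit (nat_lit 198) (nat_lit 66) (nat_lit 0x2fe22e5fcef6bffc557f017afe5b35fd040bf790d7f0a8afe4b25fd1d0c0367580322aff235) b26140 (.nil))) (.tok (nat_lit 9) (nat_lit 0x2fe7e35fdd04bfd9197f5ad2ff0de5fe8ecbf90697f5ab2feb6b5ff026bfc53d7fd0eafea3f) (.hit (nat_lit 195) (nat_lit 63) (nat_lit 0x2fcf795facaabfb8417f5ad2ff0de5fb41ebf64057f5ab2feb6b5fd15cbfa0917f43aafdd26) b26141 (.hit (nat_lit 196) (nat_lit 64) (nat_lit 0x2fe7e35fdd04bfd9197f1c6afe9cb5fe8ecbf90697f397afea8e5ff026bfc53d7fd0eafea3f) b26142 (.nil))) (.nil))))) (.one (nat_lit 17) (nat_lit 199) (nat_lit 67) (nat_lit 0x2fd79e5fcefcbfb6f97eb352fda845fb6d2bf5b957ecf8afde4a5fc0d2bf86897f0acafe64e) b26143 (.tok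 (nat_lit 20) (nat_lit 0x2fd5f55fb42abfa7ad7f442afee095fb402bf58b17f440afe8965fc290bf70957ee3b2fdac6) (.hit (nat_lit 200) (nat_lit 68) (nat_lit 0x2fcca45fa700bfa7ad7f442afee095fae74bf58b17f440afe8965fb95ebf70957ee3b2fdac6) b26146 (.hit (nat_lit 201) (nat_lit 69) (nat_lit 0x2fd5f55fb42abf7a7d7ea8b2fd67e5fb402bf55417ec32afdcc85fc290bf65cd7eceaafd531) b26147 (.nil))) (.tok (nat_lit 23) (nat_lit 0x2fe9c45ff552bfdf2d7f5cc2ff0145fecf6c00001800003000005fdafabfb8617f6f2300000) (.hit (nat_lit 202) (nat_lit 70) (nat_lit 0x2fe9c45ff552bfdf2d7f5cc2ff0145fecf6c00001800003000005fdafabfb8617f6f2300000) b26144 (.hit (nat_lit 203) (nat_lit 71) (nat_lit 0x2fd6c85fb162bfd0d97e886afd6915fb506bf57797ec74afdd445fb64abf8d897f0182fdbc2) b26145 (.nil))) (.one (nat_lit 38) (nat_lit 208) (nat_lit 76) (nat_lit 0x2fd2a45fb326bfa4c57eaedafdb5f5fad44bf47c97eaebafd96a5fb520bf6e057ed2bafd46f) b26148 (.tok (nat_lit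 41) (nat_lit 0x2fd7995fcee6bfb8517ea7fafd7355fafccbf550d7eadc2fda985fbe66bf69dd7ed862fdc3f) (.hit (nat_lit 209) (nat_lit 77) (nat_lit 0x2fcda65fbad6bf9ce57e2dcafcd0a5fa7c0bf2fd97e5a72fd0605fa1dcbf67417ed862fd94e) b26149 (.hit (nat_lit 210) (nat_lit 78) (nat_lit 0x2fd7995fcee6bfb8517ea7fafd7355fafccbf550d7eadc2fda985fbe66bf69dd7ec402fdc3f) b26150 (.nil))) (.tok (nat_lit 44) (nat_lit 0x2fd7385fbd4cbf8de57ebf52fda4f5fb688bf5a4d7ecd42fde0b5fbe72bf69d97ed60afe590) (.hit (nat_lit 211) (nat_lit 79) (nat_lit 0x2fb8ea5f7f8cbf6aa97ea65afda4f5f8700bf09c97ea63afd4dc5f8dd0bf19797e357afe590) b26153 (.hit (nat_lit 212) (nat_lit 80) (nat_lit 0x2fd7385fbd4cbf8de57ebf52fd7005fb688bf5a4d7ecd42fde0b5fbe72bf69d97ed60afdd8b) b26154 (.nil))) (.tok (nat_lit 47) (nat_lit 0x2fdc135fe3b2bfd9857f0142fe2eb5fc0aebf71997ee72afdb555fb55abf6bb97ec08afdb65) (.hit (nat_lit 213) (nat_lit 81) (nat_lit 0x2fdc135fe3b2bfd9857f0142fe2eb5fc0aebf71997ee72afdb555fb55abf6bb97eb7e2fdb65)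 b26151 (.hit (nat_lit 214) (nat_lit 82) (nat_lit 0x2fd34c5faa98bf97e97e6a5afd2b05fae78bf4a9d7eade2fda1f5fb3d8bf60c97ec08afd51f) b26152 (.nil))) (.one (nat_lit 50) (nat_lit 215) (nat_lit 83) (nat_lit 0x2fd1835fa9a8bf94ed7e8d32fd72a5fab1cbf43797e9f9afd8565fb3f0bf6db97eda5afd571) b26164 (.tok (nat_lit 53) (nat_lit 0x2fdaf85fda54bfb0557ea69afda895fc9f4bf65e57ee472fdddf5fd0aebf95017f2832fdfff) (.hit (nat_lit 216) (nat_lit 84) (nat_lit 0x2fdaf85fda54bfb0557e9ed2fda895fc9f4bf65e57ee472fdddf5fd0aebf95017f2832fdfff) b26165 (.hit (nat_lit 217) (nat_lit 85) (nat_lit 0x2fd4db5fbe22bf97157ea69afd4595fb1c6bf50d97eba5afdbae5fad68bf4e5d7eb27afdb74) b26166 (.nil))) (.tok (nat_lit 56) (nat_lit 0x2fdfdd5fdc0abfea257f5512ff0265fcf42bf7fe97f54f2feab35fd86cbfa9cd7f558afedd7) (.hit (nat_lit 218) (nat_lit 86) (nat_lit 0x2fdfdd5fdc0abfea257f5512ff0265fcf42bf7fe97f54f2feab35fd86cbfa9cd7f558afe754) b26167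 (.one (nat_lit 3) (nat_lit 222) (nat_lit 90) (nat_lit 0x2fc1c85f9148bfb97d7eed4afe32d5f98bcbf2d417eed2afddba5f9fb8bf3d497e7d1afe53d) b26171 (.tok (nat_lit 6) (nat_lit 0x2fce235fa9febfe8717f5022fef885fb172bf5ead7f5002fea155fc440bf86597f0f3afedd7) (.hit (nat_lit 220) (nat_lit 88) (nat_lit 0x2fc58d5f98d2bfe4697f0b72fe6f25fa046bf3c557f0b52fe17f5fc440bf86597f0f3afe01f) b26169 (.hit (nat_lit 221) (nat_lit 89) (nat_lit 0x2fce235fa9febfe8717f5022fef885fb172bf5ead7f5002fea155fadaabf61457eb4e2fedd7) b26170 (.nil))) (.one (nat_lit 9) (nat_lit 219) (nat_lit 87) (nat_lit 0x2fccf75fa7a6bfcb4d7f46c2fee5c5faf1abf59fd7f46a2fe8e95fbb3cbf74517eeb2afe809) b26168 (.nil))))) (.one (nat_lit 59) (nat_lit 223) (nat_lit 91) (nat_lit 0x2fcb365fa294bf6bad7e5212fcaa05f9e80bf2a457e6d32fd2095fac8ebf39797e721afd237) b26172 (.one (nat_lit 62) (nat_lit 224) (nat_lit 92) (nat_lit 0x2fdbcb5fc35cbfb3e97ec4a2fdb375fbfa8bf6c8d7ef1c2fe29b5fcd9abf8cb57f195afdff5)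 b26155 (.tok (nat_lit 65) (nat_lit 0x2fdcc35ff046bfe7b17f15fafe8435fdac4bf94657f4172fe97f6000b0bfe8c5800082ff60e) (.hit (nat_lit 225) (nat_lit 93) (nat_lit 0x2fdcc35ff046bfe7b17f15fafe8435fdac4bf94657f4172fe97f6000b0bfe8c5800082ff60e) b26156 (.hit (nat_lit 226) (nat_lit 94) (nat_lit 0x2fd8825fc46abfb6957eb2aafd8005fb37abf5ee17ec842fdbb35fbe58bf6e6d7ec822fe20a) b26157 (.nil))) (.tok (nat_lit 68) (nat_lit 0x2ff39a600000bff5797fef8affd2a5ff5e0bfd7217fc6b2ff88d5fff64bffd017ffe12ff8ae) (.hit (nat_lit 227) (nat_lit 95) (nat_lit 0x2ff383600000bfe4597faf92ffc625fecfabfd7217fc6b2ff88d5feb24bfd3617f917afed73) b26158 (.one (nat_lit 3) (nat_lit 231) (nat_lit 99) (nat_lit 0x2fe7df5fdd4abfc6417f6102fed385fd4b4bf90a57f42dafe51e5fcec8bf97897f319afe35c) b26162 (.one (nat_lit 6) (nat_lit 228) (nat_lit 96) (nat_lit 0x2ff0c45ffd40bfe2257fef8affd2a5feae0bfc4197fc1aaff2e55fef00bfd6717f9d7afed4b) b26159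 (.tok (nat_lit 9) (nat_lit 0x2ff39a5fe554bff5797f6c42ff12a5ff5e0bfc0697f997aff4805fff64bffd017ffe12ff8ae) (.hit (nat_lit 229) (nat_lit 97) (nat_lit 0x2ff39a5fe554bff5797f6c42ff12a5ff5e0bfc0697f997aff4805fff64bffd017ffe12ff8ae) b26160 (.hit (nat_lit 230) (nat_lit 98) (nat_lit 0x2fd99f5fe31cbfe1a97eec2afe3095fbabcbf4c517eec0afdd965fc4b8bf87497f111afe941) b26161 (.nil))) (.nil))))) (.one (nat_lit 71) (nat_lit 232) (nat_lit 100) (nat_lit 0x2fd4bb5faf0ebf9b6d7e9f7afd4335fb18abf50597eb95afdb8e5fc10cbf677d7ecd7afde10) b26163 (.nil)))))))))))))))))) (.nil)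
noncomputable def r27_21 : Rw Blk := .tok (nat_lit 14) (nat_lit 0xbc0001780002fc73d5fb74cbf6df57efc52fd321) (.hit (nat_lit 140) (nat_lit 0) (nat_lit 0xbc0001780002fc73d5fb74cbf6df57efc52fd321) b26184 (.one (nat_lit 3) (nat_lit 141) (nat_lit 1) (nat_lit 0xbc0001780002f9d325f6c0ebed7797dcf5afad82) b26185 (.tok (nat_lit 6) (nat_lit 0xbc0001780002fbd515fac4cbf57f57ed052fcda1) (.hit (nat_lit 142) (nat_lit 7) (nat_lit 0xbc0001780002fbbb25fa90ebf51797ec35afcc02) b26186 (.hit (nat_lit 143) (nat_lit 15) (nat_lit 0xbc0001780002fbd515fac4cbf57f57ed052fcda1) b26188 (.nil))) (.tok (nat_lit 9) (nat_lit 0xbc0001780002fc1355fb414bf67857eef72fd185) (.hit (nat_lit 144) (nat_lit 20) (nat_lit 0xbc0001780002fbbb25fa90ebf51797ec35afcc02) b26186 (.hit (nat_lit 145) (nat_lit 28) (nat_lit 0xbc0001780002fc1355fb414bf67857eef72fd185) b26187 (.nil))) (.nil))))) (.tok (nat_lit 17) (nat_lit 0xbc0001780002fc7905fae36bf5bc97ed7fafce96)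 (.hit (nat_lit 134) (nat_lit 0) (nat_lit 0xbc0001780002fc7905fa118bf418d7ea382fce70) b26189 (.one (nat_lit 3) (nat_lit 135) (nat_lit 1) (nat_lit 0xbc0001780002f98255f61f4bec3457da6f2fa875) b26190 (.tok (nat_lit 6) (nat_lit 0xbc0001780002fbb465fa836bf4fc97ebffafcb96) (.hit (nat_lit 136) (nat_lit 7) (nat_lit 0xbc0001780002fb34f5f9848bf2fed7e8042fc39f) b26193 (.hit (nat_lit 137) (nat_lit 15) (nat_lit 0xbc0001780002fbb465fa836bf4fc97ebffafcb96) b26194 (.nil))) (.tok (nat_lit 9) (nat_lit 0xbc0001780002fbe465fae36bf5bc97ed7fafce96) (.hit (nat_lit 138) (nat_lit 20) (nat_lit 0xbc0001780002fb6455f9e34bf3bc57e97f2fc695) b26191 (.hit (nat_lit 139) (nat_lit 28) (nat_lit 0xbc0001780002fbe465fae36bf5bc97ed7fafce96) b26192 (.nil))) (.nil))))) (.tok (nat_lit 20) (nat_lit 0xbc0001780002fc8025fb23abf63d17ee80afd098) (.hit (nat_lit 122) (nat_lit 0) (nat_lit 0xbc0001780002fc8025fac42bf57e17ed02afcd9c)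 b26173 (.one (nat_lit 3) (nat_lit 123) (nat_lit 1) (nat_lit 0xbc0001780002fa0ab5f7300bee55d7deb22fb0fb) b26174 (.tok (nat_lit 6) (nat_lit 0xbc0001780002fbe305fae0abf5b717ed74afce80) (.hit (nat_lit 124) (nat_lit 7) (nat_lit 0xbc0001780002fb7515fa04cbf3ff57ea052fc7a1) b26177 (.hit (nat_lit 125) (nat_lit 15) (nat_lit 0xbc0001780002fbe305fae0abf5b717ed74afce80) b26178 (.nil))) (.tok (nat_lit 9) (nat_lit 0xbc0001780002fc0485fb23abf63d17ee80afd098) (.hit (nat_lit 126) (nat_lit 20) (nat_lit 0xbc0001780002fb81e5fa1e6bf43297ea6bafc86e) b26175 (.hit (nat_lit 127) (nat_lit 28) (nat_lit 0xbc0001780002fc0485fb23abf63d17ee80afd098) b26176 (.nil))) (.nil))))) (.tok (nat_lit 23) (nat_lit 0xbc0001780002fe33e5fefbcbfc3017f8bfafe127) (.hit (nat_lit 128) (nat_lit 0) (nat_lit 0xbc0001780002fe33e5fefbcbfc3017f8bfafe127) b26179 (.one (nat_lit 3) (nat_lit 129) (nat_lit 1) (nat_lit 0xbc0001780002fd5b65fc17ebf6efd7ef4b2fd18f)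 b26180 (.tok (nat_lit 6) (nat_lit 0xbc0001780002fd7105fcde0bf84e17f2a2afd8dc) (.hit (nat_lit 130) (nat_lit 7) (nat_lit 0xbc0001780002fd7105fc774bf7aa97f242afd863) b26182 (.hit (nat_lit 131) (nat_lit 15) (nat_lit 0xbc0001780002fd1615fcde0bf84e17f2a2afd8dc) b26183 (.nil))) (.tok (nat_lit 9) (nat_lit 0xbc0001780002fd3765fc380bf865d7f2d22fd93b) (.hit (nat_lit 132) (nat_lit 20) (nat_lit 0xbc0001780002fb81e5fa1e6bf43297ea6bafc86e) b26175 (.hit (nat_lit 133) (nat_lit 28) (nat_lit 0xbc0001780002fd3765fc380bf865d7f2d22fd93b) b26181 (.nil))) (.nil))))) (.tok (nat_lit 38) (nat_lit 0xbc0001780002fdbb05fed3abfc8917f9712fe3d5) (.hit (nat_lit 215) (nat_lit 0) (nat_lit 0xbc0001780002fdbb05fed3abfc8917f9712fe3d5) b26239 (.one (nat_lit 3) (nat_lit 216) (nat_lit 1) (nat_lit 0xbc0001780002fa52d5f7c04bef7657e0f32fb57d) b26240 (.tok (nat_lit 6) (nat_lit 0xbc0001780002fba4f5fa648bf4bed7eb842fca9f) (.hit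 (nat_lit 217) (nat_lit 7) (nat_lit 0xbc0001780002fba4f5fa648bf4bed7eb842fca9f) b26243 (.hit (nat_lit 218) (nat_lit 15) (nat_lit 0xbc0001780002fa9275f83f8bf074d7e2f02fb977) b26244 (.nil))) (.tok (nat_lit 9) (nat_lit 0xbc0001780002fa8c25f832ebf05b97e2bdafb912) (.hit (nat_lit 219) (nat_lit 20) (nat_lit 0xbc0001780002fa8c25f832ebf05b97e2bdafb912) b26241 (.hit (nat_lit 220) (nat_lit 28) (nat_lit 0xbc0001780002fa2975f76d8beed0d7dfa82fb2e7) b26242 (.nil))) (.nil))))) (.tok (nat_lit 41) (nat_lit 0xbc000178000300000602c60c0810180eeb300000) (.hit (nat_lit 226) (nat_lit 0) (nat_lit 0xbc0001780002fe42c5ff25ebfb0257fb752fdf7b) b26245 (.one (nat_lit 3) (nat_lit 227) (nat_lit 1) (nat_lit 0xbc0001780002fdb195fce9abf9eb97f507afd1f6) b26246 (.tok (nat_lit 6) (nat_lit 0xbc0001780002fe7c65fe0c0bfcda57fd35afe3b1) (.hit (nat_lit 228) (nat_lit 7) (nat_lit 0xbc0001780002fe7c65fe0c0bfcda57fd35afe3b1)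 b26249 (.hit (nat_lit 229) (nat_lit 15) (nat_lit 0xbc0001780002fd8f25fc950bf96d97f4cd2fd701) b26250 (.nil))) (.tok (nat_lit 9) (nat_lit 0xbc000178000300000602c60c0810180eeb300000) (.hit (nat_lit 230) (nat_lit 20) (nat_lit 0xbc000178000300000602c60c0810180eeb300000) b26247 (.hit (nat_lit 231) (nat_lit 28) (nat_lit 0xbc0001780002fdb1e5fd82ebfa01d7f4f12fdce0) b26248 (.nil))) (.nil))))) (.tok (nat_lit 44) (nat_lit 0xbc0001780002fe6915fd2c2bffe0980046afe5d7) (.hit (nat_lit 240) (nat_lit 0) (nat_lit 0xbc0001780002fe6915fd2c2bffe0980046afe5d7) b26251 (.one (nat_lit 3) (nat_lit 241) (nat_lit 1) (nat_lit 0xbc0001780002fab605f886abf10317e40cafbbb0) b26252 (.tok (nat_lit 6) (nat_lit 0xbc0001780002faf4f5f9048bf1fed7e6042fbf9f) (.hit (nat_lit 242) (nat_lit 7) (nat_lit 0xbc0001780002faf4f5f9048bf1fed7e6042fbf9f) b26255 (.hit (nat_lit 243) (nat_lit 15) (nat_lit 0xbc0001780002fa7a05f80eabf01317e22cafb7f0)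 b26256 (.nil))) (.tok (nat_lit 9) (nat_lit 0xbc0001780002fc1ce5fb546bf69e97ef43afd21e) (.hit (nat_lit 244) (nat_lit 20) (nat_lit 0xbc0001780002fbfea5fb17ebf62597ee51afd03a) b26253 (.hit (nat_lit 245) (nat_lit 28) (nat_lit 0xbc0001780002fc1ce5fb546bf69e97ef43afd21e) b26254 (.nil))) (.nil))))) (.tok (nat_lit 47) (nat_lit 0xbc0001780002ffe0c60113ac01abd8048eaff15e) (.hit (nat_lit 254) (nat_lit 0) (nat_lit 0xbc0001780002fe1da5fea04bfbb097f82d2fda8b) b26257 (.one (nat_lit 3) (nat_lit 255) (nat_lit 1) (nat_lit 0xbc0001780002fc8cb5fac3cbf695d7eba02fbefa) b26258 (.tok (nat_lit 6) (nat_lit 0xbc0001780002ffe0c60113ac01abd8048eaff15e) (.hit (nat_lit 256) (nat_lit 7) (nat_lit 0xbc0001780002ffe0c60113ac01abd8048eaff15e) b26261 (.hit (nat_lit 257) (nat_lit 15) (nat_lit 0xbc0001780002fd43c5fc44abf80617f160afd57a) b26262 (.nil))) (.tok (nat_lit 9) (nat_lit 0xbc0001780002fe6345fe096bfbf297f9bc2fdfef)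 (.hit (nat_lit 258) (nat_lit 20) (nat_lit 0xbc0001780002fe6345fe096bfbf297f9bc2fdfef) b26259 (.hit (nat_lit 259) (nat_lit 28) (nat_lit 0xbc0001780002fd28a5fc690bf8bdd7f2452fcbd7) b26260 (.nil))) (.nil))))) (.tok (nat_lit 50) (nat_lit 0xbc0001780002fc8e45fbd8cbf729d7f05a2fd44b) (.hit (nat_lit 146) (nat_lit 0) (nat_lit 0xbc0001780002fc8e45fbd8cbf70097ef63afc6dc) b26195 (.one (nat_lit 3) (nat_lit 147) (nat_lit 1) (nat_lit 0xbc0001780002f917f5f54a8bea8ad7d71c2fa1cf) b26196 (.tok (nat_lit 6) (nat_lit 0xbc0001780002fc3fb5fb9a0bf729d7f05a2fd44b) (.hit (nat_lit 148) (nat_lit 7) (nat_lit 0xbc0001780002fc3fb5fb9a0bf729d7f05a2fd44b) b26199 (.hit (nat_lit 149) (nat_lit 15) (nat_lit 0xbc0001780002f98065f61b6bec2c97da5fafa856) b26200 (.nil))) (.tok (nat_lit 9) (nat_lit 0xbc0001780002fb5695f9c7cbf38557e9112fc5b9) (.hit (nat_lit 150) (nat_lit 20) (nat_lit 0xbc0001780002fb5695f9c7cbf38557e9112fc5b9)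 b26197 (.hit (nat_lit 151) (nat_lit 28) (nat_lit 0xbc0001780002fa8b35f8310bf057d7e2b62fb903) b26198 (.nil))) (.nil))))) (.tok (nat_lit 53) (nat_lit 0xbc0001780002fef7e600c92c0285580684aff35d) (.hit (nat_lit 152) (nat_lit 0) (nat_lit 0xbc0001780002fe24e5ff384bff99d7feec2fe021) b26201 (.one (nat_lit 3) (nat_lit 153) (nat_lit 1) (nat_lit 0xbc0001780002fe9285fd476bfbd097f7fa2fe338) b26202 (.tok (nat_lit 6) (nat_lit 0xbc0001780002fec1f600c92c0285580684aff35d) (.hit (nat_lit 154) (nat_lit 7) (nat_lit 0xbc0001780002fec1f600c92c0285580684aff35d) b26205 (.hit (nat_lit 155) (nat_lit 15) (nat_lit 0xbc0001780002fe2775ff4cebffc057fd23afde1f) b26206 (.nil))) (.tok (nat_lit 9) (nat_lit 0xbc0001780002fef7e5fed9ec009597ffb32fe37c) (.hit (nat_lit 156) (nat_lit 20) (nat_lit 0xbc0001780002fc0535fb250bf63fd7ee862fd0a3) b26203 (.hit (nat_lit 157) (nat_lit 28) (nat_lit 0xbc0001780002fef7e5fed9ec009597ffb32fe37c)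 b26204 (.nil))) (.nil))))) (.tok (nat_lit 56) (nat_lit 0xbc0001780002fce9e5fc0d8bf78117f0612fd072) (.hit (nat_lit 164) (nat_lit 0) (nat_lit 0xbc0001780002fce9e5fc0d8bf78117f0612fd072) b26207 (.one (nat_lit 3) (nat_lit 165) (nat_lit 1) (nat_lit 0xbc0001780002fa0ab5f7300bee55d7deb22fb0fb) b26174 (.tok (nat_lit 6) (nat_lit 0xbc0001780002fb1be5f9526bf29a97e73bafc20e) (.hit (nat_lit 166) (nat_lit 7) (nat_lit 0xbc0001780002fb1be5f9526bf29a97e73bafc20e) b26210 (.hit (nat_lit 167) (nat_lit 15) (nat_lit 0xbc0001780002fa2195f75dcbeeb157df692fb269) b26211 (.nil))) (.tok (nat_lit 9) (nat_lit 0xbc0001780002fb9235fa3f0bf473d7eaee2fc973) (.hit (nat_lit 168) (nat_lit 20) (nat_lit 0xbc0001780002fb5da5f9d5ebf3a197e949afc62a) b26208 (.hit (nat_lit 169) (nat_lit 28) (nat_lit 0xbc0001780002fb9235fa3f0bf473d7eaee2fc973) b26209 (.nil))) (.nil))))) (.tok (nat_lit 59) (nat_lit 0xbc0001780002fd9115fcc1abfa1cd7f84fafd350)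 (.hit (nat_lit 158) (nat_lit 0) (nat_lit 0xbc0001780002fd9115fcc1abfa1cd7f84fafd350) b26212 (.one (nat_lit 3) (nat_lit 159) (nat_lit 1) (nat_lit 0xbc0001780002f95ca5f5d3ebeb9d97d941afa61a) b26213 (.tok (nat_lit 6) (nat_lit 0xbc0001780002fb6735f9e90bf3c7d7e9962fc6c3) (.hit (nat_lit 160) (nat_lit 7) (nat_lit 0xbc0001780002fb3dd5f9964bf32257e84b2fc42d) b26216 (.hit (nat_lit 161) (nat_lit 15) (nat_lit 0xbc0001780002fb6735f9e90bf3c7d7e9962fc6c3) b26217 (.nil))) (.tok (nat_lit 9) (nat_lit 0xbc0001780002fb79a5fa0debf41197ea29afc7ea) (.hit (nat_lit 162) (nat_lit 20) (nat_lit 0xbc0001780002fb79a5fa0debf41197ea29afc7ea) b26214 (.hit (nat_lit 163) (nat_lit 28) (nat_lit 0xbc0001780002fa9f05f858abf0a717e354afba40) b26215 (.nil))) (.nil))))) (.tok (nat_lit 62) (nat_lit 0xbc0001780002fc7b55fb638bf6f557eebf2fd370) (.hit (nat_lit 170) (nat_lit 0) (nat_lit 0xbc0001780002fc7b55fb638bf6f557eebf2fd370)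 b26218 (.one (nat_lit 3) (nat_lit 171) (nat_lit 1) (nat_lit 0xbc0001780002fa0ee5f7386bee6697ded3afb13e) b26219 (.tok (nat_lit 6) (nat_lit 0xbc0001780002fa8e75f8378bf064d7e2d02fb937) (.hit (nat_lit 172) (nat_lit 7) (nat_lit 0xbc0001780002fa8e75f8378bf064d7e2d02fb937) b26222 (.hit (nat_lit 173) (nat_lit 15) (nat_lit 0xbc0001780002fa5db5f7d60befa1d7e14a2fb62b) b26223 (.nil))) (.tok (nat_lit 9) (nat_lit 0xbc0001780002fbc185fa9dabf53117ec68afcc68) (.hit (nat_lit 174) (nat_lit 20) (nat_lit 0xbc0001780002fbc185fa9dabf53117ec68afcc68) b26220 (.hit (nat_lit 175) (nat_lit 28) (nat_lit 0xbc0001780002fa93a5f841ebf07997e2f9afb98a) b26221 (.nil))) (.nil))))) (.tok (nat_lit 65) (nat_lit 0xbc0001780002fd8e45fea38bfcf417fa55afee05) (.hit (nat_lit 181) (nat_lit 0) (nat_lit 0xbc0001780002fd8745fea38bfcf417f9eeafeb3f) b26224 (.one (nat_lit 3) (nat_lit 182) (nat_lit 1) (nat_lit 0xbc0001780002fd1b45fdc3cbfaf797f7462fe677)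 b26225 (.tok (nat_lit 6) (nat_lit 0xbc0001780002fd2795fddd6bfb1b97f7532fe751) (.hit (nat_lit 183) (nat_lit 7) (nat_lit 0xbc0001780002faf925f90cebf20f97e625afbfe2) b26228 (.hit (nat_lit 184) (nat_lit 15) (nat_lit 0xbc0001780002fd2795fddd6bfb1b97f7532fe751) b26229 (.nil))) (.tok (nat_lit 9) (nat_lit 0xbc0001780002fd8e45fe384bfc1057fa55afee05) (.hit (nat_lit 185) (nat_lit 20) (nat_lit 0xbc0001780002fd8e45fe384bfc1057fa55afee05) b26226 (.hit (nat_lit 186) (nat_lit 28) (nat_lit 0xbc0001780002fd00c5fe0a0bfb8417f85f2fe8a9) b26227 (.nil))) (.nil))))) (.tok (nat_lit 68) (nat_lit 0xbc0001780002fc8195fc092bf80817f216afd7c4) (.hit (nat_lit 209) (nat_lit 0) (nat_lit 0xbc0001780002fc8195fc092bf80817f216afd7c4) b26230 (.one (nat_lit 3) (nat_lit 210) (nat_lit 1) (nat_lit 0xbc0001780002fa0ab5f7300bee55d7deb22fb0fb) b26174 (.tok (nat_lit 6) (nat_lit 0xbc0001780002fbffd5fb1a4bf62a57ee5b2fd04d) (.hit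 (nat_lit 211) (nat_lit 7) (nat_lit 0xbc0001780002fb2015f95acbf2ab57e75d2fc251) b26231 (.hit (nat_lit 212) (nat_lit 15) (nat_lit 0xbc0001780002fbffd5fb1a4bf62a57ee5b2fd04d) b26232 (.nil))) (.tok (nat_lit 9) (nat_lit 0xbc0001780002fbbb25fa90ebf51797ec35afcc02) (.hit (nat_lit 213) (nat_lit 20) (nat_lit 0xbc0001780002fbbb25fa90ebf51797ec35afcc02) b26186 (.hit (nat_lit 214) (nat_lit 28) (nat_lit 0xbc0001780002fa2195f75dcbeeb157df692fb269) b26211 (.nil))) (.nil))))) (.tok (nat_lit 71) (nat_lit 0xbc0001780002fce805fc838bf8fcd7f4002fe3bc) (.hit (nat_lit 195) (nat_lit 0) (nat_lit 0xbc0001780002fce805fc838bf8fcd7f4002fe3bc) b26233 (.one (nat_lit 3) (nat_lit 196) (nat_lit 1) (nat_lit 0xbc0001780002fb2585f965abf2c117e788afc2a8) b26234 (.tok (nat_lit 6) (nat_lit 0xbc0001780002fc55f5fbc68bf782d7f10c2fd5af) (.hit (nat_lit 197) (nat_lit 7) (nat_lit 0xbc0001780002fbbc95fa93cbf51d57ec412fcc19)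 b26237 (.hit (nat_lit 198) (nat_lit 15) (nat_lit 0xbc0001780002fc55f5fbc68bf782d7f10c2fd5af) b26238 (.nil))) (.tok (nat_lit 9) (nat_lit 0xbc0001780002fbf545fb052bf60017ee06afcfa4) (.hit (nat_lit 199) (nat_lit 20) (nat_lit 0xbc0001780002fbf545fb052bf60017ee06afcfa4) b26235 (.hit (nat_lit 200) (nat_lit 28) (nat_lit 0xbc0001780002fbf195fafdcbf5f157ede92fcf69) b26236 (.nil))) (.nil))))) (.nil))))))))))))))))
noncomputable def r27_22 : Rw Blk := .tok (nat_lit 3) (nat_lit 0xbc0001780002fe22d5f9a26bee6c97e5a9afdb6e) (.hit (nat_lit 18) (nat_lit 0) (nat_lit 0xbc0001780002fe1fa5f9a26bee6c97e5a9afdb6e) b26279 (.tok (nat_lit 6) (nat_lit 0xbc0001780002fe22d5f7294be93a57dcee2fd515) (.hit (nat_lit 19) (nat_lit 7) (nat_lit 0xbc0001780002fe22d5f7294be93a57dcee2fd515) b26282 (.hit (nat_lit 20) (nat_lit 15) (nat_lit 0xbc0001780002fd2095f6c68be8e017dc3fafd004) b26283 (.nil))) (.tok (nat_lit 9) (nat_lit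 0xbc0001780002fd86e5f6d6ebeca057e34aafd31f) (.hit (nat_lit 21) (nat_lit 20) (nat_lit 0xbc0001780002fbe055f597cbe61757d6a82fb97c) b26280 (.hit (nat_lit 22) (nat_lit 28) (nat_lit 0xbc0001780002fd86e5f6d6ebeca057e34aafd31f) b26281 (.nil))) (.nil)))) (.tok (nat_lit 6) (nat_lit 0xbc00017800030257c6053f4c044fd8131930270b) (.hit (nat_lit 9) (nat_lit 0) (nat_lit 0xbc0001780002fe09a5fe15cbf26c97f5722fe95c) b26271 (.tok (nat_lit 3) (nat_lit 0xbc000178000301368601272bf7e318016cb00e0e) (.hit (nat_lit 10) (nat_lit 1) (nat_lit 0xbc0001780002fdcbe5fc2aebf35717ede42fe32c) b26272 (.one (nat_lit 67) (nat_lit 11) (nat_lit 2) (nat_lit 0xbc000178000301368601272bf7e318016cb00e0e) b26273 (.nil))) (.tok (nat_lit 6) (nat_lit 0xbc00017800030257c6053f4c044fd8131930270b) (.hit (nat_lit 12) (nat_lit 7) (nat_lit 0xbc0001780003000655fe752bfadb17ffce300ff0) b26274 (.hit (nat_lit 16) (nat_lit 15) (nat_lit 0xbc0001780002fea745fe496bf54997f67fafe9bd)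 b26277 (.tok (nat_lit 55) (nat_lit 0xbc00017800030257c6053f4c044fd8131930270b) (.hit (nat_lit 13) (nat_lit 8) (nat_lit 0xbc0001780003014776025f8c044fd8128d301c7b) b26275 (.hit (nat_lit 17) (nat_lit 16) (nat_lit 0xbc00017800030257c6053f4c001c18131930270b) b26278 (.one (nat_lit 6) (nat_lit 14) (nat_lit 9) (nat_lit 0xbc000178000300a4f603688bfcfe181069b01ad5) b26276 (.nil)))) (.nil)))) (.nil)))) (.tok (nat_lit 9) (nat_lit 0xbc0001780002feae05f9922bf07cd7ea4dafe6e8) (.hit (nat_lit 0) (nat_lit 0) (nat_lit 0xbc0001780002fdc6c5f979ebedb117e5dbafe129) b26263 (.tok (nat_lit 3) (nat_lit 0xbc0001780002fd6fd5f87d2bebe217e23dafd305) (.hit (nat_lit 1) (nat_lit 1) (nat_lit 0xbc0001780002fc1f05f6152be71217d89dafbb0f) b26264 (.one (nat_lit 55) (nat_lit 2) (nat_lit 3) (nat_lit 0xbc0001780002fd6fd5f87d2bebe217e23dafd305) b26265 (.nil))) (.tok (nat_lit 9) (nat_lit 0xbc0001780002feae05f9922bf07cd7ea4dafe6e8)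 (.hit (nat_lit 3) (nat_lit 20) (nat_lit 0xbc0001780002fc1c95f5838be63717d6572fbdd1) b26266 (.hit (nat_lit 7) (nat_lit 28) (nat_lit 0xbc0001780002fc31c5f63aabe75d17d933afb6c7) b26269 (.tok (nat_lit 67) (nat_lit 0xbc0001780002feae05f9922bf07cd7ea4dafe6e8) (.hit (nat_lit 4) (nat_lit 21) (nat_lit 0xbc0001780002fdcd55f84d8becfa17e3482fd8dd) b26267 (.hit (nat_lit 8) (nat_lit 29) (nat_lit 0xbc0001780002feae05f9922bf07cd7ea4dafe6e8) b26270 (.one (nat_lit 9) (nat_lit 5) (nat_lit 22) (nat_lit 0xbc0001780002fe1665f8eccbee1e57e590afdd6e) b26268 (.nil)))) (.nil)))) (.nil)))) (.nil)))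
noncomputable def r27_23 : Rw Blk := .tok (nat_lit 3) (nat_lit 0x1780002f0000600eecbfc8317f571300ec4) (.hit (nat_lit 0) (nat_lit 0) (nat_lit 0x1780002f00005fbd20bf0bd17e09fafdbdc) b26284 (.tok (nat_lit 9) (nat_lit 0x1780002f00005fb4c2bedb5d7d9652fdf33) (.hit (nat_lit 1) (nat_lit 20) (nat_lit 0x1780002f00005f84fcbe7bd17cd73afc750) b26285 (.hit (nat_lit 4) (nat_lit 28) (nat_lit 0x1780002f00005f8096be73057cc5a2fc51d) b26288 (.one (nat_lit 56) (nat_lit 5) (nat_lit 31) (nat_lit 0x1780002f00005fa2babeb74d7d4e32fd62f) b26289 (.tok (nat_lit 68) (nat_lit 0x1780002f00005fb4c2bedb5d7d9652fdf33) (.hit (nat_lit 2) (nat_lit 26) (nat_lit 0x1780002f00005fa9ccbec5717d6a7afd9b8) b26286 (.hit (nat_lit 6) (nat_lit 32) (nat_lit 0x1780002f00005fa354beb8817d509afd67c) b26290 (.one (nat_lit 9) (nat_lit 3) (nat_lit 27) (nat_lit 0x1780002f00005fb4c2bedb5d7d9652fdf33) b26287 (.nil)))) (.nil))))) (.tok (nat_lit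 64) (nat_lit 0x1780002f00005fb466bedaa57d94e2fdf05) (.hit (nat_lit 7) (nat_lit 50) (nat_lit 0x1780002f00005fa30ebeb7f57d4f82fd659) b26291 (.hit (nat_lit 8) (nat_lit 51) (nat_lit 0x1780002f00005fb466bedaa57d94e2fdf05) b26292 (.nil))) (.tok (nat_lit 67) (nat_lit 0x1780002f0000600eecbfc8317f571300ec4) (.hit (nat_lit 9) (nat_lit 52) (nat_lit 0x1780002f0000600eecbfc8317f571300ec4) b26293 (.one (nat_lit 3) (nat_lit 15) (nat_lit 58) (nat_lit 0x1780002f00005fa308beb7e97d4f6afd656) b26299 (.tok (nat_lit 9) (nat_lit 0x1780002f00005fcd70bf0cb97df90afeb8a) (.hit (nat_lit 10) (nat_lit 53) (nat_lit 0x1780002f00005fae74becec17d7d1afdc0c) b26294 (.hit (nat_lit 13) (nat_lit 56) (nat_lit 0x1780002f00005f9e20beae197d3bcafd3e2) b26297 (.tok (nat_lit 67) (nat_lit 0x1780002f00005fcd70bf0cb97df90afeb8a) (.hit (nat_lit 11) (nat_lit 54) (nat_lit 0x1780002f00005fcd70bf0cb97df90afeb8a) b26295 (.hit (nat_lit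 14) (nat_lit 57) (nat_lit 0x1780002f00005fb980bee4d97da94afe192) b26298 (.one (nat_lit 9) (nat_lit 12) (nat_lit 55) (nat_lit 0x1780002f00005fabeabec9ad7d72f2fdac7) b26296 (.nil)))) (.nil)))) (.nil)))) (.one (nat_lit 70) (nat_lit 16) (nat_lit 60) (nat_lit 0x1780002f00005fa18ebeb4f57d4982fd599) b26300 (.nil)))))) (.tok (nat_lit 6) (nat_lit 0x1780002f000060458ac0486d80850302bb3) (.hit (nat_lit 17) (nat_lit 0) (nat_lit 0x1780002f00005ffeb8bfa2117f474b00a6c) b26301 (.tok (nat_lit 6) (nat_lit 0x1780002f00005ff60ebf92217f13f30007d) (.hit (nat_lit 18) (nat_lit 7) (nat_lit 0x1780002f00005ff0a4bf66997f021b0007d) b26302 (.hit (nat_lit 21) (nat_lit 15) (nat_lit 0x1780002f00005faa9ebf01c57e227afd6f1) b26303 (.one (nat_lit 68) (nat_lit 22) (nat_lit 18) (nat_lit 0x1780002f00005ff60ebf92217f13f2ffed7) b26304 (.nil)))) (.tok (nat_lit 52) (nat_lit 0x1780002f0000603d1cbfe2117fad7300f1e) (.hit (nat_lit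 24) (nat_lit 39) (nat_lit 0x1780002f000060055cbfe2117fad730094a) b26305 (.hit (nat_lit 25) (nat_lit 40) (nat_lit 0x1780002f0000603d1cbfcf2d7f8b4300f1e) b26306 (.nil))) (.tok (nat_lit 55) (nat_lit 0x1780002f000060458ac0486d80850302bb3) (.hit (nat_lit 26) (nat_lit 41) (nat_lit 0x1780002f000060458ac0486d80850302bb3) b26307 (.one (nat_lit 3) (nat_lit 32) (nat_lit 47) (nat_lit 0x1780002f000060199ebfdb417fe0db016cd) b26310 (.tok (nat_lit 6) (nat_lit 0x1780002f0000601e9ebff91180082b01a5e) (.hit (nat_lit 27) (nat_lit 42) (nat_lit 0x1780002f00005fe74cbfcdad7fb34b008fd) b26308 (.hit (nat_lit 30) (nat_lit 45) (nat_lit 0x1780002f0000601e9ebff91180082b01a5e) b26309 (.nil))) (.nil)))) (.one (nat_lit 58) (nat_lit 33) (nat_lit 49) (nat_lit 0x1780002f0000601e3cbfbcb57f851b0143d) b26311 (.nil)))))) (.nil))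
noncomputable def r27_24 : Rw Blk := .tok (nat_lit 3) (nat_lit 0xbc0001780002fd1ff5fbd14bf67157eda92fdd74) (.hit (nat_lit 14) (nat_lit 0) (nat_lit 0xbc0001780002fcf515fbd14bf67157eda92fdd74) b26325 (.tok (nat_lit 6) (nat_lit 0xbc0001780002fbf5c5f64b4becc897d9b82fc621) (.hit (nat_lit 15) (nat_lit 7) (nat_lit 0xbc0001780002faa1c5f5548beadb17d5dd2fafd5) b26328 (.hit (nat_lit 16) (nat_lit 15) (nat_lit 0xbc0001780002fbf5c5f64b4becc897d9b82fc621) b26329 (.nil))) (.tok (nat_lit 9) (nat_lit 0xbc0001780002fd1ff5f91d2bf26c57e4ffafdcc0) (.hit (nat_lit 17) (nat_lit 20) (nat_lit 0xbc0001780002fd1ff5f91d2bf26c57e4ffafdcc0) b26326 (.hit (nat_lit 18) (nat_lit 28) (nat_lit 0xbc0001780002fc18a5f870cbf11397e24e2fd878) b26327 (.nil))) (.nil)))) (.tok (nat_lit 6) (nat_lit 0xbc0001780002fe1d05fb2a4bf62017ec672fe789) (.hit (nat_lit 0) (nat_lit 0) (nat_lit 0xbc0001780002fd7695fb2a4bf4e7d7eb2a2fe090)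 b26312 (.tok (nat_lit 3) (nat_lit 0xbc0001780002fd7e55fa226bf476d7e914afdd9e) (.hit (nat_lit 1) (nat_lit 1) (nat_lit 0xbc0001780002fb59a5f71d2bee6c57dcffafba60) b26313 (.one (nat_lit 67) (nat_lit 2) (nat_lit 2) (nat_lit 0xbc0001780002fd7e55fa226bf476d7e914afdd9e) b26314 (.nil))) (.tok (nat_lit 6) (nat_lit 0xbc0001780002fe1d05faf70bf62017ec672fe789) (.hit (nat_lit 3) (nat_lit 7) (nat_lit 0xbc0001780002fc5565f6170bec6017d8e72fcb0f) b26315 (.hit (nat_lit 7) (nat_lit 15) (nat_lit 0xbc0001780002fc18d5f7adebef8dd7df42afc746) b26318 (.tok (nat_lit 55) (nat_lit 0xbc0001780002fe1d05faf70bf62017ec672fe789) (.hit (nat_lit 4) (nat_lit 8) (nat_lit 0xbc0001780002fd5005f8652bf0fc57e21fafdab9) b26316 (.hit (nat_lit 8) (nat_lit 16) (nat_lit 0xbc0001780002fe1d05faf70bf62017ec672fe789) b26319 (.one (nat_lit 6) (nat_lit 5) (nat_lit 9) (nat_lit 0xbc0001780002fd5675f8dd0bf1ec17e3ff2fdb20) b26317 (.nil))))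 (.nil)))) (.nil)))) (.tok (nat_lit 9) (nat_lit 0xbc0001780003000be601e5ac038798071cb00000) (.hit (nat_lit 9) (nat_lit 0) (nat_lit 0xbc0001780002fe0345fe6d4bfd0197fa97aff0ed) b26320 (.tok (nat_lit 3) (nat_lit 0xbc0001780003000be601e5ac038798071cb00000) (.hit (nat_lit 10) (nat_lit 1) (nat_lit 0xbc0001780002fdb235fc3f6bf7ee17efa12fe1d8) b26321 (.one (nat_lit 55) (nat_lit 11) (nat_lit 3) (nat_lit 0xbc0001780003000be601e5ac038798071cb00000) b26322 (.nil))) (.tok (nat_lit 9) (nat_lit 0xbc0001780002fd2335fd4cebfa4a97f2d72fe0b8) (.hit (nat_lit 12) (nat_lit 20) (nat_lit 0xbc0001780002fd1135fd4cebfa4a97f2d72fe0b8) b26323 (.hit (nat_lit 13) (nat_lit 28) (nat_lit 0xbc0001780002fd2335fcbf6bf9b2d7f24f2fda72) b26324 (.nil))) (.nil)))) (.nil)))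
noncomputable def r27_25 : Rw Blk := .tok (nat_lit 3) (nat_lit 0x5e0000bc00017fa88b00295) (.hit (nat_lit 0) (nat_lit 0) (nat_lit 0x5e0000bc00017ee282fe848) b26330 (.tok (nat_lit 6) (nat_lit 0x5e0000bc00017f32c2feb65) (.hit (nat_lit 1) (nat_lit 7) (nat_lit 0x5e0000bc00017e5b3afd074) b26331 (.hit (nat_lit 6) (nat_lit 15) (nat_lit 0x5e0000bc00017de772fc1fb) b26336 (.tok (nat_lit 14) (nat_lit 0x5e0000bc00017ec59afddc0) (.hit (nat_lit 2) (nat_lit 11) (nat_lit 0x5e0000bc00017e9402fd78d) b26332 (.hit (nat_lit 7) (nat_lit 17) (nat_lit 0x5e0000bc00017e9beafd88a) b26337 (.one (nat_lit 9) (nat_lit 3) (nat_lit 12) (nat_lit 0x5e0000bc00017ec59afddc0) b26333 (.nil)))) (.tok (nat_lit 56) (nat_lit 0x5e0000bc00017f32c2feb65) (.hit (nat_lit 4) (nat_lit 13) (nat_lit 0x5e0000bc00017ef362fe379) b26334 (.hit (nat_lit 8) (nat_lit 19) (nat_lit 0x5e0000bc00017e7faafd502) b26338 (.one (nat_lit 6) (nat_lit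 5) (nat_lit 14) (nat_lit 0x5e0000bc00017f32c2feb65) b26335 (.nil)))) (.nil))))) (.tok (nat_lit 52) (nat_lit 0x5e0000bc00017ecb82fde7d) (.hit (nat_lit 9) (nat_lit 39) (nat_lit 0x5e0000bc00017ec7eafde0a) b26339 (.hit (nat_lit 10) (nat_lit 40) (nat_lit 0x5e0000bc00017ecb82fde7d) b26340 (.nil))) (.tok (nat_lit 55) (nat_lit 0x5e0000bc00017fa88b00295) (.hit (nat_lit 11) (nat_lit 41) (nat_lit 0x5e0000bc00017fa88b00295) b26341 (.tok (nat_lit 3) (nat_lit 0x5e0000bc00017f683aff214) (.hit (nat_lit 17) (nat_lit 47) (nat_lit 0x5e0000bc00017ef202fe34d) b26347 (.one (nat_lit 67) (nat_lit 18) (nat_lit 48) (nat_lit 0x5e0000bc00017f683aff214) b26348 (.nil))) (.tok (nat_lit 6) (nat_lit 0x5e0000bc00017f45d2fedc7) (.hit (nat_lit 12) (nat_lit 42) (nat_lit 0x5e0000bc00017efa7afe45c) b26342 (.hit (nat_lit 15) (nat_lit 45) (nat_lit 0x5e0000bc00017ed422fdf91) b26345 (.tok (nat_lit 55) (nat_lit 0x5e0000bc00017f45d2fedc7)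 (.hit (nat_lit 13) (nat_lit 43) (nat_lit 0x5e0000bc00017f45d2fedc7) b26343 (.hit (nat_lit 16) (nat_lit 46) (nat_lit 0x5e0000bc00017f32e2feb69) b26346 (.one (nat_lit 6) (nat_lit 14) (nat_lit 44) (nat_lit 0x5e0000bc00017f318afeb3e) b26344 (.nil)))) (.nil)))) (.nil)))) (.one (nat_lit 58) (nat_lit 19) (nat_lit 49) (nat_lit 0x5e0000bc00017ec532fddb3) b26349 (.nil)))))) (.tok (nat_lit 9) (nat_lit 0x5e0000bc00018143230363f) (.hit (nat_lit 20) (nat_lit 0) (nat_lit 0x5e0000bc00017ee3b2fed9b) b26350 (.tok (nat_lit 9) (nat_lit 0x5e0000bc00018143230363f) (.hit (nat_lit 21) (nat_lit 20) (nat_lit 0x5e0000bc00017ee3eafeebd) b26351 (.hit (nat_lit 26) (nat_lit 28) (nat_lit 0x5e0000bc00017df42afd64b) b26354 (.tok (nat_lit 14) (nat_lit 0x5e0000bc00018143230363f) (.hit (nat_lit 22) (nat_lit 24) (nat_lit 0x5e0000bc00018143230363f) b26352 (.hit (nat_lit 27) (nat_lit 30) (nat_lit 0x5e0000bc00017ef03aff658)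 b26355 (.one (nat_lit 6) (nat_lit 23) (nat_lit 25) (nat_lit 0x5e0000bc000181130303478) b26353 (.nil)))) (.one (nat_lit 56) (nat_lit 28) (nat_lit 31) (nat_lit 0x5e0000bc00017ee0f2ff4b4) b26356 (.nil))))) (.nil))) (.nil))
noncomputable def r27_26 : Rw Blk := .tok (nat_lit 14) (nat_lit 0x5e0000bc00017eb842fe94b) (.hit (nat_lit 140) (nat_lit 0) (nat_lit 0x5e0000bc00017e613afd8ce) b26369 (.one (nat_lit 3) (nat_lit 141) (nat_lit 1) (nat_lit 0x5e0000bc00017cf0a2fb057) b26370 (.tok (nat_lit 6) (nat_lit 0x5e0000bc00017e4f92fdc35) (.hit (nat_lit 142) (nat_lit 7) (nat_lit 0x5e0000bc00017e143afd4ca) b26373 (.hit (nat_lit 143) (nat_lit 15) (nat_lit 0x5e0000bc00017e4f92fdc35) b26374 (.nil))) (.tok (nat_lit 9) (nat_lit 0x5e0000bc00017eb842fe94b) (.hit (nat_lit 144) (nat_lit 20) (nat_lit 0x5e0000bc00017e623afde8a) b26371 (.hit (nat_lit 145) (nat_lit 28) (nat_lit 0x5e0000bc00017eb842fe94b) b26372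 (.nil))) (.nil))))) (.tok (nat_lit 17) (nat_lit 0x5e0000bc00017ee4bafeeaf) (.hit (nat_lit 134) (nat_lit 0) (nat_lit 0x5e0000bc00017ee4bafe5d4) b26375 (.one (nat_lit 3) (nat_lit 135) (nat_lit 1) (nat_lit 0x5e0000bc00017d6bfafbfc2) b26376 (.tok (nat_lit 6) (nat_lit 0x5e0000bc00017ee362feeaf) (.hit (nat_lit 136) (nat_lit 7) (nat_lit 0x5e0000bc00017df34afd0ac) b26379 (.hit (nat_lit 137) (nat_lit 15) (nat_lit 0x5e0000bc00017ee362feeaf) b26380 (.nil))) (.tok (nat_lit 9) (nat_lit 0x5e0000bc00017e8bbafe3ba) (.hit (nat_lit 138) (nat_lit 20) (nat_lit 0x5e0000bc00017e72dafe09e) b26377 (.hit (nat_lit 139) (nat_lit 28) (nat_lit 0x5e0000bc00017e8bbafe3ba) b26378 (.nil))) (.nil))))) (.tok (nat_lit 20) (nat_lit 0x5e0000bc00017f425aff721) (.hit (nat_lit 122) (nat_lit 0) (nat_lit 0x5e0000bc00017f1702ff721) b26357 (.one (nat_lit 3) (nat_lit 123) (nat_lit 1) (nat_lit 0x5e0000bc00017e979afe9d0) b26358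 (.tok (nat_lit 6) (nat_lit 0x5e0000bc00017f425aff542) (.hit (nat_lit 124) (nat_lit 7) (nat_lit 0x5e0000bc00017e3f22fda27) b26361 (.hit (nat_lit 125) (nat_lit 15) (nat_lit 0x5e0000bc00017f425aff542) b26362 (.nil))) (.tok (nat_lit 9) (nat_lit 0x5e0000bc00017f2b3aff30f) (.hit (nat_lit 126) (nat_lit 20) (nat_lit 0x5e0000bc00017f1e12ff0ff) b26359 (.hit (nat_lit 127) (nat_lit 28) (nat_lit 0x5e0000bc00017f2b3aff30f) b26360 (.nil))) (.nil))))) (.tok (nat_lit 23) (nat_lit 0x5e0000bc00017f30a2ff687) (.hit (nat_lit 128) (nat_lit 0) (nat_lit 0x5e0000bc00017f12e2ff58a) b26363 (.one (nat_lit 3) (nat_lit 129) (nat_lit 1) (nat_lit 0x5e0000bc00017ed7b2fee35) b26364 (.tok (nat_lit 6) (nat_lit 0x5e0000bc00017efffaff687) (.hit (nat_lit 130) (nat_lit 7) (nat_lit 0x5e0000bc00017ef7baff39d) b26367 (.hit (nat_lit 131) (nat_lit 15) (nat_lit 0x5e0000bc00017efffaff687) b26368 (.nil))) (.tok (nat_lit 9)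 (nat_lit 0x5e0000bc00017f30a2fef68) (.hit (nat_lit 132) (nat_lit 20) (nat_lit 0x5e0000bc00017e6422fdec7) b26365 (.hit (nat_lit 133) (nat_lit 28) (nat_lit 0x5e0000bc00017f30a2fef68) b26366 (.nil))) (.nil))))) (.tok (nat_lit 38) (nat_lit 0x5e0000bc00017f697aff705) (.hit (nat_lit 215) (nat_lit 0) (nat_lit 0x5e0000bc00017f697aff705) b26424 (.one (nat_lit 3) (nat_lit 216) (nat_lit 1) (nat_lit 0x5e0000bc00017d8b72fc3b1) b26425 (.tok (nat_lit 6) (nat_lit 0x5e0000bc00017e6452fdecd) (.hit (nat_lit 217) (nat_lit 7) (nat_lit 0x5e0000bc00017e6452fdecd) b26395 (.hit (nat_lit 218) (nat_lit 15) (nat_lit 0x5e0000bc00017dce5afcc0e) b26428 (.nil))) (.tok (nat_lit 9) (nat_lit 0x5e0000bc00017de93afcf6a) (.hit (nat_lit 219) (nat_lit 20) (nat_lit 0x5e0000bc00017de93afcf6a) b26426 (.hit (nat_lit 220) (nat_lit 28) (nat_lit 0x5e0000bc00017dce7afcc12) b26427 (.nil))) (.nil))))) (.tok (nat_lit 41) (nat_lit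 0x5e0000bc00017f6682ffa0d) (.hit (nat_lit 226) (nat_lit 0) (nat_lit 0x5e0000bc00017f3302fed9a) b26429 (.one (nat_lit 3) (nat_lit 227) (nat_lit 1) (nat_lit 0x5e0000bc00017ed5aafe2ba) b26430 (.tok (nat_lit 6) (nat_lit 0x5e0000bc00017f6682ffa0d) (.hit (nat_lit 228) (nat_lit 7) (nat_lit 0x5e0000bc00017f6682ffa0d) b26433 (.hit (nat_lit 229) (nat_lit 15) (nat_lit 0x5e0000bc00017f361afeec9) b26434 (.nil))) (.tok (nat_lit 9) (nat_lit 0x5e0000bc00017f54c2ff402) (.hit (nat_lit 230) (nat_lit 20) (nat_lit 0x5e0000bc00017f54c2ff402) b26431 (.hit (nat_lit 231) (nat_lit 28) (nat_lit 0x5e0000bc00017f2832feeca) b26432 (.nil))) (.nil))))) (.tok (nat_lit 44) (nat_lit 0x5e0000bc000180000300cf3) (.hit (nat_lit 240) (nat_lit 0) (nat_lit 0x5e0000bc00017fd7e3009bd) b26435 (.one (nat_lit 3) (nat_lit 241) (nat_lit 1) (nat_lit 0x5e0000bc00017ebf52fdfef) b26436 (.tok (nat_lit 6) (nat_lit 0x5e0000bc00017f9262ffc48)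 (.hit (nat_lit 242) (nat_lit 7) (nat_lit 0x5e0000bc00017f9262ffc48) b26439 (.hit (nat_lit 243) (nat_lit 15) (nat_lit 0x5e0000bc00017ee182fe454) b26440 (.nil))) (.tok (nat_lit 9) (nat_lit 0x5e0000bc000180000300cf3) (.hit (nat_lit 244) (nat_lit 20) (nat_lit 0x5e0000bc000180000300cf3) b26437 (.hit (nat_lit 245) (nat_lit 28) (nat_lit 0x5e0000bc00017f0d82fea8b) b26438 (.nil))) (.nil))))) (.tok (nat_lit 47) (nat_lit 0x5e0000bc00017fc34affe9c) (.hit (nat_lit 254) (nat_lit 0) (nat_lit 0x5e0000bc00017fc34aff809) b26441 (.one (nat_lit 3) (nat_lit 255) (nat_lit 1) (nat_lit 0x5e0000bc00017e6a3afd552) b26442 (.tok (nat_lit 6) (nat_lit 0x5e0000bc00017f68b2ffe9c) (.hit (nat_lit 256) (nat_lit 7) (nat_lit 0x5e0000bc00017f68b2ffe9c) b26445 (.hit (nat_lit 257) (nat_lit 15) (nat_lit 0x5e0000bc00017f0f42fec39) b26446 (.nil))) (.tok (nat_lit 9) (nat_lit 0x5e0000bc00017f7feaff993) (.hit (nat_lit 258)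 (nat_lit 20) (nat_lit 0x5e0000bc00017f7feaff993) b26443 (.hit (nat_lit 259) (nat_lit 28) (nat_lit 0x5e0000bc00017ef8eafe781) b26444 (.nil))) (.nil))))) (.tok (nat_lit 50) (nat_lit 0x5e0000bc00017ec322fd9cf) (.hit (nat_lit 146) (nat_lit 0) (nat_lit 0x5e0000bc00017ec322fd573) b26381 (.one (nat_lit 3) (nat_lit 147) (nat_lit 1) (nat_lit 0x5e0000bc00017d8ca2fc3d7) b26382 (.tok (nat_lit 6) (nat_lit 0x5e0000bc00017e3c62fd9cf) (.hit (nat_lit 148) (nat_lit 7) (nat_lit 0x5e0000bc00017e3c62fd9cf) b26385 (.hit (nat_lit 149) (nat_lit 15) (nat_lit 0x5e0000bc00017dccfafcbe2) b26386 (.nil))) (.tok (nat_lit 9) (nat_lit 0x5e0000bc00017ddb4afcdac) (.hit (nat_lit 150) (nat_lit 20) (nat_lit 0x5e0000bc00017ddb4afcdac) b26383 (.hit (nat_lit 151) (nat_lit 28) (nat_lit 0x5e0000bc00017dbb6afc9b0) b26384 (.nil))) (.nil))))) (.tok (nat_lit 53) (nat_lit 0x5e0000bc00017f1f6afed93) (.hit (nat_lit 152) (nat_lit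 0) (nat_lit 0x5e0000bc00017efd5afe15c) b26387 (.one (nat_lit 3) (nat_lit 153) (nat_lit 1) (nat_lit 0x5e0000bc00017ececafd844) b26388 (.tok (nat_lit 6) (nat_lit 0x5e0000bc00017f1f6afed93) (.hit (nat_lit 154) (nat_lit 7) (nat_lit 0x5e0000bc00017f1f6afe737) b26391 (.hit (nat_lit 155) (nat_lit 15) (nat_lit 0x5e0000bc00017f133afed93) b26392 (.nil))) (.tok (nat_lit 9) (nat_lit 0x5e0000bc00017f0192fe5c4) (.hit (nat_lit 156) (nat_lit 20) (nat_lit 0x5e0000bc00017e9c0afe5c4) b26389 (.hit (nat_lit 157) (nat_lit 28) (nat_lit 0x5e0000bc00017f0192fddd2) b26390 (.nil))) (.nil))))) (.tok (nat_lit 56) (nat_lit 0x5e0000bc00017eab52fe7ad) (.hit (nat_lit 164) (nat_lit 0) (nat_lit 0x5e0000bc00017e955afdf8d) b26393 (.one (nat_lit 3) (nat_lit 165) (nat_lit 1) (nat_lit 0x5e0000bc00017d8a02fc383) b26394 (.tok (nat_lit 6) (nat_lit 0x5e0000bc00017e46aafdb18) (.hit (nat_lit 166) (nat_lit 7) (nat_lit 0x5e0000bc00017e46aafdb18)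 b26397 (.hit (nat_lit 167) (nat_lit 15) (nat_lit 0x5e0000bc00017d9572fc4f1) b26398 (.nil))) (.tok (nat_lit 9) (nat_lit 0x5e0000bc00017eab52fe7ad) (.hit (nat_lit 168) (nat_lit 20) (nat_lit 0x5e0000bc00017e6452fdecd) b26395 (.hit (nat_lit 169) (nat_lit 28) (nat_lit 0x5e0000bc00017eab52fe7ad) b26396 (.nil))) (.nil))))) (.tok (nat_lit 59) (nat_lit 0x5e0000bc00017eef9afdcce) (.hit (nat_lit 158) (nat_lit 0) (nat_lit 0x5e0000bc00017eef9afdcc2) b26399 (.one (nat_lit 3) (nat_lit 159) (nat_lit 1) (nat_lit 0x5e0000bc00017d8a02fc383) b26394 (.tok (nat_lit 6) (nat_lit 0x5e0000bc00017e545afdcce) (.hit (nat_lit 160) (nat_lit 7) (nat_lit 0x5e0000bc00017e2ebafd81a) b26402 (.hit (nat_lit 161) (nat_lit 15) (nat_lit 0x5e0000bc00017e545afdcce) b26403 (.nil))) (.tok (nat_lit 9) (nat_lit 0x5e0000bc00017e3892fd955) (.hit (nat_lit 162) (nat_lit 20) (nat_lit 0x5e0000bc00017e3892fd955) b26400 (.hit (nat_lit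 163) (nat_lit 28) (nat_lit 0x5e0000bc00017dd70afcd24) b26401 (.nil))) (.nil))))) (.tok (nat_lit 62) (nat_lit 0x5e0000bc00017f190aff564) (.hit (nat_lit 170) (nat_lit 0) (nat_lit 0x5e0000bc00017e9a22fe687) b26404 (.one (nat_lit 3) (nat_lit 171) (nat_lit 1) (nat_lit 0x5e0000bc00017db29afc896) b26405 (.tok (nat_lit 6) (nat_lit 0x5e0000bc00017e07a2fd337) (.hit (nat_lit 172) (nat_lit 7) (nat_lit 0x5e0000bc00017e07a2fd337) b26408 (.hit (nat_lit 173) (nat_lit 15) (nat_lit 0x5e0000bc00017dd6dafcd1e) b26409 (.nil))) (.tok (nat_lit 9) (nat_lit 0x5e0000bc00017f190aff564) (.hit (nat_lit 174) (nat_lit 20) (nat_lit 0x5e0000bc00017f190aff564) b26406 (.hit (nat_lit 175) (nat_lit 28) (nat_lit 0x5e0000bc00017de31afcea6) b26407 (.nil))) (.nil))))) (.tok (nat_lit 65) (nat_lit 0x5e0000bc00017f45bafff2e) (.hit (nat_lit 181) (nat_lit 0) (nat_lit 0x5e0000bc00017f1d3aff795) b26410 (.one (nat_lit 3) (nat_lit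 182) (nat_lit 1) (nat_lit 0x5e0000bc00017ed56afee1c) b26411 (.tok (nat_lit 6) (nat_lit 0x5e0000bc00017f45baffc84) (.hit (nat_lit 183) (nat_lit 7) (nat_lit 0x5e0000bc00017e908afe454) b26414 (.hit (nat_lit 184) (nat_lit 15) (nat_lit 0x5e0000bc00017f45baffc84) b26415 (.nil))) (.tok (nat_lit 9) (nat_lit 0x5e0000bc00017f10eafff2e) (.hit (nat_lit 185) (nat_lit 20) (nat_lit 0x5e0000bc00017f10eafff2e) b26412 (.hit (nat_lit 186) (nat_lit 28) (nat_lit 0x5e0000bc00017ee92aff225) b26413 (.nil))) (.nil))))) (.tok (nat_lit 68) (nat_lit 0x5e0000bc00017ecc62febcf) (.hit (nat_lit 209) (nat_lit 0) (nat_lit 0x5e0000bc00017ecc62febcf) b26416 (.one (nat_lit 3) (nat_lit 210) (nat_lit 1) (nat_lit 0x5e0000bc00017d8a02fc383) b26394 (.tok (nat_lit 6) (nat_lit 0x5e0000bc00017ec21afea86) (.hit (nat_lit 211) (nat_lit 7) (nat_lit 0x5e0000bc00017e6452fdecd) b26395 (.hit (nat_lit 212) (nat_lit 15) (nat_lit 0x5e0000bc00017ec21afea86)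 b26417 (.nil))) (.tok (nat_lit 9) (nat_lit 0x5e0000bc00017e623afde8a) (.hit (nat_lit 213) (nat_lit 20) (nat_lit 0x5e0000bc00017e623afde8a) b26371 (.hit (nat_lit 214) (nat_lit 28) (nat_lit 0x5e0000bc00017d9572fc4f1) b26398 (.nil))) (.nil))))) (.tok (nat_lit 71) (nat_lit 0x5e0000bc00017f50b2ffc59) (.hit (nat_lit 195) (nat_lit 0) (nat_lit 0x5e0000bc00017ee662febb5) b26418 (.one (nat_lit 3) (nat_lit 196) (nat_lit 1) (nat_lit 0x5e0000bc00017deccafcfdc) b26419 (.tok (nat_lit 6) (nat_lit 0x5e0000bc00017f50b2ffc59) (.hit (nat_lit 197) (nat_lit 7) (nat_lit 0x5e0000bc00017f50b2ffc59) b26422 (.hit (nat_lit 198) (nat_lit 15) (nat_lit 0x5e0000bc00017d6d5afbfee) b26423 (.nil))) (.tok (nat_lit 9) (nat_lit 0x5e0000bc00017ecc4afebcc) (.hit (nat_lit 199) (nat_lit 20) (nat_lit 0x5e0000bc00017ea30afe6a4) b26420 (.hit (nat_lit 200) (nat_lit 28) (nat_lit 0x5e0000bc00017ecc4afebcc) b26421 (.nil))) (.nil)))))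 (.nil))))))))))))))))
noncomputable def r27_27 : Rw Blk := .tok (nat_lit 3) (nat_lit 0x5e0000bc00017f228afdc07) (.hit (nat_lit 18) (nat_lit 0) (nat_lit 0x5e0000bc00017f228afdc07) b26463 (.tok (nat_lit 6) (nat_lit 0x5e0000bc00017ec4a2fd604) (.hit (nat_lit 19) (nat_lit 7) (nat_lit 0x5e0000bc00017ea1eafd1ad) b26466 (.hit (nat_lit 20) (nat_lit 15) (nat_lit 0x5e0000bc00017ec4a2fd604) b26467 (.nil))) (.tok (nat_lit 9) (nat_lit 0x5e0000bc00017e9edafd14b) (.hit (nat_lit 21) (nat_lit 20) (nat_lit 0x5e0000bc00017e9edafd14b) b26464 (.hit (nat_lit 22) (nat_lit 28) (nat_lit 0x5e0000bc00017e959afd023) b26465 (.nil))) (.nil)))) (.tok (nat_lit 6) (nat_lit 0x5e0000bc00017fe662ff48d) (.hit (nat_lit 9) (nat_lit 0) (nat_lit 0x5e0000bc00017f2322fe07a) b26455 (.tok (nat_lit 3) (nat_lit 0x5e0000bc00017f7fe2fe887) (.hit (nat_lit 10) (nat_lit 1) (nat_lit 0x5e0000bc00017ef76afd618) b26456 (.one (nat_lit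 67) (nat_lit 11) (nat_lit 2) (nat_lit 0x5e0000bc00017f7fe2fe887) b26457 (.nil))) (.tok (nat_lit 6) (nat_lit 0x5e0000bc00017fe662ff48d) (.hit (nat_lit 12) (nat_lit 7) (nat_lit 0x5e0000bc00017ec3a2fd7a6) b26458 (.hit (nat_lit 16) (nat_lit 15) (nat_lit 0x5e0000bc00017ef852fda25) b26461 (.tok (nat_lit 55) (nat_lit 0x5e0000bc00017fe662ff48d) (.hit (nat_lit 13) (nat_lit 8) (nat_lit 0x5e0000bc00017fe662ff48d) b26459 (.hit (nat_lit 17) (nat_lit 16) (nat_lit 0x5e0000bc00017fd0baff1a5) b26462 (.one (nat_lit 6) (nat_lit 14) (nat_lit 9) (nat_lit 0x5e0000bc00017fa5faff2b1) b26460 (.nil)))) (.nil)))) (.nil)))) (.tok (nat_lit 9) (nat_lit 0x5e0000bc000180000300000) (.hit (nat_lit 0) (nat_lit 0) (nat_lit 0x5e0000bc00017f763afee95) b26447 (.tok (nat_lit 3) (nat_lit 0x5e0000bc00017fa432ff485) (.hit (nat_lit 1) (nat_lit 1) (nat_lit 0x5e0000bc00017ebd32fda35) b26448 (.one (nat_lit 55) (nat_lit 2)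 (nat_lit 3) (nat_lit 0x5e0000bc00017fa432ff485) b26449 (.nil))) (.tok (nat_lit 9) (nat_lit 0x5e0000bc000180000300000) (.hit (nat_lit 3) (nat_lit 20) (nat_lit 0x5e0000bc00017f89d2fe01d) b26450 (.hit (nat_lit 7) (nat_lit 28) (nat_lit 0x5e0000bc00017efe9afdfd6) b26453 (.tok (nat_lit 67) (nat_lit 0x5e0000bc000180000300000) (.hit (nat_lit 4) (nat_lit 21) (nat_lit 0x5e0000bc0001800002ffbb4) b26451 (.hit (nat_lit 8) (nat_lit 29) (nat_lit 0x5e0000bc00017fab32ffa75) b26454 (.one (nat_lit 9) (nat_lit 5) (nat_lit 22) (nat_lit 0x5e0000bc00017ff0eb00000) b26452 (.nil)))) (.nil)))) (.nil)))) (.nil)))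
noncomputable def r27_28 : Rw Blk := .tok (nat_lit 3) (nat_lit 0x5e0000bc00017e9ba2fe043) (.hit (nat_lit 14) (nat_lit 0) (nat_lit 0x5e0000bc00017e9ba2fe043) b26481 (.tok (nat_lit 6) (nat_lit 0x5e0000bc00017e269afcfa1) (.hit (nat_lit 15) (nat_lit 7) (nat_lit 0x5e0000bc00017e269afcfa1) b26484 (.hit (nat_lit 16) (nat_lit 15) (nat_lit 0x5e0000bc00017e0b32fcc34) b26485 (.nil))) (.tok (nat_lit 9) (nat_lit 0x5e0000bc00017dd4e2fc56a) (.hit (nat_lit 17) (nat_lit 20) (nat_lit 0x5e0000bc00017da96afbffb) b26482 (.hit (nat_lit 18) (nat_lit 28) (nat_lit 0x5e0000bc00017dd4e2fc56a) b26483 (.nil))) (.nil)))) (.tok (nat_lit 6) (nat_lit 0x5e0000bc0001800003008fe) (.hit (nat_lit 9) (nat_lit 0) (nat_lit 0x5e0000bc00017f3d9afeec2) b26476 (.tok (nat_lit 3) (nat_lit 0x5e0000bc0001800003008fe) (.hit (nat_lit 10) (nat_lit 1) (nat_lit 0x5e0000bc00017f3eaafed89) b26477 (.one (nat_lit 67) (nat_lit 11) (nat_lit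 2) (nat_lit 0x5e0000bc0001800003008fe) b26478 (.nil))) (.tok (nat_lit 6) (nat_lit 0x5e0000bc00017f93d2ff2de) (.hit (nat_lit 12) (nat_lit 7) (nat_lit 0x5e0000bc00017f93d2ff048) b26479 (.hit (nat_lit 13) (nat_lit 15) (nat_lit 0x5e0000bc00017efb02ff2de) b26480 (.nil))) (.nil)))) (.tok (nat_lit 9) (nat_lit 0x5e0000bc00017f0a3afeb54) (.hit (nat_lit 0) (nat_lit 0) (nat_lit 0x5e0000bc00017f0a3afe516) b26468 (.tok (nat_lit 3) (nat_lit 0x5e0000bc00017eac5afe059) (.hit (nat_lit 1) (nat_lit 1) (nat_lit 0x5e0000bc00017e1732fcdb4) b26469 (.one (nat_lit 55) (nat_lit 2) (nat_lit 3) (nat_lit 0x5e0000bc00017eac5afe059) b26470 (.nil))) (.tok (nat_lit 9) (nat_lit 0x5e0000bc00017f0432feb54) (.hit (nat_lit 3) (nat_lit 20) (nat_lit 0x5e0000bc00017df382fc93e) b26471 (.hit (nat_lit 7) (nat_lit 28) (nat_lit 0x5e0000bc00017e1e62fce9a) b26474 (.tok (nat_lit 67) (nat_lit 0x5e0000bc00017f0432feb54) (.hit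 (nat_lit 4) (nat_lit 21) (nat_lit 0x5e0000bc00017eae92fe0a0) b26472 (.hit (nat_lit 8) (nat_lit 29) (nat_lit 0x5e0000bc00017f0432feb54) b26475 (.one (nat_lit 9) (nat_lit 5) (nat_lit 22) (nat_lit 0x5e0000bc00017e842afdb53) b26473 (.nil)))) (.nil)))) (.nil)))) (.nil)))
noncomputable def r27_29 : Rw Blk := .tok (nat_lit 3) (nat_lit 0x5e0000bc00017f1992fe571) (.hit (nat_lit 14) (nat_lit 0) (nat_lit 0x5e0000bc00017f1992fe571) b26499 (.tok (nat_lit 6) (nat_lit 0x5e0000bc00017e853afd4ee) (.hit (nat_lit 15) (nat_lit 7) (nat_lit 0x5e0000bc00017e853afd4ee) b26502 (.hit (nat_lit 16) (nat_lit 15) (nat_lit 0x5e0000bc00017d544afaed0) b26503 (.nil))) (.tok (nat_lit 9) (nat_lit 0x5e0000bc00017eac5afd9d2) (.hit (nat_lit 17) (nat_lit 20) (nat_lit 0x5e0000bc00017eac5afd9d2) b26500 (.hit (nat_lit 18) (nat_lit 28) (nat_lit 0x5e0000bc00017e803afd44e) b26501 (.nil))) (.nil)))) (.tok (nat_lit 6) (nat_lit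 0x5e0000bc00017f97d2ff72e) (.hit (nat_lit 0) (nat_lit 0) (nat_lit 0x5e0000bc00017f97d2ff72e) b26486 (.tok (nat_lit 3) (nat_lit 0x5e0000bc00017f3d42febef) (.hit (nat_lit 1) (nat_lit 1) (nat_lit 0x5e0000bc00017eac9afd9da) b26487 (.one (nat_lit 67) (nat_lit 2) (nat_lit 2) (nat_lit 0x5e0000bc00017f3d42febef) b26488 (.nil))) (.tok (nat_lit 6) (nat_lit 0x5e0000bc00017f877aff536) (.hit (nat_lit 3) (nat_lit 7) (nat_lit 0x5e0000bc00017e956afd6f4) b26489 (.hit (nat_lit 7) (nat_lit 15) (nat_lit 0x5e0000bc00017e9d2afd7ec) b26492 (.tok (nat_lit 55) (nat_lit 0x5e0000bc00017f877aff536) (.hit (nat_lit 4) (nat_lit 8) (nat_lit 0x5e0000bc00017f464afed10) b26490 (.hit (nat_lit 8) (nat_lit 16) (nat_lit 0x5e0000bc00017f877aff536) b26493 (.one (nat_lit 6) (nat_lit 5) (nat_lit 9) (nat_lit 0x5e0000bc00017f4672fed15) b26491 (.nil)))) (.nil)))) (.nil)))) (.tok (nat_lit 9) (nat_lit 0x5e0000bc000180000300000)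 (.hit (nat_lit 9) (nat_lit 0) (nat_lit 0x5e0000bc0001800002feead) b26494 (.tok (nat_lit 3) (nat_lit 0x5e0000bc00017fd7ab00000) (.hit (nat_lit 10) (nat_lit 1) (nat_lit 0x5e0000bc00017ed272fe669) b26495 (.one (nat_lit 55) (nat_lit 11) (nat_lit 3) (nat_lit 0x5e0000bc00017fd7ab00000) b26496 (.nil))) (.tok (nat_lit 9) (nat_lit 0x5e0000bc00017f9612fff8f) (.hit (nat_lit 12) (nat_lit 20) (nat_lit 0x5e0000bc00017f9612fff8f) b26497 (.hit (nat_lit 13) (nat_lit 28) (nat_lit 0x5e0000bc00017ee83afe9b2) b26498 (.nil))) (.nil)))) (.nil)))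
noncomputable def r28_0 : Rw Blk := .tok (nat_lit 9) (nat_lit 0xc000017fa3fafe0155fd270c005857f47e2ffe79600ceabff4557fea0aff810) (.hit (nat_lit 157) (nat_lit 0) (nat_lit 0xbf76b17f194afcc8e5fafe8bf83817ebfa2fd7435fbe94bf5ae17ee092fdb52) b26504 (.tok (nat_lit 14) (nat_lit 0xc000017f9a22fe0155fcf42c005857f47e2ff268600ceabff4557fe792ff5e5) (.hit (nat_lit 193) (nat_lit 61) (nat_lit 0xbfcaa97f90a2fe0155fbe66c005857ef99afe6425fdfe4bf988d7f8262febf8) b26505 (.one (nat_lit 3) (nat_lit 194) (nat_lit 62) (nat_lit 0xbf94117f2152fdb1e5f9782bfb37d7e571afd922600ceabff4557f297afed44) b26506 (.tok (nat_lit 6) (nat_lit 0xc000017f9a22fdf2a5fcf42bffa357f47e2ff2685ff09ebfc6097fe792ff5e5) (.hit (nat_lit 197) (nat_lit 65) (nat_lit 0xc000017f9a22fd8ea5fcf42bffa357f47e2ff2685ff09ebfc6097f77faff104) b26507 (.hit (nat_lit 198) (nat_lit 66) (nat_lit 0xbf88b97edfd2fdf2a5f9788bfab857e5732fd9255fbc64bf5e3d7fe792ff5e5)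 b26508 (.nil))) (.tok (nat_lit 9) (nat_lit 0xbf9f8d7f180afd65b5fa7a6bfce117e9e9afdec35ff5b4bfd5797f860afe9aa) (.hit (nat_lit 195) (nat_lit 63) (nat_lit 0xbf3de57e56a2fce255fa7a6bf70a17e9e9afcec55fc2bebf34b97e9edafd66e) b26509 (.hit (nat_lit 196) (nat_lit 64) (nat_lit 0xbf9f8d7f180afd65b5fa2c4bfce117e8422fdec35ff5b4bfd5797f860afe9aa) b26510 (.nil))) (.nil))))) (.one (nat_lit 17) (nat_lit 199) (nat_lit 67) (nat_lit 0xbf5e797edfeafcdd35f7cb2bf781d7debeafd0a25fea48bf8fad7ed35afe2a8) b26511 (.tok (nat_lit 20) (nat_lit 0xbf57d57e74a2fca005fa1fcbf71797e87f2fcef95fc34cbf4e797e8832fd3fb) (.hit (nat_lit 200) (nat_lit 68) (nat_lit 0xbf32917e3ffafca005fa1fcbf654d7e87f2fcbf05fbd14bf29657e8832fd3fb) b26514 (.hit (nat_lit 201) (nat_lit 69) (nat_lit 0xbf57d57e74a2fbeb45f796ebf71797ddea2fcef95fc34cbf4e797e7f72fd3e8) b26515 (.nil))) (.tok (nat_lit 23) (nat_lit 0xbfa7117f7942fd7e05fc008bff23d7f15eaffe795fdb30bfac957f5d22ff6dd)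 (.hit (nat_lit 202) (nat_lit 70) (nat_lit 0xbfa7117f7942fd7e05fc008bff23d7f15eaffe795fdb30bfac957f5d22ff6dd) b26512 (.hit (nat_lit 203) (nat_lit 71) (nat_lit 0xbf5b217e6982fd44b5f7b06bf74c57de53afcfcc5faac6bf3f417f0d7afdbf1) b26513 (.nil))) (.one (nat_lit 26) (nat_lit 204) (nat_lit 72) (nat_lit 0xbf36817e204afba7c5f68c0bf50257d9bfafc6a45f982ebf1af97e4f0afc63e) b26516 (.one (nat_lit 29) (nat_lit 205) (nat_lit 73) (nat_lit 0xbf3d357e69a2fc3445f6c1ebf56d97da962fc8515fbae8bf4e557e5a7afd469) b26517 (.one (nat_lit 32) (nat_lit 206) (nat_lit 74) (nat_lit 0xbf58b97e9e52fc7ba5f79e0bf725d7de06afcf325fbc50bf63657ea0d2fd6fb) b26519 (.one (nat_lit 35) (nat_lit 207) (nat_lit 75) (nat_lit 0xbf09757dee3afc91b5f613ebf23197d84fafbb615f8c8ebf02a57e769afceea) b26518 (.one (nat_lit 38) (nat_lit 208) (nat_lit 76) (nat_lit 0xbf4a917e7092fc9465f7ca8bf64017df2a2fcb9b5fb098bf44017e9cb2fd058) b26520 (.tok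 (nat_lit 41) (nat_lit 0xbf5e657edf92fce295f7cb6bf78097debc2fd09d5fd71cbf74e57ef19afe0b1) (.hit (nat_lit 209) (nat_lit 77) (nat_lit 0xbf36997e8f52fc74e5f68c4bf70297d9c2afc6905fc46abf64297ef19afd6fb) b26521 (.hit (nat_lit 210) (nat_lit 78) (nat_lit 0xbf5e657edf92fce295f7cb6bf78097debc2fd09d5fd71cbf74e57eb6bafe0b1) b26522 (.nil))) (.tok (nat_lit 44) (nat_lit 0xbf5ce17e992afc38e5f7bf4bf76857dea22fd03c5fcca6bf5c0d7e84fafdb5b) (.hit (nat_lit 211) (nat_lit 79) (nat_lit 0xbee3a97da22afbabf5f7a88bf16657dea22fb8365f95a0beda7d7dea62fd452) b26525 (.hit (nat_lit 212) (nat_lit 80) (nat_lit 0xbf5ce17e992afc38e5f7bf4bf76857de8bafd03c5fcca6bf5c0d7e84fafdb5b) b26526 (.nil))) (.tok (nat_lit 47) (nat_lit 0xbf704d7f32c2fd6765f9fb4bf87317ea842fd36c5fc29cbf5b557e8abafd814) (.hit (nat_lit 213) (nat_lit 81) (nat_lit 0xbf704d7f32c2fd6765f9fb4bf87317ea842fd36c5fc29cbf5b557e892afd814) b26523 (.hit (nat_lit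 214) (nat_lit 82) (nat_lit 0xbf4d317e4e5afc60f5f740ebf66d57dc95afcc505fa48abf32c57e8abafce6a) b26524 (.nil))) (.one (nat_lit 50) (nat_lit 215) (nat_lit 83) (nat_lit 0xbf460d7e4a9afc5505f743ebf5fb17dd0fafca875fae54bf40917ea44afcf84) b26536 (.tok (nat_lit 53) (nat_lit 0xbf6be17f0d4afcc2a5f83c2bf97897e0822fd40f5ff670bfc25d7ef4bafe2da) (.hit (nat_lit 216) (nat_lit 84) (nat_lit 0xbf6be17f0d4afcc2a5f83c2bf97897e0822fd40f5ff670bfc25d7ef4bafe238) b26537 (.hit (nat_lit 217) (nat_lit 85) (nat_lit 0xbf536d7e9c82fc5da5f773abf6d117dd5d2fcde45fd85abf7a2d7e71aafe2da) b26538 (.nil))) (.tok (nat_lit 56) (nat_lit 0xbf7f757f1422fda9e5fad9ebfa36d7eb67afd8e45fc14ebf5d3d7f02bafe168) (.hit (nat_lit 218) (nat_lit 86) (nat_lit 0xbf7f757f1422fda9e5fad9ebfa36d7eb67afd8e45fc14ebf5d3d7f02bafe0f3) b26539 (.one (nat_lit 3) (nat_lit 222) (nat_lit 90) (nat_lit 0xbf07217de91afce745f8c44bf39dd7e3112fc1145fa75cbefdf57e3152fda58)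 b26543 (.tok (nat_lit 6) (nat_lit 0xbf388d7e4bf2fda315fa4fabf6b497e93eafcd6f5fc012bf2f617e942afe144) (.hit (nat_lit 220) (nat_lit 88) (nat_lit 0xbf16357e0742fd92f5f93cebf48f17e4f3afc4d95faee6bf0d097e69cafd90e) b26541 (.hit (nat_lit 221) (nat_lit 89) (nat_lit 0xbf388d7e4bf2fda315fa4fabf6b497e93eafcd6f5fc012bf2f617e942afe144) b26542 (.nil))) (.one (nat_lit 9) (nat_lit 219) (nat_lit 87) (nat_lit 0xbf33dd7e4292fd2e85fa2a2bf66997e8a8afcc435fbdbabf2ab17e8acafe168) b26540 (.nil))))) (.one (nat_lit 59) (nat_lit 223) (nat_lit 91) (nat_lit 0xbf2cd97e2e4afbb005f63e2bf467d7d88aafc43a5fbe4cbf46e17e2c02fd1e4) b26544 (.one (nat_lit 62) (nat_lit 224) (nat_lit 92) (nat_lit 0xbf6f2d7eb16afcd0f5f8510bf88c57e0d3afd4cc5fc6b0bf6e617ee4cafda16) b26527 (.tok (nat_lit 65) (nat_lit 0xbf730d7f6512fda015f9b02bfb8657e6532fdfb15fed9abfd54d7fab62ff810) (.hit (nat_lit 225) (nat_lit 93) (nat_lit 0xbf730d7f6512fda015f9b02bfb8657e6532fdfb15fed9abfd54d7fab62ff810)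 b26528 (.hit (nat_lit 226) (nat_lit 94) (nat_lit 0xbf62097eb5a2fcdba5f7e88bf7bad7df30afd1865fd60cbf8ced7eb482fe4d0) b26529 (.nil))) (.tok (nat_lit 68) (nat_lit 0xbfce697fa3fafdd735fd270bfeb0d7f3d22febfc5fe2c4bfb3217fea0aff4d6) (.hit (nat_lit 227) (nat_lit 95) (nat_lit 0xbfce0d7fa3fafd92b5fc78cbfd8497f2b62febfc5fda04bf9d357f6632fe7af) b26530 (.one (nat_lit 3) (nat_lit 231) (nat_lit 99) (nat_lit 0xbf9f7d7f1922fd1a55fb1acbf9e597ebb72fdbf35fc0b6bf692d7ee54afdd81) b26534 (.one (nat_lit 6) (nat_lit 228) (nat_lit 96) (nat_lit 0xbfc3117f98fafd89e5fd270bfdb2d7f3d22fe9265fdbbcbfa5917fb26afec87) b26531 (.tok (nat_lit 9) (nat_lit 0xbfce697f394afdd735fb104bfeb0d7efceafeab05fe2c4bfb3217fea0aff4d6) (.hit (nat_lit 229) (nat_lit 97) (nat_lit 0xbfce697f394afdd735fb104bfeb0d7efceafeab05fe2c4bfb3217fea0aff4d6) b26532 (.hit (nat_lit 230) (nat_lit 98) (nat_lit 0xbf667d7f306afd87f5f8bfcbf7dc57e2ff2fcdbd5fc788bf78217e769afe3c9)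 b26533 (.nil))) (.nil))))) (.one (nat_lit 71) (nat_lit 232) (nat_lit 100) (nat_lit 0xbf52ed7e6032fc6f05f76ecbf6c917dd4d2fcdbf5fc9e4bf6e457e99a2fdc00) b26535 (.nil)))))))))))))))))))))) (.tok (nat_lit 14) (nat_lit 0xbf293d7e2362fc6795f90c4bf42dd7e4312fdb4e5fb7e6bf66e17e9b72fe3f7) (.hit (nat_lit 233) (nat_lit 0) (nat_lit 0xbf293d7e2362fc6795f90c4bf42dd7e4312fdb4e5fb7e6bf66e17e9b72fe3f7) b36040 (.one (nat_lit 3) (nat_lit 234) (nat_lit 1) (nat_lit 0xbe78497cc17afb2da5f384abe91e97ce12af97175f4234be56017cc172fc5ba) b36041 (.tok (nat_lit 6) (nat_lit 0xbf19e57e04b2fc2175f8918bf33857e2462fbf7e5f9302bef79d7e3312fcfe7) (.hit (nat_lit 235) (nat_lit 7) (nat_lit 0xbf0c6d7de9c2fbee05f825cbf260d7e0972fbc205f8c46beea257e3312fcfe7) b26549 (.hit (nat_lit 236) (nat_lit 15) (nat_lit 0xbf19e57e04b2fc2175f8918bf33857e2462fbf7e5f9302bef79d7e1832fcedd) b26550 (.nil))) (.tok (nat_lit 9) (nat_lit 0xbf19e57e04b2fc2175f8918bf33857e2462fbf7e5f9302bef79d7e3312fd31e)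 (.hit (nat_lit 237) (nat_lit 20) (nat_lit 0xbf0c6d7de9c2fbee05f825cbf260d7e0972fbc205f8c46beea257e3312fcdb6) b26547 (.hit (nat_lit 238) (nat_lit 28) (nat_lit 0xbf19e57e04b2fc2175f8918bf33857e2462fbf7e5f9302bef79d7e1832fd31e) b26548 (.nil))) (.nil))))) (.tok (nat_lit 17) (nat_lit 0xbf47d17e4b2afc2055f9d70bf64697e7582fe1475fd200bf9be57f0dcafe829) (.hit (nat_lit 239) (nat_lit 0) (nat_lit 0xbf47d17e492afbd4a5f9d70bf64697e7582fe1475fd200bf9be57f0dcafe829) b36042 (.one (nat_lit 3) (nat_lit 240) (nat_lit 1) (nat_lit 0xbea5617d1baafb9e35f4ed6bebf017d3b5afa25d5f58c0be83197e9da2fd2af) b36043 (.tok (nat_lit 6) (nat_lit 0xbf3d217e4b2afc2055f9ab6bf56c17e6adafc84d5fa4a0bf1ad97ec6eafd7d8) (.hit (nat_lit 241) (nat_lit 7) (nat_lit 0xbf25cd7e1c82fbcaa5f8f0cbf3f6d7e3c32fc2785f98f6bf03857ea65afd2f1) b26555 (.hit (nat_lit 242) (nat_lit 15) (nat_lit 0xbf3d217e4b2afc2055f9ab6bf56c17e6adafc84d5fa4a0bf1ad97ec6eafd7d8)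 b26556 (.nil))) (.tok (nat_lit 9) (nat_lit 0xbf3d217e4b2afc2055f9ab6bf56c17e6adafc84d5fa4a0bf1ad97ea5bafd3b2) (.hit (nat_lit 243) (nat_lit 20) (nat_lit 0xbf25cd7e1c82fbcaa5f8f0cbf3f6d7e3c32fc2785f98f6bf03857e137afcc5f) b26553 (.hit (nat_lit 244) (nat_lit 28) (nat_lit 0xbf3d217e4b2afc2055f9ab6bf56c17e6adafc84d5fa4a0bf1ad97ea5bafd3b2) b26554 (.nil))) (.nil))))) (.tok (nat_lit 20) (nat_lit 0xbf871d7f2622fd4025fba3abfa6b17ede1afce885fa5febf43e17e9b92fe3df) (.hit (nat_lit 245) (nat_lit 0) (nat_lit 0xbf871d7f2622fce7d5fba3abfa6b17ede1afce885fa5febf43e17e9b92fe3df) b26563 (.one (nat_lit 3) (nat_lit 246) (nat_lit 1) (nat_lit 0xbf42d17e3caafc17b5fa0a2bf5c657e76f2f9f155f5230be75f97d296afcce5) b26564 (.tok (nat_lit 6) (nat_lit 0xbf41f57e3ac2fc41d5fa034bf5b897e753afc10b5f961cbefdd17e363afd624) (.hit (nat_lit 247) (nat_lit 7) (nat_lit 0xbeebfd7da8e2fc2865f7224bf059d7dc892fb4045f7c0ebec9b57de7fafcfe0)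 b26567 (.hit (nat_lit 248) (nat_lit 15) (nat_lit 0xbf41f57e3ac2fc41d5fa034bf5b897e753afc10b5f961cbefdd17e363afd624) b26568 (.nil))) (.tok (nat_lit 9) (nat_lit 0xbf4c197e5892fd4025fa53cbf76d57e88eafc3325f9a6abf066d7e8372fd840) (.hit (nat_lit 249) (nat_lit 20) (nat_lit 0xbf4c197e5892fd4025fa53cbf76d57e88eafbaf65f89f2bee57d7e0ac2fcdd4) b26565 (.hit (nat_lit 250) (nat_lit 28) (nat_lit 0xbf3a557e296afcae65f9c64bf53e97e65fafc3325f9a6abf066d7e8372fd840) b26566 (.nil))) (.nil))))) (.tok (nat_lit 23) (nat_lit 0xbf871d7f2622fd4025fba34bfa9fd7ede1afee6e5fde6ebfb4457f8b12ff0a7) (.hit (nat_lit 251) (nat_lit 0) (nat_lit 0xbf871d7f2622fce7d5fba34bfa9fd7ede1afee6e5fde6ebfb4457f72f2fee41) b26557 (.one (nat_lit 3) (nat_lit 252) (nat_lit 1) (nat_lit 0xbf42d17e3caafc17b5fa0a2bf5d897e76f2fe1e85fc4b2bf81497f350afe4d4) b26558 (.tok (nat_lit 6) (nat_lit 0xbf4c197e5892fd4025fa53cbf7b717e88eafe41c5fcb22bf8a197f8b12feecc)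 (.hit (nat_lit 253) (nat_lit 7) (nat_lit 0xbf4c197e5892fd4025fa53cbf7b717e88eafe41c5fcb22bf8a197f8b12feecc) b26561 (.hit (nat_lit 254) (nat_lit 15) (nat_lit 0xbf3a557e296afcae65f9c64bf54b17e65fafdfca5fc076bf78d17f6d6afed5a) b26562 (.nil))) (.tok (nat_lit 9) (nat_lit 0xbf41f57e3ac2fc41d5fa034bf5cbd7e753afe1b25fc446bf80717f87eaff0a7) (.hit (nat_lit 255) (nat_lit 20) (nat_lit 0xbeebfd7da8e2fc2865f7224bf059d7dc892fb4045f7c0ebec9b57de7fafd501) b26559 (.hit (nat_lit 256) (nat_lit 28) (nat_lit 0xbf41f57e3ac2fc41d5fa034bf5cbd7e753afe1b25fc446bf80717f87eaff0a7) b26560 (.nil))) (.nil))))) (.tok (nat_lit 26) (nat_lit 0xbf6d097ec9d2fcae95f98eebf86e57e47f2fed905fea26bfc1f57fe84affcbd) (.hit (nat_lit 257) (nat_lit 0) (nat_lit 0xbf6d097ec9d2fcae95f98eebf86e57e47f2fed905fea26bfc1f57fe84affcbd) b36044 (.one (nat_lit 3) (nat_lit 258) (nat_lit 1) (nat_lit 0xbe8de97cecbaf9e725f431abea7897d0c6af9c7f5f4d04be6ba17ee0c2fdbc5)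 b36045 (.tok (nat_lit 6) (nat_lit 0xbf2b857e27f2fbbae5f91e8bf45257e47a2fc3e65f9bd2bf093d7f2ffafe5ac) (.hit (nat_lit 259) (nat_lit 7) (nat_lit 0xbf2b857e27f2fbbae5f91e8bf45257e47a2fc3e65f9bd2bf093d7e1eeafd68b) b26573 (.hit (nat_lit 260) (nat_lit 15) (nat_lit 0xbed3957d7812fa8b45f65f0beed357d97c2fadea5f6fdabeb14d7f2ffafe5ac) b26574 (.nil))) (.tok (nat_lit 9) (nat_lit 0xbf2b857e27f2fbbae5f91e8bf45257e47a2fc3e65f9bd2bf093d7fa9d2ff6c4) (.hit (nat_lit 261) (nat_lit 20) (nat_lit 0xbf2b857e27f2fbbae5f91e8bf45257e47a2fc3e65f9bd2bf093d7fa9d2ff6c4) b26571 (.hit (nat_lit 262) (nat_lit 28) (nat_lit 0xbed3957d7812fa8b45f65f0beed357d97c2fadea5f6fdabeb14d7f2962fe4d9) b26572 (.nil))) (.nil))))) (.tok (nat_lit 29) (nat_lit 0xbf56117e7d0afd7a05fa72ebf6fb17e9cbafe2225fc526bf82317ffe72fff7c) (.hit (nat_lit 263) (nat_lit 0) (nat_lit 0xbf3ef17e315afc5f15f8596bf5a197e165afe2225fc526bf82317f70cafedc2)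 b36046 (.one (nat_lit 3) (nat_lit 264) (nat_lit 1) (nat_lit 0xbe9cd57d0a92fb9b65f4a90beb6757d2a42fa03a5f547abe7a8d7f7782fee9d) b36047 (.tok (nat_lit 6) (nat_lit 0xbf56117e7d0afd7a05fa72ebf6fb17e9cbafce895fb118bf33c97ffe72fff7c) (.hit (nat_lit 265) (nat_lit 7) (nat_lit 0xbf17dd7e00a2fd7a05f8814bf317d7e2052fbefc5f91febef5957ffe72fff7c) b26579 (.hit (nat_lit 266) (nat_lit 15) (nat_lit 0xbf56117e7d0afca7d5fa72ebf6fb17e9cbafce895fb118bf33c97f5d4afeb56) b26580 (.nil))) (.tok (nat_lit 9) (nat_lit 0xbf56117e7d0afd7a05fa72ebf6fb17e9cbafce895fb118bf33c97f984aff38a) (.hit (nat_lit 267) (nat_lit 20) (nat_lit 0xbf17dd7e00a2fd7a05f8814bf317d7e2052fbefc5f91febef5957df79afdf70) b26577 (.hit (nat_lit 268) (nat_lit 28) (nat_lit 0xbf56117e7d0afca7d5fa72ebf6fb17e9cbafce895fb118bf33c97f984aff38a) b26578 (.nil))) (.nil))))) (.tok (nat_lit 32) (nat_lit 0xbf56217eedc2fd6ec5f9540bf4bd57e5502fe7cb5fdceebf98d57f825aff0d8)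 (.hit (nat_lit 269) (nat_lit 0) (nat_lit 0xbf56217eedc2fd6ec5f8d20bf384d7e2df2fe7cb5fdceebf98d57f825aff0d8) b26587 (.one (nat_lit 3) (nat_lit 270) (nat_lit 1) (nat_lit 0xbea2a17d162afb6235f4d76bebc417d35dafa1ad5f5760be80597d0d22fcae2) b26582 (.tok (nat_lit 6) (nat_lit 0xbf32357e3552fd5055f9540bf4bd57e5502fc5925f9f2abf0fed7e6862fe754) (.hit (nat_lit 271) (nat_lit 7) (nat_lit 0xbf32357e3552fc4285f9540bf4bd57e5502fc5925f9f2abf0fed7e2c4afe754) b26583 (.hit (nat_lit 272) (nat_lit 15) (nat_lit 0xbf240d7e1902fd5055f8e2cbf3dad7e38b2fc2085f9816bf01c57e6862fe36f) b26584 (.nil))) (.tok (nat_lit 9) (nat_lit 0xbf033d7dd762fcdce5f7dc4bf1cdd7df712fb9d45f87aebee0f57e05cafe6fd) (.hit (nat_lit 273) (nat_lit 20) (nat_lit 0xbf033d7dd762fcdce5f7dc4bf1cdd7df712fb9d45f87aebee0f57e05cafe6fd) b26588 (.hit (nat_lit 274) (nat_lit 28) (nat_lit 0xbecf1d7d6f22fb8465f63b4bee8bd7d8ed2faccc5f6d9ebeacd57db65afdce3)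 b26586 (.nil))) (.nil))))) (.tok (nat_lit 35) (nat_lit 0xbf56217eedc2fd6ec5f9540bf4bd57e5502fe7cb5fd078bf98d57f071afedb7) (.hit (nat_lit 275) (nat_lit 0) (nat_lit 0xbf56217eedc2fd6ec5f8d20bf384d7e2df2fe7cb5fd078bf98d57f071afedb7) b26581 (.one (nat_lit 3) (nat_lit 276) (nat_lit 1) (nat_lit 0xbea2a17d162afb6235f4d76bebc417d35dafa1ad5f5760be80597d0d22fcae2) b26582 (.tok (nat_lit 6) (nat_lit 0xbf033d7dd762fcdce5f7dc4bf1cdd7df712fb9d45f87aebee0f57e05cafe6fd) (.hit (nat_lit 277) (nat_lit 7) (nat_lit 0xbf033d7dd762fcdce5f7dc4bf1cdd7df712fb9d45f87aebee0f57e05cafe6fd) b26585 (.hit (nat_lit 278) (nat_lit 15) (nat_lit 0xbecf1d7d6f22fb8465f63b4bee8bd7d8ed2faccc5f6d9ebeacd57db65afdce3) b26586 (.nil))) (.tok (nat_lit 9) (nat_lit 0xbf32357e3552fd5055f9540bf4bd57e5502fc5925f9f2abf0fed7e6862fe754) (.hit (nat_lit 279) (nat_lit 20) (nat_lit 0xbf32357e3552fc4285f9540bf4bd57e5502fc5925f9f2abf0fed7e2c4afe754)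 b26583 (.hit (nat_lit 280) (nat_lit 28) (nat_lit 0xbf240d7e1902fd5055f8e2cbf3dad7e38b2fc2085f9816bf01c57e6862fe36f) b26584 (.nil))) (.nil))))) (.tok (nat_lit 38) (nat_lit 0xbf7e3d7ec8b2fcd2d5fbb36bf97e17ee15afefe75ff806bfd3c97fa0daff618) (.hit (nat_lit 281) (nat_lit 0) (nat_lit 0xbf7e3d7ec8b2fcd2d5fbb36bf97e17ee15afefe75ff806bfd3c97fa0daff618) b36048 (.one (nat_lit 3) (nat_lit 282) (nat_lit 1) (nat_lit 0xbe9ed97d0e9af9e685f4b92beb8797d2e4afa0bb5f557cbe7c917e9952fd21e) b36049 (.tok (nat_lit 6) (nat_lit 0xbee4657d99b2fb6065f6e58befe057db962fb21e5f7842bec21d7f5b22fea8b) (.hit (nat_lit 283) (nat_lit 7) (nat_lit 0xbee4657d99b2fb6065f6e58befe057db962fb21e5f7842bec21d7f5b22fea8b) b26593 (.hit (nat_lit 284) (nat_lit 15) (nat_lit 0xbecc917d6a0afa9265f626ebee6317d89bafac295f6c58beaa497ed8d2fda0e) b26594 (.nil))) (.tok (nat_lit 9) (nat_lit 0xbee4657d99b2fb6065f6e58befe057db962fb21e5f7842bec21d7ed722fd9d8)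 (.hit (nat_lit 285) (nat_lit 20) (nat_lit 0xbee4657d99b2fb6065f6e58befe057db962fb21e5f7842bec21d7d90aafcb22) b26591 (.hit (nat_lit 286) (nat_lit 28) (nat_lit 0xbecc917d6a0afa9265f626ebee6317d89bafac295f6c58beaa497ed722fd9d8) b26592 (.nil))) (.nil))))) (.tok (nat_lit 41) (nat_lit 0xbf95957fa342fdd895fcbfebf6ab57f106b0019e60269ac000017fb2c300130) (.hit (nat_lit 292) (nat_lit 0) (nat_lit 0xbf4f1d7ecf42fc6a05fb560bf6ab57eb35afeb0f5fdbcabfa8297fb2c2ff59b) b36050 (.one (nat_lit 3) (nat_lit 293) (nat_lit 1) (nat_lit 0xbf33717e5deafb80d5f95debebb517e4c2afe1545fc5c0bf7ef97f301afe4f7) b36051 (.tok (nat_lit 6) (nat_lit 0xbf95957fa342fdd895fcbfebf5c457f106afee6b5fdc02bfb37d7f8492fef86) (.hit (nat_lit 294) (nat_lit 7) (nat_lit 0xbf95957fa342fdd895fcbfebf04e97f106afee6b5fdc02bfb37d7db2dafef79) b26599 (.hit (nat_lit 295) (nat_lit 15) (nat_lit 0xbf42a57e6772fc4535f9d78bf5c457e75e2fe50e5fc58abf8de17f8492fef86)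 b26600 (.nil))) (.tok (nat_lit 9) (nat_lit 0xbf95957fa342fdd895fcbfebf5c457f106b0019e60269ac000017f7fd300130) (.hit (nat_lit 296) (nat_lit 20) (nat_lit 0xbf95957fa342fdd895fcbfebf04e97f106b0019e60269ac000017f7fd300130) b26597 (.hit (nat_lit 297) (nat_lit 28) (nat_lit 0xbf42a57e6772fc4535f9d78bf5c457e75e2fe5ce5fceb2bf90e17f58cafeedc) b26598 (.nil))) (.nil))))) (.tok (nat_lit 44) (nat_lit 0xbfa0f97f77cafccb25fdf26bfa4d97f8d9afea295ff1c4bfa27d7fb23aff569) (.hit (nat_lit 306) (nat_lit 0) (nat_lit 0xbf95997f1c3afca385fdb08bf9e097f7b22fea295ff1c4bfa27d7fb23aff569) b26607 (.one (nat_lit 3) (nat_lit 307) (nat_lit 1) (nat_lit 0xbf04217df39afa9635f7e36bf1db57ded8af9e155f5030be71f97cf062fc0a8) b26608 (.tok (nat_lit 6) (nat_lit 0xbf733d7ea14afcbed5fb582bf8fd17ecabafb8415f8488bedaa97e0d9afd60b) (.hit (nat_lit 308) (nat_lit 7) (nat_lit 0xbf733d7ea14afcbed5fb582bf8fd17ecabafb8415f8488bedaa97e0d9afd60b)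 b26611 (.hit (nat_lit 309) (nat_lit 15) (nat_lit 0xbf27f57e5cfafb6e75f9020bf418d7e3532faaa65f6952bea43d7dc6fafce6b) b26612 (.nil))) (.tok (nat_lit 9) (nat_lit 0xbfa0f97f77cafccb25fdf26bfa4d97f8d9afc8a05fa546bf1c257e44bafdd0f) (.hit (nat_lit 310) (nat_lit 20) (nat_lit 0xbfa0f97f77cafccb25fdf26bfa4d97f8d9afc2b85f9976bf04857e157afdd0f) b26609 (.hit (nat_lit 311) (nat_lit 28) (nat_lit 0xbf3e6d7e65bafc4565f9b5cbf580d7e6d72fc8a05fa546bf1c257e44bafda47) b26610 (.nil))) (.nil))))) (.tok (nat_lit 47) (nat_lit 0xbfa0f97f77cafccb25fcd20bf9dfd7f85f2ff1d45ff3d6bfd6597fd022ff9b1) (.hit (nat_lit 320) (nat_lit 0) (nat_lit 0xbf95997f1c3afca385fcaeebf9dfd7f85f2fe8345fd722bf9a797f1fdafee58) b26601 (.one (nat_lit 3) (nat_lit 321) (nat_lit 1) (nat_lit 0xbf04217df39afa9635f7e36bf1e9d7ded8afd1645faf66bf52497e8a8afd5c2) b26602 (.tok (nat_lit 6) (nat_lit 0xbfa0f97f77cafccb25fcd20bf9d257f8472ff1d45ff3d6bfd6597f9c32ff4ce)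 (.hit (nat_lit 322) (nat_lit 7) (nat_lit 0xbfa0f97f77cafccb25fcd20bf9d257f8472ff1d45ff3d6bfd6597f9c32ff4ce) b26605 (.hit (nat_lit 323) (nat_lit 15) (nat_lit 0xbf3e6d7e65bafc4565f9b5cbf580d7e6d72fdd175fd10cbf95957f2f5afe699) b26606 (.nil))) (.tok (nat_lit 9) (nat_lit 0xbf733d7ea14afcbed5fb582bf92397ecabafed0a5fd842bfadd17fd022ff9b1) (.hit (nat_lit 324) (nat_lit 20) (nat_lit 0xbf733d7ea14afcbed5fb582bf92397ecabafed0a5fd842bfadd17fd022ff9b1) b26603 (.hit (nat_lit 325) (nat_lit 28) (nat_lit 0xbf27f57e5cfafb6e75f9020bf41f97e3532fda595fc82abf83d17f1422fe231) b26604 (.nil))) (.nil))))) (.tok (nat_lit 50) (nat_lit 0xbf50117e710afc95c5fa42ebf69b17e90bafd98e5fb58ebf61317fd9baff826) (.hit (nat_lit 326) (nat_lit 0) (nat_lit 0xbf2b017e0bfafc95c5f7288bf44d97dca22fd98e5fb58ebf61317fcdcaff4a0) b26658 (.one (nat_lit 3) (nat_lit 327) (nat_lit 1) (nat_lit 0xbe82ed7cd6c2fa20f5f3d9cbe9c8d7cf672f99c05f4786be60a57eabe2fd370)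 b26659 (.tok (nat_lit 6) (nat_lit 0xbf50117e710afc7b25fa42ebf69b17e90bafcd095fae18bf2dc97fd9baff826) (.hit (nat_lit 328) (nat_lit 7) (nat_lit 0xbf50117e710afc7b25fa42ebf69b17e90bafcd095fae18bf2dc97fd9baff826) b26662 (.hit (nat_lit 329) (nat_lit 15) (nat_lit 0xbea1057d12f2fa8cf5f4ca8bebaa57d32a2fa1465f5692be7ebd7ee1cafda2d) b26663 (.nil))) (.tok (nat_lit 9) (nat_lit 0xbf08717de1cafbd1d5f805ebf22117e017afbb215f8a48bee6297f778afed61) (.hit (nat_lit 330) (nat_lit 20) (nat_lit 0xbf08717de1cafbd1d5f805ebf22117e017afbb215f8a48bee6297f778afed61) b26660 (.hit (nat_lit 331) (nat_lit 28) (nat_lit 0xbea1057d12f2faa125f4ca8bebaa57d32a2fa1465f5692be7ebd7edfe2fd9f0) b26661 (.nil))) (.nil))))) (.tok (nat_lit 53) (nat_lit 0xbf8e317f91c2fdad95fa032bf61b97e80caff2495ffb74bfc0d980103b00112) (.hit (nat_lit 337) (nat_lit 0) (nat_lit 0xbf617d7f37d2fd0e35f8cc0bf3ad57e3302feca25fe98abfac217f806afec8e)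 b26664 (.one (nat_lit 3) (nat_lit 338) (nat_lit 1) (nat_lit 0xbf38a17f2a92fcaf75f7302bec6857dab3afe9805febc0bf9fa97f9352ff05e) b26665 (.tok (nat_lit 6) (nat_lit 0xbf8e317f91c2fcfd55fa032bf61b97e80caff1ca5feba6bfc0d97f5a42ff19d) (.hit (nat_lit 339) (nat_lit 7) (nat_lit 0xbf8e317f91c2fcfd55fa032bf61b97e80caff1ca5feba6bfc0d97f5a42ff19d) b26668 (.hit (nat_lit 340) (nat_lit 15) (nat_lit 0xbf53e57f0dcafcab95f93cabf48e97e4f2afe8a15fdf3abf9b5d7f4272fed27) b26669 (.nil))) (.tok (nat_lit 9) (nat_lit 0xbf51097f1012fdad95fa02abf61a97e80aaff2495ffb74bfb1c580103b00112) (.hit (nat_lit 341) (nat_lit 20) (nat_lit 0xbf48097e60fafdad95fa02abf61a97e80aafcb075faa14bf25c180103b00112) b26666 (.hit (nat_lit 342) (nat_lit 28) (nat_lit 0xbf51097f1012fcd845f93cabf48e97e4f2aff2495ffb74bfb1c57f64daff128) b26667 (.nil))) (.nil))))) (.tok (nat_lit 56) (nat_lit 0xbf374d7e3f82fcf5e5f97ccbf50ed7e5f32fd8b15fb9f0bf69f57f6112fec20)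 (.hit (nat_lit 351) (nat_lit 0) (nat_lit 0xbf374d7e3f82fcace5f97ccbf50ed7e5f32fd8b15fb9f0bf69f57f6112fec20) b26670 (.one (nat_lit 3) (nat_lit 352) (nat_lit 1) (nat_lit 0xbe78497cc17afa3b25f384abe91e97ce12af97175f4234be56017cf092fc08b) b26671 (.tok (nat_lit 6) (nat_lit 0xbf01817dd3eafcf5e5f7ce6bf1b217df39afb9655f86d0bedf397e393afe2d9) (.hit (nat_lit 353) (nat_lit 7) (nat_lit 0xbf01817dd3eafcf5e5f7ce6bf1b217df39afb9655f86d0bedf397e393afe2d9) b26674 (.hit (nat_lit 354) (nat_lit 15) (nat_lit 0xbe97c17d006afb7455f4806beb1617d201af9ef55f51f0be75797d788afd38c) b26675 (.nil))) (.tok (nat_lit 9) (nat_lit 0xbf316d7e33c2fce765f94dcbf4b0d7e5372fc5605f9ec6bf0f257e49d2fe1d8) (.hit (nat_lit 355) (nat_lit 20) (nat_lit 0xbf04f57ddad2fce765f7ea0bf1e957dfa82fba425f888abee2ad7e00c2fe1d8) b26672 (.hit (nat_lit 356) (nat_lit 28) (nat_lit 0xbf316d7e33c2fc6265f94dcbf4b0d7e5372fc5605f9ec6bf0f257e49d2fdbcd)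 b26673 (.nil))) (.nil))))) (.tok (nat_lit 59) (nat_lit 0xbf588d7e84f2fcf4e5fa86cbf722d7ea1b2fe2f05fc7acbf85697f9e2afee7c) (.hit (nat_lit 365) (nat_lit 0) (nat_lit 0xbf424d7e84f2fcf4e5f7e76bf39497df9dafe2f05fc7acbf85697f6b9afeaad) b26676 (.one (nat_lit 3) (nat_lit 366) (nat_lit 1) (nat_lit 0xbeabfd7d28e2fa6535f5224bec59d7d4892fa4045f5c0ebe89b57eb962fd520) b26677 (.tok (nat_lit 6) (nat_lit 0xbf33197e371afc60c5f95b2bf4cb97e56cafc5cb5f9f9cbf10d17f9e2afedc0) (.hit (nat_lit 367) (nat_lit 7) (nat_lit 0xbf2fad7e3042fc58d5f93fcbf494d7e4ff2fc4f05f9de6bf0d657f9e2afedc0) b26680 (.hit (nat_lit 368) (nat_lit 15) (nat_lit 0xbf33197e371afc60c5f95b2bf4cb97e56cafc5cb5f9f9cbf10d17f357afe4a3) b26681 (.nil))) (.tok (nat_lit 9) (nat_lit 0xbf588d7e8202fce9b5fa86cbf722d7ea1b2fcf285fb256bf36457f8472fee7c) (.hit (nat_lit 369) (nat_lit 20) (nat_lit 0xbf588d7e8202fce9b5fa86cbf722d7ea1b2fcf285fb256bf36457f8472fee7c)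 b26678 (.hit (nat_lit 370) (nat_lit 28) (nat_lit 0xbee0317d914afb9485f6c3ebef9d17db0fafb1115f7628bebde97f2ff2fe4da) b26679 (.nil))) (.nil))))) (.tok (nat_lit 62) (nat_lit 0xbf50117e710afc95c5fa42ebf69b17e90bafde475fbd70bf72c57fb66aff842) (.hit (nat_lit 371) (nat_lit 0) (nat_lit 0xbf2b017e0bfafc95c5f7288bf44a97dca22fde475fbd70bf72c57fb66aff842) b26613 (.one (nat_lit 3) (nat_lit 372) (nat_lit 1) (nat_lit 0xbe82ed7cd6c2fa20f5f3d9cbe9c8d7cf672f99c05f4786be60a57cef7afbbc0) b26614 (.tok (nat_lit 6) (nat_lit 0xbf08717de1cafbd1d5f805ebf22117e017afbb215f8a48bee6297e0b5afdbdb) (.hit (nat_lit 373) (nat_lit 7) (nat_lit 0xbf08717de1cafbd1d5f805ebf22117e017afbb215f8a48bee6297e0b5afdbdb) b26617 (.hit (nat_lit 374) (nat_lit 15) (nat_lit 0xbea1057d12f2faa125f4ca8bebaa57d32a2fa1465f5692be7ebd7db58afca64) b26618 (.nil))) (.tok (nat_lit 9) (nat_lit 0xbf50117e710afc7b25fa42ebf69b17e90bafcd095fae18bf2dc97e6802fddae)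 (.hit (nat_lit 375) (nat_lit 20) (nat_lit 0xbf50117e710afc7b25fa42ebf69b17e90bafcd095fae18bf2dc97e6802fddae) b26615 (.hit (nat_lit 376) (nat_lit 28) (nat_lit 0xbea1057d12f2fa8cf5f4ca8bebaa57d32a2fa1465f5692be7ebd7d09eafc625) b26616 (.nil))) (.nil))))) (.tok (nat_lit 64) (nat_lit 0xbfe8d98052cb0023d600000bfd845800002ff8d55ffbdebfd6b58031eb00dab) (.hit (nat_lit 377) (nat_lit 0) (nat_lit 0xbfe8d98005a2ffe4e5fee46bfd8457fb8faff8d55ffbdebfd6b58031eb00183) b26619 (.tok (nat_lit 6) (nat_lit 0xbfcbc1803bfb0023d5fe202bfd4257f880afebf45fe31abfa9797f598aff9a7) (.hit (nat_lit 378) (nat_lit 7) (nat_lit 0xbfaba57f28330023d5fd968bfd4257f65a2fe7a65fe31abf983d7f598aff5c4) b26622 (.hit (nat_lit 379) (nat_lit 15) (nat_lit 0xbfcbc1803bfaff9445fe202bfb5197f880afebf45fd8cabfa9797f26eaff9a7) b26623 (.nil))) (.tok (nat_lit 9) (nat_lit 0xbfe4658052caff14c600000bfcca1800002ff2705fe7cebfc3697f4a8300dab)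 (.hit (nat_lit 380) (nat_lit 20) (nat_lit 0xbfe4658052caff14c600000bfcca1800002ff2705fe7cebfc3697f4a8300dab) b26620 (.hit (nat_lit 381) (nat_lit 28) (nat_lit 0xbfb5e57fdc72fe4965fd8d8bfa5117f6362fe75f5fcfa0bf97257efb62ff24a) b26621 (.nil))) (.nil)))) (.tok (nat_lit 65) (nat_lit 0xbf8e317f91c2fdad95fa032bf61b97e80caff6ab5fed6ebfd2c17f62faffc6a) (.hit (nat_lit 382) (nat_lit 0) (nat_lit 0xbf617d7f37d2fd0e35f8f80bf3ad57e3302ff6ab5fed6ebfd2c17f62faff645) b26624 (.one (nat_lit 3) (nat_lit 383) (nat_lit 1) (nat_lit 0xbf38a17f2a92fcaf75f7320bec6857dab42fe8335fd148bf9a757d21aafef4c) b26625 (.tok (nat_lit 6) (nat_lit 0xbf51097f1012fdad95fa02abf61a97e80aafee4d5fdd7cbfb2dd7e57f2ffc6a) (.hit (nat_lit 384) (nat_lit 7) (nat_lit 0xbf48097e60fafdad95fa02abf61a97e80aafcb075faa14bf25c17e57f2fe1a8) b26628 (.hit (nat_lit 385) (nat_lit 15) (nat_lit 0xbf51097f1012fcd845f93cabf48e97e4f2afee4d5fdd7cbfb2dd7e2672ffc6a)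 b26629 (.nil))) (.tok (nat_lit 9) (nat_lit 0xbf8e317f91c2fcfd55fa032bf61b97e80caff2055fe4ecbfc1bd7e71baff9db) (.hit (nat_lit 386) (nat_lit 20) (nat_lit 0xbf8e317f91c2fcfd55fa032bf61b97e80caff2055fe4ecbfc1bd7e5812ff9db) b26626 (.hit (nat_lit 387) (nat_lit 28) (nat_lit 0xbf53e57f0dcafcab95f93cabf48e97e4f2afef045fdeeabfb5b97e71baff86d) b26627 (.nil))) (.nil))))) (.tok (nat_lit 67) (nat_lit 0xbfe5c97f9c7affd595ff67ac00e497fd9eaff62f60002cbfd2617ff2eaff9cb) (.hit (nat_lit 388) (nat_lit 0) (nat_lit 0xbfe54d7f7de2fecd15fd8fabffe057f63eaff5945fe2acbfcff97ff2eaff6f5) b26630 (.tok (nat_lit 3) (nat_lit 0xbfb41d7f3922ff3aa5fdda4bfdc9d7f7692fe9c45fe756bfa0b57f9472ff5c5) (.hit (nat_lit 389) (nat_lit 1) (nat_lit 0xbf4b917e680afda675fa95ebf74117ea57afcfa15fb310bf38297e9962fd665) b26631 (.one (nat_lit 55) (nat_lit 390) (nat_lit 3) (nat_lit 0xbfb41d7f3922ff3aa5fdda4bfdc9d7f7692fe9c45fe756bfa0b57f9472ff5c5)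 b26632 (.nil))) (.tok (nat_lit 9) (nat_lit 0xbfe5c97f9c7affd595ff67ac00e497fd9eaff62f60002cbfd2617fd13aff9cb) (.hit (nat_lit 391) (nat_lit 20) (nat_lit 0xbf70697eb1bafddb25fbbcabf98e97eef2afd8d75fc57cbf5d017ee312fd8df) b26633 (.hit (nat_lit 394) (nat_lit 28) (nat_lit 0xbf32997e361afd85f5f9ce2bf5b197e738afc9635fa694bf1f317ebaa2fd6f8) b26636 (.tok (nat_lit 67) (nat_lit 0xbfe5c97f9c7affd595ff67ac00e497fd9eaff62f60002cbfd2617fd13aff9cb) (.hit (nat_lit 392) (nat_lit 21) (nat_lit 0xbfc73d7f5f62ff9fb5fe734bfefbd7f9cd2fee8c5ff0e6bfb3d57fbfbaff79b) b26634 (.hit (nat_lit 395) (nat_lit 29) (nat_lit 0xbf9af97f06daff0105fd112bfc3797f444afe37b5fdac4bf87917fa6eaff4ba) b26637 (.one (nat_lit 9) (nat_lit 393) (nat_lit 22) (nat_lit 0xbfe5c97f9c7affd595ff67ac00e497fd9eaff62f60002cbfd2617fd13aff9cb) b26635 (.nil)))) (.nil)))) (.nil)))) (.tok (nat_lit 68) (nat_lit 0xbf374d7e3f82fcf5e5f97ccbf50ed7e5f32fd80f5fb9a8bf6b357f74f2fee4c)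 (.hit (nat_lit 396) (nat_lit 0) (nat_lit 0xbf374d7e3f82fcace5f97ccbf50ed7e5f32fd80f5fb9a8bf6b357f74f2fee4c) b26638 (.one (nat_lit 3) (nat_lit 397) (nat_lit 1) (nat_lit 0xbe78497cc17afa3b25f384abe91e97ce12af97175f4234be56017cf092fc7a2) b26639 (.tok (nat_lit 6) (nat_lit 0xbf316d7e33c2fce765f94dcbf4b0d7e5372fc5605f9ec6bf0f257e49d2fe759) (.hit (nat_lit 398) (nat_lit 7) (nat_lit 0xbf04f57ddad2fce765f7ea0bf1e957dfa82fba425f888abee2ad7e00c2fe759) b26642 (.hit (nat_lit 399) (nat_lit 15) (nat_lit 0xbf316d7e33c2fc6265f94dcbf4b0d7e5372fc5605f9ec6bf0f257e49d2fe2e4) b26643 (.nil))) (.tok (nat_lit 9) (nat_lit 0xbf01817dd3eafcf5e5f7ce6bf1b217df39afb9655f86d0bedf397e393afe70d) (.hit (nat_lit 400) (nat_lit 20) (nat_lit 0xbf01817dd3eafcf5e5f7ce6bf1b217df39afb9655f86d0bedf397e393afe70d) b26640 (.hit (nat_lit 401) (nat_lit 28) (nat_lit 0xbe97c17d006afb7455f4806beb1617d201af9ef55f51f0be75797d788afdaa3)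 b26641 (.nil))) (.nil))))) (.tok (nat_lit 70) (nat_lit 0xbfe1157f9312ff93d5ff420c009957fd082ff5025ffdd2bfcdad7fc46affccf) (.hit (nat_lit 402) (nat_lit 0) (nat_lit 0xbfae717f0862fe6575fbd96bfc1a57ef65aff4cc5fea76bfccd97f92aaff464) b26644 (.tok (nat_lit 3) (nat_lit 0xbfb7417f3f6afe6c25fdf36bfdfc17f7cdafea8d5fe8e8bfa3d97f70c2ff55a) (.hit (nat_lit 403) (nat_lit 1) (nat_lit 0xbf5b417e876afdfdf5fb136bf83c17ec4dafd38d5fbae8bf47d97eb8c2fdb36) b26645 (.one (nat_lit 67) (nat_lit 404) (nat_lit 2) (nat_lit 0xbfb7417f3f6afe6c25fdf36bfdfc17f7cdafea8d5fe8e8bfa3d97f70c2ff55a) b26646 (.nil))) (.tok (nat_lit 6) (nat_lit 0xbfe1157f9312ff93d5ff420c009957fd082ff5025ffdd2bfcdad7fc46affccf) (.hit (nat_lit 405) (nat_lit 7) (nat_lit 0xbf63557e9792fdc175fb540bf8bd57ed502fd5925fbef2bf4fed7ec8eafd6ad) b26647 (.hit (nat_lit 408) (nat_lit 15) (nat_lit 0xbf59157e8312fdeb75fb020bf81957ec082fd3025fb9d2bf45ad7eb46afdb70)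 b26650 (.tok (nat_lit 55) (nat_lit 0xbfe1157f9312ff93d5ff420c009957fd082ff5025ffdd2bfcdad7fc46affccf) (.hit (nat_lit 406) (nat_lit 8) (nat_lit 0xbf9f397f0f5afe8205fd332bfc7b97f4ccafe48b5fdce4bf8bd17f40b2feeac) b26648 (.hit (nat_lit 409) (nat_lit 16) (nat_lit 0xbfb8e97f42baff5995fe00abfe1697f802afeaf75fe9bcbfa5817f7412fefa8) b26651 (.one (nat_lit 6) (nat_lit 407) (nat_lit 9) (nat_lit 0xbfe1157f9312ff93d5ff420c009957fd082ff5025ffdd2bfcdad7fc46affccf) b26649 (.nil)))) (.nil)))) (.nil)))) (.tok (nat_lit 71) (nat_lit 0xbf588d7e84f2fcf4e5fa86cbf722d7ea1b2feb1f5fd720bfa6257f7efafefa7) (.hit (nat_lit 410) (nat_lit 0) (nat_lit 0xbf424d7e84f2fcf4e5f7e76bf39297df9dafeb1f5fd720bfa6257f7efafefa7) b26652 (.one (nat_lit 3) (nat_lit 411) (nat_lit 1) (nat_lit 0xbeabfd7d28e2fa6535f5224bec59d7d4892fa4045f5c0ebe89b57d1fdafc886) b26653 (.tok (nat_lit 6) (nat_lit 0xbf588d7e8202fce9b5fa86cbf722d7ea1b2fcf285fb256bf36457e78fafe661)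 (.hit (nat_lit 412) (nat_lit 7) (nat_lit 0xbf588d7e8202fce9b5fa86cbf722d7ea1b2fcf285fb256bf36457e78fafe661) b26656 (.hit (nat_lit 413) (nat_lit 15) (nat_lit 0xbee0317d914afb9485f6c3ebef9d17db0fafb1115f7628bebde97d8842fdd39) b26657 (.nil))) (.tok (nat_lit 9) (nat_lit 0xbf33197e371afc60c5f95b2bf4cb97e56cafc5cb5f9f9cbf10d17e53dafe888) (.hit (nat_lit 414) (nat_lit 20) (nat_lit 0xbf2fad7e3042fc58d5f93fcbf494d7e4ff2fc4f05f9de6bf0d657e273afe888) b26654 (.hit (nat_lit 415) (nat_lit 28) (nat_lit 0xbf33197e371afc60c5f95b2bf4cb97e56cafc5cb5f9f9cbf10d17e53dafe4be) b26655 (.nil))) (.nil))))) (.nil))))))))))))))))))))))))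
noncomputable def r28_1 : Rw Blk := .tok (nat_lit 14) (nat_lit 0x2f00005e0000bf1cf57eafcafdefa) (.hit (nat_lit 140) (nat_lit 0) (nat_lit 0x2f00005e0000bf1cf57eafcafdefa) b26693 (.one (nat_lit 3) (nat_lit 141) (nat_lit 1) (nat_lit 0x2f00005e0000be74c97d82d2fb95b) b26694 (.tok (nat_lit 6) (nat_lit 0x2f00005e0000bef5457e83cafd97a) (.hit (nat_lit 142) (nat_lit 7) (nat_lit 0x2f00005e0000beeec97e76d2fd7db) b26695 (.hit (nat_lit 143) (nat_lit 15) (nat_lit 0x2f00005e0000bef5457e83cafd97a) b26697 (.nil))) (.tok (nat_lit 9) (nat_lit 0x2f00005e0000bf04d57ea2eafdd5e) (.hit (nat_lit 144) (nat_lit 20) (nat_lit 0x2f00005e0000beeec97e76d2fd7db) b26695 (.hit (nat_lit 145) (nat_lit 28) (nat_lit 0x2f00005e0000bf04d57ea2eafdd5e) b26696 (.nil))) (.nil))))) (.tok (nat_lit 17) (nat_lit 0x2f00005e0000bf1e417e8e92fdc23) (.hit (nat_lit 134) (nat_lit 0) (nat_lit 0x2f00005e0000bf1e417e8e92fdc23) b26698 (.one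 (nat_lit 3) (nat_lit 135) (nat_lit 1) (nat_lit 0x2f00005e0000be60957d5a6afb44e) b26699 (.tok (nat_lit 6) (nat_lit 0x2f00005e0000beed197e7372fd76f) (.hit (nat_lit 136) (nat_lit 7) (nat_lit 0x2f00005e0000becd3d7e33bafcf78) b26702 (.hit (nat_lit 137) (nat_lit 15) (nat_lit 0x2f00005e0000beed197e7372fd76f) b26703 (.nil))) (.tok (nat_lit 9) (nat_lit 0x2f00005e0000bef9197e8b72fda6f) (.hit (nat_lit 138) (nat_lit 20) (nat_lit 0x2f00005e0000bed9157e4b6afd26e) b26700 (.hit (nat_lit 139) (nat_lit 28) (nat_lit 0x2f00005e0000bef9197e8b72fda6f) b26701 (.nil))) (.nil))))) (.tok (nat_lit 20) (nat_lit 0x2f00005e0000bf20097e9b82fdc71) (.hit (nat_lit 122) (nat_lit 0) (nat_lit 0x2f00005e0000bf20097e83a2fd975) b26682 (.one (nat_lit 3) (nat_lit 123) (nat_lit 1) (nat_lit 0x2f00005e0000be82ad7d9e9afbcd4) b26683 (.tok (nat_lit 6) (nat_lit 0x2f00005e0000bef8c17e8ac2fda59) (.hit (nat_lit 124) (nat_lit 7)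 (nat_lit 0x2f00005e0000bedd457e53cafd37a) b26686 (.hit (nat_lit 125) (nat_lit 15) (nat_lit 0x2f00005e0000bef8c17e8ac2fda59) b26687 (.nil))) (.tok (nat_lit 9) (nat_lit 0x2f00005e0000bf01217e9b82fdc71) (.hit (nat_lit 126) (nat_lit 20) (nat_lit 0x2f00005e0000bee0797e5a32fd447) b26684 (.hit (nat_lit 127) (nat_lit 28) (nat_lit 0x2f00005e0000bf01217e9b82fdc71) b26685 (.nil))) (.nil))))) (.tok (nat_lit 23) (nat_lit 0x2f00005e0000bf8cf97f23aafec57) (.hit (nat_lit 128) (nat_lit 0) (nat_lit 0x2f00005e0000bf8cf97f23aafec57) b26688 (.one (nat_lit 3) (nat_lit 129) (nat_lit 1) (nat_lit 0x2f00005e0000bf56d97ea43afdd67) b26689 (.tok (nat_lit 6) (nat_lit 0x2f00005e0000bf5c417edda2fe4b5) (.hit (nat_lit 130) (nat_lit 7) (nat_lit 0x2f00005e0000bf5c417eda7afe43b) b26691 (.hit (nat_lit 131) (nat_lit 15) (nat_lit 0x2f00005e0000bf45857edda2fe4b5) b26692 (.nil))) (.tok (nat_lit 9) (nat_lit 0x2f00005e0000bf4dd97ee09afe514)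 (.hit (nat_lit 132) (nat_lit 20) (nat_lit 0x2f00005e0000bee0797e5a32fd447) b26684 (.hit (nat_lit 133) (nat_lit 28) (nat_lit 0x2f00005e0000bf4dd97ee09afe514) b26690 (.nil))) (.nil))))) (.tok (nat_lit 26) (nat_lit 0x2f00005e0000bf90c57f5b02fe936) (.hit (nat_lit 260) (nat_lit 0) (nat_lit 0x2f00005e0000bf90c57f5b02fe936) b26748 (.one (nat_lit 3) (nat_lit 261) (nat_lit 1) (nat_lit 0x2f00005e0000be66dd7d66fafb5e0) b26749 (.tok (nat_lit 6) (nat_lit 0x2f00005e0000beae497df5d2fc7bb) (.hit (nat_lit 262) (nat_lit 7) (nat_lit 0x2f00005e0000beac6d7df21afc744) b26752 (.hit (nat_lit 263) (nat_lit 15) (nat_lit 0x2f00005e0000beae497df5d2fc7bb) b26753 (.nil))) (.tok (nat_lit 9) (nat_lit 0x2f00005e0000bf1d657ed40afe382) (.hit (nat_lit 264) (nat_lit 20) (nat_lit 0x2f00005e0000bf1d657ed40afe382) b26750 (.hit (nat_lit 265) (nat_lit 28) (nat_lit 0x2f00005e0000be60457d59cafb43a) b26751 (.nil))) (.nil)))))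 (.tok (nat_lit 29) (nat_lit 0x2f00005e0000bf26517eede2fdacf) (.hit (nat_lit 266) (nat_lit 0) (nat_lit 0x2f00005e0000bf26517eede2fd9ac) b26754 (.one (nat_lit 3) (nat_lit 267) (nat_lit 1) (nat_lit 0x2f00005e0000be70657d7a0afb842) b26755 (.tok (nat_lit 6) (nat_lit 0x2f00005e0000befa997e8e72fdacf) (.hit (nat_lit 268) (nat_lit 7) (nat_lit 0x2f00005e0000beefdd7e78fafd820) b26758 (.hit (nat_lit 269) (nat_lit 15) (nat_lit 0x2f00005e0000befa997e8e72fdacf) b26759 (.nil))) (.tok (nat_lit 9) (nat_lit 0x2f00005e0000bee1757e5c2afd486) (.hit (nat_lit 270) (nat_lit 20) (nat_lit 0x2f00005e0000bea3097ddf52fc4eb) b26756 (.hit (nat_lit 271) (nat_lit 28) (nat_lit 0x2f00005e0000bee1757e5c2afd486) b26757 (.nil))) (.nil))))) (.tok (nat_lit 32) (nat_lit 0x2f00005e0000bf9a9d7f72e2fe669) (.hit (nat_lit 272) (nat_lit 0) (nat_lit 0x2f00005e0000bf9a9d7f72e2fe669) b26760 (.one (nat_lit 3) (nat_lit 273) (nat_lit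 1) (nat_lit 0x2f00005e0000bea7097de752fc5eb) b26761 (.tok (nat_lit 6) (nat_lit 0x2f00005e0000bf05357ea3aafdd76) (.hit (nat_lit 274) (nat_lit 7) (nat_lit 0x2f00005e0000bf05357ea3aafdd76) b26764 (.hit (nat_lit 275) (nat_lit 15) (nat_lit 0x2f00005e0000bef5d17e84e2fd99d) b26765 (.nil))) (.tok (nat_lit 9) (nat_lit 0x2f00005e0000befd417e93c2fdb79) (.hit (nat_lit 276) (nat_lit 20) (nat_lit 0x2f00005e0000beef557e77eafd7fe) b26762 (.hit (nat_lit 277) (nat_lit 28) (nat_lit 0x2f00005e0000befd417e93c2fdb79) b26763 (.nil))) (.nil))))) (.tok (nat_lit 35) (nat_lit 0x2f00005e0000bf5b157f3962fe31e) (.hit (nat_lit 278) (nat_lit 0) (nat_lit 0x2f00005e0000bf5b157f3962fe31e) b26766 (.one (nat_lit 3) (nat_lit 279) (nat_lit 1) (nat_lit 0x2f00005e0000be82ad7d9e9afbcd4) b26683 (.tok (nat_lit 6) (nat_lit 0x2f00005e0000bea2917dde62fc4cd) (.hit (nat_lit 280) (nat_lit 7) (nat_lit 0x2f00005e0000bea2917dde62fc4cd)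 b26768 (.hit (nat_lit 281) (nat_lit 15) (nat_lit 0x2f00005e0000be5a0d7d4d5afb2ac) b26769 (.nil))) (.tok (nat_lit 9) (nat_lit 0x2f00005e0000bedf797e5832fd407) (.hit (nat_lit 282) (nat_lit 20) (nat_lit 0x2f00005e0000bed5a57e448afd192) b26706 (.hit (nat_lit 283) (nat_lit 28) (nat_lit 0x2f00005e0000bedf797e5832fd407) b26767 (.nil))) (.nil))))) (.tok (nat_lit 38) (nat_lit 0x2f00005e0000bf6ec17f733afef89) (.hit (nat_lit 215) (nat_lit 0) (nat_lit 0x2f00005e0000bf6ec17f733afef89) b26770 (.one (nat_lit 3) (nat_lit 216) (nat_lit 1) (nat_lit 0x2f00005e0000be94b57dc2aafc156) b26771 (.tok (nat_lit 6) (nat_lit 0x2f00005e0000bee93d7e6bbafd678) (.hit (nat_lit 217) (nat_lit 7) (nat_lit 0x2f00005e0000bee93d7e6bbafd678) b26773 (.hit (nat_lit 218) (nat_lit 15) (nat_lit 0x2f00005e0000bea49d7de27afc550) b26774 (.nil))) (.tok (nat_lit 9) (nat_lit 0x2f00005e0000bea3097ddf52fc4eb) (.hit (nat_lit 219)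 (nat_lit 20) (nat_lit 0x2f00005e0000bea3097ddf52fc4eb) b26756 (.hit (nat_lit 220) (nat_lit 28) (nat_lit 0x2f00005e0000be8a5d7dadfafbec0) b26772 (.nil))) (.nil))))) (.tok (nat_lit 41) (nat_lit 0x2f00005e0000c0000180e37b00fc4) (.hit (nat_lit 226) (nat_lit 0) (nat_lit 0x2f00005e0000bf90b17fa8e2fea4a) b26775 (.one (nat_lit 3) (nat_lit 227) (nat_lit 1) (nat_lit 0x2f00005e0000bf6c657f5fc2fdf3e) b26776 (.tok (nat_lit 6) (nat_lit 0x2f00005e0000bf9f197f804afeb8e) (.hit (nat_lit 228) (nat_lit 7) (nat_lit 0x2f00005e0000bf9f197f804afeb8e) b26779 (.hit (nat_lit 229) (nat_lit 15) (nat_lit 0x2f00005e0000bf63c97f5bf2fe2da) b26780 (.nil))) (.tok (nat_lit 9) (nat_lit 0x2f00005e0000c0000180e37b00fc4) (.hit (nat_lit 230) (nat_lit 20) (nat_lit 0x2f00005e0000c0000180e37b00fc4) b26777 (.hit (nat_lit 231) (nat_lit 28) (nat_lit 0x2f00005e0000bf6c797f69e2fe8b9) b26778 (.nil))) (.nil))))) (.tok (nat_lit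 44) (nat_lit 0x2f00005e0000bf9a457fedd2ff2c6) (.hit (nat_lit 240) (nat_lit 0) (nat_lit 0x2f00005e0000bf9a457fedd2ff2c6) b26781 (.one (nat_lit 3) (nat_lit 241) (nat_lit 1) (nat_lit 0x2f00005e0000bead817df442fc789) b26782 (.tok (nat_lit 6) (nat_lit 0x2f00005e0000bebd3d7e13bafcb78) (.hit (nat_lit 242) (nat_lit 7) (nat_lit 0x2f00005e0000bebd3d7e13bafcb78) b26785 (.hit (nat_lit 243) (nat_lit 15) (nat_lit 0x2f00005e0000be9e817dd642fc3c9) b26786 (.nil))) (.tok (nat_lit 9) (nat_lit 0x2f00005e0000bf07397ea7b2fddf7) (.hit (nat_lit 244) (nat_lit 20) (nat_lit 0x2f00005e0000beffa97e9892fdc13) b26783 (.hit (nat_lit 245) (nat_lit 28) (nat_lit 0x2f00005e0000bf07397ea7b2fddf7) b26784 (.nil))) (.nil))))) (.tok (nat_lit 47) (nat_lit 0x2f00005e0000bff83180628affcd9) (.hit (nat_lit 254) (nat_lit 0) (nat_lit 0x2f00005e0000bf87697fa21afe5f3) b26787 (.one (nat_lit 3) (nat_lit 255) (nat_lit 1) (nat_lit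 0x2f00005e0000bf232d7e543afcbac) b26788 (.tok (nat_lit 6) (nat_lit 0x2f00005e0000bff83180628affcd9) (.hit (nat_lit 256) (nat_lit 7) (nat_lit 0x2f00005e0000bff83180628affcd9) b26791 (.hit (nat_lit 257) (nat_lit 15) (nat_lit 0x2f00005e0000bf50f17ed362fe153) b26792 (.nil))) (.tok (nat_lit 9) (nat_lit 0x2f00005e0000bf98d17f6292fe6bd) (.hit (nat_lit 258) (nat_lit 20) (nat_lit 0x2f00005e0000bf98d17f6292fe6bd) b26789 (.hit (nat_lit 259) (nat_lit 28) (nat_lit 0x2f00005e0000bf4a297ec00afd793) b26790 (.nil))) (.nil))))) (.tok (nat_lit 50) (nat_lit 0x2f00005e0000bf23917ee96afe024) (.hit (nat_lit 146) (nat_lit 0) (nat_lit 0x2f00005e0000bf23917ee96afd94d) b26704 (.one (nat_lit 3) (nat_lit 147) (nat_lit 1) (nat_lit 0x2f00005e0000be45fd7d253afada8) b26705 (.tok (nat_lit 6) (nat_lit 0x2f00005e0000bf0fed7eb91afe024) (.hit (nat_lit 148) (nat_lit 7) (nat_lit 0x2f00005e0000bf0fed7eb91afe024) b26708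 (.hit (nat_lit 149) (nat_lit 15) (nat_lit 0x2f00005e0000be60197d5972fb42f) b26709 (.nil))) (.tok (nat_lit 9) (nat_lit 0x2f00005e0000bed5a57e448afd192) (.hit (nat_lit 150) (nat_lit 20) (nat_lit 0x2f00005e0000bed5a57e448afd192) b26706 (.hit (nat_lit 151) (nat_lit 28) (nat_lit 0x2f00005e0000bea2cd7ddedafc4dc) b26707 (.nil))) (.nil))))) (.tok (nat_lit 53) (nat_lit 0x2f00005e0000bfbdf9806d22ffb9a) (.hit (nat_lit 152) (nat_lit 0) (nat_lit 0x2f00005e0000bf89397f8c22fecc1) b26710 (.one (nat_lit 3) (nat_lit 153) (nat_lit 1) (nat_lit 0x2f00005e0000bfa4a17f6002fe6ae) b26711 (.tok (nat_lit 6) (nat_lit 0x2f00005e0000bfb07d806d22ffb9a) (.hit (nat_lit 154) (nat_lit 7) (nat_lit 0x2f00005e0000bfb07d806d22ffb9a) b26714 (.hit (nat_lit 155) (nat_lit 15) (nat_lit 0x2f00005e0000bf89dd7fb712febcc) b26715 (.nil))) (.tok (nat_lit 9) (nat_lit 0x2f00005e0000bfbdf97fea22ff406) (.hit (nat_lit 156) (nat_lit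 20) (nat_lit 0x2f00005e0000bf014d7e9bdafdc7c) b26712 (.hit (nat_lit 157) (nat_lit 28) (nat_lit 0x2f00005e0000bfbdf97fea22ff406) b26713 (.nil))) (.nil))))) (.tok (nat_lit 56) (nat_lit 0x2f00005e0000bf3a797ee1c2fddd2) (.hit (nat_lit 164) (nat_lit 0) (nat_lit 0x2f00005e0000bf3a797ee1c2fddd2) b26716 (.one (nat_lit 3) (nat_lit 165) (nat_lit 1) (nat_lit 0x2f00005e0000be82ad7d9e9afbcd4) b26683 (.tok (nat_lit 6) (nat_lit 0x2f00005e0000bec6f97e2732fcde7) (.hit (nat_lit 166) (nat_lit 7) (nat_lit 0x2f00005e0000bec6f97e2732fcde7) b26719 (.hit (nat_lit 167) (nat_lit 15) (nat_lit 0x2f00005e0000be88657daa0afbe42) b26720 (.nil))) (.tok (nat_lit 9) (nat_lit 0x2f00005e0000bee48d7e625afd54c) (.hit (nat_lit 168) (nat_lit 20) (nat_lit 0x2f00005e0000bed7697e4812fd203) b26717 (.hit (nat_lit 169) (nat_lit 28) (nat_lit 0x2f00005e0000bee48d7e625afd54c) b26718 (.nil))) (.nil))))) (.tok (nat_lit 59) (nat_lit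 0x2f00005e0000bf64457f94fafe5b7) (.hit (nat_lit 158) (nat_lit 0) (nat_lit 0x2f00005e0000bf64457f94fafe5b7) b26721 (.one (nat_lit 3) (nat_lit 159) (nat_lit 1) (nat_lit 0x2f00005e0000be57297d4792fb1f3) b26722 (.tok (nat_lit 6) (nat_lit 0x2f00005e0000bed9cd7e4cdafd29c) (.hit (nat_lit 160) (nat_lit 7) (nat_lit 0x2f00005e0000becf757e382afd006) b26725 (.hit (nat_lit 161) (nat_lit 15) (nat_lit 0x2f00005e0000bed9cd7e4cdafd29c) b26726 (.nil))) (.tok (nat_lit 9) (nat_lit 0x2f00005e0000bede697e5612fd3c3) (.hit (nat_lit 162) (nat_lit 20) (nat_lit 0x2f00005e0000bede697e5612fd3c3) b26723 (.hit (nat_lit 163) (nat_lit 28) (nat_lit 0x2f00005e0000bea7c17de8c2fc619) b26724 (.nil))) (.nil))))) (.tok (nat_lit 62) (nat_lit 0x2f00005e0000bf1ed57efb4afe86a) (.hit (nat_lit 170) (nat_lit 0) (nat_lit 0x2f00005e0000bf1ed57efb4afe86a) b26727 (.one (nat_lit 3) (nat_lit 171) (nat_lit 1) (nat_lit 0x2f00005e0000be83b97da0b2fbd17)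 b26728 (.tok (nat_lit 6) (nat_lit 0x2f00005e0000bea39d7de07afc510) (.hit (nat_lit 172) (nat_lit 7) (nat_lit 0x2f00005e0000bea39d7de07afc510) b26731 (.hit (nat_lit 173) (nat_lit 15) (nat_lit 0x2f00005e0000be976d7dc81afc204) b26732 (.nil))) (.tok (nat_lit 9) (nat_lit 0x2f00005e0000bef0617e7a02fd841) (.hit (nat_lit 174) (nat_lit 20) (nat_lit 0x2f00005e0000bef0617e7a02fd841) b26729 (.hit (nat_lit 175) (nat_lit 28) (nat_lit 0x2f00005e0000bea4e97de312fc563) b26730 (.nil))) (.nil))))) (.tok (nat_lit 65) (nat_lit 0x2f00005e0000bf63917fa13affd28) (.hit (nat_lit 181) (nat_lit 0) (nat_lit 0x2f00005e0000bf61d17fa13affd28) b26733 (.one (nat_lit 3) (nat_lit 182) (nat_lit 1) (nat_lit 0x2f00005e0000bf46d17f4a72ff24f) b26734 (.tok (nat_lit 6) (nat_lit 0x2f00005e0000bf49e57f515aff32c) (.hit (nat_lit 183) (nat_lit 7) (nat_lit 0x2f00005e0000bebe497e15d2fcbbb) b26737 (.hit (nat_lit 184) (nat_lit 15)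 (nat_lit 0x2f00005e0000bf49e57f515aff32c) b26738 (.nil))) (.tok (nat_lit 9) (nat_lit 0x2f00005e0000bf63917f86e2ff9dd) (.hit (nat_lit 185) (nat_lit 20) (nat_lit 0x2f00005e0000bf63917f86e2ff9dd) b26735 (.hit (nat_lit 186) (nat_lit 28) (nat_lit 0x2f00005e0000bf40317f5c02ff481) b26736 (.nil))) (.nil))))) (.tok (nat_lit 68) (nat_lit 0x2f00005e0000bf20657ed4e2fe7d3) (.hit (nat_lit 209) (nat_lit 0) (nat_lit 0x2f00005e0000bf20657ed4e2fe7d3) b26739 (.one (nat_lit 3) (nat_lit 210) (nat_lit 1) (nat_lit 0x2f00005e0000be82ad7d9e9afbcd4) b26683 (.tok (nat_lit 6) (nat_lit 0x2f00005e0000befff57e992afdc26) (.hit (nat_lit 211) (nat_lit 7) (nat_lit 0x2f00005e0000bec8057e294afce2a) b26740 (.hit (nat_lit 212) (nat_lit 15) (nat_lit 0x2f00005e0000befff57e992afdc26) b26741 (.nil))) (.tok (nat_lit 9) (nat_lit 0x2f00005e0000beeec97e76d2fd7db) (.hit (nat_lit 213) (nat_lit 20) (nat_lit 0x2f00005e0000beeec97e76d2fd7db)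 b26695 (.hit (nat_lit 214) (nat_lit 28) (nat_lit 0x2f00005e0000be88657daa0afbe42) b26720 (.nil))) (.nil))))) (.tok (nat_lit 71) (nat_lit 0x2f00005e0000bf3a017f80aaff8d6) (.hit (nat_lit 195) (nat_lit 0) (nat_lit 0x2f00005e0000bf3a017f80aaff8d6) b26742 (.one (nat_lit 3) (nat_lit 196) (nat_lit 1) (nat_lit 0x2f00005e0000bec9617e2c02fce81) b26743 (.tok (nat_lit 6) (nat_lit 0x2f00005e0000bf157d7ec43afe188) (.hit (nat_lit 197) (nat_lit 7) (nat_lit 0x2f00005e0000beef257e778afd7f2) b26746 (.hit (nat_lit 198) (nat_lit 15) (nat_lit 0x2f00005e0000bf157d7ec43afe188) b26747 (.nil))) (.tok (nat_lit 9) (nat_lit 0x2f00005e0000befd517e93e2fdb7d) (.hit (nat_lit 199) (nat_lit 20) (nat_lit 0x2f00005e0000befd517e93e2fdb7d) b26744 (.hit (nat_lit 200) (nat_lit 28) (nat_lit 0x2f00005e0000befc657e920afdb42) b26745 (.nil))) (.nil))))) (.nil))))))))))))))))))))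
noncomputable def r28_2 : Rw Blk := .tok (nat_lit 3) (nat_lit 0x2f00005e0000bfa6057f291afe85f) (.hit (nat_lit 18) (nat_lit 0) (nat_lit 0x2f00005e0000bfa5397f291afe716) b26811 (.tok (nat_lit 6) (nat_lit 0x2f00005e0000bfa6057f2652fe85f) (.hit (nat_lit 19) (nat_lit 7) (nat_lit 0x2f00005e0000bfa6057f2652fe85f) b26814 (.hit (nat_lit 20) (nat_lit 15) (nat_lit 0x2f00005e0000bf65757efe42fdeed) b26815 (.nil))) (.tok (nat_lit 9) (nat_lit 0x2f00005e0000bf7f097f18aafe202) (.hit (nat_lit 21) (nat_lit 20) (nat_lit 0x2f00005e0000bf15657e6bcafd54f) b26812 (.hit (nat_lit 22) (nat_lit 28) (nat_lit 0x2f00005e0000bf7f097f18aafe202) b26813 (.nil))) (.nil)))) (.tok (nat_lit 6) (nat_lit 0x2f00005e0000c0b34181ab630328f) (.hit (nat_lit 9) (nat_lit 0) (nat_lit 0x2f00005e0000bf9fb97fb5caff650) b26802 (.tok (nat_lit 3) (nat_lit 0x2f00005e0000c06af181020b01fb9) (.hit (nat_lit 10) (nat_lit 1) (nat_lit 0x2f00005e0000bf90497f758aff26e)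 b26803 (.one (nat_lit 67) (nat_lit 11) (nat_lit 2) (nat_lit 0x2f00005e0000c06af181020b01fb9) b26804 (.nil))) (.tok (nat_lit 6) (nat_lit 0x2f00005e0000c0b34181ab630328f) (.hit (nat_lit 12) (nat_lit 7) (nat_lit 0x2f00005e0000c01ee580af9b01605) b26805 (.hit (nat_lit 16) (nat_lit 15) (nat_lit 0x2f00005e0000bfc721803b8aff8ff) b26809 (.tok (nat_lit 55) (nat_lit 0x2f00005e0000c0b34181ab630328f) (.hit (nat_lit 13) (nat_lit 8) (nat_lit 0x2f00005e0000c06f2d81585b02a59) b26806 (.hit (nat_lit 17) (nat_lit 16) (nat_lit 0x2f00005e0000c0b34181ab630328f) b26810 (.tok (nat_lit 6) (nat_lit 0x2f00005e0000c0468d80fe2301edb) (.hit (nat_lit 14) (nat_lit 9) (nat_lit 0x2f00005e0000c0468d80fe2301edb) b26807 (.one (nat_lit 55) (nat_lit 15) (nat_lit 10) (nat_lit 0x2f00005e0000c0358580f03301c58) b26808 (.nil))) (.nil)))) (.nil)))) (.nil)))) (.tok (nat_lit 9) (nat_lit 0x2f00005e0000bfca157fd9b30030c) (.hit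 (nat_lit 0) (nat_lit 0) (nat_lit 0x2f00005e0000bf8f017f3ceaff05d) b26793 (.tok (nat_lit 3) (nat_lit 0x2f00005e0000bf79457f3812feed8) (.hit (nat_lit 1) (nat_lit 1) (nat_lit 0x2f00005e0000bf25117e7862fd6e2) b26794 (.one (nat_lit 55) (nat_lit 2) (nat_lit 3) (nat_lit 0x2f00005e0000bf79457f3812feed8) b26795 (.nil))) (.tok (nat_lit 9) (nat_lit 0x2f00005e0000bfca157fd9b30030c) (.hit (nat_lit 3) (nat_lit 20) (nat_lit 0x2f00005e0000bf24757e8e72fd9a4) b26796 (.hit (nat_lit 7) (nat_lit 28) (nat_lit 0x2f00005e0000bf29c17e4d12fd178) b26800 (.tok (nat_lit 67) (nat_lit 0x2f00005e0000bfca157fd9b30030c) (.hit (nat_lit 4) (nat_lit 21) (nat_lit 0x2f00005e0000bf90a57f66d2ff4b0) b26797 (.hit (nat_lit 8) (nat_lit 29) (nat_lit 0x2f00005e0000bfc8d17fd72b002bb) b26801 (.tok (nat_lit 9) (nat_lit 0x2f00005e0000bfca157fd9b30030c) (.hit (nat_lit 5) (nat_lit 22) (nat_lit 0x2f00005e0000bfa2e97f8b5aff941) b26798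 (.one (nat_lit 67) (nat_lit 6) (nat_lit 23) (nat_lit 0x2f00005e0000bfca157fd9b30030c) b26799 (.nil))) (.nil)))) (.nil)))) (.nil)))) (.nil)))
noncomputable def r28_3 : Rw Blk := .tok (nat_lit 3) (nat_lit 0x2f00005e0000c029e1805fe3009b9) (.hit (nat_lit 0) (nat_lit 0) (nat_lit 0x2f00005e0000bf86497f3b42fe3a1) b26816 (.tok (nat_lit 9) (nat_lit 0x2f00005e0000bf758d7f5312fec79) (.hit (nat_lit 1) (nat_lit 20) (nat_lit 0x2f00005e0000bf16017e93fafd496) b26817 (.hit (nat_lit 4) (nat_lit 28) (nat_lit 0x2f00005e0000bf0d357e8262fd263) b26820 (.one (nat_lit 56) (nat_lit 5) (nat_lit 31) (nat_lit 0x2f00005e0000bf517d7f0af2fe375) b26821 (.tok (nat_lit 68) (nat_lit 0x2f00005e0000bf758d7f5312fec79) (.hit (nat_lit 2) (nat_lit 26) (nat_lit 0x2f00005e0000bf5fa17f273afe6fe) b26818 (.hit (nat_lit 6) (nat_lit 32) (nat_lit 0x2f00005e0000bf52b17f0d5afe3c2) b26822 (.one (nat_lit 9) (nat_lit 3) (nat_lit 27)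 (nat_lit 0x2f00005e0000bf758d7f5312fec79) b26819 (.nil)))) (.nil))))) (.tok (nat_lit 64) (nat_lit 0x2f00005e0000bf74d57f51a2fec4b) (.hit (nat_lit 7) (nat_lit 50) (nat_lit 0x2f00005e0000bf52257f0c42fe39f) b26823 (.hit (nat_lit 8) (nat_lit 51) (nat_lit 0x2f00005e0000bf74d57f51a2fec4b) b26824 (.nil))) (.tok (nat_lit 67) (nat_lit 0x2f00005e0000c029e1805fe3009b9) (.hit (nat_lit 9) (nat_lit 52) (nat_lit 0x2f00005e0000c029e1805fe3009b9) b26825 (.one (nat_lit 3) (nat_lit 15) (nat_lit 58) (nat_lit 0x2f00005e0000bf52197f0c2afe39c) b26831 (.tok (nat_lit 9) (nat_lit 0x2f00005e0000bfa6e97fb5caff8d0) (.hit (nat_lit 10) (nat_lit 53) (nat_lit 0x2f00005e0000bf68f17f39dafe952) b26826 (.hit (nat_lit 13) (nat_lit 56) (nat_lit 0x2f00005e0000bf48497ef88afe128) b26829 (.tok (nat_lit 67) (nat_lit 0x2f00005e0000bfa6e97fb5caff8d0) (.hit (nat_lit 11) (nat_lit 54) (nat_lit 0x2f00005e0000bfa6e97fb5caff8d0)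 b26827 (.hit (nat_lit 14) (nat_lit 57) (nat_lit 0x2f00005e0000bf7f097f660afeed8) b26830 (.one (nat_lit 9) (nat_lit 12) (nat_lit 55) (nat_lit 0x2f00005e0000bf63dd7f2fb2fe80d) b26828 (.nil)))) (.nil)))) (.nil)))) (.one (nat_lit 70) (nat_lit 16) (nat_lit 60) (nat_lit 0x2f00005e0000bf4f257f0642fe2df) b26832 (.nil)))))) (.tok (nat_lit 6) (nat_lit 0x2f00005e0000c0971d81aeb303408) (.hit (nat_lit 17) (nat_lit 0) (nat_lit 0x2f00005e0000c0097980a7c300c41) b26833 (.tok (nat_lit 6) (nat_lit 0x2f00005e0000c026dd80f8a302779) (.hit (nat_lit 18) (nat_lit 7) (nat_lit 0x2f00005e0000bfed5180973300ccc) b26834 (.hit (nat_lit 21) (nat_lit 15) (nat_lit 0x2f00005e0000bf61457f1712fd8e0) b26837 (.tok (nat_lit 56) (nat_lit 0x2f00005e0000c026dd80f8a302779) (.hit (nat_lit 19) (nat_lit 13) (nat_lit 0x2f00005e0000bfc4f5807f7b00fe7) b26835 (.hit (nat_lit 23) (nat_lit 19) (nat_lit 0x2f00005e0000bf8a357fde72ff6b7)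 b26839 (.one (nat_lit 6) (nat_lit 20) (nat_lit 14) (nat_lit 0x2f00005e0000c026dd80f8a302779) b26836 (.nil)))) (.one (nat_lit 68) (nat_lit 22) (nat_lit 18) (nat_lit 0x2f00005e0000bff825804c430047e) b26838 (.nil))))) (.tok (nat_lit 52) (nat_lit 0x2f00005e0000c0864180c5bb0109a) (.hit (nat_lit 24) (nat_lit 39) (nat_lit 0x2f00005e0000c016c180c5bb0109a) b26840 (.hit (nat_lit 25) (nat_lit 40) (nat_lit 0x2f00005e0000c0864180ab1300ea4) b26841 (.nil))) (.tok (nat_lit 55) (nat_lit 0x2f00005e0000c0971d81aeb303408) (.hit (nat_lit 26) (nat_lit 41) (nat_lit 0x2f00005e0000c0971d81aeb303408) b26842 (.one (nat_lit 3) (nat_lit 32) (nat_lit 47) (nat_lit 0x2f00005e0000c03f4580e68301d02) b26848 (.tok (nat_lit 6) (nat_lit 0x2f00005e0000c081c581738302e18) (.hit (nat_lit 27) (nat_lit 42) (nat_lit 0x2f00005e0000bfdaa1807dc300b33) b26843 (.hit (nat_lit 30) (nat_lit 45) (nat_lit 0x2f00005e0000c0494581244301f09)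 b26846 (.tok (nat_lit 55) (nat_lit 0x2f00005e0000c081c581738302e18) (.hit (nat_lit 28) (nat_lit 43) (nat_lit 0x2f00005e0000c081c58166ab02e18) b26844 (.hit (nat_lit 31) (nat_lit 46) (nat_lit 0x2f00005e0000c01b2d8094eb015af) b26847 (.one (nat_lit 6) (nat_lit 29) (nat_lit 44) (nat_lit 0x2f00005e0000c06c31817383022ef) b26845 (.nil)))) (.nil)))) (.nil)))) (.one (nat_lit 58) (nat_lit 33) (nat_lit 49) (nat_lit 0x2f00005e0000c0488180a8630140c) b26849 (.nil)))))) (.nil))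
noncomputable def r28_4 : Rw Blk := .tok (nat_lit 3) (nat_lit 0x2f00005e0000bf46597eeee2fe7e3) (.hit (nat_lit 14) (nat_lit 0) (nat_lit 0x2f00005e0000bf3ba17eeee2fe7e3) b26864 (.tok (nat_lit 6) (nat_lit 0x2f00005e0000befbcd7dfdcafd09c) (.hit (nat_lit 15) (nat_lit 7) (nat_lit 0x2f00005e0000bea6cd7dc01afb9ae) b26867 (.hit (nat_lit 16) (nat_lit 15) (nat_lit 0x2f00005e0000befbcd7dfdcafd09c) b26868 (.nil))) (.tok (nat_lit 9) (nat_lit 0x2f00005e0000bf46597eb242fe708) (.hit (nat_lit 17) (nat_lit 20) (nat_lit 0x2f00005e0000bf46597eb242fe708) b26865 (.hit (nat_lit 18) (nat_lit 28) (nat_lit 0x2f00005e0000bf04857e872afe305) b26866 (.nil))) (.nil)))) (.tok (nat_lit 6) (nat_lit 0x2f00005e0000bf9e0d7fa992ff77e) (.hit (nat_lit 0) (nat_lit 0) (nat_lit 0x2f00005e0000bf5c017fa992ff59f) b26850 (.tok (nat_lit 3) (nat_lit 0x2f00005e0000bf5df17ef392fe777) (.hit (nat_lit 1) (nat_lit 1) (nat_lit 0x2f00005e0000bed4c57e3242fc4f4)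 b26851 (.one (nat_lit 67) (nat_lit 2) (nat_lit 2) (nat_lit 0x2f00005e0000bf5df17ef392fe777) b26852 (.nil))) (.tok (nat_lit 6) (nat_lit 0x2f00005e0000bf9e0d7f89a2ff77e) (.hit (nat_lit 3) (nat_lit 7) (nat_lit 0x2f00005e0000bf13b57df0bafd4e8) b26853 (.hit (nat_lit 7) (nat_lit 15) (nat_lit 0x2f00005e0000bf04917e5672fd11f) b26857 (.tok (nat_lit 55) (nat_lit 0x2f00005e0000bf9e0d7f89a2ff77e) (.hit (nat_lit 4) (nat_lit 8) (nat_lit 0x2f00005e0000bf525d7e8442fe492) b26854 (.hit (nat_lit 8) (nat_lit 16) (nat_lit 0x2f00005e0000bf859d7f28baff162) b26858 (.tok (nat_lit 6) (nat_lit 0x2f00005e0000bf9e0d7f89a2ff77e) (.hit (nat_lit 5) (nat_lit 9) (nat_lit 0x2f00005e0000bf53f97ea23afe4f9) b26855 (.one (nat_lit 55) (nat_lit 6) (nat_lit 10) (nat_lit 0x2f00005e0000bf9e0d7f89a2ff77e) b26856 (.nil))) (.nil)))) (.nil)))) (.nil)))) (.tok (nat_lit 9) (nat_lit 0x2f00005e0000c001558085e300e24) (.hit (nat_lit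 9) (nat_lit 0) (nat_lit 0x2f00005e0000bf7f2d7fe632ffd7e) b26859 (.tok (nat_lit 3) (nat_lit 0x2f00005e0000c001558085e300e24) (.hit (nat_lit 10) (nat_lit 1) (nat_lit 0x2f00005e0000bf6ae97f7fa2ff092) b26860 (.one (nat_lit 55) (nat_lit 11) (nat_lit 3) (nat_lit 0x2f00005e0000c001558085e300e24) b26861 (.nil))) (.tok (nat_lit 9) (nat_lit 0x2f00005e0000bf47297f6c72fece7) (.hit (nat_lit 12) (nat_lit 20) (nat_lit 0x2f00005e0000bf42a97f6c72fece7) b26862 (.hit (nat_lit 13) (nat_lit 28) (nat_lit 0x2f00005e0000bf47297f3beafe739) b26863 (.nil))) (.nil)))) (.nil)))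
noncomputable def r28_5 : Rw Blk := .tok (nat_lit 3) (nat_lit 0x5e0000bc00017faf0300041) (.hit (nat_lit 0) (nat_lit 0) (nat_lit 0x5e0000bc00017ee8fafec90) b26869 (.tok (nat_lit 6) (nat_lit 0x5e0000bc00017f393afeabd) (.hit (nat_lit 1) (nat_lit 7) (nat_lit 0x5e0000bc00017e61b2fcfcc) b26870 (.hit (nat_lit 6) (nat_lit 15) (nat_lit 0x5e0000bc00017dedeafc153) b26875 (.tok (nat_lit 14) (nat_lit 0x5e0000bc00017ecc12fdd18) (.hit (nat_lit 2) (nat_lit 11) (nat_lit 0x5e0000bc00017e9a7afd6e5) b26871 (.hit (nat_lit 7) (nat_lit 17) (nat_lit 0x5e0000bc00017ea262fd7e2) b26876 (.one (nat_lit 9) (nat_lit 3) (nat_lit 12) (nat_lit 0x5e0000bc00017ecc12fdd18) b26872 (.nil)))) (.tok (nat_lit 56) (nat_lit 0x5e0000bc00017f393afeabd) (.hit (nat_lit 4) (nat_lit 13) (nat_lit 0x5e0000bc00017ef9dafe2d1) b26873 (.hit (nat_lit 8) (nat_lit 19) (nat_lit 0x5e0000bc00017e8622fd45a) b26877 (.one (nat_lit 6) (nat_lit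 5) (nat_lit 14) (nat_lit 0x5e0000bc00017f393afeabd) b26874 (.nil)))) (.nil))))) (.tok (nat_lit 52) (nat_lit 0x5e0000bc00017ed1fafddd5) (.hit (nat_lit 9) (nat_lit 39) (nat_lit 0x5e0000bc00017ece62fdd62) b26878 (.hit (nat_lit 10) (nat_lit 40) (nat_lit 0x5e0000bc00017ed1fafddd5) b26879 (.nil))) (.tok (nat_lit 55) (nat_lit 0x5e0000bc00017faf0300041) (.hit (nat_lit 11) (nat_lit 41) (nat_lit 0x5e0000bc00017faf0300041) b26880 (.tok (nat_lit 3) (nat_lit 0x5e0000bc00017f6eb2ff16c) (.hit (nat_lit 17) (nat_lit 47) (nat_lit 0x5e0000bc00017ef87afe2a5) b26886 (.one (nat_lit 67) (nat_lit 18) (nat_lit 48) (nat_lit 0x5e0000bc00017f6eb2ff16c) b26887 (.nil))) (.tok (nat_lit 6) (nat_lit 0x5e0000bc00017f4c4afed1f) (.hit (nat_lit 12) (nat_lit 42) (nat_lit 0x5e0000bc00017f00f2fe3b4) b26881 (.hit (nat_lit 15) (nat_lit 45) (nat_lit 0x5e0000bc00017eda9afdee9) b26884 (.tok (nat_lit 55) (nat_lit 0x5e0000bc00017f4c4afed1f)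 (.hit (nat_lit 13) (nat_lit 43) (nat_lit 0x5e0000bc00017f4c4afed1f) b26882 (.hit (nat_lit 16) (nat_lit 46) (nat_lit 0x5e0000bc00017f395afeac1) b26885 (.one (nat_lit 6) (nat_lit 14) (nat_lit 44) (nat_lit 0x5e0000bc00017f3802fea96) b26883 (.nil)))) (.nil)))) (.nil)))) (.one (nat_lit 58) (nat_lit 19) (nat_lit 49) (nat_lit 0x5e0000bc00017ecbaafdd0b) b26888 (.nil)))))) (.tok (nat_lit 9) (nat_lit 0x5e0000bc000181499b03362) (.hit (nat_lit 20) (nat_lit 0) (nat_lit 0x5e0000bc00017eea2affe05) b26889 (.tok (nat_lit 9) (nat_lit 0x5e0000bc000181499b03362) (.hit (nat_lit 21) (nat_lit 20) (nat_lit 0x5e0000bc00017eea62ff03a) b26890 (.hit (nat_lit 26) (nat_lit 28) (nat_lit 0x5e0000bc00017dfaa2fe718) b26895 (.tok (nat_lit 14) (nat_lit 0x5e0000bc000181499b03362) (.hit (nat_lit 22) (nat_lit 24) (nat_lit 0x5e0000bc000181499b03362) b26891 (.hit (nat_lit 27) (nat_lit 30) (nat_lit 0x5e0000bc00017ef6b2fff45)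 b26896 (.one (nat_lit 6) (nat_lit 23) (nat_lit 25) (nat_lit 0x5e0000bc000181197b030b3) b26892 (.nil)))) (.one (nat_lit 56) (nat_lit 28) (nat_lit 31) (nat_lit 0x5e0000bc00017ee76affe78) b26897 (.tok (nat_lit 68) (nat_lit 0x5e0000bc00017ff1eb00a8a) (.hit (nat_lit 24) (nat_lit 26) (nat_lit 0x5e0000bc00017ff1eb00a8a) b26893 (.hit (nat_lit 29) (nat_lit 32) (nat_lit 0x5e0000bc00017eeb52ff3f4) b26898 (.one (nat_lit 9) (nat_lit 25) (nat_lit 27) (nat_lit 0x5e0000bc00017f224300059) b26894 (.nil)))) (.nil)))))) (.nil))) (.nil))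
noncomputable def r28_6 : Rw Blk := .tok (nat_lit 14) (nat_lit 0x5e0000bc00017eb842fe203) (.hit (nat_lit 140) (nat_lit 0) (nat_lit 0x5e0000bc00017e613afd186) b26911 (.one (nat_lit 3) (nat_lit 141) (nat_lit 1) (nat_lit 0x5e0000bc00017cf0a2fa90f) b26912 (.tok (nat_lit 6) (nat_lit 0x5e0000bc00017e4f92fd4ed) (.hit (nat_lit 142) (nat_lit 7) (nat_lit 0x5e0000bc00017e143afcd82) b26915 (.hit (nat_lit 143) (nat_lit 15) (nat_lit 0x5e0000bc00017e4f92fd4ed) b26916 (.nil))) (.tok (nat_lit 9) (nat_lit 0x5e0000bc00017eb842fe203) (.hit (nat_lit 144) (nat_lit 20) (nat_lit 0x5e0000bc00017e623afd742) b26913 (.hit (nat_lit 145) (nat_lit 28) (nat_lit 0x5e0000bc00017eb842fe203) b26914 (.nil))) (.nil))))) (.tok (nat_lit 17) (nat_lit 0x5e0000bc00017ee4bafe767) (.hit (nat_lit 134) (nat_lit 0) (nat_lit 0x5e0000bc00017ee4bafe3ac) b26917 (.one (nat_lit 3) (nat_lit 135) (nat_lit 1) (nat_lit 0x5e0000bc00017d6bfafb87a)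 b26918 (.tok (nat_lit 6) (nat_lit 0x5e0000bc00017ee362fe767) (.hit (nat_lit 136) (nat_lit 7) (nat_lit 0x5e0000bc00017df34afc964) b26921 (.hit (nat_lit 137) (nat_lit 15) (nat_lit 0x5e0000bc00017ee362fe767) b26922 (.nil))) (.tok (nat_lit 9) (nat_lit 0x5e0000bc00017e8bbafdc72) (.hit (nat_lit 138) (nat_lit 20) (nat_lit 0x5e0000bc00017e72dafd956) b26919 (.hit (nat_lit 139) (nat_lit 28) (nat_lit 0x5e0000bc00017e8bbafdc72) b26920 (.nil))) (.nil))))) (.tok (nat_lit 20) (nat_lit 0x5e0000bc00017f425afefbb) (.hit (nat_lit 122) (nat_lit 0) (nat_lit 0x5e0000bc00017f1702fefbb) b26899 (.one (nat_lit 3) (nat_lit 123) (nat_lit 1) (nat_lit 0x5e0000bc00017e979afe37a) b26900 (.tok (nat_lit 6) (nat_lit 0x5e0000bc00017f425afec28) (.hit (nat_lit 124) (nat_lit 7) (nat_lit 0x5e0000bc00017e3f22fd2df) b26903 (.hit (nat_lit 125) (nat_lit 15) (nat_lit 0x5e0000bc00017f425afec28) b26904 (.nil))) (.tok (nat_lit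 9) (nat_lit 0x5e0000bc00017f2b3afe9f5) (.hit (nat_lit 126) (nat_lit 20) (nat_lit 0x5e0000bc00017f1e12fe7da) b26901 (.hit (nat_lit 127) (nat_lit 28) (nat_lit 0x5e0000bc00017f2b3afe9f5) b26902 (.nil))) (.nil))))) (.tok (nat_lit 23) (nat_lit 0x5e0000bc00017f30a2fed6d) (.hit (nat_lit 128) (nat_lit 0) (nat_lit 0x5e0000bc00017f12e2fec70) b26905 (.one (nat_lit 3) (nat_lit 129) (nat_lit 1) (nat_lit 0x5e0000bc00017ed7b2fe51b) b26906 (.tok (nat_lit 6) (nat_lit 0x5e0000bc00017efffafed6d) (.hit (nat_lit 130) (nat_lit 7) (nat_lit 0x5e0000bc00017ef7bafea54) b26909 (.hit (nat_lit 131) (nat_lit 15) (nat_lit 0x5e0000bc00017efffafed6d) b26910 (.nil))) (.tok (nat_lit 9) (nat_lit 0x5e0000bc00017f30a2fea96) (.hit (nat_lit 132) (nat_lit 20) (nat_lit 0x5e0000bc00017e6422fd77f) b26907 (.hit (nat_lit 133) (nat_lit 28) (nat_lit 0x5e0000bc00017f30a2fea96) b26908 (.nil))) (.nil))))) (.tok (nat_lit 26) (nat_lit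 0x5e0000bc00017f539afdd1d) (.hit (nat_lit 260) (nat_lit 0) (nat_lit 0x5e0000bc00017f539afdc4a) b26966 (.one (nat_lit 3) (nat_lit 261) (nat_lit 1) (nat_lit 0x5e0000bc00017daf2afc0e0) b26967 (.tok (nat_lit 6) (nat_lit 0x5e0000bc00017e7892fda0d) (.hit (nat_lit 262) (nat_lit 7) (nat_lit 0x5e0000bc00017e7892fda0d) b26970 (.hit (nat_lit 263) (nat_lit 15) (nat_lit 0x5e0000bc00017e05eafcbb8) b26971 (.nil))) (.tok (nat_lit 9) (nat_lit 0x5e0000bc00017e9112fdd1d) (.hit (nat_lit 264) (nat_lit 20) (nat_lit 0x5e0000bc00017ddc8afc68c) b26968 (.hit (nat_lit 265) (nat_lit 28) (nat_lit 0x5e0000bc00017e9112fdd1d) b26969 (.nil))) (.nil))))) (.tok (nat_lit 29) (nat_lit 0x5e0000bc00017eb072fe0a9) (.hit (nat_lit 266) (nat_lit 0) (nat_lit 0x5e0000bc00017eb072fdd36) b26972 (.one (nat_lit 3) (nat_lit 267) (nat_lit 1) (nat_lit 0x5e0000bc00017d963afbdc2) b26973 (.tok (nat_lit 6) (nat_lit 0x5e0000bc00017ead72fe0a9)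 (.hit (nat_lit 268) (nat_lit 7) (nat_lit 0x5e0000bc00017e653afd7a2) b26976 (.hit (nat_lit 269) (nat_lit 15) (nat_lit 0x5e0000bc00017ead72fe0a9) b26977 (.nil))) (.tok (nat_lit 9) (nat_lit 0x5e0000bc00017ea412fdf7d) (.hit (nat_lit 270) (nat_lit 20) (nat_lit 0x5e0000bc00017e30bafd112) b26974 (.hit (nat_lit 271) (nat_lit 28) (nat_lit 0x5e0000bc00017ea412fdf7d) b26975 (.nil))) (.nil))))) (.tok (nat_lit 32) (nat_lit 0x5e0000bc00017eede2fe09e) (.hit (nat_lit 272) (nat_lit 0) (nat_lit 0x5e0000bc00017eede2fd198) b26978 (.one (nat_lit 3) (nat_lit 273) (nat_lit 1) (nat_lit 0x5e0000bc00017d8a02fbc3b) b26936 (.tok (nat_lit 6) (nat_lit 0x5e0000bc00017ead1afe09e) (.hit (nat_lit 274) (nat_lit 7) (nat_lit 0x5e0000bc00017ddc32fc681) b26981 (.hit (nat_lit 275) (nat_lit 15) (nat_lit 0x5e0000bc00017ead1afe09e) b26982 (.nil))) (.tok (nat_lit 9) (nat_lit 0x5e0000bc00017e63bafd772) (.hit (nat_lit 276)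 (nat_lit 20) (nat_lit 0x5e0000bc00017e63bafd772) b26979 (.hit (nat_lit 277) (nat_lit 28) (nat_lit 0x5e0000bc00017dab92fc06d) b26980 (.nil))) (.nil))))) (.tok (nat_lit 35) (nat_lit 0x5e0000bc00017ed1dafe536) (.hit (nat_lit 278) (nat_lit 0) (nat_lit 0x5e0000bc00017ed1dafe536) b26983 (.one (nat_lit 3) (nat_lit 279) (nat_lit 1) (nat_lit 0x5e0000bc00017d8a02fbc3b) b26936 (.tok (nat_lit 6) (nat_lit 0x5e0000bc00017e48c2fd413) (.hit (nat_lit 280) (nat_lit 7) (nat_lit 0x5e0000bc00017e48c2fd413) b26986 (.hit (nat_lit 281) (nat_lit 15) (nat_lit 0x5e0000bc00017d9f52fbee5) b26987 (.nil))) (.tok (nat_lit 9) (nat_lit 0x5e0000bc00017e9c7afde8a) (.hit (nat_lit 282) (nat_lit 20) (nat_lit 0x5e0000bc00017e619afd72e) b26984 (.hit (nat_lit 283) (nat_lit 28) (nat_lit 0x5e0000bc00017e9c7afde8a) b26985 (.nil))) (.nil))))) (.tok (nat_lit 38) (nat_lit 0x5e0000bc00017f697aff036) (.hit (nat_lit 215) (nat_lit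 0) (nat_lit 0x5e0000bc00017f697aff036) b26988 (.one (nat_lit 3) (nat_lit 216) (nat_lit 1) (nat_lit 0x5e0000bc00017d8b72fbc69) b26989 (.tok (nat_lit 6) (nat_lit 0x5e0000bc00017e6452fd785) (.hit (nat_lit 217) (nat_lit 7) (nat_lit 0x5e0000bc00017e6452fd785) b26937 (.hit (nat_lit 218) (nat_lit 15) (nat_lit 0x5e0000bc00017dce5afc4c6) b26992 (.nil))) (.tok (nat_lit 9) (nat_lit 0x5e0000bc00017de93afc822) (.hit (nat_lit 219) (nat_lit 20) (nat_lit 0x5e0000bc00017de93afc822) b26990 (.hit (nat_lit 220) (nat_lit 28) (nat_lit 0x5e0000bc00017dce7afc4ca) b26991 (.nil))) (.nil))))) (.tok (nat_lit 41) (nat_lit 0x5e0000bc00017f6682ff0b8) (.hit (nat_lit 226) (nat_lit 0) (nat_lit 0x5e0000bc00017f3302fe6cb) b26993 (.one (nat_lit 3) (nat_lit 227) (nat_lit 1) (nat_lit 0x5e0000bc00017ed5aafd9bf) b26994 (.tok (nat_lit 6) (nat_lit 0x5e0000bc00017f6682ff0b8) (.hit (nat_lit 228) (nat_lit 7) (nat_lit 0x5e0000bc00017f6682ff0b8)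 b26997 (.hit (nat_lit 229) (nat_lit 15) (nat_lit 0x5e0000bc00017f361afe5ce) b26998 (.nil))) (.tok (nat_lit 9) (nat_lit 0x5e0000bc00017f54c2fef25) (.hit (nat_lit 230) (nat_lit 20) (nat_lit 0x5e0000bc00017f54c2fef25) b26995 (.hit (nat_lit 231) (nat_lit 28) (nat_lit 0x5e0000bc00017f2832fe782) b26996 (.nil))) (.nil))))) (.tok (nat_lit 44) (nat_lit 0x5e0000bc00018000030047a) (.hit (nat_lit 240) (nat_lit 0) (nat_lit 0x5e0000bc00017fd7e300312) b26999 (.one (nat_lit 3) (nat_lit 241) (nat_lit 1) (nat_lit 0x5e0000bc00017ebf52fd6f4) b27000 (.tok (nat_lit 6) (nat_lit 0x5e0000bc00017f9262ff31f) (.hit (nat_lit 242) (nat_lit 7) (nat_lit 0x5e0000bc00017f9262ff31f) b27003 (.hit (nat_lit 243) (nat_lit 15) (nat_lit 0x5e0000bc00017ee182fdb59) b27004 (.nil))) (.tok (nat_lit 9) (nat_lit 0x5e0000bc00018000030047a) (.hit (nat_lit 244) (nat_lit 20) (nat_lit 0x5e0000bc00018000030047a) b27001 (.hit (nat_lit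 245) (nat_lit 28) (nat_lit 0x5e0000bc00017f0d82fe190) b27002 (.nil))) (.nil))))) (.tok (nat_lit 47) (nat_lit 0x5e0000bc00017fc34aff54b) (.hit (nat_lit 254) (nat_lit 0) (nat_lit 0x5e0000bc00017fc34aff061) b27005 (.one (nat_lit 3) (nat_lit 255) (nat_lit 1) (nat_lit 0x5e0000bc00017e6a3afcc57) b27006 (.tok (nat_lit 6) (nat_lit 0x5e0000bc00017f68b2ff54b) (.hit (nat_lit 256) (nat_lit 7) (nat_lit 0x5e0000bc00017f68b2ff54b) b27009 (.hit (nat_lit 257) (nat_lit 15) (nat_lit 0x5e0000bc00017f0f42fe4f1) b27010 (.nil))) (.tok (nat_lit 9) (nat_lit 0x5e0000bc00017f7feafefff) (.hit (nat_lit 258) (nat_lit 20) (nat_lit 0x5e0000bc00017f7feafefff) b27007 (.hit (nat_lit 259) (nat_lit 28) (nat_lit 0x5e0000bc00017ef8eafde86) b27008 (.nil))) (.nil))))) (.tok (nat_lit 50) (nat_lit 0x5e0000bc00017ec322fd287) (.hit (nat_lit 146) (nat_lit 0) (nat_lit 0x5e0000bc00017ec322fce17) b26923 (.one (nat_lit 3) (nat_lit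 147) (nat_lit 1) (nat_lit 0x5e0000bc00017d8ca2fbc8f) b26924 (.tok (nat_lit 6) (nat_lit 0x5e0000bc00017e3c62fd287) (.hit (nat_lit 148) (nat_lit 7) (nat_lit 0x5e0000bc00017e3c62fd287) b26927 (.hit (nat_lit 149) (nat_lit 15) (nat_lit 0x5e0000bc00017dccfafc49a) b26928 (.nil))) (.tok (nat_lit 9) (nat_lit 0x5e0000bc00017ddb4afc664) (.hit (nat_lit 150) (nat_lit 20) (nat_lit 0x5e0000bc00017ddb4afc664) b26925 (.hit (nat_lit 151) (nat_lit 28) (nat_lit 0x5e0000bc00017dbb6afc268) b26926 (.nil))) (.nil))))) (.tok (nat_lit 53) (nat_lit 0x5e0000bc00017f1f6afe64b) (.hit (nat_lit 152) (nat_lit 0) (nat_lit 0x5e0000bc00017efd5afd846) b26929 (.one (nat_lit 3) (nat_lit 153) (nat_lit 1) (nat_lit 0x5e0000bc00017ececafcf27) b26930 (.tok (nat_lit 6) (nat_lit 0x5e0000bc00017f1f6afe64b) (.hit (nat_lit 154) (nat_lit 7) (nat_lit 0x5e0000bc00017f1f6afdde1) b26933 (.hit (nat_lit 155) (nat_lit 15) (nat_lit 0x5e0000bc00017f133afe64b)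 b26934 (.nil))) (.tok (nat_lit 9) (nat_lit 0x5e0000bc00017f0192fde7c) (.hit (nat_lit 156) (nat_lit 20) (nat_lit 0x5e0000bc00017e9c0afde7c) b26931 (.hit (nat_lit 157) (nat_lit 28) (nat_lit 0x5e0000bc00017f0192fd4ed) b26932 (.nil))) (.nil))))) (.tok (nat_lit 56) (nat_lit 0x5e0000bc00017eab52fe065) (.hit (nat_lit 164) (nat_lit 0) (nat_lit 0x5e0000bc00017e955afd845) b26935 (.one (nat_lit 3) (nat_lit 165) (nat_lit 1) (nat_lit 0x5e0000bc00017d8a02fbc3b) b26936 (.tok (nat_lit 6) (nat_lit 0x5e0000bc00017e46aafd3d0) (.hit (nat_lit 166) (nat_lit 7) (nat_lit 0x5e0000bc00017e46aafd3d0) b26939 (.hit (nat_lit 167) (nat_lit 15) (nat_lit 0x5e0000bc00017d9572fbda9) b26940 (.nil))) (.tok (nat_lit 9) (nat_lit 0x5e0000bc00017eab52fe065) (.hit (nat_lit 168) (nat_lit 20) (nat_lit 0x5e0000bc00017e6452fd785) b26937 (.hit (nat_lit 169) (nat_lit 28) (nat_lit 0x5e0000bc00017eab52fe065) b26938 (.nil))) (.nil)))))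 (.tok (nat_lit 59) (nat_lit 0x5e0000bc00017eef9afd586) (.hit (nat_lit 158) (nat_lit 0) (nat_lit 0x5e0000bc00017eef9afd57a) b26941 (.one (nat_lit 3) (nat_lit 159) (nat_lit 1) (nat_lit 0x5e0000bc00017d8a02fbc3b) b26936 (.tok (nat_lit 6) (nat_lit 0x5e0000bc00017e545afd586) (.hit (nat_lit 160) (nat_lit 7) (nat_lit 0x5e0000bc00017e2ebafd0d2) b26944 (.hit (nat_lit 161) (nat_lit 15) (nat_lit 0x5e0000bc00017e545afd586) b26945 (.nil))) (.tok (nat_lit 9) (nat_lit 0x5e0000bc00017e3892fd20d) (.hit (nat_lit 162) (nat_lit 20) (nat_lit 0x5e0000bc00017e3892fd20d) b26942 (.hit (nat_lit 163) (nat_lit 28) (nat_lit 0x5e0000bc00017dd70afc5dc) b26943 (.nil))) (.nil))))) (.tok (nat_lit 62) (nat_lit 0x5e0000bc00017f190afee1c) (.hit (nat_lit 170) (nat_lit 0) (nat_lit 0x5e0000bc00017e9a22fe298) b26946 (.one (nat_lit 3) (nat_lit 171) (nat_lit 1) (nat_lit 0x5e0000bc00017db29afc14e) b26947 (.tok (nat_lit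 6) (nat_lit 0x5e0000bc00017e07a2fcbef) (.hit (nat_lit 172) (nat_lit 7) (nat_lit 0x5e0000bc00017e07a2fcbef) b26950 (.hit (nat_lit 173) (nat_lit 15) (nat_lit 0x5e0000bc00017dd6dafc5d6) b26951 (.nil))) (.tok (nat_lit 9) (nat_lit 0x5e0000bc00017f190afee1c) (.hit (nat_lit 174) (nat_lit 20) (nat_lit 0x5e0000bc00017f190afee1c) b26948 (.hit (nat_lit 175) (nat_lit 28) (nat_lit 0x5e0000bc00017de31afc75e) b26949 (.nil))) (.nil))))) (.tok (nat_lit 65) (nat_lit 0x5e0000bc00017f45baff614) (.hit (nat_lit 181) (nat_lit 0) (nat_lit 0x5e0000bc00017f1d3afef05) b26952 (.one (nat_lit 3) (nat_lit 182) (nat_lit 1) (nat_lit 0x5e0000bc00017ed56afe502) b26953 (.tok (nat_lit 6) (nat_lit 0x5e0000bc00017f45baff36b) (.hit (nat_lit 183) (nat_lit 7) (nat_lit 0x5e0000bc00017e908afdd0c) b26956 (.hit (nat_lit 184) (nat_lit 15) (nat_lit 0x5e0000bc00017f45baff36b) b26957 (.nil))) (.tok (nat_lit 9) (nat_lit 0x5e0000bc00017f10eaff614)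 (.hit (nat_lit 185) (nat_lit 20) (nat_lit 0x5e0000bc00017f10eaff614) b26954 (.hit (nat_lit 186) (nat_lit 28) (nat_lit 0x5e0000bc00017ee92afe90b) b26955 (.nil))) (.nil))))) (.tok (nat_lit 68) (nat_lit 0x5e0000bc00017ecc62fe487) (.hit (nat_lit 209) (nat_lit 0) (nat_lit 0x5e0000bc00017ecc62fe487) b26958 (.one (nat_lit 3) (nat_lit 210) (nat_lit 1) (nat_lit 0x5e0000bc00017d8a02fbc3b) b26936 (.tok (nat_lit 6) (nat_lit 0x5e0000bc00017ec21afe33e) (.hit (nat_lit 211) (nat_lit 7) (nat_lit 0x5e0000bc00017e6452fd785) b26937 (.hit (nat_lit 212) (nat_lit 15) (nat_lit 0x5e0000bc00017ec21afe33e) b26959 (.nil))) (.tok (nat_lit 9) (nat_lit 0x5e0000bc00017e623afd742) (.hit (nat_lit 213) (nat_lit 20) (nat_lit 0x5e0000bc00017e623afd742) b26913 (.hit (nat_lit 214) (nat_lit 28) (nat_lit 0x5e0000bc00017d9572fbda9) b26940 (.nil))) (.nil))))) (.tok (nat_lit 71) (nat_lit 0x5e0000bc00017f50b2ff511) (.hit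 (nat_lit 195) (nat_lit 0) (nat_lit 0x5e0000bc00017ee662fe7c6) b26960 (.one (nat_lit 3) (nat_lit 196) (nat_lit 1) (nat_lit 0x5e0000bc00017deccafc894) b26961 (.tok (nat_lit 6) (nat_lit 0x5e0000bc00017f50b2ff511) (.hit (nat_lit 197) (nat_lit 7) (nat_lit 0x5e0000bc00017f50b2ff511) b26964 (.hit (nat_lit 198) (nat_lit 15) (nat_lit 0x5e0000bc00017d6d5afb8a6) b26965 (.nil))) (.tok (nat_lit 9) (nat_lit 0x5e0000bc00017ecc4afe484) (.hit (nat_lit 199) (nat_lit 20) (nat_lit 0x5e0000bc00017ea30afdf5c) b26962 (.hit (nat_lit 200) (nat_lit 28) (nat_lit 0x5e0000bc00017ecc4afe484) b26963 (.nil))) (.nil))))) (.nil))))))))))))))))))))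
noncomputable def r28_7 : Rw Blk := .tok (nat_lit 3) (nat_lit 0x5e0000bc00017eff1afda25) (.hit (nat_lit 18) (nat_lit 0) (nat_lit 0x5e0000bc00017eff1afd669) b27029 (.tok (nat_lit 6) (nat_lit 0x5e0000bc00017ea132fda25) (.hit (nat_lit 19) (nat_lit 7) (nat_lit 0x5e0000bc00017e7e7afd5ce) b27032 (.hit (nat_lit 20) (nat_lit 15) (nat_lit 0x5e0000bc00017ea132fda25) b27033 (.nil))) (.tok (nat_lit 9) (nat_lit 0x5e0000bc00017e7b6afd56c) (.hit (nat_lit 21) (nat_lit 20) (nat_lit 0x5e0000bc00017e7b6afd56c) b27030 (.hit (nat_lit 22) (nat_lit 28) (nat_lit 0x5e0000bc00017e722afd444) b27031 (.nil))) (.nil)))) (.tok (nat_lit 6) (nat_lit 0x5e0000bc00017fc832ff6c3) (.hit (nat_lit 9) (nat_lit 0) (nat_lit 0x5e0000bc00017effb2fdf44) b27020 (.tok (nat_lit 3) (nat_lit 0x5e0000bc00017f5c72feca8) (.hit (nat_lit 10) (nat_lit 1) (nat_lit 0x5e0000bc00017ed3fafd6ac) b27021 (.one (nat_lit 67) (nat_lit 11) (nat_lit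 2) (nat_lit 0x5e0000bc00017f5c72feca8) b27022 (.nil))) (.tok (nat_lit 6) (nat_lit 0x5e0000bc00017fc832ff6c3) (.hit (nat_lit 12) (nat_lit 7) (nat_lit 0x5e0000bc00017ea032fd652) b27023 (.hit (nat_lit 16) (nat_lit 15) (nat_lit 0x5e0000bc00017ed4e2fde46) b27027 (.tok (nat_lit 55) (nat_lit 0x5e0000bc00017fc832ff6c3) (.hit (nat_lit 13) (nat_lit 8) (nat_lit 0x5e0000bc00017fc2f2feee2) b27024 (.hit (nat_lit 17) (nat_lit 16) (nat_lit 0x5e0000bc00017fad4afebc9) b27028 (.tok (nat_lit 6) (nat_lit 0x5e0000bc00017fc832ff6c3) (.hit (nat_lit 14) (nat_lit 9) (nat_lit 0x5e0000bc00017f828afed07) b27025 (.one (nat_lit 55) (nat_lit 15) (nat_lit 10) (nat_lit 0x5e0000bc00017fc832ff6c3) b27026 (.nil))) (.nil)))) (.nil)))) (.nil)))) (.tok (nat_lit 9) (nat_lit 0x5e0000bc0001800003002dc) (.hit (nat_lit 0) (nat_lit 0) (nat_lit 0x5e0000bc00017f52cafe909) b27011 (.tok (nat_lit 3) (nat_lit 0x5e0000bc00017f80c2feece)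 (.hit (nat_lit 1) (nat_lit 1) (nat_lit 0x5e0000bc00017e99c2fd863) b27012 (.one (nat_lit 55) (nat_lit 2) (nat_lit 3) (nat_lit 0x5e0000bc00017f80c2feece) b27013 (.nil))) (.tok (nat_lit 9) (nat_lit 0x5e0000bc0001800003002dc) (.hit (nat_lit 3) (nat_lit 20) (nat_lit 0x5e0000bc00017f6662fdaed) b27014 (.hit (nat_lit 7) (nat_lit 28) (nat_lit 0x5e0000bc00017edb2afe164) b27018 (.tok (nat_lit 67) (nat_lit 0x5e0000bc0001800003002dc) (.hit (nat_lit 4) (nat_lit 21) (nat_lit 0x5e0000bc00017fdc93002dc) b27015 (.hit (nat_lit 8) (nat_lit 29) (nat_lit 0x5e0000bc00017f87c2ff512) b27019 (.tok (nat_lit 9) (nat_lit 0x5e0000bc000180000300220) (.hit (nat_lit 5) (nat_lit 22) (nat_lit 0x5e0000bc00017fcd7afff5d) b27016 (.one (nat_lit 67) (nat_lit 6) (nat_lit 23) (nat_lit 0x5e0000bc000180000300220) b27017 (.nil))) (.nil)))) (.nil)))) (.nil)))) (.nil)))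
noncomputable def r28_8 : Rw Blk := .tok (nat_lit 3) (nat_lit 0x5e0000bc00017e9ba2fdd1a) (.hit (nat_lit 14) (nat_lit 0) (nat_lit 0x5e0000bc00017e9ba2fdd1a) b27048 (.tok (nat_lit 6) (nat_lit 0x5e0000bc00017e269afd202) (.hit (nat_lit 15) (nat_lit 7) (nat_lit 0x5e0000bc00017e269afd202) b27051 (.hit (nat_lit 16) (nat_lit 15) (nat_lit 0x5e0000bc00017e0b32fce95) b27052 (.nil))) (.tok (nat_lit 9) (nat_lit 0x5e0000bc00017dd4e2fc7cb) (.hit (nat_lit 17) (nat_lit 20) (nat_lit 0x5e0000bc00017da96afc25c) b27049 (.hit (nat_lit 18) (nat_lit 28) (nat_lit 0x5e0000bc00017dd4e2fc7cb) b27050 (.nil))) (.nil)))) (.tok (nat_lit 6) (nat_lit 0x5e0000bc000180000300707) (.hit (nat_lit 9) (nat_lit 0) (nat_lit 0x5e0000bc00017f3d9afe9a3) b27043 (.tok (nat_lit 3) (nat_lit 0x5e0000bc000180000300707) (.hit (nat_lit 10) (nat_lit 1) (nat_lit 0x5e0000bc00017f3eaafeb20) b27044 (.one (nat_lit 67) (nat_lit 11) (nat_lit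 2) (nat_lit 0x5e0000bc000180000300707) b27045 (.nil))) (.tok (nat_lit 6) (nat_lit 0x5e0000bc00017f93d2fee59) (.hit (nat_lit 12) (nat_lit 7) (nat_lit 0x5e0000bc00017f93d2fee59) b27046 (.hit (nat_lit 13) (nat_lit 15) (nat_lit 0x5e0000bc00017efb02fed17) b27047 (.nil))) (.nil)))) (.tok (nat_lit 9) (nat_lit 0x5e0000bc00017f0a3afedb5) (.hit (nat_lit 0) (nat_lit 0) (nat_lit 0x5e0000bc00017f0a3afed6a) b27034 (.tok (nat_lit 3) (nat_lit 0x5e0000bc00017eac5afe2ba) (.hit (nat_lit 1) (nat_lit 1) (nat_lit 0x5e0000bc00017e1732fd015) b27035 (.one (nat_lit 55) (nat_lit 2) (nat_lit 3) (nat_lit 0x5e0000bc00017eac5afe2ba) b27036 (.nil))) (.tok (nat_lit 9) (nat_lit 0x5e0000bc00017f0432fedb5) (.hit (nat_lit 3) (nat_lit 20) (nat_lit 0x5e0000bc00017df382fcb9f) b27037 (.hit (nat_lit 7) (nat_lit 28) (nat_lit 0x5e0000bc00017e1e62fd0fb) b27041 (.tok (nat_lit 67) (nat_lit 0x5e0000bc00017f0432fedb5) (.hit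 (nat_lit 4) (nat_lit 21) (nat_lit 0x5e0000bc00017eae92fe301) b27038 (.hit (nat_lit 8) (nat_lit 29) (nat_lit 0x5e0000bc00017f0432fedb5) b27042 (.tok (nat_lit 9) (nat_lit 0x5e0000bc00017f004afed38) (.hit (nat_lit 5) (nat_lit 22) (nat_lit 0x5e0000bc00017e842afddb4) b27039 (.one (nat_lit 67) (nat_lit 6) (nat_lit 23) (nat_lit 0x5e0000bc00017f004afed38) b27040 (.nil))) (.nil)))) (.nil)))) (.nil)))) (.nil)))
noncomputable def r28_9 : Rw Blk := .tok (nat_lit 3) (nat_lit 0x5e0000bc00017f1992fe4ba) (.hit (nat_lit 14) (nat_lit 0) (nat_lit 0x5e0000bc00017f1992fe4ba) b27067 (.tok (nat_lit 6) (nat_lit 0x5e0000bc00017e853afd338) (.hit (nat_lit 15) (nat_lit 7) (nat_lit 0x5e0000bc00017e853afd338) b27070 (.hit (nat_lit 16) (nat_lit 15) (nat_lit 0x5e0000bc00017d544afad1a) b27071 (.nil))) (.tok (nat_lit 9) (nat_lit 0x5e0000bc00017eac5afd81c) (.hit (nat_lit 17) (nat_lit 20) (nat_lit 0x5e0000bc00017eac5afd81c)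 b27068 (.hit (nat_lit 18) (nat_lit 28) (nat_lit 0x5e0000bc00017e803afd298) b27069 (.nil))) (.nil)))) (.tok (nat_lit 6) (nat_lit 0x5e0000bc00017fb61affd62) (.hit (nat_lit 0) (nat_lit 0) (nat_lit 0x5e0000bc00017f97d2ffd62) b27053 (.tok (nat_lit 3) (nat_lit 0x5e0000bc00017f3d42fea39) (.hit (nat_lit 1) (nat_lit 1) (nat_lit 0x5e0000bc00017eac9afd824) b27054 (.one (nat_lit 67) (nat_lit 2) (nat_lit 2) (nat_lit 0x5e0000bc00017f3d42fea39) b27055 (.nil))) (.tok (nat_lit 6) (nat_lit 0x5e0000bc00017fb61aff954) (.hit (nat_lit 3) (nat_lit 7) (nat_lit 0x5e0000bc00017e956afd53e) b27056 (.hit (nat_lit 7) (nat_lit 15) (nat_lit 0x5e0000bc00017e9d2afd636) b27060 (.tok (nat_lit 55) (nat_lit 0x5e0000bc00017fb61aff954) (.hit (nat_lit 4) (nat_lit 8) (nat_lit 0x5e0000bc00017f464afeb5a) b27057 (.hit (nat_lit 8) (nat_lit 16) (nat_lit 0x5e0000bc00017f877aff380) b27061 (.tok (nat_lit 6) (nat_lit 0x5e0000bc00017fb61aff954)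 (.hit (nat_lit 5) (nat_lit 9) (nat_lit 0x5e0000bc00017f4672feb5f) b27058 (.one (nat_lit 55) (nat_lit 6) (nat_lit 10) (nat_lit 0x5e0000bc00017fb61aff954) b27059 (.nil))) (.nil)))) (.nil)))) (.nil)))) (.tok (nat_lit 9) (nat_lit 0x5e0000bc000180000300481) (.hit (nat_lit 9) (nat_lit 0) (nat_lit 0x5e0000bc0001800002fedcc) b27062 (.tok (nat_lit 3) (nat_lit 0x5e0000bc00017fd7ab00481) (.hit (nat_lit 10) (nat_lit 1) (nat_lit 0x5e0000bc00017ed272fdc47) b27063 (.one (nat_lit 55) (nat_lit 11) (nat_lit 3) (nat_lit 0x5e0000bc00017fd7ab00481) b27064 (.nil))) (.tok (nat_lit 9) (nat_lit 0x5e0000bc00017f9612ff56d) (.hit (nat_lit 12) (nat_lit 20) (nat_lit 0x5e0000bc00017f9612ff56d) b27065 (.hit (nat_lit 13) (nat_lit 28) (nat_lit 0x5e0000bc00017ee83afdf90) b27066 (.nil))) (.nil)))) (.nil)))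
noncomputable def r28_10 : Rw Blk := .tok (nat_lit 6) (nat_lit 0x5e0000bc0001800572ffd5b) (.hit (nat_lit 0) (nat_lit 0) (nat_lit 0x5e0000bc0001800572ffd5b) b27072 (.tok (nat_lit 3) (nat_lit 0x5e0000bc00017eb1d2fe8ea) (.hit (nat_lit 1) (nat_lit 1) (nat_lit 0x5e0000bc00017dca32fcbf6) b27073 (.one (nat_lit 14) (nat_lit 2) (nat_lit 4) (nat_lit 0x5e0000bc00017e925afe4fb) b27074 (.one (nat_lit 56) (nat_lit 3) (nat_lit 6) (nat_lit 0x5e0000bc00017eb1d2fe8ea) b27075 (.nil)))) (.tok (nat_lit 40) (nat_lit 0x5e0000bc00017ed79afeda3) (.hit (nat_lit 4) (nat_lit 33) (nat_lit 0x5e0000bc00017eab6afe81d) b27076 (.hit (nat_lit 5) (nat_lit 34) (nat_lit 0x5e0000bc00017ed79afeda3) b27077 (.nil))) (.tok (nat_lit 43) (nat_lit 0x5e0000bc00017f3a72ff9fe) (.hit (nat_lit 6) (nat_lit 35) (nat_lit 0x5e0000bc00017f3a72ff9fe) b27080 (.hit (nat_lit 7) (nat_lit 36) (nat_lit 0x5e0000bc00017f0d9aff463) b27081 (.nil)))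 (.tok (nat_lit 46) (nat_lit 0x5e0000bc00017f33baff927) (.hit (nat_lit 8) (nat_lit 37) (nat_lit 0x5e0000bc00017f33baff927) b27078 (.hit (nat_lit 9) (nat_lit 38) (nat_lit 0x5e0000bc00017f1892ff5c2) b27079 (.nil))) (.nil)))))) (.tok (nat_lit 9) (nat_lit 0x5e0000bc0001817293045af) (.hit (nat_lit 10) (nat_lit 0) (nat_lit 0x5e0000bc00018066bb0150c) b27082 (.tok (nat_lit 3) (nat_lit 0x5e0000bc00017fafab0014e) (.hit (nat_lit 11) (nat_lit 1) (nat_lit 0x5e0000bc00017f1632fe53c) b27083 (.one (nat_lit 14) (nat_lit 12) (nat_lit 4) (nat_lit 0x5e0000bc00017fafab0014e) b27084 (.one (nat_lit 68) (nat_lit 13) (nat_lit 5) (nat_lit 0x5e0000bc00017f9822fffdc) b27085 (.nil)))) (.tok (nat_lit 40) (nat_lit 0x5e0000bc00017f7dc2ffd3a) (.hit (nat_lit 14) (nat_lit 33) (nat_lit 0x5e0000bc00017f7dc2ffd3a) b27086 (.hit (nat_lit 15) (nat_lit 34) (nat_lit 0x5e0000bc00017f7102ffcc6) b27087 (.nil))) (.tok (nat_lit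 43) (nat_lit 0x5e0000bc0001800a4301429) (.hit (nat_lit 16) (nat_lit 35) (nat_lit 0x5e0000bc00017efb9aff223) b27090 (.hit (nat_lit 17) (nat_lit 36) (nat_lit 0x5e0000bc0001800a4301429) b27091 (.nil))) (.tok (nat_lit 46) (nat_lit 0x5e0000bc0001817293045af) (.hit (nat_lit 18) (nat_lit 37) (nat_lit 0x5e0000bc0001817293045af) b27088 (.hit (nat_lit 19) (nat_lit 38) (nat_lit 0x5e0000bc00017ef602ffd8f) b27089 (.nil))) (.nil)))))) (.nil))
noncomputable def r28_11 : Rw Blk := .tok (nat_lit 6) (nat_lit 0x5e0000bc0001800cb3008d2) (.hit (nat_lit 0) (nat_lit 0) (nat_lit 0x5e0000bc00017fb3caff60b) b27092 (.tok (nat_lit 3) (nat_lit 0x5e0000bc00017febaaffc44) (.hit (nat_lit 1) (nat_lit 1) (nat_lit 0x5e0000bc00017e74f2fd34d) b27093 (.one (nat_lit 14) (nat_lit 2) (nat_lit 4) (nat_lit 0x5e0000bc00017febaaffc44) b27094 (.one (nat_lit 56) (nat_lit 3) (nat_lit 6) (nat_lit 0x5e0000bc00017f3c52fece4) b27095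 (.nil)))) (.tok (nat_lit 40) (nat_lit 0x5e0000bc00017f8272ffaeb) (.hit (nat_lit 4) (nat_lit 33) (nat_lit 0x5e0000bc00017f607affaeb) b27096 (.hit (nat_lit 5) (nat_lit 34) (nat_lit 0x5e0000bc00017f8272ffa35) b27097 (.nil))) (.tok (nat_lit 43) (nat_lit 0x5e0000bc00017fdc1b005c2) (.hit (nat_lit 6) (nat_lit 35) (nat_lit 0x5e0000bc00017fdc1b005c2) b27100 (.hit (nat_lit 7) (nat_lit 36) (nat_lit 0x5e0000bc00017f2b22ffab5) b27101 (.nil))) (.tok (nat_lit 46) (nat_lit 0x5e0000bc0001800cb3008d2) (.hit (nat_lit 8) (nat_lit 37) (nat_lit 0x5e0000bc00017ef322ff1f4) b27098 (.hit (nat_lit 9) (nat_lit 38) (nat_lit 0x5e0000bc0001800cb3008d2) b27099 (.nil))) (.nil)))))) (.tok (nat_lit 9) (nat_lit 0x5e0000bc00017fb312ffcd6) (.hit (nat_lit 10) (nat_lit 0) (nat_lit 0x5e0000bc00017ef7b2fee6e) b27102 (.tok (nat_lit 3) (nat_lit 0x5e0000bc00017f41b2fe6c6) (.hit (nat_lit 11) (nat_lit 1) (nat_lit 0x5e0000bc00017e412afc801)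 b27103 (.one (nat_lit 14) (nat_lit 12) (nat_lit 4) (nat_lit 0x5e0000bc00017f41b2fe01a) b27104 (.one (nat_lit 68) (nat_lit 13) (nat_lit 5) (nat_lit 0x5e0000bc00017ef09afe6c6) b27105 (.nil)))) (.tok (nat_lit 40) (nat_lit 0x5e0000bc00017f023afe9d5) (.hit (nat_lit 14) (nat_lit 33) (nat_lit 0x5e0000bc00017f023afe9d5) b27106 (.hit (nat_lit 15) (nat_lit 34) (nat_lit 0x5e0000bc00017ed212fe046) b27107 (.nil))) (.tok (nat_lit 43) (nat_lit 0x5e0000bc00017f8faaff51f) (.hit (nat_lit 16) (nat_lit 35) (nat_lit 0x5e0000bc00017e7192fe1c2) b27110 (.hit (nat_lit 17) (nat_lit 36) (nat_lit 0x5e0000bc00017f8faaff51f) b27111 (.nil))) (.tok (nat_lit 46) (nat_lit 0x5e0000bc00017fb312ffcd6) (.hit (nat_lit 18) (nat_lit 37) (nat_lit 0x5e0000bc00017fb312ffcd6) b27108 (.hit (nat_lit 19) (nat_lit 38) (nat_lit 0x5e0000bc00017eac82fe76c) b27109 (.nil))) (.nil)))))) (.nil))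
noncomputable def r28_12 : Rw Blk := .tok (nat_lit 3) (nat_lit 0xc0158580225300ee4600474c068dd8069bb00c596029e2c0330d817d930286a) (.hit (nat_lit 15) (nat_lit 0) (nat_lit 0xbf65197f2122fee9c5fb876bfdad97f168afeddf5ffac8bfb9057f797afedb2) b27127 (.tok (nat_lit 6) (nat_lit 0xbf69c97f2b4aff3af5fb29ac024857f1feafd7545ff352bfb46d802c82fffc4) (.hit (nat_lit 16) (nat_lit 7) (nat_lit 0xbefbd17e929afd3385f7b9ebf96bd7e43fafbbd65fa554bf22fd7f1242fe03d) b27128 (.hit (nat_lit 21) (nat_lit 15) (nat_lit 0xbe8ded7e2c22fc3495f44acbf6d417d6832fa05d5fadfebf2bc57de61afc373) b27133 (.tok (nat_lit 14) (nat_lit 0xbf3aa97f2b4aff3af5f9b0abfe5f97ec1aafcb8c5ff352bfb46d802c82fffc4) (.hit (nat_lit 17) (nat_lit 11) (nat_lit 0xbf30f17ee2fafe5ff5f962ebfca817eae3afc91e5fd41abf80897f6e6afed62) b27129 (.hit (nat_lit 22) (nat_lit 17) (nat_lit 0xbf2f6d7f0c2afdfd35f956cbfe4217eab32fc8bd5ff352bfb46d7f0672fe5c3) b27134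 (.one (nat_lit 9) (nat_lit 18) (nat_lit 12) (nat_lit 0xbf3aa97f2b4aff3af5f9b0abfe5f97ec1aafcb8c5fdf2cbf96ad802c82fffc4) b27130 (.nil)))) (.tok (nat_lit 56) (nat_lit 0xbf69c97ee5a2ff3a95fb29ac024857f1feafd7545fdb82bf83c17fb13aff411) (.hit (nat_lit 19) (nat_lit 13) (nat_lit 0xbf1d117ecaf2fda115f8c3ebfe6ed7e867afc4265fbea8bf55a57f55eafe2f2) b27131 (.hit (nat_lit 24) (nat_lit 19) (nat_lit 0xbf11217e9aa2fd3315f8646bfa8a57e6e9afc12a5fdb82bf7be97eb8eafd6e2) b27136 (.one (nat_lit 6) (nat_lit 20) (nat_lit 14) (nat_lit 0xbf69c97ee5a2ff3a95fb29ac024857f1feafd7545fd5b6bf83c17fb13aff411) b27132 (.nil)))) (.one (nat_lit 68) (nat_lit 23) (nat_lit 18) (nat_lit 0xbf53f97efec2fdb3e5fa7b2bfc8f17ef44afd1e05ff176bfa6717f06cafdf59) b27135 (.nil)))))) (.tok (nat_lit 52) (nat_lit 0xbf50f97f55bafeb4f5fa632bfdb317eee4afd120600382bfc9fd7f96c2ff404) (.hit (nat_lit 25) (nat_lit 39) (nat_lit 0xbf49017eb09afddde5fa236bfbdf97ede5afcf225fdd14bf9ae57f37dafe9e0)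 b27137 (.hit (nat_lit 26) (nat_lit 40) (nat_lit 0xbf50f97f55bafeb4f5fa632bfdb317eee4afd120600382bfc9fd7f96c2ff404) b27138 (.nil))) (.tok (nat_lit 55) (nat_lit 0xc0158580225300ee4600474c068dd8069bb00c59602496c0330d817d930286a) (.hit (nat_lit 27) (nat_lit 41) (nat_lit 0xc0158580225300e9e600474c068dd8069bb00c59602496c0330d817d930286a) b27139 (.tok (nat_lit 3) (nat_lit 0xbf87897f9d6b003b85fc17ac02d8d7f5b6afdec4600042bfd8d980800b00a64) (.hit (nat_lit 33) (nat_lit 47) (nat_lit 0xbf71a97f36e2ffdeb5fb68ac02d8d7f2faafd94c5ff38cbfbf6d80465300714) b27145 (.one (nat_lit 67) (nat_lit 34) (nat_lit 48) (nat_lit 0xbf87897f9d6b003b85fc17ac00de97f5b6afdec4600042bfd8d980800b00a64) b27146 (.nil))) (.tok (nat_lit 6) (nat_lit 0xbf6e217f856300ee45fb4c6c03e517f289afd86a5fe9f0bfac358143cb02651) (.hit (nat_lit 28) (nat_lit 42) (nat_lit 0xbf56ed7ef272ff0535fa92cc00be57efa32fd29d5fe4babfa1c9806a9b00643)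 b27140 (.hit (nat_lit 31) (nat_lit 45) (nat_lit 0xbf698d7f529aff5955fb27cc00cf17f1f72fd7455fdb4cbf8eed806d8b00a31) b27143 (.tok (nat_lit 55) (nat_lit 0xbf6e217f856300ee45fb4c6c03e517f289afd86a5fe9f0bfac358143cb02651) (.hit (nat_lit 29) (nat_lit 43) (nat_lit 0xbf63c17f1122ff8b25faf96c03e517f13dafd5d25fe9f0bfac3580d47b014a8) b27141 (.hit (nat_lit 32) (nat_lit 46) (nat_lit 0xbf6e217f856300ee45fb4c6c020617f289afd86a5fe294bf9d7d8143cb02651) b27144 (.one (nat_lit 6) (nat_lit 30) (nat_lit 44) (nat_lit 0xbf48117ec8a2ff44b5fa1bebfc0297edc7afcee65fda46bf8ce180bd7301430) b27142 (.nil)))) (.nil)))) (.nil)))) (.one (nat_lit 58) (nat_lit 35) (nat_lit 49) (nat_lit 0xbf5e1d7f6d8afec4e5facc4bfe4217f0892fd4696029e2c0195d7ff19afff5f) b27147 (.nil)))))) (.tok (nat_lit 9) (nat_lit 0xc06b9d80e96b02936604ecec0913581306b0399d607b86c0e779818a6303713) (.hit (nat_lit 0) (nat_lit 0) (nat_lit 0xbfdcf980aac3010ca5ffa02c08c4980303300b02602080c02db17fcebb00805)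 b27112 (.tok (nat_lit 9) (nat_lit 0xc028798085830192b602982c0913580583b010cc6008dec03235818a6302b5f) (.hit (nat_lit 1) (nat_lit 20) (nat_lit 0xbfbc017e9c42fdb4a5ff7eabfeb797fce4aff0e25feacabfc5317f198aff34b) b27113 (.hit (nat_lit 4) (nat_lit 28) (nat_lit 0xbf23d97eacfafd84c5facdebfbce57ea19afe0415fc810bf79fd7e6022fddd3) b27116 (.tok (nat_lit 14) (nat_lit 0xc02879801b530192b602982c04cd180583b010cc6008dec03235818a6302b5f) (.hit (nat_lit 2) (nat_lit 24) (nat_lit 0xc028797fe86b00540602982bffc61802dd300779600054c01b9d7fbdd300dd5) b27114 (.hit (nat_lit 5) (nat_lit 30) (nat_lit 0xbf51ad7f98aafe55b5fd2cabff1c57f3afaff6155ff75cbfd8b17f1b32ff307) b27117 (.one (nat_lit 6) (nat_lit 3) (nat_lit 25) (nat_lit 0xc00565801b530192b601b80c04cd180583b010cc6008dec03235818a6302b5f) b27115 (.nil)))) (.one (nat_lit 56) (nat_lit 6) (nat_lit 31) (nat_lit 0xbf956580858300f295ff53ac091357fc472ffedb600324bff0857fa382ffbbf)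 b27118 (.nil))))) (.tok (nat_lit 64) (nat_lit 0xc06b9d807ee300e5c604ecec0314181306b02e526065dac0ba017f951302946) (.hit (nat_lit 7) (nat_lit 50) (nat_lit 0xc06b9d807ee300e5c604ecebfd4d981306b02e526065dac0ba017f8e3302946) b27119 (.hit (nat_lit 8) (nat_lit 51) (nat_lit 0xc0221d7ff5caff6b26028f4c0314180a8430083d601d76c0229d7f9513005f8) b27120 (.nil))) (.tok (nat_lit 67) (nat_lit 0xc04d6980e96b02936604404c085f180f18b0399d607b86c0e77980e06b03713) (.hit (nat_lit 9) (nat_lit 52) (nat_lit 0xc04d6980e96b02936604404c085f18099830399d607b86c0e77980335303713) b27121 (.tok (nat_lit 3) (nat_lit 0xc032017fc7830016660388cc01eed80f18b010eb602738c04415808b2b0139f) (.hit (nat_lit 12) (nat_lit 58) (nat_lit 0xc031e57f798aff5db6035b0c01eed80dd93010eb602738c04415802eb300e84) b27124 (.one (nat_lit 55) (nat_lit 13) (nat_lit 59) (nat_lit 0xc032017fc7830016660388cc0035580f18b01054601660c03b61808b2b0139f)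 b27125 (.nil))) (.tok (nat_lit 9) (nat_lit 0xc011b18023230126d601f78c04609802da3023fd604b32c08df580e06b021e6) (.hit (nat_lit 10) (nat_lit 53) (nat_lit 0xbfc12980232300be7600c0ec01079802013023fd604b32c08df5803d8b021e6) b27122 (.hit (nat_lit 11) (nat_lit 56) (nat_lit 0xc011b17fd39b0126d601f78c04609802da3010cb602a42c044d580e06b01ebf) b27123 (.nil))) (.nil)))) (.one (nat_lit 70) (nat_lit 14) (nat_lit 60) (nat_lit 0xbff71d801772ff55d6018a8c0473d8092e30184a602a38c039d97fe403015ca) b27126 (.nil)))))) (.nil))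
noncomputable def r28_13 : Rw Blk := .tok (nat_lit 9) (nat_lit 0x1780003039ff6088a0c131ed8231ab04d9f) (.hit (nat_lit 18) (nat_lit 0) (nat_lit 0x1780002ff7375ff99ac01c117fb2830059e) b27166 (.tok (nat_lit 14) (nat_lit 0x178000301b38602cf6c0a315811b0b024a0) (.hit (nat_lit 19) (nat_lit 61) (nat_lit 0x1780003000eb602cf6c061318099db01d1a) b27167 (.one (nat_lit 3) (nat_lit 20) (nat_lit 62) (nat_lit 0x1780002ffb566003f4c04e4d80490301269) b27168 (.tok (nat_lit 6) (nat_lit 0x178000301b38602b54c0a315811b0b024a0) (.hit (nat_lit 23) (nat_lit 65) (nat_lit 0x178000301b38602b54c0a315811b0b024a0) b27169 (.hit (nat_lit 24) (nat_lit 66) (nat_lit 0x1780002ff22c5fe0e2bfdcf97fe2aaffc36) b27170 (.nil))) (.tok (nat_lit 9) (nat_lit 0x1780002fee115fdaaec01a017fea53001a5) (.hit (nat_lit 21) (nat_lit 63) (nat_lit 0x1780002fe09f5fbc98bfd2497f740aff07f) b27171 (.hit (nat_lit 22) (nat_lit 64) (nat_lit 0x1780002fee115fdaaec01a017fea53001a5)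 b27172 (.nil))) (.nil))))) (.one (nat_lit 17) (nat_lit 25) (nat_lit 67) (nat_lit 0x1780002ff4dd5ff652c03625803aa300be0) b27173 (.tok (nat_lit 20) (nat_lit 0x1780002fe5d65fcab8bfedb57f69f2ff64d) (.hit (nat_lit 26) (nat_lit 68) (nat_lit 0x1780002fdee45fb922bfcb5d7f6632feec4) b27176 (.hit (nat_lit 27) (nat_lit 69) (nat_lit 0x1780002fe5d65fcab8bfedb57f69f2ff64d) b27177 (.nil))) (.tok (nat_lit 23) (nat_lit 0x1780003039ff6088a0c131ed8231ab04d9f) (.hit (nat_lit 28) (nat_lit 70) (nat_lit 0x1780003039ff6088a0c131ed8231ab04d9f) b27174 (.hit (nat_lit 29) (nat_lit 71) (nat_lit 0x1780002fdeda5fc00abfb2197f2752feab4) b27175 (.nil))) (.one (nat_lit 26) (nat_lit 30) (nat_lit 72) (nat_lit 0x1780002fe1495fbd54bfe1997f25f2ff096) b27178 (.one (nat_lit 29) (nat_lit 31) (nat_lit 73) (nat_lit 0x1780002fe6ee5fe0d6c051e97feeab00564) b27179 (.one (nat_lit 32) (nat_lit 32) (nat_lit 74) (nat_lit 0x1780002fee225fe02ac02ed97febfb009b6)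 b27181 (.one (nat_lit 35) (nat_lit 33) (nat_lit 75) (nat_lit 0x1780002fdfad5fb710bf97c17ef29afe41d) b27180 (.one (nat_lit 38) (nat_lit 34) (nat_lit 76) (nat_lit 0x1780002fe4725fc470bfd57d7f49eafef07) b27182 (.tok (nat_lit 41) (nat_lit 0x1780002ff03c5ff358c07bad80533b0141c) (.hit (nat_lit 35) (nat_lit 77) (nat_lit 0x1780002fd76f5fb93ebfcc417f52caff385) b27183 (.hit (nat_lit 36) (nat_lit 78) (nat_lit 0x1780002ff03c5ff358c07bad80533b0141c) b27184 (.nil))) (.tok (nat_lit 44) (nat_lit 0x1780002fe8af5fd6b6c0472580371b0050f) (.hit (nat_lit 37) (nat_lit 79) (nat_lit 0x1780002fcc055f9364bf7fe17ecf3afdbe5) b27187 (.hit (nat_lit 38) (nat_lit 80) (nat_lit 0x1780002fe8af5fd6b6c0472580371b0050f) b27188 (.nil))) (.tok (nat_lit 47) (nat_lit 0x1780002fdfdb5feee4c046417ff70b00e9d) (.hit (nat_lit 39) (nat_lit 81) (nat_lit 0x1780002fdfdb5feee4c046417ff70b00e9d) b27185 (.hit (nat_lit 40) (nat_lit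 82) (nat_lit 0x1780002fd79f5fc5f6bfe61d7f537aff211) b27186 (.nil))) (.one (nat_lit 50) (nat_lit 41) (nat_lit 83) (nat_lit 0x1780002ff0295fd878bff19d7f74aaff45f) b27189 (.tok (nat_lit 53) (nat_lit 0x1780002ff2d45fe5e6c05c3d8010db0063b) (.hit (nat_lit 42) (nat_lit 84) (nat_lit 0x1780002fe6b15fda54bfe8f57fb172ffc30) b27190 (.hit (nat_lit 43) (nat_lit 85) (nat_lit 0x1780002ff2d45fe5e6c05c3d8010db0063b) b27191 (.nil))) (.tok (nat_lit 56) (nat_lit 0x178000300adc5fdf80bfee757fac6300441) (.hit (nat_lit 44) (nat_lit 86) (nat_lit 0x178000300adc5fdf80bfee757fac6300441) b27192 (.one (nat_lit 3) (nat_lit 48) (nat_lit 90) (nat_lit 0x1780002fdf9d5fba94bfce417f6bfafef7d) b27196 (.tok (nat_lit 6) (nat_lit 0x1780002fdaf55fb144bfbba17f46bafead5) (.hit (nat_lit 46) (nat_lit 88) (nat_lit 0x1780002fdaf55fb144bfbba17f46bafead5) b27194 (.hit (nat_lit 47) (nat_lit 89) (nat_lit 0x1780002fd3ef5fa338bf9f897f0e8afe3cf)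 b27195 (.nil))) (.one (nat_lit 9) (nat_lit 45) (nat_lit 87) (nat_lit 0x1780002fde775fb848bfc9a97f62cafee57) b27193 (.nil))))) (.one (nat_lit 59) (nat_lit 49) (nat_lit 91) (nat_lit 0x1780002fe3205fc414bfeee57f44aaff4f0) b27197 (.nil)))))))))))))))))) (.tok (nat_lit 64) (nat_lit 0x1780003023c4604c5ac0d5f18153fb02ca6) (.hit (nat_lit 13) (nat_lit 0) (nat_lit 0x178000301ecc604c5ac0d5f18153fb02a93) b27161 (.tok (nat_lit 6) (nat_lit 0x1780002ffdd65fe136c005097fbf4affc64) (.hit (nat_lit 14) (nat_lit 7) (nat_lit 0x1780002fe2705fc03abfed6d7f9352ff9e2) b27164 (.hit (nat_lit 15) (nat_lit 15) (nat_lit 0x1780002ffdd65fe136c005097fbf4affc64) b27165 (.nil))) (.tok (nat_lit 9) (nat_lit 0x1780003023c4602b82c0cd3581473b02ca6) (.hit (nat_lit 16) (nat_lit 20) (nat_lit 0x178000301b5b60223ac0a17581086302597) b27162 (.hit (nat_lit 17) (nat_lit 28) (nat_lit 0x1780003023c4602b82c0cd3581473b02ca6) b27163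 (.nil))) (.nil)))) (.tok (nat_lit 67) (nat_lit 0x1780002ffc1d5ff278c051e9805c4b01301) (.hit (nat_lit 8) (nat_lit 0) (nat_lit 0x1780002ffc1d5fed34c0476180473b0105f) b27156 (.tok (nat_lit 3) (nat_lit 0x1780002ffb135ff180c04ff980586b01285) (.hit (nat_lit 9) (nat_lit 1) (nat_lit 0x1780002fead05fd0fac00eed7fd65300242) b27157 (.one (nat_lit 55) (nat_lit 10) (nat_lit 3) (nat_lit 0x1780002ffb135ff180c04ff980586b01285) b27158 (.nil))) (.tok (nat_lit 9) (nat_lit 0x1780002ffb8f5ff278c051e9805c4b01301) (.hit (nat_lit 11) (nat_lit 20) (nat_lit 0x1780002ffb8f5ff278c051e9805c4b01301) b27159 (.hit (nat_lit 12) (nat_lit 28) (nat_lit 0x1780002fe6c95fc8ecbffed17fb61affe3b) b27160 (.nil))) (.nil)))) (.tok (nat_lit 70) (nat_lit 0x1780003011be601ed6c0aaa5810dc302930) (.hit (nat_lit 0) (nat_lit 0) (nat_lit 0x178000300ef05ff7fac05e99809183015c9) b27148 (.tok (nat_lit 3) (nat_lit 0x1780003011be601ed6c0aaa5810dc302930)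 (.hit (nat_lit 1) (nat_lit 1) (nat_lit 0x1780002ffd955ff684c05a01806c7b01507) b27149 (.one (nat_lit 67) (nat_lit 2) (nat_lit 2) (nat_lit 0x1780003011be601ed6c0aaa5810dc302930) b27150 (.nil))) (.tok (nat_lit 6) (nat_lit 0x178000300e85601864c09dc180f3fb025f7) (.hit (nat_lit 3) (nat_lit 7) (nat_lit 0x1780002ff8d25fecfec046f580466301044) b27151 (.hit (nat_lit 6) (nat_lit 15) (nat_lit 0x1780002ffae45ff122c04f3d8056f301256) b27154 (.tok (nat_lit 55) (nat_lit 0x178000300e85601864c09dc180f3fb025f7) (.hit (nat_lit 4) (nat_lit 8) (nat_lit 0x1780003006466007e6c07cc580b20301db8) b27152 (.hit (nat_lit 7) (nat_lit 16) (nat_lit 0x178000300e14601782c09bfd80f07302586) b27155 (.one (nat_lit 6) (nat_lit 5) (nat_lit 9) (nat_lit 0x178000300e85601864c09dc180f3fb025f7) b27153 (.nil)))) (.nil)))) (.nil)))) (.nil))))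
noncomputable def r28_14 : Rw Blk := .tok (nat_lit 3) (nat_lit 0x178000303032605558c0774d81415302c7d) (.hit (nat_lit 0) (nat_lit 0) (nat_lit 0x178000303032605476c0774d80fed3027e2) b27198 (.tok (nat_lit 6) (nat_lit 0x178000300f6b601fc2c0487580b3c301f75) (.hit (nat_lit 1) (nat_lit 7) (nat_lit 0x1780002fe40e5fcbacbf748d7f636afef88) b27199 (.hit (nat_lit 6) (nat_lit 15) (nat_lit 0x1780002fe3155fdb5abf9e157f77aaff2eb) b27204 (.tok (nat_lit 14) (nat_lit 0x1780002ffd43601fc2c0487580b3c301f75) (.hit (nat_lit 2) (nat_lit 11) (nat_lit 0x1780002ffc23600b48bff3c58061db00f56) b27200 (.hit (nat_lit 7) (nat_lit 17) (nat_lit 0x1780002ffd43601306c04875808ccb01f75) b27205 (.one (nat_lit 9) (nat_lit 3) (nat_lit 12) (nat_lit 0x1780002ff8b4601fc2c01cb980b3c301993) b27201 (.nil)))) (.tok (nat_lit 56) (nat_lit 0x178000300f6b601ac6c01b398099bb017b5) (.hit (nat_lit 4) (nat_lit 13) (nat_lit 0x1780002ff4d15ffbdebfd4f1802433007a1)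 b27202 (.hit (nat_lit 8) (nat_lit 19) (nat_lit 0x1780002ff7cd5ff212c01b39802b8b00dce) b27206 (.one (nat_lit 6) (nat_lit 5) (nat_lit 14) (nat_lit 0x178000300f6b601ac6c0145d8099bb017b5) b27203 (.nil)))) (.nil))))) (.tok (nat_lit 52) (nat_lit 0x178000300c6f603bf6c04d1d80bc930238a) (.hit (nat_lit 9) (nat_lit 39) (nat_lit 0x178000300c6f603bf6c02e7980bc93022a1) b27207 (.hit (nat_lit 10) (nat_lit 40) (nat_lit 0x17800030038e602a42c04d1d80a7d30238a) b27208 (.nil))) (.tok (nat_lit 55) (nat_lit 0x178000302e39605558c06efd81415302c7d) (.hit (nat_lit 11) (nat_lit 41) (nat_lit 0x178000302e39605558c06efd81415302c7d) b27209 (.tok (nat_lit 3) (nat_lit 0x1780003009ce603032c03d9980f583021cb) (.hit (nat_lit 17) (nat_lit 47) (nat_lit 0x1780003009ce60252ec0279180c97301c49) b27215 (.one (nat_lit 67) (nat_lit 18) (nat_lit 48) (nat_lit 0x178000300613603032c03d9980f583021cb) b27216 (.nil))) (.tok (nat_lit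 6) (nat_lit 0x1780003010e4602da8c0388580eb5b02086) (.hit (nat_lit 12) (nat_lit 42) (nat_lit 0x178000300483601c46c015c180a5d3017d5) b27210 (.hit (nat_lit 15) (nat_lit 45) (nat_lit 0x1780003003a460181cc00d6d80952b015c0) b27213 (.tok (nat_lit 55) (nat_lit 0x1780003010e4602da8c0388580eb5b02086) (.hit (nat_lit 13) (nat_lit 43) (nat_lit 0x1780003010e4602da8c0388580eb5b02086) b27211 (.hit (nat_lit 16) (nat_lit 46) (nat_lit 0x178000300db46021fcc0212d80bcab01ab0) b27214 (.one (nat_lit 6) (nat_lit 14) (nat_lit 44) (nat_lit 0x17800030077f60126cc0020d807e6b012e8) b27212 (.nil)))) (.nil)))) (.nil)))) (.one (nat_lit 58) (nat_lit 19) (nat_lit 49) (nat_lit 0x1780002ffc58600a06c02cb9805a6301829) b27217 (.nil)))))) (.tok (nat_lit 9) (nat_lit 0x178000303761606abec12959820e6b03d77) (.hit (nat_lit 20) (nat_lit 0) (nat_lit 0x178000303338605d68c093d5818313026ec) b27218 (.tok (nat_lit 9) (nat_lit 0x178000303761606abec12959820e6b03d77)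 (.hit (nat_lit 21) (nat_lit 20) (nat_lit 0x178000301c29603992c098958135630216c) b27219 (.hit (nat_lit 24) (nat_lit 28) (nat_lit 0x178000300daf60181cc042c180822b01b4a) b27222 (.tok (nat_lit 14) (nat_lit 0x178000303761606abec12959820e6b03d77) (.hit (nat_lit 22) (nat_lit 24) (nat_lit 0x178000302a496053bac0f12d81b88b0332e) b27220 (.hit (nat_lit 25) (nat_lit 30) (nat_lit 0x17800030244a603fbac0a4718103db02d19) b27223 (.one (nat_lit 6) (nat_lit 23) (nat_lit 25) (nat_lit 0x178000303761606abec12959820e6b03d77) b27221 (.nil)))) (.one (nat_lit 56) (nat_lit 26) (nat_lit 31) (nat_lit 0x178000303578606634c09b0181630302fda) b27224 (.nil))))) (.nil))) (.nil))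
noncomputable def r28_15 : Rw Blk := .tok (nat_lit 9) (nat_lit 0x1780002f000060b7b4c1864d8305ab06d16) (.hit (nat_lit 0) (nat_lit 0) (nat_lit 0x1780002f000060330cc0d6ad8114db02875) b27225 (.tok (nat_lit 14) (nat_lit 0x1780002f000060b7b4c1766983017306d16) (.hit (nat_lit 1) (nat_lit 61) (nat_lit 0x1780002f000060639ec1029581b243042f9) b27226 (.one (nat_lit 3) (nat_lit 2) (nat_lit 62) (nat_lit 0x1780002f0000604210c0b83181986b0381e) b27227 (.tok (nat_lit 6) (nat_lit 0x1780002f000060b7b4c1766983017306d16) (.hit (nat_lit 5) (nat_lit 65) (nat_lit 0x1780002f000060b7b4c1766983017306d16) b27228 (.hit (nat_lit 6) (nat_lit 66) (nat_lit 0x1780002f0000603372c07dcd80fa230234e) b27229 (.nil))) (.tok (nat_lit 9) (nat_lit 0x1780002f0000603d54c0819d811ecb02be2) (.hit (nat_lit 3) (nat_lit 63) (nat_lit 0x1780002f0000603d54c0819d811ecb02be2) b27230 (.hit (nat_lit 4) (nat_lit 64) (nat_lit 0x1780002f0000600790c031598099c301834)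 b27231 (.nil))) (.nil))))) (.one (nat_lit 17) (nat_lit 7) (nat_lit 67) (nat_lit 0x1780002f00006022c4c07b0180edbb024f1) b27232 (.tok (nat_lit 20) (nat_lit 0x1780002f00006013dec03de58078f301727) (.hit (nat_lit 8) (nat_lit 68) (nat_lit 0x1780002f00006013dec02eb18078f301727) b27235 (.hit (nat_lit 9) (nat_lit 69) (nat_lit 0x1780002f00006008d8c03de580618b015f5) b27236 (.nil))) (.tok (nat_lit 23) (nat_lit 0x1780002f0000609ae2c1864d8305ab05ca1) (.hit (nat_lit 10) (nat_lit 70) (nat_lit 0x1780002f0000609ae2c1864d8305ab05ca1) b27233 (.hit (nat_lit 11) (nat_lit 71) (nat_lit 0x1780002f0000601e7ec041398064ab01201) b27234 (.nil))) (.one (nat_lit 38) (nat_lit 12) (nat_lit 76) (nat_lit 0x1780002f000060329ac0954d80e1bb02726) b27237 (.tok (nat_lit 41) (nat_lit 0x1780002f0000601b76c06bb980a92301c56) (.hit (nat_lit 13) (nat_lit 77) (nat_lit 0x1780002f00005ff4aec0044180134300c9c) b27238 (.hit (nat_lit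 14) (nat_lit 78) (nat_lit 0x1780002f0000601b76c06bb980a92301c56) b27239 (.nil))) (.tok (nat_lit 44) (nat_lit 0x1780002f0000600cccc053358089f3017ca) (.hit (nat_lit 15) (nat_lit 79) (nat_lit 0x1780002f00005ff4a8bff0457ffc1b0078c) b27242 (.hit (nat_lit 16) (nat_lit 80) (nat_lit 0x1780002f0000600cccc053358089f3017ca) b27243 (.nil))) (.tok (nat_lit 47) (nat_lit 0x1780002f00006040bcc0beb5813e33029f0) (.hit (nat_lit 17) (nat_lit 81) (nat_lit 0x1780002f00006040bcc0beb5813e33029f0) b27240 (.hit (nat_lit 18) (nat_lit 82) (nat_lit 0x1780002f0000601392c06839807eab0189e) b27241 (.nil))) (.one (nat_lit 50) (nat_lit 19) (nat_lit 83) (nat_lit 0x1780002f0000602b1ac09a9d80fd9b026fc) b27244 (.tok (nat_lit 53) (nat_lit 0x1780002f0000601faac03a2d809a83019ab) (.hit (nat_lit 20) (nat_lit 84) (nat_lit 0x1780002f00005ffd52c00715804a3b00d77) b27245 (.hit (nat_lit 21) (nat_lit 85) (nat_lit 0x1780002f0000601faac03a2d809a83019ab)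 b27246 (.nil))) (.tok (nat_lit 56) (nat_lit 0x1780002f0000605cc4c0b975818be30376b) (.hit (nat_lit 22) (nat_lit 86) (nat_lit 0x1780002f0000605cc4c0b975818be30376b) b27247 (.one (nat_lit 3) (nat_lit 26) (nat_lit 90) (nat_lit 0x1780002f0000602298c04c2580b3db01e84) b27251 (.tok (nat_lit 6) (nat_lit 0x1780002f000060141ec02f318079f301747) (.hit (nat_lit 24) (nat_lit 88) (nat_lit 0x1780002f000060141ec02f318079f301747) b27249 (.hit (nat_lit 25) (nat_lit 89) (nat_lit 0x1780002f0000600814c0171d8049cb01142) b27250 (.nil))) (.one (nat_lit 9) (nat_lit 23) (nat_lit 87) (nat_lit 0x1780002f0000602954c0599d80cecb021e2) b27248 (.nil))))) (.one (nat_lit 59) (nat_lit 27) (nat_lit 91) (nat_lit 0x1780002f00005ff21cc015b9800deb009d3) b27252 (.nil)))))))))))))) (.nil)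
noncomputable def r28_16 : Rw Blk := .tok (nat_lit 9) (nat_lit 0x5e0000bc000181a88303f55) (.hit (nat_lit 18) (nat_lit 0) (nat_lit 0x5e0000bc00017f05f2fec1f) b27271 (.tok (nat_lit 14) (nat_lit 0x5e0000bc000181a88303f55) (.hit (nat_lit 19) (nat_lit 61) (nat_lit 0x5e0000bc0001802df2ffee7) b27272 (.one (nat_lit 3) (nat_lit 20) (nat_lit 62) (nat_lit 0x5e0000bc00017f9cf2ff0c9) b27273 (.tok (nat_lit 6) (nat_lit 0x5e0000bc000181a88303f55) (.hit (nat_lit 23) (nat_lit 65) (nat_lit 0x5e0000bc000181a88303f55) b27274 (.hit (nat_lit 24) (nat_lit 66) (nat_lit 0x5e0000bc00017fa682ff5ab) b27275 (.nil))) (.tok (nat_lit 9) (nat_lit 0x5e0000bc00017f474afed70) (.hit (nat_lit 21) (nat_lit 63) (nat_lit 0x5e0000bc00017f1dcafed70) b27276 (.hit (nat_lit 22) (nat_lit 64) (nat_lit 0x5e0000bc00017f474afe475) b27277 (.nil))) (.nil))))) (.one (nat_lit 17) (nat_lit 25) (nat_lit 67) (nat_lit 0x5e0000bc00017f5a6afe34f)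 b27278 (.tok (nat_lit 20) (nat_lit 0x5e0000bc00017f43b2fea5e) (.hit (nat_lit 26) (nat_lit 68) (nat_lit 0x5e0000bc00017ebfdafe1b2) b27281 (.hit (nat_lit 27) (nat_lit 69) (nat_lit 0x5e0000bc00017f43b2fea5e) b27282 (.nil))) (.tok (nat_lit 23) (nat_lit 0x5e0000bc000180ac3301348) (.hit (nat_lit 28) (nat_lit 70) (nat_lit 0x5e0000bc000180ac3301348) b27279 (.hit (nat_lit 29) (nat_lit 71) (nat_lit 0x5e0000bc00017f37a2fdd0a) b27280 (.nil))) (.one (nat_lit 26) (nat_lit 30) (nat_lit 72) (nat_lit 0x5e0000bc00017f5952fdc2f) b27283 (.one (nat_lit 29) (nat_lit 31) (nat_lit 73) (nat_lit 0x5e0000bc00017f64b2fe598) b27284 (.one (nat_lit 32) (nat_lit 32) (nat_lit 74) (nat_lit 0x5e0000bc00017f9c82fe3c0) b27286 (.one (nat_lit 35) (nat_lit 33) (nat_lit 75) (nat_lit 0x5e0000bc00017f1c62fd3e0) b27285 (.one (nat_lit 38) (nat_lit 34) (nat_lit 76) (nat_lit 0x5e0000bc00017f38dafe1bd) b27287 (.tok (nat_lit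 41) (nat_lit 0x5e0000bc00017f2732fe464) (.hit (nat_lit 35) (nat_lit 77) (nat_lit 0x5e0000bc00017ed4b2fdca1) b27288 (.hit (nat_lit 36) (nat_lit 78) (nat_lit 0x5e0000bc00017f2732fe464) b27289 (.nil))) (.tok (nat_lit 44) (nat_lit 0x5e0000bc00017f26bafdfd6) (.hit (nat_lit 37) (nat_lit 79) (nat_lit 0x5e0000bc00017df302fc817) b27292 (.hit (nat_lit 38) (nat_lit 80) (nat_lit 0x5e0000bc00017f26bafdfd6) b27293 (.nil))) (.tok (nat_lit 47) (nat_lit 0x5e0000bc00017eee32fdcd0) (.hit (nat_lit 39) (nat_lit 81) (nat_lit 0x5e0000bc00017ece02fd994) b27290 (.hit (nat_lit 40) (nat_lit 82) (nat_lit 0x5e0000bc00017eee32fdcd0) b27291 (.nil))) (.one (nat_lit 50) (nat_lit 41) (nat_lit 83) (nat_lit 0x5e0000bc00017f70e2fde7d) b27294 (.tok (nat_lit 53) (nat_lit 0x5e0000bc00017f4b62fe83c) (.hit (nat_lit 42) (nat_lit 84) (nat_lit 0x5e0000bc00017f0af2fe83c) b27295 (.hit (nat_lit 43) (nat_lit 85) (nat_lit 0x5e0000bc00017f4b62fe5d0)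 b27296 (.nil))) (.tok (nat_lit 56) (nat_lit 0x5e0000bc00017fee12ff8f7) (.hit (nat_lit 44) (nat_lit 86) (nat_lit 0x5e0000bc00017fee12ff8f7) b27297 (.one (nat_lit 3) (nat_lit 48) (nat_lit 90) (nat_lit 0x5e0000bc00017ebc7afe146) b27301 (.tok (nat_lit 6) (nat_lit 0x5e0000bc00017f212afeddc) (.hit (nat_lit 46) (nat_lit 88) (nat_lit 0x5e0000bc00017f212afeddc) b27299 (.hit (nat_lit 47) (nat_lit 89) (nat_lit 0x5e0000bc00017e5602fd477) b27300 (.nil))) (.one (nat_lit 9) (nat_lit 45) (nat_lit 87) (nat_lit 0x5e0000bc00017f1dcafed70) b27298 (.nil))))) (.one (nat_lit 59) (nat_lit 49) (nat_lit 91) (nat_lit 0x5e0000bc00017f281afd693) b27302 (.nil)))))))))))))))))) (.tok (nat_lit 64) (nat_lit 0x5e0000bc0001813de303611) (.hit (nat_lit 13) (nat_lit 0) (nat_lit 0x5e0000bc000180c53301973) b27266 (.tok (nat_lit 6) (nat_lit 0x5e0000bc000180049300121) (.hit (nat_lit 14) (nat_lit 7) (nat_lit 0x5e0000bc00017f61faff409)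 b27269 (.hit (nat_lit 15) (nat_lit 15) (nat_lit 0x5e0000bc000180049300121) b27270 (.nil))) (.tok (nat_lit 9) (nat_lit 0x5e0000bc0001813de303611) (.hit (nat_lit 16) (nat_lit 20) (nat_lit 0x5e0000bc000181211b02c51) b27267 (.hit (nat_lit 17) (nat_lit 28) (nat_lit 0x5e0000bc0001813de303611) b27268 (.nil))) (.nil)))) (.tok (nat_lit 67) (nat_lit 0x5e0000bc00018049d301104) (.hit (nat_lit 8) (nat_lit 0) (nat_lit 0x5e0000bc00017fd2f2ffae7) b27261 (.tok (nat_lit 3) (nat_lit 0x5e0000bc00018049d301104) (.hit (nat_lit 9) (nat_lit 1) (nat_lit 0x5e0000bc00017f9bd2ffb44) b27262 (.one (nat_lit 55) (nat_lit 10) (nat_lit 3) (nat_lit 0x5e0000bc00018049d301104) b27263 (.nil))) (.tok (nat_lit 9) (nat_lit 0x5e0000bc00017f9f02ffbaa) (.hit (nat_lit 11) (nat_lit 20) (nat_lit 0x5e0000bc00017f9f02ffbaa) b27264 (.hit (nat_lit 12) (nat_lit 28) (nat_lit 0x5e0000bc00017f3c1afef4d) b27265 (.nil))) (.nil)))) (.tok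 (nat_lit 70) (nat_lit 0x5e0000bc000180c2ab0201f) (.hit (nat_lit 0) (nat_lit 0) (nat_lit 0x5e0000bc0001801113009ec) b27253 (.tok (nat_lit 3) (nat_lit 0x5e0000bc0001806d4301572) (.hit (nat_lit 1) (nat_lit 1) (nat_lit 0x5e0000bc00017fe5cb00483) b27254 (.one (nat_lit 67) (nat_lit 2) (nat_lit 2) (nat_lit 0x5e0000bc0001806d4301572) b27255 (.nil))) (.tok (nat_lit 6) (nat_lit 0x5e0000bc000180c2ab0201f) (.hit (nat_lit 3) (nat_lit 7) (nat_lit 0x5e0000bc00018049c301102) b27256 (.hit (nat_lit 6) (nat_lit 15) (nat_lit 0x5e0000bc00017fe06b003d7) b27259 (.tok (nat_lit 55) (nat_lit 0x5e0000bc000180c2ab0201f) (.hit (nat_lit 4) (nat_lit 8) (nat_lit 0x5e0000bc00018098c301ae2) b27257 (.hit (nat_lit 7) (nat_lit 16) (nat_lit 0x5e0000bc00018068d3014e4) b27260 (.one (nat_lit 6) (nat_lit 5) (nat_lit 9) (nat_lit 0x5e0000bc000180c2ab0201f) b27258 (.nil)))) (.nil)))) (.nil)))) (.nil))))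
noncomputable def r28_17 : Rw Blk := .tok (nat_lit 3) (nat_lit 0x5e0000bc000181cc5b041ca) (.hit (nat_lit 0) (nat_lit 0) (nat_lit 0x5e0000bc0001811633026a0) b27303 (.tok (nat_lit 6) (nat_lit 0x5e0000bc000180925301ecc) (.hit (nat_lit 1) (nat_lit 7) (nat_lit 0x5e0000bc00017f5cb2ff818) b27304 (.hit (nat_lit 6) (nat_lit 15) (nat_lit 0x5e0000bc00017f126afeecf) b27309 (.tok (nat_lit 14) (nat_lit 0x5e0000bc00018043eb014ff) (.hit (nat_lit 2) (nat_lit 11) (nat_lit 0x5e0000bc000180251b01125) b27305 (.hit (nat_lit 7) (nat_lit 17) (nat_lit 0x5e0000bc00017fcf1300664) b27310 (.one (nat_lit 9) (nat_lit 3) (nat_lit 12) (nat_lit 0x5e0000bc00018043eb014ff) b27306 (.nil)))) (.tok (nat_lit 56) (nat_lit 0x5e0000bc000180925301ecc) (.hit (nat_lit 4) (nat_lit 13) (nat_lit 0x5e0000bc00017ff26300ace) b27307 (.hit (nat_lit 8) (nat_lit 19) (nat_lit 0x5e0000bc00017fb3c3002fa) b27311 (.one (nat_lit 6) (nat_lit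 5) (nat_lit 14) (nat_lit 0x5e0000bc000180925301ecc) b27308 (.nil)))) (.nil))))) (.tok (nat_lit 52) (nat_lit 0x5e0000bc000180955301f2c) (.hit (nat_lit 9) (nat_lit 39) (nat_lit 0x5e0000bc000180955301f2c) b27312 (.hit (nat_lit 10) (nat_lit 40) (nat_lit 0x5e0000bc00018028cb0119b) b27313 (.nil))) (.tok (nat_lit 55) (nat_lit 0x5e0000bc000181cc5b041ca) (.hit (nat_lit 11) (nat_lit 41) (nat_lit 0x5e0000bc000181cc5b041ca) b27314 (.tok (nat_lit 3) (nat_lit 0x5e0000bc000180a163020ae) (.hit (nat_lit 17) (nat_lit 47) (nat_lit 0x5e0000bc0001808db301e38) b27320 (.one (nat_lit 67) (nat_lit 18) (nat_lit 48) (nat_lit 0x5e0000bc000180a163020ae) b27321 (.nil))) (.tok (nat_lit 6) (nat_lit 0x5e0000bc000180a0d30209c) (.hit (nat_lit 12) (nat_lit 42) (nat_lit 0x5e0000bc000180764b01b4b) b27315 (.hit (nat_lit 15) (nat_lit 45) (nat_lit 0x5e0000bc0001804a9b015d5) b27318 (.tok (nat_lit 55) (nat_lit 0x5e0000bc000180a0d30209c)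 (.hit (nat_lit 13) (nat_lit 43) (nat_lit 0x5e0000bc000180a0d30209c) b27316 (.hit (nat_lit 16) (nat_lit 46) (nat_lit 0x5e0000bc000180763301b48) b27319 (.one (nat_lit 6) (nat_lit 14) (nat_lit 44) (nat_lit 0x5e0000bc000180957b01f31) b27317 (.nil)))) (.nil)))) (.nil)))) (.one (nat_lit 58) (nat_lit 19) (nat_lit 49) (nat_lit 0x5e0000bc00017fbff300480) b27322 (.nil)))))) (.tok (nat_lit 9) (nat_lit 0x5e0000bc000182c2a305fc1) (.hit (nat_lit 20) (nat_lit 0) (nat_lit 0x5e0000bc000181074301c2d) b27323 (.tok (nat_lit 9) (nat_lit 0x5e0000bc000182c2a305fc1) (.hit (nat_lit 21) (nat_lit 20) (nat_lit 0x5e0000bc00018174e303550) b27324 (.hit (nat_lit 24) (nat_lit 28) (nat_lit 0x5e0000bc0001801d1b00016) b27327 (.tok (nat_lit 14) (nat_lit 0x5e0000bc000182c2a305fc1) (.hit (nat_lit 22) (nat_lit 24) (nat_lit 0x5e0000bc000182c2a305fc1) b27325 (.hit (nat_lit 25) (nat_lit 30) (nat_lit 0x5e0000bc000180a4a300776)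 b27328 (.one (nat_lit 6) (nat_lit 23) (nat_lit 25) (nat_lit 0x5e0000bc000181d14b044f0) b27326 (.nil)))) (.one (nat_lit 56) (nat_lit 26) (nat_lit 31) (nat_lit 0x5e0000bc000181403301714) b27329 (.nil))))) (.nil))) (.nil))
noncomputable def r28_18 : Rw Blk := .tok (nat_lit 6) (nat_lit 0x2f00005e0000c025fd80c4eb01b22) (.hit (nat_lit 21) (nat_lit 0) (nat_lit 0x2f00005e0000bf896d7f84daff04c) b27351 (.tok (nat_lit 14) (nat_lit 0x2f00005e0000c0156980c4eb0170a) (.hit (nat_lit 22) (nat_lit 61) (nat_lit 0x2f00005e0000bfc6958038eb00618) b27352 (.one (nat_lit 3) (nat_lit 23) (nat_lit 62) (nat_lit 0x2f00005e0000bfac617fb4daff4df) b27353 (.tok (nat_lit 6) (nat_lit 0x2f00005e0000bf94e17fb0eaff66d) (.hit (nat_lit 26) (nat_lit 65) (nat_lit 0x2f00005e0000bf50cd7fb0eaff66d) b27354 (.hit (nat_lit 27) (nat_lit 66) (nat_lit 0x2f00005e0000bf94e17faecaff36a) b27355 (.nil))) (.tok (nat_lit 9) (nat_lit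 0x2f00005e0000c0156980c4eb0170a) (.hit (nat_lit 24) (nat_lit 63) (nat_lit 0x2f00005e0000c0156980c4eb0170a) b27356 (.hit (nat_lit 25) (nat_lit 64) (nat_lit 0x2f00005e0000bfbc957fc71aff9da) b27357 (.nil))) (.nil))))) (.one (nat_lit 17) (nat_lit 28) (nat_lit 67) (nat_lit 0x2f00005e0000bfb76d7f88f2ff01e) b27358 (.tok (nat_lit 20) (nat_lit 0x2f00005e0000bfb5a9808b1300f47) (.hit (nat_lit 29) (nat_lit 68) (nat_lit 0x2f00005e0000bfb5a9808b1300f47) b27361 (.hit (nat_lit 30) (nat_lit 69) (nat_lit 0x2f00005e0000bf89857f0962fe0eb) b27362 (.nil))) (.tok (nat_lit 23) (nat_lit 0x2f00005e0000bfc9257fa332ff386) (.hit (nat_lit 31) (nat_lit 70) (nat_lit 0x2f00005e0000bf18017f3f52fe83a) b27359 (.hit (nat_lit 32) (nat_lit 71) (nat_lit 0x2f00005e0000bfc9257fa332ff386) b27360 (.nil))) (.one (nat_lit 26) (nat_lit 33) (nat_lit 72) (nat_lit 0x2f00005e0000bfa1657f1b8afe2c5) b27363 (.one (nat_lit 29) (nat_lit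 34) (nat_lit 73) (nat_lit 0x2f00005e0000bf6c717f4392fe7a7) b27364 (.one (nat_lit 32) (nat_lit 35) (nat_lit 74) (nat_lit 0x2f00005e0000bf5cf57ec06afd7d2) b27366 (.one (nat_lit 35) (nat_lit 36) (nat_lit 75) (nat_lit 0x2f00005e0000bfc0e97f598afea65) b27365 (.one (nat_lit 50) (nat_lit 37) (nat_lit 83) (nat_lit 0x2f00005e0000bf54057efbd2fdecf) b27376 (.tok (nat_lit 53) (nat_lit 0x2f00005e0000bf976d7febeaffb24) (.hit (nat_lit 38) (nat_lit 84) (nat_lit 0x2f00005e0000bf976d7febeaffb24) b27377 (.hit (nat_lit 39) (nat_lit 85) (nat_lit 0x2f00005e0000bf39057eea2afdc73) b27378 (.nil))) (.tok (nat_lit 56) (nat_lit 0x2f00005e0000c025fd80bc2b01b22) (.hit (nat_lit 40) (nat_lit 86) (nat_lit 0x2f00005e0000c00b2580bc2b01b22) b27379 (.one (nat_lit 3) (nat_lit 44) (nat_lit 90) (nat_lit 0x2f00005e0000bfce3d7ff90b00123) b27383 (.tok (nat_lit 6) (nat_lit 0x2f00005e0000bfc4918059db00751) (.hit (nat_lit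 42) (nat_lit 88) (nat_lit 0x2f00005e0000bfc4918059db00751) b27381 (.hit (nat_lit 43) (nat_lit 89) (nat_lit 0x2f00005e0000bf5dd17f5002fe338) b27382 (.nil))) (.one (nat_lit 9) (nat_lit 41) (nat_lit 87) (nat_lit 0x2f00005e0000c025fd80aee301623) b27380 (.nil))))) (.one (nat_lit 59) (nat_lit 45) (nat_lit 91) (nat_lit 0x2f00005e0000bf37917ef98afde61) b27384 (.one (nat_lit 62) (nat_lit 46) (nat_lit 92) (nat_lit 0x2f00005e0000bf8fb17efba2fde70) b27367 (.tok (nat_lit 65) (nat_lit 0x2f00005e0000bfa4bd7f6c62feb20) (.hit (nat_lit 47) (nat_lit 93) (nat_lit 0x2f00005e0000bf76a17f6c62feb20) b27368 (.hit (nat_lit 48) (nat_lit 94) (nat_lit 0x2f00005e0000bfa4bd7f203afe2c2) b27369 (.nil))) (.tok (nat_lit 68) (nat_lit 0x2f00005e0000bfb6557fe562ffcfc) (.hit (nat_lit 49) (nat_lit 95) (nat_lit 0x2f00005e0000bfb6557fe562ffcfc) b27370 (.one (nat_lit 3) (nat_lit 53) (nat_lit 99) (nat_lit 0x2f00005e0000bf1f557f4dfafea0f)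 b27374 (.one (nat_lit 6) (nat_lit 50) (nat_lit 96) (nat_lit 0x2f00005e0000bf32bd7f74cafeee9) b27371 (.tok (nat_lit 9) (nat_lit 0x2f00005e0000bf55157fb97aff77f) (.hit (nat_lit 51) (nat_lit 97) (nat_lit 0x2f00005e0000bf55157fb97aff77f) b27372 (.hit (nat_lit 52) (nat_lit 98) (nat_lit 0x2f00005e0000bf33817f7652fef1a) b27373 (.nil))) (.nil))))) (.one (nat_lit 71) (nat_lit 54) (nat_lit 100) (nat_lit 0x2f00005e0000bf926d7f2792fe39d) b27375 (.nil)))))))))))))))))) (.tok (nat_lit 52) (nat_lit 0x2f00005e0000c03a91817de302b06) (.hit (nat_lit 16) (nat_lit 0) (nat_lit 0x2f00005e0000c02575815de302292) b27346 (.tok (nat_lit 6) (nat_lit 0x2f00005e0000c03a91817de302b06) (.hit (nat_lit 17) (nat_lit 7) (nat_lit 0x2f00005e0000c03a91817de302b06) b27349 (.hit (nat_lit 18) (nat_lit 15) (nat_lit 0x2f00005e0000c017e1813e23027c5) b27350 (.nil))) (.tok (nat_lit 9) (nat_lit 0x2f00005e0000c037e581078b02114)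 (.hit (nat_lit 19) (nat_lit 20) (nat_lit 0x2f00005e0000bfa9058030fb0002a) b27347 (.hit (nat_lit 20) (nat_lit 28) (nat_lit 0x2f00005e0000c037e581078b02114) b27348 (.nil))) (.nil)))) (.tok (nat_lit 55) (nat_lit 0x2f00005e0000c0253580a07300ebb) (.hit (nat_lit 8) (nat_lit 0) (nat_lit 0x2f00005e0000c0253580811b00ebb) b27338 (.tok (nat_lit 3) (nat_lit 0x2f00005e0000bfcbb580765b008d6) (.hit (nat_lit 9) (nat_lit 1) (nat_lit 0x2f00005e0000bfbc658057bb00502) b27339 (.one (nat_lit 67) (nat_lit 10) (nat_lit 2) (nat_lit 0x2f00005e0000bfcbb580765b008d6) b27340 (.nil))) (.tok (nat_lit 6) (nat_lit 0x2f00005e0000bfe0c180a07300e19) (.hit (nat_lit 11) (nat_lit 7) (nat_lit 0x2f00005e0000bfa151802192ffe3d) b27341 (.hit (nat_lit 14) (nat_lit 15) (nat_lit 0x2f00005e0000bf76e17fccb2ff3a1) b27344 (.tok (nat_lit 55) (nat_lit 0x2f00005e0000bfe0c180a07300e19) (.hit (nat_lit 12) (nat_lit 8) (nat_lit 0x2f00005e0000bfa665802bbafff82)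 b27342 (.hit (nat_lit 15) (nat_lit 16) (nat_lit 0x2f00005e0000bfe0c180a07300e19) b27345 (.one (nat_lit 6) (nat_lit 13) (nat_lit 9) (nat_lit 0x2f00005e0000bfcbd580769b008de) b27343 (.nil)))) (.nil)))) (.nil)))) (.tok (nat_lit 58) (nat_lit 0x2f00005e0000c02add8134ab020a0) (.hit (nat_lit 0) (nat_lit 0) (nat_lit 0x2f00005e0000bfd0f5809cb3011f7) b27330 (.tok (nat_lit 3) (nat_lit 0x2f00005e0000bffcfd80d8eb01528) (.hit (nat_lit 1) (nat_lit 1) (nat_lit 0x2f00005e0000bfe37580a5db00ec6) b27331 (.one (nat_lit 55) (nat_lit 2) (nat_lit 3) (nat_lit 0x2f00005e0000bffcfd80d8eb01528) b27332 (.nil))) (.tok (nat_lit 9) (nat_lit 0x2f00005e0000c02add8134ab020a0) (.hit (nat_lit 3) (nat_lit 20) (nat_lit 0x2f00005e0000bfdbd580969b00cde) b27333 (.hit (nat_lit 6) (nat_lit 28) (nat_lit 0x2f00005e0000bfc76d806dcb007c4) b27336 (.tok (nat_lit 67) (nat_lit 0x2f00005e0000c02add8134ab020a0) (.hit (nat_lit 4)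 (nat_lit 21) (nat_lit 0x2f00005e0000c002e180e4b3016a1) b27334 (.hit (nat_lit 7) (nat_lit 29) (nat_lit 0x2f00005e0000c00be180f6b3018e1) b27337 (.one (nat_lit 9) (nat_lit 5) (nat_lit 22) (nat_lit 0x2f00005e0000c02add8134ab020a0) b27335 (.nil)))) (.nil)))) (.nil)))) (.nil))))
noncomputable def r28_19 : Rw Blk := .tok (nat_lit 3) (nat_lit 0x2f00005e0000c0d1a181d08b03ce5) (.hit (nat_lit 0) (nat_lit 0) (nat_lit 0x2f00005e0000c07db181502302a3d) b27385 (.tok (nat_lit 9) (nat_lit 0x2f00005e0000c051fd80a23301284) (.hit (nat_lit 1) (nat_lit 20) (nat_lit 0x2f00005e0000bfe3d97fc5eaff6fb) b27386 (.hit (nat_lit 4) (nat_lit 28) (nat_lit 0x2f00005e0000bf758d7ee952fdb68) b27389 (.one (nat_lit 56) (nat_lit 5) (nat_lit 31) (nat_lit 0x2f00005e0000bfe6697fcb0aff79f) b27390 (.tok (nat_lit 68) (nat_lit 0x2f00005e0000c051fd80a23301284) (.hit (nat_lit 2) (nat_lit 26) (nat_lit 0x2f00005e0000bfdf117fbc5aff5c9)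 b27387 (.hit (nat_lit 6) (nat_lit 32) (nat_lit 0x2f00005e0000bfc9817f913aff065) b27391 (.one (nat_lit 9) (nat_lit 3) (nat_lit 27) (nat_lit 0x2f00005e0000c051fd80a23301284) b27388 (.nil)))) (.nil))))) (.tok (nat_lit 64) (nat_lit 0x2f00005e0000c02615804a630078a) (.hit (nat_lit 7) (nat_lit 50) (nat_lit 0x2f00005e0000c024e58048030073e) b27392 (.hit (nat_lit 8) (nat_lit 51) (nat_lit 0x2f00005e0000c02615804a630078a) b27393 (.nil))) (.tok (nat_lit 67) (nat_lit 0x2f00005e0000c0d1a181d08b03ce5) (.hit (nat_lit 9) (nat_lit 52) (nat_lit 0x2f00005e0000c0d1a181d08b03ce5) b27394 (.one (nat_lit 3) (nat_lit 15) (nat_lit 58) (nat_lit 0x2f00005e0000c04071807f1b00e21) b27400 (.tok (nat_lit 9) (nat_lit 0x2f00005e0000c068f980d02b01843) (.hit (nat_lit 10) (nat_lit 53) (nat_lit 0x2f00005e0000c068f980d02b01843) b27395 (.hit (nat_lit 13) (nat_lit 56) (nat_lit 0x2f00005e0000c03759806ceb00bdb) b27398 (.tok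 (nat_lit 67) (nat_lit 0x2f00005e0000c0664180cabb01795) (.hit (nat_lit 11) (nat_lit 54) (nat_lit 0x2f00005e0000c0664180cabb01795) b27396 (.hit (nat_lit 14) (nat_lit 57) (nat_lit 0x2f00005e0000c045d18089db00f79) b27399 (.one (nat_lit 9) (nat_lit 12) (nat_lit 55) (nat_lit 0x2f00005e0000c03045805ec300a16) b27397 (.nil)))) (.nil)))) (.nil)))) (.one (nat_lit 70) (nat_lit 16) (nat_lit 60) (nat_lit 0x2f00005e0000c013fd80263300304) b27401 (.nil)))))) (.tok (nat_lit 6) (nat_lit 0x2f00005e0000c0fa5582c6f3054d5) (.hit (nat_lit 17) (nat_lit 0) (nat_lit 0x2f00005e0000c0b46982537b043ad) b27402 (.tok (nat_lit 6) (nat_lit 0x2f00005e0000c0856d81c6b3037ee) (.hit (nat_lit 18) (nat_lit 7) (nat_lit 0x2f00005e0000c0856d81c6b3037ee) b27403 (.hit (nat_lit 19) (nat_lit 15) (nat_lit 0x2f00005e0000bfd4d1806d330115b) b27404 (.one (nat_lit 68) (nat_lit 20) (nat_lit 18) (nat_lit 0x2f00005e0000c080a58123a302a11)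 b27405 (.nil)))) (.tok (nat_lit 52) (nat_lit 0x2f00005e0000c0e1e982c39304900) (.hit (nat_lit 21) (nat_lit 39) (nat_lit 0x2f00005e0000c0e1e982c393047e3) b27406 (.hit (nat_lit 22) (nat_lit 40) (nat_lit 0x2f00005e0000c0e0d582362b04900) b27407 (.nil))) (.tok (nat_lit 55) (nat_lit 0x2f00005e0000c0f6b9824c730468c) (.hit (nat_lit 23) (nat_lit 41) (nat_lit 0x2f00005e0000c0f6b9824c730468c) b27408 (.one (nat_lit 3) (nat_lit 26) (nat_lit 47) (nat_lit 0x2f00005e0000c0bb1d8182bb0322c) b27411 (.tok (nat_lit 6) (nat_lit 0x2f00005e0000c0939d8207d304074) (.hit (nat_lit 24) (nat_lit 42) (nat_lit 0x2f00005e0000c08bc98207d304074) b27409 (.hit (nat_lit 25) (nat_lit 45) (nat_lit 0x2f00005e0000c0939d81a1f30311f) b27410 (.nil))) (.nil)))) (.one (nat_lit 58) (nat_lit 27) (nat_lit 49) (nat_lit 0x2f00005e0000c0fa5582c6f3054d5) b27412 (.nil)))))) (.nil))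
noncomputable def r28_20 : Rw Blk := .tok (nat_lit 3) (nat_lit 0x5e0000bc00017f0d22ffed3) (.hit (nat_lit 15) (nat_lit 0) (nat_lit 0x5e0000bc00017e91fafe7ac) b27428 (.tok (nat_lit 9) (nat_lit 0x5e0000bc00017e494afe7ab) (.hit (nat_lit 16) (nat_lit 20) (nat_lit 0x5e0000bc00017d22c2fc2da) b27429 (.hit (nat_lit 21) (nat_lit 28) (nat_lit 0x5e0000bc00017c76cafad5b) b27434 (.tok (nat_lit 14) (nat_lit 0x5e0000bc00017e283afe389) (.hit (nat_lit 17) (nat_lit 24) (nat_lit 0x5e0000bc00017dbc8afd613) b27430 (.hit (nat_lit 22) (nat_lit 30) (nat_lit 0x5e0000bc00017e283afe389) b27435 (.one (nat_lit 6) (nat_lit 18) (nat_lit 25) (nat_lit 0x5e0000bc00017e0912fdfa4) b27431 (.nil)))) (.one (nat_lit 56) (nat_lit 23) (nat_lit 31) (nat_lit 0x5e0000bc00017dbceafd61f) b27436 (.tok (nat_lit 68) (nat_lit 0x5e0000bc00017e494afe7ab) (.hit (nat_lit 19) (nat_lit 26) (nat_lit 0x5e0000bc00017dbf92fd674) b27432 (.hit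 (nat_lit 24) (nat_lit 32) (nat_lit 0x5e0000bc00017e0bd2fdffc) b27437 (.one (nat_lit 9) (nat_lit 20) (nat_lit 27) (nat_lit 0x5e0000bc00017e494afe7ab) b27433 (.nil)))) (.nil)))))) (.tok (nat_lit 64) (nat_lit 0x5e0000bc00017e78eafed9f) (.hit (nat_lit 25) (nat_lit 50) (nat_lit 0x5e0000bc00017e403afe689) b27438 (.hit (nat_lit 26) (nat_lit 51) (nat_lit 0x5e0000bc00017e78eafed9f) b27439 (.nil))) (.tok (nat_lit 67) (nat_lit 0x5e0000bc00017f0d22ffed3) (.hit (nat_lit 27) (nat_lit 52) (nat_lit 0x5e0000bc00017ed2d2ffb91) b27440 (.tok (nat_lit 3) (nat_lit 0x5e0000bc00017eb162ff4ae) (.hit (nat_lit 33) (nat_lit 58) (nat_lit 0x5e0000bc00017eb162ff4ae) b27446 (.one (nat_lit 55) (nat_lit 34) (nat_lit 59) (nat_lit 0x5e0000bc00017e5f72fea70) b27447 (.nil))) (.tok (nat_lit 9) (nat_lit 0x5e0000bc00017f0d22ffed3) (.hit (nat_lit 28) (nat_lit 53) (nat_lit 0x5e0000bc00017eb8eaff59f) b27441 (.hit (nat_lit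 31) (nat_lit 56) (nat_lit 0x5e0000bc00017e9acaff1db) b27444 (.tok (nat_lit 67) (nat_lit 0x5e0000bc00017f0d22ffed3) (.hit (nat_lit 29) (nat_lit 54) (nat_lit 0x5e0000bc00017f0d22ffd8d) b27442 (.hit (nat_lit 32) (nat_lit 57) (nat_lit 0x5e0000bc00017e9e72ff250) b27445 (.one (nat_lit 9) (nat_lit 30) (nat_lit 55) (nat_lit 0x5e0000bc00017f028affed3) b27443 (.nil)))) (.nil)))) (.nil)))) (.one (nat_lit 70) (nat_lit 35) (nat_lit 60) (nat_lit 0x5e0000bc00017eacfaff421) b27448 (.nil)))))) (.tok (nat_lit 6) (nat_lit 0x5e0000bc0001809df302708) (.hit (nat_lit 0) (nat_lit 0) (nat_lit 0x5e0000bc00017ec242fe259) b27413 (.tok (nat_lit 6) (nat_lit 0x5e0000bc00017f60c2ff83b) (.hit (nat_lit 1) (nat_lit 7) (nat_lit 0x5e0000bc00017e6122fd20c) b27414 (.hit (nat_lit 4) (nat_lit 15) (nat_lit 0x5e0000bc00017e6752fc5bb) b27417 (.tok (nat_lit 14) (nat_lit 0x5e0000bc00017f60c2ff83b) (.hit (nat_lit 2) (nat_lit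 11) (nat_lit 0x5e0000bc00017f60c2ff4bd) b27415 (.hit (nat_lit 5) (nat_lit 17) (nat_lit 0x5e0000bc00017e8ff2fd02d) b27418 (.one (nat_lit 9) (nat_lit 3) (nat_lit 12) (nat_lit 0x5e0000bc00017f5d5aff83b) b27416 (.nil)))) (.one (nat_lit 68) (nat_lit 6) (nat_lit 18) (nat_lit 0x5e0000bc00017e7ea2fdf2d) b27419 (.nil))))) (.tok (nat_lit 52) (nat_lit 0x5e0000bc00017edf42fe3b8) (.hit (nat_lit 7) (nat_lit 39) (nat_lit 0x5e0000bc00017edf42fe12e) b27420 (.hit (nat_lit 8) (nat_lit 40) (nat_lit 0x5e0000bc00017ea9aafe3b8) b27421 (.nil))) (.tok (nat_lit 55) (nat_lit 0x5e0000bc0001809df302708) (.hit (nat_lit 9) (nat_lit 41) (nat_lit 0x5e0000bc00017faf2300937) b27422 (.tok (nat_lit 3) (nat_lit 0x5e0000bc0001809df302708) (.hit (nat_lit 12) (nat_lit 47) (nat_lit 0x5e0000bc00018066630179f) b27425 (.one (nat_lit 67) (nat_lit 13) (nat_lit 48) (nat_lit 0x5e0000bc0001809df302708) b27426 (.nil))) (.tok (nat_lit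 6) (nat_lit 0x5e0000bc00017f13eaffa7a) (.hit (nat_lit 10) (nat_lit 42) (nat_lit 0x5e0000bc00017f13eaffa7a) b27423 (.hit (nat_lit 11) (nat_lit 45) (nat_lit 0x5e0000bc00017ed70afe3c3) b27424 (.nil))) (.nil)))) (.one (nat_lit 58) (nat_lit 14) (nat_lit 49) (nat_lit 0x5e0000bc00017e40dafda8c) b27427 (.nil)))))) (.nil))
noncomputable def r28_21 : Rw Blk := .tok (nat_lit 3) (nat_lit 0x2fd2835faf88bf43ed7ee31afd7945fb6bcbfe83d7f372afdf91) (.hit (nat_lit 0) (nat_lit 0) (nat_lit 0x2fd0f05f93b4bf3d6d7ee31afd7945f9d9ebf9b517ebc8afd81d) b36052 (.tok (nat_lit 6) (nat_lit 0x2fd2835faf88bf43ed7ed92afd4d55fb6bcbfe83d7f372afd853) (.hit (nat_lit 1) (nat_lit 7) (nat_lit 0x2fd2805faf88bf43ed7ed912fd4d25fb6bcbfe83d7f372afd84b) b27452 (.hit (nat_lit 2) (nat_lit 15) (nat_lit 0x2fd2835f887abf32c57ed92afd4d55f922ebf64e57e64cafd853) b27453 (.nil))) (.tok (nat_lit 9) (nat_lit 0x2fd2835faf88bf43ed7ed92afd4d55f94f8bf6e817e7d1afdf91)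 (.hit (nat_lit 3) (nat_lit 20) (nat_lit 0x2fd2805faf88bf43ed7ed912fd4d25f730cbf46a57e51d2fdf91) b27450 (.hit (nat_lit 4) (nat_lit 28) (nat_lit 0x2fd2835f887abf32c57ed92afd4d55f94f8bf6e817e7d1afdc2a) b27451 (.nil))) (.nil)))) (.tok (nat_lit 6) (nat_lit 0x3000006011c8c03235800002ff44d603182c03c1580406301dbc) (.hit (nat_lit 14) (nat_lit 0) (nat_lit 0x2fe8345fbeb2bf66057facf2fe2655fdea6bfe0657f89baff13b) b27454 (.tok (nat_lit 3) (nat_lit 0x2ff0db5fe482bfc5b97fb8cafef92601ac4c03c1580406300d5c) (.hit (nat_lit 15) (nat_lit 1) (nat_lit 0x2fd90e5fa86cbf3d897f045afd4d85fd9a2bfd4fd7f755afee53) b27455 (.one (nat_lit 67) (nat_lit 16) (nat_lit 2) (nat_lit 0x2ff0db5fe482bfc5b97fb8cafef92601ac4c03c1580406300d5c) b27456 (.nil))) (.tok (nat_lit 6) (nat_lit 0x3000006011c8c03235800002ff44d603182c0176980155b01dbc) (.hit (nat_lit 17) (nat_lit 7) (nat_lit 0x2fe1515fc6b6bf67d97f1dd2fd9f75fda30bfd90d7f7a3afeeed)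 b27457 (.hit (nat_lit 21) (nat_lit 15) (nat_lit 0x2fd6765fa63abf5a017eef9afd50d5fd284bfc4b57f54fafea9a) b27461 (.tok (nat_lit 55) (nat_lit 0x3000006011c8c03235800002ff44d603182c0176980155b01dbc) (.hit (nat_lit 18) (nat_lit 8) (nat_lit 0x2ffa7f5fe814bf9e517fbe9afec905ffbbcbffc0d7fd24b0038f) b27458 (.hit (nat_lit 22) (nat_lit 16) (nat_lit 0x2ff10d6011c8c032357fa22afed13603182c0176980155b01dbc) b27462 (.tok (nat_lit 6) (nat_lit 0x3000005fe09cbfd531800002ff44d5ff7dac006297fdb82ffe20) (.hit (nat_lit 19) (nat_lit 9) (nat_lit 0x2ff2825fccb2bfa6797fa1cafe88b5febd0bffa697fbceaff7d5) b27459 (.one (nat_lit 55) (nat_lit 20) (nat_lit 10) (nat_lit 0x3000005fe09cbfd531800002ff44d5ff7dac006297fdb82ffe20) b27460 (.nil))) (.nil)))) (.nil)))) (.nil)))) (.tok (nat_lit 9) (nat_lit 0x3000006011c8c03235800003000005fc3fabfce357f7092fffcf) (.hit (nat_lit 5) (nat_lit 0) (nat_lit 0x2fe8345fbeb2bf66057faceafe37e5fc3fabfb3b57f1d8afe3db)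 b27463 (.tok (nat_lit 3) (nat_lit 0x2ff0db5fe482bfc5b97fb8caff2175f8f28bf89897ee73afe670) (.hit (nat_lit 6) (nat_lit 1) (nat_lit 0x2fd90e5fa86cbf3d897f045afd56b5f73ccbf52d17e79cafd35c) b27464 (.one (nat_lit 55) (nat_lit 7) (nat_lit 3) (nat_lit 0x2ff0db5fe482bfc5b97fb8caff2175f8f28bf89897ee73afe670) b27465 (.nil))) (.tok (nat_lit 9) (nat_lit 0x3000006011c8c03235800003000005fb17ebfce357f7092fffcf) (.hit (nat_lit 8) (nat_lit 20) (nat_lit 0x2fe1515fc6b6bf67d97f1dd2fdd815f7f42bf69bd7ea7a2fd852) b27466 (.hit (nat_lit 12) (nat_lit 28) (nat_lit 0x2fd6765fa63abf5a017eef9afd50d5f77fcbf5b317e8a8afd893) b27470 (.tok (nat_lit 67) (nat_lit 0x3000006011c8c03235800003000005fb17ebfce357f7092fffcf) (.hit (nat_lit 9) (nat_lit 21) (nat_lit 0x2ffa7f5fe814bf9e517fbe9aff5415f9906bf9d457f0eb2fecbe) b27467 (.hit (nat_lit 13) (nat_lit 29) (nat_lit 0x2ff10d6011c8c032357fa22afee075fb17ebfce357f7092fe9a2)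 b27471 (.tok (nat_lit 9) (nat_lit 0x3000005fe09cbfd531800003000005fab60bfc1f97f581afffcf) (.hit (nat_lit 10) (nat_lit 22) (nat_lit 0x2ff2825fccb2bfa6797fa1caff0985f9bf4bfa3217f1a6afecaf) b27468 (.one (nat_lit 67) (nat_lit 11) (nat_lit 23) (nat_lit 0x3000005fe09cbfd531800003000005fab60bfc1f97f581afffcf) b27469 (.nil))) (.nil)))) (.nil)))) (.nil)))) (.nil)))
noncomputable def r28_22 : Rw Blk := .tok (nat_lit 6) (nat_lit 0x5e0000bc000180000300868) (.hit (nat_lit 0) (nat_lit 0) (nat_lit 0x5e0000bc00017f385aff114) b27482 (.tok (nat_lit 3) (nat_lit 0x5e0000bc00017f531afec25) (.hit (nat_lit 1) (nat_lit 1) (nat_lit 0x5e0000bc00017e5b02fd0bc) b27483 (.one (nat_lit 56) (nat_lit 3) (nat_lit 6) (nat_lit 0x5e0000bc00017eef3afe4f5) b27484 (.one (nat_lit 68) (nat_lit 2) (nat_lit 5) (nat_lit 0x5e0000bc00017f531afec25) b27485 (.nil)))) (.tok (nat_lit 40) (nat_lit 0x5e0000bc00017eb8e2fe716) (.hit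 (nat_lit 4) (nat_lit 33) (nat_lit 0x5e0000bc00017eb8e2fe716) b27486 (.hit (nat_lit 5) (nat_lit 34) (nat_lit 0x5e0000bc00017eb0aafe4f0) b27487 (.nil))) (.tok (nat_lit 43) (nat_lit 0x5e0000bc00017f603aff94c) (.hit (nat_lit 6) (nat_lit 35) (nat_lit 0x5e0000bc00017f603aff94c) b27489 (.hit (nat_lit 7) (nat_lit 36) (nat_lit 0x5e0000bc00017f10cafefc4) b27490 (.nil))) (.tok (nat_lit 46) (nat_lit 0x5e0000bc000180000300868) (.hit (nat_lit 8) (nat_lit 37) (nat_lit 0x5e0000bc00017e8072fdea9) b27480 (.hit (nat_lit 9) (nat_lit 38) (nat_lit 0x5e0000bc000180000300868) b27488 (.nil))) (.nil)))))) (.tok (nat_lit 9) (nat_lit 0x5e0000bc0001800003006fa) (.hit (nat_lit 10) (nat_lit 0) (nat_lit 0x5e0000bc00017f385aff7d4) b27472 (.tok (nat_lit 3) (nat_lit 0x5e0000bc00017f531afeee4) (.hit (nat_lit 11) (nat_lit 1) (nat_lit 0x5e0000bc00017e5b02fd3e9) b27473 (.one (nat_lit 56) (nat_lit 13) (nat_lit 6) (nat_lit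 0x5e0000bc00017f531afeee4) b27474 (.one (nat_lit 68) (nat_lit 12) (nat_lit 5) (nat_lit 0x5e0000bc00017eef3afe73a) b27475 (.nil)))) (.tok (nat_lit 40) (nat_lit 0x5e0000bc00017eb8e2fea60) (.hit (nat_lit 14) (nat_lit 33) (nat_lit 0x5e0000bc00017eb8e2fe98f) b27476 (.hit (nat_lit 15) (nat_lit 34) (nat_lit 0x5e0000bc00017eb0aafea60) b27477 (.nil))) (.tok (nat_lit 43) (nat_lit 0x5e0000bc0001800003006fa) (.hit (nat_lit 16) (nat_lit 35) (nat_lit 0x5e0000bc00017e8072fdea9) b27480 (.hit (nat_lit 17) (nat_lit 36) (nat_lit 0x5e0000bc0001800003006fa) b27481 (.nil))) (.tok (nat_lit 46) (nat_lit 0x5e0000bc00017f603affc7e) (.hit (nat_lit 18) (nat_lit 37) (nat_lit 0x5e0000bc00017f603affc7e) b27478 (.hit (nat_lit 19) (nat_lit 38) (nat_lit 0x5e0000bc00017f10caff44a) b27479 (.nil))) (.nil)))))) (.nil))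
noncomputable def r28_23 : Rw Blk := .tok (nat_lit 3) (nat_lit 0xbc00017ffa2aff8c3) (.hit (nat_lit 17) (nat_lit 0) (nat_lit 0xbc00017ef1e2fd67a) b27576 (.tok (nat_lit 6) (nat_lit 0xbc00017ecffafdaf7) (.hit (nat_lit 18) (nat_lit 7) (nat_lit 0xbc00017e166afc3c5) b27577 (.hit (nat_lit 21) (nat_lit 15) (nat_lit 0xbc00017e2292fc54a) b27580 (.tok (nat_lit 56) (nat_lit 0xbc00017ecffafdaf7) (.hit (nat_lit 19) (nat_lit 13) (nat_lit 0xbc00017eb86afd805) b27578 (.hit (nat_lit 23) (nat_lit 19) (nat_lit 0xbc00017e9b8afd469) b27582 (.one (nat_lit 6) (nat_lit 20) (nat_lit 14) (nat_lit 0xbc00017ecffafdaf7) b27579 (.nil)))) (.one (nat_lit 68) (nat_lit 22) (nat_lit 18) (nat_lit 0xbc00017ec442fd980) b27581 (.nil))))) (.tok (nat_lit 52) (nat_lit 0xbc00017eb5d2fd7b2) (.hit (nat_lit 24) (nat_lit 39) (nat_lit 0xbc00017ea392fd56a) b27583 (.hit (nat_lit 25) (nat_lit 40) (nat_lit 0xbc00017eb5d2fd7b2) b27584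 (.nil))) (.tok (nat_lit 55) (nat_lit 0xbc00017ffa2aff8c3) (.hit (nat_lit 26) (nat_lit 41) (nat_lit 0xbc00017ffa2aff8c3) b27585 (.one (nat_lit 3) (nat_lit 32) (nat_lit 47) (nat_lit 0xbc00017e96eafd3d5) b27591 (.tok (nat_lit 6) (nat_lit 0xbc00017f0032fe0fe) (.hit (nat_lit 27) (nat_lit 42) (nat_lit 0xbc00017e8e72fd2c6) b27586 (.hit (nat_lit 30) (nat_lit 45) (nat_lit 0xbc00017e7e4afd0c1) b27589 (.tok (nat_lit 55) (nat_lit 0xbc00017f0032fe0fe) (.hit (nat_lit 28) (nat_lit 43) (nat_lit 0xbc00017f0032fe0fe) b27587 (.hit (nat_lit 31) (nat_lit 46) (nat_lit 0xbc00017ee882fde08) b27590 (.one (nat_lit 6) (nat_lit 29) (nat_lit 44) (nat_lit 0xbc00017edf32fdcde) b27588 (.nil)))) (.nil)))) (.nil)))) (.one (nat_lit 58) (nat_lit 33) (nat_lit 49) (nat_lit 0xbc00017eab4afd661) b27592 (.nil)))))) (.tok (nat_lit 9) (nat_lit 0xbc000181398b02bb1) (.hit (nat_lit 0) (nat_lit 0) (nat_lit 0xbc00017fb8d2fedfe)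 b27559 (.tok (nat_lit 9) (nat_lit 0xbc00017fe51300e3d) (.hit (nat_lit 1) (nat_lit 20) (nat_lit 0xbc00017f87caffb83) b27560 (.hit (nat_lit 4) (nat_lit 28) (nat_lit 0xbc00017ed2c2fcaa6) b27563 (.one (nat_lit 56) (nat_lit 5) (nat_lit 31) (nat_lit 0xbc00017f2212fe345) b27564 (.tok (nat_lit 68) (nat_lit 0xbc00017fe51300e3d) (.hit (nat_lit 2) (nat_lit 26) (nat_lit 0xbc00017fe512ffad7) b27561 (.hit (nat_lit 6) (nat_lit 32) (nat_lit 0xbc00017f5f62fdf5c) b27565 (.one (nat_lit 9) (nat_lit 3) (nat_lit 27) (nat_lit 0xbc00017fdd8b00e3d) b27562 (.nil)))) (.nil))))) (.tok (nat_lit 64) (nat_lit 0xbc0001807caafff9f) (.hit (nat_lit 7) (nat_lit 50) (nat_lit 0xbc00017f8efafe7c5) b27566 (.hit (nat_lit 8) (nat_lit 51) (nat_lit 0xbc0001807caafff9f) b27567 (.nil))) (.tok (nat_lit 67) (nat_lit 0xbc000181398b02bb1) (.hit (nat_lit 9) (nat_lit 52) (nat_lit 0xbc0001811ff302bb1) b27568 (.one (nat_lit 3) (nat_lit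 15) (nat_lit 58) (nat_lit 0xbc0001806ae300d52) b27574 (.tok (nat_lit 9) (nat_lit 0xbc000181398b020c5) (.hit (nat_lit 10) (nat_lit 53) (nat_lit 0xbc00018014baff15e) b27569 (.hit (nat_lit 13) (nat_lit 56) (nat_lit 0xbc0001802e9b020c5) b27572 (.tok (nat_lit 67) (nat_lit 0xbc000181398b01b6d) (.hit (nat_lit 11) (nat_lit 54) (nat_lit 0xbc000181398b01b6d) b27570 (.hit (nat_lit 14) (nat_lit 57) (nat_lit 0xbc0001802d8300f4f) b27573 (.one (nat_lit 9) (nat_lit 12) (nat_lit 55) (nat_lit 0xbc000181069b016cb) b27571 (.nil)))) (.nil)))) (.nil)))) (.one (nat_lit 70) (nat_lit 16) (nat_lit 60) (nat_lit 0xbc0001807c5b00958) b27575 (.nil)))))) (.nil))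
noncomputable def r28_24 : Rw Blk := .tok (nat_lit 3) (nat_lit 0x5e0000bc00017f3492fea8b) (.hit (nat_lit 17) (nat_lit 0) (nat_lit 0x5e0000bc00017e65eafd178) b27610 (.tok (nat_lit 6) (nat_lit 0x5e0000bc00017e9d5afd789) (.hit (nat_lit 18) (nat_lit 7) (nat_lit 0x5e0000bc00017e0332fc444) b27611 (.hit (nat_lit 21) (nat_lit 15) (nat_lit 0x5e0000bc00017d8e1afb5a1) b27614 (.tok (nat_lit 56) (nat_lit 0x5e0000bc00017e9d5afd789) (.hit (nat_lit 19) (nat_lit 13) (nat_lit 0x5e0000bc00017e78aafd2f3) b27612 (.hit (nat_lit 23) (nat_lit 19) (nat_lit 0x5e0000bc00017df5cafc297) b27616 (.one (nat_lit 6) (nat_lit 20) (nat_lit 14) (nat_lit 0x5e0000bc00017e9d5afd789) b27613 (.nil)))) (.one (nat_lit 68) (nat_lit 22) (nat_lit 18) (nat_lit 0x5e0000bc00017e7a12fd320) b27615 (.nil))))) (.tok (nat_lit 52) (nat_lit 0x5e0000bc00017e438afcc4f) (.hit (nat_lit 24) (nat_lit 39) (nat_lit 0x5e0000bc00017e39a2fcb12)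 b27617 (.hit (nat_lit 25) (nat_lit 40) (nat_lit 0x5e0000bc00017e438afcc4f) b27618 (.nil))) (.tok (nat_lit 55) (nat_lit 0x5e0000bc00017f3492fea8b) (.hit (nat_lit 26) (nat_lit 41) (nat_lit 0x5e0000bc00017f3492fe26c) b27619 (.one (nat_lit 3) (nat_lit 32) (nat_lit 47) (nat_lit 0x5e0000bc00017e8b22fd542) b27625 (.tok (nat_lit 6) (nat_lit 0x5e0000bc00017f118afea8b) (.hit (nat_lit 27) (nat_lit 42) (nat_lit 0x5e0000bc00017e81e2fdb4d) b27620 (.hit (nat_lit 30) (nat_lit 45) (nat_lit 0x5e0000bc00017e437afcc4d) b27623 (.tok (nat_lit 55) (nat_lit 0x5e0000bc00017f118afea8b) (.hit (nat_lit 28) (nat_lit 43) (nat_lit 0x5e0000bc00017f118afea8b) b27621 (.hit (nat_lit 31) (nat_lit 46) (nat_lit 0x5e0000bc00017e8c82fd56e) b27624 (.one (nat_lit 6) (nat_lit 29) (nat_lit 44) (nat_lit 0x5e0000bc00017eee32fe1a4) b27622 (.nil)))) (.nil)))) (.nil)))) (.one (nat_lit 58) (nat_lit 33) (nat_lit 49) (nat_lit 0x5e0000bc00017ea4a2fd872)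 b27626 (.nil)))))) (.tok (nat_lit 9) (nat_lit 0x5e0000bc0001809f3302995) (.hit (nat_lit 0) (nat_lit 0) (nat_lit 0x5e0000bc00017eac2afe1a4) b27593 (.tok (nat_lit 9) (nat_lit 0x5e0000bc00017f1b2aff09f) (.hit (nat_lit 1) (nat_lit 20) (nat_lit 0x5e0000bc00017e614afda81) b27594 (.hit (nat_lit 4) (nat_lit 28) (nat_lit 0x5e0000bc00017e68b2fd08e) b27597 (.one (nat_lit 56) (nat_lit 5) (nat_lit 31) (nat_lit 0x5e0000bc00017efa1afdb1a) b27598 (.tok (nat_lit 68) (nat_lit 0x5e0000bc00017f1b2aff09f) (.hit (nat_lit 2) (nat_lit 26) (nat_lit 0x5e0000bc00017f1b2aff09f) b27595 (.hit (nat_lit 6) (nat_lit 32) (nat_lit 0x5e0000bc00017edef2fdc42) b27599 (.one (nat_lit 9) (nat_lit 3) (nat_lit 27) (nat_lit 0x5e0000bc00017ef25afea3c) b27596 (.nil)))) (.nil))))) (.tok (nat_lit 64) (nat_lit 0x5e0000bc00017f14fafe543) (.hit (nat_lit 7) (nat_lit 50) (nat_lit 0x5e0000bc00017e5802fdf38) b27600 (.hit (nat_lit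 8) (nat_lit 51) (nat_lit 0x5e0000bc00017f14fafe543) b27601 (.nil))) (.tok (nat_lit 67) (nat_lit 0x5e0000bc0001809f3302995) (.hit (nat_lit 9) (nat_lit 52) (nat_lit 0x5e0000bc00017f9012ff929) b27602 (.one (nat_lit 3) (nat_lit 15) (nat_lit 58) (nat_lit 0x5e0000bc00017f3efaff2f3) b27608 (.tok (nat_lit 9) (nat_lit 0x5e0000bc0001809f3302995) (.hit (nat_lit 10) (nat_lit 53) (nat_lit 0x5e0000bc00017f8202ff5c4) b27603 (.hit (nat_lit 13) (nat_lit 56) (nat_lit 0x5e0000bc00017f49aafe875) b27606 (.tok (nat_lit 67) (nat_lit 0x5e0000bc0001809f3302995) (.hit (nat_lit 11) (nat_lit 54) (nat_lit 0x5e0000bc00017fdc8300b38) b27604 (.hit (nat_lit 14) (nat_lit 57) (nat_lit 0x5e0000bc00017f8932ff542) b27607 (.one (nat_lit 9) (nat_lit 12) (nat_lit 55) (nat_lit 0x5e0000bc0001809f3302995) b27605 (.nil)))) (.nil)))) (.nil)))) (.one (nat_lit 70) (nat_lit 16) (nat_lit 60) (nat_lit 0x5e0000bc00017f2bfafe666)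 b27609 (.nil)))))) (.nil))
noncomputable def r28_25 : Rw Blk := .tok (nat_lit 3) (nat_lit 0xbc00017f8442ff524600a58c03aed8036eb006b0) (.hit (nat_lit 17) (nat_lit 0) (nat_lit 0xbc00017e7bfafd2db5fb5aabf9e3d7edfa2fdb4f) b27508 (.tok (nat_lit 9) (nat_lit 0xbc00017e5a12fd7585faf54bf75557ef172fd4a3) (.hit (nat_lit 18) (nat_lit 20) (nat_lit 0xbc00017da082fc0265f80f0bf188d7e37e2fbd71) b27509 (.hit (nat_lit 21) (nat_lit 28) (nat_lit 0xbc00017dacaafc1ab5f83fabf1ea17e440afbef6) b27512 (.one (nat_lit 56) (nat_lit 22) (nat_lit 31) (nat_lit 0xbc00017e4e5afd5e15fac66bf6f797ee5bafd32c) b27513 (.tok (nat_lit 68) (nat_lit 0xbc00017e5a12fd7585faf54bf75557ef172fd4a3) (.hit (nat_lit 19) (nat_lit 26) (nat_lit 0xbc00017e4282fd4665fa970bf698d7ed9e2fd1b1) b27510 (.hit (nat_lit 23) (nat_lit 32) (nat_lit 0xbc00017e25a2fd0ca5fa238bf5b1d7ebd02fce15) b27514 (.one (nat_lit 9) (nat_lit 20) (nat_lit 27) (nat_lit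 0xbc00017e5a12fd7585faf54bf75557ef172fd4a3) b27511 (.nil)))) (.nil))))) (.tok (nat_lit 64) (nat_lit 0xbc00017e3feafd4135fa8cabf68417ed74afd15e) (.hit (nat_lit 24) (nat_lit 50) (nat_lit 0xbc00017e2daafd1cb5fa43abf5f217ec50afcf16) b27515 (.hit (nat_lit 25) (nat_lit 51) (nat_lit 0xbc00017e3feafd4135fa8cabf68417ed74afd15e) b27516 (.nil))) (.tok (nat_lit 67) (nat_lit 0xbc00017f8442ff524600a58c03aed8036eb006b0) (.hit (nat_lit 26) (nat_lit 52) (nat_lit 0xbc00017f8442ff524600a58c03aed8036eb006b0) b27517 (.one (nat_lit 3) (nat_lit 32) (nat_lit 58) (nat_lit 0xbc00017e2102fd0365fa110bf58cd7eb862fcd81) b27523 (.tok (nat_lit 9) (nat_lit 0xbc00017e8a4afdd5f5fbb62bf8d717f21aafdaaa) (.hit (nat_lit 27) (nat_lit 53) (nat_lit 0xbc00017e188afcf275f9ef2bf54917eafeafcc72) b27518 (.hit (nat_lit 30) (nat_lit 56) (nat_lit 0xbc00017e0862fcd225f9ae8bf4c7d7e9fc2fca6d) b27521 (.tok (nat_lit 67) (nat_lit 0xbc00017e8a4afdd5f5fbb62bf8d717f21aafdaaa)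 (.hit (nat_lit 28) (nat_lit 54) (nat_lit 0xbc00017e8a4afdd5f5fbb62bf8d717f21aafdaaa) b27519 (.hit (nat_lit 31) (nat_lit 57) (nat_lit 0xbc00017e729afda695fb576bf81997f09fafd7b4) b27522 (.one (nat_lit 9) (nat_lit 29) (nat_lit 55) (nat_lit 0xbc00017e694afd93f5fb322bf7cf17f00aafd68a) b27520 (.nil)))) (.nil)))) (.nil)))) (.one (nat_lit 70) (nat_lit 33) (nat_lit 60) (nat_lit 0xbc00017e3562fd2c25fa628bf62fd7eccc2fd00d) b27524 (.nil)))))) (.tok (nat_lit 6) (nat_lit 0xbc000180c3a302812604d7cc0c77d814ebb024e5) (.hit (nat_lit 0) (nat_lit 0) (nat_lit 0xbc00017f42eafea5f5ff34ac0214d7fd41aff8cc) b27491 (.tok (nat_lit 6) (nat_lit 0xbc00017f6f2b00a9e603e9ec0a6e58100cb024e5) (.hit (nat_lit 1) (nat_lit 7) (nat_lit 0xbc00017f11e2ff7e46028bcc0656d80832300e73) b27492 (.hit (nat_lit 4) (nat_lit 15) (nat_lit 0xbc00017e5cdafc7075fadccbf89357ec01afd809) b27495 (.tok (nat_lit 56) (nat_lit 0xbc00017f6f2b00a9e603e9ec0a6e58100cb024e5)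 (.hit (nat_lit 2) (nat_lit 13) (nat_lit 0xbc00017f6f2aff738601744c0332d803ea30043f) b27493 (.hit (nat_lit 6) (nat_lit 19) (nat_lit 0xbc00017ee97afdbbd5fd3aabfc4d97f5792fe8ab) b27497 (.one (nat_lit 6) (nat_lit 3) (nat_lit 14) (nat_lit 0xbc00017f67a300a9e603e9ec0a6e58100cb024e5) b27494 (.nil)))) (.one (nat_lit 68) (nat_lit 5) (nat_lit 18) (nat_lit 0xbc00017eac2afdfa65fd48abfd7757f5bf2fea7b) b27496 (.nil))))) (.tok (nat_lit 52) (nat_lit 0xbc00018006c2ffc0060014cc036e5800e23000b1) (.hit (nat_lit 7) (nat_lit 39) (nat_lit 0xbc00017f1912fe4265ff0a0bfd6257fc872ff8e3) b27498 (.hit (nat_lit 8) (nat_lit 40) (nat_lit 0xbc00018006c2ffc0060014cc036e5800e23000b1) b27499 (.nil))) (.tok (nat_lit 55) (nat_lit 0xbc000180c3a302812604d7cc0c77d814ebb021df) (.hit (nat_lit 9) (nat_lit 41) (nat_lit 0xbc000180aa0b02812603bb6c0b18d80fbf301f1b) b27500 (.one (nat_lit 3) (nat_lit 15) (nat_lit 47) (nat_lit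 0xbc00017ff4fb009b3604d7cc09ecd813a4301e14) b27506 (.tok (nat_lit 6) (nat_lit 0xbc000180c3a301d26604648c0c77d814ebb021df) (.hit (nat_lit 10) (nat_lit 42) (nat_lit 0xbc00017f9ed2fedbf5fece2bfcf157fbd9aff6ac) b27501 (.hit (nat_lit 13) (nat_lit 45) (nat_lit 0xbc00017fb8b301d26604648c0c77d814ebb021df) b27504 (.tok (nat_lit 55) (nat_lit 0xbc000180c3a3017ce602f56c05e1580d31b018f0) (.hit (nat_lit 11) (nat_lit 43) (nat_lit 0xbc000180c3a3017ce602f56c031e980d31b01783) b27502 (.hit (nat_lit 14) (nat_lit 46) (nat_lit 0xbc00017fb79b00bb0602a4ec05e1580c7f301132) b27505 (.one (nat_lit 6) (nat_lit 12) (nat_lit 44) (nat_lit 0xbc00018090b30132c602316c0441d80ccab018f0) b27503 (.nil)))) (.nil)))) (.nil)))) (.one (nat_lit 58) (nat_lit 16) (nat_lit 49) (nat_lit 0xbc0001800673005b960029cc04bed801613003ca) b27507 (.nil)))))) (.nil))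
noncomputable def r28_26 : Rw Blk := .tok (nat_lit 3) (nat_lit 0x5e0000bc00017f3102ff1a3) (.hit (nat_lit 17) (nat_lit 0) (nat_lit 0x5e0000bc00017e625afd801) b27542 (.tok (nat_lit 9) (nat_lit 0x5e0000bc00017e99cafdb65) (.hit (nat_lit 18) (nat_lit 20) (nat_lit 0x5e0000bc00017dffa2fc820) b27543 (.hit (nat_lit 21) (nat_lit 28) (nat_lit 0x5e0000bc00017d8a8afb97d) b27546 (.one (nat_lit 56) (nat_lit 22) (nat_lit 31) (nat_lit 0x5e0000bc00017e7682fd6fc) b27547 (.tok (nat_lit 68) (nat_lit 0x5e0000bc00017e99cafdb65) (.hit (nat_lit 19) (nat_lit 26) (nat_lit 0x5e0000bc00017e751afd6cf) b27544 (.hit (nat_lit 23) (nat_lit 32) (nat_lit 0x5e0000bc00017df23afc673) b27548 (.one (nat_lit 9) (nat_lit 20) (nat_lit 27) (nat_lit 0x5e0000bc00017e99cafdb65) b27545 (.nil)))) (.nil))))) (.tok (nat_lit 64) (nat_lit 0x5e0000bc00017e3ffafd02b) (.hit (nat_lit 24) (nat_lit 50) (nat_lit 0x5e0000bc00017e3612fceee)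 b27549 (.hit (nat_lit 25) (nat_lit 51) (nat_lit 0x5e0000bc00017e3ffafd02b) b27550 (.nil))) (.tok (nat_lit 67) (nat_lit 0x5e0000bc00017f3102ff1a3) (.hit (nat_lit 26) (nat_lit 52) (nat_lit 0x5e0000bc00017f3102fed6e) b27551 (.one (nat_lit 3) (nat_lit 32) (nat_lit 58) (nat_lit 0x5e0000bc00017e8792fd91e) b27557 (.tok (nat_lit 9) (nat_lit 0x5e0000bc00017f0dfaff1a3) (.hit (nat_lit 27) (nat_lit 53) (nat_lit 0x5e0000bc00017e7e52fe716) b27552 (.hit (nat_lit 30) (nat_lit 56) (nat_lit 0x5e0000bc00017e3feafd029) b27555 (.tok (nat_lit 67) (nat_lit 0x5e0000bc00017f0dfaff1a3) (.hit (nat_lit 28) (nat_lit 54) (nat_lit 0x5e0000bc00017f0dfaff1a3) b27553 (.hit (nat_lit 31) (nat_lit 57) (nat_lit 0x5e0000bc00017e88f2fd94a) b27556 (.one (nat_lit 9) (nat_lit 29) (nat_lit 55) (nat_lit 0x5e0000bc00017eeaa2fe580) b27554 (.nil)))) (.nil)))) (.nil)))) (.one (nat_lit 70) (nat_lit 33) (nat_lit 60) (nat_lit 0x5e0000bc00017ea112fdc4e)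 b27558 (.nil)))))) (.tok (nat_lit 6) (nat_lit 0x5e0000bc0001809ba30203d) (.hit (nat_lit 0) (nat_lit 0) (nat_lit 0x5e0000bc00017ea89afd7ab) b27525 (.tok (nat_lit 6) (nat_lit 0x5e0000bc00017f179afe729) (.hit (nat_lit 1) (nat_lit 7) (nat_lit 0x5e0000bc00017e5dbafd129) b27526 (.hit (nat_lit 4) (nat_lit 15) (nat_lit 0x5e0000bc00017e6522fc6fe) b27529 (.tok (nat_lit 56) (nat_lit 0x5e0000bc00017f179afe729) (.hit (nat_lit 2) (nat_lit 13) (nat_lit 0x5e0000bc00017f179afe729) b27527 (.hit (nat_lit 6) (nat_lit 19) (nat_lit 0x5e0000bc00017edb62fdf91) b27531 (.one (nat_lit 6) (nat_lit 3) (nat_lit 14) (nat_lit 0x5e0000bc00017eeecafe212) b27528 (.nil)))) (.one (nat_lit 68) (nat_lit 5) (nat_lit 18) (nat_lit 0x5e0000bc00017ef68afde40) b27530 (.nil))))) (.tok (nat_lit 52) (nat_lit 0x5e0000bc00017f116afeaf6) (.hit (nat_lit 7) (nat_lit 39) (nat_lit 0x5e0000bc00017e5472fe107) b27532 (.hit (nat_lit 8)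 (nat_lit 40) (nat_lit 0x5e0000bc00017f116afeaf6) b27533 (.nil))) (.tok (nat_lit 55) (nat_lit 0x5e0000bc0001809ba30203d) (.hit (nat_lit 9) (nat_lit 41) (nat_lit 0x5e0000bc00017f8c82ffa36) b27534 (.one (nat_lit 3) (nat_lit 15) (nat_lit 47) (nat_lit 0x5e0000bc00017f3b6afecd8) b27540 (.tok (nat_lit 6) (nat_lit 0x5e0000bc0001809ba30203d) (.hit (nat_lit 10) (nat_lit 42) (nat_lit 0x5e0000bc00017f7e72ff56f) b27535 (.hit (nat_lit 13) (nat_lit 45) (nat_lit 0x5e0000bc00017f461afee6b) b27538 (.tok (nat_lit 55) (nat_lit 0x5e0000bc0001809ba30203d) (.hit (nat_lit 11) (nat_lit 43) (nat_lit 0x5e0000bc00017fd8f300594) b27536 (.hit (nat_lit 14) (nat_lit 46) (nat_lit 0x5e0000bc00017f85a2ff977) b27539 (.one (nat_lit 6) (nat_lit 12) (nat_lit 44) (nat_lit 0x5e0000bc0001809ba30203d) b27537 (.nil)))) (.nil)))) (.nil)))) (.one (nat_lit 58) (nat_lit 16) (nat_lit 49) (nat_lit 0x5e0000bc00017f286afeb44) b27541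 (.nil)))))) (.nil))
noncomputable def r28_27 : Rw Blk := .tok (nat_lit 3) (nat_lit 0x5e0000bc00017eeca2fdbfc) (.hit (nat_lit 0) (nat_lit 0) (nat_lit 0x5e0000bc00017eeca2fdbfc) b36053 (.tok (nat_lit 6) (nat_lit 0x5e0000bc00017e102afcc36) (.hit (nat_lit 1) (nat_lit 7) (nat_lit 0x5e0000bc00017df84afc93a) b27628 (.hit (nat_lit 2) (nat_lit 15) (nat_lit 0x5e0000bc00017e102afcc36) b27629 (.nil))) (.tok (nat_lit 9) (nat_lit 0x5e0000bc00017e102afcc36) (.hit (nat_lit 3) (nat_lit 20) (nat_lit 0x5e0000bc00017df84afc93a) b27628 (.hit (nat_lit 4) (nat_lit 28) (nat_lit 0x5e0000bc00017e102afcc36) b27629 (.nil))) (.nil)))) (.tok (nat_lit 6) (nat_lit 0x5e0000bc000180000300717) (.hit (nat_lit 5) (nat_lit 0) (nat_lit 0x5e0000bc00017f22aafe617) b27639 (.tok (nat_lit 3) (nat_lit 0x5e0000bc00017f6aaafed5a) (.hit (nat_lit 6) (nat_lit 1) (nat_lit 0x5e0000bc00017e80bafd171) b27631 (.one (nat_lit 67) (nat_lit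 7) (nat_lit 2) (nat_lit 0x5e0000bc00017f6aaafed5a) b27640 (.nil))) (.tok (nat_lit 6) (nat_lit 0x5e0000bc000180000300717) (.hit (nat_lit 8) (nat_lit 7) (nat_lit 0x5e0000bc00017f1162fde95) b27641 (.hit (nat_lit 12) (nat_lit 15) (nat_lit 0x5e0000bc00017e7412fd520) b27637 (.tok (nat_lit 55) (nat_lit 0x5e0000bc000180000300717) (.hit (nat_lit 9) (nat_lit 8) (nat_lit 0x5e0000bc000180000300717) b27642 (.hit (nat_lit 13) (nat_lit 16) (nat_lit 0x5e0000bc00017f108afe9ff) b27645 (.tok (nat_lit 6) (nat_lit 0x5e0000bc00017f7eaafffa7) (.hit (nat_lit 10) (nat_lit 9) (nat_lit 0x5e0000bc00017f01bafecf5) b27643 (.one (nat_lit 55) (nat_lit 11) (nat_lit 10) (nat_lit 0x5e0000bc00017f7eaafffa7) b27644 (.nil))) (.nil)))) (.nil)))) (.nil)))) (.tok (nat_lit 9) (nat_lit 0x5e0000bc000180000300db8) (.hit (nat_lit 14) (nat_lit 0) (nat_lit 0x5e0000bc00017f22aafedcb) b27630 (.tok (nat_lit 3) (nat_lit 0x5e0000bc00017f6aaafed83)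 (.hit (nat_lit 15) (nat_lit 1) (nat_lit 0x5e0000bc00017e80bafd171) b27631 (.one (nat_lit 55) (nat_lit 16) (nat_lit 3) (nat_lit 0x5e0000bc00017f6aaafed83) b27632 (.nil))) (.tok (nat_lit 9) (nat_lit 0x5e0000bc000180000300db8) (.hit (nat_lit 17) (nat_lit 20) (nat_lit 0x5e0000bc00017f1162fdfc6) b27633 (.hit (nat_lit 21) (nat_lit 28) (nat_lit 0x5e0000bc00017e7412fd520) b27637 (.tok (nat_lit 67) (nat_lit 0x5e0000bc000180000300db8) (.hit (nat_lit 18) (nat_lit 21) (nat_lit 0x5e0000bc000180000300db8) b27634 (.hit (nat_lit 22) (nat_lit 29) (nat_lit 0x5e0000bc00017f108afea28) b27638 (.tok (nat_lit 9) (nat_lit 0x5e0000bc00017f7eaaffcb6) (.hit (nat_lit 19) (nat_lit 22) (nat_lit 0x5e0000bc00017f01baff0c5) b27635 (.one (nat_lit 67) (nat_lit 20) (nat_lit 23) (nat_lit 0x5e0000bc00017f7eaaffcb6) b27636 (.nil))) (.nil)))) (.nil)))) (.nil)))) (.nil)))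
noncomputable def r28_28 : Rw Blk := .tok (nat_lit 3) (nat_lit 0xbc0001780002fe65e) (.hit (nat_lit 18) (nat_lit 0) (nat_lit 0xbc0001780002fe65e) b27710 (.tok (nat_lit 6) (nat_lit 0xbc0001780002fd5a6) (.hit (nat_lit 19) (nat_lit 7) (nat_lit 0xbc0001780002fd5a6) b27713 (.hit (nat_lit 20) (nat_lit 15) (nat_lit 0xbc0001780002fc2c5) b27714 (.nil))) (.tok (nat_lit 9) (nat_lit 0xbc0001780002fca77) (.hit (nat_lit 21) (nat_lit 20) (nat_lit 0xbc0001780002fca77) b27711 (.hit (nat_lit 22) (nat_lit 28) (nat_lit 0xbc0001780002fc278) b27712 (.nil))) (.nil)))) (.tok (nat_lit 6) (nat_lit 0xbc0001780002feb17) (.hit (nat_lit 0) (nat_lit 0) (nat_lit 0xbc0001780002fe4a9) b27692 (.tok (nat_lit 3) (nat_lit 0xbc0001780002fd5a5) (.hit (nat_lit 1) (nat_lit 1) (nat_lit 0xbc0001780002fbe54) b27693 (.one (nat_lit 67) (nat_lit 2) (nat_lit 2) (nat_lit 0xbc0001780002fd5a5) b27694 (.nil))) (.tok (nat_lit 6) (nat_lit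 0xbc0001780002feb17) (.hit (nat_lit 3) (nat_lit 7) (nat_lit 0xbc0001780002fbdac) b27695 (.hit (nat_lit 7) (nat_lit 15) (nat_lit 0xbc0001780002fc718) b27699 (.tok (nat_lit 55) (nat_lit 0xbc0001780002feb17) (.hit (nat_lit 4) (nat_lit 8) (nat_lit 0xbc0001780002fdf3d) b27696 (.hit (nat_lit 8) (nat_lit 16) (nat_lit 0xbc0001780002fe68e) b27700 (.tok (nat_lit 6) (nat_lit 0xbc0001780002feb17) (.hit (nat_lit 5) (nat_lit 9) (nat_lit 0xbc0001780002fda0f) b27697 (.one (nat_lit 55) (nat_lit 6) (nat_lit 10) (nat_lit 0xbc0001780002feb17) b27698 (.nil))) (.nil)))) (.nil)))) (.nil)))) (.tok (nat_lit 9) (nat_lit 0xbc000178000302e64) (.hit (nat_lit 9) (nat_lit 0) (nat_lit 0xbc0001780002ffc4c) b27701 (.tok (nat_lit 3) (nat_lit 0xbc000178000302474) (.hit (nat_lit 10) (nat_lit 1) (nat_lit 0xbc0001780002fe906) b27702 (.one (nat_lit 55) (nat_lit 11) (nat_lit 3) (nat_lit 0xbc000178000302474) b27703 (.nil)))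 (.tok (nat_lit 9) (nat_lit 0xbc000178000302e64) (.hit (nat_lit 12) (nat_lit 20) (nat_lit 0xbc0001780002feffb) b27704 (.hit (nat_lit 16) (nat_lit 28) (nat_lit 0xbc0001780002fdb38) b27708 (.tok (nat_lit 67) (nat_lit 0xbc000178000302e64) (.hit (nat_lit 13) (nat_lit 21) (nat_lit 0xbc000178000302b45) b27705 (.hit (nat_lit 17) (nat_lit 29) (nat_lit 0xbc0001780003004dd) b27709 (.tok (nat_lit 9) (nat_lit 0xbc000178000302e64) (.hit (nat_lit 14) (nat_lit 22) (nat_lit 0xbc00017800030226d) b27706 (.one (nat_lit 67) (nat_lit 15) (nat_lit 23) (nat_lit 0xbc000178000302e64) b27707 (.nil))) (.nil)))) (.nil)))) (.nil)))) (.nil)))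
noncomputable def r28_29 : Rw Blk := .tok (nat_lit 3) (nat_lit 0x5e0000bc00017eacf2fd582) (.hit (nat_lit 18) (nat_lit 0) (nat_lit 0x5e0000bc00017eacf2fd582) b27733 (.tok (nat_lit 6) (nat_lit 0x5e0000bc00017e393afccdd) (.hit (nat_lit 19) (nat_lit 7) (nat_lit 0x5e0000bc00017e393afccdd) b27736 (.hit (nat_lit 20) (nat_lit 15) (nat_lit 0x5e0000bc00017e2a2afcafb) b27737 (.nil))) (.tok (nat_lit 9) (nat_lit 0x5e0000bc00017e24dafca51) (.hit (nat_lit 21) (nat_lit 20) (nat_lit 0x5e0000bc00017e1172fc7e4) b27734 (.hit (nat_lit 22) (nat_lit 28) (nat_lit 0x5e0000bc00017e24dafca51) b27735 (.nil))) (.nil)))) (.tok (nat_lit 6) (nat_lit 0x5e0000bc000180000300000) (.hit (nat_lit 0) (nat_lit 0) (nat_lit 0x5e0000bc00017f48aafeea0) b27715 (.tok (nat_lit 3) (nat_lit 0x5e0000bc00017f2deafee61) (.hit (nat_lit 1) (nat_lit 1) (nat_lit 0x5e0000bc00017e74a2fd8c1) b27716 (.one (nat_lit 67) (nat_lit 2) (nat_lit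 2) (nat_lit 0x5e0000bc00017f2deafee61) b27717 (.nil))) (.tok (nat_lit 6) (nat_lit 0x5e0000bc000180000300000) (.hit (nat_lit 3) (nat_lit 7) (nat_lit 0x5e0000bc00017ef97afe682) b27718 (.hit (nat_lit 7) (nat_lit 15) (nat_lit 0x5e0000bc00017e7152fd947) b27722 (.tok (nat_lit 55) (nat_lit 0x5e0000bc000180000300000) (.hit (nat_lit 4) (nat_lit 8) (nat_lit 0x5e0000bc00017f9202ff707) b27719 (.hit (nat_lit 8) (nat_lit 16) (nat_lit 0x5e0000bc00017f14dafeda1) b27723 (.tok (nat_lit 6) (nat_lit 0x5e0000bc000180000300000) (.hit (nat_lit 5) (nat_lit 9) (nat_lit 0x5e0000bc00017f60d2fe8c6) b27720 (.one (nat_lit 55) (nat_lit 6) (nat_lit 10) (nat_lit 0x5e0000bc000180000300000) b27721 (.nil))) (.nil)))) (.nil)))) (.nil)))) (.tok (nat_lit 9) (nat_lit 0x5e0000bc00017f97f2ff782) (.hit (nat_lit 9) (nat_lit 0) (nat_lit 0x5e0000bc00017f017afe4e5) b27724 (.tok (nat_lit 3) (nat_lit 0x5e0000bc00017f279afed19)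 (.hit (nat_lit 10) (nat_lit 1) (nat_lit 0x5e0000bc00017e99bafd770) b27725 (.one (nat_lit 55) (nat_lit 11) (nat_lit 3) (nat_lit 0x5e0000bc00017f279afed19) b27726 (.nil))) (.tok (nat_lit 9) (nat_lit 0x5e0000bc00017f97f2ff782) (.hit (nat_lit 12) (nat_lit 20) (nat_lit 0x5e0000bc00017ee26afe086) b27727 (.hit (nat_lit 16) (nat_lit 28) (nat_lit 0x5e0000bc00017ea7a2fd92d) b27731 (.tok (nat_lit 67) (nat_lit 0x5e0000bc00017f97f2ff782) (.hit (nat_lit 13) (nat_lit 21) (nat_lit 0x5e0000bc00017f5b12ff019) b27728 (.hit (nat_lit 17) (nat_lit 29) (nat_lit 0x5e0000bc00017f53fafeecd) b27732 (.tok (nat_lit 9) (nat_lit 0x5e0000bc00017f97f2ff782) (.hit (nat_lit 14) (nat_lit 22) (nat_lit 0x5e0000bc00017f2f92fea33) b27729 (.one (nat_lit 67) (nat_lit 15) (nat_lit 23) (nat_lit 0x5e0000bc00017f97f2ff782) b27730 (.nil))) (.nil)))) (.nil)))) (.nil)))) (.nil)))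
noncomputable def r28_30 : Rw Blk := .tok (nat_lit 3) (nat_lit 0x2f00005e0000bf6d957ecc92fde9f) (.hit (nat_lit 18) (nat_lit 0) (nat_lit 0x2f00005e0000bf6d957ecc92fde9f) b27664 (.tok (nat_lit 6) (nat_lit 0x2f00005e0000befdf97e2ac2fb865) (.hit (nat_lit 19) (nat_lit 7) (nat_lit 0x2f00005e0000befdf97e2ac2fb865) b27667 (.hit (nat_lit 20) (nat_lit 15) (nat_lit 0x2f00005e0000beddfd7deacafb066) b27668 (.nil))) (.tok (nat_lit 9) (nat_lit 0x2f00005e0000bf2ab57e843afc394) (.hit (nat_lit 21) (nat_lit 20) (nat_lit 0x2f00005e0000bf2ab57e843afc394) b27665 (.hit (nat_lit 22) (nat_lit 28) (nat_lit 0x2f00005e0000bedf317ded32fb0b3) b27666 (.nil))) (.nil)))) (.tok (nat_lit 6) (nat_lit 0x2f00005e0000c08dad81b45b0302d) (.hit (nat_lit 9) (nat_lit 0) (nat_lit 0x2f00005e0000bfc54d7ffe6afff26) b27655 (.tok (nat_lit 3) (nat_lit 0x2f00005e0000c065ed80f1db02410) (.hit (nat_lit 10) (nat_lit 1) (nat_lit 0x2f00005e0000bf78357f372afe5b1)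 b27656 (.one (nat_lit 67) (nat_lit 11) (nat_lit 2) (nat_lit 0x2f00005e0000c065ed80f1db02410) b27657 (.nil))) (.tok (nat_lit 6) (nat_lit 0x2f00005e0000c08dad81b45b0302d) (.hit (nat_lit 12) (nat_lit 7) (nat_lit 0x2f00005e0000bf94097ffe0b0050b) b27658 (.hit (nat_lit 16) (nat_lit 15) (nat_lit 0x2f00005e0000bf40fd7f2672fe6e1) b27662 (.tok (nat_lit 55) (nat_lit 0x2f00005e0000c08dad81b45b0302d) (.hit (nat_lit 13) (nat_lit 8) (nat_lit 0x2f00005e0000c0813181b45b0302d) b27659 (.hit (nat_lit 17) (nat_lit 16) (nat_lit 0x2f00005e0000bfe7918030430073f) b27663 (.tok (nat_lit 6) (nat_lit 0x2f00005e0000c08dad81ad6b02f62) (.hit (nat_lit 14) (nat_lit 9) (nat_lit 0x2f00005e0000c05dd18161ab0250a) b27660 (.one (nat_lit 55) (nat_lit 15) (nat_lit 10) (nat_lit 0x2f00005e0000c08dad81ad6b02f62) b27661 (.nil))) (.nil)))) (.nil)))) (.nil)))) (.tok (nat_lit 9) (nat_lit 0x2f00005e0000bf80797f2fc2febf2) (.hit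 (nat_lit 0) (nat_lit 0) (nat_lit 0x2f00005e0000bf66c17f262afebf2) b27646 (.tok (nat_lit 3) (nat_lit 0x2f00005e0000bf2ab17e8432fc393) (.hit (nat_lit 1) (nat_lit 1) (nat_lit 0x2f00005e0000becd6d7dc9aafac42) b27647 (.one (nat_lit 55) (nat_lit 2) (nat_lit 3) (nat_lit 0x2f00005e0000bf2ab17e8432fc393) b27648 (.nil))) (.tok (nat_lit 9) (nat_lit 0x2f00005e0000bf80797f2fc2fd905) (.hit (nat_lit 3) (nat_lit 20) (nat_lit 0x2f00005e0000becacd7dc46afab9a) b27649 (.hit (nat_lit 7) (nat_lit 28) (nat_lit 0x2f00005e0000bef07d7e0fcafb506) b27653 (.tok (nat_lit 67) (nat_lit 0x2f00005e0000bf80797f2fc2fd905) (.hit (nat_lit 4) (nat_lit 21) (nat_lit 0x2f00005e0000bf51117ed0f2fcd2b) b27650 (.hit (nat_lit 8) (nat_lit 29) (nat_lit 0x2f00005e0000bf6e557f0b7afd47c) b27654 (.tok (nat_lit 9) (nat_lit 0x2f00005e0000bf80797f2fc2fd905) (.hit (nat_lit 5) (nat_lit 22) (nat_lit 0x2f00005e0000bf3c597ea782fc7fd) b27651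 (.one (nat_lit 67) (nat_lit 6) (nat_lit 23) (nat_lit 0x2f00005e0000bf80797f2fc2fd905) b27652 (.nil))) (.nil)))) (.nil)))) (.nil)))) (.nil)))
noncomputable def r28_31 : Rw Blk := .tok (nat_lit 3) (nat_lit 0x5e0000bc00017eacf2fd850) (.hit (nat_lit 18) (nat_lit 0) (nat_lit 0x5e0000bc00017eacf2fd850) b27687 (.tok (nat_lit 6) (nat_lit 0x5e0000bc00017e24dafcd20) (.hit (nat_lit 19) (nat_lit 7) (nat_lit 0x5e0000bc00017e1172fcab3) b27690 (.hit (nat_lit 20) (nat_lit 15) (nat_lit 0x5e0000bc00017e24dafcd20) b27691 (.nil))) (.tok (nat_lit 9) (nat_lit 0x5e0000bc00017e393afcfac) (.hit (nat_lit 21) (nat_lit 20) (nat_lit 0x5e0000bc00017e393afcfac) b27688 (.hit (nat_lit 22) (nat_lit 28) (nat_lit 0x5e0000bc00017e2a2afcdca) b27689 (.nil))) (.nil)))) (.tok (nat_lit 6) (nat_lit 0x5e0000bc00017f97f2fedb6) (.hit (nat_lit 9) (nat_lit 0) (nat_lit 0x5e0000bc00017f017afe474) b27678 (.tok (nat_lit 3) (nat_lit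 0x5e0000bc00017f279afe2b8) (.hit (nat_lit 10) (nat_lit 1) (nat_lit 0x5e0000bc00017e99bafccc2) b27679 (.one (nat_lit 67) (nat_lit 11) (nat_lit 2) (nat_lit 0x5e0000bc00017f279afe2b8) b27680 (.nil))) (.tok (nat_lit 6) (nat_lit 0x5e0000bc00017f97f2fedb6) (.hit (nat_lit 12) (nat_lit 7) (nat_lit 0x5e0000bc00017ee26afd5d8) b27681 (.hit (nat_lit 16) (nat_lit 15) (nat_lit 0x5e0000bc00017ea7a2fd53b) b27685 (.tok (nat_lit 55) (nat_lit 0x5e0000bc00017f97f2fedb6) (.hit (nat_lit 13) (nat_lit 8) (nat_lit 0x5e0000bc00017f5b12fe630) b27682 (.hit (nat_lit 17) (nat_lit 16) (nat_lit 0x5e0000bc00017f53fafe52d) b27686 (.tok (nat_lit 6) (nat_lit 0x5e0000bc00017f97f2fedb6) (.hit (nat_lit 14) (nat_lit 9) (nat_lit 0x5e0000bc00017f2f92fe41c) b27683 (.one (nat_lit 55) (nat_lit 15) (nat_lit 10) (nat_lit 0x5e0000bc00017f97f2fedb6) b27684 (.nil))) (.nil)))) (.nil)))) (.nil)))) (.tok (nat_lit 9) (nat_lit 0x5e0000bc000180000300000)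 (.hit (nat_lit 0) (nat_lit 0) (nat_lit 0x5e0000bc00017f48aafe995) b27669 (.tok (nat_lit 3) (nat_lit 0x5e0000bc00017f2deaff9b7) (.hit (nat_lit 1) (nat_lit 1) (nat_lit 0x5e0000bc00017e74a2fd4ab) b27670 (.one (nat_lit 55) (nat_lit 2) (nat_lit 3) (nat_lit 0x5e0000bc00017f2deaff9b7) b27671 (.nil))) (.tok (nat_lit 9) (nat_lit 0x5e0000bc000180000300000) (.hit (nat_lit 3) (nat_lit 20) (nat_lit 0x5e0000bc00017ef97afe271) b27672 (.hit (nat_lit 7) (nat_lit 28) (nat_lit 0x5e0000bc00017e7152fd539) b27676 (.tok (nat_lit 67) (nat_lit 0x5e0000bc000180000300000) (.hit (nat_lit 4) (nat_lit 21) (nat_lit 0x5e0000bc00017f9202ff325) b27673 (.hit (nat_lit 8) (nat_lit 29) (nat_lit 0x5e0000bc00017f14daff901) b27677 (.tok (nat_lit 9) (nat_lit 0x5e0000bc000180000300000) (.hit (nat_lit 5) (nat_lit 22) (nat_lit 0x5e0000bc00017f60d2fedf5) b27674 (.one (nat_lit 67) (nat_lit 6) (nat_lit 23) (nat_lit 0x5e0000bc000180000300000)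 b27675 (.nil))) (.nil)))) (.nil)))) (.nil)))) (.nil)))
noncomputable def r28_32 : Rw Blk := .tok (nat_lit 3) (nat_lit 0x5e0000bc00017f2f62fe0d0) (.hit (nat_lit 0) (nat_lit 0) (nat_lit 0x5e0000bc00017f2f62fe0d0) b36054 (.tok (nat_lit 6) (nat_lit 0x5e0000bc00017edae2fd935) (.hit (nat_lit 1) (nat_lit 7) (nat_lit 0x5e0000bc00017ed182fd809) b27739 (.hit (nat_lit 2) (nat_lit 15) (nat_lit 0x5e0000bc00017edae2fd935) b27740 (.nil))) (.tok (nat_lit 9) (nat_lit 0x5e0000bc00017edae2fd935) (.hit (nat_lit 3) (nat_lit 20) (nat_lit 0x5e0000bc00017ed182fd809) b27739 (.hit (nat_lit 4) (nat_lit 28) (nat_lit 0x5e0000bc00017edae2fd935) b27740 (.nil))) (.nil)))) (.tok (nat_lit 6) (nat_lit 0x5e0000bc000180000300000) (.hit (nat_lit 13) (nat_lit 0) (nat_lit 0x5e0000bc00017f6932feb52) b27741 (.tok (nat_lit 3) (nat_lit 0x5e0000bc00017ff222ffb23) (.hit (nat_lit 14) (nat_lit 1) (nat_lit 0x5e0000bc00017efac2fdcfb)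 b27742 (.one (nat_lit 67) (nat_lit 15) (nat_lit 2) (nat_lit 0x5e0000bc00017ff222ffb23) b27743 (.nil))) (.tok (nat_lit 6) (nat_lit 0x5e0000bc000180000300000) (.hit (nat_lit 16) (nat_lit 7) (nat_lit 0x5e0000bc00017f5c4afed77) b27744 (.hit (nat_lit 19) (nat_lit 15) (nat_lit 0x5e0000bc00017f10fafdf39) b27747 (.tok (nat_lit 55) (nat_lit 0x5e0000bc000180000300000) (.hit (nat_lit 17) (nat_lit 8) (nat_lit 0x5e0000bc00017ffd42ffdc8) b27745 (.hit (nat_lit 20) (nat_lit 16) (nat_lit 0x5e0000bc00017fdf32ff8e8) b27748 (.one (nat_lit 6) (nat_lit 18) (nat_lit 9) (nat_lit 0x5e0000bc000180000300000) b27746 (.nil)))) (.nil)))) (.nil)))) (.tok (nat_lit 9) (nat_lit 0x5e0000bc0001800002ffb64) (.hit (nat_lit 5) (nat_lit 0) (nat_lit 0x5e0000bc00017f6932feaf2) b27749 (.tok (nat_lit 3) (nat_lit 0x5e0000bc00017ff222ffa71) (.hit (nat_lit 6) (nat_lit 1) (nat_lit 0x5e0000bc00017efac2fdc57) b27750 (.one (nat_lit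 55) (nat_lit 7) (nat_lit 3) (nat_lit 0x5e0000bc00017ff222ffa71) b27751 (.nil))) (.tok (nat_lit 9) (nat_lit 0x5e0000bc0001800002ffb64) (.hit (nat_lit 8) (nat_lit 20) (nat_lit 0x5e0000bc00017f5c4afe887) b27752 (.hit (nat_lit 11) (nat_lit 28) (nat_lit 0x5e0000bc00017f10fafde46) b27755 (.tok (nat_lit 67) (nat_lit 0x5e0000bc0001800002ffb64) (.hit (nat_lit 9) (nat_lit 21) (nat_lit 0x5e0000bc00017ffd42ffab1) b27753 (.hit (nat_lit 12) (nat_lit 29) (nat_lit 0x5e0000bc00017fdf32ff81a) b27756 (.one (nat_lit 9) (nat_lit 10) (nat_lit 22) (nat_lit 0x5e0000bc0001800002ffb64) b27754 (.nil)))) (.nil)))) (.nil)))) (.nil)))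
noncomputable def r28_33 : Rw Blk := .tok (nat_lit 3) (nat_lit 0x5e0000bc00017efcc2fdd3d) (.hit (nat_lit 0) (nat_lit 0) (nat_lit 0x5e0000bc00017efcc2fdd3d) b36055 (.tok (nat_lit 6) (nat_lit 0x5e0000bc00017e777afcda6) (.hit (nat_lit 1) (nat_lit 7) (nat_lit 0x5e0000bc00017e777afcda6) b27758 (.hit (nat_lit 2) (nat_lit 15) (nat_lit 0x5e0000bc00017e773afcd9e) b27759 (.nil))) (.tok (nat_lit 9) (nat_lit 0x5e0000bc00017e777afcda6) (.hit (nat_lit 3) (nat_lit 20) (nat_lit 0x5e0000bc00017e777afcda6) b27758 (.hit (nat_lit 4) (nat_lit 28) (nat_lit 0x5e0000bc00017e773afcd9e) b27759 (.nil))) (.nil)))) (.tok (nat_lit 6) (nat_lit 0x5e0000bc000180000300000) (.hit (nat_lit 5) (nat_lit 0) (nat_lit 0x5e0000bc00017f74c2fef23) b27768 (.one (nat_lit 3) (nat_lit 6) (nat_lit 1) (nat_lit 0x5e0000bc00017ecc82fd419) b27769 (.tok (nat_lit 6) (nat_lit 0x5e0000bc000180000300000) (.hit (nat_lit 7) (nat_lit 7)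 (nat_lit 0x5e0000bc00017f55fafe843) b27770 (.hit (nat_lit 11) (nat_lit 15) (nat_lit 0x5e0000bc00017f0e9afda83) b27774 (.tok (nat_lit 55) (nat_lit 0x5e0000bc000180000300000) (.hit (nat_lit 8) (nat_lit 8) (nat_lit 0x5e0000bc00017f47daff791) b27771 (.hit (nat_lit 12) (nat_lit 16) (nat_lit 0x5e0000bc00017f7f6aff916) b27775 (.tok (nat_lit 6) (nat_lit 0x5e0000bc000180000300000) (.hit (nat_lit 9) (nat_lit 9) (nat_lit 0x5e0000bc00017f87a2ff293) b27772 (.one (nat_lit 55) (nat_lit 10) (nat_lit 10) (nat_lit 0x5e0000bc000180000300000) b27773 (.nil))) (.nil)))) (.nil)))) (.nil)))) (.tok (nat_lit 9) (nat_lit 0x5e0000bc0001800002fff9e) (.hit (nat_lit 13) (nat_lit 0) (nat_lit 0x5e0000bc00017f74c2fedcf) b27760 (.one (nat_lit 3) (nat_lit 14) (nat_lit 1) (nat_lit 0x5e0000bc00017ecc82fd453) b27761 (.tok (nat_lit 9) (nat_lit 0x5e0000bc0001800002fff9e) (.hit (nat_lit 15) (nat_lit 20) (nat_lit 0x5e0000bc00017f55fafe6fb)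 b27762 (.hit (nat_lit 19) (nat_lit 28) (nat_lit 0x5e0000bc00017f0e9afdbcb) b27766 (.tok (nat_lit 67) (nat_lit 0x5e0000bc0001800002fff9e) (.hit (nat_lit 16) (nat_lit 21) (nat_lit 0x5e0000bc00017f47daff4a6) b27763 (.hit (nat_lit 20) (nat_lit 29) (nat_lit 0x5e0000bc00017f7f6affa2c) b27767 (.tok (nat_lit 9) (nat_lit 0x5e0000bc0001800002fff9e) (.hit (nat_lit 17) (nat_lit 22) (nat_lit 0x5e0000bc00017f87a2feaf3) b27764 (.one (nat_lit 67) (nat_lit 18) (nat_lit 23) (nat_lit 0x5e0000bc0001800002fff9e) b27765 (.nil))) (.nil)))) (.nil)))) (.nil)))) (.nil)))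
noncomputable def r28_34 : Rw Blk := .tok (nat_lit 3) (nat_lit 0x5e0000bc00017eddfafd6f4) (.hit (nat_lit 14) (nat_lit 0) (nat_lit 0x5e0000bc00017eddfafd6f4) b27809 (.tok (nat_lit 6) (nat_lit 0x5e0000bc00017e186afbe3f) (.hit (nat_lit 15) (nat_lit 7) (nat_lit 0x5e0000bc00017e186afbe3f) b27812 (.hit (nat_lit 16) (nat_lit 15) (nat_lit 0x5e0000bc00017d94bafadc9) b27813 (.nil))) (.tok (nat_lit 9) (nat_lit 0x5e0000bc00017e938afcda3) (.hit (nat_lit 17) (nat_lit 20) (nat_lit 0x5e0000bc00017e938afcda3) b27810 (.hit (nat_lit 18) (nat_lit 28) (nat_lit 0x5e0000bc00017e91bafcd69) b27811 (.nil))) (.nil)))) (.tok (nat_lit 6) (nat_lit 0x5e0000bc000180000300000) (.hit (nat_lit 0) (nat_lit 0) (nat_lit 0x5e0000bc00017f8c1afecb6) b27795 (.tok (nat_lit 3) (nat_lit 0x5e0000bc00017fd832ff63a) (.hit (nat_lit 1) (nat_lit 1) (nat_lit 0x5e0000bc00017f0ebafdd08) b27796 (.one (nat_lit 67) (nat_lit 2) (nat_lit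 2) (nat_lit 0x5e0000bc00017fd832ff63a) b27797 (.nil))) (.tok (nat_lit 6) (nat_lit 0x5e0000bc000180000300000) (.hit (nat_lit 3) (nat_lit 7) (nat_lit 0x5e0000bc00017f5372fe5b0) b27798 (.hit (nat_lit 7) (nat_lit 15) (nat_lit 0x5e0000bc00017f02d2fdb8b) b27802 (.tok (nat_lit 55) (nat_lit 0x5e0000bc000180000300000) (.hit (nat_lit 4) (nat_lit 8) (nat_lit 0x5e0000bc00017fbd9aff5c2) b27799 (.hit (nat_lit 8) (nat_lit 16) (nat_lit 0x5e0000bc00017fc982ff464) b27803 (.tok (nat_lit 6) (nat_lit 0x5e0000bc000180000300000) (.hit (nat_lit 5) (nat_lit 9) (nat_lit 0x5e0000bc00017f8e9afee0d) b27800 (.one (nat_lit 55) (nat_lit 6) (nat_lit 10) (nat_lit 0x5e0000bc000180000300000) b27801 (.nil))) (.nil)))) (.nil)))) (.nil)))) (.tok (nat_lit 9) (nat_lit 0x5e0000bc00017f234affcdd) (.hit (nat_lit 9) (nat_lit 0) (nat_lit 0x5e0000bc00017ede12fe677) b27804 (.tok (nat_lit 3) (nat_lit 0x5e0000bc00017f1172ffcdd)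 (.hit (nat_lit 10) (nat_lit 1) (nat_lit 0x5e0000bc00017ec67afe291) b27805 (.one (nat_lit 55) (nat_lit 11) (nat_lit 3) (nat_lit 0x5e0000bc00017f1172ffcdd) b27806 (.nil))) (.tok (nat_lit 9) (nat_lit 0x5e0000bc00017f234afec2a) (.hit (nat_lit 12) (nat_lit 20) (nat_lit 0x5e0000bc00017f234afec2a) b27807 (.hit (nat_lit 13) (nat_lit 28) (nat_lit 0x5e0000bc00017efd92fe614) b27808 (.nil))) (.nil)))) (.nil)))
noncomputable def r28_35 : Rw Blk := .tok (nat_lit 3) (nat_lit 0x5e0000bc00017eddfafe5db) (.hit (nat_lit 14) (nat_lit 0) (nat_lit 0x5e0000bc00017eddfafe5db) b27790 (.tok (nat_lit 6) (nat_lit 0x5e0000bc00017e938afdca6) (.hit (nat_lit 15) (nat_lit 7) (nat_lit 0x5e0000bc00017e938afdca6) b27793 (.hit (nat_lit 16) (nat_lit 15) (nat_lit 0x5e0000bc00017e91bafdc6c) b27794 (.nil))) (.tok (nat_lit 9) (nat_lit 0x5e0000bc00017e186afcd42) (.hit (nat_lit 17) (nat_lit 20) (nat_lit 0x5e0000bc00017e186afcd42)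 b27791 (.hit (nat_lit 18) (nat_lit 28) (nat_lit 0x5e0000bc00017d94bafbccc) b27792 (.nil))) (.nil)))) (.tok (nat_lit 6) (nat_lit 0x5e0000bc00017f234affe0b) (.hit (nat_lit 9) (nat_lit 0) (nat_lit 0x5e0000bc00017ede12fe66b) b27785 (.tok (nat_lit 3) (nat_lit 0x5e0000bc00017f1172ffe0b) (.hit (nat_lit 10) (nat_lit 1) (nat_lit 0x5e0000bc00017ec67afe291) b27786 (.one (nat_lit 67) (nat_lit 11) (nat_lit 2) (nat_lit 0x5e0000bc00017f1172ffe0b) b27787 (.nil))) (.tok (nat_lit 6) (nat_lit 0x5e0000bc00017f234afec2a) (.hit (nat_lit 12) (nat_lit 7) (nat_lit 0x5e0000bc00017f234afec2a) b27788 (.hit (nat_lit 13) (nat_lit 15) (nat_lit 0x5e0000bc00017efd92fe68e) b27789 (.nil))) (.nil)))) (.tok (nat_lit 9) (nat_lit 0x5e0000bc000180000300000) (.hit (nat_lit 0) (nat_lit 0) (nat_lit 0x5e0000bc00017f8c1aff2f1) b27776 (.tok (nat_lit 3) (nat_lit 0x5e0000bc00017fd832ff637) (.hit (nat_lit 1) (nat_lit 1) (nat_lit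 0x5e0000bc00017f0ebafdd08) b27777 (.one (nat_lit 55) (nat_lit 2) (nat_lit 3) (nat_lit 0x5e0000bc00017fd832ff637) b27778 (.nil))) (.tok (nat_lit 9) (nat_lit 0x5e0000bc000180000300000) (.hit (nat_lit 3) (nat_lit 20) (nat_lit 0x5e0000bc00017f5372fe5b0) b27779 (.hit (nat_lit 7) (nat_lit 28) (nat_lit 0x5e0000bc00017f02d2fe339) b27783 (.tok (nat_lit 67) (nat_lit 0x5e0000bc000180000300000) (.hit (nat_lit 4) (nat_lit 21) (nat_lit 0x5e0000bc00017fbd9aff7f5) b27780 (.hit (nat_lit 8) (nat_lit 29) (nat_lit 0x5e0000bc00017fc982ff461) b27784 (.tok (nat_lit 9) (nat_lit 0x5e0000bc000180000300000) (.hit (nat_lit 5) (nat_lit 22) (nat_lit 0x5e0000bc00017f8e9aff582) b27781 (.one (nat_lit 67) (nat_lit 6) (nat_lit 23) (nat_lit 0x5e0000bc000180000300000) b27782 (.nil))) (.nil)))) (.nil)))) (.nil)))) (.nil)))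
noncomputable def r28_36 : Rw Blk := .tok (nat_lit 3) (nat_lit 0x5e0000bc00017e825afdd8e) (.hit (nat_lit 0) (nat_lit 0) (nat_lit 0x5e0000bc00017e825afdd8e) b36056 (.tok (nat_lit 6) (nat_lit 0x5e0000bc00017e1312fd542) (.hit (nat_lit 1) (nat_lit 7) (nat_lit 0x5e0000bc00017e1312fd542) b27815 (.hit (nat_lit 2) (nat_lit 15) (nat_lit 0x5e0000bc00017e10c2fd4f8) b27816 (.nil))) (.tok (nat_lit 9) (nat_lit 0x5e0000bc00017e1312fd542) (.hit (nat_lit 3) (nat_lit 20) (nat_lit 0x5e0000bc00017e1312fd542) b27815 (.hit (nat_lit 4) (nat_lit 28) (nat_lit 0x5e0000bc00017e10c2fd4f8) b27816 (.nil))) (.nil)))) (.tok (nat_lit 6) (nat_lit 0x5e0000bc0001800002ffd7c) (.hit (nat_lit 5) (nat_lit 0) (nat_lit 0x5e0000bc00017f7e4aff230) b27825 (.tok (nat_lit 3) (nat_lit 0x5e0000bc00017f042afebd2) (.hit (nat_lit 6) (nat_lit 1) (nat_lit 0x5e0000bc00017e1982fd2d7) b27826 (.one (nat_lit 67) (nat_lit 7) (nat_lit 2)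 (nat_lit 0x5e0000bc00017f042afebd2) b27827 (.nil))) (.tok (nat_lit 6) (nat_lit 0x5e0000bc0001800002ffd7c) (.hit (nat_lit 8) (nat_lit 7) (nat_lit 0x5e0000bc00017f4962fe7b2) b27828 (.hit (nat_lit 11) (nat_lit 15) (nat_lit 0x5e0000bc00017e5272fda84) b27831 (.tok (nat_lit 55) (nat_lit 0x5e0000bc0001800002ffd7c) (.hit (nat_lit 9) (nat_lit 8) (nat_lit 0x5e0000bc0001800002ffd7c) b27829 (.hit (nat_lit 12) (nat_lit 16) (nat_lit 0x5e0000bc00017f85b2ff65f) b27832 (.one (nat_lit 6) (nat_lit 10) (nat_lit 9) (nat_lit 0x5e0000bc00017f9f0aff33e) b27830 (.nil)))) (.nil)))) (.nil)))) (.tok (nat_lit 9) (nat_lit 0x5e0000bc000180000300a48) (.hit (nat_lit 13) (nat_lit 0) (nat_lit 0x5e0000bc00017f7e4affab2) b27817 (.tok (nat_lit 3) (nat_lit 0x5e0000bc00017f042aff0f5) (.hit (nat_lit 14) (nat_lit 1) (nat_lit 0x5e0000bc00017e1982fd2d7) b27818 (.one (nat_lit 55) (nat_lit 15) (nat_lit 3) (nat_lit 0x5e0000bc00017f042aff0f5)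 b27819 (.nil))) (.tok (nat_lit 9) (nat_lit 0x5e0000bc000180000300a48) (.hit (nat_lit 16) (nat_lit 20) (nat_lit 0x5e0000bc00017f4962ff868) b27820 (.hit (nat_lit 19) (nat_lit 28) (nat_lit 0x5e0000bc00017e5272fda84) b27823 (.tok (nat_lit 67) (nat_lit 0x5e0000bc000180000300a48) (.hit (nat_lit 17) (nat_lit 21) (nat_lit 0x5e0000bc000180000300a48) b27821 (.hit (nat_lit 20) (nat_lit 29) (nat_lit 0x5e0000bc00017f85b2ffdbc) b27824 (.one (nat_lit 9) (nat_lit 18) (nat_lit 22) (nat_lit 0x5e0000bc00017f9f0affadd) b27822 (.nil)))) (.nil)))) (.nil)))) (.nil)))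
noncomputable def r28_37 : Rw Blk := .tok (nat_lit 3) (nat_lit 0x5e0000bc00017f2692fd684) (.hit (nat_lit 0) (nat_lit 0) (nat_lit 0x5e0000bc00017f2692fd684) b36057 (.tok (nat_lit 6) (nat_lit 0x5e0000bc00017ecbdafcddd) (.hit (nat_lit 1) (nat_lit 7) (nat_lit 0x5e0000bc00017ecbdafcddd) b27834 (.hit (nat_lit 2) (nat_lit 15) (nat_lit 0x5e0000bc00017ebe92fcc34) b27835 (.nil))) (.tok (nat_lit 9) (nat_lit 0x5e0000bc00017ecbdafcddd) (.hit (nat_lit 3) (nat_lit 20) (nat_lit 0x5e0000bc00017ecbdafcddd) b27834 (.hit (nat_lit 4) (nat_lit 28) (nat_lit 0x5e0000bc00017ebe92fcc34) b27835 (.nil))) (.nil)))) (.tok (nat_lit 6) (nat_lit 0x5e0000bc0001800002ff5a1) (.hit (nat_lit 13) (nat_lit 0) (nat_lit 0x5e0000bc00017fb192fe8cf) b27836 (.one (nat_lit 3) (nat_lit 14) (nat_lit 1) (nat_lit 0x5e0000bc00017e9fe2fc98d) b27837 (.tok (nat_lit 6) (nat_lit 0x5e0000bc0001800002ff5a1) (.hit (nat_lit 15) (nat_lit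 7) (nat_lit 0x5e0000bc00017f853afdc73) b27838 (.hit (nat_lit 19) (nat_lit 15) (nat_lit 0x5e0000bc00017f1252fd7e1) b27842 (.tok (nat_lit 55) (nat_lit 0x5e0000bc0001800002ff5a1) (.hit (nat_lit 16) (nat_lit 8) (nat_lit 0x5e0000bc00017ffe52ff44d) b27839 (.hit (nat_lit 20) (nat_lit 16) (nat_lit 0x5e0000bc0001800002ff443) b27843 (.tok (nat_lit 6) (nat_lit 0x5e0000bc00017ffd82ff5a1) (.hit (nat_lit 17) (nat_lit 9) (nat_lit 0x5e0000bc00017f8b4afec79) b27840 (.one (nat_lit 55) (nat_lit 18) (nat_lit 10) (nat_lit 0x5e0000bc00017ffd82ff5a1) b27841 (.nil))) (.nil)))) (.nil)))) (.nil)))) (.tok (nat_lit 9) (nat_lit 0x5e0000bc000180000300000) (.hit (nat_lit 5) (nat_lit 0) (nat_lit 0x5e0000bc00017fb192ff014) b27844 (.one (nat_lit 3) (nat_lit 6) (nat_lit 1) (nat_lit 0x5e0000bc00017e9fe2fd257) b27845 (.tok (nat_lit 9) (nat_lit 0x5e0000bc000180000300000) (.hit (nat_lit 7) (nat_lit 20) (nat_lit 0x5e0000bc00017f853afe2db)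 b27846 (.hit (nat_lit 11) (nat_lit 28) (nat_lit 0x5e0000bc00017f1252fe0ab) b27850 (.tok (nat_lit 67) (nat_lit 0x5e0000bc000180000300000) (.hit (nat_lit 8) (nat_lit 21) (nat_lit 0x5e0000bc00017ffe52ff780) b27847 (.hit (nat_lit 12) (nat_lit 29) (nat_lit 0x5e0000bc0001800002ffb33) b27851 (.tok (nat_lit 9) (nat_lit 0x5e0000bc00017ffd8300000) (.hit (nat_lit 9) (nat_lit 22) (nat_lit 0x5e0000bc00017f8b4aff55c) b27848 (.one (nat_lit 67) (nat_lit 10) (nat_lit 23) (nat_lit 0x5e0000bc00017ffd8300000) b27849 (.nil))) (.nil)))) (.nil)))) (.nil)))) (.nil)))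
noncomputable def r28_38 : Rw Blk := .tok (nat_lit 3) (nat_lit 0x5e0000bc00017ec72afdc4e) (.hit (nat_lit 0) (nat_lit 0) (nat_lit 0x5e0000bc00017ec72afdc4e) b36058 (.tok (nat_lit 6) (nat_lit 0x5e0000bc00017e1a4afc9ca) (.hit (nat_lit 1) (nat_lit 7) (nat_lit 0x5e0000bc00017e11cafc8ba) b27853 (.hit (nat_lit 2) (nat_lit 15) (nat_lit 0x5e0000bc00017e1a4afc9ca) b27854 (.nil))) (.tok (nat_lit 9) (nat_lit 0x5e0000bc00017e1a4afc9ca) (.hit (nat_lit 3) (nat_lit 20) (nat_lit 0x5e0000bc00017e11cafc8ba) b27853 (.hit (nat_lit 4) (nat_lit 28) (nat_lit 0x5e0000bc00017e1a4afc9ca) b27854 (.nil))) (.nil)))) (.tok (nat_lit 6) (nat_lit 0x5e0000bc0001800003008cb) (.hit (nat_lit 13) (nat_lit 0) (nat_lit 0x5e0000bc00017f1ea2fe9e2) b27855 (.one (nat_lit 3) (nat_lit 14) (nat_lit 1) (nat_lit 0x5e0000bc00017e4bcafce5d) b27856 (.tok (nat_lit 6) (nat_lit 0x5e0000bc0001800003008cb) (.hit (nat_lit 15) (nat_lit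 7) (nat_lit 0x5e0000bc00017ee22afe16b) b27857 (.hit (nat_lit 19) (nat_lit 15) (nat_lit 0x5e0000bc00017e6b0afd2db) b27861 (.tok (nat_lit 55) (nat_lit 0x5e0000bc0001800003008cb) (.hit (nat_lit 16) (nat_lit 8) (nat_lit 0x5e0000bc0001800003008cb) b27858 (.hit (nat_lit 20) (nat_lit 16) (nat_lit 0x5e0000bc00017f2fcafecb8) b27862 (.tok (nat_lit 6) (nat_lit 0x5e0000bc00017f931affacf) (.hit (nat_lit 17) (nat_lit 9) (nat_lit 0x5e0000bc00017f584aff1ed) b27859 (.one (nat_lit 55) (nat_lit 18) (nat_lit 10) (nat_lit 0x5e0000bc00017f931affacf) b27860 (.nil))) (.nil)))) (.nil)))) (.nil)))) (.tok (nat_lit 9) (nat_lit 0x5e0000bc0001800003008ac) (.hit (nat_lit 5) (nat_lit 0) (nat_lit 0x5e0000bc00017f1ea2feadb) b27863 (.one (nat_lit 3) (nat_lit 6) (nat_lit 1) (nat_lit 0x5e0000bc00017e4bcafce59) b27864 (.tok (nat_lit 9) (nat_lit 0x5e0000bc0001800003008ac) (.hit (nat_lit 7) (nat_lit 20) (nat_lit 0x5e0000bc00017ee22afe4b9)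 b27865 (.hit (nat_lit 11) (nat_lit 28) (nat_lit 0x5e0000bc00017e6b0afd2da) b27869 (.tok (nat_lit 67) (nat_lit 0x5e0000bc0001800003008ac) (.hit (nat_lit 8) (nat_lit 21) (nat_lit 0x5e0000bc0001800003008ac) b27866 (.hit (nat_lit 12) (nat_lit 29) (nat_lit 0x5e0000bc00017f2fcafed2e) b27870 (.tok (nat_lit 9) (nat_lit 0x5e0000bc00017f931affbb7) (.hit (nat_lit 9) (nat_lit 22) (nat_lit 0x5e0000bc00017f584aff29d) b27867 (.one (nat_lit 67) (nat_lit 10) (nat_lit 23) (nat_lit 0x5e0000bc00017f931affbb7) b27868 (.nil))) (.nil)))) (.nil)))) (.nil)))) (.nil)))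
noncomputable def r28_39 : Rw Blk := .tok (nat_lit 3) (nat_lit 0xbc0001780002fe2cd) (.hit (nat_lit 14) (nat_lit 0) (nat_lit 0xbc0001780002fe2cd) b8399 (.tok (nat_lit 6) (nat_lit 0xbc0001780002fd794) (.hit (nat_lit 15) (nat_lit 7) (nat_lit 0xbc0001780002fd794) b8400 (.hit (nat_lit 16) (nat_lit 15) (nat_lit 0xbc0001780002fcb6d) b8401 (.nil))) (.tok (nat_lit 9) (nat_lit 0xbc0001780002fbfc6) (.hit (nat_lit 17) (nat_lit 20) (nat_lit 0xbc0001780002fbfc6) b8402 (.hit (nat_lit 18) (nat_lit 28) (nat_lit 0xbc0001780002fb9fe) b8403 (.nil))) (.nil)))) (.tok (nat_lit 6) (nat_lit 0xbc0001780002ffcad) (.hit (nat_lit 9) (nat_lit 0) (nat_lit 0xbc0001780002ff925) b8394 (.tok (nat_lit 3) (nat_lit 0xbc0001780002ffcad) (.hit (nat_lit 10) (nat_lit 1) (nat_lit 0xbc0001780002fe6ca) b8395 (.one (nat_lit 67) (nat_lit 11) (nat_lit 2) (nat_lit 0xbc0001780002ffcad) b8396 (.nil))) (.tok (nat_lit 6) (nat_lit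 0xbc0001780002ff74e) (.hit (nat_lit 12) (nat_lit 7) (nat_lit 0xbc0001780002ff74e) b8397 (.hit (nat_lit 13) (nat_lit 15) (nat_lit 0xbc0001780002fe7fa) b8398 (.nil))) (.nil)))) (.tok (nat_lit 9) (nat_lit 0xbc000178000300000) (.hit (nat_lit 0) (nat_lit 0) (nat_lit 0xbc0001780002ff8d3) b8385 (.tok (nat_lit 3) (nat_lit 0xbc000178000300000) (.hit (nat_lit 1) (nat_lit 1) (nat_lit 0xbc0001780002fe45a) b8386 (.one (nat_lit 55) (nat_lit 2) (nat_lit 3) (nat_lit 0xbc000178000300000) b8387 (.nil))) (.tok (nat_lit 9) (nat_lit 0xbc0001780002ffdbf) (.hit (nat_lit 3) (nat_lit 20) (nat_lit 0xbc0001780002fee91) b8388 (.hit (nat_lit 7) (nat_lit 28) (nat_lit 0xbc0001780002fdcf4) b8392 (.tok (nat_lit 67) (nat_lit 0xbc0001780002ffdbf) (.hit (nat_lit 4) (nat_lit 21) (nat_lit 0xbc0001780002ffdbf) b8389 (.hit (nat_lit 8) (nat_lit 29) (nat_lit 0xbc0001780002fed2e) b8393 (.tok (nat_lit 9) (nat_lit 0xbc0001780002ffccd)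 (.hit (nat_lit 5) (nat_lit 22) (nat_lit 0xbc0001780002ff116) b8390 (.one (nat_lit 67) (nat_lit 6) (nat_lit 23) (nat_lit 0xbc0001780002ffccd) b8391 (.nil))) (.nil)))) (.nil)))) (.nil)))) (.nil)))
noncomputable def r28_40 : Rw Blk := .tok (nat_lit 3) (nat_lit 0x5e0000bc00017e7ecafd0a3) (.hit (nat_lit 14) (nat_lit 0) (nat_lit 0x5e0000bc00017e7ecafd0a3) b27923 (.tok (nat_lit 6) (nat_lit 0x5e0000bc00017e43aafc6e5) (.hit (nat_lit 15) (nat_lit 7) (nat_lit 0x5e0000bc00017e26b2fc346) b27926 (.hit (nat_lit 16) (nat_lit 15) (nat_lit 0x5e0000bc00017e43aafc6e5) b27927 (.nil))) (.tok (nat_lit 9) (nat_lit 0x5e0000bc00017d9f52fb25a) (.hit (nat_lit 17) (nat_lit 20) (nat_lit 0x5e0000bc00017d9f52fb25a) b27924 (.hit (nat_lit 18) (nat_lit 28) (nat_lit 0x5e0000bc00017d790afad91) b27925 (.nil))) (.nil)))) (.tok (nat_lit 6) (nat_lit 0x5e0000bc00017f703aff0fb) (.hit (nat_lit 9) (nat_lit 0) (nat_lit 0x5e0000bc00017eef42fe869)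 b27918 (.tok (nat_lit 3) (nat_lit 0x5e0000bc00017f703aff0fb) (.hit (nat_lit 10) (nat_lit 1) (nat_lit 0x5e0000bc00017ea74afdabc) b27919 (.one (nat_lit 67) (nat_lit 11) (nat_lit 2) (nat_lit 0x5e0000bc00017f703aff0fb) b27920 (.nil))) (.tok (nat_lit 6) (nat_lit 0x5e0000bc00017f0f02fe839) (.hit (nat_lit 12) (nat_lit 7) (nat_lit 0x5e0000bc00017f0f02fe839) b27921 (.hit (nat_lit 13) (nat_lit 15) (nat_lit 0x5e0000bc00017eafe2fdc29) b27922 (.nil))) (.nil)))) (.tok (nat_lit 9) (nat_lit 0x5e0000bc000180000300464) (.hit (nat_lit 0) (nat_lit 0) (nat_lit 0x5e0000bc00017f43baff183) b27909 (.tok (nat_lit 3) (nat_lit 0x5e0000bc00017fcb4aff35b) (.hit (nat_lit 1) (nat_lit 1) (nat_lit 0x5e0000bc00017ea7cafcf81) b27910 (.one (nat_lit 55) (nat_lit 2) (nat_lit 3) (nat_lit 0x5e0000bc00017fcb4aff35b) b27911 (.nil))) (.tok (nat_lit 9) (nat_lit 0x5e0000bc000180000300464) (.hit (nat_lit 3) (nat_lit 20) (nat_lit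 0x5e0000bc00017f0892fdf10) b27912 (.hit (nat_lit 7) (nat_lit 28) (nat_lit 0x5e0000bc00017e9162fcedb) b27916 (.tok (nat_lit 67) (nat_lit 0x5e0000bc000180000300464) (.hit (nat_lit 4) (nat_lit 21) (nat_lit 0x5e0000bc00017fdb52ff8fb) b27913 (.hit (nat_lit 8) (nat_lit 29) (nat_lit 0x5e0000bc00017f5902fef69) b27917 (.tok (nat_lit 9) (nat_lit 0x5e0000bc000180000300464) (.hit (nat_lit 5) (nat_lit 22) (nat_lit 0x5e0000bc00017f260afe80d) b27914 (.one (nat_lit 67) (nat_lit 6) (nat_lit 23) (nat_lit 0x5e0000bc000180000300464) b27915 (.nil))) (.nil)))) (.nil)))) (.nil)))) (.nil)))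
noncomputable def r28_41 : Rw Blk := .tok (nat_lit 3) (nat_lit 0x2f00005e0000bf8b357e6392fce65) (.hit (nat_lit 14) (nat_lit 0) (nat_lit 0x2f00005e0000bf8b357e6392fce65) b27885 (.tok (nat_lit 6) (nat_lit 0x2f00005e0000beff197d455afaa0e) (.hit (nat_lit 15) (nat_lit 7) (nat_lit 0x2f00005e0000beff197d455afaa0e) b27888 (.hit (nat_lit 16) (nat_lit 15) (nat_lit 0x2f00005e0000bee7f97d171afa446) b27889 (.nil))) (.tok (nat_lit 9) (nat_lit 0x2f00005e0000bf5e517e03cafc1dc) (.hit (nat_lit 17) (nat_lit 20) (nat_lit 0x2f00005e0000bf5e517e03cafc1dc) b27886 (.hit (nat_lit 18) (nat_lit 28) (nat_lit 0x2f00005e0000bf2db57da292fb5b5) b27887 (.nil))) (.nil)))) (.tok (nat_lit 6) (nat_lit 0x2f00005e0000c0000180006300000) (.hit (nat_lit 0) (nat_lit 0) (nat_lit 0x2f00005e0000bfe34d7f2d52fe459) b27871 (.tok (nat_lit 3) (nat_lit 0x2f00005e0000c000017f61e2fec16) (.hit (nat_lit 1) (nat_lit 1) (nat_lit 0x2f00005e0000bf91697e9502fd27a)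 b27872 (.one (nat_lit 67) (nat_lit 2) (nat_lit 2) (nat_lit 0x2f00005e0000c000017f61e2fec16) b27873 (.nil))) (.tok (nat_lit 6) (nat_lit 0x2f00005e0000bff6fd80006300000) (.hit (nat_lit 3) (nat_lit 7) (nat_lit 0x2f00005e0000bfba457ed5aafdf61) b27874 (.hit (nat_lit 7) (nat_lit 15) (nat_lit 0x2f00005e0000bf73d17e5fcafcc1a) b27878 (.tok (nat_lit 55) (nat_lit 0x2f00005e0000bff6fd80006300000) (.hit (nat_lit 4) (nat_lit 8) (nat_lit 0x2f00005e0000bff6fd7f9a82ffaea) b27875 (.hit (nat_lit 8) (nat_lit 16) (nat_lit 0x2f00005e0000bfb4b97f918aff20b) b27879 (.tok (nat_lit 6) (nat_lit 0x2f00005e0000bff33580006300000) (.hit (nat_lit 5) (nat_lit 9) (nat_lit 0x2f00005e0000bfc4597f697afed3f) b27876 (.one (nat_lit 55) (nat_lit 6) (nat_lit 10) (nat_lit 0x2f00005e0000bff33580006300000) b27877 (.nil))) (.nil)))) (.nil)))) (.nil)))) (.tok (nat_lit 9) (nat_lit 0x2f00005e0000bff2b57f8e4aff15b) (.hit (nat_lit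 9) (nat_lit 0) (nat_lit 0x2f00005e0000bfe4957f50eafe9d1) b27880 (.tok (nat_lit 3) (nat_lit 0x2f00005e0000bff2b57f7e6afef2d) (.hit (nat_lit 10) (nat_lit 1) (nat_lit 0x2f00005e0000bf9b297ed832fdae1) b27881 (.one (nat_lit 55) (nat_lit 11) (nat_lit 3) (nat_lit 0x2f00005e0000bff2b57f7e6afef2d) b27882 (.nil))) (.tok (nat_lit 9) (nat_lit 0x2f00005e0000bfdd397f8e4aff15b) (.hit (nat_lit 12) (nat_lit 20) (nat_lit 0x2f00005e0000bfdd397f8e4aff15b) b27883 (.hit (nat_lit 13) (nat_lit 28) (nat_lit 0x2f00005e0000bf9fe97f13e2fe256) b27884 (.nil))) (.nil)))) (.nil)))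
noncomputable def r28_42 : Rw Blk := .tok (nat_lit 3) (nat_lit 0x5e0000bc00017e7ecafd31d) (.hit (nat_lit 14) (nat_lit 0) (nat_lit 0x5e0000bc00017e7ecafd31d) b27904 (.tok (nat_lit 6) (nat_lit 0x5e0000bc00017d9f52fb5ed) (.hit (nat_lit 15) (nat_lit 7) (nat_lit 0x5e0000bc00017d9f52fb5ed) b27907 (.hit (nat_lit 16) (nat_lit 15) (nat_lit 0x5e0000bc00017d790afb124) b27908 (.nil))) (.tok (nat_lit 9) (nat_lit 0x5e0000bc00017e43aafca78) (.hit (nat_lit 17) (nat_lit 20) (nat_lit 0x5e0000bc00017e26b2fc6d9) b27905 (.hit (nat_lit 18) (nat_lit 28) (nat_lit 0x5e0000bc00017e43aafca78) b27906 (.nil))) (.nil)))) (.tok (nat_lit 6) (nat_lit 0x5e0000bc000180000300000) (.hit (nat_lit 0) (nat_lit 0) (nat_lit 0x5e0000bc00017f43bafe84d) b27890 (.tok (nat_lit 3) (nat_lit 0x5e0000bc00017fcb4afeec4) (.hit (nat_lit 1) (nat_lit 1) (nat_lit 0x5e0000bc00017ea7cafccfa) b27891 (.one (nat_lit 67) (nat_lit 2) (nat_lit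 2) (nat_lit 0x5e0000bc00017fcb4afeec4) b27892 (.nil))) (.tok (nat_lit 6) (nat_lit 0x5e0000bc000180000300000) (.hit (nat_lit 3) (nat_lit 7) (nat_lit 0x5e0000bc00017f0892fdf5d) b27893 (.hit (nat_lit 7) (nat_lit 15) (nat_lit 0x5e0000bc00017e9162fce8e) b27897 (.tok (nat_lit 55) (nat_lit 0x5e0000bc000180000300000) (.hit (nat_lit 4) (nat_lit 8) (nat_lit 0x5e0000bc00017fdb52ffc6b) b27894 (.hit (nat_lit 8) (nat_lit 16) (nat_lit 0x5e0000bc00017f5902fead2) b27898 (.tok (nat_lit 6) (nat_lit 0x5e0000bc000180000300000) (.hit (nat_lit 5) (nat_lit 9) (nat_lit 0x5e0000bc00017f260afe3d0) b27895 (.one (nat_lit 55) (nat_lit 6) (nat_lit 10) (nat_lit 0x5e0000bc000180000300000) b27896 (.nil))) (.nil)))) (.nil)))) (.nil)))) (.tok (nat_lit 9) (nat_lit 0x5e0000bc00017f703afee18) (.hit (nat_lit 9) (nat_lit 0) (nat_lit 0x5e0000bc00017eef42fde26) b27899 (.tok (nat_lit 3) (nat_lit 0x5e0000bc00017f703afee18)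 (.hit (nat_lit 10) (nat_lit 1) (nat_lit 0x5e0000bc00017ea74afd65f) b27900 (.one (nat_lit 55) (nat_lit 11) (nat_lit 3) (nat_lit 0x5e0000bc00017f703afee18) b27901 (.nil))) (.tok (nat_lit 9) (nat_lit 0x5e0000bc00017f0f02fe389) (.hit (nat_lit 12) (nat_lit 20) (nat_lit 0x5e0000bc00017f0f02fe389) b27902 (.hit (nat_lit 13) (nat_lit 28) (nat_lit 0x5e0000bc00017eafe2fd7e6) b27903 (.nil))) (.nil)))) (.nil)))
noncomputable def r28_43 : Rw Blk := .tok (nat_lit 3) (nat_lit 0x5e0000bc00017ea952fda6d) (.hit (nat_lit 0) (nat_lit 0) (nat_lit 0x5e0000bc00017ea952fda6d) b28141 (.tok (nat_lit 6) (nat_lit 0x5e0000bc00017e725afd62c) (.hit (nat_lit 1) (nat_lit 7) (nat_lit 0x5e0000bc00017e725afd62c) b28144 (.hit (nat_lit 2) (nat_lit 15) (nat_lit 0x5e0000bc00017e6142fd409) b28145 (.nil))) (.tok (nat_lit 9) (nat_lit 0x5e0000bc00017e82fafd840) (.hit (nat_lit 3) (nat_lit 20) (nat_lit 0x5e0000bc00017e8222fd825)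 b28142 (.hit (nat_lit 4) (nat_lit 28) (nat_lit 0x5e0000bc00017e82fafd840) b28143 (.nil))) (.nil)))) (.tok (nat_lit 6) (nat_lit 0x5e0000bc000180000300000) (.hit (nat_lit 5) (nat_lit 0) (nat_lit 0x5e0000bc00017f32bafe969) b28146 (.tok (nat_lit 3) (nat_lit 0x5e0000bc00017f712aff606) (.hit (nat_lit 6) (nat_lit 1) (nat_lit 0x5e0000bc00017e8002fd7e1) b28147 (.one (nat_lit 67) (nat_lit 7) (nat_lit 2) (nat_lit 0x5e0000bc00017f712aff606) b28148 (.nil))) (.tok (nat_lit 6) (nat_lit 0x5e0000bc000180000300000) (.hit (nat_lit 8) (nat_lit 7) (nat_lit 0x5e0000bc00017f446afea89) b28149 (.hit (nat_lit 11) (nat_lit 15) (nat_lit 0x5e0000bc00017e8a0afd922) b28152 (.tok (nat_lit 55) (nat_lit 0x5e0000bc000180000300000) (.hit (nat_lit 9) (nat_lit 8) (nat_lit 0x5e0000bc000180000300000) b28150 (.hit (nat_lit 12) (nat_lit 16) (nat_lit 0x5e0000bc00017f6af2ff53b) b28153 (.one (nat_lit 6) (nat_lit 10) (nat_lit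 9) (nat_lit 0x5e0000bc00017f4e82ff19c) b28151 (.nil)))) (.nil)))) (.nil)))) (.tok (nat_lit 9) (nat_lit 0x5e0000bc00017fadc2feee5) (.hit (nat_lit 13) (nat_lit 0) (nat_lit 0x5e0000bc00017f7bdafe74d) b28154 (.tok (nat_lit 3) (nat_lit 0x5e0000bc00017f604afe660) (.hit (nat_lit 14) (nat_lit 1) (nat_lit 0x5e0000bc00017efc1afd579) b28155 (.one (nat_lit 55) (nat_lit 15) (nat_lit 3) (nat_lit 0x5e0000bc00017f604afe660) b28156 (.nil))) (.tok (nat_lit 9) (nat_lit 0x5e0000bc00017fadc2feee5) (.hit (nat_lit 16) (nat_lit 20) (nat_lit 0x5e0000bc00017f0a0afda56) b28157 (.hit (nat_lit 19) (nat_lit 28) (nat_lit 0x5e0000bc00017ee972fd922) b28160 (.tok (nat_lit 67) (nat_lit 0x5e0000bc00017fadc2feee5) (.hit (nat_lit 17) (nat_lit 21) (nat_lit 0x5e0000bc00017f90f2feee5) b28158 (.hit (nat_lit 20) (nat_lit 29) (nat_lit 0x5e0000bc00017fadc2feb3c) b28161 (.one (nat_lit 9) (nat_lit 18) (nat_lit 22) (nat_lit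 0x5e0000bc00017f7fcafea5b) b28159 (.nil)))) (.nil)))) (.nil)))) (.nil)))
noncomputable def r28_44 : Rw Blk := .tok (nat_lit 3) (nat_lit 0x5e0000bc00017e7f52fe252) (.hit (nat_lit 0) (nat_lit 0) (nat_lit 0x5e0000bc00017e7f52fe252) b28162 (.tok (nat_lit 6) (nat_lit 0x5e0000bc00017df4bafd208) (.hit (nat_lit 1) (nat_lit 7) (nat_lit 0x5e0000bc00017df1fafd1b0) b28165 (.hit (nat_lit 2) (nat_lit 15) (nat_lit 0x5e0000bc00017df4bafd208) b28166 (.nil))) (.tok (nat_lit 9) (nat_lit 0x5e0000bc00017df2dafd1cc) (.hit (nat_lit 3) (nat_lit 20) (nat_lit 0x5e0000bc00017de9d2fd0ab) b28163 (.hit (nat_lit 4) (nat_lit 28) (nat_lit 0x5e0000bc00017df2dafd1cc) b28164 (.nil))) (.nil)))) (.tok (nat_lit 6) (nat_lit 0x5e0000bc000180698b015f8) (.hit (nat_lit 13) (nat_lit 0) (nat_lit 0x5e0000bc00017ede82fefac) b28175 (.one (nat_lit 3) (nat_lit 14) (nat_lit 1) (nat_lit 0x5e0000bc00017de432fd6b3) b28176 (.tok (nat_lit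 6) (nat_lit 0x5e0000bc000180698b015f8) (.hit (nat_lit 15) (nat_lit 7) (nat_lit 0x5e0000bc00017f026afe98f) b28177 (.hit (nat_lit 19) (nat_lit 15) (nat_lit 0x5e0000bc00017e325afde9a) b28181 (.tok (nat_lit 55) (nat_lit 0x5e0000bc000180698b015f8) (.hit (nat_lit 16) (nat_lit 8) (nat_lit 0x5e0000bc000180698b015f8) b28178 (.hit (nat_lit 20) (nat_lit 16) (nat_lit 0x5e0000bc00017f0752ff5f8) b28182 (.tok (nat_lit 6) (nat_lit 0x5e0000bc00017ff06b00585) (.hit (nat_lit 17) (nat_lit 9) (nat_lit 0x5e0000bc00017f6e92ffc30) b28179 (.one (nat_lit 55) (nat_lit 18) (nat_lit 10) (nat_lit 0x5e0000bc00017ff06b00585) b28180 (.nil))) (.nil)))) (.nil)))) (.nil)))) (.tok (nat_lit 9) (nat_lit 0x5e0000bc00017f376aff3f7) (.hit (nat_lit 5) (nat_lit 0) (nat_lit 0x5e0000bc00017f376aff3f7) b28167 (.one (nat_lit 3) (nat_lit 6) (nat_lit 1) (nat_lit 0x5e0000bc00017d618afbfa2) b28168 (.tok (nat_lit 9) (nat_lit 0x5e0000bc00017ef68aff242)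 (.hit (nat_lit 7) (nat_lit 20) (nat_lit 0x5e0000bc00017dfc12fd2f3) b28169 (.hit (nat_lit 11) (nat_lit 28) (nat_lit 0x5e0000bc00017da28afc7c2) b28173 (.tok (nat_lit 67) (nat_lit 0x5e0000bc00017ef68aff242) (.hit (nat_lit 8) (nat_lit 21) (nat_lit 0x5e0000bc00017e8832fe477) b28170 (.hit (nat_lit 12) (nat_lit 29) (nat_lit 0x5e0000bc00017e775afe25c) b28174 (.tok (nat_lit 9) (nat_lit 0x5e0000bc00017ef68aff242) (.hit (nat_lit 9) (nat_lit 22) (nat_lit 0x5e0000bc00017e7e0afe332) b28171 (.one (nat_lit 67) (nat_lit 10) (nat_lit 23) (nat_lit 0x5e0000bc00017ef68aff242) b28172 (.nil))) (.nil)))) (.nil)))) (.nil)))) (.nil)))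
noncomputable def r28_45 : Rw Blk := .tok (nat_lit 3) (nat_lit 0x5e0000bc00017ecc0afdbe0) (.hit (nat_lit 0) (nat_lit 0) (nat_lit 0x5e0000bc00017ecc0afdbe0) b28183 (.tok (nat_lit 6) (nat_lit 0x5e0000bc00017e7292fd394) (.hit (nat_lit 1) (nat_lit 7) (nat_lit 0x5e0000bc00017e6eb2fd318) b28186 (.hit (nat_lit 2) (nat_lit 15) (nat_lit 0x5e0000bc00017e7292fd394) b28187 (.nil))) (.tok (nat_lit 9) (nat_lit 0x5e0000bc00017e784afd44b) (.hit (nat_lit 3) (nat_lit 20) (nat_lit 0x5e0000bc00017e639afd1b5) b28184 (.hit (nat_lit 4) (nat_lit 28) (nat_lit 0x5e0000bc00017e784afd44b) b28185 (.nil))) (.nil)))) (.tok (nat_lit 6) (nat_lit 0x5e0000bc00017fa822ff22e) (.hit (nat_lit 13) (nat_lit 0) (nat_lit 0x5e0000bc00017f03bafe0dd) b28196 (.one (nat_lit 3) (nat_lit 14) (nat_lit 1) (nat_lit 0x5e0000bc00017e430afc3fc) b28197 (.tok (nat_lit 6) (nat_lit 0x5e0000bc00017fa822ff22e) (.hit (nat_lit 15) (nat_lit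 7) (nat_lit 0x5e0000bc00017ee752fd528) b28198 (.hit (nat_lit 19) (nat_lit 15) (nat_lit 0x5e0000bc00017ecb4afd32f) b28202 (.tok (nat_lit 55) (nat_lit 0x5e0000bc00017fa822ff22e) (.hit (nat_lit 16) (nat_lit 8) (nat_lit 0x5e0000bc00017f7112fe9cc) b28199 (.hit (nat_lit 20) (nat_lit 16) (nat_lit 0x5e0000bc00017f65bafe82b) b28203 (.tok (nat_lit 6) (nat_lit 0x5e0000bc00017fa822ff22e) (.hit (nat_lit 17) (nat_lit 9) (nat_lit 0x5e0000bc00017f3b42fe153) b28200 (.one (nat_lit 55) (nat_lit 18) (nat_lit 10) (nat_lit 0x5e0000bc00017fa822ff22e) b28201 (.nil))) (.nil)))) (.nil)))) (.nil)))) (.tok (nat_lit 9) (nat_lit 0x5e0000bc000180000300c58) (.hit (nat_lit 5) (nat_lit 0) (nat_lit 0x5e0000bc00017f5daafee38) b28188 (.one (nat_lit 3) (nat_lit 6) (nat_lit 1) (nat_lit 0x5e0000bc00017e4a22fcb87) b28189 (.tok (nat_lit 9) (nat_lit 0x5e0000bc000180000300c58) (.hit (nat_lit 7) (nat_lit 20) (nat_lit 0x5e0000bc00017f0372febd6)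 b28190 (.hit (nat_lit 11) (nat_lit 28) (nat_lit 0x5e0000bc00017e8b82fd4f1) b28194 (.tok (nat_lit 67) (nat_lit 0x5e0000bc000180000300c58) (.hit (nat_lit 8) (nat_lit 21) (nat_lit 0x5e0000bc000180000300c58) b28191 (.hit (nat_lit 12) (nat_lit 29) (nat_lit 0x5e0000bc00017f91b2ff647) b28195 (.tok (nat_lit 9) (nat_lit 0x5e0000bc00017fb93aff531) (.hit (nat_lit 9) (nat_lit 22) (nat_lit 0x5e0000bc00017f9b92fefbd) b28192 (.one (nat_lit 67) (nat_lit 10) (nat_lit 23) (nat_lit 0x5e0000bc00017fb93aff531) b28193 (.nil))) (.nil)))) (.nil)))) (.nil)))) (.nil)))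
noncomputable def r28_46 : Rw Blk := .tok (nat_lit 3) (nat_lit 0x17e77c2fdc385fd974bf42397f3cd2fd99b) (.hit (nat_lit 14) (nat_lit 0) (nat_lit 0x17e77c2fda3a5fc3cebf42397eebcafd385) b28218 (.tok (nat_lit 6) (nat_lit 0x17e71fafdc385fd974bf40657f3cd2fd99b) (.hit (nat_lit 15) (nat_lit 7) (nat_lit 0x17e71fafdc385fd974bf40657f3cd2fd99b) b28221 (.hit (nat_lit 16) (nat_lit 15) (nat_lit 0x17e4162fd4355fb2f0bf28197f17eafd388) b28222 (.nil))) (.tok (nat_lit 9) (nat_lit 0x17da1dafc9e35f9d5abed8557ec6eafbf97) (.hit (nat_lit 17) (nat_lit 20) (nat_lit 0x17da1dafc9e35f9d5abed8557ec6eafbf97) b28219 (.hit (nat_lit 18) (nat_lit 28) (nat_lit 0x17d0452fbeda5f8888be89917e62f2fabe6) b28220 (.nil))) (.nil)))) (.tok (nat_lit 6) (nat_lit 0x1800002ffbfe5fe416c02e5d7f641b0054c) (.hit (nat_lit 9) (nat_lit 0) (nat_lit 0x17ef022fdc725fd38ebf9fad7ef5aafe51d) b28213 (.tok (nat_lit 3) (nat_lit 0x1800002ffbfe5fe416c02e5d7f641b0054c)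 (.hit (nat_lit 10) (nat_lit 1) (nat_lit 0x17f02c2feb885fbdaabf8bd17f3dfafe667) b28214 (.one (nat_lit 67) (nat_lit 11) (nat_lit 2) (nat_lit 0x1800002ffbfe5fe416c02e5d7f641b0054c) b28215 (.nil))) (.tok (nat_lit 6) (nat_lit 0x17f7f7afe2805fd82abfca2d7f504afe9be) (.hit (nat_lit 12) (nat_lit 7) (nat_lit 0x17f7f7afe2805fd82abfca2d7f504afe9be) b28216 (.hit (nat_lit 13) (nat_lit 15) (nat_lit 0x17ebbe2fdf215fb1e0bf78b97f0282fdaeb) b28217 (.nil))) (.nil)))) (.tok (nat_lit 9) (nat_lit 0x17f413300000600000bf9525800362feb2d) (.hit (nat_lit 0) (nat_lit 0) (nat_lit 0x17f4132fe5565fd850bf95257f74cafeb2d) b28204 (.tok (nat_lit 3) (nat_lit 0x17e8c1aff98c5fe5c2bf4d757fb59afdcdf) (.hit (nat_lit 1) (nat_lit 1) (nat_lit 0x17df232fd8175fb39cbf00817f320afc9a2) b28205 (.one (nat_lit 55) (nat_lit 2) (nat_lit 3) (nat_lit 0x17e8c1aff98c5fe5c2bf4d757fb59afdcdf) b28206 (.nil))) (.tok (nat_lit 9) (nat_lit 0x17ef95b00000600000bf8415800362fea87)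 (.hit (nat_lit 3) (nat_lit 20) (nat_lit 0x17e5b6afe2195fc19cbf351d7f47c2fd6c9) b28207 (.hit (nat_lit 7) (nat_lit 28) (nat_lit 0x17e145afe1ae5fab64bf11957f0282fcde7) b28211 (.tok (nat_lit 67) (nat_lit 0x17ef95b00000600000bf8415800362fea87) (.hit (nat_lit 4) (nat_lit 21) (nat_lit 0x17ec752ff3935feb32bf6b11800362fe446) b28208 (.hit (nat_lit 8) (nat_lit 29) (nat_lit 0x17ea2d300000600000bf58d17ff5dafdfb6) b28212 (.tok (nat_lit 9) (nat_lit 0x17ef95aff51d5ffc3ebf84157ff63afea87) (.hit (nat_lit 5) (nat_lit 22) (nat_lit 0x17eaf62fea665fd3c4bf5f197fa79afe148) b28209 (.one (nat_lit 67) (nat_lit 6) (nat_lit 23) (nat_lit 0x17ef95aff51d5ffc3ebf84157ff63afea87) b28210 (.nil))) (.nil)))) (.nil)))) (.nil)))) (.nil)))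
noncomputable def r28_47 : Rw Blk := .tok (nat_lit 3) (nat_lit 0xbc0001780002ffaab) (.hit (nat_lit 0) (nat_lit 0) (nat_lit 0xbc0001780002fe71a) b28223 (.tok (nat_lit 6) (nat_lit 0xbc0001780002fd8a4) (.hit (nat_lit 1) (nat_lit 7) (nat_lit 0xbc0001780002fc6ff) b28224 (.hit (nat_lit 4) (nat_lit 15) (nat_lit 0xbc0001780002fbfd9) b28227 (.tok (nat_lit 14) (nat_lit 0xbc0001780002fd8a4) (.hit (nat_lit 2) (nat_lit 11) (nat_lit 0xbc0001780002fd617) b28225 (.hit (nat_lit 5) (nat_lit 17) (nat_lit 0xbc0001780002fcdd4) b28228 (.one (nat_lit 9) (nat_lit 3) (nat_lit 12) (nat_lit 0xbc0001780002fd8a4) b28226 (.nil)))) (.one (nat_lit 68) (nat_lit 6) (nat_lit 18) (nat_lit 0xbc0001780002fd573) b28229 (.nil))))) (.tok (nat_lit 52) (nat_lit 0xbc0001780002fe48a) (.hit (nat_lit 7) (nat_lit 39) (nat_lit 0xbc0001780002fe48a) b28230 (.hit (nat_lit 8) (nat_lit 40) (nat_lit 0xbc0001780002fe0b9) b28231 (.nil)))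 (.tok (nat_lit 55) (nat_lit 0xbc0001780002ffaab) (.hit (nat_lit 9) (nat_lit 41) (nat_lit 0xbc0001780002ffaab) b28232 (.tok (nat_lit 3) (nat_lit 0xbc0001780002fe5ff) (.hit (nat_lit 12) (nat_lit 47) (nat_lit 0xbc0001780002fe363) b28235 (.one (nat_lit 67) (nat_lit 13) (nat_lit 48) (nat_lit 0xbc0001780002fe5ff) b28236 (.nil))) (.tok (nat_lit 6) (nat_lit 0xbc0001780002feff4) (.hit (nat_lit 10) (nat_lit 42) (nat_lit 0xbc0001780002feff4) b28233 (.hit (nat_lit 11) (nat_lit 45) (nat_lit 0xbc0001780002fe031) b28234 (.nil))) (.nil)))) (.one (nat_lit 58) (nat_lit 14) (nat_lit 49) (nat_lit 0xbc0001780002fdcf3) b28237 (.nil)))))) (.tok (nat_lit 9) (nat_lit 0xbc0001780003031b5) (.hit (nat_lit 15) (nat_lit 0) (nat_lit 0xbc0001780002fe9eb) b28238 (.tok (nat_lit 9) (nat_lit 0xbc0001780002fec96) (.hit (nat_lit 16) (nat_lit 20) (nat_lit 0xbc0001780002fdaa0) b28239 (.hit (nat_lit 21) (nat_lit 28)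 (nat_lit 0xbc0001780002fc876) b28244 (.tok (nat_lit 14) (nat_lit 0xbc0001780002fec96) (.hit (nat_lit 17) (nat_lit 24) (nat_lit 0xbc0001780002fe4e2) b28240 (.hit (nat_lit 22) (nat_lit 30) (nat_lit 0xbc0001780002fe6f9) b28245 (.one (nat_lit 6) (nat_lit 18) (nat_lit 25) (nat_lit 0xbc0001780002fec96) b28241 (.nil)))) (.one (nat_lit 56) (nat_lit 23) (nat_lit 31) (nat_lit 0xbc0001780002fd91a) b28246 (.tok (nat_lit 68) (nat_lit 0xbc0001780002fe925) (.hit (nat_lit 19) (nat_lit 26) (nat_lit 0xbc0001780002fe919) b28242 (.hit (nat_lit 24) (nat_lit 32) (nat_lit 0xbc0001780002fe122) b28247 (.one (nat_lit 9) (nat_lit 20) (nat_lit 27) (nat_lit 0xbc0001780002fe925) b28243 (.nil)))) (.nil)))))) (.tok (nat_lit 64) (nat_lit 0xbc0001780002febf0) (.hit (nat_lit 25) (nat_lit 50) (nat_lit 0xbc0001780002fdc33) b28248 (.hit (nat_lit 26) (nat_lit 51) (nat_lit 0xbc0001780002febf0) b28249 (.nil))) (.tok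 (nat_lit 67) (nat_lit 0xbc0001780003031b5) (.hit (nat_lit 27) (nat_lit 52) (nat_lit 0xbc0001780002ffeea) b28250 (.tok (nat_lit 3) (nat_lit 0xbc000178000300249) (.hit (nat_lit 33) (nat_lit 58) (nat_lit 0xbc0001780002ff6e2) b28256 (.one (nat_lit 55) (nat_lit 34) (nat_lit 59) (nat_lit 0xbc000178000300249) b28257 (.nil))) (.tok (nat_lit 9) (nat_lit 0xbc0001780003031b5) (.hit (nat_lit 28) (nat_lit 53) (nat_lit 0xbc0001780003010f1) b28251 (.hit (nat_lit 31) (nat_lit 56) (nat_lit 0xbc0001780002fe915) b28254 (.tok (nat_lit 67) (nat_lit 0xbc0001780003031b5) (.hit (nat_lit 29) (nat_lit 54) (nat_lit 0xbc0001780003016af) b28252 (.hit (nat_lit 32) (nat_lit 57) (nat_lit 0xbc000178000300605) b28255 (.one (nat_lit 9) (nat_lit 30) (nat_lit 55) (nat_lit 0xbc0001780003031b5) b28253 (.nil)))) (.nil)))) (.nil)))) (.one (nat_lit 70) (nat_lit 35) (nat_lit 60) (nat_lit 0xbc0001780002fe729) b28258 (.nil))))))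 (.nil))
noncomputable def r28_48 : Rw Blk := .tok (nat_lit 3) (nat_lit 0xbc00017f88cafe5b2) (.hit (nat_lit 0) (nat_lit 0) (nat_lit 0xbc00017f36d2fd54b) b28259 (.tok (nat_lit 9) (nat_lit 0xbc00017f1de2fddac) (.hit (nat_lit 1) (nat_lit 20) (nat_lit 0xbc00017e504afc3f9) b28260 (.hit (nat_lit 6) (nat_lit 28) (nat_lit 0xbc00017e2cf2fbf8e) b28265 (.tok (nat_lit 14) (nat_lit 0xbc00017ec98afd321) (.hit (nat_lit 2) (nat_lit 24) (nat_lit 0xbc00017ec3e2fd26c) b28261 (.hit (nat_lit 7) (nat_lit 30) (nat_lit 0xbc00017e804afc9f9) b28266 (.one (nat_lit 6) (nat_lit 3) (nat_lit 25) (nat_lit 0xbc00017ec98afd321) b28262 (.nil)))) (.tok (nat_lit 68) (nat_lit 0xbc00017f1de2fddac) (.hit (nat_lit 4) (nat_lit 26) (nat_lit 0xbc00017eec4afd779) b28263 (.hit (nat_lit 8) (nat_lit 32) (nat_lit 0xbc00017e6232fc636) b28267 (.one (nat_lit 9) (nat_lit 5) (nat_lit 27) (nat_lit 0xbc00017f1de2fddac) b28264 (.nil))))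 (.nil))))) (.tok (nat_lit 64) (nat_lit 0xbc00017ee702fd6d0) (.hit (nat_lit 9) (nat_lit 50) (nat_lit 0xbc00017ee702fd6d0) b28268 (.hit (nat_lit 10) (nat_lit 51) (nat_lit 0xbc00017ee4fafd68f) b28269 (.nil))) (.tok (nat_lit 67) (nat_lit 0xbc00017f88cafe5b2) (.hit (nat_lit 11) (nat_lit 52) (nat_lit 0xbc00017f88cafe277) b28270 (.tok (nat_lit 3) (nat_lit 0xbc00017f5e12fe5b2) (.hit (nat_lit 17) (nat_lit 58) (nat_lit 0xbc00017f2352fde5a) b28276 (.one (nat_lit 55) (nat_lit 18) (nat_lit 59) (nat_lit 0xbc00017f5e12fe5b2) b28277 (.nil))) (.tok (nat_lit 9) (nat_lit 0xbc00017f14e2fdc8c) (.hit (nat_lit 12) (nat_lit 53) (nat_lit 0xbc00017ec54afd299) b28271 (.hit (nat_lit 15) (nat_lit 56) (nat_lit 0xbc00017ed9cafd529) b28274 (.tok (nat_lit 67) (nat_lit 0xbc00017f14e2fdc8c) (.hit (nat_lit 13) (nat_lit 54) (nat_lit 0xbc00017f14e2fdc8c) b28272 (.hit (nat_lit 16) (nat_lit 57) (nat_lit 0xbc00017f0fb2fdbe6)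 b28275 (.one (nat_lit 9) (nat_lit 14) (nat_lit 55) (nat_lit 0xbc00017f02cafda49) b28273 (.nil)))) (.nil)))) (.nil)))) (.one (nat_lit 70) (nat_lit 19) (nat_lit 60) (nat_lit 0xbc00017e993afcd17) b28278 (.nil)))))) (.tok (nat_lit 6) (nat_lit 0xbc000181a5db02cde) (.hit (nat_lit 20) (nat_lit 0) (nat_lit 0xbc00017f589afe2ac) b28279 (.tok (nat_lit 6) (nat_lit 0xbc000181a5db02cde) (.hit (nat_lit 21) (nat_lit 7) (nat_lit 0xbc00017f4e4afeb53) b28280 (.hit (nat_lit 26) (nat_lit 15) (nat_lit 0xbc00017e4f22fc39c) b28285 (.tok (nat_lit 14) (nat_lit 0xbc000181a5db02cde) (.hit (nat_lit 22) (nat_lit 11) (nat_lit 0xbc000181a5db02cde) b28281 (.hit (nat_lit 27) (nat_lit 17) (nat_lit 0xbc00017f6a62fe7b5) b28286 (.one (nat_lit 9) (nat_lit 23) (nat_lit 12) (nat_lit 0xbc000180bd23010ed) b28282 (.nil)))) (.tok (nat_lit 56) (nat_lit 0xbc0001803ceb00a58) (.hit (nat_lit 24) (nat_lit 13) (nat_lit 0xbc0001803ceb00390)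 b28283 (.hit (nat_lit 29) (nat_lit 19) (nat_lit 0xbc00017ed81afd799) b28288 (.one (nat_lit 6) (nat_lit 25) (nat_lit 14) (nat_lit 0xbc00017f878b00a58) b28284 (.nil)))) (.one (nat_lit 68) (nat_lit 28) (nat_lit 18) (nat_lit 0xbc00017efad2fe1d1) b28287 (.nil)))))) (.nil))) (.nil))
noncomputable def r28_49 : Rw Blk := .tok (nat_lit 3) (nat_lit 0xbc0001780002feef0) (.hit (nat_lit 0) (nat_lit 0) (nat_lit 0xbc0001780002fe411) b8609 (.tok (nat_lit 9) (nat_lit 0xbc0001780002fe483) (.hit (nat_lit 1) (nat_lit 20) (nat_lit 0xbc0001780002fca57) b8610 (.hit (nat_lit 6) (nat_lit 28) (nat_lit 0xbc0001780002fc62b) b8615 (.tok (nat_lit 14) (nat_lit 0xbc0001780002fdbf0) (.hit (nat_lit 2) (nat_lit 24) (nat_lit 0xbc0001780002fdbf0) b8611 (.hit (nat_lit 7) (nat_lit 30) (nat_lit 0xbc0001780002fd200) b8616 (.one (nat_lit 6) (nat_lit 3) (nat_lit 25) (nat_lit 0xbc0001780002fdaaa) b8612 (.nil)))) (.tok (nat_lit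 68) (nat_lit 0xbc0001780002fe483) (.hit (nat_lit 4) (nat_lit 26) (nat_lit 0xbc0001780002fdf68) b8613 (.hit (nat_lit 8) (nat_lit 32) (nat_lit 0xbc0001780002fd0d0) b8617 (.one (nat_lit 9) (nat_lit 5) (nat_lit 27) (nat_lit 0xbc0001780002fe483) b8614 (.nil)))) (.nil))))) (.tok (nat_lit 64) (nat_lit 0xbc0001780002fe10e) (.hit (nat_lit 9) (nat_lit 50) (nat_lit 0xbc0001780002fe10e) b8618 (.hit (nat_lit 10) (nat_lit 51) (nat_lit 0xbc0001780002fdd46) b8619 (.nil))) (.tok (nat_lit 67) (nat_lit 0xbc0001780002feef0) (.hit (nat_lit 11) (nat_lit 52) (nat_lit 0xbc0001780002feef0) b8620 (.tok (nat_lit 3) (nat_lit 0xbc0001780002fe593) (.hit (nat_lit 17) (nat_lit 58) (nat_lit 0xbc0001780002fe593) b8626 (.one (nat_lit 55) (nat_lit 18) (nat_lit 59) (nat_lit 0xbc0001780002fe0ee) b8627 (.nil))) (.tok (nat_lit 9) (nat_lit 0xbc0001780002fec81) (.hit (nat_lit 12) (nat_lit 53) (nat_lit 0xbc0001780002fe97b)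 b8621 (.hit (nat_lit 15) (nat_lit 56) (nat_lit 0xbc0001780002fd8a5) b8624 (.tok (nat_lit 67) (nat_lit 0xbc0001780002fec81) (.hit (nat_lit 13) (nat_lit 54) (nat_lit 0xbc0001780002feab4) b8622 (.hit (nat_lit 16) (nat_lit 57) (nat_lit 0xbc0001780002fdea6) b8625 (.one (nat_lit 9) (nat_lit 14) (nat_lit 55) (nat_lit 0xbc0001780002fec81) b8623 (.nil)))) (.nil)))) (.nil)))) (.one (nat_lit 70) (nat_lit 19) (nat_lit 60) (nat_lit 0xbc0001780002fdbf7) b8628 (.nil)))))) (.tok (nat_lit 6) (nat_lit 0xbc000178000300000) (.hit (nat_lit 20) (nat_lit 0) (nat_lit 0xbc0001780002fe5ca) b8629 (.tok (nat_lit 6) (nat_lit 0xbc000178000300000) (.hit (nat_lit 21) (nat_lit 7) (nat_lit 0xbc0001780002fe116) b8630 (.hit (nat_lit 26) (nat_lit 15) (nat_lit 0xbc0001780002fd333) b8635 (.tok (nat_lit 14) (nat_lit 0xbc000178000300000) (.hit (nat_lit 22) (nat_lit 11) (nat_lit 0xbc000178000300000) b8631 (.hit (nat_lit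 27) (nat_lit 17) (nat_lit 0xbc0001780002fef00) b8636 (.one (nat_lit 9) (nat_lit 23) (nat_lit 12) (nat_lit 0xbc0001780002ffdb3) b8632 (.nil)))) (.tok (nat_lit 56) (nat_lit 0xbc0001780002fee80) (.hit (nat_lit 24) (nat_lit 13) (nat_lit 0xbc0001780002fee80) b8633 (.hit (nat_lit 29) (nat_lit 19) (nat_lit 0xbc0001780002fe24a) b8638 (.one (nat_lit 6) (nat_lit 25) (nat_lit 14) (nat_lit 0xbc0001780002fe9d7) b8634 (.nil)))) (.one (nat_lit 68) (nat_lit 28) (nat_lit 18) (nat_lit 0xbc0001780002feafd) b8637 (.nil)))))) (.nil))) (.nil))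
noncomputable def r28_50 : Rw Blk := .tok (nat_lit 6) (nat_lit 0xbc000178000300000) (.hit (nat_lit 0) (nat_lit 0) (nat_lit 0xbc0001780002ff173) b8639 (.tok (nat_lit 3) (nat_lit 0xbc0001780002fefbb) (.hit (nat_lit 1) (nat_lit 1) (nat_lit 0xbc0001780002fd927) b8640 (.one (nat_lit 14) (nat_lit 2) (nat_lit 4) (nat_lit 0xbc0001780002fefbb) b8641 (.one (nat_lit 56) (nat_lit 4) (nat_lit 6) (nat_lit 0xbc0001780002fed92) b8643 (.one (nat_lit 68) (nat_lit 3) (nat_lit 5) (nat_lit 0xbc0001780002fed23) b8642 (.nil))))) (.tok (nat_lit 40) (nat_lit 0xbc0001780002fdfbe) (.hit (nat_lit 5) (nat_lit 33) (nat_lit 0xbc0001780002fdef8) b8644 (.hit (nat_lit 6) (nat_lit 34) (nat_lit 0xbc0001780002fdfbe) b8645 (.nil))) (.tok (nat_lit 43) (nat_lit 0xbc0001780002fef53) (.hit (nat_lit 7) (nat_lit 35) (nat_lit 0xbc0001780002fef53) b8646 (.hit (nat_lit 8) (nat_lit 36) (nat_lit 0xbc0001780002fe515) b8647 (.nil)))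 (.tok (nat_lit 46) (nat_lit 0xbc000178000300000) (.hit (nat_lit 9) (nat_lit 37) (nat_lit 0xbc0001780002fd94d) b8648 (.hit (nat_lit 10) (nat_lit 38) (nat_lit 0xbc000178000300000) b8649 (.nil))) (.nil)))))) (.tok (nat_lit 9) (nat_lit 0xbc0001780002ff6d9) (.hit (nat_lit 11) (nat_lit 0) (nat_lit 0xbc0001780002fdf6e) b8650 (.tok (nat_lit 3) (nat_lit 0xbc0001780002ff6d9) (.hit (nat_lit 12) (nat_lit 1) (nat_lit 0xbc0001780002fd50d) b8651 (.one (nat_lit 14) (nat_lit 13) (nat_lit 4) (nat_lit 0xbc0001780002ff6d9) b8652 (.one (nat_lit 56) (nat_lit 15) (nat_lit 6) (nat_lit 0xbc0001780002fe778) b8654 (.one (nat_lit 68) (nat_lit 14) (nat_lit 5) (nat_lit 0xbc0001780002fe963) b8653 (.nil))))) (.nil))) (.nil))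
noncomputable def r28_51 : Rw Blk := .tok (nat_lit 3) (nat_lit 0x5e0000bc00017f1ebafdcbf) (.hit (nat_lit 14) (nat_lit 0) (nat_lit 0x5e0000bc00017f1ebafdcbf) b28303 (.tok (nat_lit 6) (nat_lit 0x5e0000bc00017dfd2afb9cd) (.hit (nat_lit 15) (nat_lit 7) (nat_lit 0x5e0000bc00017dfd2afb9cd) b28306 (.hit (nat_lit 16) (nat_lit 15) (nat_lit 0x5e0000bc00017d9b32fad8e) b28307 (.nil))) (.tok (nat_lit 9) (nat_lit 0x5e0000bc00017eeb12fd78a) (.hit (nat_lit 17) (nat_lit 20) (nat_lit 0x5e0000bc00017eeb12fd78a) b28304 (.hit (nat_lit 18) (nat_lit 28) (nat_lit 0x5e0000bc00017eea9afd77b) b28305 (.nil))) (.nil)))) (.tok (nat_lit 6) (nat_lit 0x5e0000bc000180000300000) (.hit (nat_lit 0) (nat_lit 0) (nat_lit 0x5e0000bc00017f9722ff201) b28289 (.tok (nat_lit 3) (nat_lit 0x5e0000bc0001800002ff011) (.hit (nat_lit 1) (nat_lit 1) (nat_lit 0x5e0000bc00017f3212fd6e5) b28290 (.one (nat_lit 67) (nat_lit 2) (nat_lit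 2) (nat_lit 0x5e0000bc0001800002ff011) b28291 (.nil))) (.tok (nat_lit 6) (nat_lit 0x5e0000bc00017ffb4300000) (.hit (nat_lit 3) (nat_lit 7) (nat_lit 0x5e0000bc00017fafaafe776) b28292 (.hit (nat_lit 7) (nat_lit 15) (nat_lit 0x5e0000bc00017f2d2afdb1a) b28296 (.tok (nat_lit 55) (nat_lit 0x5e0000bc00017ffb4300000) (.hit (nat_lit 4) (nat_lit 8) (nat_lit 0x5e0000bc00017ff9aaffcae) b28293 (.hit (nat_lit 8) (nat_lit 16) (nat_lit 0x5e0000bc00017fcbc2ff0d1) b28297 (.tok (nat_lit 6) (nat_lit 0x5e0000bc00017ffb4300000) (.hit (nat_lit 5) (nat_lit 9) (nat_lit 0x5e0000bc00017fb9a2fef1a) b28294 (.one (nat_lit 55) (nat_lit 6) (nat_lit 10) (nat_lit 0x5e0000bc00017ffb4300000) b28295 (.nil))) (.nil)))) (.nil)))) (.nil)))) (.tok (nat_lit 9) (nat_lit 0x5e0000bc00017fb9eaff128) (.hit (nat_lit 9) (nat_lit 0) (nat_lit 0x5e0000bc00017f4952fe258) b28298 (.tok (nat_lit 3) (nat_lit 0x5e0000bc00017fb9eaff128)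 (.hit (nat_lit 10) (nat_lit 1) (nat_lit 0x5e0000bc00017ef8f2fd969) b28299 (.one (nat_lit 55) (nat_lit 11) (nat_lit 3) (nat_lit 0x5e0000bc00017fb9eaff128) b28300 (.nil))) (.tok (nat_lit 9) (nat_lit 0x5e0000bc00017f79dafe954) (.hit (nat_lit 12) (nat_lit 20) (nat_lit 0x5e0000bc00017f79dafe954) b28301 (.hit (nat_lit 13) (nat_lit 28) (nat_lit 0x5e0000bc00017f18aafdcb9) b28302 (.nil))) (.nil)))) (.nil)))
noncomputable def r28_52 : Rw Blk := .tok (nat_lit 3) (nat_lit 0x5e0000bc00017ea952fd613) (.hit (nat_lit 0) (nat_lit 0) (nat_lit 0x5e0000bc00017ea952fd613) b27928 (.tok (nat_lit 6) (nat_lit 0x5e0000bc00017e82fafd25f) (.hit (nat_lit 1) (nat_lit 7) (nat_lit 0x5e0000bc00017e8222fd244) b27931 (.hit (nat_lit 2) (nat_lit 15) (nat_lit 0x5e0000bc00017e82fafd25f) b27932 (.nil))) (.tok (nat_lit 9) (nat_lit 0x5e0000bc00017e725afd04b) (.hit (nat_lit 3) (nat_lit 20) (nat_lit 0x5e0000bc00017e725afd04b)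 b27929 (.hit (nat_lit 4) (nat_lit 28) (nat_lit 0x5e0000bc00017e6142fce28) b27930 (.nil))) (.nil)))) (.tok (nat_lit 6) (nat_lit 0x5e0000bc00017fadc2ff618) (.hit (nat_lit 13) (nat_lit 0) (nat_lit 0x5e0000bc00017f7bdafe555) b27941 (.tok (nat_lit 3) (nat_lit 0x5e0000bc00017f604afef92) (.hit (nat_lit 14) (nat_lit 1) (nat_lit 0x5e0000bc00017efc1afde80) b27942 (.one (nat_lit 67) (nat_lit 15) (nat_lit 2) (nat_lit 0x5e0000bc00017f604afef92) b27943 (.nil))) (.tok (nat_lit 6) (nat_lit 0x5e0000bc00017fadc2ff618) (.hit (nat_lit 16) (nat_lit 7) (nat_lit 0x5e0000bc00017f0a0afe1c6) b27944 (.hit (nat_lit 19) (nat_lit 15) (nat_lit 0x5e0000bc00017ee972fdbd5) b27947 (.tok (nat_lit 55) (nat_lit 0x5e0000bc00017fadc2ff618) (.hit (nat_lit 17) (nat_lit 8) (nat_lit 0x5e0000bc00017f90f2ff2a9) b27945 (.hit (nat_lit 20) (nat_lit 16) (nat_lit 0x5e0000bc00017fadc2ff618) b27948 (.one (nat_lit 6) (nat_lit 18)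 (nat_lit 9) (nat_lit 0x5e0000bc00017f7fcafef3b) b27946 (.nil)))) (.nil)))) (.nil)))) (.tok (nat_lit 9) (nat_lit 0x5e0000bc0001800003004c2) (.hit (nat_lit 5) (nat_lit 0) (nat_lit 0x5e0000bc00017f32bafeeb9) b27933 (.tok (nat_lit 3) (nat_lit 0x5e0000bc00017f712affb54) (.hit (nat_lit 6) (nat_lit 1) (nat_lit 0x5e0000bc00017e8002fdd31) b27934 (.one (nat_lit 55) (nat_lit 7) (nat_lit 3) (nat_lit 0x5e0000bc00017f712affb54) b27935 (.nil))) (.tok (nat_lit 9) (nat_lit 0x5e0000bc0001800003004c2) (.hit (nat_lit 8) (nat_lit 20) (nat_lit 0x5e0000bc00017f446afef95) b27936 (.hit (nat_lit 11) (nat_lit 28) (nat_lit 0x5e0000bc00017e8a0afddcf) b27939 (.tok (nat_lit 67) (nat_lit 0x5e0000bc0001800003004c2) (.hit (nat_lit 9) (nat_lit 21) (nat_lit 0x5e0000bc0001800003004c2) b27937 (.hit (nat_lit 12) (nat_lit 29) (nat_lit 0x5e0000bc00017f6af2ffa89) b27940 (.one (nat_lit 9) (nat_lit 10) (nat_lit 22) (nat_lit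 0x5e0000bc00017f4e82ff154) b27938 (.nil)))) (.nil)))) (.nil)))) (.nil)))
noncomputable def r28_53 : Rw Blk := .tok (nat_lit 3) (nat_lit 0x5e0000bc00017e3e7afd09d) (.hit (nat_lit 0) (nat_lit 0) (nat_lit 0x5e0000bc00017e3e7afd09d) b27949 (.tok (nat_lit 6) (nat_lit 0x5e0000bc00017db202fc8b9) (.hit (nat_lit 1) (nat_lit 7) (nat_lit 0x5e0000bc00017da8fafc798) b27952 (.hit (nat_lit 2) (nat_lit 15) (nat_lit 0x5e0000bc00017db202fc8b9) b27953 (.nil))) (.tok (nat_lit 9) (nat_lit 0x5e0000bc00017db3e2fc8f5) (.hit (nat_lit 3) (nat_lit 20) (nat_lit 0x5e0000bc00017db122fc89d) b27950 (.hit (nat_lit 4) (nat_lit 28) (nat_lit 0x5e0000bc00017db3e2fc8f5) b27951 (.nil))) (.nil)))) (.tok (nat_lit 6) (nat_lit 0x5e0000bc00017ef692fe92f) (.hit (nat_lit 5) (nat_lit 0) (nat_lit 0x5e0000bc00017ef692fe707) b27954 (.one (nat_lit 3) (nat_lit 6) (nat_lit 1) (nat_lit 0x5e0000bc00017d20b2fb68f) b27955 (.tok (nat_lit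 6) (nat_lit 0x5e0000bc00017eb5b2fe92f) (.hit (nat_lit 7) (nat_lit 7) (nat_lit 0x5e0000bc00017dbb3afc9e0) b27956 (.hit (nat_lit 11) (nat_lit 15) (nat_lit 0x5e0000bc00017d61b2fbeaf) b27960 (.tok (nat_lit 55) (nat_lit 0x5e0000bc00017eb5b2fe92f) (.hit (nat_lit 8) (nat_lit 8) (nat_lit 0x5e0000bc00017e475afdb64) b27957 (.hit (nat_lit 12) (nat_lit 16) (nat_lit 0x5e0000bc00017e3682fd949) b27961 (.tok (nat_lit 6) (nat_lit 0x5e0000bc00017eb5b2fe92f) (.hit (nat_lit 9) (nat_lit 9) (nat_lit 0x5e0000bc00017e3d32fda1f) b27958 (.one (nat_lit 55) (nat_lit 10) (nat_lit 10) (nat_lit 0x5e0000bc00017eb5b2fe92f) b27959 (.nil))) (.nil)))) (.nil)))) (.nil)))) (.tok (nat_lit 9) (nat_lit 0x5e0000bc00018028b301a26) (.hit (nat_lit 13) (nat_lit 0) (nat_lit 0x5e0000bc00017e9daafeb1e) b27962 (.one (nat_lit 3) (nat_lit 14) (nat_lit 1) (nat_lit 0x5e0000bc00017da35afd4b6) b27963 (.tok (nat_lit 9) (nat_lit 0x5e0000bc00018028b301a26)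 (.hit (nat_lit 15) (nat_lit 20) (nat_lit 0x5e0000bc00017ec192fec5f) b27964 (.hit (nat_lit 19) (nat_lit 28) (nat_lit 0x5e0000bc00017df182fe0c7) b27968 (.tok (nat_lit 67) (nat_lit 0x5e0000bc00018028b301a26) (.hit (nat_lit 16) (nat_lit 21) (nat_lit 0x5e0000bc00018028b301a26) b27965 (.hit (nat_lit 20) (nat_lit 29) (nat_lit 0x5e0000bc00017ec67aff455) b27969 (.tok (nat_lit 9) (nat_lit 0x5e0000bc00017faf93015ce) (.hit (nat_lit 17) (nat_lit 22) (nat_lit 0x5e0000bc00017f2dbb0052e) b27966 (.one (nat_lit 67) (nat_lit 18) (nat_lit 23) (nat_lit 0x5e0000bc00017faf93015ce) b27967 (.nil))) (.nil)))) (.nil)))) (.nil)))) (.nil)))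
noncomputable def r28_54 : Rw Blk := .tok (nat_lit 3) (nat_lit 0x5e0000bc00017ecc0afd49e) (.hit (nat_lit 0) (nat_lit 0) (nat_lit 0x5e0000bc00017ecc0afd49e) b27970 (.tok (nat_lit 6) (nat_lit 0x5e0000bc00017e784afcdf8) (.hit (nat_lit 1) (nat_lit 7) (nat_lit 0x5e0000bc00017e639afcb62) b27973 (.hit (nat_lit 2) (nat_lit 15) (nat_lit 0x5e0000bc00017e784afcdf8) b27974 (.nil))) (.tok (nat_lit 9) (nat_lit 0x5e0000bc00017e7292fcd41) (.hit (nat_lit 3) (nat_lit 20) (nat_lit 0x5e0000bc00017e6eb2fccc5) b27971 (.hit (nat_lit 4) (nat_lit 28) (nat_lit 0x5e0000bc00017e7292fcd41) b27972 (.nil))) (.nil)))) (.tok (nat_lit 6) (nat_lit 0x5e0000bc000180000300000) (.hit (nat_lit 5) (nat_lit 0) (nat_lit 0x5e0000bc00017f5daafed30) b27975 (.one (nat_lit 3) (nat_lit 6) (nat_lit 1) (nat_lit 0x5e0000bc00017e4a22fceb2) b27976 (.tok (nat_lit 6) (nat_lit 0x5e0000bc000180000300000) (.hit (nat_lit 7) (nat_lit 7)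 (nat_lit 0x5e0000bc00017f0372fe15b) b27977 (.hit (nat_lit 11) (nat_lit 15) (nat_lit 0x5e0000bc00017e8b82fd81c) b27981 (.tok (nat_lit 55) (nat_lit 0x5e0000bc000180000300000) (.hit (nat_lit 8) (nat_lit 8) (nat_lit 0x5e0000bc0001800002ffc6b) b27978 (.hit (nat_lit 12) (nat_lit 16) (nat_lit 0x5e0000bc00017f91b2ffebd) b27982 (.tok (nat_lit 6) (nat_lit 0x5e0000bc00017fb93b00000) (.hit (nat_lit 9) (nat_lit 9) (nat_lit 0x5e0000bc00017f9b92ff709) b27979 (.one (nat_lit 55) (nat_lit 10) (nat_lit 10) (nat_lit 0x5e0000bc00017fb93b00000) b27980 (.nil))) (.nil)))) (.nil)))) (.nil)))) (.tok (nat_lit 9) (nat_lit 0x5e0000bc00017fa822ff5d2) (.hit (nat_lit 13) (nat_lit 0) (nat_lit 0x5e0000bc00017f03bafe0d1) b27983 (.one (nat_lit 3) (nat_lit 14) (nat_lit 1) (nat_lit 0x5e0000bc00017e430afc727) b27984 (.tok (nat_lit 9) (nat_lit 0x5e0000bc00017fa822ff5d2) (.hit (nat_lit 15) (nat_lit 20) (nat_lit 0x5e0000bc00017ee752fdc28)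 b27985 (.hit (nat_lit 19) (nat_lit 28) (nat_lit 0x5e0000bc00017ecb4afd83f) b27989 (.tok (nat_lit 67) (nat_lit 0x5e0000bc00017fa822ff5d2) (.hit (nat_lit 16) (nat_lit 21) (nat_lit 0x5e0000bc00017f7112fedad) b27986 (.hit (nat_lit 20) (nat_lit 29) (nat_lit 0x5e0000bc00017f65bafea92) b27990 (.tok (nat_lit 9) (nat_lit 0x5e0000bc00017fa822ff5d2) (.hit (nat_lit 17) (nat_lit 22) (nat_lit 0x5e0000bc00017f3b42fe80f) b27987 (.one (nat_lit 67) (nat_lit 18) (nat_lit 23) (nat_lit 0x5e0000bc00017fa822ff5d2) b27988 (.nil))) (.nil)))) (.nil)))) (.nil)))) (.nil)))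
noncomputable def r28_55 : Rw Blk := .tok (nat_lit 3) (nat_lit 0xbf3be17ee1c2fecba5f91c0bf9c1d7e7312fc9c25fc868bf79fd7f1d92fe0f6) (.hit (nat_lit 14) (nat_lit 0) (nat_lit 0xbf3be17ed1d2fe1e75f91c0bf87257e40eafc9c25fc7e8bf76f57efcaafdbc7) b28005 (.tok (nat_lit 6) (nat_lit 0xbed0ed7e4f1afcead5f56b4bf60897da2f2fab1c5f8166bef4117e865afd2dc) (.hit (nat_lit 15) (nat_lit 7) (nat_lit 0xbed0ed7e4f1afcead5f56b4bf60897da2f2fab1c5f774abecad57e865afd2dc) b28008 (.hit (nat_lit 16) (nat_lit 15) (nat_lit 0xbe82297df6d2fc4445f2f52bf2a417d056af976b5f8166bef4117e450afcab2) b28009 (.nil))) (.tok (nat_lit 9) (nat_lit 0xbf38fd7ee1c2fecba5f8abcbf9c1d7e7312fc5205fc868bf79fd7f1d92fe0f6) (.hit (nat_lit 17) (nat_lit 20) (nat_lit 0xbf38fd7ee1c2fecba5f8abcbf9c1d7e7312fc5205fc868bf79fd7f1d92fe030) b28006 (.hit (nat_lit 18) (nat_lit 28) (nat_lit 0xbf20b17ea1aafd9785f7e96bf84dd7e427afbf0d5fb246bf57d17ef72afe0f6)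 b28007 (.nil))) (.nil)))) (.tok (nat_lit 6) (nat_lit 0xbfa099800003000005fb514c0306d7f4992fe7975ffcc8bfd5d1807da3007ac) (.hit (nat_lit 0) (nat_lit 0) (nat_lit 0xbfa0997f2ab2fec285fb514bfdd617f4992fe7975fe5dcbfb84d7f823afec8b) b27991 (.tok (nat_lit 3) (nat_lit 0xbf460d7fcc62ff2e15f9144bfe1d97e8d32fc8645fefe0bfbc017f9eeafec9f) (.hit (nat_lit 1) (nat_lit 1) (nat_lit 0xbef9197ec0bafd9ce5f6acabf97557df34afb5275fa9f0bf30217e9e62fcd87) b27992 (.one (nat_lit 67) (nat_lit 2) (nat_lit 2) (nat_lit 0xbf460d7fcc62ff2e15f9144bfe1d97e8d32fc8645fefe0bfbc017f9eeafec9f) b27993 (.nil))) (.tok (nat_lit 6) (nat_lit 0xbf7cad800003000005fac94c0306d7efa72fd60c5ffcc8bfd5d1807da3007ac) (.hit (nat_lit 3) (nat_lit 7) (nat_lit 0xbf2db57f10cafe0ce5f8518bf997d7e5c82fc24e5fc0fabf5e357f592afe18f) b27994 (.hit (nat_lit 7) (nat_lit 15) (nat_lit 0xbf0a2d7f0d72fd5b25f7354bf7ea57e1572fb96c5fc024bf5c897e956afccd2)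 b27998 (.tok (nat_lit 55) (nat_lit 0xbf7cad800003000005fac94c0306d7efa72fd60c5ffcc8bfd5d1807da3007ac) (.hit (nat_lit 4) (nat_lit 8) (nat_lit 0xbf63a97f9c9aff5995fa012bfff917ec86afcfcb5fcceebf761d7fe522ff5e2) b27995 (.hit (nat_lit 8) (nat_lit 16) (nat_lit 0xbf5169800003000005f96f2bff7997ea3eafcb3b5ffcc8bfd5d17fafaaff143) b27999 (.tok (nat_lit 6) (nat_lit 0xbf7cad7fa8eaffe1f5fac94c0306d7efa72fd60c5fe702bfaa45807da3007ac) (.hit (nat_lit 5) (nat_lit 9) (nat_lit 0xbf57b17f5332fe9e25f9a16bfd8dd7eb07afcccd5fd194bf7f697fda2aff229) b27996 (.one (nat_lit 55) (nat_lit 6) (nat_lit 10) (nat_lit 0xbf7cad7fa8eaffe1f5fac94c0306d7efa72fd60c5fe702bfaa45807da3007ac) b27997 (.nil))) (.nil)))) (.nil)))) (.nil)))) (.tok (nat_lit 9) (nat_lit 0xc000017fdff2ff20b600000bfe141801653000006007bec000017fa782ffcf7) (.hit (nat_lit 9) (nat_lit 0) (nat_lit 0xbf78117ee392fe9c75fb68ebfb0297f0902feba15fdf32bfbe117f409afec20)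 b28000 (.tok (nat_lit 3) (nat_lit 0xc000017fdff2ff20b600000bfe141801653000006007bec000017fa782ffcf7) (.hit (nat_lit 10) (nat_lit 1) (nat_lit 0xbf81617f5c42fded55fafdcbfab2d7ecbeaff0435fe82ebfd0217f07f2ff0a5) b28001 (.one (nat_lit 55) (nat_lit 11) (nat_lit 3) (nat_lit 0xc000017fdff2ff20b600000bfe141801653000006007bec000017fa782ffcf7) b28002 (.nil))) (.tok (nat_lit 9) (nat_lit 0xbfbfbd7f1402fec155fd036bfd5317edbdaff1815fead6bfd5597f6492ff1f2) (.hit (nat_lit 12) (nat_lit 20) (nat_lit 0xbfbfbd7f1402fec155fd036bfd5317edbdaff1815fead6bfd5597f6492ff1f2) b28003 (.hit (nat_lit 13) (nat_lit 28) (nat_lit 0xbf5df17ef90afd8f05fa4aabf98097e7312fdad65fbd9cbf7ae57e376afdb55) b28004 (.nil))) (.nil)))) (.nil)))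
noncomputable def r28_56 : Rw Blk := .tok (nat_lit 3) (nat_lit 0x2f00005e0000bf9d997f72eafe9f7) (.hit (nat_lit 0) (nat_lit 0) (nat_lit 0x2f00005e0000bf4f557edc3afd6d5) b28010 (.tok (nat_lit 9) (nat_lit 0x2f00005e0000bf157d7e610afca8c) (.hit (nat_lit 1) (nat_lit 20) (nat_lit 0x2f00005e0000becee97dd3e2fb8e7) b28011 (.hit (nat_lit 4) (nat_lit 28) (nat_lit 0x2f00005e0000beb2517d9ab2fb1c1) b28014 (.tok (nat_lit 14) (nat_lit 0x2f00005e0000bf157d7e610afca8c) (.hit (nat_lit 2) (nat_lit 24) (nat_lit 0x2f00005e0000bf0b497e4ca2fc7ff) b28012 (.hit (nat_lit 5) (nat_lit 30) (nat_lit 0x2f00005e0000beea3d7e0a8afbfbc) b28015 (.one (nat_lit 6) (nat_lit 3) (nat_lit 25) (nat_lit 0x2f00005e0000bf157d7e610afca8c) b28013 (.nil)))) (.one (nat_lit 56) (nat_lit 6) (nat_lit 31) (nat_lit 0x2f00005e0000bf08b97e4782fc75b) b28016 (.nil))))) (.tok (nat_lit 64) (nat_lit 0x2f00005e0000bf45157ec03afd672) (.hit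 (nat_lit 7) (nat_lit 50) (nat_lit 0x2f00005e0000bf45157ec03afd672) b28017 (.hit (nat_lit 8) (nat_lit 51) (nat_lit 0x2f00005e0000bf35d17ea1b2fd2a1) b28018 (.nil))) (.tok (nat_lit 67) (nat_lit 0x2f00005e0000bf9d997f72eafe9f7) (.hit (nat_lit 9) (nat_lit 52) (nat_lit 0x2f00005e0000bf9d997f72eafe9f7) b28019 (.tok (nat_lit 3) (nat_lit 0x2f00005e0000bf4ae97ecbe2fd7e7) (.hit (nat_lit 12) (nat_lit 58) (nat_lit 0x2f00005e0000bf40797eb702fd54b) b28022 (.one (nat_lit 55) (nat_lit 13) (nat_lit 59) (nat_lit 0x2f00005e0000bf4ae97ecbe2fd7e7) b28023 (.nil))) (.tok (nat_lit 9) (nat_lit 0x2f00005e0000bf72bd7f0bcafe274) (.hit (nat_lit 10) (nat_lit 53) (nat_lit 0x2f00005e0000bf72bd7f0bcafe274) b28020 (.hit (nat_lit 11) (nat_lit 56) (nat_lit 0x2f00005e0000bf33b17e9d72fd219) b28021 (.nil))) (.nil)))) (.one (nat_lit 70) (nat_lit 14) (nat_lit 60) (nat_lit 0x2f00005e0000bf26b97e8382fcedb) b28024 (.nil))))))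 (.tok (nat_lit 6) (nat_lit 0x2f00005e0000c079c1817ea3031ac) (.hit (nat_lit 15) (nat_lit 0) (nat_lit 0x2f00005e0000bf5a997f1b6afdcf3) b28025 (.tok (nat_lit 6) (nat_lit 0x2f00005e0000bf65457f65dafeb93) (.hit (nat_lit 16) (nat_lit 7) (nat_lit 0x2f00005e0000bf1d6d7e33aafc9ef) b28026 (.hit (nat_lit 21) (nat_lit 15) (nat_lit 0x2f00005e0000bed4c57de3dafb82c) b28031 (.tok (nat_lit 14) (nat_lit 0x2f00005e0000bf65457f65dafeb93) (.hit (nat_lit 17) (nat_lit 11) (nat_lit 0x2f00005e0000bf46757eeb02fe001) b28027 (.hit (nat_lit 22) (nat_lit 17) (nat_lit 0x2f00005e0000bf4ed17ee9e2fd752) b28032 (.one (nat_lit 9) (nat_lit 18) (nat_lit 12) (nat_lit 0x2f00005e0000bf65457f65dafeb93) b28028 (.nil)))) (.tok (nat_lit 56) (nat_lit 0x2f00005e0000bf57817f2a92fdf30) (.hit (nat_lit 19) (nat_lit 13) (nat_lit 0x2f00005e0000bf57517f088afdb58) b28029 (.hit (nat_lit 24) (nat_lit 19) (nat_lit 0x2f00005e0000bf37757eb91afd132)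 b28034 (.one (nat_lit 6) (nat_lit 20) (nat_lit 14) (nat_lit 0x2f00005e0000bf57817f2a92fdf30) b28030 (.nil)))) (.one (nat_lit 68) (nat_lit 23) (nat_lit 18) (nat_lit 0x2f00005e0000bf17557e7f32fc9f0) b28033 (.nil)))))) (.tok (nat_lit 52) (nat_lit 0x2f00005e0000bf62ad7f522afe693) (.hit (nat_lit 25) (nat_lit 39) (nat_lit 0x2f00005e0000bf23b97f522afe693) b28035 (.hit (nat_lit 26) (nat_lit 40) (nat_lit 0x2f00005e0000bf62ad7f3efafe3af) b28036 (.nil))) (.tok (nat_lit 55) (nat_lit 0x2f00005e0000c079c1817ea3031ac) (.hit (nat_lit 27) (nat_lit 41) (nat_lit 0x2f00005e0000bfae957fd722ff6dc) b28037 (.tok (nat_lit 3) (nat_lit 0x2f00005e0000bfbc117f8d4afee01) (.hit (nat_lit 33) (nat_lit 47) (nat_lit 0x2f00005e0000bf8e757f52a2fe52e) b28043 (.one (nat_lit 67) (nat_lit 34) (nat_lit 48) (nat_lit 0x2f00005e0000bfbc117f8d4afee01) b28044 (.nil))) (.tok (nat_lit 6) (nat_lit 0x2f00005e0000c079c1817ea3031ac)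 (.hit (nat_lit 28) (nat_lit 42) (nat_lit 0x2f00005e0000bff6b180ab93011c5) b28038 (.hit (nat_lit 31) (nat_lit 45) (nat_lit 0x2f00005e0000bf57417f46cafe4e6) b28041 (.tok (nat_lit 55) (nat_lit 0x2f00005e0000c079c1817ea3031ac) (.hit (nat_lit 29) (nat_lit 43) (nat_lit 0x2f00005e0000c00da981097b02127) b28039 (.hit (nat_lit 32) (nat_lit 46) (nat_lit 0x2f00005e0000bfcb017fdea2ff7e1) b28042 (.one (nat_lit 6) (nat_lit 30) (nat_lit 44) (nat_lit 0x2f00005e0000c079c1817ea3031ac) b28040 (.nil)))) (.nil)))) (.nil)))) (.one (nat_lit 58) (nat_lit 35) (nat_lit 49) (nat_lit 0x2f00005e0000bf4f917f83bafe909) b28045 (.nil)))))) (.nil))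
noncomputable def r28_57 : Rw Blk := .tok (nat_lit 3) (nat_lit 0x1780002fe5a35fc1acbfcded7f8a12fec20) (.hit (nat_lit 0) (nat_lit 0) (nat_lit 0x1780002fdb645fa0debf86057efa42fda26) b28046 (.tok (nat_lit 6) (nat_lit 0x1780002fd8465fb1a0bfadd57f49e2fe41a) (.hit (nat_lit 1) (nat_lit 7) (nat_lit 0x1780002fbe935f7e3abf47097e7c4afca67) b28047 (.hit (nat_lit 6) (nat_lit 15) (nat_lit 0x1780002fba285f7564bf355d7e58f2fc5fc) b28052 (.tok (nat_lit 14) (nat_lit 0x1780002fcdbb5f9c8abf83a97ef58afd98f) (.hit (nat_lit 2) (nat_lit 11) (nat_lit 0x1780002fcd065f9b20bf80d57eefe2fd8da) b28048 (.hit (nat_lit 7) (nat_lit 17) (nat_lit 0x1780002fc4935f8a3abf5f097eac4afd067) b28053 (.one (nat_lit 9) (nat_lit 3) (nat_lit 12) (nat_lit 0x1780002fcdbb5f9c8abf83a97ef58afd98f) b28049 (.nil)))) (.tok (nat_lit 56) (nat_lit 0x1780002fd8465fb1a0bfadd57f49e2fe41a) (.hit (nat_lit 4) (nat_lit 13) (nat_lit 0x1780002fd2135fa53abf95097f184afdde7)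 b28050 (.hit (nat_lit 8) (nat_lit 19) (nat_lit 0x1780002fc0d05f82b4bf4ffd7e8e32fcca4) b28054 (.one (nat_lit 6) (nat_lit 5) (nat_lit 14) (nat_lit 0x1780002fd8465fb1a0bfadd57f49e2fe41a) b28051 (.nil)))) (.nil))))) (.tok (nat_lit 52) (nat_lit 0x1780002fd16a5fa3e8bf92657f1302fdd3e) (.hit (nat_lit 9) (nat_lit 39) (nat_lit 0x1780002fd16a5fa3e8bf92657f1302fdd3e) b28055 (.hit (nat_lit 10) (nat_lit 40) (nat_lit 0x1780002fd1295fa366bf91617f10fafdcfd) b28056 (.nil))) (.tok (nat_lit 55) (nat_lit 0x1780002fe5a35fc1acbfcded7f8a12fec20) (.hit (nat_lit 11) (nat_lit 41) (nat_lit 0x1780002fe5a35fbb36bfc1017f703afea62) b28057 (.tok (nat_lit 3) (nat_lit 0x1780002fe04c5fc1acbfcded7f8a12fec20) (.hit (nat_lit 17) (nat_lit 47) (nat_lit 0x1780002fd8f45fb2fcbfb08d7f4f52fe4c8) b28063 (.one (nat_lit 67) (nat_lit 18) (nat_lit 48) (nat_lit 0x1780002fe04c5fc1acbfcded7f8a12fec20) b28064 (.nil))) (.tok (nat_lit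 6) (nat_lit 0x1780002fd7265faf60bfa9557f40e2fe2fa) (.hit (nat_lit 12) (nat_lit 42) (nat_lit 0x1780002fcd335f9b7abf81897ef14afd907) b28058 (.hit (nat_lit 15) (nat_lit 45) (nat_lit 0x1780002fcfc35fa09abf8bc97f05cafdb97) b28061 (.tok (nat_lit 55) (nat_lit 0x1780002fd7265faf60bfa9557f40e2fe2fa) (.hit (nat_lit 13) (nat_lit 43) (nat_lit 0x1780002fd7265faf60bfa9557f40e2fe2fa) b28059 (.hit (nat_lit 16) (nat_lit 46) (nat_lit 0x1780002fd6805fae14bfa6bd7f3bb2fe254) b28062 (.one (nat_lit 6) (nat_lit 14) (nat_lit 44) (nat_lit 0x1780002fd4e35faadabfa0497f2ecafe0b7) b28060 (.nil)))) (.nil)))) (.nil)))) (.one (nat_lit 58) (nat_lit 19) (nat_lit 49) (nat_lit 0x1780002fc7b15f9076bf6b817ec53afd385) b28065 (.nil)))))) (.tok (nat_lit 9) (nat_lit 0x178000302945605004c0a2a981430302767) (.hit (nat_lit 20) (nat_lit 0) (nat_lit 0x1780002fdf9d5fbba0bfbfa57f51cafe634) b28066 (.tok (nat_lit 9) (nat_lit 0x178000302945605004c0a2a981430302767)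 (.hit (nat_lit 21) (nat_lit 20) (nat_lit 0x1780002fde535fcceebfc2b57f393afe8c2) b28067 (.hit (nat_lit 26) (nat_lit 28) (nat_lit 0x1780002fbe6e5f7d80bf5c457ebc62fd218) b28072 (.tok (nat_lit 14) (nat_lit 0x178000302945605004c0a2a981430302712) (.hit (nat_lit 22) (nat_lit 24) (nat_lit 0x178000302945605004c0a2a981430302712) b28068 (.hit (nat_lit 27) (nat_lit 30) (nat_lit 0x1780002fe1d65fc5b2bfe4717fc9caff49c) b28073 (.one (nat_lit 6) (nat_lit 23) (nat_lit 25) (nat_lit 0x178000300c2e601822c04a6980813301442) b28069 (.nil)))) (.one (nat_lit 56) (nat_lit 28) (nat_lit 31) (nat_lit 0x1780002fd3e45fb9eabfc8917f878afec7e) b28074 (.tok (nat_lit 68) (nat_lit 0x1780002ffc27600af8c0a269810e8b02767) (.hit (nat_lit 24) (nat_lit 26) (nat_lit 0x1780002ffc275ffd68c03861803b5b007e3) b28070 (.hit (nat_lit 29) (nat_lit 32) (nat_lit 0x1780002fcf8d5fa57abfa0b17f2e62fe238) b28075 (.one (nat_lit 9) (nat_lit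 25) (nat_lit 27) (nat_lit 0x1780002fe57b600af8c0a269810e8b02767) b28071 (.nil)))) (.nil)))))) (.nil))) (.nil))
noncomputable def r28_58 : Rw Blk := .tok (nat_lit 3) (nat_lit 0x5e0000bc00017f7782ff579) (.hit (nat_lit 0) (nat_lit 0) (nat_lit 0x5e0000bc00017f208afdfe1) b28076 (.tok (nat_lit 6) (nat_lit 0x5e0000bc00017f241afe3c3) (.hit (nat_lit 1) (nat_lit 7) (nat_lit 0x5e0000bc00017e52bafc997) b28077 (.hit (nat_lit 6) (nat_lit 15) (nat_lit 0x5e0000bc00017e315afc56b) b28082 (.tok (nat_lit 14) (nat_lit 0x5e0000bc00017edf82fdb30) (.hit (nat_lit 2) (nat_lit 11) (nat_lit 0x5e0000bc00017edf82fdb30) b28078 (.hit (nat_lit 7) (nat_lit 17) (nat_lit 0x5e0000bc00017e9002fd140) b28083 (.one (nat_lit 9) (nat_lit 3) (nat_lit 12) (nat_lit 0x5e0000bc00017ed552fd9ea) b28079 (.nil)))) (.tok (nat_lit 56) (nat_lit 0x5e0000bc00017f241afe3c3) (.hit (nat_lit 4) (nat_lit 13) (nat_lit 0x5e0000bc00017efb42fdea8)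 b28080 (.hit (nat_lit 8) (nat_lit 19) (nat_lit 0x5e0000bc00017e8682fd010) b28084 (.one (nat_lit 6) (nat_lit 5) (nat_lit 14) (nat_lit 0x5e0000bc00017f241afe3c3) b28081 (.nil)))) (.nil))))) (.tok (nat_lit 52) (nat_lit 0x5e0000bc00017f0872fe04e) (.hit (nat_lit 9) (nat_lit 39) (nat_lit 0x5e0000bc00017f0872fe04e) b28085 (.hit (nat_lit 10) (nat_lit 40) (nat_lit 0x5e0000bc00017eea32fdc86) b28086 (.nil))) (.tok (nat_lit 55) (nat_lit 0x5e0000bc00017f7782ff579) (.hit (nat_lit 11) (nat_lit 41) (nat_lit 0x5e0000bc00017f7782ff40b) b28087 (.tok (nat_lit 3) (nat_lit 0x5e0000bc00017f2c9afe4d3) (.hit (nat_lit 17) (nat_lit 47) (nat_lit 0x5e0000bc00017f2c9afe4d3) b28093 (.one (nat_lit 67) (nat_lit 18) (nat_lit 48) (nat_lit 0x5e0000bc00017f0772fe02e) b28094 (.nil))) (.tok (nat_lit 6) (nat_lit 0x5e0000bc00017f640aff579) (.hit (nat_lit 12) (nat_lit 42) (nat_lit 0x5e0000bc00017f4bdafe404) b28088 (.hit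 (nat_lit 15) (nat_lit 45) (nat_lit 0x5e0000bc00017ec52afd7e5) b28091 (.tok (nat_lit 55) (nat_lit 0x5e0000bc00017f640aff579) (.hit (nat_lit 13) (nat_lit 43) (nat_lit 0x5e0000bc00017f55a2ff579) b28089 (.hit (nat_lit 16) (nat_lit 46) (nat_lit 0x5e0000bc00017ef532fdde6) b28092 (.one (nat_lit 6) (nat_lit 14) (nat_lit 44) (nat_lit 0x5e0000bc00017f640afebc1) b28090 (.nil)))) (.nil)))) (.nil)))) (.one (nat_lit 58) (nat_lit 19) (nat_lit 49) (nat_lit 0x5e0000bc00017edfbafdb37) b28095 (.nil)))))) (.tok (nat_lit 9) (nat_lit 0x5e0000bc0001800003000b5) (.hit (nat_lit 20) (nat_lit 0) (nat_lit 0x5e0000bc00017f2e52fe3c4) b28096 (.tok (nat_lit 9) (nat_lit 0x5e0000bc0001800003000b5) (.hit (nat_lit 21) (nat_lit 20) (nat_lit 0x5e0000bc00017f08b2fe052) b28097 (.hit (nat_lit 26) (nat_lit 28) (nat_lit 0x5e0000bc00017e999afd26b) b28102 (.tok (nat_lit 14) (nat_lit 0x5e0000bc0001800003000b5) (.hit (nat_lit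 22) (nat_lit 24) (nat_lit 0x5e0000bc0001800002ffd4f) b28098 (.hit (nat_lit 27) (nat_lit 30) (nat_lit 0x5e0000bc00017f7802fef8b) b28103 (.one (nat_lit 6) (nat_lit 23) (nat_lit 25) (nat_lit 0x5e0000bc00017fed9b000b5) b28099 (.nil)))) (.one (nat_lit 56) (nat_lit 28) (nat_lit 31) (nat_lit 0x5e0000bc00017f57eafeac2) b28104 (.tok (nat_lit 68) (nat_lit 0x5e0000bc00017f7402ff17b) (.hit (nat_lit 24) (nat_lit 26) (nat_lit 0x5e0000bc00017f7402ff144) b28100 (.hit (nat_lit 29) (nat_lit 32) (nat_lit 0x5e0000bc00017f1252fe4ad) b28105 (.one (nat_lit 9) (nat_lit 25) (nat_lit 27) (nat_lit 0x5e0000bc00017f4ebaff17b) b28101 (.nil)))) (.nil)))))) (.nil))) (.nil))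
noncomputable def r28_59 : Rw Blk := .tok (nat_lit 6) (nat_lit 0x2f00005e0000bfdb657fe32afffa5) (.hit (nat_lit 11) (nat_lit 0) (nat_lit 0x2f00005e0000bf7db97f3ce2fe695) b28117 (.tok (nat_lit 3) (nat_lit 0x2f00005e0000bfdb657fe32afffa5) (.hit (nat_lit 12) (nat_lit 1) (nat_lit 0x2f00005e0000bf54357ee5bafdfbf) b28118 (.one (nat_lit 14) (nat_lit 13) (nat_lit 4) (nat_lit 0x2f00005e0000bfdb657fe32afffa5) b28119 (.one (nat_lit 56) (nat_lit 15) (nat_lit 6) (nat_lit 0x2f00005e0000bfa58d7f9792ff632) b28120 (.one (nat_lit 68) (nat_lit 14) (nat_lit 5) (nat_lit 0x2f00005e0000bf9de17f7682ff23c) b28121 (.nil))))) (.nil))) (.tok (nat_lit 9) (nat_lit 0x2f00005e0000c00001806e4300000) (.hit (nat_lit 0) (nat_lit 0) (nat_lit 0x2f00005e0000bfc5cd801702ff507) b28106 (.tok (nat_lit 3) (nat_lit 0x2f00005e0000bfbeed7fc82afeef2) (.hit (nat_lit 1) (nat_lit 1) (nat_lit 0x2f00005e0000bf649d7f0852fce71) b28107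 (.one (nat_lit 14) (nat_lit 2) (nat_lit 4) (nat_lit 0x2f00005e0000bfbeed7fc82afeef2) b28108 (.one (nat_lit 56) (nat_lit 4) (nat_lit 6) (nat_lit 0x2f00005e0000bfb48d7fb7aafe9a1) b28109 (.one (nat_lit 68) (nat_lit 3) (nat_lit 5) (nat_lit 0x2f00005e0000bfb6497fbdcafea58) b28110 (.nil))))) (.tok (nat_lit 40) (nat_lit 0x2f00005e0000bf7ef97fc57afe942) (.hit (nat_lit 5) (nat_lit 33) (nat_lit 0x2f00005e0000bf7be17fb54afe942) b28111 (.hit (nat_lit 6) (nat_lit 34) (nat_lit 0x2f00005e0000bf7ef97fc57afe713) b28112 (.nil))) (.tok (nat_lit 43) (nat_lit 0x2f00005e0000c00001806e4300000) (.hit (nat_lit 7) (nat_lit 35) (nat_lit 0x2f00005e0000bf65357f2e22fe268) b28115 (.hit (nat_lit 8) (nat_lit 36) (nat_lit 0x2f00005e0000c00001806e4300000) b28116 (.nil))) (.tok (nat_lit 46) (nat_lit 0x2f00005e0000bfbd4d801f7aff7ba) (.hit (nat_lit 9) (nat_lit 37) (nat_lit 0x2f00005e0000bfbd4d801f7aff7ba) b28113 (.hit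 (nat_lit 10) (nat_lit 38) (nat_lit 0x2f00005e0000bf94558007d2fef5d) b28114 (.nil))) (.nil)))))) (.nil))
noncomputable def r28_60 : Rw Blk := .tok (nat_lit 3) (nat_lit 0x5e0000bc00017f1ebafd8be) (.hit (nat_lit 14) (nat_lit 0) (nat_lit 0x5e0000bc00017f1ebafd8be) b28136 (.tok (nat_lit 6) (nat_lit 0x5e0000bc00017eeb12fd28b) (.hit (nat_lit 15) (nat_lit 7) (nat_lit 0x5e0000bc00017eeb12fd28b) b28139 (.hit (nat_lit 16) (nat_lit 15) (nat_lit 0x5e0000bc00017eea9afd27c) b28140 (.nil))) (.tok (nat_lit 9) (nat_lit 0x5e0000bc00017dfd2afb4ce) (.hit (nat_lit 17) (nat_lit 20) (nat_lit 0x5e0000bc00017dfd2afb4ce) b28137 (.hit (nat_lit 18) (nat_lit 28) (nat_lit 0x5e0000bc00017d9b32fa88f) b28138 (.nil))) (.nil)))) (.tok (nat_lit 6) (nat_lit 0x5e0000bc00017fb9eaff8d1) (.hit (nat_lit 9) (nat_lit 0) (nat_lit 0x5e0000bc00017f4952fec20) b28131 (.tok (nat_lit 3) (nat_lit 0x5e0000bc00017fb9eaff8d1) (.hit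 (nat_lit 10) (nat_lit 1) (nat_lit 0x5e0000bc00017ef8f2fe341) b28132 (.one (nat_lit 67) (nat_lit 11) (nat_lit 2) (nat_lit 0x5e0000bc00017fb9eaff8d1) b28133 (.nil))) (.tok (nat_lit 6) (nat_lit 0x5e0000bc00017f79daff35e) (.hit (nat_lit 12) (nat_lit 7) (nat_lit 0x5e0000bc00017f79daff35e) b28134 (.hit (nat_lit 13) (nat_lit 15) (nat_lit 0x5e0000bc00017f18aafe738) b28135 (.nil))) (.nil)))) (.tok (nat_lit 9) (nat_lit 0x5e0000bc000180000300000) (.hit (nat_lit 0) (nat_lit 0) (nat_lit 0x5e0000bc00017f9722fed07) b28122 (.tok (nat_lit 3) (nat_lit 0x5e0000bc0001800002ff247) (.hit (nat_lit 1) (nat_lit 1) (nat_lit 0x5e0000bc00017f3212fd99a) b28123 (.one (nat_lit 55) (nat_lit 2) (nat_lit 3) (nat_lit 0x5e0000bc0001800002ff247) b28124 (.nil))) (.tok (nat_lit 9) (nat_lit 0x5e0000bc00017ffb4300000) (.hit (nat_lit 3) (nat_lit 20) (nat_lit 0x5e0000bc00017fafaafe6d9) b28125 (.hit (nat_lit 7) (nat_lit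 28) (nat_lit 0x5e0000bc00017f2d2afda4a) b28129 (.tok (nat_lit 67) (nat_lit 0x5e0000bc00017ffb4300000) (.hit (nat_lit 4) (nat_lit 21) (nat_lit 0x5e0000bc00017ff9aaff8c5) b28126 (.hit (nat_lit 8) (nat_lit 29) (nat_lit 0x5e0000bc00017fcbc2ff36b) b28130 (.tok (nat_lit 9) (nat_lit 0x5e0000bc00017ffb4300000) (.hit (nat_lit 5) (nat_lit 22) (nat_lit 0x5e0000bc00017fb9a2feeee) b28127 (.one (nat_lit 67) (nat_lit 6) (nat_lit 23) (nat_lit 0x5e0000bc00017ffb4300000) b28128 (.nil))) (.nil)))) (.nil)))) (.nil)))) (.nil)))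
noncomputable def r28_61 : Rw Blk := .tok (nat_lit 6) (nat_lit 0x3000005fd44cbfb0297f7dd3007075fdfe6bfcc457fa8cafff78) (.hit (nat_lit 81) (nat_lit 0) (nat_lit 0x2fddac5fb1a0bf620d7efd4afe0ea5fbf34bf98d57f1cdafe162) b28308 (.tok (nat_lit 14) (nat_lit 0x3000005fd1d6bfb0297f57f2ffe465fdfe6bfa88d7f9b8afff78) (.hit (nat_lit 117) (nat_lit 61) (nat_lit 0x2ff2aa5fcf76bfb0297f36caff37c5fcdb2bfa88d7f56d2fff78) b28309 (.one (nat_lit 3) (nat_lit 118) (nat_lit 62) (nat_lit 0x2fe5045fb3a2bf9c4d7e6192fef205faad8bf3df17ebb42febf0) b28310 (.tok (nat_lit 6) (nat_lit 0x2fe7e35fb150bf89417edbcafeed55fb6f2bf7b0d7efbd2ff02f) (.hit (nat_lit 121) (nat_lit 65) (nat_lit 0x2fcf795f80f6bf68697edbcafdce65fb6f2bf7b0d7efbd2fdddd) b28311 (.hit (nat_lit 122) (nat_lit 66) (nat_lit 0x2fe7e35fb150bf89417e7d52feed55fb6babf43d97ee84aff02f) b28312 (.nil))) (.tok (nat_lit 9) (nat_lit 0x3000005fd1d6bfac7d7f57f2ffe465fdfe6bf822d7f9b8aff9d3)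 (.hit (nat_lit 119) (nat_lit 63) (nat_lit 0x3000005fd1d6bf937d7f57f2ffe465fdfe6bf822d7f9b8aff9d3) b28313 (.hit (nat_lit 120) (nat_lit 64) (nat_lit 0x2fe22e5fa342bfac7d7e8272feaaa5faa0abf4e617ebb5afebed) b28314 (.nil))) (.nil))))) (.one (nat_lit 17) (nat_lit 123) (nat_lit 67) (nat_lit 0x2fd79e5fa348bf67217e28fafe6645f8f44bf21a57e504afdfbb) b28315 (.tok (nat_lit 20) (nat_lit 0x2fe9c45fc99ebf8f557ee3db007075fce78bf5d0d7f5502ff878) (.hit (nat_lit 124) (nat_lit 68) (nat_lit 0x2fe9c45fc99ebf8f557ee3db007075fce78bf5d0d7f5502ff878) b28318 (.hit (nat_lit 125) (nat_lit 69) (nat_lit 0x2fd6c85f85aebf81017e0962fdd655f8daebf11d97e4962fdee2) b28319 (.nil))) (.tok (nat_lit 23) (nat_lit 0x2fd5f55f8876bf57d57ec522fdc995fb148bf6fb97ee52afde12) (.hit (nat_lit 126) (nat_lit 70) (nat_lit 0x2fcca45f7b4cbf57d57ec522fda115fb148bf6fb97ee52afdb08) b28316 (.hit (nat_lit 127) (nat_lit 71) (nat_lit 0x2fd5f55f8876bf2aa57e08cafdc995f8c0abf118d7e4302fde12)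 b28317 (.nil))) (.one (nat_lit 26) (nat_lit 128) (nat_lit 72) (nat_lit 0x2fcda05f7360bf19c57da112fd4445f7b52beddb17e005afd5bd) b28320 (.one (nat_lit 29) (nat_lit 129) (nat_lit 73) (nat_lit 0x2fcf4d5f85b6bf3ce57da01afdc3d5f7ebcbed9457e0dc2fd76a) b28321 (.one (nat_lit 32) (nat_lit 130) (nat_lit 74) (nat_lit 0x2fc25d5f66dcbf54417dc22afcdf95f708abeee3d7de232fca7a) b28323 (.one (nat_lit 35) (nat_lit 131) (nat_lit 75) (nat_lit 0x2fd62e5f92e2bf4ebd7dd71afe3535f8c7ebed4917e44cafde4b) b28322 (.one (nat_lit 38) (nat_lit 132) (nat_lit 76) (nat_lit 0x2fd2a45f8772bf54ed7e2fd2fde545f8bf4bf25117e4fdafdab4) b28324 (.tok (nat_lit 41) (nat_lit 0x2fd7995fa332bf68797de352fe6fa5f8f58befed17e5102fdfb6) (.hit (nat_lit 133) (nat_lit 77) (nat_lit 0x2fcda65f8f22bf4d0d7d94c2fda555f7bfabea9517e004afdd29) b28325 (.hit (nat_lit 134) (nat_lit 78) (nat_lit 0x2fd7995fa332bf68797de352fe6fa5f8f58befed17e5102fdfb6)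 b28326 (.nil))) (.tok (nat_lit 44) (nat_lit 0x2fdc135fb7febf89ad7deb02fe7ab5fae1abee7797ee08afe1af) (.hit (nat_lit 135) (nat_lit 79) (nat_lit 0x2fdc135fb7febf89ad7deb02fe7ab5fae1abee7797ee08afe1af) b28329 (.hit (nat_lit 136) (nat_lit 80) (nat_lit 0x2fd34c5f7ee4bf48117dc00afda045f86b6bee7057e2d82fdb69) b28330 (.nil))) (.tok (nat_lit 47) (nat_lit 0x2fd7385f9198bf3e0d7e2752fe2e75f8e92bf20d17e4de2fdf55) (.hit (nat_lit 137) (nat_lit 81) (nat_lit 0x2fb8ea5f53d8bf1ad17e2752fc6575f89d4bf20d17e475afc74e) b28327 (.hit (nat_lit 138) (nat_lit 82) (nat_lit 0x2fd7385f9198bf3e0d7df702fe2e75f8e92bf08a97e4de2fdf55) b28328 (.nil))) (.one (nat_lit 50) (nat_lit 139) (nat_lit 83) (nat_lit 0x2fdbcb5f97a8bf64117e03eafe6545f97a8bf0d317e719afe3e5) b28340 (.tok (nat_lit 53) (nat_lit 0x2fdcc35fc492bf97d97e96f2ff5635fada4bf58a17ec942fef23) (.hit (nat_lit 140) (nat_lit 84) (nat_lit 0x2fdcc35fc492bf97d97e96f2ff5635fada4bf58a17ec942fef23)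 b28341 (.hit (nat_lit 141) (nat_lit 85) (nat_lit 0x2fd8825f98b6bf66bd7e032afe6f25f9128bf0ebd7e576afe095) b28342 (.nil))) (.tok (nat_lit 56) (nat_lit 0x2ff39a5fd44cbfa5a17f7dd2ffc525fdea2bfcc457fa8caff9cf) (.hit (nat_lit 142) (nat_lit 86) (nat_lit 0x2ff3835fd44cbf94817f7dd2ff43a5fda28bfcc457f7b6aff57e) b28343 (.one (nat_lit 3) (nat_lit 146) (nat_lit 90) (nat_lit 0x2fe7df5fb196bf76697ea962feddb5fb46abf61d97f1f0afe33d) b28347 (.tok (nat_lit 6) (nat_lit 0x2ff39a5fb9a0bfa5a17f114affc525fcb70bf7c117f214aff9cf) (.hit (nat_lit 144) (nat_lit 88) (nat_lit 0x2ff39a5fb9a0bfa5a17f114affc525fcb70bf7c117f214aff9cf) b28345 (.hit (nat_lit 145) (nat_lit 89) (nat_lit 0x2fd99f5fb768bf91d17e6d22fe6975f9b48bf43b97e8d2afe08b) b28346 (.nil))) (.one (nat_lit 9) (nat_lit 143) (nat_lit 87) (nat_lit 0x2ff0c45fd18cbf924d7f179aff8be5fdea2bf98f57fa8caff860) b28344 (.nil))))) (.one (nat_lit 59) (nat_lit 147)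 (nat_lit 91) (nat_lit 0x2fd4bb5f835abf4b957dcb82fdb5f5f8982bec1917e3932fdcd8) b28348 (.one (nat_lit 62) (nat_lit 148) (nat_lit 92) (nat_lit 0x2fd1835f7df4bf45157e0e2afd97d5f838abf143d7e2e32fd9a0) b28331 (.tok (nat_lit 65) (nat_lit 0x2fdaf85faea0bf607d7e00cafe6cd5f969cbf086d7e6c42fe701) (.hit (nat_lit 149) (nat_lit 93) (nat_lit 0x2fdaf85faea0bf607d7e00cafe6cd5f969cbf086d7e6c42fe701) b28332 (.hit (nat_lit 150) (nat_lit 94) (nat_lit 0x2fd4db5f926ebf473d7dd56afe1f05f89d8bef7dd7e3a32fdcf7) b28333 (.nil))) (.tok (nat_lit 68) (nat_lit 0x2fdfdd5fb056bf9a4d7f03f2fe66f5fbceabfb0457f13b2fea65) (.hit (nat_lit 151) (nat_lit 95) (nat_lit 0x2fdfdd5fb056bf9a4d7f03f2fe66f5fbceabfb0457f13b2fea65) b28334 (.one (nat_lit 3) (nat_lit 155) (nat_lit 99) (nat_lit 0x2fc1c85f6594bf69a57e6e42fcf355f9b90bf44497e8e4afd02c) b28338 (.one (nat_lit 6) (nat_lit 152) (nat_lit 96) (nat_lit 0x2fccf75f7bf2bf7b757ec7bafda645fb1eebf71057ee7c2fdb5b)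 b28335 (.tok (nat_lit 9) (nat_lit 0x2fce235f7e4abf98997ed11afdb905fb446bf75b57ef122fdc87) (.hit (nat_lit 153) (nat_lit 97) (nat_lit 0x2fc58d5f6d1ebf94917e8c6afd2fa5fa31abf535d7eac72fd3f1) b28336 (.hit (nat_lit 154) (nat_lit 98) (nat_lit 0x2fce235f7e4abf98997ed11afdb905fb446bf75b57ef122fdc87) b28337 (.nil))) (.nil))))) (.one (nat_lit 71) (nat_lit 156) (nat_lit 100) (nat_lit 0x2fcb365f76e0bf1bd57d7f5afd5085f7676bec1917ded0afd353) b28339 (.nil)))))))))))))))))))))) (.tok (nat_lit 14) (nat_lit 0x2fca4f5f7426bf49b97ea232fd2795fa88cbf529d7ea04afd26c) (.hit (nat_lit 233) (nat_lit 0) (nat_lit 0x2fca4f5f7426bf49b97ea232fd2795fa88cbf529d7ea04afd26c) b36059 (.one (nat_lit 3) (nat_lit 234) (nat_lit 1) (nat_lit 0x2f9e125f1bacbefb3d7d1e5afa5385f4796be9c557d3e62fa62f) b28350 (.tok (nat_lit 6) (nat_lit 0x2fc6795f6c7abf38317e6192fcd9f5f9864bf3df17e819afce96) (.hit (nat_lit 235) (nat_lit 7) (nat_lit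 0x2fc31b5f65bebf2b557e46a2fca415f91a8bf30797e66aafcb38) b28351 (.hit (nat_lit 236) (nat_lit 15) (nat_lit 0x2fc6795f6c7abf38317e6192fcd9f5f9864bf3df17e819afce96) b28352 (.nil))) (.tok (nat_lit 9) (nat_lit 0x2fc6795f6c7abf38317e6192fcd9f5f9864bf3df17e819afce96) (.hit (nat_lit 237) (nat_lit 20) (nat_lit 0x2fc31b5f65bebf2b557e46a2fca415f91a8bf30797e66aafcb38) b28351 (.hit (nat_lit 238) (nat_lit 28) (nat_lit 0x2fc6795f6c7abf38317e6192fcd9f5f9864bf3df17e819afce96) b28352 (.nil))) (.nil))))) (.tok (nat_lit 17) (nat_lit 0x2fd1f45f7e18bf37e97f4d82fdfba5fd360bf86e97ed2fafdab8) (.hit (nat_lit 239) (nat_lit 0) (nat_lit 0x2fd1f45f7d98bf24fd7f4d82fdfba5fd360bf86e97ed2fafdab8) b36060 (.one (nat_lit 3) (nat_lit 240) (nat_lit 1) (nat_lit 0x2fa9585f3238bf17617d788afb07e5f5e22bec96d7d9892fb175) b28354 (.tok (nat_lit 6) (nat_lit 0x2fcf485f7e18bf37e97ea80afd66e5faa02bf612d7ec812fd765) (.hit (nat_lit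 241) (nat_lit 7) (nat_lit 0x2fc9735f726ebf227d7e7962fd0995f9e58bf49d97e996afd190) b28355 (.hit (nat_lit 242) (nat_lit 15) (nat_lit 0x2fcf485f7e18bf37e97ea80afd66e5faa02bf612d7ec812fd765) b28356 (.nil))) (.tok (nat_lit 9) (nat_lit 0x2fcf485f7e18bf37e97ea80afd66e5faa02bf612d7ec812fd765) (.hit (nat_lit 243) (nat_lit 20) (nat_lit 0x2fc9735f726ebf227d7e7962fd0995f9e58bf49d97e996afd190) b28355 (.hit (nat_lit 244) (nat_lit 28) (nat_lit 0x2fcf485f7e18bf37e97ea80afd66e5faa02bf612d7ec812fd765) b28356 (.nil))) (.nil))))) (.tok (nat_lit 20) (nat_lit 0x2fe1c75fb4d6bf7fdd7fa6eafe5d25ff006bf4cc17f460afe61c) (.hit (nat_lit 245) (nat_lit 0) (nat_lit 0x2fe1c75fb4d6bf69c97fa6eafe5d25ff006bf3dd57f460afe61c) b28363 (.one (nat_lit 3) (nat_lit 246) (nat_lit 1) (nat_lit 0x2fd0b45f7a78bf35c17f68eafd7585fda34bebc4d7edfc2fd8d1) b28364 (.tok (nat_lit 6) (nat_lit 0x2fd07d5f79febf40497f684afd7215fda06bf44257ede0afd89a)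 (.hit (nat_lit 247) (nat_lit 7) (nat_lit 0x2fbaff5f5586bf39ed7e05c2fc2255f8170bf10097e25cafc31c) b28359 (.hit (nat_lit 248) (nat_lit 15) (nat_lit 0x2fd07d5f79febf40497f684afd7215fda06bf44257ede0afd89a) b28367 (.nil))) (.tok (nat_lit 9) (nat_lit 0x2fd3065f8172bf7fdd7f7b8afd9875fdee2bf4cc17ef22afdcca) (.hit (nat_lit 249) (nat_lit 20) (nat_lit 0x2fd3065f8172bf7fdd7f7b8afd9875fdee2bf2bd17ef22afdcca) b28365 (.hit (nat_lit 250) (nat_lit 28) (nat_lit 0x2fce955f75a8bf5b6d7f5922fd5395fd648bf4cc17ececafd6b2) b28366 (.nil))) (.nil))))) (.tok (nat_lit 23) (nat_lit 0x2fe1c75fb4d6bf7fdd7fa442fd1535fe902bfa0017f455afe613) (.hit (nat_lit 251) (nat_lit 0) (nat_lit 0x2fe1c75fb4d6bf69c97fa442fcd985fe902bfa0017f455afe613) b28357 (.one (nat_lit 3) (nat_lit 252) (nat_lit 1) (nat_lit 0x2fd0b45f7a78bf35c17f6792fad365fd9d8bf66197edfc2fd8d1) b28358 (.tok (nat_lit 6) (nat_lit 0x2fd3065f8172bf7fdd7f5812fd1535fdbd6bf6ed57ef22afdcca)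 (.hit (nat_lit 253) (nat_lit 7) (nat_lit 0x2fd3065f8172bf7fdd7f57f2fc9175fdbd6bf6ed57ef22afdcca) b28361 (.hit (nat_lit 254) (nat_lit 15) (nat_lit 0x2fce955f75a8bf5b6d7f5812fd1535fd600bf5d9d7ececafd6b2) b28362 (.nil))) (.tok (nat_lit 9) (nat_lit 0x2fd07d5f79febf40497f66bafcf2c5fd9acbf653d7ede0afd89a) (.hit (nat_lit 255) (nat_lit 20) (nat_lit 0x2fbaff5f5586bf39ed7e05c2fc2255f8170bf10097e25cafc31c) b28359 (.hit (nat_lit 256) (nat_lit 28) (nat_lit 0x2fd07d5f79febf40497f66bafcf2c5fd9acbf653d7ede0afd89a) b28360 (.nil))) (.nil))))) (.tok (nat_lit 26) (nat_lit 0x2fdb425f9dc2bf5b797ef42aff14a5fbd06bfcddd7ec0bafe364) (.hit (nat_lit 257) (nat_lit 0) (nat_lit 0x2fdb425f9dc2bf5b797ef42aff14a5fbd06bfcddd7ec0bafe364) b36061 (.one (nat_lit 3) (nat_lit 258) (nat_lit 1) (nat_lit 0x2fa37a5f267cbea99d7d499afaaa05f5266beb1f57d69a2fab97) b28369 (.tok (nat_lit 6) (nat_lit 0x2fcae15f754abf1e8d7e84d2fd2075fa134bf4f917ea4dafd2fe)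 (.hit (nat_lit 259) (nat_lit 7) (nat_lit 0x2fcae15f754abf1e8d7e84d2fd2075fa134bf4f917ea4dafd2fe) b28370 (.hit (nat_lit 260) (nat_lit 15) (nat_lit 0x2fb4e55f4952bed2a57dd4f2fbc0b5f753cbef7a17df4fafbd02) b28371 (.nil))) (.tok (nat_lit 9) (nat_lit 0x2fcae15f754abf1e8d7e84d2fd2075fa134bf4f917ea4dafd2fe) (.hit (nat_lit 261) (nat_lit 20) (nat_lit 0x2fcae15f754abf1e8d7e84d2fd2075fa134bf4f917ea4dafd2fe) b28370 (.hit (nat_lit 262) (nat_lit 28) (nat_lit 0x2fb4e55f4952bed2a57dd4f2fbc0b5f753cbef7a17df4fafbd02) b28371 (.nil))) (.nil))))) (.tok (nat_lit 29) (nat_lit 0x2fd5845f8a90bf8e557ed9eafdcaa5fb67abf7a1d7ef9f2fdda1) (.hit (nat_lit 263) (nat_lit 0) (nat_lit 0x2fcfbc5f77a4bf47997e98aafd67d5fa62abf62ad7e7392fd7f6) b36062 (.one (nat_lit 3) (nat_lit 264) (nat_lit 1) (nat_lit 0x2fa7355f2df2bf16ad7d6772fae5b5f59dcbec0e17d877afaf52) b28373 (.tok (nat_lit 6) (nat_lit 0x2fd5845f8a90bf8e557ed9eafdcaa5fb67abf7a1d7ef9f2fdda1)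 (.hit (nat_lit 265) (nat_lit 7) (nat_lit 0x2fc5f75f6b76bf8e557e5d82fcd1d5f9760bf3be97e7d8afce14) b28374 (.hit (nat_lit 266) (nat_lit 15) (nat_lit 0x2fd5845f8a90bf59c97ed9eafdcaa5fb67abf7a1d7ef9f2fdda1) b28375 (.nil))) (.tok (nat_lit 9) (nat_lit 0x2fd5845f8a90bf8e557ed9eafdcaa5fb67abf7a1d7ef9f2fdda1) (.hit (nat_lit 267) (nat_lit 20) (nat_lit 0x2fc5f75f6b76bf8e557e5d82fcd1d5f9760bf3be97e7d8afce14) b28374 (.hit (nat_lit 268) (nat_lit 28) (nat_lit 0x2fd5845f8a90bf59c97ed9eafdcaa5fb67abf7a1d7ef9f2fdda1) b28375 (.nil))) (.nil))))) (.tok (nat_lit 32) (nat_lit 0x2fd5885fa6bebf8b857eed9afdc755fb17cbf89b57eb23afd4aa) (.hit (nat_lit 269) (nat_lit 0) (nat_lit 0x2fd5885fa6bebf8b857eed9afdc755fb17cbf89b57e91bafcfc8) b28382 (.one (nat_lit 3) (nat_lit 270) (nat_lit 1) (nat_lit 0x2fa8a85f30d8bf08617d730afafce5f5cc2bec6ad7d9312fb0c5) b28377 (.tok (nat_lit 6) (nat_lit 0x2fcc8d5f78a2bf83e97e9232fd3b35fa48cbf56417eb23afd4aa)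 (.hit (nat_lit 271) (nat_lit 7) (nat_lit 0x2fcc8d5f78a2bf40757e9232fd3b35fa48cbf56417eb23afd4aa) b28378 (.hit (nat_lit 272) (nat_lit 15) (nat_lit 0x2fc9035f718ebf83e97e75e2fd0295f9d78bf48197e95eafd120) b28379 (.nil))) (.tok (nat_lit 9) (nat_lit 0x2fc0cf5f6126bf670d7e3442fc7f55f8d10bf27497e544afc8ec) (.hit (nat_lit 273) (nat_lit 20) (nat_lit 0x2fc0cf5f6126bf670d7e3442fc7f55f8d10bf27497e544afc8ec) b28380 (.hit (nat_lit 274) (nat_lit 28) (nat_lit 0x2fb3c75f4716bf10ed7dcc02fbaed5f7300bef3297dec0afbbe4) b28381 (.nil))) (.nil))))) (.tok (nat_lit 35) (nat_lit 0x2fd5885fa6bebf8b857ec5f2fdffe5fb17cbf799d7eb23afd4aa) (.hit (nat_lit 275) (nat_lit 0) (nat_lit 0x2fd5885fa6bebf8b857ec5f2fdffe5fb17cbf799d7e91bafcfc8) b28376 (.one (nat_lit 3) (nat_lit 276) (nat_lit 1) (nat_lit 0x2fa8a85f30d8bf08617d730afafce5f5cc2bec6ad7d9312fb0c5) b28377 (.tok (nat_lit 6) (nat_lit 0x2fc0cf5f6126bf670d7e3442fc7f55f8d10bf27497e544afc8ec)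 (.hit (nat_lit 277) (nat_lit 7) (nat_lit 0x2fc0cf5f6126bf670d7e3442fc7f55f8d10bf27497e544afc8ec) b28380 (.hit (nat_lit 278) (nat_lit 15) (nat_lit 0x2fb3c75f4716bf10ed7dcc02fbaed5f7300bef3297dec0afbbe4) b28381 (.nil))) (.tok (nat_lit 9) (nat_lit 0x2fcc8d5f78a2bf83e97e9232fd3b35fa48cbf56417eb23afd4aa) (.hit (nat_lit 279) (nat_lit 20) (nat_lit 0x2fcc8d5f78a2bf40757e9232fd3b35fa48cbf56417eb23afd4aa) b28378 (.hit (nat_lit 280) (nat_lit 28) (nat_lit 0x2fc9035f718ebf83e97e75e2fd0295f9d78bf48197e95eafd120) b28379 (.nil))) (.nil))))) (.tok (nat_lit 38) (nat_lit 0x2fdf8f5f9d7abf64897fbff2ff2975feffcbfc9797f4a12fe7a5) (.hit (nat_lit 281) (nat_lit 0) (nat_lit 0x2fdf8f5f9d7abf64897fbff2ff2975feffcbfc9797f4a12fe7a5) b36063 (.one (nat_lit 3) (nat_lit 282) (nat_lit 1) (nat_lit 0x2fa7b65f2ef4bea9757d6b7afaedc5f5adebec2e57d8b82fafd3) b28384 (.tok (nat_lit 6) (nat_lit 0x2fb9195f51babf07ed7df692fc03f5f7da4bf08717e169afc136)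 (.hit (nat_lit 283) (nat_lit 7) (nat_lit 0x2fb9195f51babf07ed7df692fc03f5f7da4bf08717e169afc136) b28385 (.hit (nat_lit 284) (nat_lit 15) (nat_lit 0x2fb3245f45d0bed46d7dc6eafba4a5f71babef09d7de6f2fbb41) b28386 (.nil))) (.tok (nat_lit 9) (nat_lit 0x2fb9195f51babf07ed7df692fc03f5f7da4bf08717e169afc136) (.hit (nat_lit 285) (nat_lit 20) (nat_lit 0x2fb9195f51babf07ed7df692fc03f5f7da4bf08717e169afc136) b28385 (.hit (nat_lit 286) (nat_lit 28) (nat_lit 0x2fb3245f45d0bed46d7dc6eafba4a5f71babef09d7de6f2fbb41) b28386 (.nil))) (.nil))))) (.tok (nat_lit 41) (nat_lit 0x2fe5655fd41ebfa5f97feef2ffec95ffbbcbff64d7f8d32fdbe3) (.hit (nat_lit 292) (nat_lit 0) (nat_lit 0x2fd3c75f9f1ebf4a557f65c2fe1635fd970bf8e357f32bafdbe3) b36064 (.one (nat_lit 3) (nat_lit 293) (nat_lit 1) (nat_lit 0x2fccdc5f82c8bf10097f2a92fd7c15fcaa4bf67b97eb4b2fb089) b36065 (.tok (nat_lit 6) (nat_lit 0x2fe5655fd41ebfa5f97feef2ffec95ffbbcbf9e457f8d32fd8c6)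 (.hit (nat_lit 294) (nat_lit 7) (nat_lit 0x2fe5655fd41ebfa5f97feef2ffec95ffbbcbf9e457f8d32fc2ef) b28391 (.hit (nat_lit 295) (nat_lit 15) (nat_lit 0x2fd0a95f852abf41217f41bafdc365fd06ebf76a17ed31afd8c6) b28392 (.nil))) (.tok (nat_lit 9) (nat_lit 0x2fe5655fd41ebfa5f97fc9c2fe5c95ff26ebff64d7f8d32fd8c6) (.hit (nat_lit 296) (nat_lit 20) (nat_lit 0x2fe5655fd41ebfa5f97fc9c2fe5c95ff26ebff64d7f8d32fc2ef) b28389 (.hit (nat_lit 297) (nat_lit 28) (nat_lit 0x2fd0a95f852abf41217f40aafdb7b5fd026bf79757ed31afd8c6) b28390 (.nil))) (.nil))))) (.tok (nat_lit 44) (nat_lit 0x2fe83e5fc940bf629d7fe4aaff9965ff970bfbab57f9b62fea73) (.hit (nat_lit 306) (nat_lit 0) (nat_lit 0x2fe5665fb25cbf58b57fa152fdecc5feff2bfbab57f9b62fe289) b28399 (.one (nat_lit 3) (nat_lit 307) (nat_lit 1) (nat_lit 0x2fc1085f6834bed5617ecbf2fcc905fb2fcbeb84d7e5612fc925) b28400 (.tok (nat_lit 6) (nat_lit 0x2fdccf5f93a0bf5f897f9d42fe3525fe880bf20fd7f3342fe4cb)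 (.hit (nat_lit 308) (nat_lit 7) (nat_lit 0x2fdccf5f93a0bf5f897f9d42fe3525fe880bf20fd7f3342fe4cb) b28403 (.hit (nat_lit 309) (nat_lit 15) (nat_lit 0x2fc9fd5f828cbf0b717f139afd8f25fc4e6beea917e9dbafd21a) b28404 (.nil))) (.tok (nat_lit 9) (nat_lit 0x2fe83e5fc940bf629d7fe4aaff9965ff970bf62797f9762fea73) (.hit (nat_lit 310) (nat_lit 20) (nat_lit 0x2fe83e5fc940bf629d7fe4aaff9965ff970bf4ad97f9762fea73) b28401 (.hit (nat_lit 311) (nat_lit 28) (nat_lit 0x2fcf9b5f84bcbf412d7f2982fdd635fca60bf62797ecaaafd7b8) b28402 (.nil))) (.nil))))) (.tok (nat_lit 47) (nat_lit 0x2fe83e5fc940bf629d7fe7fafeac55ff906bfe3c97f9992fea73) (.hit (nat_lit 320) (nat_lit 0) (nat_lit 0x2fe5665fb25cbf58b57fb6b2feac55fdc78bf82f57f93c2fe29d) b28393 (.one (nat_lit 3) (nat_lit 321) (nat_lit 1) (nat_lit 0x2fc1085f6834bed5617ecbf2fac365fb2fcbf3af97e5612fc925) b28394 (.tok (nat_lit 6) (nat_lit 0x2fe83e5fc940bf629d7fe7fafd6c15ff906bfe3c97f9992fea73)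 (.hit (nat_lit 322) (nat_lit 7) (nat_lit 0x2fe83e5fc940bf629d7fe7fafd0d95ff906bfe3c97f9992fea73) b28397 (.hit (nat_lit 323) (nat_lit 15) (nat_lit 0x2fcf9b5f84bcbf412d7f28a2fd6c15fca24bf7e457ecaaafd7b8) b28398 (.nil))) (.tok (nat_lit 9) (nat_lit 0x2fdccf5f93a0bf5f897fa922fc6625fea48bf96017f3342fe4cb) (.hit (nat_lit 324) (nat_lit 20) (nat_lit 0x2fdccf5f93a0bf5f897fa922fc6625fea48bf96017f3342fe4cb) b28395 (.hit (nat_lit 325) (nat_lit 28) (nat_lit 0x2fc9fd5f828cbf0b717f139afb8c75fc4e6bf6c817e9dbafd21a) b28396 (.nil))) (.nil))))) (.tok (nat_lit 50) (nat_lit 0x2fd4045f8790bf55457ecdeafdb2a5fb37abf741d7eedf2fdc21) (.hit (nat_lit 326) (nat_lit 0) (nat_lit 0x2fcac05f6e4cbf55457e83f2fcb265fa0fcbf6ed57e275afd2e2) b28429 (.one (nat_lit 3) (nat_lit 327) (nat_lit 1) (nat_lit 0x2fa0bb5f20febeb8117d33a2fa7e15f4ce8bea6f97d53aafa8d8) b28406 (.tok (nat_lit 6) (nat_lit 0x2fd4045f8790bf4e9d7ecdeafdb2a5fb37abf741d7eedf2fdc21)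 (.hit (nat_lit 328) (nat_lit 7) (nat_lit 0x2fd4045f8790bf4e9d7ecdeafdb2a5fb37abf741d7eedf2fdc21) b28407 (.hit (nat_lit 329) (nat_lit 15) (nat_lit 0x2fa8415f300abed3117d6fd2faf675f5bf4bec5117d8fdafb05e) b28408 (.nil))) (.tok (nat_lit 9) (nat_lit 0x2fc21c5f63c0bf24497e3eaafc9425f8faabf2c7d7e5eb2fca39) (.hit (nat_lit 330) (nat_lit 20) (nat_lit 0x2fc21c5f63c0bf24497e3eaafc9425f8faabf2c7d7e5eb2fca39) b28409 (.hit (nat_lit 331) (nat_lit 28) (nat_lit 0x2fa8415f300abed81d7d6fd2faf675f5bf4bec5117d8fdafb05e) b28410 (.nil))) (.nil))))) (.tok (nat_lit 52) (nat_lit 0x2ffa36600000c038c9803d8300622600f4cc072f5805d3aff7c5) (.hit (nat_lit 332) (nat_lit 0) (nat_lit 0x2ffa365fecb6c0290d7ff68b006225ffd8ac0630d801632ff7c5) b28430 (.tok (nat_lit 6) (nat_lit 0x2ff919600000bff505803d8300031600f4cc072f5805d3aff4dc) (.hit (nat_lit 333) (nat_lit 7) (nat_lit 0x2ff919600000bff505803d8300031600f4cc072f5805d3aff4dc)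 b28433 (.hit (nat_lit 334) (nat_lit 15) (nat_lit 0x2fed795fe26abfc22d7fa092ff5035fe824bfee817fc09afeaf8) b28434 (.nil))) (.tok (nat_lit 9) (nat_lit 0x2ff2f05ffa4cc038c97fc562ff9975ff14ec02c157fe542ff6bd) (.hit (nat_lit 335) (nat_lit 20) (nat_lit 0x2feae95fb55ac038c97fa2d2ff5c65fe8b4bfde8d7fc2daff6bd) b28431 (.hit (nat_lit 336) (nat_lit 28) (nat_lit 0x2ff2f05ffa4cc014e57fc562ff9975ff14ec02c157fe542feefa) b28432 (.nil))) (.nil)))) (.tok (nat_lit 53) (nat_lit 0x2fe38c5fcfbebf9b397f56fafee295fd28abfdaa57ede02fda23) (.hit (nat_lit 337) (nat_lit 0) (nat_lit 0x2fd85f5fb942bf73617ef13afee295fbc30bfdaa57e903afd06a) b28435 (.one (nat_lit 3) (nat_lit 338) (nat_lit 1) (nat_lit 0x2fce285fb5f2bf5bb17e9f22fd4ce5fa7c2bf8f117e2942fb356) b28436 (.tok (nat_lit 6) (nat_lit 0x2fe38c5fcfbebf6f297f56fafdf8d5fd28abfd24d7ede02fda23) (.hit (nat_lit 339) (nat_lit 7) (nat_lit 0x2fe38c5fcfbebf6f297f56fafdf8d5fd28abfd24d7ede02fda23)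 b28438 (.hit (nat_lit 340) (nat_lit 15) (nat_lit 0x2fd4f95faec0bf5ab97ed592fdbaf5fb564bf8d617eac62fd3ef) b28439 (.nil))) (.tok (nat_lit 9) (nat_lit 0x2fd4425faf52bf9b397ed02afdb035fb3f6bfa47d7edde2fda1f) (.hit (nat_lit 341) (nat_lit 20) (nat_lit 0x2fd2025f838cbf9b397ebddafd9285faf76bf6c157edde2fda1f) b28415 (.hit (nat_lit 342) (nat_lit 28) (nat_lit 0x2fd4425faf52bf65e57ed02afdb035fb3f6bfa47d7eac62fd3ef) b28437 (.nil))) (.nil))))) (.tok (nat_lit 55) (nat_lit 0x2ff9725fd26cc0253980171b0044f6005c6c018b180372300546) (.hit (nat_lit 343) (nat_lit 0) (nat_lit 0x2ff9535fcac6bfe3197fa11aff58f5fe846c008957fc12300170) b28440 (.tok (nat_lit 3) (nat_lit 0x2fed075fb996bffe7d7fb3c2ff7e45fecf0bfe7057fd3caff8db) (.hit (nat_lit 344) (nat_lit 1) (nat_lit 0x2fd2e45f8550bf99717ee2aafddc15fb8aabf7e797f02b2fdeb8) b28441 (.one (nat_lit 67) (nat_lit 345) (nat_lit 2) (nat_lit 0x2fed075fb996bffe7d7fb3c2ff7e45fecf0bfe7057fd3caff8db)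 b28442 (.nil))) (.tok (nat_lit 6) (nat_lit 0x2ff9725fd26cc0253980171b0044f6005c6c018b180372300546) (.hit (nat_lit 346) (nat_lit 7) (nat_lit 0x2fdc1a5f97bcbfa69d7f2c5afe6f75fcb16bfa3517f4c62fe7ee) b28443 (.hit (nat_lit 349) (nat_lit 15) (nat_lit 0x2fcca65f78d4bf91517eb0bafd7835fac2ebf65817ed0c2fd87a) b28446 (.tok (nat_lit 55) (nat_lit 0x2ff9725fd26cc0253980171b0044f6005c6c018b180372300546) (.hit (nat_lit 347) (nat_lit 8) (nat_lit 0x2ff1cf5fc326c017c17fda02ffcac5ff680bffa257ffa0affda3) b28444 (.hit (nat_lit 350) (nat_lit 16) (nat_lit 0x2fe6be5fad04bff0157f817aff19b5fe05ebfcde17fa182ff292) b28447 (.one (nat_lit 6) (nat_lit 348) (nat_lit 9) (nat_lit 0x2ff9725fd26cc0253980171b0044f6005c6c018b180372300546) b28445 (.nil)))) (.nil)))) (.nil)))) (.tok (nat_lit 56) (nat_lit 0x2fcdd35f7b2ebf6d4d7e9c62fd4f95fa718bf5b597ebc6afd5f0) (.hit (nat_lit 351) (nat_lit 0) (nat_lit 0x2fcdd35f7b2ebf5b0d7e9c62fd4f95fa718bf5b597ebc6afd5f0)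 b28448 (.one (nat_lit 3) (nat_lit 352) (nat_lit 1) (nat_lit 0x2f9e125f1bacbebe9d7d1e5afa5385f4796be9c557d3e62fa62f) b28418 (.tok (nat_lit 6) (nat_lit 0x2fc0605f6048bf6d4d7e30cafc7865f8c32bf258d7e50d2fc87d) (.hit (nat_lit 353) (nat_lit 7) (nat_lit 0x2fc0605f6048bf6d4d7e30cafc7865f8c32bf258d7e50d2fc87d) b28419 (.hit (nat_lit 354) (nat_lit 15) (nat_lit 0x2fa5f05f2b68bf0ce97d5d4afad165f5752bebbcd7d7d52fae0d) b28420 (.nil))) (.tok (nat_lit 9) (nat_lit 0x2fcc5b5f783ebf69ad7e90a2fd3815fa428bf55797eb0aafd478) (.hit (nat_lit 355) (nat_lit 20) (nat_lit 0x2fc13d5f6202bf69ad7e37b2fc8635f8decbf29017e57bafc95a) b28421 (.hit (nat_lit 356) (nat_lit 28) (nat_lit 0x2fcc5b5f783ebf486d7e90a2fd3815fa428bf55797eb0aafd478) b28422 (.nil))) (.nil))))) (.tok (nat_lit 58) (nat_lit 0x2ff8455fd012c014c9800db30032260036cc013fd802dbb00419) (.hit (nat_lit 357) (nat_lit 0) (nat_lit 0x2feb9c5fad66bfc9317f338aff3625fcce2bfdf057f5392ff221)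 b28449 (.tok (nat_lit 3) (nat_lit 0x2fedd05fbb28bfcadd7fba0aff8ad5fee82bfea297fda12ff9a4) (.hit (nat_lit 358) (nat_lit 1) (nat_lit 0x2fd6d05f8d28bfaf517f020afe1ad5fc082bf8e297f2212fe2a4) b28450 (.one (nat_lit 55) (nat_lit 359) (nat_lit 3) (nat_lit 0x2fedd05fbb28bfcadd7fba0aff8ad5fee82bfea297fda12ff9a4) b28451 (.nil))) (.tok (nat_lit 9) (nat_lit 0x2ff8455fd012c014c9800db30032260036cc013fd802dbb00419) (.hit (nat_lit 360) (nat_lit 20) (nat_lit 0x2fd8d55f9132bfa0317f1232fe3b25fc48cbf963d7f323afe4a9) b28452 (.hit (nat_lit 363) (nat_lit 28) (nat_lit 0x2fd6455f8c12bfaab17efdb2fe1225fbf6cbf8bfd7f1dbafe219) b28455 (.tok (nat_lit 67) (nat_lit 0x2ff8455fd012c014c9800db30032260036cc013fd802dbb00419) (.hit (nat_lit 361) (nat_lit 21) (nat_lit 0x2fe7ce5faf24bfd0557f89faff2ab5fe27ebfd2217faa02ff3a2) b28453 (.hit (nat_lit 364) (nat_lit 29) (nat_lit 0x2fee3a5fbbfcc006397fbd5aff9175fef56bfebd17fdd62ffa0e)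 b28456 (.one (nat_lit 9) (nat_lit 362) (nat_lit 22) (nat_lit 0x2ff8455fd012c014c9800db30032260036cc013fd802dbb00419) b28454 (.nil)))) (.nil)))) (.nil)))) (.tok (nat_lit 59) (nat_lit 0x2fd6235f8c8abf6d0d7edee2fdd495fb7b8bf7c997efeeafde40) (.hit (nat_lit 365) (nat_lit 0) (nat_lit 0x2fd0935f8c8abf6d0d7eb262fd8005fac98bf75097e5712fd002) b28457 (.one (nat_lit 3) (nat_lit 366) (nat_lit 1) (nat_lit 0x2faaff5f3586bec9217d85c2fb2255f6170bed0097da5cafb31c) b28424 (.tok (nat_lit 6) (nat_lit 0x2fccc65f7914bf48057e93fafd3ec5fa4febf57257eb402fd4e3) (.hit (nat_lit 367) (nat_lit 7) (nat_lit 0x2fcbeb5f775ebf46097e8d22fd3115fa348bf53b97ead2afd408) b28425 (.hit (nat_lit 368) (nat_lit 15) (nat_lit 0x2fccc65f7914bf48057e93fafd3ec5fa4febf57257eb402fd4e3) b28426 (.nil))) (.tok (nat_lit 9) (nat_lit 0x2fd6235f8bcebf6a417edee2fdd495fb7b8bf7c997efeeafde40) (.hit (nat_lit 369) (nat_lit 20) (nat_lit 0x2fd6235f8bcebf6a417edee2fdd495fb7b8bf7c997efeeafde40)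 b28427 (.hit (nat_lit 370) (nat_lit 28) (nat_lit 0x2fb80c5f4fa0bf14f57dee2afbf325f7b8abf043d7e0e32fc029) b28428 (.nil))) (.nil))))) (.tok (nat_lit 62) (nat_lit 0x2fd4045f8790bf55457ecdeafdb2a5fb37abf741d7eedf2fdc21) (.hit (nat_lit 371) (nat_lit 0) (nat_lit 0x2fcac05f6e4cbf55457e83f2fd9875fa0fcbf35517e275afd2e2) b28405 (.one (nat_lit 3) (nat_lit 372) (nat_lit 1) (nat_lit 0x2fa0bb5f20febeb8117d33a2fa7e15f4ce8bea6f97d53aafa8d8) b28406 (.tok (nat_lit 6) (nat_lit 0x2fc21c5f63c0bf24497e3eaafc9425f8faabf2c7d7e5eb2fca39) (.hit (nat_lit 373) (nat_lit 7) (nat_lit 0x2fc21c5f63c0bf24497e3eaafc9425f8faabf2c7d7e5eb2fca39) b28409 (.hit (nat_lit 374) (nat_lit 15) (nat_lit 0x2fa8415f300abed81d7d6fd2faf675f5bf4bec5117d8fdafb05e) b28410 (.nil))) (.tok (nat_lit 9) (nat_lit 0x2fd4045f8790bf4e9d7ecdeafdb2a5fb37abf741d7eedf2fdc21) (.hit (nat_lit 375) (nat_lit 20) (nat_lit 0x2fd4045f8790bf4e9d7ecdeafdb2a5fb37abf741d7eedf2fdc21)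 b28407 (.hit (nat_lit 376) (nat_lit 28) (nat_lit 0x2fa8415f300abed3117d6fd2faf675f5bf4bec5117d8fdafb05e) b28408 (.nil))) (.nil))))) (.tok (nat_lit 65) (nat_lit 0x2fe38c5fcfbebf9b397f4a2aff1085fd28abfaca97ede02fda23) (.hit (nat_lit 382) (nat_lit 0) (nat_lit 0x2fd85f5fb942bf73617eebe2ff1085fb490bfaca97e903afd06a) b28411 (.one (nat_lit 3) (nat_lit 383) (nat_lit 1) (nat_lit 0x2fce285fb5f2bf5bb17e9f0afe1935fa7c2bf5be97e2942fb356) b28412 (.tok (nat_lit 6) (nat_lit 0x2fd4425faf52bf9b397ecfdafe6115fb3f6bf74557edde2fda1f) (.hit (nat_lit 384) (nat_lit 7) (nat_lit 0x2fd2025f838cbf9b397ebddafd9285faf76bf6c157edde2fda1f) b28415 (.hit (nat_lit 385) (nat_lit 15) (nat_lit 0x2fd4425faf52bf65e57ecfdafe6115fb3f6bf74557eac62fd3ef) b28416 (.nil))) (.tok (nat_lit 9) (nat_lit 0x2fe38c5fcfbebf6f297f4a2aff0955fd28abf85197ede02fda23) (.hit (nat_lit 386) (nat_lit 20) (nat_lit 0x2fe38c5fcfbebf6f297f4a2aff0955fd28abf85197ede02fda23)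 b28413 (.hit (nat_lit 387) (nat_lit 28) (nat_lit 0x2fd4f95faec0bf5ab97ed592fe0d95fb564bf772d7eac62fd3ef) b28414 (.nil))) (.nil))))) (.tok (nat_lit 68) (nat_lit 0x2fcdd35f7b2ebf6d4d7e9c62fd4f95fa718bf5b597ebc6afd5f0) (.hit (nat_lit 396) (nat_lit 0) (nat_lit 0x2fcdd35f7b2ebf5b0d7e9c62fd4f95fa718bf5b597ebc6afd5f0) b28417 (.one (nat_lit 3) (nat_lit 397) (nat_lit 1) (nat_lit 0x2f9e125f1bacbebe9d7d1e5afa5385f4796be9c557d3e62fa62f) b28418 (.tok (nat_lit 6) (nat_lit 0x2fcc5b5f783ebf69ad7e90a2fd3815fa428bf55797eb0aafd478) (.hit (nat_lit 398) (nat_lit 7) (nat_lit 0x2fc13d5f6202bf69ad7e37b2fc8635f8decbf29017e57bafc95a) b28421 (.hit (nat_lit 399) (nat_lit 15) (nat_lit 0x2fcc5b5f783ebf486d7e90a2fd3815fa428bf55797eb0aafd478) b28422 (.nil))) (.tok (nat_lit 9) (nat_lit 0x2fc0605f6048bf6d4d7e30cafc7865f8c32bf258d7e50d2fc87d) (.hit (nat_lit 400) (nat_lit 20) (nat_lit 0x2fc0605f6048bf6d4d7e30cafc7865f8c32bf258d7e50d2fc87d)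 b28419 (.hit (nat_lit 401) (nat_lit 28) (nat_lit 0x2fa5f05f2b68bf0ce97d5d4afad165f5752bebbcd7d7d52fae0d) b28420 (.nil))) (.nil))))) (.tok (nat_lit 71) (nat_lit 0x2fd6235f8c8abf6d0d7edee2fdd495fb7b8bf7c997efeeafde40) (.hit (nat_lit 410) (nat_lit 0) (nat_lit 0x2fd0935f8c8abf6d0d7eb262fdb145fac98bf68b97e5712fd002) b28423 (.one (nat_lit 3) (nat_lit 411) (nat_lit 1) (nat_lit 0x2faaff5f3586bec9217d85c2fb2255f6170bed0097da5cafb31c) b28424 (.tok (nat_lit 6) (nat_lit 0x2fd6235f8bcebf6a417edee2fdd495fb7b8bf7c997efeeafde40) (.hit (nat_lit 412) (nat_lit 7) (nat_lit 0x2fd6235f8bcebf6a417edee2fdd495fb7b8bf7c997efeeafde40) b28427 (.hit (nat_lit 413) (nat_lit 15) (nat_lit 0x2fb80c5f4fa0bf14f57dee2afbf325f7b8abf043d7e0e32fc029) b28428 (.nil))) (.tok (nat_lit 9) (nat_lit 0x2fccc65f7914bf48057e93fafd3ec5fa4febf57257eb402fd4e3) (.hit (nat_lit 414) (nat_lit 20) (nat_lit 0x2fcbeb5f775ebf46097e8d22fd3115fa348bf53b97ead2afd408)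 b28425 (.hit (nat_lit 415) (nat_lit 28) (nat_lit 0x2fccc65f7914bf48057e93fafd3ec5fa4febf57257eb402fd4e3) b28426 (.nil))) (.nil))))) (.nil))))))))))))))))))))))))
noncomputable def r28_62 : Rw Blk := .tok (nat_lit 14) (nat_lit 0xbc0001780002fdb73) (.hit (nat_lit 134) (nat_lit 0) (nat_lit 0xbc0001780002fdb73) b28475 (.one (nat_lit 3) (nat_lit 135) (nat_lit 1) (nat_lit 0xbc0001780002fb168) b28476 (.tok (nat_lit 6) (nat_lit 0xbc0001780002fd56b) (.hit (nat_lit 136) (nat_lit 7) (nat_lit 0xbc0001780002fcfe8) b28477 (.hit (nat_lit 137) (nat_lit 15) (nat_lit 0xbc0001780002fd56b) b28479 (.nil))) (.tok (nat_lit 9) (nat_lit 0xbc0001780002fd187) (.hit (nat_lit 138) (nat_lit 20) (nat_lit 0xbc0001780002fcfe8) b28477 (.hit (nat_lit 139) (nat_lit 28) (nat_lit 0xbc0001780002fd187) b28478 (.nil))) (.nil))))) (.tok (nat_lit 17) (nat_lit 0xbc0001780002fdbc6) (.hit (nat_lit 140) (nat_lit 0) (nat_lit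 0xbc0001780002fdbc6) b28469 (.one (nat_lit 3) (nat_lit 141) (nat_lit 1) (nat_lit 0xbc0001780002fac5b) b28470 (.tok (nat_lit 6) (nat_lit 0xbc0001780002fd27c) (.hit (nat_lit 142) (nat_lit 7) (nat_lit 0xbc0001780002fca7b) b28473 (.hit (nat_lit 143) (nat_lit 15) (nat_lit 0xbc0001780002fd27c) b28474 (.nil))) (.tok (nat_lit 9) (nat_lit 0xbc0001780002fcf7c) (.hit (nat_lit 144) (nat_lit 20) (nat_lit 0xbc0001780002fc785) b28471 (.hit (nat_lit 145) (nat_lit 28) (nat_lit 0xbc0001780002fcf7c) b28472 (.nil))) (.nil))))) (.tok (nat_lit 20) (nat_lit 0xbc0001780002ff774) (.hit (nat_lit 128) (nat_lit 0) (nat_lit 0xbc0001780002ff774) b28464 (.one (nat_lit 3) (nat_lit 129) (nat_lit 1) (nat_lit 0xbc0001780002fe9ec) b28465 (.tok (nat_lit 6) (nat_lit 0xbc0001780002fe7ac) (.hit (nat_lit 130) (nat_lit 7) (nat_lit 0xbc0001780002fcc54) b28462 (.hit (nat_lit 131) (nat_lit 15) (nat_lit 0xbc0001780002fe7ac)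 b28468 (.nil))) (.tok (nat_lit 9) (nat_lit 0xbc0001780002feb46) (.hit (nat_lit 132) (nat_lit 20) (nat_lit 0xbc0001780002feb46) b28466 (.hit (nat_lit 133) (nat_lit 28) (nat_lit 0xbc0001780002fe597) b28467 (.nil))) (.nil))))) (.tok (nat_lit 23) (nat_lit 0xbc0001780002fdc38) (.hit (nat_lit 122) (nat_lit 0) (nat_lit 0xbc0001780002fdc38) b28458 (.one (nat_lit 3) (nat_lit 123) (nat_lit 1) (nat_lit 0xbc0001780002fb4e1) b28459 (.tok (nat_lit 6) (nat_lit 0xbc0001780002fd47e) (.hit (nat_lit 124) (nat_lit 7) (nat_lit 0xbc0001780002fcc54) b28462 (.hit (nat_lit 125) (nat_lit 15) (nat_lit 0xbc0001780002fd47e) b28463 (.nil))) (.tok (nat_lit 9) (nat_lit 0xbc0001780002fd266) (.hit (nat_lit 126) (nat_lit 20) (nat_lit 0xbc0001780002fcb87) b28460 (.hit (nat_lit 127) (nat_lit 28) (nat_lit 0xbc0001780002fd266) b28461 (.nil))) (.nil))))) (.tok (nat_lit 26) (nat_lit 0xbc0001780002ff867) (.hit (nat_lit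 215) (nat_lit 0) (nat_lit 0xbc0001780002ff867) b28548 (.one (nat_lit 3) (nat_lit 216) (nat_lit 1) (nat_lit 0xbc0001780002faded) b28549 (.tok (nat_lit 6) (nat_lit 0xbc0001780002fdb8f) (.hit (nat_lit 217) (nat_lit 7) (nat_lit 0xbc0001780002fdb8f) b28552 (.hit (nat_lit 218) (nat_lit 15) (nat_lit 0xbc0001780002fac47) b28553 (.nil))) (.tok (nat_lit 9) (nat_lit 0xbc0001780002fbfc8) (.hit (nat_lit 219) (nat_lit 20) (nat_lit 0xbc0001780002fbf51) b28550 (.hit (nat_lit 220) (nat_lit 28) (nat_lit 0xbc0001780002fbfc8) b28551 (.nil))) (.nil))))) (.tok (nat_lit 29) (nat_lit 0xbc0001780002fddca) (.hit (nat_lit 221) (nat_lit 0) (nat_lit 0xbc0001780002fddca) b28554 (.one (nat_lit 3) (nat_lit 222) (nat_lit 1) (nat_lit 0xbc0001780002fb04f) b28555 (.tok (nat_lit 6) (nat_lit 0xbc0001780002fcc93) (.hit (nat_lit 223) (nat_lit 7) (nat_lit 0xbc0001780002fbcf8) b28528 (.hit (nat_lit 224) (nat_lit 15) (nat_lit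 0xbc0001780002fcc93) b28558 (.nil))) (.tok (nat_lit 9) (nat_lit 0xbc0001780002fd2dc) (.hit (nat_lit 225) (nat_lit 20) (nat_lit 0xbc0001780002fd02d) b28556 (.hit (nat_lit 226) (nat_lit 28) (nat_lit 0xbc0001780002fd2dc) b28557 (.nil))) (.nil))))) (.tok (nat_lit 32) (nat_lit 0xbc0001780002feafb) (.hit (nat_lit 233) (nat_lit 0) (nat_lit 0xbc0001780002feafb) b28565 (.one (nat_lit 3) (nat_lit 234) (nat_lit 1) (nat_lit 0xbc0001780002fb4e1) b28459 (.tok (nat_lit 6) (nat_lit 0xbc0001780002fcc14) (.hit (nat_lit 235) (nat_lit 7) (nat_lit 0xbc0001780002fc99f) b28484 (.hit (nat_lit 236) (nat_lit 15) (nat_lit 0xbc0001780002fcc14) b28568 (.nil))) (.tok (nat_lit 9) (nat_lit 0xbc0001780002fbcda) (.hit (nat_lit 237) (nat_lit 20) (nat_lit 0xbc0001780002fbcda) b28566 (.hit (nat_lit 238) (nat_lit 28) (nat_lit 0xbc0001780002faab9) b28567 (.nil))) (.nil))))) (.tok (nat_lit 35) (nat_lit 0xbc0001780002ffadd)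 (.hit (nat_lit 227) (nat_lit 0) (nat_lit 0xbc0001780002ffadd) b28559 (.one (nat_lit 3) (nat_lit 228) (nat_lit 1) (nat_lit 0xbc0001780002fbdf8) b28560 (.tok (nat_lit 6) (nat_lit 0xbc0001780002fd386) (.hit (nat_lit 229) (nat_lit 7) (nat_lit 0xbc0001780002fd00b) b28563 (.hit (nat_lit 230) (nat_lit 15) (nat_lit 0xbc0001780002fd386) b28564 (.nil))) (.tok (nat_lit 9) (nat_lit 0xbc0001780002fd583) (.hit (nat_lit 231) (nat_lit 20) (nat_lit 0xbc0001780002fd583) b28561 (.hit (nat_lit 232) (nat_lit 28) (nat_lit 0xbc0001780002fd1aa) b28562 (.nil))) (.nil))))) (.tok (nat_lit 38) (nat_lit 0xbc0001780002fefe6) (.hit (nat_lit 239) (nat_lit 0) (nat_lit 0xbc0001780002fefe6) b28524 (.one (nat_lit 3) (nat_lit 240) (nat_lit 1) (nat_lit 0xbc0001780002fb963) b28525 (.tok (nat_lit 6) (nat_lit 0xbc0001780002fbcf8) (.hit (nat_lit 241) (nat_lit 7) (nat_lit 0xbc0001780002fbcf8) b28528 (.hit (nat_lit 242)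 (nat_lit 15) (nat_lit 0xbc0001780002fb6cd) b28529 (.nil))) (.tok (nat_lit 9) (nat_lit 0xbc0001780002fce85) (.hit (nat_lit 243) (nat_lit 20) (nat_lit 0xbc0001780002fce85) b28526 (.hit (nat_lit 244) (nat_lit 28) (nat_lit 0xbc0001780002fbd5d) b28527 (.nil))) (.nil))))) (.tok (nat_lit 41) (nat_lit 0xbc000178000301436) (.hit (nat_lit 250) (nat_lit 0) (nat_lit 0xbc0001780002ff862) b28530 (.one (nat_lit 3) (nat_lit 251) (nat_lit 1) (nat_lit 0xbc0001780002fef4f) b28531 (.tok (nat_lit 6) (nat_lit 0xbc000178000301436) (.hit (nat_lit 252) (nat_lit 7) (nat_lit 0xbc000178000301436) b28534 (.hit (nat_lit 253) (nat_lit 15) (nat_lit 0xbc0001780002fef54) b28535 (.nil))) (.tok (nat_lit 9) (nat_lit 0xbc0001780002ffbfc) (.hit (nat_lit 254) (nat_lit 20) (nat_lit 0xbc0001780002ffbfc) b28532 (.hit (nat_lit 255) (nat_lit 28) (nat_lit 0xbc0001780002fed28) b28533 (.nil))) (.nil))))) (.tok (nat_lit 44)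 (nat_lit 0xbc000178000301242) (.hit (nat_lit 278) (nat_lit 0) (nat_lit 0xbc0001780002ff610) b28542 (.one (nat_lit 3) (nat_lit 279) (nat_lit 1) (nat_lit 0xbc0001780002fdd01) b28543 (.tok (nat_lit 6) (nat_lit 0xbc0001780002ffa6a) (.hit (nat_lit 280) (nat_lit 7) (nat_lit 0xbc0001780002ffa6a) b28546 (.hit (nat_lit 281) (nat_lit 15) (nat_lit 0xbc0001780002fe6c0) b28547 (.nil))) (.tok (nat_lit 9) (nat_lit 0xbc000178000301242) (.hit (nat_lit 282) (nat_lit 20) (nat_lit 0xbc000178000301242) b28544 (.hit (nat_lit 283) (nat_lit 28) (nat_lit 0xbc0001780002fe872) b28545 (.nil))) (.nil))))) (.tok (nat_lit 47) (nat_lit 0xbc0001780002ffac7) (.hit (nat_lit 264) (nat_lit 0) (nat_lit 0xbc0001780002ffac7) b28536 (.one (nat_lit 3) (nat_lit 265) (nat_lit 1) (nat_lit 0xbc0001780002fbf96) b28537 (.tok (nat_lit 6) (nat_lit 0xbc0001780002fd604) (.hit (nat_lit 266) (nat_lit 7) (nat_lit 0xbc0001780002fd420)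 b28540 (.hit (nat_lit 267) (nat_lit 15) (nat_lit 0xbc0001780002fd604) b28541 (.nil))) (.tok (nat_lit 9) (nat_lit 0xbc0001780002fc385) (.hit (nat_lit 268) (nat_lit 20) (nat_lit 0xbc0001780002fc385) b28538 (.hit (nat_lit 269) (nat_lit 28) (nat_lit 0xbc0001780002fbbd6) b28539 (.nil))) (.nil))))) (.tok (nat_lit 50) (nat_lit 0xbc0001780002fdbeb) (.hit (nat_lit 170) (nat_lit 0) (nat_lit 0xbc0001780002fdbeb) b28503 (.one (nat_lit 3) (nat_lit 171) (nat_lit 1) (nat_lit 0xbc0001780002fb524) b28504 (.tok (nat_lit 6) (nat_lit 0xbc0001780002fd04e) (.hit (nat_lit 172) (nat_lit 7) (nat_lit 0xbc0001780002fd04e) b28507 (.hit (nat_lit 173) (nat_lit 15) (nat_lit 0xbc0001780002fbd70) b28508 (.nil))) (.tok (nat_lit 9) (nat_lit 0xbc0001780002fbd1d) (.hit (nat_lit 174) (nat_lit 20) (nat_lit 0xbc0001780002fbd1d) b28505 (.hit (nat_lit 175) (nat_lit 28) (nat_lit 0xbc0001780002fba11) b28506 (.nil))) (.nil)))))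 (.tok (nat_lit 53) (nat_lit 0xbc0001780002fed1a) (.hit (nat_lit 181) (nat_lit 0) (nat_lit 0xbc0001780002fecaa) b28509 (.one (nat_lit 3) (nat_lit 182) (nat_lit 1) (nat_lit 0xbc0001780002fe5ea) b28510 (.tok (nat_lit 6) (nat_lit 0xbc0001780002fed1a) (.hit (nat_lit 183) (nat_lit 7) (nat_lit 0xbc0001780002fed1a) b28513 (.hit (nat_lit 184) (nat_lit 15) (nat_lit 0xbc0001780002fe442) b28514 (.nil))) (.tok (nat_lit 9) (nat_lit 0xbc0001780002fe6af) (.hit (nat_lit 185) (nat_lit 20) (nat_lit 0xbc0001780002fc3c8) b28511 (.hit (nat_lit 186) (nat_lit 28) (nat_lit 0xbc0001780002fe6af) b28512 (.nil))) (.nil))))) (.tok (nat_lit 56) (nat_lit 0xbc0001780002fdc4f) (.hit (nat_lit 195) (nat_lit 0) (nat_lit 0xbc0001780002fdc4f) b28521 (.one (nat_lit 3) (nat_lit 196) (nat_lit 1) (nat_lit 0xbc0001780002fb4e1) b28459 (.tok (nat_lit 6) (nat_lit 0xbc0001780002fcfe8) (.hit (nat_lit 197) (nat_lit 7) (nat_lit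 0xbc0001780002fcfe8) b28477 (.hit (nat_lit 198) (nat_lit 15) (nat_lit 0xbc0001780002fb64f) b28500 (.nil))) (.tok (nat_lit 9) (nat_lit 0xbc0001780002fd433) (.hit (nat_lit 199) (nat_lit 20) (nat_lit 0xbc0001780002fc637) b28522 (.hit (nat_lit 200) (nat_lit 28) (nat_lit 0xbc0001780002fd433) b28523 (.nil))) (.nil))))) (.tok (nat_lit 59) (nat_lit 0xbc0001780002fe2b6) (.hit (nat_lit 209) (nat_lit 0) (nat_lit 0xbc0001780002fe2b6) b28515 (.one (nat_lit 3) (nat_lit 210) (nat_lit 1) (nat_lit 0xbc0001780002fc68e) b28516 (.tok (nat_lit 6) (nat_lit 0xbc0001780002fd38a) (.hit (nat_lit 211) (nat_lit 7) (nat_lit 0xbc0001780002fd38a) b28519 (.hit (nat_lit 212) (nat_lit 15) (nat_lit 0xbc0001780002fd34f) b28520 (.nil))) (.tok (nat_lit 9) (nat_lit 0xbc0001780002fd995) (.hit (nat_lit 213) (nat_lit 20) (nat_lit 0xbc0001780002fcfff) b28517 (.hit (nat_lit 214) (nat_lit 28) (nat_lit 0xbc0001780002fd995)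 b28518 (.nil))) (.nil))))) (.tok (nat_lit 62) (nat_lit 0xbc0001780002fdd1a) (.hit (nat_lit 146) (nat_lit 0) (nat_lit 0xbc0001780002fdd1a) b28480 (.one (nat_lit 3) (nat_lit 147) (nat_lit 1) (nat_lit 0xbc0001780002fa5b5) b28481 (.tok (nat_lit 6) (nat_lit 0xbc0001780002fc99f) (.hit (nat_lit 148) (nat_lit 7) (nat_lit 0xbc0001780002fc99f) b28484 (.hit (nat_lit 149) (nat_lit 15) (nat_lit 0xbc0001780002fbce9) b28485 (.nil))) (.tok (nat_lit 9) (nat_lit 0xbc0001780002fd831) (.hit (nat_lit 150) (nat_lit 20) (nat_lit 0xbc0001780002fd831) b28482 (.hit (nat_lit 151) (nat_lit 28) (nat_lit 0xbc0001780002fac3c) b28483 (.nil))) (.nil))))) (.tok (nat_lit 65) (nat_lit 0xbc0001780003003b4) (.hit (nat_lit 152) (nat_lit 0) (nat_lit 0xbc0001780002ff684) b28486 (.one (nat_lit 3) (nat_lit 153) (nat_lit 1) (nat_lit 0xbc0001780002ffd5e) b28487 (.tok (nat_lit 6) (nat_lit 0xbc0001780003003b4) (.hit (nat_lit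 154) (nat_lit 7) (nat_lit 0xbc0001780002fd489) b28490 (.hit (nat_lit 155) (nat_lit 15) (nat_lit 0xbc0001780003003b4) b28491 (.nil))) (.tok (nat_lit 9) (nat_lit 0xbc000178000300055) (.hit (nat_lit 156) (nat_lit 20) (nat_lit 0xbc000178000300055) b28488 (.hit (nat_lit 157) (nat_lit 28) (nat_lit 0xbc0001780002ff6ad) b28489 (.nil))) (.nil))))) (.tok (nat_lit 68) (nat_lit 0xbc0001780002fe2d4) (.hit (nat_lit 158) (nat_lit 0) (nat_lit 0xbc0001780002fe2d4) b28498 (.one (nat_lit 3) (nat_lit 159) (nat_lit 1) (nat_lit 0xbc0001780002fb4e1) b28459 (.tok (nat_lit 6) (nat_lit 0xbc0001780002fcd59) (.hit (nat_lit 160) (nat_lit 7) (nat_lit 0xbc0001780002fca10) b28501 (.hit (nat_lit 161) (nat_lit 15) (nat_lit 0xbc0001780002fcd59) b28502 (.nil))) (.tok (nat_lit 9) (nat_lit 0xbc0001780002fc5f4) (.hit (nat_lit 162) (nat_lit 20) (nat_lit 0xbc0001780002fc5f4) b28499 (.hit (nat_lit 163) (nat_lit 28) (nat_lit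 0xbc0001780002fb64f) b28500 (.nil))) (.nil))))) (.tok (nat_lit 71) (nat_lit 0xbc0001780002fed47) (.hit (nat_lit 164) (nat_lit 0) (nat_lit 0xbc0001780002fed47) b28492 (.one (nat_lit 3) (nat_lit 165) (nat_lit 1) (nat_lit 0xbc0001780002faa00) b28493 (.tok (nat_lit 6) (nat_lit 0xbc0001780002fcbd0) (.hit (nat_lit 166) (nat_lit 7) (nat_lit 0xbc0001780002fcbd0) b28496 (.hit (nat_lit 167) (nat_lit 15) (nat_lit 0xbc0001780002fbe26) b28497 (.nil))) (.tok (nat_lit 9) (nat_lit 0xbc0001780002fcaa9) (.hit (nat_lit 168) (nat_lit 20) (nat_lit 0xbc0001780002fc813) b28494 (.hit (nat_lit 169) (nat_lit 28) (nat_lit 0xbc0001780002fcaa9) b28495 (.nil))) (.nil))))) (.nil))))))))))))))))))))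
noncomputable def r28_63 : Rw Blk := .tok (nat_lit 3) (nat_lit 0xbc0001780002ff37a) (.hit (nat_lit 18) (nat_lit 0) (nat_lit 0xbc0001780002ff347) b28587 (.tok (nat_lit 6) (nat_lit 0xbc0001780002fe9bb) (.hit (nat_lit 19) (nat_lit 7) (nat_lit 0xbc0001780002fcf52) b28590 (.hit (nat_lit 20) (nat_lit 15) (nat_lit 0xbc0001780002fe9bb) b28591 (.nil))) (.tok (nat_lit 9) (nat_lit 0xbc0001780002ff37a) (.hit (nat_lit 21) (nat_lit 20) (nat_lit 0xbc0001780002ff37a) b28588 (.hit (nat_lit 22) (nat_lit 28) (nat_lit 0xbc0001780002fe356) b28589 (.nil))) (.nil)))) (.tok (nat_lit 6) (nat_lit 0xbc0001780002ffc7e) (.hit (nat_lit 0) (nat_lit 0) (nat_lit 0xbc0001780002fedb9) b28569 (.tok (nat_lit 3) (nat_lit 0xbc0001780002fe84a) (.hit (nat_lit 1) (nat_lit 1) (nat_lit 0xbc0001780002fd33d) b28570 (.one (nat_lit 67) (nat_lit 2) (nat_lit 2) (nat_lit 0xbc0001780002fe84a) b28571 (.nil))) (.tok (nat_lit 6) (nat_lit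 0xbc0001780002ffc7e) (.hit (nat_lit 3) (nat_lit 7) (nat_lit 0xbc0001780002fd316) b28572 (.hit (nat_lit 7) (nat_lit 15) (nat_lit 0xbc0001780002fd469) b28576 (.tok (nat_lit 55) (nat_lit 0xbc0001780002ffc7e) (.hit (nat_lit 4) (nat_lit 8) (nat_lit 0xbc0001780002fee22) b28573 (.hit (nat_lit 8) (nat_lit 16) (nat_lit 0xbc0001780002ffc2d) b28577 (.tok (nat_lit 6) (nat_lit 0xbc0001780002ffc7e) (.hit (nat_lit 5) (nat_lit 9) (nat_lit 0xbc0001780002ff2b3) b28574 (.one (nat_lit 55) (nat_lit 6) (nat_lit 10) (nat_lit 0xbc0001780002ffc7e) b28575 (.nil))) (.nil)))) (.nil)))) (.nil)))) (.tok (nat_lit 9) (nat_lit 0xbc0001780003036c9) (.hit (nat_lit 9) (nat_lit 0) (nat_lit 0xbc0001780002ff1e7) b28578 (.tok (nat_lit 3) (nat_lit 0xbc0001780003024b5) (.hit (nat_lit 10) (nat_lit 1) (nat_lit 0xbc0001780002fee0b) b28579 (.one (nat_lit 55) (nat_lit 11) (nat_lit 3) (nat_lit 0xbc0001780003024b5) b28580 (.nil)))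 (.tok (nat_lit 9) (nat_lit 0xbc0001780003036c9) (.hit (nat_lit 12) (nat_lit 20) (nat_lit 0xbc0001780003011b2) b28581 (.hit (nat_lit 16) (nat_lit 28) (nat_lit 0xbc0001780002ffbc1) b28585 (.tok (nat_lit 67) (nat_lit 0xbc0001780003036c9) (.hit (nat_lit 13) (nat_lit 21) (nat_lit 0xbc0001780003025c4) b28582 (.hit (nat_lit 17) (nat_lit 29) (nat_lit 0xbc0001780003036c9) b28586 (.tok (nat_lit 9) (nat_lit 0xbc000178000301b9c) (.hit (nat_lit 14) (nat_lit 22) (nat_lit 0xbc000178000301b9c) b28583 (.one (nat_lit 67) (nat_lit 15) (nat_lit 23) (nat_lit 0xbc00017800030175a) b28584 (.nil))) (.nil)))) (.nil)))) (.nil)))) (.nil)))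
noncomputable def r28_64 : Rw Blk := .tok (nat_lit 3) (nat_lit 0xbc0001780003017b8) (.hit (nat_lit 0) (nat_lit 0) (nat_lit 0xbc0001780002feed2) b28592 (.tok (nat_lit 6) (nat_lit 0xbc0001780002feaa3) (.hit (nat_lit 1) (nat_lit 7) (nat_lit 0xbc0001780002fd2c0) b28593 (.hit (nat_lit 4) (nat_lit 15) (nat_lit 0xbc0001780002fd08d) b28596 (.tok (nat_lit 56) (nat_lit 0xbc0001780002feaa3) (.hit (nat_lit 2) (nat_lit 13) (nat_lit 0xbc0001780002fe528) b28594 (.hit (nat_lit 6) (nat_lit 19) (nat_lit 0xbc0001780002fe1ec) b28598 (.one (nat_lit 6) (nat_lit 3) (nat_lit 14) (nat_lit 0xbc0001780002feaa3) b28595 (.nil)))) (.one (nat_lit 68) (nat_lit 5) (nat_lit 18) (nat_lit 0xbc0001780002fe19f) b28597 (.nil))))) (.tok (nat_lit 52) (nat_lit 0xbc0001780002fea75) (.hit (nat_lit 7) (nat_lit 39) (nat_lit 0xbc0001780002fe1c9) b28599 (.hit (nat_lit 8) (nat_lit 40) (nat_lit 0xbc0001780002fea75) b28600 (.nil)))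 (.tok (nat_lit 55) (nat_lit 0xbc0001780003017b8) (.hit (nat_lit 9) (nat_lit 41) (nat_lit 0xbc0001780003017b8) b28601 (.one (nat_lit 3) (nat_lit 15) (nat_lit 47) (nat_lit 0xbc0001780002fe1c6) b28607 (.tok (nat_lit 6) (nat_lit 0xbc0001780002ff6fa) (.hit (nat_lit 10) (nat_lit 42) (nat_lit 0xbc0001780002fe77c) b28602 (.hit (nat_lit 13) (nat_lit 45) (nat_lit 0xbc0001780002fdf52) b28605 (.tok (nat_lit 55) (nat_lit 0xbc0001780002ff6fa) (.hit (nat_lit 11) (nat_lit 43) (nat_lit 0xbc0001780002ff6fa) b28603 (.hit (nat_lit 14) (nat_lit 46) (nat_lit 0xbc0001780002fed02) b28606 (.one (nat_lit 6) (nat_lit 12) (nat_lit 44) (nat_lit 0xbc0001780002fe637) b28604 (.nil)))) (.nil)))) (.nil)))) (.one (nat_lit 58) (nat_lit 16) (nat_lit 49) (nat_lit 0xbc0001780002fe109) b28608 (.nil)))))) (.tok (nat_lit 9) (nat_lit 0xbc000178000303307) (.hit (nat_lit 17) (nat_lit 0) (nat_lit 0xbc000178000300f9e) b28609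 (.tok (nat_lit 9) (nat_lit 0xbc0001780003016f7) (.hit (nat_lit 18) (nat_lit 20) (nat_lit 0xbc000178000300894) b28610 (.hit (nat_lit 21) (nat_lit 28) (nat_lit 0xbc0001780002fe591) b28613 (.one (nat_lit 56) (nat_lit 22) (nat_lit 31) (nat_lit 0xbc000178000300b49) b28614 (.tok (nat_lit 68) (nat_lit 0xbc0001780003016f7) (.hit (nat_lit 19) (nat_lit 26) (nat_lit 0xbc0001780002ffe7d) b28611 (.hit (nat_lit 23) (nat_lit 32) (nat_lit 0xbc0001780002fefcd) b28615 (.one (nat_lit 9) (nat_lit 20) (nat_lit 27) (nat_lit 0xbc0001780003016f7) b28612 (.nil)))) (.nil))))) (.tok (nat_lit 64) (nat_lit 0xbc000178000302ed0) (.hit (nat_lit 24) (nat_lit 50) (nat_lit 0xbc0001780003012f0) b28616 (.hit (nat_lit 25) (nat_lit 51) (nat_lit 0xbc000178000302ed0) b28617 (.nil))) (.tok (nat_lit 67) (nat_lit 0xbc000178000303307) (.hit (nat_lit 26) (nat_lit 52) (nat_lit 0xbc000178000303307) b28618 (.one (nat_lit 3)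 (nat_lit 32) (nat_lit 58) (nat_lit 0xbc000178000301d11) b28624 (.tok (nat_lit 9) (nat_lit 0xbc000178000302db1) (.hit (nat_lit 27) (nat_lit 53) (nat_lit 0xbc0001780003003e8) b28619 (.hit (nat_lit 30) (nat_lit 56) (nat_lit 0xbc000178000301f91) b28622 (.tok (nat_lit 67) (nat_lit 0xbc000178000302db1) (.hit (nat_lit 28) (nat_lit 54) (nat_lit 0xbc000178000302db1) b28620 (.hit (nat_lit 31) (nat_lit 57) (nat_lit 0xbc00017800030140b) b28623 (.one (nat_lit 9) (nat_lit 29) (nat_lit 55) (nat_lit 0xbc00017800030284c) b28621 (.nil)))) (.nil)))) (.nil)))) (.one (nat_lit 70) (nat_lit 33) (nat_lit 60) (nat_lit 0xbc000178000301f60) b28625 (.nil)))))) (.nil))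
noncomputable def r28_65 : Rw Blk := .tok (nat_lit 3) (nat_lit 0xbc0001780002fe49c) (.hit (nat_lit 14) (nat_lit 0) (nat_lit 0xbc0001780002fe1ee) b28640 (.tok (nat_lit 6) (nat_lit 0xbc0001780002fe49c) (.hit (nat_lit 15) (nat_lit 7) (nat_lit 0xbc0001780002fe49c) b28643 (.hit (nat_lit 16) (nat_lit 15) (nat_lit 0xbc0001780002fd427) b28644 (.nil))) (.tok (nat_lit 9) (nat_lit 0xbc0001780002fd1f9) (.hit (nat_lit 17) (nat_lit 20) (nat_lit 0xbc0001780002fbcb9) b28641 (.hit (nat_lit 18) (nat_lit 28) (nat_lit 0xbc0001780002fd1f9) b28642 (.nil))) (.nil)))) (.tok (nat_lit 6) (nat_lit 0xbc00017800030135b) (.hit (nat_lit 9) (nat_lit 0) (nat_lit 0xbc0001780002ff2d1) b28635 (.tok (nat_lit 3) (nat_lit 0xbc00017800030135b) (.hit (nat_lit 10) (nat_lit 1) (nat_lit 0xbc0001780002fedc0) b28636 (.one (nat_lit 67) (nat_lit 11) (nat_lit 2) (nat_lit 0xbc00017800030135b) b28637 (.nil))) (.tok (nat_lit 6)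 (nat_lit 0xbc0001780002fe4d0) (.hit (nat_lit 12) (nat_lit 7) (nat_lit 0xbc0001780002fe3b0) b28638 (.hit (nat_lit 13) (nat_lit 15) (nat_lit 0xbc0001780002fe4d0) b28639 (.nil))) (.nil)))) (.tok (nat_lit 9) (nat_lit 0xbc0001780002ffa89) (.hit (nat_lit 0) (nat_lit 0) (nat_lit 0xbc0001780002fea06) b28626 (.tok (nat_lit 3) (nat_lit 0xbc0001780002fea82) (.hit (nat_lit 1) (nat_lit 1) (nat_lit 0xbc0001780002fc837) b28627 (.one (nat_lit 55) (nat_lit 2) (nat_lit 3) (nat_lit 0xbc0001780002fea82) b28628 (.nil))) (.tok (nat_lit 9) (nat_lit 0xbc0001780002ffa89) (.hit (nat_lit 3) (nat_lit 20) (nat_lit 0xbc0001780002fd7f3) b28629 (.hit (nat_lit 7) (nat_lit 28) (nat_lit 0xbc0001780002fd42a) b28633 (.tok (nat_lit 67) (nat_lit 0xbc0001780002ffa89) (.hit (nat_lit 4) (nat_lit 21) (nat_lit 0xbc0001780002fe79d) b28630 (.hit (nat_lit 8) (nat_lit 29) (nat_lit 0xbc0001780002ff46d) b28634 (.tok (nat_lit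 9) (nat_lit 0xbc0001780002ffa89) (.hit (nat_lit 5) (nat_lit 22) (nat_lit 0xbc0001780002fe804) b28631 (.one (nat_lit 67) (nat_lit 6) (nat_lit 23) (nat_lit 0xbc0001780002ffa89) b28632 (.nil))) (.nil)))) (.nil)))) (.nil)))) (.nil)))
noncomputable def r28_66 : Rw Blk := .tok (nat_lit 3) (nat_lit 0xbc0001780002ffd0f) (.hit (nat_lit 0) (nat_lit 0) (nat_lit 0xbc0001780002fe44e) b28645 (.tok (nat_lit 9) (nat_lit 0xbc0001780002fee56) (.hit (nat_lit 1) (nat_lit 20) (nat_lit 0xbc0001780002fd365) b28646 (.hit (nat_lit 6) (nat_lit 28) (nat_lit 0xbc0001780002fc4ec) b28651 (.tok (nat_lit 14) (nat_lit 0xbc0001780002fe0b1) (.hit (nat_lit 2) (nat_lit 24) (nat_lit 0xbc0001780002fda7e) b28647 (.hit (nat_lit 7) (nat_lit 30) (nat_lit 0xbc0001780002fdb7b) b28652 (.one (nat_lit 6) (nat_lit 3) (nat_lit 25) (nat_lit 0xbc0001780002fe0b1) b28648 (.nil)))) (.tok (nat_lit 68) (nat_lit 0xbc0001780002fee56)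 (.hit (nat_lit 4) (nat_lit 26) (nat_lit 0xbc0001780002fe66a) b28649 (.hit (nat_lit 8) (nat_lit 32) (nat_lit 0xbc0001780002fd7f3) b28653 (.one (nat_lit 9) (nat_lit 5) (nat_lit 27) (nat_lit 0xbc0001780002fee56) b28650 (.nil)))) (.nil))))) (.tok (nat_lit 64) (nat_lit 0xbc0001780002fe16e) (.hit (nat_lit 9) (nat_lit 50) (nat_lit 0xbc0001780002fe0fb) b28654 (.hit (nat_lit 10) (nat_lit 51) (nat_lit 0xbc0001780002fe16e) b28655 (.nil))) (.tok (nat_lit 67) (nat_lit 0xbc0001780002ffd0f) (.hit (nat_lit 11) (nat_lit 52) (nat_lit 0xbc0001780002ffd0f) b28656 (.tok (nat_lit 3) (nat_lit 0xbc0001780002ff505) (.hit (nat_lit 17) (nat_lit 58) (nat_lit 0xbc0001780002fe63e) b28662 (.one (nat_lit 55) (nat_lit 18) (nat_lit 59) (nat_lit 0xbc0001780002ff505) b28663 (.nil))) (.tok (nat_lit 9) (nat_lit 0xbc0001780002ff0b8) (.hit (nat_lit 12) (nat_lit 53) (nat_lit 0xbc0001780002fe74d) b28657 (.hit (nat_lit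 15) (nat_lit 56) (nat_lit 0xbc0001780002fe282) b28660 (.tok (nat_lit 67) (nat_lit 0xbc0001780002ff0b8) (.hit (nat_lit 13) (nat_lit 54) (nat_lit 0xbc0001780002ff0b8) b28658 (.hit (nat_lit 16) (nat_lit 57) (nat_lit 0xbc0001780002fee5a) b28661 (.one (nat_lit 9) (nat_lit 14) (nat_lit 55) (nat_lit 0xbc0001780002fee2f) b28659 (.nil)))) (.nil)))) (.nil)))) (.one (nat_lit 70) (nat_lit 19) (nat_lit 60) (nat_lit 0xbc0001780002fe0a4) b28664 (.nil)))))) (.tok (nat_lit 6) (nat_lit 0xbc000178000303062) (.hit (nat_lit 20) (nat_lit 0) (nat_lit 0xbc0001780002fe474) b28665 (.tok (nat_lit 6) (nat_lit 0xbc000178000303062) (.hit (nat_lit 21) (nat_lit 7) (nat_lit 0xbc0001780002fe47b) b28666 (.hit (nat_lit 26) (nat_lit 15) (nat_lit 0xbc0001780002fc683) b28671 (.tok (nat_lit 14) (nat_lit 0xbc000178000303062) (.hit (nat_lit 22) (nat_lit 11) (nat_lit 0xbc000178000303062) b28667 (.hit (nat_lit 27) (nat_lit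 17) (nat_lit 0xbc0001780002fe605) b28672 (.one (nat_lit 9) (nat_lit 23) (nat_lit 12) (nat_lit 0xbc000178000302a5e) b28668 (.nil)))) (.tok (nat_lit 56) (nat_lit 0xbc00017800030056c) (.hit (nat_lit 24) (nat_lit 13) (nat_lit 0xbc00017800030056c) b28669 (.hit (nat_lit 29) (nat_lit 19) (nat_lit 0xbc0001780002fe499) b28674 (.one (nat_lit 6) (nat_lit 25) (nat_lit 14) (nat_lit 0xbc0001780002feb77) b28670 (.nil)))) (.one (nat_lit 68) (nat_lit 28) (nat_lit 18) (nat_lit 0xbc0001780002fe41c) b28673 (.nil)))))) (.nil))) (.nil))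
noncomputable def r28_67 : Rw Blk := .tok (nat_lit 14) (nat_lit 0xbc0001780002fd708) (.hit (nat_lit 134) (nat_lit 0) (nat_lit 0xbc0001780002fcc27) b25771 (.one (nat_lit 3) (nat_lit 135) (nat_lit 1) (nat_lit 0xbc0001780002f9e14) b25772 (.tok (nat_lit 6) (nat_lit 0xbc0001780002fd708) (.hit (nat_lit 136) (nat_lit 7) (nat_lit 0xbc0001780002fcc47) b25775 (.hit (nat_lit 137) (nat_lit 15) (nat_lit 0xbc0001780002fd708) b25776 (.nil))) (.tok (nat_lit 9) (nat_lit 0xbc0001780002fc9f2) (.hit (nat_lit 138) (nat_lit 20) (nat_lit 0xbc0001780002fc287) b25773 (.hit (nat_lit 139) (nat_lit 28) (nat_lit 0xbc0001780002fc9f2) b25774 (.nil))) (.nil))))) (.tok (nat_lit 17) (nat_lit 0xbc0001780002fdc97) (.hit (nat_lit 140) (nat_lit 0) (nat_lit 0xbc0001780002fdc97) b25765 (.one (nat_lit 3) (nat_lit 141) (nat_lit 1) (nat_lit 0xbc0001780002fad7f) b25766 (.tok (nat_lit 6) (nat_lit 0xbc0001780002fd177) (.hit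 (nat_lit 142) (nat_lit 7) (nat_lit 0xbc0001780002fce5b) b25769 (.hit (nat_lit 143) (nat_lit 15) (nat_lit 0xbc0001780002fd177) b25770 (.nil))) (.tok (nat_lit 9) (nat_lit 0xbc0001780002fdc6c) (.hit (nat_lit 144) (nat_lit 20) (nat_lit 0xbc0001780002fbe69) b25767 (.hit (nat_lit 145) (nat_lit 28) (nat_lit 0xbc0001780002fdc6c) b25768 (.nil))) (.nil))))) (.tok (nat_lit 20) (nat_lit 0xbc0001780002fe614) (.hit (nat_lit 128) (nat_lit 0) (nat_lit 0xbc0001780002fe25c) b25759 (.one (nat_lit 3) (nat_lit 129) (nat_lit 1) (nat_lit 0xbc0001780002fdaf6) b25760 (.tok (nat_lit 6) (nat_lit 0xbc0001780002fe614) (.hit (nat_lit 130) (nat_lit 7) (nat_lit 0xbc0001780002fcc84) b25763 (.hit (nat_lit 131) (nat_lit 15) (nat_lit 0xbc0001780002fe614) b25764 (.nil))) (.tok (nat_lit 9) (nat_lit 0xbc0001780002fdfff) (.hit (nat_lit 132) (nat_lit 20) (nat_lit 0xbc0001780002fdef7) b25761 (.hit (nat_lit 133) (nat_lit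 28) (nat_lit 0xbc0001780002fdfff) b25762 (.nil))) (.nil))))) (.tok (nat_lit 23) (nat_lit 0xbc0001780002fe84b) (.hit (nat_lit 122) (nat_lit 0) (nat_lit 0xbc0001780002fe2e0) b25753 (.one (nat_lit 3) (nat_lit 123) (nat_lit 1) (nat_lit 0xbc0001780002fd2f3) b25754 (.tok (nat_lit 6) (nat_lit 0xbc0001780002fe567) (.hit (nat_lit 124) (nat_lit 7) (nat_lit 0xbc0001780002fe3c2) b25757 (.hit (nat_lit 125) (nat_lit 15) (nat_lit 0xbc0001780002fe567) b25758 (.nil))) (.tok (nat_lit 9) (nat_lit 0xbc0001780002fe84b) (.hit (nat_lit 126) (nat_lit 20) (nat_lit 0xbc0001780002fc7e4) b25755 (.hit (nat_lit 127) (nat_lit 28) (nat_lit 0xbc0001780002fe84b) b25756 (.nil))) (.nil))))) (.tok (nat_lit 26) (nat_lit 0xbc0001780002fea73) (.hit (nat_lit 215) (nat_lit 0) (nat_lit 0xbc0001780002fea73) b25823 (.one (nat_lit 3) (nat_lit 216) (nat_lit 1) (nat_lit 0xbc0001780002fb5e5) b25824 (.tok (nat_lit 6) (nat_lit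 0xbc0001780002fd222) (.hit (nat_lit 217) (nat_lit 7) (nat_lit 0xbc0001780002fbb91) b25827 (.hit (nat_lit 218) (nat_lit 15) (nat_lit 0xbc0001780002fd222) b25828 (.nil))) (.tok (nat_lit 9) (nat_lit 0xbc0001780002fcf12) (.hit (nat_lit 219) (nat_lit 20) (nat_lit 0xbc0001780002fcf12) b25825 (.hit (nat_lit 220) (nat_lit 28) (nat_lit 0xbc0001780002fc0bd) b25826 (.nil))) (.nil))))) (.tok (nat_lit 29) (nat_lit 0xbc0001780002fd60e) (.hit (nat_lit 221) (nat_lit 0) (nat_lit 0xbc0001780002fd60e) b25829 (.one (nat_lit 3) (nat_lit 222) (nat_lit 1) (nat_lit 0xbc0001780002fb2c7) b25830 (.tok (nat_lit 6) (nat_lit 0xbc0001780002fd482) (.hit (nat_lit 223) (nat_lit 7) (nat_lit 0xbc0001780002fc617) b25833 (.hit (nat_lit 224) (nat_lit 15) (nat_lit 0xbc0001780002fd482) b25834 (.nil))) (.tok (nat_lit 9) (nat_lit 0xbc0001780002fd5ae) (.hit (nat_lit 225) (nat_lit 20) (nat_lit 0xbc0001780002fcca7) b25831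 (.hit (nat_lit 226) (nat_lit 28) (nat_lit 0xbc0001780002fd5ae) b25832 (.nil))) (.nil))))) (.tok (nat_lit 32) (nat_lit 0xbc0001780002fda3b) (.hit (nat_lit 233) (nat_lit 0) (nat_lit 0xbc0001780002fda3b) b25840 (.one (nat_lit 3) (nat_lit 234) (nat_lit 1) (nat_lit 0xbc0001780002fb140) b25796 (.tok (nat_lit 6) (nat_lit 0xbc0001780002fd38f) (.hit (nat_lit 235) (nat_lit 7) (nat_lit 0xbc0001780002fcc33) b25843 (.hit (nat_lit 236) (nat_lit 15) (nat_lit 0xbc0001780002fd38f) b25844 (.nil))) (.tok (nat_lit 9) (nat_lit 0xbc0001780002fc918) (.hit (nat_lit 237) (nat_lit 20) (nat_lit 0xbc0001780002fc918) b25841 (.hit (nat_lit 238) (nat_lit 28) (nat_lit 0xbc0001780002fb3ea) b25842 (.nil))) (.nil))))) (.tok (nat_lit 35) (nat_lit 0xbc0001780002fddbc) (.hit (nat_lit 227) (nat_lit 0) (nat_lit 0xbc0001780002fddbc) b25835 (.one (nat_lit 3) (nat_lit 228) (nat_lit 1) (nat_lit 0xbc0001780002fb140) b25796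 (.tok (nat_lit 6) (nat_lit 0xbc0001780002fcc77) (.hit (nat_lit 229) (nat_lit 7) (nat_lit 0xbc0001780002fcc77) b25838 (.hit (nat_lit 230) (nat_lit 15) (nat_lit 0xbc0001780002fb572) b25839 (.nil))) (.tok (nat_lit 9) (nat_lit 0xbc0001780002fd5a3) (.hit (nat_lit 231) (nat_lit 20) (nat_lit 0xbc0001780002fbb86) b25836 (.hit (nat_lit 232) (nat_lit 28) (nat_lit 0xbc0001780002fd5a3) b25837 (.nil))) (.nil))))) (.tok (nat_lit 38) (nat_lit 0xbc0001780002fed2f) (.hit (nat_lit 239) (nat_lit 0) (nat_lit 0xbc0001780002fed2f) b25800 (.one (nat_lit 3) (nat_lit 240) (nat_lit 1) (nat_lit 0xbc0001780002fb16e) b25801 (.tok (nat_lit 6) (nat_lit 0xbc0001780002fbd27) (.hit (nat_lit 241) (nat_lit 7) (nat_lit 0xbc0001780002fbd27) b25803 (.hit (nat_lit 242) (nat_lit 15) (nat_lit 0xbc0001780002fb9cf) b25804 (.nil))) (.tok (nat_lit 9) (nat_lit 0xbc0001780002fcc8a) (.hit (nat_lit 243) (nat_lit 20) (nat_lit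 0xbc0001780002fcc8a) b25797 (.hit (nat_lit 244) (nat_lit 28) (nat_lit 0xbc0001780002fb9cb) b25802 (.nil))) (.nil))))) (.tok (nat_lit 41) (nat_lit 0xbc0001780002fecd0) (.hit (nat_lit 250) (nat_lit 0) (nat_lit 0xbc0001780002fe660) b25805 (.one (nat_lit 3) (nat_lit 251) (nat_lit 1) (nat_lit 0xbc0001780002fdab5) b25806 (.tok (nat_lit 6) (nat_lit 0xbc0001780002fea98) (.hit (nat_lit 252) (nat_lit 7) (nat_lit 0xbc0001780002fea98) b25809 (.hit (nat_lit 253) (nat_lit 15) (nat_lit 0xbc0001780002fe506) b25810 (.nil))) (.tok (nat_lit 9) (nat_lit 0xbc0001780002fecd0) (.hit (nat_lit 254) (nat_lit 20) (nat_lit 0xbc0001780002fecd0) b25807 (.hit (nat_lit 255) (nat_lit 28) (nat_lit 0xbc0001780002fe6c3) b25808 (.nil))) (.nil))))) (.tok (nat_lit 44) (nat_lit 0xbc0001780002ff869) (.hit (nat_lit 278) (nat_lit 0) (nat_lit 0xbc0001780002ff869) b25817 (.one (nat_lit 3) (nat_lit 279) (nat_lit 1) (nat_lit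 0xbc0001780002fcd47) b25818 (.tok (nat_lit 6) (nat_lit 0xbc0001780002feffd) (.hit (nat_lit 280) (nat_lit 7) (nat_lit 0xbc0001780002feffd) b25821 (.hit (nat_lit 281) (nat_lit 15) (nat_lit 0xbc0001780002fdf1d) b25822 (.nil))) (.tok (nat_lit 9) (nat_lit 0xbc0001780002fed16) (.hit (nat_lit 282) (nat_lit 20) (nat_lit 0xbc0001780002fed16) b25819 (.hit (nat_lit 283) (nat_lit 28) (nat_lit 0xbc0001780002fe1e8) b25820 (.nil))) (.nil))))) (.tok (nat_lit 47) (nat_lit 0xbc000178000300000) (.hit (nat_lit 264) (nat_lit 0) (nat_lit 0xbc0001780002ffafc) b25811 (.one (nat_lit 3) (nat_lit 265) (nat_lit 1) (nat_lit 0xbc0001780002fd7ea) b25812 (.tok (nat_lit 6) (nat_lit 0xbc000178000300000) (.hit (nat_lit 266) (nat_lit 7) (nat_lit 0xbc000178000300000) b25815 (.hit (nat_lit 267) (nat_lit 15) (nat_lit 0xbc0001780002fe1b0) b25816 (.nil))) (.tok (nat_lit 9) (nat_lit 0xbc0001780002ff24c) (.hit (nat_lit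 268) (nat_lit 20) (nat_lit 0xbc0001780002ff24c) b25813 (.hit (nat_lit 269) (nat_lit 28) (nat_lit 0xbc0001780002fdc30) b25814 (.nil))) (.nil))))) (.tok (nat_lit 50) (nat_lit 0xbc0001780002fe321) (.hit (nat_lit 170) (nat_lit 0) (nat_lit 0xbc0001780002fd344) b25777 (.one (nat_lit 3) (nat_lit 171) (nat_lit 1) (nat_lit 0xbc0001780002fb653) b25778 (.tok (nat_lit 6) (nat_lit 0xbc0001780002fe321) (.hit (nat_lit 172) (nat_lit 7) (nat_lit 0xbc0001780002fe321) b25781 (.hit (nat_lit 173) (nat_lit 15) (nat_lit 0xbc0001780002fbc63) b25782 (.nil))) (.tok (nat_lit 9) (nat_lit 0xbc0001780002fc0f4) (.hit (nat_lit 174) (nat_lit 20) (nat_lit 0xbc0001780002fc0f4) b25779 (.hit (nat_lit 175) (nat_lit 28) (nat_lit 0xbc0001780002fbadb) b25780 (.nil))) (.nil))))) (.tok (nat_lit 53) (nat_lit 0xbc0001780002fe8b7) (.hit (nat_lit 181) (nat_lit 0) (nat_lit 0xbc0001780002fe3a7) b25783 (.one (nat_lit 3) (nat_lit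 182) (nat_lit 1) (nat_lit 0xbc0001780002fdaad) b25784 (.tok (nat_lit 6) (nat_lit 0xbc0001780002fe21d) (.hit (nat_lit 183) (nat_lit 7) (nat_lit 0xbc0001780002fe21d) b25787 (.hit (nat_lit 184) (nat_lit 15) (nat_lit 0xbc0001780002fdd25) b25788 (.nil))) (.tok (nat_lit 9) (nat_lit 0xbc0001780002fe8b7) (.hit (nat_lit 185) (nat_lit 20) (nat_lit 0xbc0001780002fd211) b25785 (.hit (nat_lit 186) (nat_lit 28) (nat_lit 0xbc0001780002fe8b7) b25786 (.nil))) (.nil))))) (.tok (nat_lit 56) (nat_lit 0xbc0001780002fd98c) (.hit (nat_lit 195) (nat_lit 0) (nat_lit 0xbc0001780002fd98c) b25795 (.one (nat_lit 3) (nat_lit 196) (nat_lit 1) (nat_lit 0xbc0001780002fb140) b25796 (.tok (nat_lit 6) (nat_lit 0xbc0001780002fcc47) (.hit (nat_lit 197) (nat_lit 7) (nat_lit 0xbc0001780002fcc47) b25775 (.hit (nat_lit 198) (nat_lit 15) (nat_lit 0xbc0001780002fb2ae) b25799 (.nil))) (.tok (nat_lit 9) (nat_lit 0xbc0001780002fd843)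 (.hit (nat_lit 199) (nat_lit 20) (nat_lit 0xbc0001780002fcc8a) b25797 (.hit (nat_lit 200) (nat_lit 28) (nat_lit 0xbc0001780002fd843) b25798 (.nil))) (.nil))))) (.tok (nat_lit 59) (nat_lit 0xbc0001780002fea16) (.hit (nat_lit 209) (nat_lit 0) (nat_lit 0xbc0001780002fdccc) b25789 (.one (nat_lit 3) (nat_lit 210) (nat_lit 1) (nat_lit 0xbc0001780002fbd99) b25790 (.tok (nat_lit 6) (nat_lit 0xbc0001780002fd989) (.hit (nat_lit 211) (nat_lit 7) (nat_lit 0xbc0001780002fd461) b25793 (.hit (nat_lit 212) (nat_lit 15) (nat_lit 0xbc0001780002fd989) b25794 (.nil))) (.tok (nat_lit 9) (nat_lit 0xbc0001780002fea16) (.hit (nat_lit 213) (nat_lit 20) (nat_lit 0xbc0001780002fea16) b25791 (.hit (nat_lit 214) (nat_lit 28) (nat_lit 0xbc0001780002fadab) b25792 (.nil))) (.nil))))) (.tok (nat_lit 62) (nat_lit 0xbc0001780002fd864) (.hit (nat_lit 146) (nat_lit 0) (nat_lit 0xbc0001780002fd864) b28675 (.one (nat_lit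 3) (nat_lit 147) (nat_lit 1) (nat_lit 0xbc0001780002fb194) b28676 (.tok (nat_lit 6) (nat_lit 0xbc0001780002fbb69) (.hit (nat_lit 148) (nat_lit 7) (nat_lit 0xbc0001780002fbb69) b28679 (.hit (nat_lit 149) (nat_lit 15) (nat_lit 0xbc0001780002fb76d) b28680 (.nil))) (.tok (nat_lit 9) (nat_lit 0xbc0001780002fc78c) (.hit (nat_lit 150) (nat_lit 20) (nat_lit 0xbc0001780002fc78c) b28677 (.hit (nat_lit 151) (nat_lit 28) (nat_lit 0xbc0001780002fb99f) b28678 (.nil))) (.nil))))) (.tok (nat_lit 65) (nat_lit 0xbc0001780002fe3ed) (.hit (nat_lit 152) (nat_lit 0) (nat_lit 0xbc0001780002fdfab) b28681 (.one (nat_lit 3) (nat_lit 153) (nat_lit 1) (nat_lit 0xbc0001780002fd9d9) b28682 (.tok (nat_lit 6) (nat_lit 0xbc0001780002fe032) (.hit (nat_lit 154) (nat_lit 7) (nat_lit 0xbc0001780002fd381) b28685 (.hit (nat_lit 155) (nat_lit 15) (nat_lit 0xbc0001780002fe032) b28686 (.nil))) (.tok (nat_lit 9) (nat_lit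 0xbc0001780002fe3ed) (.hit (nat_lit 156) (nat_lit 20) (nat_lit 0xbc0001780002fe3ed) b28683 (.hit (nat_lit 157) (nat_lit 28) (nat_lit 0xbc0001780002fe267) b28684 (.nil))) (.nil))))) (.tok (nat_lit 68) (nat_lit 0xbc0001780002fd56a) (.hit (nat_lit 158) (nat_lit 0) (nat_lit 0xbc0001780002fd2ab) b28692 (.one (nat_lit 3) (nat_lit 159) (nat_lit 1) (nat_lit 0xbc0001780002fb140) b25796 (.tok (nat_lit 6) (nat_lit 0xbc0001780002fd56a) (.hit (nat_lit 160) (nat_lit 7) (nat_lit 0xbc0001780002fcc8a) b25797 (.hit (nat_lit 161) (nat_lit 15) (nat_lit 0xbc0001780002fd56a) b28694 (.nil))) (.tok (nat_lit 9) (nat_lit 0xbc0001780002fc8d5) (.hit (nat_lit 162) (nat_lit 20) (nat_lit 0xbc0001780002fc8d5) b28693 (.hit (nat_lit 163) (nat_lit 28) (nat_lit 0xbc0001780002fb2ae) b25799 (.nil))) (.nil))))) (.tok (nat_lit 71) (nat_lit 0xbc0001780002fddf3) (.hit (nat_lit 164) (nat_lit 0) (nat_lit 0xbc0001780002fddf3)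 b28687 (.one (nat_lit 3) (nat_lit 165) (nat_lit 1) (nat_lit 0xbc0001780002fb140) b25796 (.tok (nat_lit 6) (nat_lit 0xbc0001780002fc712) (.hit (nat_lit 166) (nat_lit 7) (nat_lit 0xbc0001780002fc712) b28690 (.hit (nat_lit 167) (nat_lit 15) (nat_lit 0xbc0001780002fbae1) b28691 (.nil))) (.tok (nat_lit 9) (nat_lit 0xbc0001780002fca8b) (.hit (nat_lit 168) (nat_lit 20) (nat_lit 0xbc0001780002fc5d7) b28688 (.hit (nat_lit 169) (nat_lit 28) (nat_lit 0xbc0001780002fca8b) b28689 (.nil))) (.nil))))) (.nil))))))))))))))))))))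
noncomputable def r28_68 : Rw Blk := .tok (nat_lit 3) (nat_lit 0xbc0001780002fdfe3) (.hit (nat_lit 18) (nat_lit 0) (nat_lit 0xbc0001780002fdfe3) b11659 (.tok (nat_lit 6) (nat_lit 0xbc0001780002fcf6d) (.hit (nat_lit 19) (nat_lit 7) (nat_lit 0xbc0001780002fcf6d) b11660 (.hit (nat_lit 20) (nat_lit 15) (nat_lit 0xbc0001780002fce45) b11661 (.nil))) (.tok (nat_lit 9) (nat_lit 0xbc0001780002fd426) (.hit (nat_lit 21) (nat_lit 20) (nat_lit 0xbc0001780002fcfcf) b11662 (.hit (nat_lit 22) (nat_lit 28) (nat_lit 0xbc0001780002fd426) b11663 (.nil))) (.nil)))) (.tok (nat_lit 6) (nat_lit 0xbc000178000300000) (.hit (nat_lit 0) (nat_lit 0) (nat_lit 0xbc0001780002fea59) b11643 (.tok (nat_lit 3) (nat_lit 0xbc0001780002ff018) (.hit (nat_lit 1) (nat_lit 1) (nat_lit 0xbc0001780002fd338) b11644 (.one (nat_lit 67) (nat_lit 2) (nat_lit 2) (nat_lit 0xbc0001780002ff018) b15452 (.nil))) (.tok (nat_lit 6) (nat_lit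 0xbc000178000300000) (.hit (nat_lit 3) (nat_lit 7) (nat_lit 0xbc0001780002feccc) b11645 (.hit (nat_lit 7) (nat_lit 15) (nat_lit 0xbc0001780002fdb65) b11649 (.tok (nat_lit 55) (nat_lit 0xbc000178000300000) (.hit (nat_lit 4) (nat_lit 8) (nat_lit 0xbc0001780002ffb92) b11646 (.hit (nat_lit 8) (nat_lit 16) (nat_lit 0xbc0001780002ff0f8) b11650 (.tok (nat_lit 6) (nat_lit 0xbc000178000300000) (.hit (nat_lit 5) (nat_lit 9) (nat_lit 0xbc0001780002ff9af) b11647 (.one (nat_lit 55) (nat_lit 6) (nat_lit 10) (nat_lit 0xbc000178000300000) b11648 (.nil))) (.nil)))) (.nil)))) (.nil)))) (.tok (nat_lit 9) (nat_lit 0xbc0001780002ff906) (.hit (nat_lit 9) (nat_lit 0) (nat_lit 0xbc0001780002fdff6) b11651 (.tok (nat_lit 3) (nat_lit 0xbc0001780002feb8e) (.hit (nat_lit 10) (nat_lit 1) (nat_lit 0xbc0001780002fda7f) b11652 (.one (nat_lit 55) (nat_lit 11) (nat_lit 3) (nat_lit 0xbc0001780002feb8e) b15453 (.nil)))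 (.tok (nat_lit 9) (nat_lit 0xbc0001780002ff906) (.hit (nat_lit 12) (nat_lit 20) (nat_lit 0xbc0001780002fd406) b11653 (.hit (nat_lit 16) (nat_lit 28) (nat_lit 0xbc0001780002fda9c) b11657 (.tok (nat_lit 67) (nat_lit 0xbc0001780002ff906) (.hit (nat_lit 13) (nat_lit 21) (nat_lit 0xbc0001780002ff85e) b11654 (.hit (nat_lit 17) (nat_lit 29) (nat_lit 0xbc0001780002ff5a9) b11658 (.tok (nat_lit 9) (nat_lit 0xbc0001780002ff906) (.hit (nat_lit 14) (nat_lit 22) (nat_lit 0xbc0001780002ff051) b11655 (.one (nat_lit 67) (nat_lit 15) (nat_lit 23) (nat_lit 0xbc0001780002ff906) b11656 (.nil))) (.nil)))) (.nil)))) (.nil)))) (.nil)))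
noncomputable def r28_69 : Rw Blk := .tok (nat_lit 3) (nat_lit 0xbc0001780002fd4d8) (.hit (nat_lit 14) (nat_lit 0) (nat_lit 0xbc0001780002fd4d8) b28709 (.tok (nat_lit 6) (nat_lit 0xbc0001780002fbc00) (.hit (nat_lit 15) (nat_lit 7) (nat_lit 0xbc0001780002fb691) b28712 (.hit (nat_lit 16) (nat_lit 15) (nat_lit 0xbc0001780002fbc00) b28713 (.nil))) (.tok (nat_lit 9) (nat_lit 0xbc0001780002fc637) (.hit (nat_lit 17) (nat_lit 20) (nat_lit 0xbc0001780002fc637) b28710 (.hit (nat_lit 18) (nat_lit 28) (nat_lit 0xbc0001780002fc2ca) b28711 (.nil))) (.nil)))) (.tok (nat_lit 6) (nat_lit 0xbc0001780002fe2ab) (.hit (nat_lit 0) (nat_lit 0) (nat_lit 0xbc0001780002fe2ab) b28695 (.tok (nat_lit 3) (nat_lit 0xbc0001780002fd6ef) (.hit (nat_lit 1) (nat_lit 1) (nat_lit 0xbc0001780002fc44a) b28696 (.one (nat_lit 67) (nat_lit 2) (nat_lit 2) (nat_lit 0xbc0001780002fd6ef) b28697 (.nil))) (.tok (nat_lit 6) (nat_lit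 0xbc0001780002fe1ea) (.hit (nat_lit 3) (nat_lit 7) (nat_lit 0xbc0001780002fbfd4) b28698 (.hit (nat_lit 7) (nat_lit 15) (nat_lit 0xbc0001780002fc530) b28702 (.tok (nat_lit 55) (nat_lit 0xbc0001780002fe1ea) (.hit (nat_lit 4) (nat_lit 8) (nat_lit 0xbc0001780002fd736) b28699 (.hit (nat_lit 8) (nat_lit 16) (nat_lit 0xbc0001780002fe1ea) b28703 (.tok (nat_lit 6) (nat_lit 0xbc0001780002fe16d) (.hit (nat_lit 5) (nat_lit 9) (nat_lit 0xbc0001780002fd1e9) b28700 (.one (nat_lit 55) (nat_lit 6) (nat_lit 10) (nat_lit 0xbc0001780002fe16d) b28701 (.nil))) (.nil)))) (.nil)))) (.nil)))) (.tok (nat_lit 9) (nat_lit 0xbc000178000300164) (.hit (nat_lit 9) (nat_lit 0) (nat_lit 0xbc0001780002fe917) b28704 (.tok (nat_lit 3) (nat_lit 0xbc000178000300164) (.hit (nat_lit 10) (nat_lit 1) (nat_lit 0xbc0001780002fe939) b28705 (.one (nat_lit 55) (nat_lit 11) (nat_lit 3) (nat_lit 0xbc000178000300164) b28706 (.nil)))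 (.tok (nat_lit 9) (nat_lit 0xbc0001780002ff3de) (.hit (nat_lit 12) (nat_lit 20) (nat_lit 0xbc0001780002ff3de) b28707 (.hit (nat_lit 13) (nat_lit 28) (nat_lit 0xbc0001780002fe0c4) b28708 (.nil))) (.nil)))) (.nil)))
noncomputable def r28_70 : Rw Blk := .tok (nat_lit 3) (nat_lit 0xbc0001780002fe332) (.hit (nat_lit 14) (nat_lit 0) (nat_lit 0xbc0001780002fe332) b15487 (.tok (nat_lit 6) (nat_lit 0xbc0001780002fd58b) (.hit (nat_lit 15) (nat_lit 7) (nat_lit 0xbc0001780002fd58b) b15490 (.hit (nat_lit 16) (nat_lit 15) (nat_lit 0xbc0001780002fd007) b15491 (.nil))) (.tok (nat_lit 9) (nat_lit 0xbc0001780002fd0a7) (.hit (nat_lit 17) (nat_lit 20) (nat_lit 0xbc0001780002fd0a7) b15488 (.hit (nat_lit 18) (nat_lit 28) (nat_lit 0xbc0001780002faa89) b15489 (.nil))) (.nil)))) (.tok (nat_lit 6) (nat_lit 0xbc000178000300000) (.hit (nat_lit 9) (nat_lit 0) (nat_lit 0xbc000178000300000) b15482 (.tok (nat_lit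 3) (nat_lit 0xbc0001780002ffaf5) (.hit (nat_lit 10) (nat_lit 1) (nat_lit 0xbc0001780002fda4e) b15483 (.one (nat_lit 67) (nat_lit 11) (nat_lit 2) (nat_lit 0xbc0001780002ffaf5) b15484 (.nil))) (.tok (nat_lit 6) (nat_lit 0xbc0001780002ff2c2) (.hit (nat_lit 12) (nat_lit 7) (nat_lit 0xbc0001780002ff2c2) b15485 (.hit (nat_lit 13) (nat_lit 15) (nat_lit 0xbc0001780002fdd07) b15486 (.nil))) (.nil)))) (.tok (nat_lit 9) (nat_lit 0xbc0001780002ff6c3) (.hit (nat_lit 0) (nat_lit 0) (nat_lit 0xbc0001780002ff2fa) b15473 (.tok (nat_lit 3) (nat_lit 0xbc0001780002fe7a8) (.hit (nat_lit 1) (nat_lit 1) (nat_lit 0xbc0001780002fd593) b15474 (.one (nat_lit 55) (nat_lit 2) (nat_lit 3) (nat_lit 0xbc0001780002fe7a8) b15475 (.nil))) (.tok (nat_lit 9) (nat_lit 0xbc0001780002ff6c3) (.hit (nat_lit 3) (nat_lit 20) (nat_lit 0xbc0001780002fd2ad) b15476 (.hit (nat_lit 7) (nat_lit 28) (nat_lit 0xbc0001780002fd3a5)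 b15480 (.tok (nat_lit 67) (nat_lit 0xbc0001780002ff6c3) (.hit (nat_lit 4) (nat_lit 21) (nat_lit 0xbc0001780002fe8c9) b15477 (.hit (nat_lit 8) (nat_lit 29) (nat_lit 0xbc0001780002ff0ef) b15481 (.tok (nat_lit 9) (nat_lit 0xbc0001780002ff6c3) (.hit (nat_lit 5) (nat_lit 22) (nat_lit 0xbc0001780002fe8ce) b15478 (.one (nat_lit 67) (nat_lit 6) (nat_lit 23) (nat_lit 0xbc0001780002ff6c3) b15479 (.nil))) (.nil)))) (.nil)))) (.nil)))) (.nil)))
noncomputable def r28_71 : Rw Blk := .tok (nat_lit 6) (nat_lit 0xbc000178000303391) (.hit (nat_lit 10) (nat_lit 0) (nat_lit 0xbc000178000301216) b28724 (.tok (nat_lit 3) (nat_lit 0xbc0001780002ffb34) (.hit (nat_lit 11) (nat_lit 1) (nat_lit 0xbc0001780002fe805) b28725 (.one (nat_lit 14) (nat_lit 12) (nat_lit 4) (nat_lit 0xbc0001780002ffb34) b28726 (.one (nat_lit 56) (nat_lit 13) (nat_lit 6) (nat_lit 0xbc0001780002ff843) b28727 (.nil)))) (.tok (nat_lit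 40) (nat_lit 0xbc0001780002ff4f7) (.hit (nat_lit 14) (nat_lit 33) (nat_lit 0xbc0001780002ff4f7) b28728 (.hit (nat_lit 15) (nat_lit 34) (nat_lit 0xbc0001780002ff35f) b28729 (.nil))) (.tok (nat_lit 43) (nat_lit 0xbc000178000303391) (.hit (nat_lit 16) (nat_lit 35) (nat_lit 0xbc000178000303391) b28732 (.hit (nat_lit 17) (nat_lit 36) (nat_lit 0xbc0001780002fe3ff) b28733 (.nil))) (.tok (nat_lit 46) (nat_lit 0xbc000178000300687) (.hit (nat_lit 18) (nat_lit 37) (nat_lit 0xbc0001780002fe4b2) b28730 (.hit (nat_lit 19) (nat_lit 38) (nat_lit 0xbc000178000300687) b28731 (.nil))) (.nil)))))) (.tok (nat_lit 9) (nat_lit 0xbc0001780003005ed) (.hit (nat_lit 0) (nat_lit 0) (nat_lit 0xbc0001780003005ed) b28714 (.tok (nat_lit 3) (nat_lit 0xbc0001780002fdb79) (.hit (nat_lit 1) (nat_lit 1) (nat_lit 0xbc0001780002fbe85) b28715 (.one (nat_lit 14) (nat_lit 2) (nat_lit 4) (nat_lit 0xbc0001780002fd78a) b28716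 (.one (nat_lit 68) (nat_lit 3) (nat_lit 5) (nat_lit 0xbc0001780002fdb79) b28717 (.nil)))) (.tok (nat_lit 40) (nat_lit 0xbc0001780002fe032) (.hit (nat_lit 4) (nat_lit 33) (nat_lit 0xbc0001780002fdaac) b28718 (.hit (nat_lit 5) (nat_lit 34) (nat_lit 0xbc0001780002fe032) b28719 (.nil))) (.tok (nat_lit 43) (nat_lit 0xbc0001780002febb6) (.hit (nat_lit 6) (nat_lit 35) (nat_lit 0xbc0001780002febb6) b28722 (.hit (nat_lit 7) (nat_lit 36) (nat_lit 0xbc0001780002fe851) b28723 (.nil))) (.tok (nat_lit 46) (nat_lit 0xbc0001780002fec8d) (.hit (nat_lit 8) (nat_lit 37) (nat_lit 0xbc0001780002fec8d) b28720 (.hit (nat_lit 9) (nat_lit 38) (nat_lit 0xbc0001780002fe6f2) b28721 (.nil))) (.nil)))))) (.nil))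
noncomputable def r28_72 : Rw Blk := .tok (nat_lit 6) (nat_lit 0xbc0001780002fff17) (.hit (nat_lit 10) (nat_lit 0) (nat_lit 0xbc0001780002fe7ab) b28744 (.tok (nat_lit 3) (nat_lit 0xbc0001780002ff0eb) (.hit (nat_lit 11) (nat_lit 1) (nat_lit 0xbc0001780002fd0da) b28745 (.one (nat_lit 14) (nat_lit 12) (nat_lit 4) (nat_lit 0xbc0001780002ff0eb) b28746 (.one (nat_lit 56) (nat_lit 13) (nat_lit 6) (nat_lit 0xbc0001780002fe6c8) b28747 (.nil)))) (.tok (nat_lit 40) (nat_lit 0xbc0001780002fe8fc) (.hit (nat_lit 14) (nat_lit 33) (nat_lit 0xbc0001780002fe8fc) b28748 (.hit (nat_lit 15) (nat_lit 34) (nat_lit 0xbc0001780002fe2f7) b28749 (.nil))) (.tok (nat_lit 43) (nat_lit 0xbc0001780002fff17) (.hit (nat_lit 16) (nat_lit 35) (nat_lit 0xbc0001780002fff17) b28752 (.hit (nat_lit 17) (nat_lit 36) (nat_lit 0xbc0001780002fde45) b28753 (.nil))) (.tok (nat_lit 46) (nat_lit 0xbc0001780002ffaaa) (.hit (nat_lit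 18) (nat_lit 37) (nat_lit 0xbc0001780002fd6e7) b28750 (.hit (nat_lit 19) (nat_lit 38) (nat_lit 0xbc0001780002ffaaa) b28751 (.nil))) (.nil)))))) (.tok (nat_lit 9) (nat_lit 0xbc000178000300a4b) (.hit (nat_lit 0) (nat_lit 0) (nat_lit 0xbc0001780002fff2e) b28734 (.tok (nat_lit 3) (nat_lit 0xbc00017800030062a) (.hit (nat_lit 1) (nat_lit 1) (nat_lit 0xbc0001780002fd753) b28735 (.one (nat_lit 14) (nat_lit 2) (nat_lit 4) (nat_lit 0xbc00017800030062a) b28736 (.one (nat_lit 68) (nat_lit 3) (nat_lit 5) (nat_lit 0xbc0001780002ff03f) b28737 (.nil)))) (.tok (nat_lit 40) (nat_lit 0xbc0001780002ff903) (.hit (nat_lit 4) (nat_lit 33) (nat_lit 0xbc0001780002ff4c4) b28738 (.hit (nat_lit 5) (nat_lit 34) (nat_lit 0xbc0001780002ff903) b28739 (.nil))) (.tok (nat_lit 43) (nat_lit 0xbc000178000300a4b) (.hit (nat_lit 6) (nat_lit 35) (nat_lit 0xbc0001780002fe719) b28742 (.hit (nat_lit 7) (nat_lit 36) (nat_lit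 0xbc000178000300a4b) b28743 (.nil))) (.tok (nat_lit 46) (nat_lit 0xbc000178000300438) (.hit (nat_lit 8) (nat_lit 37) (nat_lit 0xbc000178000300438) b28740 (.hit (nat_lit 9) (nat_lit 38) (nat_lit 0xbc0001780002fee19) b28741 (.nil))) (.nil)))))) (.nil))
noncomputable def r28_73 : Rw Blk := .tok (nat_lit 3) (nat_lit 0x600b4ec017e980788b004d460368ac059218098630035f) (.hit (nat_lit 15) (nat_lit 0) (nat_lit 0x5fb318bf97517f764afdee25ff8f2bfb3bd7fc322fddbc) b28769 (.tok (nat_lit 9) (nat_lit 0x5fb570bf9c657f9ee2fdc1e6013d8bfb86d7fd1b2fdee8) (.hit (nat_lit 16) (nat_lit 20) (nat_lit 0x5f7e74bf500d7e9b2afc0a05fd958bf4a757e7efafc36a) b28770 (.hit (nat_lit 21) (nat_lit 28) (nat_lit 0x5f4782bf1cd17e1bb2fa5275fc2c6bedc917ebe92fa7f1) b28775 (.tok (nat_lit 14) (nat_lit 0x5f9de0bf9c657f9ee2fd056600a94bf894d7fd1b2fd320) (.hit (nat_lit 17) (nat_lit 24) (nat_lit 0x5f9904bf783d7f3162fcde85ffa42bf7f957f3a12fd0b2)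 b28771 (.hit (nat_lit 22) (nat_lit 30) (nat_lit 0x5f9842bf8cd57f0002fcd875ffe92bf7e117fd1b2fd051) b28776 (.one (nat_lit 6) (nat_lit 18) (nat_lit 25) (nat_lit 0x5f9de0bf9c657f9ee2fd056600a94bf894d7f665afd320) b28772 (.nil)))) (.one (nat_lit 56) (nat_lit 23) (nat_lit 31) (nat_lit 0x5faa88bf86217edb5afd6aa5fe182bfa29d7f9ddafd974) b28777 (.tok (nat_lit 68) (nat_lit 0x5fb570bf79917f9eb2fdc1e6013d8bfb86d7f4c22fdee8) (.hit (nat_lit 19) (nat_lit 26) (nat_lit 0x5f8f14bf6c397ed1f2fc8f05ffc78bf6bb57ee44afcbba) b28773 (.hit (nat_lit 24) (nat_lit 32) (nat_lit 0x5f891cbf54117e9af2fc5f45fe02cbf5fc57f4c22fc8be) b28778 (.one (nat_lit 9) (nat_lit 20) (nat_lit 27) (nat_lit 0x5fb570bf79917f9eb2fdc1e6013d8bfb86d7f4382fdee8) b28774 (.nil)))) (.nil)))))) (.tok (nat_lit 64) (nat_lit 0x5fa908bfb19d7f5be2fd5ea5fff18bf9f9d801022fd8b4) (.hit (nat_lit 25) (nat_lit 50) (nat_lit 0x5fa50cbf5f0d7ef05afd3ec5fd62ebf97a57f848afd6b6)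 b28779 (.hit (nat_lit 26) (nat_lit 51) (nat_lit 0x5fa908bfb19d7f5be2fd5ea5fff18bf9f9d801022fd8b4) b28780 (.nil))) (.tok (nat_lit 67) (nat_lit 0x600b4ec017e980788b004d460368ac059218098630035f) (.hit (nat_lit 27) (nat_lit 52) (nat_lit 0x600b4ec017e980765b004d460368ac059218098630035f) b28781 (.tok (nat_lit 3) (nat_lit 0x5fc450bfd575801f2afe38e601c40bfd62d7feab2fe658) (.hit (nat_lit 33) (nat_lit 58) (nat_lit 0x5fb960bfa2317ff0c2fde16601a8abfc04d7fb7dafe0e0) b28787 (.one (nat_lit 55) (nat_lit 34) (nat_lit 59) (nat_lit 0x5fc450bfd575801f2afe38e601c40bfd62d7feab2fe658) b28788 (.nil))) (.tok (nat_lit 9) (nat_lit 0x5fb79cbfc97180788afdd3460224cbfbcc57f916afdffe) (.hit (nat_lit 28) (nat_lit 53) (nat_lit 0x5fac02bf7ff97f8402fd7676006f4bfa5917f7c92fda31) b28782 (.hit (nat_lit 31) (nat_lit 56) (nat_lit 0x5fb552bfb00d7fae12fdc0f601306bfb8317f56dafded9) b28785 (.tok (nat_lit 67) (nat_lit 0x5fb79cbfc97180788afdd3460224cbfbcc57f916afdffe)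 (.hit (nat_lit 29) (nat_lit 54) (nat_lit 0x5fb26cbf8f517fc6fafda9c601a30bfb2657f916afdd66) b28783 (.hit (nat_lit 32) (nat_lit 57) (nat_lit 0x5fb79cbfc97180788afdd3460224cbfbcc57f73fafdffe) b28786 (.one (nat_lit 9) (nat_lit 30) (nat_lit 55) (nat_lit 0x5fa494bf6b117fa3c2fd3b05fe116bf96b57f52c2fd67a) b28784 (.nil)))) (.nil)))) (.nil)))) (.one (nat_lit 70) (nat_lit 35) (nat_lit 60) (nat_lit 0x5faf9abfbd857f63dafd93360033cbfacc1807e1afdbfd) b28789 (.nil)))))) (.tok (nat_lit 6) (nat_lit 0x60365ac07b75814b1b02a0e604f50c0822d81ae4b02e00) (.hit (nat_lit 0) (nat_lit 0) (nat_lit 0x5fef08c05c218087bb0017e603bc0bff0298037ab0004f) b28754 (.tok (nat_lit 6) (nat_lit 0x6014c8c0498180cac3015db603c5ac02279809e7b01743) (.hit (nat_lit 1) (nat_lit 7) (nat_lit 0x5fde8cbf54e17edbbaffea35fec8ebfce997f6e83003f5) b28755 (.hit (nat_lit 4) (nat_lit 15) (nat_lit 0x5f9278bf5d3d7ec3cafd9165fd7d8bf2cdd7f202afd20a)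 b28758 (.tok (nat_lit 14) (nat_lit 0x6014c8c0146980cac3015db603c5ac02279809e7b01743) (.hit (nat_lit 2) (nat_lit 11) (nat_lit 0x6014c8bffaf5802b6b015db5ffe2ec0199d80534b01743) b28756 (.hit (nat_lit 5) (nat_lit 17) (nat_lit 0x5fa962bfd3157f2c42fec0c5fede6bf8dc97ffc72fe534) b28759 (.one (nat_lit 9) (nat_lit 3) (nat_lit 12) (nat_lit 0x60033ec0146980cac3010df603c5ac02279809e7b015ec) b28757 (.nil)))) (.one (nat_lit 68) (nat_lit 6) (nat_lit 18) (nat_lit 0x5fcb3ec04981807ab2ffd44603920bfc21d805a3aff652) b28760 (.nil))))) (.tok (nat_lit 52) (nat_lit 0x60365ac0463180744b02a0e601598bfed29818e2b02e00) (.hit (nat_lit 7) (nat_lit 39) (nat_lit 0x60365ac0463180744b02a0e5fe19ebfed29818e2b02e00) b28761 (.hit (nat_lit 8) (nat_lit 40) (nat_lit 0x60119ac001a57fb6fb01722601598bfce3d804cc301479) b28762 (.nil))) (.tok (nat_lit 55) (nat_lit 0x602740c07b75814b1b0254d604f50c0822d81ae4b02438) (.hit (nat_lit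 9) (nat_lit 41) (nat_lit 0x602740c07b75814b1b0254d604f50c0822d81ae4b022d0) b28763 (.tok (nat_lit 3) (nat_lit 0x60198cbfea81800c9b01f0a602682c0686580dd2302438) (.hit (nat_lit 12) (nat_lit 47) (nat_lit 0x60197ebfc3857fb043019a760065ac01259807103016fa) b28766 (.one (nat_lit 67) (nat_lit 13) (nat_lit 48) (nat_lit 0x60198cbfea81800c9b01f0a602682c0686580dd2302438) b28767 (.nil))) (.tok (nat_lit 6) (nat_lit 0x600964c018518094d300d95602156bfec3980f5130057e) (.hit (nat_lit 10) (nat_lit 42) (nat_lit 0x5fe120c018518060a3008ad60093ebfec3980f513001d7) b28764 (.hit (nat_lit 11) (nat_lit 45) (nat_lit 0x600964bff08d8094d300d95602156bfdc6980280b0057e) b28765 (.nil))) (.nil)))) (.one (nat_lit 58) (nat_lit 14) (nat_lit 49) (nat_lit 0x5ffc1ac012797fac5300efa6012ccbfeb1580da5300c53) b28768 (.nil)))))) (.nil))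
noncomputable def r28_74 : Rw Blk := .tok (nat_lit 6) (nat_lit 0x5e0000c0e745821e6304ff6) (.hit (nat_lit 18) (nat_lit 0) (nat_lit 0x5e0000bfdc257fe24b00ca6) b28808 (.tok (nat_lit 14) (nat_lit 0x5e0000c06c2980afbb02c30) (.hit (nat_lit 19) (nat_lit 61) (nat_lit 0x5e0000c002f580afbb018c7) b28809 (.one (nat_lit 3) (nat_lit 20) (nat_lit 62) (nat_lit 0x5e0000bfeca1800bb300e1e) b28810 (.tok (nat_lit 6) (nat_lit 0x5e0000bfb78d7f669b009a9) (.hit (nat_lit 23) (nat_lit 65) (nat_lit 0x5e0000bf81c57eee42ff64e) b28811 (.hit (nat_lit 24) (nat_lit 66) (nat_lit 0x5e0000bfb78d7f669b009a9) b28812 (.nil))) (.tok (nat_lit 9) (nat_lit 0x5e0000c06c2980a93302c30) (.hit (nat_lit 21) (nat_lit 63) (nat_lit 0x5e0000c06c2980a93302c30) b28813 (.hit (nat_lit 22) (nat_lit 64) (nat_lit 0x5e0000bfc7f97f7f6b00be0) b28814 (.nil))) (.nil))))) (.one (nat_lit 17) (nat_lit 25) (nat_lit 67) (nat_lit 0x5e0000bfd2bd7fd52b001e7)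 b28815 (.tok (nat_lit 20) (nat_lit 0x5e0000c0e745821e6304ff6) (.hit (nat_lit 26) (nat_lit 68) (nat_lit 0x5e0000c0e745821e6304ff6) b28818 (.hit (nat_lit 27) (nat_lit 69) (nat_lit 0x5e0000bf7ab17efc0aff911) b28819 (.nil))) (.tok (nat_lit 23) (nat_lit 0x5e0000bf96a17f26c2ffefb) (.hit (nat_lit 28) (nat_lit 70) (nat_lit 0x5e0000bf7ad97ee06aff493) b28816 (.hit (nat_lit 29) (nat_lit 71) (nat_lit 0x5e0000bf96a17f26c2ffefb) b28817 (.nil))) (.one (nat_lit 26) (nat_lit 30) (nat_lit 72) (nat_lit 0x5e0000bf846d7ef132ff8e5) b28820 (.one (nat_lit 29) (nat_lit 31) (nat_lit 73) (nat_lit 0x5e0000bf9b017f7f3b00313) b28821 (.one (nat_lit 32) (nat_lit 32) (nat_lit 74) (nat_lit 0x5e0000bf7dfd7ed822ff27a) b28823 (.one (nat_lit 35) (nat_lit 33) (nat_lit 75) (nat_lit 0x5e0000bfb7d17f7c8b000bc) b28822 (.one (nat_lit 38) (nat_lit 34) (nat_lit 76) (nat_lit 0x5e0000bf91117f0da2ffd64) b28824 (.tok (nat_lit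 41) (nat_lit 0x5e0000bfc0397fc94300880) (.hit (nat_lit 35) (nat_lit 77) (nat_lit 0x5e0000bf5d057ee0daff75d) b28825 (.hit (nat_lit 36) (nat_lit 78) (nat_lit 0x5e0000bfc0397fc94300880) b28826 (.nil))) (.tok (nat_lit 44) (nat_lit 0x5e0000bf7eb57fb772ffbb2) (.hit (nat_lit 37) (nat_lit 79) (nat_lit 0x5e0000bf7eb57fb772ffbb2) b28829 (.hit (nat_lit 38) (nat_lit 80) (nat_lit 0x5e0000bf5dc57f13baffa67) b28830 (.nil))) (.tok (nat_lit 47) (nat_lit 0x5e0000bfa2057f56bb0016b) (.hit (nat_lit 39) (nat_lit 81) (nat_lit 0x5e0000bf2f5d7e4972fe1b4) b28827 (.hit (nat_lit 40) (nat_lit 82) (nat_lit 0x5e0000bfa2057f56bb0016b) b28828 (.nil))) (.one (nat_lit 62) (nat_lit 41) (nat_lit 92) (nat_lit 0x5e0000bfbfed7f5dc3002bc) b28831 (.tok (nat_lit 65) (nat_lit 0x5e0000bfca997f937b0016c) (.hit (nat_lit 42) (nat_lit 93) (nat_lit 0x5e0000bf9a0d7f6532ffd5d) b28832 (.hit (nat_lit 43) (nat_lit 94) (nat_lit 0x5e0000bfca997f937b0016c)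 b28833 (.nil))) (.tok (nat_lit 68) (nat_lit 0x5e0000c02ab97f79e300d8b) (.hit (nat_lit 44) (nat_lit 95) (nat_lit 0x5e0000c02ab97f79e300d8b) b28834 (.one (nat_lit 3) (nat_lit 48) (nat_lit 99) (nat_lit 0x5e0000bf7dbd7ee632ff54c) b28838 (.one (nat_lit 6) (nat_lit 45) (nat_lit 96) (nat_lit 0x5e0000bf79257edd02ff426) b28835 (.tok (nat_lit 9) (nat_lit 0x5e0000bf6b1d7ec0f2ff0a4) (.hit (nat_lit 46) (nat_lit 97) (nat_lit 0x5e0000bf6b1d7ec0f2ff0a4) b28836 (.hit (nat_lit 47) (nat_lit 98) (nat_lit 0x5e0000bf4f057e88c2fe99e) b28837 (.nil))) (.nil))))) (.one (nat_lit 71) (nat_lit 49) (nat_lit 100) (nat_lit 0x5e0000bf8bc97f0c32ff47b) b28839 (.nil)))))))))))))))))) (.tok (nat_lit 52) (nat_lit 0x5e0000c08e59812d4b03a83) (.hit (nat_lit 13) (nat_lit 0) (nat_lit 0x5e0000c07a79812d4b034b6) b28803 (.tok (nat_lit 6) (nat_lit 0x5e0000c08e5980a9eb03a83) (.hit (nat_lit 14) (nat_lit 7) (nat_lit 0x5e0000c06cb58084cb031d0)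 b28806 (.hit (nat_lit 15) (nat_lit 15) (nat_lit 0x5e0000c08e5980a9eb03a83) b28807 (.nil))) (.tok (nat_lit 9) (nat_lit 0x5e0000bff6a17f80bb00ad3) (.hit (nat_lit 16) (nat_lit 20) (nat_lit 0x5e0000bf89097efccaff4df) b28804 (.hit (nat_lit 17) (nat_lit 28) (nat_lit 0x5e0000bff6a17f80bb00ad3) b28805 (.nil))) (.nil)))) (.tok (nat_lit 55) (nat_lit 0x5e0000bfefbd7fc5c300dfe) (.hit (nat_lit 8) (nat_lit 0) (nat_lit 0x5e0000bfefbd7fb0b300b5c) b28798 (.tok (nat_lit 3) (nat_lit 0x5e0000bfeb957fc1e300d82) (.hit (nat_lit 9) (nat_lit 1) (nat_lit 0x5e0000bfaa897f3fcaffd3f) b28799 (.one (nat_lit 67) (nat_lit 10) (nat_lit 2) (nat_lit 0x5e0000bfeb957fc1e300d82) b28800 (.nil))) (.tok (nat_lit 6) (nat_lit 0x5e0000bfed857fc5c300dfe) (.hit (nat_lit 11) (nat_lit 7) (nat_lit 0x5e0000bfed857fc5c300dfe) b28801 (.hit (nat_lit 12) (nat_lit 15) (nat_lit 0x5e0000bf9a6d7f1f92ff938) b28802 (.nil))) (.nil)))) (.tok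 (nat_lit 58) (nat_lit 0x5e0000c0464180773b0242d) (.hit (nat_lit 0) (nat_lit 0) (nat_lit 0x5e0000c03b097fdbcb01a56) b28790 (.tok (nat_lit 3) (nat_lit 0x5e0000c0464180773b0242d) (.hit (nat_lit 1) (nat_lit 1) (nat_lit 0x5e0000bff59d7fd5f301004) b28791 (.one (nat_lit 55) (nat_lit 2) (nat_lit 3) (nat_lit 0x5e0000c0464180773b0242d) b28792 (.nil))) (.tok (nat_lit 9) (nat_lit 0x5e0000c0395d805d73020f4) (.hit (nat_lit 3) (nat_lit 20) (nat_lit 0x5e0000bfe2917fafdb00b41) b28793 (.hit (nat_lit 6) (nat_lit 28) (nat_lit 0x5e0000bfead97fc06b00d53) b28796 (.tok (nat_lit 67) (nat_lit 0x5e0000c0395d805d73020f4) (.hit (nat_lit 4) (nat_lit 21) (nat_lit 0x5e0000c01861801b7b018b5) b28794 (.hit (nat_lit 7) (nat_lit 29) (nat_lit 0x5e0000c037998059eb02083) b28797 (.one (nat_lit 9) (nat_lit 5) (nat_lit 22) (nat_lit 0x5e0000c0395d805d73020f4) b28795 (.nil)))) (.nil)))) (.nil)))) (.nil))))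
noncomputable def r28_75 : Rw Blk := .tok (nat_lit 3) (nat_lit 0x5e0000c0beb981829303c24) (.hit (nat_lit 0) (nat_lit 0) (nat_lit 0x5e0000c0beb9817f0b0379a) b28840 (.tok (nat_lit 9) (nat_lit 0x5e0000c03b9d80ac3b01d78) (.hit (nat_lit 1) (nat_lit 20) (nat_lit 0x5e0000bf8e297f5be2ff21b) b28841 (.hit (nat_lit 6) (nat_lit 28) (nat_lit 0x5e0000bf8a457f9a9aff122) b28846 (.tok (nat_lit 14) (nat_lit 0x5e0000bff2fd80ac3b00b50) (.hit (nat_lit 2) (nat_lit 24) (nat_lit 0x5e0000bfee7d805a5300a30) b28842 (.hit (nat_lit 7) (nat_lit 30) (nat_lit 0x5e0000bff2fd80794b00b50) b28847 (.one (nat_lit 6) (nat_lit 3) (nat_lit 25) (nat_lit 0x5e0000bfe0c180ac3b006c1) b28843 (.nil)))) (.tok (nat_lit 68) (nat_lit 0x5e0000c03b9d80984b01d78) (.hit (nat_lit 4) (nat_lit 26) (nat_lit 0x5e0000bfd135801cab002de) b28844 (.hit (nat_lit 8) (nat_lit 32) (nat_lit 0x5e0000bfdd257ff57b005da) b28848 (.one (nat_lit 9) (nat_lit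 5) (nat_lit 27) (nat_lit 0x5e0000c03b9d80984b01d78) b28845 (.nil)))) (.nil))))) (.tok (nat_lit 64) (nat_lit 0x5e0000c02fad811d0b01a7c) (.hit (nat_lit 9) (nat_lit 50) (nat_lit 0x5e0000c02fad811d0b01a7c) b28849 (.hit (nat_lit 10) (nat_lit 51) (nat_lit 0x5e0000c00c2980d63b0119b) b28850 (.nil))) (.tok (nat_lit 67) (nat_lit 0x5e0000c0b6d581829303c24) (.hit (nat_lit 11) (nat_lit 52) (nat_lit 0x5e0000c0b6d581829303c24) b28851 (.tok (nat_lit 3) (nat_lit 0x5e0000c0252980edfb017db) (.hit (nat_lit 17) (nat_lit 58) (nat_lit 0x5e0000c0252980c1eb017db) b28857 (.one (nat_lit 55) (nat_lit 18) (nat_lit 59) (nat_lit 0x5e0000c0163d80edfb01420) b28858 (.nil))) (.tok (nat_lit 9) (nat_lit 0x5e0000c0418180e3d301ef1) (.hit (nat_lit 12) (nat_lit 53) (nat_lit 0x5e0000c00ffd809e4b01290) b28852 (.hit (nat_lit 15) (nat_lit 56) (nat_lit 0x5e0000c00c81808da3011b1) b28855 (.tok (nat_lit 67) (nat_lit 0x5e0000c0418180e3d301ef1)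 (.hit (nat_lit 13) (nat_lit 54) (nat_lit 0x5e0000c0418180e3d301ef1) b28853 (.hit (nat_lit 16) (nat_lit 57) (nat_lit 0x5e0000c034c180b52301bc1) b28856 (.one (nat_lit 9) (nat_lit 14) (nat_lit 55) (nat_lit 0x5e0000c01bed8076e30158c) b28854 (.nil)))) (.nil)))) (.nil)))) (.one (nat_lit 70) (nat_lit 19) (nat_lit 60) (nat_lit 0x5e0000bfef5180554b00a65) b28859 (.nil)))))) (.tok (nat_lit 6) (nat_lit 0x5e0000c0db7581d82b04513) (.hit (nat_lit 20) (nat_lit 0) (nat_lit 0x5e0000c0cad181a2d303bfd) b28860 (.tok (nat_lit 6) (nat_lit 0x5e0000c0db7581d82b04513) (.hit (nat_lit 21) (nat_lit 7) (nat_lit 0x5e0000c06e9581137b02ba1) b28861 (.hit (nat_lit 24) (nat_lit 15) (nat_lit 0x5e0000c034ad808da301e47) b28864 (.tok (nat_lit 14) (nat_lit 0x5e0000c0db7581d82b04321) (.hit (nat_lit 22) (nat_lit 11) (nat_lit 0x5e0000c0a715817c1b03899) b28862 (.hit (nat_lit 25) (nat_lit 17) (nat_lit 0x5e0000c08f19812c1b03160)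 b28865 (.one (nat_lit 9) (nat_lit 23) (nat_lit 12) (nat_lit 0x5e0000c0db7581d82b04321) b28863 (.nil)))) (.one (nat_lit 68) (nat_lit 26) (nat_lit 18) (nat_lit 0x5e0000c0d3d181c60304513) b28866 (.nil))))) (.nil))) (.nil))
noncomputable def r28_76 : Rw Blk := .tok (nat_lit 6) (nat_lit 0xbc000178000306f8b) (.hit (nat_lit 0) (nat_lit 0) (nat_lit 0xbc000178000302d37) b28867 (.tok (nat_lit 14) (nat_lit 0xbc000178000306f8b) (.hit (nat_lit 1) (nat_lit 61) (nat_lit 0xbc000178000304580) b28868 (.one (nat_lit 3) (nat_lit 2) (nat_lit 62) (nat_lit 0xbc0001780003034b9) b28869 (.tok (nat_lit 6) (nat_lit 0xbc00017800030325b) (.hit (nat_lit 5) (nat_lit 65) (nat_lit 0xbc00017800030325b) b28870 (.hit (nat_lit 6) (nat_lit 66) (nat_lit 0xbc000178000301779) b28871 (.nil))) (.tok (nat_lit 9) (nat_lit 0xbc000178000306f8b) (.hit (nat_lit 3) (nat_lit 63) (nat_lit 0xbc000178000306f8b) b28872 (.hit (nat_lit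 4) (nat_lit 64) (nat_lit 0xbc000178000302d6a) b28873 (.nil))) (.nil))))) (.one (nat_lit 17) (nat_lit 7) (nat_lit 67) (nat_lit 0xbc000178000302513) b28874 (.tok (nat_lit 20) (nat_lit 0xbc000178000306122) (.hit (nat_lit 8) (nat_lit 68) (nat_lit 0xbc000178000306122) b28877 (.hit (nat_lit 9) (nat_lit 69) (nat_lit 0xbc0001780003022f0) b28878 (.nil))) (.tok (nat_lit 23) (nat_lit 0xbc000178000301da0) (.hit (nat_lit 10) (nat_lit 70) (nat_lit 0xbc000178000301da0) b28875 (.hit (nat_lit 11) (nat_lit 71) (nat_lit 0xbc00017800030181d) b28876 (.nil))) (.one (nat_lit 38) (nat_lit 12) (nat_lit 76) (nat_lit 0xbc000178000302cfe) b28879 (.tok (nat_lit 41) (nat_lit 0xbc00017800030216c) (.hit (nat_lit 13) (nat_lit 77) (nat_lit 0xbc000178000300e08) b28880 (.hit (nat_lit 14) (nat_lit 78) (nat_lit 0xbc00017800030216c) b28881 (.nil))) (.tok (nat_lit 44) (nat_lit 0xbc00017800030340f) (.hit (nat_lit 15)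 (nat_lit 79) (nat_lit 0xbc00017800030340f) b28884 (.hit (nat_lit 16) (nat_lit 80) (nat_lit 0xbc000178000301d7a) b28885 (.nil))) (.tok (nat_lit 47) (nat_lit 0xbc000178000301a17) (.hit (nat_lit 17) (nat_lit 81) (nat_lit 0xbc000178000300e05) b28882 (.hit (nat_lit 18) (nat_lit 82) (nat_lit 0xbc000178000301a17) b28883 (.nil))) (.one (nat_lit 62) (nat_lit 19) (nat_lit 92) (nat_lit 0xbc00017800030293e) b28886 (.tok (nat_lit 65) (nat_lit 0xbc000178000302386) (.hit (nat_lit 20) (nat_lit 93) (nat_lit 0xbc00017800030125a) b28887 (.hit (nat_lit 21) (nat_lit 94) (nat_lit 0xbc000178000302386) b28888 (.nil))) (.tok (nat_lit 68) (nat_lit 0xbc000178000304213) (.hit (nat_lit 22) (nat_lit 95) (nat_lit 0xbc000178000304213) b28889 (.one (nat_lit 3) (nat_lit 26) (nat_lit 99) (nat_lit 0xbc0001780003024fd) b28893 (.one (nat_lit 6) (nat_lit 23) (nat_lit 96) (nat_lit 0xbc00017800030285b) b28890 (.tok (nat_lit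 9) (nat_lit 0xbc000178000301dc0) (.hit (nat_lit 24) (nat_lit 97) (nat_lit 0xbc000178000301dc0) b28891 (.hit (nat_lit 25) (nat_lit 98) (nat_lit 0xbc0001780003017bb) b28892 (.nil))) (.nil))))) (.one (nat_lit 71) (nat_lit 27) (nat_lit 100) (nat_lit 0xbc000178000300cbf) b28894 (.nil)))))))))))))) (.nil)
noncomputable def r28_77 : Rw Blk := .tok (nat_lit 6) (nat_lit 0xbc000178000303055) (.hit (nat_lit 18) (nat_lit 0) (nat_lit 0xbc0001780002fdc03) b28913 (.tok (nat_lit 14) (nat_lit 0xbc000178000303055) (.hit (nat_lit 19) (nat_lit 61) (nat_lit 0xbc000178000300103) b28914 (.one (nat_lit 3) (nat_lit 20) (nat_lit 62) (nat_lit 0xbc0001780002feee3) b28915 (.tok (nat_lit 6) (nat_lit 0xbc0001780002fe42e) (.hit (nat_lit 23) (nat_lit 65) (nat_lit 0xbc0001780002fdefe) b28916 (.hit (nat_lit 24) (nat_lit 66) (nat_lit 0xbc0001780002fe42e) b28917 (.nil))) (.tok (nat_lit 9) (nat_lit 0xbc000178000303055)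 (.hit (nat_lit 21) (nat_lit 63) (nat_lit 0xbc000178000303055) b28918 (.hit (nat_lit 22) (nat_lit 64) (nat_lit 0xbc0001780002ff015) b28919 (.nil))) (.nil))))) (.one (nat_lit 17) (nat_lit 25) (nat_lit 67) (nat_lit 0xbc0001780002fe692) b28920 (.tok (nat_lit 20) (nat_lit 0xbc0001780003010cb) (.hit (nat_lit 26) (nat_lit 68) (nat_lit 0xbc0001780003010cb) b28923 (.hit (nat_lit 27) (nat_lit 69) (nat_lit 0xbc0001780002fe239) b28924 (.nil))) (.tok (nat_lit 23) (nat_lit 0xbc0001780002fe3bb) (.hit (nat_lit 28) (nat_lit 70) (nat_lit 0xbc0001780002fd340) b28921 (.hit (nat_lit 29) (nat_lit 71) (nat_lit 0xbc0001780002fe3bb) b28922 (.nil))) (.one (nat_lit 26) (nat_lit 30) (nat_lit 72) (nat_lit 0xbc0001780002fe66f) b28925 (.one (nat_lit 29) (nat_lit 31) (nat_lit 73) (nat_lit 0xbc0001780002fe7db) b28926 (.one (nat_lit 32) (nat_lit 32) (nat_lit 74) (nat_lit 0xbc0001780002fded1) b28928 (.one (nat_lit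 35) (nat_lit 33) (nat_lit 75) (nat_lit 0xbc0001780002feed5) b28927 (.one (nat_lit 38) (nat_lit 34) (nat_lit 76) (nat_lit 0xbc0001780002fe260) b28929 (.tok (nat_lit 41) (nat_lit 0xbc0001780002fe02b) (.hit (nat_lit 35) (nat_lit 77) (nat_lit 0xbc0001780002fd5db) b28930 (.hit (nat_lit 36) (nat_lit 78) (nat_lit 0xbc0001780002fe02b) b28931 (.nil))) (.tok (nat_lit 44) (nat_lit 0xbc0001780002fd90b) (.hit (nat_lit 37) (nat_lit 79) (nat_lit 0xbc0001780002fd505) b28934 (.hit (nat_lit 38) (nat_lit 80) (nat_lit 0xbc0001780002fd90b) b28935 (.nil))) (.tok (nat_lit 47) (nat_lit 0xbc0001780002fe01c) (.hit (nat_lit 39) (nat_lit 81) (nat_lit 0xbc0001780002fb9a5) b28932 (.hit (nat_lit 40) (nat_lit 82) (nat_lit 0xbc0001780002fe01c) b28933 (.nil))) (.one (nat_lit 62) (nat_lit 41) (nat_lit 92) (nat_lit 0xbc0001780002fe961) b28936 (.tok (nat_lit 65) (nat_lit 0xbc0001780002fe4b1) (.hit (nat_lit 42) (nat_lit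 93) (nat_lit 0xbc0001780002fdca3) b28937 (.hit (nat_lit 43) (nat_lit 94) (nat_lit 0xbc0001780002fe4b1) b28938 (.nil))) (.tok (nat_lit 68) (nat_lit 0xbc0001780002ff907) (.hit (nat_lit 44) (nat_lit 95) (nat_lit 0xbc0001780002ff907) b28939 (.one (nat_lit 3) (nat_lit 48) (nat_lit 99) (nat_lit 0xbc0001780002fd2d4) b28943 (.one (nat_lit 6) (nat_lit 45) (nat_lit 96) (nat_lit 0xbc0001780002fdefe) b28940 (.tok (nat_lit 9) (nat_lit 0xbc0001780002fdf6a) (.hit (nat_lit 46) (nat_lit 97) (nat_lit 0xbc0001780002fdf6a) b28941 (.hit (nat_lit 47) (nat_lit 98) (nat_lit 0xbc0001780002fc605) b28942 (.nil))) (.nil))))) (.one (nat_lit 71) (nat_lit 49) (nat_lit 100) (nat_lit 0xbc0001780002fe048) b28944 (.nil)))))))))))))))))) (.tok (nat_lit 52) (nat_lit 0xbc000178000302301) (.hit (nat_lit 13) (nat_lit 0) (nat_lit 0xbc0001780003013eb) b28908 (.tok (nat_lit 6) (nat_lit 0xbc000178000302301) (.hit (nat_lit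 14) (nat_lit 7) (nat_lit 0xbc000178000301f68) b28911 (.hit (nat_lit 15) (nat_lit 15) (nat_lit 0xbc000178000302301) b28912 (.nil))) (.tok (nat_lit 9) (nat_lit 0xbc0001780002ffbd7) (.hit (nat_lit 16) (nat_lit 20) (nat_lit 0xbc0001780002fe784) b28909 (.hit (nat_lit 17) (nat_lit 28) (nat_lit 0xbc0001780002ffbd7) b28910 (.nil))) (.nil)))) (.tok (nat_lit 55) (nat_lit 0xbc00017800030047f) (.hit (nat_lit 8) (nat_lit 0) (nat_lit 0xbc0001780002ff5a3) b28903 (.tok (nat_lit 3) (nat_lit 0xbc00017800030047f) (.hit (nat_lit 9) (nat_lit 1) (nat_lit 0xbc0001780002feebf) b28904 (.one (nat_lit 67) (nat_lit 10) (nat_lit 2) (nat_lit 0xbc00017800030047f) b28905 (.nil))) (.tok (nat_lit 6) (nat_lit 0xbc0001780002fef25) (.hit (nat_lit 11) (nat_lit 7) (nat_lit 0xbc0001780002fef25) b28906 (.hit (nat_lit 12) (nat_lit 15) (nat_lit 0xbc0001780002fe2c8) b28907 (.nil))) (.nil)))) (.tok (nat_lit 58) (nat_lit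 0xbc00017800030139a) (.hit (nat_lit 0) (nat_lit 0) (nat_lit 0xbc0001780002ffd67) b28895 (.tok (nat_lit 3) (nat_lit 0xbc0001780003008ed) (.hit (nat_lit 1) (nat_lit 1) (nat_lit 0xbc0001780002ff7fe) b28896 (.one (nat_lit 55) (nat_lit 2) (nat_lit 3) (nat_lit 0xbc0001780003008ed) b28897 (.nil))) (.tok (nat_lit 9) (nat_lit 0xbc00017800030139a) (.hit (nat_lit 3) (nat_lit 20) (nat_lit 0xbc00017800030047d) b28898 (.hit (nat_lit 6) (nat_lit 28) (nat_lit 0xbc0001780002ff752) b28901 (.tok (nat_lit 67) (nat_lit 0xbc00017800030139a) (.hit (nat_lit 4) (nat_lit 21) (nat_lit 0xbc000178000300e5d) b28899 (.hit (nat_lit 7) (nat_lit 29) (nat_lit 0xbc00017800030085f) b28902 (.one (nat_lit 9) (nat_lit 5) (nat_lit 22) (nat_lit 0xbc00017800030139a) b28900 (.nil)))) (.nil)))) (.nil)))) (.nil))))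
noncomputable def r28_78 : Rw Blk := .tok (nat_lit 3) (nat_lit 0xbc000178000303eef) (.hit (nat_lit 0) (nat_lit 0) (nat_lit 0xbc00017800030282a) b28945 (.tok (nat_lit 9) (nat_lit 0xbc0001780003017ae) (.hit (nat_lit 1) (nat_lit 20) (nat_lit 0xbc0001780002ff0fa) b28946 (.hit (nat_lit 6) (nat_lit 28) (nat_lit 0xbc0001780002fe7b1) b28951 (.tok (nat_lit 14) (nat_lit 0xbc000178000300de1) (.hit (nat_lit 2) (nat_lit 24) (nat_lit 0xbc000178000300a07) b28947 (.hit (nat_lit 7) (nat_lit 30) (nat_lit 0xbc0001780002fff46) b28952 (.one (nat_lit 6) (nat_lit 3) (nat_lit 25) (nat_lit 0xbc000178000300de1) b28948 (.nil)))) (.tok (nat_lit 68) (nat_lit 0xbc0001780003017ae) (.hit (nat_lit 4) (nat_lit 26) (nat_lit 0xbc0001780003003b0) b28949 (.hit (nat_lit 8) (nat_lit 32) (nat_lit 0xbc0001780002ffbdc) b28953 (.one (nat_lit 9) (nat_lit 5) (nat_lit 27) (nat_lit 0xbc0001780003017ae) b28950 (.nil)))) (.nil)))))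 (.tok (nat_lit 64) (nat_lit 0xbc00017800030180e) (.hit (nat_lit 9) (nat_lit 50) (nat_lit 0xbc00017800030180e) b28954 (.hit (nat_lit 10) (nat_lit 51) (nat_lit 0xbc000178000300a7d) b28955 (.nil))) (.tok (nat_lit 67) (nat_lit 0xbc000178000303eef) (.hit (nat_lit 11) (nat_lit 52) (nat_lit 0xbc000178000303eef) b28956 (.tok (nat_lit 3) (nat_lit 0xbc000178000301990) (.hit (nat_lit 17) (nat_lit 58) (nat_lit 0xbc00017800030171a) b28962 (.one (nat_lit 55) (nat_lit 18) (nat_lit 59) (nat_lit 0xbc000178000301990) b28963 (.nil))) (.tok (nat_lit 9) (nat_lit 0xbc00017800030197e) (.hit (nat_lit 12) (nat_lit 53) (nat_lit 0xbc00017800030142d) b28957 (.hit (nat_lit 15) (nat_lit 56) (nat_lit 0xbc000178000300eb7) b28960 (.tok (nat_lit 67) (nat_lit 0xbc00017800030197e) (.hit (nat_lit 13) (nat_lit 54) (nat_lit 0xbc00017800030197e) b28958 (.hit (nat_lit 16) (nat_lit 57) (nat_lit 0xbc00017800030142a) b28961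 (.one (nat_lit 9) (nat_lit 14) (nat_lit 55) (nat_lit 0xbc000178000301813) b28959 (.nil)))) (.nil)))) (.nil)))) (.one (nat_lit 70) (nat_lit 19) (nat_lit 60) (nat_lit 0xbc0001780002ffd62) b28964 (.nil)))))) (.tok (nat_lit 6) (nat_lit 0xbc000178000305db8) (.hit (nat_lit 20) (nat_lit 0) (nat_lit 0xbc00017800030264c) b28965 (.tok (nat_lit 6) (nat_lit 0xbc000178000305db8) (.hit (nat_lit 21) (nat_lit 7) (nat_lit 0xbc000178000303400) b28966 (.hit (nat_lit 24) (nat_lit 15) (nat_lit 0xbc000178000300907) b28969 (.tok (nat_lit 14) (nat_lit 0xbc000178000305db8) (.hit (nat_lit 22) (nat_lit 11) (nat_lit 0xbc000178000305db8) b28967 (.hit (nat_lit 25) (nat_lit 17) (nat_lit 0xbc0001780003019f8) b28970 (.one (nat_lit 9) (nat_lit 23) (nat_lit 12) (nat_lit 0xbc000178000303f8d) b28968 (.nil)))) (.one (nat_lit 68) (nat_lit 26) (nat_lit 18) (nat_lit 0xbc000178000302d6a) b28971 (.nil))))) (.nil))) (.nil))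
noncomputable def r28_79 : Rw Blk := .tok (nat_lit 9) (nat_lit 0xbc000178000301500) (.hit (nat_lit 21) (nat_lit 0) (nat_lit 0xbc0001780002feddc) b28993 (.tok (nat_lit 14) (nat_lit 0xbc0001780003010db) (.hit (nat_lit 22) (nat_lit 61) (nat_lit 0xbc0001780002ffd26) b28994 (.one (nat_lit 3) (nat_lit 23) (nat_lit 62) (nat_lit 0xbc0001780002ff699) b28995 (.tok (nat_lit 6) (nat_lit 0xbc0001780003010db) (.hit (nat_lit 26) (nat_lit 65) (nat_lit 0xbc0001780003010db) b28996 (.hit (nat_lit 27) (nat_lit 66) (nat_lit 0xbc0001780002ffaa6) b28997 (.nil))) (.tok (nat_lit 9) (nat_lit 0xbc0001780002ff0b9) (.hit (nat_lit 24) (nat_lit 63) (nat_lit 0xbc0001780002fdfb4) b28998 (.hit (nat_lit 25) (nat_lit 64) (nat_lit 0xbc0001780002ff0b9) b28999 (.nil))) (.nil))))) (.one (nat_lit 17) (nat_lit 28) (nat_lit 67) (nat_lit 0xbc0001780002ff95c) b29000 (.tok (nat_lit 20) (nat_lit 0xbc0001780002ffdca) (.hit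 (nat_lit 29) (nat_lit 68) (nat_lit 0xbc0001780002fd181) b29003 (.hit (nat_lit 30) (nat_lit 69) (nat_lit 0xbc0001780002ffdca) b29004 (.nil))) (.tok (nat_lit 23) (nat_lit 0xbc0001780002ff8eb) (.hit (nat_lit 31) (nat_lit 70) (nat_lit 0xbc0001780002ff8eb) b29001 (.hit (nat_lit 32) (nat_lit 71) (nat_lit 0xbc0001780002fede2) b29002 (.nil))) (.one (nat_lit 26) (nat_lit 33) (nat_lit 72) (nat_lit 0xbc0001780002ff3da) b29005 (.one (nat_lit 29) (nat_lit 34) (nat_lit 73) (nat_lit 0xbc0001780002fe69d) b29006 (.one (nat_lit 32) (nat_lit 35) (nat_lit 74) (nat_lit 0xbc0001780002ffbbb) b29008 (.one (nat_lit 35) (nat_lit 36) (nat_lit 75) (nat_lit 0xbc0001780002fe2be) b29007 (.one (nat_lit 50) (nat_lit 37) (nat_lit 83) (nat_lit 0xbc0001780002fef6d) b29018 (.tok (nat_lit 53) (nat_lit 0xbc0001780002ff4b0) (.hit (nat_lit 38) (nat_lit 84) (nat_lit 0xbc0001780002fe929) b29019 (.hit (nat_lit 39) (nat_lit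 85) (nat_lit 0xbc0001780002ff4b0) b29020 (.nil))) (.tok (nat_lit 56) (nat_lit 0xbc0001780002ff916) (.hit (nat_lit 40) (nat_lit 86) (nat_lit 0xbc0001780002ff916) b29021 (.one (nat_lit 3) (nat_lit 44) (nat_lit 90) (nat_lit 0xbc0001780002fd356) b29025 (.tok (nat_lit 6) (nat_lit 0xbc0001780002fe0c6) (.hit (nat_lit 42) (nat_lit 88) (nat_lit 0xbc0001780002fe0c6) b29023 (.hit (nat_lit 43) (nat_lit 89) (nat_lit 0xbc0001780002fd861) b29024 (.nil))) (.one (nat_lit 9) (nat_lit 41) (nat_lit 87) (nat_lit 0xbc0001780002fd830) b29022 (.nil))))) (.one (nat_lit 59) (nat_lit 45) (nat_lit 91) (nat_lit 0xbc0001780002ff01c) b29026 (.one (nat_lit 62) (nat_lit 46) (nat_lit 92) (nat_lit 0xbc0001780002fe082) b29009 (.tok (nat_lit 65) (nat_lit 0xbc0001780002ff15c) (.hit (nat_lit 47) (nat_lit 93) (nat_lit 0xbc0001780002ff15c) b29010 (.hit (nat_lit 48) (nat_lit 94) (nat_lit 0xbc0001780002fd9c2) b29011 (.nil)))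 (.tok (nat_lit 68) (nat_lit 0xbc000178000301500) (.hit (nat_lit 49) (nat_lit 95) (nat_lit 0xbc000178000300e4a) b29012 (.one (nat_lit 3) (nat_lit 53) (nat_lit 99) (nat_lit 0xbc0001780002fff10) b29016 (.one (nat_lit 6) (nat_lit 50) (nat_lit 96) (nat_lit 0xbc000178000301500) b29013 (.tok (nat_lit 9) (nat_lit 0xbc0001780002ffca5) (.hit (nat_lit 51) (nat_lit 97) (nat_lit 0xbc0001780002ffca5) b29014 (.hit (nat_lit 52) (nat_lit 98) (nat_lit 0xbc0001780002fe2f5) b29015 (.nil))) (.nil))))) (.one (nat_lit 71) (nat_lit 54) (nat_lit 100) (nat_lit 0xbc0001780002fd965) b29017 (.nil)))))))))))))))))) (.tok (nat_lit 64) (nat_lit 0xbc000178000301a25) (.hit (nat_lit 16) (nat_lit 0) (nat_lit 0xbc0001780003014de) b28988 (.tok (nat_lit 6) (nat_lit 0xbc00017800030197a) (.hit (nat_lit 17) (nat_lit 7) (nat_lit 0xbc0001780002ff5c2) b28991 (.hit (nat_lit 18) (nat_lit 15) (nat_lit 0xbc00017800030197a) b28992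 (.nil))) (.tok (nat_lit 9) (nat_lit 0xbc000178000301a25) (.hit (nat_lit 19) (nat_lit 20) (nat_lit 0xbc000178000301a25) b28989 (.hit (nat_lit 20) (nat_lit 28) (nat_lit 0xbc000178000301179) b28990 (.nil))) (.nil)))) (.tok (nat_lit 67) (nat_lit 0xbc0001780003014ce) (.hit (nat_lit 8) (nat_lit 0) (nat_lit 0xbc0001780003014ce) b28980 (.tok (nat_lit 3) (nat_lit 0xbc0001780002ffe6e) (.hit (nat_lit 9) (nat_lit 1) (nat_lit 0xbc0001780002ffa9a) b28981 (.one (nat_lit 55) (nat_lit 10) (nat_lit 3) (nat_lit 0xbc0001780002ffe6e) b28982 (.nil))) (.tok (nat_lit 9) (nat_lit 0xbc0001780003003b1) (.hit (nat_lit 11) (nat_lit 20) (nat_lit 0xbc0001780002ff3d5) b28983 (.hit (nat_lit 14) (nat_lit 28) (nat_lit 0xbc0001780002fe939) b28986 (.tok (nat_lit 67) (nat_lit 0xbc0001780003003b1) (.hit (nat_lit 12) (nat_lit 21) (nat_lit 0xbc0001780002ff51a) b28984 (.hit (nat_lit 15) (nat_lit 29) (nat_lit 0xbc0001780003003b1)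 b28987 (.one (nat_lit 9) (nat_lit 13) (nat_lit 22) (nat_lit 0xbc0001780002ffe76) b28985 (.nil)))) (.nil)))) (.nil)))) (.tok (nat_lit 70) (nat_lit 0xbc000178000301638) (.hit (nat_lit 0) (nat_lit 0) (nat_lit 0xbc0001780002fffbe) b28972 (.tok (nat_lit 3) (nat_lit 0xbc000178000300ac0) (.hit (nat_lit 1) (nat_lit 1) (nat_lit 0xbc00017800030045e) b28973 (.one (nat_lit 67) (nat_lit 2) (nat_lit 2) (nat_lit 0xbc000178000300ac0) b28974 (.nil))) (.tok (nat_lit 6) (nat_lit 0xbc000178000301638) (.hit (nat_lit 3) (nat_lit 7) (nat_lit 0xbc000178000300276) b28975 (.hit (nat_lit 6) (nat_lit 15) (nat_lit 0xbc0001780002ffd5c) b28978 (.tok (nat_lit 55) (nat_lit 0xbc000178000301638) (.hit (nat_lit 4) (nat_lit 8) (nat_lit 0xbc000178000300c39) b28976 (.hit (nat_lit 7) (nat_lit 16) (nat_lit 0xbc000178000300e79) b28979 (.one (nat_lit 6) (nat_lit 5) (nat_lit 9) (nat_lit 0xbc000178000301638) b28977 (.nil))))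 (.nil)))) (.nil)))) (.nil))))
noncomputable def r28_80 : Rw Blk := .tok (nat_lit 3) (nat_lit 0xbc0001780003041fa) (.hit (nat_lit 0) (nat_lit 0) (nat_lit 0xbc000178000302cfe) b29027 (.tok (nat_lit 6) (nat_lit 0xbc000178000302211) (.hit (nat_lit 1) (nat_lit 7) (nat_lit 0xbc000178000300688) b29028 (.hit (nat_lit 4) (nat_lit 15) (nat_lit 0xbc0001780002feaf5) b29031 (.tok (nat_lit 56) (nat_lit 0xbc000178000302211) (.hit (nat_lit 2) (nat_lit 13) (nat_lit 0xbc000178000300556) b29029 (.hit (nat_lit 6) (nat_lit 19) (nat_lit 0xbc0001780002ffff2) b29033 (.one (nat_lit 6) (nat_lit 3) (nat_lit 14) (nat_lit 0xbc000178000302211) b29030 (.nil)))) (.one (nat_lit 68) (nat_lit 5) (nat_lit 18) (nat_lit 0xbc00017800030072c) b29032 (.nil))))) (.tok (nat_lit 52) (nat_lit 0xbc000178000301717) (.hit (nat_lit 7) (nat_lit 39) (nat_lit 0xbc0001780003016cb) b29034 (.hit (nat_lit 8) (nat_lit 40) (nat_lit 0xbc000178000301717)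 b29035 (.nil))) (.tok (nat_lit 55) (nat_lit 0xbc0001780003041fa) (.hit (nat_lit 9) (nat_lit 41) (nat_lit 0xbc0001780003041fa) b29036 (.one (nat_lit 3) (nat_lit 15) (nat_lit 47) (nat_lit 0xbc000178000301dae) b29042 (.tok (nat_lit 6) (nat_lit 0xbc0001780003027d0) (.hit (nat_lit 10) (nat_lit 42) (nat_lit 0xbc0001780003027d0) b29037 (.hit (nat_lit 13) (nat_lit 45) (nat_lit 0xbc000178000301b68) b29040 (.tok (nat_lit 55) (nat_lit 0xbc000178000302722) (.hit (nat_lit 11) (nat_lit 43) (nat_lit 0xbc000178000302722) b29038 (.hit (nat_lit 14) (nat_lit 46) (nat_lit 0xbc000178000301f06) b29041 (.one (nat_lit 6) (nat_lit 12) (nat_lit 44) (nat_lit 0xbc0001780003019a3) b29039 (.nil)))) (.nil)))) (.nil)))) (.one (nat_lit 58) (nat_lit 16) (nat_lit 49) (nat_lit 0xbc000178000301291) b29043 (.nil)))))) (.tok (nat_lit 9) (nat_lit 0xbc000178000304c27) (.hit (nat_lit 17) (nat_lit 0) (nat_lit 0xbc000178000303aac)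 b29044 (.tok (nat_lit 9) (nat_lit 0xbc000178000302eed) (.hit (nat_lit 18) (nat_lit 20) (nat_lit 0xbc000178000302eed) b29045 (.hit (nat_lit 19) (nat_lit 28) (nat_lit 0xbc0001780003002c6) b29046 (.one (nat_lit 56) (nat_lit 20) (nat_lit 31) (nat_lit 0xbc000178000302dbb) b29047 (.nil)))) (.tok (nat_lit 64) (nat_lit 0xbc00017800030460c) (.hit (nat_lit 21) (nat_lit 50) (nat_lit 0xbc00017800030460c) b29048 (.hit (nat_lit 22) (nat_lit 51) (nat_lit 0xbc0001780003045c7) b29049 (.nil))) (.tok (nat_lit 67) (nat_lit 0xbc000178000304b40) (.hit (nat_lit 23) (nat_lit 52) (nat_lit 0xbc000178000304b40) b29050 (.one (nat_lit 3) (nat_lit 26) (nat_lit 58) (nat_lit 0xbc000178000303c59) b29053 (.tok (nat_lit 9) (nat_lit 0xbc000178000303279) (.hit (nat_lit 24) (nat_lit 53) (nat_lit 0xbc000178000303084) b29051 (.hit (nat_lit 25) (nat_lit 56) (nat_lit 0xbc000178000303279) b29052 (.nil))) (.nil)))) (.one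 (nat_lit 70) (nat_lit 27) (nat_lit 60) (nat_lit 0xbc000178000304c27) b29054 (.nil)))))) (.nil))
noncomputable def r28_81 : Rw Blk := .tok (nat_lit 3) (nat_lit 0xbc0001780002fe496) (.hit (nat_lit 15) (nat_lit 0) (nat_lit 0xbc0001780002fd531) b29070 (.tok (nat_lit 6) (nat_lit 0xbc0001780002fcc1b) (.hit (nat_lit 16) (nat_lit 7) (nat_lit 0xbc0001780002fa74a) b29071 (.hit (nat_lit 21) (nat_lit 15) (nat_lit 0xbc0001780002f91cb) b29076 (.tok (nat_lit 14) (nat_lit 0xbc0001780002fc7f9) (.hit (nat_lit 17) (nat_lit 11) (nat_lit 0xbc0001780002fba83) b29072 (.hit (nat_lit 22) (nat_lit 17) (nat_lit 0xbc0001780002fc7f9) b29077 (.one (nat_lit 9) (nat_lit 18) (nat_lit 12) (nat_lit 0xbc0001780002fc414) b29073 (.nil)))) (.tok (nat_lit 56) (nat_lit 0xbc0001780002fcc1b) (.hit (nat_lit 19) (nat_lit 13) (nat_lit 0xbc0001780002fbae4) b29074 (.hit (nat_lit 24) (nat_lit 19) (nat_lit 0xbc0001780002fc46c)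 b29079 (.one (nat_lit 6) (nat_lit 20) (nat_lit 14) (nat_lit 0xbc0001780002fcc1b) b29075 (.nil)))) (.one (nat_lit 68) (nat_lit 23) (nat_lit 18) (nat_lit 0xbc0001780002fba8f) b29078 (.nil)))))) (.tok (nat_lit 52) (nat_lit 0xbc0001780002fd20f) (.hit (nat_lit 25) (nat_lit 39) (nat_lit 0xbc0001780002fcaf9) b29080 (.hit (nat_lit 26) (nat_lit 40) (nat_lit 0xbc0001780002fd20f) b29081 (.nil))) (.tok (nat_lit 55) (nat_lit 0xbc0001780002fe496) (.hit (nat_lit 27) (nat_lit 41) (nat_lit 0xbc0001780002fdd4c) b29082 (.tok (nat_lit 3) (nat_lit 0xbc0001780002fd91e) (.hit (nat_lit 33) (nat_lit 47) (nat_lit 0xbc0001780002fd91e) b29088 (.one (nat_lit 67) (nat_lit 34) (nat_lit 48) (nat_lit 0xbc0001780002fcee0) b29089 (.nil))) (.tok (nat_lit 6) (nat_lit 0xbc0001780002fe496) (.hit (nat_lit 28) (nat_lit 42) (nat_lit 0xbc0001780002fda0f) b29083 (.hit (nat_lit 31) (nat_lit 45) (nat_lit 0xbc0001780002fd64b)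 b29086 (.tok (nat_lit 55) (nat_lit 0xbc0001780002fe496) (.hit (nat_lit 29) (nat_lit 43) (nat_lit 0xbc0001780002fe496) b29084 (.hit (nat_lit 32) (nat_lit 46) (nat_lit 0xbc0001780002fd6c0) b29087 (.one (nat_lit 6) (nat_lit 30) (nat_lit 44) (nat_lit 0xbc0001780002fe343) b29085 (.nil)))) (.nil)))) (.nil)))) (.one (nat_lit 58) (nat_lit 35) (nat_lit 49) (nat_lit 0xbc0001780002fd891) b29090 (.nil)))))) (.tok (nat_lit 9) (nat_lit 0xbc0001780003016b0) (.hit (nat_lit 0) (nat_lit 0) (nat_lit 0xbc0001780002fdb3a) b29055 (.tok (nat_lit 9) (nat_lit 0xbc0001780002fef0a) (.hit (nat_lit 1) (nat_lit 20) (nat_lit 0xbc0001780002fcf16) b29056 (.hit (nat_lit 4) (nat_lit 28) (nat_lit 0xbc0001780002fcfdc) b29059 (.tok (nat_lit 14) (nat_lit 0xbc0001780002fef0a) (.hit (nat_lit 2) (nat_lit 24) (nat_lit 0xbc0001780002fef0a) b29057 (.hit (nat_lit 5) (nat_lit 30) (nat_lit 0xbc0001780002fd4f0) b29060 (.one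 (nat_lit 6) (nat_lit 3) (nat_lit 25) (nat_lit 0xbc0001780002fee9d) b29058 (.nil)))) (.one (nat_lit 56) (nat_lit 6) (nat_lit 31) (nat_lit 0xbc0001780002fd2c6) b29061 (.nil))))) (.tok (nat_lit 64) (nat_lit 0xbc0001780002fdeda) (.hit (nat_lit 7) (nat_lit 50) (nat_lit 0xbc0001780002fdeda) b29062 (.hit (nat_lit 8) (nat_lit 51) (nat_lit 0xbc0001780002fd827) b29063 (.nil))) (.tok (nat_lit 67) (nat_lit 0xbc0001780003016b0) (.hit (nat_lit 9) (nat_lit 52) (nat_lit 0xbc0001780002ff8d6) b29064 (.tok (nat_lit 3) (nat_lit 0xbc0001780003016b0) (.hit (nat_lit 12) (nat_lit 58) (nat_lit 0xbc000178000300fbe) b29067 (.one (nat_lit 55) (nat_lit 13) (nat_lit 59) (nat_lit 0xbc0001780003016b0) b29068 (.nil))) (.tok (nat_lit 9) (nat_lit 0xbc0001780002fe56f) (.hit (nat_lit 10) (nat_lit 53) (nat_lit 0xbc0001780002fe56f) b29065 (.hit (nat_lit 11) (nat_lit 56) (nat_lit 0xbc0001780002fddd3) b29066 (.nil)))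 (.nil)))) (.one (nat_lit 70) (nat_lit 14) (nat_lit 60) (nat_lit 0xbc0001780002fcb0d) b29069 (.nil)))))) (.nil))
noncomputable def r28_82 : Rw Blk := .tok (nat_lit 3) (nat_lit 0x5fa506bf44857e705afd2ab5fd78ebf623d7fdb92fdc60) (.hit (nat_lit 0) (nat_lit 0) (nat_lit 0x5fa1e0bf0cdd7e635afd2ab5fd594bf623d7fa482fdc60) b36066 (.tok (nat_lit 6) (nat_lit 0x5fa506bf44857e705afd0ac5fd78ebf5a157f39f2fd7b3) (.hit (nat_lit 1) (nat_lit 7) (nat_lit 0x5fa500bf44857e705afd0a95fd78ebf5a097ea1aafd7b0) b29094 (.hit (nat_lit 2) (nat_lit 15) (nat_lit 0x5fa506bef6697e4e0afd0ac5fc0d0bf5a157f39f2fd7b3) b29095 (.nil))) (.tok (nat_lit 9) (nat_lit 0x5fa506bf44857e705afd0ac5fd354bf5a157fdb92fd7b3) (.hit (nat_lit 3) (nat_lit 20) (nat_lit 0x5fa500bf44857e705afd0a95f9c18bf5a097fdb92fd7b0) b29092 (.hit (nat_lit 4) (nat_lit 28) (nat_lit 0x5fa506bef6697e4e0afd0ac5fd354bf5a157f5522fd7b3) b29093 (.nil))) (.nil))))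 (.tok (nat_lit 6) (nat_lit 0x600000c00905804ceaff6a6603bc8c01a657f811300000) (.hit (nat_lit 14) (nat_lit 0) (nat_lit 0x5fd068bf62d97eb48afe8175fdcfcbfcfed7f0b9aff59c) b29096 (.tok (nat_lit 3) (nat_lit 0x5fe1b6bfae797f73f2ff3fc600524bff7ed7ef7baff70e) (.hit (nat_lit 15) (nat_lit 1) (nat_lit 0x5fb21cbf364d7e6392fd7345fc244bf9b657e8a4afe08a) b29097 (.one (nat_lit 67) (nat_lit 16) (nat_lit 2) (nat_lit 0x5fe1b6bfae797f73f2ff3fc600524bff7ed7ef7baff70e) b29098 (.nil))) (.tok (nat_lit 6) (nat_lit 0x600000c00905804ceaff6a6603bc8c01a657f811300000) (.hit (nat_lit 17) (nat_lit 7) (nat_lit 0x5fc2a2bf72e17eb832fd8f35fe7babfc87d7eb822fe3c1) b29099 (.hit (nat_lit 21) (nat_lit 15) (nat_lit 0x5facecbf31e97e9c82fd49c5fbce6bf91057ea382fddf2) b29103 (.tok (nat_lit 55) (nat_lit 0x600000c00905804ceaff6a6603bc8c01a657f811300000) (.hit (nat_lit 18) (nat_lit 8) (nat_lit 0x5ff4febfb59d7f2522fed3b601d98c01a657f1f32ff7da)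 b29100 (.hit (nat_lit 22) (nat_lit 16) (nat_lit 0x5fe21ac00905804ceaff30c603bc8bffb597f8112ff444) b29104 (.tok (nat_lit 6) (nat_lit 0x600000bfa6ad7f92e2ff6a65ff838c016e57f689b00000) (.hit (nat_lit 19) (nat_lit 9) (nat_lit 0x5fe504bf7ed97f3572feae05fe406bfec917f2aeaff438) b29101 (.one (nat_lit 55) (nat_lit 20) (nat_lit 10) (nat_lit 0x600000bfa6ad7f92e2ff6a65ff838c016e57f689b00000) b29102 (.nil))) (.nil)))) (.nil)))) (.nil)))) (.tok (nat_lit 9) (nat_lit 0x600000c00905804ceb000005fd3ccbfd6fd811002ffbef) (.hit (nat_lit 5) (nat_lit 0) (nat_lit 0x5fd068bf62d97eb48afee075fba1abfa4717f4e8aff453) b29105 (.tok (nat_lit 3) (nat_lit 0x5fe1b6bfae797f73f3000005fb176bfd6fd806f0aff71f) (.hit (nat_lit 6) (nat_lit 1) (nat_lit 0x5fb21cbf364d7e6392fe52f5f961abf63757f2862fe08e) b29106 (.one (nat_lit 55) (nat_lit 7) (nat_lit 3) (nat_lit 0x5fe1b6bfae797f73f3000005fb176bfd6fd806f0aff71f) b29107 (.nil)))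 (.tok (nat_lit 9) (nat_lit 0x600000c00905804ceaff8c05fd3ccbfcfc5811002ffbef) (.hit (nat_lit 8) (nat_lit 20) (nat_lit 0x5fc2a2bf72e17eb832fe9d15fa190bf6a9d7f81b2fe3be) b29108 (.hit (nat_lit 12) (nat_lit 28) (nat_lit 0x5facecbf31e97e9c82fe2975f9c8ebf5af57f13bafddf2) b29112 (.tok (nat_lit 67) (nat_lit 0x600000c00905804ceaff8c05fd3ccbfcfc5811002ffbef) (.hit (nat_lit 9) (nat_lit 21) (nat_lit 0x5ff4febfb59d7f2522ff7275fbb54bfa361802842ff627) b29109 (.hit (nat_lit 13) (nat_lit 29) (nat_lit 0x5fe21ac00905804ceaff7475fd3ccbfcfc5811002ff42c) b29113 (.tok (nat_lit 9) (nat_lit 0x600000bfa6ad7f92e2ff8c05fcdaebfc9d97fc2caffbef) (.hit (nat_lit 10) (nat_lit 22) (nat_lit 0x5fe504bf7ed97f3572ff07f5fbe42bfab2d7f8dd2ff322) b29110 (.one (nat_lit 67) (nat_lit 11) (nat_lit 23) (nat_lit 0x600000bfa6ad7f92e2ff8c05fcdaebfc9d97fc2caffbef) b29111 (.nil))) (.nil)))) (.nil)))) (.nil)))) (.nil)))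
noncomputable def r28_83 : Rw Blk := .tok (nat_lit 6) (nat_lit 0xbc0001780003007da) (.hit (nat_lit 0) (nat_lit 0) (nat_lit 0xbc0001780002feee5) b29114 (.tok (nat_lit 3) (nat_lit 0xbc0001780002ff23d) (.hit (nat_lit 1) (nat_lit 1) (nat_lit 0xbc0001780002fd33a) b29115 (.one (nat_lit 56) (nat_lit 3) (nat_lit 6) (nat_lit 0xbc0001780002fe5c1) b29117 (.one (nat_lit 68) (nat_lit 2) (nat_lit 5) (nat_lit 0xbc0001780002ff23d) b29116 (.nil)))) (.tok (nat_lit 40) (nat_lit 0xbc0001780002fdef6) (.hit (nat_lit 4) (nat_lit 33) (nat_lit 0xbc0001780002fdef6) b29118 (.hit (nat_lit 5) (nat_lit 34) (nat_lit 0xbc0001780002fddef) b29119 (.nil))) (.tok (nat_lit 43) (nat_lit 0xbc0001780002ff3e1) (.hit (nat_lit 6) (nat_lit 35) (nat_lit 0xbc0001780002ff3e1) b29120 (.hit (nat_lit 7) (nat_lit 36) (nat_lit 0xbc0001780002fe9f3) b29121 (.nil))) (.tok (nat_lit 46) (nat_lit 0xbc0001780003007da) (.hit (nat_lit 8)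 (nat_lit 37) (nat_lit 0xbc0001780002fd7e8) b29122 (.hit (nat_lit 9) (nat_lit 38) (nat_lit 0xbc0001780003007da) b29123 (.nil))) (.nil)))))) (.tok (nat_lit 9) (nat_lit 0xbc0001780003007da) (.hit (nat_lit 10) (nat_lit 0) (nat_lit 0xbc0001780002feee5) b29114 (.tok (nat_lit 3) (nat_lit 0xbc0001780002ff23d) (.hit (nat_lit 11) (nat_lit 1) (nat_lit 0xbc0001780002fd33a) b29115 (.one (nat_lit 56) (nat_lit 13) (nat_lit 6) (nat_lit 0xbc0001780002ff23d) b29116 (.one (nat_lit 68) (nat_lit 12) (nat_lit 5) (nat_lit 0xbc0001780002fe5c1) b29117 (.nil)))) (.tok (nat_lit 40) (nat_lit 0xbc0001780002fdef6) (.hit (nat_lit 14) (nat_lit 33) (nat_lit 0xbc0001780002fdef6) b29118 (.hit (nat_lit 15) (nat_lit 34) (nat_lit 0xbc0001780002fddef) b29119 (.nil))) (.tok (nat_lit 43) (nat_lit 0xbc0001780003007da) (.hit (nat_lit 16) (nat_lit 35) (nat_lit 0xbc0001780002fd7e8) b29122 (.hit (nat_lit 17) (nat_lit 36)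 (nat_lit 0xbc0001780003007da) b29123 (.nil))) (.tok (nat_lit 46) (nat_lit 0xbc0001780002ff3e1) (.hit (nat_lit 18) (nat_lit 37) (nat_lit 0xbc0001780002ff3e1) b29120 (.hit (nat_lit 19) (nat_lit 38) (nat_lit 0xbc0001780002fe9f3) b29121 (.nil))) (.nil)))))) (.nil))
noncomputable def r28_84 : Rw Blk := .tok (nat_lit 3) (nat_lit 0x5e0000bfb4b17fd35300bcb) (.hit (nat_lit 17) (nat_lit 0) (nat_lit 0x5e0000bf308d7ec10afe33c) b29209 (.tok (nat_lit 6) (nat_lit 0x5e0000bf1f997ee4f2fe7b9) (.hit (nat_lit 18) (nat_lit 7) (nat_lit 0x5e0000bec2d17e2b62fd087) b29210 (.hit (nat_lit 21) (nat_lit 15) (nat_lit 0x5e0000bec8e57e378afd20c) b29213 (.tok (nat_lit 56) (nat_lit 0x5e0000bf1f997ee4f2fe7b9) (.hit (nat_lit 19) (nat_lit 13) (nat_lit 0x5e0000bf13d17ecd62fe4c7) b29211 (.hit (nat_lit 23) (nat_lit 19) (nat_lit 0x5e0000bf05617eb082fe12b) b29215 (.one (nat_lit 6) (nat_lit 20) (nat_lit 14) (nat_lit 0x5e0000bf1f997ee4f2fe7b9)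 b29212 (.nil)))) (.one (nat_lit 68) (nat_lit 22) (nat_lit 18) (nat_lit 0x5e0000bf19bd7ed93afe642) b29214 (.nil))))) (.tok (nat_lit 52) (nat_lit 0x5e0000bf12857ecacafe474) (.hit (nat_lit 24) (nat_lit 39) (nat_lit 0x5e0000bf09657eb88afe22c) b29216 (.hit (nat_lit 25) (nat_lit 40) (nat_lit 0x5e0000bf12857ecacafe474) b29217 (.nil))) (.tok (nat_lit 55) (nat_lit 0x5e0000bfb4b17fd35300bcb) (.hit (nat_lit 26) (nat_lit 41) (nat_lit 0x5e0000bfb4b17fd35300bcb) b29218 (.one (nat_lit 3) (nat_lit 32) (nat_lit 47) (nat_lit 0x5e0000bf03117eabe2fe097) b29224 (.tok (nat_lit 6) (nat_lit 0x5e0000bf37b57f152afedc0) (.hit (nat_lit 27) (nat_lit 42) (nat_lit 0x5e0000befed57ea36afdf88) b29219 (.hit (nat_lit 30) (nat_lit 45) (nat_lit 0x5e0000bef6c17e9342fdd83) b29222 (.tok (nat_lit 55) (nat_lit 0x5e0000bf37b57f152afedc0) (.hit (nat_lit 28) (nat_lit 43) (nat_lit 0x5e0000bf37b57f152afedc0) b29220 (.hit (nat_lit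 31) (nat_lit 46) (nat_lit 0x5e0000bf2bdd7efd7afeaca) b29223 (.one (nat_lit 6) (nat_lit 29) (nat_lit 44) (nat_lit 0x5e0000bf27357ef42afe9a0) b29221 (.nil)))) (.nil)))) (.nil)))) (.one (nat_lit 58) (nat_lit 33) (nat_lit 49) (nat_lit 0x5e0000bf0d417ec042fe323) b29225 (.nil)))))) (.tok (nat_lit 9) (nat_lit 0x5e0000c05461816ac3024c7) (.hit (nat_lit 0) (nat_lit 0) (nat_lit 0x5e0000bf94057f7d2b00942) b29192 (.tok (nat_lit 9) (nat_lit 0x5e0000bfaa25807f2300cbd) (.hit (nat_lit 1) (nat_lit 20) (nat_lit 0x5e0000bf7b817fe952ff816) b29193 (.hit (nat_lit 4) (nat_lit 28) (nat_lit 0x5e0000bf20fd7e626afda5b) b29196 (.one (nat_lit 56) (nat_lit 5) (nat_lit 31) (nat_lit 0x5e0000bf48a57f2762fedba) b29197 (.tok (nat_lit 68) (nat_lit 0x5e0000bfaa25807f2300cbd) (.hit (nat_lit 2) (nat_lit 26) (nat_lit 0x5e0000bfaa257fe3f30002f) b29194 (.hit (nat_lit 6) (nat_lit 32) (nat_lit 0x5e0000bf674d7f081afed69)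 b29198 (.one (nat_lit 9) (nat_lit 3) (nat_lit 27) (nat_lit 0x5e0000bfa661807f2300cbd) b29195 (.nil)))) (.nil))))) (.tok (nat_lit 64) (nat_lit 0x5e0000bff5f1800a32fff8e) (.hit (nat_lit 7) (nat_lit 50) (nat_lit 0x5e0000bf7f197f4b62fefdf) b29199 (.hit (nat_lit 8) (nat_lit 51) (nat_lit 0x5e0000bff5f1800a32fff8e) b29200 (.nil))) (.tok (nat_lit 67) (nat_lit 0x5e0000c05461816ac3024c7) (.hit (nat_lit 9) (nat_lit 52) (nat_lit 0x5e0000c04795816ac3024c7) b29201 (.one (nat_lit 3) (nat_lit 15) (nat_lit 58) (nat_lit 0x5e0000bfed0d8077cb00abb) b29207 (.tok (nat_lit 9) (nat_lit 0x5e0000c0546181136301b58) (.hit (nat_lit 10) (nat_lit 53) (nat_lit 0x5e0000bfc1f97f982aff9a7) b29202 (.hit (nat_lit 13) (nat_lit 56) (nat_lit 0x5e0000bfcee981136300d4c) b29205 (.tok (nat_lit 67) (nat_lit 0x5e0000c0546180e8a301b58) (.hit (nat_lit 11) (nat_lit 54) (nat_lit 0x5e0000c0546180e8a301b58) b29203 (.hit (nat_lit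 14) (nat_lit 57) (nat_lit 0x5e0000bfce5d8087b300815) b29206 (.one (nat_lit 9) (nat_lit 12) (nat_lit 55) (nat_lit 0x5e0000c03ae980c39301aad) b29204 (.nil)))) (.nil)))) (.nil)))) (.one (nat_lit 70) (nat_lit 16) (nat_lit 60) (nat_lit 0x5e0000bff5c98057fb00161) b29208 (.nil)))))) (.nil))
noncomputable def r28_85 : Rw Blk := .tok (nat_lit 3) (nat_lit 0xbc0001780002fec46) (.hit (nat_lit 17) (nat_lit 0) (nat_lit 0xbc0001780002fd271) b29243 (.tok (nat_lit 6) (nat_lit 0xbc0001780002fd95f) (.hit (nat_lit 18) (nat_lit 7) (nat_lit 0xbc0001780002fc61a) b29244 (.hit (nat_lit 21) (nat_lit 15) (nat_lit 0xbc0001780002fb777) b29247 (.tok (nat_lit 56) (nat_lit 0xbc0001780002fd95f) (.hit (nat_lit 19) (nat_lit 13) (nat_lit 0xbc0001780002fd4c9) b29245 (.hit (nat_lit 23) (nat_lit 19) (nat_lit 0xbc0001780002fc46d) b29249 (.one (nat_lit 6) (nat_lit 20) (nat_lit 14) (nat_lit 0xbc0001780002fd95f) b29246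 (.nil)))) (.one (nat_lit 68) (nat_lit 22) (nat_lit 18) (nat_lit 0xbc0001780002fd4f6) b29248 (.nil))))) (.tok (nat_lit 52) (nat_lit 0xbc0001780002fce25) (.hit (nat_lit 24) (nat_lit 39) (nat_lit 0xbc0001780002fcce8) b29250 (.hit (nat_lit 25) (nat_lit 40) (nat_lit 0xbc0001780002fce25) b29251 (.nil))) (.tok (nat_lit 55) (nat_lit 0xbc0001780002fec46) (.hit (nat_lit 26) (nat_lit 41) (nat_lit 0xbc0001780002fec46) b29252 (.one (nat_lit 3) (nat_lit 32) (nat_lit 47) (nat_lit 0xbc0001780002fd718) b29258 (.tok (nat_lit 6) (nat_lit 0xbc0001780002fe7e5) (.hit (nat_lit 27) (nat_lit 42) (nat_lit 0xbc0001780002fd5f0) b29253 (.hit (nat_lit 30) (nat_lit 45) (nat_lit 0xbc0001780002fce23) b29256 (.tok (nat_lit 55) (nat_lit 0xbc0001780002fe7e5) (.hit (nat_lit 28) (nat_lit 43) (nat_lit 0xbc0001780002fe7e5) b29254 (.hit (nat_lit 31) (nat_lit 46) (nat_lit 0xbc0001780002fd744) b29257 (.one (nat_lit 6)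 (nat_lit 29) (nat_lit 44) (nat_lit 0xbc0001780002fe37a) b29255 (.nil)))) (.nil)))) (.nil)))) (.one (nat_lit 58) (nat_lit 33) (nat_lit 49) (nat_lit 0xbc0001780002fda48) b29259 (.nil)))))) (.tok (nat_lit 9) (nat_lit 0xbc00017800030199a) (.hit (nat_lit 0) (nat_lit 0) (nat_lit 0xbc0001780002fdb39) b29226 (.tok (nat_lit 9) (nat_lit 0xbc0001780002fe919) (.hit (nat_lit 1) (nat_lit 20) (nat_lit 0xbc0001780002fd1dd) b29227 (.hit (nat_lit 4) (nat_lit 28) (nat_lit 0xbc0001780002fd2ca) b29230 (.one (nat_lit 56) (nat_lit 5) (nat_lit 31) (nat_lit 0xbc0001780002fe4f7) b29231 (.tok (nat_lit 68) (nat_lit 0xbc0001780002fe919) (.hit (nat_lit 2) (nat_lit 26) (nat_lit 0xbc0001780002fe919) b29228 (.hit (nat_lit 6) (nat_lit 32) (nat_lit 0xbc0001780002fe192) b29232 (.one (nat_lit 9) (nat_lit 3) (nat_lit 27) (nat_lit 0xbc0001780002fe3ff) b29229 (.nil)))) (.nil))))) (.tok (nat_lit 64) (nat_lit 0xbc0001780002fe853)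 (.hit (nat_lit 7) (nat_lit 50) (nat_lit 0xbc0001780002fd0b4) b29233 (.hit (nat_lit 8) (nat_lit 51) (nat_lit 0xbc0001780002fe853) b29234 (.nil))) (.tok (nat_lit 67) (nat_lit 0xbc00017800030199a) (.hit (nat_lit 9) (nat_lit 52) (nat_lit 0xbc0001780002ff7b6) b29235 (.one (nat_lit 3) (nat_lit 15) (nat_lit 58) (nat_lit 0xbc0001780002fed93) b29241 (.tok (nat_lit 9) (nat_lit 0xbc00017800030199a) (.hit (nat_lit 10) (nat_lit 53) (nat_lit 0xbc0001780002ff5f4) b29236 (.hit (nat_lit 13) (nat_lit 56) (nat_lit 0xbc0001780002feee9) b29239 (.tok (nat_lit 67) (nat_lit 0xbc00017800030199a) (.hit (nat_lit 11) (nat_lit 54) (nat_lit 0xbc000178000300144) b29237 (.hit (nat_lit 14) (nat_lit 57) (nat_lit 0xbc0001780002ff6da) b29240 (.one (nat_lit 9) (nat_lit 12) (nat_lit 55) (nat_lit 0xbc00017800030199a) b29238 (.nil)))) (.nil)))) (.nil)))) (.one (nat_lit 70) (nat_lit 16) (nat_lit 60) (nat_lit 0xbc0001780002feb33)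 b29242 (.nil)))))) (.nil))
noncomputable def r28_86 : Rw Blk := .tok (nat_lit 3) (nat_lit 0x5e0000bfc8a57fcafafff69) (.hit (nat_lit 17) (nat_lit 0) (nat_lit 0x5e0000bf44817eb8b2fdc13) b29141 (.tok (nat_lit 9) (nat_lit 0x5e0000bf338d7edc9afdfd4) (.hit (nat_lit 18) (nat_lit 20) (nat_lit 0x5e0000bed6c57e230afc8a2) b29142 (.hit (nat_lit 21) (nat_lit 28) (nat_lit 0x5e0000bedcd97e2f32fca27) b29145 (.one (nat_lit 56) (nat_lit 22) (nat_lit 31) (nat_lit 0x5e0000bf2db17ed0e2fde5d) b29146 (.tok (nat_lit 68) (nat_lit 0x5e0000bf338d7edc9afdfd4) (.hit (nat_lit 19) (nat_lit 26) (nat_lit 0x5e0000bf27c57ec50afdce2) b29143 (.hit (nat_lit 23) (nat_lit 32) (nat_lit 0x5e0000bf19557ea82afd946) b29147 (.one (nat_lit 9) (nat_lit 20) (nat_lit 27) (nat_lit 0x5e0000bf338d7edc9afdfd4) b29144 (.nil)))) (.nil))))) (.tok (nat_lit 64) (nat_lit 0x5e0000bf26797ec272fdc8f) (.hit (nat_lit 24) (nat_lit 50) (nat_lit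 0x5e0000bf1d597eb032fda47) b29148 (.hit (nat_lit 25) (nat_lit 51) (nat_lit 0x5e0000bf26797ec272fdc8f) b29149 (.nil))) (.tok (nat_lit 67) (nat_lit 0x5e0000bfc8a57fcafafff69) (.hit (nat_lit 26) (nat_lit 52) (nat_lit 0x5e0000bfc8a57fcafafff69) b29150 (.one (nat_lit 3) (nat_lit 32) (nat_lit 58) (nat_lit 0x5e0000bf17057ea38afd8b2) b29156 (.tok (nat_lit 9) (nat_lit 0x5e0000bf4ba97f0cd2fe5db) (.hit (nat_lit 27) (nat_lit 53) (nat_lit 0x5e0000bf12c97e9b12fd7a3) b29151 (.hit (nat_lit 30) (nat_lit 56) (nat_lit 0x5e0000bf0ab57e8aeafd59e) b29154 (.tok (nat_lit 67) (nat_lit 0x5e0000bf4ba97f0cd2fe5db) (.hit (nat_lit 28) (nat_lit 54) (nat_lit 0x5e0000bf4ba97f0cd2fe5db) b29152 (.hit (nat_lit 31) (nat_lit 57) (nat_lit 0x5e0000bf3fd17ef522fe2e5) b29155 (.one (nat_lit 9) (nat_lit 29) (nat_lit 55) (nat_lit 0x5e0000bf3b297eebd2fe1bb) b29153 (.nil)))) (.nil)))) (.nil)))) (.one (nat_lit 70) (nat_lit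 33) (nat_lit 60) (nat_lit 0x5e0000bf21357eb7eafdb3e) b29157 (.nil)))))) (.tok (nat_lit 6) (nat_lit 0x5e0000c0685581626b02e26) (.hit (nat_lit 0) (nat_lit 0) (nat_lit 0x5e0000bfa7f97f74d2ffe3c) b29124 (.tok (nat_lit 6) (nat_lit 0x5e0000bfbe198076caffd27) (.hit (nat_lit 1) (nat_lit 7) (nat_lit 0x5e0000bf8f757fe0fafef25) b29125 (.hit (nat_lit 4) (nat_lit 15) (nat_lit 0x5e0000bf34f17e5a12fd58e) b29128 (.tok (nat_lit 56) (nat_lit 0x5e0000bfbe198076caffd27) (.hit (nat_lit 2) (nat_lit 13) (nat_lit 0x5e0000bfbe197fdb9affb89) b29126 (.hit (nat_lit 6) (nat_lit 19) (nat_lit 0x5e0000bf7b417effc2fe8d1) b29130 (.one (nat_lit 6) (nat_lit 3) (nat_lit 14) (nat_lit 0x5e0000bfba558076caffd27) b29127 (.nil)))) (.one (nat_lit 68) (nat_lit 5) (nat_lit 18) (nat_lit 0x5e0000bf5c997f1f0afe614) b29129 (.nil))))) (.tok (nat_lit 52) (nat_lit 0x5e0000c009e58001daffb66) (.hit (nat_lit 7) (nat_lit 39) (nat_lit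 0x5e0000bf930d7f430affa50) b29131 (.hit (nat_lit 8) (nat_lit 40) (nat_lit 0x5e0000c009e58001daffb66) b29132 (.nil))) (.tok (nat_lit 55) (nat_lit 0x5e0000c0685581626b02e26) (.hit (nat_lit 9) (nat_lit 41) (nat_lit 0x5e0000c05b8981626b02e26) b29133 (.one (nat_lit 3) (nat_lit 15) (nat_lit 47) (nat_lit 0x5e0000c00101806f73001b7) b29139 (.tok (nat_lit 6) (nat_lit 0x5e0000c06855810b0b026ee) (.hit (nat_lit 10) (nat_lit 42) (nat_lit 0x5e0000bfd5ed7f8fd2ffce9) b29134 (.hit (nat_lit 13) (nat_lit 45) (nat_lit 0x5e0000bfe2dd810b0b008dd) b29137 (.tok (nat_lit 55) (nat_lit 0x5e0000c0685580e04b026ee) (.hit (nat_lit 11) (nat_lit 43) (nat_lit 0x5e0000c0685580e04b02330) b29135 (.hit (nat_lit 14) (nat_lit 46) (nat_lit 0x5e0000bfe251807f5b00ea5) b29138 (.one (nat_lit 6) (nat_lit 12) (nat_lit 44) (nat_lit 0x5e0000c04edd80bb3b026ee) b29136 (.nil)))) (.nil)))) (.nil)))) (.one (nat_lit 58) (nat_lit 16)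 (nat_lit 49) (nat_lit 0x5e0000c009bd804fa2fffd1) b29140 (.nil)))))) (.nil))
noncomputable def r28_87 : Rw Blk := .tok (nat_lit 3) (nat_lit 0xbc0001780002ff24a) (.hit (nat_lit 17) (nat_lit 0) (nat_lit 0xbc0001780002fd875) b29175 (.tok (nat_lit 9) (nat_lit 0xbc0001780002fdf63) (.hit (nat_lit 18) (nat_lit 20) (nat_lit 0xbc0001780002fcc1e) b29176 (.hit (nat_lit 21) (nat_lit 28) (nat_lit 0xbc0001780002fbd7b) b29179 (.one (nat_lit 56) (nat_lit 22) (nat_lit 31) (nat_lit 0xbc0001780002fdafa) b29180 (.tok (nat_lit 68) (nat_lit 0xbc0001780002fdf63) (.hit (nat_lit 19) (nat_lit 26) (nat_lit 0xbc0001780002fdacd) b29177 (.hit (nat_lit 23) (nat_lit 32) (nat_lit 0xbc0001780002fca71) b29181 (.one (nat_lit 9) (nat_lit 20) (nat_lit 27) (nat_lit 0xbc0001780002fdf63) b29178 (.nil)))) (.nil))))) (.tok (nat_lit 64) (nat_lit 0xbc0001780002fd429) (.hit (nat_lit 24) (nat_lit 50) (nat_lit 0xbc0001780002fd2ec)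 b29182 (.hit (nat_lit 25) (nat_lit 51) (nat_lit 0xbc0001780002fd429) b29183 (.nil))) (.tok (nat_lit 67) (nat_lit 0xbc0001780002ff24a) (.hit (nat_lit 26) (nat_lit 52) (nat_lit 0xbc0001780002ff24a) b29184 (.one (nat_lit 3) (nat_lit 32) (nat_lit 58) (nat_lit 0xbc0001780002fdd1c) b29190 (.tok (nat_lit 9) (nat_lit 0xbc0001780002fede9) (.hit (nat_lit 27) (nat_lit 53) (nat_lit 0xbc0001780002fdbf4) b29185 (.hit (nat_lit 30) (nat_lit 56) (nat_lit 0xbc0001780002fd427) b29188 (.tok (nat_lit 67) (nat_lit 0xbc0001780002fede9) (.hit (nat_lit 28) (nat_lit 54) (nat_lit 0xbc0001780002fede9) b29186 (.hit (nat_lit 31) (nat_lit 57) (nat_lit 0xbc0001780002fdd48) b29189 (.one (nat_lit 9) (nat_lit 29) (nat_lit 55) (nat_lit 0xbc0001780002fe97e) b29187 (.nil)))) (.nil)))) (.nil)))) (.one (nat_lit 70) (nat_lit 33) (nat_lit 60) (nat_lit 0xbc0001780002fe04c) b29191 (.nil)))))) (.tok (nat_lit 6) (nat_lit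 0xbc000178000301f9e) (.hit (nat_lit 0) (nat_lit 0) (nat_lit 0xbc0001780002fe13d) b29158 (.tok (nat_lit 6) (nat_lit 0xbc0001780002fef1d) (.hit (nat_lit 1) (nat_lit 7) (nat_lit 0xbc0001780002fd7e1) b29159 (.hit (nat_lit 4) (nat_lit 15) (nat_lit 0xbc0001780002fd8ce) b29162 (.tok (nat_lit 56) (nat_lit 0xbc0001780002fef1d) (.hit (nat_lit 2) (nat_lit 13) (nat_lit 0xbc0001780002fef1d) b29160 (.hit (nat_lit 6) (nat_lit 19) (nat_lit 0xbc0001780002fe796) b29164 (.one (nat_lit 6) (nat_lit 3) (nat_lit 14) (nat_lit 0xbc0001780002fea03) b29161 (.nil)))) (.one (nat_lit 68) (nat_lit 5) (nat_lit 18) (nat_lit 0xbc0001780002feafb) b29163 (.nil))))) (.tok (nat_lit 52) (nat_lit 0xbc0001780002fee57) (.hit (nat_lit 7) (nat_lit 39) (nat_lit 0xbc0001780002fd6b8) b29165 (.hit (nat_lit 8) (nat_lit 40) (nat_lit 0xbc0001780002fee57) b29166 (.nil))) (.tok (nat_lit 55) (nat_lit 0xbc000178000301f9e) (.hit (nat_lit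 9) (nat_lit 41) (nat_lit 0xbc0001780002ffdba) b29167 (.one (nat_lit 3) (nat_lit 15) (nat_lit 47) (nat_lit 0xbc0001780002ff397) b29173 (.tok (nat_lit 6) (nat_lit 0xbc000178000301f9e) (.hit (nat_lit 10) (nat_lit 42) (nat_lit 0xbc0001780002ffbf8) b29168 (.hit (nat_lit 13) (nat_lit 45) (nat_lit 0xbc0001780002ff4ed) b29171 (.tok (nat_lit 55) (nat_lit 0xbc000178000301f9e) (.hit (nat_lit 11) (nat_lit 43) (nat_lit 0xbc000178000300748) b29169 (.hit (nat_lit 14) (nat_lit 46) (nat_lit 0xbc0001780002ffcde) b29172 (.one (nat_lit 6) (nat_lit 12) (nat_lit 44) (nat_lit 0xbc000178000301f9e) b29170 (.nil)))) (.nil)))) (.nil)))) (.one (nat_lit 58) (nat_lit 16) (nat_lit 49) (nat_lit 0xbc0001780002ff137) b29174 (.nil)))))) (.nil))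
noncomputable def r28_88 : Rw Blk := .tok (nat_lit 3) (nat_lit 0xbc0001780002fdd94) (.hit (nat_lit 0) (nat_lit 0) (nat_lit 0xbc0001780002fdd94) b16038 (.tok (nat_lit 6) (nat_lit 0xbc0001780002fc205) (.hit (nat_lit 1) (nat_lit 7) (nat_lit 0xbc0001780002fbf09) b16039 (.hit (nat_lit 2) (nat_lit 15) (nat_lit 0xbc0001780002fc205) b16040 (.nil))) (.tok (nat_lit 9) (nat_lit 0xbc0001780002fc205) (.hit (nat_lit 3) (nat_lit 20) (nat_lit 0xbc0001780002fbf09) b16039 (.hit (nat_lit 4) (nat_lit 28) (nat_lit 0xbc0001780002fc205) b16040 (.nil))) (.nil)))) (.tok (nat_lit 6) (nat_lit 0xbc000178000300000) (.hit (nat_lit 5) (nat_lit 0) (nat_lit 0xbc0001780002fe455) b16041 (.tok (nat_lit 3) (nat_lit 0xbc0001780002fed55) (.hit (nat_lit 6) (nat_lit 1) (nat_lit 0xbc0001780002fd017) b16042 (.one (nat_lit 67) (nat_lit 7) (nat_lit 2) (nat_lit 0xbc0001780002fed55) b16043 (.nil))) (.tok (nat_lit 6) (nat_lit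 0xbc000178000300000) (.hit (nat_lit 8) (nat_lit 7) (nat_lit 0xbc0001780002fe22c) b16044 (.hit (nat_lit 12) (nat_lit 15) (nat_lit 0xbc0001780002fce82) b16048 (.tok (nat_lit 55) (nat_lit 0xbc000178000300000) (.hit (nat_lit 9) (nat_lit 8) (nat_lit 0xbc000178000300000) b16045 (.hit (nat_lit 13) (nat_lit 16) (nat_lit 0xbc0001780002fe211) b16049 (.tok (nat_lit 6) (nat_lit 0xbc0001780002fefd5) (.hit (nat_lit 10) (nat_lit 9) (nat_lit 0xbc0001780002fe037) b16046 (.one (nat_lit 55) (nat_lit 11) (nat_lit 10) (nat_lit 0xbc0001780002fefd5) b16047 (.nil))) (.nil)))) (.nil)))) (.nil)))) (.tok (nat_lit 9) (nat_lit 0xbc000178000300000) (.hit (nat_lit 14) (nat_lit 0) (nat_lit 0xbc0001780002fe455) b16041 (.tok (nat_lit 3) (nat_lit 0xbc0001780002fed55) (.hit (nat_lit 15) (nat_lit 1) (nat_lit 0xbc0001780002fd017) b16042 (.one (nat_lit 55) (nat_lit 16) (nat_lit 3) (nat_lit 0xbc0001780002fed55) b16043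 (.nil))) (.tok (nat_lit 9) (nat_lit 0xbc000178000300000) (.hit (nat_lit 17) (nat_lit 20) (nat_lit 0xbc0001780002fe22c) b16044 (.hit (nat_lit 21) (nat_lit 28) (nat_lit 0xbc0001780002fce82) b16048 (.tok (nat_lit 67) (nat_lit 0xbc000178000300000) (.hit (nat_lit 18) (nat_lit 21) (nat_lit 0xbc000178000300000) b16045 (.hit (nat_lit 22) (nat_lit 29) (nat_lit 0xbc0001780002fe211) b16049 (.tok (nat_lit 9) (nat_lit 0xbc0001780002fefd5) (.hit (nat_lit 19) (nat_lit 22) (nat_lit 0xbc0001780002fe037) b16046 (.one (nat_lit 67) (nat_lit 20) (nat_lit 23) (nat_lit 0xbc0001780002fefd5) b16047 (.nil))) (.nil)))) (.nil)))) (.nil)))) (.nil)))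
noncomputable def r28_89 : Rw Blk := .tok (nat_lit 3) (nat_lit 0xbc0001780002fec3c) (.hit (nat_lit 18) (nat_lit 0) (nat_lit 0xbc0001780002fec3c) b29301 (.tok (nat_lit 6) (nat_lit 0xbc0001780002fdb84) (.hit (nat_lit 19) (nat_lit 7) (nat_lit 0xbc0001780002fdb84) b29304 (.hit (nat_lit 20) (nat_lit 15) (nat_lit 0xbc0001780002fc8a3) b29305 (.nil))) (.tok (nat_lit 9) (nat_lit 0xbc0001780002fd055) (.hit (nat_lit 21) (nat_lit 20) (nat_lit 0xbc0001780002fd055) b29302 (.hit (nat_lit 22) (nat_lit 28) (nat_lit 0xbc0001780002fc856) b29303 (.nil))) (.nil)))) (.tok (nat_lit 6) (nat_lit 0xbc0001780002ff0f5) (.hit (nat_lit 0) (nat_lit 0) (nat_lit 0xbc0001780002fea87) b29283 (.tok (nat_lit 3) (nat_lit 0xbc0001780002fdb83) (.hit (nat_lit 1) (nat_lit 1) (nat_lit 0xbc0001780002fc432) b29284 (.one (nat_lit 67) (nat_lit 2) (nat_lit 2) (nat_lit 0xbc0001780002fdb83) b29285 (.nil))) (.tok (nat_lit 6) (nat_lit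 0xbc0001780002ff0f5) (.hit (nat_lit 3) (nat_lit 7) (nat_lit 0xbc0001780002fc38a) b29286 (.hit (nat_lit 7) (nat_lit 15) (nat_lit 0xbc0001780002fccf6) b29290 (.tok (nat_lit 55) (nat_lit 0xbc0001780002ff0f5) (.hit (nat_lit 4) (nat_lit 8) (nat_lit 0xbc0001780002fe51b) b29287 (.hit (nat_lit 8) (nat_lit 16) (nat_lit 0xbc0001780002fec6c) b29291 (.tok (nat_lit 6) (nat_lit 0xbc0001780002ff0f5) (.hit (nat_lit 5) (nat_lit 9) (nat_lit 0xbc0001780002fdfed) b29288 (.one (nat_lit 55) (nat_lit 6) (nat_lit 10) (nat_lit 0xbc0001780002ff0f5) b29289 (.nil))) (.nil)))) (.nil)))) (.nil)))) (.tok (nat_lit 9) (nat_lit 0xbc000178000303442) (.hit (nat_lit 9) (nat_lit 0) (nat_lit 0xbc00017800030022a) b29292 (.tok (nat_lit 3) (nat_lit 0xbc000178000302a52) (.hit (nat_lit 10) (nat_lit 1) (nat_lit 0xbc0001780002feee4) b29293 (.one (nat_lit 55) (nat_lit 11) (nat_lit 3) (nat_lit 0xbc000178000302a52) b29294 (.nil)))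 (.tok (nat_lit 9) (nat_lit 0xbc000178000303442) (.hit (nat_lit 12) (nat_lit 20) (nat_lit 0xbc0001780002ff5d9) b29295 (.hit (nat_lit 16) (nat_lit 28) (nat_lit 0xbc0001780002fe116) b29299 (.tok (nat_lit 67) (nat_lit 0xbc000178000303442) (.hit (nat_lit 13) (nat_lit 21) (nat_lit 0xbc000178000303123) b29296 (.hit (nat_lit 17) (nat_lit 29) (nat_lit 0xbc000178000300abb) b29300 (.tok (nat_lit 9) (nat_lit 0xbc000178000303442) (.hit (nat_lit 14) (nat_lit 22) (nat_lit 0xbc00017800030284b) b29297 (.one (nat_lit 67) (nat_lit 15) (nat_lit 23) (nat_lit 0xbc000178000303442) b29298 (.nil))) (.nil)))) (.nil)))) (.nil)))) (.nil)))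
noncomputable def r28_90 : Rw Blk := .tok (nat_lit 3) (nat_lit 0xbc0001780002fd59e) (.hit (nat_lit 18) (nat_lit 0) (nat_lit 0xbc0001780002fd59e) b16091 (.tok (nat_lit 6) (nat_lit 0xbc0001780002fc727) (.hit (nat_lit 19) (nat_lit 7) (nat_lit 0xbc0001780002fc727) b16092 (.hit (nat_lit 20) (nat_lit 15) (nat_lit 0xbc0001780002fc545) b16093 (.nil))) (.tok (nat_lit 9) (nat_lit 0xbc0001780002fc49b) (.hit (nat_lit 21) (nat_lit 20) (nat_lit 0xbc0001780002fc22e) b16094 (.hit (nat_lit 22) (nat_lit 28) (nat_lit 0xbc0001780002fc49b) b16095 (.nil))) (.nil)))) (.tok (nat_lit 6) (nat_lit 0xbc000178000300000) (.hit (nat_lit 0) (nat_lit 0) (nat_lit 0xbc0001780002fe915) b16073 (.tok (nat_lit 3) (nat_lit 0xbc0001780002fe5bd) (.hit (nat_lit 1) (nat_lit 1) (nat_lit 0xbc0001780002fce94) b16074 (.one (nat_lit 67) (nat_lit 2) (nat_lit 2) (nat_lit 0xbc0001780002fe5bd) b16075 (.nil))) (.tok (nat_lit 6) (nat_lit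 0xbc000178000300000) (.hit (nat_lit 3) (nat_lit 7) (nat_lit 0xbc0001780002fdf2f) b16076 (.hit (nat_lit 7) (nat_lit 15) (nat_lit 0xbc0001780002fce2a) b16080 (.tok (nat_lit 55) (nat_lit 0xbc000178000300000) (.hit (nat_lit 4) (nat_lit 8) (nat_lit 0xbc0001780002ff240) b16077 (.hit (nat_lit 8) (nat_lit 16) (nat_lit 0xbc0001780002fe29b) b16081 (.tok (nat_lit 6) (nat_lit 0xbc000178000300000) (.hit (nat_lit 5) (nat_lit 9) (nat_lit 0xbc0001780002fec1a) b16078 (.one (nat_lit 55) (nat_lit 6) (nat_lit 10) (nat_lit 0xbc000178000300000) b16079 (.nil))) (.nil)))) (.nil)))) (.nil)))) (.tok (nat_lit 9) (nat_lit 0xbc0001780002ff2fe) (.hit (nat_lit 9) (nat_lit 0) (nat_lit 0xbc0001780002fe02f) b16082 (.tok (nat_lit 3) (nat_lit 0xbc0001780002fe4f3) (.hit (nat_lit 10) (nat_lit 1) (nat_lit 0xbc0001780002fd337) b16083 (.one (nat_lit 55) (nat_lit 11) (nat_lit 3) (nat_lit 0xbc0001780002fe4f3) b16084 (.nil)))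 (.tok (nat_lit 9) (nat_lit 0xbc0001780002ff2fe) (.hit (nat_lit 12) (nat_lit 20) (nat_lit 0xbc0001780002fdc4d) b16085 (.hit (nat_lit 16) (nat_lit 28) (nat_lit 0xbc0001780002fd4f4) b16089 (.tok (nat_lit 67) (nat_lit 0xbc0001780002ff2fe) (.hit (nat_lit 13) (nat_lit 21) (nat_lit 0xbc0001780002feb62) b16086 (.hit (nat_lit 17) (nat_lit 29) (nat_lit 0xbc0001780002fea7f) b16090 (.tok (nat_lit 9) (nat_lit 0xbc0001780002ff2fe) (.hit (nat_lit 14) (nat_lit 22) (nat_lit 0xbc0001780002fe5f2) b16087 (.one (nat_lit 67) (nat_lit 15) (nat_lit 23) (nat_lit 0xbc0001780002ff2fe) b16088 (.nil))) (.nil)))) (.nil)))) (.nil)))) (.nil)))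
noncomputable def r28_91 : Rw Blk := .tok (nat_lit 3) (nat_lit 0xbc0001780002feaa0) (.hit (nat_lit 18) (nat_lit 0) (nat_lit 0xbc0001780002feaa0) b29278 (.tok (nat_lit 6) (nat_lit 0xbc0001780002fceb9) (.hit (nat_lit 19) (nat_lit 7) (nat_lit 0xbc0001780002fceb9) b29281 (.hit (nat_lit 20) (nat_lit 15) (nat_lit 0xbc0001780002fc6ba) b29282 (.nil))) (.tok (nat_lit 9) (nat_lit 0xbc0001780002fd9e8) (.hit (nat_lit 21) (nat_lit 20) (nat_lit 0xbc0001780002fd9e8) b29279 (.hit (nat_lit 22) (nat_lit 28) (nat_lit 0xbc0001780002fc707) b29280 (.nil))) (.nil)))) (.tok (nat_lit 6) (nat_lit 0xbc0001780003032a6) (.hit (nat_lit 9) (nat_lit 0) (nat_lit 0xbc00017800030008e) b29269 (.tok (nat_lit 3) (nat_lit 0xbc0001780003028b6) (.hit (nat_lit 10) (nat_lit 1) (nat_lit 0xbc0001780002fed48) b29270 (.one (nat_lit 67) (nat_lit 11) (nat_lit 2) (nat_lit 0xbc0001780003028b6) b29271 (.nil))) (.tok (nat_lit 6)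 (nat_lit 0xbc0001780003032a6) (.hit (nat_lit 12) (nat_lit 7) (nat_lit 0xbc0001780002ff43d) b29272 (.hit (nat_lit 16) (nat_lit 15) (nat_lit 0xbc0001780002fdf7a) b29276 (.tok (nat_lit 55) (nat_lit 0xbc0001780003032a6) (.hit (nat_lit 13) (nat_lit 8) (nat_lit 0xbc000178000302f87) b29273 (.hit (nat_lit 17) (nat_lit 16) (nat_lit 0xbc00017800030091f) b29277 (.tok (nat_lit 6) (nat_lit 0xbc0001780003032a6) (.hit (nat_lit 14) (nat_lit 9) (nat_lit 0xbc0001780003026af) b29274 (.one (nat_lit 55) (nat_lit 15) (nat_lit 10) (nat_lit 0xbc0001780003032a6) b29275 (.nil))) (.nil)))) (.nil)))) (.nil)))) (.tok (nat_lit 9) (nat_lit 0xbc0001780002fef59) (.hit (nat_lit 0) (nat_lit 0) (nat_lit 0xbc0001780002fe8eb) b29260 (.tok (nat_lit 3) (nat_lit 0xbc0001780002fd9e7) (.hit (nat_lit 1) (nat_lit 1) (nat_lit 0xbc0001780002fc296) b29261 (.one (nat_lit 55) (nat_lit 2) (nat_lit 3) (nat_lit 0xbc0001780002fd9e7)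 b29262 (.nil))) (.tok (nat_lit 9) (nat_lit 0xbc0001780002fef59) (.hit (nat_lit 3) (nat_lit 20) (nat_lit 0xbc0001780002fc1ee) b29263 (.hit (nat_lit 7) (nat_lit 28) (nat_lit 0xbc0001780002fcb5a) b29267 (.tok (nat_lit 67) (nat_lit 0xbc0001780002fef59) (.hit (nat_lit 4) (nat_lit 21) (nat_lit 0xbc0001780002fe37f) b29264 (.hit (nat_lit 8) (nat_lit 29) (nat_lit 0xbc0001780002fead0) b29268 (.tok (nat_lit 9) (nat_lit 0xbc0001780002fef59) (.hit (nat_lit 5) (nat_lit 22) (nat_lit 0xbc0001780002fde51) b29265 (.one (nat_lit 67) (nat_lit 6) (nat_lit 23) (nat_lit 0xbc0001780002fef59) b29266 (.nil))) (.nil)))) (.nil)))) (.nil)))) (.nil)))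
noncomputable def r28_92 : Rw Blk := .tok (nat_lit 3) (nat_lit 0xbc0001780002fd59e) (.hit (nat_lit 18) (nat_lit 0) (nat_lit 0xbc0001780002fd59e) b16091 (.tok (nat_lit 6) (nat_lit 0xbc0001780002fc49b) (.hit (nat_lit 19) (nat_lit 7) (nat_lit 0xbc0001780002fc22e) b16094 (.hit (nat_lit 20) (nat_lit 15) (nat_lit 0xbc0001780002fc49b) b16095 (.nil))) (.tok (nat_lit 9) (nat_lit 0xbc0001780002fc727) (.hit (nat_lit 21) (nat_lit 20) (nat_lit 0xbc0001780002fc727) b16092 (.hit (nat_lit 22) (nat_lit 28) (nat_lit 0xbc0001780002fc545) b16093 (.nil))) (.nil)))) (.tok (nat_lit 6) (nat_lit 0xbc0001780002ff2fe) (.hit (nat_lit 9) (nat_lit 0) (nat_lit 0xbc0001780002fe02f) b16082 (.tok (nat_lit 3) (nat_lit 0xbc0001780002fe4f3) (.hit (nat_lit 10) (nat_lit 1) (nat_lit 0xbc0001780002fd337) b16083 (.one (nat_lit 67) (nat_lit 11) (nat_lit 2) (nat_lit 0xbc0001780002fe4f3) b16084 (.nil))) (.tok (nat_lit 6)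 (nat_lit 0xbc0001780002ff2fe) (.hit (nat_lit 12) (nat_lit 7) (nat_lit 0xbc0001780002fdc4d) b16085 (.hit (nat_lit 16) (nat_lit 15) (nat_lit 0xbc0001780002fd4f4) b16089 (.tok (nat_lit 55) (nat_lit 0xbc0001780002ff2fe) (.hit (nat_lit 13) (nat_lit 8) (nat_lit 0xbc0001780002feb62) b16086 (.hit (nat_lit 17) (nat_lit 16) (nat_lit 0xbc0001780002fea7f) b16090 (.tok (nat_lit 6) (nat_lit 0xbc0001780002ff2fe) (.hit (nat_lit 14) (nat_lit 9) (nat_lit 0xbc0001780002fe5f2) b16087 (.one (nat_lit 55) (nat_lit 15) (nat_lit 10) (nat_lit 0xbc0001780002ff2fe) b16088 (.nil))) (.nil)))) (.nil)))) (.nil)))) (.tok (nat_lit 9) (nat_lit 0xbc000178000300000) (.hit (nat_lit 0) (nat_lit 0) (nat_lit 0xbc0001780002fe915) b16073 (.tok (nat_lit 3) (nat_lit 0xbc0001780002fe5bd) (.hit (nat_lit 1) (nat_lit 1) (nat_lit 0xbc0001780002fce94) b16074 (.one (nat_lit 55) (nat_lit 2) (nat_lit 3) (nat_lit 0xbc0001780002fe5bd)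 b16075 (.nil))) (.tok (nat_lit 9) (nat_lit 0xbc000178000300000) (.hit (nat_lit 3) (nat_lit 20) (nat_lit 0xbc0001780002fdf2f) b16076 (.hit (nat_lit 7) (nat_lit 28) (nat_lit 0xbc0001780002fce2a) b16080 (.tok (nat_lit 67) (nat_lit 0xbc000178000300000) (.hit (nat_lit 4) (nat_lit 21) (nat_lit 0xbc0001780002ff240) b16077 (.hit (nat_lit 8) (nat_lit 29) (nat_lit 0xbc0001780002fe29b) b16081 (.tok (nat_lit 9) (nat_lit 0xbc000178000300000) (.hit (nat_lit 5) (nat_lit 22) (nat_lit 0xbc0001780002fec1a) b16078 (.one (nat_lit 67) (nat_lit 6) (nat_lit 23) (nat_lit 0xbc000178000300000) b16079 (.nil))) (.nil)))) (.nil)))) (.nil)))) (.nil)))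
noncomputable def r28_93 : Rw Blk := .tok (nat_lit 3) (nat_lit 0xbc0001780002fe5ec) (.hit (nat_lit 0) (nat_lit 0) (nat_lit 0xbc0001780002fe5ec) b16119 (.tok (nat_lit 6) (nat_lit 0xbc0001780002fdb5c) (.hit (nat_lit 1) (nat_lit 7) (nat_lit 0xbc0001780002fda30) b16120 (.hit (nat_lit 2) (nat_lit 15) (nat_lit 0xbc0001780002fdb5c) b16121 (.nil))) (.tok (nat_lit 9) (nat_lit 0xbc0001780002fdb5c) (.hit (nat_lit 3) (nat_lit 20) (nat_lit 0xbc0001780002fda30) b16120 (.hit (nat_lit 4) (nat_lit 28) (nat_lit 0xbc0001780002fdb5c) b16121 (.nil))) (.nil)))) (.tok (nat_lit 6) (nat_lit 0xbc000178000300000) (.hit (nat_lit 13) (nat_lit 0) (nat_lit 0xbc0001780002fed26) b16122 (.tok (nat_lit 3) (nat_lit 0xbc0001780002ffe44) (.hit (nat_lit 14) (nat_lit 1) (nat_lit 0xbc0001780002fdf58) b16123 (.one (nat_lit 67) (nat_lit 15) (nat_lit 2) (nat_lit 0xbc0001780002ffe44) b16124 (.nil))) (.tok (nat_lit 6) (nat_lit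 0xbc000178000300000) (.hit (nat_lit 16) (nat_lit 7) (nat_lit 0xbc0001780002feb89) b16125 (.hit (nat_lit 19) (nat_lit 15) (nat_lit 0xbc0001780002fe21f) b16128 (.tok (nat_lit 55) (nat_lit 0xbc000178000300000) (.hit (nat_lit 17) (nat_lit 8) (nat_lit 0xbc0001780002fffa8) b16126 (.hit (nat_lit 20) (nat_lit 16) (nat_lit 0xbc0001780002ffbe6) b16129 (.one (nat_lit 6) (nat_lit 18) (nat_lit 9) (nat_lit 0xbc000178000300000) b16127 (.nil)))) (.nil)))) (.nil)))) (.tok (nat_lit 9) (nat_lit 0xbc000178000300000) (.hit (nat_lit 5) (nat_lit 0) (nat_lit 0xbc0001780002fed26) b16122 (.tok (nat_lit 3) (nat_lit 0xbc0001780002ffe44) (.hit (nat_lit 6) (nat_lit 1) (nat_lit 0xbc0001780002fdf58) b16123 (.one (nat_lit 55) (nat_lit 7) (nat_lit 3) (nat_lit 0xbc0001780002ffe44) b16124 (.nil))) (.tok (nat_lit 9) (nat_lit 0xbc000178000300000) (.hit (nat_lit 8) (nat_lit 20) (nat_lit 0xbc0001780002feb89) b16125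 (.hit (nat_lit 11) (nat_lit 28) (nat_lit 0xbc0001780002fe21f) b16128 (.tok (nat_lit 67) (nat_lit 0xbc000178000300000) (.hit (nat_lit 9) (nat_lit 21) (nat_lit 0xbc0001780002fffa8) b16126 (.hit (nat_lit 12) (nat_lit 29) (nat_lit 0xbc0001780002ffbe6) b16129 (.one (nat_lit 9) (nat_lit 10) (nat_lit 22) (nat_lit 0xbc000178000300000) b16127 (.nil)))) (.nil)))) (.nil)))) (.nil)))
noncomputable def r28_94 : Rw Blk := .tok (nat_lit 3) (nat_lit 0xbc0001780002fdf98) (.hit (nat_lit 0) (nat_lit 0) (nat_lit 0xbc0001780002fdf98) b16130 (.tok (nat_lit 6) (nat_lit 0xbc0001780002fceef) (.hit (nat_lit 1) (nat_lit 7) (nat_lit 0xbc0001780002fceef) b16131 (.hit (nat_lit 2) (nat_lit 15) (nat_lit 0xbc0001780002fcee7) b16132 (.nil))) (.tok (nat_lit 9) (nat_lit 0xbc0001780002fceef) (.hit (nat_lit 3) (nat_lit 20) (nat_lit 0xbc0001780002fceef) b16131 (.hit (nat_lit 4) (nat_lit 28) (nat_lit 0xbc0001780002fcee7)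 b16132 (.nil))) (.nil)))) (.tok (nat_lit 6) (nat_lit 0xbc000178000300000) (.hit (nat_lit 5) (nat_lit 0) (nat_lit 0xbc0001780002fee98) b16133 (.one (nat_lit 3) (nat_lit 6) (nat_lit 1) (nat_lit 0xbc0001780002fd990) b16134 (.tok (nat_lit 6) (nat_lit 0xbc000178000300000) (.hit (nat_lit 7) (nat_lit 7) (nat_lit 0xbc0001780002feabf) b16135 (.hit (nat_lit 11) (nat_lit 15) (nat_lit 0xbc0001780002fe1d3) b16139 (.tok (nat_lit 55) (nat_lit 0xbc000178000300000) (.hit (nat_lit 8) (nat_lit 8) (nat_lit 0xbc0001780002fe8fb) b16136 (.hit (nat_lit 12) (nat_lit 16) (nat_lit 0xbc0001780002fefed) b16140 (.tok (nat_lit 6) (nat_lit 0xbc000178000300000) (.hit (nat_lit 9) (nat_lit 9) (nat_lit 0xbc0001780002ff0f4) b16137 (.one (nat_lit 55) (nat_lit 10) (nat_lit 10) (nat_lit 0xbc000178000300000) b16138 (.nil))) (.nil)))) (.nil)))) (.nil)))) (.tok (nat_lit 9) (nat_lit 0xbc000178000300000) (.hit (nat_lit 13)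 (nat_lit 0) (nat_lit 0xbc0001780002fee98) b16133 (.one (nat_lit 3) (nat_lit 14) (nat_lit 1) (nat_lit 0xbc0001780002fd990) b16134 (.tok (nat_lit 9) (nat_lit 0xbc000178000300000) (.hit (nat_lit 15) (nat_lit 20) (nat_lit 0xbc0001780002feabf) b16135 (.hit (nat_lit 19) (nat_lit 28) (nat_lit 0xbc0001780002fe1d3) b16139 (.tok (nat_lit 67) (nat_lit 0xbc000178000300000) (.hit (nat_lit 16) (nat_lit 21) (nat_lit 0xbc0001780002fe8fb) b16136 (.hit (nat_lit 20) (nat_lit 29) (nat_lit 0xbc0001780002fefed) b16140 (.tok (nat_lit 9) (nat_lit 0xbc000178000300000) (.hit (nat_lit 17) (nat_lit 22) (nat_lit 0xbc0001780002ff0f4) b16137 (.one (nat_lit 67) (nat_lit 18) (nat_lit 23) (nat_lit 0xbc000178000300000) b16138 (.nil))) (.nil)))) (.nil)))) (.nil)))) (.nil)))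
noncomputable def r28_95 : Rw Blk := .tok (nat_lit 3) (nat_lit 0xbc0001780002fdbbf) (.hit (nat_lit 14) (nat_lit 0) (nat_lit 0xbc0001780002fdbbf) b16155 (.tok (nat_lit 6) (nat_lit 0xbc0001780002fc30d) (.hit (nat_lit 15) (nat_lit 7) (nat_lit 0xbc0001780002fc30d) b16156 (.hit (nat_lit 16) (nat_lit 15) (nat_lit 0xbc0001780002fb297) b16157 (.nil))) (.tok (nat_lit 9) (nat_lit 0xbc0001780002fd271) (.hit (nat_lit 17) (nat_lit 20) (nat_lit 0xbc0001780002fd271) b16158 (.hit (nat_lit 18) (nat_lit 28) (nat_lit 0xbc0001780002fd237) b16159 (.nil))) (.nil)))) (.tok (nat_lit 6) (nat_lit 0xbc000178000300000) (.hit (nat_lit 0) (nat_lit 0) (nat_lit 0xbc0001780002ff183) b16141 (.tok (nat_lit 3) (nat_lit 0xbc0001780002ffb06) (.hit (nat_lit 1) (nat_lit 1) (nat_lit 0xbc0001780002fe1d7) b16142 (.one (nat_lit 67) (nat_lit 2) (nat_lit 2) (nat_lit 0xbc0001780002ffb06) b16143 (.nil))) (.tok (nat_lit 6) (nat_lit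 0xbc000178000300000) (.hit (nat_lit 3) (nat_lit 7) (nat_lit 0xbc0001780002fea6e) b16144 (.hit (nat_lit 7) (nat_lit 15) (nat_lit 0xbc0001780002fe05a) b16148 (.tok (nat_lit 55) (nat_lit 0xbc000178000300000) (.hit (nat_lit 4) (nat_lit 8) (nat_lit 0xbc0001780002ff7b3) b16145 (.hit (nat_lit 8) (nat_lit 16) (nat_lit 0xbc0001780002ff930) b16149 (.tok (nat_lit 6) (nat_lit 0xbc000178000300000) (.hit (nat_lit 5) (nat_lit 9) (nat_lit 0xbc0001780002ff1d3) b16146 (.one (nat_lit 55) (nat_lit 6) (nat_lit 10) (nat_lit 0xbc000178000300000) b16147 (.nil))) (.nil)))) (.nil)))) (.nil)))) (.tok (nat_lit 9) (nat_lit 0xbc0001780002fe469) (.hit (nat_lit 9) (nat_lit 0) (nat_lit 0xbc0001780002fdbc2) b16150 (.tok (nat_lit 3) (nat_lit 0xbc0001780002fe22e) (.hit (nat_lit 10) (nat_lit 1) (nat_lit 0xbc0001780002fd8cf) b16151 (.one (nat_lit 55) (nat_lit 11) (nat_lit 3) (nat_lit 0xbc0001780002fe22e) b16152 (.nil)))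 (.tok (nat_lit 9) (nat_lit 0xbc0001780002fe469) (.hit (nat_lit 12) (nat_lit 20) (nat_lit 0xbc0001780002fe469) b16153 (.hit (nat_lit 13) (nat_lit 28) (nat_lit 0xbc0001780002fdfb2) b16154 (.nil))) (.nil)))) (.nil)))
noncomputable def r28_96 : Rw Blk := .tok (nat_lit 3) (nat_lit 0xbc0001780002fdbbf) (.hit (nat_lit 14) (nat_lit 0) (nat_lit 0xbc0001780002fdbbf) b16155 (.tok (nat_lit 6) (nat_lit 0xbc0001780002fd271) (.hit (nat_lit 15) (nat_lit 7) (nat_lit 0xbc0001780002fd271) b16158 (.hit (nat_lit 16) (nat_lit 15) (nat_lit 0xbc0001780002fd237) b16159 (.nil))) (.tok (nat_lit 9) (nat_lit 0xbc0001780002fc30d) (.hit (nat_lit 17) (nat_lit 20) (nat_lit 0xbc0001780002fc30d) b16156 (.hit (nat_lit 18) (nat_lit 28) (nat_lit 0xbc0001780002fb297) b16157 (.nil))) (.nil)))) (.tok (nat_lit 6) (nat_lit 0xbc0001780002fe469) (.hit (nat_lit 9) (nat_lit 0) (nat_lit 0xbc0001780002fdbc2) b16150 (.tok (nat_lit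 3) (nat_lit 0xbc0001780002fe22e) (.hit (nat_lit 10) (nat_lit 1) (nat_lit 0xbc0001780002fd8cf) b16151 (.one (nat_lit 67) (nat_lit 11) (nat_lit 2) (nat_lit 0xbc0001780002fe22e) b16152 (.nil))) (.tok (nat_lit 6) (nat_lit 0xbc0001780002fe469) (.hit (nat_lit 12) (nat_lit 7) (nat_lit 0xbc0001780002fe469) b16153 (.hit (nat_lit 13) (nat_lit 15) (nat_lit 0xbc0001780002fdfb2) b16154 (.nil))) (.nil)))) (.tok (nat_lit 9) (nat_lit 0xbc000178000300000) (.hit (nat_lit 0) (nat_lit 0) (nat_lit 0xbc0001780002ff183) b16141 (.tok (nat_lit 3) (nat_lit 0xbc0001780002ffb06) (.hit (nat_lit 1) (nat_lit 1) (nat_lit 0xbc0001780002fe1d7) b16142 (.one (nat_lit 55) (nat_lit 2) (nat_lit 3) (nat_lit 0xbc0001780002ffb06) b16143 (.nil))) (.tok (nat_lit 9) (nat_lit 0xbc000178000300000) (.hit (nat_lit 3) (nat_lit 20) (nat_lit 0xbc0001780002fea6e) b16144 (.hit (nat_lit 7) (nat_lit 28) (nat_lit 0xbc0001780002fe05a)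 b16148 (.tok (nat_lit 67) (nat_lit 0xbc000178000300000) (.hit (nat_lit 4) (nat_lit 21) (nat_lit 0xbc0001780002ff7b3) b16145 (.hit (nat_lit 8) (nat_lit 29) (nat_lit 0xbc0001780002ff930) b16149 (.tok (nat_lit 9) (nat_lit 0xbc000178000300000) (.hit (nat_lit 5) (nat_lit 22) (nat_lit 0xbc0001780002ff1d3) b16146 (.one (nat_lit 67) (nat_lit 6) (nat_lit 23) (nat_lit 0xbc000178000300000) b16147 (.nil))) (.nil)))) (.nil)))) (.nil)))) (.nil)))
noncomputable def r28_97 : Rw Blk := .tok (nat_lit 3) (nat_lit 0xbc0001780002fd04b) (.hit (nat_lit 0) (nat_lit 0) (nat_lit 0xbc0001780002fd04b) b29306 (.tok (nat_lit 6) (nat_lit 0xbc0001780002fc262) (.hit (nat_lit 1) (nat_lit 7) (nat_lit 0xbc0001780002fc262) b29307 (.hit (nat_lit 2) (nat_lit 15) (nat_lit 0xbc0001780002fc218) b29308 (.nil))) (.tok (nat_lit 9) (nat_lit 0xbc0001780002fc262) (.hit (nat_lit 3) (nat_lit 20) (nat_lit 0xbc0001780002fc262)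 b29307 (.hit (nat_lit 4) (nat_lit 28) (nat_lit 0xbc0001780002fc218) b29308 (.nil))) (.nil)))) (.tok (nat_lit 6) (nat_lit 0xbc000178000300000) (.hit (nat_lit 5) (nat_lit 0) (nat_lit 0xbc0001780002fefc9) b29309 (.tok (nat_lit 3) (nat_lit 0xbc0001780002fe085) (.hit (nat_lit 6) (nat_lit 1) (nat_lit 0xbc0001780002fc330) b29310 (.one (nat_lit 67) (nat_lit 7) (nat_lit 2) (nat_lit 0xbc0001780002fe085) b29311 (.nil))) (.tok (nat_lit 6) (nat_lit 0xbc000178000300000) (.hit (nat_lit 8) (nat_lit 7) (nat_lit 0xbc0001780002fe92c) b29312 (.hit (nat_lit 11) (nat_lit 15) (nat_lit 0xbc0001780002fca4e) b29315 (.tok (nat_lit 55) (nat_lit 0xbc000178000300000) (.hit (nat_lit 9) (nat_lit 8) (nat_lit 0xbc000178000300000) b29313 (.hit (nat_lit 12) (nat_lit 16) (nat_lit 0xbc0001780002ff0b6) b29316 (.one (nat_lit 6) (nat_lit 10) (nat_lit 9) (nat_lit 0xbc0001780002ff3e1) b29314 (.nil)))) (.nil)))) (.nil))))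 (.tok (nat_lit 9) (nat_lit 0xbc000178000300000) (.hit (nat_lit 13) (nat_lit 0) (nat_lit 0xbc0001780002fefc9) b29309 (.tok (nat_lit 3) (nat_lit 0xbc0001780002fe085) (.hit (nat_lit 14) (nat_lit 1) (nat_lit 0xbc0001780002fc330) b29310 (.one (nat_lit 55) (nat_lit 15) (nat_lit 3) (nat_lit 0xbc0001780002fe085) b29311 (.nil))) (.tok (nat_lit 9) (nat_lit 0xbc000178000300000) (.hit (nat_lit 16) (nat_lit 20) (nat_lit 0xbc0001780002fe92c) b29312 (.hit (nat_lit 19) (nat_lit 28) (nat_lit 0xbc0001780002fca4e) b29315 (.tok (nat_lit 67) (nat_lit 0xbc000178000300000) (.hit (nat_lit 17) (nat_lit 21) (nat_lit 0xbc000178000300000) b29313 (.hit (nat_lit 20) (nat_lit 29) (nat_lit 0xbc0001780002ff0b6) b29316 (.one (nat_lit 9) (nat_lit 18) (nat_lit 22) (nat_lit 0xbc0001780002ff3e1) b29314 (.nil)))) (.nil)))) (.nil)))) (.nil)))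
noncomputable def r28_98 : Rw Blk := .tok (nat_lit 3) (nat_lit 0xbc0001780002fe4d2) (.hit (nat_lit 0) (nat_lit 0) (nat_lit 0xbc0001780002fe4d2) b16171 (.tok (nat_lit 6) (nat_lit 0xbc0001780002fd97b) (.hit (nat_lit 1) (nat_lit 7) (nat_lit 0xbc0001780002fd97b) b16172 (.hit (nat_lit 2) (nat_lit 15) (nat_lit 0xbc0001780002fd7d2) b16173 (.nil))) (.tok (nat_lit 9) (nat_lit 0xbc0001780002fd97b) (.hit (nat_lit 3) (nat_lit 20) (nat_lit 0xbc0001780002fd97b) b16172 (.hit (nat_lit 4) (nat_lit 28) (nat_lit 0xbc0001780002fd7d2) b16173 (.nil))) (.nil)))) (.tok (nat_lit 6) (nat_lit 0xbc000178000300000) (.hit (nat_lit 13) (nat_lit 0) (nat_lit 0xbc0001780002ff632) b16174 (.one (nat_lit 3) (nat_lit 14) (nat_lit 1) (nat_lit 0xbc0001780002fd3fc) b16175 (.tok (nat_lit 6) (nat_lit 0xbc000178000300000) (.hit (nat_lit 15) (nat_lit 7) (nat_lit 0xbc0001780002ff0a7) b16176 (.hit (nat_lit 19) (nat_lit 15)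 (nat_lit 0xbc0001780002fe24a) b16180 (.tok (nat_lit 55) (nat_lit 0xbc000178000300000) (.hit (nat_lit 16) (nat_lit 8) (nat_lit 0xbc0001780002fffca) b16177 (.hit (nat_lit 20) (nat_lit 16) (nat_lit 0xbc000178000300000) b16181 (.tok (nat_lit 6) (nat_lit 0xbc0001780002fffb0) (.hit (nat_lit 17) (nat_lit 9) (nat_lit 0xbc0001780002ff169) b16178 (.one (nat_lit 55) (nat_lit 18) (nat_lit 10) (nat_lit 0xbc0001780002fffb0) b16179 (.nil))) (.nil)))) (.nil)))) (.nil)))) (.tok (nat_lit 9) (nat_lit 0xbc000178000300000) (.hit (nat_lit 5) (nat_lit 0) (nat_lit 0xbc0001780002ff632) b16174 (.one (nat_lit 3) (nat_lit 6) (nat_lit 1) (nat_lit 0xbc0001780002fd3fc) b16175 (.tok (nat_lit 9) (nat_lit 0xbc000178000300000) (.hit (nat_lit 7) (nat_lit 20) (nat_lit 0xbc0001780002ff0a7) b16176 (.hit (nat_lit 11) (nat_lit 28) (nat_lit 0xbc0001780002fe24a) b16180 (.tok (nat_lit 67) (nat_lit 0xbc000178000300000) (.hit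 (nat_lit 8) (nat_lit 21) (nat_lit 0xbc0001780002fffca) b16177 (.hit (nat_lit 12) (nat_lit 29) (nat_lit 0xbc000178000300000) b16181 (.tok (nat_lit 9) (nat_lit 0xbc0001780002fffb0) (.hit (nat_lit 9) (nat_lit 22) (nat_lit 0xbc0001780002ff169) b16178 (.one (nat_lit 67) (nat_lit 10) (nat_lit 23) (nat_lit 0xbc0001780002fffb0) b16179 (.nil))) (.nil)))) (.nil)))) (.nil)))) (.nil)))
noncomputable def r28_99 : Rw Blk := .tok (nat_lit 3) (nat_lit 0xbc0001780002fd8e5) (.hit (nat_lit 0) (nat_lit 0) (nat_lit 0xbc0001780002fd8e5) b16182 (.tok (nat_lit 6) (nat_lit 0xbc0001780002fc349) (.hit (nat_lit 1) (nat_lit 7) (nat_lit 0xbc0001780002fc239) b16183 (.hit (nat_lit 2) (nat_lit 15) (nat_lit 0xbc0001780002fc349) b16184 (.nil))) (.tok (nat_lit 9) (nat_lit 0xbc0001780002fc349) (.hit (nat_lit 3) (nat_lit 20) (nat_lit 0xbc0001780002fc239) b16183 (.hit (nat_lit 4) (nat_lit 28) (nat_lit 0xbc0001780002fc349)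 b16184 (.nil))) (.nil)))) (.tok (nat_lit 6) (nat_lit 0xbc000178000300000) (.hit (nat_lit 13) (nat_lit 0) (nat_lit 0xbc0001780002fe3d4) b16185 (.one (nat_lit 3) (nat_lit 14) (nat_lit 1) (nat_lit 0xbc0001780002fc979) b16186 (.tok (nat_lit 6) (nat_lit 0xbc000178000300000) (.hit (nat_lit 15) (nat_lit 7) (nat_lit 0xbc0001780002fdc45) b16187 (.hit (nat_lit 19) (nat_lit 15) (nat_lit 0xbc0001780002fcd61) b16191 (.tok (nat_lit 55) (nat_lit 0xbc000178000300000) (.hit (nat_lit 16) (nat_lit 8) (nat_lit 0xbc000178000300000) b16188 (.hit (nat_lit 20) (nat_lit 16) (nat_lit 0xbc0001780002fe5f9) b16192 (.tok (nat_lit 6) (nat_lit 0xbc0001780002ff263) (.hit (nat_lit 17) (nat_lit 9) (nat_lit 0xbc0001780002feb09) b16189 (.one (nat_lit 55) (nat_lit 18) (nat_lit 10) (nat_lit 0xbc0001780002ff263) b16190 (.nil))) (.nil)))) (.nil)))) (.nil)))) (.tok (nat_lit 9) (nat_lit 0xbc000178000300000) (.hit (nat_lit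 5) (nat_lit 0) (nat_lit 0xbc0001780002fe3d4) b16185 (.one (nat_lit 3) (nat_lit 6) (nat_lit 1) (nat_lit 0xbc0001780002fc979) b16186 (.tok (nat_lit 9) (nat_lit 0xbc000178000300000) (.hit (nat_lit 7) (nat_lit 20) (nat_lit 0xbc0001780002fdc45) b16187 (.hit (nat_lit 11) (nat_lit 28) (nat_lit 0xbc0001780002fcd61) b16191 (.tok (nat_lit 67) (nat_lit 0xbc000178000300000) (.hit (nat_lit 8) (nat_lit 21) (nat_lit 0xbc000178000300000) b16188 (.hit (nat_lit 12) (nat_lit 29) (nat_lit 0xbc0001780002fe5f9) b16192 (.tok (nat_lit 9) (nat_lit 0xbc0001780002ff263) (.hit (nat_lit 9) (nat_lit 22) (nat_lit 0xbc0001780002feb09) b16189 (.one (nat_lit 67) (nat_lit 10) (nat_lit 23) (nat_lit 0xbc0001780002ff263) b16190 (.nil))) (.nil)))) (.nil)))) (.nil)))) (.nil)))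
noncomputable def r28_100 : Rw Blk := .tok (nat_lit 3) (nat_lit 0xbc0001780002fe2cd) (.hit (nat_lit 14) (nat_lit 0) (nat_lit 0xbc0001780002fe2cd) b8399 (.tok (nat_lit 6) (nat_lit 0xbc0001780002fd794) (.hit (nat_lit 15) (nat_lit 7) (nat_lit 0xbc0001780002fd794) b8400 (.hit (nat_lit 16) (nat_lit 15) (nat_lit 0xbc0001780002fcb6d) b8401 (.nil))) (.tok (nat_lit 9) (nat_lit 0xbc0001780002fbfc6) (.hit (nat_lit 17) (nat_lit 20) (nat_lit 0xbc0001780002fbfc6) b8402 (.hit (nat_lit 18) (nat_lit 28) (nat_lit 0xbc0001780002fb9fe) b8403 (.nil))) (.nil)))) (.tok (nat_lit 6) (nat_lit 0xbc0001780002ffcad) (.hit (nat_lit 9) (nat_lit 0) (nat_lit 0xbc0001780002ff925) b8394 (.tok (nat_lit 3) (nat_lit 0xbc0001780002ffcad) (.hit (nat_lit 10) (nat_lit 1) (nat_lit 0xbc0001780002fe6ca) b8395 (.one (nat_lit 67) (nat_lit 11) (nat_lit 2) (nat_lit 0xbc0001780002ffcad) b8396 (.nil))) (.tok (nat_lit 6) (nat_lit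 0xbc0001780002ff74e) (.hit (nat_lit 12) (nat_lit 7) (nat_lit 0xbc0001780002ff74e) b8397 (.hit (nat_lit 13) (nat_lit 15) (nat_lit 0xbc0001780002fe7fa) b8398 (.nil))) (.nil)))) (.tok (nat_lit 9) (nat_lit 0xbc000178000300000) (.hit (nat_lit 0) (nat_lit 0) (nat_lit 0xbc0001780002ff8d3) b8385 (.tok (nat_lit 3) (nat_lit 0xbc000178000300000) (.hit (nat_lit 1) (nat_lit 1) (nat_lit 0xbc0001780002fe45a) b8386 (.one (nat_lit 55) (nat_lit 2) (nat_lit 3) (nat_lit 0xbc000178000300000) b8387 (.nil))) (.tok (nat_lit 9) (nat_lit 0xbc0001780002ffdbf) (.hit (nat_lit 3) (nat_lit 20) (nat_lit 0xbc0001780002fee91) b8388 (.hit (nat_lit 7) (nat_lit 28) (nat_lit 0xbc0001780002fdcf4) b8392 (.tok (nat_lit 67) (nat_lit 0xbc0001780002ffdbf) (.hit (nat_lit 4) (nat_lit 21) (nat_lit 0xbc0001780002ffdbf) b8389 (.hit (nat_lit 8) (nat_lit 29) (nat_lit 0xbc0001780002fed2e) b8393 (.tok (nat_lit 9) (nat_lit 0xbc0001780002ffccd)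 (.hit (nat_lit 5) (nat_lit 22) (nat_lit 0xbc0001780002ff116) b8390 (.one (nat_lit 67) (nat_lit 6) (nat_lit 23) (nat_lit 0xbc0001780002ffccd) b8391 (.nil))) (.nil)))) (.nil)))) (.nil)))) (.nil)))
noncomputable def r28_101 : Rw Blk := .tok (nat_lit 3) (nat_lit 0xbc0001780002fcfd9) (.hit (nat_lit 14) (nat_lit 0) (nat_lit 0xbc0001780002fcfd9) b16207 (.tok (nat_lit 6) (nat_lit 0xbc0001780002fc875) (.hit (nat_lit 15) (nat_lit 7) (nat_lit 0xbc0001780002fc4d6) b16208 (.hit (nat_lit 16) (nat_lit 15) (nat_lit 0xbc0001780002fc875) b16209 (.nil))) (.tok (nat_lit 9) (nat_lit 0xbc0001780002fb3ea) (.hit (nat_lit 17) (nat_lit 20) (nat_lit 0xbc0001780002fb3ea) b16210 (.hit (nat_lit 18) (nat_lit 28) (nat_lit 0xbc0001780002faf21) b16211 (.nil))) (.nil)))) (.tok (nat_lit 6) (nat_lit 0xbc0001780002fee07) (.hit (nat_lit 9) (nat_lit 0) (nat_lit 0xbc0001780002fdde8) b16202 (.tok (nat_lit 3) (nat_lit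 0xbc0001780002fee07) (.hit (nat_lit 10) (nat_lit 1) (nat_lit 0xbc0001780002fd4e9) b16203 (.one (nat_lit 67) (nat_lit 11) (nat_lit 2) (nat_lit 0xbc0001780002fee07) b16204 (.nil))) (.tok (nat_lit 6) (nat_lit 0xbc0001780002fe1e0) (.hit (nat_lit 12) (nat_lit 7) (nat_lit 0xbc0001780002fe1e0) b16205 (.hit (nat_lit 13) (nat_lit 15) (nat_lit 0xbc0001780002fd5fc) b16206 (.nil))) (.nil)))) (.tok (nat_lit 9) (nat_lit 0xbc000178000300000) (.hit (nat_lit 0) (nat_lit 0) (nat_lit 0xbc0001780002fe877) b16193 (.tok (nat_lit 3) (nat_lit 0xbc0001780002ff969) (.hit (nat_lit 1) (nat_lit 1) (nat_lit 0xbc0001780002fd4f9) b16194 (.one (nat_lit 55) (nat_lit 2) (nat_lit 3) (nat_lit 0xbc0001780002ff969) b16195 (.nil))) (.tok (nat_lit 9) (nat_lit 0xbc000178000300000) (.hit (nat_lit 3) (nat_lit 20) (nat_lit 0xbc0001780002fe112) b16196 (.hit (nat_lit 7) (nat_lit 28) (nat_lit 0xbc0001780002fd22c) b16200 (.tok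 (nat_lit 67) (nat_lit 0xbc000178000300000) (.hit (nat_lit 4) (nat_lit 21) (nat_lit 0xbc0001780002ffb6a) b16197 (.hit (nat_lit 8) (nat_lit 29) (nat_lit 0xbc0001780002feb20) b16201 (.tok (nat_lit 9) (nat_lit 0xbc000178000300000) (.hit (nat_lit 5) (nat_lit 22) (nat_lit 0xbc0001780002fe4c1) b16198 (.one (nat_lit 67) (nat_lit 6) (nat_lit 23) (nat_lit 0xbc000178000300000) b16199 (.nil))) (.nil)))) (.nil)))) (.nil)))) (.nil)))
noncomputable def r28_102 : Rw Blk := .tok (nat_lit 3) (nat_lit 0xbc0001780002fe2cd) (.hit (nat_lit 14) (nat_lit 0) (nat_lit 0xbc0001780002fe2cd) b8399 (.tok (nat_lit 6) (nat_lit 0xbc0001780002fbfc6) (.hit (nat_lit 15) (nat_lit 7) (nat_lit 0xbc0001780002fbfc6) b8402 (.hit (nat_lit 16) (nat_lit 15) (nat_lit 0xbc0001780002fb9fe) b8403 (.nil))) (.tok (nat_lit 9) (nat_lit 0xbc0001780002fd794) (.hit (nat_lit 17) (nat_lit 20) (nat_lit 0xbc0001780002fd794) b8400 (.hit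 (nat_lit 18) (nat_lit 28) (nat_lit 0xbc0001780002fcb6d) b8401 (.nil))) (.nil)))) (.tok (nat_lit 6) (nat_lit 0xbc000178000300000) (.hit (nat_lit 0) (nat_lit 0) (nat_lit 0xbc0001780002ff8d3) b8385 (.tok (nat_lit 3) (nat_lit 0xbc000178000300000) (.hit (nat_lit 1) (nat_lit 1) (nat_lit 0xbc0001780002fe45a) b8386 (.one (nat_lit 67) (nat_lit 2) (nat_lit 2) (nat_lit 0xbc000178000300000) b8387 (.nil))) (.tok (nat_lit 6) (nat_lit 0xbc0001780002ffdbf) (.hit (nat_lit 3) (nat_lit 7) (nat_lit 0xbc0001780002fee91) b8388 (.hit (nat_lit 7) (nat_lit 15) (nat_lit 0xbc0001780002fdcf4) b8392 (.tok (nat_lit 55) (nat_lit 0xbc0001780002ffdbf) (.hit (nat_lit 4) (nat_lit 8) (nat_lit 0xbc0001780002ffdbf) b8389 (.hit (nat_lit 8) (nat_lit 16) (nat_lit 0xbc0001780002fed2e) b8393 (.tok (nat_lit 6) (nat_lit 0xbc0001780002ffccd) (.hit (nat_lit 5) (nat_lit 9) (nat_lit 0xbc0001780002ff116) b8390 (.one (nat_lit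 55) (nat_lit 6) (nat_lit 10) (nat_lit 0xbc0001780002ffccd) b8391 (.nil))) (.nil)))) (.nil)))) (.nil)))) (.tok (nat_lit 9) (nat_lit 0xbc0001780002ffcad) (.hit (nat_lit 9) (nat_lit 0) (nat_lit 0xbc0001780002ff925) b8394 (.tok (nat_lit 3) (nat_lit 0xbc0001780002ffcad) (.hit (nat_lit 10) (nat_lit 1) (nat_lit 0xbc0001780002fe6ca) b8395 (.one (nat_lit 55) (nat_lit 11) (nat_lit 3) (nat_lit 0xbc0001780002ffcad) b8396 (.nil))) (.tok (nat_lit 9) (nat_lit 0xbc0001780002ff74e) (.hit (nat_lit 12) (nat_lit 20) (nat_lit 0xbc0001780002ff74e) b8397 (.hit (nat_lit 13) (nat_lit 28) (nat_lit 0xbc0001780002fe7fa) b8398 (.nil))) (.nil)))) (.nil)))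
noncomputable def r28_103 : Rw Blk := .tok (nat_lit 3) (nat_lit 0xbc0001780002fcfd9) (.hit (nat_lit 14) (nat_lit 0) (nat_lit 0xbc0001780002fcfd9) b16207 (.tok (nat_lit 6) (nat_lit 0xbc0001780002fb3ea) (.hit (nat_lit 15) (nat_lit 7) (nat_lit 0xbc0001780002fb3ea) b16210 (.hit (nat_lit 16) (nat_lit 15) (nat_lit 0xbc0001780002faf21) b16211 (.nil))) (.tok (nat_lit 9) (nat_lit 0xbc0001780002fc875) (.hit (nat_lit 17) (nat_lit 20) (nat_lit 0xbc0001780002fc4d6) b16208 (.hit (nat_lit 18) (nat_lit 28) (nat_lit 0xbc0001780002fc875) b16209 (.nil))) (.nil)))) (.tok (nat_lit 6) (nat_lit 0xbc000178000300000) (.hit (nat_lit 0) (nat_lit 0) (nat_lit 0xbc0001780002fe877) b16193 (.tok (nat_lit 3) (nat_lit 0xbc0001780002ff969) (.hit (nat_lit 1) (nat_lit 1) (nat_lit 0xbc0001780002fd4f9) b16194 (.one (nat_lit 67) (nat_lit 2) (nat_lit 2) (nat_lit 0xbc0001780002ff969) b16195 (.nil))) (.tok (nat_lit 6)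 (nat_lit 0xbc000178000300000) (.hit (nat_lit 3) (nat_lit 7) (nat_lit 0xbc0001780002fe112) b16196 (.hit (nat_lit 7) (nat_lit 15) (nat_lit 0xbc0001780002fd22c) b16200 (.tok (nat_lit 55) (nat_lit 0xbc000178000300000) (.hit (nat_lit 4) (nat_lit 8) (nat_lit 0xbc0001780002ffb6a) b16197 (.hit (nat_lit 8) (nat_lit 16) (nat_lit 0xbc0001780002feb20) b16201 (.tok (nat_lit 6) (nat_lit 0xbc000178000300000) (.hit (nat_lit 5) (nat_lit 9) (nat_lit 0xbc0001780002fe4c1) b16198 (.one (nat_lit 55) (nat_lit 6) (nat_lit 10) (nat_lit 0xbc000178000300000) b16199 (.nil))) (.nil)))) (.nil)))) (.nil)))) (.tok (nat_lit 9) (nat_lit 0xbc0001780002fee07) (.hit (nat_lit 9) (nat_lit 0) (nat_lit 0xbc0001780002fdde8) b16202 (.tok (nat_lit 3) (nat_lit 0xbc0001780002fee07) (.hit (nat_lit 10) (nat_lit 1) (nat_lit 0xbc0001780002fd4e9) b16203 (.one (nat_lit 55) (nat_lit 11) (nat_lit 3) (nat_lit 0xbc0001780002fee07)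 b16204 (.nil))) (.tok (nat_lit 9) (nat_lit 0xbc0001780002fe1e0) (.hit (nat_lit 12) (nat_lit 20) (nat_lit 0xbc0001780002fe1e0) b16205 (.hit (nat_lit 13) (nat_lit 28) (nat_lit 0xbc0001780002fd5fc) b16206 (.nil))) (.nil)))) (.nil)))
noncomputable def r28_104 : Rw Blk := .tok (nat_lit 3) (nat_lit 0xbc0001780002fd52a) (.hit (nat_lit 0) (nat_lit 0) (nat_lit 0xbc0001780002fd52a) b16212 (.tok (nat_lit 6) (nat_lit 0xbc0001780002fce4b) (.hit (nat_lit 1) (nat_lit 7) (nat_lit 0xbc0001780002fce4b) b16213 (.hit (nat_lit 2) (nat_lit 15) (nat_lit 0xbc0001780002fcc28) b16214 (.nil))) (.tok (nat_lit 9) (nat_lit 0xbc0001780002fd05f) (.hit (nat_lit 3) (nat_lit 20) (nat_lit 0xbc0001780002fd044) b16215 (.hit (nat_lit 4) (nat_lit 28) (nat_lit 0xbc0001780002fd05f) b16216 (.nil))) (.nil)))) (.tok (nat_lit 6) (nat_lit 0xbc000178000300000) (.hit (nat_lit 5) (nat_lit 0) (nat_lit 0xbc0001780002fe657) b16217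 (.tok (nat_lit 3) (nat_lit 0xbc0001780002fee25) (.hit (nat_lit 6) (nat_lit 1) (nat_lit 0xbc0001780002fd000) b16218 (.one (nat_lit 67) (nat_lit 7) (nat_lit 2) (nat_lit 0xbc0001780002fee25) b16219 (.nil))) (.tok (nat_lit 6) (nat_lit 0xbc000178000300000) (.hit (nat_lit 8) (nat_lit 7) (nat_lit 0xbc0001780002fe88d) b16220 (.hit (nat_lit 11) (nat_lit 15) (nat_lit 0xbc0001780002fd141) b16223 (.tok (nat_lit 55) (nat_lit 0xbc000178000300000) (.hit (nat_lit 9) (nat_lit 8) (nat_lit 0xbc000178000300000) b16221 (.hit (nat_lit 12) (nat_lit 16) (nat_lit 0xbc0001780002fed5e) b16224 (.one (nat_lit 6) (nat_lit 10) (nat_lit 9) (nat_lit 0xbc0001780002fe9d0) b16222 (.nil)))) (.nil)))) (.nil)))) (.tok (nat_lit 9) (nat_lit 0xbc0001780002ff5b8) (.hit (nat_lit 13) (nat_lit 0) (nat_lit 0xbc0001780002fef7b) b16225 (.tok (nat_lit 3) (nat_lit 0xbc0001780002fec09) (.hit (nat_lit 14) (nat_lit 1) (nat_lit 0xbc0001780002fdf83)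 b16226 (.one (nat_lit 55) (nat_lit 15) (nat_lit 3) (nat_lit 0xbc0001780002fec09) b16227 (.nil))) (.tok (nat_lit 9) (nat_lit 0xbc0001780002ff5b8) (.hit (nat_lit 16) (nat_lit 20) (nat_lit 0xbc0001780002fe141) b16228 (.hit (nat_lit 19) (nat_lit 28) (nat_lit 0xbc0001780002fdd2e) b16231 (.tok (nat_lit 67) (nat_lit 0xbc0001780002ff5b8) (.hit (nat_lit 17) (nat_lit 21) (nat_lit 0xbc0001780002ff21e) b16229 (.hit (nat_lit 20) (nat_lit 29) (nat_lit 0xbc0001780002ff5b8) b16232 (.one (nat_lit 9) (nat_lit 18) (nat_lit 22) (nat_lit 0xbc0001780002feff9) b16230 (.nil)))) (.nil)))) (.nil)))) (.nil)))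
noncomputable def r28_105 : Rw Blk := .tok (nat_lit 3) (nat_lit 0xbc0001780002fcc80) (.hit (nat_lit 0) (nat_lit 0) (nat_lit 0xbc0001780002fcc80) b29423 (.tok (nat_lit 6) (nat_lit 0xbc0001780002fbb2d) (.hit (nat_lit 1) (nat_lit 7) (nat_lit 0xbc0001780002fbad5) b29426 (.hit (nat_lit 2) (nat_lit 15) (nat_lit 0xbc0001780002fbb2d) b29427 (.nil))) (.tok (nat_lit 9) (nat_lit 0xbc0001780002fbaf1) (.hit (nat_lit 3) (nat_lit 20) (nat_lit 0xbc0001780002fb9d0) b29424 (.hit (nat_lit 4) (nat_lit 28) (nat_lit 0xbc0001780002fbaf1) b29425 (.nil))) (.nil)))) (.tok (nat_lit 6) (nat_lit 0xbc0001780003009c7) (.hit (nat_lit 13) (nat_lit 0) (nat_lit 0xbc0001780002fd866) b29436 (.one (nat_lit 3) (nat_lit 14) (nat_lit 1) (nat_lit 0xbc0001780002fb91c) b29437 (.tok (nat_lit 6) (nat_lit 0xbc0001780003009c7) (.hit (nat_lit 15) (nat_lit 7) (nat_lit 0xbc0001780002fdce3) b29438 (.hit (nat_lit 19) (nat_lit 15)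 (nat_lit 0xbc0001780002fc2e1) b29442 (.tok (nat_lit 55) (nat_lit 0xbc0001780003009c7) (.hit (nat_lit 16) (nat_lit 8) (nat_lit 0xbc0001780003009c7) b29439 (.hit (nat_lit 20) (nat_lit 16) (nat_lit 0xbc0001780002fdd80) b29443 (.tok (nat_lit 6) (nat_lit 0xbc0001780002ffaa3) (.hit (nat_lit 17) (nat_lit 9) (nat_lit 0xbc0001780002fea68) b29440 (.one (nat_lit 55) (nat_lit 18) (nat_lit 10) (nat_lit 0xbc0001780002ffaa3) b29441 (.nil))) (.nil)))) (.nil)))) (.nil)))) (.tok (nat_lit 9) (nat_lit 0xbc0001780002fe383) (.hit (nat_lit 5) (nat_lit 0) (nat_lit 0xbc0001780002fe383) b29428 (.one (nat_lit 3) (nat_lit 6) (nat_lit 1) (nat_lit 0xbc0001780002fa8c7) b29429 (.tok (nat_lit 9) (nat_lit 0xbc0001780002fdb67) (.hit (nat_lit 7) (nat_lit 20) (nat_lit 0xbc0001780002fbc18) b29430 (.hit (nat_lit 11) (nat_lit 28) (nat_lit 0xbc0001780002fb0e7) b29434 (.tok (nat_lit 67) (nat_lit 0xbc0001780002fdb67) (.hit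 (nat_lit 8) (nat_lit 21) (nat_lit 0xbc0001780002fcd9c) b29431 (.hit (nat_lit 12) (nat_lit 29) (nat_lit 0xbc0001780002fcb81) b29435 (.tok (nat_lit 9) (nat_lit 0xbc0001780002fdb67) (.hit (nat_lit 9) (nat_lit 22) (nat_lit 0xbc0001780002fcc57) b29432 (.one (nat_lit 67) (nat_lit 10) (nat_lit 23) (nat_lit 0xbc0001780002fdb67) b29433 (.nil))) (.nil)))) (.nil)))) (.nil)))) (.nil)))
noncomputable def r28_106 : Rw Blk := .tok (nat_lit 3) (nat_lit 0xbc0001780002fd981) (.hit (nat_lit 0) (nat_lit 0) (nat_lit 0xbc0001780002fd981) b16254 (.tok (nat_lit 6) (nat_lit 0xbc0001780002fce52) (.hit (nat_lit 1) (nat_lit 7) (nat_lit 0xbc0001780002fcdd6) b16255 (.hit (nat_lit 2) (nat_lit 15) (nat_lit 0xbc0001780002fce52) b16256 (.nil))) (.tok (nat_lit 9) (nat_lit 0xbc0001780002fcf09) (.hit (nat_lit 3) (nat_lit 20) (nat_lit 0xbc0001780002fcc73) b16257 (.hit (nat_lit 4) (nat_lit 28) (nat_lit 0xbc0001780002fcf09)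 b16258 (.nil))) (.nil)))) (.tok (nat_lit 6) (nat_lit 0xbc0001780002ff504) (.hit (nat_lit 13) (nat_lit 0) (nat_lit 0xbc0001780002fe077) b16267 (.one (nat_lit 3) (nat_lit 14) (nat_lit 1) (nat_lit 0xbc0001780002fc861) b16268 (.tok (nat_lit 6) (nat_lit 0xbc0001780002ff504) (.hit (nat_lit 15) (nat_lit 7) (nat_lit 0xbc0001780002fdcea) b16269 (.hit (nat_lit 19) (nat_lit 15) (nat_lit 0xbc0001780002fd969) b16273 (.tok (nat_lit 55) (nat_lit 0xbc0001780002ff504) (.hit (nat_lit 16) (nat_lit 8) (nat_lit 0xbc0001780002fee22) b16270 (.hit (nat_lit 20) (nat_lit 16) (nat_lit 0xbc0001780002fecb7) b16274 (.tok (nat_lit 6) (nat_lit 0xbc0001780002ff504) (.hit (nat_lit 17) (nat_lit 9) (nat_lit 0xbc0001780002fe768) b16271 (.one (nat_lit 55) (nat_lit 18) (nat_lit 10) (nat_lit 0xbc0001780002ff504) b16272 (.nil))) (.nil)))) (.nil)))) (.nil)))) (.tok (nat_lit 9) (nat_lit 0xbc000178000300000) (.hit (nat_lit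 5) (nat_lit 0) (nat_lit 0xbc0001780002febb5) b16259 (.one (nat_lit 3) (nat_lit 6) (nat_lit 1) (nat_lit 0xbc0001780002fc944) b16260 (.tok (nat_lit 9) (nat_lit 0xbc000178000300000) (.hit (nat_lit 7) (nat_lit 20) (nat_lit 0xbc0001780002fe06e) b16261 (.hit (nat_lit 11) (nat_lit 28) (nat_lit 0xbc0001780002fd170) b16265 (.tok (nat_lit 67) (nat_lit 0xbc000178000300000) (.hit (nat_lit 8) (nat_lit 21) (nat_lit 0xbc000178000300000) b16262 (.hit (nat_lit 12) (nat_lit 29) (nat_lit 0xbc0001780002ff236) b16266 (.tok (nat_lit 9) (nat_lit 0xbc0001780002ff727) (.hit (nat_lit 9) (nat_lit 22) (nat_lit 0xbc0001780002ff372) b16263 (.one (nat_lit 67) (nat_lit 10) (nat_lit 23) (nat_lit 0xbc0001780002ff727) b16264 (.nil))) (.nil)))) (.nil)))) (.nil)))) (.nil)))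
noncomputable def r28_107 : Rw Blk := .tok (nat_lit 3) (nat_lit 0x5f9df0bf70e17f65d2fd0bc5fca9ebfa12d7f1e8afd935) (.hit (nat_lit 14) (nat_lit 0) (nat_lit 0x5f9df0bf68e97f0f3afd0bc5fb636bfa12d7ef782fd935) b29458 (.tok (nat_lit 6) (nat_lit 0x5f9c7ebf70e17f65d2fd0b05fca9ebf81257f1e8afd3aa) (.hit (nat_lit 15) (nat_lit 7) (nat_lit 0x5f9c7ebf70e17f65d2fd0b05fca9ebf81257f1e8afd3aa) b29461 (.hit (nat_lit 16) (nat_lit 15) (nat_lit 0x5f9058bf50d57ecbc2fca9d5fc134bf68d97ef07afcd97) b29462 (.nil))) (.tok (nat_lit 9) (nat_lit 0x5f6876bf278d7e756afb6ac5facfebf19157e1e22fb9a6) (.hit (nat_lit 17) (nat_lit 20) (nat_lit 0x5f6876bf278d7e756afb6ac5facfebf19157dea02fb9a6) b29459 (.hit (nat_lit 18) (nat_lit 28) (nat_lit 0x5f4114befb697e2222fa2fb5f93e6beca517e1e22fa5f5) b29460 (.nil))) (.nil)))) (.tok (nat_lit 6) (nat_lit 0x600000bfeff97f905b00a8b5fe5c2c0000180000300c5e) (.hit (nat_lit 9) (nat_lit 0)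 (nat_lit 0x5fbc08bf71c97f4e3afe5ef5fc820bfb5997edc82fe8f4) b29453 (.tok (nat_lit 3) (nat_lit 0x600000bfeff97f905b00a8b5fe5c2c0000180000300c5e) (.hit (nat_lit 10) (nat_lit 1) (nat_lit 0x5fc0b0bfae217ef6aafe2955fc8b0bf8b557f3052fe982) b29454 (.one (nat_lit 67) (nat_lit 11) (nat_lit 2) (nat_lit 0x600000bfeff97f905b00a8b5fe5c2c0000180000300c5e) b29455 (.nil))) (.tok (nat_lit 6) (nat_lit 0x5fdfdebf8a017f60aaff2cd5fd66ebfb9e97f056300294) (.hit (nat_lit 12) (nat_lit 7) (nat_lit 0x5fdfdebf8a017f60aaff2cd5fd66ebfb9e97f056300294) b29456 (.hit (nat_lit 13) (nat_lit 15) (nat_lit 0x5faef8bf7c857ec782fdcf75fb980bf5f697e9f02fe0d1) b29457 (.nil))) (.nil)))) (.tok (nat_lit 9) (nat_lit 0x5fd04cc00001800002fe52f600000bffee57f8a52ff0dd) (.hit (nat_lit 0) (nat_lit 0) (nat_lit 0x5fd04cbf95597f6142fe52f5fe1aebffee57f2022ff0dd) b29444 (.tok (nat_lit 3) (nat_lit 0x5fa306bfe6317f970afd3f45feb98bf8e357f56b2fd6ee)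 (.hit (nat_lit 1) (nat_lit 1) (nat_lit 0x5f7c8cbf605d7ece72fc0b75fc7acbf41417e3ef2fc3b1) b29445 (.one (nat_lit 55) (nat_lit 2) (nat_lit 3) (nat_lit 0x5fa306bfe6317f970afd3f45feb98bf8e357f56b2fd6ee) b29446 (.nil))) (.tok (nat_lit 9) (nat_lit 0x5fbe56c00001800002fe19c600000bfc4d57f8a52fe496) (.hit (nat_lit 3) (nat_lit 20) (nat_lit 0x5f96dabf88657f0672fcdde5fcea8bf75dd7ea392fd0d8) b29447 (.hit (nat_lit 7) (nat_lit 28) (nat_lit 0x5f8516bf86b97ead92fc4fc5fbbcebf52557e97c2fc7f6) b29451 (.tok (nat_lit 67) (nat_lit 0x5fbe56c00001800002fe19c600000bfc4d57f8a52fe496) (.hit (nat_lit 4) (nat_lit 21) (nat_lit 0x5fb1d4bfce4d7faccafdb5b5ff236bfabd17f0f7afde55) b29448 (.hit (nat_lit 8) (nat_lit 29) (nat_lit 0x5fa8b4c00001800002fd6cb5ff8a4bf99917f8a52fd9c5) b29452 (.tok (nat_lit 9) (nat_lit 0x5fbe56bfd4757ff0fafe19c600000bfc4d57f4182fe496) (.hit (nat_lit 5) (nat_lit 22) (nat_lit 0x5fabd8bfa9997f4f12fd85d5fe512bf9fd97ef78afdb57)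 b29449 (.one (nat_lit 67) (nat_lit 6) (nat_lit 23) (nat_lit 0x5fbe56bfd4757ff0fafe19c600000bfc4d57f4182fe496) b29450 (.nil))) (.nil)))) (.nil)))) (.nil)))) (.nil)))
noncomputable def r28_108 : Rw Blk := .tok (nat_lit 3) (nat_lit 0xbc0001780002ffad4) (.hit (nat_lit 0) (nat_lit 0) (nat_lit 0xbc0001780002fe743) b29463 (.tok (nat_lit 6) (nat_lit 0xbc0001780002fd8cd) (.hit (nat_lit 1) (nat_lit 7) (nat_lit 0xbc0001780002fc728) b29464 (.hit (nat_lit 4) (nat_lit 15) (nat_lit 0xbc0001780002fc002) b29467 (.tok (nat_lit 14) (nat_lit 0xbc0001780002fd8cd) (.hit (nat_lit 2) (nat_lit 11) (nat_lit 0xbc0001780002fd640) b29465 (.hit (nat_lit 5) (nat_lit 17) (nat_lit 0xbc0001780002fcdfd) b29468 (.one (nat_lit 9) (nat_lit 3) (nat_lit 12) (nat_lit 0xbc0001780002fd8cd) b29466 (.nil)))) (.one (nat_lit 68) (nat_lit 6) (nat_lit 18) (nat_lit 0xbc0001780002fd59c) b29469 (.nil))))) (.tok (nat_lit 52) (nat_lit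 0xbc0001780002fe4b3) (.hit (nat_lit 7) (nat_lit 39) (nat_lit 0xbc0001780002fe4b3) b29470 (.hit (nat_lit 8) (nat_lit 40) (nat_lit 0xbc0001780002fe0e2) b29471 (.nil))) (.tok (nat_lit 55) (nat_lit 0xbc0001780002ffad4) (.hit (nat_lit 9) (nat_lit 41) (nat_lit 0xbc0001780002ffad4) b29472 (.tok (nat_lit 3) (nat_lit 0xbc0001780002fe628) (.hit (nat_lit 12) (nat_lit 47) (nat_lit 0xbc0001780002fe38c) b29475 (.one (nat_lit 67) (nat_lit 13) (nat_lit 48) (nat_lit 0xbc0001780002fe628) b29476 (.nil))) (.tok (nat_lit 6) (nat_lit 0xbc0001780002ff01d) (.hit (nat_lit 10) (nat_lit 42) (nat_lit 0xbc0001780002ff01d) b29473 (.hit (nat_lit 11) (nat_lit 45) (nat_lit 0xbc0001780002fe05a) b29474 (.nil))) (.nil)))) (.one (nat_lit 58) (nat_lit 14) (nat_lit 49) (nat_lit 0xbc0001780002fdd1c) b29477 (.nil)))))) (.tok (nat_lit 9) (nat_lit 0xbc0001780003031de) (.hit (nat_lit 15) (nat_lit 0) (nat_lit 0xbc0001780002fea14)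 b29478 (.tok (nat_lit 9) (nat_lit 0xbc0001780002fecbf) (.hit (nat_lit 16) (nat_lit 20) (nat_lit 0xbc0001780002fdac9) b29479 (.hit (nat_lit 21) (nat_lit 28) (nat_lit 0xbc0001780002fc89f) b29484 (.tok (nat_lit 14) (nat_lit 0xbc0001780002fecbf) (.hit (nat_lit 17) (nat_lit 24) (nat_lit 0xbc0001780002fe50b) b29480 (.hit (nat_lit 22) (nat_lit 30) (nat_lit 0xbc0001780002fe722) b29485 (.one (nat_lit 6) (nat_lit 18) (nat_lit 25) (nat_lit 0xbc0001780002fecbf) b29481 (.nil)))) (.one (nat_lit 56) (nat_lit 23) (nat_lit 31) (nat_lit 0xbc0001780002fd943) b29486 (.tok (nat_lit 68) (nat_lit 0xbc0001780002fe94e) (.hit (nat_lit 19) (nat_lit 26) (nat_lit 0xbc0001780002fe942) b29482 (.hit (nat_lit 24) (nat_lit 32) (nat_lit 0xbc0001780002fe14b) b29487 (.one (nat_lit 9) (nat_lit 20) (nat_lit 27) (nat_lit 0xbc0001780002fe94e) b29483 (.nil)))) (.nil)))))) (.tok (nat_lit 64) (nat_lit 0xbc0001780002fec19)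 (.hit (nat_lit 25) (nat_lit 50) (nat_lit 0xbc0001780002fdc5c) b29488 (.hit (nat_lit 26) (nat_lit 51) (nat_lit 0xbc0001780002fec19) b29489 (.nil))) (.tok (nat_lit 67) (nat_lit 0xbc0001780003031de) (.hit (nat_lit 27) (nat_lit 52) (nat_lit 0xbc0001780002fff13) b29490 (.tok (nat_lit 3) (nat_lit 0xbc000178000300272) (.hit (nat_lit 33) (nat_lit 58) (nat_lit 0xbc0001780002ff70b) b29496 (.one (nat_lit 55) (nat_lit 34) (nat_lit 59) (nat_lit 0xbc000178000300272) b29497 (.nil))) (.tok (nat_lit 9) (nat_lit 0xbc0001780003031de) (.hit (nat_lit 28) (nat_lit 53) (nat_lit 0xbc00017800030111a) b29491 (.hit (nat_lit 31) (nat_lit 56) (nat_lit 0xbc0001780002fe93e) b29494 (.tok (nat_lit 67) (nat_lit 0xbc0001780003031de) (.hit (nat_lit 29) (nat_lit 54) (nat_lit 0xbc0001780003016d8) b29492 (.hit (nat_lit 32) (nat_lit 57) (nat_lit 0xbc00017800030062e) b29495 (.one (nat_lit 9) (nat_lit 30) (nat_lit 55)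 (nat_lit 0xbc0001780003031de) b29493 (.nil)))) (.nil)))) (.nil)))) (.one (nat_lit 70) (nat_lit 35) (nat_lit 60) (nat_lit 0xbc0001780002fe752) b29498 (.nil)))))) (.nil))
noncomputable def r28_109 : Rw Blk := .tok (nat_lit 3) (nat_lit 0x5e0000bf825d7f1b12ff5e9) (.hit (nat_lit 0) (nat_lit 0) (nat_lit 0x5e0000bf59617e97dafe49c) b29499 (.tok (nat_lit 9) (nat_lit 0x5e0000bf4ce97edae2feb10) (.hit (nat_lit 1) (nat_lit 20) (nat_lit 0x5e0000bee61d7e0d4afd15d) b29500 (.hit (nat_lit 6) (nat_lit 28) (nat_lit 0x5e0000bed4717de9f2fccf2) b29505 (.tok (nat_lit 14) (nat_lit 0x5e0000bf22bd7e868afe085) (.hit (nat_lit 2) (nat_lit 24) (nat_lit 0x5e0000bf1fe97e80e2fdfd0) b29501 (.hit (nat_lit 7) (nat_lit 30) (nat_lit 0x5e0000befe1d7e3d4afd75d) b29506 (.one (nat_lit 6) (nat_lit 3) (nat_lit 25) (nat_lit 0x5e0000bf22bd7e868afe085) b29502 (.nil)))) (.tok (nat_lit 68) (nat_lit 0x5e0000bf4ce97edae2feb10)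 (.hit (nat_lit 4) (nat_lit 26) (nat_lit 0x5e0000bf341d7ea94afe4dd) b29503 (.hit (nat_lit 8) (nat_lit 32) (nat_lit 0x5e0000beef117e1f32fd39a) b29507 (.one (nat_lit 9) (nat_lit 5) (nat_lit 27) (nat_lit 0x5e0000bf4ce97edae2feb10) b29504 (.nil)))) (.nil))))) (.tok (nat_lit 64) (nat_lit 0x5e0000bf31797ea402fe434) (.hit (nat_lit 9) (nat_lit 50) (nat_lit 0x5e0000bf31797ea402fe434) b29508 (.hit (nat_lit 10) (nat_lit 51) (nat_lit 0x5e0000bf30757ea1fafe3f3) b29509 (.nil))) (.tok (nat_lit 67) (nat_lit 0x5e0000bf825d7f1b12ff5e9) (.hit (nat_lit 11) (nat_lit 52) (nat_lit 0x5e0000bf825d7f013aff5e9) b29510 (.tok (nat_lit 3) (nat_lit 0x5e0000bf6d017f1b12ff316) (.hit (nat_lit 17) (nat_lit 58) (nat_lit 0x5e0000bf4fa17ee052febbe) b29516 (.one (nat_lit 55) (nat_lit 18) (nat_lit 59) (nat_lit 0x5e0000bf6d017f1b12ff316) b29517 (.nil))) (.tok (nat_lit 9) (nat_lit 0x5e0000bf48697ed1e2fe9f0) (.hit (nat_lit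 12) (nat_lit 53) (nat_lit 0x5e0000bf209d7e824afdffd) b29511 (.hit (nat_lit 15) (nat_lit 56) (nat_lit 0x5e0000bf2add7e96cafe28d) b29514 (.tok (nat_lit 67) (nat_lit 0x5e0000bf48697ed1e2fe9f0) (.hit (nat_lit 13) (nat_lit 54) (nat_lit 0x5e0000bf48697ed1e2fe9f0) b29512 (.hit (nat_lit 16) (nat_lit 57) (nat_lit 0x5e0000bf45d17eccb2fe94a) b29515 (.one (nat_lit 9) (nat_lit 14) (nat_lit 55) (nat_lit 0x5e0000bf3f5d7ebfcafe7ad) b29513 (.nil)))) (.nil)))) (.nil)))) (.one (nat_lit 70) (nat_lit 19) (nat_lit 60) (nat_lit 0x5e0000bf0a957e563afda7b) b29518 (.nil)))))) (.tok (nat_lit 6) (nat_lit 0x5e0000c090e5815473033f7) (.hit (nat_lit 20) (nat_lit 0) (nat_lit 0x5e0000bf6a457f02e2fe853) b29519 (.tok (nat_lit 6) (nat_lit 0x5e0000c090e5815473033f7) (.hit (nat_lit 21) (nat_lit 7) (nat_lit 0x5e0000bf651d7f481afec58) b29520 (.hit (nat_lit 26) (nat_lit 15) (nat_lit 0x5e0000bee5897e0a62fd2e6) b29525 (.tok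 (nat_lit 14) (nat_lit 0x5e0000c090e5815473033f7) (.hit (nat_lit 22) (nat_lit 11) (nat_lit 0x5e0000c090e5815473033f7) b29521 (.hit (nat_lit 27) (nat_lit 17) (nat_lit 0x5e0000bf73297f2b2aff6f2) b29526 (.one (nat_lit 9) (nat_lit 23) (nat_lit 12) (nat_lit 0x5e0000c01c898074eb01b18) b29522 (.nil)))) (.tok (nat_lit 56) (nat_lit 0x5e0000bfdc6d80404300f90) (.hit (nat_lit 24) (nat_lit 13) (nat_lit 0x5e0000bfdc6d800a0300f90) b29523 (.hit (nat_lit 29) (nat_lit 19) (nat_lit 0x5e0000bf2a057eaa4afe3f5) b29528 (.one (nat_lit 6) (nat_lit 25) (nat_lit 14) (nat_lit 0x5e0000bf81bd804042ff951) b29524 (.nil)))) (.one (nat_lit 68) (nat_lit 28) (nat_lit 18) (nat_lit 0x5e0000bf3b617efc0afedfc) b29527 (.nil)))))) (.nil))) (.nil))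
noncomputable def r28_110 : Rw Blk := .tok (nat_lit 3) (nat_lit 0xbc0001780002feef0) (.hit (nat_lit 0) (nat_lit 0) (nat_lit 0xbc0001780002fe411) b8609 (.tok (nat_lit 9) (nat_lit 0xbc0001780002fe483) (.hit (nat_lit 1) (nat_lit 20) (nat_lit 0xbc0001780002fca57) b8610 (.hit (nat_lit 6) (nat_lit 28) (nat_lit 0xbc0001780002fc62b) b8615 (.tok (nat_lit 14) (nat_lit 0xbc0001780002fdbf0) (.hit (nat_lit 2) (nat_lit 24) (nat_lit 0xbc0001780002fdbf0) b8611 (.hit (nat_lit 7) (nat_lit 30) (nat_lit 0xbc0001780002fd200) b8616 (.one (nat_lit 6) (nat_lit 3) (nat_lit 25) (nat_lit 0xbc0001780002fdaaa) b8612 (.nil)))) (.tok (nat_lit 68) (nat_lit 0xbc0001780002fe483) (.hit (nat_lit 4) (nat_lit 26) (nat_lit 0xbc0001780002fdf68) b8613 (.hit (nat_lit 8) (nat_lit 32) (nat_lit 0xbc0001780002fd0d0) b8617 (.one (nat_lit 9) (nat_lit 5) (nat_lit 27) (nat_lit 0xbc0001780002fe483) b8614 (.nil)))) (.nil))))) (.tok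 (nat_lit 64) (nat_lit 0xbc0001780002fe10e) (.hit (nat_lit 9) (nat_lit 50) (nat_lit 0xbc0001780002fe10e) b8618 (.hit (nat_lit 10) (nat_lit 51) (nat_lit 0xbc0001780002fdd46) b8619 (.nil))) (.tok (nat_lit 67) (nat_lit 0xbc0001780002feef0) (.hit (nat_lit 11) (nat_lit 52) (nat_lit 0xbc0001780002feef0) b8620 (.tok (nat_lit 3) (nat_lit 0xbc0001780002fe593) (.hit (nat_lit 17) (nat_lit 58) (nat_lit 0xbc0001780002fe593) b8626 (.one (nat_lit 55) (nat_lit 18) (nat_lit 59) (nat_lit 0xbc0001780002fe0ee) b8627 (.nil))) (.tok (nat_lit 9) (nat_lit 0xbc0001780002fec81) (.hit (nat_lit 12) (nat_lit 53) (nat_lit 0xbc0001780002fe97b) b8621 (.hit (nat_lit 15) (nat_lit 56) (nat_lit 0xbc0001780002fd8a5) b8624 (.tok (nat_lit 67) (nat_lit 0xbc0001780002fec81) (.hit (nat_lit 13) (nat_lit 54) (nat_lit 0xbc0001780002feab4) b8622 (.hit (nat_lit 16) (nat_lit 57) (nat_lit 0xbc0001780002fdea6) b8625 (.one (nat_lit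 9) (nat_lit 14) (nat_lit 55) (nat_lit 0xbc0001780002fec81) b8623 (.nil)))) (.nil)))) (.nil)))) (.one (nat_lit 70) (nat_lit 19) (nat_lit 60) (nat_lit 0xbc0001780002fdbf7) b8628 (.nil)))))) (.tok (nat_lit 6) (nat_lit 0xbc000178000300000) (.hit (nat_lit 20) (nat_lit 0) (nat_lit 0xbc0001780002fe5ca) b8629 (.tok (nat_lit 6) (nat_lit 0xbc000178000300000) (.hit (nat_lit 21) (nat_lit 7) (nat_lit 0xbc0001780002fe116) b8630 (.hit (nat_lit 26) (nat_lit 15) (nat_lit 0xbc0001780002fd333) b8635 (.tok (nat_lit 14) (nat_lit 0xbc000178000300000) (.hit (nat_lit 22) (nat_lit 11) (nat_lit 0xbc000178000300000) b8631 (.hit (nat_lit 27) (nat_lit 17) (nat_lit 0xbc0001780002fef00) b8636 (.one (nat_lit 9) (nat_lit 23) (nat_lit 12) (nat_lit 0xbc0001780002ffdb3) b8632 (.nil)))) (.tok (nat_lit 56) (nat_lit 0xbc0001780002fee80) (.hit (nat_lit 24) (nat_lit 13) (nat_lit 0xbc0001780002fee80) b8633 (.hit (nat_lit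 29) (nat_lit 19) (nat_lit 0xbc0001780002fe24a) b8638 (.one (nat_lit 6) (nat_lit 25) (nat_lit 14) (nat_lit 0xbc0001780002fe9d7) b8634 (.nil)))) (.one (nat_lit 68) (nat_lit 28) (nat_lit 18) (nat_lit 0xbc0001780002feafd) b8637 (.nil)))))) (.nil))) (.nil))
noncomputable def r28_111 : Rw Blk := .tok (nat_lit 6) (nat_lit 0xbc000178000300000) (.hit (nat_lit 0) (nat_lit 0) (nat_lit 0xbc0001780002ff173) b8639 (.tok (nat_lit 3) (nat_lit 0xbc0001780002fefbb) (.hit (nat_lit 1) (nat_lit 1) (nat_lit 0xbc0001780002fd927) b8640 (.one (nat_lit 14) (nat_lit 2) (nat_lit 4) (nat_lit 0xbc0001780002fefbb) b8641 (.one (nat_lit 56) (nat_lit 4) (nat_lit 6) (nat_lit 0xbc0001780002fed92) b8643 (.one (nat_lit 68) (nat_lit 3) (nat_lit 5) (nat_lit 0xbc0001780002fed23) b8642 (.nil))))) (.tok (nat_lit 40) (nat_lit 0xbc0001780002fdfbe) (.hit (nat_lit 5) (nat_lit 33) (nat_lit 0xbc0001780002fdef8) b8644 (.hit (nat_lit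 6) (nat_lit 34) (nat_lit 0xbc0001780002fdfbe) b8645 (.nil))) (.tok (nat_lit 43) (nat_lit 0xbc0001780002fef53) (.hit (nat_lit 7) (nat_lit 35) (nat_lit 0xbc0001780002fef53) b8646 (.hit (nat_lit 8) (nat_lit 36) (nat_lit 0xbc0001780002fe515) b8647 (.nil))) (.tok (nat_lit 46) (nat_lit 0xbc000178000300000) (.hit (nat_lit 9) (nat_lit 37) (nat_lit 0xbc0001780002fd94d) b8648 (.hit (nat_lit 10) (nat_lit 38) (nat_lit 0xbc000178000300000) b8649 (.nil))) (.nil)))))) (.tok (nat_lit 9) (nat_lit 0xbc0001780002ff6d9) (.hit (nat_lit 11) (nat_lit 0) (nat_lit 0xbc0001780002fdf6e) b8650 (.tok (nat_lit 3) (nat_lit 0xbc0001780002ff6d9) (.hit (nat_lit 12) (nat_lit 1) (nat_lit 0xbc0001780002fd50d) b8651 (.one (nat_lit 14) (nat_lit 13) (nat_lit 4) (nat_lit 0xbc0001780002ff6d9) b8652 (.one (nat_lit 56) (nat_lit 15) (nat_lit 6) (nat_lit 0xbc0001780002fe778) b8654 (.one (nat_lit 68) (nat_lit 14) (nat_lit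 5) (nat_lit 0xbc0001780002fe963) b8653 (.nil))))) (.nil))) (.nil))
noncomputable def r28_112 : Rw Blk := .tok (nat_lit 3) (nat_lit 0xbc0001780002fe3d7) (.hit (nat_lit 14) (nat_lit 0) (nat_lit 0xbc0001780002fe3d7) b16420 (.tok (nat_lit 6) (nat_lit 0xbc0001780002fbfa5) (.hit (nat_lit 15) (nat_lit 7) (nat_lit 0xbc0001780002fbfa5) b16421 (.hit (nat_lit 16) (nat_lit 15) (nat_lit 0xbc0001780002fb366) b16422 (.nil))) (.tok (nat_lit 9) (nat_lit 0xbc0001780002fdd62) (.hit (nat_lit 17) (nat_lit 20) (nat_lit 0xbc0001780002fdd62) b16423 (.hit (nat_lit 18) (nat_lit 28) (nat_lit 0xbc0001780002fdd53) b16424 (.nil))) (.nil)))) (.tok (nat_lit 6) (nat_lit 0xbc000178000300000) (.hit (nat_lit 0) (nat_lit 0) (nat_lit 0xbc0001780002ff2e4) b16406 (.tok (nat_lit 3) (nat_lit 0xbc000178000300000) (.hit (nat_lit 1) (nat_lit 1) (nat_lit 0xbc0001780002fe642) b16407 (.one (nat_lit 67) (nat_lit 2) (nat_lit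 2) (nat_lit 0xbc000178000300000) b16408 (.nil))) (.tok (nat_lit 6) (nat_lit 0xbc0001780002fff68) (.hit (nat_lit 3) (nat_lit 7) (nat_lit 0xbc0001780002ff5f5) b16409 (.hit (nat_lit 7) (nat_lit 15) (nat_lit 0xbc0001780002fe5a5) b16413 (.tok (nat_lit 55) (nat_lit 0xbc0001780002fff68) (.hit (nat_lit 4) (nat_lit 8) (nat_lit 0xbc0001780002fff35) b16410 (.hit (nat_lit 8) (nat_lit 16) (nat_lit 0xbc0001780002ff978) b16414 (.tok (nat_lit 6) (nat_lit 0xbc0001780002fff68) (.hit (nat_lit 5) (nat_lit 9) (nat_lit 0xbc0001780002ff734) b16411 (.one (nat_lit 55) (nat_lit 6) (nat_lit 10) (nat_lit 0xbc0001780002fff68) b16412 (.nil))) (.nil)))) (.nil)))) (.nil)))) (.tok (nat_lit 9) (nat_lit 0xbc0001780002ff73d) (.hit (nat_lit 9) (nat_lit 0) (nat_lit 0xbc0001780002fe92a) b16415 (.tok (nat_lit 3) (nat_lit 0xbc0001780002ff73d) (.hit (nat_lit 10) (nat_lit 1) (nat_lit 0xbc0001780002fdf1e) b16416 (.one (nat_lit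 55) (nat_lit 11) (nat_lit 3) (nat_lit 0xbc0001780002ff73d) b16417 (.nil))) (.tok (nat_lit 9) (nat_lit 0xbc0001780002fef3b) (.hit (nat_lit 12) (nat_lit 20) (nat_lit 0xbc0001780002fef3b) b16418 (.hit (nat_lit 13) (nat_lit 28) (nat_lit 0xbc0001780002fe315) b16419 (.nil))) (.nil)))) (.nil)))
noncomputable def r28_113 : Rw Blk := .tok (nat_lit 3) (nat_lit 0xbc0001780002fd52a) (.hit (nat_lit 0) (nat_lit 0) (nat_lit 0xbc0001780002fd52a) b16212 (.tok (nat_lit 6) (nat_lit 0xbc0001780002fd05f) (.hit (nat_lit 1) (nat_lit 7) (nat_lit 0xbc0001780002fd044) b16215 (.hit (nat_lit 2) (nat_lit 15) (nat_lit 0xbc0001780002fd05f) b16216 (.nil))) (.tok (nat_lit 9) (nat_lit 0xbc0001780002fce4b) (.hit (nat_lit 3) (nat_lit 20) (nat_lit 0xbc0001780002fce4b) b16213 (.hit (nat_lit 4) (nat_lit 28) (nat_lit 0xbc0001780002fcc28) b16214 (.nil))) (.nil)))) (.tok (nat_lit 6) (nat_lit 0xbc0001780002ff5b8) (.hit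 (nat_lit 13) (nat_lit 0) (nat_lit 0xbc0001780002fef7b) b16225 (.tok (nat_lit 3) (nat_lit 0xbc0001780002fec09) (.hit (nat_lit 14) (nat_lit 1) (nat_lit 0xbc0001780002fdf83) b16226 (.one (nat_lit 67) (nat_lit 15) (nat_lit 2) (nat_lit 0xbc0001780002fec09) b16227 (.nil))) (.tok (nat_lit 6) (nat_lit 0xbc0001780002ff5b8) (.hit (nat_lit 16) (nat_lit 7) (nat_lit 0xbc0001780002fe141) b16228 (.hit (nat_lit 19) (nat_lit 15) (nat_lit 0xbc0001780002fdd2e) b16231 (.tok (nat_lit 55) (nat_lit 0xbc0001780002ff5b8) (.hit (nat_lit 17) (nat_lit 8) (nat_lit 0xbc0001780002ff21e) b16229 (.hit (nat_lit 20) (nat_lit 16) (nat_lit 0xbc0001780002ff5b8) b16232 (.one (nat_lit 6) (nat_lit 18) (nat_lit 9) (nat_lit 0xbc0001780002feff9) b16230 (.nil)))) (.nil)))) (.nil)))) (.tok (nat_lit 9) (nat_lit 0xbc000178000300000) (.hit (nat_lit 5) (nat_lit 0) (nat_lit 0xbc0001780002fe657) b16217 (.tok (nat_lit 3) (nat_lit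 0xbc0001780002fee25) (.hit (nat_lit 6) (nat_lit 1) (nat_lit 0xbc0001780002fd000) b16218 (.one (nat_lit 55) (nat_lit 7) (nat_lit 3) (nat_lit 0xbc0001780002fee25) b16219 (.nil))) (.tok (nat_lit 9) (nat_lit 0xbc000178000300000) (.hit (nat_lit 8) (nat_lit 20) (nat_lit 0xbc0001780002fe88d) b16220 (.hit (nat_lit 11) (nat_lit 28) (nat_lit 0xbc0001780002fd141) b16223 (.tok (nat_lit 67) (nat_lit 0xbc000178000300000) (.hit (nat_lit 9) (nat_lit 21) (nat_lit 0xbc000178000300000) b16221 (.hit (nat_lit 12) (nat_lit 29) (nat_lit 0xbc0001780002fed5e) b16224 (.one (nat_lit 9) (nat_lit 10) (nat_lit 22) (nat_lit 0xbc0001780002fe9d0) b16222 (.nil)))) (.nil)))) (.nil)))) (.nil)))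
noncomputable def r28_114 : Rw Blk := .tok (nat_lit 3) (nat_lit 0xbc0001780002fdb3a) (.hit (nat_lit 0) (nat_lit 0) (nat_lit 0xbc0001780002fdb3a) b29317 (.tok (nat_lit 6) (nat_lit 0xbc0001780002fc9ab) (.hit (nat_lit 1) (nat_lit 7) (nat_lit 0xbc0001780002fc88a) b29320 (.hit (nat_lit 2) (nat_lit 15) (nat_lit 0xbc0001780002fc9ab) b29321 (.nil))) (.tok (nat_lit 9) (nat_lit 0xbc0001780002fc9e7) (.hit (nat_lit 3) (nat_lit 20) (nat_lit 0xbc0001780002fc98f) b29318 (.hit (nat_lit 4) (nat_lit 28) (nat_lit 0xbc0001780002fc9e7) b29319 (.nil))) (.nil)))) (.tok (nat_lit 6) (nat_lit 0xbc0001780002ff23d) (.hit (nat_lit 5) (nat_lit 0) (nat_lit 0xbc0001780002ff23d) b29322 (.one (nat_lit 3) (nat_lit 6) (nat_lit 1) (nat_lit 0xbc0001780002fb781) b29323 (.tok (nat_lit 6) (nat_lit 0xbc0001780002fea21) (.hit (nat_lit 7) (nat_lit 7) (nat_lit 0xbc0001780002fcad2) b29324 (.hit (nat_lit 11) (nat_lit 15) (nat_lit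 0xbc0001780002fbfa1) b29328 (.tok (nat_lit 55) (nat_lit 0xbc0001780002fea21) (.hit (nat_lit 8) (nat_lit 8) (nat_lit 0xbc0001780002fdc56) b29325 (.hit (nat_lit 12) (nat_lit 16) (nat_lit 0xbc0001780002fda3b) b29329 (.tok (nat_lit 6) (nat_lit 0xbc0001780002fea21) (.hit (nat_lit 9) (nat_lit 9) (nat_lit 0xbc0001780002fdb11) b29326 (.one (nat_lit 55) (nat_lit 10) (nat_lit 10) (nat_lit 0xbc0001780002fea21) b29327 (.nil))) (.nil)))) (.nil)))) (.nil)))) (.tok (nat_lit 9) (nat_lit 0xbc000178000301881) (.hit (nat_lit 13) (nat_lit 0) (nat_lit 0xbc0001780002fe720) b29330 (.one (nat_lit 3) (nat_lit 14) (nat_lit 1) (nat_lit 0xbc0001780002fc7d6) b29331 (.tok (nat_lit 9) (nat_lit 0xbc000178000301881) (.hit (nat_lit 15) (nat_lit 20) (nat_lit 0xbc0001780002feb9d) b29332 (.hit (nat_lit 19) (nat_lit 28) (nat_lit 0xbc0001780002fd19b) b29336 (.tok (nat_lit 67) (nat_lit 0xbc000178000301881) (.hit (nat_lit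 16) (nat_lit 21) (nat_lit 0xbc000178000301881) b29333 (.hit (nat_lit 20) (nat_lit 29) (nat_lit 0xbc0001780002fec3a) b29337 (.tok (nat_lit 9) (nat_lit 0xbc00017800030095d) (.hit (nat_lit 17) (nat_lit 22) (nat_lit 0xbc0001780002ff922) b29334 (.one (nat_lit 67) (nat_lit 18) (nat_lit 23) (nat_lit 0xbc00017800030095d) b29335 (.nil))) (.nil)))) (.nil)))) (.nil)))) (.nil)))
noncomputable def r28_115 : Rw Blk := .tok (nat_lit 3) (nat_lit 0xbc0001780002fd981) (.hit (nat_lit 0) (nat_lit 0) (nat_lit 0xbc0001780002fd981) b16254 (.tok (nat_lit 6) (nat_lit 0xbc0001780002fcf09) (.hit (nat_lit 1) (nat_lit 7) (nat_lit 0xbc0001780002fcc73) b16257 (.hit (nat_lit 2) (nat_lit 15) (nat_lit 0xbc0001780002fcf09) b16258 (.nil))) (.tok (nat_lit 9) (nat_lit 0xbc0001780002fce52) (.hit (nat_lit 3) (nat_lit 20) (nat_lit 0xbc0001780002fcdd6) b16255 (.hit (nat_lit 4) (nat_lit 28) (nat_lit 0xbc0001780002fce52)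 b16256 (.nil))) (.nil)))) (.tok (nat_lit 6) (nat_lit 0xbc000178000300000) (.hit (nat_lit 5) (nat_lit 0) (nat_lit 0xbc0001780002febb5) b16259 (.one (nat_lit 3) (nat_lit 6) (nat_lit 1) (nat_lit 0xbc0001780002fc944) b16260 (.tok (nat_lit 6) (nat_lit 0xbc000178000300000) (.hit (nat_lit 7) (nat_lit 7) (nat_lit 0xbc0001780002fe06e) b16261 (.hit (nat_lit 11) (nat_lit 15) (nat_lit 0xbc0001780002fd170) b16265 (.tok (nat_lit 55) (nat_lit 0xbc000178000300000) (.hit (nat_lit 8) (nat_lit 8) (nat_lit 0xbc000178000300000) b16262 (.hit (nat_lit 12) (nat_lit 16) (nat_lit 0xbc0001780002ff236) b16266 (.tok (nat_lit 6) (nat_lit 0xbc0001780002ff727) (.hit (nat_lit 9) (nat_lit 9) (nat_lit 0xbc0001780002ff372) b16263 (.one (nat_lit 55) (nat_lit 10) (nat_lit 10) (nat_lit 0xbc0001780002ff727) b16264 (.nil))) (.nil)))) (.nil)))) (.nil)))) (.tok (nat_lit 9) (nat_lit 0xbc0001780002ff504) (.hit (nat_lit 13)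 (nat_lit 0) (nat_lit 0xbc0001780002fe077) b16267 (.one (nat_lit 3) (nat_lit 14) (nat_lit 1) (nat_lit 0xbc0001780002fc861) b16268 (.tok (nat_lit 9) (nat_lit 0xbc0001780002ff504) (.hit (nat_lit 15) (nat_lit 20) (nat_lit 0xbc0001780002fdcea) b16269 (.hit (nat_lit 19) (nat_lit 28) (nat_lit 0xbc0001780002fd969) b16273 (.tok (nat_lit 67) (nat_lit 0xbc0001780002ff504) (.hit (nat_lit 16) (nat_lit 21) (nat_lit 0xbc0001780002fee22) b16270 (.hit (nat_lit 20) (nat_lit 29) (nat_lit 0xbc0001780002fecb7) b16274 (.tok (nat_lit 9) (nat_lit 0xbc0001780002ff504) (.hit (nat_lit 17) (nat_lit 22) (nat_lit 0xbc0001780002fe768) b16271 (.one (nat_lit 67) (nat_lit 18) (nat_lit 23) (nat_lit 0xbc0001780002ff504) b16272 (.nil))) (.nil)))) (.nil)))) (.nil)))) (.nil)))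
noncomputable def r28_116 : Rw Blk := .tok (nat_lit 3) (nat_lit 0x5f9df0bf70e17f65d2fdb7c5fd718bfa1f57f5edafe24a) (.hit (nat_lit 14) (nat_lit 0) (nat_lit 0x5f9df0bf68e97f0f3afdb7c5fc2e8bfa1f57f3802fe24a) b29352 (.tok (nat_lit 6) (nat_lit 0x5f6876bf278d7e756afc16c5fb9b6bf19757e5ef2fc32a) (.hit (nat_lit 15) (nat_lit 7) (nat_lit 0x5f6876bf278d7e756afc16c5fb9b6bf19757e1d9afc32a) b29355 (.hit (nat_lit 16) (nat_lit 15) (nat_lit 0x5f4114befb697e2222fadbb5fa09ebecab17e5ef2faf79) b29356 (.nil))) (.tok (nat_lit 9) (nat_lit 0x5f9c7ebf70e17f65d2fdb705fd718bf81857f5edafdd2e) (.hit (nat_lit 17) (nat_lit 20) (nat_lit 0x5f9c7ebf70e17f65d2fdb705fd718bf81857f5edafdd2e) b29353 (.hit (nat_lit 18) (nat_lit 28) (nat_lit 0x5f9058bf50d57ecbc2fd55d5fcdecbf69397f3192fd71b) b29354 (.nil))) (.nil)))) (.tok (nat_lit 6) (nat_lit 0x5fd04cc00001800002feff2600000c000017fa3a2ff9d8) (.hit (nat_lit 0) (nat_lit 0)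 (nat_lit 0x5fd04cbf95597f6142feff25fe5f6c000017f4cc2ff9d8) b29338 (.tok (nat_lit 3) (nat_lit 0x5fa306bfe6317f970afdeb45ff84abf8e957f7002fe072) (.hit (nat_lit 1) (nat_lit 1) (nat_lit 0x5f7c8cbf605d7ece72fcb775fd464bf41a17e6df2fcd35) b29339 (.one (nat_lit 67) (nat_lit 2) (nat_lit 2) (nat_lit 0x5fa306bfe6317f970afdeb45ff84abf8e957f7002fe072) b29340 (.nil))) (.tok (nat_lit 6) (nat_lit 0x5fbe56c00001800002fec5c600000bfc5357fa3a2fee1a) (.hit (nat_lit 3) (nat_lit 7) (nat_lit 0x5f96dabf88657f0672fd89e5fdababf763d7ed72afda5c) b29341 (.hit (nat_lit 7) (nat_lit 15) (nat_lit 0x5f8516bf86b97ead92fcfbc5fc876bf52b57eb112fd17a) b29345 (.tok (nat_lit 55) (nat_lit 0x5fbe56c00001800002fec5c600000bfc5357fa3a2fee1a) (.hit (nat_lit 4) (nat_lit 8) (nat_lit 0x5fb1d4bfce4d7faccafe61b5ff64abfac317f4312fe7d9) b29342 (.hit (nat_lit 8) (nat_lit 16) (nat_lit 0x5fa8b4c00001800002fe18b600000bf99f17fa3a2fe349)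 b29346 (.tok (nat_lit 6) (nat_lit 0x5fbe56bfd4757ff0fafec5c5ff140bfc5357f751afee1a) (.hit (nat_lit 5) (nat_lit 9) (nat_lit 0x5fabd8bfa9997f4f12fe31d5ff140bfa0397f2b22fe4db) b29343 (.one (nat_lit 55) (nat_lit 6) (nat_lit 10) (nat_lit 0x5fbe56bfd4757ff0fafec5c5febd6bfc5357f751afee1a) b29344 (.nil))) (.nil)))) (.nil)))) (.nil)))) (.tok (nat_lit 9) (nat_lit 0x600000bfeff97f905b0130c5fe312bffd618000030115e) (.hit (nat_lit 9) (nat_lit 0) (nat_lit 0x5fbc08bf71c97f4e3aff0b45fc816bfac697f1d9aff345) b29347 (.tok (nat_lit 3) (nat_lit 0x600000bfeff97f905b0130c5fe0f8bffd618000030115e) (.hit (nat_lit 10) (nat_lit 1) (nat_lit 0x5fc0b0bfae217ef6aafed375fd54cbf8c1d7f6532ff293) b29348 (.one (nat_lit 55) (nat_lit 11) (nat_lit 3) (nat_lit 0x600000bfeff97f905b0130c5fe0f8bffd618000030115e) b29349 (.nil))) (.tok (nat_lit 9) (nat_lit 0x5fdfdebf8a017f60aaffd8d5fe312bfbab17f467b00b6e) (.hit (nat_lit 12)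 (nat_lit 20) (nat_lit 0x5fdfdebf8a017f60aaffd8d5fe312bfbab17f467b00b6e) b29350 (.hit (nat_lit 13) (nat_lit 28) (nat_lit 0x5faef8bf7c857ec782fe7be5fc638bf60317ed0fafe9e6) b29351 (.nil))) (.nil)))) (.nil)))
noncomputable def r28_117 : Rw Blk := .tok (nat_lit 3) (nat_lit 0xbc0001780002ff980) (.hit (nat_lit 0) (nat_lit 0) (nat_lit 0xbc0001780002fe5ef) b29357 (.tok (nat_lit 9) (nat_lit 0xbc0001780002fd779) (.hit (nat_lit 1) (nat_lit 20) (nat_lit 0xbc0001780002fc5d4) b29358 (.hit (nat_lit 4) (nat_lit 28) (nat_lit 0xbc0001780002fbeae) b29361 (.tok (nat_lit 14) (nat_lit 0xbc0001780002fd779) (.hit (nat_lit 2) (nat_lit 24) (nat_lit 0xbc0001780002fd4ec) b29359 (.hit (nat_lit 5) (nat_lit 30) (nat_lit 0xbc0001780002fcca9) b29362 (.one (nat_lit 6) (nat_lit 3) (nat_lit 25) (nat_lit 0xbc0001780002fd779) b29360 (.nil)))) (.one (nat_lit 56) (nat_lit 6) (nat_lit 31) (nat_lit 0xbc0001780002fd448)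 b29363 (.nil))))) (.tok (nat_lit 64) (nat_lit 0xbc0001780002fe35f) (.hit (nat_lit 7) (nat_lit 50) (nat_lit 0xbc0001780002fe35f) b29364 (.hit (nat_lit 8) (nat_lit 51) (nat_lit 0xbc0001780002fdf8e) b29365 (.nil))) (.tok (nat_lit 67) (nat_lit 0xbc0001780002ff980) (.hit (nat_lit 9) (nat_lit 52) (nat_lit 0xbc0001780002ff980) b29366 (.tok (nat_lit 3) (nat_lit 0xbc0001780002fe4d4) (.hit (nat_lit 12) (nat_lit 58) (nat_lit 0xbc0001780002fe238) b29369 (.one (nat_lit 55) (nat_lit 13) (nat_lit 59) (nat_lit 0xbc0001780002fe4d4) b29370 (.nil))) (.tok (nat_lit 9) (nat_lit 0xbc0001780002feec9) (.hit (nat_lit 10) (nat_lit 53) (nat_lit 0xbc0001780002feec9) b29367 (.hit (nat_lit 11) (nat_lit 56) (nat_lit 0xbc0001780002fdf06) b29368 (.nil))) (.nil)))) (.one (nat_lit 70) (nat_lit 14) (nat_lit 60) (nat_lit 0xbc0001780002fdbc8) b29371 (.nil)))))) (.tok (nat_lit 6) (nat_lit 0xbc00017800030308a) (.hit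 (nat_lit 15) (nat_lit 0) (nat_lit 0xbc0001780002fe8c0) b29372 (.tok (nat_lit 6) (nat_lit 0xbc0001780002feb6b) (.hit (nat_lit 16) (nat_lit 7) (nat_lit 0xbc0001780002fd975) b29373 (.hit (nat_lit 21) (nat_lit 15) (nat_lit 0xbc0001780002fc74b) b29378 (.tok (nat_lit 14) (nat_lit 0xbc0001780002feb6b) (.hit (nat_lit 17) (nat_lit 11) (nat_lit 0xbc0001780002fe3b7) b29374 (.hit (nat_lit 22) (nat_lit 17) (nat_lit 0xbc0001780002fe5ce) b29379 (.one (nat_lit 9) (nat_lit 18) (nat_lit 12) (nat_lit 0xbc0001780002feb6b) b29375 (.nil)))) (.tok (nat_lit 56) (nat_lit 0xbc0001780002fe7fa) (.hit (nat_lit 19) (nat_lit 13) (nat_lit 0xbc0001780002fe7ee) b29376 (.hit (nat_lit 24) (nat_lit 19) (nat_lit 0xbc0001780002fdff7) b29381 (.one (nat_lit 6) (nat_lit 20) (nat_lit 14) (nat_lit 0xbc0001780002fe7fa) b29377 (.nil)))) (.one (nat_lit 68) (nat_lit 23) (nat_lit 18) (nat_lit 0xbc0001780002fd7ef) b29380 (.nil))))))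 (.tok (nat_lit 52) (nat_lit 0xbc0001780002feac5) (.hit (nat_lit 25) (nat_lit 39) (nat_lit 0xbc0001780002fdb08) b29382 (.hit (nat_lit 26) (nat_lit 40) (nat_lit 0xbc0001780002feac5) b29383 (.nil))) (.tok (nat_lit 55) (nat_lit 0xbc00017800030308a) (.hit (nat_lit 27) (nat_lit 41) (nat_lit 0xbc0001780002ffdbf) b29384 (.tok (nat_lit 3) (nat_lit 0xbc00017800030011e) (.hit (nat_lit 33) (nat_lit 47) (nat_lit 0xbc0001780002ff5b7) b29390 (.one (nat_lit 67) (nat_lit 34) (nat_lit 48) (nat_lit 0xbc00017800030011e) b29391 (.nil))) (.tok (nat_lit 6) (nat_lit 0xbc00017800030308a) (.hit (nat_lit 28) (nat_lit 42) (nat_lit 0xbc000178000300fc6) b29385 (.hit (nat_lit 31) (nat_lit 45) (nat_lit 0xbc0001780002fe7ea) b29388 (.tok (nat_lit 55) (nat_lit 0xbc00017800030308a) (.hit (nat_lit 29) (nat_lit 43) (nat_lit 0xbc000178000301584) b29386 (.hit (nat_lit 32) (nat_lit 46) (nat_lit 0xbc0001780003004da) b29389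 (.one (nat_lit 6) (nat_lit 30) (nat_lit 44) (nat_lit 0xbc00017800030308a) b29387 (.nil)))) (.nil)))) (.nil)))) (.one (nat_lit 58) (nat_lit 35) (nat_lit 49) (nat_lit 0xbc0001780002fe5fe) b29392 (.nil)))))) (.nil))
noncomputable def r28_118 : Rw Blk := .tok (nat_lit 3) (nat_lit 0x5e0000bf98317f1762fefb8) (.hit (nat_lit 0) (nat_lit 0) (nat_lit 0x5e0000bf6f357e942afe88a) b29393 (.tok (nat_lit 6) (nat_lit 0x5e0000bf62bd7ed732fdeee) (.hit (nat_lit 1) (nat_lit 7) (nat_lit 0x5e0000befbf17e099afc53b) b29394 (.hit (nat_lit 6) (nat_lit 15) (nat_lit 0x5e0000beea457de642fc0d0) b29399 (.tok (nat_lit 14) (nat_lit 0x5e0000bf38917e82dafd463) (.hit (nat_lit 2) (nat_lit 11) (nat_lit 0x5e0000bf35bd7e7d32fd3ae) b29395 (.hit (nat_lit 7) (nat_lit 17) (nat_lit 0x5e0000bf13f17e399afcb3b) b29400 (.one (nat_lit 9) (nat_lit 3) (nat_lit 12) (nat_lit 0x5e0000bf38917e82dafd463) b29396 (.nil)))) (.tok (nat_lit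 56) (nat_lit 0x5e0000bf62bd7ed732fdeee) (.hit (nat_lit 4) (nat_lit 13) (nat_lit 0x5e0000bf49f17ea59afd8bb) b29397 (.hit (nat_lit 8) (nat_lit 19) (nat_lit 0x5e0000bf04e57e1b82fc778) b29401 (.one (nat_lit 6) (nat_lit 5) (nat_lit 14) (nat_lit 0x5e0000bf62bd7ed732fdeee) b29398 (.nil)))) (.nil))))) (.tok (nat_lit 52) (nat_lit 0x5e0000bf474d7ea052fd812) (.hit (nat_lit 9) (nat_lit 39) (nat_lit 0x5e0000bf474d7ea052fd812) b29402 (.hit (nat_lit 10) (nat_lit 40) (nat_lit 0x5e0000bf46497e9e4afd7d1) b29403 (.nil))) (.tok (nat_lit 55) (nat_lit 0x5e0000bf98317f1762fefb8) (.hit (nat_lit 11) (nat_lit 41) (nat_lit 0x5e0000bf98317efd8afefb8) b29404 (.tok (nat_lit 3) (nat_lit 0x5e0000bf82d57f1762fe6f4) (.hit (nat_lit 17) (nat_lit 47) (nat_lit 0x5e0000bf65757edca2fdf9c) b29410 (.one (nat_lit 67) (nat_lit 18) (nat_lit 48) (nat_lit 0x5e0000bf82d57f1762fe6f4) b29411 (.nil))) (.tok (nat_lit 6) (nat_lit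 0x5e0000bf5e3d7ece32fddce) (.hit (nat_lit 12) (nat_lit 42) (nat_lit 0x5e0000bf36717e7e9afd3db) b29405 (.hit (nat_lit 15) (nat_lit 45) (nat_lit 0x5e0000bf40b17e931afd66b) b29408 (.tok (nat_lit 55) (nat_lit 0x5e0000bf5e3d7ece32fddce) (.hit (nat_lit 13) (nat_lit 43) (nat_lit 0x5e0000bf5e3d7ece32fddce) b29406 (.hit (nat_lit 16) (nat_lit 46) (nat_lit 0x5e0000bf5ba57ec902fdd28) b29409 (.one (nat_lit 6) (nat_lit 14) (nat_lit 44) (nat_lit 0x5e0000bf55317ebc1afdb8b) b29407 (.nil)))) (.nil)))) (.nil)))) (.one (nat_lit 58) (nat_lit 19) (nat_lit 49) (nat_lit 0x5e0000bf20697e528afce59) b29412 (.nil)))))) (.tok (nat_lit 9) (nat_lit 0x5e0000c0a6b98150c303067) (.hit (nat_lit 20) (nat_lit 0) (nat_lit 0x5e0000bf80197eff32fea5a) b29413 (.tok (nat_lit 9) (nat_lit 0x5e0000c0a6b98150c303067) (.hit (nat_lit 21) (nat_lit 20) (nat_lit 0x5e0000bf7af17f446afed79) b29414 (.hit (nat_lit 26) (nat_lit 28) (nat_lit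 0x5e0000befb5d7e06b2fd6ff) b29419 (.tok (nat_lit 14) (nat_lit 0x5e0000c0a6b98150c303067) (.hit (nat_lit 22) (nat_lit 24) (nat_lit 0x5e0000c0a6b98150c303067) b29415 (.hit (nat_lit 27) (nat_lit 30) (nat_lit 0x5e0000bf88fd7f277affb0b) b29420 (.one (nat_lit 6) (nat_lit 23) (nat_lit 25) (nat_lit 0x5e0000c0325d80713b017f0) b29416 (.nil)))) (.one (nat_lit 56) (nat_lit 28) (nat_lit 31) (nat_lit 0x5e0000bf51357ef85aff20a) b29421 (.tok (nat_lit 68) (nat_lit 0x5e0000bff241803c930109d) (.hit (nat_lit 24) (nat_lit 26) (nat_lit 0x5e0000bff2418006530109d) b29417 (.hit (nat_lit 29) (nat_lit 32) (nat_lit 0x5e0000bf3fd97ea69afe803) b29422 (.one (nat_lit 9) (nat_lit 25) (nat_lit 27) (nat_lit 0x5e0000bf9791803c92ffd58) b29418 (.nil)))) (.nil)))))) (.nil))) (.nil))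
noncomputable def r28_119 : Rw Blk := .tok (nat_lit 3) (nat_lit 0xbc0001780002feef0) (.hit (nat_lit 0) (nat_lit 0) (nat_lit 0xbc0001780002fe411) b8609 (.tok (nat_lit 6) (nat_lit 0xbc0001780002fe483) (.hit (nat_lit 1) (nat_lit 7) (nat_lit 0xbc0001780002fca57) b8610 (.hit (nat_lit 6) (nat_lit 15) (nat_lit 0xbc0001780002fc62b) b8615 (.tok (nat_lit 14) (nat_lit 0xbc0001780002fdbf0) (.hit (nat_lit 2) (nat_lit 11) (nat_lit 0xbc0001780002fdbf0) b8611 (.hit (nat_lit 7) (nat_lit 17) (nat_lit 0xbc0001780002fd200) b8616 (.one (nat_lit 9) (nat_lit 3) (nat_lit 12) (nat_lit 0xbc0001780002fdaaa) b8612 (.nil)))) (.tok (nat_lit 56) (nat_lit 0xbc0001780002fe483) (.hit (nat_lit 4) (nat_lit 13) (nat_lit 0xbc0001780002fdf68) b8613 (.hit (nat_lit 8) (nat_lit 19) (nat_lit 0xbc0001780002fd0d0) b8617 (.one (nat_lit 6) (nat_lit 5) (nat_lit 14) (nat_lit 0xbc0001780002fe483) b8614 (.nil)))) (.nil))))) (.tok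 (nat_lit 52) (nat_lit 0xbc0001780002fe10e) (.hit (nat_lit 9) (nat_lit 39) (nat_lit 0xbc0001780002fe10e) b8618 (.hit (nat_lit 10) (nat_lit 40) (nat_lit 0xbc0001780002fdd46) b8619 (.nil))) (.tok (nat_lit 55) (nat_lit 0xbc0001780002feef0) (.hit (nat_lit 11) (nat_lit 41) (nat_lit 0xbc0001780002feef0) b8620 (.tok (nat_lit 3) (nat_lit 0xbc0001780002fe593) (.hit (nat_lit 17) (nat_lit 47) (nat_lit 0xbc0001780002fe593) b8626 (.one (nat_lit 67) (nat_lit 18) (nat_lit 48) (nat_lit 0xbc0001780002fe0ee) b8627 (.nil))) (.tok (nat_lit 6) (nat_lit 0xbc0001780002fec81) (.hit (nat_lit 12) (nat_lit 42) (nat_lit 0xbc0001780002fe97b) b8621 (.hit (nat_lit 15) (nat_lit 45) (nat_lit 0xbc0001780002fd8a5) b8624 (.tok (nat_lit 55) (nat_lit 0xbc0001780002fec81) (.hit (nat_lit 13) (nat_lit 43) (nat_lit 0xbc0001780002feab4) b8622 (.hit (nat_lit 16) (nat_lit 46) (nat_lit 0xbc0001780002fdea6) b8625 (.one (nat_lit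 6) (nat_lit 14) (nat_lit 44) (nat_lit 0xbc0001780002fec81) b8623 (.nil)))) (.nil)))) (.nil)))) (.one (nat_lit 58) (nat_lit 19) (nat_lit 49) (nat_lit 0xbc0001780002fdbf7) b8628 (.nil)))))) (.tok (nat_lit 9) (nat_lit 0xbc000178000300000) (.hit (nat_lit 20) (nat_lit 0) (nat_lit 0xbc0001780002fe5ca) b8629 (.tok (nat_lit 9) (nat_lit 0xbc000178000300000) (.hit (nat_lit 21) (nat_lit 20) (nat_lit 0xbc0001780002fe116) b8630 (.hit (nat_lit 26) (nat_lit 28) (nat_lit 0xbc0001780002fd333) b8635 (.tok (nat_lit 14) (nat_lit 0xbc000178000300000) (.hit (nat_lit 22) (nat_lit 24) (nat_lit 0xbc000178000300000) b8631 (.hit (nat_lit 27) (nat_lit 30) (nat_lit 0xbc0001780002fef00) b8636 (.one (nat_lit 6) (nat_lit 23) (nat_lit 25) (nat_lit 0xbc0001780002ffdb3) b8632 (.nil)))) (.one (nat_lit 56) (nat_lit 28) (nat_lit 31) (nat_lit 0xbc0001780002feafd) b8637 (.tok (nat_lit 68) (nat_lit 0xbc0001780002fee80)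 (.hit (nat_lit 24) (nat_lit 26) (nat_lit 0xbc0001780002fee80) b8633 (.hit (nat_lit 29) (nat_lit 32) (nat_lit 0xbc0001780002fe24a) b8638 (.one (nat_lit 9) (nat_lit 25) (nat_lit 27) (nat_lit 0xbc0001780002fe9d7) b8634 (.nil)))) (.nil)))))) (.nil))) (.nil))
noncomputable def r28_120 : Rw Blk := .tok (nat_lit 6) (nat_lit 0xbc0001780002ff6d9) (.hit (nat_lit 11) (nat_lit 0) (nat_lit 0xbc0001780002fdf6e) b8650 (.tok (nat_lit 3) (nat_lit 0xbc0001780002ff6d9) (.hit (nat_lit 12) (nat_lit 1) (nat_lit 0xbc0001780002fd50d) b8651 (.one (nat_lit 14) (nat_lit 13) (nat_lit 4) (nat_lit 0xbc0001780002ff6d9) b8652 (.one (nat_lit 56) (nat_lit 15) (nat_lit 6) (nat_lit 0xbc0001780002fe963) b8653 (.one (nat_lit 68) (nat_lit 14) (nat_lit 5) (nat_lit 0xbc0001780002fe778) b8654 (.nil))))) (.nil))) (.tok (nat_lit 9) (nat_lit 0xbc000178000300000) (.hit (nat_lit 0) (nat_lit 0) (nat_lit 0xbc0001780002ff173)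 b8639 (.tok (nat_lit 3) (nat_lit 0xbc0001780002fefbb) (.hit (nat_lit 1) (nat_lit 1) (nat_lit 0xbc0001780002fd927) b8640 (.one (nat_lit 14) (nat_lit 2) (nat_lit 4) (nat_lit 0xbc0001780002fefbb) b8641 (.one (nat_lit 56) (nat_lit 4) (nat_lit 6) (nat_lit 0xbc0001780002fed23) b8642 (.one (nat_lit 68) (nat_lit 3) (nat_lit 5) (nat_lit 0xbc0001780002fed92) b8643 (.nil))))) (.tok (nat_lit 40) (nat_lit 0xbc0001780002fdfbe) (.hit (nat_lit 5) (nat_lit 33) (nat_lit 0xbc0001780002fdef8) b8644 (.hit (nat_lit 6) (nat_lit 34) (nat_lit 0xbc0001780002fdfbe) b8645 (.nil))) (.tok (nat_lit 43) (nat_lit 0xbc000178000300000) (.hit (nat_lit 7) (nat_lit 35) (nat_lit 0xbc0001780002fd94d) b8648 (.hit (nat_lit 8) (nat_lit 36) (nat_lit 0xbc000178000300000) b8649 (.nil))) (.tok (nat_lit 46) (nat_lit 0xbc0001780002fef53) (.hit (nat_lit 9) (nat_lit 37) (nat_lit 0xbc0001780002fef53) b8646 (.hit (nat_lit 10) (nat_lit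 38) (nat_lit 0xbc0001780002fe515) b8647 (.nil))) (.nil)))))) (.nil))
noncomputable def r28_121 : Rw Blk := .tok (nat_lit 3) (nat_lit 0xbc0001780002fe3d7) (.hit (nat_lit 14) (nat_lit 0) (nat_lit 0xbc0001780002fe3d7) b16420 (.tok (nat_lit 6) (nat_lit 0xbc0001780002fdd62) (.hit (nat_lit 15) (nat_lit 7) (nat_lit 0xbc0001780002fdd62) b16423 (.hit (nat_lit 16) (nat_lit 15) (nat_lit 0xbc0001780002fdd53) b16424 (.nil))) (.tok (nat_lit 9) (nat_lit 0xbc0001780002fbfa5) (.hit (nat_lit 17) (nat_lit 20) (nat_lit 0xbc0001780002fbfa5) b16421 (.hit (nat_lit 18) (nat_lit 28) (nat_lit 0xbc0001780002fb366) b16422 (.nil))) (.nil)))) (.tok (nat_lit 6) (nat_lit 0xbc0001780002ff73d) (.hit (nat_lit 9) (nat_lit 0) (nat_lit 0xbc0001780002fe92a) b16415 (.tok (nat_lit 3) (nat_lit 0xbc0001780002ff73d) (.hit (nat_lit 10) (nat_lit 1) (nat_lit 0xbc0001780002fdf1e) b16416 (.one (nat_lit 67) (nat_lit 11) (nat_lit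 2) (nat_lit 0xbc0001780002ff73d) b16417 (.nil))) (.tok (nat_lit 6) (nat_lit 0xbc0001780002fef3b) (.hit (nat_lit 12) (nat_lit 7) (nat_lit 0xbc0001780002fef3b) b16418 (.hit (nat_lit 13) (nat_lit 15) (nat_lit 0xbc0001780002fe315) b16419 (.nil))) (.nil)))) (.tok (nat_lit 9) (nat_lit 0xbc000178000300000) (.hit (nat_lit 0) (nat_lit 0) (nat_lit 0xbc0001780002ff2e4) b16406 (.tok (nat_lit 3) (nat_lit 0xbc000178000300000) (.hit (nat_lit 1) (nat_lit 1) (nat_lit 0xbc0001780002fe642) b16407 (.one (nat_lit 55) (nat_lit 2) (nat_lit 3) (nat_lit 0xbc000178000300000) b16408 (.nil))) (.tok (nat_lit 9) (nat_lit 0xbc0001780002fff68) (.hit (nat_lit 3) (nat_lit 20) (nat_lit 0xbc0001780002ff5f5) b16409 (.hit (nat_lit 7) (nat_lit 28) (nat_lit 0xbc0001780002fe5a5) b16413 (.tok (nat_lit 67) (nat_lit 0xbc0001780002fff68) (.hit (nat_lit 4) (nat_lit 21) (nat_lit 0xbc0001780002fff35) b16410 (.hit (nat_lit 8)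 (nat_lit 29) (nat_lit 0xbc0001780002ff978) b16414 (.tok (nat_lit 9) (nat_lit 0xbc0001780002fff68) (.hit (nat_lit 5) (nat_lit 22) (nat_lit 0xbc0001780002ff734) b16411 (.one (nat_lit 67) (nat_lit 6) (nat_lit 23) (nat_lit 0xbc0001780002fff68) b16412 (.nil))) (.nil)))) (.nil)))) (.nil)))) (.nil)))
noncomputable def r28_122 : Rw Blk := .tok (nat_lit 3) (nat_lit 0x17ede4afc6905fbf80bf7a3d7edb92fe0b35fbb64bf84b97f1a6afe9aa) (.hit (nat_lit 0) (nat_lit 0) (nat_lit 0x17ede4afc6905fbf80bf7a3d7edb92fe0b35fbb64bf84b97f1a6afe9aa) b36067 (.tok (nat_lit 6) (nat_lit 0x17e74eafaf4d5fba52bf46797e72a2fb04f5f5464bef3717da842fdd10) (.hit (nat_lit 1) (nat_lit 7) (nat_lit 0x17e74eafaf4d5fba52bf46797e72a2fb04f5f5464bef3717da842fdd10) b29532 (.hit (nat_lit 6) (nat_lit 15) (nat_lit 0x17e6172facde5faa4abf3cbd7e5f2afade05f4f86bee9b57d94cafdb39) b29533 (.nil))) (.tok (nat_lit 9) (nat_lit 0x17e74eafaf4d5fba52bf46797e72a2fb04f5f5464bef3717da842fdb0c)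 (.hit (nat_lit 10) (nat_lit 20) (nat_lit 0x17e74eafaf4d5fba52bf46797e72a2fb04f5f5464bef3717da842fd9e2) b29530 (.hit (nat_lit 15) (nat_lit 28) (nat_lit 0x17e6172facde5faa4abf3cbd7e5f2afade05f4f86bee9b57d94cafdb0c) b29531 (.nil))) (.nil)))) (.tok (nat_lit 6) (nat_lit 0x180000300000600000c000017ffc4afe41a5fbf4abfacf97f408afea82) (.hit (nat_lit 81) (nat_lit 0) (nat_lit 0x17f9062fddea5fd660bfbc257f8dc2fe41a5fbf4abf9a697f408afea82) b29543 (.tok (nat_lit 3) (nat_lit 0x17f90d2fd4745fe28abfbdfd7f9152fc0f35f75acbf36017e2d62fe897) (.hit (nat_lit 82) (nat_lit 1) (nat_lit 0x17eb84afba075fb764bf50157eb592fa8455f4450bed3497d67f2fcea7) b29544 (.one (nat_lit 67) (nat_lit 83) (nat_lit 2) (nat_lit 0x17f90d2fd4745fe28abfbdfd7f9152fc0f35f75acbf36017e2d62fe897) b29545 (.nil))) (.tok (nat_lit 6) (nat_lit 0x180000300000600000c000017ffc4afdeb15fb128bfacf97f1b52fe710) (.hit (nat_lit 87) (nat_lit 7) (nat_lit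 0x17f57f2fd8445fd1d2bf87797f2472fbb815f6ac8bf20397e01d2fc951) b29546 (.hit (nat_lit 95) (nat_lit 15) (nat_lit 0x17ec9fafb9a15fa7babf56997ec29af9fcd5f3360beb1697d2432fc5c4) b29550 (.tok (nat_lit 55) (nat_lit 0x180000300000600000c000017ffc4afdeb15fb128bfacf97f1b52fe710) (.hit (nat_lit 88) (nat_lit 8) (nat_lit 0x17ff622fe7f45fe1debff2cd7ffc4afcf715f92a8bf6ff97ea152fe40c) b29547 (.hit (nat_lit 96) (nat_lit 16) (nat_lit 0x17f8ebafd6225fde6ebfc56d7fa042fcdb85f8f36bf69157e938afe5b9) b29551 (.tok (nat_lit 6) (nat_lit 0x180000300000600000c000017feaaafdeb15fb128bfacf97f1b52fe710) (.hit (nat_lit 89) (nat_lit 9) (nat_lit 0x17fa04afefc75fe4a4bfcac57f9b72fd1625f968abf77bd7eb0dafdf6d) b29548 (.one (nat_lit 55) (nat_lit 90) (nat_lit 10) (nat_lit 0x180000300000600000c000017feaaafdeb15fb128bfacf97f1b52fe710) b29549 (.nil))) (.nil)))) (.nil)))) (.nil)))) (.tok (nat_lit 9) (nat_lit 0x180000300000600000c0000180000300b08600000c00001800003003c8)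 (.hit (nat_lit 157) (nat_lit 0) (nat_lit 0x17f9062fddea5fd660bfbc257f843afe8a45fcec4bfac597f6992feb05) b29534 (.tok (nat_lit 3) (nat_lit 0x17f90d2fd4745fe28abfbe017f9162ffc9d5feb76bffa397fe0b30025c) (.hit (nat_lit 158) (nat_lit 1) (nat_lit 0x17eb84afba075fb764bf50157eb592fd9125fa582bf698d7ecc62fd9c6) b29535 (.one (nat_lit 55) (nat_lit 159) (nat_lit 3) (nat_lit 0x17f90d2fd4745fe28abfbe017f9162ffc9d5feb76bffa397fe0b30025c) b29536 (.nil))) (.tok (nat_lit 9) (nat_lit 0x180000300000600000c0000180000300b08600000c00001800003003c8) (.hit (nat_lit 163) (nat_lit 20) (nat_lit 0x17f57f2fd8445fd1d2bf87797f245afe8205fbdfcbf9a617f156afe03b) b29537 (.hit (nat_lit 171) (nat_lit 28) (nat_lit 0x17ec9fafb9a15fa7babf56997ec29afd3775fa1ecbf56e17eb48afd58f) b29541 (.tok (nat_lit 67) (nat_lit 0x180000300000600000c0000180000300b08600000c00001800003003c8) (.hit (nat_lit 164) (nat_lit 21) (nat_lit 0x17ff622fe7f45fe1debff2d17ffc530016c5fe5d6bfdacd7fb122ff912)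 b29538 (.hit (nat_lit 172) (nat_lit 29) (nat_lit 0x17f8ebafd6225fde6ebfc5857fa042ff2715fd5febfbec97f8392ff025) b29542 (.tok (nat_lit 9) (nat_lit 0x180000300000600000c0000180000300b08600000c00001800003003c8) (.hit (nat_lit 165) (nat_lit 22) (nat_lit 0x17fa04afefc75fe4a4bfcac57f9d92ff7845fe09cbfce397f7af2ff3a0) b29539 (.one (nat_lit 67) (nat_lit 166) (nat_lit 23) (nat_lit 0x180000300000600000c0000180000300b08600000c00001800003003c8) b29540 (.nil))) (.nil)))) (.nil)))) (.nil)))) (.nil)))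
noncomputable def r28_123 : Rw Blk := .tok (nat_lit 6) (nat_lit 0x5e0000bc0001800002ffd2b) (.hit (nat_lit 51) (nat_lit 0) (nat_lit 0x5e0000bc00017fba1aff142) b29552 (.tok (nat_lit 3) (nat_lit 0x5e0000bc00017fb902fef9d) (.hit (nat_lit 52) (nat_lit 1) (nat_lit 0x5e0000bc00017ee65afd528) b29553 (.one (nat_lit 56) (nat_lit 55) (nat_lit 6) (nat_lit 0x5e0000bc00017fb902fef9d) b29554 (.one (nat_lit 68) (nat_lit 54) (nat_lit 5) (nat_lit 0x5e0000bc00017f79f2fdee8) b29555 (.nil)))) (.tok (nat_lit 40) (nat_lit 0x5e0000bc00017faef2feee8) (.hit (nat_lit 56) (nat_lit 33) (nat_lit 0x5e0000bc00017faef2feee8) b29556 (.hit (nat_lit 57) (nat_lit 34) (nat_lit 0x5e0000bc00017f9ec2feaf9) b29557 (.nil))) (.tok (nat_lit 43) (nat_lit 0x5e0000bc0001800002ff8aa) (.hit (nat_lit 58) (nat_lit 35) (nat_lit 0x5e0000bc0001800002ff8aa) b29560 (.hit (nat_lit 59) (nat_lit 36) (nat_lit 0x5e0000bc00017fb572ff51c)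 b29561 (.nil))) (.tok (nat_lit 46) (nat_lit 0x5e0000bc00017fdec2ffd2b) (.hit (nat_lit 60) (nat_lit 37) (nat_lit 0x5e0000bc00017f2b7afd739) b29558 (.hit (nat_lit 61) (nat_lit 38) (nat_lit 0x5e0000bc00017fdec2ffd2b) b29559 (.nil))) (.nil)))))) (.tok (nat_lit 9) (nat_lit 0x5e0000bc000180000300000) (.hit (nat_lit 0) (nat_lit 0) (nat_lit 0x5e0000bc00017fba1afef01) b29562 (.tok (nat_lit 3) (nat_lit 0x5e0000bc00017fb902fef58) (.hit (nat_lit 1) (nat_lit 1) (nat_lit 0x5e0000bc00017ee65afd467) b29563 (.one (nat_lit 56) (nat_lit 4) (nat_lit 6) (nat_lit 0x5e0000bc00017f79f2feb9a) b29564 (.one (nat_lit 68) (nat_lit 3) (nat_lit 5) (nat_lit 0x5e0000bc00017fb902fef58) b29565 (.nil)))) (.tok (nat_lit 40) (nat_lit 0x5e0000bc00017faef2fef79) (.hit (nat_lit 5) (nat_lit 33) (nat_lit 0x5e0000bc00017faef2fef79) b29566 (.hit (nat_lit 6) (nat_lit 34) (nat_lit 0x5e0000bc00017f9ec2feb19) b29567 (.nil)))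 (.tok (nat_lit 43) (nat_lit 0x5e0000bc00017fdec2ff9c5) (.hit (nat_lit 7) (nat_lit 35) (nat_lit 0x5e0000bc00017f2b7afd739) b29558 (.hit (nat_lit 8) (nat_lit 36) (nat_lit 0x5e0000bc00017fdec2ff9c5) b29570 (.nil))) (.tok (nat_lit 46) (nat_lit 0x5e0000bc000180000300000) (.hit (nat_lit 9) (nat_lit 37) (nat_lit 0x5e0000bc000180000300000) b29568 (.hit (nat_lit 10) (nat_lit 38) (nat_lit 0x5e0000bc00017fb572ff661) b29569 (.nil))) (.nil)))))) (.nil))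
noncomputable def r28_124 : Rw Blk := .tok (nat_lit 3) (nat_lit 0xbc0001780002fdd96) (.hit (nat_lit 61) (nat_lit 0) (nat_lit 0xbc0001780002fd24b) b8970 (.tok (nat_lit 9) (nat_lit 0xbc0001780002fd581) (.hit (nat_lit 62) (nat_lit 20) (nat_lit 0xbc0001780002fbbf9) b8971 (.hit (nat_lit 67) (nat_lit 28) (nat_lit 0xbc0001780002fadd7) b8974 (.one (nat_lit 56) (nat_lit 69) (nat_lit 31) (nat_lit 0xbc0001780002fc055) b8975 (.tok (nat_lit 68) (nat_lit 0xbc0001780002fd581) (.hit (nat_lit 65) (nat_lit 26) (nat_lit 0xbc0001780002fcd73) b8972 (.hit (nat_lit 70) (nat_lit 32) (nat_lit 0xbc0001780002fbed5) b8976 (.one (nat_lit 9) (nat_lit 66) (nat_lit 27) (nat_lit 0xbc0001780002fd581) b8973 (.nil)))) (.nil))))) (.tok (nat_lit 64) (nat_lit 0xbc0001780002fc70f) (.hit (nat_lit 71) (nat_lit 50) (nat_lit 0xbc0001780002fbf8c) b8977 (.hit (nat_lit 72) (nat_lit 51) (nat_lit 0xbc0001780002fc70f) b8978 (.nil)))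 (.tok (nat_lit 67) (nat_lit 0xbc0001780002fdd96) (.hit (nat_lit 73) (nat_lit 52) (nat_lit 0xbc0001780002fdd96) b8979 (.one (nat_lit 3) (nat_lit 79) (nat_lit 58) (nat_lit 0xbc0001780002fd3b5) b8985 (.tok (nat_lit 9) (nat_lit 0xbc0001780002fd8c9) (.hit (nat_lit 74) (nat_lit 53) (nat_lit 0xbc0001780002fc8f3) b8980 (.hit (nat_lit 77) (nat_lit 56) (nat_lit 0xbc0001780002fcc00) b8983 (.tok (nat_lit 67) (nat_lit 0xbc0001780002fd8c9) (.hit (nat_lit 75) (nat_lit 54) (nat_lit 0xbc0001780002fd809) b8981 (.hit (nat_lit 78) (nat_lit 57) (nat_lit 0xbc0001780002fd8c9) b8984 (.one (nat_lit 9) (nat_lit 76) (nat_lit 55) (nat_lit 0xbc0001780002fd3cd) b8982 (.nil)))) (.nil)))) (.nil)))) (.one (nat_lit 70) (nat_lit 81) (nat_lit 60) (nat_lit 0xbc0001780002fc7be) b8986 (.nil)))))) (.tok (nat_lit 6) (nat_lit 0xbc000178000300000) (.hit (nat_lit 0) (nat_lit 0) (nat_lit 0xbc0001780002feb42) b8953 (.tok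 (nat_lit 6) (nat_lit 0xbc000178000300000) (.hit (nat_lit 1) (nat_lit 7) (nat_lit 0xbc0001780002fd8ca) b8954 (.hit (nat_lit 6) (nat_lit 15) (nat_lit 0xbc0001780002fc64d) b8957 (.tok (nat_lit 56) (nat_lit 0xbc000178000300000) (.hit (nat_lit 4) (nat_lit 13) (nat_lit 0xbc0001780002fefdc) b8955 (.hit (nat_lit 9) (nat_lit 19) (nat_lit 0xbc0001780002fd664) b8959 (.one (nat_lit 6) (nat_lit 5) (nat_lit 14) (nat_lit 0xbc000178000300000) b8956 (.nil)))) (.one (nat_lit 68) (nat_lit 8) (nat_lit 18) (nat_lit 0xbc0001780002fdb60) b8958 (.nil))))) (.tok (nat_lit 52) (nat_lit 0xbc0001780002feaed) (.hit (nat_lit 10) (nat_lit 39) (nat_lit 0xbc0001780002fddba) b8960 (.hit (nat_lit 11) (nat_lit 40) (nat_lit 0xbc0001780002feaed) b8961 (.nil))) (.tok (nat_lit 55) (nat_lit 0xbc0001780002ffcc4) (.hit (nat_lit 12) (nat_lit 41) (nat_lit 0xbc0001780002ff8c8) b8962 (.one (nat_lit 3) (nat_lit 18) (nat_lit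 47) (nat_lit 0xbc0001780002fecd0) b8968 (.tok (nat_lit 6) (nat_lit 0xbc0001780002ffcc4) (.hit (nat_lit 13) (nat_lit 42) (nat_lit 0xbc0001780002fe135) b8963 (.hit (nat_lit 16) (nat_lit 45) (nat_lit 0xbc0001780002fed2b) b8966 (.tok (nat_lit 55) (nat_lit 0xbc0001780002ffcc4) (.hit (nat_lit 14) (nat_lit 43) (nat_lit 0xbc0001780002ff700) b8964 (.hit (nat_lit 17) (nat_lit 46) (nat_lit 0xbc0001780002ffcc4) b8967 (.one (nat_lit 6) (nat_lit 15) (nat_lit 44) (nat_lit 0xbc0001780002ff7ad) b8965 (.nil)))) (.nil)))) (.nil)))) (.one (nat_lit 58) (nat_lit 20) (nat_lit 49) (nat_lit 0xbc0001780002fed19) b8969 (.nil)))))) (.nil))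
noncomputable def r28_125 : Rw Blk := .tok (nat_lit 3) (nat_lit 0x5e0000bc00017eac4afe880) (.hit (nat_lit 61) (nat_lit 0) (nat_lit 0x5e0000bc00017dcf0afce40) b29656 (.tok (nat_lit 9) (nat_lit 0x5e0000bc00017dd22afcfc2) (.hit (nat_lit 62) (nat_lit 20) (nat_lit 0x5e0000bc00017cf792fb46f) b29657 (.hit (nat_lit 67) (nat_lit 28) (nat_lit 0x5e0000bc00017d130afb7de) b29660 (.one (nat_lit 56) (nat_lit 69) (nat_lit 31) (nat_lit 0x5e0000bc00017dc4bafce14) b29661 (.tok (nat_lit 68) (nat_lit 0x5e0000bc00017dd22afcfc2) (.hit (nat_lit 65) (nat_lit 26) (nat_lit 0x5e0000bc00017db622fcc41) b29658 (.hit (nat_lit 70) (nat_lit 32) (nat_lit 0x5e0000bc00017d9492fc80f) b29662 (.one (nat_lit 9) (nat_lit 66) (nat_lit 27) (nat_lit 0x5e0000bc00017dd22afcfc2) b29659 (.nil)))) (.nil))))) (.tok (nat_lit 64) (nat_lit 0x5e0000bc00017de582fd22d) (.hit (nat_lit 71) (nat_lit 50) (nat_lit 0x5e0000bc00017dabd2fcaf7)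 b29663 (.hit (nat_lit 72) (nat_lit 51) (nat_lit 0x5e0000bc00017de582fd22d) b29664 (.nil))) (.tok (nat_lit 67) (nat_lit 0x5e0000bc00017eac4afe880) (.hit (nat_lit 73) (nat_lit 52) (nat_lit 0x5e0000bc00017e6262fe0f1) b29665 (.one (nat_lit 3) (nat_lit 79) (nat_lit 58) (nat_lit 0x5e0000bc00017e270afda5e) b29671 (.tok (nat_lit 9) (nat_lit 0x5e0000bc00017eac4afe880) (.hit (nat_lit 74) (nat_lit 53) (nat_lit 0x5e0000bc00017e71dafdd67) b29666 (.hit (nat_lit 77) (nat_lit 56) (nat_lit 0x5e0000bc00017ddce2fd119) b29669 (.tok (nat_lit 67) (nat_lit 0x5e0000bc00017eac4afe880) (.hit (nat_lit 75) (nat_lit 54) (nat_lit 0x5e0000bc00017eac4afe880) b29667 (.hit (nat_lit 78) (nat_lit 57) (nat_lit 0x5e0000bc00017e670afe25e) b29670 (.one (nat_lit 9) (nat_lit 76) (nat_lit 55) (nat_lit 0x5e0000bc00017e6f8afe36e) b29668 (.nil)))) (.nil)))) (.nil)))) (.one (nat_lit 70) (nat_lit 81) (nat_lit 60) (nat_lit 0x5e0000bc00017de202fd1bd)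 b29672 (.nil)))))) (.tok (nat_lit 6) (nat_lit 0x5e0000bc00018000030022d) (.hit (nat_lit 0) (nat_lit 0) (nat_lit 0x5e0000bc00017e3cc2fd1f8) b29639 (.tok (nat_lit 6) (nat_lit 0x5e0000bc00017e5fb2fdc27) (.hit (nat_lit 1) (nat_lit 7) (nat_lit 0x5e0000bc00017dde12fc9ad) b29640 (.hit (nat_lit 6) (nat_lit 15) (nat_lit 0x5e0000bc00017d734afbcc8) b29643 (.tok (nat_lit 56) (nat_lit 0x5e0000bc00017e5fb2fdc27) (.hit (nat_lit 4) (nat_lit 13) (nat_lit 0x5e0000bc00017e590afd88c) b29641 (.hit (nat_lit 9) (nat_lit 19) (nat_lit 0x5e0000bc00017e57bafca4c) b29645 (.one (nat_lit 6) (nat_lit 5) (nat_lit 14) (nat_lit 0x5e0000bc00017e5fb2fdc27) b29642 (.nil)))) (.one (nat_lit 68) (nat_lit 8) (nat_lit 18) (nat_lit 0x5e0000bc00017e5a9afcec5) b29644 (.nil))))) (.tok (nat_lit 52) (nat_lit 0x5e0000bc00017e8cb2fd72b) (.hit (nat_lit 10) (nat_lit 39) (nat_lit 0x5e0000bc00017e0c1afd72b) b29646 (.hit (nat_lit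 11) (nat_lit 40) (nat_lit 0x5e0000bc00017e8cb2fd60a) b29647 (.nil))) (.tok (nat_lit 55) (nat_lit 0x5e0000bc00018000030022d) (.hit (nat_lit 12) (nat_lit 41) (nat_lit 0x5e0000bc00017eb8c2ff441) b29648 (.one (nat_lit 3) (nat_lit 18) (nat_lit 47) (nat_lit 0x5e0000bc00017e4b52fe227) b29654 (.tok (nat_lit 6) (nat_lit 0x5e0000bc00018000030022d) (.hit (nat_lit 13) (nat_lit 42) (nat_lit 0x5e0000bc00017ee3d2fded5) b29649 (.hit (nat_lit 16) (nat_lit 45) (nat_lit 0x5e0000bc00017ec3dafdf9f) b29652 (.tok (nat_lit 55) (nat_lit 0x5e0000bc00018000030022d) (.hit (nat_lit 14) (nat_lit 43) (nat_lit 0x5e0000bc00017fc792ffa24) b29650 (.hit (nat_lit 17) (nat_lit 46) (nat_lit 0x5e0000bc00017ea48afea9c) b29653 (.one (nat_lit 6) (nat_lit 15) (nat_lit 44) (nat_lit 0x5e0000bc00018000030022d) b29651 (.nil)))) (.nil)))) (.nil)))) (.one (nat_lit 58) (nat_lit 20) (nat_lit 49) (nat_lit 0x5e0000bc00017e7f22fdef4)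 b29655 (.nil)))))) (.nil))
noncomputable def r28_126 : Rw Blk := .tok (nat_lit 3) (nat_lit 0x5e0000bc00017eecb2feb89) (.hit (nat_lit 61) (nat_lit 0) (nat_lit 0x5e0000bc00017e925afda5d) b29588 (.tok (nat_lit 6) (nat_lit 0x5e0000bc00017eac0afdf6d) (.hit (nat_lit 62) (nat_lit 7) (nat_lit 0x5e0000bc00017ddfcafc5e5) b29589 (.hit (nat_lit 67) (nat_lit 15) (nat_lit 0x5e0000bc00017d6ebafb7c3) b29592 (.tok (nat_lit 56) (nat_lit 0x5e0000bc00017eac0afdf6d) (.hit (nat_lit 65) (nat_lit 13) (nat_lit 0x5e0000bc00017e6b9afd75f) b29590 (.hit (nat_lit 70) (nat_lit 19) (nat_lit 0x5e0000bc00017df6aafc8c1) b29594 (.one (nat_lit 6) (nat_lit 66) (nat_lit 14) (nat_lit 0x5e0000bc00017eac0afdf6d) b29591 (.nil)))) (.one (nat_lit 68) (nat_lit 69) (nat_lit 18) (nat_lit 0x5e0000bc00017e02aafca41) b29593 (.nil))))) (.tok (nat_lit 52) (nat_lit 0x5e0000bc00017e387afd0fb) (.hit (nat_lit 71) (nat_lit 39) (nat_lit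 0x5e0000bc00017dfc62fc978) b29595 (.hit (nat_lit 72) (nat_lit 40) (nat_lit 0x5e0000bc00017e387afd0fb) b29596 (.nil))) (.tok (nat_lit 55) (nat_lit 0x5e0000bc00017eecb2feb89) (.hit (nat_lit 73) (nat_lit 41) (nat_lit 0x5e0000bc00017eecb2feb89) b29597 (.one (nat_lit 3) (nat_lit 79) (nat_lit 47) (nat_lit 0x5e0000bc00017e9daafdda1) b29603 (.tok (nat_lit 6) (nat_lit 0x5e0000bc00017ec64afe2b5) (.hit (nat_lit 74) (nat_lit 42) (nat_lit 0x5e0000bc00017e479afd2df) b29598 (.hit (nat_lit 77) (nat_lit 45) (nat_lit 0x5e0000bc00017e6002fd5ec) b29601 (.tok (nat_lit 55) (nat_lit 0x5e0000bc00017ec64afe2b5) (.hit (nat_lit 75) (nat_lit 43) (nat_lit 0x5e0000bc00017ec04afe1f5) b29599 (.hit (nat_lit 78) (nat_lit 46) (nat_lit 0x5e0000bc00017ec64afe2b5) b29602 (.one (nat_lit 6) (nat_lit 76) (nat_lit 44) (nat_lit 0x5e0000bc00017e9e6afddb9) b29600 (.nil)))) (.nil)))) (.nil)))) (.one (nat_lit 58) (nat_lit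 81) (nat_lit 49) (nat_lit 0x5e0000bc00017e3df2fd1aa) b29604 (.nil)))))) (.tok (nat_lit 9) (nat_lit 0x5e0000bc000180000300000) (.hit (nat_lit 0) (nat_lit 0) (nat_lit 0x5e0000bc00017f5a12fdddf) b29571 (.tok (nat_lit 9) (nat_lit 0x5e0000bc0001800002ff996) (.hit (nat_lit 1) (nat_lit 20) (nat_lit 0x5e0000bc00017ec652fd756) b29572 (.hit (nat_lit 6) (nat_lit 28) (nat_lit 0x5e0000bc00017e326afc1af) b29575 (.one (nat_lit 56) (nat_lit 8) (nat_lit 31) (nat_lit 0x5e0000bc00017edb02fe158) b29576 (.tok (nat_lit 68) (nat_lit 0x5e0000bc0001800002ff996) (.hit (nat_lit 4) (nat_lit 26) (nat_lit 0x5e0000bc00017f7ee2fe5ca) b29573 (.hit (nat_lit 9) (nat_lit 32) (nat_lit 0x5e0000bc00017eb322fdcb2) b29577 (.one (nat_lit 9) (nat_lit 5) (nat_lit 27) (nat_lit 0x5e0000bc0001800002ff996) b29574 (.nil)))) (.nil))))) (.tok (nat_lit 64) (nat_lit 0x5e0000bc00017f576afec69) (.hit (nat_lit 10) (nat_lit 50) (nat_lit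 0x5e0000bc00017eedd2fe05a) b29578 (.hit (nat_lit 11) (nat_lit 51) (nat_lit 0x5e0000bc00017f576afec69) b29579 (.nil))) (.tok (nat_lit 67) (nat_lit 0x5e0000bc00017fe62300000) (.hit (nat_lit 12) (nat_lit 52) (nat_lit 0x5e0000bc00017fc642ffd06) b29580 (.one (nat_lit 3) (nat_lit 18) (nat_lit 58) (nat_lit 0x5e0000bc00017f6682ff177) b29586 (.tok (nat_lit 9) (nat_lit 0x5e0000bc00017fe62300000) (.hit (nat_lit 13) (nat_lit 53) (nat_lit 0x5e0000bc00017f09aafe721) b29581 (.hit (nat_lit 16) (nat_lit 56) (nat_lit 0x5e0000bc00017f695aff343) b29584 (.tok (nat_lit 67) (nat_lit 0x5e0000bc00017fe62300000) (.hit (nat_lit 14) (nat_lit 54) (nat_lit 0x5e0000bc00017fb802fff60) b29582 (.hit (nat_lit 17) (nat_lit 57) (nat_lit 0x5e0000bc00017fe62300000) b29585 (.one (nat_lit 9) (nat_lit 15) (nat_lit 55) (nat_lit 0x5e0000bc00017fbd6affb9c) b29583 (.nil)))) (.nil)))) (.nil)))) (.one (nat_lit 70) (nat_lit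 20) (nat_lit 60) (nat_lit 0x5e0000bc00017f68cafed35) b29587 (.nil)))))) (.nil))
noncomputable def r28_127 : Rw Blk := .tok (nat_lit 3) (nat_lit 0x5e0000bc00017eac4afe9c1) (.hit (nat_lit 61) (nat_lit 0) (nat_lit 0x5e0000bc00017dcf0afd026) b29622 (.tok (nat_lit 6) (nat_lit 0x5e0000bc00017dd22afd103) (.hit (nat_lit 62) (nat_lit 7) (nat_lit 0x5e0000bc00017cf792fb5b0) b29623 (.hit (nat_lit 67) (nat_lit 15) (nat_lit 0x5e0000bc00017d130afb91f) b29626 (.tok (nat_lit 56) (nat_lit 0x5e0000bc00017dd22afd103) (.hit (nat_lit 65) (nat_lit 13) (nat_lit 0x5e0000bc00017db622fcd82) b29624 (.hit (nat_lit 70) (nat_lit 19) (nat_lit 0x5e0000bc00017d9492fc950) b29628 (.one (nat_lit 6) (nat_lit 66) (nat_lit 14) (nat_lit 0x5e0000bc00017dd22afd103) b29625 (.nil)))) (.one (nat_lit 68) (nat_lit 69) (nat_lit 18) (nat_lit 0x5e0000bc00017dc4bafcf55) b29627 (.nil))))) (.tok (nat_lit 52) (nat_lit 0x5e0000bc00017de582fd36e)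 (.hit (nat_lit 71) (nat_lit 39) (nat_lit 0x5e0000bc00017dabd2fcc38) b29629 (.hit (nat_lit 72) (nat_lit 40) (nat_lit 0x5e0000bc00017de582fd36e) b29630 (.nil))) (.tok (nat_lit 55) (nat_lit 0x5e0000bc00017eac4afe9c1) (.hit (nat_lit 73) (nat_lit 41) (nat_lit 0x5e0000bc00017e6262fe382) b29631 (.one (nat_lit 3) (nat_lit 79) (nat_lit 47) (nat_lit 0x5e0000bc00017e270afdb9f) b29637 (.tok (nat_lit 6) (nat_lit 0x5e0000bc00017eac4afe9c1) (.hit (nat_lit 74) (nat_lit 42) (nat_lit 0x5e0000bc00017e71dafe4ad) b29632 (.hit (nat_lit 77) (nat_lit 45) (nat_lit 0x5e0000bc00017ddce2fd25a) b29635 (.tok (nat_lit 55) (nat_lit 0x5e0000bc00017eac4afe9c1) (.hit (nat_lit 75) (nat_lit 43) (nat_lit 0x5e0000bc00017eac4afe9c1) b29633 (.hit (nat_lit 78) (nat_lit 46) (nat_lit 0x5e0000bc00017e670afe39f) b29636 (.one (nat_lit 6) (nat_lit 76) (nat_lit 44) (nat_lit 0x5e0000bc00017e6f8afe4af) b29634 (.nil)))) (.nil))))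 (.nil)))) (.one (nat_lit 58) (nat_lit 81) (nat_lit 49) (nat_lit 0x5e0000bc00017de202fd2fe) b29638 (.nil)))))) (.tok (nat_lit 9) (nat_lit 0x5e0000bc0001800003009cb) (.hit (nat_lit 0) (nat_lit 0) (nat_lit 0x5e0000bc00017e3cc2fd3e3) b29605 (.tok (nat_lit 9) (nat_lit 0x5e0000bc00017e5fb2fd9c9) (.hit (nat_lit 1) (nat_lit 20) (nat_lit 0x5e0000bc00017dde12fcb93) b29606 (.hit (nat_lit 6) (nat_lit 28) (nat_lit 0x5e0000bc00017d734afbeae) b29609 (.one (nat_lit 56) (nat_lit 8) (nat_lit 31) (nat_lit 0x5e0000bc00017e5a9afd006) b29610 (.tok (nat_lit 68) (nat_lit 0x5e0000bc00017e5fb2fd9c9) (.hit (nat_lit 4) (nat_lit 26) (nat_lit 0x5e0000bc00017e590afd889) b29607 (.hit (nat_lit 9) (nat_lit 32) (nat_lit 0x5e0000bc00017e57bafcc32) b29611 (.one (nat_lit 9) (nat_lit 5) (nat_lit 27) (nat_lit 0x5e0000bc00017e5fb2fd9c9) b29608 (.nil)))) (.nil))))) (.tok (nat_lit 64) (nat_lit 0x5e0000bc00017e8cb2fd911)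 (.hit (nat_lit 10) (nat_lit 50) (nat_lit 0x5e0000bc00017e0c1afd911) b29612 (.hit (nat_lit 11) (nat_lit 51) (nat_lit 0x5e0000bc00017e8cb2fd7c9) b29613 (.nil))) (.tok (nat_lit 67) (nat_lit 0x5e0000bc0001800003009cb) (.hit (nat_lit 12) (nat_lit 52) (nat_lit 0x5e0000bc00017eb8c2ff8c7) b29614 (.one (nat_lit 3) (nat_lit 18) (nat_lit 58) (nat_lit 0x5e0000bc00017e4b52fe590) b29620 (.tok (nat_lit 9) (nat_lit 0x5e0000bc0001800003009cb) (.hit (nat_lit 13) (nat_lit 53) (nat_lit 0x5e0000bc00017ee3d2fe1ac) b29615 (.hit (nat_lit 16) (nat_lit 56) (nat_lit 0x5e0000bc00017ec3dafe1c7) b29618 (.tok (nat_lit 67) (nat_lit 0x5e0000bc0001800003009cb) (.hit (nat_lit 14) (nat_lit 54) (nat_lit 0x5e0000bc00017fc793009cb) b29616 (.hit (nat_lit 17) (nat_lit 57) (nat_lit 0x5e0000bc00017ea48afed8e) b29619 (.one (nat_lit 9) (nat_lit 15) (nat_lit 55) (nat_lit 0x5e0000bc0001800003006bf) b29617 (.nil)))) (.nil))))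 (.nil)))) (.one (nat_lit 70) (nat_lit 20) (nat_lit 60) (nat_lit 0x5e0000bc00017e7f22fe0da) b29621 (.nil)))))) (.nil))
noncomputable def r28_128 : Rw Blk := .tok (nat_lit 3) (nat_lit 0x2fdbc95f8d20bf7f017ef4aafdb525fbf2abfa3d57f2372feee2) (.hit (nat_lit 0) (nat_lit 0) (nat_lit 0x2fdbc95f8d20bf7f017ef4aafdb525fbf2abfa3d57f2372feee2) b36068 (.tok (nat_lit 6) (nat_lit 0x2fce9d5f5e9abf74a57e8cf2fce245f64a2bf21117dd262fe233) (.hit (nat_lit 1) (nat_lit 7) (nat_lit 0x2fce9d5f5e9abf74a57e8cf2fce245f64a2bf21117dd262fe233) b29676 (.hit (nat_lit 6) (nat_lit 15) (nat_lit 0x2fcc2e5f59bcbf54957e797afcbb55f5fc4bf17557dbeeafe056) b29677 (.nil))) (.tok (nat_lit 9) (nat_lit 0x2fce9d5f5e9abf74a57e8cf2fce245f64a2bf21117dd262fe23d) (.hit (nat_lit 10) (nat_lit 20) (nat_lit 0x2fce9d5f5e9abf74a57e8cf2fce245f64a2bf21117dd262fe23d) b29674 (.hit (nat_lit 15) (nat_lit 28) (nat_lit 0x2fcc2e5f59bcbf54957e797afcbb55f5fc4bf17557dbeeafe07a)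 b29675 (.nil))) (.nil)))) (.tok (nat_lit 6) (nat_lit 0x300000600000c00001800002fff3d600000c03bc580000300d19) (.hit (nat_lit 81) (nat_lit 0) (nat_lit 0x2ff20c5fbbd4bfacc17f787aff0655fd046bfc9897f67cafef68) b29687 (.tok (nat_lit 3) (nat_lit 0x2ff21a5fa8e8bfc5157f7c32ff20a5fdccebffbed7fbdaaffe3f) (.hit (nat_lit 82) (nat_lit 1) (nat_lit 0x2fd7095f740ebf6ec97ea05afd6905fa948bf8b0d7edb22fdf14) b29688 (.one (nat_lit 67) (nat_lit 83) (nat_lit 2) (nat_lit 0x2ff21a5fa8e8bfc5157f7c32ff20a5fdccebffbed7fbdaaffe3f) b29689 (.nil))) (.tok (nat_lit 6) (nat_lit 0x300000600000c00001800002fff3d600000c03bc580000300d19) (.hit (nat_lit 87) (nat_lit 7) (nat_lit 0x2feafe5fb088bfa3a57f0f22fe4695fc1bcbfb9a57f1e72fe38f) b29690 (.hit (nat_lit 95) (nat_lit 15) (nat_lit 0x2fd93f5f7342bf4f757ead62fd8315fa5b2bf76017ebd92fdac7) b29694 (.tok (nat_lit 55) (nat_lit 0x300000600000c00001800002fff3d600000c03bc580000300d19)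 (.hit (nat_lit 88) (nat_lit 8) (nat_lit 0x2ffec45fcfe8bfc3bd7fe5cafff1c5fe380bfea457fa102ffa10) b29691 (.hit (nat_lit 96) (nat_lit 16) (nat_lit 0x2ff1d75fac44bfbcdd7f8b3aff3e65fdae8bfda257f8c02ff4af) b29695 (.tok (nat_lit 6) (nat_lit 0x300000600000c00001800002fff3d600000c03bc580000300d19) (.hit (nat_lit 89) (nat_lit 9) (nat_lit 0x2ff4095fdf8ebfc9497f958aff3905fe034bff5457fa452ffd36) b29692 (.one (nat_lit 55) (nat_lit 90) (nat_lit 10) (nat_lit 0x300000600000c00001800002fff3d600000c03bc580000300d19) b29693 (.nil))) (.nil)))) (.nil)))) (.nil)))) (.tok (nat_lit 9) (nat_lit 0x300000600000c00001800003000005fcab4bfda997f519aff705) (.hit (nat_lit 157) (nat_lit 0) (nat_lit 0x2ff20c5fbbd4bfacc17f787aff7df5fcab4bfcb9d7f519aff03d) b29678 (.tok (nat_lit 3) (nat_lit 0x2ff21a5fa8e8bfc5157f7c2aff20a5f85eabf63a17e5782fee14) (.hit (nat_lit 158) (nat_lit 1) (nat_lit 0x2fd7095f740ebf6ec97ea05afd6905f548ebf00e97d9212fd3df)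 b29679 (.one (nat_lit 55) (nat_lit 159) (nat_lit 3) (nat_lit 0x2ff21a5fa8e8bfc5157f7c2aff20a5f85eabf63a17e5782fee14) b29680 (.nil))) (.tok (nat_lit 9) (nat_lit 0x300000600000c00001800003000005fc166bfda997f4572ff705) (.hit (nat_lit 163) (nat_lit 20) (nat_lit 0x2feafe5fb088bfa3a57f0f22fe4af5f7b06bf4dd97e2bf2fcdd9) b29681 (.hit (nat_lit 171) (nat_lit 28) (nat_lit 0x2fd93f5f7342bf4f757ead62fd8315f439ebedf097d4e52fcafc) b29685 (.tok (nat_lit 67) (nat_lit 0x300000600000c00001800003000005fc166bfda997f4572ff705) (.hit (nat_lit 164) (nat_lit 21) (nat_lit 0x2ffec45fcfe8bfc3bd7fe5d2fff685fa2e6bf9d997ecb72fe9b9) b29682 (.hit (nat_lit 172) (nat_lit 29) (nat_lit 0x2ff1d75fac44bfbcdd7f8b0aff3e65f9f74bf96b57ebdaafeb0c) b29686 (.tok (nat_lit 9) (nat_lit 0x300000600000c00001800003000005fc166bfda997f4572ff705) (.hit (nat_lit 165) (nat_lit 22) (nat_lit 0x2ff4095fdf8ebfc9497f958aff3915fa6c8bfa55d7edafafeca7)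 b29683 (.one (nat_lit 67) (nat_lit 166) (nat_lit 23) (nat_lit 0x300000600000c00001800003000005fc166bfda997f4572ff705) b29684 (.nil))) (.nil)))) (.nil)))) (.nil)))) (.nil)))
noncomputable def r28_129 : Rw Blk := .tok (nat_lit 6) (nat_lit 0x5e0000bc0001800002ffb89) (.hit (nat_lit 51) (nat_lit 0) (nat_lit 0x5e0000bc00017fba1afeaaa) b29696 (.tok (nat_lit 3) (nat_lit 0x5e0000bc00017fb902fedfb) (.hit (nat_lit 52) (nat_lit 1) (nat_lit 0x5e0000bc00017ee65afd399) b29697 (.one (nat_lit 56) (nat_lit 55) (nat_lit 6) (nat_lit 0x5e0000bc00017fb902fedfb) b29698 (.one (nat_lit 68) (nat_lit 54) (nat_lit 5) (nat_lit 0x5e0000bc00017f79f2fe9df) b29699 (.nil)))) (.tok (nat_lit 40) (nat_lit 0x5e0000bc00017faef2fedaf) (.hit (nat_lit 56) (nat_lit 33) (nat_lit 0x5e0000bc00017faef2fedaf) b29700 (.hit (nat_lit 57) (nat_lit 34) (nat_lit 0x5e0000bc00017f9ec2fe8fc) b29701 (.nil))) (.tok (nat_lit 43) (nat_lit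 0x5e0000bc0001800002ff718) (.hit (nat_lit 58) (nat_lit 35) (nat_lit 0x5e0000bc0001800002ff718) b29704 (.hit (nat_lit 59) (nat_lit 36) (nat_lit 0x5e0000bc00017fb572ff35c) b29705 (.nil))) (.tok (nat_lit 46) (nat_lit 0x5e0000bc00017fdec2ffb89) (.hit (nat_lit 60) (nat_lit 37) (nat_lit 0x5e0000bc00017f2b7afd594) b29702 (.hit (nat_lit 61) (nat_lit 38) (nat_lit 0x5e0000bc00017fdec2ffb89) b29703 (.nil))) (.nil)))))) (.tok (nat_lit 9) (nat_lit 0x5e0000bc000180000300000) (.hit (nat_lit 0) (nat_lit 0) (nat_lit 0x5e0000bc00017fba1afefac) b29706 (.tok (nat_lit 3) (nat_lit 0x5e0000bc00017fb902fe9f8) (.hit (nat_lit 1) (nat_lit 1) (nat_lit 0x5e0000bc00017ee65afd399) b29697 (.one (nat_lit 56) (nat_lit 4) (nat_lit 6) (nat_lit 0x5e0000bc00017f79f2fe9f8) b29707 (.one (nat_lit 68) (nat_lit 3) (nat_lit 5) (nat_lit 0x5e0000bc00017fb902fe670) b29708 (.nil)))) (.tok (nat_lit 40) (nat_lit 0x5e0000bc00017faef2fedf1)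 (.hit (nat_lit 5) (nat_lit 33) (nat_lit 0x5e0000bc00017faef2fedf1) b29709 (.hit (nat_lit 6) (nat_lit 34) (nat_lit 0x5e0000bc00017f9ec2fe9fb) b29710 (.nil))) (.tok (nat_lit 43) (nat_lit 0x5e0000bc00017fdec2ff342) (.hit (nat_lit 7) (nat_lit 35) (nat_lit 0x5e0000bc00017f2b7afd594) b29702 (.hit (nat_lit 8) (nat_lit 36) (nat_lit 0x5e0000bc00017fdec2ff342) b29713 (.nil))) (.tok (nat_lit 46) (nat_lit 0x5e0000bc000180000300000) (.hit (nat_lit 9) (nat_lit 37) (nat_lit 0x5e0000bc000180000300000) b29711 (.hit (nat_lit 10) (nat_lit 38) (nat_lit 0x5e0000bc00017fb572ff4bf) b29712 (.nil))) (.nil)))))) (.nil))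
noncomputable def r28_130 : Rw Blk := .tok (nat_lit 3) (nat_lit 0x5e0000bc00017eecb2fe060) (.hit (nat_lit 61) (nat_lit 0) (nat_lit 0x5e0000bc00017e925afd725) b29765 (.tok (nat_lit 9) (nat_lit 0x5e0000bc00017eac0afda00) (.hit (nat_lit 62) (nat_lit 20) (nat_lit 0x5e0000bc00017ddfcafc078) b29766 (.hit (nat_lit 67) (nat_lit 28) (nat_lit 0x5e0000bc00017d6ebafb256) b29769 (.one (nat_lit 56) (nat_lit 69) (nat_lit 31) (nat_lit 0x5e0000bc00017e02aafc4d4) b29770 (.tok (nat_lit 68) (nat_lit 0x5e0000bc00017eac0afda00) (.hit (nat_lit 65) (nat_lit 26) (nat_lit 0x5e0000bc00017e6b9afd1f2) b29767 (.hit (nat_lit 70) (nat_lit 32) (nat_lit 0x5e0000bc00017df6aafc354) b29771 (.one (nat_lit 9) (nat_lit 66) (nat_lit 27) (nat_lit 0x5e0000bc00017eac0afda00) b29768 (.nil)))) (.nil))))) (.tok (nat_lit 64) (nat_lit 0x5e0000bc00017e387afcb8e) (.hit (nat_lit 71) (nat_lit 50) (nat_lit 0x5e0000bc00017dfc62fc40b)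 b29772 (.hit (nat_lit 72) (nat_lit 51) (nat_lit 0x5e0000bc00017e387afcb8e) b29773 (.nil))) (.tok (nat_lit 67) (nat_lit 0x5e0000bc00017eecb2fe060) (.hit (nat_lit 73) (nat_lit 52) (nat_lit 0x5e0000bc00017eecb2fe060) b29774 (.one (nat_lit 3) (nat_lit 79) (nat_lit 58) (nat_lit 0x5e0000bc00017e9daafd834) b29780 (.tok (nat_lit 9) (nat_lit 0x5e0000bc00017ec64afdd48) (.hit (nat_lit 74) (nat_lit 53) (nat_lit 0x5e0000bc00017e479afcd72) b29775 (.hit (nat_lit 77) (nat_lit 56) (nat_lit 0x5e0000bc00017e6002fd07f) b29778 (.tok (nat_lit 67) (nat_lit 0x5e0000bc00017ec64afdd48) (.hit (nat_lit 75) (nat_lit 54) (nat_lit 0x5e0000bc00017ec04afdc88) b29776 (.hit (nat_lit 78) (nat_lit 57) (nat_lit 0x5e0000bc00017ec64afdd48) b29779 (.one (nat_lit 9) (nat_lit 76) (nat_lit 55) (nat_lit 0x5e0000bc00017e9e6afd84c) b29777 (.nil)))) (.nil)))) (.nil)))) (.one (nat_lit 70) (nat_lit 81) (nat_lit 60) (nat_lit 0x5e0000bc00017e3df2fcc3d)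 b29781 (.nil)))))) (.tok (nat_lit 6) (nat_lit 0x5e0000bc000180000300139) (.hit (nat_lit 0) (nat_lit 0) (nat_lit 0x5e0000bc00017f5a12fdba1) b29748 (.tok (nat_lit 6) (nat_lit 0x5e0000bc000180000300139) (.hit (nat_lit 1) (nat_lit 7) (nat_lit 0x5e0000bc00017ec652fd515) b29749 (.hit (nat_lit 6) (nat_lit 15) (nat_lit 0x5e0000bc00017e326afbf71) b29752 (.tok (nat_lit 56) (nat_lit 0x5e0000bc000180000300139) (.hit (nat_lit 4) (nat_lit 13) (nat_lit 0x5e0000bc00017f7ee2fe45d) b29750 (.hit (nat_lit 9) (nat_lit 19) (nat_lit 0x5e0000bc00017eb322fdae0) b29754 (.one (nat_lit 6) (nat_lit 5) (nat_lit 14) (nat_lit 0x5e0000bc000180000300139) b29751 (.nil)))) (.one (nat_lit 68) (nat_lit 8) (nat_lit 18) (nat_lit 0x5e0000bc00017edb02fdac8) b29753 (.nil))))) (.tok (nat_lit 52) (nat_lit 0x5e0000bc00017f576afe9e7) (.hit (nat_lit 10) (nat_lit 39) (nat_lit 0x5e0000bc00017eedd2fde3c) b29755 (.hit (nat_lit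 11) (nat_lit 40) (nat_lit 0x5e0000bc00017f576afe9e7) b29756 (.nil))) (.tok (nat_lit 55) (nat_lit 0x5e0000bc00017fe622ffd2a) (.hit (nat_lit 12) (nat_lit 41) (nat_lit 0x5e0000bc00017fc642ff989) b29757 (.one (nat_lit 3) (nat_lit 18) (nat_lit 47) (nat_lit 0x5e0000bc00017f6682fef39) b29763 (.tok (nat_lit 6) (nat_lit 0x5e0000bc00017fe622ffd2a) (.hit (nat_lit 13) (nat_lit 42) (nat_lit 0x5e0000bc00017f09aafe4df) b29758 (.hit (nat_lit 16) (nat_lit 45) (nat_lit 0x5e0000bc00017f695aff0ca) b29761 (.tok (nat_lit 55) (nat_lit 0x5e0000bc00017fe622ffd2a) (.hit (nat_lit 14) (nat_lit 43) (nat_lit 0x5e0000bc00017fb802ffabf) b29759 (.hit (nat_lit 17) (nat_lit 46) (nat_lit 0x5e0000bc00017fe622ffd2a) b29762 (.one (nat_lit 6) (nat_lit 15) (nat_lit 44) (nat_lit 0x5e0000bc00017fbd6afee9e) b29760 (.nil)))) (.nil)))) (.nil)))) (.one (nat_lit 58) (nat_lit 20) (nat_lit 49) (nat_lit 0x5e0000bc00017f68cafeb17)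 b29764 (.nil)))))) (.nil))
noncomputable def r28_131 : Rw Blk := .tok (nat_lit 3) (nat_lit 0x5e0000bc00017eac4afddbf) (.hit (nat_lit 61) (nat_lit 0) (nat_lit 0x5e0000bc00017dcf0afcd10) b29799 (.tok (nat_lit 9) (nat_lit 0x5e0000bc00017dd22afc501) (.hit (nat_lit 62) (nat_lit 20) (nat_lit 0x5e0000bc00017cf792fa9ae) b29800 (.hit (nat_lit 67) (nat_lit 28) (nat_lit 0x5e0000bc00017d130afad1d) b29803 (.one (nat_lit 56) (nat_lit 69) (nat_lit 31) (nat_lit 0x5e0000bc00017dc4bafc353) b29804 (.tok (nat_lit 68) (nat_lit 0x5e0000bc00017dd22afc501) (.hit (nat_lit 65) (nat_lit 26) (nat_lit 0x5e0000bc00017db622fc180) b29801 (.hit (nat_lit 70) (nat_lit 32) (nat_lit 0x5e0000bc00017d9492fbd4e) b29805 (.one (nat_lit 9) (nat_lit 66) (nat_lit 27) (nat_lit 0x5e0000bc00017dd22afc501) b29802 (.nil)))) (.nil))))) (.tok (nat_lit 64) (nat_lit 0x5e0000bc00017de582fc76c) (.hit (nat_lit 71) (nat_lit 50) (nat_lit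 0x5e0000bc00017dabd2fc036) b29806 (.hit (nat_lit 72) (nat_lit 51) (nat_lit 0x5e0000bc00017de582fc76c) b29807 (.nil))) (.tok (nat_lit 67) (nat_lit 0x5e0000bc00017eac4afddbf) (.hit (nat_lit 73) (nat_lit 52) (nat_lit 0x5e0000bc00017e6262fdd6a) b29808 (.one (nat_lit 3) (nat_lit 79) (nat_lit 58) (nat_lit 0x5e0000bc00017e270afcf9d) b29814 (.tok (nat_lit 9) (nat_lit 0x5e0000bc00017eac4afddbf) (.hit (nat_lit 74) (nat_lit 53) (nat_lit 0x5e0000bc00017e71dafdca7) b29809 (.hit (nat_lit 77) (nat_lit 56) (nat_lit 0x5e0000bc00017ddce2fc658) b29812 (.tok (nat_lit 67) (nat_lit 0x5e0000bc00017eac4afddbf) (.hit (nat_lit 75) (nat_lit 54) (nat_lit 0x5e0000bc00017eac4afddbf) b29810 (.hit (nat_lit 78) (nat_lit 57) (nat_lit 0x5e0000bc00017e670afd79d) b29813 (.one (nat_lit 9) (nat_lit 76) (nat_lit 55) (nat_lit 0x5e0000bc00017e6f8afd8ad) b29811 (.nil)))) (.nil)))) (.nil)))) (.one (nat_lit 70) (nat_lit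 81) (nat_lit 60) (nat_lit 0x5e0000bc00017de202fc6fc) b29815 (.nil)))))) (.tok (nat_lit 6) (nat_lit 0x5e0000bc0001800003001fd) (.hit (nat_lit 0) (nat_lit 0) (nat_lit 0x5e0000bc00017e3cc2fd0cd) b29782 (.tok (nat_lit 6) (nat_lit 0x5e0000bc00017e5fb2fdaf7) (.hit (nat_lit 1) (nat_lit 7) (nat_lit 0x5e0000bc00017dde12fc87d) b29783 (.hit (nat_lit 6) (nat_lit 15) (nat_lit 0x5e0000bc00017d734afbb98) b29786 (.tok (nat_lit 56) (nat_lit 0x5e0000bc00017e5fb2fdaf7) (.hit (nat_lit 4) (nat_lit 13) (nat_lit 0x5e0000bc00017e590afd75c) b29784 (.hit (nat_lit 9) (nat_lit 19) (nat_lit 0x5e0000bc00017e57bafc91c) b29788 (.one (nat_lit 6) (nat_lit 5) (nat_lit 14) (nat_lit 0x5e0000bc00017e5fb2fdaf7) b29785 (.nil)))) (.one (nat_lit 68) (nat_lit 8) (nat_lit 18) (nat_lit 0x5e0000bc00017e5a9afc9ed) b29787 (.nil))))) (.tok (nat_lit 52) (nat_lit 0x5e0000bc00017e8cb2fd605) (.hit (nat_lit 10) (nat_lit 39) (nat_lit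 0x5e0000bc00017e0c1afd605) b29789 (.hit (nat_lit 11) (nat_lit 40) (nat_lit 0x5e0000bc00017e8cb2fd4b3) b29790 (.nil))) (.tok (nat_lit 55) (nat_lit 0x5e0000bc0001800003001fd) (.hit (nat_lit 12) (nat_lit 41) (nat_lit 0x5e0000bc00017eb8c2ff56a) b29791 (.one (nat_lit 3) (nat_lit 18) (nat_lit 47) (nat_lit 0x5e0000bc00017e4b52fe27a) b29797 (.tok (nat_lit 6) (nat_lit 0x5e0000bc0001800003001fd) (.hit (nat_lit 13) (nat_lit 42) (nat_lit 0x5e0000bc00017ee3d2fde96) b29792 (.hit (nat_lit 16) (nat_lit 45) (nat_lit 0x5e0000bc00017ec3dafdeb1) b29795 (.tok (nat_lit 55) (nat_lit 0x5e0000bc0001800003001fd) (.hit (nat_lit 14) (nat_lit 43) (nat_lit 0x5e0000bc00017fc793001fd) b29793 (.hit (nat_lit 17) (nat_lit 46) (nat_lit 0x5e0000bc00017ea48afe981) b29796 (.one (nat_lit 6) (nat_lit 15) (nat_lit 44) (nat_lit 0x5e0000bc0001800002ff8a0) b29794 (.nil)))) (.nil)))) (.nil)))) (.one (nat_lit 58) (nat_lit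 20) (nat_lit 49) (nat_lit 0x5e0000bc00017e7f22fddc4) b29798 (.nil)))))) (.nil))
noncomputable def r28_132 : Rw Blk := .tok (nat_lit 3) (nat_lit 0xbc0001780002fdd96) (.hit (nat_lit 61) (nat_lit 0) (nat_lit 0xbc0001780002fd24b) b8970 (.tok (nat_lit 6) (nat_lit 0xbc0001780002fd581) (.hit (nat_lit 62) (nat_lit 7) (nat_lit 0xbc0001780002fbbf9) b8971 (.hit (nat_lit 67) (nat_lit 15) (nat_lit 0xbc0001780002fadd7) b8974 (.tok (nat_lit 56) (nat_lit 0xbc0001780002fd581) (.hit (nat_lit 65) (nat_lit 13) (nat_lit 0xbc0001780002fcd73) b8972 (.hit (nat_lit 70) (nat_lit 19) (nat_lit 0xbc0001780002fbed5) b8976 (.one (nat_lit 6) (nat_lit 66) (nat_lit 14) (nat_lit 0xbc0001780002fd581) b8973 (.nil)))) (.one (nat_lit 68) (nat_lit 69) (nat_lit 18) (nat_lit 0xbc0001780002fc055) b8975 (.nil))))) (.tok (nat_lit 52) (nat_lit 0xbc0001780002fc70f) (.hit (nat_lit 71) (nat_lit 39) (nat_lit 0xbc0001780002fbf8c)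 b8977 (.hit (nat_lit 72) (nat_lit 40) (nat_lit 0xbc0001780002fc70f) b8978 (.nil))) (.tok (nat_lit 55) (nat_lit 0xbc0001780002fdd96) (.hit (nat_lit 73) (nat_lit 41) (nat_lit 0xbc0001780002fdd96) b8979 (.one (nat_lit 3) (nat_lit 79) (nat_lit 47) (nat_lit 0xbc0001780002fd3b5) b8985 (.tok (nat_lit 6) (nat_lit 0xbc0001780002fd8c9) (.hit (nat_lit 74) (nat_lit 42) (nat_lit 0xbc0001780002fc8f3) b8980 (.hit (nat_lit 77) (nat_lit 45) (nat_lit 0xbc0001780002fcc00) b8983 (.tok (nat_lit 55) (nat_lit 0xbc0001780002fd8c9) (.hit (nat_lit 75) (nat_lit 43) (nat_lit 0xbc0001780002fd809) b8981 (.hit (nat_lit 78) (nat_lit 46) (nat_lit 0xbc0001780002fd8c9) b8984 (.one (nat_lit 6) (nat_lit 76) (nat_lit 44) (nat_lit 0xbc0001780002fd3cd) b8982 (.nil)))) (.nil)))) (.nil)))) (.one (nat_lit 58) (nat_lit 81) (nat_lit 49) (nat_lit 0xbc0001780002fc7be) b8986 (.nil)))))) (.tok (nat_lit 9) (nat_lit 0xbc000178000300000)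 (.hit (nat_lit 0) (nat_lit 0) (nat_lit 0xbc0001780002feb42) b8953 (.tok (nat_lit 9) (nat_lit 0xbc000178000300000) (.hit (nat_lit 1) (nat_lit 20) (nat_lit 0xbc0001780002fd8ca) b8954 (.hit (nat_lit 6) (nat_lit 28) (nat_lit 0xbc0001780002fc64d) b8957 (.one (nat_lit 56) (nat_lit 8) (nat_lit 31) (nat_lit 0xbc0001780002fdb60) b8958 (.tok (nat_lit 68) (nat_lit 0xbc000178000300000) (.hit (nat_lit 4) (nat_lit 26) (nat_lit 0xbc0001780002fefdc) b8955 (.hit (nat_lit 9) (nat_lit 32) (nat_lit 0xbc0001780002fd664) b8959 (.one (nat_lit 9) (nat_lit 5) (nat_lit 27) (nat_lit 0xbc000178000300000) b8956 (.nil)))) (.nil))))) (.tok (nat_lit 64) (nat_lit 0xbc0001780002feaed) (.hit (nat_lit 10) (nat_lit 50) (nat_lit 0xbc0001780002fddba) b8960 (.hit (nat_lit 11) (nat_lit 51) (nat_lit 0xbc0001780002feaed) b8961 (.nil))) (.tok (nat_lit 67) (nat_lit 0xbc0001780002ffcc4) (.hit (nat_lit 12) (nat_lit 52) (nat_lit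 0xbc0001780002ff8c8) b8962 (.one (nat_lit 3) (nat_lit 18) (nat_lit 58) (nat_lit 0xbc0001780002fecd0) b8968 (.tok (nat_lit 9) (nat_lit 0xbc0001780002ffcc4) (.hit (nat_lit 13) (nat_lit 53) (nat_lit 0xbc0001780002fe135) b8963 (.hit (nat_lit 16) (nat_lit 56) (nat_lit 0xbc0001780002fed2b) b8966 (.tok (nat_lit 67) (nat_lit 0xbc0001780002ffcc4) (.hit (nat_lit 14) (nat_lit 54) (nat_lit 0xbc0001780002ff700) b8964 (.hit (nat_lit 17) (nat_lit 57) (nat_lit 0xbc0001780002ffcc4) b8967 (.one (nat_lit 9) (nat_lit 15) (nat_lit 55) (nat_lit 0xbc0001780002ff7ad) b8965 (.nil)))) (.nil)))) (.nil)))) (.one (nat_lit 70) (nat_lit 20) (nat_lit 60) (nat_lit 0xbc0001780002fed19) b8969 (.nil)))))) (.nil))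
noncomputable def r28_133 : Rw Blk := .tok (nat_lit 3) (nat_lit 0x5e0000bc00017eac4afe914) (.hit (nat_lit 61) (nat_lit 0) (nat_lit 0x5e0000bc00017dcf0afcf85) b29731 (.tok (nat_lit 6) (nat_lit 0x5e0000bc00017dd22afd056) (.hit (nat_lit 62) (nat_lit 7) (nat_lit 0x5e0000bc00017cf792fb503) b29732 (.hit (nat_lit 67) (nat_lit 15) (nat_lit 0x5e0000bc00017d130afb872) b29735 (.tok (nat_lit 56) (nat_lit 0x5e0000bc00017dd22afd056) (.hit (nat_lit 65) (nat_lit 13) (nat_lit 0x5e0000bc00017db622fccd5) b29733 (.hit (nat_lit 70) (nat_lit 19) (nat_lit 0x5e0000bc00017d9492fc8a3) b29737 (.one (nat_lit 6) (nat_lit 66) (nat_lit 14) (nat_lit 0x5e0000bc00017dd22afd056) b29734 (.nil)))) (.one (nat_lit 68) (nat_lit 69) (nat_lit 18) (nat_lit 0x5e0000bc00017dc4bafcea8) b29736 (.nil))))) (.tok (nat_lit 52) (nat_lit 0x5e0000bc00017de582fd2c1) (.hit (nat_lit 71) (nat_lit 39) (nat_lit 0x5e0000bc00017dabd2fcb8b)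 b29738 (.hit (nat_lit 72) (nat_lit 40) (nat_lit 0x5e0000bc00017de582fd2c1) b29739 (.nil))) (.tok (nat_lit 55) (nat_lit 0x5e0000bc00017eac4afe914) (.hit (nat_lit 73) (nat_lit 41) (nat_lit 0x5e0000bc00017e6262fe2e2) b29740 (.one (nat_lit 3) (nat_lit 79) (nat_lit 47) (nat_lit 0x5e0000bc00017e270afdaf2) b29746 (.tok (nat_lit 6) (nat_lit 0x5e0000bc00017eac4afe914) (.hit (nat_lit 74) (nat_lit 42) (nat_lit 0x5e0000bc00017e71dafe410) b29741 (.hit (nat_lit 77) (nat_lit 45) (nat_lit 0x5e0000bc00017ddce2fd1ad) b29744 (.tok (nat_lit 55) (nat_lit 0x5e0000bc00017eac4afe914) (.hit (nat_lit 75) (nat_lit 43) (nat_lit 0x5e0000bc00017eac4afe914) b29742 (.hit (nat_lit 78) (nat_lit 46) (nat_lit 0x5e0000bc00017e670afe2f2) b29745 (.one (nat_lit 6) (nat_lit 76) (nat_lit 44) (nat_lit 0x5e0000bc00017e6f8afe402) b29743 (.nil)))) (.nil)))) (.nil)))) (.one (nat_lit 58) (nat_lit 81) (nat_lit 49) (nat_lit 0x5e0000bc00017de202fd251)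 b29747 (.nil)))))) (.tok (nat_lit 9) (nat_lit 0x5e0000bc000180000300763) (.hit (nat_lit 0) (nat_lit 0) (nat_lit 0x5e0000bc00017e3cc2fd371) b29714 (.tok (nat_lit 9) (nat_lit 0x5e0000bc00017e5fb2fdd6c) (.hit (nat_lit 1) (nat_lit 20) (nat_lit 0x5e0000bc00017dde12fcacc) b29715 (.hit (nat_lit 6) (nat_lit 28) (nat_lit 0x5e0000bc00017d734afbe0d) b29718 (.one (nat_lit 56) (nat_lit 8) (nat_lit 31) (nat_lit 0x5e0000bc00017e5a9afcf59) b29719 (.tok (nat_lit 68) (nat_lit 0x5e0000bc00017e5fb2fdd6c) (.hit (nat_lit 4) (nat_lit 26) (nat_lit 0x5e0000bc00017e590afd9d1) b29716 (.hit (nat_lit 9) (nat_lit 32) (nat_lit 0x5e0000bc00017e57bafcb91) b29720 (.one (nat_lit 9) (nat_lit 5) (nat_lit 27) (nat_lit 0x5e0000bc00017e5fb2fdd6c) b29717 (.nil)))) (.nil))))) (.tok (nat_lit 64) (nat_lit 0x5e0000bc00017e8cb2fd851) (.hit (nat_lit 10) (nat_lit 50) (nat_lit 0x5e0000bc00017e0c1afd851) b29721 (.hit (nat_lit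 11) (nat_lit 51) (nat_lit 0x5e0000bc00017e8cb2fd728) b29722 (.nil))) (.tok (nat_lit 67) (nat_lit 0x5e0000bc000180000300763) (.hit (nat_lit 12) (nat_lit 52) (nat_lit 0x5e0000bc00017eb8c2ff826) b29723 (.one (nat_lit 3) (nat_lit 18) (nat_lit 58) (nat_lit 0x5e0000bc00017e4b52fe4ef) b29729 (.tok (nat_lit 9) (nat_lit 0x5e0000bc000180000300763) (.hit (nat_lit 13) (nat_lit 53) (nat_lit 0x5e0000bc00017ee3d2fe154) b29724 (.hit (nat_lit 16) (nat_lit 56) (nat_lit 0x5e0000bc00017ec3dafe126) b29727 (.tok (nat_lit 67) (nat_lit 0x5e0000bc000180000300763) (.hit (nat_lit 14) (nat_lit 54) (nat_lit 0x5e0000bc00017fc79300763) b29725 (.hit (nat_lit 17) (nat_lit 57) (nat_lit 0x5e0000bc00017ea48afeced) b29728 (.one (nat_lit 9) (nat_lit 15) (nat_lit 55) (nat_lit 0x5e0000bc000180000300725) b29726 (.nil)))) (.nil)))) (.nil)))) (.one (nat_lit 70) (nat_lit 20) (nat_lit 60) (nat_lit 0x5e0000bc00017e7f22fe034)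 b29730 (.nil)))))) (.nil))
noncomputable def r28_134 : Rw Blk := .tok (nat_lit 3) (nat_lit 0x5fb792bf1a417efe02fdc225faeb6bf50597e9cc2fe08e) (.hit (nat_lit 0) (nat_lit 0) (nat_lit 0x5fb792bf1a417efe02fdc225faeb6bf50597e9cc2fe08e) b36069 (.tok (nat_lit 6) (nat_lit 0x5f9d3abebd357ee94afccc25f75c0bf24f57ddd12fd176) (.hit (nat_lit 1) (nat_lit 7) (nat_lit 0x5f9d3abebd357ee94afccc25f75c0bf24f57ddd12fd176) b29872 (.hit (nat_lit 6) (nat_lit 15) (nat_lit 0x5f985cbeb3797ea92afca535f70e2bf1b397dc99afcf07) b29873 (.nil))) (.tok (nat_lit 9) (nat_lit 0x5f9d3abebd357ee94afccc25f75c0bf24f57ddd12fd176) (.hit (nat_lit 10) (nat_lit 20) (nat_lit 0x5f9d3abebd357ee94afccc25f75c0bf24f57ddd12fd176) b29872 (.hit (nat_lit 15) (nat_lit 28) (nat_lit 0x5f985cbeb3797ea92afca535f70e2bf1b397dc99afcf07) b29873 (.nil))) (.nil)))) (.tok (nat_lit 6) (nat_lit 0x600000c00001800002ffb246018bac000017f774b00000) (.hit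 (nat_lit 81) (nat_lit 0) (nat_lit 0x5fe418bf77a97f5982fec9c5fc258bfb51d7f774aff108) b29883 (.tok (nat_lit 3) (nat_lit 0x5fe434bf51d17f8a2afea945fdd32bf9be57e6232ff18d) (.hit (nat_lit 82) (nat_lit 1) (nat_lit 0x5fae12bee81d7edd92fcf1a5f9700bf2d417d9cc2fd605) b29884 (.one (nat_lit 67) (nat_lit 83) (nat_lit 2) (nat_lit 0x5fe434bf51d17f8a2afea945fdd32bf9be57e6232ff18d) b29885 (.nil))) (.tok (nat_lit 6) (nat_lit 0x600000c00001800002ffb246018bac000017f502300000) (.hit (nat_lit 87) (nat_lit 7) (nat_lit 0x5fd5fcbf61117f474afdcd75fd142bf99857e36a2fe3dd) b29886 (.hit (nat_lit 95) (nat_lit 15) (nat_lit 0x5fb27ebee6857e9eeafd0bb5f98f8bf33c17d5902fd7a6) b29890 (.tok (nat_lit 55) (nat_lit 0x600000c00001800002ffb246018bac000017f502300000) (.hit (nat_lit 88) (nat_lit 8) (nat_lit 0x5ffd88bf9fd17f877aff7f25ffa74c000017ed622ffeb3) b29887 (.hit (nat_lit 96) (nat_lit 16) (nat_lit 0x5fe3aebf58897f79bafec705fcffabfaa717ec85aff395)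 b29891 (.tok (nat_lit 6) (nat_lit 0x600000c00001800002ffb246018babfe73d7f502300000) (.hit (nat_lit 89) (nat_lit 9) (nat_lit 0x5fe812bfbf1d7f9292fedd56000cebfb1ad7ee5aaff314) b29888 (.one (nat_lit 55) (nat_lit 90) (nat_lit 10) (nat_lit 0x600000c00001800002ffb246018babfe73d7f502300000) b29889 (.nil))) (.nil)))) (.nil)))) (.nil)))) (.tok (nat_lit 9) (nat_lit 0x600000c00001800003000005fd326bfde7d800002fffd8) (.hit (nat_lit 157) (nat_lit 0) (nat_lit 0x5fe418bf77a97f5982ff0615fd326bf89a97eed3afefd9) b29874 (.tok (nat_lit 3) (nat_lit 0x5fe434bf51d17f8a2afeedd5f9708bf8a217f56b2ff18d) (.hit (nat_lit 158) (nat_lit 1) (nat_lit 0x5fae12bee81d7edd92fd35b5f65acbf1c397e3deafd605) b29875 (.one (nat_lit 55) (nat_lit 159) (nat_lit 3) (nat_lit 0x5fe434bf51d17f8a2afeedd5f9708bf8a217f56b2ff18d) b29876 (.nil))) (.tok (nat_lit 9) (nat_lit 0x600000c00001800003000005fd284bfde7d800002fffd8) (.hit (nat_lit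 163) (nat_lit 20) (nat_lit 0x5fd5fcbf61117f474afea865f8c24bf532d7f2552fe3dd) b29877 (.hit (nat_lit 171) (nat_lit 28) (nat_lit 0x5fb27ebee6857e9eeafd4fc5f54bcbf22bd7e45cafd7a6) b29881 (.tok (nat_lit 67) (nat_lit 0x600000c00001800003000005fd284bfde7d800002fffd8) (.hit (nat_lit 164) (nat_lit 21) (nat_lit 0x5ffd88bf9fd17f877b000005fb404bfaf6d7faccaffd35) b29878 (.hit (nat_lit 172) (nat_lit 29) (nat_lit 0x5fe3aebf58897f79baff0bc5fb092bf9a997f2172ff394) b29882 (.tok (nat_lit 9) (nat_lit 0x600000c00001800002ffb245fd284bfde7d800002fffd8) (.hit (nat_lit 165) (nat_lit 22) (nat_lit 0x5fe812bfbf1d7f9292ff01c5fb7e6bfa9417faea2ff2e6) b29879 (.one (nat_lit 67) (nat_lit 166) (nat_lit 23) (nat_lit 0x600000c00001800002ffb245fd284bfde7d800002fffd8) b29880 (.nil))) (.nil)))) (.nil)))) (.nil)))) (.nil)))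
noncomputable def r28_135 : Rw Blk := .tok (nat_lit 6) (nat_lit 0xbc000178000300000) (.hit (nat_lit 51) (nat_lit 0) (nat_lit 0xbc0001780002ff743) b8943 (.tok (nat_lit 3) (nat_lit 0xbc0001780002ff720) (.hit (nat_lit 52) (nat_lit 1) (nat_lit 0xbc0001780002fdccb) b8944 (.one (nat_lit 56) (nat_lit 55) (nat_lit 6) (nat_lit 0xbc0001780002ff720) b8945 (.one (nat_lit 68) (nat_lit 54) (nat_lit 5) (nat_lit 0xbc0001780002fef3e) b8946 (.nil)))) (.tok (nat_lit 40) (nat_lit 0xbc0001780002ff5de) (.hit (nat_lit 56) (nat_lit 33) (nat_lit 0xbc0001780002ff5de) b8947 (.hit (nat_lit 57) (nat_lit 34) (nat_lit 0xbc0001780002ff3d8) b8948 (.nil))) (.tok (nat_lit 43) (nat_lit 0xbc000178000300000) (.hit (nat_lit 58) (nat_lit 35) (nat_lit 0xbc000178000300000) b8951 (.hit (nat_lit 59) (nat_lit 36) (nat_lit 0xbc0001780002ff6ae) b8952 (.nil))) (.tok (nat_lit 46) (nat_lit 0xbc0001780002ffbd8) (.hit (nat_lit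 60) (nat_lit 37) (nat_lit 0xbc0001780002fe56f) b8949 (.hit (nat_lit 61) (nat_lit 38) (nat_lit 0xbc0001780002ffbd8) b8950 (.nil))) (.nil)))))) (.tok (nat_lit 9) (nat_lit 0xbc000178000300000) (.hit (nat_lit 0) (nat_lit 0) (nat_lit 0xbc0001780002ff743) b8943 (.tok (nat_lit 3) (nat_lit 0xbc0001780002ff720) (.hit (nat_lit 1) (nat_lit 1) (nat_lit 0xbc0001780002fdccb) b8944 (.one (nat_lit 56) (nat_lit 4) (nat_lit 6) (nat_lit 0xbc0001780002fef3e) b8946 (.one (nat_lit 68) (nat_lit 3) (nat_lit 5) (nat_lit 0xbc0001780002ff720) b8945 (.nil)))) (.tok (nat_lit 40) (nat_lit 0xbc0001780002ff5de) (.hit (nat_lit 5) (nat_lit 33) (nat_lit 0xbc0001780002ff5de) b8947 (.hit (nat_lit 6) (nat_lit 34) (nat_lit 0xbc0001780002ff3d8) b8948 (.nil))) (.tok (nat_lit 43) (nat_lit 0xbc0001780002ffbd8) (.hit (nat_lit 7) (nat_lit 35) (nat_lit 0xbc0001780002fe56f) b8949 (.hit (nat_lit 8) (nat_lit 36) (nat_lit 0xbc0001780002ffbd8)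 b8950 (.nil))) (.tok (nat_lit 46) (nat_lit 0xbc000178000300000) (.hit (nat_lit 9) (nat_lit 37) (nat_lit 0xbc000178000300000) b8951 (.hit (nat_lit 10) (nat_lit 38) (nat_lit 0xbc0001780002ff6ae) b8952 (.nil))) (.nil)))))) (.nil))
noncomputable def r28_136 : Rw Blk := .tok (nat_lit 3) (nat_lit 0xbc0001780002fdd96) (.hit (nat_lit 61) (nat_lit 0) (nat_lit 0xbc0001780002fd24b) b8970 (.tok (nat_lit 9) (nat_lit 0xbc0001780002fd581) (.hit (nat_lit 62) (nat_lit 20) (nat_lit 0xbc0001780002fbbf9) b8971 (.hit (nat_lit 67) (nat_lit 28) (nat_lit 0xbc0001780002fadd7) b8974 (.one (nat_lit 56) (nat_lit 69) (nat_lit 31) (nat_lit 0xbc0001780002fc055) b8975 (.tok (nat_lit 68) (nat_lit 0xbc0001780002fd581) (.hit (nat_lit 65) (nat_lit 26) (nat_lit 0xbc0001780002fcd73) b8972 (.hit (nat_lit 70) (nat_lit 32) (nat_lit 0xbc0001780002fbed5) b8976 (.one (nat_lit 9) (nat_lit 66) (nat_lit 27) (nat_lit 0xbc0001780002fd581)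 b8973 (.nil)))) (.nil))))) (.tok (nat_lit 64) (nat_lit 0xbc0001780002fc70f) (.hit (nat_lit 71) (nat_lit 50) (nat_lit 0xbc0001780002fbf8c) b8977 (.hit (nat_lit 72) (nat_lit 51) (nat_lit 0xbc0001780002fc70f) b8978 (.nil))) (.tok (nat_lit 67) (nat_lit 0xbc0001780002fdd96) (.hit (nat_lit 73) (nat_lit 52) (nat_lit 0xbc0001780002fdd96) b8979 (.one (nat_lit 3) (nat_lit 79) (nat_lit 58) (nat_lit 0xbc0001780002fd3b5) b8985 (.tok (nat_lit 9) (nat_lit 0xbc0001780002fd8c9) (.hit (nat_lit 74) (nat_lit 53) (nat_lit 0xbc0001780002fc8f3) b8980 (.hit (nat_lit 77) (nat_lit 56) (nat_lit 0xbc0001780002fcc00) b8983 (.tok (nat_lit 67) (nat_lit 0xbc0001780002fd8c9) (.hit (nat_lit 75) (nat_lit 54) (nat_lit 0xbc0001780002fd809) b8981 (.hit (nat_lit 78) (nat_lit 57) (nat_lit 0xbc0001780002fd8c9) b8984 (.one (nat_lit 9) (nat_lit 76) (nat_lit 55) (nat_lit 0xbc0001780002fd3cd) b8982 (.nil)))) (.nil)))) (.nil))))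 (.one (nat_lit 70) (nat_lit 81) (nat_lit 60) (nat_lit 0xbc0001780002fc7be) b8986 (.nil)))))) (.tok (nat_lit 6) (nat_lit 0xbc000178000300000) (.hit (nat_lit 0) (nat_lit 0) (nat_lit 0xbc0001780002feb42) b8953 (.tok (nat_lit 6) (nat_lit 0xbc000178000300000) (.hit (nat_lit 1) (nat_lit 7) (nat_lit 0xbc0001780002fd8ca) b8954 (.hit (nat_lit 6) (nat_lit 15) (nat_lit 0xbc0001780002fc64d) b8957 (.tok (nat_lit 56) (nat_lit 0xbc000178000300000) (.hit (nat_lit 4) (nat_lit 13) (nat_lit 0xbc0001780002fefdc) b8955 (.hit (nat_lit 9) (nat_lit 19) (nat_lit 0xbc0001780002fd664) b8959 (.one (nat_lit 6) (nat_lit 5) (nat_lit 14) (nat_lit 0xbc000178000300000) b8956 (.nil)))) (.one (nat_lit 68) (nat_lit 8) (nat_lit 18) (nat_lit 0xbc0001780002fdb60) b8958 (.nil))))) (.tok (nat_lit 52) (nat_lit 0xbc0001780002feaed) (.hit (nat_lit 10) (nat_lit 39) (nat_lit 0xbc0001780002fddba) b8960 (.hit (nat_lit 11) (nat_lit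 40) (nat_lit 0xbc0001780002feaed) b8961 (.nil))) (.tok (nat_lit 55) (nat_lit 0xbc0001780002ffcc4) (.hit (nat_lit 12) (nat_lit 41) (nat_lit 0xbc0001780002ff8c8) b8962 (.one (nat_lit 3) (nat_lit 18) (nat_lit 47) (nat_lit 0xbc0001780002fecd0) b8968 (.tok (nat_lit 6) (nat_lit 0xbc0001780002ffcc4) (.hit (nat_lit 13) (nat_lit 42) (nat_lit 0xbc0001780002fe135) b8963 (.hit (nat_lit 16) (nat_lit 45) (nat_lit 0xbc0001780002fed2b) b8966 (.tok (nat_lit 55) (nat_lit 0xbc0001780002ffcc4) (.hit (nat_lit 14) (nat_lit 43) (nat_lit 0xbc0001780002ff700) b8964 (.hit (nat_lit 17) (nat_lit 46) (nat_lit 0xbc0001780002ffcc4) b8967 (.one (nat_lit 6) (nat_lit 15) (nat_lit 44) (nat_lit 0xbc0001780002ff7ad) b8965 (.nil)))) (.nil)))) (.nil)))) (.one (nat_lit 58) (nat_lit 20) (nat_lit 49) (nat_lit 0xbc0001780002fed19) b8969 (.nil)))))) (.nil))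
noncomputable def r28_137 : Rw Blk := .tok (nat_lit 3) (nat_lit 0xbc0001780002fe71e) (.hit (nat_lit 61) (nat_lit 0) (nat_lit 0xbc0001780002fcb76) b29943 (.tok (nat_lit 9) (nat_lit 0xbc0001780002fcbda) (.hit (nat_lit 62) (nat_lit 20) (nat_lit 0xbc0001780002fb087) b29944 (.hit (nat_lit 67) (nat_lit 28) (nat_lit 0xbc0001780002fb3f6) b29947 (.one (nat_lit 56) (nat_lit 69) (nat_lit 31) (nat_lit 0xbc0001780002fca2c) b29948 (.tok (nat_lit 68) (nat_lit 0xbc0001780002fcbda) (.hit (nat_lit 65) (nat_lit 26) (nat_lit 0xbc0001780002fc859) b29945 (.hit (nat_lit 70) (nat_lit 32) (nat_lit 0xbc0001780002fc427) b29949 (.one (nat_lit 9) (nat_lit 66) (nat_lit 27) (nat_lit 0xbc0001780002fcbda) b29946 (.nil)))) (.nil))))) (.tok (nat_lit 64) (nat_lit 0xbc0001780002fce45) (.hit (nat_lit 71) (nat_lit 50) (nat_lit 0xbc0001780002fc70f) b29950 (.hit (nat_lit 72) (nat_lit 51) (nat_lit 0xbc0001780002fce45)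 b29951 (.nil))) (.tok (nat_lit 67) (nat_lit 0xbc0001780002fe71e) (.hit (nat_lit 73) (nat_lit 52) (nat_lit 0xbc0001780002fdde1) b29952 (.one (nat_lit 3) (nat_lit 79) (nat_lit 58) (nat_lit 0xbc0001780002fd676) b29958 (.tok (nat_lit 9) (nat_lit 0xbc0001780002fe71e) (.hit (nat_lit 74) (nat_lit 53) (nat_lit 0xbc0001780002fdfd0) b29953 (.hit (nat_lit 77) (nat_lit 56) (nat_lit 0xbc0001780002fcd31) b29956 (.tok (nat_lit 67) (nat_lit 0xbc0001780002fe71e) (.hit (nat_lit 75) (nat_lit 54) (nat_lit 0xbc0001780002fe71e) b29954 (.hit (nat_lit 78) (nat_lit 57) (nat_lit 0xbc0001780002fde76) b29957 (.one (nat_lit 9) (nat_lit 76) (nat_lit 55) (nat_lit 0xbc0001780002fdf86) b29955 (.nil)))) (.nil)))) (.nil)))) (.one (nat_lit 70) (nat_lit 81) (nat_lit 60) (nat_lit 0xbc0001780002fcdd5) b29959 (.nil)))))) (.tok (nat_lit 6) (nat_lit 0xbc000178000301195) (.hit (nat_lit 0) (nat_lit 0) (nat_lit 0xbc0001780002fd92d)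 b29926 (.tok (nat_lit 6) (nat_lit 0xbc0001780002fdd8b) (.hit (nat_lit 1) (nat_lit 7) (nat_lit 0xbc0001780002fcd57) b29927 (.hit (nat_lit 6) (nat_lit 15) (nat_lit 0xbc0001780002fbffe) b29930 (.tok (nat_lit 56) (nat_lit 0xbc0001780002fdd8b) (.hit (nat_lit 4) (nat_lit 13) (nat_lit 0xbc0001780002fdcb6) b29928 (.hit (nat_lit 9) (nat_lit 19) (nat_lit 0xbc0001780002fdc8c) b29932 (.one (nat_lit 6) (nat_lit 5) (nat_lit 14) (nat_lit 0xbc0001780002fdd8b) b29929 (.nil)))) (.one (nat_lit 68) (nat_lit 8) (nat_lit 18) (nat_lit 0xbc0001780002fdce8) b29931 (.nil))))) (.tok (nat_lit 52) (nat_lit 0xbc0001780002fe32b) (.hit (nat_lit 10) (nat_lit 39) (nat_lit 0xbc0001780002fd318) b29933 (.hit (nat_lit 11) (nat_lit 40) (nat_lit 0xbc0001780002fe32b) b29934 (.nil))) (.tok (nat_lit 55) (nat_lit 0xbc000178000301195) (.hit (nat_lit 12) (nat_lit 41) (nat_lit 0xbc0001780002fe8ad) b29935 (.one (nat_lit 3)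 (nat_lit 18) (nat_lit 47) (nat_lit 0xbc0001780002fdaff) b29941 (.tok (nat_lit 6) (nat_lit 0xbc000178000301195) (.hit (nat_lit 13) (nat_lit 42) (nat_lit 0xbc0001780002fee0f) b29936 (.hit (nat_lit 16) (nat_lit 45) (nat_lit 0xbc0001780002fea10) b29939 (.tok (nat_lit 55) (nat_lit 0xbc000178000301195) (.hit (nat_lit 14) (nat_lit 43) (nat_lit 0xbc000178000300a87) b29937 (.hit (nat_lit 17) (nat_lit 46) (nat_lit 0xbc0001780002fe626) b29940 (.one (nat_lit 6) (nat_lit 15) (nat_lit 44) (nat_lit 0xbc000178000301195) b29938 (.nil)))) (.nil)))) (.nil)))) (.one (nat_lit 58) (nat_lit 20) (nat_lit 49) (nat_lit 0xbc0001780002fe179) b29942 (.nil)))))) (.nil))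
noncomputable def r28_138 : Rw Blk := .tok (nat_lit 3) (nat_lit 0xbc0001780002fdd96) (.hit (nat_lit 61) (nat_lit 0) (nat_lit 0xbc0001780002fd24b) b8970 (.tok (nat_lit 6) (nat_lit 0xbc0001780002fd581) (.hit (nat_lit 62) (nat_lit 7) (nat_lit 0xbc0001780002fbbf9) b8971 (.hit (nat_lit 67) (nat_lit 15) (nat_lit 0xbc0001780002fadd7) b8974 (.tok (nat_lit 56) (nat_lit 0xbc0001780002fd581) (.hit (nat_lit 65) (nat_lit 13) (nat_lit 0xbc0001780002fcd73) b8972 (.hit (nat_lit 70) (nat_lit 19) (nat_lit 0xbc0001780002fbed5) b8976 (.one (nat_lit 6) (nat_lit 66) (nat_lit 14) (nat_lit 0xbc0001780002fd581) b8973 (.nil)))) (.one (nat_lit 68) (nat_lit 69) (nat_lit 18) (nat_lit 0xbc0001780002fc055) b8975 (.nil))))) (.tok (nat_lit 52) (nat_lit 0xbc0001780002fc70f) (.hit (nat_lit 71) (nat_lit 39) (nat_lit 0xbc0001780002fbf8c) b8977 (.hit (nat_lit 72) (nat_lit 40) (nat_lit 0xbc0001780002fc70f) b8978 (.nil)))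 (.tok (nat_lit 55) (nat_lit 0xbc0001780002fdd96) (.hit (nat_lit 73) (nat_lit 41) (nat_lit 0xbc0001780002fdd96) b8979 (.one (nat_lit 3) (nat_lit 79) (nat_lit 47) (nat_lit 0xbc0001780002fd3b5) b8985 (.tok (nat_lit 6) (nat_lit 0xbc0001780002fd8c9) (.hit (nat_lit 74) (nat_lit 42) (nat_lit 0xbc0001780002fc8f3) b8980 (.hit (nat_lit 77) (nat_lit 45) (nat_lit 0xbc0001780002fcc00) b8983 (.tok (nat_lit 55) (nat_lit 0xbc0001780002fd8c9) (.hit (nat_lit 75) (nat_lit 43) (nat_lit 0xbc0001780002fd809) b8981 (.hit (nat_lit 78) (nat_lit 46) (nat_lit 0xbc0001780002fd8c9) b8984 (.one (nat_lit 6) (nat_lit 76) (nat_lit 44) (nat_lit 0xbc0001780002fd3cd) b8982 (.nil)))) (.nil)))) (.nil)))) (.one (nat_lit 58) (nat_lit 81) (nat_lit 49) (nat_lit 0xbc0001780002fc7be) b8986 (.nil)))))) (.tok (nat_lit 9) (nat_lit 0xbc000178000300000) (.hit (nat_lit 0) (nat_lit 0) (nat_lit 0xbc0001780002feb42) b8953 (.tok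 (nat_lit 9) (nat_lit 0xbc000178000300000) (.hit (nat_lit 1) (nat_lit 20) (nat_lit 0xbc0001780002fd8ca) b8954 (.hit (nat_lit 6) (nat_lit 28) (nat_lit 0xbc0001780002fc64d) b8957 (.one (nat_lit 56) (nat_lit 8) (nat_lit 31) (nat_lit 0xbc0001780002fdb60) b8958 (.tok (nat_lit 68) (nat_lit 0xbc000178000300000) (.hit (nat_lit 4) (nat_lit 26) (nat_lit 0xbc0001780002fefdc) b8955 (.hit (nat_lit 9) (nat_lit 32) (nat_lit 0xbc0001780002fd664) b8959 (.one (nat_lit 9) (nat_lit 5) (nat_lit 27) (nat_lit 0xbc000178000300000) b8956 (.nil)))) (.nil))))) (.tok (nat_lit 64) (nat_lit 0xbc0001780002feaed) (.hit (nat_lit 10) (nat_lit 50) (nat_lit 0xbc0001780002fddba) b8960 (.hit (nat_lit 11) (nat_lit 51) (nat_lit 0xbc0001780002feaed) b8961 (.nil))) (.tok (nat_lit 67) (nat_lit 0xbc0001780002ffcc4) (.hit (nat_lit 12) (nat_lit 52) (nat_lit 0xbc0001780002ff8c8) b8962 (.one (nat_lit 3) (nat_lit 18) (nat_lit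 58) (nat_lit 0xbc0001780002fecd0) b8968 (.tok (nat_lit 9) (nat_lit 0xbc0001780002ffcc4) (.hit (nat_lit 13) (nat_lit 53) (nat_lit 0xbc0001780002fe135) b8963 (.hit (nat_lit 16) (nat_lit 56) (nat_lit 0xbc0001780002fed2b) b8966 (.tok (nat_lit 67) (nat_lit 0xbc0001780002ffcc4) (.hit (nat_lit 14) (nat_lit 54) (nat_lit 0xbc0001780002ff700) b8964 (.hit (nat_lit 17) (nat_lit 57) (nat_lit 0xbc0001780002ffcc4) b8967 (.one (nat_lit 9) (nat_lit 15) (nat_lit 55) (nat_lit 0xbc0001780002ff7ad) b8965 (.nil)))) (.nil)))) (.nil)))) (.one (nat_lit 70) (nat_lit 20) (nat_lit 60) (nat_lit 0xbc0001780002fed19) b8969 (.nil)))))) (.nil))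
noncomputable def r28_139 : Rw Blk := .tok (nat_lit 3) (nat_lit 0xbc0001780002fd71f) (.hit (nat_lit 61) (nat_lit 0) (nat_lit 0xbc0001780002fbb77) b29909 (.tok (nat_lit 6) (nat_lit 0xbc0001780002fbbdb) (.hit (nat_lit 62) (nat_lit 7) (nat_lit 0xbc0001780002fa088) b29910 (.hit (nat_lit 67) (nat_lit 15) (nat_lit 0xbc0001780002fa3f7) b29913 (.tok (nat_lit 56) (nat_lit 0xbc0001780002fbbdb) (.hit (nat_lit 65) (nat_lit 13) (nat_lit 0xbc0001780002fb85a) b29911 (.hit (nat_lit 70) (nat_lit 19) (nat_lit 0xbc0001780002fb428) b29915 (.one (nat_lit 6) (nat_lit 66) (nat_lit 14) (nat_lit 0xbc0001780002fbbdb) b29912 (.nil)))) (.one (nat_lit 68) (nat_lit 69) (nat_lit 18) (nat_lit 0xbc0001780002fba2d) b29914 (.nil))))) (.tok (nat_lit 52) (nat_lit 0xbc0001780002fbe46) (.hit (nat_lit 71) (nat_lit 39) (nat_lit 0xbc0001780002fb710) b29916 (.hit (nat_lit 72) (nat_lit 40) (nat_lit 0xbc0001780002fbe46)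 b29917 (.nil))) (.tok (nat_lit 55) (nat_lit 0xbc0001780002fd71f) (.hit (nat_lit 73) (nat_lit 41) (nat_lit 0xbc0001780002fcde2) b29918 (.one (nat_lit 3) (nat_lit 79) (nat_lit 47) (nat_lit 0xbc0001780002fc677) b29924 (.tok (nat_lit 6) (nat_lit 0xbc0001780002fd71f) (.hit (nat_lit 74) (nat_lit 42) (nat_lit 0xbc0001780002fcfd1) b29919 (.hit (nat_lit 77) (nat_lit 45) (nat_lit 0xbc0001780002fbd32) b29922 (.tok (nat_lit 55) (nat_lit 0xbc0001780002fd71f) (.hit (nat_lit 75) (nat_lit 43) (nat_lit 0xbc0001780002fd71f) b29920 (.hit (nat_lit 78) (nat_lit 46) (nat_lit 0xbc0001780002fce77) b29923 (.one (nat_lit 6) (nat_lit 76) (nat_lit 44) (nat_lit 0xbc0001780002fcf87) b29921 (.nil)))) (.nil)))) (.nil)))) (.one (nat_lit 58) (nat_lit 81) (nat_lit 49) (nat_lit 0xbc0001780002fbdd6) b29925 (.nil)))))) (.tok (nat_lit 9) (nat_lit 0xbc000178000300196) (.hit (nat_lit 0) (nat_lit 0) (nat_lit 0xbc0001780002fc92e)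 b29892 (.tok (nat_lit 9) (nat_lit 0xbc0001780002fcd8c) (.hit (nat_lit 1) (nat_lit 20) (nat_lit 0xbc0001780002fbd58) b29893 (.hit (nat_lit 6) (nat_lit 28) (nat_lit 0xbc0001780002fafff) b29896 (.one (nat_lit 56) (nat_lit 8) (nat_lit 31) (nat_lit 0xbc0001780002fcce9) b29897 (.tok (nat_lit 68) (nat_lit 0xbc0001780002fcd8c) (.hit (nat_lit 4) (nat_lit 26) (nat_lit 0xbc0001780002fccb7) b29894 (.hit (nat_lit 9) (nat_lit 32) (nat_lit 0xbc0001780002fcc8d) b29898 (.one (nat_lit 9) (nat_lit 5) (nat_lit 27) (nat_lit 0xbc0001780002fcd8c) b29895 (.nil)))) (.nil))))) (.tok (nat_lit 64) (nat_lit 0xbc0001780002fd32c) (.hit (nat_lit 10) (nat_lit 50) (nat_lit 0xbc0001780002fc319) b29899 (.hit (nat_lit 11) (nat_lit 51) (nat_lit 0xbc0001780002fd32c) b29900 (.nil))) (.tok (nat_lit 67) (nat_lit 0xbc000178000300196) (.hit (nat_lit 12) (nat_lit 52) (nat_lit 0xbc0001780002fd8ae) b29901 (.one (nat_lit 3)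 (nat_lit 18) (nat_lit 58) (nat_lit 0xbc0001780002fcb00) b29907 (.tok (nat_lit 9) (nat_lit 0xbc000178000300196) (.hit (nat_lit 13) (nat_lit 53) (nat_lit 0xbc0001780002fde10) b29902 (.hit (nat_lit 16) (nat_lit 56) (nat_lit 0xbc0001780002fda11) b29905 (.tok (nat_lit 67) (nat_lit 0xbc000178000300196) (.hit (nat_lit 14) (nat_lit 54) (nat_lit 0xbc0001780002ffa88) b29903 (.hit (nat_lit 17) (nat_lit 57) (nat_lit 0xbc0001780002fd627) b29906 (.one (nat_lit 9) (nat_lit 15) (nat_lit 55) (nat_lit 0xbc000178000300196) b29904 (.nil)))) (.nil)))) (.nil)))) (.one (nat_lit 70) (nat_lit 20) (nat_lit 60) (nat_lit 0xbc0001780002fd17a) b29908 (.nil)))))) (.nil))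
noncomputable def r28_140 : Rw Blk := .tok (nat_lit 3) (nat_lit 0x17ede4afc6905fbf80bf6ed17ef71afdedd) (.hit (nat_lit 0) (nat_lit 0) (nat_lit 0x17ede4afc6905fbf80bf6ed17ef71afdedd) b36070 (.tok (nat_lit 6) (nat_lit 0x17e74eafaf4d5fba52bf39ad7e8cf2fd19e) (.hit (nat_lit 1) (nat_lit 7) (nat_lit 0x17e74eafaf4d5fba52bf39ad7e8cf2fd19e) b29817 (.hit (nat_lit 6) (nat_lit 15) (nat_lit 0x17e6172facde5faa4abf2ff17e797afcf2f) b29818 (.nil))) (.tok (nat_lit 9) (nat_lit 0x17e74eafaf4d5fba52bf39ad7e8cf2fd19e) (.hit (nat_lit 10) (nat_lit 20) (nat_lit 0x17e74eafaf4d5fba52bf39ad7e8cf2fd19e) b29817 (.hit (nat_lit 15) (nat_lit 28) (nat_lit 0x17e6172facde5faa4abf2ff17e797afcf2f) b29818 (.nil))) (.nil)))) (.tok (nat_lit 6) (nat_lit 0x180000300000600000bff33580000300000) (.hit (nat_lit 81) (nat_lit 0) (nat_lit 0x17f9062fddea5fd660bfb0217f7ec2fef44) b29828 (.tok (nat_lit 3) (nat_lit 0x17f90d2fd4745fe28abfa82d7f8beafefd7)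 (.hit (nat_lit 82) (nat_lit 1) (nat_lit 0x17eb84afba075fb764bf3a417eb01afd440) b29829 (.one (nat_lit 67) (nat_lit 83) (nat_lit 2) (nat_lit 0x17f90d2fd4745fe28abfa82d7f8beafefd7) b29830 (.nil))) (.tok (nat_lit 6) (nat_lit 0x180000300000600000bff33580000300000) (.hit (nat_lit 87) (nat_lit 7) (nat_lit 0x17f57f2fd8445fd1d2bf71317f268afe219) b29831 (.hit (nat_lit 95) (nat_lit 15) (nat_lit 0x17ec9fafb9a15fa7babf40c17ebd22fd5e1) b29835 (.tok (nat_lit 55) (nat_lit 0x180000300000600000bff33580000300000) (.hit (nat_lit 88) (nat_lit 8) (nat_lit 0x17ff622fe7f45fe1debfdd9d7fff32ffcef) b29832 (.hit (nat_lit 96) (nat_lit 16) (nat_lit 0x17f8ebafd6225fde6ebfaf957f9acaff1ab) b29836 (.tok (nat_lit 6) (nat_lit 0x180000300000600000bff33580000300000) (.hit (nat_lit 89) (nat_lit 9) (nat_lit 0x17fa04afefc75fe4a4bfbdf97f981aff2b1) b29833 (.one (nat_lit 55) (nat_lit 90) (nat_lit 10) (nat_lit 0x180000300000600000bff33580000300000)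 b29834 (.nil))) (.nil)))) (.nil)))) (.nil)))) (.tok (nat_lit 9) (nat_lit 0x180000300000600000c0000180000300000) (.hit (nat_lit 157) (nat_lit 0) (nat_lit 0x17f9062fddea5fd660bfb2957f7a22fef44) b29819 (.tok (nat_lit 3) (nat_lit 0x17f90d2fd4745fe28abfb9297f69e2fefd8) (.hit (nat_lit 158) (nat_lit 1) (nat_lit 0x17eb84afba075fb764bf4b417e8e12fd440) b29820 (.one (nat_lit 55) (nat_lit 159) (nat_lit 3) (nat_lit 0x17f90d2fd4745fe28abfb9297f69e2fefd8) b29821 (.nil))) (.tok (nat_lit 9) (nat_lit 0x180000300000600000c0000180000300000) (.hit (nat_lit 163) (nat_lit 20) (nat_lit 0x17f57f2fd8445fd1d2bf93057efbfafe219) b29822 (.hit (nat_lit 171) (nat_lit 28) (nat_lit 0x17ec9fafb9a15fa7babf51c57e9b1afd5e1) b29826 (.tok (nat_lit 67) (nat_lit 0x180000300000600000c0000180000300000) (.hit (nat_lit 164) (nat_lit 21) (nat_lit 0x17ff622fe7f45fe1dec000017fd4d2ffcef) b29823 (.hit (nat_lit 172) (nat_lit 29)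 (nat_lit 0x17f8ebafd6225fde6ebfc0997f78c2ff1ac) b29827 (.tok (nat_lit 9) (nat_lit 0x180000300000600000bff33580000300000) (.hit (nat_lit 165) (nat_lit 22) (nat_lit 0x17fa04afefc75fe4a4bfbdf97f958aff2b1) b29824 (.one (nat_lit 67) (nat_lit 166) (nat_lit 23) (nat_lit 0x180000300000600000bff33580000300000) b29825 (.nil))) (.nil)))) (.nil)))) (.nil)))) (.nil)))
noncomputable def r28_141 : Rw Blk := .tok (nat_lit 6) (nat_lit 0xbc000178000300000) (.hit (nat_lit 51) (nat_lit 0) (nat_lit 0xbc0001780002ff743) b8943 (.tok (nat_lit 3) (nat_lit 0xbc0001780002ff720) (.hit (nat_lit 52) (nat_lit 1) (nat_lit 0xbc0001780002fdccb) b8944 (.one (nat_lit 56) (nat_lit 55) (nat_lit 6) (nat_lit 0xbc0001780002ff720) b8945 (.one (nat_lit 68) (nat_lit 54) (nat_lit 5) (nat_lit 0xbc0001780002fef3e) b8946 (.nil)))) (.tok (nat_lit 40) (nat_lit 0xbc0001780002ff5de) (.hit (nat_lit 56) (nat_lit 33) (nat_lit 0xbc0001780002ff5de)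 b8947 (.hit (nat_lit 57) (nat_lit 34) (nat_lit 0xbc0001780002ff3d8) b8948 (.nil))) (.tok (nat_lit 43) (nat_lit 0xbc000178000300000) (.hit (nat_lit 58) (nat_lit 35) (nat_lit 0xbc000178000300000) b8951 (.hit (nat_lit 59) (nat_lit 36) (nat_lit 0xbc0001780002ff6ae) b8952 (.nil))) (.tok (nat_lit 46) (nat_lit 0xbc0001780002ffbd8) (.hit (nat_lit 60) (nat_lit 37) (nat_lit 0xbc0001780002fe56f) b8949 (.hit (nat_lit 61) (nat_lit 38) (nat_lit 0xbc0001780002ffbd8) b8950 (.nil))) (.nil)))))) (.tok (nat_lit 9) (nat_lit 0xbc000178000300000) (.hit (nat_lit 0) (nat_lit 0) (nat_lit 0xbc0001780002ff743) b8943 (.tok (nat_lit 3) (nat_lit 0xbc0001780002ff720) (.hit (nat_lit 1) (nat_lit 1) (nat_lit 0xbc0001780002fdccb) b8944 (.one (nat_lit 56) (nat_lit 4) (nat_lit 6) (nat_lit 0xbc0001780002fef3e) b8946 (.one (nat_lit 68) (nat_lit 3) (nat_lit 5) (nat_lit 0xbc0001780002ff720) b8945 (.nil)))) (.tok (nat_lit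 40) (nat_lit 0xbc0001780002ff5de) (.hit (nat_lit 5) (nat_lit 33) (nat_lit 0xbc0001780002ff5de) b8947 (.hit (nat_lit 6) (nat_lit 34) (nat_lit 0xbc0001780002ff3d8) b8948 (.nil))) (.tok (nat_lit 43) (nat_lit 0xbc0001780002ffbd8) (.hit (nat_lit 7) (nat_lit 35) (nat_lit 0xbc0001780002fe56f) b8949 (.hit (nat_lit 8) (nat_lit 36) (nat_lit 0xbc0001780002ffbd8) b8950 (.nil))) (.tok (nat_lit 46) (nat_lit 0xbc000178000300000) (.hit (nat_lit 9) (nat_lit 37) (nat_lit 0xbc000178000300000) b8951 (.hit (nat_lit 10) (nat_lit 38) (nat_lit 0xbc0001780002ff6ae) b8952 (.nil))) (.nil)))))) (.nil))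
noncomputable def r28_142 : Rw Blk := .tok (nat_lit 3) (nat_lit 0xbc0001780002fdd96) (.hit (nat_lit 61) (nat_lit 0) (nat_lit 0xbc0001780002fd24b) b8970 (.tok (nat_lit 9) (nat_lit 0xbc0001780002fd581) (.hit (nat_lit 62) (nat_lit 20) (nat_lit 0xbc0001780002fbbf9) b8971 (.hit (nat_lit 67) (nat_lit 28) (nat_lit 0xbc0001780002fadd7) b8974 (.one (nat_lit 56) (nat_lit 69) (nat_lit 31) (nat_lit 0xbc0001780002fc055) b8975 (.tok (nat_lit 68) (nat_lit 0xbc0001780002fd581) (.hit (nat_lit 65) (nat_lit 26) (nat_lit 0xbc0001780002fcd73) b8972 (.hit (nat_lit 70) (nat_lit 32) (nat_lit 0xbc0001780002fbed5) b8976 (.one (nat_lit 9) (nat_lit 66) (nat_lit 27) (nat_lit 0xbc0001780002fd581) b8973 (.nil)))) (.nil))))) (.tok (nat_lit 64) (nat_lit 0xbc0001780002fc70f) (.hit (nat_lit 71) (nat_lit 50) (nat_lit 0xbc0001780002fbf8c) b8977 (.hit (nat_lit 72) (nat_lit 51) (nat_lit 0xbc0001780002fc70f) b8978 (.nil)))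 (.tok (nat_lit 67) (nat_lit 0xbc0001780002fdd96) (.hit (nat_lit 73) (nat_lit 52) (nat_lit 0xbc0001780002fdd96) b8979 (.one (nat_lit 3) (nat_lit 79) (nat_lit 58) (nat_lit 0xbc0001780002fd3b5) b8985 (.tok (nat_lit 9) (nat_lit 0xbc0001780002fd8c9) (.hit (nat_lit 74) (nat_lit 53) (nat_lit 0xbc0001780002fc8f3) b8980 (.hit (nat_lit 77) (nat_lit 56) (nat_lit 0xbc0001780002fcc00) b8983 (.tok (nat_lit 67) (nat_lit 0xbc0001780002fd8c9) (.hit (nat_lit 75) (nat_lit 54) (nat_lit 0xbc0001780002fd809) b8981 (.hit (nat_lit 78) (nat_lit 57) (nat_lit 0xbc0001780002fd8c9) b8984 (.one (nat_lit 9) (nat_lit 76) (nat_lit 55) (nat_lit 0xbc0001780002fd3cd) b8982 (.nil)))) (.nil)))) (.nil)))) (.one (nat_lit 70) (nat_lit 81) (nat_lit 60) (nat_lit 0xbc0001780002fc7be) b8986 (.nil)))))) (.tok (nat_lit 6) (nat_lit 0xbc000178000300000) (.hit (nat_lit 0) (nat_lit 0) (nat_lit 0xbc0001780002feb42) b8953 (.tok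 (nat_lit 6) (nat_lit 0xbc000178000300000) (.hit (nat_lit 1) (nat_lit 7) (nat_lit 0xbc0001780002fd8ca) b8954 (.hit (nat_lit 6) (nat_lit 15) (nat_lit 0xbc0001780002fc64d) b8957 (.tok (nat_lit 56) (nat_lit 0xbc000178000300000) (.hit (nat_lit 4) (nat_lit 13) (nat_lit 0xbc0001780002fefdc) b8955 (.hit (nat_lit 9) (nat_lit 19) (nat_lit 0xbc0001780002fd664) b8959 (.one (nat_lit 6) (nat_lit 5) (nat_lit 14) (nat_lit 0xbc000178000300000) b8956 (.nil)))) (.one (nat_lit 68) (nat_lit 8) (nat_lit 18) (nat_lit 0xbc0001780002fdb60) b8958 (.nil))))) (.tok (nat_lit 52) (nat_lit 0xbc0001780002feaed) (.hit (nat_lit 10) (nat_lit 39) (nat_lit 0xbc0001780002fddba) b8960 (.hit (nat_lit 11) (nat_lit 40) (nat_lit 0xbc0001780002feaed) b8961 (.nil))) (.tok (nat_lit 55) (nat_lit 0xbc0001780002ffcc4) (.hit (nat_lit 12) (nat_lit 41) (nat_lit 0xbc0001780002ff8c8) b8962 (.one (nat_lit 3) (nat_lit 18) (nat_lit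 47) (nat_lit 0xbc0001780002fecd0) b8968 (.tok (nat_lit 6) (nat_lit 0xbc0001780002ffcc4) (.hit (nat_lit 13) (nat_lit 42) (nat_lit 0xbc0001780002fe135) b8963 (.hit (nat_lit 16) (nat_lit 45) (nat_lit 0xbc0001780002fed2b) b8966 (.tok (nat_lit 55) (nat_lit 0xbc0001780002ffcc4) (.hit (nat_lit 14) (nat_lit 43) (nat_lit 0xbc0001780002ff700) b8964 (.hit (nat_lit 17) (nat_lit 46) (nat_lit 0xbc0001780002ffcc4) b8967 (.one (nat_lit 6) (nat_lit 15) (nat_lit 44) (nat_lit 0xbc0001780002ff7ad) b8965 (.nil)))) (.nil)))) (.nil)))) (.one (nat_lit 58) (nat_lit 20) (nat_lit 49) (nat_lit 0xbc0001780002fed19) b8969 (.nil)))))) (.nil))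
noncomputable def r28_143 : Rw Blk := .tok (nat_lit 3) (nat_lit 0xbc0001780002fd589) (.hit (nat_lit 61) (nat_lit 0) (nat_lit 0xbc0001780002fb9e1) b9059 (.tok (nat_lit 9) (nat_lit 0xbc0001780002fba45) (.hit (nat_lit 62) (nat_lit 20) (nat_lit 0xbc0001780002f9ef2) b9060 (.hit (nat_lit 67) (nat_lit 28) (nat_lit 0xbc0001780002fa261) b9063 (.one (nat_lit 56) (nat_lit 69) (nat_lit 31) (nat_lit 0xbc0001780002fb897) b9064 (.tok (nat_lit 68) (nat_lit 0xbc0001780002fba45) (.hit (nat_lit 65) (nat_lit 26) (nat_lit 0xbc0001780002fb6c4) b9061 (.hit (nat_lit 70) (nat_lit 32) (nat_lit 0xbc0001780002fb292) b9065 (.one (nat_lit 9) (nat_lit 66) (nat_lit 27) (nat_lit 0xbc0001780002fba45) b9062 (.nil)))) (.nil))))) (.tok (nat_lit 64) (nat_lit 0xbc0001780002fbcb0) (.hit (nat_lit 71) (nat_lit 50) (nat_lit 0xbc0001780002fb57a) b9066 (.hit (nat_lit 72) (nat_lit 51) (nat_lit 0xbc0001780002fbcb0) b9067 (.nil)))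 (.tok (nat_lit 67) (nat_lit 0xbc0001780002fd589) (.hit (nat_lit 73) (nat_lit 52) (nat_lit 0xbc0001780002fcc4c) b9068 (.one (nat_lit 3) (nat_lit 79) (nat_lit 58) (nat_lit 0xbc0001780002fc4e1) b9074 (.tok (nat_lit 9) (nat_lit 0xbc0001780002fd589) (.hit (nat_lit 74) (nat_lit 53) (nat_lit 0xbc0001780002fce3b) b9069 (.hit (nat_lit 77) (nat_lit 56) (nat_lit 0xbc0001780002fbb9c) b9072 (.tok (nat_lit 67) (nat_lit 0xbc0001780002fd589) (.hit (nat_lit 75) (nat_lit 54) (nat_lit 0xbc0001780002fd589) b9070 (.hit (nat_lit 78) (nat_lit 57) (nat_lit 0xbc0001780002fcce1) b9073 (.one (nat_lit 9) (nat_lit 76) (nat_lit 55) (nat_lit 0xbc0001780002fcdf1) b9071 (.nil)))) (.nil)))) (.nil)))) (.one (nat_lit 70) (nat_lit 81) (nat_lit 60) (nat_lit 0xbc0001780002fbc40) b9075 (.nil)))))) (.tok (nat_lit 6) (nat_lit 0xbc000178000300000) (.hit (nat_lit 0) (nat_lit 0) (nat_lit 0xbc0001780002fc798) b9042 (.tok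 (nat_lit 6) (nat_lit 0xbc0001780002fcbf6) (.hit (nat_lit 1) (nat_lit 7) (nat_lit 0xbc0001780002fbbc2) b9043 (.hit (nat_lit 6) (nat_lit 15) (nat_lit 0xbc0001780002fae69) b9046 (.tok (nat_lit 56) (nat_lit 0xbc0001780002fcbf6) (.hit (nat_lit 4) (nat_lit 13) (nat_lit 0xbc0001780002fcb21) b9044 (.hit (nat_lit 9) (nat_lit 19) (nat_lit 0xbc0001780002fcaf7) b9048 (.one (nat_lit 6) (nat_lit 5) (nat_lit 14) (nat_lit 0xbc0001780002fcbf6) b9045 (.nil)))) (.one (nat_lit 68) (nat_lit 8) (nat_lit 18) (nat_lit 0xbc0001780002fcb53) b9047 (.nil))))) (.tok (nat_lit 52) (nat_lit 0xbc0001780002fd196) (.hit (nat_lit 10) (nat_lit 39) (nat_lit 0xbc0001780002fc183) b9049 (.hit (nat_lit 11) (nat_lit 40) (nat_lit 0xbc0001780002fd196) b9050 (.nil))) (.tok (nat_lit 55) (nat_lit 0xbc000178000300000) (.hit (nat_lit 12) (nat_lit 41) (nat_lit 0xbc0001780002fd718) b9051 (.one (nat_lit 3) (nat_lit 18) (nat_lit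 47) (nat_lit 0xbc0001780002fc96a) b9057 (.tok (nat_lit 6) (nat_lit 0xbc000178000300000) (.hit (nat_lit 13) (nat_lit 42) (nat_lit 0xbc0001780002fdc7a) b9052 (.hit (nat_lit 16) (nat_lit 45) (nat_lit 0xbc0001780002fd87b) b9055 (.tok (nat_lit 55) (nat_lit 0xbc000178000300000) (.hit (nat_lit 14) (nat_lit 43) (nat_lit 0xbc0001780002ff8f2) b9053 (.hit (nat_lit 17) (nat_lit 46) (nat_lit 0xbc0001780002fd491) b9056 (.one (nat_lit 6) (nat_lit 15) (nat_lit 44) (nat_lit 0xbc000178000300000) b9054 (.nil)))) (.nil)))) (.nil)))) (.one (nat_lit 58) (nat_lit 20) (nat_lit 49) (nat_lit 0xbc0001780002fcfe4) b9058 (.nil)))))) (.nil))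
noncomputable def r28_144 : Rw Blk := .tok (nat_lit 3) (nat_lit 0xbc0001780002fdd96) (.hit (nat_lit 61) (nat_lit 0) (nat_lit 0xbc0001780002fd24b) b8970 (.tok (nat_lit 6) (nat_lit 0xbc0001780002fd581) (.hit (nat_lit 62) (nat_lit 7) (nat_lit 0xbc0001780002fbbf9) b8971 (.hit (nat_lit 67) (nat_lit 15) (nat_lit 0xbc0001780002fadd7) b8974 (.tok (nat_lit 56) (nat_lit 0xbc0001780002fd581) (.hit (nat_lit 65) (nat_lit 13) (nat_lit 0xbc0001780002fcd73) b8972 (.hit (nat_lit 70) (nat_lit 19) (nat_lit 0xbc0001780002fbed5) b8976 (.one (nat_lit 6) (nat_lit 66) (nat_lit 14) (nat_lit 0xbc0001780002fd581) b8973 (.nil)))) (.one (nat_lit 68) (nat_lit 69) (nat_lit 18) (nat_lit 0xbc0001780002fc055) b8975 (.nil))))) (.tok (nat_lit 52) (nat_lit 0xbc0001780002fc70f) (.hit (nat_lit 71) (nat_lit 39) (nat_lit 0xbc0001780002fbf8c) b8977 (.hit (nat_lit 72) (nat_lit 40) (nat_lit 0xbc0001780002fc70f) b8978 (.nil)))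 (.tok (nat_lit 55) (nat_lit 0xbc0001780002fdd96) (.hit (nat_lit 73) (nat_lit 41) (nat_lit 0xbc0001780002fdd96) b8979 (.one (nat_lit 3) (nat_lit 79) (nat_lit 47) (nat_lit 0xbc0001780002fd3b5) b8985 (.tok (nat_lit 6) (nat_lit 0xbc0001780002fd8c9) (.hit (nat_lit 74) (nat_lit 42) (nat_lit 0xbc0001780002fc8f3) b8980 (.hit (nat_lit 77) (nat_lit 45) (nat_lit 0xbc0001780002fcc00) b8983 (.tok (nat_lit 55) (nat_lit 0xbc0001780002fd8c9) (.hit (nat_lit 75) (nat_lit 43) (nat_lit 0xbc0001780002fd809) b8981 (.hit (nat_lit 78) (nat_lit 46) (nat_lit 0xbc0001780002fd8c9) b8984 (.one (nat_lit 6) (nat_lit 76) (nat_lit 44) (nat_lit 0xbc0001780002fd3cd) b8982 (.nil)))) (.nil)))) (.nil)))) (.one (nat_lit 58) (nat_lit 81) (nat_lit 49) (nat_lit 0xbc0001780002fc7be) b8986 (.nil)))))) (.tok (nat_lit 9) (nat_lit 0xbc000178000300000) (.hit (nat_lit 0) (nat_lit 0) (nat_lit 0xbc0001780002feb42) b8953 (.tok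 (nat_lit 9) (nat_lit 0xbc000178000300000) (.hit (nat_lit 1) (nat_lit 20) (nat_lit 0xbc0001780002fd8ca) b8954 (.hit (nat_lit 6) (nat_lit 28) (nat_lit 0xbc0001780002fc64d) b8957 (.one (nat_lit 56) (nat_lit 8) (nat_lit 31) (nat_lit 0xbc0001780002fdb60) b8958 (.tok (nat_lit 68) (nat_lit 0xbc000178000300000) (.hit (nat_lit 4) (nat_lit 26) (nat_lit 0xbc0001780002fefdc) b8955 (.hit (nat_lit 9) (nat_lit 32) (nat_lit 0xbc0001780002fd664) b8959 (.one (nat_lit 9) (nat_lit 5) (nat_lit 27) (nat_lit 0xbc000178000300000) b8956 (.nil)))) (.nil))))) (.tok (nat_lit 64) (nat_lit 0xbc0001780002feaed) (.hit (nat_lit 10) (nat_lit 50) (nat_lit 0xbc0001780002fddba) b8960 (.hit (nat_lit 11) (nat_lit 51) (nat_lit 0xbc0001780002feaed) b8961 (.nil))) (.tok (nat_lit 67) (nat_lit 0xbc0001780002ffcc4) (.hit (nat_lit 12) (nat_lit 52) (nat_lit 0xbc0001780002ff8c8) b8962 (.one (nat_lit 3) (nat_lit 18) (nat_lit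 58) (nat_lit 0xbc0001780002fecd0) b8968 (.tok (nat_lit 9) (nat_lit 0xbc0001780002ffcc4) (.hit (nat_lit 13) (nat_lit 53) (nat_lit 0xbc0001780002fe135) b8963 (.hit (nat_lit 16) (nat_lit 56) (nat_lit 0xbc0001780002fed2b) b8966 (.tok (nat_lit 67) (nat_lit 0xbc0001780002ffcc4) (.hit (nat_lit 14) (nat_lit 54) (nat_lit 0xbc0001780002ff700) b8964 (.hit (nat_lit 17) (nat_lit 57) (nat_lit 0xbc0001780002ffcc4) b8967 (.one (nat_lit 9) (nat_lit 15) (nat_lit 55) (nat_lit 0xbc0001780002ff7ad) b8965 (.nil)))) (.nil)))) (.nil)))) (.one (nat_lit 70) (nat_lit 20) (nat_lit 60) (nat_lit 0xbc0001780002fed19) b8969 (.nil)))))) (.nil))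
noncomputable def r28_145 : Rw Blk := .tok (nat_lit 3) (nat_lit 0xbc0001780002fdba6) (.hit (nat_lit 61) (nat_lit 0) (nat_lit 0xbc0001780002fbffe) b29854 (.tok (nat_lit 6) (nat_lit 0xbc0001780002fc062) (.hit (nat_lit 62) (nat_lit 7) (nat_lit 0xbc0001780002fa50f) b29855 (.hit (nat_lit 67) (nat_lit 15) (nat_lit 0xbc0001780002fa87e) b29858 (.tok (nat_lit 56) (nat_lit 0xbc0001780002fc062) (.hit (nat_lit 65) (nat_lit 13) (nat_lit 0xbc0001780002fbce1) b29856 (.hit (nat_lit 70) (nat_lit 19) (nat_lit 0xbc0001780002fb8af) b29860 (.one (nat_lit 6) (nat_lit 66) (nat_lit 14) (nat_lit 0xbc0001780002fc062) b29857 (.nil)))) (.one (nat_lit 68) (nat_lit 69) (nat_lit 18) (nat_lit 0xbc0001780002fbeb4) b29859 (.nil))))) (.tok (nat_lit 52) (nat_lit 0xbc0001780002fc2cd) (.hit (nat_lit 71) (nat_lit 39) (nat_lit 0xbc0001780002fbb97) b29861 (.hit (nat_lit 72) (nat_lit 40) (nat_lit 0xbc0001780002fc2cd)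 b29862 (.nil))) (.tok (nat_lit 55) (nat_lit 0xbc0001780002fdba6) (.hit (nat_lit 73) (nat_lit 41) (nat_lit 0xbc0001780002fd269) b29863 (.one (nat_lit 3) (nat_lit 79) (nat_lit 47) (nat_lit 0xbc0001780002fcafe) b29869 (.tok (nat_lit 6) (nat_lit 0xbc0001780002fdba6) (.hit (nat_lit 74) (nat_lit 42) (nat_lit 0xbc0001780002fd458) b29864 (.hit (nat_lit 77) (nat_lit 45) (nat_lit 0xbc0001780002fc1b9) b29867 (.tok (nat_lit 55) (nat_lit 0xbc0001780002fdba6) (.hit (nat_lit 75) (nat_lit 43) (nat_lit 0xbc0001780002fdba6) b29865 (.hit (nat_lit 78) (nat_lit 46) (nat_lit 0xbc0001780002fd2fe) b29868 (.one (nat_lit 6) (nat_lit 76) (nat_lit 44) (nat_lit 0xbc0001780002fd40e) b29866 (.nil)))) (.nil)))) (.nil)))) (.one (nat_lit 58) (nat_lit 81) (nat_lit 49) (nat_lit 0xbc0001780002fc25d) b29870 (.nil)))))) (.tok (nat_lit 9) (nat_lit 0xbc00017800030061d) (.hit (nat_lit 0) (nat_lit 0) (nat_lit 0xbc0001780002fcdb5)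 b29837 (.tok (nat_lit 9) (nat_lit 0xbc0001780002fd213) (.hit (nat_lit 1) (nat_lit 20) (nat_lit 0xbc0001780002fc1df) b29838 (.hit (nat_lit 6) (nat_lit 28) (nat_lit 0xbc0001780002fb486) b29841 (.one (nat_lit 56) (nat_lit 8) (nat_lit 31) (nat_lit 0xbc0001780002fd170) b29842 (.tok (nat_lit 68) (nat_lit 0xbc0001780002fd213) (.hit (nat_lit 4) (nat_lit 26) (nat_lit 0xbc0001780002fd13e) b29839 (.hit (nat_lit 9) (nat_lit 32) (nat_lit 0xbc0001780002fd114) b29843 (.one (nat_lit 9) (nat_lit 5) (nat_lit 27) (nat_lit 0xbc0001780002fd213) b29840 (.nil)))) (.nil))))) (.tok (nat_lit 64) (nat_lit 0xbc0001780002fd7b3) (.hit (nat_lit 10) (nat_lit 50) (nat_lit 0xbc0001780002fc7a0) b29844 (.hit (nat_lit 11) (nat_lit 51) (nat_lit 0xbc0001780002fd7b3) b29845 (.nil))) (.tok (nat_lit 67) (nat_lit 0xbc00017800030061d) (.hit (nat_lit 12) (nat_lit 52) (nat_lit 0xbc0001780002fdd35) b29846 (.one (nat_lit 3)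 (nat_lit 18) (nat_lit 58) (nat_lit 0xbc0001780002fcf87) b29852 (.tok (nat_lit 9) (nat_lit 0xbc00017800030061d) (.hit (nat_lit 13) (nat_lit 53) (nat_lit 0xbc0001780002fe297) b29847 (.hit (nat_lit 16) (nat_lit 56) (nat_lit 0xbc0001780002fde98) b29850 (.tok (nat_lit 67) (nat_lit 0xbc00017800030061d) (.hit (nat_lit 14) (nat_lit 54) (nat_lit 0xbc0001780002fff0f) b29848 (.hit (nat_lit 17) (nat_lit 57) (nat_lit 0xbc0001780002fdaae) b29851 (.one (nat_lit 9) (nat_lit 15) (nat_lit 55) (nat_lit 0xbc00017800030061d) b29849 (.nil)))) (.nil)))) (.nil)))) (.one (nat_lit 70) (nat_lit 20) (nat_lit 60) (nat_lit 0xbc0001780002fd601) b29853 (.nil)))))) (.nil))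
noncomputable def r28_146 : Rw Blk := .tok (nat_lit 3) (nat_lit 0xbf74157eb64afed6e5fa492bf6ee57f3802fd5d1) (.hit (nat_lit 0) (nat_lit 0) (nat_lit 0xbf74157eb64afed6e5fa492bf6ee57f3802fd5d1) b36071 (.tok (nat_lit 6) (nat_lit 0xbf3f657dfc32fead75f8622bf07d17ef5b2fc8a5) (.hit (nat_lit 1) (nat_lit 7) (nat_lit 0xbf3f657dfc32fead75f8622bf07d17ef5b2fc8a5) b29961 (.hit (nat_lit 6) (nat_lit 15) (nat_lit 0xbf35a97de8bafe2d35f8144befe157ee23afc636) b29962 (.nil))) (.tok (nat_lit 9) (nat_lit 0xbf3f657dfc32fead75f8622bf07d17ef5b2fc8a5) (.hit (nat_lit 10) (nat_lit 20) (nat_lit 0xbf3f657dfc32fead75f8622bf07d17ef5b2fc8a5) b29961 (.hit (nat_lit 15) (nat_lit 28) (nat_lit 0xbf35a97de8bafe2d35f8144befe157ee23afc636) b29962 (.nil))) (.nil)))) (.tok (nat_lit 6) (nat_lit 0xc0000180000300000600000bfec8d800002fffb3) (.hit (nat_lit 81) (nat_lit 0) (nat_lit 0xbfcd217f711aff8de5fe1fabfbbad7f87eaff106) b29971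 (.tok (nat_lit 3) (nat_lit 0xbfcd597f256affef35fe544bfd68d7f9512ff255) (.hit (nat_lit 82) (nat_lit 1) (nat_lit 0xbf61157e5202fe9605fae50bf68a57eb942fd6db) b29964 (.one (nat_lit 67) (nat_lit 83) (nat_lit 2) (nat_lit 0xbfcd597f256affef35fe544bfd68d7f9512ff255) b29972 (.nil))) (.tok (nat_lit 6) (nat_lit 0xc0000180000300000600000bfec8d800002fffb3) (.hit (nat_lit 87) (nat_lit 7) (nat_lit 0xbfb0e97f43eaff6975fca02bfaa397f4f42fe4b4) b29973 (.hit (nat_lit 95) (nat_lit 15) (nat_lit 0xbf69ed7e4ed2fe18b5fb192bf6f297ec64afd87c) b29969 (.tok (nat_lit 55) (nat_lit 0xc0000180000300000600000bfec8d800002fffb3) (.hit (nat_lit 88) (nat_lit 8) (nat_lit 0xc000017fc16affe9d600000bfec8d800002fffb3) b29974 (.hit (nat_lit 96) (nat_lit 16) (nat_lit 0xbfcc4d7f32daffce55fe8fcbfddfd7fe0faff431) b29976 (.one (nat_lit 6) (nat_lit 89) (nat_lit 9) (nat_lit 0xbfd515800003000005fe850bfdd897ffe4aff3db) b29975 (.nil))))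 (.nil)))) (.nil)))) (.tok (nat_lit 9) (nat_lit 0xc00001800003000005ffdbcc000017fffb300000) (.hit (nat_lit 157) (nat_lit 0) (nat_lit 0xbfcd217f711aff8de5fe1fabfcf517f87eaff0b0) b29963 (.tok (nat_lit 3) (nat_lit 0xbfcd597f256affef35fdd30bfad0d7f9032fef9e) (.hit (nat_lit 158) (nat_lit 1) (nat_lit 0xbf61157e5202fe9605fae50bf68a57eb942fd6db) b29964 (.one (nat_lit 55) (nat_lit 159) (nat_lit 3) (nat_lit 0xbfcd597f256affef35fdd30bfad0d7f9032fef9e) b29965 (.nil))) (.tok (nat_lit 9) (nat_lit 0xc00001800003000005ffdbcc000017fffb300000) (.hit (nat_lit 163) (nat_lit 20) (nat_lit 0xbfb0e97f43eaff6975fca02bfb0297f4f42fe4b4) b29966 (.hit (nat_lit 171) (nat_lit 28) (nat_lit 0xbf69ed7e4ed2fe18b5fb192bf6f297ec64afd87c) b29969 (.tok (nat_lit 67) (nat_lit 0xc00001800003000005ffdbcc000017fffb300000) (.hit (nat_lit 164) (nat_lit 21) (nat_lit 0xc000017fc16affe9d5ffdbcc000017fffb300000) b29967 (.hit (nat_lit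 172) (nat_lit 29) (nat_lit 0xbfcc4d7f32daffce55fe8fcbfddfd7fe0faff431) b29970 (.one (nat_lit 9) (nat_lit 165) (nat_lit 22) (nat_lit 0xbfd515800003000005fe848bfe9217ffe4aff3db) b29968 (.nil)))) (.nil)))) (.nil)))) (.nil)))
noncomputable def r28_147 : Rw Blk := .tok (nat_lit 6) (nat_lit 0xbc000178000300000) (.hit (nat_lit 51) (nat_lit 0) (nat_lit 0xbc0001780002ff743) b8943 (.tok (nat_lit 3) (nat_lit 0xbc0001780002ffecc) (.hit (nat_lit 52) (nat_lit 1) (nat_lit 0xbc0001780002fdccb) b8944 (.one (nat_lit 14) (nat_lit 53) (nat_lit 4) (nat_lit 0xbc0001780002ffecc) b9239 (.one (nat_lit 56) (nat_lit 55) (nat_lit 6) (nat_lit 0xbc0001780002ff720) b8945 (.nil)))) (.tok (nat_lit 40) (nat_lit 0xbc0001780002ff5de) (.hit (nat_lit 56) (nat_lit 33) (nat_lit 0xbc0001780002ff5de) b8947 (.hit (nat_lit 57) (nat_lit 34) (nat_lit 0xbc0001780002ff3d8) b8948 (.nil))) (.tok (nat_lit 43) (nat_lit 0xbc000178000300000)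 (.hit (nat_lit 58) (nat_lit 35) (nat_lit 0xbc000178000300000) b8951 (.hit (nat_lit 59) (nat_lit 36) (nat_lit 0xbc0001780002ff6ae) b8952 (.nil))) (.tok (nat_lit 46) (nat_lit 0xbc0001780002ffbd8) (.hit (nat_lit 60) (nat_lit 37) (nat_lit 0xbc0001780002fe56f) b8949 (.hit (nat_lit 61) (nat_lit 38) (nat_lit 0xbc0001780002ffbd8) b8950 (.nil))) (.nil)))))) (.tok (nat_lit 9) (nat_lit 0xbc000178000300000) (.hit (nat_lit 0) (nat_lit 0) (nat_lit 0xbc0001780002ff743) b8943 (.tok (nat_lit 3) (nat_lit 0xbc0001780002ffecc) (.hit (nat_lit 1) (nat_lit 1) (nat_lit 0xbc0001780002fdccb) b8944 (.one (nat_lit 14) (nat_lit 2) (nat_lit 4) (nat_lit 0xbc0001780002ffecc) b9239 (.one (nat_lit 68) (nat_lit 3) (nat_lit 5) (nat_lit 0xbc0001780002ff720) b8945 (.nil)))) (.tok (nat_lit 40) (nat_lit 0xbc0001780002ff5de) (.hit (nat_lit 5) (nat_lit 33) (nat_lit 0xbc0001780002ff5de) b8947 (.hit (nat_lit 6) (nat_lit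 34) (nat_lit 0xbc0001780002ff3d8) b8948 (.nil))) (.tok (nat_lit 43) (nat_lit 0xbc0001780002ffbd8) (.hit (nat_lit 7) (nat_lit 35) (nat_lit 0xbc0001780002fe56f) b8949 (.hit (nat_lit 8) (nat_lit 36) (nat_lit 0xbc0001780002ffbd8) b8950 (.nil))) (.tok (nat_lit 46) (nat_lit 0xbc000178000300000) (.hit (nat_lit 9) (nat_lit 37) (nat_lit 0xbc000178000300000) b8951 (.hit (nat_lit 10) (nat_lit 38) (nat_lit 0xbc0001780002ff6ae) b8952 (.nil))) (.nil)))))) (.nil))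
noncomputable def r28_148 : Rw Blk := .tok (nat_lit 3) (nat_lit 0xbc0001780002fddcf) (.hit (nat_lit 61) (nat_lit 0) (nat_lit 0xbc0001780002fd208) b9255 (.tok (nat_lit 9) (nat_lit 0xbc0001780002fd53e) (.hit (nat_lit 62) (nat_lit 20) (nat_lit 0xbc0001780002fbbb6) b9256 (.hit (nat_lit 67) (nat_lit 28) (nat_lit 0xbc0001780002fad94) b9261 (.tok (nat_lit 14) (nat_lit 0xbc0001780002fcdbc) (.hit (nat_lit 63) (nat_lit 24) (nat_lit 0xbc0001780002fbdc9) b9257 (.hit (nat_lit 68) (nat_lit 30) (nat_lit 0xbc0001780002fc1ab) b9262 (.one (nat_lit 6) (nat_lit 64) (nat_lit 25) (nat_lit 0xbc0001780002fcdbc) b9258 (.nil)))) (.one (nat_lit 56) (nat_lit 69) (nat_lit 31) (nat_lit 0xbc0001780002fc012) b9263 (.tok (nat_lit 68) (nat_lit 0xbc0001780002fd53e) (.hit (nat_lit 65) (nat_lit 26) (nat_lit 0xbc0001780002fcd30) b9259 (.hit (nat_lit 70) (nat_lit 32) (nat_lit 0xbc0001780002fbe92) b9264 (.one (nat_lit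 9) (nat_lit 66) (nat_lit 27) (nat_lit 0xbc0001780002fd53e) b9260 (.nil)))) (.nil)))))) (.tok (nat_lit 64) (nat_lit 0xbc0001780002fc6cc) (.hit (nat_lit 71) (nat_lit 50) (nat_lit 0xbc0001780002fbf49) b9265 (.hit (nat_lit 72) (nat_lit 51) (nat_lit 0xbc0001780002fc6cc) b9266 (.nil))) (.tok (nat_lit 67) (nat_lit 0xbc0001780002fddcf) (.hit (nat_lit 73) (nat_lit 52) (nat_lit 0xbc0001780002fdd53) b9267 (.tok (nat_lit 3) (nat_lit 0xbc0001780002fddcf) (.hit (nat_lit 79) (nat_lit 58) (nat_lit 0xbc0001780002fd372) b9273 (.one (nat_lit 55) (nat_lit 80) (nat_lit 59) (nat_lit 0xbc0001780002fddcf) b9274 (.nil))) (.tok (nat_lit 9) (nat_lit 0xbc0001780002fd886) (.hit (nat_lit 74) (nat_lit 53) (nat_lit 0xbc0001780002fc8b0) b9268 (.hit (nat_lit 77) (nat_lit 56) (nat_lit 0xbc0001780002fcbbd) b9271 (.tok (nat_lit 67) (nat_lit 0xbc0001780002fd886) (.hit (nat_lit 75) (nat_lit 54) (nat_lit 0xbc0001780002fd7c6)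 b9269 (.hit (nat_lit 78) (nat_lit 57) (nat_lit 0xbc0001780002fd886) b9272 (.one (nat_lit 9) (nat_lit 76) (nat_lit 55) (nat_lit 0xbc0001780002fd38a) b9270 (.nil)))) (.nil)))) (.nil)))) (.one (nat_lit 70) (nat_lit 81) (nat_lit 60) (nat_lit 0xbc0001780002fc77b) b9275 (.nil)))))) (.tok (nat_lit 6) (nat_lit 0xbc000178000300000) (.hit (nat_lit 0) (nat_lit 0) (nat_lit 0xbc0001780002feaff) b9240 (.tok (nat_lit 6) (nat_lit 0xbc0001780002ff817) (.hit (nat_lit 1) (nat_lit 7) (nat_lit 0xbc0001780002fd887) b9241 (.hit (nat_lit 6) (nat_lit 15) (nat_lit 0xbc0001780002fc60a) b9244 (.tok (nat_lit 14) (nat_lit 0xbc0001780002ff817) (.hit (nat_lit 2) (nat_lit 11) (nat_lit 0xbc0001780002ff817) b9242 (.hit (nat_lit 7) (nat_lit 17) (nat_lit 0xbc0001780002fe65c) b9245 (.one (nat_lit 9) (nat_lit 3) (nat_lit 12) (nat_lit 0xbc0001780002ff6cc) b9243 (.nil)))) (.one (nat_lit 68) (nat_lit 8) (nat_lit 18) (nat_lit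 0xbc0001780002fdb1d) b9246 (.nil))))) (.tok (nat_lit 52) (nat_lit 0xbc0001780002feaaa) (.hit (nat_lit 10) (nat_lit 39) (nat_lit 0xbc0001780002fdd77) b9247 (.hit (nat_lit 11) (nat_lit 40) (nat_lit 0xbc0001780002feaaa) b9248 (.nil))) (.tok (nat_lit 55) (nat_lit 0xbc000178000300000) (.hit (nat_lit 12) (nat_lit 41) (nat_lit 0xbc0001780002ff885) b9249 (.tok (nat_lit 3) (nat_lit 0xbc000178000300000) (.hit (nat_lit 18) (nat_lit 47) (nat_lit 0xbc0001780002fec8d) b9252 (.one (nat_lit 67) (nat_lit 19) (nat_lit 48) (nat_lit 0xbc000178000300000) b9253 (.nil))) (.tok (nat_lit 6) (nat_lit 0xbc0001780002fece8) (.hit (nat_lit 13) (nat_lit 42) (nat_lit 0xbc0001780002fe0f2) b9250 (.hit (nat_lit 16) (nat_lit 45) (nat_lit 0xbc0001780002fece8) b9251 (.nil))) (.nil)))) (.one (nat_lit 58) (nat_lit 20) (nat_lit 49) (nat_lit 0xbc0001780002fecd6) b9254 (.nil)))))) (.nil))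
noncomputable def r28_149 : Rw Blk := .tok (nat_lit 3) (nat_lit 0xbc0001780002ff90f) (.hit (nat_lit 61) (nat_lit 0) (nat_lit 0xbc0001780002fdd67) b9291 (.tok (nat_lit 9) (nat_lit 0xbc0001780002fe295) (.hit (nat_lit 62) (nat_lit 20) (nat_lit 0xbc0001780002fc278) b9292 (.hit (nat_lit 67) (nat_lit 28) (nat_lit 0xbc0001780002fc5e7) b9297 (.tok (nat_lit 14) (nat_lit 0xbc0001780002fe295) (.hit (nat_lit 63) (nat_lit 24) (nat_lit 0xbc0001780002fd806) b9293 (.hit (nat_lit 68) (nat_lit 30) (nat_lit 0xbc0001780002fd4f7) b9298 (.one (nat_lit 6) (nat_lit 64) (nat_lit 25) (nat_lit 0xbc0001780002fe295) b9294 (.nil)))) (.one (nat_lit 56) (nat_lit 69) (nat_lit 31) (nat_lit 0xbc0001780002fdc1d) b9299 (.tok (nat_lit 68) (nat_lit 0xbc0001780002fddcb) (.hit (nat_lit 65) (nat_lit 26) (nat_lit 0xbc0001780002fda4a) b9295 (.hit (nat_lit 70) (nat_lit 32) (nat_lit 0xbc0001780002fd618) b9300 (.one (nat_lit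 9) (nat_lit 66) (nat_lit 27) (nat_lit 0xbc0001780002fddcb) b9296 (.nil)))) (.nil)))))) (.tok (nat_lit 64) (nat_lit 0xbc0001780002fe036) (.hit (nat_lit 71) (nat_lit 50) (nat_lit 0xbc0001780002fd900) b9301 (.hit (nat_lit 72) (nat_lit 51) (nat_lit 0xbc0001780002fe036) b9302 (.nil))) (.tok (nat_lit 67) (nat_lit 0xbc0001780002ff90f) (.hit (nat_lit 73) (nat_lit 52) (nat_lit 0xbc0001780002fefd2) b9303 (.tok (nat_lit 3) (nat_lit 0xbc0001780002ff019) (.hit (nat_lit 79) (nat_lit 58) (nat_lit 0xbc0001780002fe867) b9309 (.one (nat_lit 55) (nat_lit 80) (nat_lit 59) (nat_lit 0xbc0001780002ff019) b9310 (.nil))) (.tok (nat_lit 9) (nat_lit 0xbc0001780002ff90f) (.hit (nat_lit 74) (nat_lit 53) (nat_lit 0xbc0001780002ff1c1) b9304 (.hit (nat_lit 77) (nat_lit 56) (nat_lit 0xbc0001780002fdf22) b9307 (.tok (nat_lit 67) (nat_lit 0xbc0001780002ff90f) (.hit (nat_lit 75) (nat_lit 54) (nat_lit 0xbc0001780002ff90f)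 b9305 (.hit (nat_lit 78) (nat_lit 57) (nat_lit 0xbc0001780002ff067) b9308 (.one (nat_lit 9) (nat_lit 76) (nat_lit 55) (nat_lit 0xbc0001780002ff177) b9306 (.nil)))) (.nil)))) (.nil)))) (.one (nat_lit 70) (nat_lit 81) (nat_lit 60) (nat_lit 0xbc0001780002fdfc6) b9311 (.nil)))))) (.tok (nat_lit 6) (nat_lit 0xbc000178000300000) (.hit (nat_lit 0) (nat_lit 0) (nat_lit 0xbc0001780002feb1e) b9276 (.tok (nat_lit 6) (nat_lit 0xbc0001780002ff88b) (.hit (nat_lit 1) (nat_lit 7) (nat_lit 0xbc0001780002fdf48) b9277 (.hit (nat_lit 6) (nat_lit 15) (nat_lit 0xbc0001780002fd1ef) b9280 (.tok (nat_lit 14) (nat_lit 0xbc0001780002ff88b) (.hit (nat_lit 2) (nat_lit 11) (nat_lit 0xbc0001780002ff001) b9278 (.hit (nat_lit 7) (nat_lit 17) (nat_lit 0xbc0001780002ff88b) b9281 (.one (nat_lit 9) (nat_lit 3) (nat_lit 12) (nat_lit 0xbc0001780002fef49) b9279 (.nil)))) (.one (nat_lit 68) (nat_lit 8) (nat_lit 18) (nat_lit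 0xbc0001780002feed9) b9282 (.nil))))) (.tok (nat_lit 52) (nat_lit 0xbc0001780002ff51c) (.hit (nat_lit 10) (nat_lit 39) (nat_lit 0xbc0001780002fe509) b9283 (.hit (nat_lit 11) (nat_lit 40) (nat_lit 0xbc0001780002ff51c) b9284 (.nil))) (.tok (nat_lit 55) (nat_lit 0xbc000178000300000) (.hit (nat_lit 12) (nat_lit 41) (nat_lit 0xbc0001780002ffa9e) b9285 (.tok (nat_lit 3) (nat_lit 0xbc0001780002fffab) (.hit (nat_lit 18) (nat_lit 47) (nat_lit 0xbc0001780002fecf0) b9288 (.one (nat_lit 67) (nat_lit 19) (nat_lit 48) (nat_lit 0xbc0001780002fffab) b9289 (.nil))) (.tok (nat_lit 6) (nat_lit 0xbc000178000300000) (.hit (nat_lit 13) (nat_lit 42) (nat_lit 0xbc000178000300000) b9286 (.hit (nat_lit 16) (nat_lit 45) (nat_lit 0xbc0001780002ffc01) b9287 (.nil))) (.nil)))) (.one (nat_lit 58) (nat_lit 20) (nat_lit 49) (nat_lit 0xbc0001780002ff36a) b9290 (.nil)))))) (.nil))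
noncomputable def r28_150 : Rw Blk := .tok (nat_lit 3) (nat_lit 0xbc0001780002fddcf) (.hit (nat_lit 61) (nat_lit 0) (nat_lit 0xbc0001780002fd208) b9255 (.tok (nat_lit 6) (nat_lit 0xbc0001780002fd53e) (.hit (nat_lit 62) (nat_lit 7) (nat_lit 0xbc0001780002fbbb6) b9256 (.hit (nat_lit 67) (nat_lit 15) (nat_lit 0xbc0001780002fad94) b9261 (.tok (nat_lit 14) (nat_lit 0xbc0001780002fcdbc) (.hit (nat_lit 63) (nat_lit 11) (nat_lit 0xbc0001780002fbdc9) b9257 (.hit (nat_lit 68) (nat_lit 17) (nat_lit 0xbc0001780002fc1ab) b9262 (.one (nat_lit 9) (nat_lit 64) (nat_lit 12) (nat_lit 0xbc0001780002fcdbc) b9258 (.nil)))) (.tok (nat_lit 56) (nat_lit 0xbc0001780002fd53e) (.hit (nat_lit 65) (nat_lit 13) (nat_lit 0xbc0001780002fcd30) b9259 (.hit (nat_lit 70) (nat_lit 19) (nat_lit 0xbc0001780002fbe92) b9264 (.one (nat_lit 6) (nat_lit 66) (nat_lit 14) (nat_lit 0xbc0001780002fd53e) b9260 (.nil)))) (.one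 (nat_lit 68) (nat_lit 69) (nat_lit 18) (nat_lit 0xbc0001780002fc012) b9263 (.nil)))))) (.tok (nat_lit 52) (nat_lit 0xbc0001780002fc6cc) (.hit (nat_lit 71) (nat_lit 39) (nat_lit 0xbc0001780002fbf49) b9265 (.hit (nat_lit 72) (nat_lit 40) (nat_lit 0xbc0001780002fc6cc) b9266 (.nil))) (.tok (nat_lit 55) (nat_lit 0xbc0001780002fddcf) (.hit (nat_lit 73) (nat_lit 41) (nat_lit 0xbc0001780002fdd53) b9267 (.tok (nat_lit 3) (nat_lit 0xbc0001780002fddcf) (.hit (nat_lit 79) (nat_lit 47) (nat_lit 0xbc0001780002fd372) b9273 (.one (nat_lit 67) (nat_lit 80) (nat_lit 48) (nat_lit 0xbc0001780002fddcf) b9274 (.nil))) (.tok (nat_lit 6) (nat_lit 0xbc0001780002fd886) (.hit (nat_lit 74) (nat_lit 42) (nat_lit 0xbc0001780002fc8b0) b9268 (.hit (nat_lit 77) (nat_lit 45) (nat_lit 0xbc0001780002fcbbd) b9271 (.tok (nat_lit 55) (nat_lit 0xbc0001780002fd886) (.hit (nat_lit 75) (nat_lit 43) (nat_lit 0xbc0001780002fd7c6)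 b9269 (.hit (nat_lit 78) (nat_lit 46) (nat_lit 0xbc0001780002fd886) b9272 (.one (nat_lit 6) (nat_lit 76) (nat_lit 44) (nat_lit 0xbc0001780002fd38a) b9270 (.nil)))) (.nil)))) (.nil)))) (.one (nat_lit 58) (nat_lit 81) (nat_lit 49) (nat_lit 0xbc0001780002fc77b) b9275 (.nil)))))) (.tok (nat_lit 9) (nat_lit 0xbc000178000300000) (.hit (nat_lit 0) (nat_lit 0) (nat_lit 0xbc0001780002feaff) b9240 (.tok (nat_lit 9) (nat_lit 0xbc0001780002ff817) (.hit (nat_lit 1) (nat_lit 20) (nat_lit 0xbc0001780002fd887) b9241 (.hit (nat_lit 6) (nat_lit 28) (nat_lit 0xbc0001780002fc60a) b9244 (.tok (nat_lit 14) (nat_lit 0xbc0001780002ff817) (.hit (nat_lit 2) (nat_lit 24) (nat_lit 0xbc0001780002ff817) b9242 (.hit (nat_lit 7) (nat_lit 30) (nat_lit 0xbc0001780002fe65c) b9245 (.one (nat_lit 6) (nat_lit 3) (nat_lit 25) (nat_lit 0xbc0001780002ff6cc) b9243 (.nil)))) (.one (nat_lit 56) (nat_lit 8) (nat_lit 31)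 (nat_lit 0xbc0001780002fdb1d) b9246 (.nil))))) (.tok (nat_lit 64) (nat_lit 0xbc0001780002feaaa) (.hit (nat_lit 10) (nat_lit 50) (nat_lit 0xbc0001780002fdd77) b9247 (.hit (nat_lit 11) (nat_lit 51) (nat_lit 0xbc0001780002feaaa) b9248 (.nil))) (.tok (nat_lit 67) (nat_lit 0xbc000178000300000) (.hit (nat_lit 12) (nat_lit 52) (nat_lit 0xbc0001780002ff885) b9249 (.tok (nat_lit 3) (nat_lit 0xbc000178000300000) (.hit (nat_lit 18) (nat_lit 58) (nat_lit 0xbc0001780002fec8d) b9252 (.one (nat_lit 55) (nat_lit 19) (nat_lit 59) (nat_lit 0xbc000178000300000) b9253 (.nil))) (.tok (nat_lit 9) (nat_lit 0xbc0001780002fece8) (.hit (nat_lit 13) (nat_lit 53) (nat_lit 0xbc0001780002fe0f2) b9250 (.hit (nat_lit 16) (nat_lit 56) (nat_lit 0xbc0001780002fece8) b9251 (.nil))) (.nil)))) (.one (nat_lit 70) (nat_lit 20) (nat_lit 60) (nat_lit 0xbc0001780002fecd6) b9254 (.nil)))))) (.nil))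
noncomputable def r28_151 : Rw Blk := .tok (nat_lit 3) (nat_lit 0xbc0001780002ff90f) (.hit (nat_lit 61) (nat_lit 0) (nat_lit 0xbc0001780002fdd67) b9291 (.tok (nat_lit 6) (nat_lit 0xbc0001780002fe295) (.hit (nat_lit 62) (nat_lit 7) (nat_lit 0xbc0001780002fc278) b9292 (.hit (nat_lit 67) (nat_lit 15) (nat_lit 0xbc0001780002fc5e7) b9297 (.tok (nat_lit 14) (nat_lit 0xbc0001780002fe295) (.hit (nat_lit 63) (nat_lit 11) (nat_lit 0xbc0001780002fd806) b9293 (.hit (nat_lit 68) (nat_lit 17) (nat_lit 0xbc0001780002fd4f7) b9298 (.one (nat_lit 9) (nat_lit 64) (nat_lit 12) (nat_lit 0xbc0001780002fe295) b9294 (.nil)))) (.tok (nat_lit 56) (nat_lit 0xbc0001780002fddcb) (.hit (nat_lit 65) (nat_lit 13) (nat_lit 0xbc0001780002fda4a) b9295 (.hit (nat_lit 70) (nat_lit 19) (nat_lit 0xbc0001780002fd618) b9300 (.one (nat_lit 6) (nat_lit 66) (nat_lit 14) (nat_lit 0xbc0001780002fddcb) b9296 (.nil)))) (.one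 (nat_lit 68) (nat_lit 69) (nat_lit 18) (nat_lit 0xbc0001780002fdc1d) b9299 (.nil)))))) (.tok (nat_lit 52) (nat_lit 0xbc0001780002fe036) (.hit (nat_lit 71) (nat_lit 39) (nat_lit 0xbc0001780002fd900) b9301 (.hit (nat_lit 72) (nat_lit 40) (nat_lit 0xbc0001780002fe036) b9302 (.nil))) (.tok (nat_lit 55) (nat_lit 0xbc0001780002ff90f) (.hit (nat_lit 73) (nat_lit 41) (nat_lit 0xbc0001780002fefd2) b9303 (.tok (nat_lit 3) (nat_lit 0xbc0001780002ff019) (.hit (nat_lit 79) (nat_lit 47) (nat_lit 0xbc0001780002fe867) b9309 (.one (nat_lit 67) (nat_lit 80) (nat_lit 48) (nat_lit 0xbc0001780002ff019) b9310 (.nil))) (.tok (nat_lit 6) (nat_lit 0xbc0001780002ff90f) (.hit (nat_lit 74) (nat_lit 42) (nat_lit 0xbc0001780002ff1c1) b9304 (.hit (nat_lit 77) (nat_lit 45) (nat_lit 0xbc0001780002fdf22) b9307 (.tok (nat_lit 55) (nat_lit 0xbc0001780002ff90f) (.hit (nat_lit 75) (nat_lit 43) (nat_lit 0xbc0001780002ff90f)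 b9305 (.hit (nat_lit 78) (nat_lit 46) (nat_lit 0xbc0001780002ff067) b9308 (.one (nat_lit 6) (nat_lit 76) (nat_lit 44) (nat_lit 0xbc0001780002ff177) b9306 (.nil)))) (.nil)))) (.nil)))) (.one (nat_lit 58) (nat_lit 81) (nat_lit 49) (nat_lit 0xbc0001780002fdfc6) b9311 (.nil)))))) (.tok (nat_lit 9) (nat_lit 0xbc000178000300000) (.hit (nat_lit 0) (nat_lit 0) (nat_lit 0xbc0001780002feb1e) b9276 (.tok (nat_lit 9) (nat_lit 0xbc0001780002ff88b) (.hit (nat_lit 1) (nat_lit 20) (nat_lit 0xbc0001780002fdf48) b9277 (.hit (nat_lit 6) (nat_lit 28) (nat_lit 0xbc0001780002fd1ef) b9280 (.tok (nat_lit 14) (nat_lit 0xbc0001780002ff88b) (.hit (nat_lit 2) (nat_lit 24) (nat_lit 0xbc0001780002ff001) b9278 (.hit (nat_lit 7) (nat_lit 30) (nat_lit 0xbc0001780002ff88b) b9281 (.one (nat_lit 6) (nat_lit 3) (nat_lit 25) (nat_lit 0xbc0001780002fef49) b9279 (.nil)))) (.one (nat_lit 56) (nat_lit 8) (nat_lit 31)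 (nat_lit 0xbc0001780002feed9) b9282 (.nil))))) (.tok (nat_lit 64) (nat_lit 0xbc0001780002ff51c) (.hit (nat_lit 10) (nat_lit 50) (nat_lit 0xbc0001780002fe509) b9283 (.hit (nat_lit 11) (nat_lit 51) (nat_lit 0xbc0001780002ff51c) b9284 (.nil))) (.tok (nat_lit 67) (nat_lit 0xbc000178000300000) (.hit (nat_lit 12) (nat_lit 52) (nat_lit 0xbc0001780002ffa9e) b9285 (.tok (nat_lit 3) (nat_lit 0xbc0001780002fffab) (.hit (nat_lit 18) (nat_lit 58) (nat_lit 0xbc0001780002fecf0) b9288 (.one (nat_lit 55) (nat_lit 19) (nat_lit 59) (nat_lit 0xbc0001780002fffab) b9289 (.nil))) (.tok (nat_lit 9) (nat_lit 0xbc000178000300000) (.hit (nat_lit 13) (nat_lit 53) (nat_lit 0xbc000178000300000) b9286 (.hit (nat_lit 16) (nat_lit 56) (nat_lit 0xbc0001780002ffc01) b9287 (.nil))) (.nil)))) (.one (nat_lit 70) (nat_lit 20) (nat_lit 60) (nat_lit 0xbc0001780002ff36a) b9290 (.nil)))))) (.nil))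
noncomputable def r28_152 : Rw Blk := .tok (nat_lit 3) (nat_lit 0x17ede4afc6905fbf80bf67517ed90afdfd45fd916bf8cb57fa69afedc3) (.hit (nat_lit 0) (nat_lit 0) (nat_lit 0x17ede4afc6905fbf80bf67517ed90afdfd45fd916bf8cb57fa69afedc3) b36072 (.tok (nat_lit 6) (nat_lit 0x17e74eafaf4d5fba52bf2f997e291afd19e5f7f82bec3397f06b2fe193) (.hit (nat_lit 1) (nat_lit 7) (nat_lit 0x17e74eafaf4d5fba52bf2f997e291afd19e5f7f82bec3397f06b2fe193) b29980 (.hit (nat_lit 6) (nat_lit 15) (nat_lit 0x17e6172facde5faa4abf25dd7e15a2fcf2f5f7aa4beb97d7edbd2fdf3c) b29981 (.nil))) (.tok (nat_lit 9) (nat_lit 0x17e74eafaf4d5fba52bf2f997e291afd19e5f7f82bec3397ed472fe1a6) (.hit (nat_lit 10) (nat_lit 20) (nat_lit 0x17e74eafaf4d5fba52bf2f997e291afd19e5f7f82bec3397e1032fe1a6) b29978 (.hit (nat_lit 15) (nat_lit 28) (nat_lit 0x17e6172facde5faa4abf25dd7e15a2fcf2f5f7aa4beb97d7ed472fdf5a) b29979 (.nil))) (.nil)))) (.tok (nat_lit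 6) (nat_lit 0x180000300000600000bff8c580000300000600000c0000180000300851) (.hit (nat_lit 81) (nat_lit 0) (nat_lit 0x17f9062fddea5fd660bfbae97f594aff0255fea18bfa8597fac5afee67) b29990 (.one (nat_lit 3) (nat_lit 82) (nat_lit 1) (nat_lit 0x17eb84afba075fb764bf538d7eb392fcf695fc0a4bf64957f79b2fe11f) b29991 (.tok (nat_lit 6) (nat_lit 0x180000300000600000bff8c580000300000600000c0000180000300851) (.hit (nat_lit 87) (nat_lit 7) (nat_lit 0x17f57f2fd8445fd1d2bf8b397f36a2fde545fd61cbf80297fd002fe20c) b29992 (.hit (nat_lit 95) (nat_lit 15) (nat_lit 0x17ec9fafb9a15fa7babf5a117ec09afd10a5fc3e6bf5bbd7f57fafdce8) b29996 (.tok (nat_lit 55) (nat_lit 0x180000300000600000bff8c580000300000600000c0000180000300851) (.hit (nat_lit 88) (nat_lit 8) (nat_lit 0x17ff622fe7f45fe1debff5817fbc9aff8405ffdd4bfd261800002ff994) b29993 (.hit (nat_lit 96) (nat_lit 16) (nat_lit 0x17f8ebafd6225fde6ebfc8e57f9e3afef075feb68bfb49d7feee2ff550)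 b29997 (.tok (nat_lit 6) (nat_lit 0x180000300000600000bff8c580000300000600000c000017ff22300851) (.hit (nat_lit 89) (nat_lit 9) (nat_lit 0x17fa04afefc75fe4a4bfc75d7f9822ff2b15febb0bfbb217fb8d2ffb0d) b29994 (.one (nat_lit 55) (nat_lit 90) (nat_lit 10) (nat_lit 0x180000300000600000bff8c580000300000600000c000017ff22300851) b29995 (.nil))) (.nil)))) (.nil)))) (.nil)))) (.tok (nat_lit 9) (nat_lit 0x180000300000600000c000017fcceb000005fe716bf925d7fb7d2ff27f) (.hit (nat_lit 157) (nat_lit 0) (nat_lit 0x17f9062fddea5fd660bfc0457f5a82ff04e5fe716bf925d7fb7d2fee7c) b29982 (.one (nat_lit 3) (nat_lit 158) (nat_lit 1) (nat_lit 0x17eb84afba075fb764bf538d7eb392fcf695f6f6ebea3117e564afd6d9) b29983 (.tok (nat_lit 9) (nat_lit 0x180000300000600000c000017fcceb000005fdc46bf7cc17f8342ff27f) (.hit (nat_lit 163) (nat_lit 20) (nat_lit 0x17f57f2fd8445fd1d2bf95d57f3a42fdd425f95e6bef0017e69c2fd0dc) b29984 (.hit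 (nat_lit 171) (nat_lit 28) (nat_lit 0x17ec9fafb9a15fa7babf5a117ec09afd10a5f5e7ebe81317e2722fcdf6) b29988 (.tok (nat_lit 67) (nat_lit 0x180000300000600000c000017fcceb000005fdc46bf7cc17f8342ff27f) (.hit (nat_lit 164) (nat_lit 21) (nat_lit 0x17ff622fe7f45fe1dec000017fbffaff8415fbdc6bf3fc17f0942fe9f2) b29985 (.hit (nat_lit 172) (nat_lit 29) (nat_lit 0x17f8ebafd6225fde6ebfc8e57f9e42fef075fba54bf38dd7f4c4afee04) b29989 (.tok (nat_lit 9) (nat_lit 0x180000300000600000bff5497fcceb000005fdc46bf7cc17f8342ff27f) (.hit (nat_lit 165) (nat_lit 22) (nat_lit 0x17fa04afefc75fe4a4bfc8917f9ab2ff2b15fc1a8bf47857f18cafede6) b29986 (.one (nat_lit 67) (nat_lit 166) (nat_lit 23) (nat_lit 0x180000300000600000bff5497fcceb000005fdc46bf7cc17f8342ff27f) b29987 (.nil))) (.nil)))) (.nil)))) (.nil)))) (.nil)))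
noncomputable def r28_153 : Rw Blk := .tok (nat_lit 6) (nat_lit 0x5e0000bc000180000300000) (.hit (nat_lit 51) (nat_lit 0) (nat_lit 0x5e0000bc00017fba1aff1e9) b29998 (.tok (nat_lit 3) (nat_lit 0x5e0000bc00017ff662ff3fb) (.hit (nat_lit 52) (nat_lit 1) (nat_lit 0x5e0000bc00017ee65afd3d0) b29999 (.one (nat_lit 14) (nat_lit 53) (nat_lit 4) (nat_lit 0x5e0000bc00017ff662ff3fb) b30000 (.one (nat_lit 68) (nat_lit 54) (nat_lit 5) (nat_lit 0x5e0000bc00017f79f2fe858) b30001 (.nil)))) (.tok (nat_lit 40) (nat_lit 0x5e0000bc00017faef2fed1f) (.hit (nat_lit 56) (nat_lit 33) (nat_lit 0x5e0000bc00017faef2fed1f) b30002 (.hit (nat_lit 57) (nat_lit 34) (nat_lit 0x5e0000bc00017f9ec2fe5a9) b30003 (.nil))) (.tok (nat_lit 43) (nat_lit 0x5e0000bc000180000300000) (.hit (nat_lit 58) (nat_lit 35) (nat_lit 0x5e0000bc000180000300000) b30006 (.hit (nat_lit 59) (nat_lit 36) (nat_lit 0x5e0000bc00017fb572ff085)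 b30007 (.nil))) (.tok (nat_lit 46) (nat_lit 0x5e0000bc00017fdec2ff42c) (.hit (nat_lit 60) (nat_lit 37) (nat_lit 0x5e0000bc00017f2b7afdc5e) b30004 (.hit (nat_lit 61) (nat_lit 38) (nat_lit 0x5e0000bc00017fdec2ff42c) b30005 (.nil))) (.nil)))))) (.tok (nat_lit 9) (nat_lit 0x5e0000bc0001800002ffffe) (.hit (nat_lit 0) (nat_lit 0) (nat_lit 0x5e0000bc00017fba1aff12b) b30008 (.tok (nat_lit 3) (nat_lit 0x5e0000bc00017ff662ff3e3) (.hit (nat_lit 1) (nat_lit 1) (nat_lit 0x5e0000bc00017ee65afd3cf) b30009 (.one (nat_lit 14) (nat_lit 2) (nat_lit 4) (nat_lit 0x5e0000bc00017ff662ff3e3) b30010 (.one (nat_lit 56) (nat_lit 4) (nat_lit 6) (nat_lit 0x5e0000bc00017f79f2fe438) b30011 (.nil)))) (.tok (nat_lit 40) (nat_lit 0x5e0000bc00017faef2fed29) (.hit (nat_lit 5) (nat_lit 33) (nat_lit 0x5e0000bc00017faef2fed29) b30012 (.hit (nat_lit 6) (nat_lit 34) (nat_lit 0x5e0000bc00017f9ec2fe5a9) b30003 (.nil)))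 (.tok (nat_lit 43) (nat_lit 0x5e0000bc00017fdec2ff04f) (.hit (nat_lit 7) (nat_lit 35) (nat_lit 0x5e0000bc00017f2b7afdc5e) b30004 (.hit (nat_lit 8) (nat_lit 36) (nat_lit 0x5e0000bc00017fdec2ff04f) b30015 (.nil))) (.tok (nat_lit 46) (nat_lit 0x5e0000bc0001800002ffffe) (.hit (nat_lit 9) (nat_lit 37) (nat_lit 0x5e0000bc0001800002ffffe) b30013 (.hit (nat_lit 10) (nat_lit 38) (nat_lit 0x5e0000bc00017fb572ff06d) b30014 (.nil))) (.nil)))))) (.nil))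
noncomputable def r28_154 : Rw Blk := .tok (nat_lit 3) (nat_lit 0x2f00005e0000bf54f97f1bf2fe06d) (.hit (nat_lit 61) (nat_lit 0) (nat_lit 0x2f00005e0000bf48217e8b12fd569) b30066 (.tok (nat_lit 9) (nat_lit 0x2f00005e0000bf54f97f1bf2fe06d) (.hit (nat_lit 62) (nat_lit 20) (nat_lit 0x2f00005e0000beeed97e4fb2fc6e5) b30067 (.hit (nat_lit 67) (nat_lit 28) (nat_lit 0x2f00005e0000beb6517ddea2fb8c3) b30072 (.tok (nat_lit 14) (nat_lit 0x2f00005e0000bf36f17edfe2fd8eb) (.hit (nat_lit 63) (nat_lit 24) (nat_lit 0x2f00005e0000bef7257e604afc8f8) b30068 (.hit (nat_lit 68) (nat_lit 30) (nat_lit 0x2f00005e0000bf06ad7e7f5afccda) b30073 (.one (nat_lit 6) (nat_lit 64) (nat_lit 25) (nat_lit 0x2f00005e0000bf36f17edfe2fd8eb) b30069 (.nil)))) (.one (nat_lit 56) (nat_lit 69) (nat_lit 31) (nat_lit 0x2f00005e0000bf00497e7292fcb41) b30074 (.tok (nat_lit 68) (nat_lit 0x2f00005e0000bf54f97f1bf2fe06d) (.hit (nat_lit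 65) (nat_lit 26) (nat_lit 0x2f00005e0000bf34c17edb82fd85f) b30070 (.hit (nat_lit 70) (nat_lit 32) (nat_lit 0x2f00005e0000befa497e6692fc9c1) b30075 (.one (nat_lit 9) (nat_lit 66) (nat_lit 27) (nat_lit 0x2f00005e0000bf54f97f1bf2fe06d) b30071 (.nil)))) (.nil)))))) (.nil))) (.tok (nat_lit 6) (nat_lit 0x2f00005e0000c000018038e300000) (.hit (nat_lit 0) (nat_lit 0) (nat_lit 0x2f00005e0000bfabfd7ed4fafdc58) b30046 (.tok (nat_lit 6) (nat_lit 0x2f00005e0000bffef58038e300000) (.hit (nat_lit 1) (nat_lit 7) (nat_lit 0x2f00005e0000bf621d7ee9aafd2bf) b30047 (.hit (nat_lit 6) (nat_lit 15) (nat_lit 0x2f00005e0000bf18297deee2fbada) b30052 (.tok (nat_lit 14) (nat_lit 0x2f00005e0000bfe05d8038e2ff98c) (.hit (nat_lit 2) (nat_lit 11) (nat_lit 0x2f00005e0000bfe05d8038e2ff98c) b30048 (.hit (nat_lit 7) (nat_lit 17) (nat_lit 0x2f00005e0000bf99717ec142fdd60) b30053 (.one (nat_lit 9) (nat_lit 3) (nat_lit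 12) (nat_lit 0x2f00005e0000bfdb317ff0baff61b) b30049 (.nil)))) (.tok (nat_lit 56) (nat_lit 0x2f00005e0000bffef57f516300000) (.hit (nat_lit 4) (nat_lit 13) (nat_lit 0x2f00005e0000bfbe657f5162feb0a) b30050 (.hit (nat_lit 9) (nat_lit 19) (nat_lit 0x2f00005e0000bf58857e3d8afda3a) b30054 (.one (nat_lit 6) (nat_lit 5) (nat_lit 14) (nat_lit 0x2f00005e0000bffef57f4b8b00000) b30051 (.nil)))) (.nil))))) (.tok (nat_lit 52) (nat_lit 0x2f00005e0000bfaaa97f0d12fe263) (.hit (nat_lit 10) (nat_lit 39) (nat_lit 0x2f00005e0000bf75dd7ed68afdfe6) b30055 (.hit (nat_lit 11) (nat_lit 40) (nat_lit 0x2f00005e0000bfaaa97f0d12fe263) b30056 (.nil))) (.tok (nat_lit 55) (nat_lit 0x2f00005e0000c00001801c5affde5) (.hit (nat_lit 12) (nat_lit 41) (nat_lit 0x2f00005e0000bfe2157fcbd2ff20d) b30057 (.tok (nat_lit 3) (nat_lit 0x2f00005e0000c00001801c5affde5) (.hit (nat_lit 18) (nat_lit 47) (nat_lit 0x2f00005e0000bfb2357f73e2fe5ec)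 b30063 (.one (nat_lit 67) (nat_lit 19) (nat_lit 48) (nat_lit 0x2f00005e0000c00001801c5affde5) b30064 (.nil))) (.tok (nat_lit 6) (nat_lit 0x2f00005e0000bff2057fb1baff8f4) (.hit (nat_lit 13) (nat_lit 42) (nat_lit 0x2f00005e0000bf83c97f04c2fdf4f) b30058 (.hit (nat_lit 16) (nat_lit 45) (nat_lit 0x2f00005e0000bfb3a17f1fdafe71d) b30061 (.tok (nat_lit 55) (nat_lit 0x2f00005e0000bff2057fb1baff8f4) (.hit (nat_lit 14) (nat_lit 43) (nat_lit 0x2f00005e0000bfdaf57fb1baff3ca) b30059 (.hit (nat_lit 17) (nat_lit 46) (nat_lit 0x2f00005e0000bff2057f9582ff8f4) b30062 (.one (nat_lit 6) (nat_lit 15) (nat_lit 44) (nat_lit 0x2f00005e0000bfdda97fac22ff788) b30060 (.nil)))) (.nil)))) (.nil)))) (.one (nat_lit 58) (nat_lit 20) (nat_lit 49) (nat_lit 0x2f00005e0000bfb3597f2c4afe3a2) b30065 (.nil)))))) (.nil))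
noncomputable def r28_155 : Rw Blk := .tok (nat_lit 3) (nat_lit 0x5e0000bc00017df87afd8d3) (.hit (nat_lit 61) (nat_lit 0) (nat_lit 0x5e0000bc00017dcf0afd2f6) b30096 (.tok (nat_lit 9) (nat_lit 0x5e0000bc00017df87afd8d3) (.hit (nat_lit 62) (nat_lit 20) (nat_lit 0x5e0000bc00017cf792fb8b6) b30097 (.hit (nat_lit 67) (nat_lit 28) (nat_lit 0x5e0000bc00017d130afbc25) b30102 (.tok (nat_lit 14) (nat_lit 0x5e0000bc00017df87afd8d3) (.hit (nat_lit 63) (nat_lit 24) (nat_lit 0x5e0000bc00017da402fce44) b30098 (.hit (nat_lit 68) (nat_lit 30) (nat_lit 0x5e0000bc00017d8b8afcb35) b30103 (.one (nat_lit 6) (nat_lit 64) (nat_lit 25) (nat_lit 0x5e0000bc00017df87afd8d3) b30099 (.nil)))) (.one (nat_lit 56) (nat_lit 69) (nat_lit 31) (nat_lit 0x5e0000bc00017dc4bafd25b) b30104 (.tok (nat_lit 68) (nat_lit 0x5e0000bc00017dd22afd409) (.hit (nat_lit 65) (nat_lit 26) (nat_lit 0x5e0000bc00017db622fd088) b30100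 (.hit (nat_lit 70) (nat_lit 32) (nat_lit 0x5e0000bc00017d9492fcc56) b30105 (.one (nat_lit 9) (nat_lit 66) (nat_lit 27) (nat_lit 0x5e0000bc00017dd22afd409) b30101 (.nil)))) (.nil)))))) (.nil))) (.tok (nat_lit 6) (nat_lit 0x5e0000bc000180000300ec3) (.hit (nat_lit 0) (nat_lit 0) (nat_lit 0x5e0000bc00017e3cc2fd419) b30076 (.tok (nat_lit 6) (nat_lit 0x5e0000bc00017ea82afe8cc) (.hit (nat_lit 1) (nat_lit 7) (nat_lit 0x5e0000bc00017dde12fc4e7) b30077 (.hit (nat_lit 6) (nat_lit 15) (nat_lit 0x5e0000bc00017d734afbcb6) b30082 (.tok (nat_lit 14) (nat_lit 0x5e0000bc00017ea82afe8cc) (.hit (nat_lit 2) (nat_lit 11) (nat_lit 0x5e0000bc00017e63dafe0aa) b30078 (.hit (nat_lit 7) (nat_lit 17) (nat_lit 0x5e0000bc00017ea82afd3ff) b30083 (.one (nat_lit 9) (nat_lit 3) (nat_lit 12) (nat_lit 0x5e0000bc00017e5e1afe8cc) b30079 (.nil)))) (.tok (nat_lit 56) (nat_lit 0x5e0000bc00017e5fb2fdccf) (.hit (nat_lit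 4) (nat_lit 13) (nat_lit 0x5e0000bc00017e590afdb8f) b30080 (.hit (nat_lit 9) (nat_lit 19) (nat_lit 0x5e0000bc00017e57bafca60) b30084 (.one (nat_lit 6) (nat_lit 5) (nat_lit 14) (nat_lit 0x5e0000bc00017e5fb2fdccf) b30081 (.nil)))) (.nil))))) (.tok (nat_lit 52) (nat_lit 0x5e0000bc00017e8cb2fda51) (.hit (nat_lit 10) (nat_lit 39) (nat_lit 0x5e0000bc00017e0c1afd749) b30085 (.hit (nat_lit 11) (nat_lit 40) (nat_lit 0x5e0000bc00017e8cb2fda51) b30086 (.nil))) (.tok (nat_lit 55) (nat_lit 0x5e0000bc000180000300ec3) (.hit (nat_lit 12) (nat_lit 41) (nat_lit 0x5e0000bc00017eb8c2fea46) b30087 (.tok (nat_lit 3) (nat_lit 0x5e0000bc00017ee12afecab) (.hit (nat_lit 18) (nat_lit 47) (nat_lit 0x5e0000bc00017e4b52fde26) b30093 (.one (nat_lit 67) (nat_lit 19) (nat_lit 48) (nat_lit 0x5e0000bc00017ee12afecab) b30094 (.nil))) (.tok (nat_lit 6) (nat_lit 0x5e0000bc000180000300ec3) (.hit (nat_lit 13) (nat_lit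 42) (nat_lit 0x5e0000bc00017ee3d2fe55c) b30088 (.hit (nat_lit 16) (nat_lit 45) (nat_lit 0x5e0000bc00017ec3dafdc3a) b30091 (.tok (nat_lit 55) (nat_lit 0x5e0000bc000180000300ec3) (.hit (nat_lit 14) (nat_lit 43) (nat_lit 0x5e0000bc00017fc79300cb7) b30089 (.hit (nat_lit 17) (nat_lit 46) (nat_lit 0x5e0000bc00017ea48afe7c3) b30092 (.one (nat_lit 6) (nat_lit 15) (nat_lit 44) (nat_lit 0x5e0000bc000180000300ec3) b30090 (.nil)))) (.nil)))) (.nil)))) (.one (nat_lit 58) (nat_lit 20) (nat_lit 49) (nat_lit 0x5e0000bc00017e7f22fdbc9) b30095 (.nil)))))) (.nil))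
noncomputable def r28_156 : Rw Blk := .tok (nat_lit 3) (nat_lit 0xbc0001780002fd53e) (.hit (nat_lit 61) (nat_lit 0) (nat_lit 0xbc0001780002fd208) b9255 (.tok (nat_lit 6) (nat_lit 0xbc0001780002fd53e) (.hit (nat_lit 62) (nat_lit 7) (nat_lit 0xbc0001780002fbbb6) b9256 (.hit (nat_lit 67) (nat_lit 15) (nat_lit 0xbc0001780002fad94) b9261 (.tok (nat_lit 14) (nat_lit 0xbc0001780002fcdbc) (.hit (nat_lit 63) (nat_lit 11) (nat_lit 0xbc0001780002fbdc9) b9257 (.hit (nat_lit 68) (nat_lit 17) (nat_lit 0xbc0001780002fc1ab) b9262 (.one (nat_lit 9) (nat_lit 64) (nat_lit 12) (nat_lit 0xbc0001780002fcdbc) b9258 (.nil)))) (.tok (nat_lit 56) (nat_lit 0xbc0001780002fd53e) (.hit (nat_lit 65) (nat_lit 13) (nat_lit 0xbc0001780002fcd30) b9259 (.hit (nat_lit 70) (nat_lit 19) (nat_lit 0xbc0001780002fbe92) b9264 (.one (nat_lit 6) (nat_lit 66) (nat_lit 14) (nat_lit 0xbc0001780002fd53e) b9260 (.nil)))) (.one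 (nat_lit 68) (nat_lit 69) (nat_lit 18) (nat_lit 0xbc0001780002fc012) b9263 (.nil)))))) (.nil))) (.tok (nat_lit 9) (nat_lit 0xbc000178000300000) (.hit (nat_lit 0) (nat_lit 0) (nat_lit 0xbc0001780002feaff) b9240 (.tok (nat_lit 9) (nat_lit 0xbc0001780002fffbd) (.hit (nat_lit 1) (nat_lit 20) (nat_lit 0xbc0001780002fd887) b9241 (.hit (nat_lit 6) (nat_lit 28) (nat_lit 0xbc0001780002fc60a) b9244 (.tok (nat_lit 14) (nat_lit 0xbc0001780002ff817) (.hit (nat_lit 2) (nat_lit 24) (nat_lit 0xbc0001780002ff817) b9242 (.hit (nat_lit 7) (nat_lit 30) (nat_lit 0xbc0001780002fe65c) b9245 (.one (nat_lit 6) (nat_lit 3) (nat_lit 25) (nat_lit 0xbc0001780002ff6cc) b9243 (.nil)))) (.tok (nat_lit 68) (nat_lit 0xbc0001780002fffbd) (.hit (nat_lit 4) (nat_lit 26) (nat_lit 0xbc0001780002fef99) b9609 (.hit (nat_lit 9) (nat_lit 32) (nat_lit 0xbc0001780002fd621) b9611 (.one (nat_lit 9) (nat_lit 5) (nat_lit 27)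 (nat_lit 0xbc0001780002fffbd) b9610 (.nil)))) (.nil))))) (.tok (nat_lit 64) (nat_lit 0xbc0001780002feaaa) (.hit (nat_lit 10) (nat_lit 50) (nat_lit 0xbc0001780002fdd77) b9247 (.hit (nat_lit 11) (nat_lit 51) (nat_lit 0xbc0001780002feaaa) b9248 (.nil))) (.tok (nat_lit 67) (nat_lit 0xbc000178000300000) (.hit (nat_lit 12) (nat_lit 52) (nat_lit 0xbc0001780002ff885) b9249 (.tok (nat_lit 3) (nat_lit 0xbc000178000300000) (.hit (nat_lit 18) (nat_lit 58) (nat_lit 0xbc0001780002fec8d) b9252 (.one (nat_lit 55) (nat_lit 19) (nat_lit 59) (nat_lit 0xbc000178000300000) b9253 (.nil))) (.tok (nat_lit 9) (nat_lit 0xbc0001780002ffc81) (.hit (nat_lit 13) (nat_lit 53) (nat_lit 0xbc0001780002fe0f2) b9250 (.hit (nat_lit 16) (nat_lit 56) (nat_lit 0xbc0001780002fece8) b9251 (.tok (nat_lit 67) (nat_lit 0xbc0001780002ffc81) (.hit (nat_lit 14) (nat_lit 54) (nat_lit 0xbc0001780002ff6bd) b9612 (.hit (nat_lit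 17) (nat_lit 57) (nat_lit 0xbc0001780002ffc81) b9614 (.one (nat_lit 9) (nat_lit 15) (nat_lit 55) (nat_lit 0xbc0001780002ff76a) b9613 (.nil)))) (.nil)))) (.nil)))) (.one (nat_lit 70) (nat_lit 20) (nat_lit 60) (nat_lit 0xbc0001780002fecd6) b9254 (.nil)))))) (.nil))
noncomputable def r28_157 : Rw Blk := .tok (nat_lit 3) (nat_lit 0x5e0000bc00017df87afdbee) (.hit (nat_lit 61) (nat_lit 0) (nat_lit 0x5e0000bc00017dcf0afd66d) b30036 (.tok (nat_lit 6) (nat_lit 0x5e0000bc00017df87afdbee) (.hit (nat_lit 62) (nat_lit 7) (nat_lit 0x5e0000bc00017cf792fbbd1) b30037 (.hit (nat_lit 67) (nat_lit 15) (nat_lit 0x5e0000bc00017d130afbf40) b30042 (.tok (nat_lit 14) (nat_lit 0x5e0000bc00017df87afdbee) (.hit (nat_lit 63) (nat_lit 11) (nat_lit 0x5e0000bc00017da402fd15f) b30038 (.hit (nat_lit 68) (nat_lit 17) (nat_lit 0x5e0000bc00017d8b8afce50) b30043 (.one (nat_lit 9) (nat_lit 64) (nat_lit 12) (nat_lit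 0x5e0000bc00017df87afdbee) b30039 (.nil)))) (.tok (nat_lit 56) (nat_lit 0x5e0000bc00017dd22afd724) (.hit (nat_lit 65) (nat_lit 13) (nat_lit 0x5e0000bc00017db622fd3a3) b30040 (.hit (nat_lit 70) (nat_lit 19) (nat_lit 0x5e0000bc00017d9492fcf71) b30045 (.one (nat_lit 6) (nat_lit 66) (nat_lit 14) (nat_lit 0x5e0000bc00017dd22afd724) b30041 (.nil)))) (.one (nat_lit 68) (nat_lit 69) (nat_lit 18) (nat_lit 0x5e0000bc00017dc4bafd576) b30044 (.nil)))))) (.nil))) (.tok (nat_lit 9) (nat_lit 0x5e0000bc0001800003013d7) (.hit (nat_lit 0) (nat_lit 0) (nat_lit 0x5e0000bc00017e3cc2fd8bd) b30016 (.tok (nat_lit 9) (nat_lit 0x5e0000bc00017ea82afec5e) (.hit (nat_lit 1) (nat_lit 20) (nat_lit 0x5e0000bc00017dde12fc802) b30017 (.hit (nat_lit 6) (nat_lit 28) (nat_lit 0x5e0000bc00017d734afc02d) b30022 (.tok (nat_lit 14) (nat_lit 0x5e0000bc00017ea82afec5e) (.hit (nat_lit 2) (nat_lit 24) (nat_lit 0x5e0000bc00017e63dafe420)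 b30018 (.hit (nat_lit 7) (nat_lit 30) (nat_lit 0x5e0000bc00017ea82afd776) b30023 (.one (nat_lit 6) (nat_lit 3) (nat_lit 25) (nat_lit 0x5e0000bc00017e5e1afec5e) b30019 (.nil)))) (.tok (nat_lit 68) (nat_lit 0x5e0000bc00017e5fb2fdfea) (.hit (nat_lit 4) (nat_lit 26) (nat_lit 0x5e0000bc00017e590afdeaa) b30020 (.hit (nat_lit 9) (nat_lit 32) (nat_lit 0x5e0000bc00017e57bafcdd7) b30024 (.one (nat_lit 9) (nat_lit 5) (nat_lit 27) (nat_lit 0x5e0000bc00017e5fb2fdfea) b30021 (.nil)))) (.nil))))) (.tok (nat_lit 64) (nat_lit 0x5e0000bc00017e8cb2fdf11) (.hit (nat_lit 10) (nat_lit 50) (nat_lit 0x5e0000bc00017e0c1afdf11) b30025 (.hit (nat_lit 11) (nat_lit 51) (nat_lit 0x5e0000bc00017e8cb2fdd6c) b30026 (.nil))) (.tok (nat_lit 67) (nat_lit 0x5e0000bc0001800003013d7) (.hit (nat_lit 12) (nat_lit 52) (nat_lit 0x5e0000bc00017eb8c2fefb0) b30027 (.tok (nat_lit 3) (nat_lit 0x5e0000bc00017ee12aff579) (.hit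 (nat_lit 18) (nat_lit 58) (nat_lit 0x5e0000bc00017e4b52fe141) b30033 (.one (nat_lit 55) (nat_lit 19) (nat_lit 59) (nat_lit 0x5e0000bc00017ee12aff579) b30034 (.nil))) (.tok (nat_lit 9) (nat_lit 0x5e0000bc0001800003013d7) (.hit (nat_lit 13) (nat_lit 53) (nat_lit 0x5e0000bc00017ee3d2ff113) b30028 (.hit (nat_lit 16) (nat_lit 56) (nat_lit 0x5e0000bc00017ec3dafdf55) b30031 (.tok (nat_lit 67) (nat_lit 0x5e0000bc0001800003013d7) (.hit (nat_lit 14) (nat_lit 54) (nat_lit 0x5e0000bc00017fc793013d7) b30029 (.hit (nat_lit 17) (nat_lit 57) (nat_lit 0x5e0000bc00017ea48afeade) b30032 (.one (nat_lit 9) (nat_lit 15) (nat_lit 55) (nat_lit 0x5e0000bc00018000030085f) b30030 (.nil)))) (.nil)))) (.nil)))) (.one (nat_lit 70) (nat_lit 20) (nat_lit 60) (nat_lit 0x5e0000bc00017e7f22fdee4) b30035 (.nil)))))) (.nil))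
noncomputable def r28_158 : Rw Blk := .tok (nat_lit 3) (nat_lit 0x5fb792bf1a417efe02fe0885fc566bf69bd7f2a82fdc8f) (.hit (nat_lit 0) (nat_lit 0) (nat_lit 0x5fb792bf1a417efe02fe0885fc566bf69bd7f2a82fdc8f) b36073 (.tok (nat_lit 6) (nat_lit 0x5f9d3abebd357ee94afcc695f7700bf0fad7e4182fd19e) (.hit (nat_lit 1) (nat_lit 7) (nat_lit 0x5f9d3abebd357ee94afcc695f7700bf0fad7e4182fd19e) b30160 (.hit (nat_lit 6) (nat_lit 15) (nat_lit 0x5f985cbeb3797ea92afc9fa5f7222bf05f17e2e0afcf2f) b30161 (.nil))) (.tok (nat_lit 9) (nat_lit 0x5f9d3abebd357ee94afcc695f7700bf0fad7e4182fd19e) (.hit (nat_lit 10) (nat_lit 20) (nat_lit 0x5f9d3abebd357ee94afcc695f7700bf0fad7e4182fd19e) b30160 (.hit (nat_lit 15) (nat_lit 28) (nat_lit 0x5f985cbeb3797ea92afc9fa5f7222bf05f17e2e0afcf2f) b30161 (.nil))) (.nil)))) (.tok (nat_lit 6) (nat_lit 0x600000c000018000030000060161ec0000180000300000) (.hit (nat_lit 81) (nat_lit 0)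 (nat_lit 0x5fe418bf77a97f5982ff1025fe106bfbddd7f95eafef2c) b30167 (.tok (nat_lit 3) (nat_lit 0x5fe434bf51d17f8a2aff2296002f0bfc9d97fcc7aff0e8) (.hit (nat_lit 82) (nat_lit 1) (nat_lit 0x5fae12bee81d7edd92fd6af5fbf3ebf5bf17ef0aafd557) b30168 (.one (nat_lit 67) (nat_lit 83) (nat_lit 2) (nat_lit 0x5fe434bf51d17f8a2aff2296002f0bfc9d97fcc7aff0e8) b30169 (.nil))) (.tok (nat_lit 6) (nat_lit 0x600000c000018000030000060161ec0000180000300000) (.hit (nat_lit 87) (nat_lit 7) (nat_lit 0x5fd5fcbf61117f474afe46c5fda8cbf983d7f7342fe330) b30170 (.hit (nat_lit 95) (nat_lit 15) (nat_lit 0x5fb27ebee6857e9eeafd8505fc28cbf62757efdb2fd6f9) b30174 (.tok (nat_lit 55) (nat_lit 0x600000c000018000030000060161ec0000180000300000) (.hit (nat_lit 88) (nat_lit 8) (nat_lit 0x5ffd88bf9fd17f877affbb05ff78cc000017fd802ffa50) b30171 (.hit (nat_lit 96) (nat_lit 16) (nat_lit 0x5fe3aebf58897f79baff4055ff778bfd1497fdb5aff319)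 b30175 (.tok (nat_lit 6) (nat_lit 0x600000c000018000030000060161ebfe91180000300000) (.hit (nat_lit 89) (nat_lit 9) (nat_lit 0x5fe812bfbf1d7f9292ff3af600354bfcff17fd9caff2b1) b30172 (.one (nat_lit 55) (nat_lit 90) (nat_lit 10) (nat_lit 0x600000c000018000030000060161ebfe91180000300000) b30173 (.nil))) (.nil)))) (.nil)))) (.nil)))) (.tok (nat_lit 9) (nat_lit 0x5fe434bf77a97f8a2affc395fd0f0bfdfa17fd01aff753) (.hit (nat_lit 157) (nat_lit 0) (nat_lit 0x5fe418bf77a97f5982ffab65fd0f0bfdfa17fc4b2ff753) b30162 (.tok (nat_lit 3) (nat_lit 0x5fe434bf51d17f8a2affc395f9848bfcdb97fd01aff495) (.hit (nat_lit 158) (nat_lit 1) (nat_lit 0x5fae12bee81d7edd92fe0e15f66ecbf784d7f1fe2fd9b1) b30163 (.one (nat_lit 55) (nat_lit 159) (nat_lit 3) (nat_lit 0x5fe434bf51d17f8a2affc395f9848bfcdb97fd01aff495) b30164 (.nil))) (.tok (nat_lit 9) (nat_lit 0x5fd5fcbf61117f474aff06a5f8d64bfafb17fa262fe78a) (.hit (nat_lit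 163) (nat_lit 20) (nat_lit 0x5fd5fcbf61117f474aff06a5f8d64bfafb17fa262fe78a) b30165 (.hit (nat_lit 171) (nat_lit 28) (nat_lit 0x5fb27ebee6857e9eeafe2825f55fcbf7ed17f2ceafdb52) b30166 (.nil))) (.nil)))) (.nil)))
noncomputable def r28_159 : Rw Blk := .tok (nat_lit 6) (nat_lit 0xbc0001780002ffecc) (.hit (nat_lit 51) (nat_lit 0) (nat_lit 0xbc0001780002ff743) b8943 (.tok (nat_lit 3) (nat_lit 0xbc0001780002ffecc) (.hit (nat_lit 52) (nat_lit 1) (nat_lit 0xbc0001780002fdccb) b8944 (.one (nat_lit 14) (nat_lit 53) (nat_lit 4) (nat_lit 0xbc0001780002ffecc) b9239 (.one (nat_lit 56) (nat_lit 55) (nat_lit 6) (nat_lit 0xbc0001780002ff720) b8945 (.one (nat_lit 68) (nat_lit 54) (nat_lit 5) (nat_lit 0xbc0001780002fef3e) b8946 (.nil))))) (.nil))) (.tok (nat_lit 9) (nat_lit 0xbc000178000300000) (.hit (nat_lit 0) (nat_lit 0) (nat_lit 0xbc0001780002ff743) b8943 (.tok (nat_lit 3) (nat_lit 0xbc0001780002ffecc)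 (.hit (nat_lit 1) (nat_lit 1) (nat_lit 0xbc0001780002fdccb) b8944 (.one (nat_lit 14) (nat_lit 2) (nat_lit 4) (nat_lit 0xbc0001780002ffecc) b9239 (.one (nat_lit 56) (nat_lit 4) (nat_lit 6) (nat_lit 0xbc0001780002fef3e) b8946 (.one (nat_lit 68) (nat_lit 3) (nat_lit 5) (nat_lit 0xbc0001780002ff720) b8945 (.nil))))) (.tok (nat_lit 40) (nat_lit 0xbc0001780002ff5de) (.hit (nat_lit 5) (nat_lit 33) (nat_lit 0xbc0001780002ff5de) b8947 (.hit (nat_lit 6) (nat_lit 34) (nat_lit 0xbc0001780002ff3d8) b8948 (.nil))) (.tok (nat_lit 43) (nat_lit 0xbc0001780002ffbd8) (.hit (nat_lit 7) (nat_lit 35) (nat_lit 0xbc0001780002fe56f) b8949 (.hit (nat_lit 8) (nat_lit 36) (nat_lit 0xbc0001780002ffbd8) b8950 (.nil))) (.tok (nat_lit 46) (nat_lit 0xbc000178000300000) (.hit (nat_lit 9) (nat_lit 37) (nat_lit 0xbc000178000300000) b8951 (.hit (nat_lit 10) (nat_lit 38) (nat_lit 0xbc0001780002ff6ae) b8952 (.nil)))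 (.nil)))))) (.nil))
noncomputable def r28_160 : Rw Blk := .tok (nat_lit 3) (nat_lit 0xbc0001780002fddcf) (.hit (nat_lit 61) (nat_lit 0) (nat_lit 0xbc0001780002fd208) b9255 (.tok (nat_lit 9) (nat_lit 0xbc0001780002fcdbc) (.hit (nat_lit 62) (nat_lit 20) (nat_lit 0xbc0001780002fbbb6) b9256 (.hit (nat_lit 67) (nat_lit 28) (nat_lit 0xbc0001780002fad94) b9261 (.tok (nat_lit 14) (nat_lit 0xbc0001780002fcdbc) (.hit (nat_lit 63) (nat_lit 24) (nat_lit 0xbc0001780002fbdc9) b9257 (.hit (nat_lit 68) (nat_lit 30) (nat_lit 0xbc0001780002fc1ab) b9262 (.one (nat_lit 6) (nat_lit 64) (nat_lit 25) (nat_lit 0xbc0001780002fcdbc) b9258 (.nil)))) (.one (nat_lit 56) (nat_lit 69) (nat_lit 31) (nat_lit 0xbc0001780002fc012) b9263 (.nil))))) (.tok (nat_lit 64) (nat_lit 0xbc0001780002fc6cc) (.hit (nat_lit 71) (nat_lit 50) (nat_lit 0xbc0001780002fbf49) b9265 (.hit (nat_lit 72) (nat_lit 51) (nat_lit 0xbc0001780002fc6cc)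 b9266 (.nil))) (.tok (nat_lit 67) (nat_lit 0xbc0001780002fddcf) (.hit (nat_lit 73) (nat_lit 52) (nat_lit 0xbc0001780002fdd53) b9267 (.tok (nat_lit 3) (nat_lit 0xbc0001780002fddcf) (.hit (nat_lit 79) (nat_lit 58) (nat_lit 0xbc0001780002fd372) b9273 (.one (nat_lit 55) (nat_lit 80) (nat_lit 59) (nat_lit 0xbc0001780002fddcf) b9274 (.nil))) (.tok (nat_lit 9) (nat_lit 0xbc0001780002fcbbd) (.hit (nat_lit 74) (nat_lit 53) (nat_lit 0xbc0001780002fc8b0) b9268 (.hit (nat_lit 77) (nat_lit 56) (nat_lit 0xbc0001780002fcbbd) b9271 (.nil))) (.nil)))) (.one (nat_lit 70) (nat_lit 81) (nat_lit 60) (nat_lit 0xbc0001780002fc77b) b9275 (.nil)))))) (.tok (nat_lit 6) (nat_lit 0xbc000178000300000) (.hit (nat_lit 0) (nat_lit 0) (nat_lit 0xbc0001780002feaff) b9240 (.tok (nat_lit 6) (nat_lit 0xbc0001780002fffbd) (.hit (nat_lit 1) (nat_lit 7) (nat_lit 0xbc0001780002fd887) b9241 (.hit (nat_lit 6) (nat_lit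 15) (nat_lit 0xbc0001780002fc60a) b9244 (.tok (nat_lit 14) (nat_lit 0xbc0001780002ff817) (.hit (nat_lit 2) (nat_lit 11) (nat_lit 0xbc0001780002ff817) b9242 (.hit (nat_lit 7) (nat_lit 17) (nat_lit 0xbc0001780002fe65c) b9245 (.one (nat_lit 9) (nat_lit 3) (nat_lit 12) (nat_lit 0xbc0001780002ff6cc) b9243 (.nil)))) (.tok (nat_lit 56) (nat_lit 0xbc0001780002fffbd) (.hit (nat_lit 4) (nat_lit 13) (nat_lit 0xbc0001780002fef99) b9609 (.hit (nat_lit 9) (nat_lit 19) (nat_lit 0xbc0001780002fd621) b9611 (.one (nat_lit 6) (nat_lit 5) (nat_lit 14) (nat_lit 0xbc0001780002fffbd) b9610 (.nil)))) (.one (nat_lit 68) (nat_lit 8) (nat_lit 18) (nat_lit 0xbc0001780002fdb1d) b9246 (.nil)))))) (.tok (nat_lit 52) (nat_lit 0xbc0001780002feaaa) (.hit (nat_lit 10) (nat_lit 39) (nat_lit 0xbc0001780002fdd77) b9247 (.hit (nat_lit 11) (nat_lit 40) (nat_lit 0xbc0001780002feaaa) b9248 (.nil))) (.tok (nat_lit 55)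 (nat_lit 0xbc000178000300000) (.hit (nat_lit 12) (nat_lit 41) (nat_lit 0xbc0001780002ff885) b9249 (.tok (nat_lit 3) (nat_lit 0xbc000178000300000) (.hit (nat_lit 18) (nat_lit 47) (nat_lit 0xbc0001780002fec8d) b9252 (.one (nat_lit 67) (nat_lit 19) (nat_lit 48) (nat_lit 0xbc000178000300000) b9253 (.nil))) (.tok (nat_lit 6) (nat_lit 0xbc0001780002ffc81) (.hit (nat_lit 13) (nat_lit 42) (nat_lit 0xbc0001780002fe0f2) b9250 (.hit (nat_lit 16) (nat_lit 45) (nat_lit 0xbc0001780002fece8) b9251 (.tok (nat_lit 55) (nat_lit 0xbc0001780002ffc81) (.hit (nat_lit 14) (nat_lit 43) (nat_lit 0xbc0001780002ff6bd) b9612 (.hit (nat_lit 17) (nat_lit 46) (nat_lit 0xbc0001780002ffc81) b9614 (.one (nat_lit 6) (nat_lit 15) (nat_lit 44) (nat_lit 0xbc0001780002ff76a) b9613 (.nil)))) (.nil)))) (.nil)))) (.one (nat_lit 58) (nat_lit 20) (nat_lit 49) (nat_lit 0xbc0001780002fecd6) b9254 (.nil)))))) (.nil))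
noncomputable def r28_161 : Rw Blk := .tok (nat_lit 3) (nat_lit 0xbc0001780002fce3b) (.hit (nat_lit 61) (nat_lit 0) (nat_lit 0xbc0001780002fb9e1) b9059 (.tok (nat_lit 9) (nat_lit 0xbc0001780002fbf0f) (.hit (nat_lit 62) (nat_lit 20) (nat_lit 0xbc0001780002f9ef2) b9060 (.hit (nat_lit 67) (nat_lit 28) (nat_lit 0xbc0001780002fa261) b9063 (.tok (nat_lit 14) (nat_lit 0xbc0001780002fbf0f) (.hit (nat_lit 63) (nat_lit 24) (nat_lit 0xbc0001780002fb480) b30180 (.hit (nat_lit 68) (nat_lit 30) (nat_lit 0xbc0001780002fb171) b30182 (.one (nat_lit 6) (nat_lit 64) (nat_lit 25) (nat_lit 0xbc0001780002fbf0f) b30181 (.nil)))) (.one (nat_lit 56) (nat_lit 69) (nat_lit 31) (nat_lit 0xbc0001780002fb897) b9064 (.nil))))) (.tok (nat_lit 64) (nat_lit 0xbc0001780002fbcb0) (.hit (nat_lit 71) (nat_lit 50) (nat_lit 0xbc0001780002fb57a) b9066 (.hit (nat_lit 72) (nat_lit 51) (nat_lit 0xbc0001780002fbcb0) b9067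 (.nil))) (.tok (nat_lit 67) (nat_lit 0xbc0001780002fce3b) (.hit (nat_lit 73) (nat_lit 52) (nat_lit 0xbc0001780002fcc4c) b9068 (.tok (nat_lit 3) (nat_lit 0xbc0001780002fcc93) (.hit (nat_lit 79) (nat_lit 58) (nat_lit 0xbc0001780002fc4e1) b9074 (.one (nat_lit 55) (nat_lit 80) (nat_lit 59) (nat_lit 0xbc0001780002fcc93) b30183 (.nil))) (.tok (nat_lit 9) (nat_lit 0xbc0001780002fce3b) (.hit (nat_lit 74) (nat_lit 53) (nat_lit 0xbc0001780002fce3b) b9069 (.hit (nat_lit 77) (nat_lit 56) (nat_lit 0xbc0001780002fbb9c) b9072 (.nil))) (.nil)))) (.one (nat_lit 70) (nat_lit 81) (nat_lit 60) (nat_lit 0xbc0001780002fbc40) b9075 (.nil)))))) (.tok (nat_lit 6) (nat_lit 0xbc000178000300000) (.hit (nat_lit 0) (nat_lit 0) (nat_lit 0xbc0001780002fc798) b9042 (.tok (nat_lit 6) (nat_lit 0xbc0001780002fd505) (.hit (nat_lit 1) (nat_lit 7) (nat_lit 0xbc0001780002fbbc2) b9043 (.hit (nat_lit 6) (nat_lit 15) (nat_lit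 0xbc0001780002fae69) b9046 (.tok (nat_lit 14) (nat_lit 0xbc0001780002fd505) (.hit (nat_lit 2) (nat_lit 11) (nat_lit 0xbc0001780002fcc7b) b30176 (.hit (nat_lit 7) (nat_lit 17) (nat_lit 0xbc0001780002fd505) b30178 (.one (nat_lit 9) (nat_lit 3) (nat_lit 12) (nat_lit 0xbc0001780002fcbc3) b30177 (.nil)))) (.tok (nat_lit 56) (nat_lit 0xbc0001780002fcbf6) (.hit (nat_lit 4) (nat_lit 13) (nat_lit 0xbc0001780002fcb21) b9044 (.hit (nat_lit 9) (nat_lit 19) (nat_lit 0xbc0001780002fcaf7) b9048 (.one (nat_lit 6) (nat_lit 5) (nat_lit 14) (nat_lit 0xbc0001780002fcbf6) b9045 (.nil)))) (.one (nat_lit 68) (nat_lit 8) (nat_lit 18) (nat_lit 0xbc0001780002fcb53) b9047 (.nil)))))) (.tok (nat_lit 52) (nat_lit 0xbc0001780002fd196) (.hit (nat_lit 10) (nat_lit 39) (nat_lit 0xbc0001780002fc183) b9049 (.hit (nat_lit 11) (nat_lit 40) (nat_lit 0xbc0001780002fd196) b9050 (.nil))) (.tok (nat_lit 55) (nat_lit 0xbc000178000300000)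 (.hit (nat_lit 12) (nat_lit 41) (nat_lit 0xbc0001780002fd718) b9051 (.tok (nat_lit 3) (nat_lit 0xbc0001780002fdc25) (.hit (nat_lit 18) (nat_lit 47) (nat_lit 0xbc0001780002fc96a) b9057 (.one (nat_lit 67) (nat_lit 19) (nat_lit 48) (nat_lit 0xbc0001780002fdc25) b30179 (.nil))) (.tok (nat_lit 6) (nat_lit 0xbc000178000300000) (.hit (nat_lit 13) (nat_lit 42) (nat_lit 0xbc0001780002fdc7a) b9052 (.hit (nat_lit 16) (nat_lit 45) (nat_lit 0xbc0001780002fd87b) b9055 (.tok (nat_lit 55) (nat_lit 0xbc000178000300000) (.hit (nat_lit 14) (nat_lit 43) (nat_lit 0xbc0001780002ff8f2) b9053 (.hit (nat_lit 17) (nat_lit 46) (nat_lit 0xbc0001780002fd491) b9056 (.one (nat_lit 6) (nat_lit 15) (nat_lit 44) (nat_lit 0xbc000178000300000) b9054 (.nil)))) (.nil)))) (.nil)))) (.one (nat_lit 58) (nat_lit 20) (nat_lit 49) (nat_lit 0xbc0001780002fcfe4) b9058 (.nil)))))) (.nil))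
noncomputable def r28_162 : Rw Blk := .tok (nat_lit 3) (nat_lit 0xbc0001780002fde12) (.hit (nat_lit 61) (nat_lit 0) (nat_lit 0xbc0001780002fd24b) b8970 (.tok (nat_lit 6) (nat_lit 0xbc0001780002fd581) (.hit (nat_lit 62) (nat_lit 7) (nat_lit 0xbc0001780002fbbf9) b8971 (.hit (nat_lit 67) (nat_lit 15) (nat_lit 0xbc0001780002fadd7) b8974 (.tok (nat_lit 14) (nat_lit 0xbc0001780002fcdff) (.hit (nat_lit 63) (nat_lit 11) (nat_lit 0xbc0001780002fbe0c) b9665 (.hit (nat_lit 68) (nat_lit 17) (nat_lit 0xbc0001780002fc1ee) b9667 (.one (nat_lit 9) (nat_lit 64) (nat_lit 12) (nat_lit 0xbc0001780002fcdff) b9666 (.nil)))) (.tok (nat_lit 56) (nat_lit 0xbc0001780002fd581) (.hit (nat_lit 65) (nat_lit 13) (nat_lit 0xbc0001780002fcd73) b8972 (.hit (nat_lit 70) (nat_lit 19) (nat_lit 0xbc0001780002fbed5) b8976 (.one (nat_lit 6) (nat_lit 66) (nat_lit 14) (nat_lit 0xbc0001780002fd581) b8973 (.nil)))) (.nil)))))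 (.tok (nat_lit 52) (nat_lit 0xbc0001780002fc70f) (.hit (nat_lit 71) (nat_lit 39) (nat_lit 0xbc0001780002fbf8c) b8977 (.hit (nat_lit 72) (nat_lit 40) (nat_lit 0xbc0001780002fc70f) b8978 (.nil))) (.tok (nat_lit 55) (nat_lit 0xbc0001780002fde12) (.hit (nat_lit 73) (nat_lit 41) (nat_lit 0xbc0001780002fdd96) b8979 (.tok (nat_lit 3) (nat_lit 0xbc0001780002fde12) (.hit (nat_lit 79) (nat_lit 47) (nat_lit 0xbc0001780002fd3b5) b8985 (.one (nat_lit 67) (nat_lit 80) (nat_lit 48) (nat_lit 0xbc0001780002fde12) b9668 (.nil))) (.tok (nat_lit 6) (nat_lit 0xbc0001780002fd8c9) (.hit (nat_lit 74) (nat_lit 42) (nat_lit 0xbc0001780002fc8f3) b8980 (.hit (nat_lit 77) (nat_lit 45) (nat_lit 0xbc0001780002fcc00) b8983 (.tok (nat_lit 55) (nat_lit 0xbc0001780002fd8c9) (.hit (nat_lit 75) (nat_lit 43) (nat_lit 0xbc0001780002fd809) b8981 (.hit (nat_lit 78) (nat_lit 46) (nat_lit 0xbc0001780002fd8c9) b8984 (.one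 (nat_lit 6) (nat_lit 76) (nat_lit 44) (nat_lit 0xbc0001780002fd3cd) b8982 (.nil)))) (.nil)))) (.nil)))) (.one (nat_lit 58) (nat_lit 81) (nat_lit 49) (nat_lit 0xbc0001780002fc7be) b8986 (.nil)))))) (.tok (nat_lit 9) (nat_lit 0xbc000178000300000) (.hit (nat_lit 0) (nat_lit 0) (nat_lit 0xbc0001780002feb42) b8953 (.tok (nat_lit 9) (nat_lit 0xbc000178000300000) (.hit (nat_lit 1) (nat_lit 20) (nat_lit 0xbc0001780002fd8ca) b8954 (.hit (nat_lit 6) (nat_lit 28) (nat_lit 0xbc0001780002fc64d) b8957 (.tok (nat_lit 14) (nat_lit 0xbc0001780002ff85a) (.hit (nat_lit 2) (nat_lit 24) (nat_lit 0xbc0001780002ff85a) b9662 (.hit (nat_lit 7) (nat_lit 30) (nat_lit 0xbc0001780002fe69f) b9664 (.one (nat_lit 6) (nat_lit 3) (nat_lit 25) (nat_lit 0xbc0001780002ff70f) b9663 (.nil)))) (.one (nat_lit 56) (nat_lit 8) (nat_lit 31) (nat_lit 0xbc0001780002fdb60) b8958 (.tok (nat_lit 68) (nat_lit 0xbc000178000300000)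 (.hit (nat_lit 4) (nat_lit 26) (nat_lit 0xbc0001780002fefdc) b8955 (.hit (nat_lit 9) (nat_lit 32) (nat_lit 0xbc0001780002fd664) b8959 (.one (nat_lit 9) (nat_lit 5) (nat_lit 27) (nat_lit 0xbc000178000300000) b8956 (.nil)))) (.nil)))))) (.nil))) (.nil))
noncomputable def r28_163 : Rw Blk := .tok (nat_lit 3) (nat_lit 0xbc000178000300000) (.hit (nat_lit 61) (nat_lit 0) (nat_lit 0xbc0001780002fe458) b9679 (.tok (nat_lit 6) (nat_lit 0xbc0001780002fe986) (.hit (nat_lit 62) (nat_lit 7) (nat_lit 0xbc0001780002fc969) b9680 (.hit (nat_lit 67) (nat_lit 15) (nat_lit 0xbc0001780002fccd8) b9685 (.tok (nat_lit 14) (nat_lit 0xbc0001780002fe986) (.hit (nat_lit 63) (nat_lit 11) (nat_lit 0xbc0001780002fdef7) b9681 (.hit (nat_lit 68) (nat_lit 17) (nat_lit 0xbc0001780002fdbe8) b9686 (.one (nat_lit 9) (nat_lit 64) (nat_lit 12) (nat_lit 0xbc0001780002fe986) b9682 (.nil)))) (.tok (nat_lit 56) (nat_lit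 0xbc0001780002fe4bc) (.hit (nat_lit 65) (nat_lit 13) (nat_lit 0xbc0001780002fe13b) b9683 (.hit (nat_lit 70) (nat_lit 19) (nat_lit 0xbc0001780002fdd09) b9687 (.one (nat_lit 6) (nat_lit 66) (nat_lit 14) (nat_lit 0xbc0001780002fe4bc) b9684 (.nil)))) (.nil))))) (.tok (nat_lit 52) (nat_lit 0xbc0001780002fe727) (.hit (nat_lit 71) (nat_lit 39) (nat_lit 0xbc0001780002fdff1) b9688 (.hit (nat_lit 72) (nat_lit 40) (nat_lit 0xbc0001780002fe727) b9689 (.nil))) (.tok (nat_lit 55) (nat_lit 0xbc000178000300000) (.hit (nat_lit 73) (nat_lit 41) (nat_lit 0xbc0001780002ff6c3) b9690 (.tok (nat_lit 3) (nat_lit 0xbc0001780002ff70a) (.hit (nat_lit 79) (nat_lit 47) (nat_lit 0xbc0001780002fef58) b9696 (.one (nat_lit 67) (nat_lit 80) (nat_lit 48) (nat_lit 0xbc0001780002ff70a) b9697 (.nil))) (.tok (nat_lit 6) (nat_lit 0xbc000178000300000) (.hit (nat_lit 74) (nat_lit 42) (nat_lit 0xbc0001780002ff8b2) b9691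 (.hit (nat_lit 77) (nat_lit 45) (nat_lit 0xbc0001780002fe613) b9694 (.tok (nat_lit 55) (nat_lit 0xbc000178000300000) (.hit (nat_lit 75) (nat_lit 43) (nat_lit 0xbc000178000300000) b9692 (.hit (nat_lit 78) (nat_lit 46) (nat_lit 0xbc0001780002ff758) b9695 (.one (nat_lit 6) (nat_lit 76) (nat_lit 44) (nat_lit 0xbc0001780002ff868) b9693 (.nil)))) (.nil)))) (.nil)))) (.one (nat_lit 58) (nat_lit 81) (nat_lit 49) (nat_lit 0xbc0001780002fe6b7) b9698 (.nil)))))) (.tok (nat_lit 9) (nat_lit 0xbc0001780002fff7c) (.hit (nat_lit 0) (nat_lit 0) (nat_lit 0xbc0001780002ff20f) b9669 (.tok (nat_lit 9) (nat_lit 0xbc0001780002fff7c) (.hit (nat_lit 1) (nat_lit 20) (nat_lit 0xbc0001780002fe639) b9670 (.hit (nat_lit 6) (nat_lit 28) (nat_lit 0xbc0001780002fd8e0) b9675 (.tok (nat_lit 14) (nat_lit 0xbc0001780002fff7c) (.hit (nat_lit 2) (nat_lit 24) (nat_lit 0xbc0001780002ff6f2) b9671 (.hit (nat_lit 7) (nat_lit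 30) (nat_lit 0xbc0001780002fff7c) b9676 (.one (nat_lit 6) (nat_lit 3) (nat_lit 25) (nat_lit 0xbc0001780002ff63a) b9672 (.nil)))) (.one (nat_lit 56) (nat_lit 8) (nat_lit 31) (nat_lit 0xbc0001780002ff5ca) b9677 (.tok (nat_lit 68) (nat_lit 0xbc0001780002ff66d) (.hit (nat_lit 4) (nat_lit 26) (nat_lit 0xbc0001780002ff598) b9673 (.hit (nat_lit 9) (nat_lit 32) (nat_lit 0xbc0001780002ff56e) b9678 (.one (nat_lit 9) (nat_lit 5) (nat_lit 27) (nat_lit 0xbc0001780002ff66d) b9674 (.nil)))) (.nil)))))) (.nil))) (.nil))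
noncomputable def r28_164 : Rw Blk := .tok (nat_lit 3) (nat_lit 0x17ede4afc6905fbf80bf7b297ed22afdc4c) (.hit (nat_lit 0) (nat_lit 0) (nat_lit 0x17ede4afc6905fbf80bf7b297ed22afdc4c) b36074 (.tok (nat_lit 6) (nat_lit 0x17e74eafaf4d5fba52bf46797e34d2fce61) (.hit (nat_lit 1) (nat_lit 7) (nat_lit 0x17e74eafaf4d5fba52bf46797e34d2fce61) b30107 (.hit (nat_lit 6) (nat_lit 15) (nat_lit 0x17e6172facde5faa4abf3cbd7e215afcbf2) b30108 (.nil))) (.tok (nat_lit 9) (nat_lit 0x17e74eafaf4d5fba52bf46797e34d2fce61) (.hit (nat_lit 10) (nat_lit 20) (nat_lit 0x17e74eafaf4d5fba52bf46797e34d2fce61) b30107 (.hit (nat_lit 15) (nat_lit 28) (nat_lit 0x17e6172facde5faa4abf3cbd7e215afcbf2) b30108 (.nil))) (.nil)))) (.tok (nat_lit 6) (nat_lit 0x17f90d2fddea5fe28abff1c97fcb22ff4e8) (.hit (nat_lit 81) (nat_lit 0) (nat_lit 0x17f9062fddea5fd660bfe3e17fbdf2ff343) b30118 (.tok (nat_lit 3) (nat_lit 0x17f90d2fd4745fe28abff1c97fcb22ff4e8)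 (.hit (nat_lit 82) (nat_lit 1) (nat_lit 0x17eb84afba075fb764bf7c8d7eef4afd96e) b30119 (.one (nat_lit 67) (nat_lit 83) (nat_lit 2) (nat_lit 0x17f90d2fd4745fe28abff1c97fcb22ff4e8) b30120 (.nil))) (.tok (nat_lit 6) (nat_lit 0x17f57f2fd8445fd1d2bfb5d17f5e12fe747) (.hit (nat_lit 87) (nat_lit 7) (nat_lit 0x17f57f2fd8445fd1d2bfb5d17f5e12fe747) b30121 (.hit (nat_lit 95) (nat_lit 15) (nat_lit 0x17ec9fafb9a15fa7babf83117efc52fdb0f) b30122 (.nil))) (.nil)))) (.tok (nat_lit 9) (nat_lit 0x180000300000600000c0000180000300000) (.hit (nat_lit 157) (nat_lit 0) (nat_lit 0x17f9062fddea5fd660bfbd117f856afeeeb) b30109 (.tok (nat_lit 3) (nat_lit 0x17f90d2fd4745fe28abfc1b17f9262ff1f3) (.hit (nat_lit 158) (nat_lit 1) (nat_lit 0x17eb84afba075fb764bf53c57eb692fd530) b30110 (.one (nat_lit 55) (nat_lit 159) (nat_lit 3) (nat_lit 0x17f90d2fd4745fe28abfc1b17f9262ff1f3) b30111 (.nil))) (.tok (nat_lit 9) (nat_lit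 0x180000300000600000c0000180000300000) (.hit (nat_lit 163) (nat_lit 20) (nat_lit 0x17f57f2fd8445fd1d2bf8ab97f2df2fe2fa) b30112 (.hit (nat_lit 171) (nat_lit 28) (nat_lit 0x17ec9fafb9a15fa7babf5a497ec39afd6f2) b30116 (.tok (nat_lit 67) (nat_lit 0x180000300000600000c0000180000300000) (.hit (nat_lit 164) (nat_lit 21) (nat_lit 0x17ff622fe7f45fe1debff7217fed0affde6) b30113 (.hit (nat_lit 172) (nat_lit 29) (nat_lit 0x17f8ebafd6225fde6ebfc91d7fa142ff4a6) b30117 (.tok (nat_lit 9) (nat_lit 0x180000300000600000c0000180000300000) (.hit (nat_lit 165) (nat_lit 22) (nat_lit 0x17fa04afefc75fe4a4bfcac57f9e92ff312) b30114 (.one (nat_lit 67) (nat_lit 166) (nat_lit 23) (nat_lit 0x180000300000600000c0000180000300000) b30115 (.nil))) (.nil)))) (.nil)))) (.nil)))) (.nil)))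
noncomputable def r28_165 : Rw Blk := .tok (nat_lit 6) (nat_lit 0xbc000178000300000) (.hit (nat_lit 51) (nat_lit 0) (nat_lit 0xbc0001780002ff743) b8943 (.tok (nat_lit 3) (nat_lit 0xbc0001780002ffecc) (.hit (nat_lit 52) (nat_lit 1) (nat_lit 0xbc0001780002fdccb) b8944 (.one (nat_lit 14) (nat_lit 53) (nat_lit 4) (nat_lit 0xbc0001780002ffecc) b9239 (.one (nat_lit 56) (nat_lit 55) (nat_lit 6) (nat_lit 0xbc0001780002ff720) b8945 (.one (nat_lit 68) (nat_lit 54) (nat_lit 5) (nat_lit 0xbc0001780002fef3e) b8946 (.nil))))) (.tok (nat_lit 40) (nat_lit 0xbc0001780002ff5de) (.hit (nat_lit 56) (nat_lit 33) (nat_lit 0xbc0001780002ff5de) b8947 (.hit (nat_lit 57) (nat_lit 34) (nat_lit 0xbc0001780002ff3d8) b8948 (.nil))) (.tok (nat_lit 43) (nat_lit 0xbc000178000300000) (.hit (nat_lit 58) (nat_lit 35) (nat_lit 0xbc000178000300000) b8951 (.hit (nat_lit 59) (nat_lit 36) (nat_lit 0xbc0001780002ff6ae)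 b8952 (.nil))) (.tok (nat_lit 46) (nat_lit 0xbc0001780002ffbd8) (.hit (nat_lit 60) (nat_lit 37) (nat_lit 0xbc0001780002fe56f) b8949 (.hit (nat_lit 61) (nat_lit 38) (nat_lit 0xbc0001780002ffbd8) b8950 (.nil))) (.nil)))))) (.tok (nat_lit 9) (nat_lit 0xbc0001780002ffecc) (.hit (nat_lit 0) (nat_lit 0) (nat_lit 0xbc0001780002ff743) b8943 (.tok (nat_lit 3) (nat_lit 0xbc0001780002ffecc) (.hit (nat_lit 1) (nat_lit 1) (nat_lit 0xbc0001780002fdccb) b8944 (.one (nat_lit 14) (nat_lit 2) (nat_lit 4) (nat_lit 0xbc0001780002ffecc) b9239 (.one (nat_lit 56) (nat_lit 4) (nat_lit 6) (nat_lit 0xbc0001780002fef3e) b8946 (.one (nat_lit 68) (nat_lit 3) (nat_lit 5) (nat_lit 0xbc0001780002ff720) b8945 (.nil))))) (.nil))) (.nil))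
noncomputable def r28_166 : Rw Blk := .tok (nat_lit 3) (nat_lit 0xbc0001780002fde12) (.hit (nat_lit 61) (nat_lit 0) (nat_lit 0xbc0001780002fd24b) b8970 (.tok (nat_lit 9) (nat_lit 0xbc0001780002fd581) (.hit (nat_lit 62) (nat_lit 20) (nat_lit 0xbc0001780002fbbf9) b8971 (.hit (nat_lit 67) (nat_lit 28) (nat_lit 0xbc0001780002fadd7) b8974 (.tok (nat_lit 14) (nat_lit 0xbc0001780002fcdff) (.hit (nat_lit 63) (nat_lit 24) (nat_lit 0xbc0001780002fbe0c) b9665 (.hit (nat_lit 68) (nat_lit 30) (nat_lit 0xbc0001780002fc1ee) b9667 (.one (nat_lit 6) (nat_lit 64) (nat_lit 25) (nat_lit 0xbc0001780002fcdff) b9666 (.nil)))) (.tok (nat_lit 68) (nat_lit 0xbc0001780002fd581) (.hit (nat_lit 65) (nat_lit 26) (nat_lit 0xbc0001780002fcd73) b8972 (.hit (nat_lit 70) (nat_lit 32) (nat_lit 0xbc0001780002fbed5) b8976 (.one (nat_lit 9) (nat_lit 66) (nat_lit 27) (nat_lit 0xbc0001780002fd581) b8973 (.nil)))) (.nil)))))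 (.tok (nat_lit 64) (nat_lit 0xbc0001780002fc70f) (.hit (nat_lit 71) (nat_lit 50) (nat_lit 0xbc0001780002fbf8c) b8977 (.hit (nat_lit 72) (nat_lit 51) (nat_lit 0xbc0001780002fc70f) b8978 (.nil))) (.tok (nat_lit 67) (nat_lit 0xbc0001780002fde12) (.hit (nat_lit 73) (nat_lit 52) (nat_lit 0xbc0001780002fdd96) b8979 (.tok (nat_lit 3) (nat_lit 0xbc0001780002fde12) (.hit (nat_lit 79) (nat_lit 58) (nat_lit 0xbc0001780002fd3b5) b8985 (.one (nat_lit 55) (nat_lit 80) (nat_lit 59) (nat_lit 0xbc0001780002fde12) b9668 (.nil))) (.tok (nat_lit 9) (nat_lit 0xbc0001780002fd8c9) (.hit (nat_lit 74) (nat_lit 53) (nat_lit 0xbc0001780002fc8f3) b8980 (.hit (nat_lit 77) (nat_lit 56) (nat_lit 0xbc0001780002fcc00) b8983 (.tok (nat_lit 67) (nat_lit 0xbc0001780002fd8c9) (.hit (nat_lit 75) (nat_lit 54) (nat_lit 0xbc0001780002fd809) b8981 (.hit (nat_lit 78) (nat_lit 57) (nat_lit 0xbc0001780002fd8c9) b8984 (.one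 (nat_lit 9) (nat_lit 76) (nat_lit 55) (nat_lit 0xbc0001780002fd3cd) b8982 (.nil)))) (.nil)))) (.nil)))) (.one (nat_lit 70) (nat_lit 81) (nat_lit 60) (nat_lit 0xbc0001780002fc7be) b8986 (.nil)))))) (.tok (nat_lit 6) (nat_lit 0xbc000178000300000) (.hit (nat_lit 0) (nat_lit 0) (nat_lit 0xbc0001780002feb42) b8953 (.tok (nat_lit 6) (nat_lit 0xbc000178000300000) (.hit (nat_lit 1) (nat_lit 7) (nat_lit 0xbc0001780002fd8ca) b8954 (.hit (nat_lit 6) (nat_lit 15) (nat_lit 0xbc0001780002fc64d) b8957 (.tok (nat_lit 14) (nat_lit 0xbc0001780002ff85a) (.hit (nat_lit 2) (nat_lit 11) (nat_lit 0xbc0001780002ff85a) b9662 (.hit (nat_lit 7) (nat_lit 17) (nat_lit 0xbc0001780002fe69f) b9664 (.one (nat_lit 9) (nat_lit 3) (nat_lit 12) (nat_lit 0xbc0001780002ff70f) b9663 (.nil)))) (.tok (nat_lit 56) (nat_lit 0xbc000178000300000) (.hit (nat_lit 4) (nat_lit 13) (nat_lit 0xbc0001780002fefdc) b8955 (.hit (nat_lit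 9) (nat_lit 19) (nat_lit 0xbc0001780002fd664) b8959 (.one (nat_lit 6) (nat_lit 5) (nat_lit 14) (nat_lit 0xbc000178000300000) b8956 (.nil)))) (.one (nat_lit 68) (nat_lit 8) (nat_lit 18) (nat_lit 0xbc0001780002fdb60) b8958 (.nil)))))) (.nil))) (.nil))
noncomputable def r28_167 : Rw Blk := .tok (nat_lit 3) (nat_lit 0xbc000178000300000) (.hit (nat_lit 61) (nat_lit 0) (nat_lit 0xbc0001780002fe458) b9679 (.tok (nat_lit 9) (nat_lit 0xbc0001780002fe986) (.hit (nat_lit 62) (nat_lit 20) (nat_lit 0xbc0001780002fc969) b9680 (.hit (nat_lit 67) (nat_lit 28) (nat_lit 0xbc0001780002fccd8) b9685 (.tok (nat_lit 14) (nat_lit 0xbc0001780002fe986) (.hit (nat_lit 63) (nat_lit 24) (nat_lit 0xbc0001780002fdef7) b9681 (.hit (nat_lit 68) (nat_lit 30) (nat_lit 0xbc0001780002fdbe8) b9686 (.one (nat_lit 6) (nat_lit 64) (nat_lit 25) (nat_lit 0xbc0001780002fe986) b9682 (.nil)))) (.tok (nat_lit 68) (nat_lit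 0xbc0001780002fe4bc) (.hit (nat_lit 65) (nat_lit 26) (nat_lit 0xbc0001780002fe13b) b9683 (.hit (nat_lit 70) (nat_lit 32) (nat_lit 0xbc0001780002fdd09) b9687 (.one (nat_lit 9) (nat_lit 66) (nat_lit 27) (nat_lit 0xbc0001780002fe4bc) b9684 (.nil)))) (.nil))))) (.tok (nat_lit 64) (nat_lit 0xbc0001780002fe727) (.hit (nat_lit 71) (nat_lit 50) (nat_lit 0xbc0001780002fdff1) b9688 (.hit (nat_lit 72) (nat_lit 51) (nat_lit 0xbc0001780002fe727) b9689 (.nil))) (.tok (nat_lit 67) (nat_lit 0xbc000178000300000) (.hit (nat_lit 73) (nat_lit 52) (nat_lit 0xbc0001780002ff6c3) b9690 (.tok (nat_lit 3) (nat_lit 0xbc0001780002ff70a) (.hit (nat_lit 79) (nat_lit 58) (nat_lit 0xbc0001780002fef58) b9696 (.one (nat_lit 55) (nat_lit 80) (nat_lit 59) (nat_lit 0xbc0001780002ff70a) b9697 (.nil))) (.tok (nat_lit 9) (nat_lit 0xbc000178000300000) (.hit (nat_lit 74) (nat_lit 53) (nat_lit 0xbc0001780002ff8b2) b9691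 (.hit (nat_lit 77) (nat_lit 56) (nat_lit 0xbc0001780002fe613) b9694 (.tok (nat_lit 67) (nat_lit 0xbc000178000300000) (.hit (nat_lit 75) (nat_lit 54) (nat_lit 0xbc000178000300000) b9692 (.hit (nat_lit 78) (nat_lit 57) (nat_lit 0xbc0001780002ff758) b9695 (.one (nat_lit 9) (nat_lit 76) (nat_lit 55) (nat_lit 0xbc0001780002ff868) b9693 (.nil)))) (.nil)))) (.nil)))) (.one (nat_lit 70) (nat_lit 81) (nat_lit 60) (nat_lit 0xbc0001780002fe6b7) b9698 (.nil)))))) (.tok (nat_lit 6) (nat_lit 0xbc0001780002fff7c) (.hit (nat_lit 0) (nat_lit 0) (nat_lit 0xbc0001780002ff20f) b9669 (.tok (nat_lit 6) (nat_lit 0xbc0001780002fff7c) (.hit (nat_lit 1) (nat_lit 7) (nat_lit 0xbc0001780002fe639) b9670 (.hit (nat_lit 6) (nat_lit 15) (nat_lit 0xbc0001780002fd8e0) b9675 (.tok (nat_lit 14) (nat_lit 0xbc0001780002fff7c) (.hit (nat_lit 2) (nat_lit 11) (nat_lit 0xbc0001780002ff6f2) b9671 (.hit (nat_lit 7) (nat_lit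 17) (nat_lit 0xbc0001780002fff7c) b9676 (.one (nat_lit 9) (nat_lit 3) (nat_lit 12) (nat_lit 0xbc0001780002ff63a) b9672 (.nil)))) (.tok (nat_lit 56) (nat_lit 0xbc0001780002ff66d) (.hit (nat_lit 4) (nat_lit 13) (nat_lit 0xbc0001780002ff598) b9673 (.hit (nat_lit 9) (nat_lit 19) (nat_lit 0xbc0001780002ff56e) b9678 (.one (nat_lit 6) (nat_lit 5) (nat_lit 14) (nat_lit 0xbc0001780002ff66d) b9674 (.nil)))) (.one (nat_lit 68) (nat_lit 8) (nat_lit 18) (nat_lit 0xbc0001780002ff5ca) b9677 (.nil)))))) (.nil))) (.nil))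
noncomputable def r28_168 : Rw Blk := .tok (nat_lit 3) (nat_lit 0xbc0001780002fddcf) (.hit (nat_lit 61) (nat_lit 0) (nat_lit 0xbc0001780002fd208) b9255 (.tok (nat_lit 6) (nat_lit 0xbc0001780002fcdbc) (.hit (nat_lit 62) (nat_lit 7) (nat_lit 0xbc0001780002fbbb6) b9256 (.hit (nat_lit 67) (nat_lit 15) (nat_lit 0xbc0001780002fad94) b9261 (.tok (nat_lit 14) (nat_lit 0xbc0001780002fcdbc) (.hit (nat_lit 63) (nat_lit 11) (nat_lit 0xbc0001780002fbdc9) b9257 (.hit (nat_lit 68) (nat_lit 17) (nat_lit 0xbc0001780002fc1ab) b9262 (.one (nat_lit 9) (nat_lit 64) (nat_lit 12) (nat_lit 0xbc0001780002fcdbc) b9258 (.nil)))) (.one (nat_lit 68) (nat_lit 69) (nat_lit 18) (nat_lit 0xbc0001780002fc012) b9263 (.nil))))) (.tok (nat_lit 52) (nat_lit 0xbc0001780002fc6cc) (.hit (nat_lit 71) (nat_lit 39) (nat_lit 0xbc0001780002fbf49) b9265 (.hit (nat_lit 72) (nat_lit 40) (nat_lit 0xbc0001780002fc6cc) b9266 (.nil)))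 (.tok (nat_lit 55) (nat_lit 0xbc0001780002fddcf) (.hit (nat_lit 73) (nat_lit 41) (nat_lit 0xbc0001780002fdd53) b9267 (.tok (nat_lit 3) (nat_lit 0xbc0001780002fddcf) (.hit (nat_lit 79) (nat_lit 47) (nat_lit 0xbc0001780002fd372) b9273 (.one (nat_lit 67) (nat_lit 80) (nat_lit 48) (nat_lit 0xbc0001780002fddcf) b9274 (.nil))) (.tok (nat_lit 6) (nat_lit 0xbc0001780002fcbbd) (.hit (nat_lit 74) (nat_lit 42) (nat_lit 0xbc0001780002fc8b0) b9268 (.hit (nat_lit 77) (nat_lit 45) (nat_lit 0xbc0001780002fcbbd) b9271 (.nil))) (.nil)))) (.one (nat_lit 58) (nat_lit 81) (nat_lit 49) (nat_lit 0xbc0001780002fc77b) b9275 (.nil)))))) (.tok (nat_lit 9) (nat_lit 0xbc000178000300000) (.hit (nat_lit 0) (nat_lit 0) (nat_lit 0xbc0001780002feaff) b9240 (.tok (nat_lit 9) (nat_lit 0xbc0001780002fffbd) (.hit (nat_lit 1) (nat_lit 20) (nat_lit 0xbc0001780002fd887) b9241 (.hit (nat_lit 6) (nat_lit 28) (nat_lit 0xbc0001780002fc60a)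 b9244 (.tok (nat_lit 14) (nat_lit 0xbc0001780002ff817) (.hit (nat_lit 2) (nat_lit 24) (nat_lit 0xbc0001780002ff817) b9242 (.hit (nat_lit 7) (nat_lit 30) (nat_lit 0xbc0001780002fe65c) b9245 (.one (nat_lit 6) (nat_lit 3) (nat_lit 25) (nat_lit 0xbc0001780002ff6cc) b9243 (.nil)))) (.one (nat_lit 56) (nat_lit 8) (nat_lit 31) (nat_lit 0xbc0001780002fdb1d) b9246 (.tok (nat_lit 68) (nat_lit 0xbc0001780002fffbd) (.hit (nat_lit 4) (nat_lit 26) (nat_lit 0xbc0001780002fef99) b9609 (.hit (nat_lit 9) (nat_lit 32) (nat_lit 0xbc0001780002fd621) b9611 (.one (nat_lit 9) (nat_lit 5) (nat_lit 27) (nat_lit 0xbc0001780002fffbd) b9610 (.nil)))) (.nil)))))) (.tok (nat_lit 64) (nat_lit 0xbc0001780002feaaa) (.hit (nat_lit 10) (nat_lit 50) (nat_lit 0xbc0001780002fdd77) b9247 (.hit (nat_lit 11) (nat_lit 51) (nat_lit 0xbc0001780002feaaa) b9248 (.nil))) (.tok (nat_lit 67) (nat_lit 0xbc000178000300000) (.hit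 (nat_lit 12) (nat_lit 52) (nat_lit 0xbc0001780002ff885) b9249 (.tok (nat_lit 3) (nat_lit 0xbc000178000300000) (.hit (nat_lit 18) (nat_lit 58) (nat_lit 0xbc0001780002fec8d) b9252 (.one (nat_lit 55) (nat_lit 19) (nat_lit 59) (nat_lit 0xbc000178000300000) b9253 (.nil))) (.tok (nat_lit 9) (nat_lit 0xbc0001780002ffc81) (.hit (nat_lit 13) (nat_lit 53) (nat_lit 0xbc0001780002fe0f2) b9250 (.hit (nat_lit 16) (nat_lit 56) (nat_lit 0xbc0001780002fece8) b9251 (.tok (nat_lit 67) (nat_lit 0xbc0001780002ffc81) (.hit (nat_lit 14) (nat_lit 54) (nat_lit 0xbc0001780002ff6bd) b9612 (.hit (nat_lit 17) (nat_lit 57) (nat_lit 0xbc0001780002ffc81) b9614 (.one (nat_lit 9) (nat_lit 15) (nat_lit 55) (nat_lit 0xbc0001780002ff76a) b9613 (.nil)))) (.nil)))) (.nil)))) (.one (nat_lit 70) (nat_lit 20) (nat_lit 60) (nat_lit 0xbc0001780002fecd6) b9254 (.nil)))))) (.nil))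
noncomputable def r28_169 : Rw Blk := .tok (nat_lit 3) (nat_lit 0xbc0001780002fd5f6) (.hit (nat_lit 61) (nat_lit 0) (nat_lit 0xbc0001780002fc19c) b30144 (.tok (nat_lit 6) (nat_lit 0xbc0001780002fc6ca) (.hit (nat_lit 62) (nat_lit 7) (nat_lit 0xbc0001780002fa6ad) b30145 (.hit (nat_lit 67) (nat_lit 15) (nat_lit 0xbc0001780002faa1c) b30148 (.tok (nat_lit 14) (nat_lit 0xbc0001780002fc6ca) (.hit (nat_lit 63) (nat_lit 11) (nat_lit 0xbc0001780002fbc3b) b30146 (.hit (nat_lit 68) (nat_lit 17) (nat_lit 0xbc0001780002fb92c) b30149 (.one (nat_lit 9) (nat_lit 64) (nat_lit 12) (nat_lit 0xbc0001780002fc6ca) b30147 (.nil)))) (.one (nat_lit 68) (nat_lit 69) (nat_lit 18) (nat_lit 0xbc0001780002fc052) b30150 (.nil))))) (.tok (nat_lit 52) (nat_lit 0xbc0001780002fc46b) (.hit (nat_lit 71) (nat_lit 39) (nat_lit 0xbc0001780002fbd35) b30151 (.hit (nat_lit 72) (nat_lit 40) (nat_lit 0xbc0001780002fc46b)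 b30152 (.nil))) (.tok (nat_lit 55) (nat_lit 0xbc0001780002fd5f6) (.hit (nat_lit 73) (nat_lit 41) (nat_lit 0xbc0001780002fd407) b30153 (.tok (nat_lit 3) (nat_lit 0xbc0001780002fd44e) (.hit (nat_lit 79) (nat_lit 47) (nat_lit 0xbc0001780002fcc9c) b30156 (.one (nat_lit 67) (nat_lit 80) (nat_lit 48) (nat_lit 0xbc0001780002fd44e) b30157 (.nil))) (.tok (nat_lit 6) (nat_lit 0xbc0001780002fd5f6) (.hit (nat_lit 74) (nat_lit 42) (nat_lit 0xbc0001780002fd5f6) b30154 (.hit (nat_lit 77) (nat_lit 45) (nat_lit 0xbc0001780002fc357) b30155 (.nil))) (.nil)))) (.one (nat_lit 58) (nat_lit 81) (nat_lit 49) (nat_lit 0xbc0001780002fc3fb) b30158 (.nil)))))) (.tok (nat_lit 9) (nat_lit 0xbc0001780003007bb) (.hit (nat_lit 0) (nat_lit 0) (nat_lit 0xbc0001780002fcf53) b30123 (.tok (nat_lit 9) (nat_lit 0xbc0001780002fdcc0) (.hit (nat_lit 1) (nat_lit 20) (nat_lit 0xbc0001780002fc37d) b30124 (.hit (nat_lit 6)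 (nat_lit 28) (nat_lit 0xbc0001780002fb624) b30129 (.tok (nat_lit 14) (nat_lit 0xbc0001780002fdcc0) (.hit (nat_lit 2) (nat_lit 24) (nat_lit 0xbc0001780002fd436) b30125 (.hit (nat_lit 7) (nat_lit 30) (nat_lit 0xbc0001780002fdcc0) b30130 (.one (nat_lit 6) (nat_lit 3) (nat_lit 25) (nat_lit 0xbc0001780002fd37e) b30126 (.nil)))) (.one (nat_lit 56) (nat_lit 8) (nat_lit 31) (nat_lit 0xbc0001780002fd30e) b30131 (.tok (nat_lit 68) (nat_lit 0xbc0001780002fd3b1) (.hit (nat_lit 4) (nat_lit 26) (nat_lit 0xbc0001780002fd2dc) b30127 (.hit (nat_lit 9) (nat_lit 32) (nat_lit 0xbc0001780002fd2b2) b30132 (.one (nat_lit 9) (nat_lit 5) (nat_lit 27) (nat_lit 0xbc0001780002fd3b1) b30128 (.nil)))) (.nil)))))) (.tok (nat_lit 64) (nat_lit 0xbc0001780002fd951) (.hit (nat_lit 10) (nat_lit 50) (nat_lit 0xbc0001780002fc93e) b30133 (.hit (nat_lit 11) (nat_lit 51) (nat_lit 0xbc0001780002fd951) b30134 (.nil)))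 (.tok (nat_lit 67) (nat_lit 0xbc0001780003007bb) (.hit (nat_lit 12) (nat_lit 52) (nat_lit 0xbc0001780002fded3) b30135 (.tok (nat_lit 3) (nat_lit 0xbc0001780002fe3e0) (.hit (nat_lit 18) (nat_lit 58) (nat_lit 0xbc0001780002fd125) b30141 (.one (nat_lit 55) (nat_lit 19) (nat_lit 59) (nat_lit 0xbc0001780002fe3e0) b30142 (.nil))) (.tok (nat_lit 9) (nat_lit 0xbc0001780003007bb) (.hit (nat_lit 13) (nat_lit 53) (nat_lit 0xbc0001780002fe435) b30136 (.hit (nat_lit 16) (nat_lit 56) (nat_lit 0xbc0001780002fe036) b30139 (.tok (nat_lit 67) (nat_lit 0xbc0001780003007bb) (.hit (nat_lit 14) (nat_lit 54) (nat_lit 0xbc0001780003000ad) b30137 (.hit (nat_lit 17) (nat_lit 57) (nat_lit 0xbc0001780002fdc4c) b30140 (.one (nat_lit 9) (nat_lit 15) (nat_lit 55) (nat_lit 0xbc0001780003007bb) b30138 (.nil)))) (.nil)))) (.nil)))) (.one (nat_lit 70) (nat_lit 20) (nat_lit 60) (nat_lit 0xbc0001780002fd79f) b30143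 (.nil)))))) (.nil))
noncomputable def r28_170 : Rw Blk := .tok (nat_lit 3) (nat_lit 0xbf74157eb64afed6e5fa436bf74497edf42fd61e) (.hit (nat_lit 0) (nat_lit 0) (nat_lit 0xbf74157eb64afed6e5fa436bf74497edf42fd61e) b36075 (.tok (nat_lit 6) (nat_lit 0xbf3f657dfc32fead75f8676bf0e1d7e76a2fc8e8) (.hit (nat_lit 1) (nat_lit 7) (nat_lit 0xbf3f657dfc32fead75f8676bf0e1d7e76a2fc8e8) b30185 (.hit (nat_lit 6) (nat_lit 15) (nat_lit 0xbf35a97de8bafe2d35f8198bf04617e632afc679) b30186 (.nil))) (.tok (nat_lit 9) (nat_lit 0xbf3f657dfc32fead75f8676bf0e1d7e76a2fc8e8) (.hit (nat_lit 10) (nat_lit 20) (nat_lit 0xbf3f657dfc32fead75f8676bf0e1d7e76a2fc8e8) b30185 (.hit (nat_lit 15) (nat_lit 28) (nat_lit 0xbf35a97de8bafe2d35f8198bf04617e632afc679) b30186 (.nil))) (.nil)))) (.tok (nat_lit 6) (nat_lit 0xc0000180000300000600000c0000180000300000) (.hit (nat_lit 81) (nat_lit 0) (nat_lit 0xbfcd217f711aff8de5fe300bfd0717f87eaff0fc)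 b30195 (.tok (nat_lit 3) (nat_lit 0xbfcd597f256affef35fe4e8bfdbf17f951aff2a2) (.hit (nat_lit 82) (nat_lit 1) (nat_lit 0xbf61157e5202fe9605fadf4bf6e097eb942fd728) b30188 (.one (nat_lit 67) (nat_lit 83) (nat_lit 2) (nat_lit 0xbfcd597f256affef35fe4e8bfdbf17f951aff2a2) b30196 (.nil))) (.tok (nat_lit 6) (nat_lit 0xc0000180000300000600000c0000180000300000) (.hit (nat_lit 87) (nat_lit 7) (nat_lit 0xbfb0e97f43eaff6975fcb36bfb2a57f280afe501) b30197 (.hit (nat_lit 95) (nat_lit 15) (nat_lit 0xbf69ed7e4ed2fe18b5fb136bf748d7ec64afd8c9) b30193 (.tok (nat_lit 55) (nat_lit 0xc0000180000300000600000c0000180000300000) (.hit (nat_lit 88) (nat_lit 8) (nat_lit 0xc000017fc16affe9d600000c0000180000300000) b30198 (.hit (nat_lit 96) (nat_lit 16) (nat_lit 0xbfcc4d7f32daffce55fe8a0bfe3617fa3faff47e) b30200 (.one (nat_lit 6) (nat_lit 89) (nat_lit 9) (nat_lit 0xbfd515800003000005fe7f4bfeeb97fa142ff428) b30199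 (.nil)))) (.nil)))) (.nil)))) (.tok (nat_lit 9) (nat_lit 0xc00001800003000005fffa4bff21980000300000) (.hit (nat_lit 157) (nat_lit 0) (nat_lit 0xbfcd217f711aff8de5fe19ebfc11d7f87eaff153) b30187 (.tok (nat_lit 3) (nat_lit 0xbfcd597f256affef35fe4e8bfdb417f9512ff2a2) (.hit (nat_lit 158) (nat_lit 1) (nat_lit 0xbf61157e5202fe9605fadf4bf6e097eb942fd728) b30188 (.one (nat_lit 55) (nat_lit 159) (nat_lit 3) (nat_lit 0xbfcd597f256affef35fe4e8bfdb417f9512ff2a2) b30189 (.nil))) (.tok (nat_lit 9) (nat_lit 0xc00001800003000005fffa4bff21980000300000) (.hit (nat_lit 163) (nat_lit 20) (nat_lit 0xbfb0e97f43eaff6975fc9a6bfafbd7f280afe501) b30190 (.hit (nat_lit 171) (nat_lit 28) (nat_lit 0xbf69ed7e4ed2fe18b5fb136bf748d7ec64afd8c9) b30193 (.tok (nat_lit 67) (nat_lit 0xc00001800003000005fffa4bff21980000300000) (.hit (nat_lit 164) (nat_lit 21) (nat_lit 0xc000017fc16affe9d5fffa4bff21980000300000) b30191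 (.hit (nat_lit 172) (nat_lit 29) (nat_lit 0xbfcc4d7f32daffce55fe8a0bfe3617fa3f2ff47e) b30194 (.one (nat_lit 9) (nat_lit 165) (nat_lit 22) (nat_lit 0xbfd515800003000005fe7e2bfe2bd7fa122ff422) b30192 (.nil)))) (.nil)))) (.nil)))) (.nil)))
noncomputable def r28_171 : Rw Blk := .tok (nat_lit 6) (nat_lit 0xbc000178000300000) (.hit (nat_lit 51) (nat_lit 0) (nat_lit 0xbc0001780002ff743) b8943 (.tok (nat_lit 3) (nat_lit 0xbc0001780002ffecc) (.hit (nat_lit 52) (nat_lit 1) (nat_lit 0xbc0001780002fdccb) b8944 (.one (nat_lit 14) (nat_lit 53) (nat_lit 4) (nat_lit 0xbc0001780002ffecc) b9239 (.one (nat_lit 56) (nat_lit 55) (nat_lit 6) (nat_lit 0xbc0001780002ff720) b8945 (.nil)))) (.tok (nat_lit 40) (nat_lit 0xbc0001780002ff5de) (.hit (nat_lit 56) (nat_lit 33) (nat_lit 0xbc0001780002ff5de) b8947 (.hit (nat_lit 57) (nat_lit 34) (nat_lit 0xbc0001780002ff3d8) b8948 (.nil))) (.tok (nat_lit 43) (nat_lit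 0xbc000178000300000) (.hit (nat_lit 58) (nat_lit 35) (nat_lit 0xbc000178000300000) b8951 (.hit (nat_lit 59) (nat_lit 36) (nat_lit 0xbc0001780002ff6ae) b8952 (.nil))) (.tok (nat_lit 46) (nat_lit 0xbc0001780002ffbd8) (.hit (nat_lit 60) (nat_lit 37) (nat_lit 0xbc0001780002fe56f) b8949 (.hit (nat_lit 61) (nat_lit 38) (nat_lit 0xbc0001780002ffbd8) b8950 (.nil))) (.nil)))))) (.tok (nat_lit 9) (nat_lit 0xbc000178000300000) (.hit (nat_lit 0) (nat_lit 0) (nat_lit 0xbc0001780002ff743) b8943 (.tok (nat_lit 3) (nat_lit 0xbc0001780002ffecc) (.hit (nat_lit 1) (nat_lit 1) (nat_lit 0xbc0001780002fdccb) b8944 (.one (nat_lit 14) (nat_lit 2) (nat_lit 4) (nat_lit 0xbc0001780002ffecc) b9239 (.one (nat_lit 68) (nat_lit 3) (nat_lit 5) (nat_lit 0xbc0001780002ff720) b8945 (.nil)))) (.tok (nat_lit 40) (nat_lit 0xbc0001780002ff5de) (.hit (nat_lit 5) (nat_lit 33) (nat_lit 0xbc0001780002ff5de) b8947 (.hit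 (nat_lit 6) (nat_lit 34) (nat_lit 0xbc0001780002ff3d8) b8948 (.nil))) (.tok (nat_lit 43) (nat_lit 0xbc0001780002ffbd8) (.hit (nat_lit 7) (nat_lit 35) (nat_lit 0xbc0001780002fe56f) b8949 (.hit (nat_lit 8) (nat_lit 36) (nat_lit 0xbc0001780002ffbd8) b8950 (.nil))) (.tok (nat_lit 46) (nat_lit 0xbc000178000300000) (.hit (nat_lit 9) (nat_lit 37) (nat_lit 0xbc000178000300000) b8951 (.hit (nat_lit 10) (nat_lit 38) (nat_lit 0xbc0001780002ff6ae) b8952 (.nil))) (.nil)))))) (.nil))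
noncomputable def r28_172 : Rw Blk := .tok (nat_lit 3) (nat_lit 0xbc0001780002fddcf) (.hit (nat_lit 61) (nat_lit 0) (nat_lit 0xbc0001780002fd208) b9255 (.tok (nat_lit 9) (nat_lit 0xbc0001780002fd53e) (.hit (nat_lit 62) (nat_lit 20) (nat_lit 0xbc0001780002fbbb6) b9256 (.hit (nat_lit 67) (nat_lit 28) (nat_lit 0xbc0001780002fad94) b9261 (.tok (nat_lit 14) (nat_lit 0xbc0001780002fcdbc) (.hit (nat_lit 63) (nat_lit 24) (nat_lit 0xbc0001780002fbdc9) b9257 (.hit (nat_lit 68) (nat_lit 30) (nat_lit 0xbc0001780002fc1ab) b9262 (.one (nat_lit 6) (nat_lit 64) (nat_lit 25) (nat_lit 0xbc0001780002fcdbc) b9258 (.nil)))) (.one (nat_lit 56) (nat_lit 69) (nat_lit 31) (nat_lit 0xbc0001780002fc012) b9263 (.tok (nat_lit 68) (nat_lit 0xbc0001780002fd53e) (.hit (nat_lit 65) (nat_lit 26) (nat_lit 0xbc0001780002fcd30) b9259 (.hit (nat_lit 70) (nat_lit 32) (nat_lit 0xbc0001780002fbe92) b9264 (.one (nat_lit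 9) (nat_lit 66) (nat_lit 27) (nat_lit 0xbc0001780002fd53e) b9260 (.nil)))) (.nil)))))) (.tok (nat_lit 64) (nat_lit 0xbc0001780002fc6cc) (.hit (nat_lit 71) (nat_lit 50) (nat_lit 0xbc0001780002fbf49) b9265 (.hit (nat_lit 72) (nat_lit 51) (nat_lit 0xbc0001780002fc6cc) b9266 (.nil))) (.tok (nat_lit 67) (nat_lit 0xbc0001780002fddcf) (.hit (nat_lit 73) (nat_lit 52) (nat_lit 0xbc0001780002fdd53) b9267 (.tok (nat_lit 3) (nat_lit 0xbc0001780002fddcf) (.hit (nat_lit 79) (nat_lit 58) (nat_lit 0xbc0001780002fd372) b9273 (.one (nat_lit 55) (nat_lit 80) (nat_lit 59) (nat_lit 0xbc0001780002fddcf) b9274 (.nil))) (.tok (nat_lit 9) (nat_lit 0xbc0001780002fd886) (.hit (nat_lit 74) (nat_lit 53) (nat_lit 0xbc0001780002fc8b0) b9268 (.hit (nat_lit 77) (nat_lit 56) (nat_lit 0xbc0001780002fcbbd) b9271 (.tok (nat_lit 67) (nat_lit 0xbc0001780002fd886) (.hit (nat_lit 75) (nat_lit 54) (nat_lit 0xbc0001780002fd7c6)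 b9269 (.hit (nat_lit 78) (nat_lit 57) (nat_lit 0xbc0001780002fd886) b9272 (.one (nat_lit 9) (nat_lit 76) (nat_lit 55) (nat_lit 0xbc0001780002fd38a) b9270 (.nil)))) (.nil)))) (.nil)))) (.one (nat_lit 70) (nat_lit 81) (nat_lit 60) (nat_lit 0xbc0001780002fc77b) b9275 (.nil)))))) (.tok (nat_lit 6) (nat_lit 0xbc000178000300000) (.hit (nat_lit 0) (nat_lit 0) (nat_lit 0xbc0001780002feaff) b9240 (.tok (nat_lit 6) (nat_lit 0xbc0001780002ff817) (.hit (nat_lit 1) (nat_lit 7) (nat_lit 0xbc0001780002fd887) b9241 (.hit (nat_lit 6) (nat_lit 15) (nat_lit 0xbc0001780002fc60a) b9244 (.tok (nat_lit 14) (nat_lit 0xbc0001780002ff817) (.hit (nat_lit 2) (nat_lit 11) (nat_lit 0xbc0001780002ff817) b9242 (.hit (nat_lit 7) (nat_lit 17) (nat_lit 0xbc0001780002fe65c) b9245 (.one (nat_lit 9) (nat_lit 3) (nat_lit 12) (nat_lit 0xbc0001780002ff6cc) b9243 (.nil)))) (.one (nat_lit 68) (nat_lit 8) (nat_lit 18) (nat_lit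 0xbc0001780002fdb1d) b9246 (.nil))))) (.tok (nat_lit 52) (nat_lit 0xbc0001780002feaaa) (.hit (nat_lit 10) (nat_lit 39) (nat_lit 0xbc0001780002fdd77) b9247 (.hit (nat_lit 11) (nat_lit 40) (nat_lit 0xbc0001780002feaaa) b9248 (.nil))) (.tok (nat_lit 55) (nat_lit 0xbc000178000300000) (.hit (nat_lit 12) (nat_lit 41) (nat_lit 0xbc0001780002ff885) b9249 (.tok (nat_lit 3) (nat_lit 0xbc000178000300000) (.hit (nat_lit 18) (nat_lit 47) (nat_lit 0xbc0001780002fec8d) b9252 (.one (nat_lit 67) (nat_lit 19) (nat_lit 48) (nat_lit 0xbc000178000300000) b9253 (.nil))) (.tok (nat_lit 6) (nat_lit 0xbc0001780002fece8) (.hit (nat_lit 13) (nat_lit 42) (nat_lit 0xbc0001780002fe0f2) b9250 (.hit (nat_lit 16) (nat_lit 45) (nat_lit 0xbc0001780002fece8) b9251 (.nil))) (.nil)))) (.one (nat_lit 58) (nat_lit 20) (nat_lit 49) (nat_lit 0xbc0001780002fecd6) b9254 (.nil)))))) (.nil))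
noncomputable def r28_173 : Rw Blk := .tok (nat_lit 3) (nat_lit 0xbc0001780002ff90f) (.hit (nat_lit 61) (nat_lit 0) (nat_lit 0xbc0001780002fdd67) b9291 (.tok (nat_lit 9) (nat_lit 0xbc0001780002fe295) (.hit (nat_lit 62) (nat_lit 20) (nat_lit 0xbc0001780002fc278) b9292 (.hit (nat_lit 67) (nat_lit 28) (nat_lit 0xbc0001780002fc5e7) b9297 (.tok (nat_lit 14) (nat_lit 0xbc0001780002fe295) (.hit (nat_lit 63) (nat_lit 24) (nat_lit 0xbc0001780002fd806) b9293 (.hit (nat_lit 68) (nat_lit 30) (nat_lit 0xbc0001780002fd4f7) b9298 (.one (nat_lit 6) (nat_lit 64) (nat_lit 25) (nat_lit 0xbc0001780002fe295) b9294 (.nil)))) (.one (nat_lit 56) (nat_lit 69) (nat_lit 31) (nat_lit 0xbc0001780002fdc1d) b9299 (.tok (nat_lit 68) (nat_lit 0xbc0001780002fddcb) (.hit (nat_lit 65) (nat_lit 26) (nat_lit 0xbc0001780002fda4a) b9295 (.hit (nat_lit 70) (nat_lit 32) (nat_lit 0xbc0001780002fd618) b9300 (.one (nat_lit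 9) (nat_lit 66) (nat_lit 27) (nat_lit 0xbc0001780002fddcb) b9296 (.nil)))) (.nil)))))) (.tok (nat_lit 64) (nat_lit 0xbc0001780002fe036) (.hit (nat_lit 71) (nat_lit 50) (nat_lit 0xbc0001780002fd900) b9301 (.hit (nat_lit 72) (nat_lit 51) (nat_lit 0xbc0001780002fe036) b9302 (.nil))) (.tok (nat_lit 67) (nat_lit 0xbc0001780002ff90f) (.hit (nat_lit 73) (nat_lit 52) (nat_lit 0xbc0001780002fefd2) b9303 (.tok (nat_lit 3) (nat_lit 0xbc0001780002ff019) (.hit (nat_lit 79) (nat_lit 58) (nat_lit 0xbc0001780002fe867) b9309 (.one (nat_lit 55) (nat_lit 80) (nat_lit 59) (nat_lit 0xbc0001780002ff019) b9310 (.nil))) (.tok (nat_lit 9) (nat_lit 0xbc0001780002ff90f) (.hit (nat_lit 74) (nat_lit 53) (nat_lit 0xbc0001780002ff1c1) b9304 (.hit (nat_lit 77) (nat_lit 56) (nat_lit 0xbc0001780002fdf22) b9307 (.tok (nat_lit 67) (nat_lit 0xbc0001780002ff90f) (.hit (nat_lit 75) (nat_lit 54) (nat_lit 0xbc0001780002ff90f)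 b9305 (.hit (nat_lit 78) (nat_lit 57) (nat_lit 0xbc0001780002ff067) b9308 (.one (nat_lit 9) (nat_lit 76) (nat_lit 55) (nat_lit 0xbc0001780002ff177) b9306 (.nil)))) (.nil)))) (.nil)))) (.one (nat_lit 70) (nat_lit 81) (nat_lit 60) (nat_lit 0xbc0001780002fdfc6) b9311 (.nil)))))) (.tok (nat_lit 6) (nat_lit 0xbc000178000300000) (.hit (nat_lit 0) (nat_lit 0) (nat_lit 0xbc0001780002feb1e) b9276 (.tok (nat_lit 6) (nat_lit 0xbc0001780002ff88b) (.hit (nat_lit 1) (nat_lit 7) (nat_lit 0xbc0001780002fdf48) b9277 (.hit (nat_lit 6) (nat_lit 15) (nat_lit 0xbc0001780002fd1ef) b9280 (.tok (nat_lit 14) (nat_lit 0xbc0001780002ff88b) (.hit (nat_lit 2) (nat_lit 11) (nat_lit 0xbc0001780002ff001) b9278 (.hit (nat_lit 7) (nat_lit 17) (nat_lit 0xbc0001780002ff88b) b9281 (.one (nat_lit 9) (nat_lit 3) (nat_lit 12) (nat_lit 0xbc0001780002fef49) b9279 (.nil)))) (.one (nat_lit 68) (nat_lit 8) (nat_lit 18) (nat_lit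 0xbc0001780002feed9) b9282 (.nil))))) (.tok (nat_lit 52) (nat_lit 0xbc0001780002ff51c) (.hit (nat_lit 10) (nat_lit 39) (nat_lit 0xbc0001780002fe509) b9283 (.hit (nat_lit 11) (nat_lit 40) (nat_lit 0xbc0001780002ff51c) b9284 (.nil))) (.tok (nat_lit 55) (nat_lit 0xbc000178000300000) (.hit (nat_lit 12) (nat_lit 41) (nat_lit 0xbc0001780002ffa9e) b9285 (.tok (nat_lit 3) (nat_lit 0xbc0001780002fffab) (.hit (nat_lit 18) (nat_lit 47) (nat_lit 0xbc0001780002fecf0) b9288 (.one (nat_lit 67) (nat_lit 19) (nat_lit 48) (nat_lit 0xbc0001780002fffab) b9289 (.nil))) (.tok (nat_lit 6) (nat_lit 0xbc000178000300000) (.hit (nat_lit 13) (nat_lit 42) (nat_lit 0xbc000178000300000) b9286 (.hit (nat_lit 16) (nat_lit 45) (nat_lit 0xbc0001780002ffc01) b9287 (.nil))) (.nil)))) (.one (nat_lit 58) (nat_lit 20) (nat_lit 49) (nat_lit 0xbc0001780002ff36a) b9290 (.nil)))))) (.nil))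
noncomputable def r28_174 : Rw Blk := .tok (nat_lit 3) (nat_lit 0xbc0001780002fe46f) (.hit (nat_lit 61) (nat_lit 0) (nat_lit 0xbc0001780002fd8a8) b30216 (.tok (nat_lit 6) (nat_lit 0xbc0001780002fdbde) (.hit (nat_lit 62) (nat_lit 7) (nat_lit 0xbc0001780002fc256) b30217 (.hit (nat_lit 67) (nat_lit 15) (nat_lit 0xbc0001780002fb434) b30222 (.tok (nat_lit 14) (nat_lit 0xbc0001780002fd45c) (.hit (nat_lit 63) (nat_lit 11) (nat_lit 0xbc0001780002fc469) b30218 (.hit (nat_lit 68) (nat_lit 17) (nat_lit 0xbc0001780002fc84b) b30223 (.one (nat_lit 9) (nat_lit 64) (nat_lit 12) (nat_lit 0xbc0001780002fd45c) b30219 (.nil)))) (.tok (nat_lit 56) (nat_lit 0xbc0001780002fdbde) (.hit (nat_lit 65) (nat_lit 13) (nat_lit 0xbc0001780002fd3d0) b30220 (.hit (nat_lit 70) (nat_lit 19) (nat_lit 0xbc0001780002fc532) b30225 (.one (nat_lit 6) (nat_lit 66) (nat_lit 14) (nat_lit 0xbc0001780002fdbde) b30221 (.nil))))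 (.one (nat_lit 68) (nat_lit 69) (nat_lit 18) (nat_lit 0xbc0001780002fc6b2) b30224 (.nil)))))) (.tok (nat_lit 52) (nat_lit 0xbc0001780002fcd6c) (.hit (nat_lit 71) (nat_lit 39) (nat_lit 0xbc0001780002fc5e9) b30226 (.hit (nat_lit 72) (nat_lit 40) (nat_lit 0xbc0001780002fcd6c) b30227 (.nil))) (.tok (nat_lit 55) (nat_lit 0xbc0001780002fe46f) (.hit (nat_lit 73) (nat_lit 41) (nat_lit 0xbc0001780002fe3f3) b30228 (.tok (nat_lit 3) (nat_lit 0xbc0001780002fe46f) (.hit (nat_lit 79) (nat_lit 47) (nat_lit 0xbc0001780002fda12) b30234 (.one (nat_lit 67) (nat_lit 80) (nat_lit 48) (nat_lit 0xbc0001780002fe46f) b30235 (.nil))) (.tok (nat_lit 6) (nat_lit 0xbc0001780002fdf26) (.hit (nat_lit 74) (nat_lit 42) (nat_lit 0xbc0001780002fcf50) b30229 (.hit (nat_lit 77) (nat_lit 45) (nat_lit 0xbc0001780002fd25d) b30232 (.tok (nat_lit 55) (nat_lit 0xbc0001780002fdf26) (.hit (nat_lit 75) (nat_lit 43) (nat_lit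 0xbc0001780002fde66) b30230 (.hit (nat_lit 78) (nat_lit 46) (nat_lit 0xbc0001780002fdf26) b30233 (.one (nat_lit 6) (nat_lit 76) (nat_lit 44) (nat_lit 0xbc0001780002fda2a) b30231 (.nil)))) (.nil)))) (.nil)))) (.one (nat_lit 58) (nat_lit 81) (nat_lit 49) (nat_lit 0xbc0001780002fce1b) b30236 (.nil)))))) (.tok (nat_lit 9) (nat_lit 0xbc0001780003006a0) (.hit (nat_lit 0) (nat_lit 0) (nat_lit 0xbc0001780002ff19f) b30201 (.tok (nat_lit 9) (nat_lit 0xbc0001780002ffeb7) (.hit (nat_lit 1) (nat_lit 20) (nat_lit 0xbc0001780002fdf27) b30202 (.hit (nat_lit 6) (nat_lit 28) (nat_lit 0xbc0001780002fccaa) b30205 (.tok (nat_lit 14) (nat_lit 0xbc0001780002ffeb7) (.hit (nat_lit 2) (nat_lit 24) (nat_lit 0xbc0001780002ffeb7) b30203 (.hit (nat_lit 7) (nat_lit 30) (nat_lit 0xbc0001780002fecfc) b30206 (.one (nat_lit 6) (nat_lit 3) (nat_lit 25) (nat_lit 0xbc0001780002ffd6c) b30204 (.nil)))) (.one (nat_lit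 56) (nat_lit 8) (nat_lit 31) (nat_lit 0xbc0001780002fe1bd) b30207 (.nil))))) (.tok (nat_lit 64) (nat_lit 0xbc0001780002ff14a) (.hit (nat_lit 10) (nat_lit 50) (nat_lit 0xbc0001780002fe417) b30208 (.hit (nat_lit 11) (nat_lit 51) (nat_lit 0xbc0001780002ff14a) b30209 (.nil))) (.tok (nat_lit 67) (nat_lit 0xbc0001780003006a0) (.hit (nat_lit 12) (nat_lit 52) (nat_lit 0xbc0001780002fff25) b30210 (.tok (nat_lit 3) (nat_lit 0xbc0001780003006a0) (.hit (nat_lit 18) (nat_lit 58) (nat_lit 0xbc0001780002ff32d) b30213 (.one (nat_lit 55) (nat_lit 19) (nat_lit 59) (nat_lit 0xbc0001780003006a0) b30214 (.nil))) (.tok (nat_lit 9) (nat_lit 0xbc0001780002ff388) (.hit (nat_lit 13) (nat_lit 53) (nat_lit 0xbc0001780002fe792) b30211 (.hit (nat_lit 16) (nat_lit 56) (nat_lit 0xbc0001780002ff388) b30212 (.nil))) (.nil)))) (.one (nat_lit 70) (nat_lit 20) (nat_lit 60) (nat_lit 0xbc0001780002ff376) b30215 (.nil))))))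 (.nil))
noncomputable def r28_175 : Rw Blk := .tok (nat_lit 3) (nat_lit 0xbc0001780002ff90f) (.hit (nat_lit 61) (nat_lit 0) (nat_lit 0xbc0001780002fdd67) b9291 (.tok (nat_lit 6) (nat_lit 0xbc0001780002fe295) (.hit (nat_lit 62) (nat_lit 7) (nat_lit 0xbc0001780002fc278) b9292 (.hit (nat_lit 67) (nat_lit 15) (nat_lit 0xbc0001780002fc5e7) b9297 (.tok (nat_lit 14) (nat_lit 0xbc0001780002fe295) (.hit (nat_lit 63) (nat_lit 11) (nat_lit 0xbc0001780002fd806) b9293 (.hit (nat_lit 68) (nat_lit 17) (nat_lit 0xbc0001780002fd4f7) b9298 (.one (nat_lit 9) (nat_lit 64) (nat_lit 12) (nat_lit 0xbc0001780002fe295) b9294 (.nil)))) (.tok (nat_lit 56) (nat_lit 0xbc0001780002fddcb) (.hit (nat_lit 65) (nat_lit 13) (nat_lit 0xbc0001780002fda4a) b9295 (.hit (nat_lit 70) (nat_lit 19) (nat_lit 0xbc0001780002fd618) b9300 (.one (nat_lit 6) (nat_lit 66) (nat_lit 14) (nat_lit 0xbc0001780002fddcb) b9296 (.nil))))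 (.one (nat_lit 68) (nat_lit 69) (nat_lit 18) (nat_lit 0xbc0001780002fdc1d) b9299 (.nil)))))) (.tok (nat_lit 52) (nat_lit 0xbc0001780002fe036) (.hit (nat_lit 71) (nat_lit 39) (nat_lit 0xbc0001780002fd900) b9301 (.hit (nat_lit 72) (nat_lit 40) (nat_lit 0xbc0001780002fe036) b9302 (.nil))) (.tok (nat_lit 55) (nat_lit 0xbc0001780002ff90f) (.hit (nat_lit 73) (nat_lit 41) (nat_lit 0xbc0001780002fefd2) b9303 (.tok (nat_lit 3) (nat_lit 0xbc0001780002ff019) (.hit (nat_lit 79) (nat_lit 47) (nat_lit 0xbc0001780002fe867) b9309 (.one (nat_lit 67) (nat_lit 80) (nat_lit 48) (nat_lit 0xbc0001780002ff019) b9310 (.nil))) (.tok (nat_lit 6) (nat_lit 0xbc0001780002ff90f) (.hit (nat_lit 74) (nat_lit 42) (nat_lit 0xbc0001780002ff1c1) b9304 (.hit (nat_lit 77) (nat_lit 45) (nat_lit 0xbc0001780002fdf22) b9307 (.tok (nat_lit 55) (nat_lit 0xbc0001780002ff90f) (.hit (nat_lit 75) (nat_lit 43) (nat_lit 0xbc0001780002ff90f)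 b9305 (.hit (nat_lit 78) (nat_lit 46) (nat_lit 0xbc0001780002ff067) b9308 (.one (nat_lit 6) (nat_lit 76) (nat_lit 44) (nat_lit 0xbc0001780002ff177) b9306 (.nil)))) (.nil)))) (.nil)))) (.one (nat_lit 58) (nat_lit 81) (nat_lit 49) (nat_lit 0xbc0001780002fdfc6) b9311 (.nil)))))) (.tok (nat_lit 9) (nat_lit 0xbc000178000300000) (.hit (nat_lit 0) (nat_lit 0) (nat_lit 0xbc0001780002feb1e) b9276 (.tok (nat_lit 9) (nat_lit 0xbc0001780002ff88b) (.hit (nat_lit 1) (nat_lit 20) (nat_lit 0xbc0001780002fdf48) b9277 (.hit (nat_lit 6) (nat_lit 28) (nat_lit 0xbc0001780002fd1ef) b9280 (.tok (nat_lit 14) (nat_lit 0xbc0001780002ff88b) (.hit (nat_lit 2) (nat_lit 24) (nat_lit 0xbc0001780002ff001) b9278 (.hit (nat_lit 7) (nat_lit 30) (nat_lit 0xbc0001780002ff88b) b9281 (.one (nat_lit 6) (nat_lit 3) (nat_lit 25) (nat_lit 0xbc0001780002fef49) b9279 (.nil)))) (.one (nat_lit 56) (nat_lit 8) (nat_lit 31)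 (nat_lit 0xbc0001780002feed9) b9282 (.nil))))) (.tok (nat_lit 64) (nat_lit 0xbc0001780002ff51c) (.hit (nat_lit 10) (nat_lit 50) (nat_lit 0xbc0001780002fe509) b9283 (.hit (nat_lit 11) (nat_lit 51) (nat_lit 0xbc0001780002ff51c) b9284 (.nil))) (.tok (nat_lit 67) (nat_lit 0xbc000178000300000) (.hit (nat_lit 12) (nat_lit 52) (nat_lit 0xbc0001780002ffa9e) b9285 (.tok (nat_lit 3) (nat_lit 0xbc0001780002fffab) (.hit (nat_lit 18) (nat_lit 58) (nat_lit 0xbc0001780002fecf0) b9288 (.one (nat_lit 55) (nat_lit 19) (nat_lit 59) (nat_lit 0xbc0001780002fffab) b9289 (.nil))) (.tok (nat_lit 9) (nat_lit 0xbc000178000300000) (.hit (nat_lit 13) (nat_lit 53) (nat_lit 0xbc000178000300000) b9286 (.hit (nat_lit 16) (nat_lit 56) (nat_lit 0xbc0001780002ffc01) b9287 (.nil))) (.nil)))) (.one (nat_lit 70) (nat_lit 20) (nat_lit 60) (nat_lit 0xbc0001780002ff36a) b9290 (.nil)))))) (.nil))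
noncomputable def r28_176 : Rw Blk := .tok (nat_lit 6) (nat_lit 0x180000300000600000c00001800003000005fc346bfaa617f95a2ff1e5) (.hit (nat_lit 81) (nat_lit 0) (nat_lit 0x17f24bafe7735fc4d2bfc0a97f4f52ff3105fbc26bf9f597ee642fe25c) b30247 (.tok (nat_lit 3) (nat_lit 0x17f454aff15d5fd6dcbfa28d7f3d22fe8a95f8d78bf3ec57ef032fdd45) (.hit (nat_lit 82) (nat_lit 1) (nat_lit 0x17e5d9afcca95fa02cbf2eb97e60a2fcc425f68bebef5517e5f7afd886) b30248 (.one (nat_lit 14) (nat_lit 84) (nat_lit 4) (nat_lit 0x17f454aff15d5fd6dcbfa28d7f3d22fe8a95f7dc6bf1f617ed852fdd45) b30249 (.one (nat_lit 56) (nat_lit 86) (nat_lit 6) (nat_lit 0x17f1532fe4d75fc432bf8a857f0d32fe2a65f8d78bf3ec57ef032fdaa6) b30250 (.nil)))) (.tok (nat_lit 40) (nat_lit 0x17f49b2feccc5fd78ebfa4cd7f41c2fe9385f9240bf48557f130afda76) (.hit (nat_lit 100) (nat_lit 33) (nat_lit 0x17f49b2feccc5fd78ebfa4cd7f41c2fe9385f9240bf48557f130afda76) b30251 (.hit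 (nat_lit 101) (nat_lit 34) (nat_lit 0x17f190afe6a95fc002bf8c7d7f190afe3215f85ccbf2f6d7eff02fda45) b30252 (.nil))) (.tok (nat_lit 43) (nat_lit 0x17f36f3000005fde4abfd93d7fadeaff5285fb77ebf92d17f3432fea52) (.hit (nat_lit 102) (nat_lit 35) (nat_lit 0x17f36f3000005fde4abfd93d7fadeaff5285fb77ebf92d17f3432fea52) b30255 (.hit (nat_lit 103) (nat_lit 36) (nat_lit 0x17eca7afe5e05fb970bfa3917f474afea0d5fa454bf6c7d7f2dd2fe420) b30256 (.nil))) (.tok (nat_lit 46) (nat_lit 0x1800002ffe3f600000c00001800003000005fc346bfaa617f95a2ff1e5) (.hit (nat_lit 104) (nat_lit 37) (nat_lit 0x17f4642fe4935ff650bfc5117f4782ff9865fc346bfaa617f4732ff1e5) b30253 (.hit (nat_lit 105) (nat_lit 38) (nat_lit 0x1800002ffe3f600000c00001800003000005faf6cbf82ad7f95a2feccd) b30254 (.nil))) (.nil)))))) (.tok (nat_lit 9) (nat_lit 0x180000300000600000bfff397ffe12ffff2600a5ac0000180000300000) (.hit (nat_lit 157) (nat_lit 0)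 (nat_lit 0x17f24bafe7735fc4d2bfa0cd7f07c2ff1855fb516bf8eb17f1db2fe260) b30237 (.tok (nat_lit 3) (nat_lit 0x17f454aff15d5fd6dcbfa1117f383afe8a75fd876bfacbd7f8d32fe676) (.hit (nat_lit 158) (nat_lit 1) (nat_lit 0x17e5d9afcca95fa02cbf2eb97e609afcc425f98e0bf3cf57ed14afd8a9) b30238 (.one (nat_lit 14) (nat_lit 160) (nat_lit 4) (nat_lit 0x17f454aff15d5fd6dcbfa1117f383afe8a75fd876bfacbd7f8d32fe676) b30239 (.one (nat_lit 68) (nat_lit 161) (nat_lit 5) (nat_lit 0x17f1532fe4d75fc432bf8a917f0d32fe2a65fc6c8bf98017f7d4afe1ec) b30240 (.nil)))) (.tok (nat_lit 40) (nat_lit 0x17f49b2feccc5fd78ebfa4cd7f41a2fe9385fd0c0bfb14d7fc792febf3) (.hit (nat_lit 176) (nat_lit 33) (nat_lit 0x17f49b2feccc5fd78ebfa4cd7f41a2fe9385fd0c0bfb14d7fc792febf3) b30241 (.hit (nat_lit 177) (nat_lit 34) (nat_lit 0x17f190afe6a95fc002bf8c917f1902fe3215fcb46bf99c17f611afe17c) b30242 (.nil))) (.tok (nat_lit 43) (nat_lit 0x1800002ffe3f600000bfff397ffe12ffff2600a5ac0000180000300000)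 (.hit (nat_lit 178) (nat_lit 35) (nat_lit 0x17f4642fe4935ff650bfc5117f4782ff9865fc346bfaa617f4732ffea2) b30245 (.hit (nat_lit 179) (nat_lit 36) (nat_lit 0x1800002ffe3f600000bfff397ffe12ffff2600a5ac0000180000300000) b30246 (.nil))) (.tok (nat_lit 46) (nat_lit 0x17f36f3000005fde4abfd0197f76d2ff4695fd284bfc7197f63aafec4d) (.hit (nat_lit 180) (nat_lit 37) (nat_lit 0x17f36f3000005fde4abfd0197f76d2ff4695fd284bfc7197f63aafec4d) b30243 (.hit (nat_lit 181) (nat_lit 38) (nat_lit 0x17eca7afe5e05fb970bf9ec17f38d2fea0d5fb76abf87a57f554afe581) b30244 (.nil))) (.nil)))))) (.nil))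
noncomputable def r28_177 : Rw Blk := .tok (nat_lit 3) (nat_lit 0xbc0001780002fed20) (.hit (nat_lit 61) (nat_lit 0) (nat_lit 0xbc0001780002fd42f) b30356 (.tok (nat_lit 14) (nat_lit 0xbc0001780002fed20) (.hit (nat_lit 82) (nat_lit 61) (nat_lit 0xbc0001780002fe4fe) b30357 (.one (nat_lit 3) (nat_lit 83) (nat_lit 62) (nat_lit 0xbc0001780002fcd56) b30358 (.tok (nat_lit 6) (nat_lit 0xbc0001780002fd1e1) (.hit (nat_lit 86) (nat_lit 65) (nat_lit 0xbc0001780002fd106) b30359 (.hit (nat_lit 87) (nat_lit 66) (nat_lit 0xbc0001780002fd1e1) b30360 (.nil))) (.tok (nat_lit 9) (nat_lit 0xbc0001780002fed20) (.hit (nat_lit 84) (nat_lit 63) (nat_lit 0xbc0001780002fed20) b30361 (.hit (nat_lit 85) (nat_lit 64) (nat_lit 0xbc0001780002fd013) b30362 (.nil))) (.nil))))) (.one (nat_lit 17) (nat_lit 88) (nat_lit 67) (nat_lit 0xbc0001780002fc8f8) b30363 (.tok (nat_lit 20) (nat_lit 0xbc0001780002fcf21) (.hit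 (nat_lit 89) (nat_lit 68) (nat_lit 0xbc0001780002fcf21) b30366 (.hit (nat_lit 90) (nat_lit 69) (nat_lit 0xbc0001780002fc701) b30367 (.nil))) (.tok (nat_lit 23) (nat_lit 0xbc0001780002fd546) (.hit (nat_lit 91) (nat_lit 70) (nat_lit 0xbc0001780002fd546) b30364 (.hit (nat_lit 92) (nat_lit 71) (nat_lit 0xbc0001780002fc721) b30365 (.nil))) (.one (nat_lit 26) (nat_lit 93) (nat_lit 72) (nat_lit 0xbc0001780002fb486) b30368 (.one (nat_lit 29) (nat_lit 94) (nat_lit 73) (nat_lit 0xbc0001780002fb711) b30369 (.one (nat_lit 32) (nat_lit 95) (nat_lit 74) (nat_lit 0xbc0001780002fc040) b30371 (.one (nat_lit 35) (nat_lit 96) (nat_lit 75) (nat_lit 0xbc0001780002fbb32) b30370 (.one (nat_lit 38) (nat_lit 97) (nat_lit 76) (nat_lit 0xbc0001780002fc618) b30372 (.tok (nat_lit 41) (nat_lit 0xbc0001780002fc453) (.hit (nat_lit 98) (nat_lit 77) (nat_lit 0xbc0001780002fadd7) b30373 (.hit (nat_lit 99) (nat_lit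 78) (nat_lit 0xbc0001780002fc453) b30374 (.nil))) (.tok (nat_lit 44) (nat_lit 0xbc0001780002fbe80) (.hit (nat_lit 100) (nat_lit 79) (nat_lit 0xbc0001780002fb1eb) b30377 (.hit (nat_lit 101) (nat_lit 80) (nat_lit 0xbc0001780002fbe80) b30378 (.nil))) (.tok (nat_lit 47) (nat_lit 0xbc0001780002fbf6d) (.hit (nat_lit 102) (nat_lit 81) (nat_lit 0xbc0001780002fbe73) b30375 (.hit (nat_lit 103) (nat_lit 82) (nat_lit 0xbc0001780002fbf6d) b30376 (.nil))) (.one (nat_lit 50) (nat_lit 104) (nat_lit 83) (nat_lit 0xbc0001780002fc69a) b30379 (.tok (nat_lit 53) (nat_lit 0xbc0001780002fc9e5) (.hit (nat_lit 105) (nat_lit 84) (nat_lit 0xbc0001780002fc9e5) b30380 (.hit (nat_lit 106) (nat_lit 85) (nat_lit 0xbc0001780002fc30d) b30381 (.nil))) (.tok (nat_lit 56) (nat_lit 0xbc0001780002fe4fb) (.hit (nat_lit 107) (nat_lit 86) (nat_lit 0xbc0001780002fddb7) b30382 (.one (nat_lit 3) (nat_lit 111) (nat_lit 90)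 (nat_lit 0xbc0001780002fd1b4) b30386 (.tok (nat_lit 6) (nat_lit 0xbc0001780002fe4fb) (.hit (nat_lit 109) (nat_lit 88) (nat_lit 0xbc0001780002fe4fb) b30384 (.hit (nat_lit 110) (nat_lit 89) (nat_lit 0xbc0001780002fd1e8) b30385 (.nil))) (.one (nat_lit 9) (nat_lit 108) (nat_lit 87) (nat_lit 0xbc0001780002fd4bb) b30383 (.nil))))) (.one (nat_lit 59) (nat_lit 112) (nat_lit 91) (nat_lit 0xbc0001780002fb24b) b30387 (.nil)))))))))))))))))) (.tok (nat_lit 40) (nat_lit 0xbc000178000303c9f) (.hit (nat_lit 245) (nat_lit 0) (nat_lit 0xbc000178000301b75) b30388 (.tok (nat_lit 6) (nat_lit 0xbc000178000303c9f) (.hit (nat_lit 246) (nat_lit 7) (nat_lit 0xbc000178000303c9f) b30391 (.hit (nat_lit 247) (nat_lit 15) (nat_lit 0xbc0001780002ff41e) b30392 (.nil))) (.tok (nat_lit 9) (nat_lit 0xbc00017800030067f) (.hit (nat_lit 248) (nat_lit 20) (nat_lit 0xbc00017800030067f) b30389 (.hit (nat_lit 249) (nat_lit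 28) (nat_lit 0xbc0001780002ff5cc) b30390 (.nil))) (.nil)))) (.tok (nat_lit 43) (nat_lit 0xbc0001780003035b4) (.hit (nat_lit 270) (nat_lit 0) (nat_lit 0xbc00017800030039d) b30398 (.tok (nat_lit 3) (nat_lit 0xbc0001780003035b4) (.hit (nat_lit 271) (nat_lit 1) (nat_lit 0xbc0001780002ff594) b30399 (.one (nat_lit 67) (nat_lit 272) (nat_lit 2) (nat_lit 0xbc0001780003035b4) b30400 (.nil))) (.tok (nat_lit 6) (nat_lit 0xbc000178000301edf) (.hit (nat_lit 273) (nat_lit 7) (nat_lit 0xbc0001780002fdfd0) b30401 (.hit (nat_lit 276) (nat_lit 15) (nat_lit 0xbc0001780002ff1a2) b30404 (.tok (nat_lit 55) (nat_lit 0xbc000178000301edf) (.hit (nat_lit 274) (nat_lit 8) (nat_lit 0xbc0001780002ff4e0) b30402 (.hit (nat_lit 277) (nat_lit 16) (nat_lit 0xbc000178000301edf) b30405 (.one (nat_lit 6) (nat_lit 275) (nat_lit 9) (nat_lit 0xbc0001780003016f6) b30403 (.nil)))) (.nil)))) (.nil)))) (.tok (nat_lit 46)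 (nat_lit 0xbc00017800030095b) (.hit (nat_lit 256) (nat_lit 0) (nat_lit 0xbc00017800030095b) b30393 (.tok (nat_lit 3) (nat_lit 0xbc0001780002fe83f) (.hit (nat_lit 257) (nat_lit 1) (nat_lit 0xbc0001780002fd04e) b30394 (.one (nat_lit 55) (nat_lit 258) (nat_lit 3) (nat_lit 0xbc0001780002fe83f) b30395 (.nil))) (.tok (nat_lit 9) (nat_lit 0xbc0001780002fd818) (.hit (nat_lit 259) (nat_lit 20) (nat_lit 0xbc0001780002fd818) b30396 (.hit (nat_lit 262) (nat_lit 28) (nat_lit 0xbc0001780002fd2e9) b30397 (.nil))) (.nil)))) (.nil))))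
noncomputable def r28_178 : Rw Blk := .tok (nat_lit 3) (nat_lit 0x5e0000bc00017ee182ff2d5) (.hit (nat_lit 61) (nat_lit 0) (nat_lit 0x5e0000bc00017e1eaafdc76) b30406 (.tok (nat_lit 14) (nat_lit 0x5e0000bc00017ee182ff2d5) (.hit (nat_lit 82) (nat_lit 61) (nat_lit 0x5e0000bc00017eaaf2fede7) b30407 (.one (nat_lit 3) (nat_lit 83) (nat_lit 62) (nat_lit 0x5e0000bc00017e3e7afe0b8) b30408 (.tok (nat_lit 6) (nat_lit 0x5e0000bc00017ea41aff0b3) (.hit (nat_lit 86) (nat_lit 65) (nat_lit 0x5e0000bc00017ea41aff0b3) b30409 (.hit (nat_lit 87) (nat_lit 66) (nat_lit 0x5e0000bc00017e0d52fda93) b30410 (.nil))) (.tok (nat_lit 9) (nat_lit 0x5e0000bc00017ee182ff2d5) (.hit (nat_lit 84) (nat_lit 63) (nat_lit 0x5e0000bc00017ee182ff2d5) b30411 (.hit (nat_lit 85) (nat_lit 64) (nat_lit 0x5e0000bc00017e8abafea40) b30412 (.nil))) (.nil))))) (.one (nat_lit 17) (nat_lit 88) (nat_lit 67) (nat_lit 0x5e0000bc00017e05dafd9a4)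 b30413 (.tok (nat_lit 20) (nat_lit 0x5e0000bc00017dd88afd3fa) (.hit (nat_lit 89) (nat_lit 68) (nat_lit 0x5e0000bc00017dd88afd3fa) b30416 (.hit (nat_lit 90) (nat_lit 69) (nat_lit 0x5e0000bc00017d9642fcbb1) b30415 (.nil))) (.tok (nat_lit 23) (nat_lit 0x5e0000bc00017dd05afd2f4) (.hit (nat_lit 91) (nat_lit 70) (nat_lit 0x5e0000bc00017dd05afd2f4) b30414 (.hit (nat_lit 92) (nat_lit 71) (nat_lit 0x5e0000bc00017d9642fcbb1) b30415 (.nil))) (.one (nat_lit 26) (nat_lit 93) (nat_lit 72) (nat_lit 0x5e0000bc00017d3a82fc039) b30417 (.one (nat_lit 29) (nat_lit 94) (nat_lit 73) (nat_lit 0x5e0000bc00017d4062fc0f5) b30418 (.one (nat_lit 32) (nat_lit 95) (nat_lit 74) (nat_lit 0x5e0000bc00017d67cafc5e2) b30420 (.one (nat_lit 35) (nat_lit 96) (nat_lit 75) (nat_lit 0x5e0000bc00017d1a0afbc2a) b30419 (.one (nat_lit 38) (nat_lit 97) (nat_lit 76) (nat_lit 0x5e0000bc00017d9f8afccda) b30421 (.tok (nat_lit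 41) (nat_lit 0x5e0000bc00017de0fafd508) (.hit (nat_lit 98) (nat_lit 77) (nat_lit 0x5e0000bc00017cc6fafb1c8) b30422 (.hit (nat_lit 99) (nat_lit 78) (nat_lit 0x5e0000bc00017de0fafd508) b30423 (.nil))) (.tok (nat_lit 44) (nat_lit 0x5e0000bc00017d6bb2fc65f) (.hit (nat_lit 100) (nat_lit 79) (nat_lit 0x5e0000bc00017d1602fbba9) b30426 (.hit (nat_lit 101) (nat_lit 80) (nat_lit 0x5e0000bc00017d6bb2fc65f) b30427 (.nil))) (.tok (nat_lit 47) (nat_lit 0x5e0000bc00017da08afccfa) (.hit (nat_lit 102) (nat_lit 81) (nat_lit 0x5e0000bc00017d4212fc12b) b30424 (.hit (nat_lit 103) (nat_lit 82) (nat_lit 0x5e0000bc00017da08afccfa) b30425 (.nil))) (.one (nat_lit 50) (nat_lit 104) (nat_lit 83) (nat_lit 0x5e0000bc00017d8b4afca52) b30428 (.tok (nat_lit 53) (nat_lit 0x5e0000bc00017dd822fd3ed) (.hit (nat_lit 105) (nat_lit 84) (nat_lit 0x5e0000bc00017da77afcdd8) b30429 (.hit (nat_lit 106) (nat_lit 85) (nat_lit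 0x5e0000bc00017dd822fd3ed) b30430 (.nil))) (.tok (nat_lit 56) (nat_lit 0x5e0000bc00017eaa92fea33) (.hit (nat_lit 107) (nat_lit 86) (nat_lit 0x5e0000bc00017e99eafea33) b30431 (.one (nat_lit 3) (nat_lit 111) (nat_lit 90) (nat_lit 0x5e0000bc00017e1f52fdcd3) b30435 (.tok (nat_lit 6) (nat_lit 0x5e0000bc00017eaa92fe94f) (.hit (nat_lit 109) (nat_lit 88) (nat_lit 0x5e0000bc00017eaa92fe94f) b30433 (.hit (nat_lit 110) (nat_lit 89) (nat_lit 0x5e0000bc00017dd5a2fd39d) b30434 (.nil))) (.one (nat_lit 9) (nat_lit 108) (nat_lit 87) (nat_lit 0x5e0000bc00017e1c3afdc70) b30432 (.nil))))) (.one (nat_lit 59) (nat_lit 112) (nat_lit 91) (nat_lit 0x5e0000bc00017cf64afb7b2) b30436 (.nil)))))))))))))))))) (.tok (nat_lit 40) (nat_lit 0x5e0000bc00017ff8e300df5) (.hit (nat_lit 245) (nat_lit 0) (nat_lit 0x5e0000bc00017ff8e300df5) b30437 (.tok (nat_lit 6) (nat_lit 0x5e0000bc00017fbdab00ce1) (.hit (nat_lit 246)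 (nat_lit 7) (nat_lit 0x5e0000bc00017fbdab00ce1) b30440 (.hit (nat_lit 247) (nat_lit 15) (nat_lit 0x5e0000bc00017f4f1300042) b30441 (.nil))) (.tok (nat_lit 9) (nat_lit 0x5e0000bc00017fb32300c71) (.hit (nat_lit 248) (nat_lit 20) (nat_lit 0x5e0000bc00017fb32300c71) b30438 (.hit (nat_lit 249) (nat_lit 28) (nat_lit 0x5e0000bc00017f35aaffea9) b30439 (.nil))) (.nil)))) (.tok (nat_lit 43) (nat_lit 0x5e0000bc000180777b02510) (.hit (nat_lit 270) (nat_lit 0) (nat_lit 0x5e0000bc00017f5ceb00086) b30447 (.tok (nat_lit 3) (nat_lit 0x5e0000bc000180777b02510) (.hit (nat_lit 271) (nat_lit 1) (nat_lit 0x5e0000bc00017efb9aff912) b30448 (.one (nat_lit 67) (nat_lit 272) (nat_lit 2) (nat_lit 0x5e0000bc000180777b02510) b30449 (.nil))) (.tok (nat_lit 6) (nat_lit 0x5e0000bc00018024e3012ac) (.hit (nat_lit 273) (nat_lit 7) (nat_lit 0x5e0000bc00017ee1aaff550) b30450 (.hit (nat_lit 276) (nat_lit 15) (nat_lit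 0x5e0000bc00017edb5aff47b) b30453 (.tok (nat_lit 55) (nat_lit 0x5e0000bc00018024e3012ac) (.hit (nat_lit 274) (nat_lit 8) (nat_lit 0x5e0000bc00017fa09b00849) b30451 (.hit (nat_lit 277) (nat_lit 16) (nat_lit 0x5e0000bc00017fe96300c43) b30454 (.one (nat_lit 6) (nat_lit 275) (nat_lit 9) (nat_lit 0x5e0000bc00018024e3012ac) b30452 (.nil)))) (.nil)))) (.nil)))) (.tok (nat_lit 46) (nat_lit 0x5e0000bc00017feb4b015ed) (.hit (nat_lit 256) (nat_lit 0) (nat_lit 0x5e0000bc00017fbd5300e12) b30442 (.tok (nat_lit 3) (nat_lit 0x5e0000bc00017fb14b015ed) (.hit (nat_lit 257) (nat_lit 1) (nat_lit 0x5e0000bc00017ef11afeda4) b30443 (.one (nat_lit 55) (nat_lit 258) (nat_lit 3) (nat_lit 0x5e0000bc00017fb14b015ed) b30444 (.nil))) (.tok (nat_lit 9) (nat_lit 0x5e0000bc00017feb4b015a0) (.hit (nat_lit 259) (nat_lit 20) (nat_lit 0x5e0000bc00017feb4b015a0) b30445 (.hit (nat_lit 262) (nat_lit 28) (nat_lit 0x5e0000bc00017f8d230034f)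 b30446 (.nil))) (.nil)))) (.nil))))
noncomputable def r28_179 : Rw Blk := .tok (nat_lit 3) (nat_lit 0x2f00005e0000bf69197f8762ff4bf) (.hit (nat_lit 61) (nat_lit 0) (nat_lit 0x2f00005e0000bf05557ea6c2fdcc4) b30257 (.tok (nat_lit 14) (nat_lit 0x2f00005e0000bf69197f8762ff4bf) (.hit (nat_lit 82) (nat_lit 61) (nat_lit 0x2f00005e0000bf48917f0e32fec69) b30258 (.one (nat_lit 3) (nat_lit 83) (nat_lit 62) (nat_lit 0x2f00005e0000bee9f17e368afcca6) b30259 (.tok (nat_lit 6) (nat_lit 0x2f00005e0000bf69197f8762ff4bf) (.hit (nat_lit 86) (nat_lit 65) (nat_lit 0x2f00005e0000bf69197f8762ff4bf) b30260 (.hit (nat_lit 87) (nat_lit 66) (nat_lit 0x2f00005e0000bef4e57e4c72fcf63) b30261 (.nil))) (.tok (nat_lit 9) (nat_lit 0x2f00005e0000befc1d7e5ae2fd131) (.hit (nat_lit 84) (nat_lit 63) (nat_lit 0x2f00005e0000bef8b17e540afd056) b30262 (.hit (nat_lit 85) (nat_lit 64) (nat_lit 0x2f00005e0000befc1d7e5ae2fd131)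 b30263 (.nil))) (.nil))))) (.one (nat_lit 17) (nat_lit 88) (nat_lit 67) (nat_lit 0x2f00005e0000bed8797e139afc848) b30264 (.tok (nat_lit 20) (nat_lit 0x2f00005e0000bf09b17e760afd496) (.hit (nat_lit 89) (nat_lit 68) (nat_lit 0x2f00005e0000bf09b17e760afd496) b30267 (.hit (nat_lit 90) (nat_lit 69) (nat_lit 0x2f00005e0000bed11d7e04e2fc671) b30268 (.nil))) (.tok (nat_lit 23) (nat_lit 0x2f00005e0000bef11d7e44e2fce71) (.hit (nat_lit 91) (nat_lit 70) (nat_lit 0x2f00005e0000bef11d7e44e2fce71) b30265 (.hit (nat_lit 92) (nat_lit 71) (nat_lit 0x2f00005e0000bed09d7e03e2fc651) b30266 (.nil))) (.one (nat_lit 26) (nat_lit 93) (nat_lit 72) (nat_lit 0x2f00005e0000be86b17d700afb3d6) b30269 (.one (nat_lit 29) (nat_lit 94) (nat_lit 73) (nat_lit 0x2f00005e0000be90dd7d8462fb661) b30270 (.one (nat_lit 32) (nat_lit 95) (nat_lit 74) (nat_lit 0x2f00005e0000bea1617da56afba82) b30272 (.one (nat_lit 35) (nat_lit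 96) (nat_lit 75) (nat_lit 0x2f00005e0000beb5997dcddafbf90) b30271 (.one (nat_lit 38) (nat_lit 97) (nat_lit 76) (nat_lit 0x2f00005e0000beccf97dfc9afc568) b30273 (.tok (nat_lit 41) (nat_lit 0x2f00005e0000bec5e57dee72fc3a3) (.hit (nat_lit 98) (nat_lit 77) (nat_lit 0x2f00005e0000be6bf57d3a92fad27) b30274 (.hit (nat_lit 99) (nat_lit 78) (nat_lit 0x2f00005e0000bec5e57dee72fc3a3) b30275 (.nil))) (.tok (nat_lit 44) (nat_lit 0x2f00005e0000beb24d7dc742fbebd) (.hit (nat_lit 100) (nat_lit 79) (nat_lit 0x2f00005e0000beae657dbf72fbdc3) b30278 (.hit (nat_lit 101) (nat_lit 80) (nat_lit 0x2f00005e0000beb24d7dc742fbebd) b30279 (.nil))) (.tok (nat_lit 47) (nat_lit 0x2f00005e0000beae997dbfdafbdd0) (.hit (nat_lit 102) (nat_lit 81) (nat_lit 0x2f00005e0000be7c457d5b32fb13b) b30276 (.hit (nat_lit 103) (nat_lit 82) (nat_lit 0x2f00005e0000beae997dbfdafbdd0) b30277 (.nil))) (.one (nat_lit 62) (nat_lit 113)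 (nat_lit 92) (nat_lit 0x2f00005e0000becf017e00aafc5ea) b30280 (.tok (nat_lit 65) (nat_lit 0x2f00005e0000bedc2d7e1b02fc935) (.hit (nat_lit 114) (nat_lit 93) (nat_lit 0x2f00005e0000bedc2d7e1b02fc935) b30281 (.hit (nat_lit 115) (nat_lit 94) (nat_lit 0x2f00005e0000bec0cd7de442fc25d) b30282 (.nil))) (.tok (nat_lit 68) (nat_lit 0x2f00005e0000bf48857f1f4afebde) (.hit (nat_lit 116) (nat_lit 95) (nat_lit 0x2f00005e0000bf2b757f1452fe5df) b30283 (.one (nat_lit 3) (nat_lit 120) (nat_lit 99) (nat_lit 0x2f00005e0000befb697e597afd104) b30287 (.one (nat_lit 6) (nat_lit 117) (nat_lit 96) (nat_lit 0x2f00005e0000bf07857e71b2fd40b) b30284 (.tok (nat_lit 9) (nat_lit 0x2f00005e0000bf48857f1f4afebde) (.hit (nat_lit 118) (nat_lit 97) (nat_lit 0x2f00005e0000bf48857f1f4afebde) b30285 (.hit (nat_lit 119) (nat_lit 98) (nat_lit 0x2f00005e0000befc397e5b1afd138) b30286 (.nil))) (.nil))))) (.one (nat_lit 71)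 (nat_lit 121) (nat_lit 100) (nat_lit 0x2f00005e0000be7dc57d5e32fb19b) b30288 (.nil)))))))))))))))))) (.tok (nat_lit 40) (nat_lit 0x2f00005e0000c0a71581e653038a5) (.hit (nat_lit 221) (nat_lit 0) (nat_lit 0x2f00005e0000c0226d8089eb014ae) b30289 (.tok (nat_lit 6) (nat_lit 0x2f00005e0000bfce957fb9ab0026f) (.hit (nat_lit 222) (nat_lit 7) (nat_lit 0x2f00005e0000bfce957fb9ab0026f) b30292 (.hit (nat_lit 223) (nat_lit 15) (nat_lit 0x2f00005e0000bf8bc97f933aff7ca) b30293 (.nil))) (.tok (nat_lit 9) (nat_lit 0x2f00005e0000c0a71581e653038a5) (.hit (nat_lit 224) (nat_lit 20) (nat_lit 0x2f00005e0000c0a71581e653038a5) b30290 (.hit (nat_lit 225) (nat_lit 28) (nat_lit 0x2f00005e0000bf85117fb22affa9d) b30291 (.nil))) (.nil)))) (.tok (nat_lit 43) (nat_lit 0x2f00005e0000bfda05800c9b00090) (.hit (nat_lit 232) (nat_lit 0) (nat_lit 0x2f00005e0000bfda05800c9b00090) b30294 (.tok (nat_lit 3) (nat_lit 0x2f00005e0000bf55957f4ee2fea7b)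 (.hit (nat_lit 233) (nat_lit 1) (nat_lit 0x2f00005e0000bef5d17e8f5afd28a) b30295 (.one (nat_lit 67) (nat_lit 234) (nat_lit 2) (nat_lit 0x2f00005e0000bf55957f4ee2fea7b) b30296 (.nil))) (.tok (nat_lit 6) (nat_lit 0x2f00005e0000bf14f97ecdaafda54) (.hit (nat_lit 235) (nat_lit 7) (nat_lit 0x2f00005e0000bf14f97ecdaafda54) b30297 (.hit (nat_lit 238) (nat_lit 15) (nat_lit 0x2f00005e0000bf003d7ea432fd525) b30298 (.nil))) (.nil)))) (.tok (nat_lit 46) (nat_lit 0x2f00005e0000c08b6980ba1b02e99) (.hit (nat_lit 246) (nat_lit 0) (nat_lit 0x2f00005e0000bfc30d7fef22ffb30) b30299 (.tok (nat_lit 3) (nat_lit 0x2f00005e0000c08b69805b3b02e99) (.hit (nat_lit 247) (nat_lit 1) (nat_lit 0x2f00005e0000bf8ae97f59f2ff687) b30300 (.one (nat_lit 55) (nat_lit 248) (nat_lit 3) (nat_lit 0x2f00005e0000c08b69805b3b02e99) b30301 (.nil))) (.tok (nat_lit 9) (nat_lit 0x2f00005e0000c0301580ba1b01cfb) (.hit (nat_lit 249)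 (nat_lit 20) (nat_lit 0x2f00005e0000bf33d97eb322fd9aa) b30302 (.hit (nat_lit 252) (nat_lit 28) (nat_lit 0x2f00005e0000bf7b217ec26afe4a7) b30305 (.tok (nat_lit 67) (nat_lit 0x2f00005e0000c0301580ba1b01cfb) (.hit (nat_lit 250) (nat_lit 21) (nat_lit 0x2f00005e0000bf88197fb21affd01) b30303 (.hit (nat_lit 253) (nat_lit 29) (nat_lit 0x2f00005e0000c0301580022301a88) b30306 (.one (nat_lit 9) (nat_lit 251) (nat_lit 22) (nat_lit 0x2f00005e0000c0107180ba1b01cfb) b30304 (.nil)))) (.nil)))) (.nil)))) (.nil))))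
noncomputable def r28_180 : Rw Blk := .tok (nat_lit 3) (nat_lit 0x5e0000bc00017efe82ff5fb) (.hit (nat_lit 61) (nat_lit 0) (nat_lit 0x5e0000bc00017e3baafdebe) b30307 (.tok (nat_lit 14) (nat_lit 0x5e0000bc00017efe82ff5fb) (.hit (nat_lit 82) (nat_lit 61) (nat_lit 0x5e0000bc00017ec7f2fee6d) b30308 (.one (nat_lit 3) (nat_lit 83) (nat_lit 62) (nat_lit 0x5e0000bc00017e5b7afda7d) b30309 (.tok (nat_lit 6) (nat_lit 0x5e0000bc00017efe82ff5fb) (.hit (nat_lit 86) (nat_lit 65) (nat_lit 0x5e0000bc00017efe82ff5fb) b30310 (.hit (nat_lit 87) (nat_lit 66) (nat_lit 0x5e0000bc00017ea7bafe405) b30311 (.nil))) (.tok (nat_lit 9) (nat_lit 0x5e0000bc00017ec11afea73) (.hit (nat_lit 84) (nat_lit 63) (nat_lit 0x5e0000bc00017ec11afea73) b30312 (.hit (nat_lit 85) (nat_lit 64) (nat_lit 0x5e0000bc00017e2a52fd458) b30313 (.nil))) (.nil))))) (.one (nat_lit 17) (nat_lit 88) (nat_lit 67) (nat_lit 0x5e0000bc00017e22dafd369)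 b30314 (.tok (nat_lit 20) (nat_lit 0x5e0000bc00017ded5afccb9) (.hit (nat_lit 89) (nat_lit 68) (nat_lit 0x5e0000bc00017ded5afccb9) b30317 (.hit (nat_lit 90) (nat_lit 69) (nat_lit 0x5e0000bc00017db342fc576) b30316 (.nil))) (.tok (nat_lit 23) (nat_lit 0x5e0000bc00017df58afcdbf) (.hit (nat_lit 91) (nat_lit 70) (nat_lit 0x5e0000bc00017df58afcdbf) b30315 (.hit (nat_lit 92) (nat_lit 71) (nat_lit 0x5e0000bc00017db342fc576) b30316 (.nil))) (.one (nat_lit 26) (nat_lit 93) (nat_lit 72) (nat_lit 0x5e0000bc00017d5782fb9fe) b30318 (.one (nat_lit 29) (nat_lit 94) (nat_lit 73) (nat_lit 0x5e0000bc00017d5d62fbaba) b30319 (.one (nat_lit 32) (nat_lit 95) (nat_lit 74) (nat_lit 0x5e0000bc00017d370afb5ef) b30321 (.one (nat_lit 35) (nat_lit 96) (nat_lit 75) (nat_lit 0x5e0000bc00017d84cafbfa7) b30320 (.one (nat_lit 38) (nat_lit 97) (nat_lit 76) (nat_lit 0x5e0000bc00017dbc8afc69f) b30322 (.tok (nat_lit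 41) (nat_lit 0x5e0000bc00017dfdfafcecd) (.hit (nat_lit 98) (nat_lit 77) (nat_lit 0x5e0000bc00017ce3fafab8d) b30323 (.hit (nat_lit 99) (nat_lit 78) (nat_lit 0x5e0000bc00017dfdfafcecd) b30324 (.nil))) (.tok (nat_lit 44) (nat_lit 0x5e0000bc00017dbd8afc6bf) (.hit (nat_lit 100) (nat_lit 79) (nat_lit 0x5e0000bc00017d5f12fbaf0) b30327 (.hit (nat_lit 101) (nat_lit 80) (nat_lit 0x5e0000bc00017dbd8afc6bf) b30328 (.nil))) (.tok (nat_lit 47) (nat_lit 0x5e0000bc00017d88b2fc024) (.hit (nat_lit 102) (nat_lit 81) (nat_lit 0x5e0000bc00017d3302fb56e) b30325 (.hit (nat_lit 103) (nat_lit 82) (nat_lit 0x5e0000bc00017d88b2fc024) b30326 (.nil))) (.one (nat_lit 62) (nat_lit 113) (nat_lit 92) (nat_lit 0x5e0000bc00017da84afc417) b30329 (.tok (nat_lit 65) (nat_lit 0x5e0000bc00017df522fcdb2) (.hit (nat_lit 114) (nat_lit 93) (nat_lit 0x5e0000bc00017dc47afc79d) b30330 (.hit (nat_lit 115) (nat_lit 94) (nat_lit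 0x5e0000bc00017df522fcdb2) b30331 (.nil))) (.tok (nat_lit 68) (nat_lit 0x5e0000bc00017ec792ff005) (.hit (nat_lit 116) (nat_lit 95) (nat_lit 0x5e0000bc00017eb6eafee3c) b30332 (.one (nat_lit 3) (nat_lit 120) (nat_lit 99) (nat_lit 0x5e0000bc00017e3c52fd698) b30336 (.one (nat_lit 6) (nat_lit 117) (nat_lit 96) (nat_lit 0x5e0000bc00017e393afd635) b30333 (.tok (nat_lit 9) (nat_lit 0x5e0000bc00017ec792ff005) (.hit (nat_lit 118) (nat_lit 97) (nat_lit 0x5e0000bc00017ec792ff005) b30334 (.hit (nat_lit 119) (nat_lit 98) (nat_lit 0x5e0000bc00017df2a2fcd62) b30335 (.nil))) (.nil))))) (.one (nat_lit 71) (nat_lit 121) (nat_lit 100) (nat_lit 0x5e0000bc00017d134afb177) b30337 (.nil)))))))))))))))))) (.tok (nat_lit 40) (nat_lit 0x5e0000bc00018015e300f6a) (.hit (nat_lit 221) (nat_lit 0) (nat_lit 0x5e0000bc00018015e300f6a) b30338 (.tok (nat_lit 6) (nat_lit 0x5e0000bc00017fd02300c35) (.hit (nat_lit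 222) (nat_lit 7) (nat_lit 0x5e0000bc00017fd02300c35) b30341 (.hit (nat_lit 223) (nat_lit 15) (nat_lit 0x5e0000bc00017f52aaffd45) b30342 (.nil))) (.tok (nat_lit 9) (nat_lit 0x5e0000bc00017fdaab00ece) (.hit (nat_lit 224) (nat_lit 20) (nat_lit 0x5e0000bc00017fdaab00ece) b30339 (.hit (nat_lit 225) (nat_lit 28) (nat_lit 0x5e0000bc00017f6c13002dd) b30340 (.nil))) (.nil)))) (.tok (nat_lit 43) (nat_lit 0x5e0000bc000180084b01188) (.hit (nat_lit 232) (nat_lit 0) (nat_lit 0x5e0000bc00017fda5300bab) b30343 (.tok (nat_lit 3) (nat_lit 0x5e0000bc00017fce4b0102e) (.hit (nat_lit 233) (nat_lit 1) (nat_lit 0x5e0000bc00017f0e1afec61) b30344 (.one (nat_lit 67) (nat_lit 234) (nat_lit 2) (nat_lit 0x5e0000bc00017fce4b0102e) b30345 (.nil))) (.tok (nat_lit 6) (nat_lit 0x5e0000bc000180084b01188) (.hit (nat_lit 235) (nat_lit 7) (nat_lit 0x5e0000bc000180084b01188) b30346 (.hit (nat_lit 238) (nat_lit 15) (nat_lit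 0x5e0000bc00017faa230042c) b30347 (.nil))) (.nil)))) (.tok (nat_lit 46) (nat_lit 0x5e0000bc000180947b01f45) (.hit (nat_lit 246) (nat_lit 0) (nat_lit 0x5e0000bc00017f79eaffe12) b30348 (.tok (nat_lit 3) (nat_lit 0x5e0000bc000180947b01f45) (.hit (nat_lit 247) (nat_lit 1) (nat_lit 0x5e0000bc00017f189aff99d) b30349 (.one (nat_lit 55) (nat_lit 248) (nat_lit 3) (nat_lit 0x5e0000bc000180947b01f45) b30350 (.nil))) (.tok (nat_lit 9) (nat_lit 0x5e0000bc00018041e300fe1) (.hit (nat_lit 249) (nat_lit 20) (nat_lit 0x5e0000bc00017efeaafe9b7) b30351 (.hit (nat_lit 252) (nat_lit 28) (nat_lit 0x5e0000bc00017ef85afecb3) b30354 (.tok (nat_lit 67) (nat_lit 0x5e0000bc00018041e300fe1) (.hit (nat_lit 250) (nat_lit 21) (nat_lit 0x5e0000bc00017fbd9b007d5) b30352 (.hit (nat_lit 253) (nat_lit 29) (nat_lit 0x5e0000bc000180066300ea7) b30355 (.one (nat_lit 9) (nat_lit 251) (nat_lit 22) (nat_lit 0x5e0000bc00018041e300fe1)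 b30353 (.nil)))) (.nil)))) (.nil)))) (.nil))))
noncomputable def r28_181 : Rw Blk := .tok (nat_lit 3) (nat_lit 0x17ede4afc6905fbf80bf6ae97ed912fdeca5fc452bfabad7f635afede5) (.hit (nat_lit 0) (nat_lit 0) (nat_lit 0x17ede4afc6905fbf80bf6ae97ed912fdeca5fc452bfabad7f635afede5) b36076 (.tok (nat_lit 6) (nat_lit 0x17e74eafaf4d5fba52bf3b5d7e3142fd19e5f699cbf00117e9132fe1c8) (.hit (nat_lit 1) (nat_lit 7) (nat_lit 0x17e74eafaf4d5fba52bf3b5d7e3142fd19e5f699cbf00117dda9afe1c8) b30458 (.hit (nat_lit 6) (nat_lit 15) (nat_lit 0x17e6172facde5faa4abf31a17e1dcafcf2f5f64bebef6557e9132fdf7d) b30459 (.nil))) (.tok (nat_lit 9) (nat_lit 0x17e74eafaf4d5fba52bf3b5d7e3142fd19e5f699cbf00117ec7eafe1c8) (.hit (nat_lit 10) (nat_lit 20) (nat_lit 0x17e74eafaf4d5fba52bf3b5d7e3142fd19e5f699cbf00117ec7eafe1c8) b30456 (.hit (nat_lit 15) (nat_lit 28) (nat_lit 0x17e6172facde5faa4abf31a17e1dcafcf2f5f64bebef6557e9892fdf7d)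 b30457 (.nil))) (.nil)))) (.tok (nat_lit 6) (nat_lit 0x180000300000600000c00001800003000005fce9abfc5657f7572ff986) (.hit (nat_lit 81) (nat_lit 0) (nat_lit 0x17f9062fddea5fd660bfccad7f5c02fef445fce9abfc5657f7572ff053) b30468 (.one (nat_lit 3) (nat_lit 82) (nat_lit 1) (nat_lit 0x17eb84afba075fb764bf57257eb39afce5f5f5988bedfe97e2dd2fd6fe) b30469 (.tok (nat_lit 6) (nat_lit 0x180000300000600000c00001800003000005fc660bfb9997f563aff986) (.hit (nat_lit 87) (nat_lit 7) (nat_lit 0x17f57f2fd8445fd1d2bf97917f3bdafdcd05f8000bf2cd97e3472fd0a6) b30470 (.hit (nat_lit 95) (nat_lit 15) (nat_lit 0x17ec9fafb9a15fa7babf5da97ec0a2fd0005f4898bebe097dfeaafce19) b30474 (.tok (nat_lit 55) (nat_lit 0x180000300000600000c00001800003000005fc660bfb9997f563aff986) (.hit (nat_lit 88) (nat_lit 8) (nat_lit 0x17ff622fe7f45fe1debffdc57fba62ff6d75fa7e0bf7c997edcf2fea70) b30471 (.hit (nat_lit 96) (nat_lit 16) (nat_lit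 0x17f8ebafd6225fde6ebfcc7d7f84bafef075fa46ebf75b57f23d2fee38) b30475 (.tok (nat_lit 6) (nat_lit 0x180000300000600000c00001800003000005fc660bfb9997f563aff986) (.hit (nat_lit 89) (nat_lit 9) (nat_lit 0x17fa04afefc75fe4a4bfd0e17f7662ff2b15fabc2bf845d7eef1afe7d8) b30472 (.one (nat_lit 55) (nat_lit 90) (nat_lit 10) (nat_lit 0x180000300000600000c00001800003000005fc660bfb9997f563aff986) b30473 (.nil))) (.nil)))) (.nil)))) (.nil)))) (.tok (nat_lit 9) (nat_lit 0x180000300000600000bffc5d7ffae3000006005c0c0000180000300bb1) (.hit (nat_lit 157) (nat_lit 0) (nat_lit 0x17f9062fddea5fd660bfbe817f595afef055fd3debfd1397f68fafee81) b30460 (.one (nat_lit 3) (nat_lit 158) (nat_lit 1) (nat_lit 0x17eb84afba075fb764bf57257eb39afce5f5faf6cbf7ac97f3672fe141) b30461 (.tok (nat_lit 9) (nat_lit 0x180000300000600000bffc5d7ffae3000006005c0c0000180000300bb1) (.hit (nat_lit 163) (nat_lit 20) (nat_lit 0x17f57f2fd8445fd1d2bf8da57f3602fdcd05fb518bf93dd7f5cd2fe07e)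 b30462 (.hit (nat_lit 171) (nat_lit 28) (nat_lit 0x17ec9fafb9a15fa7babf5da97ec0a2fd0005fabd6bf814d7f14bafdd0a) b30466 (.tok (nat_lit 67) (nat_lit 0x180000300000600000bffc5d7ffae3000006005c0c0000180000300bb1) (.hit (nat_lit 164) (nat_lit 21) (nat_lit 0x17ff622fe7f45fe1debff9117fb78aff7375fe88abff6d17faaa2ffb71) b30463 (.hit (nat_lit 172) (nat_lit 29) (nat_lit 0x17f8ebafd6225fde6ebfcc7d7f9e4afef075fe174bfec81800002ff9dd) b30467 (.tok (nat_lit 9) (nat_lit 0x180000300000600000bffc5d7ffae3000006005c0c000017fa28b00bb1) (.hit (nat_lit 165) (nat_lit 22) (nat_lit 0x17fa04afefc75fe4a4bfcb097f9292ff2b15fdb1abfd25d7f7ad2fffbc) b30464 (.one (nat_lit 67) (nat_lit 166) (nat_lit 23) (nat_lit 0x180000300000600000bffc5d7ffae3000006005c0c000017fa28b00bb1) b30465 (.nil))) (.nil)))) (.nil)))) (.nil)))) (.nil)))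
noncomputable def r28_182 : Rw Blk := .tok (nat_lit 6) (nat_lit 0x5e0000bc0001800002ffffd) (.hit (nat_lit 51) (nat_lit 0) (nat_lit 0x5e0000bc00017fba1aff12e) b30476 (.tok (nat_lit 3) (nat_lit 0x5e0000bc00017ff662ff33b) (.hit (nat_lit 52) (nat_lit 1) (nat_lit 0x5e0000bc00017ee65afd3cf) b30477 (.one (nat_lit 14) (nat_lit 53) (nat_lit 4) (nat_lit 0x5e0000bc00017ff662ff33b) b30478 (.one (nat_lit 68) (nat_lit 54) (nat_lit 5) (nat_lit 0x5e0000bc00017f79f2fe840) b30479 (.nil)))) (.tok (nat_lit 40) (nat_lit 0x5e0000bc00017faef2fed0b) (.hit (nat_lit 56) (nat_lit 33) (nat_lit 0x5e0000bc00017faef2fed0b) b30480 (.hit (nat_lit 57) (nat_lit 34) (nat_lit 0x5e0000bc00017f9ec2fe5a5) b30481 (.nil))) (.tok (nat_lit 43) (nat_lit 0x5e0000bc0001800002ffffd) (.hit (nat_lit 58) (nat_lit 35) (nat_lit 0x5e0000bc0001800002ffffd) b30484 (.hit (nat_lit 59) (nat_lit 36) (nat_lit 0x5e0000bc00017fb572ff06d)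 b30485 (.nil))) (.tok (nat_lit 46) (nat_lit 0x5e0000bc00017fdec2ff6e7) (.hit (nat_lit 60) (nat_lit 37) (nat_lit 0x5e0000bc00017f2b7afdc5a) b30482 (.hit (nat_lit 61) (nat_lit 38) (nat_lit 0x5e0000bc00017fdec2ff6e7) b30483 (.nil))) (.nil)))))) (.tok (nat_lit 9) (nat_lit 0x5e0000bc000180000300000) (.hit (nat_lit 0) (nat_lit 0) (nat_lit 0x5e0000bc00017fba1aff1ba) b30486 (.tok (nat_lit 3) (nat_lit 0x5e0000bc00017ff662ff3ca) (.hit (nat_lit 1) (nat_lit 1) (nat_lit 0x5e0000bc00017ee65afd3cf) b30477 (.one (nat_lit 14) (nat_lit 2) (nat_lit 4) (nat_lit 0x5e0000bc00017ff662ff3ca) b30487 (.one (nat_lit 56) (nat_lit 4) (nat_lit 6) (nat_lit 0x5e0000bc00017f79f2fe722) b30488 (.nil)))) (.tok (nat_lit 40) (nat_lit 0x5e0000bc00017faef2fed29) (.hit (nat_lit 5) (nat_lit 33) (nat_lit 0x5e0000bc00017faef2fed29) b30489 (.hit (nat_lit 6) (nat_lit 34) (nat_lit 0x5e0000bc00017f9ec2fe5a9) b30490 (.nil)))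 (.tok (nat_lit 43) (nat_lit 0x5e0000bc00017fdec2ff66b) (.hit (nat_lit 7) (nat_lit 35) (nat_lit 0x5e0000bc00017f2b7afdc5a) b30482 (.hit (nat_lit 8) (nat_lit 36) (nat_lit 0x5e0000bc00017fdec2ff66b) b30492 (.nil))) (.tok (nat_lit 46) (nat_lit 0x5e0000bc000180000300000) (.hit (nat_lit 9) (nat_lit 37) (nat_lit 0x5e0000bc000180000300000) b30491 (.hit (nat_lit 10) (nat_lit 38) (nat_lit 0x5e0000bc00017fb572ff06d) b30485 (.nil))) (.nil)))))) (.nil))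
noncomputable def r28_183 : Rw Blk := .tok (nat_lit 3) (nat_lit 0xbc0001780002fd53e) (.hit (nat_lit 61) (nat_lit 0) (nat_lit 0xbc0001780002fd208) b9255 (.tok (nat_lit 9) (nat_lit 0xbc0001780002fd53e) (.hit (nat_lit 62) (nat_lit 20) (nat_lit 0xbc0001780002fbbb6) b9256 (.hit (nat_lit 67) (nat_lit 28) (nat_lit 0xbc0001780002fad94) b9261 (.tok (nat_lit 14) (nat_lit 0xbc0001780002fcdbc) (.hit (nat_lit 63) (nat_lit 24) (nat_lit 0xbc0001780002fbdc9) b9257 (.hit (nat_lit 68) (nat_lit 30) (nat_lit 0xbc0001780002fc1ab) b9262 (.one (nat_lit 6) (nat_lit 64) (nat_lit 25) (nat_lit 0xbc0001780002fcdbc) b9258 (.nil)))) (.one (nat_lit 56) (nat_lit 69) (nat_lit 31) (nat_lit 0xbc0001780002fc012) b9263 (.tok (nat_lit 68) (nat_lit 0xbc0001780002fd53e) (.hit (nat_lit 65) (nat_lit 26) (nat_lit 0xbc0001780002fcd30) b9259 (.hit (nat_lit 70) (nat_lit 32) (nat_lit 0xbc0001780002fbe92) b9264 (.one (nat_lit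 9) (nat_lit 66) (nat_lit 27) (nat_lit 0xbc0001780002fd53e) b9260 (.nil)))) (.nil)))))) (.nil))) (.tok (nat_lit 6) (nat_lit 0xbc000178000300000) (.hit (nat_lit 0) (nat_lit 0) (nat_lit 0xbc0001780002feaff) b9240 (.tok (nat_lit 6) (nat_lit 0xbc0001780002fffbd) (.hit (nat_lit 1) (nat_lit 7) (nat_lit 0xbc0001780002fd887) b9241 (.hit (nat_lit 6) (nat_lit 15) (nat_lit 0xbc0001780002fc60a) b9244 (.tok (nat_lit 14) (nat_lit 0xbc0001780002ff817) (.hit (nat_lit 2) (nat_lit 11) (nat_lit 0xbc0001780002ff817) b9242 (.hit (nat_lit 7) (nat_lit 17) (nat_lit 0xbc0001780002fe65c) b9245 (.one (nat_lit 9) (nat_lit 3) (nat_lit 12) (nat_lit 0xbc0001780002ff6cc) b9243 (.nil)))) (.tok (nat_lit 56) (nat_lit 0xbc0001780002fffbd) (.hit (nat_lit 4) (nat_lit 13) (nat_lit 0xbc0001780002fef99) b9609 (.hit (nat_lit 9) (nat_lit 19) (nat_lit 0xbc0001780002fd621) b9611 (.one (nat_lit 6) (nat_lit 5) (nat_lit 14)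 (nat_lit 0xbc0001780002fffbd) b9610 (.nil)))) (.nil))))) (.tok (nat_lit 52) (nat_lit 0xbc0001780002feaaa) (.hit (nat_lit 10) (nat_lit 39) (nat_lit 0xbc0001780002fdd77) b9247 (.hit (nat_lit 11) (nat_lit 40) (nat_lit 0xbc0001780002feaaa) b9248 (.nil))) (.tok (nat_lit 55) (nat_lit 0xbc000178000300000) (.hit (nat_lit 12) (nat_lit 41) (nat_lit 0xbc0001780002ff885) b9249 (.tok (nat_lit 3) (nat_lit 0xbc000178000300000) (.hit (nat_lit 18) (nat_lit 47) (nat_lit 0xbc0001780002fec8d) b9252 (.one (nat_lit 67) (nat_lit 19) (nat_lit 48) (nat_lit 0xbc000178000300000) b9253 (.nil))) (.tok (nat_lit 6) (nat_lit 0xbc0001780002ffc81) (.hit (nat_lit 13) (nat_lit 42) (nat_lit 0xbc0001780002fe0f2) b9250 (.hit (nat_lit 16) (nat_lit 45) (nat_lit 0xbc0001780002fece8) b9251 (.tok (nat_lit 55) (nat_lit 0xbc0001780002ffc81) (.hit (nat_lit 14) (nat_lit 43) (nat_lit 0xbc0001780002ff6bd) b9612 (.hit (nat_lit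 17) (nat_lit 46) (nat_lit 0xbc0001780002ffc81) b9614 (.one (nat_lit 6) (nat_lit 15) (nat_lit 44) (nat_lit 0xbc0001780002ff76a) b9613 (.nil)))) (.nil)))) (.nil)))) (.one (nat_lit 58) (nat_lit 20) (nat_lit 49) (nat_lit 0xbc0001780002fecd6) b9254 (.nil)))))) (.nil))
noncomputable def r28_184 : Rw Blk := .tok (nat_lit 3) (nat_lit 0x5e0000bc00017df87afd379) (.hit (nat_lit 61) (nat_lit 0) (nat_lit 0x5e0000bc00017dcf0afcd41) b30573 (.tok (nat_lit 9) (nat_lit 0x5e0000bc00017df87afd379) (.hit (nat_lit 62) (nat_lit 20) (nat_lit 0x5e0000bc00017cf792fb35c) b30574 (.hit (nat_lit 67) (nat_lit 28) (nat_lit 0x5e0000bc00017d130afb6cb) b30579 (.tok (nat_lit 14) (nat_lit 0x5e0000bc00017df87afd379) (.hit (nat_lit 63) (nat_lit 24) (nat_lit 0x5e0000bc00017da402fc8ea) b30575 (.hit (nat_lit 68) (nat_lit 30) (nat_lit 0x5e0000bc00017d8b8afc5db) b30580 (.one (nat_lit 6) (nat_lit 64) (nat_lit 25) (nat_lit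 0x5e0000bc00017df87afd379) b30576 (.nil)))) (.one (nat_lit 56) (nat_lit 69) (nat_lit 31) (nat_lit 0x5e0000bc00017dc4bafcd01) b30581 (.tok (nat_lit 68) (nat_lit 0x5e0000bc00017dd22afceaf) (.hit (nat_lit 65) (nat_lit 26) (nat_lit 0x5e0000bc00017db622fcb2e) b30577 (.hit (nat_lit 70) (nat_lit 32) (nat_lit 0x5e0000bc00017d9492fc6fc) b30582 (.one (nat_lit 9) (nat_lit 66) (nat_lit 27) (nat_lit 0x5e0000bc00017dd22afceaf) b30578 (.nil)))) (.nil)))))) (.nil))) (.tok (nat_lit 6) (nat_lit 0x5e0000bc000180000301338) (.hit (nat_lit 0) (nat_lit 0) (nat_lit 0x5e0000bc00017e3cc2fce97) b30553 (.tok (nat_lit 6) (nat_lit 0x5e0000bc00017ea82afe257) (.hit (nat_lit 1) (nat_lit 7) (nat_lit 0x5e0000bc00017dde12fbf8d) b30554 (.hit (nat_lit 6) (nat_lit 15) (nat_lit 0x5e0000bc00017d734afb701) b30559 (.tok (nat_lit 14) (nat_lit 0x5e0000bc00017ea82afe257) (.hit (nat_lit 2) (nat_lit 11) (nat_lit 0x5e0000bc00017e63dafda8e)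 b30555 (.hit (nat_lit 7) (nat_lit 17) (nat_lit 0x5e0000bc00017ea82afce4a) b30560 (.one (nat_lit 9) (nat_lit 3) (nat_lit 12) (nat_lit 0x5e0000bc00017e5e1afe257) b30556 (.nil)))) (.tok (nat_lit 56) (nat_lit 0x5e0000bc00017e5fb2fd775) (.hit (nat_lit 4) (nat_lit 13) (nat_lit 0x5e0000bc00017e590afd635) b30557 (.hit (nat_lit 9) (nat_lit 19) (nat_lit 0x5e0000bc00017e57bafc4ab) b30561 (.one (nat_lit 6) (nat_lit 5) (nat_lit 14) (nat_lit 0x5e0000bc00017e5fb2fd775) b30558 (.nil)))) (.nil))))) (.tok (nat_lit 52) (nat_lit 0x5e0000bc00017e8cb2fd4f7) (.hit (nat_lit 10) (nat_lit 39) (nat_lit 0x5e0000bc00017e0c1afd194) b30562 (.hit (nat_lit 11) (nat_lit 40) (nat_lit 0x5e0000bc00017e8cb2fd4f7) b30563 (.nil))) (.tok (nat_lit 55) (nat_lit 0x5e0000bc000180000301338) (.hit (nat_lit 12) (nat_lit 41) (nat_lit 0x5e0000bc00017eb8c2fe6af) b30564 (.tok (nat_lit 3) (nat_lit 0x5e0000bc00017ee12afed2b) (.hit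 (nat_lit 18) (nat_lit 47) (nat_lit 0x5e0000bc00017e4b52fd8cc) b30570 (.one (nat_lit 67) (nat_lit 19) (nat_lit 48) (nat_lit 0x5e0000bc00017ee12afed2b) b30571 (.nil))) (.tok (nat_lit 6) (nat_lit 0x5e0000bc000180000301338) (.hit (nat_lit 13) (nat_lit 42) (nat_lit 0x5e0000bc00017ee3d2fe203) b30565 (.hit (nat_lit 16) (nat_lit 45) (nat_lit 0x5e0000bc00017ec3dafd6e0) b30568 (.tok (nat_lit 55) (nat_lit 0x5e0000bc000180000301338) (.hit (nat_lit 14) (nat_lit 43) (nat_lit 0x5e0000bc00017fc79301338) b30566 (.hit (nat_lit 17) (nat_lit 46) (nat_lit 0x5e0000bc00017ea48afe269) b30569 (.one (nat_lit 6) (nat_lit 15) (nat_lit 44) (nat_lit 0x5e0000bc00018000030124e) b30567 (.nil)))) (.nil)))) (.nil)))) (.one (nat_lit 58) (nat_lit 20) (nat_lit 49) (nat_lit 0x5e0000bc00017e7f22fd66f) b30572 (.nil)))))) (.nil))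
noncomputable def r28_185 : Rw Blk := .tok (nat_lit 3) (nat_lit 0x2f00005e0000bf54f97f0e42fe33d) (.hit (nat_lit 61) (nat_lit 0) (nat_lit 0x2f00005e0000bf48217e714afd778) b30513 (.tok (nat_lit 6) (nat_lit 0x2f00005e0000bf54f97f0e42fe33d) (.hit (nat_lit 62) (nat_lit 7) (nat_lit 0x2f00005e0000beeed97e4202fc9b5) b30514 (.hit (nat_lit 67) (nat_lit 15) (nat_lit 0x2f00005e0000beb6517dd0f2fbb93) b30519 (.tok (nat_lit 14) (nat_lit 0x2f00005e0000bf36f17ed232fdbbb) (.hit (nat_lit 63) (nat_lit 11) (nat_lit 0x2f00005e0000bef7257e529afcbc8) b30515 (.hit (nat_lit 68) (nat_lit 17) (nat_lit 0x2f00005e0000bf06ad7e71aafcfaa) b30520 (.one (nat_lit 9) (nat_lit 64) (nat_lit 12) (nat_lit 0x2f00005e0000bf36f17ed232fdbbb) b30516 (.nil)))) (.tok (nat_lit 56) (nat_lit 0x2f00005e0000bf54f97f0e42fe33d) (.hit (nat_lit 65) (nat_lit 13) (nat_lit 0x2f00005e0000bf34c17ecdd2fdb2f) b30517 (.hit (nat_lit 70) (nat_lit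 19) (nat_lit 0x2f00005e0000befa497e58e2fcc91) b30522 (.one (nat_lit 6) (nat_lit 66) (nat_lit 14) (nat_lit 0x2f00005e0000bf54f97f0e42fe33d) b30518 (.nil)))) (.one (nat_lit 68) (nat_lit 69) (nat_lit 18) (nat_lit 0x2f00005e0000bf00497e64e2fce11) b30521 (.nil)))))) (.nil))) (.tok (nat_lit 9) (nat_lit 0x2f00005e0000c00001801283005a5) (.hit (nat_lit 0) (nat_lit 0) (nat_lit 0x2f00005e0000bfabfd7eacfafde61) b30493 (.tok (nat_lit 9) (nat_lit 0x2f00005e0000bffef5801283005a5) (.hit (nat_lit 1) (nat_lit 20) (nat_lit 0x2f00005e0000bf621d7ed8fafd4e6) b30494 (.hit (nat_lit 6) (nat_lit 28) (nat_lit 0x2f00005e0000bf18297dc6fafbce9) b30499 (.tok (nat_lit 14) (nat_lit 0x2f00005e0000bfe05d801282ffb39) (.hit (nat_lit 2) (nat_lit 24) (nat_lit 0x2f00005e0000bfe05d801282ffb39) b30495 (.hit (nat_lit 7) (nat_lit 30) (nat_lit 0x2f00005e0000bf99717e9b52fdec8) b30500 (.one (nat_lit 6) (nat_lit 3) (nat_lit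 25) (nat_lit 0x2f00005e0000bfdb317fd7e2ff7cc) b30496 (.nil)))) (.tok (nat_lit 68) (nat_lit 0x2f00005e0000bffef57f5b5b005a5) (.hit (nat_lit 4) (nat_lit 26) (nat_lit 0x2f00005e0000bfbe657f5b5afed4d) b30497 (.hit (nat_lit 9) (nat_lit 32) (nat_lit 0x2f00005e0000bf58857e17c2fdc49) b30501 (.one (nat_lit 9) (nat_lit 5) (nat_lit 27) (nat_lit 0x2f00005e0000bffef57f24f3005a5) b30498 (.nil)))) (.nil))))) (.tok (nat_lit 64) (nat_lit 0x2f00005e0000bfaaa97ee7aafe45a) (.hit (nat_lit 10) (nat_lit 50) (nat_lit 0x2f00005e0000bf75dd7ec8dafe1f9) b30502 (.hit (nat_lit 11) (nat_lit 51) (nat_lit 0x2f00005e0000bfaaa97ee7aafe45a) b30503 (.nil))) (.tok (nat_lit 67) (nat_lit 0x2f00005e0000c000017ff67affc23) (.hit (nat_lit 12) (nat_lit 52) (nat_lit 0x2f00005e0000bfe2157fcb32ff4a6) b30504 (.tok (nat_lit 3) (nat_lit 0x2f00005e0000c000017ff67affc23) (.hit (nat_lit 18) (nat_lit 58) (nat_lit 0x2f00005e0000bfb2357f8212feb86)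 b30510 (.one (nat_lit 55) (nat_lit 19) (nat_lit 59) (nat_lit 0x2f00005e0000c000017ff67affc23) b30511 (.nil))) (.tok (nat_lit 9) (nat_lit 0x2f00005e0000bff2057f93daff9ac) (.hit (nat_lit 13) (nat_lit 53) (nat_lit 0x2f00005e0000bf83c97ee1cafe15b) b30505 (.hit (nat_lit 16) (nat_lit 56) (nat_lit 0x2f00005e0000bfb3a17ef8d2feb4f) b30508 (.tok (nat_lit 67) (nat_lit 0x2f00005e0000bff2057f93daff9ac) (.hit (nat_lit 14) (nat_lit 54) (nat_lit 0x2f00005e0000bfdaf57f93daff61b) b30506 (.hit (nat_lit 17) (nat_lit 57) (nat_lit 0x2f00005e0000bff2057f6f3aff96b) b30509 (.one (nat_lit 9) (nat_lit 15) (nat_lit 55) (nat_lit 0x2f00005e0000bfdda97f632aff9ac) b30507 (.nil)))) (.nil)))) (.nil)))) (.one (nat_lit 70) (nat_lit 20) (nat_lit 60) (nat_lit 0x2f00005e0000bfb3597f0c1afe47e) b30512 (.nil)))))) (.nil))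
noncomputable def r28_186 : Rw Blk := .tok (nat_lit 3) (nat_lit 0x5e0000bc00017df87afdd9d) (.hit (nat_lit 61) (nat_lit 0) (nat_lit 0x5e0000bc00017dcf0afd7a5) b30543 (.tok (nat_lit 6) (nat_lit 0x5e0000bc00017df87afdd9d) (.hit (nat_lit 62) (nat_lit 7) (nat_lit 0x5e0000bc00017cf792fbd80) b30544 (.hit (nat_lit 67) (nat_lit 15) (nat_lit 0x5e0000bc00017d130afc0ef) b30549 (.tok (nat_lit 14) (nat_lit 0x5e0000bc00017df87afdd9d) (.hit (nat_lit 63) (nat_lit 11) (nat_lit 0x5e0000bc00017da402fd30e) b30545 (.hit (nat_lit 68) (nat_lit 17) (nat_lit 0x5e0000bc00017d8b8afcfff) b30550 (.one (nat_lit 9) (nat_lit 64) (nat_lit 12) (nat_lit 0x5e0000bc00017df87afdd9d) b30546 (.nil)))) (.tok (nat_lit 56) (nat_lit 0x5e0000bc00017dd22afd8d3) (.hit (nat_lit 65) (nat_lit 13) (nat_lit 0x5e0000bc00017db622fd552) b30547 (.hit (nat_lit 70) (nat_lit 19) (nat_lit 0x5e0000bc00017d9492fd120) b30552 (.one (nat_lit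 6) (nat_lit 66) (nat_lit 14) (nat_lit 0x5e0000bc00017dd22afd8d3) b30548 (.nil)))) (.one (nat_lit 68) (nat_lit 69) (nat_lit 18) (nat_lit 0x5e0000bc00017dc4bafd725) b30551 (.nil)))))) (.nil))) (.tok (nat_lit 9) (nat_lit 0x5e0000bc0001800003014dc) (.hit (nat_lit 0) (nat_lit 0) (nat_lit 0x5e0000bc00017e3cc2fd8c6) b30523 (.tok (nat_lit 9) (nat_lit 0x5e0000bc00017ea82afed73) (.hit (nat_lit 1) (nat_lit 20) (nat_lit 0x5e0000bc00017dde12fc9b1) b30524 (.hit (nat_lit 6) (nat_lit 28) (nat_lit 0x5e0000bc00017d734afc165) b30529 (.tok (nat_lit 14) (nat_lit 0x5e0000bc00017ea82afed73) (.hit (nat_lit 2) (nat_lit 24) (nat_lit 0x5e0000bc00017e63dafe50f) b30525 (.hit (nat_lit 7) (nat_lit 30) (nat_lit 0x5e0000bc00017ea82afd881) b30530 (.one (nat_lit 6) (nat_lit 3) (nat_lit 25) (nat_lit 0x5e0000bc00017e5e1afed73) b30526 (.nil)))) (.tok (nat_lit 68) (nat_lit 0x5e0000bc00017e5fb2fe199) (.hit (nat_lit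 4) (nat_lit 26) (nat_lit 0x5e0000bc00017e590afe059) b30527 (.hit (nat_lit 9) (nat_lit 32) (nat_lit 0x5e0000bc00017e57bafcf0f) b30531 (.one (nat_lit 9) (nat_lit 5) (nat_lit 27) (nat_lit 0x5e0000bc00017e5fb2fe199) b30528 (.nil)))) (.nil))))) (.tok (nat_lit 64) (nat_lit 0x5e0000bc00017e8cb2fdf1b) (.hit (nat_lit 10) (nat_lit 50) (nat_lit 0x5e0000bc00017e0c1afdbf8) b30532 (.hit (nat_lit 11) (nat_lit 51) (nat_lit 0x5e0000bc00017e8cb2fdf1b) b30533 (.nil))) (.tok (nat_lit 67) (nat_lit 0x5e0000bc0001800003014dc) (.hit (nat_lit 12) (nat_lit 52) (nat_lit 0x5e0000bc00017eb8c2ff02f) b30534 (.tok (nat_lit 3) (nat_lit 0x5e0000bc00017ee12aff4c7) (.hit (nat_lit 18) (nat_lit 58) (nat_lit 0x5e0000bc00017e4b52fe2f0) b30540 (.one (nat_lit 55) (nat_lit 19) (nat_lit 59) (nat_lit 0x5e0000bc00017ee12aff4c7) b30541 (.nil))) (.tok (nat_lit 9) (nat_lit 0x5e0000bc0001800003014dc) (.hit (nat_lit 13) (nat_lit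 53) (nat_lit 0x5e0000bc00017ee3d2feb02) b30535 (.hit (nat_lit 16) (nat_lit 56) (nat_lit 0x5e0000bc00017ec3dafe104) b30538 (.tok (nat_lit 67) (nat_lit 0x5e0000bc0001800003014dc) (.hit (nat_lit 14) (nat_lit 54) (nat_lit 0x5e0000bc00017fc793014dc) b30536 (.hit (nat_lit 17) (nat_lit 57) (nat_lit 0x5e0000bc00017ea48afec8d) b30539 (.one (nat_lit 9) (nat_lit 15) (nat_lit 55) (nat_lit 0x5e0000bc000180000301065) b30537 (.nil)))) (.nil)))) (.nil)))) (.one (nat_lit 70) (nat_lit 20) (nat_lit 60) (nat_lit 0x5e0000bc00017e7f22fe093) b30542 (.nil)))))) (.nil))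
noncomputable def r28_187 : Rw Blk := .tok (nat_lit 3) (nat_lit 0x5fdb86bfabbd7fa762fe71c5ff568bfb6617f9342ff345) (.hit (nat_lit 0) (nat_lit 0) (nat_lit 0x5f8b4abf14597ebb62fc8ac5faddcbf3abd7e99aafd4d0) b36077 (.tok (nat_lit 9) (nat_lit 0x5f9aaebf28f17f64f2fce805faab4bf58dd7ec69afd96c) (.hit (nat_lit 10) (nat_lit 20) (nat_lit 0x5f71fcbed78d7edb82fba275f8202bf07797e23d2fc513) b30926 (.hit (nat_lit 15) (nat_lit 28) (nat_lit 0x5f6d1ebecdd17e8292fb7b85f7d24befdbd7e105afc2a4) b30931 (.tok (nat_lit 14) (nat_lit 0x5f97f4bf237d7f1282fcd235fa7fabf53697ebbb2fd80f) (.hit (nat_lit 11) (nat_lit 24) (nat_lit 0x5f7f34bef1fd7eda22fc0c35f8f3abf21e97e58b2fcbaf) b30927 (.hit (nat_lit 16) (nat_lit 30) (nat_lit 0x5f7d3abeee097ecbf2fbfc65f8d40bf1df57e50cafcab2) b30932 (.one (nat_lit 6) (nat_lit 12) (nat_lit 25) (nat_lit 0x5f97f4bf237d7f1282fcd235fa7fabf53697ebbb2fd80f) b30928 (.nil)))) (.one (nat_lit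 56) (nat_lit 17) (nat_lit 31) (nat_lit 0x5f9778bf22857f3022fcce55fa77ebf52717eb9c2fd7d1) b30933 (.tok (nat_lit 68) (nat_lit 0x5f9aaebf28f17f64f2fce805faab4bf58dd7ec69afd96c) (.hit (nat_lit 13) (nat_lit 26) (nat_lit 0x5f8a5ebf08517f2abafc6585f9a64bf383d7e855afd144) b30929 (.hit (nat_lit 18) (nat_lit 32) (nat_lit 0x5f8226bef7e17ed8e2fc23c5f922cbf27cd7e647afcd28) b30934 (.one (nat_lit 9) (nat_lit 14) (nat_lit 27) (nat_lit 0x5f9aaebf28f17f64f2fce805faab4bf58dd7ec69afd96c) b30930 (.nil)))) (.nil)))))) (.tok (nat_lit 64) (nat_lit 0x5f851abefdc97f0e12fc3b65f9520bf2db57e704afcea2) (.hit (nat_lit 30) (nat_lit 50) (nat_lit 0x5f7ec6bef1217ebe62fc08c5f8eccbf210d7e56fafcb78) b30935 (.hit (nat_lit 31) (nat_lit 51) (nat_lit 0x5f851abefdc97f0e12fc3b65f9520bf2db57e704afcea2) b30936 (.nil))) (.tok (nat_lit 67) (nat_lit 0x5fdb86bfabbd7fa762fe71c5ff568bfb6617f9342ff345) (.hit (nat_lit 32) (nat_lit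 52) (nat_lit 0x5fdb86bfabbd7fa762fe07c5fe66abf9b197f5b52feca5) b30937 (.tok (nat_lit 3) (nat_lit 0x5fa658bf40457f95cafd4555fb65ebf70317ef542fdf41) (.hit (nat_lit 38) (nat_lit 58) (nat_lit 0x5f970abf21a97f95cafccae5fa710bf51957eb80afd79a) b30943 (.one (nat_lit 55) (nat_lit 39) (nat_lit 59) (nat_lit 0x5fa658bf40457f5adafd4555fb65ebf70317ef542fdf41) b30944 (.nil))) (.tok (nat_lit 9) (nat_lit 0x5fc65abf9eb57f8c02fe71c5ff568bfb6617f9342ff345) (.hit (nat_lit 33) (nat_lit 53) (nat_lit 0x5fb3d0bf6a7d7f5ffafdcb25fdb8ebf8bcd7f3e2afe8db) b30938 (.hit (nat_lit 36) (nat_lit 56) (nat_lit 0x5f97bcbf230d7f561afcd075fa7c2bf52f97ebad2fd7f3) b30941 (.tok (nat_lit 67) (nat_lit 0x5fc65abf9eb57f8c02fe71c5ff568bfb6617f9342ff345) (.hit (nat_lit 34) (nat_lit 54) (nat_lit 0x5fc65abf9eb57f51eafe71c5ff568bfb6617f9342ff345) b30939 (.hit (nat_lit 37) (nat_lit 57) (nat_lit 0x5facd0bf4d357f8c02fd7915fbcd6bf7d217f0f22fe27d)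 b30942 (.one (nat_lit 9) (nat_lit 35) (nat_lit 55) (nat_lit 0x5fa9a2bf46d97f37e2fd5fa5fb9a8bf76c57f026afe0e6) b30940 (.nil)))) (.nil)))) (.nil)))) (.one (nat_lit 70) (nat_lit 40) (nat_lit 60) (nat_lit 0x5f957abf1e897f67d2fcbe65fa580bf4e757eb1cafd6d2) b30945 (.nil)))))) (.tok (nat_lit 6) (nat_lit 0x600000c0000180457300000600a1cc0000180000300000) (.hit (nat_lit 81) (nat_lit 0) (nat_lit 0x5fb40ebf77f57f4992fd9275fc9dabf7bc97ebd2afe550) b30946 (.tok (nat_lit 6) (nat_lit 0x5fde3abfc5097f9c8afe9d85fb33ebfa88d7f7502fde77) (.hit (nat_lit 87) (nat_lit 7) (nat_lit 0x5f9e80bf68cd7ed04afccdf5f9866bf34417ea7d2fd045) b30947 (.hit (nat_lit 95) (nat_lit 15) (nat_lit 0x5f8588beffc17e7772fafaa5f60febec5717d9fc2fb491) b30950 (.tok (nat_lit 14) (nat_lit 0x5fde3abfc5097f9c8afe9d85fb33ebfa88d7f7502fde77) (.hit (nat_lit 91) (nat_lit 11) (nat_lit 0x5fd7febfbcf97f9c8afde885fa1e4bf89a57f4632fdb34) b30948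 (.hit (nat_lit 97) (nat_lit 17) (nat_lit 0x5fbe80bf71b17f61dafcd635f8446bf2cad7e7a6afcf98) b30951 (.one (nat_lit 9) (nat_lit 92) (nat_lit 12) (nat_lit 0x5fde3abfc5097f9a02fe9d85fb33ebfa88d7f7502fde77) b30949 (.nil)))) (.one (nat_lit 68) (nat_lit 98) (nat_lit 18) (nat_lit 0x5fb080bf55c97f0a02fc65b5f8b78bf1a657e49aafc9ce) b30952 (.nil))))) (.tok (nat_lit 52) (nat_lit 0x5fbec0bfa00d7f55c2fd6465f9ce2bf46ed7ee4a2fd283) (.hit (nat_lit 106) (nat_lit 39) (nat_lit 0x5fbec0bfa00d7f355afcced5f9ce2bf3d397ee4a2fd283) b30953 (.hit (nat_lit 107) (nat_lit 40) (nat_lit 0x5fb984bf8aa57f55c2fd6465f99cebf46ed7e8302fd0f9) b30954 (.nil))) (.tok (nat_lit 55) (nat_lit 0x600000c0000180457300000600a1cc0000180000300000) (.hit (nat_lit 108) (nat_lit 41) (nat_lit 0x600000c00001800a2aff686600a1cbfea0d7fe76300000) b30955 (.tok (nat_lit 3) (nat_lit 0x5ffdd2bfdb957f92d3000005fbf64c00001800002ff862) (.hit (nat_lit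 114) (nat_lit 47) (nat_lit 0x5fdf42bfc99d7f7b92fee0e5fb734bfc4a1800002fe789) b30958 (.one (nat_lit 67) (nat_lit 115) (nat_lit 48) (nat_lit 0x5ffdd2bfdb957f92d3000005fbf64c000017ffaaaff862) b30959 (.nil))) (.tok (nat_lit 6) (nat_lit 0x5ff2cabfd319804572fdff65fb68ebf74417f4b6aff0c8) (.hit (nat_lit 109) (nat_lit 42) (nat_lit 0x5ff2cabfbcc57f8efafdefb5fb49ebf74417f4b6aff0c8) b30956 (.hit (nat_lit 112) (nat_lit 45) (nat_lit 0x5fcce2bfd319804572fdff65fb68ebf70917ef602fdf59) b30957 (.nil))) (.nil)))) (.one (nat_lit 58) (nat_lit 116) (nat_lit 49) (nat_lit 0x5fbec4bf8b497f558afde205f9e66bf69bd7ead52fd6de) b30960 (.nil)))))) (.nil))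
noncomputable def r28_188 : Rw Blk := .tok (nat_lit 9) (nat_lit 0xbc0001780002ffe7f) (.hit (nat_lit 0) (nat_lit 0) (nat_lit 0xbc0001780002fea49) b30961 (.tok (nat_lit 14) (nat_lit 0xbc0001780002ff7ac) (.hit (nat_lit 11) (nat_lit 61) (nat_lit 0xbc0001780002fee7e) b30962 (.one (nat_lit 3) (nat_lit 12) (nat_lit 62) (nat_lit 0xbc0001780002ff2ce) b30963 (.tok (nat_lit 6) (nat_lit 0xbc0001780002ff7ac) (.hit (nat_lit 15) (nat_lit 65) (nat_lit 0xbc0001780002ff7ac) b30964 (.hit (nat_lit 16) (nat_lit 66) (nat_lit 0xbc0001780002fea28) b30965 (.nil))) (.tok (nat_lit 9) (nat_lit 0xbc0001780002fee3f) (.hit (nat_lit 13) (nat_lit 63) (nat_lit 0xbc0001780002fd5cc) b30966 (.hit (nat_lit 14) (nat_lit 64) (nat_lit 0xbc0001780002fee3f) b30967 (.nil))) (.nil))))) (.one (nat_lit 17) (nat_lit 17) (nat_lit 67) (nat_lit 0xbc0001780002feb60) b30968 (.tok (nat_lit 20) (nat_lit 0xbc0001780002fe754) (.hit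 (nat_lit 18) (nat_lit 68) (nat_lit 0xbc0001780002fc1d3) b30971 (.hit (nat_lit 19) (nat_lit 69) (nat_lit 0xbc0001780002fe754) b30972 (.nil))) (.tok (nat_lit 23) (nat_lit 0xbc0001780002ff65f) (.hit (nat_lit 20) (nat_lit 70) (nat_lit 0xbc0001780002ff65f) b30969 (.hit (nat_lit 21) (nat_lit 71) (nat_lit 0xbc0001780002fecc9) b30970 (.nil))) (.one (nat_lit 26) (nat_lit 22) (nat_lit 72) (nat_lit 0xbc0001780002fdcd5) b30973 (.one (nat_lit 29) (nat_lit 23) (nat_lit 73) (nat_lit 0xbc0001780002fd6a2) b30974 (.one (nat_lit 32) (nat_lit 24) (nat_lit 74) (nat_lit 0xbc0001780002fe18b) b30976 (.one (nat_lit 35) (nat_lit 25) (nat_lit 75) (nat_lit 0xbc0001780002fd8a3) b30975 (.one (nat_lit 50) (nat_lit 33) (nat_lit 83) (nat_lit 0xbc0001780002fe22b) b30986 (.tok (nat_lit 53) (nat_lit 0xbc0001780002fea80) (.hit (nat_lit 34) (nat_lit 84) (nat_lit 0xbc0001780002fe482) b30987 (.hit (nat_lit 35) (nat_lit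 85) (nat_lit 0xbc0001780002fea80) b30988 (.nil))) (.tok (nat_lit 56) (nat_lit 0xbc0001780002fef73) (.hit (nat_lit 36) (nat_lit 86) (nat_lit 0xbc0001780002fef73) b30989 (.one (nat_lit 3) (nat_lit 40) (nat_lit 90) (nat_lit 0xbc0001780002fc531) b30993 (.tok (nat_lit 6) (nat_lit 0xbc0001780002fcfd4) (.hit (nat_lit 38) (nat_lit 88) (nat_lit 0xbc0001780002fcfd4) b30991 (.hit (nat_lit 39) (nat_lit 89) (nat_lit 0xbc0001780002fca89) b30992 (.nil))) (.one (nat_lit 9) (nat_lit 37) (nat_lit 87) (nat_lit 0xbc0001780002fcd1c) b30990 (.nil))))) (.one (nat_lit 59) (nat_lit 41) (nat_lit 91) (nat_lit 0xbc0001780002fe2b3) b30994 (.one (nat_lit 62) (nat_lit 42) (nat_lit 92) (nat_lit 0xbc0001780002fea8f) b30977 (.tok (nat_lit 65) (nat_lit 0xbc0001780002fef3b) (.hit (nat_lit 43) (nat_lit 93) (nat_lit 0xbc0001780002fe4bf) b30978 (.hit (nat_lit 44) (nat_lit 94) (nat_lit 0xbc0001780002fef3b) b30979 (.nil)))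 (.tok (nat_lit 68) (nat_lit 0xbc0001780002ffe7f) (.hit (nat_lit 45) (nat_lit 95) (nat_lit 0xbc0001780002ffe7f) b30980 (.one (nat_lit 3) (nat_lit 49) (nat_lit 99) (nat_lit 0xbc0001780002ff706) b30984 (.one (nat_lit 6) (nat_lit 46) (nat_lit 96) (nat_lit 0xbc0001780002ffe33) b30981 (.tok (nat_lit 9) (nat_lit 0xbc0001780002ff95f) (.hit (nat_lit 47) (nat_lit 97) (nat_lit 0xbc0001780002ff95f) b30982 (.hit (nat_lit 48) (nat_lit 98) (nat_lit 0xbc0001780002fef1e) b30983 (.nil))) (.nil))))) (.one (nat_lit 71) (nat_lit 50) (nat_lit 100) (nat_lit 0xbc0001780002fe403) b30985 (.nil)))))))))))))))))) (.tok (nat_lit 64) (nat_lit 0xbc000178000300df2) (.hit (nat_lit 180) (nat_lit 0) (nat_lit 0xbc000178000300df2) b30995 (.tok (nat_lit 6) (nat_lit 0xbc0001780002ffaae) (.hit (nat_lit 181) (nat_lit 7) (nat_lit 0xbc0001780002fe610) b30998 (.hit (nat_lit 182) (nat_lit 15) (nat_lit 0xbc0001780002ffaae)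 b30999 (.nil))) (.tok (nat_lit 9) (nat_lit 0xbc000178000300863) (.hit (nat_lit 183) (nat_lit 20) (nat_lit 0xbc000178000300863) b30996 (.hit (nat_lit 184) (nat_lit 28) (nat_lit 0xbc0001780002ff7a7) b30997 (.nil))) (.nil)))) (.tok (nat_lit 67) (nat_lit 0xbc0001780002ffb59) (.hit (nat_lit 205) (nat_lit 0) (nat_lit 0xbc0001780002ffb59) b31008 (.tok (nat_lit 3) (nat_lit 0xbc0001780002ffb09) (.hit (nat_lit 206) (nat_lit 1) (nat_lit 0xbc0001780002fdffa) b31009 (.one (nat_lit 55) (nat_lit 207) (nat_lit 3) (nat_lit 0xbc0001780002ffb09) b31010 (.nil))) (.tok (nat_lit 9) (nat_lit 0xbc0001780002ff2a6) (.hit (nat_lit 208) (nat_lit 20) (nat_lit 0xbc0001780002fe5fd) b31011 (.hit (nat_lit 211) (nat_lit 28) (nat_lit 0xbc0001780002fdee7) b31014 (.tok (nat_lit 67) (nat_lit 0xbc0001780002ff2a6) (.hit (nat_lit 209) (nat_lit 21) (nat_lit 0xbc0001780002fe9d0) b31012 (.hit (nat_lit 212) (nat_lit 29)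 (nat_lit 0xbc0001780002ff2a6) b31015 (.one (nat_lit 9) (nat_lit 210) (nat_lit 22) (nat_lit 0xbc0001780002ff01c) b31013 (.nil)))) (.nil)))) (.nil)))) (.tok (nat_lit 70) (nat_lit 0xbc000178000300d23) (.hit (nat_lit 191) (nat_lit 0) (nat_lit 0xbc0001780003005f1) b31000 (.tok (nat_lit 3) (nat_lit 0xbc00017800030018d) (.hit (nat_lit 192) (nat_lit 1) (nat_lit 0xbc0001780002fdf90) b31001 (.one (nat_lit 67) (nat_lit 193) (nat_lit 2) (nat_lit 0xbc00017800030018d) b31002 (.nil))) (.tok (nat_lit 6) (nat_lit 0xbc000178000300d23) (.hit (nat_lit 194) (nat_lit 7) (nat_lit 0xbc0001780002fecc1) b31003 (.hit (nat_lit 197) (nat_lit 15) (nat_lit 0xbc0001780002fe57e) b31006 (.tok (nat_lit 55) (nat_lit 0xbc000178000300d23) (.hit (nat_lit 195) (nat_lit 8) (nat_lit 0xbc0001780002ff7d4) b31004 (.hit (nat_lit 198) (nat_lit 16) (nat_lit 0xbc0001780002ffc7f) b31007 (.one (nat_lit 6) (nat_lit 196) (nat_lit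 9) (nat_lit 0xbc000178000300d23) b31005 (.nil)))) (.nil)))) (.nil)))) (.nil))))
noncomputable def r28_189 : Rw Blk := .tok (nat_lit 3) (nat_lit 0xbc000178000301050) (.hit (nat_lit 15) (nat_lit 0) (nat_lit 0xbc0001780002ff739) b31027 (.tok (nat_lit 6) (nat_lit 0xbc0001780002fed91) (.hit (nat_lit 16) (nat_lit 7) (nat_lit 0xbc0001780002fdac6) b31028 (.hit (nat_lit 21) (nat_lit 15) (nat_lit 0xbc0001780002fc304) b31031 (.tok (nat_lit 56) (nat_lit 0xbc0001780002fed91) (.hit (nat_lit 19) (nat_lit 13) (nat_lit 0xbc0001780002fe307) b31029 (.hit (nat_lit 24) (nat_lit 19) (nat_lit 0xbc0001780002fe3e2) b31033 (.one (nat_lit 6) (nat_lit 20) (nat_lit 14) (nat_lit 0xbc0001780002fed91) b31030 (.nil)))) (.one (nat_lit 68) (nat_lit 23) (nat_lit 18) (nat_lit 0xbc0001780002fe1af) b31032 (.nil))))) (.tok (nat_lit 52) (nat_lit 0xbc0001780002fee76) (.hit (nat_lit 25) (nat_lit 39) (nat_lit 0xbc0001780002fe150)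 b31034 (.hit (nat_lit 26) (nat_lit 40) (nat_lit 0xbc0001780002fee76) b31035 (.nil))) (.tok (nat_lit 55) (nat_lit 0xbc000178000301050) (.hit (nat_lit 27) (nat_lit 41) (nat_lit 0xbc000178000301050) b31036 (.one (nat_lit 3) (nat_lit 33) (nat_lit 47) (nat_lit 0xbc0001780002fee8f) b31042 (.tok (nat_lit 6) (nat_lit 0xbc0001780002ff149) (.hit (nat_lit 28) (nat_lit 42) (nat_lit 0xbc0001780002fe72e) b31037 (.hit (nat_lit 31) (nat_lit 45) (nat_lit 0xbc0001780002fea65) b31040 (.tok (nat_lit 55) (nat_lit 0xbc0001780002ff149) (.hit (nat_lit 29) (nat_lit 43) (nat_lit 0xbc0001780002ff149) b31038 (.hit (nat_lit 32) (nat_lit 46) (nat_lit 0xbc0001780002ff04c) b31041 (.one (nat_lit 6) (nat_lit 30) (nat_lit 44) (nat_lit 0xbc0001780002fe67f) b31039 (.nil)))) (.nil)))) (.nil)))) (.one (nat_lit 58) (nat_lit 35) (nat_lit 49) (nat_lit 0xbc0001780002fed5b) b31043 (.nil)))))) (.tok (nat_lit 9) (nat_lit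 0xbc000178000302bcc) (.hit (nat_lit 0) (nat_lit 0) (nat_lit 0xbc00017800030147f) b31016 (.tok (nat_lit 9) (nat_lit 0xbc0001780002ffc1e) (.hit (nat_lit 1) (nat_lit 20) (nat_lit 0xbc0001780002ff1c5) b31017 (.hit (nat_lit 4) (nat_lit 28) (nat_lit 0xbc0001780002fea46) b31018 (.one (nat_lit 56) (nat_lit 6) (nat_lit 31) (nat_lit 0xbc0001780002ffc1e) b31019 (.nil)))) (.tok (nat_lit 64) (nat_lit 0xbc000178000301c23) (.hit (nat_lit 7) (nat_lit 50) (nat_lit 0xbc000178000301240) b31020 (.hit (nat_lit 8) (nat_lit 51) (nat_lit 0xbc000178000301c23) b31021 (.nil))) (.tok (nat_lit 67) (nat_lit 0xbc000178000302648) (.hit (nat_lit 9) (nat_lit 52) (nat_lit 0xbc000178000302648) b31022 (.one (nat_lit 3) (nat_lit 12) (nat_lit 58) (nat_lit 0xbc000178000301bf4) b31025 (.tok (nat_lit 9) (nat_lit 0xbc000178000300aa3) (.hit (nat_lit 10) (nat_lit 53) (nat_lit 0xbc0001780002ffdf9) b31023 (.hit (nat_lit 11)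 (nat_lit 56) (nat_lit 0xbc000178000300aa3) b31024 (.nil))) (.nil)))) (.one (nat_lit 70) (nat_lit 14) (nat_lit 60) (nat_lit 0xbc000178000302bcc) b31026 (.nil)))))) (.nil))

end

end Pool.Agent.Lib.MP_5854e1_co.Cz
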