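import Pool.Agent.Lib.MP_5854e1_co.RwD
import Pool.Agent.Lib.MP_5854e1_co.Cz.B00
import Pool.Agent.Lib.MP_5854e1_co.Cz.B01
import Pool.Agent.Lib.MP_5854e1_co.Cz.B02
import Pool.Agent.Lib.MP_5854e1_co.Cz.B03
import Pool.Agent.Lib.MP_5854e1_co.Cz.B04
import Pool.Agent.Lib.MP_5854e1_co.Cz.B05
import Pool.Agent.Lib.MP_5854e1_co.Cz.B06
import Pool.Agent.Lib.MP_5854e1_co.Cz.B07
import Pool.Agent.Lib.MP_5854e1_co.Cz.B08
import Pool.Agent.Lib.MP_5854e1_co.Cz.B09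
import Pool.Agent.Lib.MP_5854e1_co.Cz.B10
import Pool.Agent.Lib.MP_5854e1_co.Cz.B11
import Pool.Agent.Lib.MP_5854e1_co.Cz.B12
import Pool.Agent.Lib.MP_5854e1_co.Cz.B13
import Pool.Agent.Lib.MP_5854e1_co.Cz.B14
import Pool.Agent.Lib.MP_5854e1_co.Cz.B15
import Pool.Agent.Lib.MP_5854e1_co.Cz.B16
import Pool.Agent.Lib.MP_5854e1_co.Cz.B17
import Pool.Agent.Lib.MP_5854e1_co.Cz.B18
import Pool.Agent.Lib.MP_5854e1_co.Cz.B19
import Pool.Agent.Lib.MP_5854e1_co.Cz.B20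
import Pool.Agent.Lib.MP_5854e1_co.Cz.B21
import Pool.Agent.Lib.MP_5854e1_co.Cz.B22
import Pool.Agent.Lib.MP_5854e1_co.Cz.B23
import Pool.Agent.Lib.MP_5854e1_co.Cz.B24
import Pool.Agent.Lib.MP_5854e1_co.Cz.B25
import Pool.Agent.Lib.MP_5854e1_co.Cz.B26
import Pool.Agent.Lib.MP_5854e1_co.Cz.B27
import Pool.Agent.Lib.MP_5854e1_co.Cz.B28
import Pool.Agent.Lib.MP_5854e1_co.Cz.B29
import Pool.Agent.Lib.MP_5854e1_co.Cz.B30
import Pool.Agent.Lib.MP_5854e1_co.Cz.B31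
import Pool.Agent.Lib.MP_5854e1_co.Cz.B32
import Pool.Agent.Lib.MP_5854e1_co.Cz.B33
import Pool.Agent.Lib.MP_5854e1_co.Cz.B34
import Pool.Agent.Lib.MP_5854e1_co.Cz.B35
import Pool.Agent.Lib.MP_5854e1_co.Cz.B36
import Pool.Agent.Lib.MP_5854e1_co.Cz.B37

/-!
# Rows
-/

set_option autoImplicit false
set_option maxRecDepth 100000

namespace Pool.Agent.Lib.MP_5854e1_co.Cz

open PB

noncomputable section

noncomputable def r72_16 : Rw Blk := .tok (nat_lit 6) (nat_lit 0x1780002f00005ff720c075c980c96300ad9) (.hit (nat_lit 0) (nat_lit 0) (nat_lit 0x1780002f00005fa89abf7fd17ee07afde79) b52321 (.tok (nat_lit 14) (nat_lit 0x1780002f00005ff19cbfaa4d7f5d02ff979) (.hit (nat_lit 21) (nat_lit 61) (nat_lit 0x1780002f00005fd8fcbf94d57f1ebafea98) b52322 (.one (nat_lit 3) (nat_lit 22) (nat_lit 62) (nat_lit 0x1780002f00005fe1a6bf63957ec332feeb0) b52323 (.tok (nat_lit 6) (nat_lit 0x1780002f00005fb8b0bf7d9d7ef0eafe413)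 (.hit (nat_lit 25) (nat_lit 65) (nat_lit 0x1780002f00005f71fcbf7d9d7ef04afe0cd) b52324 (.hit (nat_lit 26) (nat_lit 66) (nat_lit 0x1780002f00005fb8b0bf79457ef0eafe413) b52325 (.nil))) (.tok (nat_lit 9) (nat_lit 0x1780002f00005ff19cbfaa4d7f5d02ff979) (.hit (nat_lit 23) (nat_lit 63) (nat_lit 0x1780002f00005ff19cbfaa4d7f5d02ff979) b52326 (.hit (nat_lit 24) (nat_lit 64) (nat_lit 0x1780002f00005fb5aebf76d57ee2bafdf1b) b52327 (.nil))) (.nil))))) (.one (nat_lit 17) (nat_lit 27) (nat_lit 67) (nat_lit 0x1780002f00005fc724bf5e057eb1b2fdb22) b52328 (.tok (nat_lit 20) (nat_lit 0x1780002f00005ff720c075c980c96300ad9) (.hit (nat_lit 28) (nat_lit 68) (nat_lit 0x1780002f00005ff720c075c980c96300ad9) b52331 (.hit (nat_lit 29) (nat_lit 69) (nat_lit 0x1780002f00005fad28bf397d7e71fafd12d) b52332 (.nil))) (.tok (nat_lit 23) (nat_lit 0x1780002f00005fa764bf3aa97e6a62fd010) (.hit (nat_lit 30) (nat_lit 70)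 (nat_lit 0x1780002f00005f5082bf3aa97e6a62fd010) b52329 (.hit (nat_lit 31) (nat_lit 71) (nat_lit 0x1780002f00005fa764bf2fa17e4cb2fce56) b52330 (.nil))) (.one (nat_lit 26) (nat_lit 32) (nat_lit 72) (nat_lit 0x1780002f00005f998ebf0f617e1e1afc75d) b52333 (.one (nat_lit 29) (nat_lit 33) (nat_lit 73) (nat_lit 0x1780002f00005fa412bf29997e505afd510) b52334 (.one (nat_lit 32) (nat_lit 34) (nat_lit 74) (nat_lit 0x1780002f00005f8a20bef8b57de67afbfcc) b52336 (.one (nat_lit 35) (nat_lit 35) (nat_lit 75) (nat_lit 0x1780002f00005fb926bf2a097e508afd5f4) b52335 (.one (nat_lit 38) (nat_lit 36) (nat_lit 76) (nat_lit 0x1780002f00005fa43ebf42f17e7af2fd222) b52337 (.tok (nat_lit 41) (nat_lit 0x1780002f00005f9c24bf40197e7d4afd3dc) (.hit (nat_lit 37) (nat_lit 77) (nat_lit 0x1780002f00005f8f86bef6357de66afcc2c) b52338 (.hit (nat_lit 38) (nat_lit 78) (nat_lit 0x1780002f00005f9c24bf40197e7d4afd3dc) b52339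 (.nil))) (.tok (nat_lit 44) (nat_lit 0x1780002f00005fbaf4bf5a357e80bafdcf3) (.hit (nat_lit 39) (nat_lit 79) (nat_lit 0x1780002f00005fbaf4bf5a357e80bafdcf3) b52342 (.hit (nat_lit 40) (nat_lit 80) (nat_lit 0x1780002f00005fa378bf01317e0582fcc00) b52343 (.nil))) (.tok (nat_lit 47) (nat_lit 0x1780002f00005fce66bf52597e9952fe0c8) (.hit (nat_lit 41) (nat_lit 81) (nat_lit 0x1780002f00005f41b0bf1d057e2f1afc8a7) b52340 (.hit (nat_lit 42) (nat_lit 82) (nat_lit 0x1780002f00005fce66bf52597e9952fe0c8) b52341 (.nil))) (.one (nat_lit 62) (nat_lit 52) (nat_lit 92) (nat_lit 0x1780002f00005f9914bf2c157e4d3afcc6b) b52344 (.tok (nat_lit 65) (nat_lit 0x1780002f00005fb0b4bf36197e6142fd384) (.hit (nat_lit 53) (nat_lit 93) (nat_lit 0x1780002f00005fb0b4bf36197e6142fd384) b52345 (.hit (nat_lit 54) (nat_lit 94) (nat_lit 0x1780002f00005f864cbf2d2d7e566afcc28) b52346 (.nil))) (.tok (nat_lit 68) (nat_lit 0x1780002f00005f9602bf8da57f00e2fe344)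 (.hit (nat_lit 55) (nat_lit 95) (nat_lit 0x1780002f00005f9602bf8da57f00e2fe344) b52347 (.one (nat_lit 3) (nat_lit 59) (nat_lit 99) (nat_lit 0x1780002f00005f4f88bf38b57e667afcf93) b52351 (.one (nat_lit 6) (nat_lit 56) (nat_lit 96) (nat_lit 0x1780002f00005f57cebf49417e8792fd3b6) b52348 (.tok (nat_lit 9) (nat_lit 0x1780002f00005f73a6bf80f17ef6f2fe1a2) (.hit (nat_lit 57) (nat_lit 97) (nat_lit 0x1780002f00005f73a6bf80f17ef6f2fe1a2) b52349 (.hit (nat_lit 58) (nat_lit 98) (nat_lit 0x1780002f00005f6302bf5fa97eb462fd950) b52350 (.nil))) (.nil))))) (.one (nat_lit 71) (nat_lit 60) (nat_lit 100) (nat_lit 0x1780002f00005fa662bf219d7e3c9afcd8f) b52352 (.nil)))))))))))))))))) (.tok (nat_lit 52) (nat_lit 0x1780002f0000600000c06101806dfb0112f) (.hit (nat_lit 176) (nat_lit 0) (nat_lit 0x1780002f0000600000c06101806dfb0112f) b52353 (.tok (nat_lit 6) (nat_lit 0x1780002f00005fd834c002797fb893001bb)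 (.hit (nat_lit 177) (nat_lit 7) (nat_lit 0x1780002f00005fd834c002797fb893001bb) b52356 (.hit (nat_lit 178) (nat_lit 15) (nat_lit 0x1780002f00005fb672bfbbdd7f321aff211) b52357 (.nil))) (.tok (nat_lit 9) (nat_lit 0x1780002f00005fd1d6bfdf917f765affb7f) (.hit (nat_lit 179) (nat_lit 20) (nat_lit 0x1780002f00005faaa6bfac757f4edafec51) b52354 (.hit (nat_lit 180) (nat_lit 28) (nat_lit 0x1780002f00005fd1d6bfdf917f765affb7f) b52355 (.nil))) (.nil)))) (.tok (nat_lit 55) (nat_lit 0x1780002f00005fc552bfc6ed7f83caff2ef) (.hit (nat_lit 187) (nat_lit 0) (nat_lit 0x1780002f00005fc552bfb8ad7f6092fee88) b52366 (.tok (nat_lit 3) (nat_lit 0x1780002f00005fb7e2bfc6ed7f83caff2ef) (.hit (nat_lit 188) (nat_lit 1) (nat_lit 0x1780002f00005f8a9abf6c5d7eceaafdc4b) b52367 (.one (nat_lit 67) (nat_lit 189) (nat_lit 2) (nat_lit 0x1780002f00005fb7e2bfc6ed7f83caff2ef) b52368 (.nil))) (.tok (nat_lit 6) (nat_lit 0x1780002f00005f9fa4bf96717f22d2fe6d0)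 (.hit (nat_lit 190) (nat_lit 7) (nat_lit 0x1780002f00005f9fa4bf96717f22d2fe6d0) b52369 (.hit (nat_lit 193) (nat_lit 15) (nat_lit 0x1780002f00005f8c46bf6fb57ed55afdd21) b52370 (.nil))) (.nil)))) (.tok (nat_lit 58) (nat_lit 0x1780002f00005fe010c0174980248300706) (.hit (nat_lit 201) (nat_lit 0) (nat_lit 0x1780002f00005fcef0bfead17f96c2ff32d) b52358 (.tok (nat_lit 3) (nat_lit 0x1780002f00005fcdc2bff2ad7fdb4affddf) (.hit (nat_lit 202) (nat_lit 1) (nat_lit 0x1780002f00005f9a94bf8c517f0e92fe448) b52359 (.one (nat_lit 55) (nat_lit 203) (nat_lit 3) (nat_lit 0x1780002f00005fcdc2bff2ad7fdb4affddf) b52360 (.nil))) (.tok (nat_lit 9) (nat_lit 0x1780002f00005fe010c0174980248300706) (.hit (nat_lit 204) (nat_lit 20) (nat_lit 0x1780002f00005f9e7abf941d7f1e2afe63b) b52361 (.hit (nat_lit 207) (nat_lit 28) (nat_lit 0x1780002f00005f9ed4bf94d17f1f92fe668) b52364 (.tok (nat_lit 67) (nat_lit 0x1780002f00005fe010c0174980248300706)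 (.hit (nat_lit 205) (nat_lit 21) (nat_lit 0x1780002f00005fb868bfc7f97f85e2ff332) b52362 (.hit (nat_lit 208) (nat_lit 29) (nat_lit 0x1780002f00005fd34abffdbd7ff16b000a3) b52365 (.one (nat_lit 9) (nat_lit 206) (nat_lit 22) (nat_lit 0x1780002f00005fe010c0174980248300706) b52363 (.nil)))) (.nil)))) (.nil)))) (.nil))))
noncomputable def r72_17 : Rw Blk := .tok (nat_lit 3) (nat_lit 0x1780002f00006026d2c040e180b8b30268e) (.hit (nat_lit 15) (nat_lit 0) (nat_lit 0x1780002f00006007bcbfdd497fd1530102c) b52378 (.tok (nat_lit 9) (nat_lit 0x1780002f00005fc808bfaff97f80baff57d) (.hit (nat_lit 16) (nat_lit 20) (nat_lit 0x1780002f00005f81e0bf26897e6ddafd269) b52379 (.hit (nat_lit 21) (nat_lit 28) (nat_lit 0x1780002f00005fa09cbef88d7e11e2fe3b4) b52384 (.tok (nat_lit 14) (nat_lit 0x1780002f00005fc808bf96657f4d92ff57d) (.hit (nat_lit 17) (nat_lit 24) (nat_lit 0x1780002f00005fa488bf53f97ec8bafe3bd)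 b52380 (.hit (nat_lit 22) (nat_lit 30) (nat_lit 0x1780002f00005fb79abf96657f4d92ff297) b52385 (.one (nat_lit 6) (nat_lit 18) (nat_lit 25) (nat_lit 0x1780002f00005fc808bf62957ee5f2ff57d) b52381 (.nil)))) (.tok (nat_lit 68) (nat_lit 0x1780002f00005fbb32bfaff97f80bafef12) (.hit (nat_lit 19) (nat_lit 26) (nat_lit 0x1780002f00005fa3eebf48bd7eb242fe370) b52382 (.hit (nat_lit 24) (nat_lit 32) (nat_lit 0x1780002f00005fb092bf866d7f2da2fe952) b52386 (.one (nat_lit 9) (nat_lit 20) (nat_lit 27) (nat_lit 0x1780002f00005fbb32bfaff97f80bafef12) b52383 (.nil)))) (.nil))))) (.tok (nat_lit 64) (nat_lit 0x1780002f00005fd5e4bfb3e17f888affd15) (.hit (nat_lit 25) (nat_lit 50) (nat_lit 0x1780002f00005fcbb8bf92757f45b2ff370) b52387 (.hit (nat_lit 26) (nat_lit 51) (nat_lit 0x1780002f00005fd5e4bfb3e17f888affd15) b52388 (.nil))) (.tok (nat_lit 67) (nat_lit 0x1780002f00006026d2c040e180b8b30155e) (.hit (nat_lit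 27) (nat_lit 52) (nat_lit 0x1780002f00006026d2c040e180b8b30155e) b52389 (.tok (nat_lit 3) (nat_lit 0x1780002f00005fdf54bfa7f97f70bb00123) (.hit (nat_lit 33) (nat_lit 58) (nat_lit 0x1780002f00005fb972bf87397f2f3afee32) b52395 (.one (nat_lit 55) (nat_lit 34) (nat_lit 59) (nat_lit 0x1780002f00005fdf54bfa7f97f70bb00123) b52396 (.nil))) (.tok (nat_lit 9) (nat_lit 0x1780002f00005fc960bfb2517f856aff629) (.hit (nat_lit 28) (nat_lit 53) (nat_lit 0x1780002f00005fbb46bf92357f4532fef1c) b52390 (.hit (nat_lit 31) (nat_lit 56) (nat_lit 0x1780002f00005fb482bf76c17f0e4afebba) b52393 (.tok (nat_lit 67) (nat_lit 0x1780002f00005fc960bfb2517f856aff629) (.hit (nat_lit 29) (nat_lit 54) (nat_lit 0x1780002f00005fc960bfa26d7f65a2ff629) b52391 (.hit (nat_lit 32) (nat_lit 57) (nat_lit 0x1780002f00005fc84ebfb2517f856aff5a0) b52394 (.one (nat_lit 9) (nat_lit 30) (nat_lit 55) (nat_lit 0x1780002f00005fb27abf77057f0ed2feab6)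 b52392 (.nil)))) (.nil)))) (.nil)))) (.one (nat_lit 70) (nat_lit 35) (nat_lit 60) (nat_lit 0x1780002f0000601ed0bfe1b57fe4330268e) b52397 (.nil)))))) (.tok (nat_lit 6) (nat_lit 0x1780002f0000601e38c0d011817003027d9) (.hit (nat_lit 0) (nat_lit 0) (nat_lit 0x1780002f0000600b32c04f418064bb00eba) b52371 (.tok (nat_lit 6) (nat_lit 0x1780002f0000601e38c0d011817003027d9) (.hit (nat_lit 1) (nat_lit 7) (nat_lit 0x1780002f00005faa7ebfb0a97f27f2fde1e) b52372 (.hit (nat_lit 4) (nat_lit 15) (nat_lit 0x1780002f00005fbd24bfc46d7f425afe731) b52375 (.tok (nat_lit 14) (nat_lit 0x1780002f0000601e38c0d011817003027d9) (.hit (nat_lit 2) (nat_lit 11) (nat_lit 0x1780002f00005fd77ec015297ff66affad7) b52373 (.hit (nat_lit 5) (nat_lit 17) (nat_lit 0x1780002f00005feffac01c3d8004c2ffb07) b52376 (.one (nat_lit 9) (nat_lit 3) (nat_lit 12) (nat_lit 0x1780002f0000601e38c0d011817003027d9) b52374 (.nil)))) (.one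 (nat_lit 68) (nat_lit 6) (nat_lit 18) (nat_lit 0x1780002f0000600f04c0750580de1b01070) b52377 (.nil))))) (.nil))) (.nil))
noncomputable def r72_18 : Rw Blk := .tok (nat_lit 6) (nat_lit 0x5e0000bc000182345b05999) (.hit (nat_lit 0) (nat_lit 0) (nat_lit 0x5e0000bc00017fc0d300e6d) b52398 (.tok (nat_lit 14) (nat_lit 0x5e0000bc000181891303ab4) (.hit (nat_lit 1) (nat_lit 61) (nat_lit 0x5e0000bc0001803fb301462) b52399 (.one (nat_lit 3) (nat_lit 2) (nat_lit 62) (nat_lit 0x5e0000bc00018082a300e7f) b52400 (.tok (nat_lit 6) (nat_lit 0x5e0000bc00017f7ea3005c5) (.hit (nat_lit 5) (nat_lit 65) (nat_lit 0x5e0000bc00017f7ea3005c5) b52401 (.hit (nat_lit 6) (nat_lit 66) (nat_lit 0x5e0000bc00017f3562ffc69) b52402 (.nil))) (.tok (nat_lit 9) (nat_lit 0x5e0000bc000181891303ab4) (.hit (nat_lit 3) (nat_lit 63) (nat_lit 0x5e0000bc000181891303ab4) b52403 (.hit (nat_lit 4) (nat_lit 64) (nat_lit 0x5e0000bc00017fb50b0048d)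 b52404 (.nil))) (.nil))))) (.one (nat_lit 17) (nat_lit 7) (nat_lit 67) (nat_lit 0x5e0000bc00017f9e82ff4cf) b52405 (.tok (nat_lit 20) (nat_lit 0x5e0000bc000182345b05999) (.hit (nat_lit 8) (nat_lit 68) (nat_lit 0x5e0000bc000182345b05999) b52408 (.hit (nat_lit 9) (nat_lit 69) (nat_lit 0x5e0000bc00017f74b2fedc5) b52409 (.nil))) (.tok (nat_lit 23) (nat_lit 0x5e0000bc00017f65c2ffb88) (.hit (nat_lit 10) (nat_lit 70) (nat_lit 0x5e0000bc00017f2cbaffb88) b52406 (.hit (nat_lit 11) (nat_lit 71) (nat_lit 0x5e0000bc00017f65c2ff877) b52407 (.nil))) (.one (nat_lit 38) (nat_lit 16) (nat_lit 76) (nat_lit 0x5e0000bc00017f2edaff063) b52410 (.tok (nat_lit 41) (nat_lit 0x5e0000bc00017f0e0aff2dd) (.hit (nat_lit 17) (nat_lit 77) (nat_lit 0x5e0000bc00017ec98afeec3) b52411 (.hit (nat_lit 18) (nat_lit 78) (nat_lit 0x5e0000bc00017f0e0aff2dd) b52412 (.nil))) (.tok (nat_lit 44) (nat_lit 0x5e0000bc00017f643b0039b)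 (.hit (nat_lit 19) (nat_lit 79) (nat_lit 0x5e0000bc00017f643b0039b) b52415 (.hit (nat_lit 20) (nat_lit 80) (nat_lit 0x5e0000bc00017ebb02fe509) b52416 (.nil))) (.tok (nat_lit 47) (nat_lit 0x5e0000bc00017f5a5aff181) (.hit (nat_lit 21) (nat_lit 81) (nat_lit 0x5e0000bc00017eafa2febe5) b52413 (.hit (nat_lit 22) (nat_lit 82) (nat_lit 0x5e0000bc00017f5a5aff181) b52414 (.nil))) (.one (nat_lit 62) (nat_lit 23) (nat_lit 92) (nat_lit 0x5e0000bc00017fee92ffaf6) b52417 (.tok (nat_lit 65) (nat_lit 0x5e0000bc00017f4e8affba9) (.hit (nat_lit 24) (nat_lit 93) (nat_lit 0x5e0000bc00017f3e2affba9) b52418 (.hit (nat_lit 25) (nat_lit 94) (nat_lit 0x5e0000bc00017f4e8aff209) b52419 (.nil))) (.tok (nat_lit 68) (nat_lit 0x5e0000bc000180934301af9) (.hit (nat_lit 26) (nat_lit 95) (nat_lit 0x5e0000bc000180934301af9) b52420 (.one (nat_lit 3) (nat_lit 30) (nat_lit 99) (nat_lit 0x5e0000bc00017f6cdb0038c) b52424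 (.one (nat_lit 6) (nat_lit 27) (nat_lit 96) (nat_lit 0x5e0000bc00017f4642ffeb9) b52421 (.tok (nat_lit 9) (nat_lit 0x5e0000bc00017f59a300125) (.hit (nat_lit 28) (nat_lit 97) (nat_lit 0x5e0000bc00017f59a300125) b52422 (.hit (nat_lit 29) (nat_lit 98) (nat_lit 0x5e0000bc00017efe92ff5c3) b52423 (.nil))) (.nil))))) (.one (nat_lit 71) (nat_lit 31) (nat_lit 100) (nat_lit 0x5e0000bc00017f60dafecd0) b52425 (.nil)))))))))))))) (.nil)
noncomputable def r72_19 : Rw Blk := .tok (nat_lit 6) (nat_lit 0x5e0000bc00017f9c7afff48) (.hit (nat_lit 0) (nat_lit 0) (nat_lit 0x5e0000bc00017e5a52fde40) b52426 (.tok (nat_lit 14) (nat_lit 0x5e0000bc00017f9c7afff48) (.hit (nat_lit 21) (nat_lit 61) (nat_lit 0x5e0000bc00017f2a7afe980) b52427 (.one (nat_lit 3) (nat_lit 22) (nat_lit 62) (nat_lit 0x5e0000bc00017ebf2afdfab) b52428 (.tok (nat_lit 6) (nat_lit 0x5e0000bc00017ec2dafea11) (.hit (nat_lit 25) (nat_lit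 65) (nat_lit 0x5e0000bc00017e2c9afe6cc) b52429 (.hit (nat_lit 26) (nat_lit 66) (nat_lit 0x5e0000bc00017ec2dafea11) b52430 (.nil))) (.tok (nat_lit 9) (nat_lit 0x5e0000bc00017f9c7afff48) (.hit (nat_lit 23) (nat_lit 63) (nat_lit 0x5e0000bc00017f9c7afff48) b52431 (.hit (nat_lit 24) (nat_lit 64) (nat_lit 0x5e0000bc00017ee6d2fe765) b52432 (.nil))) (.nil))))) (.one (nat_lit 17) (nat_lit 27) (nat_lit 67) (nat_lit 0x5e0000bc00017e6feafd51a) b52433 (.tok (nat_lit 20) (nat_lit 0x5e0000bc00017eb80afe674) (.hit (nat_lit 28) (nat_lit 68) (nat_lit 0x5e0000bc00017eb80afe674) b52436 (.hit (nat_lit 29) (nat_lit 69) (nat_lit 0x5e0000bc00017e567afd388) b52437 (.nil))) (.tok (nat_lit 23) (nat_lit 0x5e0000bc00017e6e9afdf4d) (.hit (nat_lit 30) (nat_lit 70) (nat_lit 0x5e0000bc00017df0a2fdf4d) b52434 (.hit (nat_lit 31) (nat_lit 71) (nat_lit 0x5e0000bc00017e6e9afd386) b52435 (.nil))) (.one (nat_lit 26)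 (nat_lit 32) (nat_lit 72) (nat_lit 0x5e0000bc00017e334afc361) b52438 (.one (nat_lit 29) (nat_lit 33) (nat_lit 73) (nat_lit 0x5e0000bc00017e25f2fc3b7) b52439 (.one (nat_lit 32) (nat_lit 34) (nat_lit 74) (nat_lit 0x5e0000bc00017de5b2fc705) b52441 (.one (nat_lit 35) (nat_lit 35) (nat_lit 75) (nat_lit 0x5e0000bc00017e61dafc92d) b52440 (.one (nat_lit 38) (nat_lit 36) (nat_lit 76) (nat_lit 0x5e0000bc00017e4da2fd55a) b52442 (.tok (nat_lit 41) (nat_lit 0x5e0000bc00017e3ab2fcc65) (.hit (nat_lit 37) (nat_lit 77) (nat_lit 0x5e0000bc00017e3ab2fc661) b52443 (.hit (nat_lit 38) (nat_lit 78) (nat_lit 0x5e0000bc00017e2222fcc65) b52444 (.nil))) (.tok (nat_lit 44) (nat_lit 0x5e0000bc00017e86e2fcedd) (.hit (nat_lit 39) (nat_lit 79) (nat_lit 0x5e0000bc00017e86e2fcedd) b52447 (.hit (nat_lit 40) (nat_lit 80) (nat_lit 0x5e0000bc00017e42d2fc944) b52448 (.nil))) (.tok (nat_lit 47) (nat_lit 0x5e0000bc00017e7802fcbf0)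 (.hit (nat_lit 41) (nat_lit 81) (nat_lit 0x5e0000bc00017cde42fbd01) b52445 (.hit (nat_lit 42) (nat_lit 82) (nat_lit 0x5e0000bc00017e7802fcbf0) b52446 (.nil))) (.one (nat_lit 62) (nat_lit 52) (nat_lit 92) (nat_lit 0x5e0000bc00017e422afcec8) b52449 (.tok (nat_lit 65) (nat_lit 0x5e0000bc00017e28f2fd57b) (.hit (nat_lit 53) (nat_lit 93) (nat_lit 0x5e0000bc00017e024afd57b) b52450 (.hit (nat_lit 54) (nat_lit 94) (nat_lit 0x5e0000bc00017e28f2fc738) b52451 (.nil))) (.tok (nat_lit 68) (nat_lit 0x5e0000bc00017e6132fe7fd) (.hit (nat_lit 55) (nat_lit 95) (nat_lit 0x5e0000bc00017e6132fe7fd) b52452 (.one (nat_lit 3) (nat_lit 59) (nat_lit 99) (nat_lit 0x5e0000bc00017de1fafdd78) b52456 (.one (nat_lit 6) (nat_lit 56) (nat_lit 96) (nat_lit 0x5e0000bc00017dd6f2fdc17) b52453 (.tok (nat_lit 9) (nat_lit 0x5e0000bc00017dfb6afe0a6) (.hit (nat_lit 57) (nat_lit 97) (nat_lit 0x5e0000bc00017dfb6afe0a6) b52454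 (.hit (nat_lit 58) (nat_lit 98) (nat_lit 0x5e0000bc00017de8dafde54) b52455 (.nil))) (.nil))))) (.one (nat_lit 71) (nat_lit 60) (nat_lit 100) (nat_lit 0x5e0000bc00017e4272fc57d) b52457 (.nil)))))))))))))))))) (.tok (nat_lit 52) (nat_lit 0x5e0000bc00017f56ab009bf) (.hit (nat_lit 176) (nat_lit 0) (nat_lit 0x5e0000bc00017f475b009bf) b52458 (.tok (nat_lit 6) (nat_lit 0x5e0000bc00017f56ab008ba) (.hit (nat_lit 177) (nat_lit 7) (nat_lit 0x5e0000bc00017f56ab008ba) b52461 (.hit (nat_lit 178) (nat_lit 15) (nat_lit 0x5e0000bc00017ed5a2ff907) b52462 (.nil))) (.tok (nat_lit 9) (nat_lit 0x5e0000bc00017f177affcd5) (.hit (nat_lit 179) (nat_lit 20) (nat_lit 0x5e0000bc00017ea582ff6f6) b52459 (.hit (nat_lit 180) (nat_lit 28) (nat_lit 0x5e0000bc00017f177affcd5) b52460 (.nil))) (.nil)))) (.tok (nat_lit 55) (nat_lit 0x5e0000bc00017f708affd4d) (.hit (nat_lit 187) (nat_lit 0) (nat_lit 0x5e0000bc00017f708affa06)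 b52471 (.tok (nat_lit 3) (nat_lit 0x5e0000bc00017ed83affd4d) (.hit (nat_lit 188) (nat_lit 1) (nat_lit 0x5e0000bc00017e6e12ff008) b52472 (.one (nat_lit 67) (nat_lit 189) (nat_lit 2) (nat_lit 0x5e0000bc00017ed83affd4d) b52473 (.nil))) (.tok (nat_lit 6) (nat_lit 0x5e0000bc00017e6eaaff01b) (.hit (nat_lit 190) (nat_lit 7) (nat_lit 0x5e0000bc00017e550afece7) b52474 (.hit (nat_lit 193) (nat_lit 15) (nat_lit 0x5e0000bc00017e6eaaff01b) b52475 (.nil))) (.nil)))) (.tok (nat_lit 58) (nat_lit 0x5e0000bc000180000302246) (.hit (nat_lit 201) (nat_lit 0) (nat_lit 0x5e0000bc00017f084aff74e) b52463 (.tok (nat_lit 3) (nat_lit 0x5e0000bc00017f3bab009bb) (.hit (nat_lit 202) (nat_lit 1) (nat_lit 0x5e0000bc00017e7772ff134) b52464 (.one (nat_lit 55) (nat_lit 203) (nat_lit 3) (nat_lit 0x5e0000bc00017f3bab009bb) b52465 (.nil))) (.tok (nat_lit 9) (nat_lit 0x5e0000bc000180000302246) (.hit (nat_lit 204) (nat_lit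 20) (nat_lit 0x5e0000bc00017eb25aff891) b52466 (.hit (nat_lit 207) (nat_lit 28) (nat_lit 0x5e0000bc00017e6812fef48) b52469 (.tok (nat_lit 67) (nat_lit 0x5e0000bc000180000302246) (.hit (nat_lit 205) (nat_lit 21) (nat_lit 0x5e0000bc00017f178300536) b52467 (.hit (nat_lit 208) (nat_lit 29) (nat_lit 0x5e0000bc00017f360b00907) b52470 (.one (nat_lit 9) (nat_lit 206) (nat_lit 22) (nat_lit 0x5e0000bc000180000302246) b52468 (.nil)))) (.nil)))) (.nil)))) (.nil))))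
noncomputable def r72_20 : Rw Blk := .tok (nat_lit 3) (nat_lit 0x5e0000bc000180cde3021f2) (.hit (nat_lit 15) (nat_lit 0) (nat_lit 0x5e0000bc00017f321aff144) b52483 (.tok (nat_lit 9) (nat_lit 0x5e0000bc00017ed72aff421) (.hit (nat_lit 16) (nat_lit 20) (nat_lit 0x5e0000bc00017e2882fde4c) b52484 (.hit (nat_lit 21) (nat_lit 28) (nat_lit 0x5e0000bc00017d22bafbd93) b52489 (.tok (nat_lit 14) (nat_lit 0x5e0000bc00017ea45afedc7) (.hit (nat_lit 17) (nat_lit 24) (nat_lit 0x5e0000bc00017e665afe607) b52485 (.hit (nat_lit 22) (nat_lit 30) (nat_lit 0x5e0000bc00017e5f32fe522) b52490 (.one (nat_lit 6) (nat_lit 18) (nat_lit 25) (nat_lit 0x5e0000bc00017ea45afedc7) b52486 (.nil)))) (.tok (nat_lit 68) (nat_lit 0x5e0000bc00017ed72aff421) (.hit (nat_lit 19) (nat_lit 26) (nat_lit 0x5e0000bc00017e85bafe9f3) b52487 (.hit (nat_lit 24) (nat_lit 32) (nat_lit 0x5e0000bc00017e4682fe20c) b52491 (.one (nat_lit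 9) (nat_lit 20) (nat_lit 27) (nat_lit 0x5e0000bc00017ed72aff421) b52488 (.nil)))) (.nil))))) (.tok (nat_lit 64) (nat_lit 0x5e0000bc00017eb98aff06d) (.hit (nat_lit 25) (nat_lit 50) (nat_lit 0x5e0000bc00017eb98aff06d) b52492 (.hit (nat_lit 26) (nat_lit 51) (nat_lit 0x5e0000bc00017e9652fec06) b52493 (.nil))) (.tok (nat_lit 67) (nat_lit 0x5e0000bc000180cde3021f2) (.hit (nat_lit 27) (nat_lit 52) (nat_lit 0x5e0000bc000180cde3021f2) b52494 (.tok (nat_lit 3) (nat_lit 0x5e0000bc00017f15baffbf3) (.hit (nat_lit 33) (nat_lit 58) (nat_lit 0x5e0000bc00017ef2b2ff792) b52500 (.one (nat_lit 55) (nat_lit 34) (nat_lit 59) (nat_lit 0x5e0000bc00017f15baffbf3) b52501 (.nil))) (.tok (nat_lit 9) (nat_lit 0x5e0000bc00017f268affe0d) (.hit (nat_lit 28) (nat_lit 53) (nat_lit 0x5e0000bc00017ea532fede2) b52495 (.hit (nat_lit 31) (nat_lit 56) (nat_lit 0x5e0000bc00017e90a2feb50) b52498 (.tok (nat_lit 67) (nat_lit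 0x5e0000bc00017f268affe0d) (.hit (nat_lit 29) (nat_lit 54) (nat_lit 0x5e0000bc00017f268affe0d) b52496 (.hit (nat_lit 32) (nat_lit 57) (nat_lit 0x5e0000bc00017ef0d2ff756) b52499 (.one (nat_lit 9) (nat_lit 30) (nat_lit 55) (nat_lit 0x5e0000bc00017eb1bafef73) b52497 (.nil)))) (.nil)))) (.nil)))) (.one (nat_lit 70) (nat_lit 35) (nat_lit 60) (nat_lit 0x5e0000bc00017f153affbe3) b52502 (.nil)))))) (.tok (nat_lit 6) (nat_lit 0x5e0000bc0001803b9b019ca) (.hit (nat_lit 0) (nat_lit 0) (nat_lit 0x5e0000bc00017f8d2affbb0) b52476 (.tok (nat_lit 6) (nat_lit 0x5e0000bc0001803b9b019ca) (.hit (nat_lit 1) (nat_lit 7) (nat_lit 0x5e0000bc00017f3972fe9a4) b52477 (.hit (nat_lit 4) (nat_lit 15) (nat_lit 0x5e0000bc00017e7a6afdeb5) b52480 (.tok (nat_lit 14) (nat_lit 0x5e0000bc0001803b9b019ca) (.hit (nat_lit 2) (nat_lit 11) (nat_lit 0x5e0000bc0001803b9b019ca) b52478 (.hit (nat_lit 5) (nat_lit 17) (nat_lit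 0x5e0000bc00017f362afe7b1) b52481 (.one (nat_lit 9) (nat_lit 3) (nat_lit 12) (nat_lit 0x5e0000bc00017fe55300f88) b52479 (.nil)))) (.one (nat_lit 68) (nat_lit 6) (nat_lit 18) (nat_lit 0x5e0000bc00017f6a92fee15) b52482 (.nil))))) (.nil))) (.nil))
noncomputable def r73_0 : Rw Blk := .tok (nat_lit 6) (nat_lit 0x300000600000c011d1800002fe5465fe35ec0000180000300000) (.hit (nat_lit 81) (nat_lit 0) (nat_lit 0x2fe4b85fd5d4bfaa397f50dafe03e5fd49abf7a097fb932fe055) b52504 (.tok (nat_lit 3) (nat_lit 0x2feb0b5fdbe0bfeb217f295afd8c25fca56bfbfe17f91b2fe9de) (.hit (nat_lit 82) (nat_lit 1) (nat_lit 0x2fcbb35f88b0bf7b997e235afb8025f88d6bf216d7e8bb2fcbb7) b52505 (.one (nat_lit 14) (nat_lit 84) (nat_lit 4) (nat_lit 0x2fe8a95fdbe0bfd0197ee7cafc2865fa1acbfb3ed7f42fafe753) b52506 (.one (nat_lit 68) (nat_lit 85) (nat_lit 5) (nat_lit 0x2feb0b5fd3a2bfeb217f295afd8c25fca56bfbfe17f91b2fe9de) b52507 (.nil))))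 (.tok (nat_lit 40) (nat_lit 0x2fe7215fd042bfcb297f18eafccc35fb258bf9e057f40dafe80b) (.hit (nat_lit 100) (nat_lit 33) (nat_lit 0x2fe7215fd042bfcb297ee912fccc35fb258bf9e057f40dafe80b) b52508 (.hit (nat_lit 101) (nat_lit 34) (nat_lit 0x2fe2775fb726bfa2a17f18eafc6895fa5e4bf94a17f1652fe325) b52509 (.nil))) (.tok (nat_lit 43) (nat_lit 0x2fecc7600000bfd2017f5fe2fdf625fd796c000017fe4eaff02f) (.hit (nat_lit 102) (nat_lit 35) (nat_lit 0x2fecc7600000bfd2017f5fe2fdf625fd796c000017fe4eaff02f) b52510 (.hit (nat_lit 103) (nat_lit 36) (nat_lit 0x2fe7225fd476bfce017f472afd5cd5fc46cbf92e17f7a0afe8ed) b52511 (.nil))) (.tok (nat_lit 46) (nat_lit 0x3000005ff54cc011d1800002fe5465fe35ebff9c580000300000) (.hit (nat_lit 104) (nat_lit 37) (nat_lit 0x2fe23a5fbc94bfff4d7f8d7afe5465fe35ebf95197ff5d2fe885) b52512 (.hit (nat_lit 105) (nat_lit 38) (nat_lit 0x3000005ff54cc011d1800002fdb595fd06cbff9c580000300000)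 b52513 (.nil))) (.nil)))))) (.tok (nat_lit 9) (nat_lit 0x300000600000c011d17f8d7b00000600000bf951980000300000) (.hit (nat_lit 157) (nat_lit 0) (nat_lit 0x2fe4b85fd5d4bfaa397f526afde825fd436bf80f97fb932fe055) b52514 (.tok (nat_lit 3) (nat_lit 0x2feb0b5fdbe0bfeb217f295afeff85fca56bf63097f91b2fe9de) (.hit (nat_lit 158) (nat_lit 1) (nat_lit 0x2fcbb35f88b0bf7b997e235afc85b5f88d6bee0097e8bb2fcbb7) b52515 (.one (nat_lit 14) (nat_lit 160) (nat_lit 4) (nat_lit 0x2fe8a95fdbe0bfd0197e86b2fecfb5fb9f2bf0a197f42fafe753) b52516 (.one (nat_lit 56) (nat_lit 162) (nat_lit 6) (nat_lit 0x2feb0b5fd3a2bfeb217f295afeff85fca56bf63097f91b2fe9de) b52517 (.nil)))) (.tok (nat_lit 40) (nat_lit 0x2fe7215fd042bfcb297ec962fe7815fc63abf330d7f40dafe80b) (.hit (nat_lit 176) (nat_lit 33) (nat_lit 0x2fe7215fd042bfcb297ec962fe7815fba44bf330d7f40dafe80b) b52518 (.hit (nat_lit 177) (nat_lit 34) (nat_lit 0x2fe2775fb726bfa2a17e9792fe5285fc63abf1a257f1652fe325)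 b52519 (.nil))) (.tok (nat_lit 43) (nat_lit 0x3000005ff54cc011d17f8d7affe71600000bf951980000300000) (.hit (nat_lit 178) (nat_lit 35) (nat_lit 0x2fe23a5fbc94bfff4d7f8d7afe5465fe35ebf95197ff5d2fe885) b52512 (.hit (nat_lit 179) (nat_lit 36) (nat_lit 0x3000005ff54cc011d17f41b2ffe71600000bf6d6580000300000) b52520 (.nil))) (.tok (nat_lit 46) (nat_lit 0x2fecc7600000bfd2017f5e5b000005fd7f8bf7d897fe4eaff02f) (.hit (nat_lit 180) (nat_lit 37) (nat_lit 0x2fecc7600000bfd2017f5e5b000005fd7f8bf7d897fe4eaff02f) b52521 (.hit (nat_lit 181) (nat_lit 38) (nat_lit 0x2fe7225fd476bfce017f11b2fe4b85fd1cabf57357f7a0afe8ed) b52522 (.nil))) (.nil)))))) (.nil))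
noncomputable def r73_1 : Rw Blk := .tok (nat_lit 3) (nat_lit 0xbc0001780002fec57) (.hit (nat_lit 61) (nat_lit 0) (nat_lit 0xbc0001780002fd996) b52523 (.tok (nat_lit 14) (nat_lit 0xbc0001780002fec57) (.hit (nat_lit 82) (nat_lit 61) (nat_lit 0xbc0001780002fec57) b52524 (.one (nat_lit 3) (nat_lit 83) (nat_lit 62) (nat_lit 0xbc0001780002fc6b5) b52525 (.tok (nat_lit 6) (nat_lit 0xbc0001780002fcb40) (.hit (nat_lit 86) (nat_lit 65) (nat_lit 0xbc0001780002fca65) b52528 (.hit (nat_lit 87) (nat_lit 66) (nat_lit 0xbc0001780002fcb40) b52529 (.nil))) (.tok (nat_lit 9) (nat_lit 0xbc0001780002fea59) (.hit (nat_lit 84) (nat_lit 63) (nat_lit 0xbc0001780002fea59) b52526 (.hit (nat_lit 85) (nat_lit 64) (nat_lit 0xbc0001780002fc972) b52527 (.nil))) (.nil))))) (.one (nat_lit 17) (nat_lit 88) (nat_lit 67) (nat_lit 0xbc0001780002fc257) b52530 (.tok (nat_lit 20) (nat_lit 0xbc0001780002fc880) (.hit (nat_lit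 89) (nat_lit 68) (nat_lit 0xbc0001780002fc880) b52531 (.hit (nat_lit 90) (nat_lit 69) (nat_lit 0xbc0001780002fc060) b52532 (.nil))) (.tok (nat_lit 23) (nat_lit 0xbc0001780002fcea5) (.hit (nat_lit 91) (nat_lit 70) (nat_lit 0xbc0001780002fcea5) b52533 (.hit (nat_lit 92) (nat_lit 71) (nat_lit 0xbc0001780002fc080) b52534 (.nil))) (.one (nat_lit 26) (nat_lit 93) (nat_lit 72) (nat_lit 0xbc0001780002fade5) b52535 (.one (nat_lit 29) (nat_lit 94) (nat_lit 73) (nat_lit 0xbc0001780002fb070) b52536 (.one (nat_lit 32) (nat_lit 95) (nat_lit 74) (nat_lit 0xbc0001780002fb99f) b52537 (.one (nat_lit 35) (nat_lit 96) (nat_lit 75) (nat_lit 0xbc0001780002fb491) b52538 (.one (nat_lit 38) (nat_lit 97) (nat_lit 76) (nat_lit 0xbc0001780002fbf77) b52539 (.tok (nat_lit 41) (nat_lit 0xbc0001780002fbdb2) (.hit (nat_lit 98) (nat_lit 77) (nat_lit 0xbc0001780002fa736) b52540 (.hit (nat_lit 99) (nat_lit 78) (nat_lit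 0xbc0001780002fbdb2) b52541 (.nil))) (.tok (nat_lit 44) (nat_lit 0xbc0001780002fb7df) (.hit (nat_lit 100) (nat_lit 79) (nat_lit 0xbc0001780002fab4a) b52542 (.hit (nat_lit 101) (nat_lit 80) (nat_lit 0xbc0001780002fb7df) b52543 (.nil))) (.tok (nat_lit 47) (nat_lit 0xbc0001780002fb8cc) (.hit (nat_lit 102) (nat_lit 81) (nat_lit 0xbc0001780002fb7d2) b52544 (.hit (nat_lit 103) (nat_lit 82) (nat_lit 0xbc0001780002fb8cc) b52545 (.nil))) (.one (nat_lit 62) (nat_lit 113) (nat_lit 92) (nat_lit 0xbc0001780002fc6c2) b52546 (.tok (nat_lit 65) (nat_lit 0xbc0001780002fcc7b) (.hit (nat_lit 114) (nat_lit 93) (nat_lit 0xbc0001780002fcc7b) b52547 (.hit (nat_lit 115) (nat_lit 94) (nat_lit 0xbc0001780002fbc7f) b52548 (.nil))) (.tok (nat_lit 68) (nat_lit 0xbc0001780002feb6e) (.hit (nat_lit 116) (nat_lit 95) (nat_lit 0xbc0001780002feb6e) b52549 (.one (nat_lit 3) (nat_lit 120) (nat_lit 99) (nat_lit 0xbc0001780002fd201)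 b52553 (.one (nat_lit 6) (nat_lit 117) (nat_lit 96) (nat_lit 0xbc0001780002fd508) b52550 (.tok (nat_lit 9) (nat_lit 0xbc0001780002fd9fd) (.hit (nat_lit 118) (nat_lit 97) (nat_lit 0xbc0001780002fd568) b52551 (.hit (nat_lit 119) (nat_lit 98) (nat_lit 0xbc0001780002fd9fd) b52552 (.nil))) (.nil))))) (.one (nat_lit 71) (nat_lit 121) (nat_lit 100) (nat_lit 0xbc0001780002fab8a) b52554 (.nil)))))))))))))))))) (.tok (nat_lit 40) (nat_lit 0xbc00017800030449f) (.hit (nat_lit 245) (nat_lit 0) (nat_lit 0xbc0001780003014e9) b52555 (.tok (nat_lit 6) (nat_lit 0xbc00017800030449f) (.hit (nat_lit 246) (nat_lit 7) (nat_lit 0xbc00017800030449f) b52556 (.hit (nat_lit 247) (nat_lit 15) (nat_lit 0xbc0001780002ffd77) b52557 (.nil))) (.tok (nat_lit 9) (nat_lit 0xbc0001780003001d1) (.hit (nat_lit 248) (nat_lit 20) (nat_lit 0xbc0001780003001d1) b52558 (.hit (nat_lit 249) (nat_lit 28) (nat_lit 0xbc0001780002feca4)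 b52559 (.nil))) (.nil)))) (.tok (nat_lit 43) (nat_lit 0xbc000178000303398) (.hit (nat_lit 270) (nat_lit 0) (nat_lit 0xbc00017800030056f) b52568 (.tok (nat_lit 3) (nat_lit 0xbc000178000303398) (.hit (nat_lit 271) (nat_lit 1) (nat_lit 0xbc0001780002ffcb3) b52569 (.one (nat_lit 67) (nat_lit 272) (nat_lit 2) (nat_lit 0xbc000178000303398) b52570 (.nil))) (.tok (nat_lit 6) (nat_lit 0xbc0001780002ff43a) (.hit (nat_lit 273) (nat_lit 7) (nat_lit 0xbc0001780002fef93) b52571 (.hit (nat_lit 276) (nat_lit 15) (nat_lit 0xbc0001780002ff43a) b52572 (.nil))) (.nil)))) (.tok (nat_lit 46) (nat_lit 0xbc0001780003011cc) (.hit (nat_lit 256) (nat_lit 0) (nat_lit 0xbc0001780003011cc) b52560 (.tok (nat_lit 3) (nat_lit 0xbc0001780002ff2f9) (.hit (nat_lit 257) (nat_lit 1) (nat_lit 0xbc0001780002fdb08) b52561 (.one (nat_lit 55) (nat_lit 258) (nat_lit 3) (nat_lit 0xbc0001780002ff2f9) b52562 (.nil))) (.tok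 (nat_lit 9) (nat_lit 0xbc0001780002fffde) (.hit (nat_lit 259) (nat_lit 20) (nat_lit 0xbc0001780002fe2d2) b52563 (.hit (nat_lit 262) (nat_lit 28) (nat_lit 0xbc0001780002fdda3) b52566 (.tok (nat_lit 67) (nat_lit 0xbc0001780002fffde) (.hit (nat_lit 260) (nat_lit 21) (nat_lit 0xbc0001780002ff91a) b52564 (.hit (nat_lit 263) (nat_lit 29) (nat_lit 0xbc0001780002fffde) b52567 (.one (nat_lit 9) (nat_lit 261) (nat_lit 22) (nat_lit 0xbc0001780002ffd41) b52565 (.nil)))) (.nil)))) (.nil)))) (.nil))))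
noncomputable def r73_2 : Rw Blk := .tok (nat_lit 3) (nat_lit 0xbc0001780002fde35) (.hit (nat_lit 61) (nat_lit 0) (nat_lit 0xbc0001780002fc8db) b52573 (.tok (nat_lit 14) (nat_lit 0xbc0001780002fdd84) (.hit (nat_lit 82) (nat_lit 61) (nat_lit 0xbc0001780002fda4c) b52574 (.one (nat_lit 3) (nat_lit 83) (nat_lit 62) (nat_lit 0xbc0001780002fcce7) b52575 (.tok (nat_lit 6) (nat_lit 0xbc0001780002fdd84) (.hit (nat_lit 86) (nat_lit 65) (nat_lit 0xbc0001780002fdd84) b52578 (.hit (nat_lit 87) (nat_lit 66) (nat_lit 0xbc0001780002fc6c2) b52579 (.nil))) (.tok (nat_lit 9) (nat_lit 0xbc0001780002fdc33) (.hit (nat_lit 84) (nat_lit 63) (nat_lit 0xbc0001780002fdc33) b52576 (.hit (nat_lit 85) (nat_lit 64) (nat_lit 0xbc0001780002fd66f) b52577 (.nil))) (.nil))))) (.one (nat_lit 17) (nat_lit 88) (nat_lit 67) (nat_lit 0xbc0001780002fc5d3) b52580 (.tok (nat_lit 20) (nat_lit 0xbc0001780002fc029) (.hit (nat_lit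 89) (nat_lit 68) (nat_lit 0xbc0001780002fc029) b52581 (.hit (nat_lit 90) (nat_lit 69) (nat_lit 0xbc0001780002fb7e0) b52582 (.nil))) (.tok (nat_lit 23) (nat_lit 0xbc0001780002fbf23) (.hit (nat_lit 91) (nat_lit 70) (nat_lit 0xbc0001780002fbf23) b52583 (.hit (nat_lit 92) (nat_lit 71) (nat_lit 0xbc0001780002fb7e0) b52582 (.nil))) (.one (nat_lit 26) (nat_lit 93) (nat_lit 72) (nat_lit 0xbc0001780002fac68) b52584 (.one (nat_lit 29) (nat_lit 94) (nat_lit 73) (nat_lit 0xbc0001780002fad24) b52585 (.one (nat_lit 32) (nat_lit 95) (nat_lit 74) (nat_lit 0xbc0001780002fb211) b52586 (.one (nat_lit 35) (nat_lit 96) (nat_lit 75) (nat_lit 0xbc0001780002fa859) b52587 (.one (nat_lit 38) (nat_lit 97) (nat_lit 76) (nat_lit 0xbc0001780002fb909) b52588 (.tok (nat_lit 41) (nat_lit 0xbc0001780002fc137) (.hit (nat_lit 98) (nat_lit 77) (nat_lit 0xbc0001780002f9df7) b52589 (.hit (nat_lit 99) (nat_lit 78) (nat_lit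 0xbc0001780002fc137) b52590 (.nil))) (.tok (nat_lit 44) (nat_lit 0xbc0001780002fb28e) (.hit (nat_lit 100) (nat_lit 79) (nat_lit 0xbc0001780002fa7d8) b52591 (.hit (nat_lit 101) (nat_lit 80) (nat_lit 0xbc0001780002fb28e) b52592 (.nil))) (.tok (nat_lit 47) (nat_lit 0xbc0001780002fb929) (.hit (nat_lit 102) (nat_lit 81) (nat_lit 0xbc0001780002fad5a) b52593 (.hit (nat_lit 103) (nat_lit 82) (nat_lit 0xbc0001780002fb929) b52594 (.nil))) (.one (nat_lit 62) (nat_lit 113) (nat_lit 92) (nat_lit 0xbc0001780002fbacf) b52595 (.tok (nat_lit 65) (nat_lit 0xbc0001780002fcc1b) (.hit (nat_lit 114) (nat_lit 93) (nat_lit 0xbc0001780002fcc1b) b52596 (.hit (nat_lit 115) (nat_lit 94) (nat_lit 0xbc0001780002fbc39) b52597 (.nil))) (.tok (nat_lit 68) (nat_lit 0xbc0001780002fde35) (.hit (nat_lit 116) (nat_lit 95) (nat_lit 0xbc0001780002fdaa0) b52598 (.one (nat_lit 3) (nat_lit 120) (nat_lit 99) (nat_lit 0xbc0001780002fbf05)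 b52602 (.one (nat_lit 6) (nat_lit 117) (nat_lit 96) (nat_lit 0xbc0001780002fd607) b52599 (.tok (nat_lit 9) (nat_lit 0xbc0001780002fde35) (.hit (nat_lit 118) (nat_lit 97) (nat_lit 0xbc0001780002fde35) b52600 (.hit (nat_lit 119) (nat_lit 98) (nat_lit 0xbc0001780002fb862) b52601 (.nil))) (.nil))))) (.one (nat_lit 71) (nat_lit 121) (nat_lit 100) (nat_lit 0xbc0001780002fa3ce) b52603 (.nil)))))))))))))))))) (.tok (nat_lit 40) (nat_lit 0xbc0001780002ffb89) (.hit (nat_lit 245) (nat_lit 0) (nat_lit 0xbc0001780002ffb89) b52604 (.tok (nat_lit 6) (nat_lit 0xbc0001780002ffab9) (.hit (nat_lit 246) (nat_lit 7) (nat_lit 0xbc0001780002ffab9) b52605 (.hit (nat_lit 247) (nat_lit 15) (nat_lit 0xbc0001780002fee67) b52606 (.nil))) (.tok (nat_lit 9) (nat_lit 0xbc0001780002fe9bc) (.hit (nat_lit 248) (nat_lit 20) (nat_lit 0xbc0001780002fe9bc) b52607 (.hit (nat_lit 249) (nat_lit 28) (nat_lit 0xbc0001780002fe39d)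 b52608 (.nil))) (.nil)))) (.tok (nat_lit 43) (nat_lit 0xbc000178000301b53) (.hit (nat_lit 270) (nat_lit 0) (nat_lit 0xbc0001780002ff631) b52617 (.tok (nat_lit 3) (nat_lit 0xbc000178000301b53) (.hit (nat_lit 271) (nat_lit 1) (nat_lit 0xbc0001780002fe7ad) b52618 (.one (nat_lit 67) (nat_lit 272) (nat_lit 2) (nat_lit 0xbc000178000301b53) b52619 (.nil))) (.tok (nat_lit 6) (nat_lit 0xbc0001780002fe9e9) (.hit (nat_lit 273) (nat_lit 7) (nat_lit 0xbc0001780002fe9e9) b52620 (.hit (nat_lit 276) (nat_lit 15) (nat_lit 0xbc0001780002fe0be) b52621 (.nil))) (.nil)))) (.tok (nat_lit 46) (nat_lit 0xbc000178000300f5b) (.hit (nat_lit 256) (nat_lit 0) (nat_lit 0xbc0001780002ff9f7) b52609 (.tok (nat_lit 3) (nat_lit 0xbc000178000300729) (.hit (nat_lit 257) (nat_lit 1) (nat_lit 0xbc0001780002fe5f6) b52610 (.one (nat_lit 55) (nat_lit 258) (nat_lit 3) (nat_lit 0xbc000178000300729) b52611 (.nil))) (.tok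 (nat_lit 9) (nat_lit 0xbc000178000300f5b) (.hit (nat_lit 259) (nat_lit 20) (nat_lit 0xbc00017800030021f) b52612 (.hit (nat_lit 262) (nat_lit 28) (nat_lit 0xbc0001780002ff6aa) b52615 (.tok (nat_lit 67) (nat_lit 0xbc000178000300f5b) (.hit (nat_lit 260) (nat_lit 21) (nat_lit 0xbc000178000300b92) b52613 (.hit (nat_lit 263) (nat_lit 29) (nat_lit 0xbc000178000300d9e) b52616 (.one (nat_lit 9) (nat_lit 261) (nat_lit 22) (nat_lit 0xbc000178000300f5b) b52614 (.nil)))) (.nil)))) (.nil)))) (.nil))))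
noncomputable def r73_3 : Rw Blk := .tok (nat_lit 3) (nat_lit 0xbc0001780002fec57) (.hit (nat_lit 61) (nat_lit 0) (nat_lit 0xbc0001780002fd996) b52523 (.tok (nat_lit 14) (nat_lit 0xbc0001780002fec57) (.hit (nat_lit 82) (nat_lit 61) (nat_lit 0xbc0001780002fec57) b52524 (.one (nat_lit 3) (nat_lit 83) (nat_lit 62) (nat_lit 0xbc0001780002fc6b5) b52525 (.tok (nat_lit 6) (nat_lit 0xbc0001780002fea59) (.hit (nat_lit 86) (nat_lit 65) (nat_lit 0xbc0001780002fea59) b52526 (.hit (nat_lit 87) (nat_lit 66) (nat_lit 0xbc0001780002fc972) b52527 (.nil))) (.tok (nat_lit 9) (nat_lit 0xbc0001780002fcb40) (.hit (nat_lit 84) (nat_lit 63) (nat_lit 0xbc0001780002fca65) b52528 (.hit (nat_lit 85) (nat_lit 64) (nat_lit 0xbc0001780002fcb40) b52529 (.nil))) (.nil))))) (.one (nat_lit 17) (nat_lit 88) (nat_lit 67) (nat_lit 0xbc0001780002fc257) b52530 (.tok (nat_lit 20) (nat_lit 0xbc0001780002fcea5) (.hit (nat_lit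 89) (nat_lit 68) (nat_lit 0xbc0001780002fcea5) b52533 (.hit (nat_lit 90) (nat_lit 69) (nat_lit 0xbc0001780002fc080) b52534 (.nil))) (.tok (nat_lit 23) (nat_lit 0xbc0001780002fc880) (.hit (nat_lit 91) (nat_lit 70) (nat_lit 0xbc0001780002fc880) b52531 (.hit (nat_lit 92) (nat_lit 71) (nat_lit 0xbc0001780002fc060) b52532 (.nil))) (.one (nat_lit 26) (nat_lit 93) (nat_lit 72) (nat_lit 0xbc0001780002fade5) b52535 (.one (nat_lit 29) (nat_lit 94) (nat_lit 73) (nat_lit 0xbc0001780002fb070) b52536 (.one (nat_lit 32) (nat_lit 95) (nat_lit 74) (nat_lit 0xbc0001780002fb491) b52538 (.one (nat_lit 35) (nat_lit 96) (nat_lit 75) (nat_lit 0xbc0001780002fb99f) b52537 (.one (nat_lit 38) (nat_lit 97) (nat_lit 76) (nat_lit 0xbc0001780002fbf77) b52539 (.tok (nat_lit 41) (nat_lit 0xbc0001780002fbdb2) (.hit (nat_lit 98) (nat_lit 77) (nat_lit 0xbc0001780002fa736) b52540 (.hit (nat_lit 99) (nat_lit 78) (nat_lit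 0xbc0001780002fbdb2) b52541 (.nil))) (.tok (nat_lit 44) (nat_lit 0xbc0001780002fb8cc) (.hit (nat_lit 100) (nat_lit 79) (nat_lit 0xbc0001780002fb7d2) b52544 (.hit (nat_lit 101) (nat_lit 80) (nat_lit 0xbc0001780002fb8cc) b52545 (.nil))) (.tok (nat_lit 47) (nat_lit 0xbc0001780002fb7df) (.hit (nat_lit 102) (nat_lit 81) (nat_lit 0xbc0001780002fab4a) b52542 (.hit (nat_lit 103) (nat_lit 82) (nat_lit 0xbc0001780002fb7df) b52543 (.nil))) (.one (nat_lit 50) (nat_lit 104) (nat_lit 83) (nat_lit 0xbc0001780002fc6c2) b52546 (.tok (nat_lit 53) (nat_lit 0xbc0001780002fcc7b) (.hit (nat_lit 105) (nat_lit 84) (nat_lit 0xbc0001780002fcc7b) b52547 (.hit (nat_lit 106) (nat_lit 85) (nat_lit 0xbc0001780002fbc7f) b52548 (.nil))) (.tok (nat_lit 56) (nat_lit 0xbc0001780002feb6e) (.hit (nat_lit 107) (nat_lit 86) (nat_lit 0xbc0001780002feb6e) b52549 (.one (nat_lit 3) (nat_lit 111) (nat_lit 90) (nat_lit 0xbc0001780002fd201)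 b52553 (.tok (nat_lit 6) (nat_lit 0xbc0001780002fd9fd) (.hit (nat_lit 109) (nat_lit 88) (nat_lit 0xbc0001780002fd568) b52551 (.hit (nat_lit 110) (nat_lit 89) (nat_lit 0xbc0001780002fd9fd) b52552 (.nil))) (.one (nat_lit 9) (nat_lit 108) (nat_lit 87) (nat_lit 0xbc0001780002fd508) b52550 (.nil))))) (.one (nat_lit 59) (nat_lit 112) (nat_lit 91) (nat_lit 0xbc0001780002fab8a) b52554 (.nil)))))))))))))))))) (.tok (nat_lit 40) (nat_lit 0xbc00017800030449f) (.hit (nat_lit 221) (nat_lit 0) (nat_lit 0xbc0001780003014e9) b52555 (.tok (nat_lit 6) (nat_lit 0xbc0001780003001d1) (.hit (nat_lit 222) (nat_lit 7) (nat_lit 0xbc0001780003001d1) b52558 (.hit (nat_lit 223) (nat_lit 15) (nat_lit 0xbc0001780002feca4) b52559 (.nil))) (.tok (nat_lit 9) (nat_lit 0xbc00017800030449f) (.hit (nat_lit 224) (nat_lit 20) (nat_lit 0xbc00017800030449f) b52556 (.hit (nat_lit 225) (nat_lit 28) (nat_lit 0xbc0001780002ffd77)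 b52557 (.nil))) (.nil)))) (.tok (nat_lit 43) (nat_lit 0xbc0001780003011cc) (.hit (nat_lit 232) (nat_lit 0) (nat_lit 0xbc0001780003011cc) b52560 (.tok (nat_lit 3) (nat_lit 0xbc0001780002ff2f9) (.hit (nat_lit 233) (nat_lit 1) (nat_lit 0xbc0001780002fdb08) b52561 (.one (nat_lit 67) (nat_lit 234) (nat_lit 2) (nat_lit 0xbc0001780002ff2f9) b52562 (.nil))) (.tok (nat_lit 6) (nat_lit 0xbc0001780002fffde) (.hit (nat_lit 235) (nat_lit 7) (nat_lit 0xbc0001780002fe2d2) b52563 (.hit (nat_lit 238) (nat_lit 15) (nat_lit 0xbc0001780002fdda3) b52566 (.tok (nat_lit 55) (nat_lit 0xbc0001780002fffde) (.hit (nat_lit 236) (nat_lit 8) (nat_lit 0xbc0001780002ff91a) b52564 (.hit (nat_lit 239) (nat_lit 16) (nat_lit 0xbc0001780002fffde) b52567 (.one (nat_lit 6) (nat_lit 237) (nat_lit 9) (nat_lit 0xbc0001780002ffd41) b52565 (.nil)))) (.nil)))) (.nil)))) (.tok (nat_lit 46) (nat_lit 0xbc000178000303398) (.hit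 (nat_lit 246) (nat_lit 0) (nat_lit 0xbc00017800030056f) b52568 (.tok (nat_lit 3) (nat_lit 0xbc000178000303398) (.hit (nat_lit 247) (nat_lit 1) (nat_lit 0xbc0001780002ffcb3) b52569 (.one (nat_lit 55) (nat_lit 248) (nat_lit 3) (nat_lit 0xbc000178000303398) b52570 (.nil))) (.tok (nat_lit 9) (nat_lit 0xbc0001780002ff43a) (.hit (nat_lit 249) (nat_lit 20) (nat_lit 0xbc0001780002fef93) b52571 (.hit (nat_lit 252) (nat_lit 28) (nat_lit 0xbc0001780002ff43a) b52572 (.nil))) (.nil)))) (.nil))))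
noncomputable def r73_4 : Rw Blk := .tok (nat_lit 3) (nat_lit 0xbc0001780002fde35) (.hit (nat_lit 61) (nat_lit 0) (nat_lit 0xbc0001780002fc8db) b52573 (.tok (nat_lit 14) (nat_lit 0xbc0001780002fdd84) (.hit (nat_lit 82) (nat_lit 61) (nat_lit 0xbc0001780002fda4c) b52574 (.one (nat_lit 3) (nat_lit 83) (nat_lit 62) (nat_lit 0xbc0001780002fcce7) b52575 (.tok (nat_lit 6) (nat_lit 0xbc0001780002fdc33) (.hit (nat_lit 86) (nat_lit 65) (nat_lit 0xbc0001780002fdc33) b52576 (.hit (nat_lit 87) (nat_lit 66) (nat_lit 0xbc0001780002fd66f) b52577 (.nil))) (.tok (nat_lit 9) (nat_lit 0xbc0001780002fdd84) (.hit (nat_lit 84) (nat_lit 63) (nat_lit 0xbc0001780002fdd84) b52578 (.hit (nat_lit 85) (nat_lit 64) (nat_lit 0xbc0001780002fc6c2) b52579 (.nil))) (.nil))))) (.one (nat_lit 17) (nat_lit 88) (nat_lit 67) (nat_lit 0xbc0001780002fc5d3) b52580 (.tok (nat_lit 20) (nat_lit 0xbc0001780002fbf23) (.hit (nat_lit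 89) (nat_lit 68) (nat_lit 0xbc0001780002fbf23) b52583 (.hit (nat_lit 90) (nat_lit 69) (nat_lit 0xbc0001780002fb7e0) b52582 (.nil))) (.tok (nat_lit 23) (nat_lit 0xbc0001780002fc029) (.hit (nat_lit 91) (nat_lit 70) (nat_lit 0xbc0001780002fc029) b52581 (.hit (nat_lit 92) (nat_lit 71) (nat_lit 0xbc0001780002fb7e0) b52582 (.nil))) (.one (nat_lit 26) (nat_lit 93) (nat_lit 72) (nat_lit 0xbc0001780002fac68) b52584 (.one (nat_lit 29) (nat_lit 94) (nat_lit 73) (nat_lit 0xbc0001780002fad24) b52585 (.one (nat_lit 32) (nat_lit 95) (nat_lit 74) (nat_lit 0xbc0001780002fa859) b52587 (.one (nat_lit 35) (nat_lit 96) (nat_lit 75) (nat_lit 0xbc0001780002fb211) b52586 (.one (nat_lit 38) (nat_lit 97) (nat_lit 76) (nat_lit 0xbc0001780002fb909) b52588 (.tok (nat_lit 41) (nat_lit 0xbc0001780002fc137) (.hit (nat_lit 98) (nat_lit 77) (nat_lit 0xbc0001780002f9df7) b52589 (.hit (nat_lit 99) (nat_lit 78) (nat_lit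 0xbc0001780002fc137) b52590 (.nil))) (.tok (nat_lit 44) (nat_lit 0xbc0001780002fb929) (.hit (nat_lit 100) (nat_lit 79) (nat_lit 0xbc0001780002fad5a) b52593 (.hit (nat_lit 101) (nat_lit 80) (nat_lit 0xbc0001780002fb929) b52594 (.nil))) (.tok (nat_lit 47) (nat_lit 0xbc0001780002fb28e) (.hit (nat_lit 102) (nat_lit 81) (nat_lit 0xbc0001780002fa7d8) b52591 (.hit (nat_lit 103) (nat_lit 82) (nat_lit 0xbc0001780002fb28e) b52592 (.nil))) (.one (nat_lit 50) (nat_lit 104) (nat_lit 83) (nat_lit 0xbc0001780002fbacf) b52595 (.tok (nat_lit 53) (nat_lit 0xbc0001780002fcc1b) (.hit (nat_lit 105) (nat_lit 84) (nat_lit 0xbc0001780002fcc1b) b52596 (.hit (nat_lit 106) (nat_lit 85) (nat_lit 0xbc0001780002fbc39) b52597 (.nil))) (.tok (nat_lit 56) (nat_lit 0xbc0001780002fde35) (.hit (nat_lit 107) (nat_lit 86) (nat_lit 0xbc0001780002fdaa0) b52598 (.one (nat_lit 3) (nat_lit 111) (nat_lit 90) (nat_lit 0xbc0001780002fbf05)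 b52602 (.tok (nat_lit 6) (nat_lit 0xbc0001780002fde35) (.hit (nat_lit 109) (nat_lit 88) (nat_lit 0xbc0001780002fde35) b52600 (.hit (nat_lit 110) (nat_lit 89) (nat_lit 0xbc0001780002fb862) b52601 (.nil))) (.one (nat_lit 9) (nat_lit 108) (nat_lit 87) (nat_lit 0xbc0001780002fd607) b52599 (.nil))))) (.one (nat_lit 59) (nat_lit 112) (nat_lit 91) (nat_lit 0xbc0001780002fa3ce) b52603 (.nil)))))))))))))))))) (.tok (nat_lit 40) (nat_lit 0xbc0001780002ffb89) (.hit (nat_lit 221) (nat_lit 0) (nat_lit 0xbc0001780002ffb89) b52604 (.tok (nat_lit 6) (nat_lit 0xbc0001780002fe9bc) (.hit (nat_lit 222) (nat_lit 7) (nat_lit 0xbc0001780002fe9bc) b52607 (.hit (nat_lit 223) (nat_lit 15) (nat_lit 0xbc0001780002fe39d) b52608 (.nil))) (.tok (nat_lit 9) (nat_lit 0xbc0001780002ffab9) (.hit (nat_lit 224) (nat_lit 20) (nat_lit 0xbc0001780002ffab9) b52605 (.hit (nat_lit 225) (nat_lit 28) (nat_lit 0xbc0001780002fee67)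 b52606 (.nil))) (.nil)))) (.tok (nat_lit 43) (nat_lit 0xbc000178000300f5b) (.hit (nat_lit 232) (nat_lit 0) (nat_lit 0xbc0001780002ff9f7) b52609 (.tok (nat_lit 3) (nat_lit 0xbc000178000300729) (.hit (nat_lit 233) (nat_lit 1) (nat_lit 0xbc0001780002fe5f6) b52610 (.one (nat_lit 67) (nat_lit 234) (nat_lit 2) (nat_lit 0xbc000178000300729) b52611 (.nil))) (.tok (nat_lit 6) (nat_lit 0xbc000178000300f5b) (.hit (nat_lit 235) (nat_lit 7) (nat_lit 0xbc00017800030021f) b52612 (.hit (nat_lit 238) (nat_lit 15) (nat_lit 0xbc0001780002ff6aa) b52615 (.tok (nat_lit 55) (nat_lit 0xbc000178000300f5b) (.hit (nat_lit 236) (nat_lit 8) (nat_lit 0xbc000178000300b92) b52613 (.hit (nat_lit 239) (nat_lit 16) (nat_lit 0xbc000178000300d9e) b52616 (.one (nat_lit 6) (nat_lit 237) (nat_lit 9) (nat_lit 0xbc000178000300f5b) b52614 (.nil)))) (.nil)))) (.nil)))) (.tok (nat_lit 46) (nat_lit 0xbc000178000301b53) (.hit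 (nat_lit 246) (nat_lit 0) (nat_lit 0xbc0001780002ff631) b52617 (.tok (nat_lit 3) (nat_lit 0xbc000178000301b53) (.hit (nat_lit 247) (nat_lit 1) (nat_lit 0xbc0001780002fe7ad) b52618 (.one (nat_lit 55) (nat_lit 248) (nat_lit 3) (nat_lit 0xbc000178000301b53) b52619 (.nil))) (.tok (nat_lit 9) (nat_lit 0xbc0001780002fe9e9) (.hit (nat_lit 249) (nat_lit 20) (nat_lit 0xbc0001780002fe9e9) b52620 (.hit (nat_lit 252) (nat_lit 28) (nat_lit 0xbc0001780002fe0be) b52621 (.nil))) (.nil)))) (.nil))))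
noncomputable def r73_5 : Rw Blk := .tok (nat_lit 3) (nat_lit 0x17dbd22fc88b5fc6e0bf22c97e1abafc8dd5f9f14bf28157ef422fcf375f8418bf67057ed79afe39f) (.hit (nat_lit 0) (nat_lit 0) (nat_lit 0x17db5f2fc88b5f9146bf03ed7de2a2fc1a55f9aa6bf1f217e93aafcf375f7fd4bf27997e59b2fd1a2) b52622 (.tok (nat_lit 9) (nat_lit 0x17dbd22fc59c5fc6e0bf22c97e1abafc8dd5f9f14bf28157ef422fcc875f8418bf67057ed79afe39f) (.hit (nat_lit 10) (nat_lit 20) (nat_lit 0x17d1a5afb1435f9b84bed1657d77f2fb4845f7662bed6b17e515afb82e5f5b66beb8e17d8f32fce89) b52623 (.hit (nat_lit 15) (nat_lit 28) (nat_lit 0x17d06e2faed45f8498bec7a97d647afb2155f7184beccf57e3de2fb5bf5f5688bf14717e32eafcef5) b52628 (.tok (nat_lit 14) (nat_lit 0x17db23afc43f5fbf5cbf1d557e0fd2fc7805f9c5abf22a17ee93afcb2a5f815ebf3f2d7e87eafe113) (.hit (nat_lit 11) (nat_lit 24) (nat_lit 0x17d4f3afb7df5faba2beebd57dacd2fbb205f839abef1217e863afbeca5f689ebed3517dc412fda4b)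 b52624 (.hit (nat_lit 16) (nat_lit 30) (nat_lit 0x17d4752fb6e25f9700bee7e17da4eafba235f81a0beed2d7e7e52fbdcd5f66a4bf3f2d7e87eafd85e) b52629 (.one (nat_lit 6) (nat_lit 12) (nat_lit 25) (nat_lit 0x17db23afc43f5fbf5cbf1d557e0fd2fc7805f9c5abf22a17ee93afcb2a5f815ebf04d17e2712fe113) b52625 (.nil)))) (.one (nat_lit 56) (nat_lit 17) (nat_lit 31) (nat_lit 0x17db04afc4015faffcbf1c5d7e0de2fc7425f9bdebf21a97ee74afcaec5f80e2bf67057ed79afe17d) b52630 (.tok (nat_lit 68) (nat_lit 0x17dbd22fc59c5fc6e0bf22c97e1abafc8dd5f9f14bf28157ef422fcc875f8418bf2afd7e5f8afe39f) (.hit (nat_lit 13) (nat_lit 26) (nat_lit 0x17d7be2fbd745fb024bf02297dd97afc0b55f8ec4bf07757eb2e2fc45f5f73c8bef8d57dfae2fda43) b52626 (.hit (nat_lit 18) (nat_lit 32) (nat_lit 0x17d5b02fb9585f9a2cbef1b97db89afbc995f868cbef7057e9202fc0435f6b90bf2afd7e5f8afd27b) b52631 (.one (nat_lit 9) (nat_lit 14) (nat_lit 27) (nat_lit 0x17dbd22fc59c5fc6e0bf22c97e1abafc8dd5f9f14bf28157ef422fcc875f8418bf0a457e31fafe39f)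 b52627 (.nil)))) (.nil)))))) (.nil))) (.tok (nat_lit 6) (nat_lit 0x18000030067e600000c0000180000300000600000c000018042e300000600aeac000018046930068f) (.hit (nat_lit 81) (nat_lit 0) (nat_lit 0x17e581afe31d5fa902bf46097e6adafd22a5fbf36bf5e1d7f23eafdede5fa9f2bf5b257ead82fdbad) b52632 (.tok (nat_lit 6) (nat_lit 0x17f2b4affe815fed1cbf8be97f2c6afe8225ff11cbfca017fda52ff52f5fd5a0bfbc117f5efaff6b6) (.hit (nat_lit 87) (nat_lit 7) (nat_lit 0x17e09dafd7245f9922bf02317e4b12fc5bc5fa894bf48917eb83afceb45f8cd0bf26097e37cafd1e4) b52633 (.hit (nat_lit 95) (nat_lit 15) (nat_lit 0x17d9cfafbca45f9336be9a457dc7e2fa65d5f8198befe417e454afc3be5f8b46bf15817e1f42fcd61) b52638 (.tok (nat_lit 14) (nat_lit 0x17f2b4affe815fed1cbf8be97f2c6afe8225ff11cbfca017fda52ff52f5fd5a0bfbc117f5efaff6b6) (.hit (nat_lit 91) (nat_lit 11) (nat_lit 0x17f10aaffa355fea78bf85017ef1dafe3e35fe8f6bfc5017fcc22fef475fc734bf9bf57f2082ff102)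 b52634 (.hit (nat_lit 97) (nat_lit 17) (nat_lit 0x17e80dafd84a5fd34ebf0cb57ea5eafc2d95fb6a8bf5c997f12b2fdf2b5faed4bf6e6d7eb102fdc06) b52639 (.one (nat_lit 9) (nat_lit 92) (nat_lit 12) (nat_lit 0x17f2b4affe815fed1cbf8be97f2c6afe8225ff11cbfca017fda52ff52f5fd5a0bfbc117f5efaff6b6) b52635 (.nil)))) (.tok (nat_lit 56) (nat_lit 0x17ed65aff5665fcd8ebf65897ec91afdeb75fd0dcbf8de97f8272febff5fad7cbf6d797ebec2ff1da) (.hit (nat_lit 93) (nat_lit 13) (nat_lit 0x17ed65afedf75fcc32bf65897ec91afdeb75fd0dcbf8de97f6292fe5f55fad7cbf6d797ebec2fe359) b52636 (.hit (nat_lit 99) (nat_lit 19) (nat_lit 0x17e4432fd18f5fa67ebeee917e6be2fbb445fa77ebf3e457ecccafd6775fa726bf53917e84cafd591) b52640 (.one (nat_lit 6) (nat_lit 94) (nat_lit 14) (nat_lit 0x17e86f2ff5665fcd8ebf44d17eb26afd15f5fbbe4bf72d57f8272febff5fa47abf53397e9a62ff1da) b52637 (.nil)))) (.nil))))) (.tok (nat_lit 52) (nat_lit 0x17e6ceafe5ed5fb5f8bf0ec57ead02fc3965fb7ecbf63317fed2aff5345fd824bf9b817f5d62fecdf)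 (.hit (nat_lit 106) (nat_lit 39) (nat_lit 0x17e5b52fe5ed5fb3bcbf0ec57ead02fc3965fb7ecbf5f217fed2aff5345fd824bf9b817f5d62fea9f) b52641 (.hit (nat_lit 107) (nat_lit 40) (nat_lit 0x17e6ceafdf595fb5f8bf03c97e85a2fc06e5fb37ebf63317fbe02fed515fa274bf41197e88eafecdf) b52642 (.nil))) (.tok (nat_lit 55) (nat_lit 0x18000030067e600000c0000180000300000600000c000018042e300000600aeac000018046930068f) (.hit (nat_lit 108) (nat_lit 41) (nat_lit 0x17f8023002555fe1ccbfd5097fb7faff46b5ff8a8c000017fe622ffa075fd9bebfb8a57f6caaff5bd) b52643 (.tok (nat_lit 3) (nat_lit 0x18000030005a5ff406c000017fb05b000005ffffcbffab5802212ffc475fedeebfe3f97fbea2ffd10) (.hit (nat_lit 114) (nat_lit 47) (nat_lit 0x17f3222ff1e05fdc68bfbe917f9a82ff2325fd90ebfacf57f979afed9d5fcf2ebf99617f2682febb7) b52649 (.one (nat_lit 67) (nat_lit 115) (nat_lit 48) (nat_lit 0x18000030005a5ff406c000017fb05b000005ffffcbffab5802212ffc475fedeebfe3f97fbea2ffd10)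 b52650 (.nil))) (.tok (nat_lit 6) (nat_lit 0x17fcc730067e600000bfaf45800002ff4c4600000bff0518042e300000600aeac000018046930068f) (.hit (nat_lit 109) (nat_lit 42) (nat_lit 0x17f1f62fe85a5fca76bf57e17f363afdd8c5fdc74bfa8357f83bafecb45fd52abfa6317f7f92feb61) b52644 (.hit (nat_lit 112) (nat_lit 45) (nat_lit 0x17eba62fef855fed54bf3a7d7ed2e2fceca5fc6dcbf89ed7fa10aff0775fb008bf604d7ec8aaff9cf) b52647 (.tok (nat_lit 55) (nat_lit 0x17fcc730067e600000bfaf45800002ff4c4600000bff0518042e300000600aeac000018046930068f) (.hit (nat_lit 110) (nat_lit 43) (nat_lit 0x17fcc73000125ff958bf8f45800002fecf35fedd8bfd53d7fe9e2ff94d5ff740bfdad9800b02ffcd9) b52645 (.hit (nat_lit 113) (nat_lit 46) (nat_lit 0x17f34c30067e600000bf68097f4d52fd95b5fe574bfc71d7fee12ffe175fcea0bf9d7d7f43130068f) b52648 (.one (nat_lit 6) (nat_lit 111) (nat_lit 44) (nat_lit 0x17fb87aff99b5ff4e0bfaf457ff2e2ff4c4600000bff0518042e300000600aeac0000180469300413)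 b52646 (.nil)))) (.nil)))) (.nil)))) (.one (nat_lit 58) (nat_lit 116) (nat_lit 49) (nat_lit 0x17eb1f2fe3fb5fd7f0bf27797ed7b2fc9605fc562bf86f97fcfaafef595fe99abfc0117f766afefc6) b52651 (.nil)))))) (.nil))
noncomputable def r73_6 : Rw Blk := .tok (nat_lit 9) (nat_lit 0x5e0000bc000180000300000) (.hit (nat_lit 0) (nat_lit 0) (nat_lit 0x5e0000bc00017f4482fe8c7) b52652 (.tok (nat_lit 14) (nat_lit 0x5e0000bc00017fa2baff1c3) (.hit (nat_lit 11) (nat_lit 61) (nat_lit 0x5e0000bc00017fa2baff04f) b52653 (.one (nat_lit 3) (nat_lit 12) (nat_lit 62) (nat_lit 0x5e0000bc00017f9612fe6b7) b52654 (.tok (nat_lit 6) (nat_lit 0x5e0000bc00017f86c2ff1c3) (.hit (nat_lit 15) (nat_lit 65) (nat_lit 0x5e0000bc00017f86c2ff1c3) b52657 (.hit (nat_lit 16) (nat_lit 66) (nat_lit 0x5e0000bc00017f5aeafef81) b52658 (.nil))) (.tok (nat_lit 9) (nat_lit 0x5e0000bc00017f4fb2fef8b) (.hit (nat_lit 13) (nat_lit 63) (nat_lit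 0x5e0000bc00017efde2fef8b) b52655 (.hit (nat_lit 14) (nat_lit 64) (nat_lit 0x5e0000bc00017f4fb2fedcd) b52656 (.nil))) (.nil))))) (.one (nat_lit 17) (nat_lit 17) (nat_lit 67) (nat_lit 0x5e0000bc00017f45e2fdc26) b52659 (.tok (nat_lit 20) (nat_lit 0x5e0000bc00017f3bc2fdb92) (.hit (nat_lit 18) (nat_lit 68) (nat_lit 0x5e0000bc00017e5e1afdb92) b52660 (.hit (nat_lit 19) (nat_lit 69) (nat_lit 0x5e0000bc00017f3bc2fda92) b52661 (.nil))) (.tok (nat_lit 23) (nat_lit 0x5e0000bc00017fee6aff4ca) (.hit (nat_lit 20) (nat_lit 70) (nat_lit 0x5e0000bc00017fee6aff4ca) b52662 (.hit (nat_lit 21) (nat_lit 71) (nat_lit 0x5e0000bc00017f515afda92) b52663 (.nil))) (.one (nat_lit 38) (nat_lit 26) (nat_lit 76) (nat_lit 0x5e0000bc00017f381afdc66) b52664 (.tok (nat_lit 41) (nat_lit 0x5e0000bc00017f4d6afd211) (.hit (nat_lit 27) (nat_lit 77) (nat_lit 0x5e0000bc00017f09dafc761) b52665 (.hit (nat_lit 28) (nat_lit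 78) (nat_lit 0x5e0000bc00017f4d6afd211) b52666 (.nil))) (.tok (nat_lit 44) (nat_lit 0x5e0000bc00017f62b2fd274) (.hit (nat_lit 29) (nat_lit 79) (nat_lit 0x5e0000bc00017db79afc6c2) b52667 (.hit (nat_lit 30) (nat_lit 80) (nat_lit 0x5e0000bc00017f62b2fd274) b52668 (.nil))) (.tok (nat_lit 47) (nat_lit 0x5e0000bc00017f5fdafd316) (.hit (nat_lit 31) (nat_lit 81) (nat_lit 0x5e0000bc00017f5fdafd316) b52669 (.hit (nat_lit 32) (nat_lit 82) (nat_lit 0x5e0000bc00017efde2fd166) b52670 (.nil))) (.one (nat_lit 50) (nat_lit 33) (nat_lit 83) (nat_lit 0x5e0000bc00017efc3afd5d4) b52671 (.tok (nat_lit 53) (nat_lit 0x5e0000bc00017f37aafe166) (.hit (nat_lit 34) (nat_lit 84) (nat_lit 0x5e0000bc00017ed582fe166) b52672 (.hit (nat_lit 35) (nat_lit 85) (nat_lit 0x5e0000bc00017f37aafd75f) b52673 (.nil))) (.tok (nat_lit 56) (nat_lit 0x5e0000bc00017f434afeb48) (.hit (nat_lit 36) (nat_lit 86) (nat_lit 0x5e0000bc00017f434afeb48)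 b52674 (.one (nat_lit 3) (nat_lit 40) (nat_lit 90) (nat_lit 0x5e0000bc00017e790afdef0) b52678 (.tok (nat_lit 6) (nat_lit 0x5e0000bc00017ece22fe993) (.hit (nat_lit 38) (nat_lit 88) (nat_lit 0x5e0000bc00017ece22fe993) b52676 (.hit (nat_lit 39) (nat_lit 89) (nat_lit 0x5e0000bc00017ea3cafe448) b52677 (.nil))) (.one (nat_lit 9) (nat_lit 37) (nat_lit 87) (nat_lit 0x5e0000bc00017eb862fe6db) b52675 (.nil))))) (.one (nat_lit 59) (nat_lit 41) (nat_lit 91) (nat_lit 0x5e0000bc00017eff8afc66f) b52679 (.one (nat_lit 62) (nat_lit 42) (nat_lit 92) (nat_lit 0x5e0000bc00017f387afd5d4) b52680 (.tok (nat_lit 65) (nat_lit 0x5e0000bc00017f3faafde64) (.hit (nat_lit 43) (nat_lit 93) (nat_lit 0x5e0000bc00017e761afde64) b52681 (.hit (nat_lit 44) (nat_lit 94) (nat_lit 0x5e0000bc00017f3faafd2ce) b52682 (.nil))) (.tok (nat_lit 68) (nat_lit 0x5e0000bc000180000300000) (.hit (nat_lit 45) (nat_lit 95) (nat_lit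 0x5e0000bc00017ffb4affbc3) b52683 (.one (nat_lit 3) (nat_lit 49) (nat_lit 99) (nat_lit 0x5e0000bc0001800002ff09b) b52687 (.one (nat_lit 6) (nat_lit 46) (nat_lit 96) (nat_lit 0x5e0000bc00017fa97b00000) b52684 (.tok (nat_lit 9) (nat_lit 0x5e0000bc00017fbc22fec38) (.hit (nat_lit 47) (nat_lit 97) (nat_lit 0x5e0000bc00017fbc22fec38) b52685 (.hit (nat_lit 48) (nat_lit 98) (nat_lit 0x5e0000bc00017f63c2fdf22) b52686 (.nil))) (.nil))))) (.one (nat_lit 71) (nat_lit 50) (nat_lit 100) (nat_lit 0x5e0000bc00017f0462fc773) b52688 (.nil)))))))))))))))))) (.nil)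
noncomputable def r73_7 : Rw Blk := .tok (nat_lit 6) (nat_lit 0x1780002f00005ff94ec0397d8067db0050f) (.hit (nat_lit 0) (nat_lit 0) (nat_lit 0x1780002f00005faac8bf62bd7ec55afdab6) b52689 (.tok (nat_lit 14) (nat_lit 0x1780002f00005ff3cabf9db17f45daff727) (.hit (nat_lit 21) (nat_lit 61) (nat_lit 0x1780002f00005fdb2abf83357efedafe6cf) b52690 (.one (nat_lit 3) (nat_lit 22) (nat_lit 62) (nat_lit 0x1780002f00005fe3d4bf52a97ea7c2feb21) b52691 (.tok (nat_lit 6) (nat_lit 0x1780002f00005fbadebf6bfd7ed06afdf1e) (.hit (nat_lit 25) (nat_lit 65) (nat_lit 0x1780002f00005f742abf6bfd7ed06afdd02) b52694 (.hit (nat_lit 26) (nat_lit 66) (nat_lit 0x1780002f00005fbadebf65bd7ece2afdf1e) b52695 (.nil))) (.tok (nat_lit 9) (nat_lit 0x1780002f00005ff3cabf9db17f45daff727) (.hit (nat_lit 23) (nat_lit 63) (nat_lit 0x1780002f00005ff3cabf9db17f45daff727) b52692 (.hit (nat_lit 24) (nat_lit 64) (nat_lit 0x1780002f00005fb7dcbf65357ec2dafdb50)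 b52693 (.nil))) (.nil))))) (.one (nat_lit 17) (nat_lit 27) (nat_lit 67) (nat_lit 0x1780002f00005fc952bf4c497e9622fd740) b52696 (.tok (nat_lit 20) (nat_lit 0x1780002f00005ff94ec0397d8067db0050f) (.hit (nat_lit 28) (nat_lit 68) (nat_lit 0x1780002f00005ff94ec0397d8067db0050f) b52697 (.hit (nat_lit 29) (nat_lit 69) (nat_lit 0x1780002f00005faf56bf286d7e566afcd6a) b52698 (.nil))) (.tok (nat_lit 23) (nat_lit 0x1780002f00005fa992bf29097e4a82fcc45) (.hit (nat_lit 30) (nat_lit 70) (nat_lit 0x1780002f00005f52b0bf29097e4a82fcc45) b52699 (.hit (nat_lit 31) (nat_lit 71) (nat_lit 0x1780002f00005fa992bf1de57e3122fca71) b52700 (.nil))) (.one (nat_lit 26) (nat_lit 32) (nat_lit 72) (nat_lit 0x1780002f00005f9bbcbefe757e02bafc2f6) b52701 (.one (nat_lit 29) (nat_lit 33) (nat_lit 73) (nat_lit 0x1780002f00005fa640bf18a57e34fafd13f) b52702 (.one (nat_lit 32) (nat_lit 34) (nat_lit 74) (nat_lit 0x1780002f00005f8c4ebee7157dca92fbc09)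 b52703 (.one (nat_lit 35) (nat_lit 35) (nat_lit 75) (nat_lit 0x1780002f00005fbb54bf19157e3522fd227) b52704 (.one (nat_lit 38) (nat_lit 36) (nat_lit 76) (nat_lit 0x1780002f00005fa66cbf31517e5b12fce57) b52705 (.tok (nat_lit 41) (nat_lit 0x1780002f00005f9e52bf2f0d7e61d2fd012) (.hit (nat_lit 37) (nat_lit 77) (nat_lit 0x1780002f00005f91b4bee5ed7dcb22fc86a) b52706 (.hit (nat_lit 38) (nat_lit 78) (nat_lit 0x1780002f00005f9e52bf2f0d7e61d2fd012) b52707 (.nil))) (.tok (nat_lit 44) (nat_lit 0x1780002f00005fbd22bf3db57e54dafdc59) (.hit (nat_lit 39) (nat_lit 79) (nat_lit 0x1780002f00005fbd22bf3db57e54dafdc59) b52708 (.hit (nat_lit 40) (nat_lit 80) (nat_lit 0x1780002f00005fa5a6bef0c97dea62fc83d) b52709 (.nil))) (.tok (nat_lit 47) (nat_lit 0x1780002f00005fd094bf40d17e7dbafdcf7) (.hit (nat_lit 41) (nat_lit 81) (nat_lit 0x1780002f00005f43debf0b657e0f3afc4dc) b52710 (.hit (nat_lit 42) (nat_lit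 82) (nat_lit 0x1780002f00005fd094bf40d17e7dbafdcf7) b52711 (.nil))) (.one (nat_lit 50) (nat_lit 43) (nat_lit 83) (nat_lit 0x1780002f00005fb908bf23ad7e4dd2fd15b) b52712 (.tok (nat_lit 53) (nat_lit 0x1780002f00005fcef4bf77917f1112fe7e9) (.hit (nat_lit 44) (nat_lit 84) (nat_lit 0x1780002f00005fcef4bf77917f1112fe7e9) b52713 (.hit (nat_lit 45) (nat_lit 85) (nat_lit 0x1780002f00005fb6d8bf31ed7e694afd4f6) b52714 (.nil))) (.tok (nat_lit 56) (nat_lit 0x1780002f00005fd95cbfce617f7aaafe937) (.hit (nat_lit 46) (nat_lit 86) (nat_lit 0x1780002f00005fd2e0bf99917f19dafe2fc) b52715 (.one (nat_lit 3) (nat_lit 50) (nat_lit 90) (nat_lit 0x1780002f00005fb9e4bf744d7ecb82fd22c) b52719 (.tok (nat_lit 6) (nat_lit 0x1780002f00005fd2c6bf6c617ed8d2fe559) (.hit (nat_lit 48) (nat_lit 88) (nat_lit 0x1780002f00005fd2c6bf6c617ed8d2fe559) b52717 (.hit (nat_lit 49) (nat_lit 89) (nat_lit 0x1780002f00005fc6f8bf3a6d7e7622fda45)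 b52718 (.nil))) (.one (nat_lit 9) (nat_lit 47) (nat_lit 87) (nat_lit 0x1780002f00005fd95cbfce617f7aaafe937) b52716 (.nil))))) (.one (nat_lit 59) (nat_lit 51) (nat_lit 91) (nat_lit 0x1780002f00005fada0bf0afd7e1b62fcab5) b52720 (.nil)))))))))))))))))) (.tok (nat_lit 52) (nat_lit 0x1780002f000060022ec050bd8047e300d18) (.hit (nat_lit 176) (nat_lit 0) (nat_lit 0x1780002f000060022ec050bd8047e300d18) b52721 (.tok (nat_lit 6) (nat_lit 0x1780002f00005fda62bff2497f9d8affdf8) (.hit (nat_lit 177) (nat_lit 7) (nat_lit 0x1780002f00005fda62bff2497f9d8affdf8) b52722 (.hit (nat_lit 178) (nat_lit 15) (nat_lit 0x1780002f00005fb8a0bfabad7f167afee4e) b52723 (.nil))) (.tok (nat_lit 9) (nat_lit 0x1780002f00005fd404bfcf517f5b3aff7bc) (.hit (nat_lit 179) (nat_lit 20) (nat_lit 0x1780002f00005facd4bf9d257f333afe8c6) b52724 (.hit (nat_lit 180) (nat_lit 28) (nat_lit 0x1780002f00005fd404bfcf517f5b3aff7bc)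 b52725 (.nil))) (.nil)))) (.tok (nat_lit 55) (nat_lit 0x1780002f00005fcc0cbfdb957fb01aff862) (.hit (nat_lit 187) (nat_lit 0) (nat_lit 0x1780002f00005fc780bfa8997f44f2feafd) b52726 (.tok (nat_lit 3) (nat_lit 0x1780002f00005fba10bfb79d7f682afef64) (.hit (nat_lit 188) (nat_lit 1) (nat_lit 0x1780002f00005f8cc8bf5d0d7eb30afd8c0) b52727 (.one (nat_lit 67) (nat_lit 189) (nat_lit 2) (nat_lit 0x1780002f00005fba10bfb79d7f682afef64) b52728 (.nil))) (.tok (nat_lit 6) (nat_lit 0x1780002f00005fcc0cbfdb957fb01aff862) (.hit (nat_lit 190) (nat_lit 7) (nat_lit 0x1780002f00005fa1d2bf87217f0732fe345) b52729 (.hit (nat_lit 193) (nat_lit 15) (nat_lit 0x1780002f00005f8e74bf60657eb9bafd996) b52732 (.tok (nat_lit 55) (nat_lit 0x1780002f00005fcc0cbfdb957fb01aff862) (.hit (nat_lit 191) (nat_lit 8) (nat_lit 0x1780002f00005fbfa2bfc2c17f7e72ff22d) b52730 (.hit (nat_lit 194) (nat_lit 16) (nat_lit 0x1780002f00005fbf6ebfc2597f7da2ff213)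 b52733 (.one (nat_lit 6) (nat_lit 192) (nat_lit 9) (nat_lit 0x1780002f00005fcc0cbfdb957fb01aff862) b52731 (.nil)))) (.nil)))) (.nil)))) (.tok (nat_lit 58) (nat_lit 0x1780002f00005fd11ebfe35d7fbfaaffa54) (.hit (nat_lit 201) (nat_lit 0) (nat_lit 0x1780002f00005fd11ebfd9497f854afefa2) b52734 (.tok (nat_lit 3) (nat_lit 0x1780002f00005fcff0bfe35d7fbfaaffa54) (.hit (nat_lit 202) (nat_lit 1) (nat_lit 0x1780002f00005f9cc2bf7d017ef2f2fe0bd) b52735 (.one (nat_lit 55) (nat_lit 203) (nat_lit 3) (nat_lit 0x1780002f00005fcff0bfe35d7fbfaaffa54) b52736 (.nil))) (.tok (nat_lit 9) (nat_lit 0x1780002f00005fa102bf85817f03f2fe2dd) (.hit (nat_lit 204) (nat_lit 20) (nat_lit 0x1780002f00005fa0a8bf84cd7f028afe2b0) b52737 (.hit (nat_lit 207) (nat_lit 28) (nat_lit 0x1780002f00005fa102bf85817f03f2fe2dd) b52738 (.nil))) (.nil)))) (.nil))))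
noncomputable def r73_8 : Rw Blk := .tok (nat_lit 3) (nat_lit 0x1780002f0000601ecec04a4980f7db01ac4) (.hit (nat_lit 15) (nat_lit 0) (nat_lit 0x1780002f00005fffb8bfd6617fdb7300d49) b52754 (.tok (nat_lit 9) (nat_lit 0x1780002f00005fdf50bfa5517f67a2ff59a) (.hit (nat_lit 16) (nat_lit 20) (nat_lit 0x1780002f00005f79dcbf20597e5db2fd286) b52755 (.hit (nat_lit 21) (nat_lit 28) (nat_lit 0x1780002f00005f9898bef25d7e01bafe527) b52758 (.tok (nat_lit 14) (nat_lit 0x1780002f00005fc004bf90357f3d6aff59a) (.hit (nat_lit 17) (nat_lit 24) (nat_lit 0x1780002f00005f9c84bf4dc97eb892fe3da) b52756 (.hit (nat_lit 22) (nat_lit 30) (nat_lit 0x1780002f00005faf96bf90357f3d6aff3f9) b52759 (.one (nat_lit 6) (nat_lit 18) (nat_lit 25) (nat_lit 0x1780002f00005fc004bf5c657ed5caff59a) b52757 (.nil)))) (.one (nat_lit 56) (nat_lit 23) (nat_lit 31) (nat_lit 0x1780002f00005fdf50bfa5517f67a2ff061) b52760 (.nil))))) (.tok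 (nat_lit 64) (nat_lit 0x1780002f00005fcde0bfadb17f7862ffa97) (.hit (nat_lit 25) (nat_lit 50) (nat_lit 0x1780002f00005fc3b4bf8c457f358afedab) b52761 (.hit (nat_lit 26) (nat_lit 51) (nat_lit 0x1780002f00005fcde0bfadb17f7862ffa97) b52762 (.nil))) (.tok (nat_lit 67) (nat_lit 0x1780002f0000601ecec04a4980f7db01ac4) (.hit (nat_lit 27) (nat_lit 52) (nat_lit 0x1780002f0000601ecec04a4980f7db01ac4) b52763 (.tok (nat_lit 3) (nat_lit 0x1780002f00005fd750bfa1c97f609300140) (.hit (nat_lit 33) (nat_lit 58) (nat_lit 0x1780002f00005fb16ebf81097f1f12fee4f) b52766 (.one (nat_lit 55) (nat_lit 34) (nat_lit 59) (nat_lit 0x1780002f00005fd750bfa1c97f609300140) b52767 (.nil))) (.tok (nat_lit 9) (nat_lit 0x1780002f00005fb342bf8c057f350afef39) (.hit (nat_lit 28) (nat_lit 53) (nat_lit 0x1780002f00005fb342bf8c057f350afef39) b52764 (.hit (nat_lit 31) (nat_lit 56) (nat_lit 0x1780002f00005fac7ebf70917efe22febd7)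 b52765 (.nil))) (.nil)))) (.one (nat_lit 70) (nat_lit 35) (nat_lit 60) (nat_lit 0x1780002f00006016ccbfdb857fd40b0178d) b52768 (.nil)))))) (.tok (nat_lit 6) (nat_lit 0x1780002f0000606772c1554d82aefb0536d) (.hit (nat_lit 0) (nat_lit 0) (nat_lit 0x1780002f000060032ec03f1180686300ed5) b52739 (.tok (nat_lit 6) (nat_lit 0x1780002f0000601634c08ad181120301f13) (.hit (nat_lit 1) (nat_lit 7) (nat_lit 0x1780002f00005fa27abf983d7f17a2fdf91) b52740 (.hit (nat_lit 4) (nat_lit 15) (nat_lit 0x1780002f00005fb520bfb5217f4032fe89d) b52743 (.tok (nat_lit 14) (nat_lit 0x1780002f0000601634c08ad181120301f13) (.hit (nat_lit 2) (nat_lit 11) (nat_lit 0x1780002f00005fcf7abfd3cd7f934aff5b0) b52741 (.hit (nat_lit 5) (nat_lit 17) (nat_lit 0x1780002f00005fe7f6c00d417ffd42ffc3e) b52744 (.one (nat_lit 9) (nat_lit 3) (nat_lit 12) (nat_lit 0x1780002f0000601634c08ad181120301f13) b52742 (.nil)))) (.one (nat_lit 68)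 (nat_lit 6) (nat_lit 18) (nat_lit 0x1780002f0000600700c0782580e08b011b2) b52745 (.nil))))) (.tok (nat_lit 52) (nat_lit 0x1780002f000060651ac12061825e33044b8) (.hit (nat_lit 7) (nat_lit 39) (nat_lit 0x1780002f000060651ac12061825e33044b8) b52746 (.hit (nat_lit 8) (nat_lit 40) (nat_lit 0x1780002f00006017aec024a1804cb300b70) b52747 (.nil))) (.tok (nat_lit 55) (nat_lit 0x1780002f0000606772c1554d82aefb0536d) (.hit (nat_lit 9) (nat_lit 41) (nat_lit 0x1780002f00006048c8c0e30181ca1b0322e) b52748 (.tok (nat_lit 3) (nat_lit 0x1780002f00005fff24c066d180dd0301384) (.hit (nat_lit 12) (nat_lit 47) (nat_lit 0x1780002f00005fe554c066d180dd0300ce4) b52751 (.one (nat_lit 67) (nat_lit 13) (nat_lit 48) (nat_lit 0x1780002f00005fff24c0652d80ba0b01384) b52752 (.nil))) (.tok (nat_lit 6) (nat_lit 0x1780002f0000606772c1554d82aefb0536d) (.hit (nat_lit 10) (nat_lit 42) (nat_lit 0x1780002f0000606772c1554d82aefb0536d)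 b52749 (.hit (nat_lit 11) (nat_lit 45) (nat_lit 0x1780002f00005fee3abfd9897fb742ffc13) b52750 (.nil))) (.nil)))) (.one (nat_lit 58) (nat_lit 14) (nat_lit 49) (nat_lit 0x1780002f0000605fe4c12d5582546304450) b52753 (.nil)))))) (.nil))
noncomputable def r73_9 : Rw Blk := .tok (nat_lit 6) (nat_lit 0x5e0000bc00018212cb05901) (.hit (nat_lit 0) (nat_lit 0) (nat_lit 0x5e0000bc00017f9f4300e1e) b52769 (.tok (nat_lit 14) (nat_lit 0x5e0000bc000181678303314) (.hit (nat_lit 1) (nat_lit 61) (nat_lit 0x5e0000bc0001801e2300961) b52770 (.one (nat_lit 3) (nat_lit 2) (nat_lit 62) (nat_lit 0x5e0000bc000180611300daa) b52771 (.tok (nat_lit 6) (nat_lit 0x5e0000bc00017f5d12ffb50) (.hit (nat_lit 5) (nat_lit 65) (nat_lit 0x5e0000bc00017f5d12ffac4) b52774 (.hit (nat_lit 6) (nat_lit 66) (nat_lit 0x5e0000bc00017f13d2ffb50) b52775 (.nil))) (.tok (nat_lit 9) (nat_lit 0x5e0000bc000181678303314) (.hit (nat_lit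 3) (nat_lit 63) (nat_lit 0x5e0000bc000181678303314) b52772 (.hit (nat_lit 4) (nat_lit 64) (nat_lit 0x5e0000bc00017f937b00169) b52773 (.nil))) (.nil))))) (.one (nat_lit 17) (nat_lit 7) (nat_lit 67) (nat_lit 0x5e0000bc00017f7cf2ff3bb) b52776 (.tok (nat_lit 20) (nat_lit 0x5e0000bc00018212cb05901) (.hit (nat_lit 8) (nat_lit 68) (nat_lit 0x5e0000bc00018212cb05901) b52777 (.hit (nat_lit 9) (nat_lit 69) (nat_lit 0x5e0000bc00017f5322fede7) b52778 (.nil))) (.tok (nat_lit 23) (nat_lit 0x5e0000bc00017f4432ff7d4) (.hit (nat_lit 10) (nat_lit 70) (nat_lit 0x5e0000bc00017f0b2aff087) b52779 (.hit (nat_lit 11) (nat_lit 71) (nat_lit 0x5e0000bc00017f4432ff7d4) b52780 (.nil))) (.one (nat_lit 26) (nat_lit 12) (nat_lit 72) (nat_lit 0x5e0000bc00017f8a92ff236) b52781 (.one (nat_lit 29) (nat_lit 13) (nat_lit 73) (nat_lit 0x5e0000bc00017fbaf2ff884) b52782 (.one (nat_lit 32) (nat_lit 14) (nat_lit 74) (nat_lit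 0x5e0000bc00017ee9bafe665) b52783 (.one (nat_lit 35) (nat_lit 15) (nat_lit 75) (nat_lit 0x5e0000bc00017f969aff66c) b52784 (.one (nat_lit 62) (nat_lit 23) (nat_lit 92) (nat_lit 0x5e0000bc00017fcd02ffb17) b52785 (.tok (nat_lit 65) (nat_lit 0x5e0000bc00017f2cfaff3f5) (.hit (nat_lit 24) (nat_lit 93) (nat_lit 0x5e0000bc00017f1c9aff0a8) b52786 (.hit (nat_lit 25) (nat_lit 94) (nat_lit 0x5e0000bc00017f2cfaff3f5) b52787 (.nil))) (.tok (nat_lit 68) (nat_lit 0x5e0000bc00018071b301fc7) (.hit (nat_lit 26) (nat_lit 95) (nat_lit 0x5e0000bc00018071b301fc7) b52788 (.one (nat_lit 3) (nat_lit 30) (nat_lit 99) (nat_lit 0x5e0000bc00017f4b4aff88b) b52792 (.one (nat_lit 6) (nat_lit 27) (nat_lit 96) (nat_lit 0x5e0000bc00017f24b2ff3b8) b52789 (.tok (nat_lit 9) (nat_lit 0x5e0000bc00017f3812ff624) (.hit (nat_lit 28) (nat_lit 97) (nat_lit 0x5e0000bc00017f3812ff624) b52790 (.hit (nat_lit 29) (nat_lit 98)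 (nat_lit 0x5e0000bc00017edd02feac2) b52791 (.nil))) (.nil))))) (.one (nat_lit 71) (nat_lit 31) (nat_lit 100) (nat_lit 0x5e0000bc00017f3f4afec75) b52793 (.nil)))))))))))))) (.tok (nat_lit 52) (nat_lit 0x5e0000bc0001817b6303ebe) (.hit (nat_lit 45) (nat_lit 0) (nat_lit 0x5e0000bc0001817b6303ebe) b52807 (.tok (nat_lit 6) (nat_lit 0x5e0000bc0001812adb03751) (.hit (nat_lit 46) (nat_lit 7) (nat_lit 0x5e0000bc0001812adb0357b) b52808 (.hit (nat_lit 47) (nat_lit 15) (nat_lit 0x5e0000bc000180dbeb03751) b52809 (.nil))) (.tok (nat_lit 9) (nat_lit 0x5e0000bc00017fe76b008a5) (.hit (nat_lit 48) (nat_lit 20) (nat_lit 0x5e0000bc00017f67a2ffe64) b52810 (.hit (nat_lit 49) (nat_lit 28) (nat_lit 0x5e0000bc00017fe76b008a5) b52811 (.nil))) (.nil)))) (.tok (nat_lit 55) (nat_lit 0x5e0000bc00018064a301e04) (.hit (nat_lit 40) (nat_lit 0) (nat_lit 0x5e0000bc00018042930108d) b52802 (.tok (nat_lit 3) (nat_lit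 0x5e0000bc0001803f9b01963) (.hit (nat_lit 41) (nat_lit 1) (nat_lit 0x5e0000bc00017fc9eb00aad) b52803 (.one (nat_lit 67) (nat_lit 42) (nat_lit 2) (nat_lit 0x5e0000bc0001803f9b01963) b52804 (.nil))) (.tok (nat_lit 6) (nat_lit 0x5e0000bc00018064a301e04) (.hit (nat_lit 43) (nat_lit 7) (nat_lit 0x5e0000bc00018064a301e04) b52805 (.hit (nat_lit 44) (nat_lit 15) (nat_lit 0x5e0000bc00017f7de30012c) b52806 (.nil))) (.nil)))) (.tok (nat_lit 58) (nat_lit 0x5e0000bc0001810d4b03319) (.hit (nat_lit 32) (nat_lit 0) (nat_lit 0x5e0000bc00018084db024b8) b52794 (.tok (nat_lit 3) (nat_lit 0x5e0000bc0001810d4b03319) (.hit (nat_lit 33) (nat_lit 1) (nat_lit 0x5e0000bc000180739b01fe3) b52795 (.one (nat_lit 55) (nat_lit 34) (nat_lit 3) (nat_lit 0x5e0000bc0001810d4b03319) b52796 (.nil))) (.tok (nat_lit 9) (nat_lit 0x5e0000bc00018102cb031c9) (.hit (nat_lit 35) (nat_lit 20) (nat_lit 0x5e0000bc0001809a5b024bb)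 b52797 (.hit (nat_lit 38) (nat_lit 28) (nat_lit 0x5e0000bc00018057eb01c6d) b52800 (.tok (nat_lit 67) (nat_lit 0x5e0000bc00018102cb031c9) (.hit (nat_lit 36) (nat_lit 21) (nat_lit 0x5e0000bc000180cf7b02b5f) b52798 (.hit (nat_lit 39) (nat_lit 29) (nat_lit 0x5e0000bc000180f6bb03047) b52801 (.one (nat_lit 9) (nat_lit 37) (nat_lit 22) (nat_lit 0x5e0000bc00018102cb031c9) b52799 (.nil)))) (.nil)))) (.nil)))) (.nil))))
noncomputable def r73_10 : Rw Blk := .tok (nat_lit 3) (nat_lit 0x5e0000bc000181c61b0389b) (.hit (nat_lit 0) (nat_lit 0) (nat_lit 0x5e0000bc000181c61b034d9) b52812 (.tok (nat_lit 9) (nat_lit 0x5e0000bc0001811acb02717) (.hit (nat_lit 1) (nat_lit 20) (nat_lit 0x5e0000bc00017f985aff6c9) b52813 (.hit (nat_lit 6) (nat_lit 28) (nat_lit 0x5e0000bc00017fc47affc4d) b52816 (.tok (nat_lit 68) (nat_lit 0x5e0000bc0001811acb02717) (.hit (nat_lit 4) (nat_lit 26) (nat_lit 0x5e0000bc0001802c3b00945)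 b52814 (.hit (nat_lit 8) (nat_lit 32) (nat_lit 0x5e0000bc000180c06301bca) b52817 (.one (nat_lit 9) (nat_lit 5) (nat_lit 27) (nat_lit 0x5e0000bc0001811acb02717) b52815 (.nil)))) (.nil)))) (.tok (nat_lit 64) (nat_lit 0x5e0000bc00018140a302bd2) (.hit (nat_lit 9) (nat_lit 50) (nat_lit 0x5e0000bc000181165b02689) b52818 (.hit (nat_lit 10) (nat_lit 51) (nat_lit 0x5e0000bc00018140a302bd2) b52819 (.nil))) (.tok (nat_lit 67) (nat_lit 0x5e0000bc000181b5ab0389b) (.hit (nat_lit 11) (nat_lit 52) (nat_lit 0x5e0000bc000181b5ab0389b) b52820 (.one (nat_lit 3) (nat_lit 17) (nat_lit 58) (nat_lit 0x5e0000bc000180d3ab01e33) b52826 (.tok (nat_lit 9) (nat_lit 0x5e0000bc000180eaf30211c) (.hit (nat_lit 12) (nat_lit 53) (nat_lit 0x5e0000bc000180aaeb0191b) b52821 (.hit (nat_lit 15) (nat_lit 56) (nat_lit 0x5e0000bc000180a31301820) b52824 (.tok (nat_lit 67) (nat_lit 0x5e0000bc000180eaf30211c) (.hit (nat_lit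 13) (nat_lit 54) (nat_lit 0x5e0000bc000180d04b01dc7) b52822 (.hit (nat_lit 16) (nat_lit 57) (nat_lit 0x5e0000bc000180eaf30211c) b52825 (.one (nat_lit 9) (nat_lit 14) (nat_lit 55) (nat_lit 0x5e0000bc000180a7030189e) b52823 (.nil)))) (.nil)))) (.nil)))) (.one (nat_lit 70) (nat_lit 19) (nat_lit 60) (nat_lit 0x5e0000bc000180f6eb0229b) b52827 (.nil)))))) (.tok (nat_lit 6) (nat_lit 0x5e0000bc000182542b05100) (.hit (nat_lit 20) (nat_lit 0) (nat_lit 0x5e0000bc000182542b05100) b52828 (.tok (nat_lit 6) (nat_lit 0x5e0000bc00018223db04903) (.hit (nat_lit 21) (nat_lit 7) (nat_lit 0x5e0000bc00018194eb033e9) b52829 (.hit (nat_lit 24) (nat_lit 15) (nat_lit 0x5e0000bc0001815623038cb) b52830 (.one (nat_lit 68) (nat_lit 26) (nat_lit 18) (nat_lit 0x5e0000bc00018223db04903) b52831 (.nil)))) (.nil))) (.nil))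
noncomputable def r73_11 : Rw Blk := .tok (nat_lit 6) (nat_lit 0x5e0000bc000180000300355) (.hit (nat_lit 0) (nat_lit 0) (nat_lit 0x5e0000bc00017ebddafe08a) b52832 (.tok (nat_lit 14) (nat_lit 0x5e0000bc000180000300355) (.hit (nat_lit 21) (nat_lit 61) (nat_lit 0x5e0000bc00017f8e02feac8) b52833 (.one (nat_lit 3) (nat_lit 22) (nat_lit 62) (nat_lit 0x5e0000bc00017f22b2fe0f3) b52834 (.tok (nat_lit 6) (nat_lit 0x5e0000bc00017f2662feb59) (.hit (nat_lit 25) (nat_lit 65) (nat_lit 0x5e0000bc00017e9022fe814) b52837 (.hit (nat_lit 26) (nat_lit 66) (nat_lit 0x5e0000bc00017f2662feb59) b52838 (.nil))) (.tok (nat_lit 9) (nat_lit 0x5e0000bc000180000300355) (.hit (nat_lit 23) (nat_lit 63) (nat_lit 0x5e0000bc000180000300355) b52835 (.hit (nat_lit 24) (nat_lit 64) (nat_lit 0x5e0000bc00017f4a5afe8ad) b52836 (.nil))) (.nil))))) (.one (nat_lit 17) (nat_lit 27) (nat_lit 67) (nat_lit 0x5e0000bc00017ed372fd662)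 b52839 (.tok (nat_lit 20) (nat_lit 0x5e0000bc00017f1b92fe88c) (.hit (nat_lit 28) (nat_lit 68) (nat_lit 0x5e0000bc00017f1b92fe88c) b52840 (.hit (nat_lit 29) (nat_lit 69) (nat_lit 0x5e0000bc00017eba02fd4d0) b52841 (.nil))) (.tok (nat_lit 23) (nat_lit 0x5e0000bc00017ed222fe095) (.hit (nat_lit 30) (nat_lit 70) (nat_lit 0x5e0000bc00017e542afe095) b52842 (.hit (nat_lit 31) (nat_lit 71) (nat_lit 0x5e0000bc00017ed222fd4ce) b52843 (.nil))) (.one (nat_lit 26) (nat_lit 32) (nat_lit 72) (nat_lit 0x5e0000bc00017e96d2fc5b3) b52844 (.one (nat_lit 29) (nat_lit 33) (nat_lit 73) (nat_lit 0x5e0000bc00017e897afc604) b52845 (.one (nat_lit 32) (nat_lit 34) (nat_lit 74) (nat_lit 0x5e0000bc00017e493afc84d) b52846 (.one (nat_lit 35) (nat_lit 35) (nat_lit 75) (nat_lit 0x5e0000bc00017ec562fcb78) b52847 (.one (nat_lit 38) (nat_lit 36) (nat_lit 76) (nat_lit 0x5e0000bc00017eb12afd6a2) b52848 (.tok (nat_lit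 41) (nat_lit 0x5e0000bc00017e9e3afcdad) (.hit (nat_lit 37) (nat_lit 77) (nat_lit 0x5e0000bc00017e9e3afc8ab) b52849 (.hit (nat_lit 38) (nat_lit 78) (nat_lit 0x5e0000bc00017e85aafcdad) b52850 (.nil))) (.tok (nat_lit 44) (nat_lit 0x5e0000bc00017eea6afd127) (.hit (nat_lit 39) (nat_lit 79) (nat_lit 0x5e0000bc00017eea6afd127) b52851 (.hit (nat_lit 40) (nat_lit 80) (nat_lit 0x5e0000bc00017ea65afca8c) b52852 (.nil))) (.tok (nat_lit 47) (nat_lit 0x5e0000bc00017edb8afce3b) (.hit (nat_lit 41) (nat_lit 81) (nat_lit 0x5e0000bc00017d41cafbe49) b52853 (.hit (nat_lit 42) (nat_lit 82) (nat_lit 0x5e0000bc00017edb8afce3b) b52854 (.nil))) (.one (nat_lit 50) (nat_lit 43) (nat_lit 83) (nat_lit 0x5e0000bc00017f01c2fd2fe) b52855 (.tok (nat_lit 53) (nat_lit 0x5e0000bc00017f110afe15c) (.hit (nat_lit 44) (nat_lit 84) (nat_lit 0x5e0000bc00017f110afe15c) b52856 (.hit (nat_lit 45) (nat_lit 85) (nat_lit 0x5e0000bc00017eed6afd0e7)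 b52857 (.nil))) (.tok (nat_lit 56) (nat_lit 0x5e0000bc00017fc1aaff16a) (.hit (nat_lit 46) (nat_lit 86) (nat_lit 0x5e0000bc00017f7efafed65) b52858 (.one (nat_lit 3) (nat_lit 50) (nat_lit 90) (nat_lit 0x5e0000bc00017f2a92fda8e) b52862 (.tok (nat_lit 6) (nat_lit 0x5e0000bc00017fc1aaff16a) (.hit (nat_lit 48) (nat_lit 88) (nat_lit 0x5e0000bc00017fc1aaff16a) b52860 (.hit (nat_lit 49) (nat_lit 89) (nat_lit 0x5e0000bc00017f2212fd960) b52861 (.nil))) (.one (nat_lit 9) (nat_lit 47) (nat_lit 87) (nat_lit 0x5e0000bc00017fa692fefdd) b52859 (.nil))))) (.one (nat_lit 59) (nat_lit 51) (nat_lit 91) (nat_lit 0x5e0000bc00017ec4dafcb5f) b52863 (.nil)))))))))))))))))) (.tok (nat_lit 52) (nat_lit 0x5e0000bc00017fba3300c09) (.hit (nat_lit 176) (nat_lit 0) (nat_lit 0x5e0000bc00017faae300c09) b52864 (.tok (nat_lit 6) (nat_lit 0x5e0000bc00017fba3300b04) (.hit (nat_lit 177) (nat_lit 7) (nat_lit 0x5e0000bc00017fba3300b04)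 b52865 (.hit (nat_lit 178) (nat_lit 15) (nat_lit 0x5e0000bc00017f392affb51) b52866 (.nil))) (.tok (nat_lit 9) (nat_lit 0x5e0000bc00017f7b02ffde4) (.hit (nat_lit 179) (nat_lit 20) (nat_lit 0x5e0000bc00017f090aff805) b52867 (.hit (nat_lit 180) (nat_lit 28) (nat_lit 0x5e0000bc00017f7b02ffde4) b52868 (.nil))) (.nil)))) (.tok (nat_lit 55) (nat_lit 0x5e0000bc00017fd4130078c) (.hit (nat_lit 187) (nat_lit 0) (nat_lit 0x5e0000bc00017fd412ffb15) b52869 (.tok (nat_lit 3) (nat_lit 0x5e0000bc00017f3bc2ffe5c) (.hit (nat_lit 188) (nat_lit 1) (nat_lit 0x5e0000bc00017ed19aff117) b52870 (.one (nat_lit 67) (nat_lit 189) (nat_lit 2) (nat_lit 0x5e0000bc00017f3bc2ffe5c) b52871 (.nil))) (.tok (nat_lit 6) (nat_lit 0x5e0000bc00017f85430078c) (.hit (nat_lit 190) (nat_lit 7) (nat_lit 0x5e0000bc00017eb892fedf6) b52872 (.hit (nat_lit 193) (nat_lit 15) (nat_lit 0x5e0000bc00017ed232ff12a) b52875 (.tok (nat_lit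 55) (nat_lit 0x5e0000bc00017f85430078c) (.hit (nat_lit 191) (nat_lit 8) (nat_lit 0x5e0000bc00017f348affd75) b52873 (.hit (nat_lit 194) (nat_lit 16) (nat_lit 0x5e0000bc00017f49e300020) b52876 (.one (nat_lit 6) (nat_lit 192) (nat_lit 9) (nat_lit 0x5e0000bc00017f85430078c) b52874 (.nil)))) (.nil)))) (.nil)))) (.tok (nat_lit 58) (nat_lit 0x5e0000bc00017f9f3300aca) (.hit (nat_lit 201) (nat_lit 0) (nat_lit 0x5e0000bc00017f6bd2ff85d) b52877 (.tok (nat_lit 3) (nat_lit 0x5e0000bc00017f9f3300aca) (.hit (nat_lit 202) (nat_lit 1) (nat_lit 0x5e0000bc00017edafaff243) b52878 (.one (nat_lit 55) (nat_lit 203) (nat_lit 3) (nat_lit 0x5e0000bc00017f9f3300aca) b52879 (.nil))) (.tok (nat_lit 9) (nat_lit 0x5e0000bc00017f15e2ff9a0) (.hit (nat_lit 204) (nat_lit 20) (nat_lit 0x5e0000bc00017f15e2ff9a0) b52880 (.hit (nat_lit 207) (nat_lit 28) (nat_lit 0x5e0000bc00017ecb9aff057) b52881 (.nil))) (.nil))))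 (.nil))))
noncomputable def r73_12 : Rw Blk := .tok (nat_lit 3) (nat_lit 0x5e0000bc000180a12b0224c) (.hit (nat_lit 15) (nat_lit 0) (nat_lit 0x5e0000bc00017f0562fecfc) b52897 (.tok (nat_lit 9) (nat_lit 0x5e0000bc00017e77a2fdee9) (.hit (nat_lit 16) (nat_lit 20) (nat_lit 0x5e0000bc00017dfbcafcf6e) b52898 (.hit (nat_lit 21) (nat_lit 28) (nat_lit 0x5e0000bc00017cf602faeb5) b52901 (.tok (nat_lit 14) (nat_lit 0x5e0000bc00017e77a2fdee9) (.hit (nat_lit 17) (nat_lit 24) (nat_lit 0x5e0000bc00017e39a2fd729) b52899 (.hit (nat_lit 22) (nat_lit 30) (nat_lit 0x5e0000bc00017e327afd644) b52902 (.one (nat_lit 6) (nat_lit 18) (nat_lit 25) (nat_lit 0x5e0000bc00017e77a2fdee9) b52900 (.nil)))) (.one (nat_lit 56) (nat_lit 23) (nat_lit 31) (nat_lit 0x5e0000bc00017e3dc2fd7ad) b52903 (.nil))))) (.tok (nat_lit 64) (nat_lit 0x5e0000bc00017e8cd2fe18f) (.hit (nat_lit 25) (nat_lit 50) (nat_lit 0x5e0000bc00017e8cd2fe18f)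 b52904 (.hit (nat_lit 26) (nat_lit 51) (nat_lit 0x5e0000bc00017e699afdd28) b52905 (.nil))) (.tok (nat_lit 67) (nat_lit 0x5e0000bc000180a12b0224c) (.hit (nat_lit 27) (nat_lit 52) (nat_lit 0x5e0000bc000180a12b0224c) b52906 (.tok (nat_lit 3) (nat_lit 0x5e0000bc00017ee902fed15) (.hit (nat_lit 33) (nat_lit 58) (nat_lit 0x5e0000bc00017ec5fafe8b4) b52909 (.one (nat_lit 55) (nat_lit 34) (nat_lit 59) (nat_lit 0x5e0000bc00017ee902fed15) b52910 (.nil))) (.tok (nat_lit 9) (nat_lit 0x5e0000bc00017e787afdf04) (.hit (nat_lit 28) (nat_lit 53) (nat_lit 0x5e0000bc00017e787afdf04) b52907 (.hit (nat_lit 31) (nat_lit 56) (nat_lit 0x5e0000bc00017e63eafdc72) b52908 (.nil))) (.nil)))) (.one (nat_lit 70) (nat_lit 35) (nat_lit 60) (nat_lit 0x5e0000bc00017ee882fed05) b52911 (.nil)))))) (.tok (nat_lit 6) (nat_lit 0x5e0000bc0001813f6b02e9d) (.hit (nat_lit 0) (nat_lit 0) (nat_lit 0x5e0000bc00017f6072ff540)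 b52882 (.tok (nat_lit 6) (nat_lit 0x5e0000bc0001800ee30036d) (.hit (nat_lit 1) (nat_lit 7) (nat_lit 0x5e0000bc00017f0cbafeb62) b52883 (.hit (nat_lit 4) (nat_lit 15) (nat_lit 0x5e0000bc00017e4db2fcfd7) b52886 (.tok (nat_lit 14) (nat_lit 0x5e0000bc0001800ee30036d) (.hit (nat_lit 2) (nat_lit 11) (nat_lit 0x5e0000bc0001800ee30036d) b52884 (.hit (nat_lit 5) (nat_lit 17) (nat_lit 0x5e0000bc00017f0972fe26c) b52887 (.one (nat_lit 9) (nat_lit 3) (nat_lit 12) (nat_lit 0x5e0000bc00017fb89affe6e) b52885 (.nil)))) (.one (nat_lit 68) (nat_lit 6) (nat_lit 18) (nat_lit 0x5e0000bc00017f3ddafe8a3) b52888 (.nil))))) (.tok (nat_lit 52) (nat_lit 0x5e0000bc00017ffae3001af) (.hit (nat_lit 7) (nat_lit 39) (nat_lit 0x5e0000bc00017ffae3001af) b52889 (.hit (nat_lit 8) (nat_lit 40) (nat_lit 0x5e0000bc00017f4f1afeb4c) b52890 (.nil))) (.tok (nat_lit 55) (nat_lit 0x5e0000bc0001813f6b02e9d) (.hit (nat_lit 9)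 (nat_lit 41) (nat_lit 0x5e0000bc0001813f6b02e9d) b52891 (.tok (nat_lit 3) (nat_lit 0x5e0000bc0001808cf3010bb) (.hit (nat_lit 12) (nat_lit 47) (nat_lit 0x5e0000bc00017fc38afffc6) b52894 (.one (nat_lit 67) (nat_lit 13) (nat_lit 48) (nat_lit 0x5e0000bc0001808cf3010bb) b52895 (.nil))) (.tok (nat_lit 6) (nat_lit 0x5e0000bc000180203300753) (.hit (nat_lit 10) (nat_lit 42) (nat_lit 0x5e0000bc000180203300753) b52892 (.hit (nat_lit 11) (nat_lit 45) (nat_lit 0x5e0000bc00017fac6aff683) b52893 (.nil))) (.nil)))) (.one (nat_lit 58) (nat_lit 14) (nat_lit 49) (nat_lit 0x5e0000bc00017f0422ff29e) b52896 (.nil)))))) (.nil))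
noncomputable def r73_13 : Rw Blk := .tok (nat_lit 3) (nat_lit 0x17dbd22fc88b5fc6e0bf22c97e1abafc8dd5f9f14bf28157ef422fcf375f8418bf67057ed79afe39f) (.hit (nat_lit 0) (nat_lit 0) (nat_lit 0x17db5f2fc88b5f9146bf03ed7de2a2fc1a55f9aa6bf1f217e93aafcf375f7fd4bf27997e59b2fd1a2) b52912 (.tok (nat_lit 6) (nat_lit 0x17dbd22fc59c5fc6e0bf22c97e1abafc8dd5f9f14bf28157ef422fcc875f8418bf67057ed79afe39f) (.hit (nat_lit 1) (nat_lit 7) (nat_lit 0x17d1a5afb1435f9b84bed1657d77f2fb4845f7662bed6b17e515afb82e5f5b66beb8e17d8f32fce89) b52623 (.hit (nat_lit 6) (nat_lit 15) (nat_lit 0x17d06e2faed45f8498bec7a97d647afb2155f7184beccf57e3de2fb5bf5f5688bf14717e32eafcef5) b52628 (.tok (nat_lit 14) (nat_lit 0x17db23afc43f5fbf5cbf1d557e0fd2fc7805f9c5abf22a17ee93afcb2a5f815ebf3f2d7e87eafe113) (.hit (nat_lit 2) (nat_lit 11) (nat_lit 0x17d4f3afb7df5faba2beebd57dacd2fbb205f839abef1217e863afbeca5f689ebed3517dc412fda4b)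 b52624 (.hit (nat_lit 7) (nat_lit 17) (nat_lit 0x17d4752fb6e25f9700bee7e17da4eafba235f81a0beed2d7e7e52fbdcd5f66a4bf3f2d7e87eafd85e) b52629 (.one (nat_lit 9) (nat_lit 3) (nat_lit 12) (nat_lit 0x17db23afc43f5fbf5cbf1d557e0fd2fc7805f9c5abf22a17ee93afcb2a5f815ebf04d17e2712fe113) b52625 (.nil)))) (.tok (nat_lit 56) (nat_lit 0x17dbd22fc59c5fc6e0bf22c97e1abafc8dd5f9f14bf28157ef422fcc875f8418bf2afd7e5f8afe39f) (.hit (nat_lit 4) (nat_lit 13) (nat_lit 0x17d7be2fbd745fb024bf02297dd97afc0b55f8ec4bf07757eb2e2fc45f5f73c8bef8d57dfae2fda43) b52626 (.hit (nat_lit 9) (nat_lit 19) (nat_lit 0x17d5b02fb9585f9a2cbef1b97db89afbc995f868cbef7057e9202fc0435f6b90bf2afd7e5f8afd27b) b52631 (.one (nat_lit 6) (nat_lit 5) (nat_lit 14) (nat_lit 0x17dbd22fc59c5fc6e0bf22c97e1abafc8dd5f9f14bf28157ef422fcc875f8418bf0a457e31fafe39f) b52627 (.nil)))) (.one (nat_lit 68) (nat_lit 8) (nat_lit 18) (nat_lit 0x17db04afc4015faffcbf1c5d7e0de2fc7425f9bdebf21a97ee74afcaec5f80e2bf67057ed79afe17d)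 b52630 (.nil)))))) (.nil))) (.tok (nat_lit 9) (nat_lit 0x18000030067e600000c0000180000300000600000c000018042e300000600aeac000018046930068f) (.hit (nat_lit 157) (nat_lit 0) (nat_lit 0x17e581afe31d5fa902bf46097e6adafd22a5fbf36bf5e1d7f23eafdede5fa9f2bf5b257ead82fdbad) b52632 (.tok (nat_lit 9) (nat_lit 0x17f2b4affe815fed1cbf8be97f2c6afe8225ff11cbfca017fda52ff52f5fd5a0bfbc117f5efaff6b6) (.hit (nat_lit 163) (nat_lit 20) (nat_lit 0x17e09dafd7245f9922bf02317e4b12fc5bc5fa894bf48917eb83afceb45f8cd0bf26097e37cafd1e4) b52633 (.hit (nat_lit 171) (nat_lit 28) (nat_lit 0x17d9cfafbca45f9336be9a457dc7e2fa65d5f8198befe417e454afc3be5f8b46bf15817e1f42fcd61) b52638 (.tok (nat_lit 14) (nat_lit 0x17f2b4affe815fed1cbf8be97f2c6afe8225ff11cbfca017fda52ff52f5fd5a0bfbc117f5efaff6b6) (.hit (nat_lit 167) (nat_lit 24) (nat_lit 0x17f10aaffa355fea78bf85017ef1dafe3e35fe8f6bfc5017fcc22fef475fc734bf9bf57f2082ff102)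 b52634 (.hit (nat_lit 173) (nat_lit 30) (nat_lit 0x17e80dafd84a5fd34ebf0cb57ea5eafc2d95fb6a8bf5c997f12b2fdf2b5faed4bf6e6d7eb102fdc06) b52639 (.one (nat_lit 6) (nat_lit 168) (nat_lit 25) (nat_lit 0x17f2b4affe815fed1cbf8be97f2c6afe8225ff11cbfca017fda52ff52f5fd5a0bfbc117f5efaff6b6) b52635 (.nil)))) (.tok (nat_lit 68) (nat_lit 0x17ed65aff5665fcd8ebf65897ec91afdeb75fd0dcbf8de97f8272febff5fad7cbf6d797ebec2ff1da) (.hit (nat_lit 169) (nat_lit 26) (nat_lit 0x17ed65afedf75fcc32bf65897ec91afdeb75fd0dcbf8de97f6292fe5f55fad7cbf6d797ebec2fe359) b52636 (.hit (nat_lit 175) (nat_lit 32) (nat_lit 0x17e4432fd18f5fa67ebeee917e6be2fbb445fa77ebf3e457ecccafd6775fa726bf53917e84cafd591) b52640 (.one (nat_lit 9) (nat_lit 170) (nat_lit 27) (nat_lit 0x17e86f2ff5665fcd8ebf44d17eb26afd15f5fbbe4bf72d57f8272febff5fa47abf53397e9a62ff1da) b52637 (.nil)))) (.nil))))) (.tok (nat_lit 64) (nat_lit 0x17e6ceafe5ed5fb5f8bf0ec57ead02fc3965fb7ecbf63317fed2aff5345fd824bf9b817f5d62fecdf)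 (.hit (nat_lit 182) (nat_lit 50) (nat_lit 0x17e5b52fe5ed5fb3bcbf0ec57ead02fc3965fb7ecbf5f217fed2aff5345fd824bf9b817f5d62fea9f) b52641 (.hit (nat_lit 183) (nat_lit 51) (nat_lit 0x17e6ceafdf595fb5f8bf03c97e85a2fc06e5fb37ebf63317fbe02fed515fa274bf41197e88eafecdf) b52642 (.nil))) (.tok (nat_lit 67) (nat_lit 0x18000030067e600000c0000180000300000600000c000018042e300000600aeac000018046930068f) (.hit (nat_lit 184) (nat_lit 52) (nat_lit 0x17f8023002555fe1ccbfd5097fb7faff46b5ff8a8c000017fe622ffa075fd9bebfb8a57f6caaff5bd) b52643 (.tok (nat_lit 3) (nat_lit 0x18000030005a5ff406c000017fb05b000005ffffcbffab5802212ffc475fedeebfe3f97fbea2ffd10) (.hit (nat_lit 190) (nat_lit 58) (nat_lit 0x17f3222ff1e05fdc68bfbe917f9a82ff2325fd90ebfacf57f979afed9d5fcf2ebf99617f2682febb7) b52649 (.one (nat_lit 55) (nat_lit 191) (nat_lit 59) (nat_lit 0x18000030005a5ff406c000017fb05b000005ffffcbffab5802212ffc475fedeebfe3f97fbea2ffd10)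 b52650 (.nil))) (.tok (nat_lit 9) (nat_lit 0x17fcc730067e600000bfaf45800002ff4c4600000bff0518042e300000600aeac000018046930068f) (.hit (nat_lit 185) (nat_lit 53) (nat_lit 0x17f1f62fe85a5fca76bf57e17f363afdd8c5fdc74bfa8357f83bafecb45fd52abfa6317f7f92feb61) b52644 (.hit (nat_lit 188) (nat_lit 56) (nat_lit 0x17eba62fef855fed54bf3a7d7ed2e2fceca5fc6dcbf89ed7fa10aff0775fb008bf604d7ec8aaff9cf) b52647 (.tok (nat_lit 67) (nat_lit 0x17fcc730067e600000bfaf45800002ff4c4600000bff0518042e300000600aeac000018046930068f) (.hit (nat_lit 186) (nat_lit 54) (nat_lit 0x17fcc73000125ff958bf8f45800002fecf35fedd8bfd53d7fe9e2ff94d5ff740bfdad9800b02ffcd9) b52645 (.hit (nat_lit 189) (nat_lit 57) (nat_lit 0x17f34c30067e600000bf68097f4d52fd95b5fe574bfc71d7fee12ffe175fcea0bf9d7d7f43130068f) b52648 (.one (nat_lit 9) (nat_lit 187) (nat_lit 55) (nat_lit 0x17fb87aff99b5ff4e0bfaf457ff2e2ff4c4600000bff0518042e300000600aeac0000180469300413)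 b52646 (.nil)))) (.nil)))) (.nil)))) (.one (nat_lit 70) (nat_lit 192) (nat_lit 60) (nat_lit 0x17eb1f2fe3fb5fd7f0bf27797ed7b2fc9605fc562bf86f97fcfaafef595fe99abfc0117f766afefc6) b52651 (.nil)))))) (.nil))
noncomputable def r73_14 : Rw Blk := .tok (nat_lit 6) (nat_lit 0x5e0000bc000180000300000) (.hit (nat_lit 51) (nat_lit 0) (nat_lit 0x5e0000bc00017f4482fe8c7) b52652 (.tok (nat_lit 14) (nat_lit 0x5e0000bc00017fa2baff1c3) (.hit (nat_lit 62) (nat_lit 61) (nat_lit 0x5e0000bc00017fa2baff04f) b52653 (.one (nat_lit 3) (nat_lit 63) (nat_lit 62) (nat_lit 0x5e0000bc00017f9612fe6b7) b52654 (.tok (nat_lit 6) (nat_lit 0x5e0000bc00017f4fb2fef8b) (.hit (nat_lit 66) (nat_lit 65) (nat_lit 0x5e0000bc00017efde2fef8b) b52655 (.hit (nat_lit 67) (nat_lit 66) (nat_lit 0x5e0000bc00017f4fb2fedcd) b52656 (.nil))) (.tok (nat_lit 9) (nat_lit 0x5e0000bc00017f86c2ff1c3) (.hit (nat_lit 64) (nat_lit 63) (nat_lit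 0x5e0000bc00017f86c2ff1c3) b52657 (.hit (nat_lit 65) (nat_lit 64) (nat_lit 0x5e0000bc00017f5aeafef81) b52658 (.nil))) (.nil))))) (.one (nat_lit 17) (nat_lit 68) (nat_lit 67) (nat_lit 0x5e0000bc00017f45e2fdc26) b52659 (.tok (nat_lit 20) (nat_lit 0x5e0000bc00017fee6aff4ca) (.hit (nat_lit 69) (nat_lit 68) (nat_lit 0x5e0000bc00017fee6aff4ca) b52662 (.hit (nat_lit 70) (nat_lit 69) (nat_lit 0x5e0000bc00017f515afda92) b52663 (.nil))) (.tok (nat_lit 23) (nat_lit 0x5e0000bc00017f3bc2fdb92) (.hit (nat_lit 71) (nat_lit 70) (nat_lit 0x5e0000bc00017e5e1afdb92) b52660 (.hit (nat_lit 72) (nat_lit 71) (nat_lit 0x5e0000bc00017f3bc2fda92) b52661 (.nil))) (.one (nat_lit 38) (nat_lit 77) (nat_lit 76) (nat_lit 0x5e0000bc00017f381afdc66) b52664 (.tok (nat_lit 41) (nat_lit 0x5e0000bc00017f4d6afd211) (.hit (nat_lit 78) (nat_lit 77) (nat_lit 0x5e0000bc00017f09dafc761) b52665 (.hit (nat_lit 79) (nat_lit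 78) (nat_lit 0x5e0000bc00017f4d6afd211) b52666 (.nil))) (.tok (nat_lit 44) (nat_lit 0x5e0000bc00017f5fdafd316) (.hit (nat_lit 80) (nat_lit 79) (nat_lit 0x5e0000bc00017f5fdafd316) b52669 (.hit (nat_lit 81) (nat_lit 80) (nat_lit 0x5e0000bc00017efde2fd166) b52670 (.nil))) (.tok (nat_lit 47) (nat_lit 0x5e0000bc00017f62b2fd274) (.hit (nat_lit 82) (nat_lit 81) (nat_lit 0x5e0000bc00017db79afc6c2) b52667 (.hit (nat_lit 83) (nat_lit 82) (nat_lit 0x5e0000bc00017f62b2fd274) b52668 (.nil))) (.one (nat_lit 50) (nat_lit 84) (nat_lit 83) (nat_lit 0x5e0000bc00017f387afd5d4) b52680 (.tok (nat_lit 53) (nat_lit 0x5e0000bc00017f3faafde64) (.hit (nat_lit 85) (nat_lit 84) (nat_lit 0x5e0000bc00017e761afde64) b52681 (.hit (nat_lit 86) (nat_lit 85) (nat_lit 0x5e0000bc00017f3faafd2ce) b52682 (.nil))) (.tok (nat_lit 56) (nat_lit 0x5e0000bc000180000300000) (.hit (nat_lit 87) (nat_lit 86) (nat_lit 0x5e0000bc00017ffb4affbc3)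 b52683 (.one (nat_lit 3) (nat_lit 91) (nat_lit 90) (nat_lit 0x5e0000bc0001800002ff09b) b52687 (.tok (nat_lit 6) (nat_lit 0x5e0000bc00017fbc22fec38) (.hit (nat_lit 89) (nat_lit 88) (nat_lit 0x5e0000bc00017fbc22fec38) b52685 (.hit (nat_lit 90) (nat_lit 89) (nat_lit 0x5e0000bc00017f63c2fdf22) b52686 (.nil))) (.one (nat_lit 9) (nat_lit 88) (nat_lit 87) (nat_lit 0x5e0000bc00017fa97b00000) b52684 (.nil))))) (.one (nat_lit 59) (nat_lit 92) (nat_lit 91) (nat_lit 0x5e0000bc00017f0462fc773) b52688 (.one (nat_lit 62) (nat_lit 93) (nat_lit 92) (nat_lit 0x5e0000bc00017efc3afd5d4) b52671 (.tok (nat_lit 65) (nat_lit 0x5e0000bc00017f37aafe166) (.hit (nat_lit 94) (nat_lit 93) (nat_lit 0x5e0000bc00017ed582fe166) b52672 (.hit (nat_lit 95) (nat_lit 94) (nat_lit 0x5e0000bc00017f37aafd75f) b52673 (.nil))) (.tok (nat_lit 68) (nat_lit 0x5e0000bc00017f434afeb48) (.hit (nat_lit 96) (nat_lit 95) (nat_lit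 0x5e0000bc00017f434afeb48) b52674 (.one (nat_lit 3) (nat_lit 100) (nat_lit 99) (nat_lit 0x5e0000bc00017e790afdef0) b52678 (.one (nat_lit 6) (nat_lit 97) (nat_lit 96) (nat_lit 0x5e0000bc00017eb862fe6db) b52675 (.tok (nat_lit 9) (nat_lit 0x5e0000bc00017ece22fe993) (.hit (nat_lit 98) (nat_lit 97) (nat_lit 0x5e0000bc00017ece22fe993) b52676 (.hit (nat_lit 99) (nat_lit 98) (nat_lit 0x5e0000bc00017ea3cafe448) b52677 (.nil))) (.nil))))) (.one (nat_lit 71) (nat_lit 101) (nat_lit 100) (nat_lit 0x5e0000bc00017eff8afc66f) b52679 (.nil)))))))))))))))))) (.nil)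
noncomputable def r73_15 : Rw Blk := .tok (nat_lit 9) (nat_lit 0x1780002f00005ff94ec0397d8067db0050f) (.hit (nat_lit 0) (nat_lit 0) (nat_lit 0x1780002f00005faac8bf62bd7ec55afdab6) b52689 (.tok (nat_lit 14) (nat_lit 0x1780002f00005ff3cabf9db17f45daff727) (.hit (nat_lit 21) (nat_lit 61) (nat_lit 0x1780002f00005fdb2abf83357efedafe6cf) b52690 (.one (nat_lit 3) (nat_lit 22) (nat_lit 62) (nat_lit 0x1780002f00005fe3d4bf52a97ea7c2feb21) b52691 (.tok (nat_lit 6) (nat_lit 0x1780002f00005ff3cabf9db17f45daff727) (.hit (nat_lit 25) (nat_lit 65) (nat_lit 0x1780002f00005ff3cabf9db17f45daff727) b52692 (.hit (nat_lit 26) (nat_lit 66) (nat_lit 0x1780002f00005fb7dcbf65357ec2dafdb50) b52693 (.nil))) (.tok (nat_lit 9) (nat_lit 0x1780002f00005fbadebf6bfd7ed06afdf1e) (.hit (nat_lit 23) (nat_lit 63) (nat_lit 0x1780002f00005f742abf6bfd7ed06afdd02) b52694 (.hit (nat_lit 24) (nat_lit 64) (nat_lit 0x1780002f00005fbadebf65bd7ece2afdf1e)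 b52695 (.nil))) (.nil))))) (.one (nat_lit 17) (nat_lit 27) (nat_lit 67) (nat_lit 0x1780002f00005fc952bf4c497e9622fd740) b52696 (.tok (nat_lit 20) (nat_lit 0x1780002f00005fa992bf29097e4a82fcc45) (.hit (nat_lit 28) (nat_lit 68) (nat_lit 0x1780002f00005f52b0bf29097e4a82fcc45) b52699 (.hit (nat_lit 29) (nat_lit 69) (nat_lit 0x1780002f00005fa992bf1de57e3122fca71) b52700 (.nil))) (.tok (nat_lit 23) (nat_lit 0x1780002f00005ff94ec0397d8067db0050f) (.hit (nat_lit 30) (nat_lit 70) (nat_lit 0x1780002f00005ff94ec0397d8067db0050f) b52697 (.hit (nat_lit 31) (nat_lit 71) (nat_lit 0x1780002f00005faf56bf286d7e566afcd6a) b52698 (.nil))) (.one (nat_lit 26) (nat_lit 32) (nat_lit 72) (nat_lit 0x1780002f00005f9bbcbefe757e02bafc2f6) b52701 (.one (nat_lit 29) (nat_lit 33) (nat_lit 73) (nat_lit 0x1780002f00005fa640bf18a57e34fafd13f) b52702 (.one (nat_lit 32) (nat_lit 34) (nat_lit 74) (nat_lit 0x1780002f00005fbb54bf19157e3522fd227)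 b52704 (.one (nat_lit 35) (nat_lit 35) (nat_lit 75) (nat_lit 0x1780002f00005f8c4ebee7157dca92fbc09) b52703 (.one (nat_lit 38) (nat_lit 36) (nat_lit 76) (nat_lit 0x1780002f00005fa66cbf31517e5b12fce57) b52705 (.tok (nat_lit 41) (nat_lit 0x1780002f00005f9e52bf2f0d7e61d2fd012) (.hit (nat_lit 37) (nat_lit 77) (nat_lit 0x1780002f00005f91b4bee5ed7dcb22fc86a) b52706 (.hit (nat_lit 38) (nat_lit 78) (nat_lit 0x1780002f00005f9e52bf2f0d7e61d2fd012) b52707 (.nil))) (.tok (nat_lit 44) (nat_lit 0x1780002f00005fd094bf40d17e7dbafdcf7) (.hit (nat_lit 39) (nat_lit 79) (nat_lit 0x1780002f00005f43debf0b657e0f3afc4dc) b52710 (.hit (nat_lit 40) (nat_lit 80) (nat_lit 0x1780002f00005fd094bf40d17e7dbafdcf7) b52711 (.nil))) (.tok (nat_lit 47) (nat_lit 0x1780002f00005fbd22bf3db57e54dafdc59) (.hit (nat_lit 41) (nat_lit 81) (nat_lit 0x1780002f00005fbd22bf3db57e54dafdc59) b52708 (.hit (nat_lit 42) (nat_lit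 82) (nat_lit 0x1780002f00005fa5a6bef0c97dea62fc83d) b52709 (.nil))) (.one (nat_lit 62) (nat_lit 52) (nat_lit 92) (nat_lit 0x1780002f00005fb908bf23ad7e4dd2fd15b) b52712 (.tok (nat_lit 65) (nat_lit 0x1780002f00005fcef4bf77917f1112fe7e9) (.hit (nat_lit 53) (nat_lit 93) (nat_lit 0x1780002f00005fcef4bf77917f1112fe7e9) b52713 (.hit (nat_lit 54) (nat_lit 94) (nat_lit 0x1780002f00005fb6d8bf31ed7e694afd4f6) b52714 (.nil))) (.tok (nat_lit 68) (nat_lit 0x1780002f00005fd95cbfce617f7aaafe937) (.hit (nat_lit 55) (nat_lit 95) (nat_lit 0x1780002f00005fd2e0bf99917f19dafe2fc) b52715 (.one (nat_lit 3) (nat_lit 59) (nat_lit 99) (nat_lit 0x1780002f00005fb9e4bf744d7ecb82fd22c) b52719 (.one (nat_lit 6) (nat_lit 56) (nat_lit 96) (nat_lit 0x1780002f00005fd95cbfce617f7aaafe937) b52716 (.tok (nat_lit 9) (nat_lit 0x1780002f00005fd2c6bf6c617ed8d2fe559) (.hit (nat_lit 57) (nat_lit 97) (nat_lit 0x1780002f00005fd2c6bf6c617ed8d2fe559)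 b52717 (.hit (nat_lit 58) (nat_lit 98) (nat_lit 0x1780002f00005fc6f8bf3a6d7e7622fda45) b52718 (.nil))) (.nil))))) (.one (nat_lit 71) (nat_lit 60) (nat_lit 100) (nat_lit 0x1780002f00005fada0bf0afd7e1b62fcab5) b52720 (.nil)))))))))))))))))) (.tok (nat_lit 64) (nat_lit 0x1780002f000060022ec050bd8047e300d18) (.hit (nat_lit 176) (nat_lit 0) (nat_lit 0x1780002f000060022ec050bd8047e300d18) b52721 (.tok (nat_lit 6) (nat_lit 0x1780002f00005fd404bfcf517f5b3aff7bc) (.hit (nat_lit 177) (nat_lit 7) (nat_lit 0x1780002f00005facd4bf9d257f333afe8c6) b52724 (.hit (nat_lit 178) (nat_lit 15) (nat_lit 0x1780002f00005fd404bfcf517f5b3aff7bc) b52725 (.nil))) (.tok (nat_lit 9) (nat_lit 0x1780002f00005fda62bff2497f9d8affdf8) (.hit (nat_lit 179) (nat_lit 20) (nat_lit 0x1780002f00005fda62bff2497f9d8affdf8) b52722 (.hit (nat_lit 180) (nat_lit 28) (nat_lit 0x1780002f00005fb8a0bfabad7f167afee4e) b52723 (.nil)))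 (.nil)))) (.tok (nat_lit 67) (nat_lit 0x1780002f00005fcc0cbfdb957fb01aff862) (.hit (nat_lit 201) (nat_lit 0) (nat_lit 0x1780002f00005fc780bfa8997f44f2feafd) b52726 (.tok (nat_lit 3) (nat_lit 0x1780002f00005fba10bfb79d7f682afef64) (.hit (nat_lit 202) (nat_lit 1) (nat_lit 0x1780002f00005f8cc8bf5d0d7eb30afd8c0) b52727 (.one (nat_lit 55) (nat_lit 203) (nat_lit 3) (nat_lit 0x1780002f00005fba10bfb79d7f682afef64) b52728 (.nil))) (.tok (nat_lit 9) (nat_lit 0x1780002f00005fcc0cbfdb957fb01aff862) (.hit (nat_lit 204) (nat_lit 20) (nat_lit 0x1780002f00005fa1d2bf87217f0732fe345) b52729 (.hit (nat_lit 207) (nat_lit 28) (nat_lit 0x1780002f00005f8e74bf60657eb9bafd996) b52732 (.tok (nat_lit 67) (nat_lit 0x1780002f00005fcc0cbfdb957fb01aff862) (.hit (nat_lit 205) (nat_lit 21) (nat_lit 0x1780002f00005fbfa2bfc2c17f7e72ff22d) b52730 (.hit (nat_lit 208) (nat_lit 29) (nat_lit 0x1780002f00005fbf6ebfc2597f7da2ff213)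 b52733 (.one (nat_lit 9) (nat_lit 206) (nat_lit 22) (nat_lit 0x1780002f00005fcc0cbfdb957fb01aff862) b52731 (.nil)))) (.nil)))) (.nil)))) (.tok (nat_lit 70) (nat_lit 0x1780002f00005fd11ebfe35d7fbfaaffa54) (.hit (nat_lit 187) (nat_lit 0) (nat_lit 0x1780002f00005fd11ebfd9497f854afefa2) b52734 (.tok (nat_lit 3) (nat_lit 0x1780002f00005fcff0bfe35d7fbfaaffa54) (.hit (nat_lit 188) (nat_lit 1) (nat_lit 0x1780002f00005f9cc2bf7d017ef2f2fe0bd) b52735 (.one (nat_lit 67) (nat_lit 189) (nat_lit 2) (nat_lit 0x1780002f00005fcff0bfe35d7fbfaaffa54) b52736 (.nil))) (.tok (nat_lit 6) (nat_lit 0x1780002f00005fa102bf85817f03f2fe2dd) (.hit (nat_lit 190) (nat_lit 7) (nat_lit 0x1780002f00005fa0a8bf84cd7f028afe2b0) b52737 (.hit (nat_lit 193) (nat_lit 15) (nat_lit 0x1780002f00005fa102bf85817f03f2fe2dd) b52738 (.nil))) (.nil)))) (.nil))))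
noncomputable def r73_16 : Rw Blk := .tok (nat_lit 3) (nat_lit 0x1780002f0000601ecec04a4980f7db01ac4) (.hit (nat_lit 15) (nat_lit 0) (nat_lit 0x1780002f00005fffb8bfd6617fdb7300d49) b52754 (.tok (nat_lit 6) (nat_lit 0x1780002f00005fdf50bfa5517f67a2ff59a) (.hit (nat_lit 16) (nat_lit 7) (nat_lit 0x1780002f00005f79dcbf20597e5db2fd286) b52755 (.hit (nat_lit 21) (nat_lit 15) (nat_lit 0x1780002f00005f9898bef25d7e01bafe527) b52758 (.tok (nat_lit 14) (nat_lit 0x1780002f00005fc004bf90357f3d6aff59a) (.hit (nat_lit 17) (nat_lit 11) (nat_lit 0x1780002f00005f9c84bf4dc97eb892fe3da) b52756 (.hit (nat_lit 22) (nat_lit 17) (nat_lit 0x1780002f00005faf96bf90357f3d6aff3f9) b52759 (.one (nat_lit 9) (nat_lit 18) (nat_lit 12) (nat_lit 0x1780002f00005fc004bf5c657ed5caff59a) b52757 (.nil)))) (.one (nat_lit 68) (nat_lit 23) (nat_lit 18) (nat_lit 0x1780002f00005fdf50bfa5517f67a2ff061) b52760 (.nil))))) (.tok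 (nat_lit 52) (nat_lit 0x1780002f00005fcde0bfadb17f7862ffa97) (.hit (nat_lit 25) (nat_lit 39) (nat_lit 0x1780002f00005fc3b4bf8c457f358afedab) b52761 (.hit (nat_lit 26) (nat_lit 40) (nat_lit 0x1780002f00005fcde0bfadb17f7862ffa97) b52762 (.nil))) (.tok (nat_lit 55) (nat_lit 0x1780002f0000601ecec04a4980f7db01ac4) (.hit (nat_lit 27) (nat_lit 41) (nat_lit 0x1780002f0000601ecec04a4980f7db01ac4) b52763 (.tok (nat_lit 3) (nat_lit 0x1780002f00005fd750bfa1c97f609300140) (.hit (nat_lit 33) (nat_lit 47) (nat_lit 0x1780002f00005fb16ebf81097f1f12fee4f) b52766 (.one (nat_lit 67) (nat_lit 34) (nat_lit 48) (nat_lit 0x1780002f00005fd750bfa1c97f609300140) b52767 (.nil))) (.tok (nat_lit 6) (nat_lit 0x1780002f00005fb342bf8c057f350afef39) (.hit (nat_lit 28) (nat_lit 42) (nat_lit 0x1780002f00005fb342bf8c057f350afef39) b52764 (.hit (nat_lit 31) (nat_lit 45) (nat_lit 0x1780002f00005fac7ebf70917efe22febd7)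 b52765 (.nil))) (.nil)))) (.one (nat_lit 58) (nat_lit 35) (nat_lit 49) (nat_lit 0x1780002f00006016ccbfdb857fd40b0178d) b52768 (.nil)))))) (.tok (nat_lit 9) (nat_lit 0x1780002f0000606772c1554d82aefb0536d) (.hit (nat_lit 0) (nat_lit 0) (nat_lit 0x1780002f000060032ec03f1180686300ed5) b52739 (.tok (nat_lit 9) (nat_lit 0x1780002f0000601634c08ad181120301f13) (.hit (nat_lit 1) (nat_lit 20) (nat_lit 0x1780002f00005fa27abf983d7f17a2fdf91) b52740 (.hit (nat_lit 4) (nat_lit 28) (nat_lit 0x1780002f00005fb520bfb5217f4032fe89d) b52743 (.tok (nat_lit 14) (nat_lit 0x1780002f0000601634c08ad181120301f13) (.hit (nat_lit 2) (nat_lit 24) (nat_lit 0x1780002f00005fcf7abfd3cd7f934aff5b0) b52741 (.hit (nat_lit 5) (nat_lit 30) (nat_lit 0x1780002f00005fe7f6c00d417ffd42ffc3e) b52744 (.one (nat_lit 6) (nat_lit 3) (nat_lit 25) (nat_lit 0x1780002f0000601634c08ad181120301f13) b52742 (.nil)))) (.one (nat_lit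 56) (nat_lit 6) (nat_lit 31) (nat_lit 0x1780002f0000600700c0782580e08b011b2) b52745 (.nil))))) (.tok (nat_lit 64) (nat_lit 0x1780002f000060651ac12061825e33044b8) (.hit (nat_lit 7) (nat_lit 50) (nat_lit 0x1780002f000060651ac12061825e33044b8) b52746 (.hit (nat_lit 8) (nat_lit 51) (nat_lit 0x1780002f00006017aec024a1804cb300b70) b52747 (.nil))) (.tok (nat_lit 67) (nat_lit 0x1780002f0000606772c1554d82aefb0536d) (.hit (nat_lit 9) (nat_lit 52) (nat_lit 0x1780002f00006048c8c0e30181ca1b0322e) b52748 (.tok (nat_lit 3) (nat_lit 0x1780002f00005fff24c066d180dd0301384) (.hit (nat_lit 12) (nat_lit 58) (nat_lit 0x1780002f00005fe554c066d180dd0300ce4) b52751 (.one (nat_lit 55) (nat_lit 13) (nat_lit 59) (nat_lit 0x1780002f00005fff24c0652d80ba0b01384) b52752 (.nil))) (.tok (nat_lit 9) (nat_lit 0x1780002f0000606772c1554d82aefb0536d) (.hit (nat_lit 10) (nat_lit 53) (nat_lit 0x1780002f0000606772c1554d82aefb0536d)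 b52749 (.hit (nat_lit 11) (nat_lit 56) (nat_lit 0x1780002f00005fee3abfd9897fb742ffc13) b52750 (.nil))) (.nil)))) (.one (nat_lit 70) (nat_lit 14) (nat_lit 60) (nat_lit 0x1780002f0000605fe4c12d5582546304450) b52753 (.nil)))))) (.nil))
noncomputable def r73_17 : Rw Blk := .tok (nat_lit 9) (nat_lit 0x5e0000bc00018212cb05901) (.hit (nat_lit 0) (nat_lit 0) (nat_lit 0x5e0000bc00017f9f4300e1e) b52769 (.tok (nat_lit 14) (nat_lit 0x5e0000bc000181678303314) (.hit (nat_lit 1) (nat_lit 61) (nat_lit 0x5e0000bc0001801e2300961) b52770 (.one (nat_lit 3) (nat_lit 2) (nat_lit 62) (nat_lit 0x5e0000bc000180611300daa) b52771 (.tok (nat_lit 6) (nat_lit 0x5e0000bc000181678303314) (.hit (nat_lit 5) (nat_lit 65) (nat_lit 0x5e0000bc000181678303314) b52772 (.hit (nat_lit 6) (nat_lit 66) (nat_lit 0x5e0000bc00017f937b00169) b52773 (.nil))) (.tok (nat_lit 9) (nat_lit 0x5e0000bc00017f5d12ffb50) (.hit (nat_lit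 3) (nat_lit 63) (nat_lit 0x5e0000bc00017f5d12ffac4) b52774 (.hit (nat_lit 4) (nat_lit 64) (nat_lit 0x5e0000bc00017f13d2ffb50) b52775 (.nil))) (.nil))))) (.one (nat_lit 17) (nat_lit 7) (nat_lit 67) (nat_lit 0x5e0000bc00017f7cf2ff3bb) b52776 (.tok (nat_lit 20) (nat_lit 0x5e0000bc00017f4432ff7d4) (.hit (nat_lit 8) (nat_lit 68) (nat_lit 0x5e0000bc00017f0b2aff087) b52779 (.hit (nat_lit 9) (nat_lit 69) (nat_lit 0x5e0000bc00017f4432ff7d4) b52780 (.nil))) (.tok (nat_lit 23) (nat_lit 0x5e0000bc00018212cb05901) (.hit (nat_lit 10) (nat_lit 70) (nat_lit 0x5e0000bc00018212cb05901) b52777 (.hit (nat_lit 11) (nat_lit 71) (nat_lit 0x5e0000bc00017f5322fede7) b52778 (.nil))) (.one (nat_lit 26) (nat_lit 12) (nat_lit 72) (nat_lit 0x5e0000bc00017f8a92ff236) b52781 (.one (nat_lit 29) (nat_lit 13) (nat_lit 73) (nat_lit 0x5e0000bc00017fbaf2ff884) b52782 (.one (nat_lit 32) (nat_lit 14) (nat_lit 74) (nat_lit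 0x5e0000bc00017f969aff66c) b52784 (.one (nat_lit 35) (nat_lit 15) (nat_lit 75) (nat_lit 0x5e0000bc00017ee9bafe665) b52783 (.one (nat_lit 50) (nat_lit 23) (nat_lit 83) (nat_lit 0x5e0000bc00017fcd02ffb17) b52785 (.tok (nat_lit 53) (nat_lit 0x5e0000bc00017f2cfaff3f5) (.hit (nat_lit 24) (nat_lit 84) (nat_lit 0x5e0000bc00017f1c9aff0a8) b52786 (.hit (nat_lit 25) (nat_lit 85) (nat_lit 0x5e0000bc00017f2cfaff3f5) b52787 (.nil))) (.tok (nat_lit 56) (nat_lit 0x5e0000bc00018071b301fc7) (.hit (nat_lit 26) (nat_lit 86) (nat_lit 0x5e0000bc00018071b301fc7) b52788 (.one (nat_lit 3) (nat_lit 30) (nat_lit 90) (nat_lit 0x5e0000bc00017f4b4aff88b) b52792 (.tok (nat_lit 6) (nat_lit 0x5e0000bc00017f3812ff624) (.hit (nat_lit 28) (nat_lit 88) (nat_lit 0x5e0000bc00017f3812ff624) b52790 (.hit (nat_lit 29) (nat_lit 89) (nat_lit 0x5e0000bc00017edd02feac2) b52791 (.nil))) (.one (nat_lit 9) (nat_lit 27) (nat_lit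 87) (nat_lit 0x5e0000bc00017f24b2ff3b8) b52789 (.nil))))) (.one (nat_lit 59) (nat_lit 31) (nat_lit 91) (nat_lit 0x5e0000bc00017f3f4afec75) b52793 (.nil)))))))))))))) (.tok (nat_lit 64) (nat_lit 0x5e0000bc0001817b6303ebe) (.hit (nat_lit 45) (nat_lit 0) (nat_lit 0x5e0000bc0001817b6303ebe) b52807 (.tok (nat_lit 6) (nat_lit 0x5e0000bc00017fe76b008a5) (.hit (nat_lit 46) (nat_lit 7) (nat_lit 0x5e0000bc00017f67a2ffe64) b52810 (.hit (nat_lit 47) (nat_lit 15) (nat_lit 0x5e0000bc00017fe76b008a5) b52811 (.nil))) (.tok (nat_lit 9) (nat_lit 0x5e0000bc0001812adb03751) (.hit (nat_lit 48) (nat_lit 20) (nat_lit 0x5e0000bc0001812adb0357b) b52808 (.hit (nat_lit 49) (nat_lit 28) (nat_lit 0x5e0000bc000180dbeb03751) b52809 (.nil))) (.nil)))) (.tok (nat_lit 67) (nat_lit 0x5e0000bc00018064a301e04) (.hit (nat_lit 40) (nat_lit 0) (nat_lit 0x5e0000bc00018042930108d) b52802 (.tok (nat_lit 3) (nat_lit 0x5e0000bc0001803f9b01963)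 (.hit (nat_lit 41) (nat_lit 1) (nat_lit 0x5e0000bc00017fc9eb00aad) b52803 (.one (nat_lit 55) (nat_lit 42) (nat_lit 3) (nat_lit 0x5e0000bc0001803f9b01963) b52804 (.nil))) (.tok (nat_lit 9) (nat_lit 0x5e0000bc00018064a301e04) (.hit (nat_lit 43) (nat_lit 20) (nat_lit 0x5e0000bc00018064a301e04) b52805 (.hit (nat_lit 44) (nat_lit 28) (nat_lit 0x5e0000bc00017f7de30012c) b52806 (.nil))) (.nil)))) (.tok (nat_lit 70) (nat_lit 0x5e0000bc0001810d4b03319) (.hit (nat_lit 32) (nat_lit 0) (nat_lit 0x5e0000bc00018084db024b8) b52794 (.tok (nat_lit 3) (nat_lit 0x5e0000bc0001810d4b03319) (.hit (nat_lit 33) (nat_lit 1) (nat_lit 0x5e0000bc000180739b01fe3) b52795 (.one (nat_lit 67) (nat_lit 34) (nat_lit 2) (nat_lit 0x5e0000bc0001810d4b03319) b52796 (.nil))) (.tok (nat_lit 6) (nat_lit 0x5e0000bc00018102cb031c9) (.hit (nat_lit 35) (nat_lit 7) (nat_lit 0x5e0000bc0001809a5b024bb) b52797 (.hit (nat_lit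 38) (nat_lit 15) (nat_lit 0x5e0000bc00018057eb01c6d) b52800 (.tok (nat_lit 55) (nat_lit 0x5e0000bc00018102cb031c9) (.hit (nat_lit 36) (nat_lit 8) (nat_lit 0x5e0000bc000180cf7b02b5f) b52798 (.hit (nat_lit 39) (nat_lit 16) (nat_lit 0x5e0000bc000180f6bb03047) b52801 (.one (nat_lit 6) (nat_lit 37) (nat_lit 9) (nat_lit 0x5e0000bc00018102cb031c9) b52799 (.nil)))) (.nil)))) (.nil)))) (.nil))))
noncomputable def r73_18 : Rw Blk := .tok (nat_lit 3) (nat_lit 0x5e0000bc000181c61b0389b) (.hit (nat_lit 0) (nat_lit 0) (nat_lit 0x5e0000bc000181c61b034d9) b52812 (.tok (nat_lit 6) (nat_lit 0x5e0000bc0001811acb02717) (.hit (nat_lit 1) (nat_lit 7) (nat_lit 0x5e0000bc00017f985aff6c9) b52813 (.hit (nat_lit 6) (nat_lit 15) (nat_lit 0x5e0000bc00017fc47affc4d) b52816 (.tok (nat_lit 56) (nat_lit 0x5e0000bc0001811acb02717) (.hit (nat_lit 4) (nat_lit 13) (nat_lit 0x5e0000bc0001802c3b00945) b52814 (.hit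 (nat_lit 8) (nat_lit 19) (nat_lit 0x5e0000bc000180c06301bca) b52817 (.one (nat_lit 6) (nat_lit 5) (nat_lit 14) (nat_lit 0x5e0000bc0001811acb02717) b52815 (.nil)))) (.nil)))) (.tok (nat_lit 52) (nat_lit 0x5e0000bc00018140a302bd2) (.hit (nat_lit 9) (nat_lit 39) (nat_lit 0x5e0000bc000181165b02689) b52818 (.hit (nat_lit 10) (nat_lit 40) (nat_lit 0x5e0000bc00018140a302bd2) b52819 (.nil))) (.tok (nat_lit 55) (nat_lit 0x5e0000bc000181b5ab0389b) (.hit (nat_lit 11) (nat_lit 41) (nat_lit 0x5e0000bc000181b5ab0389b) b52820 (.one (nat_lit 3) (nat_lit 17) (nat_lit 47) (nat_lit 0x5e0000bc000180d3ab01e33) b52826 (.tok (nat_lit 6) (nat_lit 0x5e0000bc000180eaf30211c) (.hit (nat_lit 12) (nat_lit 42) (nat_lit 0x5e0000bc000180aaeb0191b) b52821 (.hit (nat_lit 15) (nat_lit 45) (nat_lit 0x5e0000bc000180a31301820) b52824 (.tok (nat_lit 55) (nat_lit 0x5e0000bc000180eaf30211c) (.hit (nat_lit 13) (nat_lit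 43) (nat_lit 0x5e0000bc000180d04b01dc7) b52822 (.hit (nat_lit 16) (nat_lit 46) (nat_lit 0x5e0000bc000180eaf30211c) b52825 (.one (nat_lit 6) (nat_lit 14) (nat_lit 44) (nat_lit 0x5e0000bc000180a7030189e) b52823 (.nil)))) (.nil)))) (.nil)))) (.one (nat_lit 58) (nat_lit 19) (nat_lit 49) (nat_lit 0x5e0000bc000180f6eb0229b) b52827 (.nil)))))) (.tok (nat_lit 9) (nat_lit 0x5e0000bc000182542b05100) (.hit (nat_lit 20) (nat_lit 0) (nat_lit 0x5e0000bc000182542b05100) b52828 (.tok (nat_lit 9) (nat_lit 0x5e0000bc00018223db04903) (.hit (nat_lit 21) (nat_lit 20) (nat_lit 0x5e0000bc00018194eb033e9) b52829 (.hit (nat_lit 24) (nat_lit 28) (nat_lit 0x5e0000bc0001815623038cb) b52830 (.one (nat_lit 56) (nat_lit 26) (nat_lit 31) (nat_lit 0x5e0000bc00018223db04903) b52831 (.nil)))) (.nil))) (.nil))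
noncomputable def r73_19 : Rw Blk := .tok (nat_lit 9) (nat_lit 0x5e0000bc000180000300355) (.hit (nat_lit 0) (nat_lit 0) (nat_lit 0x5e0000bc00017ebddafe08a) b52832 (.tok (nat_lit 14) (nat_lit 0x5e0000bc000180000300355) (.hit (nat_lit 21) (nat_lit 61) (nat_lit 0x5e0000bc00017f8e02feac8) b52833 (.one (nat_lit 3) (nat_lit 22) (nat_lit 62) (nat_lit 0x5e0000bc00017f22b2fe0f3) b52834 (.tok (nat_lit 6) (nat_lit 0x5e0000bc000180000300355) (.hit (nat_lit 25) (nat_lit 65) (nat_lit 0x5e0000bc000180000300355) b52835 (.hit (nat_lit 26) (nat_lit 66) (nat_lit 0x5e0000bc00017f4a5afe8ad) b52836 (.nil))) (.tok (nat_lit 9) (nat_lit 0x5e0000bc00017f2662feb59) (.hit (nat_lit 23) (nat_lit 63) (nat_lit 0x5e0000bc00017e9022fe814) b52837 (.hit (nat_lit 24) (nat_lit 64) (nat_lit 0x5e0000bc00017f2662feb59) b52838 (.nil))) (.nil))))) (.one (nat_lit 17) (nat_lit 27) (nat_lit 67) (nat_lit 0x5e0000bc00017ed372fd662)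 b52839 (.tok (nat_lit 20) (nat_lit 0x5e0000bc00017ed222fe095) (.hit (nat_lit 28) (nat_lit 68) (nat_lit 0x5e0000bc00017e542afe095) b52842 (.hit (nat_lit 29) (nat_lit 69) (nat_lit 0x5e0000bc00017ed222fd4ce) b52843 (.nil))) (.tok (nat_lit 23) (nat_lit 0x5e0000bc00017f1b92fe88c) (.hit (nat_lit 30) (nat_lit 70) (nat_lit 0x5e0000bc00017f1b92fe88c) b52840 (.hit (nat_lit 31) (nat_lit 71) (nat_lit 0x5e0000bc00017eba02fd4d0) b52841 (.nil))) (.one (nat_lit 26) (nat_lit 32) (nat_lit 72) (nat_lit 0x5e0000bc00017e96d2fc5b3) b52844 (.one (nat_lit 29) (nat_lit 33) (nat_lit 73) (nat_lit 0x5e0000bc00017e897afc604) b52845 (.one (nat_lit 32) (nat_lit 34) (nat_lit 74) (nat_lit 0x5e0000bc00017ec562fcb78) b52847 (.one (nat_lit 35) (nat_lit 35) (nat_lit 75) (nat_lit 0x5e0000bc00017e493afc84d) b52846 (.one (nat_lit 38) (nat_lit 36) (nat_lit 76) (nat_lit 0x5e0000bc00017eb12afd6a2) b52848 (.tok (nat_lit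 41) (nat_lit 0x5e0000bc00017e9e3afcdad) (.hit (nat_lit 37) (nat_lit 77) (nat_lit 0x5e0000bc00017e9e3afc8ab) b52849 (.hit (nat_lit 38) (nat_lit 78) (nat_lit 0x5e0000bc00017e85aafcdad) b52850 (.nil))) (.tok (nat_lit 44) (nat_lit 0x5e0000bc00017edb8afce3b) (.hit (nat_lit 39) (nat_lit 79) (nat_lit 0x5e0000bc00017d41cafbe49) b52853 (.hit (nat_lit 40) (nat_lit 80) (nat_lit 0x5e0000bc00017edb8afce3b) b52854 (.nil))) (.tok (nat_lit 47) (nat_lit 0x5e0000bc00017eea6afd127) (.hit (nat_lit 41) (nat_lit 81) (nat_lit 0x5e0000bc00017eea6afd127) b52851 (.hit (nat_lit 42) (nat_lit 82) (nat_lit 0x5e0000bc00017ea65afca8c) b52852 (.nil))) (.one (nat_lit 62) (nat_lit 52) (nat_lit 92) (nat_lit 0x5e0000bc00017f01c2fd2fe) b52855 (.tok (nat_lit 65) (nat_lit 0x5e0000bc00017f110afe15c) (.hit (nat_lit 53) (nat_lit 93) (nat_lit 0x5e0000bc00017f110afe15c) b52856 (.hit (nat_lit 54) (nat_lit 94) (nat_lit 0x5e0000bc00017eed6afd0e7)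 b52857 (.nil))) (.tok (nat_lit 68) (nat_lit 0x5e0000bc00017fc1aaff16a) (.hit (nat_lit 55) (nat_lit 95) (nat_lit 0x5e0000bc00017f7efafed65) b52858 (.one (nat_lit 3) (nat_lit 59) (nat_lit 99) (nat_lit 0x5e0000bc00017f2a92fda8e) b52862 (.one (nat_lit 6) (nat_lit 56) (nat_lit 96) (nat_lit 0x5e0000bc00017fa692fefdd) b52859 (.tok (nat_lit 9) (nat_lit 0x5e0000bc00017fc1aaff16a) (.hit (nat_lit 57) (nat_lit 97) (nat_lit 0x5e0000bc00017fc1aaff16a) b52860 (.hit (nat_lit 58) (nat_lit 98) (nat_lit 0x5e0000bc00017f2212fd960) b52861 (.nil))) (.nil))))) (.one (nat_lit 71) (nat_lit 60) (nat_lit 100) (nat_lit 0x5e0000bc00017ec4dafcb5f) b52863 (.nil)))))))))))))))))) (.tok (nat_lit 64) (nat_lit 0x5e0000bc00017fba3300c09) (.hit (nat_lit 176) (nat_lit 0) (nat_lit 0x5e0000bc00017faae300c09) b52864 (.tok (nat_lit 6) (nat_lit 0x5e0000bc00017f7b02ffde4) (.hit (nat_lit 177) (nat_lit 7) (nat_lit 0x5e0000bc00017f090aff805)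 b52867 (.hit (nat_lit 178) (nat_lit 15) (nat_lit 0x5e0000bc00017f7b02ffde4) b52868 (.nil))) (.tok (nat_lit 9) (nat_lit 0x5e0000bc00017fba3300b04) (.hit (nat_lit 179) (nat_lit 20) (nat_lit 0x5e0000bc00017fba3300b04) b52865 (.hit (nat_lit 180) (nat_lit 28) (nat_lit 0x5e0000bc00017f392affb51) b52866 (.nil))) (.nil)))) (.tok (nat_lit 67) (nat_lit 0x5e0000bc00017fd4130078c) (.hit (nat_lit 201) (nat_lit 0) (nat_lit 0x5e0000bc00017fd412ffb15) b52869 (.tok (nat_lit 3) (nat_lit 0x5e0000bc00017f3bc2ffe5c) (.hit (nat_lit 202) (nat_lit 1) (nat_lit 0x5e0000bc00017ed19aff117) b52870 (.one (nat_lit 55) (nat_lit 203) (nat_lit 3) (nat_lit 0x5e0000bc00017f3bc2ffe5c) b52871 (.nil))) (.tok (nat_lit 9) (nat_lit 0x5e0000bc00017f85430078c) (.hit (nat_lit 204) (nat_lit 20) (nat_lit 0x5e0000bc00017eb892fedf6) b52872 (.hit (nat_lit 207) (nat_lit 28) (nat_lit 0x5e0000bc00017ed232ff12a) b52875 (.tok (nat_lit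 67) (nat_lit 0x5e0000bc00017f85430078c) (.hit (nat_lit 205) (nat_lit 21) (nat_lit 0x5e0000bc00017f348affd75) b52873 (.hit (nat_lit 208) (nat_lit 29) (nat_lit 0x5e0000bc00017f49e300020) b52876 (.one (nat_lit 9) (nat_lit 206) (nat_lit 22) (nat_lit 0x5e0000bc00017f85430078c) b52874 (.nil)))) (.nil)))) (.nil)))) (.tok (nat_lit 70) (nat_lit 0x5e0000bc00017f9f3300aca) (.hit (nat_lit 187) (nat_lit 0) (nat_lit 0x5e0000bc00017f6bd2ff85d) b52877 (.tok (nat_lit 3) (nat_lit 0x5e0000bc00017f9f3300aca) (.hit (nat_lit 188) (nat_lit 1) (nat_lit 0x5e0000bc00017edafaff243) b52878 (.one (nat_lit 67) (nat_lit 189) (nat_lit 2) (nat_lit 0x5e0000bc00017f9f3300aca) b52879 (.nil))) (.tok (nat_lit 6) (nat_lit 0x5e0000bc00017f15e2ff9a0) (.hit (nat_lit 190) (nat_lit 7) (nat_lit 0x5e0000bc00017f15e2ff9a0) b52880 (.hit (nat_lit 193) (nat_lit 15) (nat_lit 0x5e0000bc00017ecb9aff057) b52881 (.nil))) (.nil))))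 (.nil))))
noncomputable def r73_20 : Rw Blk := .tok (nat_lit 3) (nat_lit 0x5e0000bc000180a12b0224c) (.hit (nat_lit 15) (nat_lit 0) (nat_lit 0x5e0000bc00017f0562fecfc) b52897 (.tok (nat_lit 6) (nat_lit 0x5e0000bc00017e77a2fdee9) (.hit (nat_lit 16) (nat_lit 7) (nat_lit 0x5e0000bc00017dfbcafcf6e) b52898 (.hit (nat_lit 21) (nat_lit 15) (nat_lit 0x5e0000bc00017cf602faeb5) b52901 (.tok (nat_lit 14) (nat_lit 0x5e0000bc00017e77a2fdee9) (.hit (nat_lit 17) (nat_lit 11) (nat_lit 0x5e0000bc00017e39a2fd729) b52899 (.hit (nat_lit 22) (nat_lit 17) (nat_lit 0x5e0000bc00017e327afd644) b52902 (.one (nat_lit 9) (nat_lit 18) (nat_lit 12) (nat_lit 0x5e0000bc00017e77a2fdee9) b52900 (.nil)))) (.one (nat_lit 68) (nat_lit 23) (nat_lit 18) (nat_lit 0x5e0000bc00017e3dc2fd7ad) b52903 (.nil))))) (.tok (nat_lit 52) (nat_lit 0x5e0000bc00017e8cd2fe18f) (.hit (nat_lit 25) (nat_lit 39) (nat_lit 0x5e0000bc00017e8cd2fe18f)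 b52904 (.hit (nat_lit 26) (nat_lit 40) (nat_lit 0x5e0000bc00017e699afdd28) b52905 (.nil))) (.tok (nat_lit 55) (nat_lit 0x5e0000bc000180a12b0224c) (.hit (nat_lit 27) (nat_lit 41) (nat_lit 0x5e0000bc000180a12b0224c) b52906 (.tok (nat_lit 3) (nat_lit 0x5e0000bc00017ee902fed15) (.hit (nat_lit 33) (nat_lit 47) (nat_lit 0x5e0000bc00017ec5fafe8b4) b52909 (.one (nat_lit 67) (nat_lit 34) (nat_lit 48) (nat_lit 0x5e0000bc00017ee902fed15) b52910 (.nil))) (.tok (nat_lit 6) (nat_lit 0x5e0000bc00017e787afdf04) (.hit (nat_lit 28) (nat_lit 42) (nat_lit 0x5e0000bc00017e787afdf04) b52907 (.hit (nat_lit 31) (nat_lit 45) (nat_lit 0x5e0000bc00017e63eafdc72) b52908 (.nil))) (.nil)))) (.one (nat_lit 58) (nat_lit 35) (nat_lit 49) (nat_lit 0x5e0000bc00017ee882fed05) b52911 (.nil)))))) (.tok (nat_lit 9) (nat_lit 0x5e0000bc0001813f6b02e9d) (.hit (nat_lit 0) (nat_lit 0) (nat_lit 0x5e0000bc00017f6072ff540)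 b52882 (.tok (nat_lit 9) (nat_lit 0x5e0000bc0001800ee30036d) (.hit (nat_lit 1) (nat_lit 20) (nat_lit 0x5e0000bc00017f0cbafeb62) b52883 (.hit (nat_lit 4) (nat_lit 28) (nat_lit 0x5e0000bc00017e4db2fcfd7) b52886 (.tok (nat_lit 14) (nat_lit 0x5e0000bc0001800ee30036d) (.hit (nat_lit 2) (nat_lit 24) (nat_lit 0x5e0000bc0001800ee30036d) b52884 (.hit (nat_lit 5) (nat_lit 30) (nat_lit 0x5e0000bc00017f0972fe26c) b52887 (.one (nat_lit 6) (nat_lit 3) (nat_lit 25) (nat_lit 0x5e0000bc00017fb89affe6e) b52885 (.nil)))) (.one (nat_lit 56) (nat_lit 6) (nat_lit 31) (nat_lit 0x5e0000bc00017f3ddafe8a3) b52888 (.nil))))) (.tok (nat_lit 64) (nat_lit 0x5e0000bc00017ffae3001af) (.hit (nat_lit 7) (nat_lit 50) (nat_lit 0x5e0000bc00017ffae3001af) b52889 (.hit (nat_lit 8) (nat_lit 51) (nat_lit 0x5e0000bc00017f4f1afeb4c) b52890 (.nil))) (.tok (nat_lit 67) (nat_lit 0x5e0000bc0001813f6b02e9d) (.hit (nat_lit 9)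 (nat_lit 52) (nat_lit 0x5e0000bc0001813f6b02e9d) b52891 (.tok (nat_lit 3) (nat_lit 0x5e0000bc0001808cf3010bb) (.hit (nat_lit 12) (nat_lit 58) (nat_lit 0x5e0000bc00017fc38afffc6) b52894 (.one (nat_lit 55) (nat_lit 13) (nat_lit 59) (nat_lit 0x5e0000bc0001808cf3010bb) b52895 (.nil))) (.tok (nat_lit 9) (nat_lit 0x5e0000bc000180203300753) (.hit (nat_lit 10) (nat_lit 53) (nat_lit 0x5e0000bc000180203300753) b52892 (.hit (nat_lit 11) (nat_lit 56) (nat_lit 0x5e0000bc00017fac6aff683) b52893 (.nil))) (.nil)))) (.one (nat_lit 70) (nat_lit 14) (nat_lit 60) (nat_lit 0x5e0000bc00017f0422ff29e) b52896 (.nil)))))) (.nil))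
noncomputable def r74_0 : Rw Blk := .tok (nat_lit 3) (nat_lit 0x17edb42fdaab5fd644bf63157f3c52fd4485fda72bf8cd97f641afe7fc5fc932bf8cb57f2812fe589) (.hit (nat_lit 0) (nat_lit 0) (nat_lit 0x17db5f2fc20d5f9146bf15c57dfeb2fc0e45f8d6abf24717e3b62fcea35f81c6bf23897e4a1afc7f4) b52913 (.tok (nat_lit 9) (nat_lit 0x17db23afbdc15fbf5cbf2f117e2a32fc6bf5f8f04bf27f57e75bafca9c5f8356bf62f57ec802fd7cf) (.hit (nat_lit 10) (nat_lit 20) (nat_lit 0x17d1a5afaac55f9b84bee3217d9252fb3c35f690cbedc057ddddafb7a05f5d5ebeb4d17d8632fc4db) b52914 (.hit (nat_lit 15) (nat_lit 28) (nat_lit 0x17d06e2fa8565f8498bed9657d7edafb1545f642ebed2497dca62fb5315f5880bf10617e2352fc547) b52917 (.tok (nat_lit 14) (nat_lit 0x17db23afbdc15fbf5cbf2f117e2a32fc6bf5f8f04bf27f57e75bafca9c5f8356bf3b1d7e7852fd607) (.hit (nat_lit 11) (nat_lit 24) (nat_lit 0x17d4f3afb1615faba2befd917dc732fba5f5f7644bef6757e12bafbe3c5f6a96becf417dbb12fc9c7)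 b52915 (.hit (nat_lit 16) (nat_lit 30) (nat_lit 0x17d4752fb0645f9700bef99d7dbf4afb9625f744abef2817e0ad2fbd3f5f689cbf3b1d7e7852fceb0) b52918 (.one (nat_lit 6) (nat_lit 12) (nat_lit 25) (nat_lit 0x17db23afbdc15fbf5cbf2f117e2a32fc6bf5f8f04bf27f57e75bafca9c5f8356bf00c17e1e12fd607) b52916 (.nil)))) (.one (nat_lit 56) (nat_lit 17) (nat_lit 31) (nat_lit 0x17db04afbd835faffcbf2e197e2842fc6815f8e88bf26fd7e73cafca5e5f82dabf62f57ec802fd7cf) b52919 (.nil))))) (.tok (nat_lit 64) (nat_lit 0x17d66d2fb4545fa7cebf095d7ddecafbd525f7c2abf02417e2a52fc12f5f707cbf3f357e88c2fcedf) (.hit (nat_lit 30) (nat_lit 50) (nat_lit 0x17d4d82fb12a5f8d50befcb57dc57afba285f75d6bef5997e1102fbe055f6a28bf3a0d7e7632fcd95) b52920 (.hit (nat_lit 31) (nat_lit 51) (nat_lit 0x17d66d2fb4545fa7cebf095d7ddecafbd525f7c2abf02417e2a52fc12f5f707cbf3f357e88c2fcedf) b52921 (.nil))) (.tok (nat_lit 67) (nat_lit 0x17edb42fdaab5fd644bf63157f3c52fd4485fda72bf8cd97f641afe7fc5fc932bf8cb57f2812fe589)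 (.hit (nat_lit 32) (nat_lit 52) (nat_lit 0x17edb42fdaab5fd294bf63157f3c52fd4485fda72bf8cd97f641afe7fc5fc932bf8cb57f2812fe589) b52922 (.tok (nat_lit 3) (nat_lit 0x17debcafc4f35fd644bf4bd97e63c2fcdf15f9d68bf44bd7eaf4afd1ce5f91babf24cd7e57a2fe450) (.hit (nat_lit 38) (nat_lit 58) (nat_lit 0x17dae92fbd4c5fbd5cbf2d3d7e268afc64a5f8e1abf26217e7212fca275f826cbf06c97e1a6afd986) b52925 (.one (nat_lit 55) (nat_lit 39) (nat_lit 59) (nat_lit 0x17debcafc4f35fd644bf4bd97e63c2fcdf15f9d68bf44bd7eaf4afd1ce5f91babf24cd7e57a2fe450) b52926 (.nil))) (.tok (nat_lit 9) (nat_lit 0x17e047afcdcf5fb70ebf5f597e9eeafd34c5f9868bf3abd7e9b4afcf4e5f8cbabf13897e43a2fd9e1) (.hit (nat_lit 33) (nat_lit 53) (nat_lit 0x17e047afcdcf5fb70ebf5f597e9eeafd34c5f9868bf3abd7e9b4afcf4e5f8cbabf13897e43a2fd9e1) b52923 (.hit (nat_lit 36) (nat_lit 56) (nat_lit 0x17db15afbda55fb4f6bf2ea17e2952fc6a35f8eccbf27857e74dafca805f831ebf00517e1d32fd79c)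 b52924 (.nil))) (.nil)))) (.one (nat_lit 70) (nat_lit 40) (nat_lit 60) (nat_lit 0x17da852fbc845fb546bf2a1d7e204afc5825f8c8abf23017e6bd2fc95f5f80dcbf7c0d7f0272fde15) b52927 (.nil)))))) (.tok (nat_lit 6) (nat_lit 0x180000300000600000c00001802f8300000600000c0000180000300000600db4c00001802a5b00000) (.hit (nat_lit 81) (nat_lit 0) (nat_lit 0x17e581afdc9f5fa902bf57997e855afd1545fb574bf619d7eccaafde3c5fac06bf57297e9dd2fd1ff) b52928 (.tok (nat_lit 6) (nat_lit 0x17f2b4aff8035fed1cbf9d597f4872fe7595fe52cbfcf2d7f8e5aff4755fd7b0bfb9e17f509afed72) (.hit (nat_lit 87) (nat_lit 7) (nat_lit 0x17e09dafd0a65f9922bf13f57e6732fc4fb5f9cbabf41fd7e606afce115f8f0abf21f97e27dafc873) b52929 (.hit (nat_lit 95) (nat_lit 15) (nat_lit 0x17d9cfafb6265f9336beac1d7de3aafa59c5f75babf03917df912fc3305f8ba0bf11917e0f82fc3b3) b52934 (.tok (nat_lit 14) (nat_lit 0x17f2b4aff8035fed1cbf9d597f4872fe7595fe52cbfcf2d7f8e5aff4755fd7b0bfb9e17f509afed72)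 (.hit (nat_lit 91) (nat_lit 11) (nat_lit 0x17f10aaff3b75fea78bf97257f12f2fe3845fdecabfc2817f69fafef3d5fcac0bf9c097f16fafe7c9) b52930 (.hit (nat_lit 97) (nat_lit 17) (nat_lit 0x17e80dafd1cc5fd34ebf1e857ec472fc2185faacabf61e97ec812fdede5fb658bf72857eb8cafd4d8) b52935 (.one (nat_lit 9) (nat_lit 92) (nat_lit 12) (nat_lit 0x17f2b4aff8035fed1cbf9d597f4872fe7595fe52cbfcf2d7f8e5aff4755fd7b0bfb9e17f509afed72) b52931 (.nil)))) (.tok (nat_lit 56) (nat_lit 0x17ed65afeee85fcd8ebf774d7ee4dafddf85fc4e0bf8b117f2f9afeb715faf62bf69697eaf2afe8fc) (.hit (nat_lit 93) (nat_lit 13) (nat_lit 0x17ed65afe7795fcc32bf774d7ee4dafddf85fc4e0bf8b117f0532fe5675faf62bf69697eaf2afd9ab) b52932 (.hit (nat_lit 99) (nat_lit 19) (nat_lit 0x17e4432fcb115fa67ebf00597e87dafba835f9ba0bf43957e80bafd5e95fa990bf4f817e74e2fcbe2) b52937 (.one (nat_lit 6) (nat_lit 94) (nat_lit 14) (nat_lit 0x17e86f2feee85fcd8ebf568d7ece1afd09e5fb006bf78257f2f9afeb715fa660bf4f297e8abafe8fc)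 b52933 (.nil)))) (.one (nat_lit 68) (nat_lit 98) (nat_lit 18) (nat_lit 0x17e41b2fcb905fb646bf02857e8e72fbb185f9ccabf45e97e6e42fd37e5fb720bf5a757e8c7afd0ec) b52936 (.nil)))))) (.tok (nat_lit 52) (nat_lit 0x17e6ceafdf6f5fb5f8bf209d7eca6afc2ba5fac0ebf68817f8df2ff41a5fd7d0bf92a17f3dcafe24d) (.hit (nat_lit 106) (nat_lit 39) (nat_lit 0x17e5b52fdf6f5fb3bcbf209d7eca6afc2ba5fac0ebf64717f8df2ff41a5fd7d0bf92a17f3dcafe11a) b52938 (.hit (nat_lit 107) (nat_lit 40) (nat_lit 0x17e6ceafd8db5fb5f8bf157d7ea17afbfa95fa7a0bf68817f59a2fecc45fa4debf3d097e792afe24d) b52939 (.nil))) (.tok (nat_lit 55) (nat_lit 0x180000300000600000c00001802f8300000600000c0000180000300000600db4c00001802a5b00000) (.hit (nat_lit 108) (nat_lit 41) (nat_lit 0x17f8022ffbd75fe1ccbff9057fd5eaff64f600000bff9257f8fbaff9aa5fe346bfbd817f7a32fec23) b52940 (.tok (nat_lit 3) (nat_lit 0x1800002ff9dc5ff406c000017fdef3000005ff424c000017fc0f2ffb855ff06abfdfd17faee2ff4d0)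 (.hit (nat_lit 114) (nat_lit 47) (nat_lit 0x17f3222feb625fdc68bfd0b17fd28aff6245fcd30bfb2457f4112fed0c5fce4abf95997f175afe20a) b52946 (.one (nat_lit 67) (nat_lit 115) (nat_lit 48) (nat_lit 0x1800002ff9dc5ff406c000017fdef3000005ff424c000017fc0f2ffb855ff06abfdfd17faee2ff4d0) b52947 (.nil))) (.tok (nat_lit 6) (nat_lit 0x17fcc7300000600000bfc11d802f82ff2db5ff576bff74180000300000600db4c00001802a5b00000) (.hit (nat_lit 109) (nat_lit 42) (nat_lit 0x17f1f62fe1dc5fca76bf69b97f6c92fdc935fd09cbfad8d7f4362fec2c5fe97ebfb69d7f92a2fe2b7) b52941 (.hit (nat_lit 112) (nat_lit 45) (nat_lit 0x17eba62fe9075fed54bf4c397eeebafce095fbafebf8f3d7f4aa2fefe95fb1ecbf5c3d7eb942fee6f) b52944 (.tok (nat_lit 55) (nat_lit 0x17fcc7300000600000bfc11d802f82ff2db5ff576bff74180000300000600db4c00001802a5b00000) (.hit (nat_lit 110) (nat_lit 43) (nat_lit 0x17fcc72ff9945ff958bfa11d802f82feb365fe804bfe9497fac12ffb1b6002d8bfe81d7ff5caff3ab)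 b52942 (.hit (nat_lit 113) (nat_lit 46) (nat_lit 0x17f34c300000600000bf79d57f692afd89a5fd996bfcc6d7fb9c2ffd8a5fd088bf996d7f36bb00000) b52945 (.one (nat_lit 6) (nat_lit 111) (nat_lit 44) (nat_lit 0x17fb87aff31d5ff4e0bfc11d801372ff2db5ff576bff74180000300000600db4c00001802a5aff840) b52943 (.nil)))) (.nil)))) (.nil)))) (.one (nat_lit 58) (nat_lit 116) (nat_lit 49) (nat_lit 0x17eb1f2fdd7d5fd7f0bf390d7ef46afc88d5fb984bf8c497f81f2fee115fec7abfbbf17f65fafe4a2) b52948 (.nil)))))) (.nil))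
noncomputable def r74_1 : Rw Blk := .tok (nat_lit 9) (nat_lit 0x5e0000bc00017f89fafe655) (.hit (nat_lit 0) (nat_lit 0) (nat_lit 0x5e0000bc00017ee012fd9cf) b52949 (.tok (nat_lit 14) (nat_lit 0x5e0000bc00017f3e4afe2cb) (.hit (nat_lit 11) (nat_lit 61) (nat_lit 0x5e0000bc00017f3e4afe157) b52950 (.one (nat_lit 3) (nat_lit 12) (nat_lit 62) (nat_lit 0x5e0000bc00017f31a2fd7bf) b52951 (.tok (nat_lit 6) (nat_lit 0x5e0000bc00017f2252fe2cb) (.hit (nat_lit 15) (nat_lit 65) (nat_lit 0x5e0000bc00017f2252fe2cb) b52954 (.hit (nat_lit 16) (nat_lit 66) (nat_lit 0x5e0000bc00017ef67afe089) b52955 (.nil))) (.tok (nat_lit 9) (nat_lit 0x5e0000bc00017eeb42fe093) (.hit (nat_lit 13) (nat_lit 63) (nat_lit 0x5e0000bc00017e9972fe093) b52952 (.hit (nat_lit 14) (nat_lit 64) (nat_lit 0x5e0000bc00017eeb42fded5) b52953 (.nil))) (.nil))))) (.one (nat_lit 17) (nat_lit 17) (nat_lit 67) (nat_lit 0x5e0000bc00017ee172fcd2e)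 b52956 (.tok (nat_lit 20) (nat_lit 0x5e0000bc00017ed752fcc9a) (.hit (nat_lit 18) (nat_lit 68) (nat_lit 0x5e0000bc00017df9aafcc9a) b52957 (.hit (nat_lit 19) (nat_lit 69) (nat_lit 0x5e0000bc00017ed752fcb9a) b52958 (.nil))) (.tok (nat_lit 23) (nat_lit 0x5e0000bc00017f89fafe655) (.hit (nat_lit 20) (nat_lit 70) (nat_lit 0x5e0000bc00017f89fafe655) b52959 (.hit (nat_lit 21) (nat_lit 71) (nat_lit 0x5e0000bc00017eeceafcb9a) b52960 (.nil))) (.one (nat_lit 26) (nat_lit 22) (nat_lit 72) (nat_lit 0x5e0000bc00017e5f62fb92a) b52961 (.one (nat_lit 29) (nat_lit 23) (nat_lit 73) (nat_lit 0x5e0000bc00017e5882fbc3c) b52962 (.one (nat_lit 32) (nat_lit 24) (nat_lit 74) (nat_lit 0x5e0000bc00017ea122fbf19) b52963 (.one (nat_lit 35) (nat_lit 25) (nat_lit 75) (nat_lit 0x5e0000bc00017e4caafbf19) b52964 (.one (nat_lit 38) (nat_lit 26) (nat_lit 76) (nat_lit 0x5e0000bc00017ed3aafcd6e) b52965 (.tok (nat_lit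 41) (nat_lit 0x5e0000bc00017ee8fafc319) (.hit (nat_lit 27) (nat_lit 77) (nat_lit 0x5e0000bc00017ea56afb869) b52966 (.hit (nat_lit 28) (nat_lit 78) (nat_lit 0x5e0000bc00017ee8fafc319) b52967 (.nil))) (.tok (nat_lit 44) (nat_lit 0x5e0000bc00017efe42fc3bb) (.hit (nat_lit 29) (nat_lit 79) (nat_lit 0x5e0000bc00017d532afb7ca) b52968 (.hit (nat_lit 30) (nat_lit 80) (nat_lit 0x5e0000bc00017efe42fc3bb) b52969 (.nil))) (.tok (nat_lit 47) (nat_lit 0x5e0000bc00017efb6afc478) (.hit (nat_lit 31) (nat_lit 81) (nat_lit 0x5e0000bc00017efb6afc478) b52970 (.hit (nat_lit 32) (nat_lit 82) (nat_lit 0x5e0000bc00017e9972fc26e) b52971 (.nil))) (.one (nat_lit 50) (nat_lit 33) (nat_lit 83) (nat_lit 0x5e0000bc00017e97cafc6dc) b52972 (.tok (nat_lit 53) (nat_lit 0x5e0000bc00017ed33afd26e) (.hit (nat_lit 34) (nat_lit 84) (nat_lit 0x5e0000bc00017e7112fd26e) b52973 (.hit (nat_lit 35) (nat_lit 85) (nat_lit 0x5e0000bc00017ed33afc867)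 b52974 (.nil))) (.tok (nat_lit 56) (nat_lit 0x5e0000bc00017ededafdc50) (.hit (nat_lit 36) (nat_lit 86) (nat_lit 0x5e0000bc00017ededafdc50) b52975 (.one (nat_lit 3) (nat_lit 40) (nat_lit 90) (nat_lit 0x5e0000bc00017e149afcff8) b52979 (.tok (nat_lit 6) (nat_lit 0x5e0000bc00017e69b2fda9b) (.hit (nat_lit 38) (nat_lit 88) (nat_lit 0x5e0000bc00017e69b2fda9b) b52977 (.hit (nat_lit 39) (nat_lit 89) (nat_lit 0x5e0000bc00017e3f5afd550) b52978 (.nil))) (.one (nat_lit 9) (nat_lit 37) (nat_lit 87) (nat_lit 0x5e0000bc00017e53f2fd7e3) b52976 (.nil))))) (.one (nat_lit 59) (nat_lit 41) (nat_lit 91) (nat_lit 0x5e0000bc00017e9b1afb7a2) b52980 (.nil)))))))))))))))))) (.tok (nat_lit 64) (nat_lit 0x5e0000bc00018000030092f) (.hit (nat_lit 180) (nat_lit 0) (nat_lit 0x5e0000bc00017fe7630092f) b52981 (.tok (nat_lit 6) (nat_lit 0x5e0000bc00017f1d4afef46) (.hit (nat_lit 181) (nat_lit 7) (nat_lit 0x5e0000bc00017e6ec2fe7d1)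 b52982 (.hit (nat_lit 182) (nat_lit 15) (nat_lit 0x5e0000bc00017f1d4afef46) b52983 (.nil))) (.tok (nat_lit 9) (nat_lit 0x5e0000bc000180000300505) (.hit (nat_lit 183) (nat_lit 20) (nat_lit 0x5e0000bc000180000300505) b52984 (.hit (nat_lit 184) (nat_lit 28) (nat_lit 0x5e0000bc00017f4752ff14c) b52985 (.nil))) (.nil)))) (.tok (nat_lit 67) (nat_lit 0x5e0000bc00017f661affcca) (.hit (nat_lit 205) (nat_lit 0) (nat_lit 0x5e0000bc00017f661afe8e1) b52994 (.tok (nat_lit 3) (nat_lit 0x5e0000bc00017f168affcca) (.hit (nat_lit 206) (nat_lit 1) (nat_lit 0x5e0000bc00017e3e12fe1bb) b52995 (.one (nat_lit 55) (nat_lit 207) (nat_lit 3) (nat_lit 0x5e0000bc00017f168affcca) b52996 (.nil))) (.tok (nat_lit 9) (nat_lit 0x5e0000bc00017e6e2afe7be) (.hit (nat_lit 208) (nat_lit 20) (nat_lit 0x5e0000bc00017e6e2afe7be) b52997 (.hit (nat_lit 211) (nat_lit 28) (nat_lit 0x5e0000bc00017e357afe0a8) b52998 (.nil))) (.nil))))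 (.tok (nat_lit 70) (nat_lit 0x5e0000bc00017fb04b00ee4) (.hit (nat_lit 191) (nat_lit 0) (nat_lit 0x5e0000bc00017fb04afeeed) b52986 (.tok (nat_lit 3) (nat_lit 0x5e0000bc00017f4aab0034e) (.hit (nat_lit 192) (nat_lit 1) (nat_lit 0x5e0000bc00017e3ac2fe151) b52987 (.one (nat_lit 67) (nat_lit 193) (nat_lit 2) (nat_lit 0x5e0000bc00017f4aab0034e) b52988 (.nil))) (.tok (nat_lit 6) (nat_lit 0x5e0000bc00017fa75b00ee4) (.hit (nat_lit 194) (nat_lit 7) (nat_lit 0x5e0000bc00017ea44afee82) b52989 (.hit (nat_lit 197) (nat_lit 15) (nat_lit 0x5e0000bc00017e6a32fe73f) b52992 (.tok (nat_lit 55) (nat_lit 0x5e0000bc00017fa75b00ee4) (.hit (nat_lit 195) (nat_lit 8) (nat_lit 0x5e0000bc00017efce2ff995) b52990 (.hit (nat_lit 198) (nat_lit 16) (nat_lit 0x5e0000bc00017f223affe40) b52993 (.one (nat_lit 6) (nat_lit 196) (nat_lit 9) (nat_lit 0x5e0000bc00017fa75b00ee4) b52991 (.nil)))) (.nil)))) (.nil)))) (.nil))))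
noncomputable def r74_2 : Rw Blk := .tok (nat_lit 3) (nat_lit 0x5e0000bc00018042130041a) (.hit (nat_lit 15) (nat_lit 0) (nat_lit 0x5e0000bc00017f26daff404) b53006 (.tok (nat_lit 6) (nat_lit 0x5e0000bc00017e961aff94b) (.hit (nat_lit 16) (nat_lit 7) (nat_lit 0x5e0000bc00017dffc2fe680) b53007 (.hit (nat_lit 21) (nat_lit 15) (nat_lit 0x5e0000bc00017d41b2fcebe) b53012 (.tok (nat_lit 14) (nat_lit 0x5e0000bc00017e5b3aff1ef) (.hit (nat_lit 17) (nat_lit 11) (nat_lit 0x5e0000bc00017dea02fe3c8) b53008 (.hit (nat_lit 22) (nat_lit 17) (nat_lit 0x5e0000bc00017e44bafef1f) b53013 (.one (nat_lit 9) (nat_lit 18) (nat_lit 12) (nat_lit 0x5e0000bc00017e5b3aff1ef) b53009 (.nil)))) (.tok (nat_lit 56) (nat_lit 0x5e0000bc00017e961aff94b) (.hit (nat_lit 19) (nat_lit 13) (nat_lit 0x5e0000bc00017e41cafeec1) b53010 (.hit (nat_lit 24) (nat_lit 19) (nat_lit 0x5e0000bc00017e48a2fef9c) b53014 (.one (nat_lit 6)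 (nat_lit 20) (nat_lit 14) (nat_lit 0x5e0000bc00017e961aff94b) b53011 (.nil)))) (.nil))))) (.tok (nat_lit 52) (nat_lit 0x5e0000bc00017e9d42ffa30) (.hit (nat_lit 25) (nat_lit 39) (nat_lit 0x5e0000bc00017e3412fed0a) b53015 (.hit (nat_lit 26) (nat_lit 40) (nat_lit 0x5e0000bc00017e9d42ffa30) b53016 (.nil))) (.tok (nat_lit 55) (nat_lit 0x5e0000bc00018042130041a) (.hit (nat_lit 27) (nat_lit 41) (nat_lit 0x5e0000bc00018042130041a) b53017 (.tok (nat_lit 3) (nat_lit 0x5e0000bc00017edf0300268) (.hit (nat_lit 33) (nat_lit 47) (nat_lit 0x5e0000bc00017e9e0affa49) b53023 (.one (nat_lit 67) (nat_lit 34) (nat_lit 48) (nat_lit 0x5e0000bc00017edf0300268) b53024 (.nil))) (.tok (nat_lit 6) (nat_lit 0x5e0000bc00017eb3daffd03) (.hit (nat_lit 28) (nat_lit 42) (nat_lit 0x5e0000bc00017e6302ff2e8) b53018 (.hit (nat_lit 31) (nat_lit 45) (nat_lit 0x5e0000bc00017e7cbaff61f) b53021 (.tok (nat_lit 55) (nat_lit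 0x5e0000bc00017eb3daffd03) (.hit (nat_lit 29) (nat_lit 43) (nat_lit 0x5e0000bc00017eb3daffd03) b53019 (.hit (nat_lit 32) (nat_lit 46) (nat_lit 0x5e0000bc00017eabf2ffc06) b53022 (.one (nat_lit 6) (nat_lit 30) (nat_lit 44) (nat_lit 0x5e0000bc00017e5d8aff239) b53020 (.nil)))) (.nil)))) (.nil)))) (.one (nat_lit 58) (nat_lit 35) (nat_lit 49) (nat_lit 0x5e0000bc00017e946aff915) b53025 (.nil)))))) (.tok (nat_lit 9) (nat_lit 0x5e0000bc000180103b00997) (.hit (nat_lit 0) (nat_lit 0) (nat_lit 0x5e0000bc00017fc57b00997) b52999 (.tok (nat_lit 9) (nat_lit 0x5e0000bc000180103b0087a) (.hit (nat_lit 1) (nat_lit 20) (nat_lit 0x5e0000bc00017f111afe2a4) b53000 (.hit (nat_lit 4) (nat_lit 28) (nat_lit 0x5e0000bc00017eb5b2fd84b) b53003 (.tok (nat_lit 14) (nat_lit 0x5e0000bc000180103b0087a) (.hit (nat_lit 2) (nat_lit 24) (nat_lit 0x5e0000bc00017fe0c300643) b53001 (.hit (nat_lit 5) (nat_lit 30) (nat_lit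 0x5e0000bc00017f0bb2fe05f) b53004 (.one (nat_lit 6) (nat_lit 3) (nat_lit 25) (nat_lit 0x5e0000bc000180103b0087a) b53002 (.nil)))) (.one (nat_lit 56) (nat_lit 6) (nat_lit 31) (nat_lit 0x5e0000bc00017fb792ff029) b53005 (.nil))))) (.nil))) (.nil))
noncomputable def r74_3 : Rw Blk := .tok (nat_lit 6) (nat_lit 0x1780002f00005ff720c018b58009e2ffb92) (.hit (nat_lit 0) (nat_lit 0) (nat_lit 0x1780002f00005fa89abf5b4d7ea5d2fd6f6) b53026 (.tok (nat_lit 14) (nat_lit 0x1780002f00005ff19cbf93157f261aff58f) (.hit (nat_lit 21) (nat_lit 61) (nat_lit 0x1780002f00005fd8fcbf79f17ee2a2fe30f) b53027 (.one (nat_lit 3) (nat_lit 22) (nat_lit 62) (nat_lit 0x1780002f00005fe1a6bf480d7e887afe75e) b53028 (.tok (nat_lit 6) (nat_lit 0x1780002f00005fb8b0bf62b97eb632fdc8c) (.hit (nat_lit 25) (nat_lit 65) (nat_lit 0x1780002f00005f71fcbf62b97eb432fd917) b53031 (.hit (nat_lit 26) (nat_lit 66) (nat_lit 0x1780002f00005fb8b0bf5e4d7eb632fdc8c)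 b53032 (.nil))) (.tok (nat_lit 9) (nat_lit 0x1780002f00005ff19cbf93157f261aff58f) (.hit (nat_lit 23) (nat_lit 63) (nat_lit 0x1780002f00005ff19cbf93157f261aff58f) b53029 (.hit (nat_lit 24) (nat_lit 64) (nat_lit 0x1780002f00005fb5aebf5bf17ea6a2fd765) b53030 (.nil))) (.nil))))) (.one (nat_lit 17) (nat_lit 27) (nat_lit 67) (nat_lit 0x1780002f00005fc724bf42e97e76f2fd4c1) b53033 (.tok (nat_lit 20) (nat_lit 0x1780002f00005ff720c018b58009e2ffb92) (.hit (nat_lit 28) (nat_lit 68) (nat_lit 0x1780002f00005ff720c018b58009e2ffb92) b53034 (.hit (nat_lit 29) (nat_lit 69) (nat_lit 0x1780002f00005fad28bf1e657e36f2fc9aa) b53035 (.nil))) (.tok (nat_lit 23) (nat_lit 0x1780002f00005fa764bf1fc57e2e4afc85a) (.hit (nat_lit 30) (nat_lit 70) (nat_lit 0x1780002f00005f5082bf1fc57e2e4afc85a) b53036 (.hit (nat_lit 31) (nat_lit 71) (nat_lit 0x1780002f00005fa764bf13597e122afc66f) b53037 (.nil))) (.one (nat_lit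 26) (nat_lit 32) (nat_lit 72) (nat_lit 0x1780002f00005f998ebef4357de322fbf36) b53038 (.one (nat_lit 29) (nat_lit 33) (nat_lit 73) (nat_lit 0x1780002f00005fa412bf0e757e15b2fcda3) b53039 (.one (nat_lit 32) (nat_lit 34) (nat_lit 74) (nat_lit 0x1780002f00005f8a20beddd17dab0afb849) b53040 (.one (nat_lit 35) (nat_lit 35) (nat_lit 75) (nat_lit 0x1780002f00005fb926bf0ed57e15e2fd20f) b53041 (.one (nat_lit 50) (nat_lit 43) (nat_lit 83) (nat_lit 0x1780002f00005fb6dabf196d7e2e4afcd9a) b53042 (.tok (nat_lit 53) (nat_lit 0x1780002f00005fccc6bf6d117ef282fe4d6) (.hit (nat_lit 44) (nat_lit 84) (nat_lit 0x1780002f00005fccc6bf6d117ef282fe4d6) b53043 (.hit (nat_lit 45) (nat_lit 85) (nat_lit 0x1780002f00005fb4aabf27b97e49f2fd0ca) b53044 (.nil))) (.tok (nat_lit 56) (nat_lit 0x1780002f00005fd72ebfc4317f5b1afe4c4) (.hit (nat_lit 46) (nat_lit 86) (nat_lit 0x1780002f00005fd0b2bf90257ef9d2fdf11) b53045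 (.one (nat_lit 3) (nat_lit 50) (nat_lit 90) (nat_lit 0x1780002f00005fb7b6bf6a8d7eabd2fce6a) b53049 (.tok (nat_lit 6) (nat_lit 0x1780002f00005fd098bf62057eb952fe199) (.hit (nat_lit 48) (nat_lit 88) (nat_lit 0x1780002f00005fd098bf62057eb952fe199) b53047 (.hit (nat_lit 49) (nat_lit 89) (nat_lit 0x1780002f00005fc4cabf303d7e5712fd685) b53048 (.nil))) (.one (nat_lit 9) (nat_lit 47) (nat_lit 87) (nat_lit 0x1780002f00005fd72ebfc4317f5b1afe4c4) b53046 (.nil))))) (.one (nat_lit 59) (nat_lit 51) (nat_lit 91) (nat_lit 0x1780002f00005fab72bf00d17dfc0afc6b6) b53050 (.one (nat_lit 62) (nat_lit 52) (nat_lit 92) (nat_lit 0x1780002f00005f9914bf11317e1122fc4b5) b53051 (.tok (nat_lit 65) (nat_lit 0x1780002f00005fb0b4bf1b357e252afcc01) (.hit (nat_lit 53) (nat_lit 93) (nat_lit 0x1780002f00005fb0b4bf1b357e252afcc01) b53052 (.hit (nat_lit 54) (nat_lit 94) (nat_lit 0x1780002f00005f864cbf11f57e1c1afc4a5)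 b53053 (.nil))) (.tok (nat_lit 68) (nat_lit 0x1780002f00005f9602bf74e57ec5dafdbc1) (.hit (nat_lit 55) (nat_lit 95) (nat_lit 0x1780002f00005f9602bf74e57ec5dafdbc1) b53054 (.one (nat_lit 3) (nat_lit 59) (nat_lit 99) (nat_lit 0x1780002f00005f4f88bf1dd17e2a62fc7dd) b53058 (.one (nat_lit 6) (nat_lit 56) (nat_lit 96) (nat_lit 0x1780002f00005f57cebf2e5d7e4b7afcc00) b53055 (.tok (nat_lit 9) (nat_lit 0x1780002f00005f73a6bf660d7ebadafd9ec) (.hit (nat_lit 57) (nat_lit 97) (nat_lit 0x1780002f00005f73a6bf660d7ebadafd9ec) b53056 (.hit (nat_lit 58) (nat_lit 98) (nat_lit 0x1780002f00005f6302bf44c57e784afd19a) b53057 (.nil))) (.nil))))) (.one (nat_lit 71) (nat_lit 60) (nat_lit 100) (nat_lit 0x1780002f00005fa662bf06497e0272fc5c8) b53059 (.nil)))))))))))))))))) (.tok (nat_lit 52) (nat_lit 0x1780002f0000600000c0466180294300958) (.hit (nat_lit 176) (nat_lit 0) (nat_lit 0x1780002f0000600000c0466180294300958)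 b53060 (.tok (nat_lit 6) (nat_lit 0x1780002f00005fd834bfe7c97f7d52ffa38) (.hit (nat_lit 177) (nat_lit 7) (nat_lit 0x1780002f00005fd834bfe7c97f7d52ffa38) b53061 (.hit (nat_lit 178) (nat_lit 15) (nat_lit 0x1780002f00005fb672bfa13d7ef782fea8e) b53062 (.nil))) (.tok (nat_lit 9) (nat_lit 0x1780002f00005fd1d6bfc4f57f3bb2ff3fc) (.hit (nat_lit 179) (nat_lit 20) (nat_lit 0x1780002f00005faaa6bf92bd7f1442fe519) b53063 (.hit (nat_lit 180) (nat_lit 28) (nat_lit 0x1780002f00005fd1d6bfc4f57f3bb2ff3fc) b53064 (.nil))) (.nil)))) (.tok (nat_lit 55) (nat_lit 0x1780002f00005fc9debfd12d7f9122ff4b5) (.hit (nat_lit 187) (nat_lit 0) (nat_lit 0x1780002f00005fc552bf9e057f25fafe750) b53065 (.tok (nat_lit 3) (nat_lit 0x1780002f00005fb7e2bfad357f4932febb7) (.hit (nat_lit 188) (nat_lit 1) (nat_lit 0x1780002f00005f8a9abf52a57e9412fd513) b53066 (.one (nat_lit 67) (nat_lit 189) (nat_lit 2) (nat_lit 0x1780002f00005fb7e2bfad357f4932febb7)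 b53067 (.nil))) (.tok (nat_lit 6) (nat_lit 0x1780002f00005fc9debfd12d7f9122ff4b5) (.hit (nat_lit 190) (nat_lit 7) (nat_lit 0x1780002f00005f9fa4bf7cb97ee83afdf98) b53068 (.hit (nat_lit 193) (nat_lit 15) (nat_lit 0x1780002f00005f8c46bf55fd7e9ac2fd5e9) b53071 (.tok (nat_lit 55) (nat_lit 0x1780002f00005fc9debfd12d7f9122ff4b5) (.hit (nat_lit 191) (nat_lit 8) (nat_lit 0x1780002f00005fbd74bfb8597f5f7afee80) b53069 (.hit (nat_lit 194) (nat_lit 16) (nat_lit 0x1780002f00005fbd40bfb7f17f5eaafee66) b53072 (.one (nat_lit 6) (nat_lit 192) (nat_lit 9) (nat_lit 0x1780002f00005fc9debfd12d7f9122ff4b5) b53070 (.nil)))) (.nil)))) (.nil)))) (.tok (nat_lit 58) (nat_lit 0x1780002f00005fe010bffd917fe9eafffce) (.hit (nat_lit 201) (nat_lit 0) (nat_lit 0x1780002f00005fcef0bfcea17f5cd2febf5) b53073 (.tok (nat_lit 3) (nat_lit 0x1780002f00005fcdc2bfd8f57fa0b2ff6a7) (.hit (nat_lit 202) (nat_lit 1) (nat_lit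 0x1780002f00005f9a94bf72997ed3fafdd10) b53074 (.one (nat_lit 55) (nat_lit 203) (nat_lit 3) (nat_lit 0x1780002f00005fcdc2bfd8f57fa0b2ff6a7) b53075 (.nil))) (.tok (nat_lit 9) (nat_lit 0x1780002f00005fe010bffd917fe9eafffce) (.hit (nat_lit 204) (nat_lit 20) (nat_lit 0x1780002f00005f9e7abf7a657ee392fdf03) b53076 (.hit (nat_lit 207) (nat_lit 28) (nat_lit 0x1780002f00005f9ed4bf7b197ee4fafdf30) b53079 (.tok (nat_lit 67) (nat_lit 0x1780002f00005fe010bffd917fe9eafffce) (.hit (nat_lit 205) (nat_lit 21) (nat_lit 0x1780002f00005fb868bfae417f4b4afebfa) b53077 (.hit (nat_lit 208) (nat_lit 29) (nat_lit 0x1780002f00005fd34abfe4057fb6d2ff96b) b53080 (.one (nat_lit 9) (nat_lit 206) (nat_lit 22) (nat_lit 0x1780002f00005fe010bffd917fe9eafffce) b53078 (.nil)))) (.nil)))) (.nil)))) (.nil))))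
noncomputable def r74_4 : Rw Blk := .tok (nat_lit 3) (nat_lit 0x1780002f0000602778c0392180b91b022f7) (.hit (nat_lit 15) (nat_lit 0) (nat_lit 0x1780002f0000600862bfd1ad7fab9b00c46) b53092 (.tok (nat_lit 9) (nat_lit 0x1780002f00005fe7fabfa9617f5b02ff02d) (.hit (nat_lit 16) (nat_lit 20) (nat_lit 0x1780002f00005f8286bf1ff17e4822fd384) b53093 (.hit (nat_lit 21) (nat_lit 28) (nat_lit 0x1780002f00005fa142bef1f57dec2afdfc6) b53096 (.one (nat_lit 56) (nat_lit 23) (nat_lit 31) (nat_lit 0x1780002f00005fe7fabfa4e97f5212fed09) b53097 (.tok (nat_lit 68) (nat_lit 0x1780002f00005fbbd8bfa9617f5b02ff02d) (.hit (nat_lit 19) (nat_lit 26) (nat_lit 0x1780002f00005fa494bf42257e8c8afe48b) b53094 (.hit (nat_lit 24) (nat_lit 32) (nat_lit 0x1780002f00005fb138bf7fd57f07eafe57f) b53098 (.one (nat_lit 9) (nat_lit 20) (nat_lit 27) (nat_lit 0x1780002f00005fbbd8bfa9617f5b02ff02d) b53095 (.nil)))) (.nil))))) (.tok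 (nat_lit 64) (nat_lit 0x1780002f00005fd68abfad497f62d2ffda7) (.hit (nat_lit 25) (nat_lit 50) (nat_lit 0x1780002f00005fcc5ebf8bdd7f1ffafef80) b53099 (.hit (nat_lit 26) (nat_lit 51) (nat_lit 0x1780002f00005fd68abfad497f62d2ffda7) b53100 (.nil))) (.tok (nat_lit 67) (nat_lit 0x1780002f0000602778c0392180b91b01564) (.hit (nat_lit 27) (nat_lit 52) (nat_lit 0x1780002f0000602778c0392180b91b01564) b53101 (.one (nat_lit 3) (nat_lit 33) (nat_lit 58) (nat_lit 0x1780002f00005fba18bf80a17f0982fef4d) b53107 (.tok (nat_lit 9) (nat_lit 0x1780002f00005fca06bfabb97f5fb2ff744) (.hit (nat_lit 28) (nat_lit 53) (nat_lit 0x1780002f00005fbbecbf8b9d7f1f7aff037) b53102 (.hit (nat_lit 31) (nat_lit 56) (nat_lit 0x1780002f00005fb528bf70297ee892fecd5) b53105 (.tok (nat_lit 67) (nat_lit 0x1780002f00005fca06bfabb97f5fb2ff744) (.hit (nat_lit 29) (nat_lit 54) (nat_lit 0x1780002f00005fca06bf9bd57f3feaff744) b53103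 (.hit (nat_lit 32) (nat_lit 57) (nat_lit 0x1780002f00005fc8f4bfabb97f5fb2ff6bb) b53106 (.one (nat_lit 9) (nat_lit 30) (nat_lit 55) (nat_lit 0x1780002f00005fb320bf706d7ee91afebd1) b53104 (.nil)))) (.nil)))) (.nil)))) (.one (nat_lit 70) (nat_lit 35) (nat_lit 60) (nat_lit 0x1780002f0000601f76bfdb1d7fbe7b022f7) b53108 (.nil)))))) (.tok (nat_lit 6) (nat_lit 0x1780002f000060701cc1574d828bfb04e65) (.hit (nat_lit 0) (nat_lit 0) (nat_lit 0x1780002f0000600bd8c034a1802e1b00978) b53081 (.tok (nat_lit 6) (nat_lit 0x1780002f0000600faac065e580a7a300c8d) (.hit (nat_lit 1) (nat_lit 7) (nat_lit 0x1780002f00005fab24bf8f9d7ee322fda30) b53082 (.hit (nat_lit 4) (nat_lit 15) (nat_lit 0x1780002f00005fbdcabfa9157f05c2fe33c) b53083 (.one (nat_lit 68) (nat_lit 6) (nat_lit 18) (nat_lit 0x1780002f0000600faac065e580a7a300c8d) b53084 (.nil)))) (.tok (nat_lit 52) (nat_lit 0x1780002f0000606dc4c1294982346b04561)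 (.hit (nat_lit 7) (nat_lit 39) (nat_lit 0x1780002f0000606dc4c1294982346b04561) b53085 (.hit (nat_lit 8) (nat_lit 40) (nat_lit 0x1780002f0000602058c015e1800ee30060f) b53086 (.nil))) (.tok (nat_lit 55) (nat_lit 0x1780002f000060701cc1574d828bfb04e65) (.hit (nat_lit 9) (nat_lit 41) (nat_lit 0x1780002f0000605172c0d06d81850b02cdd) b53087 (.one (nat_lit 3) (nat_lit 12) (nat_lit 47) (nat_lit 0x1780002f00005fedfec047458093730085c) b53090 (.tok (nat_lit 6) (nat_lit 0x1780002f000060701cc1574d828bfb04e65) (.hit (nat_lit 10) (nat_lit 42) (nat_lit 0x1780002f000060701cc1574d828bfb04e65) b53088 (.hit (nat_lit 11) (nat_lit 45) (nat_lit 0x1780002f00005ff6e4bfca597f84f2ff7ed) b53089 (.nil))) (.nil)))) (.one (nat_lit 58) (nat_lit 14) (nat_lit 49) (nat_lit 0x1780002f000060688ec0eee181bc2b037a7) b53091 (.nil)))))) (.nil))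
noncomputable def r74_5 : Rw Blk := .tok (nat_lit 6) (nat_lit 0x5e0000bc0001808f2b01dab) (.hit (nat_lit 0) (nat_lit 0) (nat_lit 0x5e0000bc00017fbcbb012df) b53109 (.one (nat_lit 26) (nat_lit 12) (nat_lit 72) (nat_lit 0x5e0000bc00017fa80aff3cc) b53110 (.one (nat_lit 29) (nat_lit 13) (nat_lit 73) (nat_lit 0x5e0000bc00017fd86affa2e) b53111 (.one (nat_lit 32) (nat_lit 14) (nat_lit 74) (nat_lit 0x5e0000bc00017f0732fe95d) b53112 (.one (nat_lit 35) (nat_lit 15) (nat_lit 75) (nat_lit 0x5e0000bc00017fb412ff81c) b53113 (.one (nat_lit 38) (nat_lit 16) (nat_lit 76) (nat_lit 0x5e0000bc00017f2ac2ff187) b53114 (.tok (nat_lit 41) (nat_lit 0x5e0000bc00017f09f2ff52b) (.hit (nat_lit 17) (nat_lit 77) (nat_lit 0x5e0000bc00017ec572fef42) b53115 (.hit (nat_lit 18) (nat_lit 78) (nat_lit 0x5e0000bc00017f09f2ff52b) b53116 (.nil))) (.tok (nat_lit 44) (nat_lit 0x5e0000bc00017f602300922) (.hit (nat_lit 19)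 (nat_lit 79) (nat_lit 0x5e0000bc00017f602300922) b53117 (.hit (nat_lit 20) (nat_lit 80) (nat_lit 0x5e0000bc00017eb6eafe6b0) b53118 (.nil))) (.tok (nat_lit 47) (nat_lit 0x5e0000bc00017f5642ff301) (.hit (nat_lit 21) (nat_lit 81) (nat_lit 0x5e0000bc00017eab8afed09) b53119 (.hit (nat_lit 22) (nat_lit 82) (nat_lit 0x5e0000bc00017f5642ff301) b53120 (.nil))) (.one (nat_lit 62) (nat_lit 23) (nat_lit 92) (nat_lit 0x5e0000bc00017fea7affe51) b53121 (.tok (nat_lit 65) (nat_lit 0x5e0000bc00017f4a72ffccd) (.hit (nat_lit 24) (nat_lit 93) (nat_lit 0x5e0000bc00017f3a12ffccd) b53122 (.hit (nat_lit 25) (nat_lit 94) (nat_lit 0x5e0000bc00017f4a72ff35d) b53123 (.nil))) (.tok (nat_lit 68) (nat_lit 0x5e0000bc0001808f2b01dab) (.hit (nat_lit 26) (nat_lit 95) (nat_lit 0x5e0000bc0001808f2b01dab) b53124 (.one (nat_lit 3) (nat_lit 30) (nat_lit 99) (nat_lit 0x5e0000bc00017f68c3004b0) b53128 (.one (nat_lit 6)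 (nat_lit 27) (nat_lit 96) (nat_lit 0x5e0000bc00017f422afffdd) b53125 (.tok (nat_lit 9) (nat_lit 0x5e0000bc00017f558b00249) (.hit (nat_lit 28) (nat_lit 97) (nat_lit 0x5e0000bc00017f558b00249) b53126 (.hit (nat_lit 29) (nat_lit 98) (nat_lit 0x5e0000bc00017efa7aff6e7) b53127 (.nil))) (.nil))))) (.one (nat_lit 71) (nat_lit 31) (nat_lit 100) (nat_lit 0x5e0000bc00017f5cc2fee34) b53129 (.nil)))))))))))))) (.tok (nat_lit 52) (nat_lit 0x5e0000bc00018198db03f04) (.hit (nat_lit 45) (nat_lit 0) (nat_lit 0x5e0000bc00018198db03f04) b53141 (.tok (nat_lit 6) (nat_lit 0x5e0000bc0001814853038dc) (.hit (nat_lit 46) (nat_lit 7) (nat_lit 0x5e0000bc0001814853038dc) b53142 (.hit (nat_lit 47) (nat_lit 15) (nat_lit 0x5e0000bc000180f963034ee) b53143 (.nil))) (.tok (nat_lit 9) (nat_lit 0x5e0000bc00018004e300a30) (.hit (nat_lit 48) (nat_lit 20) (nat_lit 0x5e0000bc00017f851affd5c) b53144 (.hit (nat_lit 49)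 (nat_lit 28) (nat_lit 0x5e0000bc00018004e300a30) b53145 (.nil))) (.nil)))) (.tok (nat_lit 55) (nat_lit 0x5e0000bc000180821b01cfc) (.hit (nat_lit 40) (nat_lit 0) (nat_lit 0x5e0000bc000180600b00f85) b53137 (.one (nat_lit 3) (nat_lit 41) (nat_lit 1) (nat_lit 0x5e0000bc00017fe763009a5) b53138 (.tok (nat_lit 6) (nat_lit 0x5e0000bc000180821b01cfc) (.hit (nat_lit 43) (nat_lit 7) (nat_lit 0x5e0000bc000180821b01cfc) b53139 (.hit (nat_lit 44) (nat_lit 15) (nat_lit 0x5e0000bc00017f9b5b00024) b53140 (.nil))) (.nil)))) (.tok (nat_lit 58) (nat_lit 0x5e0000bc0001812043030c1) (.hit (nat_lit 32) (nat_lit 0) (nat_lit 0x5e0000bc000180a2530224e) b53130 (.one (nat_lit 3) (nat_lit 33) (nat_lit 1) (nat_lit 0x5e0000bc000180911301edb) b53131 (.tok (nat_lit 9) (nat_lit 0x5e0000bc0001812043030c1) (.hit (nat_lit 35) (nat_lit 20) (nat_lit 0x5e0000bc000180b7d3023b3) b53132 (.hit (nat_lit 38) (nat_lit 28) (nat_lit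 0x5e0000bc000180756301b65) b53135 (.tok (nat_lit 67) (nat_lit 0x5e0000bc0001812043030c1) (.hit (nat_lit 36) (nat_lit 21) (nat_lit 0x5e0000bc000180ecf302a57) b53133 (.hit (nat_lit 39) (nat_lit 29) (nat_lit 0x5e0000bc000181143302f3f) b53136 (.one (nat_lit 9) (nat_lit 37) (nat_lit 22) (nat_lit 0x5e0000bc0001812043030c1) b53134 (.nil)))) (.nil)))) (.nil)))) (.nil))))
noncomputable def r74_6 : Rw Blk := .tok (nat_lit 3) (nat_lit 0x5e0000bc000181cf8302e1a) (.hit (nat_lit 0) (nat_lit 0) (nat_lit 0x5e0000bc000181cf8302e1a) b53146 (.tok (nat_lit 9) (nat_lit 0x5e0000bc000181243301c4f) (.hit (nat_lit 1) (nat_lit 20) (nat_lit 0x5e0000bc00017fa1c2fec01) b53147 (.hit (nat_lit 6) (nat_lit 28) (nat_lit 0x5e0000bc00017fcde2ff185) b53152 (.tok (nat_lit 14) (nat_lit 0x5e0000bc00018108a3018dd) (.hit (nat_lit 2) (nat_lit 24) (nat_lit 0x5e0000bc0001807f6b007b6) b53148 (.hit (nat_lit 7) (nat_lit 30)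 (nat_lit 0x5e0000bc00018108a3018dd) b53153 (.one (nat_lit 6) (nat_lit 3) (nat_lit 25) (nat_lit 0x5e0000bc0001806c4300551) b53149 (.nil)))) (.tok (nat_lit 68) (nat_lit 0x5e0000bc000181243301c4f) (.hit (nat_lit 4) (nat_lit 26) (nat_lit 0x5e0000bc00018035a2ffe7d) b53150 (.hit (nat_lit 8) (nat_lit 32) (nat_lit 0x5e0000bc000180c9cb01102) b53154 (.one (nat_lit 9) (nat_lit 5) (nat_lit 27) (nat_lit 0x5e0000bc000181243301c4f) b53151 (.nil)))) (.nil))))) (.nil))) (.tok (nat_lit 6) (nat_lit 0x5e0000bc000182f10b06824) (.hit (nat_lit 20) (nat_lit 0) (nat_lit 0x5e0000bc0001825d9304958) b53155 (.tok (nat_lit 6) (nat_lit 0x5e0000bc000182f10b06824) (.hit (nat_lit 21) (nat_lit 7) (nat_lit 0x5e0000bc0001819e5303513) b53156 (.hit (nat_lit 24) (nat_lit 15) (nat_lit 0x5e0000bc0001815f8b03317) b53159 (.tok (nat_lit 14) (nat_lit 0x5e0000bc000182f10b06824) (.hit (nat_lit 22) (nat_lit 11) (nat_lit 0x5e0000bc00018251db0422c)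 b53157 (.hit (nat_lit 25) (nat_lit 17) (nat_lit 0x5e0000bc000181bcbb036bb) b53160 (.one (nat_lit 9) (nat_lit 23) (nat_lit 12) (nat_lit 0x5e0000bc000182f10b06824) b53158 (.nil)))) (.nil)))) (.nil))) (.nil))
noncomputable def r74_7 : Rw Blk := .tok (nat_lit 6) (nat_lit 0x5e0000bc00017f9c7affa69) (.hit (nat_lit 0) (nat_lit 0) (nat_lit 0x5e0000bc00017e5a52fd8f7) b53161 (.tok (nat_lit 14) (nat_lit 0x5e0000bc00017f9c7affa69) (.hit (nat_lit 21) (nat_lit 61) (nat_lit 0x5e0000bc00017f2a7afe388) b53162 (.one (nat_lit 3) (nat_lit 22) (nat_lit 62) (nat_lit 0x5e0000bc00017ebf2afd9b3) b53163 (.tok (nat_lit 6) (nat_lit 0x5e0000bc00017ec2dafe419) (.hit (nat_lit 25) (nat_lit 65) (nat_lit 0x5e0000bc00017e2c9afe0d4) b53166 (.hit (nat_lit 26) (nat_lit 66) (nat_lit 0x5e0000bc00017ec2dafe419) b53167 (.nil))) (.tok (nat_lit 9) (nat_lit 0x5e0000bc00017f9c7affa69) (.hit (nat_lit 23) (nat_lit 63) (nat_lit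 0x5e0000bc00017f9c7affa69) b53164 (.hit (nat_lit 24) (nat_lit 64) (nat_lit 0x5e0000bc00017ee6d2fe16d) b53165 (.nil))) (.nil))))) (.one (nat_lit 17) (nat_lit 27) (nat_lit 67) (nat_lit 0x5e0000bc00017e6feafcf22) b53168 (.tok (nat_lit 20) (nat_lit 0x5e0000bc00017eb80afdf13) (.hit (nat_lit 28) (nat_lit 68) (nat_lit 0x5e0000bc00017eb80afdf13) b53169 (.hit (nat_lit 29) (nat_lit 69) (nat_lit 0x5e0000bc00017e567afcd90) b53170 (.nil))) (.tok (nat_lit 23) (nat_lit 0x5e0000bc00017e6e9afd955) (.hit (nat_lit 30) (nat_lit 70) (nat_lit 0x5e0000bc00017df0a2fd955) b53171 (.hit (nat_lit 31) (nat_lit 71) (nat_lit 0x5e0000bc00017e6e9afcd8e) b53172 (.nil))) (.one (nat_lit 26) (nat_lit 32) (nat_lit 72) (nat_lit 0x5e0000bc00017e334afbe20) b53173 (.one (nat_lit 29) (nat_lit 33) (nat_lit 73) (nat_lit 0x5e0000bc00017e25f2fbe71) b53174 (.one (nat_lit 32) (nat_lit 34) (nat_lit 74) (nat_lit 0x5e0000bc00017de5b2fc10d)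 b53175 (.one (nat_lit 35) (nat_lit 35) (nat_lit 75) (nat_lit 0x5e0000bc00017e61dafc3e6) b53176 (.one (nat_lit 50) (nat_lit 43) (nat_lit 83) (nat_lit 0x5e0000bc00017e9e3afcb6b) b53177 (.tok (nat_lit 53) (nat_lit 0x5e0000bc00017ead82fda1c) (.hit (nat_lit 44) (nat_lit 84) (nat_lit 0x5e0000bc00017ead82fda1c) b53178 (.hit (nat_lit 45) (nat_lit 85) (nat_lit 0x5e0000bc00017e89e2fc954) b53179 (.nil))) (.tok (nat_lit 56) (nat_lit 0x5e0000bc00017f5e22fe8f5) (.hit (nat_lit 46) (nat_lit 86) (nat_lit 0x5e0000bc00017f1b72fe5d2) b53180 (.one (nat_lit 3) (nat_lit 50) (nat_lit 90) (nat_lit 0x5e0000bc00017ec70afd2fb) b53184 (.tok (nat_lit 6) (nat_lit 0x5e0000bc00017f5e22fe8f5) (.hit (nat_lit 48) (nat_lit 88) (nat_lit 0x5e0000bc00017f5e22fe8f5) b53182 (.hit (nat_lit 49) (nat_lit 89) (nat_lit 0x5e0000bc00017ebe8afd220) b53183 (.nil))) (.one (nat_lit 9) (nat_lit 47) (nat_lit 87) (nat_lit 0x5e0000bc00017f430afe83e)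 b53181 (.nil))))) (.one (nat_lit 59) (nat_lit 51) (nat_lit 91) (nat_lit 0x5e0000bc00017e6152fc3cc) b53185 (.one (nat_lit 62) (nat_lit 52) (nat_lit 92) (nat_lit 0x5e0000bc00017e422afc8d0) b53186 (.tok (nat_lit 65) (nat_lit 0x5e0000bc00017e28f2fcf83) (.hit (nat_lit 53) (nat_lit 93) (nat_lit 0x5e0000bc00017e024afcf83) b53187 (.hit (nat_lit 54) (nat_lit 94) (nat_lit 0x5e0000bc00017e28f2fc1f2) b53188 (.nil))) (.tok (nat_lit 68) (nat_lit 0x5e0000bc00017e6132fe2b4) (.hit (nat_lit 55) (nat_lit 95) (nat_lit 0x5e0000bc00017e6132fe2b4) b53189 (.one (nat_lit 3) (nat_lit 59) (nat_lit 99) (nat_lit 0x5e0000bc00017de1fafd780) b53193 (.one (nat_lit 6) (nat_lit 56) (nat_lit 96) (nat_lit 0x5e0000bc00017dd6f2fd61f) b53190 (.tok (nat_lit 9) (nat_lit 0x5e0000bc00017dfb6afdaae) (.hit (nat_lit 57) (nat_lit 97) (nat_lit 0x5e0000bc00017dfb6afdaae) b53191 (.hit (nat_lit 58) (nat_lit 98) (nat_lit 0x5e0000bc00017de8dafd85c)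 b53192 (.nil))) (.nil))))) (.one (nat_lit 71) (nat_lit 60) (nat_lit 100) (nat_lit 0x5e0000bc00017e4272fc033) b53194 (.nil)))))))))))))))))) (.tok (nat_lit 52) (nat_lit 0x5e0000bc00017f56ab00476) (.hit (nat_lit 176) (nat_lit 0) (nat_lit 0x5e0000bc00017f475b00476) b53195 (.tok (nat_lit 6) (nat_lit 0x5e0000bc00017f56ab00371) (.hit (nat_lit 177) (nat_lit 7) (nat_lit 0x5e0000bc00017f56ab00371) b53196 (.hit (nat_lit 178) (nat_lit 15) (nat_lit 0x5e0000bc00017ed5a2ff3be) b53197 (.nil))) (.tok (nat_lit 9) (nat_lit 0x5e0000bc00017f177aff6c7) (.hit (nat_lit 179) (nat_lit 20) (nat_lit 0x5e0000bc00017ea582ff0e8) b53198 (.hit (nat_lit 180) (nat_lit 28) (nat_lit 0x5e0000bc00017f177aff6c7) b53199 (.nil))) (.nil)))) (.tok (nat_lit 55) (nat_lit 0x5e0000bc00017f708b0006f) (.hit (nat_lit 187) (nat_lit 0) (nat_lit 0x5e0000bc00017f708aff3f8) b53200 (.tok (nat_lit 3) (nat_lit 0x5e0000bc00017ed83aff73f)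 (.hit (nat_lit 188) (nat_lit 1) (nat_lit 0x5e0000bc00017e6e12fe9fa) b53201 (.one (nat_lit 67) (nat_lit 189) (nat_lit 2) (nat_lit 0x5e0000bc00017ed83aff73f) b53202 (.nil))) (.tok (nat_lit 6) (nat_lit 0x5e0000bc00017f21bb0006f) (.hit (nat_lit 190) (nat_lit 7) (nat_lit 0x5e0000bc00017e550afe6d9) b53203 (.hit (nat_lit 193) (nat_lit 15) (nat_lit 0x5e0000bc00017e6eaafea0d) b53206 (.tok (nat_lit 55) (nat_lit 0x5e0000bc00017f21bb0006f) (.hit (nat_lit 191) (nat_lit 8) (nat_lit 0x5e0000bc00017ed102ff658) b53204 (.hit (nat_lit 194) (nat_lit 16) (nat_lit 0x5e0000bc00017ee65aff903) b53207 (.one (nat_lit 6) (nat_lit 192) (nat_lit 9) (nat_lit 0x5e0000bc00017f21bb0006f) b53205 (.nil)))) (.nil)))) (.nil)))) (.tok (nat_lit 58) (nat_lit 0x5e0000bc000180000301c38) (.hit (nat_lit 201) (nat_lit 0) (nat_lit 0x5e0000bc00017f084aff140) b53208 (.tok (nat_lit 3) (nat_lit 0x5e0000bc00017f3bab003ad) (.hit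 (nat_lit 202) (nat_lit 1) (nat_lit 0x5e0000bc00017e7772feb26) b53209 (.one (nat_lit 55) (nat_lit 203) (nat_lit 3) (nat_lit 0x5e0000bc00017f3bab003ad) b53210 (.nil))) (.tok (nat_lit 9) (nat_lit 0x5e0000bc000180000301c38) (.hit (nat_lit 204) (nat_lit 20) (nat_lit 0x5e0000bc00017eb25aff283) b53211 (.hit (nat_lit 207) (nat_lit 28) (nat_lit 0x5e0000bc00017e6812fe93a) b53214 (.tok (nat_lit 67) (nat_lit 0x5e0000bc000180000301c38) (.hit (nat_lit 205) (nat_lit 21) (nat_lit 0x5e0000bc00017f1782fff28) b53212 (.hit (nat_lit 208) (nat_lit 29) (nat_lit 0x5e0000bc00017f360b002f9) b53215 (.one (nat_lit 9) (nat_lit 206) (nat_lit 22) (nat_lit 0x5e0000bc000180000301c38) b53213 (.nil)))) (.nil)))) (.nil)))) (.nil))))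
noncomputable def r74_8 : Rw Blk := .tok (nat_lit 3) (nat_lit 0x5e0000bc000180c7f301d48) (.hit (nat_lit 15) (nat_lit 0) (nat_lit 0x5e0000bc00017f2c2afeb27) b53227 (.tok (nat_lit 9) (nat_lit 0x5e0000bc00017ed13afee04) (.hit (nat_lit 16) (nat_lit 20) (nat_lit 0x5e0000bc00017e2292fd82f) b53228 (.hit (nat_lit 21) (nat_lit 28) (nat_lit 0x5e0000bc00017d1ccafb776) b53231 (.one (nat_lit 56) (nat_lit 23) (nat_lit 31) (nat_lit 0x5e0000bc00017e648afe06e) b53232 (.tok (nat_lit 68) (nat_lit 0x5e0000bc00017ed13afee04) (.hit (nat_lit 19) (nat_lit 26) (nat_lit 0x5e0000bc00017e7fcafe3d6) b53229 (.hit (nat_lit 24) (nat_lit 32) (nat_lit 0x5e0000bc00017e4092fdbef) b53233 (.one (nat_lit 9) (nat_lit 20) (nat_lit 27) (nat_lit 0x5e0000bc00017ed13afee04) b53230 (.nil)))) (.nil))))) (.tok (nat_lit 64) (nat_lit 0x5e0000bc00017eb39afea50) (.hit (nat_lit 25) (nat_lit 50) (nat_lit 0x5e0000bc00017eb39afea50)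 b53234 (.hit (nat_lit 26) (nat_lit 51) (nat_lit 0x5e0000bc00017e9062fe5e9) b53235 (.nil))) (.tok (nat_lit 67) (nat_lit 0x5e0000bc000180c7f301d48) (.hit (nat_lit 27) (nat_lit 52) (nat_lit 0x5e0000bc000180c7f301d48) b53236 (.one (nat_lit 3) (nat_lit 33) (nat_lit 58) (nat_lit 0x5e0000bc00017eecc2ff175) b53242 (.tok (nat_lit 9) (nat_lit 0x5e0000bc00017f209aff7f0) (.hit (nat_lit 28) (nat_lit 53) (nat_lit 0x5e0000bc00017e9f42fe7c5) b53237 (.hit (nat_lit 31) (nat_lit 56) (nat_lit 0x5e0000bc00017e8ab2fe533) b53240 (.tok (nat_lit 67) (nat_lit 0x5e0000bc00017f209aff7f0) (.hit (nat_lit 29) (nat_lit 54) (nat_lit 0x5e0000bc00017f209aff7f0) b53238 (.hit (nat_lit 32) (nat_lit 57) (nat_lit 0x5e0000bc00017eeae2ff139) b53241 (.one (nat_lit 9) (nat_lit 30) (nat_lit 55) (nat_lit 0x5e0000bc00017eabcafe956) b53239 (.nil)))) (.nil)))) (.nil)))) (.one (nat_lit 70) (nat_lit 35) (nat_lit 60) (nat_lit 0x5e0000bc00017f0f4aff5c6)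 b53243 (.nil)))))) (.tok (nat_lit 6) (nat_lit 0x5e0000bc00018166330314b) (.hit (nat_lit 0) (nat_lit 0) (nat_lit 0x5e0000bc00017f873aff593) b53216 (.tok (nat_lit 6) (nat_lit 0x5e0000bc00017f64a2fe744) (.hit (nat_lit 1) (nat_lit 7) (nat_lit 0x5e0000bc00017f3382fe382) b53217 (.hit (nat_lit 4) (nat_lit 15) (nat_lit 0x5e0000bc00017e747afd898) b53218 (.one (nat_lit 68) (nat_lit 6) (nat_lit 18) (nat_lit 0x5e0000bc00017f64a2fe744) b53219 (.nil)))) (.tok (nat_lit 52) (nat_lit 0x5e0000bc00018021ab00032) (.hit (nat_lit 7) (nat_lit 39) (nat_lit 0x5e0000bc00018021ab00032) b53220 (.hit (nat_lit 8) (nat_lit 40) (nat_lit 0x5e0000bc00017f75e2ff40d) b53221 (.nil))) (.tok (nat_lit 55) (nat_lit 0x5e0000bc00018166330314b) (.hit (nat_lit 9) (nat_lit 41) (nat_lit 0x5e0000bc00018166330314b) b53222 (.one (nat_lit 3) (nat_lit 12) (nat_lit 47) (nat_lit 0x5e0000bc00017fea52ffe4c) b53225 (.tok (nat_lit 6)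 (nat_lit 0x5e0000bc00018046fb005d2) (.hit (nat_lit 10) (nat_lit 42) (nat_lit 0x5e0000bc00018046fb005d2) b53223 (.hit (nat_lit 11) (nat_lit 45) (nat_lit 0x5e0000bc00017fd332ff914) b53224 (.nil))) (.nil)))) (.one (nat_lit 58) (nat_lit 14) (nat_lit 49) (nat_lit 0x5e0000bc00017f2aeaff1c0) b53226 (.nil)))))) (.nil))
noncomputable def r74_9 : Rw Blk := .tok (nat_lit 3) (nat_lit 0x17faffafe5bb5fe928bfd2397fd962ff3825feff4bfc0397fbd72ff0e45ff402bfd4957fc562ffcbb) (.hit (nat_lit 0) (nat_lit 0) (nat_lit 0x17e8aaafca0a5fa42abf6bc97eb65afda935faf34bf585d7ebf22fdaaa5faaa0bf6c097efa52fdcc4) b53244 (.tok (nat_lit 6) (nat_lit 0x17e91dafc71b5fd9c4bf8f017eea7afe1cb5fb4e6bf61557f0352fd8075fb0c4bf82e97f2762fee64) (.hit (nat_lit 1) (nat_lit 7) (nat_lit 0x17def12fb2c25fae68bf3d9d7e47b2fcd725f8c34bf0ff17e608afc3ae5f8812befd997e4202fd94f) b53245 (.hit (nat_lit 6) (nat_lit 15) (nat_lit 0x17ddb9afb0535f977cbf33e17e343afcb035f8756bf06357e4d12fc13f5f8334bf58b57ed37afd9bb)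 b53250 (.tok (nat_lit 14) (nat_lit 0x17e86f2fc5be5fd240bf898d7edf92fe06e5fb22cbf5be17ef86afd6aa5fae0abf82e97f2762feaa6) (.hit (nat_lit 2) (nat_lit 11) (nat_lit 0x17e23f2fb95e5fbe86bf580d7e7c92fd40e5f996cbf2a617e956afca4a5f954abf18097e76e2fe0a7) b53246 (.hit (nat_lit 7) (nat_lit 17) (nat_lit 0x17e1c0afb8615fa9e4bf54197e74aafd3115f9772bf266d7e8d82fc94d5f9350bf82e97f2762fe324) b53251 (.one (nat_lit 9) (nat_lit 3) (nat_lit 12) (nat_lit 0x17e86f2fc5be5fd240bf898d7edf92fe06e5fb22cbf5be17ef86afd6aa5fae0abf49897ed9e2feaa6) b53247 (.nil)))) (.tok (nat_lit 56) (nat_lit 0x17e91dafc71b5fd9c4bf8f017eea7afe1cb5fb4e6bf61557f0352fd8075fb0c4bf6f417f001afee64) (.hit (nat_lit 4) (nat_lit 13) (nat_lit 0x17e509afbef35fc308bf6e617ea93afd9a35fa496bf40b57ec212fcfdf5fa074bf3e0d7ea38afe506) b53248 (.hit (nat_lit 9) (nat_lit 19) (nat_lit 0x17e2fbafbad75fad10bf5df17e885afd5875f9c5ebf30457ea132fcbc35f983cbf6f417f001afdd41)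 b53252 (.one (nat_lit 6) (nat_lit 5) (nat_lit 14) (nat_lit 0x17e91dafc71b5fd9c4bf8f017eea7afe1cb5fb4e6bf61557f0352fd8075fb0c4bf4efd7ee4cafee64) b53249 (.nil)))) (.nil))))) (.tok (nat_lit 52) (nat_lit 0x17e3b8afbc515fbab2bf63d97e942afd7015f9f52bf362d7ead02fcd3d5f9b30bf87897f38eafe353) (.hit (nat_lit 19) (nat_lit 39) (nat_lit 0x17e223afb9275fa034bf57317e7adafd3d75f98febf29857e93b2fca135f94dcbf82617f265afe209) b53253 (.hit (nat_lit 20) (nat_lit 40) (nat_lit 0x17e3b8afbc515fbab2bf63d97e942afd7015f9f52bf362d7ead02fcd3d5f9b30bf87897f38eafe353) b53254 (.nil))) (.tok (nat_lit 55) (nat_lit 0x17faffafe5bb5fe928bfd2397fd962ff3825feff4bfc0397fbd72ff0e45ff402bfd4957fc562ffcbb) (.hit (nat_lit 21) (nat_lit 41) (nat_lit 0x17faffafe2a85fe578bfb9197fd962fedf75feff4bfc0397fbd72ff0e45ff402bfd4957fc562ff9b7) b53255 (.tok (nat_lit 3) (nat_lit 0x17ec082fccf05fe928bfa6557f1922fe7a05fc090bf78a97f31fafdddc5fbc6ebf6e1d7f1372ffcbb)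 (.hit (nat_lit 27) (nat_lit 47) (nat_lit 0x17e834afc5495fd040bf87b97edbeafdff95fb142bf5a0d7ef4c2fd6355fad20bf50197ed63afede4) b53261 (.one (nat_lit 67) (nat_lit 28) (nat_lit 48) (nat_lit 0x17ec082fccf05fe928bfa6557f1922fe7a05fc090bf78a97f31fafdddc5fbc6ebf6e1d7f1372ffcbb) b53262 (.nil))) (.tok (nat_lit 6) (nat_lit 0x17f4a5afe5bb5fda54bfd2397fa872ff3825fce92bf94ad7f6a02fe4dd5fca70bf82557f4b7aff3f9) (.hit (nat_lit 22) (nat_lit 42) (nat_lit 0x17ed932fd5cc5fc9f2bfb5417f533afecfb5fbb90bf6ea97f1dfafdb5c5fb76ebf5c517eff72feaa0) b53256 (.hit (nat_lit 25) (nat_lit 45) (nat_lit 0x17e8612fc5a25fc7dabf891d7edeb2fe0525fb1f4bf5b717ef78afd68e5fadd2bf49197ed902fec10) b53259 (.tok (nat_lit 55) (nat_lit 0x17f4a5afe5bb5fda54bfd2397fa872ff3825fce92bf94ad7f6a02fe4dd5fca70bf82557f4b7aff3f9) (.hit (nat_lit 23) (nat_lit 43) (nat_lit 0x17f4a5afe5bb5fcbdebfd2397fa872ff3825fce92bf94ad7f6a02fe4dd5fca70bf82557f4b7afed93)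 b53257 (.hit (nat_lit 26) (nat_lit 46) (nat_lit 0x17eda62fd02c5fda54bfb3457f3302feadc5fc708bf85997f4bdafe1185fc2e6bf73417f2d52ff3f9) b53260 (.one (nat_lit 6) (nat_lit 24) (nat_lit 44) (nat_lit 0x17ecdaafce955fca10bface97f264afe9455fc3dabf7f3d7f3f22fdf815fbfb8bf6ce57f209afef6b) b53258 (.nil)))) (.nil)))) (.nil)))) (.one (nat_lit 58) (nat_lit 29) (nat_lit 49) (nat_lit 0x17e7d0afc4815fc82abf84997ed5aafdf315fafb2bf56ed7eee82fd56d5fab90bfc45d7fb292ff288) b53263 (.nil)))))) (.tok (nat_lit 9) (nat_lit 0x180000300000600000c0000180000300000600000c0000180000300000600000c0000180000300000) (.hit (nat_lit 157) (nat_lit 0) (nat_lit 0x17f2cd2fe49c5fbbe6bfade57f4382feb185fdab6bf97597f57d2feab25fd50ebf9f7d7f520afe673) b53264 (.tok (nat_lit 9) (nat_lit 0x180000300000600000c0000180000300000600000c0000180000300000600000c0000180000300000) (.hit (nat_lit 163) (nat_lit 20) (nat_lit 0x17ede92fd8a35fac06bf6a657f20eafdeaa5fbed4bf78217ee5bafdac15fb828bf6a917edbb2fdc3a)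 b53265 (.hit (nat_lit 171) (nat_lit 28) (nat_lit 0x17e71b2fbe235fa61abf02217e98eafbf4b5f9756bf377d7e7e4afcf635fb932bf5d457ec262fd827) b53270 (.tok (nat_lit 14) (nat_lit 0x180000300000600000c0000180000300000600000c0000180000300000600000c00001800002fffb1) (.hit (nat_lit 167) (nat_lit 24) (nat_lit 0x17fe562ffbb45ffd5cbfed817fc73affd50600000bff5f57fdebaffb975ff458bfe4ed7fcb82ffc38) b53266 (.hit (nat_lit 173) (nat_lit 30) (nat_lit 0x17f5592fd9c95fe632bf748d7f7a22fdbc75fcc66bf95d57f4bbafeaec5fe186bfbee97f6f3afe94c) b53271 (.one (nat_lit 6) (nat_lit 168) (nat_lit 25) (nat_lit 0x180000300000600000c00001800003000005ffe24c0000180000300000600000c00001800002fffb1) b53267 (.nil)))) (.one (nat_lit 56) (nat_lit 174) (nat_lit 31) (nat_lit 0x17f166afd38d5fc92abf588d7f440afd4c75fbe66bf79d57ef162fdf8c5fe47cbfa6157f466afe539) b53272 (.tok (nat_lit 68) (nat_lit 0x17fab12ff6e55fe072bfcd857f9d02ff7a45fe798bfbef57fb352ff77e5fd7dcbfb1bd7f5f4b00000)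 (.hit (nat_lit 169) (nat_lit 26) (nat_lit 0x17fab12fef765fdf16bfcd857f9d02ff7a45fe798bfbef57f870aff16d5fd7dcbfb1bd7f5f4afee8b) b53268 (.hit (nat_lit 175) (nat_lit 32) (nat_lit 0x17f18eafd30e5fb962bf56657f3d8afd4325fbd3cbf77817f048afe1f75fd6fabf9ce97f2b9afe056) b53273 (.one (nat_lit 9) (nat_lit 170) (nat_lit 27) (nat_lit 0x17f5baaff6e55fe072bfb1097f84fafea4d5fd1a2bfac117fb352ff77e5fcedabf977d7f3cfb00000) b53269 (.nil)))) (.nil)))))) (.nil))) (.nil))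
noncomputable def r74_10 : Rw Blk := .tok (nat_lit 6) (nat_lit 0x5e0000bc00017f9b92ffa47) (.hit (nat_lit 51) (nat_lit 0) (nat_lit 0x5e0000bc00017ee012fe30e) b53274 (.tok (nat_lit 14) (nat_lit 0x5e0000bc00017f3e4afeb2e) (.hit (nat_lit 62) (nat_lit 61) (nat_lit 0x5e0000bc00017f3e4afe9ba) b53275 (.one (nat_lit 3) (nat_lit 63) (nat_lit 62) (nat_lit 0x5e0000bc00017f31a2fe022) b53276 (.tok (nat_lit 6) (nat_lit 0x5e0000bc00017eeb42fe8f6) (.hit (nat_lit 66) (nat_lit 65) (nat_lit 0x5e0000bc00017e9972fe8f6) b53279 (.hit (nat_lit 67) (nat_lit 66) (nat_lit 0x5e0000bc00017eeb42fe738) b53280 (.nil))) (.tok (nat_lit 9) (nat_lit 0x5e0000bc00017f2252feb2e) (.hit (nat_lit 64) (nat_lit 63) (nat_lit 0x5e0000bc00017f2252feb2e) b53277 (.hit (nat_lit 65) (nat_lit 64) (nat_lit 0x5e0000bc00017ef67afe8ec) b53278 (.nil))) (.nil))))) (.one (nat_lit 17) (nat_lit 68) (nat_lit 67) (nat_lit 0x5e0000bc00017ee172fd591)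 b53281 (.tok (nat_lit 20) (nat_lit 0x5e0000bc00017f89fafef0b) (.hit (nat_lit 69) (nat_lit 68) (nat_lit 0x5e0000bc00017f89fafef0b) b53282 (.hit (nat_lit 70) (nat_lit 69) (nat_lit 0x5e0000bc00017eeceafd3fd) b53283 (.nil))) (.tok (nat_lit 23) (nat_lit 0x5e0000bc00017ed752fd4fd) (.hit (nat_lit 71) (nat_lit 70) (nat_lit 0x5e0000bc00017df9aafd4fd) b53284 (.hit (nat_lit 72) (nat_lit 71) (nat_lit 0x5e0000bc00017ed752fd3fd) b53285 (.nil))) (.one (nat_lit 26) (nat_lit 73) (nat_lit 72) (nat_lit 0x5e0000bc00017e5f62fc18d) b53286 (.one (nat_lit 29) (nat_lit 74) (nat_lit 73) (nat_lit 0x5e0000bc00017e5882fc49f) b53287 (.one (nat_lit 32) (nat_lit 75) (nat_lit 74) (nat_lit 0x5e0000bc00017e4caafc77c) b53288 (.one (nat_lit 35) (nat_lit 76) (nat_lit 75) (nat_lit 0x5e0000bc00017ea122fc77c) b53289 (.one (nat_lit 38) (nat_lit 77) (nat_lit 76) (nat_lit 0x5e0000bc00017ed3aafd5d1) b53290 (.tok (nat_lit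 41) (nat_lit 0x5e0000bc00017ee8fafcb7c) (.hit (nat_lit 78) (nat_lit 77) (nat_lit 0x5e0000bc00017ea56afc1a8) b53291 (.hit (nat_lit 79) (nat_lit 78) (nat_lit 0x5e0000bc00017ee8fafcb7c) b53292 (.nil))) (.tok (nat_lit 44) (nat_lit 0x5e0000bc00017efb6afcd5a) (.hit (nat_lit 80) (nat_lit 79) (nat_lit 0x5e0000bc00017efb6afcd5a) b53293 (.hit (nat_lit 81) (nat_lit 80) (nat_lit 0x5e0000bc00017e9972fcad1) b53294 (.nil))) (.tok (nat_lit 47) (nat_lit 0x5e0000bc00017efe42fccbd) (.hit (nat_lit 82) (nat_lit 81) (nat_lit 0x5e0000bc00017d532afc02d) b53295 (.hit (nat_lit 83) (nat_lit 82) (nat_lit 0x5e0000bc00017efe42fccbd) b53296 (.nil))) (.one (nat_lit 50) (nat_lit 84) (nat_lit 83) (nat_lit 0x5e0000bc00017ed40afcf3f) b53297 (.tok (nat_lit 53) (nat_lit 0x5e0000bc00017edb3afd7cf) (.hit (nat_lit 85) (nat_lit 84) (nat_lit 0x5e0000bc00017e11aafd7cf) b53298 (.hit (nat_lit 86) (nat_lit 85) (nat_lit 0x5e0000bc00017edb3afcd16)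 b53299 (.nil))) (.tok (nat_lit 56) (nat_lit 0x5e0000bc00017f9b92ffa47) (.hit (nat_lit 87) (nat_lit 86) (nat_lit 0x5e0000bc00017f96daff606) b53300 (.one (nat_lit 3) (nat_lit 91) (nat_lit 90) (nat_lit 0x5e0000bc00017f9b92feae1) b53304 (.tok (nat_lit 6) (nat_lit 0x5e0000bc00017f57b2fe5a3) (.hit (nat_lit 89) (nat_lit 88) (nat_lit 0x5e0000bc00017f57b2fe5a3) b53302 (.hit (nat_lit 90) (nat_lit 89) (nat_lit 0x5e0000bc00017eff52fd88d) b53303 (.nil))) (.one (nat_lit 9) (nat_lit 88) (nat_lit 87) (nat_lit 0x5e0000bc00017f450affa47) b53301 (.nil))))) (.one (nat_lit 59) (nat_lit 92) (nat_lit 91) (nat_lit 0x5e0000bc00017e9ff2fc1bc) b53305 (.nil)))))))))))))))))) (.tok (nat_lit 52) (nat_lit 0x5e0000bc00018000030126e) (.hit (nat_lit 225) (nat_lit 0) (nat_lit 0x5e0000bc00017fe7630126e) b53306 (.tok (nat_lit 6) (nat_lit 0x5e0000bc000180000300e01) (.hit (nat_lit 226) (nat_lit 7) (nat_lit 0x5e0000bc000180000300e01)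 b53307 (.hit (nat_lit 227) (nat_lit 15) (nat_lit 0x5e0000bc00017f4752ffa8b) b53308 (.nil))) (.tok (nat_lit 9) (nat_lit 0x5e0000bc00017f1d4aff885) (.hit (nat_lit 228) (nat_lit 20) (nat_lit 0x5e0000bc00017e6ec2ff110) b53309 (.hit (nat_lit 229) (nat_lit 28) (nat_lit 0x5e0000bc00017f1d4aff885) b53310 (.nil))) (.nil)))) (.tok (nat_lit 55) (nat_lit 0x5e0000bc00017f661b00609) (.hit (nat_lit 250) (nat_lit 0) (nat_lit 0x5e0000bc00017f661aff220) b53316 (.tok (nat_lit 3) (nat_lit 0x5e0000bc00017f168b00609) (.hit (nat_lit 251) (nat_lit 1) (nat_lit 0x5e0000bc00017e3e12feafa) b53317 (.one (nat_lit 67) (nat_lit 252) (nat_lit 2) (nat_lit 0x5e0000bc00017f168b00609) b53318 (.nil))) (.tok (nat_lit 6) (nat_lit 0x5e0000bc00017ed372ffda6) (.hit (nat_lit 253) (nat_lit 7) (nat_lit 0x5e0000bc00017e6e2aff0fd) b53319 (.hit (nat_lit 256) (nat_lit 15) (nat_lit 0x5e0000bc00017e357afe9e7) b53322 (.tok (nat_lit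 55) (nat_lit 0x5e0000bc00017ed372ffda6) (.hit (nat_lit 254) (nat_lit 8) (nat_lit 0x5e0000bc00017e8cc2ff4d0) b53320 (.hit (nat_lit 257) (nat_lit 16) (nat_lit 0x5e0000bc00017ed372ffda6) b53323 (.one (nat_lit 6) (nat_lit 255) (nat_lit 9) (nat_lit 0x5e0000bc00017ebf22ffb1c) b53321 (.nil)))) (.nil)))) (.nil)))) (.tok (nat_lit 58) (nat_lit 0x5e0000bc00017fb04b00c8d) (.hit (nat_lit 236) (nat_lit 0) (nat_lit 0x5e0000bc00017fb04aff82c) b53311 (.tok (nat_lit 3) (nat_lit 0x5e0000bc00017f4aab00c8d) (.hit (nat_lit 237) (nat_lit 1) (nat_lit 0x5e0000bc00017e3ac2fea90) b53312 (.one (nat_lit 55) (nat_lit 238) (nat_lit 3) (nat_lit 0x5e0000bc00017f4aab00c8d) b53313 (.nil))) (.tok (nat_lit 9) (nat_lit 0x5e0000bc00017ea44aff7c1) (.hit (nat_lit 239) (nat_lit 20) (nat_lit 0x5e0000bc00017ea44aff7c1) b53314 (.hit (nat_lit 242) (nat_lit 28) (nat_lit 0x5e0000bc00017e6a32ff07e) b53315 (.nil))) (.nil))))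 (.nil))))
noncomputable def r74_11 : Rw Blk := .tok (nat_lit 3) (nat_lit 0x5e0000bc00018025cb008cb) (.hit (nat_lit 15) (nat_lit 0) (nat_lit 0x5e0000bc00017f0a92fee08) b53339 (.tok (nat_lit 9) (nat_lit 0x5e0000bc00017e3ef2fe55d) (.hit (nat_lit 16) (nat_lit 20) (nat_lit 0x5e0000bc00017de37afd9ee) b53340 (.hit (nat_lit 21) (nat_lit 28) (nat_lit 0x5e0000bc00017d256afc22c) b53343 (.tok (nat_lit 14) (nat_lit 0x5e0000bc00017e3ef2fe55d) (.hit (nat_lit 17) (nat_lit 24) (nat_lit 0x5e0000bc00017dcdbafd736) b53341 (.hit (nat_lit 22) (nat_lit 30) (nat_lit 0x5e0000bc00017e2872fe28d) b53344 (.one (nat_lit 6) (nat_lit 18) (nat_lit 25) (nat_lit 0x5e0000bc00017e3ef2fe55d) b53342 (.nil)))) (.one (nat_lit 56) (nat_lit 23) (nat_lit 31) (nat_lit 0x5e0000bc00017e1ac2fe0d7) b53345 (.nil))))) (.tok (nat_lit 64) (nat_lit 0x5e0000bc00017e80fafed9e) (.hit (nat_lit 25) (nat_lit 50) (nat_lit 0x5e0000bc00017e17cafe078)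 b53346 (.hit (nat_lit 26) (nat_lit 51) (nat_lit 0x5e0000bc00017e80fafed9e) b53347 (.nil))) (.tok (nat_lit 67) (nat_lit 0x5e0000bc00018025cb008cb) (.hit (nat_lit 27) (nat_lit 52) (nat_lit 0x5e0000bc00018025cb008cb) b53348 (.tok (nat_lit 3) (nat_lit 0x5e0000bc00017ec2baff5d6) (.hit (nat_lit 33) (nat_lit 58) (nat_lit 0x5e0000bc00017e81c2fedb7) b53351 (.one (nat_lit 55) (nat_lit 34) (nat_lit 59) (nat_lit 0x5e0000bc00017ec2baff5d6) b53352 (.nil))) (.tok (nat_lit 9) (nat_lit 0x5e0000bc00017e6072fe98d) (.hit (nat_lit 28) (nat_lit 53) (nat_lit 0x5e0000bc00017e46bafe656) b53349 (.hit (nat_lit 31) (nat_lit 56) (nat_lit 0x5e0000bc00017e6072fe98d) b53350 (.nil))) (.nil)))) (.one (nat_lit 70) (nat_lit 35) (nat_lit 60) (nat_lit 0x5e0000bc00017e7822fec83) b53353 (.nil)))))) (.tok (nat_lit 6) (nat_lit 0x5e0000bc000180c3ab03547) (.hit (nat_lit 0) (nat_lit 0) (nat_lit 0x5e0000bc00017fa93300a0f)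 b53324 (.tok (nat_lit 6) (nat_lit 0x5e0000bc00017ff3f3000fe) (.hit (nat_lit 1) (nat_lit 7) (nat_lit 0x5e0000bc00017ef4d2fe2f2) b53325 (.hit (nat_lit 4) (nat_lit 15) (nat_lit 0x5e0000bc00017e996afd840) b53328 (.tok (nat_lit 14) (nat_lit 0x5e0000bc00017ff3f3000fe) (.hit (nat_lit 2) (nat_lit 11) (nat_lit 0x5e0000bc00017fc47affac2) b53326 (.hit (nat_lit 5) (nat_lit 17) (nat_lit 0x5e0000bc00017eef6afe117) b53329 (.one (nat_lit 9) (nat_lit 3) (nat_lit 12) (nat_lit 0x5e0000bc00017ff3f3000fe) b53327 (.nil)))) (.one (nat_lit 68) (nat_lit 6) (nat_lit 18) (nat_lit 0x5e0000bc00017f9b4aff2dd) b53330 (.nil))))) (.tok (nat_lit 52) (nat_lit 0x5e0000bc0001803c330123e) (.hit (nat_lit 7) (nat_lit 39) (nat_lit 0x5e0000bc00017ff7db0123e) b53331 (.hit (nat_lit 8) (nat_lit 40) (nat_lit 0x5e0000bc0001803c33010e1) b53332 (.nil))) (.tok (nat_lit 55) (nat_lit 0x5e0000bc0001804363017b2) (.hit (nat_lit 9)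 (nat_lit 41) (nat_lit 0x5e0000bc000180130b010e4) b53333 (.tok (nat_lit 3) (nat_lit 0x5e0000bc0001804363017b2) (.hit (nat_lit 12) (nat_lit 47) (nat_lit 0x5e0000bc00017fd6cb00e66) b53336 (.one (nat_lit 67) (nat_lit 13) (nat_lit 48) (nat_lit 0x5e0000bc0001804363017b2) b53337 (.nil))) (.tok (nat_lit 6) (nat_lit 0x5e0000bc00017fb37300a35) (.hit (nat_lit 10) (nat_lit 42) (nat_lit 0x5e0000bc00017f490300a35) b53334 (.hit (nat_lit 11) (nat_lit 45) (nat_lit 0x5e0000bc00017fb372ffd85) b53335 (.nil))) (.nil)))) (.one (nat_lit 58) (nat_lit 14) (nat_lit 49) (nat_lit 0x5e0000bc000180c3ab03547) b53338 (.nil)))))) (.nil))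
noncomputable def r74_12 : Rw Blk := .tok (nat_lit 9) (nat_lit 0x1780002f0000600000c07ac980d09300915) (.hit (nat_lit 0) (nat_lit 0) (nat_lit 0x1780002f00005fb17abf86a17ef10afdcfb) b53354 (.tok (nat_lit 14) (nat_lit 0x1780002f00005ffa7cbfb6c97f71daff832) (.hit (nat_lit 21) (nat_lit 61) (nat_lit 0x1780002f00005fe1dcbfa0497f353afe914) b53355 (.one (nat_lit 3) (nat_lit 22) (nat_lit 62) (nat_lit 0x1780002f00005fea86bf6c317ed3f2fed65) b53356 (.tok (nat_lit 6) (nat_lit 0x1780002f00005ffa7cbfb6c97f71daff832) (.hit (nat_lit 25) (nat_lit 65) (nat_lit 0x1780002f00005ffa7cbfb6c97f71daff832) b53359 (.hit (nat_lit 26) (nat_lit 66) (nat_lit 0x1780002f00005fbe8ebf82497ef93afddad) b53360 (.nil))) (.tok (nat_lit 9) (nat_lit 0x1780002f00005fc190bf89117f06cafe261) (.hit (nat_lit 23) (nat_lit 63) (nat_lit 0x1780002f00005f7adcbf89117f06cafdf5f) b53357 (.hit (nat_lit 24) (nat_lit 64) (nat_lit 0x1780002f00005fc190bf82257f01b2fe261)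 b53358 (.nil))) (.nil))))) (.one (nat_lit 17) (nat_lit 27) (nat_lit 67) (nat_lit 0x1780002f00005fd004bf66217ec2d2fd987) b53361 (.tok (nat_lit 20) (nat_lit 0x1780002f00005fb044bf461d7e80e2fcea2) (.hit (nat_lit 28) (nat_lit 68) (nat_lit 0x1780002f00005f5962bf461d7e80e2fcea2) b53362 (.hit (nat_lit 29) (nat_lit 69) (nat_lit 0x1780002f00005fb044bf380d7e5d9afccbb) b53363 (.nil))) (.tok (nat_lit 23) (nat_lit 0x1780002f0000600000c07ac980d09300915) (.hit (nat_lit 30) (nat_lit 70) (nat_lit 0x1780002f0000600000c07ac980d09300915) b53364 (.hit (nat_lit 31) (nat_lit 71) (nat_lit 0x1780002f00005fb608bf41a17e8262fcfaf) b53365 (.nil))) (.one (nat_lit 38) (nat_lit 36) (nat_lit 76) (nat_lit 0x1780002f00005fad1ebf4e657e9172fd0b4) b53366 (.tok (nat_lit 41) (nat_lit 0x1780002f00005fa504bf48517e8e3afd253) (.hit (nat_lit 37) (nat_lit 77) (nat_lit 0x1780002f00005f9866befef17df722fcaad) b53367 (.hit (nat_lit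 38) (nat_lit 78) (nat_lit 0x1780002f00005fa504bf48517e8e3afd253) b53368 (.nil))) (.tok (nat_lit 44) (nat_lit 0x1780002f00005fd746bf5add7ea9eafdf2e) (.hit (nat_lit 39) (nat_lit 79) (nat_lit 0x1780002f00005f4a90bf28797e459afc739) b53369 (.hit (nat_lit 40) (nat_lit 80) (nat_lit 0x1780002f00005fd746bf5add7ea9eafdf2e) b53370 (.nil))) (.tok (nat_lit 47) (nat_lit 0x1780002f00005fc3d4bf5c7d7e846afddeb) (.hit (nat_lit 41) (nat_lit 81) (nat_lit 0x1780002f00005fc3d4bf5c7d7e846afddeb) b53371 (.hit (nat_lit 42) (nat_lit 82) (nat_lit 0x1780002f00005fac58bf09c97e1612fca81) b53372 (.nil))) (.one (nat_lit 50) (nat_lit 43) (nat_lit 83) (nat_lit 0x1780002f00005fa1f4bf37897e63bafcafd) b53373 (.tok (nat_lit 53) (nat_lit 0x1780002f00005fb994bf418d7e77c2fd206) (.hit (nat_lit 44) (nat_lit 84) (nat_lit 0x1780002f00005fb994bf418d7e77c2fd206) b53374 (.hit (nat_lit 45) (nat_lit 85) (nat_lit 0x1780002f00005f8f2cbf35a97e6762fcaaa)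 b53375 (.nil))) (.tok (nat_lit 56) (nat_lit 0x1780002f00005f9ee2bf98e57f112afe1c6) (.hit (nat_lit 46) (nat_lit 86) (nat_lit 0x1780002f00005f9ee2bf98e57f112afe1c6) b53376 (.one (nat_lit 3) (nat_lit 50) (nat_lit 90) (nat_lit 0x1780002f00005f5868bf44297e7cfafce25) b53380 (.tok (nat_lit 6) (nat_lit 0x1780002f00005f7c86bf8c657f0d72fe034) (.hit (nat_lit 48) (nat_lit 88) (nat_lit 0x1780002f00005f7c86bf8c657f0d72fe034) b53378 (.hit (nat_lit 49) (nat_lit 89) (nat_lit 0x1780002f00005f6be2bf6b1d7ecae2fd7e2) b53379 (.nil))) (.one (nat_lit 9) (nat_lit 47) (nat_lit 87) (nat_lit 0x1780002f00005f60aebf54b57e9e12fd248) b53377 (.nil))))) (.one (nat_lit 59) (nat_lit 51) (nat_lit 91) (nat_lit 0x1780002f00005faf42bf29cd7e4ddafcbfa) b53381 (.one (nat_lit 62) (nat_lit 52) (nat_lit 92) (nat_lit 0x1780002f00005fbfbabf3c957e790afd38c) b53382 (.tok (nat_lit 65) (nat_lit 0x1780002f00005fd5a6bf90b17f3db2feadc)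 (.hit (nat_lit 53) (nat_lit 93) (nat_lit 0x1780002f00005fd5a6bf90b17f3db2feadc) b53383 (.hit (nat_lit 54) (nat_lit 94) (nat_lit 0x1780002f00005fbd8abf4b157e9512fd703) b53384 (.nil))) (.tok (nat_lit 68) (nat_lit 0x1780002f00005fe00ebfdc797fa402febcb) (.hit (nat_lit 55) (nat_lit 95) (nat_lit 0x1780002f00005fd992bfb3397f46cafe559) b53385 (.one (nat_lit 3) (nat_lit 59) (nat_lit 99) (nat_lit 0x1780002f00005fc096bf8ad17ef76afd470) b53389 (.one (nat_lit 6) (nat_lit 56) (nat_lit 96) (nat_lit 0x1780002f00005fe00ebfdc797fa402febcb) b53386 (.tok (nat_lit 9) (nat_lit 0x1780002f00005fd978bf85697f048afe79e) (.hit (nat_lit 57) (nat_lit 97) (nat_lit 0x1780002f00005fd978bf85697f048afe79e) b53387 (.hit (nat_lit 58) (nat_lit 98) (nat_lit 0x1780002f00005fcdaabf54d97ea22afdc8a) b53388 (.nil))) (.nil))))) (.one (nat_lit 71) (nat_lit 60) (nat_lit 100) (nat_lit 0x1780002f00005fb452bf24197e4732fcce2)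 b53390 (.nil)))))))))))))))))) (.nil)
noncomputable def r74_13 : Rw Blk := .tok (nat_lit 9) (nat_lit 0x5e0000bc000180000300000) (.hit (nat_lit 0) (nat_lit 0) (nat_lit 0x5e0000bc00017ebddafde7d) b53391 (.tok (nat_lit 14) (nat_lit 0x5e0000bc000180000300000) (.hit (nat_lit 21) (nat_lit 61) (nat_lit 0x5e0000bc00017f8e02fe9d1) b53392 (.one (nat_lit 3) (nat_lit 22) (nat_lit 62) (nat_lit 0x5e0000bc00017f22b2fdffc) b53393 (.tok (nat_lit 6) (nat_lit 0x5e0000bc000180000300000) (.hit (nat_lit 25) (nat_lit 65) (nat_lit 0x5e0000bc000180000300000) b53396 (.hit (nat_lit 26) (nat_lit 66) (nat_lit 0x5e0000bc00017f4a5afe7b6) b53397 (.nil))) (.tok (nat_lit 9) (nat_lit 0x5e0000bc00017f2662fea62) (.hit (nat_lit 23) (nat_lit 63) (nat_lit 0x5e0000bc00017e9022fe71d) b53394 (.hit (nat_lit 24) (nat_lit 64) (nat_lit 0x5e0000bc00017f2662fea62) b53395 (.nil))) (.nil))))) (.one (nat_lit 17) (nat_lit 27) (nat_lit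 67) (nat_lit 0x5e0000bc00017ed372fd56b) b53398 (.tok (nat_lit 20) (nat_lit 0x5e0000bc00017ed222fdf9e) (.hit (nat_lit 28) (nat_lit 68) (nat_lit 0x5e0000bc00017e542afdf9e) b53399 (.hit (nat_lit 29) (nat_lit 69) (nat_lit 0x5e0000bc00017ed222fd3d7) b53400 (.nil))) (.tok (nat_lit 23) (nat_lit 0x5e0000bc00017f1b92fe68a) (.hit (nat_lit 30) (nat_lit 70) (nat_lit 0x5e0000bc00017f1b92fe68a) b53401 (.hit (nat_lit 31) (nat_lit 71) (nat_lit 0x5e0000bc00017eba02fd3d9) b53402 (.nil))) (.one (nat_lit 38) (nat_lit 36) (nat_lit 76) (nat_lit 0x5e0000bc00017eb12afd5ab) b53403 (.tok (nat_lit 41) (nat_lit 0x5e0000bc00017e9e3afccb6) (.hit (nat_lit 37) (nat_lit 77) (nat_lit 0x5e0000bc00017e9e3afc69e) b53404 (.hit (nat_lit 38) (nat_lit 78) (nat_lit 0x5e0000bc00017e85aafccb6) b53405 (.nil))) (.tok (nat_lit 44) (nat_lit 0x5e0000bc00017edb8afcc2c) (.hit (nat_lit 39) (nat_lit 79) (nat_lit 0x5e0000bc00017d41cafbd52)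 b53406 (.hit (nat_lit 40) (nat_lit 80) (nat_lit 0x5e0000bc00017edb8afcc2c) b53407 (.nil))) (.tok (nat_lit 47) (nat_lit 0x5e0000bc00017eea6afcf1a) (.hit (nat_lit 41) (nat_lit 81) (nat_lit 0x5e0000bc00017eea6afcf1a) b53408 (.hit (nat_lit 42) (nat_lit 82) (nat_lit 0x5e0000bc00017ea65afc995) b53409 (.nil))) (.one (nat_lit 50) (nat_lit 43) (nat_lit 83) (nat_lit 0x5e0000bc00017ea5b2fcf19) b53410 (.tok (nat_lit 53) (nat_lit 0x5e0000bc00017e8c7afd5cc) (.hit (nat_lit 44) (nat_lit 84) (nat_lit 0x5e0000bc00017e65d2fd5cc) b53411 (.hit (nat_lit 45) (nat_lit 85) (nat_lit 0x5e0000bc00017e8c7afc780) b53412 (.nil))) (.tok (nat_lit 56) (nat_lit 0x5e0000bc00017ec4bafe83a) (.hit (nat_lit 46) (nat_lit 86) (nat_lit 0x5e0000bc00017ec4bafe83a) b53413 (.one (nat_lit 3) (nat_lit 50) (nat_lit 90) (nat_lit 0x5e0000bc00017e4582fddc9) b53417 (.tok (nat_lit 6) (nat_lit 0x5e0000bc00017e5ef2fe0f7) (.hit (nat_lit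 48) (nat_lit 88) (nat_lit 0x5e0000bc00017e5ef2fe0f7) b53415 (.hit (nat_lit 49) (nat_lit 89) (nat_lit 0x5e0000bc00017e4c62fdea5) b53416 (.nil))) (.one (nat_lit 9) (nat_lit 47) (nat_lit 87) (nat_lit 0x5e0000bc00017e3a7afdc68) b53414 (.nil))))) (.one (nat_lit 59) (nat_lit 51) (nat_lit 91) (nat_lit 0x5e0000bc00017ea5fafc5b9) b53418 (.one (nat_lit 62) (nat_lit 52) (nat_lit 92) (nat_lit 0x5e0000bc00017f01c2fd0eb) b53419 (.tok (nat_lit 65) (nat_lit 0x5e0000bc00017f110afe065) (.hit (nat_lit 53) (nat_lit 93) (nat_lit 0x5e0000bc00017f110afe065) b53420 (.hit (nat_lit 54) (nat_lit 94) (nat_lit 0x5e0000bc00017eed6afceda) b53421 (.nil))) (.tok (nat_lit 68) (nat_lit 0x5e0000bc00017fc1aafee79) (.hit (nat_lit 55) (nat_lit 95) (nat_lit 0x5e0000bc00017f7efafeb58) b53422 (.one (nat_lit 3) (nat_lit 59) (nat_lit 99) (nat_lit 0x5e0000bc00017f2a92fd881) b53426 (.one (nat_lit 6) (nat_lit 56) (nat_lit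 96) (nat_lit 0x5e0000bc00017fa692fedc5) b53423 (.tok (nat_lit 9) (nat_lit 0x5e0000bc00017fc1aafee79) (.hit (nat_lit 57) (nat_lit 97) (nat_lit 0x5e0000bc00017fc1aafee79) b53424 (.hit (nat_lit 58) (nat_lit 98) (nat_lit 0x5e0000bc00017f2212fd869) b53425 (.nil))) (.nil))))) (.one (nat_lit 71) (nat_lit 60) (nat_lit 100) (nat_lit 0x5e0000bc00017ec4dafc952) b53427 (.nil)))))))))))))))))) (.nil)
noncomputable def r74_14 : Rw Blk := .tok (nat_lit 6) (nat_lit 0x2feb0b5fdbe0bfd9517fc362fe04f5fd44ec000017fb92afe9da) (.hit (nat_lit 81) (nat_lit 0) (nat_lit 0x2fe4b85fd5d4bf98697fc362fe04f5fd44ebfc2397fb92afe078) b53428 (.tok (nat_lit 3) (nat_lit 0x2feb0b5fdbe0bfd9517f9be2fd8c55fca52c000017f91aafe9da) (.hit (nat_lit 82) (nat_lit 1) (nat_lit 0x2fcbb35f88b0bf69c97e95e2fb8055f88d2bf619d7e8baafcbb3) b53429 (.one (nat_lit 14) (nat_lit 84) (nat_lit 4) (nat_lit 0x2fe8a95fdbe0bfbe497f5bbafc2895fa1a8bff5e97f4402fe778)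 b53430 (.one (nat_lit 56) (nat_lit 86) (nat_lit 6) (nat_lit 0x2fde885fbe9cbf85197f2adafca625fad8cbfbfb17f1e92fe175) b53432 (.one (nat_lit 68) (nat_lit 85) (nat_lit 5) (nat_lit 0x2feb0b5fd3a2bfd9517f9be2fd8c55fca52c000017f91aafe9da) b53431 (.nil))))) (.nil))) (.tok (nat_lit 9) (nat_lit 0x300000600000c0000180000300000600000bfd64d80000300000) (.hit (nat_lit 157) (nat_lit 0) (nat_lit 0x2fe4b85fd5d4bf98697fc422fde715fd432bfc1197fb92afe051) b53433 (.tok (nat_lit 3) (nat_lit 0x2feb0b5fdbe0bfd9517f9be2ff0095fca52bfa43d7f91aafe9da) (.hit (nat_lit 158) (nat_lit 1) (nat_lit 0x2fcbb35f88b0bf69c97e95e2fc86c5f88d2bf213d7e8baafcbb3) b53434 (.one (nat_lit 14) (nat_lit 160) (nat_lit 4) (nat_lit 0x2fe8a95fdbe0bfbe497ef932fed455fb9e8bf4b4d7f42f2fe778) b53435 (.one (nat_lit 56) (nat_lit 162) (nat_lit 6) (nat_lit 0x2feb0b5fd3a2bfd9517f9be2ff0095fca52bfa43d7f91aafe9da) b53437 (.one (nat_lit 68) (nat_lit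 161) (nat_lit 5) (nat_lit 0x2fde885fbe9cbf85197f28cafdff55fadc2bf6ab17f1e92fe175) b53436 (.nil))))) (.tok (nat_lit 40) (nat_lit 0x2fe7215fd042bfb9597f3beafe7925fc636bf74417f40d2fe807) (.hit (nat_lit 176) (nat_lit 33) (nat_lit 0x2fe7215fd042bfb9597f3beafe7925fba30bf74417f40d2fe807) b53438 (.hit (nat_lit 177) (nat_lit 34) (nat_lit 0x2fe2775fb726bf90d17f0a1afe5395fc636bf5b597f164afe321) b53439 (.nil))) (.tok (nat_lit 43) (nat_lit 0x3000005ff54cc00001800002ffe8a600000bfd64d80000300000) (.hit (nat_lit 178) (nat_lit 35) (nat_lit 0x2fe23a5fbc94bfed7d800002fe5495fe35abfd64d7ff5cafe881) b53440 (.hit (nat_lit 179) (nat_lit 36) (nat_lit 0x3000005ff54cc000017fb432ffe8a600000bfae9980000300000) b53441 (.nil))) (.tok (nat_lit 46) (nat_lit 0x2fecc7600000bfc0317fd0e3000005fd792bfbebd7fe4e2ff02b) (.hit (nat_lit 180) (nat_lit 37) (nat_lit 0x2fecc7600000bfc0317fd0e3000005fd792bfbebd7fe4e2ff02b) b53442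 (.hit (nat_lit 181) (nat_lit 38) (nat_lit 0x2fe7225fd476bfbc317f843afe4c95fd1c6bf98697f7a02fe8e9) b53443 (.nil))) (.nil)))))) (.nil))
noncomputable def r74_15 : Rw Blk := .tok (nat_lit 3) (nat_lit 0xbc000178000300000) (.hit (nat_lit 61) (nat_lit 0) (nat_lit 0xbc0001780002fed3f) b12933 (.tok (nat_lit 14) (nat_lit 0xbc000178000300000) (.hit (nat_lit 82) (nat_lit 61) (nat_lit 0xbc000178000300000) b12934 (.one (nat_lit 3) (nat_lit 83) (nat_lit 62) (nat_lit 0xbc0001780002fda5e) b12935 (.tok (nat_lit 6) (nat_lit 0xbc0001780002fdee9) (.hit (nat_lit 86) (nat_lit 65) (nat_lit 0xbc0001780002fde0e) b12938 (.hit (nat_lit 87) (nat_lit 66) (nat_lit 0xbc0001780002fdee9) b12939 (.nil))) (.tok (nat_lit 9) (nat_lit 0xbc0001780002ffe02) (.hit (nat_lit 84) (nat_lit 63) (nat_lit 0xbc0001780002ffe02) b12936 (.hit (nat_lit 85) (nat_lit 64) (nat_lit 0xbc0001780002fdd1b) b12937 (.nil))) (.nil))))) (.one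 (nat_lit 17) (nat_lit 88) (nat_lit 67) (nat_lit 0xbc0001780002fd600) b12940 (.tok (nat_lit 20) (nat_lit 0xbc0001780002fdc29) (.hit (nat_lit 89) (nat_lit 68) (nat_lit 0xbc0001780002fdc29) b12941 (.hit (nat_lit 90) (nat_lit 69) (nat_lit 0xbc0001780002fd409) b12942 (.nil))) (.tok (nat_lit 23) (nat_lit 0xbc0001780002fe24e) (.hit (nat_lit 91) (nat_lit 70) (nat_lit 0xbc0001780002fe24e) b12943 (.hit (nat_lit 92) (nat_lit 71) (nat_lit 0xbc0001780002fd429) b12944 (.nil))) (.one (nat_lit 38) (nat_lit 97) (nat_lit 76) (nat_lit 0xbc0001780002fd320) b12945 (.tok (nat_lit 41) (nat_lit 0xbc0001780002fd15b) (.hit (nat_lit 98) (nat_lit 77) (nat_lit 0xbc0001780002fbadf) b12946 (.hit (nat_lit 99) (nat_lit 78) (nat_lit 0xbc0001780002fd15b) b12947 (.nil))) (.tok (nat_lit 44) (nat_lit 0xbc0001780002fcb88) (.hit (nat_lit 100) (nat_lit 79) (nat_lit 0xbc0001780002fbef3) b12948 (.hit (nat_lit 101) (nat_lit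 80) (nat_lit 0xbc0001780002fcb88) b12949 (.nil))) (.tok (nat_lit 47) (nat_lit 0xbc0001780002fcc75) (.hit (nat_lit 102) (nat_lit 81) (nat_lit 0xbc0001780002fcb7b) b12950 (.hit (nat_lit 103) (nat_lit 82) (nat_lit 0xbc0001780002fcc75) b12951 (.nil))) (.one (nat_lit 50) (nat_lit 104) (nat_lit 83) (nat_lit 0xbc0001780002fd3a2) b12952 (.tok (nat_lit 53) (nat_lit 0xbc0001780002fd6ed) (.hit (nat_lit 105) (nat_lit 84) (nat_lit 0xbc0001780002fd6ed) b12953 (.hit (nat_lit 106) (nat_lit 85) (nat_lit 0xbc0001780002fd015) b12954 (.nil))) (.tok (nat_lit 56) (nat_lit 0xbc0001780002ff0b0) (.hit (nat_lit 107) (nat_lit 86) (nat_lit 0xbc0001780002ff0b0) b12955 (.one (nat_lit 3) (nat_lit 111) (nat_lit 90) (nat_lit 0xbc0001780002fdebc) b12959 (.tok (nat_lit 6) (nat_lit 0xbc0001780002ff0a7) (.hit (nat_lit 109) (nat_lit 88) (nat_lit 0xbc0001780002ff0a7) b12957 (.hit (nat_lit 110) (nat_lit 89) (nat_lit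 0xbc0001780002fdef0) b12958 (.nil))) (.one (nat_lit 9) (nat_lit 108) (nat_lit 87) (nat_lit 0xbc0001780002fe1c3) b12956 (.nil))))) (.one (nat_lit 59) (nat_lit 112) (nat_lit 91) (nat_lit 0xbc0001780002fbf53) b12960 (.one (nat_lit 62) (nat_lit 113) (nat_lit 92) (nat_lit 0xbc0001780002fda6b) b12961 (.tok (nat_lit 65) (nat_lit 0xbc0001780002fe024) (.hit (nat_lit 114) (nat_lit 93) (nat_lit 0xbc0001780002fe024) b12962 (.hit (nat_lit 115) (nat_lit 94) (nat_lit 0xbc0001780002fd028) b12963 (.nil))) (.tok (nat_lit 68) (nat_lit 0xbc0001780002fff17) (.hit (nat_lit 116) (nat_lit 95) (nat_lit 0xbc0001780002fff17) b12964 (.one (nat_lit 3) (nat_lit 120) (nat_lit 99) (nat_lit 0xbc0001780002fe5aa) b12968 (.one (nat_lit 6) (nat_lit 117) (nat_lit 96) (nat_lit 0xbc0001780002fe8b1) b12965 (.tok (nat_lit 9) (nat_lit 0xbc0001780002feda6) (.hit (nat_lit 118) (nat_lit 97) (nat_lit 0xbc0001780002fe911) b12966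 (.hit (nat_lit 119) (nat_lit 98) (nat_lit 0xbc0001780002feda6) b12967 (.nil))) (.nil))))) (.one (nat_lit 71) (nat_lit 121) (nat_lit 100) (nat_lit 0xbc0001780002fbf33) b12969 (.nil)))))))))))))))))) (.nil)
noncomputable def r74_16 : Rw Blk := .tok (nat_lit 3) (nat_lit 0xbc000178000300000) (.hit (nat_lit 61) (nat_lit 0) (nat_lit 0xbc0001780002feaa6) b12970 (.tok (nat_lit 14) (nat_lit 0xbc0001780002fff4f) (.hit (nat_lit 82) (nat_lit 61) (nat_lit 0xbc0001780002ffc17) b12971 (.one (nat_lit 3) (nat_lit 83) (nat_lit 62) (nat_lit 0xbc0001780002feeb2) b12972 (.tok (nat_lit 6) (nat_lit 0xbc0001780002fff4f) (.hit (nat_lit 86) (nat_lit 65) (nat_lit 0xbc0001780002fff4f) b12975 (.hit (nat_lit 87) (nat_lit 66) (nat_lit 0xbc0001780002fe88d) b12976 (.nil))) (.tok (nat_lit 9) (nat_lit 0xbc0001780002ffdfe) (.hit (nat_lit 84) (nat_lit 63) (nat_lit 0xbc0001780002ffdfe) b12973 (.hit (nat_lit 85) (nat_lit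 64) (nat_lit 0xbc0001780002ff83a) b12974 (.nil))) (.nil))))) (.one (nat_lit 17) (nat_lit 88) (nat_lit 67) (nat_lit 0xbc0001780002fe79e) b12977 (.tok (nat_lit 20) (nat_lit 0xbc0001780002fe1f4) (.hit (nat_lit 89) (nat_lit 68) (nat_lit 0xbc0001780002fe1f4) b12978 (.hit (nat_lit 90) (nat_lit 69) (nat_lit 0xbc0001780002fd9ab) b12979 (.nil))) (.tok (nat_lit 23) (nat_lit 0xbc0001780002fe0ee) (.hit (nat_lit 91) (nat_lit 70) (nat_lit 0xbc0001780002fe0ee) b12980 (.hit (nat_lit 92) (nat_lit 71) (nat_lit 0xbc0001780002fd9ab) b12979 (.nil))) (.one (nat_lit 38) (nat_lit 97) (nat_lit 76) (nat_lit 0xbc0001780002fdad4) b12981 (.tok (nat_lit 41) (nat_lit 0xbc0001780002fe302) (.hit (nat_lit 98) (nat_lit 77) (nat_lit 0xbc0001780002fbfc2) b12982 (.hit (nat_lit 99) (nat_lit 78) (nat_lit 0xbc0001780002fe302) b12983 (.nil))) (.tok (nat_lit 44) (nat_lit 0xbc0001780002fd459) (.hit (nat_lit 100) (nat_lit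 79) (nat_lit 0xbc0001780002fc9a3) b12984 (.hit (nat_lit 101) (nat_lit 80) (nat_lit 0xbc0001780002fd459) b12985 (.nil))) (.tok (nat_lit 47) (nat_lit 0xbc0001780002fdaf4) (.hit (nat_lit 102) (nat_lit 81) (nat_lit 0xbc0001780002fcf25) b12986 (.hit (nat_lit 103) (nat_lit 82) (nat_lit 0xbc0001780002fdaf4) b12987 (.nil))) (.one (nat_lit 50) (nat_lit 104) (nat_lit 83) (nat_lit 0xbc0001780002fd84c) b12988 (.tok (nat_lit 53) (nat_lit 0xbc0001780002fe1e7) (.hit (nat_lit 105) (nat_lit 84) (nat_lit 0xbc0001780002fdbd2) b12989 (.hit (nat_lit 106) (nat_lit 85) (nat_lit 0xbc0001780002fe1e7) b12990 (.nil))) (.tok (nat_lit 56) (nat_lit 0xbc0001780002ff32e) (.hit (nat_lit 107) (nat_lit 86) (nat_lit 0xbc0001780002ff259) b12991 (.one (nat_lit 3) (nat_lit 111) (nat_lit 90) (nat_lit 0xbc0001780002feacd) b12995 (.tok (nat_lit 6) (nat_lit 0xbc0001780002ff32e) (.hit (nat_lit 109) (nat_lit 88) (nat_lit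 0xbc0001780002ff32e) b12993 (.hit (nat_lit 110) (nat_lit 89) (nat_lit 0xbc0001780002fe197) b12994 (.nil))) (.one (nat_lit 9) (nat_lit 108) (nat_lit 87) (nat_lit 0xbc0001780002fea6a) b12992 (.nil))))) (.one (nat_lit 59) (nat_lit 112) (nat_lit 91) (nat_lit 0xbc0001780002fc5ac) b12996 (.one (nat_lit 62) (nat_lit 113) (nat_lit 92) (nat_lit 0xbc0001780002fdc9a) b12997 (.tok (nat_lit 65) (nat_lit 0xbc0001780002fede6) (.hit (nat_lit 114) (nat_lit 93) (nat_lit 0xbc0001780002fede6) b12998 (.hit (nat_lit 115) (nat_lit 94) (nat_lit 0xbc0001780002fde04) b12999 (.nil))) (.tok (nat_lit 68) (nat_lit 0xbc000178000300000) (.hit (nat_lit 116) (nat_lit 95) (nat_lit 0xbc0001780002ffc6b) b13000 (.one (nat_lit 3) (nat_lit 120) (nat_lit 99) (nat_lit 0xbc0001780002fe0d0) b13004 (.one (nat_lit 6) (nat_lit 117) (nat_lit 96) (nat_lit 0xbc0001780002ff7d2) b13001 (.tok (nat_lit 9) (nat_lit 0xbc000178000300000)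 (.hit (nat_lit 118) (nat_lit 97) (nat_lit 0xbc000178000300000) b13002 (.hit (nat_lit 119) (nat_lit 98) (nat_lit 0xbc0001780002fda2d) b13003 (.nil))) (.nil))))) (.one (nat_lit 71) (nat_lit 121) (nat_lit 100) (nat_lit 0xbc0001780002fc599) b13005 (.nil)))))))))))))))))) (.nil)
noncomputable def r74_17 : Rw Blk := .tok (nat_lit 3) (nat_lit 0xbc0001780002fe9d3) (.hit (nat_lit 61) (nat_lit 0) (nat_lit 0xbc0001780002fd712) b53444 (.tok (nat_lit 14) (nat_lit 0xbc0001780002fe9d3) (.hit (nat_lit 82) (nat_lit 61) (nat_lit 0xbc0001780002fe9d3) b53445 (.one (nat_lit 3) (nat_lit 83) (nat_lit 62) (nat_lit 0xbc0001780002fc431) b53446 (.tok (nat_lit 6) (nat_lit 0xbc0001780002fe7d5) (.hit (nat_lit 86) (nat_lit 65) (nat_lit 0xbc0001780002fe7d5) b53449 (.hit (nat_lit 87) (nat_lit 66) (nat_lit 0xbc0001780002fc6ee) b53450 (.nil))) (.tok (nat_lit 9) (nat_lit 0xbc0001780002fc8bc) (.hit (nat_lit 84) (nat_lit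 63) (nat_lit 0xbc0001780002fc7e1) b53447 (.hit (nat_lit 85) (nat_lit 64) (nat_lit 0xbc0001780002fc8bc) b53448 (.nil))) (.nil))))) (.one (nat_lit 17) (nat_lit 88) (nat_lit 67) (nat_lit 0xbc0001780002fbfd3) b53451 (.tok (nat_lit 20) (nat_lit 0xbc0001780002fcc21) (.hit (nat_lit 89) (nat_lit 68) (nat_lit 0xbc0001780002fcc21) b53452 (.hit (nat_lit 90) (nat_lit 69) (nat_lit 0xbc0001780002fbdfc) b53453 (.nil))) (.tok (nat_lit 23) (nat_lit 0xbc0001780002fc5fc) (.hit (nat_lit 91) (nat_lit 70) (nat_lit 0xbc0001780002fc5fc) b53454 (.hit (nat_lit 92) (nat_lit 71) (nat_lit 0xbc0001780002fbddc) b53455 (.nil))) (.one (nat_lit 26) (nat_lit 93) (nat_lit 72) (nat_lit 0xbc0001780002fab61) b53456 (.one (nat_lit 29) (nat_lit 94) (nat_lit 73) (nat_lit 0xbc0001780002fadec) b53457 (.one (nat_lit 32) (nat_lit 95) (nat_lit 74) (nat_lit 0xbc0001780002fb20d) b53458 (.one (nat_lit 35) (nat_lit 96) (nat_lit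 75) (nat_lit 0xbc0001780002fb71b) b53459 (.one (nat_lit 50) (nat_lit 104) (nat_lit 83) (nat_lit 0xbc0001780002fc43e) b53460 (.tok (nat_lit 53) (nat_lit 0xbc0001780002fc9f7) (.hit (nat_lit 105) (nat_lit 84) (nat_lit 0xbc0001780002fc9f7) b53461 (.hit (nat_lit 106) (nat_lit 85) (nat_lit 0xbc0001780002fb9fb) b53462 (.nil))) (.tok (nat_lit 56) (nat_lit 0xbc0001780002fe8ea) (.hit (nat_lit 107) (nat_lit 86) (nat_lit 0xbc0001780002fe8ea) b53463 (.one (nat_lit 3) (nat_lit 111) (nat_lit 90) (nat_lit 0xbc0001780002fcf7d) b53467 (.tok (nat_lit 6) (nat_lit 0xbc0001780002fd779) (.hit (nat_lit 109) (nat_lit 88) (nat_lit 0xbc0001780002fd2e4) b53465 (.hit (nat_lit 110) (nat_lit 89) (nat_lit 0xbc0001780002fd779) b53466 (.nil))) (.one (nat_lit 9) (nat_lit 108) (nat_lit 87) (nat_lit 0xbc0001780002fd284) b53464 (.nil))))) (.one (nat_lit 59) (nat_lit 112) (nat_lit 91) (nat_lit 0xbc0001780002fa906)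 b53468 (.one (nat_lit 62) (nat_lit 113) (nat_lit 92) (nat_lit 0xbc0001780002fbd75) b53469 (.tok (nat_lit 65) (nat_lit 0xbc0001780002fc0c0) (.hit (nat_lit 114) (nat_lit 93) (nat_lit 0xbc0001780002fc0c0) b53470 (.hit (nat_lit 115) (nat_lit 94) (nat_lit 0xbc0001780002fb9e8) b53471 (.nil))) (.tok (nat_lit 68) (nat_lit 0xbc0001780002fda83) (.hit (nat_lit 116) (nat_lit 95) (nat_lit 0xbc0001780002fda83) b53472 (.one (nat_lit 3) (nat_lit 120) (nat_lit 99) (nat_lit 0xbc0001780002fc88f) b53476 (.one (nat_lit 6) (nat_lit 117) (nat_lit 96) (nat_lit 0xbc0001780002fcb96) b53473 (.tok (nat_lit 9) (nat_lit 0xbc0001780002fda7a) (.hit (nat_lit 118) (nat_lit 97) (nat_lit 0xbc0001780002fda7a) b53474 (.hit (nat_lit 119) (nat_lit 98) (nat_lit 0xbc0001780002fc8c3) b53475 (.nil))) (.nil))))) (.one (nat_lit 71) (nat_lit 121) (nat_lit 100) (nat_lit 0xbc0001780002fa926) b53477 (.nil)))))))))))))))))) (.tok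 (nat_lit 40) (nat_lit 0xbc00017800030421b) (.hit (nat_lit 221) (nat_lit 0) (nat_lit 0xbc000178000301265) b53478 (.tok (nat_lit 6) (nat_lit 0xbc0001780002fff4d) (.hit (nat_lit 222) (nat_lit 7) (nat_lit 0xbc0001780002fff4d) b53479 (.hit (nat_lit 223) (nat_lit 15) (nat_lit 0xbc0001780002fea20) b53480 (.nil))) (.tok (nat_lit 9) (nat_lit 0xbc00017800030421b) (.hit (nat_lit 224) (nat_lit 20) (nat_lit 0xbc00017800030421b) b53481 (.hit (nat_lit 225) (nat_lit 28) (nat_lit 0xbc0001780002ffaf3) b53482 (.nil))) (.nil)))) (.tok (nat_lit 43) (nat_lit 0xbc000178000300f48) (.hit (nat_lit 232) (nat_lit 0) (nat_lit 0xbc000178000300f48) b53483 (.tok (nat_lit 3) (nat_lit 0xbc0001780002ff075) (.hit (nat_lit 233) (nat_lit 1) (nat_lit 0xbc0001780002fd884) b53484 (.one (nat_lit 67) (nat_lit 234) (nat_lit 2) (nat_lit 0xbc0001780002ff075) b53485 (.nil))) (.tok (nat_lit 6) (nat_lit 0xbc0001780002ffd5a)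 (.hit (nat_lit 235) (nat_lit 7) (nat_lit 0xbc0001780002fe04e) b53486 (.hit (nat_lit 238) (nat_lit 15) (nat_lit 0xbc0001780002fdb1f) b53489 (.tok (nat_lit 55) (nat_lit 0xbc0001780002ffd5a) (.hit (nat_lit 236) (nat_lit 8) (nat_lit 0xbc0001780002ff696) b53487 (.hit (nat_lit 239) (nat_lit 16) (nat_lit 0xbc0001780002ffd5a) b53490 (.one (nat_lit 6) (nat_lit 237) (nat_lit 9) (nat_lit 0xbc0001780002ffabd) b53488 (.nil)))) (.nil)))) (.nil)))) (.tok (nat_lit 46) (nat_lit 0xbc000178000303114) (.hit (nat_lit 246) (nat_lit 0) (nat_lit 0xbc0001780003002eb) b53491 (.tok (nat_lit 3) (nat_lit 0xbc000178000303114) (.hit (nat_lit 247) (nat_lit 1) (nat_lit 0xbc0001780002ffa2f) b53492 (.one (nat_lit 55) (nat_lit 248) (nat_lit 3) (nat_lit 0xbc000178000303114) b53493 (.nil))) (.tok (nat_lit 9) (nat_lit 0xbc0001780003019e6) (.hit (nat_lit 249) (nat_lit 20) (nat_lit 0xbc0001780002fed0f) b53494 (.hit (nat_lit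 252) (nat_lit 28) (nat_lit 0xbc0001780002ff1b6) b53497 (.tok (nat_lit 67) (nat_lit 0xbc0001780003019e6) (.hit (nat_lit 250) (nat_lit 21) (nat_lit 0xbc0001780002ffa49) b53495 (.hit (nat_lit 253) (nat_lit 29) (nat_lit 0xbc0001780003019e6) b53498 (.one (nat_lit 9) (nat_lit 251) (nat_lit 22) (nat_lit 0xbc000178000301671) b53496 (.nil)))) (.nil)))) (.nil)))) (.nil))))
noncomputable def r74_18 : Rw Blk := .tok (nat_lit 3) (nat_lit 0xbc0001780002fdc12) (.hit (nat_lit 61) (nat_lit 0) (nat_lit 0xbc0001780002fc6b8) b53499 (.tok (nat_lit 14) (nat_lit 0xbc0001780002fdb61) (.hit (nat_lit 82) (nat_lit 61) (nat_lit 0xbc0001780002fd829) b53500 (.one (nat_lit 3) (nat_lit 83) (nat_lit 62) (nat_lit 0xbc0001780002fcac4) b53501 (.tok (nat_lit 6) (nat_lit 0xbc0001780002fda10) (.hit (nat_lit 86) (nat_lit 65) (nat_lit 0xbc0001780002fda10) b53504 (.hit (nat_lit 87) (nat_lit 66) (nat_lit 0xbc0001780002fd44c)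 b53505 (.nil))) (.tok (nat_lit 9) (nat_lit 0xbc0001780002fdb61) (.hit (nat_lit 84) (nat_lit 63) (nat_lit 0xbc0001780002fdb61) b53502 (.hit (nat_lit 85) (nat_lit 64) (nat_lit 0xbc0001780002fc49f) b53503 (.nil))) (.nil))))) (.one (nat_lit 17) (nat_lit 88) (nat_lit 67) (nat_lit 0xbc0001780002fc3b0) b53506 (.tok (nat_lit 20) (nat_lit 0xbc0001780002fbd00) (.hit (nat_lit 89) (nat_lit 68) (nat_lit 0xbc0001780002fbd00) b53507 (.hit (nat_lit 90) (nat_lit 69) (nat_lit 0xbc0001780002fb5bd) b53508 (.nil))) (.tok (nat_lit 23) (nat_lit 0xbc0001780002fbe06) (.hit (nat_lit 91) (nat_lit 70) (nat_lit 0xbc0001780002fbe06) b53509 (.hit (nat_lit 92) (nat_lit 71) (nat_lit 0xbc0001780002fb5bd) b53508 (.nil))) (.one (nat_lit 26) (nat_lit 93) (nat_lit 72) (nat_lit 0xbc0001780002faa45) b53510 (.one (nat_lit 29) (nat_lit 94) (nat_lit 73) (nat_lit 0xbc0001780002fab01) b53511 (.one (nat_lit 32) (nat_lit 95)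 (nat_lit 74) (nat_lit 0xbc0001780002fa636) b53512 (.one (nat_lit 35) (nat_lit 96) (nat_lit 75) (nat_lit 0xbc0001780002fafee) b53513 (.one (nat_lit 50) (nat_lit 104) (nat_lit 83) (nat_lit 0xbc0001780002fb8ac) b53514 (.tok (nat_lit 53) (nat_lit 0xbc0001780002fc9f8) (.hit (nat_lit 105) (nat_lit 84) (nat_lit 0xbc0001780002fc9f8) b53515 (.hit (nat_lit 106) (nat_lit 85) (nat_lit 0xbc0001780002fba16) b53516 (.nil))) (.tok (nat_lit 56) (nat_lit 0xbc0001780002fdc12) (.hit (nat_lit 107) (nat_lit 86) (nat_lit 0xbc0001780002fd87d) b53517 (.one (nat_lit 3) (nat_lit 111) (nat_lit 90) (nat_lit 0xbc0001780002fbce2) b53521 (.tok (nat_lit 6) (nat_lit 0xbc0001780002fdc12) (.hit (nat_lit 109) (nat_lit 88) (nat_lit 0xbc0001780002fdc12) b53519 (.hit (nat_lit 110) (nat_lit 89) (nat_lit 0xbc0001780002fb63f) b53520 (.nil))) (.one (nat_lit 9) (nat_lit 108) (nat_lit 87) (nat_lit 0xbc0001780002fd3e4) b53518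 (.nil))))) (.one (nat_lit 59) (nat_lit 112) (nat_lit 91) (nat_lit 0xbc0001780002fa1ab) b53522 (.one (nat_lit 62) (nat_lit 113) (nat_lit 92) (nat_lit 0xbc0001780002fb45e) b53523 (.tok (nat_lit 65) (nat_lit 0xbc0001780002fbdf9) (.hit (nat_lit 114) (nat_lit 93) (nat_lit 0xbc0001780002fb7e4) b53524 (.hit (nat_lit 115) (nat_lit 94) (nat_lit 0xbc0001780002fbdf9) b53525 (.nil))) (.tok (nat_lit 68) (nat_lit 0xbc0001780002fcf40) (.hit (nat_lit 116) (nat_lit 95) (nat_lit 0xbc0001780002fce6b) b53526 (.one (nat_lit 3) (nat_lit 120) (nat_lit 99) (nat_lit 0xbc0001780002fc6df) b53530 (.one (nat_lit 6) (nat_lit 117) (nat_lit 96) (nat_lit 0xbc0001780002fc67c) b53527 (.tok (nat_lit 9) (nat_lit 0xbc0001780002fcf40) (.hit (nat_lit 118) (nat_lit 97) (nat_lit 0xbc0001780002fcf40) b53528 (.hit (nat_lit 119) (nat_lit 98) (nat_lit 0xbc0001780002fbda9) b53529 (.nil))) (.nil))))) (.one (nat_lit 71) (nat_lit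 121) (nat_lit 100) (nat_lit 0xbc0001780002fa1be) b53531 (.nil)))))))))))))))))) (.tok (nat_lit 40) (nat_lit 0xbc0001780002ff966) (.hit (nat_lit 221) (nat_lit 0) (nat_lit 0xbc0001780002ff966) b53532 (.tok (nat_lit 6) (nat_lit 0xbc0001780002fe799) (.hit (nat_lit 222) (nat_lit 7) (nat_lit 0xbc0001780002fe799) b53533 (.hit (nat_lit 223) (nat_lit 15) (nat_lit 0xbc0001780002fe17a) b53534 (.nil))) (.tok (nat_lit 9) (nat_lit 0xbc0001780002ff896) (.hit (nat_lit 224) (nat_lit 20) (nat_lit 0xbc0001780002ff896) b53535 (.hit (nat_lit 225) (nat_lit 28) (nat_lit 0xbc0001780002fec44) b53536 (.nil))) (.nil)))) (.tok (nat_lit 43) (nat_lit 0xbc000178000300d38) (.hit (nat_lit 232) (nat_lit 0) (nat_lit 0xbc0001780002ff7d4) b53537 (.tok (nat_lit 3) (nat_lit 0xbc000178000300506) (.hit (nat_lit 233) (nat_lit 1) (nat_lit 0xbc0001780002fe3d3) b53538 (.one (nat_lit 67) (nat_lit 234) (nat_lit 2) (nat_lit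 0xbc000178000300506) b53539 (.nil))) (.tok (nat_lit 6) (nat_lit 0xbc000178000300d38) (.hit (nat_lit 235) (nat_lit 7) (nat_lit 0xbc0001780002ffffc) b53540 (.hit (nat_lit 238) (nat_lit 15) (nat_lit 0xbc0001780002ff487) b53543 (.tok (nat_lit 55) (nat_lit 0xbc000178000300d38) (.hit (nat_lit 236) (nat_lit 8) (nat_lit 0xbc00017800030096f) b53541 (.hit (nat_lit 239) (nat_lit 16) (nat_lit 0xbc000178000300b7b) b53544 (.one (nat_lit 6) (nat_lit 237) (nat_lit 9) (nat_lit 0xbc000178000300d38) b53542 (.nil)))) (.nil)))) (.nil)))) (.tok (nat_lit 46) (nat_lit 0xbc000178000301930) (.hit (nat_lit 246) (nat_lit 0) (nat_lit 0xbc0001780002ff40e) b53545 (.tok (nat_lit 3) (nat_lit 0xbc000178000301930) (.hit (nat_lit 247) (nat_lit 1) (nat_lit 0xbc0001780002fe58a) b53546 (.one (nat_lit 55) (nat_lit 248) (nat_lit 3) (nat_lit 0xbc000178000301930) b53547 (.nil))) (.tok (nat_lit 9) (nat_lit 0xbc0001780002fffa3)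 (.hit (nat_lit 249) (nat_lit 20) (nat_lit 0xbc0001780002fe7c6) b53548 (.hit (nat_lit 252) (nat_lit 28) (nat_lit 0xbc0001780002fde9b) b53551 (.tok (nat_lit 67) (nat_lit 0xbc0001780002fffa3) (.hit (nat_lit 250) (nat_lit 21) (nat_lit 0xbc0001780002ff7a8) b53549 (.hit (nat_lit 253) (nat_lit 29) (nat_lit 0xbc0001780002ff652) b53552 (.one (nat_lit 9) (nat_lit 251) (nat_lit 22) (nat_lit 0xbc0001780002fffa3) b53550 (.nil)))) (.nil)))) (.nil)))) (.nil))))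
noncomputable def r75_0 : Rw Blk := .tok (nat_lit 3) (nat_lit 0x17edb42fdaab5fd644bf63157f3c52fd4485fda72bf8cd97f641afe7fc5fc932bf8cb57f2812fe589) (.hit (nat_lit 0) (nat_lit 0) (nat_lit 0x17db5f2fc20d5f9146bf15c57dfeb2fc0e45f8d6abf24717e3b62fcea35f81c6bf23897e4a1afc7f4) b53553 (.tok (nat_lit 6) (nat_lit 0x17db23afbdc15fbf5cbf2f117e2a32fc6bf5f8f04bf27f57e75bafca9c5f8356bf62f57ec802fd7cf) (.hit (nat_lit 1) (nat_lit 7) (nat_lit 0x17d1a5afaac55f9b84bee3217d9252fb3c35f690cbedc057ddddafb7a05f5d5ebeb4d17d8632fc4db) b52914 (.hit (nat_lit 6) (nat_lit 15) (nat_lit 0x17d06e2fa8565f8498bed9657d7edafb1545f642ebed2497dca62fb5315f5880bf10617e2352fc547) b52917 (.tok (nat_lit 14) (nat_lit 0x17db23afbdc15fbf5cbf2f117e2a32fc6bf5f8f04bf27f57e75bafca9c5f8356bf3b1d7e7852fd607) (.hit (nat_lit 2) (nat_lit 11) (nat_lit 0x17d4f3afb1615faba2befd917dc732fba5f5f7644bef6757e12bafbe3c5f6a96becf417dbb12fc9c7)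 b52915 (.hit (nat_lit 7) (nat_lit 17) (nat_lit 0x17d4752fb0645f9700bef99d7dbf4afb9625f744abef2817e0ad2fbd3f5f689cbf3b1d7e7852fceb0) b52918 (.one (nat_lit 9) (nat_lit 3) (nat_lit 12) (nat_lit 0x17db23afbdc15fbf5cbf2f117e2a32fc6bf5f8f04bf27f57e75bafca9c5f8356bf00c17e1e12fd607) b52916 (.nil)))) (.one (nat_lit 68) (nat_lit 8) (nat_lit 18) (nat_lit 0x17db04afbd835faffcbf2e197e2842fc6815f8e88bf26fd7e73cafca5e5f82dabf62f57ec802fd7cf) b52919 (.nil))))) (.tok (nat_lit 52) (nat_lit 0x17d66d2fb4545fa7cebf095d7ddecafbd525f7c2abf02417e2a52fc12f5f707cbf3f357e88c2fcedf) (.hit (nat_lit 19) (nat_lit 39) (nat_lit 0x17d4d82fb12a5f8d50befcb57dc57afba285f75d6bef5997e1102fbe055f6a28bf3a0d7e7632fcd95) b52920 (.hit (nat_lit 20) (nat_lit 40) (nat_lit 0x17d66d2fb4545fa7cebf095d7ddecafbd525f7c2abf02417e2a52fc12f5f707cbf3f357e88c2fcedf) b52921 (.nil))) (.tok (nat_lit 55) (nat_lit 0x17edb42fdaab5fd644bf63157f3c52fd4485fda72bf8cd97f641afe7fc5fc932bf8cb57f2812fe589)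 (.hit (nat_lit 21) (nat_lit 41) (nat_lit 0x17edb42fdaab5fd294bf63157f3c52fd4485fda72bf8cd97f641afe7fc5fc932bf8cb57f2812fe589) b52922 (.tok (nat_lit 3) (nat_lit 0x17debcafc4f35fd644bf4bd97e63c2fcdf15f9d68bf44bd7eaf4afd1ce5f91babf24cd7e57a2fe450) (.hit (nat_lit 27) (nat_lit 47) (nat_lit 0x17dae92fbd4c5fbd5cbf2d3d7e268afc64a5f8e1abf26217e7212fca275f826cbf06c97e1a6afd986) b52925 (.one (nat_lit 67) (nat_lit 28) (nat_lit 48) (nat_lit 0x17debcafc4f35fd644bf4bd97e63c2fcdf15f9d68bf44bd7eaf4afd1ce5f91babf24cd7e57a2fe450) b52926 (.nil))) (.tok (nat_lit 6) (nat_lit 0x17e047afcdcf5fb70ebf5f597e9eeafd34c5f9868bf3abd7e9b4afcf4e5f8cbabf13897e43a2fd9e1) (.hit (nat_lit 22) (nat_lit 42) (nat_lit 0x17e047afcdcf5fb70ebf5f597e9eeafd34c5f9868bf3abd7e9b4afcf4e5f8cbabf13897e43a2fd9e1) b52923 (.hit (nat_lit 25) (nat_lit 45) (nat_lit 0x17db15afbda55fb4f6bf2ea17e2952fc6a35f8eccbf27857e74dafca805f831ebf00517e1d32fd79c)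 b52924 (.nil))) (.nil)))) (.one (nat_lit 58) (nat_lit 29) (nat_lit 49) (nat_lit 0x17da852fbc845fb546bf2a1d7e204afc5825f8c8abf23017e6bd2fc95f5f80dcbf7c0d7f0272fde15) b52927 (.nil)))))) (.tok (nat_lit 9) (nat_lit 0x180000300000600000c00001802f8300000600000c0000180000300000600db4c00001802a5b00000) (.hit (nat_lit 157) (nat_lit 0) (nat_lit 0x17e581afdc9f5fa902bf57997e855afd1545fb574bf619d7eccaafde3c5fac06bf57297e9dd2fd1ff) b52928 (.tok (nat_lit 9) (nat_lit 0x17f2b4aff8035fed1cbf9d597f4872fe7595fe52cbfcf2d7f8e5aff4755fd7b0bfb9e17f509afed72) (.hit (nat_lit 163) (nat_lit 20) (nat_lit 0x17e09dafd0a65f9922bf13f57e6732fc4fb5f9cbabf41fd7e606afce115f8f0abf21f97e27dafc873) b52929 (.hit (nat_lit 171) (nat_lit 28) (nat_lit 0x17d9cfafb6265f9336beac1d7de3aafa59c5f75babf03917df912fc3305f8ba0bf11917e0f82fc3b3) b52934 (.tok (nat_lit 14) (nat_lit 0x17f2b4aff8035fed1cbf9d597f4872fe7595fe52cbfcf2d7f8e5aff4755fd7b0bfb9e17f509afed72)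 (.hit (nat_lit 167) (nat_lit 24) (nat_lit 0x17f10aaff3b75fea78bf97257f12f2fe3845fdecabfc2817f69fafef3d5fcac0bf9c097f16fafe7c9) b52930 (.hit (nat_lit 173) (nat_lit 30) (nat_lit 0x17e80dafd1cc5fd34ebf1e857ec472fc2185faacabf61e97ec812fdede5fb658bf72857eb8cafd4d8) b52935 (.one (nat_lit 6) (nat_lit 168) (nat_lit 25) (nat_lit 0x17f2b4aff8035fed1cbf9d597f4872fe7595fe52cbfcf2d7f8e5aff4755fd7b0bfb9e17f509afed72) b52931 (.nil)))) (.one (nat_lit 56) (nat_lit 174) (nat_lit 31) (nat_lit 0x17e41b2fcb905fb646bf02857e8e72fbb185f9ccabf45e97e6e42fd37e5fb720bf5a757e8c7afd0ec) b52936 (.tok (nat_lit 68) (nat_lit 0x17ed65afeee85fcd8ebf774d7ee4dafddf85fc4e0bf8b117f2f9afeb715faf62bf69697eaf2afe8fc) (.hit (nat_lit 169) (nat_lit 26) (nat_lit 0x17ed65afe7795fcc32bf774d7ee4dafddf85fc4e0bf8b117f0532fe5675faf62bf69697eaf2afd9ab) b52932 (.hit (nat_lit 175) (nat_lit 32) (nat_lit 0x17e4432fcb115fa67ebf00597e87dafba835f9ba0bf43957e80bafd5e95fa990bf4f817e74e2fcbe2)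 b52937 (.one (nat_lit 9) (nat_lit 170) (nat_lit 27) (nat_lit 0x17e86f2feee85fcd8ebf568d7ece1afd09e5fb006bf78257f2f9afeb715fa660bf4f297e8abafe8fc) b52933 (.nil)))) (.nil)))))) (.tok (nat_lit 64) (nat_lit 0x17e6ceafdf6f5fb5f8bf209d7eca6afc2ba5fac0ebf68817f8df2ff41a5fd7d0bf92a17f3dcafe24d) (.hit (nat_lit 182) (nat_lit 50) (nat_lit 0x17e5b52fdf6f5fb3bcbf209d7eca6afc2ba5fac0ebf64717f8df2ff41a5fd7d0bf92a17f3dcafe11a) b52938 (.hit (nat_lit 183) (nat_lit 51) (nat_lit 0x17e6ceafd8db5fb5f8bf157d7ea17afbfa95fa7a0bf68817f59a2fecc45fa4debf3d097e792afe24d) b52939 (.nil))) (.tok (nat_lit 67) (nat_lit 0x180000300000600000c00001802f8300000600000c0000180000300000600db4c00001802a5b00000) (.hit (nat_lit 184) (nat_lit 52) (nat_lit 0x17f8022ffbd75fe1ccbff9057fd5eaff64f600000bff9257f8fbaff9aa5fe346bfbd817f7a32fec23) b52940 (.tok (nat_lit 3) (nat_lit 0x1800002ff9dc5ff406c000017fdef3000005ff424c000017fc0f2ffb855ff06abfdfd17faee2ff4d0)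 (.hit (nat_lit 190) (nat_lit 58) (nat_lit 0x17f3222feb625fdc68bfd0b17fd28aff6245fcd30bfb2457f4112fed0c5fce4abf95997f175afe20a) b52946 (.one (nat_lit 55) (nat_lit 191) (nat_lit 59) (nat_lit 0x1800002ff9dc5ff406c000017fdef3000005ff424c000017fc0f2ffb855ff06abfdfd17faee2ff4d0) b52947 (.nil))) (.tok (nat_lit 9) (nat_lit 0x17fcc7300000600000bfc11d802f82ff2db5ff576bff74180000300000600db4c00001802a5b00000) (.hit (nat_lit 185) (nat_lit 53) (nat_lit 0x17f1f62fe1dc5fca76bf69b97f6c92fdc935fd09cbfad8d7f4362fec2c5fe97ebfb69d7f92a2fe2b7) b52941 (.hit (nat_lit 188) (nat_lit 56) (nat_lit 0x17eba62fe9075fed54bf4c397eeebafce095fbafebf8f3d7f4aa2fefe95fb1ecbf5c3d7eb942fee6f) b52944 (.tok (nat_lit 67) (nat_lit 0x17fcc7300000600000bfc11d802f82ff2db5ff576bff74180000300000600db4c00001802a5b00000) (.hit (nat_lit 186) (nat_lit 54) (nat_lit 0x17fcc72ff9945ff958bfa11d802f82feb365fe804bfe9497fac12ffb1b6002d8bfe81d7ff5caff3ab)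 b52942 (.hit (nat_lit 189) (nat_lit 57) (nat_lit 0x17f34c300000600000bf79d57f692afd89a5fd996bfcc6d7fb9c2ffd8a5fd088bf996d7f36bb00000) b52945 (.one (nat_lit 9) (nat_lit 187) (nat_lit 55) (nat_lit 0x17fb87aff31d5ff4e0bfc11d801372ff2db5ff576bff74180000300000600db4c00001802a5aff840) b52943 (.nil)))) (.nil)))) (.nil)))) (.one (nat_lit 70) (nat_lit 192) (nat_lit 60) (nat_lit 0x17eb1f2fdd7d5fd7f0bf390d7ef46afc88d5fb984bf8c497f81f2fee115fec7abfbbf17f65fafe4a2) b52948 (.nil)))))) (.nil))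
noncomputable def r75_1 : Rw Blk := .tok (nat_lit 6) (nat_lit 0x5e0000bc00017f89fafe655) (.hit (nat_lit 51) (nat_lit 0) (nat_lit 0x5e0000bc00017ee012fd9cf) b52949 (.tok (nat_lit 14) (nat_lit 0x5e0000bc00017f3e4afe2cb) (.hit (nat_lit 62) (nat_lit 61) (nat_lit 0x5e0000bc00017f3e4afe157) b52950 (.one (nat_lit 3) (nat_lit 63) (nat_lit 62) (nat_lit 0x5e0000bc00017f31a2fd7bf) b52951 (.tok (nat_lit 6) (nat_lit 0x5e0000bc00017eeb42fe093) (.hit (nat_lit 66) (nat_lit 65) (nat_lit 0x5e0000bc00017e9972fe093) b52952 (.hit (nat_lit 67) (nat_lit 66) (nat_lit 0x5e0000bc00017eeb42fded5) b52953 (.nil))) (.tok (nat_lit 9) (nat_lit 0x5e0000bc00017f2252fe2cb) (.hit (nat_lit 64) (nat_lit 63) (nat_lit 0x5e0000bc00017f2252fe2cb) b52954 (.hit (nat_lit 65) (nat_lit 64) (nat_lit 0x5e0000bc00017ef67afe089) b52955 (.nil))) (.nil))))) (.one (nat_lit 17) (nat_lit 68) (nat_lit 67) (nat_lit 0x5e0000bc00017ee172fcd2e)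 b52956 (.tok (nat_lit 20) (nat_lit 0x5e0000bc00017f89fafe655) (.hit (nat_lit 69) (nat_lit 68) (nat_lit 0x5e0000bc00017f89fafe655) b52959 (.hit (nat_lit 70) (nat_lit 69) (nat_lit 0x5e0000bc00017eeceafcb9a) b52960 (.nil))) (.tok (nat_lit 23) (nat_lit 0x5e0000bc00017ed752fcc9a) (.hit (nat_lit 71) (nat_lit 70) (nat_lit 0x5e0000bc00017df9aafcc9a) b52957 (.hit (nat_lit 72) (nat_lit 71) (nat_lit 0x5e0000bc00017ed752fcb9a) b52958 (.nil))) (.one (nat_lit 26) (nat_lit 73) (nat_lit 72) (nat_lit 0x5e0000bc00017e5f62fb92a) b52961 (.one (nat_lit 29) (nat_lit 74) (nat_lit 73) (nat_lit 0x5e0000bc00017e5882fbc3c) b52962 (.one (nat_lit 32) (nat_lit 75) (nat_lit 74) (nat_lit 0x5e0000bc00017e4caafbf19) b52964 (.one (nat_lit 35) (nat_lit 76) (nat_lit 75) (nat_lit 0x5e0000bc00017ea122fbf19) b52963 (.one (nat_lit 38) (nat_lit 77) (nat_lit 76) (nat_lit 0x5e0000bc00017ed3aafcd6e) b52965 (.tok (nat_lit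 41) (nat_lit 0x5e0000bc00017ee8fafc319) (.hit (nat_lit 78) (nat_lit 77) (nat_lit 0x5e0000bc00017ea56afb869) b52966 (.hit (nat_lit 79) (nat_lit 78) (nat_lit 0x5e0000bc00017ee8fafc319) b52967 (.nil))) (.tok (nat_lit 44) (nat_lit 0x5e0000bc00017efb6afc478) (.hit (nat_lit 80) (nat_lit 79) (nat_lit 0x5e0000bc00017efb6afc478) b52970 (.hit (nat_lit 81) (nat_lit 80) (nat_lit 0x5e0000bc00017e9972fc26e) b52971 (.nil))) (.tok (nat_lit 47) (nat_lit 0x5e0000bc00017efe42fc3bb) (.hit (nat_lit 82) (nat_lit 81) (nat_lit 0x5e0000bc00017d532afb7ca) b52968 (.hit (nat_lit 83) (nat_lit 82) (nat_lit 0x5e0000bc00017efe42fc3bb) b52969 (.nil))) (.one (nat_lit 62) (nat_lit 93) (nat_lit 92) (nat_lit 0x5e0000bc00017e97cafc6dc) b52972 (.tok (nat_lit 65) (nat_lit 0x5e0000bc00017ed33afd26e) (.hit (nat_lit 94) (nat_lit 93) (nat_lit 0x5e0000bc00017e7112fd26e) b52973 (.hit (nat_lit 95) (nat_lit 94) (nat_lit 0x5e0000bc00017ed33afc867)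 b52974 (.nil))) (.tok (nat_lit 68) (nat_lit 0x5e0000bc00017ededafdc50) (.hit (nat_lit 96) (nat_lit 95) (nat_lit 0x5e0000bc00017ededafdc50) b52975 (.one (nat_lit 3) (nat_lit 100) (nat_lit 99) (nat_lit 0x5e0000bc00017e149afcff8) b52979 (.one (nat_lit 6) (nat_lit 97) (nat_lit 96) (nat_lit 0x5e0000bc00017e53f2fd7e3) b52976 (.tok (nat_lit 9) (nat_lit 0x5e0000bc00017e69b2fda9b) (.hit (nat_lit 98) (nat_lit 97) (nat_lit 0x5e0000bc00017e69b2fda9b) b52977 (.hit (nat_lit 99) (nat_lit 98) (nat_lit 0x5e0000bc00017e3f5afd550) b52978 (.nil))) (.nil))))) (.one (nat_lit 71) (nat_lit 101) (nat_lit 100) (nat_lit 0x5e0000bc00017e9b1afb7a2) b52980 (.nil)))))))))))))))))) (.tok (nat_lit 52) (nat_lit 0x5e0000bc00018000030092f) (.hit (nat_lit 225) (nat_lit 0) (nat_lit 0x5e0000bc00017fe7630092f) b52981 (.tok (nat_lit 6) (nat_lit 0x5e0000bc000180000300505) (.hit (nat_lit 226) (nat_lit 7) (nat_lit 0x5e0000bc000180000300505)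 b52984 (.hit (nat_lit 227) (nat_lit 15) (nat_lit 0x5e0000bc00017f4752ff14c) b52985 (.nil))) (.tok (nat_lit 9) (nat_lit 0x5e0000bc00017f1d4afef46) (.hit (nat_lit 228) (nat_lit 20) (nat_lit 0x5e0000bc00017e6ec2fe7d1) b52982 (.hit (nat_lit 229) (nat_lit 28) (nat_lit 0x5e0000bc00017f1d4afef46) b52983 (.nil))) (.nil)))) (.tok (nat_lit 55) (nat_lit 0x5e0000bc00017f661affcca) (.hit (nat_lit 250) (nat_lit 0) (nat_lit 0x5e0000bc00017f661afe8e1) b52994 (.tok (nat_lit 3) (nat_lit 0x5e0000bc00017f168affcca) (.hit (nat_lit 251) (nat_lit 1) (nat_lit 0x5e0000bc00017e3e12fe1bb) b52995 (.one (nat_lit 67) (nat_lit 252) (nat_lit 2) (nat_lit 0x5e0000bc00017f168affcca) b52996 (.nil))) (.tok (nat_lit 6) (nat_lit 0x5e0000bc00017e6e2afe7be) (.hit (nat_lit 253) (nat_lit 7) (nat_lit 0x5e0000bc00017e6e2afe7be) b52997 (.hit (nat_lit 256) (nat_lit 15) (nat_lit 0x5e0000bc00017e357afe0a8) b52998 (.nil))) (.nil))))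 (.tok (nat_lit 58) (nat_lit 0x5e0000bc00017fb04b00ee4) (.hit (nat_lit 236) (nat_lit 0) (nat_lit 0x5e0000bc00017fb04afeeed) b52986 (.tok (nat_lit 3) (nat_lit 0x5e0000bc00017f4aab0034e) (.hit (nat_lit 237) (nat_lit 1) (nat_lit 0x5e0000bc00017e3ac2fe151) b52987 (.one (nat_lit 55) (nat_lit 238) (nat_lit 3) (nat_lit 0x5e0000bc00017f4aab0034e) b52988 (.nil))) (.tok (nat_lit 9) (nat_lit 0x5e0000bc00017fa75b00ee4) (.hit (nat_lit 239) (nat_lit 20) (nat_lit 0x5e0000bc00017ea44afee82) b52989 (.hit (nat_lit 242) (nat_lit 28) (nat_lit 0x5e0000bc00017e6a32fe73f) b52992 (.tok (nat_lit 67) (nat_lit 0x5e0000bc00017fa75b00ee4) (.hit (nat_lit 240) (nat_lit 21) (nat_lit 0x5e0000bc00017efce2ff995) b52990 (.hit (nat_lit 243) (nat_lit 29) (nat_lit 0x5e0000bc00017f223affe40) b52993 (.one (nat_lit 9) (nat_lit 241) (nat_lit 22) (nat_lit 0x5e0000bc00017fa75b00ee4) b52991 (.nil)))) (.nil)))) (.nil)))) (.nil))))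
noncomputable def r75_2 : Rw Blk := .tok (nat_lit 3) (nat_lit 0x5e0000bc00018042130041a) (.hit (nat_lit 15) (nat_lit 0) (nat_lit 0x5e0000bc00017f26daff404) b53006 (.tok (nat_lit 9) (nat_lit 0x5e0000bc00017e961aff94b) (.hit (nat_lit 16) (nat_lit 20) (nat_lit 0x5e0000bc00017dffc2fe680) b53007 (.hit (nat_lit 21) (nat_lit 28) (nat_lit 0x5e0000bc00017d41b2fcebe) b53012 (.tok (nat_lit 14) (nat_lit 0x5e0000bc00017e5b3aff1ef) (.hit (nat_lit 17) (nat_lit 24) (nat_lit 0x5e0000bc00017dea02fe3c8) b53008 (.hit (nat_lit 22) (nat_lit 30) (nat_lit 0x5e0000bc00017e44bafef1f) b53013 (.one (nat_lit 6) (nat_lit 18) (nat_lit 25) (nat_lit 0x5e0000bc00017e5b3aff1ef) b53009 (.nil)))) (.tok (nat_lit 68) (nat_lit 0x5e0000bc00017e961aff94b) (.hit (nat_lit 19) (nat_lit 26) (nat_lit 0x5e0000bc00017e41cafeec1) b53010 (.hit (nat_lit 24) (nat_lit 32) (nat_lit 0x5e0000bc00017e48a2fef9c) b53014 (.one (nat_lit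 9) (nat_lit 20) (nat_lit 27) (nat_lit 0x5e0000bc00017e961aff94b) b53011 (.nil)))) (.nil))))) (.tok (nat_lit 64) (nat_lit 0x5e0000bc00017e9d42ffa30) (.hit (nat_lit 25) (nat_lit 50) (nat_lit 0x5e0000bc00017e3412fed0a) b53015 (.hit (nat_lit 26) (nat_lit 51) (nat_lit 0x5e0000bc00017e9d42ffa30) b53016 (.nil))) (.tok (nat_lit 67) (nat_lit 0x5e0000bc00018042130041a) (.hit (nat_lit 27) (nat_lit 52) (nat_lit 0x5e0000bc00018042130041a) b53017 (.tok (nat_lit 3) (nat_lit 0x5e0000bc00017edf0300268) (.hit (nat_lit 33) (nat_lit 58) (nat_lit 0x5e0000bc00017e9e0affa49) b53023 (.one (nat_lit 55) (nat_lit 34) (nat_lit 59) (nat_lit 0x5e0000bc00017edf0300268) b53024 (.nil))) (.tok (nat_lit 9) (nat_lit 0x5e0000bc00017eb3daffd03) (.hit (nat_lit 28) (nat_lit 53) (nat_lit 0x5e0000bc00017e6302ff2e8) b53018 (.hit (nat_lit 31) (nat_lit 56) (nat_lit 0x5e0000bc00017e7cbaff61f) b53021 (.tok (nat_lit 67) (nat_lit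 0x5e0000bc00017eb3daffd03) (.hit (nat_lit 29) (nat_lit 54) (nat_lit 0x5e0000bc00017eb3daffd03) b53019 (.hit (nat_lit 32) (nat_lit 57) (nat_lit 0x5e0000bc00017eabf2ffc06) b53022 (.one (nat_lit 9) (nat_lit 30) (nat_lit 55) (nat_lit 0x5e0000bc00017e5d8aff239) b53020 (.nil)))) (.nil)))) (.nil)))) (.one (nat_lit 70) (nat_lit 35) (nat_lit 60) (nat_lit 0x5e0000bc00017e946aff915) b53025 (.nil)))))) (.tok (nat_lit 6) (nat_lit 0x5e0000bc000180103b00997) (.hit (nat_lit 0) (nat_lit 0) (nat_lit 0x5e0000bc00017fc57b00997) b52999 (.tok (nat_lit 6) (nat_lit 0x5e0000bc000180103b0087a) (.hit (nat_lit 1) (nat_lit 7) (nat_lit 0x5e0000bc00017f111afe2a4) b53000 (.hit (nat_lit 4) (nat_lit 15) (nat_lit 0x5e0000bc00017eb5b2fd84b) b53003 (.tok (nat_lit 14) (nat_lit 0x5e0000bc000180103b0087a) (.hit (nat_lit 2) (nat_lit 11) (nat_lit 0x5e0000bc00017fe0c300643) b53001 (.hit (nat_lit 5) (nat_lit 17) (nat_lit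 0x5e0000bc00017f0bb2fe05f) b53004 (.one (nat_lit 9) (nat_lit 3) (nat_lit 12) (nat_lit 0x5e0000bc000180103b0087a) b53002 (.nil)))) (.one (nat_lit 68) (nat_lit 6) (nat_lit 18) (nat_lit 0x5e0000bc00017fb792ff029) b53005 (.nil))))) (.nil))) (.nil))
noncomputable def r75_3 : Rw Blk := .tok (nat_lit 9) (nat_lit 0x1780002f00005ff720c018b58009e2ffb92) (.hit (nat_lit 0) (nat_lit 0) (nat_lit 0x1780002f00005fa89abf5b4d7ea5d2fd6f6) b53026 (.tok (nat_lit 14) (nat_lit 0x1780002f00005ff19cbf93157f261aff58f) (.hit (nat_lit 21) (nat_lit 61) (nat_lit 0x1780002f00005fd8fcbf79f17ee2a2fe30f) b53027 (.one (nat_lit 3) (nat_lit 22) (nat_lit 62) (nat_lit 0x1780002f00005fe1a6bf480d7e887afe75e) b53028 (.tok (nat_lit 6) (nat_lit 0x1780002f00005ff19cbf93157f261aff58f) (.hit (nat_lit 25) (nat_lit 65) (nat_lit 0x1780002f00005ff19cbf93157f261aff58f) b53029 (.hit (nat_lit 26) (nat_lit 66) (nat_lit 0x1780002f00005fb5aebf5bf17ea6a2fd765)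 b53030 (.nil))) (.tok (nat_lit 9) (nat_lit 0x1780002f00005fb8b0bf62b97eb632fdc8c) (.hit (nat_lit 23) (nat_lit 63) (nat_lit 0x1780002f00005f71fcbf62b97eb432fd917) b53031 (.hit (nat_lit 24) (nat_lit 64) (nat_lit 0x1780002f00005fb8b0bf5e4d7eb632fdc8c) b53032 (.nil))) (.nil))))) (.one (nat_lit 17) (nat_lit 27) (nat_lit 67) (nat_lit 0x1780002f00005fc724bf42e97e76f2fd4c1) b53033 (.tok (nat_lit 20) (nat_lit 0x1780002f00005fa764bf1fc57e2e4afc85a) (.hit (nat_lit 28) (nat_lit 68) (nat_lit 0x1780002f00005f5082bf1fc57e2e4afc85a) b53036 (.hit (nat_lit 29) (nat_lit 69) (nat_lit 0x1780002f00005fa764bf13597e122afc66f) b53037 (.nil))) (.tok (nat_lit 23) (nat_lit 0x1780002f00005ff720c018b58009e2ffb92) (.hit (nat_lit 30) (nat_lit 70) (nat_lit 0x1780002f00005ff720c018b58009e2ffb92) b53034 (.hit (nat_lit 31) (nat_lit 71) (nat_lit 0x1780002f00005fad28bf1e657e36f2fc9aa) b53035 (.nil))) (.one (nat_lit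 26) (nat_lit 32) (nat_lit 72) (nat_lit 0x1780002f00005f998ebef4357de322fbf36) b53038 (.one (nat_lit 29) (nat_lit 33) (nat_lit 73) (nat_lit 0x1780002f00005fa412bf0e757e15b2fcda3) b53039 (.one (nat_lit 32) (nat_lit 34) (nat_lit 74) (nat_lit 0x1780002f00005fb926bf0ed57e15e2fd20f) b53041 (.one (nat_lit 35) (nat_lit 35) (nat_lit 75) (nat_lit 0x1780002f00005f8a20beddd17dab0afb849) b53040 (.one (nat_lit 50) (nat_lit 43) (nat_lit 83) (nat_lit 0x1780002f00005f9914bf11317e1122fc4b5) b53051 (.tok (nat_lit 53) (nat_lit 0x1780002f00005fb0b4bf1b357e252afcc01) (.hit (nat_lit 44) (nat_lit 84) (nat_lit 0x1780002f00005fb0b4bf1b357e252afcc01) b53052 (.hit (nat_lit 45) (nat_lit 85) (nat_lit 0x1780002f00005f864cbf11f57e1c1afc4a5) b53053 (.nil))) (.tok (nat_lit 56) (nat_lit 0x1780002f00005f9602bf74e57ec5dafdbc1) (.hit (nat_lit 46) (nat_lit 86) (nat_lit 0x1780002f00005f9602bf74e57ec5dafdbc1) b53054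 (.one (nat_lit 3) (nat_lit 50) (nat_lit 90) (nat_lit 0x1780002f00005f4f88bf1dd17e2a62fc7dd) b53058 (.tok (nat_lit 6) (nat_lit 0x1780002f00005f73a6bf660d7ebadafd9ec) (.hit (nat_lit 48) (nat_lit 88) (nat_lit 0x1780002f00005f73a6bf660d7ebadafd9ec) b53056 (.hit (nat_lit 49) (nat_lit 89) (nat_lit 0x1780002f00005f6302bf44c57e784afd19a) b53057 (.nil))) (.one (nat_lit 9) (nat_lit 47) (nat_lit 87) (nat_lit 0x1780002f00005f57cebf2e5d7e4b7afcc00) b53055 (.nil))))) (.one (nat_lit 59) (nat_lit 51) (nat_lit 91) (nat_lit 0x1780002f00005fa662bf06497e0272fc5c8) b53059 (.one (nat_lit 62) (nat_lit 52) (nat_lit 92) (nat_lit 0x1780002f00005fb6dabf196d7e2e4afcd9a) b53042 (.tok (nat_lit 65) (nat_lit 0x1780002f00005fccc6bf6d117ef282fe4d6) (.hit (nat_lit 53) (nat_lit 93) (nat_lit 0x1780002f00005fccc6bf6d117ef282fe4d6) b53043 (.hit (nat_lit 54) (nat_lit 94) (nat_lit 0x1780002f00005fb4aabf27b97e49f2fd0ca)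 b53044 (.nil))) (.tok (nat_lit 68) (nat_lit 0x1780002f00005fd72ebfc4317f5b1afe4c4) (.hit (nat_lit 55) (nat_lit 95) (nat_lit 0x1780002f00005fd0b2bf90257ef9d2fdf11) b53045 (.one (nat_lit 3) (nat_lit 59) (nat_lit 99) (nat_lit 0x1780002f00005fb7b6bf6a8d7eabd2fce6a) b53049 (.one (nat_lit 6) (nat_lit 56) (nat_lit 96) (nat_lit 0x1780002f00005fd72ebfc4317f5b1afe4c4) b53046 (.tok (nat_lit 9) (nat_lit 0x1780002f00005fd098bf62057eb952fe199) (.hit (nat_lit 57) (nat_lit 97) (nat_lit 0x1780002f00005fd098bf62057eb952fe199) b53047 (.hit (nat_lit 58) (nat_lit 98) (nat_lit 0x1780002f00005fc4cabf303d7e5712fd685) b53048 (.nil))) (.nil))))) (.one (nat_lit 71) (nat_lit 60) (nat_lit 100) (nat_lit 0x1780002f00005fab72bf00d17dfc0afc6b6) b53050 (.nil)))))))))))))))))) (.tok (nat_lit 64) (nat_lit 0x1780002f0000600000c0466180294300958) (.hit (nat_lit 176) (nat_lit 0) (nat_lit 0x1780002f0000600000c0466180294300958)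 b53060 (.tok (nat_lit 6) (nat_lit 0x1780002f00005fd1d6bfc4f57f3bb2ff3fc) (.hit (nat_lit 177) (nat_lit 7) (nat_lit 0x1780002f00005faaa6bf92bd7f1442fe519) b53063 (.hit (nat_lit 178) (nat_lit 15) (nat_lit 0x1780002f00005fd1d6bfc4f57f3bb2ff3fc) b53064 (.nil))) (.tok (nat_lit 9) (nat_lit 0x1780002f00005fd834bfe7c97f7d52ffa38) (.hit (nat_lit 179) (nat_lit 20) (nat_lit 0x1780002f00005fd834bfe7c97f7d52ffa38) b53061 (.hit (nat_lit 180) (nat_lit 28) (nat_lit 0x1780002f00005fb672bfa13d7ef782fea8e) b53062 (.nil))) (.nil)))) (.tok (nat_lit 67) (nat_lit 0x1780002f00005fc9debfd12d7f9122ff4b5) (.hit (nat_lit 201) (nat_lit 0) (nat_lit 0x1780002f00005fc552bf9e057f25fafe750) b53065 (.tok (nat_lit 3) (nat_lit 0x1780002f00005fb7e2bfad357f4932febb7) (.hit (nat_lit 202) (nat_lit 1) (nat_lit 0x1780002f00005f8a9abf52a57e9412fd513) b53066 (.one (nat_lit 55) (nat_lit 203) (nat_lit 3) (nat_lit 0x1780002f00005fb7e2bfad357f4932febb7)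 b53067 (.nil))) (.tok (nat_lit 9) (nat_lit 0x1780002f00005fc9debfd12d7f9122ff4b5) (.hit (nat_lit 204) (nat_lit 20) (nat_lit 0x1780002f00005f9fa4bf7cb97ee83afdf98) b53068 (.hit (nat_lit 207) (nat_lit 28) (nat_lit 0x1780002f00005f8c46bf55fd7e9ac2fd5e9) b53071 (.tok (nat_lit 67) (nat_lit 0x1780002f00005fc9debfd12d7f9122ff4b5) (.hit (nat_lit 205) (nat_lit 21) (nat_lit 0x1780002f00005fbd74bfb8597f5f7afee80) b53069 (.hit (nat_lit 208) (nat_lit 29) (nat_lit 0x1780002f00005fbd40bfb7f17f5eaafee66) b53072 (.one (nat_lit 9) (nat_lit 206) (nat_lit 22) (nat_lit 0x1780002f00005fc9debfd12d7f9122ff4b5) b53070 (.nil)))) (.nil)))) (.nil)))) (.tok (nat_lit 70) (nat_lit 0x1780002f00005fe010bffd917fe9eafffce) (.hit (nat_lit 187) (nat_lit 0) (nat_lit 0x1780002f00005fcef0bfcea17f5cd2febf5) b53073 (.tok (nat_lit 3) (nat_lit 0x1780002f00005fcdc2bfd8f57fa0b2ff6a7) (.hit (nat_lit 188) (nat_lit 1) (nat_lit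 0x1780002f00005f9a94bf72997ed3fafdd10) b53074 (.one (nat_lit 67) (nat_lit 189) (nat_lit 2) (nat_lit 0x1780002f00005fcdc2bfd8f57fa0b2ff6a7) b53075 (.nil))) (.tok (nat_lit 6) (nat_lit 0x1780002f00005fe010bffd917fe9eafffce) (.hit (nat_lit 190) (nat_lit 7) (nat_lit 0x1780002f00005f9e7abf7a657ee392fdf03) b53076 (.hit (nat_lit 193) (nat_lit 15) (nat_lit 0x1780002f00005f9ed4bf7b197ee4fafdf30) b53079 (.tok (nat_lit 55) (nat_lit 0x1780002f00005fe010bffd917fe9eafffce) (.hit (nat_lit 191) (nat_lit 8) (nat_lit 0x1780002f00005fb868bfae417f4b4afebfa) b53077 (.hit (nat_lit 194) (nat_lit 16) (nat_lit 0x1780002f00005fd34abfe4057fb6d2ff96b) b53080 (.one (nat_lit 6) (nat_lit 192) (nat_lit 9) (nat_lit 0x1780002f00005fe010bffd917fe9eafffce) b53078 (.nil)))) (.nil)))) (.nil)))) (.nil))))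
noncomputable def r75_4 : Rw Blk := .tok (nat_lit 3) (nat_lit 0x1780002f0000602778c0392180b91b022f7) (.hit (nat_lit 15) (nat_lit 0) (nat_lit 0x1780002f0000600862bfd1ad7fab9b00c46) b53092 (.tok (nat_lit 6) (nat_lit 0x1780002f00005fe7fabfa9617f5b02ff02d) (.hit (nat_lit 16) (nat_lit 7) (nat_lit 0x1780002f00005f8286bf1ff17e4822fd384) b53093 (.hit (nat_lit 21) (nat_lit 15) (nat_lit 0x1780002f00005fa142bef1f57dec2afdfc6) b53096 (.tok (nat_lit 56) (nat_lit 0x1780002f00005fbbd8bfa9617f5b02ff02d) (.hit (nat_lit 19) (nat_lit 13) (nat_lit 0x1780002f00005fa494bf42257e8c8afe48b) b53094 (.hit (nat_lit 24) (nat_lit 19) (nat_lit 0x1780002f00005fb138bf7fd57f07eafe57f) b53098 (.one (nat_lit 6) (nat_lit 20) (nat_lit 14) (nat_lit 0x1780002f00005fbbd8bfa9617f5b02ff02d) b53095 (.nil)))) (.one (nat_lit 68) (nat_lit 23) (nat_lit 18) (nat_lit 0x1780002f00005fe7fabfa4e97f5212fed09) b53097 (.nil))))) (.tok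 (nat_lit 52) (nat_lit 0x1780002f00005fd68abfad497f62d2ffda7) (.hit (nat_lit 25) (nat_lit 39) (nat_lit 0x1780002f00005fcc5ebf8bdd7f1ffafef80) b53099 (.hit (nat_lit 26) (nat_lit 40) (nat_lit 0x1780002f00005fd68abfad497f62d2ffda7) b53100 (.nil))) (.tok (nat_lit 55) (nat_lit 0x1780002f0000602778c0392180b91b01564) (.hit (nat_lit 27) (nat_lit 41) (nat_lit 0x1780002f0000602778c0392180b91b01564) b53101 (.one (nat_lit 3) (nat_lit 33) (nat_lit 47) (nat_lit 0x1780002f00005fba18bf80a17f0982fef4d) b53107 (.tok (nat_lit 6) (nat_lit 0x1780002f00005fca06bfabb97f5fb2ff744) (.hit (nat_lit 28) (nat_lit 42) (nat_lit 0x1780002f00005fbbecbf8b9d7f1f7aff037) b53102 (.hit (nat_lit 31) (nat_lit 45) (nat_lit 0x1780002f00005fb528bf70297ee892fecd5) b53105 (.tok (nat_lit 55) (nat_lit 0x1780002f00005fca06bfabb97f5fb2ff744) (.hit (nat_lit 29) (nat_lit 43) (nat_lit 0x1780002f00005fca06bf9bd57f3feaff744) b53103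 (.hit (nat_lit 32) (nat_lit 46) (nat_lit 0x1780002f00005fc8f4bfabb97f5fb2ff6bb) b53106 (.one (nat_lit 6) (nat_lit 30) (nat_lit 44) (nat_lit 0x1780002f00005fb320bf706d7ee91afebd1) b53104 (.nil)))) (.nil)))) (.nil)))) (.one (nat_lit 58) (nat_lit 35) (nat_lit 49) (nat_lit 0x1780002f0000601f76bfdb1d7fbe7b022f7) b53108 (.nil)))))) (.tok (nat_lit 9) (nat_lit 0x1780002f000060701cc1574d828bfb04e65) (.hit (nat_lit 0) (nat_lit 0) (nat_lit 0x1780002f0000600bd8c034a1802e1b00978) b53081 (.tok (nat_lit 9) (nat_lit 0x1780002f0000600faac065e580a7a300c8d) (.hit (nat_lit 1) (nat_lit 20) (nat_lit 0x1780002f00005fab24bf8f9d7ee322fda30) b53082 (.hit (nat_lit 4) (nat_lit 28) (nat_lit 0x1780002f00005fbdcabfa9157f05c2fe33c) b53083 (.one (nat_lit 56) (nat_lit 6) (nat_lit 31) (nat_lit 0x1780002f0000600faac065e580a7a300c8d) b53084 (.nil)))) (.tok (nat_lit 64) (nat_lit 0x1780002f0000606dc4c1294982346b04561)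 (.hit (nat_lit 7) (nat_lit 50) (nat_lit 0x1780002f0000606dc4c1294982346b04561) b53085 (.hit (nat_lit 8) (nat_lit 51) (nat_lit 0x1780002f0000602058c015e1800ee30060f) b53086 (.nil))) (.tok (nat_lit 67) (nat_lit 0x1780002f000060701cc1574d828bfb04e65) (.hit (nat_lit 9) (nat_lit 52) (nat_lit 0x1780002f0000605172c0d06d81850b02cdd) b53087 (.one (nat_lit 3) (nat_lit 12) (nat_lit 58) (nat_lit 0x1780002f00005fedfec047458093730085c) b53090 (.tok (nat_lit 9) (nat_lit 0x1780002f000060701cc1574d828bfb04e65) (.hit (nat_lit 10) (nat_lit 53) (nat_lit 0x1780002f000060701cc1574d828bfb04e65) b53088 (.hit (nat_lit 11) (nat_lit 56) (nat_lit 0x1780002f00005ff6e4bfca597f84f2ff7ed) b53089 (.nil))) (.nil)))) (.one (nat_lit 70) (nat_lit 14) (nat_lit 60) (nat_lit 0x1780002f000060688ec0eee181bc2b037a7) b53091 (.nil)))))) (.nil))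
noncomputable def r75_5 : Rw Blk := .tok (nat_lit 9) (nat_lit 0x5e0000bc0001808f2b01dab) (.hit (nat_lit 0) (nat_lit 0) (nat_lit 0x5e0000bc00017fbcbb012df) b53109 (.one (nat_lit 26) (nat_lit 12) (nat_lit 72) (nat_lit 0x5e0000bc00017fa80aff3cc) b53110 (.one (nat_lit 29) (nat_lit 13) (nat_lit 73) (nat_lit 0x5e0000bc00017fd86affa2e) b53111 (.one (nat_lit 32) (nat_lit 14) (nat_lit 74) (nat_lit 0x5e0000bc00017fb412ff81c) b53113 (.one (nat_lit 35) (nat_lit 15) (nat_lit 75) (nat_lit 0x5e0000bc00017f0732fe95d) b53112 (.one (nat_lit 38) (nat_lit 16) (nat_lit 76) (nat_lit 0x5e0000bc00017f2ac2ff187) b53114 (.tok (nat_lit 41) (nat_lit 0x5e0000bc00017f09f2ff52b) (.hit (nat_lit 17) (nat_lit 77) (nat_lit 0x5e0000bc00017ec572fef42) b53115 (.hit (nat_lit 18) (nat_lit 78) (nat_lit 0x5e0000bc00017f09f2ff52b) b53116 (.nil))) (.tok (nat_lit 44) (nat_lit 0x5e0000bc00017f5642ff301) (.hit (nat_lit 19)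 (nat_lit 79) (nat_lit 0x5e0000bc00017eab8afed09) b53119 (.hit (nat_lit 20) (nat_lit 80) (nat_lit 0x5e0000bc00017f5642ff301) b53120 (.nil))) (.tok (nat_lit 47) (nat_lit 0x5e0000bc00017f602300922) (.hit (nat_lit 21) (nat_lit 81) (nat_lit 0x5e0000bc00017f602300922) b53117 (.hit (nat_lit 22) (nat_lit 82) (nat_lit 0x5e0000bc00017eb6eafe6b0) b53118 (.nil))) (.one (nat_lit 50) (nat_lit 23) (nat_lit 83) (nat_lit 0x5e0000bc00017fea7affe51) b53121 (.tok (nat_lit 53) (nat_lit 0x5e0000bc00017f4a72ffccd) (.hit (nat_lit 24) (nat_lit 84) (nat_lit 0x5e0000bc00017f3a12ffccd) b53122 (.hit (nat_lit 25) (nat_lit 85) (nat_lit 0x5e0000bc00017f4a72ff35d) b53123 (.nil))) (.tok (nat_lit 56) (nat_lit 0x5e0000bc0001808f2b01dab) (.hit (nat_lit 26) (nat_lit 86) (nat_lit 0x5e0000bc0001808f2b01dab) b53124 (.one (nat_lit 3) (nat_lit 30) (nat_lit 90) (nat_lit 0x5e0000bc00017f68c3004b0) b53128 (.tok (nat_lit 6)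 (nat_lit 0x5e0000bc00017f558b00249) (.hit (nat_lit 28) (nat_lit 88) (nat_lit 0x5e0000bc00017f558b00249) b53126 (.hit (nat_lit 29) (nat_lit 89) (nat_lit 0x5e0000bc00017efa7aff6e7) b53127 (.nil))) (.one (nat_lit 9) (nat_lit 27) (nat_lit 87) (nat_lit 0x5e0000bc00017f422afffdd) b53125 (.nil))))) (.one (nat_lit 59) (nat_lit 31) (nat_lit 91) (nat_lit 0x5e0000bc00017f5cc2fee34) b53129 (.nil)))))))))))))) (.tok (nat_lit 64) (nat_lit 0x5e0000bc00018198db03f04) (.hit (nat_lit 45) (nat_lit 0) (nat_lit 0x5e0000bc00018198db03f04) b53141 (.tok (nat_lit 6) (nat_lit 0x5e0000bc00018004e300a30) (.hit (nat_lit 46) (nat_lit 7) (nat_lit 0x5e0000bc00017f851affd5c) b53144 (.hit (nat_lit 47) (nat_lit 15) (nat_lit 0x5e0000bc00018004e300a30) b53145 (.nil))) (.tok (nat_lit 9) (nat_lit 0x5e0000bc0001814853038dc) (.hit (nat_lit 48) (nat_lit 20) (nat_lit 0x5e0000bc0001814853038dc) b53142 (.hit (nat_lit 49)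 (nat_lit 28) (nat_lit 0x5e0000bc000180f963034ee) b53143 (.nil))) (.nil)))) (.tok (nat_lit 67) (nat_lit 0x5e0000bc000180821b01cfc) (.hit (nat_lit 40) (nat_lit 0) (nat_lit 0x5e0000bc000180600b00f85) b53137 (.one (nat_lit 3) (nat_lit 41) (nat_lit 1) (nat_lit 0x5e0000bc00017fe763009a5) b53138 (.tok (nat_lit 9) (nat_lit 0x5e0000bc000180821b01cfc) (.hit (nat_lit 43) (nat_lit 20) (nat_lit 0x5e0000bc000180821b01cfc) b53139 (.hit (nat_lit 44) (nat_lit 28) (nat_lit 0x5e0000bc00017f9b5b00024) b53140 (.nil))) (.nil)))) (.tok (nat_lit 70) (nat_lit 0x5e0000bc0001812043030c1) (.hit (nat_lit 32) (nat_lit 0) (nat_lit 0x5e0000bc000180a2530224e) b53130 (.one (nat_lit 3) (nat_lit 33) (nat_lit 1) (nat_lit 0x5e0000bc000180911301edb) b53131 (.tok (nat_lit 6) (nat_lit 0x5e0000bc0001812043030c1) (.hit (nat_lit 35) (nat_lit 7) (nat_lit 0x5e0000bc000180b7d3023b3) b53132 (.hit (nat_lit 38) (nat_lit 15) (nat_lit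 0x5e0000bc000180756301b65) b53135 (.tok (nat_lit 55) (nat_lit 0x5e0000bc0001812043030c1) (.hit (nat_lit 36) (nat_lit 8) (nat_lit 0x5e0000bc000180ecf302a57) b53133 (.hit (nat_lit 39) (nat_lit 16) (nat_lit 0x5e0000bc000181143302f3f) b53136 (.one (nat_lit 6) (nat_lit 37) (nat_lit 9) (nat_lit 0x5e0000bc0001812043030c1) b53134 (.nil)))) (.nil)))) (.nil)))) (.nil))))
noncomputable def r75_6 : Rw Blk := .tok (nat_lit 3) (nat_lit 0x5e0000bc000181cf8302e1a) (.hit (nat_lit 0) (nat_lit 0) (nat_lit 0x5e0000bc000181cf8302e1a) b53146 (.tok (nat_lit 6) (nat_lit 0x5e0000bc000181243301c4f) (.hit (nat_lit 1) (nat_lit 7) (nat_lit 0x5e0000bc00017fa1c2fec01) b53147 (.hit (nat_lit 6) (nat_lit 15) (nat_lit 0x5e0000bc00017fcde2ff185) b53152 (.tok (nat_lit 14) (nat_lit 0x5e0000bc00018108a3018dd) (.hit (nat_lit 2) (nat_lit 11) (nat_lit 0x5e0000bc0001807f6b007b6) b53148 (.hit (nat_lit 7) (nat_lit 17) (nat_lit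 0x5e0000bc00018108a3018dd) b53153 (.one (nat_lit 9) (nat_lit 3) (nat_lit 12) (nat_lit 0x5e0000bc0001806c4300551) b53149 (.nil)))) (.tok (nat_lit 56) (nat_lit 0x5e0000bc000181243301c4f) (.hit (nat_lit 4) (nat_lit 13) (nat_lit 0x5e0000bc00018035a2ffe7d) b53150 (.hit (nat_lit 8) (nat_lit 19) (nat_lit 0x5e0000bc000180c9cb01102) b53154 (.one (nat_lit 6) (nat_lit 5) (nat_lit 14) (nat_lit 0x5e0000bc000181243301c4f) b53151 (.nil)))) (.nil))))) (.nil))) (.tok (nat_lit 9) (nat_lit 0x5e0000bc000182f10b06824) (.hit (nat_lit 20) (nat_lit 0) (nat_lit 0x5e0000bc0001825d9304958) b53155 (.tok (nat_lit 9) (nat_lit 0x5e0000bc000182f10b06824) (.hit (nat_lit 21) (nat_lit 20) (nat_lit 0x5e0000bc0001819e5303513) b53156 (.hit (nat_lit 24) (nat_lit 28) (nat_lit 0x5e0000bc0001815f8b03317) b53159 (.tok (nat_lit 14) (nat_lit 0x5e0000bc000182f10b06824) (.hit (nat_lit 22) (nat_lit 24) (nat_lit 0x5e0000bc00018251db0422c)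 b53157 (.hit (nat_lit 25) (nat_lit 30) (nat_lit 0x5e0000bc000181bcbb036bb) b53160 (.one (nat_lit 6) (nat_lit 23) (nat_lit 25) (nat_lit 0x5e0000bc000182f10b06824) b53158 (.nil)))) (.nil)))) (.nil))) (.nil))
noncomputable def r75_7 : Rw Blk := .tok (nat_lit 9) (nat_lit 0x5e0000bc00017f9c7affa69) (.hit (nat_lit 0) (nat_lit 0) (nat_lit 0x5e0000bc00017e5a52fd8f7) b53161 (.tok (nat_lit 14) (nat_lit 0x5e0000bc00017f9c7affa69) (.hit (nat_lit 21) (nat_lit 61) (nat_lit 0x5e0000bc00017f2a7afe388) b53162 (.one (nat_lit 3) (nat_lit 22) (nat_lit 62) (nat_lit 0x5e0000bc00017ebf2afd9b3) b53163 (.tok (nat_lit 6) (nat_lit 0x5e0000bc00017f9c7affa69) (.hit (nat_lit 25) (nat_lit 65) (nat_lit 0x5e0000bc00017f9c7affa69) b53164 (.hit (nat_lit 26) (nat_lit 66) (nat_lit 0x5e0000bc00017ee6d2fe16d) b53165 (.nil))) (.tok (nat_lit 9) (nat_lit 0x5e0000bc00017ec2dafe419) (.hit (nat_lit 23) (nat_lit 63) (nat_lit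 0x5e0000bc00017e2c9afe0d4) b53166 (.hit (nat_lit 24) (nat_lit 64) (nat_lit 0x5e0000bc00017ec2dafe419) b53167 (.nil))) (.nil))))) (.one (nat_lit 17) (nat_lit 27) (nat_lit 67) (nat_lit 0x5e0000bc00017e6feafcf22) b53168 (.tok (nat_lit 20) (nat_lit 0x5e0000bc00017e6e9afd955) (.hit (nat_lit 28) (nat_lit 68) (nat_lit 0x5e0000bc00017df0a2fd955) b53171 (.hit (nat_lit 29) (nat_lit 69) (nat_lit 0x5e0000bc00017e6e9afcd8e) b53172 (.nil))) (.tok (nat_lit 23) (nat_lit 0x5e0000bc00017eb80afdf13) (.hit (nat_lit 30) (nat_lit 70) (nat_lit 0x5e0000bc00017eb80afdf13) b53169 (.hit (nat_lit 31) (nat_lit 71) (nat_lit 0x5e0000bc00017e567afcd90) b53170 (.nil))) (.one (nat_lit 26) (nat_lit 32) (nat_lit 72) (nat_lit 0x5e0000bc00017e334afbe20) b53173 (.one (nat_lit 29) (nat_lit 33) (nat_lit 73) (nat_lit 0x5e0000bc00017e25f2fbe71) b53174 (.one (nat_lit 32) (nat_lit 34) (nat_lit 74) (nat_lit 0x5e0000bc00017e61dafc3e6)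 b53176 (.one (nat_lit 35) (nat_lit 35) (nat_lit 75) (nat_lit 0x5e0000bc00017de5b2fc10d) b53175 (.one (nat_lit 50) (nat_lit 43) (nat_lit 83) (nat_lit 0x5e0000bc00017e422afc8d0) b53186 (.tok (nat_lit 53) (nat_lit 0x5e0000bc00017e28f2fcf83) (.hit (nat_lit 44) (nat_lit 84) (nat_lit 0x5e0000bc00017e024afcf83) b53187 (.hit (nat_lit 45) (nat_lit 85) (nat_lit 0x5e0000bc00017e28f2fc1f2) b53188 (.nil))) (.tok (nat_lit 56) (nat_lit 0x5e0000bc00017e6132fe2b4) (.hit (nat_lit 46) (nat_lit 86) (nat_lit 0x5e0000bc00017e6132fe2b4) b53189 (.one (nat_lit 3) (nat_lit 50) (nat_lit 90) (nat_lit 0x5e0000bc00017de1fafd780) b53193 (.tok (nat_lit 6) (nat_lit 0x5e0000bc00017dfb6afdaae) (.hit (nat_lit 48) (nat_lit 88) (nat_lit 0x5e0000bc00017dfb6afdaae) b53191 (.hit (nat_lit 49) (nat_lit 89) (nat_lit 0x5e0000bc00017de8dafd85c) b53192 (.nil))) (.one (nat_lit 9) (nat_lit 47) (nat_lit 87) (nat_lit 0x5e0000bc00017dd6f2fd61f)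 b53190 (.nil))))) (.one (nat_lit 59) (nat_lit 51) (nat_lit 91) (nat_lit 0x5e0000bc00017e4272fc033) b53194 (.one (nat_lit 62) (nat_lit 52) (nat_lit 92) (nat_lit 0x5e0000bc00017e9e3afcb6b) b53177 (.tok (nat_lit 65) (nat_lit 0x5e0000bc00017ead82fda1c) (.hit (nat_lit 53) (nat_lit 93) (nat_lit 0x5e0000bc00017ead82fda1c) b53178 (.hit (nat_lit 54) (nat_lit 94) (nat_lit 0x5e0000bc00017e89e2fc954) b53179 (.nil))) (.tok (nat_lit 68) (nat_lit 0x5e0000bc00017f5e22fe8f5) (.hit (nat_lit 55) (nat_lit 95) (nat_lit 0x5e0000bc00017f1b72fe5d2) b53180 (.one (nat_lit 3) (nat_lit 59) (nat_lit 99) (nat_lit 0x5e0000bc00017ec70afd2fb) b53184 (.one (nat_lit 6) (nat_lit 56) (nat_lit 96) (nat_lit 0x5e0000bc00017f430afe83e) b53181 (.tok (nat_lit 9) (nat_lit 0x5e0000bc00017f5e22fe8f5) (.hit (nat_lit 57) (nat_lit 97) (nat_lit 0x5e0000bc00017f5e22fe8f5) b53182 (.hit (nat_lit 58) (nat_lit 98) (nat_lit 0x5e0000bc00017ebe8afd220)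 b53183 (.nil))) (.nil))))) (.one (nat_lit 71) (nat_lit 60) (nat_lit 100) (nat_lit 0x5e0000bc00017e6152fc3cc) b53185 (.nil)))))))))))))))))) (.tok (nat_lit 64) (nat_lit 0x5e0000bc00017f56ab00476) (.hit (nat_lit 176) (nat_lit 0) (nat_lit 0x5e0000bc00017f475b00476) b53195 (.tok (nat_lit 6) (nat_lit 0x5e0000bc00017f177aff6c7) (.hit (nat_lit 177) (nat_lit 7) (nat_lit 0x5e0000bc00017ea582ff0e8) b53198 (.hit (nat_lit 178) (nat_lit 15) (nat_lit 0x5e0000bc00017f177aff6c7) b53199 (.nil))) (.tok (nat_lit 9) (nat_lit 0x5e0000bc00017f56ab00371) (.hit (nat_lit 179) (nat_lit 20) (nat_lit 0x5e0000bc00017f56ab00371) b53196 (.hit (nat_lit 180) (nat_lit 28) (nat_lit 0x5e0000bc00017ed5a2ff3be) b53197 (.nil))) (.nil)))) (.tok (nat_lit 67) (nat_lit 0x5e0000bc00017f708b0006f) (.hit (nat_lit 201) (nat_lit 0) (nat_lit 0x5e0000bc00017f708aff3f8) b53200 (.tok (nat_lit 3) (nat_lit 0x5e0000bc00017ed83aff73f)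 (.hit (nat_lit 202) (nat_lit 1) (nat_lit 0x5e0000bc00017e6e12fe9fa) b53201 (.one (nat_lit 55) (nat_lit 203) (nat_lit 3) (nat_lit 0x5e0000bc00017ed83aff73f) b53202 (.nil))) (.tok (nat_lit 9) (nat_lit 0x5e0000bc00017f21bb0006f) (.hit (nat_lit 204) (nat_lit 20) (nat_lit 0x5e0000bc00017e550afe6d9) b53203 (.hit (nat_lit 207) (nat_lit 28) (nat_lit 0x5e0000bc00017e6eaafea0d) b53206 (.tok (nat_lit 67) (nat_lit 0x5e0000bc00017f21bb0006f) (.hit (nat_lit 205) (nat_lit 21) (nat_lit 0x5e0000bc00017ed102ff658) b53204 (.hit (nat_lit 208) (nat_lit 29) (nat_lit 0x5e0000bc00017ee65aff903) b53207 (.one (nat_lit 9) (nat_lit 206) (nat_lit 22) (nat_lit 0x5e0000bc00017f21bb0006f) b53205 (.nil)))) (.nil)))) (.nil)))) (.tok (nat_lit 70) (nat_lit 0x5e0000bc000180000301c38) (.hit (nat_lit 187) (nat_lit 0) (nat_lit 0x5e0000bc00017f084aff140) b53208 (.tok (nat_lit 3) (nat_lit 0x5e0000bc00017f3bab003ad) (.hit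 (nat_lit 188) (nat_lit 1) (nat_lit 0x5e0000bc00017e7772feb26) b53209 (.one (nat_lit 67) (nat_lit 189) (nat_lit 2) (nat_lit 0x5e0000bc00017f3bab003ad) b53210 (.nil))) (.tok (nat_lit 6) (nat_lit 0x5e0000bc000180000301c38) (.hit (nat_lit 190) (nat_lit 7) (nat_lit 0x5e0000bc00017eb25aff283) b53211 (.hit (nat_lit 193) (nat_lit 15) (nat_lit 0x5e0000bc00017e6812fe93a) b53214 (.tok (nat_lit 55) (nat_lit 0x5e0000bc000180000301c38) (.hit (nat_lit 191) (nat_lit 8) (nat_lit 0x5e0000bc00017f1782fff28) b53212 (.hit (nat_lit 194) (nat_lit 16) (nat_lit 0x5e0000bc00017f360b002f9) b53215 (.one (nat_lit 6) (nat_lit 192) (nat_lit 9) (nat_lit 0x5e0000bc000180000301c38) b53213 (.nil)))) (.nil)))) (.nil)))) (.nil))))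
noncomputable def r75_8 : Rw Blk := .tok (nat_lit 3) (nat_lit 0x5e0000bc000180c7f301d48) (.hit (nat_lit 15) (nat_lit 0) (nat_lit 0x5e0000bc00017f2c2afeb27) b53227 (.tok (nat_lit 6) (nat_lit 0x5e0000bc00017ed13afee04) (.hit (nat_lit 16) (nat_lit 7) (nat_lit 0x5e0000bc00017e2292fd82f) b53228 (.hit (nat_lit 21) (nat_lit 15) (nat_lit 0x5e0000bc00017d1ccafb776) b53231 (.tok (nat_lit 56) (nat_lit 0x5e0000bc00017ed13afee04) (.hit (nat_lit 19) (nat_lit 13) (nat_lit 0x5e0000bc00017e7fcafe3d6) b53229 (.hit (nat_lit 24) (nat_lit 19) (nat_lit 0x5e0000bc00017e4092fdbef) b53233 (.one (nat_lit 6) (nat_lit 20) (nat_lit 14) (nat_lit 0x5e0000bc00017ed13afee04) b53230 (.nil)))) (.one (nat_lit 68) (nat_lit 23) (nat_lit 18) (nat_lit 0x5e0000bc00017e648afe06e) b53232 (.nil))))) (.tok (nat_lit 52) (nat_lit 0x5e0000bc00017eb39afea50) (.hit (nat_lit 25) (nat_lit 39) (nat_lit 0x5e0000bc00017eb39afea50)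 b53234 (.hit (nat_lit 26) (nat_lit 40) (nat_lit 0x5e0000bc00017e9062fe5e9) b53235 (.nil))) (.tok (nat_lit 55) (nat_lit 0x5e0000bc000180c7f301d48) (.hit (nat_lit 27) (nat_lit 41) (nat_lit 0x5e0000bc000180c7f301d48) b53236 (.one (nat_lit 3) (nat_lit 33) (nat_lit 47) (nat_lit 0x5e0000bc00017eecc2ff175) b53242 (.tok (nat_lit 6) (nat_lit 0x5e0000bc00017f209aff7f0) (.hit (nat_lit 28) (nat_lit 42) (nat_lit 0x5e0000bc00017e9f42fe7c5) b53237 (.hit (nat_lit 31) (nat_lit 45) (nat_lit 0x5e0000bc00017e8ab2fe533) b53240 (.tok (nat_lit 55) (nat_lit 0x5e0000bc00017f209aff7f0) (.hit (nat_lit 29) (nat_lit 43) (nat_lit 0x5e0000bc00017f209aff7f0) b53238 (.hit (nat_lit 32) (nat_lit 46) (nat_lit 0x5e0000bc00017eeae2ff139) b53241 (.one (nat_lit 6) (nat_lit 30) (nat_lit 44) (nat_lit 0x5e0000bc00017eabcafe956) b53239 (.nil)))) (.nil)))) (.nil)))) (.one (nat_lit 58) (nat_lit 35) (nat_lit 49) (nat_lit 0x5e0000bc00017f0f4aff5c6)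 b53243 (.nil)))))) (.tok (nat_lit 9) (nat_lit 0x5e0000bc00018166330314b) (.hit (nat_lit 0) (nat_lit 0) (nat_lit 0x5e0000bc00017f873aff593) b53216 (.tok (nat_lit 9) (nat_lit 0x5e0000bc00017f64a2fe744) (.hit (nat_lit 1) (nat_lit 20) (nat_lit 0x5e0000bc00017f3382fe382) b53217 (.hit (nat_lit 4) (nat_lit 28) (nat_lit 0x5e0000bc00017e747afd898) b53218 (.one (nat_lit 56) (nat_lit 6) (nat_lit 31) (nat_lit 0x5e0000bc00017f64a2fe744) b53219 (.nil)))) (.tok (nat_lit 64) (nat_lit 0x5e0000bc00018021ab00032) (.hit (nat_lit 7) (nat_lit 50) (nat_lit 0x5e0000bc00018021ab00032) b53220 (.hit (nat_lit 8) (nat_lit 51) (nat_lit 0x5e0000bc00017f75e2ff40d) b53221 (.nil))) (.tok (nat_lit 67) (nat_lit 0x5e0000bc00018166330314b) (.hit (nat_lit 9) (nat_lit 52) (nat_lit 0x5e0000bc00018166330314b) b53222 (.one (nat_lit 3) (nat_lit 12) (nat_lit 58) (nat_lit 0x5e0000bc00017fea52ffe4c) b53225 (.tok (nat_lit 9)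 (nat_lit 0x5e0000bc00018046fb005d2) (.hit (nat_lit 10) (nat_lit 53) (nat_lit 0x5e0000bc00018046fb005d2) b53223 (.hit (nat_lit 11) (nat_lit 56) (nat_lit 0x5e0000bc00017fd332ff914) b53224 (.nil))) (.nil)))) (.one (nat_lit 70) (nat_lit 14) (nat_lit 60) (nat_lit 0x5e0000bc00017f2aeaff1c0) b53226 (.nil)))))) (.nil))
noncomputable def r75_9 : Rw Blk := .tok (nat_lit 3) (nat_lit 0x17faffafe5bb5fe928bfd2397fd962ff3825feff4bfc0397fbd72ff0e45ff402bfd4957fc562ffcbb) (.hit (nat_lit 0) (nat_lit 0) (nat_lit 0x17e8aaafca0a5fa42abf6bc97eb65afda935faf34bf585d7ebf22fdaaa5faaa0bf6c097efa52fdcc4) b53554 (.tok (nat_lit 9) (nat_lit 0x17e91dafc71b5fd9c4bf8f017eea7afe1cb5fb4e6bf61557f0352fd8075fb0c4bf82e97f2762fee64) (.hit (nat_lit 10) (nat_lit 20) (nat_lit 0x17def12fb2c25fae68bf3d9d7e47b2fcd725f8c34bf0ff17e608afc3ae5f8812befd997e4202fd94f) b53245 (.hit (nat_lit 15) (nat_lit 28) (nat_lit 0x17ddb9afb0535f977cbf33e17e343afcb035f8756bf06357e4d12fc13f5f8334bf58b57ed37afd9bb)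 b53250 (.tok (nat_lit 14) (nat_lit 0x17e86f2fc5be5fd240bf898d7edf92fe06e5fb22cbf5be17ef86afd6aa5fae0abf82e97f2762feaa6) (.hit (nat_lit 11) (nat_lit 24) (nat_lit 0x17e23f2fb95e5fbe86bf580d7e7c92fd40e5f996cbf2a617e956afca4a5f954abf18097e76e2fe0a7) b53246 (.hit (nat_lit 16) (nat_lit 30) (nat_lit 0x17e1c0afb8615fa9e4bf54197e74aafd3115f9772bf266d7e8d82fc94d5f9350bf82e97f2762fe324) b53251 (.one (nat_lit 6) (nat_lit 12) (nat_lit 25) (nat_lit 0x17e86f2fc5be5fd240bf898d7edf92fe06e5fb22cbf5be17ef86afd6aa5fae0abf49897ed9e2feaa6) b53247 (.nil)))) (.tok (nat_lit 68) (nat_lit 0x17e91dafc71b5fd9c4bf8f017eea7afe1cb5fb4e6bf61557f0352fd8075fb0c4bf6f417f001afee64) (.hit (nat_lit 13) (nat_lit 26) (nat_lit 0x17e509afbef35fc308bf6e617ea93afd9a35fa496bf40b57ec212fcfdf5fa074bf3e0d7ea38afe506) b53248 (.hit (nat_lit 18) (nat_lit 32) (nat_lit 0x17e2fbafbad75fad10bf5df17e885afd5875f9c5ebf30457ea132fcbc35f983cbf6f417f001afdd41)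 b53252 (.one (nat_lit 9) (nat_lit 14) (nat_lit 27) (nat_lit 0x17e91dafc71b5fd9c4bf8f017eea7afe1cb5fb4e6bf61557f0352fd8075fb0c4bf4efd7ee4cafee64) b53249 (.nil)))) (.nil))))) (.tok (nat_lit 64) (nat_lit 0x17e3b8afbc515fbab2bf63d97e942afd7015f9f52bf362d7ead02fcd3d5f9b30bf87897f38eafe353) (.hit (nat_lit 30) (nat_lit 50) (nat_lit 0x17e223afb9275fa034bf57317e7adafd3d75f98febf29857e93b2fca135f94dcbf82617f265afe209) b53253 (.hit (nat_lit 31) (nat_lit 51) (nat_lit 0x17e3b8afbc515fbab2bf63d97e942afd7015f9f52bf362d7ead02fcd3d5f9b30bf87897f38eafe353) b53254 (.nil))) (.tok (nat_lit 67) (nat_lit 0x17faffafe5bb5fe928bfd2397fd962ff3825feff4bfc0397fbd72ff0e45ff402bfd4957fc562ffcbb) (.hit (nat_lit 32) (nat_lit 52) (nat_lit 0x17faffafe2a85fe578bfb9197fd962fedf75feff4bfc0397fbd72ff0e45ff402bfd4957fc562ff9b7) b53255 (.tok (nat_lit 3) (nat_lit 0x17ec082fccf05fe928bfa6557f1922fe7a05fc090bf78a97f31fafdddc5fbc6ebf6e1d7f1372ffcbb)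 (.hit (nat_lit 38) (nat_lit 58) (nat_lit 0x17e834afc5495fd040bf87b97edbeafdff95fb142bf5a0d7ef4c2fd6355fad20bf50197ed63afede4) b53261 (.one (nat_lit 55) (nat_lit 39) (nat_lit 59) (nat_lit 0x17ec082fccf05fe928bfa6557f1922fe7a05fc090bf78a97f31fafdddc5fbc6ebf6e1d7f1372ffcbb) b53262 (.nil))) (.tok (nat_lit 9) (nat_lit 0x17f4a5afe5bb5fda54bfd2397fa872ff3825fce92bf94ad7f6a02fe4dd5fca70bf82557f4b7aff3f9) (.hit (nat_lit 33) (nat_lit 53) (nat_lit 0x17ed932fd5cc5fc9f2bfb5417f533afecfb5fbb90bf6ea97f1dfafdb5c5fb76ebf5c517eff72feaa0) b53256 (.hit (nat_lit 36) (nat_lit 56) (nat_lit 0x17e8612fc5a25fc7dabf891d7edeb2fe0525fb1f4bf5b717ef78afd68e5fadd2bf49197ed902fec10) b53259 (.tok (nat_lit 67) (nat_lit 0x17f4a5afe5bb5fda54bfd2397fa872ff3825fce92bf94ad7f6a02fe4dd5fca70bf82557f4b7aff3f9) (.hit (nat_lit 34) (nat_lit 54) (nat_lit 0x17f4a5afe5bb5fcbdebfd2397fa872ff3825fce92bf94ad7f6a02fe4dd5fca70bf82557f4b7afed93)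 b53257 (.hit (nat_lit 37) (nat_lit 57) (nat_lit 0x17eda62fd02c5fda54bfb3457f3302feadc5fc708bf85997f4bdafe1185fc2e6bf73417f2d52ff3f9) b53260 (.one (nat_lit 9) (nat_lit 35) (nat_lit 55) (nat_lit 0x17ecdaafce955fca10bface97f264afe9455fc3dabf7f3d7f3f22fdf815fbfb8bf6ce57f209afef6b) b53258 (.nil)))) (.nil)))) (.nil)))) (.one (nat_lit 70) (nat_lit 40) (nat_lit 60) (nat_lit 0x17e7d0afc4815fc82abf84997ed5aafdf315fafb2bf56ed7eee82fd56d5fab90bfc45d7fb292ff288) b53263 (.nil)))))) (.tok (nat_lit 6) (nat_lit 0x180000300000600000c0000180000300000600000c0000180000300000600000c0000180000300000) (.hit (nat_lit 81) (nat_lit 0) (nat_lit 0x17f2cd2fe49c5fbbe6bfade57f4382feb185fdab6bf97597f57d2feab25fd50ebf9f7d7f520afe673) b53264 (.tok (nat_lit 6) (nat_lit 0x180000300000600000c0000180000300000600000c0000180000300000600000c0000180000300000) (.hit (nat_lit 87) (nat_lit 7) (nat_lit 0x17ede92fd8a35fac06bf6a657f20eafdeaa5fbed4bf78217ee5bafdac15fb828bf6a917edbb2fdc3a)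 b53265 (.hit (nat_lit 95) (nat_lit 15) (nat_lit 0x17e71b2fbe235fa61abf02217e98eafbf4b5f9756bf377d7e7e4afcf635fb932bf5d457ec262fd827) b53270 (.tok (nat_lit 14) (nat_lit 0x180000300000600000c0000180000300000600000c0000180000300000600000c00001800002fffb1) (.hit (nat_lit 91) (nat_lit 11) (nat_lit 0x17fe562ffbb45ffd5cbfed817fc73affd50600000bff5f57fdebaffb975ff458bfe4ed7fcb82ffc38) b53266 (.hit (nat_lit 97) (nat_lit 17) (nat_lit 0x17f5592fd9c95fe632bf748d7f7a22fdbc75fcc66bf95d57f4bbafeaec5fe186bfbee97f6f3afe94c) b53271 (.one (nat_lit 9) (nat_lit 92) (nat_lit 12) (nat_lit 0x180000300000600000c00001800003000005ffe24c0000180000300000600000c00001800002fffb1) b53267 (.nil)))) (.tok (nat_lit 56) (nat_lit 0x17fab12ff6e55fe072bfcd857f9d02ff7a45fe798bfbef57fb352ff77e5fd7dcbfb1bd7f5f4b00000) (.hit (nat_lit 93) (nat_lit 13) (nat_lit 0x17fab12fef765fdf16bfcd857f9d02ff7a45fe798bfbef57f870aff16d5fd7dcbfb1bd7f5f4afee8b)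 b53268 (.hit (nat_lit 99) (nat_lit 19) (nat_lit 0x17f18eafd30e5fb962bf56657f3d8afd4325fbd3cbf77817f048afe1f75fd6fabf9ce97f2b9afe056) b53273 (.one (nat_lit 6) (nat_lit 94) (nat_lit 14) (nat_lit 0x17f5baaff6e55fe072bfb1097f84fafea4d5fd1a2bfac117fb352ff77e5fcedabf977d7f3cfb00000) b53269 (.nil)))) (.one (nat_lit 68) (nat_lit 98) (nat_lit 18) (nat_lit 0x17f166afd38d5fc92abf588d7f440afd4c75fbe66bf79d57ef162fdf8c5fe47cbfa6157f466afe539) b53272 (.nil)))))) (.nil))) (.nil))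
noncomputable def r75_10 : Rw Blk := .tok (nat_lit 9) (nat_lit 0x5e0000bc00017f9b92ffa47) (.hit (nat_lit 0) (nat_lit 0) (nat_lit 0x5e0000bc00017ee012fe30e) b53274 (.tok (nat_lit 14) (nat_lit 0x5e0000bc00017f3e4afeb2e) (.hit (nat_lit 11) (nat_lit 61) (nat_lit 0x5e0000bc00017f3e4afe9ba) b53275 (.one (nat_lit 3) (nat_lit 12) (nat_lit 62) (nat_lit 0x5e0000bc00017f31a2fe022) b53276 (.tok (nat_lit 6) (nat_lit 0x5e0000bc00017f2252feb2e) (.hit (nat_lit 15) (nat_lit 65) (nat_lit 0x5e0000bc00017f2252feb2e) b53277 (.hit (nat_lit 16) (nat_lit 66) (nat_lit 0x5e0000bc00017ef67afe8ec) b53278 (.nil))) (.tok (nat_lit 9) (nat_lit 0x5e0000bc00017eeb42fe8f6) (.hit (nat_lit 13) (nat_lit 63) (nat_lit 0x5e0000bc00017e9972fe8f6) b53279 (.hit (nat_lit 14) (nat_lit 64) (nat_lit 0x5e0000bc00017eeb42fe738) b53280 (.nil))) (.nil))))) (.one (nat_lit 17) (nat_lit 17) (nat_lit 67) (nat_lit 0x5e0000bc00017ee172fd591)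 b53281 (.tok (nat_lit 20) (nat_lit 0x5e0000bc00017ed752fd4fd) (.hit (nat_lit 18) (nat_lit 68) (nat_lit 0x5e0000bc00017df9aafd4fd) b53284 (.hit (nat_lit 19) (nat_lit 69) (nat_lit 0x5e0000bc00017ed752fd3fd) b53285 (.nil))) (.tok (nat_lit 23) (nat_lit 0x5e0000bc00017f89fafef0b) (.hit (nat_lit 20) (nat_lit 70) (nat_lit 0x5e0000bc00017f89fafef0b) b53282 (.hit (nat_lit 21) (nat_lit 71) (nat_lit 0x5e0000bc00017eeceafd3fd) b53283 (.nil))) (.one (nat_lit 26) (nat_lit 22) (nat_lit 72) (nat_lit 0x5e0000bc00017e5f62fc18d) b53286 (.one (nat_lit 29) (nat_lit 23) (nat_lit 73) (nat_lit 0x5e0000bc00017e5882fc49f) b53287 (.one (nat_lit 32) (nat_lit 24) (nat_lit 74) (nat_lit 0x5e0000bc00017ea122fc77c) b53289 (.one (nat_lit 35) (nat_lit 25) (nat_lit 75) (nat_lit 0x5e0000bc00017e4caafc77c) b53288 (.one (nat_lit 38) (nat_lit 26) (nat_lit 76) (nat_lit 0x5e0000bc00017ed3aafd5d1) b53290 (.tok (nat_lit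 41) (nat_lit 0x5e0000bc00017ee8fafcb7c) (.hit (nat_lit 27) (nat_lit 77) (nat_lit 0x5e0000bc00017ea56afc1a8) b53291 (.hit (nat_lit 28) (nat_lit 78) (nat_lit 0x5e0000bc00017ee8fafcb7c) b53292 (.nil))) (.tok (nat_lit 44) (nat_lit 0x5e0000bc00017efe42fccbd) (.hit (nat_lit 29) (nat_lit 79) (nat_lit 0x5e0000bc00017d532afc02d) b53295 (.hit (nat_lit 30) (nat_lit 80) (nat_lit 0x5e0000bc00017efe42fccbd) b53296 (.nil))) (.tok (nat_lit 47) (nat_lit 0x5e0000bc00017efb6afcd5a) (.hit (nat_lit 31) (nat_lit 81) (nat_lit 0x5e0000bc00017efb6afcd5a) b53293 (.hit (nat_lit 32) (nat_lit 82) (nat_lit 0x5e0000bc00017e9972fcad1) b53294 (.nil))) (.one (nat_lit 62) (nat_lit 42) (nat_lit 92) (nat_lit 0x5e0000bc00017ed40afcf3f) b53297 (.tok (nat_lit 65) (nat_lit 0x5e0000bc00017edb3afd7cf) (.hit (nat_lit 43) (nat_lit 93) (nat_lit 0x5e0000bc00017e11aafd7cf) b53298 (.hit (nat_lit 44) (nat_lit 94) (nat_lit 0x5e0000bc00017edb3afcd16)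 b53299 (.nil))) (.tok (nat_lit 68) (nat_lit 0x5e0000bc00017f9b92ffa47) (.hit (nat_lit 45) (nat_lit 95) (nat_lit 0x5e0000bc00017f96daff606) b53300 (.one (nat_lit 3) (nat_lit 49) (nat_lit 99) (nat_lit 0x5e0000bc00017f9b92feae1) b53304 (.one (nat_lit 6) (nat_lit 46) (nat_lit 96) (nat_lit 0x5e0000bc00017f450affa47) b53301 (.tok (nat_lit 9) (nat_lit 0x5e0000bc00017f57b2fe5a3) (.hit (nat_lit 47) (nat_lit 97) (nat_lit 0x5e0000bc00017f57b2fe5a3) b53302 (.hit (nat_lit 48) (nat_lit 98) (nat_lit 0x5e0000bc00017eff52fd88d) b53303 (.nil))) (.nil))))) (.one (nat_lit 71) (nat_lit 50) (nat_lit 100) (nat_lit 0x5e0000bc00017e9ff2fc1bc) b53305 (.nil)))))))))))))))))) (.tok (nat_lit 64) (nat_lit 0x5e0000bc00018000030126e) (.hit (nat_lit 180) (nat_lit 0) (nat_lit 0x5e0000bc00017fe7630126e) b53306 (.tok (nat_lit 6) (nat_lit 0x5e0000bc00017f1d4aff885) (.hit (nat_lit 181) (nat_lit 7) (nat_lit 0x5e0000bc00017e6ec2ff110)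 b53309 (.hit (nat_lit 182) (nat_lit 15) (nat_lit 0x5e0000bc00017f1d4aff885) b53310 (.nil))) (.tok (nat_lit 9) (nat_lit 0x5e0000bc000180000300e01) (.hit (nat_lit 183) (nat_lit 20) (nat_lit 0x5e0000bc000180000300e01) b53307 (.hit (nat_lit 184) (nat_lit 28) (nat_lit 0x5e0000bc00017f4752ffa8b) b53308 (.nil))) (.nil)))) (.tok (nat_lit 67) (nat_lit 0x5e0000bc00017f661b00609) (.hit (nat_lit 205) (nat_lit 0) (nat_lit 0x5e0000bc00017f661aff220) b53316 (.tok (nat_lit 3) (nat_lit 0x5e0000bc00017f168b00609) (.hit (nat_lit 206) (nat_lit 1) (nat_lit 0x5e0000bc00017e3e12feafa) b53317 (.one (nat_lit 55) (nat_lit 207) (nat_lit 3) (nat_lit 0x5e0000bc00017f168b00609) b53318 (.nil))) (.tok (nat_lit 9) (nat_lit 0x5e0000bc00017ed372ffda6) (.hit (nat_lit 208) (nat_lit 20) (nat_lit 0x5e0000bc00017e6e2aff0fd) b53319 (.hit (nat_lit 211) (nat_lit 28) (nat_lit 0x5e0000bc00017e357afe9e7) b53322 (.tok (nat_lit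 67) (nat_lit 0x5e0000bc00017ed372ffda6) (.hit (nat_lit 209) (nat_lit 21) (nat_lit 0x5e0000bc00017e8cc2ff4d0) b53320 (.hit (nat_lit 212) (nat_lit 29) (nat_lit 0x5e0000bc00017ed372ffda6) b53323 (.one (nat_lit 9) (nat_lit 210) (nat_lit 22) (nat_lit 0x5e0000bc00017ebf22ffb1c) b53321 (.nil)))) (.nil)))) (.nil)))) (.tok (nat_lit 70) (nat_lit 0x5e0000bc00017fb04b00c8d) (.hit (nat_lit 191) (nat_lit 0) (nat_lit 0x5e0000bc00017fb04aff82c) b53311 (.tok (nat_lit 3) (nat_lit 0x5e0000bc00017f4aab00c8d) (.hit (nat_lit 192) (nat_lit 1) (nat_lit 0x5e0000bc00017e3ac2fea90) b53312 (.one (nat_lit 67) (nat_lit 193) (nat_lit 2) (nat_lit 0x5e0000bc00017f4aab00c8d) b53313 (.nil))) (.tok (nat_lit 6) (nat_lit 0x5e0000bc00017ea44aff7c1) (.hit (nat_lit 194) (nat_lit 7) (nat_lit 0x5e0000bc00017ea44aff7c1) b53314 (.hit (nat_lit 197) (nat_lit 15) (nat_lit 0x5e0000bc00017e6a32ff07e) b53315 (.nil))) (.nil))))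 (.nil))))
noncomputable def r75_11 : Rw Blk := .tok (nat_lit 3) (nat_lit 0x5e0000bc00018025cb008cb) (.hit (nat_lit 15) (nat_lit 0) (nat_lit 0x5e0000bc00017f0a92fee08) b53339 (.tok (nat_lit 6) (nat_lit 0x5e0000bc00017e3ef2fe55d) (.hit (nat_lit 16) (nat_lit 7) (nat_lit 0x5e0000bc00017de37afd9ee) b53340 (.hit (nat_lit 21) (nat_lit 15) (nat_lit 0x5e0000bc00017d256afc22c) b53343 (.tok (nat_lit 14) (nat_lit 0x5e0000bc00017e3ef2fe55d) (.hit (nat_lit 17) (nat_lit 11) (nat_lit 0x5e0000bc00017dcdbafd736) b53341 (.hit (nat_lit 22) (nat_lit 17) (nat_lit 0x5e0000bc00017e2872fe28d) b53344 (.one (nat_lit 9) (nat_lit 18) (nat_lit 12) (nat_lit 0x5e0000bc00017e3ef2fe55d) b53342 (.nil)))) (.one (nat_lit 68) (nat_lit 23) (nat_lit 18) (nat_lit 0x5e0000bc00017e1ac2fe0d7) b53345 (.nil))))) (.tok (nat_lit 52) (nat_lit 0x5e0000bc00017e80fafed9e) (.hit (nat_lit 25) (nat_lit 39) (nat_lit 0x5e0000bc00017e17cafe078)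 b53346 (.hit (nat_lit 26) (nat_lit 40) (nat_lit 0x5e0000bc00017e80fafed9e) b53347 (.nil))) (.tok (nat_lit 55) (nat_lit 0x5e0000bc00018025cb008cb) (.hit (nat_lit 27) (nat_lit 41) (nat_lit 0x5e0000bc00018025cb008cb) b53348 (.tok (nat_lit 3) (nat_lit 0x5e0000bc00017ec2baff5d6) (.hit (nat_lit 33) (nat_lit 47) (nat_lit 0x5e0000bc00017e81c2fedb7) b53351 (.one (nat_lit 67) (nat_lit 34) (nat_lit 48) (nat_lit 0x5e0000bc00017ec2baff5d6) b53352 (.nil))) (.tok (nat_lit 6) (nat_lit 0x5e0000bc00017e6072fe98d) (.hit (nat_lit 28) (nat_lit 42) (nat_lit 0x5e0000bc00017e46bafe656) b53349 (.hit (nat_lit 31) (nat_lit 45) (nat_lit 0x5e0000bc00017e6072fe98d) b53350 (.nil))) (.nil)))) (.one (nat_lit 58) (nat_lit 35) (nat_lit 49) (nat_lit 0x5e0000bc00017e7822fec83) b53353 (.nil)))))) (.tok (nat_lit 9) (nat_lit 0x5e0000bc000180c3ab03547) (.hit (nat_lit 0) (nat_lit 0) (nat_lit 0x5e0000bc00017fa93300a0f)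 b53324 (.tok (nat_lit 9) (nat_lit 0x5e0000bc00017ff3f3000fe) (.hit (nat_lit 1) (nat_lit 20) (nat_lit 0x5e0000bc00017ef4d2fe2f2) b53325 (.hit (nat_lit 4) (nat_lit 28) (nat_lit 0x5e0000bc00017e996afd840) b53328 (.tok (nat_lit 14) (nat_lit 0x5e0000bc00017ff3f3000fe) (.hit (nat_lit 2) (nat_lit 24) (nat_lit 0x5e0000bc00017fc47affac2) b53326 (.hit (nat_lit 5) (nat_lit 30) (nat_lit 0x5e0000bc00017eef6afe117) b53329 (.one (nat_lit 6) (nat_lit 3) (nat_lit 25) (nat_lit 0x5e0000bc00017ff3f3000fe) b53327 (.nil)))) (.one (nat_lit 56) (nat_lit 6) (nat_lit 31) (nat_lit 0x5e0000bc00017f9b4aff2dd) b53330 (.nil))))) (.tok (nat_lit 64) (nat_lit 0x5e0000bc0001803c330123e) (.hit (nat_lit 7) (nat_lit 50) (nat_lit 0x5e0000bc00017ff7db0123e) b53331 (.hit (nat_lit 8) (nat_lit 51) (nat_lit 0x5e0000bc0001803c33010e1) b53332 (.nil))) (.tok (nat_lit 67) (nat_lit 0x5e0000bc0001804363017b2) (.hit (nat_lit 9)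 (nat_lit 52) (nat_lit 0x5e0000bc000180130b010e4) b53333 (.tok (nat_lit 3) (nat_lit 0x5e0000bc0001804363017b2) (.hit (nat_lit 12) (nat_lit 58) (nat_lit 0x5e0000bc00017fd6cb00e66) b53336 (.one (nat_lit 55) (nat_lit 13) (nat_lit 59) (nat_lit 0x5e0000bc0001804363017b2) b53337 (.nil))) (.tok (nat_lit 9) (nat_lit 0x5e0000bc00017fb37300a35) (.hit (nat_lit 10) (nat_lit 53) (nat_lit 0x5e0000bc00017f490300a35) b53334 (.hit (nat_lit 11) (nat_lit 56) (nat_lit 0x5e0000bc00017fb372ffd85) b53335 (.nil))) (.nil)))) (.one (nat_lit 70) (nat_lit 14) (nat_lit 60) (nat_lit 0x5e0000bc000180c3ab03547) b53338 (.nil)))))) (.nil))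
noncomputable def r75_12 : Rw Blk := .tok (nat_lit 6) (nat_lit 0x1780002f0000600000c07ac980d09300915) (.hit (nat_lit 0) (nat_lit 0) (nat_lit 0x1780002f00005fb17abf86a17ef10afdcfb) b53354 (.tok (nat_lit 14) (nat_lit 0x1780002f00005ffa7cbfb6c97f71daff832) (.hit (nat_lit 21) (nat_lit 61) (nat_lit 0x1780002f00005fe1dcbfa0497f353afe914) b53355 (.one (nat_lit 3) (nat_lit 22) (nat_lit 62) (nat_lit 0x1780002f00005fea86bf6c317ed3f2fed65) b53356 (.tok (nat_lit 6) (nat_lit 0x1780002f00005fc190bf89117f06cafe261) (.hit (nat_lit 25) (nat_lit 65) (nat_lit 0x1780002f00005f7adcbf89117f06cafdf5f) b53357 (.hit (nat_lit 26) (nat_lit 66) (nat_lit 0x1780002f00005fc190bf82257f01b2fe261) b53358 (.nil))) (.tok (nat_lit 9) (nat_lit 0x1780002f00005ffa7cbfb6c97f71daff832) (.hit (nat_lit 23) (nat_lit 63) (nat_lit 0x1780002f00005ffa7cbfb6c97f71daff832) b53359 (.hit (nat_lit 24) (nat_lit 64) (nat_lit 0x1780002f00005fbe8ebf82497ef93afddad)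 b53360 (.nil))) (.nil))))) (.one (nat_lit 17) (nat_lit 27) (nat_lit 67) (nat_lit 0x1780002f00005fd004bf66217ec2d2fd987) b53361 (.tok (nat_lit 20) (nat_lit 0x1780002f0000600000c07ac980d09300915) (.hit (nat_lit 28) (nat_lit 68) (nat_lit 0x1780002f0000600000c07ac980d09300915) b53364 (.hit (nat_lit 29) (nat_lit 69) (nat_lit 0x1780002f00005fb608bf41a17e8262fcfaf) b53365 (.nil))) (.tok (nat_lit 23) (nat_lit 0x1780002f00005fb044bf461d7e80e2fcea2) (.hit (nat_lit 30) (nat_lit 70) (nat_lit 0x1780002f00005f5962bf461d7e80e2fcea2) b53362 (.hit (nat_lit 31) (nat_lit 71) (nat_lit 0x1780002f00005fb044bf380d7e5d9afccbb) b53363 (.nil))) (.one (nat_lit 38) (nat_lit 36) (nat_lit 76) (nat_lit 0x1780002f00005fad1ebf4e657e9172fd0b4) b53366 (.tok (nat_lit 41) (nat_lit 0x1780002f00005fa504bf48517e8e3afd253) (.hit (nat_lit 37) (nat_lit 77) (nat_lit 0x1780002f00005f9866befef17df722fcaad) b53367 (.hit (nat_lit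 38) (nat_lit 78) (nat_lit 0x1780002f00005fa504bf48517e8e3afd253) b53368 (.nil))) (.tok (nat_lit 44) (nat_lit 0x1780002f00005fc3d4bf5c7d7e846afddeb) (.hit (nat_lit 39) (nat_lit 79) (nat_lit 0x1780002f00005fc3d4bf5c7d7e846afddeb) b53371 (.hit (nat_lit 40) (nat_lit 80) (nat_lit 0x1780002f00005fac58bf09c97e1612fca81) b53372 (.nil))) (.tok (nat_lit 47) (nat_lit 0x1780002f00005fd746bf5add7ea9eafdf2e) (.hit (nat_lit 41) (nat_lit 81) (nat_lit 0x1780002f00005f4a90bf28797e459afc739) b53369 (.hit (nat_lit 42) (nat_lit 82) (nat_lit 0x1780002f00005fd746bf5add7ea9eafdf2e) b53370 (.nil))) (.one (nat_lit 50) (nat_lit 43) (nat_lit 83) (nat_lit 0x1780002f00005fbfbabf3c957e790afd38c) b53382 (.tok (nat_lit 53) (nat_lit 0x1780002f00005fd5a6bf90b17f3db2feadc) (.hit (nat_lit 44) (nat_lit 84) (nat_lit 0x1780002f00005fd5a6bf90b17f3db2feadc) b53383 (.hit (nat_lit 45) (nat_lit 85) (nat_lit 0x1780002f00005fbd8abf4b157e9512fd703)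 b53384 (.nil))) (.tok (nat_lit 56) (nat_lit 0x1780002f00005fe00ebfdc797fa402febcb) (.hit (nat_lit 46) (nat_lit 86) (nat_lit 0x1780002f00005fd992bfb3397f46cafe559) b53385 (.one (nat_lit 3) (nat_lit 50) (nat_lit 90) (nat_lit 0x1780002f00005fc096bf8ad17ef76afd470) b53389 (.tok (nat_lit 6) (nat_lit 0x1780002f00005fd978bf85697f048afe79e) (.hit (nat_lit 48) (nat_lit 88) (nat_lit 0x1780002f00005fd978bf85697f048afe79e) b53387 (.hit (nat_lit 49) (nat_lit 89) (nat_lit 0x1780002f00005fcdaabf54d97ea22afdc8a) b53388 (.nil))) (.one (nat_lit 9) (nat_lit 47) (nat_lit 87) (nat_lit 0x1780002f00005fe00ebfdc797fa402febcb) b53386 (.nil))))) (.one (nat_lit 59) (nat_lit 51) (nat_lit 91) (nat_lit 0x1780002f00005fb452bf24197e4732fcce2) b53390 (.one (nat_lit 62) (nat_lit 52) (nat_lit 92) (nat_lit 0x1780002f00005fa1f4bf37897e63bafcafd) b53373 (.tok (nat_lit 65) (nat_lit 0x1780002f00005fb994bf418d7e77c2fd206)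 (.hit (nat_lit 53) (nat_lit 93) (nat_lit 0x1780002f00005fb994bf418d7e77c2fd206) b53374 (.hit (nat_lit 54) (nat_lit 94) (nat_lit 0x1780002f00005f8f2cbf35a97e6762fcaaa) b53375 (.nil))) (.tok (nat_lit 68) (nat_lit 0x1780002f00005f9ee2bf98e57f112afe1c6) (.hit (nat_lit 55) (nat_lit 95) (nat_lit 0x1780002f00005f9ee2bf98e57f112afe1c6) b53376 (.one (nat_lit 3) (nat_lit 59) (nat_lit 99) (nat_lit 0x1780002f00005f5868bf44297e7cfafce25) b53380 (.one (nat_lit 6) (nat_lit 56) (nat_lit 96) (nat_lit 0x1780002f00005f60aebf54b57e9e12fd248) b53377 (.tok (nat_lit 9) (nat_lit 0x1780002f00005f7c86bf8c657f0d72fe034) (.hit (nat_lit 57) (nat_lit 97) (nat_lit 0x1780002f00005f7c86bf8c657f0d72fe034) b53378 (.hit (nat_lit 58) (nat_lit 98) (nat_lit 0x1780002f00005f6be2bf6b1d7ecae2fd7e2) b53379 (.nil))) (.nil))))) (.one (nat_lit 71) (nat_lit 60) (nat_lit 100) (nat_lit 0x1780002f00005faf42bf29cd7e4ddafcbfa)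 b53381 (.nil)))))))))))))))))) (.nil)
noncomputable def r75_13 : Rw Blk := .tok (nat_lit 6) (nat_lit 0x5e0000bc000180000300000) (.hit (nat_lit 0) (nat_lit 0) (nat_lit 0x5e0000bc00017ebddafde7d) b53391 (.tok (nat_lit 14) (nat_lit 0x5e0000bc000180000300000) (.hit (nat_lit 21) (nat_lit 61) (nat_lit 0x5e0000bc00017f8e02fe9d1) b53392 (.one (nat_lit 3) (nat_lit 22) (nat_lit 62) (nat_lit 0x5e0000bc00017f22b2fdffc) b53393 (.tok (nat_lit 6) (nat_lit 0x5e0000bc00017f2662fea62) (.hit (nat_lit 25) (nat_lit 65) (nat_lit 0x5e0000bc00017e9022fe71d) b53394 (.hit (nat_lit 26) (nat_lit 66) (nat_lit 0x5e0000bc00017f2662fea62) b53395 (.nil))) (.tok (nat_lit 9) (nat_lit 0x5e0000bc000180000300000) (.hit (nat_lit 23) (nat_lit 63) (nat_lit 0x5e0000bc000180000300000) b53396 (.hit (nat_lit 24) (nat_lit 64) (nat_lit 0x5e0000bc00017f4a5afe7b6) b53397 (.nil))) (.nil))))) (.one (nat_lit 17) (nat_lit 27) (nat_lit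 67) (nat_lit 0x5e0000bc00017ed372fd56b) b53398 (.tok (nat_lit 20) (nat_lit 0x5e0000bc00017f1b92fe68a) (.hit (nat_lit 28) (nat_lit 68) (nat_lit 0x5e0000bc00017f1b92fe68a) b53401 (.hit (nat_lit 29) (nat_lit 69) (nat_lit 0x5e0000bc00017eba02fd3d9) b53402 (.nil))) (.tok (nat_lit 23) (nat_lit 0x5e0000bc00017ed222fdf9e) (.hit (nat_lit 30) (nat_lit 70) (nat_lit 0x5e0000bc00017e542afdf9e) b53399 (.hit (nat_lit 31) (nat_lit 71) (nat_lit 0x5e0000bc00017ed222fd3d7) b53400 (.nil))) (.one (nat_lit 38) (nat_lit 36) (nat_lit 76) (nat_lit 0x5e0000bc00017eb12afd5ab) b53403 (.tok (nat_lit 41) (nat_lit 0x5e0000bc00017e9e3afccb6) (.hit (nat_lit 37) (nat_lit 77) (nat_lit 0x5e0000bc00017e9e3afc69e) b53404 (.hit (nat_lit 38) (nat_lit 78) (nat_lit 0x5e0000bc00017e85aafccb6) b53405 (.nil))) (.tok (nat_lit 44) (nat_lit 0x5e0000bc00017eea6afcf1a) (.hit (nat_lit 39) (nat_lit 79) (nat_lit 0x5e0000bc00017eea6afcf1a)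 b53408 (.hit (nat_lit 40) (nat_lit 80) (nat_lit 0x5e0000bc00017ea65afc995) b53409 (.nil))) (.tok (nat_lit 47) (nat_lit 0x5e0000bc00017edb8afcc2c) (.hit (nat_lit 41) (nat_lit 81) (nat_lit 0x5e0000bc00017d41cafbd52) b53406 (.hit (nat_lit 42) (nat_lit 82) (nat_lit 0x5e0000bc00017edb8afcc2c) b53407 (.nil))) (.one (nat_lit 50) (nat_lit 43) (nat_lit 83) (nat_lit 0x5e0000bc00017f01c2fd0eb) b53419 (.tok (nat_lit 53) (nat_lit 0x5e0000bc00017f110afe065) (.hit (nat_lit 44) (nat_lit 84) (nat_lit 0x5e0000bc00017f110afe065) b53420 (.hit (nat_lit 45) (nat_lit 85) (nat_lit 0x5e0000bc00017eed6afceda) b53421 (.nil))) (.tok (nat_lit 56) (nat_lit 0x5e0000bc00017fc1aafee79) (.hit (nat_lit 46) (nat_lit 86) (nat_lit 0x5e0000bc00017f7efafeb58) b53422 (.one (nat_lit 3) (nat_lit 50) (nat_lit 90) (nat_lit 0x5e0000bc00017f2a92fd881) b53426 (.tok (nat_lit 6) (nat_lit 0x5e0000bc00017fc1aafee79) (.hit (nat_lit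 48) (nat_lit 88) (nat_lit 0x5e0000bc00017fc1aafee79) b53424 (.hit (nat_lit 49) (nat_lit 89) (nat_lit 0x5e0000bc00017f2212fd869) b53425 (.nil))) (.one (nat_lit 9) (nat_lit 47) (nat_lit 87) (nat_lit 0x5e0000bc00017fa692fedc5) b53423 (.nil))))) (.one (nat_lit 59) (nat_lit 51) (nat_lit 91) (nat_lit 0x5e0000bc00017ec4dafc952) b53427 (.one (nat_lit 62) (nat_lit 52) (nat_lit 92) (nat_lit 0x5e0000bc00017ea5b2fcf19) b53410 (.tok (nat_lit 65) (nat_lit 0x5e0000bc00017e8c7afd5cc) (.hit (nat_lit 53) (nat_lit 93) (nat_lit 0x5e0000bc00017e65d2fd5cc) b53411 (.hit (nat_lit 54) (nat_lit 94) (nat_lit 0x5e0000bc00017e8c7afc780) b53412 (.nil))) (.tok (nat_lit 68) (nat_lit 0x5e0000bc00017ec4bafe83a) (.hit (nat_lit 55) (nat_lit 95) (nat_lit 0x5e0000bc00017ec4bafe83a) b53413 (.one (nat_lit 3) (nat_lit 59) (nat_lit 99) (nat_lit 0x5e0000bc00017e4582fddc9) b53417 (.one (nat_lit 6) (nat_lit 56) (nat_lit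 96) (nat_lit 0x5e0000bc00017e3a7afdc68) b53414 (.tok (nat_lit 9) (nat_lit 0x5e0000bc00017e5ef2fe0f7) (.hit (nat_lit 57) (nat_lit 97) (nat_lit 0x5e0000bc00017e5ef2fe0f7) b53415 (.hit (nat_lit 58) (nat_lit 98) (nat_lit 0x5e0000bc00017e4c62fdea5) b53416 (.nil))) (.nil))))) (.one (nat_lit 71) (nat_lit 60) (nat_lit 100) (nat_lit 0x5e0000bc00017ea5fafc5b9) b53418 (.nil)))))))))))))))))) (.nil)
noncomputable def r75_14 : Rw Blk := .tok (nat_lit 6) (nat_lit 0x300000600000c0000180000300000600000bfd64d80000300000) (.hit (nat_lit 81) (nat_lit 0) (nat_lit 0x2fe4b85fd5d4bf98697fc422fde715fd432bfc1197fb92afe051) b53433 (.tok (nat_lit 3) (nat_lit 0x2feb0b5fdbe0bfd9517f9be2ff0095fca52bfa43d7f91aafe9da) (.hit (nat_lit 82) (nat_lit 1) (nat_lit 0x2fcbb35f88b0bf69c97e95e2fc86c5f88d2bf213d7e8baafcbb3) b53434 (.one (nat_lit 14) (nat_lit 84) (nat_lit 4) (nat_lit 0x2fe8a95fdbe0bfbe497ef932fed455fb9e8bf4b4d7f42f2fe778)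 b53435 (.one (nat_lit 56) (nat_lit 86) (nat_lit 6) (nat_lit 0x2fde885fbe9cbf85197f28cafdff55fadc2bf6ab17f1e92fe175) b53436 (.one (nat_lit 68) (nat_lit 85) (nat_lit 5) (nat_lit 0x2feb0b5fd3a2bfd9517f9be2ff0095fca52bfa43d7f91aafe9da) b53437 (.nil))))) (.tok (nat_lit 40) (nat_lit 0x2fe7215fd042bfb9597f3beafe7925fc636bf74417f40d2fe807) (.hit (nat_lit 100) (nat_lit 33) (nat_lit 0x2fe7215fd042bfb9597f3beafe7925fba30bf74417f40d2fe807) b53438 (.hit (nat_lit 101) (nat_lit 34) (nat_lit 0x2fe2775fb726bf90d17f0a1afe5395fc636bf5b597f164afe321) b53439 (.nil))) (.tok (nat_lit 43) (nat_lit 0x2fecc7600000bfc0317fd0e3000005fd792bfbebd7fe4e2ff02b) (.hit (nat_lit 102) (nat_lit 35) (nat_lit 0x2fecc7600000bfc0317fd0e3000005fd792bfbebd7fe4e2ff02b) b53442 (.hit (nat_lit 103) (nat_lit 36) (nat_lit 0x2fe7225fd476bfbc317f843afe4c95fd1c6bf98697f7a02fe8e9) b53443 (.nil))) (.tok (nat_lit 46) (nat_lit 0x3000005ff54cc00001800002ffe8a600000bfd64d80000300000)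 (.hit (nat_lit 104) (nat_lit 37) (nat_lit 0x2fe23a5fbc94bfed7d800002fe5495fe35abfd64d7ff5cafe881) b53440 (.hit (nat_lit 105) (nat_lit 38) (nat_lit 0x3000005ff54cc000017fb432ffe8a600000bfae9980000300000) b53441 (.nil))) (.nil)))))) (.tok (nat_lit 9) (nat_lit 0x2feb0b5fdbe0bfd9517fc362fe04f5fd44ec000017fb92afe9da) (.hit (nat_lit 157) (nat_lit 0) (nat_lit 0x2fe4b85fd5d4bf98697fc362fe04f5fd44ebfc2397fb92afe078) b53428 (.tok (nat_lit 3) (nat_lit 0x2feb0b5fdbe0bfd9517f9be2fd8c55fca52c000017f91aafe9da) (.hit (nat_lit 158) (nat_lit 1) (nat_lit 0x2fcbb35f88b0bf69c97e95e2fb8055f88d2bf619d7e8baafcbb3) b53429 (.one (nat_lit 14) (nat_lit 160) (nat_lit 4) (nat_lit 0x2fe8a95fdbe0bfbe497f5bbafc2895fa1a8bff5e97f4402fe778) b53430 (.one (nat_lit 56) (nat_lit 162) (nat_lit 6) (nat_lit 0x2feb0b5fd3a2bfd9517f9be2fd8c55fca52c000017f91aafe9da) b53431 (.one (nat_lit 68) (nat_lit 161) (nat_lit 5) (nat_lit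 0x2fde885fbe9cbf85197f2adafca625fad8cbfbfb17f1e92fe175) b53432 (.nil))))) (.nil))) (.nil))
noncomputable def r75_15 : Rw Blk := .tok (nat_lit 3) (nat_lit 0xbc0001780002fe9d3) (.hit (nat_lit 61) (nat_lit 0) (nat_lit 0xbc0001780002fd712) b53444 (.tok (nat_lit 14) (nat_lit 0xbc0001780002fe9d3) (.hit (nat_lit 82) (nat_lit 61) (nat_lit 0xbc0001780002fe9d3) b53445 (.one (nat_lit 3) (nat_lit 83) (nat_lit 62) (nat_lit 0xbc0001780002fc431) b53446 (.tok (nat_lit 6) (nat_lit 0xbc0001780002fc8bc) (.hit (nat_lit 86) (nat_lit 65) (nat_lit 0xbc0001780002fc7e1) b53447 (.hit (nat_lit 87) (nat_lit 66) (nat_lit 0xbc0001780002fc8bc) b53448 (.nil))) (.tok (nat_lit 9) (nat_lit 0xbc0001780002fe7d5) (.hit (nat_lit 84) (nat_lit 63) (nat_lit 0xbc0001780002fe7d5) b53449 (.hit (nat_lit 85) (nat_lit 64) (nat_lit 0xbc0001780002fc6ee) b53450 (.nil))) (.nil))))) (.one (nat_lit 17) (nat_lit 88) (nat_lit 67) (nat_lit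 0xbc0001780002fbfd3) b53451 (.tok (nat_lit 20) (nat_lit 0xbc0001780002fc5fc) (.hit (nat_lit 89) (nat_lit 68) (nat_lit 0xbc0001780002fc5fc) b53454 (.hit (nat_lit 90) (nat_lit 69) (nat_lit 0xbc0001780002fbddc) b53455 (.nil))) (.tok (nat_lit 23) (nat_lit 0xbc0001780002fcc21) (.hit (nat_lit 91) (nat_lit 70) (nat_lit 0xbc0001780002fcc21) b53452 (.hit (nat_lit 92) (nat_lit 71) (nat_lit 0xbc0001780002fbdfc) b53453 (.nil))) (.one (nat_lit 26) (nat_lit 93) (nat_lit 72) (nat_lit 0xbc0001780002fab61) b53456 (.one (nat_lit 29) (nat_lit 94) (nat_lit 73) (nat_lit 0xbc0001780002fadec) b53457 (.one (nat_lit 32) (nat_lit 95) (nat_lit 74) (nat_lit 0xbc0001780002fb71b) b53459 (.one (nat_lit 35) (nat_lit 96) (nat_lit 75) (nat_lit 0xbc0001780002fb20d) b53458 (.one (nat_lit 50) (nat_lit 104) (nat_lit 83) (nat_lit 0xbc0001780002fbd75) b53469 (.tok (nat_lit 53) (nat_lit 0xbc0001780002fc0c0) (.hit (nat_lit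 105) (nat_lit 84) (nat_lit 0xbc0001780002fc0c0) b53470 (.hit (nat_lit 106) (nat_lit 85) (nat_lit 0xbc0001780002fb9e8) b53471 (.nil))) (.tok (nat_lit 56) (nat_lit 0xbc0001780002fda83) (.hit (nat_lit 107) (nat_lit 86) (nat_lit 0xbc0001780002fda83) b53472 (.one (nat_lit 3) (nat_lit 111) (nat_lit 90) (nat_lit 0xbc0001780002fc88f) b53476 (.tok (nat_lit 6) (nat_lit 0xbc0001780002fda7a) (.hit (nat_lit 109) (nat_lit 88) (nat_lit 0xbc0001780002fda7a) b53474 (.hit (nat_lit 110) (nat_lit 89) (nat_lit 0xbc0001780002fc8c3) b53475 (.nil))) (.one (nat_lit 9) (nat_lit 108) (nat_lit 87) (nat_lit 0xbc0001780002fcb96) b53473 (.nil))))) (.one (nat_lit 59) (nat_lit 112) (nat_lit 91) (nat_lit 0xbc0001780002fa926) b53477 (.one (nat_lit 62) (nat_lit 113) (nat_lit 92) (nat_lit 0xbc0001780002fc43e) b53460 (.tok (nat_lit 65) (nat_lit 0xbc0001780002fc9f7) (.hit (nat_lit 114) (nat_lit 93) (nat_lit 0xbc0001780002fc9f7)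 b53461 (.hit (nat_lit 115) (nat_lit 94) (nat_lit 0xbc0001780002fb9fb) b53462 (.nil))) (.tok (nat_lit 68) (nat_lit 0xbc0001780002fe8ea) (.hit (nat_lit 116) (nat_lit 95) (nat_lit 0xbc0001780002fe8ea) b53463 (.one (nat_lit 3) (nat_lit 120) (nat_lit 99) (nat_lit 0xbc0001780002fcf7d) b53467 (.one (nat_lit 6) (nat_lit 117) (nat_lit 96) (nat_lit 0xbc0001780002fd284) b53464 (.tok (nat_lit 9) (nat_lit 0xbc0001780002fd779) (.hit (nat_lit 118) (nat_lit 97) (nat_lit 0xbc0001780002fd2e4) b53465 (.hit (nat_lit 119) (nat_lit 98) (nat_lit 0xbc0001780002fd779) b53466 (.nil))) (.nil))))) (.one (nat_lit 71) (nat_lit 121) (nat_lit 100) (nat_lit 0xbc0001780002fa906) b53468 (.nil)))))))))))))))))) (.tok (nat_lit 40) (nat_lit 0xbc00017800030421b) (.hit (nat_lit 245) (nat_lit 0) (nat_lit 0xbc000178000301265) b53478 (.tok (nat_lit 6) (nat_lit 0xbc00017800030421b) (.hit (nat_lit 246) (nat_lit 7) (nat_lit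 0xbc00017800030421b) b53481 (.hit (nat_lit 247) (nat_lit 15) (nat_lit 0xbc0001780002ffaf3) b53482 (.nil))) (.tok (nat_lit 9) (nat_lit 0xbc0001780002fff4d) (.hit (nat_lit 248) (nat_lit 20) (nat_lit 0xbc0001780002fff4d) b53479 (.hit (nat_lit 249) (nat_lit 28) (nat_lit 0xbc0001780002fea20) b53480 (.nil))) (.nil)))) (.tok (nat_lit 43) (nat_lit 0xbc000178000303114) (.hit (nat_lit 270) (nat_lit 0) (nat_lit 0xbc0001780003002eb) b53491 (.tok (nat_lit 3) (nat_lit 0xbc000178000303114) (.hit (nat_lit 271) (nat_lit 1) (nat_lit 0xbc0001780002ffa2f) b53492 (.one (nat_lit 67) (nat_lit 272) (nat_lit 2) (nat_lit 0xbc000178000303114) b53493 (.nil))) (.tok (nat_lit 6) (nat_lit 0xbc0001780003019e6) (.hit (nat_lit 273) (nat_lit 7) (nat_lit 0xbc0001780002fed0f) b53494 (.hit (nat_lit 276) (nat_lit 15) (nat_lit 0xbc0001780002ff1b6) b53497 (.tok (nat_lit 55) (nat_lit 0xbc0001780003019e6) (.hit (nat_lit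 274) (nat_lit 8) (nat_lit 0xbc0001780002ffa49) b53495 (.hit (nat_lit 277) (nat_lit 16) (nat_lit 0xbc0001780003019e6) b53498 (.one (nat_lit 6) (nat_lit 275) (nat_lit 9) (nat_lit 0xbc000178000301671) b53496 (.nil)))) (.nil)))) (.nil)))) (.tok (nat_lit 46) (nat_lit 0xbc000178000300f48) (.hit (nat_lit 256) (nat_lit 0) (nat_lit 0xbc000178000300f48) b53483 (.tok (nat_lit 3) (nat_lit 0xbc0001780002ff075) (.hit (nat_lit 257) (nat_lit 1) (nat_lit 0xbc0001780002fd884) b53484 (.one (nat_lit 55) (nat_lit 258) (nat_lit 3) (nat_lit 0xbc0001780002ff075) b53485 (.nil))) (.tok (nat_lit 9) (nat_lit 0xbc0001780002ffd5a) (.hit (nat_lit 259) (nat_lit 20) (nat_lit 0xbc0001780002fe04e) b53486 (.hit (nat_lit 262) (nat_lit 28) (nat_lit 0xbc0001780002fdb1f) b53489 (.tok (nat_lit 67) (nat_lit 0xbc0001780002ffd5a) (.hit (nat_lit 260) (nat_lit 21) (nat_lit 0xbc0001780002ff696) b53487 (.hit (nat_lit 263) (nat_lit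 29) (nat_lit 0xbc0001780002ffd5a) b53490 (.one (nat_lit 9) (nat_lit 261) (nat_lit 22) (nat_lit 0xbc0001780002ffabd) b53488 (.nil)))) (.nil)))) (.nil)))) (.nil))))
noncomputable def r75_16 : Rw Blk := .tok (nat_lit 3) (nat_lit 0xbc0001780002fdc12) (.hit (nat_lit 61) (nat_lit 0) (nat_lit 0xbc0001780002fc6b8) b53499 (.tok (nat_lit 14) (nat_lit 0xbc0001780002fdb61) (.hit (nat_lit 82) (nat_lit 61) (nat_lit 0xbc0001780002fd829) b53500 (.one (nat_lit 3) (nat_lit 83) (nat_lit 62) (nat_lit 0xbc0001780002fcac4) b53501 (.tok (nat_lit 6) (nat_lit 0xbc0001780002fdb61) (.hit (nat_lit 86) (nat_lit 65) (nat_lit 0xbc0001780002fdb61) b53502 (.hit (nat_lit 87) (nat_lit 66) (nat_lit 0xbc0001780002fc49f) b53503 (.nil))) (.tok (nat_lit 9) (nat_lit 0xbc0001780002fda10) (.hit (nat_lit 84) (nat_lit 63) (nat_lit 0xbc0001780002fda10) b53504 (.hit (nat_lit 85) (nat_lit 64) (nat_lit 0xbc0001780002fd44c) b53505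 (.nil))) (.nil))))) (.one (nat_lit 17) (nat_lit 88) (nat_lit 67) (nat_lit 0xbc0001780002fc3b0) b53506 (.tok (nat_lit 20) (nat_lit 0xbc0001780002fbe06) (.hit (nat_lit 89) (nat_lit 68) (nat_lit 0xbc0001780002fbe06) b53509 (.hit (nat_lit 90) (nat_lit 69) (nat_lit 0xbc0001780002fb5bd) b53508 (.nil))) (.tok (nat_lit 23) (nat_lit 0xbc0001780002fbd00) (.hit (nat_lit 91) (nat_lit 70) (nat_lit 0xbc0001780002fbd00) b53507 (.hit (nat_lit 92) (nat_lit 71) (nat_lit 0xbc0001780002fb5bd) b53508 (.nil))) (.one (nat_lit 26) (nat_lit 93) (nat_lit 72) (nat_lit 0xbc0001780002faa45) b53510 (.one (nat_lit 29) (nat_lit 94) (nat_lit 73) (nat_lit 0xbc0001780002fab01) b53511 (.one (nat_lit 32) (nat_lit 95) (nat_lit 74) (nat_lit 0xbc0001780002fafee) b53513 (.one (nat_lit 35) (nat_lit 96) (nat_lit 75) (nat_lit 0xbc0001780002fa636) b53512 (.one (nat_lit 50) (nat_lit 104) (nat_lit 83) (nat_lit 0xbc0001780002fb45e)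 b53523 (.tok (nat_lit 53) (nat_lit 0xbc0001780002fbdf9) (.hit (nat_lit 105) (nat_lit 84) (nat_lit 0xbc0001780002fb7e4) b53524 (.hit (nat_lit 106) (nat_lit 85) (nat_lit 0xbc0001780002fbdf9) b53525 (.nil))) (.tok (nat_lit 56) (nat_lit 0xbc0001780002fcf40) (.hit (nat_lit 107) (nat_lit 86) (nat_lit 0xbc0001780002fce6b) b53526 (.one (nat_lit 3) (nat_lit 111) (nat_lit 90) (nat_lit 0xbc0001780002fc6df) b53530 (.tok (nat_lit 6) (nat_lit 0xbc0001780002fcf40) (.hit (nat_lit 109) (nat_lit 88) (nat_lit 0xbc0001780002fcf40) b53528 (.hit (nat_lit 110) (nat_lit 89) (nat_lit 0xbc0001780002fbda9) b53529 (.nil))) (.one (nat_lit 9) (nat_lit 108) (nat_lit 87) (nat_lit 0xbc0001780002fc67c) b53527 (.nil))))) (.one (nat_lit 59) (nat_lit 112) (nat_lit 91) (nat_lit 0xbc0001780002fa1be) b53531 (.one (nat_lit 62) (nat_lit 113) (nat_lit 92) (nat_lit 0xbc0001780002fb8ac) b53514 (.tok (nat_lit 65) (nat_lit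 0xbc0001780002fc9f8) (.hit (nat_lit 114) (nat_lit 93) (nat_lit 0xbc0001780002fc9f8) b53515 (.hit (nat_lit 115) (nat_lit 94) (nat_lit 0xbc0001780002fba16) b53516 (.nil))) (.tok (nat_lit 68) (nat_lit 0xbc0001780002fdc12) (.hit (nat_lit 116) (nat_lit 95) (nat_lit 0xbc0001780002fd87d) b53517 (.one (nat_lit 3) (nat_lit 120) (nat_lit 99) (nat_lit 0xbc0001780002fbce2) b53521 (.one (nat_lit 6) (nat_lit 117) (nat_lit 96) (nat_lit 0xbc0001780002fd3e4) b53518 (.tok (nat_lit 9) (nat_lit 0xbc0001780002fdc12) (.hit (nat_lit 118) (nat_lit 97) (nat_lit 0xbc0001780002fdc12) b53519 (.hit (nat_lit 119) (nat_lit 98) (nat_lit 0xbc0001780002fb63f) b53520 (.nil))) (.nil))))) (.one (nat_lit 71) (nat_lit 121) (nat_lit 100) (nat_lit 0xbc0001780002fa1ab) b53522 (.nil)))))))))))))))))) (.tok (nat_lit 40) (nat_lit 0xbc0001780002ff966) (.hit (nat_lit 245) (nat_lit 0) (nat_lit 0xbc0001780002ff966) b53532 (.tok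 (nat_lit 6) (nat_lit 0xbc0001780002ff896) (.hit (nat_lit 246) (nat_lit 7) (nat_lit 0xbc0001780002ff896) b53535 (.hit (nat_lit 247) (nat_lit 15) (nat_lit 0xbc0001780002fec44) b53536 (.nil))) (.tok (nat_lit 9) (nat_lit 0xbc0001780002fe799) (.hit (nat_lit 248) (nat_lit 20) (nat_lit 0xbc0001780002fe799) b53533 (.hit (nat_lit 249) (nat_lit 28) (nat_lit 0xbc0001780002fe17a) b53534 (.nil))) (.nil)))) (.tok (nat_lit 43) (nat_lit 0xbc000178000301930) (.hit (nat_lit 270) (nat_lit 0) (nat_lit 0xbc0001780002ff40e) b53545 (.tok (nat_lit 3) (nat_lit 0xbc000178000301930) (.hit (nat_lit 271) (nat_lit 1) (nat_lit 0xbc0001780002fe58a) b53546 (.one (nat_lit 67) (nat_lit 272) (nat_lit 2) (nat_lit 0xbc000178000301930) b53547 (.nil))) (.tok (nat_lit 6) (nat_lit 0xbc0001780002fffa3) (.hit (nat_lit 273) (nat_lit 7) (nat_lit 0xbc0001780002fe7c6) b53548 (.hit (nat_lit 276) (nat_lit 15) (nat_lit 0xbc0001780002fde9b)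 b53551 (.tok (nat_lit 55) (nat_lit 0xbc0001780002fffa3) (.hit (nat_lit 274) (nat_lit 8) (nat_lit 0xbc0001780002ff7a8) b53549 (.hit (nat_lit 277) (nat_lit 16) (nat_lit 0xbc0001780002ff652) b53552 (.one (nat_lit 6) (nat_lit 275) (nat_lit 9) (nat_lit 0xbc0001780002fffa3) b53550 (.nil)))) (.nil)))) (.nil)))) (.tok (nat_lit 46) (nat_lit 0xbc000178000300d38) (.hit (nat_lit 256) (nat_lit 0) (nat_lit 0xbc0001780002ff7d4) b53537 (.tok (nat_lit 3) (nat_lit 0xbc000178000300506) (.hit (nat_lit 257) (nat_lit 1) (nat_lit 0xbc0001780002fe3d3) b53538 (.one (nat_lit 55) (nat_lit 258) (nat_lit 3) (nat_lit 0xbc000178000300506) b53539 (.nil))) (.tok (nat_lit 9) (nat_lit 0xbc000178000300d38) (.hit (nat_lit 259) (nat_lit 20) (nat_lit 0xbc0001780002ffffc) b53540 (.hit (nat_lit 262) (nat_lit 28) (nat_lit 0xbc0001780002ff487) b53543 (.tok (nat_lit 67) (nat_lit 0xbc000178000300d38) (.hit (nat_lit 260)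 (nat_lit 21) (nat_lit 0xbc00017800030096f) b53541 (.hit (nat_lit 263) (nat_lit 29) (nat_lit 0xbc000178000300b7b) b53544 (.one (nat_lit 9) (nat_lit 261) (nat_lit 22) (nat_lit 0xbc000178000300d38) b53542 (.nil)))) (.nil)))) (.nil)))) (.nil))))
noncomputable def r75_17 : Rw Blk := .tok (nat_lit 3) (nat_lit 0xbc000178000300000) (.hit (nat_lit 61) (nat_lit 0) (nat_lit 0xbc0001780002fed3f) b12933 (.tok (nat_lit 14) (nat_lit 0xbc000178000300000) (.hit (nat_lit 82) (nat_lit 61) (nat_lit 0xbc000178000300000) b12934 (.one (nat_lit 3) (nat_lit 83) (nat_lit 62) (nat_lit 0xbc0001780002fda5e) b12935 (.tok (nat_lit 6) (nat_lit 0xbc0001780002ffe02) (.hit (nat_lit 86) (nat_lit 65) (nat_lit 0xbc0001780002ffe02) b12936 (.hit (nat_lit 87) (nat_lit 66) (nat_lit 0xbc0001780002fdd1b) b12937 (.nil))) (.tok (nat_lit 9) (nat_lit 0xbc0001780002fdee9) (.hit (nat_lit 84) (nat_lit 63) (nat_lit 0xbc0001780002fde0e)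 b12938 (.hit (nat_lit 85) (nat_lit 64) (nat_lit 0xbc0001780002fdee9) b12939 (.nil))) (.nil))))) (.one (nat_lit 17) (nat_lit 88) (nat_lit 67) (nat_lit 0xbc0001780002fd600) b12940 (.tok (nat_lit 20) (nat_lit 0xbc0001780002fe24e) (.hit (nat_lit 89) (nat_lit 68) (nat_lit 0xbc0001780002fe24e) b12943 (.hit (nat_lit 90) (nat_lit 69) (nat_lit 0xbc0001780002fd429) b12944 (.nil))) (.tok (nat_lit 23) (nat_lit 0xbc0001780002fdc29) (.hit (nat_lit 91) (nat_lit 70) (nat_lit 0xbc0001780002fdc29) b12941 (.hit (nat_lit 92) (nat_lit 71) (nat_lit 0xbc0001780002fd409) b12942 (.nil))) (.one (nat_lit 38) (nat_lit 97) (nat_lit 76) (nat_lit 0xbc0001780002fd320) b12945 (.tok (nat_lit 41) (nat_lit 0xbc0001780002fd15b) (.hit (nat_lit 98) (nat_lit 77) (nat_lit 0xbc0001780002fbadf) b12946 (.hit (nat_lit 99) (nat_lit 78) (nat_lit 0xbc0001780002fd15b) b12947 (.nil))) (.tok (nat_lit 44) (nat_lit 0xbc0001780002fcc75)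 (.hit (nat_lit 100) (nat_lit 79) (nat_lit 0xbc0001780002fcb7b) b12950 (.hit (nat_lit 101) (nat_lit 80) (nat_lit 0xbc0001780002fcc75) b12951 (.nil))) (.tok (nat_lit 47) (nat_lit 0xbc0001780002fcb88) (.hit (nat_lit 102) (nat_lit 81) (nat_lit 0xbc0001780002fbef3) b12948 (.hit (nat_lit 103) (nat_lit 82) (nat_lit 0xbc0001780002fcb88) b12949 (.nil))) (.one (nat_lit 50) (nat_lit 104) (nat_lit 83) (nat_lit 0xbc0001780002fda6b) b12961 (.tok (nat_lit 53) (nat_lit 0xbc0001780002fe024) (.hit (nat_lit 105) (nat_lit 84) (nat_lit 0xbc0001780002fe024) b12962 (.hit (nat_lit 106) (nat_lit 85) (nat_lit 0xbc0001780002fd028) b12963 (.nil))) (.tok (nat_lit 56) (nat_lit 0xbc0001780002fff17) (.hit (nat_lit 107) (nat_lit 86) (nat_lit 0xbc0001780002fff17) b12964 (.one (nat_lit 3) (nat_lit 111) (nat_lit 90) (nat_lit 0xbc0001780002fe5aa) b12968 (.tok (nat_lit 6) (nat_lit 0xbc0001780002feda6) (.hit (nat_lit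 109) (nat_lit 88) (nat_lit 0xbc0001780002fe911) b12966 (.hit (nat_lit 110) (nat_lit 89) (nat_lit 0xbc0001780002feda6) b12967 (.nil))) (.one (nat_lit 9) (nat_lit 108) (nat_lit 87) (nat_lit 0xbc0001780002fe8b1) b12965 (.nil))))) (.one (nat_lit 59) (nat_lit 112) (nat_lit 91) (nat_lit 0xbc0001780002fbf33) b12969 (.one (nat_lit 62) (nat_lit 113) (nat_lit 92) (nat_lit 0xbc0001780002fd3a2) b12952 (.tok (nat_lit 65) (nat_lit 0xbc0001780002fd6ed) (.hit (nat_lit 114) (nat_lit 93) (nat_lit 0xbc0001780002fd6ed) b12953 (.hit (nat_lit 115) (nat_lit 94) (nat_lit 0xbc0001780002fd015) b12954 (.nil))) (.tok (nat_lit 68) (nat_lit 0xbc0001780002ff0b0) (.hit (nat_lit 116) (nat_lit 95) (nat_lit 0xbc0001780002ff0b0) b12955 (.one (nat_lit 3) (nat_lit 120) (nat_lit 99) (nat_lit 0xbc0001780002fdebc) b12959 (.one (nat_lit 6) (nat_lit 117) (nat_lit 96) (nat_lit 0xbc0001780002fe1c3) b12956 (.tok (nat_lit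 9) (nat_lit 0xbc0001780002ff0a7) (.hit (nat_lit 118) (nat_lit 97) (nat_lit 0xbc0001780002ff0a7) b12957 (.hit (nat_lit 119) (nat_lit 98) (nat_lit 0xbc0001780002fdef0) b12958 (.nil))) (.nil))))) (.one (nat_lit 71) (nat_lit 121) (nat_lit 100) (nat_lit 0xbc0001780002fbf53) b12960 (.nil)))))))))))))))))) (.nil)
noncomputable def r75_18 : Rw Blk := .tok (nat_lit 3) (nat_lit 0xbc000178000300000) (.hit (nat_lit 61) (nat_lit 0) (nat_lit 0xbc0001780002feaa6) b12970 (.tok (nat_lit 14) (nat_lit 0xbc0001780002fff4f) (.hit (nat_lit 82) (nat_lit 61) (nat_lit 0xbc0001780002ffc17) b12971 (.one (nat_lit 3) (nat_lit 83) (nat_lit 62) (nat_lit 0xbc0001780002feeb2) b12972 (.tok (nat_lit 6) (nat_lit 0xbc0001780002ffdfe) (.hit (nat_lit 86) (nat_lit 65) (nat_lit 0xbc0001780002ffdfe) b12973 (.hit (nat_lit 87) (nat_lit 66) (nat_lit 0xbc0001780002ff83a) b12974 (.nil))) (.tok (nat_lit 9) (nat_lit 0xbc0001780002fff4f)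 (.hit (nat_lit 84) (nat_lit 63) (nat_lit 0xbc0001780002fff4f) b12975 (.hit (nat_lit 85) (nat_lit 64) (nat_lit 0xbc0001780002fe88d) b12976 (.nil))) (.nil))))) (.one (nat_lit 17) (nat_lit 88) (nat_lit 67) (nat_lit 0xbc0001780002fe79e) b12977 (.tok (nat_lit 20) (nat_lit 0xbc0001780002fe0ee) (.hit (nat_lit 89) (nat_lit 68) (nat_lit 0xbc0001780002fe0ee) b12980 (.hit (nat_lit 90) (nat_lit 69) (nat_lit 0xbc0001780002fd9ab) b12979 (.nil))) (.tok (nat_lit 23) (nat_lit 0xbc0001780002fe1f4) (.hit (nat_lit 91) (nat_lit 70) (nat_lit 0xbc0001780002fe1f4) b12978 (.hit (nat_lit 92) (nat_lit 71) (nat_lit 0xbc0001780002fd9ab) b12979 (.nil))) (.one (nat_lit 38) (nat_lit 97) (nat_lit 76) (nat_lit 0xbc0001780002fdad4) b12981 (.tok (nat_lit 41) (nat_lit 0xbc0001780002fe302) (.hit (nat_lit 98) (nat_lit 77) (nat_lit 0xbc0001780002fbfc2) b12982 (.hit (nat_lit 99) (nat_lit 78) (nat_lit 0xbc0001780002fe302)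 b12983 (.nil))) (.tok (nat_lit 44) (nat_lit 0xbc0001780002fdaf4) (.hit (nat_lit 100) (nat_lit 79) (nat_lit 0xbc0001780002fcf25) b12986 (.hit (nat_lit 101) (nat_lit 80) (nat_lit 0xbc0001780002fdaf4) b12987 (.nil))) (.tok (nat_lit 47) (nat_lit 0xbc0001780002fd459) (.hit (nat_lit 102) (nat_lit 81) (nat_lit 0xbc0001780002fc9a3) b12984 (.hit (nat_lit 103) (nat_lit 82) (nat_lit 0xbc0001780002fd459) b12985 (.nil))) (.one (nat_lit 50) (nat_lit 104) (nat_lit 83) (nat_lit 0xbc0001780002fdc9a) b12997 (.tok (nat_lit 53) (nat_lit 0xbc0001780002fede6) (.hit (nat_lit 105) (nat_lit 84) (nat_lit 0xbc0001780002fede6) b12998 (.hit (nat_lit 106) (nat_lit 85) (nat_lit 0xbc0001780002fde04) b12999 (.nil))) (.tok (nat_lit 56) (nat_lit 0xbc000178000300000) (.hit (nat_lit 107) (nat_lit 86) (nat_lit 0xbc0001780002ffc6b) b13000 (.one (nat_lit 3) (nat_lit 111) (nat_lit 90) (nat_lit 0xbc0001780002fe0d0) b13004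 (.tok (nat_lit 6) (nat_lit 0xbc000178000300000) (.hit (nat_lit 109) (nat_lit 88) (nat_lit 0xbc000178000300000) b13002 (.hit (nat_lit 110) (nat_lit 89) (nat_lit 0xbc0001780002fda2d) b13003 (.nil))) (.one (nat_lit 9) (nat_lit 108) (nat_lit 87) (nat_lit 0xbc0001780002ff7d2) b13001 (.nil))))) (.one (nat_lit 59) (nat_lit 112) (nat_lit 91) (nat_lit 0xbc0001780002fc599) b13005 (.one (nat_lit 62) (nat_lit 113) (nat_lit 92) (nat_lit 0xbc0001780002fd84c) b12988 (.tok (nat_lit 65) (nat_lit 0xbc0001780002fe1e7) (.hit (nat_lit 114) (nat_lit 93) (nat_lit 0xbc0001780002fdbd2) b12989 (.hit (nat_lit 115) (nat_lit 94) (nat_lit 0xbc0001780002fe1e7) b12990 (.nil))) (.tok (nat_lit 68) (nat_lit 0xbc0001780002ff32e) (.hit (nat_lit 116) (nat_lit 95) (nat_lit 0xbc0001780002ff259) b12991 (.one (nat_lit 3) (nat_lit 120) (nat_lit 99) (nat_lit 0xbc0001780002feacd) b12995 (.one (nat_lit 6) (nat_lit 117) (nat_lit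 96) (nat_lit 0xbc0001780002fea6a) b12992 (.tok (nat_lit 9) (nat_lit 0xbc0001780002ff32e) (.hit (nat_lit 118) (nat_lit 97) (nat_lit 0xbc0001780002ff32e) b12993 (.hit (nat_lit 119) (nat_lit 98) (nat_lit 0xbc0001780002fe197) b12994 (.nil))) (.nil))))) (.one (nat_lit 71) (nat_lit 121) (nat_lit 100) (nat_lit 0xbc0001780002fc5ac) b12996 (.nil)))))))))))))))))) (.nil)
noncomputable def r76_0 : Rw Blk := .tok (nat_lit 6) (nat_lit 0x300000600000c00001800002fe5775fe36cc0000180000300000) (.hit (nat_lit 81) (nat_lit 0) (nat_lit 0x2fe4b85fd5d4bf98697f5112fe05f5fd46abf7b497fb932fe051) b53555 (.tok (nat_lit 3) (nat_lit 0x2fe8a95fdbe0bfbe497ee5fafca905fad9ebfb4257f42fafe75a) (.hit (nat_lit 82) (nat_lit 1) (nat_lit 0x2fcbb35f88b0bf69c97e2392fb8335f88e4bf21f17e8bb2fcbb3) b53556 (.one (nat_lit 14) (nat_lit 84) (nat_lit 4) (nat_lit 0x2fe8a95fdbe0bfbe497ee5fafc2b75fa1babfb4257f42fafe75a) b53557 (.one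 (nat_lit 56) (nat_lit 86) (nat_lit 6) (nat_lit 0x2fde885fbe9cbf85197eb67afca905fad9ebf80157f1e9afe170) b53558 (.nil)))) (.tok (nat_lit 40) (nat_lit 0x2fe7215fd042bfb9597f1902fccf45fb266bf9e917f40dafe807) (.hit (nat_lit 100) (nat_lit 33) (nat_lit 0x2fe7215fd042bfb9597ee8e2fccf45fb266bf9e917f40dafe807) b53559 (.hit (nat_lit 101) (nat_lit 34) (nat_lit 0x2fe2775fb726bf90d17f1902fc6ba5fa5f2bf95157f1652fe321) b53560 (.nil))) (.tok (nat_lit 43) (nat_lit 0x2fecc7600000bfc0317f5e92fdf935fd7a4c000017fe4eaff026) (.hit (nat_lit 102) (nat_lit 35) (nat_lit 0x2fecc7600000bfc0317f5e92fdf935fd7a4c000017fe4eaff026) b53561 (.hit (nat_lit 103) (nat_lit 36) (nat_lit 0x2fe7225fd476bfbc317f4742fd5fe5fc47abf93657f7a0afe8e6) b53562 (.nil))) (.tok (nat_lit 46) (nat_lit 0x3000005ff54cc00001800002fe5775fe36cbffa6980000300000) (.hit (nat_lit 104) (nat_lit 37) (nat_lit 0x2fe23a5fbc94bfed7d7f8db2fe5775fe36cbf95dd7ff5d2fe881)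 b53563 (.hit (nat_lit 105) (nat_lit 38) (nat_lit 0x3000005ff54cc00001800002fdb8a5fd07abffa6980000300000) b53564 (.nil))) (.nil)))))) (.tok (nat_lit 9) (nat_lit 0x300000600000c000017f8db300000600000bf95dd80000300000) (.hit (nat_lit 157) (nat_lit 0) (nat_lit 0x2fe4b85fd5d4bf98697f51aafded25fd444bf817d7fb932fe051) b53565 (.tok (nat_lit 3) (nat_lit 0x2fe8a95fdbe0bfbe497eb67afed095fb97ebf2a417f42fafe75a) (.hit (nat_lit 158) (nat_lit 1) (nat_lit 0x2fcbb35f88b0bf69c97e2392fc87c5f88e4bee0cd7e8bb2fcbb3) b53566 (.one (nat_lit 14) (nat_lit 160) (nat_lit 4) (nat_lit 0x2fe8a95fdbe0bfbe497e86eafed095fb97ebf0add7f42fafe75a) b53567 (.one (nat_lit 68) (nat_lit 161) (nat_lit 5) (nat_lit 0x2fde885fbe9cbf85197eb67afe0055fad9ebf2a417f1e9afe170) b53568 (.nil)))) (.tok (nat_lit 40) (nat_lit 0x2fe7215fd042bfb9597ec99afe7a45fc640bf33d17f40dafe807) (.hit (nat_lit 176) (nat_lit 33) (nat_lit 0x2fe7215fd042bfb9597ec99afe7a45fba38bf33d17f40dafe807)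 b53569 (.hit (nat_lit 177) (nat_lit 34) (nat_lit 0x2fe2775fb726bf90d17e97cafe5455fc640bf1ae97f1652fe321) b53570 (.nil))) (.tok (nat_lit 43) (nat_lit 0x3000005ff54cc000017f8db2ffe9a600000bf95dd80000300000) (.hit (nat_lit 178) (nat_lit 35) (nat_lit 0x2fe23a5fbc94bfed7d7f8db2fe5775fe36cbf95dd7ff5d2fe881) b53563 (.hit (nat_lit 179) (nat_lit 36) (nat_lit 0x3000005ff54cc000017f41eaffe9a600000bf6e2980000300000) b53571 (.nil))) (.tok (nat_lit 46) (nat_lit 0x2fecc7600000bfc0317f5e93000005fd7a4bf7e4d7fe4eaff026) (.hit (nat_lit 180) (nat_lit 37) (nat_lit 0x2fecc7600000bfc0317f5e93000005fd7a4bf7e4d7fe4eaff026) b53572 (.hit (nat_lit 181) (nat_lit 38) (nat_lit 0x2fe7225fd476bfbc317f11eafe4d95fd1d0bf57f97f7a0afe8e6) b53573 (.nil))) (.nil)))))) (.nil))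
noncomputable def r76_1 : Rw Blk := .tok (nat_lit 3) (nat_lit 0xbc0001780002fe6a4) (.hit (nat_lit 61) (nat_lit 0) (nat_lit 0xbc0001780002fd3e3) b53574 (.tok (nat_lit 14) (nat_lit 0xbc0001780002fe6a4) (.hit (nat_lit 82) (nat_lit 61) (nat_lit 0xbc0001780002fe6a4) b53575 (.one (nat_lit 3) (nat_lit 83) (nat_lit 62) (nat_lit 0xbc0001780002fc102) b53576 (.tok (nat_lit 6) (nat_lit 0xbc0001780002fc58d) (.hit (nat_lit 86) (nat_lit 65) (nat_lit 0xbc0001780002fc4b2) b53579 (.hit (nat_lit 87) (nat_lit 66) (nat_lit 0xbc0001780002fc58d) b53580 (.nil))) (.tok (nat_lit 9) (nat_lit 0xbc0001780002fe4a6) (.hit (nat_lit 84) (nat_lit 63) (nat_lit 0xbc0001780002fe4a6) b53577 (.hit (nat_lit 85) (nat_lit 64) (nat_lit 0xbc0001780002fc3bf) b53578 (.nil))) (.nil))))) (.one (nat_lit 17) (nat_lit 88) (nat_lit 67) (nat_lit 0xbc0001780002fbca4) b53581 (.tok (nat_lit 20) (nat_lit 0xbc0001780002fc2cd) (.hit (nat_lit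 89) (nat_lit 68) (nat_lit 0xbc0001780002fc2cd) b53582 (.hit (nat_lit 90) (nat_lit 69) (nat_lit 0xbc0001780002fbaad) b53583 (.nil))) (.tok (nat_lit 23) (nat_lit 0xbc0001780002fc8f2) (.hit (nat_lit 91) (nat_lit 70) (nat_lit 0xbc0001780002fc8f2) b53584 (.hit (nat_lit 92) (nat_lit 71) (nat_lit 0xbc0001780002fbacd) b53585 (.nil))) (.one (nat_lit 26) (nat_lit 93) (nat_lit 72) (nat_lit 0xbc0001780002fa832) b53586 (.one (nat_lit 29) (nat_lit 94) (nat_lit 73) (nat_lit 0xbc0001780002faabd) b53587 (.one (nat_lit 32) (nat_lit 95) (nat_lit 74) (nat_lit 0xbc0001780002fb3ec) b53588 (.one (nat_lit 35) (nat_lit 96) (nat_lit 75) (nat_lit 0xbc0001780002faede) b53589 (.one (nat_lit 38) (nat_lit 97) (nat_lit 76) (nat_lit 0xbc0001780002fb9c4) b53590 (.tok (nat_lit 41) (nat_lit 0xbc0001780002fb7ff) (.hit (nat_lit 98) (nat_lit 77) (nat_lit 0xbc0001780002fa183) b53591 (.hit (nat_lit 99) (nat_lit 78) (nat_lit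 0xbc0001780002fb7ff) b53592 (.nil))) (.tok (nat_lit 44) (nat_lit 0xbc0001780002fb22c) (.hit (nat_lit 100) (nat_lit 79) (nat_lit 0xbc0001780002fa597) b53593 (.hit (nat_lit 101) (nat_lit 80) (nat_lit 0xbc0001780002fb22c) b53594 (.nil))) (.tok (nat_lit 47) (nat_lit 0xbc0001780002fb319) (.hit (nat_lit 102) (nat_lit 81) (nat_lit 0xbc0001780002fb21f) b53595 (.hit (nat_lit 103) (nat_lit 82) (nat_lit 0xbc0001780002fb319) b53596 (.nil))) (.one (nat_lit 50) (nat_lit 104) (nat_lit 83) (nat_lit 0xbc0001780002fba46) b53597 (.tok (nat_lit 53) (nat_lit 0xbc0001780002fbd91) (.hit (nat_lit 105) (nat_lit 84) (nat_lit 0xbc0001780002fbd91) b53598 (.hit (nat_lit 106) (nat_lit 85) (nat_lit 0xbc0001780002fb6b9) b53599 (.nil))) (.tok (nat_lit 56) (nat_lit 0xbc0001780002fd754) (.hit (nat_lit 107) (nat_lit 86) (nat_lit 0xbc0001780002fd754) b53600 (.one (nat_lit 3) (nat_lit 111) (nat_lit 90) (nat_lit 0xbc0001780002fc560)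 b53604 (.tok (nat_lit 6) (nat_lit 0xbc0001780002fd74b) (.hit (nat_lit 109) (nat_lit 88) (nat_lit 0xbc0001780002fd74b) b53602 (.hit (nat_lit 110) (nat_lit 89) (nat_lit 0xbc0001780002fc594) b53603 (.nil))) (.one (nat_lit 9) (nat_lit 108) (nat_lit 87) (nat_lit 0xbc0001780002fc867) b53601 (.nil))))) (.one (nat_lit 59) (nat_lit 112) (nat_lit 91) (nat_lit 0xbc0001780002fa5f7) b53605 (.nil)))))))))))))))))) (.tok (nat_lit 40) (nat_lit 0xbc000178000303eec) (.hit (nat_lit 245) (nat_lit 0) (nat_lit 0xbc000178000300f36) b53606 (.tok (nat_lit 6) (nat_lit 0xbc000178000303eec) (.hit (nat_lit 246) (nat_lit 7) (nat_lit 0xbc000178000303eec) b53607 (.hit (nat_lit 247) (nat_lit 15) (nat_lit 0xbc0001780002ff7c4) b53608 (.nil))) (.tok (nat_lit 9) (nat_lit 0xbc0001780002ffc1e) (.hit (nat_lit 248) (nat_lit 20) (nat_lit 0xbc0001780002ffc1e) b53609 (.hit (nat_lit 249) (nat_lit 28) (nat_lit 0xbc0001780002fe6f1)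 b53610 (.nil))) (.nil)))) (.tok (nat_lit 43) (nat_lit 0xbc000178000302de5) (.hit (nat_lit 270) (nat_lit 0) (nat_lit 0xbc0001780002fffbc) b53616 (.tok (nat_lit 3) (nat_lit 0xbc000178000302de5) (.hit (nat_lit 271) (nat_lit 1) (nat_lit 0xbc0001780002ff700) b53617 (.one (nat_lit 67) (nat_lit 272) (nat_lit 2) (nat_lit 0xbc000178000302de5) b53618 (.nil))) (.tok (nat_lit 6) (nat_lit 0xbc0001780003016b7) (.hit (nat_lit 273) (nat_lit 7) (nat_lit 0xbc0001780002fe9e0) b53619 (.hit (nat_lit 276) (nat_lit 15) (nat_lit 0xbc0001780002fee87) b53622 (.tok (nat_lit 55) (nat_lit 0xbc0001780003016b7) (.hit (nat_lit 274) (nat_lit 8) (nat_lit 0xbc0001780002ff71a) b53620 (.hit (nat_lit 277) (nat_lit 16) (nat_lit 0xbc0001780003016b7) b53623 (.one (nat_lit 6) (nat_lit 275) (nat_lit 9) (nat_lit 0xbc000178000301342) b53621 (.nil)))) (.nil)))) (.nil)))) (.tok (nat_lit 46) (nat_lit 0xbc000178000300c19) (.hit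 (nat_lit 256) (nat_lit 0) (nat_lit 0xbc000178000300c19) b53611 (.tok (nat_lit 3) (nat_lit 0xbc0001780002fed46) (.hit (nat_lit 257) (nat_lit 1) (nat_lit 0xbc0001780002fd555) b53612 (.one (nat_lit 55) (nat_lit 258) (nat_lit 3) (nat_lit 0xbc0001780002fed46) b53613 (.nil))) (.tok (nat_lit 9) (nat_lit 0xbc0001780002fdd1f) (.hit (nat_lit 259) (nat_lit 20) (nat_lit 0xbc0001780002fdd1f) b53614 (.hit (nat_lit 262) (nat_lit 28) (nat_lit 0xbc0001780002fd7f0) b53615 (.nil))) (.nil)))) (.nil))))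
noncomputable def r76_2 : Rw Blk := .tok (nat_lit 3) (nat_lit 0xbc0001780002fde6e) (.hit (nat_lit 61) (nat_lit 0) (nat_lit 0xbc0001780002fc9c5) b53624 (.tok (nat_lit 14) (nat_lit 0xbc0001780002fde6e) (.hit (nat_lit 82) (nat_lit 61) (nat_lit 0xbc0001780002fdb36) b53625 (.one (nat_lit 3) (nat_lit 83) (nat_lit 62) (nat_lit 0xbc0001780002fcdd1) b53626 (.tok (nat_lit 6) (nat_lit 0xbc0001780002fde6e) (.hit (nat_lit 86) (nat_lit 65) (nat_lit 0xbc0001780002fde6e) b53629 (.hit (nat_lit 87) (nat_lit 66) (nat_lit 0xbc0001780002fc7ac) b53630 (.nil))) (.tok (nat_lit 9) (nat_lit 0xbc0001780002fdd1d) (.hit (nat_lit 84) (nat_lit 63) (nat_lit 0xbc0001780002fdd1d) b53627 (.hit (nat_lit 85) (nat_lit 64) (nat_lit 0xbc0001780002fd759) b53628 (.nil))) (.nil))))) (.one (nat_lit 17) (nat_lit 88) (nat_lit 67) (nat_lit 0xbc0001780002fc6bd) b53631 (.tok (nat_lit 20) (nat_lit 0xbc0001780002fc113) (.hit (nat_lit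 89) (nat_lit 68) (nat_lit 0xbc0001780002fc113) b53632 (.hit (nat_lit 90) (nat_lit 69) (nat_lit 0xbc0001780002fb8ca) b53633 (.nil))) (.tok (nat_lit 23) (nat_lit 0xbc0001780002fc00d) (.hit (nat_lit 91) (nat_lit 70) (nat_lit 0xbc0001780002fc00d) b53634 (.hit (nat_lit 92) (nat_lit 71) (nat_lit 0xbc0001780002fb8ca) b53633 (.nil))) (.one (nat_lit 26) (nat_lit 93) (nat_lit 72) (nat_lit 0xbc0001780002fad52) b53635 (.one (nat_lit 29) (nat_lit 94) (nat_lit 73) (nat_lit 0xbc0001780002fae0e) b53636 (.one (nat_lit 32) (nat_lit 95) (nat_lit 74) (nat_lit 0xbc0001780002fb2fb) b53637 (.one (nat_lit 35) (nat_lit 96) (nat_lit 75) (nat_lit 0xbc0001780002fa943) b53638 (.one (nat_lit 38) (nat_lit 97) (nat_lit 76) (nat_lit 0xbc0001780002fb9f3) b53639 (.tok (nat_lit 41) (nat_lit 0xbc0001780002fc221) (.hit (nat_lit 98) (nat_lit 77) (nat_lit 0xbc0001780002f9ee1) b53640 (.hit (nat_lit 99) (nat_lit 78) (nat_lit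 0xbc0001780002fc221) b53641 (.nil))) (.tok (nat_lit 44) (nat_lit 0xbc0001780002fb378) (.hit (nat_lit 100) (nat_lit 79) (nat_lit 0xbc0001780002fa8c2) b53642 (.hit (nat_lit 101) (nat_lit 80) (nat_lit 0xbc0001780002fb378) b53643 (.nil))) (.tok (nat_lit 47) (nat_lit 0xbc0001780002fba13) (.hit (nat_lit 102) (nat_lit 81) (nat_lit 0xbc0001780002fae44) b53644 (.hit (nat_lit 103) (nat_lit 82) (nat_lit 0xbc0001780002fba13) b53645 (.nil))) (.one (nat_lit 50) (nat_lit 104) (nat_lit 83) (nat_lit 0xbc0001780002fb76b) b53646 (.tok (nat_lit 53) (nat_lit 0xbc0001780002fc106) (.hit (nat_lit 105) (nat_lit 84) (nat_lit 0xbc0001780002fbaf1) b53647 (.hit (nat_lit 106) (nat_lit 85) (nat_lit 0xbc0001780002fc106) b53648 (.nil))) (.tok (nat_lit 56) (nat_lit 0xbc0001780002fd24d) (.hit (nat_lit 107) (nat_lit 86) (nat_lit 0xbc0001780002fd178) b53649 (.one (nat_lit 3) (nat_lit 111) (nat_lit 90) (nat_lit 0xbc0001780002fc9ec)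 b53653 (.tok (nat_lit 6) (nat_lit 0xbc0001780002fd24d) (.hit (nat_lit 109) (nat_lit 88) (nat_lit 0xbc0001780002fd24d) b53651 (.hit (nat_lit 110) (nat_lit 89) (nat_lit 0xbc0001780002fc0b6) b53652 (.nil))) (.one (nat_lit 9) (nat_lit 108) (nat_lit 87) (nat_lit 0xbc0001780002fc989) b53650 (.nil))))) (.one (nat_lit 59) (nat_lit 112) (nat_lit 91) (nat_lit 0xbc0001780002fa4cb) b53654 (.nil)))))))))))))))))) (.tok (nat_lit 40) (nat_lit 0xbc0001780002ffc73) (.hit (nat_lit 245) (nat_lit 0) (nat_lit 0xbc0001780002ffc73) b53655 (.tok (nat_lit 6) (nat_lit 0xbc0001780002ffba3) (.hit (nat_lit 246) (nat_lit 7) (nat_lit 0xbc0001780002ffba3) b53656 (.hit (nat_lit 247) (nat_lit 15) (nat_lit 0xbc0001780002fef51) b53657 (.nil))) (.tok (nat_lit 9) (nat_lit 0xbc0001780002feaa6) (.hit (nat_lit 248) (nat_lit 20) (nat_lit 0xbc0001780002feaa6) b53658 (.hit (nat_lit 249) (nat_lit 28) (nat_lit 0xbc0001780002fe487)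 b53659 (.nil))) (.nil)))) (.tok (nat_lit 43) (nat_lit 0xbc000178000301c3d) (.hit (nat_lit 270) (nat_lit 0) (nat_lit 0xbc0001780002ff71b) b53665 (.tok (nat_lit 3) (nat_lit 0xbc000178000301c3d) (.hit (nat_lit 271) (nat_lit 1) (nat_lit 0xbc0001780002fe897) b53666 (.one (nat_lit 67) (nat_lit 272) (nat_lit 2) (nat_lit 0xbc000178000301c3d) b53667 (.nil))) (.tok (nat_lit 6) (nat_lit 0xbc0001780003002b0) (.hit (nat_lit 273) (nat_lit 7) (nat_lit 0xbc0001780002fead3) b53668 (.hit (nat_lit 276) (nat_lit 15) (nat_lit 0xbc0001780002fe1a8) b53671 (.tok (nat_lit 55) (nat_lit 0xbc0001780003002b0) (.hit (nat_lit 274) (nat_lit 8) (nat_lit 0xbc0001780002ffab5) b53669 (.hit (nat_lit 277) (nat_lit 16) (nat_lit 0xbc0001780002ff95f) b53672 (.one (nat_lit 6) (nat_lit 275) (nat_lit 9) (nat_lit 0xbc0001780003002b0) b53670 (.nil)))) (.nil)))) (.nil)))) (.tok (nat_lit 46) (nat_lit 0xbc000178000300813) (.hit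 (nat_lit 256) (nat_lit 0) (nat_lit 0xbc0001780002ffae1) b53660 (.tok (nat_lit 3) (nat_lit 0xbc000178000300813) (.hit (nat_lit 257) (nat_lit 1) (nat_lit 0xbc0001780002fe6e0) b53661 (.one (nat_lit 55) (nat_lit 258) (nat_lit 3) (nat_lit 0xbc000178000300813) b53662 (.nil))) (.tok (nat_lit 9) (nat_lit 0xbc000178000300309) (.hit (nat_lit 259) (nat_lit 20) (nat_lit 0xbc000178000300309) b53663 (.hit (nat_lit 262) (nat_lit 28) (nat_lit 0xbc0001780002ff794) b53664 (.nil))) (.nil)))) (.nil))))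
noncomputable def r76_3 : Rw Blk := .tok (nat_lit 3) (nat_lit 0xbc0001780002fe6a4) (.hit (nat_lit 61) (nat_lit 0) (nat_lit 0xbc0001780002fd3e3) b53574 (.tok (nat_lit 14) (nat_lit 0xbc0001780002fe6a4) (.hit (nat_lit 82) (nat_lit 61) (nat_lit 0xbc0001780002fe6a4) b53575 (.one (nat_lit 3) (nat_lit 83) (nat_lit 62) (nat_lit 0xbc0001780002fc102) b53576 (.tok (nat_lit 6) (nat_lit 0xbc0001780002fe4a6) (.hit (nat_lit 86) (nat_lit 65) (nat_lit 0xbc0001780002fe4a6) b53577 (.hit (nat_lit 87) (nat_lit 66) (nat_lit 0xbc0001780002fc3bf) b53578 (.nil))) (.tok (nat_lit 9) (nat_lit 0xbc0001780002fc58d) (.hit (nat_lit 84) (nat_lit 63) (nat_lit 0xbc0001780002fc4b2) b53579 (.hit (nat_lit 85) (nat_lit 64) (nat_lit 0xbc0001780002fc58d) b53580 (.nil))) (.nil))))) (.one (nat_lit 17) (nat_lit 88) (nat_lit 67) (nat_lit 0xbc0001780002fbca4) b53581 (.tok (nat_lit 20) (nat_lit 0xbc0001780002fc8f2) (.hit (nat_lit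 89) (nat_lit 68) (nat_lit 0xbc0001780002fc8f2) b53584 (.hit (nat_lit 90) (nat_lit 69) (nat_lit 0xbc0001780002fbacd) b53585 (.nil))) (.tok (nat_lit 23) (nat_lit 0xbc0001780002fc2cd) (.hit (nat_lit 91) (nat_lit 70) (nat_lit 0xbc0001780002fc2cd) b53582 (.hit (nat_lit 92) (nat_lit 71) (nat_lit 0xbc0001780002fbaad) b53583 (.nil))) (.one (nat_lit 26) (nat_lit 93) (nat_lit 72) (nat_lit 0xbc0001780002fa832) b53586 (.one (nat_lit 29) (nat_lit 94) (nat_lit 73) (nat_lit 0xbc0001780002faabd) b53587 (.one (nat_lit 32) (nat_lit 95) (nat_lit 74) (nat_lit 0xbc0001780002faede) b53589 (.one (nat_lit 35) (nat_lit 96) (nat_lit 75) (nat_lit 0xbc0001780002fb3ec) b53588 (.one (nat_lit 38) (nat_lit 97) (nat_lit 76) (nat_lit 0xbc0001780002fb9c4) b53590 (.tok (nat_lit 41) (nat_lit 0xbc0001780002fb7ff) (.hit (nat_lit 98) (nat_lit 77) (nat_lit 0xbc0001780002fa183) b53591 (.hit (nat_lit 99) (nat_lit 78) (nat_lit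 0xbc0001780002fb7ff) b53592 (.nil))) (.tok (nat_lit 44) (nat_lit 0xbc0001780002fb319) (.hit (nat_lit 100) (nat_lit 79) (nat_lit 0xbc0001780002fb21f) b53595 (.hit (nat_lit 101) (nat_lit 80) (nat_lit 0xbc0001780002fb319) b53596 (.nil))) (.tok (nat_lit 47) (nat_lit 0xbc0001780002fb22c) (.hit (nat_lit 102) (nat_lit 81) (nat_lit 0xbc0001780002fa597) b53593 (.hit (nat_lit 103) (nat_lit 82) (nat_lit 0xbc0001780002fb22c) b53594 (.nil))) (.one (nat_lit 62) (nat_lit 113) (nat_lit 92) (nat_lit 0xbc0001780002fba46) b53597 (.tok (nat_lit 65) (nat_lit 0xbc0001780002fbd91) (.hit (nat_lit 114) (nat_lit 93) (nat_lit 0xbc0001780002fbd91) b53598 (.hit (nat_lit 115) (nat_lit 94) (nat_lit 0xbc0001780002fb6b9) b53599 (.nil))) (.tok (nat_lit 68) (nat_lit 0xbc0001780002fd754) (.hit (nat_lit 116) (nat_lit 95) (nat_lit 0xbc0001780002fd754) b53600 (.one (nat_lit 3) (nat_lit 120) (nat_lit 99) (nat_lit 0xbc0001780002fc560)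 b53604 (.one (nat_lit 6) (nat_lit 117) (nat_lit 96) (nat_lit 0xbc0001780002fc867) b53601 (.tok (nat_lit 9) (nat_lit 0xbc0001780002fd74b) (.hit (nat_lit 118) (nat_lit 97) (nat_lit 0xbc0001780002fd74b) b53602 (.hit (nat_lit 119) (nat_lit 98) (nat_lit 0xbc0001780002fc594) b53603 (.nil))) (.nil))))) (.one (nat_lit 71) (nat_lit 121) (nat_lit 100) (nat_lit 0xbc0001780002fa5f7) b53605 (.nil)))))))))))))))))) (.tok (nat_lit 40) (nat_lit 0xbc000178000303eec) (.hit (nat_lit 221) (nat_lit 0) (nat_lit 0xbc000178000300f36) b53606 (.tok (nat_lit 6) (nat_lit 0xbc0001780002ffc1e) (.hit (nat_lit 222) (nat_lit 7) (nat_lit 0xbc0001780002ffc1e) b53609 (.hit (nat_lit 223) (nat_lit 15) (nat_lit 0xbc0001780002fe6f1) b53610 (.nil))) (.tok (nat_lit 9) (nat_lit 0xbc000178000303eec) (.hit (nat_lit 224) (nat_lit 20) (nat_lit 0xbc000178000303eec) b53607 (.hit (nat_lit 225) (nat_lit 28) (nat_lit 0xbc0001780002ff7c4)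 b53608 (.nil))) (.nil)))) (.tok (nat_lit 43) (nat_lit 0xbc000178000300c19) (.hit (nat_lit 232) (nat_lit 0) (nat_lit 0xbc000178000300c19) b53611 (.tok (nat_lit 3) (nat_lit 0xbc0001780002fed46) (.hit (nat_lit 233) (nat_lit 1) (nat_lit 0xbc0001780002fd555) b53612 (.one (nat_lit 67) (nat_lit 234) (nat_lit 2) (nat_lit 0xbc0001780002fed46) b53613 (.nil))) (.tok (nat_lit 6) (nat_lit 0xbc0001780002fdd1f) (.hit (nat_lit 235) (nat_lit 7) (nat_lit 0xbc0001780002fdd1f) b53614 (.hit (nat_lit 238) (nat_lit 15) (nat_lit 0xbc0001780002fd7f0) b53615 (.nil))) (.nil)))) (.tok (nat_lit 46) (nat_lit 0xbc000178000302de5) (.hit (nat_lit 246) (nat_lit 0) (nat_lit 0xbc0001780002fffbc) b53616 (.tok (nat_lit 3) (nat_lit 0xbc000178000302de5) (.hit (nat_lit 247) (nat_lit 1) (nat_lit 0xbc0001780002ff700) b53617 (.one (nat_lit 55) (nat_lit 248) (nat_lit 3) (nat_lit 0xbc000178000302de5) b53618 (.nil))) (.tok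 (nat_lit 9) (nat_lit 0xbc0001780003016b7) (.hit (nat_lit 249) (nat_lit 20) (nat_lit 0xbc0001780002fe9e0) b53619 (.hit (nat_lit 252) (nat_lit 28) (nat_lit 0xbc0001780002fee87) b53622 (.tok (nat_lit 67) (nat_lit 0xbc0001780003016b7) (.hit (nat_lit 250) (nat_lit 21) (nat_lit 0xbc0001780002ff71a) b53620 (.hit (nat_lit 253) (nat_lit 29) (nat_lit 0xbc0001780003016b7) b53623 (.one (nat_lit 9) (nat_lit 251) (nat_lit 22) (nat_lit 0xbc000178000301342) b53621 (.nil)))) (.nil)))) (.nil)))) (.nil))))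
noncomputable def r76_4 : Rw Blk := .tok (nat_lit 3) (nat_lit 0xbc0001780002fde6e) (.hit (nat_lit 61) (nat_lit 0) (nat_lit 0xbc0001780002fc9c5) b53624 (.tok (nat_lit 14) (nat_lit 0xbc0001780002fde6e) (.hit (nat_lit 82) (nat_lit 61) (nat_lit 0xbc0001780002fdb36) b53625 (.one (nat_lit 3) (nat_lit 83) (nat_lit 62) (nat_lit 0xbc0001780002fcdd1) b53626 (.tok (nat_lit 6) (nat_lit 0xbc0001780002fdd1d) (.hit (nat_lit 86) (nat_lit 65) (nat_lit 0xbc0001780002fdd1d) b53627 (.hit (nat_lit 87) (nat_lit 66) (nat_lit 0xbc0001780002fd759) b53628 (.nil))) (.tok (nat_lit 9) (nat_lit 0xbc0001780002fde6e) (.hit (nat_lit 84) (nat_lit 63) (nat_lit 0xbc0001780002fde6e) b53629 (.hit (nat_lit 85) (nat_lit 64) (nat_lit 0xbc0001780002fc7ac) b53630 (.nil))) (.nil))))) (.one (nat_lit 17) (nat_lit 88) (nat_lit 67) (nat_lit 0xbc0001780002fc6bd) b53631 (.tok (nat_lit 20) (nat_lit 0xbc0001780002fc00d) (.hit (nat_lit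 89) (nat_lit 68) (nat_lit 0xbc0001780002fc00d) b53634 (.hit (nat_lit 90) (nat_lit 69) (nat_lit 0xbc0001780002fb8ca) b53633 (.nil))) (.tok (nat_lit 23) (nat_lit 0xbc0001780002fc113) (.hit (nat_lit 91) (nat_lit 70) (nat_lit 0xbc0001780002fc113) b53632 (.hit (nat_lit 92) (nat_lit 71) (nat_lit 0xbc0001780002fb8ca) b53633 (.nil))) (.one (nat_lit 26) (nat_lit 93) (nat_lit 72) (nat_lit 0xbc0001780002fad52) b53635 (.one (nat_lit 29) (nat_lit 94) (nat_lit 73) (nat_lit 0xbc0001780002fae0e) b53636 (.one (nat_lit 32) (nat_lit 95) (nat_lit 74) (nat_lit 0xbc0001780002fa943) b53638 (.one (nat_lit 35) (nat_lit 96) (nat_lit 75) (nat_lit 0xbc0001780002fb2fb) b53637 (.one (nat_lit 38) (nat_lit 97) (nat_lit 76) (nat_lit 0xbc0001780002fb9f3) b53639 (.tok (nat_lit 41) (nat_lit 0xbc0001780002fc221) (.hit (nat_lit 98) (nat_lit 77) (nat_lit 0xbc0001780002f9ee1) b53640 (.hit (nat_lit 99) (nat_lit 78) (nat_lit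 0xbc0001780002fc221) b53641 (.nil))) (.tok (nat_lit 44) (nat_lit 0xbc0001780002fba13) (.hit (nat_lit 100) (nat_lit 79) (nat_lit 0xbc0001780002fae44) b53644 (.hit (nat_lit 101) (nat_lit 80) (nat_lit 0xbc0001780002fba13) b53645 (.nil))) (.tok (nat_lit 47) (nat_lit 0xbc0001780002fb378) (.hit (nat_lit 102) (nat_lit 81) (nat_lit 0xbc0001780002fa8c2) b53642 (.hit (nat_lit 103) (nat_lit 82) (nat_lit 0xbc0001780002fb378) b53643 (.nil))) (.one (nat_lit 62) (nat_lit 113) (nat_lit 92) (nat_lit 0xbc0001780002fb76b) b53646 (.tok (nat_lit 65) (nat_lit 0xbc0001780002fc106) (.hit (nat_lit 114) (nat_lit 93) (nat_lit 0xbc0001780002fbaf1) b53647 (.hit (nat_lit 115) (nat_lit 94) (nat_lit 0xbc0001780002fc106) b53648 (.nil))) (.tok (nat_lit 68) (nat_lit 0xbc0001780002fd24d) (.hit (nat_lit 116) (nat_lit 95) (nat_lit 0xbc0001780002fd178) b53649 (.one (nat_lit 3) (nat_lit 120) (nat_lit 99) (nat_lit 0xbc0001780002fc9ec)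 b53653 (.one (nat_lit 6) (nat_lit 117) (nat_lit 96) (nat_lit 0xbc0001780002fc989) b53650 (.tok (nat_lit 9) (nat_lit 0xbc0001780002fd24d) (.hit (nat_lit 118) (nat_lit 97) (nat_lit 0xbc0001780002fd24d) b53651 (.hit (nat_lit 119) (nat_lit 98) (nat_lit 0xbc0001780002fc0b6) b53652 (.nil))) (.nil))))) (.one (nat_lit 71) (nat_lit 121) (nat_lit 100) (nat_lit 0xbc0001780002fa4cb) b53654 (.nil)))))))))))))))))) (.tok (nat_lit 40) (nat_lit 0xbc0001780002ffc73) (.hit (nat_lit 221) (nat_lit 0) (nat_lit 0xbc0001780002ffc73) b53655 (.tok (nat_lit 6) (nat_lit 0xbc0001780002feaa6) (.hit (nat_lit 222) (nat_lit 7) (nat_lit 0xbc0001780002feaa6) b53658 (.hit (nat_lit 223) (nat_lit 15) (nat_lit 0xbc0001780002fe487) b53659 (.nil))) (.tok (nat_lit 9) (nat_lit 0xbc0001780002ffba3) (.hit (nat_lit 224) (nat_lit 20) (nat_lit 0xbc0001780002ffba3) b53656 (.hit (nat_lit 225) (nat_lit 28) (nat_lit 0xbc0001780002fef51)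 b53657 (.nil))) (.nil)))) (.tok (nat_lit 43) (nat_lit 0xbc000178000300813) (.hit (nat_lit 232) (nat_lit 0) (nat_lit 0xbc0001780002ffae1) b53660 (.tok (nat_lit 3) (nat_lit 0xbc000178000300813) (.hit (nat_lit 233) (nat_lit 1) (nat_lit 0xbc0001780002fe6e0) b53661 (.one (nat_lit 67) (nat_lit 234) (nat_lit 2) (nat_lit 0xbc000178000300813) b53662 (.nil))) (.tok (nat_lit 6) (nat_lit 0xbc000178000300309) (.hit (nat_lit 235) (nat_lit 7) (nat_lit 0xbc000178000300309) b53663 (.hit (nat_lit 238) (nat_lit 15) (nat_lit 0xbc0001780002ff794) b53664 (.nil))) (.nil)))) (.tok (nat_lit 46) (nat_lit 0xbc000178000301c3d) (.hit (nat_lit 246) (nat_lit 0) (nat_lit 0xbc0001780002ff71b) b53665 (.tok (nat_lit 3) (nat_lit 0xbc000178000301c3d) (.hit (nat_lit 247) (nat_lit 1) (nat_lit 0xbc0001780002fe897) b53666 (.one (nat_lit 55) (nat_lit 248) (nat_lit 3) (nat_lit 0xbc000178000301c3d) b53667 (.nil))) (.tok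 (nat_lit 9) (nat_lit 0xbc0001780003002b0) (.hit (nat_lit 249) (nat_lit 20) (nat_lit 0xbc0001780002fead3) b53668 (.hit (nat_lit 252) (nat_lit 28) (nat_lit 0xbc0001780002fe1a8) b53671 (.tok (nat_lit 67) (nat_lit 0xbc0001780003002b0) (.hit (nat_lit 250) (nat_lit 21) (nat_lit 0xbc0001780002ffab5) b53669 (.hit (nat_lit 253) (nat_lit 29) (nat_lit 0xbc0001780002ff95f) b53672 (.one (nat_lit 9) (nat_lit 251) (nat_lit 22) (nat_lit 0xbc0001780003002b0) b53670 (.nil)))) (.nil)))) (.nil)))) (.nil))))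
noncomputable def r76_5 : Rw Blk := .tok (nat_lit 3) (nat_lit 0x17edb42fe1e75fe23ebf81157f53a2fd9a65fd4ecbf89bd7f59aafe6f05fd456bfb9517f82daff32e) (.hit (nat_lit 0) (nat_lit 0) (nat_lit 0x17db5f2fc6365f9d40bf1b317e1cbafc0da5f8c94bf27117ea8fafc2a95f8cd0bf50117ea672fd2dc) b53673 (.tok (nat_lit 9) (nat_lit 0x17dbd22fc3475fd2dabf39197e50bafc7d95f8b18bf2e1d7e90fafc5765f98d4bf8f697f245afe4d8) (.hit (nat_lit 10) (nat_lit 20) (nat_lit 0x17d1a5afaeee5fa77ebee7b57dadf2fb3805f6266bedcb97dee32fb11d5f7022bef4457dfb22fcfc3) b53674 (.hit (nat_lit 15) (nat_lit 28) (nat_lit 0x17d06e2fac7f5f9092beddf97d9a7afb1115f5d88bed2fd7ddabafaeae5f6b44bf3cd57e7faafd02f) b53679 (.tok (nat_lit 14) (nat_lit 0x17db23afc1ea5fcb56bf33a57e45d2fc67c5f885ebf28a97e8612fc4195f961abf672d7ed3aafdd55) (.hit (nat_lit 11) (nat_lit 24) (nat_lit 0x17d4f3afb58a5fb79cbf02257de2d2fba1c5f6f9ebef7297e2312fb7b95f7d5abf0eb57e3002fd4af)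 b53675 (.hit (nat_lit 16) (nat_lit 30) (nat_lit 0x17d4752fb48d5fa2fabefe317ddaeafb91f5f6da4bef3357e1b2afb6bc5f7b60bf672d7ed3aafd998) b53680 (.one (nat_lit 6) (nat_lit 12) (nat_lit 25) (nat_lit 0x17db23afc1ea5fcb56bf33a57e45d2fc67c5f885ebf28a97e8612fc4195f961abf40357e9302fdd55) b53676 (.nil)))) (.one (nat_lit 56) (nat_lit 17) (nat_lit 31) (nat_lit 0x17db04afc1ac5fbbf6bf32ad7e43e2fc63e5f87e2bf27b17e8422fc3db5f959ebf8f697f245afe2b7) b53681 (.tok (nat_lit 68) (nat_lit 0x17dbd22fc3475fd2dabf39197e50bafc7d95f8b18bf2e1d7e90fafc5765f98d4bf53617eac4afe4d8) (.hit (nat_lit 13) (nat_lit 26) (nat_lit 0x17d7be2fbb1f5fbc1ebf18797e0f7afbfb15f7ac8bf0d7d7e4fbafbd4e5f8884bf25b57e5caafdb7a) b53677 (.hit (nat_lit 18) (nat_lit 32) (nat_lit 0x17d5b02fb7035fa626bf08097dee9afbb955f7290befd0d7e2edafb9325f804cbf53617eac4afd3b5) b53682 (.one (nat_lit 9) (nat_lit 14) (nat_lit 27) (nat_lit 0x17dbd22fc3475fd2dabf39197e50bafc7d95f8b18bf2e1d7e90fafc5765f98d4bf45a97e9deafe4d8)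 b53678 (.nil)))) (.nil)))))) (.tok (nat_lit 64) (nat_lit 0x17d66d2fb87d5fb3c8bf0df17dfa6afbd0f5f7584bf02f57e3aaafbaac5f8340bf6ba97ee51afd9c7) (.hit (nat_lit 30) (nat_lit 50) (nat_lit 0x17d4d82fb5535f994abf01497de11afb9e55f6f30bef64d7e215afb7825f7cecbf552d7ed17afd879) b53683 (.hit (nat_lit 31) (nat_lit 51) (nat_lit 0x17d66d2fb87d5fb3c8bf0df17dfa6afbd0f5f7584bf02f57e3aaafbaac5f8340bf6ba97ee51afd9c7) b53684 (.nil))) (.tok (nat_lit 67) (nat_lit 0x17edb42fe1e75fe23ebf81157f53a2fd9a65fd4ecbf89bd7f59aafe6f05fd456bfb9517f82daff32e) (.hit (nat_lit 32) (nat_lit 52) (nat_lit 0x17edb42fded45fde8ebf68817f53a2fd43e5fd4ecbf89bd7f59aafe6f05fd456bfb9517f82daff0fb) b53685 (.tok (nat_lit 3) (nat_lit 0x17debcafc91c5fe23ebf506d7e7f62fcdae5f96c2bf45717ebfa2fcb4b5fa47ebf5cfd7ecc92ff32e) (.hit (nat_lit 38) (nat_lit 58) (nat_lit 0x17dae92fc1755fc956bf31d17e422afc6075f8774bf26d57e826afc3a45f9530bf3e617e8f5afe46e)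 b53691 (.one (nat_lit 55) (nat_lit 39) (nat_lit 59) (nat_lit 0x17debcafc91c5fe23ebf506d7e7f62fcdae5f96c2bf45717ebfa2fcb4b5fa47ebf5cfd7ecc92ff32e) b53692 (.nil))) (.tok (nat_lit 9) (nat_lit 0x17e75a2fe1e75fd36abf81157ef032fd9a65fa4c4bf61757ef7aafd24c5fb280bf79017f049afeaed) (.hit (nat_lit 33) (nat_lit 53) (nat_lit 0x17e047afd1f85fc308bf64a97ebcaafd3425f91c2bf3b717eaba2fc8cb5f9f7ebf52fd7eb892fe1aa) b53686 (.hit (nat_lit 36) (nat_lit 56) (nat_lit 0x17db15afc1ce5fc0f0bf33357e44f2fc6605f8826bf28397e8532fc3fd5f95e2bf3fc57e9222fe27f) b53689 (.tok (nat_lit 67) (nat_lit 0x17e75a2fe1e75fd36abf81157ef032fd9a65fa4c4bf61757ef7aafd24c5fb280bf79017f049afeaed) (.hit (nat_lit 34) (nat_lit 54) (nat_lit 0x17e75a2fe1e75fc4f4bf81157ef032fd9a65fa4c4bf61757ef7aafd24c5fb280bf79017f049afe3a9) b53687 (.hit (nat_lit 37) (nat_lit 57) (nat_lit 0x17e05aafcc585fd36abf5d5d7e9942fd0ea5f9d3abf52617ed982fce875faaf6bf69ed7ee672feaed)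 b53690 (.one (nat_lit 9) (nat_lit 35) (nat_lit 55) (nat_lit 0x17df8f2fcac15fc326bf57017e8c8afcf535f9a0cbf4c057ecccafccf05fa7c8bf63917ed9bafe1ec) b53688 (.nil)))) (.nil)))) (.nil)))) (.one (nat_lit 70) (nat_lit 40) (nat_lit 60) (nat_lit 0x17da852fc0ad5fc140bf2eb17e3beafc53f5f85e4bf23b57e7c2afc2dc5f93a0bf84817f2942fe50a) b53693 (.nil)))))) (.tok (nat_lit 6) (nat_lit 0x180000300000600000c0000180000300000600394c0000180000300000600000c0000180000300000) (.hit (nat_lit 81) (nat_lit 0) (nat_lit 0x17e581afe0c85fb4fcbf5d4d7ea502fd15f5fb35abf660d7f27cafd9ea5fb62cbf7c597efa82fdce7) b53694 (.tok (nat_lit 6) (nat_lit 0x17f2b4affc2c5ff916bfa1c17f4932fe6e55fbe38bfb8fd7fa852feae55fcd88bfadbd7f80e2ff0d4) (.hit (nat_lit 87) (nat_lit 7) (nat_lit 0x17e09dafd4cf5fa51cbf19597e8542fc5045f9038bf40257ea47afcc945f92debf4d097e8472fd1d2) b53695 (.hit (nat_lit 95) (nat_lit 15) (nat_lit 0x17d9cfafba4f5f9f30beb1897e01e2fa5925f6462bf06317e4d8afcf955f9700bf44e57e6c72fce9b)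 b53698 (.tok (nat_lit 14) (nat_lit 0x17f2b4affc2c5ff916bfa1c17f4932fe6e55fbe38bfb8fd7fa852feae55fcd88bfadbd7f80e2ff0d4) (.hit (nat_lit 91) (nat_lit 11) (nat_lit 0x17f10aaff7e05ff672bf9b7d7f17f2fe3125fb278bfb2517f7afafe5805fc6d8bfa0c57f528afea9b) b53696 (.hit (nat_lit 97) (nat_lit 17) (nat_lit 0x17e80dafd5f55fdf48bf23f17ee28afc20e5f9972bf64897f2adafe32a5fc218bfa4657f1672fdfc1) b53699 (.one (nat_lit 9) (nat_lit 92) (nat_lit 12) (nat_lit 0x17f2b4affc2c5ff916bfa1c17f4932fe6e55fbe38bfb8fd7fa852feae55fcd88bfadbd7f80e2ff0d4) b53697 (.nil)))) (.one (nat_lit 68) (nat_lit 98) (nat_lit 18) (nat_lit 0x17e41b2fcfb95fc240bf07f17eac7afbb0e5f8b72bf48897ecfd2fdcf15fbfeabf7fe97eeb1afdbcd) b53700 (.nil))))) (.tok (nat_lit 52) (nat_lit 0x17e6ceafe3985fc1f2bf26097ee71afc2b05f9a9abf6b217fc722ff0c55fe4a6bfc25d7f8192feada) (.hit (nat_lit 106) (nat_lit 39) (nat_lit 0x17e5b52fe3985fbfb6bf26097ee71afc2b05f9a9abf66f97fc722ff0c55fe4a6bfc25d7f8192fe92c)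 b53701 (.hit (nat_lit 107) (nat_lit 40) (nat_lit 0x17e6ceafdd045fc1f2bf1ae57ebfaafbf915f9648bf6b217f9a9afd7be5fb174bf75fd7ed662feada) b53702 (.nil))) (.tok (nat_lit 55) (nat_lit 0x180000300000600000c0000180000300000600394c0000180000300000600000c0000180000300000) (.hit (nat_lit 108) (nat_lit 41) (nat_lit 0x17f8023000005fedc6bffec57ff40aff4a3600394bff655800002ffc185ffb90bfe8b17fddb2ff715) b53703 (.tok (nat_lit 3) (nat_lit 0x1800002ffe05600000c00001800003000005fdc90c000017ff752ffc3d5ff36cc00001800002ffe43) (.hit (nat_lit 114) (nat_lit 47) (nat_lit 0x17f3222fef8b5fe862bfd6197ff00aff5875fc186bfb4e57f9c52fee185fd416bfbc557f744afecf2) b53706 (.one (nat_lit 67) (nat_lit 115) (nat_lit 48) (nat_lit 0x1800002ffe05600000c00001800003000005fdc90c000017ff752ffc3d5ff36cc00001800002ffe43) b53707 (.nil))) (.tok (nat_lit 6) (nat_lit 0x17f1f62fed305ff94ebf6f257f87c2fdc9e5fbf44bfb02d7fb32b00000600000bfee097fffc300000)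 (.hit (nat_lit 109) (nat_lit 42) (nat_lit 0x17f1f62fe6055fd670bf6f257f87c2fdc9e5fbf44bfb02d7f954300000600000bfee097fffc2fed9f) b53704 (.hit (nat_lit 112) (nat_lit 45) (nat_lit 0x17eba62fed305ff94ebf50cd7f0ceafcdc65fa9a6bf91dd7fb32afde815fc1babf8bc57f166300000) b53705 (.nil))) (.nil)))) (.one (nat_lit 58) (nat_lit 116) (nat_lit 49) (nat_lit 0x17eb1f2fe1a65fe3eabf3e717f121afc8835fa82cbf8ee97fa4f2ffbe35ff866bfebd17fc542fecb9) b53708 (.nil)))))) (.nil))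
noncomputable def r76_6 : Rw Blk := .tok (nat_lit 9) (nat_lit 0x5e0000bc00017f9b93001ad) (.hit (nat_lit 0) (nat_lit 0) (nat_lit 0x5e0000bc00017ee012fea6b) b53709 (.tok (nat_lit 14) (nat_lit 0x5e0000bc00017f3e4aff0d6) (.hit (nat_lit 11) (nat_lit 61) (nat_lit 0x5e0000bc00017f3e4afee33) b53710 (.one (nat_lit 3) (nat_lit 12) (nat_lit 62) (nat_lit 0x5e0000bc00017f31a2fe49b) b53711 (.tok (nat_lit 6) (nat_lit 0x5e0000bc00017f2252ff0d6) (.hit (nat_lit 15) (nat_lit 65) (nat_lit 0x5e0000bc00017f2252ff0d6) b53714 (.hit (nat_lit 16) (nat_lit 66) (nat_lit 0x5e0000bc00017ef67afed65) b53715 (.nil))) (.tok (nat_lit 9) (nat_lit 0x5e0000bc00017eeb42fed6f) (.hit (nat_lit 13) (nat_lit 63) (nat_lit 0x5e0000bc00017e9972fed6f) b53712 (.hit (nat_lit 14) (nat_lit 64) (nat_lit 0x5e0000bc00017eeb42febb1) b53713 (.nil))) (.nil))))) (.one (nat_lit 17) (nat_lit 17) (nat_lit 67) (nat_lit 0x5e0000bc00017ee172fda0a)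 b53716 (.tok (nat_lit 20) (nat_lit 0x5e0000bc00017ed752fd976) (.hit (nat_lit 18) (nat_lit 68) (nat_lit 0x5e0000bc00017df9aafd976) b53717 (.hit (nat_lit 19) (nat_lit 69) (nat_lit 0x5e0000bc00017ed752fd876) b53718 (.nil))) (.tok (nat_lit 23) (nat_lit 0x5e0000bc00017f89faff25f) (.hit (nat_lit 20) (nat_lit 70) (nat_lit 0x5e0000bc00017f89faff25f) b53719 (.hit (nat_lit 21) (nat_lit 71) (nat_lit 0x5e0000bc00017eeceafd876) b53720 (.nil))) (.one (nat_lit 26) (nat_lit 22) (nat_lit 72) (nat_lit 0x5e0000bc00017e5f62fc606) b53721 (.one (nat_lit 29) (nat_lit 23) (nat_lit 73) (nat_lit 0x5e0000bc00017e5882fc918) b53722 (.one (nat_lit 32) (nat_lit 24) (nat_lit 74) (nat_lit 0x5e0000bc00017ea122fcbf5) b53723 (.one (nat_lit 35) (nat_lit 25) (nat_lit 75) (nat_lit 0x5e0000bc00017e4caafcbf5) b53724 (.one (nat_lit 50) (nat_lit 33) (nat_lit 83) (nat_lit 0x5e0000bc00017e97cafd3b8) b53725 (.tok (nat_lit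 53) (nat_lit 0x5e0000bc00017ed33afdf4a) (.hit (nat_lit 34) (nat_lit 84) (nat_lit 0x5e0000bc00017e7112fdf4a) b53726 (.hit (nat_lit 35) (nat_lit 85) (nat_lit 0x5e0000bc00017ed33afd543) b53727 (.nil))) (.tok (nat_lit 56) (nat_lit 0x5e0000bc00017ededafecec) (.hit (nat_lit 36) (nat_lit 86) (nat_lit 0x5e0000bc00017ededafecec) b53728 (.one (nat_lit 3) (nat_lit 40) (nat_lit 90) (nat_lit 0x5e0000bc00017e149afdcd4) b53732 (.tok (nat_lit 6) (nat_lit 0x5e0000bc00017e69b2fe777) (.hit (nat_lit 38) (nat_lit 88) (nat_lit 0x5e0000bc00017e69b2fe777) b53730 (.hit (nat_lit 39) (nat_lit 89) (nat_lit 0x5e0000bc00017e3f5afe22c) b53731 (.nil))) (.one (nat_lit 9) (nat_lit 37) (nat_lit 87) (nat_lit 0x5e0000bc00017e53f2fe4bf) b53729 (.nil))))) (.one (nat_lit 59) (nat_lit 41) (nat_lit 91) (nat_lit 0x5e0000bc00017e9b1afc81a) b53733 (.one (nat_lit 62) (nat_lit 42) (nat_lit 92) (nat_lit 0x5e0000bc00017ed40afd3b8)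 b53734 (.tok (nat_lit 65) (nat_lit 0x5e0000bc00017edb3afdc48) (.hit (nat_lit 43) (nat_lit 93) (nat_lit 0x5e0000bc00017e11aafdc48) b53735 (.hit (nat_lit 44) (nat_lit 94) (nat_lit 0x5e0000bc00017edb3afd475) b53736 (.nil))) (.tok (nat_lit 68) (nat_lit 0x5e0000bc00017f9b93001ad) (.hit (nat_lit 45) (nat_lit 95) (nat_lit 0x5e0000bc00017f96daffd87) b53737 (.one (nat_lit 3) (nat_lit 49) (nat_lit 99) (nat_lit 0x5e0000bc00017f9b92ff247) b53741 (.one (nat_lit 6) (nat_lit 46) (nat_lit 96) (nat_lit 0x5e0000bc00017f450b001ad) b53738 (.tok (nat_lit 9) (nat_lit 0x5e0000bc00017f57b2fea1c) (.hit (nat_lit 47) (nat_lit 97) (nat_lit 0x5e0000bc00017f57b2fea1c) b53739 (.hit (nat_lit 48) (nat_lit 98) (nat_lit 0x5e0000bc00017eff52fdd06) b53740 (.nil))) (.nil))))) (.one (nat_lit 71) (nat_lit 50) (nat_lit 100) (nat_lit 0x5e0000bc00017e9ff2fc91a) b53742 (.nil)))))))))))))))))) (.tok (nat_lit 64) (nat_lit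 0x5e0000bc0001800003017c1) (.hit (nat_lit 180) (nat_lit 0) (nat_lit 0x5e0000bc00017fe763017c1) b53743 (.tok (nat_lit 6) (nat_lit 0x5e0000bc00017f1d4affde3) (.hit (nat_lit 181) (nat_lit 7) (nat_lit 0x5e0000bc00017e6ec2ff10d) b53744 (.hit (nat_lit 182) (nat_lit 15) (nat_lit 0x5e0000bc00017f1d4affde3) b53745 (.nil))) (.tok (nat_lit 9) (nat_lit 0x5e0000bc0001800003014a1) (.hit (nat_lit 183) (nat_lit 20) (nat_lit 0x5e0000bc0001800003014a1) b53746 (.hit (nat_lit 184) (nat_lit 28) (nat_lit 0x5e0000bc00017f47530013b) b53747 (.nil))) (.nil)))) (.tok (nat_lit 67) (nat_lit 0x5e0000bc00017f661b00606) (.hit (nat_lit 205) (nat_lit 0) (nat_lit 0x5e0000bc00017f661aff21d) b53756 (.tok (nat_lit 3) (nat_lit 0x5e0000bc00017f168b00606) (.hit (nat_lit 206) (nat_lit 1) (nat_lit 0x5e0000bc00017e3e12feaf7) b53757 (.one (nat_lit 55) (nat_lit 207) (nat_lit 3) (nat_lit 0x5e0000bc00017f168b00606) b53758 (.nil)))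 (.tok (nat_lit 9) (nat_lit 0x5e0000bc00017ed372ffda3) (.hit (nat_lit 208) (nat_lit 20) (nat_lit 0x5e0000bc00017e6e2aff0fa) b53759 (.hit (nat_lit 211) (nat_lit 28) (nat_lit 0x5e0000bc00017e357afe9e4) b53762 (.tok (nat_lit 67) (nat_lit 0x5e0000bc00017ed372ffda3) (.hit (nat_lit 209) (nat_lit 21) (nat_lit 0x5e0000bc00017e8cc2ff4cd) b53760 (.hit (nat_lit 212) (nat_lit 29) (nat_lit 0x5e0000bc00017ed372ffda3) b53763 (.one (nat_lit 9) (nat_lit 210) (nat_lit 22) (nat_lit 0x5e0000bc00017ebf22ffb19) b53761 (.nil)))) (.nil)))) (.nil)))) (.tok (nat_lit 70) (nat_lit 0x5e0000bc00017fb04b01820) (.hit (nat_lit 191) (nat_lit 0) (nat_lit 0x5e0000bc00017fb04aff829) b53748 (.tok (nat_lit 3) (nat_lit 0x5e0000bc00017f4aab00c8a) (.hit (nat_lit 192) (nat_lit 1) (nat_lit 0x5e0000bc00017e3ac2fea8d) b53749 (.one (nat_lit 67) (nat_lit 193) (nat_lit 2) (nat_lit 0x5e0000bc00017f4aab00c8a) b53750 (.nil))) (.tok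 (nat_lit 6) (nat_lit 0x5e0000bc00017fa75b01820) (.hit (nat_lit 194) (nat_lit 7) (nat_lit 0x5e0000bc00017ea44aff7be) b53751 (.hit (nat_lit 197) (nat_lit 15) (nat_lit 0x5e0000bc00017e6a32ff07b) b53754 (.tok (nat_lit 55) (nat_lit 0x5e0000bc00017fa75b01820) (.hit (nat_lit 195) (nat_lit 8) (nat_lit 0x5e0000bc00017efce3002d1) b53752 (.hit (nat_lit 198) (nat_lit 16) (nat_lit 0x5e0000bc00017f223b0077c) b53755 (.one (nat_lit 6) (nat_lit 196) (nat_lit 9) (nat_lit 0x5e0000bc00017fa75b01820) b53753 (.nil)))) (.nil)))) (.nil)))) (.nil))))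
noncomputable def r76_7 : Rw Blk := .tok (nat_lit 3) (nat_lit 0x5e0000bc0001802b630107d) (.hit (nat_lit 15) (nat_lit 0) (nat_lit 0x5e0000bc00017f102affa5a) b53775 (.tok (nat_lit 6) (nat_lit 0x5e0000bc00017e7f6aff2f1) (.hit (nat_lit 16) (nat_lit 7) (nat_lit 0x5e0000bc00017de912fe026) b53776 (.hit (nat_lit 21) (nat_lit 15) (nat_lit 0x5e0000bc00017d2b02fc864) b53779 (.tok (nat_lit 56) (nat_lit 0x5e0000bc00017e7f6aff2f1) (.hit (nat_lit 19) (nat_lit 13) (nat_lit 0x5e0000bc00017e2b1afe867) b53777 (.hit (nat_lit 24) (nat_lit 19) (nat_lit 0x5e0000bc00017e31f2fe942) b53781 (.one (nat_lit 6) (nat_lit 20) (nat_lit 14) (nat_lit 0x5e0000bc00017e7f6aff2f1) b53778 (.nil)))) (.one (nat_lit 68) (nat_lit 23) (nat_lit 18) (nat_lit 0x5e0000bc00017e205afe70f) b53780 (.nil))))) (.tok (nat_lit 52) (nat_lit 0x5e0000bc00017e8692ff3d6) (.hit (nat_lit 25) (nat_lit 39) (nat_lit 0x5e0000bc00017e1d62fe6b0)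 b53782 (.hit (nat_lit 26) (nat_lit 40) (nat_lit 0x5e0000bc00017e8692ff3d6) b53783 (.nil))) (.tok (nat_lit 55) (nat_lit 0x5e0000bc0001802b630107d) (.hit (nat_lit 27) (nat_lit 41) (nat_lit 0x5e0000bc0001802b630107d) b53784 (.one (nat_lit 3) (nat_lit 33) (nat_lit 47) (nat_lit 0x5e0000bc00017e875aff3ef) b53790 (.tok (nat_lit 6) (nat_lit 0x5e0000bc00017e9d2aff6a9) (.hit (nat_lit 28) (nat_lit 42) (nat_lit 0x5e0000bc00017e4c52fec8e) b53785 (.hit (nat_lit 31) (nat_lit 45) (nat_lit 0x5e0000bc00017e660afefc5) b53788 (.tok (nat_lit 55) (nat_lit 0x5e0000bc00017e9d2aff6a9) (.hit (nat_lit 29) (nat_lit 43) (nat_lit 0x5e0000bc00017e9d2aff6a9) b53786 (.hit (nat_lit 32) (nat_lit 46) (nat_lit 0x5e0000bc00017e9542ff5ac) b53789 (.one (nat_lit 6) (nat_lit 30) (nat_lit 44) (nat_lit 0x5e0000bc00017e46dafebdf) b53787 (.nil)))) (.nil)))) (.nil)))) (.one (nat_lit 58) (nat_lit 35) (nat_lit 49) (nat_lit 0x5e0000bc00017e7dbaff2bb)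 b53791 (.nil)))))) (.tok (nat_lit 9) (nat_lit 0x5e0000bc000180c94303311) (.hit (nat_lit 0) (nat_lit 0) (nat_lit 0x5e0000bc00017faecb00e70) b53764 (.tok (nat_lit 9) (nat_lit 0x5e0000bc00017fa0e2ffbd4) (.hit (nat_lit 1) (nat_lit 20) (nat_lit 0x5e0000bc00017efa6afeda6) b53765 (.hit (nat_lit 4) (nat_lit 28) (nat_lit 0x5e0000bc00017e9f02fe135) b53766 (.one (nat_lit 56) (nat_lit 6) (nat_lit 31) (nat_lit 0x5e0000bc00017fa0e2ffbd4) b53767 (.nil)))) (.tok (nat_lit 64) (nat_lit 0x5e0000bc00018041cb019f1) (.hit (nat_lit 7) (nat_lit 50) (nat_lit 0x5e0000bc00017ffd73018c3) b53768 (.hit (nat_lit 8) (nat_lit 51) (nat_lit 0x5e0000bc00018041cb019f1) b53769 (.nil))) (.tok (nat_lit 67) (nat_lit 0x5e0000bc00018018a301aa0) (.hit (nat_lit 9) (nat_lit 52) (nat_lit 0x5e0000bc00018018a301aa0) b53770 (.one (nat_lit 3) (nat_lit 12) (nat_lit 58) (nat_lit 0x5e0000bc00017fdc63013e6) b53773 (.tok (nat_lit 9)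 (nat_lit 0x5e0000bc00017fb90b00e7e) (.hit (nat_lit 10) (nat_lit 53) (nat_lit 0x5e0000bc00017f4e9b00e7e) b53771 (.hit (nat_lit 11) (nat_lit 56) (nat_lit 0x5e0000bc00017fb90b00688) b53772 (.nil))) (.nil)))) (.one (nat_lit 70) (nat_lit 14) (nat_lit 60) (nat_lit 0x5e0000bc000180c94303311) b53774 (.nil)))))) (.nil))
noncomputable def r76_8 : Rw Blk := .tok (nat_lit 6) (nat_lit 0x1780002f00005ff720c0786d80b72b00ce4) (.hit (nat_lit 0) (nat_lit 0) (nat_lit 0x1780002f00005fa89abf8e997ecb42fd9b7) b53792 (.tok (nat_lit 14) (nat_lit 0x1780002f00005ff19cbf93597f34fafe9df) (.hit (nat_lit 21) (nat_lit 61) (nat_lit 0x1780002f00005fd8fcbf6de17ef29afe10b) b53793 (.one (nat_lit 3) (nat_lit 22) (nat_lit 62) (nat_lit 0x1780002f00005fe1a6bf69b57ea37afe9df) b53794 (.tok (nat_lit 6) (nat_lit 0x1780002f00005fb8b0bf7fbd7ed142fdf54) (.hit (nat_lit 25) (nat_lit 65) (nat_lit 0x1780002f00005f71fcbf54797ebaeafd94b)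 b53797 (.hit (nat_lit 26) (nat_lit 66) (nat_lit 0x1780002f00005fb8b0bf7fbd7ed142fdf54) b53798 (.nil))) (.tok (nat_lit 9) (nat_lit 0x1780002f00005ff19cbf93597f34fafe90b) (.hit (nat_lit 23) (nat_lit 63) (nat_lit 0x1780002f00005ff19cbf93597f34fafe90b) b53795 (.hit (nat_lit 24) (nat_lit 64) (nat_lit 0x1780002f00005fb5aebf4db17ead5afd799) b53796 (.nil))) (.nil))))) (.one (nat_lit 17) (nat_lit 27) (nat_lit 67) (nat_lit 0x1780002f00005fc724bf61057e92b2fd706) b53799 (.tok (nat_lit 20) (nat_lit 0x1780002f00005ff720c0786d80b72b00ce4) (.hit (nat_lit 28) (nat_lit 68) (nat_lit 0x1780002f00005ff720c0786d80b72b00ce4) b53800 (.hit (nat_lit 29) (nat_lit 69) (nat_lit 0x1780002f00005fad28bf36e57e526afcc6b) b53801 (.nil))) (.tok (nat_lit 23) (nat_lit 0x1780002f00005fa764bf2f317e3502fca12) (.hit (nat_lit 30) (nat_lit 70) (nat_lit 0x1780002f00005f5082bf11857e3502fc88e) b53802 (.hit (nat_lit 31) (nat_lit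 71) (nat_lit 0x1780002f00005fa764bf2f317e2d32fca12) b53803 (.nil))) (.one (nat_lit 26) (nat_lit 32) (nat_lit 72) (nat_lit 0x1780002f00005f998ebf0da17dfe62fc1f7) b53804 (.one (nat_lit 29) (nat_lit 33) (nat_lit 73) (nat_lit 0x1780002f00005fa412bf29357e30c2fd0f4) b53805 (.one (nat_lit 32) (nat_lit 34) (nat_lit 74) (nat_lit 0x1780002f00005f8a20beebbd7dc5dafbb0a) b53806 (.one (nat_lit 35) (nat_lit 35) (nat_lit 75) (nat_lit 0x1780002f00005fb926bf29b17e30f2fd1d2) b53807 (.one (nat_lit 38) (nat_lit 36) (nat_lit 76) (nat_lit 0x1780002f00005fa43ebf25c57e4592fcaa0) b53808 (.tok (nat_lit 41) (nat_lit 0x1780002f00005f9c24bf3ce17e5daafcf1b) (.hit (nat_lit 37) (nat_lit 77) (nat_lit 0x1780002f00005f8f86bef4657dc692fc756) b53809 (.hit (nat_lit 38) (nat_lit 78) (nat_lit 0x1780002f00005f9c24bf3ce17e5daafcf1b) b53810 (.nil))) (.tok (nat_lit 44) (nat_lit 0x1780002f00005fbaf4bf71c17e7caafd8e7) (.hit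 (nat_lit 39) (nat_lit 79) (nat_lit 0x1780002f00005fbaf4bf71c17e7caafd8e7) b53811 (.hit (nat_lit 40) (nat_lit 80) (nat_lit 0x1780002f00005fa378befbc17de59afc73e) b53812 (.nil))) (.tok (nat_lit 47) (nat_lit 0x1780002f00005fce66bf52357e79eafdca3) (.hit (nat_lit 41) (nat_lit 81) (nat_lit 0x1780002f00005f41b0bef3e17df9bafc125) b53813 (.hit (nat_lit 42) (nat_lit 82) (nat_lit 0x1780002f00005fce66bf52357e79eafdca3) b53814 (.nil))) (.one (nat_lit 62) (nat_lit 52) (nat_lit 92) (nat_lit 0x1780002f00005f9914bf10ad7e17dafc4e9) b53815 (.tok (nat_lit 65) (nat_lit 0x1780002f00005fb0b4bf2e1d7e36cafcd87) (.hit (nat_lit 53) (nat_lit 93) (nat_lit 0x1780002f00005fb0b4bf17ad7e2be2fcd87) b53816 (.hit (nat_lit 54) (nat_lit 94) (nat_lit 0x1780002f00005f864cbf2e1d7e36cafc766) b53817 (.nil))) (.tok (nat_lit 68) (nat_lit 0x1780002f00005f9602bf8a517ee27afde82) (.hit (nat_lit 55) (nat_lit 95) (nat_lit 0x1780002f00005f9602bf8a517ee27afde82)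 b53818 (.one (nat_lit 3) (nat_lit 59) (nat_lit 99) (nat_lit 0x1780002f00005f4f88bf0f917e311afc811) b53822 (.one (nat_lit 6) (nat_lit 56) (nat_lit 96) (nat_lit 0x1780002f00005f57cebf201d7e5232fcc34) b53819 (.tok (nat_lit 9) (nat_lit 0x1780002f00005f73a6bf57cd7ec192fda20) (.hit (nat_lit 57) (nat_lit 97) (nat_lit 0x1780002f00005f73a6bf57cd7ec192fda20) b53820 (.hit (nat_lit 58) (nat_lit 98) (nat_lit 0x1780002f00005f6302bf36857e7f02fd1ce) b53821 (.nil))) (.nil))))) (.one (nat_lit 71) (nat_lit 60) (nat_lit 100) (nat_lit 0x1780002f00005fa662bf21957e1d3afc968) b53823 (.nil)))))))))))))))))) (.tok (nat_lit 52) (nat_lit 0x1780002f0000600000c05b9d804e6b00c19) (.hit (nat_lit 176) (nat_lit 0) (nat_lit 0x1780002f0000600000c05b9d804e6b00c19) b53824 (.tok (nat_lit 6) (nat_lit 0x1780002f00005fd834bffaed7f993affbdd) (.hit (nat_lit 177) (nat_lit 7) (nat_lit 0x1780002f00005fd834bffaed7f993affbdd)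 b53825 (.hit (nat_lit 178) (nat_lit 15) (nat_lit 0x1780002f00005fb672bfb0d97f1042fed4f) b53826 (.nil))) (.tok (nat_lit 9) (nat_lit 0x1780002f00005fd1d6bfd3a17f5672ff6bd) (.hit (nat_lit 179) (nat_lit 20) (nat_lit 0x1780002f00005faaa6bfaa9d7f2d02fe798) b53827 (.hit (nat_lit 180) (nat_lit 28) (nat_lit 0x1780002f00005fd1d6bfd3a17f5672ff6bd) b53828 (.nil))) (.nil)))) (.tok (nat_lit 55) (nat_lit 0x1780002f00005fc552bfc5157f61f2fee36) (.hit (nat_lit 187) (nat_lit 0) (nat_lit 0x1780002f00005fc552bfb3797f3ebafe9cf) b53829 (.tok (nat_lit 3) (nat_lit 0x1780002f00005fb7e2bfc5157f61f2fee36) (.hit (nat_lit 188) (nat_lit 1) (nat_lit 0x1780002f00005f8a9abf6a857eacd2fd792) b53830 (.one (nat_lit 67) (nat_lit 189) (nat_lit 2) (nat_lit 0x1780002f00005fb7e2bfc5157f61f2fee36) b53831 (.nil))) (.tok (nat_lit 6) (nat_lit 0x1780002f00005f9fa4bf94997f00fafe217) (.hit (nat_lit 190) (nat_lit 7) (nat_lit 0x1780002f00005f9fa4bf94997f00fafe217)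 b53832 (.hit (nat_lit 193) (nat_lit 15) (nat_lit 0x1780002f00005f8c46bf6ddd7eb382fd868) b53833 (.nil))) (.nil)))) (.tok (nat_lit 58) (nat_lit 0x1780002f00005fe010c015718002ab0024d) (.hit (nat_lit 201) (nat_lit 0) (nat_lit 0x1780002f00005fcef0bfe8357f809afee74) b53834 (.tok (nat_lit 3) (nat_lit 0x1780002f00005fcdc2bff0d57fb972ff926) (.hit (nat_lit 202) (nat_lit 1) (nat_lit 0x1780002f00005f9a94bf8a797eecbafdf8f) b53835 (.one (nat_lit 55) (nat_lit 203) (nat_lit 3) (nat_lit 0x1780002f00005fcdc2bff0d57fb972ff926) b53836 (.nil))) (.tok (nat_lit 9) (nat_lit 0x1780002f00005fe010c015718002ab0024d) (.hit (nat_lit 204) (nat_lit 20) (nat_lit 0x1780002f00005f9e7abf92457efc52fe182) b53837 (.hit (nat_lit 207) (nat_lit 28) (nat_lit 0x1780002f00005f9ed4bf92f97efdbafe1af) b53840 (.tok (nat_lit 67) (nat_lit 0x1780002f00005fe010c015718002ab0024d) (.hit (nat_lit 205) (nat_lit 21) (nat_lit 0x1780002f00005fb868bfc6217f640afee79)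 b53838 (.hit (nat_lit 208) (nat_lit 29) (nat_lit 0x1780002f00005fd34abffbe57fcf92ffbea) b53841 (.one (nat_lit 9) (nat_lit 206) (nat_lit 22) (nat_lit 0x1780002f00005fe010c015718002ab0024d) b53839 (.nil)))) (.nil)))) (.nil)))) (.nil))))
noncomputable def r76_9 : Rw Blk := .tok (nat_lit 3) (nat_lit 0x1780002f000060271cc054cd80a96301523) (.hit (nat_lit 15) (nat_lit 0) (nat_lit 0x1780002f0000600806bfdc457fb52b007b3) b53849 (.tok (nat_lit 9) (nat_lit 0x1780002f00005fc852bf9c297f3fdafeeae) (.hit (nat_lit 16) (nat_lit 20) (nat_lit 0x1780002f00005f822abf12b97e2cfafc77d) b53850 (.hit (nat_lit 21) (nat_lit 28) (nat_lit 0x1780002f00005fa0e6bee4bd7dd102fdb9a) b53855 (.tok (nat_lit 14) (nat_lit 0x1780002f00005fc852bf82957f0cb2feeae) (.hit (nat_lit 17) (nat_lit 24) (nat_lit 0x1780002f00005fa4d2bf40297e87dafd71a) b53851 (.hit (nat_lit 22) (nat_lit 30) (nat_lit 0x1780002f00005fb7e4bf82957f0cb2feeae)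 b53856 (.one (nat_lit 6) (nat_lit 18) (nat_lit 25) (nat_lit 0x1780002f00005fc852bf4ec57ea512fe8da) b53852 (.nil)))) (.tok (nat_lit 68) (nat_lit 0x1780002f00005fbb7cbf9c297f3fdafe9d9) (.hit (nat_lit 19) (nat_lit 26) (nat_lit 0x1780002f00005fa438bf34ed7e7162fd6cd) b53853 (.hit (nat_lit 24) (nat_lit 32) (nat_lit 0x1780002f00005fb0dcbf729d7eecc2fe174) b53857 (.one (nat_lit 9) (nat_lit 20) (nat_lit 27) (nat_lit 0x1780002f00005fbb7cbf9c297f3fdafe9d9) b53854 (.nil)))) (.nil))))) (.tok (nat_lit 64) (nat_lit 0x1780002f00005fd62ebfa0117f47aaff902) (.hit (nat_lit 25) (nat_lit 50) (nat_lit 0x1780002f00005fcc02bf7ea57f04d2feb98) b53858 (.hit (nat_lit 26) (nat_lit 51) (nat_lit 0x1780002f00005fd62ebfa0117f47aaff902) b53859 (.nil))) (.tok (nat_lit 67) (nat_lit 0x1780002f000060271cc054cd80a96301523) (.hit (nat_lit 27) (nat_lit 52) (nat_lit 0x1780002f000060271cc054cd80a96301523) b53860 (.tok (nat_lit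 3) (nat_lit 0x1780002f00005fdf9ebf94297f2fdaff480) (.hit (nat_lit 33) (nat_lit 58) (nat_lit 0x1780002f00005fb9bcbf73697eee5afe18f) b53866 (.one (nat_lit 55) (nat_lit 34) (nat_lit 59) (nat_lit 0x1780002f00005fdf9ebf94297f2fdaff480) b53867 (.nil))) (.tok (nat_lit 9) (nat_lit 0x1780002f00005fc9aabf9e817f448afea6f) (.hit (nat_lit 28) (nat_lit 53) (nat_lit 0x1780002f00005fbb90bf7e657f0452fe279) b53861 (.hit (nat_lit 31) (nat_lit 56) (nat_lit 0x1780002f00005fb4ccbf62f17ecd6afdf17) b53864 (.tok (nat_lit 67) (nat_lit 0x1780002f00005fc9aabf9e817f448afea6f) (.hit (nat_lit 29) (nat_lit 54) (nat_lit 0x1780002f00005fc9aabf8e9d7f24c2fe986) b53862 (.hit (nat_lit 32) (nat_lit 57) (nat_lit 0x1780002f00005fc898bf9e817f448afea6f) b53865 (.one (nat_lit 9) (nat_lit 30) (nat_lit 55) (nat_lit 0x1780002f00005fb2c4bf63357ecdf2fde13) b53863 (.nil)))) (.nil)))) (.nil)))) (.one (nat_lit 70) (nat_lit 35)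 (nat_lit 60) (nat_lit 0x1780002f0000601f1abfcde57fa35301251) b53868 (.nil)))))) (.tok (nat_lit 6) (nat_lit 0x1780002f0000601e82c0c099816123020b4) (.hit (nat_lit 0) (nat_lit 0) (nat_lit 0x1780002f0000600b7cc054b5804b1b00e20) b53842 (.tok (nat_lit 6) (nat_lit 0x1780002f0000601e82c0c099816123020b4) (.hit (nat_lit 1) (nat_lit 7) (nat_lit 0x1780002f00005faac8bf9ba97f1452fd604) b53843 (.hit (nat_lit 4) (nat_lit 15) (nat_lit 0x1780002f00005fbd6ebfd8e17f438afdfde) b53846 (.tok (nat_lit 14) (nat_lit 0x1780002f0000601e82c0c099816123020b4) (.hit (nat_lit 2) (nat_lit 11) (nat_lit 0x1780002f00005fd7c8c01bb57fe39aff2dd) b53844 (.hit (nat_lit 5) (nat_lit 17) (nat_lit 0x1780002f00005ff044c02b718016f2ff3e0) b53847 (.one (nat_lit 9) (nat_lit 3) (nat_lit 12) (nat_lit 0x1780002f0000601e82c0c099816123020b4) b53845 (.nil)))) (.one (nat_lit 68) (nat_lit 6) (nat_lit 18) (nat_lit 0x1780002f0000600f4ec06cc580de330090c)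 b53848 (.nil))))) (.nil))) (.nil))
noncomputable def r76_10 : Rw Blk := .tok (nat_lit 6) (nat_lit 0x5e0000bc000182358305a25) (.hit (nat_lit 0) (nat_lit 0) (nat_lit 0x5e0000bc00017fc1fb00a13) b53869 (.tok (nat_lit 14) (nat_lit 0x5e0000bc0001818a3b03cea) (.hit (nat_lit 1) (nat_lit 61) (nat_lit 0x5e0000bc00018040db01474) b53870 (.one (nat_lit 3) (nat_lit 2) (nat_lit 62) (nat_lit 0x5e0000bc00018083cb00fbb) b53871 (.tok (nat_lit 6) (nat_lit 0x5e0000bc00017f7fcb005d7) (.hit (nat_lit 5) (nat_lit 65) (nat_lit 0x5e0000bc00017f7fcb005d7) b53874 (.hit (nat_lit 6) (nat_lit 66) (nat_lit 0x5e0000bc00017f368affdf6) b53875 (.nil))) (.tok (nat_lit 9) (nat_lit 0x5e0000bc0001818a3b03cea) (.hit (nat_lit 3) (nat_lit 63) (nat_lit 0x5e0000bc0001818a3b03cea) b53872 (.hit (nat_lit 4) (nat_lit 64) (nat_lit 0x5e0000bc00017fb63300808) b53873 (.nil))) (.nil))))) (.one (nat_lit 17) (nat_lit 7) (nat_lit 67)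 (nat_lit 0x5e0000bc00017f9faaff43c) b53876 (.tok (nat_lit 20) (nat_lit 0x5e0000bc000182358305a25) (.hit (nat_lit 8) (nat_lit 68) (nat_lit 0x5e0000bc000182358305a25) b53877 (.hit (nat_lit 9) (nat_lit 69) (nat_lit 0x5e0000bc00017f75dafedd1) b53878 (.nil))) (.tok (nat_lit 23) (nat_lit 0x5e0000bc00017f66eaffb9a) (.hit (nat_lit 10) (nat_lit 70) (nat_lit 0x5e0000bc00017f2de2ffb9a) b53879 (.hit (nat_lit 11) (nat_lit 71) (nat_lit 0x5e0000bc00017f66eaff92c) b53880 (.nil))) (.one (nat_lit 38) (nat_lit 16) (nat_lit 76) (nat_lit 0x5e0000bc00017f3002ff075) b53881 (.tok (nat_lit 41) (nat_lit 0x5e0000bc00017f0f32ff38d) (.hit (nat_lit 17) (nat_lit 77) (nat_lit 0x5e0000bc00017ecab2fefd7) b53882 (.hit (nat_lit 18) (nat_lit 78) (nat_lit 0x5e0000bc00017f0f32ff38d) b53883 (.nil))) (.tok (nat_lit 44) (nat_lit 0x5e0000bc00017f6562ffc90) (.hit (nat_lit 19) (nat_lit 79) (nat_lit 0x5e0000bc00017f6562ffc90)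 b53884 (.hit (nat_lit 20) (nat_lit 80) (nat_lit 0x5e0000bc00017ebc2afe521) b53885 (.nil))) (.tok (nat_lit 47) (nat_lit 0x5e0000bc00017f5b82ff20e) (.hit (nat_lit 21) (nat_lit 81) (nat_lit 0x5e0000bc00017eb0cafebf7) b53886 (.hit (nat_lit 22) (nat_lit 82) (nat_lit 0x5e0000bc00017f5b82ff20e) b53887 (.nil))) (.one (nat_lit 62) (nat_lit 23) (nat_lit 92) (nat_lit 0x5e0000bc00017fefbaffb5e) b53888 (.tok (nat_lit 65) (nat_lit 0x5e0000bc00017f4fb2ffbbb) (.hit (nat_lit 24) (nat_lit 93) (nat_lit 0x5e0000bc00017f3f52ffbbb) b53889 (.hit (nat_lit 25) (nat_lit 94) (nat_lit 0x5e0000bc00017f4fb2ff2c5) b53890 (.nil))) (.tok (nat_lit 68) (nat_lit 0x5e0000bc000180946b01da0) (.hit (nat_lit 26) (nat_lit 95) (nat_lit 0x5e0000bc000180946b01da0) b53891 (.one (nat_lit 3) (nat_lit 30) (nat_lit 99) (nat_lit 0x5e0000bc00017f6e030039e) b53895 (.one (nat_lit 6) (nat_lit 27) (nat_lit 96) (nat_lit 0x5e0000bc00017f476affecb)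 b53892 (.tok (nat_lit 9) (nat_lit 0x5e0000bc00017f5acb00137) (.hit (nat_lit 28) (nat_lit 97) (nat_lit 0x5e0000bc00017f5acb00137) b53893 (.hit (nat_lit 29) (nat_lit 98) (nat_lit 0x5e0000bc00017effbaff5d5) b53894 (.nil))) (.nil))))) (.one (nat_lit 71) (nat_lit 31) (nat_lit 100) (nat_lit 0x5e0000bc00017f6202fea74) b53896 (.nil)))))))))))))) (.nil)
noncomputable def r76_11 : Rw Blk := .tok (nat_lit 6) (nat_lit 0x5e0000bc00017f9c7affe0e) (.hit (nat_lit 0) (nat_lit 0) (nat_lit 0x5e0000bc00017e5a52fdfe8) b53897 (.tok (nat_lit 14) (nat_lit 0x5e0000bc00017f9c7affe0e) (.hit (nat_lit 21) (nat_lit 61) (nat_lit 0x5e0000bc00017f2a7afe92e) b53898 (.one (nat_lit 3) (nat_lit 22) (nat_lit 62) (nat_lit 0x5e0000bc00017ebf2afdf59) b53899 (.tok (nat_lit 6) (nat_lit 0x5e0000bc00017ec2dafe9bf) (.hit (nat_lit 25) (nat_lit 65) (nat_lit 0x5e0000bc00017e2c9afe67a) b53902 (.hit (nat_lit 26) (nat_lit 66) (nat_lit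 0x5e0000bc00017ec2dafe9bf) b53903 (.nil))) (.tok (nat_lit 9) (nat_lit 0x5e0000bc00017f9c7affe0e) (.hit (nat_lit 23) (nat_lit 63) (nat_lit 0x5e0000bc00017f9c7affe0e) b53900 (.hit (nat_lit 24) (nat_lit 64) (nat_lit 0x5e0000bc00017ee6d2fe713) b53901 (.nil))) (.nil))))) (.one (nat_lit 17) (nat_lit 27) (nat_lit 67) (nat_lit 0x5e0000bc00017e6feafd4c8) b53904 (.tok (nat_lit 20) (nat_lit 0x5e0000bc00017eb80afe81c) (.hit (nat_lit 28) (nat_lit 68) (nat_lit 0x5e0000bc00017eb80afe81c) b53905 (.hit (nat_lit 29) (nat_lit 69) (nat_lit 0x5e0000bc00017e567afd336) b53906 (.nil))) (.tok (nat_lit 23) (nat_lit 0x5e0000bc00017e6e9afdefb) (.hit (nat_lit 30) (nat_lit 70) (nat_lit 0x5e0000bc00017df0a2fdefb) b53907 (.hit (nat_lit 31) (nat_lit 71) (nat_lit 0x5e0000bc00017e6e9afd334) b53908 (.nil))) (.one (nat_lit 26) (nat_lit 32) (nat_lit 72) (nat_lit 0x5e0000bc00017e334afc510) b53909 (.one (nat_lit 29)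 (nat_lit 33) (nat_lit 73) (nat_lit 0x5e0000bc00017e25f2fc558) b53910 (.one (nat_lit 32) (nat_lit 34) (nat_lit 74) (nat_lit 0x5e0000bc00017de5b2fc6b3) b53911 (.one (nat_lit 35) (nat_lit 35) (nat_lit 75) (nat_lit 0x5e0000bc00017e61dafcad4) b53912 (.one (nat_lit 38) (nat_lit 36) (nat_lit 76) (nat_lit 0x5e0000bc00017e4da2fd508) b53913 (.tok (nat_lit 41) (nat_lit 0x5e0000bc00017e3ab2fcc13) (.hit (nat_lit 37) (nat_lit 77) (nat_lit 0x5e0000bc00017e3ab2fc809) b53914 (.hit (nat_lit 38) (nat_lit 78) (nat_lit 0x5e0000bc00017e2222fcc13) b53915 (.nil))) (.tok (nat_lit 44) (nat_lit 0x5e0000bc00017e86e2fd085) (.hit (nat_lit 39) (nat_lit 79) (nat_lit 0x5e0000bc00017e86e2fd085) b53916 (.hit (nat_lit 40) (nat_lit 80) (nat_lit 0x5e0000bc00017e42d2fc8f2) b53917 (.nil))) (.tok (nat_lit 47) (nat_lit 0x5e0000bc00017e7802fcd99) (.hit (nat_lit 41) (nat_lit 81) (nat_lit 0x5e0000bc00017cde42fbcaf) b53918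 (.hit (nat_lit 42) (nat_lit 82) (nat_lit 0x5e0000bc00017e7802fcd99) b53919 (.nil))) (.one (nat_lit 62) (nat_lit 52) (nat_lit 92) (nat_lit 0x5e0000bc00017e422afce76) b53920 (.tok (nat_lit 65) (nat_lit 0x5e0000bc00017e28f2fd529) (.hit (nat_lit 53) (nat_lit 93) (nat_lit 0x5e0000bc00017e024afd529) b53921 (.hit (nat_lit 54) (nat_lit 94) (nat_lit 0x5e0000bc00017e28f2fc8df) b53922 (.nil))) (.tok (nat_lit 68) (nat_lit 0x5e0000bc00017e6132fe9a5) (.hit (nat_lit 55) (nat_lit 95) (nat_lit 0x5e0000bc00017e6132fe9a5) b53923 (.one (nat_lit 3) (nat_lit 59) (nat_lit 99) (nat_lit 0x5e0000bc00017de1fafdd26) b53927 (.one (nat_lit 6) (nat_lit 56) (nat_lit 96) (nat_lit 0x5e0000bc00017dd6f2fdbc5) b53924 (.tok (nat_lit 9) (nat_lit 0x5e0000bc00017dfb6afe054) (.hit (nat_lit 57) (nat_lit 97) (nat_lit 0x5e0000bc00017dfb6afe054) b53925 (.hit (nat_lit 58) (nat_lit 98) (nat_lit 0x5e0000bc00017de8dafde02) b53926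 (.nil))) (.nil))))) (.one (nat_lit 71) (nat_lit 60) (nat_lit 100) (nat_lit 0x5e0000bc00017e4272fc727) b53928 (.nil)))))))))))))))))) (.tok (nat_lit 52) (nat_lit 0x5e0000bc00017f56ab00b65) (.hit (nat_lit 176) (nat_lit 0) (nat_lit 0x5e0000bc00017f475b00b65) b53929 (.tok (nat_lit 6) (nat_lit 0x5e0000bc00017f56ab00a62) (.hit (nat_lit 177) (nat_lit 7) (nat_lit 0x5e0000bc00017f56ab00a62) b53930 (.hit (nat_lit 178) (nat_lit 15) (nat_lit 0x5e0000bc00017ed5a2ffaaf) b53931 (.nil))) (.tok (nat_lit 9) (nat_lit 0x5e0000bc00017f177affea5) (.hit (nat_lit 179) (nat_lit 20) (nat_lit 0x5e0000bc00017ea582ff8c6) b53932 (.hit (nat_lit 180) (nat_lit 28) (nat_lit 0x5e0000bc00017f177affea5) b53933 (.nil))) (.nil)))) (.tok (nat_lit 55) (nat_lit 0x5e0000bc00017f708afff1d) (.hit (nat_lit 187) (nat_lit 0) (nat_lit 0x5e0000bc00017f708affbd6) b53934 (.tok (nat_lit 3) (nat_lit 0x5e0000bc00017ed83afff1d) (.hit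 (nat_lit 188) (nat_lit 1) (nat_lit 0x5e0000bc00017e6e12ff1d8) b53935 (.one (nat_lit 67) (nat_lit 189) (nat_lit 2) (nat_lit 0x5e0000bc00017ed83afff1d) b53936 (.nil))) (.tok (nat_lit 6) (nat_lit 0x5e0000bc00017e6eaaff1eb) (.hit (nat_lit 190) (nat_lit 7) (nat_lit 0x5e0000bc00017e550afeeb7) b53937 (.hit (nat_lit 193) (nat_lit 15) (nat_lit 0x5e0000bc00017e6eaaff1eb) b53938 (.nil))) (.nil)))) (.tok (nat_lit 58) (nat_lit 0x5e0000bc000180000302416) (.hit (nat_lit 201) (nat_lit 0) (nat_lit 0x5e0000bc00017f084aff91e) b53939 (.tok (nat_lit 3) (nat_lit 0x5e0000bc00017f3bab00b8b) (.hit (nat_lit 202) (nat_lit 1) (nat_lit 0x5e0000bc00017e7772ff304) b53940 (.one (nat_lit 55) (nat_lit 203) (nat_lit 3) (nat_lit 0x5e0000bc00017f3bab00b8b) b53941 (.nil))) (.tok (nat_lit 9) (nat_lit 0x5e0000bc000180000302416) (.hit (nat_lit 204) (nat_lit 20) (nat_lit 0x5e0000bc00017eb25affa61) b53942 (.hit (nat_lit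 207) (nat_lit 28) (nat_lit 0x5e0000bc00017e6812ff118) b53945 (.tok (nat_lit 67) (nat_lit 0x5e0000bc000180000302416) (.hit (nat_lit 205) (nat_lit 21) (nat_lit 0x5e0000bc00017f178300706) b53943 (.hit (nat_lit 208) (nat_lit 29) (nat_lit 0x5e0000bc00017f360b00ad7) b53946 (.one (nat_lit 9) (nat_lit 206) (nat_lit 22) (nat_lit 0x5e0000bc000180000302416) b53944 (.nil)))) (.nil)))) (.nil)))) (.nil))))
noncomputable def r76_12 : Rw Blk := .tok (nat_lit 3) (nat_lit 0x5e0000bc000180cf0b02129) (.hit (nat_lit 15) (nat_lit 0) (nat_lit 0x5e0000bc00017f3342fec31) b53954 (.tok (nat_lit 9) (nat_lit 0x5e0000bc00017ed852fe7cd) (.hit (nat_lit 16) (nat_lit 20) (nat_lit 0x5e0000bc00017e29aafd1f8) b53955 (.hit (nat_lit 21) (nat_lit 28) (nat_lit 0x5e0000bc00017d23e2fb13f) b53960 (.tok (nat_lit 14) (nat_lit 0x5e0000bc00017ea582fe173) (.hit (nat_lit 17) (nat_lit 24) (nat_lit 0x5e0000bc00017e6782fd9b3) b53956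 (.hit (nat_lit 22) (nat_lit 30) (nat_lit 0x5e0000bc00017e605afd8ce) b53961 (.one (nat_lit 6) (nat_lit 18) (nat_lit 25) (nat_lit 0x5e0000bc00017ea582fe173) b53957 (.nil)))) (.tok (nat_lit 68) (nat_lit 0x5e0000bc00017ed852fe7cd) (.hit (nat_lit 19) (nat_lit 26) (nat_lit 0x5e0000bc00017e86e2fdd9f) b53958 (.hit (nat_lit 24) (nat_lit 32) (nat_lit 0x5e0000bc00017e47aafd5b8) b53962 (.one (nat_lit 9) (nat_lit 20) (nat_lit 27) (nat_lit 0x5e0000bc00017ed852fe7cd) b53959 (.nil)))) (.nil))))) (.tok (nat_lit 64) (nat_lit 0x5e0000bc00017ebab2fe419) (.hit (nat_lit 25) (nat_lit 50) (nat_lit 0x5e0000bc00017ebab2fe419) b53963 (.hit (nat_lit 26) (nat_lit 51) (nat_lit 0x5e0000bc00017e977afdfb2) b53964 (.nil))) (.tok (nat_lit 67) (nat_lit 0x5e0000bc000180cf0b02129) (.hit (nat_lit 27) (nat_lit 52) (nat_lit 0x5e0000bc000180cf0b02129) b53965 (.tok (nat_lit 3) (nat_lit 0x5e0000bc00017f16e2fef9f) (.hit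 (nat_lit 33) (nat_lit 58) (nat_lit 0x5e0000bc00017ef3dafeb3e) b53971 (.one (nat_lit 55) (nat_lit 34) (nat_lit 59) (nat_lit 0x5e0000bc00017f16e2fef9f) b53972 (.nil))) (.tok (nat_lit 9) (nat_lit 0x5e0000bc00017f27b2ff1b9) (.hit (nat_lit 28) (nat_lit 53) (nat_lit 0x5e0000bc00017ea65afe18e) b53966 (.hit (nat_lit 31) (nat_lit 56) (nat_lit 0x5e0000bc00017e91cafdefc) b53969 (.tok (nat_lit 67) (nat_lit 0x5e0000bc00017f27b2ff1b9) (.hit (nat_lit 29) (nat_lit 54) (nat_lit 0x5e0000bc00017f27b2ff1b9) b53967 (.hit (nat_lit 32) (nat_lit 57) (nat_lit 0x5e0000bc00017ef1fafeb02) b53970 (.one (nat_lit 9) (nat_lit 30) (nat_lit 55) (nat_lit 0x5e0000bc00017eb2e2fe31f) b53968 (.nil)))) (.nil)))) (.nil)))) (.one (nat_lit 70) (nat_lit 35) (nat_lit 60) (nat_lit 0x5e0000bc00017f1662fef8f) b53973 (.nil)))))) (.tok (nat_lit 6) (nat_lit 0x5e0000bc0001803cc3018c5) (.hit (nat_lit 0) (nat_lit 0) (nat_lit 0x5e0000bc00017f8e52ff608)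 b53947 (.tok (nat_lit 6) (nat_lit 0x5e0000bc0001803cc3018c5) (.hit (nat_lit 1) (nat_lit 7) (nat_lit 0x5e0000bc00017f3a9afe4dc) b53948 (.hit (nat_lit 4) (nat_lit 15) (nat_lit 0x5e0000bc00017e7b92fd261) b53951 (.tok (nat_lit 14) (nat_lit 0x5e0000bc0001803cc3018c5) (.hit (nat_lit 2) (nat_lit 11) (nat_lit 0x5e0000bc0001803cc3018c5) b53949 (.hit (nat_lit 5) (nat_lit 17) (nat_lit 0x5e0000bc00017f3752fe356) b53952 (.one (nat_lit 9) (nat_lit 3) (nat_lit 12) (nat_lit 0x5e0000bc00017fe67b00a92) b53950 (.nil)))) (.one (nat_lit 68) (nat_lit 6) (nat_lit 18) (nat_lit 0x5e0000bc00017f6bbafe9a1) b53953 (.nil))))) (.nil))) (.nil))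
noncomputable def r76_13 : Rw Blk := .tok (nat_lit 3) (nat_lit 0x17edb42fe1e75fe23ebf81157f53a2fd9a65fd4ecbf89bd7f59aafe6f05fd456bfb9517f82daff32e) (.hit (nat_lit 0) (nat_lit 0) (nat_lit 0x17db5f2fc6365f9d40bf1b317e1cbafc0da5f8c94bf27117ea8fafc2a95f8cd0bf50117ea672fd2dc) b53974 (.tok (nat_lit 6) (nat_lit 0x17dbd22fc3475fd2dabf39197e50bafc7d95f8b18bf2e1d7e90fafc5765f98d4bf8f697f245afe4d8) (.hit (nat_lit 1) (nat_lit 7) (nat_lit 0x17d1a5afaeee5fa77ebee7b57dadf2fb3805f6266bedcb97dee32fb11d5f7022bef4457dfb22fcfc3) b53674 (.hit (nat_lit 6) (nat_lit 15) (nat_lit 0x17d06e2fac7f5f9092beddf97d9a7afb1115f5d88bed2fd7ddabafaeae5f6b44bf3cd57e7faafd02f) b53679 (.tok (nat_lit 14) (nat_lit 0x17db23afc1ea5fcb56bf33a57e45d2fc67c5f885ebf28a97e8612fc4195f961abf672d7ed3aafdd55) (.hit (nat_lit 2) (nat_lit 11) (nat_lit 0x17d4f3afb58a5fb79cbf02257de2d2fba1c5f6f9ebef7297e2312fb7b95f7d5abf0eb57e3002fd4af)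 b53675 (.hit (nat_lit 7) (nat_lit 17) (nat_lit 0x17d4752fb48d5fa2fabefe317ddaeafb91f5f6da4bef3357e1b2afb6bc5f7b60bf672d7ed3aafd998) b53680 (.one (nat_lit 9) (nat_lit 3) (nat_lit 12) (nat_lit 0x17db23afc1ea5fcb56bf33a57e45d2fc67c5f885ebf28a97e8612fc4195f961abf40357e9302fdd55) b53676 (.nil)))) (.tok (nat_lit 56) (nat_lit 0x17dbd22fc3475fd2dabf39197e50bafc7d95f8b18bf2e1d7e90fafc5765f98d4bf53617eac4afe4d8) (.hit (nat_lit 4) (nat_lit 13) (nat_lit 0x17d7be2fbb1f5fbc1ebf18797e0f7afbfb15f7ac8bf0d7d7e4fbafbd4e5f8884bf25b57e5caafdb7a) b53677 (.hit (nat_lit 9) (nat_lit 19) (nat_lit 0x17d5b02fb7035fa626bf08097dee9afbb955f7290befd0d7e2edafb9325f804cbf53617eac4afd3b5) b53682 (.one (nat_lit 6) (nat_lit 5) (nat_lit 14) (nat_lit 0x17dbd22fc3475fd2dabf39197e50bafc7d95f8b18bf2e1d7e90fafc5765f98d4bf45a97e9deafe4d8) b53678 (.nil)))) (.one (nat_lit 68) (nat_lit 8) (nat_lit 18) (nat_lit 0x17db04afc1ac5fbbf6bf32ad7e43e2fc63e5f87e2bf27b17e8422fc3db5f959ebf8f697f245afe2b7)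 b53681 (.nil)))))) (.tok (nat_lit 52) (nat_lit 0x17d66d2fb87d5fb3c8bf0df17dfa6afbd0f5f7584bf02f57e3aaafbaac5f8340bf6ba97ee51afd9c7) (.hit (nat_lit 19) (nat_lit 39) (nat_lit 0x17d4d82fb5535f994abf01497de11afb9e55f6f30bef64d7e215afb7825f7cecbf552d7ed17afd879) b53683 (.hit (nat_lit 20) (nat_lit 40) (nat_lit 0x17d66d2fb87d5fb3c8bf0df17dfa6afbd0f5f7584bf02f57e3aaafbaac5f8340bf6ba97ee51afd9c7) b53684 (.nil))) (.tok (nat_lit 55) (nat_lit 0x17edb42fe1e75fe23ebf81157f53a2fd9a65fd4ecbf89bd7f59aafe6f05fd456bfb9517f82daff32e) (.hit (nat_lit 21) (nat_lit 41) (nat_lit 0x17edb42fded45fde8ebf68817f53a2fd43e5fd4ecbf89bd7f59aafe6f05fd456bfb9517f82daff0fb) b53685 (.tok (nat_lit 3) (nat_lit 0x17debcafc91c5fe23ebf506d7e7f62fcdae5f96c2bf45717ebfa2fcb4b5fa47ebf5cfd7ecc92ff32e) (.hit (nat_lit 27) (nat_lit 47) (nat_lit 0x17dae92fc1755fc956bf31d17e422afc6075f8774bf26d57e826afc3a45f9530bf3e617e8f5afe46e)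 b53691 (.one (nat_lit 67) (nat_lit 28) (nat_lit 48) (nat_lit 0x17debcafc91c5fe23ebf506d7e7f62fcdae5f96c2bf45717ebfa2fcb4b5fa47ebf5cfd7ecc92ff32e) b53692 (.nil))) (.tok (nat_lit 6) (nat_lit 0x17e75a2fe1e75fd36abf81157ef032fd9a65fa4c4bf61757ef7aafd24c5fb280bf79017f049afeaed) (.hit (nat_lit 22) (nat_lit 42) (nat_lit 0x17e047afd1f85fc308bf64a97ebcaafd3425f91c2bf3b717eaba2fc8cb5f9f7ebf52fd7eb892fe1aa) b53686 (.hit (nat_lit 25) (nat_lit 45) (nat_lit 0x17db15afc1ce5fc0f0bf33357e44f2fc6605f8826bf28397e8532fc3fd5f95e2bf3fc57e9222fe27f) b53689 (.tok (nat_lit 55) (nat_lit 0x17e75a2fe1e75fd36abf81157ef032fd9a65fa4c4bf61757ef7aafd24c5fb280bf79017f049afeaed) (.hit (nat_lit 23) (nat_lit 43) (nat_lit 0x17e75a2fe1e75fc4f4bf81157ef032fd9a65fa4c4bf61757ef7aafd24c5fb280bf79017f049afe3a9) b53687 (.hit (nat_lit 26) (nat_lit 46) (nat_lit 0x17e05aafcc585fd36abf5d5d7e9942fd0ea5f9d3abf52617ed982fce875faaf6bf69ed7ee672feaed)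 b53690 (.one (nat_lit 6) (nat_lit 24) (nat_lit 44) (nat_lit 0x17df8f2fcac15fc326bf57017e8c8afcf535f9a0cbf4c057ecccafccf05fa7c8bf63917ed9bafe1ec) b53688 (.nil)))) (.nil)))) (.nil)))) (.one (nat_lit 58) (nat_lit 29) (nat_lit 49) (nat_lit 0x17da852fc0ad5fc140bf2eb17e3beafc53f5f85e4bf23b57e7c2afc2dc5f93a0bf84817f2942fe50a) b53693 (.nil)))))) (.tok (nat_lit 9) (nat_lit 0x180000300000600000c0000180000300000600394c0000180000300000600000c0000180000300000) (.hit (nat_lit 157) (nat_lit 0) (nat_lit 0x17e581afe0c85fb4fcbf5d4d7ea502fd15f5fb35abf660d7f27cafd9ea5fb62cbf7c597efa82fdce7) b53694 (.tok (nat_lit 9) (nat_lit 0x17f2b4affc2c5ff916bfa1c17f4932fe6e55fbe38bfb8fd7fa852feae55fcd88bfadbd7f80e2ff0d4) (.hit (nat_lit 163) (nat_lit 20) (nat_lit 0x17e09dafd4cf5fa51cbf19597e8542fc5045f9038bf40257ea47afcc945f92debf4d097e8472fd1d2) b53695 (.hit (nat_lit 171) (nat_lit 28) (nat_lit 0x17d9cfafba4f5f9f30beb1897e01e2fa5925f6462bf06317e4d8afcf955f9700bf44e57e6c72fce9b)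 b53698 (.tok (nat_lit 14) (nat_lit 0x17f2b4affc2c5ff916bfa1c17f4932fe6e55fbe38bfb8fd7fa852feae55fcd88bfadbd7f80e2ff0d4) (.hit (nat_lit 167) (nat_lit 24) (nat_lit 0x17f10aaff7e05ff672bf9b7d7f17f2fe3125fb278bfb2517f7afafe5805fc6d8bfa0c57f528afea9b) b53696 (.hit (nat_lit 173) (nat_lit 30) (nat_lit 0x17e80dafd5f55fdf48bf23f17ee28afc20e5f9972bf64897f2adafe32a5fc218bfa4657f1672fdfc1) b53699 (.one (nat_lit 6) (nat_lit 168) (nat_lit 25) (nat_lit 0x17f2b4affc2c5ff916bfa1c17f4932fe6e55fbe38bfb8fd7fa852feae55fcd88bfadbd7f80e2ff0d4) b53697 (.nil)))) (.one (nat_lit 56) (nat_lit 174) (nat_lit 31) (nat_lit 0x17e41b2fcfb95fc240bf07f17eac7afbb0e5f8b72bf48897ecfd2fdcf15fbfeabf7fe97eeb1afdbcd) b53700 (.nil))))) (.tok (nat_lit 64) (nat_lit 0x17e6ceafe3985fc1f2bf26097ee71afc2b05f9a9abf6b217fc722ff0c55fe4a6bfc25d7f8192feada) (.hit (nat_lit 182) (nat_lit 50) (nat_lit 0x17e5b52fe3985fbfb6bf26097ee71afc2b05f9a9abf66f97fc722ff0c55fe4a6bfc25d7f8192fe92c)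 b53701 (.hit (nat_lit 183) (nat_lit 51) (nat_lit 0x17e6ceafdd045fc1f2bf1ae57ebfaafbf915f9648bf6b217f9a9afd7be5fb174bf75fd7ed662feada) b53702 (.nil))) (.tok (nat_lit 67) (nat_lit 0x180000300000600000c0000180000300000600394c0000180000300000600000c0000180000300000) (.hit (nat_lit 184) (nat_lit 52) (nat_lit 0x17f8023000005fedc6bffec57ff40aff4a3600394bff655800002ffc185ffb90bfe8b17fddb2ff715) b53703 (.tok (nat_lit 3) (nat_lit 0x1800002ffe05600000c00001800003000005fdc90c000017ff752ffc3d5ff36cc00001800002ffe43) (.hit (nat_lit 190) (nat_lit 58) (nat_lit 0x17f3222fef8b5fe862bfd6197ff00aff5875fc186bfb4e57f9c52fee185fd416bfbc557f744afecf2) b53706 (.one (nat_lit 55) (nat_lit 191) (nat_lit 59) (nat_lit 0x1800002ffe05600000c00001800003000005fdc90c000017ff752ffc3d5ff36cc00001800002ffe43) b53707 (.nil))) (.tok (nat_lit 9) (nat_lit 0x17f1f62fed305ff94ebf6f257f87c2fdc9e5fbf44bfb02d7fb32b00000600000bfee097fffc300000)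 (.hit (nat_lit 185) (nat_lit 53) (nat_lit 0x17f1f62fe6055fd670bf6f257f87c2fdc9e5fbf44bfb02d7f954300000600000bfee097fffc2fed9f) b53704 (.hit (nat_lit 188) (nat_lit 56) (nat_lit 0x17eba62fed305ff94ebf50cd7f0ceafcdc65fa9a6bf91dd7fb32afde815fc1babf8bc57f166300000) b53705 (.nil))) (.nil)))) (.one (nat_lit 70) (nat_lit 192) (nat_lit 60) (nat_lit 0x17eb1f2fe1a65fe3eabf3e717f121afc8835fa82cbf8ee97fa4f2ffbe35ff866bfebd17fc542fecb9) b53708 (.nil)))))) (.nil))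
noncomputable def r76_14 : Rw Blk := .tok (nat_lit 6) (nat_lit 0x5e0000bc00017f9b93001ad) (.hit (nat_lit 51) (nat_lit 0) (nat_lit 0x5e0000bc00017ee012fea6b) b53709 (.tok (nat_lit 14) (nat_lit 0x5e0000bc00017f3e4aff0d6) (.hit (nat_lit 62) (nat_lit 61) (nat_lit 0x5e0000bc00017f3e4afee33) b53710 (.one (nat_lit 3) (nat_lit 63) (nat_lit 62) (nat_lit 0x5e0000bc00017f31a2fe49b) b53711 (.tok (nat_lit 6) (nat_lit 0x5e0000bc00017eeb42fed6f) (.hit (nat_lit 66) (nat_lit 65) (nat_lit 0x5e0000bc00017e9972fed6f) b53712 (.hit (nat_lit 67) (nat_lit 66) (nat_lit 0x5e0000bc00017eeb42febb1) b53713 (.nil))) (.tok (nat_lit 9) (nat_lit 0x5e0000bc00017f2252ff0d6) (.hit (nat_lit 64) (nat_lit 63) (nat_lit 0x5e0000bc00017f2252ff0d6) b53714 (.hit (nat_lit 65) (nat_lit 64) (nat_lit 0x5e0000bc00017ef67afed65) b53715 (.nil))) (.nil))))) (.one (nat_lit 17) (nat_lit 68) (nat_lit 67) (nat_lit 0x5e0000bc00017ee172fda0a)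 b53716 (.tok (nat_lit 20) (nat_lit 0x5e0000bc00017f89faff25f) (.hit (nat_lit 69) (nat_lit 68) (nat_lit 0x5e0000bc00017f89faff25f) b53719 (.hit (nat_lit 70) (nat_lit 69) (nat_lit 0x5e0000bc00017eeceafd876) b53720 (.nil))) (.tok (nat_lit 23) (nat_lit 0x5e0000bc00017ed752fd976) (.hit (nat_lit 71) (nat_lit 70) (nat_lit 0x5e0000bc00017df9aafd976) b53717 (.hit (nat_lit 72) (nat_lit 71) (nat_lit 0x5e0000bc00017ed752fd876) b53718 (.nil))) (.one (nat_lit 26) (nat_lit 73) (nat_lit 72) (nat_lit 0x5e0000bc00017e5f62fc606) b53721 (.one (nat_lit 29) (nat_lit 74) (nat_lit 73) (nat_lit 0x5e0000bc00017e5882fc918) b53722 (.one (nat_lit 32) (nat_lit 75) (nat_lit 74) (nat_lit 0x5e0000bc00017e4caafcbf5) b53724 (.one (nat_lit 35) (nat_lit 76) (nat_lit 75) (nat_lit 0x5e0000bc00017ea122fcbf5) b53723 (.one (nat_lit 50) (nat_lit 84) (nat_lit 83) (nat_lit 0x5e0000bc00017ed40afd3b8) b53734 (.tok (nat_lit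 53) (nat_lit 0x5e0000bc00017edb3afdc48) (.hit (nat_lit 85) (nat_lit 84) (nat_lit 0x5e0000bc00017e11aafdc48) b53735 (.hit (nat_lit 86) (nat_lit 85) (nat_lit 0x5e0000bc00017edb3afd475) b53736 (.nil))) (.tok (nat_lit 56) (nat_lit 0x5e0000bc00017f9b93001ad) (.hit (nat_lit 87) (nat_lit 86) (nat_lit 0x5e0000bc00017f96daffd87) b53737 (.one (nat_lit 3) (nat_lit 91) (nat_lit 90) (nat_lit 0x5e0000bc00017f9b92ff247) b53741 (.tok (nat_lit 6) (nat_lit 0x5e0000bc00017f57b2fea1c) (.hit (nat_lit 89) (nat_lit 88) (nat_lit 0x5e0000bc00017f57b2fea1c) b53739 (.hit (nat_lit 90) (nat_lit 89) (nat_lit 0x5e0000bc00017eff52fdd06) b53740 (.nil))) (.one (nat_lit 9) (nat_lit 88) (nat_lit 87) (nat_lit 0x5e0000bc00017f450b001ad) b53738 (.nil))))) (.one (nat_lit 59) (nat_lit 92) (nat_lit 91) (nat_lit 0x5e0000bc00017e9ff2fc91a) b53742 (.one (nat_lit 62) (nat_lit 93) (nat_lit 92) (nat_lit 0x5e0000bc00017e97cafd3b8)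 b53725 (.tok (nat_lit 65) (nat_lit 0x5e0000bc00017ed33afdf4a) (.hit (nat_lit 94) (nat_lit 93) (nat_lit 0x5e0000bc00017e7112fdf4a) b53726 (.hit (nat_lit 95) (nat_lit 94) (nat_lit 0x5e0000bc00017ed33afd543) b53727 (.nil))) (.tok (nat_lit 68) (nat_lit 0x5e0000bc00017ededafecec) (.hit (nat_lit 96) (nat_lit 95) (nat_lit 0x5e0000bc00017ededafecec) b53728 (.one (nat_lit 3) (nat_lit 100) (nat_lit 99) (nat_lit 0x5e0000bc00017e149afdcd4) b53732 (.one (nat_lit 6) (nat_lit 97) (nat_lit 96) (nat_lit 0x5e0000bc00017e53f2fe4bf) b53729 (.tok (nat_lit 9) (nat_lit 0x5e0000bc00017e69b2fe777) (.hit (nat_lit 98) (nat_lit 97) (nat_lit 0x5e0000bc00017e69b2fe777) b53730 (.hit (nat_lit 99) (nat_lit 98) (nat_lit 0x5e0000bc00017e3f5afe22c) b53731 (.nil))) (.nil))))) (.one (nat_lit 71) (nat_lit 101) (nat_lit 100) (nat_lit 0x5e0000bc00017e9b1afc81a) b53733 (.nil)))))))))))))))))) (.tok (nat_lit 52) (nat_lit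 0x5e0000bc0001800003017c1) (.hit (nat_lit 225) (nat_lit 0) (nat_lit 0x5e0000bc00017fe763017c1) b53743 (.tok (nat_lit 6) (nat_lit 0x5e0000bc0001800003014a1) (.hit (nat_lit 226) (nat_lit 7) (nat_lit 0x5e0000bc0001800003014a1) b53746 (.hit (nat_lit 227) (nat_lit 15) (nat_lit 0x5e0000bc00017f47530013b) b53747 (.nil))) (.tok (nat_lit 9) (nat_lit 0x5e0000bc00017f1d4affde3) (.hit (nat_lit 228) (nat_lit 20) (nat_lit 0x5e0000bc00017e6ec2ff10d) b53744 (.hit (nat_lit 229) (nat_lit 28) (nat_lit 0x5e0000bc00017f1d4affde3) b53745 (.nil))) (.nil)))) (.tok (nat_lit 55) (nat_lit 0x5e0000bc00017f661b00606) (.hit (nat_lit 250) (nat_lit 0) (nat_lit 0x5e0000bc00017f661aff21d) b53756 (.tok (nat_lit 3) (nat_lit 0x5e0000bc00017f168b00606) (.hit (nat_lit 251) (nat_lit 1) (nat_lit 0x5e0000bc00017e3e12feaf7) b53757 (.one (nat_lit 67) (nat_lit 252) (nat_lit 2) (nat_lit 0x5e0000bc00017f168b00606) b53758 (.nil)))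 (.tok (nat_lit 6) (nat_lit 0x5e0000bc00017ed372ffda3) (.hit (nat_lit 253) (nat_lit 7) (nat_lit 0x5e0000bc00017e6e2aff0fa) b53759 (.hit (nat_lit 256) (nat_lit 15) (nat_lit 0x5e0000bc00017e357afe9e4) b53762 (.tok (nat_lit 55) (nat_lit 0x5e0000bc00017ed372ffda3) (.hit (nat_lit 254) (nat_lit 8) (nat_lit 0x5e0000bc00017e8cc2ff4cd) b53760 (.hit (nat_lit 257) (nat_lit 16) (nat_lit 0x5e0000bc00017ed372ffda3) b53763 (.one (nat_lit 6) (nat_lit 255) (nat_lit 9) (nat_lit 0x5e0000bc00017ebf22ffb19) b53761 (.nil)))) (.nil)))) (.nil)))) (.tok (nat_lit 58) (nat_lit 0x5e0000bc00017fb04b01820) (.hit (nat_lit 236) (nat_lit 0) (nat_lit 0x5e0000bc00017fb04aff829) b53748 (.tok (nat_lit 3) (nat_lit 0x5e0000bc00017f4aab00c8a) (.hit (nat_lit 237) (nat_lit 1) (nat_lit 0x5e0000bc00017e3ac2fea8d) b53749 (.one (nat_lit 55) (nat_lit 238) (nat_lit 3) (nat_lit 0x5e0000bc00017f4aab00c8a) b53750 (.nil))) (.tok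 (nat_lit 9) (nat_lit 0x5e0000bc00017fa75b01820) (.hit (nat_lit 239) (nat_lit 20) (nat_lit 0x5e0000bc00017ea44aff7be) b53751 (.hit (nat_lit 242) (nat_lit 28) (nat_lit 0x5e0000bc00017e6a32ff07b) b53754 (.tok (nat_lit 67) (nat_lit 0x5e0000bc00017fa75b01820) (.hit (nat_lit 240) (nat_lit 21) (nat_lit 0x5e0000bc00017efce3002d1) b53752 (.hit (nat_lit 243) (nat_lit 29) (nat_lit 0x5e0000bc00017f223b0077c) b53755 (.one (nat_lit 9) (nat_lit 241) (nat_lit 22) (nat_lit 0x5e0000bc00017fa75b01820) b53753 (.nil)))) (.nil)))) (.nil)))) (.nil))))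
noncomputable def r76_15 : Rw Blk := .tok (nat_lit 3) (nat_lit 0x5e0000bc0001802b630107d) (.hit (nat_lit 15) (nat_lit 0) (nat_lit 0x5e0000bc00017f102affa5a) b53775 (.tok (nat_lit 9) (nat_lit 0x5e0000bc00017e7f6aff2f1) (.hit (nat_lit 16) (nat_lit 20) (nat_lit 0x5e0000bc00017de912fe026) b53776 (.hit (nat_lit 21) (nat_lit 28) (nat_lit 0x5e0000bc00017d2b02fc864) b53779 (.one (nat_lit 56) (nat_lit 23) (nat_lit 31) (nat_lit 0x5e0000bc00017e205afe70f) b53780 (.tok (nat_lit 68) (nat_lit 0x5e0000bc00017e7f6aff2f1) (.hit (nat_lit 19) (nat_lit 26) (nat_lit 0x5e0000bc00017e2b1afe867) b53777 (.hit (nat_lit 24) (nat_lit 32) (nat_lit 0x5e0000bc00017e31f2fe942) b53781 (.one (nat_lit 9) (nat_lit 20) (nat_lit 27) (nat_lit 0x5e0000bc00017e7f6aff2f1) b53778 (.nil)))) (.nil))))) (.tok (nat_lit 64) (nat_lit 0x5e0000bc00017e8692ff3d6) (.hit (nat_lit 25) (nat_lit 50) (nat_lit 0x5e0000bc00017e1d62fe6b0)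 b53782 (.hit (nat_lit 26) (nat_lit 51) (nat_lit 0x5e0000bc00017e8692ff3d6) b53783 (.nil))) (.tok (nat_lit 67) (nat_lit 0x5e0000bc0001802b630107d) (.hit (nat_lit 27) (nat_lit 52) (nat_lit 0x5e0000bc0001802b630107d) b53784 (.one (nat_lit 3) (nat_lit 33) (nat_lit 58) (nat_lit 0x5e0000bc00017e875aff3ef) b53790 (.tok (nat_lit 9) (nat_lit 0x5e0000bc00017e9d2aff6a9) (.hit (nat_lit 28) (nat_lit 53) (nat_lit 0x5e0000bc00017e4c52fec8e) b53785 (.hit (nat_lit 31) (nat_lit 56) (nat_lit 0x5e0000bc00017e660afefc5) b53788 (.tok (nat_lit 67) (nat_lit 0x5e0000bc00017e9d2aff6a9) (.hit (nat_lit 29) (nat_lit 54) (nat_lit 0x5e0000bc00017e9d2aff6a9) b53786 (.hit (nat_lit 32) (nat_lit 57) (nat_lit 0x5e0000bc00017e9542ff5ac) b53789 (.one (nat_lit 9) (nat_lit 30) (nat_lit 55) (nat_lit 0x5e0000bc00017e46dafebdf) b53787 (.nil)))) (.nil)))) (.nil)))) (.one (nat_lit 70) (nat_lit 35) (nat_lit 60) (nat_lit 0x5e0000bc00017e7dbaff2bb)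 b53791 (.nil)))))) (.tok (nat_lit 6) (nat_lit 0x5e0000bc000180c94303311) (.hit (nat_lit 0) (nat_lit 0) (nat_lit 0x5e0000bc00017faecb00e70) b53764 (.tok (nat_lit 6) (nat_lit 0x5e0000bc00017fa0e2ffbd4) (.hit (nat_lit 1) (nat_lit 7) (nat_lit 0x5e0000bc00017efa6afeda6) b53765 (.hit (nat_lit 4) (nat_lit 15) (nat_lit 0x5e0000bc00017e9f02fe135) b53766 (.one (nat_lit 68) (nat_lit 6) (nat_lit 18) (nat_lit 0x5e0000bc00017fa0e2ffbd4) b53767 (.nil)))) (.tok (nat_lit 52) (nat_lit 0x5e0000bc00018041cb019f1) (.hit (nat_lit 7) (nat_lit 39) (nat_lit 0x5e0000bc00017ffd73018c3) b53768 (.hit (nat_lit 8) (nat_lit 40) (nat_lit 0x5e0000bc00018041cb019f1) b53769 (.nil))) (.tok (nat_lit 55) (nat_lit 0x5e0000bc00018018a301aa0) (.hit (nat_lit 9) (nat_lit 41) (nat_lit 0x5e0000bc00018018a301aa0) b53770 (.one (nat_lit 3) (nat_lit 12) (nat_lit 47) (nat_lit 0x5e0000bc00017fdc63013e6) b53773 (.tok (nat_lit 6)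 (nat_lit 0x5e0000bc00017fb90b00e7e) (.hit (nat_lit 10) (nat_lit 42) (nat_lit 0x5e0000bc00017f4e9b00e7e) b53771 (.hit (nat_lit 11) (nat_lit 45) (nat_lit 0x5e0000bc00017fb90b00688) b53772 (.nil))) (.nil)))) (.one (nat_lit 58) (nat_lit 14) (nat_lit 49) (nat_lit 0x5e0000bc000180c94303311) b53774 (.nil)))))) (.nil))
noncomputable def r76_16 : Rw Blk := .tok (nat_lit 9) (nat_lit 0x1780002f00005ff720c0786d80b72b00ce4) (.hit (nat_lit 0) (nat_lit 0) (nat_lit 0x1780002f00005fa89abf8e997ecb42fd9b7) b53792 (.tok (nat_lit 14) (nat_lit 0x1780002f00005ff19cbf93597f34fafe9df) (.hit (nat_lit 21) (nat_lit 61) (nat_lit 0x1780002f00005fd8fcbf6de17ef29afe10b) b53793 (.one (nat_lit 3) (nat_lit 22) (nat_lit 62) (nat_lit 0x1780002f00005fe1a6bf69b57ea37afe9df) b53794 (.tok (nat_lit 6) (nat_lit 0x1780002f00005ff19cbf93597f34fafe90b) (.hit (nat_lit 25) (nat_lit 65) (nat_lit 0x1780002f00005ff19cbf93597f34fafe90b)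 b53795 (.hit (nat_lit 26) (nat_lit 66) (nat_lit 0x1780002f00005fb5aebf4db17ead5afd799) b53796 (.nil))) (.tok (nat_lit 9) (nat_lit 0x1780002f00005fb8b0bf7fbd7ed142fdf54) (.hit (nat_lit 23) (nat_lit 63) (nat_lit 0x1780002f00005f71fcbf54797ebaeafd94b) b53797 (.hit (nat_lit 24) (nat_lit 64) (nat_lit 0x1780002f00005fb8b0bf7fbd7ed142fdf54) b53798 (.nil))) (.nil))))) (.one (nat_lit 17) (nat_lit 27) (nat_lit 67) (nat_lit 0x1780002f00005fc724bf61057e92b2fd706) b53799 (.tok (nat_lit 20) (nat_lit 0x1780002f00005fa764bf2f317e3502fca12) (.hit (nat_lit 28) (nat_lit 68) (nat_lit 0x1780002f00005f5082bf11857e3502fc88e) b53802 (.hit (nat_lit 29) (nat_lit 69) (nat_lit 0x1780002f00005fa764bf2f317e2d32fca12) b53803 (.nil))) (.tok (nat_lit 23) (nat_lit 0x1780002f00005ff720c0786d80b72b00ce4) (.hit (nat_lit 30) (nat_lit 70) (nat_lit 0x1780002f00005ff720c0786d80b72b00ce4) b53800 (.hit (nat_lit 31) (nat_lit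 71) (nat_lit 0x1780002f00005fad28bf36e57e526afcc6b) b53801 (.nil))) (.one (nat_lit 26) (nat_lit 32) (nat_lit 72) (nat_lit 0x1780002f00005f998ebf0da17dfe62fc1f7) b53804 (.one (nat_lit 29) (nat_lit 33) (nat_lit 73) (nat_lit 0x1780002f00005fa412bf29357e30c2fd0f4) b53805 (.one (nat_lit 32) (nat_lit 34) (nat_lit 74) (nat_lit 0x1780002f00005fb926bf29b17e30f2fd1d2) b53807 (.one (nat_lit 35) (nat_lit 35) (nat_lit 75) (nat_lit 0x1780002f00005f8a20beebbd7dc5dafbb0a) b53806 (.one (nat_lit 38) (nat_lit 36) (nat_lit 76) (nat_lit 0x1780002f00005fa43ebf25c57e4592fcaa0) b53808 (.tok (nat_lit 41) (nat_lit 0x1780002f00005f9c24bf3ce17e5daafcf1b) (.hit (nat_lit 37) (nat_lit 77) (nat_lit 0x1780002f00005f8f86bef4657dc692fc756) b53809 (.hit (nat_lit 38) (nat_lit 78) (nat_lit 0x1780002f00005f9c24bf3ce17e5daafcf1b) b53810 (.nil))) (.tok (nat_lit 44) (nat_lit 0x1780002f00005fce66bf52357e79eafdca3) (.hit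 (nat_lit 39) (nat_lit 79) (nat_lit 0x1780002f00005f41b0bef3e17df9bafc125) b53813 (.hit (nat_lit 40) (nat_lit 80) (nat_lit 0x1780002f00005fce66bf52357e79eafdca3) b53814 (.nil))) (.tok (nat_lit 47) (nat_lit 0x1780002f00005fbaf4bf71c17e7caafd8e7) (.hit (nat_lit 41) (nat_lit 81) (nat_lit 0x1780002f00005fbaf4bf71c17e7caafd8e7) b53811 (.hit (nat_lit 42) (nat_lit 82) (nat_lit 0x1780002f00005fa378befbc17de59afc73e) b53812 (.nil))) (.one (nat_lit 50) (nat_lit 43) (nat_lit 83) (nat_lit 0x1780002f00005f9914bf10ad7e17dafc4e9) b53815 (.tok (nat_lit 53) (nat_lit 0x1780002f00005fb0b4bf2e1d7e36cafcd87) (.hit (nat_lit 44) (nat_lit 84) (nat_lit 0x1780002f00005fb0b4bf17ad7e2be2fcd87) b53816 (.hit (nat_lit 45) (nat_lit 85) (nat_lit 0x1780002f00005f864cbf2e1d7e36cafc766) b53817 (.nil))) (.tok (nat_lit 56) (nat_lit 0x1780002f00005f9602bf8a517ee27afde82) (.hit (nat_lit 46) (nat_lit 86) (nat_lit 0x1780002f00005f9602bf8a517ee27afde82)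 b53818 (.one (nat_lit 3) (nat_lit 50) (nat_lit 90) (nat_lit 0x1780002f00005f4f88bf0f917e311afc811) b53822 (.tok (nat_lit 6) (nat_lit 0x1780002f00005f73a6bf57cd7ec192fda20) (.hit (nat_lit 48) (nat_lit 88) (nat_lit 0x1780002f00005f73a6bf57cd7ec192fda20) b53820 (.hit (nat_lit 49) (nat_lit 89) (nat_lit 0x1780002f00005f6302bf36857e7f02fd1ce) b53821 (.nil))) (.one (nat_lit 9) (nat_lit 47) (nat_lit 87) (nat_lit 0x1780002f00005f57cebf201d7e5232fcc34) b53819 (.nil))))) (.one (nat_lit 59) (nat_lit 51) (nat_lit 91) (nat_lit 0x1780002f00005fa662bf21957e1d3afc968) b53823 (.nil)))))))))))))))))) (.tok (nat_lit 64) (nat_lit 0x1780002f0000600000c05b9d804e6b00c19) (.hit (nat_lit 176) (nat_lit 0) (nat_lit 0x1780002f0000600000c05b9d804e6b00c19) b53824 (.tok (nat_lit 6) (nat_lit 0x1780002f00005fd1d6bfd3a17f5672ff6bd) (.hit (nat_lit 177) (nat_lit 7) (nat_lit 0x1780002f00005faaa6bfaa9d7f2d02fe798)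 b53827 (.hit (nat_lit 178) (nat_lit 15) (nat_lit 0x1780002f00005fd1d6bfd3a17f5672ff6bd) b53828 (.nil))) (.tok (nat_lit 9) (nat_lit 0x1780002f00005fd834bffaed7f993affbdd) (.hit (nat_lit 179) (nat_lit 20) (nat_lit 0x1780002f00005fd834bffaed7f993affbdd) b53825 (.hit (nat_lit 180) (nat_lit 28) (nat_lit 0x1780002f00005fb672bfb0d97f1042fed4f) b53826 (.nil))) (.nil)))) (.tok (nat_lit 67) (nat_lit 0x1780002f00005fc552bfc5157f61f2fee36) (.hit (nat_lit 201) (nat_lit 0) (nat_lit 0x1780002f00005fc552bfb3797f3ebafe9cf) b53829 (.tok (nat_lit 3) (nat_lit 0x1780002f00005fb7e2bfc5157f61f2fee36) (.hit (nat_lit 202) (nat_lit 1) (nat_lit 0x1780002f00005f8a9abf6a857eacd2fd792) b53830 (.one (nat_lit 55) (nat_lit 203) (nat_lit 3) (nat_lit 0x1780002f00005fb7e2bfc5157f61f2fee36) b53831 (.nil))) (.tok (nat_lit 9) (nat_lit 0x1780002f00005f9fa4bf94997f00fafe217) (.hit (nat_lit 204) (nat_lit 20) (nat_lit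 0x1780002f00005f9fa4bf94997f00fafe217) b53832 (.hit (nat_lit 207) (nat_lit 28) (nat_lit 0x1780002f00005f8c46bf6ddd7eb382fd868) b53833 (.nil))) (.nil)))) (.tok (nat_lit 70) (nat_lit 0x1780002f00005fe010c015718002ab0024d) (.hit (nat_lit 187) (nat_lit 0) (nat_lit 0x1780002f00005fcef0bfe8357f809afee74) b53834 (.tok (nat_lit 3) (nat_lit 0x1780002f00005fcdc2bff0d57fb972ff926) (.hit (nat_lit 188) (nat_lit 1) (nat_lit 0x1780002f00005f9a94bf8a797eecbafdf8f) b53835 (.one (nat_lit 67) (nat_lit 189) (nat_lit 2) (nat_lit 0x1780002f00005fcdc2bff0d57fb972ff926) b53836 (.nil))) (.tok (nat_lit 6) (nat_lit 0x1780002f00005fe010c015718002ab0024d) (.hit (nat_lit 190) (nat_lit 7) (nat_lit 0x1780002f00005f9e7abf92457efc52fe182) b53837 (.hit (nat_lit 193) (nat_lit 15) (nat_lit 0x1780002f00005f9ed4bf92f97efdbafe1af) b53840 (.tok (nat_lit 55) (nat_lit 0x1780002f00005fe010c015718002ab0024d) (.hit (nat_lit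 191) (nat_lit 8) (nat_lit 0x1780002f00005fb868bfc6217f640afee79) b53838 (.hit (nat_lit 194) (nat_lit 16) (nat_lit 0x1780002f00005fd34abffbe57fcf92ffbea) b53841 (.one (nat_lit 6) (nat_lit 192) (nat_lit 9) (nat_lit 0x1780002f00005fe010c015718002ab0024d) b53839 (.nil)))) (.nil)))) (.nil)))) (.nil))))
noncomputable def r76_17 : Rw Blk := .tok (nat_lit 3) (nat_lit 0x1780002f000060271cc054cd80a96301523) (.hit (nat_lit 15) (nat_lit 0) (nat_lit 0x1780002f0000600806bfdc457fb52b007b3) b53849 (.tok (nat_lit 6) (nat_lit 0x1780002f00005fc852bf9c297f3fdafeeae) (.hit (nat_lit 16) (nat_lit 7) (nat_lit 0x1780002f00005f822abf12b97e2cfafc77d) b53850 (.hit (nat_lit 21) (nat_lit 15) (nat_lit 0x1780002f00005fa0e6bee4bd7dd102fdb9a) b53855 (.tok (nat_lit 14) (nat_lit 0x1780002f00005fc852bf82957f0cb2feeae) (.hit (nat_lit 17) (nat_lit 11) (nat_lit 0x1780002f00005fa4d2bf40297e87dafd71a) b53851 (.hit (nat_lit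 22) (nat_lit 17) (nat_lit 0x1780002f00005fb7e4bf82957f0cb2feeae) b53856 (.one (nat_lit 9) (nat_lit 18) (nat_lit 12) (nat_lit 0x1780002f00005fc852bf4ec57ea512fe8da) b53852 (.nil)))) (.tok (nat_lit 56) (nat_lit 0x1780002f00005fbb7cbf9c297f3fdafe9d9) (.hit (nat_lit 19) (nat_lit 13) (nat_lit 0x1780002f00005fa438bf34ed7e7162fd6cd) b53853 (.hit (nat_lit 24) (nat_lit 19) (nat_lit 0x1780002f00005fb0dcbf729d7eecc2fe174) b53857 (.one (nat_lit 6) (nat_lit 20) (nat_lit 14) (nat_lit 0x1780002f00005fbb7cbf9c297f3fdafe9d9) b53854 (.nil)))) (.nil))))) (.tok (nat_lit 52) (nat_lit 0x1780002f00005fd62ebfa0117f47aaff902) (.hit (nat_lit 25) (nat_lit 39) (nat_lit 0x1780002f00005fcc02bf7ea57f04d2feb98) b53858 (.hit (nat_lit 26) (nat_lit 40) (nat_lit 0x1780002f00005fd62ebfa0117f47aaff902) b53859 (.nil))) (.tok (nat_lit 55) (nat_lit 0x1780002f000060271cc054cd80a96301523) (.hit (nat_lit 27) (nat_lit 41)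 (nat_lit 0x1780002f000060271cc054cd80a96301523) b53860 (.tok (nat_lit 3) (nat_lit 0x1780002f00005fdf9ebf94297f2fdaff480) (.hit (nat_lit 33) (nat_lit 47) (nat_lit 0x1780002f00005fb9bcbf73697eee5afe18f) b53866 (.one (nat_lit 67) (nat_lit 34) (nat_lit 48) (nat_lit 0x1780002f00005fdf9ebf94297f2fdaff480) b53867 (.nil))) (.tok (nat_lit 6) (nat_lit 0x1780002f00005fc9aabf9e817f448afea6f) (.hit (nat_lit 28) (nat_lit 42) (nat_lit 0x1780002f00005fbb90bf7e657f0452fe279) b53861 (.hit (nat_lit 31) (nat_lit 45) (nat_lit 0x1780002f00005fb4ccbf62f17ecd6afdf17) b53864 (.tok (nat_lit 55) (nat_lit 0x1780002f00005fc9aabf9e817f448afea6f) (.hit (nat_lit 29) (nat_lit 43) (nat_lit 0x1780002f00005fc9aabf8e9d7f24c2fe986) b53862 (.hit (nat_lit 32) (nat_lit 46) (nat_lit 0x1780002f00005fc898bf9e817f448afea6f) b53865 (.one (nat_lit 6) (nat_lit 30) (nat_lit 44) (nat_lit 0x1780002f00005fb2c4bf63357ecdf2fde13)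 b53863 (.nil)))) (.nil)))) (.nil)))) (.one (nat_lit 58) (nat_lit 35) (nat_lit 49) (nat_lit 0x1780002f0000601f1abfcde57fa35301251) b53868 (.nil)))))) (.tok (nat_lit 9) (nat_lit 0x1780002f0000601e82c0c099816123020b4) (.hit (nat_lit 0) (nat_lit 0) (nat_lit 0x1780002f0000600b7cc054b5804b1b00e20) b53842 (.tok (nat_lit 9) (nat_lit 0x1780002f0000601e82c0c099816123020b4) (.hit (nat_lit 1) (nat_lit 20) (nat_lit 0x1780002f00005faac8bf9ba97f1452fd604) b53843 (.hit (nat_lit 4) (nat_lit 28) (nat_lit 0x1780002f00005fbd6ebfd8e17f438afdfde) b53846 (.tok (nat_lit 14) (nat_lit 0x1780002f0000601e82c0c099816123020b4) (.hit (nat_lit 2) (nat_lit 24) (nat_lit 0x1780002f00005fd7c8c01bb57fe39aff2dd) b53844 (.hit (nat_lit 5) (nat_lit 30) (nat_lit 0x1780002f00005ff044c02b718016f2ff3e0) b53847 (.one (nat_lit 6) (nat_lit 3) (nat_lit 25) (nat_lit 0x1780002f0000601e82c0c099816123020b4) b53845 (.nil)))) (.one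 (nat_lit 56) (nat_lit 6) (nat_lit 31) (nat_lit 0x1780002f0000600f4ec06cc580de330090c) b53848 (.nil))))) (.nil))) (.nil))
noncomputable def r76_18 : Rw Blk := .tok (nat_lit 9) (nat_lit 0x5e0000bc000182358305a25) (.hit (nat_lit 0) (nat_lit 0) (nat_lit 0x5e0000bc00017fc1fb00a13) b53869 (.tok (nat_lit 14) (nat_lit 0x5e0000bc0001818a3b03cea) (.hit (nat_lit 1) (nat_lit 61) (nat_lit 0x5e0000bc00018040db01474) b53870 (.one (nat_lit 3) (nat_lit 2) (nat_lit 62) (nat_lit 0x5e0000bc00018083cb00fbb) b53871 (.tok (nat_lit 6) (nat_lit 0x5e0000bc0001818a3b03cea) (.hit (nat_lit 5) (nat_lit 65) (nat_lit 0x5e0000bc0001818a3b03cea) b53872 (.hit (nat_lit 6) (nat_lit 66) (nat_lit 0x5e0000bc00017fb63300808) b53873 (.nil))) (.tok (nat_lit 9) (nat_lit 0x5e0000bc00017f7fcb005d7) (.hit (nat_lit 3) (nat_lit 63) (nat_lit 0x5e0000bc00017f7fcb005d7) b53874 (.hit (nat_lit 4) (nat_lit 64) (nat_lit 0x5e0000bc00017f368affdf6)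 b53875 (.nil))) (.nil))))) (.one (nat_lit 17) (nat_lit 7) (nat_lit 67) (nat_lit 0x5e0000bc00017f9faaff43c) b53876 (.tok (nat_lit 20) (nat_lit 0x5e0000bc00017f66eaffb9a) (.hit (nat_lit 8) (nat_lit 68) (nat_lit 0x5e0000bc00017f2de2ffb9a) b53879 (.hit (nat_lit 9) (nat_lit 69) (nat_lit 0x5e0000bc00017f66eaff92c) b53880 (.nil))) (.tok (nat_lit 23) (nat_lit 0x5e0000bc000182358305a25) (.hit (nat_lit 10) (nat_lit 70) (nat_lit 0x5e0000bc000182358305a25) b53877 (.hit (nat_lit 11) (nat_lit 71) (nat_lit 0x5e0000bc00017f75dafedd1) b53878 (.nil))) (.one (nat_lit 38) (nat_lit 16) (nat_lit 76) (nat_lit 0x5e0000bc00017f3002ff075) b53881 (.tok (nat_lit 41) (nat_lit 0x5e0000bc00017f0f32ff38d) (.hit (nat_lit 17) (nat_lit 77) (nat_lit 0x5e0000bc00017ecab2fefd7) b53882 (.hit (nat_lit 18) (nat_lit 78) (nat_lit 0x5e0000bc00017f0f32ff38d) b53883 (.nil))) (.tok (nat_lit 44) (nat_lit 0x5e0000bc00017f5b82ff20e)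 (.hit (nat_lit 19) (nat_lit 79) (nat_lit 0x5e0000bc00017eb0cafebf7) b53886 (.hit (nat_lit 20) (nat_lit 80) (nat_lit 0x5e0000bc00017f5b82ff20e) b53887 (.nil))) (.tok (nat_lit 47) (nat_lit 0x5e0000bc00017f6562ffc90) (.hit (nat_lit 21) (nat_lit 81) (nat_lit 0x5e0000bc00017f6562ffc90) b53884 (.hit (nat_lit 22) (nat_lit 82) (nat_lit 0x5e0000bc00017ebc2afe521) b53885 (.nil))) (.one (nat_lit 50) (nat_lit 23) (nat_lit 83) (nat_lit 0x5e0000bc00017fefbaffb5e) b53888 (.tok (nat_lit 53) (nat_lit 0x5e0000bc00017f4fb2ffbbb) (.hit (nat_lit 24) (nat_lit 84) (nat_lit 0x5e0000bc00017f3f52ffbbb) b53889 (.hit (nat_lit 25) (nat_lit 85) (nat_lit 0x5e0000bc00017f4fb2ff2c5) b53890 (.nil))) (.tok (nat_lit 56) (nat_lit 0x5e0000bc000180946b01da0) (.hit (nat_lit 26) (nat_lit 86) (nat_lit 0x5e0000bc000180946b01da0) b53891 (.one (nat_lit 3) (nat_lit 30) (nat_lit 90) (nat_lit 0x5e0000bc00017f6e030039e) b53895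 (.tok (nat_lit 6) (nat_lit 0x5e0000bc00017f5acb00137) (.hit (nat_lit 28) (nat_lit 88) (nat_lit 0x5e0000bc00017f5acb00137) b53893 (.hit (nat_lit 29) (nat_lit 89) (nat_lit 0x5e0000bc00017effbaff5d5) b53894 (.nil))) (.one (nat_lit 9) (nat_lit 27) (nat_lit 87) (nat_lit 0x5e0000bc00017f476affecb) b53892 (.nil))))) (.one (nat_lit 59) (nat_lit 31) (nat_lit 91) (nat_lit 0x5e0000bc00017f6202fea74) b53896 (.nil)))))))))))))) (.nil)
noncomputable def r76_19 : Rw Blk := .tok (nat_lit 9) (nat_lit 0x5e0000bc00017f9c7affe0e) (.hit (nat_lit 0) (nat_lit 0) (nat_lit 0x5e0000bc00017e5a52fdfe8) b53897 (.tok (nat_lit 14) (nat_lit 0x5e0000bc00017f9c7affe0e) (.hit (nat_lit 21) (nat_lit 61) (nat_lit 0x5e0000bc00017f2a7afe92e) b53898 (.one (nat_lit 3) (nat_lit 22) (nat_lit 62) (nat_lit 0x5e0000bc00017ebf2afdf59) b53899 (.tok (nat_lit 6) (nat_lit 0x5e0000bc00017f9c7affe0e) (.hit (nat_lit 25) (nat_lit 65)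 (nat_lit 0x5e0000bc00017f9c7affe0e) b53900 (.hit (nat_lit 26) (nat_lit 66) (nat_lit 0x5e0000bc00017ee6d2fe713) b53901 (.nil))) (.tok (nat_lit 9) (nat_lit 0x5e0000bc00017ec2dafe9bf) (.hit (nat_lit 23) (nat_lit 63) (nat_lit 0x5e0000bc00017e2c9afe67a) b53902 (.hit (nat_lit 24) (nat_lit 64) (nat_lit 0x5e0000bc00017ec2dafe9bf) b53903 (.nil))) (.nil))))) (.one (nat_lit 17) (nat_lit 27) (nat_lit 67) (nat_lit 0x5e0000bc00017e6feafd4c8) b53904 (.tok (nat_lit 20) (nat_lit 0x5e0000bc00017e6e9afdefb) (.hit (nat_lit 28) (nat_lit 68) (nat_lit 0x5e0000bc00017df0a2fdefb) b53907 (.hit (nat_lit 29) (nat_lit 69) (nat_lit 0x5e0000bc00017e6e9afd334) b53908 (.nil))) (.tok (nat_lit 23) (nat_lit 0x5e0000bc00017eb80afe81c) (.hit (nat_lit 30) (nat_lit 70) (nat_lit 0x5e0000bc00017eb80afe81c) b53905 (.hit (nat_lit 31) (nat_lit 71) (nat_lit 0x5e0000bc00017e567afd336) b53906 (.nil))) (.one (nat_lit 26) (nat_lit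 32) (nat_lit 72) (nat_lit 0x5e0000bc00017e334afc510) b53909 (.one (nat_lit 29) (nat_lit 33) (nat_lit 73) (nat_lit 0x5e0000bc00017e25f2fc558) b53910 (.one (nat_lit 32) (nat_lit 34) (nat_lit 74) (nat_lit 0x5e0000bc00017e61dafcad4) b53912 (.one (nat_lit 35) (nat_lit 35) (nat_lit 75) (nat_lit 0x5e0000bc00017de5b2fc6b3) b53911 (.one (nat_lit 38) (nat_lit 36) (nat_lit 76) (nat_lit 0x5e0000bc00017e4da2fd508) b53913 (.tok (nat_lit 41) (nat_lit 0x5e0000bc00017e3ab2fcc13) (.hit (nat_lit 37) (nat_lit 77) (nat_lit 0x5e0000bc00017e3ab2fc809) b53914 (.hit (nat_lit 38) (nat_lit 78) (nat_lit 0x5e0000bc00017e2222fcc13) b53915 (.nil))) (.tok (nat_lit 44) (nat_lit 0x5e0000bc00017e7802fcd99) (.hit (nat_lit 39) (nat_lit 79) (nat_lit 0x5e0000bc00017cde42fbcaf) b53918 (.hit (nat_lit 40) (nat_lit 80) (nat_lit 0x5e0000bc00017e7802fcd99) b53919 (.nil))) (.tok (nat_lit 47) (nat_lit 0x5e0000bc00017e86e2fd085)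 (.hit (nat_lit 41) (nat_lit 81) (nat_lit 0x5e0000bc00017e86e2fd085) b53916 (.hit (nat_lit 42) (nat_lit 82) (nat_lit 0x5e0000bc00017e42d2fc8f2) b53917 (.nil))) (.one (nat_lit 50) (nat_lit 43) (nat_lit 83) (nat_lit 0x5e0000bc00017e422afce76) b53920 (.tok (nat_lit 53) (nat_lit 0x5e0000bc00017e28f2fd529) (.hit (nat_lit 44) (nat_lit 84) (nat_lit 0x5e0000bc00017e024afd529) b53921 (.hit (nat_lit 45) (nat_lit 85) (nat_lit 0x5e0000bc00017e28f2fc8df) b53922 (.nil))) (.tok (nat_lit 56) (nat_lit 0x5e0000bc00017e6132fe9a5) (.hit (nat_lit 46) (nat_lit 86) (nat_lit 0x5e0000bc00017e6132fe9a5) b53923 (.one (nat_lit 3) (nat_lit 50) (nat_lit 90) (nat_lit 0x5e0000bc00017de1fafdd26) b53927 (.tok (nat_lit 6) (nat_lit 0x5e0000bc00017dfb6afe054) (.hit (nat_lit 48) (nat_lit 88) (nat_lit 0x5e0000bc00017dfb6afe054) b53925 (.hit (nat_lit 49) (nat_lit 89) (nat_lit 0x5e0000bc00017de8dafde02) b53926 (.nil)))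 (.one (nat_lit 9) (nat_lit 47) (nat_lit 87) (nat_lit 0x5e0000bc00017dd6f2fdbc5) b53924 (.nil))))) (.one (nat_lit 59) (nat_lit 51) (nat_lit 91) (nat_lit 0x5e0000bc00017e4272fc727) b53928 (.nil)))))))))))))))))) (.tok (nat_lit 64) (nat_lit 0x5e0000bc00017f56ab00b65) (.hit (nat_lit 176) (nat_lit 0) (nat_lit 0x5e0000bc00017f475b00b65) b53929 (.tok (nat_lit 6) (nat_lit 0x5e0000bc00017f177affea5) (.hit (nat_lit 177) (nat_lit 7) (nat_lit 0x5e0000bc00017ea582ff8c6) b53932 (.hit (nat_lit 178) (nat_lit 15) (nat_lit 0x5e0000bc00017f177affea5) b53933 (.nil))) (.tok (nat_lit 9) (nat_lit 0x5e0000bc00017f56ab00a62) (.hit (nat_lit 179) (nat_lit 20) (nat_lit 0x5e0000bc00017f56ab00a62) b53930 (.hit (nat_lit 180) (nat_lit 28) (nat_lit 0x5e0000bc00017ed5a2ffaaf) b53931 (.nil))) (.nil)))) (.tok (nat_lit 67) (nat_lit 0x5e0000bc00017f708afff1d) (.hit (nat_lit 201) (nat_lit 0) (nat_lit 0x5e0000bc00017f708affbd6)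 b53934 (.tok (nat_lit 3) (nat_lit 0x5e0000bc00017ed83afff1d) (.hit (nat_lit 202) (nat_lit 1) (nat_lit 0x5e0000bc00017e6e12ff1d8) b53935 (.one (nat_lit 55) (nat_lit 203) (nat_lit 3) (nat_lit 0x5e0000bc00017ed83afff1d) b53936 (.nil))) (.tok (nat_lit 9) (nat_lit 0x5e0000bc00017e6eaaff1eb) (.hit (nat_lit 204) (nat_lit 20) (nat_lit 0x5e0000bc00017e550afeeb7) b53937 (.hit (nat_lit 207) (nat_lit 28) (nat_lit 0x5e0000bc00017e6eaaff1eb) b53938 (.nil))) (.nil)))) (.tok (nat_lit 70) (nat_lit 0x5e0000bc000180000302416) (.hit (nat_lit 187) (nat_lit 0) (nat_lit 0x5e0000bc00017f084aff91e) b53939 (.tok (nat_lit 3) (nat_lit 0x5e0000bc00017f3bab00b8b) (.hit (nat_lit 188) (nat_lit 1) (nat_lit 0x5e0000bc00017e7772ff304) b53940 (.one (nat_lit 67) (nat_lit 189) (nat_lit 2) (nat_lit 0x5e0000bc00017f3bab00b8b) b53941 (.nil))) (.tok (nat_lit 6) (nat_lit 0x5e0000bc000180000302416) (.hit (nat_lit 190) (nat_lit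 7) (nat_lit 0x5e0000bc00017eb25affa61) b53942 (.hit (nat_lit 193) (nat_lit 15) (nat_lit 0x5e0000bc00017e6812ff118) b53945 (.tok (nat_lit 55) (nat_lit 0x5e0000bc000180000302416) (.hit (nat_lit 191) (nat_lit 8) (nat_lit 0x5e0000bc00017f178300706) b53943 (.hit (nat_lit 194) (nat_lit 16) (nat_lit 0x5e0000bc00017f360b00ad7) b53946 (.one (nat_lit 6) (nat_lit 192) (nat_lit 9) (nat_lit 0x5e0000bc000180000302416) b53944 (.nil)))) (.nil)))) (.nil)))) (.nil))))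
noncomputable def r76_20 : Rw Blk := .tok (nat_lit 3) (nat_lit 0x5e0000bc000180cf0b02129) (.hit (nat_lit 15) (nat_lit 0) (nat_lit 0x5e0000bc00017f3342fec31) b53954 (.tok (nat_lit 6) (nat_lit 0x5e0000bc00017ed852fe7cd) (.hit (nat_lit 16) (nat_lit 7) (nat_lit 0x5e0000bc00017e29aafd1f8) b53955 (.hit (nat_lit 21) (nat_lit 15) (nat_lit 0x5e0000bc00017d23e2fb13f) b53960 (.tok (nat_lit 14) (nat_lit 0x5e0000bc00017ea582fe173) (.hit (nat_lit 17) (nat_lit 11) (nat_lit 0x5e0000bc00017e6782fd9b3) b53956 (.hit (nat_lit 22) (nat_lit 17) (nat_lit 0x5e0000bc00017e605afd8ce) b53961 (.one (nat_lit 9) (nat_lit 18) (nat_lit 12) (nat_lit 0x5e0000bc00017ea582fe173) b53957 (.nil)))) (.tok (nat_lit 56) (nat_lit 0x5e0000bc00017ed852fe7cd) (.hit (nat_lit 19) (nat_lit 13) (nat_lit 0x5e0000bc00017e86e2fdd9f) b53958 (.hit (nat_lit 24) (nat_lit 19) (nat_lit 0x5e0000bc00017e47aafd5b8) b53962 (.one (nat_lit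 6) (nat_lit 20) (nat_lit 14) (nat_lit 0x5e0000bc00017ed852fe7cd) b53959 (.nil)))) (.nil))))) (.tok (nat_lit 52) (nat_lit 0x5e0000bc00017ebab2fe419) (.hit (nat_lit 25) (nat_lit 39) (nat_lit 0x5e0000bc00017ebab2fe419) b53963 (.hit (nat_lit 26) (nat_lit 40) (nat_lit 0x5e0000bc00017e977afdfb2) b53964 (.nil))) (.tok (nat_lit 55) (nat_lit 0x5e0000bc000180cf0b02129) (.hit (nat_lit 27) (nat_lit 41) (nat_lit 0x5e0000bc000180cf0b02129) b53965 (.tok (nat_lit 3) (nat_lit 0x5e0000bc00017f16e2fef9f) (.hit (nat_lit 33) (nat_lit 47) (nat_lit 0x5e0000bc00017ef3dafeb3e) b53971 (.one (nat_lit 67) (nat_lit 34) (nat_lit 48) (nat_lit 0x5e0000bc00017f16e2fef9f) b53972 (.nil))) (.tok (nat_lit 6) (nat_lit 0x5e0000bc00017f27b2ff1b9) (.hit (nat_lit 28) (nat_lit 42) (nat_lit 0x5e0000bc00017ea65afe18e) b53966 (.hit (nat_lit 31) (nat_lit 45) (nat_lit 0x5e0000bc00017e91cafdefc) b53969 (.tok (nat_lit 55) (nat_lit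 0x5e0000bc00017f27b2ff1b9) (.hit (nat_lit 29) (nat_lit 43) (nat_lit 0x5e0000bc00017f27b2ff1b9) b53967 (.hit (nat_lit 32) (nat_lit 46) (nat_lit 0x5e0000bc00017ef1fafeb02) b53970 (.one (nat_lit 6) (nat_lit 30) (nat_lit 44) (nat_lit 0x5e0000bc00017eb2e2fe31f) b53968 (.nil)))) (.nil)))) (.nil)))) (.one (nat_lit 58) (nat_lit 35) (nat_lit 49) (nat_lit 0x5e0000bc00017f1662fef8f) b53973 (.nil)))))) (.tok (nat_lit 9) (nat_lit 0x5e0000bc0001803cc3018c5) (.hit (nat_lit 0) (nat_lit 0) (nat_lit 0x5e0000bc00017f8e52ff608) b53947 (.tok (nat_lit 9) (nat_lit 0x5e0000bc0001803cc3018c5) (.hit (nat_lit 1) (nat_lit 20) (nat_lit 0x5e0000bc00017f3a9afe4dc) b53948 (.hit (nat_lit 4) (nat_lit 28) (nat_lit 0x5e0000bc00017e7b92fd261) b53951 (.tok (nat_lit 14) (nat_lit 0x5e0000bc0001803cc3018c5) (.hit (nat_lit 2) (nat_lit 24) (nat_lit 0x5e0000bc0001803cc3018c5) b53949 (.hit (nat_lit 5) (nat_lit 30) (nat_lit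 0x5e0000bc00017f3752fe356) b53952 (.one (nat_lit 6) (nat_lit 3) (nat_lit 25) (nat_lit 0x5e0000bc00017fe67b00a92) b53950 (.nil)))) (.one (nat_lit 56) (nat_lit 6) (nat_lit 31) (nat_lit 0x5e0000bc00017f6bbafe9a1) b53953 (.nil))))) (.nil))) (.nil))
noncomputable def r77_0 : Rw Blk := .tok (nat_lit 6) (nat_lit 0xc0000180000300000600000bfa4257fbabb00000) (.hit (nat_lit 81) (nat_lit 0) (nat_lit 0xbf92e17f5752fe61a5fdf70bf9d017f7dc2fe3c5) b53975 (.tok (nat_lit 3) (nat_lit 0xbfac2d7f6f82ff6545fd5a6bf72157f569afe90a) (.hit (nat_lit 82) (nat_lit 1) (nat_lit 0xbf2ecd7e22c2fda725f9426beef157e509afcbf4) b53976 (.one (nat_lit 14) (nat_lit 84) (nat_lit 4) (nat_lit 0xbfa2a57f6f82fef925fc6b4bf19257eb3cafe613) b53977 (.one (nat_lit 68) (nat_lit 85) (nat_lit 5) (nat_lit 0xbfac2d7f4e8aff6545fd5a6bf72157f569afe90a) b53978 (.nil)))) (.tok (nat_lit 40) (nat_lit 0xbf9c857f410afee565fc574bf42197ef6a2fe6bb)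 (.hit (nat_lit 100) (nat_lit 33) (nat_lit 0xbf9c857f410afee565fc574bf42197ef6a2fe385) b53979 (.hit (nat_lit 101) (nat_lit 34) (nat_lit 0xbf89dd7edc9afe4345fc51cbf29317ec4d2fe6bb) b53980 (.nil))) (.tok (nat_lit 43) (nat_lit 0xbfb31d800002ff00c5fe3fabf8c957f8b9aff9c2) (.hit (nat_lit 102) (nat_lit 35) (nat_lit 0xbfb31d800002ff00c5fe3fabf8c957f8b9aff9c2) b53981 (.hit (nat_lit 103) (nat_lit 36) (nat_lit 0xbf9c897f51dafef0c5fd09cbf66417f3ef2fe76c) b53982 (.nil))) (.tok (nat_lit 46) (nat_lit 0xc000017fd53300000600000bfa4257fbabb00000) (.hit (nat_lit 104) (nat_lit 37) (nat_lit 0xbf88e97ef252ffb5f5feeaebfa4257fbabafe909) b53983 (.hit (nat_lit 105) (nat_lit 38) (nat_lit 0xc000017fd53300000600000bf7c717f6f0b00000) b53984 (.nil))) (.nil)))))) (.tok (nat_lit 9) (nat_lit 0xc00001800003000005feeaec00001800002fe909) (.hit (nat_lit 157) (nat_lit 0) (nat_lit 0xbf92e17f5752fe61a5fdf70bf8f157f7dc2fe740)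 b53985 (.tok (nat_lit 3) (nat_lit 0xbfac2d7f6f82ff6545fd5a6bfa4297f569afdc85) (.hit (nat_lit 158) (nat_lit 1) (nat_lit 0xbf2ecd7e22c2fda725f9426bf2fd17e509afbbc5) b53986 (.one (nat_lit 14) (nat_lit 160) (nat_lit 4) (nat_lit 0xbfa2a57f6f82fef925facf2bf984d7f1ad2fc649) b53987 (.one (nat_lit 56) (nat_lit 162) (nat_lit 6) (nat_lit 0xbfac2d7f4e8aff6545fd5a6bfa4297f569afdc85) b53988 (.nil)))) (.tok (nat_lit 40) (nat_lit 0xbf9c857f410afee565fbda8bf9aed7f15d2fd086) (.hit (nat_lit 176) (nat_lit 33) (nat_lit 0xbf9c857f410afee565fbda8bf8e157f15d2fd086) b53989 (.hit (nat_lit 177) (nat_lit 34) (nat_lit 0xbf89dd7edc9afe4345fb134bf9aed7f1472fca4c) b53990 (.nil))) (.tok (nat_lit 43) (nat_lit 0xc000017fd533000005feeaec00001800002fe909) (.hit (nat_lit 178) (nat_lit 35) (nat_lit 0xbf88e97ef252ffb5f5feeaebfa4257fbabafe909) b53983 (.hit (nat_lit 179) (nat_lit 36) (nat_lit 0xc000017fd533000005fdbc2c00001800002fdf1c)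 b53991 (.nil))) (.tok (nat_lit 46) (nat_lit 0xbfb31d800002ff00c5fe2e6bfe7097f8feafe325) (.hit (nat_lit 180) (nat_lit 37) (nat_lit 0xbfb31d800002ff00c5fe2e6bfe7097f8feafe325) b53992 (.hit (nat_lit 181) (nat_lit 38) (nat_lit 0xbf9c897f51dafef0c5fcfbcbf9db17f4272fd990) b53993 (.nil))) (.nil)))))) (.nil))
noncomputable def r77_1 : Rw Blk := .tok (nat_lit 3) (nat_lit 0xbc0001780002fe6cc) (.hit (nat_lit 61) (nat_lit 0) (nat_lit 0xbc0001780002fd40b) b53994 (.tok (nat_lit 14) (nat_lit 0xbc0001780002fe6cc) (.hit (nat_lit 82) (nat_lit 61) (nat_lit 0xbc0001780002fe6cc) b53995 (.one (nat_lit 3) (nat_lit 83) (nat_lit 62) (nat_lit 0xbc0001780002fc12a) b53996 (.tok (nat_lit 6) (nat_lit 0xbc0001780002fc5b5) (.hit (nat_lit 86) (nat_lit 65) (nat_lit 0xbc0001780002fc4da) b53999 (.hit (nat_lit 87) (nat_lit 66) (nat_lit 0xbc0001780002fc5b5) b54000 (.nil))) (.tok (nat_lit 9) (nat_lit 0xbc0001780002fe4ce)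 (.hit (nat_lit 84) (nat_lit 63) (nat_lit 0xbc0001780002fe4ce) b53997 (.hit (nat_lit 85) (nat_lit 64) (nat_lit 0xbc0001780002fc3e7) b53998 (.nil))) (.nil))))) (.one (nat_lit 17) (nat_lit 88) (nat_lit 67) (nat_lit 0xbc0001780002fbccc) b54001 (.tok (nat_lit 20) (nat_lit 0xbc0001780002fc2f5) (.hit (nat_lit 89) (nat_lit 68) (nat_lit 0xbc0001780002fc2f5) b54002 (.hit (nat_lit 90) (nat_lit 69) (nat_lit 0xbc0001780002fbad5) b54003 (.nil))) (.tok (nat_lit 23) (nat_lit 0xbc0001780002fc91a) (.hit (nat_lit 91) (nat_lit 70) (nat_lit 0xbc0001780002fc91a) b54004 (.hit (nat_lit 92) (nat_lit 71) (nat_lit 0xbc0001780002fbaf5) b54005 (.nil))) (.one (nat_lit 26) (nat_lit 93) (nat_lit 72) (nat_lit 0xbc0001780002fa85a) b54006 (.one (nat_lit 29) (nat_lit 94) (nat_lit 73) (nat_lit 0xbc0001780002faae5) b54007 (.one (nat_lit 32) (nat_lit 95) (nat_lit 74) (nat_lit 0xbc0001780002fb414) b54008 (.one (nat_lit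 35) (nat_lit 96) (nat_lit 75) (nat_lit 0xbc0001780002faf06) b54009 (.one (nat_lit 38) (nat_lit 97) (nat_lit 76) (nat_lit 0xbc0001780002fb9ec) b54010 (.tok (nat_lit 41) (nat_lit 0xbc0001780002fb827) (.hit (nat_lit 98) (nat_lit 77) (nat_lit 0xbc0001780002fa1ab) b54011 (.hit (nat_lit 99) (nat_lit 78) (nat_lit 0xbc0001780002fb827) b54012 (.nil))) (.tok (nat_lit 44) (nat_lit 0xbc0001780002fb254) (.hit (nat_lit 100) (nat_lit 79) (nat_lit 0xbc0001780002fa5bf) b54013 (.hit (nat_lit 101) (nat_lit 80) (nat_lit 0xbc0001780002fb254) b54014 (.nil))) (.tok (nat_lit 47) (nat_lit 0xbc0001780002fb341) (.hit (nat_lit 102) (nat_lit 81) (nat_lit 0xbc0001780002fb247) b54015 (.hit (nat_lit 103) (nat_lit 82) (nat_lit 0xbc0001780002fb341) b54016 (.nil))) (.one (nat_lit 62) (nat_lit 113) (nat_lit 92) (nat_lit 0xbc0001780002fc137) b54017 (.tok (nat_lit 65) (nat_lit 0xbc0001780002fc6f0) (.hit (nat_lit 114)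 (nat_lit 93) (nat_lit 0xbc0001780002fc6f0) b54018 (.hit (nat_lit 115) (nat_lit 94) (nat_lit 0xbc0001780002fb6f4) b54019 (.nil))) (.tok (nat_lit 68) (nat_lit 0xbc0001780002fe5e3) (.hit (nat_lit 116) (nat_lit 95) (nat_lit 0xbc0001780002fe5e3) b54020 (.one (nat_lit 3) (nat_lit 120) (nat_lit 99) (nat_lit 0xbc0001780002fcc76) b54024 (.one (nat_lit 6) (nat_lit 117) (nat_lit 96) (nat_lit 0xbc0001780002fcf7d) b54021 (.tok (nat_lit 9) (nat_lit 0xbc0001780002fd472) (.hit (nat_lit 118) (nat_lit 97) (nat_lit 0xbc0001780002fcfdd) b54022 (.hit (nat_lit 119) (nat_lit 98) (nat_lit 0xbc0001780002fd472) b54023 (.nil))) (.nil))))) (.one (nat_lit 71) (nat_lit 121) (nat_lit 100) (nat_lit 0xbc0001780002fa5ff) b54025 (.nil)))))))))))))))))) (.tok (nat_lit 40) (nat_lit 0xbc000178000303f14) (.hit (nat_lit 245) (nat_lit 0) (nat_lit 0xbc000178000300f5e) b54026 (.tok (nat_lit 6) (nat_lit 0xbc000178000303f14)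 (.hit (nat_lit 246) (nat_lit 7) (nat_lit 0xbc000178000303f14) b54027 (.hit (nat_lit 247) (nat_lit 15) (nat_lit 0xbc0001780002ff7ec) b54028 (.nil))) (.tok (nat_lit 9) (nat_lit 0xbc0001780002ffc46) (.hit (nat_lit 248) (nat_lit 20) (nat_lit 0xbc0001780002ffc46) b54029 (.hit (nat_lit 249) (nat_lit 28) (nat_lit 0xbc0001780002fe719) b54030 (.nil))) (.nil)))) (.tok (nat_lit 43) (nat_lit 0xbc000178000302e0d) (.hit (nat_lit 270) (nat_lit 0) (nat_lit 0xbc0001780002fffe4) b54039 (.tok (nat_lit 3) (nat_lit 0xbc000178000302e0d) (.hit (nat_lit 271) (nat_lit 1) (nat_lit 0xbc0001780002ff728) b54040 (.one (nat_lit 67) (nat_lit 272) (nat_lit 2) (nat_lit 0xbc000178000302e0d) b54041 (.nil))) (.tok (nat_lit 6) (nat_lit 0xbc0001780002feeaf) (.hit (nat_lit 273) (nat_lit 7) (nat_lit 0xbc0001780002fea08) b54042 (.hit (nat_lit 276) (nat_lit 15) (nat_lit 0xbc0001780002feeaf) b54043 (.nil))) (.nil)))) (.tok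 (nat_lit 46) (nat_lit 0xbc000178000300c41) (.hit (nat_lit 256) (nat_lit 0) (nat_lit 0xbc000178000300c41) b54031 (.tok (nat_lit 3) (nat_lit 0xbc0001780002fed6e) (.hit (nat_lit 257) (nat_lit 1) (nat_lit 0xbc0001780002fd57d) b54032 (.one (nat_lit 55) (nat_lit 258) (nat_lit 3) (nat_lit 0xbc0001780002fed6e) b54033 (.nil))) (.tok (nat_lit 9) (nat_lit 0xbc0001780002ffa53) (.hit (nat_lit 259) (nat_lit 20) (nat_lit 0xbc0001780002fdd47) b54034 (.hit (nat_lit 262) (nat_lit 28) (nat_lit 0xbc0001780002fd818) b54037 (.tok (nat_lit 67) (nat_lit 0xbc0001780002ffa53) (.hit (nat_lit 260) (nat_lit 21) (nat_lit 0xbc0001780002ff38f) b54035 (.hit (nat_lit 263) (nat_lit 29) (nat_lit 0xbc0001780002ffa53) b54038 (.one (nat_lit 9) (nat_lit 261) (nat_lit 22) (nat_lit 0xbc0001780002ff7b6) b54036 (.nil)))) (.nil)))) (.nil)))) (.nil))))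
noncomputable def r77_2 : Rw Blk := .tok (nat_lit 3) (nat_lit 0xbc0001780002fdab3) (.hit (nat_lit 61) (nat_lit 0) (nat_lit 0xbc0001780002fc559) b54044 (.tok (nat_lit 14) (nat_lit 0xbc0001780002fda02) (.hit (nat_lit 82) (nat_lit 61) (nat_lit 0xbc0001780002fd6ca) b54045 (.one (nat_lit 3) (nat_lit 83) (nat_lit 62) (nat_lit 0xbc0001780002fc965) b54046 (.tok (nat_lit 6) (nat_lit 0xbc0001780002fda02) (.hit (nat_lit 86) (nat_lit 65) (nat_lit 0xbc0001780002fda02) b54049 (.hit (nat_lit 87) (nat_lit 66) (nat_lit 0xbc0001780002fc340) b54050 (.nil))) (.tok (nat_lit 9) (nat_lit 0xbc0001780002fd8b1) (.hit (nat_lit 84) (nat_lit 63) (nat_lit 0xbc0001780002fd8b1) b54047 (.hit (nat_lit 85) (nat_lit 64) (nat_lit 0xbc0001780002fd2ed) b54048 (.nil))) (.nil))))) (.one (nat_lit 17) (nat_lit 88) (nat_lit 67) (nat_lit 0xbc0001780002fc251) b54051 (.tok (nat_lit 20) (nat_lit 0xbc0001780002fbca7) (.hit (nat_lit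 89) (nat_lit 68) (nat_lit 0xbc0001780002fbca7) b54052 (.hit (nat_lit 90) (nat_lit 69) (nat_lit 0xbc0001780002fb45e) b54053 (.nil))) (.tok (nat_lit 23) (nat_lit 0xbc0001780002fbba1) (.hit (nat_lit 91) (nat_lit 70) (nat_lit 0xbc0001780002fbba1) b54054 (.hit (nat_lit 92) (nat_lit 71) (nat_lit 0xbc0001780002fb45e) b54053 (.nil))) (.one (nat_lit 26) (nat_lit 93) (nat_lit 72) (nat_lit 0xbc0001780002fa8e6) b54055 (.one (nat_lit 29) (nat_lit 94) (nat_lit 73) (nat_lit 0xbc0001780002fa9a2) b54056 (.one (nat_lit 32) (nat_lit 95) (nat_lit 74) (nat_lit 0xbc0001780002fae8f) b54057 (.one (nat_lit 35) (nat_lit 96) (nat_lit 75) (nat_lit 0xbc0001780002fa4d7) b54058 (.one (nat_lit 38) (nat_lit 97) (nat_lit 76) (nat_lit 0xbc0001780002fb587) b54059 (.tok (nat_lit 41) (nat_lit 0xbc0001780002fbdb5) (.hit (nat_lit 98) (nat_lit 77) (nat_lit 0xbc0001780002f9a75) b54060 (.hit (nat_lit 99) (nat_lit 78) (nat_lit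 0xbc0001780002fbdb5) b54061 (.nil))) (.tok (nat_lit 44) (nat_lit 0xbc0001780002faf0c) (.hit (nat_lit 100) (nat_lit 79) (nat_lit 0xbc0001780002fa456) b54062 (.hit (nat_lit 101) (nat_lit 80) (nat_lit 0xbc0001780002faf0c) b54063 (.nil))) (.tok (nat_lit 47) (nat_lit 0xbc0001780002fb5a7) (.hit (nat_lit 102) (nat_lit 81) (nat_lit 0xbc0001780002fa9d8) b54064 (.hit (nat_lit 103) (nat_lit 82) (nat_lit 0xbc0001780002fb5a7) b54065 (.nil))) (.one (nat_lit 62) (nat_lit 113) (nat_lit 92) (nat_lit 0xbc0001780002fb74d) b54066 (.tok (nat_lit 65) (nat_lit 0xbc0001780002fc899) (.hit (nat_lit 114) (nat_lit 93) (nat_lit 0xbc0001780002fc899) b54067 (.hit (nat_lit 115) (nat_lit 94) (nat_lit 0xbc0001780002fb8b7) b54068 (.nil))) (.tok (nat_lit 68) (nat_lit 0xbc0001780002fdab3) (.hit (nat_lit 116) (nat_lit 95) (nat_lit 0xbc0001780002fd71e) b54069 (.one (nat_lit 3) (nat_lit 120) (nat_lit 99) (nat_lit 0xbc0001780002fbb83)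 b54073 (.one (nat_lit 6) (nat_lit 117) (nat_lit 96) (nat_lit 0xbc0001780002fd285) b54070 (.tok (nat_lit 9) (nat_lit 0xbc0001780002fdab3) (.hit (nat_lit 118) (nat_lit 97) (nat_lit 0xbc0001780002fdab3) b54071 (.hit (nat_lit 119) (nat_lit 98) (nat_lit 0xbc0001780002fb4e0) b54072 (.nil))) (.nil))))) (.one (nat_lit 71) (nat_lit 121) (nat_lit 100) (nat_lit 0xbc0001780002fa04c) b54074 (.nil)))))))))))))))))) (.tok (nat_lit 40) (nat_lit 0xbc0001780002ff807) (.hit (nat_lit 245) (nat_lit 0) (nat_lit 0xbc0001780002ff807) b54075 (.tok (nat_lit 6) (nat_lit 0xbc0001780002ff737) (.hit (nat_lit 246) (nat_lit 7) (nat_lit 0xbc0001780002ff737) b54076 (.hit (nat_lit 247) (nat_lit 15) (nat_lit 0xbc0001780002feae5) b54077 (.nil))) (.tok (nat_lit 9) (nat_lit 0xbc0001780002fe63a) (.hit (nat_lit 248) (nat_lit 20) (nat_lit 0xbc0001780002fe63a) b54078 (.hit (nat_lit 249) (nat_lit 28) (nat_lit 0xbc0001780002fe01b)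 b54079 (.nil))) (.nil)))) (.tok (nat_lit 43) (nat_lit 0xbc0001780003017d1) (.hit (nat_lit 270) (nat_lit 0) (nat_lit 0xbc0001780002ff2af) b54088 (.tok (nat_lit 3) (nat_lit 0xbc0001780003017d1) (.hit (nat_lit 271) (nat_lit 1) (nat_lit 0xbc0001780002fe42b) b54089 (.one (nat_lit 67) (nat_lit 272) (nat_lit 2) (nat_lit 0xbc0001780003017d1) b54090 (.nil))) (.tok (nat_lit 6) (nat_lit 0xbc0001780002fe667) (.hit (nat_lit 273) (nat_lit 7) (nat_lit 0xbc0001780002fe667) b54091 (.hit (nat_lit 276) (nat_lit 15) (nat_lit 0xbc0001780002fdd3c) b54092 (.nil))) (.nil)))) (.tok (nat_lit 46) (nat_lit 0xbc000178000300bd9) (.hit (nat_lit 256) (nat_lit 0) (nat_lit 0xbc0001780002ff675) b54080 (.tok (nat_lit 3) (nat_lit 0xbc0001780003003a7) (.hit (nat_lit 257) (nat_lit 1) (nat_lit 0xbc0001780002fe274) b54081 (.one (nat_lit 55) (nat_lit 258) (nat_lit 3) (nat_lit 0xbc0001780003003a7) b54082 (.nil))) (.tok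 (nat_lit 9) (nat_lit 0xbc000178000300bd9) (.hit (nat_lit 259) (nat_lit 20) (nat_lit 0xbc0001780002ffe9d) b54083 (.hit (nat_lit 262) (nat_lit 28) (nat_lit 0xbc0001780002ff328) b54086 (.tok (nat_lit 67) (nat_lit 0xbc000178000300bd9) (.hit (nat_lit 260) (nat_lit 21) (nat_lit 0xbc000178000300810) b54084 (.hit (nat_lit 263) (nat_lit 29) (nat_lit 0xbc000178000300a1c) b54087 (.one (nat_lit 9) (nat_lit 261) (nat_lit 22) (nat_lit 0xbc000178000300bd9) b54085 (.nil)))) (.nil)))) (.nil)))) (.nil))))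
noncomputable def r77_3 : Rw Blk := .tok (nat_lit 3) (nat_lit 0xbc0001780002fe6cc) (.hit (nat_lit 61) (nat_lit 0) (nat_lit 0xbc0001780002fd40b) b53994 (.tok (nat_lit 14) (nat_lit 0xbc0001780002fe6cc) (.hit (nat_lit 82) (nat_lit 61) (nat_lit 0xbc0001780002fe6cc) b53995 (.one (nat_lit 3) (nat_lit 83) (nat_lit 62) (nat_lit 0xbc0001780002fc12a) b53996 (.tok (nat_lit 6) (nat_lit 0xbc0001780002fe4ce) (.hit (nat_lit 86) (nat_lit 65) (nat_lit 0xbc0001780002fe4ce) b53997 (.hit (nat_lit 87) (nat_lit 66) (nat_lit 0xbc0001780002fc3e7) b53998 (.nil))) (.tok (nat_lit 9) (nat_lit 0xbc0001780002fc5b5) (.hit (nat_lit 84) (nat_lit 63) (nat_lit 0xbc0001780002fc4da) b53999 (.hit (nat_lit 85) (nat_lit 64) (nat_lit 0xbc0001780002fc5b5) b54000 (.nil))) (.nil))))) (.one (nat_lit 17) (nat_lit 88) (nat_lit 67) (nat_lit 0xbc0001780002fbccc) b54001 (.tok (nat_lit 20) (nat_lit 0xbc0001780002fc91a) (.hit (nat_lit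 89) (nat_lit 68) (nat_lit 0xbc0001780002fc91a) b54004 (.hit (nat_lit 90) (nat_lit 69) (nat_lit 0xbc0001780002fbaf5) b54005 (.nil))) (.tok (nat_lit 23) (nat_lit 0xbc0001780002fc2f5) (.hit (nat_lit 91) (nat_lit 70) (nat_lit 0xbc0001780002fc2f5) b54002 (.hit (nat_lit 92) (nat_lit 71) (nat_lit 0xbc0001780002fbad5) b54003 (.nil))) (.one (nat_lit 26) (nat_lit 93) (nat_lit 72) (nat_lit 0xbc0001780002fa85a) b54006 (.one (nat_lit 29) (nat_lit 94) (nat_lit 73) (nat_lit 0xbc0001780002faae5) b54007 (.one (nat_lit 32) (nat_lit 95) (nat_lit 74) (nat_lit 0xbc0001780002faf06) b54009 (.one (nat_lit 35) (nat_lit 96) (nat_lit 75) (nat_lit 0xbc0001780002fb414) b54008 (.one (nat_lit 38) (nat_lit 97) (nat_lit 76) (nat_lit 0xbc0001780002fb9ec) b54010 (.tok (nat_lit 41) (nat_lit 0xbc0001780002fb827) (.hit (nat_lit 98) (nat_lit 77) (nat_lit 0xbc0001780002fa1ab) b54011 (.hit (nat_lit 99) (nat_lit 78) (nat_lit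 0xbc0001780002fb827) b54012 (.nil))) (.tok (nat_lit 44) (nat_lit 0xbc0001780002fb341) (.hit (nat_lit 100) (nat_lit 79) (nat_lit 0xbc0001780002fb247) b54015 (.hit (nat_lit 101) (nat_lit 80) (nat_lit 0xbc0001780002fb341) b54016 (.nil))) (.tok (nat_lit 47) (nat_lit 0xbc0001780002fb254) (.hit (nat_lit 102) (nat_lit 81) (nat_lit 0xbc0001780002fa5bf) b54013 (.hit (nat_lit 103) (nat_lit 82) (nat_lit 0xbc0001780002fb254) b54014 (.nil))) (.one (nat_lit 50) (nat_lit 104) (nat_lit 83) (nat_lit 0xbc0001780002fc137) b54017 (.tok (nat_lit 53) (nat_lit 0xbc0001780002fc6f0) (.hit (nat_lit 105) (nat_lit 84) (nat_lit 0xbc0001780002fc6f0) b54018 (.hit (nat_lit 106) (nat_lit 85) (nat_lit 0xbc0001780002fb6f4) b54019 (.nil))) (.tok (nat_lit 56) (nat_lit 0xbc0001780002fe5e3) (.hit (nat_lit 107) (nat_lit 86) (nat_lit 0xbc0001780002fe5e3) b54020 (.one (nat_lit 3) (nat_lit 111) (nat_lit 90) (nat_lit 0xbc0001780002fcc76)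 b54024 (.tok (nat_lit 6) (nat_lit 0xbc0001780002fd472) (.hit (nat_lit 109) (nat_lit 88) (nat_lit 0xbc0001780002fcfdd) b54022 (.hit (nat_lit 110) (nat_lit 89) (nat_lit 0xbc0001780002fd472) b54023 (.nil))) (.one (nat_lit 9) (nat_lit 108) (nat_lit 87) (nat_lit 0xbc0001780002fcf7d) b54021 (.nil))))) (.one (nat_lit 59) (nat_lit 112) (nat_lit 91) (nat_lit 0xbc0001780002fa5ff) b54025 (.nil)))))))))))))))))) (.tok (nat_lit 40) (nat_lit 0xbc000178000303f14) (.hit (nat_lit 221) (nat_lit 0) (nat_lit 0xbc000178000300f5e) b54026 (.tok (nat_lit 6) (nat_lit 0xbc0001780002ffc46) (.hit (nat_lit 222) (nat_lit 7) (nat_lit 0xbc0001780002ffc46) b54029 (.hit (nat_lit 223) (nat_lit 15) (nat_lit 0xbc0001780002fe719) b54030 (.nil))) (.tok (nat_lit 9) (nat_lit 0xbc000178000303f14) (.hit (nat_lit 224) (nat_lit 20) (nat_lit 0xbc000178000303f14) b54027 (.hit (nat_lit 225) (nat_lit 28) (nat_lit 0xbc0001780002ff7ec)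 b54028 (.nil))) (.nil)))) (.tok (nat_lit 43) (nat_lit 0xbc000178000300c41) (.hit (nat_lit 232) (nat_lit 0) (nat_lit 0xbc000178000300c41) b54031 (.tok (nat_lit 3) (nat_lit 0xbc0001780002fed6e) (.hit (nat_lit 233) (nat_lit 1) (nat_lit 0xbc0001780002fd57d) b54032 (.one (nat_lit 67) (nat_lit 234) (nat_lit 2) (nat_lit 0xbc0001780002fed6e) b54033 (.nil))) (.tok (nat_lit 6) (nat_lit 0xbc0001780002ffa53) (.hit (nat_lit 235) (nat_lit 7) (nat_lit 0xbc0001780002fdd47) b54034 (.hit (nat_lit 238) (nat_lit 15) (nat_lit 0xbc0001780002fd818) b54037 (.tok (nat_lit 55) (nat_lit 0xbc0001780002ffa53) (.hit (nat_lit 236) (nat_lit 8) (nat_lit 0xbc0001780002ff38f) b54035 (.hit (nat_lit 239) (nat_lit 16) (nat_lit 0xbc0001780002ffa53) b54038 (.one (nat_lit 6) (nat_lit 237) (nat_lit 9) (nat_lit 0xbc0001780002ff7b6) b54036 (.nil)))) (.nil)))) (.nil)))) (.tok (nat_lit 46) (nat_lit 0xbc000178000302e0d) (.hit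 (nat_lit 246) (nat_lit 0) (nat_lit 0xbc0001780002fffe4) b54039 (.tok (nat_lit 3) (nat_lit 0xbc000178000302e0d) (.hit (nat_lit 247) (nat_lit 1) (nat_lit 0xbc0001780002ff728) b54040 (.one (nat_lit 55) (nat_lit 248) (nat_lit 3) (nat_lit 0xbc000178000302e0d) b54041 (.nil))) (.tok (nat_lit 9) (nat_lit 0xbc0001780002feeaf) (.hit (nat_lit 249) (nat_lit 20) (nat_lit 0xbc0001780002fea08) b54042 (.hit (nat_lit 252) (nat_lit 28) (nat_lit 0xbc0001780002feeaf) b54043 (.nil))) (.nil)))) (.nil))))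
noncomputable def r77_4 : Rw Blk := .tok (nat_lit 3) (nat_lit 0xbc0001780002fdab3) (.hit (nat_lit 61) (nat_lit 0) (nat_lit 0xbc0001780002fc559) b54044 (.tok (nat_lit 14) (nat_lit 0xbc0001780002fda02) (.hit (nat_lit 82) (nat_lit 61) (nat_lit 0xbc0001780002fd6ca) b54045 (.one (nat_lit 3) (nat_lit 83) (nat_lit 62) (nat_lit 0xbc0001780002fc965) b54046 (.tok (nat_lit 6) (nat_lit 0xbc0001780002fd8b1) (.hit (nat_lit 86) (nat_lit 65) (nat_lit 0xbc0001780002fd8b1) b54047 (.hit (nat_lit 87) (nat_lit 66) (nat_lit 0xbc0001780002fd2ed) b54048 (.nil))) (.tok (nat_lit 9) (nat_lit 0xbc0001780002fda02) (.hit (nat_lit 84) (nat_lit 63) (nat_lit 0xbc0001780002fda02) b54049 (.hit (nat_lit 85) (nat_lit 64) (nat_lit 0xbc0001780002fc340) b54050 (.nil))) (.nil))))) (.one (nat_lit 17) (nat_lit 88) (nat_lit 67) (nat_lit 0xbc0001780002fc251) b54051 (.tok (nat_lit 20) (nat_lit 0xbc0001780002fbba1) (.hit (nat_lit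 89) (nat_lit 68) (nat_lit 0xbc0001780002fbba1) b54054 (.hit (nat_lit 90) (nat_lit 69) (nat_lit 0xbc0001780002fb45e) b54053 (.nil))) (.tok (nat_lit 23) (nat_lit 0xbc0001780002fbca7) (.hit (nat_lit 91) (nat_lit 70) (nat_lit 0xbc0001780002fbca7) b54052 (.hit (nat_lit 92) (nat_lit 71) (nat_lit 0xbc0001780002fb45e) b54053 (.nil))) (.one (nat_lit 26) (nat_lit 93) (nat_lit 72) (nat_lit 0xbc0001780002fa8e6) b54055 (.one (nat_lit 29) (nat_lit 94) (nat_lit 73) (nat_lit 0xbc0001780002fa9a2) b54056 (.one (nat_lit 32) (nat_lit 95) (nat_lit 74) (nat_lit 0xbc0001780002fa4d7) b54058 (.one (nat_lit 35) (nat_lit 96) (nat_lit 75) (nat_lit 0xbc0001780002fae8f) b54057 (.one (nat_lit 38) (nat_lit 97) (nat_lit 76) (nat_lit 0xbc0001780002fb587) b54059 (.tok (nat_lit 41) (nat_lit 0xbc0001780002fbdb5) (.hit (nat_lit 98) (nat_lit 77) (nat_lit 0xbc0001780002f9a75) b54060 (.hit (nat_lit 99) (nat_lit 78) (nat_lit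 0xbc0001780002fbdb5) b54061 (.nil))) (.tok (nat_lit 44) (nat_lit 0xbc0001780002fb5a7) (.hit (nat_lit 100) (nat_lit 79) (nat_lit 0xbc0001780002fa9d8) b54064 (.hit (nat_lit 101) (nat_lit 80) (nat_lit 0xbc0001780002fb5a7) b54065 (.nil))) (.tok (nat_lit 47) (nat_lit 0xbc0001780002faf0c) (.hit (nat_lit 102) (nat_lit 81) (nat_lit 0xbc0001780002fa456) b54062 (.hit (nat_lit 103) (nat_lit 82) (nat_lit 0xbc0001780002faf0c) b54063 (.nil))) (.one (nat_lit 50) (nat_lit 104) (nat_lit 83) (nat_lit 0xbc0001780002fb74d) b54066 (.tok (nat_lit 53) (nat_lit 0xbc0001780002fc899) (.hit (nat_lit 105) (nat_lit 84) (nat_lit 0xbc0001780002fc899) b54067 (.hit (nat_lit 106) (nat_lit 85) (nat_lit 0xbc0001780002fb8b7) b54068 (.nil))) (.tok (nat_lit 56) (nat_lit 0xbc0001780002fdab3) (.hit (nat_lit 107) (nat_lit 86) (nat_lit 0xbc0001780002fd71e) b54069 (.one (nat_lit 3) (nat_lit 111) (nat_lit 90) (nat_lit 0xbc0001780002fbb83)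 b54073 (.tok (nat_lit 6) (nat_lit 0xbc0001780002fdab3) (.hit (nat_lit 109) (nat_lit 88) (nat_lit 0xbc0001780002fdab3) b54071 (.hit (nat_lit 110) (nat_lit 89) (nat_lit 0xbc0001780002fb4e0) b54072 (.nil))) (.one (nat_lit 9) (nat_lit 108) (nat_lit 87) (nat_lit 0xbc0001780002fd285) b54070 (.nil))))) (.one (nat_lit 59) (nat_lit 112) (nat_lit 91) (nat_lit 0xbc0001780002fa04c) b54074 (.nil)))))))))))))))))) (.tok (nat_lit 40) (nat_lit 0xbc0001780002ff807) (.hit (nat_lit 221) (nat_lit 0) (nat_lit 0xbc0001780002ff807) b54075 (.tok (nat_lit 6) (nat_lit 0xbc0001780002fe63a) (.hit (nat_lit 222) (nat_lit 7) (nat_lit 0xbc0001780002fe63a) b54078 (.hit (nat_lit 223) (nat_lit 15) (nat_lit 0xbc0001780002fe01b) b54079 (.nil))) (.tok (nat_lit 9) (nat_lit 0xbc0001780002ff737) (.hit (nat_lit 224) (nat_lit 20) (nat_lit 0xbc0001780002ff737) b54076 (.hit (nat_lit 225) (nat_lit 28) (nat_lit 0xbc0001780002feae5)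 b54077 (.nil))) (.nil)))) (.tok (nat_lit 43) (nat_lit 0xbc000178000300bd9) (.hit (nat_lit 232) (nat_lit 0) (nat_lit 0xbc0001780002ff675) b54080 (.tok (nat_lit 3) (nat_lit 0xbc0001780003003a7) (.hit (nat_lit 233) (nat_lit 1) (nat_lit 0xbc0001780002fe274) b54081 (.one (nat_lit 67) (nat_lit 234) (nat_lit 2) (nat_lit 0xbc0001780003003a7) b54082 (.nil))) (.tok (nat_lit 6) (nat_lit 0xbc000178000300bd9) (.hit (nat_lit 235) (nat_lit 7) (nat_lit 0xbc0001780002ffe9d) b54083 (.hit (nat_lit 238) (nat_lit 15) (nat_lit 0xbc0001780002ff328) b54086 (.tok (nat_lit 55) (nat_lit 0xbc000178000300bd9) (.hit (nat_lit 236) (nat_lit 8) (nat_lit 0xbc000178000300810) b54084 (.hit (nat_lit 239) (nat_lit 16) (nat_lit 0xbc000178000300a1c) b54087 (.one (nat_lit 6) (nat_lit 237) (nat_lit 9) (nat_lit 0xbc000178000300bd9) b54085 (.nil)))) (.nil)))) (.nil)))) (.tok (nat_lit 46) (nat_lit 0xbc0001780003017d1) (.hit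 (nat_lit 246) (nat_lit 0) (nat_lit 0xbc0001780002ff2af) b54088 (.tok (nat_lit 3) (nat_lit 0xbc0001780003017d1) (.hit (nat_lit 247) (nat_lit 1) (nat_lit 0xbc0001780002fe42b) b54089 (.one (nat_lit 55) (nat_lit 248) (nat_lit 3) (nat_lit 0xbc0001780003017d1) b54090 (.nil))) (.tok (nat_lit 9) (nat_lit 0xbc0001780002fe667) (.hit (nat_lit 249) (nat_lit 20) (nat_lit 0xbc0001780002fe667) b54091 (.hit (nat_lit 252) (nat_lit 28) (nat_lit 0xbc0001780002fdd3c) b54092 (.nil))) (.nil)))) (.nil))))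
noncomputable def r77_5 : Rw Blk := .tok (nat_lit 3) (nat_lit 0x2fb7a45f841abf8dc17e7b22fda8f5f943cbf29dd7eedc2fd34a5fa6c2bf76997f7a4afe495) (.hit (nat_lit 0) (nat_lit 0) (nat_lit 0x2fb6be5f841abf228d7e2adafce805f93f4bf29dd7eb2bafd34a5fa4d4bf604d7ec8cafd1b9) b54093 (.tok (nat_lit 6) (nat_lit 0x2fb7a45f7e3cbf8dc17e7b22fda8f5f943cbf1ba97eedc2fccaa5fa6c2bf76997f7a4afe495) (.hit (nat_lit 1) (nat_lit 7) (nat_lit 0x2fa34b5f558abf37097dd85afc6365f6b8abeca457e4afafb8515f7e10bf0da97ee102fcf7d) b54094 (.hit (nat_lit 6) (nat_lit 15) (nat_lit 0x2fa0dc5f50acbf09317dc4e2fc3c75f66acbec0897e3782fb5e25f7932bf4c117ec24afcefb) b54099 (.tok (nat_lit 14) (nat_lit 0x2fb6475f7b82bf7eb97e703afd9325f9182bf16357ee2dafcb4d5fa408bf76997f3caafdff7) (.hit (nat_lit 2) (nat_lit 11) (nat_lit 0x2fa9e75f62c2bf57457e0d3afccd25f78c2bee4b57e7fdafbeed5f8b48bf28197f06f2fd4f4) b54095 (.hit (nat_lit 7) (nat_lit 17) (nat_lit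 0x2fa8ea5f60c8bf2e017e0552fcbd55f76c8bee0c17e77f2fbdf05f894ebf76997f0dfafd868) b54100 (.one (nat_lit 9) (nat_lit 3) (nat_lit 12) (nat_lit 0x2fb6475f7b82bf7eb97e703afd9325f9182bf16357ee2dafcb4d5fa408bf59997f3caafdff7) b54096 (.nil)))) (.tok (nat_lit 56) (nat_lit 0x2fb7a45f7e3cbf8dc17e7b22fda8f5f943cbf1ba97eedc2fccaa5fa6c2bf62657f7a4afe495) (.hit (nat_lit 4) (nat_lit 13) (nat_lit 0x2faf7c5f6decbf60497e39e2fd2675f83ecbefb097eac82fc4825f9672bf4f697f36f2fdb26) b54097 (.hit (nat_lit 9) (nat_lit 19) (nat_lit 0x2fab605f65b4bf34597e1902fce4b5f7bb4beea997e8ba2fc0665f8e3abf62657edd32fd290) b54102 (.one (nat_lit 6) (nat_lit 5) (nat_lit 14) (nat_lit 0x2fb7a45f7e3cbf8dc17e7b22fda8f5f943cbf1ba97eedc2fccaa5fa6c2bf5f0d7f7a4afe495) b54098 (.nil)))) (.one (nat_lit 68) (nat_lit 8) (nat_lit 18) (nat_lit 0x2fb6095f7b06bf5ff97e6e4afd8f45f9106bf153d7ee0eafcb0f5fa38cbf62ed7f057afdc26) b54101 (.nil))))))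 (.nil))) (.tok (nat_lit 9) (nat_lit 0x300000600000c0000180000300000600000c00001802f43000c8600000c02efd80000300000) (.hit (nat_lit 157) (nat_lit 0) (nat_lit 0x2fcb035fb93ebf52057ec58afe5455fae40bf52997f3a6afe3d45fb9dabfaab17f38b2fdbc4) b54103 (.tok (nat_lit 9) (nat_lit 0x2fe5695ff006bfda397f0b62ff3f75fe420bfbd657fb3e2ff1e45fe4d0bfc9217f943aff2cf) (.hit (nat_lit 163) (nat_lit 20) (nat_lit 0x2fc13b5fa14cbf32457e31eafd5ae5fa160bf50357ec4c2fd02c5fa308bf57257edd6afd04b) b54104 (.hit (nat_lit 171) (nat_lit 28) (nat_lit 0x2fb39f5f6c4cbf266d7d671afc3f55f803cbef6dd7e6542fc98d5f8b50bf80c97eba52fcd61) b54109 (.tok (nat_lit 14) (nat_lit 0x2fe5695ff006bfda397f0b62ff3f75fe420bfbd657fb3e2ff1e45fe4d0bfc9217f943aff2cf) (.hit (nat_lit 167) (nat_lit 24) (nat_lit 0x2fe2155fe76ebfd4f17ed5a2ff1735fe156bfb1657f60c2fe3d45fd64ebfa7c17f6abaff219) b54105 (.hit (nat_lit 173) (nat_lit 30) (nat_lit 0x2fd01b5fa398bfa69d7e4a2afdb0d5fb446bf58417f2332fde915fbf3cbfad3d7f109afdadc)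 b54110 (.one (nat_lit 6) (nat_lit 168) (nat_lit 25) (nat_lit 0x2fe5695ff006bfda397f0b62ff3f75fe420bfbd657fb3e2ff1e45fe4d0bfc9217f943aff2cf) b54106 (.nil)))) (.tok (nat_lit 68) (nat_lit 0x2fdacb5fddd0bf9b1d7ebf32fe5ce5fd0cabfa9a57f6302fe6d05fd3dcbfa5757f3822fe85e) (.hit (nat_lit 169) (nat_lit 26) (nat_lit 0x2fdacb5fcef2bf98657eb0eafe5ce5fc0c6bf77f17f628afe6d05fcea0bf95057f3822fdfa4) b54107 (.hit (nat_lit 175) (nat_lit 32) (nat_lit 0x2fc8865f9622bf4cfd7e0d82fd3c15fa2d6bf36317ee062fd9ea5fae76bfa5757ee9a2fd54e) b54111 (.one (nat_lit 9) (nat_lit 170) (nat_lit 27) (nat_lit 0x2fd0de5fddd0bf9b1d7ebf32fe3115fd0cabfa9a57f6302fe6755fd3dcbf86717f2892fe85e) b54108 (.nil)))) (.nil))))) (.tok (nat_lit 64) (nat_lit 0x2fcd9d5fbedebf6bf17e4f42fe01c5fd8d2bfa5d97fa372ff28e5fe638bfde7d7f4d12fea74) (.hit (nat_lit 182) (nat_lit 50) (nat_lit 0x2fcb6a5fbedebf67797e4f42fdca45fd73abf92c57f88f2fe8f85fe638bfde7d7ea832fe735)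 b54112 (.hit (nat_lit 183) (nat_lit 51) (nat_lit 0x2fcd9d5fb1b6bf6bf17e378afe01c5fd8d2bfa5d97fa372ff28e5fe140bfb3017f4d12fea74) b54113 (.nil))) (.tok (nat_lit 67) (nat_lit 0x300000600000c0000180000300000600000c00001802f42ffbd4600000c019b980000300000) (.hit (nat_lit 184) (nat_lit 52) (nat_lit 0x2ff0045ff7aebfc3997fa0f3000005ff3dcbfde117ffa8affa0c5ff6eebfe5097fd072ff519) b54114 (.tok (nat_lit 3) (nat_lit 0x3000005ff3b8bfe80d800002fff925fff74bff6e1802f42ff94e5ff902bfee1d800002ffbb5) (.hit (nat_lit 190) (nat_lit 58) (nat_lit 0x2fe6445fd6c4bfb8d17f7fb2ff1b35fdc1ebfae697fddeaff25a5fe066bfc4797f9b72fe98d) b54120 (.one (nat_lit 55) (nat_lit 191) (nat_lit 59) (nat_lit 0x3000005ff3b8bfe80d800002fff925fff74bff6e1802f42ff94e5ff902bfee1d800002ffbb5) b54121 (.nil))) (.tok (nat_lit 9) (nat_lit 0x2ff98e600000c000017fa59affda1600000c00001801b3affbd4600000c019b97feb9300000) (.hit (nat_lit 185)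 (nat_lit 53) (nat_lit 0x2fe3ec5fc3b8bf94ed7ee6bafef8c5fd42abf9eb97fa672fe8cc5fdb94bfcc5d7ef802fe7d2) b54115 (.hit (nat_lit 188) (nat_lit 56) (nat_lit 0x2fd74c5fd20ebfdaa97eaa8afe7de5fe306bfbe257fc19aff1415fe600bf934d7fb9aaff04b) b54118 (.tok (nat_lit 67) (nat_lit 0x2ff98e600000c000017fa59affda1600000c00001801b3affbd4600000c019b97feb9300000) (.hit (nat_lit 186) (nat_lit 54) (nat_lit 0x2ff98e5ff328bff2b17f8e9affda15ff35abfdce97ffef2ff4645ffa6cc00bb57f50f2ff835) b54116 (.hit (nat_lit 189) (nat_lit 57) (nat_lit 0x2fe698600000c000017efee2ff716600000c00001801b3affbd4600000bfd0797feb9300000) b54119 (.one (nat_lit 9) (nat_lit 187) (nat_lit 55) (nat_lit 0x2ff70f5fe63abfe9c17fa59aff97d5feefabfd2f17feb92ff21d5ffbf4c019b97eee8aff878) b54117 (.nil)))) (.nil)))) (.nil)))) (.one (nat_lit 70) (nat_lit 192) (nat_lit 60) (nat_lit 0x2fd63e5fbafabfafe17e7e9afe9285fddf8bfa61d7fd88b000c85fe6e4c02efd7f9862fed8b)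 b54122 (.nil)))))) (.nil))
noncomputable def r77_6 : Rw Blk := .tok (nat_lit 6) (nat_lit 0x5e0000bc000180000300000) (.hit (nat_lit 51) (nat_lit 0) (nat_lit 0x5e0000bc00017f4482ff063) b54123 (.tok (nat_lit 14) (nat_lit 0x5e0000bc00017fa2baffc05) (.hit (nat_lit 62) (nat_lit 61) (nat_lit 0x5e0000bc00017fa2baff9fc) b54124 (.one (nat_lit 3) (nat_lit 63) (nat_lit 62) (nat_lit 0x5e0000bc00017f9612ff064) b54125 (.tok (nat_lit 6) (nat_lit 0x5e0000bc00017f4fb2ff938) (.hit (nat_lit 66) (nat_lit 65) (nat_lit 0x5e0000bc00017efde2ff938) b54128 (.hit (nat_lit 67) (nat_lit 66) (nat_lit 0x5e0000bc00017f4fb2ff77a) b54129 (.nil))) (.tok (nat_lit 9) (nat_lit 0x5e0000bc00017f86c2ffc05) (.hit (nat_lit 64) (nat_lit 63) (nat_lit 0x5e0000bc00017f86c2ffc05) b54126 (.hit (nat_lit 65) (nat_lit 64) (nat_lit 0x5e0000bc00017f5aeaff92e) b54127 (.nil))) (.nil))))) (.one (nat_lit 17) (nat_lit 68) (nat_lit 67)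 (nat_lit 0x5e0000bc00017f45e2fe5d3) b54130 (.tok (nat_lit 20) (nat_lit 0x5e0000bc00017fee6affd20) (.hit (nat_lit 69) (nat_lit 68) (nat_lit 0x5e0000bc00017fee6affd20) b54131 (.hit (nat_lit 70) (nat_lit 69) (nat_lit 0x5e0000bc00017f515afe43f) b54132 (.nil))) (.tok (nat_lit 23) (nat_lit 0x5e0000bc00017f3bc2fe53f) (.hit (nat_lit 71) (nat_lit 70) (nat_lit 0x5e0000bc00017e5e1afe53f) b54133 (.hit (nat_lit 72) (nat_lit 71) (nat_lit 0x5e0000bc00017f3bc2fe43f) b54134 (.nil))) (.one (nat_lit 38) (nat_lit 77) (nat_lit 76) (nat_lit 0x5e0000bc00017f381afe613) b54135 (.tok (nat_lit 41) (nat_lit 0x5e0000bc00017f4d6afdbbe) (.hit (nat_lit 78) (nat_lit 77) (nat_lit 0x5e0000bc00017f09dafca5d) b54136 (.hit (nat_lit 79) (nat_lit 78) (nat_lit 0x5e0000bc00017f4d6afdbbe) b54137 (.nil))) (.tok (nat_lit 44) (nat_lit 0x5e0000bc00017f5fdafdb13) (.hit (nat_lit 80) (nat_lit 79) (nat_lit 0x5e0000bc00017f5fdafd886)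 b54138 (.hit (nat_lit 81) (nat_lit 80) (nat_lit 0x5e0000bc00017efde2fdb13) b54139 (.nil))) (.tok (nat_lit 47) (nat_lit 0x5e0000bc00017f62b2fdc30) (.hit (nat_lit 82) (nat_lit 81) (nat_lit 0x5e0000bc00017db79afd06f) b54140 (.hit (nat_lit 83) (nat_lit 82) (nat_lit 0x5e0000bc00017f62b2fdc30) b54141 (.nil))) (.one (nat_lit 50) (nat_lit 84) (nat_lit 83) (nat_lit 0x5e0000bc00017f387afdf81) b54142 (.tok (nat_lit 53) (nat_lit 0x5e0000bc00017f3faafe811) (.hit (nat_lit 85) (nat_lit 84) (nat_lit 0x5e0000bc00017e761afe811) b54143 (.hit (nat_lit 86) (nat_lit 85) (nat_lit 0x5e0000bc00017f3faafdc8a) b54144 (.nil))) (.tok (nat_lit 56) (nat_lit 0x5e0000bc000180000300000) (.hit (nat_lit 87) (nat_lit 86) (nat_lit 0x5e0000bc00017ffb4afffac) b54145 (.one (nat_lit 3) (nat_lit 91) (nat_lit 90) (nat_lit 0x5e0000bc0001800002ff04b) b54149 (.tok (nat_lit 6) (nat_lit 0x5e0000bc00017fbc22ff5e5) (.hit (nat_lit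 89) (nat_lit 88) (nat_lit 0x5e0000bc00017fbc22ff5e5) b54147 (.hit (nat_lit 90) (nat_lit 89) (nat_lit 0x5e0000bc00017f63c2fe8cf) b54148 (.nil))) (.one (nat_lit 9) (nat_lit 88) (nat_lit 87) (nat_lit 0x5e0000bc00017fa97b00000) b54146 (.nil))))) (.one (nat_lit 59) (nat_lit 92) (nat_lit 91) (nat_lit 0x5e0000bc00017f0462fd132) b54150 (.one (nat_lit 62) (nat_lit 93) (nat_lit 92) (nat_lit 0x5e0000bc00017efc3afdf81) b54151 (.tok (nat_lit 65) (nat_lit 0x5e0000bc00017f37aafeb13) (.hit (nat_lit 94) (nat_lit 93) (nat_lit 0x5e0000bc00017ed582feb13) b54152 (.hit (nat_lit 95) (nat_lit 94) (nat_lit 0x5e0000bc00017f37aafe10c) b54153 (.nil))) (.tok (nat_lit 68) (nat_lit 0x5e0000bc00017f434aff340) (.hit (nat_lit 96) (nat_lit 95) (nat_lit 0x5e0000bc00017f434aff19d) b54154 (.one (nat_lit 3) (nat_lit 100) (nat_lit 99) (nat_lit 0x5e0000bc00017e790afe89d) b54158 (.one (nat_lit 6) (nat_lit 97) (nat_lit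 96) (nat_lit 0x5e0000bc00017eb862ff088) b54155 (.tok (nat_lit 9) (nat_lit 0x5e0000bc00017ece22ff340) (.hit (nat_lit 98) (nat_lit 97) (nat_lit 0x5e0000bc00017ece22ff340) b54156 (.hit (nat_lit 99) (nat_lit 98) (nat_lit 0x5e0000bc00017ea3cafedf5) b54157 (.nil))) (.nil))))) (.one (nat_lit 71) (nat_lit 101) (nat_lit 100) (nat_lit 0x5e0000bc00017eff8afcfe5) b54159 (.nil)))))))))))))))))) (.nil)
noncomputable def r77_7 : Rw Blk := .tok (nat_lit 9) (nat_lit 0x2f00005e0000bfee4180433300c20) (.hit (nat_lit 0) (nat_lit 0) (nat_lit 0x2f00005e0000bf51357f07eafde1e) b54160 (.tok (nat_lit 14) (nat_lit 0x2f00005e0000bfe3397fab4affcec) (.hit (nat_lit 21) (nat_lit 61) (nat_lit 0x2f00005e0000bfb1f97f32bafe8ef) b54161 (.one (nat_lit 3) (nat_lit 22) (nat_lit 62) (nat_lit 0x2f00005e0000bfc34d7f10f2ff19e) b54162 (.tok (nat_lit 6) (nat_lit 0x2f00005e0000bfe3397fab4affcec) (.hit (nat_lit 25) (nat_lit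 65) (nat_lit 0x2f00005e0000bfe3397fab4affcec) b54165 (.hit (nat_lit 26) (nat_lit 66) (nat_lit 0x2f00005e0000bf6b5d7edc3afd659) b54166 (.nil))) (.tok (nat_lit 9) (nat_lit 0x2f00005e0000bf71617efb72fe12e) (.hit (nat_lit 23) (nat_lit 63) (nat_lit 0x2f00005e0000bee3f97ee62afd6e6) b54163 (.hit (nat_lit 24) (nat_lit 64) (nat_lit 0x2f00005e0000bf71617efb72fe12e) b54164 (.nil))) (.nil))))) (.one (nat_lit 17) (nat_lit 27) (nat_lit 67) (nat_lit 0x2f00005e0000bf8e497f152afde27) b54167 (.tok (nat_lit 20) (nat_lit 0x2f00005e0000bf4ec97e8ef2fd0a8) (.hit (nat_lit 28) (nat_lit 68) (nat_lit 0x2f00005e0000bea1057e6042fc629) b54168 (.hit (nat_lit 29) (nat_lit 69) (nat_lit 0x2f00005e0000bf4ec97e8ef2fd0a8) b54169 (.nil))) (.tok (nat_lit 23) (nat_lit 0x2f00005e0000bfee4180433300c20) (.hit (nat_lit 30) (nat_lit 70) (nat_lit 0x2f00005e0000bfee4180433300c20) b54170 (.hit (nat_lit 31) (nat_lit 71) (nat_lit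 0x2f00005e0000bf5a517eb77afd272) b54171 (.nil))) (.one (nat_lit 26) (nat_lit 32) (nat_lit 72) (nat_lit 0x2f00005e0000bf331d7e638afc7fe) b54172 (.one (nat_lit 29) (nat_lit 33) (nat_lit 73) (nat_lit 0x2f00005e0000bf48257e94e2fd5c7) b54173 (.one (nat_lit 32) (nat_lit 34) (nat_lit 74) (nat_lit 0x2f00005e0000bf724d7e95cafd6d0) b54174 (.one (nat_lit 35) (nat_lit 35) (nat_lit 75) (nat_lit 0x2f00005e0000bf14417e2bbafc111) b54175 (.one (nat_lit 38) (nat_lit 36) (nat_lit 76) (nat_lit 0x2f00005e0000bf487d7e944afce15) b54176 (.tok (nat_lit 41) (nat_lit 0x2f00005e0000bf38497ebd0afd60f) (.hit (nat_lit 37) (nat_lit 77) (nat_lit 0x2f00005e0000bf1f0d7e1cb2fca57) b54177 (.hit (nat_lit 38) (nat_lit 78) (nat_lit 0x2f00005e0000bf38497ebd0afd60f) b54178 (.nil))) (.tok (nat_lit 44) (nat_lit 0x2f00005e0000bf9ccd7edd9afe247) (.hit (nat_lit 39) (nat_lit 79) (nat_lit 0x2f00005e0000be83617e24fafbec0) b54179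 (.hit (nat_lit 40) (nat_lit 80) (nat_lit 0x2f00005e0000bf9ccd7edd9afe247) b54180 (.nil))) (.tok (nat_lit 47) (nat_lit 0x2f00005e0000bf75e97e8462fe2b2) (.hit (nat_lit 41) (nat_lit 81) (nat_lit 0x2f00005e0000bf75e97e8462fe2b2) b54181 (.hit (nat_lit 42) (nat_lit 82) (nat_lit 0x2f00005e0000bf46f17e4b62fcc01) b54182 (.nil))) (.one (nat_lit 62) (nat_lit 52) (nat_lit 92) (nat_lit 0x2f00005e0000bf6db57eaec2fd53b) b54183 (.tok (nat_lit 65) (nat_lit 0x2f00005e0000bf998d7ef50afe408) (.hit (nat_lit 53) (nat_lit 93) (nat_lit 0x2f00005e0000bf998d7ef50afe408) b54184 (.hit (nat_lit 54) (nat_lit 94) (nat_lit 0x2f00005e0000bf69557e9ca2fdb70) b54185 (.nil))) (.tok (nat_lit 68) (nat_lit 0x2f00005e0000bfae5d7fb242ff4a8) (.hit (nat_lit 55) (nat_lit 95) (nat_lit 0x2f00005e0000bfa1657f5572fe5a4) b54186 (.one (nat_lit 3) (nat_lit 59) (nat_lit 99) (nat_lit 0x2f00005e0000bf6f6d7ef992fd984) b54190 (.one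 (nat_lit 6) (nat_lit 56) (nat_lit 96) (nat_lit 0x2f00005e0000bfae5d7fb242ff4a8) b54187 (.tok (nat_lit 9) (nat_lit 0x2f00005e0000bfa1317f0fc2feb88) (.hit (nat_lit 57) (nat_lit 97) (nat_lit 0x2f00005e0000bfa1317f0fc2feb88) b54188 (.hit (nat_lit 58) (nat_lit 98) (nat_lit 0x2f00005e0000bf89957edac2fe181) b54189 (.nil))) (.nil))))) (.one (nat_lit 71) (nat_lit 60) (nat_lit 100) (nat_lit 0x2f00005e0000bf56e57e7c32fcfa4) b54191 (.nil)))))))))))))))))) (.tok (nat_lit 64) (nat_lit 0x2f00005e0000c0000180c78b00ff5) (.hit (nat_lit 176) (nat_lit 0) (nat_lit 0x2f00005e0000c0000180c78b00ff5) b54192 (.tok (nat_lit 6) (nat_lit 0x2f00005e0000bfa3ad7fbcf2ff3aa) (.hit (nat_lit 177) (nat_lit 7) (nat_lit 0x2f00005e0000bf554d7fb7a2fef7c) b54193 (.hit (nat_lit 178) (nat_lit 15) (nat_lit 0x2f00005e0000bfa3ad7fbcf2ff3aa) b54194 (.nil))) (.tok (nat_lit 9) (nat_lit 0x2f00005e0000bfb0698049eaff935) (.hit (nat_lit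 179) (nat_lit 20) (nat_lit 0x2f00005e0000bfb0698049eaff935) b54195 (.hit (nat_lit 180) (nat_lit 28) (nat_lit 0x2f00005e0000bf6ce57fad6afebe4) b54196 (.nil))) (.nil)))) (.tok (nat_lit 67) (nat_lit 0x2f00005e0000bf93bd803482fff18) (.hit (nat_lit 201) (nat_lit 0) (nat_lit 0x2f00005e0000bf8aa57fc95aff1b3) b54202 (.tok (nat_lit 3) (nat_lit 0x2f00005e0000bf6fc57fec92ff61a) (.hit (nat_lit 202) (nat_lit 1) (nat_lit 0x2f00005e0000bf15357f3772fdf76) b54203 (.one (nat_lit 55) (nat_lit 203) (nat_lit 3) (nat_lit 0x2f00005e0000bf6fc57fec92ff61a) b54204 (.nil))) (.tok (nat_lit 9) (nat_lit 0x2f00005e0000bf93bd803482fff18) (.hit (nat_lit 204) (nat_lit 20) (nat_lit 0x2f00005e0000bf3f497f8b9afe9fb) b54205 (.hit (nat_lit 207) (nat_lit 28) (nat_lit 0x2f00005e0000bf188d7f3e22fe04c) b54208 (.tok (nat_lit 67) (nat_lit 0x2f00005e0000bf93bd803482fff18) (.hit (nat_lit 205) (nat_lit 21) (nat_lit 0x2f00005e0000bf7ae98002daff8e3)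 b54206 (.hit (nat_lit 208) (nat_lit 29) (nat_lit 0x2f00005e0000bf7a8180020aff8c9) b54209 (.one (nat_lit 9) (nat_lit 206) (nat_lit 22) (nat_lit 0x2f00005e0000bf93bd803482fff18) b54207 (.nil)))) (.nil)))) (.nil)))) (.tok (nat_lit 70) (nat_lit 0x2f00005e0000bf9de18044130010a) (.hit (nat_lit 187) (nat_lit 0) (nat_lit 0x2f00005e0000bf9de1800052ff658) b54197 (.tok (nat_lit 3) (nat_lit 0x2f00005e0000bf9b858044130010a) (.hit (nat_lit 188) (nat_lit 1) (nat_lit 0x2f00005e0000bf35297f775afe773) b54198 (.one (nat_lit 67) (nat_lit 189) (nat_lit 2) (nat_lit 0x2f00005e0000bf9b858044130010a) b54199 (.nil))) (.tok (nat_lit 6) (nat_lit 0x2f00005e0000bf3da97f885afe993) (.hit (nat_lit 190) (nat_lit 7) (nat_lit 0x2f00005e0000bf3cf57f86f2fe966) b54200 (.hit (nat_lit 193) (nat_lit 15) (nat_lit 0x2f00005e0000bf3da97f885afe993) b54201 (.nil))) (.nil)))) (.nil))))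
noncomputable def r77_8 : Rw Blk := .tok (nat_lit 3) (nat_lit 0x2f00005e0000c0426d80f8cb01f01) (.hit (nat_lit 15) (nat_lit 0) (nat_lit 0x2f00005e0000c00441800d4300ff1) b54225 (.tok (nat_lit 6) (nat_lit 0x2f00005e0000bfc3717f315aff588) (.hit (nat_lit 16) (nat_lit 7) (nat_lit 0x2f00005e0000bef8897e276afc6c4) b54226 (.hit (nat_lit 21) (nat_lit 15) (nat_lit 0x2f00005e0000bf36017dcb72fe061) b54229 (.tok (nat_lit 14) (nat_lit 0x2f00005e0000bf84d97f0722ff588) (.hit (nat_lit 17) (nat_lit 11) (nat_lit 0x2f00005e0000bf3dd97e824afd818) b54227 (.hit (nat_lit 22) (nat_lit 17) (nat_lit 0x2f00005e0000bf63fd7f0722ff588) b54230 (.one (nat_lit 9) (nat_lit 18) (nat_lit 12) (nat_lit 0x2f00005e0000bf84d97e9f82fe9d8) b54228 (.nil)))) (.one (nat_lit 68) (nat_lit 23) (nat_lit 18) (nat_lit 0x2f00005e0000bfc3717f315afefbb) b54231 (.nil))))) (.tok (nat_lit 52) (nat_lit 0x2f00005e0000bfa0917f421affda1) (.hit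 (nat_lit 25) (nat_lit 39) (nat_lit 0x2f00005e0000bf8c397eff42ff08c) b54232 (.hit (nat_lit 26) (nat_lit 40) (nat_lit 0x2f00005e0000bfa0917f421affda1) b54233 (.nil))) (.tok (nat_lit 55) (nat_lit 0x2f00005e0000c0426d80f8cb01895) (.hit (nat_lit 27) (nat_lit 41) (nat_lit 0x2f00005e0000c0426d80f8cb01895) b54234 (.tok (nat_lit 3) (nat_lit 0x2f00005e0000bfb3717f2a4aff57e) (.hit (nat_lit 33) (nat_lit 47) (nat_lit 0x2f00005e0000bf67ad7ee8cafe28d) b54237 (.one (nat_lit 67) (nat_lit 34) (nat_lit 48) (nat_lit 0x2f00005e0000bfb3717f2a4aff57e) b54238 (.nil))) (.tok (nat_lit 6) (nat_lit 0x2f00005e0000bf6b557efec2fe377) (.hit (nat_lit 28) (nat_lit 42) (nat_lit 0x2f00005e0000bf6b557efec2fe377) b54235 (.hit (nat_lit 31) (nat_lit 45) (nat_lit 0x2f00005e0000bf5dcd7ec7dafe015) b54236 (.nil))) (.nil)))) (.one (nat_lit 58) (nat_lit 35) (nat_lit 49) (nat_lit 0x2f00005e0000c032697f9dc301f01) b54239 (.nil))))))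 (.tok (nat_lit 9) (nat_lit 0x2f00005e0000c0d3b5826afb04c72) (.hit (nat_lit 0) (nat_lit 0) (nat_lit 0x2f00005e0000c00b2d8078cb00cb8) b54210 (.tok (nat_lit 9) (nat_lit 0x2f00005e0000c0313981392b024ae) (.hit (nat_lit 1) (nat_lit 20) (nat_lit 0x2f00005e0000bf49c57f473afe45b) b54211 (.hit (nat_lit 4) (nat_lit 28) (nat_lit 0x2f00005e0000bf6f117f46cafe65d) b54214 (.tok (nat_lit 14) (nat_lit 0x2f00005e0000c0313981392b024ae) (.hit (nat_lit 2) (nat_lit 24) (nat_lit 0x2f00005e0000bfa3c5800562ffcd8) b54212 (.hit (nat_lit 5) (nat_lit 30) (nat_lit 0x2f00005e0000bfd4bd800b6affb8c) b54215 (.one (nat_lit 6) (nat_lit 3) (nat_lit 25) (nat_lit 0x2f00005e0000c0313981392b024ae) b54213 (.nil)))) (.one (nat_lit 56) (nat_lit 6) (nat_lit 31) (nat_lit 0x2f00005e0000c012d180cc630100f) b54216 (.nil))))) (.tok (nat_lit 64) (nat_lit 0x2f00005e0000c0cf05826afb04b14) (.hit (nat_lit 7) (nat_lit 50) (nat_lit 0x2f00005e0000c0cf05826afb04b14)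 b54217 (.hit (nat_lit 8) (nat_lit 51) (nat_lit 0x2f00005e0000c0342d8088ab00aea) b54218 (.nil))) (.tok (nat_lit 67) (nat_lit 0x2f00005e0000c0d3b58263bb04535) (.hit (nat_lit 9) (nat_lit 52) (nat_lit 0x2f00005e0000c096618193cb03413) b54219 (.tok (nat_lit 3) (nat_lit 0x2f00005e0000c0031980e9cb017f8) (.hit (nat_lit 12) (nat_lit 58) (nat_lit 0x2f00005e0000bfcf7980e9cb01189) b54222 (.one (nat_lit 55) (nat_lit 13) (nat_lit 59) (nat_lit 0x2f00005e0000c0031980d083017f8) b54223 (.nil))) (.tok (nat_lit 9) (nat_lit 0x2f00005e0000c0d3b58263bb04535) (.hit (nat_lit 10) (nat_lit 53) (nat_lit 0x2f00005e0000c0d3b58263bb04535) b54220 (.hit (nat_lit 11) (nat_lit 56) (nat_lit 0x2f00005e0000bfe145801a42ffac9) b54221 (.nil))) (.nil)))) (.one (nat_lit 70) (nat_lit 14) (nat_lit 60) (nat_lit 0x2f00005e0000c0c499824feb04c72) b54224 (.nil)))))) (.nil))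
noncomputable def r77_9 : Rw Blk := .tok (nat_lit 9) (nat_lit 0x5e0000bc000181feb3054c5) (.hit (nat_lit 0) (nat_lit 0) (nat_lit 0x5e0000bc00017f8b2b00ba1) b54240 (.tok (nat_lit 14) (nat_lit 0x5e0000bc000181536b03cb9) (.hit (nat_lit 1) (nat_lit 61) (nat_lit 0x5e0000bc0001800a0b01361) b54241 (.one (nat_lit 3) (nat_lit 2) (nat_lit 62) (nat_lit 0x5e0000bc0001804cfb0131a) b54242 (.tok (nat_lit 6) (nat_lit 0x5e0000bc000181536b03cb9) (.hit (nat_lit 5) (nat_lit 65) (nat_lit 0x5e0000bc000181536b03cb9) b54245 (.hit (nat_lit 6) (nat_lit 66) (nat_lit 0x5e0000bc00017f7f630091f) b54246 (.nil))) (.tok (nat_lit 9) (nat_lit 0x5e0000bc00017f48fb00073) (.hit (nat_lit 3) (nat_lit 63) (nat_lit 0x5e0000bc00017f48fafe900) b54243 (.hit (nat_lit 4) (nat_lit 64) (nat_lit 0x5e0000bc00017effbb00073) b54244 (.nil))) (.nil))))) (.one (nat_lit 17) (nat_lit 7) (nat_lit 67) (nat_lit 0x5e0000bc00017f68dafefa8)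 b54247 (.tok (nat_lit 20) (nat_lit 0x5e0000bc00017f301aff5f2) (.hit (nat_lit 8) (nat_lit 68) (nat_lit 0x5e0000bc00017ef712fdec3) b54248 (.hit (nat_lit 9) (nat_lit 69) (nat_lit 0x5e0000bc00017f301aff5f2) b54249 (.nil))) (.tok (nat_lit 23) (nat_lit 0x5e0000bc000181feb3054c5) (.hit (nat_lit 10) (nat_lit 70) (nat_lit 0x5e0000bc000181feb3054c5) b54250 (.hit (nat_lit 11) (nat_lit 71) (nat_lit 0x5e0000bc00017f3f0afe835) b54251 (.nil))) (.one (nat_lit 26) (nat_lit 12) (nat_lit 72) (nat_lit 0x5e0000bc00017f767afee51) b54252 (.one (nat_lit 29) (nat_lit 13) (nat_lit 73) (nat_lit 0x5e0000bc00017fa6daff55f) b54253 (.one (nat_lit 32) (nat_lit 14) (nat_lit 74) (nat_lit 0x5e0000bc00017f8282ff317) b54254 (.one (nat_lit 35) (nat_lit 15) (nat_lit 75) (nat_lit 0x5e0000bc00017ed5a2fe1a2) b54255 (.one (nat_lit 50) (nat_lit 23) (nat_lit 83) (nat_lit 0x5e0000bc00017fb8eaff5fa) b54256 (.tok (nat_lit 53)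 (nat_lit 0x5e0000bc00017f18e2ff7c3) (.hit (nat_lit 24) (nat_lit 84) (nat_lit 0x5e0000bc00017f0882ff7c3) b54257 (.hit (nat_lit 25) (nat_lit 85) (nat_lit 0x5e0000bc00017f18e2fef00) b54258 (.nil))) (.tok (nat_lit 56) (nat_lit 0x5e0000bc0001805d9b02046) (.hit (nat_lit 26) (nat_lit 86) (nat_lit 0x5e0000bc0001805d9b02046) b54259 (.one (nat_lit 3) (nat_lit 30) (nat_lit 90) (nat_lit 0x5e0000bc00017f3732fe6c7) b54263 (.tok (nat_lit 6) (nat_lit 0x5e0000bc00017f23fafe460) (.hit (nat_lit 28) (nat_lit 88) (nat_lit 0x5e0000bc00017f23fafe460) b54261 (.hit (nat_lit 29) (nat_lit 89) (nat_lit 0x5e0000bc00017ec8eafd8fe) b54262 (.nil))) (.one (nat_lit 9) (nat_lit 27) (nat_lit 87) (nat_lit 0x5e0000bc00017f109afe1f4) b54260 (.nil))))) (.one (nat_lit 59) (nat_lit 31) (nat_lit 91) (nat_lit 0x5e0000bc00017f2b32fe8e9) b54264 (.nil)))))))))))))) (.tok (nat_lit 64) (nat_lit 0x5e0000bc000181674b03275) (.hit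 (nat_lit 45) (nat_lit 0) (nat_lit 0x5e0000bc000181674b03275) b54278 (.tok (nat_lit 6) (nat_lit 0x5e0000bc00017fd3530082d) (.hit (nat_lit 46) (nat_lit 7) (nat_lit 0x5e0000bc00017f538afefda) b54279 (.hit (nat_lit 47) (nat_lit 15) (nat_lit 0x5e0000bc00017fd3530082d) b54280 (.nil))) (.tok (nat_lit 9) (nat_lit 0x5e0000bc00018116c303001) (.hit (nat_lit 48) (nat_lit 20) (nat_lit 0x5e0000bc00018116c303001) b54281 (.hit (nat_lit 49) (nat_lit 28) (nat_lit 0x5e0000bc000180c7d302c34) b54282 (.nil))) (.nil)))) (.tok (nat_lit 67) (nat_lit 0x5e0000bc000180508b00f7a) (.hit (nat_lit 40) (nat_lit 0) (nat_lit 0x5e0000bc0001802e7b00393) b54273 (.tok (nat_lit 3) (nat_lit 0x5e0000bc0001802b8300ad9) (.hit (nat_lit 41) (nat_lit 1) (nat_lit 0x5e0000bc00017fb5d2ffc23) b54274 (.one (nat_lit 55) (nat_lit 42) (nat_lit 3) (nat_lit 0x5e0000bc0001802b8300ad9) b54275 (.nil))) (.tok (nat_lit 9) (nat_lit 0x5e0000bc000180508b00f7a)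 (.hit (nat_lit 43) (nat_lit 20) (nat_lit 0x5e0000bc000180508b00f7a) b54276 (.hit (nat_lit 44) (nat_lit 28) (nat_lit 0x5e0000bc00017f69caff2a2) b54277 (.nil))) (.nil)))) (.tok (nat_lit 70) (nat_lit 0x5e0000bc000180f93302865) (.hit (nat_lit 32) (nat_lit 0) (nat_lit 0x5e0000bc00018070c302865) b54265 (.tok (nat_lit 3) (nat_lit 0x5e0000bc000180f9330248f) (.hit (nat_lit 33) (nat_lit 1) (nat_lit 0x5e0000bc0001805f8301159) b54266 (.one (nat_lit 67) (nat_lit 34) (nat_lit 2) (nat_lit 0x5e0000bc000180f9330248f) b54267 (.nil))) (.tok (nat_lit 6) (nat_lit 0x5e0000bc000180eeb30233f) (.hit (nat_lit 35) (nat_lit 7) (nat_lit 0x5e0000bc000180864301631) b54268 (.hit (nat_lit 38) (nat_lit 15) (nat_lit 0x5e0000bc00018043d300de3) b54271 (.tok (nat_lit 55) (nat_lit 0x5e0000bc000180eeb30233f) (.hit (nat_lit 36) (nat_lit 8) (nat_lit 0x5e0000bc000180bb6301cd5) b54269 (.hit (nat_lit 39) (nat_lit 16) (nat_lit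 0x5e0000bc000180e2a3021bd) b54272 (.one (nat_lit 6) (nat_lit 37) (nat_lit 9) (nat_lit 0x5e0000bc000180eeb30233f) b54270 (.nil)))) (.nil)))) (.nil)))) (.nil))))
noncomputable def r77_10 : Rw Blk := .tok (nat_lit 3) (nat_lit 0x5e0000bc000181c24b04185) (.hit (nat_lit 0) (nat_lit 0) (nat_lit 0x5e0000bc000181c24b03e24) b54283 (.tok (nat_lit 6) (nat_lit 0x5e0000bc00018116fb01d20) (.hit (nat_lit 1) (nat_lit 7) (nat_lit 0x5e0000bc00017f948afecd2) b54284 (.hit (nat_lit 6) (nat_lit 15) (nat_lit 0x5e0000bc00017fc0aaff256) b54287 (.tok (nat_lit 56) (nat_lit 0x5e0000bc00018116fb01d20) (.hit (nat_lit 4) (nat_lit 13) (nat_lit 0x5e0000bc000180286afff4e) b54285 (.hit (nat_lit 8) (nat_lit 19) (nat_lit 0x5e0000bc000180bc93011d3) b54288 (.one (nat_lit 6) (nat_lit 5) (nat_lit 14) (nat_lit 0x5e0000bc00018116fb01d20) b54286 (.nil)))) (.nil)))) (.tok (nat_lit 52) (nat_lit 0x5e0000bc0001813cd3021db) (.hit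 (nat_lit 9) (nat_lit 39) (nat_lit 0x5e0000bc000181128b01c92) b54289 (.hit (nat_lit 10) (nat_lit 40) (nat_lit 0x5e0000bc0001813cd3021db) b54290 (.nil))) (.tok (nat_lit 55) (nat_lit 0x5e0000bc000181b1db04185) (.hit (nat_lit 11) (nat_lit 41) (nat_lit 0x5e0000bc000181b1db04185) b54291 (.one (nat_lit 3) (nat_lit 17) (nat_lit 47) (nat_lit 0x5e0000bc000180cfdb0143c) b54297 (.tok (nat_lit 6) (nat_lit 0x5e0000bc000180e72301725) (.hit (nat_lit 12) (nat_lit 42) (nat_lit 0x5e0000bc000180a71b00f24) b54292 (.hit (nat_lit 15) (nat_lit 45) (nat_lit 0x5e0000bc0001809f4300e29) b54295 (.tok (nat_lit 55) (nat_lit 0x5e0000bc000180e72301725) (.hit (nat_lit 13) (nat_lit 43) (nat_lit 0x5e0000bc000180cc7b013d0) b54293 (.hit (nat_lit 16) (nat_lit 46) (nat_lit 0x5e0000bc000180e72301725) b54296 (.one (nat_lit 6) (nat_lit 14) (nat_lit 44) (nat_lit 0x5e0000bc000180a33300ea7) b54294 (.nil)))) (.nil)))) (.nil))))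 (.one (nat_lit 58) (nat_lit 19) (nat_lit 49) (nat_lit 0x5e0000bc000180f31b018a4) b54298 (.nil)))))) (.tok (nat_lit 9) (nat_lit 0x5e0000bc000182505b04f93) (.hit (nat_lit 20) (nat_lit 0) (nat_lit 0x5e0000bc000182505b04362) b54299 (.tok (nat_lit 9) (nat_lit 0x5e0000bc000182200b04f93) (.hit (nat_lit 21) (nat_lit 20) (nat_lit 0x5e0000bc000181911b030ac) b54300 (.hit (nat_lit 24) (nat_lit 28) (nat_lit 0x5e0000bc000181525302987) b54301 (.one (nat_lit 56) (nat_lit 26) (nat_lit 31) (nat_lit 0x5e0000bc000182200b04f93) b54302 (.nil)))) (.nil))) (.nil))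
noncomputable def r77_11 : Rw Blk := .tok (nat_lit 9) (nat_lit 0x5e0000bc0001800002ffd64) (.hit (nat_lit 0) (nat_lit 0) (nat_lit 0x5e0000bc00017ebddafe022) b54303 (.tok (nat_lit 14) (nat_lit 0x5e0000bc0001800002ffd64) (.hit (nat_lit 21) (nat_lit 61) (nat_lit 0x5e0000bc00017f8e02fe9f0) b54304 (.one (nat_lit 3) (nat_lit 22) (nat_lit 62) (nat_lit 0x5e0000bc00017f22b2fe01b) b54305 (.tok (nat_lit 6) (nat_lit 0x5e0000bc0001800002ffd64) (.hit (nat_lit 25) (nat_lit 65) (nat_lit 0x5e0000bc0001800002ffd64) b54308 (.hit (nat_lit 26) (nat_lit 66) (nat_lit 0x5e0000bc00017f4a5afe7d5) b54309 (.nil))) (.tok (nat_lit 9) (nat_lit 0x5e0000bc00017f2662fea81) (.hit (nat_lit 23) (nat_lit 63) (nat_lit 0x5e0000bc00017e9022fe73c) b54306 (.hit (nat_lit 24) (nat_lit 64) (nat_lit 0x5e0000bc00017f2662fea81) b54307 (.nil))) (.nil))))) (.one (nat_lit 17) (nat_lit 27) (nat_lit 67) (nat_lit 0x5e0000bc00017ed372fd58a)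 b54310 (.tok (nat_lit 20) (nat_lit 0x5e0000bc00017ed222fdfbd) (.hit (nat_lit 28) (nat_lit 68) (nat_lit 0x5e0000bc00017e542afdfbd) b54311 (.hit (nat_lit 29) (nat_lit 69) (nat_lit 0x5e0000bc00017ed222fd3f6) b54312 (.nil))) (.tok (nat_lit 23) (nat_lit 0x5e0000bc00017f1b92fe829) (.hit (nat_lit 30) (nat_lit 70) (nat_lit 0x5e0000bc00017f1b92fe829) b54313 (.hit (nat_lit 31) (nat_lit 71) (nat_lit 0x5e0000bc00017eba02fd3f8) b54314 (.nil))) (.one (nat_lit 26) (nat_lit 32) (nat_lit 72) (nat_lit 0x5e0000bc00017e96d2fc5e4) b54315 (.one (nat_lit 29) (nat_lit 33) (nat_lit 73) (nat_lit 0x5e0000bc00017e897afc633) b54316 (.one (nat_lit 32) (nat_lit 34) (nat_lit 74) (nat_lit 0x5e0000bc00017ec562fcba8) b54317 (.one (nat_lit 35) (nat_lit 35) (nat_lit 75) (nat_lit 0x5e0000bc00017e493afc775) b54318 (.one (nat_lit 38) (nat_lit 36) (nat_lit 76) (nat_lit 0x5e0000bc00017eb12afd5ca) b54319 (.tok (nat_lit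 41) (nat_lit 0x5e0000bc00017e9e3afccd5) (.hit (nat_lit 37) (nat_lit 77) (nat_lit 0x5e0000bc00017e9e3afc8e7) b54320 (.hit (nat_lit 38) (nat_lit 78) (nat_lit 0x5e0000bc00017e85aafccd5) b54321 (.nil))) (.tok (nat_lit 44) (nat_lit 0x5e0000bc00017edb8afce67) (.hit (nat_lit 39) (nat_lit 79) (nat_lit 0x5e0000bc00017d41cafbd71) b54322 (.hit (nat_lit 40) (nat_lit 80) (nat_lit 0x5e0000bc00017edb8afce67) b54323 (.nil))) (.tok (nat_lit 47) (nat_lit 0x5e0000bc00017eea6afd149) (.hit (nat_lit 41) (nat_lit 81) (nat_lit 0x5e0000bc00017eea6afd149) b54324 (.hit (nat_lit 42) (nat_lit 82) (nat_lit 0x5e0000bc00017ea65afc9b4) b54325 (.nil))) (.one (nat_lit 62) (nat_lit 52) (nat_lit 92) (nat_lit 0x5e0000bc00017f01c2fd32e) b54326 (.tok (nat_lit 65) (nat_lit 0x5e0000bc00017f110afe084) (.hit (nat_lit 53) (nat_lit 93) (nat_lit 0x5e0000bc00017f110afe084) b54327 (.hit (nat_lit 54) (nat_lit 94) (nat_lit 0x5e0000bc00017eed6afd119)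 b54328 (.nil))) (.tok (nat_lit 68) (nat_lit 0x5e0000bc00017fc1aafeedd) (.hit (nat_lit 55) (nat_lit 95) (nat_lit 0x5e0000bc00017f7efafebbb) b54329 (.one (nat_lit 3) (nat_lit 59) (nat_lit 99) (nat_lit 0x5e0000bc00017f2a92fdac2) b54333 (.one (nat_lit 6) (nat_lit 56) (nat_lit 96) (nat_lit 0x5e0000bc00017fa692fec43) b54330 (.tok (nat_lit 9) (nat_lit 0x5e0000bc00017fc1aafeedd) (.hit (nat_lit 57) (nat_lit 97) (nat_lit 0x5e0000bc00017fc1aafeedd) b54331 (.hit (nat_lit 58) (nat_lit 98) (nat_lit 0x5e0000bc00017f2212fd888) b54332 (.nil))) (.nil))))) (.one (nat_lit 71) (nat_lit 60) (nat_lit 100) (nat_lit 0x5e0000bc00017ec4dafcb91) b54334 (.nil)))))))))))))))))) (.tok (nat_lit 64) (nat_lit 0x5e0000bc00017fba3300624) (.hit (nat_lit 176) (nat_lit 0) (nat_lit 0x5e0000bc00017faae300624) b54335 (.tok (nat_lit 6) (nat_lit 0x5e0000bc00017f7b02ffe8a) (.hit (nat_lit 177) (nat_lit 7) (nat_lit 0x5e0000bc00017f090aff8ab)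 b54336 (.hit (nat_lit 178) (nat_lit 15) (nat_lit 0x5e0000bc00017f7b02ffe8a) b54337 (.nil))) (.tok (nat_lit 9) (nat_lit 0x5e0000bc00017fba3300621) (.hit (nat_lit 179) (nat_lit 20) (nat_lit 0x5e0000bc00017fba3300621) b54338 (.hit (nat_lit 180) (nat_lit 28) (nat_lit 0x5e0000bc00017f392aff9ea) b54339 (.nil))) (.nil)))) (.tok (nat_lit 67) (nat_lit 0x5e0000bc00017fd41300832) (.hit (nat_lit 201) (nat_lit 0) (nat_lit 0x5e0000bc00017fd412ffbbb) b54345 (.tok (nat_lit 3) (nat_lit 0x5e0000bc00017f3bc2fff02) (.hit (nat_lit 202) (nat_lit 1) (nat_lit 0x5e0000bc00017ed19aff1bd) b54346 (.one (nat_lit 55) (nat_lit 203) (nat_lit 3) (nat_lit 0x5e0000bc00017f3bc2fff02) b54347 (.nil))) (.tok (nat_lit 9) (nat_lit 0x5e0000bc00017f854300832) (.hit (nat_lit 204) (nat_lit 20) (nat_lit 0x5e0000bc00017eb892fee9c) b54348 (.hit (nat_lit 207) (nat_lit 28) (nat_lit 0x5e0000bc00017ed232ff1d0) b54351 (.tok (nat_lit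 67) (nat_lit 0x5e0000bc00017f854300832) (.hit (nat_lit 205) (nat_lit 21) (nat_lit 0x5e0000bc00017f348affe1b) b54349 (.hit (nat_lit 208) (nat_lit 29) (nat_lit 0x5e0000bc00017f49e3000c6) b54352 (.one (nat_lit 9) (nat_lit 206) (nat_lit 22) (nat_lit 0x5e0000bc00017f854300832) b54350 (.nil)))) (.nil)))) (.nil)))) (.tok (nat_lit 70) (nat_lit 0x5e0000bc00017f9f3300b70) (.hit (nat_lit 187) (nat_lit 0) (nat_lit 0x5e0000bc00017f6bd2ff903) b54340 (.tok (nat_lit 3) (nat_lit 0x5e0000bc00017f9f3300b70) (.hit (nat_lit 188) (nat_lit 1) (nat_lit 0x5e0000bc00017edafaff2e9) b54341 (.one (nat_lit 67) (nat_lit 189) (nat_lit 2) (nat_lit 0x5e0000bc00017f9f3300b70) b54342 (.nil))) (.tok (nat_lit 6) (nat_lit 0x5e0000bc00017f15e2ffa46) (.hit (nat_lit 190) (nat_lit 7) (nat_lit 0x5e0000bc00017f15e2ffa46) b54343 (.hit (nat_lit 193) (nat_lit 15) (nat_lit 0x5e0000bc00017ecb9aff0fd) b54344 (.nil))) (.nil))))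 (.nil))))
noncomputable def r77_12 : Rw Blk := .tok (nat_lit 3) (nat_lit 0x5e0000bc000180b20302221) (.hit (nat_lit 15) (nat_lit 0) (nat_lit 0x5e0000bc00017f163afeea5) b54368 (.tok (nat_lit 6) (nat_lit 0x5e0000bc00017e887afda02) (.hit (nat_lit 16) (nat_lit 7) (nat_lit 0x5e0000bc00017e0ca2fca87) b54369 (.hit (nat_lit 21) (nat_lit 15) (nat_lit 0x5e0000bc00017d06dafa9ce) b54372 (.tok (nat_lit 14) (nat_lit 0x5e0000bc00017e887afda02) (.hit (nat_lit 17) (nat_lit 11) (nat_lit 0x5e0000bc00017e4a7afd242) b54370 (.hit (nat_lit 22) (nat_lit 17) (nat_lit 0x5e0000bc00017e4352fd15d) b54373 (.one (nat_lit 9) (nat_lit 18) (nat_lit 12) (nat_lit 0x5e0000bc00017e887afda02) b54371 (.nil)))) (.one (nat_lit 68) (nat_lit 23) (nat_lit 18) (nat_lit 0x5e0000bc00017e4e9afd2c6) b54374 (.nil))))) (.tok (nat_lit 52) (nat_lit 0x5e0000bc00017e9daafdca8) (.hit (nat_lit 25) (nat_lit 39) (nat_lit 0x5e0000bc00017e9daafdca8)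 b54375 (.hit (nat_lit 26) (nat_lit 40) (nat_lit 0x5e0000bc00017e7a72fd841) b54376 (.nil))) (.tok (nat_lit 55) (nat_lit 0x5e0000bc000180b20302221) (.hit (nat_lit 27) (nat_lit 41) (nat_lit 0x5e0000bc000180b20302221) b54377 (.tok (nat_lit 3) (nat_lit 0x5e0000bc00017ef9dafe82e) (.hit (nat_lit 33) (nat_lit 47) (nat_lit 0x5e0000bc00017ed6d2fe3cd) b54380 (.one (nat_lit 67) (nat_lit 34) (nat_lit 48) (nat_lit 0x5e0000bc00017ef9dafe82e) b54381 (.nil))) (.tok (nat_lit 6) (nat_lit 0x5e0000bc00017e8952fda1d) (.hit (nat_lit 28) (nat_lit 42) (nat_lit 0x5e0000bc00017e8952fda1d) b54378 (.hit (nat_lit 31) (nat_lit 45) (nat_lit 0x5e0000bc00017e74c2fd78b) b54379 (.nil))) (.nil)))) (.one (nat_lit 58) (nat_lit 35) (nat_lit 49) (nat_lit 0x5e0000bc00017ef95afe81e) b54382 (.nil)))))) (.tok (nat_lit 9) (nat_lit 0x5e0000bc000181504302f27) (.hit (nat_lit 0) (nat_lit 0) (nat_lit 0x5e0000bc00017f714aff4b3)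 b54353 (.tok (nat_lit 9) (nat_lit 0x5e0000bc0001801fbb016bd) (.hit (nat_lit 1) (nat_lit 20) (nat_lit 0x5e0000bc00017f1d92fe74c) b54354 (.hit (nat_lit 4) (nat_lit 28) (nat_lit 0x5e0000bc00017e5e8afcd18) b54357 (.tok (nat_lit 14) (nat_lit 0x5e0000bc0001801fbb016bd) (.hit (nat_lit 2) (nat_lit 24) (nat_lit 0x5e0000bc0001801fbb016bd) b54355 (.hit (nat_lit 5) (nat_lit 30) (nat_lit 0x5e0000bc00017f1a4afe41e) b54358 (.one (nat_lit 6) (nat_lit 3) (nat_lit 25) (nat_lit 0x5e0000bc00017fc97300fdc) b54356 (.nil)))) (.one (nat_lit 56) (nat_lit 6) (nat_lit 31) (nat_lit 0x5e0000bc00017f4eb2fea59) b54359 (.nil))))) (.tok (nat_lit 64) (nat_lit 0x5e0000bc0001800bbb00351) (.hit (nat_lit 7) (nat_lit 50) (nat_lit 0x5e0000bc0001800bbb00351) b54360 (.hit (nat_lit 8) (nat_lit 51) (nat_lit 0x5e0000bc00017f5ff2fecf2) b54361 (.nil))) (.tok (nat_lit 67) (nat_lit 0x5e0000bc000181504302f27) (.hit (nat_lit 9)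 (nat_lit 52) (nat_lit 0x5e0000bc000181504302f27) b54362 (.tok (nat_lit 3) (nat_lit 0x5e0000bc0001809dcb01838) (.hit (nat_lit 12) (nat_lit 58) (nat_lit 0x5e0000bc00017fd463004c9) b54365 (.one (nat_lit 55) (nat_lit 13) (nat_lit 59) (nat_lit 0x5e0000bc0001809dcb01838) b54366 (.nil))) (.tok (nat_lit 9) (nat_lit 0x5e0000bc000180310b00905) (.hit (nat_lit 10) (nat_lit 53) (nat_lit 0x5e0000bc000180310b00905) b54363 (.hit (nat_lit 11) (nat_lit 56) (nat_lit 0x5e0000bc00017fbd42ff8a3) b54364 (.nil))) (.nil)))) (.one (nat_lit 70) (nat_lit 14) (nat_lit 60) (nat_lit 0x5e0000bc00017f14faff468) b54367 (.nil)))))) (.nil))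
noncomputable def r77_13 : Rw Blk := .tok (nat_lit 3) (nat_lit 0x2fb7a45f841abf8dc17e7b22fda8f5f943cbf29dd7eedc2fd34a5fa6c2bf76997f7a4afe495) (.hit (nat_lit 0) (nat_lit 0) (nat_lit 0x2fb6be5f841abf228d7e2adafce805f93f4bf29dd7eb2bafd34a5fa4d4bf604d7ec8cafd1b9) b54383 (.tok (nat_lit 9) (nat_lit 0x2fb7a45f7e3cbf8dc17e7b22fda8f5f943cbf1ba97eedc2fccaa5fa6c2bf76997f7a4afe495) (.hit (nat_lit 10) (nat_lit 20) (nat_lit 0x2fa34b5f558abf37097dd85afc6365f6b8abeca457e4afafb8515f7e10bf0da97ee102fcf7d) b54094 (.hit (nat_lit 15) (nat_lit 28) (nat_lit 0x2fa0dc5f50acbf09317dc4e2fc3c75f66acbec0897e3782fb5e25f7932bf4c117ec24afcefb) b54099 (.tok (nat_lit 14) (nat_lit 0x2fb6475f7b82bf7eb97e703afd9325f9182bf16357ee2dafcb4d5fa408bf76997f3caafdff7) (.hit (nat_lit 11) (nat_lit 24) (nat_lit 0x2fa9e75f62c2bf57457e0d3afccd25f78c2bee4b57e7fdafbeed5f8b48bf28197f06f2fd4f4) b54095 (.hit (nat_lit 16) (nat_lit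 30) (nat_lit 0x2fa8ea5f60c8bf2e017e0552fcbd55f76c8bee0c17e77f2fbdf05f894ebf76997f0dfafd868) b54100 (.one (nat_lit 6) (nat_lit 12) (nat_lit 25) (nat_lit 0x2fb6475f7b82bf7eb97e703afd9325f9182bf16357ee2dafcb4d5fa408bf59997f3caafdff7) b54096 (.nil)))) (.one (nat_lit 56) (nat_lit 17) (nat_lit 31) (nat_lit 0x2fb6095f7b06bf5ff97e6e4afd8f45f9106bf153d7ee0eafcb0f5fa38cbf62ed7f057afdc26) b54101 (.tok (nat_lit 68) (nat_lit 0x2fb7a45f7e3cbf8dc17e7b22fda8f5f943cbf1ba97eedc2fccaa5fa6c2bf62657f7a4afe495) (.hit (nat_lit 13) (nat_lit 26) (nat_lit 0x2faf7c5f6decbf60497e39e2fd2675f83ecbefb097eac82fc4825f9672bf4f697f36f2fdb26) b54097 (.hit (nat_lit 18) (nat_lit 32) (nat_lit 0x2fab605f65b4bf34597e1902fce4b5f7bb4beea997e8ba2fc0665f8e3abf62657edd32fd290) b54102 (.one (nat_lit 9) (nat_lit 14) (nat_lit 27) (nat_lit 0x2fb7a45f7e3cbf8dc17e7b22fda8f5f943cbf1ba97eedc2fccaa5fa6c2bf5f0d7f7a4afe495) b54098 (.nil))))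 (.nil)))))) (.nil))) (.tok (nat_lit 6) (nat_lit 0x300000600000c0000180000300000600000c00001802f43000c8600000c02efd80000300000) (.hit (nat_lit 81) (nat_lit 0) (nat_lit 0x2fcb035fb93ebf52057ec58afe5455fae40bf52997f3a6afe3d45fb9dabfaab17f38b2fdbc4) b54103 (.tok (nat_lit 6) (nat_lit 0x2fe5695ff006bfda397f0b62ff3f75fe420bfbd657fb3e2ff1e45fe4d0bfc9217f943aff2cf) (.hit (nat_lit 87) (nat_lit 7) (nat_lit 0x2fc13b5fa14cbf32457e31eafd5ae5fa160bf50357ec4c2fd02c5fa308bf57257edd6afd04b) b54104 (.hit (nat_lit 95) (nat_lit 15) (nat_lit 0x2fb39f5f6c4cbf266d7d671afc3f55f803cbef6dd7e6542fc98d5f8b50bf80c97eba52fcd61) b54109 (.tok (nat_lit 14) (nat_lit 0x2fe5695ff006bfda397f0b62ff3f75fe420bfbd657fb3e2ff1e45fe4d0bfc9217f943aff2cf) (.hit (nat_lit 91) (nat_lit 11) (nat_lit 0x2fe2155fe76ebfd4f17ed5a2ff1735fe156bfb1657f60c2fe3d45fd64ebfa7c17f6abaff219) b54105 (.hit (nat_lit 97) (nat_lit 17) (nat_lit 0x2fd01b5fa398bfa69d7e4a2afdb0d5fb446bf58417f2332fde915fbf3cbfad3d7f109afdadc)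 b54110 (.one (nat_lit 9) (nat_lit 92) (nat_lit 12) (nat_lit 0x2fe5695ff006bfda397f0b62ff3f75fe420bfbd657fb3e2ff1e45fe4d0bfc9217f943aff2cf) b54106 (.nil)))) (.tok (nat_lit 56) (nat_lit 0x2fdacb5fddd0bf9b1d7ebf32fe5ce5fd0cabfa9a57f6302fe6d05fd3dcbfa5757f3822fe85e) (.hit (nat_lit 93) (nat_lit 13) (nat_lit 0x2fdacb5fcef2bf98657eb0eafe5ce5fc0c6bf77f17f628afe6d05fcea0bf95057f3822fdfa4) b54107 (.hit (nat_lit 99) (nat_lit 19) (nat_lit 0x2fc8865f9622bf4cfd7e0d82fd3c15fa2d6bf36317ee062fd9ea5fae76bfa5757ee9a2fd54e) b54111 (.one (nat_lit 6) (nat_lit 94) (nat_lit 14) (nat_lit 0x2fd0de5fddd0bf9b1d7ebf32fe3115fd0cabfa9a57f6302fe6755fd3dcbf86717f2892fe85e) b54108 (.nil)))) (.nil))))) (.tok (nat_lit 52) (nat_lit 0x2fcd9d5fbedebf6bf17e4f42fe01c5fd8d2bfa5d97fa372ff28e5fe638bfde7d7f4d12fea74) (.hit (nat_lit 106) (nat_lit 39) (nat_lit 0x2fcb6a5fbedebf67797e4f42fdca45fd73abf92c57f88f2fe8f85fe638bfde7d7ea832fe735)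 b54112 (.hit (nat_lit 107) (nat_lit 40) (nat_lit 0x2fcd9d5fb1b6bf6bf17e378afe01c5fd8d2bfa5d97fa372ff28e5fe140bfb3017f4d12fea74) b54113 (.nil))) (.tok (nat_lit 55) (nat_lit 0x300000600000c0000180000300000600000c00001802f42ffbd4600000c019b980000300000) (.hit (nat_lit 108) (nat_lit 41) (nat_lit 0x2ff0045ff7aebfc3997fa0f3000005ff3dcbfde117ffa8affa0c5ff6eebfe5097fd072ff519) b54114 (.tok (nat_lit 3) (nat_lit 0x3000005ff3b8bfe80d800002fff925fff74bff6e1802f42ff94e5ff902bfee1d800002ffbb5) (.hit (nat_lit 114) (nat_lit 47) (nat_lit 0x2fe6445fd6c4bfb8d17f7fb2ff1b35fdc1ebfae697fddeaff25a5fe066bfc4797f9b72fe98d) b54120 (.one (nat_lit 67) (nat_lit 115) (nat_lit 48) (nat_lit 0x3000005ff3b8bfe80d800002fff925fff74bff6e1802f42ff94e5ff902bfee1d800002ffbb5) b54121 (.nil))) (.tok (nat_lit 6) (nat_lit 0x2ff98e600000c000017fa59affda1600000c00001801b3affbd4600000c019b97feb9300000) (.hit (nat_lit 109)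 (nat_lit 42) (nat_lit 0x2fe3ec5fc3b8bf94ed7ee6bafef8c5fd42abf9eb97fa672fe8cc5fdb94bfcc5d7ef802fe7d2) b54115 (.hit (nat_lit 112) (nat_lit 45) (nat_lit 0x2fd74c5fd20ebfdaa97eaa8afe7de5fe306bfbe257fc19aff1415fe600bf934d7fb9aaff04b) b54118 (.tok (nat_lit 55) (nat_lit 0x2ff98e600000c000017fa59affda1600000c00001801b3affbd4600000c019b97feb9300000) (.hit (nat_lit 110) (nat_lit 43) (nat_lit 0x2ff98e5ff328bff2b17f8e9affda15ff35abfdce97ffef2ff4645ffa6cc00bb57f50f2ff835) b54116 (.hit (nat_lit 113) (nat_lit 46) (nat_lit 0x2fe698600000c000017efee2ff716600000c00001801b3affbd4600000bfd0797feb9300000) b54119 (.one (nat_lit 6) (nat_lit 111) (nat_lit 44) (nat_lit 0x2ff70f5fe63abfe9c17fa59aff97d5feefabfd2f17feb92ff21d5ffbf4c019b97eee8aff878) b54117 (.nil)))) (.nil)))) (.nil)))) (.one (nat_lit 58) (nat_lit 116) (nat_lit 49) (nat_lit 0x2fd63e5fbafabfafe17e7e9afe9285fddf8bfa61d7fd88b000c85fe6e4c02efd7f9862fed8b)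 b54122 (.nil)))))) (.nil))
noncomputable def r77_14 : Rw Blk := .tok (nat_lit 9) (nat_lit 0x5e0000bc000180000300000) (.hit (nat_lit 0) (nat_lit 0) (nat_lit 0x5e0000bc00017f4482ff063) b54123 (.tok (nat_lit 14) (nat_lit 0x5e0000bc00017fa2baffc05) (.hit (nat_lit 11) (nat_lit 61) (nat_lit 0x5e0000bc00017fa2baff9fc) b54124 (.one (nat_lit 3) (nat_lit 12) (nat_lit 62) (nat_lit 0x5e0000bc00017f9612ff064) b54125 (.tok (nat_lit 6) (nat_lit 0x5e0000bc00017f86c2ffc05) (.hit (nat_lit 15) (nat_lit 65) (nat_lit 0x5e0000bc00017f86c2ffc05) b54126 (.hit (nat_lit 16) (nat_lit 66) (nat_lit 0x5e0000bc00017f5aeaff92e) b54127 (.nil))) (.tok (nat_lit 9) (nat_lit 0x5e0000bc00017f4fb2ff938) (.hit (nat_lit 13) (nat_lit 63) (nat_lit 0x5e0000bc00017efde2ff938) b54128 (.hit (nat_lit 14) (nat_lit 64) (nat_lit 0x5e0000bc00017f4fb2ff77a) b54129 (.nil))) (.nil))))) (.one (nat_lit 17) (nat_lit 17) (nat_lit 67)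 (nat_lit 0x5e0000bc00017f45e2fe5d3) b54130 (.tok (nat_lit 20) (nat_lit 0x5e0000bc00017f3bc2fe53f) (.hit (nat_lit 18) (nat_lit 68) (nat_lit 0x5e0000bc00017e5e1afe53f) b54133 (.hit (nat_lit 19) (nat_lit 69) (nat_lit 0x5e0000bc00017f3bc2fe43f) b54134 (.nil))) (.tok (nat_lit 23) (nat_lit 0x5e0000bc00017fee6affd20) (.hit (nat_lit 20) (nat_lit 70) (nat_lit 0x5e0000bc00017fee6affd20) b54131 (.hit (nat_lit 21) (nat_lit 71) (nat_lit 0x5e0000bc00017f515afe43f) b54132 (.nil))) (.one (nat_lit 38) (nat_lit 26) (nat_lit 76) (nat_lit 0x5e0000bc00017f381afe613) b54135 (.tok (nat_lit 41) (nat_lit 0x5e0000bc00017f4d6afdbbe) (.hit (nat_lit 27) (nat_lit 77) (nat_lit 0x5e0000bc00017f09dafca5d) b54136 (.hit (nat_lit 28) (nat_lit 78) (nat_lit 0x5e0000bc00017f4d6afdbbe) b54137 (.nil))) (.tok (nat_lit 44) (nat_lit 0x5e0000bc00017f62b2fdc30) (.hit (nat_lit 29) (nat_lit 79) (nat_lit 0x5e0000bc00017db79afd06f)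 b54140 (.hit (nat_lit 30) (nat_lit 80) (nat_lit 0x5e0000bc00017f62b2fdc30) b54141 (.nil))) (.tok (nat_lit 47) (nat_lit 0x5e0000bc00017f5fdafdb13) (.hit (nat_lit 31) (nat_lit 81) (nat_lit 0x5e0000bc00017f5fdafd886) b54138 (.hit (nat_lit 32) (nat_lit 82) (nat_lit 0x5e0000bc00017efde2fdb13) b54139 (.nil))) (.one (nat_lit 50) (nat_lit 33) (nat_lit 83) (nat_lit 0x5e0000bc00017efc3afdf81) b54151 (.tok (nat_lit 53) (nat_lit 0x5e0000bc00017f37aafeb13) (.hit (nat_lit 34) (nat_lit 84) (nat_lit 0x5e0000bc00017ed582feb13) b54152 (.hit (nat_lit 35) (nat_lit 85) (nat_lit 0x5e0000bc00017f37aafe10c) b54153 (.nil))) (.tok (nat_lit 56) (nat_lit 0x5e0000bc00017f434aff340) (.hit (nat_lit 36) (nat_lit 86) (nat_lit 0x5e0000bc00017f434aff19d) b54154 (.one (nat_lit 3) (nat_lit 40) (nat_lit 90) (nat_lit 0x5e0000bc00017e790afe89d) b54158 (.tok (nat_lit 6) (nat_lit 0x5e0000bc00017ece22ff340) (.hit (nat_lit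 38) (nat_lit 88) (nat_lit 0x5e0000bc00017ece22ff340) b54156 (.hit (nat_lit 39) (nat_lit 89) (nat_lit 0x5e0000bc00017ea3cafedf5) b54157 (.nil))) (.one (nat_lit 9) (nat_lit 37) (nat_lit 87) (nat_lit 0x5e0000bc00017eb862ff088) b54155 (.nil))))) (.one (nat_lit 59) (nat_lit 41) (nat_lit 91) (nat_lit 0x5e0000bc00017eff8afcfe5) b54159 (.one (nat_lit 62) (nat_lit 42) (nat_lit 92) (nat_lit 0x5e0000bc00017f387afdf81) b54142 (.tok (nat_lit 65) (nat_lit 0x5e0000bc00017f3faafe811) (.hit (nat_lit 43) (nat_lit 93) (nat_lit 0x5e0000bc00017e761afe811) b54143 (.hit (nat_lit 44) (nat_lit 94) (nat_lit 0x5e0000bc00017f3faafdc8a) b54144 (.nil))) (.tok (nat_lit 68) (nat_lit 0x5e0000bc000180000300000) (.hit (nat_lit 45) (nat_lit 95) (nat_lit 0x5e0000bc00017ffb4afffac) b54145 (.one (nat_lit 3) (nat_lit 49) (nat_lit 99) (nat_lit 0x5e0000bc0001800002ff04b) b54149 (.one (nat_lit 6) (nat_lit 46) (nat_lit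 96) (nat_lit 0x5e0000bc00017fa97b00000) b54146 (.tok (nat_lit 9) (nat_lit 0x5e0000bc00017fbc22ff5e5) (.hit (nat_lit 47) (nat_lit 97) (nat_lit 0x5e0000bc00017fbc22ff5e5) b54147 (.hit (nat_lit 48) (nat_lit 98) (nat_lit 0x5e0000bc00017f63c2fe8cf) b54148 (.nil))) (.nil))))) (.one (nat_lit 71) (nat_lit 50) (nat_lit 100) (nat_lit 0x5e0000bc00017f0462fd132) b54150 (.nil)))))))))))))))))) (.nil)
noncomputable def r77_15 : Rw Blk := .tok (nat_lit 6) (nat_lit 0x2f00005e0000bfee4180433300c20) (.hit (nat_lit 0) (nat_lit 0) (nat_lit 0x2f00005e0000bf51357f07eafde1e) b54160 (.tok (nat_lit 14) (nat_lit 0x2f00005e0000bfe3397fab4affcec) (.hit (nat_lit 21) (nat_lit 61) (nat_lit 0x2f00005e0000bfb1f97f32bafe8ef) b54161 (.one (nat_lit 3) (nat_lit 22) (nat_lit 62) (nat_lit 0x2f00005e0000bfc34d7f10f2ff19e) b54162 (.tok (nat_lit 6) (nat_lit 0x2f00005e0000bf71617efb72fe12e) (.hit (nat_lit 25) (nat_lit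 65) (nat_lit 0x2f00005e0000bee3f97ee62afd6e6) b54163 (.hit (nat_lit 26) (nat_lit 66) (nat_lit 0x2f00005e0000bf71617efb72fe12e) b54164 (.nil))) (.tok (nat_lit 9) (nat_lit 0x2f00005e0000bfe3397fab4affcec) (.hit (nat_lit 23) (nat_lit 63) (nat_lit 0x2f00005e0000bfe3397fab4affcec) b54165 (.hit (nat_lit 24) (nat_lit 64) (nat_lit 0x2f00005e0000bf6b5d7edc3afd659) b54166 (.nil))) (.nil))))) (.one (nat_lit 17) (nat_lit 27) (nat_lit 67) (nat_lit 0x2f00005e0000bf8e497f152afde27) b54167 (.tok (nat_lit 20) (nat_lit 0x2f00005e0000bfee4180433300c20) (.hit (nat_lit 28) (nat_lit 68) (nat_lit 0x2f00005e0000bfee4180433300c20) b54170 (.hit (nat_lit 29) (nat_lit 69) (nat_lit 0x2f00005e0000bf5a517eb77afd272) b54171 (.nil))) (.tok (nat_lit 23) (nat_lit 0x2f00005e0000bf4ec97e8ef2fd0a8) (.hit (nat_lit 30) (nat_lit 70) (nat_lit 0x2f00005e0000bea1057e6042fc629) b54168 (.hit (nat_lit 31) (nat_lit 71) (nat_lit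 0x2f00005e0000bf4ec97e8ef2fd0a8) b54169 (.nil))) (.one (nat_lit 26) (nat_lit 32) (nat_lit 72) (nat_lit 0x2f00005e0000bf331d7e638afc7fe) b54172 (.one (nat_lit 29) (nat_lit 33) (nat_lit 73) (nat_lit 0x2f00005e0000bf48257e94e2fd5c7) b54173 (.one (nat_lit 32) (nat_lit 34) (nat_lit 74) (nat_lit 0x2f00005e0000bf14417e2bbafc111) b54175 (.one (nat_lit 35) (nat_lit 35) (nat_lit 75) (nat_lit 0x2f00005e0000bf724d7e95cafd6d0) b54174 (.one (nat_lit 38) (nat_lit 36) (nat_lit 76) (nat_lit 0x2f00005e0000bf487d7e944afce15) b54176 (.tok (nat_lit 41) (nat_lit 0x2f00005e0000bf38497ebd0afd60f) (.hit (nat_lit 37) (nat_lit 77) (nat_lit 0x2f00005e0000bf1f0d7e1cb2fca57) b54177 (.hit (nat_lit 38) (nat_lit 78) (nat_lit 0x2f00005e0000bf38497ebd0afd60f) b54178 (.nil))) (.tok (nat_lit 44) (nat_lit 0x2f00005e0000bf75e97e8462fe2b2) (.hit (nat_lit 39) (nat_lit 79) (nat_lit 0x2f00005e0000bf75e97e8462fe2b2) b54181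 (.hit (nat_lit 40) (nat_lit 80) (nat_lit 0x2f00005e0000bf46f17e4b62fcc01) b54182 (.nil))) (.tok (nat_lit 47) (nat_lit 0x2f00005e0000bf9ccd7edd9afe247) (.hit (nat_lit 41) (nat_lit 81) (nat_lit 0x2f00005e0000be83617e24fafbec0) b54179 (.hit (nat_lit 42) (nat_lit 82) (nat_lit 0x2f00005e0000bf9ccd7edd9afe247) b54180 (.nil))) (.one (nat_lit 50) (nat_lit 43) (nat_lit 83) (nat_lit 0x2f00005e0000bf6db57eaec2fd53b) b54183 (.tok (nat_lit 53) (nat_lit 0x2f00005e0000bf998d7ef50afe408) (.hit (nat_lit 44) (nat_lit 84) (nat_lit 0x2f00005e0000bf998d7ef50afe408) b54184 (.hit (nat_lit 45) (nat_lit 85) (nat_lit 0x2f00005e0000bf69557e9ca2fdb70) b54185 (.nil))) (.tok (nat_lit 56) (nat_lit 0x2f00005e0000bfae5d7fb242ff4a8) (.hit (nat_lit 46) (nat_lit 86) (nat_lit 0x2f00005e0000bfa1657f5572fe5a4) b54186 (.one (nat_lit 3) (nat_lit 50) (nat_lit 90) (nat_lit 0x2f00005e0000bf6f6d7ef992fd984) b54190 (.tok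 (nat_lit 6) (nat_lit 0x2f00005e0000bfa1317f0fc2feb88) (.hit (nat_lit 48) (nat_lit 88) (nat_lit 0x2f00005e0000bfa1317f0fc2feb88) b54188 (.hit (nat_lit 49) (nat_lit 89) (nat_lit 0x2f00005e0000bf89957edac2fe181) b54189 (.nil))) (.one (nat_lit 9) (nat_lit 47) (nat_lit 87) (nat_lit 0x2f00005e0000bfae5d7fb242ff4a8) b54187 (.nil))))) (.one (nat_lit 59) (nat_lit 51) (nat_lit 91) (nat_lit 0x2f00005e0000bf56e57e7c32fcfa4) b54191 (.nil)))))))))))))))))) (.tok (nat_lit 52) (nat_lit 0x2f00005e0000c0000180c78b00ff5) (.hit (nat_lit 176) (nat_lit 0) (nat_lit 0x2f00005e0000c0000180c78b00ff5) b54192 (.tok (nat_lit 6) (nat_lit 0x2f00005e0000bfb0698049eaff935) (.hit (nat_lit 177) (nat_lit 7) (nat_lit 0x2f00005e0000bfb0698049eaff935) b54195 (.hit (nat_lit 178) (nat_lit 15) (nat_lit 0x2f00005e0000bf6ce57fad6afebe4) b54196 (.nil))) (.tok (nat_lit 9) (nat_lit 0x2f00005e0000bfa3ad7fbcf2ff3aa) (.hit (nat_lit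 179) (nat_lit 20) (nat_lit 0x2f00005e0000bf554d7fb7a2fef7c) b54193 (.hit (nat_lit 180) (nat_lit 28) (nat_lit 0x2f00005e0000bfa3ad7fbcf2ff3aa) b54194 (.nil))) (.nil)))) (.tok (nat_lit 55) (nat_lit 0x2f00005e0000bf93bd803482fff18) (.hit (nat_lit 187) (nat_lit 0) (nat_lit 0x2f00005e0000bf8aa57fc95aff1b3) b54202 (.tok (nat_lit 3) (nat_lit 0x2f00005e0000bf6fc57fec92ff61a) (.hit (nat_lit 188) (nat_lit 1) (nat_lit 0x2f00005e0000bf15357f3772fdf76) b54203 (.one (nat_lit 67) (nat_lit 189) (nat_lit 2) (nat_lit 0x2f00005e0000bf6fc57fec92ff61a) b54204 (.nil))) (.tok (nat_lit 6) (nat_lit 0x2f00005e0000bf93bd803482fff18) (.hit (nat_lit 190) (nat_lit 7) (nat_lit 0x2f00005e0000bf3f497f8b9afe9fb) b54205 (.hit (nat_lit 193) (nat_lit 15) (nat_lit 0x2f00005e0000bf188d7f3e22fe04c) b54208 (.tok (nat_lit 55) (nat_lit 0x2f00005e0000bf93bd803482fff18) (.hit (nat_lit 191) (nat_lit 8) (nat_lit 0x2f00005e0000bf7ae98002daff8e3)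 b54206 (.hit (nat_lit 194) (nat_lit 16) (nat_lit 0x2f00005e0000bf7a8180020aff8c9) b54209 (.one (nat_lit 6) (nat_lit 192) (nat_lit 9) (nat_lit 0x2f00005e0000bf93bd803482fff18) b54207 (.nil)))) (.nil)))) (.nil)))) (.tok (nat_lit 58) (nat_lit 0x2f00005e0000bf9de18044130010a) (.hit (nat_lit 201) (nat_lit 0) (nat_lit 0x2f00005e0000bf9de1800052ff658) b54197 (.tok (nat_lit 3) (nat_lit 0x2f00005e0000bf9b858044130010a) (.hit (nat_lit 202) (nat_lit 1) (nat_lit 0x2f00005e0000bf35297f775afe773) b54198 (.one (nat_lit 55) (nat_lit 203) (nat_lit 3) (nat_lit 0x2f00005e0000bf9b858044130010a) b54199 (.nil))) (.tok (nat_lit 9) (nat_lit 0x2f00005e0000bf3da97f885afe993) (.hit (nat_lit 204) (nat_lit 20) (nat_lit 0x2f00005e0000bf3cf57f86f2fe966) b54200 (.hit (nat_lit 207) (nat_lit 28) (nat_lit 0x2f00005e0000bf3da97f885afe993) b54201 (.nil))) (.nil)))) (.nil))))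
noncomputable def r77_16 : Rw Blk := .tok (nat_lit 3) (nat_lit 0x2f00005e0000c0426d80f8cb01f01) (.hit (nat_lit 15) (nat_lit 0) (nat_lit 0x2f00005e0000c00441800d4300ff1) b54225 (.tok (nat_lit 9) (nat_lit 0x2f00005e0000bfc3717f315aff588) (.hit (nat_lit 16) (nat_lit 20) (nat_lit 0x2f00005e0000bef8897e276afc6c4) b54226 (.hit (nat_lit 21) (nat_lit 28) (nat_lit 0x2f00005e0000bf36017dcb72fe061) b54229 (.tok (nat_lit 14) (nat_lit 0x2f00005e0000bf84d97f0722ff588) (.hit (nat_lit 17) (nat_lit 24) (nat_lit 0x2f00005e0000bf3dd97e824afd818) b54227 (.hit (nat_lit 22) (nat_lit 30) (nat_lit 0x2f00005e0000bf63fd7f0722ff588) b54230 (.one (nat_lit 6) (nat_lit 18) (nat_lit 25) (nat_lit 0x2f00005e0000bf84d97e9f82fe9d8) b54228 (.nil)))) (.one (nat_lit 56) (nat_lit 23) (nat_lit 31) (nat_lit 0x2f00005e0000bfc3717f315afefbb) b54231 (.nil))))) (.tok (nat_lit 64) (nat_lit 0x2f00005e0000bfa0917f421affda1)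 (.hit (nat_lit 25) (nat_lit 50) (nat_lit 0x2f00005e0000bf8c397eff42ff08c) b54232 (.hit (nat_lit 26) (nat_lit 51) (nat_lit 0x2f00005e0000bfa0917f421affda1) b54233 (.nil))) (.tok (nat_lit 67) (nat_lit 0x2f00005e0000c0426d80f8cb01895) (.hit (nat_lit 27) (nat_lit 52) (nat_lit 0x2f00005e0000c0426d80f8cb01895) b54234 (.tok (nat_lit 3) (nat_lit 0x2f00005e0000bfb3717f2a4aff57e) (.hit (nat_lit 33) (nat_lit 58) (nat_lit 0x2f00005e0000bf67ad7ee8cafe28d) b54237 (.one (nat_lit 55) (nat_lit 34) (nat_lit 59) (nat_lit 0x2f00005e0000bfb3717f2a4aff57e) b54238 (.nil))) (.tok (nat_lit 9) (nat_lit 0x2f00005e0000bf6b557efec2fe377) (.hit (nat_lit 28) (nat_lit 53) (nat_lit 0x2f00005e0000bf6b557efec2fe377) b54235 (.hit (nat_lit 31) (nat_lit 56) (nat_lit 0x2f00005e0000bf5dcd7ec7dafe015) b54236 (.nil))) (.nil)))) (.one (nat_lit 70) (nat_lit 35) (nat_lit 60) (nat_lit 0x2f00005e0000c032697f9dc301f01) b54239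 (.nil)))))) (.tok (nat_lit 6) (nat_lit 0x2f00005e0000c0d3b5826afb04c72) (.hit (nat_lit 0) (nat_lit 0) (nat_lit 0x2f00005e0000c00b2d8078cb00cb8) b54210 (.tok (nat_lit 6) (nat_lit 0x2f00005e0000c0313981392b024ae) (.hit (nat_lit 1) (nat_lit 7) (nat_lit 0x2f00005e0000bf49c57f473afe45b) b54211 (.hit (nat_lit 4) (nat_lit 15) (nat_lit 0x2f00005e0000bf6f117f46cafe65d) b54214 (.tok (nat_lit 14) (nat_lit 0x2f00005e0000c0313981392b024ae) (.hit (nat_lit 2) (nat_lit 11) (nat_lit 0x2f00005e0000bfa3c5800562ffcd8) b54212 (.hit (nat_lit 5) (nat_lit 17) (nat_lit 0x2f00005e0000bfd4bd800b6affb8c) b54215 (.one (nat_lit 9) (nat_lit 3) (nat_lit 12) (nat_lit 0x2f00005e0000c0313981392b024ae) b54213 (.nil)))) (.one (nat_lit 68) (nat_lit 6) (nat_lit 18) (nat_lit 0x2f00005e0000c012d180cc630100f) b54216 (.nil))))) (.tok (nat_lit 52) (nat_lit 0x2f00005e0000c0cf05826afb04b14) (.hit (nat_lit 7) (nat_lit 39)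 (nat_lit 0x2f00005e0000c0cf05826afb04b14) b54217 (.hit (nat_lit 8) (nat_lit 40) (nat_lit 0x2f00005e0000c0342d8088ab00aea) b54218 (.nil))) (.tok (nat_lit 55) (nat_lit 0x2f00005e0000c0d3b58263bb04535) (.hit (nat_lit 9) (nat_lit 41) (nat_lit 0x2f00005e0000c096618193cb03413) b54219 (.tok (nat_lit 3) (nat_lit 0x2f00005e0000c0031980e9cb017f8) (.hit (nat_lit 12) (nat_lit 47) (nat_lit 0x2f00005e0000bfcf7980e9cb01189) b54222 (.one (nat_lit 67) (nat_lit 13) (nat_lit 48) (nat_lit 0x2f00005e0000c0031980d083017f8) b54223 (.nil))) (.tok (nat_lit 6) (nat_lit 0x2f00005e0000c0d3b58263bb04535) (.hit (nat_lit 10) (nat_lit 42) (nat_lit 0x2f00005e0000c0d3b58263bb04535) b54220 (.hit (nat_lit 11) (nat_lit 45) (nat_lit 0x2f00005e0000bfe145801a42ffac9) b54221 (.nil))) (.nil)))) (.one (nat_lit 58) (nat_lit 14) (nat_lit 49) (nat_lit 0x2f00005e0000c0c499824feb04c72) b54224 (.nil)))))) (.nil))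
noncomputable def r77_17 : Rw Blk := .tok (nat_lit 6) (nat_lit 0x5e0000bc000181feb3054c5) (.hit (nat_lit 0) (nat_lit 0) (nat_lit 0x5e0000bc00017f8b2b00ba1) b54240 (.tok (nat_lit 14) (nat_lit 0x5e0000bc000181536b03cb9) (.hit (nat_lit 1) (nat_lit 61) (nat_lit 0x5e0000bc0001800a0b01361) b54241 (.one (nat_lit 3) (nat_lit 2) (nat_lit 62) (nat_lit 0x5e0000bc0001804cfb0131a) b54242 (.tok (nat_lit 6) (nat_lit 0x5e0000bc00017f48fb00073) (.hit (nat_lit 5) (nat_lit 65) (nat_lit 0x5e0000bc00017f48fafe900) b54243 (.hit (nat_lit 6) (nat_lit 66) (nat_lit 0x5e0000bc00017effbb00073) b54244 (.nil))) (.tok (nat_lit 9) (nat_lit 0x5e0000bc000181536b03cb9) (.hit (nat_lit 3) (nat_lit 63) (nat_lit 0x5e0000bc000181536b03cb9) b54245 (.hit (nat_lit 4) (nat_lit 64) (nat_lit 0x5e0000bc00017f7f630091f) b54246 (.nil))) (.nil))))) (.one (nat_lit 17) (nat_lit 7) (nat_lit 67) (nat_lit 0x5e0000bc00017f68dafefa8)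 b54247 (.tok (nat_lit 20) (nat_lit 0x5e0000bc000181feb3054c5) (.hit (nat_lit 8) (nat_lit 68) (nat_lit 0x5e0000bc000181feb3054c5) b54250 (.hit (nat_lit 9) (nat_lit 69) (nat_lit 0x5e0000bc00017f3f0afe835) b54251 (.nil))) (.tok (nat_lit 23) (nat_lit 0x5e0000bc00017f301aff5f2) (.hit (nat_lit 10) (nat_lit 70) (nat_lit 0x5e0000bc00017ef712fdec3) b54248 (.hit (nat_lit 11) (nat_lit 71) (nat_lit 0x5e0000bc00017f301aff5f2) b54249 (.nil))) (.one (nat_lit 26) (nat_lit 12) (nat_lit 72) (nat_lit 0x5e0000bc00017f767afee51) b54252 (.one (nat_lit 29) (nat_lit 13) (nat_lit 73) (nat_lit 0x5e0000bc00017fa6daff55f) b54253 (.one (nat_lit 32) (nat_lit 14) (nat_lit 74) (nat_lit 0x5e0000bc00017ed5a2fe1a2) b54255 (.one (nat_lit 35) (nat_lit 15) (nat_lit 75) (nat_lit 0x5e0000bc00017f8282ff317) b54254 (.one (nat_lit 62) (nat_lit 23) (nat_lit 92) (nat_lit 0x5e0000bc00017fb8eaff5fa) b54256 (.tok (nat_lit 65)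 (nat_lit 0x5e0000bc00017f18e2ff7c3) (.hit (nat_lit 24) (nat_lit 93) (nat_lit 0x5e0000bc00017f0882ff7c3) b54257 (.hit (nat_lit 25) (nat_lit 94) (nat_lit 0x5e0000bc00017f18e2fef00) b54258 (.nil))) (.tok (nat_lit 68) (nat_lit 0x5e0000bc0001805d9b02046) (.hit (nat_lit 26) (nat_lit 95) (nat_lit 0x5e0000bc0001805d9b02046) b54259 (.one (nat_lit 3) (nat_lit 30) (nat_lit 99) (nat_lit 0x5e0000bc00017f3732fe6c7) b54263 (.one (nat_lit 6) (nat_lit 27) (nat_lit 96) (nat_lit 0x5e0000bc00017f109afe1f4) b54260 (.tok (nat_lit 9) (nat_lit 0x5e0000bc00017f23fafe460) (.hit (nat_lit 28) (nat_lit 97) (nat_lit 0x5e0000bc00017f23fafe460) b54261 (.hit (nat_lit 29) (nat_lit 98) (nat_lit 0x5e0000bc00017ec8eafd8fe) b54262 (.nil))) (.nil))))) (.one (nat_lit 71) (nat_lit 31) (nat_lit 100) (nat_lit 0x5e0000bc00017f2b32fe8e9) b54264 (.nil)))))))))))))) (.tok (nat_lit 52) (nat_lit 0x5e0000bc000181674b03275) (.hit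 (nat_lit 45) (nat_lit 0) (nat_lit 0x5e0000bc000181674b03275) b54278 (.tok (nat_lit 6) (nat_lit 0x5e0000bc00018116c303001) (.hit (nat_lit 46) (nat_lit 7) (nat_lit 0x5e0000bc00018116c303001) b54281 (.hit (nat_lit 47) (nat_lit 15) (nat_lit 0x5e0000bc000180c7d302c34) b54282 (.nil))) (.tok (nat_lit 9) (nat_lit 0x5e0000bc00017fd3530082d) (.hit (nat_lit 48) (nat_lit 20) (nat_lit 0x5e0000bc00017f538afefda) b54279 (.hit (nat_lit 49) (nat_lit 28) (nat_lit 0x5e0000bc00017fd3530082d) b54280 (.nil))) (.nil)))) (.tok (nat_lit 55) (nat_lit 0x5e0000bc000180508b00f7a) (.hit (nat_lit 40) (nat_lit 0) (nat_lit 0x5e0000bc0001802e7b00393) b54273 (.tok (nat_lit 3) (nat_lit 0x5e0000bc0001802b8300ad9) (.hit (nat_lit 41) (nat_lit 1) (nat_lit 0x5e0000bc00017fb5d2ffc23) b54274 (.one (nat_lit 67) (nat_lit 42) (nat_lit 2) (nat_lit 0x5e0000bc0001802b8300ad9) b54275 (.nil))) (.tok (nat_lit 6) (nat_lit 0x5e0000bc000180508b00f7a)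 (.hit (nat_lit 43) (nat_lit 7) (nat_lit 0x5e0000bc000180508b00f7a) b54276 (.hit (nat_lit 44) (nat_lit 15) (nat_lit 0x5e0000bc00017f69caff2a2) b54277 (.nil))) (.nil)))) (.tok (nat_lit 58) (nat_lit 0x5e0000bc000180f93302865) (.hit (nat_lit 32) (nat_lit 0) (nat_lit 0x5e0000bc00018070c302865) b54265 (.tok (nat_lit 3) (nat_lit 0x5e0000bc000180f9330248f) (.hit (nat_lit 33) (nat_lit 1) (nat_lit 0x5e0000bc0001805f8301159) b54266 (.one (nat_lit 55) (nat_lit 34) (nat_lit 3) (nat_lit 0x5e0000bc000180f9330248f) b54267 (.nil))) (.tok (nat_lit 9) (nat_lit 0x5e0000bc000180eeb30233f) (.hit (nat_lit 35) (nat_lit 20) (nat_lit 0x5e0000bc000180864301631) b54268 (.hit (nat_lit 38) (nat_lit 28) (nat_lit 0x5e0000bc00018043d300de3) b54271 (.tok (nat_lit 67) (nat_lit 0x5e0000bc000180eeb30233f) (.hit (nat_lit 36) (nat_lit 21) (nat_lit 0x5e0000bc000180bb6301cd5) b54269 (.hit (nat_lit 39) (nat_lit 29) (nat_lit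 0x5e0000bc000180e2a3021bd) b54272 (.one (nat_lit 9) (nat_lit 37) (nat_lit 22) (nat_lit 0x5e0000bc000180eeb30233f) b54270 (.nil)))) (.nil)))) (.nil)))) (.nil))))
noncomputable def r77_18 : Rw Blk := .tok (nat_lit 3) (nat_lit 0x5e0000bc000181c24b04185) (.hit (nat_lit 0) (nat_lit 0) (nat_lit 0x5e0000bc000181c24b03e24) b54283 (.tok (nat_lit 9) (nat_lit 0x5e0000bc00018116fb01d20) (.hit (nat_lit 1) (nat_lit 20) (nat_lit 0x5e0000bc00017f948afecd2) b54284 (.hit (nat_lit 6) (nat_lit 28) (nat_lit 0x5e0000bc00017fc0aaff256) b54287 (.tok (nat_lit 68) (nat_lit 0x5e0000bc00018116fb01d20) (.hit (nat_lit 4) (nat_lit 26) (nat_lit 0x5e0000bc000180286afff4e) b54285 (.hit (nat_lit 8) (nat_lit 32) (nat_lit 0x5e0000bc000180bc93011d3) b54288 (.one (nat_lit 9) (nat_lit 5) (nat_lit 27) (nat_lit 0x5e0000bc00018116fb01d20) b54286 (.nil)))) (.nil)))) (.tok (nat_lit 64) (nat_lit 0x5e0000bc0001813cd3021db)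 (.hit (nat_lit 9) (nat_lit 50) (nat_lit 0x5e0000bc000181128b01c92) b54289 (.hit (nat_lit 10) (nat_lit 51) (nat_lit 0x5e0000bc0001813cd3021db) b54290 (.nil))) (.tok (nat_lit 67) (nat_lit 0x5e0000bc000181b1db04185) (.hit (nat_lit 11) (nat_lit 52) (nat_lit 0x5e0000bc000181b1db04185) b54291 (.one (nat_lit 3) (nat_lit 17) (nat_lit 58) (nat_lit 0x5e0000bc000180cfdb0143c) b54297 (.tok (nat_lit 9) (nat_lit 0x5e0000bc000180e72301725) (.hit (nat_lit 12) (nat_lit 53) (nat_lit 0x5e0000bc000180a71b00f24) b54292 (.hit (nat_lit 15) (nat_lit 56) (nat_lit 0x5e0000bc0001809f4300e29) b54295 (.tok (nat_lit 67) (nat_lit 0x5e0000bc000180e72301725) (.hit (nat_lit 13) (nat_lit 54) (nat_lit 0x5e0000bc000180cc7b013d0) b54293 (.hit (nat_lit 16) (nat_lit 57) (nat_lit 0x5e0000bc000180e72301725) b54296 (.one (nat_lit 9) (nat_lit 14) (nat_lit 55) (nat_lit 0x5e0000bc000180a33300ea7) b54294 (.nil)))) (.nil))))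 (.nil)))) (.one (nat_lit 70) (nat_lit 19) (nat_lit 60) (nat_lit 0x5e0000bc000180f31b018a4) b54298 (.nil)))))) (.tok (nat_lit 6) (nat_lit 0x5e0000bc000182505b04f93) (.hit (nat_lit 20) (nat_lit 0) (nat_lit 0x5e0000bc000182505b04362) b54299 (.tok (nat_lit 6) (nat_lit 0x5e0000bc000182200b04f93) (.hit (nat_lit 21) (nat_lit 7) (nat_lit 0x5e0000bc000181911b030ac) b54300 (.hit (nat_lit 24) (nat_lit 15) (nat_lit 0x5e0000bc000181525302987) b54301 (.one (nat_lit 68) (nat_lit 26) (nat_lit 18) (nat_lit 0x5e0000bc000182200b04f93) b54302 (.nil)))) (.nil))) (.nil))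
noncomputable def r77_19 : Rw Blk := .tok (nat_lit 6) (nat_lit 0x5e0000bc0001800002ffd64) (.hit (nat_lit 0) (nat_lit 0) (nat_lit 0x5e0000bc00017ebddafe022) b54303 (.tok (nat_lit 14) (nat_lit 0x5e0000bc0001800002ffd64) (.hit (nat_lit 21) (nat_lit 61) (nat_lit 0x5e0000bc00017f8e02fe9f0) b54304 (.one (nat_lit 3) (nat_lit 22) (nat_lit 62) (nat_lit 0x5e0000bc00017f22b2fe01b) b54305 (.tok (nat_lit 6) (nat_lit 0x5e0000bc00017f2662fea81) (.hit (nat_lit 25) (nat_lit 65) (nat_lit 0x5e0000bc00017e9022fe73c) b54306 (.hit (nat_lit 26) (nat_lit 66) (nat_lit 0x5e0000bc00017f2662fea81) b54307 (.nil))) (.tok (nat_lit 9) (nat_lit 0x5e0000bc0001800002ffd64) (.hit (nat_lit 23) (nat_lit 63) (nat_lit 0x5e0000bc0001800002ffd64) b54308 (.hit (nat_lit 24) (nat_lit 64) (nat_lit 0x5e0000bc00017f4a5afe7d5) b54309 (.nil))) (.nil))))) (.one (nat_lit 17) (nat_lit 27) (nat_lit 67) (nat_lit 0x5e0000bc00017ed372fd58a)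 b54310 (.tok (nat_lit 20) (nat_lit 0x5e0000bc00017f1b92fe829) (.hit (nat_lit 28) (nat_lit 68) (nat_lit 0x5e0000bc00017f1b92fe829) b54313 (.hit (nat_lit 29) (nat_lit 69) (nat_lit 0x5e0000bc00017eba02fd3f8) b54314 (.nil))) (.tok (nat_lit 23) (nat_lit 0x5e0000bc00017ed222fdfbd) (.hit (nat_lit 30) (nat_lit 70) (nat_lit 0x5e0000bc00017e542afdfbd) b54311 (.hit (nat_lit 31) (nat_lit 71) (nat_lit 0x5e0000bc00017ed222fd3f6) b54312 (.nil))) (.one (nat_lit 26) (nat_lit 32) (nat_lit 72) (nat_lit 0x5e0000bc00017e96d2fc5e4) b54315 (.one (nat_lit 29) (nat_lit 33) (nat_lit 73) (nat_lit 0x5e0000bc00017e897afc633) b54316 (.one (nat_lit 32) (nat_lit 34) (nat_lit 74) (nat_lit 0x5e0000bc00017e493afc775) b54318 (.one (nat_lit 35) (nat_lit 35) (nat_lit 75) (nat_lit 0x5e0000bc00017ec562fcba8) b54317 (.one (nat_lit 38) (nat_lit 36) (nat_lit 76) (nat_lit 0x5e0000bc00017eb12afd5ca) b54319 (.tok (nat_lit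 41) (nat_lit 0x5e0000bc00017e9e3afccd5) (.hit (nat_lit 37) (nat_lit 77) (nat_lit 0x5e0000bc00017e9e3afc8e7) b54320 (.hit (nat_lit 38) (nat_lit 78) (nat_lit 0x5e0000bc00017e85aafccd5) b54321 (.nil))) (.tok (nat_lit 44) (nat_lit 0x5e0000bc00017eea6afd149) (.hit (nat_lit 39) (nat_lit 79) (nat_lit 0x5e0000bc00017eea6afd149) b54324 (.hit (nat_lit 40) (nat_lit 80) (nat_lit 0x5e0000bc00017ea65afc9b4) b54325 (.nil))) (.tok (nat_lit 47) (nat_lit 0x5e0000bc00017edb8afce67) (.hit (nat_lit 41) (nat_lit 81) (nat_lit 0x5e0000bc00017d41cafbd71) b54322 (.hit (nat_lit 42) (nat_lit 82) (nat_lit 0x5e0000bc00017edb8afce67) b54323 (.nil))) (.one (nat_lit 50) (nat_lit 43) (nat_lit 83) (nat_lit 0x5e0000bc00017f01c2fd32e) b54326 (.tok (nat_lit 53) (nat_lit 0x5e0000bc00017f110afe084) (.hit (nat_lit 44) (nat_lit 84) (nat_lit 0x5e0000bc00017f110afe084) b54327 (.hit (nat_lit 45) (nat_lit 85) (nat_lit 0x5e0000bc00017eed6afd119)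 b54328 (.nil))) (.tok (nat_lit 56) (nat_lit 0x5e0000bc00017fc1aafeedd) (.hit (nat_lit 46) (nat_lit 86) (nat_lit 0x5e0000bc00017f7efafebbb) b54329 (.one (nat_lit 3) (nat_lit 50) (nat_lit 90) (nat_lit 0x5e0000bc00017f2a92fdac2) b54333 (.tok (nat_lit 6) (nat_lit 0x5e0000bc00017fc1aafeedd) (.hit (nat_lit 48) (nat_lit 88) (nat_lit 0x5e0000bc00017fc1aafeedd) b54331 (.hit (nat_lit 49) (nat_lit 89) (nat_lit 0x5e0000bc00017f2212fd888) b54332 (.nil))) (.one (nat_lit 9) (nat_lit 47) (nat_lit 87) (nat_lit 0x5e0000bc00017fa692fec43) b54330 (.nil))))) (.one (nat_lit 59) (nat_lit 51) (nat_lit 91) (nat_lit 0x5e0000bc00017ec4dafcb91) b54334 (.nil)))))))))))))))))) (.tok (nat_lit 52) (nat_lit 0x5e0000bc00017fba3300624) (.hit (nat_lit 176) (nat_lit 0) (nat_lit 0x5e0000bc00017faae300624) b54335 (.tok (nat_lit 6) (nat_lit 0x5e0000bc00017fba3300621) (.hit (nat_lit 177) (nat_lit 7) (nat_lit 0x5e0000bc00017fba3300621)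 b54338 (.hit (nat_lit 178) (nat_lit 15) (nat_lit 0x5e0000bc00017f392aff9ea) b54339 (.nil))) (.tok (nat_lit 9) (nat_lit 0x5e0000bc00017f7b02ffe8a) (.hit (nat_lit 179) (nat_lit 20) (nat_lit 0x5e0000bc00017f090aff8ab) b54336 (.hit (nat_lit 180) (nat_lit 28) (nat_lit 0x5e0000bc00017f7b02ffe8a) b54337 (.nil))) (.nil)))) (.tok (nat_lit 55) (nat_lit 0x5e0000bc00017fd41300832) (.hit (nat_lit 187) (nat_lit 0) (nat_lit 0x5e0000bc00017fd412ffbbb) b54345 (.tok (nat_lit 3) (nat_lit 0x5e0000bc00017f3bc2fff02) (.hit (nat_lit 188) (nat_lit 1) (nat_lit 0x5e0000bc00017ed19aff1bd) b54346 (.one (nat_lit 67) (nat_lit 189) (nat_lit 2) (nat_lit 0x5e0000bc00017f3bc2fff02) b54347 (.nil))) (.tok (nat_lit 6) (nat_lit 0x5e0000bc00017f854300832) (.hit (nat_lit 190) (nat_lit 7) (nat_lit 0x5e0000bc00017eb892fee9c) b54348 (.hit (nat_lit 193) (nat_lit 15) (nat_lit 0x5e0000bc00017ed232ff1d0) b54351 (.tok (nat_lit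 55) (nat_lit 0x5e0000bc00017f854300832) (.hit (nat_lit 191) (nat_lit 8) (nat_lit 0x5e0000bc00017f348affe1b) b54349 (.hit (nat_lit 194) (nat_lit 16) (nat_lit 0x5e0000bc00017f49e3000c6) b54352 (.one (nat_lit 6) (nat_lit 192) (nat_lit 9) (nat_lit 0x5e0000bc00017f854300832) b54350 (.nil)))) (.nil)))) (.nil)))) (.tok (nat_lit 58) (nat_lit 0x5e0000bc00017f9f3300b70) (.hit (nat_lit 201) (nat_lit 0) (nat_lit 0x5e0000bc00017f6bd2ff903) b54340 (.tok (nat_lit 3) (nat_lit 0x5e0000bc00017f9f3300b70) (.hit (nat_lit 202) (nat_lit 1) (nat_lit 0x5e0000bc00017edafaff2e9) b54341 (.one (nat_lit 55) (nat_lit 203) (nat_lit 3) (nat_lit 0x5e0000bc00017f9f3300b70) b54342 (.nil))) (.tok (nat_lit 9) (nat_lit 0x5e0000bc00017f15e2ffa46) (.hit (nat_lit 204) (nat_lit 20) (nat_lit 0x5e0000bc00017f15e2ffa46) b54343 (.hit (nat_lit 207) (nat_lit 28) (nat_lit 0x5e0000bc00017ecb9aff0fd) b54344 (.nil))) (.nil))))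 (.nil))))
noncomputable def r77_20 : Rw Blk := .tok (nat_lit 3) (nat_lit 0x5e0000bc000180b20302221) (.hit (nat_lit 15) (nat_lit 0) (nat_lit 0x5e0000bc00017f163afeea5) b54368 (.tok (nat_lit 9) (nat_lit 0x5e0000bc00017e887afda02) (.hit (nat_lit 16) (nat_lit 20) (nat_lit 0x5e0000bc00017e0ca2fca87) b54369 (.hit (nat_lit 21) (nat_lit 28) (nat_lit 0x5e0000bc00017d06dafa9ce) b54372 (.tok (nat_lit 14) (nat_lit 0x5e0000bc00017e887afda02) (.hit (nat_lit 17) (nat_lit 24) (nat_lit 0x5e0000bc00017e4a7afd242) b54370 (.hit (nat_lit 22) (nat_lit 30) (nat_lit 0x5e0000bc00017e4352fd15d) b54373 (.one (nat_lit 6) (nat_lit 18) (nat_lit 25) (nat_lit 0x5e0000bc00017e887afda02) b54371 (.nil)))) (.one (nat_lit 56) (nat_lit 23) (nat_lit 31) (nat_lit 0x5e0000bc00017e4e9afd2c6) b54374 (.nil))))) (.tok (nat_lit 64) (nat_lit 0x5e0000bc00017e9daafdca8) (.hit (nat_lit 25) (nat_lit 50) (nat_lit 0x5e0000bc00017e9daafdca8)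 b54375 (.hit (nat_lit 26) (nat_lit 51) (nat_lit 0x5e0000bc00017e7a72fd841) b54376 (.nil))) (.tok (nat_lit 67) (nat_lit 0x5e0000bc000180b20302221) (.hit (nat_lit 27) (nat_lit 52) (nat_lit 0x5e0000bc000180b20302221) b54377 (.tok (nat_lit 3) (nat_lit 0x5e0000bc00017ef9dafe82e) (.hit (nat_lit 33) (nat_lit 58) (nat_lit 0x5e0000bc00017ed6d2fe3cd) b54380 (.one (nat_lit 55) (nat_lit 34) (nat_lit 59) (nat_lit 0x5e0000bc00017ef9dafe82e) b54381 (.nil))) (.tok (nat_lit 9) (nat_lit 0x5e0000bc00017e8952fda1d) (.hit (nat_lit 28) (nat_lit 53) (nat_lit 0x5e0000bc00017e8952fda1d) b54378 (.hit (nat_lit 31) (nat_lit 56) (nat_lit 0x5e0000bc00017e74c2fd78b) b54379 (.nil))) (.nil)))) (.one (nat_lit 70) (nat_lit 35) (nat_lit 60) (nat_lit 0x5e0000bc00017ef95afe81e) b54382 (.nil)))))) (.tok (nat_lit 6) (nat_lit 0x5e0000bc000181504302f27) (.hit (nat_lit 0) (nat_lit 0) (nat_lit 0x5e0000bc00017f714aff4b3)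 b54353 (.tok (nat_lit 6) (nat_lit 0x5e0000bc0001801fbb016bd) (.hit (nat_lit 1) (nat_lit 7) (nat_lit 0x5e0000bc00017f1d92fe74c) b54354 (.hit (nat_lit 4) (nat_lit 15) (nat_lit 0x5e0000bc00017e5e8afcd18) b54357 (.tok (nat_lit 14) (nat_lit 0x5e0000bc0001801fbb016bd) (.hit (nat_lit 2) (nat_lit 11) (nat_lit 0x5e0000bc0001801fbb016bd) b54355 (.hit (nat_lit 5) (nat_lit 17) (nat_lit 0x5e0000bc00017f1a4afe41e) b54358 (.one (nat_lit 9) (nat_lit 3) (nat_lit 12) (nat_lit 0x5e0000bc00017fc97300fdc) b54356 (.nil)))) (.one (nat_lit 68) (nat_lit 6) (nat_lit 18) (nat_lit 0x5e0000bc00017f4eb2fea59) b54359 (.nil))))) (.tok (nat_lit 52) (nat_lit 0x5e0000bc0001800bbb00351) (.hit (nat_lit 7) (nat_lit 39) (nat_lit 0x5e0000bc0001800bbb00351) b54360 (.hit (nat_lit 8) (nat_lit 40) (nat_lit 0x5e0000bc00017f5ff2fecf2) b54361 (.nil))) (.tok (nat_lit 55) (nat_lit 0x5e0000bc000181504302f27) (.hit (nat_lit 9)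 (nat_lit 41) (nat_lit 0x5e0000bc000181504302f27) b54362 (.tok (nat_lit 3) (nat_lit 0x5e0000bc0001809dcb01838) (.hit (nat_lit 12) (nat_lit 47) (nat_lit 0x5e0000bc00017fd463004c9) b54365 (.one (nat_lit 67) (nat_lit 13) (nat_lit 48) (nat_lit 0x5e0000bc0001809dcb01838) b54366 (.nil))) (.tok (nat_lit 6) (nat_lit 0x5e0000bc000180310b00905) (.hit (nat_lit 10) (nat_lit 42) (nat_lit 0x5e0000bc000180310b00905) b54363 (.hit (nat_lit 11) (nat_lit 45) (nat_lit 0x5e0000bc00017fbd42ff8a3) b54364 (.nil))) (.nil)))) (.one (nat_lit 58) (nat_lit 14) (nat_lit 49) (nat_lit 0x5e0000bc00017f14faff468) b54367 (.nil)))))) (.nil))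
noncomputable def r78_0 : Rw Blk := .tok (nat_lit 6) (nat_lit 0x300000600000c00001800002fe2355fe36ec0009980000300000) (.hit (nat_lit 81) (nat_lit 0) (nat_lit 0x2fe4b85fd5d4bf98697f511afdc5a5fd4a6bf79617fb932fe061) b54384 (.tok (nat_lit 3) (nat_lit 0x2feb0b5fdbe0bfd9517f299afd5b15fca66bfa39d7f91b2fe9d2) (.hit (nat_lit 82) (nat_lit 1) (nat_lit 0x2fcbb35f88b0bf69c97e239afb4f15f88e6bf12297e8bb2fcbc3) b54385 (.one (nat_lit 14) (nat_lit 84) (nat_lit 4) (nat_lit 0x2fe8a95fdbe0bfbe497ee722fbf755fa1bcbfa39d7f42fafe72d) b54386 (.one (nat_lit 68) (nat_lit 85) (nat_lit 5) (nat_lit 0x2feb0b5fd3a2bfd9517f299afd5b15fca66bf9af17f91b2fe9d2) b54387 (.nil)))) (.tok (nat_lit 40) (nat_lit 0x2fe7215fd042bfb9597f190afc9b25fb268bf8e8d7f40dafe817) (.hit (nat_lit 100) (nat_lit 33) (nat_lit 0x2fe7215fd042bfb9597eea02fc9b25fb268bf8e8d7f40dafe817) b54388 (.hit (nat_lit 101) (nat_lit 34) (nat_lit 0x2fe2775fb726bf90d17f190afc3785fa5f4bf85117f1652fe331)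 b54389 (.nil))) (.tok (nat_lit 43) (nat_lit 0x2fecc7600000bfc0317f5f3afdc515fd7a6c000997fe4eaff03b) (.hit (nat_lit 102) (nat_lit 35) (nat_lit 0x2fecc7600000bfc0317f5f3afdc515fd7a6c000997fe4eaff03b) b54390 (.hit (nat_lit 103) (nat_lit 36) (nat_lit 0x2fe7225fd476bfbc317f474afd2bc5fc47cbf88c57f7a0afe8f9) b54391 (.nil))) (.tok (nat_lit 46) (nat_lit 0x3000005ff54cc00001800002fe2355fe36ebfea6980000300000) (.hit (nat_lit 104) (nat_lit 37) (nat_lit 0x2fe23a5fbc94bfed7d7f8dbafe2355fe36ebf88d57ff5d2fe891) b54392 (.hit (nat_lit 105) (nat_lit 38) (nat_lit 0x3000005ff54cc00001800002fd8485fd07cbfea6980000300000) b54393 (.nil))) (.nil)))))) (.tok (nat_lit 9) (nat_lit 0x300000600000c000017f8dbb00026600000bf88d580000300000) (.hit (nat_lit 157) (nat_lit 0) (nat_lit 0x2fe4b85fd5d4bf98697f529afde585fd446bf71697fb932fe061) b54394 (.tok (nat_lit 3) (nat_lit 0x2feb0b5fdbe0bfd9517f299afe8e75fca66bf56c57f91b2fe9d2)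 (.hit (nat_lit 158) (nat_lit 1) (nat_lit 0x2fcbb35f88b0bf69c97e239afc48a5f88e6bed3c57e8bb2fcbc3) b54395 (.one (nat_lit 14) (nat_lit 160) (nat_lit 4) (nat_lit 0x2fe8a95fdbe0bfbe497e86f2fe8e75fb9c8befdd57f42fafe72d) b54396 (.one (nat_lit 56) (nat_lit 162) (nat_lit 6) (nat_lit 0x2feb0b5fd3a2bfd9517f299afe6bc5fca66bf56c57f91b2fe9d2) b54397 (.nil)))) (.tok (nat_lit 40) (nat_lit 0x2fe7215fd042bfb9597ec9a2fe3a35fc642bf26c97f40dafe817) (.hit (nat_lit 176) (nat_lit 33) (nat_lit 0x2fe7215fd042bfb9597ec9a2fe3a35fba80bf26c97f40dafe817) b54398 (.hit (nat_lit 177) (nat_lit 34) (nat_lit 0x2fe2775fb726bf90d17e97d2fe1445fc642bf0de17f1652fe331) b54399 (.nil))) (.tok (nat_lit 43) (nat_lit 0x3000005ff54cc000017f8dbaffa9a600000bf88d580000300000) (.hit (nat_lit 178) (nat_lit 35) (nat_lit 0x2fe23a5fbc94bfed7d7f8dbafe2355fe36ebf88d57ff5d2fe891) b54392 (.hit (nat_lit 179) (nat_lit 36) (nat_lit 0x3000005ff54cc000017f41f2ffa9a600000bf612180000300000)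 b54400 (.nil))) (.tok (nat_lit 46) (nat_lit 0x2fecc7600000bfc0317f5e9b000265fd7cebf71457fe4eaff03b) (.hit (nat_lit 180) (nat_lit 37) (nat_lit 0x2fecc7600000bfc0317f5e9b000265fd7cebf71457fe4eaff03b) b54401 (.hit (nat_lit 181) (nat_lit 38) (nat_lit 0x2fe7225fd476bfbc317f11f2fe2315fd1d2bf4af17f7a0afe8f9) b54402 (.nil))) (.nil)))))) (.nil))
noncomputable def r78_1 : Rw Blk := .tok (nat_lit 3) (nat_lit 0xbc0001780002febcb) (.hit (nat_lit 61) (nat_lit 0) (nat_lit 0xbc0001780002fd90a) b54403 (.tok (nat_lit 14) (nat_lit 0xbc0001780002febcb) (.hit (nat_lit 82) (nat_lit 61) (nat_lit 0xbc0001780002febcb) b54404 (.one (nat_lit 3) (nat_lit 83) (nat_lit 62) (nat_lit 0xbc0001780002fc629) b54405 (.tok (nat_lit 6) (nat_lit 0xbc0001780002fcab4) (.hit (nat_lit 86) (nat_lit 65) (nat_lit 0xbc0001780002fc9d9) b54408 (.hit (nat_lit 87) (nat_lit 66) (nat_lit 0xbc0001780002fcab4) b54409 (.nil))) (.tok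 (nat_lit 9) (nat_lit 0xbc0001780002fe9cd) (.hit (nat_lit 84) (nat_lit 63) (nat_lit 0xbc0001780002fe9cd) b54406 (.hit (nat_lit 85) (nat_lit 64) (nat_lit 0xbc0001780002fc8e6) b54407 (.nil))) (.nil))))) (.one (nat_lit 17) (nat_lit 88) (nat_lit 67) (nat_lit 0xbc0001780002fc1cb) b54410 (.tok (nat_lit 20) (nat_lit 0xbc0001780002fc7f4) (.hit (nat_lit 89) (nat_lit 68) (nat_lit 0xbc0001780002fc7f4) b54411 (.hit (nat_lit 90) (nat_lit 69) (nat_lit 0xbc0001780002fbfd4) b54412 (.nil))) (.tok (nat_lit 23) (nat_lit 0xbc0001780002fce19) (.hit (nat_lit 91) (nat_lit 70) (nat_lit 0xbc0001780002fce19) b54413 (.hit (nat_lit 92) (nat_lit 71) (nat_lit 0xbc0001780002fbff4) b54414 (.nil))) (.one (nat_lit 26) (nat_lit 93) (nat_lit 72) (nat_lit 0xbc0001780002fad59) b54415 (.one (nat_lit 29) (nat_lit 94) (nat_lit 73) (nat_lit 0xbc0001780002fafe4) b54416 (.one (nat_lit 32) (nat_lit 95) (nat_lit 74) (nat_lit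 0xbc0001780002fb913) b54417 (.one (nat_lit 35) (nat_lit 96) (nat_lit 75) (nat_lit 0xbc0001780002fb405) b54418 (.one (nat_lit 38) (nat_lit 97) (nat_lit 76) (nat_lit 0xbc0001780002fbeeb) b54419 (.tok (nat_lit 41) (nat_lit 0xbc0001780002fbd26) (.hit (nat_lit 98) (nat_lit 77) (nat_lit 0xbc0001780002fa6aa) b54420 (.hit (nat_lit 99) (nat_lit 78) (nat_lit 0xbc0001780002fbd26) b54421 (.nil))) (.tok (nat_lit 44) (nat_lit 0xbc0001780002fb753) (.hit (nat_lit 100) (nat_lit 79) (nat_lit 0xbc0001780002faabe) b54422 (.hit (nat_lit 101) (nat_lit 80) (nat_lit 0xbc0001780002fb753) b54423 (.nil))) (.tok (nat_lit 47) (nat_lit 0xbc0001780002fb840) (.hit (nat_lit 102) (nat_lit 81) (nat_lit 0xbc0001780002fb746) b54424 (.hit (nat_lit 103) (nat_lit 82) (nat_lit 0xbc0001780002fb840) b54425 (.nil))) (.one (nat_lit 62) (nat_lit 113) (nat_lit 92) (nat_lit 0xbc0001780002fc636) b54426 (.tok (nat_lit 65) (nat_lit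 0xbc0001780002fcbef) (.hit (nat_lit 114) (nat_lit 93) (nat_lit 0xbc0001780002fcbef) b54427 (.hit (nat_lit 115) (nat_lit 94) (nat_lit 0xbc0001780002fbbf3) b54428 (.nil))) (.tok (nat_lit 68) (nat_lit 0xbc0001780002feae2) (.hit (nat_lit 116) (nat_lit 95) (nat_lit 0xbc0001780002feae2) b54429 (.one (nat_lit 3) (nat_lit 120) (nat_lit 99) (nat_lit 0xbc0001780002fd175) b54433 (.one (nat_lit 6) (nat_lit 117) (nat_lit 96) (nat_lit 0xbc0001780002fd47c) b54430 (.tok (nat_lit 9) (nat_lit 0xbc0001780002fd971) (.hit (nat_lit 118) (nat_lit 97) (nat_lit 0xbc0001780002fd4dc) b54431 (.hit (nat_lit 119) (nat_lit 98) (nat_lit 0xbc0001780002fd971) b54432 (.nil))) (.nil))))) (.one (nat_lit 71) (nat_lit 121) (nat_lit 100) (nat_lit 0xbc0001780002faafe) b54434 (.nil)))))))))))))))))) (.tok (nat_lit 40) (nat_lit 0xbc000178000304413) (.hit (nat_lit 245) (nat_lit 0) (nat_lit 0xbc00017800030145d) b54435 (.tok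 (nat_lit 6) (nat_lit 0xbc000178000304413) (.hit (nat_lit 246) (nat_lit 7) (nat_lit 0xbc000178000304413) b54436 (.hit (nat_lit 247) (nat_lit 15) (nat_lit 0xbc0001780002ffceb) b54437 (.nil))) (.tok (nat_lit 9) (nat_lit 0xbc000178000300145) (.hit (nat_lit 248) (nat_lit 20) (nat_lit 0xbc000178000300145) b54438 (.hit (nat_lit 249) (nat_lit 28) (nat_lit 0xbc0001780002fec18) b54439 (.nil))) (.nil)))) (.tok (nat_lit 43) (nat_lit 0xbc00017800030330c) (.hit (nat_lit 270) (nat_lit 0) (nat_lit 0xbc0001780003004e3) b54448 (.tok (nat_lit 3) (nat_lit 0xbc00017800030330c) (.hit (nat_lit 271) (nat_lit 1) (nat_lit 0xbc0001780002ffc27) b54449 (.one (nat_lit 67) (nat_lit 272) (nat_lit 2) (nat_lit 0xbc00017800030330c) b54450 (.nil))) (.tok (nat_lit 6) (nat_lit 0xbc0001780002ff3ae) (.hit (nat_lit 273) (nat_lit 7) (nat_lit 0xbc0001780002fef07) b54451 (.hit (nat_lit 276) (nat_lit 15) (nat_lit 0xbc0001780002ff3ae)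 b54452 (.nil))) (.nil)))) (.tok (nat_lit 46) (nat_lit 0xbc000178000301140) (.hit (nat_lit 256) (nat_lit 0) (nat_lit 0xbc000178000301140) b54440 (.tok (nat_lit 3) (nat_lit 0xbc0001780002ff26d) (.hit (nat_lit 257) (nat_lit 1) (nat_lit 0xbc0001780002fda7c) b54441 (.one (nat_lit 55) (nat_lit 258) (nat_lit 3) (nat_lit 0xbc0001780002ff26d) b54442 (.nil))) (.tok (nat_lit 9) (nat_lit 0xbc0001780002fff52) (.hit (nat_lit 259) (nat_lit 20) (nat_lit 0xbc0001780002fe246) b54443 (.hit (nat_lit 262) (nat_lit 28) (nat_lit 0xbc0001780002fdd17) b54446 (.tok (nat_lit 67) (nat_lit 0xbc0001780002fff52) (.hit (nat_lit 260) (nat_lit 21) (nat_lit 0xbc0001780002ff88e) b54444 (.hit (nat_lit 263) (nat_lit 29) (nat_lit 0xbc0001780002fff52) b54447 (.one (nat_lit 9) (nat_lit 261) (nat_lit 22) (nat_lit 0xbc0001780002ffcb5) b54445 (.nil)))) (.nil)))) (.nil)))) (.nil))))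
noncomputable def r78_2 : Rw Blk := .tok (nat_lit 3) (nat_lit 0xbc0001780002fe9bd) (.hit (nat_lit 61) (nat_lit 0) (nat_lit 0xbc0001780002fd463) b54453 (.tok (nat_lit 14) (nat_lit 0xbc0001780002fe90c) (.hit (nat_lit 82) (nat_lit 61) (nat_lit 0xbc0001780002fe5d4) b54454 (.one (nat_lit 3) (nat_lit 83) (nat_lit 62) (nat_lit 0xbc0001780002fd86f) b54455 (.tok (nat_lit 6) (nat_lit 0xbc0001780002fe90c) (.hit (nat_lit 86) (nat_lit 65) (nat_lit 0xbc0001780002fe90c) b54458 (.hit (nat_lit 87) (nat_lit 66) (nat_lit 0xbc0001780002fd24a) b54459 (.nil))) (.tok (nat_lit 9) (nat_lit 0xbc0001780002fe7bb) (.hit (nat_lit 84) (nat_lit 63) (nat_lit 0xbc0001780002fe7bb) b54456 (.hit (nat_lit 85) (nat_lit 64) (nat_lit 0xbc0001780002fe1f7) b54457 (.nil))) (.nil))))) (.one (nat_lit 17) (nat_lit 88) (nat_lit 67) (nat_lit 0xbc0001780002fd15b) b54460 (.tok (nat_lit 20) (nat_lit 0xbc0001780002fcbb1) (.hit (nat_lit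 89) (nat_lit 68) (nat_lit 0xbc0001780002fcbb1) b54461 (.hit (nat_lit 90) (nat_lit 69) (nat_lit 0xbc0001780002fc368) b54462 (.nil))) (.tok (nat_lit 23) (nat_lit 0xbc0001780002fcaab) (.hit (nat_lit 91) (nat_lit 70) (nat_lit 0xbc0001780002fcaab) b54463 (.hit (nat_lit 92) (nat_lit 71) (nat_lit 0xbc0001780002fc368) b54462 (.nil))) (.one (nat_lit 26) (nat_lit 93) (nat_lit 72) (nat_lit 0xbc0001780002fb7f0) b54464 (.one (nat_lit 29) (nat_lit 94) (nat_lit 73) (nat_lit 0xbc0001780002fb8ac) b54465 (.one (nat_lit 32) (nat_lit 95) (nat_lit 74) (nat_lit 0xbc0001780002fbd99) b54466 (.one (nat_lit 35) (nat_lit 96) (nat_lit 75) (nat_lit 0xbc0001780002fb3e1) b54467 (.one (nat_lit 38) (nat_lit 97) (nat_lit 76) (nat_lit 0xbc0001780002fc491) b54468 (.tok (nat_lit 41) (nat_lit 0xbc0001780002fccbf) (.hit (nat_lit 98) (nat_lit 77) (nat_lit 0xbc0001780002fa97f) b54469 (.hit (nat_lit 99) (nat_lit 78) (nat_lit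 0xbc0001780002fccbf) b54470 (.nil))) (.tok (nat_lit 44) (nat_lit 0xbc0001780002fbe16) (.hit (nat_lit 100) (nat_lit 79) (nat_lit 0xbc0001780002fb360) b54471 (.hit (nat_lit 101) (nat_lit 80) (nat_lit 0xbc0001780002fbe16) b54472 (.nil))) (.tok (nat_lit 47) (nat_lit 0xbc0001780002fc4b1) (.hit (nat_lit 102) (nat_lit 81) (nat_lit 0xbc0001780002fb8e2) b54473 (.hit (nat_lit 103) (nat_lit 82) (nat_lit 0xbc0001780002fc4b1) b54474 (.nil))) (.one (nat_lit 62) (nat_lit 113) (nat_lit 92) (nat_lit 0xbc0001780002fc657) b54475 (.tok (nat_lit 65) (nat_lit 0xbc0001780002fd7a3) (.hit (nat_lit 114) (nat_lit 93) (nat_lit 0xbc0001780002fd7a3) b54476 (.hit (nat_lit 115) (nat_lit 94) (nat_lit 0xbc0001780002fc7c1) b54477 (.nil))) (.tok (nat_lit 68) (nat_lit 0xbc0001780002fe9bd) (.hit (nat_lit 116) (nat_lit 95) (nat_lit 0xbc0001780002fe628) b54478 (.one (nat_lit 3) (nat_lit 120) (nat_lit 99) (nat_lit 0xbc0001780002fca8d)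 b54482 (.one (nat_lit 6) (nat_lit 117) (nat_lit 96) (nat_lit 0xbc0001780002fe18f) b54479 (.tok (nat_lit 9) (nat_lit 0xbc0001780002fe9bd) (.hit (nat_lit 118) (nat_lit 97) (nat_lit 0xbc0001780002fe9bd) b54480 (.hit (nat_lit 119) (nat_lit 98) (nat_lit 0xbc0001780002fc3ea) b54481 (.nil))) (.nil))))) (.one (nat_lit 71) (nat_lit 121) (nat_lit 100) (nat_lit 0xbc0001780002faf56) b54483 (.nil)))))))))))))))))) (.tok (nat_lit 40) (nat_lit 0xbc000178000300711) (.hit (nat_lit 245) (nat_lit 0) (nat_lit 0xbc000178000300711) b54484 (.tok (nat_lit 6) (nat_lit 0xbc000178000300641) (.hit (nat_lit 246) (nat_lit 7) (nat_lit 0xbc000178000300641) b54485 (.hit (nat_lit 247) (nat_lit 15) (nat_lit 0xbc0001780002ff9ef) b54486 (.nil))) (.tok (nat_lit 9) (nat_lit 0xbc0001780002ff544) (.hit (nat_lit 248) (nat_lit 20) (nat_lit 0xbc0001780002ff544) b54487 (.hit (nat_lit 249) (nat_lit 28) (nat_lit 0xbc0001780002fef25)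 b54488 (.nil))) (.nil)))) (.tok (nat_lit 43) (nat_lit 0xbc0001780003026db) (.hit (nat_lit 270) (nat_lit 0) (nat_lit 0xbc0001780003001b9) b54497 (.tok (nat_lit 3) (nat_lit 0xbc0001780003026db) (.hit (nat_lit 271) (nat_lit 1) (nat_lit 0xbc0001780002ff335) b54498 (.one (nat_lit 67) (nat_lit 272) (nat_lit 2) (nat_lit 0xbc0001780003026db) b54499 (.nil))) (.tok (nat_lit 6) (nat_lit 0xbc0001780002ff571) (.hit (nat_lit 273) (nat_lit 7) (nat_lit 0xbc0001780002ff571) b54500 (.hit (nat_lit 276) (nat_lit 15) (nat_lit 0xbc0001780002fec46) b54501 (.nil))) (.nil)))) (.tok (nat_lit 46) (nat_lit 0xbc000178000301ae3) (.hit (nat_lit 256) (nat_lit 0) (nat_lit 0xbc00017800030057f) b54489 (.tok (nat_lit 3) (nat_lit 0xbc0001780003012b1) (.hit (nat_lit 257) (nat_lit 1) (nat_lit 0xbc0001780002ff17e) b54490 (.one (nat_lit 55) (nat_lit 258) (nat_lit 3) (nat_lit 0xbc0001780003012b1) b54491 (.nil))) (.tok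 (nat_lit 9) (nat_lit 0xbc000178000301ae3) (.hit (nat_lit 259) (nat_lit 20) (nat_lit 0xbc000178000300da7) b54492 (.hit (nat_lit 262) (nat_lit 28) (nat_lit 0xbc000178000300232) b54495 (.tok (nat_lit 67) (nat_lit 0xbc000178000301ae3) (.hit (nat_lit 260) (nat_lit 21) (nat_lit 0xbc00017800030171a) b54493 (.hit (nat_lit 263) (nat_lit 29) (nat_lit 0xbc000178000301926) b54496 (.one (nat_lit 9) (nat_lit 261) (nat_lit 22) (nat_lit 0xbc000178000301ae3) b54494 (.nil)))) (.nil)))) (.nil)))) (.nil))))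
noncomputable def r78_3 : Rw Blk := .tok (nat_lit 3) (nat_lit 0xbc0001780002febcb) (.hit (nat_lit 61) (nat_lit 0) (nat_lit 0xbc0001780002fd90a) b54403 (.tok (nat_lit 14) (nat_lit 0xbc0001780002febcb) (.hit (nat_lit 82) (nat_lit 61) (nat_lit 0xbc0001780002febcb) b54404 (.one (nat_lit 3) (nat_lit 83) (nat_lit 62) (nat_lit 0xbc0001780002fc629) b54405 (.tok (nat_lit 6) (nat_lit 0xbc0001780002fe9cd) (.hit (nat_lit 86) (nat_lit 65) (nat_lit 0xbc0001780002fe9cd) b54406 (.hit (nat_lit 87) (nat_lit 66) (nat_lit 0xbc0001780002fc8e6) b54407 (.nil))) (.tok (nat_lit 9) (nat_lit 0xbc0001780002fcab4) (.hit (nat_lit 84) (nat_lit 63) (nat_lit 0xbc0001780002fc9d9) b54408 (.hit (nat_lit 85) (nat_lit 64) (nat_lit 0xbc0001780002fcab4) b54409 (.nil))) (.nil))))) (.one (nat_lit 17) (nat_lit 88) (nat_lit 67) (nat_lit 0xbc0001780002fc1cb) b54410 (.tok (nat_lit 20) (nat_lit 0xbc0001780002fce19) (.hit (nat_lit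 89) (nat_lit 68) (nat_lit 0xbc0001780002fce19) b54413 (.hit (nat_lit 90) (nat_lit 69) (nat_lit 0xbc0001780002fbff4) b54414 (.nil))) (.tok (nat_lit 23) (nat_lit 0xbc0001780002fc7f4) (.hit (nat_lit 91) (nat_lit 70) (nat_lit 0xbc0001780002fc7f4) b54411 (.hit (nat_lit 92) (nat_lit 71) (nat_lit 0xbc0001780002fbfd4) b54412 (.nil))) (.one (nat_lit 26) (nat_lit 93) (nat_lit 72) (nat_lit 0xbc0001780002fad59) b54415 (.one (nat_lit 29) (nat_lit 94) (nat_lit 73) (nat_lit 0xbc0001780002fafe4) b54416 (.one (nat_lit 32) (nat_lit 95) (nat_lit 74) (nat_lit 0xbc0001780002fb405) b54418 (.one (nat_lit 35) (nat_lit 96) (nat_lit 75) (nat_lit 0xbc0001780002fb913) b54417 (.one (nat_lit 38) (nat_lit 97) (nat_lit 76) (nat_lit 0xbc0001780002fbeeb) b54419 (.tok (nat_lit 41) (nat_lit 0xbc0001780002fbd26) (.hit (nat_lit 98) (nat_lit 77) (nat_lit 0xbc0001780002fa6aa) b54420 (.hit (nat_lit 99) (nat_lit 78) (nat_lit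 0xbc0001780002fbd26) b54421 (.nil))) (.tok (nat_lit 44) (nat_lit 0xbc0001780002fb840) (.hit (nat_lit 100) (nat_lit 79) (nat_lit 0xbc0001780002fb746) b54424 (.hit (nat_lit 101) (nat_lit 80) (nat_lit 0xbc0001780002fb840) b54425 (.nil))) (.tok (nat_lit 47) (nat_lit 0xbc0001780002fb753) (.hit (nat_lit 102) (nat_lit 81) (nat_lit 0xbc0001780002faabe) b54422 (.hit (nat_lit 103) (nat_lit 82) (nat_lit 0xbc0001780002fb753) b54423 (.nil))) (.one (nat_lit 50) (nat_lit 104) (nat_lit 83) (nat_lit 0xbc0001780002fc636) b54426 (.tok (nat_lit 53) (nat_lit 0xbc0001780002fcbef) (.hit (nat_lit 105) (nat_lit 84) (nat_lit 0xbc0001780002fcbef) b54427 (.hit (nat_lit 106) (nat_lit 85) (nat_lit 0xbc0001780002fbbf3) b54428 (.nil))) (.tok (nat_lit 56) (nat_lit 0xbc0001780002feae2) (.hit (nat_lit 107) (nat_lit 86) (nat_lit 0xbc0001780002feae2) b54429 (.one (nat_lit 3) (nat_lit 111) (nat_lit 90) (nat_lit 0xbc0001780002fd175)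 b54433 (.tok (nat_lit 6) (nat_lit 0xbc0001780002fd971) (.hit (nat_lit 109) (nat_lit 88) (nat_lit 0xbc0001780002fd4dc) b54431 (.hit (nat_lit 110) (nat_lit 89) (nat_lit 0xbc0001780002fd971) b54432 (.nil))) (.one (nat_lit 9) (nat_lit 108) (nat_lit 87) (nat_lit 0xbc0001780002fd47c) b54430 (.nil))))) (.one (nat_lit 59) (nat_lit 112) (nat_lit 91) (nat_lit 0xbc0001780002faafe) b54434 (.nil)))))))))))))))))) (.tok (nat_lit 40) (nat_lit 0xbc000178000304413) (.hit (nat_lit 221) (nat_lit 0) (nat_lit 0xbc00017800030145d) b54435 (.tok (nat_lit 6) (nat_lit 0xbc000178000300145) (.hit (nat_lit 222) (nat_lit 7) (nat_lit 0xbc000178000300145) b54438 (.hit (nat_lit 223) (nat_lit 15) (nat_lit 0xbc0001780002fec18) b54439 (.nil))) (.tok (nat_lit 9) (nat_lit 0xbc000178000304413) (.hit (nat_lit 224) (nat_lit 20) (nat_lit 0xbc000178000304413) b54436 (.hit (nat_lit 225) (nat_lit 28) (nat_lit 0xbc0001780002ffceb)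 b54437 (.nil))) (.nil)))) (.tok (nat_lit 43) (nat_lit 0xbc000178000301140) (.hit (nat_lit 232) (nat_lit 0) (nat_lit 0xbc000178000301140) b54440 (.tok (nat_lit 3) (nat_lit 0xbc0001780002ff26d) (.hit (nat_lit 233) (nat_lit 1) (nat_lit 0xbc0001780002fda7c) b54441 (.one (nat_lit 67) (nat_lit 234) (nat_lit 2) (nat_lit 0xbc0001780002ff26d) b54442 (.nil))) (.tok (nat_lit 6) (nat_lit 0xbc0001780002fff52) (.hit (nat_lit 235) (nat_lit 7) (nat_lit 0xbc0001780002fe246) b54443 (.hit (nat_lit 238) (nat_lit 15) (nat_lit 0xbc0001780002fdd17) b54446 (.tok (nat_lit 55) (nat_lit 0xbc0001780002fff52) (.hit (nat_lit 236) (nat_lit 8) (nat_lit 0xbc0001780002ff88e) b54444 (.hit (nat_lit 239) (nat_lit 16) (nat_lit 0xbc0001780002fff52) b54447 (.one (nat_lit 6) (nat_lit 237) (nat_lit 9) (nat_lit 0xbc0001780002ffcb5) b54445 (.nil)))) (.nil)))) (.nil)))) (.tok (nat_lit 46) (nat_lit 0xbc00017800030330c) (.hit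 (nat_lit 246) (nat_lit 0) (nat_lit 0xbc0001780003004e3) b54448 (.tok (nat_lit 3) (nat_lit 0xbc00017800030330c) (.hit (nat_lit 247) (nat_lit 1) (nat_lit 0xbc0001780002ffc27) b54449 (.one (nat_lit 55) (nat_lit 248) (nat_lit 3) (nat_lit 0xbc00017800030330c) b54450 (.nil))) (.tok (nat_lit 9) (nat_lit 0xbc0001780002ff3ae) (.hit (nat_lit 249) (nat_lit 20) (nat_lit 0xbc0001780002fef07) b54451 (.hit (nat_lit 252) (nat_lit 28) (nat_lit 0xbc0001780002ff3ae) b54452 (.nil))) (.nil)))) (.nil))))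
noncomputable def r78_4 : Rw Blk := .tok (nat_lit 3) (nat_lit 0xbc0001780002fe9bd) (.hit (nat_lit 61) (nat_lit 0) (nat_lit 0xbc0001780002fd463) b54453 (.tok (nat_lit 14) (nat_lit 0xbc0001780002fe90c) (.hit (nat_lit 82) (nat_lit 61) (nat_lit 0xbc0001780002fe5d4) b54454 (.one (nat_lit 3) (nat_lit 83) (nat_lit 62) (nat_lit 0xbc0001780002fd86f) b54455 (.tok (nat_lit 6) (nat_lit 0xbc0001780002fe7bb) (.hit (nat_lit 86) (nat_lit 65) (nat_lit 0xbc0001780002fe7bb) b54456 (.hit (nat_lit 87) (nat_lit 66) (nat_lit 0xbc0001780002fe1f7) b54457 (.nil))) (.tok (nat_lit 9) (nat_lit 0xbc0001780002fe90c) (.hit (nat_lit 84) (nat_lit 63) (nat_lit 0xbc0001780002fe90c) b54458 (.hit (nat_lit 85) (nat_lit 64) (nat_lit 0xbc0001780002fd24a) b54459 (.nil))) (.nil))))) (.one (nat_lit 17) (nat_lit 88) (nat_lit 67) (nat_lit 0xbc0001780002fd15b) b54460 (.tok (nat_lit 20) (nat_lit 0xbc0001780002fcaab) (.hit (nat_lit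 89) (nat_lit 68) (nat_lit 0xbc0001780002fcaab) b54463 (.hit (nat_lit 90) (nat_lit 69) (nat_lit 0xbc0001780002fc368) b54462 (.nil))) (.tok (nat_lit 23) (nat_lit 0xbc0001780002fcbb1) (.hit (nat_lit 91) (nat_lit 70) (nat_lit 0xbc0001780002fcbb1) b54461 (.hit (nat_lit 92) (nat_lit 71) (nat_lit 0xbc0001780002fc368) b54462 (.nil))) (.one (nat_lit 26) (nat_lit 93) (nat_lit 72) (nat_lit 0xbc0001780002fb7f0) b54464 (.one (nat_lit 29) (nat_lit 94) (nat_lit 73) (nat_lit 0xbc0001780002fb8ac) b54465 (.one (nat_lit 32) (nat_lit 95) (nat_lit 74) (nat_lit 0xbc0001780002fb3e1) b54467 (.one (nat_lit 35) (nat_lit 96) (nat_lit 75) (nat_lit 0xbc0001780002fbd99) b54466 (.one (nat_lit 38) (nat_lit 97) (nat_lit 76) (nat_lit 0xbc0001780002fc491) b54468 (.tok (nat_lit 41) (nat_lit 0xbc0001780002fccbf) (.hit (nat_lit 98) (nat_lit 77) (nat_lit 0xbc0001780002fa97f) b54469 (.hit (nat_lit 99) (nat_lit 78) (nat_lit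 0xbc0001780002fccbf) b54470 (.nil))) (.tok (nat_lit 44) (nat_lit 0xbc0001780002fc4b1) (.hit (nat_lit 100) (nat_lit 79) (nat_lit 0xbc0001780002fb8e2) b54473 (.hit (nat_lit 101) (nat_lit 80) (nat_lit 0xbc0001780002fc4b1) b54474 (.nil))) (.tok (nat_lit 47) (nat_lit 0xbc0001780002fbe16) (.hit (nat_lit 102) (nat_lit 81) (nat_lit 0xbc0001780002fb360) b54471 (.hit (nat_lit 103) (nat_lit 82) (nat_lit 0xbc0001780002fbe16) b54472 (.nil))) (.one (nat_lit 50) (nat_lit 104) (nat_lit 83) (nat_lit 0xbc0001780002fc657) b54475 (.tok (nat_lit 53) (nat_lit 0xbc0001780002fd7a3) (.hit (nat_lit 105) (nat_lit 84) (nat_lit 0xbc0001780002fd7a3) b54476 (.hit (nat_lit 106) (nat_lit 85) (nat_lit 0xbc0001780002fc7c1) b54477 (.nil))) (.tok (nat_lit 56) (nat_lit 0xbc0001780002fe9bd) (.hit (nat_lit 107) (nat_lit 86) (nat_lit 0xbc0001780002fe628) b54478 (.one (nat_lit 3) (nat_lit 111) (nat_lit 90) (nat_lit 0xbc0001780002fca8d)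 b54482 (.tok (nat_lit 6) (nat_lit 0xbc0001780002fe9bd) (.hit (nat_lit 109) (nat_lit 88) (nat_lit 0xbc0001780002fe9bd) b54480 (.hit (nat_lit 110) (nat_lit 89) (nat_lit 0xbc0001780002fc3ea) b54481 (.nil))) (.one (nat_lit 9) (nat_lit 108) (nat_lit 87) (nat_lit 0xbc0001780002fe18f) b54479 (.nil))))) (.one (nat_lit 59) (nat_lit 112) (nat_lit 91) (nat_lit 0xbc0001780002faf56) b54483 (.nil)))))))))))))))))) (.tok (nat_lit 40) (nat_lit 0xbc000178000300711) (.hit (nat_lit 221) (nat_lit 0) (nat_lit 0xbc000178000300711) b54484 (.tok (nat_lit 6) (nat_lit 0xbc0001780002ff544) (.hit (nat_lit 222) (nat_lit 7) (nat_lit 0xbc0001780002ff544) b54487 (.hit (nat_lit 223) (nat_lit 15) (nat_lit 0xbc0001780002fef25) b54488 (.nil))) (.tok (nat_lit 9) (nat_lit 0xbc000178000300641) (.hit (nat_lit 224) (nat_lit 20) (nat_lit 0xbc000178000300641) b54485 (.hit (nat_lit 225) (nat_lit 28) (nat_lit 0xbc0001780002ff9ef)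 b54486 (.nil))) (.nil)))) (.tok (nat_lit 43) (nat_lit 0xbc000178000301ae3) (.hit (nat_lit 232) (nat_lit 0) (nat_lit 0xbc00017800030057f) b54489 (.tok (nat_lit 3) (nat_lit 0xbc0001780003012b1) (.hit (nat_lit 233) (nat_lit 1) (nat_lit 0xbc0001780002ff17e) b54490 (.one (nat_lit 67) (nat_lit 234) (nat_lit 2) (nat_lit 0xbc0001780003012b1) b54491 (.nil))) (.tok (nat_lit 6) (nat_lit 0xbc000178000301ae3) (.hit (nat_lit 235) (nat_lit 7) (nat_lit 0xbc000178000300da7) b54492 (.hit (nat_lit 238) (nat_lit 15) (nat_lit 0xbc000178000300232) b54495 (.tok (nat_lit 55) (nat_lit 0xbc000178000301ae3) (.hit (nat_lit 236) (nat_lit 8) (nat_lit 0xbc00017800030171a) b54493 (.hit (nat_lit 239) (nat_lit 16) (nat_lit 0xbc000178000301926) b54496 (.one (nat_lit 6) (nat_lit 237) (nat_lit 9) (nat_lit 0xbc000178000301ae3) b54494 (.nil)))) (.nil)))) (.nil)))) (.tok (nat_lit 46) (nat_lit 0xbc0001780003026db) (.hit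 (nat_lit 246) (nat_lit 0) (nat_lit 0xbc0001780003001b9) b54497 (.tok (nat_lit 3) (nat_lit 0xbc0001780003026db) (.hit (nat_lit 247) (nat_lit 1) (nat_lit 0xbc0001780002ff335) b54498 (.one (nat_lit 55) (nat_lit 248) (nat_lit 3) (nat_lit 0xbc0001780003026db) b54499 (.nil))) (.tok (nat_lit 9) (nat_lit 0xbc0001780002ff571) (.hit (nat_lit 249) (nat_lit 20) (nat_lit 0xbc0001780002ff571) b54500 (.hit (nat_lit 252) (nat_lit 28) (nat_lit 0xbc0001780002fec46) b54501 (.nil))) (.nil)))) (.nil))))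
noncomputable def r78_5 : Rw Blk := .tok (nat_lit 3) (nat_lit 0x17dbd22fc20d5fc6e0bf32697e0c92fcc045f934abf33d97e8912fcb8a5f8fdebf4f057ea67afdb46) (.hit (nat_lit 0) (nat_lit 0) (nat_lit 0x17db5f2fc20d5f9146bf138d7dd4a2fc4ce5f90e4bf2b117e8912fcb8a5f8886bf37817e7842fc9e8) b54502 (.tok (nat_lit 6) (nat_lit 0x17dbd22fbf1e5fc6e0bf32697e0c92fcc045f934abf33d97e73aafc9e25f8fdebf4f057ea67afdb46) (.hit (nat_lit 1) (nat_lit 7) (nat_lit 0x17d1a5afaac55f9b84bee1057d69cafb7ab5f6a98bee2757dd0e2fb5895f672cbeef057dc5c2fc6cf) b54503 (.hit (nat_lit 6) (nat_lit 15) (nat_lit 0x17d06e2fa8565f8498bed7497d5652fb53c5f65babed8b97dbd6afb31a5f624ebf24497e517afc73b) b54508 (.tok (nat_lit 14) (nat_lit 0x17db23afbdc15fbf5cbf2cf57e01aafcaa75f9090bf2e657e68c2fc8855f8d24bf4f057ea67afd7a2) (.hit (nat_lit 2) (nat_lit 11) (nat_lit 0x17d4f3afb1615faba2befb757d9eaafbe475f77d0befce57e05c2fbc255f7464bf09757dfaa2fce83)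 b54504 (.hit (nat_lit 7) (nat_lit 17) (nat_lit 0x17d4752fb0645f9700bef7817d96c2fbd4a5f75d6bef8f17dfddafbb285f726abf4f057ea67afd0a4) b54509 (.one (nat_lit 9) (nat_lit 3) (nat_lit 12) (nat_lit 0x17db23afbdc15fbf5cbf2cf57e01aafcaa75f9090bf2e657e68c2fc8855f8d24bf3af57e5da2fd7a2) b54505 (.nil)))) (.tok (nat_lit 56) (nat_lit 0x17dbd22fbf1e5fc6e0bf32697e0c92fcc045f934abf33d97e73aafc9e25f8fdebf40697e7e12fdb46) (.hit (nat_lit 4) (nat_lit 13) (nat_lit 0x17d7be2fb6f65fb024bf11c97dcb52fc3dc5f82fabf13397e326afc1ba5f7f8ebf1fc97e274afd266) b54506 (.hit (nat_lit 9) (nat_lit 19) (nat_lit 0x17d5b02fb2da5f9a2cbf01597daa72fbfc05f7ac2bf02c97e118afbd9e5f7756bf3ad57e7e12fcab5) b54511 (.one (nat_lit 6) (nat_lit 5) (nat_lit 14) (nat_lit 0x17dbd22fbf1e5fc6e0bf32697e0c92fcc045f934abf33d97e73aafc9e25f8fdebf40697e688afdb46) b54507 (.nil)))) (.one (nat_lit 68) (nat_lit 8) (nat_lit 18) (nat_lit 0x17db04afbd835faffcbf2bfd7dffbafca695f9014bf2d6d7e66d2fc8475f8ca8bf443d7e8f4afd0d9)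 b54510 (.nil)))))) (.nil))) (.tok (nat_lit 9) (nat_lit 0x180000300000600000c0000180000300000600000c000018000030089d601038c0000180254b00000) (.hit (nat_lit 157) (nat_lit 0) (nat_lit 0x17e581afdc9f5fa902bf55a97e5872fd5535fbbe8bf6a217f077afe09a5fb5aabf71757ee882fd3f3) b54512 (.tok (nat_lit 9) (nat_lit 0x17f2b4aff8035fed1cbf99897f0c8afea335fdfbabfd1a17fac2aff0875fd4d4bfbe6d7f7ccafed60) (.hit (nat_lit 163) (nat_lit 20) (nat_lit 0x17e09dafd0a65f9922bf11b17e3542fc8f85f9cd6bf4d057e8702fd2735f95d2bf35557e551afc918) b54513 (.hit (nat_lit 171) (nat_lit 28) (nat_lit 0x17d9cfafb6265f9336bea9e57db8fafa9865f7388bf0a317e2d7afd70e5f98b8bf245d7e3d8afc5a7) b54518 (.tok (nat_lit 14) (nat_lit 0x17f2b4aff8035fed1cbf99897f0c8afea335fdfbabfd1a17fac2aff0875fd4d4bfbe6d7f7ccafed60) (.hit (nat_lit 167) (nat_lit 24) (nat_lit 0x17f10aaff3b75fea78bf84397ec652fe0775fd096bfc0dd7f79d2fe5ef5fc096bf8de97f2402fe42b)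 b54514 (.hit (nat_lit 173) (nat_lit 30) (nat_lit 0x17e80dafd1cc5fd34ebf1c557e93fafc6025fa800bf67797f0572fe1155fba2abf71b57ed132fd65e) b54519 (.one (nat_lit 6) (nat_lit 168) (nat_lit 25) (nat_lit 0x17f2b4aff8035fed1cbf99897f0c8afea335fdfbabfd1a17fac2aff0875fd4d4bfbe6d7f7ccafed60) b54515 (.nil)))) (.tok (nat_lit 68) (nat_lit 0x17ed65afeee85fcd8ebf65817ebde2fda5e5fc038bf8fa97f484afe3285fb99cbf73a17ede62fea15) (.hit (nat_lit 169) (nat_lit 26) (nat_lit 0x17ed65afe7795fcc32bf65817ebde2fda5e5fc038bf8fa97f37fafe06b5fb99cbf73a17ede62fdb7f) b54516 (.hit (nat_lit 175) (nat_lit 32) (nat_lit 0x17e4432fcb115fa67ebefe317e5bd2fbe6d5f996ebf4a357ec332fe3285fb4d6bf62cd7ea2cafcdd6) b54520 (.one (nat_lit 9) (nat_lit 170) (nat_lit 27) (nat_lit 0x17e86f2feee85fcd8ebf54717e8352fd4865fa71abf75497f484afd9775fa8acbf62717eac9afea15) b54517 (.nil)))) (.nil))))) (.tok (nat_lit 64) (nat_lit 0x17e6ceafdf6f5fb5f8bf1e657e9d92fc6d25fa9dcbf6f217fa00afffc25ff9cebfa9997f7d3afe350)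 (.hit (nat_lit 182) (nat_lit 50) (nat_lit 0x17e5b52fdf6f5fb3bcbf1e657e9d92fc6d25fa9dcbf6b117fa00afffc25ff9cebfa9997f7d3afe350) b54521 (.hit (nat_lit 183) (nat_lit 51) (nat_lit 0x17e6ceafd8db5fb5f8bf13557e7662fc39c5fa56ebf6f217f7c7afde025fad52bf4fb97eac62fe0c7) b54522 (.nil))) (.tok (nat_lit 67) (nat_lit 0x180000300000600000c0000180000300000600000c000018000030089d601038c0000180254b00000) (.hit (nat_lit 184) (nat_lit 52) (nat_lit 0x17f8022ffbd75fe1ccbff6157fa75affcb8600000c000017fdf82ff9045fec90bfc5ad7fc8e2fee08) b54523 (.tok (nat_lit 3) (nat_lit 0x1800002ff9dc5ff406c000017f7f83000005fe9cabff2597fde32ffa125fd50ebfcad17f9782ff192) (.hit (nat_lit 190) (nat_lit 58) (nat_lit 0x17f3222feb625fdc68bfce197f7f82ff7765fcde2bfb8e57f7c3aff2815fcb6ebf990d7f4462fe5d5) b54529 (.one (nat_lit 55) (nat_lit 191) (nat_lit 59) (nat_lit 0x1800002ff9dc5ff406c000017f5bd3000005fe9cabff2597fde32ffa125fd50ebfcad17f9782ff192)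 b54530 (.nil))) (.tok (nat_lit 9) (nat_lit 0x17fcc7300000600000bfbe0d800002ff81b5fe686bfeed58000030089d601038c0000180254b00000) (.hit (nat_lit 185) (nat_lit 53) (nat_lit 0x17f1f62fe1dc5fca76bf67817f2f42fe0d75fce6abfb42d7f7542ff4795fe810bfcabd7fb61afe4ab) b54524 (.hit (nat_lit 188) (nat_lit 56) (nat_lit 0x17eba62fe9075fed54bf4a1d7ec42afd1f15fb8ccbf95dd7f932afe2865fbda2bf70257eed7aff1e2) b54527 (.tok (nat_lit 67) (nat_lit 0x17fcc7300000600000bfbe0d800002ff81b5fe686bfeed58000030089d601038c0000180254b00000) (.hit (nat_lit 186) (nat_lit 54) (nat_lit 0x17fcc72ff9945ff958bf9ee5800002ff0e15fe306bfeed57feb73001a3600206bff6c180209aff5d3) b54525 (.hit (nat_lit 189) (nat_lit 57) (nat_lit 0x17f34c300000600000bf77257f3eaafdc8c5fd764bfd30d800002ff1065fdc4ebfad557f75cb00000) b54528 (.one (nat_lit 9) (nat_lit 187) (nat_lit 55) (nat_lit 0x17fb87aff31d5ff4e0bfbe0d7fb4daff81b5fe686bfe9757ffa3b0089d601038c0000180254aff7ec)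 b54526 (.nil)))) (.nil)))) (.nil)))) (.one (nat_lit 70) (nat_lit 192) (nat_lit 60) (nat_lit 0x17eb1f2fdd7d5fd7f0bf36f57ec472fcc8f5fb752bf92e97f8503002a05ff7c6bfd56d7f9e72fe3b5) b54531 (.nil)))))) (.nil))
noncomputable def r78_6 : Rw Blk := .tok (nat_lit 6) (nat_lit 0x5e0000bc000180000300000) (.hit (nat_lit 51) (nat_lit 0) (nat_lit 0x5e0000bc00017f4482fe8b6) b54532 (.tok (nat_lit 14) (nat_lit 0x5e0000bc00017fa2baff144) (.hit (nat_lit 62) (nat_lit 61) (nat_lit 0x5e0000bc00017fa2bafefd0) b54533 (.one (nat_lit 3) (nat_lit 63) (nat_lit 62) (nat_lit 0x5e0000bc00017f9612fe638) b54534 (.tok (nat_lit 6) (nat_lit 0x5e0000bc00017f4fb2fef0c) (.hit (nat_lit 66) (nat_lit 65) (nat_lit 0x5e0000bc00017efde2fef0c) b54537 (.hit (nat_lit 67) (nat_lit 66) (nat_lit 0x5e0000bc00017f4fb2fed4e) b54538 (.nil))) (.tok (nat_lit 9) (nat_lit 0x5e0000bc00017f86c2ff144) (.hit (nat_lit 64) (nat_lit 63) (nat_lit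 0x5e0000bc00017f86c2ff144) b54535 (.hit (nat_lit 65) (nat_lit 64) (nat_lit 0x5e0000bc00017f5aeafef02) b54536 (.nil))) (.nil))))) (.one (nat_lit 17) (nat_lit 68) (nat_lit 67) (nat_lit 0x5e0000bc00017f45e2fdba7) b54539 (.tok (nat_lit 20) (nat_lit 0x5e0000bc00017fee6aff4ed) (.hit (nat_lit 69) (nat_lit 68) (nat_lit 0x5e0000bc00017fee6aff4ed) b54540 (.hit (nat_lit 70) (nat_lit 69) (nat_lit 0x5e0000bc00017f515afda13) b54541 (.nil))) (.tok (nat_lit 23) (nat_lit 0x5e0000bc00017f3bc2fdb13) (.hit (nat_lit 71) (nat_lit 70) (nat_lit 0x5e0000bc00017e5e1afdb13) b54542 (.hit (nat_lit 72) (nat_lit 71) (nat_lit 0x5e0000bc00017f3bc2fda13) b54543 (.nil))) (.one (nat_lit 38) (nat_lit 77) (nat_lit 76) (nat_lit 0x5e0000bc00017f381afdbe7) b54544 (.tok (nat_lit 41) (nat_lit 0x5e0000bc00017f4d6afd192) (.hit (nat_lit 78) (nat_lit 77) (nat_lit 0x5e0000bc00017f09dafc753) b54545 (.hit (nat_lit 79) (nat_lit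 78) (nat_lit 0x5e0000bc00017f4d6afd192) b54546 (.nil))) (.tok (nat_lit 44) (nat_lit 0x5e0000bc00017f5fdafd341) (.hit (nat_lit 80) (nat_lit 79) (nat_lit 0x5e0000bc00017f5fdafd341) b54547 (.hit (nat_lit 81) (nat_lit 80) (nat_lit 0x5e0000bc00017efde2fd0e7) b54548 (.nil))) (.tok (nat_lit 47) (nat_lit 0x5e0000bc00017f62b2fd268) (.hit (nat_lit 82) (nat_lit 81) (nat_lit 0x5e0000bc00017db79afc643) b54549 (.hit (nat_lit 83) (nat_lit 82) (nat_lit 0x5e0000bc00017f62b2fd268) b54550 (.nil))) (.one (nat_lit 50) (nat_lit 84) (nat_lit 83) (nat_lit 0x5e0000bc00017f387afd555) b54551 (.tok (nat_lit 53) (nat_lit 0x5e0000bc00017f3faafdde5) (.hit (nat_lit 85) (nat_lit 84) (nat_lit 0x5e0000bc00017e761afdde5) b54552 (.hit (nat_lit 86) (nat_lit 85) (nat_lit 0x5e0000bc00017f3faafd2c1) b54553 (.nil))) (.tok (nat_lit 56) (nat_lit 0x5e0000bc000180000300000) (.hit (nat_lit 87) (nat_lit 86) (nat_lit 0x5e0000bc00017ffb4aff94c)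 b54554 (.one (nat_lit 3) (nat_lit 91) (nat_lit 90) (nat_lit 0x5e0000bc0001800002ff099) b54558 (.tok (nat_lit 6) (nat_lit 0x5e0000bc00017fbc22febb9) (.hit (nat_lit 89) (nat_lit 88) (nat_lit 0x5e0000bc00017fbc22febb9) b54556 (.hit (nat_lit 90) (nat_lit 89) (nat_lit 0x5e0000bc00017f63c2fdea3) b54557 (.nil))) (.one (nat_lit 9) (nat_lit 88) (nat_lit 87) (nat_lit 0x5e0000bc00017fa97b00000) b54555 (.nil))))) (.one (nat_lit 59) (nat_lit 92) (nat_lit 91) (nat_lit 0x5e0000bc00017f0462fc765) b54559 (.one (nat_lit 62) (nat_lit 93) (nat_lit 92) (nat_lit 0x5e0000bc00017efc3afd555) b54560 (.tok (nat_lit 65) (nat_lit 0x5e0000bc00017f37aafe0e7) (.hit (nat_lit 94) (nat_lit 93) (nat_lit 0x5e0000bc00017ed582fe0e7) b54561 (.hit (nat_lit 95) (nat_lit 94) (nat_lit 0x5e0000bc00017f37aafd6e0) b54562 (.nil))) (.tok (nat_lit 68) (nat_lit 0x5e0000bc00017f434afe914) (.hit (nat_lit 96) (nat_lit 95) (nat_lit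 0x5e0000bc00017f434afe761) b54563 (.one (nat_lit 3) (nat_lit 100) (nat_lit 99) (nat_lit 0x5e0000bc00017e790afde71) b54567 (.one (nat_lit 6) (nat_lit 97) (nat_lit 96) (nat_lit 0x5e0000bc00017eb862fe65c) b54564 (.tok (nat_lit 9) (nat_lit 0x5e0000bc00017ece22fe914) (.hit (nat_lit 98) (nat_lit 97) (nat_lit 0x5e0000bc00017ece22fe914) b54565 (.hit (nat_lit 99) (nat_lit 98) (nat_lit 0x5e0000bc00017ea3cafe3c9) b54566 (.nil))) (.nil))))) (.one (nat_lit 71) (nat_lit 101) (nat_lit 100) (nat_lit 0x5e0000bc00017eff8afc659) b54568 (.nil)))))))))))))))))) (.nil)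
noncomputable def r78_7 : Rw Blk := .tok (nat_lit 9) (nat_lit 0x1780002f00005ff720c02e0580eb5b00421) (.hit (nat_lit 0) (nat_lit 0) (nat_lit 0x1780002f00005fa89abf847d7f562afde52) b54569 (.tok (nat_lit 14) (nat_lit 0x1780002f00005ff19cbfd5e17fd752ff9b0) (.hit (nat_lit 21) (nat_lit 61) (nat_lit 0x1780002f00005fd8fcbf89e57f6702fe987) b54570 (.one (nat_lit 3) (nat_lit 22) (nat_lit 62) (nat_lit 0x1780002f00005fe1a6bf8f497f192afef60) b54571 (.tok (nat_lit 6) (nat_lit 0x1780002f00005ff19cbfd5e17fd752ff9b0) (.hit (nat_lit 25) (nat_lit 65) (nat_lit 0x1780002f00005ff19cbfd5e17fd752ff9b0) b54574 (.hit (nat_lit 26) (nat_lit 66) (nat_lit 0x1780002f00005fb5aebf61897ee91afd4bd) b54575 (.nil))) (.tok (nat_lit 9) (nat_lit 0x1780002f00005fb8b0bf7df17f0acafdb9f) (.hit (nat_lit 23) (nat_lit 63) (nat_lit 0x1780002f00005f71fcbf68517eb5e2fd4b7) b54572 (.hit (nat_lit 24) (nat_lit 64) (nat_lit 0x1780002f00005fb8b0bf7df17f0acafdb9f)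 b54573 (.nil))) (.nil))))) (.one (nat_lit 17) (nat_lit 27) (nat_lit 67) (nat_lit 0x1780002f00005fc724bf76c17f09f2fdc2d) b54576 (.tok (nat_lit 20) (nat_lit 0x1780002f00005fa764bf44857ea52afcf53) (.hit (nat_lit 28) (nat_lit 68) (nat_lit 0x1780002f00005f5082bf255d7e2ffafc3fa) b54577 (.hit (nat_lit 29) (nat_lit 69) (nat_lit 0x1780002f00005fa764bf44857ea52afcf53) b54578 (.nil))) (.tok (nat_lit 23) (nat_lit 0x1780002f00005ff720c02e0580eb5b00421) (.hit (nat_lit 30) (nat_lit 70) (nat_lit 0x1780002f00005ff720c02e0580eb5b00421) b54579 (.hit (nat_lit 31) (nat_lit 71) (nat_lit 0x1780002f00005fad28bf45c17ec892fd106) b54580 (.nil))) (.one (nat_lit 26) (nat_lit 32) (nat_lit 72) (nat_lit 0x1780002f00005f998ebf1ed57e7552fc6e3) b54581 (.one (nat_lit 29) (nat_lit 33) (nat_lit 73) (nat_lit 0x1780002f00005fa412bf39c57ea752fd5a0) b54582 (.one (nat_lit 32) (nat_lit 34) (nat_lit 74) (nat_lit 0x1780002f00005fb926bf3a817ea8b2fd6cb)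 b54583 (.one (nat_lit 35) (nat_lit 35) (nat_lit 75) (nat_lit 0x1780002f00005f8a20befd017e3c82fbfa5) b54584 (.one (nat_lit 38) (nat_lit 36) (nat_lit 76) (nat_lit 0x1780002f00005fa43ebf38897ea5d2fcca9) b54585 (.tok (nat_lit 41) (nat_lit 0x1780002f00005f9c24bf54b17ed1aafd427) (.hit (nat_lit 37) (nat_lit 77) (nat_lit 0x1780002f00005f8f86bf19397e3cb2fcc1c) b54586 (.hit (nat_lit 38) (nat_lit 78) (nat_lit 0x1780002f00005f9c24bf54b17ed1aafd427) b54587 (.nil))) (.tok (nat_lit 44) (nat_lit 0x1780002f00005fce66bf67657ef222fe1e7) (.hit (nat_lit 39) (nat_lit 79) (nat_lit 0x1780002f00005f41b0bf07b97df4b2fbc91) b54588 (.hit (nat_lit 40) (nat_lit 80) (nat_lit 0x1780002f00005fce66bf67657ef222fe1e7) b54589 (.nil))) (.tok (nat_lit 47) (nat_lit 0x1780002f00005fbaf4bf69017f2632fe06e) (.hit (nat_lit 41) (nat_lit 81) (nat_lit 0x1780002f00005fbaf4bf69017f2632fe06e) b54590 (.hit (nat_lit 42) (nat_lit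 82) (nat_lit 0x1780002f00005fa378bf0cb97e5c22fcc6a) b54591 (.nil))) (.one (nat_lit 62) (nat_lit 52) (nat_lit 92) (nat_lit 0x1780002f00005fb6dabf44097ec03afd5d8) b54592 (.tok (nat_lit 65) (nat_lit 0x1780002f00005fccc6bf7b297ee552fe053) (.hit (nat_lit 53) (nat_lit 93) (nat_lit 0x1780002f00005fccc6bf7b297ed5dafe053) b54593 (.hit (nat_lit 54) (nat_lit 94) (nat_lit 0x1780002f00005fb4aabf4c317ee552fd8c4) b54594 (.nil))) (.tok (nat_lit 68) (nat_lit 0x1780002f00005fd72ebfd1ad7ffbdafee9b) (.hit (nat_lit 55) (nat_lit 95) (nat_lit 0x1780002f00005fd0b2bfb6c17fbc9afe4a4) b54595 (.one (nat_lit 3) (nat_lit 59) (nat_lit 99) (nat_lit 0x1780002f00005fb7b6bf98197f569afd5e5) b54599 (.one (nat_lit 6) (nat_lit 56) (nat_lit 96) (nat_lit 0x1780002f00005fd72ebfd1ad7ffbdafee9b) b54596 (.tok (nat_lit 9) (nat_lit 0x1780002f00005fd098bf85357f587afe908) (.hit (nat_lit 57) (nat_lit 97) (nat_lit 0x1780002f00005fd098bf85357f587afe908)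 b54597 (.hit (nat_lit 58) (nat_lit 98) (nat_lit 0x1780002f00005fc4cabf6d657ee9bafdde1) b54598 (.nil))) (.nil))))) (.one (nat_lit 71) (nat_lit 60) (nat_lit 100) (nat_lit 0x1780002f00005fab72bf2cb97e8e9afcf9e) b54600 (.nil)))))))))))))))))) (.tok (nat_lit 64) (nat_lit 0x1780002f0000600000c0831180d083010b4) (.hit (nat_lit 176) (nat_lit 0) (nat_lit 0x1780002f0000600000c0831180d083010b4) b54601 (.tok (nat_lit 6) (nat_lit 0x1780002f00005fd1d6bfdb597fcbdaff984) (.hit (nat_lit 177) (nat_lit 7) (nat_lit 0x1780002f00005faaa6bfcbe17fa8d2fec59) b54602 (.hit (nat_lit 178) (nat_lit 15) (nat_lit 0x1780002f00005fd1d6bfdb597fcbdaff984) b54603 (.nil))) (.tok (nat_lit 9) (nat_lit 0x1780002f00005fd834c0205d80156300194) (.hit (nat_lit 179) (nat_lit 20) (nat_lit 0x1780002f00005fd834c0205d80156300194) b54604 (.hit (nat_lit 180) (nat_lit 28) (nat_lit 0x1780002f00005fb672bfc3957f8c12ff1ea) b54605 (.nil)))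 (.nil)))) (.tok (nat_lit 67) (nat_lit 0x1780002f00005fc9dec00a518025b2ffbf5) (.hit (nat_lit 201) (nat_lit 0) (nat_lit 0x1780002f00005fc552bfd4bd7fba8afee90) b54611 (.tok (nat_lit 3) (nat_lit 0x1780002f00005fb7e2bfe6597fddc2ff2f7) (.hit (nat_lit 202) (nat_lit 1) (nat_lit 0x1780002f00005f8a9abf8bc97f28a2fdc53) b54612 (.one (nat_lit 55) (nat_lit 203) (nat_lit 3) (nat_lit 0x1780002f00005fb7e2bfe6597fddc2ff2f7) b54613 (.nil))) (.tok (nat_lit 9) (nat_lit 0x1780002f00005fc9dec00a518025b2ffbf5) (.hit (nat_lit 204) (nat_lit 20) (nat_lit 0x1780002f00005f9fa4bfb5dd7f7ccafe6d8) b54614 (.hit (nat_lit 207) (nat_lit 28) (nat_lit 0x1780002f00005f8c46bf8f217f2f52fdd29) b54617 (.tok (nat_lit 67) (nat_lit 0x1780002f00005fc9dec00a518025b2ffbf5) (.hit (nat_lit 205) (nat_lit 21) (nat_lit 0x1780002f00005fbd74bff17d7ff40aff5c0) b54615 (.hit (nat_lit 208) (nat_lit 29) (nat_lit 0x1780002f00005fbd40bff1157ff33aff5a6)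 b54618 (.one (nat_lit 9) (nat_lit 206) (nat_lit 22) (nat_lit 0x1780002f00005fc9dec00a518025b2ffbf5) b54616 (.nil)))) (.nil)))) (.nil)))) (.tok (nat_lit 70) (nat_lit 0x1780002f00005fcef0c01a8180428affde7) (.hit (nat_lit 187) (nat_lit 0) (nat_lit 0x1780002f00005fcef0c01a8180428aff335) b54606 (.tok (nat_lit 3) (nat_lit 0x1780002f00005fcdc2c01219803542ffde7) (.hit (nat_lit 188) (nat_lit 1) (nat_lit 0x1780002f00005f9a94bfabbd7f688afe450) b54607 (.one (nat_lit 67) (nat_lit 189) (nat_lit 2) (nat_lit 0x1780002f00005fcdc2c01219803542ffde7) b54608 (.nil))) (.tok (nat_lit 6) (nat_lit 0x1780002f00005f9ed4bfb43d7f798afe670) (.hit (nat_lit 190) (nat_lit 7) (nat_lit 0x1780002f00005f9e7abfb3897f7822fe643) b54609 (.hit (nat_lit 193) (nat_lit 15) (nat_lit 0x1780002f00005f9ed4bfb43d7f798afe670) b54610 (.nil))) (.nil)))) (.nil))))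
noncomputable def r78_8 : Rw Blk := .tok (nat_lit 3) (nat_lit 0x1780002f0000602240c050097fe04b015a4) (.hit (nat_lit 15) (nat_lit 0) (nat_lit 0x1780002f000060032abfeca17f43130024f) b54634 (.tok (nat_lit 6) (nat_lit 0x1780002f00005fe2c2bf8d857e7e0afec59) (.hit (nat_lit 16) (nat_lit 7) (nat_lit 0x1780002f00005f7d4ebf088d7d741afc3e9) b54635 (.hit (nat_lit 21) (nat_lit 15) (nat_lit 0x1780002f00005f9c0abeda917d1822fd5dc) b54638 (.tok (nat_lit 14) (nat_lit 0x1780002f00005fc376bf78697e53d2fec59) (.hit (nat_lit 17) (nat_lit 11) (nat_lit 0x1780002f00005f9ff6bf35fd7dcefafd53d) b54636 (.hit (nat_lit 22) (nat_lit 17) (nat_lit 0x1780002f00005fb308bf78697e53d2fec59) b54639 (.one (nat_lit 9) (nat_lit 18) (nat_lit 12) (nat_lit 0x1780002f00005fc376bf44997dec32fe6fd) b54637 (.nil)))) (.one (nat_lit 68) (nat_lit 23) (nat_lit 18) (nat_lit 0x1780002f00005fe2c2bf8d857e7e0afe6d9) b54640 (.nil))))) (.tok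 (nat_lit 52) (nat_lit 0x1780002f00005fd152bf95e57e8ecaff79c) (.hit (nat_lit 25) (nat_lit 39) (nat_lit 0x1780002f00005fc726bf74797e4bf2fe895) b54641 (.hit (nat_lit 26) (nat_lit 40) (nat_lit 0x1780002f00005fd152bf95e57e8ecaff79c) b54642 (.nil))) (.tok (nat_lit 55) (nat_lit 0x1780002f0000602240c050097fe04b00877) (.hit (nat_lit 27) (nat_lit 41) (nat_lit 0x1780002f0000602240c050097fe04b00877) b54643 (.tok (nat_lit 3) (nat_lit 0x1780002f00005fdac2bf89fd7e76faff2a3) (.hit (nat_lit 33) (nat_lit 47) (nat_lit 0x1780002f00005fb4e0bf693d7e357afdfb2) b54646 (.one (nat_lit 67) (nat_lit 34) (nat_lit 48) (nat_lit 0x1780002f00005fdac2bf89fd7e76faff2a3) b54647 (.nil))) (.tok (nat_lit 6) (nat_lit 0x1780002f00005fb6b4bf74397e4b72fe09c) (.hit (nat_lit 28) (nat_lit 42) (nat_lit 0x1780002f00005fb6b4bf74397e4b72fe09c) b54644 (.hit (nat_lit 31) (nat_lit 45) (nat_lit 0x1780002f00005faff0bf58c57e148afdd3a)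 b54645 (.nil))) (.nil)))) (.one (nat_lit 58) (nat_lit 35) (nat_lit 49) (nat_lit 0x1780002f0000601a3ebfc3b97eea73015a4) b54648 (.nil)))))) (.tok (nat_lit 9) (nat_lit 0x1780002f0000606ae4c12b3981d9eb03acb) (.hit (nat_lit 0) (nat_lit 0) (nat_lit 0x1780002f00006006a0c02b257faedb00172) b54619 (.tok (nat_lit 9) (nat_lit 0x1780002f00006019a6c0858580ffab0174a) (.hit (nat_lit 1) (nat_lit 20) (nat_lit 0x1780002f00005fa5ecbfae2d7f028afd2ff) b54620 (.hit (nat_lit 4) (nat_lit 28) (nat_lit 0x1780002f00005fb892bfbc4d7f09eafd982) b54623 (.tok (nat_lit 14) (nat_lit 0x1780002f00006019a6c0858580ffab0174a) (.hit (nat_lit 2) (nat_lit 24) (nat_lit 0x1780002f00005fd2ecbff3497f8e2aff05a) b54621 (.hit (nat_lit 5) (nat_lit 30) (nat_lit 0x1780002f00005feb68c013257fd84afee0b) b54624 (.one (nat_lit 6) (nat_lit 3) (nat_lit 25) (nat_lit 0x1780002f00006019a6c0858580ffab0174a) b54622 (.nil)))) (.one (nat_lit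 56) (nat_lit 6) (nat_lit 31) (nat_lit 0x1780002f0000600a72c0695d8084db0025b) b54625 (.nil))))) (.tok (nat_lit 64) (nat_lit 0x1780002f000060688cc1267181921303571) (.hit (nat_lit 7) (nat_lit 50) (nat_lit 0x1780002f000060688cc1267181921303571) b54626 (.hit (nat_lit 8) (nat_lit 51) (nat_lit 0x1780002f0000601b20c023297fdd4affc22) b54627 (.nil))) (.tok (nat_lit 67) (nat_lit 0x1780002f0000606ae4c12b3981b2cb034af) (.hit (nat_lit 9) (nat_lit 52) (nat_lit 0x1780002f0000604c3ac0bb9580dfa301ff3) b54628 (.tok (nat_lit 3) (nat_lit 0x1780002f0000600296c04e2180e9fb007e4) (.hit (nat_lit 12) (nat_lit 58) (nat_lit 0x1780002f00005fe8c6c0492d80e9fb00251) b54631 (.one (nat_lit 55) (nat_lit 13) (nat_lit 59) (nat_lit 0x1780002f0000600296c04e2180cd5b007e4) b54632 (.nil))) (.tok (nat_lit 9) (nat_lit 0x1780002f0000606ae4c12b3981b2cb034af) (.hit (nat_lit 10) (nat_lit 53) (nat_lit 0x1780002f0000606ae4c12b3981b2cb034af)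 b54629 (.hit (nat_lit 11) (nat_lit 56) (nat_lit 0x1780002f00005ff1acbfde597f3352fecc4) b54630 (.nil))) (.nil)))) (.one (nat_lit 70) (nat_lit 14) (nat_lit 60) (nat_lit 0x1780002f0000606356c124d181d9eb03acb) b54633 (.nil)))))) (.nil))
noncomputable def r78_9 : Rw Blk := .tok (nat_lit 9) (nat_lit 0x5e0000bc00018207ab05877) (.hit (nat_lit 0) (nat_lit 0) (nat_lit 0x5e0000bc00017f942300a2d) b54649 (.tok (nat_lit 14) (nat_lit 0x5e0000bc0001815c63034de) (.hit (nat_lit 1) (nat_lit 61) (nat_lit 0x5e0000bc000180130300af1) b54650 (.one (nat_lit 3) (nat_lit 2) (nat_lit 62) (nat_lit 0x5e0000bc00018055f300b3b) b54651 (.tok (nat_lit 6) (nat_lit 0x5e0000bc0001815c63034de) (.hit (nat_lit 5) (nat_lit 65) (nat_lit 0x5e0000bc0001815c63034de) b54654 (.hit (nat_lit 6) (nat_lit 66) (nat_lit 0x5e0000bc00017f885b000b7) b54655 (.nil))) (.tok (nat_lit 9) (nat_lit 0x5e0000bc00017f51f2ff9c3) (.hit (nat_lit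 3) (nat_lit 63) (nat_lit 0x5e0000bc00017f51f2fee2c) b54652 (.hit (nat_lit 4) (nat_lit 64) (nat_lit 0x5e0000bc00017f08b2ff9c3) b54653 (.nil))) (.nil))))) (.one (nat_lit 17) (nat_lit 7) (nat_lit 67) (nat_lit 0x5e0000bc00017f71d2ff612) b54656 (.tok (nat_lit 20) (nat_lit 0x5e0000bc00017f3912ff9ae) (.hit (nat_lit 8) (nat_lit 68) (nat_lit 0x5e0000bc00017f000afe3ef) b54657 (.hit (nat_lit 9) (nat_lit 69) (nat_lit 0x5e0000bc00017f3912ff9ae) b54658 (.nil))) (.tok (nat_lit 23) (nat_lit 0x5e0000bc00018207ab05877) (.hit (nat_lit 10) (nat_lit 70) (nat_lit 0x5e0000bc00018207ab05877) b54659 (.hit (nat_lit 11) (nat_lit 71) (nat_lit 0x5e0000bc00017f4802fe9ec) b54660 (.nil))) (.one (nat_lit 26) (nat_lit 12) (nat_lit 72) (nat_lit 0x5e0000bc00017f7f72fef07) b54661 (.one (nat_lit 29) (nat_lit 13) (nat_lit 73) (nat_lit 0x5e0000bc00017fafd2ff5b1) b54662 (.one (nat_lit 32) (nat_lit 14) (nat_lit 74) (nat_lit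 0x5e0000bc00017f8b7aff493) b54663 (.one (nat_lit 35) (nat_lit 15) (nat_lit 75) (nat_lit 0x5e0000bc00017ede9afe20c) b54664 (.one (nat_lit 50) (nat_lit 23) (nat_lit 83) (nat_lit 0x5e0000bc00017fc1e2ff87f) b54665 (.tok (nat_lit 53) (nat_lit 0x5e0000bc00017f21daff4c8) (.hit (nat_lit 24) (nat_lit 84) (nat_lit 0x5e0000bc00017f117aff12d) b54666 (.hit (nat_lit 25) (nat_lit 85) (nat_lit 0x5e0000bc00017f21daff4c8) b54667 (.nil))) (.tok (nat_lit 56) (nat_lit 0x5e0000bc00018066930181a) (.hit (nat_lit 26) (nat_lit 86) (nat_lit 0x5e0000bc00018066930181a) b54668 (.one (nat_lit 3) (nat_lit 30) (nat_lit 90) (nat_lit 0x5e0000bc00017f402afebf3) b54672 (.tok (nat_lit 6) (nat_lit 0x5e0000bc00017f2cf2fe98c) (.hit (nat_lit 28) (nat_lit 88) (nat_lit 0x5e0000bc00017f2cf2fe98c) b54670 (.hit (nat_lit 29) (nat_lit 89) (nat_lit 0x5e0000bc00017ed1e2fde2a) b54671 (.nil))) (.one (nat_lit 9) (nat_lit 27) (nat_lit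 87) (nat_lit 0x5e0000bc00017f1992fe720) b54669 (.nil))))) (.one (nat_lit 59) (nat_lit 31) (nat_lit 91) (nat_lit 0x5e0000bc00017f342afed28) b54673 (.nil)))))))))))))) (.tok (nat_lit 64) (nat_lit 0x5e0000bc000181704302f89) (.hit (nat_lit 45) (nat_lit 0) (nat_lit 0x5e0000bc000181704302f89) b54687 (.tok (nat_lit 6) (nat_lit 0x5e0000bc00017fdc4b0025d) (.hit (nat_lit 46) (nat_lit 7) (nat_lit 0x5e0000bc00017f5c82fed02) b54688 (.hit (nat_lit 47) (nat_lit 15) (nat_lit 0x5e0000bc00017fdc4b0025d) b54689 (.nil))) (.tok (nat_lit 9) (nat_lit 0x5e0000bc0001811fbb02e21) (.hit (nat_lit 48) (nat_lit 20) (nat_lit 0x5e0000bc0001811fbb02e21) b54690 (.hit (nat_lit 49) (nat_lit 28) (nat_lit 0x5e0000bc000180d0cb02784) b54691 (.nil))) (.nil)))) (.tok (nat_lit 67) (nat_lit 0x5e0000bc000180598300ca2) (.hit (nat_lit 40) (nat_lit 0) (nat_lit 0x5e0000bc0001803772fff2b) b54682 (.tok (nat_lit 3) (nat_lit 0x5e0000bc000180347b00801)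 (.hit (nat_lit 41) (nat_lit 1) (nat_lit 0x5e0000bc00017fbecaff94b) b54683 (.one (nat_lit 55) (nat_lit 42) (nat_lit 3) (nat_lit 0x5e0000bc000180347b00801) b54684 (.nil))) (.tok (nat_lit 9) (nat_lit 0x5e0000bc000180598300ca2) (.hit (nat_lit 43) (nat_lit 20) (nat_lit 0x5e0000bc000180598300ca2) b54685 (.hit (nat_lit 44) (nat_lit 28) (nat_lit 0x5e0000bc00017f72c2fefca) b54686 (.nil))) (.nil)))) (.tok (nat_lit 70) (nat_lit 0x5e0000bc000181022b021b7) (.hit (nat_lit 32) (nat_lit 0) (nat_lit 0x5e0000bc00018079bb0205b) b54674 (.tok (nat_lit 3) (nat_lit 0x5e0000bc000181022b021b7) (.hit (nat_lit 33) (nat_lit 1) (nat_lit 0x5e0000bc000180687b00e81) b54675 (.one (nat_lit 67) (nat_lit 34) (nat_lit 2) (nat_lit 0x5e0000bc000181022b021b7) b54676 (.nil))) (.tok (nat_lit 6) (nat_lit 0x5e0000bc000180f7ab02067) (.hit (nat_lit 35) (nat_lit 7) (nat_lit 0x5e0000bc0001808f3b01359) b54677 (.hit (nat_lit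 38) (nat_lit 15) (nat_lit 0x5e0000bc0001804ccb00b0b) b54680 (.tok (nat_lit 55) (nat_lit 0x5e0000bc000180f7ab02067) (.hit (nat_lit 36) (nat_lit 8) (nat_lit 0x5e0000bc000180c45b019fd) b54678 (.hit (nat_lit 39) (nat_lit 16) (nat_lit 0x5e0000bc000180eb9b01ee5) b54681 (.one (nat_lit 6) (nat_lit 37) (nat_lit 9) (nat_lit 0x5e0000bc000180f7ab02067) b54679 (.nil)))) (.nil)))) (.nil)))) (.nil))))
noncomputable def r78_10 : Rw Blk := .tok (nat_lit 3) (nat_lit 0x5e0000bc000181bddb03b94) (.hit (nat_lit 0) (nat_lit 0) (nat_lit 0x5e0000bc000181bddb03b94) b54692 (.tok (nat_lit 6) (nat_lit 0x5e0000bc000181128b01d6e) (.hit (nat_lit 1) (nat_lit 7) (nat_lit 0x5e0000bc00017f901afed20) b54693 (.hit (nat_lit 6) (nat_lit 15) (nat_lit 0x5e0000bc00017fbc3aff2a4) b54696 (.tok (nat_lit 56) (nat_lit 0x5e0000bc000181128b01d6e) (.hit (nat_lit 4) (nat_lit 13) (nat_lit 0x5e0000bc00018023fafff9c) b54694 (.hit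 (nat_lit 8) (nat_lit 19) (nat_lit 0x5e0000bc000180b82301221) b54697 (.one (nat_lit 6) (nat_lit 5) (nat_lit 14) (nat_lit 0x5e0000bc000181128b01d6e) b54695 (.nil)))) (.nil)))) (.tok (nat_lit 52) (nat_lit 0x5e0000bc000181386302229) (.hit (nat_lit 9) (nat_lit 39) (nat_lit 0x5e0000bc0001810e1b01ce0) b54698 (.hit (nat_lit 10) (nat_lit 40) (nat_lit 0x5e0000bc000181386302229) b54699 (.nil))) (.tok (nat_lit 55) (nat_lit 0x5e0000bc000181ad6b0394f) (.hit (nat_lit 11) (nat_lit 41) (nat_lit 0x5e0000bc000181ad6b0394f) b54700 (.one (nat_lit 3) (nat_lit 17) (nat_lit 47) (nat_lit 0x5e0000bc000180cb6b0148a) b54706 (.tok (nat_lit 6) (nat_lit 0x5e0000bc000180e2b301773) (.hit (nat_lit 12) (nat_lit 42) (nat_lit 0x5e0000bc000180a2ab00f72) b54701 (.hit (nat_lit 15) (nat_lit 45) (nat_lit 0x5e0000bc0001809ad300e77) b54704 (.tok (nat_lit 55) (nat_lit 0x5e0000bc000180e2b301773) (.hit (nat_lit 13) (nat_lit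 43) (nat_lit 0x5e0000bc000180c80b0141e) b54702 (.hit (nat_lit 16) (nat_lit 46) (nat_lit 0x5e0000bc000180e2b301773) b54705 (.one (nat_lit 6) (nat_lit 14) (nat_lit 44) (nat_lit 0x5e0000bc0001809ec300ef5) b54703 (.nil)))) (.nil)))) (.nil)))) (.one (nat_lit 58) (nat_lit 19) (nat_lit 49) (nat_lit 0x5e0000bc000180eeab018f2) b54707 (.nil)))))) (.tok (nat_lit 9) (nat_lit 0x5e0000bc0001824beb0569a) (.hit (nat_lit 20) (nat_lit 0) (nat_lit 0x5e0000bc0001824beb041d3) b54708 (.tok (nat_lit 9) (nat_lit 0x5e0000bc0001821b9b0569a) (.hit (nat_lit 21) (nat_lit 20) (nat_lit 0x5e0000bc0001818cab02dbd) b54709 (.hit (nat_lit 24) (nat_lit 28) (nat_lit 0x5e0000bc0001814de30304f) b54710 (.one (nat_lit 56) (nat_lit 26) (nat_lit 31) (nat_lit 0x5e0000bc0001821b9b0569a) b54711 (.nil)))) (.nil))) (.nil))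
noncomputable def r78_11 : Rw Blk := .tok (nat_lit 9) (nat_lit 0x5e0000bc0001800003001b2) (.hit (nat_lit 0) (nat_lit 0) (nat_lit 0x5e0000bc00017ebddafe094) b54712 (.tok (nat_lit 14) (nat_lit 0x5e0000bc0001800003001b2) (.hit (nat_lit 21) (nat_lit 61) (nat_lit 0x5e0000bc00017f8e02fe527) b54713 (.one (nat_lit 3) (nat_lit 22) (nat_lit 62) (nat_lit 0x5e0000bc00017f22b2fdb52) b54714 (.tok (nat_lit 6) (nat_lit 0x5e0000bc0001800003001b2) (.hit (nat_lit 25) (nat_lit 65) (nat_lit 0x5e0000bc0001800003001b2) b54717 (.hit (nat_lit 26) (nat_lit 66) (nat_lit 0x5e0000bc00017f4a5afe30c) b54718 (.nil))) (.tok (nat_lit 9) (nat_lit 0x5e0000bc00017f2662fe5b8) (.hit (nat_lit 23) (nat_lit 63) (nat_lit 0x5e0000bc00017e9022fe273) b54715 (.hit (nat_lit 24) (nat_lit 64) (nat_lit 0x5e0000bc00017f2662fe5b8) b54716 (.nil))) (.nil))))) (.one (nat_lit 17) (nat_lit 27) (nat_lit 67) (nat_lit 0x5e0000bc00017ed372fd0c1)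 b54719 (.tok (nat_lit 20) (nat_lit 0x5e0000bc00017ed222fdaf4) (.hit (nat_lit 28) (nat_lit 68) (nat_lit 0x5e0000bc00017e542afdaf4) b54720 (.hit (nat_lit 29) (nat_lit 69) (nat_lit 0x5e0000bc00017ed222fcf2d) b54721 (.nil))) (.tok (nat_lit 23) (nat_lit 0x5e0000bc00017f1b92fe5a6) (.hit (nat_lit 30) (nat_lit 70) (nat_lit 0x5e0000bc00017f1b92fe5a6) b54722 (.hit (nat_lit 31) (nat_lit 71) (nat_lit 0x5e0000bc00017eba02fcf2f) b54723 (.nil))) (.one (nat_lit 26) (nat_lit 32) (nat_lit 72) (nat_lit 0x5e0000bc00017e96d2fc5bb) b54724 (.one (nat_lit 29) (nat_lit 33) (nat_lit 73) (nat_lit 0x5e0000bc00017e897afc60b) b54725 (.one (nat_lit 32) (nat_lit 34) (nat_lit 74) (nat_lit 0x5e0000bc00017ec562fcb7f) b54726 (.one (nat_lit 35) (nat_lit 35) (nat_lit 75) (nat_lit 0x5e0000bc00017e493afc2ac) b54727 (.one (nat_lit 38) (nat_lit 36) (nat_lit 76) (nat_lit 0x5e0000bc00017eb12afd101) b54728 (.tok (nat_lit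 41) (nat_lit 0x5e0000bc00017e9e3afc9ee) (.hit (nat_lit 37) (nat_lit 77) (nat_lit 0x5e0000bc00017e9e3afc8b5) b54729 (.hit (nat_lit 38) (nat_lit 78) (nat_lit 0x5e0000bc00017e85aafc9ee) b54730 (.nil))) (.tok (nat_lit 44) (nat_lit 0x5e0000bc00017edb8afce42) (.hit (nat_lit 39) (nat_lit 79) (nat_lit 0x5e0000bc00017d41cafb8a8) b54731 (.hit (nat_lit 40) (nat_lit 80) (nat_lit 0x5e0000bc00017edb8afce42) b54732 (.nil))) (.tok (nat_lit 47) (nat_lit 0x5e0000bc00017eea6afd131) (.hit (nat_lit 41) (nat_lit 81) (nat_lit 0x5e0000bc00017eea6afd131) b54733 (.hit (nat_lit 42) (nat_lit 82) (nat_lit 0x5e0000bc00017ea65afc791) b54734 (.nil))) (.one (nat_lit 62) (nat_lit 52) (nat_lit 92) (nat_lit 0x5e0000bc00017f01c2fd306) b54735 (.tok (nat_lit 65) (nat_lit 0x5e0000bc00017f110afdbbb) (.hit (nat_lit 53) (nat_lit 93) (nat_lit 0x5e0000bc00017f110afdbbb) b54736 (.hit (nat_lit 54) (nat_lit 94) (nat_lit 0x5e0000bc00017eed6afd0ef)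 b54737 (.nil))) (.tok (nat_lit 68) (nat_lit 0x5e0000bc00017fc1aaff0db) (.hit (nat_lit 55) (nat_lit 95) (nat_lit 0x5e0000bc00017f7efafe9de) b54738 (.one (nat_lit 3) (nat_lit 59) (nat_lit 99) (nat_lit 0x5e0000bc00017f2a92fda94) b54742 (.one (nat_lit 6) (nat_lit 56) (nat_lit 96) (nat_lit 0x5e0000bc00017fa692fec22) b54739 (.tok (nat_lit 9) (nat_lit 0x5e0000bc00017fc1aaff0db) (.hit (nat_lit 57) (nat_lit 97) (nat_lit 0x5e0000bc00017fc1aaff0db) b54740 (.hit (nat_lit 58) (nat_lit 98) (nat_lit 0x5e0000bc00017f2212fd79a) b54741 (.nil))) (.nil))))) (.one (nat_lit 71) (nat_lit 60) (nat_lit 100) (nat_lit 0x5e0000bc00017ec4dafcb67) b54743 (.nil)))))))))))))))))) (.tok (nat_lit 64) (nat_lit 0x5e0000bc00017fba3300c13) (.hit (nat_lit 176) (nat_lit 0) (nat_lit 0x5e0000bc00017faae300c13) b54744 (.tok (nat_lit 6) (nat_lit 0x5e0000bc00017f7b02ffe42) (.hit (nat_lit 177) (nat_lit 7) (nat_lit 0x5e0000bc00017f090aff863)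 b54745 (.hit (nat_lit 178) (nat_lit 15) (nat_lit 0x5e0000bc00017f7b02ffe42) b54746 (.nil))) (.tok (nat_lit 9) (nat_lit 0x5e0000bc00017fba3300b0e) (.hit (nat_lit 179) (nat_lit 20) (nat_lit 0x5e0000bc00017fba3300b0e) b54747 (.hit (nat_lit 180) (nat_lit 28) (nat_lit 0x5e0000bc00017f392affb5b) b54748 (.nil))) (.nil)))) (.tok (nat_lit 67) (nat_lit 0x5e0000bc00017fd413007ea) (.hit (nat_lit 201) (nat_lit 0) (nat_lit 0x5e0000bc00017fd412ffb73) b54754 (.tok (nat_lit 3) (nat_lit 0x5e0000bc00017f3bc2ffeba) (.hit (nat_lit 202) (nat_lit 1) (nat_lit 0x5e0000bc00017ed19aff175) b54755 (.one (nat_lit 55) (nat_lit 203) (nat_lit 3) (nat_lit 0x5e0000bc00017f3bc2ffeba) b54756 (.nil))) (.tok (nat_lit 9) (nat_lit 0x5e0000bc00017f8543007ea) (.hit (nat_lit 204) (nat_lit 20) (nat_lit 0x5e0000bc00017eb892fee54) b54757 (.hit (nat_lit 207) (nat_lit 28) (nat_lit 0x5e0000bc00017ed232ff188) b54760 (.tok (nat_lit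 67) (nat_lit 0x5e0000bc00017f8543007ea) (.hit (nat_lit 205) (nat_lit 21) (nat_lit 0x5e0000bc00017f348affdd3) b54758 (.hit (nat_lit 208) (nat_lit 29) (nat_lit 0x5e0000bc00017f49e30007e) b54761 (.one (nat_lit 9) (nat_lit 206) (nat_lit 22) (nat_lit 0x5e0000bc00017f8543007ea) b54759 (.nil)))) (.nil)))) (.nil)))) (.tok (nat_lit 70) (nat_lit 0x5e0000bc00017f9f3300b28) (.hit (nat_lit 187) (nat_lit 0) (nat_lit 0x5e0000bc00017f6bd2ff8bb) b54749 (.tok (nat_lit 3) (nat_lit 0x5e0000bc00017f9f3300b28) (.hit (nat_lit 188) (nat_lit 1) (nat_lit 0x5e0000bc00017edafaff2a1) b54750 (.one (nat_lit 67) (nat_lit 189) (nat_lit 2) (nat_lit 0x5e0000bc00017f9f3300b28) b54751 (.nil))) (.tok (nat_lit 6) (nat_lit 0x5e0000bc00017f15e2ff9fe) (.hit (nat_lit 190) (nat_lit 7) (nat_lit 0x5e0000bc00017f15e2ff9fe) b54752 (.hit (nat_lit 193) (nat_lit 15) (nat_lit 0x5e0000bc00017ecb9aff0b5) b54753 (.nil))) (.nil))))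 (.nil))))
noncomputable def r78_12 : Rw Blk := .tok (nat_lit 3) (nat_lit 0x5e0000bc000180af5b01f90) (.hit (nat_lit 15) (nat_lit 0) (nat_lit 0x5e0000bc00017f1392ff276) b54777 (.tok (nat_lit 6) (nat_lit 0x5e0000bc00017e85d2fe1d9) (.hit (nat_lit 16) (nat_lit 7) (nat_lit 0x5e0000bc00017e09fafd25e) b54778 (.hit (nat_lit 21) (nat_lit 15) (nat_lit 0x5e0000bc00017d0432fb1a5) b54781 (.tok (nat_lit 14) (nat_lit 0x5e0000bc00017e85d2fe1d9) (.hit (nat_lit 17) (nat_lit 11) (nat_lit 0x5e0000bc00017e47d2fda19) b54779 (.hit (nat_lit 22) (nat_lit 17) (nat_lit 0x5e0000bc00017e40aafd934) b54782 (.one (nat_lit 9) (nat_lit 18) (nat_lit 12) (nat_lit 0x5e0000bc00017e85d2fe1d9) b54780 (.nil)))) (.one (nat_lit 68) (nat_lit 23) (nat_lit 18) (nat_lit 0x5e0000bc00017e4bf2fda9d) b54783 (.nil))))) (.tok (nat_lit 52) (nat_lit 0x5e0000bc00017e9b02fe47f) (.hit (nat_lit 25) (nat_lit 39) (nat_lit 0x5e0000bc00017e9b02fe47f)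 b54784 (.hit (nat_lit 26) (nat_lit 40) (nat_lit 0x5e0000bc00017e77cafe018) b54785 (.nil))) (.tok (nat_lit 55) (nat_lit 0x5e0000bc000180af5b01f90) (.hit (nat_lit 27) (nat_lit 41) (nat_lit 0x5e0000bc000180af5b01f90) b54786 (.tok (nat_lit 3) (nat_lit 0x5e0000bc00017ef732ff005) (.hit (nat_lit 33) (nat_lit 47) (nat_lit 0x5e0000bc00017ed42afeba4) b54789 (.one (nat_lit 67) (nat_lit 34) (nat_lit 48) (nat_lit 0x5e0000bc00017ef732ff005) b54790 (.nil))) (.tok (nat_lit 6) (nat_lit 0x5e0000bc00017e86aafe1f4) (.hit (nat_lit 28) (nat_lit 42) (nat_lit 0x5e0000bc00017e86aafe1f4) b54787 (.hit (nat_lit 31) (nat_lit 45) (nat_lit 0x5e0000bc00017e721afdf62) b54788 (.nil))) (.nil)))) (.one (nat_lit 58) (nat_lit 35) (nat_lit 49) (nat_lit 0x5e0000bc00017ef6b2feff5) b54791 (.nil)))))) (.tok (nat_lit 9) (nat_lit 0x5e0000bc0001814d9b032ba) (.hit (nat_lit 0) (nat_lit 0) (nat_lit 0x5e0000bc00017f6ea2ff762)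 b54762 (.tok (nat_lit 9) (nat_lit 0x5e0000bc0001801d13018a2) (.hit (nat_lit 1) (nat_lit 20) (nat_lit 0x5e0000bc00017f1aeafeae8) b54763 (.hit (nat_lit 4) (nat_lit 28) (nat_lit 0x5e0000bc00017e5be2fd2c7) b54766 (.tok (nat_lit 14) (nat_lit 0x5e0000bc0001801d13018a2) (.hit (nat_lit 2) (nat_lit 24) (nat_lit 0x5e0000bc0001801d13018a2) b54764 (.hit (nat_lit 5) (nat_lit 30) (nat_lit 0x5e0000bc00017f17a2fea37) b54767 (.one (nat_lit 6) (nat_lit 3) (nat_lit 25) (nat_lit 0x5e0000bc00017fc6cb0105b) b54765 (.nil)))) (.one (nat_lit 56) (nat_lit 6) (nat_lit 31) (nat_lit 0x5e0000bc00017f4c0aff07a) b54768 (.nil))))) (.tok (nat_lit 64) (nat_lit 0x5e0000bc000180091300967) (.hit (nat_lit 7) (nat_lit 50) (nat_lit 0x5e0000bc000180091300967) b54769 (.hit (nat_lit 8) (nat_lit 51) (nat_lit 0x5e0000bc00017f5d4aff29c) b54770 (.nil))) (.tok (nat_lit 67) (nat_lit 0x5e0000bc0001814d9b032ba) (.hit (nat_lit 9)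 (nat_lit 52) (nat_lit 0x5e0000bc0001814d9b032ba) b54771 (.tok (nat_lit 3) (nat_lit 0x5e0000bc0001809b2301d60) (.hit (nat_lit 12) (nat_lit 58) (nat_lit 0x5e0000bc00017fd1bb0078d) b54774 (.one (nat_lit 55) (nat_lit 13) (nat_lit 59) (nat_lit 0x5e0000bc0001809b2301d60) b54775 (.nil))) (.tok (nat_lit 9) (nat_lit 0x5e0000bc0001802e6300f1e) (.hit (nat_lit 10) (nat_lit 53) (nat_lit 0x5e0000bc0001802e6300f1e) b54772 (.hit (nat_lit 11) (nat_lit 56) (nat_lit 0x5e0000bc00017fba9affe4f) b54773 (.nil))) (.nil)))) (.one (nat_lit 70) (nat_lit 14) (nat_lit 60) (nat_lit 0x5e0000bc00017f1252ff697) b54776 (.nil)))))) (.nil))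
noncomputable def r78_13 : Rw Blk := .tok (nat_lit 3) (nat_lit 0x17dbd22fc20d5fc6e0bf32697e0c92fcc045f934abf33d97e8912fcb8a5f8fdebf4f057ea67afdb46) (.hit (nat_lit 0) (nat_lit 0) (nat_lit 0x17db5f2fc20d5f9146bf138d7dd4a2fc4ce5f90e4bf2b117e8912fcb8a5f8886bf37817e7842fc9e8) b54792 (.tok (nat_lit 9) (nat_lit 0x17dbd22fbf1e5fc6e0bf32697e0c92fcc045f934abf33d97e73aafc9e25f8fdebf4f057ea67afdb46) (.hit (nat_lit 10) (nat_lit 20) (nat_lit 0x17d1a5afaac55f9b84bee1057d69cafb7ab5f6a98bee2757dd0e2fb5895f672cbeef057dc5c2fc6cf) b54503 (.hit (nat_lit 15) (nat_lit 28) (nat_lit 0x17d06e2fa8565f8498bed7497d5652fb53c5f65babed8b97dbd6afb31a5f624ebf24497e517afc73b) b54508 (.tok (nat_lit 14) (nat_lit 0x17db23afbdc15fbf5cbf2cf57e01aafcaa75f9090bf2e657e68c2fc8855f8d24bf4f057ea67afd7a2) (.hit (nat_lit 11) (nat_lit 24) (nat_lit 0x17d4f3afb1615faba2befb757d9eaafbe475f77d0befce57e05c2fbc255f7464bf09757dfaa2fce83)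 b54504 (.hit (nat_lit 16) (nat_lit 30) (nat_lit 0x17d4752fb0645f9700bef7817d96c2fbd4a5f75d6bef8f17dfddafbb285f726abf4f057ea67afd0a4) b54509 (.one (nat_lit 6) (nat_lit 12) (nat_lit 25) (nat_lit 0x17db23afbdc15fbf5cbf2cf57e01aafcaa75f9090bf2e657e68c2fc8855f8d24bf3af57e5da2fd7a2) b54505 (.nil)))) (.one (nat_lit 56) (nat_lit 17) (nat_lit 31) (nat_lit 0x17db04afbd835faffcbf2bfd7dffbafca695f9014bf2d6d7e66d2fc8475f8ca8bf443d7e8f4afd0d9) b54510 (.tok (nat_lit 68) (nat_lit 0x17dbd22fbf1e5fc6e0bf32697e0c92fcc045f934abf33d97e73aafc9e25f8fdebf40697e7e12fdb46) (.hit (nat_lit 13) (nat_lit 26) (nat_lit 0x17d7be2fb6f65fb024bf11c97dcb52fc3dc5f82fabf13397e326afc1ba5f7f8ebf1fc97e274afd266) b54506 (.hit (nat_lit 18) (nat_lit 32) (nat_lit 0x17d5b02fb2da5f9a2cbf01597daa72fbfc05f7ac2bf02c97e118afbd9e5f7756bf3ad57e7e12fcab5) b54511 (.one (nat_lit 9) (nat_lit 14) (nat_lit 27) (nat_lit 0x17dbd22fbf1e5fc6e0bf32697e0c92fcc045f934abf33d97e73aafc9e25f8fdebf40697e688afdb46)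 b54507 (.nil)))) (.nil)))))) (.nil))) (.tok (nat_lit 6) (nat_lit 0x180000300000600000c0000180000300000600000c000018000030089d601038c0000180254b00000) (.hit (nat_lit 81) (nat_lit 0) (nat_lit 0x17e581afdc9f5fa902bf55a97e5872fd5535fbbe8bf6a217f077afe09a5fb5aabf71757ee882fd3f3) b54512 (.tok (nat_lit 6) (nat_lit 0x17f2b4aff8035fed1cbf99897f0c8afea335fdfbabfd1a17fac2aff0875fd4d4bfbe6d7f7ccafed60) (.hit (nat_lit 87) (nat_lit 7) (nat_lit 0x17e09dafd0a65f9922bf11b17e3542fc8f85f9cd6bf4d057e8702fd2735f95d2bf35557e551afc918) b54513 (.hit (nat_lit 95) (nat_lit 15) (nat_lit 0x17d9cfafb6265f9336bea9e57db8fafa9865f7388bf0a317e2d7afd70e5f98b8bf245d7e3d8afc5a7) b54518 (.tok (nat_lit 14) (nat_lit 0x17f2b4aff8035fed1cbf99897f0c8afea335fdfbabfd1a17fac2aff0875fd4d4bfbe6d7f7ccafed60) (.hit (nat_lit 91) (nat_lit 11) (nat_lit 0x17f10aaff3b75fea78bf84397ec652fe0775fd096bfc0dd7f79d2fe5ef5fc096bf8de97f2402fe42b)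 b54514 (.hit (nat_lit 97) (nat_lit 17) (nat_lit 0x17e80dafd1cc5fd34ebf1c557e93fafc6025fa800bf67797f0572fe1155fba2abf71b57ed132fd65e) b54519 (.one (nat_lit 9) (nat_lit 92) (nat_lit 12) (nat_lit 0x17f2b4aff8035fed1cbf99897f0c8afea335fdfbabfd1a17fac2aff0875fd4d4bfbe6d7f7ccafed60) b54515 (.nil)))) (.tok (nat_lit 56) (nat_lit 0x17ed65afeee85fcd8ebf65817ebde2fda5e5fc038bf8fa97f484afe3285fb99cbf73a17ede62fea15) (.hit (nat_lit 93) (nat_lit 13) (nat_lit 0x17ed65afe7795fcc32bf65817ebde2fda5e5fc038bf8fa97f37fafe06b5fb99cbf73a17ede62fdb7f) b54516 (.hit (nat_lit 99) (nat_lit 19) (nat_lit 0x17e4432fcb115fa67ebefe317e5bd2fbe6d5f996ebf4a357ec332fe3285fb4d6bf62cd7ea2cafcdd6) b54520 (.one (nat_lit 6) (nat_lit 94) (nat_lit 14) (nat_lit 0x17e86f2feee85fcd8ebf54717e8352fd4865fa71abf75497f484afd9775fa8acbf62717eac9afea15) b54517 (.nil)))) (.nil))))) (.tok (nat_lit 52) (nat_lit 0x17e6ceafdf6f5fb5f8bf1e657e9d92fc6d25fa9dcbf6f217fa00afffc25ff9cebfa9997f7d3afe350)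 (.hit (nat_lit 106) (nat_lit 39) (nat_lit 0x17e5b52fdf6f5fb3bcbf1e657e9d92fc6d25fa9dcbf6b117fa00afffc25ff9cebfa9997f7d3afe350) b54521 (.hit (nat_lit 107) (nat_lit 40) (nat_lit 0x17e6ceafd8db5fb5f8bf13557e7662fc39c5fa56ebf6f217f7c7afde025fad52bf4fb97eac62fe0c7) b54522 (.nil))) (.tok (nat_lit 55) (nat_lit 0x180000300000600000c0000180000300000600000c000018000030089d601038c0000180254b00000) (.hit (nat_lit 108) (nat_lit 41) (nat_lit 0x17f8022ffbd75fe1ccbff6157fa75affcb8600000c000017fdf82ff9045fec90bfc5ad7fc8e2fee08) b54523 (.tok (nat_lit 3) (nat_lit 0x1800002ff9dc5ff406c000017f7f83000005fe9cabff2597fde32ffa125fd50ebfcad17f9782ff192) (.hit (nat_lit 114) (nat_lit 47) (nat_lit 0x17f3222feb625fdc68bfce197f7f82ff7765fcde2bfb8e57f7c3aff2815fcb6ebf990d7f4462fe5d5) b54529 (.one (nat_lit 67) (nat_lit 115) (nat_lit 48) (nat_lit 0x1800002ff9dc5ff406c000017f5bd3000005fe9cabff2597fde32ffa125fd50ebfcad17f9782ff192)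 b54530 (.nil))) (.tok (nat_lit 6) (nat_lit 0x17fcc7300000600000bfbe0d800002ff81b5fe686bfeed58000030089d601038c0000180254b00000) (.hit (nat_lit 109) (nat_lit 42) (nat_lit 0x17f1f62fe1dc5fca76bf67817f2f42fe0d75fce6abfb42d7f7542ff4795fe810bfcabd7fb61afe4ab) b54524 (.hit (nat_lit 112) (nat_lit 45) (nat_lit 0x17eba62fe9075fed54bf4a1d7ec42afd1f15fb8ccbf95dd7f932afe2865fbda2bf70257eed7aff1e2) b54527 (.tok (nat_lit 55) (nat_lit 0x17fcc7300000600000bfbe0d800002ff81b5fe686bfeed58000030089d601038c0000180254b00000) (.hit (nat_lit 110) (nat_lit 43) (nat_lit 0x17fcc72ff9945ff958bf9ee5800002ff0e15fe306bfeed57feb73001a3600206bff6c180209aff5d3) b54525 (.hit (nat_lit 113) (nat_lit 46) (nat_lit 0x17f34c300000600000bf77257f3eaafdc8c5fd764bfd30d800002ff1065fdc4ebfad557f75cb00000) b54528 (.one (nat_lit 6) (nat_lit 111) (nat_lit 44) (nat_lit 0x17fb87aff31d5ff4e0bfbe0d7fb4daff81b5fe686bfe9757ffa3b0089d601038c0000180254aff7ec)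 b54526 (.nil)))) (.nil)))) (.nil)))) (.one (nat_lit 58) (nat_lit 116) (nat_lit 49) (nat_lit 0x17eb1f2fdd7d5fd7f0bf36f57ec472fcc8f5fb752bf92e97f8503002a05ff7c6bfd56d7f9e72fe3b5) b54531 (.nil)))))) (.nil))
noncomputable def r78_14 : Rw Blk := .tok (nat_lit 9) (nat_lit 0x5e0000bc000180000300000) (.hit (nat_lit 0) (nat_lit 0) (nat_lit 0x5e0000bc00017f4482fe8b6) b54532 (.tok (nat_lit 14) (nat_lit 0x5e0000bc00017fa2baff144) (.hit (nat_lit 11) (nat_lit 61) (nat_lit 0x5e0000bc00017fa2bafefd0) b54533 (.one (nat_lit 3) (nat_lit 12) (nat_lit 62) (nat_lit 0x5e0000bc00017f9612fe638) b54534 (.tok (nat_lit 6) (nat_lit 0x5e0000bc00017f86c2ff144) (.hit (nat_lit 15) (nat_lit 65) (nat_lit 0x5e0000bc00017f86c2ff144) b54535 (.hit (nat_lit 16) (nat_lit 66) (nat_lit 0x5e0000bc00017f5aeafef02) b54536 (.nil))) (.tok (nat_lit 9) (nat_lit 0x5e0000bc00017f4fb2fef0c) (.hit (nat_lit 13) (nat_lit 63) (nat_lit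 0x5e0000bc00017efde2fef0c) b54537 (.hit (nat_lit 14) (nat_lit 64) (nat_lit 0x5e0000bc00017f4fb2fed4e) b54538 (.nil))) (.nil))))) (.one (nat_lit 17) (nat_lit 17) (nat_lit 67) (nat_lit 0x5e0000bc00017f45e2fdba7) b54539 (.tok (nat_lit 20) (nat_lit 0x5e0000bc00017f3bc2fdb13) (.hit (nat_lit 18) (nat_lit 68) (nat_lit 0x5e0000bc00017e5e1afdb13) b54542 (.hit (nat_lit 19) (nat_lit 69) (nat_lit 0x5e0000bc00017f3bc2fda13) b54543 (.nil))) (.tok (nat_lit 23) (nat_lit 0x5e0000bc00017fee6aff4ed) (.hit (nat_lit 20) (nat_lit 70) (nat_lit 0x5e0000bc00017fee6aff4ed) b54540 (.hit (nat_lit 21) (nat_lit 71) (nat_lit 0x5e0000bc00017f515afda13) b54541 (.nil))) (.one (nat_lit 38) (nat_lit 26) (nat_lit 76) (nat_lit 0x5e0000bc00017f381afdbe7) b54544 (.tok (nat_lit 41) (nat_lit 0x5e0000bc00017f4d6afd192) (.hit (nat_lit 27) (nat_lit 77) (nat_lit 0x5e0000bc00017f09dafc753) b54545 (.hit (nat_lit 28) (nat_lit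 78) (nat_lit 0x5e0000bc00017f4d6afd192) b54546 (.nil))) (.tok (nat_lit 44) (nat_lit 0x5e0000bc00017f62b2fd268) (.hit (nat_lit 29) (nat_lit 79) (nat_lit 0x5e0000bc00017db79afc643) b54549 (.hit (nat_lit 30) (nat_lit 80) (nat_lit 0x5e0000bc00017f62b2fd268) b54550 (.nil))) (.tok (nat_lit 47) (nat_lit 0x5e0000bc00017f5fdafd341) (.hit (nat_lit 31) (nat_lit 81) (nat_lit 0x5e0000bc00017f5fdafd341) b54547 (.hit (nat_lit 32) (nat_lit 82) (nat_lit 0x5e0000bc00017efde2fd0e7) b54548 (.nil))) (.one (nat_lit 50) (nat_lit 33) (nat_lit 83) (nat_lit 0x5e0000bc00017efc3afd555) b54560 (.tok (nat_lit 53) (nat_lit 0x5e0000bc00017f37aafe0e7) (.hit (nat_lit 34) (nat_lit 84) (nat_lit 0x5e0000bc00017ed582fe0e7) b54561 (.hit (nat_lit 35) (nat_lit 85) (nat_lit 0x5e0000bc00017f37aafd6e0) b54562 (.nil))) (.tok (nat_lit 56) (nat_lit 0x5e0000bc00017f434afe914) (.hit (nat_lit 36) (nat_lit 86) (nat_lit 0x5e0000bc00017f434afe761)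 b54563 (.one (nat_lit 3) (nat_lit 40) (nat_lit 90) (nat_lit 0x5e0000bc00017e790afde71) b54567 (.tok (nat_lit 6) (nat_lit 0x5e0000bc00017ece22fe914) (.hit (nat_lit 38) (nat_lit 88) (nat_lit 0x5e0000bc00017ece22fe914) b54565 (.hit (nat_lit 39) (nat_lit 89) (nat_lit 0x5e0000bc00017ea3cafe3c9) b54566 (.nil))) (.one (nat_lit 9) (nat_lit 37) (nat_lit 87) (nat_lit 0x5e0000bc00017eb862fe65c) b54564 (.nil))))) (.one (nat_lit 59) (nat_lit 41) (nat_lit 91) (nat_lit 0x5e0000bc00017eff8afc659) b54568 (.one (nat_lit 62) (nat_lit 42) (nat_lit 92) (nat_lit 0x5e0000bc00017f387afd555) b54551 (.tok (nat_lit 65) (nat_lit 0x5e0000bc00017f3faafdde5) (.hit (nat_lit 43) (nat_lit 93) (nat_lit 0x5e0000bc00017e761afdde5) b54552 (.hit (nat_lit 44) (nat_lit 94) (nat_lit 0x5e0000bc00017f3faafd2c1) b54553 (.nil))) (.tok (nat_lit 68) (nat_lit 0x5e0000bc000180000300000) (.hit (nat_lit 45) (nat_lit 95) (nat_lit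 0x5e0000bc00017ffb4aff94c) b54554 (.one (nat_lit 3) (nat_lit 49) (nat_lit 99) (nat_lit 0x5e0000bc0001800002ff099) b54558 (.one (nat_lit 6) (nat_lit 46) (nat_lit 96) (nat_lit 0x5e0000bc00017fa97b00000) b54555 (.tok (nat_lit 9) (nat_lit 0x5e0000bc00017fbc22febb9) (.hit (nat_lit 47) (nat_lit 97) (nat_lit 0x5e0000bc00017fbc22febb9) b54556 (.hit (nat_lit 48) (nat_lit 98) (nat_lit 0x5e0000bc00017f63c2fdea3) b54557 (.nil))) (.nil))))) (.one (nat_lit 71) (nat_lit 50) (nat_lit 100) (nat_lit 0x5e0000bc00017f0462fc765) b54559 (.nil)))))))))))))))))) (.nil)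
noncomputable def r78_15 : Rw Blk := .tok (nat_lit 6) (nat_lit 0x1780002f00005ff720c02e0580eb5b00421) (.hit (nat_lit 0) (nat_lit 0) (nat_lit 0x1780002f00005fa89abf847d7f562afde52) b54569 (.tok (nat_lit 14) (nat_lit 0x1780002f00005ff19cbfd5e17fd752ff9b0) (.hit (nat_lit 21) (nat_lit 61) (nat_lit 0x1780002f00005fd8fcbf89e57f6702fe987) b54570 (.one (nat_lit 3) (nat_lit 22) (nat_lit 62) (nat_lit 0x1780002f00005fe1a6bf8f497f192afef60) b54571 (.tok (nat_lit 6) (nat_lit 0x1780002f00005fb8b0bf7df17f0acafdb9f) (.hit (nat_lit 25) (nat_lit 65) (nat_lit 0x1780002f00005f71fcbf68517eb5e2fd4b7) b54572 (.hit (nat_lit 26) (nat_lit 66) (nat_lit 0x1780002f00005fb8b0bf7df17f0acafdb9f) b54573 (.nil))) (.tok (nat_lit 9) (nat_lit 0x1780002f00005ff19cbfd5e17fd752ff9b0) (.hit (nat_lit 23) (nat_lit 63) (nat_lit 0x1780002f00005ff19cbfd5e17fd752ff9b0) b54574 (.hit (nat_lit 24) (nat_lit 64) (nat_lit 0x1780002f00005fb5aebf61897ee91afd4bd)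 b54575 (.nil))) (.nil))))) (.one (nat_lit 17) (nat_lit 27) (nat_lit 67) (nat_lit 0x1780002f00005fc724bf76c17f09f2fdc2d) b54576 (.tok (nat_lit 20) (nat_lit 0x1780002f00005ff720c02e0580eb5b00421) (.hit (nat_lit 28) (nat_lit 68) (nat_lit 0x1780002f00005ff720c02e0580eb5b00421) b54579 (.hit (nat_lit 29) (nat_lit 69) (nat_lit 0x1780002f00005fad28bf45c17ec892fd106) b54580 (.nil))) (.tok (nat_lit 23) (nat_lit 0x1780002f00005fa764bf44857ea52afcf53) (.hit (nat_lit 30) (nat_lit 70) (nat_lit 0x1780002f00005f5082bf255d7e2ffafc3fa) b54577 (.hit (nat_lit 31) (nat_lit 71) (nat_lit 0x1780002f00005fa764bf44857ea52afcf53) b54578 (.nil))) (.one (nat_lit 26) (nat_lit 32) (nat_lit 72) (nat_lit 0x1780002f00005f998ebf1ed57e7552fc6e3) b54581 (.one (nat_lit 29) (nat_lit 33) (nat_lit 73) (nat_lit 0x1780002f00005fa412bf39c57ea752fd5a0) b54582 (.one (nat_lit 32) (nat_lit 34) (nat_lit 74) (nat_lit 0x1780002f00005f8a20befd017e3c82fbfa5)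 b54584 (.one (nat_lit 35) (nat_lit 35) (nat_lit 75) (nat_lit 0x1780002f00005fb926bf3a817ea8b2fd6cb) b54583 (.one (nat_lit 38) (nat_lit 36) (nat_lit 76) (nat_lit 0x1780002f00005fa43ebf38897ea5d2fcca9) b54585 (.tok (nat_lit 41) (nat_lit 0x1780002f00005f9c24bf54b17ed1aafd427) (.hit (nat_lit 37) (nat_lit 77) (nat_lit 0x1780002f00005f8f86bf19397e3cb2fcc1c) b54586 (.hit (nat_lit 38) (nat_lit 78) (nat_lit 0x1780002f00005f9c24bf54b17ed1aafd427) b54587 (.nil))) (.tok (nat_lit 44) (nat_lit 0x1780002f00005fbaf4bf69017f2632fe06e) (.hit (nat_lit 39) (nat_lit 79) (nat_lit 0x1780002f00005fbaf4bf69017f2632fe06e) b54590 (.hit (nat_lit 40) (nat_lit 80) (nat_lit 0x1780002f00005fa378bf0cb97e5c22fcc6a) b54591 (.nil))) (.tok (nat_lit 47) (nat_lit 0x1780002f00005fce66bf67657ef222fe1e7) (.hit (nat_lit 41) (nat_lit 81) (nat_lit 0x1780002f00005f41b0bf07b97df4b2fbc91) b54588 (.hit (nat_lit 42) (nat_lit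 82) (nat_lit 0x1780002f00005fce66bf67657ef222fe1e7) b54589 (.nil))) (.one (nat_lit 50) (nat_lit 43) (nat_lit 83) (nat_lit 0x1780002f00005fb6dabf44097ec03afd5d8) b54592 (.tok (nat_lit 53) (nat_lit 0x1780002f00005fccc6bf7b297ee552fe053) (.hit (nat_lit 44) (nat_lit 84) (nat_lit 0x1780002f00005fccc6bf7b297ed5dafe053) b54593 (.hit (nat_lit 45) (nat_lit 85) (nat_lit 0x1780002f00005fb4aabf4c317ee552fd8c4) b54594 (.nil))) (.tok (nat_lit 56) (nat_lit 0x1780002f00005fd72ebfd1ad7ffbdafee9b) (.hit (nat_lit 46) (nat_lit 86) (nat_lit 0x1780002f00005fd0b2bfb6c17fbc9afe4a4) b54595 (.one (nat_lit 3) (nat_lit 50) (nat_lit 90) (nat_lit 0x1780002f00005fb7b6bf98197f569afd5e5) b54599 (.tok (nat_lit 6) (nat_lit 0x1780002f00005fd098bf85357f587afe908) (.hit (nat_lit 48) (nat_lit 88) (nat_lit 0x1780002f00005fd098bf85357f587afe908) b54597 (.hit (nat_lit 49) (nat_lit 89) (nat_lit 0x1780002f00005fc4cabf6d657ee9bafdde1)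 b54598 (.nil))) (.one (nat_lit 9) (nat_lit 47) (nat_lit 87) (nat_lit 0x1780002f00005fd72ebfd1ad7ffbdafee9b) b54596 (.nil))))) (.one (nat_lit 59) (nat_lit 51) (nat_lit 91) (nat_lit 0x1780002f00005fab72bf2cb97e8e9afcf9e) b54600 (.nil)))))))))))))))))) (.tok (nat_lit 52) (nat_lit 0x1780002f0000600000c0831180d083010b4) (.hit (nat_lit 176) (nat_lit 0) (nat_lit 0x1780002f0000600000c0831180d083010b4) b54601 (.tok (nat_lit 6) (nat_lit 0x1780002f00005fd834c0205d80156300194) (.hit (nat_lit 177) (nat_lit 7) (nat_lit 0x1780002f00005fd834c0205d80156300194) b54604 (.hit (nat_lit 178) (nat_lit 15) (nat_lit 0x1780002f00005fb672bfc3957f8c12ff1ea) b54605 (.nil))) (.tok (nat_lit 9) (nat_lit 0x1780002f00005fd1d6bfdb597fcbdaff984) (.hit (nat_lit 179) (nat_lit 20) (nat_lit 0x1780002f00005faaa6bfcbe17fa8d2fec59) b54602 (.hit (nat_lit 180) (nat_lit 28) (nat_lit 0x1780002f00005fd1d6bfdb597fcbdaff984)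 b54603 (.nil))) (.nil)))) (.tok (nat_lit 55) (nat_lit 0x1780002f00005fc9dec00a518025b2ffbf5) (.hit (nat_lit 187) (nat_lit 0) (nat_lit 0x1780002f00005fc552bfd4bd7fba8afee90) b54611 (.tok (nat_lit 3) (nat_lit 0x1780002f00005fb7e2bfe6597fddc2ff2f7) (.hit (nat_lit 188) (nat_lit 1) (nat_lit 0x1780002f00005f8a9abf8bc97f28a2fdc53) b54612 (.one (nat_lit 67) (nat_lit 189) (nat_lit 2) (nat_lit 0x1780002f00005fb7e2bfe6597fddc2ff2f7) b54613 (.nil))) (.tok (nat_lit 6) (nat_lit 0x1780002f00005fc9dec00a518025b2ffbf5) (.hit (nat_lit 190) (nat_lit 7) (nat_lit 0x1780002f00005f9fa4bfb5dd7f7ccafe6d8) b54614 (.hit (nat_lit 193) (nat_lit 15) (nat_lit 0x1780002f00005f8c46bf8f217f2f52fdd29) b54617 (.tok (nat_lit 55) (nat_lit 0x1780002f00005fc9dec00a518025b2ffbf5) (.hit (nat_lit 191) (nat_lit 8) (nat_lit 0x1780002f00005fbd74bff17d7ff40aff5c0) b54615 (.hit (nat_lit 194) (nat_lit 16) (nat_lit 0x1780002f00005fbd40bff1157ff33aff5a6)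 b54618 (.one (nat_lit 6) (nat_lit 192) (nat_lit 9) (nat_lit 0x1780002f00005fc9dec00a518025b2ffbf5) b54616 (.nil)))) (.nil)))) (.nil)))) (.tok (nat_lit 58) (nat_lit 0x1780002f00005fcef0c01a8180428affde7) (.hit (nat_lit 201) (nat_lit 0) (nat_lit 0x1780002f00005fcef0c01a8180428aff335) b54606 (.tok (nat_lit 3) (nat_lit 0x1780002f00005fcdc2c01219803542ffde7) (.hit (nat_lit 202) (nat_lit 1) (nat_lit 0x1780002f00005f9a94bfabbd7f688afe450) b54607 (.one (nat_lit 55) (nat_lit 203) (nat_lit 3) (nat_lit 0x1780002f00005fcdc2c01219803542ffde7) b54608 (.nil))) (.tok (nat_lit 9) (nat_lit 0x1780002f00005f9ed4bfb43d7f798afe670) (.hit (nat_lit 204) (nat_lit 20) (nat_lit 0x1780002f00005f9e7abfb3897f7822fe643) b54609 (.hit (nat_lit 207) (nat_lit 28) (nat_lit 0x1780002f00005f9ed4bfb43d7f798afe670) b54610 (.nil))) (.nil)))) (.nil))))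
noncomputable def r78_16 : Rw Blk := .tok (nat_lit 3) (nat_lit 0x1780002f0000602240c050097fe04b015a4) (.hit (nat_lit 15) (nat_lit 0) (nat_lit 0x1780002f000060032abfeca17f43130024f) b54634 (.tok (nat_lit 9) (nat_lit 0x1780002f00005fe2c2bf8d857e7e0afec59) (.hit (nat_lit 16) (nat_lit 20) (nat_lit 0x1780002f00005f7d4ebf088d7d741afc3e9) b54635 (.hit (nat_lit 21) (nat_lit 28) (nat_lit 0x1780002f00005f9c0abeda917d1822fd5dc) b54638 (.tok (nat_lit 14) (nat_lit 0x1780002f00005fc376bf78697e53d2fec59) (.hit (nat_lit 17) (nat_lit 24) (nat_lit 0x1780002f00005f9ff6bf35fd7dcefafd53d) b54636 (.hit (nat_lit 22) (nat_lit 30) (nat_lit 0x1780002f00005fb308bf78697e53d2fec59) b54639 (.one (nat_lit 6) (nat_lit 18) (nat_lit 25) (nat_lit 0x1780002f00005fc376bf44997dec32fe6fd) b54637 (.nil)))) (.one (nat_lit 56) (nat_lit 23) (nat_lit 31) (nat_lit 0x1780002f00005fe2c2bf8d857e7e0afe6d9) b54640 (.nil)))))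 (.tok (nat_lit 64) (nat_lit 0x1780002f00005fd152bf95e57e8ecaff79c) (.hit (nat_lit 25) (nat_lit 50) (nat_lit 0x1780002f00005fc726bf74797e4bf2fe895) b54641 (.hit (nat_lit 26) (nat_lit 51) (nat_lit 0x1780002f00005fd152bf95e57e8ecaff79c) b54642 (.nil))) (.tok (nat_lit 67) (nat_lit 0x1780002f0000602240c050097fe04b00877) (.hit (nat_lit 27) (nat_lit 52) (nat_lit 0x1780002f0000602240c050097fe04b00877) b54643 (.tok (nat_lit 3) (nat_lit 0x1780002f00005fdac2bf89fd7e76faff2a3) (.hit (nat_lit 33) (nat_lit 58) (nat_lit 0x1780002f00005fb4e0bf693d7e357afdfb2) b54646 (.one (nat_lit 55) (nat_lit 34) (nat_lit 59) (nat_lit 0x1780002f00005fdac2bf89fd7e76faff2a3) b54647 (.nil))) (.tok (nat_lit 9) (nat_lit 0x1780002f00005fb6b4bf74397e4b72fe09c) (.hit (nat_lit 28) (nat_lit 53) (nat_lit 0x1780002f00005fb6b4bf74397e4b72fe09c) b54644 (.hit (nat_lit 31) (nat_lit 56) (nat_lit 0x1780002f00005faff0bf58c57e148afdd3a)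 b54645 (.nil))) (.nil)))) (.one (nat_lit 70) (nat_lit 35) (nat_lit 60) (nat_lit 0x1780002f0000601a3ebfc3b97eea73015a4) b54648 (.nil)))))) (.tok (nat_lit 6) (nat_lit 0x1780002f0000606ae4c12b3981d9eb03acb) (.hit (nat_lit 0) (nat_lit 0) (nat_lit 0x1780002f00006006a0c02b257faedb00172) b54619 (.tok (nat_lit 6) (nat_lit 0x1780002f00006019a6c0858580ffab0174a) (.hit (nat_lit 1) (nat_lit 7) (nat_lit 0x1780002f00005fa5ecbfae2d7f028afd2ff) b54620 (.hit (nat_lit 4) (nat_lit 15) (nat_lit 0x1780002f00005fb892bfbc4d7f09eafd982) b54623 (.tok (nat_lit 14) (nat_lit 0x1780002f00006019a6c0858580ffab0174a) (.hit (nat_lit 2) (nat_lit 11) (nat_lit 0x1780002f00005fd2ecbff3497f8e2aff05a) b54621 (.hit (nat_lit 5) (nat_lit 17) (nat_lit 0x1780002f00005feb68c013257fd84afee0b) b54624 (.one (nat_lit 9) (nat_lit 3) (nat_lit 12) (nat_lit 0x1780002f00006019a6c0858580ffab0174a) b54622 (.nil)))) (.one (nat_lit 68)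 (nat_lit 6) (nat_lit 18) (nat_lit 0x1780002f0000600a72c0695d8084db0025b) b54625 (.nil))))) (.tok (nat_lit 52) (nat_lit 0x1780002f000060688cc1267181921303571) (.hit (nat_lit 7) (nat_lit 39) (nat_lit 0x1780002f000060688cc1267181921303571) b54626 (.hit (nat_lit 8) (nat_lit 40) (nat_lit 0x1780002f0000601b20c023297fdd4affc22) b54627 (.nil))) (.tok (nat_lit 55) (nat_lit 0x1780002f0000606ae4c12b3981b2cb034af) (.hit (nat_lit 9) (nat_lit 41) (nat_lit 0x1780002f0000604c3ac0bb9580dfa301ff3) b54628 (.tok (nat_lit 3) (nat_lit 0x1780002f0000600296c04e2180e9fb007e4) (.hit (nat_lit 12) (nat_lit 47) (nat_lit 0x1780002f00005fe8c6c0492d80e9fb00251) b54631 (.one (nat_lit 67) (nat_lit 13) (nat_lit 48) (nat_lit 0x1780002f0000600296c04e2180cd5b007e4) b54632 (.nil))) (.tok (nat_lit 6) (nat_lit 0x1780002f0000606ae4c12b3981b2cb034af) (.hit (nat_lit 10) (nat_lit 42) (nat_lit 0x1780002f0000606ae4c12b3981b2cb034af)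 b54629 (.hit (nat_lit 11) (nat_lit 45) (nat_lit 0x1780002f00005ff1acbfde597f3352fecc4) b54630 (.nil))) (.nil)))) (.one (nat_lit 58) (nat_lit 14) (nat_lit 49) (nat_lit 0x1780002f0000606356c124d181d9eb03acb) b54633 (.nil)))))) (.nil))
noncomputable def r78_17 : Rw Blk := .tok (nat_lit 6) (nat_lit 0x5e0000bc00018207ab05877) (.hit (nat_lit 0) (nat_lit 0) (nat_lit 0x5e0000bc00017f942300a2d) b54649 (.tok (nat_lit 14) (nat_lit 0x5e0000bc0001815c63034de) (.hit (nat_lit 1) (nat_lit 61) (nat_lit 0x5e0000bc000180130300af1) b54650 (.one (nat_lit 3) (nat_lit 2) (nat_lit 62) (nat_lit 0x5e0000bc00018055f300b3b) b54651 (.tok (nat_lit 6) (nat_lit 0x5e0000bc00017f51f2ff9c3) (.hit (nat_lit 5) (nat_lit 65) (nat_lit 0x5e0000bc00017f51f2fee2c) b54652 (.hit (nat_lit 6) (nat_lit 66) (nat_lit 0x5e0000bc00017f08b2ff9c3) b54653 (.nil))) (.tok (nat_lit 9) (nat_lit 0x5e0000bc0001815c63034de) (.hit (nat_lit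 3) (nat_lit 63) (nat_lit 0x5e0000bc0001815c63034de) b54654 (.hit (nat_lit 4) (nat_lit 64) (nat_lit 0x5e0000bc00017f885b000b7) b54655 (.nil))) (.nil))))) (.one (nat_lit 17) (nat_lit 7) (nat_lit 67) (nat_lit 0x5e0000bc00017f71d2ff612) b54656 (.tok (nat_lit 20) (nat_lit 0x5e0000bc00018207ab05877) (.hit (nat_lit 8) (nat_lit 68) (nat_lit 0x5e0000bc00018207ab05877) b54659 (.hit (nat_lit 9) (nat_lit 69) (nat_lit 0x5e0000bc00017f4802fe9ec) b54660 (.nil))) (.tok (nat_lit 23) (nat_lit 0x5e0000bc00017f3912ff9ae) (.hit (nat_lit 10) (nat_lit 70) (nat_lit 0x5e0000bc00017f000afe3ef) b54657 (.hit (nat_lit 11) (nat_lit 71) (nat_lit 0x5e0000bc00017f3912ff9ae) b54658 (.nil))) (.one (nat_lit 26) (nat_lit 12) (nat_lit 72) (nat_lit 0x5e0000bc00017f7f72fef07) b54661 (.one (nat_lit 29) (nat_lit 13) (nat_lit 73) (nat_lit 0x5e0000bc00017fafd2ff5b1) b54662 (.one (nat_lit 32) (nat_lit 14) (nat_lit 74) (nat_lit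 0x5e0000bc00017ede9afe20c) b54664 (.one (nat_lit 35) (nat_lit 15) (nat_lit 75) (nat_lit 0x5e0000bc00017f8b7aff493) b54663 (.one (nat_lit 62) (nat_lit 23) (nat_lit 92) (nat_lit 0x5e0000bc00017fc1e2ff87f) b54665 (.tok (nat_lit 65) (nat_lit 0x5e0000bc00017f21daff4c8) (.hit (nat_lit 24) (nat_lit 93) (nat_lit 0x5e0000bc00017f117aff12d) b54666 (.hit (nat_lit 25) (nat_lit 94) (nat_lit 0x5e0000bc00017f21daff4c8) b54667 (.nil))) (.tok (nat_lit 68) (nat_lit 0x5e0000bc00018066930181a) (.hit (nat_lit 26) (nat_lit 95) (nat_lit 0x5e0000bc00018066930181a) b54668 (.one (nat_lit 3) (nat_lit 30) (nat_lit 99) (nat_lit 0x5e0000bc00017f402afebf3) b54672 (.one (nat_lit 6) (nat_lit 27) (nat_lit 96) (nat_lit 0x5e0000bc00017f1992fe720) b54669 (.tok (nat_lit 9) (nat_lit 0x5e0000bc00017f2cf2fe98c) (.hit (nat_lit 28) (nat_lit 97) (nat_lit 0x5e0000bc00017f2cf2fe98c) b54670 (.hit (nat_lit 29) (nat_lit 98)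 (nat_lit 0x5e0000bc00017ed1e2fde2a) b54671 (.nil))) (.nil))))) (.one (nat_lit 71) (nat_lit 31) (nat_lit 100) (nat_lit 0x5e0000bc00017f342afed28) b54673 (.nil)))))))))))))) (.tok (nat_lit 52) (nat_lit 0x5e0000bc000181704302f89) (.hit (nat_lit 45) (nat_lit 0) (nat_lit 0x5e0000bc000181704302f89) b54687 (.tok (nat_lit 6) (nat_lit 0x5e0000bc0001811fbb02e21) (.hit (nat_lit 46) (nat_lit 7) (nat_lit 0x5e0000bc0001811fbb02e21) b54690 (.hit (nat_lit 47) (nat_lit 15) (nat_lit 0x5e0000bc000180d0cb02784) b54691 (.nil))) (.tok (nat_lit 9) (nat_lit 0x5e0000bc00017fdc4b0025d) (.hit (nat_lit 48) (nat_lit 20) (nat_lit 0x5e0000bc00017f5c82fed02) b54688 (.hit (nat_lit 49) (nat_lit 28) (nat_lit 0x5e0000bc00017fdc4b0025d) b54689 (.nil))) (.nil)))) (.tok (nat_lit 55) (nat_lit 0x5e0000bc000180598300ca2) (.hit (nat_lit 40) (nat_lit 0) (nat_lit 0x5e0000bc0001803772fff2b) b54682 (.tok (nat_lit 3) (nat_lit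 0x5e0000bc000180347b00801) (.hit (nat_lit 41) (nat_lit 1) (nat_lit 0x5e0000bc00017fbecaff94b) b54683 (.one (nat_lit 67) (nat_lit 42) (nat_lit 2) (nat_lit 0x5e0000bc000180347b00801) b54684 (.nil))) (.tok (nat_lit 6) (nat_lit 0x5e0000bc000180598300ca2) (.hit (nat_lit 43) (nat_lit 7) (nat_lit 0x5e0000bc000180598300ca2) b54685 (.hit (nat_lit 44) (nat_lit 15) (nat_lit 0x5e0000bc00017f72c2fefca) b54686 (.nil))) (.nil)))) (.tok (nat_lit 58) (nat_lit 0x5e0000bc000181022b021b7) (.hit (nat_lit 32) (nat_lit 0) (nat_lit 0x5e0000bc00018079bb0205b) b54674 (.tok (nat_lit 3) (nat_lit 0x5e0000bc000181022b021b7) (.hit (nat_lit 33) (nat_lit 1) (nat_lit 0x5e0000bc000180687b00e81) b54675 (.one (nat_lit 55) (nat_lit 34) (nat_lit 3) (nat_lit 0x5e0000bc000181022b021b7) b54676 (.nil))) (.tok (nat_lit 9) (nat_lit 0x5e0000bc000180f7ab02067) (.hit (nat_lit 35) (nat_lit 20) (nat_lit 0x5e0000bc0001808f3b01359)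 b54677 (.hit (nat_lit 38) (nat_lit 28) (nat_lit 0x5e0000bc0001804ccb00b0b) b54680 (.tok (nat_lit 67) (nat_lit 0x5e0000bc000180f7ab02067) (.hit (nat_lit 36) (nat_lit 21) (nat_lit 0x5e0000bc000180c45b019fd) b54678 (.hit (nat_lit 39) (nat_lit 29) (nat_lit 0x5e0000bc000180eb9b01ee5) b54681 (.one (nat_lit 9) (nat_lit 37) (nat_lit 22) (nat_lit 0x5e0000bc000180f7ab02067) b54679 (.nil)))) (.nil)))) (.nil)))) (.nil))))
noncomputable def r78_18 : Rw Blk := .tok (nat_lit 3) (nat_lit 0x5e0000bc000181bddb03b94) (.hit (nat_lit 0) (nat_lit 0) (nat_lit 0x5e0000bc000181bddb03b94) b54692 (.tok (nat_lit 9) (nat_lit 0x5e0000bc000181128b01d6e) (.hit (nat_lit 1) (nat_lit 20) (nat_lit 0x5e0000bc00017f901afed20) b54693 (.hit (nat_lit 6) (nat_lit 28) (nat_lit 0x5e0000bc00017fbc3aff2a4) b54696 (.tok (nat_lit 68) (nat_lit 0x5e0000bc000181128b01d6e) (.hit (nat_lit 4) (nat_lit 26) (nat_lit 0x5e0000bc00018023fafff9c)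 b54694 (.hit (nat_lit 8) (nat_lit 32) (nat_lit 0x5e0000bc000180b82301221) b54697 (.one (nat_lit 9) (nat_lit 5) (nat_lit 27) (nat_lit 0x5e0000bc000181128b01d6e) b54695 (.nil)))) (.nil)))) (.tok (nat_lit 64) (nat_lit 0x5e0000bc000181386302229) (.hit (nat_lit 9) (nat_lit 50) (nat_lit 0x5e0000bc0001810e1b01ce0) b54698 (.hit (nat_lit 10) (nat_lit 51) (nat_lit 0x5e0000bc000181386302229) b54699 (.nil))) (.tok (nat_lit 67) (nat_lit 0x5e0000bc000181ad6b0394f) (.hit (nat_lit 11) (nat_lit 52) (nat_lit 0x5e0000bc000181ad6b0394f) b54700 (.one (nat_lit 3) (nat_lit 17) (nat_lit 58) (nat_lit 0x5e0000bc000180cb6b0148a) b54706 (.tok (nat_lit 9) (nat_lit 0x5e0000bc000180e2b301773) (.hit (nat_lit 12) (nat_lit 53) (nat_lit 0x5e0000bc000180a2ab00f72) b54701 (.hit (nat_lit 15) (nat_lit 56) (nat_lit 0x5e0000bc0001809ad300e77) b54704 (.tok (nat_lit 67) (nat_lit 0x5e0000bc000180e2b301773) (.hit (nat_lit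 13) (nat_lit 54) (nat_lit 0x5e0000bc000180c80b0141e) b54702 (.hit (nat_lit 16) (nat_lit 57) (nat_lit 0x5e0000bc000180e2b301773) b54705 (.one (nat_lit 9) (nat_lit 14) (nat_lit 55) (nat_lit 0x5e0000bc0001809ec300ef5) b54703 (.nil)))) (.nil)))) (.nil)))) (.one (nat_lit 70) (nat_lit 19) (nat_lit 60) (nat_lit 0x5e0000bc000180eeab018f2) b54707 (.nil)))))) (.tok (nat_lit 6) (nat_lit 0x5e0000bc0001824beb0569a) (.hit (nat_lit 20) (nat_lit 0) (nat_lit 0x5e0000bc0001824beb041d3) b54708 (.tok (nat_lit 6) (nat_lit 0x5e0000bc0001821b9b0569a) (.hit (nat_lit 21) (nat_lit 7) (nat_lit 0x5e0000bc0001818cab02dbd) b54709 (.hit (nat_lit 24) (nat_lit 15) (nat_lit 0x5e0000bc0001814de30304f) b54710 (.one (nat_lit 68) (nat_lit 26) (nat_lit 18) (nat_lit 0x5e0000bc0001821b9b0569a) b54711 (.nil)))) (.nil))) (.nil))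
noncomputable def r78_19 : Rw Blk := .tok (nat_lit 6) (nat_lit 0x5e0000bc0001800003001b2) (.hit (nat_lit 0) (nat_lit 0) (nat_lit 0x5e0000bc00017ebddafe094) b54712 (.tok (nat_lit 14) (nat_lit 0x5e0000bc0001800003001b2) (.hit (nat_lit 21) (nat_lit 61) (nat_lit 0x5e0000bc00017f8e02fe527) b54713 (.one (nat_lit 3) (nat_lit 22) (nat_lit 62) (nat_lit 0x5e0000bc00017f22b2fdb52) b54714 (.tok (nat_lit 6) (nat_lit 0x5e0000bc00017f2662fe5b8) (.hit (nat_lit 25) (nat_lit 65) (nat_lit 0x5e0000bc00017e9022fe273) b54715 (.hit (nat_lit 26) (nat_lit 66) (nat_lit 0x5e0000bc00017f2662fe5b8) b54716 (.nil))) (.tok (nat_lit 9) (nat_lit 0x5e0000bc0001800003001b2) (.hit (nat_lit 23) (nat_lit 63) (nat_lit 0x5e0000bc0001800003001b2) b54717 (.hit (nat_lit 24) (nat_lit 64) (nat_lit 0x5e0000bc00017f4a5afe30c) b54718 (.nil))) (.nil))))) (.one (nat_lit 17) (nat_lit 27) (nat_lit 67) (nat_lit 0x5e0000bc00017ed372fd0c1)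 b54719 (.tok (nat_lit 20) (nat_lit 0x5e0000bc00017f1b92fe5a6) (.hit (nat_lit 28) (nat_lit 68) (nat_lit 0x5e0000bc00017f1b92fe5a6) b54722 (.hit (nat_lit 29) (nat_lit 69) (nat_lit 0x5e0000bc00017eba02fcf2f) b54723 (.nil))) (.tok (nat_lit 23) (nat_lit 0x5e0000bc00017ed222fdaf4) (.hit (nat_lit 30) (nat_lit 70) (nat_lit 0x5e0000bc00017e542afdaf4) b54720 (.hit (nat_lit 31) (nat_lit 71) (nat_lit 0x5e0000bc00017ed222fcf2d) b54721 (.nil))) (.one (nat_lit 26) (nat_lit 32) (nat_lit 72) (nat_lit 0x5e0000bc00017e96d2fc5bb) b54724 (.one (nat_lit 29) (nat_lit 33) (nat_lit 73) (nat_lit 0x5e0000bc00017e897afc60b) b54725 (.one (nat_lit 32) (nat_lit 34) (nat_lit 74) (nat_lit 0x5e0000bc00017e493afc2ac) b54727 (.one (nat_lit 35) (nat_lit 35) (nat_lit 75) (nat_lit 0x5e0000bc00017ec562fcb7f) b54726 (.one (nat_lit 38) (nat_lit 36) (nat_lit 76) (nat_lit 0x5e0000bc00017eb12afd101) b54728 (.tok (nat_lit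 41) (nat_lit 0x5e0000bc00017e9e3afc9ee) (.hit (nat_lit 37) (nat_lit 77) (nat_lit 0x5e0000bc00017e9e3afc8b5) b54729 (.hit (nat_lit 38) (nat_lit 78) (nat_lit 0x5e0000bc00017e85aafc9ee) b54730 (.nil))) (.tok (nat_lit 44) (nat_lit 0x5e0000bc00017eea6afd131) (.hit (nat_lit 39) (nat_lit 79) (nat_lit 0x5e0000bc00017eea6afd131) b54733 (.hit (nat_lit 40) (nat_lit 80) (nat_lit 0x5e0000bc00017ea65afc791) b54734 (.nil))) (.tok (nat_lit 47) (nat_lit 0x5e0000bc00017edb8afce42) (.hit (nat_lit 41) (nat_lit 81) (nat_lit 0x5e0000bc00017d41cafb8a8) b54731 (.hit (nat_lit 42) (nat_lit 82) (nat_lit 0x5e0000bc00017edb8afce42) b54732 (.nil))) (.one (nat_lit 50) (nat_lit 43) (nat_lit 83) (nat_lit 0x5e0000bc00017f01c2fd306) b54735 (.tok (nat_lit 53) (nat_lit 0x5e0000bc00017f110afdbbb) (.hit (nat_lit 44) (nat_lit 84) (nat_lit 0x5e0000bc00017f110afdbbb) b54736 (.hit (nat_lit 45) (nat_lit 85) (nat_lit 0x5e0000bc00017eed6afd0ef)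 b54737 (.nil))) (.tok (nat_lit 56) (nat_lit 0x5e0000bc00017fc1aaff0db) (.hit (nat_lit 46) (nat_lit 86) (nat_lit 0x5e0000bc00017f7efafe9de) b54738 (.one (nat_lit 3) (nat_lit 50) (nat_lit 90) (nat_lit 0x5e0000bc00017f2a92fda94) b54742 (.tok (nat_lit 6) (nat_lit 0x5e0000bc00017fc1aaff0db) (.hit (nat_lit 48) (nat_lit 88) (nat_lit 0x5e0000bc00017fc1aaff0db) b54740 (.hit (nat_lit 49) (nat_lit 89) (nat_lit 0x5e0000bc00017f2212fd79a) b54741 (.nil))) (.one (nat_lit 9) (nat_lit 47) (nat_lit 87) (nat_lit 0x5e0000bc00017fa692fec22) b54739 (.nil))))) (.one (nat_lit 59) (nat_lit 51) (nat_lit 91) (nat_lit 0x5e0000bc00017ec4dafcb67) b54743 (.nil)))))))))))))))))) (.tok (nat_lit 52) (nat_lit 0x5e0000bc00017fba3300c13) (.hit (nat_lit 176) (nat_lit 0) (nat_lit 0x5e0000bc00017faae300c13) b54744 (.tok (nat_lit 6) (nat_lit 0x5e0000bc00017fba3300b0e) (.hit (nat_lit 177) (nat_lit 7) (nat_lit 0x5e0000bc00017fba3300b0e)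 b54747 (.hit (nat_lit 178) (nat_lit 15) (nat_lit 0x5e0000bc00017f392affb5b) b54748 (.nil))) (.tok (nat_lit 9) (nat_lit 0x5e0000bc00017f7b02ffe42) (.hit (nat_lit 179) (nat_lit 20) (nat_lit 0x5e0000bc00017f090aff863) b54745 (.hit (nat_lit 180) (nat_lit 28) (nat_lit 0x5e0000bc00017f7b02ffe42) b54746 (.nil))) (.nil)))) (.tok (nat_lit 55) (nat_lit 0x5e0000bc00017fd413007ea) (.hit (nat_lit 187) (nat_lit 0) (nat_lit 0x5e0000bc00017fd412ffb73) b54754 (.tok (nat_lit 3) (nat_lit 0x5e0000bc00017f3bc2ffeba) (.hit (nat_lit 188) (nat_lit 1) (nat_lit 0x5e0000bc00017ed19aff175) b54755 (.one (nat_lit 67) (nat_lit 189) (nat_lit 2) (nat_lit 0x5e0000bc00017f3bc2ffeba) b54756 (.nil))) (.tok (nat_lit 6) (nat_lit 0x5e0000bc00017f8543007ea) (.hit (nat_lit 190) (nat_lit 7) (nat_lit 0x5e0000bc00017eb892fee54) b54757 (.hit (nat_lit 193) (nat_lit 15) (nat_lit 0x5e0000bc00017ed232ff188) b54760 (.tok (nat_lit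 55) (nat_lit 0x5e0000bc00017f8543007ea) (.hit (nat_lit 191) (nat_lit 8) (nat_lit 0x5e0000bc00017f348affdd3) b54758 (.hit (nat_lit 194) (nat_lit 16) (nat_lit 0x5e0000bc00017f49e30007e) b54761 (.one (nat_lit 6) (nat_lit 192) (nat_lit 9) (nat_lit 0x5e0000bc00017f8543007ea) b54759 (.nil)))) (.nil)))) (.nil)))) (.tok (nat_lit 58) (nat_lit 0x5e0000bc00017f9f3300b28) (.hit (nat_lit 201) (nat_lit 0) (nat_lit 0x5e0000bc00017f6bd2ff8bb) b54749 (.tok (nat_lit 3) (nat_lit 0x5e0000bc00017f9f3300b28) (.hit (nat_lit 202) (nat_lit 1) (nat_lit 0x5e0000bc00017edafaff2a1) b54750 (.one (nat_lit 55) (nat_lit 203) (nat_lit 3) (nat_lit 0x5e0000bc00017f9f3300b28) b54751 (.nil))) (.tok (nat_lit 9) (nat_lit 0x5e0000bc00017f15e2ff9fe) (.hit (nat_lit 204) (nat_lit 20) (nat_lit 0x5e0000bc00017f15e2ff9fe) b54752 (.hit (nat_lit 207) (nat_lit 28) (nat_lit 0x5e0000bc00017ecb9aff0b5) b54753 (.nil))) (.nil))))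 (.nil))))
noncomputable def r78_20 : Rw Blk := .tok (nat_lit 3) (nat_lit 0x5e0000bc000180af5b01f90) (.hit (nat_lit 15) (nat_lit 0) (nat_lit 0x5e0000bc00017f1392ff276) b54777 (.tok (nat_lit 9) (nat_lit 0x5e0000bc00017e85d2fe1d9) (.hit (nat_lit 16) (nat_lit 20) (nat_lit 0x5e0000bc00017e09fafd25e) b54778 (.hit (nat_lit 21) (nat_lit 28) (nat_lit 0x5e0000bc00017d0432fb1a5) b54781 (.tok (nat_lit 14) (nat_lit 0x5e0000bc00017e85d2fe1d9) (.hit (nat_lit 17) (nat_lit 24) (nat_lit 0x5e0000bc00017e47d2fda19) b54779 (.hit (nat_lit 22) (nat_lit 30) (nat_lit 0x5e0000bc00017e40aafd934) b54782 (.one (nat_lit 6) (nat_lit 18) (nat_lit 25) (nat_lit 0x5e0000bc00017e85d2fe1d9) b54780 (.nil)))) (.one (nat_lit 56) (nat_lit 23) (nat_lit 31) (nat_lit 0x5e0000bc00017e4bf2fda9d) b54783 (.nil))))) (.tok (nat_lit 64) (nat_lit 0x5e0000bc00017e9b02fe47f) (.hit (nat_lit 25) (nat_lit 50) (nat_lit 0x5e0000bc00017e9b02fe47f)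 b54784 (.hit (nat_lit 26) (nat_lit 51) (nat_lit 0x5e0000bc00017e77cafe018) b54785 (.nil))) (.tok (nat_lit 67) (nat_lit 0x5e0000bc000180af5b01f90) (.hit (nat_lit 27) (nat_lit 52) (nat_lit 0x5e0000bc000180af5b01f90) b54786 (.tok (nat_lit 3) (nat_lit 0x5e0000bc00017ef732ff005) (.hit (nat_lit 33) (nat_lit 58) (nat_lit 0x5e0000bc00017ed42afeba4) b54789 (.one (nat_lit 55) (nat_lit 34) (nat_lit 59) (nat_lit 0x5e0000bc00017ef732ff005) b54790 (.nil))) (.tok (nat_lit 9) (nat_lit 0x5e0000bc00017e86aafe1f4) (.hit (nat_lit 28) (nat_lit 53) (nat_lit 0x5e0000bc00017e86aafe1f4) b54787 (.hit (nat_lit 31) (nat_lit 56) (nat_lit 0x5e0000bc00017e721afdf62) b54788 (.nil))) (.nil)))) (.one (nat_lit 70) (nat_lit 35) (nat_lit 60) (nat_lit 0x5e0000bc00017ef6b2feff5) b54791 (.nil)))))) (.tok (nat_lit 6) (nat_lit 0x5e0000bc0001814d9b032ba) (.hit (nat_lit 0) (nat_lit 0) (nat_lit 0x5e0000bc00017f6ea2ff762)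 b54762 (.tok (nat_lit 6) (nat_lit 0x5e0000bc0001801d13018a2) (.hit (nat_lit 1) (nat_lit 7) (nat_lit 0x5e0000bc00017f1aeafeae8) b54763 (.hit (nat_lit 4) (nat_lit 15) (nat_lit 0x5e0000bc00017e5be2fd2c7) b54766 (.tok (nat_lit 14) (nat_lit 0x5e0000bc0001801d13018a2) (.hit (nat_lit 2) (nat_lit 11) (nat_lit 0x5e0000bc0001801d13018a2) b54764 (.hit (nat_lit 5) (nat_lit 17) (nat_lit 0x5e0000bc00017f17a2fea37) b54767 (.one (nat_lit 9) (nat_lit 3) (nat_lit 12) (nat_lit 0x5e0000bc00017fc6cb0105b) b54765 (.nil)))) (.one (nat_lit 68) (nat_lit 6) (nat_lit 18) (nat_lit 0x5e0000bc00017f4c0aff07a) b54768 (.nil))))) (.tok (nat_lit 52) (nat_lit 0x5e0000bc000180091300967) (.hit (nat_lit 7) (nat_lit 39) (nat_lit 0x5e0000bc000180091300967) b54769 (.hit (nat_lit 8) (nat_lit 40) (nat_lit 0x5e0000bc00017f5d4aff29c) b54770 (.nil))) (.tok (nat_lit 55) (nat_lit 0x5e0000bc0001814d9b032ba) (.hit (nat_lit 9)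 (nat_lit 41) (nat_lit 0x5e0000bc0001814d9b032ba) b54771 (.tok (nat_lit 3) (nat_lit 0x5e0000bc0001809b2301d60) (.hit (nat_lit 12) (nat_lit 47) (nat_lit 0x5e0000bc00017fd1bb0078d) b54774 (.one (nat_lit 67) (nat_lit 13) (nat_lit 48) (nat_lit 0x5e0000bc0001809b2301d60) b54775 (.nil))) (.tok (nat_lit 6) (nat_lit 0x5e0000bc0001802e6300f1e) (.hit (nat_lit 10) (nat_lit 42) (nat_lit 0x5e0000bc0001802e6300f1e) b54772 (.hit (nat_lit 11) (nat_lit 45) (nat_lit 0x5e0000bc00017fba9affe4f) b54773 (.nil))) (.nil)))) (.one (nat_lit 58) (nat_lit 14) (nat_lit 49) (nat_lit 0x5e0000bc00017f1252ff697) b54776 (.nil)))))) (.nil))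
noncomputable def r79_0 : Rw Blk := .tok (nat_lit 3) (nat_lit 0x2fdb685fb556bfac897ef812ff8ea5fd3b0bf9ea97f9a9afefc85ffc6ebfc8cd7fbe9afed13) (.hit (nat_lit 0) (nat_lit 0) (nat_lit 0x2fb6be5f841abf228d7e5962fd5e95f9cd6bf302d7ea69afd2f05fa612bf5f597ede32fd374) b54793 (.tok (nat_lit 6) (nat_lit 0x2fb6475f7b82bf7eb97e22cafdc8a5f98f0bf25f57e941afc93e5fa9debf8a217f447afe34f) (.hit (nat_lit 1) (nat_lit 7) (nat_lit 0x2fa34b5f558abf37097d8aeafc98e5f72f8beda057dfc3afb6425f83e6befd3d7ef66afd138) b54794 (.hit (nat_lit 6) (nat_lit 15) (nat_lit 0x2fa0dc5f50acbf09317d7772fc71f5f6e1abed0497de8c2fb3d35f7f08bf37cd7ed7b2fd0b6) b54797 (.tok (nat_lit 14) (nat_lit 0x2fb6475f7b82bf7eb97e22cafdc8a5f98f0bf25f57e941afc93e5fa9debf60897f3f8afdaec) (.hit (nat_lit 2) (nat_lit 11) (nat_lit 0x2fa9e75f62c2bf57457dbfcafd02a5f8030bef4757e311afbcde5f911ebf15b17ef5b2fd128) b54795 (.hit (nat_lit 7) (nat_lit 17) (nat_lit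 0x2fa8ea5f60c8bf2e017db7e2fcf2d5f7e36bef0817e2932fbbe15f8f24bf60897f2152fd9d2) b54798 (.one (nat_lit 9) (nat_lit 3) (nat_lit 12) (nat_lit 0x2fb6475f7b82bf7eb97e22cafdc8a5f98f0bf25f57e941afc93e5fa9debf4dc57f3f8afdaec) b54796 (.nil)))) (.one (nat_lit 68) (nat_lit 8) (nat_lit 18) (nat_lit 0x2fb6095f7b06bf5ff97e20dafdc4c5f9874bf24fd7e922afc9005fa962bf8a217f447afe34f) b54799 (.nil))))) (.tok (nat_lit 52) (nat_lit 0x2facda5f68a8bf4f9d7dd762fd31d5f8616bf00417e48b2fbfd15f9704bf73057eee62fda5f) (.hit (nat_lit 19) (nat_lit 39) (nat_lit 0x2fa9b05f6254bf1aa17dbe12fcff35f7fc2bef3997e2f62fbca75f90b0bf59a97e65f2fd539) b54800 (.hit (nat_lit 20) (nat_lit 40) (nat_lit 0x2facda5f68a8bf4f9d7dd762fd31d5f8616bf00417e48b2fbfd15f9704bf73057eee62fda5f) b54801 (.nil))) (.tok (nat_lit 55) (nat_lit 0x2fdb685fb556bfac897ef812ff8ea5fd3b0bf9ea97f9a9afefc85ffc6ebfc8cd7fbe9afed13) (.hit (nat_lit 21) (nat_lit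 41) (nat_lit 0x2fdb685fb556bfa5297ef812ff8ea5fd3b0bf9ea97f9a9afefc85ffc6ebfc8cd7fabbafed13) b54802 (.tok (nat_lit 3) (nat_lit 0x2fbd795f89e6bfac897e5c5afe3bc5fa754bf42bd7ecdaafd0705fb842bf78517fbe9afe87a) (.hit (nat_lit 27) (nat_lit 47) (nat_lit 0x2fb5d25f7a98bf7ab97e1f22fdc155f9806bf24217e9072fc8c95fa8f4bf5a4d7f4cdafdd45) b54805 (.one (nat_lit 67) (nat_lit 28) (nat_lit 48) (nat_lit 0x2fbd795f89e6bfac897e5c5afe3bc5fa754bf42bd7ecdaafd0705fb842bf78517fbe9afe87a) b54806 (.nil))) (.tok (nat_lit 6) (nat_lit 0x2fc08f5f9b9ebf6e1d7ed59afe13c5fa254bf38bd7eb9aafcdf05fb342bf63f17f3bf2fdda3) (.hit (nat_lit 22) (nat_lit 42) (nat_lit 0x2fc08f5f9b9ebf6e1d7ed59afe13c5fa254bf38bd7eb9aafcdf05fb342bf63f17effb2fdda3) b54803 (.hit (nat_lit 25) (nat_lit 45) (nat_lit 0x2fb62b5f7b4abf69ed7e21eafdc6e5f98b8bf25857e933afc9225fa9a6bf46c17f3bf2fdbc4) b54804 (.nil))) (.nil)))) (.one (nat_lit 58) (nat_lit 29)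 (nat_lit 49) (nat_lit 0x2fb50a5f7908bf6a8d7e18e2fdb4d5f9676bf21017e8a32fc8015fa764bfa3397f4f52fe959) b54807 (.nil)))))) (.tok (nat_lit 9) (nat_lit 0x300000600000c00001800fcb00000600000c00001800003000006003c4c0292580000300000) (.hit (nat_lit 157) (nat_lit 0) (nat_lit 0x2fcb035fb93ebf52057ef1c2fecf95fc1debf651d7f2fcafe49d5fc974bfa1a97f4e0afdd9d) b54808 (.tok (nat_lit 9) (nat_lit 0x2fe5695ff006bfda397f0b42ff7385ff17cbfc8bd7f7d12fec9d5fdfc6bfcf9d7f959afefa0) (.hit (nat_lit 163) (nat_lit 20) (nat_lit 0x2fc13b5fa14cbf32457e1c62fdbb15faf3cbf51257ecc7afd4145fa594bf51497ef232fd205) b54809 (.hit (nat_lit 171) (nat_lit 28) (nat_lit 0x2fb39f5f6c4cbf266d7d95a2fcc675f8944bf09d17e4d1afc8205f8f3abf9eb17ecfbafcf1a) b54814 (.tok (nat_lit 14) (nat_lit 0x2fe5695ff006bfda397f0b42ff7385fe668bfc8bd7f7d12fec9d5fcbe6bfb68d7f959afefa0) (.hit (nat_lit 167) (nat_lit 24) (nat_lit 0x2fe2155fe76ebfd4f17ef8e2ff6d35fe5bcbfb94d7f79b2fe8c25fc59abf90097f8c82fefa0)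 b54810 (.hit (nat_lit 173) (nat_lit 30) (nat_lit 0x2fd01b5fa398bfa69d7e78b2fe3ac5fbc06bf67fd7f003afe01f5fc2e2bfb68d7f153afdd07) b54815 (.one (nat_lit 6) (nat_lit 168) (nat_lit 25) (nat_lit 0x2fe5695ff006bfda397f0b42ff7385fe668bfc8bd7f7d12fec9d5fcbe6bfa4257f959afec06) b54811 (.nil)))) (.one (nat_lit 56) (nat_lit 174) (nat_lit 31) (nat_lit 0x2fc8365f9720bf6c8d7e40b2fde405fa9e6bf4a2d7ebafafd5815fb148bfc4d57f27bafdc47) b54816 (.tok (nat_lit 68) (nat_lit 0x2fdacb5fddd0bf9b1d7ee55aff0935ff17cbfb9857f783afeb1a5fdfc6bfcf9d7f780afeea5) (.hit (nat_lit 169) (nat_lit 26) (nat_lit 0x2fdacb5fcef2bf98657ee55aff0935fdc92bf91157f7092fe9f55fd3a2bf96597f4db2fe275) b54812 (.hit (nat_lit 175) (nat_lit 32) (nat_lit 0x2fc8865f9622bf4cfd7e3c0afdd285fab56bf49117ec80afd7735fb174bfcf9d7eff0afd707) b54817 (.one (nat_lit 9) (nat_lit 170) (nat_lit 27) (nat_lit 0x2fd0de5fddd0bf9b1d7e7faafe6695ff17cbfb9857f783afeb1a5fdfc6bf7f497f780afeea5)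 b54813 (.nil)))) (.nil)))))) (.tok (nat_lit 64) (nat_lit 0x2fcd9d5fbedebf6bf17e6632fe9c45fe192bfb7f17f91f2ff6735fe808bfc3057f61b2fec35) (.hit (nat_lit 182) (nat_lit 50) (nat_lit 0x2fcb6a5fbedebf67797e2cf2fd97e5fd83abf93a57f1ed2fe0b65fd6a0bf9ef17ebd92fdeb9) b54818 (.hit (nat_lit 183) (nat_lit 51) (nat_lit 0x2fcd9d5fb1b6bf6bf17e6632fe9c45fe192bfb7f17f91f2ff6735fe808bfc3057f61b2fec35) b54819 (.nil))) (.tok (nat_lit 67) (nat_lit 0x300000600000c00001800fcb00000600000c00001800003000006003c4bfe60980000300000) (.hit (nat_lit 184) (nat_lit 52) (nat_lit 0x2ff0045ff7aebfc3997fa4daffe615feed2bfeb517ffca2ff8615ffa2ebfabcd7fdf22ff32e) b54820 (.tok (nat_lit 3) (nat_lit 0x3000005ff3b8bfe80d7fc7a3000005ff9fec000017fef32ff9645fe6e8bfd479800002ff5d8) (.hit (nat_lit 190) (nat_lit 58) (nat_lit 0x2fe6445fd6c4bfb8d17f7c92ff6605fe562bfc1417fac52ff4285fdd4abfa5457fb252feb03) b54826 (.one (nat_lit 55)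 (nat_lit 191) (nat_lit 59) (nat_lit 0x3000005ff3b8bfe80d7fc7a3000005ff9fec000017fef32ff9645fe6e8bfd479800002ff5d8) b54827 (.nil))) (.tok (nat_lit 9) (nat_lit 0x2ff98e600000c00001800fcaffdc8600000bffd9d800003000006003c4bfe6097feb9b00000) (.hit (nat_lit 185) (nat_lit 53) (nat_lit 0x2fe3ec5fc3b8bf94ed7f54faff51f5fdd32bfb1ad7f964afed275fd44cbfb7d97f0d62fe98d) b54821 (.hit (nat_lit 188) (nat_lit 56) (nat_lit 0x2fd74c5fd20ebfdaa97eb30aff1255ff106bfd1997fa912ff55c5fdebebf89c17fc04aff3b6) b54824 (.tok (nat_lit 67) (nat_lit 0x2ff98e600000c00001800fcaffdc8600000bffd9d800003000006003c4bfe6097feb9b00000) (.hit (nat_lit 186) (nat_lit 54) (nat_lit 0x2ff98e5ff328bff2b17fda0aff52e5ff6e0bfe0757fdaeaffaa45ff508bfc3dd7f6382ff7fb) b54822 (.hit (nat_lit 189) (nat_lit 57) (nat_lit 0x2fe698600000c000017f2d6aff88f600000bffd9d7ffe73000005ffd32bf9b497feb9b00000) b54825 (.one (nat_lit 9) (nat_lit 187) (nat_lit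 55) (nat_lit 0x2ff70f5fe63abfe9c1800fcaffdc85ff9b4bfe9d1800002fff066003c4bfe6097f03eaffb70) b54823 (.nil)))) (.nil)))) (.nil)))) (.one (nat_lit 70) (nat_lit 192) (nat_lit 60) (nat_lit 0x2fd63e5fbafabfafe17e6abafee6e5fe3a0bfb7c97f8782ff37d5fde46c029257f80a2feb90) b54828 (.nil)))))) (.nil))
noncomputable def r79_1 : Rw Blk := .tok (nat_lit 6) (nat_lit 0x5e0000bc00017f89faff682) (.hit (nat_lit 51) (nat_lit 0) (nat_lit 0x5e0000bc00017ee012fe771) b54829 (.tok (nat_lit 14) (nat_lit 0x5e0000bc00017f3e4afe9c3) (.hit (nat_lit 62) (nat_lit 61) (nat_lit 0x5e0000bc00017f3e4afe302) b54830 (.one (nat_lit 3) (nat_lit 63) (nat_lit 62) (nat_lit 0x5e0000bc00017f31a2fd96a) b54831 (.tok (nat_lit 6) (nat_lit 0x5e0000bc00017eeb42fe23e) (.hit (nat_lit 66) (nat_lit 65) (nat_lit 0x5e0000bc00017e9972fe23e) b54834 (.hit (nat_lit 67) (nat_lit 66) (nat_lit 0x5e0000bc00017eeb42fe080) b54835 (.nil))) (.tok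 (nat_lit 9) (nat_lit 0x5e0000bc00017f2252fe9c3) (.hit (nat_lit 64) (nat_lit 63) (nat_lit 0x5e0000bc00017f2252fe9c3) b54832 (.hit (nat_lit 65) (nat_lit 64) (nat_lit 0x5e0000bc00017ef67afe234) b54833 (.nil))) (.nil))))) (.one (nat_lit 17) (nat_lit 68) (nat_lit 67) (nat_lit 0x5e0000bc00017ee172fcfe1) b54836 (.tok (nat_lit 20) (nat_lit 0x5e0000bc00017f89faff682) (.hit (nat_lit 69) (nat_lit 68) (nat_lit 0x5e0000bc00017f89faff682) b54837 (.hit (nat_lit 70) (nat_lit 69) (nat_lit 0x5e0000bc00017eeceafd126) b54838 (.nil))) (.tok (nat_lit 23) (nat_lit 0x5e0000bc00017ed752fcea5) (.hit (nat_lit 71) (nat_lit 70) (nat_lit 0x5e0000bc00017df9aafce45) b54839 (.hit (nat_lit 72) (nat_lit 71) (nat_lit 0x5e0000bc00017ed752fcea5) b54840 (.nil))) (.one (nat_lit 26) (nat_lit 73) (nat_lit 72) (nat_lit 0x5e0000bc00017e5f62fc146) b54841 (.one (nat_lit 29) (nat_lit 74) (nat_lit 73) (nat_lit 0x5e0000bc00017e5882fc273)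 b54842 (.one (nat_lit 32) (nat_lit 75) (nat_lit 74) (nat_lit 0x5e0000bc00017e4caafc0c4) b54843 (.one (nat_lit 35) (nat_lit 76) (nat_lit 75) (nat_lit 0x5e0000bc00017ea122fc9b5) b54844 (.one (nat_lit 38) (nat_lit 77) (nat_lit 76) (nat_lit 0x5e0000bc00017ed3aafcf19) b54845 (.tok (nat_lit 41) (nat_lit 0x5e0000bc00017ee8fafd14e) (.hit (nat_lit 78) (nat_lit 77) (nat_lit 0x5e0000bc00017ea56afbbe5) b54846 (.hit (nat_lit 79) (nat_lit 78) (nat_lit 0x5e0000bc00017ee8fafd14e) b54847 (.nil))) (.tok (nat_lit 44) (nat_lit 0x5e0000bc00017efb6afd10a) (.hit (nat_lit 80) (nat_lit 79) (nat_lit 0x5e0000bc00017efb6afd10a) b54848 (.hit (nat_lit 81) (nat_lit 80) (nat_lit 0x5e0000bc00017e9972fc6ab) b54849 (.nil))) (.tok (nat_lit 47) (nat_lit 0x5e0000bc00017efe42fd370) (.hit (nat_lit 82) (nat_lit 81) (nat_lit 0x5e0000bc00017d532afb975) b54850 (.hit (nat_lit 83) (nat_lit 82) (nat_lit 0x5e0000bc00017efe42fd370)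 b54851 (.nil))) (.one (nat_lit 62) (nat_lit 93) (nat_lit 92) (nat_lit 0x5e0000bc00017e97cafc887) b54852 (.tok (nat_lit 65) (nat_lit 0x5e0000bc00017ed33afd419) (.hit (nat_lit 94) (nat_lit 93) (nat_lit 0x5e0000bc00017e7112fd419) b54853 (.hit (nat_lit 95) (nat_lit 94) (nat_lit 0x5e0000bc00017ed33afcf10) b54854 (.nil))) (.tok (nat_lit 68) (nat_lit 0x5e0000bc00017ededafe8cc) (.hit (nat_lit 96) (nat_lit 95) (nat_lit 0x5e0000bc00017ededafe8cc) b54855 (.one (nat_lit 3) (nat_lit 100) (nat_lit 99) (nat_lit 0x5e0000bc00017e149afd1a3) b54859 (.one (nat_lit 6) (nat_lit 97) (nat_lit 96) (nat_lit 0x5e0000bc00017e53f2fd98e) b54856 (.tok (nat_lit 9) (nat_lit 0x5e0000bc00017e69b2fdc46) (.hit (nat_lit 98) (nat_lit 97) (nat_lit 0x5e0000bc00017e69b2fdc46) b54857 (.hit (nat_lit 99) (nat_lit 98) (nat_lit 0x5e0000bc00017e3f5afd6fb) b54858 (.nil))) (.nil))))) (.one (nat_lit 71) (nat_lit 101) (nat_lit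 100) (nat_lit 0x5e0000bc00017e9b1afc737) b54860 (.nil)))))))))))))))))) (.tok (nat_lit 52) (nat_lit 0x5e0000bc0001800003014af) (.hit (nat_lit 225) (nat_lit 0) (nat_lit 0x5e0000bc00017fe763014af) b54861 (.tok (nat_lit 6) (nat_lit 0x5e0000bc000180000300bde) (.hit (nat_lit 226) (nat_lit 7) (nat_lit 0x5e0000bc000180000300bde) b54862 (.hit (nat_lit 227) (nat_lit 15) (nat_lit 0x5e0000bc00017f4752ff784) b54863 (.nil))) (.tok (nat_lit 9) (nat_lit 0x5e0000bc00017f1d4aff54a) (.hit (nat_lit 228) (nat_lit 20) (nat_lit 0x5e0000bc00017e6ec2ff0aa) b54864 (.hit (nat_lit 229) (nat_lit 28) (nat_lit 0x5e0000bc00017f1d4aff54a) b54865 (.nil))) (.nil)))) (.tok (nat_lit 55) (nat_lit 0x5e0000bc00017f661b005a3) (.hit (nat_lit 250) (nat_lit 0) (nat_lit 0x5e0000bc00017f661aff1ba) b54874 (.tok (nat_lit 3) (nat_lit 0x5e0000bc00017f168b005a3) (.hit (nat_lit 251) (nat_lit 1) (nat_lit 0x5e0000bc00017e3e12fea94)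 b54875 (.one (nat_lit 67) (nat_lit 252) (nat_lit 2) (nat_lit 0x5e0000bc00017f168b005a3) b54876 (.nil))) (.tok (nat_lit 6) (nat_lit 0x5e0000bc00017e6e2aff097) (.hit (nat_lit 253) (nat_lit 7) (nat_lit 0x5e0000bc00017e6e2aff097) b54877 (.hit (nat_lit 256) (nat_lit 15) (nat_lit 0x5e0000bc00017e357afe981) b54878 (.nil))) (.nil)))) (.tok (nat_lit 58) (nat_lit 0x5e0000bc00017fb04b017bd) (.hit (nat_lit 236) (nat_lit 0) (nat_lit 0x5e0000bc00017fb04aff7c6) b54866 (.tok (nat_lit 3) (nat_lit 0x5e0000bc00017f4aab00c27) (.hit (nat_lit 237) (nat_lit 1) (nat_lit 0x5e0000bc00017e3ac2fea2a) b54867 (.one (nat_lit 55) (nat_lit 238) (nat_lit 3) (nat_lit 0x5e0000bc00017f4aab00c27) b54868 (.nil))) (.tok (nat_lit 9) (nat_lit 0x5e0000bc00017fa75b017bd) (.hit (nat_lit 239) (nat_lit 20) (nat_lit 0x5e0000bc00017ea44aff75b) b54869 (.hit (nat_lit 242) (nat_lit 28) (nat_lit 0x5e0000bc00017e6a32ff018) b54872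 (.tok (nat_lit 67) (nat_lit 0x5e0000bc00017fa75b017bd) (.hit (nat_lit 240) (nat_lit 21) (nat_lit 0x5e0000bc00017efce30026e) b54870 (.hit (nat_lit 243) (nat_lit 29) (nat_lit 0x5e0000bc00017f223b00719) b54873 (.one (nat_lit 9) (nat_lit 241) (nat_lit 22) (nat_lit 0x5e0000bc00017fa75b017bd) b54871 (.nil)))) (.nil)))) (.nil)))) (.nil))))
noncomputable def r79_2 : Rw Blk := .tok (nat_lit 3) (nat_lit 0x5e0000bc00018046bb00bb5) (.hit (nat_lit 15) (nat_lit 0) (nat_lit 0x5e0000bc00017f2b82ff52f) b54886 (.tok (nat_lit 9) (nat_lit 0x5e0000bc00017e9ac2ff359) (.hit (nat_lit 16) (nat_lit 20) (nat_lit 0x5e0000bc00017e046afe08e) b54887 (.hit (nat_lit 21) (nat_lit 28) (nat_lit 0x5e0000bc00017d465afc8cc) b54892 (.tok (nat_lit 14) (nat_lit 0x5e0000bc00017e5fe2febfd) (.hit (nat_lit 17) (nat_lit 24) (nat_lit 0x5e0000bc00017deeaafddd6) b54888 (.hit (nat_lit 22) (nat_lit 30) (nat_lit 0x5e0000bc00017e4962fe92d)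 b54893 (.one (nat_lit 6) (nat_lit 18) (nat_lit 25) (nat_lit 0x5e0000bc00017e5fe2febfd) b54889 (.nil)))) (.tok (nat_lit 68) (nat_lit 0x5e0000bc00017e9ac2ff359) (.hit (nat_lit 19) (nat_lit 26) (nat_lit 0x5e0000bc00017e4672fe8cf) b54890 (.hit (nat_lit 24) (nat_lit 32) (nat_lit 0x5e0000bc00017e4d4afe9aa) b54894 (.one (nat_lit 9) (nat_lit 20) (nat_lit 27) (nat_lit 0x5e0000bc00017e9ac2ff359) b54891 (.nil)))) (.nil))))) (.tok (nat_lit 64) (nat_lit 0x5e0000bc00017ea1eaff43e) (.hit (nat_lit 25) (nat_lit 50) (nat_lit 0x5e0000bc00017e38bafe718) b54895 (.hit (nat_lit 26) (nat_lit 51) (nat_lit 0x5e0000bc00017ea1eaff43e) b54896 (.nil))) (.tok (nat_lit 67) (nat_lit 0x5e0000bc00018046bb00bb5) (.hit (nat_lit 27) (nat_lit 52) (nat_lit 0x5e0000bc00018046bb00bb5) b54897 (.tok (nat_lit 3) (nat_lit 0x5e0000bc00017ee3aaffc76) (.hit (nat_lit 33) (nat_lit 58) (nat_lit 0x5e0000bc00017ea2b2ff457) b54903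 (.one (nat_lit 55) (nat_lit 34) (nat_lit 59) (nat_lit 0x5e0000bc00017ee3aaffc76) b54904 (.nil))) (.tok (nat_lit 9) (nat_lit 0x5e0000bc00017eb882ff711) (.hit (nat_lit 28) (nat_lit 53) (nat_lit 0x5e0000bc00017e67aafecf6) b54898 (.hit (nat_lit 31) (nat_lit 56) (nat_lit 0x5e0000bc00017e8162ff02d) b54901 (.tok (nat_lit 67) (nat_lit 0x5e0000bc00017eb882ff711) (.hit (nat_lit 29) (nat_lit 54) (nat_lit 0x5e0000bc00017eb882ff711) b54899 (.hit (nat_lit 32) (nat_lit 57) (nat_lit 0x5e0000bc00017eb09aff614) b54902 (.one (nat_lit 9) (nat_lit 30) (nat_lit 55) (nat_lit 0x5e0000bc00017e6232fec47) b54900 (.nil)))) (.nil)))) (.nil)))) (.one (nat_lit 70) (nat_lit 35) (nat_lit 60) (nat_lit 0x5e0000bc00017e9912ff323) b54905 (.nil)))))) (.tok (nat_lit 6) (nat_lit 0x5e0000bc00018014e301556) (.hit (nat_lit 0) (nat_lit 0) (nat_lit 0x5e0000bc00017fca2301556) b54879 (.tok (nat_lit 6) (nat_lit 0x5e0000bc00018014e301362)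 (.hit (nat_lit 1) (nat_lit 7) (nat_lit 0x5e0000bc00017f15c2fe7a1) b54880 (.hit (nat_lit 4) (nat_lit 15) (nat_lit 0x5e0000bc00017eba5afe414) b54883 (.tok (nat_lit 14) (nat_lit 0x5e0000bc00018014e301362) (.hit (nat_lit 2) (nat_lit 11) (nat_lit 0x5e0000bc00017fe56b00d06) b54881 (.hit (nat_lit 5) (nat_lit 17) (nat_lit 0x5e0000bc00017f105afe38a) b54884 (.one (nat_lit 9) (nat_lit 3) (nat_lit 12) (nat_lit 0x5e0000bc00018014e301362) b54882 (.nil)))) (.one (nat_lit 68) (nat_lit 6) (nat_lit 18) (nat_lit 0x5e0000bc00017fbc3affa9f) b54885 (.nil))))) (.nil))) (.nil))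
noncomputable def r79_3 : Rw Blk := .tok (nat_lit 9) (nat_lit 0x2f00005e0000bfee41801c3300c55) (.hit (nat_lit 0) (nat_lit 0) (nat_lit 0x2f00005e0000bf51357f16e2fe068) b54906 (.tok (nat_lit 14) (nat_lit 0x2f00005e0000bfe3397fcef2ff52f) (.hit (nat_lit 21) (nat_lit 61) (nat_lit 0x2f00005e0000bfb1f97f6682fed5b) b54907 (.one (nat_lit 3) (nat_lit 22) (nat_lit 62) (nat_lit 0x2f00005e0000bfc34d7f1c0aff395) b54908 (.tok (nat_lit 6) (nat_lit 0x2f00005e0000bfe3397fcef2ff52f) (.hit (nat_lit 25) (nat_lit 65) (nat_lit 0x2f00005e0000bfe3397fcef2ff52f) b54911 (.hit (nat_lit 26) (nat_lit 66) (nat_lit 0x2f00005e0000bf6b5d7f2a82fd8a5) b54912 (.nil))) (.tok (nat_lit 9) (nat_lit 0x2f00005e0000bf71617f3812fe305) (.hit (nat_lit 23) (nat_lit 63) (nat_lit 0x2f00005e0000bee3f97f3812fd8e4) b54909 (.hit (nat_lit 24) (nat_lit 64) (nat_lit 0x2f00005e0000bf71617f2a3afe305) b54910 (.nil))) (.nil))))) (.one (nat_lit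 17) (nat_lit 27) (nat_lit 67) (nat_lit 0x2f00005e0000bf8e497f0212fe37c) b54913 (.tok (nat_lit 20) (nat_lit 0x2f00005e0000bf4ec97eb22afd693) (.hit (nat_lit 28) (nat_lit 68) (nat_lit 0x2f00005e0000bea1057eb22afc827) b54914 (.hit (nat_lit 29) (nat_lit 69) (nat_lit 0x2f00005e0000bf4ec97e9992fd693) b54915 (.nil))) (.tok (nat_lit 23) (nat_lit 0x2f00005e0000bfee41801c3300c55) (.hit (nat_lit 30) (nat_lit 70) (nat_lit 0x2f00005e0000bfee41801c3300c55) b54916 (.hit (nat_lit 31) (nat_lit 71) (nat_lit 0x2f00005e0000bf5a517ebf22fd4be) b54917 (.nil))) (.one (nat_lit 26) (nat_lit 32) (nat_lit 72) (nat_lit 0x2f00005e0000bf331d7e6b7afca4a) b54918 (.one (nat_lit 29) (nat_lit 33) (nat_lit 73) (nat_lit 0x2f00005e0000bf48257e939afd7b2) b54919 (.one (nat_lit 32) (nat_lit 34) (nat_lit 74) (nat_lit 0x2f00005e0000bf724d7e9daafdd97) b54920 (.one (nat_lit 35) (nat_lit 35) (nat_lit 75) (nat_lit 0x2f00005e0000bf14417e33f2fc35d)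 b54921 (.one (nat_lit 50) (nat_lit 43) (nat_lit 83) (nat_lit 0x2f00005e0000bf32297e9502fcaf7) b54922 (.tok (nat_lit 53) (nat_lit 0x2f00005e0000bf61697ea90afd599) (.hit (nat_lit 44) (nat_lit 84) (nat_lit 0x2f00005e0000bf61697ea90afd05d) b54923 (.hit (nat_lit 45) (nat_lit 85) (nat_lit 0x2f00005e0000bf0c997ea5fafd599) b54924 (.nil))) (.tok (nat_lit 56) (nat_lit 0x2f00005e0000bf2c057f6eeafdeb6) (.hit (nat_lit 46) (nat_lit 86) (nat_lit 0x2f00005e0000bf2c057f6eeafdeb6) b54925 (.one (nat_lit 3) (nat_lit 50) (nat_lit 90) (nat_lit 0x2f00005e0000be9f117eae42fc7aa) b54929 (.tok (nat_lit 6) (nat_lit 0x2f00005e0000bee74d7f3ebafd9b9) (.hit (nat_lit 48) (nat_lit 88) (nat_lit 0x2f00005e0000bee74d7f3ebafd9b9) b54927 (.hit (nat_lit 49) (nat_lit 89) (nat_lit 0x2f00005e0000bec6057efc2afd167) b54928 (.nil))) (.one (nat_lit 9) (nat_lit 47) (nat_lit 87) (nat_lit 0x2f00005e0000beaf9d7ecf5afcbcd) b54926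 (.nil))))) (.one (nat_lit 59) (nat_lit 51) (nat_lit 91) (nat_lit 0x2f00005e0000bf4cc57e89aafd4a8) b54930 (.one (nat_lit 62) (nat_lit 52) (nat_lit 92) (nat_lit 0x2f00005e0000bf6db57eb6bafd7c7) b54931 (.tok (nat_lit 65) (nat_lit 0x2f00005e0000bf998d7ef47afec7b) (.hit (nat_lit 53) (nat_lit 93) (nat_lit 0x2f00005e0000bf998d7ef47afec7b) b54932 (.hit (nat_lit 54) (nat_lit 94) (nat_lit 0x2f00005e0000bf69557ed1f2fe00b) b54933 (.nil))) (.tok (nat_lit 68) (nat_lit 0x2f00005e0000bfae5d7fb8eaff7bf) (.hit (nat_lit 55) (nat_lit 95) (nat_lit 0x2f00005e0000bfa1657f9fa2fe9b7) b54934 (.one (nat_lit 3) (nat_lit 59) (nat_lit 99) (nat_lit 0x2f00005e0000bf6f6d7f0d1afdbfc) b54938 (.one (nat_lit 6) (nat_lit 56) (nat_lit 96) (nat_lit 0x2f00005e0000bfae5d7fb8eaff7bf) b54935 (.tok (nat_lit 9) (nat_lit 0x2f00005e0000bfa1317f184afeddf) (.hit (nat_lit 57) (nat_lit 97) (nat_lit 0x2f00005e0000bfa1317f184afeddf)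 b54936 (.hit (nat_lit 58) (nat_lit 98) (nat_lit 0x2f00005e0000bf89957ee2fafe3cd) b54937 (.nil))) (.nil))))) (.one (nat_lit 71) (nat_lit 60) (nat_lit 100) (nat_lit 0x2f00005e0000bf56e57e8412fd64a) b54939 (.nil)))))))))))))))))) (.tok (nat_lit 64) (nat_lit 0x2f00005e0000c0000180ada300c34) (.hit (nat_lit 176) (nat_lit 0) (nat_lit 0x2f00005e0000c0000180ada300c34) b54940 (.tok (nat_lit 6) (nat_lit 0x2f00005e0000bfa3ad7fbebaff5e9) (.hit (nat_lit 177) (nat_lit 7) (nat_lit 0x2f00005e0000bf554d7fbebafdfad) b54941 (.hit (nat_lit 178) (nat_lit 15) (nat_lit 0x2f00005e0000bfa3ad7fb732ff5e9) b54942 (.nil))) (.tok (nat_lit 9) (nat_lit 0x2f00005e0000bfb06980113aff713) (.hit (nat_lit 179) (nat_lit 20) (nat_lit 0x2f00005e0000bfb06980113aff713) b54943 (.hit (nat_lit 180) (nat_lit 28) (nat_lit 0x2f00005e0000bf6ce57fa1fafea00) b54944 (.nil))) (.nil)))) (.tok (nat_lit 67) (nat_lit 0x2f00005e0000bf93bd803b9afef49)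 (.hit (nat_lit 201) (nat_lit 0) (nat_lit 0x2f00005e0000bf8aa57fd072febd0) b54953 (.tok (nat_lit 3) (nat_lit 0x2f00005e0000bf6fc57ff3aafe64b) (.hit (nat_lit 202) (nat_lit 1) (nat_lit 0x2f00005e0000bf15357f3e8afcfa7) b54954 (.one (nat_lit 55) (nat_lit 203) (nat_lit 3) (nat_lit 0x2f00005e0000bf6fc57ff3aafe64b) b54955 (.nil))) (.tok (nat_lit 9) (nat_lit 0x2f00005e0000bf93bd803b9afef49) (.hit (nat_lit 204) (nat_lit 20) (nat_lit 0x2f00005e0000bf3f497f92b2fda2c) b54956 (.hit (nat_lit 207) (nat_lit 28) (nat_lit 0x2f00005e0000bf188d7f453afd07d) b54959 (.tok (nat_lit 67) (nat_lit 0x2f00005e0000bf93bd803b9afef49) (.hit (nat_lit 205) (nat_lit 21) (nat_lit 0x2f00005e0000bf7ae98009f2fe914) b54957 (.hit (nat_lit 208) (nat_lit 29) (nat_lit 0x2f00005e0000bf7a81800922fe8fa) b54960 (.one (nat_lit 9) (nat_lit 206) (nat_lit 22) (nat_lit 0x2f00005e0000bf93bd803b9afef49) b54958 (.nil)))) (.nil)))) (.nil))))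 (.tok (nat_lit 70) (nat_lit 0x2f00005e0000bfc021809462ffa62) (.hit (nat_lit 187) (nat_lit 0) (nat_lit 0x2f00005e0000bf9de17ff792ff37a) b54945 (.tok (nat_lit 3) (nat_lit 0x2f00005e0000bf9b85804b2aff13b) (.hit (nat_lit 188) (nat_lit 1) (nat_lit 0x2f00005e0000bf35297f7e72fd7a4) b54946 (.one (nat_lit 67) (nat_lit 189) (nat_lit 2) (nat_lit 0x2f00005e0000bf9b85804b2aff13b) b54947 (.nil))) (.tok (nat_lit 6) (nat_lit 0x2f00005e0000bfc021809462ffa62) (.hit (nat_lit 190) (nat_lit 7) (nat_lit 0x2f00005e0000bf3cf57f8e0afd997) b54948 (.hit (nat_lit 193) (nat_lit 15) (nat_lit 0x2f00005e0000bf3da97f8f72fd9c4) b54951 (.tok (nat_lit 55) (nat_lit 0x2f00005e0000bfc021809462ffa62) (.hit (nat_lit 191) (nat_lit 8) (nat_lit 0x2f00005e0000bf70d17ff5c2fe68e) b54949 (.hit (nat_lit 194) (nat_lit 16) (nat_lit 0x2f00005e0000bfa69580614aff3ff) b54952 (.one (nat_lit 6) (nat_lit 192) (nat_lit 9) (nat_lit 0x2f00005e0000bfc021809462ffa62)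 b54950 (.nil)))) (.nil)))) (.nil)))) (.nil))))
noncomputable def r79_4 : Rw Blk := .tok (nat_lit 3) (nat_lit 0x2f00005e0000c04b2981234b0243c) (.hit (nat_lit 15) (nat_lit 0) (nat_lit 0x2f00005e0000c00cfd801b830119b) b54972 (.tok (nat_lit 6) (nat_lit 0x2f00005e0000bfcc2d7f8222ff6a0) (.hit (nat_lit 16) (nat_lit 7) (nat_lit 0x2f00005e0000bf01457e6f42fcc11) b54973 (.hit (nat_lit 21) (nat_lit 15) (nat_lit 0x2f00005e0000bf3ebd7e134afdc6c) b54976 (.tok (nat_lit 56) (nat_lit 0x2f00005e0000bf73e97f8222fe8ba) (.hit (nat_lit 19) (nat_lit 13) (nat_lit 0x2f00005e0000bf45617eb3aafdd18) b54974 (.hit (nat_lit 24) (nat_lit 19) (nat_lit 0x2f00005e0000bf5ea97f2f0afe776) b54978 (.one (nat_lit 6) (nat_lit 20) (nat_lit 14) (nat_lit 0x2f00005e0000bf73e97f8222fe8ba) b54975 (.nil)))) (.one (nat_lit 68) (nat_lit 23) (nat_lit 18) (nat_lit 0x2f00005e0000bfcc2d7f7932ff6a0) b54977 (.nil))))) (.tok (nat_lit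 52) (nat_lit 0x2f00005e0000bfa94d7f89f2ff8c1) (.hit (nat_lit 25) (nat_lit 39) (nat_lit 0x2f00005e0000bf94f57f471aff8c1) b54979 (.hit (nat_lit 26) (nat_lit 40) (nat_lit 0x2f00005e0000bfa94d7f89f2fef82) b54980 (.nil))) (.tok (nat_lit 55) (nat_lit 0x2f00005e0000c04b2981234b01792) (.hit (nat_lit 27) (nat_lit 41) (nat_lit 0x2f00005e0000c04b2981234b01792) b54981 (.one (nat_lit 3) (nat_lit 33) (nat_lit 47) (nat_lit 0x2f00005e0000bf70697f30a2fe7da) b54987 (.tok (nat_lit 6) (nat_lit 0x2f00005e0000bf90457f86d2fefd1) (.hit (nat_lit 28) (nat_lit 42) (nat_lit 0x2f00005e0000bf74117f469afe8c4) b54982 (.hit (nat_lit 31) (nat_lit 45) (nat_lit 0x2f00005e0000bf66897f0fb2fe562) b54985 (.tok (nat_lit 55) (nat_lit 0x2f00005e0000bf90457f86d2fefd1) (.hit (nat_lit 29) (nat_lit 43) (nat_lit 0x2f00005e0000bf90457f670afefd1) b54983 (.hit (nat_lit 32) (nat_lit 46) (nat_lit 0x2f00005e0000bf8e217f86d2fef48)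 b54986 (.one (nat_lit 6) (nat_lit 30) (nat_lit 44) (nat_lit 0x2f00005e0000bf62797f103afe45e) b54984 (.nil)))) (.nil)))) (.nil)))) (.one (nat_lit 58) (nat_lit 35) (nat_lit 49) (nat_lit 0x2f00005e0000c03b257fe59b0243c) b54988 (.nil)))))) (.tok (nat_lit 9) (nat_lit 0x2f00005e0000c0dc7182520304ac8) (.hit (nat_lit 0) (nat_lit 0) (nat_lit 0x2f00005e0000c013e980689300de9) b54961 (.tok (nat_lit 9) (nat_lit 0x2f00005e0000c01b8d80b5f300b6e) (.hit (nat_lit 1) (nat_lit 20) (nat_lit 0x2f00005e0000bf52817f3a5afdfc2) b54962 (.hit (nat_lit 4) (nat_lit 28) (nat_lit 0x2f00005e0000bf77cd7f43b2fe700) b54963 (.one (nat_lit 56) (nat_lit 6) (nat_lit 31) (nat_lit 0x2f00005e0000c01b8d80b5f300b6e) b54964 (.nil)))) (.tok (nat_lit 64) (nat_lit 0x2f00005e0000c0d7c182520304ac8) (.hit (nat_lit 7) (nat_lit 50) (nat_lit 0x2f00005e0000c0d7c182520304ac8) b54965 (.hit (nat_lit 8) (nat_lit 51) (nat_lit 0x2f00005e0000c03ce980a8330124c)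 b54966 (.nil))) (.tok (nat_lit 67) (nat_lit 0x2f00005e0000c0dc718230a30496e) (.hit (nat_lit 9) (nat_lit 52) (nat_lit 0x2f00005e0000c09f1d8199c3033d4) b54967 (.one (nat_lit 3) (nat_lit 12) (nat_lit 58) (nat_lit 0x2f00005e0000bfd8358063c300caf) b54970 (.tok (nat_lit 9) (nat_lit 0x2f00005e0000c0dc718230a30496e) (.hit (nat_lit 10) (nat_lit 53) (nat_lit 0x2f00005e0000c0dc718230a30496e) b54968 (.hit (nat_lit 11) (nat_lit 56) (nat_lit 0x2f00005e0000bfea018048430012e) b54969 (.nil))) (.nil)))) (.one (nat_lit 70) (nat_lit 14) (nat_lit 60) (nat_lit 0x2f00005e0000c0cd5581e19b041e8) b54971 (.nil)))))) (.nil))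
noncomputable def r79_5 : Rw Blk := .tok (nat_lit 9) (nat_lit 0x5e0000bc0001808f9b01e90) (.hit (nat_lit 0) (nat_lit 0) (nat_lit 0x5e0000bc00017fbd2b00955) b54989 (.one (nat_lit 26) (nat_lit 12) (nat_lit 72) (nat_lit 0x5e0000bc00017fa87aff6b3) b54990 (.one (nat_lit 29) (nat_lit 13) (nat_lit 73) (nat_lit 0x5e0000bc00017fd8daffdca) b54991 (.one (nat_lit 32) (nat_lit 14) (nat_lit 74) (nat_lit 0x5e0000bc00017fb482ffb82) b54992 (.one (nat_lit 35) (nat_lit 15) (nat_lit 75) (nat_lit 0x5e0000bc00017f07a2fe9c9) b54993 (.one (nat_lit 38) (nat_lit 16) (nat_lit 76) (nat_lit 0x5e0000bc00017f2b32fe8e5) b54994 (.tok (nat_lit 41) (nat_lit 0x5e0000bc00017f0a62ff633) (.hit (nat_lit 17) (nat_lit 77) (nat_lit 0x5e0000bc00017ec5e2ff633) b54995 (.hit (nat_lit 18) (nat_lit 78) (nat_lit 0x5e0000bc00017f0a62ff301) b54996 (.nil))) (.tok (nat_lit 44) (nat_lit 0x5e0000bc00017f56b2ff256) (.hit (nat_lit 19)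 (nat_lit 79) (nat_lit 0x5e0000bc00017eabfafdc24) b54997 (.hit (nat_lit 20) (nat_lit 80) (nat_lit 0x5e0000bc00017f56b2ff256) b54998 (.nil))) (.tok (nat_lit 47) (nat_lit 0x5e0000bc00017f6092ffca0) (.hit (nat_lit 21) (nat_lit 81) (nat_lit 0x5e0000bc00017f6092ffca0) b54999 (.hit (nat_lit 22) (nat_lit 82) (nat_lit 0x5e0000bc00017eb75afe741) b55000 (.nil))) (.one (nat_lit 50) (nat_lit 23) (nat_lit 83) (nat_lit 0x5e0000bc00017feaeaffe15) b55001 (.tok (nat_lit 53) (nat_lit 0x5e0000bc00017f4ae2ffeb3) (.hit (nat_lit 24) (nat_lit 84) (nat_lit 0x5e0000bc00017f3a82ffeb3) b55002 (.hit (nat_lit 25) (nat_lit 85) (nat_lit 0x5e0000bc00017f4ae2ff123) b55003 (.nil))) (.tok (nat_lit 56) (nat_lit 0x5e0000bc0001808f9b01e90) (.hit (nat_lit 26) (nat_lit 86) (nat_lit 0x5e0000bc0001808f9b01e90) b55004 (.one (nat_lit 3) (nat_lit 30) (nat_lit 90) (nat_lit 0x5e0000bc00017f6932ff3cb) b55008 (.tok (nat_lit 6)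 (nat_lit 0x5e0000bc00017f55faff164) (.hit (nat_lit 28) (nat_lit 88) (nat_lit 0x5e0000bc00017f55faff164) b55006 (.hit (nat_lit 29) (nat_lit 89) (nat_lit 0x5e0000bc00017efaeafe602) b55007 (.nil))) (.one (nat_lit 9) (nat_lit 27) (nat_lit 87) (nat_lit 0x5e0000bc00017f429afeef8) b55005 (.nil))))) (.one (nat_lit 59) (nat_lit 31) (nat_lit 91) (nat_lit 0x5e0000bc00017f5d32ff164) b55009 (.nil)))))))))))))) (.tok (nat_lit 64) (nat_lit 0x5e0000bc000181994b039c1) (.hit (nat_lit 45) (nat_lit 0) (nat_lit 0x5e0000bc000181994b039c1) b55021 (.tok (nat_lit 6) (nat_lit 0x5e0000bc000180055301028) (.hit (nat_lit 46) (nat_lit 7) (nat_lit 0x5e0000bc00017f858aff576) b55022 (.hit (nat_lit 47) (nat_lit 15) (nat_lit 0x5e0000bc000180055301028) b55023 (.nil))) (.tok (nat_lit 9) (nat_lit 0x5e0000bc00018148c302f34) (.hit (nat_lit 48) (nat_lit 20) (nat_lit 0x5e0000bc00018148c302f34) b55024 (.hit (nat_lit 49)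 (nat_lit 28) (nat_lit 0x5e0000bc000180f9d302bc8) b55025 (.nil))) (.nil)))) (.tok (nat_lit 67) (nat_lit 0x5e0000bc000180828b01516) (.hit (nat_lit 40) (nat_lit 0) (nat_lit 0x5e0000bc000180607b00c7a) b55017 (.one (nat_lit 3) (nat_lit 41) (nat_lit 1) (nat_lit 0x5e0000bc00017fe7d3001bf) b55018 (.tok (nat_lit 9) (nat_lit 0x5e0000bc000180828b01516) (.hit (nat_lit 43) (nat_lit 20) (nat_lit 0x5e0000bc000180828b01516) b55019 (.hit (nat_lit 44) (nat_lit 28) (nat_lit 0x5e0000bc00017f9bcaff83e) b55020 (.nil))) (.nil)))) (.tok (nat_lit 70) (nat_lit 0x5e0000bc00018120b3028db) (.hit (nat_lit 32) (nat_lit 0) (nat_lit 0x5e0000bc000180a2c3028cd) b55010 (.one (nat_lit 3) (nat_lit 33) (nat_lit 1) (nat_lit 0x5e0000bc0001809183016f5) b55011 (.tok (nat_lit 6) (nat_lit 0x5e0000bc00018120b3028db) (.hit (nat_lit 35) (nat_lit 7) (nat_lit 0x5e0000bc000180b84301bcd) b55012 (.hit (nat_lit 38) (nat_lit 15) (nat_lit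 0x5e0000bc00018075d30137f) b55015 (.tok (nat_lit 55) (nat_lit 0x5e0000bc00018120b3028db) (.hit (nat_lit 36) (nat_lit 8) (nat_lit 0x5e0000bc000180ed6302271) b55013 (.hit (nat_lit 39) (nat_lit 16) (nat_lit 0x5e0000bc00018114a302759) b55016 (.one (nat_lit 6) (nat_lit 37) (nat_lit 9) (nat_lit 0x5e0000bc00018120b3028db) b55014 (.nil)))) (.nil)))) (.nil)))) (.nil))))
noncomputable def r79_6 : Rw Blk := .tok (nat_lit 3) (nat_lit 0x5e0000bc000181cb9b032c9) (.hit (nat_lit 0) (nat_lit 0) (nat_lit 0x5e0000bc000181cb9b032c9) b55026 (.tok (nat_lit 6) (nat_lit 0x5e0000bc000181204b01d2c) (.hit (nat_lit 1) (nat_lit 7) (nat_lit 0x5e0000bc00017f9ddafecde) b55027 (.hit (nat_lit 6) (nat_lit 15) (nat_lit 0x5e0000bc00017fc9faff262) b55032 (.tok (nat_lit 14) (nat_lit 0x5e0000bc00018104bb019ba) (.hit (nat_lit 2) (nat_lit 11) (nat_lit 0x5e0000bc0001807b8300893) b55028 (.hit (nat_lit 7) (nat_lit 17) (nat_lit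 0x5e0000bc00018104bb019ba) b55033 (.one (nat_lit 9) (nat_lit 3) (nat_lit 12) (nat_lit 0x5e0000bc000180685b0062e) b55029 (.nil)))) (.tok (nat_lit 56) (nat_lit 0x5e0000bc000181204b01d2c) (.hit (nat_lit 4) (nat_lit 13) (nat_lit 0x5e0000bc00018031bafff5a) b55030 (.hit (nat_lit 8) (nat_lit 19) (nat_lit 0x5e0000bc000180c5e3011df) b55034 (.one (nat_lit 6) (nat_lit 5) (nat_lit 14) (nat_lit 0x5e0000bc000181204b01d2c) b55031 (.nil)))) (.nil))))) (.nil))) (.tok (nat_lit 9) (nat_lit 0x5e0000bc000182ed2306714) (.hit (nat_lit 20) (nat_lit 0) (nat_lit 0x5e0000bc00018259ab04865) b55035 (.tok (nat_lit 9) (nat_lit 0x5e0000bc000182ed2306714) (.hit (nat_lit 21) (nat_lit 20) (nat_lit 0x5e0000bc0001819a6b02f56) b55036 (.hit (nat_lit 24) (nat_lit 28) (nat_lit 0x5e0000bc0001815ba3025f6) b55039 (.tok (nat_lit 14) (nat_lit 0x5e0000bc000182ed2306714) (.hit (nat_lit 22) (nat_lit 24) (nat_lit 0x5e0000bc0001824df304bcc)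 b55037 (.hit (nat_lit 25) (nat_lit 30) (nat_lit 0x5e0000bc000181b8d303c31) b55040 (.one (nat_lit 6) (nat_lit 23) (nat_lit 25) (nat_lit 0x5e0000bc000182ed2306714) b55038 (.nil)))) (.nil)))) (.nil))) (.nil))
noncomputable def r79_7 : Rw Blk := .tok (nat_lit 9) (nat_lit 0x5e0000bc00017f9c7b00096) (.hit (nat_lit 0) (nat_lit 0) (nat_lit 0x5e0000bc00017e5a52fe7cf) b55041 (.tok (nat_lit 14) (nat_lit 0x5e0000bc00017f9c7b00096) (.hit (nat_lit 21) (nat_lit 61) (nat_lit 0x5e0000bc00017f2a7afec61) b55042 (.one (nat_lit 3) (nat_lit 22) (nat_lit 62) (nat_lit 0x5e0000bc00017ebf2afdf43) b55043 (.tok (nat_lit 6) (nat_lit 0x5e0000bc00017f9c7b00096) (.hit (nat_lit 25) (nat_lit 65) (nat_lit 0x5e0000bc00017f9c7b00096) b55046 (.hit (nat_lit 26) (nat_lit 66) (nat_lit 0x5e0000bc00017ee6d2fe3ef) b55047 (.nil))) (.tok (nat_lit 9) (nat_lit 0x5e0000bc00017ec2dafe642) (.hit (nat_lit 23) (nat_lit 63) (nat_lit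 0x5e0000bc00017e2c9afe153) b55044 (.hit (nat_lit 24) (nat_lit 64) (nat_lit 0x5e0000bc00017ec2dafe642) b55045 (.nil))) (.nil))))) (.one (nat_lit 17) (nat_lit 27) (nat_lit 67) (nat_lit 0x5e0000bc00017e6feafd513) b55048 (.tok (nat_lit 20) (nat_lit 0x5e0000bc00017e6e9afd9d4) (.hit (nat_lit 28) (nat_lit 68) (nat_lit 0x5e0000bc00017df0a2fd9d4) b55049 (.hit (nat_lit 29) (nat_lit 69) (nat_lit 0x5e0000bc00017e6e9afd50d) b55050 (.nil))) (.tok (nat_lit 23) (nat_lit 0x5e0000bc00017eb80afee79) (.hit (nat_lit 30) (nat_lit 70) (nat_lit 0x5e0000bc00017eb80afee79) b55051 (.hit (nat_lit 31) (nat_lit 71) (nat_lit 0x5e0000bc00017e567afd1e2) b55052 (.nil))) (.one (nat_lit 26) (nat_lit 32) (nat_lit 72) (nat_lit 0x5e0000bc00017e334afcd91) b55053 (.one (nat_lit 29) (nat_lit 33) (nat_lit 73) (nat_lit 0x5e0000bc00017e25f2fcde0) b55054 (.one (nat_lit 32) (nat_lit 34) (nat_lit 74) (nat_lit 0x5e0000bc00017e61dafd355)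 b55055 (.one (nat_lit 35) (nat_lit 35) (nat_lit 75) (nat_lit 0x5e0000bc00017de5b2fc3f2) b55056 (.one (nat_lit 50) (nat_lit 43) (nat_lit 83) (nat_lit 0x5e0000bc00017e422afd01c) b55057 (.tok (nat_lit 53) (nat_lit 0x5e0000bc00017e28f2fd68c) (.hit (nat_lit 44) (nat_lit 84) (nat_lit 0x5e0000bc00017e024afd68c) b55058 (.hit (nat_lit 45) (nat_lit 85) (nat_lit 0x5e0000bc00017e28f2fd15f) b55059 (.nil))) (.tok (nat_lit 56) (nat_lit 0x5e0000bc00017e6132ff0df) (.hit (nat_lit 46) (nat_lit 86) (nat_lit 0x5e0000bc00017e6132ff0df) b55060 (.one (nat_lit 3) (nat_lit 50) (nat_lit 90) (nat_lit 0x5e0000bc00017de1fafd7ff) b55064 (.tok (nat_lit 6) (nat_lit 0x5e0000bc00017dfb6afdb2d) (.hit (nat_lit 48) (nat_lit 88) (nat_lit 0x5e0000bc00017dfb6afdb2d) b55062 (.hit (nat_lit 49) (nat_lit 89) (nat_lit 0x5e0000bc00017de8dafd8db) b55063 (.nil))) (.one (nat_lit 9) (nat_lit 47) (nat_lit 87) (nat_lit 0x5e0000bc00017dd6f2fd69e)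 b55061 (.nil))))) (.one (nat_lit 59) (nat_lit 51) (nat_lit 91) (nat_lit 0x5e0000bc00017e4272fcfa5) b55065 (.one (nat_lit 62) (nat_lit 52) (nat_lit 92) (nat_lit 0x5e0000bc00017e9e3afdadb) b55066 (.tok (nat_lit 65) (nat_lit 0x5e0000bc00017ead82fe90f) (.hit (nat_lit 53) (nat_lit 93) (nat_lit 0x5e0000bc00017ead82fe90f) b55067 (.hit (nat_lit 54) (nat_lit 94) (nat_lit 0x5e0000bc00017e89e2fd8c6) b55068 (.nil))) (.tok (nat_lit 68) (nat_lit 0x5e0000bc00017f5e22ff7c1) (.hit (nat_lit 55) (nat_lit 95) (nat_lit 0x5e0000bc00017f1b72ff3fd) b55069 (.one (nat_lit 3) (nat_lit 59) (nat_lit 99) (nat_lit 0x5e0000bc00017ec70afe26b) b55073 (.one (nat_lit 6) (nat_lit 56) (nat_lit 96) (nat_lit 0x5e0000bc00017f430aff7c1) b55070 (.tok (nat_lit 9) (nat_lit 0x5e0000bc00017f5e22ff6e9) (.hit (nat_lit 57) (nat_lit 97) (nat_lit 0x5e0000bc00017f5e22ff6e9) b55071 (.hit (nat_lit 58) (nat_lit 98) (nat_lit 0x5e0000bc00017ebe8afdf44)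 b55072 (.nil))) (.nil))))) (.one (nat_lit 71) (nat_lit 60) (nat_lit 100) (nat_lit 0x5e0000bc00017e6152fd33e) b55074 (.nil)))))))))))))))))) (.tok (nat_lit 64) (nat_lit 0x5e0000bc00017f56ab00769) (.hit (nat_lit 176) (nat_lit 0) (nat_lit 0x5e0000bc00017f475b00630) b55075 (.tok (nat_lit 6) (nat_lit 0x5e0000bc00017f177affe5e) (.hit (nat_lit 177) (nat_lit 7) (nat_lit 0x5e0000bc00017ea582fee68) b55076 (.hit (nat_lit 178) (nat_lit 15) (nat_lit 0x5e0000bc00017f177affe5e) b55077 (.nil))) (.tok (nat_lit 9) (nat_lit 0x5e0000bc00017f56ab00769) (.hit (nat_lit 179) (nat_lit 20) (nat_lit 0x5e0000bc00017f56ab00769) b55078 (.hit (nat_lit 180) (nat_lit 28) (nat_lit 0x5e0000bc00017ed5a2ff511) b55079 (.nil))) (.nil)))) (.tok (nat_lit 67) (nat_lit 0x5e0000bc00017f708afffb4) (.hit (nat_lit 201) (nat_lit 0) (nat_lit 0x5e0000bc00017f708afffb4) b55088 (.tok (nat_lit 3) (nat_lit 0x5e0000bc00017ed83aff4bf)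 (.hit (nat_lit 202) (nat_lit 1) (nat_lit 0x5e0000bc00017e6e12fe77a) b55089 (.one (nat_lit 55) (nat_lit 203) (nat_lit 3) (nat_lit 0x5e0000bc00017ed83aff4bf) b55090 (.nil))) (.tok (nat_lit 9) (nat_lit 0x5e0000bc00017f21baffdef) (.hit (nat_lit 204) (nat_lit 20) (nat_lit 0x5e0000bc00017e550afe459) b55091 (.hit (nat_lit 207) (nat_lit 28) (nat_lit 0x5e0000bc00017e6eaafe78d) b55094 (.tok (nat_lit 67) (nat_lit 0x5e0000bc00017f21baffdef) (.hit (nat_lit 205) (nat_lit 21) (nat_lit 0x5e0000bc00017ed102ff3d8) b55092 (.hit (nat_lit 208) (nat_lit 29) (nat_lit 0x5e0000bc00017ee65aff683) b55095 (.one (nat_lit 9) (nat_lit 206) (nat_lit 22) (nat_lit 0x5e0000bc00017f21baffdef) b55093 (.nil)))) (.nil)))) (.nil)))) (.tok (nat_lit 70) (nat_lit 0x5e0000bc0001800003019b8) (.hit (nat_lit 187) (nat_lit 0) (nat_lit 0x5e0000bc00017f084aff132) b55080 (.tok (nat_lit 3) (nat_lit 0x5e0000bc00017f3bab0012d) (.hit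 (nat_lit 188) (nat_lit 1) (nat_lit 0x5e0000bc00017e7772fe8a6) b55081 (.one (nat_lit 67) (nat_lit 189) (nat_lit 2) (nat_lit 0x5e0000bc00017f3bab0012d) b55082 (.nil))) (.tok (nat_lit 6) (nat_lit 0x5e0000bc0001800003019b8) (.hit (nat_lit 190) (nat_lit 7) (nat_lit 0x5e0000bc00017eb25aff003) b55083 (.hit (nat_lit 193) (nat_lit 15) (nat_lit 0x5e0000bc00017e6812fe6ba) b55086 (.tok (nat_lit 55) (nat_lit 0x5e0000bc0001800003019b8) (.hit (nat_lit 191) (nat_lit 8) (nat_lit 0x5e0000bc00017f1782ffca8) b55084 (.hit (nat_lit 194) (nat_lit 16) (nat_lit 0x5e0000bc00017f360b00079) b55087 (.one (nat_lit 6) (nat_lit 192) (nat_lit 9) (nat_lit 0x5e0000bc0001800003019b8) b55085 (.nil)))) (.nil)))) (.nil)))) (.nil))))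
noncomputable def r79_8 : Rw Blk := .tok (nat_lit 3) (nat_lit 0x5e0000bc000180cdbb01855) (.hit (nat_lit 15) (nat_lit 0) (nat_lit 0x5e0000bc00017f31f2ff177) b55107 (.tok (nat_lit 6) (nat_lit 0x5e0000bc00017ed702fe1b1) (.hit (nat_lit 16) (nat_lit 7) (nat_lit 0x5e0000bc00017e285afcbdc) b55108 (.hit (nat_lit 21) (nat_lit 15) (nat_lit 0x5e0000bc00017d2292fab23) b55111 (.tok (nat_lit 56) (nat_lit 0x5e0000bc00017ed702fe1b1) (.hit (nat_lit 19) (nat_lit 13) (nat_lit 0x5e0000bc00017e8592fd783) b55109 (.hit (nat_lit 24) (nat_lit 19) (nat_lit 0x5e0000bc00017e465afcf9c) b55113 (.one (nat_lit 6) (nat_lit 20) (nat_lit 14) (nat_lit 0x5e0000bc00017ed702fe1b1) b55110 (.nil)))) (.one (nat_lit 68) (nat_lit 23) (nat_lit 18) (nat_lit 0x5e0000bc00017e6a52fd41b) b55112 (.nil))))) (.tok (nat_lit 52) (nat_lit 0x5e0000bc00017eb962fddfd) (.hit (nat_lit 25) (nat_lit 39) (nat_lit 0x5e0000bc00017eb962fddfd)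 b55114 (.hit (nat_lit 26) (nat_lit 40) (nat_lit 0x5e0000bc00017e962afd996) b55115 (.nil))) (.tok (nat_lit 55) (nat_lit 0x5e0000bc000180cdbb01855) (.hit (nat_lit 27) (nat_lit 41) (nat_lit 0x5e0000bc000180cdbb01855) b55116 (.one (nat_lit 3) (nat_lit 33) (nat_lit 47) (nat_lit 0x5e0000bc00017ef28afe522) b55122 (.tok (nat_lit 6) (nat_lit 0x5e0000bc00017f2662feb9d) (.hit (nat_lit 28) (nat_lit 42) (nat_lit 0x5e0000bc00017ea50afdb72) b55117 (.hit (nat_lit 31) (nat_lit 45) (nat_lit 0x5e0000bc00017e907afd8e0) b55120 (.tok (nat_lit 55) (nat_lit 0x5e0000bc00017f2662feb9d) (.hit (nat_lit 29) (nat_lit 43) (nat_lit 0x5e0000bc00017f2662feb9d) b55118 (.hit (nat_lit 32) (nat_lit 46) (nat_lit 0x5e0000bc00017ef0aafe4e6) b55121 (.one (nat_lit 6) (nat_lit 30) (nat_lit 44) (nat_lit 0x5e0000bc00017eb192fdd03) b55119 (.nil)))) (.nil)))) (.nil)))) (.one (nat_lit 58) (nat_lit 35) (nat_lit 49) (nat_lit 0x5e0000bc00017f1512fe973)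 b55123 (.nil)))))) (.tok (nat_lit 9) (nat_lit 0x5e0000bc0001816bfb03333) (.hit (nat_lit 0) (nat_lit 0) (nat_lit 0x5e0000bc00017f8d02ff72f) b55096 (.tok (nat_lit 9) (nat_lit 0x5e0000bc00017f6a6afef34) (.hit (nat_lit 1) (nat_lit 20) (nat_lit 0x5e0000bc00017f394afed4c) b55097 (.hit (nat_lit 4) (nat_lit 28) (nat_lit 0x5e0000bc00017e7a42fd203) b55098 (.one (nat_lit 56) (nat_lit 6) (nat_lit 31) (nat_lit 0x5e0000bc00017f6a6afef34) b55099 (.nil)))) (.tok (nat_lit 64) (nat_lit 0x5e0000bc000180277300850) (.hit (nat_lit 7) (nat_lit 50) (nat_lit 0x5e0000bc000180277300850) b55100 (.hit (nat_lit 8) (nat_lit 51) (nat_lit 0x5e0000bc00017f7baaff1dd) b55101 (.nil))) (.tok (nat_lit 67) (nat_lit 0x5e0000bc0001816bfb03333) (.hit (nat_lit 9) (nat_lit 52) (nat_lit 0x5e0000bc0001816bfb03333) b55102 (.one (nat_lit 3) (nat_lit 12) (nat_lit 58) (nat_lit 0x5e0000bc00017ff01afff45) b55105 (.tok (nat_lit 9)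 (nat_lit 0x5e0000bc0001804cc300d08) (.hit (nat_lit 10) (nat_lit 53) (nat_lit 0x5e0000bc0001804cc300d08) b55103 (.hit (nat_lit 11) (nat_lit 56) (nat_lit 0x5e0000bc00017fd8faffd8d) b55104 (.nil))) (.nil)))) (.one (nat_lit 70) (nat_lit 14) (nat_lit 60) (nat_lit 0x5e0000bc00017f30b2ff463) b55106 (.nil)))))) (.nil))
noncomputable def r79_9 : Rw Blk := .tok (nat_lit 3) (nat_lit 0x2ff5ff5fcb76bfd2517fb2bafeff95fe806bfb6897fb81aff3385ff7fcbff0017f8902ff5d5) (.hit (nat_lit 0) (nat_lit 0) (nat_lit 0x2fd1555f9414bf48557f163afdfd75fb67ebf6df57f0afafe5dc5fc100bfb0c17eeb42fe0f6) b55124 (.tok (nat_lit 9) (nat_lit 0x2fd23b5f8e36bfb3897f45e2fca115fb5f4bf32fd7ecff2fd1d25fbaa4bf83b17f6462fed36) (.hit (nat_lit 10) (nat_lit 20) (nat_lit 0x2fbde25f6584bf5cd17ea31afb5b85f8d42bee1997e2d2afbd795f91f2bf324d7efc22fdeb1) b55125 (.hit (nat_lit 15) (nat_lit 28) (nat_lit 0x2fbb735f60a6bf2ef97e8fa2fb3495f8864bed7dd7e19b2fbb0a5f8d14bf79f17ee41afde3d)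 b55130 (.tok (nat_lit 14) (nat_lit 0x2fd0de5f8b7cbfa4817f3afafc8b45fb33abf2d897ec50afd0755fb7eabf81757f5872feb31) (.hit (nat_lit 11) (nat_lit 24) (nat_lit 0x2fc47e5f72bcbf7d0d7ed7fafbc545f9a7abefc097e620afc4155f9f2abf4cbd7ee9a2fdf66) b55126 (.hit (nat_lit 16) (nat_lit 30) (nat_lit 0x2fc3815f70c2bf53c97ed012fbb575f9880bef8157e5a22fc3185f9d30bf7f4d7f0d7afe08b) b55131 (.one (nat_lit 6) (nat_lit 12) (nat_lit 25) (nat_lit 0x2fd0de5f8b7cbfa4817f3afafc8b45fb33abf2d897ec50afd0755fb7eabf81757f5872feb31) b55127 (.nil)))) (.tok (nat_lit 68) (nat_lit 0x2fd23b5f8e36bfb3897f45e2fca115fb5f4bf32fd7ecff2fd1d25fbaa4bf83b17f6462fed36) (.hit (nat_lit 13) (nat_lit 26) (nat_lit 0x2fca135f7de6bf86117f04a2fc1e95fa5a4bf125d7e8eb2fc9aa5faa54bf7bf17f386afe869) b55128 (.hit (nat_lit 18) (nat_lit 32) (nat_lit 0x2fc5f75f75aebf5a217ee3c2fbdcd5f9d6cbf01ed7e6dd2fc58e5fa21cbf72f97ef782fdf15) b55132 (.one (nat_lit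 9) (nat_lit 14) (nat_lit 27) (nat_lit 0x2fd23b5f8e36bfb3897f45e2fca115fb5f4bf32fd7ecff2fd1d25fbaa4bf83b17f6462fed36) b55129 (.nil)))) (.nil))))) (.tok (nat_lit 64) (nat_lit 0x2fc7715f78a2bf75657eef92fbf475fa060bf07d57e79a2fc7085fa510bfaa4d7efb3afe49c) (.hit (nat_lit 30) (nat_lit 50) (nat_lit 0x2fc4475f724ebf40697ed642fbc1d5f9a0cbefb2d7e6052fc3de5f9ebcbfaa4d7e5ee2fe498) b55133 (.hit (nat_lit 31) (nat_lit 51) (nat_lit 0x2fc7715f78a2bf75657eef92fbf475fa060bf07d57e79a2fc7085fa510bf98197efb3afe49c) b55134 (.nil))) (.tok (nat_lit 67) (nat_lit 0x2ff5ff5fcb76bfd2517fb2bafeff95fe806bfb6897fb81aff3385ff7fcbff0017f8902ff524) (.hit (nat_lit 32) (nat_lit 52) (nat_lit 0x2ff5ff5fc550bfcaf17fb2bafeff95fe806bfb6897fb81aff3385ff7fcbff0017f8902ff524) b55135 (.tok (nat_lit 3) (nat_lit 0x2fd8105f99e0bfd2517f748afcfe65fc19ebf4a517efe9afd7a75fc64ebfac017f4702fee29) (.hit (nat_lit 38) (nat_lit 58) (nat_lit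 0x2fd0695f8a92bfa0817f3752fc83f5fb250bf2bb57ec162fd0005fb700bf8dfd7f4702fe908) b55141 (.one (nat_lit 55) (nat_lit 39) (nat_lit 59) (nat_lit 0x2fd8105f99e0bfd2517f748afcfe65fc19ebf4a517efe9afd7a75fc64ebfac017f4192fee29) b55142 (.nil))) (.tok (nat_lit 9) (nat_lit 0x2fe94b5fcb76bfb4a97fac92fd6e75fcfa0bf66557f36a2fdea85fd450bfb7097f3c5afea84) (.hit (nat_lit 33) (nat_lit 53) (nat_lit 0x2fdb265fab98bf93e57f6b42fcd665fbc9ebf40517eea9afd5275fc14ebf97a17ee92afea5d) b55136 (.hit (nat_lit 36) (nat_lit 56) (nat_lit 0x2fd0c25f8b44bf8fb57f3a1afc8985fb302bf2d197ec42afd0595fb7b2bf7dcd7f3c5afe5b3) b55139 (.tok (nat_lit 67) (nat_lit 0x2fe94b5fcb76bfb4a97fac92fd6e75fcfa0bf66557f36a2fdea85fd450bfb7097f39b2fea84) (.hit (nat_lit 34) (nat_lit 54) (nat_lit 0x2fe94b5fcb76bf97bd7fac92fd6e75fcfa0bf66557f36a2fdea85fd450bfb7097f3532fe8c2) b55137 (.hit (nat_lit 37) (nat_lit 57) (nat_lit 0x2fdb4c5fa058bfb4a97f8e6afd3225fc816bf57417f187afdae35fccc6bfa7f57f39b2fea84)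 b55140 (.one (nat_lit 9) (nat_lit 35) (nat_lit 55) (nat_lit 0x2fd9b55f9d2abf94217f81b2fd18b5fc4e8bf50e57f0bc2fd94c5fc998bfa1997f0a52fe436) b55138 (.nil)))) (.nil)))) (.nil)))) (.one (nat_lit 70) (nat_lit 40) (nat_lit 60) (nat_lit 0x2fcfa15f8902bf90557f3112fc7775fb0c0bf28957ebb22fcf385fb570bfe2717f5c6aff5d5) b55143 (.nil)))))) (.tok (nat_lit 6) (nat_lit 0x300000600000c0000180000300000600000c0000180000300000600000c0000180000300000) (.hit (nat_lit 81) (nat_lit 0) (nat_lit 0x2fe59a5fc938bf77cd7fb0cafe8ce5fed74bf9e817f80daff4405fd978bfbb317f5a0afe740) b55144 (.tok (nat_lit 6) (nat_lit 0x300000600000c0000180000300000600000c0000180000300000600000c0000180000300000) (.hit (nat_lit 87) (nat_lit 7) (nat_lit 0x2fdbd25fb146bf580d7efcaafde125fc642bf82457ef882fe1105fbf52bf61f17eecb2fdebc) b55145 (.hit (nat_lit 95) (nat_lit 15) (nat_lit 0x2fce365f7c46bf4c357e527afd0c15fb35ebf44217eb86afd9c75fa7d2bf94d17edccafdcc6)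 b55150 (.tok (nat_lit 14) (nat_lit 0x300000600000c00001800002ffe8a600000c0000180000300000600000c0000180000300000) (.hit (nat_lit 91) (nat_lit 11) (nat_lit 0x2ffcac5ff768bffab97fd302ffe8a600000bfff8d7fe322ffec75ff66cbfe7757f9cb300000) b55146 (.hit (nat_lit 97) (nat_lit 17) (nat_lit 0x2feab25fb392bfcc657f358afeabe5feb5ebfa6fd7f7b42ff1915fdcacc000017f3a7afead6) b55151 (.one (nat_lit 9) (nat_lit 92) (nat_lit 12) (nat_lit 0x300000600000c00001800002ffe5b5ff594c0000180000300000600000bfe4d9800002fff52) b55147 (.nil)))) (.tok (nat_lit 56) (nat_lit 0x2ff5625fedcabfc0e57fa0cb000005fedf4bffc717fe312ffd185ffaacbfdd197f86a2ffc8d) (.hit (nat_lit 93) (nat_lit 13) (nat_lit 0x2ff5625fdeecbfbe2d7fa0caff4895fedf4bfd2717fd03affab95fee82bfdd197f5c52ff0c6) b55148 (.hit (nat_lit 99) (nat_lit 19) (nat_lit 0x2fe31d5fa61cbf72c57ef8e2fe1905fdb1ebf83697f3332fe7465fcadcbfd5757f0c12fe4d2) b55153 (.one (nat_lit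 6) (nat_lit 94) (nat_lit 14) (nat_lit 0x2feb755fedcabfc0e57f89f3000005fdc68bffc717fe312ffd185ffaacbfbcc57f86a2ffc8d) b55149 (.nil)))) (.one (nat_lit 68) (nat_lit 98) (nat_lit 18) (nat_lit 0x2fe2cd5fa71abf92557ef90afd5695fa7d0bf57057f0712fe30e5fc0f0bf7e917ebb12fd7f6) b55152 (.nil)))))) (.nil))) (.nil))
noncomputable def r79_10 : Rw Blk := .tok (nat_lit 9) (nat_lit 0x5e0000bc00017f9b92ffa18) (.hit (nat_lit 0) (nat_lit 0) (nat_lit 0x5e0000bc00017ee012fef08) b55154 (.tok (nat_lit 14) (nat_lit 0x5e0000bc00017f3e4affa18) (.hit (nat_lit 11) (nat_lit 61) (nat_lit 0x5e0000bc00017f3e4afeaca) b55155 (.one (nat_lit 3) (nat_lit 12) (nat_lit 62) (nat_lit 0x5e0000bc00017f31a2fe084) b55156 (.tok (nat_lit 6) (nat_lit 0x5e0000bc00017f2252ffa18) (.hit (nat_lit 15) (nat_lit 65) (nat_lit 0x5e0000bc00017f2252ffa18) b55159 (.hit (nat_lit 16) (nat_lit 66) (nat_lit 0x5e0000bc00017ef67afe394) b55160 (.nil)))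 (.tok (nat_lit 9) (nat_lit 0x5e0000bc00017eeb42fe25e) (.hit (nat_lit 13) (nat_lit 63) (nat_lit 0x5e0000bc00017e9972fd5a8) b55157 (.hit (nat_lit 14) (nat_lit 64) (nat_lit 0x5e0000bc00017eeb42fe25e) b55158 (.nil))) (.nil))))) (.one (nat_lit 17) (nat_lit 17) (nat_lit 67) (nat_lit 0x5e0000bc00017ee172fd743) b55161 (.tok (nat_lit 20) (nat_lit 0x5e0000bc00017ed752fd5ff) (.hit (nat_lit 18) (nat_lit 68) (nat_lit 0x5e0000bc00017df9aafc1af) b55162 (.hit (nat_lit 19) (nat_lit 69) (nat_lit 0x5e0000bc00017ed752fd5ff) b55163 (.nil))) (.tok (nat_lit 23) (nat_lit 0x5e0000bc00017f89fafeabb) (.hit (nat_lit 20) (nat_lit 70) (nat_lit 0x5e0000bc00017f89fafeabb) b55164 (.hit (nat_lit 21) (nat_lit 71) (nat_lit 0x5e0000bc00017eeceafd8b2) b55165 (.nil))) (.one (nat_lit 26) (nat_lit 22) (nat_lit 72) (nat_lit 0x5e0000bc00017e5f62fc8c5) b55166 (.one (nat_lit 29) (nat_lit 23) (nat_lit 73) (nat_lit 0x5e0000bc00017e5882fc9a5)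 b55167 (.one (nat_lit 32) (nat_lit 24) (nat_lit 74) (nat_lit 0x5e0000bc00017ea122fd08e) b55168 (.one (nat_lit 35) (nat_lit 25) (nat_lit 75) (nat_lit 0x5e0000bc00017e4caafc50a) b55169 (.one (nat_lit 38) (nat_lit 26) (nat_lit 76) (nat_lit 0x5e0000bc00017ed3aafd59a) b55170 (.tok (nat_lit 41) (nat_lit 0x5e0000bc00017ee8fafd8a6) (.hit (nat_lit 27) (nat_lit 77) (nat_lit 0x5e0000bc00017ea56afc63d) b55171 (.hit (nat_lit 28) (nat_lit 78) (nat_lit 0x5e0000bc00017ee8fafd8a6) b55172 (.nil))) (.tok (nat_lit 44) (nat_lit 0x5e0000bc00017efe42fdae4) (.hit (nat_lit 29) (nat_lit 79) (nat_lit 0x5e0000bc00017d532afacdf) b55173 (.hit (nat_lit 30) (nat_lit 80) (nat_lit 0x5e0000bc00017efe42fdae4) b55174 (.nil))) (.tok (nat_lit 47) (nat_lit 0x5e0000bc00017efb6afd866) (.hit (nat_lit 31) (nat_lit 81) (nat_lit 0x5e0000bc00017efb6afd866) b55175 (.hit (nat_lit 32) (nat_lit 82) (nat_lit 0x5e0000bc00017e9972fce43)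 b55176 (.nil))) (.one (nat_lit 62) (nat_lit 42) (nat_lit 92) (nat_lit 0x5e0000bc00017ed40afd672) b55177 (.tok (nat_lit 65) (nat_lit 0x5e0000bc00017edb3afdacb) (.hit (nat_lit 43) (nat_lit 93) (nat_lit 0x5e0000bc00017e11aafd500) b55178 (.hit (nat_lit 44) (nat_lit 94) (nat_lit 0x5e0000bc00017edb3afdacb) b55179 (.nil))) (.tok (nat_lit 68) (nat_lit 0x5e0000bc00017f9b92ff814) (.hit (nat_lit 45) (nat_lit 95) (nat_lit 0x5e0000bc00017f96daff814) b55180 (.one (nat_lit 3) (nat_lit 49) (nat_lit 99) (nat_lit 0x5e0000bc00017f9b92ff123) b55184 (.one (nat_lit 6) (nat_lit 46) (nat_lit 96) (nat_lit 0x5e0000bc00017f450aff09e) b55181 (.tok (nat_lit 9) (nat_lit 0x5e0000bc00017f57b2ff1dc) (.hit (nat_lit 47) (nat_lit 97) (nat_lit 0x5e0000bc00017f57b2ff1dc) b55182 (.hit (nat_lit 48) (nat_lit 98) (nat_lit 0x5e0000bc00017eff52fda8f) b55183 (.nil))) (.nil))))) (.one (nat_lit 71) (nat_lit 50) (nat_lit 100)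 (nat_lit 0x5e0000bc00017e9ff2fcfe6) b55185 (.nil)))))))))))))))))) (.tok (nat_lit 64) (nat_lit 0x5e0000bc000180000301b9c) (.hit (nat_lit 180) (nat_lit 0) (nat_lit 0x5e0000bc00017fe76301b9c) b55186 (.tok (nat_lit 6) (nat_lit 0x5e0000bc00017f1d4aff4de) (.hit (nat_lit 181) (nat_lit 7) (nat_lit 0x5e0000bc00017e6ec2ff03e) b55187 (.hit (nat_lit 182) (nat_lit 15) (nat_lit 0x5e0000bc00017f1d4aff4de) b55188 (.nil))) (.tok (nat_lit 9) (nat_lit 0x5e0000bc000180000301491) (.hit (nat_lit 183) (nat_lit 20) (nat_lit 0x5e0000bc000180000301491) b55189 (.hit (nat_lit 184) (nat_lit 28) (nat_lit 0x5e0000bc00017f4752ff80e) b55190 (.nil))) (.nil)))) (.tok (nat_lit 67) (nat_lit 0x5e0000bc00017f661b00537) (.hit (nat_lit 205) (nat_lit 0) (nat_lit 0x5e0000bc00017f661aff483) b55196 (.tok (nat_lit 3) (nat_lit 0x5e0000bc00017f168b00537) (.hit (nat_lit 206) (nat_lit 1) (nat_lit 0x5e0000bc00017e3e12fea28) b55197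 (.one (nat_lit 55) (nat_lit 207) (nat_lit 3) (nat_lit 0x5e0000bc00017f168b00537) b55198 (.nil))) (.tok (nat_lit 9) (nat_lit 0x5e0000bc00017ed372ffcd4) (.hit (nat_lit 208) (nat_lit 20) (nat_lit 0x5e0000bc00017e6e2aff02b) b55199 (.hit (nat_lit 211) (nat_lit 28) (nat_lit 0x5e0000bc00017e357afe915) b55202 (.tok (nat_lit 67) (nat_lit 0x5e0000bc00017ed372ffcd4) (.hit (nat_lit 209) (nat_lit 21) (nat_lit 0x5e0000bc00017e8cc2ff3fe) b55200 (.hit (nat_lit 212) (nat_lit 29) (nat_lit 0x5e0000bc00017ed372ffcd4) b55203 (.one (nat_lit 9) (nat_lit 210) (nat_lit 22) (nat_lit 0x5e0000bc00017ebf22ffa4a) b55201 (.nil)))) (.nil)))) (.nil)))) (.tok (nat_lit 70) (nat_lit 0x5e0000bc00017fb04b00bbb) (.hit (nat_lit 191) (nat_lit 0) (nat_lit 0x5e0000bc00017fb04affd6f) b55191 (.tok (nat_lit 3) (nat_lit 0x5e0000bc00017f4aab00bbb) (.hit (nat_lit 192) (nat_lit 1) (nat_lit 0x5e0000bc00017e3ac2fe9be) b55192 (.one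 (nat_lit 67) (nat_lit 193) (nat_lit 2) (nat_lit 0x5e0000bc00017f4aab00bbb) b55193 (.nil))) (.tok (nat_lit 6) (nat_lit 0x5e0000bc00017ea44aff6ef) (.hit (nat_lit 194) (nat_lit 7) (nat_lit 0x5e0000bc00017ea44aff6ef) b55194 (.hit (nat_lit 197) (nat_lit 15) (nat_lit 0x5e0000bc00017e6a32fefac) b55195 (.nil))) (.nil)))) (.nil))))
noncomputable def r79_11 : Rw Blk := .tok (nat_lit 3) (nat_lit 0x5e0000bc00018032a301029) (.hit (nat_lit 15) (nat_lit 0) (nat_lit 0x5e0000bc00017f176aff581) b55219 (.tok (nat_lit 6) (nat_lit 0x5e0000bc00017e4bcafe96b) (.hit (nat_lit 16) (nat_lit 7) (nat_lit 0x5e0000bc00017df052fddfc) b55220 (.hit (nat_lit 21) (nat_lit 15) (nat_lit 0x5e0000bc00017d3242fc63a) b55223 (.tok (nat_lit 14) (nat_lit 0x5e0000bc00017e4bcafe96b) (.hit (nat_lit 17) (nat_lit 11) (nat_lit 0x5e0000bc00017dda92fdb44) b55221 (.hit (nat_lit 22) (nat_lit 17) (nat_lit 0x5e0000bc00017e354afe69b)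 b55224 (.one (nat_lit 9) (nat_lit 18) (nat_lit 12) (nat_lit 0x5e0000bc00017e4bcafe96b) b55222 (.nil)))) (.one (nat_lit 68) (nat_lit 23) (nat_lit 18) (nat_lit 0x5e0000bc00017e279afe4e5) b55225 (.nil))))) (.tok (nat_lit 52) (nat_lit 0x5e0000bc00017e8dd2ff1ac) (.hit (nat_lit 25) (nat_lit 39) (nat_lit 0x5e0000bc00017e24a2fe486) b55226 (.hit (nat_lit 26) (nat_lit 40) (nat_lit 0x5e0000bc00017e8dd2ff1ac) b55227 (.nil))) (.tok (nat_lit 55) (nat_lit 0x5e0000bc00018032a301029) (.hit (nat_lit 27) (nat_lit 41) (nat_lit 0x5e0000bc00018032a301029) b55228 (.tok (nat_lit 3) (nat_lit 0x5e0000bc00017ecf92ff9e4) (.hit (nat_lit 33) (nat_lit 47) (nat_lit 0x5e0000bc00017e8e9aff1c5) b55231 (.one (nat_lit 67) (nat_lit 34) (nat_lit 48) (nat_lit 0x5e0000bc00017ecf92ff9e4) b55232 (.nil))) (.tok (nat_lit 6) (nat_lit 0x5e0000bc00017e6d4afed9b) (.hit (nat_lit 28) (nat_lit 42) (nat_lit 0x5e0000bc00017e5392fea64)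 b55229 (.hit (nat_lit 31) (nat_lit 45) (nat_lit 0x5e0000bc00017e6d4afed9b) b55230 (.nil))) (.nil)))) (.one (nat_lit 58) (nat_lit 35) (nat_lit 49) (nat_lit 0x5e0000bc00017e84faff091) b55233 (.nil)))))) (.tok (nat_lit 9) (nat_lit 0x5e0000bc000180d0830321c) (.hit (nat_lit 0) (nat_lit 0) (nat_lit 0x5e0000bc00017fb60b00800) b55204 (.tok (nat_lit 9) (nat_lit 0x5e0000bc00018000cb0124c) (.hit (nat_lit 1) (nat_lit 20) (nat_lit 0x5e0000bc00017f01aaff1e1) b55205 (.hit (nat_lit 4) (nat_lit 28) (nat_lit 0x5e0000bc00017ea642fe940) b55208 (.tok (nat_lit 14) (nat_lit 0x5e0000bc00018000cb0124c) (.hit (nat_lit 2) (nat_lit 24) (nat_lit 0x5e0000bc00017fd15300e74) b55206 (.hit (nat_lit 5) (nat_lit 30) (nat_lit 0x5e0000bc00017efc42fe8c8) b55209 (.one (nat_lit 6) (nat_lit 3) (nat_lit 25) (nat_lit 0x5e0000bc00018000cb0124c) b55207 (.nil)))) (.one (nat_lit 56) (nat_lit 6) (nat_lit 31) (nat_lit 0x5e0000bc00017fa822ffa14)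 b55210 (.nil))))) (.tok (nat_lit 64) (nat_lit 0x5e0000bc000180490b01a18) (.hit (nat_lit 7) (nat_lit 50) (nat_lit 0x5e0000bc00018004b300608) b55211 (.hit (nat_lit 8) (nat_lit 51) (nat_lit 0x5e0000bc000180490b01a18) b55212 (.nil))) (.tok (nat_lit 67) (nat_lit 0x5e0000bc000180503b02588) (.hit (nat_lit 9) (nat_lit 52) (nat_lit 0x5e0000bc0001801fe301e3b) b55213 (.tok (nat_lit 3) (nat_lit 0x5e0000bc000180503b02588) (.hit (nat_lit 12) (nat_lit 58) (nat_lit 0x5e0000bc00017fe3a30101f) b55216 (.one (nat_lit 55) (nat_lit 13) (nat_lit 59) (nat_lit 0x5e0000bc000180503b02588) b55217 (.nil))) (.tok (nat_lit 9) (nat_lit 0x5e0000bc00017fc04b00608) (.hit (nat_lit 10) (nat_lit 53) (nat_lit 0x5e0000bc00017f55daff61d) b55214 (.hit (nat_lit 11) (nat_lit 56) (nat_lit 0x5e0000bc00017fc04b00608) b55215 (.nil))) (.nil)))) (.one (nat_lit 70) (nat_lit 14) (nat_lit 60) (nat_lit 0x5e0000bc000180d0830321c)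 b55218 (.nil)))))) (.nil))
noncomputable def r79_12 : Rw Blk := .tok (nat_lit 6) (nat_lit 0x2f00005e0000c0000180e61301cce) (.hit (nat_lit 0) (nat_lit 0) (nat_lit 0x2f00005e0000bf62f57f24e2fdd59) b55234 (.tok (nat_lit 14) (nat_lit 0x2f00005e0000bff4f98030e2ff3a5) (.hit (nat_lit 21) (nat_lit 61) (nat_lit 0x2f00005e0000bfc3b97f68eafe665) b55235 (.one (nat_lit 3) (nat_lit 22) (nat_lit 62) (nat_lit 0x2f00005e0000bfd50d7f1d32fe795) b55236 (.tok (nat_lit 6) (nat_lit 0x2f00005e0000bf83217f134afd4fb) (.hit (nat_lit 25) (nat_lit 65) (nat_lit 0x2f00005e0000bef5b97eed62fc824) b55239 (.hit (nat_lit 26) (nat_lit 66) (nat_lit 0x2f00005e0000bf83217f134afd4fb) b55240 (.nil))) (.tok (nat_lit 9) (nat_lit 0x2f00005e0000bff4f98030e2ff3a5) (.hit (nat_lit 23) (nat_lit 63) (nat_lit 0x2f00005e0000bff4f98030e2ff3a5) b55237 (.hit (nat_lit 24) (nat_lit 64) (nat_lit 0x2f00005e0000bf7d1d7eeeaafd5a6) b55238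 (.nil))) (.nil))))) (.one (nat_lit 17) (nat_lit 27) (nat_lit 67) (nat_lit 0x2f00005e0000bfa0097ef0f2fd999) b55241 (.tok (nat_lit 20) (nat_lit 0x2f00005e0000c0000180e61301cce) (.hit (nat_lit 28) (nat_lit 68) (nat_lit 0x2f00005e0000c0000180e61301cce) b55242 (.hit (nat_lit 29) (nat_lit 69) (nat_lit 0x2f00005e0000bf6c117ec852fd1b6) b55243 (.nil))) (.tok (nat_lit 23) (nat_lit 0x2f00005e0000bf60897e677afc685) (.hit (nat_lit 30) (nat_lit 70) (nat_lit 0x2f00005e0000beb2c57e677afb767) b55244 (.hit (nat_lit 31) (nat_lit 71) (nat_lit 0x2f00005e0000bf60897e6712fc685) b55245 (.nil))) (.one (nat_lit 38) (nat_lit 36) (nat_lit 76) (nat_lit 0x2f00005e0000bf5a3d7ea27afcd61) b55246 (.tok (nat_lit 41) (nat_lit 0x2f00005e0000bf4a097e70fafca87) (.hit (nat_lit 37) (nat_lit 77) (nat_lit 0x2f00005e0000bf30cd7dfc72fc15e) b55247 (.hit (nat_lit 38) (nat_lit 78) (nat_lit 0x2f00005e0000bf4a097e70fafca87) b55248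 (.nil))) (.tok (nat_lit 44) (nat_lit 0x2f00005e0000bf87a97ebc7afe572) (.hit (nat_lit 39) (nat_lit 79) (nat_lit 0x2f00005e0000bf87a97ebc7afe572) b55249 (.hit (nat_lit 40) (nat_lit 80) (nat_lit 0x2f00005e0000bf58b17e5db2fcdd9) b55250 (.nil))) (.tok (nat_lit 47) (nat_lit 0x2f00005e0000bfae8d7f038afe06e) (.hit (nat_lit 41) (nat_lit 81) (nat_lit 0x2f00005e0000be95217e2c32faffe) b55251 (.hit (nat_lit 42) (nat_lit 82) (nat_lit 0x2f00005e0000bfae8d7f038afe06e) b55252 (.nil))) (.one (nat_lit 50) (nat_lit 43) (nat_lit 83) (nat_lit 0x2f00005e0000bf7f757ec272fda09) b55253 (.tok (nat_lit 53) (nat_lit 0x2f00005e0000bfab4d7f8382ff0e6) (.hit (nat_lit 44) (nat_lit 84) (nat_lit 0x2f00005e0000bfab4d7f8382ff0e6) b55254 (.hit (nat_lit 45) (nat_lit 85) (nat_lit 0x2f00005e0000bf7b157ee622fda68) b55255 (.nil))) (.tok (nat_lit 56) (nat_lit 0x2f00005e0000bfc01d7ffeeaffc87) (.hit (nat_lit 46) (nat_lit 86)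 (nat_lit 0x2f00005e0000bfb3257fcd6afe8e8) b55256 (.one (nat_lit 3) (nat_lit 50) (nat_lit 90) (nat_lit 0x2f00005e0000bf812d7f6802fdc33) b55260 (.tok (nat_lit 6) (nat_lit 0x2f00005e0000bfb2f17f2eb2fead1) (.hit (nat_lit 48) (nat_lit 88) (nat_lit 0x2f00005e0000bfb2f17f2eb2fead1) b55258 (.hit (nat_lit 49) (nat_lit 89) (nat_lit 0x2f00005e0000bf9b557eef6afe2d4) b55259 (.nil))) (.one (nat_lit 9) (nat_lit 47) (nat_lit 87) (nat_lit 0x2f00005e0000bfc01d7ffeeaffc87) b55257 (.nil))))) (.one (nat_lit 59) (nat_lit 51) (nat_lit 91) (nat_lit 0x2f00005e0000bf68a57e9832fcf54) b55261 (.one (nat_lit 62) (nat_lit 52) (nat_lit 92) (nat_lit 0x2f00005e0000bf43e97e7c92fca53) b55262 (.tok (nat_lit 65) (nat_lit 0x2f00005e0000bf73297e7742fc64c) (.hit (nat_lit 53) (nat_lit 93) (nat_lit 0x2f00005e0000bf73297e7742fc64c) b55263 (.hit (nat_lit 54) (nat_lit 94) (nat_lit 0x2f00005e0000bf1e597e5ad2fbd4d) b55264 (.nil)))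 (.tok (nat_lit 68) (nat_lit 0x2f00005e0000bf3dc57ef40afd337) (.hit (nat_lit 55) (nat_lit 95) (nat_lit 0x2f00005e0000bf3dc57ecbc2fd337) b55265 (.one (nat_lit 3) (nat_lit 59) (nat_lit 99) (nat_lit 0x2f00005e0000beb0d17e6392fb6ea) b55269 (.one (nat_lit 6) (nat_lit 56) (nat_lit 96) (nat_lit 0x2f00005e0000bec15d7e84aafbb0d) b55266 (.tok (nat_lit 9) (nat_lit 0x2f00005e0000bef90d7ef40afc8f9) (.hit (nat_lit 57) (nat_lit 97) (nat_lit 0x2f00005e0000bef90d7ef40afc8f9) b55267 (.hit (nat_lit 58) (nat_lit 98) (nat_lit 0x2f00005e0000bed7c57eb17afc0a7) b55268 (.nil))) (.nil))))) (.one (nat_lit 71) (nat_lit 60) (nat_lit 100) (nat_lit 0x2f00005e0000bf5e857e8792fccf1) b55270 (.nil)))))))))))))))))) (.nil)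
noncomputable def r79_13 : Rw Blk := .tok (nat_lit 6) (nat_lit 0x5e0000bc0001800003003db) (.hit (nat_lit 0) (nat_lit 0) (nat_lit 0x5e0000bc00017ebddafe540) b55271 (.tok (nat_lit 14) (nat_lit 0x5e0000bc0001800003003db) (.hit (nat_lit 21) (nat_lit 61) (nat_lit 0x5e0000bc00017f8e02feb56) b55272 (.one (nat_lit 3) (nat_lit 22) (nat_lit 62) (nat_lit 0x5e0000bc00017f22b2fdd24) b55273 (.tok (nat_lit 6) (nat_lit 0x5e0000bc00017f2662fe5e6) (.hit (nat_lit 25) (nat_lit 65) (nat_lit 0x5e0000bc00017e9022fe2a1) b55276 (.hit (nat_lit 26) (nat_lit 66) (nat_lit 0x5e0000bc00017f2662fe5e6) b55277 (.nil))) (.tok (nat_lit 9) (nat_lit 0x5e0000bc0001800003003db) (.hit (nat_lit 23) (nat_lit 63) (nat_lit 0x5e0000bc0001800003003db) b55274 (.hit (nat_lit 24) (nat_lit 64) (nat_lit 0x5e0000bc00017f4a5afe33a) b55275 (.nil))) (.nil))))) (.one (nat_lit 17) (nat_lit 27) (nat_lit 67) (nat_lit 0x5e0000bc00017ed372fd360)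 b55278 (.tok (nat_lit 20) (nat_lit 0x5e0000bc00017f1b92fec5e) (.hit (nat_lit 28) (nat_lit 68) (nat_lit 0x5e0000bc00017f1b92fec5e) b55279 (.hit (nat_lit 29) (nat_lit 69) (nat_lit 0x5e0000bc00017eba02fcfd6) b55280 (.nil))) (.tok (nat_lit 23) (nat_lit 0x5e0000bc00017ed222fdb22) (.hit (nat_lit 30) (nat_lit 70) (nat_lit 0x5e0000bc00017e542afdb22) b55281 (.hit (nat_lit 31) (nat_lit 71) (nat_lit 0x5e0000bc00017ed222fd2d3) b55282 (.nil))) (.one (nat_lit 38) (nat_lit 36) (nat_lit 76) (nat_lit 0x5e0000bc00017eb12afd12f) b55283 (.tok (nat_lit 41) (nat_lit 0x5e0000bc00017e9e3afc9b8) (.hit (nat_lit 37) (nat_lit 77) (nat_lit 0x5e0000bc00017e9e3afc831) b55284 (.hit (nat_lit 38) (nat_lit 78) (nat_lit 0x5e0000bc00017e85aafc9b8) b55285 (.nil))) (.tok (nat_lit 44) (nat_lit 0x5e0000bc00017eea6afd6c7) (.hit (nat_lit 39) (nat_lit 79) (nat_lit 0x5e0000bc00017eea6afd6c7) b55286 (.hit (nat_lit 40) (nat_lit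 80) (nat_lit 0x5e0000bc00017ea65afcd4f) b55287 (.nil))) (.tok (nat_lit 47) (nat_lit 0x5e0000bc00017edb8afd420) (.hit (nat_lit 41) (nat_lit 81) (nat_lit 0x5e0000bc00017d41cafb8d6) b55288 (.hit (nat_lit 42) (nat_lit 82) (nat_lit 0x5e0000bc00017edb8afd420) b55289 (.nil))) (.one (nat_lit 50) (nat_lit 43) (nat_lit 83) (nat_lit 0x5e0000bc00017f01c2fd8be) b55290 (.tok (nat_lit 53) (nat_lit 0x5e0000bc00017f110afe6e8) (.hit (nat_lit 44) (nat_lit 84) (nat_lit 0x5e0000bc00017f110afe6e8) b55291 (.hit (nat_lit 45) (nat_lit 85) (nat_lit 0x5e0000bc00017eed6afd6a9) b55292 (.nil))) (.tok (nat_lit 56) (nat_lit 0x5e0000bc00017fc1aaff7ca) (.hit (nat_lit 46) (nat_lit 86) (nat_lit 0x5e0000bc00017f7efaff1cd) b55293 (.one (nat_lit 3) (nat_lit 50) (nat_lit 90) (nat_lit 0x5e0000bc00017f2a92fe0b8) b55297 (.tok (nat_lit 6) (nat_lit 0x5e0000bc00017fc1aaff7ca) (.hit (nat_lit 48) (nat_lit 88) (nat_lit 0x5e0000bc00017fc1aaff7ca)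 b55295 (.hit (nat_lit 49) (nat_lit 89) (nat_lit 0x5e0000bc00017f2212fdda2) b55296 (.nil))) (.one (nat_lit 9) (nat_lit 47) (nat_lit 87) (nat_lit 0x5e0000bc00017fa692ff6db) b55294 (.nil))))) (.one (nat_lit 59) (nat_lit 51) (nat_lit 91) (nat_lit 0x5e0000bc00017ec4dafd122) b55298 (.one (nat_lit 62) (nat_lit 52) (nat_lit 92) (nat_lit 0x5e0000bc00017ea5b2fce00) b55299 (.tok (nat_lit 65) (nat_lit 0x5e0000bc00017e8c7afd4f6) (.hit (nat_lit 53) (nat_lit 93) (nat_lit 0x5e0000bc00017e65d2fd4f6) b55300 (.hit (nat_lit 54) (nat_lit 94) (nat_lit 0x5e0000bc00017e8c7afca2e) b55301 (.nil))) (.tok (nat_lit 68) (nat_lit 0x5e0000bc00017ec4bafe89f) (.hit (nat_lit 55) (nat_lit 95) (nat_lit 0x5e0000bc00017ec4bafe89f) b55302 (.one (nat_lit 3) (nat_lit 59) (nat_lit 99) (nat_lit 0x5e0000bc00017e4582fd94d) b55306 (.one (nat_lit 6) (nat_lit 56) (nat_lit 96) (nat_lit 0x5e0000bc00017e3a7afd7ec) b55303 (.tok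 (nat_lit 9) (nat_lit 0x5e0000bc00017e5ef2fdc7b) (.hit (nat_lit 57) (nat_lit 97) (nat_lit 0x5e0000bc00017e5ef2fdc7b) b55304 (.hit (nat_lit 58) (nat_lit 98) (nat_lit 0x5e0000bc00017e4c62fda29) b55305 (.nil))) (.nil))))) (.one (nat_lit 71) (nat_lit 60) (nat_lit 100) (nat_lit 0x5e0000bc00017ea5fafcd8b) b55307 (.nil)))))))))))))))))) (.nil)
noncomputable def r79_14 : Rw Blk := .tok (nat_lit 6) (nat_lit 0xc0000180000300000600000bfd3ad7ff42afff22) (.hit (nat_lit 81) (nat_lit 0) (nat_lit 0xbf92e17f5752fe61a5fcf76bfd3ad7f5012fe9d6) b55308 (.tok (nat_lit 3) (nat_lit 0xbfac2d7f6f82ff6545fcc12bf9db17f4982ff046) (.hit (nat_lit 82) (nat_lit 1) (nat_lit 0xbf2ecd7e22c2fda725f8c4cbf1ab17e4eb2fd30b) b55309 (.one (nat_lit 14) (nat_lit 84) (nat_lit 4) (nat_lit 0xbfa2a57f6f82fef925fc748bf44c17f3682fecd6) b55310 (.one (nat_lit 56) (nat_lit 86) (nat_lit 6) (nat_lit 0xbf7a217efa72fe1465fbb34bf64257f065afed26)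 b55312 (.one (nat_lit 68) (nat_lit 85) (nat_lit 5) (nat_lit 0xbfac2d7f4e8aff6545fcc12bf9db17f4982ff046) b55311 (.nil))))) (.tok (nat_lit 40) (nat_lit 0xbf9c857f410afee565fc652bf6db57f403afe342) (.hit (nat_lit 100) (nat_lit 33) (nat_lit 0xbf9c857f410afee565fc652bf6db57f403afe342) b55313 (.hit (nat_lit 101) (nat_lit 34) (nat_lit 0xbf89dd7edc9afe4345fc550bf54cd7f0a8afde9b) b55314 (.nil))) (.tok (nat_lit 43) (nat_lit 0xbfb31d800002ff00c5fdbc8bfb8317f6d3affaf4) (.hit (nat_lit 102) (nat_lit 35) (nat_lit 0xbfb31d800002ff00c5fdbc8bfb8317f6d3affaf4) b55315 (.hit (nat_lit 103) (nat_lit 36) (nat_lit 0xbf9c897f51dafef0c5fcc1cbf91dd7f1762fe576) b55316 (.nil))) (.tok (nat_lit 46) (nat_lit 0xc000017fd53300000600000bfcfc17ff42afff22) (.hit (nat_lit 104) (nat_lit 37) (nat_lit 0xbf88e97ef252ffb5f5fcd44bfcfc17f877afe10f) b55317 (.hit (nat_lit 105) (nat_lit 38) (nat_lit 0xc000017fd53300000600000bfa80d7ff42afff22)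 b55318 (.nil))) (.nil)))))) (.tok (nat_lit 9) (nat_lit 0xbfac2d7f6f82ff6545fe0c2c0000180000300000) (.hit (nat_lit 157) (nat_lit 0) (nat_lit 0xbf92e17f5752fe61a5fe0c2bfe93580000300000) b55319 (.tok (nat_lit 3) (nat_lit 0xbfac2d7f6f82ff6545fb43cc000017fd11afd48b) (.hit (nat_lit 158) (nat_lit 1) (nat_lit 0xbf2ecd7e22c2fda725f7464bf88ad7eb2d2fb3cb) b55320 (.one (nat_lit 14) (nat_lit 160) (nat_lit 4) (nat_lit 0xbfa2a57f6f82fef925fae52c000017facaafbe4f) b55321 (.one (nat_lit 56) (nat_lit 162) (nat_lit 6) (nat_lit 0xbfac2d7f4e8aff6545fb43cbffd817fd11afd48b) b55323 (.one (nat_lit 68) (nat_lit 161) (nat_lit 5) (nat_lit 0xbf7a217efa72fe1465f9c5abfd2e17f1f3afc628) b55322 (.nil))))) (.nil))) (.nil))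
noncomputable def r79_15 : Rw Blk := .tok (nat_lit 3) (nat_lit 0xbc0001780002fee94) (.hit (nat_lit 61) (nat_lit 0) (nat_lit 0xbc0001780002fdbd3) b55324 (.tok (nat_lit 14) (nat_lit 0xbc0001780002fee94) (.hit (nat_lit 82) (nat_lit 61) (nat_lit 0xbc0001780002fee94) b55325 (.one (nat_lit 3) (nat_lit 83) (nat_lit 62) (nat_lit 0xbc0001780002fc8f2) b55326 (.tok (nat_lit 6) (nat_lit 0xbc0001780002fcd7d) (.hit (nat_lit 86) (nat_lit 65) (nat_lit 0xbc0001780002fcca2) b55329 (.hit (nat_lit 87) (nat_lit 66) (nat_lit 0xbc0001780002fcd7d) b55330 (.nil))) (.tok (nat_lit 9) (nat_lit 0xbc0001780002fec96) (.hit (nat_lit 84) (nat_lit 63) (nat_lit 0xbc0001780002fec96) b55327 (.hit (nat_lit 85) (nat_lit 64) (nat_lit 0xbc0001780002fcbaf) b55328 (.nil))) (.nil))))) (.one (nat_lit 17) (nat_lit 88) (nat_lit 67) (nat_lit 0xbc0001780002fc494) b55331 (.tok (nat_lit 20) (nat_lit 0xbc0001780002fcabd) (.hit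 (nat_lit 89) (nat_lit 68) (nat_lit 0xbc0001780002fcabd) b55332 (.hit (nat_lit 90) (nat_lit 69) (nat_lit 0xbc0001780002fc29d) b55333 (.nil))) (.tok (nat_lit 23) (nat_lit 0xbc0001780002fd0e2) (.hit (nat_lit 91) (nat_lit 70) (nat_lit 0xbc0001780002fd0e2) b55334 (.hit (nat_lit 92) (nat_lit 71) (nat_lit 0xbc0001780002fc2bd) b55335 (.nil))) (.one (nat_lit 26) (nat_lit 93) (nat_lit 72) (nat_lit 0xbc0001780002fb022) b55336 (.one (nat_lit 29) (nat_lit 94) (nat_lit 73) (nat_lit 0xbc0001780002fb2ad) b55337 (.one (nat_lit 32) (nat_lit 95) (nat_lit 74) (nat_lit 0xbc0001780002fbbdc) b55338 (.one (nat_lit 35) (nat_lit 96) (nat_lit 75) (nat_lit 0xbc0001780002fb6ce) b55339 (.one (nat_lit 50) (nat_lit 104) (nat_lit 83) (nat_lit 0xbc0001780002fc236) b55340 (.tok (nat_lit 53) (nat_lit 0xbc0001780002fc581) (.hit (nat_lit 105) (nat_lit 84) (nat_lit 0xbc0001780002fc581) b55341 (.hit (nat_lit 106) (nat_lit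 85) (nat_lit 0xbc0001780002fbea9) b55342 (.nil))) (.tok (nat_lit 56) (nat_lit 0xbc0001780002fdf44) (.hit (nat_lit 107) (nat_lit 86) (nat_lit 0xbc0001780002fdf44) b55343 (.one (nat_lit 3) (nat_lit 111) (nat_lit 90) (nat_lit 0xbc0001780002fcd50) b55347 (.tok (nat_lit 6) (nat_lit 0xbc0001780002fdf3b) (.hit (nat_lit 109) (nat_lit 88) (nat_lit 0xbc0001780002fdf3b) b55345 (.hit (nat_lit 110) (nat_lit 89) (nat_lit 0xbc0001780002fcd84) b55346 (.nil))) (.one (nat_lit 9) (nat_lit 108) (nat_lit 87) (nat_lit 0xbc0001780002fd057) b55344 (.nil))))) (.one (nat_lit 59) (nat_lit 112) (nat_lit 91) (nat_lit 0xbc0001780002fade7) b55348 (.one (nat_lit 62) (nat_lit 113) (nat_lit 92) (nat_lit 0xbc0001780002fc8ff) b55349 (.tok (nat_lit 65) (nat_lit 0xbc0001780002fceb8) (.hit (nat_lit 114) (nat_lit 93) (nat_lit 0xbc0001780002fceb8) b55350 (.hit (nat_lit 115) (nat_lit 94) (nat_lit 0xbc0001780002fbebc)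 b55351 (.nil))) (.tok (nat_lit 68) (nat_lit 0xbc0001780002fedab) (.hit (nat_lit 116) (nat_lit 95) (nat_lit 0xbc0001780002fedab) b55352 (.one (nat_lit 3) (nat_lit 120) (nat_lit 99) (nat_lit 0xbc0001780002fd43e) b55356 (.one (nat_lit 6) (nat_lit 117) (nat_lit 96) (nat_lit 0xbc0001780002fd745) b55353 (.tok (nat_lit 9) (nat_lit 0xbc0001780002fdc3a) (.hit (nat_lit 118) (nat_lit 97) (nat_lit 0xbc0001780002fd7a5) b55354 (.hit (nat_lit 119) (nat_lit 98) (nat_lit 0xbc0001780002fdc3a) b55355 (.nil))) (.nil))))) (.one (nat_lit 71) (nat_lit 121) (nat_lit 100) (nat_lit 0xbc0001780002fadc7) b55357 (.nil)))))))))))))))))) (.tok (nat_lit 40) (nat_lit 0xbc0001780003046dc) (.hit (nat_lit 245) (nat_lit 0) (nat_lit 0xbc000178000301726) b55358 (.tok (nat_lit 6) (nat_lit 0xbc0001780003046dc) (.hit (nat_lit 246) (nat_lit 7) (nat_lit 0xbc0001780003046dc) b55359 (.hit (nat_lit 247) (nat_lit 15) (nat_lit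 0xbc0001780002fffb4) b55360 (.nil))) (.tok (nat_lit 9) (nat_lit 0xbc00017800030040e) (.hit (nat_lit 248) (nat_lit 20) (nat_lit 0xbc00017800030040e) b55361 (.hit (nat_lit 249) (nat_lit 28) (nat_lit 0xbc0001780002feee1) b55362 (.nil))) (.nil)))) (.tok (nat_lit 43) (nat_lit 0xbc0001780003035d5) (.hit (nat_lit 270) (nat_lit 0) (nat_lit 0xbc0001780003007ac) b55371 (.tok (nat_lit 3) (nat_lit 0xbc0001780003035d5) (.hit (nat_lit 271) (nat_lit 1) (nat_lit 0xbc0001780002ffef0) b55372 (.one (nat_lit 67) (nat_lit 272) (nat_lit 2) (nat_lit 0xbc0001780003035d5) b55373 (.nil))) (.tok (nat_lit 6) (nat_lit 0xbc000178000301ea7) (.hit (nat_lit 273) (nat_lit 7) (nat_lit 0xbc0001780002ff1d0) b55374 (.hit (nat_lit 276) (nat_lit 15) (nat_lit 0xbc0001780002ff677) b55377 (.tok (nat_lit 55) (nat_lit 0xbc000178000301ea7) (.hit (nat_lit 274) (nat_lit 8) (nat_lit 0xbc0001780002fff0a) b55375 (.hit (nat_lit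 277) (nat_lit 16) (nat_lit 0xbc000178000301ea7) b55378 (.one (nat_lit 6) (nat_lit 275) (nat_lit 9) (nat_lit 0xbc000178000301b32) b55376 (.nil)))) (.nil)))) (.nil)))) (.tok (nat_lit 46) (nat_lit 0xbc000178000301409) (.hit (nat_lit 256) (nat_lit 0) (nat_lit 0xbc000178000301409) b55363 (.tok (nat_lit 3) (nat_lit 0xbc0001780002ff536) (.hit (nat_lit 257) (nat_lit 1) (nat_lit 0xbc0001780002fdd45) b55364 (.one (nat_lit 55) (nat_lit 258) (nat_lit 3) (nat_lit 0xbc0001780002ff536) b55365 (.nil))) (.tok (nat_lit 9) (nat_lit 0xbc00017800030021b) (.hit (nat_lit 259) (nat_lit 20) (nat_lit 0xbc0001780002fe50f) b55366 (.hit (nat_lit 262) (nat_lit 28) (nat_lit 0xbc0001780002fdfe0) b55369 (.tok (nat_lit 67) (nat_lit 0xbc00017800030021b) (.hit (nat_lit 260) (nat_lit 21) (nat_lit 0xbc0001780002ffb57) b55367 (.hit (nat_lit 263) (nat_lit 29) (nat_lit 0xbc00017800030021b) b55370 (.one (nat_lit 9) (nat_lit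 261) (nat_lit 22) (nat_lit 0xbc0001780002fff7e) b55368 (.nil)))) (.nil)))) (.nil)))) (.nil))))
noncomputable def r79_16 : Rw Blk := .tok (nat_lit 3) (nat_lit 0xbc0001780002feb37) (.hit (nat_lit 61) (nat_lit 0) (nat_lit 0xbc0001780002fd5dd) b55379 (.tok (nat_lit 14) (nat_lit 0xbc0001780002fea86) (.hit (nat_lit 82) (nat_lit 61) (nat_lit 0xbc0001780002fe74e) b55380 (.one (nat_lit 3) (nat_lit 83) (nat_lit 62) (nat_lit 0xbc0001780002fd9e9) b55381 (.tok (nat_lit 6) (nat_lit 0xbc0001780002fea86) (.hit (nat_lit 86) (nat_lit 65) (nat_lit 0xbc0001780002fea86) b55384 (.hit (nat_lit 87) (nat_lit 66) (nat_lit 0xbc0001780002fd3c4) b55385 (.nil))) (.tok (nat_lit 9) (nat_lit 0xbc0001780002fe935) (.hit (nat_lit 84) (nat_lit 63) (nat_lit 0xbc0001780002fe935) b55382 (.hit (nat_lit 85) (nat_lit 64) (nat_lit 0xbc0001780002fe371) b55383 (.nil))) (.nil))))) (.one (nat_lit 17) (nat_lit 88) (nat_lit 67)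 (nat_lit 0xbc0001780002fd2d5) b55386 (.tok (nat_lit 20) (nat_lit 0xbc0001780002fcd2b) (.hit (nat_lit 89) (nat_lit 68) (nat_lit 0xbc0001780002fcd2b) b55387 (.hit (nat_lit 90) (nat_lit 69) (nat_lit 0xbc0001780002fc4e2) b55388 (.nil))) (.tok (nat_lit 23) (nat_lit 0xbc0001780002fcc25) (.hit (nat_lit 91) (nat_lit 70) (nat_lit 0xbc0001780002fcc25) b55389 (.hit (nat_lit 92) (nat_lit 71) (nat_lit 0xbc0001780002fc4e2) b55388 (.nil))) (.one (nat_lit 26) (nat_lit 93) (nat_lit 72) (nat_lit 0xbc0001780002fb96a) b55390 (.one (nat_lit 29) (nat_lit 94) (nat_lit 73) (nat_lit 0xbc0001780002fba26) b55391 (.one (nat_lit 32) (nat_lit 95) (nat_lit 74) (nat_lit 0xbc0001780002fbf13) b55392 (.one (nat_lit 35) (nat_lit 96) (nat_lit 75) (nat_lit 0xbc0001780002fb55b) b55393 (.one (nat_lit 50) (nat_lit 104) (nat_lit 83) (nat_lit 0xbc0001780002fc383) b55394 (.tok (nat_lit 53) (nat_lit 0xbc0001780002fcd1e)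 (.hit (nat_lit 105) (nat_lit 84) (nat_lit 0xbc0001780002fc709) b55395 (.hit (nat_lit 106) (nat_lit 85) (nat_lit 0xbc0001780002fcd1e) b55396 (.nil))) (.tok (nat_lit 56) (nat_lit 0xbc0001780002fde65) (.hit (nat_lit 107) (nat_lit 86) (nat_lit 0xbc0001780002fdd90) b55397 (.one (nat_lit 3) (nat_lit 111) (nat_lit 90) (nat_lit 0xbc0001780002fd604) b55401 (.tok (nat_lit 6) (nat_lit 0xbc0001780002fde65) (.hit (nat_lit 109) (nat_lit 88) (nat_lit 0xbc0001780002fde65) b55399 (.hit (nat_lit 110) (nat_lit 89) (nat_lit 0xbc0001780002fccce) b55400 (.nil))) (.one (nat_lit 9) (nat_lit 108) (nat_lit 87) (nat_lit 0xbc0001780002fd5a1) b55398 (.nil))))) (.one (nat_lit 59) (nat_lit 112) (nat_lit 91) (nat_lit 0xbc0001780002fb0e3) b55402 (.one (nat_lit 62) (nat_lit 113) (nat_lit 92) (nat_lit 0xbc0001780002fc7d1) b55403 (.tok (nat_lit 65) (nat_lit 0xbc0001780002fd91d) (.hit (nat_lit 114) (nat_lit 93) (nat_lit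 0xbc0001780002fd91d) b55404 (.hit (nat_lit 115) (nat_lit 94) (nat_lit 0xbc0001780002fc93b) b55405 (.nil))) (.tok (nat_lit 68) (nat_lit 0xbc0001780002feb37) (.hit (nat_lit 116) (nat_lit 95) (nat_lit 0xbc0001780002fe7a2) b55406 (.one (nat_lit 3) (nat_lit 120) (nat_lit 99) (nat_lit 0xbc0001780002fcc07) b55410 (.one (nat_lit 6) (nat_lit 117) (nat_lit 96) (nat_lit 0xbc0001780002fe309) b55407 (.tok (nat_lit 9) (nat_lit 0xbc0001780002feb37) (.hit (nat_lit 118) (nat_lit 97) (nat_lit 0xbc0001780002feb37) b55408 (.hit (nat_lit 119) (nat_lit 98) (nat_lit 0xbc0001780002fc564) b55409 (.nil))) (.nil))))) (.one (nat_lit 71) (nat_lit 121) (nat_lit 100) (nat_lit 0xbc0001780002fb0d0) b55411 (.nil)))))))))))))))))) (.tok (nat_lit 40) (nat_lit 0xbc00017800030088b) (.hit (nat_lit 245) (nat_lit 0) (nat_lit 0xbc00017800030088b) b55412 (.tok (nat_lit 6) (nat_lit 0xbc0001780003007bb) (.hit (nat_lit 246)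 (nat_lit 7) (nat_lit 0xbc0001780003007bb) b55413 (.hit (nat_lit 247) (nat_lit 15) (nat_lit 0xbc0001780002ffb69) b55414 (.nil))) (.tok (nat_lit 9) (nat_lit 0xbc0001780002ff6be) (.hit (nat_lit 248) (nat_lit 20) (nat_lit 0xbc0001780002ff6be) b55415 (.hit (nat_lit 249) (nat_lit 28) (nat_lit 0xbc0001780002ff09f) b55416 (.nil))) (.nil)))) (.tok (nat_lit 43) (nat_lit 0xbc000178000302855) (.hit (nat_lit 270) (nat_lit 0) (nat_lit 0xbc000178000300333) b55425 (.tok (nat_lit 3) (nat_lit 0xbc000178000302855) (.hit (nat_lit 271) (nat_lit 1) (nat_lit 0xbc0001780002ff4af) b55426 (.one (nat_lit 67) (nat_lit 272) (nat_lit 2) (nat_lit 0xbc000178000302855) b55427 (.nil))) (.tok (nat_lit 6) (nat_lit 0xbc000178000300ec8) (.hit (nat_lit 273) (nat_lit 7) (nat_lit 0xbc0001780002ff6eb) b55428 (.hit (nat_lit 276) (nat_lit 15) (nat_lit 0xbc0001780002fedc0) b55431 (.tok (nat_lit 55) (nat_lit 0xbc000178000300ec8)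 (.hit (nat_lit 274) (nat_lit 8) (nat_lit 0xbc0001780003006cd) b55429 (.hit (nat_lit 277) (nat_lit 16) (nat_lit 0xbc000178000300577) b55432 (.one (nat_lit 6) (nat_lit 275) (nat_lit 9) (nat_lit 0xbc000178000300ec8) b55430 (.nil)))) (.nil)))) (.nil)))) (.tok (nat_lit 46) (nat_lit 0xbc000178000301c5d) (.hit (nat_lit 256) (nat_lit 0) (nat_lit 0xbc0001780003006f9) b55417 (.tok (nat_lit 3) (nat_lit 0xbc00017800030142b) (.hit (nat_lit 257) (nat_lit 1) (nat_lit 0xbc0001780002ff2f8) b55418 (.one (nat_lit 55) (nat_lit 258) (nat_lit 3) (nat_lit 0xbc00017800030142b) b55419 (.nil))) (.tok (nat_lit 9) (nat_lit 0xbc000178000301c5d) (.hit (nat_lit 259) (nat_lit 20) (nat_lit 0xbc000178000300f21) b55420 (.hit (nat_lit 262) (nat_lit 28) (nat_lit 0xbc0001780003003ac) b55423 (.tok (nat_lit 67) (nat_lit 0xbc000178000301c5d) (.hit (nat_lit 260) (nat_lit 21) (nat_lit 0xbc000178000301894) b55421 (.hit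 (nat_lit 263) (nat_lit 29) (nat_lit 0xbc000178000301aa0) b55424 (.one (nat_lit 9) (nat_lit 261) (nat_lit 22) (nat_lit 0xbc000178000301c5d) b55422 (.nil)))) (.nil)))) (.nil)))) (.nil))))
noncomputable def r79_17 : Rw Blk := .tok (nat_lit 3) (nat_lit 0xbc000178000300000) (.hit (nat_lit 61) (nat_lit 0) (nat_lit 0xbc0001780002fed3f) b12933 (.tok (nat_lit 14) (nat_lit 0xbc000178000300000) (.hit (nat_lit 82) (nat_lit 61) (nat_lit 0xbc000178000300000) b12934 (.one (nat_lit 3) (nat_lit 83) (nat_lit 62) (nat_lit 0xbc0001780002fda5e) b12935 (.tok (nat_lit 6) (nat_lit 0xbc0001780002ffe02) (.hit (nat_lit 86) (nat_lit 65) (nat_lit 0xbc0001780002ffe02) b12936 (.hit (nat_lit 87) (nat_lit 66) (nat_lit 0xbc0001780002fdd1b) b12937 (.nil))) (.tok (nat_lit 9) (nat_lit 0xbc0001780002fdee9) (.hit (nat_lit 84) (nat_lit 63) (nat_lit 0xbc0001780002fde0e) b12938 (.hit (nat_lit 85) (nat_lit 64) (nat_lit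 0xbc0001780002fdee9) b12939 (.nil))) (.nil))))) (.one (nat_lit 17) (nat_lit 88) (nat_lit 67) (nat_lit 0xbc0001780002fd600) b12940 (.tok (nat_lit 20) (nat_lit 0xbc0001780002fe24e) (.hit (nat_lit 89) (nat_lit 68) (nat_lit 0xbc0001780002fe24e) b12943 (.hit (nat_lit 90) (nat_lit 69) (nat_lit 0xbc0001780002fd429) b12944 (.nil))) (.tok (nat_lit 23) (nat_lit 0xbc0001780002fdc29) (.hit (nat_lit 91) (nat_lit 70) (nat_lit 0xbc0001780002fdc29) b12941 (.hit (nat_lit 92) (nat_lit 71) (nat_lit 0xbc0001780002fd409) b12942 (.nil))) (.one (nat_lit 38) (nat_lit 97) (nat_lit 76) (nat_lit 0xbc0001780002fd320) b12945 (.tok (nat_lit 41) (nat_lit 0xbc0001780002fd15b) (.hit (nat_lit 98) (nat_lit 77) (nat_lit 0xbc0001780002fbadf) b12946 (.hit (nat_lit 99) (nat_lit 78) (nat_lit 0xbc0001780002fd15b) b12947 (.nil))) (.tok (nat_lit 44) (nat_lit 0xbc0001780002fcc75) (.hit (nat_lit 100) (nat_lit 79) (nat_lit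 0xbc0001780002fcb7b) b12950 (.hit (nat_lit 101) (nat_lit 80) (nat_lit 0xbc0001780002fcc75) b12951 (.nil))) (.tok (nat_lit 47) (nat_lit 0xbc0001780002fcb88) (.hit (nat_lit 102) (nat_lit 81) (nat_lit 0xbc0001780002fbef3) b12948 (.hit (nat_lit 103) (nat_lit 82) (nat_lit 0xbc0001780002fcb88) b12949 (.nil))) (.one (nat_lit 50) (nat_lit 104) (nat_lit 83) (nat_lit 0xbc0001780002fda6b) b12961 (.tok (nat_lit 53) (nat_lit 0xbc0001780002fe024) (.hit (nat_lit 105) (nat_lit 84) (nat_lit 0xbc0001780002fe024) b12962 (.hit (nat_lit 106) (nat_lit 85) (nat_lit 0xbc0001780002fd028) b12963 (.nil))) (.tok (nat_lit 56) (nat_lit 0xbc0001780002fff17) (.hit (nat_lit 107) (nat_lit 86) (nat_lit 0xbc0001780002fff17) b12964 (.one (nat_lit 3) (nat_lit 111) (nat_lit 90) (nat_lit 0xbc0001780002fe5aa) b12968 (.tok (nat_lit 6) (nat_lit 0xbc0001780002feda6) (.hit (nat_lit 109) (nat_lit 88) (nat_lit 0xbc0001780002fe911)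 b12966 (.hit (nat_lit 110) (nat_lit 89) (nat_lit 0xbc0001780002feda6) b12967 (.nil))) (.one (nat_lit 9) (nat_lit 108) (nat_lit 87) (nat_lit 0xbc0001780002fe8b1) b12965 (.nil))))) (.one (nat_lit 59) (nat_lit 112) (nat_lit 91) (nat_lit 0xbc0001780002fbf33) b12969 (.one (nat_lit 62) (nat_lit 113) (nat_lit 92) (nat_lit 0xbc0001780002fd3a2) b12952 (.tok (nat_lit 65) (nat_lit 0xbc0001780002fd6ed) (.hit (nat_lit 114) (nat_lit 93) (nat_lit 0xbc0001780002fd6ed) b12953 (.hit (nat_lit 115) (nat_lit 94) (nat_lit 0xbc0001780002fd015) b12954 (.nil))) (.tok (nat_lit 68) (nat_lit 0xbc0001780002ff0b0) (.hit (nat_lit 116) (nat_lit 95) (nat_lit 0xbc0001780002ff0b0) b12955 (.one (nat_lit 3) (nat_lit 120) (nat_lit 99) (nat_lit 0xbc0001780002fdebc) b12959 (.one (nat_lit 6) (nat_lit 117) (nat_lit 96) (nat_lit 0xbc0001780002fe1c3) b12956 (.tok (nat_lit 9) (nat_lit 0xbc0001780002ff0a7) (.hit (nat_lit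 118) (nat_lit 97) (nat_lit 0xbc0001780002ff0a7) b12957 (.hit (nat_lit 119) (nat_lit 98) (nat_lit 0xbc0001780002fdef0) b12958 (.nil))) (.nil))))) (.one (nat_lit 71) (nat_lit 121) (nat_lit 100) (nat_lit 0xbc0001780002fbf53) b12960 (.nil)))))))))))))))))) (.nil)
noncomputable def r79_18 : Rw Blk := .tok (nat_lit 3) (nat_lit 0xbc000178000300000) (.hit (nat_lit 61) (nat_lit 0) (nat_lit 0xbc0001780002feaa6) b12970 (.tok (nat_lit 14) (nat_lit 0xbc0001780002fff4f) (.hit (nat_lit 82) (nat_lit 61) (nat_lit 0xbc0001780002ffc17) b12971 (.one (nat_lit 3) (nat_lit 83) (nat_lit 62) (nat_lit 0xbc0001780002feeb2) b12972 (.tok (nat_lit 6) (nat_lit 0xbc0001780002ffdfe) (.hit (nat_lit 86) (nat_lit 65) (nat_lit 0xbc0001780002ffdfe) b12973 (.hit (nat_lit 87) (nat_lit 66) (nat_lit 0xbc0001780002ff83a) b12974 (.nil))) (.tok (nat_lit 9) (nat_lit 0xbc0001780002fff4f) (.hit (nat_lit 84) (nat_lit 63) (nat_lit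 0xbc0001780002fff4f) b12975 (.hit (nat_lit 85) (nat_lit 64) (nat_lit 0xbc0001780002fe88d) b12976 (.nil))) (.nil))))) (.one (nat_lit 17) (nat_lit 88) (nat_lit 67) (nat_lit 0xbc0001780002fe79e) b12977 (.tok (nat_lit 20) (nat_lit 0xbc0001780002fe0ee) (.hit (nat_lit 89) (nat_lit 68) (nat_lit 0xbc0001780002fe0ee) b12980 (.hit (nat_lit 90) (nat_lit 69) (nat_lit 0xbc0001780002fd9ab) b12979 (.nil))) (.tok (nat_lit 23) (nat_lit 0xbc0001780002fe1f4) (.hit (nat_lit 91) (nat_lit 70) (nat_lit 0xbc0001780002fe1f4) b12978 (.hit (nat_lit 92) (nat_lit 71) (nat_lit 0xbc0001780002fd9ab) b12979 (.nil))) (.one (nat_lit 38) (nat_lit 97) (nat_lit 76) (nat_lit 0xbc0001780002fdad4) b12981 (.tok (nat_lit 41) (nat_lit 0xbc0001780002fe302) (.hit (nat_lit 98) (nat_lit 77) (nat_lit 0xbc0001780002fbfc2) b12982 (.hit (nat_lit 99) (nat_lit 78) (nat_lit 0xbc0001780002fe302) b12983 (.nil))) (.tok (nat_lit 44) (nat_lit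 0xbc0001780002fdaf4) (.hit (nat_lit 100) (nat_lit 79) (nat_lit 0xbc0001780002fcf25) b12986 (.hit (nat_lit 101) (nat_lit 80) (nat_lit 0xbc0001780002fdaf4) b12987 (.nil))) (.tok (nat_lit 47) (nat_lit 0xbc0001780002fd459) (.hit (nat_lit 102) (nat_lit 81) (nat_lit 0xbc0001780002fc9a3) b12984 (.hit (nat_lit 103) (nat_lit 82) (nat_lit 0xbc0001780002fd459) b12985 (.nil))) (.one (nat_lit 50) (nat_lit 104) (nat_lit 83) (nat_lit 0xbc0001780002fdc9a) b12997 (.tok (nat_lit 53) (nat_lit 0xbc0001780002fede6) (.hit (nat_lit 105) (nat_lit 84) (nat_lit 0xbc0001780002fede6) b12998 (.hit (nat_lit 106) (nat_lit 85) (nat_lit 0xbc0001780002fde04) b12999 (.nil))) (.tok (nat_lit 56) (nat_lit 0xbc000178000300000) (.hit (nat_lit 107) (nat_lit 86) (nat_lit 0xbc0001780002ffc6b) b13000 (.one (nat_lit 3) (nat_lit 111) (nat_lit 90) (nat_lit 0xbc0001780002fe0d0) b13004 (.tok (nat_lit 6) (nat_lit 0xbc000178000300000)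 (.hit (nat_lit 109) (nat_lit 88) (nat_lit 0xbc000178000300000) b13002 (.hit (nat_lit 110) (nat_lit 89) (nat_lit 0xbc0001780002fda2d) b13003 (.nil))) (.one (nat_lit 9) (nat_lit 108) (nat_lit 87) (nat_lit 0xbc0001780002ff7d2) b13001 (.nil))))) (.one (nat_lit 59) (nat_lit 112) (nat_lit 91) (nat_lit 0xbc0001780002fc599) b13005 (.one (nat_lit 62) (nat_lit 113) (nat_lit 92) (nat_lit 0xbc0001780002fd84c) b12988 (.tok (nat_lit 65) (nat_lit 0xbc0001780002fe1e7) (.hit (nat_lit 114) (nat_lit 93) (nat_lit 0xbc0001780002fdbd2) b12989 (.hit (nat_lit 115) (nat_lit 94) (nat_lit 0xbc0001780002fe1e7) b12990 (.nil))) (.tok (nat_lit 68) (nat_lit 0xbc0001780002ff32e) (.hit (nat_lit 116) (nat_lit 95) (nat_lit 0xbc0001780002ff259) b12991 (.one (nat_lit 3) (nat_lit 120) (nat_lit 99) (nat_lit 0xbc0001780002feacd) b12995 (.one (nat_lit 6) (nat_lit 117) (nat_lit 96) (nat_lit 0xbc0001780002fea6a) b12992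 (.tok (nat_lit 9) (nat_lit 0xbc0001780002ff32e) (.hit (nat_lit 118) (nat_lit 97) (nat_lit 0xbc0001780002ff32e) b12993 (.hit (nat_lit 119) (nat_lit 98) (nat_lit 0xbc0001780002fe197) b12994 (.nil))) (.nil))))) (.one (nat_lit 71) (nat_lit 121) (nat_lit 100) (nat_lit 0xbc0001780002fc5ac) b12996 (.nil)))))))))))))))))) (.nil)
noncomputable def r80_0 : Rw Blk := .tok (nat_lit 3) (nat_lit 0x17edb42fdaab5fd644bf4c497f5852fd3b65fe7febf8fd57f5822fef115fc6c2bfa6d97f2fcafea12) (.hit (nat_lit 0) (nat_lit 0) (nat_lit 0x17db5f2fc20d5f9146befef97e1a3afc0525f9c9ebf26897e8d5afc69d5f7f3cbf3dbd7e4852fc9d5) b55433 (.tok (nat_lit 6) (nat_lit 0x17db23afbdc15fbf5cbf17f97e42c2fc5f15f8e84bf29c17e6d22fc82a5f84f6bf7d017ec632fd9ac) (.hit (nat_lit 1) (nat_lit 7) (nat_lit 0x17d1a5afaac55f9b84becc097daae2fb2f55f688cbeddd17dd542fb52e5f5efebee8197d81d2fc6bc) b55434 (.hit (nat_lit 6) (nat_lit 15) (nat_lit 0x17d06e2fa8565f8498bec24d7d976afb0865f63aebed4157dc1cafb2bf5f5a20bf2a717e218afc727)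 b55437 (.tok (nat_lit 14) (nat_lit 0x17db23afbdc15fbf5cbf17f97e42c2fc5f15f8e84bf29c17e6d22fc82a5f84f6bf54c17e759afd6f6) (.hit (nat_lit 2) (nat_lit 11) (nat_lit 0x17d4f3afb1615faba2bee6797ddfc2fb9915f75c4bef8417e0a22fbbca5f6c36bf02897db6b2fcba8) b55435 (.hit (nat_lit 7) (nat_lit 17) (nat_lit 0x17d4752fb0645f9700bee2857dd7dafb8945f73cabef44d7e023afbacd5f6a3cbf54c17e759afd091) b55438 (.one (nat_lit 9) (nat_lit 3) (nat_lit 12) (nat_lit 0x17db23afbdc15fbf5cbf17f97e42c2fc5f15f8e84bf29c17e6d22fc82a5f84f6bf34097e19b2fd6f6) b55436 (.nil)))) (.one (nat_lit 68) (nat_lit 8) (nat_lit 18) (nat_lit 0x17db04afbd835faffcbf17017e40d2fc5b35f8e08bf28c97e6b32fc7ec5f847abf7d017ec632fd9ac) b55439 (.nil))))) (.tok (nat_lit 52) (nat_lit 0x17d66d2fb4545fa7cebef2457df75afbc845f7baabf040d7e21bafbebd5f721cbf595d7e86fafd0c0) (.hit (nat_lit 19) (nat_lit 39) (nat_lit 0x17d4d82fb12a5f8d50bee59d7dde0afb95a5f7556bef7657e086afbb935f6bc8bf54317e746afcf76)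 b55440 (.hit (nat_lit 20) (nat_lit 40) (nat_lit 0x17d66d2fb4545fa7cebef2457df75afbc845f7baabf040d7e21bafbebd5f721cbf595d7e86fafd0c0) b55441 (.nil))) (.tok (nat_lit 55) (nat_lit 0x17edb42fdaab5fd644bf4c497f5852fd3b65fe7febf8fd57f5822fef115fc6c2bfa6d97f2fcafea12) (.hit (nat_lit 21) (nat_lit 41) (nat_lit 0x17edb42fdaab5fd294bf4c497f5852fd3b65fe7febf8fd57f5822fef115fc6c2bfa6d97f2fcafe7c5) b55442 (.tok (nat_lit 3) (nat_lit 0x17debcafc4f35fd644bf34c17e7c52fcd235f9ce8bf46897ea6b2fcf5c5f935abf50d17e5342fea12) (.hit (nat_lit 27) (nat_lit 47) (nat_lit 0x17dae92fbd4c5fbd5cbf16257e3f1afc57c5f8d9abf27ed7e697afc7b55f840cbf32357e160afdb67) b55445 (.one (nat_lit 67) (nat_lit 28) (nat_lit 48) (nat_lit 0x17debcafc4f35fd644bf34c17e7c52fcd235f9ce8bf46897ea6b2fcf5c5f935abf50d17e5342fea12) b55446 (.nil))) (.tok (nat_lit 6) (nat_lit 0x17e047afcdcf5fb70ebf488d7ebb9afd2ba5f97e8bf3c897e92b2fccdc5f8e5abf46d17e3f42fdbd8)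 (.hit (nat_lit 22) (nat_lit 42) (nat_lit 0x17e047afcdcf5fb70ebf488d7ebb9afd2ba5f97e8bf3c897e92b2fccdc5f8e5abf46d17e3f42fdbd8) b55443 (.hit (nat_lit 25) (nat_lit 45) (nat_lit 0x17db15afbda55fb4f6bf17897e41e2fc5d55f8e4cbf29517e6c42fc80e5f84bebf33997e18d2fd97d) b55444 (.nil))) (.nil)))) (.one (nat_lit 58) (nat_lit 29) (nat_lit 49) (nat_lit 0x17da852fbc845fb546bf13057e38dafc4b45f8c0abf24cd7e633afc6ed5f827cbf96357f00a2fdff5) b55447 (.nil)))))) (.tok (nat_lit 9) (nat_lit 0x180000300000600000c000018000030000060029cc000018000030077e600000c0000180000300000) (.hit (nat_lit 157) (nat_lit 0) (nat_lit 0x17e581afdc9f5fa902bf40217ea022fd0965fc234bf62e17f0be2fdcfd5fa9b4bf72497e9b42fd3e0) b55448 (.tok (nat_lit 9) (nat_lit 0x17f2b4aff8035fed1cbf84917f4fbafe66f5fe20abfc9b17fae22ff40c5fd00abfb3857f3fdafea49) (.hit (nat_lit 163) (nat_lit 20) (nat_lit 0x17e09dafd0a65f9922befd217e8242fc47a5fa860bf3fc97e8d3afd18f5f8e98bf42857e24d2fc889)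 b55449 (.hit (nat_lit 171) (nat_lit 28) (nat_lit 0x17d9cfafb6265f9336be95517dffaafa50a5f78aabf05a97e31eafd76e5f95c8bf37897e0cd2fc594) b55454 (.tok (nat_lit 14) (nat_lit 0x17f2b4aff8035fed1cbf84917f4fbafe66f5fe20abfc9b17fae22ff40c5fd00abfb3857f3fdafea49) (.hit (nat_lit 167) (nat_lit 24) (nat_lit 0x17f10aaff3b75fea78bf72b97f2abafdd595fd2a6bfc1a17f8d7afe31c5fc14abfa9a17f0022fe836) b55450 (.hit (nat_lit 173) (nat_lit 30) (nat_lit 0x17e80dafd1cc5fd34ebf07b97edf42fc1865fad86bf64017f0efafde555fbb0ebf88617eb542fd69f) b55455 (.one (nat_lit 6) (nat_lit 168) (nat_lit 25) (nat_lit 0x17f2b4aff8035fed1cbf84917f4fbafe66f5fe20abfc9b17fae22ff40c5fd00abfb3857f3fdafea49) b55451 (.nil)))) (.one (nat_lit 56) (nat_lit 174) (nat_lit 31) (nat_lit 0x17e41b2fcb905fb646beebb97ea9eafba865f9fbabf48017eb432feff85fc22ebf74fd7e886afd2c6) b55456 (.tok (nat_lit 68) (nat_lit 0x17ed65afeee85fcd8ebf60757f00bafddb45fd622bf8c8d7f7332fe7e55fb536bf838d7ead42fe441)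 (.hit (nat_lit 169) (nat_lit 26) (nat_lit 0x17ed65afe7795fcc32bf60757f00bafddb45fd622bf8c8d7f436afe15c5faca4bf838d7ead42fdbf8) b55452 (.hit (nat_lit 175) (nat_lit 32) (nat_lit 0x17e4432fcb115fa67ebee98d7ea38afb9f15f9e90bf45ad7ec792fe7e55fb536bf6afd7e71aafcdc3) b55457 (.one (nat_lit 9) (nat_lit 170) (nat_lit 27) (nat_lit 0x17e86f2feee85fcd8ebf3f757ee9fafcfd05fab22bf7a3d7f7332fd86d5fa464bf694d7e890afe441) b55453 (.nil)))) (.nil)))))) (.tok (nat_lit 64) (nat_lit 0x17e6ceafdf6f5fb5f8bf09d17ed222fc2685faebcbf6a997f99e2ff5275fdeccbf9bcd7f27dafe3ff) (.hit (nat_lit 182) (nat_lit 50) (nat_lit 0x17e5b52fdf6f5fb3bcbf09d17ed222fc2685faebcbf66257f99e2ff5275fdeccbf9bcd7f27dafe3ff) b55458 (.hit (nat_lit 183) (nat_lit 51) (nat_lit 0x17e6ceafd8db5fb5f8befeb17ebd6afbf235faa90bf6a997f7f6afe0565fa764bf5e997e768afe063) b55459 (.nil))) (.tok (nat_lit 67) (nat_lit 0x180000300000600000c000018000030000060029cc00001800003003eb600000c0000180000300000)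 (.hit (nat_lit 184) (nat_lit 52) (nat_lit 0x17f8022ffbd75fe1ccbfd0d97fbdfaff0c460029cbff8e57fe462ff16c5fdc62bfca297f6912fedde) b55460 (.tok (nat_lit 3) (nat_lit 0x1800002ff9dc5ff406c000017ff543000005ff71ec000017ff913003055ff334bff7057faac2ff637) (.hit (nat_lit 190) (nat_lit 58) (nat_lit 0x17f3222feb625fdc68bfb9e97fe15aff60e5fd024bfb4597f80a2ff6155fdb26bfafbd7f13eafe3eb) b55466 (.one (nat_lit 55) (nat_lit 191) (nat_lit 59) (nat_lit 0x1800002ff9dc5ff406c000017ff543000005ff71ec000017ff913003055ff334bff7057faac2ff637) b55467 (.nil))) (.tok (nat_lit 9) (nat_lit 0x17fcc7300000600000bfa99d800002ff1155fda10bfe685800003003eb600000c0000180000300000) (.hit (nat_lit 185) (nat_lit 53) (nat_lit 0x17f1f62fe1dc5fca76bf52ed7f7f72fdcb75fccfabfafa57f79a2fffd25feb8ebfc88d7f83dafe498) b55461 (.hit (nat_lit 188) (nat_lit 56) (nat_lit 0x17eba62fe9075fed54bf35217f0ab2fcd3b5fbdeebf91557f978afe28d5fb134bf76617eb772ff2b6)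 b55464 (.tok (nat_lit 67) (nat_lit 0x17fcc7300000600000bfa99d800002ff1155fda10bfe685800003003eb600000c0000180000300000) (.hit (nat_lit 186) (nat_lit 54) (nat_lit 0x17fcc72ff9945ff958bf8a4d7ffb92fef345fd288bfd2157fcfaaff9ff5ff306bfe9217fe03aff1d7) b55462 (.hit (nat_lit 189) (nat_lit 57) (nat_lit 0x17f34c300000600000bf63157f82e2fd8415fda10bfcce17ff832fef605fcf40bfb01d7f319b00000) b55465 (.one (nat_lit 9) (nat_lit 187) (nat_lit 55) (nat_lit 0x17fb87aff31d5ff4e0bfa99d800002ff1155fd63abfe685800003003eb600000c00001800002ff654) b55463 (.nil)))) (.nil)))) (.nil)))) (.one (nat_lit 70) (nat_lit 192) (nat_lit 60) (nat_lit 0x17eb1f2fdd7d5fd7f0bf22417f0deafc8175fbc74bf8e617f895b0077e5ff7babfd6617f619afe3ab) b55468 (.nil)))))) (.nil))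
noncomputable def r80_1 : Rw Blk := .tok (nat_lit 6) (nat_lit 0x5e0000bc00017f89faff105) (.hit (nat_lit 51) (nat_lit 0) (nat_lit 0x5e0000bc00017ee012fe39f) b55469 (.tok (nat_lit 14) (nat_lit 0x5e0000bc00017f3e4afebde) (.hit (nat_lit 62) (nat_lit 61) (nat_lit 0x5e0000bc00017f3e4afea6a) b55470 (.one (nat_lit 3) (nat_lit 63) (nat_lit 62) (nat_lit 0x5e0000bc00017f31a2fe0d2) b55471 (.tok (nat_lit 6) (nat_lit 0x5e0000bc00017eeb42fe9a6) (.hit (nat_lit 66) (nat_lit 65) (nat_lit 0x5e0000bc00017e9972fe9a6) b55474 (.hit (nat_lit 67) (nat_lit 66) (nat_lit 0x5e0000bc00017eeb42fe7e8) b55475 (.nil))) (.tok (nat_lit 9) (nat_lit 0x5e0000bc00017f2252febde) (.hit (nat_lit 64) (nat_lit 63) (nat_lit 0x5e0000bc00017f2252febde) b55472 (.hit (nat_lit 65) (nat_lit 64) (nat_lit 0x5e0000bc00017ef67afe99c) b55473 (.nil))) (.nil))))) (.one (nat_lit 17) (nat_lit 68) (nat_lit 67) (nat_lit 0x5e0000bc00017ee172fd641)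 b55476 (.tok (nat_lit 20) (nat_lit 0x5e0000bc00017f89faff105) (.hit (nat_lit 69) (nat_lit 68) (nat_lit 0x5e0000bc00017f89faff105) b55477 (.hit (nat_lit 70) (nat_lit 69) (nat_lit 0x5e0000bc00017eeceafd4ad) b55478 (.nil))) (.tok (nat_lit 23) (nat_lit 0x5e0000bc00017ed752fd5ad) (.hit (nat_lit 71) (nat_lit 70) (nat_lit 0x5e0000bc00017df9aafd5ad) b55479 (.hit (nat_lit 72) (nat_lit 71) (nat_lit 0x5e0000bc00017ed752fd4ad) b55480 (.nil))) (.one (nat_lit 26) (nat_lit 73) (nat_lit 72) (nat_lit 0x5e0000bc00017e5f62fc23d) b55481 (.one (nat_lit 29) (nat_lit 74) (nat_lit 73) (nat_lit 0x5e0000bc00017e5882fc54f) b55482 (.one (nat_lit 32) (nat_lit 75) (nat_lit 74) (nat_lit 0x5e0000bc00017e4caafc82c) b55483 (.one (nat_lit 35) (nat_lit 76) (nat_lit 75) (nat_lit 0x5e0000bc00017ea122fc82c) b55484 (.one (nat_lit 38) (nat_lit 77) (nat_lit 76) (nat_lit 0x5e0000bc00017ed3aafd681) b55485 (.tok (nat_lit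 41) (nat_lit 0x5e0000bc00017ee8fafcc2c) (.hit (nat_lit 78) (nat_lit 77) (nat_lit 0x5e0000bc00017ea56afc26f) b55486 (.hit (nat_lit 79) (nat_lit 78) (nat_lit 0x5e0000bc00017ee8fafcc2c) b55487 (.nil))) (.tok (nat_lit 44) (nat_lit 0x5e0000bc00017efb6afce82) (.hit (nat_lit 80) (nat_lit 79) (nat_lit 0x5e0000bc00017efb6afce82) b55488 (.hit (nat_lit 81) (nat_lit 80) (nat_lit 0x5e0000bc00017e9972fcb81) b55489 (.nil))) (.tok (nat_lit 47) (nat_lit 0x5e0000bc00017efe42fcdcd) (.hit (nat_lit 82) (nat_lit 81) (nat_lit 0x5e0000bc00017d532afc0dd) b55490 (.hit (nat_lit 83) (nat_lit 82) (nat_lit 0x5e0000bc00017efe42fcdcd) b55491 (.nil))) (.one (nat_lit 62) (nat_lit 93) (nat_lit 92) (nat_lit 0x5e0000bc00017e97cafcfef) b55492 (.tok (nat_lit 65) (nat_lit 0x5e0000bc00017ed33afdb81) (.hit (nat_lit 94) (nat_lit 93) (nat_lit 0x5e0000bc00017e7112fdb81) b55493 (.hit (nat_lit 95) (nat_lit 94) (nat_lit 0x5e0000bc00017ed33afd17a)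 b55494 (.nil))) (.tok (nat_lit 68) (nat_lit 0x5e0000bc00017ededafe656) (.hit (nat_lit 96) (nat_lit 95) (nat_lit 0x5e0000bc00017ededafe656) b55495 (.one (nat_lit 3) (nat_lit 100) (nat_lit 99) (nat_lit 0x5e0000bc00017e149afd90b) b55499 (.one (nat_lit 6) (nat_lit 97) (nat_lit 96) (nat_lit 0x5e0000bc00017e53f2fe0f6) b55496 (.tok (nat_lit 9) (nat_lit 0x5e0000bc00017e69b2fe3ae) (.hit (nat_lit 98) (nat_lit 97) (nat_lit 0x5e0000bc00017e69b2fe3ae) b55497 (.hit (nat_lit 99) (nat_lit 98) (nat_lit 0x5e0000bc00017e3f5afde63) b55498 (.nil))) (.nil))))) (.one (nat_lit 71) (nat_lit 101) (nat_lit 100) (nat_lit 0x5e0000bc00017e9b1afc1b4) b55500 (.nil)))))))))))))))))) (.tok (nat_lit 52) (nat_lit 0x5e0000bc000180000301335) (.hit (nat_lit 225) (nat_lit 0) (nat_lit 0x5e0000bc00017fe76301335) b55501 (.tok (nat_lit 6) (nat_lit 0x5e0000bc000180000300ec8) (.hit (nat_lit 226) (nat_lit 7) (nat_lit 0x5e0000bc000180000300ec8)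 b55502 (.hit (nat_lit 227) (nat_lit 15) (nat_lit 0x5e0000bc00017f4752ffb52) b55503 (.nil))) (.tok (nat_lit 9) (nat_lit 0x5e0000bc00017f1d4aff94c) (.hit (nat_lit 228) (nat_lit 20) (nat_lit 0x5e0000bc00017e6ec2ff1cb) b55504 (.hit (nat_lit 229) (nat_lit 28) (nat_lit 0x5e0000bc00017f1d4aff94c) b55505 (.nil))) (.nil)))) (.tok (nat_lit 55) (nat_lit 0x5e0000bc00017f661b006c4) (.hit (nat_lit 250) (nat_lit 0) (nat_lit 0x5e0000bc00017f661aff2db) b55514 (.tok (nat_lit 3) (nat_lit 0x5e0000bc00017f168b006c4) (.hit (nat_lit 251) (nat_lit 1) (nat_lit 0x5e0000bc00017e3e12febb5) b55515 (.one (nat_lit 67) (nat_lit 252) (nat_lit 2) (nat_lit 0x5e0000bc00017f168b006c4) b55516 (.nil))) (.tok (nat_lit 6) (nat_lit 0x5e0000bc00017e6e2aff1b8) (.hit (nat_lit 253) (nat_lit 7) (nat_lit 0x5e0000bc00017e6e2aff1b8) b55517 (.hit (nat_lit 256) (nat_lit 15) (nat_lit 0x5e0000bc00017e357afeaa2) b55518 (.nil))) (.nil))))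 (.tok (nat_lit 58) (nat_lit 0x5e0000bc00017fb04b018de) (.hit (nat_lit 236) (nat_lit 0) (nat_lit 0x5e0000bc00017fb04aff8e7) b55506 (.tok (nat_lit 3) (nat_lit 0x5e0000bc00017f4aab00d48) (.hit (nat_lit 237) (nat_lit 1) (nat_lit 0x5e0000bc00017e3ac2feb4b) b55507 (.one (nat_lit 55) (nat_lit 238) (nat_lit 3) (nat_lit 0x5e0000bc00017f4aab00d48) b55508 (.nil))) (.tok (nat_lit 9) (nat_lit 0x5e0000bc00017fa75b018de) (.hit (nat_lit 239) (nat_lit 20) (nat_lit 0x5e0000bc00017ea44aff87c) b55509 (.hit (nat_lit 242) (nat_lit 28) (nat_lit 0x5e0000bc00017e6a32ff139) b55512 (.tok (nat_lit 67) (nat_lit 0x5e0000bc00017fa75b018de) (.hit (nat_lit 240) (nat_lit 21) (nat_lit 0x5e0000bc00017efce30038f) b55510 (.hit (nat_lit 243) (nat_lit 29) (nat_lit 0x5e0000bc00017f223b0083a) b55513 (.one (nat_lit 9) (nat_lit 241) (nat_lit 22) (nat_lit 0x5e0000bc00017fa75b018de) b55511 (.nil)))) (.nil)))) (.nil)))) (.nil))))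
noncomputable def r80_2 : Rw Blk := .tok (nat_lit 3) (nat_lit 0x5e0000bc0001803deb00234) (.hit (nat_lit 15) (nat_lit 0) (nat_lit 0x5e0000bc00017f22b2ff3d0) b55526 (.tok (nat_lit 9) (nat_lit 0x5e0000bc00017e91f2ff917) (.hit (nat_lit 16) (nat_lit 20) (nat_lit 0x5e0000bc00017dfb9afe64c) b55527 (.hit (nat_lit 21) (nat_lit 28) (nat_lit 0x5e0000bc00017d3d8afce8a) b55532 (.tok (nat_lit 14) (nat_lit 0x5e0000bc00017e5712ff1bb) (.hit (nat_lit 17) (nat_lit 24) (nat_lit 0x5e0000bc00017de5dafe394) b55528 (.hit (nat_lit 22) (nat_lit 30) (nat_lit 0x5e0000bc00017e4092feeeb) b55533 (.one (nat_lit 6) (nat_lit 18) (nat_lit 25) (nat_lit 0x5e0000bc00017e5712ff1bb) b55529 (.nil)))) (.tok (nat_lit 68) (nat_lit 0x5e0000bc00017e91f2ff917) (.hit (nat_lit 19) (nat_lit 26) (nat_lit 0x5e0000bc00017e3da2fee8d) b55530 (.hit (nat_lit 24) (nat_lit 32) (nat_lit 0x5e0000bc00017e447afef68) b55534 (.one (nat_lit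 9) (nat_lit 20) (nat_lit 27) (nat_lit 0x5e0000bc00017e91f2ff917) b55531 (.nil)))) (.nil))))) (.tok (nat_lit 64) (nat_lit 0x5e0000bc00017e991aff9fc) (.hit (nat_lit 25) (nat_lit 50) (nat_lit 0x5e0000bc00017e2feafecd6) b55535 (.hit (nat_lit 26) (nat_lit 51) (nat_lit 0x5e0000bc00017e991aff9fc) b55536 (.nil))) (.tok (nat_lit 67) (nat_lit 0x5e0000bc0001803deb00234) (.hit (nat_lit 27) (nat_lit 52) (nat_lit 0x5e0000bc0001803deb00233) b55537 (.tok (nat_lit 3) (nat_lit 0x5e0000bc00017edadb00234) (.hit (nat_lit 33) (nat_lit 58) (nat_lit 0x5e0000bc00017e99e2ffa15) b55543 (.one (nat_lit 55) (nat_lit 34) (nat_lit 59) (nat_lit 0x5e0000bc00017edadb00234) b55544 (.nil))) (.tok (nat_lit 9) (nat_lit 0x5e0000bc00017eafb2ffccf) (.hit (nat_lit 28) (nat_lit 53) (nat_lit 0x5e0000bc00017e5edaff2b4) b55538 (.hit (nat_lit 31) (nat_lit 56) (nat_lit 0x5e0000bc00017e7892ff5eb) b55541 (.tok (nat_lit 67) (nat_lit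 0x5e0000bc00017eafb2ffccf) (.hit (nat_lit 29) (nat_lit 54) (nat_lit 0x5e0000bc00017eafb2ffccf) b55539 (.hit (nat_lit 32) (nat_lit 57) (nat_lit 0x5e0000bc00017ea7caffbd2) b55542 (.one (nat_lit 9) (nat_lit 30) (nat_lit 55) (nat_lit 0x5e0000bc00017e5962ff205) b55540 (.nil)))) (.nil)))) (.nil)))) (.one (nat_lit 70) (nat_lit 35) (nat_lit 60) (nat_lit 0x5e0000bc00017e9042ff8e1) b55545 (.nil)))))) (.tok (nat_lit 6) (nat_lit 0x5e0000bc0001800c1300894) (.hit (nat_lit 0) (nat_lit 0) (nat_lit 0x5e0000bc00017fc15300894) b55519 (.tok (nat_lit 6) (nat_lit 0x5e0000bc0001800c1300542) (.hit (nat_lit 1) (nat_lit 7) (nat_lit 0x5e0000bc00017f0cf2fe176) b55520 (.hit (nat_lit 4) (nat_lit 15) (nat_lit 0x5e0000bc00017eb18afd817) b55523 (.tok (nat_lit 14) (nat_lit 0x5e0000bc0001800c1300542) (.hit (nat_lit 2) (nat_lit 11) (nat_lit 0x5e0000bc00017fdc9b003a8) b55521 (.hit (nat_lit 5) (nat_lit 17) (nat_lit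 0x5e0000bc00017f078afe02b) b55524 (.one (nat_lit 9) (nat_lit 3) (nat_lit 12) (nat_lit 0x5e0000bc0001800c1300542) b55522 (.nil)))) (.one (nat_lit 68) (nat_lit 6) (nat_lit 18) (nat_lit 0x5e0000bc00017fb36afef29) b55525 (.nil))))) (.nil))) (.nil))
noncomputable def r80_3 : Rw Blk := .tok (nat_lit 9) (nat_lit 0x1780002f00005ff720c05c8580245300568) (.hit (nat_lit 0) (nat_lit 0) (nat_lit 0x1780002f00005fa89abf94397ec0d2fe188) b55546 (.tok (nat_lit 14) (nat_lit 0x1780002f00005ff19cbfc6957f3ba3000a0) (.hit (nat_lit 21) (nat_lit 61) (nat_lit 0x1780002f00005fd8fcbf8b797ef3a2fea4a) b55547 (.one (nat_lit 3) (nat_lit 22) (nat_lit 62) (nat_lit 0x1780002f00005fe1a6bf80117ea08aff325) b55548 (.tok (nat_lit 6) (nat_lit 0x1780002f00005ff19cbfc6957f3ba3000a0) (.hit (nat_lit 25) (nat_lit 65) (nat_lit 0x1780002f00005ff19cbfc6957f3ba3000a0) b55551 (.hit (nat_lit 26) (nat_lit 66) (nat_lit 0x1780002f00005fb5aebf52917ead02fd7f3)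 b55552 (.nil))) (.tok (nat_lit 9) (nat_lit 0x1780002f00005fb8b0bf76f17ecec2fe326) (.hit (nat_lit 23) (nat_lit 63) (nat_lit 0x1780002f00005f71fcbf4a917eba92fd09b) b55549 (.hit (nat_lit 24) (nat_lit 64) (nat_lit 0x1780002f00005fb8b0bf76f17ecec2fe326) b55550 (.nil))) (.nil))))) (.one (nat_lit 17) (nat_lit 27) (nat_lit 67) (nat_lit 0x1780002f00005fc724bf71757e8ea2fe23a) b55553 (.tok (nat_lit 20) (nat_lit 0x1780002f00005fa764bf3b957e34aafd4d5) (.hit (nat_lit 28) (nat_lit 68) (nat_lit 0x1780002f00005f5082bf079d7e34aafbfde) b55554 (.hit (nat_lit 29) (nat_lit 69) (nat_lit 0x1780002f00005fa764bf3b957e2a1afd4d5) b55555 (.nil))) (.tok (nat_lit 23) (nat_lit 0x1780002f00005ff720c05c8580245300568) (.hit (nat_lit 30) (nat_lit 70) (nat_lit 0x1780002f00005ff720c05c8580245300568) b55556 (.hit (nat_lit 31) (nat_lit 71) (nat_lit 0x1780002f00005fad28bf3b017e5112fd43c) b55557 (.nil))) (.one (nat_lit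 26) (nat_lit 32) (nat_lit 72) (nat_lit 0x1780002f00005f998ebf16757dfdeafcb08) b55558 (.one (nat_lit 29) (nat_lit 33) (nat_lit 73) (nat_lit 0x1780002f00005fa412bf327d7e3012fdacf) b55559 (.one (nat_lit 32) (nat_lit 34) (nat_lit 74) (nat_lit 0x1780002f00005fb926bf339d7e3032fdbfc) b55560 (.one (nat_lit 35) (nat_lit 35) (nat_lit 75) (nat_lit 0x1780002f00005f8a20bef1597dc60afc2db) b55561 (.one (nat_lit 50) (nat_lit 43) (nat_lit 83) (nat_lit 0x1780002f00005f9914bf17c97e1782fca75) b55562 (.tok (nat_lit 53) (nat_lit 0x1780002f00005fb0b4bf421d7e346afd874) (.hit (nat_lit 44) (nat_lit 84) (nat_lit 0x1780002f00005fb0b4bf40ed7e2b8afd874) b55563 (.hit (nat_lit 45) (nat_lit 85) (nat_lit 0x1780002f00005f864cbf421d7e346afd366) b55564 (.nil))) (.tok (nat_lit 56) (nat_lit 0x1780002f00005f9602bfa8497edef2fe653) (.hit (nat_lit 46) (nat_lit 86) (nat_lit 0x1780002f00005f9602bfa8497edef2fe653) b55565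 (.one (nat_lit 3) (nat_lit 50) (nat_lit 90) (nat_lit 0x1780002f00005f4f88bf05a97e30c2fbf61) b55569 (.tok (nat_lit 6) (nat_lit 0x1780002f00005f73a6bf4de57ec13afd170) (.hit (nat_lit 48) (nat_lit 88) (nat_lit 0x1780002f00005f73a6bf4de57ec13afd170) b55567 (.hit (nat_lit 49) (nat_lit 89) (nat_lit 0x1780002f00005f6302bf2c9d7e7eaafc91e) b55568 (.nil))) (.one (nat_lit 9) (nat_lit 47) (nat_lit 87) (nat_lit 0x1780002f00005f57cebf16357e51dafc384) b55566 (.nil))))) (.one (nat_lit 59) (nat_lit 51) (nat_lit 91) (nat_lit 0x1780002f00005fa662bf2c917e1acafd3c1) b55570 (.one (nat_lit 62) (nat_lit 52) (nat_lit 92) (nat_lit 0x1780002f00005fb6dabf3b617e490afd9dd) b55571 (.tok (nat_lit 65) (nat_lit 0x1780002f00005fccc6bf54317ebad2fe66e) (.hit (nat_lit 53) (nat_lit 93) (nat_lit 0x1780002f00005fccc6bf54317ebad2fe66e) b55572 (.hit (nat_lit 54) (nat_lit 94) (nat_lit 0x1780002f00005fb4aabf4c497e645afdea5)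 b55573 (.nil))) (.tok (nat_lit 68) (nat_lit 0x1780002f00005fd72ec004017f753aff7b5) (.hit (nat_lit 55) (nat_lit 95) (nat_lit 0x1780002f00005fd0b2bfce257f1262fe81c) b55574 (.one (nat_lit 3) (nat_lit 59) (nat_lit 99) (nat_lit 0x1780002f00005fb7b6bf82e97ec5eafd9c0) b55578 (.one (nat_lit 6) (nat_lit 56) (nat_lit 96) (nat_lit 0x1780002f00005fd72ec004017f753aff7b5) b55575 (.tok (nat_lit 9) (nat_lit 0x1780002f00005fd098bf76797ed462fec45) (.hit (nat_lit 57) (nat_lit 97) (nat_lit 0x1780002f00005fd098bf76797ed462fec45) b55576 (.hit (nat_lit 58) (nat_lit 98) (nat_lit 0x1780002f00005fc4cabf5e917e7102fe117) b55577 (.nil))) (.nil))))) (.one (nat_lit 71) (nat_lit 60) (nat_lit 100) (nat_lit 0x1780002f00005fab72bf254d7e1682fd487) b55579 (.nil)))))))))))))))))) (.tok (nat_lit 64) (nat_lit 0x1780002f0000600000c069d58042fb013ea) (.hit (nat_lit 176) (nat_lit 0) (nat_lit 0x1780002f0000600000c069d58042fb013ea)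 b55580 (.tok (nat_lit 6) (nat_lit 0x1780002f00005fd1d6bfc8f17f56b2ff626) (.hit (nat_lit 177) (nat_lit 7) (nat_lit 0x1780002f00005faaa6bfb1f17f2ef2fefa7) b55581 (.hit (nat_lit 178) (nat_lit 15) (nat_lit 0x1780002f00005fd1d6bfc8f17f56b2ff626) b55582 (.nil))) (.tok (nat_lit 9) (nat_lit 0x1780002f00005fd834c012f57f97db0044b) (.hit (nat_lit 179) (nat_lit 20) (nat_lit 0x1780002f00005fd834c012f57f97db0044b) b55583 (.hit (nat_lit 180) (nat_lit 28) (nat_lit 0x1780002f00005fb672bfaa617f1232ff4f2) b55584 (.nil))) (.nil)))) (.tok (nat_lit 67) (nat_lit 0x1780002f00005fc9debff0617fabd2fff43) (.hit (nat_lit 201) (nat_lit 0) (nat_lit 0x1780002f00005fc552bfbacd7f40aaff1de) b55593 (.tok (nat_lit 3) (nat_lit 0x1780002f00005fb7e2bfcc697f63e2ff645) (.hit (nat_lit 202) (nat_lit 1) (nat_lit 0x1780002f00005f8a9abf71d97eaec2fdfa1) b55594 (.one (nat_lit 55) (nat_lit 203) (nat_lit 3) (nat_lit 0x1780002f00005fb7e2bfcc697f63e2ff645)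 b55595 (.nil))) (.tok (nat_lit 9) (nat_lit 0x1780002f00005fc9debff0617fabd2fff43) (.hit (nat_lit 204) (nat_lit 20) (nat_lit 0x1780002f00005f9fa4bf9bed7f02eafea26) b55596 (.hit (nat_lit 207) (nat_lit 28) (nat_lit 0x1780002f00005f8c46bf75317eb572fe077) b55599 (.tok (nat_lit 67) (nat_lit 0x1780002f00005fc9debff0617fabd2fff43) (.hit (nat_lit 205) (nat_lit 21) (nat_lit 0x1780002f00005fbd74bfd78d7f7a2aff90e) b55597 (.hit (nat_lit 208) (nat_lit 29) (nat_lit 0x1780002f00005fbd40bfd7257f795aff8f4) b55600 (.one (nat_lit 9) (nat_lit 206) (nat_lit 22) (nat_lit 0x1780002f00005fc9debff0617fabd2fff43) b55598 (.nil)))) (.nil)))) (.nil)))) (.tok (nat_lit 70) (nat_lit 0x1780002f00005fe010c01cc580049b00a5c) (.hit (nat_lit 187) (nat_lit 0) (nat_lit 0x1780002f00005fcef0c003017f7962ff683) b55585 (.tok (nat_lit 3) (nat_lit 0x1780002f00005fcdc2bff8297fbb6300135) (.hit (nat_lit 188) (nat_lit 1) (nat_lit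 0x1780002f00005f9a94bf91cd7eeeaafe79e) b55586 (.one (nat_lit 67) (nat_lit 189) (nat_lit 2) (nat_lit 0x1780002f00005fcdc2bff8297fbb6300135) b55587 (.nil))) (.tok (nat_lit 6) (nat_lit 0x1780002f00005fe010c01cc580049b00a5c) (.hit (nat_lit 190) (nat_lit 7) (nat_lit 0x1780002f00005f9e7abf99997efe42fe991) b55588 (.hit (nat_lit 193) (nat_lit 15) (nat_lit 0x1780002f00005f9ed4bf9a4d7effaafe9be) b55591 (.tok (nat_lit 55) (nat_lit 0x1780002f00005fe010c01cc580049b00a5c) (.hit (nat_lit 191) (nat_lit 8) (nat_lit 0x1780002f00005fb868bfcd757f65faff688) b55589 (.hit (nat_lit 194) (nat_lit 16) (nat_lit 0x1780002f00005fd34ac003397fd183003f9) b55592 (.one (nat_lit 6) (nat_lit 192) (nat_lit 9) (nat_lit 0x1780002f00005fe010c01cc580049b00a5c) b55590 (.nil)))) (.nil)))) (.nil)))) (.nil))))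
noncomputable def r80_4 : Rw Blk := .tok (nat_lit 3) (nat_lit 0x1780002f00006020c4c0852980bc0b025ce) (.hit (nat_lit 15) (nat_lit 0) (nat_lit 0x1780002f00006001aec0193d7f9fb300bcd) b55612 (.tok (nat_lit 6) (nat_lit 0x1780002f00005fe146bfa8a17f117aff204) (.hit (nat_lit 16) (nat_lit 7) (nat_lit 0x1780002f00005f7bd2bf1f317dfe9afd302) b55613 (.hit (nat_lit 21) (nat_lit 15) (nat_lit 0x1780002f00005f9a8ebef1357da2a2fdb49) b55616 (.tok (nat_lit 56) (nat_lit 0x1780002f00005fb524bfa8a17f117aff083) (.hit (nat_lit 19) (nat_lit 13) (nat_lit 0x1780002f00005f9de0bf41657e4302fe409) b55614 (.hit (nat_lit 24) (nat_lit 19) (nat_lit 0x1780002f00005faa84bf7f157ebe62feea6) b55618 (.one (nat_lit 6) (nat_lit 20) (nat_lit 14) (nat_lit 0x1780002f00005fb524bfa8a17f117aff083) b55615 (.nil)))) (.one (nat_lit 68) (nat_lit 23) (nat_lit 18) (nat_lit 0x1780002f00005fe146bfa4297f088aff204) b55617 (.nil))))) (.tok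 (nat_lit 52) (nat_lit 0x1780002f00005fcfd6bfac897f194affd8e) (.hit (nat_lit 25) (nat_lit 39) (nat_lit 0x1780002f00005fc5aabf8b1d7ed672ff325) b55619 (.hit (nat_lit 26) (nat_lit 40) (nat_lit 0x1780002f00005fcfd6bfac897f194affd8e) b55620 (.nil))) (.tok (nat_lit 55) (nat_lit 0x1780002f00006020c4c0852980bc0b0194c) (.hit (nat_lit 27) (nat_lit 41) (nat_lit 0x1780002f00006020c4c0852980bc0b0194c) b55621 (.one (nat_lit 3) (nat_lit 33) (nat_lit 47) (nat_lit 0x1780002f00005fb364bf7fe17ebffafeecb) b55627 (.tok (nat_lit 6) (nat_lit 0x1780002f00005fc352bfaaf97f162aff6c2) (.hit (nat_lit 28) (nat_lit 42) (nat_lit 0x1780002f00005fb538bf8add7ed5f2fefb5) b55622 (.hit (nat_lit 31) (nat_lit 45) (nat_lit 0x1780002f00005fae74bf6f697e9f0afec53) b55625 (.tok (nat_lit 55) (nat_lit 0x1780002f00005fc352bfaaf97f162aff6c2) (.hit (nat_lit 29) (nat_lit 43) (nat_lit 0x1780002f00005fc352bf9b157ef662ff6c2) b55623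 (.hit (nat_lit 32) (nat_lit 46) (nat_lit 0x1780002f00005fc240bfaaf97f162aff639) b55626 (.one (nat_lit 6) (nat_lit 30) (nat_lit 44) (nat_lit 0x1780002f00005fac6cbf6fad7e9f92feb4f) b55624 (.nil)))) (.nil)))) (.nil)))) (.one (nat_lit 58) (nat_lit 35) (nat_lit 49) (nat_lit 0x1780002f00006018c2bfda5d7f74f3025ce) b55628 (.nil)))))) (.tok (nat_lit 9) (nat_lit 0x1780002f0000606968c1349d82639b03de5) (.hit (nat_lit 0) (nat_lit 0) (nat_lit 0x1780002f0000600524c045f1802a2b00d30) b55601 (.tok (nat_lit 9) (nat_lit 0x1780002f00006008f6c076ad80cc0300c0b) (.hit (nat_lit 1) (nat_lit 20) (nat_lit 0x1780002f00005fa470bfb4597eed52fdd4d) b55602 (.hit (nat_lit 4) (nat_lit 28) (nat_lit 0x1780002f00005fb716bfe58d7f1eb2fe2b8) b55603 (.one (nat_lit 56) (nat_lit 6) (nat_lit 31) (nat_lit 0x1780002f00006008f6c076ad80cc0300c0b) b55604 (.nil)))) (.tok (nat_lit 64) (nat_lit 0x1780002f0000606710c1275982273303de5)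 (.hit (nat_lit 7) (nat_lit 50) (nat_lit 0x1780002f0000606710c1275982273303de5) b55605 (.hit (nat_lit 8) (nat_lit 51) (nat_lit 0x1780002f00006019a4c045b18010f300562) b55606 (.nil))) (.tok (nat_lit 67) (nat_lit 0x1780002f0000606968c1249182639b03c70) (.hit (nat_lit 9) (nat_lit 52) (nat_lit 0x1780002f0000604abec0cb1181631b02c76) b55607 (.one (nat_lit 3) (nat_lit 12) (nat_lit 58) (nat_lit 0x1780002f00005fe74ac03ba9808782ffe93) b55610 (.tok (nat_lit 9) (nat_lit 0x1780002f0000606968c1249182639b03c70) (.hit (nat_lit 10) (nat_lit 53) (nat_lit 0x1780002f0000606968c1249182639b03c70) b55608 (.hit (nat_lit 11) (nat_lit 56) (nat_lit 0x1780002f00005ff030bff4d57f7ab2ff76b) b55609 (.nil))) (.nil)))) (.one (nat_lit 70) (nat_lit 14) (nat_lit 60) (nat_lit 0x1780002f00006061dac1349d81c023030a7) b55611 (.nil)))))) (.nil))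
noncomputable def r80_5 : Rw Blk := .tok (nat_lit 9) (nat_lit 0x5e0000bc00018074f302661) (.hit (nat_lit 0) (nat_lit 0) (nat_lit 0x5e0000bc00017fa283014b5) b55629 (.one (nat_lit 26) (nat_lit 12) (nat_lit 72) (nat_lit 0x5e0000bc00017f8dd2ffacf) b55630 (.one (nat_lit 29) (nat_lit 13) (nat_lit 73) (nat_lit 0x5e0000bc00017fbe3300185) b55631 (.one (nat_lit 32) (nat_lit 14) (nat_lit 74) (nat_lit 0x5e0000bc00017f99db0004a) b55632 (.one (nat_lit 35) (nat_lit 15) (nat_lit 75) (nat_lit 0x5e0000bc00017eecfafedee) b55633 (.one (nat_lit 38) (nat_lit 16) (nat_lit 76) (nat_lit 0x5e0000bc00017f108aff813) b55634 (.tok (nat_lit 41) (nat_lit 0x5e0000bc00017eefbb00164) (.hit (nat_lit 17) (nat_lit 77) (nat_lit 0x5e0000bc00017eab3aff838) b55635 (.hit (nat_lit 18) (nat_lit 78) (nat_lit 0x5e0000bc00017eefbb00164) b55636 (.nil))) (.tok (nat_lit 44) (nat_lit 0x5e0000bc00017f3c0affd77) (.hit (nat_lit 19)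 (nat_lit 79) (nat_lit 0x5e0000bc00017e9152fe8f8) b55637 (.hit (nat_lit 20) (nat_lit 80) (nat_lit 0x5e0000bc00017f3c0affd77) b55638 (.nil))) (.tok (nat_lit 47) (nat_lit 0x5e0000bc00017f45eb00da2) (.hit (nat_lit 21) (nat_lit 81) (nat_lit 0x5e0000bc00017f45eb00da2) b55639 (.hit (nat_lit 22) (nat_lit 82) (nat_lit 0x5e0000bc00017e9cb2fec95) b55640 (.nil))) (.one (nat_lit 50) (nat_lit 23) (nat_lit 83) (nat_lit 0x5e0000bc00017fd0430034d) b55641 (.tok (nat_lit 53) (nat_lit 0x5e0000bc00017f303affbeb) (.hit (nat_lit 24) (nat_lit 84) (nat_lit 0x5e0000bc00017f1fdaffbeb) b55642 (.hit (nat_lit 25) (nat_lit 85) (nat_lit 0x5e0000bc00017f303affaf4) b55643 (.nil))) (.tok (nat_lit 56) (nat_lit 0x5e0000bc00018074f302661) (.hit (nat_lit 26) (nat_lit 86) (nat_lit 0x5e0000bc00018074f302661) b55644 (.one (nat_lit 3) (nat_lit 30) (nat_lit 90) (nat_lit 0x5e0000bc00017f4e8b0009f) b55648 (.tok (nat_lit 6)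 (nat_lit 0x5e0000bc00017f3b52ffe38) (.hit (nat_lit 28) (nat_lit 88) (nat_lit 0x5e0000bc00017f3b52ffe38) b55646 (.hit (nat_lit 29) (nat_lit 89) (nat_lit 0x5e0000bc00017ee042ff2d6) b55647 (.nil))) (.one (nat_lit 9) (nat_lit 27) (nat_lit 87) (nat_lit 0x5e0000bc00017f27f2ffbcc) b55645 (.nil))))) (.one (nat_lit 59) (nat_lit 31) (nat_lit 91) (nat_lit 0x5e0000bc00017f428aff97e) b55649 (.nil)))))))))))))) (.tok (nat_lit 64) (nat_lit 0x5e0000bc0001817ea303e1c) (.hit (nat_lit 45) (nat_lit 0) (nat_lit 0x5e0000bc0001817ea303e1c) b55661 (.tok (nat_lit 6) (nat_lit 0x5e0000bc00017feaab00fc9) (.hit (nat_lit 46) (nat_lit 7) (nat_lit 0x5e0000bc00017f6ae2ffa15) b55662 (.hit (nat_lit 47) (nat_lit 15) (nat_lit 0x5e0000bc00017feaab00fc9) b55663 (.nil))) (.tok (nat_lit 9) (nat_lit 0x5e0000bc0001812e1b034e5) (.hit (nat_lit 48) (nat_lit 20) (nat_lit 0x5e0000bc0001812e1b034e5) b55664 (.hit (nat_lit 49)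 (nat_lit 28) (nat_lit 0x5e0000bc000180df2b02cd4) b55665 (.nil))) (.nil)))) (.tok (nat_lit 67) (nat_lit 0x5e0000bc00018067e3019b5) (.hit (nat_lit 40) (nat_lit 0) (nat_lit 0x5e0000bc00018045d300c3e) b55657 (.one (nat_lit 3) (nat_lit 41) (nat_lit 1) (nat_lit 0x5e0000bc00017fcd2b0065e) b55658 (.tok (nat_lit 9) (nat_lit 0x5e0000bc00018067e3019b5) (.hit (nat_lit 43) (nat_lit 20) (nat_lit 0x5e0000bc00018067e3019b5) b55659 (.hit (nat_lit 44) (nat_lit 28) (nat_lit 0x5e0000bc00017f8122ffcdd) b55660 (.nil))) (.nil)))) (.tok (nat_lit 70) (nat_lit 0x5e0000bc000181060b02d7a) (.hit (nat_lit 32) (nat_lit 0) (nat_lit 0x5e0000bc000180881b0216d) b55650 (.one (nat_lit 3) (nat_lit 33) (nat_lit 1) (nat_lit 0x5e0000bc00018076db01b94) b55651 (.tok (nat_lit 6) (nat_lit 0x5e0000bc000181060b02d7a) (.hit (nat_lit 35) (nat_lit 7) (nat_lit 0x5e0000bc0001809d9b0206c) b55652 (.hit (nat_lit 38) (nat_lit 15) (nat_lit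 0x5e0000bc0001805b2b0181e) b55655 (.tok (nat_lit 55) (nat_lit 0x5e0000bc000181060b02d7a) (.hit (nat_lit 36) (nat_lit 8) (nat_lit 0x5e0000bc000180d2bb02710) b55653 (.hit (nat_lit 39) (nat_lit 16) (nat_lit 0x5e0000bc000180f9fb02bf8) b55656 (.one (nat_lit 6) (nat_lit 37) (nat_lit 9) (nat_lit 0x5e0000bc000181060b02d7a) b55654 (.nil)))) (.nil)))) (.nil)))) (.nil))))
noncomputable def r80_6 : Rw Blk := .tok (nat_lit 3) (nat_lit 0x5e0000bc000181c273028f3) (.hit (nat_lit 0) (nat_lit 0) (nat_lit 0x5e0000bc000181c273028f3) b55666 (.tok (nat_lit 6) (nat_lit 0x5e0000bc000181172301593) (.hit (nat_lit 1) (nat_lit 7) (nat_lit 0x5e0000bc00017f94b2fe545) b55667 (.hit (nat_lit 6) (nat_lit 15) (nat_lit 0x5e0000bc00017fc0d2feac9) b55672 (.tok (nat_lit 14) (nat_lit 0x5e0000bc000180fb9301221) (.hit (nat_lit 2) (nat_lit 11) (nat_lit 0x5e0000bc000180725b000fa) b55668 (.hit (nat_lit 7) (nat_lit 17) (nat_lit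 0x5e0000bc000180fb9301221) b55673 (.one (nat_lit 9) (nat_lit 3) (nat_lit 12) (nat_lit 0x5e0000bc0001805f32ffe95) b55669 (.nil)))) (.tok (nat_lit 56) (nat_lit 0x5e0000bc000181172301593) (.hit (nat_lit 4) (nat_lit 13) (nat_lit 0x5e0000bc0001802892ff7c1) b55670 (.hit (nat_lit 8) (nat_lit 19) (nat_lit 0x5e0000bc000180bcbb00a46) b55674 (.one (nat_lit 6) (nat_lit 5) (nat_lit 14) (nat_lit 0x5e0000bc000181172301593) b55671 (.nil)))) (.nil))))) (.nil))) (.tok (nat_lit 9) (nat_lit 0x5e0000bc000182e3fb065c5) (.hit (nat_lit 20) (nat_lit 0) (nat_lit 0x5e0000bc000182508303cb8) b55675 (.tok (nat_lit 9) (nat_lit 0x5e0000bc000182e3fb065c5) (.hit (nat_lit 21) (nat_lit 20) (nat_lit 0x5e0000bc000181914302364) b55676 (.hit (nat_lit 24) (nat_lit 28) (nat_lit 0x5e0000bc000181527b019f7) b55679 (.tok (nat_lit 14) (nat_lit 0x5e0000bc000182e3fb065c5) (.hit (nat_lit 22) (nat_lit 24) (nat_lit 0x5e0000bc00018244cb044e7)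 b55677 (.hit (nat_lit 25) (nat_lit 30) (nat_lit 0x5e0000bc000181afab03615) b55680 (.one (nat_lit 6) (nat_lit 23) (nat_lit 25) (nat_lit 0x5e0000bc000182e3fb065c5) b55678 (.nil)))) (.nil)))) (.nil))) (.nil))
noncomputable def r80_7 : Rw Blk := .tok (nat_lit 9) (nat_lit 0x5e0000bc00017f9c7b002ae) (.hit (nat_lit 0) (nat_lit 0) (nat_lit 0x5e0000bc00017e5a52fe0e9) b55681 (.tok (nat_lit 14) (nat_lit 0x5e0000bc00017f9c7b002ae) (.hit (nat_lit 21) (nat_lit 61) (nat_lit 0x5e0000bc00017f2a7afe710) b55682 (.one (nat_lit 3) (nat_lit 22) (nat_lit 62) (nat_lit 0x5e0000bc00017ebf2afdd3b) b55683 (.tok (nat_lit 6) (nat_lit 0x5e0000bc00017f9c7b002ae) (.hit (nat_lit 25) (nat_lit 65) (nat_lit 0x5e0000bc00017f9c7b002ae) b55686 (.hit (nat_lit 26) (nat_lit 66) (nat_lit 0x5e0000bc00017ee6d2fe4f5) b55687 (.nil))) (.tok (nat_lit 9) (nat_lit 0x5e0000bc00017ec2dafe7a1) (.hit (nat_lit 23) (nat_lit 63) (nat_lit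 0x5e0000bc00017e2c9afe45c) b55684 (.hit (nat_lit 24) (nat_lit 64) (nat_lit 0x5e0000bc00017ec2dafe7a1) b55685 (.nil))) (.nil))))) (.one (nat_lit 17) (nat_lit 27) (nat_lit 67) (nat_lit 0x5e0000bc00017e6feafd2aa) b55688 (.tok (nat_lit 20) (nat_lit 0x5e0000bc00017e6e9afdcdd) (.hit (nat_lit 28) (nat_lit 68) (nat_lit 0x5e0000bc00017df0a2fdcdd) b55689 (.hit (nat_lit 29) (nat_lit 69) (nat_lit 0x5e0000bc00017e6e9afd116) b55690 (.nil))) (.tok (nat_lit 23) (nat_lit 0x5e0000bc00017eb80afe0ea) (.hit (nat_lit 30) (nat_lit 70) (nat_lit 0x5e0000bc00017eb80afe0ea) b55691 (.hit (nat_lit 31) (nat_lit 71) (nat_lit 0x5e0000bc00017e567afd118) b55692 (.nil))) (.one (nat_lit 26) (nat_lit 32) (nat_lit 72) (nat_lit 0x5e0000bc00017e334afc613) b55693 (.one (nat_lit 29) (nat_lit 33) (nat_lit 73) (nat_lit 0x5e0000bc00017e25f2fc661) b55694 (.one (nat_lit 32) (nat_lit 34) (nat_lit 74) (nat_lit 0x5e0000bc00017e61dafcbd6)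 b55695 (.one (nat_lit 35) (nat_lit 35) (nat_lit 75) (nat_lit 0x5e0000bc00017de5b2fc495) b55696 (.one (nat_lit 50) (nat_lit 43) (nat_lit 83) (nat_lit 0x5e0000bc00017e422afcc58) b55697 (.tok (nat_lit 53) (nat_lit 0x5e0000bc00017e28f2fd30b) (.hit (nat_lit 44) (nat_lit 84) (nat_lit 0x5e0000bc00017e024afd30b) b55698 (.hit (nat_lit 45) (nat_lit 85) (nat_lit 0x5e0000bc00017e28f2fc9d9) b55699 (.nil))) (.tok (nat_lit 56) (nat_lit 0x5e0000bc00017e6132feaa6) (.hit (nat_lit 46) (nat_lit 86) (nat_lit 0x5e0000bc00017e6132feaa6) b55700 (.one (nat_lit 3) (nat_lit 50) (nat_lit 90) (nat_lit 0x5e0000bc00017de1fafdb08) b55704 (.tok (nat_lit 6) (nat_lit 0x5e0000bc00017dfb6afde36) (.hit (nat_lit 48) (nat_lit 88) (nat_lit 0x5e0000bc00017dfb6afde36) b55702 (.hit (nat_lit 49) (nat_lit 89) (nat_lit 0x5e0000bc00017de8dafdbe4) b55703 (.nil))) (.one (nat_lit 9) (nat_lit 47) (nat_lit 87) (nat_lit 0x5e0000bc00017dd6f2fd9a7)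 b55701 (.nil))))) (.one (nat_lit 59) (nat_lit 51) (nat_lit 91) (nat_lit 0x5e0000bc00017e4272fc825) b55705 (.one (nat_lit 62) (nat_lit 52) (nat_lit 92) (nat_lit 0x5e0000bc00017e9e3afd35d) b55706 (.tok (nat_lit 65) (nat_lit 0x5e0000bc00017ead82fdda4) (.hit (nat_lit 53) (nat_lit 93) (nat_lit 0x5e0000bc00017ead82fdda4) b55707 (.hit (nat_lit 54) (nat_lit 94) (nat_lit 0x5e0000bc00017e89e2fd148) b55708 (.nil))) (.tok (nat_lit 68) (nat_lit 0x5e0000bc00017f5e22ff2b2) (.hit (nat_lit 55) (nat_lit 95) (nat_lit 0x5e0000bc00017f1b72fedc4) b55709 (.one (nat_lit 3) (nat_lit 59) (nat_lit 99) (nat_lit 0x5e0000bc00017ec70afdae9) b55713 (.one (nat_lit 6) (nat_lit 56) (nat_lit 96) (nat_lit 0x5e0000bc00017f430aff06c) b55710 (.tok (nat_lit 9) (nat_lit 0x5e0000bc00017f5e22ff2b2) (.hit (nat_lit 57) (nat_lit 97) (nat_lit 0x5e0000bc00017f5e22ff2b2) b55711 (.hit (nat_lit 58) (nat_lit 98) (nat_lit 0x5e0000bc00017ebe8afd7ef)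 b55712 (.nil))) (.nil))))) (.one (nat_lit 71) (nat_lit 60) (nat_lit 100) (nat_lit 0x5e0000bc00017e6152fcbbe) b55714 (.nil)))))))))))))))))) (.tok (nat_lit 64) (nat_lit 0x5e0000bc00017f56ab00b2e) (.hit (nat_lit 176) (nat_lit 0) (nat_lit 0x5e0000bc00017f475b00880) b55715 (.tok (nat_lit 6) (nat_lit 0x5e0000bc00017f177affdf8) (.hit (nat_lit 177) (nat_lit 7) (nat_lit 0x5e0000bc00017ea582ff811) b55716 (.hit (nat_lit 178) (nat_lit 15) (nat_lit 0x5e0000bc00017f177affdf8) b55717 (.nil))) (.tok (nat_lit 9) (nat_lit 0x5e0000bc00017f56ab00b2e) (.hit (nat_lit 179) (nat_lit 20) (nat_lit 0x5e0000bc00017f56ab00b2e) b55718 (.hit (nat_lit 180) (nat_lit 28) (nat_lit 0x5e0000bc00017ed5a2ffb9d) b55719 (.nil))) (.nil)))) (.tok (nat_lit 67) (nat_lit 0x5e0000bc00017f708b00798) (.hit (nat_lit 201) (nat_lit 0) (nat_lit 0x5e0000bc00017f708affb21) b55728 (.tok (nat_lit 3) (nat_lit 0x5e0000bc00017ed83affe68)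 (.hit (nat_lit 202) (nat_lit 1) (nat_lit 0x5e0000bc00017e6e12ff123) b55729 (.one (nat_lit 55) (nat_lit 203) (nat_lit 3) (nat_lit 0x5e0000bc00017ed83affe68) b55730 (.nil))) (.tok (nat_lit 9) (nat_lit 0x5e0000bc00017f21bb00798) (.hit (nat_lit 204) (nat_lit 20) (nat_lit 0x5e0000bc00017e550afee02) b55731 (.hit (nat_lit 207) (nat_lit 28) (nat_lit 0x5e0000bc00017e6eaaff136) b55734 (.tok (nat_lit 67) (nat_lit 0x5e0000bc00017f21bb00798) (.hit (nat_lit 205) (nat_lit 21) (nat_lit 0x5e0000bc00017ed102ffd81) b55732 (.hit (nat_lit 208) (nat_lit 29) (nat_lit 0x5e0000bc00017ee65b0002c) b55735 (.one (nat_lit 9) (nat_lit 206) (nat_lit 22) (nat_lit 0x5e0000bc00017f21bb00798) b55733 (.nil)))) (.nil)))) (.nil)))) (.tok (nat_lit 70) (nat_lit 0x5e0000bc000180000302361) (.hit (nat_lit 187) (nat_lit 0) (nat_lit 0x5e0000bc00017f084aff869) b55720 (.tok (nat_lit 3) (nat_lit 0x5e0000bc00017f3bab00ad6) (.hit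 (nat_lit 188) (nat_lit 1) (nat_lit 0x5e0000bc00017e7772ff24f) b55721 (.one (nat_lit 67) (nat_lit 189) (nat_lit 2) (nat_lit 0x5e0000bc00017f3bab00ad6) b55722 (.nil))) (.tok (nat_lit 6) (nat_lit 0x5e0000bc000180000302361) (.hit (nat_lit 190) (nat_lit 7) (nat_lit 0x5e0000bc00017eb25aff9ac) b55723 (.hit (nat_lit 193) (nat_lit 15) (nat_lit 0x5e0000bc00017e6812ff063) b55726 (.tok (nat_lit 55) (nat_lit 0x5e0000bc000180000302361) (.hit (nat_lit 191) (nat_lit 8) (nat_lit 0x5e0000bc00017f178300651) b55724 (.hit (nat_lit 194) (nat_lit 16) (nat_lit 0x5e0000bc00017f360b00a22) b55727 (.one (nat_lit 6) (nat_lit 192) (nat_lit 9) (nat_lit 0x5e0000bc000180000302361) b55725 (.nil)))) (.nil)))) (.nil)))) (.nil))))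
noncomputable def r80_8 : Rw Blk := .tok (nat_lit 3) (nat_lit 0x5e0000bc000180b553022c4) (.hit (nat_lit 15) (nat_lit 0) (nat_lit 0x5e0000bc00017f198afee2a) b55747 (.tok (nat_lit 6) (nat_lit 0x5e0000bc00017ebe9afe519) (.hit (nat_lit 16) (nat_lit 7) (nat_lit 0x5e0000bc00017e0ff2fcf44) b55748 (.hit (nat_lit 21) (nat_lit 15) (nat_lit 0x5e0000bc00017d0a2afae8b) b55751 (.tok (nat_lit 56) (nat_lit 0x5e0000bc00017ebe9afe519) (.hit (nat_lit 19) (nat_lit 13) (nat_lit 0x5e0000bc00017e6d2afdaeb) b55749 (.hit (nat_lit 24) (nat_lit 19) (nat_lit 0x5e0000bc00017e2df2fd304) b55753 (.one (nat_lit 6) (nat_lit 20) (nat_lit 14) (nat_lit 0x5e0000bc00017ebe9afe519) b55750 (.nil)))) (.one (nat_lit 68) (nat_lit 23) (nat_lit 18) (nat_lit 0x5e0000bc00017e51eafd783) b55752 (.nil))))) (.tok (nat_lit 52) (nat_lit 0x5e0000bc00017ea0fafe165) (.hit (nat_lit 25) (nat_lit 39) (nat_lit 0x5e0000bc00017ea0fafe165)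 b55754 (.hit (nat_lit 26) (nat_lit 40) (nat_lit 0x5e0000bc00017e7dc2fdcfe) b55755 (.nil))) (.tok (nat_lit 55) (nat_lit 0x5e0000bc000180b553022c4) (.hit (nat_lit 27) (nat_lit 41) (nat_lit 0x5e0000bc000180b553022c4) b55756 (.one (nat_lit 3) (nat_lit 33) (nat_lit 47) (nat_lit 0x5e0000bc00017eda22fe88a) b55762 (.tok (nat_lit 6) (nat_lit 0x5e0000bc00017f0dfafef05) (.hit (nat_lit 28) (nat_lit 42) (nat_lit 0x5e0000bc00017e8ca2fdeda) b55757 (.hit (nat_lit 31) (nat_lit 45) (nat_lit 0x5e0000bc00017e7812fdc48) b55760 (.tok (nat_lit 55) (nat_lit 0x5e0000bc00017f0dfafef05) (.hit (nat_lit 29) (nat_lit 43) (nat_lit 0x5e0000bc00017f0dfafef05) b55758 (.hit (nat_lit 32) (nat_lit 46) (nat_lit 0x5e0000bc00017ed842fe84e) b55761 (.one (nat_lit 6) (nat_lit 30) (nat_lit 44) (nat_lit 0x5e0000bc00017e992afe06b) b55759 (.nil)))) (.nil)))) (.nil)))) (.one (nat_lit 58) (nat_lit 35) (nat_lit 49) (nat_lit 0x5e0000bc00017efcaafecdb)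 b55763 (.nil)))))) (.tok (nat_lit 9) (nat_lit 0x5e0000bc000181539302f28) (.hit (nat_lit 0) (nat_lit 0) (nat_lit 0x5e0000bc00017f749aff622) b55736 (.tok (nat_lit 9) (nat_lit 0x5e0000bc00017f5202fea49) (.hit (nat_lit 1) (nat_lit 20) (nat_lit 0x5e0000bc00017f20e2fe721) b55737 (.hit (nat_lit 4) (nat_lit 28) (nat_lit 0x5e0000bc00017e61dafcfad) b55738 (.one (nat_lit 56) (nat_lit 6) (nat_lit 31) (nat_lit 0x5e0000bc00017f5202fea49) b55739 (.nil)))) (.tok (nat_lit 64) (nat_lit 0x5e0000bc0001800f0b00349) (.hit (nat_lit 7) (nat_lit 50) (nat_lit 0x5e0000bc0001800f0b00349) b55740 (.hit (nat_lit 8) (nat_lit 51) (nat_lit 0x5e0000bc00017f6342fec68) b55741 (.nil))) (.tok (nat_lit 67) (nat_lit 0x5e0000bc000181539302f28) (.hit (nat_lit 9) (nat_lit 52) (nat_lit 0x5e0000bc000181539302f28) b55742 (.one (nat_lit 3) (nat_lit 12) (nat_lit 58) (nat_lit 0x5e0000bc00017fd7b2ffe81) b55745 (.tok (nat_lit 9)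 (nat_lit 0x5e0000bc000180345b0074e) (.hit (nat_lit 10) (nat_lit 53) (nat_lit 0x5e0000bc000180345b0074e) b55743 (.hit (nat_lit 11) (nat_lit 56) (nat_lit 0x5e0000bc00017fc092ff81b) b55744 (.nil))) (.nil)))) (.one (nat_lit 70) (nat_lit 14) (nat_lit 60) (nat_lit 0x5e0000bc00017f184afec98) b55746 (.nil)))))) (.nil))
noncomputable def r80_9 : Rw Blk := .tok (nat_lit 3) (nat_lit 0x17faffafe5bb5fe928bfe04d7ffadaff5fa600000bfc2397fa362ff4485ff802bfe1517fecbaffbc4) (.hit (nat_lit 0) (nat_lit 0) (nat_lit 0x17e8aaafca0a5fa42abf79ed7ebf52fdd0d5fb0cabf59f97ed89afcfd95fb0a6bf79f57f1072fde6b) b55764 (.tok (nat_lit 9) (nat_lit 0x17e91dafc71b5fd9c4bf9b217ef40afe3515fb3e0bf62ed7ec34afd6425fb938bf89817f3acafeba1) (.hit (nat_lit 10) (nat_lit 20) (nat_lit 0x17def12fb2c25fae68bf49bd7e5142fcef85f8b2ebf11897e2082fc1e95f9086bf23557e586afdb52) b55765 (.hit (nat_lit 15) (nat_lit 28) (nat_lit 0x17ddb9afb0535f977cbf40017e3dcafcc895f8650bf07cd7e0d0afbf7a5f8ba8bf60597ee75afdbb4)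 b55770 (.tok (nat_lit 14) (nat_lit 0x17e86f2fc5be5fd240bf95ad7ee922fe1f45fb126bf5d797eb862fd4e55fb67ebf89817f3acafeba1) (.hit (nat_lit 11) (nat_lit 24) (nat_lit 0x17e23f2fb95e5fbe86bf642d7e8622fd5945f9866bf2bf97e5562fc8855f9dbebf3dc57e8d4afe002) b55766 (.hit (nat_lit 16) (nat_lit 30) (nat_lit 0x17e1c0afb8615fa9e4bf60397e7e3afd4975f966cbf28057e4d7afc7885f9bc4bf89817f3acafe4fb) b55771 (.one (nat_lit 6) (nat_lit 12) (nat_lit 25) (nat_lit 0x17e86f2fc5be5fd240bf95ad7ee922fe1f45fb126bf5d797eb862fd4e55fb67ebf6f457ef04afeba1) b55767 (.nil)))) (.tok (nat_lit 68) (nat_lit 0x17e91dafc71b5fd9c4bf9b217ef40afe3515fb3e0bf62ed7ec34afd6425fb938bf77257f160afea39) (.hit (nat_lit 13) (nat_lit 26) (nat_lit 0x17e509afbef35fc308bf7a817eb2cafdb295fa390bf424d7e820afce1a5fa8e8bf54197eb9f2fe707) b55768 (.hit (nat_lit 18) (nat_lit 32) (nat_lit 0x17e2fbafbad75fad10bf6a117e91eafd70d5f9b58bf31dd7e612afc9fe5fa0b0bf77257f160afdf44)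 b55772 (.one (nat_lit 9) (nat_lit 14) (nat_lit 27) (nat_lit 0x17e91dafc71b5fd9c4bf9b217ef40afe3515fb3e0bf62ed7ec34afd6425fb938bf74b97efb32fea39) b55769 (.nil)))) (.nil))))) (.tok (nat_lit 64) (nat_lit 0x17e3b8afbc515fbab2bf6ff97e9dbafd8875f9e4cbf37c57e6cfafcb785fa3a4bf8f7d7f4f1afe556) (.hit (nat_lit 30) (nat_lit 50) (nat_lit 0x17e223afb9275fa034bf63517e846afd55d5f97f8bf2b1d7e53aafc84e5f9d50bf8a557f3c8afe40c) b55773 (.hit (nat_lit 31) (nat_lit 51) (nat_lit 0x17e3b8afbc515fbab2bf6ff97e9dbafd8875f9e4cbf37c57e6cfafcb785fa3a4bf8f7d7f4f1afe556) b55774 (.nil))) (.tok (nat_lit 67) (nat_lit 0x17faffafe5bb5fe928bfe04d7ffadaff5fa600000bfc2397fa362ff4485ff802bfe1517fecbaffbc4) (.hit (nat_lit 32) (nat_lit 52) (nat_lit 0x17faffafe2a85fe578bfc73d7ffadaff071600000bfc2397fa362ff4485ff802bfe1517fecbaffbc4) b55775 (.tok (nat_lit 3) (nat_lit 0x17ec082fccf05fe928bfb2757f22b2fe9265fbf8abf7a417ef1f2fdc175fc4e2bf8c0d7f29daffa57)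 (.hit (nat_lit 38) (nat_lit 58) (nat_lit 0x17e834afc5495fd040bf93d97ee57afe17f5fb03cbf5ba57eb4bafd4705fb594bf6d717eeca2fefec) b55781 (.one (nat_lit 55) (nat_lit 39) (nat_lit 59) (nat_lit 0x17ec082fccf05fe928bfb2757f22b2fe9265fbf8abf7a417ef1f2fdc175fc4e2bf8c0d7f29daffa57) b55782 (.nil))) (.tok (nat_lit 9) (nat_lit 0x17f4a5afe5bb5fda54bfe04d7fae2aff5fa5fcd8cbf96457f29fafe3185fd2e4bfa8117f61e2ff67e) (.hit (nat_lit 33) (nat_lit 53) (nat_lit 0x17ed932fd5cc5fc9f2bfc3657f5b4afef755fba8abf70417eddf2fd9975fbfe2bf820d7f15dafef5e) b55776 (.hit (nat_lit 36) (nat_lit 56) (nat_lit 0x17e8612fc5a25fc7dabf953d7ee842fe1d85fb0eebf5d097eb782fd4c95fb646bf6ed57eef6afee13) b55779 (.tok (nat_lit 67) (nat_lit 0x17f4a5afe5bb5fda54bfe04d7fae2aff5fa5fcd8cbf96457f29fafe3185fd2e4bfa8117f61e2ff67e) (.hit (nat_lit 34) (nat_lit 54) (nat_lit 0x17f4a5afe5bb5fcbdebfe04d7fae2aff5fa5fcd8cbf96457f29fafe3185fd2e4bfa8117f61e2ff32a)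 b55777 (.hit (nat_lit 37) (nat_lit 57) (nat_lit 0x17eda62fd02c5fda54bfbf657f3c92fec625fc602bf87317f0bd2fdf535fcb5abf98fd7f43baff67e) b55780 (.one (nat_lit 9) (nat_lit 35) (nat_lit 55) (nat_lit 0x17ecdaafce955fca10bfb9097f2fdafeacb5fc2d4bf80d57eff1afddbc5fc82cbf92a17f3702ff17e) b55778 (.nil)))) (.nil)))) (.nil)))) (.one (nat_lit 70) (nat_lit 40) (nat_lit 60) (nat_lit 0x17e7d0afc4815fc82abf90b97edf3afe0b75faeacbf58857eae7afd3a85fb404bfcc597fc8c2ff48b) b55783 (.nil)))))) (.tok (nat_lit 6) (nat_lit 0x180000300000600000c00001800003000005ffa54c0000180000300000600000c0000180000300000) (.hit (nat_lit 81) (nat_lit 0) (nat_lit 0x17f2cd2fe49c5fbbe6bfbc097f4aeafed925fdc58bf97b17f4572fe7ab5fd978bfa7717f6bcafe876) b55784 (.tok (nat_lit 6) (nat_lit 0x180000300000600000c00001800003000005ffa54c0000180000300000600000c0000180000300000) (.hit (nat_lit 87) (nat_lit 7) (nat_lit 0x17ede92fd8a35fac06bf76857f0c7afdd135fb052bf79757ed4fafd3b25fb26ebf5c8d7ebdeafdc77)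 b55785 (.hit (nat_lit 95) (nat_lit 15) (nat_lit 0x17e71b2fbe235fa61abf10457ea25afc1c55f9286bf39197e7e52fdb415fbc3abf69857ed91afda2a) b55790 (.tok (nat_lit 14) (nat_lit 0x180000300000600000c00001800003000005ffa54c0000180000300000600000c0000180000300000) (.hit (nat_lit 91) (nat_lit 11) (nat_lit 0x17fe562ffbb45ffd5cbffb897fcf02fffed5ffa54bff6b17fdde2ff7bf5ff404bfe9717fda52ffd78) b55786 (.hit (nat_lit 97) (nat_lit 17) (nat_lit 0x17f5592fd9c95fe632bf82b17f833afde415fc796bf97717f5a7aff19a5fe91cbfc8717f867afeb4f) b55791 (.one (nat_lit 9) (nat_lit 92) (nat_lit 12) (nat_lit 0x180000300000600000c00001800003000005ff62ec0000180000300000600000c0000180000300000) b55787 (.nil)))) (.tok (nat_lit 56) (nat_lit 0x17fab12ff6e55fe072bfdb897f8f5aff8615fd81cbfbc297fa47afe9e85fd536bfb03d7f6c42ffda8) (.hit (nat_lit 93) (nat_lit 13) (nat_lit 0x17fab12fef765fdf16bfdb897f8f5aff8615fd81cbfbc297f7ecafe9e85fd536bfb03d7f6c42ff00f)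 b55788 (.hit (nat_lit 99) (nat_lit 19) (nat_lit 0x17f18eafd30e5fb962bf64897f4642fd6ac5fb834bf790d7f123afe3be5fca96bf8e997f2ca2fe23b) b55793 (.one (nat_lit 6) (nat_lit 94) (nat_lit 14) (nat_lit 0x17f5baaff6e55fe072bfbd297f724afebd35fccfabfaad97fa47afe3fd5fcbf2bf9dad7f49d2ffda8) b55789 (.nil)))) (.one (nat_lit 68) (nat_lit 98) (nat_lit 18) (nat_lit 0x17f166afd38d5fc92abf66b17f4c92fd7415fb96ebf7b6d7eff6afee525fe5d4bfa01d7f5e8afe71a) b55792 (.nil)))))) (.nil))) (.nil))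
noncomputable def r80_10 : Rw Blk := .tok (nat_lit 9) (nat_lit 0x5e0000bc00017f9b92ff492) (.hit (nat_lit 0) (nat_lit 0) (nat_lit 0x5e0000bc00017ee012fe310) b55794 (.tok (nat_lit 14) (nat_lit 0x5e0000bc00017f3e4afe92f) (.hit (nat_lit 11) (nat_lit 61) (nat_lit 0x5e0000bc00017f3e4afe5db) b55795 (.one (nat_lit 3) (nat_lit 12) (nat_lit 62) (nat_lit 0x5e0000bc00017f31a2fdc43) b55796 (.tok (nat_lit 6) (nat_lit 0x5e0000bc00017f2252fe92f) (.hit (nat_lit 15) (nat_lit 65) (nat_lit 0x5e0000bc00017f2252fe92f) b55799 (.hit (nat_lit 16) (nat_lit 66) (nat_lit 0x5e0000bc00017ef67afe50d) b55800 (.nil))) (.tok (nat_lit 9) (nat_lit 0x5e0000bc00017eeb42fe517) (.hit (nat_lit 13) (nat_lit 63) (nat_lit 0x5e0000bc00017e9972fe517) b55797 (.hit (nat_lit 14) (nat_lit 64) (nat_lit 0x5e0000bc00017eeb42fe359) b55798 (.nil))) (.nil))))) (.one (nat_lit 17) (nat_lit 17) (nat_lit 67) (nat_lit 0x5e0000bc00017ee172fd1b2)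 b55801 (.tok (nat_lit 20) (nat_lit 0x5e0000bc00017ed752fd11e) (.hit (nat_lit 18) (nat_lit 68) (nat_lit 0x5e0000bc00017df9aafd11e) b55802 (.hit (nat_lit 19) (nat_lit 69) (nat_lit 0x5e0000bc00017ed752fd01e) b55803 (.nil))) (.tok (nat_lit 23) (nat_lit 0x5e0000bc00017f89fafed35) (.hit (nat_lit 20) (nat_lit 70) (nat_lit 0x5e0000bc00017f89fafed35) b55804 (.hit (nat_lit 21) (nat_lit 71) (nat_lit 0x5e0000bc00017eeceafd01e) b55805 (.nil))) (.one (nat_lit 26) (nat_lit 22) (nat_lit 72) (nat_lit 0x5e0000bc00017e5f62fbdae) b55806 (.one (nat_lit 29) (nat_lit 23) (nat_lit 73) (nat_lit 0x5e0000bc00017e5882fc0c0) b55807 (.one (nat_lit 32) (nat_lit 24) (nat_lit 74) (nat_lit 0x5e0000bc00017ea122fc39d) b55808 (.one (nat_lit 35) (nat_lit 25) (nat_lit 75) (nat_lit 0x5e0000bc00017e4caafc39d) b55809 (.one (nat_lit 38) (nat_lit 26) (nat_lit 76) (nat_lit 0x5e0000bc00017ed3aafd1f2) b55810 (.tok (nat_lit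 41) (nat_lit 0x5e0000bc00017ee8fafca84) (.hit (nat_lit 27) (nat_lit 77) (nat_lit 0x5e0000bc00017ea56afc1af) b55811 (.hit (nat_lit 28) (nat_lit 78) (nat_lit 0x5e0000bc00017ee8fafca84) b55812 (.nil))) (.tok (nat_lit 44) (nat_lit 0x5e0000bc00017efe42fccc4) (.hit (nat_lit 29) (nat_lit 79) (nat_lit 0x5e0000bc00017d532afbc4e) b55813 (.hit (nat_lit 30) (nat_lit 80) (nat_lit 0x5e0000bc00017efe42fccc4) b55814 (.nil))) (.tok (nat_lit 47) (nat_lit 0x5e0000bc00017efb6afcd66) (.hit (nat_lit 31) (nat_lit 81) (nat_lit 0x5e0000bc00017efb6afcd66) b55815 (.hit (nat_lit 32) (nat_lit 82) (nat_lit 0x5e0000bc00017e9972fc6f2) b55816 (.nil))) (.one (nat_lit 62) (nat_lit 42) (nat_lit 92) (nat_lit 0x5e0000bc00017ed40afcb60) b55817 (.tok (nat_lit 65) (nat_lit 0x5e0000bc00017edb3afd3f0) (.hit (nat_lit 43) (nat_lit 93) (nat_lit 0x5e0000bc00017e11aafd3f0) b55818 (.hit (nat_lit 44) (nat_lit 94) (nat_lit 0x5e0000bc00017edb3afcd01)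 b55819 (.nil))) (.tok (nat_lit 68) (nat_lit 0x5e0000bc00017f9b92ff492) (.hit (nat_lit 45) (nat_lit 95) (nat_lit 0x5e0000bc00017f96daff3f5) b55820 (.one (nat_lit 3) (nat_lit 49) (nat_lit 99) (nat_lit 0x5e0000bc00017f9b92feaf2) b55824 (.one (nat_lit 6) (nat_lit 46) (nat_lit 96) (nat_lit 0x5e0000bc00017f450aff492) b55821 (.tok (nat_lit 9) (nat_lit 0x5e0000bc00017f57b2fe1c4) (.hit (nat_lit 47) (nat_lit 97) (nat_lit 0x5e0000bc00017f57b2fe1c4) b55822 (.hit (nat_lit 48) (nat_lit 98) (nat_lit 0x5e0000bc00017eff52fd4ae) b55823 (.nil))) (.nil))))) (.one (nat_lit 71) (nat_lit 50) (nat_lit 100) (nat_lit 0x5e0000bc00017e9ff2fc1c1) b55825 (.nil)))))))))))))))))) (.tok (nat_lit 64) (nat_lit 0x5e0000bc000180000301275) (.hit (nat_lit 180) (nat_lit 0) (nat_lit 0x5e0000bc00017fe76301275) b55826 (.tok (nat_lit 6) (nat_lit 0x5e0000bc00017f1d4aff88c) (.hit (nat_lit 181) (nat_lit 7) (nat_lit 0x5e0000bc00017e6ec2ff0f7)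 b55827 (.hit (nat_lit 182) (nat_lit 15) (nat_lit 0x5e0000bc00017f1d4aff88c) b55828 (.nil))) (.tok (nat_lit 9) (nat_lit 0x5e0000bc000180000300e08) (.hit (nat_lit 183) (nat_lit 20) (nat_lit 0x5e0000bc000180000300e08) b55829 (.hit (nat_lit 184) (nat_lit 28) (nat_lit 0x5e0000bc00017f4752ffa92) b55830 (.nil))) (.nil)))) (.tok (nat_lit 67) (nat_lit 0x5e0000bc00017f661b005f0) (.hit (nat_lit 205) (nat_lit 0) (nat_lit 0x5e0000bc00017f661aff207) b55836 (.tok (nat_lit 3) (nat_lit 0x5e0000bc00017f168b005f0) (.hit (nat_lit 206) (nat_lit 1) (nat_lit 0x5e0000bc00017e3e12feae1) b55837 (.one (nat_lit 55) (nat_lit 207) (nat_lit 3) (nat_lit 0x5e0000bc00017f168b005f0) b55838 (.nil))) (.tok (nat_lit 9) (nat_lit 0x5e0000bc00017ed372ffd8d) (.hit (nat_lit 208) (nat_lit 20) (nat_lit 0x5e0000bc00017e6e2aff0e4) b55839 (.hit (nat_lit 211) (nat_lit 28) (nat_lit 0x5e0000bc00017e357afe9ce) b55842 (.tok (nat_lit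 67) (nat_lit 0x5e0000bc00017ed372ffd8d) (.hit (nat_lit 209) (nat_lit 21) (nat_lit 0x5e0000bc00017e8cc2ff4b7) b55840 (.hit (nat_lit 212) (nat_lit 29) (nat_lit 0x5e0000bc00017ed372ffd8d) b55843 (.one (nat_lit 9) (nat_lit 210) (nat_lit 22) (nat_lit 0x5e0000bc00017ebf22ffb03) b55841 (.nil)))) (.nil)))) (.nil)))) (.tok (nat_lit 70) (nat_lit 0x5e0000bc00017fb04b00c74) (.hit (nat_lit 191) (nat_lit 0) (nat_lit 0x5e0000bc00017fb04aff813) b55831 (.tok (nat_lit 3) (nat_lit 0x5e0000bc00017f4aab00c74) (.hit (nat_lit 192) (nat_lit 1) (nat_lit 0x5e0000bc00017e3ac2fea77) b55832 (.one (nat_lit 67) (nat_lit 193) (nat_lit 2) (nat_lit 0x5e0000bc00017f4aab00c74) b55833 (.nil))) (.tok (nat_lit 6) (nat_lit 0x5e0000bc00017ea44aff7a8) (.hit (nat_lit 194) (nat_lit 7) (nat_lit 0x5e0000bc00017ea44aff7a8) b55834 (.hit (nat_lit 197) (nat_lit 15) (nat_lit 0x5e0000bc00017e6a32ff065) b55835 (.nil))) (.nil))))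 (.nil))))
noncomputable def r80_11 : Rw Blk := .tok (nat_lit 3) (nat_lit 0x5e0000bc0001803b5b00ada) (.hit (nat_lit 15) (nat_lit 0) (nat_lit 0x5e0000bc00017f2022ff665) b55859 (.tok (nat_lit 6) (nat_lit 0x5e0000bc00017e5482fe641) (.hit (nat_lit 16) (nat_lit 7) (nat_lit 0x5e0000bc00017df90afdad2) b55860 (.hit (nat_lit 21) (nat_lit 15) (nat_lit 0x5e0000bc00017d3afafc310) b55863 (.tok (nat_lit 14) (nat_lit 0x5e0000bc00017e5482fe641) (.hit (nat_lit 17) (nat_lit 11) (nat_lit 0x5e0000bc00017de34afd81a) b55861 (.hit (nat_lit 22) (nat_lit 17) (nat_lit 0x5e0000bc00017e3e02fe371) b55864 (.one (nat_lit 9) (nat_lit 18) (nat_lit 12) (nat_lit 0x5e0000bc00017e5482fe641) b55862 (.nil)))) (.one (nat_lit 68) (nat_lit 23) (nat_lit 18) (nat_lit 0x5e0000bc00017e3052fe1bb) b55865 (.nil))))) (.tok (nat_lit 52) (nat_lit 0x5e0000bc00017e968afee82) (.hit (nat_lit 25) (nat_lit 39) (nat_lit 0x5e0000bc00017e2d5afe15c)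 b55866 (.hit (nat_lit 26) (nat_lit 40) (nat_lit 0x5e0000bc00017e968afee82) b55867 (.nil))) (.tok (nat_lit 55) (nat_lit 0x5e0000bc0001803b5b00ada) (.hit (nat_lit 27) (nat_lit 41) (nat_lit 0x5e0000bc0001803b5b00ada) b55868 (.tok (nat_lit 3) (nat_lit 0x5e0000bc00017ed84aff6ba) (.hit (nat_lit 33) (nat_lit 47) (nat_lit 0x5e0000bc00017e9752fee9b) b55871 (.one (nat_lit 67) (nat_lit 34) (nat_lit 48) (nat_lit 0x5e0000bc00017ed84aff6ba) b55872 (.nil))) (.tok (nat_lit 6) (nat_lit 0x5e0000bc00017e7602fea71) (.hit (nat_lit 28) (nat_lit 42) (nat_lit 0x5e0000bc00017e5c4afe73a) b55869 (.hit (nat_lit 31) (nat_lit 45) (nat_lit 0x5e0000bc00017e7602fea71) b55870 (.nil))) (.nil)))) (.one (nat_lit 58) (nat_lit 35) (nat_lit 49) (nat_lit 0x5e0000bc00017e8db2fed67) b55873 (.nil)))))) (.tok (nat_lit 9) (nat_lit 0x5e0000bc000180d93b035cc) (.hit (nat_lit 0) (nat_lit 0) (nat_lit 0x5e0000bc00017fbec300c2b)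 b55844 (.tok (nat_lit 9) (nat_lit 0x5e0000bc000180098300d76) (.hit (nat_lit 1) (nat_lit 20) (nat_lit 0x5e0000bc00017f0a62fecdf) b55845 (.hit (nat_lit 4) (nat_lit 28) (nat_lit 0x5e0000bc00017eaefafdd88) b55848 (.tok (nat_lit 14) (nat_lit 0x5e0000bc000180098300d76) (.hit (nat_lit 2) (nat_lit 24) (nat_lit 0x5e0000bc00017fda0b00d2a) b55846 (.hit (nat_lit 5) (nat_lit 30) (nat_lit 0x5e0000bc00017f04fafe65f) b55849 (.one (nat_lit 6) (nat_lit 3) (nat_lit 25) (nat_lit 0x5e0000bc000180098300d76) b55847 (.nil)))) (.one (nat_lit 56) (nat_lit 6) (nat_lit 31) (nat_lit 0x5e0000bc00017fb0daff820) b55850 (.nil))))) (.tok (nat_lit 64) (nat_lit 0x5e0000bc00018051c30189e) (.hit (nat_lit 7) (nat_lit 50) (nat_lit 0x5e0000bc0001800d6b0189e) b55851 (.hit (nat_lit 8) (nat_lit 51) (nat_lit 0x5e0000bc00018051c301620) b55852 (.nil))) (.tok (nat_lit 67) (nat_lit 0x5e0000bc00018058f301ab9) (.hit (nat_lit 9)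 (nat_lit 52) (nat_lit 0x5e0000bc000180289b01811) b55853 (.tok (nat_lit 3) (nat_lit 0x5e0000bc00018058f301ab9) (.hit (nat_lit 12) (nat_lit 58) (nat_lit 0x5e0000bc00017fec5b01140) b55856 (.one (nat_lit 55) (nat_lit 13) (nat_lit 59) (nat_lit 0x5e0000bc00018058f301ab9) b55857 (.nil))) (.tok (nat_lit 9) (nat_lit 0x5e0000bc00017fc903007e0) (.hit (nat_lit 10) (nat_lit 53) (nat_lit 0x5e0000bc00017f5e93007e0) b55854 (.hit (nat_lit 11) (nat_lit 56) (nat_lit 0x5e0000bc00017fc903003f7) b55855 (.nil))) (.nil)))) (.one (nat_lit 70) (nat_lit 14) (nat_lit 60) (nat_lit 0x5e0000bc000180d93b035cc) b55858 (.nil)))))) (.nil))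
noncomputable def r80_12 : Rw Blk := .tok (nat_lit 6) (nat_lit 0x1780002f0000600000c062e180c89300dff) (.hit (nat_lit 0) (nat_lit 0) (nat_lit 0x1780002f00005fb17abf81c17ef922fdf92) b55874 (.tok (nat_lit 14) (nat_lit 0x1780002f00005ffa7cbfce217f6f52ff680) (.hit (nat_lit 21) (nat_lit 61) (nat_lit 0x1780002f00005fe1dcbf89417f1f8afeb49) b55875 (.one (nat_lit 3) (nat_lit 22) (nat_lit 62) (nat_lit 0x1780002f00005fea86bf7d757ed09afefc1) b55876 (.tok (nat_lit 6) (nat_lit 0x1780002f00005fc190bf93417efeaafe4d6) (.hit (nat_lit 25) (nat_lit 65) (nat_lit 0x1780002f00005f7adcbf72097ee23afdbff) b55879 (.hit (nat_lit 26) (nat_lit 66) (nat_lit 0x1780002f00005fc190bf93417efeaafe4d6) b55880 (.nil))) (.tok (nat_lit 9) (nat_lit 0x1780002f00005ffa7cbfce217f6f52ff680) (.hit (nat_lit 23) (nat_lit 63) (nat_lit 0x1780002f00005ffa7cbfce217f6f52ff680) b55877 (.hit (nat_lit 24) (nat_lit 64) (nat_lit 0x1780002f00005fbe8ebf6b417ed4aafda4d)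 b55878 (.nil))) (.nil))))) (.one (nat_lit 17) (nat_lit 27) (nat_lit 67) (nat_lit 0x1780002f00005fd004bf6bd17ec0fafdcdd) b55881 (.tok (nat_lit 20) (nat_lit 0x1780002f0000600000c062e180c89300dff) (.hit (nat_lit 28) (nat_lit 68) (nat_lit 0x1780002f0000600000c062e180c89300dff) b55882 (.hit (nat_lit 29) (nat_lit 69) (nat_lit 0x1780002f00005fb608bf3f617e7f0afd240) b55883 (.nil))) (.tok (nat_lit 23) (nat_lit 0x1780002f00005fb044bf3a457e5c52fd013) (.hit (nat_lit 30) (nat_lit 70) (nat_lit 0x1780002f00005f5962bf2f157e5c52fcb42) b55884 (.hit (nat_lit 31) (nat_lit 71) (nat_lit 0x1780002f00005fb044bf3a457e5b52fd013) b55885 (.nil))) (.one (nat_lit 38) (nat_lit 36) (nat_lit 76) (nat_lit 0x1780002f00005fad1ebf375d7e6ce2fcde9) b55886 (.tok (nat_lit 41) (nat_lit 0x1780002f00005fa504bf45d17e8c12fd628) (.hit (nat_lit 37) (nat_lit 77) (nat_lit 0x1780002f00005f9866bf07697df3a2fc79b) b55887 (.hit (nat_lit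 38) (nat_lit 78) (nat_lit 0x1780002f00005fa504bf45d17e8c12fd628) b55888 (.nil))) (.tok (nat_lit 44) (nat_lit 0x1780002f00005fc3d4bf66297ebd3afde90) (.hit (nat_lit 39) (nat_lit 79) (nat_lit 0x1780002f00005fc3d4bf66297ebd3afde90) b55889 (.hit (nat_lit 40) (nat_lit 80) (nat_lit 0x1780002f00005fac58bf057d7e11f2fcd19) b55890 (.nil))) (.tok (nat_lit 47) (nat_lit 0x1780002f00005fd746bf5e457ea8b2fe274) (.hit (nat_lit 41) (nat_lit 81) (nat_lit 0x1780002f00005f4a90bf11717e210afc3d9) b55891 (.hit (nat_lit 42) (nat_lit 82) (nat_lit 0x1780002f00005fd746bf5e457ea8b2fe274) b55892 (.nil))) (.one (nat_lit 50) (nat_lit 43) (nat_lit 83) (nat_lit 0x1780002f00005fbfbabf3d657e762afd63f) b55893 (.tok (nat_lit 53) (nat_lit 0x1780002f00005fd5a6bf921d7f2a0afee84) (.hit (nat_lit 44) (nat_lit 84) (nat_lit 0x1780002f00005fd5a6bf921d7f2a0afee84) b55894 (.hit (nat_lit 45) (nat_lit 85) (nat_lit 0x1780002f00005fbd8abf490d7e891afd91f)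 b55895 (.nil))) (.tok (nat_lit 56) (nat_lit 0x1780002f00005fe00ebfe9217fb262fefed) (.hit (nat_lit 46) (nat_lit 86) (nat_lit 0x1780002f00005fd992bfa8b57f513afe5a3) b55896 (.one (nat_lit 3) (nat_lit 50) (nat_lit 90) (nat_lit 0x1780002f00005fc096bf80a57efa5afd709) b55900 (.tok (nat_lit 6) (nat_lit 0x1780002f00005fd978bf7f357f0092fe9a9) (.hit (nat_lit 48) (nat_lit 88) (nat_lit 0x1780002f00005fd978bf7f357f0092fe9a9) b55898 (.hit (nat_lit 49) (nat_lit 89) (nat_lit 0x1780002f00005fcdaabf58957ea012fdf1e) b55899 (.nil))) (.one (nat_lit 9) (nat_lit 47) (nat_lit 87) (nat_lit 0x1780002f00005fe00ebfe9217fb262fefed) b55897 (.nil))))) (.one (nat_lit 59) (nat_lit 51) (nat_lit 91) (nat_lit 0x1780002f00005fb452bf26c97e4432fd019) b55901 (.one (nat_lit 62) (nat_lit 52) (nat_lit 92) (nat_lit 0x1780002f00005fa1f4bf20817e3f2afc87f) b55902 (.tok (nat_lit 65) (nat_lit 0x1780002f00005fb994bf39d57e6512fd49f)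 (.hit (nat_lit 53) (nat_lit 93) (nat_lit 0x1780002f00005fb994bf35717e5332fd49f) b55903 (.hit (nat_lit 54) (nat_lit 94) (nat_lit 0x1780002f00005f8f2cbf39d57e6512fcd40) b55904 (.nil))) (.tok (nat_lit 68) (nat_lit 0x1780002f00005f9ee2bf84e97ef45afdf2d) (.hit (nat_lit 55) (nat_lit 95) (nat_lit 0x1780002f00005f9ee2bf84e97ef45afdf2d) b55905 (.one (nat_lit 3) (nat_lit 59) (nat_lit 99) (nat_lit 0x1780002f00005f5868bf2d217e586afcac5) b55909 (.one (nat_lit 6) (nat_lit 56) (nat_lit 96) (nat_lit 0x1780002f00005f60aebf3dad7e7982fcee8) b55906 (.tok (nat_lit 9) (nat_lit 0x1780002f00005f7c86bf755d7ee8e2fdcd4) (.hit (nat_lit 57) (nat_lit 97) (nat_lit 0x1780002f00005f7c86bf755d7ee8e2fdcd4) b55907 (.hit (nat_lit 58) (nat_lit 98) (nat_lit 0x1780002f00005f6be2bf54157ea652fd482) b55908 (.nil))) (.nil))))) (.one (nat_lit 71) (nat_lit 60) (nat_lit 100) (nat_lit 0x1780002f00005faf42bf2c9d7e4d4afcf36)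 b55910 (.nil)))))))))))))))))) (.nil)
noncomputable def r80_13 : Rw Blk := .tok (nat_lit 6) (nat_lit 0x5e0000bc000180000300000) (.hit (nat_lit 0) (nat_lit 0) (nat_lit 0x5e0000bc00017ebddafde2d) b55911 (.tok (nat_lit 14) (nat_lit 0x5e0000bc000180000300000) (.hit (nat_lit 21) (nat_lit 61) (nat_lit 0x5e0000bc00017f8e02fe90b) b55912 (.one (nat_lit 3) (nat_lit 22) (nat_lit 62) (nat_lit 0x5e0000bc00017f22b2fdf36) b55913 (.tok (nat_lit 6) (nat_lit 0x5e0000bc00017f2662fe99c) (.hit (nat_lit 25) (nat_lit 65) (nat_lit 0x5e0000bc00017e9022fe657) b55916 (.hit (nat_lit 26) (nat_lit 66) (nat_lit 0x5e0000bc00017f2662fe99c) b55917 (.nil))) (.tok (nat_lit 9) (nat_lit 0x5e0000bc000180000300000) (.hit (nat_lit 23) (nat_lit 63) (nat_lit 0x5e0000bc000180000300000) b55914 (.hit (nat_lit 24) (nat_lit 64) (nat_lit 0x5e0000bc00017f4a5afe6f0) b55915 (.nil))) (.nil))))) (.one (nat_lit 17) (nat_lit 27) (nat_lit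 67) (nat_lit 0x5e0000bc00017ed372fd4a5) b55918 (.tok (nat_lit 20) (nat_lit 0x5e0000bc00017f1b92fe624) (.hit (nat_lit 28) (nat_lit 68) (nat_lit 0x5e0000bc00017f1b92fe624) b55919 (.hit (nat_lit 29) (nat_lit 69) (nat_lit 0x5e0000bc00017eba02fd313) b55920 (.nil))) (.tok (nat_lit 23) (nat_lit 0x5e0000bc00017ed222fded8) (.hit (nat_lit 30) (nat_lit 70) (nat_lit 0x5e0000bc00017e542afded8) b55921 (.hit (nat_lit 31) (nat_lit 71) (nat_lit 0x5e0000bc00017ed222fd311) b55922 (.nil))) (.one (nat_lit 38) (nat_lit 36) (nat_lit 76) (nat_lit 0x5e0000bc00017eb12afd4e5) b55923 (.tok (nat_lit 41) (nat_lit 0x5e0000bc00017e9e3afcbf0) (.hit (nat_lit 37) (nat_lit 77) (nat_lit 0x5e0000bc00017e9e3afc64e) b55924 (.hit (nat_lit 38) (nat_lit 78) (nat_lit 0x5e0000bc00017e85aafcbf0) b55925 (.nil))) (.tok (nat_lit 44) (nat_lit 0x5e0000bc00017eea6afceca) (.hit (nat_lit 39) (nat_lit 79) (nat_lit 0x5e0000bc00017eea6afceca)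 b55926 (.hit (nat_lit 40) (nat_lit 80) (nat_lit 0x5e0000bc00017ea65afc8cf) b55927 (.nil))) (.tok (nat_lit 47) (nat_lit 0x5e0000bc00017edb8afcbdb) (.hit (nat_lit 41) (nat_lit 81) (nat_lit 0x5e0000bc00017d41cafbc8c) b55928 (.hit (nat_lit 42) (nat_lit 82) (nat_lit 0x5e0000bc00017edb8afcbdb) b55929 (.nil))) (.one (nat_lit 50) (nat_lit 43) (nat_lit 83) (nat_lit 0x5e0000bc00017f01c2fd09f) b55930 (.tok (nat_lit 53) (nat_lit 0x5e0000bc00017f110afdf9f) (.hit (nat_lit 44) (nat_lit 84) (nat_lit 0x5e0000bc00017f110afdf9f) b55931 (.hit (nat_lit 45) (nat_lit 85) (nat_lit 0x5e0000bc00017eed6afce7e) b55932 (.nil))) (.tok (nat_lit 56) (nat_lit 0x5e0000bc00017fc1aafed87) (.hit (nat_lit 46) (nat_lit 86) (nat_lit 0x5e0000bc00017f7efafe53b) b55933 (.one (nat_lit 3) (nat_lit 50) (nat_lit 90) (nat_lit 0x5e0000bc00017f2a92fd82d) b55937 (.tok (nat_lit 6) (nat_lit 0x5e0000bc00017fc1aafed12) (.hit (nat_lit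 48) (nat_lit 88) (nat_lit 0x5e0000bc00017fc1aafed12) b55935 (.hit (nat_lit 49) (nat_lit 89) (nat_lit 0x5e0000bc00017f2212fd7a3) b55936 (.nil))) (.one (nat_lit 9) (nat_lit 47) (nat_lit 87) (nat_lit 0x5e0000bc00017fa692fed87) b55934 (.nil))))) (.one (nat_lit 59) (nat_lit 51) (nat_lit 91) (nat_lit 0x5e0000bc00017ec4dafc900) b55938 (.one (nat_lit 62) (nat_lit 52) (nat_lit 92) (nat_lit 0x5e0000bc00017ea5b2fce53) b55939 (.tok (nat_lit 65) (nat_lit 0x5e0000bc00017e8c7afd506) (.hit (nat_lit 53) (nat_lit 93) (nat_lit 0x5e0000bc00017e65d2fd506) b55940 (.hit (nat_lit 54) (nat_lit 94) (nat_lit 0x5e0000bc00017e8c7afc725) b55941 (.nil))) (.tok (nat_lit 68) (nat_lit 0x5e0000bc00017ec4bafe7e3) (.hit (nat_lit 55) (nat_lit 95) (nat_lit 0x5e0000bc00017ec4bafe7e3) b55942 (.one (nat_lit 3) (nat_lit 59) (nat_lit 99) (nat_lit 0x5e0000bc00017e4582fdd03) b55946 (.one (nat_lit 6) (nat_lit 56) (nat_lit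 96) (nat_lit 0x5e0000bc00017e3a7afdba2) b55943 (.tok (nat_lit 9) (nat_lit 0x5e0000bc00017e5ef2fe031) (.hit (nat_lit 57) (nat_lit 97) (nat_lit 0x5e0000bc00017e5ef2fe031) b55944 (.hit (nat_lit 58) (nat_lit 98) (nat_lit 0x5e0000bc00017e4c62fdddf) b55945 (.nil))) (.nil))))) (.one (nat_lit 71) (nat_lit 60) (nat_lit 100) (nat_lit 0x5e0000bc00017ea5fafc567) b55947 (.nil)))))))))))))))))) (.nil)
noncomputable def r80_14 : Rw Blk := .tok (nat_lit 6) (nat_lit 0x300000600000c00001800002ff4105fffc8c0000180000300000) (.hit (nat_lit 81) (nat_lit 0) (nat_lit 0x2fe4b85fd5d4bf98697f6af2ff2b05ffe8abfab997fb922feb41) b55948 (.tok (nat_lit 3) (nat_lit 0x2feb0b5fdbe0bfd9517f3b1afe78c5fe6c0bfdea17f7e2aff4dc) (.hit (nat_lit 82) (nat_lit 1) (nat_lit 0x2fcbb35f88b0bf69c97e351afc6cc5fa540bf40117e782afd6b5) b55949 (.one (nat_lit 14) (nat_lit 84) (nat_lit 4) (nat_lit 0x2fe8a95fdbe0bfbe497eff42fd1505fcd6ebfd2cd7f4262ff267)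 b55950 (.one (nat_lit 56) (nat_lit 86) (nat_lit 6) (nat_lit 0x2fde885fbe9cbf85197ecee2fd9295fc9fabf9e517f1172fec77) b55952 (.one (nat_lit 68) (nat_lit 85) (nat_lit 5) (nat_lit 0x2feb0b5fd3a2bfd9517f3b1afe78c5fe6c0bfdea17f7e2aff4dc) b55951 (.nil))))) (.tok (nat_lit 40) (nat_lit 0x2fe7215fd042bfb9597f32b2fdb8d5fcfbabfafe17f40d2fefa8) (.hit (nat_lit 100) (nat_lit 33) (nat_lit 0x2fe7215fd042bfb9597f02c2fdb8d5fcfbabfafe17f40d2fefa8) b55953 (.hit (nat_lit 101) (nat_lit 34) (nat_lit 0x2fe2775fb726bf90d17f32b2fd5535fc27cbfaa997f164afee0b) b55954 (.nil))) (.tok (nat_lit 43) (nat_lit 0x2fecc7600000bfc0317f7412fee2c5ff400c000017fe4e2ff4b0) (.hit (nat_lit 102) (nat_lit 35) (nat_lit 0x2fecc7600000bfc0317f7412fee2c5ff400c000017fe4e2ff4b0) b55955 (.hit (nat_lit 103) (nat_lit 36) (nat_lit 0x2fe7225fd476bfbc317f611afe4975fe0d6bfb1e57f6682ff3e2) b55956 (.nil))) (.tok (nat_lit 46) (nat_lit 0x3000005ff54cc00001800002ff4105fffc8bfe41180000300000)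 (.hit (nat_lit 104) (nat_lit 37) (nat_lit 0x2fe23a5fbc94bfed7d7f9f3aff4105fffc8bf9aad7fe24afef2d) b55957 (.hit (nat_lit 105) (nat_lit 38) (nat_lit 0x3000005ff54cc00001800002fea235ffc36bfe41180000300000) b55958 (.nil))) (.nil)))))) (.tok (nat_lit 9) (nat_lit 0x2feb0b5fdbe0bfd9517f6b5b00000600000bf9fb97fb92aff27a) (.hit (nat_lit 157) (nat_lit 0) (nat_lit 0x2fe4b85fd5d4bf98697f6b5aff008600000bf9fb97fb92afeb7a) b55959 (.tok (nat_lit 3) (nat_lit 0x2feb0b5fdbe0bfd9517f3b1b000005fe6c0bf689d7f7e2aff27a) (.hit (nat_lit 158) (nat_lit 1) (nat_lit 0x2fcbb35f88b0bf69c97e351afdace5faadebee59d7e782afd6b5) b55960 (.one (nat_lit 14) (nat_lit 160) (nat_lit 4) (nat_lit 0x2fe8a95fdbe0bfbe497ea0d3000005fe5ecbf0fad7f4402ff27a) b55961 (.one (nat_lit 56) (nat_lit 162) (nat_lit 6) (nat_lit 0x2feb0b5fd3a2bfd9517f3b1afeec05fe6c0bf689d7f7e2afe5fe) b55963 (.one (nat_lit 68) (nat_lit 161) (nat_lit 5) (nat_lit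 0x2fde885fbe9cbf85197ec802ff2565fd9aabf2f117f12eafe9a5) b55962 (.nil))))) (.nil))) (.nil))
noncomputable def r80_15 : Rw Blk := .tok (nat_lit 3) (nat_lit 0xbc0001780002fef01) (.hit (nat_lit 61) (nat_lit 0) (nat_lit 0xbc0001780002fdc40) b55964 (.tok (nat_lit 14) (nat_lit 0xbc0001780002fef01) (.hit (nat_lit 82) (nat_lit 61) (nat_lit 0xbc0001780002fef01) b55965 (.one (nat_lit 3) (nat_lit 83) (nat_lit 62) (nat_lit 0xbc0001780002fc95f) b55966 (.tok (nat_lit 6) (nat_lit 0xbc0001780002fcdea) (.hit (nat_lit 86) (nat_lit 65) (nat_lit 0xbc0001780002fcd0f) b55969 (.hit (nat_lit 87) (nat_lit 66) (nat_lit 0xbc0001780002fcdea) b55970 (.nil))) (.tok (nat_lit 9) (nat_lit 0xbc0001780002fed03) (.hit (nat_lit 84) (nat_lit 63) (nat_lit 0xbc0001780002fed03) b55967 (.hit (nat_lit 85) (nat_lit 64) (nat_lit 0xbc0001780002fcc1c) b55968 (.nil))) (.nil))))) (.one (nat_lit 17) (nat_lit 88) (nat_lit 67) (nat_lit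 0xbc0001780002fc501) b55971 (.tok (nat_lit 20) (nat_lit 0xbc0001780002fcb2a) (.hit (nat_lit 89) (nat_lit 68) (nat_lit 0xbc0001780002fcb2a) b55972 (.hit (nat_lit 90) (nat_lit 69) (nat_lit 0xbc0001780002fc30a) b55973 (.nil))) (.tok (nat_lit 23) (nat_lit 0xbc0001780002fd14f) (.hit (nat_lit 91) (nat_lit 70) (nat_lit 0xbc0001780002fd14f) b55974 (.hit (nat_lit 92) (nat_lit 71) (nat_lit 0xbc0001780002fc32a) b55975 (.nil))) (.one (nat_lit 26) (nat_lit 93) (nat_lit 72) (nat_lit 0xbc0001780002fb08f) b55976 (.one (nat_lit 29) (nat_lit 94) (nat_lit 73) (nat_lit 0xbc0001780002fb31a) b55977 (.one (nat_lit 32) (nat_lit 95) (nat_lit 74) (nat_lit 0xbc0001780002fbc49) b55978 (.one (nat_lit 35) (nat_lit 96) (nat_lit 75) (nat_lit 0xbc0001780002fb73b) b55979 (.one (nat_lit 50) (nat_lit 104) (nat_lit 83) (nat_lit 0xbc0001780002fc2a3) b55980 (.tok (nat_lit 53) (nat_lit 0xbc0001780002fc5ee) (.hit (nat_lit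 105) (nat_lit 84) (nat_lit 0xbc0001780002fc5ee) b55981 (.hit (nat_lit 106) (nat_lit 85) (nat_lit 0xbc0001780002fbf16) b55982 (.nil))) (.tok (nat_lit 56) (nat_lit 0xbc0001780002fdfb1) (.hit (nat_lit 107) (nat_lit 86) (nat_lit 0xbc0001780002fdfb1) b55983 (.one (nat_lit 3) (nat_lit 111) (nat_lit 90) (nat_lit 0xbc0001780002fcdbd) b55987 (.tok (nat_lit 6) (nat_lit 0xbc0001780002fdfa8) (.hit (nat_lit 109) (nat_lit 88) (nat_lit 0xbc0001780002fdfa8) b55985 (.hit (nat_lit 110) (nat_lit 89) (nat_lit 0xbc0001780002fcdf1) b55986 (.nil))) (.one (nat_lit 9) (nat_lit 108) (nat_lit 87) (nat_lit 0xbc0001780002fd0c4) b55984 (.nil))))) (.one (nat_lit 59) (nat_lit 112) (nat_lit 91) (nat_lit 0xbc0001780002fae54) b55988 (.one (nat_lit 62) (nat_lit 113) (nat_lit 92) (nat_lit 0xbc0001780002fc96c) b55989 (.tok (nat_lit 65) (nat_lit 0xbc0001780002fcf25) (.hit (nat_lit 114) (nat_lit 93) (nat_lit 0xbc0001780002fcf25)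 b55990 (.hit (nat_lit 115) (nat_lit 94) (nat_lit 0xbc0001780002fbf29) b55991 (.nil))) (.tok (nat_lit 68) (nat_lit 0xbc0001780002fee18) (.hit (nat_lit 116) (nat_lit 95) (nat_lit 0xbc0001780002fee18) b55992 (.one (nat_lit 3) (nat_lit 120) (nat_lit 99) (nat_lit 0xbc0001780002fd4ab) b55996 (.one (nat_lit 6) (nat_lit 117) (nat_lit 96) (nat_lit 0xbc0001780002fd7b2) b55993 (.tok (nat_lit 9) (nat_lit 0xbc0001780002fdca7) (.hit (nat_lit 118) (nat_lit 97) (nat_lit 0xbc0001780002fd812) b55994 (.hit (nat_lit 119) (nat_lit 98) (nat_lit 0xbc0001780002fdca7) b55995 (.nil))) (.nil))))) (.one (nat_lit 71) (nat_lit 121) (nat_lit 100) (nat_lit 0xbc0001780002fae34) b55997 (.nil)))))))))))))))))) (.tok (nat_lit 40) (nat_lit 0xbc000178000304749) (.hit (nat_lit 245) (nat_lit 0) (nat_lit 0xbc000178000301793) b55998 (.tok (nat_lit 6) (nat_lit 0xbc000178000304749) (.hit (nat_lit 246) (nat_lit 7) (nat_lit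 0xbc000178000304749) b55999 (.hit (nat_lit 247) (nat_lit 15) (nat_lit 0xbc000178000300021) b56000 (.nil))) (.tok (nat_lit 9) (nat_lit 0xbc00017800030047b) (.hit (nat_lit 248) (nat_lit 20) (nat_lit 0xbc00017800030047b) b56001 (.hit (nat_lit 249) (nat_lit 28) (nat_lit 0xbc0001780002fef4e) b56002 (.nil))) (.nil)))) (.tok (nat_lit 43) (nat_lit 0xbc000178000303642) (.hit (nat_lit 270) (nat_lit 0) (nat_lit 0xbc000178000300819) b56011 (.tok (nat_lit 3) (nat_lit 0xbc000178000303642) (.hit (nat_lit 271) (nat_lit 1) (nat_lit 0xbc0001780002fff5d) b56012 (.one (nat_lit 67) (nat_lit 272) (nat_lit 2) (nat_lit 0xbc000178000303642) b56013 (.nil))) (.tok (nat_lit 6) (nat_lit 0xbc000178000301f14) (.hit (nat_lit 273) (nat_lit 7) (nat_lit 0xbc0001780002ff23d) b56014 (.hit (nat_lit 276) (nat_lit 15) (nat_lit 0xbc0001780002ff6e4) b56017 (.tok (nat_lit 55) (nat_lit 0xbc000178000301f14) (.hit (nat_lit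 274) (nat_lit 8) (nat_lit 0xbc0001780002fff77) b56015 (.hit (nat_lit 277) (nat_lit 16) (nat_lit 0xbc000178000301f14) b56018 (.one (nat_lit 6) (nat_lit 275) (nat_lit 9) (nat_lit 0xbc000178000301b9f) b56016 (.nil)))) (.nil)))) (.nil)))) (.tok (nat_lit 46) (nat_lit 0xbc000178000301476) (.hit (nat_lit 256) (nat_lit 0) (nat_lit 0xbc000178000301476) b56003 (.tok (nat_lit 3) (nat_lit 0xbc0001780002ff5a3) (.hit (nat_lit 257) (nat_lit 1) (nat_lit 0xbc0001780002fddb2) b56004 (.one (nat_lit 55) (nat_lit 258) (nat_lit 3) (nat_lit 0xbc0001780002ff5a3) b56005 (.nil))) (.tok (nat_lit 9) (nat_lit 0xbc000178000300288) (.hit (nat_lit 259) (nat_lit 20) (nat_lit 0xbc0001780002fe57c) b56006 (.hit (nat_lit 262) (nat_lit 28) (nat_lit 0xbc0001780002fe04d) b56009 (.tok (nat_lit 67) (nat_lit 0xbc000178000300288) (.hit (nat_lit 260) (nat_lit 21) (nat_lit 0xbc0001780002ffbc4) b56007 (.hit (nat_lit 263) (nat_lit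 29) (nat_lit 0xbc000178000300288) b56010 (.one (nat_lit 9) (nat_lit 261) (nat_lit 22) (nat_lit 0xbc0001780002fffeb) b56008 (.nil)))) (.nil)))) (.nil)))) (.nil))))
noncomputable def r80_16 : Rw Blk := .tok (nat_lit 3) (nat_lit 0xbc0001780002fea8f) (.hit (nat_lit 61) (nat_lit 0) (nat_lit 0xbc0001780002fd535) b56019 (.tok (nat_lit 14) (nat_lit 0xbc0001780002fe9de) (.hit (nat_lit 82) (nat_lit 61) (nat_lit 0xbc0001780002fe6a6) b56020 (.one (nat_lit 3) (nat_lit 83) (nat_lit 62) (nat_lit 0xbc0001780002fd941) b56021 (.tok (nat_lit 6) (nat_lit 0xbc0001780002fe9de) (.hit (nat_lit 86) (nat_lit 65) (nat_lit 0xbc0001780002fe9de) b56024 (.hit (nat_lit 87) (nat_lit 66) (nat_lit 0xbc0001780002fd31c) b56025 (.nil))) (.tok (nat_lit 9) (nat_lit 0xbc0001780002fe88d) (.hit (nat_lit 84) (nat_lit 63) (nat_lit 0xbc0001780002fe88d) b56022 (.hit (nat_lit 85) (nat_lit 64) (nat_lit 0xbc0001780002fe2c9) b56023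 (.nil))) (.nil))))) (.one (nat_lit 17) (nat_lit 88) (nat_lit 67) (nat_lit 0xbc0001780002fd22d) b56026 (.tok (nat_lit 20) (nat_lit 0xbc0001780002fcc83) (.hit (nat_lit 89) (nat_lit 68) (nat_lit 0xbc0001780002fcc83) b56027 (.hit (nat_lit 90) (nat_lit 69) (nat_lit 0xbc0001780002fc43a) b56028 (.nil))) (.tok (nat_lit 23) (nat_lit 0xbc0001780002fcb7d) (.hit (nat_lit 91) (nat_lit 70) (nat_lit 0xbc0001780002fcb7d) b56029 (.hit (nat_lit 92) (nat_lit 71) (nat_lit 0xbc0001780002fc43a) b56028 (.nil))) (.one (nat_lit 26) (nat_lit 93) (nat_lit 72) (nat_lit 0xbc0001780002fb8c2) b56030 (.one (nat_lit 29) (nat_lit 94) (nat_lit 73) (nat_lit 0xbc0001780002fb97e) b56031 (.one (nat_lit 32) (nat_lit 95) (nat_lit 74) (nat_lit 0xbc0001780002fbe6b) b56032 (.one (nat_lit 35) (nat_lit 96) (nat_lit 75) (nat_lit 0xbc0001780002fb4b3) b56033 (.one (nat_lit 50) (nat_lit 104) (nat_lit 83) (nat_lit 0xbc0001780002fc2db)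 b56034 (.tok (nat_lit 53) (nat_lit 0xbc0001780002fcc76) (.hit (nat_lit 105) (nat_lit 84) (nat_lit 0xbc0001780002fc661) b56035 (.hit (nat_lit 106) (nat_lit 85) (nat_lit 0xbc0001780002fcc76) b56036 (.nil))) (.tok (nat_lit 56) (nat_lit 0xbc0001780002fddbd) (.hit (nat_lit 107) (nat_lit 86) (nat_lit 0xbc0001780002fdce8) b56037 (.one (nat_lit 3) (nat_lit 111) (nat_lit 90) (nat_lit 0xbc0001780002fd55c) b56041 (.tok (nat_lit 6) (nat_lit 0xbc0001780002fddbd) (.hit (nat_lit 109) (nat_lit 88) (nat_lit 0xbc0001780002fddbd) b56039 (.hit (nat_lit 110) (nat_lit 89) (nat_lit 0xbc0001780002fcc26) b56040 (.nil))) (.one (nat_lit 9) (nat_lit 108) (nat_lit 87) (nat_lit 0xbc0001780002fd4f9) b56038 (.nil))))) (.one (nat_lit 59) (nat_lit 112) (nat_lit 91) (nat_lit 0xbc0001780002fb03b) b56042 (.one (nat_lit 62) (nat_lit 113) (nat_lit 92) (nat_lit 0xbc0001780002fc729) b56043 (.tok (nat_lit 65) (nat_lit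 0xbc0001780002fd875) (.hit (nat_lit 114) (nat_lit 93) (nat_lit 0xbc0001780002fd875) b56044 (.hit (nat_lit 115) (nat_lit 94) (nat_lit 0xbc0001780002fc893) b56045 (.nil))) (.tok (nat_lit 68) (nat_lit 0xbc0001780002fea8f) (.hit (nat_lit 116) (nat_lit 95) (nat_lit 0xbc0001780002fe6fa) b56046 (.one (nat_lit 3) (nat_lit 120) (nat_lit 99) (nat_lit 0xbc0001780002fcb5f) b56050 (.one (nat_lit 6) (nat_lit 117) (nat_lit 96) (nat_lit 0xbc0001780002fe261) b56047 (.tok (nat_lit 9) (nat_lit 0xbc0001780002fea8f) (.hit (nat_lit 118) (nat_lit 97) (nat_lit 0xbc0001780002fea8f) b56048 (.hit (nat_lit 119) (nat_lit 98) (nat_lit 0xbc0001780002fc4bc) b56049 (.nil))) (.nil))))) (.one (nat_lit 71) (nat_lit 121) (nat_lit 100) (nat_lit 0xbc0001780002fb028) b56051 (.nil)))))))))))))))))) (.tok (nat_lit 40) (nat_lit 0xbc0001780003007e3) (.hit (nat_lit 245) (nat_lit 0) (nat_lit 0xbc0001780003007e3) b56052 (.tok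 (nat_lit 6) (nat_lit 0xbc000178000300713) (.hit (nat_lit 246) (nat_lit 7) (nat_lit 0xbc000178000300713) b56053 (.hit (nat_lit 247) (nat_lit 15) (nat_lit 0xbc0001780002ffac1) b56054 (.nil))) (.tok (nat_lit 9) (nat_lit 0xbc0001780002ff616) (.hit (nat_lit 248) (nat_lit 20) (nat_lit 0xbc0001780002ff616) b56055 (.hit (nat_lit 249) (nat_lit 28) (nat_lit 0xbc0001780002feff7) b56056 (.nil))) (.nil)))) (.tok (nat_lit 43) (nat_lit 0xbc0001780003027ad) (.hit (nat_lit 270) (nat_lit 0) (nat_lit 0xbc00017800030028b) b56065 (.tok (nat_lit 3) (nat_lit 0xbc0001780003027ad) (.hit (nat_lit 271) (nat_lit 1) (nat_lit 0xbc0001780002ff407) b56066 (.one (nat_lit 67) (nat_lit 272) (nat_lit 2) (nat_lit 0xbc0001780003027ad) b56067 (.nil))) (.tok (nat_lit 6) (nat_lit 0xbc000178000300e20) (.hit (nat_lit 273) (nat_lit 7) (nat_lit 0xbc0001780002ff643) b56068 (.hit (nat_lit 276) (nat_lit 15) (nat_lit 0xbc0001780002fed18)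 b56071 (.tok (nat_lit 55) (nat_lit 0xbc000178000300e20) (.hit (nat_lit 274) (nat_lit 8) (nat_lit 0xbc000178000300625) b56069 (.hit (nat_lit 277) (nat_lit 16) (nat_lit 0xbc0001780003004cf) b56072 (.one (nat_lit 6) (nat_lit 275) (nat_lit 9) (nat_lit 0xbc000178000300e20) b56070 (.nil)))) (.nil)))) (.nil)))) (.tok (nat_lit 46) (nat_lit 0xbc000178000301bb5) (.hit (nat_lit 256) (nat_lit 0) (nat_lit 0xbc000178000300651) b56057 (.tok (nat_lit 3) (nat_lit 0xbc000178000301383) (.hit (nat_lit 257) (nat_lit 1) (nat_lit 0xbc0001780002ff250) b56058 (.one (nat_lit 55) (nat_lit 258) (nat_lit 3) (nat_lit 0xbc000178000301383) b56059 (.nil))) (.tok (nat_lit 9) (nat_lit 0xbc000178000301bb5) (.hit (nat_lit 259) (nat_lit 20) (nat_lit 0xbc000178000300e79) b56060 (.hit (nat_lit 262) (nat_lit 28) (nat_lit 0xbc000178000300304) b56063 (.tok (nat_lit 67) (nat_lit 0xbc000178000301bb5) (.hit (nat_lit 260)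 (nat_lit 21) (nat_lit 0xbc0001780003017ec) b56061 (.hit (nat_lit 263) (nat_lit 29) (nat_lit 0xbc0001780003019f8) b56064 (.one (nat_lit 9) (nat_lit 261) (nat_lit 22) (nat_lit 0xbc000178000301bb5) b56062 (.nil)))) (.nil)))) (.nil)))) (.nil))))
noncomputable def r80_17 : Rw Blk := .tok (nat_lit 3) (nat_lit 0xbc000178000300000) (.hit (nat_lit 61) (nat_lit 0) (nat_lit 0xbc0001780002fed3f) b12933 (.tok (nat_lit 14) (nat_lit 0xbc000178000300000) (.hit (nat_lit 82) (nat_lit 61) (nat_lit 0xbc000178000300000) b12934 (.one (nat_lit 3) (nat_lit 83) (nat_lit 62) (nat_lit 0xbc0001780002fda5e) b12935 (.tok (nat_lit 6) (nat_lit 0xbc0001780002ffe02) (.hit (nat_lit 86) (nat_lit 65) (nat_lit 0xbc0001780002ffe02) b12936 (.hit (nat_lit 87) (nat_lit 66) (nat_lit 0xbc0001780002fdd1b) b12937 (.nil))) (.tok (nat_lit 9) (nat_lit 0xbc0001780002fdee9) (.hit (nat_lit 84) (nat_lit 63) (nat_lit 0xbc0001780002fde0e)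 b12938 (.hit (nat_lit 85) (nat_lit 64) (nat_lit 0xbc0001780002fdee9) b12939 (.nil))) (.nil))))) (.one (nat_lit 17) (nat_lit 88) (nat_lit 67) (nat_lit 0xbc0001780002fd600) b12940 (.tok (nat_lit 20) (nat_lit 0xbc0001780002fe24e) (.hit (nat_lit 89) (nat_lit 68) (nat_lit 0xbc0001780002fe24e) b12943 (.hit (nat_lit 90) (nat_lit 69) (nat_lit 0xbc0001780002fd429) b12944 (.nil))) (.tok (nat_lit 23) (nat_lit 0xbc0001780002fdc29) (.hit (nat_lit 91) (nat_lit 70) (nat_lit 0xbc0001780002fdc29) b12941 (.hit (nat_lit 92) (nat_lit 71) (nat_lit 0xbc0001780002fd409) b12942 (.nil))) (.one (nat_lit 38) (nat_lit 97) (nat_lit 76) (nat_lit 0xbc0001780002fd320) b12945 (.tok (nat_lit 41) (nat_lit 0xbc0001780002fd15b) (.hit (nat_lit 98) (nat_lit 77) (nat_lit 0xbc0001780002fbadf) b12946 (.hit (nat_lit 99) (nat_lit 78) (nat_lit 0xbc0001780002fd15b) b12947 (.nil))) (.tok (nat_lit 44) (nat_lit 0xbc0001780002fcc75)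 (.hit (nat_lit 100) (nat_lit 79) (nat_lit 0xbc0001780002fcb7b) b12950 (.hit (nat_lit 101) (nat_lit 80) (nat_lit 0xbc0001780002fcc75) b12951 (.nil))) (.tok (nat_lit 47) (nat_lit 0xbc0001780002fcb88) (.hit (nat_lit 102) (nat_lit 81) (nat_lit 0xbc0001780002fbef3) b12948 (.hit (nat_lit 103) (nat_lit 82) (nat_lit 0xbc0001780002fcb88) b12949 (.nil))) (.one (nat_lit 50) (nat_lit 104) (nat_lit 83) (nat_lit 0xbc0001780002fda6b) b12961 (.tok (nat_lit 53) (nat_lit 0xbc0001780002fe024) (.hit (nat_lit 105) (nat_lit 84) (nat_lit 0xbc0001780002fe024) b12962 (.hit (nat_lit 106) (nat_lit 85) (nat_lit 0xbc0001780002fd028) b12963 (.nil))) (.tok (nat_lit 56) (nat_lit 0xbc0001780002fff17) (.hit (nat_lit 107) (nat_lit 86) (nat_lit 0xbc0001780002fff17) b12964 (.one (nat_lit 3) (nat_lit 111) (nat_lit 90) (nat_lit 0xbc0001780002fe5aa) b12968 (.tok (nat_lit 6) (nat_lit 0xbc0001780002feda6) (.hit (nat_lit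 109) (nat_lit 88) (nat_lit 0xbc0001780002fe911) b12966 (.hit (nat_lit 110) (nat_lit 89) (nat_lit 0xbc0001780002feda6) b12967 (.nil))) (.one (nat_lit 9) (nat_lit 108) (nat_lit 87) (nat_lit 0xbc0001780002fe8b1) b12965 (.nil))))) (.one (nat_lit 59) (nat_lit 112) (nat_lit 91) (nat_lit 0xbc0001780002fbf33) b12969 (.one (nat_lit 62) (nat_lit 113) (nat_lit 92) (nat_lit 0xbc0001780002fd3a2) b12952 (.tok (nat_lit 65) (nat_lit 0xbc0001780002fd6ed) (.hit (nat_lit 114) (nat_lit 93) (nat_lit 0xbc0001780002fd6ed) b12953 (.hit (nat_lit 115) (nat_lit 94) (nat_lit 0xbc0001780002fd015) b12954 (.nil))) (.tok (nat_lit 68) (nat_lit 0xbc0001780002ff0b0) (.hit (nat_lit 116) (nat_lit 95) (nat_lit 0xbc0001780002ff0b0) b12955 (.one (nat_lit 3) (nat_lit 120) (nat_lit 99) (nat_lit 0xbc0001780002fdebc) b12959 (.one (nat_lit 6) (nat_lit 117) (nat_lit 96) (nat_lit 0xbc0001780002fe1c3) b12956 (.tok (nat_lit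 9) (nat_lit 0xbc0001780002ff0a7) (.hit (nat_lit 118) (nat_lit 97) (nat_lit 0xbc0001780002ff0a7) b12957 (.hit (nat_lit 119) (nat_lit 98) (nat_lit 0xbc0001780002fdef0) b12958 (.nil))) (.nil))))) (.one (nat_lit 71) (nat_lit 121) (nat_lit 100) (nat_lit 0xbc0001780002fbf53) b12960 (.nil)))))))))))))))))) (.nil)
noncomputable def r80_18 : Rw Blk := .tok (nat_lit 3) (nat_lit 0xbc000178000300000) (.hit (nat_lit 61) (nat_lit 0) (nat_lit 0xbc0001780002feaa6) b12970 (.tok (nat_lit 14) (nat_lit 0xbc0001780002fff4f) (.hit (nat_lit 82) (nat_lit 61) (nat_lit 0xbc0001780002ffc17) b12971 (.one (nat_lit 3) (nat_lit 83) (nat_lit 62) (nat_lit 0xbc0001780002feeb2) b12972 (.tok (nat_lit 6) (nat_lit 0xbc0001780002ffdfe) (.hit (nat_lit 86) (nat_lit 65) (nat_lit 0xbc0001780002ffdfe) b12973 (.hit (nat_lit 87) (nat_lit 66) (nat_lit 0xbc0001780002ff83a) b12974 (.nil))) (.tok (nat_lit 9) (nat_lit 0xbc0001780002fff4f)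 (.hit (nat_lit 84) (nat_lit 63) (nat_lit 0xbc0001780002fff4f) b12975 (.hit (nat_lit 85) (nat_lit 64) (nat_lit 0xbc0001780002fe88d) b12976 (.nil))) (.nil))))) (.one (nat_lit 17) (nat_lit 88) (nat_lit 67) (nat_lit 0xbc0001780002fe79e) b12977 (.tok (nat_lit 20) (nat_lit 0xbc0001780002fe0ee) (.hit (nat_lit 89) (nat_lit 68) (nat_lit 0xbc0001780002fe0ee) b12980 (.hit (nat_lit 90) (nat_lit 69) (nat_lit 0xbc0001780002fd9ab) b12979 (.nil))) (.tok (nat_lit 23) (nat_lit 0xbc0001780002fe1f4) (.hit (nat_lit 91) (nat_lit 70) (nat_lit 0xbc0001780002fe1f4) b12978 (.hit (nat_lit 92) (nat_lit 71) (nat_lit 0xbc0001780002fd9ab) b12979 (.nil))) (.one (nat_lit 38) (nat_lit 97) (nat_lit 76) (nat_lit 0xbc0001780002fdad4) b12981 (.tok (nat_lit 41) (nat_lit 0xbc0001780002fe302) (.hit (nat_lit 98) (nat_lit 77) (nat_lit 0xbc0001780002fbfc2) b12982 (.hit (nat_lit 99) (nat_lit 78) (nat_lit 0xbc0001780002fe302)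 b12983 (.nil))) (.tok (nat_lit 44) (nat_lit 0xbc0001780002fdaf4) (.hit (nat_lit 100) (nat_lit 79) (nat_lit 0xbc0001780002fcf25) b12986 (.hit (nat_lit 101) (nat_lit 80) (nat_lit 0xbc0001780002fdaf4) b12987 (.nil))) (.tok (nat_lit 47) (nat_lit 0xbc0001780002fd459) (.hit (nat_lit 102) (nat_lit 81) (nat_lit 0xbc0001780002fc9a3) b12984 (.hit (nat_lit 103) (nat_lit 82) (nat_lit 0xbc0001780002fd459) b12985 (.nil))) (.one (nat_lit 50) (nat_lit 104) (nat_lit 83) (nat_lit 0xbc0001780002fdc9a) b12997 (.tok (nat_lit 53) (nat_lit 0xbc0001780002fede6) (.hit (nat_lit 105) (nat_lit 84) (nat_lit 0xbc0001780002fede6) b12998 (.hit (nat_lit 106) (nat_lit 85) (nat_lit 0xbc0001780002fde04) b12999 (.nil))) (.tok (nat_lit 56) (nat_lit 0xbc000178000300000) (.hit (nat_lit 107) (nat_lit 86) (nat_lit 0xbc0001780002ffc6b) b13000 (.one (nat_lit 3) (nat_lit 111) (nat_lit 90) (nat_lit 0xbc0001780002fe0d0) b13004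 (.tok (nat_lit 6) (nat_lit 0xbc000178000300000) (.hit (nat_lit 109) (nat_lit 88) (nat_lit 0xbc000178000300000) b13002 (.hit (nat_lit 110) (nat_lit 89) (nat_lit 0xbc0001780002fda2d) b13003 (.nil))) (.one (nat_lit 9) (nat_lit 108) (nat_lit 87) (nat_lit 0xbc0001780002ff7d2) b13001 (.nil))))) (.one (nat_lit 59) (nat_lit 112) (nat_lit 91) (nat_lit 0xbc0001780002fc599) b13005 (.one (nat_lit 62) (nat_lit 113) (nat_lit 92) (nat_lit 0xbc0001780002fd84c) b12988 (.tok (nat_lit 65) (nat_lit 0xbc0001780002fe1e7) (.hit (nat_lit 114) (nat_lit 93) (nat_lit 0xbc0001780002fdbd2) b12989 (.hit (nat_lit 115) (nat_lit 94) (nat_lit 0xbc0001780002fe1e7) b12990 (.nil))) (.tok (nat_lit 68) (nat_lit 0xbc0001780002ff32e) (.hit (nat_lit 116) (nat_lit 95) (nat_lit 0xbc0001780002ff259) b12991 (.one (nat_lit 3) (nat_lit 120) (nat_lit 99) (nat_lit 0xbc0001780002feacd) b12995 (.one (nat_lit 6) (nat_lit 117) (nat_lit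 96) (nat_lit 0xbc0001780002fea6a) b12992 (.tok (nat_lit 9) (nat_lit 0xbc0001780002ff32e) (.hit (nat_lit 118) (nat_lit 97) (nat_lit 0xbc0001780002ff32e) b12993 (.hit (nat_lit 119) (nat_lit 98) (nat_lit 0xbc0001780002fe197) b12994 (.nil))) (.nil))))) (.one (nat_lit 71) (nat_lit 121) (nat_lit 100) (nat_lit 0xbc0001780002fc5ac) b12996 (.nil)))))))))))))))))) (.nil)
noncomputable def r81_0 : Rw Blk := .tok (nat_lit 3) (nat_lit 0x2fdb685fb556bfac897ef812ff8ea5fd3b0bf9ea97f9a9afefc85ffc6ebfc8cd7fbe9afed13) (.hit (nat_lit 0) (nat_lit 0) (nat_lit 0x2fb6be5f841abf228d7e5962fd5e95f9cd6bf302d7ea69afd2f05fa612bf5f597ede32fd374) b56073 (.tok (nat_lit 9) (nat_lit 0x2fb6475f7b82bf7eb97e22cafdc8a5f98f0bf25f57e941afc93e5fa9debf8a217f447afe34f) (.hit (nat_lit 10) (nat_lit 20) (nat_lit 0x2fa34b5f558abf37097d8aeafc98e5f72f8beda057dfc3afb6425f83e6befd3d7ef66afd138) b54794 (.hit (nat_lit 15) (nat_lit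 28) (nat_lit 0x2fa0dc5f50acbf09317d7772fc71f5f6e1abed0497de8c2fb3d35f7f08bf37cd7ed7b2fd0b6) b54797 (.tok (nat_lit 14) (nat_lit 0x2fb6475f7b82bf7eb97e22cafdc8a5f98f0bf25f57e941afc93e5fa9debf60897f3f8afdaec) (.hit (nat_lit 11) (nat_lit 24) (nat_lit 0x2fa9e75f62c2bf57457dbfcafd02a5f8030bef4757e311afbcde5f911ebf15b17ef5b2fd128) b54795 (.hit (nat_lit 16) (nat_lit 30) (nat_lit 0x2fa8ea5f60c8bf2e017db7e2fcf2d5f7e36bef0817e2932fbbe15f8f24bf60897f2152fd9d2) b54798 (.one (nat_lit 6) (nat_lit 12) (nat_lit 25) (nat_lit 0x2fb6475f7b82bf7eb97e22cafdc8a5f98f0bf25f57e941afc93e5fa9debf4dc57f3f8afdaec) b54796 (.nil)))) (.one (nat_lit 56) (nat_lit 17) (nat_lit 31) (nat_lit 0x2fb6095f7b06bf5ff97e20dafdc4c5f9874bf24fd7e922afc9005fa962bf8a217f447afe34f) b54799 (.nil))))) (.tok (nat_lit 64) (nat_lit 0x2facda5f68a8bf4f9d7dd762fd31d5f8616bf00417e48b2fbfd15f9704bf73057eee62fda5f) (.hit (nat_lit 30) (nat_lit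 50) (nat_lit 0x2fa9b05f6254bf1aa17dbe12fcff35f7fc2bef3997e2f62fbca75f90b0bf59a97e65f2fd539) b54800 (.hit (nat_lit 31) (nat_lit 51) (nat_lit 0x2facda5f68a8bf4f9d7dd762fd31d5f8616bf00417e48b2fbfd15f9704bf73057eee62fda5f) b54801 (.nil))) (.tok (nat_lit 67) (nat_lit 0x2fdb685fb556bfac897ef812ff8ea5fd3b0bf9ea97f9a9afefc85ffc6ebfc8cd7fbe9afed13) (.hit (nat_lit 32) (nat_lit 52) (nat_lit 0x2fdb685fb556bfa5297ef812ff8ea5fd3b0bf9ea97f9a9afefc85ffc6ebfc8cd7fabbafed13) b54802 (.tok (nat_lit 3) (nat_lit 0x2fbd795f89e6bfac897e5c5afe3bc5fa754bf42bd7ecdaafd0705fb842bf78517fbe9afe87a) (.hit (nat_lit 38) (nat_lit 58) (nat_lit 0x2fb5d25f7a98bf7ab97e1f22fdc155f9806bf24217e9072fc8c95fa8f4bf5a4d7f4cdafdd45) b54805 (.one (nat_lit 55) (nat_lit 39) (nat_lit 59) (nat_lit 0x2fbd795f89e6bfac897e5c5afe3bc5fa754bf42bd7ecdaafd0705fb842bf78517fbe9afe87a) b54806 (.nil))) (.tok (nat_lit 9) (nat_lit 0x2fc08f5f9b9ebf6e1d7ed59afe13c5fa254bf38bd7eb9aafcdf05fb342bf63f17f3bf2fdda3)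 (.hit (nat_lit 33) (nat_lit 53) (nat_lit 0x2fc08f5f9b9ebf6e1d7ed59afe13c5fa254bf38bd7eb9aafcdf05fb342bf63f17effb2fdda3) b54803 (.hit (nat_lit 36) (nat_lit 56) (nat_lit 0x2fb62b5f7b4abf69ed7e21eafdc6e5f98b8bf25857e933afc9225fa9a6bf46c17f3bf2fdbc4) b54804 (.nil))) (.nil)))) (.one (nat_lit 70) (nat_lit 40) (nat_lit 60) (nat_lit 0x2fb50a5f7908bf6a8d7e18e2fdb4d5f9676bf21017e8a32fc8015fa764bfa3397f4f52fe959) b54807 (.nil)))))) (.tok (nat_lit 6) (nat_lit 0x300000600000c00001800fcb00000600000c00001800003000006003c4c0292580000300000) (.hit (nat_lit 81) (nat_lit 0) (nat_lit 0x2fcb035fb93ebf52057ef1c2fecf95fc1debf651d7f2fcafe49d5fc974bfa1a97f4e0afdd9d) b54808 (.tok (nat_lit 6) (nat_lit 0x2fe5695ff006bfda397f0b42ff7385ff17cbfc8bd7f7d12fec9d5fdfc6bfcf9d7f959afefa0) (.hit (nat_lit 87) (nat_lit 7) (nat_lit 0x2fc13b5fa14cbf32457e1c62fdbb15faf3cbf51257ecc7afd4145fa594bf51497ef232fd205) b54809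 (.hit (nat_lit 95) (nat_lit 15) (nat_lit 0x2fb39f5f6c4cbf266d7d95a2fcc675f8944bf09d17e4d1afc8205f8f3abf9eb17ecfbafcf1a) b54814 (.tok (nat_lit 14) (nat_lit 0x2fe5695ff006bfda397f0b42ff7385fe668bfc8bd7f7d12fec9d5fcbe6bfb68d7f959afefa0) (.hit (nat_lit 91) (nat_lit 11) (nat_lit 0x2fe2155fe76ebfd4f17ef8e2ff6d35fe5bcbfb94d7f79b2fe8c25fc59abf90097f8c82fefa0) b54810 (.hit (nat_lit 97) (nat_lit 17) (nat_lit 0x2fd01b5fa398bfa69d7e78b2fe3ac5fbc06bf67fd7f003afe01f5fc2e2bfb68d7f153afdd07) b54815 (.one (nat_lit 9) (nat_lit 92) (nat_lit 12) (nat_lit 0x2fe5695ff006bfda397f0b42ff7385fe668bfc8bd7f7d12fec9d5fcbe6bfa4257f959afec06) b54811 (.nil)))) (.tok (nat_lit 56) (nat_lit 0x2fdacb5fddd0bf9b1d7ee55aff0935ff17cbfb9857f783afeb1a5fdfc6bfcf9d7f780afeea5) (.hit (nat_lit 93) (nat_lit 13) (nat_lit 0x2fdacb5fcef2bf98657ee55aff0935fdc92bf91157f7092fe9f55fd3a2bf96597f4db2fe275) b54812 (.hit (nat_lit 99)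 (nat_lit 19) (nat_lit 0x2fc8865f9622bf4cfd7e3c0afdd285fab56bf49117ec80afd7735fb174bfcf9d7eff0afd707) b54817 (.one (nat_lit 6) (nat_lit 94) (nat_lit 14) (nat_lit 0x2fd0de5fddd0bf9b1d7e7faafe6695ff17cbfb9857f783afeb1a5fdfc6bf7f497f780afeea5) b54813 (.nil)))) (.one (nat_lit 68) (nat_lit 98) (nat_lit 18) (nat_lit 0x2fc8365f9720bf6c8d7e40b2fde405fa9e6bf4a2d7ebafafd5815fb148bfc4d57f27bafdc47) b54816 (.nil)))))) (.tok (nat_lit 52) (nat_lit 0x2fcd9d5fbedebf6bf17e6632fe9c45fe192bfb7f17f91f2ff6735fe808bfc3057f61b2fec35) (.hit (nat_lit 106) (nat_lit 39) (nat_lit 0x2fcb6a5fbedebf67797e2cf2fd97e5fd83abf93a57f1ed2fe0b65fd6a0bf9ef17ebd92fdeb9) b54818 (.hit (nat_lit 107) (nat_lit 40) (nat_lit 0x2fcd9d5fb1b6bf6bf17e6632fe9c45fe192bfb7f17f91f2ff6735fe808bfc3057f61b2fec35) b54819 (.nil))) (.tok (nat_lit 55) (nat_lit 0x300000600000c00001800fcb00000600000c00001800003000006003c4bfe60980000300000) (.hit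 (nat_lit 108) (nat_lit 41) (nat_lit 0x2ff0045ff7aebfc3997fa4daffe615feed2bfeb517ffca2ff8615ffa2ebfabcd7fdf22ff32e) b54820 (.tok (nat_lit 3) (nat_lit 0x3000005ff3b8bfe80d7fc7a3000005ff9fec000017fef32ff9645fe6e8bfd479800002ff5d8) (.hit (nat_lit 114) (nat_lit 47) (nat_lit 0x2fe6445fd6c4bfb8d17f7c92ff6605fe562bfc1417fac52ff4285fdd4abfa5457fb252feb03) b54826 (.one (nat_lit 67) (nat_lit 115) (nat_lit 48) (nat_lit 0x3000005ff3b8bfe80d7fc7a3000005ff9fec000017fef32ff9645fe6e8bfd479800002ff5d8) b54827 (.nil))) (.tok (nat_lit 6) (nat_lit 0x2ff98e600000c00001800fcaffdc8600000bffd9d800003000006003c4bfe6097feb9b00000) (.hit (nat_lit 109) (nat_lit 42) (nat_lit 0x2fe3ec5fc3b8bf94ed7f54faff51f5fdd32bfb1ad7f964afed275fd44cbfb7d97f0d62fe98d) b54821 (.hit (nat_lit 112) (nat_lit 45) (nat_lit 0x2fd74c5fd20ebfdaa97eb30aff1255ff106bfd1997fa912ff55c5fdebebf89c17fc04aff3b6) b54824 (.tok (nat_lit 55) (nat_lit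 0x2ff98e600000c00001800fcaffdc8600000bffd9d800003000006003c4bfe6097feb9b00000) (.hit (nat_lit 110) (nat_lit 43) (nat_lit 0x2ff98e5ff328bff2b17fda0aff52e5ff6e0bfe0757fdaeaffaa45ff508bfc3dd7f6382ff7fb) b54822 (.hit (nat_lit 113) (nat_lit 46) (nat_lit 0x2fe698600000c000017f2d6aff88f600000bffd9d7ffe73000005ffd32bf9b497feb9b00000) b54825 (.one (nat_lit 6) (nat_lit 111) (nat_lit 44) (nat_lit 0x2ff70f5fe63abfe9c1800fcaffdc85ff9b4bfe9d1800002fff066003c4bfe6097f03eaffb70) b54823 (.nil)))) (.nil)))) (.nil)))) (.one (nat_lit 58) (nat_lit 116) (nat_lit 49) (nat_lit 0x2fd63e5fbafabfafe17e6abafee6e5fe3a0bfb7c97f8782ff37d5fde46c029257f80a2feb90) b54828 (.nil)))))) (.nil))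
noncomputable def r81_1 : Rw Blk := .tok (nat_lit 9) (nat_lit 0x5e0000bc00017f89faff682) (.hit (nat_lit 0) (nat_lit 0) (nat_lit 0x5e0000bc00017ee012fe771) b54829 (.tok (nat_lit 14) (nat_lit 0x5e0000bc00017f3e4afe9c3) (.hit (nat_lit 11) (nat_lit 61) (nat_lit 0x5e0000bc00017f3e4afe302) b54830 (.one (nat_lit 3) (nat_lit 12) (nat_lit 62) (nat_lit 0x5e0000bc00017f31a2fd96a) b54831 (.tok (nat_lit 6) (nat_lit 0x5e0000bc00017f2252fe9c3) (.hit (nat_lit 15) (nat_lit 65) (nat_lit 0x5e0000bc00017f2252fe9c3) b54832 (.hit (nat_lit 16) (nat_lit 66) (nat_lit 0x5e0000bc00017ef67afe234) b54833 (.nil))) (.tok (nat_lit 9) (nat_lit 0x5e0000bc00017eeb42fe23e) (.hit (nat_lit 13) (nat_lit 63) (nat_lit 0x5e0000bc00017e9972fe23e) b54834 (.hit (nat_lit 14) (nat_lit 64) (nat_lit 0x5e0000bc00017eeb42fe080) b54835 (.nil))) (.nil))))) (.one (nat_lit 17) (nat_lit 17) (nat_lit 67) (nat_lit 0x5e0000bc00017ee172fcfe1)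 b54836 (.tok (nat_lit 20) (nat_lit 0x5e0000bc00017ed752fcea5) (.hit (nat_lit 18) (nat_lit 68) (nat_lit 0x5e0000bc00017df9aafce45) b54839 (.hit (nat_lit 19) (nat_lit 69) (nat_lit 0x5e0000bc00017ed752fcea5) b54840 (.nil))) (.tok (nat_lit 23) (nat_lit 0x5e0000bc00017f89faff682) (.hit (nat_lit 20) (nat_lit 70) (nat_lit 0x5e0000bc00017f89faff682) b54837 (.hit (nat_lit 21) (nat_lit 71) (nat_lit 0x5e0000bc00017eeceafd126) b54838 (.nil))) (.one (nat_lit 26) (nat_lit 22) (nat_lit 72) (nat_lit 0x5e0000bc00017e5f62fc146) b54841 (.one (nat_lit 29) (nat_lit 23) (nat_lit 73) (nat_lit 0x5e0000bc00017e5882fc273) b54842 (.one (nat_lit 32) (nat_lit 24) (nat_lit 74) (nat_lit 0x5e0000bc00017ea122fc9b5) b54844 (.one (nat_lit 35) (nat_lit 25) (nat_lit 75) (nat_lit 0x5e0000bc00017e4caafc0c4) b54843 (.one (nat_lit 38) (nat_lit 26) (nat_lit 76) (nat_lit 0x5e0000bc00017ed3aafcf19) b54845 (.tok (nat_lit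 41) (nat_lit 0x5e0000bc00017ee8fafd14e) (.hit (nat_lit 27) (nat_lit 77) (nat_lit 0x5e0000bc00017ea56afbbe5) b54846 (.hit (nat_lit 28) (nat_lit 78) (nat_lit 0x5e0000bc00017ee8fafd14e) b54847 (.nil))) (.tok (nat_lit 44) (nat_lit 0x5e0000bc00017efe42fd370) (.hit (nat_lit 29) (nat_lit 79) (nat_lit 0x5e0000bc00017d532afb975) b54850 (.hit (nat_lit 30) (nat_lit 80) (nat_lit 0x5e0000bc00017efe42fd370) b54851 (.nil))) (.tok (nat_lit 47) (nat_lit 0x5e0000bc00017efb6afd10a) (.hit (nat_lit 31) (nat_lit 81) (nat_lit 0x5e0000bc00017efb6afd10a) b54848 (.hit (nat_lit 32) (nat_lit 82) (nat_lit 0x5e0000bc00017e9972fc6ab) b54849 (.nil))) (.one (nat_lit 50) (nat_lit 33) (nat_lit 83) (nat_lit 0x5e0000bc00017e97cafc887) b54852 (.tok (nat_lit 53) (nat_lit 0x5e0000bc00017ed33afd419) (.hit (nat_lit 34) (nat_lit 84) (nat_lit 0x5e0000bc00017e7112fd419) b54853 (.hit (nat_lit 35) (nat_lit 85) (nat_lit 0x5e0000bc00017ed33afcf10)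 b54854 (.nil))) (.tok (nat_lit 56) (nat_lit 0x5e0000bc00017ededafe8cc) (.hit (nat_lit 36) (nat_lit 86) (nat_lit 0x5e0000bc00017ededafe8cc) b54855 (.one (nat_lit 3) (nat_lit 40) (nat_lit 90) (nat_lit 0x5e0000bc00017e149afd1a3) b54859 (.tok (nat_lit 6) (nat_lit 0x5e0000bc00017e69b2fdc46) (.hit (nat_lit 38) (nat_lit 88) (nat_lit 0x5e0000bc00017e69b2fdc46) b54857 (.hit (nat_lit 39) (nat_lit 89) (nat_lit 0x5e0000bc00017e3f5afd6fb) b54858 (.nil))) (.one (nat_lit 9) (nat_lit 37) (nat_lit 87) (nat_lit 0x5e0000bc00017e53f2fd98e) b54856 (.nil))))) (.one (nat_lit 59) (nat_lit 41) (nat_lit 91) (nat_lit 0x5e0000bc00017e9b1afc737) b54860 (.nil)))))))))))))))))) (.tok (nat_lit 64) (nat_lit 0x5e0000bc0001800003014af) (.hit (nat_lit 180) (nat_lit 0) (nat_lit 0x5e0000bc00017fe763014af) b54861 (.tok (nat_lit 6) (nat_lit 0x5e0000bc00017f1d4aff54a) (.hit (nat_lit 181) (nat_lit 7) (nat_lit 0x5e0000bc00017e6ec2ff0aa)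 b54864 (.hit (nat_lit 182) (nat_lit 15) (nat_lit 0x5e0000bc00017f1d4aff54a) b54865 (.nil))) (.tok (nat_lit 9) (nat_lit 0x5e0000bc000180000300bde) (.hit (nat_lit 183) (nat_lit 20) (nat_lit 0x5e0000bc000180000300bde) b54862 (.hit (nat_lit 184) (nat_lit 28) (nat_lit 0x5e0000bc00017f4752ff784) b54863 (.nil))) (.nil)))) (.tok (nat_lit 67) (nat_lit 0x5e0000bc00017f661b005a3) (.hit (nat_lit 205) (nat_lit 0) (nat_lit 0x5e0000bc00017f661aff1ba) b54874 (.tok (nat_lit 3) (nat_lit 0x5e0000bc00017f168b005a3) (.hit (nat_lit 206) (nat_lit 1) (nat_lit 0x5e0000bc00017e3e12fea94) b54875 (.one (nat_lit 55) (nat_lit 207) (nat_lit 3) (nat_lit 0x5e0000bc00017f168b005a3) b54876 (.nil))) (.tok (nat_lit 9) (nat_lit 0x5e0000bc00017e6e2aff097) (.hit (nat_lit 208) (nat_lit 20) (nat_lit 0x5e0000bc00017e6e2aff097) b54877 (.hit (nat_lit 211) (nat_lit 28) (nat_lit 0x5e0000bc00017e357afe981) b54878 (.nil))) (.nil))))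 (.tok (nat_lit 70) (nat_lit 0x5e0000bc00017fb04b017bd) (.hit (nat_lit 191) (nat_lit 0) (nat_lit 0x5e0000bc00017fb04aff7c6) b54866 (.tok (nat_lit 3) (nat_lit 0x5e0000bc00017f4aab00c27) (.hit (nat_lit 192) (nat_lit 1) (nat_lit 0x5e0000bc00017e3ac2fea2a) b54867 (.one (nat_lit 67) (nat_lit 193) (nat_lit 2) (nat_lit 0x5e0000bc00017f4aab00c27) b54868 (.nil))) (.tok (nat_lit 6) (nat_lit 0x5e0000bc00017fa75b017bd) (.hit (nat_lit 194) (nat_lit 7) (nat_lit 0x5e0000bc00017ea44aff75b) b54869 (.hit (nat_lit 197) (nat_lit 15) (nat_lit 0x5e0000bc00017e6a32ff018) b54872 (.tok (nat_lit 55) (nat_lit 0x5e0000bc00017fa75b017bd) (.hit (nat_lit 195) (nat_lit 8) (nat_lit 0x5e0000bc00017efce30026e) b54870 (.hit (nat_lit 198) (nat_lit 16) (nat_lit 0x5e0000bc00017f223b00719) b54873 (.one (nat_lit 6) (nat_lit 196) (nat_lit 9) (nat_lit 0x5e0000bc00017fa75b017bd) b54871 (.nil)))) (.nil)))) (.nil)))) (.nil))))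
noncomputable def r81_2 : Rw Blk := .tok (nat_lit 3) (nat_lit 0x5e0000bc00018046bb00bb5) (.hit (nat_lit 15) (nat_lit 0) (nat_lit 0x5e0000bc00017f2b82ff52f) b54886 (.tok (nat_lit 6) (nat_lit 0x5e0000bc00017e9ac2ff359) (.hit (nat_lit 16) (nat_lit 7) (nat_lit 0x5e0000bc00017e046afe08e) b54887 (.hit (nat_lit 21) (nat_lit 15) (nat_lit 0x5e0000bc00017d465afc8cc) b54892 (.tok (nat_lit 14) (nat_lit 0x5e0000bc00017e5fe2febfd) (.hit (nat_lit 17) (nat_lit 11) (nat_lit 0x5e0000bc00017deeaafddd6) b54888 (.hit (nat_lit 22) (nat_lit 17) (nat_lit 0x5e0000bc00017e4962fe92d) b54893 (.one (nat_lit 9) (nat_lit 18) (nat_lit 12) (nat_lit 0x5e0000bc00017e5fe2febfd) b54889 (.nil)))) (.tok (nat_lit 56) (nat_lit 0x5e0000bc00017e9ac2ff359) (.hit (nat_lit 19) (nat_lit 13) (nat_lit 0x5e0000bc00017e4672fe8cf) b54890 (.hit (nat_lit 24) (nat_lit 19) (nat_lit 0x5e0000bc00017e4d4afe9aa) b54894 (.one (nat_lit 6)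 (nat_lit 20) (nat_lit 14) (nat_lit 0x5e0000bc00017e9ac2ff359) b54891 (.nil)))) (.nil))))) (.tok (nat_lit 52) (nat_lit 0x5e0000bc00017ea1eaff43e) (.hit (nat_lit 25) (nat_lit 39) (nat_lit 0x5e0000bc00017e38bafe718) b54895 (.hit (nat_lit 26) (nat_lit 40) (nat_lit 0x5e0000bc00017ea1eaff43e) b54896 (.nil))) (.tok (nat_lit 55) (nat_lit 0x5e0000bc00018046bb00bb5) (.hit (nat_lit 27) (nat_lit 41) (nat_lit 0x5e0000bc00018046bb00bb5) b54897 (.tok (nat_lit 3) (nat_lit 0x5e0000bc00017ee3aaffc76) (.hit (nat_lit 33) (nat_lit 47) (nat_lit 0x5e0000bc00017ea2b2ff457) b54903 (.one (nat_lit 67) (nat_lit 34) (nat_lit 48) (nat_lit 0x5e0000bc00017ee3aaffc76) b54904 (.nil))) (.tok (nat_lit 6) (nat_lit 0x5e0000bc00017eb882ff711) (.hit (nat_lit 28) (nat_lit 42) (nat_lit 0x5e0000bc00017e67aafecf6) b54898 (.hit (nat_lit 31) (nat_lit 45) (nat_lit 0x5e0000bc00017e8162ff02d) b54901 (.tok (nat_lit 55) (nat_lit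 0x5e0000bc00017eb882ff711) (.hit (nat_lit 29) (nat_lit 43) (nat_lit 0x5e0000bc00017eb882ff711) b54899 (.hit (nat_lit 32) (nat_lit 46) (nat_lit 0x5e0000bc00017eb09aff614) b54902 (.one (nat_lit 6) (nat_lit 30) (nat_lit 44) (nat_lit 0x5e0000bc00017e6232fec47) b54900 (.nil)))) (.nil)))) (.nil)))) (.one (nat_lit 58) (nat_lit 35) (nat_lit 49) (nat_lit 0x5e0000bc00017e9912ff323) b54905 (.nil)))))) (.tok (nat_lit 9) (nat_lit 0x5e0000bc00018014e301556) (.hit (nat_lit 0) (nat_lit 0) (nat_lit 0x5e0000bc00017fca2301556) b54879 (.tok (nat_lit 9) (nat_lit 0x5e0000bc00018014e301362) (.hit (nat_lit 1) (nat_lit 20) (nat_lit 0x5e0000bc00017f15c2fe7a1) b54880 (.hit (nat_lit 4) (nat_lit 28) (nat_lit 0x5e0000bc00017eba5afe414) b54883 (.tok (nat_lit 14) (nat_lit 0x5e0000bc00018014e301362) (.hit (nat_lit 2) (nat_lit 24) (nat_lit 0x5e0000bc00017fe56b00d06) b54881 (.hit (nat_lit 5) (nat_lit 30) (nat_lit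 0x5e0000bc00017f105afe38a) b54884 (.one (nat_lit 6) (nat_lit 3) (nat_lit 25) (nat_lit 0x5e0000bc00018014e301362) b54882 (.nil)))) (.one (nat_lit 56) (nat_lit 6) (nat_lit 31) (nat_lit 0x5e0000bc00017fbc3affa9f) b54885 (.nil))))) (.nil))) (.nil))
noncomputable def r81_3 : Rw Blk := .tok (nat_lit 6) (nat_lit 0x2f00005e0000bfee41801c3300c55) (.hit (nat_lit 0) (nat_lit 0) (nat_lit 0x2f00005e0000bf51357f16e2fe068) b54906 (.tok (nat_lit 14) (nat_lit 0x2f00005e0000bfe3397fcef2ff52f) (.hit (nat_lit 21) (nat_lit 61) (nat_lit 0x2f00005e0000bfb1f97f6682fed5b) b54907 (.one (nat_lit 3) (nat_lit 22) (nat_lit 62) (nat_lit 0x2f00005e0000bfc34d7f1c0aff395) b54908 (.tok (nat_lit 6) (nat_lit 0x2f00005e0000bf71617f3812fe305) (.hit (nat_lit 25) (nat_lit 65) (nat_lit 0x2f00005e0000bee3f97f3812fd8e4) b54909 (.hit (nat_lit 26) (nat_lit 66) (nat_lit 0x2f00005e0000bf71617f2a3afe305) b54910 (.nil))) (.tok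 (nat_lit 9) (nat_lit 0x2f00005e0000bfe3397fcef2ff52f) (.hit (nat_lit 23) (nat_lit 63) (nat_lit 0x2f00005e0000bfe3397fcef2ff52f) b54911 (.hit (nat_lit 24) (nat_lit 64) (nat_lit 0x2f00005e0000bf6b5d7f2a82fd8a5) b54912 (.nil))) (.nil))))) (.one (nat_lit 17) (nat_lit 27) (nat_lit 67) (nat_lit 0x2f00005e0000bf8e497f0212fe37c) b54913 (.tok (nat_lit 20) (nat_lit 0x2f00005e0000bfee41801c3300c55) (.hit (nat_lit 28) (nat_lit 68) (nat_lit 0x2f00005e0000bfee41801c3300c55) b54916 (.hit (nat_lit 29) (nat_lit 69) (nat_lit 0x2f00005e0000bf5a517ebf22fd4be) b54917 (.nil))) (.tok (nat_lit 23) (nat_lit 0x2f00005e0000bf4ec97eb22afd693) (.hit (nat_lit 30) (nat_lit 70) (nat_lit 0x2f00005e0000bea1057eb22afc827) b54914 (.hit (nat_lit 31) (nat_lit 71) (nat_lit 0x2f00005e0000bf4ec97e9992fd693) b54915 (.nil))) (.one (nat_lit 26) (nat_lit 32) (nat_lit 72) (nat_lit 0x2f00005e0000bf331d7e6b7afca4a) b54918 (.one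 (nat_lit 29) (nat_lit 33) (nat_lit 73) (nat_lit 0x2f00005e0000bf48257e939afd7b2) b54919 (.one (nat_lit 32) (nat_lit 34) (nat_lit 74) (nat_lit 0x2f00005e0000bf14417e33f2fc35d) b54921 (.one (nat_lit 35) (nat_lit 35) (nat_lit 75) (nat_lit 0x2f00005e0000bf724d7e9daafdd97) b54920 (.one (nat_lit 50) (nat_lit 43) (nat_lit 83) (nat_lit 0x2f00005e0000bf6db57eb6bafd7c7) b54931 (.tok (nat_lit 53) (nat_lit 0x2f00005e0000bf998d7ef47afec7b) (.hit (nat_lit 44) (nat_lit 84) (nat_lit 0x2f00005e0000bf998d7ef47afec7b) b54932 (.hit (nat_lit 45) (nat_lit 85) (nat_lit 0x2f00005e0000bf69557ed1f2fe00b) b54933 (.nil))) (.tok (nat_lit 56) (nat_lit 0x2f00005e0000bfae5d7fb8eaff7bf) (.hit (nat_lit 46) (nat_lit 86) (nat_lit 0x2f00005e0000bfa1657f9fa2fe9b7) b54934 (.one (nat_lit 3) (nat_lit 50) (nat_lit 90) (nat_lit 0x2f00005e0000bf6f6d7f0d1afdbfc) b54938 (.tok (nat_lit 6) (nat_lit 0x2f00005e0000bfa1317f184afeddf)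 (.hit (nat_lit 48) (nat_lit 88) (nat_lit 0x2f00005e0000bfa1317f184afeddf) b54936 (.hit (nat_lit 49) (nat_lit 89) (nat_lit 0x2f00005e0000bf89957ee2fafe3cd) b54937 (.nil))) (.one (nat_lit 9) (nat_lit 47) (nat_lit 87) (nat_lit 0x2f00005e0000bfae5d7fb8eaff7bf) b54935 (.nil))))) (.one (nat_lit 59) (nat_lit 51) (nat_lit 91) (nat_lit 0x2f00005e0000bf56e57e8412fd64a) b54939 (.one (nat_lit 62) (nat_lit 52) (nat_lit 92) (nat_lit 0x2f00005e0000bf32297e9502fcaf7) b54922 (.tok (nat_lit 65) (nat_lit 0x2f00005e0000bf61697ea90afd599) (.hit (nat_lit 53) (nat_lit 93) (nat_lit 0x2f00005e0000bf61697ea90afd05d) b54923 (.hit (nat_lit 54) (nat_lit 94) (nat_lit 0x2f00005e0000bf0c997ea5fafd599) b54924 (.nil))) (.tok (nat_lit 68) (nat_lit 0x2f00005e0000bf2c057f6eeafdeb6) (.hit (nat_lit 55) (nat_lit 95) (nat_lit 0x2f00005e0000bf2c057f6eeafdeb6) b54925 (.one (nat_lit 3) (nat_lit 59) (nat_lit 99) (nat_lit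 0x2f00005e0000be9f117eae42fc7aa) b54929 (.one (nat_lit 6) (nat_lit 56) (nat_lit 96) (nat_lit 0x2f00005e0000beaf9d7ecf5afcbcd) b54926 (.tok (nat_lit 9) (nat_lit 0x2f00005e0000bee74d7f3ebafd9b9) (.hit (nat_lit 57) (nat_lit 97) (nat_lit 0x2f00005e0000bee74d7f3ebafd9b9) b54927 (.hit (nat_lit 58) (nat_lit 98) (nat_lit 0x2f00005e0000bec6057efc2afd167) b54928 (.nil))) (.nil))))) (.one (nat_lit 71) (nat_lit 60) (nat_lit 100) (nat_lit 0x2f00005e0000bf4cc57e89aafd4a8) b54930 (.nil)))))))))))))))))) (.tok (nat_lit 52) (nat_lit 0x2f00005e0000c0000180ada300c34) (.hit (nat_lit 176) (nat_lit 0) (nat_lit 0x2f00005e0000c0000180ada300c34) b54940 (.tok (nat_lit 6) (nat_lit 0x2f00005e0000bfb06980113aff713) (.hit (nat_lit 177) (nat_lit 7) (nat_lit 0x2f00005e0000bfb06980113aff713) b54943 (.hit (nat_lit 178) (nat_lit 15) (nat_lit 0x2f00005e0000bf6ce57fa1fafea00) b54944 (.nil))) (.tok (nat_lit 9) (nat_lit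 0x2f00005e0000bfa3ad7fbebaff5e9) (.hit (nat_lit 179) (nat_lit 20) (nat_lit 0x2f00005e0000bf554d7fbebafdfad) b54941 (.hit (nat_lit 180) (nat_lit 28) (nat_lit 0x2f00005e0000bfa3ad7fb732ff5e9) b54942 (.nil))) (.nil)))) (.tok (nat_lit 55) (nat_lit 0x2f00005e0000bf93bd803b9afef49) (.hit (nat_lit 187) (nat_lit 0) (nat_lit 0x2f00005e0000bf8aa57fd072febd0) b54953 (.tok (nat_lit 3) (nat_lit 0x2f00005e0000bf6fc57ff3aafe64b) (.hit (nat_lit 188) (nat_lit 1) (nat_lit 0x2f00005e0000bf15357f3e8afcfa7) b54954 (.one (nat_lit 67) (nat_lit 189) (nat_lit 2) (nat_lit 0x2f00005e0000bf6fc57ff3aafe64b) b54955 (.nil))) (.tok (nat_lit 6) (nat_lit 0x2f00005e0000bf93bd803b9afef49) (.hit (nat_lit 190) (nat_lit 7) (nat_lit 0x2f00005e0000bf3f497f92b2fda2c) b54956 (.hit (nat_lit 193) (nat_lit 15) (nat_lit 0x2f00005e0000bf188d7f453afd07d) b54959 (.tok (nat_lit 55) (nat_lit 0x2f00005e0000bf93bd803b9afef49) (.hit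 (nat_lit 191) (nat_lit 8) (nat_lit 0x2f00005e0000bf7ae98009f2fe914) b54957 (.hit (nat_lit 194) (nat_lit 16) (nat_lit 0x2f00005e0000bf7a81800922fe8fa) b54960 (.one (nat_lit 6) (nat_lit 192) (nat_lit 9) (nat_lit 0x2f00005e0000bf93bd803b9afef49) b54958 (.nil)))) (.nil)))) (.nil)))) (.tok (nat_lit 58) (nat_lit 0x2f00005e0000bfc021809462ffa62) (.hit (nat_lit 201) (nat_lit 0) (nat_lit 0x2f00005e0000bf9de17ff792ff37a) b54945 (.tok (nat_lit 3) (nat_lit 0x2f00005e0000bf9b85804b2aff13b) (.hit (nat_lit 202) (nat_lit 1) (nat_lit 0x2f00005e0000bf35297f7e72fd7a4) b54946 (.one (nat_lit 55) (nat_lit 203) (nat_lit 3) (nat_lit 0x2f00005e0000bf9b85804b2aff13b) b54947 (.nil))) (.tok (nat_lit 9) (nat_lit 0x2f00005e0000bfc021809462ffa62) (.hit (nat_lit 204) (nat_lit 20) (nat_lit 0x2f00005e0000bf3cf57f8e0afd997) b54948 (.hit (nat_lit 207) (nat_lit 28) (nat_lit 0x2f00005e0000bf3da97f8f72fd9c4) b54951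 (.tok (nat_lit 67) (nat_lit 0x2f00005e0000bfc021809462ffa62) (.hit (nat_lit 205) (nat_lit 21) (nat_lit 0x2f00005e0000bf70d17ff5c2fe68e) b54949 (.hit (nat_lit 208) (nat_lit 29) (nat_lit 0x2f00005e0000bfa69580614aff3ff) b54952 (.one (nat_lit 9) (nat_lit 206) (nat_lit 22) (nat_lit 0x2f00005e0000bfc021809462ffa62) b54950 (.nil)))) (.nil)))) (.nil)))) (.nil))))
noncomputable def r81_4 : Rw Blk := .tok (nat_lit 3) (nat_lit 0x2f00005e0000c04b2981234b0243c) (.hit (nat_lit 15) (nat_lit 0) (nat_lit 0x2f00005e0000c00cfd801b830119b) b54972 (.tok (nat_lit 9) (nat_lit 0x2f00005e0000bfcc2d7f8222ff6a0) (.hit (nat_lit 16) (nat_lit 20) (nat_lit 0x2f00005e0000bf01457e6f42fcc11) b54973 (.hit (nat_lit 21) (nat_lit 28) (nat_lit 0x2f00005e0000bf3ebd7e134afdc6c) b54976 (.one (nat_lit 56) (nat_lit 23) (nat_lit 31) (nat_lit 0x2f00005e0000bfcc2d7f7932ff6a0) b54977 (.tok (nat_lit 68) (nat_lit 0x2f00005e0000bf73e97f8222fe8ba)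 (.hit (nat_lit 19) (nat_lit 26) (nat_lit 0x2f00005e0000bf45617eb3aafdd18) b54974 (.hit (nat_lit 24) (nat_lit 32) (nat_lit 0x2f00005e0000bf5ea97f2f0afe776) b54978 (.one (nat_lit 9) (nat_lit 20) (nat_lit 27) (nat_lit 0x2f00005e0000bf73e97f8222fe8ba) b54975 (.nil)))) (.nil))))) (.tok (nat_lit 64) (nat_lit 0x2f00005e0000bfa94d7f89f2ff8c1) (.hit (nat_lit 25) (nat_lit 50) (nat_lit 0x2f00005e0000bf94f57f471aff8c1) b54979 (.hit (nat_lit 26) (nat_lit 51) (nat_lit 0x2f00005e0000bfa94d7f89f2fef82) b54980 (.nil))) (.tok (nat_lit 67) (nat_lit 0x2f00005e0000c04b2981234b01792) (.hit (nat_lit 27) (nat_lit 52) (nat_lit 0x2f00005e0000c04b2981234b01792) b54981 (.one (nat_lit 3) (nat_lit 33) (nat_lit 58) (nat_lit 0x2f00005e0000bf70697f30a2fe7da) b54987 (.tok (nat_lit 9) (nat_lit 0x2f00005e0000bf90457f86d2fefd1) (.hit (nat_lit 28) (nat_lit 53) (nat_lit 0x2f00005e0000bf74117f469afe8c4) b54982 (.hit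 (nat_lit 31) (nat_lit 56) (nat_lit 0x2f00005e0000bf66897f0fb2fe562) b54985 (.tok (nat_lit 67) (nat_lit 0x2f00005e0000bf90457f86d2fefd1) (.hit (nat_lit 29) (nat_lit 54) (nat_lit 0x2f00005e0000bf90457f670afefd1) b54983 (.hit (nat_lit 32) (nat_lit 57) (nat_lit 0x2f00005e0000bf8e217f86d2fef48) b54986 (.one (nat_lit 9) (nat_lit 30) (nat_lit 55) (nat_lit 0x2f00005e0000bf62797f103afe45e) b54984 (.nil)))) (.nil)))) (.nil)))) (.one (nat_lit 70) (nat_lit 35) (nat_lit 60) (nat_lit 0x2f00005e0000c03b257fe59b0243c) b54988 (.nil)))))) (.tok (nat_lit 6) (nat_lit 0x2f00005e0000c0dc7182520304ac8) (.hit (nat_lit 0) (nat_lit 0) (nat_lit 0x2f00005e0000c013e980689300de9) b54961 (.tok (nat_lit 6) (nat_lit 0x2f00005e0000c01b8d80b5f300b6e) (.hit (nat_lit 1) (nat_lit 7) (nat_lit 0x2f00005e0000bf52817f3a5afdfc2) b54962 (.hit (nat_lit 4) (nat_lit 15) (nat_lit 0x2f00005e0000bf77cd7f43b2fe700) b54963 (.one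 (nat_lit 68) (nat_lit 6) (nat_lit 18) (nat_lit 0x2f00005e0000c01b8d80b5f300b6e) b54964 (.nil)))) (.tok (nat_lit 52) (nat_lit 0x2f00005e0000c0d7c182520304ac8) (.hit (nat_lit 7) (nat_lit 39) (nat_lit 0x2f00005e0000c0d7c182520304ac8) b54965 (.hit (nat_lit 8) (nat_lit 40) (nat_lit 0x2f00005e0000c03ce980a8330124c) b54966 (.nil))) (.tok (nat_lit 55) (nat_lit 0x2f00005e0000c0dc718230a30496e) (.hit (nat_lit 9) (nat_lit 41) (nat_lit 0x2f00005e0000c09f1d8199c3033d4) b54967 (.one (nat_lit 3) (nat_lit 12) (nat_lit 47) (nat_lit 0x2f00005e0000bfd8358063c300caf) b54970 (.tok (nat_lit 6) (nat_lit 0x2f00005e0000c0dc718230a30496e) (.hit (nat_lit 10) (nat_lit 42) (nat_lit 0x2f00005e0000c0dc718230a30496e) b54968 (.hit (nat_lit 11) (nat_lit 45) (nat_lit 0x2f00005e0000bfea018048430012e) b54969 (.nil))) (.nil)))) (.one (nat_lit 58) (nat_lit 14) (nat_lit 49) (nat_lit 0x2f00005e0000c0cd5581e19b041e8)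 b54971 (.nil)))))) (.nil))
noncomputable def r81_5 : Rw Blk := .tok (nat_lit 6) (nat_lit 0x5e0000bc0001808f9b01e90) (.hit (nat_lit 0) (nat_lit 0) (nat_lit 0x5e0000bc00017fbd2b00955) b54989 (.one (nat_lit 26) (nat_lit 12) (nat_lit 72) (nat_lit 0x5e0000bc00017fa87aff6b3) b54990 (.one (nat_lit 29) (nat_lit 13) (nat_lit 73) (nat_lit 0x5e0000bc00017fd8daffdca) b54991 (.one (nat_lit 32) (nat_lit 14) (nat_lit 74) (nat_lit 0x5e0000bc00017f07a2fe9c9) b54993 (.one (nat_lit 35) (nat_lit 15) (nat_lit 75) (nat_lit 0x5e0000bc00017fb482ffb82) b54992 (.one (nat_lit 38) (nat_lit 16) (nat_lit 76) (nat_lit 0x5e0000bc00017f2b32fe8e5) b54994 (.tok (nat_lit 41) (nat_lit 0x5e0000bc00017f0a62ff633) (.hit (nat_lit 17) (nat_lit 77) (nat_lit 0x5e0000bc00017ec5e2ff633) b54995 (.hit (nat_lit 18) (nat_lit 78) (nat_lit 0x5e0000bc00017f0a62ff301) b54996 (.nil))) (.tok (nat_lit 44) (nat_lit 0x5e0000bc00017f6092ffca0)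 (.hit (nat_lit 19) (nat_lit 79) (nat_lit 0x5e0000bc00017f6092ffca0) b54999 (.hit (nat_lit 20) (nat_lit 80) (nat_lit 0x5e0000bc00017eb75afe741) b55000 (.nil))) (.tok (nat_lit 47) (nat_lit 0x5e0000bc00017f56b2ff256) (.hit (nat_lit 21) (nat_lit 81) (nat_lit 0x5e0000bc00017eabfafdc24) b54997 (.hit (nat_lit 22) (nat_lit 82) (nat_lit 0x5e0000bc00017f56b2ff256) b54998 (.nil))) (.one (nat_lit 62) (nat_lit 23) (nat_lit 92) (nat_lit 0x5e0000bc00017feaeaffe15) b55001 (.tok (nat_lit 65) (nat_lit 0x5e0000bc00017f4ae2ffeb3) (.hit (nat_lit 24) (nat_lit 93) (nat_lit 0x5e0000bc00017f3a82ffeb3) b55002 (.hit (nat_lit 25) (nat_lit 94) (nat_lit 0x5e0000bc00017f4ae2ff123) b55003 (.nil))) (.tok (nat_lit 68) (nat_lit 0x5e0000bc0001808f9b01e90) (.hit (nat_lit 26) (nat_lit 95) (nat_lit 0x5e0000bc0001808f9b01e90) b55004 (.one (nat_lit 3) (nat_lit 30) (nat_lit 99) (nat_lit 0x5e0000bc00017f6932ff3cb) b55008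 (.one (nat_lit 6) (nat_lit 27) (nat_lit 96) (nat_lit 0x5e0000bc00017f429afeef8) b55005 (.tok (nat_lit 9) (nat_lit 0x5e0000bc00017f55faff164) (.hit (nat_lit 28) (nat_lit 97) (nat_lit 0x5e0000bc00017f55faff164) b55006 (.hit (nat_lit 29) (nat_lit 98) (nat_lit 0x5e0000bc00017efaeafe602) b55007 (.nil))) (.nil))))) (.one (nat_lit 71) (nat_lit 31) (nat_lit 100) (nat_lit 0x5e0000bc00017f5d32ff164) b55009 (.nil)))))))))))))) (.tok (nat_lit 52) (nat_lit 0x5e0000bc000181994b039c1) (.hit (nat_lit 45) (nat_lit 0) (nat_lit 0x5e0000bc000181994b039c1) b55021 (.tok (nat_lit 6) (nat_lit 0x5e0000bc00018148c302f34) (.hit (nat_lit 46) (nat_lit 7) (nat_lit 0x5e0000bc00018148c302f34) b55024 (.hit (nat_lit 47) (nat_lit 15) (nat_lit 0x5e0000bc000180f9d302bc8) b55025 (.nil))) (.tok (nat_lit 9) (nat_lit 0x5e0000bc000180055301028) (.hit (nat_lit 48) (nat_lit 20) (nat_lit 0x5e0000bc00017f858aff576) b55022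 (.hit (nat_lit 49) (nat_lit 28) (nat_lit 0x5e0000bc000180055301028) b55023 (.nil))) (.nil)))) (.tok (nat_lit 55) (nat_lit 0x5e0000bc000180828b01516) (.hit (nat_lit 40) (nat_lit 0) (nat_lit 0x5e0000bc000180607b00c7a) b55017 (.one (nat_lit 3) (nat_lit 41) (nat_lit 1) (nat_lit 0x5e0000bc00017fe7d3001bf) b55018 (.tok (nat_lit 6) (nat_lit 0x5e0000bc000180828b01516) (.hit (nat_lit 43) (nat_lit 7) (nat_lit 0x5e0000bc000180828b01516) b55019 (.hit (nat_lit 44) (nat_lit 15) (nat_lit 0x5e0000bc00017f9bcaff83e) b55020 (.nil))) (.nil)))) (.tok (nat_lit 58) (nat_lit 0x5e0000bc00018120b3028db) (.hit (nat_lit 32) (nat_lit 0) (nat_lit 0x5e0000bc000180a2c3028cd) b55010 (.one (nat_lit 3) (nat_lit 33) (nat_lit 1) (nat_lit 0x5e0000bc0001809183016f5) b55011 (.tok (nat_lit 9) (nat_lit 0x5e0000bc00018120b3028db) (.hit (nat_lit 35) (nat_lit 20) (nat_lit 0x5e0000bc000180b84301bcd) b55012 (.hit (nat_lit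 38) (nat_lit 28) (nat_lit 0x5e0000bc00018075d30137f) b55015 (.tok (nat_lit 67) (nat_lit 0x5e0000bc00018120b3028db) (.hit (nat_lit 36) (nat_lit 21) (nat_lit 0x5e0000bc000180ed6302271) b55013 (.hit (nat_lit 39) (nat_lit 29) (nat_lit 0x5e0000bc00018114a302759) b55016 (.one (nat_lit 9) (nat_lit 37) (nat_lit 22) (nat_lit 0x5e0000bc00018120b3028db) b55014 (.nil)))) (.nil)))) (.nil)))) (.nil))))
noncomputable def r81_6 : Rw Blk := .tok (nat_lit 3) (nat_lit 0x5e0000bc000181cb9b032c9) (.hit (nat_lit 0) (nat_lit 0) (nat_lit 0x5e0000bc000181cb9b032c9) b55026 (.tok (nat_lit 9) (nat_lit 0x5e0000bc000181204b01d2c) (.hit (nat_lit 1) (nat_lit 20) (nat_lit 0x5e0000bc00017f9ddafecde) b55027 (.hit (nat_lit 6) (nat_lit 28) (nat_lit 0x5e0000bc00017fc9faff262) b55032 (.tok (nat_lit 14) (nat_lit 0x5e0000bc00018104bb019ba) (.hit (nat_lit 2) (nat_lit 24) (nat_lit 0x5e0000bc0001807b8300893) b55028 (.hit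 (nat_lit 7) (nat_lit 30) (nat_lit 0x5e0000bc00018104bb019ba) b55033 (.one (nat_lit 6) (nat_lit 3) (nat_lit 25) (nat_lit 0x5e0000bc000180685b0062e) b55029 (.nil)))) (.tok (nat_lit 68) (nat_lit 0x5e0000bc000181204b01d2c) (.hit (nat_lit 4) (nat_lit 26) (nat_lit 0x5e0000bc00018031bafff5a) b55030 (.hit (nat_lit 8) (nat_lit 32) (nat_lit 0x5e0000bc000180c5e3011df) b55034 (.one (nat_lit 9) (nat_lit 5) (nat_lit 27) (nat_lit 0x5e0000bc000181204b01d2c) b55031 (.nil)))) (.nil))))) (.nil))) (.tok (nat_lit 6) (nat_lit 0x5e0000bc000182ed2306714) (.hit (nat_lit 20) (nat_lit 0) (nat_lit 0x5e0000bc00018259ab04865) b55035 (.tok (nat_lit 6) (nat_lit 0x5e0000bc000182ed2306714) (.hit (nat_lit 21) (nat_lit 7) (nat_lit 0x5e0000bc0001819a6b02f56) b55036 (.hit (nat_lit 24) (nat_lit 15) (nat_lit 0x5e0000bc0001815ba3025f6) b55039 (.tok (nat_lit 14) (nat_lit 0x5e0000bc000182ed2306714) (.hit (nat_lit 22) (nat_lit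 11) (nat_lit 0x5e0000bc0001824df304bcc) b55037 (.hit (nat_lit 25) (nat_lit 17) (nat_lit 0x5e0000bc000181b8d303c31) b55040 (.one (nat_lit 9) (nat_lit 23) (nat_lit 12) (nat_lit 0x5e0000bc000182ed2306714) b55038 (.nil)))) (.nil)))) (.nil))) (.nil))
noncomputable def r81_7 : Rw Blk := .tok (nat_lit 6) (nat_lit 0x5e0000bc00017f9c7b00096) (.hit (nat_lit 0) (nat_lit 0) (nat_lit 0x5e0000bc00017e5a52fe7cf) b55041 (.tok (nat_lit 14) (nat_lit 0x5e0000bc00017f9c7b00096) (.hit (nat_lit 21) (nat_lit 61) (nat_lit 0x5e0000bc00017f2a7afec61) b55042 (.one (nat_lit 3) (nat_lit 22) (nat_lit 62) (nat_lit 0x5e0000bc00017ebf2afdf43) b55043 (.tok (nat_lit 6) (nat_lit 0x5e0000bc00017ec2dafe642) (.hit (nat_lit 25) (nat_lit 65) (nat_lit 0x5e0000bc00017e2c9afe153) b55044 (.hit (nat_lit 26) (nat_lit 66) (nat_lit 0x5e0000bc00017ec2dafe642) b55045 (.nil))) (.tok (nat_lit 9) (nat_lit 0x5e0000bc00017f9c7b00096)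 (.hit (nat_lit 23) (nat_lit 63) (nat_lit 0x5e0000bc00017f9c7b00096) b55046 (.hit (nat_lit 24) (nat_lit 64) (nat_lit 0x5e0000bc00017ee6d2fe3ef) b55047 (.nil))) (.nil))))) (.one (nat_lit 17) (nat_lit 27) (nat_lit 67) (nat_lit 0x5e0000bc00017e6feafd513) b55048 (.tok (nat_lit 20) (nat_lit 0x5e0000bc00017eb80afee79) (.hit (nat_lit 28) (nat_lit 68) (nat_lit 0x5e0000bc00017eb80afee79) b55051 (.hit (nat_lit 29) (nat_lit 69) (nat_lit 0x5e0000bc00017e567afd1e2) b55052 (.nil))) (.tok (nat_lit 23) (nat_lit 0x5e0000bc00017e6e9afd9d4) (.hit (nat_lit 30) (nat_lit 70) (nat_lit 0x5e0000bc00017df0a2fd9d4) b55049 (.hit (nat_lit 31) (nat_lit 71) (nat_lit 0x5e0000bc00017e6e9afd50d) b55050 (.nil))) (.one (nat_lit 26) (nat_lit 32) (nat_lit 72) (nat_lit 0x5e0000bc00017e334afcd91) b55053 (.one (nat_lit 29) (nat_lit 33) (nat_lit 73) (nat_lit 0x5e0000bc00017e25f2fcde0) b55054 (.one (nat_lit 32) (nat_lit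 34) (nat_lit 74) (nat_lit 0x5e0000bc00017de5b2fc3f2) b55056 (.one (nat_lit 35) (nat_lit 35) (nat_lit 75) (nat_lit 0x5e0000bc00017e61dafd355) b55055 (.one (nat_lit 50) (nat_lit 43) (nat_lit 83) (nat_lit 0x5e0000bc00017e9e3afdadb) b55066 (.tok (nat_lit 53) (nat_lit 0x5e0000bc00017ead82fe90f) (.hit (nat_lit 44) (nat_lit 84) (nat_lit 0x5e0000bc00017ead82fe90f) b55067 (.hit (nat_lit 45) (nat_lit 85) (nat_lit 0x5e0000bc00017e89e2fd8c6) b55068 (.nil))) (.tok (nat_lit 56) (nat_lit 0x5e0000bc00017f5e22ff7c1) (.hit (nat_lit 46) (nat_lit 86) (nat_lit 0x5e0000bc00017f1b72ff3fd) b55069 (.one (nat_lit 3) (nat_lit 50) (nat_lit 90) (nat_lit 0x5e0000bc00017ec70afe26b) b55073 (.tok (nat_lit 6) (nat_lit 0x5e0000bc00017f5e22ff6e9) (.hit (nat_lit 48) (nat_lit 88) (nat_lit 0x5e0000bc00017f5e22ff6e9) b55071 (.hit (nat_lit 49) (nat_lit 89) (nat_lit 0x5e0000bc00017ebe8afdf44) b55072 (.nil))) (.one (nat_lit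 9) (nat_lit 47) (nat_lit 87) (nat_lit 0x5e0000bc00017f430aff7c1) b55070 (.nil))))) (.one (nat_lit 59) (nat_lit 51) (nat_lit 91) (nat_lit 0x5e0000bc00017e6152fd33e) b55074 (.one (nat_lit 62) (nat_lit 52) (nat_lit 92) (nat_lit 0x5e0000bc00017e422afd01c) b55057 (.tok (nat_lit 65) (nat_lit 0x5e0000bc00017e28f2fd68c) (.hit (nat_lit 53) (nat_lit 93) (nat_lit 0x5e0000bc00017e024afd68c) b55058 (.hit (nat_lit 54) (nat_lit 94) (nat_lit 0x5e0000bc00017e28f2fd15f) b55059 (.nil))) (.tok (nat_lit 68) (nat_lit 0x5e0000bc00017e6132ff0df) (.hit (nat_lit 55) (nat_lit 95) (nat_lit 0x5e0000bc00017e6132ff0df) b55060 (.one (nat_lit 3) (nat_lit 59) (nat_lit 99) (nat_lit 0x5e0000bc00017de1fafd7ff) b55064 (.one (nat_lit 6) (nat_lit 56) (nat_lit 96) (nat_lit 0x5e0000bc00017dd6f2fd69e) b55061 (.tok (nat_lit 9) (nat_lit 0x5e0000bc00017dfb6afdb2d) (.hit (nat_lit 57) (nat_lit 97) (nat_lit 0x5e0000bc00017dfb6afdb2d)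 b55062 (.hit (nat_lit 58) (nat_lit 98) (nat_lit 0x5e0000bc00017de8dafd8db) b55063 (.nil))) (.nil))))) (.one (nat_lit 71) (nat_lit 60) (nat_lit 100) (nat_lit 0x5e0000bc00017e4272fcfa5) b55065 (.nil)))))))))))))))))) (.tok (nat_lit 52) (nat_lit 0x5e0000bc00017f56ab00769) (.hit (nat_lit 176) (nat_lit 0) (nat_lit 0x5e0000bc00017f475b00630) b55075 (.tok (nat_lit 6) (nat_lit 0x5e0000bc00017f56ab00769) (.hit (nat_lit 177) (nat_lit 7) (nat_lit 0x5e0000bc00017f56ab00769) b55078 (.hit (nat_lit 178) (nat_lit 15) (nat_lit 0x5e0000bc00017ed5a2ff511) b55079 (.nil))) (.tok (nat_lit 9) (nat_lit 0x5e0000bc00017f177affe5e) (.hit (nat_lit 179) (nat_lit 20) (nat_lit 0x5e0000bc00017ea582fee68) b55076 (.hit (nat_lit 180) (nat_lit 28) (nat_lit 0x5e0000bc00017f177affe5e) b55077 (.nil))) (.nil)))) (.tok (nat_lit 55) (nat_lit 0x5e0000bc00017f708afffb4) (.hit (nat_lit 187) (nat_lit 0) (nat_lit 0x5e0000bc00017f708afffb4)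 b55088 (.tok (nat_lit 3) (nat_lit 0x5e0000bc00017ed83aff4bf) (.hit (nat_lit 188) (nat_lit 1) (nat_lit 0x5e0000bc00017e6e12fe77a) b55089 (.one (nat_lit 67) (nat_lit 189) (nat_lit 2) (nat_lit 0x5e0000bc00017ed83aff4bf) b55090 (.nil))) (.tok (nat_lit 6) (nat_lit 0x5e0000bc00017f21baffdef) (.hit (nat_lit 190) (nat_lit 7) (nat_lit 0x5e0000bc00017e550afe459) b55091 (.hit (nat_lit 193) (nat_lit 15) (nat_lit 0x5e0000bc00017e6eaafe78d) b55094 (.tok (nat_lit 55) (nat_lit 0x5e0000bc00017f21baffdef) (.hit (nat_lit 191) (nat_lit 8) (nat_lit 0x5e0000bc00017ed102ff3d8) b55092 (.hit (nat_lit 194) (nat_lit 16) (nat_lit 0x5e0000bc00017ee65aff683) b55095 (.one (nat_lit 6) (nat_lit 192) (nat_lit 9) (nat_lit 0x5e0000bc00017f21baffdef) b55093 (.nil)))) (.nil)))) (.nil)))) (.tok (nat_lit 58) (nat_lit 0x5e0000bc0001800003019b8) (.hit (nat_lit 201) (nat_lit 0) (nat_lit 0x5e0000bc00017f084aff132) b55080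 (.tok (nat_lit 3) (nat_lit 0x5e0000bc00017f3bab0012d) (.hit (nat_lit 202) (nat_lit 1) (nat_lit 0x5e0000bc00017e7772fe8a6) b55081 (.one (nat_lit 55) (nat_lit 203) (nat_lit 3) (nat_lit 0x5e0000bc00017f3bab0012d) b55082 (.nil))) (.tok (nat_lit 9) (nat_lit 0x5e0000bc0001800003019b8) (.hit (nat_lit 204) (nat_lit 20) (nat_lit 0x5e0000bc00017eb25aff003) b55083 (.hit (nat_lit 207) (nat_lit 28) (nat_lit 0x5e0000bc00017e6812fe6ba) b55086 (.tok (nat_lit 67) (nat_lit 0x5e0000bc0001800003019b8) (.hit (nat_lit 205) (nat_lit 21) (nat_lit 0x5e0000bc00017f1782ffca8) b55084 (.hit (nat_lit 208) (nat_lit 29) (nat_lit 0x5e0000bc00017f360b00079) b55087 (.one (nat_lit 9) (nat_lit 206) (nat_lit 22) (nat_lit 0x5e0000bc0001800003019b8) b55085 (.nil)))) (.nil)))) (.nil)))) (.nil))))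
noncomputable def r81_8 : Rw Blk := .tok (nat_lit 3) (nat_lit 0x5e0000bc000180cdbb01855) (.hit (nat_lit 15) (nat_lit 0) (nat_lit 0x5e0000bc00017f31f2ff177) b55107 (.tok (nat_lit 9) (nat_lit 0x5e0000bc00017ed702fe1b1) (.hit (nat_lit 16) (nat_lit 20) (nat_lit 0x5e0000bc00017e285afcbdc) b55108 (.hit (nat_lit 21) (nat_lit 28) (nat_lit 0x5e0000bc00017d2292fab23) b55111 (.one (nat_lit 56) (nat_lit 23) (nat_lit 31) (nat_lit 0x5e0000bc00017e6a52fd41b) b55112 (.tok (nat_lit 68) (nat_lit 0x5e0000bc00017ed702fe1b1) (.hit (nat_lit 19) (nat_lit 26) (nat_lit 0x5e0000bc00017e8592fd783) b55109 (.hit (nat_lit 24) (nat_lit 32) (nat_lit 0x5e0000bc00017e465afcf9c) b55113 (.one (nat_lit 9) (nat_lit 20) (nat_lit 27) (nat_lit 0x5e0000bc00017ed702fe1b1) b55110 (.nil)))) (.nil))))) (.tok (nat_lit 64) (nat_lit 0x5e0000bc00017eb962fddfd) (.hit (nat_lit 25) (nat_lit 50) (nat_lit 0x5e0000bc00017eb962fddfd)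 b55114 (.hit (nat_lit 26) (nat_lit 51) (nat_lit 0x5e0000bc00017e962afd996) b55115 (.nil))) (.tok (nat_lit 67) (nat_lit 0x5e0000bc000180cdbb01855) (.hit (nat_lit 27) (nat_lit 52) (nat_lit 0x5e0000bc000180cdbb01855) b55116 (.one (nat_lit 3) (nat_lit 33) (nat_lit 58) (nat_lit 0x5e0000bc00017ef28afe522) b55122 (.tok (nat_lit 9) (nat_lit 0x5e0000bc00017f2662feb9d) (.hit (nat_lit 28) (nat_lit 53) (nat_lit 0x5e0000bc00017ea50afdb72) b55117 (.hit (nat_lit 31) (nat_lit 56) (nat_lit 0x5e0000bc00017e907afd8e0) b55120 (.tok (nat_lit 67) (nat_lit 0x5e0000bc00017f2662feb9d) (.hit (nat_lit 29) (nat_lit 54) (nat_lit 0x5e0000bc00017f2662feb9d) b55118 (.hit (nat_lit 32) (nat_lit 57) (nat_lit 0x5e0000bc00017ef0aafe4e6) b55121 (.one (nat_lit 9) (nat_lit 30) (nat_lit 55) (nat_lit 0x5e0000bc00017eb192fdd03) b55119 (.nil)))) (.nil)))) (.nil)))) (.one (nat_lit 70) (nat_lit 35) (nat_lit 60) (nat_lit 0x5e0000bc00017f1512fe973)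 b55123 (.nil)))))) (.tok (nat_lit 6) (nat_lit 0x5e0000bc0001816bfb03333) (.hit (nat_lit 0) (nat_lit 0) (nat_lit 0x5e0000bc00017f8d02ff72f) b55096 (.tok (nat_lit 6) (nat_lit 0x5e0000bc00017f6a6afef34) (.hit (nat_lit 1) (nat_lit 7) (nat_lit 0x5e0000bc00017f394afed4c) b55097 (.hit (nat_lit 4) (nat_lit 15) (nat_lit 0x5e0000bc00017e7a42fd203) b55098 (.one (nat_lit 68) (nat_lit 6) (nat_lit 18) (nat_lit 0x5e0000bc00017f6a6afef34) b55099 (.nil)))) (.tok (nat_lit 52) (nat_lit 0x5e0000bc000180277300850) (.hit (nat_lit 7) (nat_lit 39) (nat_lit 0x5e0000bc000180277300850) b55100 (.hit (nat_lit 8) (nat_lit 40) (nat_lit 0x5e0000bc00017f7baaff1dd) b55101 (.nil))) (.tok (nat_lit 55) (nat_lit 0x5e0000bc0001816bfb03333) (.hit (nat_lit 9) (nat_lit 41) (nat_lit 0x5e0000bc0001816bfb03333) b55102 (.one (nat_lit 3) (nat_lit 12) (nat_lit 47) (nat_lit 0x5e0000bc00017ff01afff45) b55105 (.tok (nat_lit 6)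 (nat_lit 0x5e0000bc0001804cc300d08) (.hit (nat_lit 10) (nat_lit 42) (nat_lit 0x5e0000bc0001804cc300d08) b55103 (.hit (nat_lit 11) (nat_lit 45) (nat_lit 0x5e0000bc00017fd8faffd8d) b55104 (.nil))) (.nil)))) (.one (nat_lit 58) (nat_lit 14) (nat_lit 49) (nat_lit 0x5e0000bc00017f30b2ff463) b55106 (.nil)))))) (.nil))
noncomputable def r81_9 : Rw Blk := .tok (nat_lit 3) (nat_lit 0x2ff5ff5fcb76bfd2517fb2bafeff95fe806bfb6897fb81aff3385ff7fcbff0017f8902ff5d5) (.hit (nat_lit 0) (nat_lit 0) (nat_lit 0x2fd1555f9414bf48557f163afdfd75fb67ebf6df57f0afafe5dc5fc100bfb0c17eeb42fe0f6) b56074 (.tok (nat_lit 6) (nat_lit 0x2fd23b5f8e36bfb3897f45e2fca115fb5f4bf32fd7ecff2fd1d25fbaa4bf83b17f6462fed36) (.hit (nat_lit 1) (nat_lit 7) (nat_lit 0x2fbde25f6584bf5cd17ea31afb5b85f8d42bee1997e2d2afbd795f91f2bf324d7efc22fdeb1) b55125 (.hit (nat_lit 6) (nat_lit 15) (nat_lit 0x2fbb735f60a6bf2ef97e8fa2fb3495f8864bed7dd7e19b2fbb0a5f8d14bf79f17ee41afde3d)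 b55130 (.tok (nat_lit 14) (nat_lit 0x2fd0de5f8b7cbfa4817f3afafc8b45fb33abf2d897ec50afd0755fb7eabf81757f5872feb31) (.hit (nat_lit 2) (nat_lit 11) (nat_lit 0x2fc47e5f72bcbf7d0d7ed7fafbc545f9a7abefc097e620afc4155f9f2abf4cbd7ee9a2fdf66) b55126 (.hit (nat_lit 7) (nat_lit 17) (nat_lit 0x2fc3815f70c2bf53c97ed012fbb575f9880bef8157e5a22fc3185f9d30bf7f4d7f0d7afe08b) b55131 (.one (nat_lit 9) (nat_lit 3) (nat_lit 12) (nat_lit 0x2fd0de5f8b7cbfa4817f3afafc8b45fb33abf2d897ec50afd0755fb7eabf81757f5872feb31) b55127 (.nil)))) (.tok (nat_lit 56) (nat_lit 0x2fd23b5f8e36bfb3897f45e2fca115fb5f4bf32fd7ecff2fd1d25fbaa4bf83b17f6462fed36) (.hit (nat_lit 4) (nat_lit 13) (nat_lit 0x2fca135f7de6bf86117f04a2fc1e95fa5a4bf125d7e8eb2fc9aa5faa54bf7bf17f386afe869) b55128 (.hit (nat_lit 9) (nat_lit 19) (nat_lit 0x2fc5f75f75aebf5a217ee3c2fbdcd5f9d6cbf01ed7e6dd2fc58e5fa21cbf72f97ef782fdf15) b55132 (.one (nat_lit 6)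 (nat_lit 5) (nat_lit 14) (nat_lit 0x2fd23b5f8e36bfb3897f45e2fca115fb5f4bf32fd7ecff2fd1d25fbaa4bf83b17f6462fed36) b55129 (.nil)))) (.nil))))) (.tok (nat_lit 52) (nat_lit 0x2fc7715f78a2bf75657eef92fbf475fa060bf07d57e79a2fc7085fa510bfaa4d7efb3afe49c) (.hit (nat_lit 19) (nat_lit 39) (nat_lit 0x2fc4475f724ebf40697ed642fbc1d5f9a0cbefb2d7e6052fc3de5f9ebcbfaa4d7e5ee2fe498) b55133 (.hit (nat_lit 20) (nat_lit 40) (nat_lit 0x2fc7715f78a2bf75657eef92fbf475fa060bf07d57e79a2fc7085fa510bf98197efb3afe49c) b55134 (.nil))) (.tok (nat_lit 55) (nat_lit 0x2ff5ff5fcb76bfd2517fb2bafeff95fe806bfb6897fb81aff3385ff7fcbff0017f8902ff524) (.hit (nat_lit 21) (nat_lit 41) (nat_lit 0x2ff5ff5fc550bfcaf17fb2bafeff95fe806bfb6897fb81aff3385ff7fcbff0017f8902ff524) b55135 (.tok (nat_lit 3) (nat_lit 0x2fd8105f99e0bfd2517f748afcfe65fc19ebf4a517efe9afd7a75fc64ebfac017f4702fee29) (.hit (nat_lit 27) (nat_lit 47) (nat_lit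 0x2fd0695f8a92bfa0817f3752fc83f5fb250bf2bb57ec162fd0005fb700bf8dfd7f4702fe908) b55141 (.one (nat_lit 67) (nat_lit 28) (nat_lit 48) (nat_lit 0x2fd8105f99e0bfd2517f748afcfe65fc19ebf4a517efe9afd7a75fc64ebfac017f4192fee29) b55142 (.nil))) (.tok (nat_lit 6) (nat_lit 0x2fe94b5fcb76bfb4a97fac92fd6e75fcfa0bf66557f36a2fdea85fd450bfb7097f3c5afea84) (.hit (nat_lit 22) (nat_lit 42) (nat_lit 0x2fdb265fab98bf93e57f6b42fcd665fbc9ebf40517eea9afd5275fc14ebf97a17ee92afea5d) b55136 (.hit (nat_lit 25) (nat_lit 45) (nat_lit 0x2fd0c25f8b44bf8fb57f3a1afc8985fb302bf2d197ec42afd0595fb7b2bf7dcd7f3c5afe5b3) b55139 (.tok (nat_lit 55) (nat_lit 0x2fe94b5fcb76bfb4a97fac92fd6e75fcfa0bf66557f36a2fdea85fd450bfb7097f39b2fea84) (.hit (nat_lit 23) (nat_lit 43) (nat_lit 0x2fe94b5fcb76bf97bd7fac92fd6e75fcfa0bf66557f36a2fdea85fd450bfb7097f3532fe8c2) b55137 (.hit (nat_lit 26) (nat_lit 46) (nat_lit 0x2fdb4c5fa058bfb4a97f8e6afd3225fc816bf57417f187afdae35fccc6bfa7f57f39b2fea84)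 b55140 (.one (nat_lit 6) (nat_lit 24) (nat_lit 44) (nat_lit 0x2fd9b55f9d2abf94217f81b2fd18b5fc4e8bf50e57f0bc2fd94c5fc998bfa1997f0a52fe436) b55138 (.nil)))) (.nil)))) (.nil)))) (.one (nat_lit 58) (nat_lit 29) (nat_lit 49) (nat_lit 0x2fcfa15f8902bf90557f3112fc7775fb0c0bf28957ebb22fcf385fb570bfe2717f5c6aff5d5) b55143 (.nil)))))) (.tok (nat_lit 9) (nat_lit 0x300000600000c0000180000300000600000c0000180000300000600000c0000180000300000) (.hit (nat_lit 157) (nat_lit 0) (nat_lit 0x2fe59a5fc938bf77cd7fb0cafe8ce5fed74bf9e817f80daff4405fd978bfbb317f5a0afe740) b55144 (.tok (nat_lit 9) (nat_lit 0x300000600000c0000180000300000600000c0000180000300000600000c0000180000300000) (.hit (nat_lit 163) (nat_lit 20) (nat_lit 0x2fdbd25fb146bf580d7efcaafde125fc642bf82457ef882fe1105fbf52bf61f17eecb2fdebc) b55145 (.hit (nat_lit 171) (nat_lit 28) (nat_lit 0x2fce365f7c46bf4c357e527afd0c15fb35ebf44217eb86afd9c75fa7d2bf94d17edccafdcc6)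 b55150 (.tok (nat_lit 14) (nat_lit 0x300000600000c00001800002ffe8a600000c0000180000300000600000c0000180000300000) (.hit (nat_lit 167) (nat_lit 24) (nat_lit 0x2ffcac5ff768bffab97fd302ffe8a600000bfff8d7fe322ffec75ff66cbfe7757f9cb300000) b55146 (.hit (nat_lit 173) (nat_lit 30) (nat_lit 0x2feab25fb392bfcc657f358afeabe5feb5ebfa6fd7f7b42ff1915fdcacc000017f3a7afead6) b55151 (.one (nat_lit 6) (nat_lit 168) (nat_lit 25) (nat_lit 0x300000600000c00001800002ffe5b5ff594c0000180000300000600000bfe4d9800002fff52) b55147 (.nil)))) (.one (nat_lit 56) (nat_lit 174) (nat_lit 31) (nat_lit 0x2fe2cd5fa71abf92557ef90afd5695fa7d0bf57057f0712fe30e5fc0f0bf7e917ebb12fd7f6) b55152 (.tok (nat_lit 68) (nat_lit 0x2ff5625fedcabfc0e57fa0cb000005fedf4bffc717fe312ffd185ffaacbfdd197f86a2ffc8d) (.hit (nat_lit 169) (nat_lit 26) (nat_lit 0x2ff5625fdeecbfbe2d7fa0caff4895fedf4bfd2717fd03affab95fee82bfdd197f5c52ff0c6)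 b55148 (.hit (nat_lit 175) (nat_lit 32) (nat_lit 0x2fe31d5fa61cbf72c57ef8e2fe1905fdb1ebf83697f3332fe7465fcadcbfd5757f0c12fe4d2) b55153 (.one (nat_lit 9) (nat_lit 170) (nat_lit 27) (nat_lit 0x2feb755fedcabfc0e57f89f3000005fdc68bffc717fe312ffd185ffaacbfbcc57f86a2ffc8d) b55149 (.nil)))) (.nil)))))) (.nil))) (.nil))
noncomputable def r81_10 : Rw Blk := .tok (nat_lit 6) (nat_lit 0x5e0000bc00017f9b92ffa18) (.hit (nat_lit 51) (nat_lit 0) (nat_lit 0x5e0000bc00017ee012fef08) b55154 (.tok (nat_lit 14) (nat_lit 0x5e0000bc00017f3e4affa18) (.hit (nat_lit 62) (nat_lit 61) (nat_lit 0x5e0000bc00017f3e4afeaca) b55155 (.one (nat_lit 3) (nat_lit 63) (nat_lit 62) (nat_lit 0x5e0000bc00017f31a2fe084) b55156 (.tok (nat_lit 6) (nat_lit 0x5e0000bc00017eeb42fe25e) (.hit (nat_lit 66) (nat_lit 65) (nat_lit 0x5e0000bc00017e9972fd5a8) b55157 (.hit (nat_lit 67) (nat_lit 66) (nat_lit 0x5e0000bc00017eeb42fe25e)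 b55158 (.nil))) (.tok (nat_lit 9) (nat_lit 0x5e0000bc00017f2252ffa18) (.hit (nat_lit 64) (nat_lit 63) (nat_lit 0x5e0000bc00017f2252ffa18) b55159 (.hit (nat_lit 65) (nat_lit 64) (nat_lit 0x5e0000bc00017ef67afe394) b55160 (.nil))) (.nil))))) (.one (nat_lit 17) (nat_lit 68) (nat_lit 67) (nat_lit 0x5e0000bc00017ee172fd743) b55161 (.tok (nat_lit 20) (nat_lit 0x5e0000bc00017f89fafeabb) (.hit (nat_lit 69) (nat_lit 68) (nat_lit 0x5e0000bc00017f89fafeabb) b55164 (.hit (nat_lit 70) (nat_lit 69) (nat_lit 0x5e0000bc00017eeceafd8b2) b55165 (.nil))) (.tok (nat_lit 23) (nat_lit 0x5e0000bc00017ed752fd5ff) (.hit (nat_lit 71) (nat_lit 70) (nat_lit 0x5e0000bc00017df9aafc1af) b55162 (.hit (nat_lit 72) (nat_lit 71) (nat_lit 0x5e0000bc00017ed752fd5ff) b55163 (.nil))) (.one (nat_lit 26) (nat_lit 73) (nat_lit 72) (nat_lit 0x5e0000bc00017e5f62fc8c5) b55166 (.one (nat_lit 29) (nat_lit 74) (nat_lit 73)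 (nat_lit 0x5e0000bc00017e5882fc9a5) b55167 (.one (nat_lit 32) (nat_lit 75) (nat_lit 74) (nat_lit 0x5e0000bc00017e4caafc50a) b55169 (.one (nat_lit 35) (nat_lit 76) (nat_lit 75) (nat_lit 0x5e0000bc00017ea122fd08e) b55168 (.one (nat_lit 38) (nat_lit 77) (nat_lit 76) (nat_lit 0x5e0000bc00017ed3aafd59a) b55170 (.tok (nat_lit 41) (nat_lit 0x5e0000bc00017ee8fafd8a6) (.hit (nat_lit 78) (nat_lit 77) (nat_lit 0x5e0000bc00017ea56afc63d) b55171 (.hit (nat_lit 79) (nat_lit 78) (nat_lit 0x5e0000bc00017ee8fafd8a6) b55172 (.nil))) (.tok (nat_lit 44) (nat_lit 0x5e0000bc00017efb6afd866) (.hit (nat_lit 80) (nat_lit 79) (nat_lit 0x5e0000bc00017efb6afd866) b55175 (.hit (nat_lit 81) (nat_lit 80) (nat_lit 0x5e0000bc00017e9972fce43) b55176 (.nil))) (.tok (nat_lit 47) (nat_lit 0x5e0000bc00017efe42fdae4) (.hit (nat_lit 82) (nat_lit 81) (nat_lit 0x5e0000bc00017d532afacdf) b55173 (.hit (nat_lit 83) (nat_lit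 82) (nat_lit 0x5e0000bc00017efe42fdae4) b55174 (.nil))) (.one (nat_lit 50) (nat_lit 84) (nat_lit 83) (nat_lit 0x5e0000bc00017ed40afd672) b55177 (.tok (nat_lit 53) (nat_lit 0x5e0000bc00017edb3afdacb) (.hit (nat_lit 85) (nat_lit 84) (nat_lit 0x5e0000bc00017e11aafd500) b55178 (.hit (nat_lit 86) (nat_lit 85) (nat_lit 0x5e0000bc00017edb3afdacb) b55179 (.nil))) (.tok (nat_lit 56) (nat_lit 0x5e0000bc00017f9b92ff814) (.hit (nat_lit 87) (nat_lit 86) (nat_lit 0x5e0000bc00017f96daff814) b55180 (.one (nat_lit 3) (nat_lit 91) (nat_lit 90) (nat_lit 0x5e0000bc00017f9b92ff123) b55184 (.tok (nat_lit 6) (nat_lit 0x5e0000bc00017f57b2ff1dc) (.hit (nat_lit 89) (nat_lit 88) (nat_lit 0x5e0000bc00017f57b2ff1dc) b55182 (.hit (nat_lit 90) (nat_lit 89) (nat_lit 0x5e0000bc00017eff52fda8f) b55183 (.nil))) (.one (nat_lit 9) (nat_lit 88) (nat_lit 87) (nat_lit 0x5e0000bc00017f450aff09e) b55181 (.nil))))) (.one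 (nat_lit 59) (nat_lit 92) (nat_lit 91) (nat_lit 0x5e0000bc00017e9ff2fcfe6) b55185 (.nil)))))))))))))))))) (.tok (nat_lit 52) (nat_lit 0x5e0000bc000180000301b9c) (.hit (nat_lit 225) (nat_lit 0) (nat_lit 0x5e0000bc00017fe76301b9c) b55186 (.tok (nat_lit 6) (nat_lit 0x5e0000bc000180000301491) (.hit (nat_lit 226) (nat_lit 7) (nat_lit 0x5e0000bc000180000301491) b55189 (.hit (nat_lit 227) (nat_lit 15) (nat_lit 0x5e0000bc00017f4752ff80e) b55190 (.nil))) (.tok (nat_lit 9) (nat_lit 0x5e0000bc00017f1d4aff4de) (.hit (nat_lit 228) (nat_lit 20) (nat_lit 0x5e0000bc00017e6ec2ff03e) b55187 (.hit (nat_lit 229) (nat_lit 28) (nat_lit 0x5e0000bc00017f1d4aff4de) b55188 (.nil))) (.nil)))) (.tok (nat_lit 55) (nat_lit 0x5e0000bc00017f661b00537) (.hit (nat_lit 250) (nat_lit 0) (nat_lit 0x5e0000bc00017f661aff483) b55196 (.tok (nat_lit 3) (nat_lit 0x5e0000bc00017f168b00537) (.hit (nat_lit 251) (nat_lit 1)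 (nat_lit 0x5e0000bc00017e3e12fea28) b55197 (.one (nat_lit 67) (nat_lit 252) (nat_lit 2) (nat_lit 0x5e0000bc00017f168b00537) b55198 (.nil))) (.tok (nat_lit 6) (nat_lit 0x5e0000bc00017ed372ffcd4) (.hit (nat_lit 253) (nat_lit 7) (nat_lit 0x5e0000bc00017e6e2aff02b) b55199 (.hit (nat_lit 256) (nat_lit 15) (nat_lit 0x5e0000bc00017e357afe915) b55202 (.tok (nat_lit 55) (nat_lit 0x5e0000bc00017ed372ffcd4) (.hit (nat_lit 254) (nat_lit 8) (nat_lit 0x5e0000bc00017e8cc2ff3fe) b55200 (.hit (nat_lit 257) (nat_lit 16) (nat_lit 0x5e0000bc00017ed372ffcd4) b55203 (.one (nat_lit 6) (nat_lit 255) (nat_lit 9) (nat_lit 0x5e0000bc00017ebf22ffa4a) b55201 (.nil)))) (.nil)))) (.nil)))) (.tok (nat_lit 58) (nat_lit 0x5e0000bc00017fb04b00bbb) (.hit (nat_lit 236) (nat_lit 0) (nat_lit 0x5e0000bc00017fb04affd6f) b55191 (.tok (nat_lit 3) (nat_lit 0x5e0000bc00017f4aab00bbb) (.hit (nat_lit 237) (nat_lit 1) (nat_lit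 0x5e0000bc00017e3ac2fe9be) b55192 (.one (nat_lit 55) (nat_lit 238) (nat_lit 3) (nat_lit 0x5e0000bc00017f4aab00bbb) b55193 (.nil))) (.tok (nat_lit 9) (nat_lit 0x5e0000bc00017ea44aff6ef) (.hit (nat_lit 239) (nat_lit 20) (nat_lit 0x5e0000bc00017ea44aff6ef) b55194 (.hit (nat_lit 242) (nat_lit 28) (nat_lit 0x5e0000bc00017e6a32fefac) b55195 (.nil))) (.nil)))) (.nil))))
noncomputable def r81_11 : Rw Blk := .tok (nat_lit 3) (nat_lit 0x5e0000bc00018032a301029) (.hit (nat_lit 15) (nat_lit 0) (nat_lit 0x5e0000bc00017f176aff581) b55219 (.tok (nat_lit 9) (nat_lit 0x5e0000bc00017e4bcafe96b) (.hit (nat_lit 16) (nat_lit 20) (nat_lit 0x5e0000bc00017df052fddfc) b55220 (.hit (nat_lit 21) (nat_lit 28) (nat_lit 0x5e0000bc00017d3242fc63a) b55223 (.tok (nat_lit 14) (nat_lit 0x5e0000bc00017e4bcafe96b) (.hit (nat_lit 17) (nat_lit 24) (nat_lit 0x5e0000bc00017dda92fdb44) b55221 (.hit (nat_lit 22) (nat_lit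 30) (nat_lit 0x5e0000bc00017e354afe69b) b55224 (.one (nat_lit 6) (nat_lit 18) (nat_lit 25) (nat_lit 0x5e0000bc00017e4bcafe96b) b55222 (.nil)))) (.one (nat_lit 56) (nat_lit 23) (nat_lit 31) (nat_lit 0x5e0000bc00017e279afe4e5) b55225 (.nil))))) (.tok (nat_lit 64) (nat_lit 0x5e0000bc00017e8dd2ff1ac) (.hit (nat_lit 25) (nat_lit 50) (nat_lit 0x5e0000bc00017e24a2fe486) b55226 (.hit (nat_lit 26) (nat_lit 51) (nat_lit 0x5e0000bc00017e8dd2ff1ac) b55227 (.nil))) (.tok (nat_lit 67) (nat_lit 0x5e0000bc00018032a301029) (.hit (nat_lit 27) (nat_lit 52) (nat_lit 0x5e0000bc00018032a301029) b55228 (.tok (nat_lit 3) (nat_lit 0x5e0000bc00017ecf92ff9e4) (.hit (nat_lit 33) (nat_lit 58) (nat_lit 0x5e0000bc00017e8e9aff1c5) b55231 (.one (nat_lit 55) (nat_lit 34) (nat_lit 59) (nat_lit 0x5e0000bc00017ecf92ff9e4) b55232 (.nil))) (.tok (nat_lit 9) (nat_lit 0x5e0000bc00017e6d4afed9b) (.hit (nat_lit 28) (nat_lit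 53) (nat_lit 0x5e0000bc00017e5392fea64) b55229 (.hit (nat_lit 31) (nat_lit 56) (nat_lit 0x5e0000bc00017e6d4afed9b) b55230 (.nil))) (.nil)))) (.one (nat_lit 70) (nat_lit 35) (nat_lit 60) (nat_lit 0x5e0000bc00017e84faff091) b55233 (.nil)))))) (.tok (nat_lit 6) (nat_lit 0x5e0000bc000180d0830321c) (.hit (nat_lit 0) (nat_lit 0) (nat_lit 0x5e0000bc00017fb60b00800) b55204 (.tok (nat_lit 6) (nat_lit 0x5e0000bc00018000cb0124c) (.hit (nat_lit 1) (nat_lit 7) (nat_lit 0x5e0000bc00017f01aaff1e1) b55205 (.hit (nat_lit 4) (nat_lit 15) (nat_lit 0x5e0000bc00017ea642fe940) b55208 (.tok (nat_lit 14) (nat_lit 0x5e0000bc00018000cb0124c) (.hit (nat_lit 2) (nat_lit 11) (nat_lit 0x5e0000bc00017fd15300e74) b55206 (.hit (nat_lit 5) (nat_lit 17) (nat_lit 0x5e0000bc00017efc42fe8c8) b55209 (.one (nat_lit 9) (nat_lit 3) (nat_lit 12) (nat_lit 0x5e0000bc00018000cb0124c) b55207 (.nil)))) (.one (nat_lit 68) (nat_lit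 6) (nat_lit 18) (nat_lit 0x5e0000bc00017fa822ffa14) b55210 (.nil))))) (.tok (nat_lit 52) (nat_lit 0x5e0000bc000180490b01a18) (.hit (nat_lit 7) (nat_lit 39) (nat_lit 0x5e0000bc00018004b300608) b55211 (.hit (nat_lit 8) (nat_lit 40) (nat_lit 0x5e0000bc000180490b01a18) b55212 (.nil))) (.tok (nat_lit 55) (nat_lit 0x5e0000bc000180503b02588) (.hit (nat_lit 9) (nat_lit 41) (nat_lit 0x5e0000bc0001801fe301e3b) b55213 (.tok (nat_lit 3) (nat_lit 0x5e0000bc000180503b02588) (.hit (nat_lit 12) (nat_lit 47) (nat_lit 0x5e0000bc00017fe3a30101f) b55216 (.one (nat_lit 67) (nat_lit 13) (nat_lit 48) (nat_lit 0x5e0000bc000180503b02588) b55217 (.nil))) (.tok (nat_lit 6) (nat_lit 0x5e0000bc00017fc04b00608) (.hit (nat_lit 10) (nat_lit 42) (nat_lit 0x5e0000bc00017f55daff61d) b55214 (.hit (nat_lit 11) (nat_lit 45) (nat_lit 0x5e0000bc00017fc04b00608) b55215 (.nil))) (.nil)))) (.one (nat_lit 58) (nat_lit 14)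 (nat_lit 49) (nat_lit 0x5e0000bc000180d0830321c) b55218 (.nil)))))) (.nil))
noncomputable def r81_12 : Rw Blk := .tok (nat_lit 9) (nat_lit 0x2f00005e0000c0000180e61301cce) (.hit (nat_lit 0) (nat_lit 0) (nat_lit 0x2f00005e0000bf62f57f24e2fdd59) b55234 (.tok (nat_lit 14) (nat_lit 0x2f00005e0000bff4f98030e2ff3a5) (.hit (nat_lit 21) (nat_lit 61) (nat_lit 0x2f00005e0000bfc3b97f68eafe665) b55235 (.one (nat_lit 3) (nat_lit 22) (nat_lit 62) (nat_lit 0x2f00005e0000bfd50d7f1d32fe795) b55236 (.tok (nat_lit 6) (nat_lit 0x2f00005e0000bff4f98030e2ff3a5) (.hit (nat_lit 25) (nat_lit 65) (nat_lit 0x2f00005e0000bff4f98030e2ff3a5) b55237 (.hit (nat_lit 26) (nat_lit 66) (nat_lit 0x2f00005e0000bf7d1d7eeeaafd5a6) b55238 (.nil))) (.tok (nat_lit 9) (nat_lit 0x2f00005e0000bf83217f134afd4fb) (.hit (nat_lit 23) (nat_lit 63) (nat_lit 0x2f00005e0000bef5b97eed62fc824) b55239 (.hit (nat_lit 24) (nat_lit 64)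 (nat_lit 0x2f00005e0000bf83217f134afd4fb) b55240 (.nil))) (.nil))))) (.one (nat_lit 17) (nat_lit 27) (nat_lit 67) (nat_lit 0x2f00005e0000bfa0097ef0f2fd999) b55241 (.tok (nat_lit 20) (nat_lit 0x2f00005e0000bf60897e677afc685) (.hit (nat_lit 28) (nat_lit 68) (nat_lit 0x2f00005e0000beb2c57e677afb767) b55244 (.hit (nat_lit 29) (nat_lit 69) (nat_lit 0x2f00005e0000bf60897e6712fc685) b55245 (.nil))) (.tok (nat_lit 23) (nat_lit 0x2f00005e0000c0000180e61301cce) (.hit (nat_lit 30) (nat_lit 70) (nat_lit 0x2f00005e0000c0000180e61301cce) b55242 (.hit (nat_lit 31) (nat_lit 71) (nat_lit 0x2f00005e0000bf6c117ec852fd1b6) b55243 (.nil))) (.one (nat_lit 38) (nat_lit 36) (nat_lit 76) (nat_lit 0x2f00005e0000bf5a3d7ea27afcd61) b55246 (.tok (nat_lit 41) (nat_lit 0x2f00005e0000bf4a097e70fafca87) (.hit (nat_lit 37) (nat_lit 77) (nat_lit 0x2f00005e0000bf30cd7dfc72fc15e) b55247 (.hit (nat_lit 38) (nat_lit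 78) (nat_lit 0x2f00005e0000bf4a097e70fafca87) b55248 (.nil))) (.tok (nat_lit 44) (nat_lit 0x2f00005e0000bfae8d7f038afe06e) (.hit (nat_lit 39) (nat_lit 79) (nat_lit 0x2f00005e0000be95217e2c32faffe) b55251 (.hit (nat_lit 40) (nat_lit 80) (nat_lit 0x2f00005e0000bfae8d7f038afe06e) b55252 (.nil))) (.tok (nat_lit 47) (nat_lit 0x2f00005e0000bf87a97ebc7afe572) (.hit (nat_lit 41) (nat_lit 81) (nat_lit 0x2f00005e0000bf87a97ebc7afe572) b55249 (.hit (nat_lit 42) (nat_lit 82) (nat_lit 0x2f00005e0000bf58b17e5db2fcdd9) b55250 (.nil))) (.one (nat_lit 50) (nat_lit 43) (nat_lit 83) (nat_lit 0x2f00005e0000bf43e97e7c92fca53) b55262 (.tok (nat_lit 53) (nat_lit 0x2f00005e0000bf73297e7742fc64c) (.hit (nat_lit 44) (nat_lit 84) (nat_lit 0x2f00005e0000bf73297e7742fc64c) b55263 (.hit (nat_lit 45) (nat_lit 85) (nat_lit 0x2f00005e0000bf1e597e5ad2fbd4d) b55264 (.nil))) (.tok (nat_lit 56) (nat_lit 0x2f00005e0000bf3dc57ef40afd337)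 (.hit (nat_lit 46) (nat_lit 86) (nat_lit 0x2f00005e0000bf3dc57ecbc2fd337) b55265 (.one (nat_lit 3) (nat_lit 50) (nat_lit 90) (nat_lit 0x2f00005e0000beb0d17e6392fb6ea) b55269 (.tok (nat_lit 6) (nat_lit 0x2f00005e0000bef90d7ef40afc8f9) (.hit (nat_lit 48) (nat_lit 88) (nat_lit 0x2f00005e0000bef90d7ef40afc8f9) b55267 (.hit (nat_lit 49) (nat_lit 89) (nat_lit 0x2f00005e0000bed7c57eb17afc0a7) b55268 (.nil))) (.one (nat_lit 9) (nat_lit 47) (nat_lit 87) (nat_lit 0x2f00005e0000bec15d7e84aafbb0d) b55266 (.nil))))) (.one (nat_lit 59) (nat_lit 51) (nat_lit 91) (nat_lit 0x2f00005e0000bf5e857e8792fccf1) b55270 (.one (nat_lit 62) (nat_lit 52) (nat_lit 92) (nat_lit 0x2f00005e0000bf7f757ec272fda09) b55253 (.tok (nat_lit 65) (nat_lit 0x2f00005e0000bfab4d7f8382ff0e6) (.hit (nat_lit 53) (nat_lit 93) (nat_lit 0x2f00005e0000bfab4d7f8382ff0e6) b55254 (.hit (nat_lit 54) (nat_lit 94) (nat_lit 0x2f00005e0000bf7b157ee622fda68)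 b55255 (.nil))) (.tok (nat_lit 68) (nat_lit 0x2f00005e0000bfc01d7ffeeaffc87) (.hit (nat_lit 55) (nat_lit 95) (nat_lit 0x2f00005e0000bfb3257fcd6afe8e8) b55256 (.one (nat_lit 3) (nat_lit 59) (nat_lit 99) (nat_lit 0x2f00005e0000bf812d7f6802fdc33) b55260 (.one (nat_lit 6) (nat_lit 56) (nat_lit 96) (nat_lit 0x2f00005e0000bfc01d7ffeeaffc87) b55257 (.tok (nat_lit 9) (nat_lit 0x2f00005e0000bfb2f17f2eb2fead1) (.hit (nat_lit 57) (nat_lit 97) (nat_lit 0x2f00005e0000bfb2f17f2eb2fead1) b55258 (.hit (nat_lit 58) (nat_lit 98) (nat_lit 0x2f00005e0000bf9b557eef6afe2d4) b55259 (.nil))) (.nil))))) (.one (nat_lit 71) (nat_lit 60) (nat_lit 100) (nat_lit 0x2f00005e0000bf68a57e9832fcf54) b55261 (.nil)))))))))))))))))) (.nil)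
noncomputable def r81_13 : Rw Blk := .tok (nat_lit 9) (nat_lit 0x5e0000bc0001800003003db) (.hit (nat_lit 0) (nat_lit 0) (nat_lit 0x5e0000bc00017ebddafe540) b55271 (.tok (nat_lit 14) (nat_lit 0x5e0000bc0001800003003db) (.hit (nat_lit 21) (nat_lit 61) (nat_lit 0x5e0000bc00017f8e02feb56) b55272 (.one (nat_lit 3) (nat_lit 22) (nat_lit 62) (nat_lit 0x5e0000bc00017f22b2fdd24) b55273 (.tok (nat_lit 6) (nat_lit 0x5e0000bc0001800003003db) (.hit (nat_lit 25) (nat_lit 65) (nat_lit 0x5e0000bc0001800003003db) b55274 (.hit (nat_lit 26) (nat_lit 66) (nat_lit 0x5e0000bc00017f4a5afe33a) b55275 (.nil))) (.tok (nat_lit 9) (nat_lit 0x5e0000bc00017f2662fe5e6) (.hit (nat_lit 23) (nat_lit 63) (nat_lit 0x5e0000bc00017e9022fe2a1) b55276 (.hit (nat_lit 24) (nat_lit 64) (nat_lit 0x5e0000bc00017f2662fe5e6) b55277 (.nil))) (.nil))))) (.one (nat_lit 17) (nat_lit 27) (nat_lit 67) (nat_lit 0x5e0000bc00017ed372fd360)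 b55278 (.tok (nat_lit 20) (nat_lit 0x5e0000bc00017ed222fdb22) (.hit (nat_lit 28) (nat_lit 68) (nat_lit 0x5e0000bc00017e542afdb22) b55281 (.hit (nat_lit 29) (nat_lit 69) (nat_lit 0x5e0000bc00017ed222fd2d3) b55282 (.nil))) (.tok (nat_lit 23) (nat_lit 0x5e0000bc00017f1b92fec5e) (.hit (nat_lit 30) (nat_lit 70) (nat_lit 0x5e0000bc00017f1b92fec5e) b55279 (.hit (nat_lit 31) (nat_lit 71) (nat_lit 0x5e0000bc00017eba02fcfd6) b55280 (.nil))) (.one (nat_lit 38) (nat_lit 36) (nat_lit 76) (nat_lit 0x5e0000bc00017eb12afd12f) b55283 (.tok (nat_lit 41) (nat_lit 0x5e0000bc00017e9e3afc9b8) (.hit (nat_lit 37) (nat_lit 77) (nat_lit 0x5e0000bc00017e9e3afc831) b55284 (.hit (nat_lit 38) (nat_lit 78) (nat_lit 0x5e0000bc00017e85aafc9b8) b55285 (.nil))) (.tok (nat_lit 44) (nat_lit 0x5e0000bc00017edb8afd420) (.hit (nat_lit 39) (nat_lit 79) (nat_lit 0x5e0000bc00017d41cafb8d6) b55288 (.hit (nat_lit 40) (nat_lit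 80) (nat_lit 0x5e0000bc00017edb8afd420) b55289 (.nil))) (.tok (nat_lit 47) (nat_lit 0x5e0000bc00017eea6afd6c7) (.hit (nat_lit 41) (nat_lit 81) (nat_lit 0x5e0000bc00017eea6afd6c7) b55286 (.hit (nat_lit 42) (nat_lit 82) (nat_lit 0x5e0000bc00017ea65afcd4f) b55287 (.nil))) (.one (nat_lit 50) (nat_lit 43) (nat_lit 83) (nat_lit 0x5e0000bc00017ea5b2fce00) b55299 (.tok (nat_lit 53) (nat_lit 0x5e0000bc00017e8c7afd4f6) (.hit (nat_lit 44) (nat_lit 84) (nat_lit 0x5e0000bc00017e65d2fd4f6) b55300 (.hit (nat_lit 45) (nat_lit 85) (nat_lit 0x5e0000bc00017e8c7afca2e) b55301 (.nil))) (.tok (nat_lit 56) (nat_lit 0x5e0000bc00017ec4bafe89f) (.hit (nat_lit 46) (nat_lit 86) (nat_lit 0x5e0000bc00017ec4bafe89f) b55302 (.one (nat_lit 3) (nat_lit 50) (nat_lit 90) (nat_lit 0x5e0000bc00017e4582fd94d) b55306 (.tok (nat_lit 6) (nat_lit 0x5e0000bc00017e5ef2fdc7b) (.hit (nat_lit 48) (nat_lit 88) (nat_lit 0x5e0000bc00017e5ef2fdc7b)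 b55304 (.hit (nat_lit 49) (nat_lit 89) (nat_lit 0x5e0000bc00017e4c62fda29) b55305 (.nil))) (.one (nat_lit 9) (nat_lit 47) (nat_lit 87) (nat_lit 0x5e0000bc00017e3a7afd7ec) b55303 (.nil))))) (.one (nat_lit 59) (nat_lit 51) (nat_lit 91) (nat_lit 0x5e0000bc00017ea5fafcd8b) b55307 (.one (nat_lit 62) (nat_lit 52) (nat_lit 92) (nat_lit 0x5e0000bc00017f01c2fd8be) b55290 (.tok (nat_lit 65) (nat_lit 0x5e0000bc00017f110afe6e8) (.hit (nat_lit 53) (nat_lit 93) (nat_lit 0x5e0000bc00017f110afe6e8) b55291 (.hit (nat_lit 54) (nat_lit 94) (nat_lit 0x5e0000bc00017eed6afd6a9) b55292 (.nil))) (.tok (nat_lit 68) (nat_lit 0x5e0000bc00017fc1aaff7ca) (.hit (nat_lit 55) (nat_lit 95) (nat_lit 0x5e0000bc00017f7efaff1cd) b55293 (.one (nat_lit 3) (nat_lit 59) (nat_lit 99) (nat_lit 0x5e0000bc00017f2a92fe0b8) b55297 (.one (nat_lit 6) (nat_lit 56) (nat_lit 96) (nat_lit 0x5e0000bc00017fa692ff6db) b55294 (.tok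 (nat_lit 9) (nat_lit 0x5e0000bc00017fc1aaff7ca) (.hit (nat_lit 57) (nat_lit 97) (nat_lit 0x5e0000bc00017fc1aaff7ca) b55295 (.hit (nat_lit 58) (nat_lit 98) (nat_lit 0x5e0000bc00017f2212fdda2) b55296 (.nil))) (.nil))))) (.one (nat_lit 71) (nat_lit 60) (nat_lit 100) (nat_lit 0x5e0000bc00017ec4dafd122) b55298 (.nil)))))))))))))))))) (.nil)
noncomputable def r81_14 : Rw Blk := .tok (nat_lit 6) (nat_lit 0xbfac2d7f6f82ff6545fe0c2c0000180000300000) (.hit (nat_lit 81) (nat_lit 0) (nat_lit 0xbf92e17f5752fe61a5fe0c2bfe93580000300000) b55319 (.tok (nat_lit 3) (nat_lit 0xbfac2d7f6f82ff6545fb43cc000017fd11afd48b) (.hit (nat_lit 82) (nat_lit 1) (nat_lit 0xbf2ecd7e22c2fda725f7464bf88ad7eb2d2fb3cb) b55320 (.one (nat_lit 14) (nat_lit 84) (nat_lit 4) (nat_lit 0xbfa2a57f6f82fef925fae52c000017facaafbe4f) b55321 (.one (nat_lit 56) (nat_lit 86) (nat_lit 6) (nat_lit 0xbf7a217efa72fe1465f9c5abfd2e17f1f3afc628)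 b55322 (.one (nat_lit 68) (nat_lit 85) (nat_lit 5) (nat_lit 0xbfac2d7f4e8aff6545fb43cbffd817fd11afd48b) b55323 (.nil))))) (.nil))) (.tok (nat_lit 9) (nat_lit 0xc0000180000300000600000bfd3ad7ff42afff22) (.hit (nat_lit 157) (nat_lit 0) (nat_lit 0xbf92e17f5752fe61a5fcf76bfd3ad7f5012fe9d6) b55308 (.tok (nat_lit 3) (nat_lit 0xbfac2d7f6f82ff6545fcc12bf9db17f4982ff046) (.hit (nat_lit 158) (nat_lit 1) (nat_lit 0xbf2ecd7e22c2fda725f8c4cbf1ab17e4eb2fd30b) b55309 (.one (nat_lit 14) (nat_lit 160) (nat_lit 4) (nat_lit 0xbfa2a57f6f82fef925fc748bf44c17f3682fecd6) b55310 (.one (nat_lit 56) (nat_lit 162) (nat_lit 6) (nat_lit 0xbfac2d7f4e8aff6545fcc12bf9db17f4982ff046) b55311 (.one (nat_lit 68) (nat_lit 161) (nat_lit 5) (nat_lit 0xbf7a217efa72fe1465fbb34bf64257f065afed26) b55312 (.nil))))) (.tok (nat_lit 40) (nat_lit 0xbf9c857f410afee565fc652bf6db57f403afe342) (.hit (nat_lit 176) (nat_lit 33) (nat_lit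 0xbf9c857f410afee565fc652bf6db57f403afe342) b55313 (.hit (nat_lit 177) (nat_lit 34) (nat_lit 0xbf89dd7edc9afe4345fc550bf54cd7f0a8afde9b) b55314 (.nil))) (.tok (nat_lit 43) (nat_lit 0xc000017fd53300000600000bfcfc17ff42afff22) (.hit (nat_lit 178) (nat_lit 35) (nat_lit 0xbf88e97ef252ffb5f5fcd44bfcfc17f877afe10f) b55317 (.hit (nat_lit 179) (nat_lit 36) (nat_lit 0xc000017fd53300000600000bfa80d7ff42afff22) b55318 (.nil))) (.tok (nat_lit 46) (nat_lit 0xbfb31d800002ff00c5fdbc8bfb8317f6d3affaf4) (.hit (nat_lit 180) (nat_lit 37) (nat_lit 0xbfb31d800002ff00c5fdbc8bfb8317f6d3affaf4) b55315 (.hit (nat_lit 181) (nat_lit 38) (nat_lit 0xbf9c897f51dafef0c5fcc1cbf91dd7f1762fe576) b55316 (.nil))) (.nil)))))) (.nil))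
noncomputable def r81_15 : Rw Blk := .tok (nat_lit 3) (nat_lit 0xbc000178000300000) (.hit (nat_lit 61) (nat_lit 0) (nat_lit 0xbc0001780002fed3f) b12933 (.tok (nat_lit 14) (nat_lit 0xbc000178000300000) (.hit (nat_lit 82) (nat_lit 61) (nat_lit 0xbc000178000300000) b12934 (.one (nat_lit 3) (nat_lit 83) (nat_lit 62) (nat_lit 0xbc0001780002fda5e) b12935 (.tok (nat_lit 6) (nat_lit 0xbc0001780002fdee9) (.hit (nat_lit 86) (nat_lit 65) (nat_lit 0xbc0001780002fde0e) b12938 (.hit (nat_lit 87) (nat_lit 66) (nat_lit 0xbc0001780002fdee9) b12939 (.nil))) (.tok (nat_lit 9) (nat_lit 0xbc0001780002ffe02) (.hit (nat_lit 84) (nat_lit 63) (nat_lit 0xbc0001780002ffe02) b12936 (.hit (nat_lit 85) (nat_lit 64) (nat_lit 0xbc0001780002fdd1b) b12937 (.nil))) (.nil))))) (.one (nat_lit 17) (nat_lit 88) (nat_lit 67) (nat_lit 0xbc0001780002fd600) b12940 (.tok (nat_lit 20) (nat_lit 0xbc0001780002fdc29) (.hit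 (nat_lit 89) (nat_lit 68) (nat_lit 0xbc0001780002fdc29) b12941 (.hit (nat_lit 90) (nat_lit 69) (nat_lit 0xbc0001780002fd409) b12942 (.nil))) (.tok (nat_lit 23) (nat_lit 0xbc0001780002fe24e) (.hit (nat_lit 91) (nat_lit 70) (nat_lit 0xbc0001780002fe24e) b12943 (.hit (nat_lit 92) (nat_lit 71) (nat_lit 0xbc0001780002fd429) b12944 (.nil))) (.one (nat_lit 38) (nat_lit 97) (nat_lit 76) (nat_lit 0xbc0001780002fd320) b12945 (.tok (nat_lit 41) (nat_lit 0xbc0001780002fd15b) (.hit (nat_lit 98) (nat_lit 77) (nat_lit 0xbc0001780002fbadf) b12946 (.hit (nat_lit 99) (nat_lit 78) (nat_lit 0xbc0001780002fd15b) b12947 (.nil))) (.tok (nat_lit 44) (nat_lit 0xbc0001780002fcb88) (.hit (nat_lit 100) (nat_lit 79) (nat_lit 0xbc0001780002fbef3) b12948 (.hit (nat_lit 101) (nat_lit 80) (nat_lit 0xbc0001780002fcb88) b12949 (.nil))) (.tok (nat_lit 47) (nat_lit 0xbc0001780002fcc75) (.hit (nat_lit 102) (nat_lit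 81) (nat_lit 0xbc0001780002fcb7b) b12950 (.hit (nat_lit 103) (nat_lit 82) (nat_lit 0xbc0001780002fcc75) b12951 (.nil))) (.one (nat_lit 50) (nat_lit 104) (nat_lit 83) (nat_lit 0xbc0001780002fd3a2) b12952 (.tok (nat_lit 53) (nat_lit 0xbc0001780002fd6ed) (.hit (nat_lit 105) (nat_lit 84) (nat_lit 0xbc0001780002fd6ed) b12953 (.hit (nat_lit 106) (nat_lit 85) (nat_lit 0xbc0001780002fd015) b12954 (.nil))) (.tok (nat_lit 56) (nat_lit 0xbc0001780002ff0b0) (.hit (nat_lit 107) (nat_lit 86) (nat_lit 0xbc0001780002ff0b0) b12955 (.one (nat_lit 3) (nat_lit 111) (nat_lit 90) (nat_lit 0xbc0001780002fdebc) b12959 (.tok (nat_lit 6) (nat_lit 0xbc0001780002ff0a7) (.hit (nat_lit 109) (nat_lit 88) (nat_lit 0xbc0001780002ff0a7) b12957 (.hit (nat_lit 110) (nat_lit 89) (nat_lit 0xbc0001780002fdef0) b12958 (.nil))) (.one (nat_lit 9) (nat_lit 108) (nat_lit 87) (nat_lit 0xbc0001780002fe1c3) b12956 (.nil)))))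 (.one (nat_lit 59) (nat_lit 112) (nat_lit 91) (nat_lit 0xbc0001780002fbf53) b12960 (.one (nat_lit 62) (nat_lit 113) (nat_lit 92) (nat_lit 0xbc0001780002fda6b) b12961 (.tok (nat_lit 65) (nat_lit 0xbc0001780002fe024) (.hit (nat_lit 114) (nat_lit 93) (nat_lit 0xbc0001780002fe024) b12962 (.hit (nat_lit 115) (nat_lit 94) (nat_lit 0xbc0001780002fd028) b12963 (.nil))) (.tok (nat_lit 68) (nat_lit 0xbc0001780002fff17) (.hit (nat_lit 116) (nat_lit 95) (nat_lit 0xbc0001780002fff17) b12964 (.one (nat_lit 3) (nat_lit 120) (nat_lit 99) (nat_lit 0xbc0001780002fe5aa) b12968 (.one (nat_lit 6) (nat_lit 117) (nat_lit 96) (nat_lit 0xbc0001780002fe8b1) b12965 (.tok (nat_lit 9) (nat_lit 0xbc0001780002feda6) (.hit (nat_lit 118) (nat_lit 97) (nat_lit 0xbc0001780002fe911) b12966 (.hit (nat_lit 119) (nat_lit 98) (nat_lit 0xbc0001780002feda6) b12967 (.nil))) (.nil))))) (.one (nat_lit 71) (nat_lit 121) (nat_lit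 100) (nat_lit 0xbc0001780002fbf33) b12969 (.nil)))))))))))))))))) (.nil)
noncomputable def r81_16 : Rw Blk := .tok (nat_lit 3) (nat_lit 0xbc000178000300000) (.hit (nat_lit 61) (nat_lit 0) (nat_lit 0xbc0001780002feaa6) b12970 (.tok (nat_lit 14) (nat_lit 0xbc0001780002fff4f) (.hit (nat_lit 82) (nat_lit 61) (nat_lit 0xbc0001780002ffc17) b12971 (.one (nat_lit 3) (nat_lit 83) (nat_lit 62) (nat_lit 0xbc0001780002feeb2) b12972 (.tok (nat_lit 6) (nat_lit 0xbc0001780002fff4f) (.hit (nat_lit 86) (nat_lit 65) (nat_lit 0xbc0001780002fff4f) b12975 (.hit (nat_lit 87) (nat_lit 66) (nat_lit 0xbc0001780002fe88d) b12976 (.nil))) (.tok (nat_lit 9) (nat_lit 0xbc0001780002ffdfe) (.hit (nat_lit 84) (nat_lit 63) (nat_lit 0xbc0001780002ffdfe) b12973 (.hit (nat_lit 85) (nat_lit 64) (nat_lit 0xbc0001780002ff83a) b12974 (.nil))) (.nil))))) (.one (nat_lit 17) (nat_lit 88) (nat_lit 67) (nat_lit 0xbc0001780002fe79e)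 b12977 (.tok (nat_lit 20) (nat_lit 0xbc0001780002fe1f4) (.hit (nat_lit 89) (nat_lit 68) (nat_lit 0xbc0001780002fe1f4) b12978 (.hit (nat_lit 90) (nat_lit 69) (nat_lit 0xbc0001780002fd9ab) b12979 (.nil))) (.tok (nat_lit 23) (nat_lit 0xbc0001780002fe0ee) (.hit (nat_lit 91) (nat_lit 70) (nat_lit 0xbc0001780002fe0ee) b12980 (.hit (nat_lit 92) (nat_lit 71) (nat_lit 0xbc0001780002fd9ab) b12979 (.nil))) (.one (nat_lit 38) (nat_lit 97) (nat_lit 76) (nat_lit 0xbc0001780002fdad4) b12981 (.tok (nat_lit 41) (nat_lit 0xbc0001780002fe302) (.hit (nat_lit 98) (nat_lit 77) (nat_lit 0xbc0001780002fbfc2) b12982 (.hit (nat_lit 99) (nat_lit 78) (nat_lit 0xbc0001780002fe302) b12983 (.nil))) (.tok (nat_lit 44) (nat_lit 0xbc0001780002fd459) (.hit (nat_lit 100) (nat_lit 79) (nat_lit 0xbc0001780002fc9a3) b12984 (.hit (nat_lit 101) (nat_lit 80) (nat_lit 0xbc0001780002fd459) b12985 (.nil))) (.tok (nat_lit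 47) (nat_lit 0xbc0001780002fdaf4) (.hit (nat_lit 102) (nat_lit 81) (nat_lit 0xbc0001780002fcf25) b12986 (.hit (nat_lit 103) (nat_lit 82) (nat_lit 0xbc0001780002fdaf4) b12987 (.nil))) (.one (nat_lit 50) (nat_lit 104) (nat_lit 83) (nat_lit 0xbc0001780002fd84c) b12988 (.tok (nat_lit 53) (nat_lit 0xbc0001780002fe1e7) (.hit (nat_lit 105) (nat_lit 84) (nat_lit 0xbc0001780002fdbd2) b12989 (.hit (nat_lit 106) (nat_lit 85) (nat_lit 0xbc0001780002fe1e7) b12990 (.nil))) (.tok (nat_lit 56) (nat_lit 0xbc0001780002ff32e) (.hit (nat_lit 107) (nat_lit 86) (nat_lit 0xbc0001780002ff259) b12991 (.one (nat_lit 3) (nat_lit 111) (nat_lit 90) (nat_lit 0xbc0001780002feacd) b12995 (.tok (nat_lit 6) (nat_lit 0xbc0001780002ff32e) (.hit (nat_lit 109) (nat_lit 88) (nat_lit 0xbc0001780002ff32e) b12993 (.hit (nat_lit 110) (nat_lit 89) (nat_lit 0xbc0001780002fe197) b12994 (.nil))) (.one (nat_lit 9) (nat_lit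 108) (nat_lit 87) (nat_lit 0xbc0001780002fea6a) b12992 (.nil))))) (.one (nat_lit 59) (nat_lit 112) (nat_lit 91) (nat_lit 0xbc0001780002fc5ac) b12996 (.one (nat_lit 62) (nat_lit 113) (nat_lit 92) (nat_lit 0xbc0001780002fdc9a) b12997 (.tok (nat_lit 65) (nat_lit 0xbc0001780002fede6) (.hit (nat_lit 114) (nat_lit 93) (nat_lit 0xbc0001780002fede6) b12998 (.hit (nat_lit 115) (nat_lit 94) (nat_lit 0xbc0001780002fde04) b12999 (.nil))) (.tok (nat_lit 68) (nat_lit 0xbc000178000300000) (.hit (nat_lit 116) (nat_lit 95) (nat_lit 0xbc0001780002ffc6b) b13000 (.one (nat_lit 3) (nat_lit 120) (nat_lit 99) (nat_lit 0xbc0001780002fe0d0) b13004 (.one (nat_lit 6) (nat_lit 117) (nat_lit 96) (nat_lit 0xbc0001780002ff7d2) b13001 (.tok (nat_lit 9) (nat_lit 0xbc000178000300000) (.hit (nat_lit 118) (nat_lit 97) (nat_lit 0xbc000178000300000) b13002 (.hit (nat_lit 119) (nat_lit 98) (nat_lit 0xbc0001780002fda2d)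 b13003 (.nil))) (.nil))))) (.one (nat_lit 71) (nat_lit 121) (nat_lit 100) (nat_lit 0xbc0001780002fc599) b13005 (.nil)))))))))))))))))) (.nil)
noncomputable def r81_17 : Rw Blk := .tok (nat_lit 3) (nat_lit 0xbc0001780002fee94) (.hit (nat_lit 61) (nat_lit 0) (nat_lit 0xbc0001780002fdbd3) b55324 (.tok (nat_lit 14) (nat_lit 0xbc0001780002fee94) (.hit (nat_lit 82) (nat_lit 61) (nat_lit 0xbc0001780002fee94) b55325 (.one (nat_lit 3) (nat_lit 83) (nat_lit 62) (nat_lit 0xbc0001780002fc8f2) b55326 (.tok (nat_lit 6) (nat_lit 0xbc0001780002fec96) (.hit (nat_lit 86) (nat_lit 65) (nat_lit 0xbc0001780002fec96) b55327 (.hit (nat_lit 87) (nat_lit 66) (nat_lit 0xbc0001780002fcbaf) b55328 (.nil))) (.tok (nat_lit 9) (nat_lit 0xbc0001780002fcd7d) (.hit (nat_lit 84) (nat_lit 63) (nat_lit 0xbc0001780002fcca2) b55329 (.hit (nat_lit 85) (nat_lit 64) (nat_lit 0xbc0001780002fcd7d) b55330 (.nil))) (.nil)))))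 (.one (nat_lit 17) (nat_lit 88) (nat_lit 67) (nat_lit 0xbc0001780002fc494) b55331 (.tok (nat_lit 20) (nat_lit 0xbc0001780002fd0e2) (.hit (nat_lit 89) (nat_lit 68) (nat_lit 0xbc0001780002fd0e2) b55334 (.hit (nat_lit 90) (nat_lit 69) (nat_lit 0xbc0001780002fc2bd) b55335 (.nil))) (.tok (nat_lit 23) (nat_lit 0xbc0001780002fcabd) (.hit (nat_lit 91) (nat_lit 70) (nat_lit 0xbc0001780002fcabd) b55332 (.hit (nat_lit 92) (nat_lit 71) (nat_lit 0xbc0001780002fc29d) b55333 (.nil))) (.one (nat_lit 26) (nat_lit 93) (nat_lit 72) (nat_lit 0xbc0001780002fb022) b55336 (.one (nat_lit 29) (nat_lit 94) (nat_lit 73) (nat_lit 0xbc0001780002fb2ad) b55337 (.one (nat_lit 32) (nat_lit 95) (nat_lit 74) (nat_lit 0xbc0001780002fb6ce) b55339 (.one (nat_lit 35) (nat_lit 96) (nat_lit 75) (nat_lit 0xbc0001780002fbbdc) b55338 (.one (nat_lit 50) (nat_lit 104) (nat_lit 83) (nat_lit 0xbc0001780002fc8ff) b55349 (.tok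 (nat_lit 53) (nat_lit 0xbc0001780002fceb8) (.hit (nat_lit 105) (nat_lit 84) (nat_lit 0xbc0001780002fceb8) b55350 (.hit (nat_lit 106) (nat_lit 85) (nat_lit 0xbc0001780002fbebc) b55351 (.nil))) (.tok (nat_lit 56) (nat_lit 0xbc0001780002fedab) (.hit (nat_lit 107) (nat_lit 86) (nat_lit 0xbc0001780002fedab) b55352 (.one (nat_lit 3) (nat_lit 111) (nat_lit 90) (nat_lit 0xbc0001780002fd43e) b55356 (.tok (nat_lit 6) (nat_lit 0xbc0001780002fdc3a) (.hit (nat_lit 109) (nat_lit 88) (nat_lit 0xbc0001780002fd7a5) b55354 (.hit (nat_lit 110) (nat_lit 89) (nat_lit 0xbc0001780002fdc3a) b55355 (.nil))) (.one (nat_lit 9) (nat_lit 108) (nat_lit 87) (nat_lit 0xbc0001780002fd745) b55353 (.nil))))) (.one (nat_lit 59) (nat_lit 112) (nat_lit 91) (nat_lit 0xbc0001780002fadc7) b55357 (.one (nat_lit 62) (nat_lit 113) (nat_lit 92) (nat_lit 0xbc0001780002fc236) b55340 (.tok (nat_lit 65) (nat_lit 0xbc0001780002fc581)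 (.hit (nat_lit 114) (nat_lit 93) (nat_lit 0xbc0001780002fc581) b55341 (.hit (nat_lit 115) (nat_lit 94) (nat_lit 0xbc0001780002fbea9) b55342 (.nil))) (.tok (nat_lit 68) (nat_lit 0xbc0001780002fdf44) (.hit (nat_lit 116) (nat_lit 95) (nat_lit 0xbc0001780002fdf44) b55343 (.one (nat_lit 3) (nat_lit 120) (nat_lit 99) (nat_lit 0xbc0001780002fcd50) b55347 (.one (nat_lit 6) (nat_lit 117) (nat_lit 96) (nat_lit 0xbc0001780002fd057) b55344 (.tok (nat_lit 9) (nat_lit 0xbc0001780002fdf3b) (.hit (nat_lit 118) (nat_lit 97) (nat_lit 0xbc0001780002fdf3b) b55345 (.hit (nat_lit 119) (nat_lit 98) (nat_lit 0xbc0001780002fcd84) b55346 (.nil))) (.nil))))) (.one (nat_lit 71) (nat_lit 121) (nat_lit 100) (nat_lit 0xbc0001780002fade7) b55348 (.nil)))))))))))))))))) (.tok (nat_lit 40) (nat_lit 0xbc0001780003046dc) (.hit (nat_lit 221) (nat_lit 0) (nat_lit 0xbc000178000301726) b55358 (.tok (nat_lit 6) (nat_lit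 0xbc00017800030040e) (.hit (nat_lit 222) (nat_lit 7) (nat_lit 0xbc00017800030040e) b55361 (.hit (nat_lit 223) (nat_lit 15) (nat_lit 0xbc0001780002feee1) b55362 (.nil))) (.tok (nat_lit 9) (nat_lit 0xbc0001780003046dc) (.hit (nat_lit 224) (nat_lit 20) (nat_lit 0xbc0001780003046dc) b55359 (.hit (nat_lit 225) (nat_lit 28) (nat_lit 0xbc0001780002fffb4) b55360 (.nil))) (.nil)))) (.tok (nat_lit 43) (nat_lit 0xbc000178000301409) (.hit (nat_lit 232) (nat_lit 0) (nat_lit 0xbc000178000301409) b55363 (.tok (nat_lit 3) (nat_lit 0xbc0001780002ff536) (.hit (nat_lit 233) (nat_lit 1) (nat_lit 0xbc0001780002fdd45) b55364 (.one (nat_lit 67) (nat_lit 234) (nat_lit 2) (nat_lit 0xbc0001780002ff536) b55365 (.nil))) (.tok (nat_lit 6) (nat_lit 0xbc00017800030021b) (.hit (nat_lit 235) (nat_lit 7) (nat_lit 0xbc0001780002fe50f) b55366 (.hit (nat_lit 238) (nat_lit 15) (nat_lit 0xbc0001780002fdfe0) b55369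 (.tok (nat_lit 55) (nat_lit 0xbc00017800030021b) (.hit (nat_lit 236) (nat_lit 8) (nat_lit 0xbc0001780002ffb57) b55367 (.hit (nat_lit 239) (nat_lit 16) (nat_lit 0xbc00017800030021b) b55370 (.one (nat_lit 6) (nat_lit 237) (nat_lit 9) (nat_lit 0xbc0001780002fff7e) b55368 (.nil)))) (.nil)))) (.nil)))) (.tok (nat_lit 46) (nat_lit 0xbc0001780003035d5) (.hit (nat_lit 246) (nat_lit 0) (nat_lit 0xbc0001780003007ac) b55371 (.tok (nat_lit 3) (nat_lit 0xbc0001780003035d5) (.hit (nat_lit 247) (nat_lit 1) (nat_lit 0xbc0001780002ffef0) b55372 (.one (nat_lit 55) (nat_lit 248) (nat_lit 3) (nat_lit 0xbc0001780003035d5) b55373 (.nil))) (.tok (nat_lit 9) (nat_lit 0xbc000178000301ea7) (.hit (nat_lit 249) (nat_lit 20) (nat_lit 0xbc0001780002ff1d0) b55374 (.hit (nat_lit 252) (nat_lit 28) (nat_lit 0xbc0001780002ff677) b55377 (.tok (nat_lit 67) (nat_lit 0xbc000178000301ea7) (.hit (nat_lit 250) (nat_lit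 21) (nat_lit 0xbc0001780002fff0a) b55375 (.hit (nat_lit 253) (nat_lit 29) (nat_lit 0xbc000178000301ea7) b55378 (.one (nat_lit 9) (nat_lit 251) (nat_lit 22) (nat_lit 0xbc000178000301b32) b55376 (.nil)))) (.nil)))) (.nil)))) (.nil))))
noncomputable def r81_18 : Rw Blk := .tok (nat_lit 3) (nat_lit 0xbc0001780002feb37) (.hit (nat_lit 61) (nat_lit 0) (nat_lit 0xbc0001780002fd5dd) b55379 (.tok (nat_lit 14) (nat_lit 0xbc0001780002fea86) (.hit (nat_lit 82) (nat_lit 61) (nat_lit 0xbc0001780002fe74e) b55380 (.one (nat_lit 3) (nat_lit 83) (nat_lit 62) (nat_lit 0xbc0001780002fd9e9) b55381 (.tok (nat_lit 6) (nat_lit 0xbc0001780002fe935) (.hit (nat_lit 86) (nat_lit 65) (nat_lit 0xbc0001780002fe935) b55382 (.hit (nat_lit 87) (nat_lit 66) (nat_lit 0xbc0001780002fe371) b55383 (.nil))) (.tok (nat_lit 9) (nat_lit 0xbc0001780002fea86) (.hit (nat_lit 84) (nat_lit 63) (nat_lit 0xbc0001780002fea86)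 b55384 (.hit (nat_lit 85) (nat_lit 64) (nat_lit 0xbc0001780002fd3c4) b55385 (.nil))) (.nil))))) (.one (nat_lit 17) (nat_lit 88) (nat_lit 67) (nat_lit 0xbc0001780002fd2d5) b55386 (.tok (nat_lit 20) (nat_lit 0xbc0001780002fcc25) (.hit (nat_lit 89) (nat_lit 68) (nat_lit 0xbc0001780002fcc25) b55389 (.hit (nat_lit 90) (nat_lit 69) (nat_lit 0xbc0001780002fc4e2) b55388 (.nil))) (.tok (nat_lit 23) (nat_lit 0xbc0001780002fcd2b) (.hit (nat_lit 91) (nat_lit 70) (nat_lit 0xbc0001780002fcd2b) b55387 (.hit (nat_lit 92) (nat_lit 71) (nat_lit 0xbc0001780002fc4e2) b55388 (.nil))) (.one (nat_lit 26) (nat_lit 93) (nat_lit 72) (nat_lit 0xbc0001780002fb96a) b55390 (.one (nat_lit 29) (nat_lit 94) (nat_lit 73) (nat_lit 0xbc0001780002fba26) b55391 (.one (nat_lit 32) (nat_lit 95) (nat_lit 74) (nat_lit 0xbc0001780002fb55b) b55393 (.one (nat_lit 35) (nat_lit 96) (nat_lit 75) (nat_lit 0xbc0001780002fbf13)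 b55392 (.one (nat_lit 50) (nat_lit 104) (nat_lit 83) (nat_lit 0xbc0001780002fc7d1) b55403 (.tok (nat_lit 53) (nat_lit 0xbc0001780002fd91d) (.hit (nat_lit 105) (nat_lit 84) (nat_lit 0xbc0001780002fd91d) b55404 (.hit (nat_lit 106) (nat_lit 85) (nat_lit 0xbc0001780002fc93b) b55405 (.nil))) (.tok (nat_lit 56) (nat_lit 0xbc0001780002feb37) (.hit (nat_lit 107) (nat_lit 86) (nat_lit 0xbc0001780002fe7a2) b55406 (.one (nat_lit 3) (nat_lit 111) (nat_lit 90) (nat_lit 0xbc0001780002fcc07) b55410 (.tok (nat_lit 6) (nat_lit 0xbc0001780002feb37) (.hit (nat_lit 109) (nat_lit 88) (nat_lit 0xbc0001780002feb37) b55408 (.hit (nat_lit 110) (nat_lit 89) (nat_lit 0xbc0001780002fc564) b55409 (.nil))) (.one (nat_lit 9) (nat_lit 108) (nat_lit 87) (nat_lit 0xbc0001780002fe309) b55407 (.nil))))) (.one (nat_lit 59) (nat_lit 112) (nat_lit 91) (nat_lit 0xbc0001780002fb0d0) b55411 (.one (nat_lit 62) (nat_lit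 113) (nat_lit 92) (nat_lit 0xbc0001780002fc383) b55394 (.tok (nat_lit 65) (nat_lit 0xbc0001780002fcd1e) (.hit (nat_lit 114) (nat_lit 93) (nat_lit 0xbc0001780002fc709) b55395 (.hit (nat_lit 115) (nat_lit 94) (nat_lit 0xbc0001780002fcd1e) b55396 (.nil))) (.tok (nat_lit 68) (nat_lit 0xbc0001780002fde65) (.hit (nat_lit 116) (nat_lit 95) (nat_lit 0xbc0001780002fdd90) b55397 (.one (nat_lit 3) (nat_lit 120) (nat_lit 99) (nat_lit 0xbc0001780002fd604) b55401 (.one (nat_lit 6) (nat_lit 117) (nat_lit 96) (nat_lit 0xbc0001780002fd5a1) b55398 (.tok (nat_lit 9) (nat_lit 0xbc0001780002fde65) (.hit (nat_lit 118) (nat_lit 97) (nat_lit 0xbc0001780002fde65) b55399 (.hit (nat_lit 119) (nat_lit 98) (nat_lit 0xbc0001780002fccce) b55400 (.nil))) (.nil))))) (.one (nat_lit 71) (nat_lit 121) (nat_lit 100) (nat_lit 0xbc0001780002fb0e3) b55402 (.nil)))))))))))))))))) (.tok (nat_lit 40) (nat_lit 0xbc00017800030088b)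 (.hit (nat_lit 221) (nat_lit 0) (nat_lit 0xbc00017800030088b) b55412 (.tok (nat_lit 6) (nat_lit 0xbc0001780002ff6be) (.hit (nat_lit 222) (nat_lit 7) (nat_lit 0xbc0001780002ff6be) b55415 (.hit (nat_lit 223) (nat_lit 15) (nat_lit 0xbc0001780002ff09f) b55416 (.nil))) (.tok (nat_lit 9) (nat_lit 0xbc0001780003007bb) (.hit (nat_lit 224) (nat_lit 20) (nat_lit 0xbc0001780003007bb) b55413 (.hit (nat_lit 225) (nat_lit 28) (nat_lit 0xbc0001780002ffb69) b55414 (.nil))) (.nil)))) (.tok (nat_lit 43) (nat_lit 0xbc000178000301c5d) (.hit (nat_lit 232) (nat_lit 0) (nat_lit 0xbc0001780003006f9) b55417 (.tok (nat_lit 3) (nat_lit 0xbc00017800030142b) (.hit (nat_lit 233) (nat_lit 1) (nat_lit 0xbc0001780002ff2f8) b55418 (.one (nat_lit 67) (nat_lit 234) (nat_lit 2) (nat_lit 0xbc00017800030142b) b55419 (.nil))) (.tok (nat_lit 6) (nat_lit 0xbc000178000301c5d) (.hit (nat_lit 235) (nat_lit 7) (nat_lit 0xbc000178000300f21)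 b55420 (.hit (nat_lit 238) (nat_lit 15) (nat_lit 0xbc0001780003003ac) b55423 (.tok (nat_lit 55) (nat_lit 0xbc000178000301c5d) (.hit (nat_lit 236) (nat_lit 8) (nat_lit 0xbc000178000301894) b55421 (.hit (nat_lit 239) (nat_lit 16) (nat_lit 0xbc000178000301aa0) b55424 (.one (nat_lit 6) (nat_lit 237) (nat_lit 9) (nat_lit 0xbc000178000301c5d) b55422 (.nil)))) (.nil)))) (.nil)))) (.tok (nat_lit 46) (nat_lit 0xbc000178000302855) (.hit (nat_lit 246) (nat_lit 0) (nat_lit 0xbc000178000300333) b55425 (.tok (nat_lit 3) (nat_lit 0xbc000178000302855) (.hit (nat_lit 247) (nat_lit 1) (nat_lit 0xbc0001780002ff4af) b55426 (.one (nat_lit 55) (nat_lit 248) (nat_lit 3) (nat_lit 0xbc000178000302855) b55427 (.nil))) (.tok (nat_lit 9) (nat_lit 0xbc000178000300ec8) (.hit (nat_lit 249) (nat_lit 20) (nat_lit 0xbc0001780002ff6eb) b55428 (.hit (nat_lit 252) (nat_lit 28) (nat_lit 0xbc0001780002fedc0) b55431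 (.tok (nat_lit 67) (nat_lit 0xbc000178000300ec8) (.hit (nat_lit 250) (nat_lit 21) (nat_lit 0xbc0001780003006cd) b55429 (.hit (nat_lit 253) (nat_lit 29) (nat_lit 0xbc000178000300577) b55432 (.one (nat_lit 9) (nat_lit 251) (nat_lit 22) (nat_lit 0xbc000178000300ec8) b55430 (.nil)))) (.nil)))) (.nil)))) (.nil))))
noncomputable def r82_0 : Rw Blk := .tok (nat_lit 3) (nat_lit 0x17edb42fdaab5fd644bf4c497f5852fd3b65fe7febf8fd57f5822fef115fc6c2bfa6d97f2fcafea12) (.hit (nat_lit 0) (nat_lit 0) (nat_lit 0x17db5f2fc20d5f9146befef97e1a3afc0525f9c9ebf26897e8d5afc69d5f7f3cbf3dbd7e4852fc9d5) b56075 (.tok (nat_lit 9) (nat_lit 0x17db23afbdc15fbf5cbf17f97e42c2fc5f15f8e84bf29c17e6d22fc82a5f84f6bf7d017ec632fd9ac) (.hit (nat_lit 10) (nat_lit 20) (nat_lit 0x17d1a5afaac55f9b84becc097daae2fb2f55f688cbeddd17dd542fb52e5f5efebee8197d81d2fc6bc) b55434 (.hit (nat_lit 15) (nat_lit 28) (nat_lit 0x17d06e2fa8565f8498bec24d7d976afb0865f63aebed4157dc1cafb2bf5f5a20bf2a717e218afc727)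 b55437 (.tok (nat_lit 14) (nat_lit 0x17db23afbdc15fbf5cbf17f97e42c2fc5f15f8e84bf29c17e6d22fc82a5f84f6bf54c17e759afd6f6) (.hit (nat_lit 11) (nat_lit 24) (nat_lit 0x17d4f3afb1615faba2bee6797ddfc2fb9915f75c4bef8417e0a22fbbca5f6c36bf02897db6b2fcba8) b55435 (.hit (nat_lit 16) (nat_lit 30) (nat_lit 0x17d4752fb0645f9700bee2857dd7dafb8945f73cabef44d7e023afbacd5f6a3cbf54c17e759afd091) b55438 (.one (nat_lit 6) (nat_lit 12) (nat_lit 25) (nat_lit 0x17db23afbdc15fbf5cbf17f97e42c2fc5f15f8e84bf29c17e6d22fc82a5f84f6bf34097e19b2fd6f6) b55436 (.nil)))) (.one (nat_lit 56) (nat_lit 17) (nat_lit 31) (nat_lit 0x17db04afbd835faffcbf17017e40d2fc5b35f8e08bf28c97e6b32fc7ec5f847abf7d017ec632fd9ac) b55439 (.nil))))) (.tok (nat_lit 64) (nat_lit 0x17d66d2fb4545fa7cebef2457df75afbc845f7baabf040d7e21bafbebd5f721cbf595d7e86fafd0c0) (.hit (nat_lit 30) (nat_lit 50) (nat_lit 0x17d4d82fb12a5f8d50bee59d7dde0afb95a5f7556bef7657e086afbb935f6bc8bf54317e746afcf76)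 b55440 (.hit (nat_lit 31) (nat_lit 51) (nat_lit 0x17d66d2fb4545fa7cebef2457df75afbc845f7baabf040d7e21bafbebd5f721cbf595d7e86fafd0c0) b55441 (.nil))) (.tok (nat_lit 67) (nat_lit 0x17edb42fdaab5fd644bf4c497f5852fd3b65fe7febf8fd57f5822fef115fc6c2bfa6d97f2fcafea12) (.hit (nat_lit 32) (nat_lit 52) (nat_lit 0x17edb42fdaab5fd294bf4c497f5852fd3b65fe7febf8fd57f5822fef115fc6c2bfa6d97f2fcafe7c5) b55442 (.tok (nat_lit 3) (nat_lit 0x17debcafc4f35fd644bf34c17e7c52fcd235f9ce8bf46897ea6b2fcf5c5f935abf50d17e5342fea12) (.hit (nat_lit 38) (nat_lit 58) (nat_lit 0x17dae92fbd4c5fbd5cbf16257e3f1afc57c5f8d9abf27ed7e697afc7b55f840cbf32357e160afdb67) b55445 (.one (nat_lit 55) (nat_lit 39) (nat_lit 59) (nat_lit 0x17debcafc4f35fd644bf34c17e7c52fcd235f9ce8bf46897ea6b2fcf5c5f935abf50d17e5342fea12) b55446 (.nil))) (.tok (nat_lit 9) (nat_lit 0x17e047afcdcf5fb70ebf488d7ebb9afd2ba5f97e8bf3c897e92b2fccdc5f8e5abf46d17e3f42fdbd8)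 (.hit (nat_lit 33) (nat_lit 53) (nat_lit 0x17e047afcdcf5fb70ebf488d7ebb9afd2ba5f97e8bf3c897e92b2fccdc5f8e5abf46d17e3f42fdbd8) b55443 (.hit (nat_lit 36) (nat_lit 56) (nat_lit 0x17db15afbda55fb4f6bf17897e41e2fc5d55f8e4cbf29517e6c42fc80e5f84bebf33997e18d2fd97d) b55444 (.nil))) (.nil)))) (.one (nat_lit 70) (nat_lit 40) (nat_lit 60) (nat_lit 0x17da852fbc845fb546bf13057e38dafc4b45f8c0abf24cd7e633afc6ed5f827cbf96357f00a2fdff5) b55447 (.nil)))))) (.tok (nat_lit 6) (nat_lit 0x180000300000600000c000018000030000060029cc000018000030077e600000c0000180000300000) (.hit (nat_lit 81) (nat_lit 0) (nat_lit 0x17e581afdc9f5fa902bf40217ea022fd0965fc234bf62e17f0be2fdcfd5fa9b4bf72497e9b42fd3e0) b55448 (.tok (nat_lit 6) (nat_lit 0x17f2b4aff8035fed1cbf84917f4fbafe66f5fe20abfc9b17fae22ff40c5fd00abfb3857f3fdafea49) (.hit (nat_lit 87) (nat_lit 7) (nat_lit 0x17e09dafd0a65f9922befd217e8242fc47a5fa860bf3fc97e8d3afd18f5f8e98bf42857e24d2fc889)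 b55449 (.hit (nat_lit 95) (nat_lit 15) (nat_lit 0x17d9cfafb6265f9336be95517dffaafa50a5f78aabf05a97e31eafd76e5f95c8bf37897e0cd2fc594) b55454 (.tok (nat_lit 14) (nat_lit 0x17f2b4aff8035fed1cbf84917f4fbafe66f5fe20abfc9b17fae22ff40c5fd00abfb3857f3fdafea49) (.hit (nat_lit 91) (nat_lit 11) (nat_lit 0x17f10aaff3b75fea78bf72b97f2abafdd595fd2a6bfc1a17f8d7afe31c5fc14abfa9a17f0022fe836) b55450 (.hit (nat_lit 97) (nat_lit 17) (nat_lit 0x17e80dafd1cc5fd34ebf07b97edf42fc1865fad86bf64017f0efafde555fbb0ebf88617eb542fd69f) b55455 (.one (nat_lit 9) (nat_lit 92) (nat_lit 12) (nat_lit 0x17f2b4aff8035fed1cbf84917f4fbafe66f5fe20abfc9b17fae22ff40c5fd00abfb3857f3fdafea49) b55451 (.nil)))) (.tok (nat_lit 56) (nat_lit 0x17ed65afeee85fcd8ebf60757f00bafddb45fd622bf8c8d7f7332fe7e55fb536bf838d7ead42fe441) (.hit (nat_lit 93) (nat_lit 13) (nat_lit 0x17ed65afe7795fcc32bf60757f00bafddb45fd622bf8c8d7f436afe15c5faca4bf838d7ead42fdbf8)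 b55452 (.hit (nat_lit 99) (nat_lit 19) (nat_lit 0x17e4432fcb115fa67ebee98d7ea38afb9f15f9e90bf45ad7ec792fe7e55fb536bf6afd7e71aafcdc3) b55457 (.one (nat_lit 6) (nat_lit 94) (nat_lit 14) (nat_lit 0x17e86f2feee85fcd8ebf3f757ee9fafcfd05fab22bf7a3d7f7332fd86d5fa464bf694d7e890afe441) b55453 (.nil)))) (.one (nat_lit 68) (nat_lit 98) (nat_lit 18) (nat_lit 0x17e41b2fcb905fb646beebb97ea9eafba865f9fbabf48017eb432feff85fc22ebf74fd7e886afd2c6) b55456 (.nil)))))) (.tok (nat_lit 52) (nat_lit 0x17e6ceafdf6f5fb5f8bf09d17ed222fc2685faebcbf6a997f99e2ff5275fdeccbf9bcd7f27dafe3ff) (.hit (nat_lit 106) (nat_lit 39) (nat_lit 0x17e5b52fdf6f5fb3bcbf09d17ed222fc2685faebcbf66257f99e2ff5275fdeccbf9bcd7f27dafe3ff) b55458 (.hit (nat_lit 107) (nat_lit 40) (nat_lit 0x17e6ceafd8db5fb5f8befeb17ebd6afbf235faa90bf6a997f7f6afe0565fa764bf5e997e768afe063) b55459 (.nil))) (.tok (nat_lit 55) (nat_lit 0x180000300000600000c000018000030000060029cc00001800003003eb600000c0000180000300000)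 (.hit (nat_lit 108) (nat_lit 41) (nat_lit 0x17f8022ffbd75fe1ccbfd0d97fbdfaff0c460029cbff8e57fe462ff16c5fdc62bfca297f6912fedde) b55460 (.tok (nat_lit 3) (nat_lit 0x1800002ff9dc5ff406c000017ff543000005ff71ec000017ff913003055ff334bff7057faac2ff637) (.hit (nat_lit 114) (nat_lit 47) (nat_lit 0x17f3222feb625fdc68bfb9e97fe15aff60e5fd024bfb4597f80a2ff6155fdb26bfafbd7f13eafe3eb) b55466 (.one (nat_lit 67) (nat_lit 115) (nat_lit 48) (nat_lit 0x1800002ff9dc5ff406c000017ff543000005ff71ec000017ff913003055ff334bff7057faac2ff637) b55467 (.nil))) (.tok (nat_lit 6) (nat_lit 0x17fcc7300000600000bfa99d800002ff1155fda10bfe685800003003eb600000c0000180000300000) (.hit (nat_lit 109) (nat_lit 42) (nat_lit 0x17f1f62fe1dc5fca76bf52ed7f7f72fdcb75fccfabfafa57f79a2fffd25feb8ebfc88d7f83dafe498) b55461 (.hit (nat_lit 112) (nat_lit 45) (nat_lit 0x17eba62fe9075fed54bf35217f0ab2fcd3b5fbdeebf91557f978afe28d5fb134bf76617eb772ff2b6)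 b55464 (.tok (nat_lit 55) (nat_lit 0x17fcc7300000600000bfa99d800002ff1155fda10bfe685800003003eb600000c0000180000300000) (.hit (nat_lit 110) (nat_lit 43) (nat_lit 0x17fcc72ff9945ff958bf8a4d7ffb92fef345fd288bfd2157fcfaaff9ff5ff306bfe9217fe03aff1d7) b55462 (.hit (nat_lit 113) (nat_lit 46) (nat_lit 0x17f34c300000600000bf63157f82e2fd8415fda10bfcce17ff832fef605fcf40bfb01d7f319b00000) b55465 (.one (nat_lit 6) (nat_lit 111) (nat_lit 44) (nat_lit 0x17fb87aff31d5ff4e0bfa99d800002ff1155fd63abfe685800003003eb600000c00001800002ff654) b55463 (.nil)))) (.nil)))) (.nil)))) (.one (nat_lit 58) (nat_lit 116) (nat_lit 49) (nat_lit 0x17eb1f2fdd7d5fd7f0bf22417f0deafc8175fbc74bf8e617f895b0077e5ff7babfd6617f619afe3ab) b55468 (.nil)))))) (.nil))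
noncomputable def r82_1 : Rw Blk := .tok (nat_lit 9) (nat_lit 0x5e0000bc00017f89faff105) (.hit (nat_lit 0) (nat_lit 0) (nat_lit 0x5e0000bc00017ee012fe39f) b55469 (.tok (nat_lit 14) (nat_lit 0x5e0000bc00017f3e4afebde) (.hit (nat_lit 11) (nat_lit 61) (nat_lit 0x5e0000bc00017f3e4afea6a) b55470 (.one (nat_lit 3) (nat_lit 12) (nat_lit 62) (nat_lit 0x5e0000bc00017f31a2fe0d2) b55471 (.tok (nat_lit 6) (nat_lit 0x5e0000bc00017f2252febde) (.hit (nat_lit 15) (nat_lit 65) (nat_lit 0x5e0000bc00017f2252febde) b55472 (.hit (nat_lit 16) (nat_lit 66) (nat_lit 0x5e0000bc00017ef67afe99c) b55473 (.nil))) (.tok (nat_lit 9) (nat_lit 0x5e0000bc00017eeb42fe9a6) (.hit (nat_lit 13) (nat_lit 63) (nat_lit 0x5e0000bc00017e9972fe9a6) b55474 (.hit (nat_lit 14) (nat_lit 64) (nat_lit 0x5e0000bc00017eeb42fe7e8) b55475 (.nil))) (.nil))))) (.one (nat_lit 17) (nat_lit 17) (nat_lit 67) (nat_lit 0x5e0000bc00017ee172fd641)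 b55476 (.tok (nat_lit 20) (nat_lit 0x5e0000bc00017ed752fd5ad) (.hit (nat_lit 18) (nat_lit 68) (nat_lit 0x5e0000bc00017df9aafd5ad) b55479 (.hit (nat_lit 19) (nat_lit 69) (nat_lit 0x5e0000bc00017ed752fd4ad) b55480 (.nil))) (.tok (nat_lit 23) (nat_lit 0x5e0000bc00017f89faff105) (.hit (nat_lit 20) (nat_lit 70) (nat_lit 0x5e0000bc00017f89faff105) b55477 (.hit (nat_lit 21) (nat_lit 71) (nat_lit 0x5e0000bc00017eeceafd4ad) b55478 (.nil))) (.one (nat_lit 26) (nat_lit 22) (nat_lit 72) (nat_lit 0x5e0000bc00017e5f62fc23d) b55481 (.one (nat_lit 29) (nat_lit 23) (nat_lit 73) (nat_lit 0x5e0000bc00017e5882fc54f) b55482 (.one (nat_lit 32) (nat_lit 24) (nat_lit 74) (nat_lit 0x5e0000bc00017ea122fc82c) b55484 (.one (nat_lit 35) (nat_lit 25) (nat_lit 75) (nat_lit 0x5e0000bc00017e4caafc82c) b55483 (.one (nat_lit 38) (nat_lit 26) (nat_lit 76) (nat_lit 0x5e0000bc00017ed3aafd681) b55485 (.tok (nat_lit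 41) (nat_lit 0x5e0000bc00017ee8fafcc2c) (.hit (nat_lit 27) (nat_lit 77) (nat_lit 0x5e0000bc00017ea56afc26f) b55486 (.hit (nat_lit 28) (nat_lit 78) (nat_lit 0x5e0000bc00017ee8fafcc2c) b55487 (.nil))) (.tok (nat_lit 44) (nat_lit 0x5e0000bc00017efe42fcdcd) (.hit (nat_lit 29) (nat_lit 79) (nat_lit 0x5e0000bc00017d532afc0dd) b55490 (.hit (nat_lit 30) (nat_lit 80) (nat_lit 0x5e0000bc00017efe42fcdcd) b55491 (.nil))) (.tok (nat_lit 47) (nat_lit 0x5e0000bc00017efb6afce82) (.hit (nat_lit 31) (nat_lit 81) (nat_lit 0x5e0000bc00017efb6afce82) b55488 (.hit (nat_lit 32) (nat_lit 82) (nat_lit 0x5e0000bc00017e9972fcb81) b55489 (.nil))) (.one (nat_lit 50) (nat_lit 33) (nat_lit 83) (nat_lit 0x5e0000bc00017e97cafcfef) b55492 (.tok (nat_lit 53) (nat_lit 0x5e0000bc00017ed33afdb81) (.hit (nat_lit 34) (nat_lit 84) (nat_lit 0x5e0000bc00017e7112fdb81) b55493 (.hit (nat_lit 35) (nat_lit 85) (nat_lit 0x5e0000bc00017ed33afd17a)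 b55494 (.nil))) (.tok (nat_lit 56) (nat_lit 0x5e0000bc00017ededafe656) (.hit (nat_lit 36) (nat_lit 86) (nat_lit 0x5e0000bc00017ededafe656) b55495 (.one (nat_lit 3) (nat_lit 40) (nat_lit 90) (nat_lit 0x5e0000bc00017e149afd90b) b55499 (.tok (nat_lit 6) (nat_lit 0x5e0000bc00017e69b2fe3ae) (.hit (nat_lit 38) (nat_lit 88) (nat_lit 0x5e0000bc00017e69b2fe3ae) b55497 (.hit (nat_lit 39) (nat_lit 89) (nat_lit 0x5e0000bc00017e3f5afde63) b55498 (.nil))) (.one (nat_lit 9) (nat_lit 37) (nat_lit 87) (nat_lit 0x5e0000bc00017e53f2fe0f6) b55496 (.nil))))) (.one (nat_lit 59) (nat_lit 41) (nat_lit 91) (nat_lit 0x5e0000bc00017e9b1afc1b4) b55500 (.nil)))))))))))))))))) (.tok (nat_lit 64) (nat_lit 0x5e0000bc000180000301335) (.hit (nat_lit 180) (nat_lit 0) (nat_lit 0x5e0000bc00017fe76301335) b55501 (.tok (nat_lit 6) (nat_lit 0x5e0000bc00017f1d4aff94c) (.hit (nat_lit 181) (nat_lit 7) (nat_lit 0x5e0000bc00017e6ec2ff1cb)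 b55504 (.hit (nat_lit 182) (nat_lit 15) (nat_lit 0x5e0000bc00017f1d4aff94c) b55505 (.nil))) (.tok (nat_lit 9) (nat_lit 0x5e0000bc000180000300ec8) (.hit (nat_lit 183) (nat_lit 20) (nat_lit 0x5e0000bc000180000300ec8) b55502 (.hit (nat_lit 184) (nat_lit 28) (nat_lit 0x5e0000bc00017f4752ffb52) b55503 (.nil))) (.nil)))) (.tok (nat_lit 67) (nat_lit 0x5e0000bc00017f661b006c4) (.hit (nat_lit 205) (nat_lit 0) (nat_lit 0x5e0000bc00017f661aff2db) b55514 (.tok (nat_lit 3) (nat_lit 0x5e0000bc00017f168b006c4) (.hit (nat_lit 206) (nat_lit 1) (nat_lit 0x5e0000bc00017e3e12febb5) b55515 (.one (nat_lit 55) (nat_lit 207) (nat_lit 3) (nat_lit 0x5e0000bc00017f168b006c4) b55516 (.nil))) (.tok (nat_lit 9) (nat_lit 0x5e0000bc00017e6e2aff1b8) (.hit (nat_lit 208) (nat_lit 20) (nat_lit 0x5e0000bc00017e6e2aff1b8) b55517 (.hit (nat_lit 211) (nat_lit 28) (nat_lit 0x5e0000bc00017e357afeaa2) b55518 (.nil))) (.nil))))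 (.tok (nat_lit 70) (nat_lit 0x5e0000bc00017fb04b018de) (.hit (nat_lit 191) (nat_lit 0) (nat_lit 0x5e0000bc00017fb04aff8e7) b55506 (.tok (nat_lit 3) (nat_lit 0x5e0000bc00017f4aab00d48) (.hit (nat_lit 192) (nat_lit 1) (nat_lit 0x5e0000bc00017e3ac2feb4b) b55507 (.one (nat_lit 67) (nat_lit 193) (nat_lit 2) (nat_lit 0x5e0000bc00017f4aab00d48) b55508 (.nil))) (.tok (nat_lit 6) (nat_lit 0x5e0000bc00017fa75b018de) (.hit (nat_lit 194) (nat_lit 7) (nat_lit 0x5e0000bc00017ea44aff87c) b55509 (.hit (nat_lit 197) (nat_lit 15) (nat_lit 0x5e0000bc00017e6a32ff139) b55512 (.tok (nat_lit 55) (nat_lit 0x5e0000bc00017fa75b018de) (.hit (nat_lit 195) (nat_lit 8) (nat_lit 0x5e0000bc00017efce30038f) b55510 (.hit (nat_lit 198) (nat_lit 16) (nat_lit 0x5e0000bc00017f223b0083a) b55513 (.one (nat_lit 6) (nat_lit 196) (nat_lit 9) (nat_lit 0x5e0000bc00017fa75b018de) b55511 (.nil)))) (.nil)))) (.nil)))) (.nil))))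
noncomputable def r82_2 : Rw Blk := .tok (nat_lit 3) (nat_lit 0x5e0000bc0001803deb00234) (.hit (nat_lit 15) (nat_lit 0) (nat_lit 0x5e0000bc00017f22b2ff3d0) b55526 (.tok (nat_lit 6) (nat_lit 0x5e0000bc00017e91f2ff917) (.hit (nat_lit 16) (nat_lit 7) (nat_lit 0x5e0000bc00017dfb9afe64c) b55527 (.hit (nat_lit 21) (nat_lit 15) (nat_lit 0x5e0000bc00017d3d8afce8a) b55532 (.tok (nat_lit 14) (nat_lit 0x5e0000bc00017e5712ff1bb) (.hit (nat_lit 17) (nat_lit 11) (nat_lit 0x5e0000bc00017de5dafe394) b55528 (.hit (nat_lit 22) (nat_lit 17) (nat_lit 0x5e0000bc00017e4092feeeb) b55533 (.one (nat_lit 9) (nat_lit 18) (nat_lit 12) (nat_lit 0x5e0000bc00017e5712ff1bb) b55529 (.nil)))) (.tok (nat_lit 56) (nat_lit 0x5e0000bc00017e91f2ff917) (.hit (nat_lit 19) (nat_lit 13) (nat_lit 0x5e0000bc00017e3da2fee8d) b55530 (.hit (nat_lit 24) (nat_lit 19) (nat_lit 0x5e0000bc00017e447afef68) b55534 (.one (nat_lit 6)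 (nat_lit 20) (nat_lit 14) (nat_lit 0x5e0000bc00017e91f2ff917) b55531 (.nil)))) (.nil))))) (.tok (nat_lit 52) (nat_lit 0x5e0000bc00017e991aff9fc) (.hit (nat_lit 25) (nat_lit 39) (nat_lit 0x5e0000bc00017e2feafecd6) b55535 (.hit (nat_lit 26) (nat_lit 40) (nat_lit 0x5e0000bc00017e991aff9fc) b55536 (.nil))) (.tok (nat_lit 55) (nat_lit 0x5e0000bc0001803deb00234) (.hit (nat_lit 27) (nat_lit 41) (nat_lit 0x5e0000bc0001803deb00233) b55537 (.tok (nat_lit 3) (nat_lit 0x5e0000bc00017edadb00234) (.hit (nat_lit 33) (nat_lit 47) (nat_lit 0x5e0000bc00017e99e2ffa15) b55543 (.one (nat_lit 67) (nat_lit 34) (nat_lit 48) (nat_lit 0x5e0000bc00017edadb00234) b55544 (.nil))) (.tok (nat_lit 6) (nat_lit 0x5e0000bc00017eafb2ffccf) (.hit (nat_lit 28) (nat_lit 42) (nat_lit 0x5e0000bc00017e5edaff2b4) b55538 (.hit (nat_lit 31) (nat_lit 45) (nat_lit 0x5e0000bc00017e7892ff5eb) b55541 (.tok (nat_lit 55) (nat_lit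 0x5e0000bc00017eafb2ffccf) (.hit (nat_lit 29) (nat_lit 43) (nat_lit 0x5e0000bc00017eafb2ffccf) b55539 (.hit (nat_lit 32) (nat_lit 46) (nat_lit 0x5e0000bc00017ea7caffbd2) b55542 (.one (nat_lit 6) (nat_lit 30) (nat_lit 44) (nat_lit 0x5e0000bc00017e5962ff205) b55540 (.nil)))) (.nil)))) (.nil)))) (.one (nat_lit 58) (nat_lit 35) (nat_lit 49) (nat_lit 0x5e0000bc00017e9042ff8e1) b55545 (.nil)))))) (.tok (nat_lit 9) (nat_lit 0x5e0000bc0001800c1300894) (.hit (nat_lit 0) (nat_lit 0) (nat_lit 0x5e0000bc00017fc15300894) b55519 (.tok (nat_lit 9) (nat_lit 0x5e0000bc0001800c1300542) (.hit (nat_lit 1) (nat_lit 20) (nat_lit 0x5e0000bc00017f0cf2fe176) b55520 (.hit (nat_lit 4) (nat_lit 28) (nat_lit 0x5e0000bc00017eb18afd817) b55523 (.tok (nat_lit 14) (nat_lit 0x5e0000bc0001800c1300542) (.hit (nat_lit 2) (nat_lit 24) (nat_lit 0x5e0000bc00017fdc9b003a8) b55521 (.hit (nat_lit 5) (nat_lit 30) (nat_lit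 0x5e0000bc00017f078afe02b) b55524 (.one (nat_lit 6) (nat_lit 3) (nat_lit 25) (nat_lit 0x5e0000bc0001800c1300542) b55522 (.nil)))) (.one (nat_lit 56) (nat_lit 6) (nat_lit 31) (nat_lit 0x5e0000bc00017fb36afef29) b55525 (.nil))))) (.nil))) (.nil))
noncomputable def r82_3 : Rw Blk := .tok (nat_lit 6) (nat_lit 0x1780002f00005ff720c05c8580245300568) (.hit (nat_lit 0) (nat_lit 0) (nat_lit 0x1780002f00005fa89abf94397ec0d2fe188) b55546 (.tok (nat_lit 14) (nat_lit 0x1780002f00005ff19cbfc6957f3ba3000a0) (.hit (nat_lit 21) (nat_lit 61) (nat_lit 0x1780002f00005fd8fcbf8b797ef3a2fea4a) b55547 (.one (nat_lit 3) (nat_lit 22) (nat_lit 62) (nat_lit 0x1780002f00005fe1a6bf80117ea08aff325) b55548 (.tok (nat_lit 6) (nat_lit 0x1780002f00005fb8b0bf76f17ecec2fe326) (.hit (nat_lit 25) (nat_lit 65) (nat_lit 0x1780002f00005f71fcbf4a917eba92fd09b) b55549 (.hit (nat_lit 26) (nat_lit 66) (nat_lit 0x1780002f00005fb8b0bf76f17ecec2fe326)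 b55550 (.nil))) (.tok (nat_lit 9) (nat_lit 0x1780002f00005ff19cbfc6957f3ba3000a0) (.hit (nat_lit 23) (nat_lit 63) (nat_lit 0x1780002f00005ff19cbfc6957f3ba3000a0) b55551 (.hit (nat_lit 24) (nat_lit 64) (nat_lit 0x1780002f00005fb5aebf52917ead02fd7f3) b55552 (.nil))) (.nil))))) (.one (nat_lit 17) (nat_lit 27) (nat_lit 67) (nat_lit 0x1780002f00005fc724bf71757e8ea2fe23a) b55553 (.tok (nat_lit 20) (nat_lit 0x1780002f00005ff720c05c8580245300568) (.hit (nat_lit 28) (nat_lit 68) (nat_lit 0x1780002f00005ff720c05c8580245300568) b55556 (.hit (nat_lit 29) (nat_lit 69) (nat_lit 0x1780002f00005fad28bf3b017e5112fd43c) b55557 (.nil))) (.tok (nat_lit 23) (nat_lit 0x1780002f00005fa764bf3b957e34aafd4d5) (.hit (nat_lit 30) (nat_lit 70) (nat_lit 0x1780002f00005f5082bf079d7e34aafbfde) b55554 (.hit (nat_lit 31) (nat_lit 71) (nat_lit 0x1780002f00005fa764bf3b957e2a1afd4d5) b55555 (.nil))) (.one (nat_lit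 26) (nat_lit 32) (nat_lit 72) (nat_lit 0x1780002f00005f998ebf16757dfdeafcb08) b55558 (.one (nat_lit 29) (nat_lit 33) (nat_lit 73) (nat_lit 0x1780002f00005fa412bf327d7e3012fdacf) b55559 (.one (nat_lit 32) (nat_lit 34) (nat_lit 74) (nat_lit 0x1780002f00005f8a20bef1597dc60afc2db) b55561 (.one (nat_lit 35) (nat_lit 35) (nat_lit 75) (nat_lit 0x1780002f00005fb926bf339d7e3032fdbfc) b55560 (.one (nat_lit 50) (nat_lit 43) (nat_lit 83) (nat_lit 0x1780002f00005fb6dabf3b617e490afd9dd) b55571 (.tok (nat_lit 53) (nat_lit 0x1780002f00005fccc6bf54317ebad2fe66e) (.hit (nat_lit 44) (nat_lit 84) (nat_lit 0x1780002f00005fccc6bf54317ebad2fe66e) b55572 (.hit (nat_lit 45) (nat_lit 85) (nat_lit 0x1780002f00005fb4aabf4c497e645afdea5) b55573 (.nil))) (.tok (nat_lit 56) (nat_lit 0x1780002f00005fd72ec004017f753aff7b5) (.hit (nat_lit 46) (nat_lit 86) (nat_lit 0x1780002f00005fd0b2bfce257f1262fe81c) b55574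 (.one (nat_lit 3) (nat_lit 50) (nat_lit 90) (nat_lit 0x1780002f00005fb7b6bf82e97ec5eafd9c0) b55578 (.tok (nat_lit 6) (nat_lit 0x1780002f00005fd098bf76797ed462fec45) (.hit (nat_lit 48) (nat_lit 88) (nat_lit 0x1780002f00005fd098bf76797ed462fec45) b55576 (.hit (nat_lit 49) (nat_lit 89) (nat_lit 0x1780002f00005fc4cabf5e917e7102fe117) b55577 (.nil))) (.one (nat_lit 9) (nat_lit 47) (nat_lit 87) (nat_lit 0x1780002f00005fd72ec004017f753aff7b5) b55575 (.nil))))) (.one (nat_lit 59) (nat_lit 51) (nat_lit 91) (nat_lit 0x1780002f00005fab72bf254d7e1682fd487) b55579 (.one (nat_lit 62) (nat_lit 52) (nat_lit 92) (nat_lit 0x1780002f00005f9914bf17c97e1782fca75) b55562 (.tok (nat_lit 65) (nat_lit 0x1780002f00005fb0b4bf421d7e346afd874) (.hit (nat_lit 53) (nat_lit 93) (nat_lit 0x1780002f00005fb0b4bf40ed7e2b8afd874) b55563 (.hit (nat_lit 54) (nat_lit 94) (nat_lit 0x1780002f00005f864cbf421d7e346afd366)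 b55564 (.nil))) (.tok (nat_lit 68) (nat_lit 0x1780002f00005f9602bfa8497edef2fe653) (.hit (nat_lit 55) (nat_lit 95) (nat_lit 0x1780002f00005f9602bfa8497edef2fe653) b55565 (.one (nat_lit 3) (nat_lit 59) (nat_lit 99) (nat_lit 0x1780002f00005f4f88bf05a97e30c2fbf61) b55569 (.one (nat_lit 6) (nat_lit 56) (nat_lit 96) (nat_lit 0x1780002f00005f57cebf16357e51dafc384) b55566 (.tok (nat_lit 9) (nat_lit 0x1780002f00005f73a6bf4de57ec13afd170) (.hit (nat_lit 57) (nat_lit 97) (nat_lit 0x1780002f00005f73a6bf4de57ec13afd170) b55567 (.hit (nat_lit 58) (nat_lit 98) (nat_lit 0x1780002f00005f6302bf2c9d7e7eaafc91e) b55568 (.nil))) (.nil))))) (.one (nat_lit 71) (nat_lit 60) (nat_lit 100) (nat_lit 0x1780002f00005fa662bf2c917e1acafd3c1) b55570 (.nil)))))))))))))))))) (.tok (nat_lit 52) (nat_lit 0x1780002f0000600000c069d58042fb013ea) (.hit (nat_lit 176) (nat_lit 0) (nat_lit 0x1780002f0000600000c069d58042fb013ea)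 b55580 (.tok (nat_lit 6) (nat_lit 0x1780002f00005fd834c012f57f97db0044b) (.hit (nat_lit 177) (nat_lit 7) (nat_lit 0x1780002f00005fd834c012f57f97db0044b) b55583 (.hit (nat_lit 178) (nat_lit 15) (nat_lit 0x1780002f00005fb672bfaa617f1232ff4f2) b55584 (.nil))) (.tok (nat_lit 9) (nat_lit 0x1780002f00005fd1d6bfc8f17f56b2ff626) (.hit (nat_lit 179) (nat_lit 20) (nat_lit 0x1780002f00005faaa6bfb1f17f2ef2fefa7) b55581 (.hit (nat_lit 180) (nat_lit 28) (nat_lit 0x1780002f00005fd1d6bfc8f17f56b2ff626) b55582 (.nil))) (.nil)))) (.tok (nat_lit 55) (nat_lit 0x1780002f00005fc9debff0617fabd2fff43) (.hit (nat_lit 187) (nat_lit 0) (nat_lit 0x1780002f00005fc552bfbacd7f40aaff1de) b55593 (.tok (nat_lit 3) (nat_lit 0x1780002f00005fb7e2bfcc697f63e2ff645) (.hit (nat_lit 188) (nat_lit 1) (nat_lit 0x1780002f00005f8a9abf71d97eaec2fdfa1) b55594 (.one (nat_lit 67) (nat_lit 189) (nat_lit 2) (nat_lit 0x1780002f00005fb7e2bfcc697f63e2ff645)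 b55595 (.nil))) (.tok (nat_lit 6) (nat_lit 0x1780002f00005fc9debff0617fabd2fff43) (.hit (nat_lit 190) (nat_lit 7) (nat_lit 0x1780002f00005f9fa4bf9bed7f02eafea26) b55596 (.hit (nat_lit 193) (nat_lit 15) (nat_lit 0x1780002f00005f8c46bf75317eb572fe077) b55599 (.tok (nat_lit 55) (nat_lit 0x1780002f00005fc9debff0617fabd2fff43) (.hit (nat_lit 191) (nat_lit 8) (nat_lit 0x1780002f00005fbd74bfd78d7f7a2aff90e) b55597 (.hit (nat_lit 194) (nat_lit 16) (nat_lit 0x1780002f00005fbd40bfd7257f795aff8f4) b55600 (.one (nat_lit 6) (nat_lit 192) (nat_lit 9) (nat_lit 0x1780002f00005fc9debff0617fabd2fff43) b55598 (.nil)))) (.nil)))) (.nil)))) (.tok (nat_lit 58) (nat_lit 0x1780002f00005fe010c01cc580049b00a5c) (.hit (nat_lit 201) (nat_lit 0) (nat_lit 0x1780002f00005fcef0c003017f7962ff683) b55585 (.tok (nat_lit 3) (nat_lit 0x1780002f00005fcdc2bff8297fbb6300135) (.hit (nat_lit 202) (nat_lit 1) (nat_lit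 0x1780002f00005f9a94bf91cd7eeeaafe79e) b55586 (.one (nat_lit 55) (nat_lit 203) (nat_lit 3) (nat_lit 0x1780002f00005fcdc2bff8297fbb6300135) b55587 (.nil))) (.tok (nat_lit 9) (nat_lit 0x1780002f00005fe010c01cc580049b00a5c) (.hit (nat_lit 204) (nat_lit 20) (nat_lit 0x1780002f00005f9e7abf99997efe42fe991) b55588 (.hit (nat_lit 207) (nat_lit 28) (nat_lit 0x1780002f00005f9ed4bf9a4d7effaafe9be) b55591 (.tok (nat_lit 67) (nat_lit 0x1780002f00005fe010c01cc580049b00a5c) (.hit (nat_lit 205) (nat_lit 21) (nat_lit 0x1780002f00005fb868bfcd757f65faff688) b55589 (.hit (nat_lit 208) (nat_lit 29) (nat_lit 0x1780002f00005fd34ac003397fd183003f9) b55592 (.one (nat_lit 9) (nat_lit 206) (nat_lit 22) (nat_lit 0x1780002f00005fe010c01cc580049b00a5c) b55590 (.nil)))) (.nil)))) (.nil)))) (.nil))))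
noncomputable def r82_4 : Rw Blk := .tok (nat_lit 3) (nat_lit 0x1780002f00006020c4c0852980bc0b025ce) (.hit (nat_lit 15) (nat_lit 0) (nat_lit 0x1780002f00006001aec0193d7f9fb300bcd) b55612 (.tok (nat_lit 9) (nat_lit 0x1780002f00005fe146bfa8a17f117aff204) (.hit (nat_lit 16) (nat_lit 20) (nat_lit 0x1780002f00005f7bd2bf1f317dfe9afd302) b55613 (.hit (nat_lit 21) (nat_lit 28) (nat_lit 0x1780002f00005f9a8ebef1357da2a2fdb49) b55616 (.one (nat_lit 56) (nat_lit 23) (nat_lit 31) (nat_lit 0x1780002f00005fe146bfa4297f088aff204) b55617 (.tok (nat_lit 68) (nat_lit 0x1780002f00005fb524bfa8a17f117aff083) (.hit (nat_lit 19) (nat_lit 26) (nat_lit 0x1780002f00005f9de0bf41657e4302fe409) b55614 (.hit (nat_lit 24) (nat_lit 32) (nat_lit 0x1780002f00005faa84bf7f157ebe62feea6) b55618 (.one (nat_lit 9) (nat_lit 20) (nat_lit 27) (nat_lit 0x1780002f00005fb524bfa8a17f117aff083) b55615 (.nil)))) (.nil))))) (.tok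 (nat_lit 64) (nat_lit 0x1780002f00005fcfd6bfac897f194affd8e) (.hit (nat_lit 25) (nat_lit 50) (nat_lit 0x1780002f00005fc5aabf8b1d7ed672ff325) b55619 (.hit (nat_lit 26) (nat_lit 51) (nat_lit 0x1780002f00005fcfd6bfac897f194affd8e) b55620 (.nil))) (.tok (nat_lit 67) (nat_lit 0x1780002f00006020c4c0852980bc0b0194c) (.hit (nat_lit 27) (nat_lit 52) (nat_lit 0x1780002f00006020c4c0852980bc0b0194c) b55621 (.one (nat_lit 3) (nat_lit 33) (nat_lit 58) (nat_lit 0x1780002f00005fb364bf7fe17ebffafeecb) b55627 (.tok (nat_lit 9) (nat_lit 0x1780002f00005fc352bfaaf97f162aff6c2) (.hit (nat_lit 28) (nat_lit 53) (nat_lit 0x1780002f00005fb538bf8add7ed5f2fefb5) b55622 (.hit (nat_lit 31) (nat_lit 56) (nat_lit 0x1780002f00005fae74bf6f697e9f0afec53) b55625 (.tok (nat_lit 67) (nat_lit 0x1780002f00005fc352bfaaf97f162aff6c2) (.hit (nat_lit 29) (nat_lit 54) (nat_lit 0x1780002f00005fc352bf9b157ef662ff6c2) b55623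 (.hit (nat_lit 32) (nat_lit 57) (nat_lit 0x1780002f00005fc240bfaaf97f162aff639) b55626 (.one (nat_lit 9) (nat_lit 30) (nat_lit 55) (nat_lit 0x1780002f00005fac6cbf6fad7e9f92feb4f) b55624 (.nil)))) (.nil)))) (.nil)))) (.one (nat_lit 70) (nat_lit 35) (nat_lit 60) (nat_lit 0x1780002f00006018c2bfda5d7f74f3025ce) b55628 (.nil)))))) (.tok (nat_lit 6) (nat_lit 0x1780002f0000606968c1349d82639b03de5) (.hit (nat_lit 0) (nat_lit 0) (nat_lit 0x1780002f0000600524c045f1802a2b00d30) b55601 (.tok (nat_lit 6) (nat_lit 0x1780002f00006008f6c076ad80cc0300c0b) (.hit (nat_lit 1) (nat_lit 7) (nat_lit 0x1780002f00005fa470bfb4597eed52fdd4d) b55602 (.hit (nat_lit 4) (nat_lit 15) (nat_lit 0x1780002f00005fb716bfe58d7f1eb2fe2b8) b55603 (.one (nat_lit 68) (nat_lit 6) (nat_lit 18) (nat_lit 0x1780002f00006008f6c076ad80cc0300c0b) b55604 (.nil)))) (.tok (nat_lit 52) (nat_lit 0x1780002f0000606710c1275982273303de5)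 (.hit (nat_lit 7) (nat_lit 39) (nat_lit 0x1780002f0000606710c1275982273303de5) b55605 (.hit (nat_lit 8) (nat_lit 40) (nat_lit 0x1780002f00006019a4c045b18010f300562) b55606 (.nil))) (.tok (nat_lit 55) (nat_lit 0x1780002f0000606968c1249182639b03c70) (.hit (nat_lit 9) (nat_lit 41) (nat_lit 0x1780002f0000604abec0cb1181631b02c76) b55607 (.one (nat_lit 3) (nat_lit 12) (nat_lit 47) (nat_lit 0x1780002f00005fe74ac03ba9808782ffe93) b55610 (.tok (nat_lit 6) (nat_lit 0x1780002f0000606968c1249182639b03c70) (.hit (nat_lit 10) (nat_lit 42) (nat_lit 0x1780002f0000606968c1249182639b03c70) b55608 (.hit (nat_lit 11) (nat_lit 45) (nat_lit 0x1780002f00005ff030bff4d57f7ab2ff76b) b55609 (.nil))) (.nil)))) (.one (nat_lit 58) (nat_lit 14) (nat_lit 49) (nat_lit 0x1780002f00006061dac1349d81c023030a7) b55611 (.nil)))))) (.nil))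
noncomputable def r82_5 : Rw Blk := .tok (nat_lit 6) (nat_lit 0x5e0000bc00018074f302661) (.hit (nat_lit 0) (nat_lit 0) (nat_lit 0x5e0000bc00017fa283014b5) b55629 (.one (nat_lit 26) (nat_lit 12) (nat_lit 72) (nat_lit 0x5e0000bc00017f8dd2ffacf) b55630 (.one (nat_lit 29) (nat_lit 13) (nat_lit 73) (nat_lit 0x5e0000bc00017fbe3300185) b55631 (.one (nat_lit 32) (nat_lit 14) (nat_lit 74) (nat_lit 0x5e0000bc00017eecfafedee) b55633 (.one (nat_lit 35) (nat_lit 15) (nat_lit 75) (nat_lit 0x5e0000bc00017f99db0004a) b55632 (.one (nat_lit 38) (nat_lit 16) (nat_lit 76) (nat_lit 0x5e0000bc00017f108aff813) b55634 (.tok (nat_lit 41) (nat_lit 0x5e0000bc00017eefbb00164) (.hit (nat_lit 17) (nat_lit 77) (nat_lit 0x5e0000bc00017eab3aff838) b55635 (.hit (nat_lit 18) (nat_lit 78) (nat_lit 0x5e0000bc00017eefbb00164) b55636 (.nil))) (.tok (nat_lit 44) (nat_lit 0x5e0000bc00017f45eb00da2) (.hit (nat_lit 19)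 (nat_lit 79) (nat_lit 0x5e0000bc00017f45eb00da2) b55639 (.hit (nat_lit 20) (nat_lit 80) (nat_lit 0x5e0000bc00017e9cb2fec95) b55640 (.nil))) (.tok (nat_lit 47) (nat_lit 0x5e0000bc00017f3c0affd77) (.hit (nat_lit 21) (nat_lit 81) (nat_lit 0x5e0000bc00017e9152fe8f8) b55637 (.hit (nat_lit 22) (nat_lit 82) (nat_lit 0x5e0000bc00017f3c0affd77) b55638 (.nil))) (.one (nat_lit 62) (nat_lit 23) (nat_lit 92) (nat_lit 0x5e0000bc00017fd0430034d) b55641 (.tok (nat_lit 65) (nat_lit 0x5e0000bc00017f303affbeb) (.hit (nat_lit 24) (nat_lit 93) (nat_lit 0x5e0000bc00017f1fdaffbeb) b55642 (.hit (nat_lit 25) (nat_lit 94) (nat_lit 0x5e0000bc00017f303affaf4) b55643 (.nil))) (.tok (nat_lit 68) (nat_lit 0x5e0000bc00018074f302661) (.hit (nat_lit 26) (nat_lit 95) (nat_lit 0x5e0000bc00018074f302661) b55644 (.one (nat_lit 3) (nat_lit 30) (nat_lit 99) (nat_lit 0x5e0000bc00017f4e8b0009f) b55648 (.one (nat_lit 6)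 (nat_lit 27) (nat_lit 96) (nat_lit 0x5e0000bc00017f27f2ffbcc) b55645 (.tok (nat_lit 9) (nat_lit 0x5e0000bc00017f3b52ffe38) (.hit (nat_lit 28) (nat_lit 97) (nat_lit 0x5e0000bc00017f3b52ffe38) b55646 (.hit (nat_lit 29) (nat_lit 98) (nat_lit 0x5e0000bc00017ee042ff2d6) b55647 (.nil))) (.nil))))) (.one (nat_lit 71) (nat_lit 31) (nat_lit 100) (nat_lit 0x5e0000bc00017f428aff97e) b55649 (.nil)))))))))))))) (.tok (nat_lit 52) (nat_lit 0x5e0000bc0001817ea303e1c) (.hit (nat_lit 45) (nat_lit 0) (nat_lit 0x5e0000bc0001817ea303e1c) b55661 (.tok (nat_lit 6) (nat_lit 0x5e0000bc0001812e1b034e5) (.hit (nat_lit 46) (nat_lit 7) (nat_lit 0x5e0000bc0001812e1b034e5) b55664 (.hit (nat_lit 47) (nat_lit 15) (nat_lit 0x5e0000bc000180df2b02cd4) b55665 (.nil))) (.tok (nat_lit 9) (nat_lit 0x5e0000bc00017feaab00fc9) (.hit (nat_lit 48) (nat_lit 20) (nat_lit 0x5e0000bc00017f6ae2ffa15) b55662 (.hit (nat_lit 49)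 (nat_lit 28) (nat_lit 0x5e0000bc00017feaab00fc9) b55663 (.nil))) (.nil)))) (.tok (nat_lit 55) (nat_lit 0x5e0000bc00018067e3019b5) (.hit (nat_lit 40) (nat_lit 0) (nat_lit 0x5e0000bc00018045d300c3e) b55657 (.one (nat_lit 3) (nat_lit 41) (nat_lit 1) (nat_lit 0x5e0000bc00017fcd2b0065e) b55658 (.tok (nat_lit 6) (nat_lit 0x5e0000bc00018067e3019b5) (.hit (nat_lit 43) (nat_lit 7) (nat_lit 0x5e0000bc00018067e3019b5) b55659 (.hit (nat_lit 44) (nat_lit 15) (nat_lit 0x5e0000bc00017f8122ffcdd) b55660 (.nil))) (.nil)))) (.tok (nat_lit 58) (nat_lit 0x5e0000bc000181060b02d7a) (.hit (nat_lit 32) (nat_lit 0) (nat_lit 0x5e0000bc000180881b0216d) b55650 (.one (nat_lit 3) (nat_lit 33) (nat_lit 1) (nat_lit 0x5e0000bc00018076db01b94) b55651 (.tok (nat_lit 9) (nat_lit 0x5e0000bc000181060b02d7a) (.hit (nat_lit 35) (nat_lit 20) (nat_lit 0x5e0000bc0001809d9b0206c) b55652 (.hit (nat_lit 38) (nat_lit 28) (nat_lit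 0x5e0000bc0001805b2b0181e) b55655 (.tok (nat_lit 67) (nat_lit 0x5e0000bc000181060b02d7a) (.hit (nat_lit 36) (nat_lit 21) (nat_lit 0x5e0000bc000180d2bb02710) b55653 (.hit (nat_lit 39) (nat_lit 29) (nat_lit 0x5e0000bc000180f9fb02bf8) b55656 (.one (nat_lit 9) (nat_lit 37) (nat_lit 22) (nat_lit 0x5e0000bc000181060b02d7a) b55654 (.nil)))) (.nil)))) (.nil)))) (.nil))))
noncomputable def r82_6 : Rw Blk := .tok (nat_lit 3) (nat_lit 0x5e0000bc000181c273028f3) (.hit (nat_lit 0) (nat_lit 0) (nat_lit 0x5e0000bc000181c273028f3) b55666 (.tok (nat_lit 9) (nat_lit 0x5e0000bc000181172301593) (.hit (nat_lit 1) (nat_lit 20) (nat_lit 0x5e0000bc00017f94b2fe545) b55667 (.hit (nat_lit 6) (nat_lit 28) (nat_lit 0x5e0000bc00017fc0d2feac9) b55672 (.tok (nat_lit 14) (nat_lit 0x5e0000bc000180fb9301221) (.hit (nat_lit 2) (nat_lit 24) (nat_lit 0x5e0000bc000180725b000fa) b55668 (.hit (nat_lit 7) (nat_lit 30)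 (nat_lit 0x5e0000bc000180fb9301221) b55673 (.one (nat_lit 6) (nat_lit 3) (nat_lit 25) (nat_lit 0x5e0000bc0001805f32ffe95) b55669 (.nil)))) (.tok (nat_lit 68) (nat_lit 0x5e0000bc000181172301593) (.hit (nat_lit 4) (nat_lit 26) (nat_lit 0x5e0000bc0001802892ff7c1) b55670 (.hit (nat_lit 8) (nat_lit 32) (nat_lit 0x5e0000bc000180bcbb00a46) b55674 (.one (nat_lit 9) (nat_lit 5) (nat_lit 27) (nat_lit 0x5e0000bc000181172301593) b55671 (.nil)))) (.nil))))) (.nil))) (.tok (nat_lit 6) (nat_lit 0x5e0000bc000182e3fb065c5) (.hit (nat_lit 20) (nat_lit 0) (nat_lit 0x5e0000bc000182508303cb8) b55675 (.tok (nat_lit 6) (nat_lit 0x5e0000bc000182e3fb065c5) (.hit (nat_lit 21) (nat_lit 7) (nat_lit 0x5e0000bc000181914302364) b55676 (.hit (nat_lit 24) (nat_lit 15) (nat_lit 0x5e0000bc000181527b019f7) b55679 (.tok (nat_lit 14) (nat_lit 0x5e0000bc000182e3fb065c5) (.hit (nat_lit 22) (nat_lit 11) (nat_lit 0x5e0000bc00018244cb044e7)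 b55677 (.hit (nat_lit 25) (nat_lit 17) (nat_lit 0x5e0000bc000181afab03615) b55680 (.one (nat_lit 9) (nat_lit 23) (nat_lit 12) (nat_lit 0x5e0000bc000182e3fb065c5) b55678 (.nil)))) (.nil)))) (.nil))) (.nil))
noncomputable def r82_7 : Rw Blk := .tok (nat_lit 6) (nat_lit 0x5e0000bc00017f9c7b002ae) (.hit (nat_lit 0) (nat_lit 0) (nat_lit 0x5e0000bc00017e5a52fe0e9) b55681 (.tok (nat_lit 14) (nat_lit 0x5e0000bc00017f9c7b002ae) (.hit (nat_lit 21) (nat_lit 61) (nat_lit 0x5e0000bc00017f2a7afe710) b55682 (.one (nat_lit 3) (nat_lit 22) (nat_lit 62) (nat_lit 0x5e0000bc00017ebf2afdd3b) b55683 (.tok (nat_lit 6) (nat_lit 0x5e0000bc00017ec2dafe7a1) (.hit (nat_lit 25) (nat_lit 65) (nat_lit 0x5e0000bc00017e2c9afe45c) b55684 (.hit (nat_lit 26) (nat_lit 66) (nat_lit 0x5e0000bc00017ec2dafe7a1) b55685 (.nil))) (.tok (nat_lit 9) (nat_lit 0x5e0000bc00017f9c7b002ae) (.hit (nat_lit 23) (nat_lit 63) (nat_lit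 0x5e0000bc00017f9c7b002ae) b55686 (.hit (nat_lit 24) (nat_lit 64) (nat_lit 0x5e0000bc00017ee6d2fe4f5) b55687 (.nil))) (.nil))))) (.one (nat_lit 17) (nat_lit 27) (nat_lit 67) (nat_lit 0x5e0000bc00017e6feafd2aa) b55688 (.tok (nat_lit 20) (nat_lit 0x5e0000bc00017eb80afe0ea) (.hit (nat_lit 28) (nat_lit 68) (nat_lit 0x5e0000bc00017eb80afe0ea) b55691 (.hit (nat_lit 29) (nat_lit 69) (nat_lit 0x5e0000bc00017e567afd118) b55692 (.nil))) (.tok (nat_lit 23) (nat_lit 0x5e0000bc00017e6e9afdcdd) (.hit (nat_lit 30) (nat_lit 70) (nat_lit 0x5e0000bc00017df0a2fdcdd) b55689 (.hit (nat_lit 31) (nat_lit 71) (nat_lit 0x5e0000bc00017e6e9afd116) b55690 (.nil))) (.one (nat_lit 26) (nat_lit 32) (nat_lit 72) (nat_lit 0x5e0000bc00017e334afc613) b55693 (.one (nat_lit 29) (nat_lit 33) (nat_lit 73) (nat_lit 0x5e0000bc00017e25f2fc661) b55694 (.one (nat_lit 32) (nat_lit 34) (nat_lit 74) (nat_lit 0x5e0000bc00017de5b2fc495)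 b55696 (.one (nat_lit 35) (nat_lit 35) (nat_lit 75) (nat_lit 0x5e0000bc00017e61dafcbd6) b55695 (.one (nat_lit 50) (nat_lit 43) (nat_lit 83) (nat_lit 0x5e0000bc00017e9e3afd35d) b55706 (.tok (nat_lit 53) (nat_lit 0x5e0000bc00017ead82fdda4) (.hit (nat_lit 44) (nat_lit 84) (nat_lit 0x5e0000bc00017ead82fdda4) b55707 (.hit (nat_lit 45) (nat_lit 85) (nat_lit 0x5e0000bc00017e89e2fd148) b55708 (.nil))) (.tok (nat_lit 56) (nat_lit 0x5e0000bc00017f5e22ff2b2) (.hit (nat_lit 46) (nat_lit 86) (nat_lit 0x5e0000bc00017f1b72fedc4) b55709 (.one (nat_lit 3) (nat_lit 50) (nat_lit 90) (nat_lit 0x5e0000bc00017ec70afdae9) b55713 (.tok (nat_lit 6) (nat_lit 0x5e0000bc00017f5e22ff2b2) (.hit (nat_lit 48) (nat_lit 88) (nat_lit 0x5e0000bc00017f5e22ff2b2) b55711 (.hit (nat_lit 49) (nat_lit 89) (nat_lit 0x5e0000bc00017ebe8afd7ef) b55712 (.nil))) (.one (nat_lit 9) (nat_lit 47) (nat_lit 87) (nat_lit 0x5e0000bc00017f430aff06c)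 b55710 (.nil))))) (.one (nat_lit 59) (nat_lit 51) (nat_lit 91) (nat_lit 0x5e0000bc00017e6152fcbbe) b55714 (.one (nat_lit 62) (nat_lit 52) (nat_lit 92) (nat_lit 0x5e0000bc00017e422afcc58) b55697 (.tok (nat_lit 65) (nat_lit 0x5e0000bc00017e28f2fd30b) (.hit (nat_lit 53) (nat_lit 93) (nat_lit 0x5e0000bc00017e024afd30b) b55698 (.hit (nat_lit 54) (nat_lit 94) (nat_lit 0x5e0000bc00017e28f2fc9d9) b55699 (.nil))) (.tok (nat_lit 68) (nat_lit 0x5e0000bc00017e6132feaa6) (.hit (nat_lit 55) (nat_lit 95) (nat_lit 0x5e0000bc00017e6132feaa6) b55700 (.one (nat_lit 3) (nat_lit 59) (nat_lit 99) (nat_lit 0x5e0000bc00017de1fafdb08) b55704 (.one (nat_lit 6) (nat_lit 56) (nat_lit 96) (nat_lit 0x5e0000bc00017dd6f2fd9a7) b55701 (.tok (nat_lit 9) (nat_lit 0x5e0000bc00017dfb6afde36) (.hit (nat_lit 57) (nat_lit 97) (nat_lit 0x5e0000bc00017dfb6afde36) b55702 (.hit (nat_lit 58) (nat_lit 98) (nat_lit 0x5e0000bc00017de8dafdbe4)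 b55703 (.nil))) (.nil))))) (.one (nat_lit 71) (nat_lit 60) (nat_lit 100) (nat_lit 0x5e0000bc00017e4272fc825) b55705 (.nil)))))))))))))))))) (.tok (nat_lit 52) (nat_lit 0x5e0000bc00017f56ab00b2e) (.hit (nat_lit 176) (nat_lit 0) (nat_lit 0x5e0000bc00017f475b00880) b55715 (.tok (nat_lit 6) (nat_lit 0x5e0000bc00017f56ab00b2e) (.hit (nat_lit 177) (nat_lit 7) (nat_lit 0x5e0000bc00017f56ab00b2e) b55718 (.hit (nat_lit 178) (nat_lit 15) (nat_lit 0x5e0000bc00017ed5a2ffb9d) b55719 (.nil))) (.tok (nat_lit 9) (nat_lit 0x5e0000bc00017f177affdf8) (.hit (nat_lit 179) (nat_lit 20) (nat_lit 0x5e0000bc00017ea582ff811) b55716 (.hit (nat_lit 180) (nat_lit 28) (nat_lit 0x5e0000bc00017f177affdf8) b55717 (.nil))) (.nil)))) (.tok (nat_lit 55) (nat_lit 0x5e0000bc00017f708b00798) (.hit (nat_lit 187) (nat_lit 0) (nat_lit 0x5e0000bc00017f708affb21) b55728 (.tok (nat_lit 3) (nat_lit 0x5e0000bc00017ed83affe68)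 (.hit (nat_lit 188) (nat_lit 1) (nat_lit 0x5e0000bc00017e6e12ff123) b55729 (.one (nat_lit 67) (nat_lit 189) (nat_lit 2) (nat_lit 0x5e0000bc00017ed83affe68) b55730 (.nil))) (.tok (nat_lit 6) (nat_lit 0x5e0000bc00017f21bb00798) (.hit (nat_lit 190) (nat_lit 7) (nat_lit 0x5e0000bc00017e550afee02) b55731 (.hit (nat_lit 193) (nat_lit 15) (nat_lit 0x5e0000bc00017e6eaaff136) b55734 (.tok (nat_lit 55) (nat_lit 0x5e0000bc00017f21bb00798) (.hit (nat_lit 191) (nat_lit 8) (nat_lit 0x5e0000bc00017ed102ffd81) b55732 (.hit (nat_lit 194) (nat_lit 16) (nat_lit 0x5e0000bc00017ee65b0002c) b55735 (.one (nat_lit 6) (nat_lit 192) (nat_lit 9) (nat_lit 0x5e0000bc00017f21bb00798) b55733 (.nil)))) (.nil)))) (.nil)))) (.tok (nat_lit 58) (nat_lit 0x5e0000bc000180000302361) (.hit (nat_lit 201) (nat_lit 0) (nat_lit 0x5e0000bc00017f084aff869) b55720 (.tok (nat_lit 3) (nat_lit 0x5e0000bc00017f3bab00ad6) (.hit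 (nat_lit 202) (nat_lit 1) (nat_lit 0x5e0000bc00017e7772ff24f) b55721 (.one (nat_lit 55) (nat_lit 203) (nat_lit 3) (nat_lit 0x5e0000bc00017f3bab00ad6) b55722 (.nil))) (.tok (nat_lit 9) (nat_lit 0x5e0000bc000180000302361) (.hit (nat_lit 204) (nat_lit 20) (nat_lit 0x5e0000bc00017eb25aff9ac) b55723 (.hit (nat_lit 207) (nat_lit 28) (nat_lit 0x5e0000bc00017e6812ff063) b55726 (.tok (nat_lit 67) (nat_lit 0x5e0000bc000180000302361) (.hit (nat_lit 205) (nat_lit 21) (nat_lit 0x5e0000bc00017f178300651) b55724 (.hit (nat_lit 208) (nat_lit 29) (nat_lit 0x5e0000bc00017f360b00a22) b55727 (.one (nat_lit 9) (nat_lit 206) (nat_lit 22) (nat_lit 0x5e0000bc000180000302361) b55725 (.nil)))) (.nil)))) (.nil)))) (.nil))))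
noncomputable def r82_8 : Rw Blk := .tok (nat_lit 3) (nat_lit 0x5e0000bc000180b553022c4) (.hit (nat_lit 15) (nat_lit 0) (nat_lit 0x5e0000bc00017f198afee2a) b55747 (.tok (nat_lit 9) (nat_lit 0x5e0000bc00017ebe9afe519) (.hit (nat_lit 16) (nat_lit 20) (nat_lit 0x5e0000bc00017e0ff2fcf44) b55748 (.hit (nat_lit 21) (nat_lit 28) (nat_lit 0x5e0000bc00017d0a2afae8b) b55751 (.one (nat_lit 56) (nat_lit 23) (nat_lit 31) (nat_lit 0x5e0000bc00017e51eafd783) b55752 (.tok (nat_lit 68) (nat_lit 0x5e0000bc00017ebe9afe519) (.hit (nat_lit 19) (nat_lit 26) (nat_lit 0x5e0000bc00017e6d2afdaeb) b55749 (.hit (nat_lit 24) (nat_lit 32) (nat_lit 0x5e0000bc00017e2df2fd304) b55753 (.one (nat_lit 9) (nat_lit 20) (nat_lit 27) (nat_lit 0x5e0000bc00017ebe9afe519) b55750 (.nil)))) (.nil))))) (.tok (nat_lit 64) (nat_lit 0x5e0000bc00017ea0fafe165) (.hit (nat_lit 25) (nat_lit 50) (nat_lit 0x5e0000bc00017ea0fafe165)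 b55754 (.hit (nat_lit 26) (nat_lit 51) (nat_lit 0x5e0000bc00017e7dc2fdcfe) b55755 (.nil))) (.tok (nat_lit 67) (nat_lit 0x5e0000bc000180b553022c4) (.hit (nat_lit 27) (nat_lit 52) (nat_lit 0x5e0000bc000180b553022c4) b55756 (.one (nat_lit 3) (nat_lit 33) (nat_lit 58) (nat_lit 0x5e0000bc00017eda22fe88a) b55762 (.tok (nat_lit 9) (nat_lit 0x5e0000bc00017f0dfafef05) (.hit (nat_lit 28) (nat_lit 53) (nat_lit 0x5e0000bc00017e8ca2fdeda) b55757 (.hit (nat_lit 31) (nat_lit 56) (nat_lit 0x5e0000bc00017e7812fdc48) b55760 (.tok (nat_lit 67) (nat_lit 0x5e0000bc00017f0dfafef05) (.hit (nat_lit 29) (nat_lit 54) (nat_lit 0x5e0000bc00017f0dfafef05) b55758 (.hit (nat_lit 32) (nat_lit 57) (nat_lit 0x5e0000bc00017ed842fe84e) b55761 (.one (nat_lit 9) (nat_lit 30) (nat_lit 55) (nat_lit 0x5e0000bc00017e992afe06b) b55759 (.nil)))) (.nil)))) (.nil)))) (.one (nat_lit 70) (nat_lit 35) (nat_lit 60) (nat_lit 0x5e0000bc00017efcaafecdb)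 b55763 (.nil)))))) (.tok (nat_lit 6) (nat_lit 0x5e0000bc000181539302f28) (.hit (nat_lit 0) (nat_lit 0) (nat_lit 0x5e0000bc00017f749aff622) b55736 (.tok (nat_lit 6) (nat_lit 0x5e0000bc00017f5202fea49) (.hit (nat_lit 1) (nat_lit 7) (nat_lit 0x5e0000bc00017f20e2fe721) b55737 (.hit (nat_lit 4) (nat_lit 15) (nat_lit 0x5e0000bc00017e61dafcfad) b55738 (.one (nat_lit 68) (nat_lit 6) (nat_lit 18) (nat_lit 0x5e0000bc00017f5202fea49) b55739 (.nil)))) (.tok (nat_lit 52) (nat_lit 0x5e0000bc0001800f0b00349) (.hit (nat_lit 7) (nat_lit 39) (nat_lit 0x5e0000bc0001800f0b00349) b55740 (.hit (nat_lit 8) (nat_lit 40) (nat_lit 0x5e0000bc00017f6342fec68) b55741 (.nil))) (.tok (nat_lit 55) (nat_lit 0x5e0000bc000181539302f28) (.hit (nat_lit 9) (nat_lit 41) (nat_lit 0x5e0000bc000181539302f28) b55742 (.one (nat_lit 3) (nat_lit 12) (nat_lit 47) (nat_lit 0x5e0000bc00017fd7b2ffe81) b55745 (.tok (nat_lit 6)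 (nat_lit 0x5e0000bc000180345b0074e) (.hit (nat_lit 10) (nat_lit 42) (nat_lit 0x5e0000bc000180345b0074e) b55743 (.hit (nat_lit 11) (nat_lit 45) (nat_lit 0x5e0000bc00017fc092ff81b) b55744 (.nil))) (.nil)))) (.one (nat_lit 58) (nat_lit 14) (nat_lit 49) (nat_lit 0x5e0000bc00017f184afec98) b55746 (.nil)))))) (.nil))
noncomputable def r82_9 : Rw Blk := .tok (nat_lit 3) (nat_lit 0x17faffafe5bb5fe928bfe04d7ffadaff5fa600000bfc2397fa362ff4485ff802bfe1517fecbaffbc4) (.hit (nat_lit 0) (nat_lit 0) (nat_lit 0x17e8aaafca0a5fa42abf79ed7ebf52fdd0d5fb0cabf59f97ed89afcfd95fb0a6bf79f57f1072fde6b) b56076 (.tok (nat_lit 6) (nat_lit 0x17e91dafc71b5fd9c4bf9b217ef40afe3515fb3e0bf62ed7ec34afd6425fb938bf89817f3acafeba1) (.hit (nat_lit 1) (nat_lit 7) (nat_lit 0x17def12fb2c25fae68bf49bd7e5142fcef85f8b2ebf11897e2082fc1e95f9086bf23557e586afdb52) b55765 (.hit (nat_lit 6) (nat_lit 15) (nat_lit 0x17ddb9afb0535f977cbf40017e3dcafcc895f8650bf07cd7e0d0afbf7a5f8ba8bf60597ee75afdbb4)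 b55770 (.tok (nat_lit 14) (nat_lit 0x17e86f2fc5be5fd240bf95ad7ee922fe1f45fb126bf5d797eb862fd4e55fb67ebf89817f3acafeba1) (.hit (nat_lit 2) (nat_lit 11) (nat_lit 0x17e23f2fb95e5fbe86bf642d7e8622fd5945f9866bf2bf97e5562fc8855f9dbebf3dc57e8d4afe002) b55766 (.hit (nat_lit 7) (nat_lit 17) (nat_lit 0x17e1c0afb8615fa9e4bf60397e7e3afd4975f966cbf28057e4d7afc7885f9bc4bf89817f3acafe4fb) b55771 (.one (nat_lit 9) (nat_lit 3) (nat_lit 12) (nat_lit 0x17e86f2fc5be5fd240bf95ad7ee922fe1f45fb126bf5d797eb862fd4e55fb67ebf6f457ef04afeba1) b55767 (.nil)))) (.tok (nat_lit 56) (nat_lit 0x17e91dafc71b5fd9c4bf9b217ef40afe3515fb3e0bf62ed7ec34afd6425fb938bf77257f160afea39) (.hit (nat_lit 4) (nat_lit 13) (nat_lit 0x17e509afbef35fc308bf7a817eb2cafdb295fa390bf424d7e820afce1a5fa8e8bf54197eb9f2fe707) b55768 (.hit (nat_lit 9) (nat_lit 19) (nat_lit 0x17e2fbafbad75fad10bf6a117e91eafd70d5f9b58bf31dd7e612afc9fe5fa0b0bf77257f160afdf44)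 b55772 (.one (nat_lit 6) (nat_lit 5) (nat_lit 14) (nat_lit 0x17e91dafc71b5fd9c4bf9b217ef40afe3515fb3e0bf62ed7ec34afd6425fb938bf74b97efb32fea39) b55769 (.nil)))) (.nil))))) (.tok (nat_lit 52) (nat_lit 0x17e3b8afbc515fbab2bf6ff97e9dbafd8875f9e4cbf37c57e6cfafcb785fa3a4bf8f7d7f4f1afe556) (.hit (nat_lit 19) (nat_lit 39) (nat_lit 0x17e223afb9275fa034bf63517e846afd55d5f97f8bf2b1d7e53aafc84e5f9d50bf8a557f3c8afe40c) b55773 (.hit (nat_lit 20) (nat_lit 40) (nat_lit 0x17e3b8afbc515fbab2bf6ff97e9dbafd8875f9e4cbf37c57e6cfafcb785fa3a4bf8f7d7f4f1afe556) b55774 (.nil))) (.tok (nat_lit 55) (nat_lit 0x17faffafe5bb5fe928bfe04d7ffadaff5fa600000bfc2397fa362ff4485ff802bfe1517fecbaffbc4) (.hit (nat_lit 21) (nat_lit 41) (nat_lit 0x17faffafe2a85fe578bfc73d7ffadaff071600000bfc2397fa362ff4485ff802bfe1517fecbaffbc4) b55775 (.tok (nat_lit 3) (nat_lit 0x17ec082fccf05fe928bfb2757f22b2fe9265fbf8abf7a417ef1f2fdc175fc4e2bf8c0d7f29daffa57)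 (.hit (nat_lit 27) (nat_lit 47) (nat_lit 0x17e834afc5495fd040bf93d97ee57afe17f5fb03cbf5ba57eb4bafd4705fb594bf6d717eeca2fefec) b55781 (.one (nat_lit 67) (nat_lit 28) (nat_lit 48) (nat_lit 0x17ec082fccf05fe928bfb2757f22b2fe9265fbf8abf7a417ef1f2fdc175fc4e2bf8c0d7f29daffa57) b55782 (.nil))) (.tok (nat_lit 6) (nat_lit 0x17f4a5afe5bb5fda54bfe04d7fae2aff5fa5fcd8cbf96457f29fafe3185fd2e4bfa8117f61e2ff67e) (.hit (nat_lit 22) (nat_lit 42) (nat_lit 0x17ed932fd5cc5fc9f2bfc3657f5b4afef755fba8abf70417eddf2fd9975fbfe2bf820d7f15dafef5e) b55776 (.hit (nat_lit 25) (nat_lit 45) (nat_lit 0x17e8612fc5a25fc7dabf953d7ee842fe1d85fb0eebf5d097eb782fd4c95fb646bf6ed57eef6afee13) b55779 (.tok (nat_lit 55) (nat_lit 0x17f4a5afe5bb5fda54bfe04d7fae2aff5fa5fcd8cbf96457f29fafe3185fd2e4bfa8117f61e2ff67e) (.hit (nat_lit 23) (nat_lit 43) (nat_lit 0x17f4a5afe5bb5fcbdebfe04d7fae2aff5fa5fcd8cbf96457f29fafe3185fd2e4bfa8117f61e2ff32a)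 b55777 (.hit (nat_lit 26) (nat_lit 46) (nat_lit 0x17eda62fd02c5fda54bfbf657f3c92fec625fc602bf87317f0bd2fdf535fcb5abf98fd7f43baff67e) b55780 (.one (nat_lit 6) (nat_lit 24) (nat_lit 44) (nat_lit 0x17ecdaafce955fca10bfb9097f2fdafeacb5fc2d4bf80d57eff1afddbc5fc82cbf92a17f3702ff17e) b55778 (.nil)))) (.nil)))) (.nil)))) (.one (nat_lit 58) (nat_lit 29) (nat_lit 49) (nat_lit 0x17e7d0afc4815fc82abf90b97edf3afe0b75faeacbf58857eae7afd3a85fb404bfcc597fc8c2ff48b) b55783 (.nil)))))) (.tok (nat_lit 9) (nat_lit 0x180000300000600000c00001800003000005ffa54c0000180000300000600000c0000180000300000) (.hit (nat_lit 157) (nat_lit 0) (nat_lit 0x17f2cd2fe49c5fbbe6bfbc097f4aeafed925fdc58bf97b17f4572fe7ab5fd978bfa7717f6bcafe876) b55784 (.tok (nat_lit 9) (nat_lit 0x180000300000600000c00001800003000005ffa54c0000180000300000600000c0000180000300000) (.hit (nat_lit 163) (nat_lit 20) (nat_lit 0x17ede92fd8a35fac06bf76857f0c7afdd135fb052bf79757ed4fafd3b25fb26ebf5c8d7ebdeafdc77)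 b55785 (.hit (nat_lit 171) (nat_lit 28) (nat_lit 0x17e71b2fbe235fa61abf10457ea25afc1c55f9286bf39197e7e52fdb415fbc3abf69857ed91afda2a) b55790 (.tok (nat_lit 14) (nat_lit 0x180000300000600000c00001800003000005ffa54c0000180000300000600000c0000180000300000) (.hit (nat_lit 167) (nat_lit 24) (nat_lit 0x17fe562ffbb45ffd5cbffb897fcf02fffed5ffa54bff6b17fdde2ff7bf5ff404bfe9717fda52ffd78) b55786 (.hit (nat_lit 173) (nat_lit 30) (nat_lit 0x17f5592fd9c95fe632bf82b17f833afde415fc796bf97717f5a7aff19a5fe91cbfc8717f867afeb4f) b55791 (.one (nat_lit 6) (nat_lit 168) (nat_lit 25) (nat_lit 0x180000300000600000c00001800003000005ff62ec0000180000300000600000c0000180000300000) b55787 (.nil)))) (.one (nat_lit 56) (nat_lit 174) (nat_lit 31) (nat_lit 0x17f166afd38d5fc92abf66b17f4c92fd7415fb96ebf7b6d7eff6afee525fe5d4bfa01d7f5e8afe71a) b55792 (.tok (nat_lit 68) (nat_lit 0x17fab12ff6e55fe072bfdb897f8f5aff8615fd81cbfbc297fa47afe9e85fd536bfb03d7f6c42ffda8)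 (.hit (nat_lit 169) (nat_lit 26) (nat_lit 0x17fab12fef765fdf16bfdb897f8f5aff8615fd81cbfbc297f7ecafe9e85fd536bfb03d7f6c42ff00f) b55788 (.hit (nat_lit 175) (nat_lit 32) (nat_lit 0x17f18eafd30e5fb962bf64897f4642fd6ac5fb834bf790d7f123afe3be5fca96bf8e997f2ca2fe23b) b55793 (.one (nat_lit 9) (nat_lit 170) (nat_lit 27) (nat_lit 0x17f5baaff6e55fe072bfbd297f724afebd35fccfabfaad97fa47afe3fd5fcbf2bf9dad7f49d2ffda8) b55789 (.nil)))) (.nil)))))) (.nil))) (.nil))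
noncomputable def r82_10 : Rw Blk := .tok (nat_lit 6) (nat_lit 0x5e0000bc00017f9b92ff492) (.hit (nat_lit 51) (nat_lit 0) (nat_lit 0x5e0000bc00017ee012fe310) b55794 (.tok (nat_lit 14) (nat_lit 0x5e0000bc00017f3e4afe92f) (.hit (nat_lit 62) (nat_lit 61) (nat_lit 0x5e0000bc00017f3e4afe5db) b55795 (.one (nat_lit 3) (nat_lit 63) (nat_lit 62) (nat_lit 0x5e0000bc00017f31a2fdc43) b55796 (.tok (nat_lit 6) (nat_lit 0x5e0000bc00017eeb42fe517) (.hit (nat_lit 66) (nat_lit 65) (nat_lit 0x5e0000bc00017e9972fe517) b55797 (.hit (nat_lit 67) (nat_lit 66) (nat_lit 0x5e0000bc00017eeb42fe359) b55798 (.nil))) (.tok (nat_lit 9) (nat_lit 0x5e0000bc00017f2252fe92f) (.hit (nat_lit 64) (nat_lit 63) (nat_lit 0x5e0000bc00017f2252fe92f) b55799 (.hit (nat_lit 65) (nat_lit 64) (nat_lit 0x5e0000bc00017ef67afe50d) b55800 (.nil))) (.nil))))) (.one (nat_lit 17) (nat_lit 68) (nat_lit 67) (nat_lit 0x5e0000bc00017ee172fd1b2)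 b55801 (.tok (nat_lit 20) (nat_lit 0x5e0000bc00017f89fafed35) (.hit (nat_lit 69) (nat_lit 68) (nat_lit 0x5e0000bc00017f89fafed35) b55804 (.hit (nat_lit 70) (nat_lit 69) (nat_lit 0x5e0000bc00017eeceafd01e) b55805 (.nil))) (.tok (nat_lit 23) (nat_lit 0x5e0000bc00017ed752fd11e) (.hit (nat_lit 71) (nat_lit 70) (nat_lit 0x5e0000bc00017df9aafd11e) b55802 (.hit (nat_lit 72) (nat_lit 71) (nat_lit 0x5e0000bc00017ed752fd01e) b55803 (.nil))) (.one (nat_lit 26) (nat_lit 73) (nat_lit 72) (nat_lit 0x5e0000bc00017e5f62fbdae) b55806 (.one (nat_lit 29) (nat_lit 74) (nat_lit 73) (nat_lit 0x5e0000bc00017e5882fc0c0) b55807 (.one (nat_lit 32) (nat_lit 75) (nat_lit 74) (nat_lit 0x5e0000bc00017e4caafc39d) b55809 (.one (nat_lit 35) (nat_lit 76) (nat_lit 75) (nat_lit 0x5e0000bc00017ea122fc39d) b55808 (.one (nat_lit 38) (nat_lit 77) (nat_lit 76) (nat_lit 0x5e0000bc00017ed3aafd1f2) b55810 (.tok (nat_lit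 41) (nat_lit 0x5e0000bc00017ee8fafca84) (.hit (nat_lit 78) (nat_lit 77) (nat_lit 0x5e0000bc00017ea56afc1af) b55811 (.hit (nat_lit 79) (nat_lit 78) (nat_lit 0x5e0000bc00017ee8fafca84) b55812 (.nil))) (.tok (nat_lit 44) (nat_lit 0x5e0000bc00017efb6afcd66) (.hit (nat_lit 80) (nat_lit 79) (nat_lit 0x5e0000bc00017efb6afcd66) b55815 (.hit (nat_lit 81) (nat_lit 80) (nat_lit 0x5e0000bc00017e9972fc6f2) b55816 (.nil))) (.tok (nat_lit 47) (nat_lit 0x5e0000bc00017efe42fccc4) (.hit (nat_lit 82) (nat_lit 81) (nat_lit 0x5e0000bc00017d532afbc4e) b55813 (.hit (nat_lit 83) (nat_lit 82) (nat_lit 0x5e0000bc00017efe42fccc4) b55814 (.nil))) (.one (nat_lit 50) (nat_lit 84) (nat_lit 83) (nat_lit 0x5e0000bc00017ed40afcb60) b55817 (.tok (nat_lit 53) (nat_lit 0x5e0000bc00017edb3afd3f0) (.hit (nat_lit 85) (nat_lit 84) (nat_lit 0x5e0000bc00017e11aafd3f0) b55818 (.hit (nat_lit 86) (nat_lit 85) (nat_lit 0x5e0000bc00017edb3afcd01)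 b55819 (.nil))) (.tok (nat_lit 56) (nat_lit 0x5e0000bc00017f9b92ff492) (.hit (nat_lit 87) (nat_lit 86) (nat_lit 0x5e0000bc00017f96daff3f5) b55820 (.one (nat_lit 3) (nat_lit 91) (nat_lit 90) (nat_lit 0x5e0000bc00017f9b92feaf2) b55824 (.tok (nat_lit 6) (nat_lit 0x5e0000bc00017f57b2fe1c4) (.hit (nat_lit 89) (nat_lit 88) (nat_lit 0x5e0000bc00017f57b2fe1c4) b55822 (.hit (nat_lit 90) (nat_lit 89) (nat_lit 0x5e0000bc00017eff52fd4ae) b55823 (.nil))) (.one (nat_lit 9) (nat_lit 88) (nat_lit 87) (nat_lit 0x5e0000bc00017f450aff492) b55821 (.nil))))) (.one (nat_lit 59) (nat_lit 92) (nat_lit 91) (nat_lit 0x5e0000bc00017e9ff2fc1c1) b55825 (.nil)))))))))))))))))) (.tok (nat_lit 52) (nat_lit 0x5e0000bc000180000301275) (.hit (nat_lit 225) (nat_lit 0) (nat_lit 0x5e0000bc00017fe76301275) b55826 (.tok (nat_lit 6) (nat_lit 0x5e0000bc000180000300e08) (.hit (nat_lit 226) (nat_lit 7) (nat_lit 0x5e0000bc000180000300e08)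 b55829 (.hit (nat_lit 227) (nat_lit 15) (nat_lit 0x5e0000bc00017f4752ffa92) b55830 (.nil))) (.tok (nat_lit 9) (nat_lit 0x5e0000bc00017f1d4aff88c) (.hit (nat_lit 228) (nat_lit 20) (nat_lit 0x5e0000bc00017e6ec2ff0f7) b55827 (.hit (nat_lit 229) (nat_lit 28) (nat_lit 0x5e0000bc00017f1d4aff88c) b55828 (.nil))) (.nil)))) (.tok (nat_lit 55) (nat_lit 0x5e0000bc00017f661b005f0) (.hit (nat_lit 250) (nat_lit 0) (nat_lit 0x5e0000bc00017f661aff207) b55836 (.tok (nat_lit 3) (nat_lit 0x5e0000bc00017f168b005f0) (.hit (nat_lit 251) (nat_lit 1) (nat_lit 0x5e0000bc00017e3e12feae1) b55837 (.one (nat_lit 67) (nat_lit 252) (nat_lit 2) (nat_lit 0x5e0000bc00017f168b005f0) b55838 (.nil))) (.tok (nat_lit 6) (nat_lit 0x5e0000bc00017ed372ffd8d) (.hit (nat_lit 253) (nat_lit 7) (nat_lit 0x5e0000bc00017e6e2aff0e4) b55839 (.hit (nat_lit 256) (nat_lit 15) (nat_lit 0x5e0000bc00017e357afe9ce) b55842 (.tok (nat_lit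 55) (nat_lit 0x5e0000bc00017ed372ffd8d) (.hit (nat_lit 254) (nat_lit 8) (nat_lit 0x5e0000bc00017e8cc2ff4b7) b55840 (.hit (nat_lit 257) (nat_lit 16) (nat_lit 0x5e0000bc00017ed372ffd8d) b55843 (.one (nat_lit 6) (nat_lit 255) (nat_lit 9) (nat_lit 0x5e0000bc00017ebf22ffb03) b55841 (.nil)))) (.nil)))) (.nil)))) (.tok (nat_lit 58) (nat_lit 0x5e0000bc00017fb04b00c74) (.hit (nat_lit 236) (nat_lit 0) (nat_lit 0x5e0000bc00017fb04aff813) b55831 (.tok (nat_lit 3) (nat_lit 0x5e0000bc00017f4aab00c74) (.hit (nat_lit 237) (nat_lit 1) (nat_lit 0x5e0000bc00017e3ac2fea77) b55832 (.one (nat_lit 55) (nat_lit 238) (nat_lit 3) (nat_lit 0x5e0000bc00017f4aab00c74) b55833 (.nil))) (.tok (nat_lit 9) (nat_lit 0x5e0000bc00017ea44aff7a8) (.hit (nat_lit 239) (nat_lit 20) (nat_lit 0x5e0000bc00017ea44aff7a8) b55834 (.hit (nat_lit 242) (nat_lit 28) (nat_lit 0x5e0000bc00017e6a32ff065) b55835 (.nil))) (.nil))))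 (.nil))))
noncomputable def r82_11 : Rw Blk := .tok (nat_lit 3) (nat_lit 0x5e0000bc0001803b5b00ada) (.hit (nat_lit 15) (nat_lit 0) (nat_lit 0x5e0000bc00017f2022ff665) b55859 (.tok (nat_lit 9) (nat_lit 0x5e0000bc00017e5482fe641) (.hit (nat_lit 16) (nat_lit 20) (nat_lit 0x5e0000bc00017df90afdad2) b55860 (.hit (nat_lit 21) (nat_lit 28) (nat_lit 0x5e0000bc00017d3afafc310) b55863 (.tok (nat_lit 14) (nat_lit 0x5e0000bc00017e5482fe641) (.hit (nat_lit 17) (nat_lit 24) (nat_lit 0x5e0000bc00017de34afd81a) b55861 (.hit (nat_lit 22) (nat_lit 30) (nat_lit 0x5e0000bc00017e3e02fe371) b55864 (.one (nat_lit 6) (nat_lit 18) (nat_lit 25) (nat_lit 0x5e0000bc00017e5482fe641) b55862 (.nil)))) (.one (nat_lit 56) (nat_lit 23) (nat_lit 31) (nat_lit 0x5e0000bc00017e3052fe1bb) b55865 (.nil))))) (.tok (nat_lit 64) (nat_lit 0x5e0000bc00017e968afee82) (.hit (nat_lit 25) (nat_lit 50) (nat_lit 0x5e0000bc00017e2d5afe15c)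 b55866 (.hit (nat_lit 26) (nat_lit 51) (nat_lit 0x5e0000bc00017e968afee82) b55867 (.nil))) (.tok (nat_lit 67) (nat_lit 0x5e0000bc0001803b5b00ada) (.hit (nat_lit 27) (nat_lit 52) (nat_lit 0x5e0000bc0001803b5b00ada) b55868 (.tok (nat_lit 3) (nat_lit 0x5e0000bc00017ed84aff6ba) (.hit (nat_lit 33) (nat_lit 58) (nat_lit 0x5e0000bc00017e9752fee9b) b55871 (.one (nat_lit 55) (nat_lit 34) (nat_lit 59) (nat_lit 0x5e0000bc00017ed84aff6ba) b55872 (.nil))) (.tok (nat_lit 9) (nat_lit 0x5e0000bc00017e7602fea71) (.hit (nat_lit 28) (nat_lit 53) (nat_lit 0x5e0000bc00017e5c4afe73a) b55869 (.hit (nat_lit 31) (nat_lit 56) (nat_lit 0x5e0000bc00017e7602fea71) b55870 (.nil))) (.nil)))) (.one (nat_lit 70) (nat_lit 35) (nat_lit 60) (nat_lit 0x5e0000bc00017e8db2fed67) b55873 (.nil)))))) (.tok (nat_lit 6) (nat_lit 0x5e0000bc000180d93b035cc) (.hit (nat_lit 0) (nat_lit 0) (nat_lit 0x5e0000bc00017fbec300c2b)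 b55844 (.tok (nat_lit 6) (nat_lit 0x5e0000bc000180098300d76) (.hit (nat_lit 1) (nat_lit 7) (nat_lit 0x5e0000bc00017f0a62fecdf) b55845 (.hit (nat_lit 4) (nat_lit 15) (nat_lit 0x5e0000bc00017eaefafdd88) b55848 (.tok (nat_lit 14) (nat_lit 0x5e0000bc000180098300d76) (.hit (nat_lit 2) (nat_lit 11) (nat_lit 0x5e0000bc00017fda0b00d2a) b55846 (.hit (nat_lit 5) (nat_lit 17) (nat_lit 0x5e0000bc00017f04fafe65f) b55849 (.one (nat_lit 9) (nat_lit 3) (nat_lit 12) (nat_lit 0x5e0000bc000180098300d76) b55847 (.nil)))) (.one (nat_lit 68) (nat_lit 6) (nat_lit 18) (nat_lit 0x5e0000bc00017fb0daff820) b55850 (.nil))))) (.tok (nat_lit 52) (nat_lit 0x5e0000bc00018051c30189e) (.hit (nat_lit 7) (nat_lit 39) (nat_lit 0x5e0000bc0001800d6b0189e) b55851 (.hit (nat_lit 8) (nat_lit 40) (nat_lit 0x5e0000bc00018051c301620) b55852 (.nil))) (.tok (nat_lit 55) (nat_lit 0x5e0000bc00018058f301ab9) (.hit (nat_lit 9)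 (nat_lit 41) (nat_lit 0x5e0000bc000180289b01811) b55853 (.tok (nat_lit 3) (nat_lit 0x5e0000bc00018058f301ab9) (.hit (nat_lit 12) (nat_lit 47) (nat_lit 0x5e0000bc00017fec5b01140) b55856 (.one (nat_lit 67) (nat_lit 13) (nat_lit 48) (nat_lit 0x5e0000bc00018058f301ab9) b55857 (.nil))) (.tok (nat_lit 6) (nat_lit 0x5e0000bc00017fc903007e0) (.hit (nat_lit 10) (nat_lit 42) (nat_lit 0x5e0000bc00017f5e93007e0) b55854 (.hit (nat_lit 11) (nat_lit 45) (nat_lit 0x5e0000bc00017fc903003f7) b55855 (.nil))) (.nil)))) (.one (nat_lit 58) (nat_lit 14) (nat_lit 49) (nat_lit 0x5e0000bc000180d93b035cc) b55858 (.nil)))))) (.nil))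
noncomputable def r82_12 : Rw Blk := .tok (nat_lit 9) (nat_lit 0x1780002f0000600000c062e180c89300dff) (.hit (nat_lit 0) (nat_lit 0) (nat_lit 0x1780002f00005fb17abf81c17ef922fdf92) b55874 (.tok (nat_lit 14) (nat_lit 0x1780002f00005ffa7cbfce217f6f52ff680) (.hit (nat_lit 21) (nat_lit 61) (nat_lit 0x1780002f00005fe1dcbf89417f1f8afeb49) b55875 (.one (nat_lit 3) (nat_lit 22) (nat_lit 62) (nat_lit 0x1780002f00005fea86bf7d757ed09afefc1) b55876 (.tok (nat_lit 6) (nat_lit 0x1780002f00005ffa7cbfce217f6f52ff680) (.hit (nat_lit 25) (nat_lit 65) (nat_lit 0x1780002f00005ffa7cbfce217f6f52ff680) b55877 (.hit (nat_lit 26) (nat_lit 66) (nat_lit 0x1780002f00005fbe8ebf6b417ed4aafda4d) b55878 (.nil))) (.tok (nat_lit 9) (nat_lit 0x1780002f00005fc190bf93417efeaafe4d6) (.hit (nat_lit 23) (nat_lit 63) (nat_lit 0x1780002f00005f7adcbf72097ee23afdbff) b55879 (.hit (nat_lit 24) (nat_lit 64) (nat_lit 0x1780002f00005fc190bf93417efeaafe4d6)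 b55880 (.nil))) (.nil))))) (.one (nat_lit 17) (nat_lit 27) (nat_lit 67) (nat_lit 0x1780002f00005fd004bf6bd17ec0fafdcdd) b55881 (.tok (nat_lit 20) (nat_lit 0x1780002f00005fb044bf3a457e5c52fd013) (.hit (nat_lit 28) (nat_lit 68) (nat_lit 0x1780002f00005f5962bf2f157e5c52fcb42) b55884 (.hit (nat_lit 29) (nat_lit 69) (nat_lit 0x1780002f00005fb044bf3a457e5b52fd013) b55885 (.nil))) (.tok (nat_lit 23) (nat_lit 0x1780002f0000600000c062e180c89300dff) (.hit (nat_lit 30) (nat_lit 70) (nat_lit 0x1780002f0000600000c062e180c89300dff) b55882 (.hit (nat_lit 31) (nat_lit 71) (nat_lit 0x1780002f00005fb608bf3f617e7f0afd240) b55883 (.nil))) (.one (nat_lit 38) (nat_lit 36) (nat_lit 76) (nat_lit 0x1780002f00005fad1ebf375d7e6ce2fcde9) b55886 (.tok (nat_lit 41) (nat_lit 0x1780002f00005fa504bf45d17e8c12fd628) (.hit (nat_lit 37) (nat_lit 77) (nat_lit 0x1780002f00005f9866bf07697df3a2fc79b) b55887 (.hit (nat_lit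 38) (nat_lit 78) (nat_lit 0x1780002f00005fa504bf45d17e8c12fd628) b55888 (.nil))) (.tok (nat_lit 44) (nat_lit 0x1780002f00005fd746bf5e457ea8b2fe274) (.hit (nat_lit 39) (nat_lit 79) (nat_lit 0x1780002f00005f4a90bf11717e210afc3d9) b55891 (.hit (nat_lit 40) (nat_lit 80) (nat_lit 0x1780002f00005fd746bf5e457ea8b2fe274) b55892 (.nil))) (.tok (nat_lit 47) (nat_lit 0x1780002f00005fc3d4bf66297ebd3afde90) (.hit (nat_lit 41) (nat_lit 81) (nat_lit 0x1780002f00005fc3d4bf66297ebd3afde90) b55889 (.hit (nat_lit 42) (nat_lit 82) (nat_lit 0x1780002f00005fac58bf057d7e11f2fcd19) b55890 (.nil))) (.one (nat_lit 50) (nat_lit 43) (nat_lit 83) (nat_lit 0x1780002f00005fa1f4bf20817e3f2afc87f) b55902 (.tok (nat_lit 53) (nat_lit 0x1780002f00005fb994bf39d57e6512fd49f) (.hit (nat_lit 44) (nat_lit 84) (nat_lit 0x1780002f00005fb994bf35717e5332fd49f) b55903 (.hit (nat_lit 45) (nat_lit 85) (nat_lit 0x1780002f00005f8f2cbf39d57e6512fcd40)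 b55904 (.nil))) (.tok (nat_lit 56) (nat_lit 0x1780002f00005f9ee2bf84e97ef45afdf2d) (.hit (nat_lit 46) (nat_lit 86) (nat_lit 0x1780002f00005f9ee2bf84e97ef45afdf2d) b55905 (.one (nat_lit 3) (nat_lit 50) (nat_lit 90) (nat_lit 0x1780002f00005f5868bf2d217e586afcac5) b55909 (.tok (nat_lit 6) (nat_lit 0x1780002f00005f7c86bf755d7ee8e2fdcd4) (.hit (nat_lit 48) (nat_lit 88) (nat_lit 0x1780002f00005f7c86bf755d7ee8e2fdcd4) b55907 (.hit (nat_lit 49) (nat_lit 89) (nat_lit 0x1780002f00005f6be2bf54157ea652fd482) b55908 (.nil))) (.one (nat_lit 9) (nat_lit 47) (nat_lit 87) (nat_lit 0x1780002f00005f60aebf3dad7e7982fcee8) b55906 (.nil))))) (.one (nat_lit 59) (nat_lit 51) (nat_lit 91) (nat_lit 0x1780002f00005faf42bf2c9d7e4d4afcf36) b55910 (.one (nat_lit 62) (nat_lit 52) (nat_lit 92) (nat_lit 0x1780002f00005fbfbabf3d657e762afd63f) b55893 (.tok (nat_lit 65) (nat_lit 0x1780002f00005fd5a6bf921d7f2a0afee84)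 (.hit (nat_lit 53) (nat_lit 93) (nat_lit 0x1780002f00005fd5a6bf921d7f2a0afee84) b55894 (.hit (nat_lit 54) (nat_lit 94) (nat_lit 0x1780002f00005fbd8abf490d7e891afd91f) b55895 (.nil))) (.tok (nat_lit 68) (nat_lit 0x1780002f00005fe00ebfe9217fb262fefed) (.hit (nat_lit 55) (nat_lit 95) (nat_lit 0x1780002f00005fd992bfa8b57f513afe5a3) b55896 (.one (nat_lit 3) (nat_lit 59) (nat_lit 99) (nat_lit 0x1780002f00005fc096bf80a57efa5afd709) b55900 (.one (nat_lit 6) (nat_lit 56) (nat_lit 96) (nat_lit 0x1780002f00005fe00ebfe9217fb262fefed) b55897 (.tok (nat_lit 9) (nat_lit 0x1780002f00005fd978bf7f357f0092fe9a9) (.hit (nat_lit 57) (nat_lit 97) (nat_lit 0x1780002f00005fd978bf7f357f0092fe9a9) b55898 (.hit (nat_lit 58) (nat_lit 98) (nat_lit 0x1780002f00005fcdaabf58957ea012fdf1e) b55899 (.nil))) (.nil))))) (.one (nat_lit 71) (nat_lit 60) (nat_lit 100) (nat_lit 0x1780002f00005fb452bf26c97e4432fd019)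 b55901 (.nil)))))))))))))))))) (.nil)
noncomputable def r82_13 : Rw Blk := .tok (nat_lit 9) (nat_lit 0x5e0000bc000180000300000) (.hit (nat_lit 0) (nat_lit 0) (nat_lit 0x5e0000bc00017ebddafde2d) b55911 (.tok (nat_lit 14) (nat_lit 0x5e0000bc000180000300000) (.hit (nat_lit 21) (nat_lit 61) (nat_lit 0x5e0000bc00017f8e02fe90b) b55912 (.one (nat_lit 3) (nat_lit 22) (nat_lit 62) (nat_lit 0x5e0000bc00017f22b2fdf36) b55913 (.tok (nat_lit 6) (nat_lit 0x5e0000bc000180000300000) (.hit (nat_lit 25) (nat_lit 65) (nat_lit 0x5e0000bc000180000300000) b55914 (.hit (nat_lit 26) (nat_lit 66) (nat_lit 0x5e0000bc00017f4a5afe6f0) b55915 (.nil))) (.tok (nat_lit 9) (nat_lit 0x5e0000bc00017f2662fe99c) (.hit (nat_lit 23) (nat_lit 63) (nat_lit 0x5e0000bc00017e9022fe657) b55916 (.hit (nat_lit 24) (nat_lit 64) (nat_lit 0x5e0000bc00017f2662fe99c) b55917 (.nil))) (.nil))))) (.one (nat_lit 17) (nat_lit 27) (nat_lit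 67) (nat_lit 0x5e0000bc00017ed372fd4a5) b55918 (.tok (nat_lit 20) (nat_lit 0x5e0000bc00017ed222fded8) (.hit (nat_lit 28) (nat_lit 68) (nat_lit 0x5e0000bc00017e542afded8) b55921 (.hit (nat_lit 29) (nat_lit 69) (nat_lit 0x5e0000bc00017ed222fd311) b55922 (.nil))) (.tok (nat_lit 23) (nat_lit 0x5e0000bc00017f1b92fe624) (.hit (nat_lit 30) (nat_lit 70) (nat_lit 0x5e0000bc00017f1b92fe624) b55919 (.hit (nat_lit 31) (nat_lit 71) (nat_lit 0x5e0000bc00017eba02fd313) b55920 (.nil))) (.one (nat_lit 38) (nat_lit 36) (nat_lit 76) (nat_lit 0x5e0000bc00017eb12afd4e5) b55923 (.tok (nat_lit 41) (nat_lit 0x5e0000bc00017e9e3afcbf0) (.hit (nat_lit 37) (nat_lit 77) (nat_lit 0x5e0000bc00017e9e3afc64e) b55924 (.hit (nat_lit 38) (nat_lit 78) (nat_lit 0x5e0000bc00017e85aafcbf0) b55925 (.nil))) (.tok (nat_lit 44) (nat_lit 0x5e0000bc00017edb8afcbdb) (.hit (nat_lit 39) (nat_lit 79) (nat_lit 0x5e0000bc00017d41cafbc8c)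 b55928 (.hit (nat_lit 40) (nat_lit 80) (nat_lit 0x5e0000bc00017edb8afcbdb) b55929 (.nil))) (.tok (nat_lit 47) (nat_lit 0x5e0000bc00017eea6afceca) (.hit (nat_lit 41) (nat_lit 81) (nat_lit 0x5e0000bc00017eea6afceca) b55926 (.hit (nat_lit 42) (nat_lit 82) (nat_lit 0x5e0000bc00017ea65afc8cf) b55927 (.nil))) (.one (nat_lit 50) (nat_lit 43) (nat_lit 83) (nat_lit 0x5e0000bc00017ea5b2fce53) b55939 (.tok (nat_lit 53) (nat_lit 0x5e0000bc00017e8c7afd506) (.hit (nat_lit 44) (nat_lit 84) (nat_lit 0x5e0000bc00017e65d2fd506) b55940 (.hit (nat_lit 45) (nat_lit 85) (nat_lit 0x5e0000bc00017e8c7afc725) b55941 (.nil))) (.tok (nat_lit 56) (nat_lit 0x5e0000bc00017ec4bafe7e3) (.hit (nat_lit 46) (nat_lit 86) (nat_lit 0x5e0000bc00017ec4bafe7e3) b55942 (.one (nat_lit 3) (nat_lit 50) (nat_lit 90) (nat_lit 0x5e0000bc00017e4582fdd03) b55946 (.tok (nat_lit 6) (nat_lit 0x5e0000bc00017e5ef2fe031) (.hit (nat_lit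 48) (nat_lit 88) (nat_lit 0x5e0000bc00017e5ef2fe031) b55944 (.hit (nat_lit 49) (nat_lit 89) (nat_lit 0x5e0000bc00017e4c62fdddf) b55945 (.nil))) (.one (nat_lit 9) (nat_lit 47) (nat_lit 87) (nat_lit 0x5e0000bc00017e3a7afdba2) b55943 (.nil))))) (.one (nat_lit 59) (nat_lit 51) (nat_lit 91) (nat_lit 0x5e0000bc00017ea5fafc567) b55947 (.one (nat_lit 62) (nat_lit 52) (nat_lit 92) (nat_lit 0x5e0000bc00017f01c2fd09f) b55930 (.tok (nat_lit 65) (nat_lit 0x5e0000bc00017f110afdf9f) (.hit (nat_lit 53) (nat_lit 93) (nat_lit 0x5e0000bc00017f110afdf9f) b55931 (.hit (nat_lit 54) (nat_lit 94) (nat_lit 0x5e0000bc00017eed6afce7e) b55932 (.nil))) (.tok (nat_lit 68) (nat_lit 0x5e0000bc00017fc1aafed87) (.hit (nat_lit 55) (nat_lit 95) (nat_lit 0x5e0000bc00017f7efafe53b) b55933 (.one (nat_lit 3) (nat_lit 59) (nat_lit 99) (nat_lit 0x5e0000bc00017f2a92fd82d) b55937 (.one (nat_lit 6) (nat_lit 56) (nat_lit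 96) (nat_lit 0x5e0000bc00017fa692fed87) b55934 (.tok (nat_lit 9) (nat_lit 0x5e0000bc00017fc1aafed12) (.hit (nat_lit 57) (nat_lit 97) (nat_lit 0x5e0000bc00017fc1aafed12) b55935 (.hit (nat_lit 58) (nat_lit 98) (nat_lit 0x5e0000bc00017f2212fd7a3) b55936 (.nil))) (.nil))))) (.one (nat_lit 71) (nat_lit 60) (nat_lit 100) (nat_lit 0x5e0000bc00017ec4dafc900) b55938 (.nil)))))))))))))))))) (.nil)
noncomputable def r82_14 : Rw Blk := .tok (nat_lit 6) (nat_lit 0x2feb0b5fdbe0bfd9517f6b5b00000600000bf9fb97fb92aff27a) (.hit (nat_lit 81) (nat_lit 0) (nat_lit 0x2fe4b85fd5d4bf98697f6b5aff008600000bf9fb97fb92afeb7a) b55959 (.tok (nat_lit 3) (nat_lit 0x2feb0b5fdbe0bfd9517f3b1b000005fe6c0bf689d7f7e2aff27a) (.hit (nat_lit 82) (nat_lit 1) (nat_lit 0x2fcbb35f88b0bf69c97e351afdace5faadebee59d7e782afd6b5) b55960 (.one (nat_lit 14) (nat_lit 84) (nat_lit 4) (nat_lit 0x2fe8a95fdbe0bfbe497ea0d3000005fe5ecbf0fad7f4402ff27a)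 b55961 (.one (nat_lit 56) (nat_lit 86) (nat_lit 6) (nat_lit 0x2fde885fbe9cbf85197ec802ff2565fd9aabf2f117f12eafe9a5) b55962 (.one (nat_lit 68) (nat_lit 85) (nat_lit 5) (nat_lit 0x2feb0b5fd3a2bfd9517f3b1afeec05fe6c0bf689d7f7e2afe5fe) b55963 (.nil))))) (.nil))) (.tok (nat_lit 9) (nat_lit 0x300000600000c00001800002ff4105fffc8c0000180000300000) (.hit (nat_lit 157) (nat_lit 0) (nat_lit 0x2fe4b85fd5d4bf98697f6af2ff2b05ffe8abfab997fb922feb41) b55948 (.tok (nat_lit 3) (nat_lit 0x2feb0b5fdbe0bfd9517f3b1afe78c5fe6c0bfdea17f7e2aff4dc) (.hit (nat_lit 158) (nat_lit 1) (nat_lit 0x2fcbb35f88b0bf69c97e351afc6cc5fa540bf40117e782afd6b5) b55949 (.one (nat_lit 14) (nat_lit 160) (nat_lit 4) (nat_lit 0x2fe8a95fdbe0bfbe497eff42fd1505fcd6ebfd2cd7f4262ff267) b55950 (.one (nat_lit 56) (nat_lit 162) (nat_lit 6) (nat_lit 0x2feb0b5fd3a2bfd9517f3b1afe78c5fe6c0bfdea17f7e2aff4dc) b55951 (.one (nat_lit 68) (nat_lit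 161) (nat_lit 5) (nat_lit 0x2fde885fbe9cbf85197ecee2fd9295fc9fabf9e517f1172fec77) b55952 (.nil))))) (.tok (nat_lit 40) (nat_lit 0x2fe7215fd042bfb9597f32b2fdb8d5fcfbabfafe17f40d2fefa8) (.hit (nat_lit 176) (nat_lit 33) (nat_lit 0x2fe7215fd042bfb9597f02c2fdb8d5fcfbabfafe17f40d2fefa8) b55953 (.hit (nat_lit 177) (nat_lit 34) (nat_lit 0x2fe2775fb726bf90d17f32b2fd5535fc27cbfaa997f164afee0b) b55954 (.nil))) (.tok (nat_lit 43) (nat_lit 0x3000005ff54cc00001800002ff4105fffc8bfe41180000300000) (.hit (nat_lit 178) (nat_lit 35) (nat_lit 0x2fe23a5fbc94bfed7d7f9f3aff4105fffc8bf9aad7fe24afef2d) b55957 (.hit (nat_lit 179) (nat_lit 36) (nat_lit 0x3000005ff54cc00001800002fea235ffc36bfe41180000300000) b55958 (.nil))) (.tok (nat_lit 46) (nat_lit 0x2fecc7600000bfc0317f7412fee2c5ff400c000017fe4e2ff4b0) (.hit (nat_lit 180) (nat_lit 37) (nat_lit 0x2fecc7600000bfc0317f7412fee2c5ff400c000017fe4e2ff4b0) b55955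 (.hit (nat_lit 181) (nat_lit 38) (nat_lit 0x2fe7225fd476bfbc317f611afe4975fe0d6bfb1e57f6682ff3e2) b55956 (.nil))) (.nil)))))) (.nil))
noncomputable def r82_15 : Rw Blk := .tok (nat_lit 3) (nat_lit 0xbc000178000300000) (.hit (nat_lit 61) (nat_lit 0) (nat_lit 0xbc0001780002fed3f) b12933 (.tok (nat_lit 14) (nat_lit 0xbc000178000300000) (.hit (nat_lit 82) (nat_lit 61) (nat_lit 0xbc000178000300000) b12934 (.one (nat_lit 3) (nat_lit 83) (nat_lit 62) (nat_lit 0xbc0001780002fda5e) b12935 (.tok (nat_lit 6) (nat_lit 0xbc0001780002fdee9) (.hit (nat_lit 86) (nat_lit 65) (nat_lit 0xbc0001780002fde0e) b12938 (.hit (nat_lit 87) (nat_lit 66) (nat_lit 0xbc0001780002fdee9) b12939 (.nil))) (.tok (nat_lit 9) (nat_lit 0xbc0001780002ffe02) (.hit (nat_lit 84) (nat_lit 63) (nat_lit 0xbc0001780002ffe02) b12936 (.hit (nat_lit 85) (nat_lit 64) (nat_lit 0xbc0001780002fdd1b) b12937 (.nil))) (.nil))))) (.one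 (nat_lit 17) (nat_lit 88) (nat_lit 67) (nat_lit 0xbc0001780002fd600) b12940 (.tok (nat_lit 20) (nat_lit 0xbc0001780002fdc29) (.hit (nat_lit 89) (nat_lit 68) (nat_lit 0xbc0001780002fdc29) b12941 (.hit (nat_lit 90) (nat_lit 69) (nat_lit 0xbc0001780002fd409) b12942 (.nil))) (.tok (nat_lit 23) (nat_lit 0xbc0001780002fe24e) (.hit (nat_lit 91) (nat_lit 70) (nat_lit 0xbc0001780002fe24e) b12943 (.hit (nat_lit 92) (nat_lit 71) (nat_lit 0xbc0001780002fd429) b12944 (.nil))) (.one (nat_lit 38) (nat_lit 97) (nat_lit 76) (nat_lit 0xbc0001780002fd320) b12945 (.tok (nat_lit 41) (nat_lit 0xbc0001780002fd15b) (.hit (nat_lit 98) (nat_lit 77) (nat_lit 0xbc0001780002fbadf) b12946 (.hit (nat_lit 99) (nat_lit 78) (nat_lit 0xbc0001780002fd15b) b12947 (.nil))) (.tok (nat_lit 44) (nat_lit 0xbc0001780002fcb88) (.hit (nat_lit 100) (nat_lit 79) (nat_lit 0xbc0001780002fbef3) b12948 (.hit (nat_lit 101) (nat_lit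 80) (nat_lit 0xbc0001780002fcb88) b12949 (.nil))) (.tok (nat_lit 47) (nat_lit 0xbc0001780002fcc75) (.hit (nat_lit 102) (nat_lit 81) (nat_lit 0xbc0001780002fcb7b) b12950 (.hit (nat_lit 103) (nat_lit 82) (nat_lit 0xbc0001780002fcc75) b12951 (.nil))) (.one (nat_lit 50) (nat_lit 104) (nat_lit 83) (nat_lit 0xbc0001780002fd3a2) b12952 (.tok (nat_lit 53) (nat_lit 0xbc0001780002fd6ed) (.hit (nat_lit 105) (nat_lit 84) (nat_lit 0xbc0001780002fd6ed) b12953 (.hit (nat_lit 106) (nat_lit 85) (nat_lit 0xbc0001780002fd015) b12954 (.nil))) (.tok (nat_lit 56) (nat_lit 0xbc0001780002ff0b0) (.hit (nat_lit 107) (nat_lit 86) (nat_lit 0xbc0001780002ff0b0) b12955 (.one (nat_lit 3) (nat_lit 111) (nat_lit 90) (nat_lit 0xbc0001780002fdebc) b12959 (.tok (nat_lit 6) (nat_lit 0xbc0001780002ff0a7) (.hit (nat_lit 109) (nat_lit 88) (nat_lit 0xbc0001780002ff0a7) b12957 (.hit (nat_lit 110) (nat_lit 89) (nat_lit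 0xbc0001780002fdef0) b12958 (.nil))) (.one (nat_lit 9) (nat_lit 108) (nat_lit 87) (nat_lit 0xbc0001780002fe1c3) b12956 (.nil))))) (.one (nat_lit 59) (nat_lit 112) (nat_lit 91) (nat_lit 0xbc0001780002fbf53) b12960 (.one (nat_lit 62) (nat_lit 113) (nat_lit 92) (nat_lit 0xbc0001780002fda6b) b12961 (.tok (nat_lit 65) (nat_lit 0xbc0001780002fe024) (.hit (nat_lit 114) (nat_lit 93) (nat_lit 0xbc0001780002fe024) b12962 (.hit (nat_lit 115) (nat_lit 94) (nat_lit 0xbc0001780002fd028) b12963 (.nil))) (.tok (nat_lit 68) (nat_lit 0xbc0001780002fff17) (.hit (nat_lit 116) (nat_lit 95) (nat_lit 0xbc0001780002fff17) b12964 (.one (nat_lit 3) (nat_lit 120) (nat_lit 99) (nat_lit 0xbc0001780002fe5aa) b12968 (.one (nat_lit 6) (nat_lit 117) (nat_lit 96) (nat_lit 0xbc0001780002fe8b1) b12965 (.tok (nat_lit 9) (nat_lit 0xbc0001780002feda6) (.hit (nat_lit 118) (nat_lit 97) (nat_lit 0xbc0001780002fe911) b12966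 (.hit (nat_lit 119) (nat_lit 98) (nat_lit 0xbc0001780002feda6) b12967 (.nil))) (.nil))))) (.one (nat_lit 71) (nat_lit 121) (nat_lit 100) (nat_lit 0xbc0001780002fbf33) b12969 (.nil)))))))))))))))))) (.nil)
noncomputable def r82_16 : Rw Blk := .tok (nat_lit 3) (nat_lit 0xbc000178000300000) (.hit (nat_lit 61) (nat_lit 0) (nat_lit 0xbc0001780002feaa6) b12970 (.tok (nat_lit 14) (nat_lit 0xbc0001780002fff4f) (.hit (nat_lit 82) (nat_lit 61) (nat_lit 0xbc0001780002ffc17) b12971 (.one (nat_lit 3) (nat_lit 83) (nat_lit 62) (nat_lit 0xbc0001780002feeb2) b12972 (.tok (nat_lit 6) (nat_lit 0xbc0001780002fff4f) (.hit (nat_lit 86) (nat_lit 65) (nat_lit 0xbc0001780002fff4f) b12975 (.hit (nat_lit 87) (nat_lit 66) (nat_lit 0xbc0001780002fe88d) b12976 (.nil))) (.tok (nat_lit 9) (nat_lit 0xbc0001780002ffdfe) (.hit (nat_lit 84) (nat_lit 63) (nat_lit 0xbc0001780002ffdfe) b12973 (.hit (nat_lit 85) (nat_lit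 64) (nat_lit 0xbc0001780002ff83a) b12974 (.nil))) (.nil))))) (.one (nat_lit 17) (nat_lit 88) (nat_lit 67) (nat_lit 0xbc0001780002fe79e) b12977 (.tok (nat_lit 20) (nat_lit 0xbc0001780002fe1f4) (.hit (nat_lit 89) (nat_lit 68) (nat_lit 0xbc0001780002fe1f4) b12978 (.hit (nat_lit 90) (nat_lit 69) (nat_lit 0xbc0001780002fd9ab) b12979 (.nil))) (.tok (nat_lit 23) (nat_lit 0xbc0001780002fe0ee) (.hit (nat_lit 91) (nat_lit 70) (nat_lit 0xbc0001780002fe0ee) b12980 (.hit (nat_lit 92) (nat_lit 71) (nat_lit 0xbc0001780002fd9ab) b12979 (.nil))) (.one (nat_lit 38) (nat_lit 97) (nat_lit 76) (nat_lit 0xbc0001780002fdad4) b12981 (.tok (nat_lit 41) (nat_lit 0xbc0001780002fe302) (.hit (nat_lit 98) (nat_lit 77) (nat_lit 0xbc0001780002fbfc2) b12982 (.hit (nat_lit 99) (nat_lit 78) (nat_lit 0xbc0001780002fe302) b12983 (.nil))) (.tok (nat_lit 44) (nat_lit 0xbc0001780002fd459) (.hit (nat_lit 100) (nat_lit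 79) (nat_lit 0xbc0001780002fc9a3) b12984 (.hit (nat_lit 101) (nat_lit 80) (nat_lit 0xbc0001780002fd459) b12985 (.nil))) (.tok (nat_lit 47) (nat_lit 0xbc0001780002fdaf4) (.hit (nat_lit 102) (nat_lit 81) (nat_lit 0xbc0001780002fcf25) b12986 (.hit (nat_lit 103) (nat_lit 82) (nat_lit 0xbc0001780002fdaf4) b12987 (.nil))) (.one (nat_lit 50) (nat_lit 104) (nat_lit 83) (nat_lit 0xbc0001780002fd84c) b12988 (.tok (nat_lit 53) (nat_lit 0xbc0001780002fe1e7) (.hit (nat_lit 105) (nat_lit 84) (nat_lit 0xbc0001780002fdbd2) b12989 (.hit (nat_lit 106) (nat_lit 85) (nat_lit 0xbc0001780002fe1e7) b12990 (.nil))) (.tok (nat_lit 56) (nat_lit 0xbc0001780002ff32e) (.hit (nat_lit 107) (nat_lit 86) (nat_lit 0xbc0001780002ff259) b12991 (.one (nat_lit 3) (nat_lit 111) (nat_lit 90) (nat_lit 0xbc0001780002feacd) b12995 (.tok (nat_lit 6) (nat_lit 0xbc0001780002ff32e) (.hit (nat_lit 109) (nat_lit 88) (nat_lit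 0xbc0001780002ff32e) b12993 (.hit (nat_lit 110) (nat_lit 89) (nat_lit 0xbc0001780002fe197) b12994 (.nil))) (.one (nat_lit 9) (nat_lit 108) (nat_lit 87) (nat_lit 0xbc0001780002fea6a) b12992 (.nil))))) (.one (nat_lit 59) (nat_lit 112) (nat_lit 91) (nat_lit 0xbc0001780002fc5ac) b12996 (.one (nat_lit 62) (nat_lit 113) (nat_lit 92) (nat_lit 0xbc0001780002fdc9a) b12997 (.tok (nat_lit 65) (nat_lit 0xbc0001780002fede6) (.hit (nat_lit 114) (nat_lit 93) (nat_lit 0xbc0001780002fede6) b12998 (.hit (nat_lit 115) (nat_lit 94) (nat_lit 0xbc0001780002fde04) b12999 (.nil))) (.tok (nat_lit 68) (nat_lit 0xbc000178000300000) (.hit (nat_lit 116) (nat_lit 95) (nat_lit 0xbc0001780002ffc6b) b13000 (.one (nat_lit 3) (nat_lit 120) (nat_lit 99) (nat_lit 0xbc0001780002fe0d0) b13004 (.one (nat_lit 6) (nat_lit 117) (nat_lit 96) (nat_lit 0xbc0001780002ff7d2) b13001 (.tok (nat_lit 9) (nat_lit 0xbc000178000300000)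 (.hit (nat_lit 118) (nat_lit 97) (nat_lit 0xbc000178000300000) b13002 (.hit (nat_lit 119) (nat_lit 98) (nat_lit 0xbc0001780002fda2d) b13003 (.nil))) (.nil))))) (.one (nat_lit 71) (nat_lit 121) (nat_lit 100) (nat_lit 0xbc0001780002fc599) b13005 (.nil)))))))))))))))))) (.nil)
noncomputable def r82_17 : Rw Blk := .tok (nat_lit 3) (nat_lit 0xbc0001780002fef01) (.hit (nat_lit 61) (nat_lit 0) (nat_lit 0xbc0001780002fdc40) b55964 (.tok (nat_lit 14) (nat_lit 0xbc0001780002fef01) (.hit (nat_lit 82) (nat_lit 61) (nat_lit 0xbc0001780002fef01) b55965 (.one (nat_lit 3) (nat_lit 83) (nat_lit 62) (nat_lit 0xbc0001780002fc95f) b55966 (.tok (nat_lit 6) (nat_lit 0xbc0001780002fed03) (.hit (nat_lit 86) (nat_lit 65) (nat_lit 0xbc0001780002fed03) b55967 (.hit (nat_lit 87) (nat_lit 66) (nat_lit 0xbc0001780002fcc1c) b55968 (.nil))) (.tok (nat_lit 9) (nat_lit 0xbc0001780002fcdea) (.hit (nat_lit 84) (nat_lit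 63) (nat_lit 0xbc0001780002fcd0f) b55969 (.hit (nat_lit 85) (nat_lit 64) (nat_lit 0xbc0001780002fcdea) b55970 (.nil))) (.nil))))) (.one (nat_lit 17) (nat_lit 88) (nat_lit 67) (nat_lit 0xbc0001780002fc501) b55971 (.tok (nat_lit 20) (nat_lit 0xbc0001780002fd14f) (.hit (nat_lit 89) (nat_lit 68) (nat_lit 0xbc0001780002fd14f) b55974 (.hit (nat_lit 90) (nat_lit 69) (nat_lit 0xbc0001780002fc32a) b55975 (.nil))) (.tok (nat_lit 23) (nat_lit 0xbc0001780002fcb2a) (.hit (nat_lit 91) (nat_lit 70) (nat_lit 0xbc0001780002fcb2a) b55972 (.hit (nat_lit 92) (nat_lit 71) (nat_lit 0xbc0001780002fc30a) b55973 (.nil))) (.one (nat_lit 26) (nat_lit 93) (nat_lit 72) (nat_lit 0xbc0001780002fb08f) b55976 (.one (nat_lit 29) (nat_lit 94) (nat_lit 73) (nat_lit 0xbc0001780002fb31a) b55977 (.one (nat_lit 32) (nat_lit 95) (nat_lit 74) (nat_lit 0xbc0001780002fb73b) b55979 (.one (nat_lit 35) (nat_lit 96) (nat_lit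 75) (nat_lit 0xbc0001780002fbc49) b55978 (.one (nat_lit 50) (nat_lit 104) (nat_lit 83) (nat_lit 0xbc0001780002fc96c) b55989 (.tok (nat_lit 53) (nat_lit 0xbc0001780002fcf25) (.hit (nat_lit 105) (nat_lit 84) (nat_lit 0xbc0001780002fcf25) b55990 (.hit (nat_lit 106) (nat_lit 85) (nat_lit 0xbc0001780002fbf29) b55991 (.nil))) (.tok (nat_lit 56) (nat_lit 0xbc0001780002fee18) (.hit (nat_lit 107) (nat_lit 86) (nat_lit 0xbc0001780002fee18) b55992 (.one (nat_lit 3) (nat_lit 111) (nat_lit 90) (nat_lit 0xbc0001780002fd4ab) b55996 (.tok (nat_lit 6) (nat_lit 0xbc0001780002fdca7) (.hit (nat_lit 109) (nat_lit 88) (nat_lit 0xbc0001780002fd812) b55994 (.hit (nat_lit 110) (nat_lit 89) (nat_lit 0xbc0001780002fdca7) b55995 (.nil))) (.one (nat_lit 9) (nat_lit 108) (nat_lit 87) (nat_lit 0xbc0001780002fd7b2) b55993 (.nil))))) (.one (nat_lit 59) (nat_lit 112) (nat_lit 91) (nat_lit 0xbc0001780002fae34)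 b55997 (.one (nat_lit 62) (nat_lit 113) (nat_lit 92) (nat_lit 0xbc0001780002fc2a3) b55980 (.tok (nat_lit 65) (nat_lit 0xbc0001780002fc5ee) (.hit (nat_lit 114) (nat_lit 93) (nat_lit 0xbc0001780002fc5ee) b55981 (.hit (nat_lit 115) (nat_lit 94) (nat_lit 0xbc0001780002fbf16) b55982 (.nil))) (.tok (nat_lit 68) (nat_lit 0xbc0001780002fdfb1) (.hit (nat_lit 116) (nat_lit 95) (nat_lit 0xbc0001780002fdfb1) b55983 (.one (nat_lit 3) (nat_lit 120) (nat_lit 99) (nat_lit 0xbc0001780002fcdbd) b55987 (.one (nat_lit 6) (nat_lit 117) (nat_lit 96) (nat_lit 0xbc0001780002fd0c4) b55984 (.tok (nat_lit 9) (nat_lit 0xbc0001780002fdfa8) (.hit (nat_lit 118) (nat_lit 97) (nat_lit 0xbc0001780002fdfa8) b55985 (.hit (nat_lit 119) (nat_lit 98) (nat_lit 0xbc0001780002fcdf1) b55986 (.nil))) (.nil))))) (.one (nat_lit 71) (nat_lit 121) (nat_lit 100) (nat_lit 0xbc0001780002fae54) b55988 (.nil)))))))))))))))))) (.tok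 (nat_lit 40) (nat_lit 0xbc000178000304749) (.hit (nat_lit 221) (nat_lit 0) (nat_lit 0xbc000178000301793) b55998 (.tok (nat_lit 6) (nat_lit 0xbc00017800030047b) (.hit (nat_lit 222) (nat_lit 7) (nat_lit 0xbc00017800030047b) b56001 (.hit (nat_lit 223) (nat_lit 15) (nat_lit 0xbc0001780002fef4e) b56002 (.nil))) (.tok (nat_lit 9) (nat_lit 0xbc000178000304749) (.hit (nat_lit 224) (nat_lit 20) (nat_lit 0xbc000178000304749) b55999 (.hit (nat_lit 225) (nat_lit 28) (nat_lit 0xbc000178000300021) b56000 (.nil))) (.nil)))) (.tok (nat_lit 43) (nat_lit 0xbc000178000301476) (.hit (nat_lit 232) (nat_lit 0) (nat_lit 0xbc000178000301476) b56003 (.tok (nat_lit 3) (nat_lit 0xbc0001780002ff5a3) (.hit (nat_lit 233) (nat_lit 1) (nat_lit 0xbc0001780002fddb2) b56004 (.one (nat_lit 67) (nat_lit 234) (nat_lit 2) (nat_lit 0xbc0001780002ff5a3) b56005 (.nil))) (.tok (nat_lit 6) (nat_lit 0xbc000178000300288)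 (.hit (nat_lit 235) (nat_lit 7) (nat_lit 0xbc0001780002fe57c) b56006 (.hit (nat_lit 238) (nat_lit 15) (nat_lit 0xbc0001780002fe04d) b56009 (.tok (nat_lit 55) (nat_lit 0xbc000178000300288) (.hit (nat_lit 236) (nat_lit 8) (nat_lit 0xbc0001780002ffbc4) b56007 (.hit (nat_lit 239) (nat_lit 16) (nat_lit 0xbc000178000300288) b56010 (.one (nat_lit 6) (nat_lit 237) (nat_lit 9) (nat_lit 0xbc0001780002fffeb) b56008 (.nil)))) (.nil)))) (.nil)))) (.tok (nat_lit 46) (nat_lit 0xbc000178000303642) (.hit (nat_lit 246) (nat_lit 0) (nat_lit 0xbc000178000300819) b56011 (.tok (nat_lit 3) (nat_lit 0xbc000178000303642) (.hit (nat_lit 247) (nat_lit 1) (nat_lit 0xbc0001780002fff5d) b56012 (.one (nat_lit 55) (nat_lit 248) (nat_lit 3) (nat_lit 0xbc000178000303642) b56013 (.nil))) (.tok (nat_lit 9) (nat_lit 0xbc000178000301f14) (.hit (nat_lit 249) (nat_lit 20) (nat_lit 0xbc0001780002ff23d) b56014 (.hit (nat_lit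 252) (nat_lit 28) (nat_lit 0xbc0001780002ff6e4) b56017 (.tok (nat_lit 67) (nat_lit 0xbc000178000301f14) (.hit (nat_lit 250) (nat_lit 21) (nat_lit 0xbc0001780002fff77) b56015 (.hit (nat_lit 253) (nat_lit 29) (nat_lit 0xbc000178000301f14) b56018 (.one (nat_lit 9) (nat_lit 251) (nat_lit 22) (nat_lit 0xbc000178000301b9f) b56016 (.nil)))) (.nil)))) (.nil)))) (.nil))))
noncomputable def r82_18 : Rw Blk := .tok (nat_lit 3) (nat_lit 0xbc0001780002fea8f) (.hit (nat_lit 61) (nat_lit 0) (nat_lit 0xbc0001780002fd535) b56019 (.tok (nat_lit 14) (nat_lit 0xbc0001780002fe9de) (.hit (nat_lit 82) (nat_lit 61) (nat_lit 0xbc0001780002fe6a6) b56020 (.one (nat_lit 3) (nat_lit 83) (nat_lit 62) (nat_lit 0xbc0001780002fd941) b56021 (.tok (nat_lit 6) (nat_lit 0xbc0001780002fe88d) (.hit (nat_lit 86) (nat_lit 65) (nat_lit 0xbc0001780002fe88d) b56022 (.hit (nat_lit 87) (nat_lit 66) (nat_lit 0xbc0001780002fe2c9)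 b56023 (.nil))) (.tok (nat_lit 9) (nat_lit 0xbc0001780002fe9de) (.hit (nat_lit 84) (nat_lit 63) (nat_lit 0xbc0001780002fe9de) b56024 (.hit (nat_lit 85) (nat_lit 64) (nat_lit 0xbc0001780002fd31c) b56025 (.nil))) (.nil))))) (.one (nat_lit 17) (nat_lit 88) (nat_lit 67) (nat_lit 0xbc0001780002fd22d) b56026 (.tok (nat_lit 20) (nat_lit 0xbc0001780002fcb7d) (.hit (nat_lit 89) (nat_lit 68) (nat_lit 0xbc0001780002fcb7d) b56029 (.hit (nat_lit 90) (nat_lit 69) (nat_lit 0xbc0001780002fc43a) b56028 (.nil))) (.tok (nat_lit 23) (nat_lit 0xbc0001780002fcc83) (.hit (nat_lit 91) (nat_lit 70) (nat_lit 0xbc0001780002fcc83) b56027 (.hit (nat_lit 92) (nat_lit 71) (nat_lit 0xbc0001780002fc43a) b56028 (.nil))) (.one (nat_lit 26) (nat_lit 93) (nat_lit 72) (nat_lit 0xbc0001780002fb8c2) b56030 (.one (nat_lit 29) (nat_lit 94) (nat_lit 73) (nat_lit 0xbc0001780002fb97e) b56031 (.one (nat_lit 32) (nat_lit 95)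 (nat_lit 74) (nat_lit 0xbc0001780002fb4b3) b56033 (.one (nat_lit 35) (nat_lit 96) (nat_lit 75) (nat_lit 0xbc0001780002fbe6b) b56032 (.one (nat_lit 50) (nat_lit 104) (nat_lit 83) (nat_lit 0xbc0001780002fc729) b56043 (.tok (nat_lit 53) (nat_lit 0xbc0001780002fd875) (.hit (nat_lit 105) (nat_lit 84) (nat_lit 0xbc0001780002fd875) b56044 (.hit (nat_lit 106) (nat_lit 85) (nat_lit 0xbc0001780002fc893) b56045 (.nil))) (.tok (nat_lit 56) (nat_lit 0xbc0001780002fea8f) (.hit (nat_lit 107) (nat_lit 86) (nat_lit 0xbc0001780002fe6fa) b56046 (.one (nat_lit 3) (nat_lit 111) (nat_lit 90) (nat_lit 0xbc0001780002fcb5f) b56050 (.tok (nat_lit 6) (nat_lit 0xbc0001780002fea8f) (.hit (nat_lit 109) (nat_lit 88) (nat_lit 0xbc0001780002fea8f) b56048 (.hit (nat_lit 110) (nat_lit 89) (nat_lit 0xbc0001780002fc4bc) b56049 (.nil))) (.one (nat_lit 9) (nat_lit 108) (nat_lit 87) (nat_lit 0xbc0001780002fe261) b56047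 (.nil))))) (.one (nat_lit 59) (nat_lit 112) (nat_lit 91) (nat_lit 0xbc0001780002fb028) b56051 (.one (nat_lit 62) (nat_lit 113) (nat_lit 92) (nat_lit 0xbc0001780002fc2db) b56034 (.tok (nat_lit 65) (nat_lit 0xbc0001780002fcc76) (.hit (nat_lit 114) (nat_lit 93) (nat_lit 0xbc0001780002fc661) b56035 (.hit (nat_lit 115) (nat_lit 94) (nat_lit 0xbc0001780002fcc76) b56036 (.nil))) (.tok (nat_lit 68) (nat_lit 0xbc0001780002fddbd) (.hit (nat_lit 116) (nat_lit 95) (nat_lit 0xbc0001780002fdce8) b56037 (.one (nat_lit 3) (nat_lit 120) (nat_lit 99) (nat_lit 0xbc0001780002fd55c) b56041 (.one (nat_lit 6) (nat_lit 117) (nat_lit 96) (nat_lit 0xbc0001780002fd4f9) b56038 (.tok (nat_lit 9) (nat_lit 0xbc0001780002fddbd) (.hit (nat_lit 118) (nat_lit 97) (nat_lit 0xbc0001780002fddbd) b56039 (.hit (nat_lit 119) (nat_lit 98) (nat_lit 0xbc0001780002fcc26) b56040 (.nil))) (.nil))))) (.one (nat_lit 71) (nat_lit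 121) (nat_lit 100) (nat_lit 0xbc0001780002fb03b) b56042 (.nil)))))))))))))))))) (.tok (nat_lit 40) (nat_lit 0xbc0001780003007e3) (.hit (nat_lit 221) (nat_lit 0) (nat_lit 0xbc0001780003007e3) b56052 (.tok (nat_lit 6) (nat_lit 0xbc0001780002ff616) (.hit (nat_lit 222) (nat_lit 7) (nat_lit 0xbc0001780002ff616) b56055 (.hit (nat_lit 223) (nat_lit 15) (nat_lit 0xbc0001780002feff7) b56056 (.nil))) (.tok (nat_lit 9) (nat_lit 0xbc000178000300713) (.hit (nat_lit 224) (nat_lit 20) (nat_lit 0xbc000178000300713) b56053 (.hit (nat_lit 225) (nat_lit 28) (nat_lit 0xbc0001780002ffac1) b56054 (.nil))) (.nil)))) (.tok (nat_lit 43) (nat_lit 0xbc000178000301bb5) (.hit (nat_lit 232) (nat_lit 0) (nat_lit 0xbc000178000300651) b56057 (.tok (nat_lit 3) (nat_lit 0xbc000178000301383) (.hit (nat_lit 233) (nat_lit 1) (nat_lit 0xbc0001780002ff250) b56058 (.one (nat_lit 67) (nat_lit 234) (nat_lit 2) (nat_lit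 0xbc000178000301383) b56059 (.nil))) (.tok (nat_lit 6) (nat_lit 0xbc000178000301bb5) (.hit (nat_lit 235) (nat_lit 7) (nat_lit 0xbc000178000300e79) b56060 (.hit (nat_lit 238) (nat_lit 15) (nat_lit 0xbc000178000300304) b56063 (.tok (nat_lit 55) (nat_lit 0xbc000178000301bb5) (.hit (nat_lit 236) (nat_lit 8) (nat_lit 0xbc0001780003017ec) b56061 (.hit (nat_lit 239) (nat_lit 16) (nat_lit 0xbc0001780003019f8) b56064 (.one (nat_lit 6) (nat_lit 237) (nat_lit 9) (nat_lit 0xbc000178000301bb5) b56062 (.nil)))) (.nil)))) (.nil)))) (.tok (nat_lit 46) (nat_lit 0xbc0001780003027ad) (.hit (nat_lit 246) (nat_lit 0) (nat_lit 0xbc00017800030028b) b56065 (.tok (nat_lit 3) (nat_lit 0xbc0001780003027ad) (.hit (nat_lit 247) (nat_lit 1) (nat_lit 0xbc0001780002ff407) b56066 (.one (nat_lit 55) (nat_lit 248) (nat_lit 3) (nat_lit 0xbc0001780003027ad) b56067 (.nil))) (.tok (nat_lit 9) (nat_lit 0xbc000178000300e20)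 (.hit (nat_lit 249) (nat_lit 20) (nat_lit 0xbc0001780002ff643) b56068 (.hit (nat_lit 252) (nat_lit 28) (nat_lit 0xbc0001780002fed18) b56071 (.tok (nat_lit 67) (nat_lit 0xbc000178000300e20) (.hit (nat_lit 250) (nat_lit 21) (nat_lit 0xbc000178000300625) b56069 (.hit (nat_lit 253) (nat_lit 29) (nat_lit 0xbc0001780003004cf) b56072 (.one (nat_lit 9) (nat_lit 251) (nat_lit 22) (nat_lit 0xbc000178000300e20) b56070 (.nil)))) (.nil)))) (.nil)))) (.nil))))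
noncomputable def r83_0 : Rw Blk := .tok (nat_lit 6) (nat_lit 0x300000600000c00001800002fe64b5fe312c0000180000300000) (.hit (nat_lit 81) (nat_lit 0) (nat_lit 0x2fe4b85fd5d4bf98697f50d2fe1c65fd488bf7fd97fb94afe051) b56077 (.tok (nat_lit 3) (nat_lit 0x2fe8a95fdbe0bfbe497ee77afcb645fad44bfbaed7f4312fe778) (.hit (nat_lit 82) (nat_lit 1) (nat_lit 0x2fcbb35f88b0bf69c97e2352fb9075f888abf27897e8bcafcbb3) b56078 (.one (nat_lit 14) (nat_lit 84) (nat_lit 4) (nat_lit 0x2fe8a95fdbe0bfbe497ee77afc38b5fa1a8bfbaed7f4312fe778) b56079 (.one (nat_lit 56) (nat_lit 86) (nat_lit 6) (nat_lit 0x2fde885fbe9cbf85197eb6aafcb645fad44bf85ad7f1eb2fe175) b56080 (.nil)))) (.tok (nat_lit 40) (nat_lit 0x2fe7215fd042bfb9597f18dafcdc85fb20cbfa41d7f40f2fe807) (.hit (nat_lit 100) (nat_lit 33) (nat_lit 0x2fe7215fd042bfb9597ee8b2fcdc85fb20cbfa41d7f40f2fe807) b56081 (.hit (nat_lit 101) (nat_lit 34) (nat_lit 0x2fe2775fb726bf90d17f18dafc78e5fa598bf9abd7f166afe321)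 b56082 (.nil))) (.tok (nat_lit 43) (nat_lit 0x2fecc7600000bfc0317f5e52fe0675fd74abffaad7fe502ff028) (.hit (nat_lit 102) (nat_lit 35) (nat_lit 0x2fecc7600000bfc0317f5e52fe0675fd74abffaad7fe502ff028) b56083 (.hit (nat_lit 103) (nat_lit 36) (nat_lit 0x2fe7225fd476bfbc317f471afd6d25fc420bf98fd7f7a22fe8e9) b56084 (.nil))) (.tok (nat_lit 46) (nat_lit 0x3000005ff54cc00001800002fe64b5fe312c0000180000300000) (.hit (nat_lit 104) (nat_lit 37) (nat_lit 0x2fe23a5fbc94bfed7d7f8d72fe64b5fe312bf92c97ff5eafe87d) b56085 (.hit (nat_lit 105) (nat_lit 38) (nat_lit 0x3000005ff54cc00001800002fdc5e5fd066c0000180000300000) b56086 (.nil))) (.nil)))))) (.tok (nat_lit 9) (nat_lit 0x300000600000c000017f8d7300000600000bf92c97fffeb00000) (.hit (nat_lit 157) (nat_lit 0) (nat_lit 0x2fe4b85fd5d4bf98697f50d2fdf075fd432bf87157fb94afe040) b56087 (.tok (nat_lit 3) (nat_lit 0x2fe8a95fdbe0bfbe497eb63afeebc5fb9eabf272d7f42dafe778)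 (.hit (nat_lit 158) (nat_lit 1) (nat_lit 0x2fcbb35f88b0bf69c97e2352fc9e35f888abeddb97e8bcafcbb3) b56088 (.one (nat_lit 14) (nat_lit 160) (nat_lit 4) (nat_lit 0x2fe8a95fdbe0bfbe497e86a2feebc5fb9eabf07c97f42dafe778) b56089 (.one (nat_lit 68) (nat_lit 161) (nat_lit 5) (nat_lit 0x2fde885fbe9cbf85197eb63afe16c5fadc4bf272d7f1eb2fe175) b56090 (.nil)))) (.tok (nat_lit 40) (nat_lit 0x2fe7215fd042bfb9597ec95afe9085fc636bf30bd7f40f2fe807) (.hit (nat_lit 176) (nat_lit 33) (nat_lit 0x2fe7215fd042bfb9597ec95afe9085fba38bf30bd7f40f2fe807) b56091 (.hit (nat_lit 177) (nat_lit 34) (nat_lit 0x2fe2775fb726bf90d17e978afe6b05fc636bf17d57f1612fe321) b56092 (.nil))) (.tok (nat_lit 43) (nat_lit 0x3000005ff54cc000017f8d7300000600000bf92c97fffeb00000) (.hit (nat_lit 178) (nat_lit 35) (nat_lit 0x2fe23a5fbc94bfed7d7f8d72fe64b5fe312bf92c97ff5eafe87d) b56085 (.hit (nat_lit 179) (nat_lit 36) (nat_lit 0x3000005ff54cc000017f41a300000600000bf6b157fffeb00000)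 b56093 (.nil))) (.tok (nat_lit 46) (nat_lit 0x2fecc7600000bfc0317f5e52ff1155fd74abf7b397fe372fea15) (.hit (nat_lit 180) (nat_lit 37) (nat_lit 0x2fecc7600000bfc0317f5e52ff1155fd74abf7b397fe372fea15) b56094 (.hit (nat_lit 181) (nat_lit 38) (nat_lit 0x2fe7225fd476bfbc317f11aafe62e5fd1c6bf54e57f7a22fe8c3) b56095 (.nil))) (.nil)))))) (.nil))
noncomputable def r83_1 : Rw Blk := .tok (nat_lit 3) (nat_lit 0xbc0001780002fe291) (.hit (nat_lit 61) (nat_lit 0) (nat_lit 0xbc0001780002fcfd0) b56096 (.tok (nat_lit 14) (nat_lit 0xbc0001780002fe291) (.hit (nat_lit 82) (nat_lit 61) (nat_lit 0xbc0001780002fe291) b56097 (.one (nat_lit 3) (nat_lit 83) (nat_lit 62) (nat_lit 0xbc0001780002fbcef) b56098 (.tok (nat_lit 6) (nat_lit 0xbc0001780002fc17a) (.hit (nat_lit 86) (nat_lit 65) (nat_lit 0xbc0001780002fc09f) b56101 (.hit (nat_lit 87) (nat_lit 66) (nat_lit 0xbc0001780002fc17a) b56102 (.nil))) (.tok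 (nat_lit 9) (nat_lit 0xbc0001780002fe093) (.hit (nat_lit 84) (nat_lit 63) (nat_lit 0xbc0001780002fe093) b56099 (.hit (nat_lit 85) (nat_lit 64) (nat_lit 0xbc0001780002fbfac) b56100 (.nil))) (.nil))))) (.one (nat_lit 17) (nat_lit 88) (nat_lit 67) (nat_lit 0xbc0001780002fb891) b56103 (.tok (nat_lit 20) (nat_lit 0xbc0001780002fbeba) (.hit (nat_lit 89) (nat_lit 68) (nat_lit 0xbc0001780002fbeba) b56104 (.hit (nat_lit 90) (nat_lit 69) (nat_lit 0xbc0001780002fb69a) b56105 (.nil))) (.tok (nat_lit 23) (nat_lit 0xbc0001780002fc4df) (.hit (nat_lit 91) (nat_lit 70) (nat_lit 0xbc0001780002fc4df) b56106 (.hit (nat_lit 92) (nat_lit 71) (nat_lit 0xbc0001780002fb6ba) b56107 (.nil))) (.one (nat_lit 26) (nat_lit 93) (nat_lit 72) (nat_lit 0xbc0001780002fa41f) b56108 (.one (nat_lit 29) (nat_lit 94) (nat_lit 73) (nat_lit 0xbc0001780002fa6aa) b56109 (.one (nat_lit 32) (nat_lit 95) (nat_lit 74) (nat_lit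 0xbc0001780002fafd9) b56110 (.one (nat_lit 35) (nat_lit 96) (nat_lit 75) (nat_lit 0xbc0001780002faacb) b56111 (.one (nat_lit 38) (nat_lit 97) (nat_lit 76) (nat_lit 0xbc0001780002fb5b1) b56112 (.tok (nat_lit 41) (nat_lit 0xbc0001780002fb3ec) (.hit (nat_lit 98) (nat_lit 77) (nat_lit 0xbc0001780002f9d70) b56113 (.hit (nat_lit 99) (nat_lit 78) (nat_lit 0xbc0001780002fb3ec) b56114 (.nil))) (.tok (nat_lit 44) (nat_lit 0xbc0001780002fae19) (.hit (nat_lit 100) (nat_lit 79) (nat_lit 0xbc0001780002fa184) b56115 (.hit (nat_lit 101) (nat_lit 80) (nat_lit 0xbc0001780002fae19) b56116 (.nil))) (.tok (nat_lit 47) (nat_lit 0xbc0001780002faf06) (.hit (nat_lit 102) (nat_lit 81) (nat_lit 0xbc0001780002fae0c) b56117 (.hit (nat_lit 103) (nat_lit 82) (nat_lit 0xbc0001780002faf06) b56118 (.nil))) (.one (nat_lit 50) (nat_lit 104) (nat_lit 83) (nat_lit 0xbc0001780002fb633) b56119 (.tok (nat_lit 53) (nat_lit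 0xbc0001780002fb97e) (.hit (nat_lit 105) (nat_lit 84) (nat_lit 0xbc0001780002fb97e) b56120 (.hit (nat_lit 106) (nat_lit 85) (nat_lit 0xbc0001780002fb2a6) b56121 (.nil))) (.tok (nat_lit 56) (nat_lit 0xbc0001780002fd341) (.hit (nat_lit 107) (nat_lit 86) (nat_lit 0xbc0001780002fd341) b56122 (.one (nat_lit 3) (nat_lit 111) (nat_lit 90) (nat_lit 0xbc0001780002fc14d) b56126 (.tok (nat_lit 6) (nat_lit 0xbc0001780002fd338) (.hit (nat_lit 109) (nat_lit 88) (nat_lit 0xbc0001780002fd338) b56124 (.hit (nat_lit 110) (nat_lit 89) (nat_lit 0xbc0001780002fc181) b56125 (.nil))) (.one (nat_lit 9) (nat_lit 108) (nat_lit 87) (nat_lit 0xbc0001780002fc454) b56123 (.nil))))) (.one (nat_lit 59) (nat_lit 112) (nat_lit 91) (nat_lit 0xbc0001780002fa1e4) b56127 (.nil)))))))))))))))))) (.tok (nat_lit 40) (nat_lit 0xbc000178000303ad9) (.hit (nat_lit 245) (nat_lit 0) (nat_lit 0xbc000178000300b23) b56128 (.tok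 (nat_lit 6) (nat_lit 0xbc000178000303ad9) (.hit (nat_lit 246) (nat_lit 7) (nat_lit 0xbc000178000303ad9) b56129 (.hit (nat_lit 247) (nat_lit 15) (nat_lit 0xbc0001780002ff3b1) b56130 (.nil))) (.tok (nat_lit 9) (nat_lit 0xbc0001780002ff80b) (.hit (nat_lit 248) (nat_lit 20) (nat_lit 0xbc0001780002ff80b) b56131 (.hit (nat_lit 249) (nat_lit 28) (nat_lit 0xbc0001780002fe2de) b56132 (.nil))) (.nil)))) (.tok (nat_lit 43) (nat_lit 0xbc0001780003029d2) (.hit (nat_lit 270) (nat_lit 0) (nat_lit 0xbc0001780002ffba9) b56138 (.tok (nat_lit 3) (nat_lit 0xbc0001780003029d2) (.hit (nat_lit 271) (nat_lit 1) (nat_lit 0xbc0001780002ff2ed) b56139 (.one (nat_lit 67) (nat_lit 272) (nat_lit 2) (nat_lit 0xbc0001780003029d2) b56140 (.nil))) (.tok (nat_lit 6) (nat_lit 0xbc0001780003012a4) (.hit (nat_lit 273) (nat_lit 7) (nat_lit 0xbc0001780002fe5cd) b56141 (.hit (nat_lit 276) (nat_lit 15) (nat_lit 0xbc0001780002fea74)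 b56144 (.tok (nat_lit 55) (nat_lit 0xbc0001780003012a4) (.hit (nat_lit 274) (nat_lit 8) (nat_lit 0xbc0001780002ff307) b56142 (.hit (nat_lit 277) (nat_lit 16) (nat_lit 0xbc0001780003012a4) b56145 (.one (nat_lit 6) (nat_lit 275) (nat_lit 9) (nat_lit 0xbc000178000300f2f) b56143 (.nil)))) (.nil)))) (.nil)))) (.tok (nat_lit 46) (nat_lit 0xbc000178000300806) (.hit (nat_lit 256) (nat_lit 0) (nat_lit 0xbc000178000300806) b56133 (.tok (nat_lit 3) (nat_lit 0xbc0001780002fe933) (.hit (nat_lit 257) (nat_lit 1) (nat_lit 0xbc0001780002fd142) b56134 (.one (nat_lit 55) (nat_lit 258) (nat_lit 3) (nat_lit 0xbc0001780002fe933) b56135 (.nil))) (.tok (nat_lit 9) (nat_lit 0xbc0001780002fd90c) (.hit (nat_lit 259) (nat_lit 20) (nat_lit 0xbc0001780002fd90c) b56136 (.hit (nat_lit 262) (nat_lit 28) (nat_lit 0xbc0001780002fd3dd) b56137 (.nil))) (.nil)))) (.nil))))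
noncomputable def r83_2 : Rw Blk := .tok (nat_lit 3) (nat_lit 0xbc0001780002fd348) (.hit (nat_lit 61) (nat_lit 0) (nat_lit 0xbc0001780002fbe9f) b56146 (.tok (nat_lit 14) (nat_lit 0xbc0001780002fd348) (.hit (nat_lit 82) (nat_lit 61) (nat_lit 0xbc0001780002fd010) b56147 (.one (nat_lit 3) (nat_lit 83) (nat_lit 62) (nat_lit 0xbc0001780002fc2ab) b56148 (.tok (nat_lit 6) (nat_lit 0xbc0001780002fd348) (.hit (nat_lit 86) (nat_lit 65) (nat_lit 0xbc0001780002fd348) b56151 (.hit (nat_lit 87) (nat_lit 66) (nat_lit 0xbc0001780002fbc86) b56152 (.nil))) (.tok (nat_lit 9) (nat_lit 0xbc0001780002fd1f7) (.hit (nat_lit 84) (nat_lit 63) (nat_lit 0xbc0001780002fd1f7) b56149 (.hit (nat_lit 85) (nat_lit 64) (nat_lit 0xbc0001780002fcc33) b56150 (.nil))) (.nil))))) (.one (nat_lit 17) (nat_lit 88) (nat_lit 67) (nat_lit 0xbc0001780002fbb97) b56153 (.tok (nat_lit 20) (nat_lit 0xbc0001780002fb5ed) (.hit (nat_lit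 89) (nat_lit 68) (nat_lit 0xbc0001780002fb5ed) b56154 (.hit (nat_lit 90) (nat_lit 69) (nat_lit 0xbc0001780002fada4) b56155 (.nil))) (.tok (nat_lit 23) (nat_lit 0xbc0001780002fb4e7) (.hit (nat_lit 91) (nat_lit 70) (nat_lit 0xbc0001780002fb4e7) b56156 (.hit (nat_lit 92) (nat_lit 71) (nat_lit 0xbc0001780002fada4) b56155 (.nil))) (.one (nat_lit 26) (nat_lit 93) (nat_lit 72) (nat_lit 0xbc0001780002fa22c) b56157 (.one (nat_lit 29) (nat_lit 94) (nat_lit 73) (nat_lit 0xbc0001780002fa2e8) b56158 (.one (nat_lit 32) (nat_lit 95) (nat_lit 74) (nat_lit 0xbc0001780002fa7d5) b56159 (.one (nat_lit 35) (nat_lit 96) (nat_lit 75) (nat_lit 0xbc0001780002f9e1d) b56160 (.one (nat_lit 38) (nat_lit 97) (nat_lit 76) (nat_lit 0xbc0001780002faecd) b56161 (.tok (nat_lit 41) (nat_lit 0xbc0001780002fb6fb) (.hit (nat_lit 98) (nat_lit 77) (nat_lit 0xbc0001780002f93bb) b56162 (.hit (nat_lit 99) (nat_lit 78) (nat_lit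 0xbc0001780002fb6fb) b56163 (.nil))) (.tok (nat_lit 44) (nat_lit 0xbc0001780002fa852) (.hit (nat_lit 100) (nat_lit 79) (nat_lit 0xbc0001780002f9d9c) b56164 (.hit (nat_lit 101) (nat_lit 80) (nat_lit 0xbc0001780002fa852) b56165 (.nil))) (.tok (nat_lit 47) (nat_lit 0xbc0001780002faeed) (.hit (nat_lit 102) (nat_lit 81) (nat_lit 0xbc0001780002fa31e) b56166 (.hit (nat_lit 103) (nat_lit 82) (nat_lit 0xbc0001780002faeed) b56167 (.nil))) (.one (nat_lit 50) (nat_lit 104) (nat_lit 83) (nat_lit 0xbc0001780002fac45) b56168 (.tok (nat_lit 53) (nat_lit 0xbc0001780002fb5e0) (.hit (nat_lit 105) (nat_lit 84) (nat_lit 0xbc0001780002fafcb) b56169 (.hit (nat_lit 106) (nat_lit 85) (nat_lit 0xbc0001780002fb5e0) b56170 (.nil))) (.tok (nat_lit 56) (nat_lit 0xbc0001780002fc727) (.hit (nat_lit 107) (nat_lit 86) (nat_lit 0xbc0001780002fc652) b56171 (.one (nat_lit 3) (nat_lit 111) (nat_lit 90) (nat_lit 0xbc0001780002fbec6)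 b56175 (.tok (nat_lit 6) (nat_lit 0xbc0001780002fc727) (.hit (nat_lit 109) (nat_lit 88) (nat_lit 0xbc0001780002fc727) b56173 (.hit (nat_lit 110) (nat_lit 89) (nat_lit 0xbc0001780002fb590) b56174 (.nil))) (.one (nat_lit 9) (nat_lit 108) (nat_lit 87) (nat_lit 0xbc0001780002fbe63) b56172 (.nil))))) (.one (nat_lit 59) (nat_lit 112) (nat_lit 91) (nat_lit 0xbc0001780002f99a5) b56176 (.nil)))))))))))))))))) (.tok (nat_lit 40) (nat_lit 0xbc0001780002ff14d) (.hit (nat_lit 245) (nat_lit 0) (nat_lit 0xbc0001780002ff14d) b56177 (.tok (nat_lit 6) (nat_lit 0xbc0001780002ff07d) (.hit (nat_lit 246) (nat_lit 7) (nat_lit 0xbc0001780002ff07d) b56178 (.hit (nat_lit 247) (nat_lit 15) (nat_lit 0xbc0001780002fe42b) b56179 (.nil))) (.tok (nat_lit 9) (nat_lit 0xbc0001780002fdf80) (.hit (nat_lit 248) (nat_lit 20) (nat_lit 0xbc0001780002fdf80) b56180 (.hit (nat_lit 249) (nat_lit 28) (nat_lit 0xbc0001780002fd961)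 b56181 (.nil))) (.nil)))) (.tok (nat_lit 43) (nat_lit 0xbc000178000301117) (.hit (nat_lit 270) (nat_lit 0) (nat_lit 0xbc0001780002febf5) b56187 (.tok (nat_lit 3) (nat_lit 0xbc000178000301117) (.hit (nat_lit 271) (nat_lit 1) (nat_lit 0xbc0001780002fdd71) b56188 (.one (nat_lit 67) (nat_lit 272) (nat_lit 2) (nat_lit 0xbc000178000301117) b56189 (.nil))) (.tok (nat_lit 6) (nat_lit 0xbc0001780002ff78a) (.hit (nat_lit 273) (nat_lit 7) (nat_lit 0xbc0001780002fdfad) b56190 (.hit (nat_lit 276) (nat_lit 15) (nat_lit 0xbc0001780002fd682) b56193 (.tok (nat_lit 55) (nat_lit 0xbc0001780002ff78a) (.hit (nat_lit 274) (nat_lit 8) (nat_lit 0xbc0001780002fef8f) b56191 (.hit (nat_lit 277) (nat_lit 16) (nat_lit 0xbc0001780002fee39) b56194 (.one (nat_lit 6) (nat_lit 275) (nat_lit 9) (nat_lit 0xbc0001780002ff78a) b56192 (.nil)))) (.nil)))) (.nil)))) (.tok (nat_lit 46) (nat_lit 0xbc0001780002ffced) (.hit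 (nat_lit 256) (nat_lit 0) (nat_lit 0xbc0001780002fefbb) b56182 (.tok (nat_lit 3) (nat_lit 0xbc0001780002ffced) (.hit (nat_lit 257) (nat_lit 1) (nat_lit 0xbc0001780002fdbba) b56183 (.one (nat_lit 55) (nat_lit 258) (nat_lit 3) (nat_lit 0xbc0001780002ffced) b56184 (.nil))) (.tok (nat_lit 9) (nat_lit 0xbc0001780002ff7e3) (.hit (nat_lit 259) (nat_lit 20) (nat_lit 0xbc0001780002ff7e3) b56185 (.hit (nat_lit 262) (nat_lit 28) (nat_lit 0xbc0001780002fec6e) b56186 (.nil))) (.nil)))) (.nil))))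
noncomputable def r83_3 : Rw Blk := .tok (nat_lit 3) (nat_lit 0xbc0001780002fe5a6) (.hit (nat_lit 61) (nat_lit 0) (nat_lit 0xbc0001780002fd2e5) b56195 (.tok (nat_lit 14) (nat_lit 0xbc0001780002fe5a6) (.hit (nat_lit 82) (nat_lit 61) (nat_lit 0xbc0001780002fe5a6) b56196 (.one (nat_lit 3) (nat_lit 83) (nat_lit 62) (nat_lit 0xbc0001780002fc004) b56197 (.tok (nat_lit 6) (nat_lit 0xbc0001780002fe3a8) (.hit (nat_lit 86) (nat_lit 65) (nat_lit 0xbc0001780002fe3a8) b56200 (.hit (nat_lit 87) (nat_lit 66) (nat_lit 0xbc0001780002fc2c1) b56201 (.nil))) (.tok (nat_lit 9) (nat_lit 0xbc0001780002fc48f) (.hit (nat_lit 84) (nat_lit 63) (nat_lit 0xbc0001780002fc3b4) b56198 (.hit (nat_lit 85) (nat_lit 64) (nat_lit 0xbc0001780002fc48f) b56199 (.nil))) (.nil))))) (.one (nat_lit 17) (nat_lit 88) (nat_lit 67) (nat_lit 0xbc0001780002fbba6) b56202 (.tok (nat_lit 20) (nat_lit 0xbc0001780002fc7f4) (.hit (nat_lit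 89) (nat_lit 68) (nat_lit 0xbc0001780002fc7f4) b56203 (.hit (nat_lit 90) (nat_lit 69) (nat_lit 0xbc0001780002fb9cf) b56204 (.nil))) (.tok (nat_lit 23) (nat_lit 0xbc0001780002fc1cf) (.hit (nat_lit 91) (nat_lit 70) (nat_lit 0xbc0001780002fc1cf) b56205 (.hit (nat_lit 92) (nat_lit 71) (nat_lit 0xbc0001780002fb9af) b56206 (.nil))) (.one (nat_lit 26) (nat_lit 93) (nat_lit 72) (nat_lit 0xbc0001780002fa734) b56207 (.one (nat_lit 29) (nat_lit 94) (nat_lit 73) (nat_lit 0xbc0001780002fa9bf) b56208 (.one (nat_lit 32) (nat_lit 95) (nat_lit 74) (nat_lit 0xbc0001780002fade0) b56209 (.one (nat_lit 35) (nat_lit 96) (nat_lit 75) (nat_lit 0xbc0001780002fb2ee) b56210 (.one (nat_lit 38) (nat_lit 97) (nat_lit 76) (nat_lit 0xbc0001780002fb8c6) b56211 (.tok (nat_lit 41) (nat_lit 0xbc0001780002fb701) (.hit (nat_lit 98) (nat_lit 77) (nat_lit 0xbc0001780002fa085) b56212 (.hit (nat_lit 99) (nat_lit 78) (nat_lit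 0xbc0001780002fb701) b56213 (.nil))) (.tok (nat_lit 44) (nat_lit 0xbc0001780002fb21b) (.hit (nat_lit 100) (nat_lit 79) (nat_lit 0xbc0001780002fb121) b56214 (.hit (nat_lit 101) (nat_lit 80) (nat_lit 0xbc0001780002fb21b) b56215 (.nil))) (.tok (nat_lit 47) (nat_lit 0xbc0001780002fb12e) (.hit (nat_lit 102) (nat_lit 81) (nat_lit 0xbc0001780002fa499) b56216 (.hit (nat_lit 103) (nat_lit 82) (nat_lit 0xbc0001780002fb12e) b56217 (.nil))) (.one (nat_lit 62) (nat_lit 113) (nat_lit 92) (nat_lit 0xbc0001780002fb948) b56218 (.tok (nat_lit 65) (nat_lit 0xbc0001780002fbc93) (.hit (nat_lit 114) (nat_lit 93) (nat_lit 0xbc0001780002fbc93) b56219 (.hit (nat_lit 115) (nat_lit 94) (nat_lit 0xbc0001780002fb5bb) b56220 (.nil))) (.tok (nat_lit 68) (nat_lit 0xbc0001780002fd656) (.hit (nat_lit 116) (nat_lit 95) (nat_lit 0xbc0001780002fd656) b56221 (.one (nat_lit 3) (nat_lit 120) (nat_lit 99) (nat_lit 0xbc0001780002fc462)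 b56225 (.one (nat_lit 6) (nat_lit 117) (nat_lit 96) (nat_lit 0xbc0001780002fc769) b56222 (.tok (nat_lit 9) (nat_lit 0xbc0001780002fd64d) (.hit (nat_lit 118) (nat_lit 97) (nat_lit 0xbc0001780002fd64d) b56223 (.hit (nat_lit 119) (nat_lit 98) (nat_lit 0xbc0001780002fc496) b56224 (.nil))) (.nil))))) (.one (nat_lit 71) (nat_lit 121) (nat_lit 100) (nat_lit 0xbc0001780002fa4f9) b56226 (.nil)))))))))))))))))) (.tok (nat_lit 40) (nat_lit 0xbc000178000303dee) (.hit (nat_lit 221) (nat_lit 0) (nat_lit 0xbc000178000300e38) b56227 (.tok (nat_lit 6) (nat_lit 0xbc0001780002ffb20) (.hit (nat_lit 222) (nat_lit 7) (nat_lit 0xbc0001780002ffb20) b56228 (.hit (nat_lit 223) (nat_lit 15) (nat_lit 0xbc0001780002fe5f3) b56229 (.nil))) (.tok (nat_lit 9) (nat_lit 0xbc000178000303dee) (.hit (nat_lit 224) (nat_lit 20) (nat_lit 0xbc000178000303dee) b56230 (.hit (nat_lit 225) (nat_lit 28) (nat_lit 0xbc0001780002ff6c6)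 b56231 (.nil))) (.nil)))) (.tok (nat_lit 43) (nat_lit 0xbc000178000300b1b) (.hit (nat_lit 232) (nat_lit 0) (nat_lit 0xbc000178000300b1b) b56232 (.tok (nat_lit 3) (nat_lit 0xbc0001780002fec48) (.hit (nat_lit 233) (nat_lit 1) (nat_lit 0xbc0001780002fd457) b56233 (.one (nat_lit 67) (nat_lit 234) (nat_lit 2) (nat_lit 0xbc0001780002fec48) b56234 (.nil))) (.tok (nat_lit 6) (nat_lit 0xbc0001780002fdc21) (.hit (nat_lit 235) (nat_lit 7) (nat_lit 0xbc0001780002fdc21) b56235 (.hit (nat_lit 238) (nat_lit 15) (nat_lit 0xbc0001780002fd6f2) b56236 (.nil))) (.nil)))) (.tok (nat_lit 46) (nat_lit 0xbc000178000302ce7) (.hit (nat_lit 246) (nat_lit 0) (nat_lit 0xbc0001780002ffebe) b56237 (.tok (nat_lit 3) (nat_lit 0xbc000178000302ce7) (.hit (nat_lit 247) (nat_lit 1) (nat_lit 0xbc0001780002ff602) b56238 (.one (nat_lit 55) (nat_lit 248) (nat_lit 3) (nat_lit 0xbc000178000302ce7) b56239 (.nil))) (.tok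 (nat_lit 9) (nat_lit 0xbc0001780003015b9) (.hit (nat_lit 249) (nat_lit 20) (nat_lit 0xbc0001780002fe8e2) b56240 (.hit (nat_lit 252) (nat_lit 28) (nat_lit 0xbc0001780002fed89) b56243 (.tok (nat_lit 67) (nat_lit 0xbc0001780003015b9) (.hit (nat_lit 250) (nat_lit 21) (nat_lit 0xbc0001780002ff61c) b56241 (.hit (nat_lit 253) (nat_lit 29) (nat_lit 0xbc0001780003015b9) b56244 (.one (nat_lit 9) (nat_lit 251) (nat_lit 22) (nat_lit 0xbc000178000301244) b56242 (.nil)))) (.nil)))) (.nil)))) (.nil))))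
noncomputable def r83_4 : Rw Blk := .tok (nat_lit 3) (nat_lit 0xbc0001780002fd8c9) (.hit (nat_lit 61) (nat_lit 0) (nat_lit 0xbc0001780002fc420) b56245 (.tok (nat_lit 14) (nat_lit 0xbc0001780002fd8c9) (.hit (nat_lit 82) (nat_lit 61) (nat_lit 0xbc0001780002fd591) b56246 (.one (nat_lit 3) (nat_lit 83) (nat_lit 62) (nat_lit 0xbc0001780002fc82c) b56247 (.tok (nat_lit 6) (nat_lit 0xbc0001780002fd778) (.hit (nat_lit 86) (nat_lit 65) (nat_lit 0xbc0001780002fd778) b56250 (.hit (nat_lit 87) (nat_lit 66) (nat_lit 0xbc0001780002fd1b4) b56251 (.nil))) (.tok (nat_lit 9) (nat_lit 0xbc0001780002fd8c9) (.hit (nat_lit 84) (nat_lit 63) (nat_lit 0xbc0001780002fd8c9) b56248 (.hit (nat_lit 85) (nat_lit 64) (nat_lit 0xbc0001780002fc207) b56249 (.nil))) (.nil))))) (.one (nat_lit 17) (nat_lit 88) (nat_lit 67) (nat_lit 0xbc0001780002fc118) b56252 (.tok (nat_lit 20) (nat_lit 0xbc0001780002fba68) (.hit (nat_lit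 89) (nat_lit 68) (nat_lit 0xbc0001780002fba68) b56253 (.hit (nat_lit 90) (nat_lit 69) (nat_lit 0xbc0001780002fb325) b56254 (.nil))) (.tok (nat_lit 23) (nat_lit 0xbc0001780002fbb6e) (.hit (nat_lit 91) (nat_lit 70) (nat_lit 0xbc0001780002fbb6e) b56255 (.hit (nat_lit 92) (nat_lit 71) (nat_lit 0xbc0001780002fb325) b56254 (.nil))) (.one (nat_lit 26) (nat_lit 93) (nat_lit 72) (nat_lit 0xbc0001780002fa7ad) b56256 (.one (nat_lit 29) (nat_lit 94) (nat_lit 73) (nat_lit 0xbc0001780002fa869) b56257 (.one (nat_lit 32) (nat_lit 95) (nat_lit 74) (nat_lit 0xbc0001780002fa39e) b56258 (.one (nat_lit 35) (nat_lit 96) (nat_lit 75) (nat_lit 0xbc0001780002fad56) b56259 (.one (nat_lit 38) (nat_lit 97) (nat_lit 76) (nat_lit 0xbc0001780002fb44e) b56260 (.tok (nat_lit 41) (nat_lit 0xbc0001780002fbc7c) (.hit (nat_lit 98) (nat_lit 77) (nat_lit 0xbc0001780002f993c) b56261 (.hit (nat_lit 99) (nat_lit 78) (nat_lit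 0xbc0001780002fbc7c) b56262 (.nil))) (.tok (nat_lit 44) (nat_lit 0xbc0001780002fb46e) (.hit (nat_lit 100) (nat_lit 79) (nat_lit 0xbc0001780002fa89f) b56263 (.hit (nat_lit 101) (nat_lit 80) (nat_lit 0xbc0001780002fb46e) b56264 (.nil))) (.tok (nat_lit 47) (nat_lit 0xbc0001780002fadd3) (.hit (nat_lit 102) (nat_lit 81) (nat_lit 0xbc0001780002fa31d) b56265 (.hit (nat_lit 103) (nat_lit 82) (nat_lit 0xbc0001780002fadd3) b56266 (.nil))) (.one (nat_lit 62) (nat_lit 113) (nat_lit 92) (nat_lit 0xbc0001780002fb1c6) b56267 (.tok (nat_lit 65) (nat_lit 0xbc0001780002fbb61) (.hit (nat_lit 114) (nat_lit 93) (nat_lit 0xbc0001780002fb54c) b56268 (.hit (nat_lit 115) (nat_lit 94) (nat_lit 0xbc0001780002fbb61) b56269 (.nil))) (.tok (nat_lit 68) (nat_lit 0xbc0001780002fcca8) (.hit (nat_lit 116) (nat_lit 95) (nat_lit 0xbc0001780002fcbd3) b56270 (.one (nat_lit 3) (nat_lit 120) (nat_lit 99) (nat_lit 0xbc0001780002fc447)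 b56274 (.one (nat_lit 6) (nat_lit 117) (nat_lit 96) (nat_lit 0xbc0001780002fc3e4) b56271 (.tok (nat_lit 9) (nat_lit 0xbc0001780002fcca8) (.hit (nat_lit 118) (nat_lit 97) (nat_lit 0xbc0001780002fcca8) b56272 (.hit (nat_lit 119) (nat_lit 98) (nat_lit 0xbc0001780002fbb11) b56273 (.nil))) (.nil))))) (.one (nat_lit 71) (nat_lit 121) (nat_lit 100) (nat_lit 0xbc0001780002f9f26) b56275 (.nil)))))))))))))))))) (.tok (nat_lit 40) (nat_lit 0xbc0001780002ff6ce) (.hit (nat_lit 221) (nat_lit 0) (nat_lit 0xbc0001780002ff6ce) b56276 (.tok (nat_lit 6) (nat_lit 0xbc0001780002fe501) (.hit (nat_lit 222) (nat_lit 7) (nat_lit 0xbc0001780002fe501) b56277 (.hit (nat_lit 223) (nat_lit 15) (nat_lit 0xbc0001780002fdee2) b56278 (.nil))) (.tok (nat_lit 9) (nat_lit 0xbc0001780002ff5fe) (.hit (nat_lit 224) (nat_lit 20) (nat_lit 0xbc0001780002ff5fe) b56279 (.hit (nat_lit 225) (nat_lit 28) (nat_lit 0xbc0001780002fe9ac)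 b56280 (.nil))) (.nil)))) (.tok (nat_lit 43) (nat_lit 0xbc00017800030026e) (.hit (nat_lit 232) (nat_lit 0) (nat_lit 0xbc0001780002ff53c) b56281 (.tok (nat_lit 3) (nat_lit 0xbc00017800030026e) (.hit (nat_lit 233) (nat_lit 1) (nat_lit 0xbc0001780002fe13b) b56282 (.one (nat_lit 67) (nat_lit 234) (nat_lit 2) (nat_lit 0xbc00017800030026e) b56283 (.nil))) (.tok (nat_lit 6) (nat_lit 0xbc0001780002ffd64) (.hit (nat_lit 235) (nat_lit 7) (nat_lit 0xbc0001780002ffd64) b56284 (.hit (nat_lit 238) (nat_lit 15) (nat_lit 0xbc0001780002ff1ef) b56285 (.nil))) (.nil)))) (.tok (nat_lit 46) (nat_lit 0xbc000178000301698) (.hit (nat_lit 246) (nat_lit 0) (nat_lit 0xbc0001780002ff176) b56286 (.tok (nat_lit 3) (nat_lit 0xbc000178000301698) (.hit (nat_lit 247) (nat_lit 1) (nat_lit 0xbc0001780002fe2f2) b56287 (.one (nat_lit 55) (nat_lit 248) (nat_lit 3) (nat_lit 0xbc000178000301698) b56288 (.nil))) (.tok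 (nat_lit 9) (nat_lit 0xbc0001780002ffd0b) (.hit (nat_lit 249) (nat_lit 20) (nat_lit 0xbc0001780002fe52e) b56289 (.hit (nat_lit 252) (nat_lit 28) (nat_lit 0xbc0001780002fdc03) b56292 (.tok (nat_lit 67) (nat_lit 0xbc0001780002ffd0b) (.hit (nat_lit 250) (nat_lit 21) (nat_lit 0xbc0001780002ff510) b56290 (.hit (nat_lit 253) (nat_lit 29) (nat_lit 0xbc0001780002ff3ba) b56293 (.one (nat_lit 9) (nat_lit 251) (nat_lit 22) (nat_lit 0xbc0001780002ffd0b) b56291 (.nil)))) (.nil)))) (.nil)))) (.nil))))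
noncomputable def r83_5 : Rw Blk := .tok (nat_lit 3) (nat_lit 0xbf6da17f0f3aff11f5fb398bfa8fd7ec872fef215fc6e2bfc8197f65cafece25fd94abfacd97f7802ff3b0) (.hit (nat_lit 0) (nat_lit 0) (nat_lit 0xbedaf97e31b2fcea05f8060bf09a57e00fafc8e35f9234bf40bd7e9b02fc4e25f91c2bf43a17e9a0afd35d) b56294 (.tok (nat_lit 9) (nat_lit 0xbede917e1a3afe96d5f8fa2bf25c17e3abafcb8b5f96b4bf55717e85b2fc6df5f9afcbf830d7f17f2fe559) (.hit (nat_lit 10) (nat_lit 20) (nat_lit 0xbe8d2d7d7772fd3bf5f66f0bed45d7d97f2fb7325f6e02bf040d7de2eafb2865f724abef0157ded5afd044) b56295 (.hit (nat_lit 15) (nat_lit 28) (nat_lit 0xbe83717d63fafc8495f6212becaa17d847afb4c35f6924befa517dcf72fb0175f6d6cbf30797e7342fd0b0) b56300 (.tok (nat_lit 14) (nat_lit 0xbed91d7e0f52fe5ab5f8ce8bf204d7e2fd2fca2e5f93fabf4ffd7e7acafc5825f9842bf5b157ec7dafe19b) (.hit (nat_lit 11) (nat_lit 24) (nat_lit 0xbea79d7dac52fdbce5f7428beeecd7dccd2fbdce5f7b3abf1e7d7e17cafb9225f7f82bf0a857e223afd530)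 b56296 (.hit (nat_lit 16) (nat_lit 30) (nat_lit 0xbea3a97da46afd17d5f722ebeead97dc4eafbcd15f7940bf1a897e0fe2fb8255f7d88bf5b157ec7dafda19) b56301 (.one (nat_lit 6) (nat_lit 12) (nat_lit 25) (nat_lit 0xbed91d7e0f52fe5ab5f8ce8bf204d7e2fd2fca2e5f93fabf4ffd7e7acafc5825f9842bf3c057e853afe19b) b56297 (.nil)))) (.one (nat_lit 56) (nat_lit 17) (nat_lit 31) (nat_lit 0xbed8257e0d62fddfb5f8c6cbf1f557e2de2fc9f05f937ebf4f057e78dafc5445f97c6bf830d7f17f2fe338) b56302 (.tok (nat_lit 68) (nat_lit 0xbede917e1a3afe96d5f8fa2bf25c17e3abafcb8b5f96b4bf55717e85b2fc6df5f9afcbf47057e9fe2fe559) (.hit (nat_lit 13) (nat_lit 26) (nat_lit 0xbebdf17dd8fafde0f5f7f52bf05217df97afc3635f8664bf34d17e4472fbeb75f8aacbf20d97e4ee2fdbfb) b56298 (.hit (nat_lit 18) (nat_lit 32) (nat_lit 0xbead817db81afd3135f771abef4b17dd89afbf475f7e2cbf24617e2392fba9b5f8274bf47057e9fe2fd436) b56303 (.one (nat_lit 9) (nat_lit 14) (nat_lit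 27) (nat_lit 0xbede917e1a3afe96d5f8fa2bf25c17e3abafcb8b5f96b4bf55717e85b2fc6df5f9afcbf41797e9022fe559) b56299 (.nil)))) (.nil)))))) (.tok (nat_lit 64) (nat_lit 0xbeb3697dc3eafd9e45f7a0ebefa997de46afc0c15f8120bf2a497e2f62fbc155f8568bf5f4d7ed8b2fda48) (.hit (nat_lit 30) (nat_lit 50) (nat_lit 0xbea6c17daa9afcca55f73babeedf17dcb1afbd975f7accbf1da17e1612fb8eb5f7f14bf5a257ec622fd8fe) b56304 (.hit (nat_lit 31) (nat_lit 51) (nat_lit 0xbeb3697dc3eafd9e45f7a0ebefa997de46afc0c15f8120bf2a497e2f62fbc155f8568bf5f4d7ed8b2fda48) b56305 (.nil))) (.tok (nat_lit 67) (nat_lit 0xbf6da17f0f3aff11f5fb398bfa8fd7ec872fef215fc6e2bfc8197f65cafece25fd94abfacd97f7802ff3b0) (.hit (nat_lit 32) (nat_lit 52) (nat_lit 0xbf6da17ef6a2fef475fa708bfa8fd7e9c1afef215fc6e2bfc8197f65cafece25fd94abfacd97f7802ff1c0) b56306 (.tok (nat_lit 3) (nat_lit 0xbef5e57e48e2ff11f5f9b4cbf3d157e6962fd1605fa25ebf6cc57eb45afccb45fa6a6bf58cd7ebecaff3b0)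 (.hit (nat_lit 38) (nat_lit 58) (nat_lit 0xbed7497e0baafe4ab5f8bfebf1e797e2c2afc9b95f9310bf4e297e7722fc50d5f9758bf3a317e8192fe4ef) b56312 (.one (nat_lit 55) (nat_lit 39) (nat_lit 59) (nat_lit 0xbef5e57e48e2ff11f5f9b4cbf3d157e6962fd1605fa25ebf6cc57eb45afccb45fa6a6bf58cd7ebecaff3b0) b56313 (.nil))) (.tok (nat_lit 9) (nat_lit 0xbf3ad17f0f3afe9b55fb398bf83d17ec872fd8615fb060bf88c97eec62fd3b55fb4a8bf74d17ef6d2feb41) (.hit (nat_lit 33) (nat_lit 53) (nat_lit 0xbf023d7e8fc2fe1845fa51cbf59cd7e943afcee05f9d5ebf62c57ea05afca345fa1a6bf4ecd7eaacafe2b4) b56307 (.hit (nat_lit 36) (nat_lit 56) (nat_lit 0xbed8ad7e0e72fe0785f8cb0bf1fdd7e2ef2fca125f93c2bf4f8d7e79eafc5665f980abf3b957e845afe305) b56310 (.tok (nat_lit 67) (nat_lit 0xbf3ad17f0f3afe9b55fb398bf83d17ec872fd8615fb060bf88c97eec62fd3b55fb4a8bf74d17ef6d2feb41) (.hit (nat_lit 34) (nat_lit 54) (nat_lit 0xbf3ad17f0f3afe27a5fb398bf83d17ec872fd8615fb060bf88c97eec62fd3b55fb4a8bf74d17ef6d2fe812)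 b56308 (.hit (nat_lit 37) (nat_lit 57) (nat_lit 0xbf02d57e62c2fe9b55fa1c4bf4a057e8342fd49c5fa8d6bf79b57ece3afcff05fad1ebf65bd7ed8aafeb41) b56311 (.one (nat_lit 9) (nat_lit 35) (nat_lit 55) (nat_lit 0xbefc797e560afe1935f9e96bf43a97e768afd3055fa5a8bf73597ec182fce595fa9f0bf5f617ecbf2fe673) b56309 (.nil)))) (.nil)))) (.nil)))) (.one (nat_lit 70) (nat_lit 40) (nat_lit 60) (nat_lit 0xbed4297e056afe0a05f8a6ebf1b597e25eafc8f15f9180bf4b097e70e2fc4455f95c8bf9c297f525afe97d) b56314 (.nil)))))) (.tok (nat_lit 6) (nat_lit 0xc0000180000300000600000c00001800003002c8600000c00001800003001b3600000c0000180000300000) (.hit (nat_lit 81) (nat_lit 0) (nat_lit 0xbf2c0d7f0642fda7e5fa16ebf4c017e8522fdda85fb1b2bf7c757f0bbafdc4e5fbb46bf77417eeecafdd68) b56315 (.tok (nat_lit 6) (nat_lit 0xbf95a57fe162ffc8b5fc4fabfae557f375aff6355fe77ebfec597fca5aff5f55fe784bfd9917f9f5aff8ce) (.hit (nat_lit 87) (nat_lit 7)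 (nat_lit 0xbf04ed7ea67afd28e5f7f60bf3ccd7e21b2fd2065fa00ebf53397e9582fd0c85f9e92bf42117e7952fd43d) b56316 (.hit (nat_lit 95) (nat_lit 15) (nat_lit 0xbece7d7dd27afcf985f4b8cbefc8d7d26bafbe585f81c4bf1e757e3e62fce935f9b56bf31057e6092fcf1c) b56319 (.tok (nat_lit 14) (nat_lit 0xbf95a57fe162ffc8b5fc4fabfae557f375aff6355fe77ebfec597fca5aff5f55fe784bfd9917f9f5aff8ce) (.hit (nat_lit 91) (nat_lit 11) (nat_lit 0xbf88557fbf02ffb395fc12abf92c17f17baff3025fe14abfd8397f9f9afee205fda2ebfbc897f68daff309) b56317 (.hit (nat_lit 97) (nat_lit 17) (nat_lit 0xbf406d7eafaafefa45f84c0bf6c197e0a9afd8e05fb0f0bf86b57f1ccafe5365fc664bf92497f0acafe041) b56320 (.one (nat_lit 9) (nat_lit 92) (nat_lit 12) (nat_lit 0xbf95a57fe162ffc8b5fc4fabfae557f375aff6355fe77ebfec597fca5aff5f55fe784bfd9917f9f5aff8ce) b56318 (.nil)))) (.one (nat_lit 68) (nat_lit 98) (nat_lit 18) (nat_lit 0xbf20d97e7dcafe1205f76c0bf50197dd29afd1e05fa2f0bf5b397ec1d2fddf05fc144bf79017ee09afdc4e)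 b56321 (.nil))))) (.tok (nat_lit 52) (nat_lit 0xbf36757f1cc2fe0f95f85ccbf6ea17e0faafd9825fb43cbfe8b97fb872ff7325ff8aebfb8297f8112feffc) (.hit (nat_lit 106) (nat_lit 39) (nat_lit 0xbf2da97f1cc2fdfdb5f85ccbf6ea17e0faafd9825fb234bfe8b97fb872ff7325ff8aebfb8297f8112feca1) b56322 (.hit (nat_lit 107) (nat_lit 40) (nat_lit 0xbf36757ee822fe0f95f803ebf5b017df722fd74b5fb43cbfd1957f88a2fd9d15fb5d0bf5c717ecb52feffc) b56323 (.nil))) (.tok (nat_lit 55) (nat_lit 0xc0000180000300000600000c00001800003002c8600000c00001800003001b3600000c0000180000300000) (.hit (nat_lit 108) (nat_lit 41) (nat_lit 0xbfc011800002ff6e35ff232bff4a97fa033002c85ffc88bfebbd7ff20affcc65ff67cbfdd997fd55aff7cb) b56324 (.tok (nat_lit 3) (nat_lit 0xc000017ff02b00000600000c00001800002ffddb600000c00001800003001b3600000c0000180000300000) (.hit (nat_lit 114) (nat_lit 47) (nat_lit 0xbf99117f7c5aff4315fdddebfd03d7fa84afe93e5fd7ecbfc0c97f8d82fed6c5fd6b8bfa5317f540afed73)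 b56327 (.one (nat_lit 67) (nat_lit 115) (nat_lit 48) (nat_lit 0xc000017ff02b00000600000c00001800002ffddb600000c00001800003001b3600000c0000180000300000) b56328 (.nil))) (.tok (nat_lit 6) (nat_lit 0xbf8fb17f6982ffca75faa5abfb7bd7edb12febc95fd6c2bfc9117fa52afff755ffd84bfe0d97ff41affc24) (.hit (nat_lit 109) (nat_lit 42) (nat_lit 0xbf8fb17f302afeb385faa5abfb7bd7edb12febc95fd6c2bfc2957f874afff755ffd84bfe0d97ff41afee20) b56325 (.hit (nat_lit 112) (nat_lit 45) (nat_lit 0xbf5d317f6982ffca75f9b7cbf81b97e6a22fe0fa5fc79abfc9117fa52afdfd55fc488bf7c597f0b2affc24) b56326 (.nil))) (.nil)))) (.one (nat_lit 58) (nat_lit 116) (nat_lit 49) (nat_lit 0xbf58f97f0d32ff1f55f9204bf7cc57e3e42fdf645fc450bfe2797f8f42ff0215fe038bfa78d7f6052fef47) b56329 (.nil)))))) (.nil))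
noncomputable def r83_6 : Rw Blk := .tok (nat_lit 9) (nat_lit 0x5e0000bc00017f9b92ffa34) (.hit (nat_lit 0) (nat_lit 0) (nat_lit 0x5e0000bc00017ee012fe2f3) b56330 (.tok (nat_lit 14) (nat_lit 0x5e0000bc00017f3e4afea02) (.hit (nat_lit 11) (nat_lit 61) (nat_lit 0x5e0000bc00017f3e4afe88e) b56331 (.one (nat_lit 3) (nat_lit 12) (nat_lit 62) (nat_lit 0x5e0000bc00017f31a2fdef6) b56332 (.tok (nat_lit 6) (nat_lit 0x5e0000bc00017f2252fea02) (.hit (nat_lit 15) (nat_lit 65) (nat_lit 0x5e0000bc00017f2252fea02) b56335 (.hit (nat_lit 16) (nat_lit 66) (nat_lit 0x5e0000bc00017ef67afe7c0) b56336 (.nil))) (.tok (nat_lit 9) (nat_lit 0x5e0000bc00017eeb42fe7ca) (.hit (nat_lit 13) (nat_lit 63) (nat_lit 0x5e0000bc00017e9972fe7ca) b56333 (.hit (nat_lit 14) (nat_lit 64) (nat_lit 0x5e0000bc00017eeb42fe60c) b56334 (.nil))) (.nil))))) (.one (nat_lit 17) (nat_lit 17) (nat_lit 67) (nat_lit 0x5e0000bc00017ee172fd465)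 b56337 (.tok (nat_lit 20) (nat_lit 0x5e0000bc00017ed752fd3d1) (.hit (nat_lit 18) (nat_lit 68) (nat_lit 0x5e0000bc00017df9aafd3d1) b56338 (.hit (nat_lit 19) (nat_lit 69) (nat_lit 0x5e0000bc00017ed752fd2d1) b56339 (.nil))) (.tok (nat_lit 23) (nat_lit 0x5e0000bc00017f89fafed29) (.hit (nat_lit 20) (nat_lit 70) (nat_lit 0x5e0000bc00017f89fafed29) b56340 (.hit (nat_lit 21) (nat_lit 71) (nat_lit 0x5e0000bc00017eeceafd2d1) b56341 (.nil))) (.one (nat_lit 26) (nat_lit 22) (nat_lit 72) (nat_lit 0x5e0000bc00017e5f62fc061) b56342 (.one (nat_lit 29) (nat_lit 23) (nat_lit 73) (nat_lit 0x5e0000bc00017e5882fc373) b56343 (.one (nat_lit 32) (nat_lit 24) (nat_lit 74) (nat_lit 0x5e0000bc00017ea122fc650) b56344 (.one (nat_lit 35) (nat_lit 25) (nat_lit 75) (nat_lit 0x5e0000bc00017e4caafc650) b56345 (.one (nat_lit 50) (nat_lit 33) (nat_lit 83) (nat_lit 0x5e0000bc00017e97cafce13) b56346 (.tok (nat_lit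 53) (nat_lit 0x5e0000bc00017ed33afd9a5) (.hit (nat_lit 34) (nat_lit 84) (nat_lit 0x5e0000bc00017e7112fd9a5) b56347 (.hit (nat_lit 35) (nat_lit 85) (nat_lit 0x5e0000bc00017ed33afcf9e) b56348 (.nil))) (.tok (nat_lit 56) (nat_lit 0x5e0000bc00017ededafe574) (.hit (nat_lit 36) (nat_lit 86) (nat_lit 0x5e0000bc00017ededafe574) b56349 (.one (nat_lit 3) (nat_lit 40) (nat_lit 90) (nat_lit 0x5e0000bc00017e149afd72f) b56353 (.tok (nat_lit 6) (nat_lit 0x5e0000bc00017e69b2fe1d2) (.hit (nat_lit 38) (nat_lit 88) (nat_lit 0x5e0000bc00017e69b2fe1d2) b56351 (.hit (nat_lit 39) (nat_lit 89) (nat_lit 0x5e0000bc00017e3f5afdc87) b56352 (.nil))) (.one (nat_lit 9) (nat_lit 37) (nat_lit 87) (nat_lit 0x5e0000bc00017e53f2fdf1a) b56350 (.nil))))) (.one (nat_lit 59) (nat_lit 41) (nat_lit 91) (nat_lit 0x5e0000bc00017e9b1afc0a2) b56354 (.one (nat_lit 62) (nat_lit 42) (nat_lit 92) (nat_lit 0x5e0000bc00017ed40afce13)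 b56355 (.tok (nat_lit 65) (nat_lit 0x5e0000bc00017edb3afd6a3) (.hit (nat_lit 43) (nat_lit 93) (nat_lit 0x5e0000bc00017e11aafd6a3) b56356 (.hit (nat_lit 44) (nat_lit 94) (nat_lit 0x5e0000bc00017edb3afcd05) b56357 (.nil))) (.tok (nat_lit 68) (nat_lit 0x5e0000bc00017f9b92ffa34) (.hit (nat_lit 45) (nat_lit 95) (nat_lit 0x5e0000bc00017f96daff60b) b56358 (.one (nat_lit 3) (nat_lit 49) (nat_lit 99) (nat_lit 0x5e0000bc00017f9b92feace) b56362 (.one (nat_lit 6) (nat_lit 46) (nat_lit 96) (nat_lit 0x5e0000bc00017f450affa34) b56359 (.tok (nat_lit 9) (nat_lit 0x5e0000bc00017f57b2fe477) (.hit (nat_lit 47) (nat_lit 97) (nat_lit 0x5e0000bc00017f57b2fe477) b56360 (.hit (nat_lit 48) (nat_lit 98) (nat_lit 0x5e0000bc00017eff52fd761) b56361 (.nil))) (.nil))))) (.one (nat_lit 71) (nat_lit 50) (nat_lit 100) (nat_lit 0x5e0000bc00017e9ff2fc1a2) b56363 (.nil)))))))))))))))))) (.tok (nat_lit 64) (nat_lit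 0x5e0000bc000180000301253) (.hit (nat_lit 180) (nat_lit 0) (nat_lit 0x5e0000bc00017fe76301253) b56364 (.tok (nat_lit 6) (nat_lit 0x5e0000bc00017f1d4aff86a) (.hit (nat_lit 181) (nat_lit 7) (nat_lit 0x5e0000bc00017e6ec2fed3d) b56365 (.hit (nat_lit 182) (nat_lit 15) (nat_lit 0x5e0000bc00017f1d4aff86a) b56366 (.nil))) (.tok (nat_lit 9) (nat_lit 0x5e0000bc000180000300dcd) (.hit (nat_lit 183) (nat_lit 20) (nat_lit 0x5e0000bc000180000300dcd) b56367 (.hit (nat_lit 184) (nat_lit 28) (nat_lit 0x5e0000bc00017f4752ffa5c) b56368 (.nil))) (.nil)))) (.tok (nat_lit 67) (nat_lit 0x5e0000bc00017f661b00236) (.hit (nat_lit 205) (nat_lit 0) (nat_lit 0x5e0000bc00017f661afee4d) b56377 (.tok (nat_lit 3) (nat_lit 0x5e0000bc00017f168b00236) (.hit (nat_lit 206) (nat_lit 1) (nat_lit 0x5e0000bc00017e3e12fe727) b56378 (.one (nat_lit 55) (nat_lit 207) (nat_lit 3) (nat_lit 0x5e0000bc00017f168b00236) b56379 (.nil)))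 (.tok (nat_lit 9) (nat_lit 0x5e0000bc00017ed372ff9d3) (.hit (nat_lit 208) (nat_lit 20) (nat_lit 0x5e0000bc00017e6e2afed2a) b56380 (.hit (nat_lit 211) (nat_lit 28) (nat_lit 0x5e0000bc00017e357afe614) b56383 (.tok (nat_lit 67) (nat_lit 0x5e0000bc00017ed372ff9d3) (.hit (nat_lit 209) (nat_lit 21) (nat_lit 0x5e0000bc00017e8cc2ff0fd) b56381 (.hit (nat_lit 212) (nat_lit 29) (nat_lit 0x5e0000bc00017ed372ff9d3) b56384 (.one (nat_lit 9) (nat_lit 210) (nat_lit 22) (nat_lit 0x5e0000bc00017ebf22ff749) b56382 (.nil)))) (.nil)))) (.nil)))) (.tok (nat_lit 70) (nat_lit 0x5e0000bc00017fb04b01450) (.hit (nat_lit 191) (nat_lit 0) (nat_lit 0x5e0000bc00017fb04aff459) b56369 (.tok (nat_lit 3) (nat_lit 0x5e0000bc00017f4aab008ba) (.hit (nat_lit 192) (nat_lit 1) (nat_lit 0x5e0000bc00017e3ac2fe6bd) b56370 (.one (nat_lit 67) (nat_lit 193) (nat_lit 2) (nat_lit 0x5e0000bc00017f4aab008ba) b56371 (.nil))) (.tok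 (nat_lit 6) (nat_lit 0x5e0000bc00017fa75b01450) (.hit (nat_lit 194) (nat_lit 7) (nat_lit 0x5e0000bc00017ea44aff3ee) b56372 (.hit (nat_lit 197) (nat_lit 15) (nat_lit 0x5e0000bc00017e6a32fecab) b56375 (.tok (nat_lit 55) (nat_lit 0x5e0000bc00017fa75b01450) (.hit (nat_lit 195) (nat_lit 8) (nat_lit 0x5e0000bc00017efce2fff01) b56373 (.hit (nat_lit 198) (nat_lit 16) (nat_lit 0x5e0000bc00017f223b003ac) b56376 (.one (nat_lit 6) (nat_lit 196) (nat_lit 9) (nat_lit 0x5e0000bc00017fa75b01450) b56374 (.nil)))) (.nil)))) (.nil)))) (.nil))))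
noncomputable def r83_7 : Rw Blk := .tok (nat_lit 3) (nat_lit 0x5e0000bc00018038b3004d8) (.hit (nat_lit 15) (nat_lit 0) (nat_lit 0x5e0000bc00017f1d7aff612) b56396 (.tok (nat_lit 6) (nat_lit 0x5e0000bc00017e8cbaffb59) (.hit (nat_lit 16) (nat_lit 7) (nat_lit 0x5e0000bc00017df662fe88e) b56397 (.hit (nat_lit 21) (nat_lit 15) (nat_lit 0x5e0000bc00017d3852fd0cc) b56400 (.tok (nat_lit 56) (nat_lit 0x5e0000bc00017e8cbaffb59) (.hit (nat_lit 19) (nat_lit 13) (nat_lit 0x5e0000bc00017e386aff0cf) b56398 (.hit (nat_lit 24) (nat_lit 19) (nat_lit 0x5e0000bc00017e3f42ff1aa) b56402 (.one (nat_lit 6) (nat_lit 20) (nat_lit 14) (nat_lit 0x5e0000bc00017e8cbaffb59) b56399 (.nil)))) (.one (nat_lit 68) (nat_lit 23) (nat_lit 18) (nat_lit 0x5e0000bc00017e2daafef77) b56401 (.nil))))) (.tok (nat_lit 52) (nat_lit 0x5e0000bc00017e93e2ffc3e) (.hit (nat_lit 25) (nat_lit 39) (nat_lit 0x5e0000bc00017e2ab2fef18)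 b56403 (.hit (nat_lit 26) (nat_lit 40) (nat_lit 0x5e0000bc00017e93e2ffc3e) b56404 (.nil))) (.tok (nat_lit 55) (nat_lit 0x5e0000bc00018038b3004d8) (.hit (nat_lit 27) (nat_lit 41) (nat_lit 0x5e0000bc00018038b3004d8) b56405 (.one (nat_lit 3) (nat_lit 33) (nat_lit 47) (nat_lit 0x5e0000bc00017e94aaffc57) b56411 (.tok (nat_lit 6) (nat_lit 0x5e0000bc00017eaa7afff11) (.hit (nat_lit 28) (nat_lit 42) (nat_lit 0x5e0000bc00017e59a2ff4f6) b56406 (.hit (nat_lit 31) (nat_lit 45) (nat_lit 0x5e0000bc00017e735aff82d) b56409 (.tok (nat_lit 55) (nat_lit 0x5e0000bc00017eaa7afff11) (.hit (nat_lit 29) (nat_lit 43) (nat_lit 0x5e0000bc00017eaa7afff11) b56407 (.hit (nat_lit 32) (nat_lit 46) (nat_lit 0x5e0000bc00017ea292ffe14) b56410 (.one (nat_lit 6) (nat_lit 30) (nat_lit 44) (nat_lit 0x5e0000bc00017e542aff447) b56408 (.nil)))) (.nil)))) (.nil)))) (.one (nat_lit 58) (nat_lit 35) (nat_lit 49) (nat_lit 0x5e0000bc00017e8b0affb23)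 b56412 (.nil)))))) (.tok (nat_lit 9) (nat_lit 0x5e0000bc000180d69302c91) (.hit (nat_lit 0) (nat_lit 0) (nat_lit 0x5e0000bc00017fbc1b00af5) b56385 (.tok (nat_lit 9) (nat_lit 0x5e0000bc00017fae32ff1dc) (.hit (nat_lit 1) (nat_lit 20) (nat_lit 0x5e0000bc00017f07bafe3d3) b56386 (.hit (nat_lit 4) (nat_lit 28) (nat_lit 0x5e0000bc00017eac52fda59) b56387 (.one (nat_lit 56) (nat_lit 6) (nat_lit 31) (nat_lit 0x5e0000bc00017fae32ff1dc) b56388 (.nil)))) (.tok (nat_lit 64) (nat_lit 0x5e0000bc0001804f1b017fe) (.hit (nat_lit 7) (nat_lit 50) (nat_lit 0x5e0000bc0001800ac3017fe) b56389 (.hit (nat_lit 8) (nat_lit 51) (nat_lit 0x5e0000bc0001804f1b0107d) b56390 (.nil))) (.tok (nat_lit 67) (nat_lit 0x5e0000bc00018025f301231) (.hit (nat_lit 9) (nat_lit 52) (nat_lit 0x5e0000bc00018025f301231) b56391 (.one (nat_lit 3) (nat_lit 12) (nat_lit 58) (nat_lit 0x5e0000bc00017fe9b300ddf) b56394 (.tok (nat_lit 9)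 (nat_lit 0x5e0000bc00017fc65b00a70) (.hit (nat_lit 10) (nat_lit 53) (nat_lit 0x5e0000bc00017f5beb00a70) b56392 (.hit (nat_lit 11) (nat_lit 56) (nat_lit 0x5e0000bc00017fc65affcb8) b56393 (.nil))) (.nil)))) (.one (nat_lit 70) (nat_lit 14) (nat_lit 60) (nat_lit 0x5e0000bc000180d69302c91) b56395 (.nil)))))) (.nil))
noncomputable def r83_8 : Rw Blk := .tok (nat_lit 6) (nat_lit 0x1780002f00005ff720c0767580c8a3006ef) (.hit (nat_lit 0) (nat_lit 0) (nat_lit 0x1780002f00005fa89abf761d7edb8afd987) b56413 (.tok (nat_lit 14) (nat_lit 0x1780002f00005ff19cbfb4c97f4b62ffe11) (.hit (nat_lit 21) (nat_lit 61) (nat_lit 0x1780002f00005fd8fcbf83bd7f08f2fe5ac) b56414 (.one (nat_lit 3) (nat_lit 22) (nat_lit 62) (nat_lit 0x1780002f00005fe1a6bf5d6d7eacf2fe9f0) b56415 (.tok (nat_lit 6) (nat_lit 0x1780002f00005fb8b0bf72e97edaaafdf22) (.hit (nat_lit 25) (nat_lit 65) (nat_lit 0x1780002f00005f71fcbf6c857eda82fdbe8)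 b56418 (.hit (nat_lit 26) (nat_lit 66) (nat_lit 0x1780002f00005fb8b0bf72e97edaaafdf22) b56419 (.nil))) (.tok (nat_lit 9) (nat_lit 0x1780002f00005ff19cbfb4c97f4b62ffe11) (.hit (nat_lit 23) (nat_lit 63) (nat_lit 0x1780002f00005ff19cbfb4c97f4b62ffe11) b56416 (.hit (nat_lit 24) (nat_lit 64) (nat_lit 0x1780002f00005fb5aebf65bd7eccf2fda36) b56417 (.nil))) (.nil))))) (.one (nat_lit 17) (nat_lit 27) (nat_lit 67) (nat_lit 0x1780002f00005fc724bf4fdd7e9c4afd6f9) b56420 (.tok (nat_lit 20) (nat_lit 0x1780002f00005ff720c0767580c8a3006ef) (.hit (nat_lit 28) (nat_lit 68) (nat_lit 0x1780002f00005ff720c0767580c8a3006ef) b56421 (.hit (nat_lit 29) (nat_lit 69) (nat_lit 0x1780002f00005fad28bf285d7e5bbafcc3b) b56422 (.nil))) (.tok (nat_lit 23) (nat_lit 0x1780002f00005fa764bf29917e549afcb2b) (.hit (nat_lit 30) (nat_lit 70) (nat_lit 0x1780002f00005f5082bf29917e549afcb2b) b56423 (.hit (nat_lit 31) (nat_lit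 71) (nat_lit 0x1780002f00005fa764bf1e5d7e3702fca30) b56424 (.nil))) (.one (nat_lit 26) (nat_lit 32) (nat_lit 72) (nat_lit 0x1780002f00005f998ebeff157e07c2fc1c7) b56425 (.one (nat_lit 29) (nat_lit 33) (nat_lit 73) (nat_lit 0x1780002f00005fa412bf1a917e3a2afd0de) b56426 (.one (nat_lit 32) (nat_lit 34) (nat_lit 74) (nat_lit 0x1780002f00005f8a20bee79d7dd0b2fbada) b56427 (.one (nat_lit 35) (nat_lit 35) (nat_lit 75) (nat_lit 0x1780002f00005fb926bf1b297e3a62fd1c3) b56428 (.one (nat_lit 38) (nat_lit 36) (nat_lit 76) (nat_lit 0x1780002f00005fa43ebf31d97e652afcd3d) b56429 (.tok (nat_lit 41) (nat_lit 0x1780002f00005f9c24bf2f717e67a2fcf12) (.hit (nat_lit 37) (nat_lit 77) (nat_lit 0x1780002f00005f8f86bee66d7dcffafc73e) b56430 (.hit (nat_lit 38) (nat_lit 78) (nat_lit 0x1780002f00005f9c24bf2f717e67a2fcf12) b56431 (.nil))) (.tok (nat_lit 44) (nat_lit 0x1780002f00005fbaf4bf5a717e909afd9b3) (.hit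 (nat_lit 39) (nat_lit 79) (nat_lit 0x1780002f00005fbaf4bf5a717e909afd9b3) b56432 (.hit (nat_lit 40) (nat_lit 80) (nat_lit 0x1780002f00005fa378beeedd7deefafc70e) b56433 (.nil))) (.tok (nat_lit 47) (nat_lit 0x1780002f00005fce66bf43a57e8332fdc91) (.hit (nat_lit 41) (nat_lit 81) (nat_lit 0x1780002f00005f41b0bf0bed7e1952fc3c2) b56434 (.hit (nat_lit 42) (nat_lit 82) (nat_lit 0x1780002f00005fce66bf43a57e8332fdc91) b56435 (.nil))) (.one (nat_lit 62) (nat_lit 52) (nat_lit 92) (nat_lit 0x1780002f00005f9914bf1afd7e3772fc786) b56436 (.tok (nat_lit 65) (nat_lit 0x1780002f00005fb0b4bf25017e4b7afce94) (.hit (nat_lit 53) (nat_lit 93) (nat_lit 0x1780002f00005fb0b4bf25017e4b7afce94) b56437 (.hit (nat_lit 54) (nat_lit 94) (nat_lit 0x1780002f00005f864cbf20b57e4072fc736) b56438 (.nil))) (.tok (nat_lit 68) (nat_lit 0x1780002f00005f9602bf75417eec1afde52) (.hit (nat_lit 55) (nat_lit 95) (nat_lit 0x1780002f00005f9602bf75417eec1afde52)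 b56439 (.one (nat_lit 3) (nat_lit 59) (nat_lit 99) (nat_lit 0x1780002f00005f4f88bf279d7e50b2fcaae) b56443 (.one (nat_lit 6) (nat_lit 56) (nat_lit 96) (nat_lit 0x1780002f00005f57cebf38297e71cafced1) b56440 (.tok (nat_lit 9) (nat_lit 0x1780002f00005f73a6bf6fd97ee12afdcbd) (.hit (nat_lit 57) (nat_lit 97) (nat_lit 0x1780002f00005f73a6bf6fd97ee12afdcbd) b56441 (.hit (nat_lit 58) (nat_lit 98) (nat_lit 0x1780002f00005f6302bf4e917e9e9afd46b) b56442 (.nil))) (.nil))))) (.one (nat_lit 71) (nat_lit 60) (nat_lit 100) (nat_lit 0x1780002f00005fa662bf12a57e274afc956) b56444 (.nil)))))))))))))))))) (.tok (nat_lit 52) (nat_lit 0x1780002f0000600000c04b898057f300be9) (.hit (nat_lit 176) (nat_lit 0) (nat_lit 0x1780002f0000600000c04b898057f300be9) b56445 (.tok (nat_lit 6) (nat_lit 0x1780002f00005fd834bfef4d7fa272ffcc5) (.hit (nat_lit 177) (nat_lit 7) (nat_lit 0x1780002f00005fd834bfef4d7fa272ffcc5)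 b56446 (.hit (nat_lit 178) (nat_lit 15) (nat_lit 0x1780002f00005fb672bfa6797f17a2fed12) b56447 (.nil))) (.tok (nat_lit 9) (nat_lit 0x1780002f00005fd1d6bfc9757f5fcaff68d) (.hit (nat_lit 179) (nat_lit 20) (nat_lit 0x1780002f00005faaa6bf801d7f0252fe573) b56448 (.hit (nat_lit 180) (nat_lit 28) (nat_lit 0x1780002f00005fd1d6bfc9757f5fcaff68d) b56449 (.nil))) (.nil)))) (.tok (nat_lit 55) (nat_lit 0x1780002f00005fc552bfa6bd7f3742fec11) (.hit (nat_lit 187) (nat_lit 0) (nat_lit 0x1780002f00005fc552bfa6bd7f140afe7aa) b56450 (.tok (nat_lit 3) (nat_lit 0x1780002f00005fb7e2bf9a957f3742fec11) (.hit (nat_lit 188) (nat_lit 1) (nat_lit 0x1780002f00005f8a9abf40057e8222fd56d) b56451 (.one (nat_lit 67) (nat_lit 189) (nat_lit 2) (nat_lit 0x1780002f00005fb7e2bf9a957f3742fec11) b56452 (.nil))) (.tok (nat_lit 6) (nat_lit 0x1780002f00005f9fa4bf6a197ed64afdff2) (.hit (nat_lit 190) (nat_lit 7) (nat_lit 0x1780002f00005f9fa4bf6a197ed64afdff2)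 b56453 (.hit (nat_lit 193) (nat_lit 15) (nat_lit 0x1780002f00005f8c46bf435d7e88d2fd643) b56454 (.nil))) (.nil)))) (.tok (nat_lit 58) (nat_lit 0x1780002f00005fe010bfeaf17fd7fb00028) (.hit (nat_lit 201) (nat_lit 0) (nat_lit 0x1780002f00005fcef0bfcc457f697afed6c) b56455 (.tok (nat_lit 3) (nat_lit 0x1780002f00005fcdc2bfc6557f8ec2ff701) (.hit (nat_lit 202) (nat_lit 1) (nat_lit 0x1780002f00005f9a94bf5ff97ec20afdd6a) b56456 (.one (nat_lit 55) (nat_lit 203) (nat_lit 3) (nat_lit 0x1780002f00005fcdc2bfc6557f8ec2ff701) b56457 (.nil))) (.tok (nat_lit 9) (nat_lit 0x1780002f00005fe010bfeaf17fd7fb00028) (.hit (nat_lit 204) (nat_lit 20) (nat_lit 0x1780002f00005f9e7abf67c57ed1a2fdf5d) b56458 (.hit (nat_lit 207) (nat_lit 28) (nat_lit 0x1780002f00005f9ed4bf68797ed30afdf8a) b56461 (.tok (nat_lit 67) (nat_lit 0x1780002f00005fe010bfeaf17fd7fb00028) (.hit (nat_lit 205) (nat_lit 21) (nat_lit 0x1780002f00005fb868bf9ba17f395afec54)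 b56459 (.hit (nat_lit 208) (nat_lit 29) (nat_lit 0x1780002f00005fd34abfd1657fa4e2ff9c5) b56462 (.one (nat_lit 9) (nat_lit 206) (nat_lit 22) (nat_lit 0x1780002f00005fe010bfeaf17fd7fb00028) b56460 (.nil)))) (.nil)))) (.nil)))) (.nil))))
noncomputable def r83_9 : Rw Blk := .tok (nat_lit 3) (nat_lit 0x1780002f0000602776c04bf180ca4301f6c) (.hit (nat_lit 15) (nat_lit 0) (nat_lit 0x1780002f0000600860bfc8e97fad030090e) b56470 (.tok (nat_lit 9) (nat_lit 0x1780002f00005fc8acbf7db17f315aff359) (.hit (nat_lit 16) (nat_lit 20) (nat_lit 0x1780002f00005f8284bef4417e1e7afd045) b56471 (.hit (nat_lit 21) (nat_lit 28) (nat_lit 0x1780002f00005fa140bec6457dc282fdc8e) b56476 (.tok (nat_lit 14) (nat_lit 0x1780002f00005fc8acbf641d7efe32ff359) (.hit (nat_lit 17) (nat_lit 24) (nat_lit 0x1780002f00005fa52cbf21b17e795afe199) b56472 (.hit (nat_lit 22) (nat_lit 30) (nat_lit 0x1780002f00005fb83ebf641d7efe32fef9c)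 b56477 (.one (nat_lit 6) (nat_lit 18) (nat_lit 25) (nat_lit 0x1780002f00005fc8acbf304d7e9692ff359) b56473 (.nil)))) (.tok (nat_lit 68) (nat_lit 0x1780002f00005fbbd6bf7db17f315afecee) (.hit (nat_lit 19) (nat_lit 26) (nat_lit 0x1780002f00005fa492bf16757e62e2fe14c) b56474 (.hit (nat_lit 24) (nat_lit 32) (nat_lit 0x1780002f00005fb136bf54257ede42fe040) b56478 (.one (nat_lit 9) (nat_lit 20) (nat_lit 27) (nat_lit 0x1780002f00005fbbd6bf7db17f315afecee) b56475 (.nil)))) (.nil))))) (.tok (nat_lit 64) (nat_lit 0x1780002f00005fd688bf81997f392affa82) (.hit (nat_lit 25) (nat_lit 50) (nat_lit 0x1780002f00005fcc5cbf602d7ef652fec88) b56479 (.hit (nat_lit 26) (nat_lit 51) (nat_lit 0x1780002f00005fd688bf81997f392affa82) b56480 (.nil))) (.tok (nat_lit 67) (nat_lit 0x1780002f0000602776c04bf180ca4301269) (.hit (nat_lit 27) (nat_lit 52) (nat_lit 0x1780002f0000602776c04bf180ca4301269) b56481 (.tok (nat_lit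 3) (nat_lit 0x1780002f00005fdff8bf75b17f215affeff) (.hit (nat_lit 33) (nat_lit 58) (nat_lit 0x1780002f00005fba16bf54f17edfdafec0e) b56487 (.one (nat_lit 55) (nat_lit 34) (nat_lit 59) (nat_lit 0x1780002f00005fdff8bf75b17f215affeff) b56488 (.nil))) (.tok (nat_lit 9) (nat_lit 0x1780002f00005fca04bf80097f360aff405) (.hit (nat_lit 28) (nat_lit 53) (nat_lit 0x1780002f00005fbbeabf5fed7ef5d2fecf8) b56482 (.hit (nat_lit 31) (nat_lit 56) (nat_lit 0x1780002f00005fb526bf44797ebeeafe996) b56485 (.tok (nat_lit 67) (nat_lit 0x1780002f00005fca04bf80097f360aff405) (.hit (nat_lit 29) (nat_lit 54) (nat_lit 0x1780002f00005fca04bf70257f1642ff405) b56483 (.hit (nat_lit 32) (nat_lit 57) (nat_lit 0x1780002f00005fc8f2bf80097f360aff37c) b56486 (.one (nat_lit 9) (nat_lit 30) (nat_lit 55) (nat_lit 0x1780002f00005fb31ebf44bd7ebf72fe892) b56484 (.nil)))) (.nil)))) (.nil)))) (.one (nat_lit 70) (nat_lit 35)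 (nat_lit 60) (nat_lit 0x1780002f0000601f74bfaf6d7f94d301f6c) b56489 (.nil)))))) (.tok (nat_lit 6) (nat_lit 0x1780002f0000601edcc0bc9d815e53021a2) (.hit (nat_lit 0) (nat_lit 0) (nat_lit 0x1780002f0000600bd6c0429d80439b0077f) b56463 (.tok (nat_lit 6) (nat_lit 0x1780002f0000601edcc0bc9d815e53021a2) (.hit (nat_lit 1) (nat_lit 7) (nat_lit 0x1780002f00005fab22bf97457f1222fd6f8) b56464 (.hit (nat_lit 4) (nat_lit 15) (nat_lit 0x1780002f00005fbdc8bf9e597f351afe004) b56467 (.tok (nat_lit 14) (nat_lit 0x1780002f0000601edcc0bc9d815e53021a2) (.hit (nat_lit 2) (nat_lit 11) (nat_lit 0x1780002f00005fd822c011457fddf2ff3de) b56465 (.hit (nat_lit 5) (nat_lit 17) (nat_lit 0x1780002f00005ff09ec010fd801472ff3f2) b56468 (.one (nat_lit 9) (nat_lit 3) (nat_lit 12) (nat_lit 0x1780002f0000601edcc0bc9d815e53021a2) b56466 (.nil)))) (.one (nat_lit 68) (nat_lit 6) (nat_lit 18) (nat_lit 0x1780002f0000600fa8c0a6d98106f300964)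 b56469 (.nil))))) (.nil))) (.nil))
noncomputable def r83_10 : Rw Blk := .tok (nat_lit 6) (nat_lit 0x5e0000bc00018238a3059ac) (.hit (nat_lit 0) (nat_lit 0) (nat_lit 0x5e0000bc00017fc51b00fa3) b56490 (.tok (nat_lit 14) (nat_lit 0x5e0000bc0001818d5b03eb7) (.hit (nat_lit 1) (nat_lit 61) (nat_lit 0x5e0000bc00018043fb013f4) b56491 (.one (nat_lit 3) (nat_lit 2) (nat_lit 62) (nat_lit 0x5e0000bc00018086eb01188) b56492 (.tok (nat_lit 6) (nat_lit 0x5e0000bc00017f82eb00557) (.hit (nat_lit 5) (nat_lit 65) (nat_lit 0x5e0000bc00017f82eb00557) b56495 (.hit (nat_lit 6) (nat_lit 66) (nat_lit 0x5e0000bc00017f39aafffb3) b56496 (.nil))) (.tok (nat_lit 9) (nat_lit 0x5e0000bc0001818d5b03eb7) (.hit (nat_lit 3) (nat_lit 63) (nat_lit 0x5e0000bc0001818d5b03eb7) b56493 (.hit (nat_lit 4) (nat_lit 64) (nat_lit 0x5e0000bc00017fb953006d4) b56494 (.nil))) (.nil))))) (.one (nat_lit 17) (nat_lit 7) (nat_lit 67)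 (nat_lit 0x5e0000bc00017fa2caff64b) b56497 (.tok (nat_lit 20) (nat_lit 0x5e0000bc00018238a3059ac) (.hit (nat_lit 8) (nat_lit 68) (nat_lit 0x5e0000bc00018238a3059ac) b56498 (.hit (nat_lit 9) (nat_lit 69) (nat_lit 0x5e0000bc00017f78fafefd6) b56499 (.nil))) (.tok (nat_lit 23) (nat_lit 0x5e0000bc00017f6a0affb1a) (.hit (nat_lit 10) (nat_lit 70) (nat_lit 0x5e0000bc00017f3102ffb1a) b56500 (.hit (nat_lit 11) (nat_lit 71) (nat_lit 0x5e0000bc00017f6a0affb05) b56501 (.nil))) (.one (nat_lit 38) (nat_lit 16) (nat_lit 76) (nat_lit 0x5e0000bc00017f3322feff5) b56502 (.tok (nat_lit 41) (nat_lit 0x5e0000bc00017f1252ff67a) (.hit (nat_lit 17) (nat_lit 77) (nat_lit 0x5e0000bc00017ecdd2ff19a) b56503 (.hit (nat_lit 18) (nat_lit 78) (nat_lit 0x5e0000bc00017f1252ff67a) b56504 (.nil))) (.tok (nat_lit 44) (nat_lit 0x5e0000bc00017f6883002c5) (.hit (nat_lit 19) (nat_lit 79) (nat_lit 0x5e0000bc00017f6883002c5)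 b56505 (.hit (nat_lit 20) (nat_lit 80) (nat_lit 0x5e0000bc00017ebf4afe725) b56506 (.nil))) (.tok (nat_lit 47) (nat_lit 0x5e0000bc00017f5ea2ff401) (.hit (nat_lit 21) (nat_lit 81) (nat_lit 0x5e0000bc00017eb3eafeb77) b56507 (.hit (nat_lit 22) (nat_lit 82) (nat_lit 0x5e0000bc00017f5ea2ff401) b56508 (.nil))) (.one (nat_lit 62) (nat_lit 23) (nat_lit 92) (nat_lit 0x5e0000bc00017ff2daffd57) b56509 (.tok (nat_lit 65) (nat_lit 0x5e0000bc00017f52d2ffb95) (.hit (nat_lit 24) (nat_lit 93) (nat_lit 0x5e0000bc00017f4272ffb95) b56510 (.hit (nat_lit 25) (nat_lit 94) (nat_lit 0x5e0000bc00017f52d2ff595) b56511 (.nil))) (.tok (nat_lit 68) (nat_lit 0x5e0000bc000180978b01ffe) (.hit (nat_lit 26) (nat_lit 95) (nat_lit 0x5e0000bc000180978b01ffe) b56512 (.one (nat_lit 3) (nat_lit 30) (nat_lit 99) (nat_lit 0x5e0000bc00017f71230031e) b56516 (.one (nat_lit 6) (nat_lit 27) (nat_lit 96) (nat_lit 0x5e0000bc00017f4a8affe4b)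 b56513 (.tok (nat_lit 9) (nat_lit 0x5e0000bc00017f5deb000b7) (.hit (nat_lit 28) (nat_lit 97) (nat_lit 0x5e0000bc00017f5deb000b7) b56514 (.hit (nat_lit 29) (nat_lit 98) (nat_lit 0x5e0000bc00017f02daff555) b56515 (.nil))) (.nil))))) (.one (nat_lit 71) (nat_lit 31) (nat_lit 100) (nat_lit 0x5e0000bc00017f6522fef6d) b56517 (.nil)))))))))))))) (.nil)
noncomputable def r83_11 : Rw Blk := .tok (nat_lit 6) (nat_lit 0x5e0000bc00017f9c7b000b1) (.hit (nat_lit 0) (nat_lit 0) (nat_lit 0x5e0000bc00017e5a52fdf3c) b56518 (.tok (nat_lit 14) (nat_lit 0x5e0000bc00017f9c7b000b1) (.hit (nat_lit 21) (nat_lit 61) (nat_lit 0x5e0000bc00017f2a7afea8a) b56519 (.one (nat_lit 3) (nat_lit 22) (nat_lit 62) (nat_lit 0x5e0000bc00017ebf2afe0b5) b56520 (.tok (nat_lit 6) (nat_lit 0x5e0000bc00017ec2dafeb1b) (.hit (nat_lit 25) (nat_lit 65) (nat_lit 0x5e0000bc00017e2c9afe7d6) b56523 (.hit (nat_lit 26) (nat_lit 66) (nat_lit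 0x5e0000bc00017ec2dafeb1b) b56524 (.nil))) (.tok (nat_lit 9) (nat_lit 0x5e0000bc00017f9c7b000b1) (.hit (nat_lit 23) (nat_lit 63) (nat_lit 0x5e0000bc00017f9c7b000b1) b56521 (.hit (nat_lit 24) (nat_lit 64) (nat_lit 0x5e0000bc00017ee6d2fe86f) b56522 (.nil))) (.nil))))) (.one (nat_lit 17) (nat_lit 27) (nat_lit 67) (nat_lit 0x5e0000bc00017e6feafd624) b56525 (.tok (nat_lit 20) (nat_lit 0x5e0000bc00017eb80afe770) (.hit (nat_lit 28) (nat_lit 68) (nat_lit 0x5e0000bc00017eb80afe770) b56526 (.hit (nat_lit 29) (nat_lit 69) (nat_lit 0x5e0000bc00017e567afd492) b56527 (.nil))) (.tok (nat_lit 23) (nat_lit 0x5e0000bc00017e6e9afe057) (.hit (nat_lit 30) (nat_lit 70) (nat_lit 0x5e0000bc00017df0a2fe057) b56528 (.hit (nat_lit 31) (nat_lit 71) (nat_lit 0x5e0000bc00017e6e9afd490) b56529 (.nil))) (.one (nat_lit 26) (nat_lit 32) (nat_lit 72) (nat_lit 0x5e0000bc00017e334afc465) b56530 (.one (nat_lit 29)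 (nat_lit 33) (nat_lit 73) (nat_lit 0x5e0000bc00017e25f2fc4b3) b56531 (.one (nat_lit 32) (nat_lit 34) (nat_lit 74) (nat_lit 0x5e0000bc00017de5b2fc80f) b56532 (.one (nat_lit 35) (nat_lit 35) (nat_lit 75) (nat_lit 0x5e0000bc00017e61dafca21) b56533 (.one (nat_lit 38) (nat_lit 36) (nat_lit 76) (nat_lit 0x5e0000bc00017e4da2fd664) b56534 (.tok (nat_lit 41) (nat_lit 0x5e0000bc00017e3ab2fcd6f) (.hit (nat_lit 37) (nat_lit 77) (nat_lit 0x5e0000bc00017e3ab2fc75d) b56535 (.hit (nat_lit 38) (nat_lit 78) (nat_lit 0x5e0000bc00017e2222fcd6f) b56536 (.nil))) (.tok (nat_lit 44) (nat_lit 0x5e0000bc00017e86e2fcfd9) (.hit (nat_lit 39) (nat_lit 79) (nat_lit 0x5e0000bc00017e86e2fcfd9) b56537 (.hit (nat_lit 40) (nat_lit 80) (nat_lit 0x5e0000bc00017e42d2fca4e) b56538 (.nil))) (.tok (nat_lit 47) (nat_lit 0x5e0000bc00017e7802fccec) (.hit (nat_lit 41) (nat_lit 81) (nat_lit 0x5e0000bc00017cde42fbe0b) b56539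 (.hit (nat_lit 42) (nat_lit 82) (nat_lit 0x5e0000bc00017e7802fccec) b56540 (.nil))) (.one (nat_lit 62) (nat_lit 52) (nat_lit 92) (nat_lit 0x5e0000bc00017e422afcfd2) b56541 (.tok (nat_lit 65) (nat_lit 0x5e0000bc00017e28f2fd685) (.hit (nat_lit 53) (nat_lit 93) (nat_lit 0x5e0000bc00017e024afd685) b56542 (.hit (nat_lit 54) (nat_lit 94) (nat_lit 0x5e0000bc00017e28f2fc839) b56543 (.nil))) (.tok (nat_lit 68) (nat_lit 0x5e0000bc00017e6132fe8f9) (.hit (nat_lit 55) (nat_lit 95) (nat_lit 0x5e0000bc00017e6132fe8f9) b56544 (.one (nat_lit 3) (nat_lit 59) (nat_lit 99) (nat_lit 0x5e0000bc00017de1fafde82) b56548 (.one (nat_lit 6) (nat_lit 56) (nat_lit 96) (nat_lit 0x5e0000bc00017dd6f2fdd21) b56545 (.tok (nat_lit 9) (nat_lit 0x5e0000bc00017dfb6afe1b0) (.hit (nat_lit 57) (nat_lit 97) (nat_lit 0x5e0000bc00017dfb6afe1b0) b56546 (.hit (nat_lit 58) (nat_lit 98) (nat_lit 0x5e0000bc00017de8dafdf5e) b56547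 (.nil))) (.nil))))) (.one (nat_lit 71) (nat_lit 60) (nat_lit 100) (nat_lit 0x5e0000bc00017e4272fc67b) b56549 (.nil)))))))))))))))))) (.tok (nat_lit 52) (nat_lit 0x5e0000bc00017f56ab00ab2) (.hit (nat_lit 176) (nat_lit 0) (nat_lit 0x5e0000bc00017f475b00ab2) b56550 (.tok (nat_lit 6) (nat_lit 0x5e0000bc00017f56ab009ac) (.hit (nat_lit 177) (nat_lit 7) (nat_lit 0x5e0000bc00017f56ab009ac) b56551 (.hit (nat_lit 178) (nat_lit 15) (nat_lit 0x5e0000bc00017ed5a2ff9eb) b56552 (.nil))) (.tok (nat_lit 9) (nat_lit 0x5e0000bc00017f177affc54) (.hit (nat_lit 179) (nat_lit 20) (nat_lit 0x5e0000bc00017ea582ff2f0) b56553 (.hit (nat_lit 180) (nat_lit 28) (nat_lit 0x5e0000bc00017f177affc54) b56554 (.nil))) (.nil)))) (.tok (nat_lit 55) (nat_lit 0x5e0000bc00017f708aff947) (.hit (nat_lit 187) (nat_lit 0) (nat_lit 0x5e0000bc00017f708aff67b) b56555 (.tok (nat_lit 3) (nat_lit 0x5e0000bc00017ed83aff947) (.hit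 (nat_lit 188) (nat_lit 1) (nat_lit 0x5e0000bc00017e6e12fec02) b56556 (.one (nat_lit 67) (nat_lit 189) (nat_lit 2) (nat_lit 0x5e0000bc00017ed83aff947) b56557 (.nil))) (.tok (nat_lit 6) (nat_lit 0x5e0000bc00017e6eaafec15) (.hit (nat_lit 190) (nat_lit 7) (nat_lit 0x5e0000bc00017e550afe8e1) b56558 (.hit (nat_lit 193) (nat_lit 15) (nat_lit 0x5e0000bc00017e6eaafec15) b56559 (.nil))) (.nil)))) (.tok (nat_lit 58) (nat_lit 0x5e0000bc000180000301e40) (.hit (nat_lit 201) (nat_lit 0) (nat_lit 0x5e0000bc00017f084aff348) b56560 (.tok (nat_lit 3) (nat_lit 0x5e0000bc00017f3bab005b5) (.hit (nat_lit 202) (nat_lit 1) (nat_lit 0x5e0000bc00017e7772fed2e) b56561 (.one (nat_lit 55) (nat_lit 203) (nat_lit 3) (nat_lit 0x5e0000bc00017f3bab005b5) b56562 (.nil))) (.tok (nat_lit 9) (nat_lit 0x5e0000bc000180000301e40) (.hit (nat_lit 204) (nat_lit 20) (nat_lit 0x5e0000bc00017eb25aff48b) b56563 (.hit (nat_lit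 207) (nat_lit 28) (nat_lit 0x5e0000bc00017e6812feb42) b56566 (.tok (nat_lit 67) (nat_lit 0x5e0000bc000180000301e40) (.hit (nat_lit 205) (nat_lit 21) (nat_lit 0x5e0000bc00017f178300130) b56564 (.hit (nat_lit 208) (nat_lit 29) (nat_lit 0x5e0000bc00017f360b00501) b56567 (.one (nat_lit 9) (nat_lit 206) (nat_lit 22) (nat_lit 0x5e0000bc000180000301e40) b56565 (.nil)))) (.nil)))) (.nil)))) (.nil))))
noncomputable def r83_12 : Rw Blk := .tok (nat_lit 3) (nat_lit 0x5e0000bc000180d0730223c) (.hit (nat_lit 15) (nat_lit 0) (nat_lit 0x5e0000bc00017f34aafef6b) b56575 (.tok (nat_lit 9) (nat_lit 0x5e0000bc00017ed9baff248) (.hit (nat_lit 16) (nat_lit 20) (nat_lit 0x5e0000bc00017e2b12fdc73) b56576 (.hit (nat_lit 21) (nat_lit 28) (nat_lit 0x5e0000bc00017d254afbbba) b56581 (.tok (nat_lit 14) (nat_lit 0x5e0000bc00017ea6eafebee) (.hit (nat_lit 17) (nat_lit 24) (nat_lit 0x5e0000bc00017e68eafe42e) b56577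 (.hit (nat_lit 22) (nat_lit 30) (nat_lit 0x5e0000bc00017e61c2fe349) b56582 (.one (nat_lit 6) (nat_lit 18) (nat_lit 25) (nat_lit 0x5e0000bc00017ea6eafebee) b56578 (.nil)))) (.tok (nat_lit 68) (nat_lit 0x5e0000bc00017ed9baff248) (.hit (nat_lit 19) (nat_lit 26) (nat_lit 0x5e0000bc00017e884afe81a) b56579 (.hit (nat_lit 24) (nat_lit 32) (nat_lit 0x5e0000bc00017e4912fe033) b56583 (.one (nat_lit 9) (nat_lit 20) (nat_lit 27) (nat_lit 0x5e0000bc00017ed9baff248) b56580 (.nil)))) (.nil))))) (.tok (nat_lit 64) (nat_lit 0x5e0000bc00017ebc1afee94) (.hit (nat_lit 25) (nat_lit 50) (nat_lit 0x5e0000bc00017ebc1afee94) b56584 (.hit (nat_lit 26) (nat_lit 51) (nat_lit 0x5e0000bc00017e98e2fea2d) b56585 (.nil))) (.tok (nat_lit 67) (nat_lit 0x5e0000bc000180d0730223c) (.hit (nat_lit 27) (nat_lit 52) (nat_lit 0x5e0000bc000180d0730223c) b56586 (.tok (nat_lit 3) (nat_lit 0x5e0000bc00017f184affa1a) (.hit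 (nat_lit 33) (nat_lit 58) (nat_lit 0x5e0000bc00017ef542ff5b9) b56592 (.one (nat_lit 55) (nat_lit 34) (nat_lit 59) (nat_lit 0x5e0000bc00017f184affa1a) b56593 (.nil))) (.tok (nat_lit 9) (nat_lit 0x5e0000bc00017f291affc34) (.hit (nat_lit 28) (nat_lit 53) (nat_lit 0x5e0000bc00017ea7c2fec09) b56587 (.hit (nat_lit 31) (nat_lit 56) (nat_lit 0x5e0000bc00017e9332fe977) b56590 (.tok (nat_lit 67) (nat_lit 0x5e0000bc00017f291affc34) (.hit (nat_lit 29) (nat_lit 54) (nat_lit 0x5e0000bc00017f291affc34) b56588 (.hit (nat_lit 32) (nat_lit 57) (nat_lit 0x5e0000bc00017ef362ff57d) b56591 (.one (nat_lit 9) (nat_lit 30) (nat_lit 55) (nat_lit 0x5e0000bc00017eb44afed9a) b56589 (.nil)))) (.nil)))) (.nil)))) (.one (nat_lit 70) (nat_lit 35) (nat_lit 60) (nat_lit 0x5e0000bc00017f17caffa0a) b56594 (.nil)))))) (.tok (nat_lit 6) (nat_lit 0x5e0000bc0001803e2b016d8) (.hit (nat_lit 0) (nat_lit 0) (nat_lit 0x5e0000bc00017f8fbaff9d7)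 b56568 (.tok (nat_lit 6) (nat_lit 0x5e0000bc0001803e2b016d8) (.hit (nat_lit 1) (nat_lit 7) (nat_lit 0x5e0000bc00017f3c02fe6d5) b56569 (.hit (nat_lit 4) (nat_lit 15) (nat_lit 0x5e0000bc00017e7cfafdcdc) b56572 (.tok (nat_lit 14) (nat_lit 0x5e0000bc0001803e2b016d8) (.hit (nat_lit 2) (nat_lit 11) (nat_lit 0x5e0000bc0001803e2b016d8) b56570 (.hit (nat_lit 5) (nat_lit 17) (nat_lit 0x5e0000bc00017f38bafe506) b56573 (.one (nat_lit 9) (nat_lit 3) (nat_lit 12) (nat_lit 0x5e0000bc00017fe7e300cef) b56571 (.nil)))) (.one (nat_lit 68) (nat_lit 6) (nat_lit 18) (nat_lit 0x5e0000bc00017f6d22feb67) b56574 (.nil))))) (.nil))) (.nil))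
noncomputable def r83_13 : Rw Blk := .tok (nat_lit 3) (nat_lit 0xbf6da17f0f3aff11f5fb3a2bfa4657ec4c2fe36f5fea92bfb1dd7f790aff342) (.hit (nat_lit 0) (nat_lit 0) (nat_lit 0xbedaf97e31b2fcea05f806cbf05b17dfd4afc9195fa9b2bf4c797e9b12fd31a) b56595 (.tok (nat_lit 6) (nat_lit 0xbede917e1a3afe96d5f8f80bf20d97e35f2fcb435fc1d0bf41bd7f18fafe515) (.hit (nat_lit 1) (nat_lit 7) (nat_lit 0xbe8d2d7d7772fd3bf5f66cebecf757d932afb6ea5f991ebef0597ddf6afd000) b56596 (.hit (nat_lit 6) (nat_lit 15) (nat_lit 0xbe83717d63fafc8495f61f0bec5b97d7fb2fb47b5f9440bee69d7e744afd06d) b56601 (.tok (nat_lit 14) (nat_lit 0xbed91d7e0f52fe5ab5f8cc6bf1b657e2b0afc9e65fbf16bf3c497ec8eafe0d1) (.hit (nat_lit 2) (nat_lit 11) (nat_lit 0xbea79d7dac52fdbce5f7406bee9e57dc80afbd865fa656bf0ac97e144afd4ed) b56597 (.hit (nat_lit 7) (nat_lit 17) (nat_lit 0xbea3a97da46afd17d5f720cbee5f17dc022fbc895fa45cbf06d57ec8eafd9d6) b56602 (.one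 (nat_lit 9) (nat_lit 3) (nat_lit 12) (nat_lit 0xbed91d7e0f52fe5ab5f8cc6bf1b657e2b0afc9e65fbf16bf3c497e774afe0d1) b56598 (.nil)))) (.tok (nat_lit 56) (nat_lit 0xbede917e1a3afe96d5f8f80bf20d97e35f2fcb435fc1d0bf41bd7ea0eafe515) (.hit (nat_lit 4) (nat_lit 13) (nat_lit 0xbebdf17dd8fafde0f5f7f30bf00397df4b2fc31b5fb180bf211d7e40f2fdbac) b56599 (.hit (nat_lit 9) (nat_lit 19) (nat_lit 0xbead817db81afd3135f76f8beefc97dd3d2fbeff5fa948bf10ad7ea0eafd3f3) b56604 (.one (nat_lit 6) (nat_lit 5) (nat_lit 14) (nat_lit 0xbede917e1a3afe96d5f8f80bf20d97e35f2fcb435fc1d0bf41bd7e8232fe515) b56600 (.nil)))) (.one (nat_lit 68) (nat_lit 8) (nat_lit 18) (nat_lit 0xbed8257e0d62fddfb5f8c4abf1a6d7e291afc9a85fbe9abf3b517f18fafe2f5) b56603 (.nil)))))) (.tok (nat_lit 52) (nat_lit 0xbeb3697dc3eafd9e45f79ecbef5b17ddfa2fc0795fac3cbf16957ed9bafda05) (.hit (nat_lit 19) (nat_lit 39) (nat_lit 0xbea6c17daa9afcca55f7398bee9097dc652fbd4f5fa5e8bf09ed7eb3e2fd6ce)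 b56605 (.hit (nat_lit 20) (nat_lit 40) (nat_lit 0xbeb3697dc3eafd9e45f79ecbef5b17ddfa2fc0795fac3cbf16957ed9bafda05) b56606 (.nil))) (.tok (nat_lit 55) (nat_lit 0xbf6da17f0f3aff11f5fb3a2bfa4657ec4c2fe36f5fea92bfb1dd7f790aff342) (.hit (nat_lit 21) (nat_lit 41) (nat_lit 0xbf6da17ef6a2fef475fa714bfa4657e986afe36f5fea92bfb1dd7f790afeca0) b56607 (.tok (nat_lit 3) (nat_lit 0xbef5e57e48e2ff11f5f9b2abf382d7e649afd1185fcd7abf59117eb0daff342) (.hit (nat_lit 27) (nat_lit 47) (nat_lit 0xbed7497e0baafe4ab5f8bdcbf19917e2762fc9715fbe2cbf3a757e73a2fe4ac) b56613 (.one (nat_lit 67) (nat_lit 28) (nat_lit 48) (nat_lit 0xbef5e57e48e2ff11f5f9b2abf382d7e649afd1185fcd7abf59117eb0daff342) b56614 (.nil))) (.tok (nat_lit 6) (nat_lit 0xbf3ad17f0f3afe9b55fb3a2bf7fb57ec4c2fd8195fdb7cbf75157ee8e2fe9ad) (.hit (nat_lit 22) (nat_lit 42) (nat_lit 0xbf023d7e8fc2fe1845fa528bf55a17e908afce985fc87abf4f117e9cdafdf54)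 b56608 (.hit (nat_lit 25) (nat_lit 45) (nat_lit 0xbed8ad7e0e72fe0785f8c8ebf1af57e2a2afc9ca5fbedebf3bd97e766afe2c2) b56611 (.tok (nat_lit 55) (nat_lit 0xbf3ad17f0f3afe9b55fb3a2bf7fb57ec4c2fd8195fdb7cbf75157ee8e2fe9ad) (.hit (nat_lit 23) (nat_lit 43) (nat_lit 0xbf3ad17f0f3afe27a5fb3a2bf7fb57ec4c2fd8195fdb7cbf75157ee8e2fe579) b56609 (.hit (nat_lit 26) (nat_lit 46) (nat_lit 0xbf02d57e62c2fe9b55fa1a2bf451d7e7e7afd4545fd3f2bf66017ecabafe9ad) b56612 (.one (nat_lit 6) (nat_lit 24) (nat_lit 44) (nat_lit 0xbefc797e560afe1935f9e74bf3ec17e71c2fd2bd5fd0c4bf5fa57ebe02fe02e) b56610 (.nil)))) (.nil)))) (.nil)))) (.one (nat_lit 58) (nat_lit 29) (nat_lit 49) (nat_lit 0xbed4297e056afe0a05f8a4cbf16717e2122fc8a95fbc9cbf37557f5362fe93a) b56615 (.nil)))))) (.tok (nat_lit 9) (nat_lit 0xc0000180000300000600000c0000180000300000600b08c0000180000300000) (.hit (nat_lit 157) (nat_lit 0) (nat_lit 0xbf2c0d7f0642fda7e5fa17abf49f97e8172fd8d85fc71ebf8bd57eef7afdd25)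 b56616 (.tok (nat_lit 9) (nat_lit 0xbf95a57fe162ffc8b5fc468bfaa917f311aff2735fe56abfdc817fa062ff574) (.hit (nat_lit 163) (nat_lit 20) (nat_lit 0xbf04ed7ea67afd28e5f7f4cbf3a157e1ea2fcfb85faf82bf4a3d7e79cafd2ff) b56617 (.hit (nat_lit 171) (nat_lit 28) (nat_lit 0xbece7d7dd27afcf985f4b98bef83d7d230afc0e15f8ceabf1ebd7e612afced9) b56620 (.tok (nat_lit 14) (nat_lit 0xbf95a57fe162ffc8b5fc468bfaa917f311aff2735fe56abfdc817fa062ff574) (.hit (nat_lit 167) (nat_lit 24) (nat_lit 0xbf88557fbf02ffb395fc122bf8ff57f14f2feee15fd518bfca317f664afee8a) b56618 (.hit (nat_lit 173) (nat_lit 30) (nat_lit 0xbf406d7eafaafefa45f8496bf68957e06eafd8775fc09ebf8d697f0b3afdffe) b56621 (.one (nat_lit 6) (nat_lit 168) (nat_lit 25) (nat_lit 0xbf95a57fe162ffc8b5fc468bfaa917f311aff2735fe56abfdc817fa062ff574) b56619 (.nil)))) (.one (nat_lit 56) (nat_lit 174) (nat_lit 31) (nat_lit 0xbf20d97e7dcafe1205f7696bf4d797dceeafd1775faa8cbf5fe57ee06afdc0a)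 b56622 (.nil))))) (.tok (nat_lit 64) (nat_lit 0xbf36757f1cc2fe0f95f85d8bf6b017e0c3afda1d5ff182bfe2bd7f8bfafedc1) (.hit (nat_lit 182) (nat_lit 50) (nat_lit 0xbf2da97f1cc2fdfdb5f85d8bf6b017e0c3afd9195ff182bfe2bd7f8bfafec56) b56623 (.hit (nat_lit 183) (nat_lit 51) (nat_lit 0xbf36757ee822fe0f95f8014bf57217df352fda1d5fe97cbfc4f17ecb3afedc1) b56624 (.nil))) (.tok (nat_lit 67) (nat_lit 0xc0000180000300000600000c0000180000300000600b08c0000180000300000) (.hit (nat_lit 184) (nat_lit 52) (nat_lit 0xbfc011800002ff6e35ff23abff1717fa67affddf5ff52cbff7fd7fd1baff760) b56625 (.tok (nat_lit 3) (nat_lit 0xc000017ff02b00000600000c0000180000300000600b08c0000180000300000) (.hit (nat_lit 190) (nat_lit 58) (nat_lit 0xbf99117f7c5aff4315fdd92bfef917faabafec8f5fe280bfc63d7f68fafed30) b56628 (.one (nat_lit 55) (nat_lit 191) (nat_lit 59) (nat_lit 0xc000017ff02b00000600000c0000180000300000600b08c0000180000300000)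 b56629 (.nil))) (.tok (nat_lit 9) (nat_lit 0xbf8fb17f6982ffca75faa66bfbb7d7edbe2feb605fe440bfd1917ff4c2ff90e) (.hit (nat_lit 185) (nat_lit 53) (nat_lit 0xbf8fb17f302afeb385faa66bfbb7d7edbe2feb605fdde6bfc29d7ff4c2feddd) b56626 (.hit (nat_lit 188) (nat_lit 56) (nat_lit 0xbf5d317f6982ffca75f9b5abf7dc17e655afe3cc5fe440bfd1917f0af2ff90e) b56627 (.nil))) (.nil)))) (.one (nat_lit 70) (nat_lit 192) (nat_lit 60) (nat_lit 0xbf58f97f0d32ff1f55f91e2bf732d7e3aeafe30f5ff85abfca757f967aff12c) b56630 (.nil)))))) (.nil))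
noncomputable def r83_14 : Rw Blk := .tok (nat_lit 6) (nat_lit 0x5e0000bc00017f9b92fefc8) (.hit (nat_lit 51) (nat_lit 0) (nat_lit 0x5e0000bc00017ee012fd8cd) b56631 (.tok (nat_lit 14) (nat_lit 0x5e0000bc00017f3e4afe169) (.hit (nat_lit 62) (nat_lit 61) (nat_lit 0x5e0000bc00017f3e4afdff5) b56632 (.one (nat_lit 3) (nat_lit 63) (nat_lit 62) (nat_lit 0x5e0000bc00017f31a2fd65d) b56633 (.tok (nat_lit 6) (nat_lit 0x5e0000bc00017eeb42fdf31) (.hit (nat_lit 66) (nat_lit 65) (nat_lit 0x5e0000bc00017e9972fdf31) b56636 (.hit (nat_lit 67) (nat_lit 66) (nat_lit 0x5e0000bc00017eeb42fdd73) b56637 (.nil))) (.tok (nat_lit 9) (nat_lit 0x5e0000bc00017f2252fe169) (.hit (nat_lit 64) (nat_lit 63) (nat_lit 0x5e0000bc00017f2252fe169) b56634 (.hit (nat_lit 65) (nat_lit 64) (nat_lit 0x5e0000bc00017ef67afdf27) b56635 (.nil))) (.nil))))) (.one (nat_lit 17) (nat_lit 68) (nat_lit 67) (nat_lit 0x5e0000bc00017ee172fcbcc)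 b56638 (.tok (nat_lit 20) (nat_lit 0x5e0000bc00017f89fafe541) (.hit (nat_lit 69) (nat_lit 68) (nat_lit 0x5e0000bc00017f89fafe541) b56639 (.hit (nat_lit 70) (nat_lit 69) (nat_lit 0x5e0000bc00017eeceafca38) b56640 (.nil))) (.tok (nat_lit 23) (nat_lit 0x5e0000bc00017ed752fcb38) (.hit (nat_lit 71) (nat_lit 70) (nat_lit 0x5e0000bc00017df9aafcb38) b56641 (.hit (nat_lit 72) (nat_lit 71) (nat_lit 0x5e0000bc00017ed752fca38) b56642 (.nil))) (.one (nat_lit 26) (nat_lit 73) (nat_lit 72) (nat_lit 0x5e0000bc00017e5f62fb7c8) b56643 (.one (nat_lit 29) (nat_lit 74) (nat_lit 73) (nat_lit 0x5e0000bc00017e5882fbada) b56644 (.one (nat_lit 32) (nat_lit 75) (nat_lit 74) (nat_lit 0x5e0000bc00017e4caafbdb7) b56645 (.one (nat_lit 35) (nat_lit 76) (nat_lit 75) (nat_lit 0x5e0000bc00017ea122fbdb7) b56646 (.one (nat_lit 50) (nat_lit 84) (nat_lit 83) (nat_lit 0x5e0000bc00017ed40afc57a) b56647 (.tok (nat_lit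 53) (nat_lit 0x5e0000bc00017edb3afce0a) (.hit (nat_lit 85) (nat_lit 84) (nat_lit 0x5e0000bc00017e11aafce0a) b56648 (.hit (nat_lit 86) (nat_lit 85) (nat_lit 0x5e0000bc00017edb3afc2ac) b56649 (.nil))) (.tok (nat_lit 56) (nat_lit 0x5e0000bc00017f9b92fefc8) (.hit (nat_lit 87) (nat_lit 86) (nat_lit 0x5e0000bc00017f96dafeafd) b56650 (.one (nat_lit 3) (nat_lit 91) (nat_lit 90) (nat_lit 0x5e0000bc00017f9b92fe063) b56654 (.tok (nat_lit 6) (nat_lit 0x5e0000bc00017f57b2fdbde) (.hit (nat_lit 89) (nat_lit 88) (nat_lit 0x5e0000bc00017f57b2fdbde) b56652 (.hit (nat_lit 90) (nat_lit 89) (nat_lit 0x5e0000bc00017eff52fcec8) b56653 (.nil))) (.one (nat_lit 9) (nat_lit 88) (nat_lit 87) (nat_lit 0x5e0000bc00017f450afefc8) b56651 (.nil))))) (.one (nat_lit 59) (nat_lit 92) (nat_lit 91) (nat_lit 0x5e0000bc00017e9ff2fb752) b56655 (.one (nat_lit 62) (nat_lit 93) (nat_lit 92) (nat_lit 0x5e0000bc00017e97cafc57a)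 b56656 (.tok (nat_lit 65) (nat_lit 0x5e0000bc00017ed33afd10c) (.hit (nat_lit 94) (nat_lit 93) (nat_lit 0x5e0000bc00017e7112fd10c) b56657 (.hit (nat_lit 95) (nat_lit 94) (nat_lit 0x5e0000bc00017ed33afc705) b56658 (.nil))) (.tok (nat_lit 68) (nat_lit 0x5e0000bc00017ededafdb4e) (.hit (nat_lit 96) (nat_lit 95) (nat_lit 0x5e0000bc00017ededafdb4e) b56659 (.one (nat_lit 3) (nat_lit 100) (nat_lit 99) (nat_lit 0x5e0000bc00017e149afce96) b56663 (.one (nat_lit 6) (nat_lit 97) (nat_lit 96) (nat_lit 0x5e0000bc00017e53f2fd681) b56660 (.tok (nat_lit 9) (nat_lit 0x5e0000bc00017e69b2fd939) (.hit (nat_lit 98) (nat_lit 97) (nat_lit 0x5e0000bc00017e69b2fd939) b56661 (.hit (nat_lit 99) (nat_lit 98) (nat_lit 0x5e0000bc00017e3f5afd3ee) b56662 (.nil))) (.nil))))) (.one (nat_lit 71) (nat_lit 101) (nat_lit 100) (nat_lit 0x5e0000bc00017e9b1afb625) b56664 (.nil)))))))))))))))))) (.tok (nat_lit 52) (nat_lit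 0x5e0000bc00018000030082d) (.hit (nat_lit 225) (nat_lit 0) (nat_lit 0x5e0000bc00017fe7630082d) b56665 (.tok (nat_lit 6) (nat_lit 0x5e0000bc0001800003003c0) (.hit (nat_lit 226) (nat_lit 7) (nat_lit 0x5e0000bc0001800003003c0) b56666 (.hit (nat_lit 227) (nat_lit 15) (nat_lit 0x5e0000bc00017f4752ff04a) b56667 (.nil))) (.tok (nat_lit 9) (nat_lit 0x5e0000bc00017f1d4afee44) (.hit (nat_lit 228) (nat_lit 20) (nat_lit 0x5e0000bc00017e6ec2fe64b) b56668 (.hit (nat_lit 229) (nat_lit 28) (nat_lit 0x5e0000bc00017f1d4afee44) b56669 (.nil))) (.nil)))) (.tok (nat_lit 55) (nat_lit 0x5e0000bc00017f661affb44) (.hit (nat_lit 250) (nat_lit 0) (nat_lit 0x5e0000bc00017f661afe75b) b56678 (.tok (nat_lit 3) (nat_lit 0x5e0000bc00017f168affb44) (.hit (nat_lit 251) (nat_lit 1) (nat_lit 0x5e0000bc00017e3e12fe035) b56679 (.one (nat_lit 67) (nat_lit 252) (nat_lit 2) (nat_lit 0x5e0000bc00017f168affb44) b56680 (.nil)))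 (.tok (nat_lit 6) (nat_lit 0x5e0000bc00017ed372ff2e1) (.hit (nat_lit 253) (nat_lit 7) (nat_lit 0x5e0000bc00017e6e2afe638) b56681 (.hit (nat_lit 256) (nat_lit 15) (nat_lit 0x5e0000bc00017e357afdf22) b56684 (.tok (nat_lit 55) (nat_lit 0x5e0000bc00017ed372ff2e1) (.hit (nat_lit 254) (nat_lit 8) (nat_lit 0x5e0000bc00017e8cc2fea0b) b56682 (.hit (nat_lit 257) (nat_lit 16) (nat_lit 0x5e0000bc00017ed372ff2e1) b56685 (.one (nat_lit 6) (nat_lit 255) (nat_lit 9) (nat_lit 0x5e0000bc00017ebf22ff057) b56683 (.nil)))) (.nil)))) (.nil)))) (.tok (nat_lit 58) (nat_lit 0x5e0000bc00017fb04b00d5e) (.hit (nat_lit 236) (nat_lit 0) (nat_lit 0x5e0000bc00017fb04afed67) b56670 (.tok (nat_lit 3) (nat_lit 0x5e0000bc00017f4aab001c8) (.hit (nat_lit 237) (nat_lit 1) (nat_lit 0x5e0000bc00017e3ac2fdfcb) b56671 (.one (nat_lit 55) (nat_lit 238) (nat_lit 3) (nat_lit 0x5e0000bc00017f4aab001c8) b56672 (.nil))) (.tok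 (nat_lit 9) (nat_lit 0x5e0000bc00017fa75b00d5e) (.hit (nat_lit 239) (nat_lit 20) (nat_lit 0x5e0000bc00017ea44afecfc) b56673 (.hit (nat_lit 242) (nat_lit 28) (nat_lit 0x5e0000bc00017e6a32fe5b9) b56676 (.tok (nat_lit 67) (nat_lit 0x5e0000bc00017fa75b00d5e) (.hit (nat_lit 240) (nat_lit 21) (nat_lit 0x5e0000bc00017efce2ff80f) b56674 (.hit (nat_lit 243) (nat_lit 29) (nat_lit 0x5e0000bc00017f223affcba) b56677 (.one (nat_lit 9) (nat_lit 241) (nat_lit 22) (nat_lit 0x5e0000bc00017fa75b00d5e) b56675 (.nil)))) (.nil)))) (.nil)))) (.nil))))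
noncomputable def r83_15 : Rw Blk := .tok (nat_lit 3) (nat_lit 0x5e0000bc0001803f0b007a1) (.hit (nat_lit 15) (nat_lit 0) (nat_lit 0x5e0000bc00017f23d2ff35a) b56697 (.tok (nat_lit 9) (nat_lit 0x5e0000bc00017e9312ff7e7) (.hit (nat_lit 16) (nat_lit 20) (nat_lit 0x5e0000bc00017dfcbafe51c) b56698 (.hit (nat_lit 21) (nat_lit 28) (nat_lit 0x5e0000bc00017d3eaafcd5a) b56701 (.one (nat_lit 56) (nat_lit 23) (nat_lit 31) (nat_lit 0x5e0000bc00017e3402fec05) b56702 (.tok (nat_lit 68) (nat_lit 0x5e0000bc00017e9312ff7e7) (.hit (nat_lit 19) (nat_lit 26) (nat_lit 0x5e0000bc00017e3ec2fed5d) b56699 (.hit (nat_lit 24) (nat_lit 32) (nat_lit 0x5e0000bc00017e459afee38) b56703 (.one (nat_lit 9) (nat_lit 20) (nat_lit 27) (nat_lit 0x5e0000bc00017e9312ff7e7) b56700 (.nil)))) (.nil))))) (.tok (nat_lit 64) (nat_lit 0x5e0000bc00017e9a3aff8cc) (.hit (nat_lit 25) (nat_lit 50) (nat_lit 0x5e0000bc00017e310afeba6)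 b56704 (.hit (nat_lit 26) (nat_lit 51) (nat_lit 0x5e0000bc00017e9a3aff8cc) b56705 (.nil))) (.tok (nat_lit 67) (nat_lit 0x5e0000bc0001803f0b007a1) (.hit (nat_lit 27) (nat_lit 52) (nat_lit 0x5e0000bc0001803f0b007a1) b56706 (.one (nat_lit 3) (nat_lit 33) (nat_lit 58) (nat_lit 0x5e0000bc00017e9b02ff8e5) b56712 (.tok (nat_lit 9) (nat_lit 0x5e0000bc00017eb0d2ffb9f) (.hit (nat_lit 28) (nat_lit 53) (nat_lit 0x5e0000bc00017e5ffaff184) b56707 (.hit (nat_lit 31) (nat_lit 56) (nat_lit 0x5e0000bc00017e79b2ff4bb) b56710 (.tok (nat_lit 67) (nat_lit 0x5e0000bc00017eb0d2ffb9f) (.hit (nat_lit 29) (nat_lit 54) (nat_lit 0x5e0000bc00017eb0d2ffb9f) b56708 (.hit (nat_lit 32) (nat_lit 57) (nat_lit 0x5e0000bc00017ea8eaffaa2) b56711 (.one (nat_lit 9) (nat_lit 30) (nat_lit 55) (nat_lit 0x5e0000bc00017e5a82ff0d5) b56709 (.nil)))) (.nil)))) (.nil)))) (.one (nat_lit 70) (nat_lit 35) (nat_lit 60) (nat_lit 0x5e0000bc00017e9162ff7b1)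 b56713 (.nil)))))) (.tok (nat_lit 6) (nat_lit 0x5e0000bc000180dceb0320e) (.hit (nat_lit 0) (nat_lit 0) (nat_lit 0x5e0000bc00017fc2730088c) b56686 (.tok (nat_lit 6) (nat_lit 0x5e0000bc00017fb48aff4cf) (.hit (nat_lit 1) (nat_lit 7) (nat_lit 0x5e0000bc00017f0e12fe645) b56687 (.hit (nat_lit 4) (nat_lit 15) (nat_lit 0x5e0000bc00017eb2aafda35) b56688 (.one (nat_lit 68) (nat_lit 6) (nat_lit 18) (nat_lit 0x5e0000bc00017fb48aff4cf) b56689 (.nil)))) (.tok (nat_lit 52) (nat_lit 0x5e0000bc000180557301242) (.hit (nat_lit 7) (nat_lit 39) (nat_lit 0x5e0000bc000180111b010ad) b56690 (.hit (nat_lit 8) (nat_lit 40) (nat_lit 0x5e0000bc000180557301242) b56691 (.nil))) (.tok (nat_lit 55) (nat_lit 0x5e0000bc0001802c4b01593) (.hit (nat_lit 9) (nat_lit 41) (nat_lit 0x5e0000bc0001802c4b01593) b56692 (.one (nat_lit 3) (nat_lit 12) (nat_lit 47) (nat_lit 0x5e0000bc00017ff00b01022) b56695 (.tok (nat_lit 6)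 (nat_lit 0x5e0000bc00017fccb30070e) (.hit (nat_lit 10) (nat_lit 42) (nat_lit 0x5e0000bc00017f62430070e) b56693 (.hit (nat_lit 11) (nat_lit 45) (nat_lit 0x5e0000bc00017fccb300307) b56694 (.nil))) (.nil)))) (.one (nat_lit 58) (nat_lit 14) (nat_lit 49) (nat_lit 0x5e0000bc000180dceb0320e) b56696 (.nil)))))) (.nil))
noncomputable def r83_16 : Rw Blk := .tok (nat_lit 9) (nat_lit 0x2f00005e0000bfee4180a1630033d) (.hit (nat_lit 0) (nat_lit 0) (nat_lit 0x2f00005e0000bf51357eb4e2fd95b) b56714 (.tok (nat_lit 14) (nat_lit 0x2f00005e0000bfe3397f307aff7f8) (.hit (nat_lit 21) (nat_lit 61) (nat_lit 0x2f00005e0000bfb1f97ef0bafe569) b56715 (.one (nat_lit 3) (nat_lit 22) (nat_lit 62) (nat_lit 0x2f00005e0000bfc34d7e92eafe9ba) b56716 (.tok (nat_lit 6) (nat_lit 0x2f00005e0000bfe3397f307aff7f8) (.hit (nat_lit 25) (nat_lit 65) (nat_lit 0x2f00005e0000bfe3397f307aff7f8) b56719 (.hit (nat_lit 26) (nat_lit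 66) (nat_lit 0x2f00005e0000bf6b5d7eb4bafd9ea) b56720 (.nil))) (.tok (nat_lit 9) (nat_lit 0x2f00005e0000bf71617ec24afdeee) (.hit (nat_lit 23) (nat_lit 63) (nat_lit 0x2f00005e0000bee3f97ec24afdb9c) b56717 (.hit (nat_lit 24) (nat_lit 64) (nat_lit 0x2f00005e0000bf71617ec23afdeee) b56718 (.nil))) (.nil))))) (.one (nat_lit 17) (nat_lit 27) (nat_lit 67) (nat_lit 0x2f00005e0000bf8e497e839afd49a) b56721 (.tok (nat_lit 20) (nat_lit 0x2f00005e0000bf4ec97e3c62fcadf) (.hit (nat_lit 28) (nat_lit 68) (nat_lit 0x2f00005e0000bea1057e3c62fcadf) b56722 (.hit (nat_lit 29) (nat_lit 69) (nat_lit 0x2f00005e0000bf4ec97e1ea2fc7f0) b56723 (.nil))) (.tok (nat_lit 23) (nat_lit 0x2f00005e0000bfee4180a1630033d) (.hit (nat_lit 30) (nat_lit 70) (nat_lit 0x2f00005e0000bfee4180a1630033d) b56724 (.hit (nat_lit 31) (nat_lit 71) (nat_lit 0x2f00005e0000bf5a517e44dafcc0f) b56725 (.nil))) (.one (nat_lit 26) (nat_lit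 32) (nat_lit 72) (nat_lit 0x2f00005e0000bf331d7df072fc19b) b56726 (.one (nat_lit 29) (nat_lit 33) (nat_lit 73) (nat_lit 0x2f00005e0000bf48257e2282fce66) b56727 (.one (nat_lit 32) (nat_lit 34) (nat_lit 74) (nat_lit 0x2f00005e0000bf724d7e22c2fcfcc) b56728 (.one (nat_lit 35) (nat_lit 35) (nat_lit 75) (nat_lit 0x2f00005e0000bf14417db87afbaae) b56729 (.one (nat_lit 38) (nat_lit 36) (nat_lit 76) (nat_lit 0x2f00005e0000bf487d7e4cf2fccf1) b56730 (.tok (nat_lit 41) (nat_lit 0x2f00005e0000bf38497e4ec2fce91) (.hit (nat_lit 37) (nat_lit 77) (nat_lit 0x2f00005e0000bf1f0d7db7eafc701) b56731 (.hit (nat_lit 38) (nat_lit 78) (nat_lit 0x2f00005e0000bf38497e4ec2fce91) b56732 (.nil))) (.tok (nat_lit 44) (nat_lit 0x2f00005e0000bf9ccd7e6b22fdb3c) (.hit (nat_lit 39) (nat_lit 79) (nat_lit 0x2f00005e0000be83617e011afc376) b56733 (.hit (nat_lit 40) (nat_lit 80) (nat_lit 0x2f00005e0000bf9ccd7e6b22fdb3c)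 b56734 (.nil))) (.tok (nat_lit 47) (nat_lit 0x2f00005e0000bf75e97e696afd385) (.hit (nat_lit 41) (nat_lit 81) (nat_lit 0x2f00005e0000bf75e97e696afd385) b56735 (.hit (nat_lit 42) (nat_lit 82) (nat_lit 0x2f00005e0000bf46f17dd822fc6e1) b56736 (.nil))) (.one (nat_lit 50) (nat_lit 43) (nat_lit 83) (nat_lit 0x2f00005e0000bf32297e1f3afc73a) b56737 (.tok (nat_lit 53) (nat_lit 0x2f00005e0000bf61697e3342fce62) (.hit (nat_lit 44) (nat_lit 84) (nat_lit 0x2f00005e0000bf61697e3342fce62) b56738 (.hit (nat_lit 45) (nat_lit 85) (nat_lit 0x2f00005e0000bf0c997e2802fc70a) b56739 (.nil))) (.tok (nat_lit 56) (nat_lit 0x2f00005e0000bf2c057ed4aafde26) (.hit (nat_lit 46) (nat_lit 86) (nat_lit 0x2f00005e0000bf2c057ed4aafde26) b56740 (.one (nat_lit 3) (nat_lit 50) (nat_lit 90) (nat_lit 0x2f00005e0000be9f117e387afca62) b56744 (.tok (nat_lit 6) (nat_lit 0x2f00005e0000bee74d7ec8f2fdc71) (.hit (nat_lit 48) (nat_lit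 88) (nat_lit 0x2f00005e0000bee74d7ec8f2fdc71) b56742 (.hit (nat_lit 49) (nat_lit 89) (nat_lit 0x2f00005e0000bec6057e8662fd41f) b56743 (.nil))) (.one (nat_lit 9) (nat_lit 47) (nat_lit 87) (nat_lit 0x2f00005e0000beaf9d7e5992fce85) b56741 (.nil))))) (.one (nat_lit 59) (nat_lit 51) (nat_lit 91) (nat_lit 0x2f00005e0000bf4cc57e0e8afc74d) b56745 (.nil)))))))))))))))))) (.tok (nat_lit 64) (nat_lit 0x2f00005e0000c0000180325b00bbd) (.hit (nat_lit 176) (nat_lit 0) (nat_lit 0x2f00005e0000c0000180325b00bbd) b56746 (.tok (nat_lit 6) (nat_lit 0x2f00005e0000bfa3ad7f48faff661) (.hit (nat_lit 177) (nat_lit 7) (nat_lit 0x2f00005e0000bf554d7f218afe77e) b56747 (.hit (nat_lit 178) (nat_lit 15) (nat_lit 0x2f00005e0000bfa3ad7f48faff661) b56748 (.nil))) (.tok (nat_lit 9) (nat_lit 0x2f00005e0000bfb0697f8abaffc9d) (.hit (nat_lit 179) (nat_lit 20) (nat_lit 0x2f00005e0000bfb0697f8abaffc9d) b56749 (.hit (nat_lit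 180) (nat_lit 28) (nat_lit 0x2f00005e0000bf6ce57f04cafecf3) b56750 (.nil))) (.nil)))) (.tok (nat_lit 67) (nat_lit 0x2f00005e0000bf8aa57f567afee1c) (.hit (nat_lit 201) (nat_lit 0) (nat_lit 0x2f00005e0000bf8aa57f3342fe9b5) b56759 (.tok (nat_lit 3) (nat_lit 0x2f00005e0000bf6fc57f567afee1c) (.hit (nat_lit 202) (nat_lit 1) (nat_lit 0x2f00005e0000bf15357ea15afd778) b56760 (.one (nat_lit 55) (nat_lit 203) (nat_lit 3) (nat_lit 0x2f00005e0000bf6fc57f567afee1c) b56761 (.nil))) (.tok (nat_lit 9) (nat_lit 0x2f00005e0000bf3f497ef582fe1fd) (.hit (nat_lit 204) (nat_lit 20) (nat_lit 0x2f00005e0000bf3f497ef582fe1fd) b56762 (.hit (nat_lit 207) (nat_lit 28) (nat_lit 0x2f00005e0000bf188d7ea80afd84e) b56763 (.nil))) (.nil)))) (.tok (nat_lit 70) (nat_lit 0x2f00005e0000bfc0217ff73300233) (.hit (nat_lit 187) (nat_lit 0) (nat_lit 0x2f00005e0000bf9de17f726afee5a) b56751 (.tok (nat_lit 3) (nat_lit 0x2f00005e0000bf9b857fadfaff90c)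 (.hit (nat_lit 188) (nat_lit 1) (nat_lit 0x2f00005e0000bf35297ee142fdf75) b56752 (.one (nat_lit 67) (nat_lit 189) (nat_lit 2) (nat_lit 0x2f00005e0000bf9b857fadfaff90c) b56753 (.nil))) (.tok (nat_lit 6) (nat_lit 0x2f00005e0000bfc0217ff73300233) (.hit (nat_lit 190) (nat_lit 7) (nat_lit 0x2f00005e0000bf3cf57ef0dafe168) b56754 (.hit (nat_lit 193) (nat_lit 15) (nat_lit 0x2f00005e0000bf3da97ef242fe195) b56757 (.tok (nat_lit 55) (nat_lit 0x2f00005e0000bfc0217ff73300233) (.hit (nat_lit 191) (nat_lit 8) (nat_lit 0x2f00005e0000bf70d17f5892fee5f) b56755 (.hit (nat_lit 194) (nat_lit 16) (nat_lit 0x2f00005e0000bfa6957fc41affbd0) b56758 (.one (nat_lit 6) (nat_lit 192) (nat_lit 9) (nat_lit 0x2f00005e0000bfc0217ff73300233) b56756 (.nil)))) (.nil)))) (.nil)))) (.nil))))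
noncomputable def r83_17 : Rw Blk := .tok (nat_lit 3) (nat_lit 0x2f00005e0000c04e7180cf5301b06) (.hit (nat_lit 15) (nat_lit 0) (nat_lit 0x2f00005e0000c010457fb76b00d2e) b56771 (.tok (nat_lit 6) (nat_lit 0x2f00005e0000bf90dd7f66d2ff6ff) (.hit (nat_lit 16) (nat_lit 7) (nat_lit 0x2f00005e0000bf048d7e53f2fd3eb) b56772 (.hit (nat_lit 21) (nat_lit 15) (nat_lit 0x2f00005e0000bf42057df7fafe067) b56777 (.tok (nat_lit 14) (nat_lit 0x2f00005e0000bf90dd7f33aaff6ff) (.hit (nat_lit 17) (nat_lit 11) (nat_lit 0x2f00005e0000bf49dd7eaed2fe53f) b56773 (.hit (nat_lit 22) (nat_lit 17) (nat_lit 0x2f00005e0000bf70017f33aafeaf4) b56778 (.one (nat_lit 9) (nat_lit 18) (nat_lit 12) (nat_lit 0x2f00005e0000bf90dd7ecc0aff6ff) b56774 (.nil)))) (.tok (nat_lit 56) (nat_lit 0x2f00005e0000bf77317f66d2ff094) (.hit (nat_lit 19) (nat_lit 13) (nat_lit 0x2f00005e0000bf48a97e985afe4f2) b56775 (.hit (nat_lit 24) (nat_lit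 19) (nat_lit 0x2f00005e0000bf61f17f13bafe5aa) b56779 (.one (nat_lit 6) (nat_lit 20) (nat_lit 14) (nat_lit 0x2f00005e0000bf77317f66d2ff094) b56776 (.nil)))) (.nil))))) (.tok (nat_lit 52) (nat_lit 0x2f00005e0000bfac957f6ea2ffe34) (.hit (nat_lit 25) (nat_lit 39) (nat_lit 0x2f00005e0000bf983d7f2bcaff01e) b56780 (.hit (nat_lit 26) (nat_lit 40) (nat_lit 0x2f00005e0000bfac957f6ea2ffe34) b56781 (.nil))) (.tok (nat_lit 55) (nat_lit 0x2f00005e0000c04e7180cf53015d2) (.hit (nat_lit 27) (nat_lit 41) (nat_lit 0x2f00005e0000c04e7180cf53015d2) b56782 (.tok (nat_lit 3) (nat_lit 0x2f00005e0000bfbf757f56d3002a5) (.hit (nat_lit 33) (nat_lit 47) (nat_lit 0x2f00005e0000bf73b17f1552fefb4) b56788 (.one (nat_lit 67) (nat_lit 34) (nat_lit 48) (nat_lit 0x2f00005e0000bfbf757f56d3002a5) b56789 (.nil))) (.tok (nat_lit 6) (nat_lit 0x2f00005e0000bf938d7f6b82ff7ab) (.hit (nat_lit 28) (nat_lit 42) (nat_lit 0x2f00005e0000bf77597f2b4aff09e)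 b56783 (.hit (nat_lit 31) (nat_lit 45) (nat_lit 0x2f00005e0000bf69d17ef462fed3c) b56786 (.tok (nat_lit 55) (nat_lit 0x2f00005e0000bf938d7f6b82ff7ab) (.hit (nat_lit 29) (nat_lit 43) (nat_lit 0x2f00005e0000bf938d7f4bbaff7ab) b56784 (.hit (nat_lit 32) (nat_lit 46) (nat_lit 0x2f00005e0000bf91697f6b82ff722) b56787 (.one (nat_lit 6) (nat_lit 30) (nat_lit 44) (nat_lit 0x2f00005e0000bf65c17ef4eafec38) b56785 (.nil)))) (.nil)))) (.nil)))) (.one (nat_lit 58) (nat_lit 35) (nat_lit 49) (nat_lit 0x2f00005e0000c03e6d7fca4b01b06) b56790 (.nil)))))) (.tok (nat_lit 9) (nat_lit 0x2f00005e0000c03d3d81581b022c0) (.hit (nat_lit 0) (nat_lit 0) (nat_lit 0x2f00005e0000c0173180478b00a19) b56764 (.tok (nat_lit 9) (nat_lit 0x2f00005e0000c03d3d81581b022c0) (.hit (nat_lit 1) (nat_lit 20) (nat_lit 0x2f00005e0000bf55c97f0d5afdad2) b56765 (.hit (nat_lit 4) (nat_lit 28) (nat_lit 0x2f00005e0000bf7b157f2ca2fe3dd)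 b56768 (.tok (nat_lit 14) (nat_lit 0x2f00005e0000c03d3d81581b022c0) (.hit (nat_lit 2) (nat_lit 24) (nat_lit 0x2f00005e0000bfafc97fdf02ff78e) b56766 (.hit (nat_lit 5) (nat_lit 30) (nat_lit 0x2f00005e0000bfe0c17fd0d2ff463) b56769 (.one (nat_lit 6) (nat_lit 3) (nat_lit 25) (nat_lit 0x2f00005e0000c03d3d81581b022c0) b56767 (.nil)))) (.one (nat_lit 56) (nat_lit 6) (nat_lit 31) (nat_lit 0x2f00005e0000c01ed580dc9300d32) b56770 (.nil))))) (.nil))) (.nil))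
noncomputable def r83_18 : Rw Blk := .tok (nat_lit 9) (nat_lit 0x5e0000bc00018238c304f26) (.hit (nat_lit 0) (nat_lit 0) (nat_lit 0x5e0000bc00017fc53b00793) b56791 (.tok (nat_lit 14) (nat_lit 0x5e0000bc0001818d7b031b4) (.hit (nat_lit 1) (nat_lit 61) (nat_lit 0x5e0000bc000180441b0094a) b56792 (.one (nat_lit 3) (nat_lit 2) (nat_lit 62) (nat_lit 0x5e0000bc000180870b008a2) b56793 (.tok (nat_lit 6) (nat_lit 0x5e0000bc0001818d7b031b4) (.hit (nat_lit 5) (nat_lit 65) (nat_lit 0x5e0000bc0001818d7b031b4) b56796 (.hit (nat_lit 6) (nat_lit 66) (nat_lit 0x5e0000bc00017fb972fff87) b56797 (.nil))) (.tok (nat_lit 9) (nat_lit 0x5e0000bc00017f830aff882) (.hit (nat_lit 3) (nat_lit 63) (nat_lit 0x5e0000bc00017f830aff882) b56794 (.hit (nat_lit 4) (nat_lit 64) (nat_lit 0x5e0000bc00017f39caff636) b56795 (.nil))) (.nil))))) (.one (nat_lit 17) (nat_lit 7) (nat_lit 67) (nat_lit 0x5e0000bc00017fa2eafedfb)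 b56798 (.tok (nat_lit 20) (nat_lit 0x5e0000bc00017f6a2aff27a) (.hit (nat_lit 8) (nat_lit 68) (nat_lit 0x5e0000bc00017f3122fee45) b56799 (.hit (nat_lit 9) (nat_lit 69) (nat_lit 0x5e0000bc00017f6a2aff27a) b56800 (.nil))) (.tok (nat_lit 23) (nat_lit 0x5e0000bc00018238c304f26) (.hit (nat_lit 10) (nat_lit 70) (nat_lit 0x5e0000bc00018238c304f26) b56801 (.hit (nat_lit 11) (nat_lit 71) (nat_lit 0x5e0000bc00017f791afe8f9) b56802 (.nil))) (.one (nat_lit 38) (nat_lit 16) (nat_lit 76) (nat_lit 0x5e0000bc00017f3342fe895) b56803 (.tok (nat_lit 41) (nat_lit 0x5e0000bc00017f1272fecba) (.hit (nat_lit 17) (nat_lit 77) (nat_lit 0x5e0000bc00017ecdf2fe8ec) b56804 (.hit (nat_lit 18) (nat_lit 78) (nat_lit 0x5e0000bc00017f1272fecba) b56805 (.nil))) (.tok (nat_lit 44) (nat_lit 0x5e0000bc00017f5ec2febf7) (.hit (nat_lit 19) (nat_lit 79) (nat_lit 0x5e0000bc00017eb40afdea2) b56806 (.hit (nat_lit 20) (nat_lit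 80) (nat_lit 0x5e0000bc00017f5ec2febf7) b56807 (.nil))) (.tok (nat_lit 47) (nat_lit 0x5e0000bc00017f68a2ffc46) (.hit (nat_lit 21) (nat_lit 81) (nat_lit 0x5e0000bc00017f68a2ffc46) b56808 (.hit (nat_lit 22) (nat_lit 82) (nat_lit 0x5e0000bc00017ebf6afe037) b56809 (.nil))) (.one (nat_lit 50) (nat_lit 23) (nat_lit 83) (nat_lit 0x5e0000bc00017ff2faff5ea) b56810 (.tok (nat_lit 53) (nat_lit 0x5e0000bc00017f52f2ff2a3) (.hit (nat_lit 24) (nat_lit 84) (nat_lit 0x5e0000bc00017f4292ff2a3) b56811 (.hit (nat_lit 25) (nat_lit 85) (nat_lit 0x5e0000bc00017f52f2fec00) b56812 (.nil))) (.tok (nat_lit 56) (nat_lit 0x5e0000bc00018097ab01660) (.hit (nat_lit 26) (nat_lit 86) (nat_lit 0x5e0000bc00018097ab01660) b56813 (.one (nat_lit 3) (nat_lit 30) (nat_lit 90) (nat_lit 0x5e0000bc00017f7142ff649) b56817 (.tok (nat_lit 6) (nat_lit 0x5e0000bc00017f5e0aff3e2) (.hit (nat_lit 28) (nat_lit 88) (nat_lit 0x5e0000bc00017f5e0aff3e2)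 b56815 (.hit (nat_lit 29) (nat_lit 89) (nat_lit 0x5e0000bc00017f02fafe880) b56816 (.nil))) (.one (nat_lit 9) (nat_lit 27) (nat_lit 87) (nat_lit 0x5e0000bc00017f4aaaff176) b56814 (.nil))))) (.one (nat_lit 59) (nat_lit 31) (nat_lit 91) (nat_lit 0x5e0000bc00017f6542fe86f) b56818 (.nil)))))))))))))) (.nil)
noncomputable def r83_19 : Rw Blk := .tok (nat_lit 9) (nat_lit 0x5e0000bc00017f9c7aff383) (.hit (nat_lit 0) (nat_lit 0) (nat_lit 0x5e0000bc00017e5a52fd24e) b56819 (.tok (nat_lit 14) (nat_lit 0x5e0000bc00017f9c7aff383) (.hit (nat_lit 21) (nat_lit 61) (nat_lit 0x5e0000bc00017f2a7afdd79) b56820 (.one (nat_lit 3) (nat_lit 22) (nat_lit 62) (nat_lit 0x5e0000bc00017ebf2afd3a4) b56821 (.tok (nat_lit 6) (nat_lit 0x5e0000bc00017f9c7aff383) (.hit (nat_lit 25) (nat_lit 65) (nat_lit 0x5e0000bc00017f9c7aff383) b56824 (.hit (nat_lit 26) (nat_lit 66) (nat_lit 0x5e0000bc00017ee6d2fdb5e) b56825 (.nil)))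 (.tok (nat_lit 9) (nat_lit 0x5e0000bc00017ec2dafde0a) (.hit (nat_lit 23) (nat_lit 63) (nat_lit 0x5e0000bc00017e2c9afdac5) b56822 (.hit (nat_lit 24) (nat_lit 64) (nat_lit 0x5e0000bc00017ec2dafde0a) b56823 (.nil))) (.nil))))) (.one (nat_lit 17) (nat_lit 27) (nat_lit 67) (nat_lit 0x5e0000bc00017e6feafc913) b56826 (.tok (nat_lit 20) (nat_lit 0x5e0000bc00017e6e9afd346) (.hit (nat_lit 28) (nat_lit 68) (nat_lit 0x5e0000bc00017df0a2fd346) b56827 (.hit (nat_lit 29) (nat_lit 69) (nat_lit 0x5e0000bc00017e6e9afc77f) b56828 (.nil))) (.tok (nat_lit 23) (nat_lit 0x5e0000bc00017eb80afda7d) (.hit (nat_lit 30) (nat_lit 70) (nat_lit 0x5e0000bc00017eb80afda7d) b56829 (.hit (nat_lit 31) (nat_lit 71) (nat_lit 0x5e0000bc00017e567afc781) b56830 (.nil))) (.one (nat_lit 26) (nat_lit 32) (nat_lit 72) (nat_lit 0x5e0000bc00017e334afb76a) b56831 (.one (nat_lit 29) (nat_lit 33) (nat_lit 73) (nat_lit 0x5e0000bc00017e25f2fb7b9)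 b56832 (.one (nat_lit 32) (nat_lit 34) (nat_lit 74) (nat_lit 0x5e0000bc00017e61dafbd2e) b56833 (.one (nat_lit 35) (nat_lit 35) (nat_lit 75) (nat_lit 0x5e0000bc00017de5b2fbafe) b56834 (.one (nat_lit 38) (nat_lit 36) (nat_lit 76) (nat_lit 0x5e0000bc00017e4da2fc953) b56835 (.tok (nat_lit 41) (nat_lit 0x5e0000bc00017e3ab2fc05e) (.hit (nat_lit 37) (nat_lit 77) (nat_lit 0x5e0000bc00017e3ab2fba6e) b56836 (.hit (nat_lit 38) (nat_lit 78) (nat_lit 0x5e0000bc00017e2222fc05e) b56837 (.nil))) (.tok (nat_lit 44) (nat_lit 0x5e0000bc00017e7802fbfed) (.hit (nat_lit 39) (nat_lit 79) (nat_lit 0x5e0000bc00017cde42fb0fa) b56838 (.hit (nat_lit 40) (nat_lit 80) (nat_lit 0x5e0000bc00017e7802fbfed) b56839 (.nil))) (.tok (nat_lit 47) (nat_lit 0x5e0000bc00017e86e2fc2dc) (.hit (nat_lit 41) (nat_lit 81) (nat_lit 0x5e0000bc00017e86e2fc2dc) b56840 (.hit (nat_lit 42) (nat_lit 82) (nat_lit 0x5e0000bc00017e42d2fbd3d)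 b56841 (.nil))) (.one (nat_lit 50) (nat_lit 43) (nat_lit 83) (nat_lit 0x5e0000bc00017e422afc2c1) b56842 (.tok (nat_lit 53) (nat_lit 0x5e0000bc00017e28f2fc974) (.hit (nat_lit 44) (nat_lit 84) (nat_lit 0x5e0000bc00017e024afc974) b56843 (.hit (nat_lit 45) (nat_lit 85) (nat_lit 0x5e0000bc00017e28f2fbb38) b56844 (.nil))) (.tok (nat_lit 56) (nat_lit 0x5e0000bc00017e6132fdc0b) (.hit (nat_lit 46) (nat_lit 86) (nat_lit 0x5e0000bc00017e6132fdc0b) b56845 (.one (nat_lit 3) (nat_lit 50) (nat_lit 90) (nat_lit 0x5e0000bc00017de1fafd171) b56849 (.tok (nat_lit 6) (nat_lit 0x5e0000bc00017dfb6afd49f) (.hit (nat_lit 48) (nat_lit 88) (nat_lit 0x5e0000bc00017dfb6afd49f) b56847 (.hit (nat_lit 49) (nat_lit 89) (nat_lit 0x5e0000bc00017de8dafd24d) b56848 (.nil))) (.one (nat_lit 9) (nat_lit 47) (nat_lit 87) (nat_lit 0x5e0000bc00017dd6f2fd010) b56846 (.nil))))) (.one (nat_lit 59) (nat_lit 51) (nat_lit 91)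 (nat_lit 0x5e0000bc00017e4272fb97e) b56850 (.nil)))))))))))))))))) (.tok (nat_lit 64) (nat_lit 0x5e0000bc00017f56aaffdcd) (.hit (nat_lit 176) (nat_lit 0) (nat_lit 0x5e0000bc00017f475affdcd) b56851 (.tok (nat_lit 6) (nat_lit 0x5e0000bc00017f177aff01e) (.hit (nat_lit 177) (nat_lit 7) (nat_lit 0x5e0000bc00017ea582fea3f) b56852 (.hit (nat_lit 178) (nat_lit 15) (nat_lit 0x5e0000bc00017f177aff01e) b56853 (.nil))) (.tok (nat_lit 9) (nat_lit 0x5e0000bc00017f56aaffcc8) (.hit (nat_lit 179) (nat_lit 20) (nat_lit 0x5e0000bc00017f56aaffcc8) b56854 (.hit (nat_lit 180) (nat_lit 28) (nat_lit 0x5e0000bc00017ed5a2fed15) b56855 (.nil))) (.nil)))) (.tok (nat_lit 67) (nat_lit 0x5e0000bc00017f708aff096) (.hit (nat_lit 201) (nat_lit 0) (nat_lit 0x5e0000bc00017f708afed4f) b56864 (.tok (nat_lit 3) (nat_lit 0x5e0000bc00017ed83aff096) (.hit (nat_lit 202) (nat_lit 1) (nat_lit 0x5e0000bc00017e6e12fe351) b56865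 (.one (nat_lit 55) (nat_lit 203) (nat_lit 3) (nat_lit 0x5e0000bc00017ed83aff096) b56866 (.nil))) (.tok (nat_lit 9) (nat_lit 0x5e0000bc00017e6eaafe364) (.hit (nat_lit 204) (nat_lit 20) (nat_lit 0x5e0000bc00017e550afe030) b56867 (.hit (nat_lit 207) (nat_lit 28) (nat_lit 0x5e0000bc00017e6eaafe364) b56868 (.nil))) (.nil)))) (.tok (nat_lit 70) (nat_lit 0x5e0000bc00018000030158f) (.hit (nat_lit 187) (nat_lit 0) (nat_lit 0x5e0000bc00017f084afea97) b56856 (.tok (nat_lit 3) (nat_lit 0x5e0000bc00017f3baaffd04) (.hit (nat_lit 188) (nat_lit 1) (nat_lit 0x5e0000bc00017e7772fe47d) b56857 (.one (nat_lit 67) (nat_lit 189) (nat_lit 2) (nat_lit 0x5e0000bc00017f3baaffd04) b56858 (.nil))) (.tok (nat_lit 6) (nat_lit 0x5e0000bc00018000030158f) (.hit (nat_lit 190) (nat_lit 7) (nat_lit 0x5e0000bc00017eb25afebda) b56859 (.hit (nat_lit 193) (nat_lit 15) (nat_lit 0x5e0000bc00017e6812fe291) b56862 (.tok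 (nat_lit 55) (nat_lit 0x5e0000bc00018000030158f) (.hit (nat_lit 191) (nat_lit 8) (nat_lit 0x5e0000bc00017f1782ff87f) b56860 (.hit (nat_lit 194) (nat_lit 16) (nat_lit 0x5e0000bc00017f360affc50) b56863 (.one (nat_lit 6) (nat_lit 192) (nat_lit 9) (nat_lit 0x5e0000bc00018000030158f) b56861 (.nil)))) (.nil)))) (.nil)))) (.nil))))
noncomputable def r83_20 : Rw Blk := .tok (nat_lit 3) (nat_lit 0x5e0000bc000180cf7b01b67) (.hit (nat_lit 15) (nat_lit 0) (nat_lit 0x5e0000bc00017f33b2feaa9) b56876 (.tok (nat_lit 6) (nat_lit 0x5e0000bc00017ed8c2fed86) (.hit (nat_lit 16) (nat_lit 7) (nat_lit 0x5e0000bc00017e2a1afd7b1) b56877 (.hit (nat_lit 21) (nat_lit 15) (nat_lit 0x5e0000bc00017d2452fb6f8) b56882 (.tok (nat_lit 14) (nat_lit 0x5e0000bc00017ea5f2fe72c) (.hit (nat_lit 17) (nat_lit 11) (nat_lit 0x5e0000bc00017e67f2fdf6c) b56878 (.hit (nat_lit 22) (nat_lit 17) (nat_lit 0x5e0000bc00017e60cafde87)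 b56883 (.one (nat_lit 9) (nat_lit 18) (nat_lit 12) (nat_lit 0x5e0000bc00017ea5f2fe72c) b56879 (.nil)))) (.tok (nat_lit 56) (nat_lit 0x5e0000bc00017ed8c2fed86) (.hit (nat_lit 19) (nat_lit 13) (nat_lit 0x5e0000bc00017e8752fe358) b56880 (.hit (nat_lit 24) (nat_lit 19) (nat_lit 0x5e0000bc00017e481afdb71) b56884 (.one (nat_lit 6) (nat_lit 20) (nat_lit 14) (nat_lit 0x5e0000bc00017ed8c2fed86) b56881 (.nil)))) (.nil))))) (.tok (nat_lit 52) (nat_lit 0x5e0000bc00017ebb22fe9d2) (.hit (nat_lit 25) (nat_lit 39) (nat_lit 0x5e0000bc00017ebb22fe9d2) b56885 (.hit (nat_lit 26) (nat_lit 40) (nat_lit 0x5e0000bc00017e97eafe56b) b56886 (.nil))) (.tok (nat_lit 55) (nat_lit 0x5e0000bc000180cf7b01b67) (.hit (nat_lit 27) (nat_lit 41) (nat_lit 0x5e0000bc000180cf7b01b67) b56887 (.tok (nat_lit 3) (nat_lit 0x5e0000bc00017f1752ff558) (.hit (nat_lit 33) (nat_lit 47) (nat_lit 0x5e0000bc00017ef44aff0f7) b56893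 (.one (nat_lit 67) (nat_lit 34) (nat_lit 48) (nat_lit 0x5e0000bc00017f1752ff558) b56894 (.nil))) (.tok (nat_lit 6) (nat_lit 0x5e0000bc00017f2822ff772) (.hit (nat_lit 28) (nat_lit 42) (nat_lit 0x5e0000bc00017ea6cafe747) b56888 (.hit (nat_lit 31) (nat_lit 45) (nat_lit 0x5e0000bc00017e923afe4b5) b56891 (.tok (nat_lit 55) (nat_lit 0x5e0000bc00017f2822ff772) (.hit (nat_lit 29) (nat_lit 43) (nat_lit 0x5e0000bc00017f2822ff772) b56889 (.hit (nat_lit 32) (nat_lit 46) (nat_lit 0x5e0000bc00017ef26aff0bb) b56892 (.one (nat_lit 6) (nat_lit 30) (nat_lit 44) (nat_lit 0x5e0000bc00017eb352fe8d8) b56890 (.nil)))) (.nil)))) (.nil)))) (.one (nat_lit 58) (nat_lit 35) (nat_lit 49) (nat_lit 0x5e0000bc00017f16d2ff548) b56895 (.nil)))))) (.tok (nat_lit 9) (nat_lit 0x5e0000bc0001803d3301229) (.hit (nat_lit 0) (nat_lit 0) (nat_lit 0x5e0000bc00017f8ec2ff515) b56869 (.tok (nat_lit 9) (nat_lit 0x5e0000bc0001803d3301229)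 (.hit (nat_lit 1) (nat_lit 20) (nat_lit 0x5e0000bc00017f3b0afe11d) b56870 (.hit (nat_lit 4) (nat_lit 28) (nat_lit 0x5e0000bc00017e7c02fd81a) b56873 (.tok (nat_lit 14) (nat_lit 0x5e0000bc0001803d3301229) (.hit (nat_lit 2) (nat_lit 24) (nat_lit 0x5e0000bc0001803d3301229) b56871 (.hit (nat_lit 5) (nat_lit 30) (nat_lit 0x5e0000bc00017f37c2fe061) b56874 (.one (nat_lit 6) (nat_lit 3) (nat_lit 25) (nat_lit 0x5e0000bc00017fe6eb006ef) b56872 (.nil)))) (.one (nat_lit 56) (nat_lit 6) (nat_lit 31) (nat_lit 0x5e0000bc00017f6c2afe6a8) b56875 (.nil))))) (.nil))) (.nil))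
noncomputable def r84_0 : Rw Blk := .tok (nat_lit 6) (nat_lit 0xc00001800003000005fe012bfcded80000300000600000c00001800002ffac4) (.hit (nat_lit 81) (nat_lit 0) (nat_lit 0xbf92e17f5752fe61a5fd954bfcded7ec1cafe6405ff06cbfd5517f9e6afe505) b56896 (.tok (nat_lit 3) (nat_lit 0xbfac2d7f6f82ff6545fbe12bf94957f34c2fea865fd554bfac117f813afea2a) (.hit (nat_lit 82) (nat_lit 1) (nat_lit 0xbf2ecd7e22c2fda725f7c92bf11957dcbb2fcd705f9446bf2a717e7d42fcb03) b56897 (.one (nat_lit 14) (nat_lit 84) (nat_lit 4) (nat_lit 0xbfa2a57f6f82fef925faedabf68d57f0bb2fe7c25fd100bfa3417f6922fe7c8) b56898 (.one (nat_lit 68) (nat_lit 85) (nat_lit 5) (nat_lit 0xbfac2d7f4e8aff6545fbe12bf94957f34c2fea865fd554bfac117f813afea2a) b56899 (.nil)))) (.tok (nat_lit 40) (nat_lit 0xbf9c857f410afee565facd8bf6e617ee802fe8375fc790bf99d57fbfa2fed30) (.hit (nat_lit 100) (nat_lit 33) (nat_lit 0xbf9c857f410afee565facd8bf6e617ee802fe2585fc682bf99d57fbfa2fed30)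 b56900 (.hit (nat_lit 101) (nat_lit 34) (nat_lit 0xbf89dd7edc9afe4345fa536bf53197ea8bafe8375fc790bf8f557f4d3afe71f) b56901 (.nil))) (.tok (nat_lit 43) (nat_lit 0xbfb31d800002ff00c5fcb52bfaf1580000300000600000bff2ed800002ff4be) (.hit (nat_lit 102) (nat_lit 35) (nat_lit 0xbfb31d800002ff00c5fcb52bfaf1580000300000600000bff2ed800002ff4be) b56902 (.hit (nat_lit 103) (nat_lit 36) (nat_lit 0xbf9c897f51dafef0c5fb828bf88c17eec7afe8e85fd4d0bf9fb17f7c02fece7) b56903 (.nil))) (.tok (nat_lit 46) (nat_lit 0xc000017fd533000005fe012bfc6b57f4e32ffad05ff348c000017fc192ffac4) (.hit (nat_lit 104) (nat_lit 37) (nat_lit 0xbf88e97ef252ffb5f5fd71abfc6a57ea91afe3fd5fdba4bfdacd7f34d2fe3d8) b56904 (.hit (nat_lit 105) (nat_lit 38) (nat_lit 0xc000017fd533000005fe012bfc6b57f4e32ffad05ff348c000017fc192ffac4) b56905 (.nil))) (.nil)))))) (.tok (nat_lit 9) (nat_lit 0xc0000180000300000600000c000017ea91afe5315ff64ebff7817fd7ab00000)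 (.hit (nat_lit 157) (nat_lit 0) (nat_lit 0xbf92e17f5752fe61a5fd954bfcdc57e7aa2fe5315fe188bfd6757f7f42fe92c) b56906 (.tok (nat_lit 3) (nat_lit 0xbfac2d7f6f82ff6545fc8a4bfa3c17e44fafd7795fcf36bfa8bd7f7c7afea2a) (.hit (nat_lit 158) (nat_lit 1) (nat_lit 0xbf2ecd7e22c2fda725f8880bf23fd7d3efafb6b95f8eaabf25bd7e7d62fcb03) b56907 (.one (nat_lit 14) (nat_lit 160) (nat_lit 4) (nat_lit 0xbfa2a57f6f82fef925fc3d0bf99b97d931afc13d5fcacabf97957f6972fe7c8) b56908 (.one (nat_lit 56) (nat_lit 162) (nat_lit 6) (nat_lit 0xbfac2d7f4e8aff6545fc8a4bfa3c17e44fafd7795fcf36bfa8bd7f7c7afea2a) b56909 (.nil)))) (.tok (nat_lit 40) (nat_lit 0xbf9c857f410afee565fc362bf9a157de502fcb7a5fc860bf99817f9dbafe931) (.hit (nat_lit 176) (nat_lit 33) (nat_lit 0xbf9c857f410afee565fc362bf9a157de502fcb7a5fc860bf99817f9dbafe931) b56910 (.hit (nat_lit 177) (nat_lit 34) (nat_lit 0xbf89dd7edc9afe4345fbda0bf96517db332fc5405fc0b2bf83217f4d4afe71f)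 b56911 (.nil))) (.tok (nat_lit 43) (nat_lit 0xc000017fd53300000600000c000017ea91afe3fd5ff4cebff7817fb86300000) (.hit (nat_lit 178) (nat_lit 35) (nat_lit 0xbf88e97ef252ffb5f5fd71abfc6a57ea91afe3fd5fdba4bfdacd7f34d2fe3d8) b56904 (.hit (nat_lit 179) (nat_lit 36) (nat_lit 0xc000017fd53300000600000c000017e59b2fda105ff4cebff7817fb86300000) b56912 (.nil))) (.tok (nat_lit 46) (nat_lit 0xbfb31d800002ff00c5fe1ccbfd5e97e79fafde195ff64ebfc8e17fd7aaff4e6) (.hit (nat_lit 180) (nat_lit 37) (nat_lit 0xbfb31d800002ff00c5fe1ccbfd5e97e79fafde195ff64ebfc8e17fd7aaff4e6) b56913 (.hit (nat_lit 181) (nat_lit 38) (nat_lit 0xbf9c897f51dafef0c5fcb02bfad7d7e2d52fd4845fcc9ebf9ce97f7b6afece7) b56914 (.nil))) (.nil)))))) (.nil))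
noncomputable def r84_1 : Rw Blk := .tok (nat_lit 3) (nat_lit 0xbc0001780002fe2db) (.hit (nat_lit 61) (nat_lit 0) (nat_lit 0xbc0001780002fd01a) b56915 (.tok (nat_lit 14) (nat_lit 0xbc0001780002fe2db) (.hit (nat_lit 82) (nat_lit 61) (nat_lit 0xbc0001780002fe2db) b56916 (.one (nat_lit 3) (nat_lit 83) (nat_lit 62) (nat_lit 0xbc0001780002fbd39) b56917 (.tok (nat_lit 6) (nat_lit 0xbc0001780002fc1c4) (.hit (nat_lit 86) (nat_lit 65) (nat_lit 0xbc0001780002fc0e9) b56920 (.hit (nat_lit 87) (nat_lit 66) (nat_lit 0xbc0001780002fc1c4) b56921 (.nil))) (.tok (nat_lit 9) (nat_lit 0xbc0001780002fe0dd) (.hit (nat_lit 84) (nat_lit 63) (nat_lit 0xbc0001780002fe0dd) b56918 (.hit (nat_lit 85) (nat_lit 64) (nat_lit 0xbc0001780002fbff6) b56919 (.nil))) (.nil))))) (.one (nat_lit 17) (nat_lit 88) (nat_lit 67) (nat_lit 0xbc0001780002fb8db) b56922 (.tok (nat_lit 20) (nat_lit 0xbc0001780002fbf04) (.hit (nat_lit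 89) (nat_lit 68) (nat_lit 0xbc0001780002fbf04) b56923 (.hit (nat_lit 90) (nat_lit 69) (nat_lit 0xbc0001780002fb6e4) b56924 (.nil))) (.tok (nat_lit 23) (nat_lit 0xbc0001780002fc529) (.hit (nat_lit 91) (nat_lit 70) (nat_lit 0xbc0001780002fc529) b56925 (.hit (nat_lit 92) (nat_lit 71) (nat_lit 0xbc0001780002fb704) b56926 (.nil))) (.one (nat_lit 26) (nat_lit 93) (nat_lit 72) (nat_lit 0xbc0001780002fa469) b56927 (.one (nat_lit 29) (nat_lit 94) (nat_lit 73) (nat_lit 0xbc0001780002fa6f4) b56928 (.one (nat_lit 32) (nat_lit 95) (nat_lit 74) (nat_lit 0xbc0001780002fb023) b56929 (.one (nat_lit 35) (nat_lit 96) (nat_lit 75) (nat_lit 0xbc0001780002fab15) b56930 (.one (nat_lit 38) (nat_lit 97) (nat_lit 76) (nat_lit 0xbc0001780002fb5fb) b56931 (.tok (nat_lit 41) (nat_lit 0xbc0001780002fb436) (.hit (nat_lit 98) (nat_lit 77) (nat_lit 0xbc0001780002f9dba) b56932 (.hit (nat_lit 99) (nat_lit 78) (nat_lit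 0xbc0001780002fb436) b56933 (.nil))) (.tok (nat_lit 44) (nat_lit 0xbc0001780002fae63) (.hit (nat_lit 100) (nat_lit 79) (nat_lit 0xbc0001780002fa1ce) b56934 (.hit (nat_lit 101) (nat_lit 80) (nat_lit 0xbc0001780002fae63) b56935 (.nil))) (.tok (nat_lit 47) (nat_lit 0xbc0001780002faf50) (.hit (nat_lit 102) (nat_lit 81) (nat_lit 0xbc0001780002fae56) b56936 (.hit (nat_lit 103) (nat_lit 82) (nat_lit 0xbc0001780002faf50) b56937 (.nil))) (.one (nat_lit 62) (nat_lit 113) (nat_lit 92) (nat_lit 0xbc0001780002fbd46) b56938 (.tok (nat_lit 65) (nat_lit 0xbc0001780002fc2ff) (.hit (nat_lit 114) (nat_lit 93) (nat_lit 0xbc0001780002fc2ff) b56939 (.hit (nat_lit 115) (nat_lit 94) (nat_lit 0xbc0001780002fb303) b56940 (.nil))) (.tok (nat_lit 68) (nat_lit 0xbc0001780002fe1f2) (.hit (nat_lit 116) (nat_lit 95) (nat_lit 0xbc0001780002fe1f2) b56941 (.one (nat_lit 3) (nat_lit 120) (nat_lit 99) (nat_lit 0xbc0001780002fc885)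 b56945 (.one (nat_lit 6) (nat_lit 117) (nat_lit 96) (nat_lit 0xbc0001780002fcb8c) b56942 (.tok (nat_lit 9) (nat_lit 0xbc0001780002fd081) (.hit (nat_lit 118) (nat_lit 97) (nat_lit 0xbc0001780002fcbec) b56943 (.hit (nat_lit 119) (nat_lit 98) (nat_lit 0xbc0001780002fd081) b56944 (.nil))) (.nil))))) (.one (nat_lit 71) (nat_lit 121) (nat_lit 100) (nat_lit 0xbc0001780002fa20e) b56946 (.nil)))))))))))))))))) (.tok (nat_lit 40) (nat_lit 0xbc000178000303b23) (.hit (nat_lit 245) (nat_lit 0) (nat_lit 0xbc000178000300b6d) b56947 (.tok (nat_lit 6) (nat_lit 0xbc000178000303b23) (.hit (nat_lit 246) (nat_lit 7) (nat_lit 0xbc000178000303b23) b56948 (.hit (nat_lit 247) (nat_lit 15) (nat_lit 0xbc0001780002ff3fb) b56949 (.nil))) (.tok (nat_lit 9) (nat_lit 0xbc0001780002ff855) (.hit (nat_lit 248) (nat_lit 20) (nat_lit 0xbc0001780002ff855) b56950 (.hit (nat_lit 249) (nat_lit 28) (nat_lit 0xbc0001780002fe328)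 b56951 (.nil))) (.nil)))) (.tok (nat_lit 43) (nat_lit 0xbc000178000302a1c) (.hit (nat_lit 270) (nat_lit 0) (nat_lit 0xbc0001780002ffbf3) b56960 (.tok (nat_lit 3) (nat_lit 0xbc000178000302a1c) (.hit (nat_lit 271) (nat_lit 1) (nat_lit 0xbc0001780002ff337) b56961 (.one (nat_lit 67) (nat_lit 272) (nat_lit 2) (nat_lit 0xbc000178000302a1c) b56962 (.nil))) (.tok (nat_lit 6) (nat_lit 0xbc0001780002feabe) (.hit (nat_lit 273) (nat_lit 7) (nat_lit 0xbc0001780002fe617) b56963 (.hit (nat_lit 276) (nat_lit 15) (nat_lit 0xbc0001780002feabe) b56964 (.nil))) (.nil)))) (.tok (nat_lit 46) (nat_lit 0xbc000178000300850) (.hit (nat_lit 256) (nat_lit 0) (nat_lit 0xbc000178000300850) b56952 (.tok (nat_lit 3) (nat_lit 0xbc0001780002fe97d) (.hit (nat_lit 257) (nat_lit 1) (nat_lit 0xbc0001780002fd18c) b56953 (.one (nat_lit 55) (nat_lit 258) (nat_lit 3) (nat_lit 0xbc0001780002fe97d) b56954 (.nil))) (.tok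 (nat_lit 9) (nat_lit 0xbc0001780002ff662) (.hit (nat_lit 259) (nat_lit 20) (nat_lit 0xbc0001780002fd956) b56955 (.hit (nat_lit 262) (nat_lit 28) (nat_lit 0xbc0001780002fd427) b56958 (.tok (nat_lit 67) (nat_lit 0xbc0001780002ff662) (.hit (nat_lit 260) (nat_lit 21) (nat_lit 0xbc0001780002fef9e) b56956 (.hit (nat_lit 263) (nat_lit 29) (nat_lit 0xbc0001780002ff662) b56959 (.one (nat_lit 9) (nat_lit 261) (nat_lit 22) (nat_lit 0xbc0001780002ff3c5) b56957 (.nil)))) (.nil)))) (.nil)))) (.nil))))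
noncomputable def r84_2 : Rw Blk := .tok (nat_lit 3) (nat_lit 0xbc0001780002fda8e) (.hit (nat_lit 61) (nat_lit 0) (nat_lit 0xbc0001780002fc534) b56965 (.tok (nat_lit 14) (nat_lit 0xbc0001780002fd9dd) (.hit (nat_lit 82) (nat_lit 61) (nat_lit 0xbc0001780002fd6a5) b56966 (.one (nat_lit 3) (nat_lit 83) (nat_lit 62) (nat_lit 0xbc0001780002fc940) b56967 (.tok (nat_lit 6) (nat_lit 0xbc0001780002fd9dd) (.hit (nat_lit 86) (nat_lit 65) (nat_lit 0xbc0001780002fd9dd) b56970 (.hit (nat_lit 87) (nat_lit 66) (nat_lit 0xbc0001780002fc31b) b56971 (.nil))) (.tok (nat_lit 9) (nat_lit 0xbc0001780002fd88c) (.hit (nat_lit 84) (nat_lit 63) (nat_lit 0xbc0001780002fd88c) b56968 (.hit (nat_lit 85) (nat_lit 64) (nat_lit 0xbc0001780002fd2c8) b56969 (.nil))) (.nil))))) (.one (nat_lit 17) (nat_lit 88) (nat_lit 67) (nat_lit 0xbc0001780002fc22c) b56972 (.tok (nat_lit 20) (nat_lit 0xbc0001780002fbc82) (.hit (nat_lit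 89) (nat_lit 68) (nat_lit 0xbc0001780002fbc82) b56973 (.hit (nat_lit 90) (nat_lit 69) (nat_lit 0xbc0001780002fb439) b56974 (.nil))) (.tok (nat_lit 23) (nat_lit 0xbc0001780002fbb7c) (.hit (nat_lit 91) (nat_lit 70) (nat_lit 0xbc0001780002fbb7c) b56975 (.hit (nat_lit 92) (nat_lit 71) (nat_lit 0xbc0001780002fb439) b56974 (.nil))) (.one (nat_lit 26) (nat_lit 93) (nat_lit 72) (nat_lit 0xbc0001780002fa8c1) b56976 (.one (nat_lit 29) (nat_lit 94) (nat_lit 73) (nat_lit 0xbc0001780002fa97d) b56977 (.one (nat_lit 32) (nat_lit 95) (nat_lit 74) (nat_lit 0xbc0001780002fae6a) b56978 (.one (nat_lit 35) (nat_lit 96) (nat_lit 75) (nat_lit 0xbc0001780002fa4b2) b56979 (.one (nat_lit 38) (nat_lit 97) (nat_lit 76) (nat_lit 0xbc0001780002fb562) b56980 (.tok (nat_lit 41) (nat_lit 0xbc0001780002fbd90) (.hit (nat_lit 98) (nat_lit 77) (nat_lit 0xbc0001780002f9a50) b56981 (.hit (nat_lit 99) (nat_lit 78) (nat_lit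 0xbc0001780002fbd90) b56982 (.nil))) (.tok (nat_lit 44) (nat_lit 0xbc0001780002faee7) (.hit (nat_lit 100) (nat_lit 79) (nat_lit 0xbc0001780002fa431) b56983 (.hit (nat_lit 101) (nat_lit 80) (nat_lit 0xbc0001780002faee7) b56984 (.nil))) (.tok (nat_lit 47) (nat_lit 0xbc0001780002fb582) (.hit (nat_lit 102) (nat_lit 81) (nat_lit 0xbc0001780002fa9b3) b56985 (.hit (nat_lit 103) (nat_lit 82) (nat_lit 0xbc0001780002fb582) b56986 (.nil))) (.one (nat_lit 62) (nat_lit 113) (nat_lit 92) (nat_lit 0xbc0001780002fb728) b56987 (.tok (nat_lit 65) (nat_lit 0xbc0001780002fc874) (.hit (nat_lit 114) (nat_lit 93) (nat_lit 0xbc0001780002fc874) b56988 (.hit (nat_lit 115) (nat_lit 94) (nat_lit 0xbc0001780002fb892) b56989 (.nil))) (.tok (nat_lit 68) (nat_lit 0xbc0001780002fda8e) (.hit (nat_lit 116) (nat_lit 95) (nat_lit 0xbc0001780002fd6f9) b56990 (.one (nat_lit 3) (nat_lit 120) (nat_lit 99) (nat_lit 0xbc0001780002fbb5e)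 b56994 (.one (nat_lit 6) (nat_lit 117) (nat_lit 96) (nat_lit 0xbc0001780002fd260) b56991 (.tok (nat_lit 9) (nat_lit 0xbc0001780002fda8e) (.hit (nat_lit 118) (nat_lit 97) (nat_lit 0xbc0001780002fda8e) b56992 (.hit (nat_lit 119) (nat_lit 98) (nat_lit 0xbc0001780002fb4bb) b56993 (.nil))) (.nil))))) (.one (nat_lit 71) (nat_lit 121) (nat_lit 100) (nat_lit 0xbc0001780002fa027) b56995 (.nil)))))))))))))))))) (.tok (nat_lit 40) (nat_lit 0xbc0001780002ff7e2) (.hit (nat_lit 245) (nat_lit 0) (nat_lit 0xbc0001780002ff7e2) b56996 (.tok (nat_lit 6) (nat_lit 0xbc0001780002ff712) (.hit (nat_lit 246) (nat_lit 7) (nat_lit 0xbc0001780002ff712) b56997 (.hit (nat_lit 247) (nat_lit 15) (nat_lit 0xbc0001780002feac0) b56998 (.nil))) (.tok (nat_lit 9) (nat_lit 0xbc0001780002fe615) (.hit (nat_lit 248) (nat_lit 20) (nat_lit 0xbc0001780002fe615) b56999 (.hit (nat_lit 249) (nat_lit 28) (nat_lit 0xbc0001780002fdff6)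 b57000 (.nil))) (.nil)))) (.tok (nat_lit 43) (nat_lit 0xbc0001780003017ac) (.hit (nat_lit 270) (nat_lit 0) (nat_lit 0xbc0001780002ff28a) b57009 (.tok (nat_lit 3) (nat_lit 0xbc0001780003017ac) (.hit (nat_lit 271) (nat_lit 1) (nat_lit 0xbc0001780002fe406) b57010 (.one (nat_lit 67) (nat_lit 272) (nat_lit 2) (nat_lit 0xbc0001780003017ac) b57011 (.nil))) (.tok (nat_lit 6) (nat_lit 0xbc0001780002fe642) (.hit (nat_lit 273) (nat_lit 7) (nat_lit 0xbc0001780002fe642) b57012 (.hit (nat_lit 276) (nat_lit 15) (nat_lit 0xbc0001780002fdd17) b57013 (.nil))) (.nil)))) (.tok (nat_lit 46) (nat_lit 0xbc000178000300bb4) (.hit (nat_lit 256) (nat_lit 0) (nat_lit 0xbc0001780002ff650) b57001 (.tok (nat_lit 3) (nat_lit 0xbc000178000300382) (.hit (nat_lit 257) (nat_lit 1) (nat_lit 0xbc0001780002fe24f) b57002 (.one (nat_lit 55) (nat_lit 258) (nat_lit 3) (nat_lit 0xbc000178000300382) b57003 (.nil))) (.tok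 (nat_lit 9) (nat_lit 0xbc000178000300bb4) (.hit (nat_lit 259) (nat_lit 20) (nat_lit 0xbc0001780002ffe78) b57004 (.hit (nat_lit 262) (nat_lit 28) (nat_lit 0xbc0001780002ff303) b57007 (.tok (nat_lit 67) (nat_lit 0xbc000178000300bb4) (.hit (nat_lit 260) (nat_lit 21) (nat_lit 0xbc0001780003007eb) b57005 (.hit (nat_lit 263) (nat_lit 29) (nat_lit 0xbc0001780003009f7) b57008 (.one (nat_lit 9) (nat_lit 261) (nat_lit 22) (nat_lit 0xbc000178000300bb4) b57006 (.nil)))) (.nil)))) (.nil)))) (.nil))))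
noncomputable def r84_3 : Rw Blk := .tok (nat_lit 3) (nat_lit 0xbc0001780002ff068) (.hit (nat_lit 61) (nat_lit 0) (nat_lit 0xbc0001780002fdda7) b57014 (.tok (nat_lit 14) (nat_lit 0xbc0001780002ff068) (.hit (nat_lit 82) (nat_lit 61) (nat_lit 0xbc0001780002ff068) b57015 (.one (nat_lit 3) (nat_lit 83) (nat_lit 62) (nat_lit 0xbc0001780002fcac6) b57016 (.tok (nat_lit 6) (nat_lit 0xbc0001780002fee6a) (.hit (nat_lit 86) (nat_lit 65) (nat_lit 0xbc0001780002fee6a) b57019 (.hit (nat_lit 87) (nat_lit 66) (nat_lit 0xbc0001780002fcd83) b57020 (.nil))) (.tok (nat_lit 9) (nat_lit 0xbc0001780002fcf51) (.hit (nat_lit 84) (nat_lit 63) (nat_lit 0xbc0001780002fce76) b57017 (.hit (nat_lit 85) (nat_lit 64) (nat_lit 0xbc0001780002fcf51) b57018 (.nil))) (.nil))))) (.one (nat_lit 17) (nat_lit 88) (nat_lit 67) (nat_lit 0xbc0001780002fc668) b57021 (.tok (nat_lit 20) (nat_lit 0xbc0001780002fd2b6) (.hit (nat_lit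 89) (nat_lit 68) (nat_lit 0xbc0001780002fd2b6) b57022 (.hit (nat_lit 90) (nat_lit 69) (nat_lit 0xbc0001780002fc491) b57023 (.nil))) (.tok (nat_lit 23) (nat_lit 0xbc0001780002fcc91) (.hit (nat_lit 91) (nat_lit 70) (nat_lit 0xbc0001780002fcc91) b57024 (.hit (nat_lit 92) (nat_lit 71) (nat_lit 0xbc0001780002fc471) b57025 (.nil))) (.one (nat_lit 26) (nat_lit 93) (nat_lit 72) (nat_lit 0xbc0001780002fb1f6) b57026 (.one (nat_lit 29) (nat_lit 94) (nat_lit 73) (nat_lit 0xbc0001780002fb481) b57027 (.one (nat_lit 32) (nat_lit 95) (nat_lit 74) (nat_lit 0xbc0001780002fb8a2) b57028 (.one (nat_lit 35) (nat_lit 96) (nat_lit 75) (nat_lit 0xbc0001780002fbdb0) b57029 (.one (nat_lit 38) (nat_lit 97) (nat_lit 76) (nat_lit 0xbc0001780002fc388) b57030 (.tok (nat_lit 41) (nat_lit 0xbc0001780002fc1c3) (.hit (nat_lit 98) (nat_lit 77) (nat_lit 0xbc0001780002fab47) b57031 (.hit (nat_lit 99) (nat_lit 78) (nat_lit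 0xbc0001780002fc1c3) b57032 (.nil))) (.tok (nat_lit 44) (nat_lit 0xbc0001780002fbcdd) (.hit (nat_lit 100) (nat_lit 79) (nat_lit 0xbc0001780002fbbe3) b57033 (.hit (nat_lit 101) (nat_lit 80) (nat_lit 0xbc0001780002fbcdd) b57034 (.nil))) (.tok (nat_lit 47) (nat_lit 0xbc0001780002fbbf0) (.hit (nat_lit 102) (nat_lit 81) (nat_lit 0xbc0001780002faf5b) b57035 (.hit (nat_lit 103) (nat_lit 82) (nat_lit 0xbc0001780002fbbf0) b57036 (.nil))) (.one (nat_lit 50) (nat_lit 104) (nat_lit 83) (nat_lit 0xbc0001780002fcad3) b57037 (.tok (nat_lit 53) (nat_lit 0xbc0001780002fd08c) (.hit (nat_lit 105) (nat_lit 84) (nat_lit 0xbc0001780002fd08c) b57038 (.hit (nat_lit 106) (nat_lit 85) (nat_lit 0xbc0001780002fc090) b57039 (.nil))) (.tok (nat_lit 56) (nat_lit 0xbc0001780002fef7f) (.hit (nat_lit 107) (nat_lit 86) (nat_lit 0xbc0001780002fef7f) b57040 (.one (nat_lit 3) (nat_lit 111) (nat_lit 90) (nat_lit 0xbc0001780002fd612)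 b57044 (.tok (nat_lit 6) (nat_lit 0xbc0001780002fde0e) (.hit (nat_lit 109) (nat_lit 88) (nat_lit 0xbc0001780002fd979) b57042 (.hit (nat_lit 110) (nat_lit 89) (nat_lit 0xbc0001780002fde0e) b57043 (.nil))) (.one (nat_lit 9) (nat_lit 108) (nat_lit 87) (nat_lit 0xbc0001780002fd919) b57041 (.nil))))) (.one (nat_lit 59) (nat_lit 112) (nat_lit 91) (nat_lit 0xbc0001780002faf9b) b57045 (.nil)))))))))))))))))) (.tok (nat_lit 40) (nat_lit 0xbc0001780003048b0) (.hit (nat_lit 221) (nat_lit 0) (nat_lit 0xbc0001780003018fa) b57046 (.tok (nat_lit 6) (nat_lit 0xbc0001780003005e2) (.hit (nat_lit 222) (nat_lit 7) (nat_lit 0xbc0001780003005e2) b57047 (.hit (nat_lit 223) (nat_lit 15) (nat_lit 0xbc0001780002ff0b5) b57048 (.nil))) (.tok (nat_lit 9) (nat_lit 0xbc0001780003048b0) (.hit (nat_lit 224) (nat_lit 20) (nat_lit 0xbc0001780003048b0) b57049 (.hit (nat_lit 225) (nat_lit 28) (nat_lit 0xbc000178000300188)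 b57050 (.nil))) (.nil)))) (.tok (nat_lit 43) (nat_lit 0xbc0001780003015dd) (.hit (nat_lit 232) (nat_lit 0) (nat_lit 0xbc0001780003015dd) b57051 (.tok (nat_lit 3) (nat_lit 0xbc0001780002ff70a) (.hit (nat_lit 233) (nat_lit 1) (nat_lit 0xbc0001780002fdf19) b57052 (.one (nat_lit 67) (nat_lit 234) (nat_lit 2) (nat_lit 0xbc0001780002ff70a) b57053 (.nil))) (.tok (nat_lit 6) (nat_lit 0xbc0001780003003ef) (.hit (nat_lit 235) (nat_lit 7) (nat_lit 0xbc0001780002fe6e3) b57054 (.hit (nat_lit 238) (nat_lit 15) (nat_lit 0xbc0001780002fe1b4) b57057 (.tok (nat_lit 55) (nat_lit 0xbc0001780003003ef) (.hit (nat_lit 236) (nat_lit 8) (nat_lit 0xbc0001780002ffd2b) b57055 (.hit (nat_lit 239) (nat_lit 16) (nat_lit 0xbc0001780003003ef) b57058 (.one (nat_lit 6) (nat_lit 237) (nat_lit 9) (nat_lit 0xbc000178000300152) b57056 (.nil)))) (.nil)))) (.nil)))) (.tok (nat_lit 46) (nat_lit 0xbc0001780003037a9) (.hit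 (nat_lit 246) (nat_lit 0) (nat_lit 0xbc000178000300980) b57059 (.tok (nat_lit 3) (nat_lit 0xbc0001780003037a9) (.hit (nat_lit 247) (nat_lit 1) (nat_lit 0xbc0001780003000c4) b57060 (.one (nat_lit 55) (nat_lit 248) (nat_lit 3) (nat_lit 0xbc0001780003037a9) b57061 (.nil))) (.tok (nat_lit 9) (nat_lit 0xbc0001780002ff84b) (.hit (nat_lit 249) (nat_lit 20) (nat_lit 0xbc0001780002ff3a4) b57062 (.hit (nat_lit 252) (nat_lit 28) (nat_lit 0xbc0001780002ff84b) b57063 (.nil))) (.nil)))) (.nil))))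
noncomputable def r84_4 : Rw Blk := .tok (nat_lit 3) (nat_lit 0xbc0001780002fe04c) (.hit (nat_lit 61) (nat_lit 0) (nat_lit 0xbc0001780002fcaf2) b57064 (.tok (nat_lit 14) (nat_lit 0xbc0001780002fdf9b) (.hit (nat_lit 82) (nat_lit 61) (nat_lit 0xbc0001780002fdc63) b57065 (.one (nat_lit 3) (nat_lit 83) (nat_lit 62) (nat_lit 0xbc0001780002fcefe) b57066 (.tok (nat_lit 6) (nat_lit 0xbc0001780002fde4a) (.hit (nat_lit 86) (nat_lit 65) (nat_lit 0xbc0001780002fde4a) b57069 (.hit (nat_lit 87) (nat_lit 66) (nat_lit 0xbc0001780002fd886) b57070 (.nil))) (.tok (nat_lit 9) (nat_lit 0xbc0001780002fdf9b) (.hit (nat_lit 84) (nat_lit 63) (nat_lit 0xbc0001780002fdf9b) b57067 (.hit (nat_lit 85) (nat_lit 64) (nat_lit 0xbc0001780002fc8d9) b57068 (.nil))) (.nil))))) (.one (nat_lit 17) (nat_lit 88) (nat_lit 67) (nat_lit 0xbc0001780002fc7ea) b57071 (.tok (nat_lit 20) (nat_lit 0xbc0001780002fc13a) (.hit (nat_lit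 89) (nat_lit 68) (nat_lit 0xbc0001780002fc13a) b57072 (.hit (nat_lit 90) (nat_lit 69) (nat_lit 0xbc0001780002fb9f7) b57073 (.nil))) (.tok (nat_lit 23) (nat_lit 0xbc0001780002fc240) (.hit (nat_lit 91) (nat_lit 70) (nat_lit 0xbc0001780002fc240) b57074 (.hit (nat_lit 92) (nat_lit 71) (nat_lit 0xbc0001780002fb9f7) b57073 (.nil))) (.one (nat_lit 26) (nat_lit 93) (nat_lit 72) (nat_lit 0xbc0001780002fae7f) b57075 (.one (nat_lit 29) (nat_lit 94) (nat_lit 73) (nat_lit 0xbc0001780002faf3b) b57076 (.one (nat_lit 32) (nat_lit 95) (nat_lit 74) (nat_lit 0xbc0001780002faa70) b57077 (.one (nat_lit 35) (nat_lit 96) (nat_lit 75) (nat_lit 0xbc0001780002fb428) b57078 (.one (nat_lit 38) (nat_lit 97) (nat_lit 76) (nat_lit 0xbc0001780002fbb20) b57079 (.tok (nat_lit 41) (nat_lit 0xbc0001780002fc34e) (.hit (nat_lit 98) (nat_lit 77) (nat_lit 0xbc0001780002fa00e) b57080 (.hit (nat_lit 99) (nat_lit 78) (nat_lit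 0xbc0001780002fc34e) b57081 (.nil))) (.tok (nat_lit 44) (nat_lit 0xbc0001780002fbb40) (.hit (nat_lit 100) (nat_lit 79) (nat_lit 0xbc0001780002faf71) b57082 (.hit (nat_lit 101) (nat_lit 80) (nat_lit 0xbc0001780002fbb40) b57083 (.nil))) (.tok (nat_lit 47) (nat_lit 0xbc0001780002fb4a5) (.hit (nat_lit 102) (nat_lit 81) (nat_lit 0xbc0001780002fa9ef) b57084 (.hit (nat_lit 103) (nat_lit 82) (nat_lit 0xbc0001780002fb4a5) b57085 (.nil))) (.one (nat_lit 50) (nat_lit 104) (nat_lit 83) (nat_lit 0xbc0001780002fbce6) b57086 (.tok (nat_lit 53) (nat_lit 0xbc0001780002fce32) (.hit (nat_lit 105) (nat_lit 84) (nat_lit 0xbc0001780002fce32) b57087 (.hit (nat_lit 106) (nat_lit 85) (nat_lit 0xbc0001780002fbe50) b57088 (.nil))) (.tok (nat_lit 56) (nat_lit 0xbc0001780002fe04c) (.hit (nat_lit 107) (nat_lit 86) (nat_lit 0xbc0001780002fdcb7) b57089 (.one (nat_lit 3) (nat_lit 111) (nat_lit 90) (nat_lit 0xbc0001780002fc11c)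 b57093 (.tok (nat_lit 6) (nat_lit 0xbc0001780002fe04c) (.hit (nat_lit 109) (nat_lit 88) (nat_lit 0xbc0001780002fe04c) b57091 (.hit (nat_lit 110) (nat_lit 89) (nat_lit 0xbc0001780002fba79) b57092 (.nil))) (.one (nat_lit 9) (nat_lit 108) (nat_lit 87) (nat_lit 0xbc0001780002fd81e) b57090 (.nil))))) (.one (nat_lit 59) (nat_lit 112) (nat_lit 91) (nat_lit 0xbc0001780002fa5e5) b57094 (.nil)))))))))))))))))) (.tok (nat_lit 40) (nat_lit 0xbc0001780002ffda0) (.hit (nat_lit 221) (nat_lit 0) (nat_lit 0xbc0001780002ffda0) b57095 (.tok (nat_lit 6) (nat_lit 0xbc0001780002febd3) (.hit (nat_lit 222) (nat_lit 7) (nat_lit 0xbc0001780002febd3) b57096 (.hit (nat_lit 223) (nat_lit 15) (nat_lit 0xbc0001780002fe5b4) b57097 (.nil))) (.tok (nat_lit 9) (nat_lit 0xbc0001780002ffcd0) (.hit (nat_lit 224) (nat_lit 20) (nat_lit 0xbc0001780002ffcd0) b57098 (.hit (nat_lit 225) (nat_lit 28) (nat_lit 0xbc0001780002ff07e)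 b57099 (.nil))) (.nil)))) (.tok (nat_lit 43) (nat_lit 0xbc000178000301172) (.hit (nat_lit 232) (nat_lit 0) (nat_lit 0xbc0001780002ffc0e) b57100 (.tok (nat_lit 3) (nat_lit 0xbc000178000300940) (.hit (nat_lit 233) (nat_lit 1) (nat_lit 0xbc0001780002fe80d) b57101 (.one (nat_lit 67) (nat_lit 234) (nat_lit 2) (nat_lit 0xbc000178000300940) b57102 (.nil))) (.tok (nat_lit 6) (nat_lit 0xbc000178000301172) (.hit (nat_lit 235) (nat_lit 7) (nat_lit 0xbc000178000300436) b57103 (.hit (nat_lit 238) (nat_lit 15) (nat_lit 0xbc0001780002ff8c1) b57106 (.tok (nat_lit 55) (nat_lit 0xbc000178000301172) (.hit (nat_lit 236) (nat_lit 8) (nat_lit 0xbc000178000300da9) b57104 (.hit (nat_lit 239) (nat_lit 16) (nat_lit 0xbc000178000300fb5) b57107 (.one (nat_lit 6) (nat_lit 237) (nat_lit 9) (nat_lit 0xbc000178000301172) b57105 (.nil)))) (.nil)))) (.nil)))) (.tok (nat_lit 46) (nat_lit 0xbc000178000301d6a) (.hit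 (nat_lit 246) (nat_lit 0) (nat_lit 0xbc0001780002ff848) b57108 (.tok (nat_lit 3) (nat_lit 0xbc000178000301d6a) (.hit (nat_lit 247) (nat_lit 1) (nat_lit 0xbc0001780002fe9c4) b57109 (.one (nat_lit 55) (nat_lit 248) (nat_lit 3) (nat_lit 0xbc000178000301d6a) b57110 (.nil))) (.tok (nat_lit 9) (nat_lit 0xbc0001780002fec00) (.hit (nat_lit 249) (nat_lit 20) (nat_lit 0xbc0001780002fec00) b57111 (.hit (nat_lit 252) (nat_lit 28) (nat_lit 0xbc0001780002fe2d5) b57112 (.nil))) (.nil)))) (.nil))))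
noncomputable def r84_5 : Rw Blk := .tok (nat_lit 3) (nat_lit 0xbede917e106afe3705f96e6bf1a857e2fe2fc1995f8e64bf03217e4d0afcbb9) (.hit (nat_lit 0) (nat_lit 0) (nat_lit 0xbedaf97e106afc8a35f8a80bef8f17e2a52fbf6e5f8e64bf03217e1512fc3a1) b57113 (.tok (nat_lit 6) (nat_lit 0xbede917df8f2fe3705f96e6bf1a857e2fe2fc1995f7ca4befed17e4d0afcbb9) (.hit (nat_lit 1) (nat_lit 7) (nat_lit 0xbe8d2d7d562afcdc25f6e34bec9217d8d1afad405f53f2bead6d7daa42fb760) b57114 (.hit (nat_lit 6) (nat_lit 15) (nat_lit 0xbe83717d42b2fc24c5f6956bebf657d79a2faad15f4f14bea3b17d96cafb4f1) b57119 (.tok (nat_lit 14) (nat_lit 0xbed91d7dee0afdfae5f942cbf15117e24fafc03c5f79eabef95d7e4222fca5c) (.hit (nat_lit 2) (nat_lit 11) (nat_lit 0xbea79d7d8b0afd5d15f7b6cbee3917dc1fafb3dc5f612abec7dd7ddf22fbdfc) b57115 (.hit (nat_lit 7) (nat_lit 17) (nat_lit 0xbea3a97d8322fcb805f7972bedf9d7dba12fb2df5f5f30bec3e97dd73afbcff) b57120 (.one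 (nat_lit 9) (nat_lit 3) (nat_lit 12) (nat_lit 0xbed91d7dee0afdfae5f942cbf15117e24fafc03c5f79eabef95d7e4222fca5c) b57116 (.nil)))) (.tok (nat_lit 56) (nat_lit 0xbede917df8f2fe3705f96e6bf1a857e2fe2fc1995f7ca4befed17e4d0afcbb9) (.hit (nat_lit 4) (nat_lit 13) (nat_lit 0xbebdf17db7b2fd8125f8696bef9e57deea2fb9715f6c54bede317e0bcafc391) b57117 (.hit (nat_lit 9) (nat_lit 19) (nat_lit 0xbead817d96d2fcd165f7e5ebee9757dcdc2fb5555f641cbecdc17deaeafbf75) b57122 (.one (nat_lit 6) (nat_lit 5) (nat_lit 14) (nat_lit 0xbede917df8f2fe3705f96e6bf1a857e2fe2fc1995f7ca4befed17e4d0afcbb9) b57118 (.nil)))) (.one (nat_lit 68) (nat_lit 8) (nat_lit 18) (nat_lit 0xbed8257dec1afd7fe5f93b0bf14197e230afbffe5f796ebef8657e4032fca1e) b57121 (.nil)))))) (.nil))) (.tok (nat_lit 9) (nat_lit 0xc0000180000300000600000c0000180000300000600b74c00f5580000300000) (.hit (nat_lit 157) (nat_lit 0) (nat_lit 0xbf2c0d7ee4fafd4815faa98bf47617ed862fd6695fc4d6bf81497ea1eafd6f7)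 b57123 (.tok (nat_lit 9) (nat_lit 0xbf95a57fc01aff68e5fe0d2bf87817f8b12feccb5fe5b4bfd7957f0aa2fe2c9) (.hit (nat_lit 163) (nat_lit 20) (nat_lit 0xbf04ed7e8532fcc915f970ebefb017e9fe2fd00c5fb1febf58597e03d2fc292) b57124 (.hit (nat_lit 171) (nat_lit 28) (nat_lit 0xbece7d7db132fc99b5f57a8be9bd57df03afbabe5f774cbed8d17d446afab29) b57129 (.tok (nat_lit 14) (nat_lit 0xbf95a57fc01aff68e5fe0d2bf87817f8b12feccb5fe5b4bfd7957f0aa2fe2c9) (.hit (nat_lit 167) (nat_lit 24) (nat_lit 0xbf88557f9dbaff53c5fe0d2bf87817f2b02fe5255fd558bfa8a97edda2fdc25) b57125 (.hit (nat_lit 173) (nat_lit 30) (nat_lit 0xbf406d7e8e62fe9a75f9120bf0ccd7ebcd2fd19e5faed6bf48597e2802fc78b) b57130 (.one (nat_lit 6) (nat_lit 168) (nat_lit 25) (nat_lit 0xbf95a57fc01aff68e5fd4f0bf7ce97f8b12feccb5fe5b4bfd7957f0aa2fe2c9) b57126 (.nil)))) (.tok (nat_lit 68) (nat_lit 0xbf6b2d7f7742fe6c75fba5abf53357f2722fdee35fcbbabf8e397eb21afd538)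 (.hit (nat_lit 169) (nat_lit 26) (nat_lit 0xbf6b2d7f3bcafe6195fba5abf53357f2722fdee35fcbbabf8e397eb21afd538) b57127 (.hit (nat_lit 175) (nat_lit 32) (nat_lit 0xbf22197e588afd33f5f830abeee797e8032fc9ed5f9fdabf2a517deb5afbff6) b57131 (.one (nat_lit 9) (nat_lit 170) (nat_lit 27) (nat_lit 0xbf43797f7742fe6c75fa7eabf3c8d7f0a32fd8f25fc6d6bf88f97e911afd43b) b57128 (.nil)))) (.nil))))) (.tok (nat_lit 64) (nat_lit 0xbf36757efb7afdafc5f91bcbf0f557f1d0afddd85fb2d4bf4d057e2f92fc82d) (.hit (nat_lit 182) (nat_lit 50) (nat_lit 0xbf2da97efb7afd9de5f91bcbf0f557f1d0afddd85fb2d4bf4d057e2f92fc82d) b57132 (.hit (nat_lit 183) (nat_lit 51) (nat_lit 0xbf36757ec6dafdafc5f8d44bf04257e7feafcc515fa444bf2e117e1452fc527) b57133 (.nil))) (.tok (nat_lit 67) (nat_lit 0xc0000180000300000600000c0000180000300000600b74c00f5580000300000) (.hit (nat_lit 184) (nat_lit 52) (nat_lit 0xbfc0117fdebaff0e65fe060bfb64d7faf2aff6265ffd56bfff017f7f12ff10f)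 b57134 (.tok (nat_lit 3) (nat_lit 0xc000017fcee2ffa03600000c000017fe462ffe72600b74c00f5580000300000) (.hit (nat_lit 190) (nat_lit 58) (nat_lit 0xbf99117f5b12fee345fdb52bfb0857fd41affd44600b74c00f557f792afef60) b57140 (.one (nat_lit 55) (nat_lit 191) (nat_lit 59) (nat_lit 0xc000017fcee2ffa03600000c000017fe462ffe726004a8c0062980000300000) b57141 (.nil))) (.tok (nat_lit 9) (nat_lit 0xbfe639800003000005fcf72bf8ccd800003000005fe9c4bfd87d7f5b22feb61) (.hit (nat_lit 185) (nat_lit 53) (nat_lit 0xbf8fb17f0ee2fe53b5fb64abf58717f65a2fe8935fb578bf6a1d7ed082fda79) b57135 (.hit (nat_lit 188) (nat_lit 56) (nat_lit 0xbf5d317f483aff6aa5fa2c0bf32397ec1d2fd71f5fb56ebf66e17e7c72fd1a6) b57138 (.tok (nat_lit 67) (nat_lit 0xbfe639800003000005fcf72bf8ccd800003000005fe9c4bfd87d7f5b22feb61) (.hit (nat_lit 186) (nat_lit 54) (nat_lit 0xbfe6397fcca2ffcac5fc7aebf8cc97ff28affe1b5fded0bfcac17f52cafeb44) b57136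 (.hit (nat_lit 189) (nat_lit 57) (nat_lit 0xbf9a61800003000005fc290bf68b57f3a1afe61f5fc572bf882d7edc5afde22) b57139 (.one (nat_lit 9) (nat_lit 187) (nat_lit 55) (nat_lit 0xbfdc3d7f98eaffa705fcf72bf8ccd800003000005fe9c4bfd87d7f5b22feb61) b57137 (.nil)))) (.nil)))) (.nil)))) (.one (nat_lit 70) (nat_lit 192) (nat_lit 60) (nat_lit 0xbf58f97eebeafebf85f9ed6bf27c57eed4afdf955fb85abf5ec97e5be2fce19) b57142 (.nil)))))) (.nil))
noncomputable def r84_6 : Rw Blk := .tok (nat_lit 6) (nat_lit 0xbc000178000300000) (.hit (nat_lit 51) (nat_lit 0) (nat_lit 0xbc0001780002fe890) b57143 (.tok (nat_lit 14) (nat_lit 0xbc0001780002ff457) (.hit (nat_lit 62) (nat_lit 61) (nat_lit 0xbc0001780002ff457) b57144 (.one (nat_lit 3) (nat_lit 63) (nat_lit 62) (nat_lit 0xbc0001780002ff2c2) b57145 (.tok (nat_lit 6) (nat_lit 0xbc0001780002fe9f6) (.hit (nat_lit 66) (nat_lit 65) (nat_lit 0xbc0001780002fdfbc) b57148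 (.hit (nat_lit 67) (nat_lit 66) (nat_lit 0xbc0001780002fe9f6) b57149 (.nil))) (.tok (nat_lit 9) (nat_lit 0xbc0001780002ff0d8) (.hit (nat_lit 64) (nat_lit 63) (nat_lit 0xbc0001780002ff0d8) b57146 (.hit (nat_lit 65) (nat_lit 64) (nat_lit 0xbc0001780002feb5d) b57147 (.nil))) (.nil))))) (.one (nat_lit 17) (nat_lit 68) (nat_lit 67) (nat_lit 0xbc0001780002fe8bc) b57150 (.tok (nat_lit 20) (nat_lit 0xbc0001780002ffdcd) (.hit (nat_lit 69) (nat_lit 68) (nat_lit 0xbc0001780002ffdcd) b57151 (.hit (nat_lit 70) (nat_lit 69) (nat_lit 0xbc0001780002fea2b) b57152 (.nil))) (.tok (nat_lit 23) (nat_lit 0xbc0001780002fe778) (.hit (nat_lit 71) (nat_lit 70) (nat_lit 0xbc0001780002fcbc3) b57153 (.hit (nat_lit 72) (nat_lit 71) (nat_lit 0xbc0001780002fe778) b57154 (.nil))) (.one (nat_lit 38) (nat_lit 77) (nat_lit 76) (nat_lit 0xbc0001780002fe703) b57155 (.tok (nat_lit 41) (nat_lit 0xbc0001780002fe9ad)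 (.hit (nat_lit 78) (nat_lit 77) (nat_lit 0xbc0001780002fe13b) b57156 (.hit (nat_lit 79) (nat_lit 78) (nat_lit 0xbc0001780002fe9ad) b57157 (.nil))) (.tok (nat_lit 44) (nat_lit 0xbc0001780002febfb) (.hit (nat_lit 80) (nat_lit 79) (nat_lit 0xbc0001780002febfb) b57158 (.hit (nat_lit 81) (nat_lit 80) (nat_lit 0xbc0001780002fdfbc) b57159 (.nil))) (.tok (nat_lit 47) (nat_lit 0xbc0001780002fec56) (.hit (nat_lit 82) (nat_lit 81) (nat_lit 0xbc0001780002fb6f3) b57160 (.hit (nat_lit 83) (nat_lit 82) (nat_lit 0xbc0001780002fec56) b57161 (.nil))) (.one (nat_lit 50) (nat_lit 84) (nat_lit 83) (nat_lit 0xbc0001780002fe70f) b57162 (.tok (nat_lit 53) (nat_lit 0xbc0001780002fe7f5) (.hit (nat_lit 85) (nat_lit 84) (nat_lit 0xbc0001780002fcec3) b57163 (.hit (nat_lit 86) (nat_lit 85) (nat_lit 0xbc0001780002fe7f5) b57164 (.nil))) (.tok (nat_lit 56) (nat_lit 0xbc000178000300000) (.hit (nat_lit 87) (nat_lit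 86) (nat_lit 0xbc0001780002fff69) b57165 (.one (nat_lit 3) (nat_lit 91) (nat_lit 90) (nat_lit 0xbc000178000300000) b57169 (.tok (nat_lit 6) (nat_lit 0xbc0001780002ff784) (.hit (nat_lit 89) (nat_lit 88) (nat_lit 0xbc0001780002ff784) b57167 (.hit (nat_lit 90) (nat_lit 89) (nat_lit 0xbc0001780002fec78) b57168 (.nil))) (.one (nat_lit 9) (nat_lit 88) (nat_lit 87) (nat_lit 0xbc0001780002ff52f) b57166 (.nil))))) (.one (nat_lit 59) (nat_lit 92) (nat_lit 91) (nat_lit 0xbc0001780002fe08c) b57170 (.one (nat_lit 62) (nat_lit 93) (nat_lit 92) (nat_lit 0xbc0001780002fdf87) b57171 (.tok (nat_lit 65) (nat_lit 0xbc0001780002fe6f5) (.hit (nat_lit 94) (nat_lit 93) (nat_lit 0xbc0001780002fdab0) b57172 (.hit (nat_lit 95) (nat_lit 94) (nat_lit 0xbc0001780002fe6f5) b57173 (.nil))) (.tok (nat_lit 68) (nat_lit 0xbc0001780002fe869) (.hit (nat_lit 96) (nat_lit 95) (nat_lit 0xbc0001780002fe869) b57174 (.one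 (nat_lit 3) (nat_lit 100) (nat_lit 99) (nat_lit 0xbc0001780002fcf21) b57178 (.one (nat_lit 6) (nat_lit 97) (nat_lit 96) (nat_lit 0xbc0001780002fd70c) b57175 (.tok (nat_lit 9) (nat_lit 0xbc0001780002fd9c4) (.hit (nat_lit 98) (nat_lit 97) (nat_lit 0xbc0001780002fd9c4) b57176 (.hit (nat_lit 99) (nat_lit 98) (nat_lit 0xbc0001780002fd479) b57177 (.nil))) (.nil))))) (.one (nat_lit 71) (nat_lit 101) (nat_lit 100) (nat_lit 0xbc0001780002fdff1) b57179 (.nil)))))))))))))))))) (.nil)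
noncomputable def r84_7 : Rw Blk := .tok (nat_lit 9) (nat_lit 0xbc000178000300b3d) (.hit (nat_lit 0) (nat_lit 0) (nat_lit 0xbc0001780002fe3fa) b57180 (.tok (nat_lit 14) (nat_lit 0xbc00017800030087b) (.hit (nat_lit 21) (nat_lit 61) (nat_lit 0xbc0001780002ffc2b) b57181 (.one (nat_lit 3) (nat_lit 22) (nat_lit 62) (nat_lit 0xbc000178000300080) b57182 (.tok (nat_lit 6) (nat_lit 0xbc00017800030087b) (.hit (nat_lit 25) (nat_lit 65) (nat_lit 0xbc00017800030087b) b57185 (.hit (nat_lit 26) (nat_lit 66) (nat_lit 0xbc0001780002fea84) b57186 (.nil))) (.tok (nat_lit 9) (nat_lit 0xbc0001780002fec05) (.hit (nat_lit 23) (nat_lit 63) (nat_lit 0xbc0001780002fc8ab) b57183 (.hit (nat_lit 24) (nat_lit 64) (nat_lit 0xbc0001780002fec05) b57184 (.nil))) (.nil))))) (.one (nat_lit 17) (nat_lit 27) (nat_lit 67) (nat_lit 0xbc0001780002ff33f) b57187 (.tok (nat_lit 20) (nat_lit 0xbc0001780002fe35f) (.hit (nat_lit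 28) (nat_lit 68) (nat_lit 0xbc0001780002fb7ee) b57188 (.hit (nat_lit 29) (nat_lit 69) (nat_lit 0xbc0001780002fe35f) b57189 (.nil))) (.tok (nat_lit 23) (nat_lit 0xbc000178000300b3d) (.hit (nat_lit 30) (nat_lit 70) (nat_lit 0xbc000178000300b3d) b57190 (.hit (nat_lit 31) (nat_lit 71) (nat_lit 0xbc0001780002fe641) b57191 (.nil))) (.one (nat_lit 26) (nat_lit 32) (nat_lit 72) (nat_lit 0xbc0001780002fdc74) b57192 (.one (nat_lit 29) (nat_lit 33) (nat_lit 73) (nat_lit 0xbc0001780002fe1b6) b57193 (.one (nat_lit 32) (nat_lit 34) (nat_lit 74) (nat_lit 0xbc0001780002fec40) b57194 (.one (nat_lit 35) (nat_lit 35) (nat_lit 75) (nat_lit 0xbc0001780002fd4bd) b57195 (.one (nat_lit 38) (nat_lit 36) (nat_lit 76) (nat_lit 0xbc0001780002fe1cc) b57196 (.tok (nat_lit 41) (nat_lit 0xbc0001780002fddbf) (.hit (nat_lit 37) (nat_lit 77) (nat_lit 0xbc0001780002fd770) b57197 (.hit (nat_lit 38) (nat_lit 78) (nat_lit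 0xbc0001780002fddbf) b57198 (.nil))) (.tok (nat_lit 44) (nat_lit 0xbc0001780002ff6e0) (.hit (nat_lit 39) (nat_lit 79) (nat_lit 0xbc0001780002fb085) b57199 (.hit (nat_lit 40) (nat_lit 80) (nat_lit 0xbc0001780002ff6e0) b57200 (.nil))) (.tok (nat_lit 47) (nat_lit 0xbc0001780002fed27) (.hit (nat_lit 41) (nat_lit 81) (nat_lit 0xbc0001780002fed27) b57201 (.hit (nat_lit 42) (nat_lit 82) (nat_lit 0xbc0001780002fe169) b57202 (.nil))) (.one (nat_lit 62) (nat_lit 52) (nat_lit 92) (nat_lit 0xbc0001780002feb1a) b57203 (.tok (nat_lit 65) (nat_lit 0xbc0001780002ff610) (.hit (nat_lit 53) (nat_lit 93) (nat_lit 0xbc0001780002ff610) b57204 (.hit (nat_lit 54) (nat_lit 94) (nat_lit 0xbc0001780002fea02) b57205 (.nil))) (.tok (nat_lit 68) (nat_lit 0xbc0001780002ffb44) (.hit (nat_lit 55) (nat_lit 95) (nat_lit 0xbc0001780002ff806) b57206 (.one (nat_lit 3) (nat_lit 59) (nat_lit 99) (nat_lit 0xbc0001780002feb88)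 b57210 (.one (nat_lit 6) (nat_lit 56) (nat_lit 96) (nat_lit 0xbc0001780002ffb44) b57207 (.tok (nat_lit 9) (nat_lit 0xbc0001780002ff7f9) (.hit (nat_lit 57) (nat_lit 97) (nat_lit 0xbc0001780002ff7f9) b57208 (.hit (nat_lit 58) (nat_lit 98) (nat_lit 0xbc0001780002ff212) b57209 (.nil))) (.nil))))) (.one (nat_lit 71) (nat_lit 60) (nat_lit 100) (nat_lit 0xbc0001780002fe566) b57211 (.nil)))))))))))))))))) (.tok (nat_lit 64) (nat_lit 0xbc000178000300fad) (.hit (nat_lit 176) (nat_lit 0) (nat_lit 0xbc000178000300fad) b57212 (.tok (nat_lit 6) (nat_lit 0xbc0001780002ff898) (.hit (nat_lit 177) (nat_lit 7) (nat_lit 0xbc0001780002fe500) b57213 (.hit (nat_lit 178) (nat_lit 15) (nat_lit 0xbc0001780002ff898) b57214 (.nil))) (.tok (nat_lit 9) (nat_lit 0xbc0001780002ffbc7) (.hit (nat_lit 179) (nat_lit 20) (nat_lit 0xbc0001780002ffbc7) b57215 (.hit (nat_lit 180) (nat_lit 28) (nat_lit 0xbc0001780002feae6)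 b57216 (.nil))) (.nil)))) (.tok (nat_lit 67) (nat_lit 0xbc0001780002ff49c) (.hit (nat_lit 201) (nat_lit 0) (nat_lit 0xbc0001780002ff256) b57222 (.tok (nat_lit 3) (nat_lit 0xbc0001780002feb9e) (.hit (nat_lit 202) (nat_lit 1) (nat_lit 0xbc0001780002fd4fa) b57223 (.one (nat_lit 55) (nat_lit 203) (nat_lit 3) (nat_lit 0xbc0001780002feb9e) b57224 (.nil))) (.tok (nat_lit 9) (nat_lit 0xbc0001780002ff49c) (.hit (nat_lit 204) (nat_lit 20) (nat_lit 0xbc0001780002fdf7f) b57225 (.hit (nat_lit 207) (nat_lit 28) (nat_lit 0xbc0001780002fd5d0) b57228 (.tok (nat_lit 67) (nat_lit 0xbc0001780002ff49c) (.hit (nat_lit 205) (nat_lit 21) (nat_lit 0xbc0001780002fee67) b57226 (.hit (nat_lit 208) (nat_lit 29) (nat_lit 0xbc0001780002fee4d) b57229 (.one (nat_lit 9) (nat_lit 206) (nat_lit 22) (nat_lit 0xbc0001780002ff49c) b57227 (.nil)))) (.nil)))) (.nil)))) (.tok (nat_lit 70) (nat_lit 0xbc0001780002ff725)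 (.hit (nat_lit 187) (nat_lit 0) (nat_lit 0xbc0001780002ff725) b57217 (.tok (nat_lit 3) (nat_lit 0xbc0001780002ff68e) (.hit (nat_lit 188) (nat_lit 1) (nat_lit 0xbc0001780002fdcf7) b57218 (.one (nat_lit 67) (nat_lit 189) (nat_lit 2) (nat_lit 0xbc0001780002ff68e) b57219 (.nil))) (.tok (nat_lit 6) (nat_lit 0xbc0001780002fdf17) (.hit (nat_lit 190) (nat_lit 7) (nat_lit 0xbc0001780002fdeea) b57220 (.hit (nat_lit 193) (nat_lit 15) (nat_lit 0xbc0001780002fdf17) b57221 (.nil))) (.nil)))) (.nil))))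
noncomputable def r84_8 : Rw Blk := .tok (nat_lit 3) (nat_lit 0xbc00017800030239c) (.hit (nat_lit 15) (nat_lit 0) (nat_lit 0xbc000178000301411) b57245 (.tok (nat_lit 6) (nat_lit 0xbc0001780003003dd) (.hit (nat_lit 16) (nat_lit 7) (nat_lit 0xbc0001780002fd123) b57246 (.hit (nat_lit 21) (nat_lit 15) (nat_lit 0xbc0001780002fe081) b57249 (.tok (nat_lit 14) (nat_lit 0xbc0001780002ff437) (.hit (nat_lit 17) (nat_lit 11) (nat_lit 0xbc0001780002fe277) b57247 (.hit (nat_lit 22) (nat_lit 17) (nat_lit 0xbc0001780002fec00) b57250 (.one (nat_lit 9) (nat_lit 18) (nat_lit 12) (nat_lit 0xbc0001780002ff437) b57248 (.nil)))) (.one (nat_lit 68) (nat_lit 23) (nat_lit 18) (nat_lit 0xbc0001780003003dd) b57251 (.nil))))) (.tok (nat_lit 52) (nat_lit 0xbc0001780002ffb25) (.hit (nat_lit 25) (nat_lit 39) (nat_lit 0xbc0001780002ff60f) b57252 (.hit (nat_lit 26) (nat_lit 40) (nat_lit 0xbc0001780002ffb25) b57253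 (.nil))) (.tok (nat_lit 55) (nat_lit 0xbc00017800030239c) (.hit (nat_lit 27) (nat_lit 41) (nat_lit 0xbc00017800030239c) b57254 (.tok (nat_lit 3) (nat_lit 0xbc0001780002fffdd) (.hit (nat_lit 33) (nat_lit 47) (nat_lit 0xbc0001780002fecec) b57257 (.one (nat_lit 67) (nat_lit 34) (nat_lit 48) (nat_lit 0xbc0001780002fffdd) b57258 (.nil))) (.tok (nat_lit 6) (nat_lit 0xbc0001780002fedd6) (.hit (nat_lit 28) (nat_lit 42) (nat_lit 0xbc0001780002fedd6) b57255 (.hit (nat_lit 31) (nat_lit 45) (nat_lit 0xbc0001780002fea74) b57256 (.nil))) (.nil)))) (.one (nat_lit 58) (nat_lit 35) (nat_lit 49) (nat_lit 0xbc000178000301f9b) b57259 (.nil)))))) (.tok (nat_lit 9) (nat_lit 0xbc0001780003047ee) (.hit (nat_lit 0) (nat_lit 0) (nat_lit 0xbc0001780003015cc) b57230 (.tok (nat_lit 9) (nat_lit 0xbc000178000301f4f) (.hit (nat_lit 1) (nat_lit 20) (nat_lit 0xbc0001780002fe572) b57231 (.hit (nat_lit 4) (nat_lit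 28) (nat_lit 0xbc0001780002feec5) b57234 (.tok (nat_lit 14) (nat_lit 0xbc000178000301f4f) (.hit (nat_lit 2) (nat_lit 24) (nat_lit 0xbc0001780002ffbf2) b57232 (.hit (nat_lit 5) (nat_lit 30) (nat_lit 0xbc000178000300830) b57235 (.one (nat_lit 6) (nat_lit 3) (nat_lit 25) (nat_lit 0xbc000178000301f4f) b57233 (.nil)))) (.one (nat_lit 56) (nat_lit 6) (nat_lit 31) (nat_lit 0xbc0001780003017b5) b57236 (.nil))))) (.tok (nat_lit 64) (nat_lit 0xbc0001780003046c2) (.hit (nat_lit 7) (nat_lit 50) (nat_lit 0xbc0001780003046c2) b57237 (.hit (nat_lit 8) (nat_lit 51) (nat_lit 0xbc00017800030200c) b57238 (.nil))) (.tok (nat_lit 67) (nat_lit 0xbc0001780003047ee) (.hit (nat_lit 9) (nat_lit 52) (nat_lit 0xbc000178000303899) b57239 (.tok (nat_lit 3) (nat_lit 0xbc0001780003013c7) (.hit (nat_lit 12) (nat_lit 58) (nat_lit 0xbc0001780003006df) b57242 (.one (nat_lit 55) (nat_lit 13) (nat_lit 59) (nat_lit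 0xbc0001780003013c7) b57243 (.nil))) (.tok (nat_lit 9) (nat_lit 0xbc0001780003047ee) (.hit (nat_lit 10) (nat_lit 53) (nat_lit 0xbc0001780003047ee) b57240 (.hit (nat_lit 11) (nat_lit 56) (nat_lit 0xbc000178000300b52) b57241 (.nil))) (.nil)))) (.one (nat_lit 70) (nat_lit 14) (nat_lit 60) (nat_lit 0xbc000178000304427) b57244 (.nil)))))) (.nil))
noncomputable def r84_9 : Rw Blk := .tok (nat_lit 9) (nat_lit 0xbc000178000305449) (.hit (nat_lit 0) (nat_lit 0) (nat_lit 0xbc0001780003005d8) b57260 (.tok (nat_lit 14) (nat_lit 0xbc000178000303ee0) (.hit (nat_lit 1) (nat_lit 61) (nat_lit 0xbc0001780003015b4) b57261 (.one (nat_lit 3) (nat_lit 2) (nat_lit 62) (nat_lit 0xbc000178000301e12) b57262 (.tok (nat_lit 6) (nat_lit 0xbc000178000303ee0) (.hit (nat_lit 5) (nat_lit 65) (nat_lit 0xbc000178000303ee0) b57265 (.hit (nat_lit 6) (nat_lit 66) (nat_lit 0xbc00017800030045f) b57266 (.nil))) (.tok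 (nat_lit 9) (nat_lit 0xbc0001780002ffd92) (.hit (nat_lit 3) (nat_lit 63) (nat_lit 0xbc0001780002ffd92) b57263 (.hit (nat_lit 4) (nat_lit 64) (nat_lit 0xbc0001780002ff46a) b57264 (.nil))) (.nil))))) (.one (nat_lit 17) (nat_lit 7) (nat_lit 67) (nat_lit 0xbc00017800030018e) b57267 (.tok (nat_lit 20) (nat_lit 0xbc0001780002ffa76) (.hit (nat_lit 8) (nat_lit 68) (nat_lit 0xbc0001780002ff355) b57268 (.hit (nat_lit 9) (nat_lit 69) (nat_lit 0xbc0001780002ffa76) b57269 (.nil))) (.tok (nat_lit 23) (nat_lit 0xbc000178000305449) (.hit (nat_lit 10) (nat_lit 70) (nat_lit 0xbc000178000305449) b57270 (.hit (nat_lit 11) (nat_lit 71) (nat_lit 0xbc0001780002ffc54) b57271 (.nil))) (.one (nat_lit 26) (nat_lit 12) (nat_lit 72) (nat_lit 0xbc000178000300342) b57272 (.one (nat_lit 29) (nat_lit 13) (nat_lit 73) (nat_lit 0xbc00017800030094e) b57273 (.one (nat_lit 32) (nat_lit 14) (nat_lit 74) (nat_lit 0xbc0001780003004c3)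 b57274 (.one (nat_lit 35) (nat_lit 15) (nat_lit 75) (nat_lit 0xbc0001780002fef27) b57275 (.one (nat_lit 50) (nat_lit 23) (nat_lit 83) (nat_lit 0xbc000178000300b90) b57276 (.tok (nat_lit 53) (nat_lit 0xbc0001780002ff78f) (.hit (nat_lit 24) (nat_lit 84) (nat_lit 0xbc0001780002ff583) b57277 (.hit (nat_lit 25) (nat_lit 85) (nat_lit 0xbc0001780002ff78f) b57278 (.nil))) (.tok (nat_lit 56) (nat_lit 0xbc000178000302026) (.hit (nat_lit 26) (nat_lit 86) (nat_lit 0xbc000178000302026) b57279 (.one (nat_lit 3) (nat_lit 30) (nat_lit 90) (nat_lit 0xbc0001780002ffb59) b57283 (.tok (nat_lit 6) (nat_lit 0xbc0001780002ff8f2) (.hit (nat_lit 28) (nat_lit 88) (nat_lit 0xbc0001780002ff8f2) b57281 (.hit (nat_lit 29) (nat_lit 89) (nat_lit 0xbc0001780002fed90) b57282 (.nil))) (.one (nat_lit 9) (nat_lit 27) (nat_lit 87) (nat_lit 0xbc0001780002ff686) b57280 (.nil))))) (.one (nat_lit 59) (nat_lit 31) (nat_lit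 91) (nat_lit 0xbc0001780002ff9d9) b57284 (.nil)))))))))))))) (.tok (nat_lit 64) (nat_lit 0xbc00017800030415c) (.hit (nat_lit 45) (nat_lit 0) (nat_lit 0xbc00017800030415c) b57298 (.tok (nat_lit 6) (nat_lit 0xbc000178000300edd) (.hit (nat_lit 46) (nat_lit 7) (nat_lit 0xbc0001780002ffee4) b57299 (.hit (nat_lit 47) (nat_lit 15) (nat_lit 0xbc000178000300edd) b57300 (.nil))) (.tok (nat_lit 9) (nat_lit 0xbc00017800030374b) (.hit (nat_lit 48) (nat_lit 20) (nat_lit 0xbc00017800030374b) b57301 (.hit (nat_lit 49) (nat_lit 28) (nat_lit 0xbc000178000302d6d) b57302 (.nil))) (.nil)))) (.tok (nat_lit 67) (nat_lit 0xbc000178000301e84) (.hit (nat_lit 40) (nat_lit 0) (nat_lit 0xbc000178000301a42) b57293 (.tok (nat_lit 3) (nat_lit 0xbc0001780003019e3) (.hit (nat_lit 41) (nat_lit 1) (nat_lit 0xbc000178000300b2d) b57294 (.one (nat_lit 55) (nat_lit 42) (nat_lit 3) (nat_lit 0xbc0001780003019e3) b57295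 (.nil))) (.tok (nat_lit 9) (nat_lit 0xbc000178000301e84) (.hit (nat_lit 43) (nat_lit 20) (nat_lit 0xbc000178000301e84) b57296 (.hit (nat_lit 44) (nat_lit 28) (nat_lit 0xbc0001780003001ac) b57297 (.nil))) (.nil)))) (.tok (nat_lit 70) (nat_lit 0xbc000178000303399) (.hit (nat_lit 32) (nat_lit 0) (nat_lit 0xbc00017800030228b) b57285 (.tok (nat_lit 3) (nat_lit 0xbc000178000303399) (.hit (nat_lit 33) (nat_lit 1) (nat_lit 0xbc000178000302063) b57286 (.one (nat_lit 67) (nat_lit 34) (nat_lit 2) (nat_lit 0xbc000178000303399) b57287 (.nil))) (.tok (nat_lit 6) (nat_lit 0xbc000178000303249) (.hit (nat_lit 35) (nat_lit 7) (nat_lit 0xbc00017800030253b) b57288 (.hit (nat_lit 38) (nat_lit 15) (nat_lit 0xbc000178000301ced) b57291 (.tok (nat_lit 55) (nat_lit 0xbc000178000303249) (.hit (nat_lit 36) (nat_lit 8) (nat_lit 0xbc000178000302bdf) b57289 (.hit (nat_lit 39) (nat_lit 16) (nat_lit 0xbc0001780003030c7)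 b57292 (.one (nat_lit 6) (nat_lit 37) (nat_lit 9) (nat_lit 0xbc000178000303249) b57290 (.nil)))) (.nil)))) (.nil)))) (.nil))))
noncomputable def r84_10 : Rw Blk := .tok (nat_lit 3) (nat_lit 0xbc000178000303ccc) (.hit (nat_lit 0) (nat_lit 0) (nat_lit 0xbc000178000303ccc) b57303 (.tok (nat_lit 6) (nat_lit 0xbc000178000302762) (.hit (nat_lit 1) (nat_lit 7) (nat_lit 0xbc0001780002ff714) b57304 (.hit (nat_lit 6) (nat_lit 15) (nat_lit 0xbc0001780002ffc98) b57307 (.tok (nat_lit 56) (nat_lit 0xbc000178000302762) (.hit (nat_lit 4) (nat_lit 13) (nat_lit 0xbc000178000300990) b57305 (.hit (nat_lit 8) (nat_lit 19) (nat_lit 0xbc000178000301c15) b57308 (.one (nat_lit 6) (nat_lit 5) (nat_lit 14) (nat_lit 0xbc000178000302762) b57306 (.nil)))) (.nil)))) (.tok (nat_lit 52) (nat_lit 0xbc000178000302c1d) (.hit (nat_lit 9) (nat_lit 39) (nat_lit 0xbc0001780003026d4) b57309 (.hit (nat_lit 10) (nat_lit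 40) (nat_lit 0xbc000178000302c1d) b57310 (.nil))) (.tok (nat_lit 55) (nat_lit 0xbc000178000303abe) (.hit (nat_lit 11) (nat_lit 41) (nat_lit 0xbc000178000303abe) b57311 (.one (nat_lit 3) (nat_lit 17) (nat_lit 47) (nat_lit 0xbc000178000301e7e) b57317 (.tok (nat_lit 6) (nat_lit 0xbc000178000302167) (.hit (nat_lit 12) (nat_lit 42) (nat_lit 0xbc000178000301966) b57312 (.hit (nat_lit 15) (nat_lit 45) (nat_lit 0xbc00017800030186b) b57315 (.tok (nat_lit 55) (nat_lit 0xbc000178000302167) (.hit (nat_lit 13) (nat_lit 43) (nat_lit 0xbc000178000301e12) b57313 (.hit (nat_lit 16) (nat_lit 46) (nat_lit 0xbc000178000302167) b57316 (.one (nat_lit 6) (nat_lit 14) (nat_lit 44) (nat_lit 0xbc0001780003018e9) b57314 (.nil)))) (.nil)))) (.nil)))) (.one (nat_lit 58) (nat_lit 19) (nat_lit 49) (nat_lit 0xbc0001780003022e6) b57318 (.nil)))))) (.tok (nat_lit 9) (nat_lit 0xbc000178000304e8e) (.hit (nat_lit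 20) (nat_lit 0) (nat_lit 0xbc000178000304e8e) b57319 (.tok (nat_lit 9) (nat_lit 0xbc000178000304884) (.hit (nat_lit 21) (nat_lit 20) (nat_lit 0xbc0001780003036a6) b57320 (.hit (nat_lit 24) (nat_lit 28) (nat_lit 0xbc000178000302ecd) b57321 (.one (nat_lit 56) (nat_lit 26) (nat_lit 31) (nat_lit 0xbc000178000304884) b57322 (.nil)))) (.nil))) (.nil))
noncomputable def r84_11 : Rw Blk := .tok (nat_lit 9) (nat_lit 0xbc000178000300000) (.hit (nat_lit 0) (nat_lit 0) (nat_lit 0xbc0001780002fd7bb) b57323 (.tok (nat_lit 14) (nat_lit 0xbc000178000300000) (.hit (nat_lit 21) (nat_lit 61) (nat_lit 0xbc0001780002ff1c0) b57324 (.one (nat_lit 3) (nat_lit 22) (nat_lit 62) (nat_lit 0xbc0001780002fe456) b57325 (.tok (nat_lit 6) (nat_lit 0xbc000178000300000) (.hit (nat_lit 25) (nat_lit 65) (nat_lit 0xbc000178000300000) b57328 (.hit (nat_lit 26) (nat_lit 66) (nat_lit 0xbc0001780002fe94b) b57329 (.nil)))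 (.tok (nat_lit 9) (nat_lit 0xbc0001780002fe4cc) (.hit (nat_lit 23) (nat_lit 63) (nat_lit 0xbc0001780002fd204) b57326 (.hit (nat_lit 24) (nat_lit 64) (nat_lit 0xbc0001780002fe4cc) b57327 (.nil))) (.nil))))) (.one (nat_lit 17) (nat_lit 27) (nat_lit 67) (nat_lit 0xbc0001780002fda6e) b57330 (.tok (nat_lit 20) (nat_lit 0xbc0001780002fda44) (.hit (nat_lit 28) (nat_lit 68) (nat_lit 0xbc0001780002fca85) b57331 (.hit (nat_lit 29) (nat_lit 69) (nat_lit 0xbc0001780002fda44) b57332 (.nil))) (.tok (nat_lit 23) (nat_lit 0xbc0001780002fe372) (.hit (nat_lit 30) (nat_lit 70) (nat_lit 0xbc0001780002fe372) b57333 (.hit (nat_lit 31) (nat_lit 71) (nat_lit 0xbc0001780002fd740) b57334 (.nil))) (.one (nat_lit 26) (nat_lit 32) (nat_lit 72) (nat_lit 0xbc0001780002fd2da) b57335 (.one (nat_lit 29) (nat_lit 33) (nat_lit 73) (nat_lit 0xbc0001780002fd12f) b57336 (.one (nat_lit 32) (nat_lit 34) (nat_lit 74)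 (nat_lit 0xbc0001780002fd8ac) b57337 (.one (nat_lit 35) (nat_lit 35) (nat_lit 75) (nat_lit 0xbc0001780002fc927) b57338 (.one (nat_lit 38) (nat_lit 36) (nat_lit 76) (nat_lit 0xbc0001780002fd625) b57339 (.tok (nat_lit 41) (nat_lit 0xbc0001780002fd3c7) (.hit (nat_lit 37) (nat_lit 77) (nat_lit 0xbc0001780002fd3c7) b57340 (.hit (nat_lit 38) (nat_lit 78) (nat_lit 0xbc0001780002fd0b5) b57341 (.nil))) (.tok (nat_lit 44) (nat_lit 0xbc0001780002fdb71) (.hit (nat_lit 39) (nat_lit 79) (nat_lit 0xbc0001780002fa839) b57342 (.hit (nat_lit 40) (nat_lit 80) (nat_lit 0xbc0001780002fdb71) b57343 (.nil))) (.tok (nat_lit 47) (nat_lit 0xbc0001780002fdd4d) (.hit (nat_lit 41) (nat_lit 81) (nat_lit 0xbc0001780002fdd4d) b57344 (.hit (nat_lit 42) (nat_lit 82) (nat_lit 0xbc0001780002fd4cb) b57345 (.nil))) (.one (nat_lit 62) (nat_lit 52) (nat_lit 92) (nat_lit 0xbc0001780002fe038) b57346 (.tok (nat_lit 65)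 (nat_lit 0xbc0001780002fe221) (.hit (nat_lit 53) (nat_lit 93) (nat_lit 0xbc0001780002fe221) b57347 (.hit (nat_lit 54) (nat_lit 94) (nat_lit 0xbc0001780002fddad) b57348 (.nil))) (.tok (nat_lit 68) (nat_lit 0xbc0001780002ff835) (.hit (nat_lit 55) (nat_lit 95) (nat_lit 0xbc0001780002fefdf) b57349 (.one (nat_lit 3) (nat_lit 59) (nat_lit 99) (nat_lit 0xbc0001780002fe552) b57353 (.one (nat_lit 6) (nat_lit 56) (nat_lit 96) (nat_lit 0xbc0001780002ff4d2) b57350 (.tok (nat_lit 9) (nat_lit 0xbc0001780002ff835) (.hit (nat_lit 57) (nat_lit 97) (nat_lit 0xbc0001780002ff835) b57351 (.hit (nat_lit 58) (nat_lit 98) (nat_lit 0xbc0001780002fe442) b57352 (.nil))) (.nil))))) (.one (nat_lit 71) (nat_lit 60) (nat_lit 100) (nat_lit 0xbc0001780002fd89b) b57354 (.nil)))))))))))))))))) (.tok (nat_lit 64) (nat_lit 0xbc0001780002ff746) (.hit (nat_lit 176) (nat_lit 0) (nat_lit 0xbc0001780002ff55c) b57355 (.tok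 (nat_lit 6) (nat_lit 0xbc0001780002fef60) (.hit (nat_lit 177) (nat_lit 7) (nat_lit 0xbc0001780002fe121) b57356 (.hit (nat_lit 178) (nat_lit 15) (nat_lit 0xbc0001780002fef60) b57357 (.nil))) (.tok (nat_lit 9) (nat_lit 0xbc0001780002ff746) (.hit (nat_lit 179) (nat_lit 20) (nat_lit 0xbc0001780002ff746) b57358 (.hit (nat_lit 180) (nat_lit 28) (nat_lit 0xbc0001780002fe725) b57359 (.nil))) (.nil)))) (.tok (nat_lit 67) (nat_lit 0xbc0001780002ffa82) (.hit (nat_lit 201) (nat_lit 0) (nat_lit 0xbc0001780002ffa82) b57365 (.tok (nat_lit 3) (nat_lit 0xbc0001780002fe778) (.hit (nat_lit 202) (nat_lit 1) (nat_lit 0xbc0001780002fda33) b57366 (.one (nat_lit 55) (nat_lit 203) (nat_lit 3) (nat_lit 0xbc0001780002fe778) b57367 (.nil))) (.tok (nat_lit 9) (nat_lit 0xbc0001780002ff0a8) (.hit (nat_lit 204) (nat_lit 20) (nat_lit 0xbc0001780002fd712) b57368 (.hit (nat_lit 207) (nat_lit 28) (nat_lit 0xbc0001780002fda46)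 b57371 (.tok (nat_lit 67) (nat_lit 0xbc0001780002ff0a8) (.hit (nat_lit 205) (nat_lit 21) (nat_lit 0xbc0001780002fe691) b57369 (.hit (nat_lit 208) (nat_lit 29) (nat_lit 0xbc0001780002fe93c) b57372 (.one (nat_lit 9) (nat_lit 206) (nat_lit 22) (nat_lit 0xbc0001780002ff0a8) b57370 (.nil)))) (.nil)))) (.nil)))) (.tok (nat_lit 70) (nat_lit 0xbc0001780002ff3e6) (.hit (nat_lit 187) (nat_lit 0) (nat_lit 0xbc0001780002fed7a) b57360 (.tok (nat_lit 3) (nat_lit 0xbc0001780002ff3e6) (.hit (nat_lit 188) (nat_lit 1) (nat_lit 0xbc0001780002fdb5f) b57361 (.one (nat_lit 67) (nat_lit 189) (nat_lit 2) (nat_lit 0xbc0001780002ff3e6) b57362 (.nil))) (.tok (nat_lit 6) (nat_lit 0xbc0001780002fe2bc) (.hit (nat_lit 190) (nat_lit 7) (nat_lit 0xbc0001780002fe2bc) b57363 (.hit (nat_lit 193) (nat_lit 15) (nat_lit 0xbc0001780002fd973) b57364 (.nil))) (.nil)))) (.nil))))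
noncomputable def r84_12 : Rw Blk := .tok (nat_lit 3) (nat_lit 0xbc000178000301b2e) (.hit (nat_lit 15) (nat_lit 0) (nat_lit 0xbc0001780002fe7b5) b57388 (.tok (nat_lit 6) (nat_lit 0xbc0001780002fd5fd) (.hit (nat_lit 16) (nat_lit 7) (nat_lit 0xbc0001780002fc682) b57389 (.hit (nat_lit 21) (nat_lit 15) (nat_lit 0xbc0001780002fa5c9) b57392 (.tok (nat_lit 14) (nat_lit 0xbc0001780002fd5fd) (.hit (nat_lit 17) (nat_lit 11) (nat_lit 0xbc0001780002fce3d) b57390 (.hit (nat_lit 22) (nat_lit 17) (nat_lit 0xbc0001780002fcd58) b57393 (.one (nat_lit 9) (nat_lit 18) (nat_lit 12) (nat_lit 0xbc0001780002fd5fd) b57391 (.nil)))) (.one (nat_lit 68) (nat_lit 23) (nat_lit 18) (nat_lit 0xbc0001780002fcec1) b57394 (.nil))))) (.tok (nat_lit 52) (nat_lit 0xbc0001780002fd8a3) (.hit (nat_lit 25) (nat_lit 39) (nat_lit 0xbc0001780002fd8a3) b57395 (.hit (nat_lit 26) (nat_lit 40) (nat_lit 0xbc0001780002fd43c) b57396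 (.nil))) (.tok (nat_lit 55) (nat_lit 0xbc000178000301b2e) (.hit (nat_lit 27) (nat_lit 41) (nat_lit 0xbc000178000301b2e) b57397 (.tok (nat_lit 3) (nat_lit 0xbc0001780002fe429) (.hit (nat_lit 33) (nat_lit 47) (nat_lit 0xbc0001780002fdfc8) b57400 (.one (nat_lit 67) (nat_lit 34) (nat_lit 48) (nat_lit 0xbc0001780002fe429) b57401 (.nil))) (.tok (nat_lit 6) (nat_lit 0xbc0001780002fd618) (.hit (nat_lit 28) (nat_lit 42) (nat_lit 0xbc0001780002fd618) b57398 (.hit (nat_lit 31) (nat_lit 45) (nat_lit 0xbc0001780002fd386) b57399 (.nil))) (.nil)))) (.one (nat_lit 58) (nat_lit 35) (nat_lit 49) (nat_lit 0xbc0001780002fe419) b57402 (.nil)))))) (.tok (nat_lit 9) (nat_lit 0xbc000178000302ef6) (.hit (nat_lit 0) (nat_lit 0) (nat_lit 0xbc0001780002ff317) b57373 (.tok (nat_lit 9) (nat_lit 0xbc0001780003008e5) (.hit (nat_lit 1) (nat_lit 20) (nat_lit 0xbc0001780002fe8a0) b57374 (.hit (nat_lit 4) (nat_lit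 28) (nat_lit 0xbc0001780002fd0bf) b57377 (.tok (nat_lit 14) (nat_lit 0xbc0001780003008e5) (.hit (nat_lit 2) (nat_lit 24) (nat_lit 0xbc0001780003008e5) b57375 (.hit (nat_lit 5) (nat_lit 30) (nat_lit 0xbc0001780002fe837) b57378 (.one (nat_lit 6) (nat_lit 3) (nat_lit 25) (nat_lit 0xbc0001780002ffe1c) b57376 (.nil)))) (.one (nat_lit 56) (nat_lit 6) (nat_lit 31) (nat_lit 0xbc0001780002feec4) b57379 (.nil))))) (.tok (nat_lit 64) (nat_lit 0xbc000178000300665) (.hit (nat_lit 7) (nat_lit 50) (nat_lit 0xbc000178000300665) b57380 (.hit (nat_lit 8) (nat_lit 51) (nat_lit 0xbc0001780002ff0ec) b57381 (.nil))) (.tok (nat_lit 67) (nat_lit 0xbc000178000302ef6) (.hit (nat_lit 9) (nat_lit 52) (nat_lit 0xbc000178000302ef6) b57382 (.tok (nat_lit 3) (nat_lit 0xbc0001780003018a7) (.hit (nat_lit 12) (nat_lit 58) (nat_lit 0xbc0001780002fff7a) b57385 (.one (nat_lit 55) (nat_lit 13) (nat_lit 59) (nat_lit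 0xbc0001780003018a7) b57386 (.nil))) (.tok (nat_lit 9) (nat_lit 0xbc000178000300b0f) (.hit (nat_lit 10) (nat_lit 53) (nat_lit 0xbc000178000300b0f) b57383 (.hit (nat_lit 11) (nat_lit 56) (nat_lit 0xbc0001780002ffc96) b57384 (.nil))) (.nil)))) (.one (nat_lit 70) (nat_lit 14) (nat_lit 60) (nat_lit 0xbc0001780002fe78d) b57387 (.nil)))))) (.nil))
noncomputable def r84_13 : Rw Blk := .tok (nat_lit 3) (nat_lit 0x2fb7a45f841abf8dc17ece52fd3a15f9098bf51297ee2cafd4745f8c14bf5e557f32eafe1365fbfe6bfd4697e552afe87d5fce74bf7f817efef2fdf07) (.hit (nat_lit 0) (nat_lit 0) (nat_lit 0x2fb6be5f841abf228d7e6ddafc7925f8188bf38d57e8252fc8655f8c14bf3ce97f32eafd7fc5fb5a6bf6a6d7e552afda055fabd8bf49ed7ec6b2fcc2d) b57403 (.tok (nat_lit 9) (nat_lit 0x2fb7a45f7e3cbf8dc17ece52fd3a15f9098bf51297ee2cafd4745f8b58bf5e557f1e72fe1365fbfe6bfd4697e4beafe87d5fce74bf7f817efef2fdf07) (.hit (nat_lit 10) (nat_lit 20) (nat_lit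 0x2fa34b5f558abf37097e2b8afbf485f67e6beffc57e4002fc01b5f62a6bf0cf17e2e42fbe6c5f782abf74857da922fbadd5f6dc0bf0a257df1dafc9f1) b57404 (.hit (nat_lit 15) (nat_lit 28) (nat_lit 0x2fa0dc5f50acbf09317e1812fbcd95f6308bef6097e2c8afbdac5f5dc8bf03357e811afcdaa5f9d9cbf65217d95aafcee95f9786bf02197e75bafc970) b57409 (.tok (nat_lit 14) (nat_lit 0x2fb6475f7b82bf7eb97ec36afd2445f8ddebf4bb57ed7e2fd3175f889ebf58e17ecf52fd58f5fab52bfc7397e4102fdba05fada0bf7f817eb142fdb2a) (.hit (nat_lit 11) (nat_lit 24) (nat_lit 0x2fa9e75f62c2bf57457e606afc5e45f751ebf1a357e74e2fc6b75f6fdebf27617e27fafbfe55f7886bf97757dde02fba145f6c2ebf65e57e78c2fcf68) b57405 (.hit (nat_lit 16) (nat_lit 30) (nat_lit 0x2fa8ea5f60c8bf2e017e5882fc4e75f7324bf16417e6cfafc5ba5f6de4bf236d7ec352fd58f5fab52bf8af97dd61afdba05fada0bef6617eaf4afd2f1) b57410 (.one (nat_lit 6) (nat_lit 12) (nat_lit 25) (nat_lit 0x2fb6475f7b82bf7eb97ec36afd2445f8ddebf4bb57ed7e2fd3175f889ebf58e17ecf52fd28e5fa06ebfc7397e4102fceff5f9604bf7f817eb142fdb2a)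 b57406 (.nil)))) (.one (nat_lit 56) (nat_lit 17) (nat_lit 31) (nat_lit 0x2fb6095f7b06bf5ff97ec17afd2065f8d62bf4abd7ed5f2fd2d95f8822bf57e97f1e72fe1365fbfe6bf9b917e3f12fe87d5fce74bf4b957efef2fdc13) b57411 (.tok (nat_lit 68) (nat_lit 0x2fb7a45f7e3cbf8dc17ece52fd3a15f9098bf51297ee2cafd4745f8b58bf5e557ec44afd35c5fa12ebfd4697e4beafd5395fa246bf65317ea87afdf07) (.hit (nat_lit 13) (nat_lit 26) (nat_lit 0x2faf7c5f6decbf60497e8d12fcb795f8048bf30897ea18afcc4c5f7b08bf3db57ec44afd12d5f9dacbfa3457e0aaafcd9e5f9342bf51fd7e7832fd59e) b57407 (.hit (nat_lit 18) (nat_lit 32) (nat_lit 0x2fab605f65b4bf34597e6c32fc75d5f7810bf20197e80aafc8305f72d0bf2d457e980afd35c5fa12ebf72957de9cafd5395fa246bf14097e86eafcd06) b57412 (.one (nat_lit 9) (nat_lit 14) (nat_lit 27) (nat_lit 0x2fb7a45f7e3cbf8dc17ece52fd3a15f9098bf51297ee2cafd4745f8b58bf5e557e95e2fcda25f9400bfd4697e4beafc7d15f87a8bf65317ea87afdf07) b57408 (.nil))))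 (.nil)))))) (.nil))) (.tok (nat_lit 6) (nat_lit 0x300000600000c0000180000300000600000c000018000030016d600000c003d980353b00000600000c0000180000300000600000c00fe580000300000) (.hit (nat_lit 81) (nat_lit 0) (nat_lit 0x2fcb035fb93ebf52057ebb1afd91b5fbca6bf92f97ee592fd5c75fa698bf6f157ee5f2fda8f5fb814bfb8b17ec38afd42f5fa180bf46797eb012fd8dc) b57413 (.tok (nat_lit 6) (nat_lit 0x2fe5695ff006bfda397f778afe8535fd430bfeddd7f8b82fe6465fdc86bfc03d7f8d2afef215fe232bff0517f95fafeb965fd6c6bfa4ed7fdbfaff052) (.hit (nat_lit 87) (nat_lit 7) (nat_lit 0x2fc13b5fa14cbf32457e851afca7a5fa534bf63a97e9992fcb4d5f93dcbf39b97e881afc9a75f9596bf7f897e9bcafc79f5f8ef2befd097eafc2fcc0e) b57414 (.hit (nat_lit 95) (nat_lit 15) (nat_lit 0x2fb39f5f6c4cbf266d7da77afaec65f7acabf17fd7def9afb8375f78f2bee5d17e5252fcc9b5f9026bf66157e4fdafbf5f5f76c4befbb17e430afc833) b57419 (.tok (nat_lit 14) (nat_lit 0x2fe5695ff006bfda397f778afe8535fd430bfeddd7f8b82fe6465fdc86bfc03d7f8d2afef215fe232bff0517f95fafeb965fd6c6bfa4ed7fdbfaff052)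 (.hit (nat_lit 91) (nat_lit 11) (nat_lit 0x2fe2155fe76ebfd4f17f461afe6cc5fcef6bfe5fd7f8b82fe2e15fd55cbfaaa97f42fafe5bf5fcf62bfcae57f524afe2d75fc5b6bf699d7f7cc2ff052) b57415 (.hit (nat_lit 97) (nat_lit 17) (nat_lit 0x2fd01b5fa398bfa69d7e6a02fcaa25fb19cbf72557ea44afcdc55faa70bf48ed7ed862fe4cf5fb6f2bf9f057ed432fd9cb5fa7bebef8d17f128afd659) b57420 (.one (nat_lit 9) (nat_lit 92) (nat_lit 12) (nat_lit 0x2fe5695ff006bfda397f778afe8535fd430bfeddd7f77eafe6465fdc86bfc03d7f8d2afef215fe232bff0517f95fafeb965fd6c6bfa4ed7fdbfafebeb) b57416 (.nil)))) (.tok (nat_lit 56) (nat_lit 0x2fdacb5fddd0bf9b1d7f1262fdc235fc0f4bfb13d7f26dafdcf65fcf8ebf805d7f325afdeef5fbb06bfb8097f2e1afde795fbca6bf71117f15cafe6d2) (.hit (nat_lit 93) (nat_lit 13) (nat_lit 0x2fdacb5fcef2bf98657efaf2fd9635fc0f4bfb13d7f220afda085fba22bf7ead7f3112fdec65fbb06bfac597f1272fdc385fb5bcbf5ced7efc02fdb1d) b57417 (.hit (nat_lit 99) (nat_lit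 19) (nat_lit 0x2fc8865f9622bf4cfd7e48bafc33c5fa27abf54017e67a2fc6345f98c0bf25617eda82fd8815fa8eebf830d7e89bafd2665f98d0bf05757eadf2fd04d) b57421 (.one (nat_lit 6) (nat_lit 94) (nat_lit 14) (nat_lit 0x2fd0de5fddd0bf9b1d7f1262fdc235fb79ebf88dd7f26dafdcf65fcf8ebf805d7f325afdeef5fb930bfb8097f2e1afde795fbca6bf71117f15cafe6d2) b57418 (.nil)))) (.nil))))) (.tok (nat_lit 52) (nat_lit 0x2fcd9d5fbedebf6bf17e970afccb85fb35abf74dd7eab82fd0265fced6bfa3197f5ab2fe27c5fda66bfb4ad7f270afee4a5fd148bf5e8d7f604afdf83) (.hit (nat_lit 106) (nat_lit 39) (nat_lit 0x2fcb6a5fbedebf67797e970afccb85fb35abf74dd7eab82fce6b5fc6e6bf82917f5ab2fe27c5fda66bf6eb17f270afee4a5fd148bf453d7f604afdead) b57422 (.hit (nat_lit 107) (nat_lit 40) (nat_lit 0x2fcd9d5fb1b6bf6bf17e8abafcb2e5fa048bf6b8d7e9f32fd0265fced6bfa3197f2962fddd05fb6f2bfb4ad7f00fafe00c5fb226bf5e8d7f050afdf83) b57423 (.nil))) (.tok (nat_lit 55) (nat_lit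 0x300000600000c0000180000300000600000c000018000030016d600000c003d980353aff8a1600000c0000180000300000600000c00fe580000300000) (.hit (nat_lit 108) (nat_lit 41) (nat_lit 0x2ff0045ff7aebfc3997fbbeaff6e85ffc36bffa998000030016d5fe8d6c003d97fc262fefe95fe75ebfecb97fae52feee75fe046bfad097f9e0afef45) b57424 (.tok (nat_lit 3) (nat_lit 0x3000005ff3b8bfe80d800003000005fe452c000017fb77aff3ac5ff02cbfcd797fb912ff5955fee82bff7597fbf9aff1155fe0f4bfcb717fca82ff371) (.hit (nat_lit 114) (nat_lit 47) (nat_lit 0x2fe6445fd6c4bfb8d17f6782fee945fe452bfc37d7f4622fe1265fce2ebf8c097f4a5afe3dd5fca30bfbbe17f5b8afe4295fc7aebf76c97f42cafe2c1) b57430 (.one (nat_lit 67) (nat_lit 115) (nat_lit 48) (nat_lit 0x3000005ff3b8bfe80d800003000005fe3a8c000017fb77aff3ac5ff02cbfcd797fb912ff5955fee82bff7597fbf9aff1155fe0f4bfcb717fca82ff371) b57431 (.nil))) (.tok (nat_lit 6) (nat_lit 0x2ff98e600000c000017f8972fefcc600000bff6517fa192ff2ab600000bfcf2580353aff8a1600000c0000180000300000600000c00fe580000300000)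 (.hit (nat_lit 109) (nat_lit 42) (nat_lit 0x2fe3ec5fc3b8bf94ed7f0322fdd605fd676bfbdf97f331afe0b25fcce0bf8dad7f631afe7915fe222bf96997f6b9aff2d55fd860bf81ad7f6edafe247) b57425 (.hit (nat_lit 112) (nat_lit 45) (nat_lit 0x2fd74c5fd20ebfdaa97efdbafd98e5fb5dcbf92497f1232fda615fde9abf9a597f474afe18d5fc168bfe8057f8132fe92b5fd194bfd7b17f94eafefa7) b57428 (.tok (nat_lit 55) (nat_lit 0x2ff98e600000c000017f8972fefcc600000bff6517fa192ff2ab600000bfcf2580353aff8a1600000c0000180000300000600000c00fe580000300000) (.hit (nat_lit 110) (nat_lit 43) (nat_lit 0x2ff98e5ff328bff2b17f5c42feb5e600000bfea7d7f7922fefa85fecaabfccad80353aff8a15fffb2bfc1d5800003000005ff6d8bfb8097fe7c2ff25c) b57426 (.hit (nat_lit 113) (nat_lit 46) (nat_lit 0x2fe698600000c000017f45cafe2905fd49abfcf397f5a42fe90f600000bfcf257f8e6afec1a5fdff6c000017fde1aff4795fe8a8c00fe580000300000) b57429 (.one (nat_lit 6) (nat_lit 111) (nat_lit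 44) (nat_lit 0x2ff70f5fe63abfe9c17f8972fefcc5ff83cbff6517fa192ff2ab5ff0f8bfc8a17fe9e2ff2dd600000bf91dd7ff9e2fff37600000bf6d6d7ff322ff407) b57427 (.nil)))) (.nil)))) (.nil)))) (.one (nat_lit 58) (nat_lit 116) (nat_lit 49) (nat_lit 0x2fd63e5fbafabfafe17eb632fd1b45fb20abf8f557ede4afd9185fcb72bf9dd17f434b000005fe066bfd7597f7f62fe4b95fc6dcbf90ed7f8112fe4bb) b57432 (.nil)))))) (.nil))
noncomputable def r84_14 : Rw Blk := .tok (nat_lit 9) (nat_lit 0x1780002f0000600000c0000180000300000) (.hit (nat_lit 0) (nat_lit 0) (nat_lit 0x1780002f00005fd120bfb5717f8352fe709) b57433 (.tok (nat_lit 14) (nat_lit 0x1780002f00005fe8aebfe3617fdd82ff55d) (.hit (nat_lit 11) (nat_lit 61) (nat_lit 0x1780002f00005fe8aebfd8e97fd1e2ff0db) b57434 (.one (nat_lit 3) (nat_lit 12) (nat_lit 62) (nat_lit 0x1780002f00005fe584bfb2897f8522fe743) b57435 (.tok (nat_lit 6) (nat_lit 0x1780002f00005fe1b0bfe3617fdd82ff55d) (.hit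 (nat_lit 15) (nat_lit 65) (nat_lit 0x1780002f00005fe1b0bfe3617fdd82ff55d) b57438 (.hit (nat_lit 16) (nat_lit 66) (nat_lit 0x1780002f00005fd6babfd5b17fcb72ff00d) b57439 (.nil))) (.tok (nat_lit 9) (nat_lit 0x1780002f00005fd3ecbfd5d97fcbc2ff017) (.hit (nat_lit 13) (nat_lit 63) (nat_lit 0x1780002f00005fbf78bfd5d97fcbc2ff017) b57436 (.hit (nat_lit 14) (nat_lit 64) (nat_lit 0x1780002f00005fd3ecbfcee17fbdd2fee59) b57437 (.nil))) (.nil))))) (.one (nat_lit 17) (nat_lit 17) (nat_lit 67) (nat_lit 0x1780002f00005fd178bf88457f309afdcb2) b57440 (.tok (nat_lit 20) (nat_lit 0x1780002f00005fcef0bf85f57f2bfafdc1e) (.hit (nat_lit 18) (nat_lit 68) (nat_lit 0x1780002f00005f9786bf85f57f2bfafdc1e) b57441 (.hit (nat_lit 19) (nat_lit 69) (nat_lit 0x1780002f00005fcef0bf81f57f23fafdb1e) b57442 (.nil))) (.tok (nat_lit 23) (nat_lit 0x1780002f00005ffb9abfed4d7ff92affc40) (.hit (nat_lit 20) (nat_lit 70) (nat_lit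 0x1780002f00005ffb9abfed4d7ff92affc40) b57443 (.hit (nat_lit 21) (nat_lit 71) (nat_lit 0x1780002f00005fd456bf81f57f23fafdb1e) b57444 (.nil))) (.one (nat_lit 38) (nat_lit 26) (nat_lit 76) (nat_lit 0x1780002f00005fce06bf89457f329afdcf2) b57445 (.tok (nat_lit 41) (nat_lit 0x1780002f00005fd35abf5ff17edff2fd29d) (.hit (nat_lit 27) (nat_lit 77) (nat_lit 0x1780002f00005fc276bf2f917e54eafc27c) b57446 (.hit (nat_lit 28) (nat_lit 78) (nat_lit 0x1780002f00005fd35abf5ff17edff2fd29d) b57447 (.nil))) (.tok (nat_lit 44) (nat_lit 0x1780002f00005fd8acbf674d7eda9afd409) (.hit (nat_lit 29) (nat_lit 79) (nat_lit 0x1780002f00005f6de6bf32b57e857afc74e) b57448 (.hit (nat_lit 30) (nat_lit 80) (nat_lit 0x1780002f00005fd8acbf674d7eda9afd409) b57449 (.nil))) (.tok (nat_lit 47) (nat_lit 0x1780002f00005fd7f6bf74117eda9afd5c5) (.hit (nat_lit 31) (nat_lit 81) (nat_lit 0x1780002f00005fd7f6bf74117ed292fd5c5)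 b57450 (.hit (nat_lit 32) (nat_lit 82) (nat_lit 0x1780002f00005fbf78bf5d457eda9afd1f2) b57451 (.nil))) (.one (nat_lit 50) (nat_lit 33) (nat_lit 83) (nat_lit 0x1780002f00005fbf0ebf6efd7efe0afd660) b57452 (.tok (nat_lit 53) (nat_lit 0x1780002f00005fcdeabf9d457f5a9afe1f2) (.hit (nat_lit 34) (nat_lit 84) (nat_lit 0x1780002f00005fb560bf9d457f5a9afe1f2) b57453 (.hit (nat_lit 35) (nat_lit 85) (nat_lit 0x1780002f00005fcdeabf75297f0a62fd7eb) b57454 (.nil))) (.tok (nat_lit 56) (nat_lit 0x1780002f00005fd0d2bfbfdd7f9c02fea1f) (.hit (nat_lit 36) (nat_lit 86) (nat_lit 0x1780002f00005fd0d2bfbfdd7f5eaafe85f) b57455 (.one (nat_lit 3) (nat_lit 40) (nat_lit 90) (nat_lit 0x1780002f00005f9e42bf936d7f46eafdf7c) b57459 (.tok (nat_lit 6) (nat_lit 0x1780002f00005fb388bfbdf97f9c02fea1f) (.hit (nat_lit 38) (nat_lit 88) (nat_lit 0x1780002f00005fb388bfbdf97f9c02fea1f) b57457 (.hit (nat_lit 39) (nat_lit 89)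 (nat_lit 0x1780002f00005fa8f2bfa8cd7f71aafe4d4) b57458 (.nil))) (.one (nat_lit 9) (nat_lit 37) (nat_lit 87) (nat_lit 0x1780002f00005fae18bfb3197f8642fe767) b57456 (.nil))))) (.one (nat_lit 59) (nat_lit 41) (nat_lit 91) (nat_lit 0x1780002f00005fbfe2bf37757e7efafc81c) b57460 (.one (nat_lit 62) (nat_lit 42) (nat_lit 92) (nat_lit 0x1780002f00005fce1ebf6efd7efe0afd660) b57461 (.tok (nat_lit 65) (nat_lit 0x1780002f00005fcfeabf913d7f428afdef0) (.hit (nat_lit 43) (nat_lit 93) (nat_lit 0x1780002f00005f9d86bf913d7f428afdef0) b57462 (.hit (nat_lit 44) (nat_lit 94) (nat_lit 0x1780002f00005fcfeabf68897ebc12fd460) b57463 (.nil))) (.tok (nat_lit 68) (nat_lit 0x1780002f0000600000c0000180000300000) (.hit (nat_lit 45) (nat_lit 95) (nat_lit 0x1780002f00005ffed2bfeed57ff772fffe1) b57464 (.one (nat_lit 3) (nat_lit 49) (nat_lit 99) (nat_lit 0x1780002f0000600000bfc0017f9b7aff300) b57468 (.one (nat_lit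 6) (nat_lit 46) (nat_lit 96) (nat_lit 0x1780002f00005fea5ec0000180000300000) b57465 (.tok (nat_lit 9) (nat_lit 0x1780002f00005fef08bfc88d7fb12afecc4) (.hit (nat_lit 47) (nat_lit 97) (nat_lit 0x1780002f00005fef08bfc88d7fb12afecc4) b57466 (.hit (nat_lit 48) (nat_lit 98) (nat_lit 0x1780002f00005fd8f0bf94357f487afdfae) b57467 (.nil))) (.nil))))) (.one (nat_lit 71) (nat_lit 50) (nat_lit 100) (nat_lit 0x1780002f00005fc118bf3af57e7efafc8ef) b57469 (.nil)))))))))))))))))) (.nil)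
noncomputable def r84_15 : Rw Blk := .tok (nat_lit 6) (nat_lit 0x1780002f00005ff720c0406d805b03009e56014c4bfeed180000300000) (.hit (nat_lit 0) (nat_lit 0) (nat_lit 0x1780002f00005fa89abf77697f051afd13e5fb634bf22b57e55c2fcef5) b57470 (.tok (nat_lit 14) (nat_lit 0x1780002f00005ff19cbfeddd7f81f2feb3c5fe7ecbfaf517f390afe96a) (.hit (nat_lit 21) (nat_lit 61) (nat_lit 0x1780002f00005fd8fcbfa4a57f3902fd7215fc872bf79b17ec3e2fd992) b57471 (.one (nat_lit 3) (nat_lit 22) (nat_lit 62) (nat_lit 0x1780002f00005fe1a6bf8fe57f4f32fd5045fdc36bf81957f02c2fe126) b57472 (.tok (nat_lit 6) (nat_lit 0x1780002f00005fb8b0bf942d7f450afd93c5fbc42bf4c5d7e9862fd499) (.hit (nat_lit 25) (nat_lit 65) (nat_lit 0x1780002f00005f71fcbf60fd7f092afd0535fa7b6bf2eb97e5d1afd31b) b57475 (.hit (nat_lit 26) (nat_lit 66) (nat_lit 0x1780002f00005fb8b0bf942d7f450afd93c5fbc42bf4c5d7e9862fd499) b57476 (.nil))) (.tok (nat_lit 9)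 (nat_lit 0x1780002f00005ff19cbfeddd7f81f2feb3c5fe7ecbfaf517f390afe96a) (.hit (nat_lit 23) (nat_lit 63) (nat_lit 0x1780002f00005ff19cbfeddd7f81f2feb3c5fe7ecbfaf517f390afe96a) b57473 (.hit (nat_lit 24) (nat_lit 64) (nat_lit 0x1780002f00005fb5aebf65957efb9afd0195fabb4bf27f17e4f8afd169) b57474 (.nil))) (.nil))))) (.one (nat_lit 17) (nat_lit 27) (nat_lit 67) (nat_lit 0x1780002f00005fc724bf6dfd7f1a6afcae75fdc84bf6c297eaebafce8a) b57477 (.tok (nat_lit 20) (nat_lit 0x1780002f00005ff720c0406d805b03009e56014c4bfeed180000300000) (.hit (nat_lit 28) (nat_lit 68) (nat_lit 0x1780002f00005ff720c0406d805b03009e56014c4bfeed180000300000) b57478 (.hit (nat_lit 29) (nat_lit 69) (nat_lit 0x1780002f00005fad28bf3d597e962afc1ea5fabbabf00b17de3eafc1ed) b57479 (.nil))) (.tok (nat_lit 23) (nat_lit 0x1780002f00005fa764bf3b497eb542fbf965fbc78bf28ad7e2cb2fc275) (.hit (nat_lit 30) (nat_lit 70) (nat_lit 0x1780002f00005f5082bf1e097e8342fbf965f863cbeebc57dd732fc25e)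 b57480 (.hit (nat_lit 31) (nat_lit 71) (nat_lit 0x1780002f00005fa764bf3b497eb542fbe685fbc78bf28ad7e2cb2fc275) b57481 (.nil))) (.one (nat_lit 26) (nat_lit 32) (nat_lit 72) (nat_lit 0x1780002f00005f998ebf15f17e5f0afb82d5fa7f6befae17dd772fb779) b57482 (.one (nat_lit 29) (nat_lit 33) (nat_lit 73) (nat_lit 0x1780002f00005fa412bf49dd7e96b2fc0975fd2d2bf56497e52e2fc6ab) b57483 (.one (nat_lit 32) (nat_lit 34) (nat_lit 74) (nat_lit 0x1780002f00005f8a20bef2e17e0522fb00f5f8d1ebec12d7d69eafb1e1) b57484 (.one (nat_lit 35) (nat_lit 35) (nat_lit 75) (nat_lit 0x1780002f00005fb926bf31fd7e9ebafbebd5fd038bf51157e6082fc6fe) b57485 (.one (nat_lit 38) (nat_lit 36) (nat_lit 76) (nat_lit 0x1780002f00005fa43ebf2e297ea90afc1a85f9c9cbef40d7de7c2fc470) b57486 (.tok (nat_lit 41) (nat_lit 0x1780002f00005f9c24bf4b8d7ed4e2fc39f5fca92bf3fe97e55d2fc593) (.hit (nat_lit 37) (nat_lit 77) (nat_lit 0x1780002f00005f8f86bf10357e54d2fb37e5f9730beedc57df562fbbd2)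 b57487 (.hit (nat_lit 38) (nat_lit 78) (nat_lit 0x1780002f00005f9c24bf4b8d7ed4e2fc39f5fca92bf3fe97e55d2fc593) b57488 (.nil))) (.tok (nat_lit 44) (nat_lit 0x1780002f00005fbaf4bf60c97edec2fcb1e5fd076bf652d7eef02fcd02) (.hit (nat_lit 39) (nat_lit 79) (nat_lit 0x1780002f00005fbaf4bf60c97edec2fcb1e5fd076bf652d7eef02fcd02) b57489 (.hit (nat_lit 40) (nat_lit 80) (nat_lit 0x1780002f00005fa378bf07fd7e2b22fb46f5fa73cbef77d7de362fbaeb) b57490 (.nil))) (.tok (nat_lit 47) (nat_lit 0x1780002f00005fce66bf595d7efd12fc8405fe9e6bf809d7ece6afd1b1) (.hit (nat_lit 41) (nat_lit 81) (nat_lit 0x1780002f00005f41b0bf00657e47fafb82d5f776abece217d9beafbaf5) b57491 (.hit (nat_lit 42) (nat_lit 82) (nat_lit 0x1780002f00005fce66bf595d7efd12fc8405fe9e6bf809d7ece6afd1b1) b57492 (.nil))) (.one (nat_lit 50) (nat_lit 43) (nat_lit 83) (nat_lit 0x1780002f00005fb6dabf3b697ebdfafc1a95fba1ebf23757e3802fc41d) b57493 (.tok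 (nat_lit 53) (nat_lit 0x1780002f00005fccc6bfc4dd7f5adafdb755fd142bf75657f4752fd8ff) (.hit (nat_lit 44) (nat_lit 84) (nat_lit 0x1780002f00005fccc6bfc4dd7f5adafdb755fd142bf75657f4752fd8ff) b57494 (.hit (nat_lit 45) (nat_lit 85) (nat_lit 0x1780002f00005fb4aabf52b97ec992fc6455fced6bf4e9d7e8602fca7f) b57495 (.nil))) (.tok (nat_lit 56) (nat_lit 0x1780002f00005fd72ebfd2f17fb44aff02c5fef3cbfabc97f5752fde6d) (.hit (nat_lit 46) (nat_lit 86) (nat_lit 0x1780002f00005fd0b2bfbbd17f76b2fe4745fd532bf6da97ed3eafd915) b57496 (.one (nat_lit 3) (nat_lit 50) (nat_lit 90) (nat_lit 0x1780002f00005fb7b6bf8e557f283afda945fc06ebf40097e847afc8e6) b57500 (.tok (nat_lit 6) (nat_lit 0x1780002f00005fd098bf8cd97f4892fd5215fef3cbfabc97f5752fdaff) (.hit (nat_lit 48) (nat_lit 88) (nat_lit 0x1780002f00005fd098bf8cd97f4892fd5215fef3cbfabc97f5752fdaff) b57498 (.hit (nat_lit 49) (nat_lit 89) (nat_lit 0x1780002f00005fc4cabf74e97ef6cafcf785fcad4bf5f357ebe7afd0fc)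 b57499 (.nil))) (.one (nat_lit 9) (nat_lit 47) (nat_lit 87) (nat_lit 0x1780002f00005fd72ebfd2f17fb44aff02c5fe872bf92ed7f484afde6d) b57497 (.nil))))) (.one (nat_lit 59) (nat_lit 51) (nat_lit 91) (nat_lit 0x1780002f00005fab72bf26517e7c02fbb725fbc7cbf2ae97e1e1afbf9b) b57501 (.nil)))))))))))))))))) (.tok (nat_lit 52) (nat_lit 0x1780002f0000600000c06b7980a62b0053260207ac000017fd4bafff70) (.hit (nat_lit 176) (nat_lit 0) (nat_lit 0x1780002f0000600000c06b7980a62b0053260207ac000017fd4bafff70) b57502 (.tok (nat_lit 6) (nat_lit 0x1780002f00005fd834bfbba57fed3afe3ca5fed38bfa7097f4e22fe88a) (.hit (nat_lit 177) (nat_lit 7) (nat_lit 0x1780002f00005fd834bfbba57fed3afe3ca5fed38bfa7097f4e22fe88a) b57503 (.hit (nat_lit 178) (nat_lit 15) (nat_lit 0x1780002f00005fb672bf99f97f9782fdb285fce76bf69857ed31afdb6a) b57504 (.nil))) (.tok (nat_lit 9) (nat_lit 0x1780002f00005fd1d6bfa8597fb442fdec05fe152bf8f3d7f1e8afe325)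 (.hit (nat_lit 179) (nat_lit 20) (nat_lit 0x1780002f00005faaa6bfa8597fb442fdec05fcfbabf6aa17ee6f2fdf02) b57505 (.hit (nat_lit 180) (nat_lit 28) (nat_lit 0x1780002f00005fd1d6bfa4957facbafddcf5fe152bf8f3d7f1e8afe325) b57506 (.nil))) (.nil)))) (.tok (nat_lit 55) (nat_lit 0x1780002f00005fc9debfe6c9803122fee5c5feef2bfa9117f63d2fee9e) (.hit (nat_lit 187) (nat_lit 0) (nat_lit 0x1780002f00005fc552bfb1357fc5fafe0f75fd428bf737d7ef8aafe139) b57507 (.tok (nat_lit 3) (nat_lit 0x1780002f00005fb7e2bfc2d17fe932fe55e5fdcf6bf85197f1be2fe5a0) (.hit (nat_lit 188) (nat_lit 1) (nat_lit 0x1780002f00005f8a9abf68417f3412fceba5fafaebf2a897e66c2fcefc) b57508 (.one (nat_lit 67) (nat_lit 189) (nat_lit 2) (nat_lit 0x1780002f00005fb7e2bfc2d17fe932fe55e5fdcf6bf85197f1be2fe5a0) b57509 (.nil))) (.tok (nat_lit 6) (nat_lit 0x1780002f00005fc9debfe6c9803122fee5c5feef2bfa9117f63d2fee9e) (.hit (nat_lit 190) (nat_lit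 7) (nat_lit 0x1780002f00005f9fa4bf92557f883afd93f5fc4b8bf549d7ebaeafd981) b57510 (.hit (nat_lit 193) (nat_lit 15) (nat_lit 0x1780002f00005f8c46bf6b997f3ac2fcf905fb15abf2de17e6d72fcfd2) b57513 (.tok (nat_lit 55) (nat_lit 0x1780002f00005fc9debfe6c9803122fee5c5feef2bfa9117f63d2fee9e) (.hit (nat_lit 191) (nat_lit 8) (nat_lit 0x1780002f00005fbd74bfcdf57fff7afe8275fe288bf903d7f322afe869) b57511 (.hit (nat_lit 194) (nat_lit 16) (nat_lit 0x1780002f00005fbd40bfcd8d7ffeaafe80d5fe254bf8fd57f315afe84f) b57514 (.one (nat_lit 6) (nat_lit 192) (nat_lit 9) (nat_lit 0x1780002f00005fc9debfe6c9803122fee5c5feef2bfa9117f63d2fee9e) b57512 (.nil)))) (.nil)))) (.nil)))) (.tok (nat_lit 58) (nat_lit 0x1780002f00005fcef0bfee91804d32ff04e5ff2d6bfb0d97f7362ff090) (.hit (nat_lit 201) (nat_lit 0) (nat_lit 0x1780002f00005fcef0bfde09804d32fe5cc5fe08ebf86117f1dd2fe5de) b57515 (.tok (nat_lit 3) (nat_lit 0x1780002f00005fcdc2bfee918040b2ff04e5ff2d6bfb0d97f7362ff090)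 (.hit (nat_lit 202) (nat_lit 1) (nat_lit 0x1780002f00005f9a94bf88357f73fafd6b75fbfa8bf4a7d7ea6aafd6f9) b57516 (.one (nat_lit 55) (nat_lit 203) (nat_lit 3) (nat_lit 0x1780002f00005fcdc2bfee918040b2ff04e5ff2d6bfb0d97f7362ff090) b57517 (.nil))) (.tok (nat_lit 9) (nat_lit 0x1780002f00005f9ed4bf90b57f84fafd8d75fc3e8bf52fd7eb7aafd919) (.hit (nat_lit 204) (nat_lit 20) (nat_lit 0x1780002f00005f9e7abf90017f8392fd8aa5fc38ebf52497eb642fd8ec) b57518 (.hit (nat_lit 207) (nat_lit 28) (nat_lit 0x1780002f00005f9ed4bf90b57f84fafd8d75fc3e8bf52fd7eb7aafd919) b57519 (.nil))) (.nil)))) (.nil))))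
noncomputable def r84_16 : Rw Blk := .tok (nat_lit 3) (nat_lit 0x1780002f0000601f46bfea35800542fffc16007bcc051c580f4c301750) (.hit (nat_lit 15) (nat_lit 0) (nat_lit 0x1780002f0000600030bfa5b17faf8aff0ad5fcaeabfd5f980088affd48) b57535 (.tok (nat_lit 9) (nat_lit 0x1780002f00005fdfc8bf5da17eea72fc86e5faf3ebf997d7f8302fe33d) (.hit (nat_lit 16) (nat_lit 20) (nat_lit 0x1780002f00005f7a54bed8a97de082fa7305f6b3abef0457e1102fb9aa) b57536 (.hit (nat_lit 21) (nat_lit 28) (nat_lit 0x1780002f00005f9910beaaad7d848af9bb15f7b1abf343d7eba8afd411) b57539 (.tok (nat_lit 14) (nat_lit 0x1780002f00005fc07cbf48857ec03afc3275facacbf85c17f76eafe265) (.hit (nat_lit 17) (nat_lit 24) (nat_lit 0x1780002f00005f9cfcbf06197e3b62fb28c5f81f2bf200d7e9ba2fcafe) b57537 (.hit (nat_lit 22) (nat_lit 30) (nat_lit 0x1780002f00005fb00ebf48857ec03afc3275facacbf85c17f76eafe265) b57540 (.one (nat_lit 6) (nat_lit 18) (nat_lit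 25) (nat_lit 0x1780002f00005fc07cbf14b57e589afb6335f9636bf670d7f29a2fdcbe) b57538 (.nil)))) (.one (nat_lit 56) (nat_lit 23) (nat_lit 31) (nat_lit 0x1780002f00005fdfc8bf5da17eea72fc86e5faf3ebf997d7f8302fe33d) b57541 (.nil))))) (.tok (nat_lit 64) (nat_lit 0x1780002f00005fce58bf66017efb32fca865fbfd8bfbfc97fc7a2ff204) (.hit (nat_lit 25) (nat_lit 50) (nat_lit 0x1780002f00005fc42cbf44957eb85afc22b5fa282bf89297f744afe31f) b57542 (.hit (nat_lit 26) (nat_lit 51) (nat_lit 0x1780002f00005fce58bf66017efb32fca865fbfd8bfbfc97fc7a2ff204) b57543 (.nil))) (.tok (nat_lit 67) (nat_lit 0x1780002f0000601f46bfea35800542fffc15fdc26bfff2580556b00950) (.hit (nat_lit 27) (nat_lit 52) (nat_lit 0x1780002f0000601f46bfea35800542fffc15fdc26bfff2580556b00950) b57544 (.tok (nat_lit 3) (nat_lit 0x1780002f00005fd7c8bf5a197ee362fc78c5fad82bf95a57f86d2fe864) (.hit (nat_lit 33) (nat_lit 58) (nat_lit 0x1780002f00005fb1e6bf39597ea1e2fbf5c5f9b92bf50f57eef4afd573)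 b57547 (.one (nat_lit 55) (nat_lit 34) (nat_lit 59) (nat_lit 0x1780002f00005fd7c8bf5a197ee362fc78c5fad82bf95a57f86d2fe864) b57548 (.nil))) (.tok (nat_lit 9) (nat_lit 0x1780002f00005fb3babf44557eb7dafc21b5fa110bf5bf17ef69afd65d) (.hit (nat_lit 28) (nat_lit 53) (nat_lit 0x1780002f00005fb3babf44557eb7dafc21b5fa110bf5bf17ef69afd65d) b57545 (.hit (nat_lit 31) (nat_lit 56) (nat_lit 0x1780002f00005facf6bf28e17e80f2fbb3e5f9356bf407d7edb8afd2fb) b57546 (.nil))) (.nil)))) (.one (nat_lit 70) (nat_lit 35) (nat_lit 60) (nat_lit 0x1780002f0000601744bf93d57f56dafd5fb6007bcc051c580f4c301750) b57549 (.nil)))))) (.tok (nat_lit 6) (nat_lit 0x1780002f00006067eac0df8582591303cfd606144c0f7ad8243fb04672) (.hit (nat_lit 0) (nat_lit 0) (nat_lit 0x1780002f00006003a6bff3418019daff88f5fe550c0087d804de2fff00) b57520 (.tok (nat_lit 6) (nat_lit 0x1780002f00006016acc0360d80b08b00d956009a0c076998117e301899) (.hit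 (nat_lit 1) (nat_lit 7) (nat_lit 0x1780002f00005fa2f2bf46a97ec912fcbab5f8e96bf5fdd7ed722fd757) b57521 (.hit (nat_lit 4) (nat_lit 15) (nat_lit 0x1780002f00005fb598bf89917f1d4afd9e25f8fb4bf5ff57f167afd91d) b57524 (.tok (nat_lit 14) (nat_lit 0x1780002f00006016acc0360d80b08b00d956009a0c076998117e301899) (.hit (nat_lit 2) (nat_lit 11) (nat_lit 0x1780002f00005fcff2bf8d097f5532fe4bb5fb090bfc4b97fd0a2ff01b) b57522 (.hit (nat_lit 5) (nat_lit 17) (nat_lit 0x1780002f00005fe86ebfd4817fb58afee385fc4f6bfb6517fcbdafee62) b57525 (.one (nat_lit 9) (nat_lit 3) (nat_lit 12) (nat_lit 0x1780002f00006016acc0360d80b08b00d956009a0c076998117e301899) b57523 (.nil)))) (.one (nat_lit 68) (nat_lit 6) (nat_lit 18) (nat_lit 0x1780002f0000600778bff96d803122ffe8a5fe8a6c00af5804e03004a9) b57526 (.nil))))) (.tok (nat_lit 52) (nat_lit 0x1780002f0000606592c07a4981e0e302be0601ec4c086a581c7cb03760) (.hit (nat_lit 7)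 (nat_lit 39) (nat_lit 0x1780002f0000606592c07a4981e0e302be0601ec4c086a581c7cb03760) b57527 (.hit (nat_lit 8) (nat_lit 40) (nat_lit 0x1780002f0000601826c014b57ff6c2ffa245fdec6c00631806172ffd88) b57528 (.nil))) (.tok (nat_lit 55) (nat_lit 0x1780002f00006067eac0dd59825913036e3606144c0f7ad8243fb04672) (.hit (nat_lit 9) (nat_lit 41) (nat_lit 0x1780002f0000604940c0b28d80fdbb01e93604d38c0aeed81921302ce4) b57529 (.tok (nat_lit 3) (nat_lit 0x1780002f00005fff9cc00901806e22ffcdc5fec3cc0213180649b0054f) (.hit (nat_lit 12) (nat_lit 47) (nat_lit 0x1780002f00005fe5ccc00901806e22ffcdc5fec3cc021318062eb0054f) b57532 (.one (nat_lit 67) (nat_lit 13) (nat_lit 48) (nat_lit 0x1780002f00005fff9cbffccd8005eaffa485fdf30c0211580649b00228) b57533 (.nil))) (.tok (nat_lit 6) (nat_lit 0x1780002f00006067eac0dd59825913036e3606144c0f7ad8243fb04672) (.hit (nat_lit 10) (nat_lit 42) (nat_lit 0x1780002f00006067eac0dd59825913036e3606144c0f7ad8243fb04672)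 b57530 (.hit (nat_lit 11) (nat_lit 45) (nat_lit 0x1780002f00005feeb2bfc1dd7f646afea8e5fbd1abfcfed7fd5a2fee2a) b57531 (.nil))) (.nil)))) (.one (nat_lit 58) (nat_lit 14) (nat_lit 49) (nat_lit 0x1780002f000060605cc0df8581f9e303cfd605230c0cad1823c4b039a7) b57534 (.nil)))))) (.nil))
noncomputable def r84_17 : Rw Blk := .tok (nat_lit 6) (nat_lit 0xbc0001780003041d960b73ec15f2182649b04843) (.hit (nat_lit 0) (nat_lit 0) (nat_lit 0xbc0001780002ff36860249cc04ccd804ddb006d6) b57550 (.tok (nat_lit 14) (nat_lit 0xbc000178000302c706068aac0cfc5818cc303010) (.hit (nat_lit 1) (nat_lit 61) (nat_lit 0xbc000178000300344600a20c01b8d80575b00a7a) b57551 (.one (nat_lit 3) (nat_lit 2) (nat_lit 62) (nat_lit 0xbc000178000300ba2600a78c016b58064e300af3) b57552 (.tok (nat_lit 6) (nat_lit 0xbc0001780002feb225fe2bcbfd6057fd70aff7bb) (.hit (nat_lit 5) (nat_lit 65) (nat_lit 0xbc0001780002feb225fd996bfc5417f93aaff01f)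 b57555 (.hit (nat_lit 6) (nat_lit 66) (nat_lit 0xbc0001780002fe1fa5fe2bcbfd6057fd70aff7bb) b57556 (.nil))) (.tok (nat_lit 9) (nat_lit 0xbc000178000302c706068aac0cfc5818cc303010) (.hit (nat_lit 3) (nat_lit 63) (nat_lit 0xbc000178000302c706068aac0cfc5818cc303010) b57553 (.hit (nat_lit 4) (nat_lit 64) (nat_lit 0xbc0001780002ff1ef5ff6dabff295800b9300255) b57554 (.nil))) (.nil))))) (.one (nat_lit 17) (nat_lit 7) (nat_lit 67) (nat_lit 0xbc0001780002fef1e5fec38bfc9457f83e2fed2c) b57557 (.tok (nat_lit 20) (nat_lit 0xbc0001780003041d960b73ec15f2182649b04843) (.hit (nat_lit 8) (nat_lit 68) (nat_lit 0xbc0001780003041d960b73ec15f2182649b04843) b57558 (.hit (nat_lit 9) (nat_lit 69) (nat_lit 0xbc0001780002fe9e45fd708bfa2317f595afe0c5) b57559 (.nil))) (.tok (nat_lit 23) (nat_lit 0xbc0001780002fe8065fe89abfc7197fa672ff06e) (.hit (nat_lit 10) (nat_lit 70) (nat_lit 0xbc0001780002fe0e55fc51cbf9c4d7f41c2fe5e2)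 b57560 (.hit (nat_lit 11) (nat_lit 71) (nat_lit 0xbc0001780002fe8065fe89abfc7197fa672ff06e) b57561 (.nil))) (.one (nat_lit 26) (nat_lit 12) (nat_lit 72) (nat_lit 0xbc0001780002ff0d25fe73cbfbc917f80b2fe843) b57562 (.one (nat_lit 29) (nat_lit 13) (nat_lit 73) (nat_lit 0xbc0001780002ff6de5fe51abfca6d7f939afee57) b57563 (.one (nat_lit 32) (nat_lit 14) (nat_lit 74) (nat_lit 0xbc0001780002fdcb75fcae2bf86997f1feafda5b) b57564 (.one (nat_lit 35) (nat_lit 15) (nat_lit 75) (nat_lit 0xbc0001780002ff2535fe96ebfcb897fa21afec5a) b57565 (.one (nat_lit 62) (nat_lit 23) (nat_lit 92) (nat_lit 0xbc0001780002ff92060009ebfe44d7fc1b2fefdf) b57566 (.tok (nat_lit 65) (nat_lit 0xbc0001780002fe51f5fe9bebfc7997fa1baff0ee) (.hit (nat_lit 24) (nat_lit 93) (nat_lit 0xbc0001780002fe3135fdd4abfc2297fa1baff0ee) b57567 (.hit (nat_lit 25) (nat_lit 94) (nat_lit 0xbc0001780002fe51f5fe9bebfc7997f7eeafebdd) b57568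 (.nil))) (.tok (nat_lit 68) (nat_lit 0xbc000178000300db660372ac0676d80c5e3013e7) (.hit (nat_lit 26) (nat_lit 95) (nat_lit 0xbc000178000300db660372ac0676d80c5e3013e7) b57569 (.one (nat_lit 3) (nat_lit 30) (nat_lit 99) (nat_lit 0xbc0001780002fe8e95fd524bfbc5d7f81e2fede6) b57573 (.one (nat_lit 6) (nat_lit 27) (nat_lit 96) (nat_lit 0xbc0001780002fe4165fcb7ebfa9117f5b4afe913) b57570 (.tok (nat_lit 9) (nat_lit 0xbc0001780002fe6825fd056bfb2c17f6eaafeb7f) (.hit (nat_lit 28) (nat_lit 97) (nat_lit 0xbc0001780002fe6825fd056bfb2c17f6eaafeb7f) b57571 (.hit (nat_lit 29) (nat_lit 98) (nat_lit 0xbc0001780002fdb205fb992bf85397f139afe01d) b57572 (.nil))) (.nil))))) (.one (nat_lit 71) (nat_lit 31) (nat_lit 100) (nat_lit 0xbc0001780002fe7695fd678bfabf97f4d7afe424) b57574 (.nil)))))))))))))) (.tok (nat_lit 52) (nat_lit 0xbc000178000302eec6054d6c0cbbd81cb7303476) (.hit (nat_lit 45) (nat_lit 0) (nat_lit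 0xbc000178000302eec605210c0cbbd81cb7303476) b57588 (.tok (nat_lit 6) (nat_lit 0xbc0001780003024db6054d6c0b39981811b02ec0) (.hit (nat_lit 46) (nat_lit 7) (nat_lit 0xbc0001780003024db6054d6c0b39981703302ec0) b57589 (.hit (nat_lit 47) (nat_lit 15) (nat_lit 0xbc000178000301afd60515cc0adb181811b02bf8) b57590 (.nil))) (.tok (nat_lit 9) (nat_lit 0xbc0001780002ffc6d60043ec01311803863000d6) (.hit (nat_lit 48) (nat_lit 20) (nat_lit 0xbc0001780002fec745ffcdcbff4057fec22ff3be) b57591 (.hit (nat_lit 49) (nat_lit 28) (nat_lit 0xbc0001780002ffc6d60043ec01311803863000d6) b57592 (.nil))) (.nil)))) (.tok (nat_lit 55) (nat_lit 0xbc000178000300c14603c1cc0728580e9230135e) (.hit (nat_lit 40) (nat_lit 0) (nat_lit 0xbc0001780003007d260212ec03ca9807d6b005e7) b57583 (.tok (nat_lit 3) (nat_lit 0xbc0001780003007736032dac0600180c41b00ebd) (.hit (nat_lit 41) (nat_lit 1) (nat_lit 0xbc0001780002ff8bd60156ec02529804e6b00007)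 b57584 (.one (nat_lit 67) (nat_lit 42) (nat_lit 2) (nat_lit 0xbc0001780003007736032dac0600180c41b00ebd) b57585 (.nil))) (.tok (nat_lit 6) (nat_lit 0xbc000178000300c14603c1cc0728580e9230135e) (.hit (nat_lit 43) (nat_lit 7) (nat_lit 0xbc000178000300c14603c1cc0728580e9230135e) b57586 (.hit (nat_lit 44) (nat_lit 15) (nat_lit 0xbc0001780002fef3c60026cbfff25800262ff686) b57587 (.nil))) (.nil)))) (.tok (nat_lit 58) (nat_lit 0xbc000178000302129606646c0c6d98191cb02873) (.hit (nat_lit 32) (nat_lit 0) (nat_lit 0xbc00017800030101b60479ec0966181469b01c2f) b57575 (.tok (nat_lit 3) (nat_lit 0xbc000178000302129606646c0c6d98191cb02873) (.hit (nat_lit 33) (nat_lit 1) (nat_lit 0xbc000178000300df3603fdac07a0180f81b0153d) b57576 (.one (nat_lit 55) (nat_lit 34) (nat_lit 3) (nat_lit 0xbc000178000302129606646c0c6d98191cb02873) b57577 (.nil))) (.tok (nat_lit 9) (nat_lit 0xbc000178000301fd96063a6c0c19981874b02723)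 (.hit (nat_lit 35) (nat_lit 20) (nat_lit 0xbc0001780003012cb60498ac08d61811edb01a15) b57578 (.hit (nat_lit 38) (nat_lit 28) (nat_lit 0xbc000178000300a7d6038eec06c2980dc6b011c7) b57581 (.tok (nat_lit 67) (nat_lit 0xbc000178000301fd96063a6c0c19981874b02723) (.hit (nat_lit 36) (nat_lit 21) (nat_lit 0xbc00017800030196f6056d2c0a7f18153fb020b9) b57579 (.hit (nat_lit 39) (nat_lit 29) (nat_lit 0xbc000178000301e576060a2c0bb91817b3b025a1) b57582 (.one (nat_lit 9) (nat_lit 37) (nat_lit 22) (nat_lit 0xbc000178000301fd96063a6c0c19981874b02723) b57580 (.nil)))) (.nil)))) (.nil)))) (.nil))))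
noncomputable def r84_18 : Rw Blk := .tok (nat_lit 3) (nat_lit 0xbc00017800030366160544cc09089819cab0307a) (.hit (nat_lit 0) (nat_lit 0) (nat_lit 0xbc00017800030366160544cc09089819cab02e38) b57593 (.tok (nat_lit 9) (nat_lit 0xbc0001780003020f76035d6c05c018145db02524) (.hit (nat_lit 1) (nat_lit 20) (nat_lit 0xbc0001780002ff0a95fd53abf9ac97fc36aff4d6) b57594 (.hit (nat_lit 6) (nat_lit 28) (nat_lit 0xbc0001780002ff62d5fe042bfb0d97fef8affa5a) b57597 (.tok (nat_lit 68) (nat_lit 0xbc0001780003020f76035d6c05c018145db02524) (.hit (nat_lit 4) (nat_lit 26) (nat_lit 0xbc0001780003003255ffa32bfe4b980574b00752) b57595 (.hit (nat_lit 8) (nat_lit 32) (nat_lit 0xbc0001780003015aa601f3cc02ecd80eb73019d7) b57598 (.one (nat_lit 9) (nat_lit 5) (nat_lit 27) (nat_lit 0xbc0001780003020f76035d6c05c018145db02524) b57596 (.nil)))) (.nil)))) (.tok (nat_lit 64) (nat_lit 0xbc0001780003025b2603f4cc06eed816bb3029df)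 (.hit (nat_lit 9) (nat_lit 50) (nat_lit 0xbc0001780003020696034bac059c981416b02496) b57599 (.hit (nat_lit 10) (nat_lit 51) (nat_lit 0xbc0001780003025b2603f4cc06eed816bb3029df) b57600 (.nil))) (.tok (nat_lit 67) (nat_lit 0xbc000178000303453604a0ec08bcd8176a30307a) (.hit (nat_lit 11) (nat_lit 52) (nat_lit 0xbc000178000303453604a0ec08bcd8176a30307a) b57601 (.one (nat_lit 3) (nat_lit 17) (nat_lit 58) (nat_lit 0xbc00017800030181360240ec0387180febb01c40) b57607 (.tok (nat_lit 9) (nat_lit 0xbc000178000301afc6029e0c0441581160301f29) (.hit (nat_lit 12) (nat_lit 53) (nat_lit 0xbc0001780003012fb6019dec0241180d5fb01728) b57602 (.hit (nat_lit 15) (nat_lit 56) (nat_lit 0xbc0001780003012006017e8c0202580ce230162d) b57605 (.tok (nat_lit 67) (nat_lit 0xbc000178000301afc6029e0c0441581160301f29) (.hit (nat_lit 13) (nat_lit 54) (nat_lit 0xbc0001780003017a7602336c036c180fb5b01bd4) b57603 (.hit (nat_lit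 16) (nat_lit 57) (nat_lit 0xbc000178000301afc6029e0c0441581160301f29) b57606 (.one (nat_lit 9) (nat_lit 14) (nat_lit 55) (nat_lit 0xbc00017800030127e6018e4c0221d80d213016ab) b57604 (.nil)))) (.nil)))) (.nil)))) (.one (nat_lit 70) (nat_lit 19) (nat_lit 60) (nat_lit 0xbc000178000301c7b602cdec04a118121fb020a8) b57608 (.nil)))))) (.tok (nat_lit 6) (nat_lit 0xbc000178000304823609e10c1131182296b0471c) (.hit (nat_lit 20) (nat_lit 0) (nat_lit 0xbc00017800030482360432ac091058217430471c) b57609 (.tok (nat_lit 6) (nat_lit 0xbc000178000304219609e10c1131182296b03ca7) (.hit (nat_lit 21) (nat_lit 7) (nat_lit 0xbc00017800030303b605f5ec0ccad8185730353b) b57610 (.hit (nat_lit 24) (nat_lit 15) (nat_lit 0xbc000178000302862606e82c0b47d815033031e8) b57611 (.one (nat_lit 68) (nat_lit 26) (nat_lit 18) (nat_lit 0xbc000178000304219609e10c1131182296b03ca7) b57612 (.nil)))) (.nil))) (.nil))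
noncomputable def r84_19 : Rw Blk := .tok (nat_lit 6) (nat_lit 0x2f00005e0000c000017f8b4aff4ea) (.hit (nat_lit 0) (nat_lit 0) (nat_lit 0x2f00005e0000bf5eed7e802afd726) b57613 (.tok (nat_lit 14) (nat_lit 0x2f00005e0000c000017f8b4aff4ea) (.hit (nat_lit 21) (nat_lit 61) (nat_lit 0x2f00005e0000bfc7017f112afe21a) b57614 (.one (nat_lit 3) (nat_lit 22) (nat_lit 62) (nat_lit 0x2f00005e0000bf91597ec282fd845) b57615 (.tok (nat_lit 6) (nat_lit 0x2f00005e0000bf93317f15b2fe2ab) (.hit (nat_lit 25) (nat_lit 65) (nat_lit 0x2f00005e0000bf48117efb8afdf66) b57618 (.hit (nat_lit 26) (nat_lit 66) (nat_lit 0x2f00005e0000bf93317f15b2fe2ab) b57619 (.nil))) (.tok (nat_lit 9) (nat_lit 0x2f00005e0000c000017f8b4aff4ea) (.hit (nat_lit 23) (nat_lit 63) (nat_lit 0x2f00005e0000c000017f8b4aff4ea) b57616 (.hit (nat_lit 24) (nat_lit 64) (nat_lit 0x2f00005e0000bfa52d7f0052fdfff) b57617 (.nil))) (.nil))))) (.one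 (nat_lit 17) (nat_lit 27) (nat_lit 67) (nat_lit 0x2f00005e0000bf69b97e6dfafcdb4) b57620 (.tok (nat_lit 20) (nat_lit 0x2f00005e0000bf8dc97ef8e2fdf17) (.hit (nat_lit 28) (nat_lit 68) (nat_lit 0x2f00005e0000bf8dc97ef8e2fdf17) b57621 (.hit (nat_lit 29) (nat_lit 69) (nat_lit 0x2f00005e0000bf5d017e616afcc22) b57622 (.nil))) (.tok (nat_lit 23) (nat_lit 0x2f00005e0000bf69117ebf92fd7e7) (.hit (nat_lit 30) (nat_lit 70) (nat_lit 0x2f00005e0000bf2a157ebf92fd7e7) b57623 (.hit (nat_lit 31) (nat_lit 71) (nat_lit 0x2f00005e0000bf69117e615afcc20) b57624 (.nil))) (.one (nat_lit 26) (nat_lit 32) (nat_lit 72) (nat_lit 0x2f00005e0000bf4b697ddaaafbd04) b57625 (.one (nat_lit 29) (nat_lit 33) (nat_lit 73) (nat_lit 0x2f00005e0000bf44bd7ddd22fbd53) b57626 (.one (nat_lit 32) (nat_lit 34) (nat_lit 74) (nat_lit 0x2f00005e0000bf249d7dfd52fbf9f) b57627 (.one (nat_lit 35) (nat_lit 35) (nat_lit 75) (nat_lit 0x2f00005e0000bf62b17e08cafc2c8)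 b57628 (.one (nat_lit 38) (nat_lit 36) (nat_lit 76) (nat_lit 0x2f00005e0000bf58957e6ffafcdf4) b57629 (.tok (nat_lit 41) (nat_lit 0x2f00005e0000bf4f1d7e2852fc4ff) (.hit (nat_lit 37) (nat_lit 77) (nat_lit 0x2f00005e0000bf4f1d7df53afbfed) b57630 (.hit (nat_lit 38) (nat_lit 78) (nat_lit 0x2f00005e0000bf42d57e2852fc4ff) b57631 (.nil))) (.tok (nat_lit 44) (nat_lit 0x2f00005e0000bf75357e383afc850) (.hit (nat_lit 39) (nat_lit 79) (nat_lit 0x2f00005e0000bf75357e383afc850) b57632 (.hit (nat_lit 40) (nat_lit 80) (nat_lit 0x2f00005e0000bf532d7e0f4afc1de) b57633 (.nil))) (.tok (nat_lit 47) (nat_lit 0x2f00005e0000bf6dc57e1ec2fc59b) (.hit (nat_lit 41) (nat_lit 81) (nat_lit 0x2f00005e0000bea0e57dad32fb59b) b57634 (.hit (nat_lit 42) (nat_lit 82) (nat_lit 0x2f00005e0000bf6dc57e1ec2fc59b) b57635 (.nil))) (.one (nat_lit 50) (nat_lit 43) (nat_lit 83) (nat_lit 0x2f00005e0000bf80e17e44fafca4e) b57636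 (.tok (nat_lit 53) (nat_lit 0x2f00005e0000bf88857ec5cafd8ae) (.hit (nat_lit 44) (nat_lit 84) (nat_lit 0x2f00005e0000bf88857ec5cafd8ae) b57637 (.hit (nat_lit 45) (nat_lit 85) (nat_lit 0x2f00005e0000bf76b57e3452fc839) b57638 (.nil))) (.tok (nat_lit 56) (nat_lit 0x2f00005e0000bfe0d57f3caafe81e) (.hit (nat_lit 46) (nat_lit 86) (nat_lit 0x2f00005e0000bfbf7d7ed7cafe354) b57639 (.one (nat_lit 3) (nat_lit 50) (nat_lit 90) (nat_lit 0x2f00005e0000bf95497e8542fd215) b57643 (.tok (nat_lit 6) (nat_lit 0x2f00005e0000bfe0d57f3caafe544) (.hit (nat_lit 48) (nat_lit 88) (nat_lit 0x2f00005e0000bfe0d57f3caafe544) b57641 (.hit (nat_lit 49) (nat_lit 89) (nat_lit 0x2f00005e0000bf91097e85eafd0b2) b57642 (.nil))) (.one (nat_lit 9) (nat_lit 47) (nat_lit 87) (nat_lit 0x2f00005e0000bfd3497f2b6afe81e) b57640 (.nil))))) (.one (nat_lit 59) (nat_lit 51) (nat_lit 91) (nat_lit 0x2f00005e0000bf626d7e0812fc2b1)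 b57644 (.nil)))))))))))))))))) (.tok (nat_lit 52) (nat_lit 0x2f00005e0000bfdd19804742ffd33) (.hit (nat_lit 176) (nat_lit 0) (nat_lit 0x2f00005e0000bfd5718020d2ffd28) b57645 (.tok (nat_lit 6) (nat_lit 0x2f00005e0000bfdd19804742ffd33) (.hit (nat_lit 177) (nat_lit 7) (nat_lit 0x2f00005e0000bfdd19804742ffd33) b57646 (.hit (nat_lit 178) (nat_lit 15) (nat_lit 0x2f00005e0000bf9c957fd52aff0fc) b57647 (.nil))) (.tok (nat_lit 9) (nat_lit 0x2f00005e0000bfbd817fe7aaff59c) (.hit (nat_lit 179) (nat_lit 20) (nat_lit 0x2f00005e0000bf84857f7ea2fefbd) b57648 (.hit (nat_lit 180) (nat_lit 28) (nat_lit 0x2f00005e0000bfbd817fe7aaff59c) b57649 (.nil))) (.nil)))) (.tok (nat_lit 55) (nat_lit 0x2f00005e0000bfea097ffadafff44) (.hit (nat_lit 187) (nat_lit 0) (nat_lit 0x2f00005e0000bfea097f9722ff2cd) b57650 (.tok (nat_lit 3) (nat_lit 0x2f00005e0000bf9de17fb15aff614) (.hit (nat_lit 188) (nat_lit 1) (nat_lit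 0x2f00005e0000bf68cd7f4732fe8cf) b57651 (.one (nat_lit 67) (nat_lit 189) (nat_lit 2) (nat_lit 0x2f00005e0000bf9de17fb15aff614) b57652 (.nil))) (.tok (nat_lit 6) (nat_lit 0x2f00005e0000bfc2a17ffadafff44) (.hit (nat_lit 190) (nat_lit 7) (nat_lit 0x2f00005e0000bf5c497f2e2afe5ae) b57653 (.hit (nat_lit 193) (nat_lit 15) (nat_lit 0x2f00005e0000bf69197f47cafe8e2) b57656 (.tok (nat_lit 55) (nat_lit 0x2f00005e0000bfc2a17ffadafff44) (.hit (nat_lit 191) (nat_lit 8) (nat_lit 0x2f00005e0000bf9a457faa22ff52d) b57654 (.hit (nat_lit 194) (nat_lit 16) (nat_lit 0x2f00005e0000bfa4f17fbf7aff7d8) b57657 (.one (nat_lit 6) (nat_lit 192) (nat_lit 9) (nat_lit 0x2f00005e0000bfc2a17ffadafff44) b57655 (.nil)))) (.nil)))) (.nil)))) (.tok (nat_lit 58) (nat_lit 0x2f00005e0000bfcf998014cb00282) (.hit (nat_lit 201) (nat_lit 0) (nat_lit 0x2f00005e0000bfb5e97f8162ff015) b57658 (.tok (nat_lit 3) (nat_lit 0x2f00005e0000bfcf998014cb00282)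 (.hit (nat_lit 202) (nat_lit 1) (nat_lit 0x2f00005e0000bf6d7d7f5092fe9fb) b57659 (.one (nat_lit 55) (nat_lit 203) (nat_lit 3) (nat_lit 0x2f00005e0000bfcf998014cb00282) b57660 (.nil))) (.tok (nat_lit 9) (nat_lit 0x2f00005e0000bf8af17f8b7aff158) (.hit (nat_lit 204) (nat_lit 20) (nat_lit 0x2f00005e0000bf8af17f8b7aff158) b57661 (.hit (nat_lit 207) (nat_lit 28) (nat_lit 0x2f00005e0000bf65cd7f4132fe80f) b57662 (.nil))) (.nil)))) (.nil))))
noncomputable def r84_20 : Rw Blk := .tok (nat_lit 3) (nat_lit 0x2f00005e0000c04ae180df13020e4) (.hit (nat_lit 15) (nat_lit 0) (nat_lit 0x2f00005e0000bf7cfd7f4642fee22) b57678 (.tok (nat_lit 9) (nat_lit 0x2f00005e0000bf361d7ecbf2fdac5) (.hit (nat_lit 16) (nat_lit 20) (nat_lit 0x2f00005e0000bef8317e501afcb4a) b57679 (.hit (nat_lit 21) (nat_lit 28) (nat_lit 0x2f00005e0000be754d7d4a52faa91) b57682 (.tok (nat_lit 14) (nat_lit 0x2f00005e0000bf361d7ecbf2fdac5)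 (.hit (nat_lit 17) (nat_lit 24) (nat_lit 0x2f00005e0000bf171d7e8df2fd305) b57680 (.hit (nat_lit 22) (nat_lit 30) (nat_lit 0x2f00005e0000bf13897e86cafd220) b57683 (.one (nat_lit 6) (nat_lit 18) (nat_lit 25) (nat_lit 0x2f00005e0000bf361d7ecbf2fdac5) b57681 (.nil)))) (.one (nat_lit 56) (nat_lit 23) (nat_lit 31) (nat_lit 0x2f00005e0000bf192d7e9212fd389) b57684 (.nil))))) (.tok (nat_lit 64) (nat_lit 0x2f00005e0000bf40b57ee122fdd6b) (.hit (nat_lit 25) (nat_lit 50) (nat_lit 0x2f00005e0000bf40b57ee122fdd6b) b57685 (.hit (nat_lit 26) (nat_lit 51) (nat_lit 0x2f00005e0000bf2f197ebdeafd904) b57686 (.nil))) (.tok (nat_lit 67) (nat_lit 0x2f00005e0000c04ae180df13020e4) (.hit (nat_lit 27) (nat_lit 52) (nat_lit 0x2f00005e0000c04ae180df13020e4) b57687 (.tok (nat_lit 3) (nat_lit 0x2f00005e0000bf6ecd7f3d52fe8f1) (.hit (nat_lit 33) (nat_lit 58) (nat_lit 0x2f00005e0000bf5d497f1a4afe490) b57690 (.one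 (nat_lit 55) (nat_lit 34) (nat_lit 59) (nat_lit 0x2f00005e0000bf6ecd7f3d52fe8f1) b57691 (.nil))) (.tok (nat_lit 9) (nat_lit 0x2f00005e0000bf36897ecccafdae0) (.hit (nat_lit 28) (nat_lit 53) (nat_lit 0x2f00005e0000bf36897ecccafdae0) b57688 (.hit (nat_lit 31) (nat_lit 56) (nat_lit 0x2f00005e0000bf2c417eb83afd84e) b57689 (.nil))) (.nil)))) (.one (nat_lit 70) (nat_lit 35) (nat_lit 60) (nat_lit 0x2f00005e0000bf6e8d7f3cd2fe8e1) b57692 (.nil)))))) (.tok (nat_lit 6) (nat_lit 0x2f00005e0000c09a01816b4b03257) (.hit (nat_lit 0) (nat_lit 0) (nat_lit 0x2f00005e0000bfaa857fbebaff542) b57663 (.tok (nat_lit 6) (nat_lit 0x2f00005e0000c001bd80c04b01957) (.hit (nat_lit 1) (nat_lit 7) (nat_lit 0x2f00005e0000bf80a97f4a92fec45) b57664 (.hit (nat_lit 4) (nat_lit 15) (nat_lit 0x2f00005e0000bf21257e5362fcda8) b57667 (.tok (nat_lit 14) (nat_lit 0x2f00005e0000c001bd80c04b01957) (.hit (nat_lit 2) (nat_lit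 11) (nat_lit 0x2f00005e0000c001bd80c04b01957) b57665 (.hit (nat_lit 5) (nat_lit 17) (nat_lit 0x2f00005e0000bf7f057ef8f2fe4ba) b57668 (.one (nat_lit 9) (nat_lit 3) (nat_lit 12) (nat_lit 0x2f00005e0000bfd699808a3b010ef) b57666 (.nil)))) (.one (nat_lit 68) (nat_lit 6) (nat_lit 18) (nat_lit 0x2f00005e0000bf99397f2a5afeb42) b57669 (.nil))))) (.tok (nat_lit 52) (nat_lit 0x2f00005e0000bff7bd7fd4d300002) (.hit (nat_lit 7) (nat_lit 39) (nat_lit 0x2f00005e0000bff7bd7fd4d300002) b57670 (.hit (nat_lit 8) (nat_lit 40) (nat_lit 0x2f00005e0000bfa1d97f425afed86) b57671 (.nil))) (.tok (nat_lit 55) (nat_lit 0x2f00005e0000c09a01816b4b03257) (.hit (nat_lit 9) (nat_lit 41) (nat_lit 0x2f00005e0000c09a01816b4b03257) b57672 (.tok (nat_lit 3) (nat_lit 0x2f00005e0000c040c580dfcb0197d) (.hit (nat_lit 12) (nat_lit 47) (nat_lit 0x2f00005e0000bfdc118022e300405) b57675 (.one (nat_lit 67) (nat_lit 13) (nat_lit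 48) (nat_lit 0x2f00005e0000c040c580dfcb0197d) b57676 (.nil))) (.tok (nat_lit 6) (nat_lit 0x2f00005e0000c00a6580203300994) (.hit (nat_lit 10) (nat_lit 42) (nat_lit 0x2f00005e0000c00a6580203300994) b57673 (.hit (nat_lit 11) (nat_lit 45) (nat_lit 0x2f00005e0000bfd0817f9e82ff939) b57674 (.nil))) (.nil)))) (.one (nat_lit 58) (nat_lit 14) (nat_lit 49) (nat_lit 0x2f00005e0000bf7c5d7f8112ff573) b57677 (.nil)))))) (.nil))
noncomputable def r85_0 : Rw Blk := .tok (nat_lit 6) (nat_lit 0x300000600000c00001800002fdd235fe7a4c0000180000300000) (.hit (nat_lit 81) (nat_lit 0) (nat_lit 0x2fe4b85fd5d4bf98697f5eaafdd235fe044bf80a17fb982fef1e) b57693 (.tok (nat_lit 3) (nat_lit 0x2feb0b5fdbe0bfd9517f1c7afcce05fce9cbfca5d7f6ccaff8a7) (.hit (nat_lit 82) (nat_lit 1) (nat_lit 0x2fcbb35f88b0bf69c97e167afac205f8d1cbf2be97e66cafda80) b57694 (.one (nat_lit 14) (nat_lit 84) (nat_lit 4) (nat_lit 0x2fe8a95fdbe0bfbe497ef58afb6a45fadb0bfbf4d7f42f2ff645)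 b57695 (.one (nat_lit 68) (nat_lit 85) (nat_lit 5) (nat_lit 0x2feb0b5fd3a2bfd9517f1c7afcce05fce9cbfca5d7f6ccaff8a7) b57696 (.nil)))) (.tok (nat_lit 40) (nat_lit 0x2fe7215fd042bfb9597f26bafc0e15fb69ebfa87d7f410aff6d4) (.hit (nat_lit 100) (nat_lit 33) (nat_lit 0x2fe7215fd042bfb9597ef6e2fc0e15fb69ebfa87d7f410aff6d4) b57697 (.hit (nat_lit 101) (nat_lit 34) (nat_lit 0x2fe2775fb726bf90d17f26bafbaa75faa2abf9f1d7f162aff1ee) b57698 (.nil))) (.tok (nat_lit 43) (nat_lit 0x2fecc7600000bfc0317f687afd3805fdbdcc000017fe4caffef6) (.hit (nat_lit 102) (nat_lit 35) (nat_lit 0x2fecc7600000bfc0317f687afd3805fdbdcc000017fe4caffef6) b57699 (.hit (nat_lit 103) (nat_lit 36) (nat_lit 0x2fe7225fd476bfbc317f54fafc9eb5fc8b2bf9d5d7f5522ff7b6) b57700 (.nil))) (.tok (nat_lit 46) (nat_lit 0x3000005ff54cc00001800002fd9645fe7a4bfdda980000300000) (.hit (nat_lit 104) (nat_lit 37) (nat_lit 0x2fe23a5fbc94bfed7d7f809afd9645fe7a4bf90197fd0eaff0fb)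 b57701 (.hit (nat_lit 105) (nat_lit 38) (nat_lit 0x3000005ff54cc00001800002fcf775fdc70bfdda980000300000) b57702 (.nil))) (.nil)))))) (.tok (nat_lit 9) (nat_lit 0x300000600000c000017f809b00000600000bf90197ffebaffef8) (.hit (nat_lit 157) (nat_lit 0) (nat_lit 0x2fe4b85fd5d4bf98697f5f22fda585fe03cbf8b757fb962fef1e) b57703 (.tok (nat_lit 3) (nat_lit 0x2feb0b5fdbe0bfd9517f1c7afeccd5fce9cbf5e097f6ccaff8a7) (.hit (nat_lit 158) (nat_lit 1) (nat_lit 0x2fcbb35f88b0bf69c97e167afc5305f8d1cbedb097e66cafda80) b57704 (.one (nat_lit 14) (nat_lit 160) (nat_lit 4) (nat_lit 0x2fe8a95fdbe0bfbe497e9482fea0c5fc5e4bf05197f432aff645) b57705 (.one (nat_lit 56) (nat_lit 162) (nat_lit 6) (nat_lit 0x2feb0b5fd3a2bfd9517f1c7afeccd5fce9cbf5e097f6ccaff8a7) b57706 (.nil)))) (.tok (nat_lit 40) (nat_lit 0x2fe7215fd042bfb9597ebc82fe45b5fd23ebf2e0d7f410aff6d4) (.hit (nat_lit 176) (nat_lit 33) (nat_lit 0x2fe7215fd042bfb9597ebc82fe45b5fc63abf2e0d7f410aff6d4)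 b57707 (.hit (nat_lit 177) (nat_lit 34) (nat_lit 0x2fe2775fb726bf90d17e8ab2fe1fd5fd23ebf15257f1682ff1ee) b57708 (.nil))) (.tok (nat_lit 43) (nat_lit 0x3000005ff54cc000017f809afe2ef600000bf90197ffebaffd95) (.hit (nat_lit 178) (nat_lit 35) (nat_lit 0x2fe23a5fbc94bfed7d7f809afd9645fe7a4bf90197fd0eaff0fb) b57701 (.hit (nat_lit 179) (nat_lit 36) (nat_lit 0x3000005ff54cc000017f4f7afe2ef600000bf68657ffebaffd95) b57709 (.nil))) (.tok (nat_lit 46) (nat_lit 0x2fecc7600000bfc0317f517b000005fe278bf78897fe51affef8) (.hit (nat_lit 180) (nat_lit 37) (nat_lit 0x2fecc7600000bfc0317f517b000005fe278bf78897fe51affef8) b57710 (.hit (nat_lit 181) (nat_lit 38) (nat_lit 0x2fe7225fd476bfbc317f04d2fe1945fddcebf52357f5522ff7b6) b57711 (.nil))) (.nil)))))) (.nil))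
noncomputable def r85_1 : Rw Blk := .tok (nat_lit 3) (nat_lit 0xbc0001780002fe174) (.hit (nat_lit 61) (nat_lit 0) (nat_lit 0xbc0001780002fceb3) b57712 (.tok (nat_lit 14) (nat_lit 0xbc0001780002fe174) (.hit (nat_lit 82) (nat_lit 61) (nat_lit 0xbc0001780002fe174) b57713 (.one (nat_lit 3) (nat_lit 83) (nat_lit 62) (nat_lit 0xbc0001780002fbbd2) b57714 (.tok (nat_lit 6) (nat_lit 0xbc0001780002fc05d) (.hit (nat_lit 86) (nat_lit 65) (nat_lit 0xbc0001780002fbf82) b57717 (.hit (nat_lit 87) (nat_lit 66) (nat_lit 0xbc0001780002fc05d) b57718 (.nil))) (.tok (nat_lit 9) (nat_lit 0xbc0001780002fdf76) (.hit (nat_lit 84) (nat_lit 63) (nat_lit 0xbc0001780002fdf76) b57715 (.hit (nat_lit 85) (nat_lit 64) (nat_lit 0xbc0001780002fbe8f) b57716 (.nil))) (.nil))))) (.one (nat_lit 17) (nat_lit 88) (nat_lit 67) (nat_lit 0xbc0001780002fb774) b57719 (.tok (nat_lit 20) (nat_lit 0xbc0001780002fbd9d) (.hit (nat_lit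 89) (nat_lit 68) (nat_lit 0xbc0001780002fbd9d) b57720 (.hit (nat_lit 90) (nat_lit 69) (nat_lit 0xbc0001780002fb57d) b57721 (.nil))) (.tok (nat_lit 23) (nat_lit 0xbc0001780002fc3c2) (.hit (nat_lit 91) (nat_lit 70) (nat_lit 0xbc0001780002fc3c2) b57722 (.hit (nat_lit 92) (nat_lit 71) (nat_lit 0xbc0001780002fb59d) b57723 (.nil))) (.one (nat_lit 26) (nat_lit 93) (nat_lit 72) (nat_lit 0xbc0001780002fa302) b57724 (.one (nat_lit 29) (nat_lit 94) (nat_lit 73) (nat_lit 0xbc0001780002fa58d) b57725 (.one (nat_lit 32) (nat_lit 95) (nat_lit 74) (nat_lit 0xbc0001780002faebc) b57726 (.one (nat_lit 35) (nat_lit 96) (nat_lit 75) (nat_lit 0xbc0001780002fa9ae) b57727 (.one (nat_lit 38) (nat_lit 97) (nat_lit 76) (nat_lit 0xbc0001780002fb494) b57728 (.tok (nat_lit 41) (nat_lit 0xbc0001780002fb2cf) (.hit (nat_lit 98) (nat_lit 77) (nat_lit 0xbc0001780002f9c53) b57729 (.hit (nat_lit 99) (nat_lit 78) (nat_lit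 0xbc0001780002fb2cf) b57730 (.nil))) (.tok (nat_lit 44) (nat_lit 0xbc0001780002facfc) (.hit (nat_lit 100) (nat_lit 79) (nat_lit 0xbc0001780002fa067) b57731 (.hit (nat_lit 101) (nat_lit 80) (nat_lit 0xbc0001780002facfc) b57732 (.nil))) (.tok (nat_lit 47) (nat_lit 0xbc0001780002fade9) (.hit (nat_lit 102) (nat_lit 81) (nat_lit 0xbc0001780002facef) b57733 (.hit (nat_lit 103) (nat_lit 82) (nat_lit 0xbc0001780002fade9) b57734 (.nil))) (.one (nat_lit 62) (nat_lit 113) (nat_lit 92) (nat_lit 0xbc0001780002fbbdf) b57735 (.tok (nat_lit 65) (nat_lit 0xbc0001780002fc198) (.hit (nat_lit 114) (nat_lit 93) (nat_lit 0xbc0001780002fc198) b57736 (.hit (nat_lit 115) (nat_lit 94) (nat_lit 0xbc0001780002fb19c) b57737 (.nil))) (.tok (nat_lit 68) (nat_lit 0xbc0001780002fe08b) (.hit (nat_lit 116) (nat_lit 95) (nat_lit 0xbc0001780002fe08b) b57738 (.one (nat_lit 3) (nat_lit 120) (nat_lit 99) (nat_lit 0xbc0001780002fc71e)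 b57742 (.one (nat_lit 6) (nat_lit 117) (nat_lit 96) (nat_lit 0xbc0001780002fca25) b57739 (.tok (nat_lit 9) (nat_lit 0xbc0001780002fcf1a) (.hit (nat_lit 118) (nat_lit 97) (nat_lit 0xbc0001780002fca85) b57740 (.hit (nat_lit 119) (nat_lit 98) (nat_lit 0xbc0001780002fcf1a) b57741 (.nil))) (.nil))))) (.one (nat_lit 71) (nat_lit 121) (nat_lit 100) (nat_lit 0xbc0001780002fa0a7) b57743 (.nil)))))))))))))))))) (.tok (nat_lit 40) (nat_lit 0xbc0001780003039bc) (.hit (nat_lit 245) (nat_lit 0) (nat_lit 0xbc000178000300a06) b57744 (.tok (nat_lit 6) (nat_lit 0xbc0001780003039bc) (.hit (nat_lit 246) (nat_lit 7) (nat_lit 0xbc0001780003039bc) b57745 (.hit (nat_lit 247) (nat_lit 15) (nat_lit 0xbc0001780002ff294) b57746 (.nil))) (.tok (nat_lit 9) (nat_lit 0xbc0001780002ff6ee) (.hit (nat_lit 248) (nat_lit 20) (nat_lit 0xbc0001780002ff6ee) b57747 (.hit (nat_lit 249) (nat_lit 28) (nat_lit 0xbc0001780002fe1c1)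 b57748 (.nil))) (.nil)))) (.tok (nat_lit 43) (nat_lit 0xbc0001780003028b5) (.hit (nat_lit 270) (nat_lit 0) (nat_lit 0xbc0001780002ffa8c) b57757 (.tok (nat_lit 3) (nat_lit 0xbc0001780003028b5) (.hit (nat_lit 271) (nat_lit 1) (nat_lit 0xbc0001780002ff1d0) b57758 (.one (nat_lit 67) (nat_lit 272) (nat_lit 2) (nat_lit 0xbc0001780003028b5) b57759 (.nil))) (.tok (nat_lit 6) (nat_lit 0xbc0001780002fe957) (.hit (nat_lit 273) (nat_lit 7) (nat_lit 0xbc0001780002fe4b0) b57760 (.hit (nat_lit 276) (nat_lit 15) (nat_lit 0xbc0001780002fe957) b57761 (.nil))) (.nil)))) (.tok (nat_lit 46) (nat_lit 0xbc0001780003006e9) (.hit (nat_lit 256) (nat_lit 0) (nat_lit 0xbc0001780003006e9) b57749 (.tok (nat_lit 3) (nat_lit 0xbc0001780002fe816) (.hit (nat_lit 257) (nat_lit 1) (nat_lit 0xbc0001780002fd025) b57750 (.one (nat_lit 55) (nat_lit 258) (nat_lit 3) (nat_lit 0xbc0001780002fe816) b57751 (.nil))) (.tok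 (nat_lit 9) (nat_lit 0xbc0001780002ff4fb) (.hit (nat_lit 259) (nat_lit 20) (nat_lit 0xbc0001780002fd7ef) b57752 (.hit (nat_lit 262) (nat_lit 28) (nat_lit 0xbc0001780002fd2c0) b57755 (.tok (nat_lit 67) (nat_lit 0xbc0001780002ff4fb) (.hit (nat_lit 260) (nat_lit 21) (nat_lit 0xbc0001780002fee37) b57753 (.hit (nat_lit 263) (nat_lit 29) (nat_lit 0xbc0001780002ff4fb) b57756 (.one (nat_lit 9) (nat_lit 261) (nat_lit 22) (nat_lit 0xbc0001780002ff25e) b57754 (.nil)))) (.nil)))) (.nil)))) (.nil))))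
noncomputable def r85_2 : Rw Blk := .tok (nat_lit 3) (nat_lit 0xbc0001780002fd724) (.hit (nat_lit 61) (nat_lit 0) (nat_lit 0xbc0001780002fc1ca) b57762 (.tok (nat_lit 14) (nat_lit 0xbc0001780002fd673) (.hit (nat_lit 82) (nat_lit 61) (nat_lit 0xbc0001780002fd33b) b57763 (.one (nat_lit 3) (nat_lit 83) (nat_lit 62) (nat_lit 0xbc0001780002fc5d6) b57764 (.tok (nat_lit 6) (nat_lit 0xbc0001780002fd673) (.hit (nat_lit 86) (nat_lit 65) (nat_lit 0xbc0001780002fd673) b57767 (.hit (nat_lit 87) (nat_lit 66) (nat_lit 0xbc0001780002fbfb1) b57768 (.nil))) (.tok (nat_lit 9) (nat_lit 0xbc0001780002fd522) (.hit (nat_lit 84) (nat_lit 63) (nat_lit 0xbc0001780002fd522) b57765 (.hit (nat_lit 85) (nat_lit 64) (nat_lit 0xbc0001780002fcf5e) b57766 (.nil))) (.nil))))) (.one (nat_lit 17) (nat_lit 88) (nat_lit 67) (nat_lit 0xbc0001780002fbec2) b57769 (.tok (nat_lit 20) (nat_lit 0xbc0001780002fb918) (.hit (nat_lit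 89) (nat_lit 68) (nat_lit 0xbc0001780002fb918) b57770 (.hit (nat_lit 90) (nat_lit 69) (nat_lit 0xbc0001780002fb0cf) b57771 (.nil))) (.tok (nat_lit 23) (nat_lit 0xbc0001780002fb812) (.hit (nat_lit 91) (nat_lit 70) (nat_lit 0xbc0001780002fb812) b57772 (.hit (nat_lit 92) (nat_lit 71) (nat_lit 0xbc0001780002fb0cf) b57771 (.nil))) (.one (nat_lit 26) (nat_lit 93) (nat_lit 72) (nat_lit 0xbc0001780002fa557) b57773 (.one (nat_lit 29) (nat_lit 94) (nat_lit 73) (nat_lit 0xbc0001780002fa613) b57774 (.one (nat_lit 32) (nat_lit 95) (nat_lit 74) (nat_lit 0xbc0001780002fab00) b57775 (.one (nat_lit 35) (nat_lit 96) (nat_lit 75) (nat_lit 0xbc0001780002fa148) b57776 (.one (nat_lit 38) (nat_lit 97) (nat_lit 76) (nat_lit 0xbc0001780002fb1f8) b57777 (.tok (nat_lit 41) (nat_lit 0xbc0001780002fba26) (.hit (nat_lit 98) (nat_lit 77) (nat_lit 0xbc0001780002f96e6) b57778 (.hit (nat_lit 99) (nat_lit 78) (nat_lit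 0xbc0001780002fba26) b57779 (.nil))) (.tok (nat_lit 44) (nat_lit 0xbc0001780002fab7d) (.hit (nat_lit 100) (nat_lit 79) (nat_lit 0xbc0001780002fa0c7) b57780 (.hit (nat_lit 101) (nat_lit 80) (nat_lit 0xbc0001780002fab7d) b57781 (.nil))) (.tok (nat_lit 47) (nat_lit 0xbc0001780002fb218) (.hit (nat_lit 102) (nat_lit 81) (nat_lit 0xbc0001780002fa649) b57782 (.hit (nat_lit 103) (nat_lit 82) (nat_lit 0xbc0001780002fb218) b57783 (.nil))) (.one (nat_lit 62) (nat_lit 113) (nat_lit 92) (nat_lit 0xbc0001780002fb3be) b57784 (.tok (nat_lit 65) (nat_lit 0xbc0001780002fc50a) (.hit (nat_lit 114) (nat_lit 93) (nat_lit 0xbc0001780002fc50a) b57785 (.hit (nat_lit 115) (nat_lit 94) (nat_lit 0xbc0001780002fb528) b57786 (.nil))) (.tok (nat_lit 68) (nat_lit 0xbc0001780002fd724) (.hit (nat_lit 116) (nat_lit 95) (nat_lit 0xbc0001780002fd38f) b57787 (.one (nat_lit 3) (nat_lit 120) (nat_lit 99) (nat_lit 0xbc0001780002fb7f4)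 b57791 (.one (nat_lit 6) (nat_lit 117) (nat_lit 96) (nat_lit 0xbc0001780002fcef6) b57788 (.tok (nat_lit 9) (nat_lit 0xbc0001780002fd724) (.hit (nat_lit 118) (nat_lit 97) (nat_lit 0xbc0001780002fd724) b57789 (.hit (nat_lit 119) (nat_lit 98) (nat_lit 0xbc0001780002fb151) b57790 (.nil))) (.nil))))) (.one (nat_lit 71) (nat_lit 121) (nat_lit 100) (nat_lit 0xbc0001780002f9cbd) b57792 (.nil)))))))))))))))))) (.tok (nat_lit 40) (nat_lit 0xbc0001780002ff478) (.hit (nat_lit 245) (nat_lit 0) (nat_lit 0xbc0001780002ff478) b57793 (.tok (nat_lit 6) (nat_lit 0xbc0001780002ff3a8) (.hit (nat_lit 246) (nat_lit 7) (nat_lit 0xbc0001780002ff3a8) b57794 (.hit (nat_lit 247) (nat_lit 15) (nat_lit 0xbc0001780002fe756) b57795 (.nil))) (.tok (nat_lit 9) (nat_lit 0xbc0001780002fe2ab) (.hit (nat_lit 248) (nat_lit 20) (nat_lit 0xbc0001780002fe2ab) b57796 (.hit (nat_lit 249) (nat_lit 28) (nat_lit 0xbc0001780002fdc8c)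 b57797 (.nil))) (.nil)))) (.tok (nat_lit 43) (nat_lit 0xbc000178000301442) (.hit (nat_lit 270) (nat_lit 0) (nat_lit 0xbc0001780002fef20) b57806 (.tok (nat_lit 3) (nat_lit 0xbc000178000301442) (.hit (nat_lit 271) (nat_lit 1) (nat_lit 0xbc0001780002fe09c) b57807 (.one (nat_lit 67) (nat_lit 272) (nat_lit 2) (nat_lit 0xbc000178000301442) b57808 (.nil))) (.tok (nat_lit 6) (nat_lit 0xbc0001780002fe2d8) (.hit (nat_lit 273) (nat_lit 7) (nat_lit 0xbc0001780002fe2d8) b57809 (.hit (nat_lit 276) (nat_lit 15) (nat_lit 0xbc0001780002fd9ad) b57810 (.nil))) (.nil)))) (.tok (nat_lit 46) (nat_lit 0xbc00017800030084a) (.hit (nat_lit 256) (nat_lit 0) (nat_lit 0xbc0001780002ff2e6) b57798 (.tok (nat_lit 3) (nat_lit 0xbc000178000300018) (.hit (nat_lit 257) (nat_lit 1) (nat_lit 0xbc0001780002fdee5) b57799 (.one (nat_lit 55) (nat_lit 258) (nat_lit 3) (nat_lit 0xbc000178000300018) b57800 (.nil))) (.tok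 (nat_lit 9) (nat_lit 0xbc00017800030084a) (.hit (nat_lit 259) (nat_lit 20) (nat_lit 0xbc0001780002ffb0e) b57801 (.hit (nat_lit 262) (nat_lit 28) (nat_lit 0xbc0001780002fef99) b57804 (.tok (nat_lit 67) (nat_lit 0xbc00017800030084a) (.hit (nat_lit 260) (nat_lit 21) (nat_lit 0xbc000178000300481) b57802 (.hit (nat_lit 263) (nat_lit 29) (nat_lit 0xbc00017800030068d) b57805 (.one (nat_lit 9) (nat_lit 261) (nat_lit 22) (nat_lit 0xbc00017800030084a) b57803 (.nil)))) (.nil)))) (.nil)))) (.nil))))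
noncomputable def r85_3 : Rw Blk := .tok (nat_lit 3) (nat_lit 0xbc0001780002fe3c4) (.hit (nat_lit 61) (nat_lit 0) (nat_lit 0xbc0001780002fd103) b57811 (.tok (nat_lit 14) (nat_lit 0xbc0001780002fe3c4) (.hit (nat_lit 82) (nat_lit 61) (nat_lit 0xbc0001780002fe3c4) b57812 (.one (nat_lit 3) (nat_lit 83) (nat_lit 62) (nat_lit 0xbc0001780002fbe22) b57813 (.tok (nat_lit 6) (nat_lit 0xbc0001780002fe1c6) (.hit (nat_lit 86) (nat_lit 65) (nat_lit 0xbc0001780002fe1c6) b57816 (.hit (nat_lit 87) (nat_lit 66) (nat_lit 0xbc0001780002fc0df) b57817 (.nil))) (.tok (nat_lit 9) (nat_lit 0xbc0001780002fc2ad) (.hit (nat_lit 84) (nat_lit 63) (nat_lit 0xbc0001780002fc1d2) b57814 (.hit (nat_lit 85) (nat_lit 64) (nat_lit 0xbc0001780002fc2ad) b57815 (.nil))) (.nil))))) (.one (nat_lit 17) (nat_lit 88) (nat_lit 67) (nat_lit 0xbc0001780002fb9c4) b57818 (.tok (nat_lit 20) (nat_lit 0xbc0001780002fc612) (.hit (nat_lit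 89) (nat_lit 68) (nat_lit 0xbc0001780002fc612) b57819 (.hit (nat_lit 90) (nat_lit 69) (nat_lit 0xbc0001780002fb7ed) b57820 (.nil))) (.tok (nat_lit 23) (nat_lit 0xbc0001780002fbfed) (.hit (nat_lit 91) (nat_lit 70) (nat_lit 0xbc0001780002fbfed) b57821 (.hit (nat_lit 92) (nat_lit 71) (nat_lit 0xbc0001780002fb7cd) b57822 (.nil))) (.one (nat_lit 26) (nat_lit 93) (nat_lit 72) (nat_lit 0xbc0001780002fa552) b57823 (.one (nat_lit 29) (nat_lit 94) (nat_lit 73) (nat_lit 0xbc0001780002fa7dd) b57824 (.one (nat_lit 32) (nat_lit 95) (nat_lit 74) (nat_lit 0xbc0001780002fabfe) b57825 (.one (nat_lit 35) (nat_lit 96) (nat_lit 75) (nat_lit 0xbc0001780002fb10c) b57826 (.one (nat_lit 38) (nat_lit 97) (nat_lit 76) (nat_lit 0xbc0001780002fb6e4) b57827 (.tok (nat_lit 41) (nat_lit 0xbc0001780002fb51f) (.hit (nat_lit 98) (nat_lit 77) (nat_lit 0xbc0001780002f9ea3) b57828 (.hit (nat_lit 99) (nat_lit 78) (nat_lit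 0xbc0001780002fb51f) b57829 (.nil))) (.tok (nat_lit 44) (nat_lit 0xbc0001780002fb039) (.hit (nat_lit 100) (nat_lit 79) (nat_lit 0xbc0001780002faf3f) b57830 (.hit (nat_lit 101) (nat_lit 80) (nat_lit 0xbc0001780002fb039) b57831 (.nil))) (.tok (nat_lit 47) (nat_lit 0xbc0001780002faf4c) (.hit (nat_lit 102) (nat_lit 81) (nat_lit 0xbc0001780002fa2b7) b57832 (.hit (nat_lit 103) (nat_lit 82) (nat_lit 0xbc0001780002faf4c) b57833 (.nil))) (.one (nat_lit 50) (nat_lit 104) (nat_lit 83) (nat_lit 0xbc0001780002fbe2f) b57834 (.tok (nat_lit 53) (nat_lit 0xbc0001780002fc3e8) (.hit (nat_lit 105) (nat_lit 84) (nat_lit 0xbc0001780002fc3e8) b57835 (.hit (nat_lit 106) (nat_lit 85) (nat_lit 0xbc0001780002fb3ec) b57836 (.nil))) (.tok (nat_lit 56) (nat_lit 0xbc0001780002fe2db) (.hit (nat_lit 107) (nat_lit 86) (nat_lit 0xbc0001780002fe2db) b57837 (.one (nat_lit 3) (nat_lit 111) (nat_lit 90) (nat_lit 0xbc0001780002fc96e)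 b57841 (.tok (nat_lit 6) (nat_lit 0xbc0001780002fd16a) (.hit (nat_lit 109) (nat_lit 88) (nat_lit 0xbc0001780002fccd5) b57839 (.hit (nat_lit 110) (nat_lit 89) (nat_lit 0xbc0001780002fd16a) b57840 (.nil))) (.one (nat_lit 9) (nat_lit 108) (nat_lit 87) (nat_lit 0xbc0001780002fcc75) b57838 (.nil))))) (.one (nat_lit 59) (nat_lit 112) (nat_lit 91) (nat_lit 0xbc0001780002fa2f7) b57842 (.nil)))))))))))))))))) (.tok (nat_lit 40) (nat_lit 0xbc000178000303c0c) (.hit (nat_lit 221) (nat_lit 0) (nat_lit 0xbc000178000300c56) b57843 (.tok (nat_lit 6) (nat_lit 0xbc0001780002ff93e) (.hit (nat_lit 222) (nat_lit 7) (nat_lit 0xbc0001780002ff93e) b57844 (.hit (nat_lit 223) (nat_lit 15) (nat_lit 0xbc0001780002fe411) b57845 (.nil))) (.tok (nat_lit 9) (nat_lit 0xbc000178000303c0c) (.hit (nat_lit 224) (nat_lit 20) (nat_lit 0xbc000178000303c0c) b57846 (.hit (nat_lit 225) (nat_lit 28) (nat_lit 0xbc0001780002ff4e4)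 b57847 (.nil))) (.nil)))) (.tok (nat_lit 43) (nat_lit 0xbc000178000300939) (.hit (nat_lit 232) (nat_lit 0) (nat_lit 0xbc000178000300939) b57848 (.tok (nat_lit 3) (nat_lit 0xbc0001780002fea66) (.hit (nat_lit 233) (nat_lit 1) (nat_lit 0xbc0001780002fd275) b57849 (.one (nat_lit 67) (nat_lit 234) (nat_lit 2) (nat_lit 0xbc0001780002fea66) b57850 (.nil))) (.tok (nat_lit 6) (nat_lit 0xbc0001780002ff74b) (.hit (nat_lit 235) (nat_lit 7) (nat_lit 0xbc0001780002fda3f) b57851 (.hit (nat_lit 238) (nat_lit 15) (nat_lit 0xbc0001780002fd510) b57854 (.tok (nat_lit 55) (nat_lit 0xbc0001780002ff74b) (.hit (nat_lit 236) (nat_lit 8) (nat_lit 0xbc0001780002ff087) b57852 (.hit (nat_lit 239) (nat_lit 16) (nat_lit 0xbc0001780002ff74b) b57855 (.one (nat_lit 6) (nat_lit 237) (nat_lit 9) (nat_lit 0xbc0001780002ff4ae) b57853 (.nil)))) (.nil)))) (.nil)))) (.tok (nat_lit 46) (nat_lit 0xbc000178000302b05) (.hit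 (nat_lit 246) (nat_lit 0) (nat_lit 0xbc0001780002ffcdc) b57856 (.tok (nat_lit 3) (nat_lit 0xbc000178000302b05) (.hit (nat_lit 247) (nat_lit 1) (nat_lit 0xbc0001780002ff420) b57857 (.one (nat_lit 55) (nat_lit 248) (nat_lit 3) (nat_lit 0xbc000178000302b05) b57858 (.nil))) (.tok (nat_lit 9) (nat_lit 0xbc0001780002feba7) (.hit (nat_lit 249) (nat_lit 20) (nat_lit 0xbc0001780002fe700) b57859 (.hit (nat_lit 252) (nat_lit 28) (nat_lit 0xbc0001780002feba7) b57860 (.nil))) (.nil)))) (.nil))))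
noncomputable def r85_4 : Rw Blk := .tok (nat_lit 3) (nat_lit 0xbc0001780002fdd08) (.hit (nat_lit 61) (nat_lit 0) (nat_lit 0xbc0001780002fc7ae) b57861 (.tok (nat_lit 14) (nat_lit 0xbc0001780002fdc57) (.hit (nat_lit 82) (nat_lit 61) (nat_lit 0xbc0001780002fd91f) b57862 (.one (nat_lit 3) (nat_lit 83) (nat_lit 62) (nat_lit 0xbc0001780002fcbba) b57863 (.tok (nat_lit 6) (nat_lit 0xbc0001780002fdb06) (.hit (nat_lit 86) (nat_lit 65) (nat_lit 0xbc0001780002fdb06) b57866 (.hit (nat_lit 87) (nat_lit 66) (nat_lit 0xbc0001780002fd542) b57867 (.nil))) (.tok (nat_lit 9) (nat_lit 0xbc0001780002fdc57) (.hit (nat_lit 84) (nat_lit 63) (nat_lit 0xbc0001780002fdc57) b57864 (.hit (nat_lit 85) (nat_lit 64) (nat_lit 0xbc0001780002fc595) b57865 (.nil))) (.nil))))) (.one (nat_lit 17) (nat_lit 88) (nat_lit 67) (nat_lit 0xbc0001780002fc4a6) b57868 (.tok (nat_lit 20) (nat_lit 0xbc0001780002fbdf6) (.hit (nat_lit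 89) (nat_lit 68) (nat_lit 0xbc0001780002fbdf6) b57869 (.hit (nat_lit 90) (nat_lit 69) (nat_lit 0xbc0001780002fb6b3) b57870 (.nil))) (.tok (nat_lit 23) (nat_lit 0xbc0001780002fbefc) (.hit (nat_lit 91) (nat_lit 70) (nat_lit 0xbc0001780002fbefc) b57871 (.hit (nat_lit 92) (nat_lit 71) (nat_lit 0xbc0001780002fb6b3) b57870 (.nil))) (.one (nat_lit 26) (nat_lit 93) (nat_lit 72) (nat_lit 0xbc0001780002fab3b) b57872 (.one (nat_lit 29) (nat_lit 94) (nat_lit 73) (nat_lit 0xbc0001780002fabf7) b57873 (.one (nat_lit 32) (nat_lit 95) (nat_lit 74) (nat_lit 0xbc0001780002fa72c) b57874 (.one (nat_lit 35) (nat_lit 96) (nat_lit 75) (nat_lit 0xbc0001780002fb0e4) b57875 (.one (nat_lit 38) (nat_lit 97) (nat_lit 76) (nat_lit 0xbc0001780002fb7dc) b57876 (.tok (nat_lit 41) (nat_lit 0xbc0001780002fc00a) (.hit (nat_lit 98) (nat_lit 77) (nat_lit 0xbc0001780002f9cca) b57877 (.hit (nat_lit 99) (nat_lit 78) (nat_lit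 0xbc0001780002fc00a) b57878 (.nil))) (.tok (nat_lit 44) (nat_lit 0xbc0001780002fb7fc) (.hit (nat_lit 100) (nat_lit 79) (nat_lit 0xbc0001780002fac2d) b57879 (.hit (nat_lit 101) (nat_lit 80) (nat_lit 0xbc0001780002fb7fc) b57880 (.nil))) (.tok (nat_lit 47) (nat_lit 0xbc0001780002fb161) (.hit (nat_lit 102) (nat_lit 81) (nat_lit 0xbc0001780002fa6ab) b57881 (.hit (nat_lit 103) (nat_lit 82) (nat_lit 0xbc0001780002fb161) b57882 (.nil))) (.one (nat_lit 50) (nat_lit 104) (nat_lit 83) (nat_lit 0xbc0001780002fb9a2) b57883 (.tok (nat_lit 53) (nat_lit 0xbc0001780002fcaee) (.hit (nat_lit 105) (nat_lit 84) (nat_lit 0xbc0001780002fcaee) b57884 (.hit (nat_lit 106) (nat_lit 85) (nat_lit 0xbc0001780002fbb0c) b57885 (.nil))) (.tok (nat_lit 56) (nat_lit 0xbc0001780002fdd08) (.hit (nat_lit 107) (nat_lit 86) (nat_lit 0xbc0001780002fd973) b57886 (.one (nat_lit 3) (nat_lit 111) (nat_lit 90) (nat_lit 0xbc0001780002fbdd8)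 b57890 (.tok (nat_lit 6) (nat_lit 0xbc0001780002fdd08) (.hit (nat_lit 109) (nat_lit 88) (nat_lit 0xbc0001780002fdd08) b57888 (.hit (nat_lit 110) (nat_lit 89) (nat_lit 0xbc0001780002fb735) b57889 (.nil))) (.one (nat_lit 9) (nat_lit 108) (nat_lit 87) (nat_lit 0xbc0001780002fd4da) b57887 (.nil))))) (.one (nat_lit 59) (nat_lit 112) (nat_lit 91) (nat_lit 0xbc0001780002fa2a1) b57891 (.nil)))))))))))))))))) (.tok (nat_lit 40) (nat_lit 0xbc0001780002ffa5c) (.hit (nat_lit 221) (nat_lit 0) (nat_lit 0xbc0001780002ffa5c) b57892 (.tok (nat_lit 6) (nat_lit 0xbc0001780002fe88f) (.hit (nat_lit 222) (nat_lit 7) (nat_lit 0xbc0001780002fe88f) b57893 (.hit (nat_lit 223) (nat_lit 15) (nat_lit 0xbc0001780002fe270) b57894 (.nil))) (.tok (nat_lit 9) (nat_lit 0xbc0001780002ff98c) (.hit (nat_lit 224) (nat_lit 20) (nat_lit 0xbc0001780002ff98c) b57895 (.hit (nat_lit 225) (nat_lit 28) (nat_lit 0xbc0001780002fed3a)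 b57896 (.nil))) (.nil)))) (.tok (nat_lit 43) (nat_lit 0xbc000178000300e2e) (.hit (nat_lit 232) (nat_lit 0) (nat_lit 0xbc0001780002ff8ca) b57897 (.tok (nat_lit 3) (nat_lit 0xbc0001780003005fc) (.hit (nat_lit 233) (nat_lit 1) (nat_lit 0xbc0001780002fe4c9) b57898 (.one (nat_lit 67) (nat_lit 234) (nat_lit 2) (nat_lit 0xbc0001780003005fc) b57899 (.nil))) (.tok (nat_lit 6) (nat_lit 0xbc000178000300e2e) (.hit (nat_lit 235) (nat_lit 7) (nat_lit 0xbc0001780003000f2) b57900 (.hit (nat_lit 238) (nat_lit 15) (nat_lit 0xbc0001780002ff57d) b57903 (.tok (nat_lit 55) (nat_lit 0xbc000178000300e2e) (.hit (nat_lit 236) (nat_lit 8) (nat_lit 0xbc000178000300a65) b57901 (.hit (nat_lit 239) (nat_lit 16) (nat_lit 0xbc000178000300c71) b57904 (.one (nat_lit 6) (nat_lit 237) (nat_lit 9) (nat_lit 0xbc000178000300e2e) b57902 (.nil)))) (.nil)))) (.nil)))) (.tok (nat_lit 46) (nat_lit 0xbc000178000301a26) (.hit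 (nat_lit 246) (nat_lit 0) (nat_lit 0xbc0001780002ff504) b57905 (.tok (nat_lit 3) (nat_lit 0xbc000178000301a26) (.hit (nat_lit 247) (nat_lit 1) (nat_lit 0xbc0001780002fe680) b57906 (.one (nat_lit 55) (nat_lit 248) (nat_lit 3) (nat_lit 0xbc000178000301a26) b57907 (.nil))) (.tok (nat_lit 9) (nat_lit 0xbc0001780002fe8bc) (.hit (nat_lit 249) (nat_lit 20) (nat_lit 0xbc0001780002fe8bc) b57908 (.hit (nat_lit 252) (nat_lit 28) (nat_lit 0xbc0001780002fdf91) b57909 (.nil))) (.nil)))) (.nil))))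
noncomputable def r85_5 : Rw Blk := .tok (nat_lit 3) (nat_lit 0xbede917e106afe3705f8d50bf2b917e1e5afd0a05f96d2bf48c17e97dafc4d95f9106bf6fad7ee312fdec6) (.hit (nat_lit 0) (nat_lit 0) (nat_lit 0xbedaf97e106afc8a35f7de4bf0f657de49afd0a05f9266bf30017e97dafc4d95f9106bf33017e6522fccc9) b57910 (.tok (nat_lit 6) (nat_lit 0xbede917df8f2fe3705f8d50bf2b917e1e5afcf775f96d2bf48c17e8282fc4d85f884cbf6fad7ee312fdec6) (.hit (nat_lit 1) (nat_lit 7) (nat_lit 0xbe8d2d7d562afcdc25f649ebeda2d7d7b92fbb1e5f6e20bef75d7ddfbafb07f5f5f9abebd597d98b2fc9b0) b57911 (.hit (nat_lit 6) (nat_lit 15) (nat_lit 0xbe83717d42b2fc24c5f5fc0bed0717d681afb8af5f6942beeda17dcc42fae105f5abcbf1d157e3e5afca1c) b57916 (.tok (nat_lit 14) (nat_lit 0xbed91d7dee0afdfae5f8a96bf261d7e1372fce1a5f9418bf434d7e779afc37b5f8592bf47d17e935afdb08) (.hit (nat_lit 2) (nat_lit 11) (nat_lit 0xbea79d7d8b0afd5d15f71d6bef49d7db072fc1ba5f7b58bf11cd7e149afb71b5f6cd2bed7c97dcd92fce9f)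 b57912 (.hit (nat_lit 7) (nat_lit 17) (nat_lit 0xbea3a97d8322fcb805f6fdcbef0a97da88afc0bd5f795ebf0dd97e0cb2fb61e5f6ad8bf47d17e935afd385) b57917 (.one (nat_lit 9) (nat_lit 3) (nat_lit 12) (nat_lit 0xbed91d7dee0afdfae5f8a96bf261d7e1372fce1a5f9418bf434d7e779afc37b5f8592bf0d217e3092fdb08) b57913 (.nil)))) (.tok (nat_lit 56) (nat_lit 0xbede917df8f2fe3705f8d50bf2b917e1e5afcf775f96d2bf48c17e8282fc4d85f884cbf33a57e6afafdec6) (.hit (nat_lit 4) (nat_lit 13) (nat_lit 0xbebdf17db7b2fd8125f7d00bf0af17ddd1afc74f5f8682bf28217e4142fbcb05f77fcbf079d7e0822fd56a) b57914 (.hit (nat_lit 9) (nat_lit 19) (nat_lit 0xbead817d96d2fcd165f74c8befa817dbc3afc3335f7e4abf17b17e2062fb8945f6fc4bf33a57e6afafcda2) b57919 (.one (nat_lit 6) (nat_lit 5) (nat_lit 14) (nat_lit 0xbede917df8f2fe3705f8d50bf2b917e1e5afcf775f96d2bf48c17e8282fc4d85f884cbf0ebd7e3b7afdec6) b57915 (.nil)))) (.one (nat_lit 68) (nat_lit 8) (nat_lit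 18) (nat_lit 0xbed8257dec1afd7fe5f8a1abf25257e1182fcddc5f939cbf42557e75aafc33d5f8516bf6fad7ee312fdca4) b57918 (.nil)))))) (.nil))) (.tok (nat_lit 9) (nat_lit 0xc0000180000300000600000c0000180000300000600000c00001800003007c46007c0c0000180000300526) (.hit (nat_lit 157) (nat_lit 0) (nat_lit 0xbf2c0d7ee4fafd4815f9ef2bf51a97e68c2fe3475fb1e4bf6ad97f081afdd625fb47cbf68997ef70afd6d4) b57920 (.tok (nat_lit 9) (nat_lit 0xbf95a57fc01aff68e5fc17ebfb1297f1312ff7255fe58ebfd5557fbe2aff60b5fdc80bfbc1d7f62aaff0c7) (.hit (nat_lit 163) (nat_lit 20) (nat_lit 0xbf04ed7e8532fcc915f7cf0bf426d7e0552fd4365fa0b8bf42357e925afd7e55f9604bf2e997e44d2fcc37) b57921 (.hit (nat_lit 171) (nat_lit 28) (nat_lit 0xbece7d7db132fc99b5f4910bf025d7d0a5afc0a75f81f6bf0dc57e3b32fd55e5fa192bf1e957e2c02fc888) b57926 (.tok (nat_lit 14) (nat_lit 0xbf95a57fc01aff68e5fc17ebfb1297f1312ff7255fe58ebfd5557fbe2aff60b5fdc80bfbc1d7f62aaff0c7)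 (.hit (nat_lit 167) (nat_lit 24) (nat_lit 0xbf88557f9dbaff53c5fbe7cbf96597ef8eaff4355fe206bfc1d97f9592ff18c5fd00cbfa46d7f2e3afeb99) b57922 (.hit (nat_lit 173) (nat_lit 30) (nat_lit 0xbf406d7e8e62fe9a75f8248bf71e97dee3afdb2f5fb122bf76097f19a2fea775fca26bf7f397ed95afd9ad) b57927 (.one (nat_lit 6) (nat_lit 168) (nat_lit 25) (nat_lit 0xbf95a57fc01aff68e5fc17ebfb1297f1312ff7255fe58ebfd5557fbe2aff60b5fdc80bfbc1d7f62aaff0c7) b57923 (.nil)))) (.tok (nat_lit 68) (nat_lit 0xbf6b2d7f7742fe6c75faeb2bf82dd7eccfafe7115fc6e4bfa9f57f7e22fe4035fc042bf761d7ed1fafed5d) (.hit (nat_lit 169) (nat_lit 26) (nat_lit 0xbf6b2d7f3bcafe6195faeb2bf82dd7eccfafe7115fc6e4bf95c57f4d6afe0a75fc042bf761d7ed1fafdf50) b57924 (.hit (nat_lit 175) (nat_lit 32) (nat_lit 0xbf22197e588afd33f5f7336bf53957db192fd39a5fa1f8bf52497ed1fafe4035fbb2cbf5bad7e9322fd0b7) b57928 (.one (nat_lit 9) (nat_lit 170) (nat_lit 27) (nat_lit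 0xbf43797f7742fe6c75f9e54bf77297e626afddcd5fbc40bfa9f57f7e22fd7e25fb88ebf5e397eb35afed5d) b57925 (.nil)))) (.nil))))) (.tok (nat_lit 64) (nat_lit 0xbf36757efb7afdafc5f8350bf74717df34afdbd15fb470bfd6d97fb4a3000595ff6f0bfa1ad7f78fafe967) (.hit (nat_lit 182) (nat_lit 50) (nat_lit 0xbf2da97efb7afd9de5f8350bf74717df34afdbd15fb268bfd6d97fb4a3000595ff6f0bfa1ad7f78fafe62d) b57929 (.hit (nat_lit 183) (nat_lit 51) (nat_lit 0xbf36757ec6dafdafc5f7dd2bf60d17ddac2fd99a5fb470bfc0ad7f84fafdbb95fb5dabf49657eb952fe967) b57930 (.nil))) (.tok (nat_lit 67) (nat_lit 0xc0000180000300000600000c0000180000300000600000c000018000030025f6007c0c0000180000300526) (.hit (nat_lit 184) (nat_lit 52) (nat_lit 0xbfc0117fdebaff0e65fe712bff1057f813affb505ff90abfdae17fedaafef565fdd1cbfb0457f884afeff3) b57931 (.tok (nat_lit 3) (nat_lit 0xc000017fcee2ffa03600000c0000180000300000600000c000017ffdb30025f5ffc6cbfeaed7fcb5aff9b5)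 (.hit (nat_lit 190) (nat_lit 58) (nat_lit 0xbf99117f5b12fee345fdb60bff3d17f8be2fec6e5fd950bfb9f17f8a4aff6045fd9cebfa24d7f33cafe6df) b57937 (.one (nat_lit 55) (nat_lit 191) (nat_lit 59) (nat_lit 0xc000017fcee2ffa03600000c0000180000300000600000c000017ffdb30025f5ffc6cbfeaed7fcb5aff9b5) b57938 (.nil))) (.tok (nat_lit 9) (nat_lit 0xbfe639800003000005fd174bff6a97f41baff1e65fe59ebfeae9800003000a46007c0c0000180000300526) (.hit (nat_lit 185) (nat_lit 53) (nat_lit 0xbf8fb17f0ee2fe53b5fa7debfb4757ebeb2febb95fd37ebfb0217f804afec995fddeebfb1a97f8652fe511) b57932 (.hit (nat_lit 188) (nat_lit 56) (nat_lit 0xbf5d317f483aff6aa5f992abf87897e4dc2fe3495fc7ccbfb8497fa1b2fdfd95fc3a4bf6f417eea2aff71d) b57935 (.tok (nat_lit 67) (nat_lit 0xbfe639800003000005fd174bff6a97f41baff1e65fe59ebfeae9800003000a46007c0c0000180000300526) (.hit (nat_lit 186) (nat_lit 54) (nat_lit 0xbfe6397fcca2ffcac5fc390bff6a97f407afeda45fdf50bfc8b57fbf52ff81b5ff6b4bfe4157fc652ff2ef)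 b57933 (.hit (nat_lit 189) (nat_lit 57) (nat_lit 0xbf9a61800003000005fb002bfc4057ea222ff1e65fe584bfeae9800002fecd45fde1abfa4a97f60ab00526) b57936 (.one (nat_lit 9) (nat_lit 187) (nat_lit 55) (nat_lit 0xbfdc3d7f98eaffa705fd174bfeab17f41bafed3c5fe59ebfe6017fef73000a46007c0c00001800002ff63b) b57934 (.nil)))) (.nil)))) (.nil)))) (.one (nat_lit 70) (nat_lit 192) (nat_lit 60) (nat_lit 0xbf58f97eebeafebf85f8faabf849d7e21e2fe28c5fc654bfd3f97f8beb007c45ffa78bfd03d7f9d3afe879) b57939 (.nil)))))) (.nil))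
noncomputable def r85_6 : Rw Blk := .tok (nat_lit 6) (nat_lit 0x5e0000bc000180000300000) (.hit (nat_lit 51) (nat_lit 0) (nat_lit 0x5e0000bc00017f4482fec93) b57940 (.tok (nat_lit 14) (nat_lit 0x5e0000bc00017fa2baff588) (.hit (nat_lit 62) (nat_lit 61) (nat_lit 0x5e0000bc00017fa2baff414) b57941 (.one (nat_lit 3) (nat_lit 63) (nat_lit 62) (nat_lit 0x5e0000bc00017f9612fea7c) b57942 (.tok (nat_lit 6) (nat_lit 0x5e0000bc00017f4fb2ff350) (.hit (nat_lit 66) (nat_lit 65) (nat_lit 0x5e0000bc00017efde2ff350) b57945 (.hit (nat_lit 67) (nat_lit 66) (nat_lit 0x5e0000bc00017f4fb2ff192) b57946 (.nil))) (.tok (nat_lit 9) (nat_lit 0x5e0000bc00017f86c2ff588) (.hit (nat_lit 64) (nat_lit 63) (nat_lit 0x5e0000bc00017f86c2ff588) b57943 (.hit (nat_lit 65) (nat_lit 64) (nat_lit 0x5e0000bc00017f5aeaff346) b57944 (.nil))) (.nil))))) (.one (nat_lit 17) (nat_lit 68) (nat_lit 67) (nat_lit 0x5e0000bc00017f45e2fdfeb)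 b57947 (.tok (nat_lit 20) (nat_lit 0x5e0000bc00017fee6aff978) (.hit (nat_lit 69) (nat_lit 68) (nat_lit 0x5e0000bc00017fee6aff978) b57948 (.hit (nat_lit 70) (nat_lit 69) (nat_lit 0x5e0000bc00017f515afde57) b57949 (.nil))) (.tok (nat_lit 23) (nat_lit 0x5e0000bc00017f3bc2fdf57) (.hit (nat_lit 71) (nat_lit 70) (nat_lit 0x5e0000bc00017e5e1afdf57) b57950 (.hit (nat_lit 72) (nat_lit 71) (nat_lit 0x5e0000bc00017f3bc2fde57) b57951 (.nil))) (.one (nat_lit 38) (nat_lit 77) (nat_lit 76) (nat_lit 0x5e0000bc00017f381afe02b) b57952 (.tok (nat_lit 41) (nat_lit 0x5e0000bc00017f4d6afd5d6) (.hit (nat_lit 78) (nat_lit 77) (nat_lit 0x5e0000bc00017f09dafcb2d) b57953 (.hit (nat_lit 79) (nat_lit 78) (nat_lit 0x5e0000bc00017f4d6afd5d6) b57954 (.nil))) (.tok (nat_lit 44) (nat_lit 0x5e0000bc00017f5fdafd6e7) (.hit (nat_lit 80) (nat_lit 79) (nat_lit 0x5e0000bc00017f5fdafd6e7) b57955 (.hit (nat_lit 81) (nat_lit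 80) (nat_lit 0x5e0000bc00017efde2fd52b) b57956 (.nil))) (.tok (nat_lit 47) (nat_lit 0x5e0000bc00017f62b2fd626) (.hit (nat_lit 82) (nat_lit 81) (nat_lit 0x5e0000bc00017db79afca87) b57957 (.hit (nat_lit 83) (nat_lit 82) (nat_lit 0x5e0000bc00017f62b2fd626) b57958 (.nil))) (.one (nat_lit 50) (nat_lit 84) (nat_lit 83) (nat_lit 0x5e0000bc00017f387afd999) b57959 (.tok (nat_lit 53) (nat_lit 0x5e0000bc00017f3faafe229) (.hit (nat_lit 85) (nat_lit 84) (nat_lit 0x5e0000bc00017e761afe229) b57960 (.hit (nat_lit 86) (nat_lit 85) (nat_lit 0x5e0000bc00017f3faafd69c) b57961 (.nil))) (.tok (nat_lit 56) (nat_lit 0x5e0000bc000180000300000) (.hit (nat_lit 87) (nat_lit 86) (nat_lit 0x5e0000bc00017ffb4afffbd) b57962 (.one (nat_lit 3) (nat_lit 91) (nat_lit 90) (nat_lit 0x5e0000bc0001800002ff476) b57966 (.tok (nat_lit 6) (nat_lit 0x5e0000bc00017fbc22feffd) (.hit (nat_lit 89) (nat_lit 88) (nat_lit 0x5e0000bc00017fbc22feffd)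 b57964 (.hit (nat_lit 90) (nat_lit 89) (nat_lit 0x5e0000bc00017f63c2fe2e7) b57965 (.nil))) (.one (nat_lit 9) (nat_lit 88) (nat_lit 87) (nat_lit 0x5e0000bc00017fa97b00000) b57963 (.nil))))) (.one (nat_lit 59) (nat_lit 92) (nat_lit 91) (nat_lit 0x5e0000bc00017f0462fcb41) b57967 (.one (nat_lit 62) (nat_lit 93) (nat_lit 92) (nat_lit 0x5e0000bc00017efc3afd999) b57968 (.tok (nat_lit 65) (nat_lit 0x5e0000bc00017f37aafe52b) (.hit (nat_lit 94) (nat_lit 93) (nat_lit 0x5e0000bc00017ed582fe52b) b57969 (.hit (nat_lit 95) (nat_lit 94) (nat_lit 0x5e0000bc00017f37aafdb24) b57970 (.nil))) (.tok (nat_lit 68) (nat_lit 0x5e0000bc00017f434afef14) (.hit (nat_lit 96) (nat_lit 95) (nat_lit 0x5e0000bc00017f434afef14) b57971 (.one (nat_lit 3) (nat_lit 100) (nat_lit 99) (nat_lit 0x5e0000bc00017e790afe2b5) b57975 (.one (nat_lit 6) (nat_lit 97) (nat_lit 96) (nat_lit 0x5e0000bc00017eb862feaa0) b57972 (.tok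 (nat_lit 9) (nat_lit 0x5e0000bc00017ece22fed58) (.hit (nat_lit 98) (nat_lit 97) (nat_lit 0x5e0000bc00017ece22fed58) b57973 (.hit (nat_lit 99) (nat_lit 98) (nat_lit 0x5e0000bc00017ea3cafe80d) b57974 (.nil))) (.nil))))) (.one (nat_lit 71) (nat_lit 101) (nat_lit 100) (nat_lit 0x5e0000bc00017eff8afca3e) b57976 (.nil)))))))))))))))))) (.nil)
noncomputable def r85_7 : Rw Blk := .tok (nat_lit 9) (nat_lit 0x1780002f00005ff720c0748980dbeb00b94) (.hit (nat_lit 0) (nat_lit 0) (nat_lit 0x1780002f00005fa89abfa8fd7f3c4afddc5) b57977 (.tok (nat_lit 14) (nat_lit 0x1780002f00005ff19cbfe3097f9c42ff798) (.hit (nat_lit 21) (nat_lit 61) (nat_lit 0x1780002f00005fd8fcbfb0d57f57dafe9d2) b57978 (.one (nat_lit 3) (nat_lit 22) (nat_lit 62) (nat_lit 0x1780002f00005fe1a6bf8b6d7efbeafee6b) b57979 (.tok (nat_lit 6) (nat_lit 0x1780002f00005ff19cbfe3097f9c42ff798) (.hit (nat_lit 25) (nat_lit 65) (nat_lit 0x1780002f00005ff19cbfe3097f9c42ff798)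 b57982 (.hit (nat_lit 26) (nat_lit 66) (nat_lit 0x1780002f00005fb5aebf92d57f1bdafde77) b57983 (.nil))) (.tok (nat_lit 9) (nat_lit 0x1780002f00005fb8b0bfa16d7f2992fe36b) (.hit (nat_lit 23) (nat_lit 63) (nat_lit 0x1780002f00005f71fcbf999d7f296afe029) b57980 (.hit (nat_lit 24) (nat_lit 64) (nat_lit 0x1780002f00005fb8b0bfa16d7f2992fe36b) b57981 (.nil))) (.nil))))) (.one (nat_lit 17) (nat_lit 27) (nat_lit 67) (nat_lit 0x1780002f00005fc724bf7fad7eec4afdc07) b57984 (.tok (nat_lit 20) (nat_lit 0x1780002f00005fa764bf56a97ea382fcfbd) (.hit (nat_lit 28) (nat_lit 68) (nat_lit 0x1780002f00005f5082bf56a97ea382fcf6c) b57985 (.hit (nat_lit 29) (nat_lit 69) (nat_lit 0x1780002f00005fa764bf4b5d7e881afcfbd) b57986 (.nil))) (.tok (nat_lit 23) (nat_lit 0x1780002f00005ff720c0748980dbeb00b94) (.hit (nat_lit 30) (nat_lit 70) (nat_lit 0x1780002f00005ff720c0748980dbeb00b94) b57987 (.hit (nat_lit 31) (nat_lit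 71) (nat_lit 0x1780002f00005fad28bf55097ea822fd079) b57988 (.nil))) (.one (nat_lit 26) (nat_lit 32) (nat_lit 72) (nat_lit 0x1780002f00005f998ebf2cfd7e565afc6cc) b57989 (.one (nat_lit 29) (nat_lit 33) (nat_lit 73) (nat_lit 0x1780002f00005fa412bf486d7e8a82fd64e) b57990 (.one (nat_lit 32) (nat_lit 34) (nat_lit 74) (nat_lit 0x1780002f00005fb926bf48f97e8afafd731) b57991 (.one (nat_lit 35) (nat_lit 35) (nat_lit 75) (nat_lit 0x1780002f00005f8a20bf14b57e1f9afbf18) b57992 (.one (nat_lit 38) (nat_lit 36) (nat_lit 76) (nat_lit 0x1780002f00005fa43ebf5ef17eb412fd17e) b57993 (.tok (nat_lit 41) (nat_lit 0x1780002f00005f9c24bf5e797eb68afd38f) (.hit (nat_lit 37) (nat_lit 77) (nat_lit 0x1780002f00005f8f86bf16e17e1dc2fcb87) b57994 (.hit (nat_lit 38) (nat_lit 78) (nat_lit 0x1780002f00005f9c24bf5e797eb68afd38f) b57995 (.nil))) (.tok (nat_lit 44) (nat_lit 0x1780002f00005fce66bf6f8d7ed5eafe185) (.hit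 (nat_lit 39) (nat_lit 79) (nat_lit 0x1780002f00005f41b0bf39057e683afc803) b57996 (.hit (nat_lit 40) (nat_lit 80) (nat_lit 0x1780002f00005fce66bf6f8d7ed5eafe185) b57997 (.nil))) (.tok (nat_lit 47) (nat_lit 0x1780002f00005fbaf4bf90657f0552fe0cd) (.hit (nat_lit 41) (nat_lit 81) (nat_lit 0x1780002f00005fbaf4bf90657f0552fe0cd) b57998 (.hit (nat_lit 42) (nat_lit 82) (nat_lit 0x1780002f00005fa378bf1d197e3bcafcb58) b57999 (.nil))) (.one (nat_lit 62) (nat_lit 52) (nat_lit 92) (nat_lit 0x1780002f00005fb6dabf522d7ea0bafd4a7) b58000 (.tok (nat_lit 65) (nat_lit 0x1780002f00005fccc6bf91317f3c1afedfe) (.hit (nat_lit 53) (nat_lit 93) (nat_lit 0x1780002f00005fccc6bf91317f3c1afedfe) b58001 (.hit (nat_lit 54) (nat_lit 94) (nat_lit 0x1780002f00005fb4aabf627d7ebd92fda3a) b58002 (.nil))) (.tok (nat_lit 68) (nat_lit 0x1780002f00005fd72ec0046d7ff062feff1) (.hit (nat_lit 55) (nat_lit 95) (nat_lit 0x1780002f00005fd0b2bfd2557f797afe623)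 b58003 (.one (nat_lit 3) (nat_lit 59) (nat_lit 99) (nat_lit 0x1780002f00005fb7b6bf99d57f33fafd583) b58007 (.one (nat_lit 6) (nat_lit 56) (nat_lit 96) (nat_lit 0x1780002f00005fd72ec0046d7ff062feff1) b58004 (.tok (nat_lit 9) (nat_lit 0x1780002f00005fd098bf9cc97f186afe7e3) (.hit (nat_lit 57) (nat_lit 97) (nat_lit 0x1780002f00005fd098bf9cc97f186afe7e3) b58005 (.hit (nat_lit 58) (nat_lit 98) (nat_lit 0x1780002f00005fc4cabf69f57ecbe2fdd54) b58006 (.nil))) (.nil))))) (.one (nat_lit 71) (nat_lit 60) (nat_lit 100) (nat_lit 0x1780002f00005fab72bf3b517e6faafcfc0) b58008 (.nil)))))))))))))))))) (.tok (nat_lit 64) (nat_lit 0x1780002f0000600000c0796d80a3fb01027) (.hit (nat_lit 176) (nat_lit 0) (nat_lit 0x1780002f0000600000c0796d80a3fb01027) b58009 (.tok (nat_lit 6) (nat_lit 0x1780002f00005fd1d6bfdd297f9a92ffa92) (.hit (nat_lit 177) (nat_lit 7) (nat_lit 0x1780002f00005faaa6bf93617f1b22fe8bd)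 b58010 (.hit (nat_lit 178) (nat_lit 15) (nat_lit 0x1780002f00005fd1d6bfdd297f9a92ffa92) b58011 (.nil))) (.tok (nat_lit 9) (nat_lit 0x1780002f00005fd834c01fcd7ff10b00107) (.hit (nat_lit 179) (nat_lit 20) (nat_lit 0x1780002f00005fd834c01fcd7ff10b00107) b58012 (.hit (nat_lit 180) (nat_lit 28) (nat_lit 0x1780002f00005fb672bfd2197f6432ff15d) b58013 (.nil))) (.nil)))) (.tok (nat_lit 67) (nat_lit 0x1780002f00005fc9debfd1d17f9802ff859) (.hit (nat_lit 201) (nat_lit 0) (nat_lit 0x1780002f00005fc552bfa2f97f3b82feaf4) b58019 (.tok (nat_lit 3) (nat_lit 0x1780002f00005fb7e2bfadd97f5012fef5b) (.hit (nat_lit 202) (nat_lit 1) (nat_lit 0x1780002f00005f8a9abf53497e9af2fd8b7) b58020 (.one (nat_lit 55) (nat_lit 203) (nat_lit 3) (nat_lit 0x1780002f00005fb7e2bfadd97f5012fef5b) b58021 (.nil))) (.tok (nat_lit 9) (nat_lit 0x1780002f00005fc9debfd1d17f9802ff859) (.hit (nat_lit 204) (nat_lit 20) (nat_lit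 0x1780002f00005f9fa4bf7d5d7eef1afe33c) b58022 (.hit (nat_lit 207) (nat_lit 28) (nat_lit 0x1780002f00005f8c46bf56a17ea1a2fd98d) b58025 (.tok (nat_lit 67) (nat_lit 0x1780002f00005fc9debfd1d17f9802ff859) (.hit (nat_lit 205) (nat_lit 21) (nat_lit 0x1780002f00005fbd74bfb8fd7f665aff224) b58023 (.hit (nat_lit 208) (nat_lit 29) (nat_lit 0x1780002f00005fbd40bfb8957f658aff20a) b58026 (.one (nat_lit 9) (nat_lit 206) (nat_lit 22) (nat_lit 0x1780002f00005fc9debfd1d17f9802ff859) b58024 (.nil)))) (.nil)))) (.nil)))) (.tok (nat_lit 70) (nat_lit 0x1780002f00005fcef0c00cd97ffb12ffa4b) (.hit (nat_lit 187) (nat_lit 0) (nat_lit 0x1780002f00005fcef0c00cd97ffb12ff1aa) b58014 (.tok (nat_lit 3) (nat_lit 0x1780002f00005fcdc2bfd9997fa792ffa4b) (.hit (nat_lit 188) (nat_lit 1) (nat_lit 0x1780002f00005f9a94bf733d7edadafe0b4) b58015 (.one (nat_lit 67) (nat_lit 189) (nat_lit 2) (nat_lit 0x1780002f00005fcdc2bfd9997fa792ffa4b)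 b58016 (.nil))) (.tok (nat_lit 6) (nat_lit 0x1780002f00005f9ed4bf7bbd7eebdafe2d4) (.hit (nat_lit 190) (nat_lit 7) (nat_lit 0x1780002f00005f9e7abf7b097eea72fe2a7) b58017 (.hit (nat_lit 193) (nat_lit 15) (nat_lit 0x1780002f00005f9ed4bf7bbd7eebdafe2d4) b58018 (.nil))) (.nil)))) (.nil))))
noncomputable def r85_8 : Rw Blk := .tok (nat_lit 3) (nat_lit 0x1780002f0000601c10c084f180c51b01fe9) (.hit (nat_lit 15) (nat_lit 0) (nat_lit 0x1780002f00005ffcfac02361800dbb00927) b58042 (.tok (nat_lit 6) (nat_lit 0x1780002f00005fdc92bf6b897ebdd2ff15a) (.hit (nat_lit 16) (nat_lit 7) (nat_lit 0x1780002f00005f771ebee6917db3e2fca41) b58043 (.hit (nat_lit 21) (nat_lit 15) (nat_lit 0x1780002f00005f95dabeb8957d57eafdcac) b58046 (.tok (nat_lit 14) (nat_lit 0x1780002f00005fbd46bf566d7e939aff15a) (.hit (nat_lit 17) (nat_lit 11) (nat_lit 0x1780002f00005f99c6bf14017e0ec2fdb95) b58044 (.hit (nat_lit 22) (nat_lit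 17) (nat_lit 0x1780002f00005facd8bf566d7e939aff15a) b58047 (.one (nat_lit 9) (nat_lit 18) (nat_lit 12) (nat_lit 0x1780002f00005fbd46bf229d7e2bfafed55) b58045 (.nil)))) (.one (nat_lit 68) (nat_lit 23) (nat_lit 18) (nat_lit 0x1780002f00005fdc92bf6b897ebdd2fed4a) b58048 (.nil))))) (.tok (nat_lit 52) (nat_lit 0x1780002f00005fcb22bf73e97ece92ffef2) (.hit (nat_lit 25) (nat_lit 39) (nat_lit 0x1780002f00005fc0f6bf527d7e8bbaff0ea) b58049 (.hit (nat_lit 26) (nat_lit 40) (nat_lit 0x1780002f00005fcb22bf73e97ece92ffef2) b58050 (.nil))) (.tok (nat_lit 55) (nat_lit 0x1780002f0000601c10c084f180c51b017d6) (.hit (nat_lit 27) (nat_lit 41) (nat_lit 0x1780002f0000601c10c084f180c51b017d6) b58051 (.tok (nat_lit 3) (nat_lit 0x1780002f00005fd492bf68017eb6c2ff8fb) (.hit (nat_lit 33) (nat_lit 47) (nat_lit 0x1780002f00005faeb0bf47417e7542fe60a) b58054 (.one (nat_lit 67) (nat_lit 34) (nat_lit 48) (nat_lit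 0x1780002f00005fd492bf68017eb6c2ff8fb) b58055 (.nil))) (.tok (nat_lit 6) (nat_lit 0x1780002f00005fb084bf523d7e8b3afe6f4) (.hit (nat_lit 28) (nat_lit 42) (nat_lit 0x1780002f00005fb084bf523d7e8b3afe6f4) b58052 (.hit (nat_lit 31) (nat_lit 45) (nat_lit 0x1780002f00005fa9c0bf36c97e5452fe392) b58053 (.nil))) (.nil)))) (.one (nat_lit 58) (nat_lit 35) (nat_lit 49) (nat_lit 0x1780002f000060140ebfa1bd7f2a3b01fe9) b58056 (.nil)))))) (.tok (nat_lit 9) (nat_lit 0x1780002f00006064b4c132b582515b04320) (.hit (nat_lit 0) (nat_lit 0) (nat_lit 0x1780002f0000600070c038e980632b00b8b) b58027 (.tok (nat_lit 9) (nat_lit 0x1780002f0000601376c0a151813fc3016d4) (.hit (nat_lit 1) (nat_lit 20) (nat_lit 0x1780002f00005f9fbcbfb0997f1b0afd795) b58028 (.hit (nat_lit 4) (nat_lit 28) (nat_lit 0x1780002f00005fb262bfc6cd7f8772fe028) b58031 (.tok (nat_lit 14) (nat_lit 0x1780002f0000601376c0932180c92b016d4) (.hit (nat_lit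 2) (nat_lit 24) (nat_lit 0x1780002f00005fccbcbfba457f5882fee88) b58029 (.hit (nat_lit 5) (nat_lit 30) (nat_lit 0x1780002f00005fe538c00539801c02ff467) b58032 (.one (nat_lit 6) (nat_lit 3) (nat_lit 25) (nat_lit 0x1780002f0000601376c0932180c92b016d4) b58030 (.nil)))) (.one (nat_lit 56) (nat_lit 6) (nat_lit 31) (nat_lit 0x1780002f0000600442c0a151813fc30095f) b58033 (.nil))))) (.tok (nat_lit 64) (nat_lit 0x1780002f000060625cc11649822a2b03c9a) (.hit (nat_lit 7) (nat_lit 50) (nat_lit 0x1780002f000060625cc11649822a2b03c9a) b58034 (.hit (nat_lit 8) (nat_lit 51) (nat_lit 0x1780002f00006014f0c03739804103002f0) b58035 (.nil))) (.tok (nat_lit 67) (nat_lit 0x1780002f00006064b4c132b582515b03faa) (.hit (nat_lit 9) (nat_lit 52) (nat_lit 0x1780002f000060460ac0a6b981566b02732) b58036 (.tok (nat_lit 3) (nat_lit 0x1780002f00005ffc66c0459980a3fb00752) (.hit (nat_lit 12) (nat_lit 58) (nat_lit 0x1780002f00005fe296c0459980a3fb00752)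 b58039 (.one (nat_lit 55) (nat_lit 13) (nat_lit 59) (nat_lit 0x1780002f00005ffc66bff5b9800aa300014) b58040 (.nil))) (.tok (nat_lit 9) (nat_lit 0x1780002f00006064b4c132b582515b03faa) (.hit (nat_lit 10) (nat_lit 53) (nat_lit 0x1780002f00006064b4c132b582515b03faa) b58037 (.hit (nat_lit 11) (nat_lit 56) (nat_lit 0x1780002f00005feb7cbfcdc97f868aff393) b58038 (.nil))) (.nil)))) (.one (nat_lit 70) (nat_lit 14) (nat_lit 60) (nat_lit 0x1780002f0000605d26c113f182380b04320) b58041 (.nil)))))) (.nil))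
noncomputable def r85_9 : Rw Blk := .tok (nat_lit 9) (nat_lit 0x5e0000bc0001820e2b04dd8) (.hit (nat_lit 0) (nat_lit 0) (nat_lit 0x5e0000bc00017f9aa300bfc) b58057 (.tok (nat_lit 14) (nat_lit 0x5e0000bc00018162e3031e5) (.hit (nat_lit 1) (nat_lit 61) (nat_lit 0x5e0000bc000180198300bc0) b58058 (.one (nat_lit 3) (nat_lit 2) (nat_lit 62) (nat_lit 0x5e0000bc0001805c7300fb2) b58059 (.tok (nat_lit 6) (nat_lit 0x5e0000bc00018162e3031e5) (.hit (nat_lit 5) (nat_lit 65) (nat_lit 0x5e0000bc00018162e3031e5) b58062 (.hit (nat_lit 6) (nat_lit 66) (nat_lit 0x5e0000bc00017f8edaff56b) b58063 (.nil))) (.tok (nat_lit 9) (nat_lit 0x5e0000bc00017f5872ffdf8) (.hit (nat_lit 3) (nat_lit 63) (nat_lit 0x5e0000bc00017f5872ffd23) b58060 (.hit (nat_lit 4) (nat_lit 64) (nat_lit 0x5e0000bc00017f0f32ffdf8) b58061 (.nil))) (.nil))))) (.one (nat_lit 17) (nat_lit 7) (nat_lit 67) (nat_lit 0x5e0000bc00017f7852ff4b4)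 b58064 (.tok (nat_lit 20) (nat_lit 0x5e0000bc00017f3f92ff906) (.hit (nat_lit 8) (nat_lit 68) (nat_lit 0x5e0000bc00017f068aff2e6) b58065 (.hit (nat_lit 9) (nat_lit 69) (nat_lit 0x5e0000bc00017f3f92ff906) b58066 (.nil))) (.tok (nat_lit 23) (nat_lit 0x5e0000bc0001820e2b04dd8) (.hit (nat_lit 10) (nat_lit 70) (nat_lit 0x5e0000bc0001820e2b04dd8) b58067 (.hit (nat_lit 11) (nat_lit 71) (nat_lit 0x5e0000bc00017f4e82fee1b) b58068 (.nil))) (.one (nat_lit 26) (nat_lit 12) (nat_lit 72) (nat_lit 0x5e0000bc00017f85f2ff318) b58069 (.one (nat_lit 29) (nat_lit 13) (nat_lit 73) (nat_lit 0x5e0000bc00017fb652ff99f) b58070 (.one (nat_lit 32) (nat_lit 14) (nat_lit 74) (nat_lit 0x5e0000bc00017f91faff787) b58071 (.one (nat_lit 35) (nat_lit 15) (nat_lit 75) (nat_lit 0x5e0000bc00017ee51afe6b6) b58072 (.one (nat_lit 50) (nat_lit 23) (nat_lit 83) (nat_lit 0x5e0000bc00017fc862ffbc2) b58073 (.tok (nat_lit 53)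 (nat_lit 0x5e0000bc00017f285aff648) (.hit (nat_lit 24) (nat_lit 84) (nat_lit 0x5e0000bc00017f17faff5ef) b58074 (.hit (nat_lit 25) (nat_lit 85) (nat_lit 0x5e0000bc00017f285aff648) b58075 (.nil))) (.tok (nat_lit 56) (nat_lit 0x5e0000bc0001806d13021bd) (.hit (nat_lit 26) (nat_lit 86) (nat_lit 0x5e0000bc0001806d13021bd) b58076 (.one (nat_lit 3) (nat_lit 30) (nat_lit 90) (nat_lit 0x5e0000bc00017f46aaffaea) b58080 (.tok (nat_lit 6) (nat_lit 0x5e0000bc00017f3372ff883) (.hit (nat_lit 28) (nat_lit 88) (nat_lit 0x5e0000bc00017f3372ff883) b58078 (.hit (nat_lit 29) (nat_lit 89) (nat_lit 0x5e0000bc00017ed862fed21) b58079 (.nil))) (.one (nat_lit 9) (nat_lit 27) (nat_lit 87) (nat_lit 0x5e0000bc00017f2012ff617) b58077 (.nil))))) (.one (nat_lit 59) (nat_lit 31) (nat_lit 91) (nat_lit 0x5e0000bc00017f3aaafed7f) b58081 (.nil)))))))))))))) (.tok (nat_lit 64) (nat_lit 0x5e0000bc00018176c304072) (.hit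 (nat_lit 45) (nat_lit 0) (nat_lit 0x5e0000bc00018176c304072) b58095 (.tok (nat_lit 6) (nat_lit 0x5e0000bc00017fe2cb00715) (.hit (nat_lit 46) (nat_lit 7) (nat_lit 0x5e0000bc00017f6302ffc10) b58096 (.hit (nat_lit 47) (nat_lit 15) (nat_lit 0x5e0000bc00017fe2cb00715) b58097 (.nil))) (.tok (nat_lit 9) (nat_lit 0x5e0000bc000181263b03a6d) (.hit (nat_lit 48) (nat_lit 20) (nat_lit 0x5e0000bc000181263b03a6d) b58098 (.hit (nat_lit 49) (nat_lit 28) (nat_lit 0x5e0000bc000180d74b036d5) b58099 (.nil))) (.nil)))) (.tok (nat_lit 67) (nat_lit 0x5e0000bc000180600301bb0) (.hit (nat_lit 40) (nat_lit 0) (nat_lit 0x5e0000bc0001803df300e39) b58090 (.tok (nat_lit 3) (nat_lit 0x5e0000bc0001803afb0170f) (.hit (nat_lit 41) (nat_lit 1) (nat_lit 0x5e0000bc00017fc54b00859) b58091 (.one (nat_lit 55) (nat_lit 42) (nat_lit 3) (nat_lit 0x5e0000bc0001803afb0170f) b58092 (.nil))) (.tok (nat_lit 9) (nat_lit 0x5e0000bc000180600301bb0)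 (.hit (nat_lit 43) (nat_lit 20) (nat_lit 0x5e0000bc000180600301bb0) b58093 (.hit (nat_lit 44) (nat_lit 28) (nat_lit 0x5e0000bc00017f7942ffed8) b58094 (.nil))) (.nil)))) (.tok (nat_lit 70) (nat_lit 0x5e0000bc00018108ab030c5) (.hit (nat_lit 32) (nat_lit 0) (nat_lit 0x5e0000bc000180803b02542) b58082 (.tok (nat_lit 3) (nat_lit 0x5e0000bc00018108ab030c5) (.hit (nat_lit 33) (nat_lit 1) (nat_lit 0x5e0000bc0001806efb01d8f) b58083 (.one (nat_lit 67) (nat_lit 34) (nat_lit 2) (nat_lit 0x5e0000bc00018108ab030c5) b58084 (.nil))) (.tok (nat_lit 6) (nat_lit 0x5e0000bc000180fe2b02f75) (.hit (nat_lit 35) (nat_lit 7) (nat_lit 0x5e0000bc00018095bb02267) b58085 (.hit (nat_lit 38) (nat_lit 15) (nat_lit 0x5e0000bc000180534b01a19) b58088 (.tok (nat_lit 55) (nat_lit 0x5e0000bc000180fe2b02f75) (.hit (nat_lit 36) (nat_lit 8) (nat_lit 0x5e0000bc000180cadb0290b) b58086 (.hit (nat_lit 39) (nat_lit 16) (nat_lit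 0x5e0000bc000180f21b02df3) b58089 (.one (nat_lit 6) (nat_lit 37) (nat_lit 9) (nat_lit 0x5e0000bc000180fe2b02f75) b58087 (.nil)))) (.nil)))) (.nil)))) (.nil))))
noncomputable def r85_10 : Rw Blk := .tok (nat_lit 3) (nat_lit 0x5e0000bc000181b34b03891) (.hit (nat_lit 0) (nat_lit 0) (nat_lit 0x5e0000bc000181b34b03891) b58100 (.tok (nat_lit 6) (nat_lit 0x5e0000bc00018107fb02545) (.hit (nat_lit 1) (nat_lit 7) (nat_lit 0x5e0000bc00017f858aff4f7) b58101 (.hit (nat_lit 6) (nat_lit 15) (nat_lit 0x5e0000bc00017fb1aaffa7b) b58104 (.tok (nat_lit 56) (nat_lit 0x5e0000bc00018107fb02545) (.hit (nat_lit 4) (nat_lit 13) (nat_lit 0x5e0000bc000180196b00773) b58102 (.hit (nat_lit 8) (nat_lit 19) (nat_lit 0x5e0000bc000180ad93019f8) b58105 (.one (nat_lit 6) (nat_lit 5) (nat_lit 14) (nat_lit 0x5e0000bc00018107fb02545) b58103 (.nil)))) (.nil)))) (.tok (nat_lit 52) (nat_lit 0x5e0000bc0001812dd302a00) (.hit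 (nat_lit 9) (nat_lit 39) (nat_lit 0x5e0000bc000181038b024b7) b58106 (.hit (nat_lit 10) (nat_lit 40) (nat_lit 0x5e0000bc0001812dd302a00) b58107 (.nil))) (.tok (nat_lit 55) (nat_lit 0x5e0000bc000181a2db03773) (.hit (nat_lit 11) (nat_lit 41) (nat_lit 0x5e0000bc000181a2db03773) b58108 (.one (nat_lit 3) (nat_lit 17) (nat_lit 47) (nat_lit 0x5e0000bc000180c0db01c61) b58114 (.tok (nat_lit 6) (nat_lit 0x5e0000bc000180d82301f4a) (.hit (nat_lit 12) (nat_lit 42) (nat_lit 0x5e0000bc000180981b01749) b58109 (.hit (nat_lit 15) (nat_lit 45) (nat_lit 0x5e0000bc00018090430164e) b58112 (.tok (nat_lit 55) (nat_lit 0x5e0000bc000180d82301f4a) (.hit (nat_lit 13) (nat_lit 43) (nat_lit 0x5e0000bc000180bd7b01bf5) b58110 (.hit (nat_lit 16) (nat_lit 46) (nat_lit 0x5e0000bc000180d82301f4a) b58113 (.one (nat_lit 6) (nat_lit 14) (nat_lit 44) (nat_lit 0x5e0000bc0001809433016cc) b58111 (.nil)))) (.nil)))) (.nil))))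 (.one (nat_lit 58) (nat_lit 19) (nat_lit 49) (nat_lit 0x5e0000bc000180e41b020c9) b58115 (.nil)))))) (.tok (nat_lit 9) (nat_lit 0x5e0000bc000182415b04cce) (.hit (nat_lit 20) (nat_lit 0) (nat_lit 0x5e0000bc000182415b04cce) b58116 (.tok (nat_lit 9) (nat_lit 0x5e0000bc000182110b04708) (.hit (nat_lit 21) (nat_lit 20) (nat_lit 0x5e0000bc000181821b03442) b58117 (.hit (nat_lit 24) (nat_lit 28) (nat_lit 0x5e0000bc00018143530395a) b58118 (.one (nat_lit 56) (nat_lit 26) (nat_lit 31) (nat_lit 0x5e0000bc000182110b04708) b58119 (.nil)))) (.nil))) (.nil))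
noncomputable def r85_11 : Rw Blk := .tok (nat_lit 9) (nat_lit 0x5e0000bc000180000300241) (.hit (nat_lit 0) (nat_lit 0) (nat_lit 0x5e0000bc00017ebddafdf88) b58120 (.tok (nat_lit 14) (nat_lit 0x5e0000bc000180000300241) (.hit (nat_lit 21) (nat_lit 61) (nat_lit 0x5e0000bc00017f8e02feadc) b58121 (.one (nat_lit 3) (nat_lit 22) (nat_lit 62) (nat_lit 0x5e0000bc00017f22b2fe107) b58122 (.tok (nat_lit 6) (nat_lit 0x5e0000bc000180000300241) (.hit (nat_lit 25) (nat_lit 65) (nat_lit 0x5e0000bc000180000300241) b58125 (.hit (nat_lit 26) (nat_lit 66) (nat_lit 0x5e0000bc00017f4a5afe8c1) b58126 (.nil))) (.tok (nat_lit 9) (nat_lit 0x5e0000bc00017f2662feb6d) (.hit (nat_lit 23) (nat_lit 63) (nat_lit 0x5e0000bc00017e9022fe828) b58123 (.hit (nat_lit 24) (nat_lit 64) (nat_lit 0x5e0000bc00017f2662feb6d) b58124 (.nil))) (.nil))))) (.one (nat_lit 17) (nat_lit 27) (nat_lit 67) (nat_lit 0x5e0000bc00017ed372fd676)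 b58127 (.tok (nat_lit 20) (nat_lit 0x5e0000bc00017ed222fe0a9) (.hit (nat_lit 28) (nat_lit 68) (nat_lit 0x5e0000bc00017e542afe0a9) b58128 (.hit (nat_lit 29) (nat_lit 69) (nat_lit 0x5e0000bc00017ed222fd4e2) b58129 (.nil))) (.tok (nat_lit 23) (nat_lit 0x5e0000bc00017f1b92fe7ba) (.hit (nat_lit 30) (nat_lit 70) (nat_lit 0x5e0000bc00017f1b92fe7ba) b58130 (.hit (nat_lit 31) (nat_lit 71) (nat_lit 0x5e0000bc00017eba02fd4e4) b58131 (.nil))) (.one (nat_lit 26) (nat_lit 32) (nat_lit 72) (nat_lit 0x5e0000bc00017e96d2fc4b5) b58132 (.one (nat_lit 29) (nat_lit 33) (nat_lit 73) (nat_lit 0x5e0000bc00017e897afc505) b58133 (.one (nat_lit 32) (nat_lit 34) (nat_lit 74) (nat_lit 0x5e0000bc00017ec562fca79) b58134 (.one (nat_lit 35) (nat_lit 35) (nat_lit 75) (nat_lit 0x5e0000bc00017e493afc861) b58135 (.one (nat_lit 38) (nat_lit 36) (nat_lit 76) (nat_lit 0x5e0000bc00017eb12afd6b6) b58136 (.tok (nat_lit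 41) (nat_lit 0x5e0000bc00017e9e3afcdc1) (.hit (nat_lit 37) (nat_lit 77) (nat_lit 0x5e0000bc00017e9e3afc7a9) b58137 (.hit (nat_lit 38) (nat_lit 78) (nat_lit 0x5e0000bc00017e85aafcdc1) b58138 (.nil))) (.tok (nat_lit 44) (nat_lit 0x5e0000bc00017edb8afcd31) (.hit (nat_lit 39) (nat_lit 79) (nat_lit 0x5e0000bc00017d41cafbe5d) b58139 (.hit (nat_lit 40) (nat_lit 80) (nat_lit 0x5e0000bc00017edb8afcd31) b58140 (.nil))) (.tok (nat_lit 47) (nat_lit 0x5e0000bc00017eea6afd039) (.hit (nat_lit 41) (nat_lit 81) (nat_lit 0x5e0000bc00017eea6afd039) b58141 (.hit (nat_lit 42) (nat_lit 82) (nat_lit 0x5e0000bc00017ea65afcaa0) b58142 (.nil))) (.one (nat_lit 62) (nat_lit 52) (nat_lit 92) (nat_lit 0x5e0000bc00017f01c2fd1fe) b58143 (.tok (nat_lit 65) (nat_lit 0x5e0000bc00017f110afe170) (.hit (nat_lit 53) (nat_lit 93) (nat_lit 0x5e0000bc00017f110afe170) b58144 (.hit (nat_lit 54) (nat_lit 94) (nat_lit 0x5e0000bc00017eed6afcfe8)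 b58145 (.nil))) (.tok (nat_lit 68) (nat_lit 0x5e0000bc00017fc1aaff03c) (.hit (nat_lit 55) (nat_lit 95) (nat_lit 0x5e0000bc00017f7efafec63) b58146 (.one (nat_lit 3) (nat_lit 59) (nat_lit 99) (nat_lit 0x5e0000bc00017f2a92fd98c) b58150 (.one (nat_lit 6) (nat_lit 56) (nat_lit 96) (nat_lit 0x5e0000bc00017fa692feeda) b58147 (.tok (nat_lit 9) (nat_lit 0x5e0000bc00017fc1aaff03c) (.hit (nat_lit 57) (nat_lit 97) (nat_lit 0x5e0000bc00017fc1aaff03c) b58148 (.hit (nat_lit 58) (nat_lit 98) (nat_lit 0x5e0000bc00017f2212fd974) b58149 (.nil))) (.nil))))) (.one (nat_lit 71) (nat_lit 60) (nat_lit 100) (nat_lit 0x5e0000bc00017ec4dafca61) b58151 (.nil)))))))))))))))))) (.tok (nat_lit 64) (nat_lit 0x5e0000bc00017fba3300b07) (.hit (nat_lit 176) (nat_lit 0) (nat_lit 0x5e0000bc00017faae300b07) b58152 (.tok (nat_lit 6) (nat_lit 0x5e0000bc00017f7b02ffc85) (.hit (nat_lit 177) (nat_lit 7) (nat_lit 0x5e0000bc00017f090aff2f5)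 b58153 (.hit (nat_lit 178) (nat_lit 15) (nat_lit 0x5e0000bc00017f7b02ffc85) b58154 (.nil))) (.tok (nat_lit 9) (nat_lit 0x5e0000bc00017fba3300a02) (.hit (nat_lit 179) (nat_lit 20) (nat_lit 0x5e0000bc00017fba3300a02) b58155 (.hit (nat_lit 180) (nat_lit 28) (nat_lit 0x5e0000bc00017f392affa4f) b58156 (.nil))) (.nil)))) (.tok (nat_lit 67) (nat_lit 0x5e0000bc00017fd4130027c) (.hit (nat_lit 201) (nat_lit 0) (nat_lit 0x5e0000bc00017fd412ff605) b58162 (.tok (nat_lit 3) (nat_lit 0x5e0000bc00017f3bc2ff94c) (.hit (nat_lit 202) (nat_lit 1) (nat_lit 0x5e0000bc00017ed19afec07) b58163 (.one (nat_lit 55) (nat_lit 203) (nat_lit 3) (nat_lit 0x5e0000bc00017f3bc2ff94c) b58164 (.nil))) (.tok (nat_lit 9) (nat_lit 0x5e0000bc00017f85430027c) (.hit (nat_lit 204) (nat_lit 20) (nat_lit 0x5e0000bc00017eb892fe8e6) b58165 (.hit (nat_lit 207) (nat_lit 28) (nat_lit 0x5e0000bc00017ed232fec1a) b58168 (.tok (nat_lit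 67) (nat_lit 0x5e0000bc00017f85430027c) (.hit (nat_lit 205) (nat_lit 21) (nat_lit 0x5e0000bc00017f348aff865) b58166 (.hit (nat_lit 208) (nat_lit 29) (nat_lit 0x5e0000bc00017f49e2ffb10) b58169 (.one (nat_lit 9) (nat_lit 206) (nat_lit 22) (nat_lit 0x5e0000bc00017f85430027c) b58167 (.nil)))) (.nil)))) (.nil)))) (.tok (nat_lit 70) (nat_lit 0x5e0000bc00017f9f33005ba) (.hit (nat_lit 187) (nat_lit 0) (nat_lit 0x5e0000bc00017f6bd2ff34d) b58157 (.tok (nat_lit 3) (nat_lit 0x5e0000bc00017f9f33005ba) (.hit (nat_lit 188) (nat_lit 1) (nat_lit 0x5e0000bc00017edafafed33) b58158 (.one (nat_lit 67) (nat_lit 189) (nat_lit 2) (nat_lit 0x5e0000bc00017f9f33005ba) b58159 (.nil))) (.tok (nat_lit 6) (nat_lit 0x5e0000bc00017f15e2ff490) (.hit (nat_lit 190) (nat_lit 7) (nat_lit 0x5e0000bc00017f15e2ff490) b58160 (.hit (nat_lit 193) (nat_lit 15) (nat_lit 0x5e0000bc00017ecb9afeb47) b58161 (.nil))) (.nil))))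 (.nil))))
noncomputable def r85_12 : Rw Blk := .tok (nat_lit 3) (nat_lit 0x5e0000bc0001809eb302294) (.hit (nat_lit 15) (nat_lit 0) (nat_lit 0x5e0000bc00017f02eafec88) b58185 (.tok (nat_lit 6) (nat_lit 0x5e0000bc00017e752afdd4f) (.hit (nat_lit 16) (nat_lit 7) (nat_lit 0x5e0000bc00017df952fcdd4) b58186 (.hit (nat_lit 21) (nat_lit 15) (nat_lit 0x5e0000bc00017cf38afad1b) b58189 (.tok (nat_lit 14) (nat_lit 0x5e0000bc00017e752afdd4f) (.hit (nat_lit 17) (nat_lit 11) (nat_lit 0x5e0000bc00017e372afd58f) b58187 (.hit (nat_lit 22) (nat_lit 17) (nat_lit 0x5e0000bc00017e3002fd4aa) b58190 (.one (nat_lit 9) (nat_lit 18) (nat_lit 12) (nat_lit 0x5e0000bc00017e752afdd4f) b58188 (.nil)))) (.one (nat_lit 68) (nat_lit 23) (nat_lit 18) (nat_lit 0x5e0000bc00017e3b4afd613) b58191 (.nil))))) (.tok (nat_lit 52) (nat_lit 0x5e0000bc00017e8a5afdff5) (.hit (nat_lit 25) (nat_lit 39) (nat_lit 0x5e0000bc00017e8a5afdff5)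 b58192 (.hit (nat_lit 26) (nat_lit 40) (nat_lit 0x5e0000bc00017e6722fdb8e) b58193 (.nil))) (.tok (nat_lit 55) (nat_lit 0x5e0000bc0001809eb302294) (.hit (nat_lit 27) (nat_lit 41) (nat_lit 0x5e0000bc0001809eb302294) b58194 (.tok (nat_lit 3) (nat_lit 0x5e0000bc00017ee68afeb7b) (.hit (nat_lit 33) (nat_lit 47) (nat_lit 0x5e0000bc00017ec382fe71a) b58197 (.one (nat_lit 67) (nat_lit 34) (nat_lit 48) (nat_lit 0x5e0000bc00017ee68afeb7b) b58198 (.nil))) (.tok (nat_lit 6) (nat_lit 0x5e0000bc00017e7602fdd6a) (.hit (nat_lit 28) (nat_lit 42) (nat_lit 0x5e0000bc00017e7602fdd6a) b58195 (.hit (nat_lit 31) (nat_lit 45) (nat_lit 0x5e0000bc00017e6172fdad8) b58196 (.nil))) (.nil)))) (.one (nat_lit 58) (nat_lit 35) (nat_lit 49) (nat_lit 0x5e0000bc00017ee60afeb6b) b58199 (.nil)))))) (.tok (nat_lit 9) (nat_lit 0x5e0000bc0001813cf302566) (.hit (nat_lit 0) (nat_lit 0) (nat_lit 0x5e0000bc00017f5dfaff443)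 b58170 (.tok (nat_lit 9) (nat_lit 0x5e0000bc0001800c6b00f8d) (.hit (nat_lit 1) (nat_lit 20) (nat_lit 0x5e0000bc00017f0a42fe1e0) b58171 (.hit (nat_lit 4) (nat_lit 28) (nat_lit 0x5e0000bc00017e4b3afce3d) b58174 (.tok (nat_lit 14) (nat_lit 0x5e0000bc0001800c6b00f8d) (.hit (nat_lit 2) (nat_lit 24) (nat_lit 0x5e0000bc0001800c6b00f8d) b58172 (.hit (nat_lit 5) (nat_lit 30) (nat_lit 0x5e0000bc00017f06fafe130) b58175 (.one (nat_lit 6) (nat_lit 3) (nat_lit 25) (nat_lit 0x5e0000bc00017fb622ffa9e) b58173 (.nil)))) (.one (nat_lit 56) (nat_lit 6) (nat_lit 31) (nat_lit 0x5e0000bc00017f3b62fe771) b58176 (.nil))))) (.tok (nat_lit 64) (nat_lit 0x5e0000bc00017ff86b0004e) (.hit (nat_lit 7) (nat_lit 50) (nat_lit 0x5e0000bc00017ff86b0004e) b58177 (.hit (nat_lit 8) (nat_lit 51) (nat_lit 0x5e0000bc00017f4ca2fe9b2) b58178 (.nil))) (.tok (nat_lit 67) (nat_lit 0x5e0000bc0001813cf302566) (.hit (nat_lit 9)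 (nat_lit 52) (nat_lit 0x5e0000bc0001813cf302566) b58179 (.tok (nat_lit 3) (nat_lit 0x5e0000bc0001808a7b008f3) (.hit (nat_lit 12) (nat_lit 58) (nat_lit 0x5e0000bc00017fc112fff42) b58182 (.one (nat_lit 55) (nat_lit 13) (nat_lit 59) (nat_lit 0x5e0000bc0001808a7b008f3) b58183 (.nil))) (.tok (nat_lit 9) (nat_lit 0x5e0000bc0001801dbb004be) (.hit (nat_lit 10) (nat_lit 53) (nat_lit 0x5e0000bc0001801dbb004be) b58180 (.hit (nat_lit 11) (nat_lit 56) (nat_lit 0x5e0000bc00017fa9f2ff53c) b58181 (.nil))) (.nil)))) (.one (nat_lit 70) (nat_lit 14) (nat_lit 60) (nat_lit 0x5e0000bc00017f01aaff162) b58184 (.nil)))))) (.nil))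
noncomputable def r85_13 : Rw Blk := .tok (nat_lit 3) (nat_lit 0xbede917e106afe3705f9b7abf2bf97e732afcbca5fb314bf3fc97eeb22fde16) (.hit (nat_lit 0) (nat_lit 0) (nat_lit 0xbedaf97e106afc8a35f8cf6bf0ff57e396afc98c5f9b64bf3fc97e6d82fcc1b) b58200 (.tok (nat_lit 9) (nat_lit 0xbede917df8f2fe3705f9b7abf2bf97e732afcbca5fb314bf35217eeb22fde16) (.hit (nat_lit 10) (nat_lit 20) (nat_lit 0xbe8d2d7d562afcdc25f72c8beda957dd062fb7715f8a62bee3bd7db102fc901) b58201 (.hit (nat_lit 15) (nat_lit 28) (nat_lit 0xbe83717d42b2fc24c5f6deabed0d97dbceafb5025f8584beda017e46bafc96e) b58206 (.tok (nat_lit 14) (nat_lit 0xbed91d7dee0afdfae5f98c0bf26857e6842fca6d5fb05abf2fad7e9bbafda2c) (.hit (nat_lit 11) (nat_lit 24) (nat_lit 0xbea79d7d8b0afd5d15f8000bef5057e0542fbe0d5f979abefe2d7de5e2fcee4) b58202 (.hit (nat_lit 16) (nat_lit 30) (nat_lit 0xbea3a97d8322fcb805f7e06bef1117dfd5afbd105f95a0befa397e9bbafd2d7) b58207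 (.one (nat_lit 6) (nat_lit 12) (nat_lit 25) (nat_lit 0xbed91d7dee0afdfae5f98c0bf26857e6842fca6d5fb05abf2fad7e48e2fda2c) b58203 (.nil)))) (.one (nat_lit 56) (nat_lit 17) (nat_lit 31) (nat_lit 0xbed8257dec1afd7fe5f9844bf258d7e6652fca2f5fafdebf2eb57eeb22fdbed) b58208 (.tok (nat_lit 68) (nat_lit 0xbede917df8f2fe3705f9b7abf2bf97e732afcbca5fb314bf35217e735afde16) (.hit (nat_lit 13) (nat_lit 26) (nat_lit 0xbebdf17db7b2fd8125f8b2abf0b597e31eafc3a25fa2c4bf14817e128afd4ad) b58204 (.hit (nat_lit 18) (nat_lit 32) (nat_lit 0xbead817d96d2fcd165f82f2befae97e110afbf865f9a8cbf04117e735afccf4) b58209 (.one (nat_lit 9) (nat_lit 14) (nat_lit 27) (nat_lit 0xbede917df8f2fe3705f9b7abf2bf97e732afcbca5fb314bf35217e53cafde16) b58205 (.nil)))) (.nil)))))) (.nil))) (.tok (nat_lit 6) (nat_lit 0xc0000180000300000600000c0218980000300000600000c0000180283b00000) (.hit (nat_lit 81) (nat_lit 0) (nat_lit 0xbf2c0d7ee4fafd4815fae04bf51c57ebd92fd94b5fc244bf7f917ec182fd626)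 b58210 (.tok (nat_lit 6) (nat_lit 0xbf95a57fc01aff68e5fd11cbfadfd7f76faff44f5fef32bfd7f17f73faff0e5) (.hit (nat_lit 87) (nat_lit 7) (nat_lit 0xbf04ed7e8532fcc915f8bdcbf42157e5ad2fd0065fa8a8bf3d957e4bcafcc00) b58211 (.hit (nat_lit 95) (nat_lit 15) (nat_lit 0xbece7d7db132fc99b5f5822bf022d7d5f2afc1545f894ebf120d7e3332fc7da) b58216 (.tok (nat_lit 14) (nat_lit 0xbf95a57fc01aff68e5fd11cbfadfd7f76faff44f5fef32bfd7f17f73faff0e5) (.hit (nat_lit 91) (nat_lit 11) (nat_lit 0xbf88557f9dbaff53c5fcd66bf97d97f4e6aff1145fe6d6bfc2857f39f2febd5) b58212 (.hit (nat_lit 97) (nat_lit 17) (nat_lit 0xbf406d7e8e62fe9a75f9130bf71ed7e430afd8ea5fbcfcbf80b97edd0afd8ff) b58217 (.one (nat_lit 9) (nat_lit 92) (nat_lit 12) (nat_lit 0xbf95a57fc01aff68e5fd11cbfadfd7f76faff44f5fef32bfd7f17f73faff0e5) b58213 (.nil)))) (.tok (nat_lit 56) (nat_lit 0xbf6b2d7f7742fe6c75fbd9cbf83157f2502fe32c5fd6e0bfb30d7ed27afeb4e) (.hit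 (nat_lit 93) (nat_lit 13) (nat_lit 0xbf6b2d7f3bcafe6195fbd9cbf83157f2502fe32c5fcc2ebf9af17ed27afddd2) b58214 (.hit (nat_lit 99) (nat_lit 19) (nat_lit 0xbf22197e588afd33f5f8234bf53a17e0662fd1555fab28bf5ce57e993afd009) b58218 (.one (nat_lit 6) (nat_lit 94) (nat_lit 14) (nat_lit 0xbf43797f7742fe6c75fac7ebf771d7eb73afde795fd6e0bfb30d7eae3afeb4e) b58215 (.nil)))) (.nil))))) (.tok (nat_lit 52) (nat_lit 0xbf36757efb7afdafc5f9262bf74557e481afda905ff3fabfd7317f735afe9e6) (.hit (nat_lit 106) (nat_lit 39) (nat_lit 0xbf2da97efb7afd9de5f9262bf74557e481afd98c5ff3fabfd7317f735afe563) b58219 (.hit (nat_lit 107) (nat_lit 40) (nat_lit 0xbf36757ec6dafdafc5f8c9abf60e17e2f92fda905fe89cbfb8357e9d1afe9e6) b58220 (.nil))) (.tok (nat_lit 55) (nat_lit 0xc0000180000300000600000c0218980000300000600000c0000180283b00000) (.hit (nat_lit 108) (nat_lit 41) (nat_lit 0xbfc0117fdebaff0e65ff638bfe6817fc3daffe9d5ff0d2bfebfd7f8422ff03f)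 b58221 (.tok (nat_lit 3) (nat_lit 0xc000017fcee2ffa03600000bfd0ed800003000005ffbcebff3017faecaff72c) (.hit (nat_lit 114) (nat_lit 47) (nat_lit 0xbf99117f5b12fee345fe226bfd0ed7fb3f2feb2f5fdd72bfb9997f20d2fe4ad) b58227 (.one (nat_lit 67) (nat_lit 115) (nat_lit 48) (nat_lit 0xc000017fcee2ffa03600000bfca35800003000005ffbcebff3017faecaff72c) b58228 (.nil))) (.tok (nat_lit 6) (nat_lit 0xbfe639800003000005fe274c021897fb8caffdc9600000c0000180283b00000) (.hit (nat_lit 109) (nat_lit 42) (nat_lit 0xbf8fb17f0ee2fe53b5fb6f0bfc4e17f18a2febd35fda3cbfb5ed7fa25afe6de) b58222 (.hit (nat_lit 112) (nat_lit 45) (nat_lit 0xbf5d317f483aff6aa5fa754bf87c17ea292fe43f5fe120bfc4e17edca2ff1fd) b58225 (.tok (nat_lit 55) (nat_lit 0xbfe639800003000005fe274c021897fb8caffdc9600000c0000180283b00000) (.hit (nat_lit 110) (nat_lit 43) (nat_lit 0xbfe6397fcca2ffcac5fd2a0c021897f80eaff9a65ff424bfef3d8009caff64d) b58223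 (.hit (nat_lit 113) (nat_lit 46) (nat_lit 0xbf9a61800003000005fbe92bfc3f57ef71aff380600000bff6817f56fb00000) b58226 (.one (nat_lit 6) (nat_lit 111) (nat_lit 44) (nat_lit 0xbfdc3d7f98eaffa705fe274c021817fb8caffdc95ffe8ec0000180283affb59) b58224 (.nil)))) (.nil)))) (.nil)))) (.one (nat_lit 58) (nat_lit 116) (nat_lit 49) (nat_lit 0xbf58f97eebeafebf85f9e66bf873d7e76b2fe3825fea84bfbde17f8b2afe93b) b58229 (.nil)))))) (.nil))
noncomputable def r85_14 : Rw Blk := .tok (nat_lit 9) (nat_lit 0x5e0000bc000180000300000) (.hit (nat_lit 0) (nat_lit 0) (nat_lit 0x5e0000bc00017f4482fe907) b58230 (.tok (nat_lit 14) (nat_lit 0x5e0000bc00017fa2baff203) (.hit (nat_lit 11) (nat_lit 61) (nat_lit 0x5e0000bc00017fa2baff08f) b58231 (.one (nat_lit 3) (nat_lit 12) (nat_lit 62) (nat_lit 0x5e0000bc00017f9612fe6f7) b58232 (.tok (nat_lit 6) (nat_lit 0x5e0000bc00017f86c2ff203) (.hit (nat_lit 15) (nat_lit 65)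 (nat_lit 0x5e0000bc00017f86c2ff203) b58235 (.hit (nat_lit 16) (nat_lit 66) (nat_lit 0x5e0000bc00017f5aeafefc1) b58236 (.nil))) (.tok (nat_lit 9) (nat_lit 0x5e0000bc00017f4fb2fefcb) (.hit (nat_lit 13) (nat_lit 63) (nat_lit 0x5e0000bc00017efde2fefcb) b58233 (.hit (nat_lit 14) (nat_lit 64) (nat_lit 0x5e0000bc00017f4fb2fee0d) b58234 (.nil))) (.nil))))) (.one (nat_lit 17) (nat_lit 17) (nat_lit 67) (nat_lit 0x5e0000bc00017f45e2fdc66) b58237 (.tok (nat_lit 20) (nat_lit 0x5e0000bc00017f3bc2fdbd2) (.hit (nat_lit 18) (nat_lit 68) (nat_lit 0x5e0000bc00017e5e1afdbd2) b58238 (.hit (nat_lit 19) (nat_lit 69) (nat_lit 0x5e0000bc00017f3bc2fdad2) b58239 (.nil))) (.tok (nat_lit 23) (nat_lit 0x5e0000bc00017fee6aff455) (.hit (nat_lit 20) (nat_lit 70) (nat_lit 0x5e0000bc00017fee6aff455) b58240 (.hit (nat_lit 21) (nat_lit 71) (nat_lit 0x5e0000bc00017f515afdad2) b58241 (.nil))) (.one (nat_lit 38) (nat_lit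 26) (nat_lit 76) (nat_lit 0x5e0000bc00017f381afdca6) b58242 (.tok (nat_lit 41) (nat_lit 0x5e0000bc00017f4d6afd251) (.hit (nat_lit 27) (nat_lit 77) (nat_lit 0x5e0000bc00017f09dafc7a1) b58243 (.hit (nat_lit 28) (nat_lit 78) (nat_lit 0x5e0000bc00017f4d6afd251) b58244 (.nil))) (.tok (nat_lit 44) (nat_lit 0x5e0000bc00017f62b2fd28c) (.hit (nat_lit 29) (nat_lit 79) (nat_lit 0x5e0000bc00017db79afc702) b58245 (.hit (nat_lit 30) (nat_lit 80) (nat_lit 0x5e0000bc00017f62b2fd28c) b58246 (.nil))) (.tok (nat_lit 47) (nat_lit 0x5e0000bc00017f5fdafd2a1) (.hit (nat_lit 31) (nat_lit 81) (nat_lit 0x5e0000bc00017f5fdafd2a1) b58247 (.hit (nat_lit 32) (nat_lit 82) (nat_lit 0x5e0000bc00017efde2fd1a6) b58248 (.nil))) (.one (nat_lit 50) (nat_lit 33) (nat_lit 83) (nat_lit 0x5e0000bc00017efc3afd614) b58249 (.tok (nat_lit 53) (nat_lit 0x5e0000bc00017f37aafe1a6) (.hit (nat_lit 34) (nat_lit 84) (nat_lit 0x5e0000bc00017ed582fe1a6)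 b58250 (.hit (nat_lit 35) (nat_lit 85) (nat_lit 0x5e0000bc00017f37aafd79f) b58251 (.nil))) (.tok (nat_lit 56) (nat_lit 0x5e0000bc00017f434afeb88) (.hit (nat_lit 36) (nat_lit 86) (nat_lit 0x5e0000bc00017f434afeb88) b58252 (.one (nat_lit 3) (nat_lit 40) (nat_lit 90) (nat_lit 0x5e0000bc00017e790afdf30) b58256 (.tok (nat_lit 6) (nat_lit 0x5e0000bc00017ece22fe9d3) (.hit (nat_lit 38) (nat_lit 88) (nat_lit 0x5e0000bc00017ece22fe9d3) b58254 (.hit (nat_lit 39) (nat_lit 89) (nat_lit 0x5e0000bc00017ea3cafe488) b58255 (.nil))) (.one (nat_lit 9) (nat_lit 37) (nat_lit 87) (nat_lit 0x5e0000bc00017eb862fe71b) b58253 (.nil))))) (.one (nat_lit 59) (nat_lit 41) (nat_lit 91) (nat_lit 0x5e0000bc00017eff8afc65c) b58257 (.one (nat_lit 62) (nat_lit 42) (nat_lit 92) (nat_lit 0x5e0000bc00017f387afd614) b58258 (.tok (nat_lit 65) (nat_lit 0x5e0000bc00017f3faafdea4) (.hit (nat_lit 43) (nat_lit 93) (nat_lit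 0x5e0000bc00017e761afdea4) b58259 (.hit (nat_lit 44) (nat_lit 94) (nat_lit 0x5e0000bc00017f3faafd2e6) b58260 (.nil))) (.tok (nat_lit 68) (nat_lit 0x5e0000bc000180000300000) (.hit (nat_lit 45) (nat_lit 95) (nat_lit 0x5e0000bc00017ffb4affb30) b58261 (.one (nat_lit 3) (nat_lit 49) (nat_lit 99) (nat_lit 0x5e0000bc0001800002ff09c) b58265 (.one (nat_lit 6) (nat_lit 46) (nat_lit 96) (nat_lit 0x5e0000bc00017fa97b00000) b58262 (.tok (nat_lit 9) (nat_lit 0x5e0000bc00017fbc22fec78) (.hit (nat_lit 47) (nat_lit 97) (nat_lit 0x5e0000bc00017fbc22fec78) b58263 (.hit (nat_lit 48) (nat_lit 98) (nat_lit 0x5e0000bc00017f63c2fdf62) b58264 (.nil))) (.nil))))) (.one (nat_lit 71) (nat_lit 50) (nat_lit 100) (nat_lit 0x5e0000bc00017f0462fc78c) b58266 (.nil)))))))))))))))))) (.nil)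
noncomputable def r85_15 : Rw Blk := .tok (nat_lit 6) (nat_lit 0x2f00005e0000bfee418077ab00264) (.hit (nat_lit 0) (nat_lit 0) (nat_lit 0x2f00005e0000bf51357ee1c2fd81b) b58267 (.tok (nat_lit 14) (nat_lit 0x2f00005e0000bfe3397f63eaff501) (.hit (nat_lit 21) (nat_lit 61) (nat_lit 0x2f00005e0000bfb1f97f20a2fe422) b58268 (.one (nat_lit 3) (nat_lit 22) (nat_lit 62) (nat_lit 0x2f00005e0000bfc34d7ec09afe87a) b58269 (.tok (nat_lit 6) (nat_lit 0x2f00005e0000bf71617ef232fdd5f) (.hit (nat_lit 25) (nat_lit 65) (nat_lit 0x2f00005e0000bee3f97ef232fda5f) b58272 (.hit (nat_lit 26) (nat_lit 66) (nat_lit 0x2f00005e0000bf71617eef7afdd5f) b58273 (.nil))) (.tok (nat_lit 9) (nat_lit 0x2f00005e0000bfe3397f63eaff501) (.hit (nat_lit 23) (nat_lit 63) (nat_lit 0x2f00005e0000bfe3397f63eaff501) b58270 (.hit (nat_lit 24) (nat_lit 64) (nat_lit 0x2f00005e0000bf6b5d7ee4a2fd8ad) b58271 (.nil))) (.nil))))) (.one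 (nat_lit 17) (nat_lit 27) (nat_lit 67) (nat_lit 0x2f00005e0000bf8e497eb062fd35b) b58274 (.tok (nat_lit 20) (nat_lit 0x2f00005e0000bfee418077ab00264) (.hit (nat_lit 28) (nat_lit 68) (nat_lit 0x2f00005e0000bfee418077ab00264) b58275 (.hit (nat_lit 29) (nat_lit 69) (nat_lit 0x2f00005e0000bf5a517e7212fcacf) b58276 (.nil))) (.tok (nat_lit 23) (nat_lit 0x2f00005e0000bf4ec97e6c4afc9a2) (.hit (nat_lit 30) (nat_lit 70) (nat_lit 0x2f00005e0000bea1057e6c4afc9a2) b58277 (.hit (nat_lit 31) (nat_lit 71) (nat_lit 0x2f00005e0000bf4ec97e4b6afc6a2) b58278 (.nil))) (.one (nat_lit 26) (nat_lit 32) (nat_lit 72) (nat_lit 0x2f00005e0000bf331d7e1e6afc05b) b58279 (.one (nat_lit 29) (nat_lit 33) (nat_lit 73) (nat_lit 0x2f00005e0000bf48257e5062fcd2d) b58280 (.one (nat_lit 32) (nat_lit 34) (nat_lit 74) (nat_lit 0x2f00005e0000bf14417de862fb96e) b58281 (.one (nat_lit 35) (nat_lit 35) (nat_lit 75) (nat_lit 0x2f00005e0000bf724d7e508afce7b)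 b58282 (.one (nat_lit 38) (nat_lit 36) (nat_lit 76) (nat_lit 0x2f00005e0000bf487d7e7cdafcbb4) b58283 (.tok (nat_lit 41) (nat_lit 0x2f00005e0000bf38497e7bbafcd4b) (.hit (nat_lit 37) (nat_lit 77) (nat_lit 0x2f00005e0000bf1f0d7de642fc5bc) b58284 (.hit (nat_lit 38) (nat_lit 78) (nat_lit 0x2f00005e0000bf38497e7bbafcd4b) b58285 (.nil))) (.tok (nat_lit 44) (nat_lit 0x2f00005e0000bf75e97e80d2fd30b) (.hit (nat_lit 39) (nat_lit 79) (nat_lit 0x2f00005e0000bf75e97e80d2fd30b) b58286 (.hit (nat_lit 40) (nat_lit 80) (nat_lit 0x2f00005e0000bf46f17e06cafc5a1) b58287 (.nil))) (.tok (nat_lit 47) (nat_lit 0x2f00005e0000bf9ccd7e9862fd9f7) (.hit (nat_lit 41) (nat_lit 81) (nat_lit 0x2f00005e0000be83617e3102fc239) b58288 (.hit (nat_lit 42) (nat_lit 82) (nat_lit 0x2f00005e0000bf9ccd7e9862fd9f7) b58289 (.nil))) (.one (nat_lit 50) (nat_lit 43) (nat_lit 83) (nat_lit 0x2f00005e0000bf6db57e69a2fcea8) b58290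 (.tok (nat_lit 53) (nat_lit 0x2f00005e0000bf998d7f1522fe5bf) (.hit (nat_lit 44) (nat_lit 84) (nat_lit 0x2f00005e0000bf998d7f1522fe5bf) b58291 (.hit (nat_lit 45) (nat_lit 85) (nat_lit 0x2f00005e0000bf69557e84d2fd0f8) b58292 (.nil))) (.tok (nat_lit 56) (nat_lit 0x2f00005e0000bfae5d7f9642fe469) (.hit (nat_lit 46) (nat_lit 86) (nat_lit 0x2f00005e0000bfa1657f319afe059) b58293 (.one (nat_lit 3) (nat_lit 50) (nat_lit 90) (nat_lit 0x2f00005e0000bf6f6d7ee6e2fcf85) b58297 (.tok (nat_lit 6) (nat_lit 0x2f00005e0000bfa1317ef52afe2be) (.hit (nat_lit 48) (nat_lit 88) (nat_lit 0x2f00005e0000bfa1317ef52afe2be) b58295 (.hit (nat_lit 49) (nat_lit 89) (nat_lit 0x2f00005e0000bf89957e919afd7aa) b58296 (.nil))) (.one (nat_lit 9) (nat_lit 47) (nat_lit 87) (nat_lit 0x2f00005e0000bfae5d7f9642fe469) b58294 (.nil))))) (.one (nat_lit 59) (nat_lit 51) (nat_lit 91) (nat_lit 0x2f00005e0000bf56e57e36fafc6e9)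 b58298 (.nil)))))))))))))))))) (.tok (nat_lit 52) (nat_lit 0x2f00005e0000c0000180610300a7d) (.hit (nat_lit 176) (nat_lit 0) (nat_lit 0x2f00005e0000c0000180610300a7d) b58299 (.tok (nat_lit 6) (nat_lit 0x2f00005e0000bfb0697fb822ffb5d) (.hit (nat_lit 177) (nat_lit 7) (nat_lit 0x2f00005e0000bfb0697fb822ffb5d) b58300 (.hit (nat_lit 178) (nat_lit 15) (nat_lit 0x2f00005e0000bf6ce57f336afebb3) b58301 (.nil))) (.tok (nat_lit 9) (nat_lit 0x2f00005e0000bfa3ad7f77a2ff520) (.hit (nat_lit 179) (nat_lit 20) (nat_lit 0x2f00005e0000bf554d7f502afe63e) b58302 (.hit (nat_lit 180) (nat_lit 28) (nat_lit 0x2f00005e0000bfa3ad7f77a2ff520) b58303 (.nil))) (.nil)))) (.tok (nat_lit 55) (nat_lit 0x2f00005e0000bf93bd7fcd0aff5da) (.hit (nat_lit 187) (nat_lit 0) (nat_lit 0x2f00005e0000bf8aa57f61e2fe875) b58304 (.tok (nat_lit 3) (nat_lit 0x2f00005e0000bf6fc57f851afecdc) (.hit (nat_lit 188) (nat_lit 1) (nat_lit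 0x2f00005e0000bf15357ecffafd638) b58305 (.one (nat_lit 67) (nat_lit 189) (nat_lit 2) (nat_lit 0x2f00005e0000bf6fc57f851afecdc) b58306 (.nil))) (.tok (nat_lit 6) (nat_lit 0x2f00005e0000bf93bd7fcd0aff5da) (.hit (nat_lit 190) (nat_lit 7) (nat_lit 0x2f00005e0000bf3f497f2422fe0bd) b58307 (.hit (nat_lit 193) (nat_lit 15) (nat_lit 0x2f00005e0000bf188d7ed6aafd70e) b58310 (.tok (nat_lit 55) (nat_lit 0x2f00005e0000bf93bd7fcd0aff5da) (.hit (nat_lit 191) (nat_lit 8) (nat_lit 0x2f00005e0000bf7ae97f9b62fefa5) b58308 (.hit (nat_lit 194) (nat_lit 16) (nat_lit 0x2f00005e0000bf7a817f9a92fef8b) b58311 (.one (nat_lit 6) (nat_lit 192) (nat_lit 9) (nat_lit 0x2f00005e0000bf93bd7fcd0aff5da) b58309 (.nil)))) (.nil)))) (.nil)))) (.tok (nat_lit 58) (nat_lit 0x2f00005e0000bf9de17fdc9aff7cc) (.hit (nat_lit 201) (nat_lit 0) (nat_lit 0x2f00005e0000bf9de17fa3b2fed1a) b58312 (.tok (nat_lit 3) (nat_lit 0x2f00005e0000bf9b857fdc9aff7cc)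 (.hit (nat_lit 202) (nat_lit 1) (nat_lit 0x2f00005e0000bf35297f0fe2fde35) b58313 (.one (nat_lit 55) (nat_lit 203) (nat_lit 3) (nat_lit 0x2f00005e0000bf9b857fdc9aff7cc) b58314 (.nil))) (.tok (nat_lit 9) (nat_lit 0x2f00005e0000bf3da97f20e2fe055) (.hit (nat_lit 204) (nat_lit 20) (nat_lit 0x2f00005e0000bf3cf57f1f7afe028) b58315 (.hit (nat_lit 207) (nat_lit 28) (nat_lit 0x2f00005e0000bf3da97f20e2fe055) b58316 (.nil))) (.nil)))) (.nil))))
noncomputable def r85_16 : Rw Blk := .tok (nat_lit 3) (nat_lit 0x2f00005e0000c0384d80db6b024ca) (.hit (nat_lit 15) (nat_lit 0) (nat_lit 0x2f00005e0000bffa217fbefb00ce5) b58332 (.tok (nat_lit 9) (nat_lit 0x2f00005e0000bfb9517f2912ff002) (.hit (nat_lit 16) (nat_lit 20) (nat_lit 0x2f00005e0000beee697e1f22fc539) b58333 (.hit (nat_lit 21) (nat_lit 28) (nat_lit 0x2f00005e0000bf2be17dc32afe1b0) b58336 (.tok (nat_lit 14) (nat_lit 0x2f00005e0000bf7ab97efedaff002)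 (.hit (nat_lit 17) (nat_lit 24) (nat_lit 0x2f00005e0000bf33b97e7a02fd68d) b58334 (.hit (nat_lit 22) (nat_lit 30) (nat_lit 0x2f00005e0000bf59dd7efedaff002) b58337 (.one (nat_lit 6) (nat_lit 18) (nat_lit 25) (nat_lit 0x2f00005e0000bf7ab97e973afe84d) b58335 (.nil)))) (.one (nat_lit 56) (nat_lit 23) (nat_lit 31) (nat_lit 0x2f00005e0000bfb9517f2912fec9d) b58338 (.nil))))) (.tok (nat_lit 64) (nat_lit 0x2f00005e0000bf96717f39d2fff53) (.hit (nat_lit 25) (nat_lit 50) (nat_lit 0x2f00005e0000bf82197ef6faff0fe) b58339 (.hit (nat_lit 26) (nat_lit 51) (nat_lit 0x2f00005e0000bf96717f39d2fff53) b58340 (.nil))) (.tok (nat_lit 67) (nat_lit 0x2f00005e0000c0384d80db6b0168b) (.hit (nat_lit 27) (nat_lit 52) (nat_lit 0x2f00005e0000c0384d80db6b0168b) b58341 (.tok (nat_lit 3) (nat_lit 0x2f00005e0000bfa9517f2202ff3f3) (.hit (nat_lit 33) (nat_lit 58) (nat_lit 0x2f00005e0000bf5d8d7ee082fe102) b58344 (.one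 (nat_lit 55) (nat_lit 34) (nat_lit 59) (nat_lit 0x2f00005e0000bfa9517f2202ff3f3) b58345 (.nil))) (.tok (nat_lit 9) (nat_lit 0x2f00005e0000bf61357ef67afe1ec) (.hit (nat_lit 28) (nat_lit 53) (nat_lit 0x2f00005e0000bf61357ef67afe1ec) b58342 (.hit (nat_lit 31) (nat_lit 56) (nat_lit 0x2f00005e0000bf53ad7ebf92fde8a) b58343 (.nil))) (.nil)))) (.one (nat_lit 70) (nat_lit 35) (nat_lit 60) (nat_lit 0x2f00005e0000c028497f957b024ca) b58346 (.nil)))))) (.tok (nat_lit 6) (nat_lit 0x2f00005e0000c0c99582a6d304fbe) (.hit (nat_lit 0) (nat_lit 0) (nat_lit 0x2f00005e0000c0010d80512b00b54) b58317 (.tok (nat_lit 6) (nat_lit 0x2f00005e0000c027198138330236b) (.hit (nat_lit 1) (nat_lit 7) (nat_lit 0x2f00005e0000bf3fa57f0d1afdc1a) b58318 (.hit (nat_lit 4) (nat_lit 15) (nat_lit 0x2f00005e0000bf64f17f3f5afe525) b58321 (.tok (nat_lit 14) (nat_lit 0x2f00005e0000c027198138330236b) (.hit (nat_lit 2) (nat_lit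 11) (nat_lit 0x2f00005e0000bf99a57fd9faff8ca) b58319 (.hit (nat_lit 5) (nat_lit 17) (nat_lit 0x2f00005e0000bfca9d8002b2ff8b5) b58322 (.one (nat_lit 9) (nat_lit 3) (nat_lit 12) (nat_lit 0x2f00005e0000c027198138330236b) b58320 (.nil)))) (.one (nat_lit 68) (nat_lit 6) (nat_lit 18) (nat_lit 0x2f00005e0000c008b180dd1b00e31) b58323 (.nil))))) (.tok (nat_lit 52) (nat_lit 0x2f00005e0000c0c4e581fd8b0423c) (.hit (nat_lit 7) (nat_lit 39) (nat_lit 0x2f00005e0000c0c4e581fd8b0423c) b58324 (.hit (nat_lit 8) (nat_lit 40) (nat_lit 0x2f00005e0000c02a0d8030db007f9) b58325 (.nil))) (.tok (nat_lit 55) (nat_lit 0x2f00005e0000c0c99582a6d304fbe) (.hit (nat_lit 9) (nat_lit 41) (nat_lit 0x2f00005e0000c08c4181998b02e08) b58326 (.tok (nat_lit 3) (nat_lit 0x2f00005e0000bff8f980cf83008d4) (.hit (nat_lit 12) (nat_lit 47) (nat_lit 0x2f00005e0000bfc55980cf83008d4) b58329 (.one (nat_lit 67) (nat_lit 13) (nat_lit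 48) (nat_lit 0x2f00005e0000bff8f9806ccb006c7) b58330 (.nil))) (.tok (nat_lit 6) (nat_lit 0x2f00005e0000c0c99582a6d304fbe) (.hit (nat_lit 10) (nat_lit 42) (nat_lit 0x2f00005e0000c0c99582a6d304fbe) b58327 (.hit (nat_lit 11) (nat_lit 45) (nat_lit 0x2f00005e0000bfd7257f9c92ff89c) b58328 (.nil))) (.nil)))) (.one (nat_lit 58) (nat_lit 14) (nat_lit 49) (nat_lit 0x2f00005e0000c0ba79826ebb03e6e) b58331 (.nil)))))) (.nil))
noncomputable def r85_17 : Rw Blk := .tok (nat_lit 6) (nat_lit 0x5e0000bc000182113b04fb2) (.hit (nat_lit 0) (nat_lit 0) (nat_lit 0x5e0000bc00017f9db300fc3) b58347 (.tok (nat_lit 14) (nat_lit 0x5e0000bc00018165f303615) (.hit (nat_lit 1) (nat_lit 61) (nat_lit 0x5e0000bc0001801c9300ed5) b58348 (.one (nat_lit 3) (nat_lit 2) (nat_lit 62) (nat_lit 0x5e0000bc0001805f8300de5) b58349 (.tok (nat_lit 6) (nat_lit 0x5e0000bc00017f5b82ffb2d) (.hit (nat_lit 5) (nat_lit 65) (nat_lit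 0x5e0000bc00017f5b82ff59f) b58352 (.hit (nat_lit 6) (nat_lit 66) (nat_lit 0x5e0000bc00017f1242ffb2d) b58353 (.nil))) (.tok (nat_lit 9) (nat_lit 0x5e0000bc00018165f303615) (.hit (nat_lit 3) (nat_lit 63) (nat_lit 0x5e0000bc00018165f303615) b58350 (.hit (nat_lit 4) (nat_lit 64) (nat_lit 0x5e0000bc00017f91eb00530) b58351 (.nil))) (.nil))))) (.one (nat_lit 17) (nat_lit 7) (nat_lit 67) (nat_lit 0x5e0000bc00017f7b62ff3c6) b58354 (.tok (nat_lit 20) (nat_lit 0x5e0000bc000182113b04fb2) (.hit (nat_lit 8) (nat_lit 68) (nat_lit 0x5e0000bc000182113b04fb2) b58355 (.hit (nat_lit 9) (nat_lit 69) (nat_lit 0x5e0000bc00017f5192feee4) b58356 (.nil))) (.tok (nat_lit 23) (nat_lit 0x5e0000bc00017f42a2ff865) (.hit (nat_lit 10) (nat_lit 70) (nat_lit 0x5e0000bc00017f099afeb62) b58357 (.hit (nat_lit 11) (nat_lit 71) (nat_lit 0x5e0000bc00017f42a2ff865) b58358 (.nil))) (.one (nat_lit 26) (nat_lit 12) (nat_lit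 72) (nat_lit 0x5e0000bc00017f8902ff307) b58359 (.one (nat_lit 29) (nat_lit 13) (nat_lit 73) (nat_lit 0x5e0000bc00017fb962ff919) b58360 (.one (nat_lit 32) (nat_lit 14) (nat_lit 74) (nat_lit 0x5e0000bc00017ee82afe75d) b58361 (.one (nat_lit 35) (nat_lit 15) (nat_lit 75) (nat_lit 0x5e0000bc00017f950aff712) b58362 (.one (nat_lit 62) (nat_lit 23) (nat_lit 92) (nat_lit 0x5e0000bc00017fcb72ffbd8) b58363 (.tok (nat_lit 65) (nat_lit 0x5e0000bc00017f2b6aff741) (.hit (nat_lit 24) (nat_lit 93) (nat_lit 0x5e0000bc00017f1b0aff741) b58364 (.hit (nat_lit 25) (nat_lit 94) (nat_lit 0x5e0000bc00017f2b6aff1cd) b58365 (.nil))) (.tok (nat_lit 68) (nat_lit 0x5e0000bc000180702301bc0) (.hit (nat_lit 26) (nat_lit 95) (nat_lit 0x5e0000bc000180702301bc0) b58366 (.one (nat_lit 3) (nat_lit 30) (nat_lit 99) (nat_lit 0x5e0000bc00017f49baff366) b58370 (.one (nat_lit 6) (nat_lit 27) (nat_lit 96) (nat_lit 0x5e0000bc00017f2322fee93)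 b58367 (.tok (nat_lit 9) (nat_lit 0x5e0000bc00017f3682ff0ff) (.hit (nat_lit 28) (nat_lit 97) (nat_lit 0x5e0000bc00017f3682ff0ff) b58368 (.hit (nat_lit 29) (nat_lit 98) (nat_lit 0x5e0000bc00017edb72fe59d) b58369 (.nil))) (.nil))))) (.one (nat_lit 71) (nat_lit 31) (nat_lit 100) (nat_lit 0x5e0000bc00017f3dbafed14) b58371 (.nil)))))))))))))) (.tok (nat_lit 52) (nat_lit 0x5e0000bc00018179d303ae7) (.hit (nat_lit 45) (nat_lit 0) (nat_lit 0x5e0000bc00018179d303ae7) b58385 (.tok (nat_lit 6) (nat_lit 0x5e0000bc000181294b034d9) (.hit (nat_lit 46) (nat_lit 7) (nat_lit 0x5e0000bc000181294b034d9) b58386 (.hit (nat_lit 47) (nat_lit 15) (nat_lit 0x5e0000bc000180da5b0331e) b58387 (.nil))) (.tok (nat_lit 9) (nat_lit 0x5e0000bc00017fe5db008da) (.hit (nat_lit 48) (nat_lit 20) (nat_lit 0x5e0000bc00017f6612ffb89) b58388 (.hit (nat_lit 49) (nat_lit 28) (nat_lit 0x5e0000bc00017fe5db008da) b58389 (.nil)))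 (.nil)))) (.tok (nat_lit 55) (nat_lit 0x5e0000bc000180631301b29) (.hit (nat_lit 40) (nat_lit 0) (nat_lit 0x5e0000bc000180410300db2) b58380 (.tok (nat_lit 3) (nat_lit 0x5e0000bc0001803e0b01688) (.hit (nat_lit 41) (nat_lit 1) (nat_lit 0x5e0000bc00017fc85b007d2) b58381 (.one (nat_lit 67) (nat_lit 42) (nat_lit 2) (nat_lit 0x5e0000bc0001803e0b01688) b58382 (.nil))) (.tok (nat_lit 6) (nat_lit 0x5e0000bc000180631301b29) (.hit (nat_lit 43) (nat_lit 7) (nat_lit 0x5e0000bc000180631301b29) b58383 (.hit (nat_lit 44) (nat_lit 15) (nat_lit 0x5e0000bc00017f7c52ffe51) b58384 (.nil))) (.nil)))) (.tok (nat_lit 58) (nat_lit 0x5e0000bc0001810bbb0303e) (.hit (nat_lit 32) (nat_lit 0) (nat_lit 0x5e0000bc000180834b026da) b58372 (.tok (nat_lit 3) (nat_lit 0x5e0000bc0001810bbb0303e) (.hit (nat_lit 33) (nat_lit 1) (nat_lit 0x5e0000bc000180720b01d08) b58373 (.one (nat_lit 55) (nat_lit 34) (nat_lit 3) (nat_lit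 0x5e0000bc0001810bbb0303e) b58374 (.nil))) (.tok (nat_lit 9) (nat_lit 0x5e0000bc000181013b02eee) (.hit (nat_lit 35) (nat_lit 20) (nat_lit 0x5e0000bc00018098cb021e0) b58375 (.hit (nat_lit 38) (nat_lit 28) (nat_lit 0x5e0000bc000180565b01992) b58378 (.tok (nat_lit 67) (nat_lit 0x5e0000bc000181013b02eee) (.hit (nat_lit 36) (nat_lit 21) (nat_lit 0x5e0000bc000180cdeb02884) b58376 (.hit (nat_lit 39) (nat_lit 29) (nat_lit 0x5e0000bc000180f52b02d6c) b58379 (.one (nat_lit 9) (nat_lit 37) (nat_lit 22) (nat_lit 0x5e0000bc000181013b02eee) b58377 (.nil)))) (.nil)))) (.nil)))) (.nil))))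
noncomputable def r85_18 : Rw Blk := .tok (nat_lit 3) (nat_lit 0x5e0000bc000181b90b02f75) (.hit (nat_lit 0) (nat_lit 0) (nat_lit 0x5e0000bc000181b90b02f75) b58390 (.tok (nat_lit 9) (nat_lit 0x5e0000bc0001810dbb02104) (.hit (nat_lit 1) (nat_lit 20) (nat_lit 0x5e0000bc00017f8b4aff0b6) b58391 (.hit (nat_lit 6) (nat_lit 28) (nat_lit 0x5e0000bc00017fb76aff63a) b58394 (.tok (nat_lit 68) (nat_lit 0x5e0000bc0001810dbb02104) (.hit (nat_lit 4) (nat_lit 26) (nat_lit 0x5e0000bc0001801f2b00332) b58392 (.hit (nat_lit 8) (nat_lit 32) (nat_lit 0x5e0000bc000180b353015b7) b58395 (.one (nat_lit 9) (nat_lit 5) (nat_lit 27) (nat_lit 0x5e0000bc0001810dbb02104) b58393 (.nil)))) (.nil)))) (.tok (nat_lit 64) (nat_lit 0x5e0000bc0001813393025bf) (.hit (nat_lit 9) (nat_lit 50) (nat_lit 0x5e0000bc000181094b02076) b58396 (.hit (nat_lit 10) (nat_lit 51) (nat_lit 0x5e0000bc0001813393025bf) b58397 (.nil))) (.tok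 (nat_lit 67) (nat_lit 0x5e0000bc000181a89b02e5e) (.hit (nat_lit 11) (nat_lit 52) (nat_lit 0x5e0000bc000181a89b02e5e) b58398 (.one (nat_lit 3) (nat_lit 17) (nat_lit 58) (nat_lit 0x5e0000bc000180c69b01820) b58404 (.tok (nat_lit 9) (nat_lit 0x5e0000bc000180dde301b09) (.hit (nat_lit 12) (nat_lit 53) (nat_lit 0x5e0000bc0001809ddb01308) b58399 (.hit (nat_lit 15) (nat_lit 56) (nat_lit 0x5e0000bc00018096030120d) b58402 (.tok (nat_lit 67) (nat_lit 0x5e0000bc000180dde301b09) (.hit (nat_lit 13) (nat_lit 54) (nat_lit 0x5e0000bc000180c33b017b4) b58400 (.hit (nat_lit 16) (nat_lit 57) (nat_lit 0x5e0000bc000180dde301b09) b58403 (.one (nat_lit 9) (nat_lit 14) (nat_lit 55) (nat_lit 0x5e0000bc00018099f30128b) b58401 (.nil)))) (.nil)))) (.nil)))) (.one (nat_lit 70) (nat_lit 19) (nat_lit 60) (nat_lit 0x5e0000bc000180e9db01c88) b58405 (.nil)))))) (.tok (nat_lit 6) (nat_lit 0x5e0000bc000182471b04b32)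 (.hit (nat_lit 20) (nat_lit 0) (nat_lit 0x5e0000bc000182471b04b32) b58406 (.tok (nat_lit 6) (nat_lit 0x5e0000bc00018216cb04453) (.hit (nat_lit 21) (nat_lit 7) (nat_lit 0x5e0000bc00018187db03576) b58407 (.hit (nat_lit 24) (nat_lit 15) (nat_lit 0x5e0000bc0001814913036f7) b58408 (.one (nat_lit 68) (nat_lit 26) (nat_lit 18) (nat_lit 0x5e0000bc00018216cb04453) b58409 (.nil)))) (.nil))) (.nil))
noncomputable def r85_19 : Rw Blk := .tok (nat_lit 6) (nat_lit 0x5e0000bc0001800002ff56e) (.hit (nat_lit 0) (nat_lit 0) (nat_lit 0x5e0000bc00017ebddafd481) b58410 (.tok (nat_lit 14) (nat_lit 0x5e0000bc0001800002ff56e) (.hit (nat_lit 21) (nat_lit 61) (nat_lit 0x5e0000bc00017f8e02fdfd0) b58411 (.one (nat_lit 3) (nat_lit 22) (nat_lit 62) (nat_lit 0x5e0000bc00017f22b2fd5fb) b58412 (.tok (nat_lit 6) (nat_lit 0x5e0000bc00017f2662fe061) (.hit (nat_lit 25) (nat_lit 65) (nat_lit 0x5e0000bc00017e9022fdd1c)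 b58415 (.hit (nat_lit 26) (nat_lit 66) (nat_lit 0x5e0000bc00017f2662fe061) b58416 (.nil))) (.tok (nat_lit 9) (nat_lit 0x5e0000bc0001800002ff56e) (.hit (nat_lit 23) (nat_lit 63) (nat_lit 0x5e0000bc0001800002ff56e) b58413 (.hit (nat_lit 24) (nat_lit 64) (nat_lit 0x5e0000bc00017f4a5afddb5) b58414 (.nil))) (.nil))))) (.one (nat_lit 17) (nat_lit 27) (nat_lit 67) (nat_lit 0x5e0000bc00017ed372fcb6a) b58417 (.tok (nat_lit 20) (nat_lit 0x5e0000bc00017f1b92fdc6c) (.hit (nat_lit 28) (nat_lit 68) (nat_lit 0x5e0000bc00017f1b92fdc6c) b58418 (.hit (nat_lit 29) (nat_lit 69) (nat_lit 0x5e0000bc00017eba02fc9d8) b58419 (.nil))) (.tok (nat_lit 23) (nat_lit 0x5e0000bc00017ed222fd59d) (.hit (nat_lit 30) (nat_lit 70) (nat_lit 0x5e0000bc00017e542afd59d) b58420 (.hit (nat_lit 31) (nat_lit 71) (nat_lit 0x5e0000bc00017ed222fc9d6) b58421 (.nil))) (.one (nat_lit 26) (nat_lit 32) (nat_lit 72) (nat_lit 0x5e0000bc00017e96d2fb99d)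 b58422 (.one (nat_lit 29) (nat_lit 33) (nat_lit 73) (nat_lit 0x5e0000bc00017e897afb9ec) b58423 (.one (nat_lit 32) (nat_lit 34) (nat_lit 74) (nat_lit 0x5e0000bc00017e493afbd55) b58424 (.one (nat_lit 35) (nat_lit 35) (nat_lit 75) (nat_lit 0x5e0000bc00017ec562fbf61) b58425 (.one (nat_lit 38) (nat_lit 36) (nat_lit 76) (nat_lit 0x5e0000bc00017eb12afcbaa) b58426 (.tok (nat_lit 41) (nat_lit 0x5e0000bc00017e9e3afc2b5) (.hit (nat_lit 37) (nat_lit 77) (nat_lit 0x5e0000bc00017e9e3afbca1) b58427 (.hit (nat_lit 38) (nat_lit 78) (nat_lit 0x5e0000bc00017e85aafc2b5) b58428 (.nil))) (.tok (nat_lit 44) (nat_lit 0x5e0000bc00017eea6afc50d) (.hit (nat_lit 39) (nat_lit 79) (nat_lit 0x5e0000bc00017eea6afc50d) b58429 (.hit (nat_lit 40) (nat_lit 80) (nat_lit 0x5e0000bc00017ea65afbf94) b58430 (.nil))) (.tok (nat_lit 47) (nat_lit 0x5e0000bc00017edb8afc220) (.hit (nat_lit 41) (nat_lit 81) (nat_lit 0x5e0000bc00017d41cafb351)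 b58431 (.hit (nat_lit 42) (nat_lit 82) (nat_lit 0x5e0000bc00017edb8afc220) b58432 (.nil))) (.one (nat_lit 50) (nat_lit 43) (nat_lit 83) (nat_lit 0x5e0000bc00017f01c2fc6e7) b58433 (.tok (nat_lit 53) (nat_lit 0x5e0000bc00017f110afd664) (.hit (nat_lit 44) (nat_lit 84) (nat_lit 0x5e0000bc00017f110afd664) b58434 (.hit (nat_lit 45) (nat_lit 85) (nat_lit 0x5e0000bc00017eed6afc4d1) b58435 (.nil))) (.tok (nat_lit 56) (nat_lit 0x5e0000bc00017fc1aafe41e) (.hit (nat_lit 46) (nat_lit 86) (nat_lit 0x5e0000bc00017f7efafe15c) b58436 (.one (nat_lit 3) (nat_lit 50) (nat_lit 90) (nat_lit 0x5e0000bc00017f2a92fce71) b58440 (.tok (nat_lit 6) (nat_lit 0x5e0000bc00017fc1aafe41e) (.hit (nat_lit 48) (nat_lit 88) (nat_lit 0x5e0000bc00017fc1aafe41e) b58438 (.hit (nat_lit 49) (nat_lit 89) (nat_lit 0x5e0000bc00017f2212fce68) b58439 (.nil))) (.one (nat_lit 9) (nat_lit 47) (nat_lit 87) (nat_lit 0x5e0000bc00017fa692fe337)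 b58437 (.nil))))) (.one (nat_lit 59) (nat_lit 51) (nat_lit 91) (nat_lit 0x5e0000bc00017ec4dafbf4a) b58441 (.nil)))))))))))))))))) (.tok (nat_lit 52) (nat_lit 0x5e0000bc00017fba3300000) (.hit (nat_lit 176) (nat_lit 0) (nat_lit 0x5e0000bc00017faae300000) b58442 (.tok (nat_lit 6) (nat_lit 0x5e0000bc00017fba32ffefb) (.hit (nat_lit 177) (nat_lit 7) (nat_lit 0x5e0000bc00017fba32ffefb) b58443 (.hit (nat_lit 178) (nat_lit 15) (nat_lit 0x5e0000bc00017f392afef48) b58444 (.nil))) (.tok (nat_lit 9) (nat_lit 0x5e0000bc00017f7b02ff251) (.hit (nat_lit 179) (nat_lit 20) (nat_lit 0x5e0000bc00017f090afec72) b58445 (.hit (nat_lit 180) (nat_lit 28) (nat_lit 0x5e0000bc00017f7b02ff251) b58446 (.nil))) (.nil)))) (.tok (nat_lit 55) (nat_lit 0x5e0000bc00017fd412ffbf9) (.hit (nat_lit 187) (nat_lit 0) (nat_lit 0x5e0000bc00017fd412fef82) b58447 (.tok (nat_lit 3) (nat_lit 0x5e0000bc00017f3bc2ff2c9) (.hit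 (nat_lit 188) (nat_lit 1) (nat_lit 0x5e0000bc00017ed19afe584) b58448 (.one (nat_lit 67) (nat_lit 189) (nat_lit 2) (nat_lit 0x5e0000bc00017f3bc2ff2c9) b58449 (.nil))) (.tok (nat_lit 6) (nat_lit 0x5e0000bc00017f8542ffbf9) (.hit (nat_lit 190) (nat_lit 7) (nat_lit 0x5e0000bc00017eb892fe263) b58450 (.hit (nat_lit 193) (nat_lit 15) (nat_lit 0x5e0000bc00017ed232fe597) b58453 (.tok (nat_lit 55) (nat_lit 0x5e0000bc00017f8542ffbf9) (.hit (nat_lit 191) (nat_lit 8) (nat_lit 0x5e0000bc00017f348aff1e2) b58451 (.hit (nat_lit 194) (nat_lit 16) (nat_lit 0x5e0000bc00017f49e2ff48d) b58454 (.one (nat_lit 6) (nat_lit 192) (nat_lit 9) (nat_lit 0x5e0000bc00017f8542ffbf9) b58452 (.nil)))) (.nil)))) (.nil)))) (.tok (nat_lit 58) (nat_lit 0x5e0000bc00017f9f32fff37) (.hit (nat_lit 201) (nat_lit 0) (nat_lit 0x5e0000bc00017f6bd2fecca) b58455 (.tok (nat_lit 3) (nat_lit 0x5e0000bc00017f9f32fff37) (.hit (nat_lit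 202) (nat_lit 1) (nat_lit 0x5e0000bc00017edafafe6b0) b58456 (.one (nat_lit 55) (nat_lit 203) (nat_lit 3) (nat_lit 0x5e0000bc00017f9f32fff37) b58457 (.nil))) (.tok (nat_lit 9) (nat_lit 0x5e0000bc00017f15e2fee0d) (.hit (nat_lit 204) (nat_lit 20) (nat_lit 0x5e0000bc00017f15e2fee0d) b58458 (.hit (nat_lit 207) (nat_lit 28) (nat_lit 0x5e0000bc00017ecb9afe4c4) b58459 (.nil))) (.nil)))) (.nil))))
noncomputable def r85_20 : Rw Blk := .tok (nat_lit 3) (nat_lit 0x5e0000bc000180966b02268) (.hit (nat_lit 15) (nat_lit 0) (nat_lit 0x5e0000bc00017efaa2fed4c) b58475 (.tok (nat_lit 9) (nat_lit 0x5e0000bc00017e6ce2fdc9e) (.hit (nat_lit 16) (nat_lit 20) (nat_lit 0x5e0000bc00017df10afcd23) b58476 (.hit (nat_lit 21) (nat_lit 28) (nat_lit 0x5e0000bc00017ceb42fac6a) b58479 (.tok (nat_lit 14) (nat_lit 0x5e0000bc00017e6ce2fdc9e) (.hit (nat_lit 17) (nat_lit 24) (nat_lit 0x5e0000bc00017e2ee2fd4de) b58477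 (.hit (nat_lit 22) (nat_lit 30) (nat_lit 0x5e0000bc00017e27bafd3f9) b58480 (.one (nat_lit 6) (nat_lit 18) (nat_lit 25) (nat_lit 0x5e0000bc00017e6ce2fdc9e) b58478 (.nil)))) (.one (nat_lit 56) (nat_lit 23) (nat_lit 31) (nat_lit 0x5e0000bc00017e3302fd562) b58481 (.nil))))) (.tok (nat_lit 64) (nat_lit 0x5e0000bc00017e8212fdf44) (.hit (nat_lit 25) (nat_lit 50) (nat_lit 0x5e0000bc00017e8212fdf44) b58482 (.hit (nat_lit 26) (nat_lit 51) (nat_lit 0x5e0000bc00017e5edafdadd) b58483 (.nil))) (.tok (nat_lit 67) (nat_lit 0x5e0000bc000180966b02268) (.hit (nat_lit 27) (nat_lit 52) (nat_lit 0x5e0000bc000180966b02268) b58484 (.tok (nat_lit 3) (nat_lit 0x5e0000bc00017ede42feaca) (.hit (nat_lit 33) (nat_lit 58) (nat_lit 0x5e0000bc00017ebb3afe669) b58487 (.one (nat_lit 55) (nat_lit 34) (nat_lit 59) (nat_lit 0x5e0000bc00017ede42feaca) b58488 (.nil))) (.tok (nat_lit 9) (nat_lit 0x5e0000bc00017e6dbafdcb9)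 (.hit (nat_lit 28) (nat_lit 53) (nat_lit 0x5e0000bc00017e6dbafdcb9) b58485 (.hit (nat_lit 31) (nat_lit 56) (nat_lit 0x5e0000bc00017e592afda27) b58486 (.nil))) (.nil)))) (.one (nat_lit 70) (nat_lit 35) (nat_lit 60) (nat_lit 0x5e0000bc00017eddc2feaba) b58489 (.nil)))))) (.tok (nat_lit 6) (nat_lit 0x5e0000bc00018134ab029e8) (.hit (nat_lit 0) (nat_lit 0) (nat_lit 0x5e0000bc00017f55b2ff43a) b58460 (.tok (nat_lit 6) (nat_lit 0x5e0000bc000180042301335) (.hit (nat_lit 1) (nat_lit 7) (nat_lit 0x5e0000bc00017f01fafe53a) b58461 (.hit (nat_lit 4) (nat_lit 15) (nat_lit 0x5e0000bc00017e42f2fcd8c) b58464 (.tok (nat_lit 14) (nat_lit 0x5e0000bc000180042301335) (.hit (nat_lit 2) (nat_lit 11) (nat_lit 0x5e0000bc000180042301335) b58462 (.hit (nat_lit 5) (nat_lit 17) (nat_lit 0x5e0000bc00017efeb2fe489) b58465 (.one (nat_lit 9) (nat_lit 3) (nat_lit 12) (nat_lit 0x5e0000bc00017faddb00bb0) b58463 (.nil))))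 (.one (nat_lit 68) (nat_lit 6) (nat_lit 18) (nat_lit 0x5e0000bc00017f331afeabf) b58466 (.nil))))) (.tok (nat_lit 52) (nat_lit 0x5e0000bc00017ff023003ba) (.hit (nat_lit 7) (nat_lit 39) (nat_lit 0x5e0000bc00017ff023003ba) b58467 (.hit (nat_lit 8) (nat_lit 40) (nat_lit 0x5e0000bc00017f445afecee) b58468 (.nil))) (.tok (nat_lit 55) (nat_lit 0x5e0000bc00018134ab029e8) (.hit (nat_lit 9) (nat_lit 41) (nat_lit 0x5e0000bc00018134ab029e8) b58469 (.tok (nat_lit 3) (nat_lit 0x5e0000bc0001808233015a4) (.hit (nat_lit 12) (nat_lit 47) (nat_lit 0x5e0000bc00017fb8cb001cc) b58472 (.one (nat_lit 67) (nat_lit 13) (nat_lit 48) (nat_lit 0x5e0000bc0001808233015a4) b58473 (.nil))) (.tok (nat_lit 6) (nat_lit 0x5e0000bc000180157300970) (.hit (nat_lit 10) (nat_lit 42) (nat_lit 0x5e0000bc000180157300970) b58470 (.hit (nat_lit 11) (nat_lit 45) (nat_lit 0x5e0000bc00017fa1aaff8a0) b58471 (.nil))) (.nil)))) (.one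 (nat_lit 58) (nat_lit 14) (nat_lit 49) (nat_lit 0x5e0000bc00017ef962ff4bb) b58474 (.nil)))))) (.nil))
noncomputable def r86_0 : Rw Blk := .tok (nat_lit 3) (nat_lit 0x2fdb685fb556bfac897f59d2fd4855fd2eebf65dd7f5d32fd40e5fd91cbf6b2d7ecb83000005ffc74bf7c297f9702fdbf15fb684bfa8257f81f2fdf2e5fb048bf6c017ea532fd4315fb828bf72297ed572fe5de5fb722bf73657f49e2fe1405fc040bf3c397ef2c2fd65d5fb08abf4fe97ea9fafd4f75fd952bfa9297ed96afec8b5fb71cbf65017ef50afd7dc5fb652bf3e7d7e8482fdc215fa036bfeb957f7edaff225600000c000017ec7bafd1d15fc5f0bf45617f64e2fd2365fc888c0000180000300000600000bf952d7f389aff8fc) (.hit (nat_lit 0) (nat_lit 0) (nat_lit 0x2fb6be5f841abf228d7e9b62fc69d5fa352bf2e3d7e9ec2fc6265fa980bf0bfd7e0d22fe2305fc262bf1cf97eea0afc4255f86ecbf51ad7ed48afc7625f898ebf1ac97e0522fc0cf5f9180bed3417da1d2fbd715f67cabed8e57ea462fc0cb5f7252beeee97e0ebafc3095f8676bef0b57de7dafc1a35fa9babf49f97e1b0afd4bf5f8f84bf17797e54fafc47a5f8f8abef0ed7de962fc8055f796ebf76557ebbdafdb6b5fc09ebf60b17d88bafb9645f7630bee3bd7ea1fafb9c75f9764bf7d9d7ee42afe0515fb1d4bf2fa17e41dafd595)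 b58490 (.tok (nat_lit 6) (nat_lit 0x2fb6475f7b82bf7eb97e95aafc29f5fad30bf1e317ecd4afc23c5fa2d4bf08317e3baafce9b5fc3a8bf31497ebc9afc9f65f928abf44997ec85afc62c5f94acbf44697e59e2fc6be5f9f28bee9557dc9f2fbedc5f726cbeed697ef9f2fc6615f85b0bee2e57de8b2fc8e65f9b52bf07fd7e150afbe3d5fa47abf61417e4ad2fd3aa5fa448bf28157e8642fc9905f9892bee6097ddaaafd2b75f83eabf61a57e6e4afcd3a5fdd54bf9b497db73afbe5a5f81d0bed9597ed64afbdc35facc8bfb1897f5f0afed485fd3febf4a0d7e89e2fe59d) (.hit (nat_lit 1) (nat_lit 7) (nat_lit 0x2fa34b5f558abf37097dfdcafafa35f8738bed2417e356afaf405f7cdcbebc417da3cafbb9f5f9db0bee5597e24bafb6fa5f6c92bef8a97e307afb3305f6eb4bef8797dc202fb3c25f7930be9d657d3212fabe05f4c74bea1797e6212fb3655f5fb8be96f57d50d2fb5ea5f755abebc0d7d7d2afab415f7e82bf15517db2f2fc0ae5f7e50bedc257dee62fb6945f729abe9a197d42cafbfbb5f5df2bf15b57dd66afba3e5fb544bf56317d1f5afab5e5f5bd8be8d697e3e6afaac75f86d0bf6f197eba02fdad35fa870bebf617e065afd06d)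 b58491 (.hit (nat_lit 6) (nat_lit 15) (nat_lit 0x2fa0dc5f50acbf09317dea52fad345f825abec8857e21f2facd15f77febeb2857d9052fb9305f98d2bedb9d7e1142fb48b5f67b4beeeed7e1d02fb0c15f69d6beeebd7dae8afb1535f7452be93a97d1e9afa9715f4796be97bd7e4e9afb0f65f5adabe8d397d3d5afb37b5f707cbeb2517d69b2fa8d25f79a4bf0b957d9f7afbe3f5f7972bed2697ddaeafb4255f6dbcbe905d7d2f52fbd4c5f5914bf0bf97dc2f2fb7cf5fb44ebf50597d0be2fa8ef5f56fabe83ad7e2af2fa8585f81f2bf6e257eb12afda645fa764bf1ad57e2242fc8f1) b58494 (.tok (nat_lit 14) (nat_lit 0x2fb6475f7b82bf7eb97e95aafc29f5fad30bf1e317ecd4afc23c5fa2d4bf08317e3baafce9b5fc3a8bf31497ebc9afc9f65f928abf44997ec85afc62c5f94acbf44697e59e2fc6be5f9f28bee9557dc9f2fbedc5f726cbeed697ef9f2fc6615f85b0bee2e57de8b2fc8e65f9b52bf07fd7e150afbe3d5fa47abf61417e4ad2fd3aa5fa448bf28157e8642fc9905f9892bee6097ddaaafd2b75f83eabf61a57e6e4afcd3a5fdd54bf9b497db73afbe5a5f81d0bed9597ed64afbdc35facc8bfb1897f5f0afed485fd3febf31a17e89e2fe59d)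 (.hit (nat_lit 2) (nat_lit 11) (nat_lit 0x2fa9e75f62c2bf57457e32aafb63f5f9470beecb17e6a4afb5dc5f8a14bed6b17dd8aafc23b5faae8beffc97e599afbd965f79cabf13197e655afb9cc5f7becbf12e97df6e2fba5e5f8668beb7d57d66f2fb27c5f59acbebbe97e96f2fba015f6cf0beb1657d85b2fbc865f8292bed67d7db20afb1dd5f8bbabf2fc17de7d2fc74a5f8b88bef6957e2342fbd305f7fd2beb4897d77aafc6575f6b2abf30257e0b4afc0da5fcb06bf70b57d543afb1fa5f6910bea7d97e734afb1635f9408bf91c17f00a2fe5855fbb70bebd417e4caafdf05) b58492 (.hit (nat_lit 7) (nat_lit 17) (nat_lit 0x2fa8ea5f60c8bf2e017e2ac2fb5425f9276bee8bd7e6262fb4df5f881abed2bd7dd0c2fc13e5fa8eebefbd57e51b2fbc995f77d0bf0f257e5d72fb8cf5f79f2bf0ef57deefafb9615f846ebeb3e17d5f0afb17f5f57b2beb7f57e8f0afb9045f6af6bead717d7dcafbb895f8098bed2897daa22fb0e05f89c0bf2bcd7ddfeafc64d5f898ebef2a17e1b5afbc335f7dd8beb0957d6fc2fc55a5f6930bf2c317e0362fbfdd5fc2b4bf7ba17d4c52fb0fd5f6716bea3e57e6b62fb0665f920ebf72c17eeb8afe15c5fab58bf31a17e4a52fd135)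 b58495 (.one (nat_lit 9) (nat_lit 3) (nat_lit 12) (nat_lit 0x2fb6475f7b82bf7eb97e95aafc29f5fad30bf1e317ecd4afc23c5fa2d4bf08317e3baafce9b5fc3a8bf31497ebc9afc9f65f928abf44997ec85afc62c5f94acbf44697e59e2fc6be5f9f28bee9557dc9f2fbedc5f726cbeed697ef9f2fc6615f85b0bee2e57de8b2fc8e65f9b52bf07fd7e150afbe3d5fa47abf61417e4ad2fd3aa5fa448bf28157e8642fc9905f9892bee6097ddaaafd2b75f83eabf61a57e6e4afcd3a5fdd54bf9b497db73afbe5a5f81d0bed9597ed64afbdc35facc8bfb1897f5f0afed485fd3febf0fe97e89e2fe59d) b58493 (.nil)))) (.one (nat_lit 68) (nat_lit 8) (nat_lit 18) (nat_lit 0x2fb6095f7b06bf5ff97e93bafc2615facb4bf1d397ecb5afc1fe5fa258bf07397e39bafce5d5fc32cbf30517ebaaafc9b85f920ebf43a17ec66afc5ee5f9430bf43717e57f2fc6805f9eacbee85d7dc802fbe9e5f71f0beec717ef802fc6235f8534bee1ed7de6c2fc8a85f9ad6bf07057e131afbdff5fa3febf60497e48e2fd36c5fa3ccbf271d7e8452fc9525f9816bee5117dd8bafd2795f836ebf60ad7e6c5afccfc5fd236bf81d17db54afbe1c5f8154bed8617ed45afbd855fac4cbf92017f2c42fe91d5fc2f0bf4a0d7e885afe1b8)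 b58496 (.nil))))) (.tok (nat_lit 52) (nat_lit 0x2facda5f68a8bf4f9d7e4a42fb9325f9a56bef87d7e81e2fb8cf5f8ffabee27d7df042fc52e5fb0cebf0b957e7132fc0895f7fb0bf1ee57e7cf2fbcbf5f81d2bf1eb57e0e7afbd515f8c4ebec3a17d7e8afb56f5f5f92bec7b57eae8afbcf45f72d6bebd317d9d4afbf795f8878bee2497dc9a2fb4d05f91a0bf3b8d7dff6afca3d5f916ebf02617e3adafc0235f85b8bec0557d8f42fc94a5f7110bf3bf17e22e2fc3cd5fd9d2bf993d7d6bd2fb4ed5f6ef6beb3a57e8ae2fb4565f99eebf9f157f70c2feceb5fd61ebf4ab57ea1b2fdb26) (.hit (nat_lit 19) (nat_lit 39) (nat_lit 0x2fa9b05f6254bf1aa17e30f2fb6085f9402beebd57e6892fb5a55f89a6bed5d57dd6f2fc2045faa7abefeed7e57e2fbd5f5f795cbf123d7e63a2fb9955f7b7ebf120d7df52afba275f85fabeb6f97d653afb2455f593ebebb0d7e953afb9ca5f6c82beb0897d83fafbc4f5f8224bed5a17db052fb1a65f8b4cbf2ee57de61afc7135f8b1abef5b97e218afbcf95f7f64beb3ad7d75f2fc6205f6abcbf2f497e0992fc0a35fc762bf6c8d7d5282fb1c35f68a2bea6fd7e7192fb12c5f939abf7fc17f70c2fe4a35fd61ebf4ab57e5b0afdaee)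 b58497 (.hit (nat_lit 20) (nat_lit 40) (nat_lit 0x2facda5f68a8bf4f9d7e4a42fb9325f9a56bef87d7e81e2fb8cf5f8ffabee27d7df042fc52e5fb0cebf0b957e7132fc0895f7fb0bf1ee57e7cf2fbcbf5f81d2bf1eb57e0e7afbd515f8c4ebec3a17d7e8afb56f5f5f92bec7b57eae8afbcf45f72d6bebd317d9d4afbf795f8878bee2497dc9a2fb4d05f91a0bf3b8d7dff6afca3d5f916ebf02617e3adafc0235f85b8bec0557d8f42fc94a5f7110bf3bf17e22e2fc3cd5fd9d2bf993d7d6bd2fb4ed5f6ef6beb3a57e8ae2fb4565f99eebf9f157f35bafeceb5fbfe0bf48f17ea1b2fdb26) b58498 (.nil))) (.tok (nat_lit 55) (nat_lit 0x2fdb685fb556bfac897f59d2fd4855fd2eebf65dd7f5d32fd40e5fd91cbf6b2d7ecb83000005ffc74bf7c297f9702fdbf15fb684bfa8257f81f2fdf2e5fb048bf6c017ea532fd4315fb828bf72297ed572fe5de5fb722bf73657f49e2fe1405fc040bf3c397ef2c2fd65d5fb08abf4fe97ea9fafd4f75fd952bfa9297ed96afec8b5fb71cbf65017ef50afd7dc5fb652bf3e7d7e8482fdc215fa036bfeb957f7edaff225600000c000017ec7bafd1d15fc5f0bf45617f64e2fd2365fc888c0000180000300000600000bf952d7f389aff8fc)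 (.hit (nat_lit 21) (nat_lit 41) (nat_lit 0x2fdb685fb556bfa5297f59d2fd4855fd2eebf65dd7f5d32fd40e5fd91cbf6b2d7ecb83000005ffc74bf7c297f9272fdbf15fb684bfa5ed7f80d2fdf2e5fb048bf6b017ea532fd4315fb828bf72297ed572fe5de5fb722bf73657f49e2fe1405fc040bf3c397ef2c2fd65d5fb08abf4fe97ea9fafd4f75fd952bfa9297ed96afec8b5fb71cbf65017ef392fd7dc5fb652bf3e7d7e8482fdc215fa036bfeb957f7edaff225600000bfdc117ec7bafd1d15fc5f0bf45617f64e2fd2365fc888bfeb697fdd63000005ff670bf952d7f389aff8fc) b58499 (.tok (nat_lit 3) (nat_lit 0x2fbd795f89e6bfac897ecf3afc9d15fbb94bf3af97f06dafc96e5fb138bf24f97e753afd5cd5fd20cbf4e117ef62afd1285fa0eebf61617f01eafcd5e5fa310bf61317e9372fcdf05fad8cbf061d7e0382fc60e5f80d0bf0a317f3382fcd935f9414beffad7e2242fd0185fa9b6bf24c57e4e9afc56f5fb2debf7e097e8462fdadc5fb2acbf44dd7ebfd2fd0c25fa6f6bf02d17e143afd9e95f924ebf7e6d7ea7dafd46c5fff84c000017df0cafc58c5f9034bef6217f0fdafc4f55fbb2cbff1b97fbcbaffd9d5fe8c6bf3a757f26d2fefb0)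 (.hit (nat_lit 27) (nat_lit 47) (nat_lit 0x2fb5d25f7a98bf7ab97e9202fc22a5fac46bf1c5d7ec9a2fc1c75fa1eabf065d7e3802fce265fc2bebf2f757eb8f2fc9815f91a0bf42c57ec4b2fc5b75f93c2bf42957e563afc6495f9e3ebee7817dc64afbe675f7182beeb957ef64afc5ec5f84c6bee1117de50afc8715f9a68bf06297e1162fbdc85fa390bf5f6d7e472afd3355fa35ebf26417e829afc91b5f97a8bee4357dd702fd2425f8300bf5fd17e6aa2fccc55ff240bfc29d7db392fbde55f80e6bed7857ed2a2fbd4e5fabdebfd6557f9acaff25f5fd91abf1c717ee772fe68f) b58502 (.one (nat_lit 67) (nat_lit 28) (nat_lit 48) (nat_lit 0x2fbd795f89e6bfac897ecf3afc9d15fbb94bf3af97f06dafc96e5fb138bf24f97e753afd5cd5fd20cbf4e117ef62afd1285fa0eebf61617f01eafcd5e5fa310bf61317e9372fcdf05fad8cbf061d7e0382fc60e5f80d0bf0a317f3382fcd935f9414beffad7e2242fd0185fa9b6bf24c57e4e9afc56f5fb2debf7e097e8462fdadc5fb2acbf44dd7ebfd2fd0c25fa6f6bf02d17e143afd9e95f924ebf7e6d7ea7dafd46c5fff84c000017df0cafc58c5f9034bef6217f0fdafc4f55fbb2cbff1b97fbcbaffd9d5fe8c6bf3a757f26d2fefb0)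 b58503 (.nil))) (.tok (nat_lit 6) (nat_lit 0x2fc08f5f9b9ebf6e1d7f3b42fc7515fcb4abf30f97f3ea2fc6ee5fd178bf5b697eabfaff8895ff0e4bf6c657f9702fd8005faea2bfa8257f81f2fdb3d5fae8abf6c017e998afd31e5fb63cbf23557e386afccad5f8e84bf2ed17f297afddf75f9e04bf38617ed2dafd5675fac5ebf40397e8b8afd4015fd16cbf995d7eb9d2fe8985fb518bf60b57ef50afd6c95fb45abf3a8d7e7ca2fdaff5f9e3ebfcbed7f19caff16d5ff25cbfc4257e28e2fcd695f9e3abf33c57f43cafcdcc5fb62cc00001800002ff930600000bf26157f08c2ff5be) (.hit (nat_lit 22) (nat_lit 42) (nat_lit 0x2fc08f5f9b9ebf6e1d7f3b42fc7515fcb4abf30f97f3ea2fc6ee5fd178bf5b697eabfaff8895ff0e4bf6c657f9702fd8005faea2bfa8257f81f2fdb3d5fae8abf6c017e998afd31e5fb63cbf23557e386afccad5f8e84bf2ed17f297afddf75f9e04bf38617ed2dafd5675fac5ebf40397e8b8afd4015fd16cbf995d7eb9d2fe8985fb518bf60b57ef50afd6c95fb45abf3a8d7e7ca2fdaff5f9e3ebfcbed7f19caff16d5ff25cbfc4257e28e2fcd695f9e3abf33c57f43cafcdcc5fb62cc00001800002ff930600000bf26157f08c2ff5be)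 b58500 (.hit (nat_lit 25) (nat_lit 45) (nat_lit 0x2fb62b5f7b4abf69ed7e94cafc2835facf8bf1dc17ecc6afc2205fa29cbf07c17e3acafce7f5fc370bf30d97ebbbafc9da5f9252bf44297ec77afc6105f9474bf43f97e5902fc6a25f9ef0bee8e57dc912fbec05f7234beecf97ef912fc6455f8578bee2757de7d2fc8ca5f9b1abf078d7e142afbe215fa442bf60d17e49f2fd38e5fa410bf27a57e8562fc9745f985abee5997dd9cafd29b5f83b2bf61357e6d6afcd1e5ff090bfc0057db65afbe3e5f8198bed8e97ed56afbda75fac90bfcc917f90b2ff84a5fd6a6bef3b57efaeafe8bb) b58501 (.nil))) (.nil)))) (.one (nat_lit 58) (nat_lit 29) (nat_lit 49) (nat_lit 0x2fb50a5f7908bf6a8d7e8bc2fc1625faab6bf193d7ec362fc0ff5fa05abf033d7e31c2fcd5e5fc12ebf2c557eb2b2fc8b95f9010bf3fa57ebe72fc4ef5f9232bf3f757e4ffafc5815f9caebee4617dc00afbd9f5f6ff2bee8757ef00afc5245f8336beddf17ddecafc7a95f98d8bf03097e0b22fbd005fa200bf5c4d7e40eafd26d5fa1cebf23217e7c5afc8535f9618bee1157dd0c2fd17a5f8170bf5cb17e6462fcbfd5ff53cbfc30d7dad52fbd1d5f7f56bed4657ecc62fbc865faa4ebfd6457f91f2ffaa05fd66abf85c57f0d9afe35a)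 b58504 (.nil)))))) (.tok (nat_lit 9) (nat_lit 0x300000600000c0000180000300000600000c0000180000300000600000c00001800002ff98d600000c0000180000300000600000c0000180000300000600000c0000180000300a07600e86c00001800003008a9600000c000018000030040d60012ec0185580000300000600000c0000180000300000600000c0000180000300000600000c00001800e7300000600a6ec0000180000300294600000c00001800003000005ffcc4bff7b980000300000600000c03735803eb300000600000bff9397fc952fff065fed60c000018000eb00000) (.hit (nat_lit 157) (nat_lit 0) (nat_lit 0x2fcb035fb93ebf52057f142afcd425fc422bf48e97f229afcea25fc756bf4af57e90eafdb175fceeabf5ed97f37c2fd4a05fa7e2bf7bbd7f262afd7045faa90bf5b097e894afd1545fb280bf12597e60f2fcffd5f878cbf465d7ef1a2fd4405fa6b4bf27c17e27cafd3905fa6d4bf09217e7bb2fd0d55fc550bf8be97e9ebafe3c85fb01cbf57cd7ed892fd4fd5fb02cbf2fc57e6ad2fd1de5f9a5abf8a497f093afe2735fad3ebf80a97e1482fce2d5f96debf2c197ecdfafcee15faab4bf7bdd7eeafafd62d5fb43cbf53597e4df2fd778)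 b58505 (.tok (nat_lit 9) (nat_lit 0x2fe5695ff006bfda397f0c5aff3465fc0eebfb9b57f1c42ff8785fc5bebf91197f1892fd87a5fd766bfa1857f0b92fe66f5fcc18bf6c157f1752fe8215fd056bfb62d7f1d92fe3df5fd70ebf77217f2702fe7bb5fb7aebfa8c57f48eafef105fd4dabf86b17f407afe5bc5fc982bf894d7f1c7afe27c5fd57ebfa1817eca1afea885fc850bf9f017f3802fe4805fdbb6bf8ae97f2922fe96c5fc5cabf89217ebd42fd7195fbce4bfc3ed7ed37afe2f35fc764bf75917f9fdafe5105fcae8bfa7817f615afdf045fd1d4bfea897f813aff8f7) (.hit (nat_lit 163) (nat_lit 20) (nat_lit 0x2fc13b5fa14cbf32457e575afcd265f9d9cbf4c257e8efafce715f9340bf01f97e035afc6d15fb414bf18417e7e4afc6f55f8da6bf25717e8a0afc4d95f8664bf25417e1b92fc1175f945ebf06897e3e42fcbcc5f7eeebf37817ebba2fcea45f952abef5e57e31dafc1775f8bbebf19117e3b3afbe795f94e6bf42197e0c82fcbe05f94b4bf09897e47f2fc1c65f9804befaa57e0e0afcaed5f8194bf427d7e2ffafc5705f9254bf58a97df3aafc7205f8f92bedca97ec1f2fc9125f9d34bf60dd7eb71afc9ea5fa744bf4cf97e2cd2fcc7f)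 b58506 (.hit (nat_lit 171) (nat_lit 28) (nat_lit 0x2fb39f5f6c4cbf266d7d7a3afbe335f6634bf0ca97db15afbdc15f6136bea8717d460afab1d5f7cacbeb96d7da0aafab425f5540beb6a17dac6afae7f5f54b0beb6717d3df2fa6645f5caebec5517d7d32fb5ac5f60b8bec7717dde02fb6345f69debe85417d682afa89f5f5456bea0e97d46eafa73c5f714abed9197d394afb8875f5d4cbeaa897d7a5afa9495f58fabe83cd7d0f22faf395f42debed3ad7d525afa9bc5f84e2bf4ab17d6fc2fb6455f6ff2bed7297e0262fb6a85f728abf318d7e8152fc3035f99d2bf33997ddb4afc3ea) b58511 (.tok (nat_lit 14) (nat_lit 0x2fe5695ff006bfda397f0c5afef015fbf90bfb9b57f0fbaff8785fc5bebf91197f1892fd43d5fceecbfa1857ee9aafe66f5fcc18bf5b217ef56afe8215fd056bfb62d7f1d92fe3df5fd70ebf77217f2702fe7bb5fb7aebfa8c57f4702fef105fd4dabf86b17f407afe5bc5fc982bf894d7f1c7afe27c5fd57ebfa1817eca1afea885fc850bf9f017f3802fe4805fdbb6bf8ae97f2922fe96c5fc5cabf782d7e9b5afd2dc5fab86bfc3ed7ed37afe2f35fc764bf75917f9fdafe5105fcae8bf968d7f1be2fd7565fc076bfea897f813aff8f7)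 (.hit (nat_lit 167) (nat_lit 24) (nat_lit 0x2fe2155fe76ebfd4f17ee502fef015fb5babfac8d7ee86aff8785fbbe8bf887d7f0052fcb905fbd92bf91c97ea442fe1e75fc316bf386d7eb002fe46b5fccc6bfb62d7f05e2fe3df5fd70ebf5cd57eda3afe0cc5fa9a0bf882d7ef862fe5695fc044bf763d7efd72fe0af5fc348bf6f657edfaafdfed5fcb26bf8dd57ea22afe5975fc0babf85d57f0bcafe0fc5fd15cbf77e57f004afe45e5fbe3abf55797e55f2fca2f5fa89cbfa83d7e9fb2fdc695fba38bf57057f579afddf35fbe40bf79017f103afd4e05fbd8cbfd29d7f058afedcb) b58507 (.hit (nat_lit 173) (nat_lit 30) (nat_lit 0x2fd01b5fa398bfa69d7e5e22fdf205f9402bf8fbd7e6182fdf185f9a30bf1ac57e2aaafbcc15f9ff4bf2b857e2dcafc7d95f8e78befd317e398afcb055f8de8bf25b57e163afc2e05f95aabf36d97e5fb2fd20e5f993abf39517e991afd2a15fa26ebef7397e4c7afc51d5f8a56bf13697e2beafc3b85faa7ebf4bb57e1e2afd5215f9206bf20c57e5e3afc5d15f91f4bef5bd7df31afc2ce5f7bd6bf1a3d7ddf7afbb605fa666bf84c57e53a2fd1455fa882bf41b17ee252fd1a75faafcbf74957f0762fd3c55fbb56bf8d997ea0b2fd7bc)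 b58512 (.one (nat_lit 6) (nat_lit 168) (nat_lit 25) (nat_lit 0x2fe5695ff006bfda397f0c5afedff5fbf90bfb9b57f0fbafeff15fc5bebf91197f1892fd43d5fceecbfa1857ee9aafe66f5fcc18bf5b217ef56afe8215fd056bfa1cd7f1d92fe28e5fd462bf77217f2702fe7bb5fb7aebfa8c57f4702fef105fd4dabf86b17f407afe5bc5fc982bf894d7f1c7afe27c5fd57ebfa1817eca1afea885fc850bf9f017f3802fe4805fdbb6bf8ae97f2922fe96c5fc5cabf782d7e9b5afd2dc5fab86bfc3ed7ed37afe2f35fc764bf75917f9fdafe5105fcae8bf968d7f1be2fd7565fc076bfea897f813aff8f7) b58508 (.nil)))) (.one (nat_lit 56) (nat_lit 174) (nat_lit 31) (nat_lit 0x2fc8365f9720bf6c8d7e2622fd43a5f90aebf64b17e5b42fd3c35f8c30befec57df2aafc05a5fa726bf0f857e4a92fc0d95f8076bf0b957e5652fc4055f7fccbf0b657de7dafbbe05f87aabf1af17e2862fcb705f8beabf1e257e87eafcbb25f94b2bedb397e152afbe1d5f7ed0bef7697df3eafbcba5f9c7ebf2fb57de62afce215f87c6bf05dd7e263afbec95f83f4bed9bd7dbb1afc4765f6dd6bf28a17dfc42fbef95fa0b8bf83d57e1ba2fca785f9aeabf27fd7eb32afcadb5f9d94bf69397ef0aafd0ee5fb5a8bf7f957e5412fdb0a)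 b58513 (.tok (nat_lit 68) (nat_lit 0x2fdacb5fddd0bf9b1d7ee4a2ff3465fc0eebfb8857f1c42fe9955fb692bf6af57ecafafd87a5fd766bf7be17f0b92fdd995fb730bf6c157f1752fdf205fb8febf7c317eb52afd7c15fc3a2bf46857ea012fdb585fa214bf698d7f48eafda585fb07abf55c57ed732fda835fb55cbf57417eb3b2fd90a5fbde6bf88bd7e99cafdee15fb806bf6da97ed90afd9ee5fca24bf65157ed702fdf055fb382bf89217ebd42fd7195fbce4bf9d917e73aafd6b45fb034bf56597f2542fd93f5fc086bfa7817f615afdf045fd1d4bfa3097edbeafe8fd) (.hit (nat_lit 169) (nat_lit 26) (nat_lit 0x2fdacb5fcef2bf98657ecd32fe9295fbb12bfad957f04d2fe5fc5fb0b6bf6af57ecafafd58c5fd18abf7be17ef422fdd995fb730bf605d7effe2fdf205fb8febf7c317eb52afd7c15fc3a2bf46857ea012fdb585fa214bf698d7f317afda585fb07abf55c57ed732fda835fb55cbf57417eb3b2fd90a5fbde6bf7d057e825afdee15fb600bf6da97ed90afd9ee5fca24bf65157ed702fdf055fb382bf7d697ea5d2fd42b5fbc92bf88597e73aafd6b45fb034bf56597f10d2fd93f5fbaaabfa0ed7f6012fdedb5fd182bf99317ecd0afe627)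 b58509 (.hit (nat_lit 175) (nat_lit 32) (nat_lit 0x2fc8865f9622bf4cfd7e217afd6a55f8e84bf6e5d7e529afd62e5f8b06befc9d7dee5afbf455fa4fcbf0d317e41eafc06d5f8000bf07417e4daafc3765f7f82bf09d57ddf32fbb4e5f868ebf18897e233afcab15f8a7cbf1b757e7f42fcb305f9352bed8e97e1082fbd885f7ca6bef5157def42fbc265f9b54bf40617de24afcd8c5f859cbf03257e2192fbe445f82dcbed7697db6fafc3615f6cacbf244d7df39afbde45fa6eebf6f8d7e16fafc9e35f99c0bf25a97ea992fca465f9c58bf75a57f0982fd4095fbbdebf6f057e5742fd096) b58514 (.one (nat_lit 9) (nat_lit 170) (nat_lit 27) (nat_lit 0x2fd0de5fddd0bf9b1d7ee4a2ff3465fc0eebfb8857f1c42fe9955fb692bf31297e8aa2fd87a5fd766bf58c57f0b92fd3d55fa648bf6c157f1752fd00b5fa86abf6be57ea8dafd09d5fb2e6bf3a757e8012fd6a55f9b06bf53d17f48eafd5d95fa96cbf0a617e605afd2c55faf10bf2f797e6402fc81c5fb838bf88bd7e99cafdd895fb806bf4f917ed53afd36f5fac50bf0d857e29a2fdc965f97a8bf89217ebd42fd7195fbce4bf9d917e5aeafd32d5faa70bf4ad17f2542fd3905fc086bfa7817f615afdf045fd1d4bfa3097edbeafe8fd)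 b58510 (.nil)))) (.nil)))))) (.tok (nat_lit 64) (nat_lit 0x2fcd9d5fbedebf6bf17e694afd9a25fa218bf78517ea0eafdc745f9b74bf42857e7a32fc90f5fb890bf53817e903afd1c75fa230bf2e697e9bfafd5045f8ef0bf2e397e2d82fc3825f96ecbf38e97e6752fd5615f9b58bf40017ecd92fd3695fa2cebef9c17e754afc5bf5f903abf27797e540afc45b5fabc2bf4e097e24cafd5c35f9930bf23c17e6602fc6735f93febef8457df812fcd2b5f7d1abf4b757e41eafc7ae5fbaa6bf891d7ec6fafd2275faf02bf37357ebed2fd58c5fab2cbf9d157f5862fdde55fcf96bf95b57eb7dafde02) (.hit (nat_lit 182) (nat_lit 50) (nat_lit 0x2fcb6a5fbedebf67797e694afd2605fa218bf56457ea0eafd1c85f9b74bf1d117e2f4afc90f5fb890bf2e117e903afc86a5f8f76bf2e697e9bfafcba85f8ef0bf2e397e2d82fc3825f96ecbf38e97e6752fd5615f9b58bf40017ecd92fd3695fa2cebef9c17e754afc5bf5f903abf27797e540afc45b5fabc2bf4e097e24cafd5c35f9930bf23c17e6602fc6735f93febef8457df812fcd2b5f7d1abf4b757e41eafc7ae5fad08bf40357ec6fafd2275faf02bf37357ebed2fd58c5fab2cbf81d97f21eafd7165fc1f8bf95b57eb7dafde02)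 b58515 (.hit (nat_lit 183) (nat_lit 51) (nat_lit 0x2fcd9d5fb1b6bf6bf17e5cfafd9a25f9f04bf78517e949afdc745f954abf42857e7a32fc7855fb57cbf53817e83eafd1c75fa230bf28417e8faafd5045f8a9abf28117e2132fc07c5f9150bf2d357e4d62fcf8b5f948ebf21c97ec142fd1af5f9b6cbeeda97e3a82fc2a05f8d26bf0a157e1942fc13e5fa962bf49997e19b2fd4935f961cbf1e8d7e4d92fc4525f8d08beebc97ddf92fcba15f76dcbf454d7e359afc6245fbaa6bf891d7e3fb2fc9735fa3eebf23e97e9e3afc9d65f9f0abf9d157f5862fdde55fcf96bf91957eb2d2fda88) b58516 (.nil))) (.tok (nat_lit 67) (nat_lit 0x300000600000c0000180000300000600000c0000180000300000600000c00001800002ff98d600000c0000180000300000600000c0000180000300000600000c0000180000300a07600e86c00001800003008a9600000c000018000030040d60012ec0185580000300000600000c0000180000300000600000c0000180000300000600000c00001800e7300000600a6ec0000180000300294600000c00001800003000005ffcc4bff7b980000300000600000c03735803eb300000600000bff9397fc952fff065fed60c000018000eb00000)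 (.hit (nat_lit 184) (nat_lit 52) (nat_lit 0x2ff0045ff7aebfc3997ff7faff3045ff45ebfc851800002fed46600000bfc9897f8022ff98d600000bfd24d800002ff1c75fe35ac00001800002ff4b55ff52ebff6317f9d02ff70f5ff8d4bfc1217f9e4aff3d05fde7cbfd2517fb6daffb905ff6a8bfced17f98e2ffbae5ff42abfc2197f790aff86d5ffc82bffaa57f61d3000005ff00abfde617fb712ff8615ff672bfc2117fa1caff5535fe5dac00001800003000005ffcc4bfd6717f7e22ff1c35fe8e0bfa6d17fea52ff4985fe2c8bff9397fc952fff065fed60bfc4dd7f60eaff687) b58517 (.tok (nat_lit 3) (nat_lit 0x3000005ff3b8bfe80d7f5ae2ff2625fd332bfd7317f5eaaff1f05fd960c00001800002fda505fdb12c000017f1a4300000600000bf736d7f260300000600000c0000180000300a07600e86bfc459800002ff81b5fe5eec000018000030040d60012ec0185580000300000600000bfdd7d7fc273000005fff58bff6857f70d2fff7e600000c00001800e7300000600a6ec0000180000300294600000bf90797ecbf2fd8ef5fd20ebff7b97f58a2ff60d5fe9b4bf85f1802a53000005ff7debfcbe57fb602fe9995fe6fec000017f91f2ffa27)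 (.hit (nat_lit 190) (nat_lit 58) (nat_lit 0x2fe6445fd6c4bfb8d17ee99afe7345fbc6abfaa897f0a32fe5395fbd0ebfc45d7f7b82fd6385fd2e2bfc6217ef982fef175fde82bf630d7f0542ff1b35fe2f8bfce917f7a52ff9cd5fe88cbfae917fe2c2ff4de5fdd52c000017fe71b0028f5ff084bfd84d800002ff1175fe318bfc7a17fc272fef5d5fddc0bfb1e97eeaeafeebb5fe750bfd0997f7a7aff2da5fed6ebfc3e57facb2ff3d15fe978bf80197eab32fd4d75fc2e4bfc0597f2daaff1b55fdec8bf4fd9802a53000005fef5ebfad917f795afe2045fd7d4bfc9cd7f6b62ff2ca) b58523 (.one (nat_lit 55) (nat_lit 191) (nat_lit 59) (nat_lit 0x3000005ff3b8bfe80d7f5ae2ff2625fd332bfd7317f5eaaff1f05fd960c00001800002fda505fdb12c000017f1a4300000600000bf736d7f260300000600000c0000180000300a07600e86bfc459800002ff81b5fe5eebff5498000030040d60012ec018557fe93300000600000bfdd7d7fbf1b000005fff58bff6857f70d2fff7e600000c00001800e7300000600a6ec0000180000300294600000bf90797ecbf2fd8ef5fd20ebff7b97f58a2ff60d5fe9b4bf85f1801972ffeb15ff7debfcbe57fb602fe9995fe6fec000017f91f2ffa27)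 b58524 (.nil))) (.tok (nat_lit 9) (nat_lit 0x2ff98e600000c0000180000300000600000c000017fe96b000005ffe5ebfc33d7f7a92fe1b65fe9debfd4497f5572ff1f95fe294bf91057f6132ff52b5fdf02bfc4517f5b12feb8d5fe70ac000017ff73b008a9600000bfe9ed7fae5affe215ffaf6bf9a957fefb2feddf5fde06c00001800002fec87600000c00001800002ffe695febf4bffa097fbd02ff3cb5fed42bfa0897f6c92ff3575fdde2bfae117f0722fe0555fd48ebfe80980000300000600000c03735803eb2fffe8600000bfd0e57fc002fead95fe97ebfe88d8000eb00000) (.hit (nat_lit 185) (nat_lit 53) (nat_lit 0x2fe3ec5fc3b8bf94ed7f2672fe9525fce84bfb4b57f28f2fea205fd11abf662d7ec182fd4ed5fd04cbf77297eef2afdab15fb404bf5de17efaeafddee5fb37abf6d917eacf2fd5c95fbb7abf8da17ef522ff1bb5fc60cbf8cf57f2c82fe4ea5fc64abf42dd7f18e2fd8065fb006bf5f0d7ef522fd6a25fd650bfa3257f2c62feb0a5fbdf4bf8ea17f05e2fdc6a5fc8e2bf5ccd7ec10afdc945faf72bf7aed7ea0dafd38c5fc0fcbf82757f269afe4355fce04bfb8957f614afe4925fcf8ebfa9c17f71bafe1105fd5ecbfa5b17f38fafeab5)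 b58518 (.hit (nat_lit 188) (nat_lit 56) (nat_lit 0x2fd74c5fd20ebfdaa97ecffafeea55fbbc4bfbcd57f079afecaf5fb168bf69417ec7aafd5e55fd23cbf7a497ef6eafdb765fb58ebf61c17f02aafdeb35fa340bf61917e9432fce085fadbcbf54197e9dbafd9255fa80cbf577d7f3442fdb265fb004bf15b17e87fafd0305fa9e6bf30d17e66cafcaf05fbcc0bf7e697e8522fde425fb2dcbf453d7ec092fd0da5fa726bf12857e30a2fda015f927ebf7ecd7ea89afd4845fc220bfc9e17e8e12fd3225fb740bf4aa57f1c92fd3855fbb5cbfac097f764afe1a25fd710bfac957f2cc2fefee) b58521 (.tok (nat_lit 67) (nat_lit 0x2ff98e600000c0000180000300000600000c000017fe96b000005ffe5ebfc33d7f7a92fe1b65fe9debfd4497f5572ff1f95fe294bf91057f6132ff52b5fdf02bfc4517f5b12feb8d5fe70ac000017ff73b008a9600000bfe9ed7fae5affe215ffaf6bf9a957fefb2feddf5fde06c00001800002fec87600000c00001800002ffe695febf4bffa097fbd02ff3cb5fed42bfa0897f6c92ff3575fdde2bfae117f0722fe0555fd48ebfe80980000300000600000c03735803eb2fffe8600000bfd0e57fc002fead95fe97ebfe88d8000eb00000)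 (.hit (nat_lit 186) (nat_lit 54) (nat_lit 0x2ff98e5ff328bff2b1800002ff24b5ffecabfdd8d7fe96aff2ff5ffc52bfc33d7f7a92fe1b65fe9debfd4497f5572ff1f95fe294bf91057f6132ff52b5fcf2cbfa4417f186afe3845fd70cbffdd17ff73b0081c5ffd4abfe9ed7f9b3affe215ffaf6bf7a3d7fefb2fe5de5fd110c00001800002fe4785ff89ebfe7c17fd84affc315fe47abfe2357fa622fefb55fe65abf93017f2d42fea0f5fcaf4bfae117f0722fe0555fd48ebf9cdd7fc14b000005ffa60c03735801c32fffe85ff722bfd0e57fc002fead95fe97ebfe6358000eaffdc5) b58519 (.hit (nat_lit 189) (nat_lit 57) (nat_lit 0x2fe698600000c000017f180b000005fcdc8bffe897f4faaffb605fc73cbfa6717f420afdee75fe440bfb79d7f3efafeac25fd430bf85c97f4abafedff5fbc60bf85997edc42fda5d5fc478bf91517f17aafe8815fc6aabf94a97f7c52feae35fce8ebf52f97f025afdba25fbbeabf6e017ee11afda3c5fdb58bfafbd7ee40afedd05fc4e0bf779d7f1222fde475fc012bf4fb57eac02fe3035fade6bfa2d57ef0aafdd865fc89cbfe8097f087afe26e5fd588bf87d57f957afe2d15fd7cebfc1357f903afe4e05fdd8cbfd8317f7d1afff3e)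 b58522 (.one (nat_lit 9) (nat_lit 187) (nat_lit 55) (nat_lit 0x2ff70f5fe63abfe9c17fe512ff94d600000c000017fe4a3000005ffe5ebfbdad7f77bafca785fbb62bfd28d7e9b82ff18a5fe1b6bf340d7ea742ff3ce5fdf02bfc4517f5b12feb8d5fe70ac000017fa4bb008a9600000bfe3cd7fae5aff8635ff3febf9a957fabaafeddf5fde06bfc2857fd332fec87600000c00001800002ffe695febf4bffa097fbd02ff3cb5fed42bfa0897f6c92ff3575fdde2bf51197e4d32fc9175fbe9ebf8a49800002ffb62600000c008d1803eb2ffac4600000bfa5057f6842fdfe15fd38ebfe88d7fb9c300000) b58520 (.nil)))) (.nil)))) (.nil)))) (.one (nat_lit 70) (nat_lit 192) (nat_lit 60) (nat_lit 0x2fd63e5fbafabfafe17e920afe16d5fa39cbf980d7ea6fafe0a95fa72ebf664d7ec1c2fc9d15fba14bf77497e964afdab95fb414bf31717ea20afddf65f9c32bf3fd97e4e12fc96e5fa322bf51817e94cafd8e85fa802bf537d7ed3a2fdc9a5fadfabf11217e8212fcb975f973cbf2ddd7e60d2fca325fbb46bf6d157e6152fdd855f9ee4bf44cd7e91eafcd235f9eecbf0f917e271afcded5f88c0bf4e7d7e47fafc8705fbcbabfbb5d7e87aafd2655fb5d2bf47b17f4182fd2c85fb94ebfa13d7f60b2fdeef5fd1aabfe4e57f327afe8a8)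 b58525 (.nil)))))) (.nil))
noncomputable def r86_1 : Rw Blk := .tok (nat_lit 6) (nat_lit 0x1780002f00005fe27ebfd38d7fe52b00113) (.hit (nat_lit 51) (nat_lit 0) (nat_lit 0x1780002f00005fb804bf7f0d7f0af2fe452) b58526 (.tok (nat_lit 14) (nat_lit 0x1780002f00005fcf92bfcc197fad2aff613) (.hit (nat_lit 62) (nat_lit 61) (nat_lit 0x1780002f00005fcf92bf980d7f44faff18f) b58527 (.one (nat_lit 3) (nat_lit 63) (nat_lit 62) (nat_lit 0x1780002f00005fcc68bf6dc57ee972fe0f7) b58528 (.tok (nat_lit 6) (nat_lit 0x1780002f00005fbad0bf85817f1d52fe6eb) (.hit (nat_lit 66) (nat_lit 65) (nat_lit 0x1780002f00005fa65cbf84f17f1caafda76) b58531 (.hit (nat_lit 67) (nat_lit 66) (nat_lit 0x1780002f00005fbad0bf85817f1d52fe6eb) b58532 (.nil))) (.tok (nat_lit 9) (nat_lit 0x1780002f00005fc894bfcc197fad2aff613) (.hit (nat_lit 64) (nat_lit 63) (nat_lit 0x1780002f00005fc894bfcc197fad2aff613) b58529 (.hit (nat_lit 65) (nat_lit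 64) (nat_lit 0x1780002f00005fbd9ebf84c97f1c5afe417) b58530 (.nil))) (.nil))))) (.one (nat_lit 17) (nat_lit 68) (nat_lit 67) (nat_lit 0x1780002f00005fb85cbf44597e9acafded0) b58533 (.tok (nat_lit 20) (nat_lit 0x1780002f00005fe27ebfd38d7fe52b00113) (.hit (nat_lit 69) (nat_lit 68) (nat_lit 0x1780002f00005fe27ebfd38d7fe52b00113) b58534 (.hit (nat_lit 70) (nat_lit 69) (nat_lit 0x1780002f00005fbb3abf4a157ea67afe061) b58535 (.nil))) (.tok (nat_lit 23) (nat_lit 0x1780002f00005fb5d4bf3f497e90eafdda8) (.hit (nat_lit 71) (nat_lit 70) (nat_lit 0x1780002f00005f7e6abf350d7e7ce2fc67d) b58536 (.hit (nat_lit 72) (nat_lit 71) (nat_lit 0x1780002f00005fb5d4bf3f497e90eafdda8) b58537 (.nil))) (.one (nat_lit 26) (nat_lit 73) (nat_lit 72) (nat_lit 0x1780002f00005f97d8bf0a2d7e26b2fd067) b58538 (.one (nat_lit 29) (nat_lit 74) (nat_lit 73) (nat_lit 0x1780002f00005f9620bf0ee17e301afd194) b58539 (.one (nat_lit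 32) (nat_lit 75) (nat_lit 74) (nat_lit 0x1780002f00005f932abeff097e10dafccb9) b58540 (.one (nat_lit 35) (nat_lit 76) (nat_lit 75) (nat_lit 0x1780002f00005fa848bf2be57e6a22fd8d5) b58541 (.one (nat_lit 38) (nat_lit 77) (nat_lit 76) (nat_lit 0x1780002f00005fb4eabf3d757e8d42fdd39) b58542 (.tok (nat_lit 41) (nat_lit 0x1780002f00005fba3ebf234d7e5da2fdc7b) (.hit (nat_lit 78) (nat_lit 77) (nat_lit 0x1780002f00005fa95abf0ac97e28eafd419) b58543 (.hit (nat_lit 79) (nat_lit 78) (nat_lit 0x1780002f00005fba3ebf234d7e5da2fdc7b) b58544 (.nil))) (.tok (nat_lit 44) (nat_lit 0x1780002f00005fbedabf4ab97eb67afdf15) (.hit (nat_lit 80) (nat_lit 79) (nat_lit 0x1780002f00005fbedabf4ab97eb67afdf15) b58545 (.hit (nat_lit 81) (nat_lit 80) (nat_lit 0x1780002f00005fa65cbf20597e5302fd5f2) b58546 (.nil))) (.tok (nat_lit 47) (nat_lit 0x1780002f00005fbf90bf52dd7eb812fe293) (.hit (nat_lit 82) (nat_lit 81) (nat_lit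 0x1780002f00005f54cabee1cd7dd662fb1ad) b58547 (.hit (nat_lit 83) (nat_lit 82) (nat_lit 0x1780002f00005fbf90bf52dd7eb812fe293) b58548 (.nil))) (.one (nat_lit 62) (nat_lit 93) (nat_lit 92) (nat_lit 0x1780002f00005fa5f2bf1f857e518afd5bd) b58549 (.tok (nat_lit 65) (nat_lit 0x1780002f00005fb4cebf4c5d7eab82fde1e) (.hit (nat_lit 94) (nat_lit 93) (nat_lit 0x1780002f00005f9c44bf4c5d7eab82fdbb7) b58550 (.hit (nat_lit 95) (nat_lit 94) (nat_lit 0x1780002f00005fb4cebf41097e9492fde1e) b58551 (.nil))) (.tok (nat_lit 68) (nat_lit 0x1780002f00005fb7b6bf92157f366afe61a) (.hit (nat_lit 96) (nat_lit 95) (nat_lit 0x1780002f00005fb7b6bf92157f366afe61a) b58552 (.one (nat_lit 3) (nat_lit 100) (nat_lit 99) (nat_lit 0x1780002f00005f8526bf42857e97d2fc9db) b58556 (.one (nat_lit 6) (nat_lit 97) (nat_lit 96) (nat_lit 0x1780002f00005f94fcbf62317ed72afd1c6) b58553 (.tok (nat_lit 9) (nat_lit 0x1780002f00005f9a6cbf6d117eeceafd47e)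 (.hit (nat_lit 98) (nat_lit 97) (nat_lit 0x1780002f00005f9a6cbf6d117eeceafd47e) b58554 (.hit (nat_lit 99) (nat_lit 98) (nat_lit 0x1780002f00005f8fd6bf57e57ec292fcf33) b58555 (.nil))) (.nil))))) (.one (nat_lit 71) (nat_lit 101) (nat_lit 100) (nat_lit 0x1780002f00005fa6c6bf21b17e55e2fd648) b58557 (.nil)))))))))))))))))) (.tok (nat_lit 52) (nat_lit 0x1780002f0000600000c04c3180aaab00618) (.hit (nat_lit 225) (nat_lit 0) (nat_lit 0x1780002f00005ff9d8c04c3180aaab004d7) b58558 (.tok (nat_lit 6) (nat_lit 0x1780002f0000600000c0490980a46300618) (.hit (nat_lit 226) (nat_lit 7) (nat_lit 0x1780002f0000600000c0490980a46300618) b58559 (.hit (nat_lit 227) (nat_lit 15) (nat_lit 0x1780002f00005fd1d4bfff61801112ff2c9) b58560 (.nil))) (.tok (nat_lit 9) (nat_lit 0x1780002f00005fc752bff7498000e2ff129) (.hit (nat_lit 228) (nat_lit 20) (nat_lit 0x1780002f00005f9bb0bfb3bd7f79cafe89e) b58561 (.hit (nat_lit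 229) (nat_lit 28) (nat_lit 0x1780002f00005fc752bff7498000e2ff129) b58562 (.nil))) (.nil)))) (.tok (nat_lit 55) (nat_lit 0x1780002f00005fd986c007a1802192ffd97) (.hit (nat_lit 250) (nat_lit 0) (nat_lit 0x1780002f00005fd986bfb7fd7f824aff475) b58571 (.tok (nat_lit 3) (nat_lit 0x1780002f00005fc5a2c007a1802192ffd97) (.hit (nat_lit 251) (nat_lit 1) (nat_lit 0x1780002f00005f8f84bf9b657f491afe288) b58572 (.one (nat_lit 67) (nat_lit 252) (nat_lit 2) (nat_lit 0x1780002f00005fc5a2c007a1802192ffd97) b58573 (.nil))) (.tok (nat_lit 6) (nat_lit 0x1780002f00005f9b8abfb3717f7932fe88b) (.hit (nat_lit 253) (nat_lit 7) (nat_lit 0x1780002f00005f9b8abfb3717f7932fe88b) b58574 (.hit (nat_lit 256) (nat_lit 15) (nat_lit 0x1780002f00005f8d5ebf97197f4082fe175) b58575 (.nil))) (.nil)))) (.tok (nat_lit 58) (nat_lit 0x1780002f00005fec12c0500980b26300fb1) (.hit (nat_lit 236) (nat_lit 0) (nat_lit 0x1780002f00005fec12bfd02d7fb2aaffccb)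 b58563 (.tok (nat_lit 3) (nat_lit 0x1780002f00005fd2aac021b18055b30041b) (.hit (nat_lit 237) (nat_lit 1) (nat_lit 0x1780002f00005f8eb0bf99bd7f45cafe21e) b58564 (.one (nat_lit 55) (nat_lit 238) (nat_lit 3) (nat_lit 0x1780002f00005fd2aac021b18055b30041b) b58565 (.nil))) (.tok (nat_lit 9) (nat_lit 0x1780002f00005fe9d6c0500980b26300fb1) (.hit (nat_lit 239) (nat_lit 20) (nat_lit 0x1780002f00005fa912bfce817faf52fef4f) b58566 (.hit (nat_lit 242) (nat_lit 28) (nat_lit 0x1780002f00005f9a8cbfb1757f753afe80c) b58569 (.tok (nat_lit 67) (nat_lit 0x1780002f00005fe9d6c0500980b26300fb1) (.hit (nat_lit 240) (nat_lit 21) (nat_lit 0x1780002f00005fbf38bffacd8007eaffa62) b58567 (.hit (nat_lit 243) (nat_lit 29) (nat_lit 0x1780002f00005fc88ec00d79802d42fff0d) b58570 (.one (nat_lit 9) (nat_lit 241) (nat_lit 22) (nat_lit 0x1780002f00005fe9d6c0500980b26300fb1) b58568 (.nil)))) (.nil)))) (.nil)))) (.nil))))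
noncomputable def r86_2 : Rw Blk := .tok (nat_lit 3) (nat_lit 0x1780002f00006023e8c04dc9808cfb013f5) (.hit (nat_lit 15) (nat_lit 0) (nat_lit 0x1780002f00005fdd1abfd0017f8582ff396) b58583 (.tok (nat_lit 9) (nat_lit 0x1780002f00005fb8eabfe51d7f859aff8dd) (.hit (nat_lit 16) (nat_lit 20) (nat_lit 0x1780002f00005f9354bf99f17eef42fe612) b58584 (.hit (nat_lit 21) (nat_lit 28) (nat_lit 0x1780002f00005f63d0bf3ae97e3132fce50) b58589 (.tok (nat_lit 14) (nat_lit 0x1780002f00005faa32bfc7ad7f4abaff181) (.hit (nat_lit 17) (nat_lit 24) (nat_lit 0x1780002f00005f8de4bf8f117ed982fe35a) b58585 (.hit (nat_lit 22) (nat_lit 30) (nat_lit 0x1780002f00005fa492bfbc6d7f343afeeb1) b58590 (.one (nat_lit 6) (nat_lit 18) (nat_lit 25) (nat_lit 0x1780002f00005faa32bfc7ad7f4abaff181) b58586 (.nil)))) (.tok (nat_lit 68) (nat_lit 0x1780002f00005fb8eabfe51d7f859aff8dd) (.hit (nat_lit 19) (nat_lit 26) (nat_lit 0x1780002f00005fa3d6bfbaf57f314afee53)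 b58587 (.hit (nat_lit 24) (nat_lit 32) (nat_lit 0x1780002f00005fa58cbfbe617f3822fef2e) b58591 (.one (nat_lit 9) (nat_lit 20) (nat_lit 27) (nat_lit 0x1780002f00005fb8eabfe51d7f859aff8dd) b58588 (.nil)))) (.nil))))) (.tok (nat_lit 64) (nat_lit 0x1780002f00005fbab4bfe8b17f8cc2ff9c2) (.hit (nat_lit 25) (nat_lit 50) (nat_lit 0x1780002f00005fa068bfb4197f2392fec9c) b58592 (.hit (nat_lit 26) (nat_lit 51) (nat_lit 0x1780002f00005fbab4bfe8b17f8cc2ff9c2) b58593 (.nil))) (.tok (nat_lit 67) (nat_lit 0x1780002f00006023e8c04dc9808cfb013f5) (.hit (nat_lit 27) (nat_lit 52) (nat_lit 0x1780002f00006023e8c04dc9808cfb013f5) b58594 (.tok (nat_lit 3) (nat_lit 0x1780002f00005fcb24c009917fce83001fa) (.hit (nat_lit 33) (nat_lit 58) (nat_lit 0x1780002f00005fbae6bfe9157f8d8aff9db) b58600 (.one (nat_lit 55) (nat_lit 34) (nat_lit 59) (nat_lit 0x1780002f00005fcb24c009917fce83001fa) b58601 (.nil))) (.tok (nat_lit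 9) (nat_lit 0x1780002f00005fc05abff3fd7fa35affc95) (.hit (nat_lit 28) (nat_lit 53) (nat_lit 0x1780002f00005fac24bfcb917f5282ff27a) b58595 (.hit (nat_lit 31) (nat_lit 56) (nat_lit 0x1780002f00005fb292bfd86d7f6c3aff5b1) b58598 (.tok (nat_lit 67) (nat_lit 0x1780002f00005fc05abff3fd7fa35affc95) (.hit (nat_lit 29) (nat_lit 54) (nat_lit 0x1780002f00005fc05abff3fd7fa35affc95) b58596 (.hit (nat_lit 32) (nat_lit 57) (nat_lit 0x1780002f00005fbe60bff0097f9b72ffb98) b58599 (.one (nat_lit 9) (nat_lit 30) (nat_lit 55) (nat_lit 0x1780002f00005faac6bfc8d57f4d0aff1cb) b58597 (.nil)))) (.nil)))) (.nil)))) (.one (nat_lit 70) (nat_lit 35) (nat_lit 60) (nat_lit 0x1780002f00005fb87ebfe4457f83eaff8a7) b58602 (.nil)))))) (.tok (nat_lit 6) (nat_lit 0x1780002f0000601772c03c9d8088b300a6c) (.hit (nat_lit 0) (nat_lit 0) (nat_lit 0x1780002f00006004c2c03c9d8072d300815) b58576 (.tok (nat_lit 6) (nat_lit 0x1780002f0000601772c0316d8088b300a6c)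 (.hit (nat_lit 1) (nat_lit 7) (nat_lit 0x1780002f00005fd7aabfa8397f5272feae1) b58577 (.hit (nat_lit 4) (nat_lit 15) (nat_lit 0x1780002f00005fc0d0bf71617f207afd9f6) b58580 (.tok (nat_lit 14) (nat_lit 0x1780002f0000601772c0316d8088b300a6c) (.hit (nat_lit 2) (nat_lit 11) (nat_lit 0x1780002f0000600b94c00631806413002e0) b58578 (.hit (nat_lit 5) (nat_lit 17) (nat_lit 0x1780002f00005fd650bf816d7f4fb2fdff1) b58581 (.one (nat_lit 9) (nat_lit 3) (nat_lit 12) (nat_lit 0x1780002f0000601772c0316d8088b300a6c) b58579 (.nil)))) (.one (nat_lit 68) (nat_lit 6) (nat_lit 18) (nat_lit 0x1780002f0000600148bfce3d7fe3bafef6d) b58582 (.nil))))) (.nil))) (.nil))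
noncomputable def r86_3 : Rw Blk := .tok (nat_lit 9) (nat_lit 0x1780002f00005ff720c0160580629b00981) (.hit (nat_lit 0) (nat_lit 0) (nat_lit 0x1780002f00005fa89abf94197edc9afea78) b58603 (.tok (nat_lit 14) (nat_lit 0x1780002f00005ff19cc0160580441300981) (.hit (nat_lit 21) (nat_lit 61) (nat_lit 0x1780002f00005fd8fcbfe7ed7faba2ffb50) b58604 (.one (nat_lit 3) (nat_lit 22) (nat_lit 62) (nat_lit 0x1780002f00005fe1a6bfca617f9f3aff55e) b58605 (.tok (nat_lit 6) (nat_lit 0x1780002f00005ff19cc0160580441300981) (.hit (nat_lit 25) (nat_lit 65) (nat_lit 0x1780002f00005ff19cc0160580441300981) b58608 (.hit (nat_lit 26) (nat_lit 66) (nat_lit 0x1780002f00005fb5aebf767d7eddeafde50) b58609 (.nil))) (.tok (nat_lit 9) (nat_lit 0x1780002f00005fb8b0bf93b97f3072fe88e) (.hit (nat_lit 23) (nat_lit 63) (nat_lit 0x1780002f00005f71fcbf39497e612afd603) b58606 (.hit (nat_lit 24) (nat_lit 64) (nat_lit 0x1780002f00005fb8b0bf93b97f3072fe88e)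 b58607 (.nil))) (.nil))))) (.one (nat_lit 17) (nat_lit 27) (nat_lit 67) (nat_lit 0x1780002f00005fc724bfb2797f4302fe5dd) b58610 (.tok (nat_lit 20) (nat_lit 0x1780002f00005fa764bf7b2d7ef64afd9a7) (.hit (nat_lit 28) (nat_lit 68) (nat_lit 0x1780002f00005f5082bef6557ddb42fc546) b58611 (.hit (nat_lit 29) (nat_lit 69) (nat_lit 0x1780002f00005fa764bf7b2d7ef64afd9a7) b58612 (.nil))) (.tok (nat_lit 23) (nat_lit 0x1780002f00005ff720bff94980629affd42) (.hit (nat_lit 30) (nat_lit 70) (nat_lit 0x1780002f00005ff720bff94980629affd42) b58613 (.hit (nat_lit 31) (nat_lit 71) (nat_lit 0x1780002f00005fad28bf52457edc02fdede) b58614 (.nil))) (.one (nat_lit 26) (nat_lit 32) (nat_lit 72) (nat_lit 0x1780002f00005f998ebf50697e9782fd46a) b58615 (.one (nat_lit 29) (nat_lit 33) (nat_lit 73) (nat_lit 0x1780002f00005fa412bf8b417f0a82fe047) b58616 (.one (nat_lit 32) (nat_lit 34) (nat_lit 74) (nat_lit 0x1780002f00005fb926bf884d7f07e2fe2fb)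 b58617 (.one (nat_lit 35) (nat_lit 35) (nat_lit 75) (nat_lit 0x1780002f00005f8a20bf10517e50fafcd7d) b58618 (.one (nat_lit 50) (nat_lit 43) (nat_lit 83) (nat_lit 0x1780002f00005f9914bf43217e8dcafd517) b58619 (.tok (nat_lit 53) (nat_lit 0x1780002f00005fb0b4bf8a197ee0cafdfcc) (.hit (nat_lit 44) (nat_lit 84) (nat_lit 0x1780002f00005fb0b4bf8a197ee0cafdfcc) b58620 (.hit (nat_lit 45) (nat_lit 85) (nat_lit 0x1780002f00005f864cbf77957ed1bafd9d9) b58621 (.nil))) (.tok (nat_lit 56) (nat_lit 0x1780002f00005f9602bf508d7ed8b2fe3a4) (.hit (nat_lit 46) (nat_lit 86) (nat_lit 0x1780002f00005f9602bf508d7ed8b2fe3a4) b58622 (.one (nat_lit 3) (nat_lit 50) (nat_lit 90) (nat_lit 0x1780002f00005f4f88bef4617dd75afc4c9) b58626 (.tok (nat_lit 6) (nat_lit 0x1780002f00005f73a6bf3c9d7e67d2fd6d8) (.hit (nat_lit 48) (nat_lit 88) (nat_lit 0x1780002f00005f73a6bf3c9d7e67d2fd6d8) b58624 (.hit (nat_lit 49) (nat_lit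 89) (nat_lit 0x1780002f00005f6302bf1b557e2542fce86) b58625 (.nil))) (.one (nat_lit 9) (nat_lit 47) (nat_lit 87) (nat_lit 0x1780002f00005f57cebf04ed7df872fc8ec) b58623 (.nil))))) (.one (nat_lit 59) (nat_lit 51) (nat_lit 91) (nat_lit 0x1780002f00005fa662bf77457ecffafd8fe) b58627 (.one (nat_lit 62) (nat_lit 52) (nat_lit 92) (nat_lit 0x1780002f00005fb6dabf7db17ef9f2fe364) b58628 (.tok (nat_lit 65) (nat_lit 0x1780002f00005fccc6bf89797f1e1afed42) (.hit (nat_lit 53) (nat_lit 93) (nat_lit 0x1780002f00005fccc6bf6c097f1e1afed42) b58629 (.hit (nat_lit 54) (nat_lit 94) (nat_lit 0x1780002f00005fb4aabf89797ed5b2fe5af) b58630 (.nil))) (.tok (nat_lit 68) (nat_lit 0x1780002f00005fd72ebfe8d17fd1daff59f) (.hit (nat_lit 55) (nat_lit 95) (nat_lit 0x1780002f00005fd0b2bfc6d17f7532ff479) b58631 (.one (nat_lit 3) (nat_lit 59) (nat_lit 99) (nat_lit 0x1780002f00005fb7b6bf8dc17f4dcafe5b5) b58635 (.one (nat_lit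 6) (nat_lit 56) (nat_lit 96) (nat_lit 0x1780002f00005fd72ebfe8d17fd1daff59f) b58632 (.tok (nat_lit 9) (nat_lit 0x1780002f00005fd098bfba617f8f22fee83) (.hit (nat_lit 57) (nat_lit 97) (nat_lit 0x1780002f00005fd098bfba617f4b92fee83) b58633 (.hit (nat_lit 58) (nat_lit 98) (nat_lit 0x1780002f00005fc4cabfac257f8f22feddd) b58634 (.nil))) (.nil))))) (.one (nat_lit 71) (nat_lit 60) (nat_lit 100) (nat_lit 0x1780002f00005fab72bf64f17eafbafdad7) b58636 (.nil)))))))))))))))))) (.tok (nat_lit 64) (nat_lit 0x1780002f0000600000c04ea980690b005e9) (.hit (nat_lit 176) (nat_lit 0) (nat_lit 0x1780002f0000600000c04ea980690b005e9) b58637 (.tok (nat_lit 6) (nat_lit 0x1780002f00005fd1d6bfb9257fa89afee81) (.hit (nat_lit 177) (nat_lit 7) (nat_lit 0x1780002f00005faaa6bf85c97f276afdea8) b58638 (.hit (nat_lit 178) (nat_lit 15) (nat_lit 0x1780002f00005fd1d6bfb9257fa89afee81) b58639 (.nil))) (.tok (nat_lit 9)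 (nat_lit 0x1780002f00005fd834bff8497ff972ff7f6) (.hit (nat_lit 179) (nat_lit 20) (nat_lit 0x1780002f00005fd834bff8497ff972ff7f6) b58640 (.hit (nat_lit 180) (nat_lit 28) (nat_lit 0x1780002f00005fb672bfa3dd7f7e2afe88d) b58641 (.nil))) (.nil)))) (.tok (nat_lit 67) (nat_lit 0x1780002f00005fc9debfc4397fa44afee44) (.hit (nat_lit 201) (nat_lit 0) (nat_lit 0x1780002f00005fc552bfacb97f4592febad) b58650 (.tok (nat_lit 3) (nat_lit 0x1780002f00005fb7e2bfa0417f5c5afe546) (.hit (nat_lit 202) (nat_lit 1) (nat_lit 0x1780002f00005f8a9abf45b17ea73afcea2) b58651 (.one (nat_lit 55) (nat_lit 203) (nat_lit 3) (nat_lit 0x1780002f00005fb7e2bfa0417f5c5afe546) b58652 (.nil))) (.tok (nat_lit 9) (nat_lit 0x1780002f00005fc9debfc4397fa44afee44) (.hit (nat_lit 204) (nat_lit 20) (nat_lit 0x1780002f00005f9fa4bf6fc57efb62fd927) b58653 (.hit (nat_lit 207) (nat_lit 28) (nat_lit 0x1780002f00005f8c46bf49097eadeafcf78)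 b58656 (.tok (nat_lit 67) (nat_lit 0x1780002f00005fc9debfc4397fa44afee44) (.hit (nat_lit 205) (nat_lit 21) (nat_lit 0x1780002f00005fbd74bfab657f72a2fe80f) b58654 (.hit (nat_lit 208) (nat_lit 29) (nat_lit 0x1780002f00005fbd40bfaafd7f71d2fe7f5) b58657 (.one (nat_lit 9) (nat_lit 206) (nat_lit 22) (nat_lit 0x1780002f00005fc9debfc4397fa44afee44) b58655 (.nil)))) (.nil)))) (.nil)))) (.tok (nat_lit 70) (nat_lit 0x1780002f00005fe010bff09d7ffd12ff95d) (.hit (nat_lit 187) (nat_lit 0) (nat_lit 0x1780002f00005fcef0bfc9d17f8f5aff4e6) b58642 (.tok (nat_lit 3) (nat_lit 0x1780002f00005fcdc2bfcc017fb3daff036) (.hit (nat_lit 188) (nat_lit 1) (nat_lit 0x1780002f00005f9a94bf65a57ee722fd69f) b58643 (.one (nat_lit 67) (nat_lit 189) (nat_lit 2) (nat_lit 0x1780002f00005fcdc2bfcc017fb3daff036) b58644 (.nil))) (.tok (nat_lit 6) (nat_lit 0x1780002f00005fe010bff09d7ffd12ff95d) (.hit (nat_lit 190) (nat_lit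 7) (nat_lit 0x1780002f00005f9e7abf6d717ef6bafd892) b58645 (.hit (nat_lit 193) (nat_lit 15) (nat_lit 0x1780002f00005f9ed4bf6e257ef822fd8bf) b58648 (.tok (nat_lit 55) (nat_lit 0x1780002f00005fe010bff09d7ffd12ff95d) (.hit (nat_lit 191) (nat_lit 8) (nat_lit 0x1780002f00005fb868bfa14d7f5e72fe589) b58646 (.hit (nat_lit 194) (nat_lit 16) (nat_lit 0x1780002f00005fd34abfd7117fc9faff2fa) b58649 (.one (nat_lit 6) (nat_lit 192) (nat_lit 9) (nat_lit 0x1780002f00005fe010bff09d7ffd12ff95d) b58647 (.nil)))) (.nil)))) (.nil)))) (.nil))))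
noncomputable def r86_4 : Rw Blk := .tok (nat_lit 3) (nat_lit 0x1780002f000060414ec08e15811f9b02415) (.hit (nat_lit 15) (nat_lit 0) (nat_lit 0x1780002f0000602238c03e7180381300aaf) b58669 (.tok (nat_lit 6) (nat_lit 0x1780002f00006001d0bff6957f958aff330) (.hit (nat_lit 16) (nat_lit 7) (nat_lit 0x1780002f00005f9c5cbf83f17eabc2fd687) b58670 (.hit (nat_lit 21) (nat_lit 15) (nat_lit 0x1780002f00005fbb18bf75697ee432fd860) b58673 (.tok (nat_lit 56) (nat_lit 0x1780002f00005fd5aebff6957f910aff330) (.hit (nat_lit 19) (nat_lit 13) (nat_lit 0x1780002f00005fbe6abfc80d7f33fafe78e) b58671 (.hit (nat_lit 24) (nat_lit 19) (nat_lit 0x1780002f00005fcb0ebfba597f618afe852) b58675 (.one (nat_lit 6) (nat_lit 20) (nat_lit 14) (nat_lit 0x1780002f00005fd5aebff6957f910aff330) b58672 (.nil)))) (.one (nat_lit 68) (nat_lit 23) (nat_lit 18) (nat_lit 0x1780002f00006001d0bfd1957f958afeef6) b58674 (.nil))))) (.tok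 (nat_lit 52) (nat_lit 0x1780002f00005ff060bfe6a97fe0caffb8e) (.hit (nat_lit 25) (nat_lit 39) (nat_lit 0x1780002f00005fe634bfd8357f926aff937) b58676 (.hit (nat_lit 26) (nat_lit 40) (nat_lit 0x1780002f00005ff060bfe6a97fe0caffb8e) b58677 (.nil))) (.tok (nat_lit 55) (nat_lit 0x1780002f000060414ec08e15811f9b02415) (.hit (nat_lit 27) (nat_lit 41) (nat_lit 0x1780002f000060414ec08e15811f9b02415) b58678 (.one (nat_lit 3) (nat_lit 33) (nat_lit 47) (nat_lit 0x1780002f00005fd3eebff3157f8a0aff250) b58684 (.tok (nat_lit 6) (nat_lit 0x1780002f00005fe3dcc012f17fc9c2ffa47) (.hit (nat_lit 28) (nat_lit 42) (nat_lit 0x1780002f00005fd5c2bff6bd7f915aff33a) b58679 (.hit (nat_lit 31) (nat_lit 45) (nat_lit 0x1780002f00005fcefebfe9357f764afefd8) b58682 (.tok (nat_lit 55) (nat_lit 0x1780002f00005fe3dcc012f17fc9c2ffa47) (.hit (nat_lit 29) (nat_lit 43) (nat_lit 0x1780002f00005fe3dcc012f17fc9c2ffa47) b58680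 (.hit (nat_lit 32) (nat_lit 46) (nat_lit 0x1780002f00005fe2cac010cd7fc57aff9be) b58683 (.one (nat_lit 6) (nat_lit 30) (nat_lit 44) (nat_lit 0x1780002f00005fccf6bfe5257f6e2afeed4) b58681 (.nil)))) (.nil)))) (.nil)))) (.one (nat_lit 58) (nat_lit 35) (nat_lit 49) (nat_lit 0x1780002f000060394cc07a6980eba301f84) b58685 (.nil)))))) (.tok (nat_lit 9) (nat_lit 0x1780002f00006089f2c0d4a581f723040e1) (.hit (nat_lit 0) (nat_lit 0) (nat_lit 0x1780002f00006025aec0202d800e8affffb) b58658 (.tok (nat_lit 9) (nat_lit 0x1780002f0000602980c02b29807023003f1) (.hit (nat_lit 1) (nat_lit 20) (nat_lit 0x1780002f00005fc4fabf9dc17edf62fdcfb) b58659 (.hit (nat_lit 4) (nat_lit 28) (nat_lit 0x1780002f00005fd7a0bfa0857ee4eafddac) b58660 (.one (nat_lit 56) (nat_lit 6) (nat_lit 31) (nat_lit 0x1780002f0000602980c02b29807023003f1) b58661 (.nil)))) (.tok (nat_lit 64) (nat_lit 0x1780002f000060879ac0d4a5818f7b03716)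 (.hit (nat_lit 7) (nat_lit 50) (nat_lit 0x1780002f000060879ac0d4a5818f7b03716) b58662 (.hit (nat_lit 8) (nat_lit 51) (nat_lit 0x1780002f0000603a2ec011c1801922ffb76) b58663 (.nil))) (.tok (nat_lit 67) (nat_lit 0x1780002f00006089f2c0c06581373b040e1) (.hit (nat_lit 9) (nat_lit 52) (nat_lit 0x1780002f0000606b48c0c065812593029db) b58664 (.one (nat_lit 3) (nat_lit 12) (nat_lit 58) (nat_lit 0x1780002f00006007d4c00991800b82ffe4e) b58667 (.tok (nat_lit 9) (nat_lit 0x1780002f00006089f2c06fd181373b040e1) (.hit (nat_lit 10) (nat_lit 53) (nat_lit 0x1780002f00006089f2c06fd181373b040e1) b58665 (.hit (nat_lit 11) (nat_lit 56) (nat_lit 0x1780002f00006010bac015957fcf0affaf0) b58666 (.nil))) (.nil)))) (.one (nat_lit 70) (nat_lit 14) (nat_lit 60) (nat_lit 0x1780002f0000608264c067b181f72302c42) b58668 (.nil)))))) (.nil))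
noncomputable def r86_5 : Rw Blk := .tok (nat_lit 9) (nat_lit 0x1780002f0000603880c082558130b30251b) (.hit (nat_lit 0) (nat_lit 0) (nat_lit 0x1780002f00006003e4c046c180a67300cce) b58686 (.one (nat_lit 26) (nat_lit 12) (nat_lit 72) (nat_lit 0x1780002f00005ffeb8bfed457fdb2affffa) b58687 (.one (nat_lit 29) (nat_lit 13) (nat_lit 73) (nat_lit 0x1780002f0000600ad0c00fc9800c7b0063e) b58688 (.one (nat_lit 32) (nat_lit 14) (nat_lit 74) (nat_lit 0x1780002f00006001bac000f5801f9b00418) b58689 (.one (nat_lit 35) (nat_lit 15) (nat_lit 75) (nat_lit 0x1780002f00005fd682bfb7f97f8c72ff3aa) b58690 (.one (nat_lit 38) (nat_lit 16) (nat_lit 76) (nat_lit 0x1780002f00005fdf66bfdc9d7fe92affa87) b58691 (.tok (nat_lit 41) (nat_lit 0x1780002f00005fd732bff8e18015f3000e2) (.hit (nat_lit 17) (nat_lit 77) (nat_lit 0x1780002f00005fc612bff8e18015f3000e2) b58692 (.hit (nat_lit 18) (nat_lit 78) (nat_lit 0x1780002f00005fd732bff1217feecaffc5e)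 b58693 (.nil))) (.tok (nat_lit 44) (nat_lit 0x1780002f00005fea46bfee61801162ffdbf) (.hit (nat_lit 19) (nat_lit 79) (nat_lit 0x1780002f00005fbf98bfa4857f2d82fe12f) b58694 (.hit (nat_lit 20) (nat_lit 80) (nat_lit 0x1780002f00005fea46bfee61801162ffdbf) b58695 (.nil))) (.tok (nat_lit 47) (nat_lit 0x1780002f00005fecbec02fa98044f3002a0) (.hit (nat_lit 21) (nat_lit 81) (nat_lit 0x1780002f00005fecbec02fa98044f3002a0) b58696 (.hit (nat_lit 22) (nat_lit 82) (nat_lit 0x1780002f00005fc270bfb8697f79f2ff247) b58697 (.nil))) (.one (nat_lit 50) (nat_lit 23) (nat_lit 83) (nat_lit 0x1780002f0000600f54c011d98036db007cb) b58698 (.tok (nat_lit 53) (nat_lit 0x1780002f00005fe752c003a980039b0021d) (.hit (nat_lit 24) (nat_lit 84) (nat_lit 0x1780002f00005fe33ac003a980039b0021d) b58699 (.hit (nat_lit 25) (nat_lit 85) (nat_lit 0x1780002f00005fe752bfefb17ffd0affd95) b58700 (.nil))) (.tok (nat_lit 56) (nat_lit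 0x1780002f0000603880c082558130b30251b) (.hit (nat_lit 26) (nat_lit 86) (nat_lit 0x1780002f0000603880c082558130b30251b) b58701 (.one (nat_lit 3) (nat_lit 30) (nat_lit 90) (nat_lit 0x1780002f00005feee6c003217feabaff8d6) b58705 (.tok (nat_lit 6) (nat_lit 0x1780002f00005fea18bff9857fd782ff66f) (.hit (nat_lit 28) (nat_lit 88) (nat_lit 0x1780002f00005fea18bff9857fd782ff66f) b58703 (.hit (nat_lit 29) (nat_lit 89) (nat_lit 0x1780002f00005fd354bfcbfd7f7c72feb0d) b58704 (.nil))) (.one (nat_lit 9) (nat_lit 27) (nat_lit 87) (nat_lit 0x1780002f00005fe540bfefd57fc422ff403) b58702 (.nil))))) (.one (nat_lit 59) (nat_lit 31) (nat_lit 91) (nat_lit 0x1780002f00005febe6bfd90d7ff272ff954) b58706 (.nil)))))))))))))) (.tok (nat_lit 64) (nat_lit 0x1780002f0000607aecc0fed581f9ab03f42) (.hit (nat_lit 45) (nat_lit 0) (nat_lit 0x1780002f0000607aecc0fed581f9ab03f42) b58718 (.tok (nat_lit 6) (nat_lit 0x1780002f00006015eec01f49806d6300d34)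 (.hit (nat_lit 46) (nat_lit 7) (nat_lit 0x1780002f00005ff5fcbfe9f97fe082ff7d4) b58719 (.hit (nat_lit 47) (nat_lit 15) (nat_lit 0x1780002f00006015eec01f49806d6300d34) b58720 (.nil))) (.tok (nat_lit 9) (nat_lit 0x1780002f00006066cac0bad581969303475) (.hit (nat_lit 48) (nat_lit 20) (nat_lit 0x1780002f00006066cac0a76d81969303475) b58721 (.hit (nat_lit 49) (nat_lit 28) (nat_lit 0x1780002f000060530ec0bad5815bb303274) b58722 (.nil))) (.nil)))) (.tok (nat_lit 67) (nat_lit 0x1780002f000060353cc0687980dd8301774) (.hit (nat_lit 40) (nat_lit 0) (nat_lit 0x1780002f0000602cb8c0329d8071cb009fd) b58714 (.one (nat_lit 3) (nat_lit 41) (nat_lit 1) (nat_lit 0x1780002f0000600e8ec01b1d8042cb0041d) b58715 (.tok (nat_lit 9) (nat_lit 0x1780002f000060353cc0687980dd8301774) (.hit (nat_lit 43) (nat_lit 20) (nat_lit 0x1780002f000060353cc0687980dd8301774) b58716 (.hit (nat_lit 44) (nat_lit 28) (nat_lit 0x1780002f00005ffb8cbff5197ff6c2ffa9c)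 b58717 (.nil))) (.nil)))) (.tok (nat_lit 70) (nat_lit 0x1780002f0000605cc6c0b78d817bab02b39) (.hit (nat_lit 32) (nat_lit 0) (nat_lit 0x1780002f0000603d4ac0884d80f95b01d71) b58707 (.one (nat_lit 3) (nat_lit 33) (nat_lit 1) (nat_lit 0x1780002f00006038fac06ff580ec7b01953) b58708 (.tok (nat_lit 6) (nat_lit 0x1780002f0000605cc6c0b78d817bab02b39) (.hit (nat_lit 35) (nat_lit 7) (nat_lit 0x1780002f00006042aac0835581133b01e2b) b58709 (.hit (nat_lit 38) (nat_lit 15) (nat_lit 0x1780002f000060320ec0621d80d0cb015dd) b58712 (.tok (nat_lit 55) (nat_lit 0x1780002f0000605cc6c0b78d817bab02b39) (.hit (nat_lit 36) (nat_lit 8) (nat_lit 0x1780002f0000604ff2c09de581485b024cf) b58710 (.hit (nat_lit 39) (nat_lit 16) (nat_lit 0x1780002f00006059c2c0b185816f9b029b7) b58713 (.one (nat_lit 6) (nat_lit 37) (nat_lit 9) (nat_lit 0x1780002f0000605cc6c0b78d817bab02b39) b58711 (.nil)))) (.nil)))) (.nil)))) (.nil))))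
noncomputable def r86_6 : Rw Blk := .tok (nat_lit 3) (nat_lit 0x1780002f0000607c82c0d13981a70b03548) (.hit (nat_lit 0) (nat_lit 0) (nat_lit 0x1780002f0000607c82c0d13981a70b03548) b58723 (.tok (nat_lit 6) (nat_lit 0x1780002f00006051aec08aa98110bb021b4) (.hit (nat_lit 1) (nat_lit 7) (nat_lit 0x1780002f00005ff112bfc9717f8e4aff166) b58724 (.hit (nat_lit 6) (nat_lit 15) (nat_lit 0x1780002f00005ffc1abfdf817fba6aff6ea) b58729 (.tok (nat_lit 14) (nat_lit 0x1780002f0000604acac07ce180f52b01e42) (.hit (nat_lit 2) (nat_lit 11) (nat_lit 0x1780002f000060287cc03845806bf300d1b) b58725 (.hit (nat_lit 7) (nat_lit 17) (nat_lit 0x1780002f0000604acac07ce180f52b01e42) b58730 (.one (nat_lit 9) (nat_lit 3) (nat_lit 12) (nat_lit 0x1780002f00006023b2c02eb18058cb00ab6) b58726 (.nil)))) (.tok (nat_lit 56) (nat_lit 0x1780002f00006051aec08aa98110bb021b4) (.hit (nat_lit 4) (nat_lit 13) (nat_lit 0x1780002f000060160ac0136180222b003e2)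 b58727 (.hit (nat_lit 8) (nat_lit 19) (nat_lit 0x1780002f0000603b14c05d7580b65301667) b58731 (.one (nat_lit 6) (nat_lit 5) (nat_lit 14) (nat_lit 0x1780002f00006051aec08aa98110bb021b4) b58728 (.nil)))) (.nil))))) (.nil))) (.tok (nat_lit 9) (nat_lit 0x1780002f000060c4e4c18d358337bb0687c) (.hit (nat_lit 20) (nat_lit 0) (nat_lit 0x1780002f000060a006c1292581e9fb0496e) b58732 (.tok (nat_lit 9) (nat_lit 0x1780002f000060c4e4c18d358337bb0687c) (.hit (nat_lit 21) (nat_lit 20) (nat_lit 0x1780002f0000607036c0ade981858b033f4) b58733 (.hit (nat_lit 24) (nat_lit 28) (nat_lit 0x1780002f0000606084c0a14d8127fb02666) b58736 (.tok (nat_lit 14) (nat_lit 0x1780002f000060c4e4c18d358337bb0687c) (.hit (nat_lit 22) (nat_lit 24) (nat_lit 0x1780002f0000609d18c13b7982510304eb4) b58734 (.hit (nat_lit 25) (nat_lit 30) (nat_lit 0x1780002f00006077d0c0eaad81cd230355e) b58737 (.one (nat_lit 6) (nat_lit 23) (nat_lit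 25) (nat_lit 0x1780002f000060c4e4c18d358337bb0687c) b58735 (.nil)))) (.nil)))) (.nil))) (.nil))
noncomputable def r86_7 : Rw Blk := .tok (nat_lit 9) (nat_lit 0x1780002f00005fee56bfe1518016d2ffbd0) (.hit (nat_lit 0) (nat_lit 0) (nat_lit 0x1780002f00005f9dccbf7e357f28d2fdd71) b58738 (.tok (nat_lit 14) (nat_lit 0x1780002f00005fee56bfe1518016d2ffbd0) (.hit (nat_lit 21) (nat_lit 61) (nat_lit 0x1780002f00005fd1d6bfa1057fd5b2fe625) b58739 (.one (nat_lit 3) (nat_lit 22) (nat_lit 62) (nat_lit 0x1780002f00005fb702bf6ca97f33eafd90e) b58740 (.tok (nat_lit 6) (nat_lit 0x1780002f00005fee56bfe1518016d2ffbd0) (.hit (nat_lit 25) (nat_lit 65) (nat_lit 0x1780002f00005fee56bfe1518016d2ffbd0) b58743 (.hit (nat_lit 26) (nat_lit 66) (nat_lit 0x1780002f00005fc0ecbf7f397f599afddb2) b58744 (.nil))) (.tok (nat_lit 9) (nat_lit 0x1780002f00005fb7eebf97cd7f84c2fe3e7) (.hit (nat_lit 23) (nat_lit 63) (nat_lit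 0x1780002f00005f925ebf5b017eeb62fd94b) b58741 (.hit (nat_lit 24) (nat_lit 64) (nat_lit 0x1780002f00005fb7eebf97cd7f84c2fe3e7) b58742 (.nil))) (.nil))))) (.one (nat_lit 17) (nat_lit 27) (nat_lit 67) (nat_lit 0x1780002f00005fa332bf43bd7f1b2afced3) b58745 (.tok (nat_lit 20) (nat_lit 0x1780002f00005fa2debf43a57f1afafd1cc) (.hit (nat_lit 28) (nat_lit 68) (nat_lit 0x1780002f00005f8360bf3d057eaf6afd1cc) b58746 (.hit (nat_lit 29) (nat_lit 69) (nat_lit 0x1780002f00005fa2debf43a57f1afafcecd) b58747 (.nil))) (.tok (nat_lit 23) (nat_lit 0x1780002f00005fb53abf70f17f2aa2fde41) (.hit (nat_lit 30) (nat_lit 70) (nat_lit 0x1780002f00005fb53abf70f17f2aa2fde41) b58748 (.hit (nat_lit 31) (nat_lit 71) (nat_lit 0x1780002f00005f9cd6bf37057f01bafcba5) b58749 (.nil))) (.one (nat_lit 26) (nat_lit 32) (nat_lit 72) (nat_lit 0x1780002f00005f940abf25bd7edf2afc753) b58750 (.one (nat_lit 29) (nat_lit 33) (nat_lit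 73) (nat_lit 0x1780002f00005f90b4bf26f97ee1a2fc7a6) b58751 (.one (nat_lit 32) (nat_lit 34) (nat_lit 74) (nat_lit 0x1780002f00005f9faebf3ccd7f0d4afcd17) b58752 (.one (nat_lit 35) (nat_lit 35) (nat_lit 75) (nat_lit 0x1780002f00005f80a4beff457e923afbdb5) b58753 (.one (nat_lit 50) (nat_lit 43) (nat_lit 83) (nat_lit 0x1780002f00005f97c2bf2fe97ef382fc9de) b58754 (.tok (nat_lit 53) (nat_lit 0x1780002f00005f9174bf4b897f2102fd0c6) (.hit (nat_lit 44) (nat_lit 84) (nat_lit 0x1780002f00005f87cabf4b897f2102fd0c6) b58755 (.hit (nat_lit 45) (nat_lit 85) (nat_lit 0x1780002f00005f9174bf34f57efd9afcb21) b58756 (.nil))) (.tok (nat_lit 56) (nat_lit 0x1780002f00005f9f84bfa5297f7862fe72e) (.hit (nat_lit 46) (nat_lit 86) (nat_lit 0x1780002f00005f9f84bfa5297f7862fe72e) b58757 (.one (nat_lit 3) (nat_lit 50) (nat_lit 90) (nat_lit 0x1780002f00005f7fb6bf35b17ea0c2fcff7) b58761 (.tok (nat_lit 6) (nat_lit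 0x1780002f00005f8612bf42697eba32fd325) (.hit (nat_lit 48) (nat_lit 88) (nat_lit 0x1780002f00005f8612bf42697eba32fd325) b58759 (.hit (nat_lit 49) (nat_lit 89) (nat_lit 0x1780002f00005f816ebf39217ea7a2fd0d3) b58760 (.nil))) (.one (nat_lit 9) (nat_lit 47) (nat_lit 87) (nat_lit 0x1780002f00005f7cf4bf302d7e95bafce96) b58758 (.nil))))) (.one (nat_lit 59) (nat_lit 51) (nat_lit 91) (nat_lit 0x1780002f00005f97d4bf2e0d7eefcafc967) b58762 (.one (nat_lit 62) (nat_lit 52) (nat_lit 92) (nat_lit 0x1780002f00005faec6bf5ae57f497afd49d) b58763 (.tok (nat_lit 65) (nat_lit 0x1780002f00005fb298bf51617f7fcafd293) (.hit (nat_lit 53) (nat_lit 93) (nat_lit 0x1780002f00005fb298bf40217f7fcafd293) b58764 (.hit (nat_lit 54) (nat_lit 94) (nat_lit 0x1780002f00005fa9b0bf51617f389afd287) b58765 (.nil))) (.tok (nat_lit 68) (nat_lit 0x1780002f00005fdec0bfcab9800352ff092) (.hit (nat_lit 55) (nat_lit 95) (nat_lit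 0x1780002f00005fce14bfb1a17fe2bafea4c) b58766 (.one (nat_lit 3) (nat_lit 59) (nat_lit 99) (nat_lit 0x1780002f00005fb8fabf77a57f5672fdbd5) b58770 (.one (nat_lit 6) (nat_lit 56) (nat_lit 96) (nat_lit 0x1780002f00005fd7fabfcab97fe402ff092) b58767 (.tok (nat_lit 9) (nat_lit 0x1780002f00005fdec0bfbe15800352fef3f) (.hit (nat_lit 57) (nat_lit 97) (nat_lit 0x1780002f00005fdec0bfbe15800352fef3f) b58768 (.hit (nat_lit 58) (nat_lit 98) (nat_lit 0x1780002f00005fb6dabf6c017f332afd8e4) b58769 (.nil))) (.nil))))) (.one (nat_lit 71) (nat_lit 60) (nat_lit 100) (nat_lit 0x1780002f00005f9f8cbf3c717f0c92fcd00) b58771 (.nil)))))))))))))))))) (.tok (nat_lit 64) (nat_lit 0x1780002f00005fdce2c03e1d7ff51b00d30) (.hit (nat_lit 176) (nat_lit 0) (nat_lit 0x1780002f00005fd90ec016c17fe94b003cb) b58772 (.tok (nat_lit 6) (nat_lit 0x1780002f00005fcd16bffe317fd052ffd7e) (.hit (nat_lit 177) (nat_lit 7) (nat_lit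 0x1780002f00005fb098bfb2897f4982fe9ef) b58773 (.hit (nat_lit 178) (nat_lit 15) (nat_lit 0x1780002f00005fcd16bffe317fd052ffd7e) b58774 (.nil))) (.tok (nat_lit 9) (nat_lit 0x1780002f00005fdce2c03e1d7ff51b00d30) (.hit (nat_lit 179) (nat_lit 20) (nat_lit 0x1780002f00005fdce2c03e1d7ff51b00d30) b58775 (.hit (nat_lit 180) (nat_lit 28) (nat_lit 0x1780002f00005fbca0c005697fbb3afff35) b58776 (.nil))) (.nil)))) (.tok (nat_lit 67) (nat_lit 0x1780002f00005fe35abff0a5803a9aff976) (.hit (nat_lit 201) (nat_lit 0) (nat_lit 0x1780002f00005fe35abfc671803a9afef80) b58785 (.tok (nat_lit 3) (nat_lit 0x1780002f00005fbd46bfcbe57f7c3aff046) (.hit (nat_lit 202) (nat_lit 1) (nat_lit 0x1780002f00005fa2bcbf96d17f1212fe301) b58786 (.one (nat_lit 55) (nat_lit 203) (nat_lit 3) (nat_lit 0x1780002f00005fbd46bfcbe57f7c3aff046) b58787 (.nil))) (.tok (nat_lit 9) (nat_lit 0x1780002f00005fcfa6bff0a57fc5baff976) (.hit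 (nat_lit 204) (nat_lit 20) (nat_lit 0x1780002f00005f9c7abf8a4d7ef90afdfe0) b58788 (.hit (nat_lit 207) (nat_lit 28) (nat_lit 0x1780002f00005fa2e2bf971d7f12aafe314) b58791 (.tok (nat_lit 67) (nat_lit 0x1780002f00005fcfa6bff0a57fc5baff976) (.hit (nat_lit 205) (nat_lit 21) (nat_lit 0x1780002f00005fbb78bfc8497f7502fef5f) b58789 (.hit (nat_lit 208) (nat_lit 29) (nat_lit 0x1780002f00005fc0cebfd2f57f8a5aff20a) b58792 (.one (nat_lit 9) (nat_lit 206) (nat_lit 22) (nat_lit 0x1780002f00005fcfa6bff0a57fc5baff976) b58790 (.nil)))) (.nil)))) (.nil)))) (.tok (nat_lit 70) (nat_lit 0x1780002f0000600738c05fc980a4030153f) (.hit (nat_lit 187) (nat_lit 0) (nat_lit 0x1780002f00005fc94abfb3e97fe7dafea47) b58777 (.tok (nat_lit 3) (nat_lit 0x1780002f00005fd622bffd9d7fdfaaffcb4) (.hit (nat_lit 188) (nat_lit 1) (nat_lit 0x1780002f00005fa514bf9b817f1b72fe42d) b58778 (.one (nat_lit 67) (nat_lit 189) (nat_lit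 2) (nat_lit 0x1780002f00005fd622bffd9d7fdfaaffcb4) b58779 (.nil))) (.tok (nat_lit 6) (nat_lit 0x1780002f0000600738c05fc980a4030153f) (.hit (nat_lit 190) (nat_lit 7) (nat_lit 0x1780002f00005fb3cebfb8f57f565afeb8a) b58780 (.hit (nat_lit 193) (nat_lit 15) (nat_lit 0x1780002f00005fa13cbf93d17f0c12fe241) b58783 (.tok (nat_lit 55) (nat_lit 0x1780002f0000600738c05fc980a4030153f) (.hit (nat_lit 191) (nat_lit 8) (nat_lit 0x1780002f00005fcd18bfeb897fbb82ff82f) b58781 (.hit (nat_lit 194) (nat_lit 16) (nat_lit 0x1780002f00005fd4babffacd7fda0affc00) b58784 (.one (nat_lit 6) (nat_lit 192) (nat_lit 9) (nat_lit 0x1780002f0000600738c05fc980a4030153f) b58782 (.nil)))) (.nil)))) (.nil)))) (.nil))))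
noncomputable def r86_8 : Rw Blk := .tok (nat_lit 3) (nat_lit 0x1780002f000060362ec06eed80e4c3019f0) (.hit (nat_lit 15) (nat_lit 0) (nat_lit 0x1780002f00005fcf3cbfccd57f5b2aff08a) b58804 (.tok (nat_lit 6) (nat_lit 0x1780002f00005fb880bfa8257f5812fe2bc) (.hit (nat_lit 16) (nat_lit 7) (nat_lit 0x1780002f00005f8cd6bf50d17ea96afcce7) b58805 (.hit (nat_lit 21) (nat_lit 15) (nat_lit 0x1780002f00005f4b64becded7da3a2fac2e) b58808 (.tok (nat_lit 56) (nat_lit 0x1780002f00005fb880bfa8257f5812fe2bc) (.hit (nat_lit 19) (nat_lit 13) (nat_lit 0x1780002f00005fa424bf7f6d7f06a2fd88e) b58806 (.hit (nat_lit 24) (nat_lit 19) (nat_lit 0x1780002f00005f9456bf5fd17ec76afd0a7) b58810 (.one (nat_lit 6) (nat_lit 20) (nat_lit 14) (nat_lit 0x1780002f00005fb880bfa8257f5812fe2bc) b58807 (.nil)))) (.one (nat_lit 68) (nat_lit 23) (nat_lit 18) (nat_lit 0x1780002f00005f9d54bf71cd7eeb62fd526) b58809 (.nil))))) (.tok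 (nat_lit 52) (nat_lit 0x1780002f00005fb118bf99557f3a72fdf08) (.hit (nat_lit 25) (nat_lit 39) (nat_lit 0x1780002f00005fb118bf99557f3a72fdf08) b58811 (.hit (nat_lit 26) (nat_lit 40) (nat_lit 0x1780002f00005fa84abf87b97f173afdaa1) b58812 (.nil))) (.tok (nat_lit 55) (nat_lit 0x1780002f000060362ec06eed80e4c3019f0) (.hit (nat_lit 27) (nat_lit 41) (nat_lit 0x1780002f000060362ec06eed80e4c3019f0) b58813 (.one (nat_lit 3) (nat_lit 33) (nat_lit 47) (nat_lit 0x1780002f00005fbf62bfb5e97f739afe62d) b58819 (.tok (nat_lit 6) (nat_lit 0x1780002f00005fcc58bfcfd57fa772feca8) (.hit (nat_lit 28) (nat_lit 42) (nat_lit 0x1780002f00005fac02bf8f297f261afdc7d) b58814 (.hit (nat_lit 31) (nat_lit 45) (nat_lit 0x1780002f00005fa6debf84e17f118afd9eb) b58817 (.tok (nat_lit 55) (nat_lit 0x1780002f00005fcc58bfcfd57fa772feca8) (.hit (nat_lit 29) (nat_lit 43) (nat_lit 0x1780002f00005fcc58bfcfd57fa772feca8) b58815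 (.hit (nat_lit 32) (nat_lit 46) (nat_lit 0x1780002f00005fbeeabfb4f97f71bafe5f1) b58818 (.one (nat_lit 6) (nat_lit 30) (nat_lit 44) (nat_lit 0x1780002f00005faf24bf956d7f32a2fde0e) b58816 (.nil)))) (.nil)))) (.nil)))) (.one (nat_lit 58) (nat_lit 35) (nat_lit 49) (nat_lit 0x1780002f00005fc804bfc72d7f9622fea7e) b58820 (.nil)))))) (.tok (nat_lit 9) (nat_lit 0x1780002f0000605dbec08d3d812c330263f) (.hit (nat_lit 0) (nat_lit 0) (nat_lit 0x1780002f00005fe600bfe3897fcc6aff63c) b58793 (.tok (nat_lit 9) (nat_lit 0x1780002f00005fdd5abf8c517faec2fe0a1) (.hit (nat_lit 1) (nat_lit 20) (nat_lit 0x1780002f00005fd112bf8c517f563afe0a1) b58794 (.hit (nat_lit 4) (nat_lit 28) (nat_lit 0x1780002f00005fa150bf52757ebef2fcd50) b58795 (.one (nat_lit 56) (nat_lit 6) (nat_lit 31) (nat_lit 0x1780002f00005fdd5abf8be97faec2fde18) b58796 (.nil)))) (.tok (nat_lit 64) (nat_lit 0x1780002f0000600c9cbfe59d80591aff7ed)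 (.hit (nat_lit 7) (nat_lit 50) (nat_lit 0x1780002f0000600c9cbfe59d80591aff7ed) b58797 (.hit (nat_lit 8) (nat_lit 51) (nat_lit 0x1780002f00005fe1aabfc0497fa9cafe8c5) b58798 (.nil))) (.tok (nat_lit 67) (nat_lit 0x1780002f0000605dbec08d3d812c330263f) (.hit (nat_lit 9) (nat_lit 52) (nat_lit 0x1780002f0000605dbec08d3d812c330263f) b58799 (.one (nat_lit 3) (nat_lit 12) (nat_lit 58) (nat_lit 0x1780002f00005ffec6bff5057ffeeb00324) b58802 (.tok (nat_lit 9) (nat_lit 0x1780002f00006015f0bfe9398083d2ffbc3) (.hit (nat_lit 10) (nat_lit 53) (nat_lit 0x1780002f00006015f0bfe9398083d2ffbc3) b58800 (.hit (nat_lit 11) (nat_lit 56) (nat_lit 0x1780002f00005ff8febfd46580053afee1f) b58801 (.nil))) (.nil)))) (.one (nat_lit 70) (nat_lit 14) (nat_lit 60) (nat_lit 0x1780002f00005fceecbfb7157f75f2fe678) b58803 (.nil)))))) (.nil))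
noncomputable def r86_9 : Rw Blk := .tok (nat_lit 3) (nat_lit 0x5febfebf96ed7fa4a2fff525ffb68c00001800002ffdd3600000c00001800002ffd185ffec0c000017f1463000005fca44c000017ee7fb000005fe798bfff717f940afedcc5fe7fabfc8e17f8862ffbef5fe108bff20d7f915aff0bb5fe8dabffce17fb522ff57b600000c00001800003000005fece6bfcaf97fbdeaff3be600000c0000180000300000600000bfc7dd7f864aff35d5ff094bf9fa57f4b92ff17b5fdeccbfc5f17f92f2ff3c65fe840bf84297f675aff8185fe21abfa3f57f1b6afefc45fe8c4bfcd117f64aaff1625ff270bfd6557fccaaff5f65fecf4bfdcbd7fd84b00000600000bff6a5800002ff65b5fdc2cbfdc91800002ff98c5fd486bfafd97fa6d2ff6c1600000bfdf11800002ff500600000c0000180000300000600000bfe0197fd6e2ff71f5ff6b8bffb6d7fdceaff7545ff8e8bf836980000300000600000c009957fb35300000) (.hit (nat_lit 0) (nat_lit 0) (nat_lit 0x5fa2aabf28297e90aafe0e65fbed6bf693d7f0b42fdfaf5fd064bf86557f1892fdead5fc1f6bf86497ea52afe1da5fae74bf864d7e78bafe19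35fb5b2bf80dd7ede32fdafc5fb968bf6f9d7eda22fd7cc5f9bf8bf838d7e4ef2fd11d5fb6f4bf83317eed9afdbdf5fc328bf86557f0caafe1a45fbb08bf66997ece22fdacf5fce62bf8eb97f25fafdeaa5fb534bf69d57edddafdc775fb82ebf4da17ea7a2fd8345fab4abf5da97ec162fdf325fb946bf5b157ebc82fdd725fb35cbf46757e646afd84c5fb964bf6f957ecdeafdb8a5fc14cbf98f97ef12afd5095fbe86bf952d7f141afe1e05fbf68bf87b97f0f02fd8e05fa9f6bf78617eed92fe1575fab24bf564d7ef482fdfc75fd012bf7a197ef432fdc895fb1acbfad7d7edec2fe2845fbc2ebf60f57ee36afd9c85fb9dabf68757edfc2fd8e55fb0e8bf2a297f464afe6ed5fc284bf82717ec64afe2d3) b58821 (.tok (nat_lit 9) (nat_lit 0x5fa476bf1c6d7f6712fe80d5fcd32bf5c297f1e72fe6d45fcb0ebfa2797ef7eafe5db5fcfeabfa2b57e9132fe8ff5fa930bf9c517e6452fe8c15fc070bf97057f1e62fdeb85fc5a2bf89197f0b2afde995fa8e6bfb3c97e9e6afd89c5fbee4bf9c717f276afe3005fcba0bfa2657f4622fe8a55fc782bf832d7f1b4afe1fe5fcb8ebf9d457f0022ff0e15fd0febf5efd7ec7bafd9aa5fb464bf2aa57e46c2fe4435faeaabf65557ed0aafda0a5fb3acbf09057ea262fdaa65fadbebf3b917e51dafd5905fb35cbf64017eccdafd77f5fccbabf8bd57f12bafd1375fca12bf91ed7f41dafebdb5fdf84bfcd0d7f62aafd5235fb5c0bf8fc97f6322fea345f86e8bf0a8d7f17b2fe1c15fdca4bf9d297f598afe58c5fda14bf7edd7f666aff3b85fd9bebf91997f1cd2fe5d75fc834bf85257f20d2fe0255fbfc6bf2c797fac4aff5f75fe286bfaa757f3322fec18)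 (.hit (nat_lit 10) (nat_lit 20) (nat_lit 0x5f7bc4becb097eb9a2fd3b45fa480bf0ac57e7baafd27b5fa25cbf51157e5522fd1825fa738bf51517dee6afd4a65f807ebf4aed7dc18afd4685f97bebf45a17e7b9afca5f5f9cf0bf37b57e6862fca405f8034bf62657dfba2fc4435f9632bf4b0d7e84a2fcea75fa2eebf51017ea35afd44c5f9ed0bf31c97e7882fcda55fa2dcbf4be17e5d5afd78f5fa51abf0d997e24f2fc5515f8bb2bed9417da3fafcfea5f85f8bf13f17e2de2fc5b15f8afabeb7a17dff9afc64d5f850cbeea2d7daf12fc1375f8aaabf129d7e2a12fc3265f89c4bf29157dfa62fbcde5f7c30bf19197e3042fdd4e5fb784bf7b817eea82fc0ca5f714ebf06e57e99b2fcfb85f5e36beb9297dc9c2fbc3a5fb506bf50097e914afcf455fb04cbf2d797ec3b2fd52c5fb79ebf546d7e7a0afd17e5f9f82bf33c17e7e0afcbcc5f9714bebb7d7f0b3afe0505fb3c4bf6e617e7c12fdabb) b58822 (.hit (nat_lit 15) (nat_lit 28) (nat_lit 0x5f76e6bec14d7e5df2fd1455f9fa2bf01097e6832fd00c5f9d7ebf47597e41aafcf135fa25abf47957ddaf2fd2375f7ba0bf41317dae12fd1f95f92e0bf3be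57e6822fc7f05f9812bf2df97e54eafc7d15f7b56bf58a97de82afc1d45f9154bf41517e712afcc385f9e10bf47457e8fe2fd1dd5f99f2bf280d7e650afcb365f9dfebf42257e49e2fd81c5fa634bf03dd7e117afc2e25f86d4becf857d9082fcd7b5f811abf0a357e1a6afc3425f861cbeade57dec22fc3de5f802ebee0717d9b9afbec85f85ccbf08e17e169afc0b75fb790bf619d7ebdeafba6f5fb4d4bf677d7eed32fdf755fba94bf7e217efbb2fbe5b5fa062bf652d7e67dafdc865f5958beaf6d7ebc32fd6425fa4aabf3a0d7e6ddafd5fd5facd6bf23bd7ecbdafd2b15fb758bf56317e6692fcf0f5f9aa4bf2a057e6a92fc95d5f9236bf15b97f097afdee85fb550bf6dd17e94b2fd354) b58827 (.tok (nat_lit 14) (nat_lit 0x5fa1bcbf16f97f4902fe6b05fca78bf56b57f138afe5775fc854bf9d057eed02fe47e5fcd30bf9d417e864afe7a25fa676bf96dd7e596afe7645fbdb6bf91917f137afdd5b5fc2e8bf83a57f0042fdd3c5fa62cbfae557e9382fd73f5fbc2abf96fd7f1c82fe1a35fc8e6bf9cf17f3b3afe7485fc4c8bf7db97f1062fe0a15fc8d4bf97d17ef53afeb085fcba2bf59897ebcd2fd84d5fb1aabf25317e3bdafe2e65fabf0bf5fe17ec5c2fd8ad5fb0f2bf03917e977afd9495fab04bf361d7e46f2fd4335fb0a2bf5e8d7ec1f2fd6225fccbabf8bd57f12bafcfda5fca12bf91ed7f41dafe8da5fd07ebfcd0d7f5ffafd3c65fb5c0bf8fc97f6322fea345f842ebf05197f17b2fe1c15fdca4bf9d297f598afe58c5fda14bf79697f666aff3b85fd992bf8c457f11eafe47a5fc57abf7fb17f15eafdec85fbd0cbf2c797f839aff5f75fd368bfaa757ee522fec18)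 (.hit (nat_lit 11) (nat_lit 24) (nat_lit 0x5f88fcbee5797efa1afda505fb1b8bf25357eb08afd9175faf94bf6b857e8a02fd81e5fb470bf6bc17e234afdb425f8db6bf655d7df66afdb045fa4f6bf60117eb07afd0fb5faa28bf52257e9d42fd0dc5f8d6cbf7cd57e3082fcadf5fa36abf657d7eb982fd5435fb026bf6b717ed83afdae85fac08bf4c397ead62fd4415fb014bf66517e923afe3ba5fbb4cbf28097e59d2fcbed5f98eabef3b17dd8dafd6865f9330bf2e617e62c2fcc4d5f9832bed2117e347afcce95f9244bf049d7de3f2fc7d35f97e2bf2d0d7e5ef2fc9c25f95f8bf25f17e0dfafc37a5f7a9ebf15f57e6522fe1b35fc9fabf9fe57f0fa2fc7665f7e86bf21557f3c1afe5025f6b6ebed3997dc37afbb715fd2e8bf84317f1e62fdee85fc248bf47e97eec72fee775fc25abf76d57eaeeafd81a5facbabf4e317eb2eafd2685fa44cbed5ed7f68aafe9795fccccbf886d7ecffafe817) b58823 (.hit (nat_lit 16) (nat_lit 30) (nat_lit 0x5f8702bee1857ea792fd9535fafbebf21417ea8a2fd81a5fad9abf67917e821afd7215fb276bf67cd7e1b62fda455f8bbcbf61697dee82fda075fa2fcbf5c1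d7ea892fcffe5fa82ebf4e317e955afcfdf5f8b72bf78e17e289afc9e25fa170bf61897eb19afd4465fae2cbf677d7ed052fd9eb5faa0ebf48457ea57afd3445fae1abf625d7e8a52fdfd65fc2a6bf24157e51eafcaf05f96f0beefbd7dd0f2fd5895f9136bf2a6d7e5adafcb505f9638bece1d7e2c92fcbec5f904abf00a97ddc0afc6d65f95e8bf29197e570afc8c55fccbabf8bd57f12bafc27d5fca12bf91ed7f41dafe8da5fcd5cbfa3ad7f46d2fc6695fb5c0bf8fc97e5db2fe7315f6974becfa57f17b2fe1c15fa7d6bf2bb97e73c2fe0b85fbfaabf43f57f1d2afd52e5fca3abf7bf17ea702fd71d5faac0bf4a3d7eab02fd16b5fa252bf2c797f11c2fe68d5fc49abf76497ece62fdbc3) b58828 (.one (nat_lit 6) (nat_lit 12) (nat_lit 25) (nat_lit 0x5fa1bcbf16f97f4902fe6b05fca78bf56b57f138afe5775fc854bf9d057eed02fe47e5fcd30bf9d417e864afe7a25fa676bf96dd7e596afe7645fbdb6bf91917f137afdd5b5fc2e8bf83a57f0042fdd3c5fa62cbfae557e9382fd73f5fbc2abf96fd7f1c82fe1a35fc8e6bf9cf17f3b3afe7485fc4c8bf7db97f1062fe0a15fc8d4bf97d17ef53afeb085fcba2bf59897ebcd2fd84d5fb1aabf25317e3bdafe2e65fabf0bf5fe17ec5c2fd8ad5fb0f2bf03917e977afd9495fab04bf361d7e46f2fd4335fb0a2bf5e8d7ec1f2fd6225fb208bf799d7e9b72fcfda5fa474bf69a17ec822fe8275fd07ebfcd0d7f5ffafd3c65f9746bf52d57f6322fea345f842ebf05197e6ad2fd05c5fdca4bf9d297f598afe58c5fda14bf79697f666aff3b85fd992bf8c457f11eafe47a5fc57abf7fb17f15eafdec85fbd0cbf076d7f839aff5f75fd368bfaa757ee522fec18)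 b58824 (.nil)))) (.tok (nat_lit 68) (nat_lit 0x5fa476bf1c6d7f6712fe80d5fcd32bf5c297f1e72fe6d45fcb0ebfa2797ef7eafe5db5fcfeabfa2b57e9132fe8ff5fa930bf9c517e6452fe8c15fc070bf97057f1e62fdeb85fc5a2bf89197f0b2afde995fa8e6bfb3c97e9e6afd89c5fbee4bf9c717f276afe3005fcba0bfa2657f4622fe8a55fc782bf832d7f1b4afe1fe5fcb8ebf9d457f0022ff0e15fd0febf5efd7ec7bafd9aa5fb464bf2aa57e46c2fe4435faeaabf65557ed0aafda0a5fb3acbf09057ea262fdaa65fadbebf3b917e51dafd5905fb35cbf64017eccdafd77f5fbb12bf77a17eea02fd1375fbffcbf7dc17f073afebdb5fdf84bfca117f62aafd5235faba8bf7bc97f3e8afe39c5f86e8bf0a8d7ee85afdc665fd27cbf93c97f4342fe39a5fd166bf7edd7f4adafef805fd9bebf91997f1cd2fe5d75fc834bf85257f20d2fe0255fbfc6bf18497fac4aff5085fe286bf991d7f3322fe6bc) (.hit (nat_lit 13) (nat_lit 26) (nat_lit 0x5f9426befbcd7f0c22fdfe55fbce2bf3b897edd32fdeac5fbabebf81d97eb6aafddb35fbf9abf82157e4ff2fe0d75f98e0bf7bb17e2312fe0995fb020bf76657e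dd22fd6905fb552bf68797ec9eafd6715f9896bf93297e5d2afd0745fae94bf7bd17ee62afdad85fbb50bf81c57f04e2fe07d5fb732bf628d7eda0afd9d65fbb3ebf7ca57ebee2fe9595fcb0ebf3e5d7e867afd1825fa414bf0a057e0582fdc1b5f9e5abf44b57e8f6afd1e25fa35cbee8657e6122fd27e5f9d6ebf1af17e109afcd685fa30cbf43617e8b9afcf575faf46bf74197e906afc90f5fa1b2bf641d7eb4aafe8f85fcf08bfaaa97f47dafccfb5f9266bf49457f1c8afdef85f7698bee9ed7e5fcafcefb5fd27cbf882d7f2282fdfc05fca74bf5e3d7f23f2feb835fd08ebf78257edb92fddaf5fb7e4bf64857edf92fd7fd5faf76befa257f7b92feebc5fd7a0bf991d7efad2fe622) b58825 (.hit (nat_lit 18) (nat_lit 32) (nat_lit 0x5f8beebeeb5d7eb442fdbc95fb4aabf2b197ebc52fda905fb286bf71697e95cafd9975fb762bf71a57e2f12fdcbb5f90a8bf6b417e0232fdc7d5fa7e8bf65f57ebc42fd2745fad1abf58097ea90afd2555f905ebf82b97e3c4afcc585fa65cbf6b617ec54afd6bc5fb318bf71557ee402fdc615faefabf521d7eb92afd5ba5fb306bf6c357e9e02fe1505fba2ebf2ded7e659afcd665f9bdcbef9957de4a2fd7ff5f9622bf34457e6e8afcdc65f9b24bed7f57e4042fce625f9536bf0a817defbafc94c5f9ad4bf32f17e6abafcb3b5fbb12bf77a17eea02fc4f35fbffcbf7dc17f073afdef45fc056bf8b597f06d2fc8df5faba8bf7bc97ea70afe1ed5f6e60bed97d7ee85afdc665fb624bf4b317e9ebafdbae5fb380bf4dcd7eeb9afd5425fbe08bf5e7d7ebab2fd9935fafacbf54157ebeb2fd3e15fa73ebf18497f1d92fe8095fc78ebf7b997eda32fdc4c)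 b58829 (.one (nat_lit 9) (nat_lit 14) (nat_lit 27) (nat_lit 0x5fa476bf1c6d7f6712fe80d5fcd32bf5c297f1e72fe6d45fcb0ebfa2797ef7eafe5db5fcfeabfa2b57e9132fe8ff5fa930bf9c517e6452fe8c15fc070bf97057f1e62fdeb85fc5a2bf89197f0b2afde995fa8e6bfb3c97e9e6afd89c5fbee4bf9c717f276afe3005fcba0bfa2657f4622fe8a55fc782bf832d7f1b4afe1fe5fcb8ebf9d457f0022ff0e15fd0febf5efd7ec7bafd9aa5fb464bf2aa57e46c2fe4435faeaabf65557ed0aafda0a5fb3acbf09057ea262fdaa65fadbebf3b917e51dafd5905fb35cbf64017eccdafd77f5fb172bf5ce57e7be2fd1375f9618bf4ce97ed30afebdb5fdf84bfca117f62aafd5235f9a00bf58497f3e8afe39c5f86e8bf0a8d7e3162fc92e5fd0cabf93c97f4342fe39a5fd166bf7edd7f4adafef805fd9bebf91997f1cd2fe5d75fc834bf85257f20d2fe0255fbfc6bf0ce17fac4aff5085fe286bf8bd57f3322fe6bc) b58826 (.nil)))) (.nil))))) (.tok (nat_lit 64) (nat_lit 0x5f8ee2bef1457eeacafdd435fb79ebf31017ec822fdc0a5fb57abf77517ea19afdb115fba56bf778d7e3ae2fde355f939cb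f71297e0e02fddf75faadcbf6bdd7ec812fd3ee5fb00ebf5df17eb4dafd3cf5f9352bf88a17e481afcdd25fa950bf71497ed11afd8365fb60cbf773d7eefd2fdddb5fb1eebf58057ec4fafd7345fb5fabf721d7ea9d2feb665fd17abf33d57e716afcee05f9ed0beff7d7df072fd9795f9916bf3a2d7e7a5afcf405f9e18bedddd7e4c12fcfdc5f982abf10697dfb8afcac65f9dc8bf38d97e768afccb55fd106bf94a57f44cafc66d5fce30bf9a397f52c2fe65f5fc866bf9e9d7f32fafca595fb7ccbf940d7ef96afe8425f7154bedf657f1582fe1d25fd7e8bf86897f1bf2fe1b25fbd1ebf53b57f0ea2fe9065fc8eebf7ca17ec682fdb0d5fb2a0bf59fd7eca82fd55b5faa32bf43c57f6b7aff8d05fdbb8bfc4d97f248afe58d) (.hit (nat_lit 30) (nat_lit 50) (nat_lit 0x5f888ebee49d7e80d2fda195fb14abf24597eaed2fd8e05faf26bf6aa97e884afd7e75fb402bf6ae57e2192fdb0b5f8d48bf64817df4b2fdacd5fa488bf5f357eaec2fd0c45fa9babf51497e9b8afd0a55f8cfebf7bf97e2ecafcaa85fa2fcbf64a17eb7cafd50c5fafb8bf6a957ed682fdab15fab9abf4b5d7eabaafd40a5fafa6bf65757e9082fe24f5fbb2ebf272d7e581afcbb65f987cbef2d57dd722fd64f5f92c2bf2d857e610afcc165f97c4bed1357e32c2fccb25f91d6bf03c17de23afc79c5f9774bf2c317e5d3afc98b5fcc52bf8c757f0f72fc3435fc98cbf90e97f4032fcbe45f99ccbf4c9d7e711afc72f5fb538bf8ee57ec712fe6f85f6b00bed2bd7f0deafe1a35fd7e8bf7bd97f0d9afe0765f8b56bf470d7e2c62fe2285fa4dabf77797ead32fd7e35fac4cbf4d557eb132fd2315fa3debf38457f4f32ff8d05fc89abfc4d97eddd2fe551)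 b58830 (.hit (nat_lit 31) (nat_lit 51) (nat_lit 0x5f8ee2bef1457eeacafdd435fb79ebf31017ec822fdc0a5fb57abf77517ea19afdb115fba56bf778d7e3ae2fde355f939cbf71297e0e02fddf75faadcbf6bdd7ec812fd3ee5fb00ebf5df17eb4dafd3cf5f9352bf88a17e481afcdd25fa950bf71497ed11afd8365fb60cbf773d7eefd2fdddb5fb1eebf58057ec4fafd7345fb5fabf721d7ea9d2feb665fd17abf33d57e716afcee05f9ed0beff7d7df072fd9795f9916bf3a2d7e7a5afcf405f9e18bedddd7e4c12fcfdc5f982abf10697dfb8afcac65f9dc8bf38d97e768afccb55fd106bf94a57f44cafc66d5fce30bf9a397f52c2fe65f5fc866bf9e9d7f32fafca595fb7ccbf940d7ef96afe8425f7154bedf657f1582fe1d25fc6bebf86897f1bf2fe1b25fbd1ebf53b57f0ea2fe9065fc8eebf7ca17ec682fdb0d5fb2a0bf59fd7eca82fd55b5faa32bf43c57f6b7afef7a5fdbb8bfa0117f248afe58d) b58831 (.nil))) (.tok (nat_lit 67) (nat_lit 0x5febfebf96ed7fa4a2fff525ffb68c00001800002ffdd3600000c00001800002ffd185ffec0c000017f1463000005fca44c000017ee7fb000005fe798bf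ff717f940afedcc5fe7fabfc8e17f8862ffbef5fe108bff20d7f915aff0bb5fe8dabffce17fb522ff57b600000c00001800003000005fece6bfcaf97fbdeaff3be600000c0000180000300000600000bfc7dd7f864aff35d5ff094bf9fa57f4b92ff17b5fdeccbfc5f17f92f2ff3c65fe840bf84297f675aff8185fe21abfa3f57f1b6afefc45fe8c4bfcd117f64aaff1625ff270bfd6557fccaaff5f65fecf4bfdcbd7fd84b00000600000bff6a5800002ff65b5fdc2cbfdc91800002ff98c5fd486bfafd97f5d92febff600000bfdf11800002ff500600000c0000180000300000600000bfe0197fd6e2ff71f5ff6b8bffb6d7fdceaff7545ff8e8bf836980000300000600000c009957fb35300000) (.hit (nat_lit 32) (nat_lit 52) (nat_lit 0x5febfebf8aa17f95e2ff8af5fee5cbfcd697fb0eaff7795ff558bfe2097fac62ff6795ff18abfe5757f1462ff9a65fca44bfe1fd7ee7faff9615fdc5abfe26d7f7922fed555fe018bfbd257f7062ffbef5fe108bfdc717f66d2ff0bb5fdd9cbfdee17f883afef325ff2c0bfe2017fcb02ff9b85fe1d0bfb4297f76a2fee335fff6cbff6d57fdbeaffdc05fe7ccbfc7dd7f864aff35d5ff094bf9fa57f4b92ff17b5fdeccbfc5f17f92f2ff3c65fe840bf84297f675aff8185fe21abfa3f57f1b6afefc45fe8c4bfcd117f64aaff1625ff270bfd6557fccaaff5f65fecf4bfdcbd7fd84aff5f05fe8d6bfd7997fb4f2ff65b5fdc2cbfdc917ff7daff98c5fd486bfafd97f5d92febff600000bfdd4d800002ff5005fdfc6c000017f91aaffcb15fe9d8bfd56d7fa6d2ff71f5feab4bffb6d7fdceaff1775ff8e8bf83697fb3e2ff9145ff88cbfdbe57f8e5aff6b1)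 b58832 (.tok (nat_lit 3) (nat_lit 0x5fb020bf33c17fa4a2fede25fd8dcbf737d7f4d1afeca95fd6b8bfb9cd7f2692febb05fdb94bfba097ebfdafeed45fb4dabfb3a57e92fafee965fcc1abfae597f4d0afe48d5fd14cbfa06d7f39d2fe46e5fb490bfcb1d7ecd12fde715fca8ebfb3c57f5612fe8d55fd74abfb9b97f74cafee7a5fd32cbf9a817f49f2fe7d35fd738bfb4997f2ecb00000600000bf76517ef662fdf7f5fc00ebf41f97e756afea185fba54bf7ca97eff52fdfdf5fbf56bf20597ed10afe07b5fb968bf52e57e8082fdb655fbf06bf7b557efb82fdd545fc74ebfa4297ef08afd70c5fb9babf942d7f14cb00000600000bff6a5800002fdaf85faa6ebf79557ff8caff68f5f9292bf21e17ebfeafdaff5ff36abfcb757fda7aff0e3600000bf963180000300000600000bfe0197f4b7afebac5fd3debf9c797f4f7afe5fa5fcb70bf2a357fcf52ffc305ffb42bfd25d7f9f0aff8df) (.hit (nat_lit 38) (nat_lit 58) (nat_lit 0x5fa0d2bf15257f4102fe63b5fc98ebf54e17f0fe2fe5025fc76abf9b317ee95afe4095fcc46bf9b6d7e82a2fe72d5fa58cbf95097e55c2fe6ef5fbcccbf8fbd7f0fd2fdce65f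c1febf81d17efc9afdcc75fa542bfac817e8fdafd6ca5fbb40bf95297f18dafe12e5fc7fcbf9b1d7f3792fe6d35fc3debf7be57f0cbafe02c5fc7eabf95fd7ef192ff8035fe7debf57b57eb92afd7d85fb0c0bf235d7e3832fe2715fab06bf5e0d7ec21afd8385fb008bf01bd7e93d2fd8d45faa1abf34497e434afd3be5fafb8bf5cb97ebe4afd5ad5fb84cbf86257eb482fcf655faab8bf76297ed8c2ff16c5fe07cbfcdd57f8b62fd3515f9b6cbf5b517f9d3afea275f8344bf03457e83e2fd37e5fe97ebfb0c97f845afe9585fd7e4bf77957f6732ff47c5fe1c2bfa7397f0e42fe4055fc490bf7ddd7f1242fde535fbc22bf0c317fae3affb605ff4f2bfd25d7f894aff0f0) b58838 (.one (nat_lit 55) (nat_lit 39) (nat_lit 59) (nat_lit 0x5fb020bf33c17fa4a2fede25fd8dcbf737d7f4d1afeca95fd6b8bfb9cd7f2692febb05fdb94bfba097ebfdafeed45fb4dabfb3a57e92fafee965fcc1abfae597f4d0afe48d5fd14cbfa06d7f39d2fe46e5fb490bfcb1d7ecd12fde715fca8ebfb3c57f5612fe8d55fd74abfb9b97f74cafee7a5fd32cbf9a817f49f2fe7d35fd738bfb4997f2ecb00000600000bf76517ef662fdf7f5fc00ebf41f97e756afea185fba54bf7ca97eff52fdfdf5fbf56bf20597ed10afe07b5fb968bf52e57e8082fdb655fbf06bf7b557efb82fdd545fc74ebfa4297ef08afd70c5fb9babf942d7f14cb00000600000bff6a5800002fdaf85faa6ebf79557ff8caff68f5f9292bf21e17ebfeafdaff5ff36abfcb757fda7aff0e3600000bf963180000300000600000bfe0197f4b7afebac5fd3debf9c797f4f7afe5fa5fcb70bf2a357fcf52ffc305ffb42bfc72d7f9f0aff8df)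 b58839 (.nil))) (.tok (nat_lit 9) (nat_lit 0x5fd296bf96ed7f6952fff525ffb68c00001800002ffdd3600000c00001800002ffd185ffec0c000017ef7e3000005fc2dcc000017ecb03000005fe798bfff717f940afedcc5fe7fabfc8e17f8862ff5c35fd3b0bff20d7f915afed015fe8dabffce17fb522ff57b600000c00001800003000005fece6bfcaf97fbdeaff3be600000c00001800002fff365ff27cbf92557f2e6afe6805fce10bf5dfd7ead72ff1195fc856bf98ad7f375afe6e05fcd58bf3c5d7f0912fe77c5fc76abf6ee97eb88afe2665fcd08bf97597f338afe4555fcb1ebfa3c57eefc2fde0d5fb988bf93c97f39baff6bd5fe9e8bfd9a57fb7a2fe1f95fb3acbf8ba1800002ff2845fa094bf3de57ebf22fdae65ffc32bfdf117fbf1afef1d5fea50bfb2357fbe32ffeb95feaa4bfb0f57fd6e2ff2ad5ff6b8bfe1357fbaaaff7545ff640bf403980000300000600000c009957fb35300000) (.hit (nat_lit 33) (nat_lit 53) (nat_lit 0x5fb64cbf57317f27caff4c15fe68cbfba297fa24aff38a5ff3b8bfcd697f8bf2ff2885fe9acbfd6397eabdaff5d65fafdabfcda97e7efaff58f5fda6ebfd2dd7f67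6afe8eb5fdb7cbfb5197f5962feba15fc08abfc1f17f2c02fe59f5fd98ebfca497f808afee3c5feadabfcd557fab72ff5765fdfd8bfb0397f758afed375fecf4bfe6c17fd60aff7aa5fe670bf6c517ee262fdcff5fbb0ebf37f97e616afe7985fb554bf72a97eeb52fdd5f5fba56bf16597ebd0afddfb5fb468bf48e57e6c82fd8e55fba06bf71557ee782fdad45fbd1ebf8fc97ec7cafd48c5faf8abf7fcd7eedb2fe75a5fd6e4bfbe217f3bf2fd8785fa0aabf659d7fa952fec0e5f8d92bf17e17e972afd5e75ffc32bfb2917fa95afea195fc0c8bf8c317f16c2ff8de5fd22abfa5a97f8392fea725fe1e4bfb8897f72eafecea5fdbd4bf1a357ff622ffafc5ff250bfe4797f80a2ff6a0) b58833 (.hit (nat_lit 36) (nat_lit 56) (nat_lit 0x5fa184bf16897f1f6afe6945fca40bf56457f12aafe55b5fc81cbf9c957eec22fe4625fccf8bf9cd17e856afe7865fa63ebf966d7e588afe7485fbd7ebf91217f129afdd3f5fc2b0bf83357eff62fdd205fa5f4bfade57e92a2fd7235fbbf2bf968d7f1ba2fe1875fc8aebf9c817f3a5afe72c5fc490bf7d497f0f82fe0855fc89cbf97617ef45aff0e85fe3febf59197ebbf2fd8315fb172bf24c17e3afafe2ca5fabb8bf5f717ec4e2fd8915fb0babf03217e969afd92d5faaccbf35ad7e4612fd4175fb06abf5e1d7ec112fd6065fae80bf5d697e701afcfbe5f965abf4d6d7ec742fefd55fda94bfc4f17f7e42fd3aa5f970ebf52657fc9bafe9195f83f6bf04a97e326afc94f5fddacbfaa6d7f9efafe9115fd8f2bf78f97f5232feecf5fd9fcbf97bd7f110afe45e5fc542bf7f417f150afdeac5fbcd4bf06fd7fa2c2ff4125fe250bfaefd7f374aff315)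 b58836 (.tok (nat_lit 67) (nat_lit 0x5fd296bf96ed7f6952fff525ffb68c00001800002ffdd3600000c00001800002ffd185ffec0c000017ef7e3000005fc2dcc000017ecb03000005fe798bfff717f940afedcc5fe7fabfc8e17f8862ff5c35fd3b0bff20d7f915afed015fe8dabffce17fb522ff57b600000c00001800003000005fece6bfcaf97fbdeaff3be600000c00001800002fff365ff27cbf92557f2e6afe6805fce10bf5dfd7ead72ff1195fc856bf98ad7f375afe6e05fcd58bf3c5d7f0912fe77c5fc76abf6ee97eb88afe2665fcd08bf97597f338afe4555fcb1ebfa3c57eefc2fde0d5fb988bf93c97f39baff6bd5fe9e8bfd9a57fb7a2fe1f95fb3acbf8ba1800002ff2845fa094bf3de57ebf22fdae65fdedcbfdf117fbf1afef1d5fea50bfb2357fbe32ffeb95feaa4bfb0f57fd6e2ff2ad5ff6b8bfe1357fbaaaff7545ff640bf403980000300000600000c009957fb35300000) (.hit (nat_lit 34) (nat_lit 54) (nat_lit 0x5fd296bf96ed7f2f7afff525ffb68c00001800002ffdd3600000c00001800002ffd185ffec0c000017ef7e3000005fc2dcc000017ecb03000005fe798bfff717f940afedcc5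fe7fabfc8e17f8862ff5c35fd3b0bff20d7f915afed015fe8dabffce17fb522ff57b600000c00001800003000005fece6bfcaf97fbdeaff3be600000c00001800002fff365fed68bf92557f2e6afe6805fce10bf5dfd7ead72ff1195fc856bf98ad7f375afe6e05fcd58bf3c5d7f0912fe77c5fc76abf6ee97eb88afe2665fcd08bf97597f338afe4555fcb1ebfa3c57eefc2fde0d5fb988bf93c97f39bafefdf5fe9e8bfd9a57f8072fe1f95fb3acbf8ba17fd59aff2845fa094bf3de57ebf22fdae65fda6cbfa9257fae2afe8075fc89ebfb2357f35c2ffeb95fde06bfa4e17fd6e2ff2ad5ff6b8bfe1357fbaaaff7545ff640bf403980000300000600000c009957fb35300000) b58834 (.hit (nat_lit 37) (nat_lit 57) (nat_lit 0x5fb698bf40b17f6952ff11e5fdf54bf806d7f66fafefe55fdd30bfc6bd7f4072feeec5fe20cbfc6f97ed9baff2105fbb52bfc0957eacdaff1d25fd292bfbb497f66eafe7c95fd7c4bfad5d7f53b2fe7aa5fbb08bfd80d7ee6f2fe1ad5fd106bfc0b57f6ff2fec115fddc2bfc6a97f8eaaff1b65fd9a4bfa7717f63d2feb0f5fddb0bfc1897f48aaffb4d5ff27cbf83417f1042fe2bb5fc686bf4ee97e8f4afed545fc0ccbf89997f1932fe31b5fc5cebf2d497eeaeafe3b75fbfe0bf5fd57e9a62fdea15fc57ebf88457f1562fe0905fc394bf7e257ec46afda485fa79ebf6e297f1b92ff6bd5fe9ccbfcce17fb7a2fde345fac22bf7c8d800002ff1f75f990abf2ed17e73e2fd17e5fdedcbfb4b97fbe22fef1d5fea50bfa3217fbe32ff9595feaa4bfb0f57f655afeee85fda56bfa9697f695afe9365fd1e8bf31257fb6daff7445ffdf0bfcb657faa7aff596)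 b58837 (.one (nat_lit 9) (nat_lit 35) (nat_lit 55) (nat_lit 0x5fb36abf3a557f2842fef875fdc26bf7a117f5a42fee4e5fda02bfc0617f33bafed555fdedebfc09d7ecd02ff0795fb824bfba397ea022ff03b5fcf64bfb4ed7f5a32fe6325fd496bfa7017f46fafe6135fb7dabfd1b17eda3afe0165fcdd8bfba597f633afea7a5fda94bfc04d7f81f2ff01f5fd676bfa1157f571afe9785fda82bfbb2d7f3bf2ff4205fd89ebf7ce57f038afe1245fc358bf488d7e8292febbd5fbd9ebf833d7f0c7afe1845fc2a0bf26ed7ede32fe2205fbcb2bf59797e8daafdd0a5fc250bf81e97f08aafdef95fc066bf58f57eb7b2fd8b15fa470bf61c97f0edafe1525fc4a4bfa2557f1c8afdc9d5fa8f4bf76317fd2c2fef5c5f95dcbf28757e464afcae65fd9a2bfdf117fbf1afeca85fb632bf9cc57ed7d2ff7f25fd370bfaa4d7f58a2fed515fd728bfa30d7f5ca2fe79f5fcebabf2ac97fc112ffdaa5ff876bff5e97f8d9affb03) b58835 (.nil)))) (.nil)))) (.nil)))) (.one (nat_lit 70) (nat_lit 40) (nat_lit 60) (nat_lit 0x5f9f42bf12057f20aafe5735fc7febf51c17f09a2fe43a5fc5dabf98117ee31a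fe3415fcab6bf984d7e7c62fe6655fa3fcbf91e97e4f82fe6275fbb3cbf8c9d7f0992fdc1e5fc06ebf7eb17ef65afdbff5fa3b2bfa9617e899afd6025fb9b0bf92097f129afe0665fc66cbf97fd7f3152fe60b5fc24ebf78c57f067afdf645fc65abf92dd7eeb52ff91a5fe9b8bf54957eb2eafd7105faf30bf203d7e31f2fe1a95fa976bf5aed7ebbdafd7705fae78befe9d7e8d92fd80c5fa88abf31297e3d0afd2f65fae28bf59997eb80afd4e55fef5cbfd1dd7f9ceafce9d5fec9abfd70d7fcc6aff27e5fe0a6bfcf197f93f2fd2895fd636bfd0e17f637aff7775f81b4bf00257fa6d2ff6c15fe872bfae717f81c2ff0e75fd55cbf74757f703aff2105fe12cbfb9797f0802fe33d5fc300bf7abd7f0c02fdd8b5fba92bf80997fd922ffdb65ff722bfd8457f920aff58c) b58840 (.nil)))))) (.tok (nat_lit 6) (nat_lit 0x600000c0000180000300000600000bf84d57f6283000005fe4bcbffd717f58db00000600000bfc4bd800002ff256600000bfbe6d800002ff20e600000c0000180000300000600000c0000180000300000600000c0000180000300000600000c00001800003000005fede0bfdd417fbbbaff777600000c00001800003000005fde6abfbf4d7f5a32fdfd95fd94ac0000180000300000600000c0000180000300000600000c0000180000300000600000c0000180000300000600000c0000180000300000600000c0000180000300000600000c0000180000300000600000c00001800002ffc9c5ffba2c000017fe93b00000600000c000017fb71b00000600000c0000180060b000005feb3ac000017fd67b000a65fe230bfcbc97f9c32ff0ab5fef36c0000180000300000600000c0000180000300000600000c000017f945aff2175fc69abfc7ed800002ff808)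 (.hit (nat_lit 81) (nat_lit 0) (nat_lit 0x5fcb34bf92717eef9aff07f5fdfccbf84d57f418aff02a5fe4bcbfc3657f58dafef285fe2ecbfc1d57ee97aff2565fbf84bfbdb57ebcfaff20e5fd11cbfa2b17f6262feaef5fda68bfb1b57f5d42fe8435fce16bfaa2d7f2bc2feade5fd216bf99197f71d2fec655fdca0bfc1e57f908aff2115fda1cbfa9817f474afeb545fde6abfb2cd7f5a32fd65b5fc5acbf95f57f35cafe77f5fd000bfa7c17f5bdafeb935fcfd2bf9cb57f3f52febc55fcf56bf8f857f10aafe87a5fc6c8bf6d4d7eb21afe2025fd324bf9bb57f23cafe7f65fd614bfa3b17f368afea345fd352bfa4bd7f674aff0ec5fea30bfbae57f83bafec1f5fc87ebfb4397f0822fe9215fcc1cbf983d7f3ddafe6e05fc97cbf8c4d7f1472fec365fcadcbfcbc97f17eafedcf5fd156bf89917fa242feeb25fe24cbfb4057f46f2fee455fd3febf62a17f2a3afe4c75fb0c8bf8cbd7ee342fe1bf) b58841 (.tok (nat_lit 6) (nat_lit 0x600000c0000180000300000600000bf7e317f6283000005fdc12bffd717f3bfb00000600000bfc4bd800002ff181600000bfbe6d800002ff143600000c0000180000300000600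000c0000180000300000600000c0000180000300000600000c00001800003000005fede0bfdd417fbbbaff777600000c00001800003000005fdc92bfbf4d7f4432fdfd95fd94ac0000180000300000600000c0000180000300000600000c0000180000300000600000c0000180000300000600000c0000180000300000600000c0000180000300000600000c0000180000300000600000c00001800002ffc9c5ffba2c000017fe93b00000600000c000017fb71b00000600000c0000180060b000005feb3ac000017fd67b000a65fe230bfa0e57f9c32ff0ab5fef36c0000180000300000600000c0000180000300000600000c000017f945aff2175fc69abfc7ed800002ff808) (.hit (nat_lit 87) (nat_lit 7) (nat_lit 0x5fb7a4bf628d7eb01afdfad5fbc64bf378d7ed53afde815fb8c0bf90997eaeb2fdd745fbf34bf7e197eebc2fdfd85fba1abf77b57eab1afdf9a5fb57abf9e817ed52afd90b5fb642bf6ff17ed212fe4b35fc4e0bf8f2d7f12a2fe2ed5fb3cebf990d7ee1a2fdc105fb952bf7dc97efceafdf7e5fbe4cbf78597ee602fdee65fb940bf78a97eb6eafce305fb220bf6fa17ee51afdbb65fb9c8bf712d7eea62fdd545fb632bf70017ede9afdb395fb7babf71317ed422fda345fb226bf483d7e80cafd7595fb42abf65717ed3eafd9705fb6b2bf56017eb90afdbb55fb3eebf694d7ed742fdf715fc572bf92b97f0ea2fde825fae6ebf7a957e781afdaba5fc618bf7f8d7eed2afdcc85fa24cbf45ed7e7822fdcaa5faf2cbf5a417ed02afd60e5fb9aabf5d297ef6eafe4255fd22ebf8b057f1952fe4c65fc35abf6cf97ef43afde075fa348bf72cd7ea202fda3d)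 b58842 (.hit (nat_lit 95) (nat_lit 15) (nat_lit 0x5f9c6cbef88d7e986afc8035f8d10bec8bd7df79afc6cc5f8158bf22c97dd112fc5ca5f9030bf0f497e61fafc4245f9daabf08e57e3592fc3e65f80debf2f817e0b02fc28d5f8488bf05f17e0782fd46c5f921cbf32717e28b2fccb55f8220bf33657e1a5afc17b5f8ab8bf15757e2aeafc55d5f8478bef9817df472fbf875f81d8bf09d97dd94afc34f5fa9e8bf3b6d7e813afd0db5fa012bf2fb57e6bc2fcd905f9a12bf3cc97e7f9afd7525fa538bf38a57e5c42fd6b65f9c24bf18057e078afccb05fa49abf41257e763afd09b5fb4d0bf3b997eb252fd9325fae7abf5d757ee022fe0dd5fbf50bf7af97f0152fd84c5fa042bf4b697e3fa2fd4c65fa198bf3ef17e9c1afcb7b5f9f34bf219d7e6bf2fcfe55fa9b8beeb717ec792fd1875fb434bf4ff97eca72fd3ac5fb39cbf5bf97e99b2fd5c65fa92cbf187d7eb452fd6165f8e54bf57e97e5fbafd384) b58847 (.tok (nat_lit 14) (nat_lit 0x600000c0000180000300000600000bf6d3d7f409b000005fd398bffd717f1a1300000600000bfbe91800002feff9600000bfbe6d800002fefb2600000c0000180000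300000600000c0000180000300000600000c0000180000300000600000c00001800003000005fede0bfdd417fbbbaff777600000c00001800003000005fd418bfae597f224afdb9c5fd94ac0000180000300000600000c0000180000300000600000c0000180000300000600000c000017fd87b000005ff9f8c0000180000300000600000c0000180000300000600000c0000180000300000600000c00001800002ffc9c5ffba2c000017fe93b00000600000c000017fb71b00000600000c0000180060b000005feb3ac000017fd67b000a65fe230bf8ff17f9c32fe9125fef36c0000180000300000600000c0000180000300000600000c000017f5f9afeb735fbe20bfa531800002ff808) (.hit (nat_lit 91) (nat_lit 11) (nat_lit 0x5ff958bfeed17ff573000005ffb76bf4a897efb32ffd365fc23ebffd717ed4aaffc355ffd1cbfab19800002feb0e5ffbcebfab2d800002feac7600000bfe9917fe96affd605fff3ac000017feca2ff9b95fec72bfdb057fb36aff83b5ff1f6bfe8c57fec2b000005fe516bfca317f9462ff28c600000bff2557fdab2ffd975fc2bebf8ba57edce2fd52c5fd908bff3217ff302ffe685ffdf4bff4f97ff47affe915ff8aebff9a17ff78afff9c5ffd20bff7617fd87b000005ff738c00001800003000005ff8a4bfee917fe0e2ffa455ff9babfdc8d7fb932ff97d5ff0cebfe04d7fd8a2ff97c5ff1d4bfdcdd7fcc2affbb2600000bff09d7fa4a2ffc2e5ff0bcbfe17d7fcdbaff8b45fe3a8bfc3117f8d62ffc185fd614bf6d3d7f6bcafe9125fe0a6c000017fcb02ff9b05ff4dabfe9817fde82ff83e5ff4f2c000017f433afe7f35fb20ebf9f5d7fa502ff5e8)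 b58843 (.hit (nat_lit 97) (nat_lit 17) (nat_lit 0x5fd564bf67257f98cafe4985fc638bf0f4d7e84bafe3525fa4a0bf95257e5e32fe2505fc944bf67a97f6d0afda325fe06ebf67ad7f40a2fd9f45fb9dabfa2057eef5afe0685fbdc6bf79f17ef1f2ff0ed5fcadabfa4457f0d6afe8e85fbb1cbfa5e57efe52fde2f5fc3ecbf88397f0fbafe21a5fbd70bf6b8d7ecccafdc035fa520bf50697e666afd4115fc81abfaad97f5f82fecb65fcf3ebf89f57f2042fe4205fc93ebf9d257f3c4afede25fd9d2bfa1557f3a9afef905fd3dabf87717ee662fe88b5fdb2cbfb0917f4502feb785fe7ccbfa02d7f6012fefad5fd8acbfb3b57f858aff1445fde82bfb6a57f6b12ff0b95fd128bfadd17e9c7afec0c5fd3c4bfa1157f744afe4f25fa4e0bf30ed7e690afeccb5fc588bf32017f3752fdcbf5fcfaabf94857fa40afefd15fea02bfcde97f7c2aff0f95fe210bf82417f3a62fe6d85fafd8bf9af17f2692fe446) b58848 (.one (nat_lit 9) (nat_lit 92) (nat_lit 12) (nat_lit 0x600000c00001800002ffd74600000bf6d3d7f409b000005fd398bff4dd7f1a1300000600000bfbe917fcf3afeff9600000bfbe6d7fb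1e2fefb25ff390c0000180000300000600000bfff7d80000300000600000c0000180000300000600000c00001800002fff295fede0bfdd417fbbbaff7775fefaec00001800003000005fd418bfae597f224afdb9c5fd94ac0000180000300000600000c0000180000300000600000c0000180000300000600000c000017fd752ffed65ff9f8bfd6d17fb50affb7a600000c0000180000300000600000c0000180000300000600000c00001800002ffc9c5ffba2c000017fe93b000005ff26cc000017fb71b00000600000c0000180060b000005feb3ac000017fd67b000a65fe230bf8ff17f9c32fe70b5fef36bfdd3d80000300000600000c0000180000300000600000bff1c97f5f9afeb735fbe20bfa531800002ff808) b58844 (.nil)))) (.tok (nat_lit 56) (nat_lit 0x5feac4bfdb957f81caff8a65fee52bf7e317f6282ff7695fdc12bfe6f97f3bfaff66b5ff16ebfc4bd7fe84aff1815ff6c2bfbe597fa5caff1435fe172bfd2357f93caff27c5fe95abfcb097f996aff4cd5fdc96bfd5d17f734aff0cf5fdde8bfcc357facf2ff44b5fdca4bfc46d7f8a32ff1275fed6ebfd0797fadfaff7d95fdc92bfbf4d7f4432fdfd95fc9a6bff3917ff15afff095fe2d2bfbf797f8beaff1925fdd14bfc4f57f8bbaffd125ffe2ebfd9e9800002ffff8600000bfd0ad7f96aaffc5c5ff376bfe2ad7f9372ff7b75fda6abfb07d7f62a2febd35fd7a8bfaf257f78a2ff6985fec16bfd1817fb43aff74e5fde5cbfe0d97f92faff4e95fe230bfc9f57f984aff36c5fdd68bfb54d7f5e82ff24c5fd0aabfa0e57f561afe8ed5fdb3cbfe7f17fbebaff82d5ff1c0bfe0417f9e2aff4655fe9eebfd3c57f945aff2175fc69abfc7ed7f4162ff360)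 (.hit (nat_lit 93) (nat_lit 13) (nat_lit 0x5feac4bfbdd97f7c5aff8a65fee52bf72797f4b12ff7695fd636bfe6f97f248aff66b5ff16ebfb9057f8552fee935fedfebfb2a17f49bafee555fe172bfd2357f93caff27c5fe95abfcb097f996aff4cd5fdc96bfca197f734aff0cf5fdde8bfcc357facf2ff44b5fd754bfb8b57f72c2fee395fed6ebfd0797fadfaff7d95fd6b6bfb3957f2cc2fdf275fc3debfc4317f924aff30f5fe2d2bfbf797f8beaff1925fdd14bfc4f57f8bbaff5665fe678bfc0fd7f6dcaff4285fe08abfa0d17f2462fef295fe792bfc9f17f8492ff1c05fda6abfb07d7f62a2febd35fd7a8bfaf257f78a2ff1795fe32ebfbeb17f8b5aff3bd5fd734bfd2a57f593aff30e5fdc8ebfbc097f7df2fefbb5fdaacbf9ad97f484afede75fc614bf952d7f2bcafe6f85fd0a6bfb1cd7fbebaff82d5ff1c0bfe0417f9e2aff4655fe9eebfb8e17f9312ff1ee5fc604bfc7497f2d4aff08a) b58845 (.hit (nat_lit 99) (nat_lit 19) (nat_lit 0x5fc63abf4c397ee58afdd0e5fb724bf195d7e98dafdbbd5fa9a8bf77757e7252fdac15fba34bf5fe97f0282fd84c5fcdfebf59857edae2fd80e5faab8bf749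57eb372fd9e75faf6ebf5d117eb932fe95a5fbbbcbf86017ed162fe15c5fabf2bf78397ec1aafd6df5fb4c2bf6c3d7ed35afdb665fae46bf4da17e95b2fd46e5faa28bf5a797e7a8afd4555fb444bf86f97f17c2fe3bf5fc014bf6ba17ee39afdc8b5fba14bf7e117effa2fe5135fc7f8bf7d657ef35afe6af5fc1e8bf638d7e9e92fdf935fc914bf8cb17efccafe2945fcd70bf7f357f1a22fe8145fc796bf916d7f424afeab75fd046bf9bb57f3c22fe7d65fbf70bf88597e952afe2425fc024bf7ccd7f1fc2fdbc05fa666bf3dd17e8c12fdfc55fb9f4bf3c117f08cafdccd5fc416bf70857f48aafe83d5fd328bfaf957f3faafe5945fd2e6bf515d7f3c82fe71c5fb060bf9c017ebc92fe48a) b58850 (.one (nat_lit 6) (nat_lit 94) (nat_lit 14) (nat_lit 0x5fd6eabfdb957f81caff08f5fde36bf7e317f6282fef565fdc12bfc4817f3bfafee5d5fe0eebfc4bd7fe84aff1815ff6c2bfbe597fa5caff1435fd174bfb90d7f6272fe73a5fd6a6bfab217f4f3aff1825fd690bfd5d17f2ca2fec9f5fcfe8bfbe797f6b7afeb825fdca4bfc46d7f8a32ff1275fd886bfa5357f5f5afea805fdc92bfbf4d7f4432fdfd95fc9a6bff3917ff15afff095fda5cbf9de17f481afecc55fd45cbfb15d7f68c2ffd125ffe2ebfd9e9800002ffff8600000bfd0ad7f96aaffc5c5ff376bfe2ad7f9372ff7b75fd168bfab217f23dafe7545fcea6bf9d897f549aff6985fec16bfd1817fb43aff74e5fde5cbfe0d97f92faff4e95fe230bfc9f57f984aff36c5fdd68bfb54d7f5e82ff24c5fd0aabfa0e57f561afe8ed5fdb3cbfe7f17fb1b2ff4555fed6cbfd1617f7ec2ff09e5fe396bfd3c57f945aff2175fc69abfc7ed7f4162ff360)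 b58846 (.nil)))) (.one (nat_lit 68) (nat_lit 98) (nat_lit 18) (nat_lit 0x5fc59abf4e357f24aafdd985fb838bf1db17ea182fdc525fabd2bf79257e7afafdb505fbb44bf643d7f120afd9615fc9aebf5dd97ee5a2fd9235fabdabf86057eb752fda975fafacbf5ca17eba12fea315fbcf2bf884d7ed592fe1fe5fad1cbf89e57ec64afd72e5fb5ecbf6c397ed7bafdb585faf70bf4f897e9e5afd5035fac52bf5ecd7e8332fd13a5fc6c6bf7d597f0482fe1565fc13ebf6df57ee842fdd205fbb3ebf7f217f044afe3025fc3c2bf75b57ee092fe44d5fbd1abf59f17e8b62fdd2b5fc476bf83117eee8afe0345fcffcbf8fd57f1bcafefda5fccbcbf9dcd7f4b5aff0f65fe7f0bfc2517f6572fe9e25fc36cbf7bad7ee9cafe4225fc688bf87057ef482fdc5e5fc6c6bf76517eea52fe1af5fc420bf40657f3d8aff0ab5fce3ebf85717f6c0afe9085fdc02bfb1e97f6a3afe9f95fd51abf67157f23aafe4015faa2abf8f957ed882fe56d) b58849 (.nil)))))) (.nil))) (.nil))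
noncomputable def r86_10 : Rw Blk := .tok (nat_lit 9) (nat_lit 0xbc0001780002ff3725fcefcbf90c58043baff8c95ff3eebfdf917f6bcafe6c05fe918bfcd7d7f74f2ffca7) (.hit (nat_lit 0) (nat_lit 0) (nat_lit 0xbc0001780002fdc025fae6ebf42a17f4602fe4fe5fc6d2bf92e17edbe2fd0a65fb65cbf64c17e93e2fe214) b58851 (.tok (nat_lit 14) (nat_lit 0xbc0001780002fe7c95fc010bf7a717fca52ff4635fe286bfcd497f3e6afdb0f5fce6abfa6cd7f2d12ff3bd) (.hit (nat_lit 11) (nat_lit 61) (nat_lit 0xbc0001780002fe7c95fbd28bf60457f95bafea495fd414bfa4e17f1bbafd80c5fc51abf78517ec9e2ff021) b58852 (.one (nat_lit 3) (nat_lit 12) (nat_lit 62) (nat_lit 0xbc0001780002fe6345fa9f8bf39e57f4b42fe0905fc69abf7e817ecefafce745fb1eabf51197e788afe1d4) b58853 (.tok (nat_lit 6) (nat_lit 0xbc0001780002fe44a5fc010bf7a717fca52ff4635fe286bfcd497f3e6afdb0f5fce6abfa6cd7f2d12ff3bd) (.hit (nat_lit 15) (nat_lit 65) (nat_lit 0xbc0001780002fe44a5fc010bf7a717fca52ff4635fe286bfcd497f3e6afdb0f5fce6abfa6cd7f2d12ff3bd)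 b58856 (.hit (nat_lit 16) (nat_lit 66) (nat_lit 0xbc0001780002fdecf5fbb8cbf5d0d7f5822fe8ac5fce9cbfa1a97f154afd73e5fc37ebf6f617ebc1afe4e5) b58857 (.nil))) (.tok (nat_lit 9) (nat_lit 0xbc0001780002fdd685fbba0bf5d357f7452fe8b65fd17cbfa1d17f159afd7485fc392bf6f897ebc6afe7b6) (.hit (nat_lit 13) (nat_lit 63) (nat_lit 0xbc0001780002fd32e5fbba0bf5d357f56b2fe8b65fceb0bfa1d17f159afd7485fc392bf6f897ebc6afde05) b58854 (.hit (nat_lit 14) (nat_lit 64) (nat_lit 0xbc0001780002fdd685fb824bf563d7f7452fe73f5fd17cbf9ad97f07aafd58a5fc016bf68a97eae7afe7b6) b58855 (.nil))) (.nil))))) (.one (nat_lit 17) (nat_lit 17) (nat_lit 67) (nat_lit 0xbc0001780002fdc2e5f94d6bf0fa17f059afd67d5fac50bf543d7e7a72fc3e35f9cc8bf27397e2552fdf86) b58858 (.tok (nat_lit 20) (nat_lit 0xbc0001780002fdaea5f93aebf0d517efa72fd4bd5fa9a0bf51ed7e75d2fc34f5f9ba0bf22717e1ca2fde7b) (.hit (nat_lit 18) (nat_lit 68) (nat_lit 0xbc0001780002fbf355f93aebf0d517eb6eafd4bd5fa6bebf51ed7e75d2fc34f5f9ba0bf1fa57e1ca2fca0c)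 b58859 (.hit (nat_lit 19) (nat_lit 69) (nat_lit 0xbc0001780002fdaea5f91aebf09517efa72fd3bd5fa9a0bf4ded7e6dd2fc24f5f99a0bf22717e1b32fde7b) b58860 (.nil))) (.tok (nat_lit 23) (nat_lit 0xbc0001780002ff13f5fc90ebf8d617fe5a2ff6485ff2e4bfd4e57f650afe25f5fdc38bfb41d7f6a32ff97f) (.hit (nat_lit 20) (nat_lit 70) (nat_lit 0xbc0001780002ff13f5fc90ebf8d617fe5a2ff6485ff2e4bfd4e57f650afe25f5fdc38bfb41d7f6a32ff97f) b58861 (.hit (nat_lit 21) (nat_lit 71) (nat_lit 0xbc0001780002fdd9d5f91aebf09517f08bafd47b5fae1cbf4e457e6dd2fc24f5f99a0bf2d4d7e30cafe12e) b58862 (.nil))) (.one (nat_lit 26) (nat_lit 22) (nat_lit 72) (nat_lit 0xbc0001780002fcbec5f6ccebebf917e8f02fc4f95f8f04bf0e5d7dda52fafdf5f74c0beed557db0fafd134) b58863 (.one (nat_lit 29) (nat_lit 23) (nat_lit 73) (nat_lit 0xbc0001780002fcb105f72f2becbd97e991afc6185f9174bf13117df2e2fb2f15f7ae4bef2097dba62fd261) b58864 (.one (nat_lit 32) (nat_lit 24)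 (nat_lit 74) (nat_lit 0xbc0001780002fd4245f78acbed74d7ed302fcd705f9ff4bf30157e09cafb5ce5f809ebf0f0d7df46afd9a2) b58865 (.one (nat_lit 35) (nat_lit 25) (nat_lit 75) (nat_lit 0xbc0001780002fc9955f78acbed74d7e6ae2fc73c5f8bbcbf1be97e09cafb5ce5f809ebee9a17db09afcd86) b58866 (.one (nat_lit 38) (nat_lit 26) (nat_lit 76) (nat_lit 0xbc0001780002fda755f9556bf10a17ef542fd5915fa8a2bf553d7e7c72fc4235f9d48bf22f57e2342fde06) b58867 (.tok (nat_lit 41) (nat_lit 0xbc0001780002fdd1f5f80c0bee7717efad2fd5a25faefabf4e017e345afba9c5f8984bf0d757df80afdd3f) (.hit (nat_lit 27) (nat_lit 77) (nat_lit 0xbc0001780002fd4ad5f6e68bec3317e98e2fcacb5f986abf1f657de2cafb0ce5f7396bee9717db1dafd198) b58868 (.hit (nat_lit 28) (nat_lit 78) (nat_lit 0xbc0001780002fdd1f5f80c0bee7717efad2fd5a25faefabf4e017e345afba9c5f8984bf0d757df80afdd3f) b58869 (.nil))) (.tok (nat_lit 44) (nat_lit 0xbc0001780002fdfc85f8546bef0457f2182fda905fb38cbf570d7e43dafbccb5f8deebf32b17e3f5afe35d)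 (.hit (nat_lit 29) (nat_lit 79) (nat_lit 0xbc0001780002faa655f6a0ebeba117e106afbfed5f7d1ebefead7dcf52fae7f5f7200becc657d7622fb53c) b58870 (.hit (nat_lit 30) (nat_lit 80) (nat_lit 0xbc0001780002fdfc85f8546bef0457f2182fda905fb38cbf570d7e43dafbccb5f8deebf32b17e3f5afe35d) b58871 (.nil))) (.tok (nat_lit 47) (nat_lit 0xbc0001780002fdf6d5f8824bef6597f3992fd8f65fb49ebf50e97e4192fbd1f5f9376bf2df97e3612fdfe2) (.hit (nat_lit 31) (nat_lit 81) (nat_lit 0xbc0001780002fdf6d5f8824bef6597f3992fd8f65fb49ebf50e97e4192fbd1f5f9376bf2df97e3612fdfe2) b58872 (.hit (nat_lit 32) (nat_lit 82) (nat_lit 0xbc0001780002fd32e5f7f56bee4a17eb472fca915f993abf293d7e2472fb9235f8748bf03817ddd52fd6bf) b58873 (.nil))) (.one (nat_lit 62) (nat_lit 42) (nat_lit 92) (nat_lit 0xbc0001780002fda815f8832bef6597efc62fd2b05faa72bf45457e47e2fbd915f9024bf243d7e1ecafdeee) b58874 (.tok (nat_lit 65) (nat_lit 0xbc0001780002fdb675f9952bf18997f1202fd78f5fb426bf5d357e8c62fc6215fa144bf42cd7e5b12fe0b7)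 (.hit (nat_lit 43) (nat_lit 93) (nat_lit 0xbc0001780002fc2355f9952bf18997ecf12fd78f5fb35ebf5d357e8c62fc6215fa144bf42cd7e5b12fe0b7) b58875 (.hit (nat_lit 44) (nat_lit 94) (nat_lit 0xbc0001780002fdb675f85eabef1ad7f1202fd7745fb426bf58757e40eafbd2a5f8e5ebf376d7e452afdda6) b58876 (.nil))) (.tok (nat_lit 68) (nat_lit 0xbc0001780002ff3725fcefcbf90c58043baff8c95ff3eebfdf917f6bcafe6c05fe918bfcd7d7f74f2ffca7) (.hit (nat_lit 45) (nat_lit 95) (nat_lit 0xbc0001780002ff2db5fc2a2bf7f5d7fc0eaff8c95fe5fabfd3c57f4302fe1ae5fdc9abfb3d17f1edaff8db) b58877 (.one (nat_lit 3) (nat_lit 49) (nat_lit 99) (nat_lit 0xbc0001780002ff3725fb182bf630d7f7862fea215fd32abfaff17f097afd7b05fcffabf81357edc1aff4ca) b58881 (.one (nat_lit 6) (nat_lit 46) (nat_lit 96) (nat_lit 0xbc0001780002fe8a15fcefcbf90c58043baff6795ff3eebfdf917f6bcafe6c05fe918bfcd7d7f74f2ffca7) b58878 (.tok (nat_lit 9) (nat_lit 0xbc0001780002feaf65fb4fabf4fe97f5a42fe89b5fd064bf97c97efb02fd3f55fbcecbf82497ecd22fed9a)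 (.hit (nat_lit 47) (nat_lit 97) (nat_lit 0xbc0001780002feaf65fb4fabf4fe97f44eafe89b5fd064bf97c97efb02fd3f55fbcecbf82497ecd22fed9a) b58879 (.hit (nat_lit 48) (nat_lit 98) (nat_lit 0xbc0001780002fdfea5f9acebf1b917f5a42fdce05fc0fabf61717e9252fc6df5fa2c0bf36857e4392fdb08) b58880 (.nil))) (.nil))))) (.one (nat_lit 71) (nat_lit 50) (nat_lit 100) (nat_lit 0xbc0001780002fd3fe5f6f30bec4117ec87afcc2c5f9d6cbf2b157de342fb1ae5f7776bf0a0d7dea6afd862) b58882 (.nil)))))))))))))))))) (.tok (nat_lit 64) (nat_lit 0xbc000178000300000600d8ac0000180bf73014be602a26c050058095e30000060151ec031218034fb00853) (.hit (nat_lit 180) (nat_lit 0) (nat_lit 0xbc0001780002ffcec600d8ac0000180bf73014be602a26c05005805c430000060151ec031218034fb00801) b58883 (.tok (nat_lit 6) (nat_lit 0xbc0001780002fe3a95fd920bf986d7fb052ff80e5ff6e0bfea357f9de2fe61b5fe0eebfda7d7f8b32ff4ae) (.hit (nat_lit 181) (nat_lit 7) (nat_lit 0xbc0001780002fcdd85fca7ebf7a9d7f11cafe1d65fd122bf8a2d7f58cafdea75fc1e8bf96e57f041aff00e)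 b58884 (.hit (nat_lit 182) (nat_lit 15) (nat_lit 0xbc0001780002fe3a95fd920bf986d7fb052ff80e5ff6e0bfea357f9de2fe61b5fe0eebfda7d7f8b32ff4ae) b58885 (.nil))) (.tok (nat_lit 9) (nat_lit 0xbc00017800030000060040cbfee5980b42b013736021bac04cb58095e2ffb96600c46c02c39802eb300853) (.hit (nat_lit 183) (nat_lit 20) (nat_lit 0xbc00017800030000060040cbfee5980b42b013736021bac04cb58095e2ffb96600c46c02c39802eb300853) b58886 (.hit (nat_lit 184) (nat_lit 28) (nat_lit 0xbc0001780002fe8ea5fdd2cbfa085801cd3000bd5ffc88c001e57f974afe8215fe55abfe2897f9b62ff6e8) b58887 (.nil))) (.nil)))) (.tok (nat_lit 67) (nat_lit 0xbc0001780002fecc35ff470bfce817fb992ff6cf5ffb14bfde11800092ff3a05febdabfeac97fabe300507) (.hit (nat_lit 205) (nat_lit 0) (nat_lit 0xbc0001780002fecc35fcc9ebf7edd7f2602fe50e5fd342bf9f597f614afdfb75fc408bf9b257f0c9aff410) b58893 (.tok (nat_lit 3) (nat_lit 0xbc0001780002fe2d15ff470bfce817fb992ff6cf5ffb14bfde11800092ff3a05febdabfeac97fabe300507)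 (.hit (nat_lit 206) (nat_lit 1) (nat_lit 0xbc0001780002fc7c25fbe52bf62457ee11afdbc05fc4f6bf71d57f281afd8915fb5bcbf7e8d7ed36afe9f8) b58894 (.one (nat_lit 55) (nat_lit 207) (nat_lit 3) (nat_lit 0xbc0001780002fe2d15ff470bfce817fb992ff6cf5ffb14bfde11800092ff3a05febdabfeac97fabe300507) b58895 (.nil))) (.tok (nat_lit 9) (nat_lit 0xbc0001780002fda6e5fe3aabfacf57f767afee6c5fea4ebfbc857fbd7afeb3d5fdb14bfc93d7f68caffca4) (.hit (nat_lit 208) (nat_lit 20) (nat_lit 0xbc0001780002fcdc55fca58bf7a517f1132fe1c35fd0fcbf89e17f5832fde945fc1c2bf96997f0382feffb) b58896 (.hit (nat_lit 211) (nat_lit 28) (nat_lit 0xbc0001780002fc6af5fbc2cbf5df97ed882fdaad5fc2d0bf6d897f1f82fd77e5fb396bf7a417ecad2fe8e5) b58899 (.tok (nat_lit 67) (nat_lit 0xbc0001780002fda6e5fe3aabfacf57f767afee6c5fea4ebfbc857fbd7afeb3d5fdb14bfc93d7f68caffca4) (.hit (nat_lit 209) (nat_lit 21) (nat_lit 0xbc0001780002fd1985fd1febf899d7f2fcafe5965fd8a2bf992d7f76cafe2675fc968bfa5e57f221aff3ce)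 b58897 (.hit (nat_lit 212) (nat_lit 29) (nat_lit 0xbc0001780002fda6e5fe3aabfacf57f767afee6c5fea4ebfbc857fbd7afeb3d5fdb14bfc93d7f68caffca4) b58900 (.one (nat_lit 9) (nat_lit 210) (nat_lit 22) (nat_lit 0xbc0001780002fd7e45fde96bfa2cd7f622afebe25fe53abfb25d7fa92afe8b35fd600bfbf157f547affa1a) b58898 (.nil)))) (.nil)))) (.nil)))) (.tok (nat_lit 70) (nat_lit 0xbc0001780002ff609600178bfe8917fee82ffd5360081cbff8218034b2ffa245ff8e2c004d97fe00300b8b) (.hit (nat_lit 191) (nat_lit 0) (nat_lit 0xbc0001780002ff6095fd8b6bf970d7fee82ff7bf5febaabfdb4d7f91aafe5c35fd064bfb3557f3cfaffdbf) b58888 (.tok (nat_lit 3) (nat_lit 0xbc0001780002fe955600178bfe8917fedb2ffd5360081cbff8218034b2ffa245ff8e2c004d97fe00300b8b) (.hit (nat_lit 192) (nat_lit 1) (nat_lit 0xbc0001780002fc7585fbd7ebf609d7eddcafdb565fc422bf702d7f24cafd8275fb4e8bf7ce57ed01afe98e) b58889 (.one (nat_lit 67) (nat_lit 193) (nat_lit 2) (nat_lit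 0xbc0001780002fe955600178bfe8917fedb2ffd5360081cbff8218034b2ffa245ff8e2c004d97fe00300b8b) b58890 (.nil))) (.tok (nat_lit 6) (nat_lit 0xbc0001780002fd4895fd7e0bf95617f4752fe8875fde84bfa4f17f8e52fe5585fcf4abfb1a97f39a2ff6bf) (.hit (nat_lit 194) (nat_lit 7) (nat_lit 0xbc0001780002fd4895fd7e0bf95617f4752fe8875fde84bfa4f17f8e52fe5585fcf4abfb1a97f39a2ff6bf) b58891 (.hit (nat_lit 197) (nat_lit 15) (nat_lit 0xbc0001780002fcd465fc95abf78557f0d3afe1445fcffebf87e57f543afde155fc0c4bf949d7eff8afef7c) b58892 (.nil))) (.nil)))) (.nil))))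
noncomputable def r86_11 : Rw Blk := .tok (nat_lit 3) (nat_lit 0xbc000178000300eab6014cec043ed7ffc03000286002b0c00f057fffeb00a696005cec002cd7ff26300c24) (.hit (nat_lit 15) (nat_lit 0) (nat_lit 0xbc0001780002feb445fd378bfc3757f3c12fe7695fc5d2bf8ff57f13cafe9b25fd59cbf9fd17f4d2afebae) b58916 (.tok (nat_lit 6) (nat_lit 0xbc0001780002fd1d05fb342bf7d257ecf0afd9d45fa4e2bf4f357e92e2fdab65fb602bf63317eceb2fdea4) (.hit (nat_lit 16) (nat_lit 7) (nat_lit 0xbc0001780002fc6615f9c64bf4f697e7392fce655f8e04bf21797e376afcf475f9f24bf35757e733afd335) b58917 (.hit (nat_lit 21) (nat_lit 15) (nat_lit 0xbc0001780002fae9f5f6ce0bef0617db582fb6a35f5e80bec2717d795afb7855f6fa0bed66d7db52afbb73) b58920 (.tok (nat_lit 14) (nat_lit 0xbc0001780002fd1d05fb342bf7d257ecf0afd9d45fa4e2bf4f357e92e2fdab65fb602bf63317eceb2fdea4) (.hit (nat_lit 17) (nat_lit 11) (nat_lit 0xbc0001780002fc3a95f96f4bf44897e5dd2fcbad5f8894bf16997e21aafcc8f5f99b4bf2a957e5d7afd07d)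 b58918 (.hit (nat_lit 22) (nat_lit 17) (nat_lit 0xbc0001780002fcf005fada2bf71e57eb88afd7045f9f42bf43f57e7c62fd7e65fb062bf57f17eb832fdbd4) b58921 (.one (nat_lit 9) (nat_lit 18) (nat_lit 12) (nat_lit 0xbc0001780002fd1d05fb342bf7d257ecf0afd9d45fa4e2bf4f357e92e2fdab65fb602bf63317eceb2fdea4) b58919 (.nil)))) (.one (nat_lit 68) (nat_lit 23) (nat_lit 18) (nat_lit 0xbc0001780002fcd4a5faa36bf6b0d7eaadafd54e5f9bd6bf3d1d7e6eb2fd6305facf6bf51197eaa82fda1e) b58922 (.nil))))) (.tok (nat_lit 52) (nat_lit 0xbc0001780002fda115fc3c4bf9e297f1112fe2155fb564bf70397ed4eafe2f75fc684bf84357f10bafe6e5) (.hit (nat_lit 25) (nat_lit 39) (nat_lit 0xbc0001780002fcceb5fa978bf69917ea7e2fd4ef5f9b18bf3ba17e6bbafd5d15fac38bf4f9d7ea78afd9bf) b58923 (.hit (nat_lit 26) (nat_lit 40) (nat_lit 0xbc0001780002fda115fc3c4bf9e297f1112fe2155fb564bf70397ed4eafe2f75fc684bf84357f10bafe6e5) b58924 (.nil))) (.tok (nat_lit 55)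 (nat_lit 0xbc000178000300eab6014cec043ed7ffc03000286002b0c00f057fffeb00a696005cec002cd7ff26300c24) (.hit (nat_lit 27) (nat_lit 41) (nat_lit 0xbc000178000300eab6014cec043ed7ffc03000286002b0c00f057fffeb00a696005cec002cd7ff26300c24) b58925 (.tok (nat_lit 3) (nat_lit 0xbc0001780002fe2495fd434bfbf097f52d2fea4d5fc5d4bf91197f16aafeb2f5fd6f4bfa5157f527afef1d) (.hit (nat_lit 33) (nat_lit 47) (nat_lit 0xbc0001780002fda2a5fc3f6bf9e8d7f11dafe22e5fb596bf709d7ed5b2fe3105fc6b6bf84997f1182fe6fe) b58928 (.one (nat_lit 67) (nat_lit 34) (nat_lit 48) (nat_lit 0xbc0001780002fe2495fd434bfbf097f52d2fea4d5fc5d4bf91197f16aafeb2f5fd6f4bfa5157f527afef1d) b58929 (.nil))) (.tok (nat_lit 6) (nat_lit 0xbc0001780002fd6005fbba2bf8de57ef08afde045fad42bf5ff57eb462fdee65fbe62bf73f17ef032fe2d4) (.hit (nat_lit 28) (nat_lit 42) (nat_lit 0xbc0001780002fd2c95fb534bf81097ed6d2fdacd5fa6d4bf53197e9aaafdbaf5fb7f4bf67157ed67afdf9d)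 b58926 (.hit (nat_lit 31) (nat_lit 45) (nat_lit 0xbc0001780002fd6005fbba2bf8de57ef08afde045fad42bf5ff57eb462fdee65fbe62bf73f17ef032fe2d4) b58927 (.nil))) (.nil)))) (.one (nat_lit 58) (nat_lit 35) (nat_lit 49) (nat_lit 0xbc0001780002fd8f65fc18ebf99bd7f083afe0fa5fb32ebf6bcd7ecc12fe1dc5fc44ebf7fc97f07e2fe5ca) b58930 (.nil)))))) (.tok (nat_lit 9) (nat_lit 0xbc000178000302267606462c0cce581727b02c6660418cc0bb2981697302bee604eccc0a9f1817eb302ec8) (.hit (nat_lit 0) (nat_lit 0) (nat_lit 0xbc0001780002fff18600ae0c02d01802222fff266014d2c023e9803e630061660020ec001c9804163001b0) b58901 (.tok (nat_lit 9) (nat_lit 0xbc0001780003008705ff44cc02c3d7fde8aff7005ff8a6bfdb057fb81affb1a60282ebfded57fde42fff1b) (.hit (nat_lit 1) (nat_lit 20) (nat_lit 0xbc0001780002fe88c5fc5e4bfa9f17efe52fdc565fc9fcbf90297f46fafe5805fd7e0bf73c97f06c2fe510) b58902 (.hit (nat_lit 4) (nat_lit 28) (nat_lit 0xbc0001780002fdd1f5fa6f4bf90f17e77fafd2695fa7bebf47757e863afd6a35fa6f8bf47597e9482fd431)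 b58905 (.tok (nat_lit 14) (nat_lit 0xbc0001780003008705ff44cc02c3d7fde8aff7005ff8a6bfdb057fb81affb1a60282ebfded57fde42fff1b) (.hit (nat_lit 2) (nat_lit 24) (nat_lit 0xbc0001780003002815fe93cc019097fb762ff1a85ff266bfdb057fa5f2ff3bc601698bfc6397fca02ffe14) b58903 (.hit (nat_lit 5) (nat_lit 30) (nat_lit 0xbc0001780002fe7df5fab66bfa8597ebedafd75d5fb534bf6d5d7ed79afe1c35fb622bf5fa17ecaa2fd6c8) b58906 (.one (nat_lit 6) (nat_lit 3) (nat_lit 25) (nat_lit 0xbc0001780003008705ff44cc02c3d7fde8aff7005ff8a6bfd8217fb81affb1a60282ebfded57fde42fff1b) b58904 (.nil)))) (.one (nat_lit 56) (nat_lit 6) (nat_lit 31) (nat_lit 0xbc0001780002ffd5b5fd502bff2317f637afe9205fddd2bfbe017f6bfaff4735fdb1abfa6ad7f5942fe979) b58907 (.nil))))) (.tok (nat_lit 64) (nat_lit 0xbc0001780003011786023fac062f1805eab00bf660418cc02739808e8b00f986017f8c034bd806bfb013b4) (.hit (nat_lit 7) (nat_lit 50) (nat_lit 0xbc0001780003008ed6001d8c00641805eaaffd2160418cc02739808e8b0048a5ff9d0bfef1d805c1b00334)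 b58908 (.hit (nat_lit 8) (nat_lit 51) (nat_lit 0xbc0001780003011786023fac062f180486300bf65ff2eec01ebd8037e300f986017f8c034bd806bfb013b4) b58909 (.nil))) (.tok (nat_lit 67) (nat_lit 0xbc00017800030125e601ebec05e9580581300c26600906c04eb980863300d5760324ac02d0180853b012e5) (.hit (nat_lit 9) (nat_lit 52) (nat_lit 0xbc000178000300c53600fcec0502d802603002c55ff36ec0018980025b005e4602cccc00179803e3b00fd8) b58910 (.tok (nat_lit 3) (nat_lit 0xbc00017800030125e601ebec05e9580581300c26600440c0108d8020c300d5760324ac02d0180853b012e5) (.hit (nat_lit 12) (nat_lit 58) (nat_lit 0xbc0001780003004cb601ebec050558033eb009e5600440c0108d8016bb00d2f60324ac02d0180752b012e5) b58913 (.one (nat_lit 55) (nat_lit 13) (nat_lit 59) (nat_lit 0xbc00017800030125e601b64c05e9580581300c265ff730bff9258020c300d57602cb2c02a6580853b00e2c) b58914 (.nil))) (.tok (nat_lit 9) (nat_lit 0xbc000178000300060600032c023217ff902ffd72600906c04eb9808632ffb796009b4bff7f58010730022e)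 (.hit (nat_lit 10) (nat_lit 53) (nat_lit 0xbc0001780002ff3125ff81ac023217ff902ffd72600906c04eb9808632ff7875ffd4ebff7f5801072ffe0b) b58911 (.hit (nat_lit 11) (nat_lit 56) (nat_lit 0xbc000178000300060600032c00b657fc1a2ff8365fe656bfc8a57fc592ffb796009b4bfe3d17fc33b0022e) b58912 (.nil))) (.nil)))) (.one (nat_lit 70) (nat_lit 14) (nat_lit 60) (nat_lit 0xbc000178000302267606462c0cce581727b02c66601958c0bb2981697302bee604eccc0a9f1817eb302ec8) b58915 (.nil)))))) (.nil))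
noncomputable def r86_12 : Rw Blk := .tok (nat_lit 6) (nat_lit 0xbc000178000300000600000c0000180322300e786031c8c03d5d803de300a9b600000c0000180000300a92600e4ac018418090a300228) (.hit (nat_lit 0) (nat_lit 0) (nat_lit 0xbc0001780002fd8bd5fb9a6bf2f897ee812fe0215fb36ebf58717eb1cafd5b55fb5febf5b957eac5afd5855fb0ecbf574d7ecabafd3a9) b58931 (.tok (nat_lit 14) (nat_lit 0xbc0001780002ffd3e600000bfd6d980135aff2525fe5b0bfad197f2ba2fe7265fd1c8bfcf397f5e4afea495fe028bfc9597fa0cafe510) (.hit (nat_lit 21) (nat_lit 61) (nat_lit 0xbc0001780002ff0ee5fe3a2bf90a57f9bfafe8b75fc0c4bf73c97ee472fdbf95fc276bfb1357f3822fe2025fd172bfa7657f5982fdcbe) b58932 (.one (nat_lit 3) (nat_lit 22) (nat_lit 62) (nat_lit 0xbc0001780002ff5435fe0a4bf90317f872afda245fb292bf5aa57e8ad2fd1915fab80bfaf1d7f5132fe6355fce44bfa1517f75c2fe3e1) b58933 (.tok (nat_lit 6) (nat_lit 0xbc0001780002fe0c85fce70bf655d7f2b82fe58d5fbcdcbf77897eb902fd75e5fb788bf84b17efd2afdb915fc05ebf7c3d7f0eeafd94d)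 (.hit (nat_lit 25) (nat_lit 65) (nat_lit 0xbc0001780002fbd6e5fab8ebf31457e9902fdc7a5fb20cbf5c917eb602fd5cd5fb53cbf60e57ebbaafd6ba5fadfabf5d497ec98afd503) b58936 (.hit (nat_lit 26) (nat_lit 66) (nat_lit 0xbc0001780002fe0c85fce70bf655d7f2b82fe58d5fbcdcbf77897eb902fd75e5fb788bf84b17efd2afdb915fc05ebf7c3d7f0eeafd94d) b58937 (.nil))) (.tok (nat_lit 9) (nat_lit 0xbc0001780002ffd3e600000bfd6d980135aff2525fe5b0bfad197f2ba2fe7265fd1c8bfcf397f5e4afea495fe028bfc9597fa0cafe510) (.hit (nat_lit 23) (nat_lit 63) (nat_lit 0xbc0001780002ffd3e600000bfd6d980135aff2525fe5b0bfad197f2ba2fe7265fd1c8bfcf397f5e4afea495fe028bfc9597fa0cafe510) b58934 (.hit (nat_lit 24) (nat_lit 64) (nat_lit 0xbc0001780002fdf475fad62bf2d8d7ece9afdac85faea8bf55c97ea872fd41b5fb1d8bf5a1d7eae1afd5085faa96bf56817ebbfafd351) b58935 (.nil))) (.nil))))) (.one (nat_lit 17) (nat_lit 27) (nat_lit 67) (nat_lit 0xbc0001780002fe8025fce90bf560d7f0e22fd48f5faa5abf47617e775afcec65fa76ebf57517e9c92fd09d5fc7d4bf86197eff1afd28a)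 b58938 (.tok (nat_lit 20) (nat_lit 0xbc0001780003000005ff664c0000180322300e786031c8c03d5d803de300a9b600000c0000180000300a92600e4ac018418090a300228) (.hit (nat_lit 28) (nat_lit 68) (nat_lit 0xbc0001780003000005ff664c0000180322300e786031c8c03d5d803de300a9b600000c0000180000300a92600e4ac018418090a300228) b58939 (.hit (nat_lit 29) (nat_lit 69) (nat_lit 0xbc0001780002fdb045fa81ebf2b917eb772fcd8a5f97c2bf23497e420afc7c95f99c6bf2b997e4c4afc83e5f98c4bf2c997e70bafc655) b58940 (.nil))) (.tok (nat_lit 23) (nat_lit 0xbc0001780002fd8225fb0a8bf22617eacb2fcbbd5f921abf199d7e301afc5105f93c2bf1f197e35c2fc5fd5facc4bf4ab97e9a7afc77e) (.hit (nat_lit 30) (nat_lit 70) (nat_lit 0xbc0001780002facb15f8a14beee517e131afcbbd5f9092bf199d7e301afc5105f93c2bf1df17e35c2fc5fd5f8c80bf1a557e43a2fc446) b58941 (.hit (nat_lit 31) (nat_lit 71) (nat_lit 0xbc0001780002fd8225fb0a8bf22617eacb2fc8535f921abf15157e16e2fc2925f8f3cbf1f197e25bafc3ea5facc4bf4ab97e9a7afc77e)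 b58942 (.nil))) (.one (nat_lit 38) (nat_lit 36) (nat_lit 76) (nat_lit 0xbc0001780002fd68f5f9f64bf1a497eb4c2fcdcf5f94b6bf21e57e40aafc7225f97e6bf26397e4652fc80f5f9130bf229d7e5662fc658) b58943 (.tok (nat_lit 41) (nat_lit 0xbc0001780002fd2825fcd8cbf385d7eefaafce5c5f9b38bf2c297e4732fc8765f9b4ebf4f117e92d2fcb285fb606bf5f017eb5a2fc993) (.hit (nat_lit 37) (nat_lit 77) (nat_lit 0xbc0001780002fcc335fa69cbefddd7e9a1afbc835f7580beed6d7db09afb5ec5f75a4bf17d57e106afc42c5f914ebf1c0d7e41aafc182) b58944 (.hit (nat_lit 38) (nat_lit 78) (nat_lit 0xbc0001780002fd2825fcd8cbf385d7eefaafce5c5f9b38bf2c297e4732fc8765f9b4ebf4f117e92d2fcb285fb606bf5f017eb5a2fc993) b58945 (.nil))) (.tok (nat_lit 44) (nat_lit 0xbc0001780002fe1ea5fc09abf4c957eb6d2fc6205f9e98bf30157e164afc69f5f8ac8bf59957e66e2fd8025fbcd6bf7af57effaafd475) (.hit (nat_lit 39) (nat_lit 79) (nat_lit 0xbc0001780002fe1ea5fc09abf4c957eb6d2fc6205f9e98bf30157e164afc69f5f8ac8bf59957e66e2fd8025fbcd6bf7af57effaafd475)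 b58946 (.hit (nat_lit 40) (nat_lit 80) (nat_lit 0xbc0001780002fd62c5f9ff8bf159d7eb3a2fc02e5f7cf6beec6d7dd6d2fba565f7f38bf30a57e567afc37d5f9948bf2d817e79a2fc136) b58947 (.nil))) (.tok (nat_lit 47) (nat_lit 0xbc0001780002feba35fd640bf6d017f551afd26b5fa3b2bf3c8d7e6802fcc8b5fa384bf817d7ef882fd8125fd0b8bf95617f2c0afd629) (.hit (nat_lit 41) (nat_lit 81) (nat_lit 0xbc0001780002fa5485f7b42bed0ad7dd7d2fc4545f81c0befbf97df4d2fbda75f84f0bf004d7dfa7afbe945f7daebefcb17e085afbcdd) b58948 (.hit (nat_lit 42) (nat_lit 82) (nat_lit 0xbc0001780002feba35fd640bf6d017f551afd26b5fa3b2bf3c8d7e6802fcc8b5fa384bf817d7ef882fd8125fd0b8bf95617f2c0afd629) b58949 (.nil))) (.one (nat_lit 50) (nat_lit 43) (nat_lit 83) (nat_lit 0xbc0001780002fdfdd5fb7ecbf39c57efbdafcc905f95debf21e57e39aafc6b55f97eebf54c17e9f42fccc95facd0bf548d7ec3eafca5e) b58950 (.tok (nat_lit 53) (nat_lit 0xbc0001780002fead35fe296bf81a97f971afdc4a5fd000bf6ee17ecb22fda335fb9d6bf99617f1202fe6eb5fd52abfadc17fcd6afe192)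 (.hit (nat_lit 44) (nat_lit 84) (nat_lit 0xbc0001780002fead35fe296bf81a97f971afdc4a5fd000bf6ee17ecb22fda335fb9d6bf99617f1202fe6eb5fd52abfadc17fcd6afe192) b58951 (.hit (nat_lit 45) (nat_lit 85) (nat_lit 0xbc0001780002fdec55fb224bf30197ee8e2fc7575f9f0abf31157e54c2fca1a5f955abf3fc17e7682fcd5f5fb5f6bf70657ed632fcc1a) b58952 (.nil))) (.tok (nat_lit 56) (nat_lit 0xbc0001780002ff0075fe912bfb1b57f936aff25e5fdb7cbfb3617f47e2fe8c05fe1d4bfa7d57f84bafe67a5fdf4cbfa7117f699afe22d) (.hit (nat_lit 46) (nat_lit 86) (nat_lit 0xbc0001780002fecc95fcf82bf77a57f77cafe5af5fd5bebf92957efa32fe15e5fc85ebf92a57f1a52fdcb45fce06bf96d57f3c52fdafd) b58953 (.one (nat_lit 3) (nat_lit 50) (nat_lit 90) (nat_lit 0xbc0001780002fe04b5fc380bf64ad7f0e62fdc2f5fb61abf5c017eb662fd6855fb73abf73097edb42fcfb55fb778bf61c97ee3eafcbe8) b58957 (.tok (nat_lit 6) (nat_lit 0xbc0001780002fecbc5fd54abf6f717f555afddfb5fb85ebf63697ec50afd81c5fbad0bf8fc17eefeafe1cd5fd40abfa1917f60cafde45)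 (.hit (nat_lit 48) (nat_lit 88) (nat_lit 0xbc0001780002fecbc5fd54abf5e7d7f555afddfb5fb85ebf63697ec50afd81c5fbad0bf8fc17eefeafe1cd5fd40abfa1917f60cafde45) b58955 (.hit (nat_lit 49) (nat_lit 89) (nat_lit 0xbc0001780002fe6d55fc886bf6f717f45e2fd1565f9fbabf35ed7e5f22fcb9c5fa14cbf6d117eda3afd5575fc700bf811d7f1e3afd334) b58956 (.nil))) (.one (nat_lit 9) (nat_lit 47) (nat_lit 87) (nat_lit 0xbc0001780002ff0075fe912bfb1b57f936aff25e5fdb7cbfb3617f47e2fe8c05fe1d4bfa7d57f84bafe67a5fdf4cbfa7117f699afe22d) b58954 (.nil))))) (.one (nat_lit 59) (nat_lit 51) (nat_lit 91) (nat_lit 0xbc0001780002fda295fb4d8bf20dd7eb62afc6425f8958bf0a3d7e06fafc0605f8b42bf23d57e3d62fc3d75fac18bf4bd17e9afafc432) b58958 (.one (nat_lit 62) (nat_lit 52) (nat_lit 92) (nat_lit 0xbc0001780002fd0fa5f9976bf04a17e8972fc8185f8948bf0b097e12f2fc16b5f8c78bf15e57e218afc2585f8e84bf15097e45f2fc0a1) b58959 (.tok (nat_lit 65) (nat_lit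 0xbc0001780002fdcca5fc85ebf21f57edb82fccad5f9254bf1ca97e26fafc3ec5f917abf40957e4cd2fccc25fae0cbf550d7ec02afc906) (.hit (nat_lit 53) (nat_lit 93) (nat_lit 0xbc0001780002fdcca5fc85ebf21f57edb82fca995f8e4abf19557e26fafc3ec5f917abf40957e4cd2fccc25fa14abf3e717ec02afc906) b58960 (.hit (nat_lit 54) (nat_lit 94) (nat_lit 0xbc0001780002fc7965fb5f6bf207d7eaf82fccad5f9254bf1ca97e19e2fc33f5f8ffcbf189d7e190afc3395fae0cbf550d7e7a52fc1d8) b58961 (.nil))) (.tok (nat_lit 68) (nat_lit 0xbc0001780002fcf715fad38bf34997efddafe5715fba12bf75e97ebf32fd9355fbd7ebf721d7ed96afda655fb174bf609d7ed642fd874) (.hit (nat_lit 55) (nat_lit 95) (nat_lit 0xbc0001780002fcf715fa768bf2a157efddafe5715fba12bf75e97ebf32fd9355fbd7ebf721d7ed96afda655fb174bf5ec97ed642fd874) b58962 (.one (nat_lit 3) (nat_lit 59) (nat_lit 99) (nat_lit 0xbc0001780002fac345f891abeec5d7e0f32fcb405f8f98bf17a97e2c32fc4935f92c8bf1bfd7e31dafc5805f8b86bf18617e3fbafc3c9)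 b58966 (.one (nat_lit 6) (nat_lit 56) (nat_lit 96) (nat_lit 0xbc0001780002fb0575f9160befce97e304afcf635f97debf28357e4d4afc8b65f9b0ebf2c897e52f2fc9a35f93ccbf28ed7e60d2fc7ec) b58963 (.tok (nat_lit 9) (nat_lit 0xbc0001780002fbe435fad38bf34997e9faafdd4f5fb3b6bf5fe57ebcaafd6a25fb6e6bf64397ec252fd78f5fafa4bf609d7ed032fd5d8) (.hit (nat_lit 57) (nat_lit 97) (nat_lit 0xbc0001780002fbe435fad38bf34997e9faafdd4f5fb3b6bf5fe57ebcaafd6a25fb6e6bf64397ec252fd78f5fafa4bf609d7ed032fd5d8) b58964 (.hit (nat_lit 58) (nat_lit 98) (nat_lit 0xbc0001780002fb5f15f9c94bf13517e5d1afd4fd5fa312bf3e9d7e7a1afce505fa642bf42f17e7fc2fcf3d5f9f00bf3f557e8da2fcd86) b58965 (.nil))) (.nil))))) (.one (nat_lit 71) (nat_lit 60) (nat_lit 100) (nat_lit 0xbc0001780002fd7a15faf64bf1d9d7ea762fc6b55f8bfcbf0e457e0a22fc0cb5f8c0cbf1b0d7e18cafc2c75faccebf4be57e8ff2fc310) b58967 (.nil)))))))))))))))))) (.nil)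
noncomputable def r86_13 : Rw Blk := .tok (nat_lit 6) (nat_lit 0xbc000178000300000600000c0124180000300473600000c0000180000300000) (.hit (nat_lit 0) (nat_lit 0) (nat_lit 0xbc0001780002fd7bb5fd704bf9d317f1912fe1575fca94bf8fd17f1702fe7c2) b58968 (.tok (nat_lit 14) (nat_lit 0xbc000178000300000600000c01241800003004735fe624c0000180000300000) (.hit (nat_lit 21) (nat_lit 61) (nat_lit 0xbc0001780002ff1c05fe86cbff4557f6dc2fe8325fe100bfba917f6be2ff076) b58969 (.one (nat_lit 3) (nat_lit 22) (nat_lit 62) (nat_lit 0xbc0001780002fe4565fce2ebfa3697f1f1afde5d5fcab2bf933d7f1d3afe347) b58970 (.tok (nat_lit 6) (nat_lit 0xbc0001780002fe4cc5fe4a6bfd0e97f724afe8c35fe22ebfbcd57f706afee93) (.hit (nat_lit 25) (nat_lit 65) (nat_lit 0xbc0001780002fd2045fdb98bf8bc57f5822fe57e5fd8f4bfafc17f5642fe8ad) b58973 (.hit (nat_lit 26) (nat_lit 66) (nat_lit 0xbc0001780002fe4cc5fe4a6bfd0e97f724afe8c35fe22ebfbcd57f706afee93)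 b58974 (.nil))) (.tok (nat_lit 9) (nat_lit 0xbc000178000300000600000c01241800003004735fe624c0000180000300000) (.hit (nat_lit 23) (nat_lit 63) (nat_lit 0xbc000178000300000600000c01241800003004735fe624c0000180000300000) b58971 (.hit (nat_lit 24) (nat_lit 64) (nat_lit 0xbc0001780002fe94b5fdccabfaad17f5ceafe6175fda26bfb2257f5b0afe946) b58972 (.nil))) (.nil))))) (.one (nat_lit 17) (nat_lit 27) (nat_lit 67) (nat_lit 0xbc0001780002fda6e5fb9c8bf96297eca92fd3cc5fb590bf68f97ec8b2fd924) b58975 (.tok (nat_lit 20) (nat_lit 0xbc0001780002fe3725fe32abfe4917f5b42fe8a95feb64bfb2f17f610afedea) (.hit (nat_lit 28) (nat_lit 68) (nat_lit 0xbc0001780002fe3725fe32abfe4917f5b42fe8a95feb64bfb2f17f610afedea) b58976 (.hit (nat_lit 29) (nat_lit 69) (nat_lit 0xbc0001780002fd7405fb510bf7a417ebe02fd23a5fb26cbf62b17ebc22fd5e7) b58977 (.nil))) (.tok (nat_lit 23) (nat_lit 0xbc0001780002fda445fcc9abf97597f1c2afddff5fc9f6bf91c57f1a4afe12e)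 (.hit (nat_lit 30) (nat_lit 70) (nat_lit 0xbc0001780002fca855fcc9abf6dc97f1c2afddff5fc9f6bf91c57f1a4afe12e) b58978 (.hit (nat_lit 31) (nat_lit 71) (nat_lit 0xbc0001780002fda445fb9bcbf97597ebdf2fd2385fb268bf62a97ebc12fd91e) b58979 (.nil))) (.one (nat_lit 38) (nat_lit 36) (nat_lit 76) (nat_lit 0xbc0001780002fd6255fb8b4bf8aa57ecc92fd40c5fb610bf69f97ecab2fd73b) b58980 (.tok (nat_lit 41) (nat_lit 0xbc0001780002fd3c75fb3d8bf7de57e84eafcb175faa82bf46257e830afd62c) (.hit (nat_lit 37) (nat_lit 77) (nat_lit 0xbc0001780002fd3c75fb09cbf7de57e5a12fc84c5fa566bf30517e5822fd48e) b58981 (.hit (nat_lit 38) (nat_lit 78) (nat_lit 0xbc0001780002fd0b55fb3d8bf7c497e84eafcb175faa82bf46257e830afd62c) b58982 (.nil))) (.tok (nat_lit 44) (nat_lit 0xbc0001780002fdd4d5fc15cbfa1b97e9d12fd1015fb4e6bf51d17ea03afdcee) (.hit (nat_lit 39) (nat_lit 79) (nat_lit 0xbc0001780002fdd4d5fc15cbfa1b97e9d12fd1015fb4e6bf51d17ea03afdcee)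 b58983 (.hit (nat_lit 40) (nat_lit 80) (nat_lit 0xbc0001780002fd4cb5fae8cbf80f97e6be2fc7f65fa33cbf39a17e6a02fd386) b58984 (.nil))) (.tok (nat_lit 47) (nat_lit 0xbc0001780002fdb715fbbcebf9b7d7e8602fcddd5fb276bf46497e898afda27) (.hit (nat_lit 41) (nat_lit 81) (nat_lit 0xbc0001780002fa8395f8802bee4997e09cafbbb35f855ebf08957e07eafbee2) b58985 (.hit (nat_lit 42) (nat_lit 82) (nat_lit 0xbc0001780002fdb715fbbcebf9b7d7e8602fcddd5fb276bf46497e898afda27) b58986 (.nil))) (.one (nat_lit 50) (nat_lit 43) (nat_lit 83) (nat_lit 0xbc0001780002fe0385fc55cbfae997eac3afd2a45fba6abf59657eae7afdeee) b58987 (.tok (nat_lit 53) (nat_lit 0xbc0001780002fe2215fde76bfe2017f2262fe1355fdb86bf94e17f2172febca) (.hit (nat_lit 44) (nat_lit 84) (nat_lit 0xbc0001780002fe2215fde76bfe2017f2262fe1355fdb86bf94e17f2172febca) b58988 (.hit (nat_lit 45) (nat_lit 85) (nat_lit 0xbc0001780002fddad5faf18bf8f117e9b22fd08b5fb27cbf50e17e9d6afd1df)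 b58989 (.nil))) (.tok (nat_lit 56) (nat_lit 0xbc0001780002ff8355ffd46bff8517f9e4aff286600000bfd2597f9b92ffae5) (.hit (nat_lit 46) (nat_lit 86) (nat_lit 0xbc0001780002fefdf5fe944bfef097f7da2fe99b5fe3bebfc2397f7a7aff0df) b58990 (.one (nat_lit 3) (nat_lit 50) (nat_lit 90) (nat_lit 0xbc0001780002fe5525fd3bcbfa5157ee89afda315fd00cbf83c97ef4c2fe627) b58994 (.tok (nat_lit 6) (nat_lit 0xbc0001780002ff8355ff4f2bff8517f9e4aff2865fe9b0bfc7c17f9a92ff9a0) (.hit (nat_lit 48) (nat_lit 88) (nat_lit 0xbc0001780002ff8355ff4f2bff8517f9e4aff2865fe9b0bfc7c17f9a92ff9a0) b58992 (.hit (nat_lit 49) (nat_lit 89) (nat_lit 0xbc0001780002fe4425fc648bfa3717ee282fd75b5fc868bf74f17ee0a2fdf64) b58993 (.nil))) (.one (nat_lit 9) (nat_lit 47) (nat_lit 87) (nat_lit 0xbc0001780002ff4d25ffd46bff1997f8ec2fec1f600000bfd2597f9b92ffae5) b58991 (.nil))))) (.one (nat_lit 59) (nat_lit 51) (nat_lit 91) (nat_lit 0xbc0001780002fd89b5fb622bf90257e6f52fcb075faae8bf3af17e71b2fd751)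 b58995 (.one (nat_lit 62) (nat_lit 52) (nat_lit 92) (nat_lit 0xbc0001780002fd4b65fafdebf839d7e9802fcd7a5fa8ecbf4fb17e9622fd42f) b58996 (.tok (nat_lit 65) (nat_lit 0xbc0001780002fd18f5fbdaebf9a5d7ecd9afd42d5fb652bf6a7d7ecbbafdb19) (.hit (nat_lit 53) (nat_lit 93) (nat_lit 0xbc0001780002fccba5fbdaebf9a5d7ecd9afd42d5fb652bf6a7d7ecbbafdb19) b58997 (.hit (nat_lit 54) (nat_lit 94) (nat_lit 0xbc0001780002fd18f5fb264bf88a97e605afc9245fae06bf33757e6322fd572) b58998 (.nil))) (.tok (nat_lit 68) (nat_lit 0xbc0001780002fd8975fea7ebfc60d7f66fafeb145fde3abfb6c57f64eaff17f) (.hit (nat_lit 55) (nat_lit 95) (nat_lit 0xbc0001780002fd8975fea7ebfc60d7f66fafeb145fde3abfb6c57f64eaff17f) b58999 (.one (nat_lit 3) (nat_lit 59) (nat_lit 99) (nat_lit 0xbc0001780002fc8b05fc8f0bf66757f0d82fdc2a5fc64cbf8a717f0ba2fdf59) b59003 (.one (nat_lit 6) (nat_lit 56) (nat_lit 96) (nat_lit 0xbc0001780002fc74f5fc62ebf60f17f027afdac95fc38abf84ed7f009afddf8)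 b59000 (.tok (nat_lit 9) (nat_lit 0xbc0001780002fcbde5fcf4cbf732d7f26f2fdf585fcca8bf97297f2512fe287) (.hit (nat_lit 57) (nat_lit 97) (nat_lit 0xbc0001780002fcbde5fcf4cbf732d7f26f2fdf585fcca8bf97297f2512fe287) b59001 (.hit (nat_lit 58) (nat_lit 98) (nat_lit 0xbc0001780002fc98c5fcaa8bf69e57f1462fdd065fc804bf8de17f1282fe035) b59002 (.nil))) (.nil))))) (.one (nat_lit 71) (nat_lit 60) (nat_lit 100) (nat_lit 0xbc0001780002fd4bf5faef0bf81c17e528afc7755fa450bf2c8d7e5542fd3b8) b59004 (.nil)))))))))))))))))) (.nil)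
noncomputable def r86_14 : Rw Blk := .tok (nat_lit 6) (nat_lit 0xc0000180000300000600000c000017f71f2ff0e8600000bfc701800003000005ffa98c016e580000300000600000bff7e980000300000600000c0000180000300000600000c0000180000300000600000c000017fe85b00000600000c00001800002fff7a600000c0000180000300000600000c0000180000300000600000c0000180000300000600000c00001800003000005fe440bfc89d80000300000600000c0000180000300000600000c0000180000300000600000c0000180000300000600000c00001803cb30028f5ff0c6bfe1ad80000300000) (.hit (nat_lit 81) (nat_lit 0) (nat_lit 0xbf92e17f5752fe61a5fd456bfac197f6aeafeda25fd456bfb6b57f515aff86c5ff23abf63e17eef32ff86c5fbf56bfe0b17fc4caffd235ff0d8bfea7d7eefbafdf625fca42bf8b897fce02ff82b5fd876bfe1097fa532feafa5fcf24bfd8797fa6daff6e15fef9abfd6f97f04fafe07f5fc6f6bf81457fc1aaff7fa5fefeebfdfc97fbe2aff8725ff0d8bfe1b17fc362ffbed5fcb4cbfb8517f25dafeaa25fb806bf4c2d7f4312fe0eb5fb82ebf916d7f0ad2fde5f5fbec2bfdf817efb0afedd45fc158bfb75d7f3afafe6f85fb7ccbf79417f1262feb0d)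 b59005 (.tok (nat_lit 3) (nat_lit 0xbfac2d7f6f82ff6545fc972bf917d7f0dd2fe4645fca76bf94f17f0abaff37c5fe190bfc7e17f9672ff37c5ff35cbfc5d97f9be2ff37c5fe6f8bfcdf17fa16afea685fe0b2bfc6017f9be2ff2b65fd5debfcd497f7dc2febf55fd894bfbf657f7192ff2f65fe5babfbd997f4edafe9db5fd3b6bfa7697f8502ff3045fe60ebfcc097f7c5aff37c5fe6f8bfcdf17f9be2ff37c5fcb38bf968d7f8262ff9b75fdc82bfa8357f68cafea725fdd26bfdcd57fc25afef375fd57abfc3b97f56d2ff0925fd598bfc2497fb6baff6865fd15ebfa2dd7fbad2ff899) (.hit (nat_lit 82) (nat_lit 1) (nat_lit 0xbf2ecd7e22c2fda725f87f2bf0e7d7e07d2fc3a45f88f6bf11f17e04bafd2bc5fa010bf0fa17e58c2fd2bc5f9a36bf42d97e95e2fd2bc5fa578bf4af17e445afbf475f8f1cbf278d7e95e2fd1f65f960abf4a497e77c2fcb4e5f9714bf3c657e6b92fd2365fa43abf3a997e5d9afcbb35f9766bf2ecd7e7f02fd2445fa48ebf49097e765afd2bc5fa578bf4af17e95e2fd2bc5f89b8bf138d7ec9dafe5b55f8b62bf07e57e7292fcba25f8acabf5d3d7ebf42fd9205fa5f8bf47b17e5e0afd2825f9766bf49f17eb0a2fd79d5fa33cbf46997e9baafd899)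 b59006 (.one (nat_lit 14) (nat_lit 84) (nat_lit 4) (nat_lit 0xbfa2a57f6f82fef925fb84abf74a97e5bf2fce285fb850bf3c017ee0cafdf225fbfa6bfa9957f85e2fdf225fe466bf7b897efa7afe8015fbe44bf85697f7652fe5e85fdb9abfbab97f0832fe88b5fd074bfa2a17f2e4afe8835fd0aabf9ff97f3c7afe7f45fd096bfa0057f3bcafe76a5fcee0bf9db17f44c2fe6b75fcd6cbf9ba17f340afe7f75fcfe8bf9fc97f3f9afdd405f9ec0bf3d9d7f42b2feb455fdc82bf944d7f5a7afe7e25fd600bfa5497f751afe49a5fc272bfb77d7f433afee105fd0b8bfb8397f6972fe99f5fc172bf83057f489afef00) b59007 (.one (nat_lit 56) (nat_lit 86) (nat_lit 6) (nat_lit 0xbf7a217efa72fe1465facacbf5c857e9abafd6015fadb0bf5b657eb14afe5195fc4cabf91bd7f5172fe5195fd846bf8c4d7f28cafe5195fca32bf94657f351afdcde5fc4bebf85b17f28cafe4535fc4e0bf93bd7f0aaafe2d75fc4c0bf86797f09fafe4935fc8f4bf877d7f0bb2fe1765fc2ecbf85d57f1522fe4a15fc948bf927d7f0942fe5195fca32bf94657f28cafe5195fae72bf5d017f5a92fee795fc556bf7a6d7f27cafe20d5fbfb8bfac257f6dbafe33d5fbae0bfa0b57f13aafe82d5fc4cebfa0b57f3eaafe8885fc76abf8ef57f4ae2fec63)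 b59009 (.one (nat_lit 68) (nat_lit 85) (nat_lit 5) (nat_lit 0xbfac2d7f4e8aff6545fc972bf917d7f0dd2fe4645fca76bf94f17f0abaff37c5fe190bfc7e17f9672ff37c5ff35cbfc5d97f9be2ff37c5fe6f8bfcdf17fa16afea685fe0b2bfc6017f9be2ff2b65fd5debfcd497f7dc2febf55fd894bfbf657f7192ff2f65fe5babfbd997f4edafe9db5fd3b6bfa7697f8502ff3045fe60ebfcc097f7c5aff37c5fe6f8bfcdf17f9be2ff37c5fcb38bf968d7f8262ff9b75fdae6bfa8357f68cafea725fdd26bfdcd57fc25afef375fd57abfc3b97f56d2ff0925fd598bfc2497fb6baff6865fd15ebfa2dd7fbad2ff899) b59008 (.nil))))) (.tok (nat_lit 40) (nat_lit 0xbf9c857f410afee565fc642bf8c857eaddafd8655fc642bf64f57f080afe77d5fc992bf686d7efde2fe77d5fc1acbf95dd7f3beafe8005fcefabf9df57f48bafe0d25fce58bfa4457f3beafe9205fd836bfa4dd7f2cdafef485fde72bf98557f2edafe7d45fd180bf9ad17f4052fe64a5fd00abf9f2d7f49a2fe7485fce8abf9d017f38a2fe8895fd106bfa20d7f441afe77d5fb33abf66917f7d6afe36b5fc87cbf78817f56d2fe2735fc93cbfdd757f8fcafe6f65fc30abfb3a17f3afaff11b5fd47ebfc0dd7f77a2fee845fd020bfa0617f6f7aff0e4)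 (.hit (nat_lit 100) (nat_lit 33) (nat_lit 0xbf9c857f410afee565fb976bf72ed7eaddafd8655fb976bf64f57ee5dafe77d5fc992bf5b357edfaafe77d5fbbdcbf95dd7f3beafe8005fcefabf9df57f48bafe0d25fce58bfa4457f3beafe9205fd836bfa4dd7f2cdafef485fde72bf98557f2edafe7d45fd180bf9ad17f4052fe64a5fd00abf9f2d7f49a2fe7485fce8abf9d017f38a2fe8895fd106bfa20d7f441afe77d5fb33abf66917f7d6afe36b5fc87cbf78817f56d2fe2735fc93cbfdd757f8fcafe6f65fc30abfb3a17f3afaff11b5fd47ebfc0dd7f77a2fee845fd020bfa0617f6f7aff0e4) b59010 (.hit (nat_lit 101) (nat_lit 34) (nat_lit 0xbf89dd7edc9afe4345fc642bf8c857e7c0afd22b5fc642bf4c0d7f080afe1435fbd1ebf686d7efde2fe1435fc1acbf7cf57f0a1afe2a25fc286bf850d7f2ac2fdbda5fc0b4bf92117f0a1afe31a5fc626bf8c857effaafe2f25fc628bf8b397f162afe22e5fc6b4bf8b997f190afe32b5fc63ebf8c8d7f18fafe3215fc63cbf8cbd7f1882fe2735fc4dabf89b57f136afe1435fa6c6bf4da97f6962fe36b5fc5b8bf70697f0422fdecd5fc312bfa64d7f3012fe28e5fb608bf8c857f197afe3215fc642bf8c857f354afe8cc5fcb1ebf965d7f421afec19)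 b59011 (.nil))) (.tok (nat_lit 43) (nat_lit 0xbfb31d800002ff00c5fd6b2bfc0257f42d2feb045fd7b6bfaf717f5a4affa1c5feed0c016e57feabaffa1c600000bfe0597fd0e2ffa1c5ff438bfe87180000300000600000bfe46d7fd0e2ffd615ff3d6bff5e17fcf0afff505fee30bff5017feb22ff9c75ff3a0bfeb357f838aff0bc5fdfacbfb1ad7feb6aff9a45ff34ebfe6897fb15afff6a5ffec8bfff317ffb22ffa1c5fd878bfb10d7f9e92ffd115fde24bfc3057ff16aff8bc5fde4cbfd97d7fa6b2ff13e5fe104bfdb857f8922ff6e15fe232bfdb857fcfd2ffb8b5fd86abfb0f57f9e62ff92c) (.hit (nat_lit 102) (nat_lit 35) (nat_lit 0xbfb31d800002ff00c5fd6b2bfc0257f42d2feb045fd7b6bfaf717f5a4affa1c5feed0c016e57feabaffa1c600000bfe0597fd0e2ffa1c5ff438bfe87180000300000600000bfe46d7fd0e2ffd615ff3d6bff5e17fcf0afff505fee30bff5017feb22ff9c75ff3a0bfeb357f838aff0bc5fdfacbfb1ad7feb6aff9a45ff34ebfe6897fb15afff6a5ffec8bfff317ffb22ffa1c5fd878bfb10d7f9e92ffc0f5fde24bfc3057ff16aff8bc5fde4cbfc6c17f987afeef75fe104bfdb857f8922ff6e15fe232bfdb857fcfd2ffb8b5fd86abfb0f57f9e62ff92c)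 b59012 (.hit (nat_lit 103) (nat_lit 36) (nat_lit 0xbf9c897f51dafef0c5fd1d2bfa3a57ef62afe16f5fd1d2bf891d7f473aff0875fdba6bf99917f3cd2ff0875fca0ebfba057f843aff0875fe10ebfc21d7f2742fdeac5fd244bf99017f843afefc15fd224bfc1757f661afe9635fd2aabfb3917f59eaff0015fdfd0bfb1c57f474afe8e95fd1d2bfa3a17f6d5aff00f5fe024bfc0357f64b2ff0875fe10ebfc21d7f843aff0875fc54ebf8ab97f9832ffd115fbd88bf6d757f392afe8de5fb74abfd97d7fa6b2ff13e5fd5dabfa3e57f47bafe9065fd1d2bfa3a57f8b02ff0065fd6d2bfadc57f896aff37f) b59013 (.nil))) (.tok (nat_lit 46) (nat_lit 0xc000017fd53300000600000c000017f71f2ff0e8600000bfc701800003000005ffa98bfe379800003000005ffd08bff7e980000300000600000c000017ff542ff57e5ffb32c0000180000300000600000c000017fe85b00000600000c00001800002fff7a600000c0000180000300000600000c0000180000300000600000c0000180000300000600000c00001800003000005fe440bfc89d80000300000600000c0000180000300000600000c0000180000300000600000c0000180000300000600000c00001803cb30028f5ff0c6bfe1ad80000300000)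 (.hit (nat_lit 104) (nat_lit 37) (nat_lit 0xbf88e97ef252ffb5f5fe27abfc38d7f71f2ff0e85fe37ebfc7017f6edb000005ffa98bf786d7f1b8b000005fcb24bff7e980000300000600000c000017f2e7afdd6a5fdbf8bf9d2d800002fff3a5fe7eebfff597fe1e2ff8795ff19cbff1757fd5b2fff7a5ffec2bfefa97f440afe8815fd102bfa2057fe922fff885fff16bffe197fe07b00000600000c00001800003000005fe440bfc89d7fc01affc8a5fbaf0bf69217f58c2fe8805fb964bf9e4d7f3942ff89c600000bfbd457f447afef515fd102bfbd457f0072fe3f95fde5cbfb63d7f2b9aff4b8) b59014 (.hit (nat_lit 105) (nat_lit 38) (nat_lit 0xc000017fd53300000600000c000017f228afe6fb600000bf9f4d800002ff6825fee66bfe379800002ff6825ffd08bfd9057fb58afffdb5fed34bfe3fd7ff542ff57e5ffb32c000017fc40300000600000c000017fe85b00000600000c00001800002fff3f600000c0000180000300000600000c0000180000300000600000c00001800002fff525ffe98bffd317ffa62ff6135fd066bfa0e980000300000600000c0000180000300000600000c00001800003000005ff3a6c0000180000300000600000c00001803cb30028f5ff0c6bfe1ad80000300000)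 b59015 (.nil))) (.nil)))))) (.tok (nat_lit 9) (nat_lit 0xbfac2d7f6f82ff6545fd456bfa8ad800003000005fd456c000017f515aff86c600000bf672d7efddaff86c5fc2fec000017fc4cafffa65ff0d8bfea817f43a2fd6a85fc2f0bf8f117fce52ff82b5fdd46bfe109800002fee3d5fdc7abfd4897fa6db000005fef9abfd6fd7f4edafe9db5fd3b6bfa7697fc1baff7fa5fefeebfdfc97fbe32ff8725ff0d8bfe1b17fc362fff9c600000c000017ffa8aff68a5fb116bf58d57f382afe46d5fb13ebf82557f09dafeced5fce86bfb8d97f56d2ff0985fd598bfb8c17eb752fde8b600000c000017f4c72ff899) (.hit (nat_lit 157) (nat_lit 0) (nat_lit 0xbf92e17f5752fe61a5fd456bfa8ad7fbb9afec225fd456bfb05d7f515aff86c600000bf672d7efddaff86c5fc2fec000017fc4cafffa65ff0d8bfea817f43a2fd6a85fbedabf8f117fce52ff82b5fdd46bfe109800002fee3d5fdc7abfd4897fa6db000005fef9abfd6fd7f170afe4015fc2c4bf81957fc1baff7fa5fefeebfdfc97fbe32ff8725ff0d8bfe1b17fc362ffd045fe1a6bfc6317f97a2feb235fb116bf58d57f382afe46d5fb13ebf512d7ef112fe0065fbd84bfb7857f048aff0985fbea6bfb7c57e6632fd4e95ff4b8bfcfa57f1262feb0d)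 b59016 (.tok (nat_lit 3) (nat_lit 0xbfac2d7f6f82ff6545fc972bf917d800003000005fca76c000017f0abaff37c5fe656bf465d7eb76aff37c5fb21cbfc5d97f9be2ffcfd5fe6f8bfcdf17eca5afd0e65fc2f0bf6b1d7f9be2ff2b65fd366bfcd497f7dc2febf55fd894bfbf657f7192ff2f65fe5babfbd997f4edafe9db5fd3b6bfa7697f8502ff3045fe60ebfcc097f7c5aff37c5fe6f8bfcdf17f9be2fff9c600000c000017ffa8aff68a5fa1e8bf37117ef4a2fdbfc5fa05cbf82557f09dafeced5fce86bfb8d97f56d2fee305fd598bfb8c17eb752fde8b600000c000017f4c72ff899) (.hit (nat_lit 158) (nat_lit 1) (nat_lit 0xbf2ecd7e22c2fda725f87f2bf0e7d7eca7afd96a5f88f6bf65d57e04bafd2bc5fa010bec35d7db16afd2bc5f709cbf43817e95e2fd7f25fa578bf4af17dc45afb0265f8170bee81d7e95e2fd1f65f98ecbf4a497e77c2fcb355f9714bf3c657e6b92fd2365fa43abf3a997e5d9afcbb35f9766bf2ecd7e7f02fd2445fa48ebf49097e765afd2bc5fa578bf4af17e95e2fe3385fb05cbf69157f3a9afe5f25f6068beb4117deea2fbb3c5f5edcbf26117e5152fd8f25fa4aabf4a117e5e0afd2835f9766bf4a0d7dfecafc77a5fcac0bf7a7d7e9fe2fd899)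 b59017 (.one (nat_lit 14) (nat_lit 160) (nat_lit 4) (nat_lit 0xbfa2a57f6f82fef925fa1c2bf4389800003000005fa1c2c000017e8b32fea6d5fdaf8beed6d7e058afea6d5f85a4bfb8997f5acaff61a5fd4babfba897e187afbaaa5f9678bf122d7f5e5afe8915fd366bfa2a17f42c2fe7ef5fd086bf99bd7f37e2fedaa5fd142bf9bf57f3bcafe7795fcef2bf9de17f454afe6b95fcd6cbf9ac57f347afe7fa5fcfe8bf9fd17f3fa2fff9c600000bfffa57fcceaff68a5f7570bede217e42c2fc5c05f73e4bf627d7eca2afdee35fc01cbfb8d97f43c2fee305fd0d4bfb8c17e77a2fd6955ffbbabfc8b97f4bcafef02) b59018 (.one (nat_lit 56) (nat_lit 162) (nat_lit 6) (nat_lit 0xbfac2d7f4e8aff6545fc972bf917d7f4fb2ffd385fca76bfdf997f0abaff37c5fe656bf465d7eb76aff37c5fb21cbfc5d97f9be2ffcfd5fe6f8bfcdf17eca5afd0e65fc2f0bf6b1d7f9be2ff2b65fcee6bfcd497f7dc2febf55fd894bfbf657f7192ff2f65fe5babfbd997f4edafe9db5fd3b6bfa7697f8502ff3045fe60ebfcc097f7c5aff37c5fe6f8bfcdf17f9be2ff9585fe69ac000017ffa8aff41e5fa1e8bf37117ef4a2fdbfc5fa05cbf82557f09dafeced5fce86bf8b357f56d2fe72f5fd598bf9aa97eb752fde8b600000c000017f4c72ff899)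 b59020 (.one (nat_lit 68) (nat_lit 161) (nat_lit 5) (nat_lit 0xbf7a217efa72fe1465facacbf57f17fa54aff8465fadb0bfe1457e97a2fe5195fd222bf0cd17e4452fe5195f9556bfa1717f29fafeeee5fca32bfa1ed7e5742fc2835fa62abf31917f2e42fe4535fc9b6bf93bd7f114afe1ec5fc480bf85d97f065afe8ad5fc8f4bf840d7f0bb2fe1765fc2ecbf85d57f1522fe4a15fc948bf927d7f0942fe5195fca32bf94657f28caff8ef5fdd7ebfd5557fda12ff0705f8522befd857e818afcd995f8396bf6e6d7ee20afe1b55fbadebfa0f17f13aafe82d5fc4cebfa0b57e8f82fd9915fed08bfc8317f4ae2fec63) b59019 (.nil))))) (.nil))) (.nil))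
noncomputable def r86_15 : Rw Blk := .tok (nat_lit 3) (nat_lit 0xbc0001780002fdd265fc844bfaf0d7f215afeb045fd19ebfa7ad7f472afe7f9) (.hit (nat_lit 61) (nat_lit 0) (nat_lit 0xbc0001780002fca655fa036bf61157e8532fd7925f9e3cbf47897eadeafd2ca) b59021 (.tok (nat_lit 14) (nat_lit 0xbc0001780002fdd265fc844bfaf0d7f215afeb045fd19ebfa7ad7f472afe7f9) (.hit (nat_lit 82) (nat_lit 61) (nat_lit 0xbc0001780002fdd265fc402bf98397f1862fe8c05fbb92bf7f817f2882fe688) b59022 (.one (nat_lit 3) (nat_lit 83) (nat_lit 62) (nat_lit 0xbc0001780002fb7845f794abf2e497ded52fd2e45f9b56bf25217e7c12fc6af) b59023 (.tok (nat_lit 6) (nat_lit 0xbc0001780002fbc0f5f8260bf40757e11aafd76f5fa46cbf374d7ea06afcb3a) (.hit (nat_lit 86) (nat_lit 65) (nat_lit 0xbc0001780002fbb345f80aabf3d097e0ad2fd6945fa2b6bf33e17e9992fca5f) b59026 (.hit (nat_lit 87) (nat_lit 66) (nat_lit 0xbc0001780002fbc0f5f8260bf40757e11aafd76f5fa46cbf374d7ea06afcb3a)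 b59027 (.nil))) (.tok (nat_lit 9) (nat_lit 0xbc0001780002fdb285fc844bfaf0d7f215afeb045fd19ebfa7ad7f472afe7f9) (.hit (nat_lit 84) (nat_lit 63) (nat_lit 0xbc0001780002fdb285fc844bfaf0d7f215afeb045fd19ebfa7ad7f472afe7f9) b59024 (.hit (nat_lit 85) (nat_lit 64) (nat_lit 0xbc0001780002fba415f7ec4bf393d7e033afd5a15fa0d0bf30157e91fafc96c) b59025 (.nil))) (.nil))))) (.one (nat_lit 17) (nat_lit 88) (nat_lit 67) (nat_lit 0xbc0001780002fb3265f708ebf1cd17dca62fce865f929abf13a97e5922fc251) b59028 (.tok (nat_lit 20) (nat_lit 0xbc0001780002fb94f5f7ce0bf35757dfbaafd4af5f9eecbf2c4d7e8a6afc87a) (.hit (nat_lit 89) (nat_lit 68) (nat_lit 0xbc0001780002fb94f5f7ce0bf35757dfbaafd4af5f9eecbf2c4d7e8a6afc87a) b59029 (.hit (nat_lit 90) (nat_lit 69) (nat_lit 0xbc0001780002fb12f5f6ca0bf14f57dbaaafcc8f5f8eacbf0bcd7e496afc05a) b59030 (.nil))) (.tok (nat_lit 23) (nat_lit 0xbc0001780002fbf745f892abf4e097e2cd2fdad45fab36bf44e17ebb92fce9f)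 (.hit (nat_lit 91) (nat_lit 70) (nat_lit 0xbc0001780002fbf745f892abf4e097e2cd2fdad45fab36bf44e17ebb92fce9f) b59031 (.hit (nat_lit 92) (nat_lit 71) (nat_lit 0xbc0001780002fb14f5f6ce0bf15757dbbaafccaf5f8eecbf0c4d7e4a6afc07a) b59032 (.nil))) (.one (nat_lit 26) (nat_lit 93) (nat_lit 72) (nat_lit 0xbc0001780002f9eb45f47aabecb097d26d2fba145f69b6bec1e17db592faddf) b59033 (.one (nat_lit 29) (nat_lit 94) (nat_lit 73) (nat_lit 0xbc0001780002fa13f5f4cc0bed5357d3b2afbc9f5f6eccbecc0d7dc9eafb06a) b59034 (.one (nat_lit 32) (nat_lit 95) (nat_lit 74) (nat_lit 0xbc0001780002faa6e5f5f1ebef9f17d84a2fc5ce5f812abef0c97e1362fb999) b59035 (.one (nat_lit 35) (nat_lit 96) (nat_lit 75) (nat_lit 0xbc0001780002fa5605f5502bee5b97d5c32fc0c05f770ebedc917deaf2fb48b) b59036 (.one (nat_lit 50) (nat_lit 104) (nat_lit 83) (nat_lit 0xbc0001780002fb0c85f6bd2bf13597db772fcc285f8ddebf0a317e4632fbff3) b59037 (.tok (nat_lit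 53) (nat_lit 0xbc0001780002fb4135f7268bf20857dd1cafcf735f9474bf175d7e608afc33e) (.hit (nat_lit 105) (nat_lit 84) (nat_lit 0xbc0001780002fb4135f7268bf20857dd1cafcf735f9474bf175d7e608afc33e) b59038 (.hit (nat_lit 106) (nat_lit 85) (nat_lit 0xbc0001780002fad3b5f64b8bf05257d9b0afc89b5f86c4befbfd7e29cafbc66) b59039 (.nil))) (.tok (nat_lit 56) (nat_lit 0xbc0001780002fcdd65fc5e4bf98317f1c72fe5225fb77cbf807d7f05aafdf6d) (.hit (nat_lit 107) (nat_lit 86) (nat_lit 0xbc0001780002fcdd65fb804bf84397ee432fe02f5fb56cbf807d7ed3b2fdb93) b59040 (.one (nat_lit 3) (nat_lit 111) (nat_lit 90) (nat_lit 0xbc0001780002fbbe25f8206bf3fc17e1042fd7425fa412bf36997e9f02fcb0d) b59044 (.tok (nat_lit 6) (nat_lit 0xbc0001780002fcdcd5fc5e4bf98317f1c72fe5225fb77cbf74657f05aafdf6d) (.hit (nat_lit 109) (nat_lit 88) (nat_lit 0xbc0001780002fcdcd5fc5e4bf98317f1c72fe5225fb77cbf74657f05aafdf6d) b59042 (.hit (nat_lit 110)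 (nat_lit 89) (nat_lit 0xbc0001780002fbc165f826ebf40917e11e2fd7765fa47abf37697ea0a2fcb41) b59043 (.nil))) (.one (nat_lit 9) (nat_lit 108) (nat_lit 87) (nat_lit 0xbc0001780002fbee95f8814bf4bdd7e287afda495faa20bf42b57eb73afce14) b59041 (.nil))))) (.one (nat_lit 59) (nat_lit 112) (nat_lit 91) (nat_lit 0xbc0001780002f9c795f4334bec21d7d14fafb7d95f6540beb8f57da3bafaba4) b59045 (.one (nat_lit 62) (nat_lit 113) (nat_lit 92) (nat_lit 0xbc0001780002fb7915f7964bf2e7d7dedbafd2f15f9b70bf25557e7c7afc6bc) b59046 (.tok (nat_lit 65) (nat_lit 0xbc0001780002fbd4a5f84d6bf45617e1b82fd8aa5fa6e2bf3c397eaa42fcc75) (.hit (nat_lit 114) (nat_lit 93) (nat_lit 0xbc0001780002fbd4a5f84d6bf45617e1b82fd8aa5fa6e2bf3c397eaa42fcc75) b59047 (.hit (nat_lit 115) (nat_lit 94) (nat_lit 0xbc0001780002fad4e5f64debf05717d9ba2fc8ae5f86eabefc497e2a62fbc79) b59048 (.nil))) (.tok (nat_lit 68) (nat_lit 0xbc0001780002fdc3d5fba16bfa7ad7ed0eafe90c5fc1e6bf9fe17f1652fe470)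 (.hit (nat_lit 116) (nat_lit 95) (nat_lit 0xbc0001780002fdc3d5fba16bfa7ad7ed0eafe90c5fb13abf9fe17ed252fe470) b59049 (.one (nat_lit 3) (nat_lit 120) (nat_lit 99) (nat_lit 0xbc0001780002fc2d05f8fe2bf5b797e47b2fde305fb1eebf52517ed672fd1fb) b59053 (.one (nat_lit 6) (nat_lit 117) (nat_lit 96) (nat_lit 0xbc0001780002fc5d75f95f0bf67957e5feafe1375fb7fcbf5e6d7eeeaafd502) b59050 (.tok (nat_lit 9) (nat_lit 0xbc0001780002fcacc5f9fdabf7b697e8792fe62c5fc1e6bf72417f1652fd9f7) (.hit (nat_lit 118) (nat_lit 97) (nat_lit 0xbc0001780002fc6375f96b0bf69157e62eafe1975fb8bcbf5fed7ef1aafd562) b59051 (.hit (nat_lit 119) (nat_lit 98) (nat_lit 0xbc0001780002fcacc5f9fdabf7b697e8792fe62c5fc1e6bf72417f1652fd9f7) b59052 (.nil))) (.nil))))) (.one (nat_lit 71) (nat_lit 121) (nat_lit 100) (nat_lit 0xbc0001780002f9c595f42f4bec19d7d13fafb7b95f6500beb8757da2bafab84) b59054 (.nil)))))))))))))))))) (.tok (nat_lit 40)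 (nat_lit 0xbc00017800030356e607488c0f97581a62b0361e6070dac0e70581647302c84) (.hit (nat_lit 245) (nat_lit 0) (nat_lit 0xbc0001780003005b8600adac030098021d300aca600e9cc032a180363b00967) b59055 (.tok (nat_lit 6) (nat_lit 0xbc00017800030356e607488c0f97581a62b0361e6070dac0e70581647302c84) (.hit (nat_lit 246) (nat_lit 7) (nat_lit 0xbc00017800030356e607488c0f97581a62b0361e6070dac0e70581647302c84) b59056 (.hit (nat_lit 247) (nat_lit 15) (nat_lit 0xbc0001780002fee465fe47abfdd797fa172ff6b45fe774bfd1117f94aaff057) b59057 (.nil))) (.tok (nat_lit 9) (nat_lit 0xbc0001780002ff2a0600754bff7657ff16affc095ffaf0c00bc57fdc6afff03) (.hit (nat_lit 248) (nat_lit 20) (nat_lit 0xbc0001780002ff2a0600754bff7657ff16affc095ffaf0c00bc57fdc6afff03) b59058 (.hit (nat_lit 249) (nat_lit 28) (nat_lit 0xbc0001780002fdd735ffc70bfdc597fc102ff9c45fed16bff8dd7fae42ff5ba) b59059 (.nil))) (.nil)))) (.tok (nat_lit 43)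 (nat_lit 0xbc000178000302467606582c0e3e981aaeb038df6041c4c0add981ab5b030df) (.hit (nat_lit 270) (nat_lit 0) (nat_lit 0xbc0001780002ff63e602604c04dc58059b300a94600134c01ead7ff2faffe13) b59068 (.tok (nat_lit 3) (nat_lit 0xbc000178000302467606582c0e3e981aaeb038df602d3ec0670981ab5b030df) (.hit (nat_lit 271) (nat_lit 1) (nat_lit 0xbc0001780002fed82600028c004798000b2fff905ff4f8bfea357ff032ffaa2) b59069 (.one (nat_lit 67) (nat_lit 272) (nat_lit 2) (nat_lit 0xbc000178000302467606582c0e3e981aaeb038df602d3ec0670981ab5b030df) b59070 (.nil))) (.tok (nat_lit 6) (nat_lit 0xbc000178000300d39605dd2c0a421813d1b026356041c4c0add981111b0291b) (.hit (nat_lit 273) (nat_lit 7) (nat_lit 0xbc0001780002fe0625ff6a4bfef617f64caff1a05fd5aabfd3357f4822ff122) b59071 (.hit (nat_lit 276) (nat_lit 15) (nat_lit 0xbc0001780002fe5095ff9d8bff3dd7fe432ffbc15fe914bfd3817fd28aff712) b59074 (.tok (nat_lit 55) (nat_lit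 0xbc000178000300d39605dd2c0a421813d1b026356041c4c0add981111b0291b) (.hit (nat_lit 274) (nat_lit 8) (nat_lit 0xbc0001780002fed9c602842c036858066d300a2e60016ec02fa18010eb00860) b59072 (.hit (nat_lit 277) (nat_lit 16) (nat_lit 0xbc000178000300d39605170c09189811d3b0263560174ac03e9580ff830221f) b59075 (.one (nat_lit 6) (nat_lit 275) (nat_lit 9) (nat_lit 0xbc0001780003009c4605dd2c0a421813d1b025916041c4c0add981111b0291b) b59073 (.nil)))) (.nil)))) (.nil)))) (.tok (nat_lit 46) (nat_lit 0xbc00017800030029b600f88c028317fe692ffcf75ffe50bffc657fd612ff85d) (.hit (nat_lit 256) (nat_lit 0) (nat_lit 0xbc00017800030029b600f88c028317fdc9affcf75ffe50bffc657faea2ff85d) b59060 (.tok (nat_lit 3) (nat_lit 0xbc0001780002fe3c85fdf12bfc8597f7f6afef185fdc26bfb8917f6eeafea79) (.hit (nat_lit 257) (nat_lit 1) (nat_lit 0xbc0001780002fcbd75faf30bf68957ebfe2fd7275fac44bf58cd7eaf62fd288) b59061 (.one (nat_lit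 55) (nat_lit 258) (nat_lit 3) (nat_lit 0xbc0001780002fe3c85fdf12bfc8597f7f6afef185fdc26bfb8917f6eeafea79) b59062 (.nil))) (.tok (nat_lit 9) (nat_lit 0xbc0001780002ff0ad5ff8dcbffbed7fe692ffbfd5ff5f0bfec257fd612ff75e) (.hit (nat_lit 259) (nat_lit 20) (nat_lit 0xbc0001780002fd3a15fbec4bf87bd7efe32fdef15fbbd8bf77f57eedb2fda52) b59063 (.hit (nat_lit 262) (nat_lit 28) (nat_lit 0xbc0001780002fce725fb466bf73017ed4bafd9c25fb17abf63397ec43afd523) b59066 (.tok (nat_lit 67) (nat_lit 0xbc0001780002ff0ad5ff8dcbffbed7fe692ffbfd5ff5f0bfec257fd612ff75e) (.hit (nat_lit 260) (nat_lit 21) (nat_lit 0xbc0001780002fe9e95feb54bfe0dd7fb072ff5395fe868bfd1157f9ff2ff09a) b59064 (.hit (nat_lit 263) (nat_lit 29) (nat_lit 0xbc0001780002ff0ad5ff8dcbffbed7fe692ffbfd5ff5f0bfec257fd612ff75e) b59067 (.one (nat_lit 9) (nat_lit 261) (nat_lit 22) (nat_lit 0xbc0001780002fee105ff3a2bff1797fd1aaff9605ff0b6bfe1b17fc12aff4c1)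 b59065 (.nil)))) (.nil)))) (.nil)))) (.nil))))
noncomputable def r86_16 : Rw Blk := .tok (nat_lit 3) (nat_lit 0x5e0000bc00017ec9d2fea4f5fd7eebfa5397f42a2feb39) (.hit (nat_lit 61) (nat_lit 0) (nat_lit 0x5e0000bc00017e1f02fd3875fa7acbf4d4d7e819afd4ec) b59076 (.tok (nat_lit 14) (nat_lit 0x5e0000bc00017ec44afe9795fd0f6bfa3917f26c2fea90) (.hit (nat_lit 82) (nat_lit 61) (nat_lit 0x5e0000bc00017eaa8afe32f5fc990bf8c417f092afe29e) b59077 (.one (nat_lit 3) (nat_lit 83) (nat_lit 62) (nat_lit 0x5e0000bc00017e3f62fc59c5faec0bf59217e9bdafcb24) b59078 (.tok (nat_lit 6) (nat_lit 0x5e0000bc00017ec44afe9795fd0f6bfa3917f26c2fea90) (.hit (nat_lit 86) (nat_lit 65) (nat_lit 0x5e0000bc00017ec44afe9795fd0f6bfa3917f26c2fea90) b59081 (.hit (nat_lit 87) (nat_lit 66) (nat_lit 0x5e0000bc00017e0e3afbf775fa276bf408d7e6ab2fc4ff) b59082 (.nil))) (.tok (nat_lit 9) (nat_lit 0x5e0000bc00017eb9c2fe1035fcfc0bf9b4d7f211afe197)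 (.hit (nat_lit 84) (nat_lit 63) (nat_lit 0x5e0000bc00017eb9c2fe1035fcfc0bf9b4d7f211afe197) b59079 (.hit (nat_lit 85) (nat_lit 64) (nat_lit 0x5e0000bc00017e8ba2fcf245fc1d0bf7f417ee81afd4ac) b59080 (.nil))) (.nil))))) (.one (nat_lit 17) (nat_lit 88) (nat_lit 67) (nat_lit 0x5e0000bc00017e06c2fbe885fa098bf3cd17e633afc410) b59083 (.tok (nat_lit 20) (nat_lit 0x5e0000bc00017dd972fb8de5f9544bf26297e35eafbe66) (.hit (nat_lit 89) (nat_lit 68) (nat_lit 0x5e0000bc00017dd972fb8de5f9544bf26297e35eafbe66) b59084 (.hit (nat_lit 90) (nat_lit 69) (nat_lit 0x5e0000bc00017d972afb0955f84b2bf05057df3a2fb61d) b59085 (.nil))) (.tok (nat_lit 23) (nat_lit 0x5e0000bc00017dd142fb7d85f9338bf22117e2dbafbd60) (.hit (nat_lit 91) (nat_lit 70) (nat_lit 0x5e0000bc00017dd142fb7d85f9338bf22117e2dbafbd60) b59086 (.hit (nat_lit 92) (nat_lit 71) (nat_lit 0x5e0000bc00017d972afb0955f84b2bf05057df3a2fb61d) b59085 (.nil)))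 (.one (nat_lit 26) (nat_lit 93) (nat_lit 72) (nat_lit 0x5e0000bc00017d3b6afa51d5f6dc2bed7257d97e2faaa5) b59087 (.one (nat_lit 29) (nat_lit 94) (nat_lit 73) (nat_lit 0x5e0000bc00017d414afa5d95f6f3abeda157d9dc2fab61) b59088 (.one (nat_lit 32) (nat_lit 95) (nat_lit 74) (nat_lit 0x5e0000bc00017d68b2faac65f7914beedc97dc52afb04e) b59089 (.one (nat_lit 35) (nat_lit 96) (nat_lit 75) (nat_lit 0x5e0000bc00017d1af2fa10e5f65a4bec6e97d776afa696) b59090 (.one (nat_lit 50) (nat_lit 104) (nat_lit 83) (nat_lit 0x5e0000bc00017d8c32faf365f81f4beff897de8aafb4be) b59091 (.tok (nat_lit 53) (nat_lit 0x5e0000bc00017dd90afb8d15f952abf25f57e3582fbe59) (.hit (nat_lit 105) (nat_lit 84) (nat_lit 0x5e0000bc00017da862fb2bc5f8900bf0da17e04dafb844) b59092 (.hit (nat_lit 106) (nat_lit 85) (nat_lit 0x5e0000bc00017dd90afb8d15f952abf25f57e3582fbe59) b59093 (.nil))) (.tok (nat_lit 56) (nat_lit 0x5e0000bc00017e6342fe0f95fc5b8bf816d7ef9cafe244)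 (.hit (nat_lit 107) (nat_lit 86) (nat_lit 0x5e0000bc00017e5c9afde7c5fc5b8bf77797ef9cafdfc7) b59094 (.one (nat_lit 3) (nat_lit 111) (nat_lit 90) (nat_lit 0x5e0000bc00017e203afc1b75fa6f6bf498d7e7cb2fc73f) b59098 (.tok (nat_lit 6) (nat_lit 0x5e0000bc00017e6342fe0f95fc37abf816d7ef0d2fe244) (.hit (nat_lit 109) (nat_lit 88) (nat_lit 0x5e0000bc00017e6342fe0f95fc37abf816d7ef0d2fe244) b59096 (.hit (nat_lit 110) (nat_lit 89) (nat_lit 0x5e0000bc00017dd68afb8815f948abf24b57e3302fbe09) b59097 (.nil))) (.one (nat_lit 9) (nat_lit 108) (nat_lit 87) (nat_lit 0x5e0000bc00017e1d22fc1545fa630bf48017e799afc6dc) b59095 (.nil))))) (.one (nat_lit 59) (nat_lit 112) (nat_lit 91) (nat_lit 0x5e0000bc00017cf732f9c965f5cb4beb5097d53aafa21e) b59099 (.one (nat_lit 62) (nat_lit 113) (nat_lit 92) (nat_lit 0x5e0000bc00017daea2fb3845f8a90bf10c17e0b1afb90c) b59100 (.tok (nat_lit 65) (nat_lit 0x5e0000bc00017e3902fc4d05fad28bf55f17e957afca58)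 (.hit (nat_lit 114) (nat_lit 93) (nat_lit 0x5e0000bc00017e3902fc4d05fad28bf55f17e957afca58) b59101 (.hit (nat_lit 115) (nat_lit 94) (nat_lit 0x5e0000bc00017db9f2fb4ee5f8d64bf16697e166afba76) b59102 (.nil))) (.tok (nat_lit 68) (nat_lit 0x5e0000bc00017ec9d2fea4f5fd7eebfa5397f42a2feb39) (.hit (nat_lit 116) (nat_lit 95) (nat_lit 0x5e0000bc00017ead2afe69f5fd7eebf98057f42a2fe7ea) b59103 (.one (nat_lit 3) (nat_lit 120) (nat_lit 99) (nat_lit 0x5e0000bc00017dd052fb7ba5f92fcbf21997e2ccafbd42) b59107 (.one (nat_lit 6) (nat_lit 117) (nat_lit 96) (nat_lit 0x5e0000bc00017e8862fcebc5fc100bf7da17ee4dafd444) b59104 (.tok (nat_lit 9) (nat_lit 0x5e0000bc00017ec9d2fea4f5fd290bfa5397f2d2afeb39) (.hit (nat_lit 118) (nat_lit 97) (nat_lit 0x5e0000bc00017ec9d2fea4f5fd290bfa5397f2d2afeb39) b59105 (.hit (nat_lit 119) (nat_lit 98) (nat_lit 0x5e0000bc00017d9b3afb1175f85b6bf070d7df7b2fb69f) b59106 (.nil)))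 (.nil))))) (.one (nat_lit 71) (nat_lit 121) (nat_lit 100) (nat_lit 0x5e0000bc00017cf69af9c835f5c8ebeb4bd7d5312fa20b) b59108 (.nil)))))))))))))))))) (.tok (nat_lit 40) (nat_lit 0x5e0000bc00017fb4730023d600a12c00801801b4300349) (.hit (nat_lit 245) (nat_lit 0) (nat_lit 0x5e0000bc00017fb472ffc3b600648bfee9180132affd86) b59109 (.tok (nat_lit 6) (nat_lit 0x5e0000bc00017fadf2ffded600a12c008017ffb3affd9d) (.hit (nat_lit 246) (nat_lit 7) (nat_lit 0x5e0000bc00017fadf2ffded600a12c008017ffb3affd9d) b59110 (.hit (nat_lit 247) (nat_lit 15) (nat_lit 0x5e0000bc00017f4b62ff6425ff33cbfd6bd7f91faff759) b59111 (.nil))) (.tok (nat_lit 9) (nat_lit 0x5e0000bc00017f260b0023d5fff20c0044d801b4300349) (.hit (nat_lit 248) (nat_lit 20) (nat_lit 0x5e0000bc00017f260b0023d5fff20c0044d801b4300349) b59112 (.hit (nat_lit 249) (nat_lit 28) (nat_lit 0x5e0000bc00017ef512ff4985ff04ebfcfc57fa61aff5df) b59113 (.nil)))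 (.nil)))) (.tok (nat_lit 43) (nat_lit 0x5e0000bc000180b2c302781604ce6c09c958118a302499) (.hit (nat_lit 270) (nat_lit 0) (nat_lit 0x5e0000bc00017f89b2ffe09600294c006b17fe402fff61) b59122 (.tok (nat_lit 3) (nat_lit 0x5e0000bc000180b2c302781604ce6c09c958118a302499) (.hit (nat_lit 271) (nat_lit 1) (nat_lit 0x5e0000bc00017f1592ffa5f5ff1babfe7057fa9d2ffbaa) b59123 (.one (nat_lit 67) (nat_lit 272) (nat_lit 2) (nat_lit 0x5e0000bc000180b2c302781604ce6c09c958118a302499) b59124 (.nil))) (.tok (nat_lit 6) (nat_lit 0x5e0000bc00017fe65b0161e602466c047c580d813013f0) (.hit (nat_lit 273) (nat_lit 7) (nat_lit 0x5e0000bc00017f2772ff32a5ff02ebfca317fd2faff475) b59125 (.hit (nat_lit 276) (nat_lit 15) (nat_lit 0x5e0000bc00017ede1aff6bc5fea2cbfd7f97f8cbaff7f8) b59128 (.tok (nat_lit 55) (nat_lit 0x5e0000bc00017fe65b0161e602466c047c580d813013f0) (.hit (nat_lit 274) (nat_lit 8) (nat_lit 0x5e0000bc00017fa68300b3d601c48c02481807a7300bb0)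 b59126 (.hit (nat_lit 277) (nat_lit 16) (nat_lit 0x5e0000bc00017f9bd3012b96022d2c047c580704b013f0) b59129 (.one (nat_lit 6) (nat_lit 275) (nat_lit 9) (nat_lit 0x5e0000bc00017fe65b0161e602466c0457180d813013b1) b59127 (.nil)))) (.nil)))) (.nil)))) (.tok (nat_lit 46) (nat_lit 0x5e0000bc000180530301fa56040acc085cd80e76b0226e) (.hit (nat_lit 256) (nat_lit 0) (nat_lit 0x5e0000bc00017fa7e3003ad600456c00c3d7ff443004ba) b59114 (.tok (nat_lit 3) (nat_lit 0x5e0000bc0001801173013a2602440c04c118073eb014ef) (.hit (nat_lit 257) (nat_lit 1) (nat_lit 0x5e0000bc00017f07daff51b5fe732bfd1f57f7fb2ff666) b59115 (.one (nat_lit 55) (nat_lit 258) (nat_lit 3) (nat_lit 0x5e0000bc0001801173013a2602440c04c118073eb014ef) b59116 (.nil))) (.tok (nat_lit 9) (nat_lit 0x5e0000bc000180530301fa56040acc085cd80e76b0226e) (.hit (nat_lit 259) (nat_lit 20) (nat_lit 0x5e0000bc00017fe923010f8601f00c04191805eeb00e6c) b59117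 (.hit (nat_lit 262) (nat_lit 28) (nat_lit 0x5e0000bc00017f8d7b00402600536c00dfd7ff7c30033c) b59120 (.tok (nat_lit 67) (nat_lit 0x5e0000bc000180530301fa56040acc085cd80e76b0226e) (.hit (nat_lit 260) (nat_lit 21) (nat_lit 0x5e0000bc00018034bb01fa5603d52c0746980da1301ad9) b59118 (.hit (nat_lit 263) (nat_lit 29) (nat_lit 0x5e0000bc000180451b01aa460325ac0684980ac5b01bc9) b59121 (.one (nat_lit 9) (nat_lit 261) (nat_lit 22) (nat_lit 0x5e0000bc000180530301d7e6040acc085cd80e76b0226e) b59119 (.nil)))) (.nil)))) (.nil)))) (.nil))))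
noncomputable def r86_17 : Rw Blk := .tok (nat_lit 3) (nat_lit 0x2f00005e0000c0000180000300000600000c0000180000300000) (.hit (nat_lit 61) (nat_lit 0) (nat_lit 0x2f00005e0000bfb4fd7f517afe3185fd0a4bfa6717f2a32fe8c9) b59130 (.tok (nat_lit 14) (nat_lit 0x2f00005e0000c0000180000300000600000c0000180000300000) (.hit (nat_lit 82) (nat_lit 61) (nat_lit 0x2f00005e0000c000017fdd6aff7dd5ff6d8bff2957fa1caffbbc) b59131 (.one (nat_lit 3) (nat_lit 83) (nat_lit 62) (nat_lit 0x2f00005e0000bf69797f396afe5215fc3eabf98c97f21eafe235) b59132 (.tok (nat_lit 6) (nat_lit 0x2f00005e0000bff80980000300000600000c0000180000300000) (.hit (nat_lit 86) (nat_lit 65) (nat_lit 0x2f00005e0000bff80980000300000600000c0000180000300000) b59135 (.hit (nat_lit 87) (nat_lit 66) (nat_lit 0x2f00005e0000bf746d7f4f52fe7de5fc964bfa3bd7f37d2fe4f2) b59136 (.nil))) (.tok (nat_lit 9) (nat_lit 0x2f00005e0000bf7ba57f5dc2fe9ac5fcd00bfaaf57f4642fe6c0)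 (.hit (nat_lit 84) (nat_lit 63) (nat_lit 0x2f00005e0000bf78397f56eafe8d15fcb4abfa7897f3f6afe5e5) b59133 (.hit (nat_lit 85) (nat_lit 64) (nat_lit 0x2f00005e0000bf7ba57f5dc2fe9ac5fcd00bfaaf57f4642fe6c0) b59134 (.nil))) (.nil))))) (.one (nat_lit 17) (nat_lit 88) (nat_lit 67) (nat_lit 0x2f00005e0000bf58017f167afe0c35fbb2ebf87517efefafddd7) b59137 (.tok (nat_lit 20) (nat_lit 0x2f00005e0000bf89397f78eafed115fd3cabfb8897f616afea25) (.hit (nat_lit 89) (nat_lit 68) (nat_lit 0x2f00005e0000bf89397f78eafed115fd3cabfb8897f616afea25) b59138 (.hit (nat_lit 90) (nat_lit 69) (nat_lit 0x2f00005e0000bf50a57f07c2fdeec5fb780bf7ff57ef042fdc00) b59139 (.nil))) (.tok (nat_lit 23) (nat_lit 0x2f00005e0000bf70a57f47c2fe6ec5fc780bf9ff57f3042fe400) (.hit (nat_lit 91) (nat_lit 70) (nat_lit 0x2f00005e0000bf70a57f47c2fe6ec5fc780bf9ff57f3042fe400) b59140 (.hit (nat_lit 92) (nat_lit 71) (nat_lit 0x2f00005e0000bf50257f06c2fdecc5fb740bf7f757eef42fdbe0)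 b59141 (.nil))) (.one (nat_lit 38) (nat_lit 97) (nat_lit 76) (nat_lit 0x2f00005e0000bf4c817eff7afdde35fb56ebf7bd17ee7fafdaf7) b59142 (.tok (nat_lit 41) (nat_lit 0x2f00005e0000bf456d7ef152fdc1e5fb1e4bf74bd7ed9d2fd932) (.hit (nat_lit 98) (nat_lit 77) (nat_lit 0x2f00005e0000beeb7d7e3d72fc5a25f84ecbf1acd7e25f2fc2b6) b59143 (.hit (nat_lit 99) (nat_lit 78) (nat_lit 0x2f00005e0000bf456d7ef152fdc1e5fb1e4bf74bd7ed9d2fd932) b59144 (.nil))) (.tok (nat_lit 44) (nat_lit 0x2f00005e0000bf31d57eca22fd7385fa818bf61257eb2a2fd44c) (.hit (nat_lit 100) (nat_lit 79) (nat_lit 0x2f00005e0000bf2ded7ec252fd63e5fa624bf5d3d7eaad2fd352) b59145 (.hit (nat_lit 101) (nat_lit 80) (nat_lit 0x2f00005e0000bf31d57eca22fd7385fa818bf61257eb2a2fd44c) b59146 (.nil))) (.tok (nat_lit 47) (nat_lit 0x2f00005e0000bf2e217ec2bafd64b5fa63ebf5d717eab3afd35f) (.hit (nat_lit 102) (nat_lit 81) (nat_lit 0x2f00005e0000befbcd7e5e12fc9b65f8d14bf2b1d7e4692fc6ca)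 b59147 (.hit (nat_lit 103) (nat_lit 82) (nat_lit 0x2f00005e0000bf2e217ec2bafd64b5fa63ebf5d717eab3afd35f) b59148 (.nil))) (.one (nat_lit 50) (nat_lit 104) (nat_lit 83) (nat_lit 0x2f00005e0000bf69ad7f39d2fe52e5fc404bf98fd7f2252fe242) b59149 (.tok (nat_lit 53) (nat_lit 0x2f00005e0000bf80917f679afeae75fcf76bfafe17f501afe7fb) (.hit (nat_lit 105) (nat_lit 84) (nat_lit 0x2f00005e0000bf80917f679afeae75fcf76bfafe17f501afe7fb) b59150 (.hit (nat_lit 106) (nat_lit 85) (nat_lit 0x2f00005e0000bf40a17ee7bafdaeb5faf7ebf6ff17ed03afd7ff) b59151 (.nil))) (.tok (nat_lit 56) (nat_lit 0x2f00005e0000bffc5d7fd3aaff8695fea7abfe5e97fbc2aff57d) (.hit (nat_lit 107) (nat_lit 86) (nat_lit 0x2f00005e0000bffc5d7f8faaff5f65fd97abfe4997f782afecfd) b59152 (.one (nat_lit 3) (nat_lit 111) (nat_lit 90) (nat_lit 0x2f00005e0000bf96a97f93caff06d5fda82bfc5f97f7c4afed81) b59156 (.tok (nat_lit 6) (nat_lit 0x2f00005e0000bfb6997fd3aaff8695fea7abfe5e97fbc2aff57d)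 (.hit (nat_lit 109) (nat_lit 88) (nat_lit 0x2f00005e0000bfa4457faf02ff3d45fe150bfd3957f9782ff0e8) b59154 (.hit (nat_lit 110) (nat_lit 89) (nat_lit 0x2f00005e0000bfb6997fd3aaff8695fea7abfe5e97fbc2aff57d) b59155 (.nil))) (.one (nat_lit 9) (nat_lit 108) (nat_lit 87) (nat_lit 0x2f00005e0000bfa2c57fac02ff3745fe090bfd2157f9482ff088) b59153 (.nil))))) (.one (nat_lit 59) (nat_lit 112) (nat_lit 91) (nat_lit 0x2f00005e0000befccd7e6012fc9f65f8d94bf2c1d7e4892fc70a) b59157 (.one (nat_lit 62) (nat_lit 113) (nat_lit 92) (nat_lit 0x2f00005e0000bf4e897f038afde655fb672bf7dd97eec0afdb79) b59158 (.tok (nat_lit 65) (nat_lit 0x2f00005e0000bf5bb57f1de2fe1b05fbd08bf8b057f0662fdec4) (.hit (nat_lit 114) (nat_lit 93) (nat_lit 0x2f00005e0000bf5bb57f1de2fe1b05fbd08bf8b057f0662fdec4) b59159 (.hit (nat_lit 115) (nat_lit 94) (nat_lit 0x2f00005e0000bf40557ee722fdad85faf58bf6fa57ecfa2fd7ec) b59160 (.nil))) (.tok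 (nat_lit 68) (nat_lit 0x2f00005e0000bfc2c17fb6eaff5275fec84bfdfe57f9172ff6cc) (.hit (nat_lit 116) (nat_lit 95) (nat_lit 0x2f00005e0000bfc2c17f843aff26f5fde2ebfc7557f8932ff08d) b59161 (.one (nat_lit 3) (nat_lit 120) (nat_lit 99) (nat_lit 0x2f00005e0000bf7af17f5c5afe97f5fcca6bfaa417f44dafe693) b59165 (.one (nat_lit 6) (nat_lit 117) (nat_lit 96) (nat_lit 0x2f00005e0000bf870d7f7492fec865fd2b4bfb65d7f5d12fe99a) b59162 (.tok (nat_lit 9) (nat_lit 0x2f00005e0000bfc29d7fb6eaff5275fec84bfdfe57f9172ff6cc) (.hit (nat_lit 118) (nat_lit 97) (nat_lit 0x2f00005e0000bfc29d7fb6eaff5275fec84bfdfe57f9172ff6cc) b59163 (.hit (nat_lit 119) (nat_lit 98) (nat_lit 0x2f00005e0000bf7bc17f5dfafe9b35fcd0ebfab117f467afe6c7) b59164 (.nil))) (.nil))))) (.one (nat_lit 71) (nat_lit 121) (nat_lit 100) (nat_lit 0x2f00005e0000befd4d7e6112fca165f8dd4bf2c9d7e4992fc72a) b59166 (.nil)))))))))))))))))) (.nil)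
noncomputable def r86_18 : Rw Blk := .tok (nat_lit 3) (nat_lit 0x5e0000bc000180000300000600000c0000180000300000) (.hit (nat_lit 61) (nat_lit 0) (nat_lit 0x5e0000bc00017f5532feb675fd504bfadb97f4d42fea87) b59167 (.tok (nat_lit 14) (nat_lit 0x5e0000bc00017ffa7b000005ffffac000017ff99300000) (.hit (nat_lit 82) (nat_lit 61) (nat_lit 0x5e0000bc00017fe0baffb2d5ff6e8bfecad7fcbf2ffb79) b59168 (.one (nat_lit 3) (nat_lit 83) (nat_lit 62) (nat_lit 0x5e0000bc00017f7592feafc5fdf74bfad1d7f823afefbe) b59169 (.tok (nat_lit 6) (nat_lit 0x5e0000bc00017feff3000005ffffac000017ff22300000) (.hit (nat_lit 86) (nat_lit 65) (nat_lit 0x5e0000bc00017feff3000005ffffac000017ff22300000) b59172 (.hit (nat_lit 87) (nat_lit 66) (nat_lit 0x5e0000bc00017fc1d2ff4845ff284bfd33d7fce7aff946) b59173 (.nil))) (.tok (nat_lit 9) (nat_lit 0x5e0000bc00017ffa7affa715ffd1ebff1757ff992ffe73) (.hit (nat_lit 84) (nat_lit 63) (nat_lit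 0x5e0000bc00017ffa7affa715ffd1ebff1757ff992ffe73) b59170 (.hit (nat_lit 85) (nat_lit 64) (nat_lit 0x5e0000bc00017f446afe4d75fd32abf94897f5112fe999) b59171 (.nil))) (.nil))))) (.one (nat_lit 17) (nat_lit 88) (nat_lit 67) (nat_lit 0x5e0000bc00017f3cf2fe3e85fd14cbf90cd7f499afe8aa) b59174 (.tok (nat_lit 20) (nat_lit 0x5e0000bc00017f0772fdd385fc3ecbf760d7f141afe1fa) (.hit (nat_lit 89) (nat_lit 68) (nat_lit 0x5e0000bc00017f0772fdd385fc3ecbf760d7f141afe1fa) b59175 (.hit (nat_lit 90) (nat_lit 69) (nat_lit 0x5e0000bc00017ecd5afd5f55fb566bf59017eda02fdab7) b59176 (.nil))) (.tok (nat_lit 23) (nat_lit 0x5e0000bc00017f0fa2fde3e5fc5f8bf7a257f1c4afe300) (.hit (nat_lit 91) (nat_lit 70) (nat_lit 0x5e0000bc00017f0fa2fde3e5fc5f8bf7a257f1c4afe300) b59177 (.hit (nat_lit 92) (nat_lit 71) (nat_lit 0x5e0000bc00017ecd5afd5f55fb566bf59017eda02fdab7) b59176 (.nil))) (.one (nat_lit 38) (nat_lit 97) (nat_lit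 76) (nat_lit 0x5e0000bc00017ed6a2fd71e5fb7b8bf5da57ee34afdbe0) b59178 (.tok (nat_lit 41) (nat_lit 0x5e0000bc00017f1812fdf4c5fc814bf7e5d7f24bafe40e) (.hit (nat_lit 98) (nat_lit 77) (nat_lit 0x5e0000bc00017dfe12fbc0c5f8194bef15d7e0abafc0ce) b59179 (.hit (nat_lit 99) (nat_lit 78) (nat_lit 0x5e0000bc00017f1812fdf4c5fc814bf7e5d7f24bafe40e) b59180 (.nil))) (.tok (nat_lit 44) (nat_lit 0x5e0000bc00017ed7a2fd73e5fb7f8bf5e257ee44afdc00) (.hit (nat_lit 100) (nat_lit 79) (nat_lit 0x5e0000bc00017e792afcb6f5fa05abf2ee97e85d2fd031) b59181 (.hit (nat_lit 101) (nat_lit 80) (nat_lit 0x5e0000bc00017ed7a2fd73e5fb7f8bf5e257ee44afdc00) b59182 (.nil))) (.tok (nat_lit 47) (nat_lit 0x5e0000bc00017ea2cafd0a35faac2bf43b97eaf72fd565) (.hit (nat_lit 102) (nat_lit 81) (nat_lit 0x5e0000bc00017e4d1afc5ed5f9556bf18e17e59c2fcaaf) b59183 (.hit (nat_lit 103) (nat_lit 82) (nat_lit 0x5e0000bc00017ea2cafd0a35faac2bf43b97eaf72fd565)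 b59184 (.nil))) (.one (nat_lit 50) (nat_lit 104) (nat_lit 83) (nat_lit 0x5e0000bc00017ee4d2fd8e45fbb44bf64bd7ef17afdda6) b59185 (.tok (nat_lit 53) (nat_lit 0x5e0000bc00017f6f32fea305fdddcbfa9ed7f7bdafeef2) (.hit (nat_lit 105) (nat_lit 84) (nat_lit 0x5e0000bc00017f6f32fea305fdddcbfa9ed7f7bdafeef2) b59186 (.hit (nat_lit 106) (nat_lit 85) (nat_lit 0x5e0000bc00017ef022fda4e5fbe18bf6a657efccafdf10) b59187 (.nil))) (.tok (nat_lit 56) (nat_lit 0x5e0000bc0001800002ffcff600000bff3ed800002ffff9) (.hit (nat_lit 107) (nat_lit 86) (nat_lit 0x5e0000bc00017fe35aff984600000bfe6917fe2b2ffe18) b59188 (.one (nat_lit 3) (nat_lit 111) (nat_lit 90) (nat_lit 0x5e0000bc00017f0682fdd1a5fc3b0bf75957f132afe1dc) b59192 (.tok (nat_lit 6) (nat_lit 0x5e0000bc0001800002ffcff5fffe8bff3ed800002ffff9) (.hit (nat_lit 109) (nat_lit 88) (nat_lit 0x5e0000bc0001800002ffcff5fffe8bff3ed800002ffff9) b59190 (.hit (nat_lit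 110) (nat_lit 89) (nat_lit 0x5e0000bc00017ed16afd6775fb66abf5b097ede12fdb39) b59191 (.nil))) (.one (nat_lit 9) (nat_lit 108) (nat_lit 87) (nat_lit 0x5e0000bc00017fbe92ff41c5ff1b4bfd19d7fcb3aff8de) b59189 (.nil))))) (.one (nat_lit 59) (nat_lit 112) (nat_lit 91) (nat_lit 0x5e0000bc00017e2ccafc1e35f8d42bf08b97e3972fc6a5) b59193 (.one (nat_lit 62) (nat_lit 113) (nat_lit 92) (nat_lit 0x5e0000bc00017ec262fd4965fb2a8bf53857ecf0afd958) b59194 (.tok (nat_lit 65) (nat_lit 0x5e0000bc00017f0f3afde315fc5debf79f17f1be2fe2f3) (.hit (nat_lit 114) (nat_lit 93) (nat_lit 0x5e0000bc00017ede92fd81c5fb9b4bf619d7eeb3afdcde) b59195 (.hit (nat_lit 115) (nat_lit 94) (nat_lit 0x5e0000bc00017f0f3afde315fc5debf79f17f1be2fe2f3) b59196 (.nil))) (.tok (nat_lit 68) (nat_lit 0x5e0000bc00017f9972ff8785ff310bfe1d97fb582ff98d) (.hit (nat_lit 116) (nat_lit 95) (nat_lit 0x5e0000bc00017f92caff5fb5ff310bfd7e57fa19aff98d)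 b59197 (.one (nat_lit 3) (nat_lit 120) (nat_lit 99) (nat_lit 0x5e0000bc00017f566afe7175fd7aabf9d897f6312febd9) b59201 (.one (nat_lit 6) (nat_lit 117) (nat_lit 96) (nat_lit 0x5e0000bc00017f5352fe6b45fd6e4bf9bfd7f5ffafeb76) b59198 (.tok (nat_lit 9) (nat_lit 0x5e0000bc00017f9972ff8785ff0d2bfe1d97fb582ff86e) (.hit (nat_lit 118) (nat_lit 97) (nat_lit 0x5e0000bc00017f9972ff8785ff0d2bfe1d97fb582ff86e) b59199 (.hit (nat_lit 119) (nat_lit 98) (nat_lit 0x5e0000bc00017f0cbafdde15fc53ebf78b17f1962fe2a3) b59200 (.nil))) (.nil))))) (.one (nat_lit 71) (nat_lit 121) (nat_lit 100) (nat_lit 0x5e0000bc00017e2d62fc1f65f8d68bf09057e3a0afc6b8) b59202 (.nil)))))))))))))))))) (.nil)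
noncomputable def r87_0 : Rw Blk := .tok (nat_lit 6) (nat_lit 0x3000005fd1d6bf91357f7bcafdd165fd4c4c00c397f5102ffb83) (.hit (nat_lit 81) (nat_lit 0) (nat_lit 0x2fddac5fb1a0bf43197efb02fd5a65fbbf8bf444d7eec92fdd37) b59203 (.tok (nat_lit 14) (nat_lit 0x3000005fd1d6bf91357f7bcafdd165fd4c4bfb2d97f5102ffb83) (.hit (nat_lit 117) (nat_lit 61) (nat_lit 0x2ff2aa5fcf76bf91357f291afdd165fca46bf86417f2952ffb83) b59204 (.one (nat_lit 3) (nat_lit 118) (nat_lit 62) (nat_lit 0x2fe5045fb3a2bf7d597e903afc26f5f94f8bf50b17e87cafe55e) b59205 (.tok (nat_lit 6) (nat_lit 0x2fe7e35fb150bf6a4d7ece1afd1b65fb386bf726d7ece52feb07) (.hit (nat_lit 121) (nat_lit 65) (nat_lit 0x2fcf795f80f6bf49757ece1afd1b65fb386bf30cd7ece52fd9c3) b59208 (.hit (nat_lit 122) (nat_lit 66) (nat_lit 0x2fe7e35fb150bf6a4d7ebf32fc3e95fa530bf726d7eb4d2feb07) b59209 (.nil))) (.tok (nat_lit 9) (nat_lit 0x3000005fd1d6bf8d897f7bcafd37e5fd4c4bfb2d97f5102ff74b)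 (.hit (nat_lit 119) (nat_lit 63) (nat_lit 0x3000005fd1d6bf74897f7bcafd37e5fd4c4bfb2d97f5102ff74b) b59206 (.hit (nat_lit 120) (nat_lit 64) (nat_lit 0x2fe22e5fa342bf8d897e8daafc68b5f9d30bf5bf57e87d2fe54e) b59207 (.nil))) (.nil))))) (.one (nat_lit 17) (nat_lit 123) (nat_lit 67) (nat_lit 0x2fd79e5fa348bf482d7e346afbb5c5f86d2bf50957e2312fdb85) b59210 (.tok (nat_lit 20) (nat_lit 0x2fe9c45fc99ebf70617f38cafca365fb6a2c00c397f3052ff792) (.hit (nat_lit 124) (nat_lit 68) (nat_lit 0x2fe9c45fc99ebf70617f38cafca365fb6a2c00c397f3052ff792) b59211 (.hit (nat_lit 125) (nat_lit 69) (nat_lit 0x2fd6c85f85aebf620d7e2f5afb7695f7eecbf2e017e1baafdacb) b59212 (.nil))) (.tok (nat_lit 23) (nat_lit 0x2fd5f55f8876bf38e17eb772fcee15faddcbf2ab17eb7aafd9f8) (.hit (nat_lit 126) (nat_lit 70) (nat_lit 0x2fcca45f7b4cbf38e17eb772fcee15faddcbf25797eb7aafd6ee) b59213 (.hit (nat_lit 127) (nat_lit 71) (nat_lit 0x2fd5f55f8876bf0bb17e29b2fb7565f7ec6bf2ab17e154afd9f8)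 b59214 (.nil))) (.one (nat_lit 26) (nat_lit 128) (nat_lit 72) (nat_lit 0x2fcda05f7360befad17de4b2faa5f5f64d8bf09617dd2a2fd1a3) b59215 (.one (nat_lit 29) (nat_lit 129) (nat_lit 73) (nat_lit 0x2fcf4d5f85b6bf1df17df2cafa9445f649cbf29457de00afd350) b59216 (.one (nat_lit 32) (nat_lit 130) (nat_lit 74) (nat_lit 0x2fc25d5f66dcbf354d7db47afae825f6d1ebeeff97db4b2fc660) b59217 (.one (nat_lit 35) (nat_lit 131) (nat_lit 75) (nat_lit 0x2fd62e5f92e2bf2fc97e29d2fa8175f725abf459d7e1712fda31) b59218 (.one (nat_lit 38) (nat_lit 132) (nat_lit 76) (nat_lit 0x2fd2a45f8772bf35f97e2712fbc375f8888bf31657e225afd69a) b59219 (.tok (nat_lit 41) (nat_lit 0x2fd7995fa332bf49857e3902fb2a75f7568bf21997e2312fd7ae) (.hit (nat_lit 133) (nat_lit 77) (nat_lit 0x2fcda65f8f22bf2e197dd5f2f9d475f639abee5ed7dcb92fd3e9) b59220 (.hit (nat_lit 134) (nat_lit 78) (nat_lit 0x2fd7995fa332bf49857e3902fb2a75f7568bf21997e2312fd7ae)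 b59221 (.nil))) (.tok (nat_lit 44) (nat_lit 0x2fdc135fb7febf6ab97ec2d2facd15f7790bf68717ea182fdda5) (.hit (nat_lit 135) (nat_lit 79) (nat_lit 0x2fdc135fb7febf6ab97ec2d2facd15f7790bf68717ea182fdda5) b59222 (.hit (nat_lit 136) (nat_lit 80) (nat_lit 0x2fd34c5f7ee4bf291d7e13eafacb45f6c96bf20017dffcafd74f) b59223 (.nil))) (.tok (nat_lit 47) (nat_lit 0x2fd7385f9198bf1f197e340afbb275f8668bf43b57e21a2fdb3b) (.hit (nat_lit 137) (nat_lit 81) (nat_lit 0x2fb8ea5f53d8befbdd7e19a2fbb275f8668bed6917e19dafc334) b59224 (.hit (nat_lit 138) (nat_lit 82) (nat_lit 0x2fd7385f9198bf1f197e340afb51d5f7a54bf43b57e21a2fdb3b) b59225 (.nil))) (.one (nat_lit 62) (nat_lit 148) (nat_lit 92) (nat_lit 0x2fd1835f7df4bf26217e0362fb8025f801ebf1e457e00b2fd586) b59226 (.tok (nat_lit 65) (nat_lit 0x2fdaf85faea0bf41897e4132fb50e5f7e66bf53457e378afe2f4) (.hit (nat_lit 149) (nat_lit 93) (nat_lit 0x2fdaf85faea0bf41897e4132fb50e5f7e66bf53457e378afe2f4)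 b59227 (.hit (nat_lit 150) (nat_lit 94) (nat_lit 0x2fd4db5f926ebf28497e1fb2fb0ea5f71eebf400d7e0cbafd8de) b59228 (.nil))) (.tok (nat_lit 68) (nat_lit 0x2fdfdd5fb056bf7b597ee5a2fd92f5fbfa8bf2ee17edefafe3e8) (.hit (nat_lit 151) (nat_lit 95) (nat_lit 0x2fdfdd5fb056bf7b597ee5a2fd92f5fbfa8bf2ee17edefafe3e8) b59229 (.one (nat_lit 3) (nat_lit 155) (nat_lit 99) (nat_lit 0x2fc1c85f6594bf4ab17e6092fc4055f9824befa097e60cafcc12) b59233 (.one (nat_lit 6) (nat_lit 152) (nat_lit 96) (nat_lit 0x2fccf75f7bf2bf5c817eba0afcf345fae82bf26c57eba42fd741) b59230 (.tok (nat_lit 9) (nat_lit 0x2fce235f7e4abf79a57ec36afd0605fb0dabf2b757ec3a2fd86d) (.hit (nat_lit 153) (nat_lit 97) (nat_lit 0x2fc58d5f6d1ebf759d7e7ebafc7ca5f9faebf091d7e7ef2fcfd7) b59231 (.hit (nat_lit 154) (nat_lit 98) (nat_lit 0x2fce235f7e4abf79a57ec36afd0605fb0dabf2b757ec3a2fd86d) b59232 (.nil))) (.nil))))) (.one (nat_lit 71) (nat_lit 156)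 (nat_lit 100) (nat_lit 0x2fcb365f76e0befce17dd092fa3575f5c6abf0c717dbf82fcf39) b59234 (.nil)))))))))))))))))) (.tok (nat_lit 52) (nat_lit 0x2ffa36600000c019d57fa1cb00da05ff5a8bff3b57f9d62ff3ac) (.hit (nat_lit 332) (nat_lit 0) (nat_lit 0x2ffa365fecb6c00a197fa1cb00da05ff20abff3b57f9d62ff3ac) b59235 (.tok (nat_lit 6) (nat_lit 0x2ff919600000bfd6117f8923007645ff5a8bfb6317f8912ff0c3) (.hit (nat_lit 333) (nat_lit 7) (nat_lit 0x2ff919600000bfd6117f8923007645ff5a8bfb6317f8912ff0c3) b59236 (.hit (nat_lit 334) (nat_lit 15) (nat_lit 0x2fed795fe26abfa3397f415afe5de5fd056bf89c57f3e52fe6df) b59237 (.nil))) (.tok (nat_lit 9) (nat_lit 0x2ff2f05ffa4cc019d57f9522ffad85fe548bf9bd57f9522ff2a4) (.hit (nat_lit 335) (nat_lit 20) (nat_lit 0x2feae95fb55ac019d57f9522fea975fe548bf94657f9522ff2a4) b59238 (.hit (nat_lit 336) (nat_lit 28) (nat_lit 0x2ff2f05ffa4cbff5f17f6602ffad85fe13cbf9bd57f62fafeae1) b59239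 (.nil))) (.nil)))) (.tok (nat_lit 55) (nat_lit 0x2ff9535fcac6bfdf897fa612fecb55fe984bf9cdd7fa612ffd56) (.hit (nat_lit 343) (nat_lit 0) (nat_lit 0x2ff9535fcac6bfc4257f936afea605fe4dabf93897f936affd56) b59240 (.tok (nat_lit 3) (nat_lit 0x2fed075fb996bfdf897fa612fecb55fe984bf9cdd7fa612ff4c2) (.hit (nat_lit 344) (nat_lit 1) (nat_lit 0x2fd2e45f8550bf7a7d7ed4fafd2925fb53ebf34517ed4fafda9f) b59241 (.one (nat_lit 67) (nat_lit 345) (nat_lit 2) (nat_lit 0x2fed075fb996bfdf897fa612fecb55fe984bf9cdd7fa612ff4c2) b59242 (.nil))) (.tok (nat_lit 6) (nat_lit 0x2fdc1a5f97bcbf87a97f1eaafdbc85fc7aabf59297f1eaafe3d5) (.hit (nat_lit 346) (nat_lit 7) (nat_lit 0x2fdc1a5f97bcbf87a97f1eaafdbc85fc7aabf59297f1eaafe3d5) b59243 (.hit (nat_lit 349) (nat_lit 15) (nat_lit 0x2fcca65f78d4bf725d7ea30afcc545fa8c2bf1b597ea30afd461) b59244 (.nil))) (.nil)))) (.tok (nat_lit 58) (nat_lit 0x2ff8455fd012bff5d5800002ff7f3600000bfc9d580000300000)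 (.hit (nat_lit 357) (nat_lit 0) (nat_lit 0x2feb9c5fad66bfaa3d7f25dafddfd5fc976bf7f997f25dafedf9) b59245 (.tok (nat_lit 3) (nat_lit 0x2fedd05fbb28bfabe97fac5afed7e5feb16bfa0017fac5aff58b) (.hit (nat_lit 358) (nat_lit 1) (nat_lit 0x2fd6d05f8d28bf905d7ef45afd67e5fbd16bf44017ef45afde8b) b59246 (.one (nat_lit 55) (nat_lit 359) (nat_lit 3) (nat_lit 0x2fedd05fbb28bfabe97fac5afed7e5feb16bfa0017fac5aff58b) b59247 (.nil))) (.tok (nat_lit 9) (nat_lit 0x2ff8455fd012bff5d5800002ff7f3600000bfc9d580000300000) (.hit (nat_lit 360) (nat_lit 20) (nat_lit 0x2fd8d55f9132bf813d7f0482fd8835fc120bf4c157f0482fe090) b59248 (.hit (nat_lit 363) (nat_lit 28) (nat_lit 0x2fd6455f8c12bf8bbd7ef002fd5f35fbc00bf41d57ef002fde00) b59251 (.tok (nat_lit 67) (nat_lit 0x2ff8455fd012bff5d5800002ff7f3600000bfc9d580000300000) (.hit (nat_lit 361) (nat_lit 21) (nat_lit 0x2fe7ce5faf24bfb1617f7c4afe77c5fdf12bf87f97f7c4afef89)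 b59249 (.hit (nat_lit 364) (nat_lit 29) (nat_lit 0x2fee3a5fbbfcbfe7457fafaafede85febeabfa1a97fafaaff5f5) b59252 (.one (nat_lit 9) (nat_lit 362) (nat_lit 22) (nat_lit 0x2ff8455fd012bff5d5800002ff7f3600000bfc9d580000300000) b59250 (.nil)))) (.nil)))) (.nil)))) (.nil))))
noncomputable def r87_1 : Rw Blk := .tok (nat_lit 14) (nat_lit 0xbc0001780002fcbe3) (.hit (nat_lit 134) (nat_lit 0) (nat_lit 0xbc0001780002fcbe3) b59264 (.one (nat_lit 3) (nat_lit 135) (nat_lit 1) (nat_lit 0xbc0001780002fa1d8) b59265 (.tok (nat_lit 6) (nat_lit 0xbc0001780002fc5db) (.hit (nat_lit 136) (nat_lit 7) (nat_lit 0xbc0001780002fc058) b59266 (.hit (nat_lit 137) (nat_lit 15) (nat_lit 0xbc0001780002fc5db) b59267 (.nil))) (.tok (nat_lit 9) (nat_lit 0xbc0001780002fc1f7) (.hit (nat_lit 138) (nat_lit 20) (nat_lit 0xbc0001780002fc058) b59266 (.hit (nat_lit 139) (nat_lit 28) (nat_lit 0xbc0001780002fc1f7) b59268 (.nil)))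 (.nil))))) (.tok (nat_lit 17) (nat_lit 0xbc0001780002fcc36) (.hit (nat_lit 140) (nat_lit 0) (nat_lit 0xbc0001780002fcc36) b59269 (.one (nat_lit 3) (nat_lit 141) (nat_lit 1) (nat_lit 0xbc0001780002f9ccb) b59270 (.tok (nat_lit 6) (nat_lit 0xbc0001780002fc2ec) (.hit (nat_lit 142) (nat_lit 7) (nat_lit 0xbc0001780002fbaeb) b59271 (.hit (nat_lit 143) (nat_lit 15) (nat_lit 0xbc0001780002fc2ec) b59272 (.nil))) (.tok (nat_lit 9) (nat_lit 0xbc0001780002fbfec) (.hit (nat_lit 144) (nat_lit 20) (nat_lit 0xbc0001780002fb7f5) b59273 (.hit (nat_lit 145) (nat_lit 28) (nat_lit 0xbc0001780002fbfec) b59274 (.nil))) (.nil))))) (.tok (nat_lit 20) (nat_lit 0xbc0001780002fe7e4) (.hit (nat_lit 128) (nat_lit 0) (nat_lit 0xbc0001780002fe7e4) b59259 (.one (nat_lit 3) (nat_lit 129) (nat_lit 1) (nat_lit 0xbc0001780002fda5c) b59260 (.tok (nat_lit 6) (nat_lit 0xbc0001780002fd81c) (.hit (nat_lit 130) (nat_lit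 7) (nat_lit 0xbc0001780002fbcc4) b59255 (.hit (nat_lit 131) (nat_lit 15) (nat_lit 0xbc0001780002fd81c) b59261 (.nil))) (.tok (nat_lit 9) (nat_lit 0xbc0001780002fdbb6) (.hit (nat_lit 132) (nat_lit 20) (nat_lit 0xbc0001780002fdbb6) b59262 (.hit (nat_lit 133) (nat_lit 28) (nat_lit 0xbc0001780002fd607) b59263 (.nil))) (.nil))))) (.tok (nat_lit 23) (nat_lit 0xbc0001780002fcca8) (.hit (nat_lit 122) (nat_lit 0) (nat_lit 0xbc0001780002fcca8) b59253 (.one (nat_lit 3) (nat_lit 123) (nat_lit 1) (nat_lit 0xbc0001780002fa551) b59254 (.tok (nat_lit 6) (nat_lit 0xbc0001780002fc4ee) (.hit (nat_lit 124) (nat_lit 7) (nat_lit 0xbc0001780002fbcc4) b59255 (.hit (nat_lit 125) (nat_lit 15) (nat_lit 0xbc0001780002fc4ee) b59256 (.nil))) (.tok (nat_lit 9) (nat_lit 0xbc0001780002fc2d6) (.hit (nat_lit 126) (nat_lit 20) (nat_lit 0xbc0001780002fbbf7) b59257 (.hit (nat_lit 127) (nat_lit 28) (nat_lit 0xbc0001780002fc2d6)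 b59258 (.nil))) (.nil))))) (.tok (nat_lit 26) (nat_lit 0xbc0001780002fe8d7) (.hit (nat_lit 215) (nat_lit 0) (nat_lit 0xbc0001780002fe8d7) b59298 (.one (nat_lit 3) (nat_lit 216) (nat_lit 1) (nat_lit 0xbc0001780002f9e5d) b59299 (.tok (nat_lit 6) (nat_lit 0xbc0001780002fcbff) (.hit (nat_lit 217) (nat_lit 7) (nat_lit 0xbc0001780002fcbff) b59300 (.hit (nat_lit 218) (nat_lit 15) (nat_lit 0xbc0001780002f9cb7) b59301 (.nil))) (.tok (nat_lit 9) (nat_lit 0xbc0001780002fb038) (.hit (nat_lit 219) (nat_lit 20) (nat_lit 0xbc0001780002fafc1) b59302 (.hit (nat_lit 220) (nat_lit 28) (nat_lit 0xbc0001780002fb038) b59303 (.nil))) (.nil))))) (.tok (nat_lit 29) (nat_lit 0xbc0001780002fce3a) (.hit (nat_lit 221) (nat_lit 0) (nat_lit 0xbc0001780002fce3a) b59304 (.one (nat_lit 3) (nat_lit 222) (nat_lit 1) (nat_lit 0xbc0001780002fa0bf) b59305 (.tok (nat_lit 6) (nat_lit 0xbc0001780002fbd03) (.hit (nat_lit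 223) (nat_lit 7) (nat_lit 0xbc0001780002fad68) b59306 (.hit (nat_lit 224) (nat_lit 15) (nat_lit 0xbc0001780002fbd03) b59307 (.nil))) (.tok (nat_lit 9) (nat_lit 0xbc0001780002fc34c) (.hit (nat_lit 225) (nat_lit 20) (nat_lit 0xbc0001780002fc09d) b59308 (.hit (nat_lit 226) (nat_lit 28) (nat_lit 0xbc0001780002fc34c) b59309 (.nil))) (.nil))))) (.tok (nat_lit 32) (nat_lit 0xbc0001780002fdb6b) (.hit (nat_lit 233) (nat_lit 0) (nat_lit 0xbc0001780002fdb6b) b59316 (.one (nat_lit 3) (nat_lit 234) (nat_lit 1) (nat_lit 0xbc0001780002fa551) b59254 (.tok (nat_lit 6) (nat_lit 0xbc0001780002fbc84) (.hit (nat_lit 235) (nat_lit 7) (nat_lit 0xbc0001780002fba0f) b59277 (.hit (nat_lit 236) (nat_lit 15) (nat_lit 0xbc0001780002fbc84) b59317 (.nil))) (.tok (nat_lit 9) (nat_lit 0xbc0001780002fad4a) (.hit (nat_lit 237) (nat_lit 20) (nat_lit 0xbc0001780002fad4a) b59318 (.hit (nat_lit 238) (nat_lit 28) (nat_lit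 0xbc0001780002f9b29) b59319 (.nil))) (.nil))))) (.tok (nat_lit 35) (nat_lit 0xbc0001780002feb4d) (.hit (nat_lit 227) (nat_lit 0) (nat_lit 0xbc0001780002feb4d) b59310 (.one (nat_lit 3) (nat_lit 228) (nat_lit 1) (nat_lit 0xbc0001780002fae68) b59311 (.tok (nat_lit 6) (nat_lit 0xbc0001780002fc3f6) (.hit (nat_lit 229) (nat_lit 7) (nat_lit 0xbc0001780002fc07b) b59312 (.hit (nat_lit 230) (nat_lit 15) (nat_lit 0xbc0001780002fc3f6) b59313 (.nil))) (.tok (nat_lit 9) (nat_lit 0xbc0001780002fc5f3) (.hit (nat_lit 231) (nat_lit 20) (nat_lit 0xbc0001780002fc5f3) b59314 (.hit (nat_lit 232) (nat_lit 28) (nat_lit 0xbc0001780002fc21a) b59315 (.nil))) (.nil))))) (.tok (nat_lit 38) (nat_lit 0xbc0001780002fe056) (.hit (nat_lit 239) (nat_lit 0) (nat_lit 0xbc0001780002fe056) b59320 (.one (nat_lit 3) (nat_lit 240) (nat_lit 1) (nat_lit 0xbc0001780002fa9d3) b59321 (.tok (nat_lit 6) (nat_lit 0xbc0001780002fad68)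 (.hit (nat_lit 241) (nat_lit 7) (nat_lit 0xbc0001780002fad68) b59306 (.hit (nat_lit 242) (nat_lit 15) (nat_lit 0xbc0001780002fa73d) b59322 (.nil))) (.tok (nat_lit 9) (nat_lit 0xbc0001780002fbef5) (.hit (nat_lit 243) (nat_lit 20) (nat_lit 0xbc0001780002fbef5) b59323 (.hit (nat_lit 244) (nat_lit 28) (nat_lit 0xbc0001780002fadcd) b59324 (.nil))) (.nil))))) (.tok (nat_lit 41) (nat_lit 0xbc0001780003004a6) (.hit (nat_lit 250) (nat_lit 0) (nat_lit 0xbc0001780002fe8d2) b59325 (.one (nat_lit 3) (nat_lit 251) (nat_lit 1) (nat_lit 0xbc0001780002fdfbf) b59326 (.tok (nat_lit 6) (nat_lit 0xbc0001780003004a6) (.hit (nat_lit 252) (nat_lit 7) (nat_lit 0xbc0001780003004a6) b59327 (.hit (nat_lit 253) (nat_lit 15) (nat_lit 0xbc0001780002fdfc4) b59328 (.nil))) (.tok (nat_lit 9) (nat_lit 0xbc0001780002fec6c) (.hit (nat_lit 254) (nat_lit 20) (nat_lit 0xbc0001780002fec6c) b59329 (.hit (nat_lit 255)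 (nat_lit 28) (nat_lit 0xbc0001780002fdd98) b59330 (.nil))) (.nil))))) (.tok (nat_lit 44) (nat_lit 0xbc0001780003002b2) (.hit (nat_lit 278) (nat_lit 0) (nat_lit 0xbc0001780002fe680) b59337 (.one (nat_lit 3) (nat_lit 279) (nat_lit 1) (nat_lit 0xbc0001780002fcd71) b59338 (.tok (nat_lit 6) (nat_lit 0xbc0001780002feada) (.hit (nat_lit 280) (nat_lit 7) (nat_lit 0xbc0001780002feada) b59339 (.hit (nat_lit 281) (nat_lit 15) (nat_lit 0xbc0001780002fd730) b59340 (.nil))) (.tok (nat_lit 9) (nat_lit 0xbc0001780003002b2) (.hit (nat_lit 282) (nat_lit 20) (nat_lit 0xbc0001780003002b2) b59341 (.hit (nat_lit 283) (nat_lit 28) (nat_lit 0xbc0001780002fd8e2) b59342 (.nil))) (.nil))))) (.tok (nat_lit 47) (nat_lit 0xbc0001780002feb37) (.hit (nat_lit 264) (nat_lit 0) (nat_lit 0xbc0001780002feb37) b59331 (.one (nat_lit 3) (nat_lit 265) (nat_lit 1) (nat_lit 0xbc0001780002fb006) b59332 (.tok (nat_lit 6)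 (nat_lit 0xbc0001780002fc674) (.hit (nat_lit 266) (nat_lit 7) (nat_lit 0xbc0001780002fc490) b59333 (.hit (nat_lit 267) (nat_lit 15) (nat_lit 0xbc0001780002fc674) b59334 (.nil))) (.tok (nat_lit 9) (nat_lit 0xbc0001780002fb3f5) (.hit (nat_lit 268) (nat_lit 20) (nat_lit 0xbc0001780002fb3f5) b59335 (.hit (nat_lit 269) (nat_lit 28) (nat_lit 0xbc0001780002fac46) b59336 (.nil))) (.nil))))) (.tok (nat_lit 62) (nat_lit 0xbc0001780002fcd8a) (.hit (nat_lit 146) (nat_lit 0) (nat_lit 0xbc0001780002fcd8a) b59275 (.one (nat_lit 3) (nat_lit 147) (nat_lit 1) (nat_lit 0xbc0001780002f9625) b59276 (.tok (nat_lit 6) (nat_lit 0xbc0001780002fba0f) (.hit (nat_lit 148) (nat_lit 7) (nat_lit 0xbc0001780002fba0f) b59277 (.hit (nat_lit 149) (nat_lit 15) (nat_lit 0xbc0001780002fad59) b59278 (.nil))) (.tok (nat_lit 9) (nat_lit 0xbc0001780002fc8a1) (.hit (nat_lit 150) (nat_lit 20) (nat_lit 0xbc0001780002fc8a1)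 b59279 (.hit (nat_lit 151) (nat_lit 28) (nat_lit 0xbc0001780002f9cac) b59280 (.nil))) (.nil))))) (.tok (nat_lit 65) (nat_lit 0xbc0001780002ff424) (.hit (nat_lit 152) (nat_lit 0) (nat_lit 0xbc0001780002fe6f4) b59281 (.one (nat_lit 3) (nat_lit 153) (nat_lit 1) (nat_lit 0xbc0001780002fedce) b59282 (.tok (nat_lit 6) (nat_lit 0xbc0001780002ff424) (.hit (nat_lit 154) (nat_lit 7) (nat_lit 0xbc0001780002fc4f9) b59283 (.hit (nat_lit 155) (nat_lit 15) (nat_lit 0xbc0001780002ff424) b59284 (.nil))) (.tok (nat_lit 9) (nat_lit 0xbc0001780002ff0c5) (.hit (nat_lit 156) (nat_lit 20) (nat_lit 0xbc0001780002ff0c5) b59285 (.hit (nat_lit 157) (nat_lit 28) (nat_lit 0xbc0001780002fe71d) b59286 (.nil))) (.nil))))) (.tok (nat_lit 68) (nat_lit 0xbc0001780002fd344) (.hit (nat_lit 158) (nat_lit 0) (nat_lit 0xbc0001780002fd344) b59287 (.one (nat_lit 3) (nat_lit 159) (nat_lit 1) (nat_lit 0xbc0001780002fa551)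 b59254 (.tok (nat_lit 6) (nat_lit 0xbc0001780002fbdc9) (.hit (nat_lit 160) (nat_lit 7) (nat_lit 0xbc0001780002fba80) b59288 (.hit (nat_lit 161) (nat_lit 15) (nat_lit 0xbc0001780002fbdc9) b59289 (.nil))) (.tok (nat_lit 9) (nat_lit 0xbc0001780002fb664) (.hit (nat_lit 162) (nat_lit 20) (nat_lit 0xbc0001780002fb664) b59290 (.hit (nat_lit 163) (nat_lit 28) (nat_lit 0xbc0001780002fa6bf) b59291 (.nil))) (.nil))))) (.tok (nat_lit 71) (nat_lit 0xbc0001780002fddb7) (.hit (nat_lit 164) (nat_lit 0) (nat_lit 0xbc0001780002fddb7) b59292 (.one (nat_lit 3) (nat_lit 165) (nat_lit 1) (nat_lit 0xbc0001780002f9a70) b59293 (.tok (nat_lit 6) (nat_lit 0xbc0001780002fbc40) (.hit (nat_lit 166) (nat_lit 7) (nat_lit 0xbc0001780002fbc40) b59294 (.hit (nat_lit 167) (nat_lit 15) (nat_lit 0xbc0001780002fae96) b59295 (.nil))) (.tok (nat_lit 9) (nat_lit 0xbc0001780002fbb19) (.hit (nat_lit 168) (nat_lit 20) (nat_lit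 0xbc0001780002fb883) b59296 (.hit (nat_lit 169) (nat_lit 28) (nat_lit 0xbc0001780002fbb19) b59297 (.nil))) (.nil))))) (.nil))))))))))))))))
noncomputable def r87_2 : Rw Blk := .tok (nat_lit 3) (nat_lit 0xbc0001780002ff34a) (.hit (nat_lit 18) (nat_lit 0) (nat_lit 0xbc0001780002ff317) b59357 (.tok (nat_lit 6) (nat_lit 0xbc0001780002fe98b) (.hit (nat_lit 19) (nat_lit 7) (nat_lit 0xbc0001780002fcf22) b59358 (.hit (nat_lit 20) (nat_lit 15) (nat_lit 0xbc0001780002fe98b) b59359 (.nil))) (.tok (nat_lit 9) (nat_lit 0xbc0001780002ff34a) (.hit (nat_lit 21) (nat_lit 20) (nat_lit 0xbc0001780002ff34a) b59360 (.hit (nat_lit 22) (nat_lit 28) (nat_lit 0xbc0001780002fe326) b59361 (.nil))) (.nil)))) (.tok (nat_lit 6) (nat_lit 0xbc0001780002fed89) (.hit (nat_lit 0) (nat_lit 0) (nat_lit 0xbc0001780002fed89) b59343 (.tok (nat_lit 3) (nat_lit 0xbc0001780002fe81a) (.hit (nat_lit 1) (nat_lit 1) (nat_lit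 0xbc0001780002fd30d) b59344 (.one (nat_lit 67) (nat_lit 2) (nat_lit 2) (nat_lit 0xbc0001780002fe81a) b59345 (.nil))) (.tok (nat_lit 6) (nat_lit 0xbc0001780002fd439) (.hit (nat_lit 3) (nat_lit 7) (nat_lit 0xbc0001780002fd2e6) b59346 (.hit (nat_lit 7) (nat_lit 15) (nat_lit 0xbc0001780002fd439) b59347 (.nil))) (.nil)))) (.tok (nat_lit 9) (nat_lit 0xbc000178000303699) (.hit (nat_lit 9) (nat_lit 0) (nat_lit 0xbc0001780002ff1b7) b59348 (.tok (nat_lit 3) (nat_lit 0xbc000178000302485) (.hit (nat_lit 10) (nat_lit 1) (nat_lit 0xbc0001780002feddb) b59349 (.one (nat_lit 55) (nat_lit 11) (nat_lit 3) (nat_lit 0xbc000178000302485) b59350 (.nil))) (.tok (nat_lit 9) (nat_lit 0xbc000178000303699) (.hit (nat_lit 12) (nat_lit 20) (nat_lit 0xbc000178000301182) b59351 (.hit (nat_lit 16) (nat_lit 28) (nat_lit 0xbc0001780002ffb91) b59355 (.tok (nat_lit 67) (nat_lit 0xbc000178000303699) (.hit (nat_lit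 13) (nat_lit 21) (nat_lit 0xbc000178000302594) b59352 (.hit (nat_lit 17) (nat_lit 29) (nat_lit 0xbc000178000303699) b59356 (.tok (nat_lit 9) (nat_lit 0xbc000178000301b6c) (.hit (nat_lit 14) (nat_lit 22) (nat_lit 0xbc000178000301b6c) b59353 (.one (nat_lit 67) (nat_lit 15) (nat_lit 23) (nat_lit 0xbc00017800030172a) b59354 (.nil))) (.nil)))) (.nil)))) (.nil)))) (.nil)))
noncomputable def r87_3 : Rw Blk := .tok (nat_lit 3) (nat_lit 0xbc0001780003018df) (.hit (nat_lit 0) (nat_lit 0) (nat_lit 0xbc0001780002feff9) b59362 (.tok (nat_lit 6) (nat_lit 0xbc0001780002fe2c6) (.hit (nat_lit 1) (nat_lit 7) (nat_lit 0xbc0001780002fd3e7) b59363 (.hit (nat_lit 4) (nat_lit 15) (nat_lit 0xbc0001780002fd1b4) b59364 (.one (nat_lit 68) (nat_lit 5) (nat_lit 18) (nat_lit 0xbc0001780002fe2c6) b59365 (.nil)))) (.tok (nat_lit 52) (nat_lit 0xbc0001780002feb9c) (.hit (nat_lit 7) (nat_lit 39) (nat_lit 0xbc0001780002fe2f0)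 b59366 (.hit (nat_lit 8) (nat_lit 40) (nat_lit 0xbc0001780002feb9c) b59367 (.nil))) (.tok (nat_lit 55) (nat_lit 0xbc0001780003018df) (.hit (nat_lit 9) (nat_lit 41) (nat_lit 0xbc0001780003018df) b59368 (.one (nat_lit 3) (nat_lit 15) (nat_lit 47) (nat_lit 0xbc0001780002fe2ed) b59371 (.tok (nat_lit 6) (nat_lit 0xbc0001780002fe8a3) (.hit (nat_lit 10) (nat_lit 42) (nat_lit 0xbc0001780002fe8a3) b59369 (.hit (nat_lit 13) (nat_lit 45) (nat_lit 0xbc0001780002fe079) b59370 (.nil))) (.nil)))) (.one (nat_lit 58) (nat_lit 16) (nat_lit 49) (nat_lit 0xbc0001780002fe230) b59372 (.nil)))))) (.tok (nat_lit 9) (nat_lit 0xbc00017800030342e) (.hit (nat_lit 17) (nat_lit 0) (nat_lit 0xbc0001780003010c5) b59373 (.tok (nat_lit 9) (nat_lit 0xbc00017800030181e) (.hit (nat_lit 18) (nat_lit 20) (nat_lit 0xbc0001780003009bb) b59374 (.hit (nat_lit 21) (nat_lit 28) (nat_lit 0xbc0001780002fe6b8) b59377 (.one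 (nat_lit 56) (nat_lit 22) (nat_lit 31) (nat_lit 0xbc000178000300c70) b59378 (.tok (nat_lit 68) (nat_lit 0xbc00017800030181e) (.hit (nat_lit 19) (nat_lit 26) (nat_lit 0xbc0001780002fffa4) b59375 (.hit (nat_lit 23) (nat_lit 32) (nat_lit 0xbc0001780002ff0f4) b59379 (.one (nat_lit 9) (nat_lit 20) (nat_lit 27) (nat_lit 0xbc00017800030181e) b59376 (.nil)))) (.nil))))) (.tok (nat_lit 64) (nat_lit 0xbc000178000302ff7) (.hit (nat_lit 24) (nat_lit 50) (nat_lit 0xbc000178000301417) b59380 (.hit (nat_lit 25) (nat_lit 51) (nat_lit 0xbc000178000302ff7) b59381 (.nil))) (.tok (nat_lit 67) (nat_lit 0xbc00017800030342e) (.hit (nat_lit 26) (nat_lit 52) (nat_lit 0xbc00017800030342e) b59382 (.one (nat_lit 3) (nat_lit 32) (nat_lit 58) (nat_lit 0xbc000178000301e38) b59388 (.tok (nat_lit 9) (nat_lit 0xbc000178000302ed8) (.hit (nat_lit 27) (nat_lit 53) (nat_lit 0xbc00017800030050f) b59383 (.hit (nat_lit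 30) (nat_lit 56) (nat_lit 0xbc0001780003020b8) b59386 (.tok (nat_lit 67) (nat_lit 0xbc000178000302ed8) (.hit (nat_lit 28) (nat_lit 54) (nat_lit 0xbc000178000302ed8) b59384 (.hit (nat_lit 31) (nat_lit 57) (nat_lit 0xbc000178000301532) b59387 (.one (nat_lit 9) (nat_lit 29) (nat_lit 55) (nat_lit 0xbc000178000302973) b59385 (.nil)))) (.nil)))) (.nil)))) (.one (nat_lit 70) (nat_lit 33) (nat_lit 60) (nat_lit 0xbc000178000302087) b59389 (.nil)))))) (.nil))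
noncomputable def r87_4 : Rw Blk := .tok (nat_lit 14) (nat_lit 0xbc0001780002fd708) (.hit (nat_lit 134) (nat_lit 0) (nat_lit 0xbc0001780002fcc27) b25771 (.one (nat_lit 3) (nat_lit 135) (nat_lit 1) (nat_lit 0xbc0001780002f9e14) b25772 (.tok (nat_lit 6) (nat_lit 0xbc0001780002fd708) (.hit (nat_lit 136) (nat_lit 7) (nat_lit 0xbc0001780002fcc47) b25775 (.hit (nat_lit 137) (nat_lit 15) (nat_lit 0xbc0001780002fd708) b25776 (.nil))) (.tok (nat_lit 9) (nat_lit 0xbc0001780002fc9f2) (.hit (nat_lit 138) (nat_lit 20) (nat_lit 0xbc0001780002fc287) b25773 (.hit (nat_lit 139) (nat_lit 28) (nat_lit 0xbc0001780002fc9f2) b25774 (.nil))) (.nil))))) (.tok (nat_lit 17) (nat_lit 0xbc0001780002fdc97) (.hit (nat_lit 140) (nat_lit 0) (nat_lit 0xbc0001780002fdc97) b25765 (.one (nat_lit 3) (nat_lit 141) (nat_lit 1) (nat_lit 0xbc0001780002fad7f) b25766 (.tok (nat_lit 6) (nat_lit 0xbc0001780002fd177) (.hit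 (nat_lit 142) (nat_lit 7) (nat_lit 0xbc0001780002fce5b) b25769 (.hit (nat_lit 143) (nat_lit 15) (nat_lit 0xbc0001780002fd177) b25770 (.nil))) (.tok (nat_lit 9) (nat_lit 0xbc0001780002fdc6c) (.hit (nat_lit 144) (nat_lit 20) (nat_lit 0xbc0001780002fbe69) b25767 (.hit (nat_lit 145) (nat_lit 28) (nat_lit 0xbc0001780002fdc6c) b25768 (.nil))) (.nil))))) (.tok (nat_lit 20) (nat_lit 0xbc0001780002fe614) (.hit (nat_lit 128) (nat_lit 0) (nat_lit 0xbc0001780002fe25c) b25759 (.one (nat_lit 3) (nat_lit 129) (nat_lit 1) (nat_lit 0xbc0001780002fdaf6) b25760 (.tok (nat_lit 6) (nat_lit 0xbc0001780002fe614) (.hit (nat_lit 130) (nat_lit 7) (nat_lit 0xbc0001780002fcc84) b25763 (.hit (nat_lit 131) (nat_lit 15) (nat_lit 0xbc0001780002fe614) b25764 (.nil))) (.tok (nat_lit 9) (nat_lit 0xbc0001780002fdfff) (.hit (nat_lit 132) (nat_lit 20) (nat_lit 0xbc0001780002fdef7) b25761 (.hit (nat_lit 133) (nat_lit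 28) (nat_lit 0xbc0001780002fdfff) b25762 (.nil))) (.nil))))) (.tok (nat_lit 23) (nat_lit 0xbc0001780002fe84b) (.hit (nat_lit 122) (nat_lit 0) (nat_lit 0xbc0001780002fe2e0) b25753 (.one (nat_lit 3) (nat_lit 123) (nat_lit 1) (nat_lit 0xbc0001780002fd2f3) b25754 (.tok (nat_lit 6) (nat_lit 0xbc0001780002fe567) (.hit (nat_lit 124) (nat_lit 7) (nat_lit 0xbc0001780002fe3c2) b25757 (.hit (nat_lit 125) (nat_lit 15) (nat_lit 0xbc0001780002fe567) b25758 (.nil))) (.tok (nat_lit 9) (nat_lit 0xbc0001780002fe84b) (.hit (nat_lit 126) (nat_lit 20) (nat_lit 0xbc0001780002fc7e4) b25755 (.hit (nat_lit 127) (nat_lit 28) (nat_lit 0xbc0001780002fe84b) b25756 (.nil))) (.nil))))) (.tok (nat_lit 26) (nat_lit 0xbc0001780002fea73) (.hit (nat_lit 215) (nat_lit 0) (nat_lit 0xbc0001780002fea73) b25823 (.one (nat_lit 3) (nat_lit 216) (nat_lit 1) (nat_lit 0xbc0001780002fb5e5) b25824 (.tok (nat_lit 6) (nat_lit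 0xbc0001780002fd222) (.hit (nat_lit 217) (nat_lit 7) (nat_lit 0xbc0001780002fbb91) b25827 (.hit (nat_lit 218) (nat_lit 15) (nat_lit 0xbc0001780002fd222) b25828 (.nil))) (.tok (nat_lit 9) (nat_lit 0xbc0001780002fcf12) (.hit (nat_lit 219) (nat_lit 20) (nat_lit 0xbc0001780002fcf12) b25825 (.hit (nat_lit 220) (nat_lit 28) (nat_lit 0xbc0001780002fc0bd) b25826 (.nil))) (.nil))))) (.tok (nat_lit 29) (nat_lit 0xbc0001780002fd60e) (.hit (nat_lit 221) (nat_lit 0) (nat_lit 0xbc0001780002fd60e) b25829 (.one (nat_lit 3) (nat_lit 222) (nat_lit 1) (nat_lit 0xbc0001780002fb2c7) b25830 (.tok (nat_lit 6) (nat_lit 0xbc0001780002fd482) (.hit (nat_lit 223) (nat_lit 7) (nat_lit 0xbc0001780002fc617) b25833 (.hit (nat_lit 224) (nat_lit 15) (nat_lit 0xbc0001780002fd482) b25834 (.nil))) (.tok (nat_lit 9) (nat_lit 0xbc0001780002fd5ae) (.hit (nat_lit 225) (nat_lit 20) (nat_lit 0xbc0001780002fcca7) b25831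 (.hit (nat_lit 226) (nat_lit 28) (nat_lit 0xbc0001780002fd5ae) b25832 (.nil))) (.nil))))) (.tok (nat_lit 32) (nat_lit 0xbc0001780002fda3b) (.hit (nat_lit 233) (nat_lit 0) (nat_lit 0xbc0001780002fda3b) b25840 (.one (nat_lit 3) (nat_lit 234) (nat_lit 1) (nat_lit 0xbc0001780002fb140) b25796 (.tok (nat_lit 6) (nat_lit 0xbc0001780002fd38f) (.hit (nat_lit 235) (nat_lit 7) (nat_lit 0xbc0001780002fcc33) b25843 (.hit (nat_lit 236) (nat_lit 15) (nat_lit 0xbc0001780002fd38f) b25844 (.nil))) (.tok (nat_lit 9) (nat_lit 0xbc0001780002fc918) (.hit (nat_lit 237) (nat_lit 20) (nat_lit 0xbc0001780002fc918) b25841 (.hit (nat_lit 238) (nat_lit 28) (nat_lit 0xbc0001780002fb3ea) b25842 (.nil))) (.nil))))) (.tok (nat_lit 35) (nat_lit 0xbc0001780002fddbc) (.hit (nat_lit 227) (nat_lit 0) (nat_lit 0xbc0001780002fddbc) b25835 (.one (nat_lit 3) (nat_lit 228) (nat_lit 1) (nat_lit 0xbc0001780002fb140) b25796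 (.tok (nat_lit 6) (nat_lit 0xbc0001780002fcc77) (.hit (nat_lit 229) (nat_lit 7) (nat_lit 0xbc0001780002fcc77) b25838 (.hit (nat_lit 230) (nat_lit 15) (nat_lit 0xbc0001780002fb572) b25839 (.nil))) (.tok (nat_lit 9) (nat_lit 0xbc0001780002fd5a3) (.hit (nat_lit 231) (nat_lit 20) (nat_lit 0xbc0001780002fbb86) b25836 (.hit (nat_lit 232) (nat_lit 28) (nat_lit 0xbc0001780002fd5a3) b25837 (.nil))) (.nil))))) (.tok (nat_lit 38) (nat_lit 0xbc0001780002fed2f) (.hit (nat_lit 239) (nat_lit 0) (nat_lit 0xbc0001780002fed2f) b25800 (.one (nat_lit 3) (nat_lit 240) (nat_lit 1) (nat_lit 0xbc0001780002fb16e) b25801 (.tok (nat_lit 6) (nat_lit 0xbc0001780002fbd27) (.hit (nat_lit 241) (nat_lit 7) (nat_lit 0xbc0001780002fbd27) b25803 (.hit (nat_lit 242) (nat_lit 15) (nat_lit 0xbc0001780002fb9cf) b25804 (.nil))) (.tok (nat_lit 9) (nat_lit 0xbc0001780002fcc8a) (.hit (nat_lit 243) (nat_lit 20) (nat_lit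 0xbc0001780002fcc8a) b25797 (.hit (nat_lit 244) (nat_lit 28) (nat_lit 0xbc0001780002fb9cb) b25802 (.nil))) (.nil))))) (.tok (nat_lit 41) (nat_lit 0xbc0001780002fecd0) (.hit (nat_lit 250) (nat_lit 0) (nat_lit 0xbc0001780002fe660) b25805 (.one (nat_lit 3) (nat_lit 251) (nat_lit 1) (nat_lit 0xbc0001780002fdab5) b25806 (.tok (nat_lit 6) (nat_lit 0xbc0001780002fea98) (.hit (nat_lit 252) (nat_lit 7) (nat_lit 0xbc0001780002fea98) b25809 (.hit (nat_lit 253) (nat_lit 15) (nat_lit 0xbc0001780002fe506) b25810 (.nil))) (.tok (nat_lit 9) (nat_lit 0xbc0001780002fecd0) (.hit (nat_lit 254) (nat_lit 20) (nat_lit 0xbc0001780002fecd0) b25807 (.hit (nat_lit 255) (nat_lit 28) (nat_lit 0xbc0001780002fe6c3) b25808 (.nil))) (.nil))))) (.tok (nat_lit 44) (nat_lit 0xbc0001780002ff869) (.hit (nat_lit 278) (nat_lit 0) (nat_lit 0xbc0001780002ff869) b25817 (.one (nat_lit 3) (nat_lit 279) (nat_lit 1) (nat_lit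 0xbc0001780002fcd47) b25818 (.tok (nat_lit 6) (nat_lit 0xbc0001780002feffd) (.hit (nat_lit 280) (nat_lit 7) (nat_lit 0xbc0001780002feffd) b25821 (.hit (nat_lit 281) (nat_lit 15) (nat_lit 0xbc0001780002fdf1d) b25822 (.nil))) (.tok (nat_lit 9) (nat_lit 0xbc0001780002fed16) (.hit (nat_lit 282) (nat_lit 20) (nat_lit 0xbc0001780002fed16) b25819 (.hit (nat_lit 283) (nat_lit 28) (nat_lit 0xbc0001780002fe1e8) b25820 (.nil))) (.nil))))) (.tok (nat_lit 47) (nat_lit 0xbc000178000300000) (.hit (nat_lit 264) (nat_lit 0) (nat_lit 0xbc0001780002ffafc) b25811 (.one (nat_lit 3) (nat_lit 265) (nat_lit 1) (nat_lit 0xbc0001780002fd7ea) b25812 (.tok (nat_lit 6) (nat_lit 0xbc000178000300000) (.hit (nat_lit 266) (nat_lit 7) (nat_lit 0xbc000178000300000) b25815 (.hit (nat_lit 267) (nat_lit 15) (nat_lit 0xbc0001780002fe1b0) b25816 (.nil))) (.tok (nat_lit 9) (nat_lit 0xbc0001780002ff24c) (.hit (nat_lit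 268) (nat_lit 20) (nat_lit 0xbc0001780002ff24c) b25813 (.hit (nat_lit 269) (nat_lit 28) (nat_lit 0xbc0001780002fdc30) b25814 (.nil))) (.nil))))) (.tok (nat_lit 62) (nat_lit 0xbc0001780002fd864) (.hit (nat_lit 146) (nat_lit 0) (nat_lit 0xbc0001780002fd864) b28675 (.one (nat_lit 3) (nat_lit 147) (nat_lit 1) (nat_lit 0xbc0001780002fb194) b28676 (.tok (nat_lit 6) (nat_lit 0xbc0001780002fbb69) (.hit (nat_lit 148) (nat_lit 7) (nat_lit 0xbc0001780002fbb69) b28679 (.hit (nat_lit 149) (nat_lit 15) (nat_lit 0xbc0001780002fb76d) b28680 (.nil))) (.tok (nat_lit 9) (nat_lit 0xbc0001780002fc78c) (.hit (nat_lit 150) (nat_lit 20) (nat_lit 0xbc0001780002fc78c) b28677 (.hit (nat_lit 151) (nat_lit 28) (nat_lit 0xbc0001780002fb99f) b28678 (.nil))) (.nil))))) (.tok (nat_lit 65) (nat_lit 0xbc0001780002fe3ed) (.hit (nat_lit 152) (nat_lit 0) (nat_lit 0xbc0001780002fdfab) b28681 (.one (nat_lit 3) (nat_lit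 153) (nat_lit 1) (nat_lit 0xbc0001780002fd9d9) b28682 (.tok (nat_lit 6) (nat_lit 0xbc0001780002fe032) (.hit (nat_lit 154) (nat_lit 7) (nat_lit 0xbc0001780002fd381) b28685 (.hit (nat_lit 155) (nat_lit 15) (nat_lit 0xbc0001780002fe032) b28686 (.nil))) (.tok (nat_lit 9) (nat_lit 0xbc0001780002fe3ed) (.hit (nat_lit 156) (nat_lit 20) (nat_lit 0xbc0001780002fe3ed) b28683 (.hit (nat_lit 157) (nat_lit 28) (nat_lit 0xbc0001780002fe267) b28684 (.nil))) (.nil))))) (.tok (nat_lit 68) (nat_lit 0xbc0001780002fd56a) (.hit (nat_lit 158) (nat_lit 0) (nat_lit 0xbc0001780002fd2ab) b28692 (.one (nat_lit 3) (nat_lit 159) (nat_lit 1) (nat_lit 0xbc0001780002fb140) b25796 (.tok (nat_lit 6) (nat_lit 0xbc0001780002fd56a) (.hit (nat_lit 160) (nat_lit 7) (nat_lit 0xbc0001780002fcc8a) b25797 (.hit (nat_lit 161) (nat_lit 15) (nat_lit 0xbc0001780002fd56a) b28694 (.nil))) (.tok (nat_lit 9) (nat_lit 0xbc0001780002fc8d5)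 (.hit (nat_lit 162) (nat_lit 20) (nat_lit 0xbc0001780002fc8d5) b28693 (.hit (nat_lit 163) (nat_lit 28) (nat_lit 0xbc0001780002fb2ae) b25799 (.nil))) (.nil))))) (.tok (nat_lit 71) (nat_lit 0xbc0001780002fddf3) (.hit (nat_lit 164) (nat_lit 0) (nat_lit 0xbc0001780002fddf3) b28687 (.one (nat_lit 3) (nat_lit 165) (nat_lit 1) (nat_lit 0xbc0001780002fb140) b25796 (.tok (nat_lit 6) (nat_lit 0xbc0001780002fc712) (.hit (nat_lit 166) (nat_lit 7) (nat_lit 0xbc0001780002fc712) b28690 (.hit (nat_lit 167) (nat_lit 15) (nat_lit 0xbc0001780002fbae1) b28691 (.nil))) (.tok (nat_lit 9) (nat_lit 0xbc0001780002fca8b) (.hit (nat_lit 168) (nat_lit 20) (nat_lit 0xbc0001780002fc5d7) b28688 (.hit (nat_lit 169) (nat_lit 28) (nat_lit 0xbc0001780002fca8b) b28689 (.nil))) (.nil))))) (.nil))))))))))))))))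
noncomputable def r87_5 : Rw Blk := .tok (nat_lit 3) (nat_lit 0xbc0001780002fe6dd) (.hit (nat_lit 18) (nat_lit 0) (nat_lit 0xbc0001780002fe6dd) b59404 (.tok (nat_lit 6) (nat_lit 0xbc0001780002fd667) (.hit (nat_lit 19) (nat_lit 7) (nat_lit 0xbc0001780002fd667) b59405 (.hit (nat_lit 20) (nat_lit 15) (nat_lit 0xbc0001780002fd53f) b59406 (.nil))) (.tok (nat_lit 9) (nat_lit 0xbc0001780002fdb20) (.hit (nat_lit 21) (nat_lit 20) (nat_lit 0xbc0001780002fd6c9) b59407 (.hit (nat_lit 22) (nat_lit 28) (nat_lit 0xbc0001780002fdb20) b59408 (.nil))) (.nil)))) (.tok (nat_lit 6) (nat_lit 0xbc0001780002ff712) (.hit (nat_lit 0) (nat_lit 0) (nat_lit 0xbc0001780002ff153) b59390 (.tok (nat_lit 3) (nat_lit 0xbc0001780002ff712) (.hit (nat_lit 1) (nat_lit 1) (nat_lit 0xbc0001780002fda32) b59391 (.one (nat_lit 67) (nat_lit 2) (nat_lit 2) (nat_lit 0xbc0001780002ff712) b59392 (.nil))) (.tok (nat_lit 6) (nat_lit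 0xbc0001780002ff3c6) (.hit (nat_lit 3) (nat_lit 7) (nat_lit 0xbc0001780002ff3c6) b59393 (.hit (nat_lit 7) (nat_lit 15) (nat_lit 0xbc0001780002fe25f) b59394 (.nil))) (.nil)))) (.tok (nat_lit 9) (nat_lit 0xbc000178000300000) (.hit (nat_lit 9) (nat_lit 0) (nat_lit 0xbc0001780002fe6f0) b59395 (.tok (nat_lit 3) (nat_lit 0xbc0001780002ff288) (.hit (nat_lit 10) (nat_lit 1) (nat_lit 0xbc0001780002fe179) b59396 (.one (nat_lit 55) (nat_lit 11) (nat_lit 3) (nat_lit 0xbc0001780002ff288) b59397 (.nil))) (.tok (nat_lit 9) (nat_lit 0xbc000178000300000) (.hit (nat_lit 12) (nat_lit 20) (nat_lit 0xbc0001780002fdb00) b59398 (.hit (nat_lit 16) (nat_lit 28) (nat_lit 0xbc0001780002fe196) b59402 (.tok (nat_lit 67) (nat_lit 0xbc000178000300000) (.hit (nat_lit 13) (nat_lit 21) (nat_lit 0xbc0001780002fff58) b59399 (.hit (nat_lit 17) (nat_lit 29) (nat_lit 0xbc0001780002ffca3) b59403 (.tok (nat_lit 9) (nat_lit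 0xbc000178000300000) (.hit (nat_lit 14) (nat_lit 22) (nat_lit 0xbc0001780002ff74b) b59400 (.one (nat_lit 67) (nat_lit 15) (nat_lit 23) (nat_lit 0xbc000178000300000) b59401 (.nil))) (.nil)))) (.nil)))) (.nil)))) (.nil)))
noncomputable def r87_6 : Rw Blk := .tok (nat_lit 3) (nat_lit 0xbc0001780002fd374) (.hit (nat_lit 14) (nat_lit 0) (nat_lit 0xbc0001780002fd374) b49714 (.tok (nat_lit 6) (nat_lit 0xbc0001780002fba9c) (.hit (nat_lit 15) (nat_lit 7) (nat_lit 0xbc0001780002fb52d) b49715 (.hit (nat_lit 16) (nat_lit 15) (nat_lit 0xbc0001780002fba9c) b49716 (.nil))) (.tok (nat_lit 9) (nat_lit 0xbc0001780002fc4d3) (.hit (nat_lit 17) (nat_lit 20) (nat_lit 0xbc0001780002fc4d3) b49717 (.hit (nat_lit 18) (nat_lit 28) (nat_lit 0xbc0001780002fc166) b49718 (.nil))) (.nil)))) (.tok (nat_lit 6) (nat_lit 0xbc0001780002fe147) (.hit (nat_lit 0) (nat_lit 0) (nat_lit 0xbc0001780002fe147) b49704 (.tok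 (nat_lit 3) (nat_lit 0xbc0001780002fd58b) (.hit (nat_lit 1) (nat_lit 1) (nat_lit 0xbc0001780002fc2e6) b49705 (.one (nat_lit 67) (nat_lit 2) (nat_lit 2) (nat_lit 0xbc0001780002fd58b) b49706 (.nil))) (.tok (nat_lit 6) (nat_lit 0xbc0001780002fe086) (.hit (nat_lit 3) (nat_lit 7) (nat_lit 0xbc0001780002fbe70) b49707 (.hit (nat_lit 7) (nat_lit 15) (nat_lit 0xbc0001780002fc3cc) b49708 (.tok (nat_lit 55) (nat_lit 0xbc0001780002fe086) (.hit (nat_lit 4) (nat_lit 8) (nat_lit 0xbc0001780002fd5d2) b59409 (.hit (nat_lit 8) (nat_lit 16) (nat_lit 0xbc0001780002fe086) b59412 (.tok (nat_lit 6) (nat_lit 0xbc0001780002fe009) (.hit (nat_lit 5) (nat_lit 9) (nat_lit 0xbc0001780002fd085) b59410 (.one (nat_lit 55) (nat_lit 6) (nat_lit 10) (nat_lit 0xbc0001780002fe009) b59411 (.nil))) (.nil)))) (.nil)))) (.nil)))) (.tok (nat_lit 9) (nat_lit 0xbc000178000300000) (.hit (nat_lit 9) (nat_lit 0) (nat_lit 0xbc0001780002fe7b3)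 b49709 (.tok (nat_lit 3) (nat_lit 0xbc000178000300000) (.hit (nat_lit 10) (nat_lit 1) (nat_lit 0xbc0001780002fe7d5) b49710 (.one (nat_lit 55) (nat_lit 11) (nat_lit 3) (nat_lit 0xbc000178000300000) b49711 (.nil))) (.tok (nat_lit 9) (nat_lit 0xbc0001780002ff27a) (.hit (nat_lit 12) (nat_lit 20) (nat_lit 0xbc0001780002ff27a) b49712 (.hit (nat_lit 13) (nat_lit 28) (nat_lit 0xbc0001780002fdf60) b49713 (.nil))) (.nil)))) (.nil)))
noncomputable def r87_7 : Rw Blk := .tok (nat_lit 6) (nat_lit 0xbc000178000303bc9) (.hit (nat_lit 10) (nat_lit 0) (nat_lit 0xbc000178000301a4e) b59417 (.tok (nat_lit 3) (nat_lit 0xbc00017800030036c) (.hit (nat_lit 11) (nat_lit 1) (nat_lit 0xbc0001780002ff03d) b59418 (.one (nat_lit 14) (nat_lit 12) (nat_lit 4) (nat_lit 0xbc00017800030036c) b59419 (.one (nat_lit 56) (nat_lit 13) (nat_lit 6) (nat_lit 0xbc00017800030007b) b59420 (.nil)))) (.tok (nat_lit 40) (nat_lit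 0xbc0001780002ffd2f) (.hit (nat_lit 14) (nat_lit 33) (nat_lit 0xbc0001780002ffd2f) b59421 (.hit (nat_lit 15) (nat_lit 34) (nat_lit 0xbc0001780002ffb97) b59422 (.nil))) (.tok (nat_lit 43) (nat_lit 0xbc000178000303bc9) (.hit (nat_lit 16) (nat_lit 35) (nat_lit 0xbc000178000303bc9) b59423 (.hit (nat_lit 17) (nat_lit 36) (nat_lit 0xbc0001780002fec37) b59424 (.nil))) (.tok (nat_lit 46) (nat_lit 0xbc000178000300ebf) (.hit (nat_lit 18) (nat_lit 37) (nat_lit 0xbc0001780002fecea) b59425 (.hit (nat_lit 19) (nat_lit 38) (nat_lit 0xbc000178000300ebf) b59426 (.nil))) (.nil)))))) (.tok (nat_lit 9) (nat_lit 0xbc000178000300e25) (.hit (nat_lit 0) (nat_lit 0) (nat_lit 0xbc000178000300e25) b59413 (.tok (nat_lit 3) (nat_lit 0xbc0001780002fe3b1) (.hit (nat_lit 1) (nat_lit 1) (nat_lit 0xbc0001780002fc6bd) b59414 (.one (nat_lit 14) (nat_lit 2) (nat_lit 4) (nat_lit 0xbc0001780002fdfc2) b59415 (.one (nat_lit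 68) (nat_lit 3) (nat_lit 5) (nat_lit 0xbc0001780002fe3b1) b59416 (.nil)))) (.nil))) (.nil))
noncomputable def r87_8 : Rw Blk := .tok (nat_lit 6) (nat_lit 0xbc0001780002ff8ed) (.hit (nat_lit 10) (nat_lit 0) (nat_lit 0xbc0001780002fe181) b59431 (.tok (nat_lit 3) (nat_lit 0xbc0001780002feac1) (.hit (nat_lit 11) (nat_lit 1) (nat_lit 0xbc0001780002fcab0) b59432 (.one (nat_lit 14) (nat_lit 12) (nat_lit 4) (nat_lit 0xbc0001780002feac1) b59433 (.one (nat_lit 56) (nat_lit 13) (nat_lit 6) (nat_lit 0xbc0001780002fe09e) b59434 (.nil)))) (.tok (nat_lit 40) (nat_lit 0xbc0001780002fe2d2) (.hit (nat_lit 14) (nat_lit 33) (nat_lit 0xbc0001780002fe2d2) b59435 (.hit (nat_lit 15) (nat_lit 34) (nat_lit 0xbc0001780002fdccd) b59436 (.nil))) (.tok (nat_lit 43) (nat_lit 0xbc0001780002ff8ed) (.hit (nat_lit 16) (nat_lit 35) (nat_lit 0xbc0001780002ff8ed) b59437 (.hit (nat_lit 17) (nat_lit 36) (nat_lit 0xbc0001780002fd81b)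 b59438 (.nil))) (.tok (nat_lit 46) (nat_lit 0xbc0001780002ff480) (.hit (nat_lit 18) (nat_lit 37) (nat_lit 0xbc0001780002fd0bd) b59439 (.hit (nat_lit 19) (nat_lit 38) (nat_lit 0xbc0001780002ff480) b59440 (.nil))) (.nil)))))) (.tok (nat_lit 9) (nat_lit 0xbc000178000300000) (.hit (nat_lit 0) (nat_lit 0) (nat_lit 0xbc0001780002ff904) b59427 (.tok (nat_lit 3) (nat_lit 0xbc000178000300000) (.hit (nat_lit 1) (nat_lit 1) (nat_lit 0xbc0001780002fd129) b59428 (.one (nat_lit 14) (nat_lit 2) (nat_lit 4) (nat_lit 0xbc000178000300000) b59429 (.one (nat_lit 68) (nat_lit 3) (nat_lit 5) (nat_lit 0xbc0001780002fea15) b59430 (.nil)))) (.nil))) (.nil))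
noncomputable def r87_9 : Rw Blk := .tok (nat_lit 3) (nat_lit 0x600f48c019f180e31b004f7601f54c02e1580aa5b0008c) (.hit (nat_lit 15) (nat_lit 0) (nat_lit 0x5fb712bf99597fe0dafe37f5fe1a4bf9c157fe692fde64) b59448 (.tok (nat_lit 9) (nat_lit 0x5fb96abf9e6d800972fdea55fe6aebfa0c57fe1fafdf90) (.hit (nat_lit 16) (nat_lit 20) (nat_lit 0x5f826ebf52157f05bafc3275fac28bf32cd7ea3c2fc412) b59449 (.hit (nat_lit 21) (nat_lit 28) (nat_lit 0x5f4b7cbf1ed97e8642fa7ae5fab78bec4e97ee202fa899) b59454 (.tok (nat_lit 14) (nat_lit 0x5fa1dabf9e6d800972fd2dd5fe6aebf71a57fe1fafd3c8) (.hit (nat_lit 17) (nat_lit 24) (nat_lit 0x5f9cfebf7a457f9bf2fd06f5fcc52bf67ed7f5edafd15a) b59450 (.hit (nat_lit 22) (nat_lit 30) (nat_lit 0x5f9c3cbf8edd7f6a92fd00e5fe36ebf66697fe1fafd0f9) b59455 (.one (nat_lit 6) (nat_lit 18) (nat_lit 25) (nat_lit 0x5fa1dabf9e6d800972fd2dd5fe6aebf71a57f8b22fd3c8) b59451 (.nil)))) (.tok (nat_lit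 68) (nat_lit 0x5fb96abf7b99800942fdea55fe57ebfa0c57f69cafdf90) (.hit (nat_lit 19) (nat_lit 26) (nat_lit 0x5f930ebf6e417f3c82fcb775fce06bf540d7f0912fcc62) b59452 (.hit (nat_lit 24) (nat_lit 32) (nat_lit 0x5f8d16bf56197f0582fc87b5fc508bf481d7f5ba2fc966) b59456 (.one (nat_lit 9) (nat_lit 20) (nat_lit 27) (nat_lit 0x5fb96abf7b99800942fdea55fe57ebfa0c57f69cafdf90) b59453 (.nil)))) (.nil))))) (.tok (nat_lit 64) (nat_lit 0x5fad02bfb3a57fc672fd8715fe2f0bf87f580361afd95c) (.hit (nat_lit 25) (nat_lit 50) (nat_lit 0x5fa906bf61157f5aeafd6735fc5dabf7ffd7fbf6afd75e) b59457 (.hit (nat_lit 26) (nat_lit 51) (nat_lit 0x5fad02bfb3a57fc672fd8715fe2f0bf87f580361afd95c) b59458 (.nil))) (.tok (nat_lit 67) (nat_lit 0x600f48c019f180e31b004f7601f54c02e1580aa5b0008c) (.hit (nat_lit 27) (nat_lit 52) (nat_lit 0x600f48c019f180e0eb004f7601f54c02e1580aa5b0008c) b59459 (.tok (nat_lit 3) (nat_lit 0x5fc84abfd77d8089bafe615600e02bfbe85800f7afe700)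 (.hit (nat_lit 33) (nat_lit 58) (nat_lit 0x5fbd5abfa439805b52fe09d5ffc98bfa8a57fdca2fe188) b59465 (.one (nat_lit 55) (nat_lit 34) (nat_lit 59) (nat_lit 0x5fc84abfd77d8089bafe615600e02bfbe85800f7afe700) b59466 (.nil))) (.tok (nat_lit 9) (nat_lit 0x5fbb96bfcb7980e31afdfbb60099abfa51d7fb632fe0a6) (.hit (nat_lit 28) (nat_lit 53) (nat_lit 0x5faffcbf82017fee92fd9ee5ff1a6bf8de97fa15afdad9) b59460 (.hit (nat_lit 31) (nat_lit 56) (nat_lit 0x5fb94cbfb2158018a2fde965ff6debfa0897f7ba2fdf81) b59463 (.tok (nat_lit 67) (nat_lit 0x5fbb96bfcb7980e31afdfbb60099abfa51d7fb632fe0a6) (.hit (nat_lit 29) (nat_lit 54) (nat_lit 0x5fb666bf915980318afdd2360099abf9abd7fb632fde0e) b59461 (.hit (nat_lit 32) (nat_lit 57) (nat_lit 0x5fbb96bfcb7980e31afdfbb6005ecbfa51d7f98c2fe0a6) b59464 (.one (nat_lit 9) (nat_lit 30) (nat_lit 55) (nat_lit 0x5fa88ebf6d19800e52fd6375fca68bf7f0d7f778afd722) b59462 (.nil)))) (.nil))))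 (.nil)))) (.one (nat_lit 70) (nat_lit 35) (nat_lit 60) (nat_lit 0x5fb394bfbf8d7fce6afdbba5fe714bf9519809fbafdca5) b59467 (.nil)))))) (.tok (nat_lit 6) (nat_lit 0x6018c2c05e2981355301bb0602662c010d980ffdb01874) (.hit (nat_lit 0) (nat_lit 0) (nat_lit 0x5ff302c05e2980f24b00b68602560bfd881806c33006ca) b59441 (.tok (nat_lit 6) (nat_lit 0x6018c2c04b8981355301bb0602662c010d980ffdb01874) (.hit (nat_lit 1) (nat_lit 7) (nat_lit 0x5fe286bf56e97f464b000c75fd570bfbf697f7f5afffba) b59442 (.hit (nat_lit 4) (nat_lit 15) (nat_lit 0x5f9672bf5f457f2e5afdfb65fc0d8bf15817f7232fd472) b59445 (.tok (nat_lit 14) (nat_lit 0x6018c2c0167181355301bb0602662c010d980ffdb01874) (.hit (nat_lit 2) (nat_lit 11) (nat_lit 0x6018c2bffcfd8095fb01bb05fe6fcc00f09809a5b01874) b59443 (.hit (nat_lit 5) (nat_lit 17) (nat_lit 0x5fad5cbfd51d7f96d2fe3985fd742bf7621804e6afe050) b59446 (.one (nat_lit 9) (nat_lit 3) (nat_lit 12)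 (nat_lit 0x600738c016718135530139a602662c010d980ffdb0173a) b59444 (.nil)))) (.one (nat_lit 68) (nat_lit 6) (nat_lit 18) (nat_lit 0x5fcf38c04b8980e542ff8a260229ebfaa7580a51aff230) b59447 (.nil))))) (.nil))) (.nil))
noncomputable def r87_10 : Rw Blk := .tok (nat_lit 6) (nat_lit 0x5e0000c0e20d8271f304e88) (.hit (nat_lit 18) (nat_lit 0) (nat_lit 0x5e0000bfd6ed8035db00647) b59468 (.tok (nat_lit 14) (nat_lit 0x5e0000c066f181034b02453) (.hit (nat_lit 19) (nat_lit 61) (nat_lit 0x5e0000bffdbd81034b009aa) b59469 (.one (nat_lit 3) (nat_lit 20) (nat_lit 62) (nat_lit 0x5e0000bfe769805f43008b0) b59470 (.tok (nat_lit 6) (nat_lit 0x5e0000bfb2557fba2affeec) (.hit (nat_lit 23) (nat_lit 65) (nat_lit 0x5e0000bf7c8d7f41d2ffa0f) b59473 (.hit (nat_lit 24) (nat_lit 66) (nat_lit 0x5e0000bfb2557fba2affeec) b59474 (.nil))) (.tok (nat_lit 9) (nat_lit 0x5e0000c066f180fcc302453) (.hit (nat_lit 21) (nat_lit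 63) (nat_lit 0x5e0000c066f180fcc302453) b59471 (.hit (nat_lit 22) (nat_lit 64) (nat_lit 0x5e0000bfc2c17fd2fb000f2) b59472 (.nil))) (.nil))))) (.one (nat_lit 17) (nat_lit 25) (nat_lit 67) (nat_lit 0x5e0000bfcd858028baff684) b59475 (.tok (nat_lit 20) (nat_lit 0x5e0000c0e20d8271f304e88) (.hit (nat_lit 26) (nat_lit 68) (nat_lit 0x5e0000c0e20d8271f304e88) b59476 (.hit (nat_lit 27) (nat_lit 69) (nat_lit 0x5e0000bf75797f4f9afe46b) b59477 (.nil))) (.tok (nat_lit 23) (nat_lit 0x5e0000bf91697f7a52ff854) (.hit (nat_lit 28) (nat_lit 70) (nat_lit 0x5e0000bf75a17f33faff854) b59478 (.hit (nat_lit 29) (nat_lit 71) (nat_lit 0x5e0000bf91697f7a52ff020) b59479 (.nil))) (.one (nat_lit 38) (nat_lit 34) (nat_lit 76) (nat_lit 0x5e0000bf8bd97f6132fe903) b59480 (.tok (nat_lit 41) (nat_lit 0x5e0000bfbb01801cd2ff9e2) (.hit (nat_lit 35) (nat_lit 77) (nat_lit 0x5e0000bf57cd7f346afe71c) b59481 (.hit (nat_lit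 36) (nat_lit 78) (nat_lit 0x5e0000bfbb01801cd2ff9e2) b59482 (.nil))) (.tok (nat_lit 44) (nat_lit 0x5e0000bf797d800b02ff629) (.hit (nat_lit 37) (nat_lit 79) (nat_lit 0x5e0000bf797d800b02ff629) b59483 (.hit (nat_lit 38) (nat_lit 80) (nat_lit 0x5e0000bf588d7f674afe5b9) b59484 (.nil))) (.tok (nat_lit 47) (nat_lit 0x5e0000bf9ccd7faa4aff26e) (.hit (nat_lit 39) (nat_lit 81) (nat_lit 0x5e0000bf2a257e9d02fe575) b59485 (.hit (nat_lit 40) (nat_lit 82) (nat_lit 0x5e0000bf9ccd7faa4aff26e) b59486 (.nil))) (.one (nat_lit 62) (nat_lit 41) (nat_lit 92) (nat_lit 0x5e0000bfbab57fb152fee88) b59487 (.tok (nat_lit 65) (nat_lit 0x5e0000bfc5617fe70aff88c) (.hit (nat_lit 42) (nat_lit 93) (nat_lit 0x5e0000bf94d57fb8c2ff7f6) b59488 (.hit (nat_lit 43) (nat_lit 94) (nat_lit 0x5e0000bfc5617fe70aff88c) b59489 (.nil))) (.tok (nat_lit 68) (nat_lit 0x5e0000c025817fcd73004fb) (.hit (nat_lit 44) (nat_lit 95) (nat_lit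 0x5e0000c025817fcd73004fb) b59490 (.one (nat_lit 3) (nat_lit 48) (nat_lit 99) (nat_lit 0x5e0000bf78857f39c2ff90d) b59494 (.one (nat_lit 6) (nat_lit 45) (nat_lit 96) (nat_lit 0x5e0000bf73ed7f3092ff7e7) b59491 (.tok (nat_lit 9) (nat_lit 0x5e0000bf65e57f1482ff465) (.hit (nat_lit 46) (nat_lit 97) (nat_lit 0x5e0000bf65e57f1482ff465) b59492 (.hit (nat_lit 47) (nat_lit 98) (nat_lit 0x5e0000bf49cd7edc52fed5f) b59493 (.nil))) (.nil))))) (.one (nat_lit 71) (nat_lit 49) (nat_lit 100) (nat_lit 0x5e0000bf86917f5fc2fe5cd) b59495 (.nil)))))))))))))) (.nil)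
noncomputable def r87_11 : Rw Blk := .tok (nat_lit 6) (nat_lit 0xbc00017800030328f) (.hit (nat_lit 18) (nat_lit 0) (nat_lit 0xbc0001780002fde3d) b59496 (.tok (nat_lit 14) (nat_lit 0xbc00017800030328f) (.hit (nat_lit 19) (nat_lit 61) (nat_lit 0xbc00017800030033d) b59497 (.one (nat_lit 3) (nat_lit 20) (nat_lit 62) (nat_lit 0xbc0001780002ff11d) b59498 (.tok (nat_lit 6) (nat_lit 0xbc0001780002fe668) (.hit (nat_lit 23) (nat_lit 65) (nat_lit 0xbc0001780002fe138) b59501 (.hit (nat_lit 24) (nat_lit 66) (nat_lit 0xbc0001780002fe668) b59502 (.nil))) (.tok (nat_lit 9) (nat_lit 0xbc00017800030328f) (.hit (nat_lit 21) (nat_lit 63) (nat_lit 0xbc00017800030328f) b59499 (.hit (nat_lit 22) (nat_lit 64) (nat_lit 0xbc0001780002ff24f) b59500 (.nil))) (.nil))))) (.one (nat_lit 17) (nat_lit 25) (nat_lit 67) (nat_lit 0xbc0001780002fe8cc) b59503 (.tok (nat_lit 20) (nat_lit 0xbc000178000301305) (.hit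 (nat_lit 26) (nat_lit 68) (nat_lit 0xbc000178000301305) b59504 (.hit (nat_lit 27) (nat_lit 69) (nat_lit 0xbc0001780002fe473) b59505 (.nil))) (.tok (nat_lit 23) (nat_lit 0xbc0001780002fe5f5) (.hit (nat_lit 28) (nat_lit 70) (nat_lit 0xbc0001780002fd57a) b59506 (.hit (nat_lit 29) (nat_lit 71) (nat_lit 0xbc0001780002fe5f5) b59507 (.nil))) (.one (nat_lit 38) (nat_lit 34) (nat_lit 76) (nat_lit 0xbc0001780002fe49a) b59508 (.tok (nat_lit 41) (nat_lit 0xbc0001780002fe265) (.hit (nat_lit 35) (nat_lit 77) (nat_lit 0xbc0001780002fd815) b59509 (.hit (nat_lit 36) (nat_lit 78) (nat_lit 0xbc0001780002fe265) b59510 (.nil))) (.tok (nat_lit 44) (nat_lit 0xbc0001780002fdb45) (.hit (nat_lit 37) (nat_lit 79) (nat_lit 0xbc0001780002fd73f) b59511 (.hit (nat_lit 38) (nat_lit 80) (nat_lit 0xbc0001780002fdb45) b59512 (.nil))) (.tok (nat_lit 47) (nat_lit 0xbc0001780002fe256) (.hit (nat_lit 39) (nat_lit 81)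 (nat_lit 0xbc0001780002fbbdf) b59513 (.hit (nat_lit 40) (nat_lit 82) (nat_lit 0xbc0001780002fe256) b59514 (.nil))) (.one (nat_lit 62) (nat_lit 41) (nat_lit 92) (nat_lit 0xbc0001780002feb9b) b59515 (.tok (nat_lit 65) (nat_lit 0xbc0001780002fe6eb) (.hit (nat_lit 42) (nat_lit 93) (nat_lit 0xbc0001780002fdedd) b59516 (.hit (nat_lit 43) (nat_lit 94) (nat_lit 0xbc0001780002fe6eb) b59517 (.nil))) (.tok (nat_lit 68) (nat_lit 0xbc0001780002ffb41) (.hit (nat_lit 44) (nat_lit 95) (nat_lit 0xbc0001780002ffb41) b59518 (.one (nat_lit 3) (nat_lit 48) (nat_lit 99) (nat_lit 0xbc0001780002fd50e) b59522 (.one (nat_lit 6) (nat_lit 45) (nat_lit 96) (nat_lit 0xbc0001780002fe138) b59519 (.tok (nat_lit 9) (nat_lit 0xbc0001780002fe1a4) (.hit (nat_lit 46) (nat_lit 97) (nat_lit 0xbc0001780002fe1a4) b59520 (.hit (nat_lit 47) (nat_lit 98) (nat_lit 0xbc0001780002fc83f) b59521 (.nil))) (.nil))))) (.one (nat_lit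 71) (nat_lit 49) (nat_lit 100) (nat_lit 0xbc0001780002fe282) b59523 (.nil)))))))))))))) (.nil)
noncomputable def r87_12 : Rw Blk := .tok (nat_lit 9) (nat_lit 0xbc000178000301300) (.hit (nat_lit 21) (nat_lit 0) (nat_lit 0xbc0001780002febdc) b59542 (.tok (nat_lit 14) (nat_lit 0xbc000178000300edb) (.hit (nat_lit 22) (nat_lit 61) (nat_lit 0xbc0001780002ffb26) b59543 (.one (nat_lit 3) (nat_lit 23) (nat_lit 62) (nat_lit 0xbc0001780002ff499) b59544 (.tok (nat_lit 6) (nat_lit 0xbc000178000300edb) (.hit (nat_lit 26) (nat_lit 65) (nat_lit 0xbc000178000300edb) b59547 (.hit (nat_lit 27) (nat_lit 66) (nat_lit 0xbc0001780002ff8a6) b59548 (.nil))) (.tok (nat_lit 9) (nat_lit 0xbc0001780002feeb9) (.hit (nat_lit 24) (nat_lit 63) (nat_lit 0xbc0001780002fddb4) b59545 (.hit (nat_lit 25) (nat_lit 64) (nat_lit 0xbc0001780002feeb9) b59546 (.nil))) (.nil))))) (.one (nat_lit 17) (nat_lit 28) (nat_lit 67)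 (nat_lit 0xbc0001780002ff75c) b59549 (.tok (nat_lit 20) (nat_lit 0xbc0001780002ffbca) (.hit (nat_lit 29) (nat_lit 68) (nat_lit 0xbc0001780002fcf81) b59550 (.hit (nat_lit 30) (nat_lit 69) (nat_lit 0xbc0001780002ffbca) b59551 (.nil))) (.tok (nat_lit 23) (nat_lit 0xbc0001780002ff6eb) (.hit (nat_lit 31) (nat_lit 70) (nat_lit 0xbc0001780002ff6eb) b59552 (.hit (nat_lit 32) (nat_lit 71) (nat_lit 0xbc0001780002febe2) b59553 (.nil))) (.one (nat_lit 26) (nat_lit 33) (nat_lit 72) (nat_lit 0xbc0001780002ff1da) b59554 (.one (nat_lit 29) (nat_lit 34) (nat_lit 73) (nat_lit 0xbc0001780002fe49d) b59555 (.one (nat_lit 32) (nat_lit 35) (nat_lit 74) (nat_lit 0xbc0001780002ff9bb) b59556 (.one (nat_lit 35) (nat_lit 36) (nat_lit 75) (nat_lit 0xbc0001780002fe0be) b59557 (.one (nat_lit 62) (nat_lit 46) (nat_lit 92) (nat_lit 0xbc0001780002fde82) b59558 (.tok (nat_lit 65) (nat_lit 0xbc0001780002fef5c) (.hit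 (nat_lit 47) (nat_lit 93) (nat_lit 0xbc0001780002fef5c) b59559 (.hit (nat_lit 48) (nat_lit 94) (nat_lit 0xbc0001780002fd7c2) b59560 (.nil))) (.tok (nat_lit 68) (nat_lit 0xbc000178000301300) (.hit (nat_lit 49) (nat_lit 95) (nat_lit 0xbc000178000300c4a) b59561 (.one (nat_lit 3) (nat_lit 53) (nat_lit 99) (nat_lit 0xbc0001780002ffd10) b59565 (.one (nat_lit 6) (nat_lit 50) (nat_lit 96) (nat_lit 0xbc000178000301300) b59562 (.tok (nat_lit 9) (nat_lit 0xbc0001780002ffaa5) (.hit (nat_lit 51) (nat_lit 97) (nat_lit 0xbc0001780002ffaa5) b59563 (.hit (nat_lit 52) (nat_lit 98) (nat_lit 0xbc0001780002fe0f5) b59564 (.nil))) (.nil))))) (.one (nat_lit 71) (nat_lit 54) (nat_lit 100) (nat_lit 0xbc0001780002fd765) b59566 (.nil)))))))))))))) (.tok (nat_lit 64) (nat_lit 0xbc000178000301825) (.hit (nat_lit 16) (nat_lit 0) (nat_lit 0xbc0001780003012de) b59537 (.tok (nat_lit 6) (nat_lit 0xbc00017800030177a)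 (.hit (nat_lit 17) (nat_lit 7) (nat_lit 0xbc0001780002ff3c2) b59538 (.hit (nat_lit 18) (nat_lit 15) (nat_lit 0xbc00017800030177a) b59539 (.nil))) (.tok (nat_lit 9) (nat_lit 0xbc000178000301825) (.hit (nat_lit 19) (nat_lit 20) (nat_lit 0xbc000178000301825) b59540 (.hit (nat_lit 20) (nat_lit 28) (nat_lit 0xbc000178000300f79) b59541 (.nil))) (.nil)))) (.tok (nat_lit 67) (nat_lit 0xbc0001780003012ce) (.hit (nat_lit 8) (nat_lit 0) (nat_lit 0xbc0001780003012ce) b59529 (.tok (nat_lit 3) (nat_lit 0xbc0001780002ffc6e) (.hit (nat_lit 9) (nat_lit 1) (nat_lit 0xbc0001780002ff89a) b59530 (.one (nat_lit 55) (nat_lit 10) (nat_lit 3) (nat_lit 0xbc0001780002ffc6e) b59531 (.nil))) (.tok (nat_lit 9) (nat_lit 0xbc0001780003001b1) (.hit (nat_lit 11) (nat_lit 20) (nat_lit 0xbc0001780002ff1d5) b59532 (.hit (nat_lit 14) (nat_lit 28) (nat_lit 0xbc0001780002fe739) b59535 (.tok (nat_lit 67) (nat_lit 0xbc0001780003001b1)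 (.hit (nat_lit 12) (nat_lit 21) (nat_lit 0xbc0001780002ff31a) b59533 (.hit (nat_lit 15) (nat_lit 29) (nat_lit 0xbc0001780003001b1) b59536 (.one (nat_lit 9) (nat_lit 13) (nat_lit 22) (nat_lit 0xbc0001780002ffc76) b59534 (.nil)))) (.nil)))) (.nil)))) (.tok (nat_lit 70) (nat_lit 0xbc0001780003008c0) (.hit (nat_lit 0) (nat_lit 0) (nat_lit 0xbc0001780002ffdbe) b59524 (.tok (nat_lit 3) (nat_lit 0xbc0001780003008c0) (.hit (nat_lit 1) (nat_lit 1) (nat_lit 0xbc00017800030025e) b59525 (.one (nat_lit 67) (nat_lit 2) (nat_lit 2) (nat_lit 0xbc0001780003008c0) b59526 (.nil))) (.tok (nat_lit 6) (nat_lit 0xbc000178000300076) (.hit (nat_lit 3) (nat_lit 7) (nat_lit 0xbc000178000300076) b59527 (.hit (nat_lit 6) (nat_lit 15) (nat_lit 0xbc0001780002ffb5c) b59528 (.nil))) (.nil)))) (.nil))))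
noncomputable def r87_13 : Rw Blk := .tok (nat_lit 3) (nat_lit 0xbc00017800030429c) (.hit (nat_lit 0) (nat_lit 0) (nat_lit 0xbc000178000302da0) b59567 (.tok (nat_lit 6) (nat_lit 0xbc0001780003007ce) (.hit (nat_lit 1) (nat_lit 7) (nat_lit 0xbc00017800030072a) b59568 (.hit (nat_lit 4) (nat_lit 15) (nat_lit 0xbc0001780002feb97) b59569 (.one (nat_lit 68) (nat_lit 5) (nat_lit 18) (nat_lit 0xbc0001780003007ce) b59570 (.nil)))) (.tok (nat_lit 52) (nat_lit 0xbc0001780003017b9) (.hit (nat_lit 7) (nat_lit 39) (nat_lit 0xbc00017800030176d) b59571 (.hit (nat_lit 8) (nat_lit 40) (nat_lit 0xbc0001780003017b9) b59572 (.nil))) (.tok (nat_lit 55) (nat_lit 0xbc00017800030429c) (.hit (nat_lit 9) (nat_lit 41) (nat_lit 0xbc00017800030429c) b59573 (.one (nat_lit 3) (nat_lit 15) (nat_lit 47) (nat_lit 0xbc000178000301e50) b59576 (.tok (nat_lit 6) (nat_lit 0xbc000178000302872) (.hit (nat_lit 10) (nat_lit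 42) (nat_lit 0xbc000178000302872) b59574 (.hit (nat_lit 13) (nat_lit 45) (nat_lit 0xbc000178000301c0a) b59575 (.nil))) (.nil)))) (.one (nat_lit 58) (nat_lit 16) (nat_lit 49) (nat_lit 0xbc000178000301333) b59577 (.nil)))))) (.tok (nat_lit 9) (nat_lit 0xbc000178000304cc9) (.hit (nat_lit 17) (nat_lit 0) (nat_lit 0xbc000178000303b4e) b59578 (.tok (nat_lit 9) (nat_lit 0xbc000178000302f8f) (.hit (nat_lit 18) (nat_lit 20) (nat_lit 0xbc000178000302f8f) b59579 (.hit (nat_lit 19) (nat_lit 28) (nat_lit 0xbc000178000300368) b59580 (.one (nat_lit 56) (nat_lit 20) (nat_lit 31) (nat_lit 0xbc000178000302e5d) b59581 (.nil)))) (.tok (nat_lit 64) (nat_lit 0xbc0001780003046ae) (.hit (nat_lit 21) (nat_lit 50) (nat_lit 0xbc0001780003046ae) b59582 (.hit (nat_lit 22) (nat_lit 51) (nat_lit 0xbc000178000304669) b59583 (.nil))) (.tok (nat_lit 67) (nat_lit 0xbc000178000304be2) (.hit (nat_lit 23) (nat_lit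 52) (nat_lit 0xbc000178000304be2) b59584 (.one (nat_lit 3) (nat_lit 26) (nat_lit 58) (nat_lit 0xbc000178000303cfb) b59587 (.tok (nat_lit 9) (nat_lit 0xbc00017800030331b) (.hit (nat_lit 24) (nat_lit 53) (nat_lit 0xbc000178000303126) b59585 (.hit (nat_lit 25) (nat_lit 56) (nat_lit 0xbc00017800030331b) b59586 (.nil))) (.nil)))) (.one (nat_lit 70) (nat_lit 27) (nat_lit 60) (nat_lit 0xbc000178000304cc9) b59588 (.nil)))))) (.nil))
noncomputable def r87_14 : Rw Blk := .tok (nat_lit 3) (nat_lit 0xbc0001780002fe334) (.hit (nat_lit 15) (nat_lit 0) (nat_lit 0xbc0001780002fdb19) b59604 (.tok (nat_lit 6) (nat_lit 0xbc0001780002fcde1) (.hit (nat_lit 16) (nat_lit 7) (nat_lit 0xbc0001780002fad32) b59605 (.hit (nat_lit 21) (nat_lit 15) (nat_lit 0xbc0001780002f97b3) b59608 (.tok (nat_lit 14) (nat_lit 0xbc0001780002fcde1) (.hit (nat_lit 17) (nat_lit 11) (nat_lit 0xbc0001780002fc06b) b59606 (.hit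 (nat_lit 22) (nat_lit 17) (nat_lit 0xbc0001780002fcde1) b59609 (.one (nat_lit 9) (nat_lit 18) (nat_lit 12) (nat_lit 0xbc0001780002fc9fc) b59607 (.nil)))) (.one (nat_lit 68) (nat_lit 23) (nat_lit 18) (nat_lit 0xbc0001780002fc077) b59610 (.nil))))) (.tok (nat_lit 52) (nat_lit 0xbc0001780002fd7f7) (.hit (nat_lit 25) (nat_lit 39) (nat_lit 0xbc0001780002fd0e1) b59611 (.hit (nat_lit 26) (nat_lit 40) (nat_lit 0xbc0001780002fd7f7) b59612 (.nil))) (.tok (nat_lit 55) (nat_lit 0xbc0001780002fe334) (.hit (nat_lit 27) (nat_lit 41) (nat_lit 0xbc0001780002fe334) b59613 (.tok (nat_lit 3) (nat_lit 0xbc0001780002fdf06) (.hit (nat_lit 33) (nat_lit 47) (nat_lit 0xbc0001780002fdf06) b59616 (.one (nat_lit 67) (nat_lit 34) (nat_lit 48) (nat_lit 0xbc0001780002fd4c8) b59617 (.nil))) (.tok (nat_lit 6) (nat_lit 0xbc0001780002fdff7) (.hit (nat_lit 28) (nat_lit 42) (nat_lit 0xbc0001780002fdff7) b59614 (.hit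 (nat_lit 31) (nat_lit 45) (nat_lit 0xbc0001780002fdc33) b59615 (.nil))) (.nil)))) (.one (nat_lit 58) (nat_lit 35) (nat_lit 49) (nat_lit 0xbc0001780002fde79) b59618 (.nil)))))) (.tok (nat_lit 9) (nat_lit 0xbc000178000301c98) (.hit (nat_lit 0) (nat_lit 0) (nat_lit 0xbc0001780002fe122) b59589 (.tok (nat_lit 9) (nat_lit 0xbc0001780002ff4f2) (.hit (nat_lit 1) (nat_lit 20) (nat_lit 0xbc0001780002fd4fe) b59590 (.hit (nat_lit 4) (nat_lit 28) (nat_lit 0xbc0001780002fd5c4) b59593 (.tok (nat_lit 14) (nat_lit 0xbc0001780002ff4f2) (.hit (nat_lit 2) (nat_lit 24) (nat_lit 0xbc0001780002ff4f2) b59591 (.hit (nat_lit 5) (nat_lit 30) (nat_lit 0xbc0001780002fdad8) b59594 (.one (nat_lit 6) (nat_lit 3) (nat_lit 25) (nat_lit 0xbc0001780002ff485) b59592 (.nil)))) (.one (nat_lit 56) (nat_lit 6) (nat_lit 31) (nat_lit 0xbc0001780002fd8ae) b59595 (.nil))))) (.tok (nat_lit 64) (nat_lit 0xbc0001780002fe4c2)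 (.hit (nat_lit 7) (nat_lit 50) (nat_lit 0xbc0001780002fe4c2) b59596 (.hit (nat_lit 8) (nat_lit 51) (nat_lit 0xbc0001780002fde0f) b59597 (.nil))) (.tok (nat_lit 67) (nat_lit 0xbc000178000301c98) (.hit (nat_lit 9) (nat_lit 52) (nat_lit 0xbc0001780002ffebe) b59598 (.tok (nat_lit 3) (nat_lit 0xbc000178000301c98) (.hit (nat_lit 12) (nat_lit 58) (nat_lit 0xbc0001780003015a6) b59601 (.one (nat_lit 55) (nat_lit 13) (nat_lit 59) (nat_lit 0xbc000178000301c98) b59602 (.nil))) (.tok (nat_lit 9) (nat_lit 0xbc0001780002feb57) (.hit (nat_lit 10) (nat_lit 53) (nat_lit 0xbc0001780002feb57) b59599 (.hit (nat_lit 11) (nat_lit 56) (nat_lit 0xbc0001780002fe3bb) b59600 (.nil))) (.nil)))) (.one (nat_lit 70) (nat_lit 14) (nat_lit 60) (nat_lit 0xbc0001780002fd0f5) b59603 (.nil)))))) (.nil))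
noncomputable def r87_15 : Rw Blk := .tok (nat_lit 9) (nat_lit 0xc000017f5132fddd85fd530c000017f6c72ff7966004ccc000017fc392ff5b8) (.hit (nat_lit 157) (nat_lit 0) (nat_lit 0xbf76b17ec682fca515fb582bf6a917ebfa2fe05a5fcae8bf6ab97f0a1afde85) b59619 (.tok (nat_lit 14) (nat_lit 0xc000017f475afddd85fd530c000017f6c72ff33c6004ccc000017fc242ff5b8) (.hit (nat_lit 193) (nat_lit 61) (nat_lit 0xbfcaa97f3ddafddd85fc31abfed097f0bcafeb975fe5f6bfa4397f72f2fe9c5) b59620 (.one (nat_lit 3) (nat_lit 194) (nat_lit 62) (nat_lit 0xbf94117ece8afd8e15f9c4cbf77ad7e604afdb286004ccc000017f391aff54b) b59621 (.tok (nat_lit 6) (nat_lit 0xc000017f475afdced5fd530c000017f6c72ff33c5ffc38bfcf397fc242ff5b8) (.hit (nat_lit 197) (nat_lit 65) (nat_lit 0xc000017f475afd6ad5fd530c000017f6c72ff33c5ffc38bfcf397f7ad2fedbd) b59624 (.hit (nat_lit 198) (nat_lit 66) (nat_lit 0xbf88b97e8d0afdced5f9c52bf6e7d7e5a92fdb2c5fc25cbf545d7fc242ff5b8)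 b59625 (.nil))) (.tok (nat_lit 9) (nat_lit 0xbf9f8d7ec542fd41e5fac5abfa1a97e920afe0bd5fe29ebfdec17f751afea42) (.hit (nat_lit 195) (nat_lit 63) (nat_lit 0xbf3de57e03dafcbe85fac5abf3fb57e920afd87a5fcf36bf49497ea64afd82a) b59622 (.hit (nat_lit 196) (nat_lit 64) (nat_lit 0xbf9f8d7ec542fd41e5fa78ebfa1a97e8d12fe0bd5fe29ebfdec17f751afea42) b59623 (.nil))) (.nil))))) (.one (nat_lit 17) (nat_lit 199) (nat_lit 67) (nat_lit 0xbf5e797e8d22fcb965f82f0bf49517decf2fd4ea5ff8eabfa29d7ed6e2fea81) b59626 (.tok (nat_lit 20) (nat_lit 0xbf57d57e21dafc7c35fa6b0bf429d7e7b62fd5a55fd546bf60dd7e9a7afdc7d) (.hit (nat_lit 200) (nat_lit 68) (nat_lit 0xbf32917ded32fc7c35fa6b0bf34617e7b62fd5a55fc98cbf3df57e74fafd4fa) b59627 (.hit (nat_lit 201) (nat_lit 69) (nat_lit 0xbf57d57e21dafbc775f7f9ebf429d7ddf9afd3415fd546bf60dd7e9a7afdc7d) b59628 (.nil))) (.tok (nat_lit 23) (nat_lit 0xbfa7117f267afd5a35fbfc0bfc8997ec98aff7965fd77cbf9ed97f140afe943)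 (.hit (nat_lit 202) (nat_lit 70) (nat_lit 0xbfa7117f267afd5a35fbfc0bfc8997ec98aff7965fd77cbf9ed97f140afe943) b59629 (.hit (nat_lit 203) (nat_lit 71) (nat_lit 0xbf5b217e16bafd20e5f8144bf45e97de552fd4135fb3bcbf4e4d7f0252fdcc1) b59630 (.nil))) (.one (nat_lit 26) (nat_lit 204) (nat_lit 72) (nat_lit 0xbf36817dcd82fb83f5f6ef4bf21617d9cf2fcaeb5fa936bf26a17e57d2fc72f) b59631 (.one (nat_lit 29) (nat_lit 205) (nat_lit 73) (nat_lit 0xbf3d357e16dafc1075f725abf27f97daa5afcc985fc64abf60057e6542fdb62) b59632 (.one (nat_lit 32) (nat_lit 206) (nat_lit 74) (nat_lit 0xbf58b97e4b8afc57d5f801cbf437d7de162fd3795fc9b6bf68297e9c42fdbd3) b59633 (.one (nat_lit 35) (nat_lit 207) (nat_lit 75) (nat_lit 0xbf09757d9b72fc6de5f65f2bef4357d786afbfa85f95c6bf11b17e6b9afd15e) b59634 (.one (nat_lit 50) (nat_lit 215) (nat_lit 83) (nat_lit 0xbf460d7df7d2fc3135f78f2bf30ed7dc46afcece5fc33cbf50dd7e997afd3c0) b59635 (.tok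 (nat_lit 53) (nat_lit 0xbf6be17eba82fc9ed5f883ebf5fe17e0e4afd3c65ff2eabfca557eef6afe86e) (.hit (nat_lit 216) (nat_lit 84) (nat_lit 0xbf6be17eba82fc9ed5f883ebf5fe17e0e4afd3c65ff2eabfca557eef6afe4e9) b59636 (.hit (nat_lit 217) (nat_lit 85) (nat_lit 0xbf536d7e49bafc39d5f7d6abf3e317dd6cafd22a5ff2d6bf8d117e91aafe86e) b59637 (.nil))) (.tok (nat_lit 56) (nat_lit 0xbf7f757ec15afd8615fb21cbf78e97eb67afe1525fcdc6bf6cd57f3382fe2b0) (.hit (nat_lit 218) (nat_lit 86) (nat_lit 0xbf7f757ec15afd8615fb21cbf78e97eb67afe1525fcdc6bf6cd57f3382fe24b) b59638 (.one (nat_lit 3) (nat_lit 222) (nat_lit 90) (nat_lit 0xbf07217d9652fcc375f90f8bf08f17e2482fcac95fb3d4bf12857e1e1afddb8) b59642 (.tok (nat_lit 6) (nat_lit 0xbf388d7df92afd7f45fa9aebf3a5d7e875afd7245fcc8abf43f17e80f2fe2b0) (.hit (nat_lit 220) (nat_lit 88) (nat_lit 0xbf16357db47afd6f25f9882bf18057e42aafce8e5fbb5ebf21997e71dafd9f3) b59640 (.hit (nat_lit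 221) (nat_lit 89) (nat_lit 0xbf388d7df92afd7f45fa9aebf3a5d7e875afd7245fcc8abf43f17e80f2fe2b0) b59641 (.nil))) (.one (nat_lit 9) (nat_lit 219) (nat_lit 87) (nat_lit 0xbf33dd7defcafd0ab5fa756bf35ad7e7dfafd5f85fca32bf3f417e7792fdd61) b59639 (.nil))))) (.one (nat_lit 59) (nat_lit 223) (nat_lit 91) (nat_lit 0xbf2cd97ddb82fb8c35f6a20bf17ad7d89b2fc8815fd230bf58fd7e4482fda09) b59643 (.one (nat_lit 62) (nat_lit 224) (nat_lit 92) (nat_lit 0xbf6f2d7e5ea2fcad25f8b4ebf59657e0e32fd9135fdb62bf78e97ed89afdd17) b59644 (.tok (nat_lit 65) (nat_lit 0xbf730d7f124afd7c45f9ccabf4bc57e4d32fdd705fe68ebfa6697f5c72fecbb) (.hit (nat_lit 225) (nat_lit 93) (nat_lit 0xbf730d7f124afd7c45f9ccabf43e17e4d32fdd705fc8c2bfa6697f5c72fe2cf) b59645 (.hit (nat_lit 226) (nat_lit 94) (nat_lit 0xbf62097e62dafcb7d5f84c6bf4bc57df402fd5cd5fe68ebf9f5d7eb652fecbb) b59646 (.nil))) (.tok (nat_lit 68) (nat_lit 0xbfce697f5132fdb365fcef0bfd1e17f3a72fee905ff088bfbe457fc392ff2b1)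 (.hit (nat_lit 227) (nat_lit 95) (nat_lit 0xbfce0d7f5132fd6ee5fcc0abfb5057f2c6afee905fe4debfab0d7f8232fe907) b59647 (.one (nat_lit 3) (nat_lit 231) (nat_lit 99) (nat_lit 0xbf9f7d7ec65afcf685fae12bf86217eb6d2fdcf95fd226bf6ec57ede9afe00e) b59651 (.one (nat_lit 6) (nat_lit 228) (nat_lit 96) (nat_lit 0xbfc3117f4632fd6615fcef0bfc2697f3a72fea195ff088bfbe457f8c02febe0) b59648 (.tok (nat_lit 9) (nat_lit 0xbfce697ee682fdb365fb580bfd1e17f3312fea675fe1ecbfa7197fc392ff2b1) (.hit (nat_lit 229) (nat_lit 97) (nat_lit 0xbfce697ee682fdb365fb580bfd1e17f3312fea675fe1ecbfa7197fc392ff2b1) b59649 (.hit (nat_lit 230) (nat_lit 98) (nat_lit 0xbf667d7edda2fd6425f90b0bf38957e2362fcfc35fd916bf90c17e88aafe5a1) b59650 (.nil))) (.nil))))) (.one (nat_lit 71) (nat_lit 232) (nat_lit 100) (nat_lit 0xbf52ed7e0d6afc4b35f7d2abf3d2d7dd5cafd2065fdd6ebf813d7e90aafe49e) b59652 (.nil)))))))))))))))))) (.tok (nat_lit 64)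 (nat_lit 0xbfe8d9800003000005fe912bf993980000300000600088bfea917fd2c300ec9) (.hit (nat_lit 377) (nat_lit 0) (nat_lit 0xbfe8d97fb2daffc115fe912bf99397fb8fb00000600088bfea917fd2c2ffb9b) b59653 (.tok (nat_lit 6) (nat_lit 0xbfcbc17fe933000005fe2eebf95197f880aff5b45fe680bfbe5d7f51f2ffc48) (.hit (nat_lit 378) (nat_lit 7) (nat_lit 0xbfaba57ed56b000005fe2eebf95197f5c4aff1655fddd8bfad1d7f51f2ff865) b59654 (.hit (nat_lit 379) (nat_lit 15) (nat_lit 0xbfcbc17fe932ff7075fd368bf760d7f880aff5b45fe680bfbe5d7f30a2ffc48) b59655 (.nil))) (.tok (nat_lit 9) (nat_lit 0xbfe465800002fef0f5fdf2cbf8d95800002ffc305ff3d8bfd84d7f42eb00ec9) (.hit (nat_lit 380) (nat_lit 20) (nat_lit 0xbfe465800002fef0f5fdf2cbf8d95800002ffc305ff3d8bfd84d7f42eb00ec9) b59656 (.hit (nat_lit 381) (nat_lit 28) (nat_lit 0xbfb5e57f89aafe2595fcb64bf66057f6362ff11f5fdd56bfac097ef3caff505) b59657 (.nil))) (.nil)))) (.tok (nat_lit 67)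 (nat_lit 0xbfe5c97f49b2ffb1c600000bfcfe57fd092fffee5ffaeabfe741800002ffc72) (.hit (nat_lit 388) (nat_lit 0) (nat_lit 0xbfe54d7f2b1afea945fe280bfcfe57f5a92fff4a5ff8d0bfe4b5800002ff9c2) b59658 (.tok (nat_lit 3) (nat_lit 0xbfb41d7ee65aff16d5fe72abf9d917f6d3aff3835fe214bfb5957f9e2aff8c2) (.hit (nat_lit 389) (nat_lit 1) (nat_lit 0xbf4b917e1542fd82a5fb2e4bf35057e9c22fd9605fadcebf4d097e91cafd97e) b59659 (.one (nat_lit 55) (nat_lit 390) (nat_lit 3) (nat_lit 0xbfb41d7ee65aff16d5fe72abf9d917f6d3aff3835fe214bfb5957f9e2aff8c2) b59660 (.nil))) (.tok (nat_lit 9) (nat_lit 0xbfe5c97f49b2ffb1c600000bfcf3d7fd092fffee5ffaeabfe7417fdaf2ffc72) (.hit (nat_lit 391) (nat_lit 20) (nat_lit 0xbf70697e5ef2fdb755fc550bf59dd7ee5d2fe2965fc03abf71e17edb7afdc83) b59661 (.hit (nat_lit 394) (nat_lit 28) (nat_lit 0xbf32997de352fd6225fa668bf1c0d7e6a32fd3225fa152bf34117ec45afd99f) b59664 (.tok (nat_lit 67) (nat_lit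 0xbfe5c97f49b2ffb1c600000bfcf3d7fd092fffee5ffaeabfe7417fdaf2ffc72) (.hit (nat_lit 392) (nat_lit 21) (nat_lit 0xbfc73d7f0c9aff7be5ff0babfb0b17f937aff84b5feba4bfc8b57fc972ffa42) b59662 (.hit (nat_lit 395) (nat_lit 29) (nat_lit 0xbf9af97eb412fedd35fda98bf846d7f3af2fed3a5fd582bf9c717fb0a2ff7b7) b59665 (.one (nat_lit 9) (nat_lit 393) (nat_lit 22) (nat_lit 0xbfe5c97f49b2ffb1c600000bfcf3d7fd092fffee5ffaeabfe7417fdaf2ffc72) b59663 (.nil)))) (.nil)))) (.nil)))) (.tok (nat_lit 70) (nat_lit 0xbfe1157f404aff7005ffda6bfca897fc72affec15ff890bfe28d7fbcd30010a) (.hit (nat_lit 402) (nat_lit 0) (nat_lit 0xbfae717eb59afe41a5fc71cbf92997eed02ffe825ff740bfe1957f9fc2ff705) b59666 (.tok (nat_lit 3) (nat_lit 0xbfb7417eeca2fe4855fe8bcbfa0b57f7382ff44c5fe3a6bfb8b97f692aff8d6) (.hit (nat_lit 403) (nat_lit 1) (nat_lit 0xbf5b417e34a2fdda25fbabcbf44b57ebb82fdd4c5fb5a6bf5cb97eb12afdf05) b59667 (.one (nat_lit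 67) (nat_lit 404) (nat_lit 2) (nat_lit 0xbfb7417eeca2fe4855fe8bcbfa0b57f7382ff44c5fe3a6bfb8b97f692aff8d6) b59668 (.nil))) (.tok (nat_lit 6) (nat_lit 0xbfe1157f404aff7005ffda6bfca897fc72affec15ff890bfe28d7fbcd30010a) (.hit (nat_lit 405) (nat_lit 7) (nat_lit 0xbf63557e44cafd9da5fbec6bf4cc97ecbaafdf515fb9b0bf64cd7ec152fddfa) b59669 (.hit (nat_lit 408) (nat_lit 15) (nat_lit 0xbf59157e304afdc7a5fb9a6bf42897eb72afdcc15fb490bf5a8d7eacd2fdf46) b59672 (.tok (nat_lit 55) (nat_lit 0xbfe1157f404aff7005ffda6bfca897fc72affec15ff890bfe28d7fbcd30010a) (.hit (nat_lit 406) (nat_lit 8) (nat_lit 0xbf9f397ebc92fe5e35fdcb8bf88ad7f4372fee4a5fd7a2bfa0b17f391aff1d8) b59670 (.hit (nat_lit 409) (nat_lit 16) (nat_lit 0xbfb8e97eeff2ff35c5fe990bfa25d7f76d2ff4b65fe47abfba617f6c7aff322) b59673 (.one (nat_lit 6) (nat_lit 407) (nat_lit 9) (nat_lit 0xbfe1157f404aff7005ffda6bfca897fc72affec15ff890bfe28d7fbcd30010a)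 b59671 (.nil)))) (.nil)))) (.nil)))) (.nil))))
noncomputable def r87_16 : Rw Blk := .tok (nat_lit 14) (nat_lit 0x2f00005e0000bf5efd7ebf62fe2eb) (.hit (nat_lit 140) (nat_lit 0) (nat_lit 0x2f00005e0000bf5efd7ebf62fe2eb) b59691 (.one (nat_lit 3) (nat_lit 141) (nat_lit 1) (nat_lit 0x2f00005e0000beb6d17d926afbd4c) b59692 (.tok (nat_lit 6) (nat_lit 0x2f00005e0000bf374d7e9362fdd6b) (.hit (nat_lit 142) (nat_lit 7) (nat_lit 0x2f00005e0000bf30d17e866afdbcc) b59693 (.hit (nat_lit 143) (nat_lit 15) (nat_lit 0x2f00005e0000bf374d7e9362fdd6b) b59694 (.nil))) (.tok (nat_lit 9) (nat_lit 0x2f00005e0000bf46dd7eb282fe14f) (.hit (nat_lit 144) (nat_lit 20) (nat_lit 0x2f00005e0000bf30d17e866afdbcc) b59693 (.hit (nat_lit 145) (nat_lit 28) (nat_lit 0x2f00005e0000bf46dd7eb282fe14f) b59695 (.nil))) (.nil))))) (.tok (nat_lit 17) (nat_lit 0x2f00005e0000bf60497ee822fe135) (.hit (nat_lit 134) (nat_lit 0) (nat_lit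 0x2f00005e0000bf60497ee822fe135) b59685 (.one (nat_lit 3) (nat_lit 135) (nat_lit 1) (nat_lit 0x2f00005e0000bea29d7d6a02fb83f) b59686 (.tok (nat_lit 6) (nat_lit 0x2f00005e0000bf2f217e830afdb60) (.hit (nat_lit 136) (nat_lit 7) (nat_lit 0x2f00005e0000bf0f457e4352fd369) b59687 (.hit (nat_lit 137) (nat_lit 15) (nat_lit 0x2f00005e0000bf2f217e830afdb60) b59688 (.nil))) (.tok (nat_lit 9) (nat_lit 0x2f00005e0000bf3b217e9b0afde60) (.hit (nat_lit 138) (nat_lit 20) (nat_lit 0x2f00005e0000bf1b1d7e5b02fd65f) b59689 (.hit (nat_lit 139) (nat_lit 28) (nat_lit 0x2f00005e0000bf3b217e9b0afde60) b59690 (.nil))) (.nil))))) (.tok (nat_lit 20) (nat_lit 0x2f00005e0000bf62117eab1afe062) (.hit (nat_lit 122) (nat_lit 0) (nat_lit 0x2f00005e0000bf62117ea8c2fdd66) b59674 (.one (nat_lit 3) (nat_lit 123) (nat_lit 1) (nat_lit 0x2f00005e0000bec4b57dae32fc0c5) b59675 (.tok (nat_lit 6) (nat_lit 0x2f00005e0000bf3ac97e9a5afde4a)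 (.hit (nat_lit 124) (nat_lit 7) (nat_lit 0x2f00005e0000bf1f4d7e6362fd76b) b59676 (.hit (nat_lit 125) (nat_lit 15) (nat_lit 0x2f00005e0000bf3ac97e9a5afde4a) b59677 (.nil))) (.tok (nat_lit 9) (nat_lit 0x2f00005e0000bf43297eab1afe062) (.hit (nat_lit 126) (nat_lit 20) (nat_lit 0x2f00005e0000bf22817e69cafd838) b59678 (.hit (nat_lit 127) (nat_lit 28) (nat_lit 0x2f00005e0000bf43297eab1afe062) b59679 (.nil))) (.nil))))) (.tok (nat_lit 23) (nat_lit 0x2f00005e0000bfcf017f8072fea42) (.hit (nat_lit 128) (nat_lit 0) (nat_lit 0x2f00005e0000bfcf017f8072fea42) b59680 (.one (nat_lit 3) (nat_lit 129) (nat_lit 1) (nat_lit 0x2f00005e0000bf98e17f185afdfe3) b59681 (.tok (nat_lit 6) (nat_lit 0x2f00005e0000bf9e497f3beafe997) (.hit (nat_lit 130) (nat_lit 7) (nat_lit 0x2f00005e0000bf9e497f3beafe997) b59682 (.hit (nat_lit 131) (nat_lit 15) (nat_lit 0x2f00005e0000bf878d7f1c0afe8a6) b59683 (.nil))) (.tok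 (nat_lit 9) (nat_lit 0x2f00005e0000bf8fe17f35cafe905) (.hit (nat_lit 132) (nat_lit 20) (nat_lit 0x2f00005e0000bf22817e69cafd838) b59678 (.hit (nat_lit 133) (nat_lit 28) (nat_lit 0x2f00005e0000bf8fe17f35cafe905) b59684 (.nil))) (.nil))))) (.tok (nat_lit 26) (nat_lit 0x2f00005e0000bfd2cd7f6bf2fef0a) (.hit (nat_lit 260) (nat_lit 0) (nat_lit 0x2f00005e0000bfd2cd7f6bf2fef0a) b59740 (.one (nat_lit 3) (nat_lit 261) (nat_lit 1) (nat_lit 0x2f00005e0000bea8e57d7692fb9d1) b59741 (.tok (nat_lit 6) (nat_lit 0x2f00005e0000bef0517e056afcbac) (.hit (nat_lit 262) (nat_lit 7) (nat_lit 0x2f00005e0000beee757e01b2fcb35) b59742 (.hit (nat_lit 263) (nat_lit 15) (nat_lit 0x2f00005e0000bef0517e056afcbac) b59743 (.nil))) (.tok (nat_lit 9) (nat_lit 0x2f00005e0000bf5f6d7ee3a2fe773) (.hit (nat_lit 264) (nat_lit 20) (nat_lit 0x2f00005e0000bf5f6d7ee3a2fe773) b59744 (.hit (nat_lit 265) (nat_lit 28) (nat_lit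 0x2f00005e0000bea24d7d6962fb82b) b59745 (.nil))) (.nil))))) (.tok (nat_lit 29) (nat_lit 0x2f00005e0000bf68597eded2fdf4f) (.hit (nat_lit 266) (nat_lit 0) (nat_lit 0x2f00005e0000bf68597eded2fdf4f) b59746 (.one (nat_lit 3) (nat_lit 267) (nat_lit 1) (nat_lit 0x2f00005e0000beb26d7d89a2fbc33) b59747 (.tok (nat_lit 6) (nat_lit 0x2f00005e0000bf3ca17e9e0afdec0) (.hit (nat_lit 268) (nat_lit 7) (nat_lit 0x2f00005e0000bf31e57e8892fdc11) b59748 (.hit (nat_lit 269) (nat_lit 15) (nat_lit 0x2f00005e0000bf3ca17e9e0afdec0) b59749 (.nil))) (.tok (nat_lit 9) (nat_lit 0x2f00005e0000bf237d7e6bc2fd877) (.hit (nat_lit 270) (nat_lit 20) (nat_lit 0x2f00005e0000bee5117deeeafc8dc) b59750 (.hit (nat_lit 271) (nat_lit 28) (nat_lit 0x2f00005e0000bf237d7e6bc2fd877) b59751 (.nil))) (.nil))))) (.tok (nat_lit 32) (nat_lit 0x2f00005e0000bfdca57fa172fec12) (.hit (nat_lit 272) (nat_lit 0) (nat_lit 0x2f00005e0000bfdca57fa172fec12)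 b59752 (.one (nat_lit 3) (nat_lit 273) (nat_lit 1) (nat_lit 0x2f00005e0000bee9117df6eafc9dc) b59753 (.tok (nat_lit 6) (nat_lit 0x2f00005e0000bf473d7eb342fe167) (.hit (nat_lit 274) (nat_lit 7) (nat_lit 0x2f00005e0000bf473d7eb342fe167) b59754 (.hit (nat_lit 275) (nat_lit 15) (nat_lit 0x2f00005e0000bf37d97e947afdd8e) b59755 (.nil))) (.tok (nat_lit 9) (nat_lit 0x2f00005e0000bf3f497ea35afdf6a) (.hit (nat_lit 276) (nat_lit 20) (nat_lit 0x2f00005e0000bf315d7e8782fdbef) b59756 (.hit (nat_lit 277) (nat_lit 28) (nat_lit 0x2f00005e0000bf3f497ea35afdf6a) b59757 (.nil))) (.nil))))) (.tok (nat_lit 35) (nat_lit 0x2f00005e0000bf9d1d7f4a52fe8c5) (.hit (nat_lit 278) (nat_lit 0) (nat_lit 0x2f00005e0000bf9d1d7f4a52fe8c5) b59758 (.one (nat_lit 3) (nat_lit 279) (nat_lit 1) (nat_lit 0x2f00005e0000bec4b57dae32fc0c5) b59675 (.tok (nat_lit 6) (nat_lit 0x2f00005e0000bee4997dedfafc8be) (.hit (nat_lit 280)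 (nat_lit 7) (nat_lit 0x2f00005e0000bee4997dedfafc8be) b59759 (.hit (nat_lit 281) (nat_lit 15) (nat_lit 0x2f00005e0000be9c157d5cf2fb69d) b59760 (.nil))) (.tok (nat_lit 9) (nat_lit 0x2f00005e0000bf21817e67cafd7f8) (.hit (nat_lit 282) (nat_lit 20) (nat_lit 0x2f00005e0000bf17ad7e5422fd583) b59700 (.hit (nat_lit 283) (nat_lit 28) (nat_lit 0x2f00005e0000bf21817e67cafd7f8) b59761 (.nil))) (.nil))))) (.tok (nat_lit 50) (nat_lit 0x2f00005e0000bf65997ee8fafe415) (.hit (nat_lit 146) (nat_lit 0) (nat_lit 0x2f00005e0000bf65997ee8fafd900) b59696 (.one (nat_lit 3) (nat_lit 147) (nat_lit 1) (nat_lit 0x2f00005e0000be88057d34d2fb199) b59697 (.tok (nat_lit 6) (nat_lit 0x2f00005e0000bf51f57ec8b2fe415) (.hit (nat_lit 148) (nat_lit 7) (nat_lit 0x2f00005e0000bf51f57ec8b2fe415) b59698 (.hit (nat_lit 149) (nat_lit 15) (nat_lit 0x2f00005e0000bea2217d690afb820) b59699 (.nil))) (.tok (nat_lit 9) (nat_lit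 0x2f00005e0000bf17ad7e5422fd583) (.hit (nat_lit 150) (nat_lit 20) (nat_lit 0x2f00005e0000bf17ad7e5422fd583) b59700 (.hit (nat_lit 151) (nat_lit 28) (nat_lit 0x2f00005e0000bee4d57dee72fc8cd) b59701 (.nil))) (.nil))))) (.tok (nat_lit 53) (nat_lit 0x2f00005e0000c0000180644b00000) (.hit (nat_lit 152) (nat_lit 0) (nat_lit 0x2f00005e0000bfcb417f9d32fea88) b59702 (.one (nat_lit 3) (nat_lit 153) (nat_lit 1) (nat_lit 0x2f00005e0000bfe6a97f77c2fea62) b59703 (.tok (nat_lit 6) (nat_lit 0x2f00005e0000bff28580644b00000) (.hit (nat_lit 154) (nat_lit 7) (nat_lit 0x2f00005e0000bff28580644b00000) b59704 (.hit (nat_lit 155) (nat_lit 15) (nat_lit 0x2f00005e0000bfcbe57fb1bafef52) b59705 (.nil))) (.tok (nat_lit 9) (nat_lit 0x2f00005e0000c000017fefcaff79f) (.hit (nat_lit 156) (nat_lit 20) (nat_lit 0x2f00005e0000bf43557eab72fe06d) b59706 (.hit (nat_lit 157) (nat_lit 28) (nat_lit 0x2f00005e0000c000017fefcaff79f)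 b59707 (.nil))) (.nil))))) (.tok (nat_lit 56) (nat_lit 0x2f00005e0000bf7c817ee152fe03c) (.hit (nat_lit 164) (nat_lit 0) (nat_lit 0x2f00005e0000bf7c817ee152fe03c) b59714 (.one (nat_lit 3) (nat_lit 165) (nat_lit 1) (nat_lit 0x2f00005e0000bec4b57dae32fc0c5) b59675 (.tok (nat_lit 6) (nat_lit 0x2f00005e0000bf09017e36cafd1d8) (.hit (nat_lit 166) (nat_lit 7) (nat_lit 0x2f00005e0000bf09017e36cafd1d8) b59715 (.hit (nat_lit 167) (nat_lit 15) (nat_lit 0x2f00005e0000beca6d7db9a2fc233) b59716 (.nil))) (.tok (nat_lit 9) (nat_lit 0x2f00005e0000bf26957e71f2fd93d) (.hit (nat_lit 168) (nat_lit 20) (nat_lit 0x2f00005e0000bf19717e57aafd5f4) b59717 (.hit (nat_lit 169) (nat_lit 28) (nat_lit 0x2f00005e0000bf26957e71f2fd93d) b59718 (.nil))) (.nil))))) (.tok (nat_lit 59) (nat_lit 0x2f00005e0000bfa64d7f948afe596) (.hit (nat_lit 158) (nat_lit 0) (nat_lit 0x2f00005e0000bfa64d7f948afe596) b59708 (.one (nat_lit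 3) (nat_lit 159) (nat_lit 1) (nat_lit 0x2f00005e0000be99317d572afb5e4) b59709 (.tok (nat_lit 6) (nat_lit 0x2f00005e0000bf1bd57e5c72fd68d) (.hit (nat_lit 160) (nat_lit 7) (nat_lit 0x2f00005e0000bf117d7e47c2fd3f7) b59710 (.hit (nat_lit 161) (nat_lit 15) (nat_lit 0x2f00005e0000bf1bd57e5c72fd68d) b59711 (.nil))) (.tok (nat_lit 9) (nat_lit 0x2f00005e0000bf20717e65aafd7b4) (.hit (nat_lit 162) (nat_lit 20) (nat_lit 0x2f00005e0000bf20717e65aafd7b4) b59712 (.hit (nat_lit 163) (nat_lit 28) (nat_lit 0x2f00005e0000bee9c97df85afca0a) b59713 (.nil))) (.nil))))) (.tok (nat_lit 62) (nat_lit 0x2f00005e0000bf60dd7f0b2afea5b) (.hit (nat_lit 170) (nat_lit 0) (nat_lit 0x2f00005e0000bf60dd7f0b2afea5b) b59719 (.one (nat_lit 3) (nat_lit 171) (nat_lit 1) (nat_lit 0x2f00005e0000bec5c17db04afc108) b59720 (.tok (nat_lit 6) (nat_lit 0x2f00005e0000bee5a57df012fc901) (.hit (nat_lit 172) (nat_lit 7) (nat_lit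 0x2f00005e0000bee5a57df012fc901) b59721 (.hit (nat_lit 173) (nat_lit 15) (nat_lit 0x2f00005e0000bed9757dd7b2fc5f5) b59722 (.nil))) (.tok (nat_lit 9) (nat_lit 0x2f00005e0000bf32697e899afdc32) (.hit (nat_lit 174) (nat_lit 20) (nat_lit 0x2f00005e0000bf32697e899afdc32) b59723 (.hit (nat_lit 175) (nat_lit 28) (nat_lit 0x2f00005e0000bee6f17df2aafc954) b59724 (.nil))) (.nil))))) (.tok (nat_lit 65) (nat_lit 0x2f00005e0000bfa5997f70d2ff628) (.hit (nat_lit 181) (nat_lit 0) (nat_lit 0x2f00005e0000bfa3d97f5b2aff3a2) b59725 (.one (nat_lit 3) (nat_lit 182) (nat_lit 1) (nat_lit 0x2f00005e0000bf88d97f59daff440) b59726 (.tok (nat_lit 6) (nat_lit 0x2f00005e0000bf8bed7f6092ff51d) (.hit (nat_lit 183) (nat_lit 7) (nat_lit 0x2f00005e0000bf00517e256afcfac) b59727 (.hit (nat_lit 184) (nat_lit 15) (nat_lit 0x2f00005e0000bf8bed7f6092ff51d) b59728 (.nil))) (.tok (nat_lit 9) (nat_lit 0x2f00005e0000bfa5997f70d2ff628)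 (.hit (nat_lit 185) (nat_lit 20) (nat_lit 0x2f00005e0000bfa5997f70d2ff628) b59729 (.hit (nat_lit 186) (nat_lit 28) (nat_lit 0x2f00005e0000bf82397f6afaff42b) b59730 (.nil))) (.nil))))) (.tok (nat_lit 68) (nat_lit 0x2f00005e0000bf626d7ee47afe9c4) (.hit (nat_lit 209) (nat_lit 0) (nat_lit 0x2f00005e0000bf626d7ee47afe9c4) b59737 (.one (nat_lit 3) (nat_lit 210) (nat_lit 1) (nat_lit 0x2f00005e0000bec4b57dae32fc0c5) b59675 (.tok (nat_lit 6) (nat_lit 0x2f00005e0000bf41fd7ea8c2fe017) (.hit (nat_lit 211) (nat_lit 7) (nat_lit 0x2f00005e0000bf0a0d7e38e2fd21b) b59738 (.hit (nat_lit 212) (nat_lit 15) (nat_lit 0x2f00005e0000bf41fd7ea8c2fe017) b59739 (.nil))) (.tok (nat_lit 9) (nat_lit 0x2f00005e0000bf30d17e866afdbcc) (.hit (nat_lit 213) (nat_lit 20) (nat_lit 0x2f00005e0000bf30d17e866afdbcc) b59693 (.hit (nat_lit 214) (nat_lit 28) (nat_lit 0x2f00005e0000beca6d7db9a2fc233) b59716 (.nil))) (.nil)))))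 (.tok (nat_lit 71) (nat_lit 0x2f00005e0000bf7c097f8ba2ffadb) (.hit (nat_lit 195) (nat_lit 0) (nat_lit 0x2f00005e0000bf7c097f8ba2ffadb) b59731 (.one (nat_lit 3) (nat_lit 196) (nat_lit 1) (nat_lit 0x2f00005e0000bf0b697e3b9afd272) b59732 (.tok (nat_lit 6) (nat_lit 0x2f00005e0000bf57857ed3d2fe579) (.hit (nat_lit 197) (nat_lit 7) (nat_lit 0x2f00005e0000bf312d7e8722fdbe3) b59733 (.hit (nat_lit 198) (nat_lit 15) (nat_lit 0x2f00005e0000bf57857ed3d2fe579) b59734 (.nil))) (.tok (nat_lit 9) (nat_lit 0x2f00005e0000bf3f597ea37afdf6e) (.hit (nat_lit 199) (nat_lit 20) (nat_lit 0x2f00005e0000bf3f597ea37afdf6e) b59735 (.hit (nat_lit 200) (nat_lit 28) (nat_lit 0x2f00005e0000bf3e6d7ea1a2fdf33) b59736 (.nil))) (.nil))))) (.nil))))))))))))))))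
noncomputable def r87_17 : Rw Blk := .tok (nat_lit 3) (nat_lit 0x2f00005e0000bf945d7f5f0afea01) (.hit (nat_lit 18) (nat_lit 0) (nat_lit 0x2f00005e0000bf93917f2fb2fe67a) b59778 (.tok (nat_lit 6) (nat_lit 0x2f00005e0000bf945d7f5f0afea01) (.hit (nat_lit 19) (nat_lit 7) (nat_lit 0x2f00005e0000bf945d7f5f0afea01) b59779 (.hit (nat_lit 20) (nat_lit 15) (nat_lit 0x2f00005e0000bf53cd7efb42fdab7) b59780 (.nil))) (.tok (nat_lit 9) (nat_lit 0x2f00005e0000bf6d617f325afdda9) (.hit (nat_lit 21) (nat_lit 20) (nat_lit 0x2f00005e0000bf03bd7e658afca25) b59781 (.hit (nat_lit 22) (nat_lit 28) (nat_lit 0x2f00005e0000bf6d617f325afdda9) b59782 (.nil))) (.nil)))) (.tok (nat_lit 6) (nat_lit 0x2f00005e0000c0a19981d2eb036e6) (.hit (nat_lit 9) (nat_lit 0) (nat_lit 0x2f00005e0000bf8e118006daff627) b59770 (.one (nat_lit 3) (nat_lit 10) (nat_lit 1) (nat_lit 0x2f00005e0000bf7ea17fa4cafefcc) b59771 (.tok (nat_lit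 6) (nat_lit 0x2f00005e0000c0a19981d2eb036e6) (.hit (nat_lit 12) (nat_lit 7) (nat_lit 0x2f00005e0000c00d3d80f66b016a4) b59772 (.hit (nat_lit 16) (nat_lit 15) (nat_lit 0x2f00005e0000bfb5798056c2ff7bc) b59776 (.tok (nat_lit 55) (nat_lit 0x2f00005e0000c0a19981d2eb036e6) (.hit (nat_lit 13) (nat_lit 8) (nat_lit 0x2f00005e0000c05d858163cb02c97) b59773 (.hit (nat_lit 17) (nat_lit 16) (nat_lit 0x2f00005e0000c0a19981d2eb036e6) b59777 (.tok (nat_lit 6) (nat_lit 0x2f00005e0000c034e58107db01d5d) (.hit (nat_lit 14) (nat_lit 9) (nat_lit 0x2f00005e0000c034e58107db018f6) b59774 (.one (nat_lit 55) (nat_lit 15) (nat_lit 10) (nat_lit 0x2f00005e0000c023dd80d92b01d5d) b59775 (.nil))) (.nil)))) (.nil)))) (.nil)))) (.tok (nat_lit 9) (nat_lit 0x2f00005e0000bfb86d7fd372ff7e2) (.hit (nat_lit 0) (nat_lit 0) (nat_lit 0x2f00005e0000bf7d597f541afe728) b59762 (.one (nat_lit 3) (nat_lit 1) (nat_lit 1) (nat_lit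 0x2f00005e0000bf13697e7222fccac) b59763 (.tok (nat_lit 9) (nat_lit 0x2f00005e0000bfb86d7fd372ff7e2) (.hit (nat_lit 3) (nat_lit 20) (nat_lit 0x2f00005e0000bf12cd7e8832fce7a) b59764 (.hit (nat_lit 7) (nat_lit 28) (nat_lit 0x2f00005e0000bf18197e4772fcdd8) b59768 (.tok (nat_lit 67) (nat_lit 0x2f00005e0000bfb86d7fd372ff7e2) (.hit (nat_lit 4) (nat_lit 21) (nat_lit 0x2f00005e0000bf7efd7f6092fe986) b59765 (.hit (nat_lit 8) (nat_lit 29) (nat_lit 0x2f00005e0000bfb7297fd0eaff791) b59769 (.tok (nat_lit 9) (nat_lit 0x2f00005e0000bfb86d7fd372ff7e2) (.hit (nat_lit 5) (nat_lit 22) (nat_lit 0x2f00005e0000bf91417f851afee17) b59766 (.one (nat_lit 67) (nat_lit 6) (nat_lit 23) (nat_lit 0x2f00005e0000bfb86d7fd372ff7e2) b59767 (.nil))) (.nil)))) (.nil)))) (.nil)))) (.nil)))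
noncomputable def r87_18 : Rw Blk := .tok (nat_lit 3) (nat_lit 0x2f00005e0000bf6fed7f8e6afee3d) (.hit (nat_lit 0) (nat_lit 0) (nat_lit 0x2f00005e0000bf6fed7f47aafe565) b59783 (.tok (nat_lit 9) (nat_lit 0x2f00005e0000bf5f317f8e6afee3d) (.hit (nat_lit 1) (nat_lit 20) (nat_lit 0x2f00005e0000beffa57ecf52fd65a) b59784 (.hit (nat_lit 4) (nat_lit 28) (nat_lit 0x2f00005e0000bef6d97ebdbafd427) b59787 (.one (nat_lit 56) (nat_lit 5) (nat_lit 31) (nat_lit 0x2f00005e0000bf3b217f464afe539) b59788 (.tok (nat_lit 68) (nat_lit 0x2f00005e0000bf5f317f8e6afee3d) (.hit (nat_lit 2) (nat_lit 26) (nat_lit 0x2f00005e0000bf49457f6292fe8c2) b59785 (.hit (nat_lit 6) (nat_lit 32) (nat_lit 0x2f00005e0000bf3c557f48b2fe586) b59789 (.one (nat_lit 9) (nat_lit 3) (nat_lit 27) (nat_lit 0x2f00005e0000bf5f317f8e6afee3d) b59786 (.nil)))) (.nil))))) (.nil))) (.tok (nat_lit 6) (nat_lit 0x2f00005e0000c080c181596302c04)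 (.hit (nat_lit 17) (nat_lit 0) (nat_lit 0x2f00005e0000bff31d8079ab001c3) b59790 (.tok (nat_lit 6) (nat_lit 0x2f00005e0000c0108181596302963) (.hit (nat_lit 18) (nat_lit 7) (nat_lit 0x2f00005e0000bfd6f580604300853) b59791 (.hit (nat_lit 21) (nat_lit 15) (nat_lit 0x2f00005e0000bf4ae97f2742fd703) b59794 (.tok (nat_lit 56) (nat_lit 0x2f00005e0000c0108181596302963) (.hit (nat_lit 19) (nat_lit 13) (nat_lit 0x2f00005e0000bfae9980404b00920) b59792 (.hit (nat_lit 23) (nat_lit 19) (nat_lit 0x2f00005e0000bf73d97f6022fe3ee) b59795 (.one (nat_lit 6) (nat_lit 20) (nat_lit 14) (nat_lit 0x2f00005e0000c0108181596302963) b59793 (.nil)))) (.nil)))) (.tok (nat_lit 52) (nat_lit 0x2f00005e0000c06fe580b473009ed) (.hit (nat_lit 24) (nat_lit 39) (nat_lit 0x2f00005e0000c0006580acd3009ed) b59796 (.hit (nat_lit 25) (nat_lit 40) (nat_lit 0x2f00005e0000c06fe580b4730075b) b59797 (.nil))) (.tok (nat_lit 55) (nat_lit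 0x2f00005e0000c080c18132bb02c04) (.hit (nat_lit 26) (nat_lit 41) (nat_lit 0x2f00005e0000c080c18132bb02c04) b59798 (.one (nat_lit 3) (nat_lit 32) (nat_lit 47) (nat_lit 0x2f00005e0000c028e980ce6b01705) b59804 (.tok (nat_lit 6) (nat_lit 0x2f00005e0000c06b698126bb0244a) (.hit (nat_lit 27) (nat_lit 42) (nat_lit 0x2f00005e0000bfc4457ff81300303) b59799 (.hit (nat_lit 30) (nat_lit 45) (nat_lit 0x2f00005e0000c032e980e1db01250) b59802 (.tok (nat_lit 55) (nat_lit 0x2f00005e0000c06b698126bb0244a) (.hit (nat_lit 28) (nat_lit 43) (nat_lit 0x2f00005e0000c06b698103a30244a) b59800 (.hit (nat_lit 31) (nat_lit 46) (nat_lit 0x2f00005e0000c004d18054e300b1f) b59803 (.one (nat_lit 6) (nat_lit 29) (nat_lit 44) (nat_lit 0x2f00005e0000c055d58126bb01bf3) b59801 (.nil)))) (.nil)))) (.nil)))) (.one (nat_lit 58) (nat_lit 33) (nat_lit 49) (nat_lit 0x2f00005e0000c0322580e01b01024) b59805 (.nil)))))) (.nil))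
noncomputable def r87_19 : Rw Blk := .tok (nat_lit 3) (nat_lit 0x2f00005e0000bfa84d7f2172feb2c) (.hit (nat_lit 14) (nat_lit 0) (nat_lit 0x2f00005e0000bf9d957f2172feb2c) b59818 (.tok (nat_lit 6) (nat_lit 0x2f00005e0000bf5dc17e1002fd3e5) (.hit (nat_lit 15) (nat_lit 7) (nat_lit 0x2f00005e0000bf08c17dd252fba03) b59819 (.hit (nat_lit 16) (nat_lit 15) (nat_lit 0x2f00005e0000bf5dc17e1002fd3e5) b59820 (.nil))) (.tok (nat_lit 9) (nat_lit 0x2f00005e0000bfa84d7ec47afea41) (.hit (nat_lit 17) (nat_lit 20) (nat_lit 0x2f00005e0000bfa84d7ec47afea41) b59821 (.hit (nat_lit 18) (nat_lit 28) (nat_lit 0x2f00005e0000bf66797e9962fe643) b59822 (.nil))) (.nil)))) (.tok (nat_lit 6) (nat_lit 0x2f00005e0000c000017f9bdaff527) (.hit (nat_lit 0) (nat_lit 0) (nat_lit 0x2f00005e0000bfbdf57f93f2ff452) b59806 (.one (nat_lit 3) (nat_lit 1) (nat_lit 1) (nat_lit 0x2f00005e0000bf36b97e447afc848) b59807 (.tok (nat_lit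 6) (nat_lit 0x2f00005e0000c000017f9bdaff527) (.hit (nat_lit 3) (nat_lit 7) (nat_lit 0x2f00005e0000bf75a97e02f2fd291) b59808 (.hit (nat_lit 7) (nat_lit 15) (nat_lit 0x2f00005e0000bf66857e68aafcec8) b59812 (.tok (nat_lit 55) (nat_lit 0x2f00005e0000c000017f9bdaff527) (.hit (nat_lit 4) (nat_lit 8) (nat_lit 0x2f00005e0000bfb4517e967afe23b) b59809 (.hit (nat_lit 8) (nat_lit 16) (nat_lit 0x2f00005e0000bfe7917f3af2fef0b) b59813 (.tok (nat_lit 6) (nat_lit 0x2f00005e0000c000017f9bdaff527) (.hit (nat_lit 5) (nat_lit 9) (nat_lit 0x2f00005e0000bfb5ed7eb472fe2a2) b59810 (.one (nat_lit 55) (nat_lit 6) (nat_lit 10) (nat_lit 0x2f00005e0000c000017f9bdaff527) b59811 (.nil))) (.nil)))) (.nil)))) (.nil)))) (.tok (nat_lit 9) (nat_lit 0x2f00005e0000bfe12180000300000) (.hit (nat_lit 9) (nat_lit 0) (nat_lit 0x2f00005e0000bfe12180000300000) b59814 (.one (nat_lit 3) (nat_lit 10) (nat_lit 1) (nat_lit 0x2f00005e0000bfccdd7f8adaff176)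 b59815 (.tok (nat_lit 9) (nat_lit 0x2f00005e0000bfa91d7f6f3afee4a) (.hit (nat_lit 12) (nat_lit 20) (nat_lit 0x2f00005e0000bfa49d7f6f3afee4a) b59816 (.hit (nat_lit 13) (nat_lit 28) (nat_lit 0x2f00005e0000bfa91d7f3d92fe881) b59817 (.nil))) (.nil)))) (.nil)))
noncomputable def r87_20 : Rw Blk := .tok (nat_lit 3) (nat_lit 0x5e0000bc00017f26bafef52) (.hit (nat_lit 0) (nat_lit 0) (nat_lit 0x5e0000bc00017ed67afeea4) b59823 (.tok (nat_lit 6) (nat_lit 0x5e0000bc00017f26bafef52) (.hit (nat_lit 1) (nat_lit 7) (nat_lit 0x5e0000bc00017e4f32fd461) b59824 (.hit (nat_lit 6) (nat_lit 15) (nat_lit 0x5e0000bc00017ddb6afc5e8) b59829 (.tok (nat_lit 14) (nat_lit 0x5e0000bc00017eb992fe1ad) (.hit (nat_lit 2) (nat_lit 11) (nat_lit 0x5e0000bc00017e87fafdb7a) b59825 (.hit (nat_lit 7) (nat_lit 17) (nat_lit 0x5e0000bc00017e8fe2fdc77) b59830 (.one (nat_lit 9) (nat_lit 3) (nat_lit 12) (nat_lit 0x5e0000bc00017eb992fe1ad)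 b59826 (.nil)))) (.tok (nat_lit 56) (nat_lit 0x5e0000bc00017f26bafef52) (.hit (nat_lit 4) (nat_lit 13) (nat_lit 0x5e0000bc00017ee75afe766) b59827 (.hit (nat_lit 8) (nat_lit 19) (nat_lit 0x5e0000bc00017e73a2fd8ef) b59831 (.one (nat_lit 6) (nat_lit 5) (nat_lit 14) (nat_lit 0x5e0000bc00017f26bafef52) b59828 (.nil)))) (.nil))))) (.nil))) (.tok (nat_lit 9) (nat_lit 0x5e0000bc000181371b036e4) (.hit (nat_lit 20) (nat_lit 0) (nat_lit 0x5e0000bc00017ed7aaff6e0) b59832 (.tok (nat_lit 9) (nat_lit 0x5e0000bc000181371b036e4) (.hit (nat_lit 21) (nat_lit 20) (nat_lit 0x5e0000bc00017ed7e2ff075) b59833 (.hit (nat_lit 26) (nat_lit 28) (nat_lit 0x5e0000bc00017de822fdfb2) b59838 (.tok (nat_lit 14) (nat_lit 0x5e0000bc000181371b036e4) (.hit (nat_lit 22) (nat_lit 24) (nat_lit 0x5e0000bc000181371b036e4) b59834 (.hit (nat_lit 27) (nat_lit 30) (nat_lit 0x5e0000bc00017ee43300147) b59839 (.one (nat_lit 6)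 (nat_lit 23) (nat_lit 25) (nat_lit 0x5e0000bc00018106fb03362) b59835 (.nil)))) (.tok (nat_lit 68) (nat_lit 0x5e0000bc00017fdf6b006a1) (.hit (nat_lit 24) (nat_lit 26) (nat_lit 0x5e0000bc00017fdf6b006a1) b59836 (.hit (nat_lit 29) (nat_lit 32) (nat_lit 0x5e0000bc00017ed8d2ff60a) b59840 (.one (nat_lit 9) (nat_lit 25) (nat_lit 27) (nat_lit 0x5e0000bc00017f0fc2ffffc) b59837 (.nil)))) (.nil))))) (.nil))) (.nil))
noncomputable def r87_21 : Rw Blk := .tok (nat_lit 14) (nat_lit 0x5e0000bc00017f64aafecf2) (.hit (nat_lit 140) (nat_lit 0) (nat_lit 0x5e0000bc00017f0da2fdc75) b59859 (.one (nat_lit 3) (nat_lit 141) (nat_lit 1) (nat_lit 0x5e0000bc00017d9d0afb3fe) b59860 (.tok (nat_lit 6) (nat_lit 0x5e0000bc00017efbfafdfdc) (.hit (nat_lit 142) (nat_lit 7) (nat_lit 0x5e0000bc00017ec0a2fd871) b59861 (.hit (nat_lit 143) (nat_lit 15) (nat_lit 0x5e0000bc00017efbfafdfdc) b59862 (.nil))) (.tok (nat_lit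 9) (nat_lit 0x5e0000bc00017f64aafecf2) (.hit (nat_lit 144) (nat_lit 20) (nat_lit 0x5e0000bc00017f0ea2fe231) b59863 (.hit (nat_lit 145) (nat_lit 28) (nat_lit 0x5e0000bc00017f64aafecf2) b59864 (.nil))) (.nil))))) (.tok (nat_lit 17) (nat_lit 0x5e0000bc00017f9122ff256) (.hit (nat_lit 134) (nat_lit 0) (nat_lit 0x5e0000bc00017f9122fdaf4) b59853 (.one (nat_lit 3) (nat_lit 135) (nat_lit 1) (nat_lit 0x5e0000bc00017e1862fc369) b59854 (.tok (nat_lit 6) (nat_lit 0x5e0000bc00017f8fcaff256) (.hit (nat_lit 136) (nat_lit 7) (nat_lit 0x5e0000bc00017e9fb2fd453) b59855 (.hit (nat_lit 137) (nat_lit 15) (nat_lit 0x5e0000bc00017f8fcaff256) b59856 (.nil))) (.tok (nat_lit 9) (nat_lit 0x5e0000bc00017f3822fe761) (.hit (nat_lit 138) (nat_lit 20) (nat_lit 0x5e0000bc00017f1f42fe445) b59857 (.hit (nat_lit 139) (nat_lit 28) (nat_lit 0x5e0000bc00017f3822fe761) b59858 (.nil))) (.nil))))) (.tok (nat_lit 20) (nat_lit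 0x5e0000bc00017feec2ff30f) (.hit (nat_lit 122) (nat_lit 0) (nat_lit 0x5e0000bc00017fc36afea83) b59841 (.one (nat_lit 3) (nat_lit 123) (nat_lit 1) (nat_lit 0x5e0000bc00017f4402fdfdb) b59842 (.tok (nat_lit 6) (nat_lit 0x5e0000bc00017feec2fe888) (.hit (nat_lit 124) (nat_lit 7) (nat_lit 0x5e0000bc00017eeb8afddce) b59843 (.hit (nat_lit 125) (nat_lit 15) (nat_lit 0x5e0000bc00017feec2fe888) b59844 (.nil))) (.tok (nat_lit 9) (nat_lit 0x5e0000bc00017fd7a2ff30f) (.hit (nat_lit 126) (nat_lit 20) (nat_lit 0x5e0000bc00017fca7afe90e) b59845 (.hit (nat_lit 127) (nat_lit 28) (nat_lit 0x5e0000bc00017fd7a2ff30f) b59846 (.nil))) (.nil))))) (.tok (nat_lit 23) (nat_lit 0x5e0000bc00017fdd0aff30f) (.hit (nat_lit 128) (nat_lit 0) (nat_lit 0x5e0000bc00017fbf4afed2d) b59847 (.one (nat_lit 3) (nat_lit 129) (nat_lit 1) (nat_lit 0x5e0000bc00017f841afe17a) b59848 (.tok (nat_lit 6) (nat_lit 0x5e0000bc00017fac62ff268)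 (.hit (nat_lit 130) (nat_lit 7) (nat_lit 0x5e0000bc00017fa422feb6a) b59849 (.hit (nat_lit 131) (nat_lit 15) (nat_lit 0x5e0000bc00017fac62ff268) b59850 (.nil))) (.tok (nat_lit 9) (nat_lit 0x5e0000bc00017fdd0aff30f) (.hit (nat_lit 132) (nat_lit 20) (nat_lit 0x5e0000bc00017f108afe26e) b59851 (.hit (nat_lit 133) (nat_lit 28) (nat_lit 0x5e0000bc00017fdd0aff30f) b59852 (.nil))) (.nil))))) (.tok (nat_lit 26) (nat_lit 0x5e0000bc0001800002fe80c) (.hit (nat_lit 260) (nat_lit 0) (nat_lit 0x5e0000bc0001800002fe382) b59908 (.one (nat_lit 3) (nat_lit 261) (nat_lit 1) (nat_lit 0x5e0000bc00017e5b92fcbcf) b59909 (.tok (nat_lit 6) (nat_lit 0x5e0000bc00017f24fafe4fc) (.hit (nat_lit 262) (nat_lit 7) (nat_lit 0x5e0000bc00017f24fafe4fc) b59910 (.hit (nat_lit 263) (nat_lit 15) (nat_lit 0x5e0000bc00017eb252fd6a7) b59911 (.nil))) (.tok (nat_lit 9) (nat_lit 0x5e0000bc00017f3d7afe80c) (.hit (nat_lit 264)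 (nat_lit 20) (nat_lit 0x5e0000bc00017e88f2fd17b) b59912 (.hit (nat_lit 265) (nat_lit 28) (nat_lit 0x5e0000bc00017f3d7afe80c) b59913 (.nil))) (.nil))))) (.tok (nat_lit 29) (nat_lit 0x5e0000bc00017f5cdafeb98) (.hit (nat_lit 266) (nat_lit 0) (nat_lit 0x5e0000bc00017f5cdafe825) b59914 (.one (nat_lit 3) (nat_lit 267) (nat_lit 1) (nat_lit 0x5e0000bc00017e42a2fc8b1) b59915 (.tok (nat_lit 6) (nat_lit 0x5e0000bc00017f59dafeb98) (.hit (nat_lit 268) (nat_lit 7) (nat_lit 0x5e0000bc00017f11a2fe291) b59916 (.hit (nat_lit 269) (nat_lit 15) (nat_lit 0x5e0000bc00017f59dafeb98) b59917 (.nil))) (.tok (nat_lit 9) (nat_lit 0x5e0000bc00017f507afea6c) (.hit (nat_lit 270) (nat_lit 20) (nat_lit 0x5e0000bc00017edd22fdc01) b59918 (.hit (nat_lit 271) (nat_lit 28) (nat_lit 0x5e0000bc00017f507afea6c) b59919 (.nil))) (.nil))))) (.tok (nat_lit 32) (nat_lit 0x5e0000bc00017f9a4afeb8d) (.hit (nat_lit 272) (nat_lit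 0) (nat_lit 0x5e0000bc00017f9a4afd8be) b59920 (.one (nat_lit 3) (nat_lit 273) (nat_lit 1) (nat_lit 0x5e0000bc00017e366afc72a) b59878 (.tok (nat_lit 6) (nat_lit 0x5e0000bc00017f5982feb8d) (.hit (nat_lit 274) (nat_lit 7) (nat_lit 0x5e0000bc00017e889afd170) b59921 (.hit (nat_lit 275) (nat_lit 15) (nat_lit 0x5e0000bc00017f5982feb8d) b59922 (.nil))) (.tok (nat_lit 9) (nat_lit 0x5e0000bc00017f1022fe261) (.hit (nat_lit 276) (nat_lit 20) (nat_lit 0x5e0000bc00017f1022fe261) b59923 (.hit (nat_lit 277) (nat_lit 28) (nat_lit 0x5e0000bc00017e57fafcb5c) b59924 (.nil))) (.nil))))) (.tok (nat_lit 35) (nat_lit 0x5e0000bc00017f7e42ff025) (.hit (nat_lit 278) (nat_lit 0) (nat_lit 0x5e0000bc00017f7e42ff025) b59925 (.one (nat_lit 3) (nat_lit 279) (nat_lit 1) (nat_lit 0x5e0000bc00017e366afc72a) b59878 (.tok (nat_lit 6) (nat_lit 0x5e0000bc00017ef52afdf02) (.hit (nat_lit 280) (nat_lit 7) (nat_lit 0x5e0000bc00017ef52afdf02)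 b59926 (.hit (nat_lit 281) (nat_lit 15) (nat_lit 0x5e0000bc00017e4bbafc9d4) b59927 (.nil))) (.tok (nat_lit 9) (nat_lit 0x5e0000bc00017f48e2fe979) (.hit (nat_lit 282) (nat_lit 20) (nat_lit 0x5e0000bc00017f0e02fe21d) b59928 (.hit (nat_lit 283) (nat_lit 28) (nat_lit 0x5e0000bc00017f48e2fe979) b59929 (.nil))) (.nil))))) (.tok (nat_lit 50) (nat_lit 0x5e0000bc00017f6f8afdd76) (.hit (nat_lit 146) (nat_lit 0) (nat_lit 0x5e0000bc00017f6f8afd8fc) b59865 (.one (nat_lit 3) (nat_lit 147) (nat_lit 1) (nat_lit 0x5e0000bc00017e390afc77e) b59866 (.tok (nat_lit 6) (nat_lit 0x5e0000bc00017ee8cafdd76) (.hit (nat_lit 148) (nat_lit 7) (nat_lit 0x5e0000bc00017ee8cafdd76) b59867 (.hit (nat_lit 149) (nat_lit 15) (nat_lit 0x5e0000bc00017e7962fcf89) b59868 (.nil))) (.tok (nat_lit 9) (nat_lit 0x5e0000bc00017e87b2fd153) (.hit (nat_lit 150) (nat_lit 20) (nat_lit 0x5e0000bc00017e87b2fd153) b59869 (.hit (nat_lit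 151) (nat_lit 28) (nat_lit 0x5e0000bc00017e67d2fcd57) b59870 (.nil))) (.nil))))) (.tok (nat_lit 53) (nat_lit 0x5e0000bc00017fcbd2ff13a) (.hit (nat_lit 152) (nat_lit 0) (nat_lit 0x5e0000bc00017fa9c2fe09b) b59871 (.one (nat_lit 3) (nat_lit 153) (nat_lit 1) (nat_lit 0x5e0000bc00017f7b32fd36d) b59872 (.tok (nat_lit 6) (nat_lit 0x5e0000bc00017fcbd2ff13a) (.hit (nat_lit 154) (nat_lit 7) (nat_lit 0x5e0000bc00017fcbd2fe64e) b59873 (.hit (nat_lit 155) (nat_lit 15) (nat_lit 0x5e0000bc00017fbfa2ff13a) b59874 (.nil))) (.tok (nat_lit 9) (nat_lit 0x5e0000bc00017fadfafe96b) (.hit (nat_lit 156) (nat_lit 20) (nat_lit 0x5e0000bc00017f4872fe96b) b59875 (.hit (nat_lit 157) (nat_lit 28) (nat_lit 0x5e0000bc00017fadfafdfdc) b59876 (.nil))) (.nil))))) (.tok (nat_lit 56) (nat_lit 0x5e0000bc00017f57bafeb54) (.hit (nat_lit 164) (nat_lit 0) (nat_lit 0x5e0000bc00017f41c2fe334) b59883 (.one (nat_lit 3) (nat_lit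 165) (nat_lit 1) (nat_lit 0x5e0000bc00017e366afc72a) b59878 (.tok (nat_lit 6) (nat_lit 0x5e0000bc00017ef312fdebf) (.hit (nat_lit 166) (nat_lit 7) (nat_lit 0x5e0000bc00017ef312fdebf) b59884 (.hit (nat_lit 167) (nat_lit 15) (nat_lit 0x5e0000bc00017e41dafc898) b59885 (.nil))) (.tok (nat_lit 9) (nat_lit 0x5e0000bc00017f57bafeb54) (.hit (nat_lit 168) (nat_lit 20) (nat_lit 0x5e0000bc00017f10bafe274) b59886 (.hit (nat_lit 169) (nat_lit 28) (nat_lit 0x5e0000bc00017f57bafeb54) b59887 (.nil))) (.nil))))) (.tok (nat_lit 59) (nat_lit 0x5e0000bc00017f9c02fe075) (.hit (nat_lit 158) (nat_lit 0) (nat_lit 0x5e0000bc00017f9c02fe069) b59877 (.one (nat_lit 3) (nat_lit 159) (nat_lit 1) (nat_lit 0x5e0000bc00017e366afc72a) b59878 (.tok (nat_lit 6) (nat_lit 0x5e0000bc00017f00c2fe075) (.hit (nat_lit 160) (nat_lit 7) (nat_lit 0x5e0000bc00017edb22fdbc1) b59879 (.hit (nat_lit 161) (nat_lit 15) (nat_lit 0x5e0000bc00017f00c2fe075)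 b59880 (.nil))) (.tok (nat_lit 9) (nat_lit 0x5e0000bc00017ee4fafdcfc) (.hit (nat_lit 162) (nat_lit 20) (nat_lit 0x5e0000bc00017ee4fafdcfc) b59881 (.hit (nat_lit 163) (nat_lit 28) (nat_lit 0x5e0000bc00017e8372fd0cb) b59882 (.nil))) (.nil))))) (.tok (nat_lit 62) (nat_lit 0x5e0000bc00017fc572ff90b) (.hit (nat_lit 170) (nat_lit 0) (nat_lit 0x5e0000bc00017f468afe9be) b59888 (.one (nat_lit 3) (nat_lit 171) (nat_lit 1) (nat_lit 0x5e0000bc00017e5f02fcc3d) b59889 (.tok (nat_lit 6) (nat_lit 0x5e0000bc00017eb40afd6de) (.hit (nat_lit 172) (nat_lit 7) (nat_lit 0x5e0000bc00017eb40afd6de) b59890 (.hit (nat_lit 173) (nat_lit 15) (nat_lit 0x5e0000bc00017e8342fd0c5) b59891 (.nil))) (.tok (nat_lit 9) (nat_lit 0x5e0000bc00017fc572ff90b) (.hit (nat_lit 174) (nat_lit 20) (nat_lit 0x5e0000bc00017fc572ff90b) b59892 (.hit (nat_lit 175) (nat_lit 28) (nat_lit 0x5e0000bc00017e8f82fd24d) b59893 (.nil))) (.nil)))))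 (.tok (nat_lit 65) (nat_lit 0x5e0000bc00017ff222ffd38) (.hit (nat_lit 181) (nat_lit 0) (nat_lit 0x5e0000bc00017fc9a2ff944) b59894 (.one (nat_lit 3) (nat_lit 182) (nat_lit 1) (nat_lit 0x5e0000bc00017f81d2fec28) b59895 (.tok (nat_lit 6) (nat_lit 0x5e0000bc00017ff222ffa91) (.hit (nat_lit 183) (nat_lit 7) (nat_lit 0x5e0000bc00017f3cf2fe7fb) b59896 (.hit (nat_lit 184) (nat_lit 15) (nat_lit 0x5e0000bc00017ff222ffa91) b59897 (.nil))) (.tok (nat_lit 9) (nat_lit 0x5e0000bc00017fbd52ffd38) (.hit (nat_lit 185) (nat_lit 20) (nat_lit 0x5e0000bc00017fbd52ffd38) b59898 (.hit (nat_lit 186) (nat_lit 28) (nat_lit 0x5e0000bc00017f9592ff30f) b59899 (.nil))) (.nil))))) (.tok (nat_lit 68) (nat_lit 0x5e0000bc00017f78cafef76) (.hit (nat_lit 209) (nat_lit 0) (nat_lit 0x5e0000bc00017f78cafef76) b59906 (.one (nat_lit 3) (nat_lit 210) (nat_lit 1) (nat_lit 0x5e0000bc00017e366afc72a) b59878 (.tok (nat_lit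 6) (nat_lit 0x5e0000bc00017f6e82fee2d) (.hit (nat_lit 211) (nat_lit 7) (nat_lit 0x5e0000bc00017f10bafe274) b59886 (.hit (nat_lit 212) (nat_lit 15) (nat_lit 0x5e0000bc00017f6e82fee2d) b59907 (.nil))) (.tok (nat_lit 9) (nat_lit 0x5e0000bc00017f0ea2fe231) (.hit (nat_lit 213) (nat_lit 20) (nat_lit 0x5e0000bc00017f0ea2fe231) b59863 (.hit (nat_lit 214) (nat_lit 28) (nat_lit 0x5e0000bc00017e41dafc898) b59885 (.nil))) (.nil))))) (.tok (nat_lit 71) (nat_lit 0x5e0000bc00017ffd1b00000) (.hit (nat_lit 195) (nat_lit 0) (nat_lit 0x5e0000bc00017f92cafeeeb) b59900 (.one (nat_lit 3) (nat_lit 196) (nat_lit 1) (nat_lit 0x5e0000bc00017e9932fd383) b59901 (.tok (nat_lit 6) (nat_lit 0x5e0000bc00017ffd1b00000) (.hit (nat_lit 197) (nat_lit 7) (nat_lit 0x5e0000bc00017ffd1b00000) b59902 (.hit (nat_lit 198) (nat_lit 15) (nat_lit 0x5e0000bc00017e19c2fc395) b59903 (.nil))) (.tok (nat_lit 9) (nat_lit 0x5e0000bc00017f78b2fef73)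 (.hit (nat_lit 199) (nat_lit 20) (nat_lit 0x5e0000bc00017f4f72fea4b) b59904 (.hit (nat_lit 200) (nat_lit 28) (nat_lit 0x5e0000bc00017f78b2fef73) b59905 (.nil))) (.nil))))) (.nil))))))))))))))))
noncomputable def r87_22 : Rw Blk := .tok (nat_lit 3) (nat_lit 0x5e0000bc00017eff1afdc8d) (.hit (nat_lit 18) (nat_lit 0) (nat_lit 0x5e0000bc00017eff1afd959) b59946 (.tok (nat_lit 6) (nat_lit 0x5e0000bc00017ea132fdc8d) (.hit (nat_lit 19) (nat_lit 7) (nat_lit 0x5e0000bc00017e7e7afd836) b59947 (.hit (nat_lit 20) (nat_lit 15) (nat_lit 0x5e0000bc00017ea132fdc8d) b59948 (.nil))) (.tok (nat_lit 9) (nat_lit 0x5e0000bc00017e7b6afd7d4) (.hit (nat_lit 21) (nat_lit 20) (nat_lit 0x5e0000bc00017e7b6afd7d4) b59949 (.hit (nat_lit 22) (nat_lit 28) (nat_lit 0x5e0000bc00017e722afd6ac) b59950 (.nil))) (.nil)))) (.tok (nat_lit 6) (nat_lit 0x5e0000bc00017fc832ff354) (.hit (nat_lit 9) (nat_lit 0) (nat_lit 0x5e0000bc00017effb2fe3aa)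 b59938 (.one (nat_lit 3) (nat_lit 10) (nat_lit 1) (nat_lit 0x5e0000bc00017ed3fafd914) b59939 (.tok (nat_lit 6) (nat_lit 0x5e0000bc00017fc832ff354) (.hit (nat_lit 12) (nat_lit 7) (nat_lit 0x5e0000bc00017ea032fd8ba) b59940 (.hit (nat_lit 16) (nat_lit 15) (nat_lit 0x5e0000bc00017ed4e2fe0ae) b59944 (.tok (nat_lit 55) (nat_lit 0x5e0000bc00017fc832ff354) (.hit (nat_lit 13) (nat_lit 8) (nat_lit 0x5e0000bc00017fc2f2fe826) b59941 (.hit (nat_lit 17) (nat_lit 16) (nat_lit 0x5e0000bc00017fad4aff354) b59945 (.tok (nat_lit 6) (nat_lit 0x5e0000bc00017fc832ff007) (.hit (nat_lit 14) (nat_lit 9) (nat_lit 0x5e0000bc00017f828afe960) b59942 (.one (nat_lit 55) (nat_lit 15) (nat_lit 10) (nat_lit 0x5e0000bc00017fc832ff007) b59943 (.nil))) (.nil)))) (.nil)))) (.nil)))) (.tok (nat_lit 9) (nat_lit 0x5e0000bc000180000300000) (.hit (nat_lit 0) (nat_lit 0) (nat_lit 0x5e0000bc00017f52cafea25) b59930 (.one (nat_lit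 3) (nat_lit 1) (nat_lit 1) (nat_lit 0x5e0000bc00017e99c2fd2e1) b59931 (.tok (nat_lit 9) (nat_lit 0x5e0000bc000180000300000) (.hit (nat_lit 3) (nat_lit 20) (nat_lit 0x5e0000bc00017f6662fd93f) b59932 (.hit (nat_lit 7) (nat_lit 28) (nat_lit 0x5e0000bc00017edb2afe3cc) b59936 (.tok (nat_lit 67) (nat_lit 0x5e0000bc000180000300000) (.hit (nat_lit 4) (nat_lit 21) (nat_lit 0x5e0000bc00017fdc9300000) b59933 (.hit (nat_lit 8) (nat_lit 29) (nat_lit 0x5e0000bc00017f87c2ff280) b59937 (.tok (nat_lit 9) (nat_lit 0x5e0000bc0001800002ffe85) (.hit (nat_lit 5) (nat_lit 22) (nat_lit 0x5e0000bc00017fcd7aff299) b59934 (.one (nat_lit 67) (nat_lit 6) (nat_lit 23) (nat_lit 0x5e0000bc0001800002ffe85) b59935 (.nil))) (.nil)))) (.nil)))) (.nil)))) (.nil)))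
noncomputable def r87_23 : Rw Blk := .tok (nat_lit 3) (nat_lit 0x5e0000bc00017f07d2fedc9) (.hit (nat_lit 14) (nat_lit 0) (nat_lit 0x5e0000bc00017f07d2fedc9) b59963 (.tok (nat_lit 6) (nat_lit 0x5e0000bc00017e92cafe224) (.hit (nat_lit 15) (nat_lit 7) (nat_lit 0x5e0000bc00017e92cafe224) b59964 (.hit (nat_lit 16) (nat_lit 15) (nat_lit 0x5e0000bc00017e7762fdeb7) b59965 (.nil))) (.tok (nat_lit 9) (nat_lit 0x5e0000bc00017e4112fd7ed) (.hit (nat_lit 17) (nat_lit 20) (nat_lit 0x5e0000bc00017e159afd27e) b59966 (.hit (nat_lit 18) (nat_lit 28) (nat_lit 0x5e0000bc00017e4112fd7ed) b59967 (.nil))) (.nil)))) (.tok (nat_lit 6) (nat_lit 0x5e0000bc000180000300000) (.hit (nat_lit 9) (nat_lit 0) (nat_lit 0x5e0000bc00017fa9cafffbb) b59959 (.one (nat_lit 3) (nat_lit 10) (nat_lit 1) (nat_lit 0x5e0000bc00017faadaffc4a) b59960 (.tok (nat_lit 6) (nat_lit 0x5e0000bc000180000300000) (.hit (nat_lit 12) (nat_lit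 7) (nat_lit 0x5e0000bc0001800002ff869) b59961 (.hit (nat_lit 13) (nat_lit 15) (nat_lit 0x5e0000bc00017f673300000) b59962 (.nil))) (.nil)))) (.tok (nat_lit 9) (nat_lit 0x5e0000bc00017f766affdd7) (.hit (nat_lit 0) (nat_lit 0) (nat_lit 0x5e0000bc00017f766aff799) b59951 (.one (nat_lit 3) (nat_lit 1) (nat_lit 1) (nat_lit 0x5e0000bc00017e8362fe037) b59952 (.tok (nat_lit 9) (nat_lit 0x5e0000bc00017f7062ffdd7) (.hit (nat_lit 3) (nat_lit 20) (nat_lit 0x5e0000bc00017e5fb2fdbc1) b59953 (.hit (nat_lit 7) (nat_lit 28) (nat_lit 0x5e0000bc00017e8a92fe11d) b59957 (.tok (nat_lit 67) (nat_lit 0x5e0000bc00017f7062ffdd7) (.hit (nat_lit 4) (nat_lit 21) (nat_lit 0x5e0000bc00017f1ac2ff323) b59954 (.hit (nat_lit 8) (nat_lit 29) (nat_lit 0x5e0000bc00017f7062ffdd7) b59958 (.tok (nat_lit 9) (nat_lit 0x5e0000bc00017f6c7affd5a) (.hit (nat_lit 5) (nat_lit 22) (nat_lit 0x5e0000bc00017ef05afedd6) b59955 (.one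 (nat_lit 67) (nat_lit 6) (nat_lit 23) (nat_lit 0x5e0000bc00017f6c7affd5a) b59956 (.nil))) (.nil)))) (.nil)))) (.nil)))) (.nil)))
noncomputable def r87_24 : Rw Blk := .tok (nat_lit 3) (nat_lit 0x5e0000bc00017f1992fe5e2) (.hit (nat_lit 14) (nat_lit 0) (nat_lit 0x5e0000bc00017f1992fe5e2) b59980 (.tok (nat_lit 6) (nat_lit 0x5e0000bc00017e853afd9e4) (.hit (nat_lit 15) (nat_lit 7) (nat_lit 0x5e0000bc00017e853afd9e4) b59981 (.hit (nat_lit 16) (nat_lit 15) (nat_lit 0x5e0000bc00017d544afb3c6) b59982 (.nil))) (.tok (nat_lit 9) (nat_lit 0x5e0000bc00017eac5afdec8) (.hit (nat_lit 17) (nat_lit 20) (nat_lit 0x5e0000bc00017eac5afdec8) b59983 (.hit (nat_lit 18) (nat_lit 28) (nat_lit 0x5e0000bc00017e803afd944) b59984 (.nil))) (.nil)))) (.tok (nat_lit 6) (nat_lit 0x5e0000bc00017fb61b00000) (.hit (nat_lit 0) (nat_lit 0) (nat_lit 0x5e0000bc00017f97d2ffbc4) b59968 (.one (nat_lit 3) (nat_lit 1) (nat_lit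 1) (nat_lit 0x5e0000bc00017eac9afded0) b59969 (.tok (nat_lit 6) (nat_lit 0x5e0000bc00017fb61b00000) (.hit (nat_lit 3) (nat_lit 7) (nat_lit 0x5e0000bc00017e956afdbea) b59970 (.hit (nat_lit 7) (nat_lit 15) (nat_lit 0x5e0000bc00017e9d2afdce2) b59974 (.tok (nat_lit 55) (nat_lit 0x5e0000bc00017fb61b00000) (.hit (nat_lit 4) (nat_lit 8) (nat_lit 0x5e0000bc00017f464aff206) b59971 (.hit (nat_lit 8) (nat_lit 16) (nat_lit 0x5e0000bc00017f877affa2c) b59975 (.tok (nat_lit 6) (nat_lit 0x5e0000bc00017fb61b00000) (.hit (nat_lit 5) (nat_lit 9) (nat_lit 0x5e0000bc00017f4672ff20b) b59972 (.one (nat_lit 55) (nat_lit 6) (nat_lit 10) (nat_lit 0x5e0000bc00017fb61b00000) b59973 (.nil))) (.nil)))) (.nil)))) (.nil)))) (.tok (nat_lit 9) (nat_lit 0x5e0000bc0001800002ffca6) (.hit (nat_lit 9) (nat_lit 0) (nat_lit 0x5e0000bc0001800002feedf) b59976 (.one (nat_lit 3) (nat_lit 10) (nat_lit 1) (nat_lit 0x5e0000bc00017ed272fe380)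 b59977 (.tok (nat_lit 9) (nat_lit 0x5e0000bc00017f9612ffca6) (.hit (nat_lit 12) (nat_lit 20) (nat_lit 0x5e0000bc00017f9612ffca6) b59978 (.hit (nat_lit 13) (nat_lit 28) (nat_lit 0x5e0000bc00017ee83afe6c9) b59979 (.nil))) (.nil)))) (.nil)))
noncomputable def r87_25 : Rw Blk := .tok (nat_lit 6) (nat_lit 0x5e0000bc00017fa9a2ff7dd) (.hit (nat_lit 0) (nat_lit 0) (nat_lit 0x5e0000bc00017fa9a2ff7dd) b59985 (.tok (nat_lit 3) (nat_lit 0x5e0000bc00017e5602fd1ae) (.hit (nat_lit 1) (nat_lit 1) (nat_lit 0x5e0000bc00017d6e62fb4ba) b59986 (.one (nat_lit 56) (nat_lit 3) (nat_lit 6) (nat_lit 0x5e0000bc00017e5602fd1ae) b59987 (.nil))) (.tok (nat_lit 40) (nat_lit 0x5e0000bc00017e7bcafd667) (.hit (nat_lit 4) (nat_lit 33) (nat_lit 0x5e0000bc00017e4f9afd0e1) b59988 (.hit (nat_lit 5) (nat_lit 34) (nat_lit 0x5e0000bc00017e7bcafd667) b59989 (.nil))) (.tok (nat_lit 43) (nat_lit 0x5e0000bc00017edea2fe2c2)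 (.hit (nat_lit 6) (nat_lit 35) (nat_lit 0x5e0000bc00017edea2fe2c2) b59990 (.hit (nat_lit 7) (nat_lit 36) (nat_lit 0x5e0000bc00017eb1cafdd27) b59991 (.nil))) (.tok (nat_lit 46) (nat_lit 0x5e0000bc00017ed7eafe1eb) (.hit (nat_lit 8) (nat_lit 37) (nat_lit 0x5e0000bc00017ed7eafe1eb) b59992 (.hit (nat_lit 9) (nat_lit 38) (nat_lit 0x5e0000bc00017ebcc2fde86) b59993 (.nil))) (.nil)))))) (.tok (nat_lit 9) (nat_lit 0x5e0000bc00018116c30438c) (.hit (nat_lit 10) (nat_lit 0) (nat_lit 0x5e0000bc0001800aeb0177a) b59994 (.tok (nat_lit 3) (nat_lit 0x5e0000bc00017f3c52ffa3d) (.hit (nat_lit 11) (nat_lit 1) (nat_lit 0x5e0000bc00017eba62fe77b) b59995 (.one (nat_lit 68) (nat_lit 13) (nat_lit 5) (nat_lit 0x5e0000bc00017f3c52ffa3d) b59996 (.nil))) (.tok (nat_lit 40) (nat_lit 0x5e0000bc00017f21f2ff703) (.hit (nat_lit 14) (nat_lit 33) (nat_lit 0x5e0000bc00017f21f2ff6f5) b59997 (.hit (nat_lit 15) (nat_lit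 34) (nat_lit 0x5e0000bc00017f1532ff703) b59998 (.nil))) (.tok (nat_lit 43) (nat_lit 0x5e0000bc00017fae7301031) (.hit (nat_lit 16) (nat_lit 35) (nat_lit 0x5e0000bc00017e9fcafdae7) b59999 (.hit (nat_lit 17) (nat_lit 36) (nat_lit 0x5e0000bc00017fae7301031) b60000 (.nil))) (.tok (nat_lit 46) (nat_lit 0x5e0000bc00018116c30438c) (.hit (nat_lit 18) (nat_lit 37) (nat_lit 0x5e0000bc00018116c30438c) b60001 (.hit (nat_lit 19) (nat_lit 38) (nat_lit 0x5e0000bc00017e9a32ffa56) b60002 (.nil))) (.nil)))))) (.nil))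
noncomputable def r87_26 : Rw Blk := .tok (nat_lit 6) (nat_lit 0x5e0000bc000180000300687) (.hit (nat_lit 0) (nat_lit 0) (nat_lit 0x5e0000bc00017fa71afefae) b60003 (.tok (nat_lit 3) (nat_lit 0x5e0000bc00017f2fa2fe8eb) (.hit (nat_lit 1) (nat_lit 1) (nat_lit 0x5e0000bc00017e6842fcbd7) b60004 (.one (nat_lit 56) (nat_lit 3) (nat_lit 6) (nat_lit 0x5e0000bc00017f2fa2fe8eb) b60005 (.nil))) (.tok (nat_lit 40) (nat_lit 0x5e0000bc00017f75c2ff62e) (.hit (nat_lit 4) (nat_lit 33) (nat_lit 0x5e0000bc00017f53caff436) b60006 (.hit (nat_lit 5) (nat_lit 34) (nat_lit 0x5e0000bc00017f75c2ff62e) b60007 (.nil))) (.tok (nat_lit 43) (nat_lit 0x5e0000bc00017fcf6aff7e6) (.hit (nat_lit 6) (nat_lit 35) (nat_lit 0x5e0000bc00017fcf6aff7e6) b60008 (.hit (nat_lit 7) (nat_lit 36) (nat_lit 0x5e0000bc00017f1e72fefeb) b60009 (.nil))) (.tok (nat_lit 46) (nat_lit 0x5e0000bc000180000300687) (.hit (nat_lit 8) (nat_lit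 37) (nat_lit 0x5e0000bc00017ee672fe905) b60010 (.hit (nat_lit 9) (nat_lit 38) (nat_lit 0x5e0000bc000180000300687) b60011 (.nil))) (.nil)))))) (.tok (nat_lit 9) (nat_lit 0x5e0000bc00017fa662ffd4c) (.hit (nat_lit 10) (nat_lit 0) (nat_lit 0x5e0000bc00017eeb02fea06) b60012 (.tok (nat_lit 3) (nat_lit 0x5e0000bc00017ee3eafe1b2) (.hit (nat_lit 11) (nat_lit 1) (nat_lit 0x5e0000bc00017e347afbf46) b60013 (.one (nat_lit 68) (nat_lit 13) (nat_lit 5) (nat_lit 0x5e0000bc00017ee3eafe1b2) b60014 (.nil))) (.tok (nat_lit 40) (nat_lit 0x5e0000bc00017ef58afe0e6) (.hit (nat_lit 14) (nat_lit 33) (nat_lit 0x5e0000bc00017ef58afe0e6) b60015 (.hit (nat_lit 15) (nat_lit 34) (nat_lit 0x5e0000bc00017ec562fd913) b60016 (.nil))) (.tok (nat_lit 43) (nat_lit 0x5e0000bc00017f82faff26e) (.hit (nat_lit 16) (nat_lit 35) (nat_lit 0x5e0000bc00017e64e2fd8d3) b60017 (.hit (nat_lit 17) (nat_lit 36) (nat_lit 0x5e0000bc00017f82faff26e)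 b60018 (.nil))) (.tok (nat_lit 46) (nat_lit 0x5e0000bc00017fa662ffd4c) (.hit (nat_lit 18) (nat_lit 37) (nat_lit 0x5e0000bc00017fa662ffd4c) b60019 (.hit (nat_lit 19) (nat_lit 38) (nat_lit 0x5e0000bc00017e9fd2fde7d) b60020 (.nil))) (.nil)))))) (.nil))
noncomputable def r87_27 : Rw Blk := .tok (nat_lit 3) (nat_lit 0xc022f180118b012695fffa8c0686d80774b00aee602528c0200d817d2301f84) (.hit (nat_lit 15) (nat_lit 0) (nat_lit 0xbf72857f105aff2215fbd08bfefbd7f25c2ff0915ffb8abfb7117fbd32fedcc) b60032 (.tok (nat_lit 6) (nat_lit 0xbf77357eedfaff72e5fb23ec031717f2f22fd9f15fef98bfa0dd7fd5bafe6e6) (.hit (nat_lit 16) (nat_lit 7) (nat_lit 0xbf093d7e81d2fd6bd5f7b42bfaadd7e5332fbe735fa30abf293d7f3d42fd09a) b60033 (.hit (nat_lit 21) (nat_lit 15) (nat_lit 0xbe9b597e1b5afc6ce5f4450bf63c97d776afa2fa5fadeabf2a7d7e4d2afc6a3) b60036 (.tok (nat_lit 56) (nat_lit 0xbf77357ed4daff72e5fb23ec031717f2f22fd9f15fda24bf8a017fd5bafe6e6)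 (.hit (nat_lit 19) (nat_lit 13) (nat_lit 0xbf2a7d7eba2afdd965f8be2bff2917e95b2fc6c35fbc5ebf5be57f7092fd330) b60034 (.hit (nat_lit 24) (nat_lit 19) (nat_lit 0xbf1e8d7e89dafd6b65f85eabf9ff97e7dd2fc3c75fda24bf75c17ee592fdb4e) b60038 (.one (nat_lit 6) (nat_lit 20) (nat_lit 14) (nat_lit 0xbf77357ed4daff72e5fb23ec031717f2f22fd9f15fd36cbf8a017fd5bafe6e6) b60035 (.nil)))) (.one (nat_lit 68) (nat_lit 23) (nat_lit 18) (nat_lit 0xbf61657eedfafdec35fa756bfd85d7f0382fd47d5fef98bfa0dd7f1f02fe66a) b60037 (.nil))))) (.tok (nat_lit 52) (nat_lit 0xbf5e657f44f2feed45fa5d6bff7e97efd82fd3bd5ffd54bfc1cd7fb0a2ff064) (.hit (nat_lit 25) (nat_lit 39) (nat_lit 0xbf566d7e9fd2fe1635fa1dabfcd657eed92fd1bf5fe822bf97d17fb0a2fe985) b60039 (.hit (nat_lit 26) (nat_lit 40) (nat_lit 0xbf5e657f44f2feed45fa5d6bff7e97efd82fd3bd5ffd54bfc1cd7fa9d2ff064) b60040 (.nil))) (.tok (nat_lit 55) (nat_lit 0xc022f180118b012695fffa8c0686d80774b00aee602528c0200d817d2301f84)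 (.hit (nat_lit 27) (nat_lit 41) (nat_lit 0xc022f180118b012235fffa8c0686d80774b00aee602528c0200d817d2301f84) b60041 (.one (nat_lit 3) (nat_lit 33) (nat_lit 47) (nat_lit 0xbf7f157f261b001705fb62ec03f9d7f3ee2fdbe95ff142bfc5ad80612aff5b5) b60047 (.tok (nat_lit 6) (nat_lit 0xbf7b8d7f749b012695fb46ac046b57f37d2fdb075fe7a6bfb27581380b018b8) (.hit (nat_lit 28) (nat_lit 42) (nat_lit 0xbf64597ee1aaff3d85fa8d0c027457f096afd53a5fe270bfa80980781affdff) b60042 (.hit (nat_lit 31) (nat_lit 45) (nat_lit 0xbf76f97f41d2ff91a5fb220c021e97f2eaafd9e25fd902bf952d8092a2ff3d0) b60045 (.tok (nat_lit 55) (nat_lit 0xbf7b8d7f749b012695fb46ac046b57f37d2fdb075fe7a6bfb27581380b018b8) (.hit (nat_lit 29) (nat_lit 43) (nat_lit 0xbf712d7f005affc375faf3ac046b57f2312fd86f5fe7a6bfb27580bd7300c91) b60043 (.hit (nat_lit 32) (nat_lit 46) (nat_lit 0xbf7b8d7f749b012695fb46ac043817f37d2fdb075fe04abfa3bd81380b018b8) b60046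 (.one (nat_lit 6) (nat_lit 30) (nat_lit 44) (nat_lit 0xbf557d7eb7daff7d05fa162bfe0657eebb2fd1835fd7fcbf932180724300738) b60044 (.nil)))) (.nil)))) (.nil)))) (.one (nat_lit 58) (nat_lit 35) (nat_lit 49) (nat_lit 0xbf6b897f5cc2fefd35fac68bfee697f17cafd706601e5cc015fd800073002d8) b60048 (.nil)))))) (.tok (nat_lit 9) (nat_lit 0xc0790980d8a302cbb604714c08229812b830352f606830c0c9ed8105a30350e) (.hit (nat_lit 0) (nat_lit 0) (nat_lit 0xbfea658099fb0144f6004d4c066c980369b00f856017fac031b980175300a8b) b60021 (.tok (nat_lit 9) (nat_lit 0xbfc96d8074bb012ae5ff2b8c082297fd5f3003925ff436bfec79800d3b0006c) (.hit (nat_lit 1) (nat_lit 20) (nat_lit 0xbfc96d7e8b7afdecf5ff2b8bfe8917fd5f2fefad5fdfb6bfb2257f26daff5dc) b60022 (.hit (nat_lit 4) (nat_lit 28) (nat_lit 0xbf31457e9c32fdbd15fb57ebfc52d7ea832fe27d5fb550bf76857ec712fe097) b60023 (.one (nat_lit 56) (nat_lit 6) (nat_lit 31) (nat_lit 0xbfa2d18074bb012ae5fe718c082297fca93003925ff436bfec79800d3b0006c)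 b60024 (.nil)))) (.tok (nat_lit 64) (nat_lit 0xc07909806e1b011e1604714c01825812b8302f0d60524cc0b0a57ff7130280e) (.hit (nat_lit 7) (nat_lit 50) (nat_lit 0xc07909806e1b011e1604714bfe445812b8302f0d60524cc0b0a57ff7130280e) b60025 (.hit (nat_lit 8) (nat_lit 51) (nat_lit 0xc02f897fe502ffa37602712c0182580b6db00df4601e34c02c217fa64300c4d) b60026 (.nil))) (.tok (nat_lit 67) (nat_lit 0xc05ad580d8a302cbb603c58c0796980e2630352f606830c0c9ed8105a30350e) (.hit (nat_lit 9) (nat_lit 52) (nat_lit 0xc05ad580d8a302cbb603c58c0796980a81b0352f606830c0c9ed8048cb0350e) b60027 (.one (nat_lit 3) (nat_lit 12) (nat_lit 58) (nat_lit 0xc03f517f68c2ff9606032f0bff60d80e26300ec060177ac0254580306b01285) b60030 (.tok (nat_lit 9) (nat_lit 0xc01f1d80125b015f2601e08c03f21803c1b02168604e3ec072998105a30199b) (.hit (nat_lit 10) (nat_lit 53) (nat_lit 0xbfce9580125b00f6c5feaa6c030b57fffeb02168604e3ec0729980415b0199b) b60028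 (.hit (nat_lit 11) (nat_lit 56) (nat_lit 0xc01f1d7fc2d3015f2601e08c03f21803c1b00efa601c22c023d98105a301858) b60029 (.nil))) (.nil)))) (.one (nat_lit 70) (nat_lit 14) (nat_lit 60) (nat_lit 0xc004898006aaff8e260087ec028c18052d301309601a16c010f17f805b00956) b60031 (.nil)))))) (.nil))
noncomputable def r87_28 : Rw Blk := .tok (nat_lit 9) (nat_lit 0x1780003005fa5ff962c02b0d805d8b012da) (.hit (nat_lit 18) (nat_lit 0) (nat_lit 0x1780002ff2555ff962bfb4c57fddfb002d5) b60065 (.one (nat_lit 26) (nat_lit 30) (nat_lit 72) (nat_lit 0x1780002fdc675fbd1cbf84197f3baafefbb) b60066 (.one (nat_lit 29) (nat_lit 31) (nat_lit 73) (nat_lit 0x1780002fe20c5fe09ebfd7b5800d130048d) b60067 (.one (nat_lit 32) (nat_lit 32) (nat_lit 74) (nat_lit 0x1780002fe9405fdff2c02941800b5300a90) b60068 (.one (nat_lit 35) (nat_lit 33) (nat_lit 75) (nat_lit 0x1780002fdacb5fb6d8bf5e917edb7afe0f7) b60069 (.one (nat_lit 38)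 (nat_lit 34) (nat_lit 76) (nat_lit 0x1780002fdf905fc438bf8a697f3a0aff171) b60070 (.tok (nat_lit 41) (nat_lit 0x1780002feb5a5ff320c02b0d805d8b012da) (.hit (nat_lit 35) (nat_lit 77) (nat_lit 0x1780002fd28d5fb906bf80f57f4f72ff2eb) b60071 (.hit (nat_lit 36) (nat_lit 78) (nat_lit 0x1780002feb5a5ff320c02b0d805d8b012da) b60072 (.nil))) (.tok (nat_lit 44) (nat_lit 0x1780002fe3cd5fd67ec015358051e300ba6) (.hit (nat_lit 37) (nat_lit 79) (nat_lit 0x1780002fc7235f932cbf15897ecc72fd12a) b60073 (.hit (nat_lit 38) (nat_lit 80) (nat_lit 0x1780002fe3cd5fd67ec015358051e300ba6) b60074 (.nil))) (.tok (nat_lit 47) (nat_lit 0x1780002fdaf95feeacbfad897fff03004ed) (.hit (nat_lit 39) (nat_lit 81) (nat_lit 0x1780002fdaf95feeacbfad897fff03004ed) b60075 (.hit (nat_lit 40) (nat_lit 82) (nat_lit 0x1780002fd2bd5fc5bebfa6e57f62f2ff212) b60076 (.nil))) (.one (nat_lit 50) (nat_lit 41) (nat_lit 83) (nat_lit 0x1780002feb475fd840bfa0557f6162ff415)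 b60077 (.tok (nat_lit 53) (nat_lit 0x1780002fedf25fe5aebfdf45802efb0047b) (.hit (nat_lit 42) (nat_lit 84) (nat_lit 0x1780002fe1cf5fda1cbf8de97fa9daff967) b60078 (.hit (nat_lit 43) (nat_lit 85) (nat_lit 0x1780002fedf25fe5aebfdf45802efb0047b) b60079 (.nil))) (.tok (nat_lit 56) (nat_lit 0x1780003005fa5fdf48bf94e57fcc82ffd5f) (.hit (nat_lit 44) (nat_lit 86) (nat_lit 0x1780003005fa5fdf48bf94e57fcc82ffd5f) b60080 (.one (nat_lit 3) (nat_lit 48) (nat_lit 90) (nat_lit 0x1780002fdabb5fba5cbf63e97f6932fe4c2) b60084 (.tok (nat_lit 6) (nat_lit 0x1780002fd6135fb10cbf51497f43f2fe01a) (.hit (nat_lit 46) (nat_lit 88) (nat_lit 0x1780002fd6135fb10cbf51497f43f2fe01a) b60082 (.hit (nat_lit 47) (nat_lit 89) (nat_lit 0x1780002fcf0d5fa300bf35317f0bc2fd914) b60083 (.nil))) (.one (nat_lit 9) (nat_lit 45) (nat_lit 87) (nat_lit 0x1780002fd9955fb810bf5f517f6002fe39c) b60081 (.nil))))) (.one (nat_lit 59) (nat_lit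 49) (nat_lit 91) (nat_lit 0x1780002fde3e5fc3dcbfb7f97f6a12ff43a) b60085 (.nil)))))))))))))) (.tok (nat_lit 64) (nat_lit 0x178000301ee2604c22c04e658146e301ae4) (.hit (nat_lit 13) (nat_lit 0) (nat_lit 0x1780003019ea604c22c04e658146e301ae4) b60060 (.tok (nat_lit 6) (nat_lit 0x1780002ff8f45fe0febf89a17fdfb2ff49f) (.hit (nat_lit 14) (nat_lit 7) (nat_lit 0x1780002fdd8e5fc002bf52097f560afe866) b60061 (.hit (nat_lit 15) (nat_lit 15) (nat_lit 0x1780002ff8f45fe0febf89a17fdfb2ff49f) b60062 (.nil))) (.tok (nat_lit 9) (nat_lit 0x178000301ee2602b4ac013ad81123b010bb) (.hit (nat_lit 16) (nat_lit 20) (nat_lit 0x178000301679602202c001a580fedb00e51) b60063 (.hit (nat_lit 17) (nat_lit 28) (nat_lit 0x178000301ee2602b4ac013ad81123b010bb) b60064 (.nil))) (.nil)))) (.tok (nat_lit 67) (nat_lit 0x1780002ff73b5ff240bfdda9801f030036d) (.hit (nat_lit 8) (nat_lit 0) (nat_lit 0x1780002ff73b5fecfcbfdda98009f30036d)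 b60056 (.one (nat_lit 3) (nat_lit 9) (nat_lit 1) (nat_lit 0x1780002fe5ee5fd0c2bf73897f990aff0c6) b60057 (.tok (nat_lit 9) (nat_lit 0x1780002ff6ad5ff240bfb685801f0300185) (.hit (nat_lit 11) (nat_lit 20) (nat_lit 0x1780002ff6ad5ff240bfb685801f0300185) b60058 (.hit (nat_lit 12) (nat_lit 28) (nat_lit 0x1780002fe1e75fc8b4bf636d7f78d2fecbf) b60059 (.nil))) (.nil)))) (.tok (nat_lit 70) (nat_lit 0x178000300a0e60182cc0025d80b6b30147b) (.hit (nat_lit 0) (nat_lit 0) (nat_lit 0x178000300a0e5ff7c2bfbd4d802c9300337) b60049 (.one (nat_lit 3) (nat_lit 1) (nat_lit 1) (nat_lit 0x1780002ff8b35ff64cbfbe9d802f330038b) b60050 (.tok (nat_lit 6) (nat_lit 0x1780003009a360182cc0025d80b6b30147b) (.hit (nat_lit 3) (nat_lit 7) (nat_lit 0x1780002ff3f05fecc6bfab9180091affec8) b60051 (.hit (nat_lit 6) (nat_lit 15) (nat_lit 0x1780002ff6025ff0eabfb3d98019ab000da) b60054 (.tok (nat_lit 55) (nat_lit 0x1780003009a360182cc0025d80b6b30147b)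 (.hit (nat_lit 4) (nat_lit 8) (nat_lit 0x1780003001646007aebfe1618074bb00c3c) b60052 (.hit (nat_lit 7) (nat_lit 16) (nat_lit 0x17800030093260174ac0009980b32b0140a) b60055 (.one (nat_lit 6) (nat_lit 5) (nat_lit 9) (nat_lit 0x1780003009a360182cc0025d80b6b30147b) b60053 (.nil)))) (.nil)))) (.nil)))) (.nil))))
noncomputable def r87_29 : Rw Blk := .tok (nat_lit 3) (nat_lit 0x1780003031e2605964c0762d81816b0327f) (.hit (nat_lit 0) (nat_lit 0) (nat_lit 0x1780003031e2605964c0762d81816b0327f) b60086 (.tok (nat_lit 6) (nat_lit 0x17800030111b6024b0c03c9980d90b021fa) (.hit (nat_lit 1) (nat_lit 7) (nat_lit 0x1780002fe5be5fd09abf946d7f88b2ff7ef) b60087 (.hit (nat_lit 6) (nat_lit 15) (nat_lit 0x1780002fe4c55fe048bfba01800f72ffcfb) b60092 (.tok (nat_lit 14) (nat_lit 0x1780002ffef36024b0c03c9980d90b021fa) (.hit (nat_lit 2) (nat_lit 11) (nat_lit 0x1780002ffdd3601036c013a5808723017bd) b60088 (.hit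 (nat_lit 7) (nat_lit 17) (nat_lit 0x1780002ffef36017f4c0262980798302116) b60093 (.one (nat_lit 9) (nat_lit 3) (nat_lit 12) (nat_lit 0x1780002ffa646024b0c03c9980d90b021fa) b60089 (.nil)))) (.tok (nat_lit 56) (nat_lit 0x17800030111b601fb4c0314980c38301eb9) (.hit (nat_lit 4) (nat_lit 13) (nat_lit 0x1780002ff6816000ccbff4d180497b01008) b60090 (.hit (nat_lit 8) (nat_lit 19) (nat_lit 0x1780002ff97d5ff700bff8418017eb010c4) b60094 (.one (nat_lit 6) (nat_lit 5) (nat_lit 14) (nat_lit 0x17800030111b601fb4c0314980c38301eb9) b60091 (.nil)))) (.nil))))) (.nil))) (.tok (nat_lit 9) (nat_lit 0x178000303911606facc0f6b1824cf30469d) (.hit (nat_lit 20) (nat_lit 0) (nat_lit 0x1780003034e8606256c0a5d981a75302f52) b60095 (.tok (nat_lit 9) (nat_lit 0x178000303911606facc0f6b1824cf30469d) (.hit (nat_lit 21) (nat_lit 20) (nat_lit 0x178000301dd9603e80c07ad181646b026ab) b60096 (.hit (nat_lit 24) (nat_lit 28)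 (nat_lit 0x178000300f5f601d0ac01bbd80937b013e1) b60099 (.tok (nat_lit 14) (nat_lit 0x178000303911606facc0f6b1824cf30469d) (.hit (nat_lit 22) (nat_lit 24) (nat_lit 0x178000302bf96058a8c0b57d81ba93031f5) b60097 (.hit (nat_lit 25) (nat_lit 30) (nat_lit 0x1780003025fa6044a8c08701815f0b02ee3) b60100 (.one (nat_lit 6) (nat_lit 23) (nat_lit 25) (nat_lit 0x178000303911606facc0f6b1824cf30469d) b60098 (.nil)))) (.nil)))) (.nil))) (.nil))
noncomputable def r87_30 : Rw Blk := .tok (nat_lit 9) (nat_lit 0x1780002f000060bb36c14b7583118b0640e) (.hit (nat_lit 0) (nat_lit 0) (nat_lit 0x1780002f000060368ec09679817ebb0313a) b60101 (.tok (nat_lit 14) (nat_lit 0x1780002f000060bb36c1179182ec1b0640e) (.hit (nat_lit 1) (nat_lit 61) (nat_lit 0x1780002f0000606720c0af4581cad303bbf) b60102 (.one (nat_lit 3) (nat_lit 2) (nat_lit 62) (nat_lit 0x1780002f0000604592c078b181a94b03641) b60103 (.tok (nat_lit 6) (nat_lit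 0x1780002f000060bb36c1179182ec1b0640e) (.hit (nat_lit 5) (nat_lit 65) (nat_lit 0x1780002f000060bb36c1179182ec1b0640e) b60106 (.hit (nat_lit 6) (nat_lit 66) (nat_lit 0x1780002f00006036f4c0366981238b02138) b60107 (.nil))) (.tok (nat_lit 9) (nat_lit 0x1780002f00006040d6c036c98121cb0267b) (.hit (nat_lit 3) (nat_lit 63) (nat_lit 0x1780002f00006040d6c036c98121cb0267b) b60104 (.hit (nat_lit 4) (nat_lit 64) (nat_lit 0x1780002f0000600b12bff41180a4cb0145e) b60105 (.nil))) (.nil))))) (.one (nat_lit 17) (nat_lit 7) (nat_lit 67) (nat_lit 0x1780002f0000602646c06641811693029a6) b60108 (.tok (nat_lit 20) (nat_lit 0x1780002f0000601760bfe3dd807bf3011c0) (.hit (nat_lit 8) (nat_lit 68) (nat_lit 0x1780002f0000601760bfe3dd807bf3011c0) b60109 (.hit (nat_lit 9) (nat_lit 69) (nat_lit 0x1780002f0000600c5abfc53d80359300832) b60110 (.nil))) (.tok (nat_lit 23) (nat_lit 0x1780002f0000609e64c14b7583118b05898)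 (.hit (nat_lit 10) (nat_lit 70) (nat_lit 0x1780002f0000609e64c14b7583118b05898) b60111 (.hit (nat_lit 11) (nat_lit 71) (nat_lit 0x1780002f0000602200bff8e980990300daa) b60112 (.nil))) (.one (nat_lit 38) (nat_lit 12) (nat_lit 76) (nat_lit 0x1780002f000060361cc0247d80e193019b2) b60113 (.tok (nat_lit 41) (nat_lit 0x1780002f0000601ef8c0533580f1d3020d4) (.hit (nat_lit 13) (nat_lit 77) (nat_lit 0x1780002f00005ff830bfcd81806a03013d5) b60114 (.hit (nat_lit 14) (nat_lit 78) (nat_lit 0x1780002f0000601ef8c0533580f1d3020d4) b60115 (.nil))) (.tok (nat_lit 44) (nat_lit 0x1780002f000060104ebfd83d80496b00a48) (.hit (nat_lit 15) (nat_lit 79) (nat_lit 0x1780002f00005ff82abfa5717fff1b00225) b60116 (.hit (nat_lit 16) (nat_lit 80) (nat_lit 0x1780002f000060104ebfd83d80496b00a48) b60117 (.nil))) (.tok (nat_lit 47) (nat_lit 0x1780002f000060443ec06c218156eb023db) (.hit (nat_lit 17) (nat_lit 81) (nat_lit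 0x1780002f000060443ec06c218156eb023db) b60118 (.hit (nat_lit 18) (nat_lit 82) (nat_lit 0x1780002f0000601714bfebf9808d5300b3d) b60119 (.nil))) (.nil)))))))))) (.nil)
noncomputable def r87_31 : Rw Blk := .tok (nat_lit 9) (nat_lit 0x5e0000bc00017fa43affca5) (.hit (nat_lit 18) (nat_lit 0) (nat_lit 0x5e0000bc00017ebc1afeaed) b60136 (.one (nat_lit 26) (nat_lit 30) (nat_lit 72) (nat_lit 0x5e0000bc00017f0f7afe021) b60137 (.one (nat_lit 29) (nat_lit 31) (nat_lit 73) (nat_lit 0x5e0000bc00017f1adafe96d) b60138 (.one (nat_lit 32) (nat_lit 32) (nat_lit 74) (nat_lit 0x5e0000bc00017f52aafe7b2) b60139 (.one (nat_lit 35) (nat_lit 33) (nat_lit 75) (nat_lit 0x5e0000bc00017ed28afd7b1) b60140 (.one (nat_lit 38) (nat_lit 34) (nat_lit 76) (nat_lit 0x5e0000bc00017eef02fe57e) b60141 (.tok (nat_lit 41) (nat_lit 0x5e0000bc00017edd5afe830) (.hit (nat_lit 35) (nat_lit 77) (nat_lit 0x5e0000bc00017e8adafdf96)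 b60142 (.hit (nat_lit 36) (nat_lit 78) (nat_lit 0x5e0000bc00017edd5afe830) b60143 (.nil))) (.tok (nat_lit 44) (nat_lit 0x5e0000bc00017edce2fe3a2) (.hit (nat_lit 37) (nat_lit 79) (nat_lit 0x5e0000bc00017da92afcbd0) b60144 (.hit (nat_lit 38) (nat_lit 80) (nat_lit 0x5e0000bc00017edce2fe3a2) b60145 (.nil))) (.tok (nat_lit 47) (nat_lit 0x5e0000bc00017ea45afe090) (.hit (nat_lit 39) (nat_lit 81) (nat_lit 0x5e0000bc00017e842afdce2) b60146 (.hit (nat_lit 40) (nat_lit 82) (nat_lit 0x5e0000bc00017ea45afe090) b60147 (.nil))) (.one (nat_lit 50) (nat_lit 41) (nat_lit 83) (nat_lit 0x5e0000bc00017f270afe25f) b60148 (.tok (nat_lit 53) (nat_lit 0x5e0000bc00017f018afebf5) (.hit (nat_lit 42) (nat_lit 84) (nat_lit 0x5e0000bc00017ec11afebf5) b60149 (.hit (nat_lit 43) (nat_lit 85) (nat_lit 0x5e0000bc00017f018afe99f) b60150 (.nil))) (.tok (nat_lit 56) (nat_lit 0x5e0000bc00017fa43affca5) (.hit (nat_lit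 44) (nat_lit 86) (nat_lit 0x5e0000bc00017fa43affca5) b60151 (.one (nat_lit 3) (nat_lit 48) (nat_lit 90) (nat_lit 0x5e0000bc00017e72a2fe4ff) b60155 (.tok (nat_lit 6) (nat_lit 0x5e0000bc00017ed752ff195) (.hit (nat_lit 46) (nat_lit 88) (nat_lit 0x5e0000bc00017ed752ff195) b60153 (.hit (nat_lit 47) (nat_lit 89) (nat_lit 0x5e0000bc00017e0c2afd830) b60154 (.nil))) (.one (nat_lit 9) (nat_lit 45) (nat_lit 87) (nat_lit 0x5e0000bc00017ed3f2ff129) b60152 (.nil))))) (.one (nat_lit 59) (nat_lit 49) (nat_lit 91) (nat_lit 0x5e0000bc00017ede42fdaaf) b60156 (.nil)))))))))))))) (.tok (nat_lit 64) (nat_lit 0x5e0000bc000180f40b02815) (.hit (nat_lit 13) (nat_lit 0) (nat_lit 0x5e0000bc0001807b5b018db) b60131 (.tok (nat_lit 6) (nat_lit 0x5e0000bc00017fbabaffd3e) (.hit (nat_lit 14) (nat_lit 7) (nat_lit 0x5e0000bc00017f1822feb73) b60132 (.hit (nat_lit 15) (nat_lit 15) (nat_lit 0x5e0000bc00017fbabaffd3e)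 b60133 (.nil))) (.tok (nat_lit 9) (nat_lit 0x5e0000bc000180f40b02815) (.hit (nat_lit 16) (nat_lit 20) (nat_lit 0x5e0000bc000180d74302438) b60134 (.hit (nat_lit 17) (nat_lit 28) (nat_lit 0x5e0000bc000180f40b02815) b60135 (.nil))) (.nil)))) (.tok (nat_lit 67) (nat_lit 0x5e0000bc00017f891aff314) (.hit (nat_lit 8) (nat_lit 0) (nat_lit 0x5e0000bc00017f891aff251) b60127 (.one (nat_lit 3) (nat_lit 9) (nat_lit 1) (nat_lit 0x5e0000bc00017f51faff2ae) b60128 (.tok (nat_lit 9) (nat_lit 0x5e0000bc00017f552aff314) (.hit (nat_lit 11) (nat_lit 20) (nat_lit 0x5e0000bc00017f552aff314) b60129 (.hit (nat_lit 12) (nat_lit 28) (nat_lit 0x5e0000bc00017ef242fe6b7) b60130 (.nil))) (.nil)))) (.tok (nat_lit 70) (nat_lit 0x5e0000bc00018078d301789) (.hit (nat_lit 0) (nat_lit 0) (nat_lit 0x5e0000bc00017fc73b00156) b60120 (.one (nat_lit 3) (nat_lit 1) (nat_lit 1) (nat_lit 0x5e0000bc00017f9bf2ffbed) b60121 (.tok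 (nat_lit 6) (nat_lit 0x5e0000bc00018078d301789) (.hit (nat_lit 3) (nat_lit 7) (nat_lit 0x5e0000bc00017fffeb0086c) b60122 (.hit (nat_lit 6) (nat_lit 15) (nat_lit 0x5e0000bc00017f9692ffb41) b60125 (.tok (nat_lit 55) (nat_lit 0x5e0000bc00018078d301789) (.hit (nat_lit 4) (nat_lit 8) (nat_lit 0x5e0000bc0001804eeb0124c) b60123 (.hit (nat_lit 7) (nat_lit 16) (nat_lit 0x5e0000bc0001801efb00c4e) b60126 (.one (nat_lit 6) (nat_lit 5) (nat_lit 9) (nat_lit 0x5e0000bc00018078d301789) b60124 (.nil)))) (.nil)))) (.nil)))) (.nil))))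
noncomputable def r87_32 : Rw Blk := .tok (nat_lit 3) (nat_lit 0x5e0000bc00018111c30235b) (.hit (nat_lit 0) (nat_lit 0) (nat_lit 0x5e0000bc00018111c30235b) b60157 (.tok (nat_lit 6) (nat_lit 0x5e0000bc0001808de30210c) (.hit (nat_lit 1) (nat_lit 7) (nat_lit 0x5e0000bc00017f5842ffa58) b60158 (.hit (nat_lit 6) (nat_lit 15) (nat_lit 0x5e0000bc00017f0dfaff10f) b60163 (.tok (nat_lit 14) (nat_lit 0x5e0000bc0001803f7b0173f) (.hit (nat_lit 2) (nat_lit 11) (nat_lit 0x5e0000bc00018020ab01365) b60159 (.hit (nat_lit 7) (nat_lit 17) (nat_lit 0x5e0000bc00017fcaa3008a4) b60164 (.one (nat_lit 9) (nat_lit 3) (nat_lit 12) (nat_lit 0x5e0000bc0001803f7b0173f) b60160 (.nil)))) (.tok (nat_lit 56) (nat_lit 0x5e0000bc0001808de30210c) (.hit (nat_lit 4) (nat_lit 13) (nat_lit 0x5e0000bc00017fedf300d0e) b60161 (.hit (nat_lit 8) (nat_lit 19) (nat_lit 0x5e0000bc00017faf530053a) b60165 (.one (nat_lit 6) (nat_lit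 5) (nat_lit 14) (nat_lit 0x5e0000bc0001808de30210c) b60162 (.nil)))) (.nil))))) (.nil))) (.tok (nat_lit 9) (nat_lit 0x5e0000bc000182be3305b01) (.hit (nat_lit 20) (nat_lit 0) (nat_lit 0x5e0000bc00018102d301998) b60166 (.tok (nat_lit 9) (nat_lit 0x5e0000bc000182be3305b01) (.hit (nat_lit 21) (nat_lit 20) (nat_lit 0x5e0000bc0001817073031b4) b60167 (.hit (nat_lit 24) (nat_lit 28) (nat_lit 0x5e0000bc00018018ab00256) b60170 (.tok (nat_lit 14) (nat_lit 0x5e0000bc000182be3305b01) (.hit (nat_lit 22) (nat_lit 24) (nat_lit 0x5e0000bc000182be3305b01) b60168 (.hit (nat_lit 25) (nat_lit 30) (nat_lit 0x5e0000bc000180a033009b6) b60171 (.one (nat_lit 6) (nat_lit 23) (nat_lit 25) (nat_lit 0x5e0000bc000181ccdb04563) b60169 (.nil)))) (.nil)))) (.nil))) (.nil))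
noncomputable def r87_33 : Rw Blk := .tok (nat_lit 6) (nat_lit 0x2f00005e0000c0142580e2eb01871) (.hit (nat_lit 21) (nat_lit 0) (nat_lit 0x2f00005e0000bf77957f929afed44) b60191 (.one (nat_lit 26) (nat_lit 33) (nat_lit 72) (nat_lit 0x2f00005e0000bf8f8d7f207afdfa9) b60192 (.one (nat_lit 29) (nat_lit 34) (nat_lit 73) (nat_lit 0x2f00005e0000bf5a997f4802fe48b) b60193 (.one (nat_lit 32) (nat_lit 35) (nat_lit 74) (nat_lit 0x2f00005e0000bf4b1d7edee2fd700) b60194 (.one (nat_lit 35) (nat_lit 36) (nat_lit 75) (nat_lit 0x2f00005e0000bfaf117f5dfafe749) b60195 (.one (nat_lit 50) (nat_lit 37) (nat_lit 83) (nat_lit 0x2f00005e0000bf422d7f00b2fdbb1) b60196 (.tok (nat_lit 53) (nat_lit 0x2f00005e0000bf85957faf5afeafb) (.hit (nat_lit 38) (nat_lit 84) (nat_lit 0x2f00005e0000bf85957faf5afeafb) b60197 (.hit (nat_lit 39) (nat_lit 85) (nat_lit 0x2f00005e0000bf272d7eee6afd950) b60198 (.nil))) (.tok (nat_lit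 56) (nat_lit 0x2f00005e0000c0142580e2eb01871) (.hit (nat_lit 40) (nat_lit 86) (nat_lit 0x2f00005e0000bff94d80e2eb01871) b60199 (.one (nat_lit 3) (nat_lit 44) (nat_lit 90) (nat_lit 0x2f00005e0000bfbc65804b4afffe9) b60203 (.tok (nat_lit 6) (nat_lit 0x2f00005e0000bfb2b98046d2ffd5c) (.hit (nat_lit 42) (nat_lit 88) (nat_lit 0x2f00005e0000bfb2b98046d2ffd5c) b60201 (.hit (nat_lit 43) (nat_lit 89) (nat_lit 0x2f00005e0000bf4bf97f440afdfd7) b60202 (.nil))) (.one (nat_lit 9) (nat_lit 41) (nat_lit 87) (nat_lit 0x2f00005e0000c0142580e0a30122a) b60200 (.nil))))) (.one (nat_lit 59) (nat_lit 45) (nat_lit 91) (nat_lit 0x2f00005e0000bf25b97efddafdb46) b60204 (.one (nat_lit 62) (nat_lit 46) (nat_lit 92) (nat_lit 0x2f00005e0000bf7dd97eff42fdb56) b60205 (.tok (nat_lit 65) (nat_lit 0x2f00005e0000bf92e57f928afed75) (.hit (nat_lit 47) (nat_lit 93) (nat_lit 0x2f00005e0000bf64c97f928afed75) b60206 (.hit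 (nat_lit 48) (nat_lit 94) (nat_lit 0x2f00005e0000bf92e57f2ecafdfa8) b60207 (.nil))) (.tok (nat_lit 68) (nat_lit 0x2f00005e0000bfa47d8022cafff7d) (.hit (nat_lit 49) (nat_lit 95) (nat_lit 0x2f00005e0000bfa47d8022cafff7d) b60208 (.one (nat_lit 3) (nat_lit 53) (nat_lit 99) (nat_lit 0x2f00005e0000bf0d7d7f8b62fec90) b60212 (.one (nat_lit 6) (nat_lit 50) (nat_lit 96) (nat_lit 0x2f00005e0000bf20e57fb232ff16a) b60209 (.tok (nat_lit 9) (nat_lit 0x2f00005e0000bf433d7ff6e2ffa00) (.hit (nat_lit 51) (nat_lit 97) (nat_lit 0x2f00005e0000bf433d7ff6e2ffa00) b60210 (.hit (nat_lit 52) (nat_lit 98) (nat_lit 0x2f00005e0000bf21a97fb3baff19b) b60211 (.nil))) (.nil))))) (.one (nat_lit 71) (nat_lit 54) (nat_lit 100) (nat_lit 0x2f00005e0000bf80957f2a4afe083) b60213 (.nil)))))))))))))) (.tok (nat_lit 52) (nat_lit 0x2f00005e0000c028b98172db02ba2) (.hit (nat_lit 16) (nat_lit 0) (nat_lit 0x2f00005e0000c0139d8151b301a55)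 b60186 (.tok (nat_lit 6) (nat_lit 0x2f00005e0000c028b98172db02ba2) (.hit (nat_lit 17) (nat_lit 7) (nat_lit 0x2f00005e0000c028b98172db02ba2) b60187 (.hit (nat_lit 18) (nat_lit 15) (nat_lit 0x2f00005e0000c00609812bab01dc3) b60188 (.nil))) (.tok (nat_lit 9) (nat_lit 0x2f00005e0000c0260d80ebcb01716) (.hit (nat_lit 19) (nat_lit 20) (nat_lit 0x2f00005e0000bf972d7ffc8aff767) b60189 (.hit (nat_lit 20) (nat_lit 28) (nat_lit 0x2f00005e0000c0260d80ebcb01716) b60190 (.nil))) (.nil)))) (.tok (nat_lit 55) (nat_lit 0x2f00005e0000c0135d806c0300556) (.hit (nat_lit 8) (nat_lit 0) (nat_lit 0x2f00005e0000c0135d805a3b0039d) b60179 (.one (nat_lit 3) (nat_lit 9) (nat_lit 1) (nat_lit 0x2f00005e0000bfaa8d80234affc3f) b60180 (.tok (nat_lit 6) (nat_lit 0x2f00005e0000bfcee9806c0300556) (.hit (nat_lit 11) (nat_lit 7) (nat_lit 0x2f00005e0000bf8f797fed22ff57a) b60181 (.hit (nat_lit 14) (nat_lit 15) (nat_lit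 0x2f00005e0000bf65097f9842feade) b60184 (.tok (nat_lit 55) (nat_lit 0x2f00005e0000bfcee9806c0300556) (.hit (nat_lit 12) (nat_lit 8) (nat_lit 0x2f00005e0000bf948d7ff74aff6bf) b60182 (.hit (nat_lit 15) (nat_lit 16) (nat_lit 0x2f00005e0000bfcee9806c0300556) b60185 (.one (nat_lit 6) (nat_lit 13) (nat_lit 9) (nat_lit 0x2f00005e0000bfb9fd80422b0001b) b60183 (.nil)))) (.nil)))) (.nil)))) (.tok (nat_lit 58) (nat_lit 0x2f00005e0000c0190581003b017dd) (.hit (nat_lit 0) (nat_lit 0) (nat_lit 0x2f00005e0000bfbf1d808e2b006d2) b60172 (.one (nat_lit 3) (nat_lit 1) (nat_lit 1) (nat_lit 0x2f00005e0000bfd19d80716b00603) b60173 (.tok (nat_lit 9) (nat_lit 0x2f00005e0000c0190581003b017dd) (.hit (nat_lit 3) (nat_lit 20) (nat_lit 0x2f00005e0000bfc9fd80622b0041b) b60174 (.hit (nat_lit 6) (nat_lit 28) (nat_lit 0x2f00005e0000bfb59580395afff01) b60177 (.tok (nat_lit 67) (nat_lit 0x2f00005e0000c0190581003b017dd)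 (.hit (nat_lit 4) (nat_lit 21) (nat_lit 0x2f00005e0000bff10980b04300dde) b60175 (.hit (nat_lit 7) (nat_lit 29) (nat_lit 0x2f00005e0000bffa0980c2430101e) b60178 (.one (nat_lit 9) (nat_lit 5) (nat_lit 22) (nat_lit 0x2f00005e0000c0190581003b017dd) b60176 (.nil)))) (.nil)))) (.nil)))) (.nil))))
noncomputable def r87_34 : Rw Blk := .tok (nat_lit 3) (nat_lit 0x2f00005e0000c08e3d8185db025dc) (.hit (nat_lit 0) (nat_lit 0) (nat_lit 0x2f00005e0000c08e3d8185db025dc) b60214 (.tok (nat_lit 9) (nat_lit 0x2f00005e0000c062898143bb0243b) (.hit (nat_lit 1) (nat_lit 20) (nat_lit 0x2f00005e0000bff465806773008b2) b60215 (.hit (nat_lit 4) (nat_lit 28) (nat_lit 0x2f00005e0000bf86197f8adafed1f) b60218 (.one (nat_lit 56) (nat_lit 5) (nat_lit 31) (nat_lit 0x2f00005e0000bff6f5806c9300956) b60219 (.tok (nat_lit 68) (nat_lit 0x2f00005e0000c062898143bb0243b) (.hit (nat_lit 2) (nat_lit 26) (nat_lit 0x2f00005e0000bfef9d805de300780)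 b60216 (.hit (nat_lit 6) (nat_lit 32) (nat_lit 0x2f00005e0000bfda0d8032c30021c) b60220 (.one (nat_lit 9) (nat_lit 3) (nat_lit 27) (nat_lit 0x2f00005e0000c062898143bb0243b) b60217 (.nil)))) (.nil))))) (.nil))) (.tok (nat_lit 6) (nat_lit 0x2f00005e0000c10ae182b173051ad) (.hit (nat_lit 17) (nat_lit 0) (nat_lit 0x2f00005e0000c0c4f5827a2303cb6) b60221 (.tok (nat_lit 6) (nat_lit 0x2f00005e0000c095f981c91b03165) (.hit (nat_lit 18) (nat_lit 7) (nat_lit 0x2f00005e0000c095f981c91b03165) b60222 (.hit (nat_lit 19) (nat_lit 15) (nat_lit 0x2f00005e0000bfe55d807d5b00c3a) b60223 (.nil))) (.tok (nat_lit 52) (nat_lit 0x2f00005e0000c0f27582b173046c0) (.hit (nat_lit 21) (nat_lit 39) (nat_lit 0x2f00005e0000c0f27582b173040cb) b60224 (.hit (nat_lit 22) (nat_lit 40) (nat_lit 0x2f00005e0000c0f161824fc3046c0) b60225 (.nil))) (.tok (nat_lit 55) (nat_lit 0x2f00005e0000c10745824a9b03ef9) (.hit (nat_lit 23)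 (nat_lit 41) (nat_lit 0x2f00005e0000c10745824a9b03ef9) b60226 (.one (nat_lit 3) (nat_lit 26) (nat_lit 47) (nat_lit 0x2f00005e0000c0cba981aecb0330a) b60229 (.tok (nat_lit 6) (nat_lit 0x2f00005e0000c0a42981e01303004) (.hit (nat_lit 24) (nat_lit 42) (nat_lit 0x2f00005e0000c09c5581e01303004) b60227 (.hit (nat_lit 25) (nat_lit 45) (nat_lit 0x2f00005e0000c0a429819b5b02f57) b60228 (.nil))) (.nil)))) (.one (nat_lit 58) (nat_lit 27) (nat_lit 49) (nat_lit 0x2f00005e0000c10ae182ad23051ad) b60230 (.nil)))))) (.nil))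
noncomputable def r87_35 : Rw Blk := .tok (nat_lit 3) (nat_lit 0x5e0000bc00017f00b2ff348) (.hit (nat_lit 15) (nat_lit 0) (nat_lit 0x5e0000bc00017e858afe686) b60242 (.tok (nat_lit 9) (nat_lit 0x5e0000bc00017e3cdafcbd5) (.hit (nat_lit 16) (nat_lit 20) (nat_lit 0x5e0000bc00017d1652fa704) b60243 (.hit (nat_lit 21) (nat_lit 28) (nat_lit 0x5e0000bc00017c6a5af9185) b60246 (.one (nat_lit 56) (nat_lit 23) (nat_lit 31) (nat_lit 0x5e0000bc00017db07afba49) b60247 (.tok (nat_lit 68) (nat_lit 0x5e0000bc00017e3cdafcbd5) (.hit (nat_lit 19) (nat_lit 26) (nat_lit 0x5e0000bc00017db322fba9e) b60244 (.hit (nat_lit 24) (nat_lit 32) (nat_lit 0x5e0000bc00017dff62fc426) b60248 (.one (nat_lit 9) (nat_lit 20) (nat_lit 27) (nat_lit 0x5e0000bc00017e3cdafcbd5) b60245 (.nil)))) (.nil))))) (.tok (nat_lit 64) (nat_lit 0x5e0000bc00017e6c7afd1c9) (.hit (nat_lit 25) (nat_lit 50) (nat_lit 0x5e0000bc00017e33cafcab3)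 b60249 (.hit (nat_lit 26) (nat_lit 51) (nat_lit 0x5e0000bc00017e6c7afd1c9) b60250 (.nil))) (.tok (nat_lit 67) (nat_lit 0x5e0000bc00017f00b2ff348) (.hit (nat_lit 27) (nat_lit 52) (nat_lit 0x5e0000bc00017ec662ff348) b60251 (.one (nat_lit 3) (nat_lit 33) (nat_lit 58) (nat_lit 0x5e0000bc00017ea4f2fd8d8) b60257 (.tok (nat_lit 9) (nat_lit 0x5e0000bc00017f00b2feb3c) (.hit (nat_lit 28) (nat_lit 53) (nat_lit 0x5e0000bc00017eac7afeb3c) b60252 (.hit (nat_lit 31) (nat_lit 56) (nat_lit 0x5e0000bc00017e8e5afd605) b60255 (.tok (nat_lit 67) (nat_lit 0x5e0000bc00017f00b2fea47) (.hit (nat_lit 29) (nat_lit 54) (nat_lit 0x5e0000bc00017f00b2fea47) b60253 (.hit (nat_lit 32) (nat_lit 57) (nat_lit 0x5e0000bc00017e9202fd67a) b60256 (.one (nat_lit 9) (nat_lit 30) (nat_lit 55) (nat_lit 0x5e0000bc00017ef61afe2fd) b60254 (.nil)))) (.nil)))) (.nil)))) (.one (nat_lit 70) (nat_lit 35) (nat_lit 60) (nat_lit 0x5e0000bc00017ea08afd84b)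 b60258 (.nil)))))) (.tok (nat_lit 6) (nat_lit 0x5e0000bc00018059f301584) (.hit (nat_lit 0) (nat_lit 0) (nat_lit 0x5e0000bc00017eb5d2fdc41) b60231 (.tok (nat_lit 6) (nat_lit 0x5e0000bc00017e7232fd2f3) (.hit (nat_lit 1) (nat_lit 7) (nat_lit 0x5e0000bc00017e54b2fd2f3) b60232 (.hit (nat_lit 4) (nat_lit 15) (nat_lit 0x5e0000bc00017e5ae2fb794) b60233 (.one (nat_lit 68) (nat_lit 6) (nat_lit 18) (nat_lit 0x5e0000bc00017e7232fcf81) b60234 (.nil)))) (.tok (nat_lit 52) (nat_lit 0x5e0000bc00017ed2d2fdb75) (.hit (nat_lit 7) (nat_lit 39) (nat_lit 0x5e0000bc00017ed2d2fdb75) b60235 (.hit (nat_lit 8) (nat_lit 40) (nat_lit 0x5e0000bc00017e9d3afce9b) b60236 (.nil))) (.tok (nat_lit 55) (nat_lit 0x5e0000bc00018059f301584) (.hit (nat_lit 9) (nat_lit 41) (nat_lit 0x5e0000bc00017fa2b300964) b60237 (.one (nat_lit 3) (nat_lit 12) (nat_lit 47) (nat_lit 0x5e0000bc00018059f301584) b60240 (.tok (nat_lit 6)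 (nat_lit 0x5e0000bc00017f077aff5b2) (.hit (nat_lit 10) (nat_lit 42) (nat_lit 0x5e0000bc00017f077aff5b2) b60238 (.hit (nat_lit 11) (nat_lit 45) (nat_lit 0x5e0000bc00017eca9afdcbe) b60239 (.nil))) (.nil)))) (.one (nat_lit 58) (nat_lit 14) (nat_lit 49) (nat_lit 0x5e0000bc00017e346afda55) b60241 (.nil)))))) (.nil))
noncomputable def r88_0 : Rw Blk := .tok (nat_lit 9) (nat_lit 0xc000017f5132fe3bd5fd8e8bfb2a57f2fbafe4ec5ffa30bfa8e5800002ffb60) (.hit (nat_lit 157) (nat_lit 0) (nat_lit 0xbf76b17ec682fd0365fb69cbf72b17eb3dafd9835fc66abf6e817f20cafe1fc) b60259 (.tok (nat_lit 14) (nat_lit 0xc000017f475afe3bd5fd8e8bfb2a57f2fbafdeca5ffa30bfa8e5800002ffb60) (.hit (nat_lit 193) (nat_lit 61) (nat_lit 0xbfcaa97f3ddafe3bd5fc7ecbf8fd97f2fbafdeca5fd89abf90b97fed72ffb60) b60260 (.one (nat_lit 3) (nat_lit 194) (nat_lit 62) (nat_lit 0xbf94117ece8afdec65fa69ebf4a397e5a82fc4235fb0cabf3d2d7f7652fe32f)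 b60261 (.tok (nat_lit 6) (nat_lit 0xc000017f475afe2d25fd8e8bfb2a57ee2fafd5325ffa30bfa8e5800002ff865) (.hit (nat_lit 197) (nat_lit 65) (nat_lit 0xc000017f475afdc925fd8e8bfb2a57ee2fafd5325ffa30bfa8e5800002ff865) b60264 (.hit (nat_lit 198) (nat_lit 66) (nat_lit 0xbf88b97e8d0afe2d25fa426bf48317e7b62fc83f5fb0ccbf3cf97f43d2fe40a) b60265 (.nil))) (.tok (nat_lit 9) (nat_lit 0xbf9f8d7ec542fda035fb330bf6e317ed4bafd36a5fc1dabf63397fbf92fee48) (.hit (nat_lit 195) (nat_lit 63) (nat_lit 0xbf3de57e03dafd1cd5fb12cbf62597ed4bafd36a5fc1dabf63397eeb22fda3d) b60262 (.hit (nat_lit 196) (nat_lit 64) (nat_lit 0xbf9f8d7ec542fda035fb330bf6e317e6652fc59d5fbc0cbf53957fbf92fee48) b60263 (.nil))) (.nil))))) (.one (nat_lit 17) (nat_lit 199) (nat_lit 67) (nat_lit 0xbf5e797e8d22fd17b5f89d0bf13497e21eafbd105f993ebf09d17ed4bafd262) b60266 (.tok (nat_lit 20) (nat_lit 0xbf57d57e21dafcda85fab82bf57057ebe12fd0955fbc30bf57e57ed47afd768)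 (.hit (nat_lit 200) (nat_lit 68) (nat_lit 0xbf32917ded32fcda85fab82bf57057ebe12fd0955fbc30bf57e57ed47afd768) b60267 (.hit (nat_lit 201) (nat_lit 69) (nat_lit 0xbf57d57e21dafc25c5f87bcbf0d297e01bafb90a5f95ecbf01a97ec752fd529) b60268 (.nil))) (.tok (nat_lit 23) (nat_lit 0xbfa7117f267afdb885fc77ebf87b57e98bafcbea5fdd1abf73157fd3faff5d2) (.hit (nat_lit 202) (nat_lit 70) (nat_lit 0xbfa7117f267afdb885fc77ebf87b57e98bafcbea5fdd1abf73157fd3faff5d2) b60269 (.hit (nat_lit 203) (nat_lit 71) (nat_lit 0xbf5b217e16bafd7f35f8914bf10497e0252fb91d5f95d0bf04f57ecd6afd5fc) b60270 (.nil))) (.one (nat_lit 26) (nat_lit 204) (nat_lit 72) (nat_lit 0xbf36817dcd82fbe245f76acbeeb957d9a02fac135f859abee0557e848afccd4) b60271 (.one (nat_lit 29) (nat_lit 205) (nat_lit 73) (nat_lit 0xbf3d357e16dafc6ec5f79dcbef2717d912afaaf85f893cbee7097e91f2fce81) b60272 (.one (nat_lit 32) (nat_lit 206) (nat_lit 74) (nat_lit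 0xbf58b97e4b8afcb625f878abf0df57d87c2fa9cb5f96e2bf028d7ec8fafd562) b60273 (.one (nat_lit 35) (nat_lit 207) (nat_lit 75) (nat_lit 0xbf09757d9b72fccc35f6ac4bed5897dbb1afb0365f7b72bed6697e2a12fc191) b60274 (.one (nat_lit 38) (nat_lit 208) (nat_lit 76) (nat_lit 0xbf4a917e1dcafccee5f8af2bf0c5d7e28c2fbdeb5f96dcbf0d3d7eac5afd1cb) b60275 (.tok (nat_lit 41) (nat_lit 0xbf5e657e8ccafd1d15f8b5ebf13f97ddc42fb45b5fa6debf08417eda3afd6d2) (.hit (nat_lit 209) (nat_lit 77) (nat_lit 0xbf36997e3c8afcaf65f781abeece97d3142f9efb5f822ebee0817eda3afd5a5) b60276 (.hit (nat_lit 210) (nat_lit 78) (nat_lit 0xbf5e657e8ccafd1d15f8b5ebf13f97ddc42fb45b5fa6debf08417ed352fd6d2) b60277 (.nil))) (.tok (nat_lit 44) (nat_lit 0xbf5ce17e4662fc7365f8a62bf12597e2042fbcdb5f9ae2bf08fd7ed162fd66c) (.hit (nat_lit 211) (nat_lit 79) (nat_lit 0xbee3a97d4f62fbe675f840ebf081d7e2042fbcdb5f94bcbf08fd7e36aafc3ae) b60278 (.hit (nat_lit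 212) (nat_lit 80) (nat_lit 0xbf5ce17e4662fc7365f8a62bf12597deff2fb6d15f9ae2bf06bd7ed162fd66c) b60279 (.nil))) (.tok (nat_lit 47) (nat_lit 0xbf704d7edffafda1e5fa650bf50857dad92fae855fb588bf304d7f060afda38) (.hit (nat_lit 213) (nat_lit 81) (nat_lit 0xbf704d7edffafda1e5fa650bf50857dad92fae855fb588bf304d7f060afda38) b60280 (.hit (nat_lit 214) (nat_lit 82) (nat_lit 0xbf4d317dfb92fc9b75f8258bf02617dacaafae685f8fecbef7057eb18afd280) b60281 (.nil))) (.one (nat_lit 62) (nat_lit 224) (nat_lit 92) (nat_lit 0xbf6f2d7e5ea2fd0b75f9338bf245d7df902fb7f35fa1f6bf18f57ef5cafdafc) b60282 (.tok (nat_lit 65) (nat_lit 0xbf730d7f124afdda95faa1cbf507d7e8fe2fcacf5fb46abf44ed7f49b2fe7b8) (.hit (nat_lit 225) (nat_lit 93) (nat_lit 0xbf730d7f124afdda95faa1cbf507d7e8fe2fcacf5fb46abf44ed7f49b2fe7b8) b60283 (.hit (nat_lit 226) (nat_lit 94) (nat_lit 0xbf62097e62dafd1625f8c46bf174d7dfc1afb8565f9bb4bf0bdd7edb8afd596)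 b60284 (.nil))) (.tok (nat_lit 68) (nat_lit 0xbfce697f5132fe11b5fce4cbf9e517f108afe4ec5febaabf91017fb312ff077) (.hit (nat_lit 227) (nat_lit 95) (nat_lit 0xbfce0d7f5132fdcd35fc4ccbf953d7f0abafe4ec5fe058bf8ab97f7b5afe6d9) b60285 (.one (nat_lit 3) (nat_lit 231) (nat_lit 99) (nat_lit 0xbf9f7d7ec65afd54d5fab6cbf56b97ea252fcd1d5fc472bf4a057f431afe548) b60289 (.one (nat_lit 6) (nat_lit 228) (nat_lit 96) (nat_lit 0xbfc3117f4632fdc465fce4cbf9e517f108afdae45febaabf91017fb312ff077) b60286 (.tok (nat_lit 9) (nat_lit 0xbfce697ee682fe11b5fc61ebf8b497ed6c2fd3ab5fca6ebf72ed7f8b42fedac) (.hit (nat_lit 229) (nat_lit 97) (nat_lit 0xbfce697ee682fe11b5fc61ebf8b497ed6c2fd3ab5fca6ebf72ed7f8b42fedac) b60287 (.hit (nat_lit 230) (nat_lit 98) (nat_lit 0xbf667d7edda2fdc275f9582bf2b057e6612fc5955fa630bf2be57ee8b2fd8a2) b60288 (.nil))) (.nil))))) (.one (nat_lit 71) (nat_lit 232) (nat_lit 100) (nat_lit 0xbf52ed7e0d6afca985f840abf07c97d61c2fa50b5f9356befcc17ebd62fd3ef)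 b60290 (.nil)))))))))))))))))) (.tok (nat_lit 64) (nat_lit 0xbfe8d9800003005e55ff01ebffb19810c8301077600000bffd417f8822ff27f) (.hit (nat_lit 377) (nat_lit 0) (nat_lit 0xbfe8d97fb2db001f65ff01ebfef8580b20b01077600000bfeb357f8822ff27f) b60291 (.tok (nat_lit 6) (nat_lit 0xbfcbc17fe933005e55fe2eebfd4917fe8d2ffc685fee08bfd0697f7fe2ff177) (.hit (nat_lit 378) (nat_lit 7) (nat_lit 0xbfaba57ed56b005e55fe2eebfc5dd7fa802fec4b5fda28bfc5dd7f7fe2ff177) b60292 (.hit (nat_lit 379) (nat_lit 15) (nat_lit 0xbfcbc17fe932ffcec5fdedcbfd4917fe8d2ffc685fee08bfd0697f41cafe9b4) b60293 (.nil))) (.tok (nat_lit 9) (nat_lit 0xbfe465800002ff4f45fee8abffb19810c8300d735fff76bffd417f70dafef96) (.hit (nat_lit 380) (nat_lit 20) (nat_lit 0xbfe465800002ff4f45fee8abffb19810c8300d735fff76bffd417f70dafef96) b60294 (.hit (nat_lit 381) (nat_lit 28) (nat_lit 0xbfb5e57f89aafe83e5fd5b2bfc2457f6402fed445fe594bfbe217f21bafe5b2)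 b60295 (.nil))) (.nil)))) (.tok (nat_lit 67) (nat_lit 0xbfe5c97f49b300101600000c00001801c4affad45ff73ac000017ff42b00000) (.hit (nat_lit 388) (nat_lit 0) (nat_lit 0xbfe54d7f2b1aff0795fe280bfc5017fa64aff2555fd9babfc5017fa4b2ff65e) b60296 (.tok (nat_lit 3) (nat_lit 0xbfb41d7ee65aff7525fe72abfce557fb8f2fee695fde64bfce557f90d2ff395) (.hit (nat_lit 389) (nat_lit 1) (nat_lit 0xbf4b917e1542fde0f5fb2e4bf65c97ee7dafd4465faa1ebf65c97ebfbafd972) b60297 (.one (nat_lit 55) (nat_lit 390) (nat_lit 3) (nat_lit 0xbfb41d7ee65aff7525fe72abfce557fb8f2fee695fde64bfce557f90d2ff395) b60298 (.nil))) (.tok (nat_lit 9) (nat_lit 0xbfe5c97f49b300101600000c00001801c4affad45ff73ac000017ff42b00000) (.hit (nat_lit 391) (nat_lit 20) (nat_lit 0xbf70697e5ef2fe15a5fc550bf8aa17f318afdd7c5fbc8abf8aa17f096afe2a8) b60299 (.hit (nat_lit 394) (nat_lit 28) (nat_lit 0xbf32997de352fdc075fa668bf4cd17eb5eafce085f9da2bf4cd17e8dcafd334)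 b60302 (.tok (nat_lit 67) (nat_lit 0xbfe5c97f49b300101600000c00001801c4affad45ff73ac000017ff42b00000) (.hit (nat_lit 392) (nat_lit 21) (nat_lit 0xbfc73d7f0c9affda35ff0babfe1757fdf32ff3315fe7f4bfe1757fb712ff85d) b60300 (.hit (nat_lit 395) (nat_lit 29) (nat_lit 0xbf9af97eb412ff3b85fda98bfb5317f86aafe8205fd1d2bfb5317f5e8afed4c) b60303 (.one (nat_lit 9) (nat_lit 393) (nat_lit 22) (nat_lit 0xbfe5c97f49b300101600000c00001801c4affad45ff73ac000017ff42b00000) b60301 (.nil)))) (.nil)))) (.nil)))) (.tok (nat_lit 70) (nat_lit 0xbfb7417eeca2fea6a5fe8bcbfd1797fbf3afef325fdff6bfd1797f971aff45e) (.hit (nat_lit 402) (nat_lit 0) (nat_lit 0xbfae717eb59afe9ff5fc71cbf8e397f442afe9385fbe56bf8e397f7aeafed30) b60304 (.tok (nat_lit 3) (nat_lit 0xbfb7417eeca2fea6a5fe8bcbfd1797fbf3afef325fdff6bfd1797f971aff45e) (.hit (nat_lit 403) (nat_lit 1) (nat_lit 0xbf5b417e34a2fe3875fbabcbf75797f073afd8325fb1f6bf75797edf1afdd5e)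 b60305 (.one (nat_lit 67) (nat_lit 404) (nat_lit 2) (nat_lit 0xbfb7417eeca2fea6a5fe8bcbfd1797fbf3afef325fdff6bfd1797f971aff45e) b60306 (.nil))) (.tok (nat_lit 6) (nat_lit 0xbf63557e44cafe25f5fbec6bf7d8d7f1762fda375fb600bf7d8d7eef42fdf63) (.hit (nat_lit 405) (nat_lit 7) (nat_lit 0xbf63557e44cafdfbf5fbec6bf7d8d7f1762fda375fb600bf7d8d7eef42fdf63) b60307 (.hit (nat_lit 408) (nat_lit 15) (nat_lit 0xbf59157e304afe25f5fb9a6bf734d7f02e2fd7a75fb0e0bf734d7edac2fdcd3) b60308 (.nil))) (.nil)))) (.nil))))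
noncomputable def r88_1 : Rw Blk := .tok (nat_lit 14) (nat_lit 0xbc0001780002fd89e) (.hit (nat_lit 140) (nat_lit 0) (nat_lit 0xbc0001780002fd89e) b60326 (.one (nat_lit 3) (nat_lit 141) (nat_lit 1) (nat_lit 0xbc0001780002fae93) b60327 (.tok (nat_lit 6) (nat_lit 0xbc0001780002fceb2) (.hit (nat_lit 142) (nat_lit 7) (nat_lit 0xbc0001780002fcd13) b60328 (.hit (nat_lit 143) (nat_lit 15) (nat_lit 0xbc0001780002fceb2) b60329 (.nil))) (.tok (nat_lit 9) (nat_lit 0xbc0001780002fd296) (.hit (nat_lit 144) (nat_lit 20) (nat_lit 0xbc0001780002fcd13) b60328 (.hit (nat_lit 145) (nat_lit 28) (nat_lit 0xbc0001780002fd296) b60330 (.nil))) (.nil))))) (.tok (nat_lit 17) (nat_lit 0xbc0001780002fd8f1) (.hit (nat_lit 134) (nat_lit 0) (nat_lit 0xbc0001780002fd8f1) b60320 (.one (nat_lit 3) (nat_lit 135) (nat_lit 1) (nat_lit 0xbc0001780002fa986) b60321 (.tok (nat_lit 6) (nat_lit 0xbc0001780002fcca7) (.hit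 (nat_lit 136) (nat_lit 7) (nat_lit 0xbc0001780002fc4b0) b60322 (.hit (nat_lit 137) (nat_lit 15) (nat_lit 0xbc0001780002fcca7) b60323 (.nil))) (.tok (nat_lit 9) (nat_lit 0xbc0001780002fcfa7) (.hit (nat_lit 138) (nat_lit 20) (nat_lit 0xbc0001780002fc7a6) b60324 (.hit (nat_lit 139) (nat_lit 28) (nat_lit 0xbc0001780002fcfa7) b60325 (.nil))) (.nil))))) (.tok (nat_lit 20) (nat_lit 0xbc0001780002fd963) (.hit (nat_lit 122) (nat_lit 0) (nat_lit 0xbc0001780002fd963) b60309 (.one (nat_lit 3) (nat_lit 123) (nat_lit 1) (nat_lit 0xbc0001780002fb20c) b60310 (.tok (nat_lit 6) (nat_lit 0xbc0001780002fcf91) (.hit (nat_lit 124) (nat_lit 7) (nat_lit 0xbc0001780002fc8b2) b60311 (.hit (nat_lit 125) (nat_lit 15) (nat_lit 0xbc0001780002fcf91) b60312 (.nil))) (.tok (nat_lit 9) (nat_lit 0xbc0001780002fd1a9) (.hit (nat_lit 126) (nat_lit 20) (nat_lit 0xbc0001780002fc97f) b60313 (.hit (nat_lit 127) (nat_lit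 28) (nat_lit 0xbc0001780002fd1a9) b60314 (.nil))) (.nil))))) (.tok (nat_lit 23) (nat_lit 0xbc0001780002ff49f) (.hit (nat_lit 128) (nat_lit 0) (nat_lit 0xbc0001780002ff49f) b60315 (.one (nat_lit 3) (nat_lit 129) (nat_lit 1) (nat_lit 0xbc0001780002fe717) b60316 (.tok (nat_lit 6) (nat_lit 0xbc0001780002fe871) (.hit (nat_lit 130) (nat_lit 7) (nat_lit 0xbc0001780002fe871) b60317 (.hit (nat_lit 131) (nat_lit 15) (nat_lit 0xbc0001780002fe2c2) b60318 (.nil))) (.tok (nat_lit 9) (nat_lit 0xbc0001780002fe4d7) (.hit (nat_lit 132) (nat_lit 20) (nat_lit 0xbc0001780002fc97f) b60313 (.hit (nat_lit 133) (nat_lit 28) (nat_lit 0xbc0001780002fe4d7) b60319 (.nil))) (.nil))))) (.tok (nat_lit 26) (nat_lit 0xbc0001780002ff592) (.hit (nat_lit 260) (nat_lit 0) (nat_lit 0xbc0001780002ff592) b60377 (.one (nat_lit 3) (nat_lit 261) (nat_lit 1) (nat_lit 0xbc0001780002fab18) b60378 (.tok (nat_lit 6) (nat_lit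 0xbc0001780002fbcf3) (.hit (nat_lit 262) (nat_lit 7) (nat_lit 0xbc0001780002fbc7c) b60379 (.hit (nat_lit 263) (nat_lit 15) (nat_lit 0xbc0001780002fbcf3) b60380 (.nil))) (.tok (nat_lit 9) (nat_lit 0xbc0001780002fd8ba) (.hit (nat_lit 264) (nat_lit 20) (nat_lit 0xbc0001780002fd8ba) b60381 (.hit (nat_lit 265) (nat_lit 28) (nat_lit 0xbc0001780002fa972) b60382 (.nil))) (.nil))))) (.tok (nat_lit 29) (nat_lit 0xbc0001780002fdaf5) (.hit (nat_lit 266) (nat_lit 0) (nat_lit 0xbc0001780002fdaf5) b60383 (.one (nat_lit 3) (nat_lit 267) (nat_lit 1) (nat_lit 0xbc0001780002fad7a) b60384 (.tok (nat_lit 6) (nat_lit 0xbc0001780002fd007) (.hit (nat_lit 268) (nat_lit 7) (nat_lit 0xbc0001780002fcd58) b60385 (.hit (nat_lit 269) (nat_lit 15) (nat_lit 0xbc0001780002fd007) b60386 (.nil))) (.tok (nat_lit 9) (nat_lit 0xbc0001780002fc9be) (.hit (nat_lit 270) (nat_lit 20) (nat_lit 0xbc0001780002fba23) b60357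 (.hit (nat_lit 271) (nat_lit 28) (nat_lit 0xbc0001780002fc9be) b60387 (.nil))) (.nil))))) (.tok (nat_lit 32) (nat_lit 0xbc0001780002ff808) (.hit (nat_lit 272) (nat_lit 0) (nat_lit 0xbc0001780002ff808) b60388 (.one (nat_lit 3) (nat_lit 273) (nat_lit 1) (nat_lit 0xbc0001780002fbb23) b60389 (.tok (nat_lit 6) (nat_lit 0xbc0001780002fd2ae) (.hit (nat_lit 274) (nat_lit 7) (nat_lit 0xbc0001780002fd2ae) b60390 (.hit (nat_lit 275) (nat_lit 15) (nat_lit 0xbc0001780002fced5) b60391 (.nil))) (.tok (nat_lit 9) (nat_lit 0xbc0001780002fd0b1) (.hit (nat_lit 276) (nat_lit 20) (nat_lit 0xbc0001780002fcd36) b60392 (.hit (nat_lit 277) (nat_lit 28) (nat_lit 0xbc0001780002fd0b1) b60393 (.nil))) (.nil))))) (.tok (nat_lit 35) (nat_lit 0xbc0001780002fe826) (.hit (nat_lit 278) (nat_lit 0) (nat_lit 0xbc0001780002fe826) b60394 (.one (nat_lit 3) (nat_lit 279) (nat_lit 1) (nat_lit 0xbc0001780002fb20c) b60310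 (.tok (nat_lit 6) (nat_lit 0xbc0001780002fba05) (.hit (nat_lit 280) (nat_lit 7) (nat_lit 0xbc0001780002fba05) b60395 (.hit (nat_lit 281) (nat_lit 15) (nat_lit 0xbc0001780002fa7e4) b60396 (.nil))) (.tok (nat_lit 9) (nat_lit 0xbc0001780002fc93f) (.hit (nat_lit 282) (nat_lit 20) (nat_lit 0xbc0001780002fc6ca) b60397 (.hit (nat_lit 283) (nat_lit 28) (nat_lit 0xbc0001780002fc93f) b60398 (.nil))) (.nil))))) (.tok (nat_lit 38) (nat_lit 0xbc0001780002fed11) (.hit (nat_lit 215) (nat_lit 0) (nat_lit 0xbc0001780002fed11) b60353 (.one (nat_lit 3) (nat_lit 216) (nat_lit 1) (nat_lit 0xbc0001780002fb68e) b60354 (.tok (nat_lit 6) (nat_lit 0xbc0001780002fcbb0) (.hit (nat_lit 217) (nat_lit 7) (nat_lit 0xbc0001780002fcbb0) b60355 (.hit (nat_lit 218) (nat_lit 15) (nat_lit 0xbc0001780002fba88) b60356 (.nil))) (.tok (nat_lit 9) (nat_lit 0xbc0001780002fba23) (.hit (nat_lit 219) (nat_lit 20) (nat_lit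 0xbc0001780002fba23) b60357 (.hit (nat_lit 220) (nat_lit 28) (nat_lit 0xbc0001780002fb3f8) b60358 (.nil))) (.nil))))) (.tok (nat_lit 41) (nat_lit 0xbc000178000301161) (.hit (nat_lit 226) (nat_lit 0) (nat_lit 0xbc0001780002ff58d) b60359 (.one (nat_lit 3) (nat_lit 227) (nat_lit 1) (nat_lit 0xbc0001780002fec7a) b60360 (.tok (nat_lit 6) (nat_lit 0xbc0001780002ff927) (.hit (nat_lit 228) (nat_lit 7) (nat_lit 0xbc0001780002ff927) b60361 (.hit (nat_lit 229) (nat_lit 15) (nat_lit 0xbc0001780002fea53) b60362 (.nil))) (.tok (nat_lit 9) (nat_lit 0xbc000178000301161) (.hit (nat_lit 230) (nat_lit 20) (nat_lit 0xbc000178000301161) b60363 (.hit (nat_lit 231) (nat_lit 28) (nat_lit 0xbc0001780002fec7f) b60364 (.nil))) (.nil))))) (.tok (nat_lit 44) (nat_lit 0xbc0001780002ff7f2) (.hit (nat_lit 240) (nat_lit 0) (nat_lit 0xbc0001780002ff7f2) b60365 (.one (nat_lit 3) (nat_lit 241) (nat_lit 1) (nat_lit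 0xbc0001780002fbcc1) b60366 (.tok (nat_lit 6) (nat_lit 0xbc0001780002fc0b0) (.hit (nat_lit 242) (nat_lit 7) (nat_lit 0xbc0001780002fc0b0) b60367 (.hit (nat_lit 243) (nat_lit 15) (nat_lit 0xbc0001780002fb901) b60368 (.nil))) (.tok (nat_lit 9) (nat_lit 0xbc0001780002fd32f) (.hit (nat_lit 244) (nat_lit 20) (nat_lit 0xbc0001780002fd14b) b60369 (.hit (nat_lit 245) (nat_lit 28) (nat_lit 0xbc0001780002fd32f) b60370 (.nil))) (.nil))))) (.tok (nat_lit 47) (nat_lit 0xbc000178000300f6d) (.hit (nat_lit 254) (nat_lit 0) (nat_lit 0xbc0001780002ff33b) b60371 (.one (nat_lit 3) (nat_lit 255) (nat_lit 1) (nat_lit 0xbc0001780002fda2c) b60372 (.tok (nat_lit 6) (nat_lit 0xbc000178000300f6d) (.hit (nat_lit 256) (nat_lit 7) (nat_lit 0xbc000178000300f6d) b60373 (.hit (nat_lit 257) (nat_lit 15) (nat_lit 0xbc0001780002fe59d) b60374 (.nil))) (.tok (nat_lit 9) (nat_lit 0xbc0001780002ff795) (.hit (nat_lit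 258) (nat_lit 20) (nat_lit 0xbc0001780002ff795) b60375 (.hit (nat_lit 259) (nat_lit 28) (nat_lit 0xbc0001780002fe3eb) b60376 (.nil))) (.nil))))) (.tok (nat_lit 62) (nat_lit 0xbc0001780002fd916) (.hit (nat_lit 170) (nat_lit 0) (nat_lit 0xbc0001780002fd916) b60331 (.one (nat_lit 3) (nat_lit 171) (nat_lit 1) (nat_lit 0xbc0001780002fb24f) b60332 (.tok (nat_lit 6) (nat_lit 0xbc0001780002fba48) (.hit (nat_lit 172) (nat_lit 7) (nat_lit 0xbc0001780002fba48) b60333 (.hit (nat_lit 173) (nat_lit 15) (nat_lit 0xbc0001780002fb73c) b60334 (.nil))) (.tok (nat_lit 9) (nat_lit 0xbc0001780002fcd79) (.hit (nat_lit 174) (nat_lit 20) (nat_lit 0xbc0001780002fcd79) b60335 (.hit (nat_lit 175) (nat_lit 28) (nat_lit 0xbc0001780002fba9b) b60336 (.nil))) (.nil))))) (.tok (nat_lit 65) (nat_lit 0xbc0001780002fea45) (.hit (nat_lit 181) (nat_lit 0) (nat_lit 0xbc0001780002fe9d5) b60337 (.one (nat_lit 3) (nat_lit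 182) (nat_lit 1) (nat_lit 0xbc0001780002fe315) b60338 (.tok (nat_lit 6) (nat_lit 0xbc0001780002fe3da) (.hit (nat_lit 183) (nat_lit 7) (nat_lit 0xbc0001780002fc0f3) b60339 (.hit (nat_lit 184) (nat_lit 15) (nat_lit 0xbc0001780002fe3da) b60340 (.nil))) (.tok (nat_lit 9) (nat_lit 0xbc0001780002fea45) (.hit (nat_lit 185) (nat_lit 20) (nat_lit 0xbc0001780002fea45) b60341 (.hit (nat_lit 186) (nat_lit 28) (nat_lit 0xbc0001780002fe16d) b60342 (.nil))) (.nil))))) (.tok (nat_lit 68) (nat_lit 0xbc0001780002fd97a) (.hit (nat_lit 209) (nat_lit 0) (nat_lit 0xbc0001780002fd97a) b60349 (.one (nat_lit 3) (nat_lit 210) (nat_lit 1) (nat_lit 0xbc0001780002fb20c) b60310 (.tok (nat_lit 6) (nat_lit 0xbc0001780002fd15e) (.hit (nat_lit 211) (nat_lit 7) (nat_lit 0xbc0001780002fc362) b60350 (.hit (nat_lit 212) (nat_lit 15) (nat_lit 0xbc0001780002fd15e) b60351 (.nil))) (.tok (nat_lit 9) (nat_lit 0xbc0001780002fcd13)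 (.hit (nat_lit 213) (nat_lit 20) (nat_lit 0xbc0001780002fcd13) b60328 (.hit (nat_lit 214) (nat_lit 28) (nat_lit 0xbc0001780002fb37a) b60352 (.nil))) (.nil))))) (.tok (nat_lit 71) (nat_lit 0xbc0001780002fdfe1) (.hit (nat_lit 195) (nat_lit 0) (nat_lit 0xbc0001780002fdfe1) b60343 (.one (nat_lit 3) (nat_lit 196) (nat_lit 1) (nat_lit 0xbc0001780002fc3b9) b60344 (.tok (nat_lit 6) (nat_lit 0xbc0001780002fd6c0) (.hit (nat_lit 197) (nat_lit 7) (nat_lit 0xbc0001780002fcd2a) b60345 (.hit (nat_lit 198) (nat_lit 15) (nat_lit 0xbc0001780002fd6c0) b60346 (.nil))) (.tok (nat_lit 9) (nat_lit 0xbc0001780002fd0b5) (.hit (nat_lit 199) (nat_lit 20) (nat_lit 0xbc0001780002fd0b5) b60347 (.hit (nat_lit 200) (nat_lit 28) (nat_lit 0xbc0001780002fd07a) b60348 (.nil))) (.nil))))) (.nil))))))))))))))))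
noncomputable def r88_2 : Rw Blk := .tok (nat_lit 3) (nat_lit 0xbc0001780002feb9c) (.hit (nat_lit 18) (nat_lit 0) (nat_lit 0xbc0001780002feb69) b60413 (.tok (nat_lit 6) (nat_lit 0xbc0001780002feb9c) (.hit (nat_lit 19) (nat_lit 7) (nat_lit 0xbc0001780002feb9c) b60414 (.hit (nat_lit 20) (nat_lit 15) (nat_lit 0xbc0001780002fdb78) b60415 (.nil))) (.tok (nat_lit 9) (nat_lit 0xbc0001780002fe1dd) (.hit (nat_lit 21) (nat_lit 20) (nat_lit 0xbc0001780002fc774) b60416 (.hit (nat_lit 22) (nat_lit 28) (nat_lit 0xbc0001780002fe1dd) b60417 (.nil))) (.nil)))) (.tok (nat_lit 6) (nat_lit 0xbc000178000301cd7) (.hit (nat_lit 9) (nat_lit 0) (nat_lit 0xbc0001780002fea09) b60408 (.tok (nat_lit 3) (nat_lit 0xbc000178000301cd7) (.hit (nat_lit 10) (nat_lit 1) (nat_lit 0xbc0001780002fe62d) b60409 (.one (nat_lit 67) (nat_lit 11) (nat_lit 2) (nat_lit 0xbc000178000301cd7) b60410 (.nil))) (.tok (nat_lit 6)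 (nat_lit 0xbc0001780003009d4) (.hit (nat_lit 12) (nat_lit 7) (nat_lit 0xbc0001780003009d4) b60411 (.hit (nat_lit 16) (nat_lit 15) (nat_lit 0xbc0001780002ff3e3) b60412 (.nil))) (.nil)))) (.tok (nat_lit 9) (nat_lit 0xbc0001780002ff4a0) (.hit (nat_lit 0) (nat_lit 0) (nat_lit 0xbc0001780002fe5db) b60399 (.tok (nat_lit 3) (nat_lit 0xbc0001780002fe06c) (.hit (nat_lit 1) (nat_lit 1) (nat_lit 0xbc0001780002fcb5f) b60400 (.one (nat_lit 55) (nat_lit 2) (nat_lit 3) (nat_lit 0xbc0001780002fe06c) b60401 (.nil))) (.tok (nat_lit 9) (nat_lit 0xbc0001780002ff4a0) (.hit (nat_lit 3) (nat_lit 20) (nat_lit 0xbc0001780002fcb38) b60402 (.hit (nat_lit 7) (nat_lit 28) (nat_lit 0xbc0001780002fcc8b) b60406 (.tok (nat_lit 67) (nat_lit 0xbc0001780002ff4a0) (.hit (nat_lit 4) (nat_lit 21) (nat_lit 0xbc0001780002fe644) b60403 (.hit (nat_lit 8) (nat_lit 29) (nat_lit 0xbc0001780002ff44f) b60407 (.tok (nat_lit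 9) (nat_lit 0xbc0001780002ff4a0) (.hit (nat_lit 5) (nat_lit 22) (nat_lit 0xbc0001780002fead5) b60404 (.one (nat_lit 67) (nat_lit 6) (nat_lit 23) (nat_lit 0xbc0001780002ff4a0) b60405 (.nil))) (.nil)))) (.nil)))) (.nil)))) (.nil)))
noncomputable def r88_3 : Rw Blk := .tok (nat_lit 3) (nat_lit 0xbc0001780003016f8) (.hit (nat_lit 0) (nat_lit 0) (nat_lit 0xbc0001780002fee12) b60418 (.tok (nat_lit 9) (nat_lit 0xbc0001780002fe9e3) (.hit (nat_lit 1) (nat_lit 20) (nat_lit 0xbc0001780002fd200) b60419 (.hit (nat_lit 4) (nat_lit 28) (nat_lit 0xbc0001780002fcfcd) b60422 (.tok (nat_lit 68) (nat_lit 0xbc0001780002fe9e3) (.hit (nat_lit 2) (nat_lit 26) (nat_lit 0xbc0001780002fe468) b60420 (.hit (nat_lit 6) (nat_lit 32) (nat_lit 0xbc0001780002fe12c) b60423 (.one (nat_lit 9) (nat_lit 3) (nat_lit 27) (nat_lit 0xbc0001780002fe9e3) b60421 (.nil)))) (.nil)))) (.tok (nat_lit 64) (nat_lit 0xbc0001780002fe9b5)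 (.hit (nat_lit 7) (nat_lit 50) (nat_lit 0xbc0001780002fe109) b60424 (.hit (nat_lit 8) (nat_lit 51) (nat_lit 0xbc0001780002fe9b5) b60425 (.nil))) (.tok (nat_lit 67) (nat_lit 0xbc0001780003016f8) (.hit (nat_lit 9) (nat_lit 52) (nat_lit 0xbc0001780003016f8) b60426 (.one (nat_lit 3) (nat_lit 15) (nat_lit 58) (nat_lit 0xbc0001780002fe106) b60432 (.tok (nat_lit 9) (nat_lit 0xbc0001780002ff63a) (.hit (nat_lit 10) (nat_lit 53) (nat_lit 0xbc0001780002fe6bc) b60427 (.hit (nat_lit 13) (nat_lit 56) (nat_lit 0xbc0001780002fde92) b60430 (.tok (nat_lit 67) (nat_lit 0xbc0001780002ff63a) (.hit (nat_lit 11) (nat_lit 54) (nat_lit 0xbc0001780002ff63a) b60428 (.hit (nat_lit 14) (nat_lit 57) (nat_lit 0xbc0001780002fec42) b60431 (.one (nat_lit 9) (nat_lit 12) (nat_lit 55) (nat_lit 0xbc0001780002fe577) b60429 (.nil)))) (.nil)))) (.nil)))) (.one (nat_lit 70) (nat_lit 16) (nat_lit 60) (nat_lit 0xbc0001780002fe049)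 b60433 (.nil)))))) (.tok (nat_lit 6) (nat_lit 0xbc000178000301637) (.hit (nat_lit 17) (nat_lit 0) (nat_lit 0xbc000178000300ede) b60434 (.tok (nat_lit 6) (nat_lit 0xbc000178000301637) (.hit (nat_lit 18) (nat_lit 7) (nat_lit 0xbc0001780003007d4) b60435 (.hit (nat_lit 21) (nat_lit 15) (nat_lit 0xbc0001780002fe4d1) b60438 (.tok (nat_lit 56) (nat_lit 0xbc000178000301637) (.hit (nat_lit 19) (nat_lit 13) (nat_lit 0xbc0001780002ffdbd) b60436 (.hit (nat_lit 23) (nat_lit 19) (nat_lit 0xbc0001780002fef0d) b60440 (.one (nat_lit 6) (nat_lit 20) (nat_lit 14) (nat_lit 0xbc000178000301637) b60437 (.nil)))) (.one (nat_lit 68) (nat_lit 22) (nat_lit 18) (nat_lit 0xbc000178000300a89) b60439 (.nil))))) (.nil))) (.nil))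
noncomputable def r88_4 : Rw Blk := .tok (nat_lit 3) (nat_lit 0xbc0001780002fde55) (.hit (nat_lit 14) (nat_lit 0) (nat_lit 0xbc0001780002fdba7) b60455 (.tok (nat_lit 6) (nat_lit 0xbc0001780002fcbb2) (.hit (nat_lit 15) (nat_lit 7) (nat_lit 0xbc0001780002fb672) b60456 (.hit (nat_lit 16) (nat_lit 15) (nat_lit 0xbc0001780002fcbb2) b60457 (.nil))) (.tok (nat_lit 9) (nat_lit 0xbc0001780002fde55) (.hit (nat_lit 17) (nat_lit 20) (nat_lit 0xbc0001780002fde55) b60458 (.hit (nat_lit 18) (nat_lit 28) (nat_lit 0xbc0001780002fcde0) b60459 (.nil))) (.nil)))) (.tok (nat_lit 6) (nat_lit 0xbc0001780002ff442) (.hit (nat_lit 0) (nat_lit 0) (nat_lit 0xbc0001780002fe3bf) b60441 (.tok (nat_lit 3) (nat_lit 0xbc0001780002fe43b) (.hit (nat_lit 1) (nat_lit 1) (nat_lit 0xbc0001780002fc1f0) b60442 (.one (nat_lit 67) (nat_lit 2) (nat_lit 2) (nat_lit 0xbc0001780002fe43b) b60443 (.nil))) (.tok (nat_lit 6) (nat_lit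 0xbc0001780002ff442) (.hit (nat_lit 3) (nat_lit 7) (nat_lit 0xbc0001780002fd1ac) b60444 (.hit (nat_lit 7) (nat_lit 15) (nat_lit 0xbc0001780002fcde3) b60448 (.tok (nat_lit 55) (nat_lit 0xbc0001780002ff442) (.hit (nat_lit 4) (nat_lit 8) (nat_lit 0xbc0001780002fe156) b60445 (.hit (nat_lit 8) (nat_lit 16) (nat_lit 0xbc0001780002fee26) b60449 (.tok (nat_lit 6) (nat_lit 0xbc0001780002ff442) (.hit (nat_lit 5) (nat_lit 9) (nat_lit 0xbc0001780002fe1bd) b60446 (.one (nat_lit 55) (nat_lit 6) (nat_lit 10) (nat_lit 0xbc0001780002ff442) b60447 (.nil))) (.nil)))) (.nil)))) (.nil)))) (.tok (nat_lit 9) (nat_lit 0xbc000178000300d14) (.hit (nat_lit 9) (nat_lit 0) (nat_lit 0xbc0001780002fec8a) b60450 (.tok (nat_lit 3) (nat_lit 0xbc000178000300d14) (.hit (nat_lit 10) (nat_lit 1) (nat_lit 0xbc0001780002fe779) b60451 (.one (nat_lit 55) (nat_lit 11) (nat_lit 3) (nat_lit 0xbc000178000300d14) b60452 (.nil)))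 (.tok (nat_lit 9) (nat_lit 0xbc0001780002fde89) (.hit (nat_lit 12) (nat_lit 20) (nat_lit 0xbc0001780002fdd69) b60453 (.hit (nat_lit 13) (nat_lit 28) (nat_lit 0xbc0001780002fde89) b60454 (.nil))) (.nil)))) (.nil)))
noncomputable def r88_5 : Rw Blk := .tok (nat_lit 3) (nat_lit 0xbc00017800030029c) (.hit (nat_lit 0) (nat_lit 0) (nat_lit 0xbc0001780002fe9db) b60460 (.tok (nat_lit 6) (nat_lit 0xbc0001780002ff3e3) (.hit (nat_lit 1) (nat_lit 7) (nat_lit 0xbc0001780002fd8f2) b60461 (.hit (nat_lit 6) (nat_lit 15) (nat_lit 0xbc0001780002fca79) b60464 (.tok (nat_lit 56) (nat_lit 0xbc0001780002ff3e3) (.hit (nat_lit 4) (nat_lit 13) (nat_lit 0xbc0001780002febf7) b60462 (.hit (nat_lit 8) (nat_lit 19) (nat_lit 0xbc0001780002fdd80) b60465 (.one (nat_lit 6) (nat_lit 5) (nat_lit 14) (nat_lit 0xbc0001780002ff3e3) b60463 (.nil)))) (.nil)))) (.tok (nat_lit 52) (nat_lit 0xbc0001780002fe6fb) (.hit (nat_lit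 9) (nat_lit 39) (nat_lit 0xbc0001780002fe688) b60466 (.hit (nat_lit 10) (nat_lit 40) (nat_lit 0xbc0001780002fe6fb) b60467 (.nil))) (.tok (nat_lit 55) (nat_lit 0xbc00017800030029c) (.hit (nat_lit 11) (nat_lit 41) (nat_lit 0xbc00017800030029c) b60468 (.one (nat_lit 3) (nat_lit 17) (nat_lit 47) (nat_lit 0xbc0001780002febcb) b60474 (.tok (nat_lit 6) (nat_lit 0xbc0001780002ff645) (.hit (nat_lit 12) (nat_lit 42) (nat_lit 0xbc0001780002fecda) b60469 (.hit (nat_lit 15) (nat_lit 45) (nat_lit 0xbc0001780002fe80f) b60472 (.tok (nat_lit 55) (nat_lit 0xbc0001780002ff645) (.hit (nat_lit 13) (nat_lit 43) (nat_lit 0xbc0001780002ff645) b60470 (.hit (nat_lit 16) (nat_lit 46) (nat_lit 0xbc0001780002ff3e7) b60473 (.one (nat_lit 6) (nat_lit 14) (nat_lit 44) (nat_lit 0xbc0001780002ff3bc) b60471 (.nil)))) (.nil)))) (.nil)))) (.one (nat_lit 58) (nat_lit 19) (nat_lit 49) (nat_lit 0xbc0001780002fe631)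 b60475 (.nil)))))) (.tok (nat_lit 9) (nat_lit 0xbc000178000300af9) (.hit (nat_lit 20) (nat_lit 0) (nat_lit 0xbc0001780002fea01) b60476 (.tok (nat_lit 9) (nat_lit 0xbc000178000300af9) (.hit (nat_lit 21) (nat_lit 20) (nat_lit 0xbc0001780002fea08) b60477 (.hit (nat_lit 26) (nat_lit 28) (nat_lit 0xbc0001780002fcc10) b60480 (.one (nat_lit 56) (nat_lit 28) (nat_lit 31) (nat_lit 0xbc0001780002fe9a9) b60481 (.tok (nat_lit 68) (nat_lit 0xbc000178000300af9) (.hit (nat_lit 24) (nat_lit 26) (nat_lit 0xbc000178000300af9) b60478 (.hit (nat_lit 29) (nat_lit 32) (nat_lit 0xbc0001780002fea26) b60482 (.one (nat_lit 9) (nat_lit 25) (nat_lit 27) (nat_lit 0xbc0001780002ff104) b60479 (.nil)))) (.nil))))) (.nil))) (.nil))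
noncomputable def r88_6 : Rw Blk := .tok (nat_lit 14) (nat_lit 0xbc0001780002fd708) (.hit (nat_lit 140) (nat_lit 0) (nat_lit 0xbc0001780002fcc27) b25771 (.one (nat_lit 3) (nat_lit 141) (nat_lit 1) (nat_lit 0xbc0001780002f9e14) b25772 (.tok (nat_lit 6) (nat_lit 0xbc0001780002fc9f2) (.hit (nat_lit 142) (nat_lit 7) (nat_lit 0xbc0001780002fc287) b25773 (.hit (nat_lit 143) (nat_lit 15) (nat_lit 0xbc0001780002fc9f2) b25774 (.nil))) (.tok (nat_lit 9) (nat_lit 0xbc0001780002fd708) (.hit (nat_lit 144) (nat_lit 20) (nat_lit 0xbc0001780002fcc47) b25775 (.hit (nat_lit 145) (nat_lit 28) (nat_lit 0xbc0001780002fd708) b25776 (.nil))) (.nil))))) (.tok (nat_lit 17) (nat_lit 0xbc0001780002fdc97) (.hit (nat_lit 134) (nat_lit 0) (nat_lit 0xbc0001780002fdc97) b25765 (.one (nat_lit 3) (nat_lit 135) (nat_lit 1) (nat_lit 0xbc0001780002fad7f) b25766 (.tok (nat_lit 6) (nat_lit 0xbc0001780002fdc6c) (.hit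 (nat_lit 136) (nat_lit 7) (nat_lit 0xbc0001780002fbe69) b25767 (.hit (nat_lit 137) (nat_lit 15) (nat_lit 0xbc0001780002fdc6c) b25768 (.nil))) (.tok (nat_lit 9) (nat_lit 0xbc0001780002fd177) (.hit (nat_lit 138) (nat_lit 20) (nat_lit 0xbc0001780002fce5b) b25769 (.hit (nat_lit 139) (nat_lit 28) (nat_lit 0xbc0001780002fd177) b25770 (.nil))) (.nil))))) (.tok (nat_lit 20) (nat_lit 0xbc0001780002fe84b) (.hit (nat_lit 122) (nat_lit 0) (nat_lit 0xbc0001780002fe2e0) b25753 (.one (nat_lit 3) (nat_lit 123) (nat_lit 1) (nat_lit 0xbc0001780002fd2f3) b25754 (.tok (nat_lit 6) (nat_lit 0xbc0001780002fe84b) (.hit (nat_lit 124) (nat_lit 7) (nat_lit 0xbc0001780002fc7e4) b25755 (.hit (nat_lit 125) (nat_lit 15) (nat_lit 0xbc0001780002fe84b) b25756 (.nil))) (.tok (nat_lit 9) (nat_lit 0xbc0001780002fe567) (.hit (nat_lit 126) (nat_lit 20) (nat_lit 0xbc0001780002fe3c2) b25757 (.hit (nat_lit 127) (nat_lit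 28) (nat_lit 0xbc0001780002fe567) b25758 (.nil))) (.nil))))) (.tok (nat_lit 23) (nat_lit 0xbc0001780002fe614) (.hit (nat_lit 128) (nat_lit 0) (nat_lit 0xbc0001780002fe25c) b25759 (.one (nat_lit 3) (nat_lit 129) (nat_lit 1) (nat_lit 0xbc0001780002fdaf6) b25760 (.tok (nat_lit 6) (nat_lit 0xbc0001780002fdfff) (.hit (nat_lit 130) (nat_lit 7) (nat_lit 0xbc0001780002fdef7) b25761 (.hit (nat_lit 131) (nat_lit 15) (nat_lit 0xbc0001780002fdfff) b25762 (.nil))) (.tok (nat_lit 9) (nat_lit 0xbc0001780002fe614) (.hit (nat_lit 132) (nat_lit 20) (nat_lit 0xbc0001780002fcc84) b25763 (.hit (nat_lit 133) (nat_lit 28) (nat_lit 0xbc0001780002fe614) b25764 (.nil))) (.nil))))) (.tok (nat_lit 26) (nat_lit 0xbc0001780002fea73) (.hit (nat_lit 260) (nat_lit 0) (nat_lit 0xbc0001780002fea73) b25823 (.one (nat_lit 3) (nat_lit 261) (nat_lit 1) (nat_lit 0xbc0001780002fb5e5) b25824 (.tok (nat_lit 6) (nat_lit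 0xbc0001780002fcf12) (.hit (nat_lit 262) (nat_lit 7) (nat_lit 0xbc0001780002fcf12) b25825 (.hit (nat_lit 263) (nat_lit 15) (nat_lit 0xbc0001780002fc0bd) b25826 (.nil))) (.tok (nat_lit 9) (nat_lit 0xbc0001780002fd222) (.hit (nat_lit 264) (nat_lit 20) (nat_lit 0xbc0001780002fbb91) b25827 (.hit (nat_lit 265) (nat_lit 28) (nat_lit 0xbc0001780002fd222) b25828 (.nil))) (.nil))))) (.tok (nat_lit 29) (nat_lit 0xbc0001780002fd60e) (.hit (nat_lit 266) (nat_lit 0) (nat_lit 0xbc0001780002fd60e) b25829 (.one (nat_lit 3) (nat_lit 267) (nat_lit 1) (nat_lit 0xbc0001780002fb2c7) b25830 (.tok (nat_lit 6) (nat_lit 0xbc0001780002fd5ae) (.hit (nat_lit 268) (nat_lit 7) (nat_lit 0xbc0001780002fcca7) b25831 (.hit (nat_lit 269) (nat_lit 15) (nat_lit 0xbc0001780002fd5ae) b25832 (.nil))) (.tok (nat_lit 9) (nat_lit 0xbc0001780002fd482) (.hit (nat_lit 270) (nat_lit 20) (nat_lit 0xbc0001780002fc617) b25833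 (.hit (nat_lit 271) (nat_lit 28) (nat_lit 0xbc0001780002fd482) b25834 (.nil))) (.nil))))) (.tok (nat_lit 32) (nat_lit 0xbc0001780002fddbc) (.hit (nat_lit 272) (nat_lit 0) (nat_lit 0xbc0001780002fddbc) b25835 (.one (nat_lit 3) (nat_lit 273) (nat_lit 1) (nat_lit 0xbc0001780002fb140) b25796 (.tok (nat_lit 6) (nat_lit 0xbc0001780002fd5a3) (.hit (nat_lit 274) (nat_lit 7) (nat_lit 0xbc0001780002fbb86) b25836 (.hit (nat_lit 275) (nat_lit 15) (nat_lit 0xbc0001780002fd5a3) b25837 (.nil))) (.tok (nat_lit 9) (nat_lit 0xbc0001780002fcc77) (.hit (nat_lit 276) (nat_lit 20) (nat_lit 0xbc0001780002fcc77) b25838 (.hit (nat_lit 277) (nat_lit 28) (nat_lit 0xbc0001780002fb572) b25839 (.nil))) (.nil))))) (.tok (nat_lit 35) (nat_lit 0xbc0001780002fda3b) (.hit (nat_lit 278) (nat_lit 0) (nat_lit 0xbc0001780002fda3b) b25840 (.one (nat_lit 3) (nat_lit 279) (nat_lit 1) (nat_lit 0xbc0001780002fb140) b25796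 (.tok (nat_lit 6) (nat_lit 0xbc0001780002fc918) (.hit (nat_lit 280) (nat_lit 7) (nat_lit 0xbc0001780002fc918) b25841 (.hit (nat_lit 281) (nat_lit 15) (nat_lit 0xbc0001780002fb3ea) b25842 (.nil))) (.tok (nat_lit 9) (nat_lit 0xbc0001780002fd38f) (.hit (nat_lit 282) (nat_lit 20) (nat_lit 0xbc0001780002fcc33) b25843 (.hit (nat_lit 283) (nat_lit 28) (nat_lit 0xbc0001780002fd38f) b25844 (.nil))) (.nil))))) (.tok (nat_lit 38) (nat_lit 0xbc0001780002fed2f) (.hit (nat_lit 215) (nat_lit 0) (nat_lit 0xbc0001780002fed2f) b25800 (.one (nat_lit 3) (nat_lit 216) (nat_lit 1) (nat_lit 0xbc0001780002fb16e) b25801 (.tok (nat_lit 6) (nat_lit 0xbc0001780002fcc8a) (.hit (nat_lit 217) (nat_lit 7) (nat_lit 0xbc0001780002fcc8a) b25797 (.hit (nat_lit 218) (nat_lit 15) (nat_lit 0xbc0001780002fb9cb) b25802 (.nil))) (.tok (nat_lit 9) (nat_lit 0xbc0001780002fbd27) (.hit (nat_lit 219) (nat_lit 20) (nat_lit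 0xbc0001780002fbd27) b25803 (.hit (nat_lit 220) (nat_lit 28) (nat_lit 0xbc0001780002fb9cf) b25804 (.nil))) (.nil))))) (.tok (nat_lit 41) (nat_lit 0xbc0001780002fecd0) (.hit (nat_lit 226) (nat_lit 0) (nat_lit 0xbc0001780002fe660) b25805 (.one (nat_lit 3) (nat_lit 227) (nat_lit 1) (nat_lit 0xbc0001780002fdab5) b25806 (.tok (nat_lit 6) (nat_lit 0xbc0001780002fecd0) (.hit (nat_lit 228) (nat_lit 7) (nat_lit 0xbc0001780002fecd0) b25807 (.hit (nat_lit 229) (nat_lit 15) (nat_lit 0xbc0001780002fe6c3) b25808 (.nil))) (.tok (nat_lit 9) (nat_lit 0xbc0001780002fea98) (.hit (nat_lit 230) (nat_lit 20) (nat_lit 0xbc0001780002fea98) b25809 (.hit (nat_lit 231) (nat_lit 28) (nat_lit 0xbc0001780002fe506) b25810 (.nil))) (.nil))))) (.tok (nat_lit 44) (nat_lit 0xbc000178000300000) (.hit (nat_lit 240) (nat_lit 0) (nat_lit 0xbc0001780002ffafc) b25811 (.one (nat_lit 3) (nat_lit 241) (nat_lit 1) (nat_lit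 0xbc0001780002fd7ea) b25812 (.tok (nat_lit 6) (nat_lit 0xbc0001780002ff24c) (.hit (nat_lit 242) (nat_lit 7) (nat_lit 0xbc0001780002ff24c) b25813 (.hit (nat_lit 243) (nat_lit 15) (nat_lit 0xbc0001780002fdc30) b25814 (.nil))) (.tok (nat_lit 9) (nat_lit 0xbc000178000300000) (.hit (nat_lit 244) (nat_lit 20) (nat_lit 0xbc000178000300000) b25815 (.hit (nat_lit 245) (nat_lit 28) (nat_lit 0xbc0001780002fe1b0) b25816 (.nil))) (.nil))))) (.tok (nat_lit 47) (nat_lit 0xbc0001780002ff869) (.hit (nat_lit 254) (nat_lit 0) (nat_lit 0xbc0001780002ff869) b25817 (.one (nat_lit 3) (nat_lit 255) (nat_lit 1) (nat_lit 0xbc0001780002fcd47) b25818 (.tok (nat_lit 6) (nat_lit 0xbc0001780002fed16) (.hit (nat_lit 256) (nat_lit 7) (nat_lit 0xbc0001780002fed16) b25819 (.hit (nat_lit 257) (nat_lit 15) (nat_lit 0xbc0001780002fe1e8) b25820 (.nil))) (.tok (nat_lit 9) (nat_lit 0xbc0001780002feffd) (.hit (nat_lit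 258) (nat_lit 20) (nat_lit 0xbc0001780002feffd) b25821 (.hit (nat_lit 259) (nat_lit 28) (nat_lit 0xbc0001780002fdf1d) b25822 (.nil))) (.nil))))) (.tok (nat_lit 62) (nat_lit 0xbc0001780002fe321) (.hit (nat_lit 170) (nat_lit 0) (nat_lit 0xbc0001780002fd344) b25777 (.one (nat_lit 3) (nat_lit 171) (nat_lit 1) (nat_lit 0xbc0001780002fb653) b25778 (.tok (nat_lit 6) (nat_lit 0xbc0001780002fc0f4) (.hit (nat_lit 172) (nat_lit 7) (nat_lit 0xbc0001780002fc0f4) b25779 (.hit (nat_lit 173) (nat_lit 15) (nat_lit 0xbc0001780002fbadb) b25780 (.nil))) (.tok (nat_lit 9) (nat_lit 0xbc0001780002fe321) (.hit (nat_lit 174) (nat_lit 20) (nat_lit 0xbc0001780002fe321) b25781 (.hit (nat_lit 175) (nat_lit 28) (nat_lit 0xbc0001780002fbc63) b25782 (.nil))) (.nil))))) (.tok (nat_lit 65) (nat_lit 0xbc0001780002fe8b7) (.hit (nat_lit 181) (nat_lit 0) (nat_lit 0xbc0001780002fe3a7) b25783 (.one (nat_lit 3) (nat_lit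 182) (nat_lit 1) (nat_lit 0xbc0001780002fdaad) b25784 (.tok (nat_lit 6) (nat_lit 0xbc0001780002fe8b7) (.hit (nat_lit 183) (nat_lit 7) (nat_lit 0xbc0001780002fd211) b25785 (.hit (nat_lit 184) (nat_lit 15) (nat_lit 0xbc0001780002fe8b7) b25786 (.nil))) (.tok (nat_lit 9) (nat_lit 0xbc0001780002fe21d) (.hit (nat_lit 185) (nat_lit 20) (nat_lit 0xbc0001780002fe21d) b25787 (.hit (nat_lit 186) (nat_lit 28) (nat_lit 0xbc0001780002fdd25) b25788 (.nil))) (.nil))))) (.tok (nat_lit 68) (nat_lit 0xbc0001780002fd98c) (.hit (nat_lit 209) (nat_lit 0) (nat_lit 0xbc0001780002fd98c) b25795 (.one (nat_lit 3) (nat_lit 210) (nat_lit 1) (nat_lit 0xbc0001780002fb140) b25796 (.tok (nat_lit 6) (nat_lit 0xbc0001780002fd843) (.hit (nat_lit 211) (nat_lit 7) (nat_lit 0xbc0001780002fcc8a) b25797 (.hit (nat_lit 212) (nat_lit 15) (nat_lit 0xbc0001780002fd843) b25798 (.nil))) (.tok (nat_lit 9) (nat_lit 0xbc0001780002fcc47)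 (.hit (nat_lit 213) (nat_lit 20) (nat_lit 0xbc0001780002fcc47) b25775 (.hit (nat_lit 214) (nat_lit 28) (nat_lit 0xbc0001780002fb2ae) b25799 (.nil))) (.nil))))) (.tok (nat_lit 71) (nat_lit 0xbc0001780002fea16) (.hit (nat_lit 195) (nat_lit 0) (nat_lit 0xbc0001780002fdccc) b25789 (.one (nat_lit 3) (nat_lit 196) (nat_lit 1) (nat_lit 0xbc0001780002fbd99) b25790 (.tok (nat_lit 6) (nat_lit 0xbc0001780002fea16) (.hit (nat_lit 197) (nat_lit 7) (nat_lit 0xbc0001780002fea16) b25791 (.hit (nat_lit 198) (nat_lit 15) (nat_lit 0xbc0001780002fadab) b25792 (.nil))) (.tok (nat_lit 9) (nat_lit 0xbc0001780002fd989) (.hit (nat_lit 199) (nat_lit 20) (nat_lit 0xbc0001780002fd461) b25793 (.hit (nat_lit 200) (nat_lit 28) (nat_lit 0xbc0001780002fd989) b25794 (.nil))) (.nil))))) (.nil))))))))))))))))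
noncomputable def r88_7 : Rw Blk := .tok (nat_lit 3) (nat_lit 0xbc0001780002fdfe3) (.hit (nat_lit 18) (nat_lit 0) (nat_lit 0xbc0001780002fdfe3) b11659 (.tok (nat_lit 6) (nat_lit 0xbc0001780002fd426) (.hit (nat_lit 19) (nat_lit 7) (nat_lit 0xbc0001780002fcfcf) b11662 (.hit (nat_lit 20) (nat_lit 15) (nat_lit 0xbc0001780002fd426) b11663 (.nil))) (.tok (nat_lit 9) (nat_lit 0xbc0001780002fcf6d) (.hit (nat_lit 21) (nat_lit 20) (nat_lit 0xbc0001780002fcf6d) b11660 (.hit (nat_lit 22) (nat_lit 28) (nat_lit 0xbc0001780002fce45) b11661 (.nil))) (.nil)))) (.tok (nat_lit 6) (nat_lit 0xbc0001780002feb8e) (.hit (nat_lit 9) (nat_lit 0) (nat_lit 0xbc0001780002fdff6) b11651 (.tok (nat_lit 3) (nat_lit 0xbc0001780002feb8e) (.hit (nat_lit 10) (nat_lit 1) (nat_lit 0xbc0001780002fda7f) b11652 (.one (nat_lit 67) (nat_lit 11) (nat_lit 2) (nat_lit 0xbc0001780002feb8e) b15453 (.nil))) (.tok (nat_lit 6)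 (nat_lit 0xbc0001780002fda9c) (.hit (nat_lit 12) (nat_lit 7) (nat_lit 0xbc0001780002fd406) b11653 (.hit (nat_lit 16) (nat_lit 15) (nat_lit 0xbc0001780002fda9c) b11657 (.nil))) (.nil)))) (.tok (nat_lit 9) (nat_lit 0xbc000178000300000) (.hit (nat_lit 0) (nat_lit 0) (nat_lit 0xbc0001780002fea59) b11643 (.tok (nat_lit 3) (nat_lit 0xbc0001780002ff018) (.hit (nat_lit 1) (nat_lit 1) (nat_lit 0xbc0001780002fd338) b11644 (.one (nat_lit 55) (nat_lit 2) (nat_lit 3) (nat_lit 0xbc0001780002ff018) b15452 (.nil))) (.tok (nat_lit 9) (nat_lit 0xbc000178000300000) (.hit (nat_lit 3) (nat_lit 20) (nat_lit 0xbc0001780002feccc) b11645 (.hit (nat_lit 7) (nat_lit 28) (nat_lit 0xbc0001780002fdb65) b11649 (.tok (nat_lit 67) (nat_lit 0xbc000178000300000) (.hit (nat_lit 4) (nat_lit 21) (nat_lit 0xbc0001780002ffb92) b11646 (.hit (nat_lit 8) (nat_lit 29) (nat_lit 0xbc0001780002ff0f8) b11650 (.tok (nat_lit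 9) (nat_lit 0xbc000178000300000) (.hit (nat_lit 5) (nat_lit 22) (nat_lit 0xbc0001780002ff9af) b11647 (.one (nat_lit 67) (nat_lit 6) (nat_lit 23) (nat_lit 0xbc000178000300000) b11648 (.nil))) (.nil)))) (.nil)))) (.nil)))) (.nil)))
noncomputable def r88_8 : Rw Blk := .tok (nat_lit 3) (nat_lit 0xbc0001780002fe332) (.hit (nat_lit 14) (nat_lit 0) (nat_lit 0xbc0001780002fe332) b15487 (.tok (nat_lit 6) (nat_lit 0xbc0001780002fd0a7) (.hit (nat_lit 15) (nat_lit 7) (nat_lit 0xbc0001780002fd0a7) b15488 (.hit (nat_lit 16) (nat_lit 15) (nat_lit 0xbc0001780002faa89) b15489 (.nil))) (.tok (nat_lit 9) (nat_lit 0xbc0001780002fd58b) (.hit (nat_lit 17) (nat_lit 20) (nat_lit 0xbc0001780002fd58b) b15490 (.hit (nat_lit 18) (nat_lit 28) (nat_lit 0xbc0001780002fd007) b15491 (.nil))) (.nil)))) (.tok (nat_lit 6) (nat_lit 0xbc0001780002ff6c3) (.hit (nat_lit 0) (nat_lit 0) (nat_lit 0xbc0001780002ff2fa) b15473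 (.tok (nat_lit 3) (nat_lit 0xbc0001780002fe7a8) (.hit (nat_lit 1) (nat_lit 1) (nat_lit 0xbc0001780002fd593) b15474 (.one (nat_lit 67) (nat_lit 2) (nat_lit 2) (nat_lit 0xbc0001780002fe7a8) b15475 (.nil))) (.tok (nat_lit 6) (nat_lit 0xbc0001780002ff6c3) (.hit (nat_lit 3) (nat_lit 7) (nat_lit 0xbc0001780002fd2ad) b15476 (.hit (nat_lit 7) (nat_lit 15) (nat_lit 0xbc0001780002fd3a5) b15480 (.tok (nat_lit 55) (nat_lit 0xbc0001780002ff6c3) (.hit (nat_lit 4) (nat_lit 8) (nat_lit 0xbc0001780002fe8c9) b15477 (.hit (nat_lit 8) (nat_lit 16) (nat_lit 0xbc0001780002ff0ef) b15481 (.tok (nat_lit 6) (nat_lit 0xbc0001780002ff6c3) (.hit (nat_lit 5) (nat_lit 9) (nat_lit 0xbc0001780002fe8ce) b15478 (.one (nat_lit 55) (nat_lit 6) (nat_lit 10) (nat_lit 0xbc0001780002ff6c3) b15479 (.nil))) (.nil)))) (.nil)))) (.nil)))) (.tok (nat_lit 9) (nat_lit 0xbc000178000300000) (.hit (nat_lit 9) (nat_lit 0) (nat_lit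 0xbc000178000300000) b15482 (.tok (nat_lit 3) (nat_lit 0xbc0001780002ffaf5) (.hit (nat_lit 10) (nat_lit 1) (nat_lit 0xbc0001780002fda4e) b15483 (.one (nat_lit 55) (nat_lit 11) (nat_lit 3) (nat_lit 0xbc0001780002ffaf5) b15484 (.nil))) (.tok (nat_lit 9) (nat_lit 0xbc0001780002ff2c2) (.hit (nat_lit 12) (nat_lit 20) (nat_lit 0xbc0001780002ff2c2) b15485 (.hit (nat_lit 13) (nat_lit 28) (nat_lit 0xbc0001780002fdd07) b15486 (.nil))) (.nil)))) (.nil)))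
noncomputable def r88_9 : Rw Blk := .tok (nat_lit 6) (nat_lit 0xbc0001780003002d6) (.hit (nat_lit 0) (nat_lit 0) (nat_lit 0xbc0001780003002d6) b60483 (.tok (nat_lit 3) (nat_lit 0xbc0001780002fd862) (.hit (nat_lit 1) (nat_lit 1) (nat_lit 0xbc0001780002fbb6e) b60484 (.one (nat_lit 14) (nat_lit 2) (nat_lit 4) (nat_lit 0xbc0001780002fd473) b60485 (.one (nat_lit 56) (nat_lit 3) (nat_lit 6) (nat_lit 0xbc0001780002fd862) b60486 (.nil)))) (.tok (nat_lit 40) (nat_lit 0xbc0001780002fdd1b) (.hit (nat_lit 4) (nat_lit 33) (nat_lit 0xbc0001780002fd795) b60487 (.hit (nat_lit 5) (nat_lit 34) (nat_lit 0xbc0001780002fdd1b) b60488 (.nil))) (.tok (nat_lit 43) (nat_lit 0xbc0001780002fe976) (.hit (nat_lit 6) (nat_lit 35) (nat_lit 0xbc0001780002fe976) b60489 (.hit (nat_lit 7) (nat_lit 36) (nat_lit 0xbc0001780002fe3db) b60490 (.nil))) (.tok (nat_lit 46) (nat_lit 0xbc0001780002fe89f) (.hit (nat_lit 8)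 (nat_lit 37) (nat_lit 0xbc0001780002fe89f) b60491 (.hit (nat_lit 9) (nat_lit 38) (nat_lit 0xbc0001780002fe53a) b60492 (.nil))) (.nil)))))) (.tok (nat_lit 9) (nat_lit 0xbc000178000300eff) (.hit (nat_lit 10) (nat_lit 0) (nat_lit 0xbc000178000300eff) b60493 (.tok (nat_lit 3) (nat_lit 0xbc0001780002ff81d) (.hit (nat_lit 11) (nat_lit 1) (nat_lit 0xbc0001780002fe4ee) b60494 (.one (nat_lit 14) (nat_lit 12) (nat_lit 4) (nat_lit 0xbc0001780002ff81d) b60495 (.one (nat_lit 68) (nat_lit 13) (nat_lit 5) (nat_lit 0xbc0001780002ff52c) b60496 (.nil)))) (.nil))) (.nil))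
noncomputable def r88_10 : Rw Blk := .tok (nat_lit 6) (nat_lit 0xbc000178000300633) (.hit (nat_lit 0) (nat_lit 0) (nat_lit 0xbc0001780002ffb16) b60497 (.tok (nat_lit 3) (nat_lit 0xbc000178000300212) (.hit (nat_lit 1) (nat_lit 1) (nat_lit 0xbc0001780002fd33b) b60498 (.one (nat_lit 14) (nat_lit 2) (nat_lit 4) (nat_lit 0xbc000178000300212) b60499 (.one (nat_lit 56) (nat_lit 3) (nat_lit 6) (nat_lit 0xbc0001780002fec27) b60500 (.nil)))) (.tok (nat_lit 40) (nat_lit 0xbc0001780002ff4eb) (.hit (nat_lit 4) (nat_lit 33) (nat_lit 0xbc0001780002ff0ac) b60501 (.hit (nat_lit 5) (nat_lit 34) (nat_lit 0xbc0001780002ff4eb) b60502 (.nil))) (.tok (nat_lit 43) (nat_lit 0xbc000178000300020) (.hit (nat_lit 6) (nat_lit 35) (nat_lit 0xbc000178000300020) b60503 (.hit (nat_lit 7) (nat_lit 36) (nat_lit 0xbc0001780002fea01) b60504 (.nil))) (.tok (nat_lit 46) (nat_lit 0xbc000178000300633) (.hit (nat_lit 8)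 (nat_lit 37) (nat_lit 0xbc0001780002fe301) b60505 (.hit (nat_lit 9) (nat_lit 38) (nat_lit 0xbc000178000300633) b60506 (.nil))) (.nil)))))) (.tok (nat_lit 9) (nat_lit 0xbc0001780002fecd3) (.hit (nat_lit 10) (nat_lit 0) (nat_lit 0xbc0001780002fe393) b60507 (.tok (nat_lit 3) (nat_lit 0xbc0001780002fecd3) (.hit (nat_lit 11) (nat_lit 1) (nat_lit 0xbc0001780002fccc2) b60508 (.one (nat_lit 14) (nat_lit 12) (nat_lit 4) (nat_lit 0xbc0001780002fecd3) b60509 (.one (nat_lit 68) (nat_lit 13) (nat_lit 5) (nat_lit 0xbc0001780002fe2b0) b60510 (.nil)))) (.nil))) (.nil))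
noncomputable def r88_11 : Rw Blk := .tok (nat_lit 3) (nat_lit 0x300545600c84c046b980b51300b8d6036aec04f1d8052c3009d1) (.hit (nat_lit 15) (nat_lit 0) (nat_lit 0x2fd92a5fcc38bfc6b17f6c4afe8dd5ff4aabfc96d7f6942fe68e) b60526 (.tok (nat_lit 6) (nat_lit 0x2fd4e25fcec2bfdafd7f2402fe4955ff026bfd8a57f4702fe246) (.hit (nat_lit 16) (nat_lit 7) (nat_lit 0x2fbed85fa896bf59217e73b2fce8b5fd96ebf7b917e96b2fcc3c) b60527 (.hit (nat_lit 21) (nat_lit 15) (nat_lit 0x2fa35f5f8ef8bf19657d97eafb3125fbed4bf5ff97dbaeafb0c3) b60530 (.tok (nat_lit 14) (nat_lit 0x2fce8e5fcec2bfdafd7ef162fde415ff026bfd8a57f1462fdbf2) (.hit (nat_lit 17) (nat_lit 11) (nat_lit 0x2fcc205fbcaebfa43d7eddf2fdbd35fdca4bfb1a97f00f2fd984) b60528 (.hit (nat_lit 22) (nat_lit 17) (nat_lit 0x2fcbbf5fc6fabf8b8d7edaeafdb725fe34cbfabcd7efdeafd923) b60531 (.one (nat_lit 9) (nat_lit 18) (nat_lit 12) (nat_lit 0x2fce8e5fcec2bfdafd7ef162fde415ff026bfd8a57f1462fdbf2)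 b60529 (.nil)))) (.one (nat_lit 68) (nat_lit 23) (nat_lit 18) (nat_lit 0x2fd4e25fc3a0bf79397f2402fe4955fcb96bf95517f4702fe246) b60532 (.nil))))) (.tok (nat_lit 52) (nat_lit 0x2fd4225fd95ebfb97d7f1e02fe3d55ff0e2bfae297f4102fe186) (.hit (nat_lit 25) (nat_lit 39) (nat_lit 0x2fd2245fb016bf83b97f0e12fe1d75fc61abf8a597f3112fdf88) b60533 (.hit (nat_lit 26) (nat_lit 40) (nat_lit 0x2fd4225fd95ebfb97d7f1e02fe3d55ff0e2bfae297f4102fe186) b60534 (.nil))) (.tok (nat_lit 55) (nat_lit 0x300545600c84c046b980b51300b8d6036aec04f1d8052c3009d1) (.hit (nat_lit 27) (nat_lit 41) (nat_lit 0x300545600c84c046b980b51300b8d6036aec04f1d8052c3009d1) b60535 (.tok (nat_lit 3) (nat_lit 0x2fe1c65feb4ac01b217f8b22ff179601c58c003417fae22fef2a) (.hit (nat_lit 33) (nat_lit 47) (nat_lit 0x2fdc4e5fd1a8c003ed7f5f62fec01601c58c003417f8262fe9b2) b60538 (.one (nat_lit 67) (nat_lit 34) (nat_lit 48) (nat_lit 0x2fe1c65feb4ac01b217f8b22ff1795ff736bff4f57fae22fef2a)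 b60539 (.nil))) (.tok (nat_lit 6) (nat_lit 0x2fda475fd896bfe2957f4f2afe9fa600fa6bfea317f722afe7ab) (.hit (nat_lit 28) (nat_lit 42) (nat_lit 0x2fd59f5fc08cbfcd8d7f29eafe552600160bfea317f4ceafe303) b60536 (.hit (nat_lit 31) (nat_lit 45) (nat_lit 0x2fda475fd896bfe2957f4f2afe9fa600fa6bfe6f97f722afe7ab) b60537 (.nil))) (.nil)))) (.one (nat_lit 58) (nat_lit 35) (nat_lit 49) (nat_lit 0x2fd76b5fdf52bfbd797f384afe71e5ff506bfb6717f5b4afe4cf) b60540 (.nil)))))) (.tok (nat_lit 9) (nat_lit 0x301acb603e4ac0b11981421302455604a72c08e0d8170cb02945) (.hit (nat_lit 0) (nat_lit 0) (nat_lit 0x2ff722602ea0c04f6980899b00508604a72c086ad80226b001af) b60511 (.tok (nat_lit 9) (nat_lit 0x300a02602550c070ed80cf2b0112f6042e0c0691980e0e301451) (.hit (nat_lit 1) (nat_lit 20) (nat_lit 0x2feee45fab00bf796980442affec85fddb6bfb2ad80304aff9c3) b60512 (.hit (nat_lit 4) (nat_lit 28) (nat_lit 0x2fc8da5faf2ebf6d717f2c0afdda35fd70abf923d7eb48afd59a)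 b60515 (.tok (nat_lit 14) (nat_lit 0x300a02600ac4c070ed80cf2b0112f600d22c0183d80e0e301451) (.hit (nat_lit 2) (nat_lit 24) (nat_lit 0x300a025ffe0ac0214180cf2b0112f5fe890bfc54d80e0e301451) b60513 (.hit (nat_lit 5) (nat_lit 30) (nat_lit 0x2fd44f5fea1abfa1ad7f4c52fe4df5fec30bfbed97f1d5afdde1) b60516 (.one (nat_lit 6) (nat_lit 3) (nat_lit 25) (nat_lit 0x30013d600ac4c070ed80cabb00ebf600d22c0183d80c3c300dbb) b60514 (.nil)))) (.one (nat_lit 56) (nat_lit 6) (nat_lit 31) (nat_lit 0x2fe53d602550c048e58003baff9d46042e0c069197fa15aff2d6) b60517 (.nil))))) (.tok (nat_lit 64) (nat_lit 0x301acb6023a8c045b181219301d59600270c000cd8170cb02945) (.hit (nat_lit 7) (nat_lit 50) (nat_lit 0x301acb6023a8c045b180e3cb01d595fd18abfa1398170cb02945) b60518 (.hit (nat_lit 8) (nat_lit 51) (nat_lit 0x30086b600162bfe70981219301758600270c000cd80a01301019) b60519 (.nil))) (.tok (nat_lit 67) (nat_lit 0x30133e603e4ac0b119814213024556048d0c08e0d8125eb01c57)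 (.hit (nat_lit 9) (nat_lit 52) (nat_lit 0x30133e603e4ac0b1198138eb024556048d0c08e0d8125eb01ba9) b60520 (.tok (nat_lit 3) (nat_lit 0x300c645ff5d0c011d981421301d5e600bd0c0026580ea3b01c57) (.hit (nat_lit 12) (nat_lit 58) (nat_lit 0x300c5d5fe252bfe3ad811ecb01d5e600bd0c0026580d3030168a) b60523 (.one (nat_lit 55) (nat_lit 13) (nat_lit 59) (nat_lit 0x300c645ff5d0c011d9814213019d65ff30cbfdb9580ea3b01c57) b60524 (.nil))) (.tok (nat_lit 9) (nat_lit 0x300450600cb8c055f5806f93009656005cec001dd804933001fe) (.hit (nat_lit 10) (nat_lit 53) (nat_lit 0x2ff02e600cb8c03bdd7fa002ff7bd5ff274bfe6b17fbcc2ff2f7) b60521 (.hit (nat_lit 11) (nat_lit 56) (nat_lit 0x3004505ff8d6c055f5806f93009656005cec001dd804933001fe) b60522 (.nil))) (.nil)))) (.one (nat_lit 70) (nat_lit 14) (nat_lit 60) (nat_lit 0x2ffdab6009ccbfe1b580e82b011b3601b38c01fe180703300b54) b60525 (.nil)))))) (.nil))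
noncomputable def r88_12 : Rw Blk := .tok (nat_lit 9) (nat_lit 0xbc00018266a304ae2) (.hit (nat_lit 18) (nat_lit 0) (nat_lit 0xbc00018050630035f) b60559 (.tok (nat_lit 14) (nat_lit 0xbc000181706b01d0d) (.hit (nat_lit 19) (nat_lit 61) (nat_lit 0xbc0001809e0301d0d) b60560 (.one (nat_lit 3) (nat_lit 20) (nat_lit 62) (nat_lit 0xbc000180715b0088c) b60561 (.tok (nat_lit 6) (nat_lit 0xbc000181706b01c3c) (.hit (nat_lit 23) (nat_lit 65) (nat_lit 0xbc000181706b01c3c) b60564 (.hit (nat_lit 24) (nat_lit 66) (nat_lit 0xbc000180280aff703) b60565 (.nil))) (.tok (nat_lit 9) (nat_lit 0xbc0001800732ff3e9) (.hit (nat_lit 21) (nat_lit 63) (nat_lit 0xbc00017f9ba2fe4de) b60562 (.hit (nat_lit 22) (nat_lit 64) (nat_lit 0xbc0001800732ff3e9) b60563 (.nil))) (.nil))))) (.one (nat_lit 17) (nat_lit 25) (nat_lit 67) (nat_lit 0xbc0001803d93001bb) b60566 (.tok (nat_lit 20) (nat_lit 0xbc00017fc55afebee) (.hit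 (nat_lit 26) (nat_lit 68) (nat_lit 0xbc00017f8dcafe323) b60567 (.hit (nat_lit 27) (nat_lit 69) (nat_lit 0xbc00017fc55afebee) b60568 (.nil))) (.tok (nat_lit 23) (nat_lit 0xbc00018266a304ae2) (.hit (nat_lit 28) (nat_lit 70) (nat_lit 0xbc00018266a304ae2) b60569 (.hit (nat_lit 29) (nat_lit 71) (nat_lit 0xbc00017f8d7afe697) b60570 (.nil))) (.one (nat_lit 26) (nat_lit 30) (nat_lit 72) (nat_lit 0xbc00017fa0f2fe53c) b60571 (.one (nat_lit 29) (nat_lit 31) (nat_lit 73) (nat_lit 0xbc00017fce1aff6fd) b60572 (.one (nat_lit 32) (nat_lit 32) (nat_lit 74) (nat_lit 0xbc00018007baff6a7) b60573 (.one (nat_lit 35) (nat_lit 33) (nat_lit 75) (nat_lit 0xbc00017f9412fe21a) b60574 (.one (nat_lit 50) (nat_lit 41) (nat_lit 83) (nat_lit 0xbc00018017f2ff2ce) b60575 (.tok (nat_lit 53) (nat_lit 0xbc0001802d4aff985) (.hit (nat_lit 42) (nat_lit 84) (nat_lit 0xbc00017fcc32ff3bc) b60576 (.hit (nat_lit 43) (nat_lit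 85) (nat_lit 0xbc0001802d4aff985) b60577 (.nil))) (.tok (nat_lit 56) (nat_lit 0xbc000180ed8aff652) (.hit (nat_lit 44) (nat_lit 86) (nat_lit 0xbc000180ed8aff652) b60578 (.one (nat_lit 3) (nat_lit 48) (nat_lit 90) (nat_lit 0xbc00017f9392fe3dc) b60582 (.tok (nat_lit 6) (nat_lit 0xbc00017f6e52fdf34) (.hit (nat_lit 46) (nat_lit 88) (nat_lit 0xbc00017f6e52fdf34) b60580 (.hit (nat_lit 47) (nat_lit 89) (nat_lit 0xbc00017f3622fd82e) b60581 (.nil))) (.one (nat_lit 9) (nat_lit 45) (nat_lit 87) (nat_lit 0xbc00017f8a62fe2b6) b60579 (.nil))))) (.one (nat_lit 59) (nat_lit 49) (nat_lit 91) (nat_lit 0xbc00017fafaafe89c) b60583 (.nil)))))))))))))) (.tok (nat_lit 64) (nat_lit 0xbc000181b4cb02cbf) (.hit (nat_lit 13) (nat_lit 0) (nat_lit 0xbc0001818d0b02cbf) b60554 (.tok (nat_lit 6) (nat_lit 0xbc000180855aff72d) (.hit (nat_lit 14) (nat_lit 7) (nat_lit 0xbc00017faa2afe6af) b60555 (.hit (nat_lit 15)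 (nat_lit 15) (nat_lit 0xbc000180855aff72d) b60556 (.nil))) (.tok (nat_lit 9) (nat_lit 0xbc000181b4cb01c53) (.hit (nat_lit 16) (nat_lit 20) (nat_lit 0xbc0001817183017af) b60557 (.hit (nat_lit 17) (nat_lit 28) (nat_lit 0xbc000181b4cb01c53) b60558 (.nil))) (.nil)))) (.tok (nat_lit 67) (nat_lit 0xbc0001807792fffce) (.hit (nat_lit 8) (nat_lit 0) (nat_lit 0xbc0001807792ffd2c) b60549 (.tok (nat_lit 3) (nat_lit 0xbc0001806f42fff52) (.hit (nat_lit 9) (nat_lit 1) (nat_lit 0xbc00017fed2afef0f) b60550 (.one (nat_lit 55) (nat_lit 10) (nat_lit 3) (nat_lit 0xbc0001806f42fff52) b60551 (.nil))) (.tok (nat_lit 9) (nat_lit 0xbc0001807322fffce) (.hit (nat_lit 11) (nat_lit 20) (nat_lit 0xbc0001807322fffce) b60552 (.hit (nat_lit 12) (nat_lit 28) (nat_lit 0xbc00017fccf2feb08) b60553 (.nil))) (.nil)))) (.tok (nat_lit 70) (nat_lit 0xbc000181249b015fd) (.hit (nat_lit 0) (nat_lit 0) (nat_lit 0xbc0001810e2b0028f)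 b60541 (.tok (nat_lit 3) (nat_lit 0xbc000181249b015fd) (.hit (nat_lit 1) (nat_lit 1) (nat_lit 0xbc0001808353001d4) b60542 (.one (nat_lit 67) (nat_lit 2) (nat_lit 2) (nat_lit 0xbc000181249b015fd) b60543 (.nil))) (.tok (nat_lit 6) (nat_lit 0xbc0001810ad3012c4) (.hit (nat_lit 3) (nat_lit 7) (nat_lit 0xbc0001805d3affd11) b60544 (.hit (nat_lit 6) (nat_lit 15) (nat_lit 0xbc0001806dcafff23) b60547 (.tok (nat_lit 55) (nat_lit 0xbc0001810ad3012c4) (.hit (nat_lit 4) (nat_lit 8) (nat_lit 0xbc000180c8db00a85) b60545 (.hit (nat_lit 7) (nat_lit 16) (nat_lit 0xbc000181074b01253) b60548 (.one (nat_lit 6) (nat_lit 5) (nat_lit 9) (nat_lit 0xbc0001810ad3012c4) b60546 (.nil)))) (.nil)))) (.nil)))) (.nil))))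
noncomputable def r88_13 : Rw Blk := .tok (nat_lit 3) (nat_lit 0xbc000181feeb03146) (.hit (nat_lit 0) (nat_lit 0) (nat_lit 0xbc000181feeb030d5) b60584 (.tok (nat_lit 6) (nat_lit 0xbc000180f8b3013fd) (.hit (nat_lit 1) (nat_lit 7) (nat_lit 0xbc00017f9dcafec70) b60585 (.hit (nat_lit 6) (nat_lit 15) (nat_lit 0xbc00017f9602ff447) b60588 (.tok (nat_lit 56) (nat_lit 0xbc000180f8b3013fd) (.hit (nat_lit 4) (nat_lit 13) (nat_lit 0xbc00018023e300489) b60586 (.hit (nat_lit 8) (nat_lit 19) (nat_lit 0xbc0001803bc2fffa3) b60589 (.one (nat_lit 6) (nat_lit 5) (nat_lit 14) (nat_lit 0xbc000180f8b3013fd) b60587 (.nil)))) (.nil)))) (.tok (nat_lit 52) (nat_lit 0xbc000180e0d302495) (.hit (nat_lit 9) (nat_lit 39) (nat_lit 0xbc000180e0d302495) b60590 (.hit (nat_lit 10) (nat_lit 40) (nat_lit 0xbc00018099cb01bbb) b60591 (.nil))) (.tok (nat_lit 55) (nat_lit 0xbc000181ef2303146) (.hit (nat_lit 11) (nat_lit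 41) (nat_lit 0xbc000181ef2303146) b60592 (.one (nat_lit 3) (nat_lit 17) (nat_lit 47) (nat_lit 0xbc000180cbcb01931) b60598 (.tok (nat_lit 6) (nat_lit 0xbc000181047b01d6e) (.hit (nat_lit 12) (nat_lit 42) (nat_lit 0xbc000180a173014bd) b60593 (.hit (nat_lit 15) (nat_lit 45) (nat_lit 0xbc0001809a7b012a8) b60596 (.tok (nat_lit 55) (nat_lit 0xbc000181047b01d6e) (.hit (nat_lit 13) (nat_lit 43) (nat_lit 0xbc000181047b01d6e) b60594 (.hit (nat_lit 16) (nat_lit 46) (nat_lit 0xbc000180eafb01798) b60597 (.one (nat_lit 6) (nat_lit 14) (nat_lit 44) (nat_lit 0xbc000180b95300fd0) b60595 (.nil)))) (.nil)))) (.nil)))) (.one (nat_lit 58) (nat_lit 19) (nat_lit 49) (nat_lit 0xbc000180601b00b9d) b60599 (.nil)))))) (.tok (nat_lit 9) (nat_lit 0xbc000182291b039b4) (.hit (nat_lit 20) (nat_lit 0) (nat_lit 0xbc000182171b0354e) b60600 (.tok (nat_lit 9) (nat_lit 0xbc000182291b039b4) (.hit (nat_lit 21) (nat_lit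 20) (nat_lit 0xbc0001815ea302363) b60601 (.hit (nat_lit 24) (nat_lit 28) (nat_lit 0xbc000180ead3012a8) b60602 (.one (nat_lit 56) (nat_lit 26) (nat_lit 31) (nat_lit 0xbc000182291b039b4) b60603 (.nil)))) (.nil))) (.nil))
noncomputable def r88_14 : Rw Blk := .tok (nat_lit 9) (nat_lit 0xbc000178000303b67) (.hit (nat_lit 0) (nat_lit 0) (nat_lit 0xbc00017800030268b) b60604 (.one (nat_lit 38) (nat_lit 12) (nat_lit 76) (nat_lit 0xbc000178000302652) b60605 (.tok (nat_lit 41) (nat_lit 0xbc000178000301ac0) (.hit (nat_lit 13) (nat_lit 77) (nat_lit 0xbc00017800030075c) b60606 (.hit (nat_lit 14) (nat_lit 78) (nat_lit 0xbc000178000301ac0) b60607 (.nil))) (.tok (nat_lit 44) (nat_lit 0xbc00017800030136b) (.hit (nat_lit 15) (nat_lit 79) (nat_lit 0xbc000178000300759) b60608 (.hit (nat_lit 16) (nat_lit 80) (nat_lit 0xbc00017800030136b) b60609 (.nil))) (.tok (nat_lit 47) (nat_lit 0xbc000178000302d63)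 (.hit (nat_lit 17) (nat_lit 81) (nat_lit 0xbc000178000302d63) b60610 (.hit (nat_lit 18) (nat_lit 82) (nat_lit 0xbc0001780003016ce) b60611 (.nil))) (.one (nat_lit 50) (nat_lit 19) (nat_lit 83) (nat_lit 0xbc000178000302292) b60612 (.tok (nat_lit 53) (nat_lit 0xbc000178000301cda) (.hit (nat_lit 20) (nat_lit 84) (nat_lit 0xbc000178000300bae) b60613 (.hit (nat_lit 21) (nat_lit 85) (nat_lit 0xbc000178000301cda) b60614 (.nil))) (.tok (nat_lit 56) (nat_lit 0xbc000178000303b67) (.hit (nat_lit 22) (nat_lit 86) (nat_lit 0xbc000178000303b67) b60615 (.one (nat_lit 3) (nat_lit 26) (nat_lit 90) (nat_lit 0xbc000178000301e51) b60619 (.tok (nat_lit 6) (nat_lit 0xbc000178000301714) (.hit (nat_lit 24) (nat_lit 88) (nat_lit 0xbc000178000301714) b60617 (.hit (nat_lit 25) (nat_lit 89) (nat_lit 0xbc00017800030110f) b60618 (.nil))) (.one (nat_lit 9) (nat_lit 23) (nat_lit 87) (nat_lit 0xbc0001780003021af)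 b60616 (.nil))))) (.one (nat_lit 59) (nat_lit 27) (nat_lit 91) (nat_lit 0xbc000178000300613) b60620 (.nil)))))))))) (.nil)
noncomputable def r88_15 : Rw Blk := .tok (nat_lit 9) (nat_lit 0xbc000178000303bdc) (.hit (nat_lit 18) (nat_lit 0) (nat_lit 0xbc0001780002fe78a) b60639 (.tok (nat_lit 14) (nat_lit 0xbc000178000303bdc) (.hit (nat_lit 19) (nat_lit 61) (nat_lit 0xbc000178000300c8a) b60640 (.one (nat_lit 3) (nat_lit 20) (nat_lit 62) (nat_lit 0xbc0001780002ffa6a) b60641 (.tok (nat_lit 6) (nat_lit 0xbc000178000303bdc) (.hit (nat_lit 23) (nat_lit 65) (nat_lit 0xbc000178000303bdc) b60644 (.hit (nat_lit 24) (nat_lit 66) (nat_lit 0xbc0001780002ffb9c) b60645 (.nil))) (.tok (nat_lit 9) (nat_lit 0xbc0001780002fefb5) (.hit (nat_lit 21) (nat_lit 63) (nat_lit 0xbc0001780002fea85) b60642 (.hit (nat_lit 22) (nat_lit 64) (nat_lit 0xbc0001780002fefb5) b60643 (.nil))) (.nil))))) (.one (nat_lit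 17) (nat_lit 25) (nat_lit 67) (nat_lit 0xbc0001780002ff219) b60646 (.tok (nat_lit 20) (nat_lit 0xbc0001780002fef42) (.hit (nat_lit 26) (nat_lit 68) (nat_lit 0xbc0001780002fdec7) b60647 (.hit (nat_lit 27) (nat_lit 69) (nat_lit 0xbc0001780002fef42) b60648 (.nil))) (.tok (nat_lit 23) (nat_lit 0xbc000178000301c52) (.hit (nat_lit 28) (nat_lit 70) (nat_lit 0xbc000178000301c52) b60649 (.hit (nat_lit 29) (nat_lit 71) (nat_lit 0xbc0001780002fedc0) b60650 (.nil))) (.one (nat_lit 26) (nat_lit 30) (nat_lit 72) (nat_lit 0xbc0001780002ff1f6) b60651 (.one (nat_lit 29) (nat_lit 31) (nat_lit 73) (nat_lit 0xbc0001780002ff362) b60652 (.one (nat_lit 32) (nat_lit 32) (nat_lit 74) (nat_lit 0xbc0001780002ffa5c) b60653 (.one (nat_lit 35) (nat_lit 33) (nat_lit 75) (nat_lit 0xbc0001780002fea58) b60654 (.one (nat_lit 50) (nat_lit 41) (nat_lit 83) (nat_lit 0xbc0001780002ff4e8) b60655 (.tok (nat_lit 53) (nat_lit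 0xbc0001780002ff038) (.hit (nat_lit 42) (nat_lit 84) (nat_lit 0xbc0001780002fe82a) b60656 (.hit (nat_lit 43) (nat_lit 85) (nat_lit 0xbc0001780002ff038) b60657 (.nil))) (.tok (nat_lit 56) (nat_lit 0xbc00017800030048e) (.hit (nat_lit 44) (nat_lit 86) (nat_lit 0xbc00017800030048e) b60658 (.one (nat_lit 3) (nat_lit 48) (nat_lit 90) (nat_lit 0xbc0001780002fde5b) b60662 (.tok (nat_lit 6) (nat_lit 0xbc0001780002feaf1) (.hit (nat_lit 46) (nat_lit 88) (nat_lit 0xbc0001780002feaf1) b60660 (.hit (nat_lit 47) (nat_lit 89) (nat_lit 0xbc0001780002fd18c) b60661 (.nil))) (.one (nat_lit 9) (nat_lit 45) (nat_lit 87) (nat_lit 0xbc0001780002fea85) b60659 (.nil))))) (.one (nat_lit 59) (nat_lit 49) (nat_lit 91) (nat_lit 0xbc0001780002febcf) b60663 (.nil)))))))))))))) (.tok (nat_lit 64) (nat_lit 0xbc000178000302e88) (.hit (nat_lit 13) (nat_lit 0) (nat_lit 0xbc000178000301f72) b60634 (.tok (nat_lit 6)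 (nat_lit 0xbc00017800030075e) (.hit (nat_lit 14) (nat_lit 7) (nat_lit 0xbc0001780002ff30b) b60635 (.hit (nat_lit 15) (nat_lit 15) (nat_lit 0xbc00017800030075e) b60636 (.nil))) (.tok (nat_lit 9) (nat_lit 0xbc000178000302e88) (.hit (nat_lit 16) (nat_lit 20) (nat_lit 0xbc000178000302aef) b60637 (.hit (nat_lit 17) (nat_lit 28) (nat_lit 0xbc000178000302e88) b60638 (.nil))) (.nil)))) (.tok (nat_lit 67) (nat_lit 0xbc000178000301006) (.hit (nat_lit 8) (nat_lit 0) (nat_lit 0xbc00017800030012a) b60629 (.tok (nat_lit 3) (nat_lit 0xbc000178000301006) (.hit (nat_lit 9) (nat_lit 1) (nat_lit 0xbc0001780002ffa46) b60630 (.one (nat_lit 55) (nat_lit 10) (nat_lit 3) (nat_lit 0xbc000178000301006) b60631 (.nil))) (.tok (nat_lit 9) (nat_lit 0xbc0001780002ffaac) (.hit (nat_lit 11) (nat_lit 20) (nat_lit 0xbc0001780002ffaac) b60632 (.hit (nat_lit 12) (nat_lit 28) (nat_lit 0xbc0001780002fee4f) b60633 (.nil)))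 (.nil)))) (.tok (nat_lit 70) (nat_lit 0xbc000178000301f21) (.hit (nat_lit 0) (nat_lit 0) (nat_lit 0xbc0001780003008ee) b60621 (.tok (nat_lit 3) (nat_lit 0xbc000178000301474) (.hit (nat_lit 1) (nat_lit 1) (nat_lit 0xbc000178000300385) b60622 (.one (nat_lit 67) (nat_lit 2) (nat_lit 2) (nat_lit 0xbc000178000301474) b60623 (.nil))) (.tok (nat_lit 6) (nat_lit 0xbc000178000301f21) (.hit (nat_lit 3) (nat_lit 7) (nat_lit 0xbc000178000301004) b60624 (.hit (nat_lit 6) (nat_lit 15) (nat_lit 0xbc0001780003002d9) b60627 (.tok (nat_lit 55) (nat_lit 0xbc000178000301f21) (.hit (nat_lit 4) (nat_lit 8) (nat_lit 0xbc0001780003019e4) b60625 (.hit (nat_lit 7) (nat_lit 16) (nat_lit 0xbc0001780003013e6) b60628 (.one (nat_lit 6) (nat_lit 5) (nat_lit 9) (nat_lit 0xbc000178000301f21) b60626 (.nil)))) (.nil)))) (.nil)))) (.nil))))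
noncomputable def r88_16 : Rw Blk := .tok (nat_lit 3) (nat_lit 0xbc00017800030449d) (.hit (nat_lit 0) (nat_lit 0) (nat_lit 0xbc000178000302dd8) b60664 (.tok (nat_lit 6) (nat_lit 0xbc000178000301d5c) (.hit (nat_lit 1) (nat_lit 7) (nat_lit 0xbc0001780002ff6a8) b60665 (.hit (nat_lit 6) (nat_lit 15) (nat_lit 0xbc0001780002fed5f) b60668 (.tok (nat_lit 56) (nat_lit 0xbc000178000301d5c) (.hit (nat_lit 4) (nat_lit 13) (nat_lit 0xbc00017800030095e) b60666 (.hit (nat_lit 8) (nat_lit 19) (nat_lit 0xbc00017800030018a) b60669 (.one (nat_lit 6) (nat_lit 5) (nat_lit 14) (nat_lit 0xbc000178000301d5c) b60667 (.nil)))) (.nil)))) (.tok (nat_lit 52) (nat_lit 0xbc000178000301dbc) (.hit (nat_lit 9) (nat_lit 39) (nat_lit 0xbc000178000301dbc) b60670 (.hit (nat_lit 10) (nat_lit 40) (nat_lit 0xbc00017800030102b) b60671 (.nil))) (.tok (nat_lit 55) (nat_lit 0xbc00017800030449d) (.hit (nat_lit 11) (nat_lit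 41) (nat_lit 0xbc00017800030449d) b60672 (.one (nat_lit 3) (nat_lit 17) (nat_lit 47) (nat_lit 0xbc000178000301cc8) b60678 (.tok (nat_lit 6) (nat_lit 0xbc000178000301f2c) (.hit (nat_lit 12) (nat_lit 42) (nat_lit 0xbc0001780003019db) b60673 (.hit (nat_lit 15) (nat_lit 45) (nat_lit 0xbc000178000301465) b60676 (.tok (nat_lit 55) (nat_lit 0xbc000178000301f2c) (.hit (nat_lit 13) (nat_lit 43) (nat_lit 0xbc000178000301f2c) b60674 (.hit (nat_lit 16) (nat_lit 46) (nat_lit 0xbc0001780003019d8) b60677 (.one (nat_lit 6) (nat_lit 14) (nat_lit 44) (nat_lit 0xbc000178000301dc1) b60675 (.nil)))) (.nil)))) (.nil)))) (.one (nat_lit 58) (nat_lit 19) (nat_lit 49) (nat_lit 0xbc000178000300310) b60679 (.nil)))))) (.tok (nat_lit 9) (nat_lit 0xbc0001780003039ae) (.hit (nat_lit 20) (nat_lit 0) (nat_lit 0xbc000178000302bfa) b60680 (.tok (nat_lit 9) (nat_lit 0xbc0001780003039ae) (.hit (nat_lit 21) (nat_lit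 20) (nat_lit 0xbc0001780003039ae) b60681 (.hit (nat_lit 24) (nat_lit 28) (nat_lit 0xbc000178000300eb5) b60682 (.one (nat_lit 56) (nat_lit 26) (nat_lit 31) (nat_lit 0xbc000178000303318) b60683 (.nil)))) (.nil))) (.nil))
noncomputable def r88_17 : Rw Blk := .tok (nat_lit 6) (nat_lit 0xbc000178000301019) (.hit (nat_lit 21) (nat_lit 0) (nat_lit 0xbc0001780002fed1a) b60702 (.tok (nat_lit 14) (nat_lit 0xbc000178000301019) (.hit (nat_lit 22) (nat_lit 61) (nat_lit 0xbc0001780002ffc64) b60703 (.one (nat_lit 3) (nat_lit 23) (nat_lit 62) (nat_lit 0xbc0001780002ff5d7) b60704 (.tok (nat_lit 6) (nat_lit 0xbc0001780002feff7) (.hit (nat_lit 26) (nat_lit 65) (nat_lit 0xbc0001780002fdef2) b60707 (.hit (nat_lit 27) (nat_lit 66) (nat_lit 0xbc0001780002feff7) b60708 (.nil))) (.tok (nat_lit 9) (nat_lit 0xbc000178000301019) (.hit (nat_lit 24) (nat_lit 63) (nat_lit 0xbc000178000301019) b60705 (.hit (nat_lit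 25) (nat_lit 64) (nat_lit 0xbc0001780002ff9e4) b60706 (.nil))) (.nil))))) (.one (nat_lit 17) (nat_lit 28) (nat_lit 67) (nat_lit 0xbc0001780002ff89a) b60709 (.tok (nat_lit 20) (nat_lit 0xbc0001780002ff829) (.hit (nat_lit 29) (nat_lit 68) (nat_lit 0xbc0001780002ff829) b60710 (.hit (nat_lit 30) (nat_lit 69) (nat_lit 0xbc0001780002fed20) b60711 (.nil))) (.tok (nat_lit 23) (nat_lit 0xbc0001780002ffd08) (.hit (nat_lit 31) (nat_lit 70) (nat_lit 0xbc0001780002fd0bf) b60712 (.hit (nat_lit 32) (nat_lit 71) (nat_lit 0xbc0001780002ffd08) b60713 (.nil))) (.one (nat_lit 26) (nat_lit 33) (nat_lit 72) (nat_lit 0xbc0001780002ff318) b60714 (.one (nat_lit 29) (nat_lit 34) (nat_lit 73) (nat_lit 0xbc0001780002fe5db) b60715 (.one (nat_lit 32) (nat_lit 35) (nat_lit 74) (nat_lit 0xbc0001780002fe1fc) b60716 (.one (nat_lit 35) (nat_lit 36) (nat_lit 75) (nat_lit 0xbc0001780002ffaf9) b60717 (.one (nat_lit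 62) (nat_lit 46) (nat_lit 92) (nat_lit 0xbc0001780002feeab) b60718 (.tok (nat_lit 65) (nat_lit 0xbc0001780002ff3ee) (.hit (nat_lit 47) (nat_lit 93) (nat_lit 0xbc0001780002fe867) b60719 (.hit (nat_lit 48) (nat_lit 94) (nat_lit 0xbc0001780002ff3ee) b60720 (.nil))) (.tok (nat_lit 68) (nat_lit 0xbc0001780002ff854) (.hit (nat_lit 49) (nat_lit 95) (nat_lit 0xbc0001780002ff854) b60721 (.one (nat_lit 3) (nat_lit 53) (nat_lit 99) (nat_lit 0xbc0001780002fd294) b60725 (.one (nat_lit 6) (nat_lit 50) (nat_lit 96) (nat_lit 0xbc0001780002fd76e) b60722 (.tok (nat_lit 9) (nat_lit 0xbc0001780002fe004) (.hit (nat_lit 51) (nat_lit 97) (nat_lit 0xbc0001780002fe004) b60723 (.hit (nat_lit 52) (nat_lit 98) (nat_lit 0xbc0001780002fd79f) b60724 (.nil))) (.nil))))) (.one (nat_lit 71) (nat_lit 54) (nat_lit 100) (nat_lit 0xbc0001780002fef5a) b60726 (.nil)))))))))))))) (.tok (nat_lit 52) (nat_lit 0xbc000178000301963)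 (.hit (nat_lit 16) (nat_lit 0) (nat_lit 0xbc00017800030141c) b60697 (.tok (nat_lit 6) (nat_lit 0xbc000178000301963) (.hit (nat_lit 17) (nat_lit 7) (nat_lit 0xbc000178000301963) b60698 (.hit (nat_lit 18) (nat_lit 15) (nat_lit 0xbc0001780003010b7) b60699 (.nil))) (.tok (nat_lit 9) (nat_lit 0xbc0001780003018b8) (.hit (nat_lit 19) (nat_lit 20) (nat_lit 0xbc0001780002ff500) b60700 (.hit (nat_lit 20) (nat_lit 28) (nat_lit 0xbc0001780003018b8) b60701 (.nil))) (.nil)))) (.tok (nat_lit 55) (nat_lit 0xbc00017800030140c) (.hit (nat_lit 8) (nat_lit 0) (nat_lit 0xbc00017800030140c) b60692 (.tok (nat_lit 3) (nat_lit 0xbc0001780002ffdac) (.hit (nat_lit 9) (nat_lit 1) (nat_lit 0xbc0001780002ff9d8) b60693 (.one (nat_lit 67) (nat_lit 10) (nat_lit 2) (nat_lit 0xbc0001780002ffdac) b60694 (.nil))) (.tok (nat_lit 6) (nat_lit 0xbc0001780002ff313) (.hit (nat_lit 11) (nat_lit 7) (nat_lit 0xbc0001780002ff313)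 b60695 (.hit (nat_lit 14) (nat_lit 15) (nat_lit 0xbc0001780002fe877) b60696 (.nil))) (.nil)))) (.tok (nat_lit 58) (nat_lit 0xbc000178000301576) (.hit (nat_lit 0) (nat_lit 0) (nat_lit 0xbc0001780002ffefc) b60684 (.tok (nat_lit 3) (nat_lit 0xbc0001780003009fe) (.hit (nat_lit 1) (nat_lit 1) (nat_lit 0xbc00017800030039c) b60685 (.one (nat_lit 55) (nat_lit 2) (nat_lit 3) (nat_lit 0xbc0001780003009fe) b60686 (.nil))) (.tok (nat_lit 9) (nat_lit 0xbc000178000301576) (.hit (nat_lit 3) (nat_lit 20) (nat_lit 0xbc0001780003001b4) b60687 (.hit (nat_lit 6) (nat_lit 28) (nat_lit 0xbc0001780002ffc9a) b60690 (.tok (nat_lit 67) (nat_lit 0xbc000178000301576) (.hit (nat_lit 4) (nat_lit 21) (nat_lit 0xbc000178000300b77) b60688 (.hit (nat_lit 7) (nat_lit 29) (nat_lit 0xbc000178000300db7) b60691 (.one (nat_lit 9) (nat_lit 5) (nat_lit 22) (nat_lit 0xbc000178000301576) b60689 (.nil)))) (.nil)))) (.nil))))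 (.nil))))
noncomputable def r88_18 : Rw Blk := .tok (nat_lit 3) (nat_lit 0xbc0001780003043a8) (.hit (nat_lit 0) (nat_lit 0) (nat_lit 0xbc000178000302eac) b60727 (.tok (nat_lit 9) (nat_lit 0xbc0001780003023bf) (.hit (nat_lit 1) (nat_lit 20) (nat_lit 0xbc000178000300836) b60728 (.hit (nat_lit 4) (nat_lit 28) (nat_lit 0xbc0001780002feca3) b60731 (.tok (nat_lit 68) (nat_lit 0xbc0001780003023bf) (.hit (nat_lit 2) (nat_lit 26) (nat_lit 0xbc000178000300704) b60729 (.hit (nat_lit 6) (nat_lit 32) (nat_lit 0xbc0001780003001a0) b60732 (.one (nat_lit 9) (nat_lit 3) (nat_lit 27) (nat_lit 0xbc0001780003023bf) b60730 (.nil)))) (.nil)))) (.tok (nat_lit 64) (nat_lit 0xbc0001780003018c5) (.hit (nat_lit 7) (nat_lit 50) (nat_lit 0xbc000178000301879) b60733 (.hit (nat_lit 8) (nat_lit 51) (nat_lit 0xbc0001780003018c5) b60734 (.nil))) (.tok (nat_lit 67) (nat_lit 0xbc0001780003043a8) (.hit (nat_lit 9)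 (nat_lit 52) (nat_lit 0xbc0001780003043a8) b60735 (.one (nat_lit 3) (nat_lit 15) (nat_lit 58) (nat_lit 0xbc000178000301f5c) b60741 (.tok (nat_lit 9) (nat_lit 0xbc00017800030297e) (.hit (nat_lit 10) (nat_lit 53) (nat_lit 0xbc00017800030297e) b60736 (.hit (nat_lit 13) (nat_lit 56) (nat_lit 0xbc000178000301d16) b60739 (.tok (nat_lit 67) (nat_lit 0xbc0001780003028d0) (.hit (nat_lit 11) (nat_lit 54) (nat_lit 0xbc0001780003028d0) b60737 (.hit (nat_lit 14) (nat_lit 57) (nat_lit 0xbc0001780003020b4) b60740 (.one (nat_lit 9) (nat_lit 12) (nat_lit 55) (nat_lit 0xbc000178000301b51) b60738 (.nil)))) (.nil)))) (.nil)))) (.one (nat_lit 70) (nat_lit 16) (nat_lit 60) (nat_lit 0xbc00017800030143f) b60742 (.nil)))))) (.tok (nat_lit 6) (nat_lit 0xbc000178000303c5a) (.hit (nat_lit 17) (nat_lit 0) (nat_lit 0xbc000178000303c5a) b60743 (.tok (nat_lit 6) (nat_lit 0xbc00017800030309b) (.hit (nat_lit 18)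 (nat_lit 7) (nat_lit 0xbc00017800030309b) b60744 (.hit (nat_lit 19) (nat_lit 15) (nat_lit 0xbc000178000300474) b60745 (.one (nat_lit 68) (nat_lit 20) (nat_lit 18) (nat_lit 0xbc000178000302f69) b60746 (.nil)))) (.nil))) (.nil))
noncomputable def r88_19 : Rw Blk := .tok (nat_lit 3) (nat_lit 0xbc0001780002ff58c) (.hit (nat_lit 15) (nat_lit 0) (nat_lit 0xbc0001780002fe627) b26116 (.tok (nat_lit 9) (nat_lit 0xbc0001780002fdd11) (.hit (nat_lit 16) (nat_lit 20) (nat_lit 0xbc0001780002fb840) b26117 (.hit (nat_lit 21) (nat_lit 28) (nat_lit 0xbc0001780002fa2c1) b26122 (.tok (nat_lit 14) (nat_lit 0xbc0001780002fd8ef) (.hit (nat_lit 17) (nat_lit 24) (nat_lit 0xbc0001780002fcb79) b26118 (.hit (nat_lit 22) (nat_lit 30) (nat_lit 0xbc0001780002fd8ef) b26123 (.one (nat_lit 6) (nat_lit 18) (nat_lit 25) (nat_lit 0xbc0001780002fd50a) b26119 (.nil)))) (.tok (nat_lit 68) (nat_lit 0xbc0001780002fdd11)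 (.hit (nat_lit 19) (nat_lit 26) (nat_lit 0xbc0001780002fcbda) b26120 (.hit (nat_lit 24) (nat_lit 32) (nat_lit 0xbc0001780002fd562) b26124 (.one (nat_lit 9) (nat_lit 20) (nat_lit 27) (nat_lit 0xbc0001780002fdd11) b26121 (.nil)))) (.nil))))) (.tok (nat_lit 64) (nat_lit 0xbc0001780002fe305) (.hit (nat_lit 25) (nat_lit 50) (nat_lit 0xbc0001780002fdbef) b26125 (.hit (nat_lit 26) (nat_lit 51) (nat_lit 0xbc0001780002fe305) b26126 (.nil))) (.tok (nat_lit 67) (nat_lit 0xbc0001780002ff58c) (.hit (nat_lit 27) (nat_lit 52) (nat_lit 0xbc0001780002fee42) b26127 (.tok (nat_lit 3) (nat_lit 0xbc0001780002fea14) (.hit (nat_lit 33) (nat_lit 58) (nat_lit 0xbc0001780002fea14) b26133 (.one (nat_lit 55) (nat_lit 34) (nat_lit 59) (nat_lit 0xbc0001780002fdfd6) b26134 (.nil))) (.tok (nat_lit 9) (nat_lit 0xbc0001780002ff58c) (.hit (nat_lit 28) (nat_lit 53) (nat_lit 0xbc0001780002feb05) b26128 (.hit (nat_lit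 31) (nat_lit 56) (nat_lit 0xbc0001780002fe741) b26131 (.tok (nat_lit 67) (nat_lit 0xbc0001780002ff58c) (.hit (nat_lit 29) (nat_lit 54) (nat_lit 0xbc0001780002ff58c) b26129 (.hit (nat_lit 32) (nat_lit 57) (nat_lit 0xbc0001780002fe7b6) b26132 (.one (nat_lit 9) (nat_lit 30) (nat_lit 55) (nat_lit 0xbc0001780002ff439) b26130 (.nil)))) (.nil)))) (.nil)))) (.one (nat_lit 70) (nat_lit 35) (nat_lit 60) (nat_lit 0xbc0001780002fe987) b26135 (.nil)))))) (.tok (nat_lit 6) (nat_lit 0xbc000178000300000) (.hit (nat_lit 0) (nat_lit 0) (nat_lit 0xbc0001780002fec30) b26109 (.tok (nat_lit 6) (nat_lit 0xbc000178000300000) (.hit (nat_lit 1) (nat_lit 7) (nat_lit 0xbc0001780002fe00c) b26110 (.hit (nat_lit 4) (nat_lit 15) (nat_lit 0xbc0001780002fe0d2) b26113 (.tok (nat_lit 14) (nat_lit 0xbc000178000300000) (.hit (nat_lit 2) (nat_lit 11) (nat_lit 0xbc000178000300000) b26111 (.hit (nat_lit 5) (nat_lit 17)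 (nat_lit 0xbc0001780002fe5e6) b26114 (.one (nat_lit 9) (nat_lit 3) (nat_lit 12) (nat_lit 0xbc0001780002fff93) b26112 (.nil)))) (.one (nat_lit 68) (nat_lit 6) (nat_lit 18) (nat_lit 0xbc0001780002fe3bc) b26115 (.nil))))) (.nil))) (.nil))
noncomputable def r88_20 : Rw Blk := .tok (nat_lit 6) (nat_lit 0x300000600000c0000180000300000600000c0000180000300000600000c00001800003010e3600000c000018000030001a600000c0000180000300000) (.hit (nat_lit 81) (nat_lit 0) (nat_lit 0x2fddac5fdd54bfb1e57f0682feecb5fba88bf89757f1562feb3c5fbd32bfc3757efe5afe0aa5fc3fabfcdfd7f308afdc455fbc82bfb5097f1f4afe301) b60747 (.tok (nat_lit 14) (nat_lit 0x3000005ffd8ac0000180000300000600000bfc75d7facfaffcd45ffa8ec00001800003010e3600000bfeb298000030001a600000bffa217ff042ff78a) (.hit (nat_lit 117) (nat_lit 61) (nat_lit 0x2ff2aa5ffb2ac000017f71e2ffac7600000bfc6217facfaff77c5fdcc6bfeea5800002ff6565ffdbabfeb297fc50b0001a600000bff7c57fc1a2ff323)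 b60748 (.one (nat_lit 3) (nat_lit 118) (nat_lit 62) (nat_lit 0x2fe5045fdf56bfec257eb15afe2665fcc5cbf749d7eea2afe4b05fd80abfcf317f5d3afe8425fd6babf9f057f7ecafed5a5fdb5ebfbb417f9baafee7f) b60749 (.tok (nat_lit 6) (nat_lit 0x2fe7e35fdd04bfd9197f16e2fef675fdeb0bf8b997f51fafec1c5fda86bfc8b57fb962fefe55fefa6bfd0757fc5e2ffbf55ff6dcbfe2bd7fbaeafe9f2) (.hit (nat_lit 121) (nat_lit 65) (nat_lit 0x2fcf795facaabfb8417f16e2fef675faa0cbf551d7f51fafec1c5fac64bfc1257f440afe48c5fc8d0bfd0757ed112fe22f5fcf54bfe2bd7f009afddb3) b60752 (.hit (nat_lit 122) (nat_lit 66) (nat_lit 0x2fe7e35fdd04bfd9197ede5afe8075fdeb0bf8b997f17a2fea6d5fda86bfc8b57fb962fefe55fefa6bfca7d7fc5e2ffbf55ff6dcbfd2057fbaeafe9f2) b60753 (.nil))) (.tok (nat_lit 9) (nat_lit 0x3000005ffd8abffc55800003000005ff552bfc75d7f8f4affcd45ffa8ec000017f74a3010e3600000bfc4c9800002febc15fe818bffa217ff042ff78a) (.hit (nat_lit 119) (nat_lit 63) (nat_lit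 0x3000005ffd8abfe355800003000005ff552bfc75d7f8f4affcd45ffa8ec000017f74a2ff53f5fec18bfc4c97fcceafebc15fe818bffa217f9efaff73d) b60750 (.hit (nat_lit 120) (nat_lit 64) (nat_lit 0x2fe22e5fcef6bffc557ec2e2fe43c5fcd40bf75097ef8a2fe4b65fc230bf97a97f45db010e3600000bfb6d5800002fe2695fcfc8bfcea57ff042ff78a) b60751 (.nil))) (.nil))))) (.one (nat_lit 17) (nat_lit 123) (nat_lit 67) (nat_lit 0x2fd79e5fcefcbfb6f97e75eafd90d5fad16bf570d7eae92fde4d5fd740bfd3997ee122fde4f5fbf4abfc8f17f3a0afe5675fc77ebfbcb17f29cafe830) b60754 (.tok (nat_lit 20) (nat_lit 0x2fe9c45ff552bfdf2d7f64fafedd85fecfac0000180000300000600000bfe3b57f51eafed6d5fd3d6bfc3817fb652fecf45fe148bfc6497fa74b00000) (.hit (nat_lit 124) (nat_lit 68) (nat_lit 0x2fe9c45ff552bfdf2d7f64fafedd85fecfac0000180000300000600000bfe3b57f51eafed6d5fd3d6bfc3817fb652fecf45fe148bfc6497fa74b00000) b60755 (.hit (nat_lit 125) (nat_lit 69) (nat_lit 0x2fd6c85fb162bfd0d97e47bafd51a5fab44bf53717ea7dafdd505fb074bf73517ed7c2fe4be5fc150bf96597f4822fd4a65fb442bf822d7f64e2fe0a2)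 b60756 (.nil))) (.tok (nat_lit 23) (nat_lit 0x2fd5f55fb42abfa7ad7f003afec925fa9cebf50717f3b52fe9475fb32ebfb5d17ee412fd88d5fb0d2bfcbf57ef272fda195fb756bfcf1d7ee722fe13f) (.hit (nat_lit 126) (nat_lit 70) (nat_lit 0x2fcca45fa700bfa7ad7f003afec925fa462bf49c97f3b52fe9475fa6babfb5d17ee412fd88d5fb0d2bfcbf57eba6afd6305fb756bfcf1d7ee722fe13f) b60757 (.hit (nat_lit 127) (nat_lit 71) (nat_lit 0x2fd5f55fb42abf7a7d7e5412fd5075fa9cebf50717ea152fdca75fb32ebf8ced7ec4aafd4995fad84bf86957ef272fda195fb580bf7fa57ee19afd63e) b60758 (.nil))) (.one (nat_lit 38) (nat_lit 132) (nat_lit 76) (nat_lit 0x2fd2a45fb326bfa4c57e6aeafd9e85fa310bf42f97ea602fd9495fb142bf74a57ed31afdb105faf3cbf7e517ef502fd4115fb318bf90317eeac2fd4fc) b60759 (.tok (nat_lit 41) (nat_lit 0x2fd7995fcee6bfb8517e5d2afd5415fad0abf4bc17e9732fdad35fc54ebf99457ebefafdaa25fb798bfa1fd7f2cb2fdf645fb960bf97c57f1beafe1f4) (.hit (nat_lit 133) (nat_lit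 77) (nat_lit 0x2fcda65fbad6bf9ce57df62afcb465fabf8bf2ac97e564afd03b5fa8d2bf614d7e4c52fd9155fb798beed797f285afce695fa124bf35f97ef022fdd21) b60760 (.hit (nat_lit 134) (nat_lit 78) (nat_lit 0x2fd7995fcee6bfb8517e5d2afd5415fad0abf4bc17e9732fdad35fc54ebf99457ebefafdaa25fb696bfa1fd7f2cb2fdf645fb960bf97c57f1beafe1f4) b60761 (.nil))) (.tok (nat_lit 44) (nat_lit 0x2fdc135fe3b2bfd9857ed67afde375fbb2abf6cc97eda02fdb345fb9bcbf90ad7eb9dafd6585fab36bfb6457f30aafdc605fc430bfb4ad7f1fb2fdc2d) (.hit (nat_lit 135) (nat_lit 79) (nat_lit 0x2fdc135fe3b2bfd9857ed67afde375fbb2abf6cc97eda02fdb345fb9bcbf90ad7ea1b2fd40f5fab36bfb6457f30aafdc605fc430bfb4ad7f1fb2fdc2d) b60762 (.hit (nat_lit 136) (nat_lit 80) (nat_lit 0x2fd34c5faa98bf97e97e2afafd0ec5fa44ebf45cd7e8c0afd9fe5fa9aebf657d7eb9dafd6585faab8bf96797ee2e2fd35c5facc8bf95357ee3cafd5c8) b60763 (.nil))) (.tok (nat_lit 47) (nat_lit 0x2fd7385fbd4cbf8de57e7a02fd8d85fac54bf557d7eab6afddea5fbfbabf9d0d7ec372fd5b75faf6cbfd47d7f2742fddfa5fbad8bf79a17f1652fe5ad)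 (.hit (nat_lit 137) (nat_lit 81) (nat_lit 0x2fb8ea5f7f8cbf6aa97e626afd8d85f7ceebefae17e9d82fd58d5f7f46bf66e97e35dafc2c65f8544bfd47d7e1c9afc0695f8bc8bf77d57e66d2fe5ad) b60764 (.hit (nat_lit 138) (nat_lit 82) (nat_lit 0x2fd7385fbd4cbf8de57e7a02fd4e15fac54bf557d7eab6afddea5fbfbabf9d0d7ec372fd5b75faf6cbf8f717f2742fddfa5fbad8bf79a17f1652fdf10) b60765 (.nil))) (.one (nat_lit 50) (nat_lit 139) (nat_lit 83) (nat_lit 0x2fdbcb5fc35cbfb3e97e7ceafd96d5fb578bf67bd7ecfeafe27a5fc6c4bf9fa97ee4d2fe0ad5fc0fcbfc3817f3a32fe1a95fc41abf97857f3042fe0a1) b60766 (.tok (nat_lit 53) (nat_lit 0x2fdcc35ff046bfe7b17ed20afe6cc5fd084bf8f917f1f92fe95e5fec08bfebfd7fba92ff2bb5ff696bfcfd97feac2ffc8c5ffd8ebfba61800002ffa94) (.hit (nat_lit 140) (nat_lit 84) (nat_lit 0x2fdcc35ff046bfe7b17ed20afe6cc5fd084bf8f917f1f92fe95e5fec08bfebfd7fba92ff2bb5ff696bfcfd97feac2ffc8c5ffd8ebfba61800002ffa94) b60767 (.hit (nat_lit 141)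 (nat_lit 85) (nat_lit 0x2fd8825fc46abfb6957e6c6afd62b5faee2bf5a4d7eb54afdf215fcda4bfaed97ec4dafd94f5fb386bfbb557f2aa2fdfe55fbffebfa5557f20a2fe3a8) b60768 (.nil))) (.tok (nat_lit 56) (nat_lit 0x2ff39a600000bff5797fab8affa9e5feb9ebfd28d7fa0b2ff60e5fe41ebfdf0d7fc82affa335ff6d8c000017fd9faffb2d5ffb98c000017fefaaff7f7) (.hit (nat_lit 142) (nat_lit 86) (nat_lit 0x2ff383600000bfe4597f6eb2ffa9e5fe316bfd28d7fa0b2ff60e5fe23cbfd0997f7fdafef655fe136bff90d7fafe2fee255fe40cbfee057f9ea2fee00) b60769 (.one (nat_lit 3) (nat_lit 146) (nat_lit 90) (nat_lit 0x2fe7df5fdd4abfc6417f12d2fe99b5fcc1cbf8bd57f1f92fe5cf5fc0aabfa7f17f31fafe24a5fc44cbfd6557f3dbafdfed5fcad0bfde217f3922fe492) b60773 (.tok (nat_lit 6) (nat_lit 0x2ff39a5fe554bff5797f225afefa85feb9ebfbb997f6162ff45f5fe41ebfda5d7fc82affa335ff6d8bfdfc97fd9faffb2d5ffb98c000017fefaaff7f7) (.hit (nat_lit 144) (nat_lit 88) (nat_lit 0x2ff39a5fe554bff5797f225afefa85feb9ebfbb997f6162ff45f5fe41ebfda5d7fc82affa335ff6d8bfdfc97fd9faffb2d5ffb98bff4457fefaaff7f7)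 b60771 (.hit (nat_lit 145) (nat_lit 89) (nat_lit 0x2fd99f5fe31cbfe1a97ea83afe1925fb108bf47817ee352fde475fc64abfa36d7f117afde3a5fbc2cbfc4897f1e4afdbdd5fc2b0c000017f8a82fe9b9) b60772 (.nil))) (.one (nat_lit 9) (nat_lit 143) (nat_lit 87) (nat_lit 0x2ff0c45ffd40bfe2257fab8affa135fe0cebfbd397f8dcaff3965fe27cbfdf0d7f8022ff1395fe648c000017fcb82ff2e05fe98abff3857fbaf2ff061) b60770 (.nil))))) (.one (nat_lit 59) (nat_lit 147) (nat_lit 91) (nat_lit 0x2fd4bb5faf0ebf9b6d7e51f2fd25b5fa758bf4b897e9782fdb6d5fbf96bf9eb17eb4e2fd7075fadb4bf8efd7f024afdceb5fb98ebf70797efec2fdf73) b60774 (.one (nat_lit 62) (nat_lit 148) (nat_lit 92) (nat_lit 0x2fd1835fa9a8bf94ed7e4942fd5b35fa0e8bf3ea97e845afd8355faf2cbf70797ec0cafd8fe5fb12abf92617efd12fd5225fae84bf96457ef1d2fd5fe) b60775 (.tok (nat_lit 65) (nat_lit 0x2fdaf85fda54bfb0557e64c2fd8c55fbfb2bf61157ec29afddbe5fcc8ebfacc97f03a2fe0b85fc44ebfa2f57f5612feb085fc9a8bfaaa97f4cbafe136)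 (.hit (nat_lit 149) (nat_lit 93) (nat_lit 0x2fdaf85fda54bfb0557e62f2fd8c55fbfb2bf61157ec29afddbe5fcc8ebfacc97f03a2fe0b85fc44ebf7f157f5612fe61c5fc9a8bf92697f4cbafe136) b60776 (.hit (nat_lit 150) (nat_lit 94) (nat_lit 0x2fd4db5fbe22bf97157e64c2fd2825fa78ebf4c097e9882fdb8d5fc680bfac557ead6afd3545faa84bfa2f57f4322feb085fc956bfaaa97f3232fdf7c) b60777 (.nil))) (.tok (nat_lit 68) (nat_lit 0x2fdfdd5fdc0abfea257f1122feeaf5fc4fabf7b197f4c3afeb645fc360bfbe457f4adafea7f5fd76cbfff897ecb52fe1de5fce80bfe2e17f4932fee2d) (.hit (nat_lit 151) (nat_lit 95) (nat_lit 0x2fdfdd5fdc0abfea257f1122feeaf5fc4fabf7b197f4c3afeb645fc360bfbe457f4adafea7f5fd76cbfe6617ecb52fe1de5fce80bfe2e17f4932fe7e1) b60778 (.one (nat_lit 3) (nat_lit 155) (nat_lit 99) (nat_lit 0x2fc1c85f9148bfb97d7ea95afe1b65f8eaabf1e597ee472fde6b5f9102bf8a617e7d7afcbba5f972cbfd9a57e638afc95d5f9db0bfb7817eb6e2fe695) b60782 (.one (nat_lit 6) (nat_lit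 152) (nat_lit 96) (nat_lit 0x2fccf75fa7a6bfcb4d7f02d2fece55fa508bf4b157f3deafe99a5fa760bfb71d7eeb8afd97c5fb2b0bfe5b97ebd02fd71f5fb934bfca457ee10afe896) b60779 (.tok (nat_lit 9) (nat_lit 0x2fce235fa9febfe8717f0c32fee115fa760bf4fc57f474afeac65fa9b8bfbbcd7f0f9afddfe5fbbb4bfff897ec662fdba15fc238bfd2097ee6cafee2d) (.hit (nat_lit 153) (nat_lit 97) (nat_lit 0x2fc58d5f98d2bfe4697ec782fe57b5f9634bf2d6d7f029afe2305f988cbf99757f0f9afddfe5fbbb4bffca17e81b2fdba15fc238bfd2097ee6cafe15c) b60780 (.hit (nat_lit 154) (nat_lit 98) (nat_lit 0x2fce235fa9febfe8717f0c32fee115fa760bf4fc57f474afeac65fa9b8bfbbcd7eb542fd2f15fa830bfff897ec662fd0565faba2bfc9e17edc02fee2d) b60781 (.nil))) (.nil))))) (.one (nat_lit 71) (nat_lit 156) (nat_lit 100) (nat_lit 0x2fcb365fa294bf6bad7dfc32fc8d65f944abf25757e4b5afd1e85fad60bf7e697e6142fc9a75f968abf64a57eb322fd2b85fa5a8bf69117ea24afd31f) b60783 (.nil))))))))))))))))))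 (.nil)
noncomputable def r88_21 : Rw Blk := .tok (nat_lit 14) (nat_lit 0x1780002f00005f8e7abf4ddd7ef6c2fd2355fb7ecbf6b317edecafd3a6) (.hit (nat_lit 134) (nat_lit 0) (nat_lit 0x1780002f00005f8e7abf4ddd7ef6c2fd2355fb7ecbf6b317edecafd3a6) b60795 (.one (nat_lit 3) (nat_lit 135) (nat_lit 1) (nat_lit 0x1780002f00005f3a64beb7617dc9cafac965f6caebed4b57db1d2fae07) b60796 (.tok (nat_lit 6) (nat_lit 0x1780002f00005f826abf476d7ee9e2fd0995fb4b4bf64c17ed1eafd20a) (.hit (nat_lit 136) (nat_lit 7) (nat_lit 0x1780002f00005f7764bf31617ebdcafcb165fa9aebf4eb57ea5d2fcc87) b60797 (.hit (nat_lit 137) (nat_lit 15) (nat_lit 0x1780002f00005f826abf476d7ee9e2fd0995fb4b4bf64c17ed1eafd20a) b60798 (.nil))) (.tok (nat_lit 9) (nat_lit 0x1780002f00005f7aa2bf37dd7ecac2fccb55facecbf55317eb2cafce26) (.hit (nat_lit 138) (nat_lit 20) (nat_lit 0x1780002f00005f7764bf31617ebdcafcb165fa9aebf4eb57ea5d2fcc87) b60797 (.hit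 (nat_lit 139) (nat_lit 28) (nat_lit 0x1780002f00005f7aa2bf37dd7ecac2fccb55facecbf55317eb2cafce26) b60799 (.nil))) (.nil))))) (.tok (nat_lit 17) (nat_lit 0x1780002f00005f8f20bf4dd57ed26afd0fd5fc806bf89f57ef092fd036) (.hit (nat_lit 140) (nat_lit 0) (nat_lit 0x1780002f00005f8f20bf4dd57e9df2fd0fd5fc806bf89f57ef092fd036) b60800 (.one (nat_lit 3) (nat_lit 141) (nat_lit 1) (nat_lit 0x1780002f00005f304abea32d7da162fa7895f6294bec0817d896afa8fa) b60801 (.tok (nat_lit 6) (nat_lit 0x1780002f00005f7c8cbf3bb17ed26afcdaa5faed6bf59057eba72fcf1b) (.hit (nat_lit 142) (nat_lit 7) (nat_lit 0x1780002f00005f6c8abf1bad7e9262fc5a95f9ed4bf39017e7a6afc71a) b60802 (.hit (nat_lit 143) (nat_lit 15) (nat_lit 0x1780002f00005f7c8cbf3bb17ed26afcdaa5faed6bf59057eba72fcf1b) b60803 (.nil))) (.tok (nat_lit 9) (nat_lit 0x1780002f00005f768cbf2fb17eba6afcaaa5fa8d6bf4d057ea272fcc1b) (.hit (nat_lit 144) (nat_lit 20) (nat_lit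 0x1780002f00005f669ebf0fd57e7ab2fc2b35f98e8bf2d297e62bafc424) b60804 (.hit (nat_lit 145) (nat_lit 28) (nat_lit 0x1780002f00005f768cbf2fb17eba6afcaaa5fa8d6bf4d057ea272fcc1b) b60805 (.nil))) (.nil))))) (.tok (nat_lit 20) (nat_lit 0x1780002f00005fc67cbfbcb57f46e2fe6825fd72ebfb0357f545afe1ad) (.hit (nat_lit 128) (nat_lit 0) (nat_lit 0x1780002f00005fc67cbfbcb57f46e2fe6825fd72ebfb0357f545afe1ad) b60790 (.one (nat_lit 3) (nat_lit 129) (nat_lit 1) (nat_lit 0x1780002f00005fab6cbf63717ec20afd6145fb722bf71a57ecfb2fd215) b60791 (.tok (nat_lit 6) (nat_lit 0x1780002f00005fa6ecbf71d17f2792fd92e5fc420bf83997f0f9afd9c0) (.hit (nat_lit 130) (nat_lit 7) (nat_lit 0x1780002f00005f703cbf23117ea12afc7825fa286bf40657e8932fc8f3) b60786 (.hit (nat_lit 131) (nat_lit 15) (nat_lit 0x1780002f00005fa6ecbf71d17f2792fd92e5fc420bf83997f0f9afd9c0) b60792 (.nil))) (.tok (nat_lit 9) (nat_lit 0x1780002f00005fae20bf85717f249afdec05fccb4bf95cd7f0ca2fd961)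 (.hit (nat_lit 132) (nat_lit 20) (nat_lit 0x1780002f00005fae20bf85717f06f2fdec05fccb4bf95cd7f06cafd8e9) b60793 (.hit (nat_lit 133) (nat_lit 28) (nat_lit 0x1780002f00005fa2c2bf76597f249afdadc5fc362bf84717f0ca2fd961) b60794 (.nil))) (.nil))))) (.tok (nat_lit 23) (nat_lit 0x1780002f00005f9004bf43b97ee27afcfac5fb2dabf610d7eca82fd11d) (.hit (nat_lit 122) (nat_lit 0) (nat_lit 0x1780002f00005f9004bf37c97eca9afccb05face2bf551d7eb2a2fce21) b60784 (.one (nat_lit 3) (nat_lit 123) (nat_lit 1) (nat_lit 0x1780002f00005f4156bec5457de592fb00f5f73a0bee2997dcd9afb180) b60785 (.tok (nat_lit 6) (nat_lit 0x1780002f00005f8090bf43b97ee27afcfac5fb2dabf610d7eca82fd11d) (.hit (nat_lit 124) (nat_lit 7) (nat_lit 0x1780002f00005f703cbf23117ea12afc7825fa286bf40657e8932fc8f3) b60786 (.hit (nat_lit 125) (nat_lit 15) (nat_lit 0x1780002f00005f8090bf43b97ee27afcfac5fb2dabf610d7eca82fd11d) b60787 (.nil))) (.tok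 (nat_lit 9) (nat_lit 0x1780002f00005f7c60bf3b597ed1bafcd945faeaabf58ad7eb9c2fcf05) (.hit (nat_lit 126) (nat_lit 20) (nat_lit 0x1780002f00005f6ea2bf1fdd7e9ac2fc6b55fa0ecbf3d317e82cafc826) b60788 (.hit (nat_lit 127) (nat_lit 28) (nat_lit 0x1780002f00005f7c60bf3b597ed1bafcd945faeaabf58ad7eb9c2fcf05) b60789 (.nil))) (.nil))))) (.tok (nat_lit 38) (nat_lit 0x1780002f00005fb760bfbc1d7f7392fec356003c2bff4b17f95dafe45b) (.hit (nat_lit 239) (nat_lit 0) (nat_lit 0x1780002f00005fb760bfbc1d7f7392fec356003c2bff4b17f95dafe45b) b60850 (.one (nat_lit 3) (nat_lit 240) (nat_lit 1) (nat_lit 0x1780002f00005f4a5abed74d7e09a2fb4915f7ca4bef4a17df1aafb602) b60851 (.tok (nat_lit 6) (nat_lit 0x1780002f00005f5184bee5a17e264afb8265f83cebf02f57e0e52fb997) (.hit (nat_lit 241) (nat_lit 7) (nat_lit 0x1780002f00005f5184bee5a17e264afb8265f83cebf02f57e0e52fb997) b60852 (.hit (nat_lit 242) (nat_lit 15) (nat_lit 0x1780002f00005f452ebeccf57df4f2fb1fb5f7778beea497ddcfafb36c)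 b60853 (.nil))) (.tok (nat_lit 9) (nat_lit 0x1780002f00005f749ebf2bd57eb2b2fc9b35fa6e8bf49297e9abafcb24) (.hit (nat_lit 243) (nat_lit 20) (nat_lit 0x1780002f00005f749ebf2bd57eb2b2fc9b35fa6e8bf49297e9abafcb24) b60854 (.hit (nat_lit 244) (nat_lit 28) (nat_lit 0x1780002f00005f524ebee7357e2972fb88b5f8498bf04897e117afb9fc) b60855 (.nil))) (.nil))))) (.tok (nat_lit 41) (nat_lit 0x1780002f0000600000c0517180c9fb010d960135ac02f2d8095f300000) (.hit (nat_lit 250) (nat_lit 0) (nat_lit 0x1780002f00005fc858bfd5597f586aff2665fd3febfb21d7f369afe13f) b60856 (.one (nat_lit 3) (nat_lit 251) (nat_lit 1) (nat_lit 0x1780002f00005fb632bf8e8d7f25eafe0ac5fba54bf78c17f0ed2fd302) b60857 (.tok (nat_lit 6) (nat_lit 0x1780002f0000600000c0517180c9fb010d960135ac02f2d8095f300000) (.hit (nat_lit 252) (nat_lit 7) (nat_lit 0x1780002f0000600000c0517180c9fb010d960135ac02f2d8095f300000) b60858 (.hit (nat_lit 253) (nat_lit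 15) (nat_lit 0x1780002f00005fb63cbf9f217f44bafe50e5fcb6abf95717f2cc2fdd65) b60859 (.nil))) (.tok (nat_lit 9) (nat_lit 0x1780002f00005fcf8cbfb8e57f8792fee335fc8fcbf96d97f1b9afe45c) (.hit (nat_lit 254) (nat_lit 20) (nat_lit 0x1780002f00005fcf8cbfb8e57f8792fee335fc8fcbf96d97f1b9afe45c) b60860 (.hit (nat_lit 255) (nat_lit 28) (nat_lit 0x1780002f00005fb1e4bf83397f15c2fde315fbfacbf7ab17f0d5afd786) b60861 (.nil))) (.nil))))) (.tok (nat_lit 44) (nat_lit 0x1780002f00005ffc18c026d1807b83003ba600f7ac020d580598aff18d) (.hit (nat_lit 278) (nat_lit 0) (nat_lit 0x1780002f00005fc3b4bfc8bd7f708afeb355fe158bfbb3d7f5ed2fdb11) b60868 (.one (nat_lit 3) (nat_lit 279) (nat_lit 1) (nat_lit 0x1780002f00005f9196bf422d7ea66afce255fb684bf63217e95eafbf7d) b60869 (.tok (nat_lit 6) (nat_lit 0x1780002f00005fcc68bfb6457f748afeeba5fd0b8bf99757f0382fe075) (.hit (nat_lit 280) (nat_lit 7) (nat_lit 0x1780002f00005fcc68bfb6457f748afeeba5fd0b8bf99757f0382fe075)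 b60870 (.hit (nat_lit 281) (nat_lit 15) (nat_lit 0x1780002f00005fa514bf790d7ef232fdbca5fc0dcbf7a7d7ed682fcc5d) b60871 (.nil))) (.tok (nat_lit 9) (nat_lit 0x1780002f00005ffc18c026d1807b83003ba600f7ac020d580598aff18d) (.hit (nat_lit 282) (nat_lit 20) (nat_lit 0x1780002f00005ffc18c026d1807b83003ba600f7ac020d580598aff18d) b60872 (.hit (nat_lit 283) (nat_lit 28) (nat_lit 0x1780002f00005fa878bf82d97f098afde2b5fbcbebf74d57ef192fd5ff) b60873 (.nil))) (.nil))))) (.tok (nat_lit 47) (nat_lit 0x1780002f00005fcd22bfbf15804742ff86a5fcbdcbf98097f7472fe879) (.hit (nat_lit 264) (nat_lit 0) (nat_lit 0x1780002f00005fcd22bfbf15804742ff86a5fcbdcbf98097f7472fe879) b60862 (.one (nat_lit 3) (nat_lit 265) (nat_lit 1) (nat_lit 0x1780002f00005f56c0bef0197e3b3afbac45f890abf0d6d7e2342fbc35) b60863 (.tok (nat_lit 6) (nat_lit 0x1780002f00005f839cbf49d17eeeaafd1325fb5e6bf67257ed6b2fd2a3) (.hit (nat_lit 266)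 (nat_lit 7) (nat_lit 0x1780002f00005f7fd4bf42417edf8afcf4e5fb21ebf5f957ec792fd0bf) b60864 (.hit (nat_lit 267) (nat_lit 15) (nat_lit 0x1780002f00005f839cbf49d17eeeaafd1325fb5e6bf67257ed6b2fd2a3) b60865 (.nil))) (.tok (nat_lit 9) (nat_lit 0x1780002f00005f5e9ebeffd57e5ab2fbeb35f90e8bf1d297e42bafc024) (.hit (nat_lit 268) (nat_lit 20) (nat_lit 0x1780002f00005f5e9ebeffd57e5ab2fbeb35f90e8bf1d297e42bafc024) b60866 (.hit (nat_lit 269) (nat_lit 28) (nat_lit 0x1780002f00005f4f40bee1197e1d3afb7045f818abefe6d7e0542fb875) b60867 (.nil))) (.nil))))) (.tok (nat_lit 50) (nat_lit 0x1780002f00005f8f6abf5ee17ec0fafd1aa5fc100bf86e17efd5afd3f6) (.hit (nat_lit 170) (nat_lit 0) (nat_lit 0x1780002f00005f8f6abf5ee17ea992fd1aa5fc100bf86e17efd5afd3f6) b60829 (.one (nat_lit 3) (nat_lit 171) (nat_lit 1) (nat_lit 0x1780002f00005f41dcbec6517de7aafb0525f7426bee3a57dcfb2fb1c3) b60830 (.tok (nat_lit 6) (nat_lit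 0x1780002f00005f7830bf32f97ec0fafcb7c5faa7abf504d7ea902fcced) (.hit (nat_lit 172) (nat_lit 7) (nat_lit 0x1780002f00005f7830bf32f97ec0fafcb7c5faa7abf504d7ea902fcced) b60831 (.hit (nat_lit 173) (nat_lit 15) (nat_lit 0x1780002f00005f5274bee7817e2a0afb89e5f84bebf04d57e1212fba0f) b60832 (.nil))) (.tok (nat_lit 9) (nat_lit 0x1780002f00005f51cebee6357e2772fb84b5f8418bf03897e0f7afb9bc) (.hit (nat_lit 174) (nat_lit 20) (nat_lit 0x1780002f00005f51cebee6357e2772fb84b5f8418bf03897e0f7afb9bc) b60833 (.hit (nat_lit 175) (nat_lit 28) (nat_lit 0x1780002f00005f4bb6beda057e0f12fb53f5f7e00bef7597df71afb6b0) b60834 (.nil))) (.nil))))) (.tok (nat_lit 53) (nat_lit 0x1780002f00005fb1c8bfbc697f6392fea2d5fe658bfd1f17f93c2fec71) (.hit (nat_lit 181) (nat_lit 0) (nat_lit 0x1780002f00005fb0e8bfbc697f6392fea2d5fe658bfd1f17f93c2febc5) b60835 (.one (nat_lit 3) (nat_lit 182) (nat_lit 1) (nat_lit 0x1780002f00005fa368bfa15d7f409afe5bd5fd634bfb1497f507afe6fd)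 b60836 (.tok (nat_lit 6) (nat_lit 0x1780002f00005fb1c8bfaa197f51f2fe9eb5fda9cbfba617f7fb2fec71) (.hit (nat_lit 183) (nat_lit 7) (nat_lit 0x1780002f00005fb1c8bfa6f57f4f12fe9eb5fda1ebfba617f7fb2fec71) b60837 (.hit (nat_lit 184) (nat_lit 15) (nat_lit 0x1780002f00005fa018bfaa197f51f2fe7ee5fda9cbfba117f620afe92f) b60838 (.nil))) (.tok (nat_lit 9) (nat_lit 0x1780002f00005fa4f2bfa4b97f476afe69a5fd0cebfaa017f573afe7d9) (.hit (nat_lit 185) (nat_lit 20) (nat_lit 0x1780002f00005f5f24bf00e17e5ccafbef65f916ebf1e357e44d2fc067) b60839 (.hit (nat_lit 186) (nat_lit 28) (nat_lit 0x1780002f00005fa4f2bfa4b97f476afe69a5fd0cebfaa017f573afe7d9) b60840 (.nil))) (.nil))))) (.tok (nat_lit 56) (nat_lit 0x1780002f00005f9032bf60697f1bdafd6d85fca5cbf87917f03e2fd849) (.hit (nat_lit 195) (nat_lit 0) (nat_lit 0x1780002f00005f9032bf60697f1bdafd6d85fca5cbf87917f03e2fd849) b60841 (.one (nat_lit 3) (nat_lit 196)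 (nat_lit 1) (nat_lit 0x1780002f00005f4156bec5457de592fb00f5f73a0bee2997dcd9afb180) b60785 (.tok (nat_lit 6) (nat_lit 0x1780002f00005f7764bf31617ebdcafcb165fa9aebf4eb57ea5d2fcc87) (.hit (nat_lit 197) (nat_lit 7) (nat_lit 0x1780002f00005f7764bf31617ebdcafcb165fa9aebf4eb57ea5d2fcc87) b60797 (.hit (nat_lit 198) (nat_lit 15) (nat_lit 0x1780002f00005f4432becafd7df102fb17d5f767cbee8517dd90afb2ee) b60822 (.nil))) (.tok (nat_lit 9) (nat_lit 0x1780002f00005f7ffabf428d7ee022fcf615fb244bf5fe17ec82afd0d2) (.hit (nat_lit 199) (nat_lit 20) (nat_lit 0x1780002f00005f6402bf0a9d7e7042fc1655f964cbf27f17e584afc2d6) b60842 (.hit (nat_lit 200) (nat_lit 28) (nat_lit 0x1780002f00005f7ffabf428d7ee022fcf615fb244bf5fe17ec82afd0d2) b60843 (.nil))) (.nil))))) (.tok (nat_lit 59) (nat_lit 0x1780002f00005f9d00bf85297f3a72fe0115fcfaebfa9017f7fb2fe442) (.hit (nat_lit 209) (nat_lit 0) (nat_lit 0x1780002f00005f9d00bf85297f3a72fe0115fcfaebfa9017f7fb2fe442)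 b60844 (.one (nat_lit 3) (nat_lit 210) (nat_lit 1) (nat_lit 0x1780002f00005f64b0bf0bf97e72fafc1bc5f96fabf294d7e5b02fc32d) b60845 (.tok (nat_lit 6) (nat_lit 0x1780002f00005f7ea8bf3fe97edadafceb85fb0f2bf5d3d7ec2e2fd029) (.hit (nat_lit 211) (nat_lit 7) (nat_lit 0x1780002f00005f7ea8bf3fe97edadafceb85fb0f2bf5d3d7ec2e2fd029) b60846 (.hit (nat_lit 212) (nat_lit 15) (nat_lit 0x1780002f00005f7e32bf3efd7ed902fce7d5fb07cbf5c517ec10afcfee) b60847 (.nil))) (.tok (nat_lit 9) (nat_lit 0x1780002f00005f8abebf58157f0b32fd4c35fbd08bf75697ef33afd634) (.hit (nat_lit 213) (nat_lit 20) (nat_lit 0x1780002f00005f7792bf31bd7ebe82fcb2d5fa9dcbf4f117ea68afcc9e) b60848 (.hit (nat_lit 214) (nat_lit 28) (nat_lit 0x1780002f00005f8abebf58157f0b32fd4c35fbd08bf75697ef33afd634) b60849 (.nil))) (.nil))))) (.tok (nat_lit 62) (nat_lit 0x1780002f00005f91c8bf63ad7f0012fd6545fba40bf6fd97ee81afd4d0) (.hit (nat_lit 146)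 (nat_lit 0) (nat_lit 0x1780002f00005f91c8bf63ad7ec382fd6545fb3aebf5fa57ea48afc762) b60806 (.one (nat_lit 3) (nat_lit 147) (nat_lit 1) (nat_lit 0x1780002f00005f22febe88957d6c32fa0e35f5548bea5e97d543afa254) b60807 (.tok (nat_lit 6) (nat_lit 0x1780002f00005f6ad2bf183d7e8b82fc4cd5f9d1cbf35917e738afc63e) (.hit (nat_lit 148) (nat_lit 7) (nat_lit 0x1780002f00005f6ad2bf183d7e8b82fc4cd5f9d1cbf35917e738afc63e) b60808 (.hit (nat_lit 149) (nat_lit 15) (nat_lit 0x1780002f00005f5166bee5657e25d2fb8175f83b0bf02b97e0ddafb988) b60809 (.nil))) (.tok (nat_lit 9) (nat_lit 0x1780002f00005f87f6bf52857f0012fd35f5fba40bf6fd97ee81afd4d0) (.hit (nat_lit 150) (nat_lit 20) (nat_lit 0x1780002f00005f87f6bf52857f0012fd35f5fba40bf6fd97ee81afd4d0) b60810 (.hit (nat_lit 151) (nat_lit 28) (nat_lit 0x1780002f00005f300cbea2b17da06afa76a5f6256bec0057d8872fa8db) b60811 (.nil))) (.nil))))) (.tok (nat_lit 65) (nat_lit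 0x1780002f00005fdefcc0171d8016cb002975ffedcc00f517fef52ff451) (.hit (nat_lit 152) (nat_lit 0) (nat_lit 0x1780002f00005fc49cbfcdb57fbf92fef485fdd1ebfb45d7f5712fde99) b60812 (.one (nat_lit 3) (nat_lit 153) (nat_lit 1) (nat_lit 0x1780002f00005fd250bf84e57f477afe75f5faebabf59897f4a82fe259) b60813 (.tok (nat_lit 6) (nat_lit 0x1780002f00005fdefcbfc9fd7fe6aaff67a5fcbd6bf953d7f6efafe40a) (.hit (nat_lit 154) (nat_lit 7) (nat_lit 0x1780002f00005f80a6bf43e57ee2d2fcfb75fb2f0bf61397ecadafd128) b60814 (.hit (nat_lit 155) (nat_lit 15) (nat_lit 0x1780002f00005fdefcbfc9fd7fe6aaff67a5fcbd6bf953d7f6efafe40a) b60815 (.nil))) (.tok (nat_lit 9) (nat_lit 0x1780002f00005fd83ec0171d8016cb002975ffedcc00f517fef52ff451) (.hit (nat_lit 156) (nat_lit 20) (nat_lit 0x1780002f00005fd83ec0171d8016cb002975ffedcc00f517fef52ff451) b60816 (.hit (nat_lit 157) (nat_lit 28) (nat_lit 0x1780002f00005fc4eebfc1fd7fe68afee2c5fcc28bf91517f354afdf56)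 b60817 (.nil))) (.nil))))) (.tok (nat_lit 68) (nat_lit 0x1780002f00005f9d3cbf6b817ee14afd8495fd6febf9ad57effcafd0f7) (.hit (nat_lit 158) (nat_lit 0) (nat_lit 0x1780002f00005f9d3cbf6b817ee14afd8495fd6febf9ad57effcafd0f7) b60818 (.one (nat_lit 3) (nat_lit 159) (nat_lit 1) (nat_lit 0x1780002f00005f4156bec5457de592fb00f5f73a0bee2997dcd9afb180) b60785 (.tok (nat_lit 6) (nat_lit 0x1780002f00005f7246bf27257ea952fc8875fa490bf44797e915afc9f8) (.hit (nat_lit 160) (nat_lit 7) (nat_lit 0x1780002f00005f6bb4bf1a017e8f0afc53e5f9dfebf37557e7712fc6af) b60819 (.hit (nat_lit 161) (nat_lit 15) (nat_lit 0x1780002f00005f7246bf27257ea952fc8875fa490bf44797e915afc9f8) b60820 (.nil))) (.tok (nat_lit 9) (nat_lit 0x1780002f00005f637cbf09917e6e2afc1225f95c6bf26e57e5632fc293) (.hit (nat_lit 162) (nat_lit 20) (nat_lit 0x1780002f00005f637cbf09917e6e2afc1225f95c6bf26e57e5632fc293) b60821 (.hit (nat_lit 163) (nat_lit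 28) (nat_lit 0x1780002f00005f4432becafd7df102fb17d5f767cbee8517dd90afb2ee) b60822 (.nil))) (.nil))))) (.tok (nat_lit 71) (nat_lit 0x1780002f00005fb222bf9c817f62aafe4a45fb650bf65b97f050afd464) (.hit (nat_lit 164) (nat_lit 0) (nat_lit 0x1780002f00005fb222bf9c817f62aafe4a45fb650bf65b97f050afd464) b60823 (.one (nat_lit 3) (nat_lit 165) (nat_lit 1) (nat_lit 0x1780002f00005f2b94be99c17d8e8afa52e5f5ddebeb7157d7692fa69f) b60824 (.tok (nat_lit 6) (nat_lit 0x1780002f00005f6f34bf21017e9d0afc6fe5fa17ebf3e557e8512fc86f) (.hit (nat_lit 166) (nat_lit 7) (nat_lit 0x1780002f00005f6f34bf21017e9d0afc6fe5fa17ebf3e557e8512fc86f) b60825 (.hit (nat_lit 167) (nat_lit 15) (nat_lit 0x1780002f00005f53e0beea597e2fbafb9545f862abf07ad7e17c2fbac5) b60826 (.nil))) (.tok (nat_lit 9) (nat_lit 0x1780002f00005f6ce6bf1c657e93d2fc5d75f9f30bf39b97e7bdafc748) (.hit (nat_lit 168) (nat_lit 20) (nat_lit 0x1780002f00005f67babf120d7e7f22fc3415f9a04bf2f617e672afc4b2)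 b60827 (.hit (nat_lit 169) (nat_lit 28) (nat_lit 0x1780002f00005f6ce6bf1c657e93d2fc5d75f9f30bf39b97e7bdafc748) b60828 (.nil))) (.nil))))) (.nil))))))))))))))))
noncomputable def r88_22 : Rw Blk := .tok (nat_lit 3) (nat_lit 0x1780002f00005fbff8bf179d7e662afc2ca5f9b5cbf2b3d7ec94afd93b) (.hit (nat_lit 18) (nat_lit 0) (nat_lit 0x1780002f00005fbf92bf179d7e662afc2ca5f9b5cbf2b3d7ec94afd93b) b60890 (.tok (nat_lit 6) (nat_lit 0x1780002f00005fac7abea4817e0a32fba6f5f6434beb9217e911afd03a) (.hit (nat_lit 19) (nat_lit 7) (nat_lit 0x1780002f00005f77a8be7c9d7d7422fa9a25f5042be913d7e0ec2fbf45) b60891 (.hit (nat_lit 20) (nat_lit 15) (nat_lit 0x1780002f00005fac7abea4817e0a32fba6f5f6434beb9217e911afd03a) b60892 (.nil))) (.tok (nat_lit 9) (nat_lit 0x1780002f00005fbff8beaecd7e13b2fbb625f695abec36d7ec56afd5ee) (.hit (nat_lit 21) (nat_lit 20) (nat_lit 0x1780002f00005fbff8beaecd7e13b2fbb625f695abec36d7ec56afd5ee)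 b60893 (.hit (nat_lit 22) (nat_lit 28) (nat_lit 0x1780002f00005f9fb0bea2757df2eafb7485f632ebeb7157e785afcd2c) b60894 (.nil))) (.nil)))) (.tok (nat_lit 6) (nat_lit 0x1780002f00005fd15ebf088d7ecb42fd70e5fa35ebf3c397f7a22fecb1) (.hit (nat_lit 0) (nat_lit 0) (nat_lit 0x1780002f00005fb476bf088d7e675afc5bd5fa35ebf3c397f2f8afde47) b60874 (.tok (nat_lit 3) (nat_lit 0x1780002f00005fa998bed9497e2d7afc32b5f7e98beede97edb0afd8ce) (.hit (nat_lit 1) (nat_lit 1) (nat_lit 0x1780002f00005f7f7ebe8c497d937afab415f5818bea0e97e1b5afc0d8) b60875 (.one (nat_lit 67) (nat_lit 2) (nat_lit 2) (nat_lit 0x1780002f00005fa998bed9497e2d7afc32b5f7e98beede97edb0afd8ce) b60876 (.nil))) (.tok (nat_lit 6) (nat_lit 0x1780002f00005fd15ebefbe97ecb42fd70e5f8fe8bf10897f7a22fecb1) (.hit (nat_lit 3) (nat_lit 7) (nat_lit 0x1780002f00005f7f30be7a157d828afadf75f4efebe8eb57e316afc39a) b60877 (.hit (nat_lit 7) (nat_lit 15) (nat_lit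 0x1780002f00005f81d6be90f97d9cdafac6d5f5a70bea5997df00afbb6e) b60880 (.tok (nat_lit 55) (nat_lit 0x1780002f00005fd15ebefbe97ecb42fd70e5f8fe8bf10897f7a22fecb1) (.hit (nat_lit 4) (nat_lit 8) (nat_lit 0x1780002f00005fb548bed3557e5aeafc9035f7b9ebee7f57f09cafdea6) b60878 (.hit (nat_lit 8) (nat_lit 16) (nat_lit 0x1780002f00005fd15ebefbe97ecb42fd70e5f8fe8bf10897f7a22fecb1) b60881 (.one (nat_lit 6) (nat_lit 5) (nat_lit 9) (nat_lit 0x1780002f00005fbe6abee73d7e7f72fcd945f8592befbdd7f2e52fe337) b60879 (.nil)))) (.nil)))) (.nil)))) (.tok (nat_lit 9) (nat_lit 0x1780002f0000604696c0542d81379301bfd603bc8c06e59817033021dd) (.hit (nat_lit 9) (nat_lit 0) (nat_lit 0x1780002f00005fbcd2bf4c7d7efdbafd4815fb17ebf7de57f7242fe720) b60882 (.tok (nat_lit 3) (nat_lit 0x1780002f000060226ebfc8d57f730aff7125ffa9ebff32d809a5b00d81) (.hit (nat_lit 10) (nat_lit 1) (nat_lit 0x1780002f00005fb51abf320d7e9f62fcdef5fb3b8bf582d7f5a42fe046)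 b60883 (.one (nat_lit 55) (nat_lit 11) (nat_lit 3) (nat_lit 0x1780002f000060226ebfc8d57f730aff7125ffa9ebff32d809a5b00d81) b60884 (.nil))) (.tok (nat_lit 9) (nat_lit 0x1780002f0000604696c0542d81379301bfd603bc8c06e59817033021dd) (.hit (nat_lit 12) (nat_lit 20) (nat_lit 0x1780002f00005ffc68bfae01803502ff9965fe398bfbd657fa0f300da8) b60885 (.hit (nat_lit 16) (nat_lit 28) (nat_lit 0x1780002f00005fd086bf70017ecee2fdc5c5fbcf4bf75f57f8fa2fe6d7) b60888 (.tok (nat_lit 67) (nat_lit 0x1780002f0000604696c0542d81379301bfd603bc8c06e59817033021dd) (.hit (nat_lit 13) (nat_lit 21) (nat_lit 0x1780002f000060248cc002f181379301a4b6016ccc01d0580b53301edb) b60886 (.hit (nat_lit 17) (nat_lit 29) (nat_lit 0x1780002f0000604696c0542d80718b01bfd603bc8c06e59817033021dd) b60889 (.one (nat_lit 9) (nat_lit 14) (nat_lit 22) (nat_lit 0x1780002f000060103cc04051803c8b0123b6033c6c05ead80997b01929) b60887 (.nil))))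 (.nil)))) (.nil)))) (.nil)))
noncomputable def r88_23 : Rw Blk := .tok (nat_lit 3) (nat_lit 0xbc00017800030044a5ff566c0098d8078e300601) (.hit (nat_lit 0) (nat_lit 0) (nat_lit 0xbc0001780002fdb645fb1f0bf6d297f3cdafd746) b60895 (.tok (nat_lit 6) (nat_lit 0xbc0001780002fd7355f9c98bf45797edef2fdd30) (.hit (nat_lit 1) (nat_lit 7) (nat_lit 0xbc0001780002fbf525f6cd2bee5ed7e1fdafc54d) b60896 (.hit (nat_lit 4) (nat_lit 15) (nat_lit 0xbc0001780002fbd1f5f686cbedd217e0e42fc31a) b60899 (.tok (nat_lit 56) (nat_lit 0xbc0001780002fd7355f9c98bf45797edef2fdd30) (.hit (nat_lit 2) (nat_lit 13) (nat_lit 0xbc0001780002fd1ba5f91a2bf2f8d7eb31afd7b5) b60897 (.hit (nat_lit 6) (nat_lit 19) (nat_lit 0xbc0001780002fce7e5f8b2abf229d7e993afd479) b60901 (.one (nat_lit 6) (nat_lit 3) (nat_lit 14) (nat_lit 0xbc0001780002fd7355f9c98bf45797edef2fdd30) b60898 (.nil)))) (.one (nat_lit 68) (nat_lit 5) (nat_lit 18)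 (nat_lit 0xbc0001780002fce315f8a90bf21697e96d2fd42c) b60900 (.nil))))) (.tok (nat_lit 52) (nat_lit 0xbc0001780002fd7075f9c3cbf44c17edd82fdd02) (.hit (nat_lit 7) (nat_lit 39) (nat_lit 0xbc0001780002fce5b5f8ae4bf22117e9822fd456) b60902 (.hit (nat_lit 8) (nat_lit 40) (nat_lit 0xbc0001780002fd7075f9c3cbf44c17edd82fdd02) b60903 (.nil))) (.tok (nat_lit 55) (nat_lit 0xbc00017800030044a5ff566c0098d8078e300601) (.hit (nat_lit 9) (nat_lit 41) (nat_lit 0xbc00017800030044a5ff566c0098d8078e300601) b60904 (.one (nat_lit 3) (nat_lit 15) (nat_lit 47) (nat_lit 0xbc0001780002fce585f8adebf22057e980afd453) b60910 (.tok (nat_lit 6) (nat_lit 0xbc0001780002fe38c5fb546bf76d57f41aafe987) (.hit (nat_lit 10) (nat_lit 42) (nat_lit 0xbc0001780002fd40e5f964abf38dd7ec5bafda09) b60905 (.hit (nat_lit 13) (nat_lit 45) (nat_lit 0xbc0001780002fcbe45f85f6bf18357e846afd1df) b60908 (.tok (nat_lit 55) (nat_lit 0xbc0001780002fe38c5fb546bf76d57f41aafe987)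 (.hit (nat_lit 11) (nat_lit 43) (nat_lit 0xbc0001780002fe38c5fb546bf76d57f41aafe987) b60906 (.hit (nat_lit 14) (nat_lit 46) (nat_lit 0xbc0001780002fd9945fa156bf4ef57ef1eafdf8f) b60909 (.one (nat_lit 6) (nat_lit 12) (nat_lit 44) (nat_lit 0xbc0001780002fd2c95f93c0bf33c97ebb92fd8c4) b60907 (.nil)))) (.nil)))) (.nil)))) (.one (nat_lit 58) (nat_lit 16) (nat_lit 49) (nat_lit 0xbc0001780002fcd9b5f8964bf1f117e9222fd396) b60911 (.nil)))))) (.tok (nat_lit 9) (nat_lit 0xbc000178000301f99604208c0b6e581183302b80) (.hit (nat_lit 17) (nat_lit 0) (nat_lit 0xbc0001780002ffc306002a2c019e5806173005e6) b60912 (.tok (nat_lit 9) (nat_lit 0xbc0001780002ff7db5fe728c00f5d80323300a68) (.hit (nat_lit 18) (nat_lit 20) (nat_lit 0xbc0001780002ff5265fe728c00f5d80323300a68) b60913 (.hit (nat_lit 21) (nat_lit 28) (nat_lit 0xbc0001780002fd2235fb19cbf65f97eb632fd2c3) b60914 (.one (nat_lit 56) (nat_lit 22) (nat_lit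 31) (nat_lit 0xbc0001780002ff7db5fe68cbfcd517ffa02ffa38) b60915 (.nil)))) (.tok (nat_lit 64) (nat_lit 0xbc000178000301b6260198cc03e9d80732b009cd) (.hit (nat_lit 24) (nat_lit 50) (nat_lit 0xbc0001780002fff8260198cc03e9d802b1b0086b) b60916 (.hit (nat_lit 25) (nat_lit 51) (nat_lit 0xbc000178000301b6260056ac0251980732b009cd) b60917 (.nil))) (.tok (nat_lit 67) (nat_lit 0xbc000178000301f99604208c0b6e581183302b80) (.hit (nat_lit 26) (nat_lit 52) (nat_lit 0xbc000178000301f99604208c0b6e581183302b80) b60918 (.one (nat_lit 3) (nat_lit 32) (nat_lit 58) (nat_lit 0xbc0001780003009a3601b96c06e35809d5301810) b60921 (.tok (nat_lit 9) (nat_lit 0xbc000178000300c236027f4c06ca9809e5b015c8) (.hit (nat_lit 27) (nat_lit 53) (nat_lit 0xbc0001780002ff07a60165ec025bd7ff5db005ce) b60919 (.hit (nat_lit 30) (nat_lit 56) (nat_lit 0xbc000178000300c236027f4c06ca9809e5b015c8) b60920 (.nil))) (.nil)))) (.one (nat_lit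 70) (nat_lit 33) (nat_lit 60) (nat_lit 0xbc000178000300bf2600a02c02f7580aa3b00cd5) b60922 (.nil)))))) (.nil))
noncomputable def r88_24 : Rw Blk := .tok (nat_lit 3) (nat_lit 0x1780002f00005fa282bf46257e903afcdfe5fbbf0bf7fdd7eea72fdd70) (.hit (nat_lit 14) (nat_lit 0) (nat_lit 0x1780002f00005f9d26bf46257e903afcdfe5fbbf0bf7fdd7ee5eafdd70) b60936 (.tok (nat_lit 6) (nat_lit 0x1780002f00005fa282bf2e657e2fbafc1705fb020bf68657eea72fdc77) (.hit (nat_lit 15) (nat_lit 7) (nat_lit 0x1780002f00005fa282bf2e657e2fbafc1705fb020bf68657eea72fdc77) b60937 (.hit (nat_lit 16) (nat_lit 15) (nat_lit 0x1780002f00005f8198bf18d97e04a2fbc0d5fa6debf60117eb28afd875) b60938 (.nil))) (.tok (nat_lit 9) (nat_lit 0x1780002f00005f7d3cbed4297d7b42faae15f92f2bf1e697e1fe2fc61c) (.hit (nat_lit 17) (nat_lit 20) (nat_lit 0x1780002f00005f52bcbeb5517d3d92fa32b5f66e4becca17d87cafb046) b60939 (.hit (nat_lit 18) (nat_lit 28)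 (nat_lit 0x1780002f00005f7d3cbed4297d7b42faae15f92f2bf1e697e1fe2fc61c) b60940 (.nil))) (.nil)))) (.tok (nat_lit 6) (nat_lit 0x1780002f0000600000c0284980463b0074a600460c000018016a300000) (.hit (nat_lit 9) (nat_lit 0) (nat_lit 0x1780002f00005fbeecbfab717f4952fe8295ff244bff0957f9f2aff0ea) b60931 (.tok (nat_lit 3) (nat_lit 0x1780002f0000600000c0284980463b0074a600460c000018016a300000) (.hit (nat_lit 10) (nat_lit 1) (nat_lit 0x1780002f00005fb4cabf5ab97eb152fd6a65fb4c8bf6a857eccd2fdf7a) b60932 (.one (nat_lit 67) (nat_lit 11) (nat_lit 2) (nat_lit 0x1780002f0000600000c0284980463b0074a600460c000018016a300000) b60933 (.nil))) (.tok (nat_lit 6) (nat_lit 0x1780002f00005fa2eabf69cd7ecef2fd6c25fba66bf79757ebd4afe0a3) (.hit (nat_lit 12) (nat_lit 7) (nat_lit 0x1780002f00005fa0aabf62ad7ecef2fd4035fba66bf79757ebd4afe0a3) b60934 (.hit (nat_lit 13) (nat_lit 15) (nat_lit 0x1780002f00005fa2eabf69cd7ec09afd6c25fa89ebf553d7ea0a2fda6f)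 b60935 (.nil))) (.nil)))) (.tok (nat_lit 9) (nat_lit 0x1780002f00005fc224bf69a17ea632fd03f5fd64cbfab717f456afe7fa) (.hit (nat_lit 0) (nat_lit 0) (nat_lit 0x1780002f00005fad56bf50917e7f02fcf925fb83cbf84b97f004afe131) b60923 (.tok (nat_lit 3) (nat_lit 0x1780002f00005fae4ebf4f0d7e710afc99a5fc276bf83c57ef612fde0f) (.hit (nat_lit 1) (nat_lit 1) (nat_lit 0x1780002f00005f69b8beee657dafbafb1705f8236befdcd7dd3eafba80) b60924 (.one (nat_lit 55) (nat_lit 2) (nat_lit 3) (nat_lit 0x1780002f00005fae4ebf4f0d7e710afc99a5fc276bf83c57ef612fde0f) b60925 (.nil))) (.tok (nat_lit 9) (nat_lit 0x1780002f00005fc224bf69a17ea632fd03f5fd64cbfab717f456afe7fa) (.hit (nat_lit 3) (nat_lit 20) (nat_lit 0x1780002f00005f8930becda17d6e32fa93f5f9d58bf39897e619afcb80) b60926 (.hit (nat_lit 7) (nat_lit 28) (nat_lit 0x1780002f00005f819ebf007d7dd3eafb5f65f95c6bf2a657e4352fc7b7) b60929 (.tok (nat_lit 67) (nat_lit 0x1780002f00005fc224bf69a17ea632fd03f5fd64cbfab717f456afe7fa)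 (.hit (nat_lit 4) (nat_lit 21) (nat_lit 0x1780002f00005fa884bf17657e01bafbbb05fbcacbf78317edeeafdb2a) b60927 (.hit (nat_lit 8) (nat_lit 29) (nat_lit 0x1780002f00005fc224bf69a17ea632fd03f5fd64cbfab717f456afe7fa) b60930 (.one (nat_lit 9) (nat_lit 5) (nat_lit 22) (nat_lit 0x1780002f00005fa952bf26617e1fb2fbf6f5fbd7abf79cd7ee222fdb91) b60928 (.nil)))) (.nil)))) (.nil)))) (.nil)))
noncomputable def r88_25 : Rw Blk := .tok (nat_lit 3) (nat_lit 0xbc0001780002ff26e5fd5eebfe2157fc052ffd4c) (.hit (nat_lit 0) (nat_lit 0) (nat_lit 0xbc0001780002fd9ad5fa800bf71857ef3d2fe2e7) b60941 (.tok (nat_lit 9) (nat_lit 0xbc0001780002fe3b55fabf4bf8be57f1e92feee5) (.hit (nat_lit 1) (nat_lit 20) (nat_lit 0xbc0001780002fc8c45f7612bf20217e470afd3f4) b60942 (.hit (nat_lit 6) (nat_lit 28) (nat_lit 0xbc0001780002fba4b5f5920bee63d7dd342fc57b) b60947 (.tok (nat_lit 14) (nat_lit 0xbc0001780002fd6105f90aabf55517eb16afe140)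 (.hit (nat_lit 2) (nat_lit 24) (nat_lit 0xbc0001780002fcfdd5f8444bf3c857e7fd2fdb0d) b60943 (.hit (nat_lit 7) (nat_lit 30) (nat_lit 0xbc0001780002fd0da5f863ebf40797e87bafdc0a) b60948 (.one (nat_lit 6) (nat_lit 3) (nat_lit 25) (nat_lit 0xbc0001780002fd6105f90aabf55517eb16afe140) b60944 (.nil)))) (.tok (nat_lit 68) (nat_lit 0xbc0001780002fe3b55fabf4bf8be57f1e92feee5) (.hit (nat_lit 4) (nat_lit 26) (nat_lit 0xbc0001780002fdbc95f9c1cbf6c357edf32fe6f9) b60945 (.hit (nat_lit 8) (nat_lit 32) (nat_lit 0xbc0001780002fcd525f7f2ebf32597e6b7afd882) b60949 (.one (nat_lit 9) (nat_lit 5) (nat_lit 27) (nat_lit 0xbc0001780002fe3b55fabf4bf8be57f1e92feee5) b60946 (.nil)))) (.nil))))) (.tok (nat_lit 64) (nat_lit 0xbc0001780002fd6cd5f9224bf58457eb752fe1fd) (.hit (nat_lit 9) (nat_lit 50) (nat_lit 0xbc0001780002fd65a5f913ebf56797eb3bafe18a) b60950 (.hit (nat_lit 10) (nat_lit 51) (nat_lit 0xbc0001780002fd6cd5f9224bf58457eb752fe1fd)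 b60951 (.nil))) (.tok (nat_lit 67) (nat_lit 0xbc0001780002ff26e5fd5eebfe2157fc052ffd4c) (.hit (nat_lit 11) (nat_lit 52) (nat_lit 0xbc0001780002ff26e5fd5eebfe2157fc052ffd4c) b60952 (.tok (nat_lit 3) (nat_lit 0xbc0001780002fea645fb952bfa6a17f540aff594) (.hit (nat_lit 17) (nat_lit 58) (nat_lit 0xbc0001780002fdb9d5f9bc4bf6b857eddd2fe6cd) b60958 (.one (nat_lit 55) (nat_lit 18) (nat_lit 59) (nat_lit 0xbc0001780002fea645fb952bfa6a17f540aff594) b60959 (.nil))) (.tok (nat_lit 9) (nat_lit 0xbc0001780002fe6175fb0b8bf956d7f31a2ff147) (.hit (nat_lit 12) (nat_lit 53) (nat_lit 0xbc0001780002fdcac5f9de2bf6fc17ee64afe7dc) b60953 (.hit (nat_lit 15) (nat_lit 56) (nat_lit 0xbc0001780002fd7e15f944cbf5c957ebff2fe311) b60956 (.tok (nat_lit 67) (nat_lit 0xbc0001780002fe6175fb0b8bf956d7f31a2ff147) (.hit (nat_lit 13) (nat_lit 54) (nat_lit 0xbc0001780002fe6175fb0b8bf956d7f31a2ff147) b60954 (.hit (nat_lit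 16) (nat_lit 57) (nat_lit 0xbc0001780002fe3b95fabfcbf8bf57f1eb2feee9) b60957 (.one (nat_lit 9) (nat_lit 14) (nat_lit 55) (nat_lit 0xbc0001780002fe38e5faba6bf8b497f1d5afeebe) b60955 (.nil)))) (.nil)))) (.nil)))) (.one (nat_lit 70) (nat_lit 19) (nat_lit 60) (nat_lit 0xbc0001780002fd6035f9090bf551d7eb102fe133) b60960 (.nil)))))) (.tok (nat_lit 6) (nat_lit 0xbc0001780003025c1604cdac0bfe9813ccb02f1e) (.hit (nat_lit 20) (nat_lit 0) (nat_lit 0xbc0001780002fd9d35fbe40bfac817f0222fe86e) b60961 (.tok (nat_lit 6) (nat_lit 0xbc0001780003025c1604cdac0bfe9813ccb02f1e) (.hit (nat_lit 21) (nat_lit 7) (nat_lit 0xbc0001780002fd9da5fcd5cbfc18d7f0e8afe990) b60962 (.hit (nat_lit 26) (nat_lit 15) (nat_lit 0xbc0001780002fbbe25f66c2beec997ddffafd111) b60965 (.tok (nat_lit 14) (nat_lit 0xbc0001780003025c1604cdac0bfe9813ccb02f1e) (.hit (nat_lit 22) (nat_lit 11) (nat_lit 0xbc0001780003025c1604cdac0bfe9813ccb02f1e)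 b60963 (.hit (nat_lit 27) (nat_lit 17) (nat_lit 0xbc0001780002fdb645fae90bf6e2d7ed492ff12b) b60966 (.one (nat_lit 9) (nat_lit 23) (nat_lit 12) (nat_lit 0xbc000178000301fbd6041f2c09d018122b3027f2) b60964 (.nil)))) (.one (nat_lit 68) (nat_lit 28) (nat_lit 18) (nat_lit 0xbc0001780002fd97b5f9a6cbf62317ebdaaff01f) b60967 (.nil))))) (.nil))) (.nil))
noncomputable def r88_26 : Rw Blk := .tok (nat_lit 14) (nat_lit 0x2f00005e0000bf5c217f5732fe3df) (.hit (nat_lit 134) (nat_lit 0) (nat_lit 0x2f00005e0000bf309d7ed34afd362) b60980 (.one (nat_lit 3) (nat_lit 135) (nat_lit 1) (nat_lit 0x2f00005e0000be78517d8f92faaeb) b60981 (.tok (nat_lit 6) (nat_lit 0x2f00005e0000bf5c217f5732fe3df) (.hit (nat_lit 136) (nat_lit 7) (nat_lit 0x2f00005e0000bf311d7f012afd91e) b60982 (.hit (nat_lit 137) (nat_lit 15) (nat_lit 0x2f00005e0000bf5c217f5732fe3df) b60983 (.nil))) (.tok (nat_lit 9) (nat_lit 0x2f00005e0000bf27c97eee82fd6c9)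 (.hit (nat_lit 138) (nat_lit 20) (nat_lit 0x2f00005e0000bf0a1d7eb32afcf5e) b60984 (.hit (nat_lit 139) (nat_lit 28) (nat_lit 0x2f00005e0000bf27c97eee82fd6c9) b60985 (.nil))) (.nil))))) (.tok (nat_lit 17) (nat_lit 0x2f00005e0000bf725d7f8252fe943) (.hit (nat_lit 140) (nat_lit 0) (nat_lit 0x2f00005e0000bf725d7f5cdafdd70) b60986 (.one (nat_lit 3) (nat_lit 141) (nat_lit 1) (nat_lit 0x2f00005e0000beb5fd7e0aeafba56) b60987 (.tok (nat_lit 6) (nat_lit 0x2f00005e0000bf45dd7f2aaafde4e) (.hit (nat_lit 142) (nat_lit 7) (nat_lit 0x2f00005e0000bf396d7f11cafdb32) b60988 (.hit (nat_lit 143) (nat_lit 15) (nat_lit 0x2f00005e0000bf45dd7f2aaafde4e) b60989 (.nil))) (.tok (nat_lit 9) (nat_lit 0x2f00005e0000bf71b17f8252fe943) (.hit (nat_lit 144) (nat_lit 20) (nat_lit 0x2f00005e0000bef9a57e923afcb40) b60990 (.hit (nat_lit 145) (nat_lit 28) (nat_lit 0x2f00005e0000bf71b17f8252fe943) b60991 (.nil))) (.nil)))))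 (.tok (nat_lit 20) (nat_lit 0x2f00005e0000bf98517faae2fee23) (.hit (nat_lit 128) (nat_lit 0) (nat_lit 0x2f00005e0000bf89717fa2fafed26) b60974 (.one (nat_lit 3) (nat_lit 129) (nat_lit 1) (nat_lit 0x2f00005e0000bf6bd97f6852fe5d1) b60975 (.tok (nat_lit 6) (nat_lit 0x2f00005e0000bf98517f881afe9fc) (.hit (nat_lit 130) (nat_lit 7) (nat_lit 0x2f00005e0000bf32117f0312fd95b) b60976 (.hit (nat_lit 131) (nat_lit 15) (nat_lit 0x2f00005e0000bf98517f881afe9fc) b60977 (.nil))) (.tok (nat_lit 9) (nat_lit 0x2f00005e0000bf7ffd7faae2fee23) (.hit (nat_lit 132) (nat_lit 20) (nat_lit 0x2f00005e0000bf7bdd7f8ffafeb34) b60978 (.hit (nat_lit 133) (nat_lit 28) (nat_lit 0x2f00005e0000bf7ffd7faae2fee23) b60979 (.nil))) (.nil))))) (.tok (nat_lit 23) (nat_lit 0x2f00005e0000bfa12d7fbb42feee2) (.hit (nat_lit 122) (nat_lit 0) (nat_lit 0x2f00005e0000bf8b817fbb42feee2) b60968 (.one (nat_lit 3) (nat_lit 123) (nat_lit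 1) (nat_lit 0x2f00005e0000bf4bcd7f5a2afe42c) b60969 (.tok (nat_lit 6) (nat_lit 0x2f00005e0000bf959d7f8f22feaab) (.hit (nat_lit 124) (nat_lit 7) (nat_lit 0x2f00005e0000bf8f097f7e1afe899) b60970 (.hit (nat_lit 125) (nat_lit 15) (nat_lit 0x2f00005e0000bf959d7f8f22feaab) b60971 (.nil))) (.tok (nat_lit 9) (nat_lit 0x2f00005e0000bfa12d7fa0bafecde) (.hit (nat_lit 126) (nat_lit 20) (nat_lit 0x2f00005e0000bf1f917ede12fd4bb) b60972 (.hit (nat_lit 127) (nat_lit 28) (nat_lit 0x2f00005e0000bfa12d7fa0bafecde) b60973 (.nil))) (.nil))))) (.tok (nat_lit 38) (nat_lit 0x2f00005e0000bfb4bd7f77c2feea1) (.hit (nat_lit 239) (nat_lit 0) (nat_lit 0x2f00005e0000bfb4bd7f77c2feea1) b61035 (.one (nat_lit 3) (nat_lit 240) (nat_lit 1) (nat_lit 0x2f00005e0000bec5b97e2a62fbe45) b61036 (.tok (nat_lit 6) (nat_lit 0x2f00005e0000bef49d7e882afc9fe) (.hit (nat_lit 241) (nat_lit 7) (nat_lit 0x2f00005e0000bef49d7e882afc9fe)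 b61037 (.hit (nat_lit 242) (nat_lit 15) (nat_lit 0x2f00005e0000bee73d7e6d6afc6a6) b61038 (.nil))) (.tok (nat_lit 9) (nat_lit 0x2f00005e0000bf32297f0342fd961) (.hit (nat_lit 243) (nat_lit 20) (nat_lit 0x2f00005e0000bf32297f0342fd961) b61006 (.hit (nat_lit 244) (nat_lit 28) (nat_lit 0x2f00005e0000bee72d7e6d4afc6a2) b61039 (.nil))) (.nil))))) (.tok (nat_lit 41) (nat_lit 0x2f00005e0000bfb3417f832aff1aa) (.hit (nat_lit 250) (nat_lit 0) (nat_lit 0x2f00005e0000bf99817f2b1afe536) b61040 (.one (nat_lit 3) (nat_lit 251) (nat_lit 1) (nat_lit 0x2f00005e0000bf6ad57ec4dafda56) b61041 (.tok (nat_lit 6) (nat_lit 0x2f00005e0000bfaa617f832afec4b) (.hit (nat_lit 252) (nat_lit 7) (nat_lit 0x2f00005e0000bfaa617f3d2afec4b) b61042 (.hit (nat_lit 253) (nat_lit 15) (nat_lit 0x2f00005e0000bf94197f832afe95e) b61043 (.nil))) (.tok (nat_lit 9) (nat_lit 0x2f00005e0000bfb3417f5af2ff1aa) (.hit (nat_lit 254)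 (nat_lit 20) (nat_lit 0x2f00005e0000bfb3417f5af2ff1aa) b61044 (.hit (nat_lit 255) (nat_lit 28) (nat_lit 0x2f00005e0000bf9b0d7f41eafe665) b61045 (.nil))) (.nil))))) (.tok (nat_lit 44) (nat_lit 0x2f00005e0000bfe1a57f8efaff63c) (.hit (nat_lit 278) (nat_lit 0) (nat_lit 0x2f00005e0000bfe1a57f77cafef46) b61052 (.one (nat_lit 3) (nat_lit 279) (nat_lit 1) (nat_lit 0x2f00005e0000bf351d7e599afccee) b61053 (.tok (nat_lit 6) (nat_lit 0x2f00005e0000bfbff57f7f92ff124) (.hit (nat_lit 280) (nat_lit 7) (nat_lit 0x2f00005e0000bfbff57f7f92ff124) b61054 (.hit (nat_lit 281) (nat_lit 15) (nat_lit 0x2f00005e0000bf7c757eeb12fdf1d) b61055 (.nil))) (.tok (nat_lit 9) (nat_lit 0x2f00005e0000bfb4597f8efaff63c) (.hit (nat_lit 282) (nat_lit 20) (nat_lit 0x2f00005e0000bfb4597f8efaff63c) b61056 (.hit (nat_lit 283) (nat_lit 28) (nat_lit 0x2f00005e0000bf87a17f6ea2fe6cd) b61057 (.nil))) (.nil))))) (.tok (nat_lit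 47) (nat_lit 0x2f00005e0000c00001800003004bc) (.hit (nat_lit 264) (nat_lit 0) (nat_lit 0x2f00005e0000bfebf17fcdb3003ae) b61046 (.one (nat_lit 3) (nat_lit 265) (nat_lit 1) (nat_lit 0x2f00005e0000bf5fa97eaf9afd78b) b61047 (.tok (nat_lit 6) (nat_lit 0x2f00005e0000c00001800003004bc) (.hit (nat_lit 266) (nat_lit 7) (nat_lit 0x2f00005e0000c00001800003004bc) b61048 (.hit (nat_lit 267) (nat_lit 15) (nat_lit 0x2f00005e0000bf86c17f0362fe227) b61049 (.nil))) (.tok (nat_lit 9) (nat_lit 0x2f00005e0000bfc9317f9492ff3e2) (.hit (nat_lit 268) (nat_lit 20) (nat_lit 0x2f00005e0000bfc9317f9492ff3e2) b61050 (.hit (nat_lit 269) (nat_lit 28) (nat_lit 0x2f00005e0000bf70c17ed1b2fdbea) b61051 (.nil))) (.nil))))) (.tok (nat_lit 50) (nat_lit 0x2f00005e0000bf8c857fb7fafeff8) (.hit (nat_lit 170) (nat_lit 0) (nat_lit 0x2f00005e0000bf4d117f543afde23) b61015 (.one (nat_lit 3) (nat_lit 171) (nat_lit 1) (nat_lit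 0x2f00005e0000bed94d7e518afc32a) b61016 (.tok (nat_lit 6) (nat_lit 0x2f00005e0000bf8c857fb7fafeff8) (.hit (nat_lit 172) (nat_lit 7) (nat_lit 0x2f00005e0000bf8c857fb7fafeff8) b61017 (.hit (nat_lit 173) (nat_lit 15) (nat_lit 0x2f00005e0000bef18d7e820afc93a) b61018 (.nil))) (.tok (nat_lit 9) (nat_lit 0x2f00005e0000bf03d17ea692fcdcb) (.hit (nat_lit 174) (nat_lit 20) (nat_lit 0x2f00005e0000bf03d17ea692fcdcb) b61019 (.hit (nat_lit 175) (nat_lit 28) (nat_lit 0x2f00005e0000beeb6d7e75cafc7b2) b61020 (.nil))) (.nil))))) (.tok (nat_lit 53) (nat_lit 0x2f00005e0000bfa2dd7fe6e2ff6cb) (.hit (nat_lit 181) (nat_lit 0) (nat_lit 0x2f00005e0000bf8e9d7fb9c2ff031) b61021 (.one (nat_lit 3) (nat_lit 182) (nat_lit 1) (nat_lit 0x2f00005e0000bf6ab57f678afe5b8) b61022 (.tok (nat_lit 6) (nat_lit 0x2f00005e0000bf88757fe6e2ff6cb) (.hit (nat_lit 183) (nat_lit 7) (nat_lit 0x2f00005e0000bf88757fe6e2ff6cb) b61023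 (.hit (nat_lit 184) (nat_lit 15) (nat_lit 0x2f00005e0000bf74957f881afe9fc) b61024 (.nil))) (.tok (nat_lit 9) (nat_lit 0x2f00005e0000bfa2dd7fdad2ff421) (.hit (nat_lit 185) (nat_lit 20) (nat_lit 0x2f00005e0000bf48457f2f7afdee8) b61025 (.hit (nat_lit 186) (nat_lit 28) (nat_lit 0x2f00005e0000bfa2dd7fdad2ff421) b61026 (.nil))) (.nil))))) (.tok (nat_lit 56) (nat_lit 0x2f00005e0000bf66317f6b52fe663) (.hit (nat_lit 195) (nat_lit 0) (nat_lit 0x2f00005e0000bf66317f6b52fe663) b61027 (.one (nat_lit 3) (nat_lit 196) (nat_lit 1) (nat_lit 0x2f00005e0000bec5017e28f2fbe17) b61005 (.tok (nat_lit 6) (nat_lit 0x2f00005e0000bf311d7f012afd91e) (.hit (nat_lit 197) (nat_lit 7) (nat_lit 0x2f00005e0000bf311d7f012afd91e) b60982 (.hit (nat_lit 198) (nat_lit 15) (nat_lit 0x2f00005e0000becab97e3462fbf85) b61009 (.nil))) (.tok (nat_lit 9) (nat_lit 0x2f00005e0000bf610d7f610afe51a) (.hit (nat_lit 199) (nat_lit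 20) (nat_lit 0x2f00005e0000bf32297f0342fd961) b61006 (.hit (nat_lit 200) (nat_lit 28) (nat_lit 0x2f00005e0000bf610d7f610afe51a) b61028 (.nil))) (.nil))))) (.tok (nat_lit 59) (nat_lit 0x2f00005e0000bfa8597fefa2ff6ed) (.hit (nat_lit 209) (nat_lit 0) (nat_lit 0x2f00005e0000bf73317f7daafe351) b61029 (.one (nat_lit 3) (nat_lit 210) (nat_lit 1) (nat_lit 0x2f00005e0000bef6657e8bbafca70) b61030 (.tok (nat_lit 6) (nat_lit 0x2f00005e0000bf66257f6b3afe660) (.hit (nat_lit 211) (nat_lit 7) (nat_lit 0x2f00005e0000bf51857f41fafe138) b61031 (.hit (nat_lit 212) (nat_lit 15) (nat_lit 0x2f00005e0000bf66257f6b3afe660) b61032 (.nil))) (.tok (nat_lit 9) (nat_lit 0x2f00005e0000bfa8597fefa2ff6ed) (.hit (nat_lit 213) (nat_lit 20) (nat_lit 0x2f00005e0000bfa8597fefa2ff6ed) b61033 (.hit (nat_lit 214) (nat_lit 28) (nat_lit 0x2f00005e0000beb6ad7e0c4afba82) b61034 (.nil))) (.nil))))) (.tok (nat_lit 62) (nat_lit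 0x2f00005e0000bf61917edb52fd463) (.hit (nat_lit 146) (nat_lit 0) (nat_lit 0x2f00005e0000bf61917eb782fcfe9) b60992 (.one (nat_lit 3) (nat_lit 147) (nat_lit 1) (nat_lit 0x2f00005e0000bec6517e2b92fbe6b) b60993 (.tok (nat_lit 6) (nat_lit 0x2f00005e0000beeda57e7a3afc840) (.hit (nat_lit 148) (nat_lit 7) (nat_lit 0x2f00005e0000beeda57e7a3afc840) b60994 (.hit (nat_lit 149) (nat_lit 15) (nat_lit 0x2f00005e0000beddb57e5a5afc444) b60995 (.nil))) (.tok (nat_lit 9) (nat_lit 0x2f00005e0000bf1e317edb52fd463) (.hit (nat_lit 150) (nat_lit 20) (nat_lit 0x2f00005e0000bf1e317edb52fd463) b60996 (.hit (nat_lit 151) (nat_lit 28) (nat_lit 0x2f00005e0000bee67d7e6beafc676) b60997 (.nil))) (.nil))))) (.tok (nat_lit 65) (nat_lit 0x2f00005e0000bf8fb57f7972fe827) (.hit (nat_lit 152) (nat_lit 0) (nat_lit 0x2f00005e0000bf7ead7ef47afd8fe) b60998 (.one (nat_lit 3) (nat_lit 153) (nat_lit 1) (nat_lit 0x2f00005e0000bf67657e8872fcfe0)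 b60999 (.tok (nat_lit 6) (nat_lit 0x2f00005e0000bf80c97f3afafe058) (.hit (nat_lit 154) (nat_lit 7) (nat_lit 0x2f00005e0000bf4e057f3afafe058) b61000 (.hit (nat_lit 155) (nat_lit 15) (nat_lit 0x2f00005e0000bf80c97eee82fd6c9) b61001 (.nil))) (.tok (nat_lit 9) (nat_lit 0x2f00005e0000bf8fb57f7972fe827) (.hit (nat_lit 156) (nat_lit 20) (nat_lit 0x2f00005e0000bf8fb57f000afded3) b61002 (.hit (nat_lit 157) (nat_lit 28) (nat_lit 0x2f00005e0000bf899d7f7972fe827) b61003 (.nil))) (.nil))))) (.tok (nat_lit 68) (nat_lit 0x2f00005e0000bf55a97f4a42fe241) (.hit (nat_lit 158) (nat_lit 0) (nat_lit 0x2f00005e0000bf4aad7f0942fda21) b61004 (.one (nat_lit 3) (nat_lit 159) (nat_lit 1) (nat_lit 0x2f00005e0000bec5017e28f2fbe17) b61005 (.tok (nat_lit 6) (nat_lit 0x2f00005e0000bf55a97f4a42fe241) (.hit (nat_lit 160) (nat_lit 7) (nat_lit 0x2f00005e0000bf32297f0342fd961) b61006 (.hit (nat_lit 161) (nat_lit 15)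 (nat_lit 0x2f00005e0000bf55a97f4a42fe241) b61007 (.nil))) (.tok (nat_lit 9) (nat_lit 0x2f00005e0000bf23557ee59afd5ac) (.hit (nat_lit 162) (nat_lit 20) (nat_lit 0x2f00005e0000bf23557ee59afd5ac) b61008 (.hit (nat_lit 163) (nat_lit 28) (nat_lit 0x2f00005e0000becab97e3462fbf85) b61009 (.nil))) (.nil))))) (.tok (nat_lit 71) (nat_lit 0x2f00005e0000bf77cd7ef34afd762) (.hit (nat_lit 164) (nat_lit 0) (nat_lit 0x2f00005e0000bf77cd7ef2eafd756) b61010 (.one (nat_lit 3) (nat_lit 165) (nat_lit 1) (nat_lit 0x2f00005e0000bec5017e28f2fbe17) b61005 (.tok (nat_lit 6) (nat_lit 0x2f00005e0000bf1c497ed782fd3e9) (.hit (nat_lit 166) (nat_lit 7) (nat_lit 0x2f00005e0000bf1c497ed782fd3e9) b61011 (.hit (nat_lit 167) (nat_lit 15) (nat_lit 0x2f00005e0000beeb857e75fafc7b8) b61012 (.nil))) (.tok (nat_lit 9) (nat_lit 0x2f00005e0000bf2a2d7ef34afd762) (.hit (nat_lit 168) (nat_lit 20) (nat_lit 0x2f00005e0000bf175d7ecdaafd2ae)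 b61013 (.hit (nat_lit 169) (nat_lit 28) (nat_lit 0x2f00005e0000bf2a2d7ef34afd762) b61014 (.nil))) (.nil))))) (.nil))))))))))))))))
noncomputable def r88_27 : Rw Blk := .tok (nat_lit 3) (nat_lit 0x2f00005e0000bf91457eadf2fd28e) (.hit (nat_lit 18) (nat_lit 0) (nat_lit 0x2f00005e0000bf91457eadf2fd28e) b61074 (.tok (nat_lit 6) (nat_lit 0x2f00005e0000bf4f6d7e5732fc7b3) (.hit (nat_lit 19) (nat_lit 7) (nat_lit 0x2f00005e0000bf4f6d7e5732fc7b3) b61075 (.hit (nat_lit 20) (nat_lit 15) (nat_lit 0x2f00005e0000bf4acd7e4df2fc68b) b61076 (.nil))) (.tok (nat_lit 9) (nat_lit 0x2f00005e0000bf62517e7cfafcc6c) (.hit (nat_lit 21) (nat_lit 20) (nat_lit 0x2f00005e0000bf50f57e5a42fc815) b61077 (.hit (nat_lit 22) (nat_lit 28) (nat_lit 0x2f00005e0000bf62517e7cfafcc6c) b61078 (.nil))) (.nil)))) (.tok (nat_lit 6) (nat_lit 0x2f00005e0000c0000180000300273) (.hit (nat_lit 0) (nat_lit 0) (nat_lit 0x2f00005e0000bfbb1d7f42eafe570)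 b61058 (.tok (nat_lit 3) (nat_lit 0x2f00005e0000bfd2197f711afeb32) (.hit (nat_lit 1) (nat_lit 1) (nat_lit 0x2f00005e0000bf5e997eb83afd3b3) b61059 (.one (nat_lit 67) (nat_lit 2) (nat_lit 2) (nat_lit 0x2f00005e0000bfd2197f711afeb32) b61060 (.nil))) (.tok (nat_lit 6) (nat_lit 0x2f00005e0000c0000180000300273) (.hit (nat_lit 3) (nat_lit 7) (nat_lit 0x2f00005e0000bfc4e97ec55afd85a) b61061 (.hit (nat_lit 7) (nat_lit 15) (nat_lit 0x2f00005e0000bf7f4d7ed5d2fd7ad) b61064 (.tok (nat_lit 55) (nat_lit 0x2f00005e0000c0000180000300273) (.hit (nat_lit 4) (nat_lit 8) (nat_lit 0x2f00005e0000c0000180000300273) b61062 (.hit (nat_lit 8) (nat_lit 16) (nat_lit 0x2f00005e0000bfd5997fa0f2ff1f2) b61065 (.one (nat_lit 6) (nat_lit 5) (nat_lit 9) (nat_lit 0x2f00005e0000bff8757fe132ffa89) b61063 (.nil)))) (.nil)))) (.nil)))) (.tok (nat_lit 9) (nat_lit 0x2f00005e0000bff3317f71c2feb0a) (.hit (nat_lit 9) (nat_lit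 0) (nat_lit 0x2f00005e0000bf91917ece52fd6bc) b61066 (.tok (nat_lit 3) (nat_lit 0x2f00005e0000bfbff17f1112fdeef) (.hit (nat_lit 10) (nat_lit 1) (nat_lit 0x2f00005e0000bf7bb57e7d82fcc95) b61067 (.one (nat_lit 55) (nat_lit 11) (nat_lit 3) (nat_lit 0x2f00005e0000bfbff17f1112fdeef) b61068 (.nil))) (.tok (nat_lit 9) (nat_lit 0x2f00005e0000bff3317f71c2feb0a) (.hit (nat_lit 12) (nat_lit 20) (nat_lit 0x2f00005e0000bf61d17e8a92fce23) b61069 (.hit (nat_lit 16) (nat_lit 28) (nat_lit 0x2f00005e0000bf7c297e9e02fd08d) b61072 (.tok (nat_lit 67) (nat_lit 0x2f00005e0000bff3317f71c2feb0a) (.hit (nat_lit 13) (nat_lit 21) (nat_lit 0x2f00005e0000bff3317f71c2feb0a) b61070 (.hit (nat_lit 17) (nat_lit 29) (nat_lit 0x2f00005e0000bfe85d7f58fafe822) b61073 (.one (nat_lit 9) (nat_lit 14) (nat_lit 22) (nat_lit 0x2f00005e0000bfd2fd7f62eafe92e) b61071 (.nil)))) (.nil)))) (.nil)))) (.nil)))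
noncomputable def r88_28 : Rw Blk := .tok (nat_lit 3) (nat_lit 0x2f00005e0000bf4dd17ee17afdd8c) (.hit (nat_lit 14) (nat_lit 0) (nat_lit 0x2f00005e0000bf4dd17ee17afdd8c) b61092 (.tok (nat_lit 6) (nat_lit 0x2f00005e0000beea717e2942fc6fc) (.hit (nat_lit 15) (nat_lit 7) (nat_lit 0x2f00005e0000bed4b57dfdcafc18d) b61093 (.hit (nat_lit 16) (nat_lit 15) (nat_lit 0x2f00005e0000beea717e2942fc6fc) b61094 (.nil))) (.tok (nat_lit 9) (nat_lit 0x2f00005e0000bf134d7e7afafd133) (.hit (nat_lit 17) (nat_lit 20) (nat_lit 0x2f00005e0000bf134d7e7afafd133) b61095 (.hit (nat_lit 18) (nat_lit 28) (nat_lit 0x2f00005e0000bf05997e5f92fcdc6) b61096 (.nil))) (.nil)))) (.tok (nat_lit 6) (nat_lit 0x2f00005e0000bf851d7f5892fece6) (.hit (nat_lit 0) (nat_lit 0) (nat_lit 0x2f00005e0000bf851d7f4b0afe6a8) b61079 (.tok (nat_lit 3) (nat_lit 0x2f00005e0000bf562d7f00bafe1eb) (.hit (nat_lit 1) (nat_lit 1) (nat_lit 0x2f00005e0000bf0b997e6b92fcf46)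 b61080 (.one (nat_lit 67) (nat_lit 2) (nat_lit 2) (nat_lit 0x2f00005e0000bf562d7f00bafe1eb) b61081 (.nil))) (.tok (nat_lit 6) (nat_lit 0x2f00005e0000bf82197f5892fece6) (.hit (nat_lit 3) (nat_lit 7) (nat_lit 0x2f00005e0000bef9c17e47e2fcad0) b61082 (.hit (nat_lit 7) (nat_lit 15) (nat_lit 0x2f00005e0000bf0f317e72c2fd02c) b61085 (.tok (nat_lit 55) (nat_lit 0x2f00005e0000bf82197f5892fece6) (.hit (nat_lit 4) (nat_lit 8) (nat_lit 0x2f00005e0000bf57497f02f2fe232) b61083 (.hit (nat_lit 8) (nat_lit 16) (nat_lit 0x2f00005e0000bf82197f5892fece6) b61086 (.one (nat_lit 6) (nat_lit 5) (nat_lit 9) (nat_lit 0x2f00005e0000bf42157ed88afdce5) b61084 (.nil)))) (.nil)))) (.nil)))) (.tok (nat_lit 9) (nat_lit 0x2f00005e0000c0000180103b00942) (.hit (nat_lit 9) (nat_lit 0) (nat_lit 0x2f00005e0000bf9ecd7f4292fedbe) b61087 (.tok (nat_lit 3) (nat_lit 0x2f00005e0000c0000180103b00942) (.hit (nat_lit 10) (nat_lit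 1) (nat_lit 0x2f00005e0000bf9f557f37d2fec0f) b61088 (.one (nat_lit 55) (nat_lit 11) (nat_lit 3) (nat_lit 0x2f00005e0000c0000180103b00942) b61089 (.nil))) (.tok (nat_lit 9) (nat_lit 0x2f00005e0000bfc9e97f843aff134) (.hit (nat_lit 12) (nat_lit 20) (nat_lit 0x2f00005e0000bfc9e97f843afeec5) b61090 (.hit (nat_lit 13) (nat_lit 28) (nat_lit 0x2f00005e0000bf7d817f359aff134) b61091 (.nil))) (.nil)))) (.nil)))
noncomputable def r88_29 : Rw Blk := .tok (nat_lit 3) (nat_lit 0x2f00005e0000bf8cc97f1c82fe39d) (.hit (nat_lit 14) (nat_lit 0) (nat_lit 0x2f00005e0000bf8cc97f1c82fe39d) b61110 (.tok (nat_lit 6) (nat_lit 0x2f00005e0000bf562d7ed5d2fdba2) (.hit (nat_lit 15) (nat_lit 7) (nat_lit 0x2f00005e0000bf562d7ed5d2fdba2) b61111 (.hit (nat_lit 16) (nat_lit 15) (nat_lit 0x2f00005e0000bf401d7ea9b2fd61e) b61112 (.nil))) (.tok (nat_lit 9) (nat_lit 0x2f00005e0000bf429d7eaeb2fd6be) (.hit (nat_lit 17)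 (nat_lit 20) (nat_lit 0x2f00005e0000bf429d7eaeb2fd6be) b61113 (.hit (nat_lit 18) (nat_lit 28) (nat_lit 0x2f00005e0000beaa257d7dc2fb0a0) b61114 (.nil))) (.nil)))) (.tok (nat_lit 6) (nat_lit 0x2f00005e0000c000018000030024f) (.hit (nat_lit 9) (nat_lit 0) (nat_lit 0x2f00005e0000c000017f8a1aff0dd) b61105 (.tok (nat_lit 3) (nat_lit 0x2f00005e0000bfebd58000030024f) (.hit (nat_lit 10) (nat_lit 1) (nat_lit 0x2f00005e0000bf69397f130afe47b) b61106 (.one (nat_lit 67) (nat_lit 11) (nat_lit 2) (nat_lit 0x2f00005e0000bfebd58000030024f) b61107 (.nil))) (.tok (nat_lit 6) (nat_lit 0x2f00005e0000bfcb097fdc9b00089) (.hit (nat_lit 12) (nat_lit 7) (nat_lit 0x2f00005e0000bfcb097fdc9b00089) b61108 (.hit (nat_lit 13) (nat_lit 15) (nat_lit 0x2f00005e0000bf741d7f2dd2fe7df) b61109 (.nil))) (.nil)))) (.tok (nat_lit 9) (nat_lit 0x2f00005e0000bfcbe97fb332ff706) (.hit (nat_lit 0) (nat_lit 0) (nat_lit 0x2f00005e0000bfcbe97fb332ff55b)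 b61097 (.tok (nat_lit 3) (nat_lit 0x2f00005e0000bf9ea17f66bafedbf) (.hit (nat_lit 1) (nat_lit 1) (nat_lit 0x2f00005e0000bf564d7ed612fdbaa) b61098 (.one (nat_lit 55) (nat_lit 2) (nat_lit 3) (nat_lit 0x2f00005e0000bf9ea17f66bafedbf) b61099 (.nil))) (.tok (nat_lit 9) (nat_lit 0x2f00005e0000bfc3bd7fb0f2ff706) (.hit (nat_lit 3) (nat_lit 20) (nat_lit 0x2f00005e0000bf4ab57ebee2fd8c4) b61100 (.hit (nat_lit 7) (nat_lit 28) (nat_lit 0x2f00005e0000bf4e957ec6a2fd9bc) b61103 (.tok (nat_lit 67) (nat_lit 0x2f00005e0000bfc3bd7fb0f2ff706) (.hit (nat_lit 4) (nat_lit 21) (nat_lit 0x2f00005e0000bfa3257f6fc2feee0) b61101 (.hit (nat_lit 8) (nat_lit 29) (nat_lit 0x2f00005e0000bfc3bd7fb0f2ff706) b61104 (.one (nat_lit 9) (nat_lit 5) (nat_lit 22) (nat_lit 0x2f00005e0000bfa3397f6feafeee5) b61102 (.nil)))) (.nil)))) (.nil)))) (.nil)))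
noncomputable def r89_0 : Rw Blk := .tok (nat_lit 9) (nat_lit 0x3000005fd44cbfb7417f6642ff5015fd0fcbf9aed7f51f2ff91e) (.hit (nat_lit 157) (nat_lit 0) (nat_lit 0x2fddac5fb1a0bf69257ee632fd8135fb952bf71217ee97afdc07) b61115 (.tok (nat_lit 14) (nat_lit 0x3000005fd1d6bfb7417f3f4aff0625fce22bf8fe97f47e2ff91e) (.hit (nat_lit 193) (nat_lit 61) (nat_lit 0x2ff2aa5fcf76bfb7417f1fb2fe93f5fc7ecbf8fe97f2602ff91e) b61116 (.one (nat_lit 3) (nat_lit 194) (nat_lit 62) (nat_lit 0x2fe5045fb3a2bfa3657e4a7afdf945fa168bf254d7e84a2fe43d) b61117 (.tok (nat_lit 6) (nat_lit 0x3000005fd1d6bfb3957f3f4aff0625fce22bf69897f47e2ff568) (.hit (nat_lit 197) (nat_lit 65) (nat_lit 0x3000005fd1d6bf9a957f3f4aff0625fce22bf69897f47e2ff568) b61120 (.hit (nat_lit 198) (nat_lit 66) (nat_lit 0x2fe22e5fa342bfb3957e6b5afdf975fa110bf35bd7e84bafe421) b61121 (.nil))) (.tok (nat_lit 9) (nat_lit 0x2fe7e35fb150bf90597ec4b2fe5355fb12cbf62697ecb02fe9cf)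 (.hit (nat_lit 195) (nat_lit 63) (nat_lit 0x2fcf795f80f6bf6f817ec4b2fd4635fb12cbf62697ecb02fd896) b61118 (.hit (nat_lit 196) (nat_lit 64) (nat_lit 0x2fe7e35fb150bf90597e8faafe5355fad58bf2b357eb1aafe9cf) b61119 (.nil))) (.nil))))) (.one (nat_lit 17) (nat_lit 199) (nat_lit 67) (nat_lit 0x2fd79e5fa348bf6e397e11e2fdd125f8a40bf09017e1f72fda74) b61122 (.tok (nat_lit 20) (nat_lit 0x2fd5f55f8876bf5eed7eae0afd3475fab82bf57157eb45afd8cb) (.hit (nat_lit 200) (nat_lit 68) (nat_lit 0x2fcca45f7b4cbf5eed7eae0afd18e5fab82bf57157eb45afd5c1) b61123 (.hit (nat_lit 201) (nat_lit 69) (nat_lit 0x2fd5f55f8876bf31bd7df1b2fd3475f871ebef8e97e122afd8cb) b61124 (.nil))) (.tok (nat_lit 23) (nat_lit 0x2fe9c45fc99ebf966d7ed4b2ff5015fc396bf44697f0842ff65c) (.hit (nat_lit 202) (nat_lit 70) (nat_lit 0x2fe9c45fc99ebf966d7ed4b2ff5015fc396bf44697f0842ff65c) b61125 (.hit (nat_lit 203) (nat_lit 71) (nat_lit 0x2fd6c85f85aebf88197df24afd41a5f88c6bef9357e188afd99e)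 b61126 (.nil))) (.one (nat_lit 26) (nat_lit 204) (nat_lit 72) (nat_lit 0x2fcda05f7360bf20dd7d89fafcaf25f7652bec50d7dcf82fd076) b61127 (.one (nat_lit 29) (nat_lit 205) (nat_lit 73) (nat_lit 0x2fcf4d5f85b6bf43fd7d8902fd2eb5f79c8bec0a17ddceafd223) b61128 (.one (nat_lit 32) (nat_lit 206) (nat_lit 74) (nat_lit 0x2fd62e5f92e2bf55d57dc002fda015f8786bebbed7e13f2fd904) b61129 (.one (nat_lit 35) (nat_lit 207) (nat_lit 75) (nat_lit 0x2fc25d5f66dcbf5b597dab12fc4985f6ac4bed5997db162fc533) b61130 (.one (nat_lit 38) (nat_lit 208) (nat_lit 76) (nat_lit 0x2fd2a45f8772bf5c057e18bafd4f35f862ebf0c6d7e1f0afd56d) b61131 (.tok (nat_lit 41) (nat_lit 0x2fd7995fa332bf6f917dcc3afdda85f8a78bee62d7e1f32fda5c) (.hit (nat_lit 209) (nat_lit 77) (nat_lit 0x2fcda65f8f22bf54257d841afd0f55f7302be90ad7dc872fd7ef) b61132 (.hit (nat_lit 210) (nat_lit 78) (nat_lit 0x2fd7995fa332bf6f917dcc3afdda85f8a78bee62d7e1f32fda5c)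 b61133 (.nil))) (.tok (nat_lit 44) (nat_lit 0x2fd7385f9198bf45257e103afd9865f89aabf082d7e1c2afda0e) (.hit (nat_lit 211) (nat_lit 79) (nat_lit 0x2fb8ea5f53d8bf21e97e103afbdd45f840ebf082d7e168afc207) b61134 (.hit (nat_lit 212) (nat_lit 80) (nat_lit 0x2fd7385f9198bf45257ddfeafd9865f89aabef0057e1c2afda0e) b61135 (.nil))) (.tok (nat_lit 47) (nat_lit 0x2fdc135fb7febf90c57dd3fafde685fa568beced57e95c2fdc75) (.hit (nat_lit 213) (nat_lit 81) (nat_lit 0x2fdc135fb7febf90c57dd3fafde685fa568beced57e95c2fdc75) b61136 (.hit (nat_lit 214) (nat_lit 82) (nat_lit 0x2fd34c5f7ee4bf4f297da8f2fd0a35f81c8bece617dfcb2fd622) b61137 (.nil))) (.one (nat_lit 62) (nat_lit 224) (nat_lit 92) (nat_lit 0x2fdbcb5f97a8bf6b297decd2fdcf35f92c4bef48d7e40c2fde9e) b61138 (.tok (nat_lit 65) (nat_lit 0x2fdcc35fc492bf9ef17e7fdafe4b05fa528bf3ffd7e916afe8f9) (.hit (nat_lit 225) (nat_lit 93) (nat_lit 0x2fdcc35fc492bf9ef17e7fdafe4b05fa528bf3ffd7e916afe8f9)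 b61139 (.hit (nat_lit 226) (nat_lit 94) (nat_lit 0x2fd8825f98b6bf6dd57dec12fddd35f8c2ebef6197e2692fdb57) b61140 (.nil))) (.tok (nat_lit 68) (nat_lit 0x2ff39a5fd44cbfacb97f6642fefa55fd0fcbf9aed7f51f2ff2af) (.hit (nat_lit 227) (nat_lit 95) (nat_lit 0x2ff3835fd44cbf9b997f6642feaac5fd0fcbf9aed7f43f2feedf) b61141 (.one (nat_lit 3) (nat_lit 231) (nat_lit 99) (nat_lit 0x2fe7df5fb196bf7d817e924afe4e45fad52bf49357ec922fdb8b) b61145 (.one (nat_lit 6) (nat_lit 228) (nat_lit 96) (nat_lit 0x2ff0c45fd18cbf99657f0082fefa55fd0fcbf80517f51f2ff0ac) b61142 (.tok (nat_lit 9) (nat_lit 0x2ff39a5fb9a0bfacb97f0172feb5e5fbb2abf636d7ee972ff2af) (.hit (nat_lit 229) (nat_lit 97) (nat_lit 0x2ff39a5fb9a0bfacb97f0172feb5e5fbb2abf636d7ee972ff2af) b61143 (.hit (nat_lit 230) (nat_lit 98) (nat_lit 0x2fd99f5fb768bf98e97e560afd5ae5f9582bf2b157e5c5afd8b9) b61144 (.nil))) (.nil))))) (.one (nat_lit 71) (nat_lit 232)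 (nat_lit 100) (nat_lit 0x2fd4bb5f835abf52ad7db46afd20d5f8478bea8ed7e085afd791) b61146 (.nil)))))))))))))))))) (.tok (nat_lit 64) (nat_lit 0x2ffa36600000c03fe17fc1d3000005fe618c0537d7f93faff27f) (.hit (nat_lit 377) (nat_lit 0) (nat_lit 0x2ffa365fecb6c030257fbba3000005fe618c0537d7f93faff27f) b61147 (.tok (nat_lit 6) (nat_lit 0x2ff2f05ffa4cc03fe17f8bbafef575fe2eebff8317f8bbaff177) (.hit (nat_lit 378) (nat_lit 7) (nat_lit 0x2feae95fb55ac03fe17f8bbafec805fe2eebfc5ed7f8bbaff177) b61148 (.hit (nat_lit 379) (nat_lit 15) (nat_lit 0x2ff2f05ffa4cc01bfd7f73f2fef575fd726bff8317f5fe2fe9b4) b61149 (.nil))) (.tok (nat_lit 9) (nat_lit 0x2ff919600000bffc1d7fc1d2ff4e15fdfecc039257f85fafef96) (.hit (nat_lit 380) (nat_lit 20) (nat_lit 0x2ff919600000bffc1d7fc1d2ff4e15fdfecc039257f85fafef96) b61150 (.hit (nat_lit 381) (nat_lit 28) (nat_lit 0x2fed795fe26abfc9457f3822fead45fcdfcbfafd17f3b3afe5b2) b61151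 (.nil))) (.nil)))) (.tok (nat_lit 67) (nat_lit 0x2ff9725fd26cc02c51800002ffb09600000c0001180000300000) (.hit (nat_lit 388) (nat_lit 0) (nat_lit 0x2ff9535fcac6bfea317f8a02fec495fe280bfc5117f8a02ff5e4) b61152 (.tok (nat_lit 3) (nat_lit 0x2fed075fb996c005957f9caafee9e5fe72abfce657f9caaff395) (.hit (nat_lit 389) (nat_lit 1) (nat_lit 0x2fd2e45f8550bfa0897ecb92fd47b5fb2e4bf65d97ecb92fd972) b61153 (.one (nat_lit 55) (nat_lit 390) (nat_lit 3) (nat_lit 0x2fed075fb996c005957f9caafee9e5fe72abfce657f9caaff395) b61154 (.nil))) (.tok (nat_lit 9) (nat_lit 0x2ff9725fd26cc02c51800002ffb09600000c0001180000300000) (.hit (nat_lit 391) (nat_lit 20) (nat_lit 0x2fdc1a5f97bcbfadb57f1542fddb15fc550bf8ab17f1542fe2a8) b61155 (.hit (nat_lit 394) (nat_lit 28) (nat_lit 0x2fcca65f78d4bf98697e99a2fce3d5fa668bf4ce17e99a2fd334) b61158 (.tok (nat_lit 67) (nat_lit 0x2ff9725fd26cc02c51800002ffb09600000c0001180000300000)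 (.hit (nat_lit 392) (nat_lit 21) (nat_lit 0x2ff1cf5fc326c01ed97fc2eaff3665ff0babfe1857fc2eaff85d) b61156 (.hit (nat_lit 395) (nat_lit 29) (nat_lit 0x2fe6be5fad04bff72d7f6a62fe8555fda98bfb5417f6a62fed4c) b61159 (.one (nat_lit 9) (nat_lit 393) (nat_lit 22) (nat_lit 0x2ff9725fd26cc02c51800002ffb09600000c0001180000300000) b61157 (.nil)))) (.nil)))) (.nil)))) (.tok (nat_lit 70) (nat_lit 0x2fedd05fbb28bfd1f57fa2f2fef675fe8bcbfd1897fa2f2ff45e) (.hit (nat_lit 402) (nat_lit 0) (nat_lit 0x2feb9c5fad66bfd0497f1c72fe87d5fc71cbf932d7f1c72fecda) b61160 (.tok (nat_lit 3) (nat_lit 0x2fedd05fbb28bfd1f57fa2f2fef675fe8bcbfd1897fa2f2ff45e) (.hit (nat_lit 403) (nat_lit 1) (nat_lit 0x2fd6d05f8d28bfb6697eeaf2fd8675fbabcbf75897eeaf2fdd5e) b61161 (.one (nat_lit 67) (nat_lit 404) (nat_lit 2) (nat_lit 0x2fedd05fbb28bfd1f57fa2f2fef675fe8bcbfd1897fa2f2ff45e) b61162 (.nil))) (.tok (nat_lit 6) (nat_lit 0x2fd8d55f9132bfb1c97efb1afda6c5fbec6bf7d9d7efb1afdf63)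 (.hit (nat_lit 405) (nat_lit 7) (nat_lit 0x2fd8d55f9132bfa7497efb1afda6c5fbec6bf7d9d7efb1afdf63) b61163 (.hit (nat_lit 408) (nat_lit 15) (nat_lit 0x2fd6455f8c12bfb1c97ee69afd7dc5fb9a6bf735d7ee69afdcd3) b61164 (.nil))) (.nil)))) (.nil))))
noncomputable def r89_1 : Rw Blk := .tok (nat_lit 14) (nat_lit 0xbc0001780002fcf0b) (.hit (nat_lit 140) (nat_lit 0) (nat_lit 0xbc0001780002fcf0b) b61182 (.one (nat_lit 3) (nat_lit 141) (nat_lit 1) (nat_lit 0xbc0001780002fa500) b61183 (.tok (nat_lit 6) (nat_lit 0xbc0001780002fc51f) (.hit (nat_lit 142) (nat_lit 7) (nat_lit 0xbc0001780002fc380) b61184 (.hit (nat_lit 143) (nat_lit 15) (nat_lit 0xbc0001780002fc51f) b61185 (.nil))) (.tok (nat_lit 9) (nat_lit 0xbc0001780002fc903) (.hit (nat_lit 144) (nat_lit 20) (nat_lit 0xbc0001780002fc380) b61184 (.hit (nat_lit 145) (nat_lit 28) (nat_lit 0xbc0001780002fc903) b61186 (.nil))) (.nil))))) (.tok (nat_lit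 17) (nat_lit 0xbc0001780002fcf5e) (.hit (nat_lit 134) (nat_lit 0) (nat_lit 0xbc0001780002fcf5e) b61176 (.one (nat_lit 3) (nat_lit 135) (nat_lit 1) (nat_lit 0xbc0001780002f9ff3) b61177 (.tok (nat_lit 6) (nat_lit 0xbc0001780002fc314) (.hit (nat_lit 136) (nat_lit 7) (nat_lit 0xbc0001780002fbb1d) b61178 (.hit (nat_lit 137) (nat_lit 15) (nat_lit 0xbc0001780002fc314) b61179 (.nil))) (.tok (nat_lit 9) (nat_lit 0xbc0001780002fc614) (.hit (nat_lit 138) (nat_lit 20) (nat_lit 0xbc0001780002fbe13) b61180 (.hit (nat_lit 139) (nat_lit 28) (nat_lit 0xbc0001780002fc614) b61181 (.nil))) (.nil))))) (.tok (nat_lit 20) (nat_lit 0xbc0001780002fcfd0) (.hit (nat_lit 122) (nat_lit 0) (nat_lit 0xbc0001780002fcfd0) b61165 (.one (nat_lit 3) (nat_lit 123) (nat_lit 1) (nat_lit 0xbc0001780002fa879) b61166 (.tok (nat_lit 6) (nat_lit 0xbc0001780002fc5fe) (.hit (nat_lit 124) (nat_lit 7) (nat_lit 0xbc0001780002fbf1f)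 b61167 (.hit (nat_lit 125) (nat_lit 15) (nat_lit 0xbc0001780002fc5fe) b61168 (.nil))) (.tok (nat_lit 9) (nat_lit 0xbc0001780002fc816) (.hit (nat_lit 126) (nat_lit 20) (nat_lit 0xbc0001780002fbfec) b61169 (.hit (nat_lit 127) (nat_lit 28) (nat_lit 0xbc0001780002fc816) b61170 (.nil))) (.nil))))) (.tok (nat_lit 23) (nat_lit 0xbc0001780002feb0c) (.hit (nat_lit 128) (nat_lit 0) (nat_lit 0xbc0001780002feb0c) b61171 (.one (nat_lit 3) (nat_lit 129) (nat_lit 1) (nat_lit 0xbc0001780002fdd84) b61172 (.tok (nat_lit 6) (nat_lit 0xbc0001780002fdede) (.hit (nat_lit 130) (nat_lit 7) (nat_lit 0xbc0001780002fdede) b61173 (.hit (nat_lit 131) (nat_lit 15) (nat_lit 0xbc0001780002fd92f) b61174 (.nil))) (.tok (nat_lit 9) (nat_lit 0xbc0001780002fdb44) (.hit (nat_lit 132) (nat_lit 20) (nat_lit 0xbc0001780002fbfec) b61169 (.hit (nat_lit 133) (nat_lit 28) (nat_lit 0xbc0001780002fdb44) b61175 (.nil))) (.nil)))))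 (.tok (nat_lit 26) (nat_lit 0xbc0001780002febff) (.hit (nat_lit 260) (nat_lit 0) (nat_lit 0xbc0001780002febff) b61233 (.one (nat_lit 3) (nat_lit 261) (nat_lit 1) (nat_lit 0xbc0001780002fa185) b61234 (.tok (nat_lit 6) (nat_lit 0xbc0001780002fb360) (.hit (nat_lit 262) (nat_lit 7) (nat_lit 0xbc0001780002fb2e9) b61235 (.hit (nat_lit 263) (nat_lit 15) (nat_lit 0xbc0001780002fb360) b61236 (.nil))) (.tok (nat_lit 9) (nat_lit 0xbc0001780002fcf27) (.hit (nat_lit 264) (nat_lit 20) (nat_lit 0xbc0001780002fcf27) b61237 (.hit (nat_lit 265) (nat_lit 28) (nat_lit 0xbc0001780002f9fdf) b61238 (.nil))) (.nil))))) (.tok (nat_lit 29) (nat_lit 0xbc0001780002fd162) (.hit (nat_lit 266) (nat_lit 0) (nat_lit 0xbc0001780002fd162) b61239 (.one (nat_lit 3) (nat_lit 267) (nat_lit 1) (nat_lit 0xbc0001780002fa3e7) b61240 (.tok (nat_lit 6) (nat_lit 0xbc0001780002fc674) (.hit (nat_lit 268) (nat_lit 7) (nat_lit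 0xbc0001780002fc3c5) b61241 (.hit (nat_lit 269) (nat_lit 15) (nat_lit 0xbc0001780002fc674) b61242 (.nil))) (.tok (nat_lit 9) (nat_lit 0xbc0001780002fc02b) (.hit (nat_lit 270) (nat_lit 20) (nat_lit 0xbc0001780002fb090) b61213 (.hit (nat_lit 271) (nat_lit 28) (nat_lit 0xbc0001780002fc02b) b61243 (.nil))) (.nil))))) (.tok (nat_lit 32) (nat_lit 0xbc0001780002fee75) (.hit (nat_lit 272) (nat_lit 0) (nat_lit 0xbc0001780002fee75) b61244 (.one (nat_lit 3) (nat_lit 273) (nat_lit 1) (nat_lit 0xbc0001780002fb190) b61245 (.tok (nat_lit 6) (nat_lit 0xbc0001780002fc91b) (.hit (nat_lit 274) (nat_lit 7) (nat_lit 0xbc0001780002fc91b) b61246 (.hit (nat_lit 275) (nat_lit 15) (nat_lit 0xbc0001780002fc542) b61247 (.nil))) (.tok (nat_lit 9) (nat_lit 0xbc0001780002fc71e) (.hit (nat_lit 276) (nat_lit 20) (nat_lit 0xbc0001780002fc3a3) b61248 (.hit (nat_lit 277) (nat_lit 28) (nat_lit 0xbc0001780002fc71e)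 b61249 (.nil))) (.nil))))) (.tok (nat_lit 35) (nat_lit 0xbc0001780002fde93) (.hit (nat_lit 278) (nat_lit 0) (nat_lit 0xbc0001780002fde93) b61250 (.one (nat_lit 3) (nat_lit 279) (nat_lit 1) (nat_lit 0xbc0001780002fa879) b61166 (.tok (nat_lit 6) (nat_lit 0xbc0001780002fb072) (.hit (nat_lit 280) (nat_lit 7) (nat_lit 0xbc0001780002fb072) b61251 (.hit (nat_lit 281) (nat_lit 15) (nat_lit 0xbc0001780002f9e51) b61252 (.nil))) (.tok (nat_lit 9) (nat_lit 0xbc0001780002fbfac) (.hit (nat_lit 282) (nat_lit 20) (nat_lit 0xbc0001780002fbd37) b61253 (.hit (nat_lit 283) (nat_lit 28) (nat_lit 0xbc0001780002fbfac) b61254 (.nil))) (.nil))))) (.tok (nat_lit 38) (nat_lit 0xbc0001780002fe37e) (.hit (nat_lit 215) (nat_lit 0) (nat_lit 0xbc0001780002fe37e) b61209 (.one (nat_lit 3) (nat_lit 216) (nat_lit 1) (nat_lit 0xbc0001780002facfb) b61210 (.tok (nat_lit 6) (nat_lit 0xbc0001780002fc21d) (.hit (nat_lit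 217) (nat_lit 7) (nat_lit 0xbc0001780002fc21d) b61211 (.hit (nat_lit 218) (nat_lit 15) (nat_lit 0xbc0001780002fb0f5) b61212 (.nil))) (.tok (nat_lit 9) (nat_lit 0xbc0001780002fb090) (.hit (nat_lit 219) (nat_lit 20) (nat_lit 0xbc0001780002fb090) b61213 (.hit (nat_lit 220) (nat_lit 28) (nat_lit 0xbc0001780002faa65) b61214 (.nil))) (.nil))))) (.tok (nat_lit 41) (nat_lit 0xbc0001780003007ce) (.hit (nat_lit 226) (nat_lit 0) (nat_lit 0xbc0001780002febfa) b61215 (.one (nat_lit 3) (nat_lit 227) (nat_lit 1) (nat_lit 0xbc0001780002fe2e7) b61216 (.tok (nat_lit 6) (nat_lit 0xbc0001780002fef94) (.hit (nat_lit 228) (nat_lit 7) (nat_lit 0xbc0001780002fef94) b61217 (.hit (nat_lit 229) (nat_lit 15) (nat_lit 0xbc0001780002fe0c0) b61218 (.nil))) (.tok (nat_lit 9) (nat_lit 0xbc0001780003007ce) (.hit (nat_lit 230) (nat_lit 20) (nat_lit 0xbc0001780003007ce) b61219 (.hit (nat_lit 231) (nat_lit 28) (nat_lit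 0xbc0001780002fe2ec) b61220 (.nil))) (.nil))))) (.tok (nat_lit 44) (nat_lit 0xbc0001780002fee5f) (.hit (nat_lit 240) (nat_lit 0) (nat_lit 0xbc0001780002fee5f) b61221 (.one (nat_lit 3) (nat_lit 241) (nat_lit 1) (nat_lit 0xbc0001780002fb32e) b61222 (.tok (nat_lit 6) (nat_lit 0xbc0001780002fb71d) (.hit (nat_lit 242) (nat_lit 7) (nat_lit 0xbc0001780002fb71d) b61223 (.hit (nat_lit 243) (nat_lit 15) (nat_lit 0xbc0001780002faf6e) b61224 (.nil))) (.tok (nat_lit 9) (nat_lit 0xbc0001780002fc99c) (.hit (nat_lit 244) (nat_lit 20) (nat_lit 0xbc0001780002fc7b8) b61225 (.hit (nat_lit 245) (nat_lit 28) (nat_lit 0xbc0001780002fc99c) b61226 (.nil))) (.nil))))) (.tok (nat_lit 47) (nat_lit 0xbc0001780003005da) (.hit (nat_lit 254) (nat_lit 0) (nat_lit 0xbc0001780002fe9a8) b61227 (.one (nat_lit 3) (nat_lit 255) (nat_lit 1) (nat_lit 0xbc0001780002fd099) b61228 (.tok (nat_lit 6) (nat_lit 0xbc0001780003005da)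 (.hit (nat_lit 256) (nat_lit 7) (nat_lit 0xbc0001780003005da) b61229 (.hit (nat_lit 257) (nat_lit 15) (nat_lit 0xbc0001780002fdc0a) b61230 (.nil))) (.tok (nat_lit 9) (nat_lit 0xbc0001780002fee02) (.hit (nat_lit 258) (nat_lit 20) (nat_lit 0xbc0001780002fee02) b61231 (.hit (nat_lit 259) (nat_lit 28) (nat_lit 0xbc0001780002fda58) b61232 (.nil))) (.nil))))) (.tok (nat_lit 62) (nat_lit 0xbc0001780002fcf83) (.hit (nat_lit 170) (nat_lit 0) (nat_lit 0xbc0001780002fcf83) b61187 (.one (nat_lit 3) (nat_lit 171) (nat_lit 1) (nat_lit 0xbc0001780002fa8bc) b61188 (.tok (nat_lit 6) (nat_lit 0xbc0001780002fb0b5) (.hit (nat_lit 172) (nat_lit 7) (nat_lit 0xbc0001780002fb0b5) b61189 (.hit (nat_lit 173) (nat_lit 15) (nat_lit 0xbc0001780002fada9) b61190 (.nil))) (.tok (nat_lit 9) (nat_lit 0xbc0001780002fc3e6) (.hit (nat_lit 174) (nat_lit 20) (nat_lit 0xbc0001780002fc3e6) b61191 (.hit (nat_lit 175)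 (nat_lit 28) (nat_lit 0xbc0001780002fb108) b61192 (.nil))) (.nil))))) (.tok (nat_lit 65) (nat_lit 0xbc0001780002fe0b2) (.hit (nat_lit 181) (nat_lit 0) (nat_lit 0xbc0001780002fe042) b61193 (.one (nat_lit 3) (nat_lit 182) (nat_lit 1) (nat_lit 0xbc0001780002fd982) b61194 (.tok (nat_lit 6) (nat_lit 0xbc0001780002fda47) (.hit (nat_lit 183) (nat_lit 7) (nat_lit 0xbc0001780002fb760) b61195 (.hit (nat_lit 184) (nat_lit 15) (nat_lit 0xbc0001780002fda47) b61196 (.nil))) (.tok (nat_lit 9) (nat_lit 0xbc0001780002fe0b2) (.hit (nat_lit 185) (nat_lit 20) (nat_lit 0xbc0001780002fe0b2) b61197 (.hit (nat_lit 186) (nat_lit 28) (nat_lit 0xbc0001780002fd7da) b61198 (.nil))) (.nil))))) (.tok (nat_lit 68) (nat_lit 0xbc0001780002fcfe7) (.hit (nat_lit 209) (nat_lit 0) (nat_lit 0xbc0001780002fcfe7) b61205 (.one (nat_lit 3) (nat_lit 210) (nat_lit 1) (nat_lit 0xbc0001780002fa879) b61166 (.tok (nat_lit 6)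 (nat_lit 0xbc0001780002fc7cb) (.hit (nat_lit 211) (nat_lit 7) (nat_lit 0xbc0001780002fb9cf) b61206 (.hit (nat_lit 212) (nat_lit 15) (nat_lit 0xbc0001780002fc7cb) b61207 (.nil))) (.tok (nat_lit 9) (nat_lit 0xbc0001780002fc380) (.hit (nat_lit 213) (nat_lit 20) (nat_lit 0xbc0001780002fc380) b61184 (.hit (nat_lit 214) (nat_lit 28) (nat_lit 0xbc0001780002fa9e7) b61208 (.nil))) (.nil))))) (.tok (nat_lit 71) (nat_lit 0xbc0001780002fd64e) (.hit (nat_lit 195) (nat_lit 0) (nat_lit 0xbc0001780002fd64e) b61199 (.one (nat_lit 3) (nat_lit 196) (nat_lit 1) (nat_lit 0xbc0001780002fba26) b61200 (.tok (nat_lit 6) (nat_lit 0xbc0001780002fcd2d) (.hit (nat_lit 197) (nat_lit 7) (nat_lit 0xbc0001780002fc397) b61201 (.hit (nat_lit 198) (nat_lit 15) (nat_lit 0xbc0001780002fcd2d) b61202 (.nil))) (.tok (nat_lit 9) (nat_lit 0xbc0001780002fc722) (.hit (nat_lit 199) (nat_lit 20) (nat_lit 0xbc0001780002fc722)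 b61203 (.hit (nat_lit 200) (nat_lit 28) (nat_lit 0xbc0001780002fc6e7) b61204 (.nil))) (.nil))))) (.nil))))))))))))))))
noncomputable def r89_2 : Rw Blk := .tok (nat_lit 3) (nat_lit 0xbc0001780002feec2) (.hit (nat_lit 18) (nat_lit 0) (nat_lit 0xbc0001780002fee8f) b61269 (.tok (nat_lit 6) (nat_lit 0xbc0001780002feec2) (.hit (nat_lit 19) (nat_lit 7) (nat_lit 0xbc0001780002feec2) b61270 (.hit (nat_lit 20) (nat_lit 15) (nat_lit 0xbc0001780002fde9e) b61271 (.nil))) (.tok (nat_lit 9) (nat_lit 0xbc0001780002fe503) (.hit (nat_lit 21) (nat_lit 20) (nat_lit 0xbc0001780002fca9a) b61272 (.hit (nat_lit 22) (nat_lit 28) (nat_lit 0xbc0001780002fe503) b61273 (.nil))) (.nil)))) (.tok (nat_lit 6) (nat_lit 0xbc000178000301ffd) (.hit (nat_lit 9) (nat_lit 0) (nat_lit 0xbc0001780002fed2f) b61264 (.tok (nat_lit 3) (nat_lit 0xbc000178000301ffd) (.hit (nat_lit 10) (nat_lit 1) (nat_lit 0xbc0001780002fe953)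 b61265 (.one (nat_lit 67) (nat_lit 11) (nat_lit 2) (nat_lit 0xbc000178000301ffd) b61266 (.nil))) (.tok (nat_lit 6) (nat_lit 0xbc000178000300cfa) (.hit (nat_lit 12) (nat_lit 7) (nat_lit 0xbc000178000300cfa) b61267 (.hit (nat_lit 16) (nat_lit 15) (nat_lit 0xbc0001780002ff709) b61268 (.nil))) (.nil)))) (.tok (nat_lit 9) (nat_lit 0xbc0001780002ff7c6) (.hit (nat_lit 0) (nat_lit 0) (nat_lit 0xbc0001780002fe901) b61255 (.tok (nat_lit 3) (nat_lit 0xbc0001780002fe392) (.hit (nat_lit 1) (nat_lit 1) (nat_lit 0xbc0001780002fce85) b61256 (.one (nat_lit 55) (nat_lit 2) (nat_lit 3) (nat_lit 0xbc0001780002fe392) b61257 (.nil))) (.tok (nat_lit 9) (nat_lit 0xbc0001780002ff7c6) (.hit (nat_lit 3) (nat_lit 20) (nat_lit 0xbc0001780002fce5e) b61258 (.hit (nat_lit 7) (nat_lit 28) (nat_lit 0xbc0001780002fcfb1) b61262 (.tok (nat_lit 67) (nat_lit 0xbc0001780002ff7c6) (.hit (nat_lit 4) (nat_lit 21) (nat_lit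 0xbc0001780002fe96a) b61259 (.hit (nat_lit 8) (nat_lit 29) (nat_lit 0xbc0001780002ff775) b61263 (.tok (nat_lit 9) (nat_lit 0xbc0001780002ff7c6) (.hit (nat_lit 5) (nat_lit 22) (nat_lit 0xbc0001780002fedfb) b61260 (.one (nat_lit 67) (nat_lit 6) (nat_lit 23) (nat_lit 0xbc0001780002ff7c6) b61261 (.nil))) (.nil)))) (.nil)))) (.nil)))) (.nil)))
noncomputable def r89_3 : Rw Blk := .tok (nat_lit 3) (nat_lit 0xbc000178000301ab4) (.hit (nat_lit 0) (nat_lit 0) (nat_lit 0xbc0001780002ff1ce) b61274 (.tok (nat_lit 9) (nat_lit 0xbc0001780002fed9f) (.hit (nat_lit 1) (nat_lit 20) (nat_lit 0xbc0001780002fd5bc) b61275 (.hit (nat_lit 4) (nat_lit 28) (nat_lit 0xbc0001780002fd389) b61278 (.tok (nat_lit 68) (nat_lit 0xbc0001780002fed9f) (.hit (nat_lit 2) (nat_lit 26) (nat_lit 0xbc0001780002fe824) b61276 (.hit (nat_lit 6) (nat_lit 32) (nat_lit 0xbc0001780002fe4e8) b61279 (.one (nat_lit 9) (nat_lit 3)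 (nat_lit 27) (nat_lit 0xbc0001780002fed9f) b61277 (.nil)))) (.nil)))) (.tok (nat_lit 64) (nat_lit 0xbc0001780002fed71) (.hit (nat_lit 7) (nat_lit 50) (nat_lit 0xbc0001780002fe4c5) b61280 (.hit (nat_lit 8) (nat_lit 51) (nat_lit 0xbc0001780002fed71) b61281 (.nil))) (.tok (nat_lit 67) (nat_lit 0xbc000178000301ab4) (.hit (nat_lit 9) (nat_lit 52) (nat_lit 0xbc000178000301ab4) b61282 (.one (nat_lit 3) (nat_lit 15) (nat_lit 58) (nat_lit 0xbc0001780002fe4c2) b61288 (.tok (nat_lit 9) (nat_lit 0xbc0001780002ff9f6) (.hit (nat_lit 10) (nat_lit 53) (nat_lit 0xbc0001780002fea78) b61283 (.hit (nat_lit 13) (nat_lit 56) (nat_lit 0xbc0001780002fe24e) b61286 (.tok (nat_lit 67) (nat_lit 0xbc0001780002ff9f6) (.hit (nat_lit 11) (nat_lit 54) (nat_lit 0xbc0001780002ff9f6) b61284 (.hit (nat_lit 14) (nat_lit 57) (nat_lit 0xbc0001780002feffe) b61287 (.one (nat_lit 9) (nat_lit 12) (nat_lit 55) (nat_lit 0xbc0001780002fe933)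 b61285 (.nil)))) (.nil)))) (.nil)))) (.one (nat_lit 70) (nat_lit 16) (nat_lit 60) (nat_lit 0xbc0001780002fe405) b61289 (.nil)))))) (.tok (nat_lit 6) (nat_lit 0xbc0001780003019f3) (.hit (nat_lit 17) (nat_lit 0) (nat_lit 0xbc00017800030129a) b61290 (.tok (nat_lit 6) (nat_lit 0xbc0001780003019f3) (.hit (nat_lit 18) (nat_lit 7) (nat_lit 0xbc000178000300b90) b61291 (.hit (nat_lit 21) (nat_lit 15) (nat_lit 0xbc0001780002fe88d) b61294 (.tok (nat_lit 56) (nat_lit 0xbc0001780003019f3) (.hit (nat_lit 19) (nat_lit 13) (nat_lit 0xbc000178000300179) b61292 (.hit (nat_lit 23) (nat_lit 19) (nat_lit 0xbc0001780002ff2c9) b61296 (.one (nat_lit 6) (nat_lit 20) (nat_lit 14) (nat_lit 0xbc0001780003019f3) b61293 (.nil)))) (.one (nat_lit 68) (nat_lit 22) (nat_lit 18) (nat_lit 0xbc000178000300e45) b61295 (.nil))))) (.nil))) (.nil))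
noncomputable def r89_4 : Rw Blk := .tok (nat_lit 3) (nat_lit 0xbc0001780002fd639) (.hit (nat_lit 14) (nat_lit 0) (nat_lit 0xbc0001780002fd38b) b61311 (.tok (nat_lit 6) (nat_lit 0xbc0001780002fc396) (.hit (nat_lit 15) (nat_lit 7) (nat_lit 0xbc0001780002fae56) b61312 (.hit (nat_lit 16) (nat_lit 15) (nat_lit 0xbc0001780002fc396) b61313 (.nil))) (.tok (nat_lit 9) (nat_lit 0xbc0001780002fd639) (.hit (nat_lit 17) (nat_lit 20) (nat_lit 0xbc0001780002fd639) b61314 (.hit (nat_lit 18) (nat_lit 28) (nat_lit 0xbc0001780002fc5c4) b61315 (.nil))) (.nil)))) (.tok (nat_lit 6) (nat_lit 0xbc0001780002fec26) (.hit (nat_lit 0) (nat_lit 0) (nat_lit 0xbc0001780002fdba3) b61297 (.tok (nat_lit 3) (nat_lit 0xbc0001780002fdc1f) (.hit (nat_lit 1) (nat_lit 1) (nat_lit 0xbc0001780002fb9d4) b61298 (.one (nat_lit 67) (nat_lit 2) (nat_lit 2) (nat_lit 0xbc0001780002fdc1f) b61299 (.nil))) (.tok (nat_lit 6) (nat_lit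 0xbc0001780002fec26) (.hit (nat_lit 3) (nat_lit 7) (nat_lit 0xbc0001780002fc990) b61300 (.hit (nat_lit 7) (nat_lit 15) (nat_lit 0xbc0001780002fc5c7) b61304 (.tok (nat_lit 55) (nat_lit 0xbc0001780002fec26) (.hit (nat_lit 4) (nat_lit 8) (nat_lit 0xbc0001780002fd93a) b61301 (.hit (nat_lit 8) (nat_lit 16) (nat_lit 0xbc0001780002fe60a) b61305 (.tok (nat_lit 6) (nat_lit 0xbc0001780002fec26) (.hit (nat_lit 5) (nat_lit 9) (nat_lit 0xbc0001780002fd9a1) b61302 (.one (nat_lit 55) (nat_lit 6) (nat_lit 10) (nat_lit 0xbc0001780002fec26) b61303 (.nil))) (.nil)))) (.nil)))) (.nil)))) (.tok (nat_lit 9) (nat_lit 0xbc0001780003004f8) (.hit (nat_lit 9) (nat_lit 0) (nat_lit 0xbc0001780002fe46e) b61306 (.tok (nat_lit 3) (nat_lit 0xbc0001780003004f8) (.hit (nat_lit 10) (nat_lit 1) (nat_lit 0xbc0001780002fdf5d) b61307 (.one (nat_lit 55) (nat_lit 11) (nat_lit 3) (nat_lit 0xbc0001780003004f8) b61308 (.nil)))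 (.tok (nat_lit 9) (nat_lit 0xbc0001780002fd66d) (.hit (nat_lit 12) (nat_lit 20) (nat_lit 0xbc0001780002fd54d) b61309 (.hit (nat_lit 13) (nat_lit 28) (nat_lit 0xbc0001780002fd66d) b61310 (.nil))) (.nil)))) (.nil)))
noncomputable def r89_5 : Rw Blk := .tok (nat_lit 3) (nat_lit 0xbc0001780002ff971) (.hit (nat_lit 0) (nat_lit 0) (nat_lit 0xbc0001780002fe0b0) b61316 (.tok (nat_lit 6) (nat_lit 0xbc0001780002feab8) (.hit (nat_lit 1) (nat_lit 7) (nat_lit 0xbc0001780002fcfc7) b61317 (.hit (nat_lit 6) (nat_lit 15) (nat_lit 0xbc0001780002fc14e) b61320 (.tok (nat_lit 56) (nat_lit 0xbc0001780002feab8) (.hit (nat_lit 4) (nat_lit 13) (nat_lit 0xbc0001780002fe2cc) b61318 (.hit (nat_lit 8) (nat_lit 19) (nat_lit 0xbc0001780002fd455) b61321 (.one (nat_lit 6) (nat_lit 5) (nat_lit 14) (nat_lit 0xbc0001780002feab8) b61319 (.nil)))) (.nil)))) (.tok (nat_lit 52) (nat_lit 0xbc0001780002fddd0) (.hit (nat_lit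 9) (nat_lit 39) (nat_lit 0xbc0001780002fdd5d) b61322 (.hit (nat_lit 10) (nat_lit 40) (nat_lit 0xbc0001780002fddd0) b61323 (.nil))) (.tok (nat_lit 55) (nat_lit 0xbc0001780002ff971) (.hit (nat_lit 11) (nat_lit 41) (nat_lit 0xbc0001780002ff971) b61324 (.one (nat_lit 3) (nat_lit 17) (nat_lit 47) (nat_lit 0xbc0001780002fe2a0) b61330 (.tok (nat_lit 6) (nat_lit 0xbc0001780002fed1a) (.hit (nat_lit 12) (nat_lit 42) (nat_lit 0xbc0001780002fe3af) b61325 (.hit (nat_lit 15) (nat_lit 45) (nat_lit 0xbc0001780002fdee4) b61328 (.tok (nat_lit 55) (nat_lit 0xbc0001780002fed1a) (.hit (nat_lit 13) (nat_lit 43) (nat_lit 0xbc0001780002fed1a) b61326 (.hit (nat_lit 16) (nat_lit 46) (nat_lit 0xbc0001780002feabc) b61329 (.one (nat_lit 6) (nat_lit 14) (nat_lit 44) (nat_lit 0xbc0001780002fea91) b61327 (.nil)))) (.nil)))) (.nil)))) (.one (nat_lit 58) (nat_lit 19) (nat_lit 49) (nat_lit 0xbc0001780002fdd06)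 b61331 (.nil)))))) (.tok (nat_lit 9) (nat_lit 0xbc0001780003001ce) (.hit (nat_lit 20) (nat_lit 0) (nat_lit 0xbc0001780002fe0d6) b61332 (.tok (nat_lit 9) (nat_lit 0xbc0001780003001ce) (.hit (nat_lit 21) (nat_lit 20) (nat_lit 0xbc0001780002fe0dd) b61333 (.hit (nat_lit 26) (nat_lit 28) (nat_lit 0xbc0001780002fc2e5) b61336 (.one (nat_lit 56) (nat_lit 28) (nat_lit 31) (nat_lit 0xbc0001780002fe07e) b61337 (.tok (nat_lit 68) (nat_lit 0xbc0001780003001ce) (.hit (nat_lit 24) (nat_lit 26) (nat_lit 0xbc0001780003001ce) b61334 (.hit (nat_lit 29) (nat_lit 32) (nat_lit 0xbc0001780002fe0fb) b61338 (.one (nat_lit 9) (nat_lit 25) (nat_lit 27) (nat_lit 0xbc0001780002fe7d9) b61335 (.nil)))) (.nil))))) (.nil))) (.nil))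
noncomputable def r89_6 : Rw Blk := .tok (nat_lit 14) (nat_lit 0xbc0001780002fd708) (.hit (nat_lit 140) (nat_lit 0) (nat_lit 0xbc0001780002fcc27) b25771 (.one (nat_lit 3) (nat_lit 141) (nat_lit 1) (nat_lit 0xbc0001780002f9e14) b25772 (.tok (nat_lit 6) (nat_lit 0xbc0001780002fc9f2) (.hit (nat_lit 142) (nat_lit 7) (nat_lit 0xbc0001780002fc287) b25773 (.hit (nat_lit 143) (nat_lit 15) (nat_lit 0xbc0001780002fc9f2) b25774 (.nil))) (.tok (nat_lit 9) (nat_lit 0xbc0001780002fd708) (.hit (nat_lit 144) (nat_lit 20) (nat_lit 0xbc0001780002fcc47) b25775 (.hit (nat_lit 145) (nat_lit 28) (nat_lit 0xbc0001780002fd708) b25776 (.nil))) (.nil))))) (.tok (nat_lit 17) (nat_lit 0xbc0001780002fdc97) (.hit (nat_lit 134) (nat_lit 0) (nat_lit 0xbc0001780002fdc97) b25765 (.one (nat_lit 3) (nat_lit 135) (nat_lit 1) (nat_lit 0xbc0001780002fad7f) b25766 (.tok (nat_lit 6) (nat_lit 0xbc0001780002fdc6c) (.hit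 (nat_lit 136) (nat_lit 7) (nat_lit 0xbc0001780002fbe69) b25767 (.hit (nat_lit 137) (nat_lit 15) (nat_lit 0xbc0001780002fdc6c) b25768 (.nil))) (.tok (nat_lit 9) (nat_lit 0xbc0001780002fd177) (.hit (nat_lit 138) (nat_lit 20) (nat_lit 0xbc0001780002fce5b) b25769 (.hit (nat_lit 139) (nat_lit 28) (nat_lit 0xbc0001780002fd177) b25770 (.nil))) (.nil))))) (.tok (nat_lit 20) (nat_lit 0xbc0001780002fe84b) (.hit (nat_lit 122) (nat_lit 0) (nat_lit 0xbc0001780002fe2e0) b25753 (.one (nat_lit 3) (nat_lit 123) (nat_lit 1) (nat_lit 0xbc0001780002fd2f3) b25754 (.tok (nat_lit 6) (nat_lit 0xbc0001780002fe84b) (.hit (nat_lit 124) (nat_lit 7) (nat_lit 0xbc0001780002fc7e4) b25755 (.hit (nat_lit 125) (nat_lit 15) (nat_lit 0xbc0001780002fe84b) b25756 (.nil))) (.tok (nat_lit 9) (nat_lit 0xbc0001780002fe567) (.hit (nat_lit 126) (nat_lit 20) (nat_lit 0xbc0001780002fe3c2) b25757 (.hit (nat_lit 127) (nat_lit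 28) (nat_lit 0xbc0001780002fe567) b25758 (.nil))) (.nil))))) (.tok (nat_lit 23) (nat_lit 0xbc0001780002fe614) (.hit (nat_lit 128) (nat_lit 0) (nat_lit 0xbc0001780002fe25c) b25759 (.one (nat_lit 3) (nat_lit 129) (nat_lit 1) (nat_lit 0xbc0001780002fdaf6) b25760 (.tok (nat_lit 6) (nat_lit 0xbc0001780002fdfff) (.hit (nat_lit 130) (nat_lit 7) (nat_lit 0xbc0001780002fdef7) b25761 (.hit (nat_lit 131) (nat_lit 15) (nat_lit 0xbc0001780002fdfff) b25762 (.nil))) (.tok (nat_lit 9) (nat_lit 0xbc0001780002fe614) (.hit (nat_lit 132) (nat_lit 20) (nat_lit 0xbc0001780002fcc84) b25763 (.hit (nat_lit 133) (nat_lit 28) (nat_lit 0xbc0001780002fe614) b25764 (.nil))) (.nil))))) (.tok (nat_lit 26) (nat_lit 0xbc0001780002fea73) (.hit (nat_lit 260) (nat_lit 0) (nat_lit 0xbc0001780002fea73) b25823 (.one (nat_lit 3) (nat_lit 261) (nat_lit 1) (nat_lit 0xbc0001780002fb5e5) b25824 (.tok (nat_lit 6) (nat_lit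 0xbc0001780002fcf12) (.hit (nat_lit 262) (nat_lit 7) (nat_lit 0xbc0001780002fcf12) b25825 (.hit (nat_lit 263) (nat_lit 15) (nat_lit 0xbc0001780002fc0bd) b25826 (.nil))) (.tok (nat_lit 9) (nat_lit 0xbc0001780002fd222) (.hit (nat_lit 264) (nat_lit 20) (nat_lit 0xbc0001780002fbb91) b25827 (.hit (nat_lit 265) (nat_lit 28) (nat_lit 0xbc0001780002fd222) b25828 (.nil))) (.nil))))) (.tok (nat_lit 29) (nat_lit 0xbc0001780002fd60e) (.hit (nat_lit 266) (nat_lit 0) (nat_lit 0xbc0001780002fd60e) b25829 (.one (nat_lit 3) (nat_lit 267) (nat_lit 1) (nat_lit 0xbc0001780002fb2c7) b25830 (.tok (nat_lit 6) (nat_lit 0xbc0001780002fd5ae) (.hit (nat_lit 268) (nat_lit 7) (nat_lit 0xbc0001780002fcca7) b25831 (.hit (nat_lit 269) (nat_lit 15) (nat_lit 0xbc0001780002fd5ae) b25832 (.nil))) (.tok (nat_lit 9) (nat_lit 0xbc0001780002fd482) (.hit (nat_lit 270) (nat_lit 20) (nat_lit 0xbc0001780002fc617) b25833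 (.hit (nat_lit 271) (nat_lit 28) (nat_lit 0xbc0001780002fd482) b25834 (.nil))) (.nil))))) (.tok (nat_lit 32) (nat_lit 0xbc0001780002fddbc) (.hit (nat_lit 272) (nat_lit 0) (nat_lit 0xbc0001780002fddbc) b25835 (.one (nat_lit 3) (nat_lit 273) (nat_lit 1) (nat_lit 0xbc0001780002fb140) b25796 (.tok (nat_lit 6) (nat_lit 0xbc0001780002fd5a3) (.hit (nat_lit 274) (nat_lit 7) (nat_lit 0xbc0001780002fbb86) b25836 (.hit (nat_lit 275) (nat_lit 15) (nat_lit 0xbc0001780002fd5a3) b25837 (.nil))) (.tok (nat_lit 9) (nat_lit 0xbc0001780002fcc77) (.hit (nat_lit 276) (nat_lit 20) (nat_lit 0xbc0001780002fcc77) b25838 (.hit (nat_lit 277) (nat_lit 28) (nat_lit 0xbc0001780002fb572) b25839 (.nil))) (.nil))))) (.tok (nat_lit 35) (nat_lit 0xbc0001780002fda3b) (.hit (nat_lit 278) (nat_lit 0) (nat_lit 0xbc0001780002fda3b) b25840 (.one (nat_lit 3) (nat_lit 279) (nat_lit 1) (nat_lit 0xbc0001780002fb140) b25796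 (.tok (nat_lit 6) (nat_lit 0xbc0001780002fc918) (.hit (nat_lit 280) (nat_lit 7) (nat_lit 0xbc0001780002fc918) b25841 (.hit (nat_lit 281) (nat_lit 15) (nat_lit 0xbc0001780002fb3ea) b25842 (.nil))) (.tok (nat_lit 9) (nat_lit 0xbc0001780002fd38f) (.hit (nat_lit 282) (nat_lit 20) (nat_lit 0xbc0001780002fcc33) b25843 (.hit (nat_lit 283) (nat_lit 28) (nat_lit 0xbc0001780002fd38f) b25844 (.nil))) (.nil))))) (.tok (nat_lit 38) (nat_lit 0xbc0001780002fed2f) (.hit (nat_lit 215) (nat_lit 0) (nat_lit 0xbc0001780002fed2f) b25800 (.one (nat_lit 3) (nat_lit 216) (nat_lit 1) (nat_lit 0xbc0001780002fb16e) b25801 (.tok (nat_lit 6) (nat_lit 0xbc0001780002fcc8a) (.hit (nat_lit 217) (nat_lit 7) (nat_lit 0xbc0001780002fcc8a) b25797 (.hit (nat_lit 218) (nat_lit 15) (nat_lit 0xbc0001780002fb9cb) b25802 (.nil))) (.tok (nat_lit 9) (nat_lit 0xbc0001780002fbd27) (.hit (nat_lit 219) (nat_lit 20) (nat_lit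 0xbc0001780002fbd27) b25803 (.hit (nat_lit 220) (nat_lit 28) (nat_lit 0xbc0001780002fb9cf) b25804 (.nil))) (.nil))))) (.tok (nat_lit 41) (nat_lit 0xbc0001780002fecd0) (.hit (nat_lit 226) (nat_lit 0) (nat_lit 0xbc0001780002fe660) b25805 (.one (nat_lit 3) (nat_lit 227) (nat_lit 1) (nat_lit 0xbc0001780002fdab5) b25806 (.tok (nat_lit 6) (nat_lit 0xbc0001780002fecd0) (.hit (nat_lit 228) (nat_lit 7) (nat_lit 0xbc0001780002fecd0) b25807 (.hit (nat_lit 229) (nat_lit 15) (nat_lit 0xbc0001780002fe6c3) b25808 (.nil))) (.tok (nat_lit 9) (nat_lit 0xbc0001780002fea98) (.hit (nat_lit 230) (nat_lit 20) (nat_lit 0xbc0001780002fea98) b25809 (.hit (nat_lit 231) (nat_lit 28) (nat_lit 0xbc0001780002fe506) b25810 (.nil))) (.nil))))) (.tok (nat_lit 44) (nat_lit 0xbc000178000300000) (.hit (nat_lit 240) (nat_lit 0) (nat_lit 0xbc0001780002ffafc) b25811 (.one (nat_lit 3) (nat_lit 241) (nat_lit 1) (nat_lit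 0xbc0001780002fd7ea) b25812 (.tok (nat_lit 6) (nat_lit 0xbc0001780002ff24c) (.hit (nat_lit 242) (nat_lit 7) (nat_lit 0xbc0001780002ff24c) b25813 (.hit (nat_lit 243) (nat_lit 15) (nat_lit 0xbc0001780002fdc30) b25814 (.nil))) (.tok (nat_lit 9) (nat_lit 0xbc000178000300000) (.hit (nat_lit 244) (nat_lit 20) (nat_lit 0xbc000178000300000) b25815 (.hit (nat_lit 245) (nat_lit 28) (nat_lit 0xbc0001780002fe1b0) b25816 (.nil))) (.nil))))) (.tok (nat_lit 47) (nat_lit 0xbc0001780002ff869) (.hit (nat_lit 254) (nat_lit 0) (nat_lit 0xbc0001780002ff869) b25817 (.one (nat_lit 3) (nat_lit 255) (nat_lit 1) (nat_lit 0xbc0001780002fcd47) b25818 (.tok (nat_lit 6) (nat_lit 0xbc0001780002fed16) (.hit (nat_lit 256) (nat_lit 7) (nat_lit 0xbc0001780002fed16) b25819 (.hit (nat_lit 257) (nat_lit 15) (nat_lit 0xbc0001780002fe1e8) b25820 (.nil))) (.tok (nat_lit 9) (nat_lit 0xbc0001780002feffd) (.hit (nat_lit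 258) (nat_lit 20) (nat_lit 0xbc0001780002feffd) b25821 (.hit (nat_lit 259) (nat_lit 28) (nat_lit 0xbc0001780002fdf1d) b25822 (.nil))) (.nil))))) (.tok (nat_lit 62) (nat_lit 0xbc0001780002fe321) (.hit (nat_lit 170) (nat_lit 0) (nat_lit 0xbc0001780002fd344) b25777 (.one (nat_lit 3) (nat_lit 171) (nat_lit 1) (nat_lit 0xbc0001780002fb653) b25778 (.tok (nat_lit 6) (nat_lit 0xbc0001780002fc0f4) (.hit (nat_lit 172) (nat_lit 7) (nat_lit 0xbc0001780002fc0f4) b25779 (.hit (nat_lit 173) (nat_lit 15) (nat_lit 0xbc0001780002fbadb) b25780 (.nil))) (.tok (nat_lit 9) (nat_lit 0xbc0001780002fe321) (.hit (nat_lit 174) (nat_lit 20) (nat_lit 0xbc0001780002fe321) b25781 (.hit (nat_lit 175) (nat_lit 28) (nat_lit 0xbc0001780002fbc63) b25782 (.nil))) (.nil))))) (.tok (nat_lit 65) (nat_lit 0xbc0001780002fe8b7) (.hit (nat_lit 181) (nat_lit 0) (nat_lit 0xbc0001780002fe3a7) b25783 (.one (nat_lit 3) (nat_lit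 182) (nat_lit 1) (nat_lit 0xbc0001780002fdaad) b25784 (.tok (nat_lit 6) (nat_lit 0xbc0001780002fe8b7) (.hit (nat_lit 183) (nat_lit 7) (nat_lit 0xbc0001780002fd211) b25785 (.hit (nat_lit 184) (nat_lit 15) (nat_lit 0xbc0001780002fe8b7) b25786 (.nil))) (.tok (nat_lit 9) (nat_lit 0xbc0001780002fe21d) (.hit (nat_lit 185) (nat_lit 20) (nat_lit 0xbc0001780002fe21d) b25787 (.hit (nat_lit 186) (nat_lit 28) (nat_lit 0xbc0001780002fdd25) b25788 (.nil))) (.nil))))) (.tok (nat_lit 68) (nat_lit 0xbc0001780002fd98c) (.hit (nat_lit 209) (nat_lit 0) (nat_lit 0xbc0001780002fd98c) b25795 (.one (nat_lit 3) (nat_lit 210) (nat_lit 1) (nat_lit 0xbc0001780002fb140) b25796 (.tok (nat_lit 6) (nat_lit 0xbc0001780002fd843) (.hit (nat_lit 211) (nat_lit 7) (nat_lit 0xbc0001780002fcc8a) b25797 (.hit (nat_lit 212) (nat_lit 15) (nat_lit 0xbc0001780002fd843) b25798 (.nil))) (.tok (nat_lit 9) (nat_lit 0xbc0001780002fcc47)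 (.hit (nat_lit 213) (nat_lit 20) (nat_lit 0xbc0001780002fcc47) b25775 (.hit (nat_lit 214) (nat_lit 28) (nat_lit 0xbc0001780002fb2ae) b25799 (.nil))) (.nil))))) (.tok (nat_lit 71) (nat_lit 0xbc0001780002fea16) (.hit (nat_lit 195) (nat_lit 0) (nat_lit 0xbc0001780002fdccc) b25789 (.one (nat_lit 3) (nat_lit 196) (nat_lit 1) (nat_lit 0xbc0001780002fbd99) b25790 (.tok (nat_lit 6) (nat_lit 0xbc0001780002fea16) (.hit (nat_lit 197) (nat_lit 7) (nat_lit 0xbc0001780002fea16) b25791 (.hit (nat_lit 198) (nat_lit 15) (nat_lit 0xbc0001780002fadab) b25792 (.nil))) (.tok (nat_lit 9) (nat_lit 0xbc0001780002fd989) (.hit (nat_lit 199) (nat_lit 20) (nat_lit 0xbc0001780002fd461) b25793 (.hit (nat_lit 200) (nat_lit 28) (nat_lit 0xbc0001780002fd989) b25794 (.nil))) (.nil))))) (.nil))))))))))))))))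
noncomputable def r89_7 : Rw Blk := .tok (nat_lit 3) (nat_lit 0xbc0001780002fdfe3) (.hit (nat_lit 18) (nat_lit 0) (nat_lit 0xbc0001780002fdfe3) b11659 (.tok (nat_lit 6) (nat_lit 0xbc0001780002fd426) (.hit (nat_lit 19) (nat_lit 7) (nat_lit 0xbc0001780002fcfcf) b11662 (.hit (nat_lit 20) (nat_lit 15) (nat_lit 0xbc0001780002fd426) b11663 (.nil))) (.tok (nat_lit 9) (nat_lit 0xbc0001780002fcf6d) (.hit (nat_lit 21) (nat_lit 20) (nat_lit 0xbc0001780002fcf6d) b11660 (.hit (nat_lit 22) (nat_lit 28) (nat_lit 0xbc0001780002fce45) b11661 (.nil))) (.nil)))) (.tok (nat_lit 6) (nat_lit 0xbc0001780002feb8e) (.hit (nat_lit 9) (nat_lit 0) (nat_lit 0xbc0001780002fdff6) b11651 (.tok (nat_lit 3) (nat_lit 0xbc0001780002feb8e) (.hit (nat_lit 10) (nat_lit 1) (nat_lit 0xbc0001780002fda7f) b11652 (.one (nat_lit 67) (nat_lit 11) (nat_lit 2) (nat_lit 0xbc0001780002feb8e) b15453 (.nil))) (.tok (nat_lit 6)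 (nat_lit 0xbc0001780002fda9c) (.hit (nat_lit 12) (nat_lit 7) (nat_lit 0xbc0001780002fd406) b11653 (.hit (nat_lit 16) (nat_lit 15) (nat_lit 0xbc0001780002fda9c) b11657 (.nil))) (.nil)))) (.tok (nat_lit 9) (nat_lit 0xbc000178000300000) (.hit (nat_lit 0) (nat_lit 0) (nat_lit 0xbc0001780002fea59) b11643 (.tok (nat_lit 3) (nat_lit 0xbc0001780002ff018) (.hit (nat_lit 1) (nat_lit 1) (nat_lit 0xbc0001780002fd338) b11644 (.one (nat_lit 55) (nat_lit 2) (nat_lit 3) (nat_lit 0xbc0001780002ff018) b15452 (.nil))) (.tok (nat_lit 9) (nat_lit 0xbc000178000300000) (.hit (nat_lit 3) (nat_lit 20) (nat_lit 0xbc0001780002feccc) b11645 (.hit (nat_lit 7) (nat_lit 28) (nat_lit 0xbc0001780002fdb65) b11649 (.tok (nat_lit 67) (nat_lit 0xbc000178000300000) (.hit (nat_lit 4) (nat_lit 21) (nat_lit 0xbc0001780002ffb92) b11646 (.hit (nat_lit 8) (nat_lit 29) (nat_lit 0xbc0001780002ff0f8) b11650 (.tok (nat_lit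 9) (nat_lit 0xbc000178000300000) (.hit (nat_lit 5) (nat_lit 22) (nat_lit 0xbc0001780002ff9af) b11647 (.one (nat_lit 67) (nat_lit 6) (nat_lit 23) (nat_lit 0xbc000178000300000) b11648 (.nil))) (.nil)))) (.nil)))) (.nil)))) (.nil)))
noncomputable def r89_8 : Rw Blk := .tok (nat_lit 3) (nat_lit 0xbc0001780002fe332) (.hit (nat_lit 14) (nat_lit 0) (nat_lit 0xbc0001780002fe332) b15487 (.tok (nat_lit 6) (nat_lit 0xbc0001780002fd0a7) (.hit (nat_lit 15) (nat_lit 7) (nat_lit 0xbc0001780002fd0a7) b15488 (.hit (nat_lit 16) (nat_lit 15) (nat_lit 0xbc0001780002faa89) b15489 (.nil))) (.tok (nat_lit 9) (nat_lit 0xbc0001780002fd58b) (.hit (nat_lit 17) (nat_lit 20) (nat_lit 0xbc0001780002fd58b) b15490 (.hit (nat_lit 18) (nat_lit 28) (nat_lit 0xbc0001780002fd007) b15491 (.nil))) (.nil)))) (.tok (nat_lit 6) (nat_lit 0xbc0001780002ff6c3) (.hit (nat_lit 0) (nat_lit 0) (nat_lit 0xbc0001780002ff2fa) b15473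 (.tok (nat_lit 3) (nat_lit 0xbc0001780002fe7a8) (.hit (nat_lit 1) (nat_lit 1) (nat_lit 0xbc0001780002fd593) b15474 (.one (nat_lit 67) (nat_lit 2) (nat_lit 2) (nat_lit 0xbc0001780002fe7a8) b15475 (.nil))) (.tok (nat_lit 6) (nat_lit 0xbc0001780002ff6c3) (.hit (nat_lit 3) (nat_lit 7) (nat_lit 0xbc0001780002fd2ad) b15476 (.hit (nat_lit 7) (nat_lit 15) (nat_lit 0xbc0001780002fd3a5) b15480 (.tok (nat_lit 55) (nat_lit 0xbc0001780002ff6c3) (.hit (nat_lit 4) (nat_lit 8) (nat_lit 0xbc0001780002fe8c9) b15477 (.hit (nat_lit 8) (nat_lit 16) (nat_lit 0xbc0001780002ff0ef) b15481 (.tok (nat_lit 6) (nat_lit 0xbc0001780002ff6c3) (.hit (nat_lit 5) (nat_lit 9) (nat_lit 0xbc0001780002fe8ce) b15478 (.one (nat_lit 55) (nat_lit 6) (nat_lit 10) (nat_lit 0xbc0001780002ff6c3) b15479 (.nil))) (.nil)))) (.nil)))) (.nil)))) (.tok (nat_lit 9) (nat_lit 0xbc000178000300000) (.hit (nat_lit 9) (nat_lit 0) (nat_lit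 0xbc000178000300000) b15482 (.tok (nat_lit 3) (nat_lit 0xbc0001780002ffaf5) (.hit (nat_lit 10) (nat_lit 1) (nat_lit 0xbc0001780002fda4e) b15483 (.one (nat_lit 55) (nat_lit 11) (nat_lit 3) (nat_lit 0xbc0001780002ffaf5) b15484 (.nil))) (.tok (nat_lit 9) (nat_lit 0xbc0001780002ff2c2) (.hit (nat_lit 12) (nat_lit 20) (nat_lit 0xbc0001780002ff2c2) b15485 (.hit (nat_lit 13) (nat_lit 28) (nat_lit 0xbc0001780002fdd07) b15486 (.nil))) (.nil)))) (.nil)))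
noncomputable def r89_9 : Rw Blk := .tok (nat_lit 6) (nat_lit 0xbc0001780003008e1) (.hit (nat_lit 0) (nat_lit 0) (nat_lit 0xbc0001780003008e1) b61339 (.tok (nat_lit 3) (nat_lit 0xbc0001780002fde6d) (.hit (nat_lit 1) (nat_lit 1) (nat_lit 0xbc0001780002fc179) b61340 (.one (nat_lit 14) (nat_lit 2) (nat_lit 4) (nat_lit 0xbc0001780002fda7e) b61341 (.one (nat_lit 56) (nat_lit 3) (nat_lit 6) (nat_lit 0xbc0001780002fde6d) b61342 (.nil)))) (.tok (nat_lit 40) (nat_lit 0xbc0001780002fe326) (.hit (nat_lit 4) (nat_lit 33) (nat_lit 0xbc0001780002fdda0) b61343 (.hit (nat_lit 5) (nat_lit 34) (nat_lit 0xbc0001780002fe326) b61344 (.nil))) (.tok (nat_lit 43) (nat_lit 0xbc0001780002fef81) (.hit (nat_lit 6) (nat_lit 35) (nat_lit 0xbc0001780002fef81) b61345 (.hit (nat_lit 7) (nat_lit 36) (nat_lit 0xbc0001780002fe9e6) b61346 (.nil))) (.tok (nat_lit 46) (nat_lit 0xbc0001780002feeaa) (.hit (nat_lit 8)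 (nat_lit 37) (nat_lit 0xbc0001780002feeaa) b61347 (.hit (nat_lit 9) (nat_lit 38) (nat_lit 0xbc0001780002feb45) b61348 (.nil))) (.nil)))))) (.tok (nat_lit 9) (nat_lit 0xbc00017800030150a) (.hit (nat_lit 10) (nat_lit 0) (nat_lit 0xbc00017800030150a) b61349 (.tok (nat_lit 3) (nat_lit 0xbc0001780002ffe28) (.hit (nat_lit 11) (nat_lit 1) (nat_lit 0xbc0001780002feaf9) b61350 (.one (nat_lit 14) (nat_lit 12) (nat_lit 4) (nat_lit 0xbc0001780002ffe28) b61351 (.one (nat_lit 68) (nat_lit 13) (nat_lit 5) (nat_lit 0xbc0001780002ffb37) b61352 (.nil)))) (.nil))) (.nil))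
noncomputable def r89_10 : Rw Blk := .tok (nat_lit 6) (nat_lit 0xbc000178000300865) (.hit (nat_lit 0) (nat_lit 0) (nat_lit 0xbc0001780002ffd48) b61353 (.tok (nat_lit 3) (nat_lit 0xbc000178000300444) (.hit (nat_lit 1) (nat_lit 1) (nat_lit 0xbc0001780002fd56d) b61354 (.one (nat_lit 14) (nat_lit 2) (nat_lit 4) (nat_lit 0xbc000178000300444) b61355 (.one (nat_lit 56) (nat_lit 3) (nat_lit 6) (nat_lit 0xbc0001780002fee59) b61356 (.nil)))) (.tok (nat_lit 40) (nat_lit 0xbc0001780002ff71d) (.hit (nat_lit 4) (nat_lit 33) (nat_lit 0xbc0001780002ff2de) b61357 (.hit (nat_lit 5) (nat_lit 34) (nat_lit 0xbc0001780002ff71d) b61358 (.nil))) (.tok (nat_lit 43) (nat_lit 0xbc000178000300252) (.hit (nat_lit 6) (nat_lit 35) (nat_lit 0xbc000178000300252) b61359 (.hit (nat_lit 7) (nat_lit 36) (nat_lit 0xbc0001780002fec33) b61360 (.nil))) (.tok (nat_lit 46) (nat_lit 0xbc000178000300865) (.hit (nat_lit 8)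 (nat_lit 37) (nat_lit 0xbc0001780002fe533) b61361 (.hit (nat_lit 9) (nat_lit 38) (nat_lit 0xbc000178000300865) b61362 (.nil))) (.nil)))))) (.tok (nat_lit 9) (nat_lit 0xbc0001780002fef05) (.hit (nat_lit 10) (nat_lit 0) (nat_lit 0xbc0001780002fe5c5) b61363 (.tok (nat_lit 3) (nat_lit 0xbc0001780002fef05) (.hit (nat_lit 11) (nat_lit 1) (nat_lit 0xbc0001780002fcef4) b61364 (.one (nat_lit 14) (nat_lit 12) (nat_lit 4) (nat_lit 0xbc0001780002fef05) b61365 (.one (nat_lit 68) (nat_lit 13) (nat_lit 5) (nat_lit 0xbc0001780002fe4e2) b61366 (.nil)))) (.nil))) (.nil))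
noncomputable def r89_11 : Rw Blk := .tok (nat_lit 3) (nat_lit 0x60085ec00dc980a07affe1c602374c0214d805af30051c) (.hit (nat_lit 15) (nat_lit 0) (nat_lit 0x5fb028bf8d317fa06afdcc75fe5b6bf97d57fa3dafe758) b61382 (.tok (nat_lit 6) (nat_lit 0x5fa798bf92457fc902fd5255fe710bf86b57f95a2fe310) (.hit (nat_lit 16) (nat_lit 7) (nat_lit 0x5f7b84bf45ed7ec54afbf1b5fb048bf2e8d7e420afcd06) b61383 (.hit (nat_lit 21) (nat_lit 15) (nat_lit 0x5f4492bf12b17e45d2fa3a25faf98bec0a97e92b2fb18d) b61386 (.tok (nat_lit 14) (nat_lit 0x5f9af0bf92457fc902fced15fe710bf6d657f95a2fdcbc) (.hit (nat_lit 17) (nat_lit 11) (nat_lit 0x5f9614bf6e1d7f5b82fcc635fcb72bf63ad7efd22fda4e) b61384 (.hit (nat_lit 22) (nat_lit 17) (nat_lit 0x5f9552bf82b57f2a22fcc025fe710bf62297f95a2fd9ed) b61387 (.one (nat_lit 9) (nat_lit 18) (nat_lit 12) (nat_lit 0x5f9af0bf92457fc902fced15fe37cbf6d657f296afdcbc) b61385 (.nil)))) (.one (nat_lit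 68) (nat_lit 23) (nat_lit 18) (nat_lit 0x5fa798bf7c017f057afd5255fcae6bf86b57f5e0afe310) b61388 (.nil))))) (.tok (nat_lit 52) (nat_lit 0x5fa618bfa77d7f8602fd4655fe710bf83b57fea32fe250) (.hit (nat_lit 25) (nat_lit 39) (nat_lit 0x5fa21cbf54ed7f1a7afd2675fc56abf7bbd7f700afe052) b61389 (.hit (nat_lit 26) (nat_lit 40) (nat_lit 0x5fa618bfa77d7f8602fd4655fe710bf83b57fea32fe250) b61390 (.nil))) (.tok (nat_lit 55) (nat_lit 0x60085ec00dc980a07affe1c602374c0214d805af30051c) (.hit (nat_lit 27) (nat_lit 41) (nat_lit 0x60085ec00dc980a07affe1c602374c0214d805af30051c) b61391 (.tok (nat_lit 3) (nat_lit 0x5fc160bfcb5580494afe2096000c6bfba457fadc2feff4) (.hit (nat_lit 33) (nat_lit 47) (nat_lit 0x5fb670bf9811801ae2fdc916000c6bfa4657f7aeafea7c) b61394 (.one (nat_lit 67) (nat_lit 34) (nat_lit 48) (nat_lit 0x5fc160bfcb5580494afe2095ff3a4bfba457fadc2feff4) b61395 (.nil))) (.tok (nat_lit 6) (nat_lit 0x5fb262bfa5ed7fd832fda8a5ffafebf9c497f3fa2fe875)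 (.hit (nat_lit 28) (nat_lit 42) (nat_lit 0x5fa912bf75d97fae22fd5e25ff5c6bf89a97f3fa2fe3cd) b61392 (.hit (nat_lit 31) (nat_lit 45) (nat_lit 0x5fb262bfa5ed7fd832fda8a5ffafebf9c497f1b02fe875) b61393 (.nil))) (.nil)))) (.one (nat_lit 58) (nat_lit 35) (nat_lit 49) (nat_lit 0x5facaabfb3657f8dfafd7ae5feb34bf90d9805342fe599) b61396 (.nil)))))) (.tok (nat_lit 9) (nat_lit 0x60336ac0715581753b02149603be2c07bb1816eb303425) (.hit (nat_lit 0) (nat_lit 0) (nat_lit 0x5fec18c0520180b1db004ad602b70bfd44180165300698) b61367 (.tok (nat_lit 9) (nat_lit 0x6011d8c03f6180f4e30108d6026a4bffa898051b301827) (.hit (nat_lit 1) (nat_lit 20) (nat_lit 0x5fdb9cbf4ac17f05daff9e25fd916bfb4e17f2ff300398) b61368 (.hit (nat_lit 4) (nat_lit 28) (nat_lit 0x5f8f88bf531d7eedeafd9025fc4f6bf15a17f1ccafd8ed) b61371 (.tok (nat_lit 14) (nat_lit 0x6011d8c00a4980f4e30108d6015f8bffa897ff21b01827) (.hit (nat_lit 2) (nat_lit 24)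 (nat_lit 0x6011d8bff0d580558b0108d5fe902bffa897fc4eb01827) b61369 (.hit (nat_lit 5) (nat_lit 30) (nat_lit 0x5fa672bfc8f57f5662fdcdb5fdb5ebf71e17ff21afe4df) b61372 (.one (nat_lit 6) (nat_lit 3) (nat_lit 25) (nat_lit 0x60004ec00a4980f4e300bf76015f8bff9297fee5b014ef) b61370 (.nil)))) (.one (nat_lit 56) (nat_lit 6) (nat_lit 31) (nat_lit 0x5fc84ec03f6180a4d2ff1cf6026a4bfa6358051b2ff623) b61373 (.nil))))) (.tok (nat_lit 64) (nat_lit 0x60336ac03c11809e6b021495ffc4abfc66181439b03425) (.hit (nat_lit 7) (nat_lit 50) (nat_lit 0x60336ac03c11809e6b021495fd0dabfc66181439b03425) b61374 (.hit (nat_lit 8) (nat_lit 51) (nat_lit 0x600eaabff7857fe11b013475ffc4abfad2180335301d96) b61375 (.nil))) (.tok (nat_lit 67) (nat_lit 0x602450c0715581753b01d68603be2c07bb1816eb3023b1) (.hit (nat_lit 9) (nat_lit 52) (nat_lit 0x602450c0715581753b01d68603be2c07bb1816eb3021fc) b61376 (.tok (nat_lit 3) (nat_lit 0x60169cbfe0618036bb01ca5600346c02c11805f3b023b1)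 (.hit (nat_lit 12) (nat_lit 58) (nat_lit 0x60168ebfb9657fda6301800600346c02c11805f3b023b1) b61379 (.one (nat_lit 55) (nat_lit 13) (nat_lit 59) (nat_lit 0x60169cbfe0618036bb01ca55ff2d0c009817fd85b021b0) b61380 (.nil))) (.tok (nat_lit 9) (nat_lit 0x600674c00e3180bef300a786005d8bfc4fd806d6b00e61) (.hit (nat_lit 10) (nat_lit 53) (nat_lit 0x5fde30c00e31808ac2ff31b5ff360bfc4fd806d6b0017c) b61377 (.hit (nat_lit 11) (nat_lit 56) (nat_lit 0x600674bfe66d80bef300a786005d8bfb8b97fe5c300e61) b61378 (.nil))) (.nil)))) (.one (nat_lit 70) (nat_lit 14) (nat_lit 60) (nat_lit 0x5ff92ac008597fd673011b56005f4bfd66981200b01580) b61381 (.nil)))))) (.nil))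
noncomputable def r89_12 : Rw Blk := .tok (nat_lit 9) (nat_lit 0x5e0000c0e2c18275ab04f14) (.hit (nat_lit 18) (nat_lit 0) (nat_lit 0x5e0000bfd7a18039930091e) b61415 (.tok (nat_lit 14) (nat_lit 0x5e0000c067a58107030230e) (.hit (nat_lit 19) (nat_lit 61) (nat_lit 0x5e0000bffe7181070300d00) b61416 (.one (nat_lit 3) (nat_lit 20) (nat_lit 62) (nat_lit 0x5e0000bfe81d8062fb01270) b61417 (.tok (nat_lit 6) (nat_lit 0x5e0000c067a581007b0230e) (.hit (nat_lit 23) (nat_lit 65) (nat_lit 0x5e0000c067a581007b0230e) b61420 (.hit (nat_lit 24) (nat_lit 66) (nat_lit 0x5e0000bfc3757fd6b2ff750) b61421 (.nil))) (.tok (nat_lit 9) (nat_lit 0x5e0000bfb3097fbde3008d6) (.hit (nat_lit 21) (nat_lit 63) (nat_lit 0x5e0000bf7d417f458afee4c) b61418 (.hit (nat_lit 22) (nat_lit 64) (nat_lit 0x5e0000bfb3097fbde3008d6) b61419 (.nil))) (.nil))))) (.one (nat_lit 17) (nat_lit 25) (nat_lit 67) (nat_lit 0x5e0000bfce39802c7300062)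 b61422 (.tok (nat_lit 20) (nat_lit 0x5e0000bf921d7f7e0aff9a5) (.hit (nat_lit 26) (nat_lit 68) (nat_lit 0x5e0000bf76557f37b2fec91) b61423 (.hit (nat_lit 27) (nat_lit 69) (nat_lit 0x5e0000bf921d7f7e0aff9a5) b61424 (.nil))) (.tok (nat_lit 23) (nat_lit 0x5e0000c0e2c18275ab04f14) (.hit (nat_lit 28) (nat_lit 70) (nat_lit 0x5e0000c0e2c18275ab04f14) b61425 (.hit (nat_lit 29) (nat_lit 71) (nat_lit 0x5e0000bf762d7f5352fee57) b61426 (.nil))) (.one (nat_lit 26) (nat_lit 30) (nat_lit 72) (nat_lit 0x5e0000bf7fe97f487afee86) b61427 (.one (nat_lit 29) (nat_lit 31) (nat_lit 73) (nat_lit 0x5e0000bf967d7fd682ff8f0) b61428 (.one (nat_lit 32) (nat_lit 32) (nat_lit 74) (nat_lit 0x5e0000bfb34d7fd3d2ff318) b61429 (.one (nat_lit 35) (nat_lit 33) (nat_lit 75) (nat_lit 0x5e0000bf79797f2f6afe7c0) b61430 (.one (nat_lit 50) (nat_lit 41) (nat_lit 83) (nat_lit 0x5e0000bfbb697fb50aff878) b61431 (.tok (nat_lit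 53) (nat_lit 0x5e0000bfc6157feac3004cc) (.hit (nat_lit 42) (nat_lit 84) (nat_lit 0x5e0000bf95897fbc7aff86a) b61432 (.hit (nat_lit 43) (nat_lit 85) (nat_lit 0x5e0000bfc6157feac3004cc) b61433 (.nil))) (.tok (nat_lit 56) (nat_lit 0x5e0000c026357fd12b00eca) (.hit (nat_lit 44) (nat_lit 86) (nat_lit 0x5e0000c026357fd12b00eca) b61434 (.one (nat_lit 3) (nat_lit 48) (nat_lit 90) (nat_lit 0x5e0000bf79397f3d7afed4a) b61438 (.tok (nat_lit 6) (nat_lit 0x5e0000bf66997f183afe8a2) (.hit (nat_lit 46) (nat_lit 88) (nat_lit 0x5e0000bf66997f183afe8a2) b61436 (.hit (nat_lit 47) (nat_lit 89) (nat_lit 0x5e0000bf4a817ee00afe19c) b61437 (.nil))) (.one (nat_lit 9) (nat_lit 45) (nat_lit 87) (nat_lit 0x5e0000bf74a17f344afec24) b61435 (.nil))))) (.one (nat_lit 59) (nat_lit 49) (nat_lit 91) (nat_lit 0x5e0000bf87457f637aff15b) b61439 (.nil)))))))))))))) (.tok (nat_lit 64) (nat_lit 0x5e0000c089d581849303e39)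 (.hit (nat_lit 13) (nat_lit 0) (nat_lit 0x5e0000c075f581849303c76) b61410 (.tok (nat_lit 6) (nat_lit 0x5e0000bff21d7fd803007da) (.hit (nat_lit 14) (nat_lit 7) (nat_lit 0x5e0000bf84857f5412ff728) b61411 (.hit (nat_lit 15) (nat_lit 15) (nat_lit 0x5e0000bff21d7fd803007da) b61412 (.nil))) (.tok (nat_lit 9) (nat_lit 0x5e0000c089d581013303e39) (.hit (nat_lit 16) (nat_lit 20) (nat_lit 0x5e0000c0683180dc130304b) b61413 (.hit (nat_lit 17) (nat_lit 28) (nat_lit 0x5e0000c089d581013303e39) b61414 (.nil))) (.nil)))) (.tok (nat_lit 67) (nat_lit 0x5e0000bfeb39801d0b01047) (.hit (nat_lit 8) (nat_lit 0) (nat_lit 0x5e0000bfeb398007fb00da5) b61405 (.tok (nat_lit 3) (nat_lit 0x5e0000bfe71180192b00fcb) (.hit (nat_lit 9) (nat_lit 1) (nat_lit 0x5e0000bfa6057f9712fff88) b61406 (.one (nat_lit 55) (nat_lit 10) (nat_lit 3) (nat_lit 0x5e0000bfe71180192b00fcb) b61407 (.nil))) (.tok (nat_lit 9) (nat_lit 0x5e0000bfe901801d0b01047)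 (.hit (nat_lit 11) (nat_lit 20) (nat_lit 0x5e0000bfe901801d0b01047) b61408 (.hit (nat_lit 12) (nat_lit 28) (nat_lit 0x5e0000bf95e97f76daffb81) b61409 (.nil))) (.nil)))) (.tok (nat_lit 70) (nat_lit 0x5e0000c041bd80ce8302676) (.hit (nat_lit 0) (nat_lit 0) (nat_lit 0x5e0000c036858033130221a) b61397 (.tok (nat_lit 3) (nat_lit 0x5e0000c041bd80ce8302676) (.hit (nat_lit 1) (nat_lit 1) (nat_lit 0x5e0000bff119802d3b0124d) b61398 (.one (nat_lit 67) (nat_lit 2) (nat_lit 2) (nat_lit 0x5e0000c041bd80ce8302676) b61399 (.nil))) (.tok (nat_lit 6) (nat_lit 0x5e0000c034d980b4bb0233d) (.hit (nat_lit 3) (nat_lit 7) (nat_lit 0x5e0000bfde0d80072300d8a) b61400 (.hit (nat_lit 6) (nat_lit 15) (nat_lit 0x5e0000bfe6558017b300f9c) b61403 (.tok (nat_lit 55) (nat_lit 0x5e0000c034d980b4bb0233d) (.hit (nat_lit 4) (nat_lit 8) (nat_lit 0x5e0000c013dd8072c301afe) b61401 (.hit (nat_lit 7) (nat_lit 16) (nat_lit 0x5e0000c0331580b133022cc)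 b61404 (.one (nat_lit 6) (nat_lit 5) (nat_lit 9) (nat_lit 0x5e0000c034d980b4bb0233d) b61402 (.nil)))) (.nil)))) (.nil)))) (.nil))))
noncomputable def r89_13 : Rw Blk := .tok (nat_lit 3) (nat_lit 0x5e0000c0c091816eab03329) (.hit (nat_lit 0) (nat_lit 0) (nat_lit 0x5e0000c0c091816b2303329) b61440 (.tok (nat_lit 6) (nat_lit 0x5e0000c03d758084630163e) (.hit (nat_lit 1) (nat_lit 7) (nat_lit 0x5e0000bf90017f47fafeae1) b61441 (.hit (nat_lit 6) (nat_lit 15) (nat_lit 0x5e0000bf8c1d7f86b2fe9e8) b61444 (.tok (nat_lit 56) (nat_lit 0x5e0000c03d758084630163e) (.hit (nat_lit 4) (nat_lit 13) (nat_lit 0x5e0000bfd30d8008c2ffba4) b61442 (.hit (nat_lit 8) (nat_lit 19) (nat_lit 0x5e0000bfdefd7fe192ffea0) b61445 (.one (nat_lit 6) (nat_lit 5) (nat_lit 14) (nat_lit 0x5e0000c03d758084630163e) b61443 (.nil)))) (.nil)))) (.tok (nat_lit 52) (nat_lit 0x5e0000c0318581092301342) (.hit (nat_lit 9) (nat_lit 39)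 (nat_lit 0x5e0000c0318581092301342) b61446 (.hit (nat_lit 10) (nat_lit 40) (nat_lit 0x5e0000c00e0180c25300a61) b61447 (.nil))) (.tok (nat_lit 55) (nat_lit 0x5e0000c0b8ad816eab0306c) (.hit (nat_lit 11) (nat_lit 41) (nat_lit 0x5e0000c0b8ad816eab0306c) b61448 (.one (nat_lit 3) (nat_lit 17) (nat_lit 47) (nat_lit 0x5e0000c0270180ae03010a1) b61454 (.tok (nat_lit 6) (nat_lit 0x5e0000c0435980cfeb017b7) (.hit (nat_lit 12) (nat_lit 42) (nat_lit 0x5e0000c011d5808a6300b56) b61449 (.hit (nat_lit 15) (nat_lit 45) (nat_lit 0x5e0000c00e598079bb00a77) b61452 (.tok (nat_lit 55) (nat_lit 0x5e0000c0435980cfeb017b7) (.hit (nat_lit 13) (nat_lit 43) (nat_lit 0x5e0000c0435980cfeb017b7) b61450 (.hit (nat_lit 16) (nat_lit 46) (nat_lit 0x5e0000c0369980a13b01487) b61453 (.one (nat_lit 6) (nat_lit 14) (nat_lit 44) (nat_lit 0x5e0000c01dc58062fb00e52) b61451 (.nil)))) (.nil)))) (.nil)))) (.one (nat_lit 58)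 (nat_lit 19) (nat_lit 49) (nat_lit 0x5e0000bff1298041630032b) b61455 (.nil)))))) (.tok (nat_lit 9) (nat_lit 0x5e0000c0d5a981b21b0420d) (.hit (nat_lit 20) (nat_lit 0) (nat_lit 0x5e0000c0cca9818eeb03ac0) b61456 (.tok (nat_lit 9) (nat_lit 0x5e0000c0d5a981b21b0420d) (.hit (nat_lit 21) (nat_lit 20) (nat_lit 0x5e0000c0706d80ff9302eb4) b61457 (.hit (nat_lit 24) (nat_lit 28) (nat_lit 0x5e0000c036858079bb02afa) b61458 (.one (nat_lit 56) (nat_lit 26) (nat_lit 31) (nat_lit 0x5e0000c0d5a981b21b0420d) b61459 (.nil)))) (.nil))) (.nil))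
noncomputable def r89_14 : Rw Blk := .tok (nat_lit 9) (nat_lit 0xbc00017800030410c) (.hit (nat_lit 0) (nat_lit 0) (nat_lit 0xbc000178000302c30) b61460 (.one (nat_lit 38) (nat_lit 12) (nat_lit 76) (nat_lit 0xbc000178000302bf7) b61461 (.tok (nat_lit 41) (nat_lit 0xbc000178000302065) (.hit (nat_lit 13) (nat_lit 77) (nat_lit 0xbc000178000300d01) b61462 (.hit (nat_lit 14) (nat_lit 78) (nat_lit 0xbc000178000302065) b61463 (.nil))) (.tok (nat_lit 44) (nat_lit 0xbc000178000301910) (.hit (nat_lit 15) (nat_lit 79) (nat_lit 0xbc000178000300cfe) b61464 (.hit (nat_lit 16) (nat_lit 80) (nat_lit 0xbc000178000301910) b61465 (.nil))) (.tok (nat_lit 47) (nat_lit 0xbc000178000303308) (.hit (nat_lit 17) (nat_lit 81) (nat_lit 0xbc000178000303308) b61466 (.hit (nat_lit 18) (nat_lit 82) (nat_lit 0xbc000178000301c73) b61467 (.nil))) (.one (nat_lit 50) (nat_lit 19) (nat_lit 83) (nat_lit 0xbc000178000302837)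 b61468 (.tok (nat_lit 53) (nat_lit 0xbc00017800030227f) (.hit (nat_lit 20) (nat_lit 84) (nat_lit 0xbc000178000301153) b61469 (.hit (nat_lit 21) (nat_lit 85) (nat_lit 0xbc00017800030227f) b61470 (.nil))) (.tok (nat_lit 56) (nat_lit 0xbc00017800030410c) (.hit (nat_lit 22) (nat_lit 86) (nat_lit 0xbc00017800030410c) b61471 (.one (nat_lit 3) (nat_lit 26) (nat_lit 90) (nat_lit 0xbc0001780003023f6) b61475 (.tok (nat_lit 6) (nat_lit 0xbc000178000301cb9) (.hit (nat_lit 24) (nat_lit 88) (nat_lit 0xbc000178000301cb9) b61473 (.hit (nat_lit 25) (nat_lit 89) (nat_lit 0xbc0001780003016b4) b61474 (.nil))) (.one (nat_lit 9) (nat_lit 23) (nat_lit 87) (nat_lit 0xbc000178000302754) b61472 (.nil))))) (.one (nat_lit 59) (nat_lit 27) (nat_lit 91) (nat_lit 0xbc000178000300bb8) b61476 (.nil)))))))))) (.nil)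
noncomputable def r89_15 : Rw Blk := .tok (nat_lit 9) (nat_lit 0xbc0001780003035d1) (.hit (nat_lit 18) (nat_lit 0) (nat_lit 0xbc0001780002fe17f) b61495 (.tok (nat_lit 14) (nat_lit 0xbc0001780003035d1) (.hit (nat_lit 19) (nat_lit 61) (nat_lit 0xbc00017800030067f) b61496 (.one (nat_lit 3) (nat_lit 20) (nat_lit 62) (nat_lit 0xbc0001780002ff45f) b61497 (.tok (nat_lit 6) (nat_lit 0xbc0001780003035d1) (.hit (nat_lit 23) (nat_lit 65) (nat_lit 0xbc0001780003035d1) b61500 (.hit (nat_lit 24) (nat_lit 66) (nat_lit 0xbc0001780002ff591) b61501 (.nil))) (.tok (nat_lit 9) (nat_lit 0xbc0001780002fe9aa) (.hit (nat_lit 21) (nat_lit 63) (nat_lit 0xbc0001780002fe47a) b61498 (.hit (nat_lit 22) (nat_lit 64) (nat_lit 0xbc0001780002fe9aa) b61499 (.nil))) (.nil))))) (.one (nat_lit 17) (nat_lit 25) (nat_lit 67) (nat_lit 0xbc0001780002fec0e) b61502 (.tok (nat_lit 20) (nat_lit 0xbc0001780002fe937) (.hit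 (nat_lit 26) (nat_lit 68) (nat_lit 0xbc0001780002fd8bc) b61503 (.hit (nat_lit 27) (nat_lit 69) (nat_lit 0xbc0001780002fe937) b61504 (.nil))) (.tok (nat_lit 23) (nat_lit 0xbc000178000301647) (.hit (nat_lit 28) (nat_lit 70) (nat_lit 0xbc000178000301647) b61505 (.hit (nat_lit 29) (nat_lit 71) (nat_lit 0xbc0001780002fe7b5) b61506 (.nil))) (.one (nat_lit 26) (nat_lit 30) (nat_lit 72) (nat_lit 0xbc0001780002febeb) b61507 (.one (nat_lit 29) (nat_lit 31) (nat_lit 73) (nat_lit 0xbc0001780002fed57) b61508 (.one (nat_lit 32) (nat_lit 32) (nat_lit 74) (nat_lit 0xbc0001780002ff451) b61509 (.one (nat_lit 35) (nat_lit 33) (nat_lit 75) (nat_lit 0xbc0001780002fe44d) b61510 (.one (nat_lit 50) (nat_lit 41) (nat_lit 83) (nat_lit 0xbc0001780002feedd) b61511 (.tok (nat_lit 53) (nat_lit 0xbc0001780002fea2d) (.hit (nat_lit 42) (nat_lit 84) (nat_lit 0xbc0001780002fe21f) b61512 (.hit (nat_lit 43) (nat_lit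 85) (nat_lit 0xbc0001780002fea2d) b61513 (.nil))) (.tok (nat_lit 56) (nat_lit 0xbc0001780002ffe83) (.hit (nat_lit 44) (nat_lit 86) (nat_lit 0xbc0001780002ffe83) b61514 (.one (nat_lit 3) (nat_lit 48) (nat_lit 90) (nat_lit 0xbc0001780002fd850) b61518 (.tok (nat_lit 6) (nat_lit 0xbc0001780002fe4e6) (.hit (nat_lit 46) (nat_lit 88) (nat_lit 0xbc0001780002fe4e6) b61516 (.hit (nat_lit 47) (nat_lit 89) (nat_lit 0xbc0001780002fcb81) b61517 (.nil))) (.one (nat_lit 9) (nat_lit 45) (nat_lit 87) (nat_lit 0xbc0001780002fe47a) b61515 (.nil))))) (.one (nat_lit 59) (nat_lit 49) (nat_lit 91) (nat_lit 0xbc0001780002fe5c4) b61519 (.nil)))))))))))))) (.tok (nat_lit 64) (nat_lit 0xbc00017800030287d) (.hit (nat_lit 13) (nat_lit 0) (nat_lit 0xbc000178000301967) b61490 (.tok (nat_lit 6) (nat_lit 0xbc000178000300153) (.hit (nat_lit 14) (nat_lit 7) (nat_lit 0xbc0001780002fed00) b61491 (.hit (nat_lit 15)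 (nat_lit 15) (nat_lit 0xbc000178000300153) b61492 (.nil))) (.tok (nat_lit 9) (nat_lit 0xbc00017800030287d) (.hit (nat_lit 16) (nat_lit 20) (nat_lit 0xbc0001780003024e4) b61493 (.hit (nat_lit 17) (nat_lit 28) (nat_lit 0xbc00017800030287d) b61494 (.nil))) (.nil)))) (.tok (nat_lit 67) (nat_lit 0xbc0001780003009fb) (.hit (nat_lit 8) (nat_lit 0) (nat_lit 0xbc0001780002ffb1f) b61485 (.tok (nat_lit 3) (nat_lit 0xbc0001780003009fb) (.hit (nat_lit 9) (nat_lit 1) (nat_lit 0xbc0001780002ff43b) b61486 (.one (nat_lit 55) (nat_lit 10) (nat_lit 3) (nat_lit 0xbc0001780003009fb) b61487 (.nil))) (.tok (nat_lit 9) (nat_lit 0xbc0001780002ff4a1) (.hit (nat_lit 11) (nat_lit 20) (nat_lit 0xbc0001780002ff4a1) b61488 (.hit (nat_lit 12) (nat_lit 28) (nat_lit 0xbc0001780002fe844) b61489 (.nil))) (.nil)))) (.tok (nat_lit 70) (nat_lit 0xbc000178000301916) (.hit (nat_lit 0) (nat_lit 0) (nat_lit 0xbc0001780003002e3)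 b61477 (.tok (nat_lit 3) (nat_lit 0xbc000178000300e69) (.hit (nat_lit 1) (nat_lit 1) (nat_lit 0xbc0001780002ffd7a) b61478 (.one (nat_lit 67) (nat_lit 2) (nat_lit 2) (nat_lit 0xbc000178000300e69) b61479 (.nil))) (.tok (nat_lit 6) (nat_lit 0xbc000178000301916) (.hit (nat_lit 3) (nat_lit 7) (nat_lit 0xbc0001780003009f9) b61480 (.hit (nat_lit 6) (nat_lit 15) (nat_lit 0xbc0001780002ffcce) b61483 (.tok (nat_lit 55) (nat_lit 0xbc000178000301916) (.hit (nat_lit 4) (nat_lit 8) (nat_lit 0xbc0001780003013d9) b61481 (.hit (nat_lit 7) (nat_lit 16) (nat_lit 0xbc000178000300ddb) b61484 (.one (nat_lit 6) (nat_lit 5) (nat_lit 9) (nat_lit 0xbc000178000301916) b61482 (.nil)))) (.nil)))) (.nil)))) (.nil))))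
noncomputable def r89_16 : Rw Blk := .tok (nat_lit 3) (nat_lit 0xbc000178000303f61) (.hit (nat_lit 0) (nat_lit 0) (nat_lit 0xbc00017800030289c) b61520 (.tok (nat_lit 6) (nat_lit 0xbc000178000301820) (.hit (nat_lit 1) (nat_lit 7) (nat_lit 0xbc0001780002ff16c) b61521 (.hit (nat_lit 6) (nat_lit 15) (nat_lit 0xbc0001780002fe823) b61524 (.tok (nat_lit 56) (nat_lit 0xbc000178000301820) (.hit (nat_lit 4) (nat_lit 13) (nat_lit 0xbc000178000300422) b61522 (.hit (nat_lit 8) (nat_lit 19) (nat_lit 0xbc0001780002ffc4e) b61525 (.one (nat_lit 6) (nat_lit 5) (nat_lit 14) (nat_lit 0xbc000178000301820) b61523 (.nil)))) (.nil)))) (.tok (nat_lit 52) (nat_lit 0xbc000178000301880) (.hit (nat_lit 9) (nat_lit 39) (nat_lit 0xbc000178000301880) b61526 (.hit (nat_lit 10) (nat_lit 40) (nat_lit 0xbc000178000300aef) b61527 (.nil))) (.tok (nat_lit 55) (nat_lit 0xbc000178000303f61) (.hit (nat_lit 11) (nat_lit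 41) (nat_lit 0xbc000178000303f61) b61528 (.one (nat_lit 3) (nat_lit 17) (nat_lit 47) (nat_lit 0xbc00017800030178c) b61534 (.tok (nat_lit 6) (nat_lit 0xbc0001780003019f0) (.hit (nat_lit 12) (nat_lit 42) (nat_lit 0xbc00017800030149f) b61529 (.hit (nat_lit 15) (nat_lit 45) (nat_lit 0xbc000178000300f29) b61532 (.tok (nat_lit 55) (nat_lit 0xbc0001780003019f0) (.hit (nat_lit 13) (nat_lit 43) (nat_lit 0xbc0001780003019f0) b61530 (.hit (nat_lit 16) (nat_lit 46) (nat_lit 0xbc00017800030149c) b61533 (.one (nat_lit 6) (nat_lit 14) (nat_lit 44) (nat_lit 0xbc000178000301885) b61531 (.nil)))) (.nil)))) (.nil)))) (.one (nat_lit 58) (nat_lit 19) (nat_lit 49) (nat_lit 0xbc0001780002ffdd4) b61535 (.nil)))))) (.tok (nat_lit 9) (nat_lit 0xbc000178000303472) (.hit (nat_lit 20) (nat_lit 0) (nat_lit 0xbc0001780003026be) b61536 (.tok (nat_lit 9) (nat_lit 0xbc000178000303472) (.hit (nat_lit 21) (nat_lit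 20) (nat_lit 0xbc000178000303472) b61537 (.hit (nat_lit 24) (nat_lit 28) (nat_lit 0xbc000178000300979) b61538 (.one (nat_lit 56) (nat_lit 26) (nat_lit 31) (nat_lit 0xbc000178000302ddc) b61539 (.nil)))) (.nil))) (.nil))
noncomputable def r89_17 : Rw Blk := .tok (nat_lit 6) (nat_lit 0xbc0001780003010b2) (.hit (nat_lit 21) (nat_lit 0) (nat_lit 0xbc0001780002fedb3) b61558 (.tok (nat_lit 14) (nat_lit 0xbc0001780003010b2) (.hit (nat_lit 22) (nat_lit 61) (nat_lit 0xbc0001780002ffcfd) b61559 (.one (nat_lit 3) (nat_lit 23) (nat_lit 62) (nat_lit 0xbc0001780002ff670) b61560 (.tok (nat_lit 6) (nat_lit 0xbc0001780002ff090) (.hit (nat_lit 26) (nat_lit 65) (nat_lit 0xbc0001780002fdf8b) b61563 (.hit (nat_lit 27) (nat_lit 66) (nat_lit 0xbc0001780002ff090) b61564 (.nil))) (.tok (nat_lit 9) (nat_lit 0xbc0001780003010b2) (.hit (nat_lit 24) (nat_lit 63) (nat_lit 0xbc0001780003010b2) b61561 (.hit (nat_lit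 25) (nat_lit 64) (nat_lit 0xbc0001780002ffa7d) b61562 (.nil))) (.nil))))) (.one (nat_lit 17) (nat_lit 28) (nat_lit 67) (nat_lit 0xbc0001780002ff933) b61565 (.tok (nat_lit 20) (nat_lit 0xbc0001780002ff8c2) (.hit (nat_lit 29) (nat_lit 68) (nat_lit 0xbc0001780002ff8c2) b61566 (.hit (nat_lit 30) (nat_lit 69) (nat_lit 0xbc0001780002fedb9) b61567 (.nil))) (.tok (nat_lit 23) (nat_lit 0xbc0001780002ffda1) (.hit (nat_lit 31) (nat_lit 70) (nat_lit 0xbc0001780002fd158) b61568 (.hit (nat_lit 32) (nat_lit 71) (nat_lit 0xbc0001780002ffda1) b61569 (.nil))) (.one (nat_lit 26) (nat_lit 33) (nat_lit 72) (nat_lit 0xbc0001780002ff3b1) b61570 (.one (nat_lit 29) (nat_lit 34) (nat_lit 73) (nat_lit 0xbc0001780002fe674) b61571 (.one (nat_lit 32) (nat_lit 35) (nat_lit 74) (nat_lit 0xbc0001780002fe295) b61572 (.one (nat_lit 35) (nat_lit 36) (nat_lit 75) (nat_lit 0xbc0001780002ffb92) b61573 (.one (nat_lit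 62) (nat_lit 46) (nat_lit 92) (nat_lit 0xbc0001780002fef44) b61574 (.tok (nat_lit 65) (nat_lit 0xbc0001780002ff487) (.hit (nat_lit 47) (nat_lit 93) (nat_lit 0xbc0001780002fe900) b61575 (.hit (nat_lit 48) (nat_lit 94) (nat_lit 0xbc0001780002ff487) b61576 (.nil))) (.tok (nat_lit 68) (nat_lit 0xbc0001780002ff8ed) (.hit (nat_lit 49) (nat_lit 95) (nat_lit 0xbc0001780002ff8ed) b61577 (.one (nat_lit 3) (nat_lit 53) (nat_lit 99) (nat_lit 0xbc0001780002fd32d) b61581 (.one (nat_lit 6) (nat_lit 50) (nat_lit 96) (nat_lit 0xbc0001780002fd807) b61578 (.tok (nat_lit 9) (nat_lit 0xbc0001780002fe09d) (.hit (nat_lit 51) (nat_lit 97) (nat_lit 0xbc0001780002fe09d) b61579 (.hit (nat_lit 52) (nat_lit 98) (nat_lit 0xbc0001780002fd838) b61580 (.nil))) (.nil))))) (.one (nat_lit 71) (nat_lit 54) (nat_lit 100) (nat_lit 0xbc0001780002feff3) b61582 (.nil)))))))))))))) (.tok (nat_lit 52) (nat_lit 0xbc0001780003019fc)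 (.hit (nat_lit 16) (nat_lit 0) (nat_lit 0xbc0001780003014b5) b61553 (.tok (nat_lit 6) (nat_lit 0xbc0001780003019fc) (.hit (nat_lit 17) (nat_lit 7) (nat_lit 0xbc0001780003019fc) b61554 (.hit (nat_lit 18) (nat_lit 15) (nat_lit 0xbc000178000301150) b61555 (.nil))) (.tok (nat_lit 9) (nat_lit 0xbc000178000301951) (.hit (nat_lit 19) (nat_lit 20) (nat_lit 0xbc0001780002ff599) b61556 (.hit (nat_lit 20) (nat_lit 28) (nat_lit 0xbc000178000301951) b61557 (.nil))) (.nil)))) (.tok (nat_lit 55) (nat_lit 0xbc0001780003014a5) (.hit (nat_lit 8) (nat_lit 0) (nat_lit 0xbc0001780003014a5) b61548 (.tok (nat_lit 3) (nat_lit 0xbc0001780002ffe45) (.hit (nat_lit 9) (nat_lit 1) (nat_lit 0xbc0001780002ffa71) b61549 (.one (nat_lit 67) (nat_lit 10) (nat_lit 2) (nat_lit 0xbc0001780002ffe45) b61550 (.nil))) (.tok (nat_lit 6) (nat_lit 0xbc0001780002ff3ac) (.hit (nat_lit 11) (nat_lit 7) (nat_lit 0xbc0001780002ff3ac)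 b61551 (.hit (nat_lit 14) (nat_lit 15) (nat_lit 0xbc0001780002fe910) b61552 (.nil))) (.nil)))) (.tok (nat_lit 58) (nat_lit 0xbc00017800030160f) (.hit (nat_lit 0) (nat_lit 0) (nat_lit 0xbc0001780002fff95) b61540 (.tok (nat_lit 3) (nat_lit 0xbc000178000300a97) (.hit (nat_lit 1) (nat_lit 1) (nat_lit 0xbc000178000300435) b61541 (.one (nat_lit 55) (nat_lit 2) (nat_lit 3) (nat_lit 0xbc000178000300a97) b61542 (.nil))) (.tok (nat_lit 9) (nat_lit 0xbc00017800030160f) (.hit (nat_lit 3) (nat_lit 20) (nat_lit 0xbc00017800030024d) b61543 (.hit (nat_lit 6) (nat_lit 28) (nat_lit 0xbc0001780002ffd33) b61546 (.tok (nat_lit 67) (nat_lit 0xbc00017800030160f) (.hit (nat_lit 4) (nat_lit 21) (nat_lit 0xbc000178000300c10) b61544 (.hit (nat_lit 7) (nat_lit 29) (nat_lit 0xbc000178000300e50) b61547 (.one (nat_lit 9) (nat_lit 5) (nat_lit 22) (nat_lit 0xbc00017800030160f) b61545 (.nil)))) (.nil)))) (.nil))))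 (.nil))))
noncomputable def r89_18 : Rw Blk := .tok (nat_lit 3) (nat_lit 0xbc0001780003040a8) (.hit (nat_lit 0) (nat_lit 0) (nat_lit 0xbc000178000302bac) b61583 (.tok (nat_lit 9) (nat_lit 0xbc0001780003020bf) (.hit (nat_lit 1) (nat_lit 20) (nat_lit 0xbc000178000300536) b61584 (.hit (nat_lit 4) (nat_lit 28) (nat_lit 0xbc0001780002fe9a3) b61587 (.tok (nat_lit 68) (nat_lit 0xbc0001780003020bf) (.hit (nat_lit 2) (nat_lit 26) (nat_lit 0xbc000178000300404) b61585 (.hit (nat_lit 6) (nat_lit 32) (nat_lit 0xbc0001780002ffea0) b61588 (.one (nat_lit 9) (nat_lit 3) (nat_lit 27) (nat_lit 0xbc0001780003020bf) b61586 (.nil)))) (.nil)))) (.tok (nat_lit 64) (nat_lit 0xbc0001780003015c5) (.hit (nat_lit 7) (nat_lit 50) (nat_lit 0xbc000178000301579) b61589 (.hit (nat_lit 8) (nat_lit 51) (nat_lit 0xbc0001780003015c5) b61590 (.nil))) (.tok (nat_lit 67) (nat_lit 0xbc0001780003040a8) (.hit (nat_lit 9)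 (nat_lit 52) (nat_lit 0xbc0001780003040a8) b61591 (.one (nat_lit 3) (nat_lit 15) (nat_lit 58) (nat_lit 0xbc000178000301c5c) b61597 (.tok (nat_lit 9) (nat_lit 0xbc00017800030267e) (.hit (nat_lit 10) (nat_lit 53) (nat_lit 0xbc00017800030267e) b61592 (.hit (nat_lit 13) (nat_lit 56) (nat_lit 0xbc000178000301a16) b61595 (.tok (nat_lit 67) (nat_lit 0xbc0001780003025d0) (.hit (nat_lit 11) (nat_lit 54) (nat_lit 0xbc0001780003025d0) b61593 (.hit (nat_lit 14) (nat_lit 57) (nat_lit 0xbc000178000301db4) b61596 (.one (nat_lit 9) (nat_lit 12) (nat_lit 55) (nat_lit 0xbc000178000301851) b61594 (.nil)))) (.nil)))) (.nil)))) (.one (nat_lit 70) (nat_lit 16) (nat_lit 60) (nat_lit 0xbc00017800030113f) b61598 (.nil)))))) (.tok (nat_lit 6) (nat_lit 0xbc00017800030395a) (.hit (nat_lit 17) (nat_lit 0) (nat_lit 0xbc00017800030395a) b61599 (.tok (nat_lit 6) (nat_lit 0xbc000178000302d9b) (.hit (nat_lit 18)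 (nat_lit 7) (nat_lit 0xbc000178000302d9b) b61600 (.hit (nat_lit 19) (nat_lit 15) (nat_lit 0xbc000178000300174) b61601 (.one (nat_lit 68) (nat_lit 20) (nat_lit 18) (nat_lit 0xbc000178000302c69) b61602 (.nil)))) (.nil))) (.nil))
noncomputable def r89_19 : Rw Blk := .tok (nat_lit 3) (nat_lit 0xbc0001780002ff58c) (.hit (nat_lit 15) (nat_lit 0) (nat_lit 0xbc0001780002fe627) b26116 (.tok (nat_lit 9) (nat_lit 0xbc0001780002fdd11) (.hit (nat_lit 16) (nat_lit 20) (nat_lit 0xbc0001780002fb840) b26117 (.hit (nat_lit 21) (nat_lit 28) (nat_lit 0xbc0001780002fa2c1) b26122 (.tok (nat_lit 14) (nat_lit 0xbc0001780002fd8ef) (.hit (nat_lit 17) (nat_lit 24) (nat_lit 0xbc0001780002fcb79) b26118 (.hit (nat_lit 22) (nat_lit 30) (nat_lit 0xbc0001780002fd8ef) b26123 (.one (nat_lit 6) (nat_lit 18) (nat_lit 25) (nat_lit 0xbc0001780002fd50a) b26119 (.nil)))) (.tok (nat_lit 68) (nat_lit 0xbc0001780002fdd11)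 (.hit (nat_lit 19) (nat_lit 26) (nat_lit 0xbc0001780002fcbda) b26120 (.hit (nat_lit 24) (nat_lit 32) (nat_lit 0xbc0001780002fd562) b26124 (.one (nat_lit 9) (nat_lit 20) (nat_lit 27) (nat_lit 0xbc0001780002fdd11) b26121 (.nil)))) (.nil))))) (.tok (nat_lit 64) (nat_lit 0xbc0001780002fe305) (.hit (nat_lit 25) (nat_lit 50) (nat_lit 0xbc0001780002fdbef) b26125 (.hit (nat_lit 26) (nat_lit 51) (nat_lit 0xbc0001780002fe305) b26126 (.nil))) (.tok (nat_lit 67) (nat_lit 0xbc0001780002ff58c) (.hit (nat_lit 27) (nat_lit 52) (nat_lit 0xbc0001780002fee42) b26127 (.tok (nat_lit 3) (nat_lit 0xbc0001780002fea14) (.hit (nat_lit 33) (nat_lit 58) (nat_lit 0xbc0001780002fea14) b26133 (.one (nat_lit 55) (nat_lit 34) (nat_lit 59) (nat_lit 0xbc0001780002fdfd6) b26134 (.nil))) (.tok (nat_lit 9) (nat_lit 0xbc0001780002ff58c) (.hit (nat_lit 28) (nat_lit 53) (nat_lit 0xbc0001780002feb05) b26128 (.hit (nat_lit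 31) (nat_lit 56) (nat_lit 0xbc0001780002fe741) b26131 (.tok (nat_lit 67) (nat_lit 0xbc0001780002ff58c) (.hit (nat_lit 29) (nat_lit 54) (nat_lit 0xbc0001780002ff58c) b26129 (.hit (nat_lit 32) (nat_lit 57) (nat_lit 0xbc0001780002fe7b6) b26132 (.one (nat_lit 9) (nat_lit 30) (nat_lit 55) (nat_lit 0xbc0001780002ff439) b26130 (.nil)))) (.nil)))) (.nil)))) (.one (nat_lit 70) (nat_lit 35) (nat_lit 60) (nat_lit 0xbc0001780002fe987) b26135 (.nil)))))) (.tok (nat_lit 6) (nat_lit 0xbc000178000300000) (.hit (nat_lit 0) (nat_lit 0) (nat_lit 0xbc0001780002fec30) b26109 (.tok (nat_lit 6) (nat_lit 0xbc000178000300000) (.hit (nat_lit 1) (nat_lit 7) (nat_lit 0xbc0001780002fe00c) b26110 (.hit (nat_lit 4) (nat_lit 15) (nat_lit 0xbc0001780002fe0d2) b26113 (.tok (nat_lit 14) (nat_lit 0xbc000178000300000) (.hit (nat_lit 2) (nat_lit 11) (nat_lit 0xbc000178000300000) b26111 (.hit (nat_lit 5) (nat_lit 17)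 (nat_lit 0xbc0001780002fe5e6) b26114 (.one (nat_lit 9) (nat_lit 3) (nat_lit 12) (nat_lit 0xbc0001780002fff93) b26112 (.nil)))) (.one (nat_lit 68) (nat_lit 6) (nat_lit 18) (nat_lit 0xbc0001780002fe3bc) b26115 (.nil))))) (.nil))) (.nil))
noncomputable def r89_20 : Rw Blk := .tok (nat_lit 6) (nat_lit 0xc0000180000300000600000c0000180000300000600b22c0000180000300000) (.hit (nat_lit 81) (nat_lit 0) (nat_lit 0xbf76b17f7552fec795fe050bf714d7f627afdcdb5fc7bcbf6ae57f456afde4a) b61603 (.tok (nat_lit 14) (nat_lit 0xc000017ff62b00000600000c00001800002fefc4600b22c00001800002ff612) (.hit (nat_lit 117) (nat_lit 61) (nat_lit 0xbfcaa97fecab000005ff02abff4257f9c72fe8175fe522bfa34d7fae22fea30) b61604 (.one (nat_lit 3) (nat_lit 118) (nat_lit 62) (nat_lit 0xbf94117f7d5affb095fc71abfaefd7eff4afd7a7600b22c000017f6ccafefe6) b61605 (.tok (nat_lit 6) (nat_lit 0xbf9f8d7f7412ff6465fd96abfc7017f4172fdd4a60008cbfe52d7fb312fea95)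 (.hit (nat_lit 121) (nat_lit 65) (nat_lit 0xbf3de57eb2aafee105fd96abf5e597f4172fd5045fc4b0bf49617ee322fd976) b61608 (.hit (nat_lit 122) (nat_lit 66) (nat_lit 0xbf9f8d7f7412ff6465fd25cbfc7017f2c5afdd4a60008cbfe52d7fb312fea95) b61609 (.nil))) (.tok (nat_lit 9) (nat_lit 0xc000017ff62afff15600000c00001800002fefc45ff65ebfce31800002ff612) (.hit (nat_lit 119) (nat_lit 63) (nat_lit 0xc000017ff62aff8d5600000c00001800002fefc45ff65ebfce317fb6aafefb4) b61606 (.hit (nat_lit 120) (nat_lit 64) (nat_lit 0xbf88b97f3bdafff155fc720bf7db57efd02fd7ae5fc6c0bf54b5800002ff612) b61607 (.nil))) (.nil))))) (.one (nat_lit 17) (nat_lit 123) (nat_lit 67) (nat_lit 0xbf5e797f3bf2fedbe5fadbebf640d7e8ee2fd16b5ff210bf9e297f1212fe2d5) b61610 (.tok (nat_lit 20) (nat_lit 0xbfa7117fd54aff7cb5fed12bfe8fd7f80b3000005fec40bfad617f8e9300000) (.hit (nat_lit 124) (nat_lit 68) (nat_lit 0xbfa7117fd54aff7cb5fed12bfe8fd7f80b3000005fec40bfad617f8e9300000)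 b61611 (.hit (nat_lit 125) (nat_lit 69) (nat_lit 0xbf5b217ec58aff4365fac12bf60c17e882afd0935fb2eebf4e117f3bb2fdcfe) b61612 (.nil))) (.tok (nat_lit 23) (nat_lit 0xbf57d57ed0aafe9eb5fd3c0bf5d757f2acafd22f5fd066bf5f157ed5aafd560) (.hit (nat_lit 126) (nat_lit 70) (nat_lit 0xbf32917e9c02fe9eb5fd3c0bf53057f2acafd22f5fbf06bf3e0d7eb02afd560) b61613 (.hit (nat_lit 127) (nat_lit 71) (nat_lit 0xbf57d57ed0aafde9f5faa6cbf5d757e819afcfc25fd066bf5f157ed5aafd4a0) b61614 (.nil))) (.one (nat_lit 38) (nat_lit 132) (nat_lit 76) (nat_lit 0xbf4a917ecc9afe9315fae6cbf50117e957afcc625fbb22bf52d97eccc2fcf7a) b61615 (.tok (nat_lit 41) (nat_lit 0xbf5e657f3b9afee145fadb4bf64057e8ebafd1655fddfabf82dd7f1d12fe14f) (.hit (nat_lit 133) (nat_lit 77) (nat_lit 0xbf36997eeb5afe7395f980ebf53b17e41eafc2c75fc56abf702d7f1d12fd41d) b61616 (.hit (nat_lit 134) (nat_lit 78) (nat_lit 0xbf5e657f3b9afee145fadb4bf64057e8ebafd1655fddfabf82dd7ef502fe14f)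 b61617 (.nil))) (.tok (nat_lit 44) (nat_lit 0xbf704d7f8ecaff6615fc89cbf70097f0ed2fd4b55fc912bf55417ec062fd826) (.hit (nat_lit 135) (nat_lit 79) (nat_lit 0xbf704d7f8ecaff6615fc89cbf70097f0ed2fd4b55fc912bf55417ebb7afd826) b61618 (.hit (nat_lit 136) (nat_lit 80) (nat_lit 0xbf4d317eaa62fe5fa5fa51abf52d57e6c4afcd175facb6bf41997ec062fd0e8) b61619 (.nil))) (.tok (nat_lit 47) (nat_lit 0xbf5ce17ef532fe3795facf2bf62817e8cfafd1065fd89abf680d7edfc2fdc29) (.hit (nat_lit 137) (nat_lit 81) (nat_lit 0xbee3a97dfe32fdaaa5fac4cbf041d7e8cfafbe755f9792beef257e125afd6ba) b61620 (.hit (nat_lit 138) (nat_lit 82) (nat_lit 0xbf5ce17ef532fe3795facf2bf62817e8bb2fd1065fd89abf680d7edfc2fdc29) b61621 (.nil))) (.one (nat_lit 50) (nat_lit 139) (nat_lit 83) (nat_lit 0xbf6f2d7f0d72fecfa5fb61cbf74817eb032fd5935fd322bf77f17f139afdbaf) b61622 (.tok (nat_lit 53) (nat_lit 0xbf730d7fc11aff9ec5fca4cbfa0697f0dc2fdc5f5ffc96bfe4717fda6affa11)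 (.hit (nat_lit 140) (nat_lit 84) (nat_lit 0xbf730d7fc11aff9ec5fca4cbfa0697f0dc2fdc5f5ffc96bfe4717fda6affa11) b61623 (.hit (nat_lit 141) (nat_lit 85) (nat_lit 0xbf62097f11aafeda55faf94bf673d7e9602fd24d5fd5b0bf8dc97ef0fafe3ee) b61624 (.nil))) (.tok (nat_lit 56) (nat_lit 0xbfce69800002ffd5e5ff8dabfd90d7fc112fef085fe7d6bfb3397fe14aff359) (.hit (nat_lit 142) (nat_lit 86) (nat_lit 0xbfce0d800002ff9165ff6d8bfcb917fc10afef085fe608bfaba57f9f4afe65e) b61625 (.one (nat_lit 3) (nat_lit 146) (nat_lit 90) (nat_lit 0xbf9f7d7f752aff1905fd8f8bf8e417f5972fd9c15fd3aabf6e8d7f197afdf56) b61629 (.tok (nat_lit 6) (nat_lit 0xbfce697f9552ffd5e5fe04ebfd90d7fb232fe6e75fe474bfa7517fe14aff359) (.hit (nat_lit 144) (nat_lit 88) (nat_lit 0xbfce697f9552ffd5e5fe04ebfd90d7fb232fe6e75fe474bfa7517fe14aff359) b61627 (.hit (nat_lit 145) (nat_lit 89) (nat_lit 0xbf667d7f8c72ff86a5fbdc0bf51357ed2cafcc435fd438bf90197ec3dafe872)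 b61628 (.nil))) (.one (nat_lit 9) (nat_lit 143) (nat_lit 87) (nat_lit 0xbfc3117ff502ff8895ff8dabfb26d7fc112fe7d85fe7d6bfb3397fa4d2feb86) b61626 (.nil))))) (.one (nat_lit 59) (nat_lit 147) (nat_lit 91) (nat_lit 0xbf52ed7ebc3afe6db5fa7f8bf58457e77cafce865fd738bf7f817ecbdafdc4f) b61630 (.one (nat_lit 62) (nat_lit 148) (nat_lit 92) (nat_lit 0xbf460d7ea6a2fe53b5fa602bf4bb57e73d2fcb4e5fbaeebf50397ed482fcfe6) b61631 (.tok (nat_lit 65) (nat_lit 0xbf6be17f6952fec155fb30cbf7b117eadcafd0465ffd90bfc3b57f17f2fe3ee) (.hit (nat_lit 149) (nat_lit 93) (nat_lit 0xbf6be17f6952fec155fb30cbf7b117eadcafd0465ffd90bfc3b57f17f2fe3ee) b61632 (.hit (nat_lit 150) (nat_lit 94) (nat_lit 0xbf536d7ef88afe5c55fa838bf59057e78cafceeb5fe7f2bf89b97eccdafe340) b61633 (.nil))) (.tok (nat_lit 68) (nat_lit 0xbf7f757f702affa895fdceabf94297f5952fddd25fc7e8bf6c997f6eb2fe2b2) (.hit (nat_lit 151) (nat_lit 95) (nat_lit 0xbf7f757f702affa895fdceabf94297f5952fddd25fc7e8bf6c997f6eb2fe2b2)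 b61634 (.one (nat_lit 3) (nat_lit 155) (nat_lit 99) (nat_lit 0xbf07217e4522fee5f5fbe08bf27957ed3eafc7535fa94ebf129d7e594afd96a) b61638 (.one (nat_lit 6) (nat_lit 152) (nat_lit 96) (nat_lit 0xbf33dd7e9e9aff2d35fd466bf54517f2d62fd2825fbfacbf3f597eb2c2fdc21) b61635 (.tok (nat_lit 9) (nat_lit 0xbf388d7ea7faffa1c5fd6bebf59017f36c2fd3ae5fc204bf44097ebc22fe1ed) (.hit (nat_lit 153) (nat_lit 97) (nat_lit 0xbf16357e634aff91a5fc592bf36a97ef212fcb185fb0d8bf21b17eaeb2fda5a) b61636 (.hit (nat_lit 154) (nat_lit 98) (nat_lit 0xbf388d7ea7faffa1c5fd6bebf59017f36c2fd3ae5fc204bf44097ebc22fe1ed) b61637 (.nil))) (.nil))))) (.one (nat_lit 71) (nat_lit 156) (nat_lit 100) (nat_lit 0xbf2cd97e8a52fdaeb5f94eebf32757e2ba2fc5025fcc4abf56897e7fb2fd2e4) b61639 (.nil)))))))))))))))))) (.nil)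
noncomputable def r89_21 : Rw Blk := .tok (nat_lit 14) (nat_lit 0x2f00005e0000bf1cf57eb9eafd49f) (.hit (nat_lit 134) (nat_lit 0) (nat_lit 0x2f00005e0000bf1cf57eb9eafd49f) b61651 (.one (nat_lit 3) (nat_lit 135) (nat_lit 1) (nat_lit 0x2f00005e0000be74c97d8cf2faf00) b61652 (.tok (nat_lit 6) (nat_lit 0x2f00005e0000bf04d57ead0afd303) (.hit (nat_lit 136) (nat_lit 7) (nat_lit 0x2f00005e0000beeec97e80f2fcd80) b61653 (.hit (nat_lit 137) (nat_lit 15) (nat_lit 0x2f00005e0000bf04d57ead0afd303) b61654 (.nil))) (.tok (nat_lit 9) (nat_lit 0x2f00005e0000bef5457e8deafcf1f) (.hit (nat_lit 138) (nat_lit 20) (nat_lit 0x2f00005e0000beeec97e80f2fcd80) b61653 (.hit (nat_lit 139) (nat_lit 28) (nat_lit 0x2f00005e0000bef5457e8deafcf1f) b61655 (.nil))) (.nil))))) (.tok (nat_lit 17) (nat_lit 0x2f00005e0000bf1e417ee0f2fd120) (.hit (nat_lit 140) (nat_lit 0) (nat_lit 0x2f00005e0000bf1e417ee0f2fd120) b61656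 (.one (nat_lit 3) (nat_lit 141) (nat_lit 1) (nat_lit 0x2f00005e0000be60957d648afa9f3) b61657 (.tok (nat_lit 6) (nat_lit 0x2f00005e0000bef9197e9592fd014) (.hit (nat_lit 142) (nat_lit 7) (nat_lit 0x2f00005e0000bed9157e558afc813) b61658 (.hit (nat_lit 143) (nat_lit 15) (nat_lit 0x2f00005e0000bef9197e9592fd014) b61659 (.nil))) (.tok (nat_lit 9) (nat_lit 0x2f00005e0000beed197e7d92fcd14) (.hit (nat_lit 144) (nat_lit 20) (nat_lit 0x2f00005e0000becd3d7e3ddafc51d) b61660 (.hit (nat_lit 145) (nat_lit 28) (nat_lit 0x2f00005e0000beed197e7d92fcd14) b61661 (.nil))) (.nil))))) (.tok (nat_lit 20) (nat_lit 0x2f00005e0000bf8cf97f8bfafdad7) (.hit (nat_lit 128) (nat_lit 0) (nat_lit 0x2f00005e0000bf8cf97f8bfafdad7) b61646 (.one (nat_lit 3) (nat_lit 129) (nat_lit 1) (nat_lit 0x2f00005e0000bf56d97f12d2fcfde) b61647 (.tok (nat_lit 6) (nat_lit 0x2f00005e0000bf4dd97f2ce2fdab9) (.hit (nat_lit 130) (nat_lit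 7) (nat_lit 0x2f00005e0000bee0797e6452fc9ec) b61642 (.hit (nat_lit 131) (nat_lit 15) (nat_lit 0x2f00005e0000bf4dd97f2ce2fdab9) b61648 (.nil))) (.tok (nat_lit 9) (nat_lit 0x2f00005e0000bf5c417f56dafda5a) (.hit (nat_lit 132) (nat_lit 20) (nat_lit 0x2f00005e0000bf5c417f56dafd9b2) b61649 (.hit (nat_lit 133) (nat_lit 28) (nat_lit 0x2f00005e0000bf45857f3912fda5a) b61650 (.nil))) (.nil))))) (.tok (nat_lit 23) (nat_lit 0x2f00005e0000bf20097ea5a2fd216) (.hit (nat_lit 122) (nat_lit 0) (nat_lit 0x2f00005e0000bf20097ea33afcf1a) b61640 (.one (nat_lit 3) (nat_lit 123) (nat_lit 1) (nat_lit 0x2f00005e0000be82ad7da8bafb279) b61641 (.tok (nat_lit 6) (nat_lit 0x2f00005e0000bf01217ea5a2fd216) (.hit (nat_lit 124) (nat_lit 7) (nat_lit 0x2f00005e0000bee0797e6452fc9ec) b61642 (.hit (nat_lit 125) (nat_lit 15) (nat_lit 0x2f00005e0000bf01217ea5a2fd216) b61643 (.nil))) (.tok (nat_lit 9) (nat_lit 0x2f00005e0000bef8c17e94e2fcffe)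 (.hit (nat_lit 126) (nat_lit 20) (nat_lit 0x2f00005e0000bedd457e5deafc91f) b61644 (.hit (nat_lit 127) (nat_lit 28) (nat_lit 0x2f00005e0000bef8c17e94e2fcffe) b61645 (.nil))) (.nil))))) (.tok (nat_lit 38) (nat_lit 0x2f00005e0000bf6ec17f7ad2fde36) (.hit (nat_lit 239) (nat_lit 0) (nat_lit 0x2f00005e0000bf6ec17f7ad2fde36) b61706 (.one (nat_lit 3) (nat_lit 240) (nat_lit 1) (nat_lit 0x2f00005e0000be94b57dcccafb6fb) b61707 (.tok (nat_lit 6) (nat_lit 0x2f00005e0000bea3097de972fba90) (.hit (nat_lit 241) (nat_lit 7) (nat_lit 0x2f00005e0000bea3097de972fba90) b61708 (.hit (nat_lit 242) (nat_lit 15) (nat_lit 0x2f00005e0000be8a5d7db81afb465) b61709 (.nil))) (.tok (nat_lit 9) (nat_lit 0x2f00005e0000bee93d7e75dafcc1d) (.hit (nat_lit 243) (nat_lit 20) (nat_lit 0x2f00005e0000bee93d7e75dafcc1d) b61710 (.hit (nat_lit 244) (nat_lit 28) (nat_lit 0x2f00005e0000bea49d7dec9afbaf5) b61711 (.nil))) (.nil)))))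 (.tok (nat_lit 41) (nat_lit 0x2f00005e0000c0000180c0db00000) (.hit (nat_lit 250) (nat_lit 0) (nat_lit 0x2f00005e0000bf90b17f882afd96a) b61712 (.one (nat_lit 3) (nat_lit 251) (nat_lit 1) (nat_lit 0x2f00005e0000bf6c657f4d42fcecf) b61713 (.tok (nat_lit 6) (nat_lit 0x2f00005e0000c0000180c0db00000) (.hit (nat_lit 252) (nat_lit 7) (nat_lit 0x2f00005e0000c0000180c0db00000) b61714 (.hit (nat_lit 253) (nat_lit 15) (nat_lit 0x2f00005e0000bf6c797f5762fde5e) b61715 (.nil))) (.tok (nat_lit 9) (nat_lit 0x2f00005e0000bf9f197fa4d2fdd1f) (.hit (nat_lit 254) (nat_lit 20) (nat_lit 0x2f00005e0000bf9f197fa4d2fdd1f) b61716 (.hit (nat_lit 255) (nat_lit 28) (nat_lit 0x2f00005e0000bf63c97f4972fd87f) b61717 (.nil))) (.nil))))) (.tok (nat_lit 44) (nat_lit 0x2f00005e0000bff831801192ff0ff) (.hit (nat_lit 278) (nat_lit 0) (nat_lit 0x2f00005e0000bf87697f6572fd65d) b61724 (.one (nat_lit 3) (nat_lit 279) (nat_lit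 1) (nat_lit 0x2f00005e0000bf232d7e95fafbb46) b61725 (.tok (nat_lit 6) (nat_lit 0x2f00005e0000bf98d17f871afd864) (.hit (nat_lit 280) (nat_lit 7) (nat_lit 0x2f00005e0000bf98d17f871afd864) b61726 (.hit (nat_lit 281) (nat_lit 15) (nat_lit 0x2f00005e0000bf4a297f03bafc716) b61727 (.nil))) (.tok (nat_lit 9) (nat_lit 0x2f00005e0000bff831801192ff0ff) (.hit (nat_lit 282) (nat_lit 20) (nat_lit 0x2f00005e0000bff831801192ff0ff) b61728 (.hit (nat_lit 283) (nat_lit 28) (nat_lit 0x2f00005e0000bf50f17f1752fd6f8) b61729 (.nil))) (.nil))))) (.tok (nat_lit 47) (nat_lit 0x2f00005e0000bf9a457fc172fe1b8) (.hit (nat_lit 264) (nat_lit 0) (nat_lit 0x2f00005e0000bf9a457fc172fe1b8) b61718 (.one (nat_lit 3) (nat_lit 265) (nat_lit 1) (nat_lit 0x2f00005e0000bead817dfe62fbd2e) b61719 (.tok (nat_lit 6) (nat_lit 0x2f00005e0000bf07397eb1d2fd39c) (.hit (nat_lit 266) (nat_lit 7) (nat_lit 0x2f00005e0000beffa97ea2b2fd1b8)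 b61720 (.hit (nat_lit 267) (nat_lit 15) (nat_lit 0x2f00005e0000bf07397eb1d2fd39c) b61721 (.nil))) (.tok (nat_lit 9) (nat_lit 0x2f00005e0000bebd3d7e1ddafc11d) (.hit (nat_lit 268) (nat_lit 20) (nat_lit 0x2f00005e0000bebd3d7e1ddafc11d) b61722 (.hit (nat_lit 269) (nat_lit 28) (nat_lit 0x2f00005e0000be9e817de062fb96e) b61723 (.nil))) (.nil))))) (.tok (nat_lit 50) (nat_lit 0x2f00005e0000bf1ed57f05a2fda56) (.hit (nat_lit 170) (nat_lit 0) (nat_lit 0x2f00005e0000bf1ed57f05a2fda56) b61685 (.one (nat_lit 3) (nat_lit 171) (nat_lit 1) (nat_lit 0x2f00005e0000be83b97daad2fb2bc) b61686 (.tok (nat_lit 6) (nat_lit 0x2f00005e0000bef0617e8422fcde6) (.hit (nat_lit 172) (nat_lit 7) (nat_lit 0x2f00005e0000bef0617e8422fcde6) b61687 (.hit (nat_lit 173) (nat_lit 15) (nat_lit 0x2f00005e0000bea4e97ded32fbb08) b61688 (.nil))) (.tok (nat_lit 9) (nat_lit 0x2f00005e0000bea39d7dea9afbab5) (.hit (nat_lit 174)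 (nat_lit 20) (nat_lit 0x2f00005e0000bea39d7dea9afbab5) b61689 (.hit (nat_lit 175) (nat_lit 28) (nat_lit 0x2f00005e0000be976d7dd23afb7a9) b61690 (.nil))) (.nil))))) (.tok (nat_lit 53) (nat_lit 0x2f00005e0000bf63917faafafef02) (.hit (nat_lit 181) (nat_lit 0) (nat_lit 0x2f00005e0000bf61d17faafafef02) b61691 (.one (nat_lit 3) (nat_lit 182) (nat_lit 1) (nat_lit 0x2f00005e0000bf46d17f5452fe43b) b61692 (.tok (nat_lit 6) (nat_lit 0x2f00005e0000bf63917f7542febc7) (.hit (nat_lit 183) (nat_lit 7) (nat_lit 0x2f00005e0000bf63917f7542febc7) b61693 (.hit (nat_lit 184) (nat_lit 15) (nat_lit 0x2f00005e0000bf40317f6592fe66d) b61694 (.nil))) (.tok (nat_lit 9) (nat_lit 0x2f00005e0000bf49e57f5b3afe514) (.hit (nat_lit 185) (nat_lit 20) (nat_lit 0x2f00005e0000bebe497e1ff2fc160) b61695 (.hit (nat_lit 186) (nat_lit 28) (nat_lit 0x2f00005e0000bf49e57f5b3afe514) b61696 (.nil))) (.nil))))) (.tok (nat_lit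 56) (nat_lit 0x2f00005e0000bf20657edf02fd9bf) (.hit (nat_lit 195) (nat_lit 0) (nat_lit 0x2f00005e0000bf20657edf02fd9bf) b61697 (.one (nat_lit 3) (nat_lit 196) (nat_lit 1) (nat_lit 0x2f00005e0000be82ad7da8bafb279) b61641 (.tok (nat_lit 6) (nat_lit 0x2f00005e0000beeec97e80f2fcd80) (.hit (nat_lit 197) (nat_lit 7) (nat_lit 0x2f00005e0000beeec97e80f2fcd80) b61653 (.hit (nat_lit 198) (nat_lit 15) (nat_lit 0x2f00005e0000be88657db42afb3e7) b61678 (.nil))) (.tok (nat_lit 9) (nat_lit 0x2f00005e0000befff57ea34afd1cb) (.hit (nat_lit 199) (nat_lit 20) (nat_lit 0x2f00005e0000bec8057e336afc3cf) b61698 (.hit (nat_lit 200) (nat_lit 28) (nat_lit 0x2f00005e0000befff57ea34afd1cb) b61699 (.nil))) (.nil))))) (.tok (nat_lit 59) (nat_lit 0x2f00005e0000bf3a017f8b5afead6) (.hit (nat_lit 209) (nat_lit 0) (nat_lit 0x2f00005e0000bf3a017f8b5afead6) b61700 (.one (nat_lit 3) (nat_lit 210) (nat_lit 1) (nat_lit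 0x2f00005e0000bec9617e3622fc426) b61701 (.tok (nat_lit 6) (nat_lit 0x2f00005e0000befd517e9e02fd122) (.hit (nat_lit 211) (nat_lit 7) (nat_lit 0x2f00005e0000befd517e9e02fd122) b61702 (.hit (nat_lit 212) (nat_lit 15) (nat_lit 0x2f00005e0000befc657e9c2afd0e7) b61703 (.nil))) (.tok (nat_lit 9) (nat_lit 0x2f00005e0000bf157d7ece5afd72d) (.hit (nat_lit 213) (nat_lit 20) (nat_lit 0x2f00005e0000beef257e81aafcd97) b61704 (.hit (nat_lit 214) (nat_lit 28) (nat_lit 0x2f00005e0000bf157d7ece5afd72d) b61705 (.nil))) (.nil))))) (.tok (nat_lit 62) (nat_lit 0x2f00005e0000bf23917ee372fd5c9) (.hit (nat_lit 146) (nat_lit 0) (nat_lit 0x2f00005e0000bf23917ee372fc8fb) b61662 (.one (nat_lit 3) (nat_lit 147) (nat_lit 1) (nat_lit 0x2f00005e0000be45fd7d2f5afa34d) b61663 (.tok (nat_lit 6) (nat_lit 0x2f00005e0000bed5a57e4eaafc737) (.hit (nat_lit 148) (nat_lit 7) (nat_lit 0x2f00005e0000bed5a57e4eaafc737) b61664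 (.hit (nat_lit 149) (nat_lit 15) (nat_lit 0x2f00005e0000bea2cd7de8fafba81) b61665 (.nil))) (.tok (nat_lit 9) (nat_lit 0x2f00005e0000bf0fed7ec33afd5c9) (.hit (nat_lit 150) (nat_lit 20) (nat_lit 0x2f00005e0000bf0fed7ec33afd5c9) b61666 (.hit (nat_lit 151) (nat_lit 28) (nat_lit 0x2f00005e0000be60197d6392fa9d4) b61667 (.nil))) (.nil))))) (.tok (nat_lit 65) (nat_lit 0x2f00005e0000bfbdf98052e2fefb1) (.hit (nat_lit 152) (nat_lit 0) (nat_lit 0x2f00005e0000bf89397f961afd770) b61668 (.one (nat_lit 3) (nat_lit 153) (nat_lit 1) (nat_lit 0x2f00005e0000bfa4a17f713afda13) b61669 (.tok (nat_lit 6) (nat_lit 0x2f00005e0000bfbdf97fd7aafe44d) (.hit (nat_lit 154) (nat_lit 7) (nat_lit 0x2f00005e0000bf014d7ea5fafd221) b61670 (.hit (nat_lit 155) (nat_lit 15) (nat_lit 0x2f00005e0000bfbdf97fd7aafe44d) b61671 (.nil))) (.tok (nat_lit 9) (nat_lit 0x2f00005e0000bfb07d8052e2fefb1) (.hit (nat_lit 156) (nat_lit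 20) (nat_lit 0x2f00005e0000bfb07d8052e2fefb1) b61672 (.hit (nat_lit 157) (nat_lit 28) (nat_lit 0x2f00005e0000bf89dd7fac1afdd02) b61673 (.nil))) (.nil))))) (.tok (nat_lit 68) (nat_lit 0x2f00005e0000bf3a797edbcafd1f0) (.hit (nat_lit 158) (nat_lit 0) (nat_lit 0x2f00005e0000bf3a797edbcafd1f0) b61674 (.one (nat_lit 3) (nat_lit 159) (nat_lit 1) (nat_lit 0x2f00005e0000be82ad7da8bafb279) b61641 (.tok (nat_lit 6) (nat_lit 0x2f00005e0000bee48d7e6c7afcaf1) (.hit (nat_lit 160) (nat_lit 7) (nat_lit 0x2f00005e0000bed7697e5232fc7a8) b61675 (.hit (nat_lit 161) (nat_lit 15) (nat_lit 0x2f00005e0000bee48d7e6c7afcaf1) b61676 (.nil))) (.tok (nat_lit 9) (nat_lit 0x2f00005e0000bec6f97e3152fc38c) (.hit (nat_lit 162) (nat_lit 20) (nat_lit 0x2f00005e0000bec6f97e3152fc38c) b61677 (.hit (nat_lit 163) (nat_lit 28) (nat_lit 0x2f00005e0000be88657db42afb3e7) b61678 (.nil))) (.nil))))) (.tok (nat_lit 71) (nat_lit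 0x2f00005e0000bf64457f8f02fd565) (.hit (nat_lit 164) (nat_lit 0) (nat_lit 0x2f00005e0000bf64457f8f02fd565) b61679 (.one (nat_lit 3) (nat_lit 165) (nat_lit 1) (nat_lit 0x2f00005e0000be57297d51b2fa798) b61680 (.tok (nat_lit 6) (nat_lit 0x2f00005e0000bede697e6032fc968) (.hit (nat_lit 166) (nat_lit 7) (nat_lit 0x2f00005e0000bede697e6032fc968) b61681 (.hit (nat_lit 167) (nat_lit 15) (nat_lit 0x2f00005e0000bea7c17df2e2fbbbe) b61682 (.nil))) (.tok (nat_lit 9) (nat_lit 0x2f00005e0000bed9cd7e56fafc841) (.hit (nat_lit 168) (nat_lit 20) (nat_lit 0x2f00005e0000becf757e424afc5ab) b61683 (.hit (nat_lit 169) (nat_lit 28) (nat_lit 0x2f00005e0000bed9cd7e56fafc841) b61684 (.nil))) (.nil))))) (.nil))))))))))))))))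
noncomputable def r89_22 : Rw Blk := .tok (nat_lit 3) (nat_lit 0x2f00005e0000bf8f497f1692fe004) (.hit (nat_lit 18) (nat_lit 0) (nat_lit 0x2f00005e0000bf8e7d7f1692fe004) b61746 (.tok (nat_lit 6) (nat_lit 0x2f00005e0000bf684d7eea82fd27d) (.hit (nat_lit 19) (nat_lit 7) (nat_lit 0x2f00005e0000befea97e5522fcf63) b61747 (.hit (nat_lit 20) (nat_lit 15) (nat_lit 0x2f00005e0000bf684d7eea82fd27d) b61748 (.nil))) (.tok (nat_lit 9) (nat_lit 0x2f00005e0000bf8f497f167afded5) (.hit (nat_lit 21) (nat_lit 20) (nat_lit 0x2f00005e0000bf8f497f167afded5) b61749 (.hit (nat_lit 22) (nat_lit 28) (nat_lit 0x2f00005e0000bf4eb97ed1c2fcf79) b61750 (.nil))) (.nil)))) (.tok (nat_lit 6) (nat_lit 0x2f00005e0000bfb2157fc082ffccf) (.hit (nat_lit 0) (nat_lit 0) (nat_lit 0x2f00005e0000bf78457f23cafe155) b61730 (.tok (nat_lit 3) (nat_lit 0x2f00005e0000bf62897f216afe8ec) (.hit (nat_lit 1) (nat_lit 1) (nat_lit 0x2f00005e0000bf0e557e61bafd0f6)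 b61731 (.one (nat_lit 67) (nat_lit 2) (nat_lit 2) (nat_lit 0x2f00005e0000bf62897f216afe8ec) b61732 (.nil))) (.tok (nat_lit 6) (nat_lit 0x2f00005e0000bfb2157fc082ffccf) (.hit (nat_lit 3) (nat_lit 7) (nat_lit 0x2f00005e0000bf0db97e77cafd3b8) b61733 (.hit (nat_lit 7) (nat_lit 15) (nat_lit 0x2f00005e0000bf13057e366afcb8c) b61736 (.tok (nat_lit 55) (nat_lit 0x2f00005e0000bfb2157fc082ffccf) (.hit (nat_lit 4) (nat_lit 8) (nat_lit 0x2f00005e0000bf79e97f502afeec4) b61734 (.hit (nat_lit 8) (nat_lit 16) (nat_lit 0x2f00005e0000bfb2157fc082ffccf) b61737 (.one (nat_lit 6) (nat_lit 5) (nat_lit 9) (nat_lit 0x2f00005e0000bf8c2d7f74b2ff355) b61735 (.nil)))) (.nil)))) (.nil)))) (.tok (nat_lit 9) (nat_lit 0x2f00005e0000c09c8581bae302ecb) (.hit (nat_lit 9) (nat_lit 0) (nat_lit 0x2f00005e0000bf88fd7fb84afeb02) b61738 (.tok (nat_lit 3) (nat_lit 0x2f00005e0000c0543580e57b019ea) (.hit (nat_lit 10) (nat_lit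 1) (nat_lit 0x2f00005e0000bf798d7f5602fe4a0) b61739 (.one (nat_lit 55) (nat_lit 11) (nat_lit 3) (nat_lit 0x2f00005e0000c0543580e57b019ea) b61740 (.nil))) (.tok (nat_lit 9) (nat_lit 0x2f00005e0000c09c8581bae302ecb) (.hit (nat_lit 12) (nat_lit 20) (nat_lit 0x2f00005e0000c0082980c59b00d34) b61741 (.hit (nat_lit 16) (nat_lit 28) (nat_lit 0x2f00005e0000bfb0657fec3afec86) b61744 (.tok (nat_lit 67) (nat_lit 0x2f00005e0000c09c8581bae302ecb) (.hit (nat_lit 13) (nat_lit 21) (nat_lit 0x2f00005e0000c05871816eeb02333) b61742 (.hit (nat_lit 17) (nat_lit 29) (nat_lit 0x2f00005e0000c09c8581bae302ecb) b61745 (.one (nat_lit 9) (nat_lit 14) (nat_lit 22) (nat_lit 0x2f00005e0000c02fd180de6b00e30) b61743 (.nil)))) (.nil)))) (.nil)))) (.nil)))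
noncomputable def r89_23 : Rw Blk := .tok (nat_lit 3) (nat_lit 0x2f00005e0000c01dbd80508b00667) (.hit (nat_lit 0) (nat_lit 0) (nat_lit 0x2f00005e0000bf7a257f4282fdc26) b61751 (.tok (nat_lit 6) (nat_lit 0x2f00005e0000bf69697f3032fe4fe) (.hit (nat_lit 1) (nat_lit 7) (nat_lit 0x2f00005e0000bf09dd7e711afcd1b) b61752 (.hit (nat_lit 4) (nat_lit 15) (nat_lit 0x2f00005e0000bf01117e5f82fcae8) b61755 (.tok (nat_lit 56) (nat_lit 0x2f00005e0000bf69697f3032fe4fe) (.hit (nat_lit 2) (nat_lit 13) (nat_lit 0x2f00005e0000bf537d7f045afdf83) b61753 (.hit (nat_lit 6) (nat_lit 19) (nat_lit 0x2f00005e0000bf468d7eea7afdc47) b61757 (.one (nat_lit 6) (nat_lit 3) (nat_lit 14) (nat_lit 0x2f00005e0000bf69697f3032fe4fe) b61754 (.nil)))) (.one (nat_lit 68) (nat_lit 5) (nat_lit 18) (nat_lit 0x2f00005e0000bf45597ee812fdbfa) b61756 (.nil))))) (.tok (nat_lit 52) (nat_lit 0x2f00005e0000bf68b17f2ec2fe4d0) (.hit (nat_lit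 7) (nat_lit 39) (nat_lit 0x2f00005e0000bf46017ee962fdc24) b61758 (.hit (nat_lit 8) (nat_lit 40) (nat_lit 0x2f00005e0000bf68b17f2ec2fe4d0) b61759 (.nil))) (.tok (nat_lit 55) (nat_lit 0x2f00005e0000c01dbd80508b00667) (.hit (nat_lit 9) (nat_lit 41) (nat_lit 0x2f00005e0000c01dbd80508b00667) b61760 (.one (nat_lit 3) (nat_lit 15) (nat_lit 47) (nat_lit 0x2f00005e0000bf45f57ee94afdc21) b61766 (.tok (nat_lit 6) (nat_lit 0x2f00005e0000bf9ac57f92eaff155) (.hit (nat_lit 10) (nat_lit 42) (nat_lit 0x2f00005e0000bf5ccd7f16fafe1d7) b61761 (.hit (nat_lit 13) (nat_lit 45) (nat_lit 0x2f00005e0000bf3c257ed5aafd9ad) b61764 (.tok (nat_lit 55) (nat_lit 0x2f00005e0000bf9ac57f92eaff155) (.hit (nat_lit 11) (nat_lit 43) (nat_lit 0x2f00005e0000bf9ac57f92eaff155) b61762 (.hit (nat_lit 14) (nat_lit 46) (nat_lit 0x2f00005e0000bf72e57f432afe75d) b61765 (.one (nat_lit 6) (nat_lit 12) (nat_lit 44) (nat_lit 0x2f00005e0000bf57b97f0cd2fe092)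 b61763 (.nil)))) (.nil)))) (.nil)))) (.one (nat_lit 58) (nat_lit 16) (nat_lit 49) (nat_lit 0x2f00005e0000bf43017ee362fdb64) b61767 (.nil)))))) (.tok (nat_lit 9) (nat_lit 0x2f00005e0000c08af9818cb3027ae) (.hit (nat_lit 17) (nat_lit 0) (nat_lit 0x2f00005e0000bffd55808912ffe8b) b61768 (.tok (nat_lit 9) (nat_lit 0x2f00005e0000bfec018069ab001e2) (.hit (nat_lit 18) (nat_lit 20) (nat_lit 0x2f00005e0000bfe12d8069ab001e2) b61769 (.hit (nat_lit 21) (nat_lit 28) (nat_lit 0x2f00005e0000bf55217f371afd438) b61770 (.one (nat_lit 56) (nat_lit 22) (nat_lit 31) (nat_lit 0x2f00005e0000bfec017fddcafee80) b61771 (.nil)))) (.tok (nat_lit 64) (nat_lit 0x2f00005e0000c07a1d80c3db00a16) (.hit (nat_lit 24) (nat_lit 50) (nat_lit 0x2f00005e0000c00a9d80b5db00a16) b61772 (.hit (nat_lit 25) (nat_lit 51) (nat_lit 0x2f00005e0000c07a1d80c3db003fe) b61773 (.nil))) (.tok (nat_lit 67) (nat_lit 0x2f00005e0000c08af9818cb3027ae)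 (.hit (nat_lit 26) (nat_lit 52) (nat_lit 0x2f00005e0000c08af9818cb3027ae) b61774 (.one (nat_lit 3) (nat_lit 32) (nat_lit 58) (nat_lit 0x2f00005e0000c0332180f29b010d8) b61777 (.tok (nat_lit 9) (nat_lit 0x2f00005e0000c03d2181124300f54) (.hit (nat_lit 27) (nat_lit 53) (nat_lit 0x2f00005e0000bfce7d807b3b00065) b61775 (.hit (nat_lit 30) (nat_lit 56) (nat_lit 0x2f00005e0000c03d2181124300f54) b61776 (.nil))) (.nil)))) (.one (nat_lit 70) (nat_lit 33) (nat_lit 60) (nat_lit 0x2f00005e0000c03c5d80cf13008cb) b61778 (.nil)))))) (.nil))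
noncomputable def r89_24 : Rw Blk := .tok (nat_lit 3) (nat_lit 0x2f00005e0000bf45057ee9e2fe447) (.hit (nat_lit 14) (nat_lit 0) (nat_lit 0x2f00005e0000bf3a4d7ee9e2fe447) b61792 (.tok (nat_lit 6) (nat_lit 0x2f00005e0000bf45057e8a72fe36c) (.hit (nat_lit 15) (nat_lit 7) (nat_lit 0x2f00005e0000bf45057e8a72fe36c) b61793 (.hit (nat_lit 16) (nat_lit 15) (nat_lit 0x2f00005e0000bf03317e5f5afdf5e) b61794 (.nil))) (.tok (nat_lit 9) (nat_lit 0x2f00005e0000befa797dd5fafcd00) (.hit (nat_lit 17) (nat_lit 20) (nat_lit 0x2f00005e0000bea5797d984afb622) b61795 (.hit (nat_lit 18) (nat_lit 28) (nat_lit 0x2f00005e0000befa797dd5fafcd00) b61796 (.nil))) (.nil)))) (.tok (nat_lit 6) (nat_lit 0x2f00005e0000c00001809623012f1) (.hit (nat_lit 9) (nat_lit 0) (nat_lit 0x2f00005e0000bf7dd97fafbaff905) b61787 (.tok (nat_lit 3) (nat_lit 0x2f00005e0000c00001809623012f1) (.hit (nat_lit 10) (nat_lit 1) (nat_lit 0x2f00005e0000bf69957f31f2fe6e9)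 b61788 (.one (nat_lit 67) (nat_lit 11) (nat_lit 2) (nat_lit 0x2f00005e0000c00001809623012f1) b61789 (.nil))) (.tok (nat_lit 6) (nat_lit 0x2f00005e0000bf45d57f1942fe74a) (.hit (nat_lit 12) (nat_lit 7) (nat_lit 0x2f00005e0000bf41557f1942fe74a) b61790 (.hit (nat_lit 13) (nat_lit 15) (nat_lit 0x2f00005e0000bf45d57f058afe196) b61791 (.nil))) (.nil)))) (.tok (nat_lit 9) (nat_lit 0x2f00005e0000bf84497f2db2fedd6) (.hit (nat_lit 0) (nat_lit 0) (nat_lit 0x2f00005e0000bf5aad7f2db2feab7) b61779 (.tok (nat_lit 3) (nat_lit 0x2f00005e0000bf5c9d7ecbc2fe3eb) (.hit (nat_lit 1) (nat_lit 1) (nat_lit 0x2f00005e0000bed3717e0a72fc146) b61780 (.one (nat_lit 55) (nat_lit 2) (nat_lit 3) (nat_lit 0x2f00005e0000bf5c9d7ecbc2fe3eb) b61781 (.nil))) (.tok (nat_lit 9) (nat_lit 0x2f00005e0000bf84497f00eafedd6) (.hit (nat_lit 3) (nat_lit 20) (nat_lit 0x2f00005e0000bf12617dc8eafd15c) b61782 (.hit (nat_lit 7) (nat_lit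 28) (nat_lit 0x2f00005e0000bf033d7e2ea2fcd93) b61785 (.tok (nat_lit 67) (nat_lit 0x2f00005e0000bf84497f00eafedd6) (.hit (nat_lit 4) (nat_lit 21) (nat_lit 0x2f00005e0000bf51097e5c72fe106) b61783 (.hit (nat_lit 8) (nat_lit 29) (nat_lit 0x2f00005e0000bf84497f00eafedd6) b61786 (.one (nat_lit 9) (nat_lit 5) (nat_lit 22) (nat_lit 0x2f00005e0000bf52a57e7a6afe16d) b61784 (.nil)))) (.nil)))) (.nil)))) (.nil)))
noncomputable def r89_25 : Rw Blk := .tok (nat_lit 3) (nat_lit 0x5e0000bc00017fa2bb00642) (.hit (nat_lit 0) (nat_lit 0) (nat_lit 0x5e0000bc00017edcb2fead6) b61797 (.tok (nat_lit 9) (nat_lit 0x5e0000bc00017f2cf2ff651) (.hit (nat_lit 1) (nat_lit 20) (nat_lit 0x5e0000bc00017e556afdb60) b61798 (.hit (nat_lit 6) (nat_lit 28) (nat_lit 0x5e0000bc00017de1a2fcce7) b61803 (.tok (nat_lit 14) (nat_lit 0x5e0000bc00017ebfcafe8ac) (.hit (nat_lit 2) (nat_lit 24) (nat_lit 0x5e0000bc00017e8e32fe279)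 b61799 (.hit (nat_lit 7) (nat_lit 30) (nat_lit 0x5e0000bc00017e961afe376) b61804 (.one (nat_lit 6) (nat_lit 3) (nat_lit 25) (nat_lit 0x5e0000bc00017ebfcafe8ac) b61800 (.nil)))) (.tok (nat_lit 68) (nat_lit 0x5e0000bc00017f2cf2ff651) (.hit (nat_lit 4) (nat_lit 26) (nat_lit 0x5e0000bc00017eed92fee65) b61801 (.hit (nat_lit 8) (nat_lit 32) (nat_lit 0x5e0000bc00017e79dafdfee) b61805 (.one (nat_lit 9) (nat_lit 5) (nat_lit 27) (nat_lit 0x5e0000bc00017f2cf2ff651) b61802 (.nil)))) (.nil))))) (.tok (nat_lit 64) (nat_lit 0x5e0000bc00017ec5b2fe969) (.hit (nat_lit 9) (nat_lit 50) (nat_lit 0x5e0000bc00017ec21afe8f6) b61806 (.hit (nat_lit 10) (nat_lit 51) (nat_lit 0x5e0000bc00017ec5b2fe969) b61807 (.nil))) (.tok (nat_lit 67) (nat_lit 0x5e0000bc00017fa2bb00642) (.hit (nat_lit 11) (nat_lit 52) (nat_lit 0x5e0000bc00017fa2bb00642) b61808 (.tok (nat_lit 3) (nat_lit 0x5e0000bc00017f626affd00) (.hit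 (nat_lit 17) (nat_lit 58) (nat_lit 0x5e0000bc00017eec32fee39) b61814 (.one (nat_lit 55) (nat_lit 18) (nat_lit 59) (nat_lit 0x5e0000bc00017f626affd00) b61815 (.nil))) (.tok (nat_lit 9) (nat_lit 0x5e0000bc00017f4002ff8b3) (.hit (nat_lit 12) (nat_lit 53) (nat_lit 0x5e0000bc00017ef4aafef48) b61809 (.hit (nat_lit 15) (nat_lit 56) (nat_lit 0x5e0000bc00017ece52fea7d) b61812 (.tok (nat_lit 67) (nat_lit 0x5e0000bc00017f4002ff8b3) (.hit (nat_lit 13) (nat_lit 54) (nat_lit 0x5e0000bc00017f4002ff8b3) b61810 (.hit (nat_lit 16) (nat_lit 57) (nat_lit 0x5e0000bc00017f2d12ff655) b61813 (.one (nat_lit 9) (nat_lit 14) (nat_lit 55) (nat_lit 0x5e0000bc00017f2bbaff62a) b61811 (.nil)))) (.nil)))) (.nil)))) (.one (nat_lit 70) (nat_lit 19) (nat_lit 60) (nat_lit 0x5e0000bc00017ebf62fe89f) b61816 (.nil)))))) (.tok (nat_lit 6) (nat_lit 0x5e0000bc0001813d5302ec2) (.hit (nat_lit 20) (nat_lit 0) (nat_lit 0x5e0000bc00017edde2ff31d)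 b61817 (.tok (nat_lit 6) (nat_lit 0x5e0000bc0001813d5302ec2) (.hit (nat_lit 21) (nat_lit 7) (nat_lit 0x5e0000bc00017ede1afecb4) b61818 (.hit (nat_lit 26) (nat_lit 15) (nat_lit 0x5e0000bc00017dee5afdbb0) b61821 (.tok (nat_lit 14) (nat_lit 0x5e0000bc0001813d5302ec2) (.hit (nat_lit 22) (nat_lit 11) (nat_lit 0x5e0000bc0001813d5302ec2) b61819 (.hit (nat_lit 27) (nat_lit 17) (nat_lit 0x5e0000bc00017eea6affd84) b61822 (.one (nat_lit 9) (nat_lit 23) (nat_lit 12) (nat_lit 0x5e0000bc0001810d330287e) b61820 (.nil)))) (.one (nat_lit 68) (nat_lit 28) (nat_lit 18) (nat_lit 0x5e0000bc00017edb22ffc8c) b61823 (.nil))))) (.nil))) (.nil))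
noncomputable def r89_26 : Rw Blk := .tok (nat_lit 14) (nat_lit 0x5e0000bc00017eb842fe4f6) (.hit (nat_lit 134) (nat_lit 0) (nat_lit 0x5e0000bc00017e613afd479) b61836 (.one (nat_lit 3) (nat_lit 135) (nat_lit 1) (nat_lit 0x5e0000bc00017cf0a2fac02) b61837 (.tok (nat_lit 6) (nat_lit 0x5e0000bc00017eb842fe4f6) (.hit (nat_lit 136) (nat_lit 7) (nat_lit 0x5e0000bc00017e623afda35) b61838 (.hit (nat_lit 137) (nat_lit 15) (nat_lit 0x5e0000bc00017eb842fe4f6) b61839 (.nil))) (.tok (nat_lit 9) (nat_lit 0x5e0000bc00017e4f92fd7e0) (.hit (nat_lit 138) (nat_lit 20) (nat_lit 0x5e0000bc00017e143afd075) b61840 (.hit (nat_lit 139) (nat_lit 28) (nat_lit 0x5e0000bc00017e4f92fd7e0) b61841 (.nil))) (.nil))))) (.tok (nat_lit 17) (nat_lit 0x5e0000bc00017ee4bafea5a) (.hit (nat_lit 140) (nat_lit 0) (nat_lit 0x5e0000bc00017ee4bafd2f8) b61842 (.one (nat_lit 3) (nat_lit 141) (nat_lit 1) (nat_lit 0x5e0000bc00017d6bfafbb6d)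 b61843 (.tok (nat_lit 6) (nat_lit 0x5e0000bc00017e8bbafdf65) (.hit (nat_lit 142) (nat_lit 7) (nat_lit 0x5e0000bc00017e72dafdc49) b61844 (.hit (nat_lit 143) (nat_lit 15) (nat_lit 0x5e0000bc00017e8bbafdf65) b61845 (.nil))) (.tok (nat_lit 9) (nat_lit 0x5e0000bc00017ee362fea5a) (.hit (nat_lit 144) (nat_lit 20) (nat_lit 0x5e0000bc00017df34afcc57) b61846 (.hit (nat_lit 145) (nat_lit 28) (nat_lit 0x5e0000bc00017ee362fea5a) b61847 (.nil))) (.nil))))) (.tok (nat_lit 20) (nat_lit 0x5e0000bc00017f30a2feb13) (.hit (nat_lit 128) (nat_lit 0) (nat_lit 0x5e0000bc00017f12e2fe531) b61830 (.one (nat_lit 3) (nat_lit 129) (nat_lit 1) (nat_lit 0x5e0000bc00017ed7b2fd904) b61831 (.tok (nat_lit 6) (nat_lit 0x5e0000bc00017f30a2feb13) (.hit (nat_lit 130) (nat_lit 7) (nat_lit 0x5e0000bc00017e6422fda72) b61832 (.hit (nat_lit 131) (nat_lit 15) (nat_lit 0x5e0000bc00017f30a2feb13) b61833 (.nil))) (.tok (nat_lit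 9) (nat_lit 0x5e0000bc00017efffafea6c) (.hit (nat_lit 132) (nat_lit 20) (nat_lit 0x5e0000bc00017ef7bafe309) b61834 (.hit (nat_lit 133) (nat_lit 28) (nat_lit 0x5e0000bc00017efffafea6c) b61835 (.nil))) (.nil))))) (.tok (nat_lit 23) (nat_lit 0x5e0000bc00017f425afeb13) (.hit (nat_lit 122) (nat_lit 0) (nat_lit 0x5e0000bc00017f1702fdd40) b61824 (.one (nat_lit 3) (nat_lit 123) (nat_lit 1) (nat_lit 0x5e0000bc00017e979afd763) b61825 (.tok (nat_lit 6) (nat_lit 0x5e0000bc00017f2b3afeb13) (.hit (nat_lit 124) (nat_lit 7) (nat_lit 0x5e0000bc00017f1e12fe098) b61826 (.hit (nat_lit 125) (nat_lit 15) (nat_lit 0x5e0000bc00017f2b3afeb13) b61827 (.nil))) (.tok (nat_lit 9) (nat_lit 0x5e0000bc00017f425afe011) (.hit (nat_lit 126) (nat_lit 20) (nat_lit 0x5e0000bc00017e3f22fd5d2) b61828 (.hit (nat_lit 127) (nat_lit 28) (nat_lit 0x5e0000bc00017f425afe011) b61829 (.nil))) (.nil))))) (.tok (nat_lit 38) (nat_lit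 0x5e0000bc00017f697afe0ce) (.hit (nat_lit 239) (nat_lit 0) (nat_lit 0x5e0000bc00017f697afe0ce) b61891 (.one (nat_lit 3) (nat_lit 240) (nat_lit 1) (nat_lit 0x5e0000bc00017d8b72fbf5c) b61892 (.tok (nat_lit 6) (nat_lit 0x5e0000bc00017de93afcb15) (.hit (nat_lit 241) (nat_lit 7) (nat_lit 0x5e0000bc00017de93afcb15) b61893 (.hit (nat_lit 242) (nat_lit 15) (nat_lit 0x5e0000bc00017dce7afc7bd) b61894 (.nil))) (.tok (nat_lit 9) (nat_lit 0x5e0000bc00017e6452fda78) (.hit (nat_lit 243) (nat_lit 20) (nat_lit 0x5e0000bc00017e6452fda78) b61862 (.hit (nat_lit 244) (nat_lit 28) (nat_lit 0x5e0000bc00017dce5afc7b9) b61895 (.nil))) (.nil))))) (.tok (nat_lit 41) (nat_lit 0x5e0000bc00017f6682fed1a) (.hit (nat_lit 250) (nat_lit 0) (nat_lit 0x5e0000bc00017f3302fde07) b61896 (.one (nat_lit 3) (nat_lit 251) (nat_lit 1) (nat_lit 0x5e0000bc00017ed5aafcdce) b61897 (.tok (nat_lit 6) (nat_lit 0x5e0000bc00017f54c2feb87)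 (.hit (nat_lit 252) (nat_lit 7) (nat_lit 0x5e0000bc00017f54c2feb87) b61898 (.hit (nat_lit 253) (nat_lit 15) (nat_lit 0x5e0000bc00017f2832fea75) b61899 (.nil))) (.tok (nat_lit 9) (nat_lit 0x5e0000bc00017f6682fed1a) (.hit (nat_lit 254) (nat_lit 20) (nat_lit 0x5e0000bc00017f6682fed1a) b61900 (.hit (nat_lit 255) (nat_lit 28) (nat_lit 0x5e0000bc00017f361afe24d) b61901 (.nil))) (.nil))))) (.tok (nat_lit 44) (nat_lit 0x5e0000bc00017fc34aff1ad) (.hit (nat_lit 278) (nat_lit 0) (nat_lit 0x5e0000bc00017fc34afe80b) b61908 (.one (nat_lit 3) (nat_lit 279) (nat_lit 1) (nat_lit 0x5e0000bc00017e6a3afc066) b61909 (.tok (nat_lit 6) (nat_lit 0x5e0000bc00017f7feafe691) (.hit (nat_lit 280) (nat_lit 7) (nat_lit 0x5e0000bc00017f7feafe691) b61910 (.hit (nat_lit 281) (nat_lit 15) (nat_lit 0x5e0000bc00017ef8eafd295) b61911 (.nil))) (.tok (nat_lit 9) (nat_lit 0x5e0000bc00017f68b2ff1ad) (.hit (nat_lit 282)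 (nat_lit 20) (nat_lit 0x5e0000bc00017f68b2ff1ad) b61912 (.hit (nat_lit 283) (nat_lit 28) (nat_lit 0x5e0000bc00017f0f42fe7e4) b61913 (.nil))) (.nil))))) (.tok (nat_lit 47) (nat_lit 0x5e0000bc000180000300000) (.hit (nat_lit 264) (nat_lit 0) (nat_lit 0x5e0000bc00017fd7e300000) b61902 (.one (nat_lit 3) (nat_lit 265) (nat_lit 1) (nat_lit 0x5e0000bc00017ebf52fcb03) b61903 (.tok (nat_lit 6) (nat_lit 0x5e0000bc0001800002fffdf) (.hit (nat_lit 266) (nat_lit 7) (nat_lit 0x5e0000bc0001800002fffdf) b61904 (.hit (nat_lit 267) (nat_lit 15) (nat_lit 0x5e0000bc00017f0d82fd7e0) b61905 (.nil))) (.tok (nat_lit 9) (nat_lit 0x5e0000bc00017f9262fe959) (.hit (nat_lit 268) (nat_lit 20) (nat_lit 0x5e0000bc00017f9262fe959) b61906 (.hit (nat_lit 269) (nat_lit 28) (nat_lit 0x5e0000bc00017ee182fcf68) b61907 (.nil))) (.nil))))) (.tok (nat_lit 50) (nat_lit 0x5e0000bc00017f190aff10f) (.hit (nat_lit 170) (nat_lit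 0) (nat_lit 0x5e0000bc00017e9a22fe148) b61871 (.one (nat_lit 3) (nat_lit 171) (nat_lit 1) (nat_lit 0x5e0000bc00017db29afc441) b61872 (.tok (nat_lit 6) (nat_lit 0x5e0000bc00017f190aff10f) (.hit (nat_lit 172) (nat_lit 7) (nat_lit 0x5e0000bc00017f190aff10f) b61873 (.hit (nat_lit 173) (nat_lit 15) (nat_lit 0x5e0000bc00017de31afca51) b61874 (.nil))) (.tok (nat_lit 9) (nat_lit 0x5e0000bc00017e07a2fcee2) (.hit (nat_lit 174) (nat_lit 20) (nat_lit 0x5e0000bc00017e07a2fcee2) b61875 (.hit (nat_lit 175) (nat_lit 28) (nat_lit 0x5e0000bc00017dd6dafc8c9) b61876 (.nil))) (.nil))))) (.tok (nat_lit 53) (nat_lit 0x5e0000bc00017f45baff21a) (.hit (nat_lit 181) (nat_lit 0) (nat_lit 0x5e0000bc00017f1d3aff148) b61877 (.one (nat_lit 3) (nat_lit 182) (nat_lit 1) (nat_lit 0x5e0000bc00017ed56afe3b2) b61878 (.tok (nat_lit 6) (nat_lit 0x5e0000bc00017f10eaff04f) (.hit (nat_lit 183) (nat_lit 7) (nat_lit 0x5e0000bc00017f10eaff04f)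 b61879 (.hit (nat_lit 184) (nat_lit 15) (nat_lit 0x5e0000bc00017ee92afeb13) b61880 (.nil))) (.tok (nat_lit 9) (nat_lit 0x5e0000bc00017f45baff21a) (.hit (nat_lit 185) (nat_lit 20) (nat_lit 0x5e0000bc00017e908afdfff) b61881 (.hit (nat_lit 186) (nat_lit 28) (nat_lit 0x5e0000bc00017f45baff21a) b61882 (.nil))) (.nil))))) (.tok (nat_lit 56) (nat_lit 0x5e0000bc00017ecc62fe77a) (.hit (nat_lit 195) (nat_lit 0) (nat_lit 0x5e0000bc00017ecc62fe77a) b61883 (.one (nat_lit 3) (nat_lit 196) (nat_lit 1) (nat_lit 0x5e0000bc00017d8a02fbf2e) b61861 (.tok (nat_lit 6) (nat_lit 0x5e0000bc00017e623afda35) (.hit (nat_lit 197) (nat_lit 7) (nat_lit 0x5e0000bc00017e623afda35) b61838 (.hit (nat_lit 198) (nat_lit 15) (nat_lit 0x5e0000bc00017d9572fc09c) b61865 (.nil))) (.tok (nat_lit 9) (nat_lit 0x5e0000bc00017ec21afe631) (.hit (nat_lit 199) (nat_lit 20) (nat_lit 0x5e0000bc00017e6452fda78) b61862 (.hit (nat_lit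 200) (nat_lit 28) (nat_lit 0x5e0000bc00017ec21afe631) b61884 (.nil))) (.nil))))) (.tok (nat_lit 59) (nat_lit 0x5e0000bc00017f50b2ff804) (.hit (nat_lit 209) (nat_lit 0) (nat_lit 0x5e0000bc00017ee662fe676) b61885 (.one (nat_lit 3) (nat_lit 210) (nat_lit 1) (nat_lit 0x5e0000bc00017deccafcb87) b61886 (.tok (nat_lit 6) (nat_lit 0x5e0000bc00017ecc4afe777) (.hit (nat_lit 211) (nat_lit 7) (nat_lit 0x5e0000bc00017ea30afe24f) b61887 (.hit (nat_lit 212) (nat_lit 15) (nat_lit 0x5e0000bc00017ecc4afe777) b61888 (.nil))) (.tok (nat_lit 9) (nat_lit 0x5e0000bc00017f50b2ff804) (.hit (nat_lit 213) (nat_lit 20) (nat_lit 0x5e0000bc00017f50b2ff804) b61889 (.hit (nat_lit 214) (nat_lit 28) (nat_lit 0x5e0000bc00017d6d5afbb99) b61890 (.nil))) (.nil))))) (.tok (nat_lit 62) (nat_lit 0x5e0000bc00017ec322fd57a) (.hit (nat_lit 146) (nat_lit 0) (nat_lit 0x5e0000bc00017ec322fd100) b61848 (.one (nat_lit 3) (nat_lit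 147) (nat_lit 1) (nat_lit 0x5e0000bc00017d8ca2fbf82) b61849 (.tok (nat_lit 6) (nat_lit 0x5e0000bc00017ddb4afc957) (.hit (nat_lit 148) (nat_lit 7) (nat_lit 0x5e0000bc00017ddb4afc957) b61850 (.hit (nat_lit 149) (nat_lit 15) (nat_lit 0x5e0000bc00017dbb6afc55b) b61851 (.nil))) (.tok (nat_lit 9) (nat_lit 0x5e0000bc00017e3c62fd57a) (.hit (nat_lit 150) (nat_lit 20) (nat_lit 0x5e0000bc00017e3c62fd57a) b61852 (.hit (nat_lit 151) (nat_lit 28) (nat_lit 0x5e0000bc00017dccfafc78d) b61853 (.nil))) (.nil))))) (.tok (nat_lit 65) (nat_lit 0x5e0000bc00017f1f6afe93e) (.hit (nat_lit 152) (nat_lit 0) (nat_lit 0x5e0000bc00017efd5afd89f) b61854 (.one (nat_lit 3) (nat_lit 153) (nat_lit 1) (nat_lit 0x5e0000bc00017ececafcaf7) b61855 (.tok (nat_lit 6) (nat_lit 0x5e0000bc00017f0192fe16f) (.hit (nat_lit 154) (nat_lit 7) (nat_lit 0x5e0000bc00017e9c0afe16f) b61856 (.hit (nat_lit 155) (nat_lit 15) (nat_lit 0x5e0000bc00017f0192fd7e0)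 b61857 (.nil))) (.tok (nat_lit 9) (nat_lit 0x5e0000bc00017f1f6afe93e) (.hit (nat_lit 156) (nat_lit 20) (nat_lit 0x5e0000bc00017f1f6afddd8) b61858 (.hit (nat_lit 157) (nat_lit 28) (nat_lit 0x5e0000bc00017f133afe93e) b61859 (.nil))) (.nil))))) (.tok (nat_lit 68) (nat_lit 0x5e0000bc00017eab52fe358) (.hit (nat_lit 158) (nat_lit 0) (nat_lit 0x5e0000bc00017e955afdb38) b61860 (.one (nat_lit 3) (nat_lit 159) (nat_lit 1) (nat_lit 0x5e0000bc00017d8a02fbf2e) b61861 (.tok (nat_lit 6) (nat_lit 0x5e0000bc00017eab52fe358) (.hit (nat_lit 160) (nat_lit 7) (nat_lit 0x5e0000bc00017e6452fda78) b61862 (.hit (nat_lit 161) (nat_lit 15) (nat_lit 0x5e0000bc00017eab52fe358) b61863 (.nil))) (.tok (nat_lit 9) (nat_lit 0x5e0000bc00017e46aafd6c3) (.hit (nat_lit 162) (nat_lit 20) (nat_lit 0x5e0000bc00017e46aafd6c3) b61864 (.hit (nat_lit 163) (nat_lit 28) (nat_lit 0x5e0000bc00017d9572fc09c) b61865 (.nil))) (.nil)))))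 (.tok (nat_lit 71) (nat_lit 0x5e0000bc00017eef9afd879) (.hit (nat_lit 164) (nat_lit 0) (nat_lit 0x5e0000bc00017eef9afd86d) b61866 (.one (nat_lit 3) (nat_lit 165) (nat_lit 1) (nat_lit 0x5e0000bc00017d8a02fbf2e) b61861 (.tok (nat_lit 6) (nat_lit 0x5e0000bc00017e3892fd500) (.hit (nat_lit 166) (nat_lit 7) (nat_lit 0x5e0000bc00017e3892fd500) b61867 (.hit (nat_lit 167) (nat_lit 15) (nat_lit 0x5e0000bc00017dd70afc8cf) b61868 (.nil))) (.tok (nat_lit 9) (nat_lit 0x5e0000bc00017e545afd879) (.hit (nat_lit 168) (nat_lit 20) (nat_lit 0x5e0000bc00017e2ebafd3c5) b61869 (.hit (nat_lit 169) (nat_lit 28) (nat_lit 0x5e0000bc00017e545afd879) b61870 (.nil))) (.nil))))) (.nil))))))))))))))))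
noncomputable def r89_27 : Rw Blk := .tok (nat_lit 3) (nat_lit 0x5e0000bc00017f228afd2d7) (.hit (nat_lit 18) (nat_lit 0) (nat_lit 0x5e0000bc00017f228afd2d7) b61930 (.tok (nat_lit 6) (nat_lit 0x5e0000bc00017e9edafcc9c) (.hit (nat_lit 19) (nat_lit 7) (nat_lit 0x5e0000bc00017e9edafcc9c) b61931 (.hit (nat_lit 20) (nat_lit 15) (nat_lit 0x5e0000bc00017e959afcb74) b61932 (.nil))) (.tok (nat_lit 9) (nat_lit 0x5e0000bc00017ec4a2fd155) (.hit (nat_lit 21) (nat_lit 20) (nat_lit 0x5e0000bc00017ea1eafccfe) b61933 (.hit (nat_lit 22) (nat_lit 28) (nat_lit 0x5e0000bc00017ec4a2fd155) b61934 (.nil))) (.nil)))) (.tok (nat_lit 6) (nat_lit 0x5e0000bc000180000300000) (.hit (nat_lit 0) (nat_lit 0) (nat_lit 0x5e0000bc00017f763afe03c) b61914 (.tok (nat_lit 3) (nat_lit 0x5e0000bc00017fa432fe1c2) (.hit (nat_lit 1) (nat_lit 1) (nat_lit 0x5e0000bc00017ebd32fcc56) b61915 (.one (nat_lit 67) (nat_lit 2) (nat_lit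 2) (nat_lit 0x5e0000bc00017fa432fe1c2) b61916 (.nil))) (.tok (nat_lit 6) (nat_lit 0x5e0000bc000180000300000) (.hit (nat_lit 3) (nat_lit 7) (nat_lit 0x5e0000bc00017f89d2fd2bd) b61917 (.hit (nat_lit 7) (nat_lit 15) (nat_lit 0x5e0000bc00017efe9afd894) b61920 (.tok (nat_lit 55) (nat_lit 0x5e0000bc000180000300000) (.hit (nat_lit 4) (nat_lit 8) (nat_lit 0x5e0000bc000180000300000) b61918 (.hit (nat_lit 8) (nat_lit 16) (nat_lit 0x5e0000bc00017fab32fed05) b61921 (.one (nat_lit 6) (nat_lit 5) (nat_lit 9) (nat_lit 0x5e0000bc00017ff0eaff927) b61919 (.nil)))) (.nil)))) (.nil)))) (.tok (nat_lit 9) (nat_lit 0x5e0000bc00017fe662fecd3) (.hit (nat_lit 9) (nat_lit 0) (nat_lit 0x5e0000bc00017f2322fdd27) b61922 (.tok (nat_lit 3) (nat_lit 0x5e0000bc00017f7fe2fe5e7) (.hit (nat_lit 10) (nat_lit 1) (nat_lit 0x5e0000bc00017ef76afd155) b61923 (.one (nat_lit 55) (nat_lit 11) (nat_lit 3) (nat_lit 0x5e0000bc00017f7fe2fe5e7)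 b61924 (.nil))) (.tok (nat_lit 9) (nat_lit 0x5e0000bc00017fe662fecd3) (.hit (nat_lit 12) (nat_lit 20) (nat_lit 0x5e0000bc00017ec3a2fcd82) b61925 (.hit (nat_lit 16) (nat_lit 28) (nat_lit 0x5e0000bc00017ef852fd576) b61928 (.tok (nat_lit 67) (nat_lit 0x5e0000bc00017fe662fecd3) (.hit (nat_lit 13) (nat_lit 21) (nat_lit 0x5e0000bc00017fe662fe1a4) b61926 (.hit (nat_lit 17) (nat_lit 29) (nat_lit 0x5e0000bc00017fd0bafecd3) b61929 (.one (nat_lit 9) (nat_lit 14) (nat_lit 22) (nat_lit 0x5e0000bc00017fa5fafe2e5) b61927 (.nil)))) (.nil)))) (.nil)))) (.nil)))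
noncomputable def r89_28 : Rw Blk := .tok (nat_lit 3) (nat_lit 0x5e0000bc00017e9ba2fdcb6) (.hit (nat_lit 14) (nat_lit 0) (nat_lit 0x5e0000bc00017e9ba2fdcb6) b61948 (.tok (nat_lit 6) (nat_lit 0x5e0000bc00017dd4e2fc7b9) (.hit (nat_lit 15) (nat_lit 7) (nat_lit 0x5e0000bc00017da96afc24a) b61949 (.hit (nat_lit 16) (nat_lit 15) (nat_lit 0x5e0000bc00017dd4e2fc7b9) b61950 (.nil))) (.tok (nat_lit 9) (nat_lit 0x5e0000bc00017e269afd1f0) (.hit (nat_lit 17) (nat_lit 20) (nat_lit 0x5e0000bc00017e269afd1f0) b61951 (.hit (nat_lit 18) (nat_lit 28) (nat_lit 0x5e0000bc00017e0b32fce83) b61952 (.nil))) (.nil)))) (.tok (nat_lit 6) (nat_lit 0x5e0000bc00017f0a3afeda3) (.hit (nat_lit 0) (nat_lit 0) (nat_lit 0x5e0000bc00017f0a3afe765) b61935 (.tok (nat_lit 3) (nat_lit 0x5e0000bc00017eac5afe2a8) (.hit (nat_lit 1) (nat_lit 1) (nat_lit 0x5e0000bc00017e1732fd003) b61936 (.one (nat_lit 67) (nat_lit 2) (nat_lit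 2) (nat_lit 0x5e0000bc00017eac5afe2a8) b61937 (.nil))) (.tok (nat_lit 6) (nat_lit 0x5e0000bc00017f0432feda3) (.hit (nat_lit 3) (nat_lit 7) (nat_lit 0x5e0000bc00017df382fcb8d) b61938 (.hit (nat_lit 7) (nat_lit 15) (nat_lit 0x5e0000bc00017e1e62fd0e9) b61941 (.tok (nat_lit 55) (nat_lit 0x5e0000bc00017f0432feda3) (.hit (nat_lit 4) (nat_lit 8) (nat_lit 0x5e0000bc00017eae92fe2ef) b61939 (.hit (nat_lit 8) (nat_lit 16) (nat_lit 0x5e0000bc00017f0432feda3) b61942 (.one (nat_lit 6) (nat_lit 5) (nat_lit 9) (nat_lit 0x5e0000bc00017e842afdda2) b61940 (.nil)))) (.nil)))) (.nil)))) (.tok (nat_lit 9) (nat_lit 0x5e0000bc000180000300797) (.hit (nat_lit 9) (nat_lit 0) (nat_lit 0x5e0000bc00017f3d9afeb15) b61943 (.tok (nat_lit 3) (nat_lit 0x5e0000bc000180000300797) (.hit (nat_lit 10) (nat_lit 1) (nat_lit 0x5e0000bc00017f3eaafec11) b61944 (.one (nat_lit 55) (nat_lit 11) (nat_lit 3) (nat_lit 0x5e0000bc000180000300797)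 b61945 (.nil))) (.tok (nat_lit 9) (nat_lit 0x5e0000bc00017f93d2fef01) (.hit (nat_lit 12) (nat_lit 20) (nat_lit 0x5e0000bc00017f93d2fe835) b61946 (.hit (nat_lit 13) (nat_lit 28) (nat_lit 0x5e0000bc00017efb02fef01) b61947 (.nil))) (.nil)))) (.nil)))
noncomputable def r89_29 : Rw Blk := .tok (nat_lit 3) (nat_lit 0x5e0000bc00017f1992fe3ae) (.hit (nat_lit 14) (nat_lit 0) (nat_lit 0x5e0000bc00017f1992fe3ae) b61966 (.tok (nat_lit 6) (nat_lit 0x5e0000bc00017eac5afda15) (.hit (nat_lit 15) (nat_lit 7) (nat_lit 0x5e0000bc00017eac5afda15) b61967 (.hit (nat_lit 16) (nat_lit 15) (nat_lit 0x5e0000bc00017e803afd491) b61968 (.nil))) (.tok (nat_lit 9) (nat_lit 0x5e0000bc00017e853afd531) (.hit (nat_lit 17) (nat_lit 20) (nat_lit 0x5e0000bc00017e853afd531) b61969 (.hit (nat_lit 18) (nat_lit 28) (nat_lit 0x5e0000bc00017d544afaf13) b61970 (.nil))) (.nil)))) (.tok (nat_lit 6) (nat_lit 0x5e0000bc000180000300000)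 (.hit (nat_lit 9) (nat_lit 0) (nat_lit 0x5e0000bc0001800002fedab) b61961 (.tok (nat_lit 3) (nat_lit 0x5e0000bc00017fd7ab00000) (.hit (nat_lit 10) (nat_lit 1) (nat_lit 0x5e0000bc00017ed272fe0d4) b61962 (.one (nat_lit 67) (nat_lit 11) (nat_lit 2) (nat_lit 0x5e0000bc00017fd7ab00000) b61963 (.nil))) (.tok (nat_lit 6) (nat_lit 0x5e0000bc00017f9612ffa78) (.hit (nat_lit 12) (nat_lit 7) (nat_lit 0x5e0000bc00017f9612ffa78) b61964 (.hit (nat_lit 13) (nat_lit 15) (nat_lit 0x5e0000bc00017ee83afe4b4) b61965 (.nil))) (.nil)))) (.tok (nat_lit 9) (nat_lit 0x5e0000bc00017f97d2ff579) (.hit (nat_lit 0) (nat_lit 0) (nat_lit 0x5e0000bc00017f97d2ff332) b61953 (.tok (nat_lit 3) (nat_lit 0x5e0000bc00017f3d42fec32) (.hit (nat_lit 1) (nat_lit 1) (nat_lit 0x5e0000bc00017eac9afda1d) b61954 (.one (nat_lit 55) (nat_lit 2) (nat_lit 3) (nat_lit 0x5e0000bc00017f3d42fec32) b61955 (.nil))) (.tok (nat_lit 9) (nat_lit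 0x5e0000bc00017f877aff579) (.hit (nat_lit 3) (nat_lit 20) (nat_lit 0x5e0000bc00017e956afd737) b61956 (.hit (nat_lit 7) (nat_lit 28) (nat_lit 0x5e0000bc00017e9d2afd82f) b61959 (.tok (nat_lit 67) (nat_lit 0x5e0000bc00017f877aff579) (.hit (nat_lit 4) (nat_lit 21) (nat_lit 0x5e0000bc00017f464afed53) b61957 (.hit (nat_lit 8) (nat_lit 29) (nat_lit 0x5e0000bc00017f877aff579) b61960 (.one (nat_lit 9) (nat_lit 5) (nat_lit 22) (nat_lit 0x5e0000bc00017f4672fed58) b61958 (.nil)))) (.nil)))) (.nil)))) (.nil)))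
noncomputable def r90_0 : Rw Blk := .tok (nat_lit 3) (nat_lit 0xbf29f97e5872fcf005faaa8bf66417eaaa2fe2355fabfabfb5e57ec642fe8235fd19ebfa5197f121afe0c4) (.hit (nat_lit 0) (nat_lit 0) (nat_lit 0xbea3317d9182fb3535f7136beeb0d7dc4dafc03d5f6f10bf4c2d7df74afc2fc5f8012bf3c657e77d2fc703) b61971 (.tok (nat_lit 14) (nat_lit 0xbef6797e3ecafcc595faaa8bf5aad7eaaa2fd9295fa4b4bf8e597eaa5afe8235fd19ebfa5197f024afe0c4) (.hit (nat_lit 41) (nat_lit 61) (nat_lit 0xbef6217e3ecafcc595f9ccabf4ca97e732afd4895f96c6bf8e597eaa5afe6205fcbf4bf9c117f024afe0c4) b61972 (.one (nat_lit 3) (nat_lit 42) (nat_lit 62) (nat_lit 0xbebb017da27afc6f55f763abedc4d7dc5dafc8785f7ea4bf2d857de5dafc80f5f86d8bf42097e2ddafd1ff) b61973 (.tok (nat_lit 6) (nat_lit 0xbef6797e13b2fc5665faaa8bf51d57eaaa2fc80b5f7dcabf2bd17de272fc7a25f85febf40557e33c2fd2ef) (.hit (nat_lit 45) (nat_lit 65) (nat_lit 0xbef6797e13b2fc5665faaa8bf51d57eaaa2fc80b5f7dcabf2bd17de272fc7a25f85febf40557e0bd2fd0f3)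 b61976 (.hit (nat_lit 46) (nat_lit 66) (nat_lit 0xbeb8217d9cbafbe8f5f74cabed96d7dc01afc7c05f7d34bf2aa57de01afc7575f8568bf3f297e33c2fd2ef) b61977 (.nil))) (.tok (nat_lit 9) (nat_lit 0xbef6797e13b2fc5665fa4ccbf5aad7e981afd9295fa4b4bf7f917e93d2fe8235fd19ebfa5197edd9afdc0f) (.hit (nat_lit 43) (nat_lit 63) (nat_lit 0xbef6797e13b2fc5665fa4ccbf5aad7e981afd9295fa4b4bf7f917e93d2fe8235fd19ebfa5197edd9afdc0f) b61974 (.hit (nat_lit 44) (nat_lit 64) (nat_lit 0xbeb8217d9cbafbe8f5f74cabed96d7dc01afc7c05f7d34bf2aa57de01afc7575f8568bf4d597e59aafd67d) b61975 (.nil))) (.nil))))) (.one (nat_lit 17) (nat_lit 47) (nat_lit 67) (nat_lit 0xbe7ec17d29fafb8b55f581abea00d7d4d5afb9685f6084bef1457d6d5afb8ff5f68b8bf64517e840afd217) b61978 (.tok (nat_lit 20) (nat_lit 0xbe9d4d7d6712fc3095f6760bebe997d8a72fc10b5f6fcabf0fd17daa72fc0a25f77febfa2817ee802fd394) (.hit (nat_lit 48) (nat_lit 68) (nat_lit 0xbe9d4d7d6712fc3095f6760bebe997d8a72fc10b5f6fcabf0fd17daa72fc0a25f77febfa2817ee802fd394)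 b61979 (.hit (nat_lit 49) (nat_lit 69) (nat_lit 0xbe6d5d7d0732fb3fa5f4f68be8ea97d2a92fb50f5f57d2bedfe17d4a92fb4a65f6006bf48997e4c9afcb29) b61980 (.nil))) (.tok (nat_lit 23) (nat_lit 0xbe9d4d7d6712fc3095f6760bebe997d8a72fc10b5f6fcabf0fd17daa72fc0a25f77febf3c017e331afc803) (.hit (nat_lit 50) (nat_lit 70) (nat_lit 0xbe9d4d7d6712fc3095f6760bebe997d8a72fc10b5f6fcabf0fd17daa72fc0a25f77febf24557d88bafc689) b61981 (.hit (nat_lit 51) (nat_lit 71) (nat_lit 0xbe6d5d7d0732fb3fa5f4f68be8ea97d2a92fb50f5f57d2bedfe17d4a92fb4a65f6006bf3c017e331afc803) b61982 (.nil))) (.one (nat_lit 26) (nat_lit 52) (nat_lit 72) (nat_lit 0xbe2e017c887afa8d95f2fbabe4f4d7cabdafa5385f3824bea0857ccbdafa4cf5f4058bf199d7deea2fbf6a) b61983 (.one (nat_lit 29) (nat_lit 53) (nat_lit 73) (nat_lit 0xbe2f117c8a9afad4e5f3042be505d7cadfafa57c5f38acbea1957ccdfafa5135f40e0bf2b957e128afc3e2) b61984 (.one (nat_lit 32) (nat_lit 54)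 (nat_lit 74) (nat_lit 0xbe2f457c8b02fac3b5f305cbe50917cae62fa5895f38c6bea1c97cce62fa5205f40fabf229d7e00a2fc39d) b61985 (.one (nat_lit 35) (nat_lit 55) (nat_lit 75) (nat_lit 0xbe2f457c8b02fac3b5f305cbe50917cae62fa5895f38c6bea1c97cce62fa5205f40fabf2bd57e1312fc3f8) b61986 (.one (nat_lit 50) (nat_lit 63) (nat_lit 83) (nat_lit 0xbe8a517d411afb2175f5de2beab9d7d647afbc4c5f664cbefcd57d847afbbe35f6e80bf15fd7de762fc809) b61987 (.tok (nat_lit 53) (nat_lit 0xbeab417d82fafba125f6e5abecc8d7da65afc4885f76c4bf1dc57dc65afc41f5f7ef8bf9cdd7e373afd260) (.hit (nat_lit 64) (nat_lit 84) (nat_lit 0xbeab417d82fafba125f6e5abecc8d7da65afc4885f76c4bf1dc57dc65afc41f5f7ef8bf9cdd7e373afd260) b61988 (.hit (nat_lit 65) (nat_lit 85) (nat_lit 0xbe6b857d0382fb8f25f4e7cbe8cd17d26e2fb4995f56e6bede097d46e2fb4305f5f1abf3a957e3092fc7a8) b61989 (.nil))) (.tok (nat_lit 56) (nat_lit 0xbf29f97e5872fcf005fa05cbf5e657e8172fdefe5fabfabfb5e57ec642fd3325fb9febf83e57ef57afdfa4)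 (.hit (nat_lit 66) (nat_lit 86) (nat_lit 0xbf29f97e5872fcc6c5f9c2cbf5e657e70aafdefe5fabfabf99c57ead22fcf695fa1debf51097ef57afdb4d) b61990 (.one (nat_lit 3) (nat_lit 70) (nat_lit 90) (nat_lit 0xbe93a17d53bafcb715f628abeb4ed7d771afbea05f6af4bf06257d971afbe375f7328bf484d7e400afd3e0) b61994 (.tok (nat_lit 6) (nat_lit 0xbefbed7e3c32fcf005fa05cbf59597e8172fd4f25f9e04bfb5e57ec642fd3325fb9febf79517ee35afdfa4) (.hit (nat_lit 68) (nat_lit 88) (nat_lit 0xbefbed7e3c32fcf005fa05cbf59597e8172fd4f25f9e04bfb5e57ec642fd3325fb9febf79517ee35afdfa4) b61992 (.hit (nat_lit 69) (nat_lit 89) (nat_lit 0xbe875d7d3b32fc1105f5c68bea8a97d5e92fbb8f5f64d2bef9e17d7e92fbb265f6d06bf2aa57e1532fd183) b61993 (.nil))) (.one (nat_lit 9) (nat_lit 67) (nat_lit 87) (nat_lit 0xbecae97dc24afca375f7e2ebeec357de5aafcc725f8698bf3d6d7e05aafcc095f8eccbf83e57eb75afdc56) b61991 (.nil))))) (.one (nat_lit 59) (nat_lit 71) (nat_lit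 91) (nat_lit 0xbe30997c8daafadf35f3106be51e57cb10afa5de5f3970bea31d7cd10afa5755f41a4bf26557e0812fc298) b61995 (.one (nat_lit 62) (nat_lit 72) (nat_lit 92) (nat_lit 0xbe8a517d411afb2175f5de2beab9d7d647afbc4c5f664cbefcd57d847afbbe35f6e80bf176d7dea42fc809) b61996 (.tok (nat_lit 65) (nat_lit 0xbeab417d82fafba125f6e5abecc8d7da65afc4885f76c4bf1dc57dc65afc41f5f7ef8bf5ff57e1d4afca8a) (.hit (nat_lit 73) (nat_lit 93) (nat_lit 0xbeab417d82fafba125f6e5abecc8d7da65afc4885f76c4bf1dc57dc65afc41f5f7ef8bf5ff57e0c0afca8a) b61997 (.hit (nat_lit 74) (nat_lit 94) (nat_lit 0xbe6b857d0382fb8f25f4e7cbe8cd17d26e2fb4995f56e6bede097d46e2fb4305f5f1abf36997e1d4afc3e1) b61998 (.nil))) (.tok (nat_lit 68) (nat_lit 0xbf29f97e5872fcf005fa054bf66417e8152fe2355fabfabfa0657eb162fdf645fb0cabf99997f121afde5d) (.hit (nat_lit 75) (nat_lit 95) (nat_lit 0xbf29f97e5872fcc6c5f9c2abf66417e70aafe2355fabfabfa0657eb162fdf645fb0cabf99997f121afde5d)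 b61999 (.one (nat_lit 3) (nat_lit 79) (nat_lit 99) (nat_lit 0xbe93a17d53bafcb715f628abeb4ed7d771afbea05f6af4bf06257d971afbe375f7328bf1aa97dc862fd3de) b62003 (.one (nat_lit 6) (nat_lit 76) (nat_lit 96) (nat_lit 0xbecae97dc24afca375f7e2ebeec357de5aafcc725f8698bf3d6d7e05aafcc095f8eccbf51f17de3f2fdc40) b62000 (.tok (nat_lit 9) (nat_lit 0xbefbed7e3c32fcf005fa054bf3dc57e8152fcde85f8984bf43457e115afcd7f5f91b8bf5c417e5a3afd63f) (.hit (nat_lit 77) (nat_lit 97) (nat_lit 0xbefbed7e3c32fcf005fa054bf3dc57e8152fcde85f8984bf43457e115afcd7f5f91b8bf5c417e5a3afd63f) b62001 (.hit (nat_lit 78) (nat_lit 98) (nat_lit 0xbe875d7d3b32fc1105f5c68bea8a97d5e92fbb8f5f64d2bef9e17d7e92fbb265f6d06bf0e657db31afd1a2) b62002 (.nil))) (.nil))))) (.one (nat_lit 71) (nat_lit 80) (nat_lit 100) (nat_lit 0xbe30997c8daafadf35f3106be51e57cb10afa5de5f3970bea31d7cd10afa5755f41a4bf2e0d7e1782fc489) b62004 (.nil))))))))))))))))))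 (.tok (nat_lit 40) (nat_lit 0xbfabb980a3fb004795fef6abfac297fbdcb0234860313ec0a8f580bfeaffb665ff274c025ed7fb913018e8) (.hit (nat_lit 287) (nat_lit 0) (nat_lit 0xbf8a057f8d22fea4f5fe246bfac297f893b003df5ff714bfff657fbd5affb665ff274c025ed7fb762ff969) b62005 (.tok (nat_lit 6) (nat_lit 0xbfabb980a3fb004795fe55abf8ed97fa35b0234860313ec0a8f580bfeafeef65fc956c00aad7fb913018e8) (.hit (nat_lit 288) (nat_lit 7) (nat_lit 0xbfabb980a3fb004795fe55abf8ed97fa35b0234860313ec0a8f580bfeafeef65fc956c00aad7fb913018e8) b62006 (.hit (nat_lit 289) (nat_lit 15) (nat_lit 0xbf5a017ee27afde4a5fc18ebf6f597f2642ff0935fccdcbfc0197f2f72fe7165fb996bfd6d97f4ccafef00) b62007 (.nil))) (.tok (nat_lit 9) (nat_lit 0xbfabb980a3fb004795fef6abf8ed97fbdcaff38e5fe280c0012d7f8802feef65fc956bfcf817f5df2ffbc2) (.hit (nat_lit 290) (nat_lit 20) (nat_lit 0xbfabb980a3fb004795fef6abf8ed97fbdcaff38e5fe280c0012d7f8802feef65fc956bfc2f17ef56affbc2)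 b62008 (.hit (nat_lit 291) (nat_lit 28) (nat_lit 0xbf5a017ee27afde4a5fcab8bf6f597f2ae2ff1ff5fce16bfe7a57f41bafe7165fb996bfcf817f5df2ff269) b62009 (.nil))) (.nil)))) (.tok (nat_lit 43) (nat_lit 0xc001c98008bb01ade601ae0c06c71806b6b008bc60115ac07059805f9b032416064f4c0c16581933b029bb) (.hit (nat_lit 298) (nat_lit 0) (nat_lit 0xbfa2397fb97aff1c15fce12c01b357f71daff59e5fdf86c028157f7b52ff82a5fe552bfe5457f63b2ffb36) b62010 (.tok (nat_lit 3) (nat_lit 0xbf70797f6482fe1f45fd5b0bff6757f5ddaffe9b5ff13cc03e0d7ff20b00f7160176ac04209801f23006c1) (.hit (nat_lit 299) (nat_lit 1) (nat_lit 0xbf42c17e8922fd3175fb2c4bf86657ecb12fe5a75fbe96bfe6057f2d8afef355fd21abfcf8d7f071afed68) b62011 (.one (nat_lit 67) (nat_lit 300) (nat_lit 2) (nat_lit 0xbf70797f6482fe1f45fd5b0bff6757f5ddaffe9b5ff13cc03e0d7ff20b00f7160176ac04209801f23006c1) b62012 (.nil))) (.tok (nat_lit 6) (nat_lit 0xc001c98008bb01ade601ae0c06c71806b6b008bc60115ac07059805f9b032416064f4c0c16581933b029bb)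 (.hit (nat_lit 301) (nat_lit 7) (nat_lit 0xbf68097ecb52fedd45fc6dac024d57f209afe6105fcb12bff9517f37c30186c60289cc04295807c7b0036e) b62013 (.hit (nat_lit 304) (nat_lit 15) (nat_lit 0xbf55597ec472fdc095fb89abf8f717ee262fe8915fc46abfd6b97f2f72febfd5fc618bfc8997ef8dafee31) b62016 (.tok (nat_lit 55) (nat_lit 0xc001c98008bb01ade601ae0c06c71806b6b008bc60115ac07059805f9b032416064f4c0c16581933b029bb) (.hit (nat_lit 302) (nat_lit 8) (nat_lit 0xc001c9800692ffe3d601ae0c06b81806b6b008bc60115ac07059805f9b014d66027c8c053ed80a33b00f04) b62014 (.hit (nat_lit 305) (nat_lit 16) (nat_lit 0xbfb83d7fd9a2ff19a5fe6e8c012817f9ba3000bf5ff59cc0690580359b002905ffe40c027e17ff33300812) b62017 (.one (nat_lit 6) (nat_lit 303) (nat_lit 9) (nat_lit 0xbfed518008bb01ade600750c06c71801e3b003fe60061cc05781802503032416064f4c0c16581933b029bb) b62015 (.nil)))) (.nil)))) (.nil)))) (.tok (nat_lit 46) (nat_lit 0xc001c98008bb01ade601e8cc039cd807af3002245fe36ec01dc97f95e3002905ff08ac05ba9804a8300da0)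 (.hit (nat_lit 312) (nat_lit 0) (nat_lit 0xbfa2397fb97aff1c15fdfaabfe71d7f5f0b002245fe36ec01dc97f95e2ffdd25fe3e8c05ba9804a8300da0) b62018 (.tok (nat_lit 3) (nat_lit 0xbf70797f6482fe1f45fd5b4bfb4cd7f56aafe90e5fc3aebfd64d7f0bf2ff4075fd378bfd7357f502aff79f) (.hit (nat_lit 313) (nat_lit 1) (nat_lit 0xbf42c17e8922fd3175fb2c4bf70617ecb12fcd215f8bd4bf66997e2c8afd81a5f9b9ebf7f2d7ea1cafe8be) b62019 (.one (nat_lit 55) (nat_lit 314) (nat_lit 3) (nat_lit 0xbf70797f6482fe1f45fd5b4bfb4cd7f56aafe90e5fc3aebfd64d7f0bf2ff4075fd378bfd7357f502aff79f) b62020 (.nil))) (.tok (nat_lit 9) (nat_lit 0xc001c98008bb01ade601e8cc039cd807af2ff7975fe0c0c010717f803b002905ff08ac027e17ff332fffd3) (.hit (nat_lit 315) (nat_lit 20) (nat_lit 0xbf68097ecb52fedd45fc6dabfae897f1b6afd5fa5f9d86bf89fd7e7352fe0f35fad50bfae257effbafe8fa) b62021 (.hit (nat_lit 318) (nat_lit 28) (nat_lit 0xbf55597ec472fdc095fb898bf7aed7ee262fd4ac5f9aeabf84c57e68e2fdfa55faab4bf96557ed01afe884)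 b62024 (.tok (nat_lit 67) (nat_lit 0xc001c98008bb01ade601e8cc039cd807af2ff7975fe0c0c010717f803b002905ff08ac027e17ff332fffd3) (.hit (nat_lit 316) (nat_lit 21) (nat_lit 0xc001c9800692ffe3d601e8cc039cd807af2fe8835fc298bfd4217f079aff37c5fd262bffc657f9c3aff45b) b62022 (.hit (nat_lit 319) (nat_lit 29) (nat_lit 0xbfb83d7fd9a2ff19a5fe6e8bfdd417f9ba2ff7975fe0c0c010717f803b002905ff08ac027e17ff332fffd3) b62025 (.one (nat_lit 9) (nat_lit 317) (nat_lit 22) (nat_lit 0xbfed518008bb01ade6007d6c0308580210afeabc5fc70abfdd057f1962ff5b55fd6d4c016417fcff2ffad2) b62023 (.nil)))) (.nil)))) (.nil)))) (.nil))))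
noncomputable def r90_1 : Rw Blk := .tok (nat_lit 14) (nat_lit 0x5e0000bc00017ed962fdf5e) (.hit (nat_lit 108) (nat_lit 0) (nat_lit 0x5e0000bc00017ebd9afdf5e) b62030 (.one (nat_lit 3) (nat_lit 109) (nat_lit 1) (nat_lit 0x5e0000bc00017e139afc399) b62031 (.tok (nat_lit 6) (nat_lit 0x5e0000bc00017ed962fdc52) (.hit (nat_lit 110) (nat_lit 7) (nat_lit 0x5e0000bc00017ed00afdb27) b62032 (.hit (nat_lit 111) (nat_lit 15) (nat_lit 0x5e0000bc00017ed962fdc52) b62033 (.nil))) (.tok (nat_lit 9) (nat_lit 0x5e0000bc00017ed962fdc52) (.hit (nat_lit 112) (nat_lit 20) (nat_lit 0x5e0000bc00017ed00afdb27) b62032 (.hit (nat_lit 113) (nat_lit 28) (nat_lit 0x5e0000bc00017ed962fdc52) b62033 (.nil))) (.nil))))) (.tok (nat_lit 17) (nat_lit 0x5e0000bc00017f6572ff537) (.hit (nat_lit 102) (nat_lit 0) (nat_lit 0x5e0000bc00017f6572ff537) b62026 (.one (nat_lit 3) (nat_lit 103) (nat_lit 1) (nat_lit 0x5e0000bc00017e1df2fc4e4)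 b62027 (.tok (nat_lit 6) (nat_lit 0x5e0000bc00017f51cafeb5f) (.hit (nat_lit 104) (nat_lit 7) (nat_lit 0x5e0000bc00017ea7a2fd61a) b62028 (.hit (nat_lit 105) (nat_lit 15) (nat_lit 0x5e0000bc00017f51cafeb5f) b62029 (.nil))) (.tok (nat_lit 9) (nat_lit 0x5e0000bc00017f51cafeb5f) (.hit (nat_lit 106) (nat_lit 20) (nat_lit 0x5e0000bc00017ea7a2fd61a) b62028 (.hit (nat_lit 107) (nat_lit 28) (nat_lit 0x5e0000bc00017f51cafeb5f) b62029 (.nil))) (.nil))))) (.tok (nat_lit 20) (nat_lit 0x5e0000bc00017fc12300000) (.hit (nat_lit 120) (nat_lit 0) (nat_lit 0x5e0000bc00017fc12300000) b62040 (.one (nat_lit 3) (nat_lit 121) (nat_lit 1) (nat_lit 0x5e0000bc00017f5fd2ff3b0) b62041 (.tok (nat_lit 6) (nat_lit 0x5e0000bc00017f72c2ff5ec) (.hit (nat_lit 122) (nat_lit 7) (nat_lit 0x5e0000bc00017eebd2fdea0) b62038 (.hit (nat_lit 123) (nat_lit 15) (nat_lit 0x5e0000bc00017f72c2ff5ec) b62042 (.nil))) (.tok (nat_lit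 9) (nat_lit 0x5e0000bc00017f926affa45) (.hit (nat_lit 124) (nat_lit 20) (nat_lit 0x5e0000bc00017f926affa45) b62043 (.hit (nat_lit 125) (nat_lit 28) (nat_lit 0x5e0000bc00017f7be2ff758) b62044 (.nil))) (.nil))))) (.tok (nat_lit 23) (nat_lit 0x5e0000bc00017fc122ff998) (.hit (nat_lit 114) (nat_lit 0) (nat_lit 0x5e0000bc00017fc122ff998) b62034 (.one (nat_lit 3) (nat_lit 115) (nat_lit 1) (nat_lit 0x5e0000bc00017f5fd2ff3b8) b62035 (.tok (nat_lit 6) (nat_lit 0x5e0000bc00017f926aff501) (.hit (nat_lit 116) (nat_lit 7) (nat_lit 0x5e0000bc00017f926aff501) b62036 (.hit (nat_lit 117) (nat_lit 15) (nat_lit 0x5e0000bc00017f7be2fefcd) b62037 (.nil))) (.tok (nat_lit 9) (nat_lit 0x5e0000bc00017f72c2ff631) (.hit (nat_lit 118) (nat_lit 20) (nat_lit 0x5e0000bc00017eebd2fdea0) b62038 (.hit (nat_lit 119) (nat_lit 28) (nat_lit 0x5e0000bc00017f72c2ff631) b62039 (.nil))) (.nil))))) (.tok (nat_lit 26) (nat_lit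 0x5e0000bc00017ff18afea52) (.hit (nat_lit 150) (nat_lit 0) (nat_lit 0x5e0000bc00017ff18afea52) b62045 (.one (nat_lit 3) (nat_lit 151) (nat_lit 1) (nat_lit 0x5e0000bc00017e147afc3b5) b62046 (.tok (nat_lit 6) (nat_lit 0x5e0000bc00017eb64afd7ef) (.hit (nat_lit 152) (nat_lit 7) (nat_lit 0x5e0000bc00017eb64afd7ef) b62047 (.hit (nat_lit 153) (nat_lit 15) (nat_lit 0x5e0000bc00017e7bbafd09d) b62048 (.nil))) (.tok (nat_lit 9) (nat_lit 0x5e0000bc00017eb64afd7ef) (.hit (nat_lit 154) (nat_lit 20) (nat_lit 0x5e0000bc00017eb64afd7ef) b62047 (.hit (nat_lit 155) (nat_lit 28) (nat_lit 0x5e0000bc00017e7bbafd09d) b62048 (.nil))) (.nil))))) (.tok (nat_lit 29) (nat_lit 0x5e0000bc00017fbfaafe9df) (.hit (nat_lit 156) (nat_lit 0) (nat_lit 0x5e0000bc00017fbfaafe349) b62049 (.one (nat_lit 3) (nat_lit 157) (nat_lit 1) (nat_lit 0x5e0000bc00017e147afc3b5) b62046 (.tok (nat_lit 6) (nat_lit 0x5e0000bc00017f45cafe9df)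 (.hit (nat_lit 158) (nat_lit 7) (nat_lit 0x5e0000bc00017f11fafe365) b62050 (.hit (nat_lit 159) (nat_lit 15) (nat_lit 0x5e0000bc00017f45cafe9df) b62051 (.nil))) (.tok (nat_lit 9) (nat_lit 0x5e0000bc00017f45cafe9df) (.hit (nat_lit 160) (nat_lit 20) (nat_lit 0x5e0000bc00017f11fafe365) b62050 (.hit (nat_lit 161) (nat_lit 28) (nat_lit 0x5e0000bc00017f45cafe9df) b62051 (.nil))) (.nil))))) (.tok (nat_lit 32) (nat_lit 0x5e0000bc00017f5002fe8ae) (.hit (nat_lit 168) (nat_lit 0) (nat_lit 0x5e0000bc00017f5002fdc31) b62058 (.one (nat_lit 3) (nat_lit 169) (nat_lit 1) (nat_lit 0x5e0000bc00017e183afc42d) b62053 (.tok (nat_lit 6) (nat_lit 0x5e0000bc00017f3c42fe8ae) (.hit (nat_lit 170) (nat_lit 7) (nat_lit 0x5e0000bc00017e748afcfb7) b62056 (.hit (nat_lit 171) (nat_lit 15) (nat_lit 0x5e0000bc00017f3c42fe8ae) b62057 (.nil))) (.tok (nat_lit 9) (nat_lit 0x5e0000bc00017eedeafdee3) (.hit (nat_lit 172)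 (nat_lit 20) (nat_lit 0x5e0000bc00017eedeafdee3) b62054 (.hit (nat_lit 173) (nat_lit 28) (nat_lit 0x5e0000bc00017e47a2fca1a) b62055 (.nil))) (.nil))))) (.tok (nat_lit 35) (nat_lit 0x5e0000bc00017f5002fe8ae) (.hit (nat_lit 162) (nat_lit 0) (nat_lit 0x5e0000bc00017f5002fdc31) b62052 (.one (nat_lit 3) (nat_lit 163) (nat_lit 1) (nat_lit 0x5e0000bc00017e183afc42d) b62053 (.tok (nat_lit 6) (nat_lit 0x5e0000bc00017eedeafdee3) (.hit (nat_lit 164) (nat_lit 7) (nat_lit 0x5e0000bc00017eedeafdee3) b62054 (.hit (nat_lit 165) (nat_lit 15) (nat_lit 0x5e0000bc00017e47a2fca1a) b62055 (.nil))) (.tok (nat_lit 9) (nat_lit 0x5e0000bc00017f3c42fe8ae) (.hit (nat_lit 166) (nat_lit 20) (nat_lit 0x5e0000bc00017e748afcfb7) b62056 (.hit (nat_lit 167) (nat_lit 28) (nat_lit 0x5e0000bc00017f3c42fe8ae) b62057 (.nil))) (.nil))))) (.tok (nat_lit 50) (nat_lit 0x5e0000bc00017f43dafe7fa) (.hit (nat_lit 219) (nat_lit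 0) (nat_lit 0x5e0000bc00017f43dafd75d) b62076 (.one (nat_lit 3) (nat_lit 220) (nat_lit 1) (nat_lit 0x5e0000bc00017e183afc42d) b62053 (.tok (nat_lit 6) (nat_lit 0x5e0000bc00017f36a2fe7fa) (.hit (nat_lit 221) (nat_lit 7) (nat_lit 0x5e0000bc00017f36a2fe7fa) b62061 (.hit (nat_lit 222) (nat_lit 15) (nat_lit 0x5e0000bc00017e5692fcbf8) b62060 (.nil))) (.tok (nat_lit 9) (nat_lit 0x5e0000bc00017eedeafdee3) (.hit (nat_lit 223) (nat_lit 20) (nat_lit 0x5e0000bc00017eedeafdee3) b62054 (.hit (nat_lit 224) (nat_lit 28) (nat_lit 0x5e0000bc00017e5692fcbf8) b62060 (.nil))) (.nil))))) (.tok (nat_lit 53) (nat_lit 0x5e0000bc0001800002ff339) (.hit (nat_lit 230) (nat_lit 0) (nat_lit 0x5e0000bc00017f63aafe56d) b62077 (.one (nat_lit 3) (nat_lit 231) (nat_lit 1) (nat_lit 0x5e0000bc00017f6272fdc26) b62078 (.tok (nat_lit 6) (nat_lit 0x5e0000bc0001800002ff339) (.hit (nat_lit 232) (nat_lit 7) (nat_lit 0x5e0000bc0001800002ff339)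 b62079 (.hit (nat_lit 233) (nat_lit 15) (nat_lit 0x5e0000bc00017fa0a2fed88) b62080 (.nil))) (.tok (nat_lit 9) (nat_lit 0x5e0000bc00017f72c2fef7e) (.hit (nat_lit 234) (nat_lit 20) (nat_lit 0x5e0000bc00017f4392fe998) b62064 (.hit (nat_lit 235) (nat_lit 28) (nat_lit 0x5e0000bc00017f72c2fef7e) b62081 (.nil))) (.nil))))) (.tok (nat_lit 56) (nat_lit 0x5e0000bc00017f6a9afee79) (.hit (nat_lit 258) (nat_lit 0) (nat_lit 0x5e0000bc00017f1d52fdc54) b62083 (.one (nat_lit 3) (nat_lit 259) (nat_lit 1) (nat_lit 0x5e0000bc00017e139afc399) b62031 (.tok (nat_lit 6) (nat_lit 0x5e0000bc00017eebd2fdea0) (.hit (nat_lit 260) (nat_lit 7) (nat_lit 0x5e0000bc00017eebd2fdea0) b62038 (.hit (nat_lit 261) (nat_lit 15) (nat_lit 0x5e0000bc00017e1f0afc507) b62075 (.nil))) (.tok (nat_lit 9) (nat_lit 0x5e0000bc00017f6a9afee79) (.hit (nat_lit 262) (nat_lit 20) (nat_lit 0x5e0000bc00017eedeafdee3) b62054 (.hit (nat_lit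 263) (nat_lit 28) (nat_lit 0x5e0000bc00017f6a9afee79) b62074 (.nil))) (.nil))))) (.tok (nat_lit 59) (nat_lit 0x5e0000bc00017f8ecaff04d) (.hit (nat_lit 244) (nat_lit 0) (nat_lit 0x5e0000bc00017f8ecafe172) b62082 (.one (nat_lit 3) (nat_lit 245) (nat_lit 1) (nat_lit 0x5e0000bc00017e1df2fc4e4) b62027 (.tok (nat_lit 6) (nat_lit 0x5e0000bc00017f6ce2feec2) (.hit (nat_lit 246) (nat_lit 7) (nat_lit 0x5e0000bc00017e96e2fd402) b62071 (.hit (nat_lit 247) (nat_lit 15) (nat_lit 0x5e0000bc00017f6ce2feec2) b62072 (.nil))) (.tok (nat_lit 9) (nat_lit 0x5e0000bc00017f793aff04d) (.hit (nat_lit 248) (nat_lit 20) (nat_lit 0x5e0000bc00017f793aff04d) b62069 (.hit (nat_lit 249) (nat_lit 28) (nat_lit 0x5e0000bc00017e81d2fd160) b62070 (.nil))) (.nil))))) (.tok (nat_lit 62) (nat_lit 0x5e0000bc00017f43dafe7fa) (.hit (nat_lit 174) (nat_lit 0) (nat_lit 0x5e0000bc00017f43dafe668) b62059 (.one (nat_lit 3) (nat_lit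 175) (nat_lit 1) (nat_lit 0x5e0000bc00017e183afc42d) b62053 (.tok (nat_lit 6) (nat_lit 0x5e0000bc00017eedeafdee3) (.hit (nat_lit 176) (nat_lit 7) (nat_lit 0x5e0000bc00017eedeafdee3) b62054 (.hit (nat_lit 177) (nat_lit 15) (nat_lit 0x5e0000bc00017e5692fcbf8) b62060 (.nil))) (.tok (nat_lit 9) (nat_lit 0x5e0000bc00017f36a2fe7fa) (.hit (nat_lit 178) (nat_lit 20) (nat_lit 0x5e0000bc00017f36a2fe7fa) b62061 (.hit (nat_lit 179) (nat_lit 28) (nat_lit 0x5e0000bc00017e5692fcbf8) b62060 (.nil))) (.nil))))) (.tok (nat_lit 65) (nat_lit 0x5e0000bc0001800002fff62) (.hit (nat_lit 185) (nat_lit 0) (nat_lit 0x5e0000bc00017f63aafe33e) b62062 (.one (nat_lit 3) (nat_lit 186) (nat_lit 1) (nat_lit 0x5e0000bc00017f6272fe9c4) b62063 (.tok (nat_lit 6) (nat_lit 0x5e0000bc00017f72c2ff687) (.hit (nat_lit 187) (nat_lit 7) (nat_lit 0x5e0000bc00017f4392fe998) b62064 (.hit (nat_lit 188) (nat_lit 15) (nat_lit 0x5e0000bc00017f72c2ff687)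 b62065 (.nil))) (.tok (nat_lit 9) (nat_lit 0x5e0000bc0001800002fff62) (.hit (nat_lit 189) (nat_lit 20) (nat_lit 0x5e0000bc0001800002fff62) b62066 (.hit (nat_lit 190) (nat_lit 28) (nat_lit 0x5e0000bc00017fa0a2ff95c) b62067 (.nil))) (.nil))))) (.tok (nat_lit 68) (nat_lit 0x5e0000bc00017f6a9afee79) (.hit (nat_lit 213) (nat_lit 0) (nat_lit 0x5e0000bc00017f1d52fe197) b62073 (.one (nat_lit 3) (nat_lit 214) (nat_lit 1) (nat_lit 0x5e0000bc00017e139afc399) b62031 (.tok (nat_lit 6) (nat_lit 0x5e0000bc00017f6a9afee79) (.hit (nat_lit 215) (nat_lit 7) (nat_lit 0x5e0000bc00017eedeafdee3) b62054 (.hit (nat_lit 216) (nat_lit 15) (nat_lit 0x5e0000bc00017f6a9afee79) b62074 (.nil))) (.tok (nat_lit 9) (nat_lit 0x5e0000bc00017eebd2fdea0) (.hit (nat_lit 217) (nat_lit 20) (nat_lit 0x5e0000bc00017eebd2fdea0) b62038 (.hit (nat_lit 218) (nat_lit 28) (nat_lit 0x5e0000bc00017e1f0afc507) b62075 (.nil))) (.nil)))))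 (.tok (nat_lit 71) (nat_lit 0x5e0000bc00017f8ecaff06c) (.hit (nat_lit 199) (nat_lit 0) (nat_lit 0x5e0000bc00017f8ecaff06c) b62068 (.one (nat_lit 3) (nat_lit 200) (nat_lit 1) (nat_lit 0x5e0000bc00017e1df2fc4e4) b62027 (.tok (nat_lit 6) (nat_lit 0x5e0000bc00017f793aff04d) (.hit (nat_lit 201) (nat_lit 7) (nat_lit 0x5e0000bc00017f793aff04d) b62069 (.hit (nat_lit 202) (nat_lit 15) (nat_lit 0x5e0000bc00017e81d2fd160) b62070 (.nil))) (.tok (nat_lit 9) (nat_lit 0x5e0000bc00017f6ce2feec2) (.hit (nat_lit 203) (nat_lit 20) (nat_lit 0x5e0000bc00017e96e2fd402) b62071 (.hit (nat_lit 204) (nat_lit 28) (nat_lit 0x5e0000bc00017f6ce2feec2) b62072 (.nil))) (.nil))))) (.nil))))))))))))))))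
noncomputable def r90_2 : Rw Blk := .tok (nat_lit 3) (nat_lit 0x5e0000bc00017ec9e2fdd90) (.hit (nat_lit 0) (nat_lit 0) (nat_lit 0x5e0000bc00017ec9e2fdd90) b62084 (.tok (nat_lit 6) (nat_lit 0x5e0000bc00017e71c2fd622) (.hit (nat_lit 1) (nat_lit 7) (nat_lit 0x5e0000bc00017e65dafd4a5) b62085 (.hit (nat_lit 2) (nat_lit 15) (nat_lit 0x5e0000bc00017e71c2fd622) b62086 (.nil))) (.tok (nat_lit 9) (nat_lit 0x5e0000bc00017e71c2fd622) (.hit (nat_lit 3) (nat_lit 20) (nat_lit 0x5e0000bc00017e65dafd4a5) b62085 (.hit (nat_lit 4) (nat_lit 28) (nat_lit 0x5e0000bc00017e71c2fd622) b62086 (.nil))) (.nil)))) (.tok (nat_lit 6) (nat_lit 0x5e0000bc000180000300c40) (.hit (nat_lit 5) (nat_lit 0) (nat_lit 0x5e0000bc00017f6482ffa09) b62087 (.one (nat_lit 3) (nat_lit 6) (nat_lit 1) (nat_lit 0x5e0000bc00017ee8bafdca0) b62088 (.tok (nat_lit 6) (nat_lit 0x5e0000bc000180000300c40) (.hit (nat_lit 8) (nat_lit 7)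 (nat_lit 0x5e0000bc00017f200afe98a) b62089 (.hit (nat_lit 12) (nat_lit 15) (nat_lit 0x5e0000bc00017ec252fde28) b62093 (.tok (nat_lit 55) (nat_lit 0x5e0000bc000180000300c40) (.hit (nat_lit 9) (nat_lit 8) (nat_lit 0x5e0000bc000180000300c40) b62090 (.hit (nat_lit 13) (nat_lit 16) (nat_lit 0x5e0000bc00017f979affa5a) b62094 (.tok (nat_lit 6) (nat_lit 0x5e0000bc00017fdd3b0069b) (.hit (nat_lit 10) (nat_lit 9) (nat_lit 0x5e0000bc00017fa092ff87a) b62091 (.one (nat_lit 55) (nat_lit 11) (nat_lit 10) (nat_lit 0x5e0000bc00017fdd3b0069b) b62092 (.nil))) (.nil)))) (.nil)))) (.nil)))) (.tok (nat_lit 9) (nat_lit 0x5e0000bc0001800002ff943) (.hit (nat_lit 14) (nat_lit 0) (nat_lit 0x5e0000bc00017f6482fe825) b62095 (.one (nat_lit 3) (nat_lit 15) (nat_lit 1) (nat_lit 0x5e0000bc00017ee8bafda1d) b62096 (.tok (nat_lit 9) (nat_lit 0x5e0000bc0001800002ff943) (.hit (nat_lit 17) (nat_lit 20) (nat_lit 0x5e0000bc00017f200afd980)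 b62097 (.hit (nat_lit 21) (nat_lit 28) (nat_lit 0x5e0000bc00017ec252fde28) b62101 (.tok (nat_lit 67) (nat_lit 0x5e0000bc0001800002ff943) (.hit (nat_lit 18) (nat_lit 21) (nat_lit 0x5e0000bc0001800002ff884) b62098 (.hit (nat_lit 22) (nat_lit 29) (nat_lit 0x5e0000bc00017f979aff359) b62102 (.tok (nat_lit 9) (nat_lit 0x5e0000bc00017fdd3aff943) (.hit (nat_lit 19) (nat_lit 22) (nat_lit 0x5e0000bc00017fa092feb59) b62099 (.one (nat_lit 67) (nat_lit 20) (nat_lit 23) (nat_lit 0x5e0000bc00017fdd3aff943) b62100 (.nil))) (.nil)))) (.nil)))) (.nil)))) (.nil)))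
noncomputable def r90_3 : Rw Blk := .tok (nat_lit 3) (nat_lit 0x5e0000bc00017ea6c2fe88b) (.hit (nat_lit 14) (nat_lit 0) (nat_lit 0x5e0000bc00017ea6c2fe88b) b62115 (.tok (nat_lit 6) (nat_lit 0x5e0000bc00017dae22fd07f) (.hit (nat_lit 15) (nat_lit 7) (nat_lit 0x5e0000bc00017dae22fd07f) b62116 (.hit (nat_lit 16) (nat_lit 15) (nat_lit 0x5e0000bc00017cf22afb900) b62117 (.nil))) (.tok (nat_lit 9) (nat_lit 0x5e0000bc00017e1602fdd7b) (.hit (nat_lit 17) (nat_lit 20) (nat_lit 0x5e0000bc00017e0a1afdbfe) b62118 (.hit (nat_lit 18) (nat_lit 28) (nat_lit 0x5e0000bc00017e1602fdd7b) b62119 (.nil))) (.nil)))) (.tok (nat_lit 6) (nat_lit 0x5e0000bc00017f1eeaffaa9) (.hit (nat_lit 0) (nat_lit 0) (nat_lit 0x5e0000bc00017f1eeaff532) b62103 (.one (nat_lit 3) (nat_lit 1) (nat_lit 1) (nat_lit 0x5e0000bc00017df702fd99b) b62104 (.tok (nat_lit 6) (nat_lit 0x5e0000bc00017eff72ffaa9) (.hit (nat_lit 3) (nat_lit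 7) (nat_lit 0x5e0000bc00017e0f3afdca2) b62105 (.hit (nat_lit 7) (nat_lit 15) (nat_lit 0x5e0000bc00017e389afe1ce) b62109 (.tok (nat_lit 55) (nat_lit 0x5e0000bc00017eff72ffaa9) (.hit (nat_lit 4) (nat_lit 8) (nat_lit 0x5e0000bc00017e9cd2fee55) b62106 (.hit (nat_lit 8) (nat_lit 16) (nat_lit 0x5e0000bc00017ecb52ff425) b62110 (.tok (nat_lit 6) (nat_lit 0x5e0000bc00017eff72ffaa9) (.hit (nat_lit 5) (nat_lit 9) (nat_lit 0x5e0000bc00017ec902ff3db) b62107 (.one (nat_lit 55) (nat_lit 6) (nat_lit 10) (nat_lit 0x5e0000bc00017eff72ffaa9) b62108 (.nil))) (.nil)))) (.nil)))) (.nil)))) (.tok (nat_lit 9) (nat_lit 0x5e0000bc000180000301f93) (.hit (nat_lit 9) (nat_lit 0) (nat_lit 0x5e0000bc00017f14d2ff792) b62111 (.one (nat_lit 3) (nat_lit 10) (nat_lit 1) (nat_lit 0x5e0000bc00017f8e2affb9c) b62112 (.tok (nat_lit 9) (nat_lit 0x5e0000bc000180000301f93) (.hit (nat_lit 12) (nat_lit 20) (nat_lit 0x5e0000bc000180000301f93)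 b62113 (.hit (nat_lit 13) (nat_lit 28) (nat_lit 0x5e0000bc00017ed42aff258) b62114 (.nil))) (.nil)))) (.nil)))
noncomputable def r90_4 : Rw Blk := .tok (nat_lit 3) (nat_lit 0x5e0000bc00017ea6c2fe82d) (.hit (nat_lit 14) (nat_lit 0) (nat_lit 0x5e0000bc00017ea6c2fe82d) b62132 (.tok (nat_lit 6) (nat_lit 0x5e0000bc00017e1602fe225) (.hit (nat_lit 15) (nat_lit 7) (nat_lit 0x5e0000bc00017e0a1afe0a8) b62133 (.hit (nat_lit 16) (nat_lit 15) (nat_lit 0x5e0000bc00017e1602fe225) b62134 (.nil))) (.tok (nat_lit 9) (nat_lit 0x5e0000bc00017dae22fd529) (.hit (nat_lit 17) (nat_lit 20) (nat_lit 0x5e0000bc00017dae22fd529) b62135 (.hit (nat_lit 18) (nat_lit 28) (nat_lit 0x5e0000bc00017cf22afbdaa) b62136 (.nil))) (.nil)))) (.tok (nat_lit 6) (nat_lit 0x5e0000bc00018000030135f) (.hit (nat_lit 9) (nat_lit 0) (nat_lit 0x5e0000bc00017f14d2ff52c) b62128 (.one (nat_lit 3) (nat_lit 10) (nat_lit 1) (nat_lit 0x5e0000bc00017f8e2b000f6)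 b62129 (.tok (nat_lit 6) (nat_lit 0x5e0000bc00018000030135f) (.hit (nat_lit 12) (nat_lit 7) (nat_lit 0x5e0000bc00018000030135f) b62130 (.hit (nat_lit 13) (nat_lit 15) (nat_lit 0x5e0000bc00017ed42aff79a) b62131 (.nil))) (.nil)))) (.tok (nat_lit 9) (nat_lit 0x5e0000bc00017f1eeafff53) (.hit (nat_lit 0) (nat_lit 0) (nat_lit 0x5e0000bc00017f1eeaff936) b62120 (.one (nat_lit 3) (nat_lit 1) (nat_lit 1) (nat_lit 0x5e0000bc00017df702fde45) b62121 (.tok (nat_lit 9) (nat_lit 0x5e0000bc00017eff72fff53) (.hit (nat_lit 3) (nat_lit 20) (nat_lit 0x5e0000bc00017e0f3afe14c) b62122 (.hit (nat_lit 7) (nat_lit 28) (nat_lit 0x5e0000bc00017e389afe678) b62126 (.tok (nat_lit 67) (nat_lit 0x5e0000bc00017eff72fff53) (.hit (nat_lit 4) (nat_lit 21) (nat_lit 0x5e0000bc00017e9cd2ff2ff) b62123 (.hit (nat_lit 8) (nat_lit 29) (nat_lit 0x5e0000bc00017ecb52ff8cf) b62127 (.tok (nat_lit 9) (nat_lit 0x5e0000bc00017eff72fff53)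 (.hit (nat_lit 5) (nat_lit 22) (nat_lit 0x5e0000bc00017ec902ff885) b62124 (.one (nat_lit 67) (nat_lit 6) (nat_lit 23) (nat_lit 0x5e0000bc00017eff72fff53) b62125 (.nil))) (.nil)))) (.nil)))) (.nil)))) (.nil)))
noncomputable def r90_5 : Rw Blk := .tok (nat_lit 6) (nat_lit 0x5e0000bc0001801d8301b21) (.hit (nat_lit 10) (nat_lit 0) (nat_lit 0x5e0000bc00017fafbb00c9b) b62146 (.tok (nat_lit 3) (nat_lit 0x5e0000bc00017e8832fef4c) (.hit (nat_lit 11) (nat_lit 1) (nat_lit 0x5e0000bc00017e59a2fe529) b62147 (.one (nat_lit 56) (nat_lit 13) (nat_lit 6) (nat_lit 0x5e0000bc00017e8832fef4c) b62148 (.nil))) (.tok (nat_lit 40) (nat_lit 0x5e0000bc00017f3432ff42e) (.hit (nat_lit 14) (nat_lit 33) (nat_lit 0x5e0000bc00017f3432ff388) b62149 (.hit (nat_lit 15) (nat_lit 34) (nat_lit 0x5e0000bc00017ee8aaff42e) b62150 (.nil))) (.tok (nat_lit 43) (nat_lit 0x5e0000bc00017fbf4b0021c) (.hit (nat_lit 16) (nat_lit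 35) (nat_lit 0x5e0000bc00017fbf4b0021c) b62151 (.hit (nat_lit 17) (nat_lit 36) (nat_lit 0x5e0000bc00017ef952feb67) b62152 (.nil))) (.tok (nat_lit 46) (nat_lit 0x5e0000bc0001801d8301b21) (.hit (nat_lit 18) (nat_lit 37) (nat_lit 0x5e0000bc00017e9d1afe3dd) b62142 (.hit (nat_lit 19) (nat_lit 38) (nat_lit 0x5e0000bc0001801d8301b21) b62153 (.nil))) (.nil)))))) (.tok (nat_lit 9) (nat_lit 0x5e0000bc0001801d8302013) (.hit (nat_lit 0) (nat_lit 0) (nat_lit 0x5e0000bc00017fafbb00edd) b62137 (.tok (nat_lit 3) (nat_lit 0x5e0000bc00017e8832fff44) (.hit (nat_lit 1) (nat_lit 1) (nat_lit 0x5e0000bc00017e59a2fec9c) b62138 (.one (nat_lit 68) (nat_lit 3) (nat_lit 5) (nat_lit 0x5e0000bc00017e8832fff44) b62139 (.nil))) (.tok (nat_lit 40) (nat_lit 0x5e0000bc00017f3432fff5d) (.hit (nat_lit 4) (nat_lit 33) (nat_lit 0x5e0000bc00017f3432fff5d) b62140 (.hit (nat_lit 5) (nat_lit 34) (nat_lit 0x5e0000bc00017ee8aaff943)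 b62141 (.nil))) (.tok (nat_lit 43) (nat_lit 0x5e0000bc0001801d8302013) (.hit (nat_lit 6) (nat_lit 35) (nat_lit 0x5e0000bc00017e9d1afe3dd) b62142 (.hit (nat_lit 7) (nat_lit 36) (nat_lit 0x5e0000bc0001801d8302013) b62143 (.nil))) (.tok (nat_lit 46) (nat_lit 0x5e0000bc00017fbf4b014d3) (.hit (nat_lit 8) (nat_lit 37) (nat_lit 0x5e0000bc00017fbf4b014d3) b62144 (.hit (nat_lit 9) (nat_lit 38) (nat_lit 0x5e0000bc00017ef952ffdc8) b62145 (.nil))) (.nil)))))) (.nil))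
noncomputable def r90_6 : Rw Blk := .tok (nat_lit 6) (nat_lit 0x5e0000bc000180375b01aa9) (.hit (nat_lit 10) (nat_lit 0) (nat_lit 0x5e0000bc00017fe72300c7a) b62163 (.tok (nat_lit 3) (nat_lit 0x5e0000bc00017ef0eaff729) (.hit (nat_lit 11) (nat_lit 1) (nat_lit 0x5e0000bc00017e6c8afdd16) b62164 (.one (nat_lit 56) (nat_lit 13) (nat_lit 6) (nat_lit 0x5e0000bc00017ef0eaff729) b62165 (.nil))) (.tok (nat_lit 40) (nat_lit 0x5e0000bc00017f761aff9ee) (.hit (nat_lit 14) (nat_lit 33) (nat_lit 0x5e0000bc00017f761aff9b3) b62166 (.hit (nat_lit 15) (nat_lit 34) (nat_lit 0x5e0000bc00017f362aff9ee) b62167 (.nil))) (.tok (nat_lit 43) (nat_lit 0x5e0000bc00017f9cc2ffd1d) (.hit (nat_lit 16) (nat_lit 35) (nat_lit 0x5e0000bc00017f9cc2ffd1d) b62168 (.hit (nat_lit 17) (nat_lit 36) (nat_lit 0x5e0000bc00017f3c1aff604) b62169 (.nil))) (.tok (nat_lit 46) (nat_lit 0x5e0000bc000180375b01aa9) (.hit (nat_lit 18)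 (nat_lit 37) (nat_lit 0x5e0000bc00017ed8f2feb93) b62159 (.hit (nat_lit 19) (nat_lit 38) (nat_lit 0x5e0000bc000180375b01aa9) b62170 (.nil))) (.nil)))))) (.tok (nat_lit 9) (nat_lit 0x5e0000bc000180375b01b25) (.hit (nat_lit 0) (nat_lit 0) (nat_lit 0x5e0000bc00017fe72300bc4) b62154 (.tok (nat_lit 3) (nat_lit 0x5e0000bc00017ef0eaffca9) (.hit (nat_lit 1) (nat_lit 1) (nat_lit 0x5e0000bc00017e6c8afe48d) b62155 (.one (nat_lit 68) (nat_lit 3) (nat_lit 5) (nat_lit 0x5e0000bc00017ef0eaffca9) b62156 (.nil))) (.tok (nat_lit 40) (nat_lit 0x5e0000bc00017f761affe54) (.hit (nat_lit 4) (nat_lit 33) (nat_lit 0x5e0000bc00017f761affe54) b62157 (.hit (nat_lit 5) (nat_lit 34) (nat_lit 0x5e0000bc00017f362aff8df) b62158 (.nil))) (.tok (nat_lit 43) (nat_lit 0x5e0000bc000180375b01b25) (.hit (nat_lit 6) (nat_lit 35) (nat_lit 0x5e0000bc00017ed8f2feb93) b62159 (.hit (nat_lit 7) (nat_lit 36) (nat_lit 0x5e0000bc000180375b01b25)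 b62160 (.nil))) (.tok (nat_lit 46) (nat_lit 0x5e0000bc00017f9cc3009a3) (.hit (nat_lit 8) (nat_lit 37) (nat_lit 0x5e0000bc00017f9cc3009a3) b62161 (.hit (nat_lit 9) (nat_lit 38) (nat_lit 0x5e0000bc00017f3c1affa72) b62162 (.nil))) (.nil)))))) (.nil))
noncomputable def r90_7 : Rw Blk := .tok (nat_lit 3) (nat_lit 0x1780002f00005fd740c02a497fc932ffc0e) (.hit (nat_lit 15) (nat_lit 0) (nat_lit 0x1780002f00005f9baebf863d7ec6fafe608) b62182 (.tok (nat_lit 9) (nat_lit 0x1780002f00005fb714bfcb217ed85afe62c) (.hit (nat_lit 16) (nat_lit 20) (nat_lit 0x1780002f00005f5fb2bf1c5d7d7ad2fba7b) b62183 (.hit (nat_lit 21) (nat_lit 28) (nat_lit 0x1780002f00005f4432bee55d7d0cd2facbb) b62186 (.one (nat_lit 56) (nat_lit 23) (nat_lit 31) (nat_lit 0x1780002f00005fb714bfcb217ed85afe62c) b62187 (.tok (nat_lit 68) (nat_lit 0x1780002f00005fb286bfc2057ec622fe3e5) (.hit (nat_lit 19) (nat_lit 26) (nat_lit 0x1780002f00005f8f48bf7b897e392afd246)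 b62184 (.hit (nat_lit 24) (nat_lit 32) (nat_lit 0x1780002f00005fa52abfa74d7e90b2fdd37) b62188 (.one (nat_lit 9) (nat_lit 20) (nat_lit 27) (nat_lit 0x1780002f00005fb286bfc2057ec622fe3e5) b62185 (.nil)))) (.nil))))) (.tok (nat_lit 64) (nat_lit 0x1780002f00005fa5febfa8f57e9402fdda1) (.hit (nat_lit 25) (nat_lit 50) (nat_lit 0x1780002f00005f922abf814d7e44b2fd3b7) b62189 (.hit (nat_lit 26) (nat_lit 51) (nat_lit 0x1780002f00005fa5febfa8f57e9402fdda1) b62190 (.nil))) (.tok (nat_lit 67) (nat_lit 0x1780002f00005fd740c02a497fc932ffc0e) (.hit (nat_lit 27) (nat_lit 52) (nat_lit 0x1780002f00005fc83cc02a497fc932ffc0e) b62191 (.one (nat_lit 3) (nat_lit 33) (nat_lit 58) (nat_lit 0x1780002f00005fa814bfad217e9c5afdeac) b62197 (.tok (nat_lit 9) (nat_lit 0x1780002f00005fd740bfed097f1c2aff1cf) (.hit (nat_lit 28) (nat_lit 53) (nat_lit 0x1780002f00005fa8c2bfae7d7ed82afefaa) b62192 (.hit (nat_lit 31)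 (nat_lit 56) (nat_lit 0x1780002f00005faa76bfb1e57ea5e2fdfdd) b62195 (.tok (nat_lit 67) (nat_lit 0x1780002f00005fd740bfed097f1c2aff1cf) (.hit (nat_lit 29) (nat_lit 54) (nat_lit 0x1780002f00005fd740bfed097f1c2aff1cf) b62193 (.hit (nat_lit 32) (nat_lit 57) (nat_lit 0x1780002f00005fc2bcbfe2717f06fafec00) b62196 (.one (nat_lit 9) (nat_lit 30) (nat_lit 55) (nat_lit 0x1780002f00005fbfb2bfdc5d7efad2fea7b) b62194 (.nil)))) (.nil)))) (.nil)))) (.one (nat_lit 70) (nat_lit 35) (nat_lit 60) (nat_lit 0x1780002f00005fafb0bfbc597ebacafe27a) b62198 (.nil)))))) (.tok (nat_lit 6) (nat_lit 0x1780002f0000605a56c0a715817a9302907) (.hit (nat_lit 0) (nat_lit 0) (nat_lit 0x1780002f00005fe92ec015157ff18aff839) b62171 (.tok (nat_lit 6) (nat_lit 0x1780002f00005fc54cbfd02d7f834afec8c) (.hit (nat_lit 1) (nat_lit 7) (nat_lit 0x1780002f00005fc54cbfa50d7f143afeba3) b62172 (.hit (nat_lit 4) (nat_lit 15) (nat_lit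 0x1780002f00005fb59abf86bd7f030afe05d) b62173 (.one (nat_lit 68) (nat_lit 6) (nat_lit 18) (nat_lit 0x1780002f00005fafcabfd02d7f834afec8c) b62174 (.nil)))) (.tok (nat_lit 52) (nat_lit 0x1780002f00005fe1dabfe92d7fa5a2fefd3) (.hit (nat_lit 7) (nat_lit 39) (nat_lit 0x1780002f00005fd9f4bfe92d7fa5a2fefd3) b62175 (.hit (nat_lit 8) (nat_lit 40) (nat_lit 0x1780002f00005fe1dabfab8d7f7f1afe74a) b62176 (.nil))) (.tok (nat_lit 55) (nat_lit 0x1780002f0000605a56c0a715817a9302907) (.hit (nat_lit 9) (nat_lit 41) (nat_lit 0x1780002f0000605a56c0a715817a9302455) b62177 (.one (nat_lit 3) (nat_lit 12) (nat_lit 47) (nat_lit 0x1780002f00006055eac083ed816eb302907) b62180 (.tok (nat_lit 6) (nat_lit 0x1780002f0000600a50c047d180940b005a9) (.hit (nat_lit 10) (nat_lit 42) (nat_lit 0x1780002f0000600a50c047d180940b005a9) b62178 (.hit (nat_lit 11) (nat_lit 45) (nat_lit 0x1780002f00005fe562bfc8b17fb572fef32) b62179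 (.nil))) (.nil)))) (.one (nat_lit 58) (nat_lit 14) (nat_lit 49) (nat_lit 0x1780002f00005fed1ec008e5801eb2ffb11) b62181 (.nil)))))) (.nil))
noncomputable def r90_8 : Rw Blk := .tok (nat_lit 3) (nat_lit 0x5e0000bc00017f7d1aff595) (.hit (nat_lit 15) (nat_lit 0) (nat_lit 0x5e0000bc00017e78a2fe6ed) b62210 (.tok (nat_lit 9) (nat_lit 0x5e0000bc00017e8ab2fe014) (.hit (nat_lit 16) (nat_lit 20) (nat_lit 0x5e0000bc00017da05afc2c9) b62211 (.hit (nat_lit 21) (nat_lit 28) (nat_lit 0x5e0000bc00017d1edafb299) b62214 (.one (nat_lit 56) (nat_lit 23) (nat_lit 31) (nat_lit 0x5e0000bc00017e1f1afd2a1) b62215 (.tok (nat_lit 68) (nat_lit 0x5e0000bc00017e8ab2fe014) (.hit (nat_lit 19) (nat_lit 26) (nat_lit 0x5e0000bc00017e0772fcfac) b62212 (.hit (nat_lit 24) (nat_lit 32) (nat_lit 0x5e0000bc00017e23fafd33d) b62216 (.one (nat_lit 9) (nat_lit 20) (nat_lit 27) (nat_lit 0x5e0000bc00017e8ab2fe014) b62213 (.nil))))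 (.nil))))) (.tok (nat_lit 64) (nat_lit 0x5e0000bc00017e5ed2fda98) (.hit (nat_lit 25) (nat_lit 50) (nat_lit 0x5e0000bc00017e4a7afd80d) b62217 (.hit (nat_lit 26) (nat_lit 51) (nat_lit 0x5e0000bc00017e5ed2fda98) b62218 (.nil))) (.tok (nat_lit 67) (nat_lit 0x5e0000bc00017f7d1aff595) (.hit (nat_lit 27) (nat_lit 52) (nat_lit 0x5e0000bc00017f3142ff595) b62219 (.one (nat_lit 3) (nat_lit 33) (nat_lit 58) (nat_lit 0x5e0000bc00017e7feafdebb) b62225 (.tok (nat_lit 9) (nat_lit 0x5e0000bc00017f7d1afefca) (.hit (nat_lit 28) (nat_lit 53) (nat_lit 0x5e0000bc00017e993afef7c) b62220 (.hit (nat_lit 31) (nat_lit 56) (nat_lit 0x5e0000bc00017e6412fdb40) b62223 (.tok (nat_lit 67) (nat_lit 0x5e0000bc00017f7d1afefca) (.hit (nat_lit 29) (nat_lit 54) (nat_lit 0x5e0000bc00017f7d1afefca) b62221 (.hit (nat_lit 32) (nat_lit 57) (nat_lit 0x5e0000bc00017e71a2fdcf2) b62224 (.one (nat_lit 9) (nat_lit 30) (nat_lit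 55) (nat_lit 0x5e0000bc00017ee34afeb27) b62222 (.nil)))) (.nil)))) (.nil)))) (.one (nat_lit 70) (nat_lit 35) (nat_lit 60) (nat_lit 0x5e0000bc00017eb4f2fe55c) b62226 (.nil)))))) (.tok (nat_lit 6) (nat_lit 0x5e0000bc00018069db0167a) (.hit (nat_lit 0) (nat_lit 0) (nat_lit 0x5e0000bc00017ee3f2fecc4) b62199 (.tok (nat_lit 6) (nat_lit 0x5e0000bc00017ee40afe43d) (.hit (nat_lit 1) (nat_lit 7) (nat_lit 0x5e0000bc00017eb3f2fdc8d) b62200 (.hit (nat_lit 4) (nat_lit 15) (nat_lit 0x5e0000bc00017e520afc99f) b62201 (.one (nat_lit 68) (nat_lit 6) (nat_lit 18) (nat_lit 0x5e0000bc00017ee40afe43d) b62202 (.nil)))) (.tok (nat_lit 52) (nat_lit 0x5e0000bc00017f4a1aff0c2) (.hit (nat_lit 7) (nat_lit 39) (nat_lit 0x5e0000bc00017f291aff0c2) b62203 (.hit (nat_lit 8) (nat_lit 40) (nat_lit 0x5e0000bc00017f4a1afeab9) b62204 (.nil))) (.tok (nat_lit 55) (nat_lit 0x5e0000bc00018069db0167a) (.hit (nat_lit 9) (nat_lit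 41) (nat_lit 0x5e0000bc00018069db0167a) b62205 (.one (nat_lit 3) (nat_lit 12) (nat_lit 47) (nat_lit 0x5e0000bc00018021c30066a) b62208 (.tok (nat_lit 6) (nat_lit 0x5e0000bc00017ff6caffffc) (.hit (nat_lit 10) (nat_lit 42) (nat_lit 0x5e0000bc00017ff6caffffc) b62206 (.hit (nat_lit 11) (nat_lit 45) (nat_lit 0x5e0000bc00017f9c5aff75c) b62207 (.nil))) (.nil)))) (.one (nat_lit 58) (nat_lit 14) (nat_lit 49) (nat_lit 0x5e0000bc00017f4a12fecc9) b62209 (.nil)))))) (.nil))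
noncomputable def r90_9 : Rw Blk := .tok (nat_lit 3) (nat_lit 0xbc0001780002ff5fb) (.hit (nat_lit 15) (nat_lit 0) (nat_lit 0xbc0001780002fd832) b62238 (.tok (nat_lit 6) (nat_lit 0xbc0001780002fe5e5) (.hit (nat_lit 16) (nat_lit 7) (nat_lit 0xbc0001780002fba34) b62239 (.hit (nat_lit 21) (nat_lit 15) (nat_lit 0xbc0001780002fac74) b62242 (.tok (nat_lit 56) (nat_lit 0xbc0001780002fe39e) (.hit (nat_lit 19) (nat_lit 13) (nat_lit 0xbc0001780002fd1ff) b62240 (.hit (nat_lit 24) (nat_lit 19) (nat_lit 0xbc0001780002fdcf0) b62244 (.one (nat_lit 6) (nat_lit 20) (nat_lit 14) (nat_lit 0xbc0001780002fe39e) b62241 (.nil)))) (.one (nat_lit 68) (nat_lit 23) (nat_lit 18) (nat_lit 0xbc0001780002fe5e5) b62243 (.nil))))) (.tok (nat_lit 52) (nat_lit 0xbc0001780002fdd5a) (.hit (nat_lit 25) (nat_lit 39) (nat_lit 0xbc0001780002fd370) b62245 (.hit (nat_lit 26) (nat_lit 40) (nat_lit 0xbc0001780002fdd5a) b62246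 (.nil))) (.tok (nat_lit 55) (nat_lit 0xbc0001780002ff5fb) (.hit (nat_lit 27) (nat_lit 41) (nat_lit 0xbc0001780002fee79) b62247 (.one (nat_lit 3) (nat_lit 33) (nat_lit 47) (nat_lit 0xbc0001780002fde65) b62253 (.tok (nat_lit 6) (nat_lit 0xbc0001780002ff5fb) (.hit (nat_lit 28) (nat_lit 42) (nat_lit 0xbc0001780002fdebc) b62248 (.hit (nat_lit 31) (nat_lit 45) (nat_lit 0xbc0001780002fdf96) b62251 (.tok (nat_lit 55) (nat_lit 0xbc0001780002ff5fb) (.hit (nat_lit 29) (nat_lit 43) (nat_lit 0xbc0001780002ff5fb) b62249 (.hit (nat_lit 32) (nat_lit 46) (nat_lit 0xbc0001780002febb9) b62252 (.one (nat_lit 6) (nat_lit 30) (nat_lit 44) (nat_lit 0xbc0001780002fea34) b62250 (.nil)))) (.nil)))) (.nil)))) (.one (nat_lit 58) (nat_lit 35) (nat_lit 49) (nat_lit 0xbc0001780002fe233) b62254 (.nil)))))) (.tok (nat_lit 9) (nat_lit 0xbc000178000303786) (.hit (nat_lit 0) (nat_lit 0) (nat_lit 0xbc0001780002ffef2)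 b62227 (.tok (nat_lit 9) (nat_lit 0xbc0001780002fed01) (.hit (nat_lit 1) (nat_lit 20) (nat_lit 0xbc0001780002fed01) b62228 (.hit (nat_lit 4) (nat_lit 28) (nat_lit 0xbc0001780002fe528) b62229 (.one (nat_lit 56) (nat_lit 6) (nat_lit 31) (nat_lit 0xbc0001780002fe240) b62230 (.nil)))) (.tok (nat_lit 64) (nat_lit 0xbc0001780002ffb48) (.hit (nat_lit 7) (nat_lit 50) (nat_lit 0xbc0001780002ff755) b62231 (.hit (nat_lit 8) (nat_lit 51) (nat_lit 0xbc0001780002ffb48) b62232 (.nil))) (.tok (nat_lit 67) (nat_lit 0xbc000178000303786) (.hit (nat_lit 9) (nat_lit 52) (nat_lit 0xbc000178000303786) b62233 (.one (nat_lit 3) (nat_lit 12) (nat_lit 58) (nat_lit 0xbc000178000303550) b62236 (.tok (nat_lit 9) (nat_lit 0xbc000178000300f83) (.hit (nat_lit 10) (nat_lit 53) (nat_lit 0xbc000178000300f83) b62234 (.hit (nat_lit 11) (nat_lit 56) (nat_lit 0xbc0001780002ffd0c) b62235 (.nil))) (.nil)))) (.one (nat_lit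 70) (nat_lit 14) (nat_lit 60) (nat_lit 0xbc0001780003000ea) b62237 (.nil)))))) (.nil))
noncomputable def r90_10 : Rw Blk := .tok (nat_lit 3) (nat_lit 0x5e0000bc00017f8962ffb83) (.hit (nat_lit 15) (nat_lit 0) (nat_lit 0x5e0000bc00017e84eafd8c3) b62266 (.tok (nat_lit 6) (nat_lit 0x5e0000bc00017e96fafe3bb) (.hit (nat_lit 16) (nat_lit 7) (nat_lit 0x5e0000bc00017daca2fc670) b62267 (.hit (nat_lit 21) (nat_lit 15) (nat_lit 0x5e0000bc00017d2b22fb640) b62270 (.tok (nat_lit 56) (nat_lit 0x5e0000bc00017e96fafe3bb) (.hit (nat_lit 19) (nat_lit 13) (nat_lit 0x5e0000bc00017e13bafd353) b62268 (.hit (nat_lit 24) (nat_lit 19) (nat_lit 0x5e0000bc00017e3042fd6e4) b62272 (.one (nat_lit 6) (nat_lit 20) (nat_lit 14) (nat_lit 0x5e0000bc00017e96fafe3bb) b62269 (.nil)))) (.one (nat_lit 68) (nat_lit 23) (nat_lit 18) (nat_lit 0x5e0000bc00017e2b62fd648) b62271 (.nil))))) (.tok (nat_lit 52) (nat_lit 0x5e0000bc00017e6b1afde3f)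 (.hit (nat_lit 25) (nat_lit 39) (nat_lit 0x5e0000bc00017e56c2fdbb4) b62273 (.hit (nat_lit 26) (nat_lit 40) (nat_lit 0x5e0000bc00017e6b1afde3f) b62274 (.nil))) (.tok (nat_lit 55) (nat_lit 0x5e0000bc00017f8962ffb83) (.hit (nat_lit 27) (nat_lit 41) (nat_lit 0x5e0000bc00017f3d8afed46) b62275 (.one (nat_lit 3) (nat_lit 33) (nat_lit 47) (nat_lit 0x5e0000bc00017e8c32fe262) b62281 (.tok (nat_lit 6) (nat_lit 0x5e0000bc00017f8962ffb83) (.hit (nat_lit 28) (nat_lit 42) (nat_lit 0x5e0000bc00017ea582fe2b2) b62276 (.hit (nat_lit 31) (nat_lit 45) (nat_lit 0x5e0000bc00017e705afdee7) b62279 (.tok (nat_lit 55) (nat_lit 0x5e0000bc00017f8962ffb83) (.hit (nat_lit 29) (nat_lit 43) (nat_lit 0x5e0000bc00017f8962ffb83) b62277 (.hit (nat_lit 32) (nat_lit 46) (nat_lit 0x5e0000bc00017e7deafe099) b62280 (.one (nat_lit 6) (nat_lit 30) (nat_lit 44) (nat_lit 0x5e0000bc00017eef92feece) b62278 (.nil)))) (.nil))))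 (.nil)))) (.one (nat_lit 58) (nat_lit 35) (nat_lit 49) (nat_lit 0x5e0000bc00017ec13afe903) b62282 (.nil)))))) (.tok (nat_lit 9) (nat_lit 0x5e0000bc00018076230172e) (.hit (nat_lit 0) (nat_lit 0) (nat_lit 0x5e0000bc00017ef03afe681) b62255 (.tok (nat_lit 9) (nat_lit 0x5e0000bc00017ef052fe5a6) (.hit (nat_lit 1) (nat_lit 20) (nat_lit 0x5e0000bc00017ec03afdd2e) b62256 (.hit (nat_lit 4) (nat_lit 28) (nat_lit 0x5e0000bc00017e5e52fcbfe) b62257 (.one (nat_lit 56) (nat_lit 6) (nat_lit 31) (nat_lit 0x5e0000bc00017ef052fe5a6) b62258 (.nil)))) (.tok (nat_lit 64) (nat_lit 0x5e0000bc00017f5662ff157) (.hit (nat_lit 7) (nat_lit 50) (nat_lit 0x5e0000bc00017f3562ff157) b62259 (.hit (nat_lit 8) (nat_lit 51) (nat_lit 0x5e0000bc00017f5662fed5d) b62260 (.nil))) (.tok (nat_lit 67) (nat_lit 0x5e0000bc00018076230172e) (.hit (nat_lit 9) (nat_lit 52) (nat_lit 0x5e0000bc00018076230172e) b62261 (.one (nat_lit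 3) (nat_lit 12) (nat_lit 58) (nat_lit 0x5e0000bc0001802e0b00a9b) b62264 (.tok (nat_lit 9) (nat_lit 0x5e0000bc0001800312ffc0b) (.hit (nat_lit 10) (nat_lit 53) (nat_lit 0x5e0000bc0001800312ffc0b) b62262 (.hit (nat_lit 11) (nat_lit 56) (nat_lit 0x5e0000bc00017fa8a2ff770) b62263 (.nil))) (.nil)))) (.one (nat_lit 70) (nat_lit 14) (nat_lit 60) (nat_lit 0x5e0000bc00017f565afea36) b62265 (.nil)))))) (.nil))
noncomputable def r90_11 : Rw Blk := .tok (nat_lit 3) (nat_lit 0xc0000180000300000600000c0000180000300000600000c0000180000300000600000c0000180000300000) (.hit (nat_lit 0) (nat_lit 0) (nat_lit 0xbf79397f3912fe4535fc66abf680d7f19c2fe2105fc316bf8ed97f3012fdafc5fabccbf7d517f3d12fe221) b62283 (.tok (nat_lit 14) (nat_lit 0xbfcc817fe65affd59600000c00001800002ffa885ffc6abfefc580000300000600000c0000180000300000) (.hit (nat_lit 41) (nat_lit 61) (nat_lit 0xbfcc297fe65affd595ff220bfc3717fdca2ff6585ff154bfecdd7feb12ffca55ff988bff7a97fce8affcf4)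 b62284 (.one (nat_lit 3) (nat_lit 42) (nat_lit 62) (nat_lit 0xbf91097f4a0aff7f55fd95ebf90117f7c1afea475fd932bfb5417f44a2fe8d85fafacbf7dd17ef2aafeda6) b62285 (.tok (nat_lit 6) (nat_lit 0xbfcc817fbb42ff666600000c00001800002ffa885ffc6abfefc580000300000600000c0000180000300000) (.hit (nat_lit 45) (nat_lit 65) (nat_lit 0xbfcc817fbb42ff666600000c00001800002ffa885ffc6abfefc580000300000600000c0000180000300000) b62288 (.hit (nat_lit 46) (nat_lit 66) (nat_lit 0xbf8e297f444afef8f5fd7eebf8d317f765afe98f5fd7c2bfb2617f3ee2fe8205fae3cbf95057f20b2ff381) b62289 (.nil))) (.tok (nat_lit 9) (nat_lit 0xbfcc817fbb42ff6665ff4a4bfbc297ff782fe9da5fd858bfb38d7f413afe86b5faed2bf71657ef2dafed19) (.hit (nat_lit 43) (nat_lit 63) (nat_lit 0xbfcc817fbb42ff6665ff4a4bfbc297ff782fe9da5fd858bfb38d7f413afe86b5faed2bf71657ee532fed19) b62286 (.hit (nat_lit 44) (nat_lit 64) (nat_lit 0xbf8e297f444afef8f5fd7eebf8d317f765afe98f5fd7c2bfb2617f3ee2fe8205fae3cbf707d7ef2dafea48)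 b62287 (.nil))) (.nil))))) (.one (nat_lit 17) (nat_lit 47) (nat_lit 67) (nat_lit 0xbf54c97ed18afe9b55fbb3ebf53d17f039afdb375fbb12bf79017ecc22fd9c85f918cbf9b957f3262fed7d) b62290 (.tok (nat_lit 20) (nat_lit 0xbf73557f0ea2ff4095fca84bf725d7f40b2fe2da5fca58bf978d7f093afe16b5fa0d2bf68f57ed5eafea3d) (.hit (nat_lit 48) (nat_lit 68) (nat_lit 0xbf73557f0ea2ff4095fca84bf725d7f40b2fe2da5fca58bf978d7f093afe16b5fa0d2bf55657ead32fea3d) b62291 (.hit (nat_lit 49) (nat_lit 69) (nat_lit 0xbf43657eaec2fe4fa5fb28cbf426d7ee0d2fd6de5fb260bf679d7ea95afd56f5f88dabf68f57ed5eafe01d) b62292 (.nil))) (.tok (nat_lit 23) (nat_lit 0xbf73557f0ea2ff4095fca84bf725d7f40b2fe2da5fca58bf978d7f093afe16b5fa0d2bfc5957f8c22ff5f0) (.hit (nat_lit 50) (nat_lit 70) (nat_lit 0xbf73557f0ea2ff4095fca84bf725d7f40b2fe2da5fca58bf978d7f093afe16b5fa0d2bfc5957f8c22ff5f0) b62293 (.hit (nat_lit 51) (nat_lit 71) (nat_lit 0xbf43657eaec2fe4fa5fb28cbf426d7ee0d2fd6de5fb260bf679d7ea95afd56f5f88dabf90457f12a2fe6de)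 b62294 (.nil))) (.one (nat_lit 38) (nat_lit 56) (nat_lit 76) (nat_lit 0xbf72757f0ce2fdd125fca14bf717d7f3ef2fe2a25fc9e8bf96ad7f077afe1335fa062bf6d217ecc5afde15) b62295 (.tok (nat_lit 41) (nat_lit 0xbf43b57eaf62ff0345fb2b4bf42bd7ee172fd6f25fb288bf67ed7ea9fafd5835f8902bf70ed7ed3cafe6d3) (.hit (nat_lit 57) (nat_lit 77) (nat_lit 0xbeec757e00e2fdf235f8714beeb7d7e32f2fc1225f86e8bf10ad7dfb7afbfb35f5d62bf4c117e3d02fd666) b62296 (.hit (nat_lit 58) (nat_lit 78) (nat_lit 0xbf43b57eaf62ff0345fb2b4bf42bd7ee172fd6f25fb288bf67ed7ea9fafd5835f8902bf70ed7ed3cafe6d3) b62297 (.nil))) (.tok (nat_lit 44) (nat_lit 0xbf2f797e86eafe18f5fa896bf2e817eb8fafd1e35fa86abf53b17e8182fd0745f7ee4bf88c57f03a2fe6a8) (.hit (nat_lit 59) (nat_lit 79) (nat_lit 0xbf04bd7e3172fe18f5f9338bf03c57e6382fc7345f930cbf28f57e2c0afc5c55f6986bee6cd7dd002fe6a8) b62298 (.hit (nat_lit 60) (nat_lit 80) (nat_lit 0xbf2f797e86eafe06d5fa896bf2e817eb8fafd1e35fa86abf53b17e8182fd0745f7ee4bf88c57f03a2fe56d)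 b62299 (.nil))) (.tok (nat_lit 47) (nat_lit 0xbf2f797e86eafe18f5fa896bf2e817eb8fafd1e35fa86abf53b17e8182fd0745f7ee4bf8b797f090afe740) (.hit (nat_lit 61) (nat_lit 81) (nat_lit 0xbf04bd7e3172fe18f5f9338bf03c57e6382fc7345f930cbf28f57e2c0afc5c55f6986bf51257eeb42fe740) b62300 (.hit (nat_lit 62) (nat_lit 82) (nat_lit 0xbf2f797e86eafe06d5fa896bf2e817eb8fafd1e35fa86abf53b17e8182fd0745f7ee4bf8b797f090afe5ab) b62301 (.nil))) (.one (nat_lit 50) (nat_lit 63) (nat_lit 83) (nat_lit 0xbf60597ee8aafe3175fc106bf5f617f1abafde1b5fc0dabf84917ee342fdcac5f9754bf5f197eb04afe3be) b62302 (.tok (nat_lit 53) (nat_lit 0xbf81497f2a8afeb125fd17ebf80517f5c9afe6575fd152bfa5817f2522fe4e85fa7ccbf91f17ed6d2ff416) (.hit (nat_lit 64) (nat_lit 84) (nat_lit 0xbf81497f2a8afeb125fd17ebf80517f5c9afe6575fd152bfa5817f2522fe4e85fa7ccbf91f17ed6d2ff416) b62303 (.hit (nat_lit 65) (nat_lit 85) (nat_lit 0xbf418d7eab12fe9f25fb1a0bf40957edd22fd6685fb174bf65c57ea5aafd4f95f87eebf26397e6a42fd6fa)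 b62304 (.nil))) (.tok (nat_lit 56) (nat_lit 0xc00001800003000005ff58abfb0817fd642ffb015ff4f2bfe3697fad02fef9e5fbe12bf989d7f565aff83d) (.hit (nat_lit 66) (nat_lit 86) (nat_lit 0xc00001800002ffd6c5ff11abfb0817fc54affb015ff4f2bfe3697fad02fef9e5fbe12bf989d7f565aff49a) b62305 (.one (nat_lit 3) (nat_lit 70) (nat_lit 90) (nat_lit 0xbf69a97efb4affc715fc5aebf68b17f2d5afe06f5fc582bf8de17ef5e2fdf005f9bfcbf4bb97e99daff1a6) b62309 (.tok (nat_lit 6) (nat_lit 0xbfd1f57fe3c3000005ff58abfac517fd642fefb75fe412bfcb017f7022fee485fba8cbf89117f265aff39c) (.hit (nat_lit 68) (nat_lit 88) (nat_lit 0xbfd1f57fe3c3000005ff58abfac517fd642fefb75fe412bfcb017f7022fee485fba8cbf89117f265aff39c) b62307 (.hit (nat_lit 69) (nat_lit 89) (nat_lit 0xbf5d657ee2c2ff2105fbf8cbf5c6d7f14d2fdd5e5fbf60bf819d7edd5afdbef5f95dabf3f757e8152fec0a) b62308 (.nil))) (.one (nat_lit 9) (nat_lit 67) (nat_lit 87) (nat_lit 0xbfa0f17f69daffb375fe152bf9ff97f9beafee415fe126bfc5297f6472fecd25fb7a0bf83017f086aff83d)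 b62306 (.nil))))) (.one (nat_lit 59) (nat_lit 71) (nat_lit 91) (nat_lit 0xbf06a17e353afdef35f942abf05a97e674afc7ad5f93febf2ad97e2fd2fc63e5f6a78bf75c57edda2fe040) b62310 (.one (nat_lit 62) (nat_lit 72) (nat_lit 92) (nat_lit 0xbf60597ee8aafe3175fc106bf5f617f1abafde1b5fc0dabf84917ee342fdcac5f9754bf5da97ead6afe3be) b62311 (.tok (nat_lit 65) (nat_lit 0xbf81497f2a8afeb125fd17ebf80517f5c9afe6575fd152bfa5817f2522fe4e85fa7ccbfb0b97f186aff0bf) (.hit (nat_lit 73) (nat_lit 93) (nat_lit 0xbf81497f2a8afeb125fd17ebf80517f5c9afe6575fd152bfa5817f2522fe4e85fa7ccbfb0b97f186aff0bf) b62312 (.hit (nat_lit 74) (nat_lit 94) (nat_lit 0xbf418d7eab12fe9f25fb1a0bf40957edd22fd6685fb174bf65c57ea5aafd4f95f87eebf82417ef69afe37f) b62313 (.nil))) (.tok (nat_lit 68) (nat_lit 0xc00001800003000005ff5b8bfcb357fd64b00000600000c000017ffefafee485fe524bfc0fd7fbb8affb59) (.hit (nat_lit 75) (nat_lit 95) (nat_lit 0xc00001800002ffd6c5ff180bfca757fc57b00000600000bfda897fe5d2fe92d5fcd04bf98b57fbb8aff482)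 b62314 (.one (nat_lit 3) (nat_lit 79) (nat_lit 99) (nat_lit 0xbf69a97efb4affc715fc5aebf68b17f2d5afe06f5fc582bf8de17ef5e2fdf005f9bfcbf8fe97f0612fef95) b62318 (.one (nat_lit 6) (nat_lit 76) (nat_lit 96) (nat_lit 0xbfa0f17f69daffb375fe152bf9ff97f9beafee415fe126bfc5297f6472fecd25fb7a0bfb8217f5f5aff99c) b62315 (.tok (nat_lit 9) (nat_lit 0xbfd1f57fe3c3000005ff5b8bfcb357fd64aff54e5ff20ac000017ffefafee485fe524bfc0fd7fa962ffb59) (.hit (nat_lit 77) (nat_lit 97) (nat_lit 0xbfd1f57fe3c3000005ff5b8bfcb357fd64aff54e5ff20ac000017ffefafee485fe524bfc0fd7fa962ffb59) b62316 (.hit (nat_lit 78) (nat_lit 98) (nat_lit 0xbf5d657ee2c2ff2105fbf8cbf5c6d7f14d2fdd5e5fbf60bf819d7edd5afdbef5f95dabf72497edb3afed38) b62317 (.nil))) (.nil))))) (.one (nat_lit 71) (nat_lit 80) (nat_lit 100) (nat_lit 0xbf06a17e353afdef35f942abf05a97e674afc7ad5f93febf2ad97e2fd2fc63e5f6a78bf6e017ece1afde4d) b62319 (.nil))))))))))))))))))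 (.nil)
noncomputable def r90_12 : Rw Blk := .tok (nat_lit 14) (nat_lit 0x5e0000bc00017e736afdda3) (.hit (nat_lit 108) (nat_lit 0) (nat_lit 0x5e0000bc00017e57a2fdda3) b62324 (.one (nat_lit 3) (nat_lit 109) (nat_lit 1) (nat_lit 0x5e0000bc00017dada2fbdff) b62325 (.tok (nat_lit 6) (nat_lit 0x5e0000bc00017e736afd6b8) (.hit (nat_lit 110) (nat_lit 7) (nat_lit 0x5e0000bc00017e6a12fd58d) b62326 (.hit (nat_lit 111) (nat_lit 15) (nat_lit 0x5e0000bc00017e736afd6b8) b62327 (.nil))) (.tok (nat_lit 9) (nat_lit 0x5e0000bc00017e736afd6b8) (.hit (nat_lit 112) (nat_lit 20) (nat_lit 0x5e0000bc00017e6a12fd58d) b62326 (.hit (nat_lit 113) (nat_lit 28) (nat_lit 0x5e0000bc00017e736afd6b8) b62327 (.nil))) (.nil))))) (.tok (nat_lit 17) (nat_lit 0x5e0000bc00017eff7aff363) (.hit (nat_lit 102) (nat_lit 0) (nat_lit 0x5e0000bc00017eff7aff363) b62320 (.one (nat_lit 3) (nat_lit 103) (nat_lit 1) (nat_lit 0x5e0000bc00017db7fafbf4a)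 b62321 (.tok (nat_lit 6) (nat_lit 0x5e0000bc00017eebd2fe5c5) (.hit (nat_lit 104) (nat_lit 7) (nat_lit 0x5e0000bc00017e41aafd080) b62322 (.hit (nat_lit 105) (nat_lit 15) (nat_lit 0x5e0000bc00017eebd2fe5c5) b62323 (.nil))) (.tok (nat_lit 9) (nat_lit 0x5e0000bc00017eebd2fe5c5) (.hit (nat_lit 106) (nat_lit 20) (nat_lit 0x5e0000bc00017e41aafd080) b62322 (.hit (nat_lit 107) (nat_lit 28) (nat_lit 0x5e0000bc00017eebd2fe5c5) b62323 (.nil))) (.nil))))) (.tok (nat_lit 20) (nat_lit 0x5e0000bc00017f5b2affe45) (.hit (nat_lit 120) (nat_lit 0) (nat_lit 0x5e0000bc00017f5b2affe45) b62334 (.one (nat_lit 3) (nat_lit 121) (nat_lit 1) (nat_lit 0x5e0000bc00017ef9daff1fd) b62335 (.tok (nat_lit 6) (nat_lit 0x5e0000bc00017f0ccafe9e4) (.hit (nat_lit 122) (nat_lit 7) (nat_lit 0x5e0000bc00017e85dafd906) b62332 (.hit (nat_lit 123) (nat_lit 15) (nat_lit 0x5e0000bc00017f0ccafe9e4) b62336 (.nil))) (.tok (nat_lit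 9) (nat_lit 0x5e0000bc00017f2c72ff82f) (.hit (nat_lit 124) (nat_lit 20) (nat_lit 0x5e0000bc00017f2c72ff82f) b62337 (.hit (nat_lit 125) (nat_lit 28) (nat_lit 0x5e0000bc00017f15eaff59d) b62338 (.nil))) (.nil))))) (.tok (nat_lit 23) (nat_lit 0x5e0000bc00017f5b2affc64) (.hit (nat_lit 114) (nat_lit 0) (nat_lit 0x5e0000bc00017f5b2affc64) b62328 (.one (nat_lit 3) (nat_lit 115) (nat_lit 1) (nat_lit 0x5e0000bc00017ef9dafed5f) b62329 (.tok (nat_lit 6) (nat_lit 0x5e0000bc00017f2c72ff88b) (.hit (nat_lit 116) (nat_lit 7) (nat_lit 0x5e0000bc00017f2c72ff88b) b62330 (.hit (nat_lit 117) (nat_lit 15) (nat_lit 0x5e0000bc00017f15eaff584) b62331 (.nil))) (.tok (nat_lit 9) (nat_lit 0x5e0000bc00017f0ccaff476) (.hit (nat_lit 118) (nat_lit 20) (nat_lit 0x5e0000bc00017e85dafd906) b62332 (.hit (nat_lit 119) (nat_lit 28) (nat_lit 0x5e0000bc00017f0ccaff476) b62333 (.nil))) (.nil))))) (.tok (nat_lit 38) (nat_lit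 0x5e0000bc00017f67f2ff27e) (.hit (nat_lit 126) (nat_lit 0) (nat_lit 0x5e0000bc00017f67f2ff27e) b62339 (.one (nat_lit 3) (nat_lit 127) (nat_lit 1) (nat_lit 0x5e0000bc00017dae82fbe1b) b62340 (.tok (nat_lit 6) (nat_lit 0x5e0000bc00017e6362fd4b7) (.hit (nat_lit 128) (nat_lit 7) (nat_lit 0x5e0000bc00017e6362fd4b7) b62341 (.hit (nat_lit 129) (nat_lit 15) (nat_lit 0x5e0000bc00017dfcd2fc7e5) b62342 (.nil))) (.tok (nat_lit 9) (nat_lit 0x5e0000bc00017e6362fd4b7) (.hit (nat_lit 130) (nat_lit 20) (nat_lit 0x5e0000bc00017e6362fd4b7) b62341 (.hit (nat_lit 131) (nat_lit 28) (nat_lit 0x5e0000bc00017dfcd2fc7e5) b62342 (.nil))) (.nil))))) (.tok (nat_lit 41) (nat_lit 0x5e0000bc00017fb532fff58) (.hit (nat_lit 132) (nat_lit 0) (nat_lit 0x5e0000bc00017f3b1aff4a9) b62343 (.one (nat_lit 3) (nat_lit 133) (nat_lit 1) (nat_lit 0x5e0000bc00017ef95afe95b) b62344 (.tok (nat_lit 6) (nat_lit 0x5e0000bc00017fb532ff75f)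 (.hit (nat_lit 134) (nat_lit 7) (nat_lit 0x5e0000bc00017fb532ff75f) b62345 (.hit (nat_lit 135) (nat_lit 15) (nat_lit 0x5e0000bc00017f0f82fec19) b62346 (.nil))) (.tok (nat_lit 9) (nat_lit 0x5e0000bc00017fb532fff58) (.hit (nat_lit 136) (nat_lit 20) (nat_lit 0x5e0000bc00017fb532fff58) b62347 (.hit (nat_lit 137) (nat_lit 28) (nat_lit 0x5e0000bc00017f0f82fec39) b62348 (.nil))) (.nil))))) (.tok (nat_lit 44) (nat_lit 0x5e0000bc000180000300491) (.hit (nat_lit 144) (nat_lit 0) (nat_lit 0x5e0000bc00017f884b0032c) b62355 (.one (nat_lit 3) (nat_lit 145) (nat_lit 1) (nat_lit 0x5e0000bc00017ec9c2fe38e) b62350 (.tok (nat_lit 6) (nat_lit 0x5e0000bc00017fa8fb001a9) (.hit (nat_lit 146) (nat_lit 7) (nat_lit 0x5e0000bc00017fa8fb001a9) b62356 (.hit (nat_lit 147) (nat_lit 15) (nat_lit 0x5e0000bc00017f1b72fedd0) b62357 (.nil))) (.tok (nat_lit 9) (nat_lit 0x5e0000bc000180000300491) (.hit (nat_lit 148)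 (nat_lit 20) (nat_lit 0x5e0000bc000180000300491) b62358 (.hit (nat_lit 149) (nat_lit 28) (nat_lit 0x5e0000bc00017f5c0aff1d7) b62359 (.nil))) (.nil))))) (.tok (nat_lit 47) (nat_lit 0x5e0000bc000180000300db5) (.hit (nat_lit 138) (nat_lit 0) (nat_lit 0x5e0000bc00017f884b0031c) b62349 (.one (nat_lit 3) (nat_lit 139) (nat_lit 1) (nat_lit 0x5e0000bc00017ec9c2fe38e) b62350 (.tok (nat_lit 6) (nat_lit 0x5e0000bc000180000300db5) (.hit (nat_lit 140) (nat_lit 7) (nat_lit 0x5e0000bc000180000300db5) b62351 (.hit (nat_lit 141) (nat_lit 15) (nat_lit 0x5e0000bc00017f5c0aff5f7) b62352 (.nil))) (.tok (nat_lit 9) (nat_lit 0x5e0000bc00017fa8faffdc2) (.hit (nat_lit 142) (nat_lit 20) (nat_lit 0x5e0000bc00017fa8faffdc2) b62353 (.hit (nat_lit 143) (nat_lit 28) (nat_lit 0x5e0000bc00017f1b72fecb2) b62354 (.nil))) (.nil))))) (.tok (nat_lit 50) (nat_lit 0x5e0000bc00017edde2fe4ad) (.hit (nat_lit 219) (nat_lit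 0) (nat_lit 0x5e0000bc00017edde2fe4ad) b62379 (.one (nat_lit 3) (nat_lit 220) (nat_lit 1) (nat_lit 0x5e0000bc00017db242fbe93) b62361 (.tok (nat_lit 6) (nat_lit 0x5e0000bc00017ed0aafe260) (.hit (nat_lit 221) (nat_lit 7) (nat_lit 0x5e0000bc00017ed0aafe260) b62364 (.hit (nat_lit 222) (nat_lit 15) (nat_lit 0x5e0000bc00017df09afc65e) b62363 (.nil))) (.tok (nat_lit 9) (nat_lit 0x5e0000bc00017e87f2fd949) (.hit (nat_lit 223) (nat_lit 20) (nat_lit 0x5e0000bc00017e87f2fd949) b62362 (.hit (nat_lit 224) (nat_lit 28) (nat_lit 0x5e0000bc00017df09afc65e) b62363 (.nil))) (.nil))))) (.tok (nat_lit 53) (nat_lit 0x5e0000bc00017f9a0affd27) (.hit (nat_lit 230) (nat_lit 0) (nat_lit 0x5e0000bc00017efdb2febf4) b62380 (.one (nat_lit 3) (nat_lit 231) (nat_lit 1) (nat_lit 0x5e0000bc00017efc7afe809) b62381 (.tok (nat_lit 6) (nat_lit 0x5e0000bc00017f9a0affd27) (.hit (nat_lit 232) (nat_lit 7) (nat_lit 0x5e0000bc00017f9a0affd27)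 b62382 (.hit (nat_lit 233) (nat_lit 15) (nat_lit 0x5e0000bc00017f3aaaff7b5) b62383 (.nil))) (.tok (nat_lit 9) (nat_lit 0x5e0000bc00017f0ccaff0e9) (.hit (nat_lit 234) (nat_lit 20) (nat_lit 0x5e0000bc00017edd9afe3fe) b62367 (.hit (nat_lit 235) (nat_lit 28) (nat_lit 0x5e0000bc00017f0ccaff0e9) b62384 (.nil))) (.nil))))) (.tok (nat_lit 56) (nat_lit 0x5e0000bc00017f04a2fe8df) (.hit (nat_lit 258) (nat_lit 0) (nat_lit 0x5e0000bc00017eb75afdfcc) b62386 (.one (nat_lit 3) (nat_lit 259) (nat_lit 1) (nat_lit 0x5e0000bc00017dada2fbdff) b62325 (.tok (nat_lit 6) (nat_lit 0x5e0000bc00017e85dafd906) (.hit (nat_lit 260) (nat_lit 7) (nat_lit 0x5e0000bc00017e85dafd906) b62332 (.hit (nat_lit 261) (nat_lit 15) (nat_lit 0x5e0000bc00017db912fbf6d) b62378 (.nil))) (.tok (nat_lit 9) (nat_lit 0x5e0000bc00017f04a2fe8df) (.hit (nat_lit 262) (nat_lit 20) (nat_lit 0x5e0000bc00017e87f2fd949) b62362 (.hit (nat_lit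 263) (nat_lit 28) (nat_lit 0x5e0000bc00017f04a2fe8df) b62377 (.nil))) (.nil))))) (.tok (nat_lit 59) (nat_lit 0x5e0000bc00017f28d2feedf) (.hit (nat_lit 244) (nat_lit 0) (nat_lit 0x5e0000bc00017f28d2feedf) b62385 (.one (nat_lit 3) (nat_lit 245) (nat_lit 1) (nat_lit 0x5e0000bc00017db7fafbf4a) b62321 (.tok (nat_lit 6) (nat_lit 0x5e0000bc00017f06eafe928) (.hit (nat_lit 246) (nat_lit 7) (nat_lit 0x5e0000bc00017e30eafce68) b62374 (.hit (nat_lit 247) (nat_lit 15) (nat_lit 0x5e0000bc00017f06eafe928) b62375 (.nil))) (.tok (nat_lit 9) (nat_lit 0x5e0000bc00017f1342feab3) (.hit (nat_lit 248) (nat_lit 20) (nat_lit 0x5e0000bc00017f1342feab3) b62372 (.hit (nat_lit 249) (nat_lit 28) (nat_lit 0x5e0000bc00017e1bdafcbc6) b62373 (.nil))) (.nil))))) (.tok (nat_lit 62) (nat_lit 0x5e0000bc00017edde2fe260) (.hit (nat_lit 174) (nat_lit 0) (nat_lit 0x5e0000bc00017edde2fd59c) b62360 (.one (nat_lit 3) (nat_lit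 175) (nat_lit 1) (nat_lit 0x5e0000bc00017db242fbe93) b62361 (.tok (nat_lit 6) (nat_lit 0x5e0000bc00017e87f2fd949) (.hit (nat_lit 176) (nat_lit 7) (nat_lit 0x5e0000bc00017e87f2fd949) b62362 (.hit (nat_lit 177) (nat_lit 15) (nat_lit 0x5e0000bc00017df09afc65e) b62363 (.nil))) (.tok (nat_lit 9) (nat_lit 0x5e0000bc00017ed0aafe260) (.hit (nat_lit 178) (nat_lit 20) (nat_lit 0x5e0000bc00017ed0aafe260) b62364 (.hit (nat_lit 179) (nat_lit 28) (nat_lit 0x5e0000bc00017df09afc65e) b62363 (.nil))) (.nil))))) (.tok (nat_lit 65) (nat_lit 0x5e0000bc00017f9a0aff195) (.hit (nat_lit 185) (nat_lit 0) (nat_lit 0x5e0000bc00017efdb2fe3b5) b62365 (.one (nat_lit 3) (nat_lit 186) (nat_lit 1) (nat_lit 0x5e0000bc00017efc7afda2c) b62366 (.tok (nat_lit 6) (nat_lit 0x5e0000bc00017f0ccafe9e4) (.hit (nat_lit 187) (nat_lit 7) (nat_lit 0x5e0000bc00017edd9afe3fe) b62367 (.hit (nat_lit 188) (nat_lit 15) (nat_lit 0x5e0000bc00017f0ccafe9e4)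 b62368 (.nil))) (.tok (nat_lit 9) (nat_lit 0x5e0000bc00017f9a0aff195) (.hit (nat_lit 189) (nat_lit 20) (nat_lit 0x5e0000bc00017f9a0aff195) b62369 (.hit (nat_lit 190) (nat_lit 28) (nat_lit 0x5e0000bc00017f3aaafe9b7) b62370 (.nil))) (.nil))))) (.tok (nat_lit 68) (nat_lit 0x5e0000bc00017f04a2fe8df) (.hit (nat_lit 213) (nat_lit 0) (nat_lit 0x5e0000bc00017eb75afd6ba) b62376 (.one (nat_lit 3) (nat_lit 214) (nat_lit 1) (nat_lit 0x5e0000bc00017dada2fbdff) b62325 (.tok (nat_lit 6) (nat_lit 0x5e0000bc00017f04a2fe8df) (.hit (nat_lit 215) (nat_lit 7) (nat_lit 0x5e0000bc00017e87f2fd949) b62362 (.hit (nat_lit 216) (nat_lit 15) (nat_lit 0x5e0000bc00017f04a2fe8df) b62377 (.nil))) (.tok (nat_lit 9) (nat_lit 0x5e0000bc00017e85dafd906) (.hit (nat_lit 217) (nat_lit 20) (nat_lit 0x5e0000bc00017e85dafd906) b62332 (.hit (nat_lit 218) (nat_lit 28) (nat_lit 0x5e0000bc00017db912fbf6d) b62378 (.nil))) (.nil)))))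 (.tok (nat_lit 71) (nat_lit 0x5e0000bc00017f28d2feab3) (.hit (nat_lit 199) (nat_lit 0) (nat_lit 0x5e0000bc00017f28d2fdfb7) b62371 (.one (nat_lit 3) (nat_lit 200) (nat_lit 1) (nat_lit 0x5e0000bc00017db7fafbf4a) b62321 (.tok (nat_lit 6) (nat_lit 0x5e0000bc00017f1342feab3) (.hit (nat_lit 201) (nat_lit 7) (nat_lit 0x5e0000bc00017f1342feab3) b62372 (.hit (nat_lit 202) (nat_lit 15) (nat_lit 0x5e0000bc00017e1bdafcbc6) b62373 (.nil))) (.tok (nat_lit 9) (nat_lit 0x5e0000bc00017f06eafe928) (.hit (nat_lit 203) (nat_lit 20) (nat_lit 0x5e0000bc00017e30eafce68) b62374 (.hit (nat_lit 204) (nat_lit 28) (nat_lit 0x5e0000bc00017f06eafe928) b62375 (.nil))) (.nil))))) (.nil))))))))))))))))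
noncomputable def r90_13 : Rw Blk := .tok (nat_lit 3) (nat_lit 0x5e0000bc00017ec9e2fd4e8) (.hit (nat_lit 0) (nat_lit 0) (nat_lit 0x5e0000bc00017ec9e2fd4da) b62387 (.tok (nat_lit 6) (nat_lit 0x5e0000bc00017e71c2fd4e8) (.hit (nat_lit 1) (nat_lit 7) (nat_lit 0x5e0000bc00017e65dafd36b) b62388 (.hit (nat_lit 2) (nat_lit 15) (nat_lit 0x5e0000bc00017e71c2fd4e8) b62389 (.nil))) (.tok (nat_lit 9) (nat_lit 0x5e0000bc00017e71c2fd4e8) (.hit (nat_lit 3) (nat_lit 20) (nat_lit 0x5e0000bc00017e65dafd36b) b62388 (.hit (nat_lit 4) (nat_lit 28) (nat_lit 0x5e0000bc00017e71c2fd4e8) b62389 (.nil))) (.nil)))) (.tok (nat_lit 6) (nat_lit 0x5e0000bc0001800002fff45) (.hit (nat_lit 5) (nat_lit 0) (nat_lit 0x5e0000bc00017f6482fe2b3) b62390 (.tok (nat_lit 3) (nat_lit 0x5e0000bc00017f912afef2b) (.hit (nat_lit 6) (nat_lit 1) (nat_lit 0x5e0000bc00017ee8bafd327) b62391 (.one (nat_lit 67) (nat_lit 7) (nat_lit 2)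 (nat_lit 0x5e0000bc00017f912afef2b) b62392 (.nil))) (.tok (nat_lit 6) (nat_lit 0x5e0000bc0001800002fff45) (.hit (nat_lit 8) (nat_lit 7) (nat_lit 0x5e0000bc00017f200afd846) b62393 (.hit (nat_lit 12) (nat_lit 15) (nat_lit 0x5e0000bc00017ec252fdcee) b62396 (.tok (nat_lit 55) (nat_lit 0x5e0000bc0001800002fff45) (.hit (nat_lit 9) (nat_lit 8) (nat_lit 0x5e0000bc0001800002fff45) b62394 (.hit (nat_lit 13) (nat_lit 16) (nat_lit 0x5e0000bc00017f979aff646) b62397 (.one (nat_lit 6) (nat_lit 10) (nat_lit 9) (nat_lit 0x5e0000bc00017fa092fec52) b62395 (.nil)))) (.nil)))) (.nil)))) (.tok (nat_lit 9) (nat_lit 0x5e0000bc000180000300b0f) (.hit (nat_lit 14) (nat_lit 0) (nat_lit 0x5e0000bc00017f6482fe77b) b62398 (.tok (nat_lit 3) (nat_lit 0x5e0000bc00017f912afe890) (.hit (nat_lit 15) (nat_lit 1) (nat_lit 0x5e0000bc00017ee8bafd53d) b62399 (.one (nat_lit 55) (nat_lit 16) (nat_lit 3) (nat_lit 0x5e0000bc00017f912afe890)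 b62400 (.nil))) (.tok (nat_lit 9) (nat_lit 0x5e0000bc000180000300b0f) (.hit (nat_lit 17) (nat_lit 20) (nat_lit 0x5e0000bc00017f200afe491) b62401 (.hit (nat_lit 21) (nat_lit 28) (nat_lit 0x5e0000bc00017ec252fdcee) b62404 (.tok (nat_lit 67) (nat_lit 0x5e0000bc000180000300b0f) (.hit (nat_lit 18) (nat_lit 21) (nat_lit 0x5e0000bc000180000300b0f) b62402 (.hit (nat_lit 22) (nat_lit 29) (nat_lit 0x5e0000bc00017f979aff466) b62405 (.one (nat_lit 9) (nat_lit 19) (nat_lit 22) (nat_lit 0x5e0000bc00017fa092ff6a5) b62403 (.nil)))) (.nil)))) (.nil)))) (.nil)))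
noncomputable def r90_14 : Rw Blk := .tok (nat_lit 3) (nat_lit 0x5e0000bc00017e9032fe6d7) (.hit (nat_lit 14) (nat_lit 0) (nat_lit 0x5e0000bc00017e9032fe6d7) b62419 (.tok (nat_lit 6) (nat_lit 0x5e0000bc00017d9792fd43f) (.hit (nat_lit 15) (nat_lit 7) (nat_lit 0x5e0000bc00017d9792fd43f) b62420 (.hit (nat_lit 16) (nat_lit 15) (nat_lit 0x5e0000bc00017cdb9afbcc0) b62421 (.nil))) (.tok (nat_lit 9) (nat_lit 0x5e0000bc00017dff72fe13b) (.hit (nat_lit 17) (nat_lit 20) (nat_lit 0x5e0000bc00017df38afdfbe) b62422 (.hit (nat_lit 18) (nat_lit 28) (nat_lit 0x5e0000bc00017dff72fe13b) b62423 (.nil))) (.nil)))) (.tok (nat_lit 6) (nat_lit 0x5e0000bc00017f085aff7e5) (.hit (nat_lit 0) (nat_lit 0) (nat_lit 0x5e0000bc00017f085aff7cc) b62406 (.tok (nat_lit 3) (nat_lit 0x5e0000bc00017e89a2ff281) (.hit (nat_lit 1) (nat_lit 1) (nat_lit 0x5e0000bc00017de072fdd5b) b62407 (.one (nat_lit 67) (nat_lit 2) (nat_lit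 2) (nat_lit 0x5e0000bc00017e89a2ff281) b62408 (.nil))) (.tok (nat_lit 6) (nat_lit 0x5e0000bc00017eb4c2ff7e5) (.hit (nat_lit 3) (nat_lit 7) (nat_lit 0x5e0000bc00017df8aafe062) b62409 (.hit (nat_lit 7) (nat_lit 15) (nat_lit 0x5e0000bc00017e220afe58e) b62412 (.tok (nat_lit 55) (nat_lit 0x5e0000bc00017eb4c2ff7e5) (.hit (nat_lit 4) (nat_lit 8) (nat_lit 0x5e0000bc00017e8642ff215) b62410 (.hit (nat_lit 8) (nat_lit 16) (nat_lit 0x5e0000bc00017eb4c2ff7e5) b62413 (.one (nat_lit 6) (nat_lit 5) (nat_lit 9) (nat_lit 0x5e0000bc00017eb272ff79b) b62411 (.nil)))) (.nil)))) (.nil)))) (.tok (nat_lit 9) (nat_lit 0x5e0000bc000180000301414) (.hit (nat_lit 9) (nat_lit 0) (nat_lit 0x5e0000bc00017efe42ff396) b62414 (.tok (nat_lit 3) (nat_lit 0x5e0000bc0001800003013ec) (.hit (nat_lit 10) (nat_lit 1) (nat_lit 0x5e0000bc00017f779afff5d) b62415 (.one (nat_lit 55) (nat_lit 11) (nat_lit 3) (nat_lit 0x5e0000bc0001800003013ec)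 b62416 (.nil))) (.tok (nat_lit 9) (nat_lit 0x5e0000bc00017fe97301414) (.hit (nat_lit 12) (nat_lit 20) (nat_lit 0x5e0000bc00017fe97301414) b62417 (.hit (nat_lit 13) (nat_lit 28) (nat_lit 0x5e0000bc00017ebd9aff65b) b62418 (.nil))) (.nil)))) (.nil)))
noncomputable def r90_15 : Rw Blk := .tok (nat_lit 3) (nat_lit 0x5e0000bc00017e9032fec34) (.hit (nat_lit 14) (nat_lit 0) (nat_lit 0x5e0000bc00017e9032fec34) b62437 (.tok (nat_lit 6) (nat_lit 0x5e0000bc00017dff72fe2fc) (.hit (nat_lit 15) (nat_lit 7) (nat_lit 0x5e0000bc00017df38afe17f) b62438 (.hit (nat_lit 16) (nat_lit 15) (nat_lit 0x5e0000bc00017dff72fe2fc) b62439 (.nil))) (.tok (nat_lit 9) (nat_lit 0x5e0000bc00017d9792fd600) (.hit (nat_lit 17) (nat_lit 20) (nat_lit 0x5e0000bc00017d9792fd600) b62440 (.hit (nat_lit 18) (nat_lit 28) (nat_lit 0x5e0000bc00017cdb9afbe81) b62441 (.nil))) (.nil)))) (.tok (nat_lit 6) (nat_lit 0x5e0000bc000180000301603)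 (.hit (nat_lit 9) (nat_lit 0) (nat_lit 0x5e0000bc00017efe42ffbcc) b62432 (.tok (nat_lit 3) (nat_lit 0x5e0000bc000180000300ef2) (.hit (nat_lit 10) (nat_lit 1) (nat_lit 0x5e0000bc00017f779aff8e4) b62433 (.one (nat_lit 67) (nat_lit 11) (nat_lit 2) (nat_lit 0x5e0000bc000180000300ef2) b62434 (.nil))) (.tok (nat_lit 6) (nat_lit 0x5e0000bc00017fe97301603) (.hit (nat_lit 12) (nat_lit 7) (nat_lit 0x5e0000bc00017fe97301603) b62435 (.hit (nat_lit 13) (nat_lit 15) (nat_lit 0x5e0000bc00017ebd9aff5a2) b62436 (.nil))) (.nil)))) (.tok (nat_lit 9) (nat_lit 0x5e0000bc00017f085affbe2) (.hit (nat_lit 0) (nat_lit 0) (nat_lit 0x5e0000bc00017f085affbe2) b62424 (.tok (nat_lit 3) (nat_lit 0x5e0000bc00017e89a2ff442) (.hit (nat_lit 1) (nat_lit 1) (nat_lit 0x5e0000bc00017de072fdf1c) b62425 (.one (nat_lit 55) (nat_lit 2) (nat_lit 3) (nat_lit 0x5e0000bc00017e89a2ff442) b62426 (.nil))) (.tok (nat_lit 9) (nat_lit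 0x5e0000bc00017eb4c2ff9a6) (.hit (nat_lit 3) (nat_lit 20) (nat_lit 0x5e0000bc00017df8aafe223) b62427 (.hit (nat_lit 7) (nat_lit 28) (nat_lit 0x5e0000bc00017e220afe74f) b62430 (.tok (nat_lit 67) (nat_lit 0x5e0000bc00017eb4c2ff9a6) (.hit (nat_lit 4) (nat_lit 21) (nat_lit 0x5e0000bc00017e8642ff3d6) b62428 (.hit (nat_lit 8) (nat_lit 29) (nat_lit 0x5e0000bc00017eb4c2ff9a6) b62431 (.one (nat_lit 9) (nat_lit 5) (nat_lit 22) (nat_lit 0x5e0000bc00017eb272ff95c) b62429 (.nil)))) (.nil)))) (.nil)))) (.nil)))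
noncomputable def r91_0 : Rw Blk := .tok (nat_lit 3) (nat_lit 0xbf6da17ed55afeb225fa60cbf9da97ea002ff3d35fc76cbfc4717f5812fef665fce1cbfa4957f43d2fec42) (.hit (nat_lit 0) (nat_lit 0) (nat_lit 0xbedaf97e106afc8a35f7f64befed97e04e2fcb955f92cebf31797e8d5afca2a5f869ebf3bc97e65dafcc00) b62442 (.tok (nat_lit 9) (nat_lit 0xbed91d7dee0afdfae5f8c0ebf14bd7e33bafcc2b5f9462bf5a5d7e6d12fc8a85f8992bf7acd7ee3c2fdbdb) (.hit (nat_lit 10) (nat_lit 20) (nat_lit 0xbe8d2d7d562afcdc25f6616bec8cd7d9bdafb92f5f6e6abf0e6d7dd532fb5ac5f639abeee197d84c2fc8e7) b62443 (.hit (nat_lit 15) (nat_lit 28) (nat_lit 0xbe83717d42b2fc24c5f6138bebf117d8862fb6c05f698cbf04b17dc1bafb33d5f5ebcbf28397e3f12fc953) b62446 (.tok (nat_lit 14) (nat_lit 0xbed91d7dee0afdfae5f8c0ebf14bd7e33bafcc2b5f9462bf5a5d7e6d12fc8a85f8992bf52f57e9412fd6cc) (.hit (nat_lit 11) (nat_lit 24) (nat_lit 0xbea79d7d8b0afd5d15f734ebee33d7dd0bafbfcb5f7ba2bf28dd7e0a12fbc485f70d2bf08897db9a2fcdd3)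 b62444 (.hit (nat_lit 16) (nat_lit 30) (nat_lit 0xbea3a97d8322fcb805f7154bedf497dc8d2fbece5f79a8bf24e97e022afbb4b5f6ed8bf52f57e9412fd2bc) b62447 (.one (nat_lit 6) (nat_lit 12) (nat_lit 25) (nat_lit 0xbed91d7dee0afdfae5f8c0ebf14bd7e33bafcc2b5f9462bf5a5d7e6d12fc8a85f8992bf3a097e1ca2fd6cc) b62445 (.nil)))) (.one (nat_lit 56) (nat_lit 17) (nat_lit 31) (nat_lit 0xbed8257dec1afd7fe5f8b92bf13c57e31cafcbed5f93e6bf59657e6b22fc86a5f8916bf7acd7ee3c2fdbdb) b62448 (.nil))))) (.tok (nat_lit 64) (nat_lit 0xbeb3697da2a2fd3e75f7934beef097de852fc2be5f8188bf34a97e21aafbf3b5f76b8bf570d7ea482fd2eb) (.hit (nat_lit 30) (nat_lit 50) (nat_lit 0xbea6c17d8952fc6a85f72e0bee2617dcf02fbf945f7b34bf28017e085afbc115f7064bf51e57e91f2fd1a1) b62449 (.hit (nat_lit 31) (nat_lit 51) (nat_lit 0xbeb3697da2a2fd3e75f7934beef097de852fc2be5f8188bf34a97e21aafbf3b5f76b8bf570d7ea482fd2eb) b62450 (.nil))) (.tok (nat_lit 67)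 (nat_lit 0xbf6da17ed55afeb225fa60cbf9da97ea002ff3d35fc76cbfc4717f5812fef665fce1cbfa4957f43d2fec42) (.hit (nat_lit 32) (nat_lit 52) (nat_lit 0xbf6da17ed55afe94a5fa60cbf9da97ea002ff3d35fc76cbfc4717f5812fef665fce1cbfa4957f43d2fe99d) b62451 (.tok (nat_lit 3) (nat_lit 0xbef5e57e279afeb225f9a72bf31857e6d4afd35d5fa2c6bf77257ea6a2fcfda5f97f6bf56d17e66d2fec42) (.hit (nat_lit 38) (nat_lit 58) (nat_lit 0xbed7497dea62fdeae5f8b24bf12e97e3012fcbb65f9378bf58897e696afc8335f88a8bf38357e2acafdd92) b62454 (.one (nat_lit 55) (nat_lit 39) (nat_lit 59) (nat_lit 0xbef5e57e279afeb225f9a72bf31857e6d4afd35d5fa2c6bf77257ea6a2fcfda5f97f6bf56d17e66d2fec42) b62455 (.nil))) (.tok (nat_lit 9) (nat_lit 0xbf023d7e6e7afdb875fa42ebf4f257e9822fd0dd5f9dc6bf6d257e92a2fcd5a5f92f6bf4cd17e4232fddb6) (.hit (nat_lit 33) (nat_lit 53) (nat_lit 0xbf023d7e6e7afdb875fa42ebf4f257e9822fd0dd5f9dc6bf6d257e92a2fcd5a5f92f6bf4cd17e4232fddb6)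 b62452 (.hit (nat_lit 36) (nat_lit 56) (nat_lit 0xbed8ad7ded2afda7b5f8bd6bf144d7e32dafcc0f5f942abf59ed7e6c32fc88c5f895abf39997e1bc2fdba8) b62453 (.nil))) (.nil)))) (.one (nat_lit 70) (nat_lit 40) (nat_lit 60) (nat_lit 0xbed4297de422fdaa35f8994bf0fc97e29d2fcaee5f91e8bf55697e632afc76b5f8718bf3af57ea59afd7a8) b62456 (.nil)))))) (.tok (nat_lit 6) (nat_lit 0xc0000180000300000600000c0000180000300000600000c0000180000300c02600c98c0000180000300000) (.hit (nat_lit 81) (nat_lit 0) (nat_lit 0xbf2c0d7ee4fafd4815fa072bf43297e890afe0815fb24cbf7fa17f04b2fe0005fb3d4bf70f97eb90afd60b) b62457 (.tok (nat_lit 6) (nat_lit 0xbf95a57fc01aff68e5fc290bfa25d7f2e02ff40b5fe528bfd6d17fb05aff2325fd4c8bfc5d17f5f2afefa4) (.hit (nat_lit 87) (nat_lit 7) (nat_lit 0xbf04ed7e8532fcc915f7e7abf333d7e2622fd1615f9f48bf4cfd7e8aeafd7745f9978bf39d17e3ce2fcb72) b62458 (.hit (nat_lit 95) (nat_lit 15) (nat_lit 0xbece7d7db132fc99b5f4a90bef15d7d2aa2fbdc45f825ebf0fcd7e313afd77a5fa4febf28517e27e2fc7bf)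 b62463 (.tok (nat_lit 14) (nat_lit 0xbf95a57fc01aff68e5fc290bfa25d7f2e02ff40b5fe528bfd6d17fb05aff2325fd4c8bfc5d17f5f2afef13) (.hit (nat_lit 91) (nat_lit 11) (nat_lit 0xbf88557f9dbaff53c5fbfeebf89157f1942ff2515fe112bfc9ad7f8ed2ff2325fd23ebfb4717f30f2feaed) b62459 (.hit (nat_lit 97) (nat_lit 17) (nat_lit 0xbf406d7e8e62fe9a75f83c4bf61ad7e0e82fd84c5fb18abf77417f0f22feb6d5fca00bf8a1d7ed032fd8e4) b62464 (.one (nat_lit 9) (nat_lit 92) (nat_lit 12) (nat_lit 0xbf95a57fc01aff68e5fc290bfa25d7f2e02ff40b5fe528bfd6d17fb05aff1455fd4c8bfc5d17f5f2afef13) b62460 (.nil)))) (.tok (nat_lit 56) (nat_lit 0xbf6b2d7f7742fe6c75fb026bf72117eefe2fe6305fc5c8bfadcd7f738afe7245fc316bf81417ecafafefa4) (.hit (nat_lit 93) (nat_lit 13) (nat_lit 0xbf6b2d7f3bcafe6195fb026bf72117eefe2fe6305fc5c8bf95c17f4212fe1df5fb4bcbf81417ecafafde43) b62461 (.hit (nat_lit 99) (nat_lit 19) (nat_lit 0xbf22197e588afd33f5f74aebf43617dd1dafd0b75fa260bf53957ec77afe7245fc316bf66dd7e8b1afcfee)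 b62466 (.one (nat_lit 6) (nat_lit 94) (nat_lit 14) (nat_lit 0xbf43797f7742fe6c75f9fccbf66b57e82b2fdaea5fbca8bfadcd7f738afdc435fae60bf67017ea692fefa4) b62462 (.nil)))) (.one (nat_lit 68) (nat_lit 98) (nat_lit 18) (nat_lit 0xbf20d97e5c82fdb235f75c4bf46957dd682fd14c5fa38abf4b197eb422fecb85fcdeebf6f6d7e9ebafd4f5) b62465 (.nil)))))) (.tok (nat_lit 52) (nat_lit 0xbf36757efb7afdafc5f84d0bf64257e1392fd8ee5fb4d6bfdad57f9ccaff6fa5fede6bf9c957f248afe657) (.hit (nat_lit 106) (nat_lit 39) (nat_lit 0xbf2da97efb7afd9de5f84d0bf64257e1392fd8ee5fb2d6bfdad57f9ccaff6fa5fede6bf9c957f248afe441) b62467 (.hit (nat_lit 107) (nat_lit 40) (nat_lit 0xbf36757ec6dafdafc5f7f40bf503d7dfb0afd6b75fb4d6bfc2e17f7c72fe0675fb2debf52ad7e931afe657) b62468 (.nil))) (.tok (nat_lit 55) (nat_lit 0xc0000180000300000600000c0000180000300000600000c000018000030034e6002cac0000180000300000) (.hit (nat_lit 108) (nat_lit 41) (nat_lit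 0xbfc0117fdebaff0e65ff124bfe6517fb31b000005ff620bfdb057fe452ff7bb5fe268bfd54d7f81aaff030) b62469 (.tok (nat_lit 3) (nat_lit 0xc000017fcee2ffa03600000c00001800002ffd4d600000bffa697ff8a3002d65ffd3cbff7597fc502ff850) (.hit (nat_lit 114) (nat_lit 47) (nat_lit 0xbf99117f5b12fee345fdcdabfe8fd7fb2a2fe9a95fd9b6bfb4e17f7e42ff64d5febf8bfad717f3152fe616) b62475 (.one (nat_lit 67) (nat_lit 115) (nat_lit 48) (nat_lit 0xc000017fcee2ffa03600000c00001800002ffd4d600000bffa697ff8a3002d65ffd3cbff7597fc502ff850) b62476 (.nil))) (.tok (nat_lit 6) (nat_lit 0xbfe639800003000005fce38bffb917f72baff5555ff368c000018000030034e6002cac0000180000300000) (.hit (nat_lit 109) (nat_lit 42) (nat_lit 0xbf8fb17f0ee2fe53b5fa95ebfb4117edfaafeb355fd75cbfb1dd7f7992fff045ff89ebfc8b57f976afe6c3) b62470 (.hit (nat_lit 112) (nat_lit 45) (nat_lit 0xbf5d317f483aff6aa5f9aa2bf76dd7e6e0afe0665fc834bfb8997f9772fe2985fbba2bf74157ed4daff42e)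 b62473 (.tok (nat_lit 55) (nat_lit 0xbfe639800003000005fce38bffb917f72baff5555ff368c000018000030034e6002cac0000180000300000) (.hit (nat_lit 110) (nat_lit 43) (nat_lit 0xbfe6397fcca2ffcac5fc510bffb917f51fafefa35fee92bfdbf17fe35affd565ff650bfe9f97fee42ff327) b62471 (.hit (nat_lit 113) (nat_lit 46) (nat_lit 0xbf9a61800003000005fb16ebfb4057ec2f2fef3d5fe670bffaf9800002ff1665fd91abfb1217f4f4b00000) b62474 (.one (nat_lit 6) (nat_lit 111) (nat_lit 44) (nat_lit 0xbfdc3d7f98eaffa705fce38bff3617f72baff5555ff368c000017ffabb0034e6002cac00001800002ff6d7) b62472 (.nil)))) (.nil)))) (.nil)))) (.one (nat_lit 58) (nat_lit 116) (nat_lit 49) (nat_lit 0xbf58f97eebeafebf85f9108bf797d7e422afdfa95fc6babfd2017f824b00c02600c98bfd6b17f77e2fe8c6) b62477 (.nil)))))) (.nil))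
noncomputable def r91_1 : Rw Blk := .tok (nat_lit 9) (nat_lit 0x5e0000bc00017f89fafec7a) (.hit (nat_lit 0) (nat_lit 0) (nat_lit 0x5e0000bc00017ee012fdf86) b62478 (.tok (nat_lit 14) (nat_lit 0x5e0000bc00017f3e4afe861) (.hit (nat_lit 11) (nat_lit 61) (nat_lit 0x5e0000bc00017f3e4afe6ed) b62479 (.one (nat_lit 3) (nat_lit 12) (nat_lit 62) (nat_lit 0x5e0000bc00017f31a2fdd55) b62480 (.tok (nat_lit 6) (nat_lit 0x5e0000bc00017f2252fe861) (.hit (nat_lit 15) (nat_lit 65) (nat_lit 0x5e0000bc00017f2252fe861) b62483 (.hit (nat_lit 16) (nat_lit 66) (nat_lit 0x5e0000bc00017ef67afe61f) b62484 (.nil))) (.tok (nat_lit 9) (nat_lit 0x5e0000bc00017eeb42fe629) (.hit (nat_lit 13) (nat_lit 63) (nat_lit 0x5e0000bc00017e9972fe629) b62481 (.hit (nat_lit 14) (nat_lit 64) (nat_lit 0x5e0000bc00017eeb42fe46b) b62482 (.nil))) (.nil))))) (.one (nat_lit 17) (nat_lit 17) (nat_lit 67) (nat_lit 0x5e0000bc00017ee172fd2c4)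 b62485 (.tok (nat_lit 20) (nat_lit 0x5e0000bc00017ed752fd230) (.hit (nat_lit 18) (nat_lit 68) (nat_lit 0x5e0000bc00017df9aafd230) b62486 (.hit (nat_lit 19) (nat_lit 69) (nat_lit 0x5e0000bc00017ed752fd130) b62487 (.nil))) (.tok (nat_lit 23) (nat_lit 0x5e0000bc00017f89fafec7a) (.hit (nat_lit 20) (nat_lit 70) (nat_lit 0x5e0000bc00017f89fafec7a) b62488 (.hit (nat_lit 21) (nat_lit 71) (nat_lit 0x5e0000bc00017eeceafd130) b62489 (.nil))) (.one (nat_lit 26) (nat_lit 22) (nat_lit 72) (nat_lit 0x5e0000bc00017e5f62fbec0) b62490 (.one (nat_lit 29) (nat_lit 23) (nat_lit 73) (nat_lit 0x5e0000bc00017e5882fc1d2) b62491 (.one (nat_lit 32) (nat_lit 24) (nat_lit 74) (nat_lit 0x5e0000bc00017ea122fc4af) b62492 (.one (nat_lit 35) (nat_lit 25) (nat_lit 75) (nat_lit 0x5e0000bc00017e4caafc4af) b62493 (.one (nat_lit 38) (nat_lit 26) (nat_lit 76) (nat_lit 0x5e0000bc00017ed3aafd304) b62494 (.tok (nat_lit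 41) (nat_lit 0x5e0000bc00017ee8fafc8af) (.hit (nat_lit 27) (nat_lit 77) (nat_lit 0x5e0000bc00017ea56afbe20) b62495 (.hit (nat_lit 28) (nat_lit 78) (nat_lit 0x5e0000bc00017ee8fafc8af) b62496 (.nil))) (.tok (nat_lit 44) (nat_lit 0x5e0000bc00017efe42fc97c) (.hit (nat_lit 29) (nat_lit 79) (nat_lit 0x5e0000bc00017d532afbd60) b62497 (.hit (nat_lit 30) (nat_lit 80) (nat_lit 0x5e0000bc00017efe42fc97c) b62498 (.nil))) (.tok (nat_lit 47) (nat_lit 0x5e0000bc00017efb6afca38) (.hit (nat_lit 31) (nat_lit 81) (nat_lit 0x5e0000bc00017efb6afca38) b62499 (.hit (nat_lit 32) (nat_lit 82) (nat_lit 0x5e0000bc00017e9972fc804) b62500 (.nil))) (.one (nat_lit 50) (nat_lit 33) (nat_lit 83) (nat_lit 0x5e0000bc00017e97cafcc72) b62501 (.tok (nat_lit 53) (nat_lit 0x5e0000bc00017ed33afd804) (.hit (nat_lit 34) (nat_lit 84) (nat_lit 0x5e0000bc00017e7112fd804) b62502 (.hit (nat_lit 35) (nat_lit 85) (nat_lit 0x5e0000bc00017ed33afcdfd)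 b62503 (.nil))) (.tok (nat_lit 56) (nat_lit 0x5e0000bc00017ededafe207) (.hit (nat_lit 36) (nat_lit 86) (nat_lit 0x5e0000bc00017ededafe207) b62504 (.one (nat_lit 3) (nat_lit 40) (nat_lit 90) (nat_lit 0x5e0000bc00017e149afd58e) b62508 (.tok (nat_lit 6) (nat_lit 0x5e0000bc00017e69b2fe031) (.hit (nat_lit 38) (nat_lit 88) (nat_lit 0x5e0000bc00017e69b2fe031) b62506 (.hit (nat_lit 39) (nat_lit 89) (nat_lit 0x5e0000bc00017e3f5afdae6) b62507 (.nil))) (.one (nat_lit 9) (nat_lit 37) (nat_lit 87) (nat_lit 0x5e0000bc00017e53f2fdd79) b62505 (.nil))))) (.one (nat_lit 59) (nat_lit 41) (nat_lit 91) (nat_lit 0x5e0000bc00017e9b1afbd0e) b62509 (.nil)))))))))))))))))) (.tok (nat_lit 64) (nat_lit 0x5e0000bc000180000300ee1) (.hit (nat_lit 180) (nat_lit 0) (nat_lit 0x5e0000bc00017fe76300ee1) b62510 (.tok (nat_lit 6) (nat_lit 0x5e0000bc00017f1d4aff4fd) (.hit (nat_lit 181) (nat_lit 7) (nat_lit 0x5e0000bc00017e6ec2fed85)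 b62511 (.hit (nat_lit 182) (nat_lit 15) (nat_lit 0x5e0000bc00017f1d4aff4fd) b62512 (.nil))) (.tok (nat_lit 9) (nat_lit 0x5e0000bc000180000300a75) (.hit (nat_lit 183) (nat_lit 20) (nat_lit 0x5e0000bc000180000300a75) b62513 (.hit (nat_lit 184) (nat_lit 28) (nat_lit 0x5e0000bc00017f4752ff6e7) b62514 (.nil))) (.nil)))) (.tok (nat_lit 67) (nat_lit 0x5e0000bc00017f661b0027e) (.hit (nat_lit 205) (nat_lit 0) (nat_lit 0x5e0000bc00017f661afee95) b62523 (.tok (nat_lit 3) (nat_lit 0x5e0000bc00017f168b0027e) (.hit (nat_lit 206) (nat_lit 1) (nat_lit 0x5e0000bc00017e3e12fe76f) b62524 (.one (nat_lit 55) (nat_lit 207) (nat_lit 3) (nat_lit 0x5e0000bc00017f168b0027e) b62525 (.nil))) (.tok (nat_lit 9) (nat_lit 0x5e0000bc00017e6e2afed72) (.hit (nat_lit 208) (nat_lit 20) (nat_lit 0x5e0000bc00017e6e2afed72) b62526 (.hit (nat_lit 211) (nat_lit 28) (nat_lit 0x5e0000bc00017e357afe65c) b62527 (.nil))) (.nil))))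 (.tok (nat_lit 70) (nat_lit 0x5e0000bc00017fb04b01498) (.hit (nat_lit 191) (nat_lit 0) (nat_lit 0x5e0000bc00017fb04aff4a1) b62515 (.tok (nat_lit 3) (nat_lit 0x5e0000bc00017f4aab00902) (.hit (nat_lit 192) (nat_lit 1) (nat_lit 0x5e0000bc00017e3ac2fe705) b62516 (.one (nat_lit 67) (nat_lit 193) (nat_lit 2) (nat_lit 0x5e0000bc00017f4aab00902) b62517 (.nil))) (.tok (nat_lit 6) (nat_lit 0x5e0000bc00017fa75b01498) (.hit (nat_lit 194) (nat_lit 7) (nat_lit 0x5e0000bc00017ea44aff436) b62518 (.hit (nat_lit 197) (nat_lit 15) (nat_lit 0x5e0000bc00017e6a32fecf3) b62521 (.tok (nat_lit 55) (nat_lit 0x5e0000bc00017fa75b01498) (.hit (nat_lit 195) (nat_lit 8) (nat_lit 0x5e0000bc00017efce2fff49) b62519 (.hit (nat_lit 198) (nat_lit 16) (nat_lit 0x5e0000bc00017f223b003f4) b62522 (.one (nat_lit 6) (nat_lit 196) (nat_lit 9) (nat_lit 0x5e0000bc00017fa75b01498) b62520 (.nil)))) (.nil)))) (.nil)))) (.nil))))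
noncomputable def r91_2 : Rw Blk := .tok (nat_lit 3) (nat_lit 0x5e0000bc0001803723006b4) (.hit (nat_lit 15) (nat_lit 0) (nat_lit 0x5e0000bc00017f1beaff346) b62535 (.tok (nat_lit 6) (nat_lit 0x5e0000bc00017e8b2aff88d) (.hit (nat_lit 16) (nat_lit 7) (nat_lit 0x5e0000bc00017df4d2fe5c2) b62536 (.hit (nat_lit 21) (nat_lit 15) (nat_lit 0x5e0000bc00017d36c2fce00) b62541 (.tok (nat_lit 14) (nat_lit 0x5e0000bc00017e504aff131) (.hit (nat_lit 17) (nat_lit 11) (nat_lit 0x5e0000bc00017ddf12fe30a) b62537 (.hit (nat_lit 22) (nat_lit 17) (nat_lit 0x5e0000bc00017e39cafee61) b62542 (.one (nat_lit 9) (nat_lit 18) (nat_lit 12) (nat_lit 0x5e0000bc00017e504aff131) b62538 (.nil)))) (.tok (nat_lit 56) (nat_lit 0x5e0000bc00017e8b2aff88d) (.hit (nat_lit 19) (nat_lit 13) (nat_lit 0x5e0000bc00017e36dafee03) b62539 (.hit (nat_lit 24) (nat_lit 19) (nat_lit 0x5e0000bc00017e3db2feede) b62543 (.one (nat_lit 6)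 (nat_lit 20) (nat_lit 14) (nat_lit 0x5e0000bc00017e8b2aff88d) b62540 (.nil)))) (.nil))))) (.tok (nat_lit 52) (nat_lit 0x5e0000bc00017e9252ff972) (.hit (nat_lit 25) (nat_lit 39) (nat_lit 0x5e0000bc00017e2922fec4c) b62544 (.hit (nat_lit 26) (nat_lit 40) (nat_lit 0x5e0000bc00017e9252ff972) b62545 (.nil))) (.tok (nat_lit 55) (nat_lit 0x5e0000bc0001803723006b4) (.hit (nat_lit 27) (nat_lit 41) (nat_lit 0x5e0000bc0001803723006b4) b62546 (.tok (nat_lit 3) (nat_lit 0x5e0000bc00017ed413001aa) (.hit (nat_lit 33) (nat_lit 47) (nat_lit 0x5e0000bc00017e931aff98b) b62552 (.one (nat_lit 67) (nat_lit 34) (nat_lit 48) (nat_lit 0x5e0000bc00017ed413001aa) b62553 (.nil))) (.tok (nat_lit 6) (nat_lit 0x5e0000bc00017ea8eaffc45) (.hit (nat_lit 28) (nat_lit 42) (nat_lit 0x5e0000bc00017e5812ff22a) b62547 (.hit (nat_lit 31) (nat_lit 45) (nat_lit 0x5e0000bc00017e71caff561) b62550 (.tok (nat_lit 55) (nat_lit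 0x5e0000bc00017ea8eaffc45) (.hit (nat_lit 29) (nat_lit 43) (nat_lit 0x5e0000bc00017ea8eaffc45) b62548 (.hit (nat_lit 32) (nat_lit 46) (nat_lit 0x5e0000bc00017ea102ffb48) b62551 (.one (nat_lit 6) (nat_lit 30) (nat_lit 44) (nat_lit 0x5e0000bc00017e529aff17b) b62549 (.nil)))) (.nil)))) (.nil)))) (.one (nat_lit 58) (nat_lit 35) (nat_lit 49) (nat_lit 0x5e0000bc00017e897aff857) b62554 (.nil)))))) (.tok (nat_lit 9) (nat_lit 0x5e0000bc000180054b00c05) (.hit (nat_lit 0) (nat_lit 0) (nat_lit 0x5e0000bc00017fba8b009d9) b62528 (.tok (nat_lit 9) (nat_lit 0x5e0000bc000180054b00c05) (.hit (nat_lit 1) (nat_lit 20) (nat_lit 0x5e0000bc00017f062afe63c) b62529 (.hit (nat_lit 4) (nat_lit 28) (nat_lit 0x5e0000bc00017eaac2fd9bb) b62532 (.tok (nat_lit 14) (nat_lit 0x5e0000bc000180054b00c05) (.hit (nat_lit 2) (nat_lit 24) (nat_lit 0x5e0000bc00017fd5d3006e0) b62530 (.hit (nat_lit 5) (nat_lit 30) (nat_lit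 0x5e0000bc00017f00c2fe1f8) b62533 (.one (nat_lit 6) (nat_lit 3) (nat_lit 25) (nat_lit 0x5e0000bc000180054b00c05) b62531 (.nil)))) (.one (nat_lit 56) (nat_lit 6) (nat_lit 31) (nat_lit 0x5e0000bc00017faca2ff3e9) b62534 (.nil))))) (.nil))) (.nil))
noncomputable def r91_3 : Rw Blk := .tok (nat_lit 6) (nat_lit 0x1780002f00005ff720c068a580b21300b88) (.hit (nat_lit 0) (nat_lit 0) (nat_lit 0x1780002f00005fa89abf7e6d7ed2e2fdd09) b62555 (.tok (nat_lit 14) (nat_lit 0x1780002f00005ff19cbfb9097f4e5aff75a) (.hit (nat_lit 21) (nat_lit 61) (nat_lit 0x1780002f00005fd8fcbf87297f0f4afe932) b62556 (.one (nat_lit 3) (nat_lit 22) (nat_lit 62) (nat_lit 0x1780002f00005fe1a6bf640d7eb2bafedca) b62557 (.tok (nat_lit 6) (nat_lit 0x1780002f00005fb8b0bf7a157ee0dafe2b2) (.hit (nat_lit 25) (nat_lit 65) (nat_lit 0x1780002f00005f71fcbf6ff17ee0dafdf2e) b62560 (.hit (nat_lit 26) (nat_lit 66) (nat_lit 0x1780002f00005fb8b0bf7a157ee06afe2b2)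 b62561 (.nil))) (.tok (nat_lit 9) (nat_lit 0x1780002f00005ff19cbfb9097f4e5aff75a) (.hit (nat_lit 23) (nat_lit 63) (nat_lit 0x1780002f00005ff19cbfb9097f4e5aff75a) b62558 (.hit (nat_lit 24) (nat_lit 64) (nat_lit 0x1780002f00005fb5aebf69297ed34afdd7c) b62559 (.nil))) (.nil))))) (.one (nat_lit 17) (nat_lit 27) (nat_lit 67) (nat_lit 0x1780002f00005fc724bf58e97e9d82fdb4c) b62562 (.tok (nat_lit 20) (nat_lit 0x1780002f00005ff720c068a580b21300b88) (.hit (nat_lit 28) (nat_lit 68) (nat_lit 0x1780002f00005ff720c068a580b21300b88) b62563 (.hit (nat_lit 29) (nat_lit 69) (nat_lit 0x1780002f00005fad28bf2e897e6322fcfbd) b62564 (.nil))) (.tok (nat_lit 23) (nat_lit 0x1780002f00005fa764bf2cfd7e5af2fce71) (.hit (nat_lit 30) (nat_lit 70) (nat_lit 0x1780002f00005f5082bf2cfd7e5af2fce71) b62565 (.hit (nat_lit 31) (nat_lit 71) (nat_lit 0x1780002f00005fa764bf27017e396afce3a) b62566 (.nil))) (.one (nat_lit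 26) (nat_lit 32) (nat_lit 72) (nat_lit 0x1780002f00005f998ebf06757e0ff2fc59d) b62567 (.one (nat_lit 29) (nat_lit 33) (nat_lit 73) (nat_lit 0x1780002f00005fa412bf21dd7e421afd526) b62568 (.one (nat_lit 32) (nat_lit 34) (nat_lit 74) (nat_lit 0x1780002f00005f8a20beeb097dd81afbe5c) b62569 (.one (nat_lit 35) (nat_lit 35) (nat_lit 75) (nat_lit 0x1780002f00005fb926bf22697e423afd5f1) b62570 (.one (nat_lit 50) (nat_lit 43) (nat_lit 83) (nat_lit 0x1780002f00005fb6dabf2bb97e5b1afd425) b62571 (.tok (nat_lit 53) (nat_lit 0x1780002f00005fccc6bf77f57f1caafe97f) (.hit (nat_lit 44) (nat_lit 84) (nat_lit 0x1780002f00005fccc6bf77f57f1caafe97f) b62572 (.hit (nat_lit 45) (nat_lit 85) (nat_lit 0x1780002f00005fb4aabf3be17e766afd8d0) b62573 (.nil))) (.tok (nat_lit 56) (nat_lit 0x1780002f00005fd72ebfde517f863afef6f) (.hit (nat_lit 46) (nat_lit 86) (nat_lit 0x1780002f00005fd0b2bfb0dd7f258afe528) b62574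 (.one (nat_lit 3) (nat_lit 50) (nat_lit 90) (nat_lit 0x1780002f00005fb7b6bf7f297ed8f2fd48d) b62578 (.tok (nat_lit 6) (nat_lit 0x1780002f00005fd098bf6bad7ee662fe7b9) (.hit (nat_lit 48) (nat_lit 88) (nat_lit 0x1780002f00005fd098bf6bad7ee662fe7b9) b62576 (.hit (nat_lit 49) (nat_lit 89) (nat_lit 0x1780002f00005fc4cabf44517e81bafdc98) b62577 (.nil))) (.one (nat_lit 9) (nat_lit 47) (nat_lit 87) (nat_lit 0x1780002f00005fd72ebfde517f863afef6f) b62575 (.nil))))) (.one (nat_lit 59) (nat_lit 51) (nat_lit 91) (nat_lit 0x1780002f00005fab72bf14bd7e2892fce9b) b62579 (.one (nat_lit 62) (nat_lit 52) (nat_lit 92) (nat_lit 0x1780002f00005f9914bf1e697e3dcafcacc) b62580 (.tok (nat_lit 65) (nat_lit 0x1780002f00005fb0b4bf28bd7e51d2fd263) (.hit (nat_lit 53) (nat_lit 93) (nat_lit 0x1780002f00005fb0b4bf286d7e51d2fd263) b62581 (.hit (nat_lit 54) (nat_lit 94) (nat_lit 0x1780002f00005f864cbf28bd7e447afcb7c)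 b62582 (.nil))) (.tok (nat_lit 68) (nat_lit 0x1780002f00005f9602bf8d2d7ef222fe1d4) (.hit (nat_lit 55) (nat_lit 95) (nat_lit 0x1780002f00005f9602bf8d2d7ef222fe1d4) b62583 (.one (nat_lit 3) (nat_lit 59) (nat_lit 99) (nat_lit 0x1780002f00005f4f88bf2b097e570afcdf4) b62587 (.one (nat_lit 6) (nat_lit 56) (nat_lit 96) (nat_lit 0x1780002f00005f57cebf3b957e7822fd217) b62584 (.tok (nat_lit 9) (nat_lit 0x1780002f00005f73a6bf73457ee782fe003) (.hit (nat_lit 57) (nat_lit 97) (nat_lit 0x1780002f00005f73a6bf73457ee782fe003) b62585 (.hit (nat_lit 58) (nat_lit 98) (nat_lit 0x1780002f00005f6302bf51fd7ea4f2fd7b1) b62586 (.nil))) (.nil))))) (.one (nat_lit 71) (nat_lit 60) (nat_lit 100) (nat_lit 0x1780002f00005fa662bf1a297e2bfafcd95) b62588 (.nil)))))))))))))))))) (.tok (nat_lit 52) (nat_lit 0x1780002f0000600000c058a180564b00f6b) (.hit (nat_lit 176) (nat_lit 0) (nat_lit 0x1780002f0000600000c058a180564b00f6b)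 b62589 (.tok (nat_lit 6) (nat_lit 0x1780002f00005fd834c003097fa67b0004b) (.hit (nat_lit 177) (nat_lit 7) (nat_lit 0x1780002f00005fd834c003097fa67b0004b) b62590 (.hit (nat_lit 178) (nat_lit 15) (nat_lit 0x1780002f00005fb672bfaa8d7f242aff0a1) b62591 (.nil))) (.tok (nat_lit 9) (nat_lit 0x1780002f00005fd1d6bfca997f68c2ff993) (.hit (nat_lit 179) (nat_lit 20) (nat_lit 0x1780002f00005faaa6bf9fe57f40eafeb2c) b62592 (.hit (nat_lit 180) (nat_lit 28) (nat_lit 0x1780002f00005fd1d6bfca997f68c2ff993) b62593 (.nil))) (.nil)))) (.tok (nat_lit 55) (nat_lit 0x1780002f00005fc9debfde557fbdcaffac8) (.hit (nat_lit 187) (nat_lit 0) (nat_lit 0x1780002f00005fc552bfaac57f52a2fed63) b62594 (.tok (nat_lit 3) (nat_lit 0x1780002f00005fb7e2bfba5d7f75daff1ca) (.hit (nat_lit 188) (nat_lit 1) (nat_lit 0x1780002f00005f8a9abf5fcd7ec0bafdb26) b62595 (.one (nat_lit 67) (nat_lit 189) (nat_lit 2) (nat_lit 0x1780002f00005fb7e2bfba5d7f75daff1ca)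 b62596 (.nil))) (.tok (nat_lit 6) (nat_lit 0x1780002f00005fc9debfde557fbdcaffac8) (.hit (nat_lit 190) (nat_lit 7) (nat_lit 0x1780002f00005f9fa4bf89e17f14e2fe5ab) b62597 (.hit (nat_lit 193) (nat_lit 15) (nat_lit 0x1780002f00005f8c46bf63257ec76afdbfc) b62600 (.tok (nat_lit 55) (nat_lit 0x1780002f00005fc9debfde557fbdcaffac8) (.hit (nat_lit 191) (nat_lit 8) (nat_lit 0x1780002f00005fbd74bfc5817f8c22ff493) b62598 (.hit (nat_lit 194) (nat_lit 16) (nat_lit 0x1780002f00005fbd40bfc5197f8b52ff479) b62601 (.one (nat_lit 6) (nat_lit 192) (nat_lit 9) (nat_lit 0x1780002f00005fc9debfde557fbdcaffac8) b62599 (.nil)))) (.nil)))) (.nil)))) (.tok (nat_lit 58) (nat_lit 0x1780002f00005fe010c00ab9801693005e1) (.hit (nat_lit 201) (nat_lit 0) (nat_lit 0x1780002f00005fcef0bfe67d7f8aeaff208) b62602 (.tok (nat_lit 3) (nat_lit 0x1780002f00005fcdc2bfe61d7fcd5affcba) (.hit (nat_lit 202) (nat_lit 1) (nat_lit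 0x1780002f00005f9a94bf7fc17f00a2fe323) b62603 (.one (nat_lit 55) (nat_lit 203) (nat_lit 3) (nat_lit 0x1780002f00005fcdc2bfe61d7fcd5affcba) b62604 (.nil))) (.tok (nat_lit 9) (nat_lit 0x1780002f00005fe010c00ab9801693005e1) (.hit (nat_lit 204) (nat_lit 20) (nat_lit 0x1780002f00005f9e7abf878d7f103afe516) b62605 (.hit (nat_lit 207) (nat_lit 28) (nat_lit 0x1780002f00005f9ed4bf88417f11a2fe543) b62608 (.tok (nat_lit 67) (nat_lit 0x1780002f00005fe010c00ab9801693005e1) (.hit (nat_lit 205) (nat_lit 21) (nat_lit 0x1780002f00005fb868bfbb697f77f2ff20d) b62606 (.hit (nat_lit 208) (nat_lit 29) (nat_lit 0x1780002f00005fd34abff12d7fe37afff7e) b62609 (.one (nat_lit 9) (nat_lit 206) (nat_lit 22) (nat_lit 0x1780002f00005fe010c00ab9801693005e1) b62607 (.nil)))) (.nil)))) (.nil)))) (.nil))))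
noncomputable def r91_4 : Rw Blk := .tok (nat_lit 3) (nat_lit 0x1780002f0000602246c069b980c7ab023b4) (.hit (nat_lit 15) (nat_lit 0) (nat_lit 0x1780002f0000600330bff9257fab6300d2b) b62621 (.tok (nat_lit 9) (nat_lit 0x1780002f00005fe2c8bfb5597f530aff2d8) (.hit (nat_lit 16) (nat_lit 20) (nat_lit 0x1780002f00005f7d54bf2be97e402afd55e) b62622 (.hit (nat_lit 21) (nat_lit 28) (nat_lit 0x1780002f00005f9c10befded7de432fe068) b62625 (.one (nat_lit 56) (nat_lit 23) (nat_lit 31) (nat_lit 0x1780002f00005fe2c8bfb0e17f4a1aff1ba) b62626 (.tok (nat_lit 68) (nat_lit 0x1780002f00005fb6a6bfb5597f530aff2d8) (.hit (nat_lit 19) (nat_lit 26) (nat_lit 0x1780002f00005f9f62bf4e1d7e8492fe665) b62623 (.hit (nat_lit 24) (nat_lit 32) (nat_lit 0x1780002f00005fac06bf8bcd7efff2fed45) b62627 (.one (nat_lit 9) (nat_lit 20) (nat_lit 27) (nat_lit 0x1780002f00005fb6a6bfb5597f530aff2d8) b62624 (.nil)))) (.nil))))) (.tok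 (nat_lit 64) (nat_lit 0x1780002f00005fd158bfb9417f5adb00403) (.hit (nat_lit 25) (nat_lit 50) (nat_lit 0x1780002f00005fc72cbf97d57f1802ff4e6) b62628 (.hit (nat_lit 26) (nat_lit 51) (nat_lit 0x1780002f00005fd158bfb9417f5adb00403) b62629 (.nil))) (.tok (nat_lit 67) (nat_lit 0x1780002f0000602246c069b980c7ab01b6e) (.hit (nat_lit 27) (nat_lit 52) (nat_lit 0x1780002f0000602246c069b980c7ab01b6e) b62630 (.one (nat_lit 3) (nat_lit 33) (nat_lit 58) (nat_lit 0x1780002f00005fb4e6bf8c997f018aff127) b62636 (.tok (nat_lit 9) (nat_lit 0x1780002f00005fc4d4bfb7b17f57baff91e) (.hit (nat_lit 28) (nat_lit 53) (nat_lit 0x1780002f00005fb6babf97957f1782ff211) b62631 (.hit (nat_lit 31) (nat_lit 56) (nat_lit 0x1780002f00005faff6bf7c217ee09afeeaf) b62634 (.tok (nat_lit 67) (nat_lit 0x1780002f00005fc4d4bfb7b17f57baff91e) (.hit (nat_lit 29) (nat_lit 54) (nat_lit 0x1780002f00005fc4d4bfa7cd7f37f2ff91e) b62632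 (.hit (nat_lit 32) (nat_lit 57) (nat_lit 0x1780002f00005fc3c2bfb7b17f57baff895) b62635 (.one (nat_lit 9) (nat_lit 30) (nat_lit 55) (nat_lit 0x1780002f00005fadeebf7c657ee122fedab) b62633 (.nil)))) (.nil)))) (.nil)))) (.one (nat_lit 70) (nat_lit 35) (nat_lit 60) (nat_lit 0x1780002f0000601a44bfe7157fb683023b4) b62637 (.nil)))))) (.tok (nat_lit 6) (nat_lit 0x1780002f0000606aeac1452182390b044ef) (.hit (nat_lit 0) (nat_lit 0) (nat_lit 0x1780002f00006006a6c05fc1802ce300e18) b62610 (.tok (nat_lit 6) (nat_lit 0x1780002f0000600a78c0a52d80bec300d27) (.hit (nat_lit 1) (nat_lit 7) (nat_lit 0x1780002f00005fa5f2bfbdf57ee812fde11) b62611 (.hit (nat_lit 4) (nat_lit 15) (nat_lit 0x1780002f00005fb898bfce017f0c6afe3f4) b62612 (.one (nat_lit 68) (nat_lit 6) (nat_lit 18) (nat_lit 0x1780002f0000600a78c0a52d80bec300d27) b62613 (.nil)))) (.tok (nat_lit 52) (nat_lit 0x1780002f0000606892c138a18215a304008)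 (.hit (nat_lit 7) (nat_lit 39) (nat_lit 0x1780002f0000606892c138a18215a304008) b62614 (.hit (nat_lit 8) (nat_lit 40) (nat_lit 0x1780002f0000601b26c039818019f3006b0) b62615 (.nil))) (.tok (nat_lit 55) (nat_lit 0x1780002f0000606aeac1452182332b04000) (.hit (nat_lit 9) (nat_lit 41) (nat_lit 0x1780002f0000604c40c0d415815dab0299a) b62616 (.one (nat_lit 3) (nat_lit 12) (nat_lit 47) (nat_lit 0x1780002f00005fe8ccc0749d809b9b00daa) b62619 (.tok (nat_lit 6) (nat_lit 0x1780002f0000606aeac1452182332b04000) (.hit (nat_lit 10) (nat_lit 42) (nat_lit 0x1780002f0000606aeac1452182332b04000) b62617 (.hit (nat_lit 11) (nat_lit 45) (nat_lit 0x1780002f00005ff1b2bff6457f8552ff9c7) b62618 (.nil))) (.nil)))) (.one (nat_lit 58) (nat_lit 14) (nat_lit 49) (nat_lit 0x1780002f000060635cc1235982390b044ef) b62620 (.nil)))))) (.nil))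
noncomputable def r91_5 : Rw Blk := .tok (nat_lit 6) (nat_lit 0x5e0000bc00018077b30260c) (.hit (nat_lit 0) (nat_lit 0) (nat_lit 0x5e0000bc00017fa54300dff) b62638 (.one (nat_lit 26) (nat_lit 12) (nat_lit 72) (nat_lit 0x5e0000bc00017f9092ff694) b62639 (.one (nat_lit 29) (nat_lit 13) (nat_lit 73) (nat_lit 0x5e0000bc00017fc0f2ffa32) b62640 (.one (nat_lit 32) (nat_lit 14) (nat_lit 74) (nat_lit 0x5e0000bc00017eefbafeb5b) b62641 (.one (nat_lit 35) (nat_lit 15) (nat_lit 75) (nat_lit 0x5e0000bc00017f9c9affb20) b62642 (.one (nat_lit 38) (nat_lit 16) (nat_lit 76) (nat_lit 0x5e0000bc00017f134aff191) b62643 (.tok (nat_lit 41) (nat_lit 0x5e0000bc00017ef27affac2) (.hit (nat_lit 17) (nat_lit 77) (nat_lit 0x5e0000bc00017eadfaff31f) b62644 (.hit (nat_lit 18) (nat_lit 78) (nat_lit 0x5e0000bc00017ef27affac2) b62645 (.nil))) (.tok (nat_lit 44) (nat_lit 0x5e0000bc00017f48ab004fd) (.hit (nat_lit 19)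 (nat_lit 79) (nat_lit 0x5e0000bc00017f48ab004fd) b62646 (.hit (nat_lit 20) (nat_lit 80) (nat_lit 0x5e0000bc00017e9f72fe8da) b62647 (.nil))) (.tok (nat_lit 47) (nat_lit 0x5e0000bc00017f3ecaff5ac) (.hit (nat_lit 21) (nat_lit 81) (nat_lit 0x5e0000bc00017e9412fec40) b62648 (.hit (nat_lit 22) (nat_lit 82) (nat_lit 0x5e0000bc00017f3ecaff5ac) b62649 (.nil))) (.one (nat_lit 62) (nat_lit 23) (nat_lit 92) (nat_lit 0x5e0000bc00017fd302fff22) b62650 (.tok (nat_lit 65) (nat_lit 0x5e0000bc00017f32faffd2a) (.hit (nat_lit 24) (nat_lit 93) (nat_lit 0x5e0000bc00017f229affd2a) b62651 (.hit (nat_lit 25) (nat_lit 94) (nat_lit 0x5e0000bc00017f32faffa7c) b62652 (.nil))) (.tok (nat_lit 68) (nat_lit 0x5e0000bc00018077b30260c) (.hit (nat_lit 26) (nat_lit 95) (nat_lit 0x5e0000bc00018077b30260c) b62653 (.one (nat_lit 3) (nat_lit 30) (nat_lit 99) (nat_lit 0x5e0000bc00017f514b003e7) b62657 (.one (nat_lit 6)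 (nat_lit 27) (nat_lit 96) (nat_lit 0x5e0000bc00017f2ab2fff14) b62654 (.tok (nat_lit 9) (nat_lit 0x5e0000bc00017f3e1300180) (.hit (nat_lit 28) (nat_lit 97) (nat_lit 0x5e0000bc00017f3e1300180) b62655 (.hit (nat_lit 29) (nat_lit 98) (nat_lit 0x5e0000bc00017ee302ff61e) b62656 (.nil))) (.nil))))) (.one (nat_lit 71) (nat_lit 31) (nat_lit 100) (nat_lit 0x5e0000bc00017f454aff303) b62658 (.nil)))))))))))))) (.tok (nat_lit 52) (nat_lit 0x5e0000bc000181816303dda) (.hit (nat_lit 45) (nat_lit 0) (nat_lit 0x5e0000bc000181816303dda) b62670 (.tok (nat_lit 6) (nat_lit 0x5e0000bc00018130db03521) (.hit (nat_lit 46) (nat_lit 7) (nat_lit 0x5e0000bc00018130db03521) b62671 (.hit (nat_lit 47) (nat_lit 15) (nat_lit 0x5e0000bc000180e1eb0317a) b62672 (.nil))) (.tok (nat_lit 9) (nat_lit 0x5e0000bc00017fed6b00c6f) (.hit (nat_lit 48) (nat_lit 20) (nat_lit 0x5e0000bc00017f6da2ff84e) b62673 (.hit (nat_lit 49)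 (nat_lit 28) (nat_lit 0x5e0000bc00017fed6b00c6f) b62674 (.nil))) (.nil)))) (.tok (nat_lit 55) (nat_lit 0x5e0000bc0001806aa3017ee) (.hit (nat_lit 40) (nat_lit 0) (nat_lit 0x5e0000bc000180489300a77) b62666 (.one (nat_lit 3) (nat_lit 41) (nat_lit 1) (nat_lit 0x5e0000bc00017fcfeb00497) b62667 (.tok (nat_lit 6) (nat_lit 0x5e0000bc0001806aa3017ee) (.hit (nat_lit 43) (nat_lit 7) (nat_lit 0x5e0000bc0001806aa3017ee) b62668 (.hit (nat_lit 44) (nat_lit 15) (nat_lit 0x5e0000bc00017f83e2ffb16) b62669 (.nil))) (.nil)))) (.tok (nat_lit 58) (nat_lit 0x5e0000bc00018108cb02bb3) (.hit (nat_lit 32) (nat_lit 0) (nat_lit 0x5e0000bc0001808adb020c1) b62659 (.one (nat_lit 3) (nat_lit 33) (nat_lit 1) (nat_lit 0x5e0000bc000180799b019cd) b62660 (.tok (nat_lit 9) (nat_lit 0x5e0000bc00018108cb02bb3) (.hit (nat_lit 35) (nat_lit 20) (nat_lit 0x5e0000bc000180a05b01ea5) b62661 (.hit (nat_lit 38) (nat_lit 28) (nat_lit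 0x5e0000bc0001805deb01657) b62664 (.tok (nat_lit 67) (nat_lit 0x5e0000bc00018108cb02bb3) (.hit (nat_lit 36) (nat_lit 21) (nat_lit 0x5e0000bc000180d57b02549) b62662 (.hit (nat_lit 39) (nat_lit 29) (nat_lit 0x5e0000bc000180fcbb02a31) b62665 (.one (nat_lit 9) (nat_lit 37) (nat_lit 22) (nat_lit 0x5e0000bc00018108cb02bb3) b62663 (.nil)))) (.nil)))) (.nil)))) (.nil))))
noncomputable def r91_6 : Rw Blk := .tok (nat_lit 3) (nat_lit 0x5e0000bc000181bda3033d5) (.hit (nat_lit 0) (nat_lit 0) (nat_lit 0x5e0000bc000181bda3033d5) b62675 (.tok (nat_lit 9) (nat_lit 0x5e0000bc000181125301ce1) (.hit (nat_lit 1) (nat_lit 20) (nat_lit 0x5e0000bc00017f8fe2fec93) b62676 (.hit (nat_lit 6) (nat_lit 28) (nat_lit 0x5e0000bc00017fbc02ff217) b62681 (.tok (nat_lit 14) (nat_lit 0x5e0000bc000180f6c30196f) (.hit (nat_lit 2) (nat_lit 24) (nat_lit 0x5e0000bc0001806d8b00848) b62677 (.hit (nat_lit 7) (nat_lit 30)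 (nat_lit 0x5e0000bc000180f6c30196f) b62682 (.one (nat_lit 6) (nat_lit 3) (nat_lit 25) (nat_lit 0x5e0000bc0001805a63005e3) b62678 (.nil)))) (.tok (nat_lit 68) (nat_lit 0x5e0000bc000181125301ce1) (.hit (nat_lit 4) (nat_lit 26) (nat_lit 0x5e0000bc00018023c2fff0f) b62679 (.hit (nat_lit 8) (nat_lit 32) (nat_lit 0x5e0000bc000180b7eb01194) b62683 (.one (nat_lit 9) (nat_lit 5) (nat_lit 27) (nat_lit 0x5e0000bc000181125301ce1) b62680 (.nil)))) (.nil))))) (.nil))) (.tok (nat_lit 6) (nat_lit 0x5e0000bc000182df2b06196) (.hit (nat_lit 20) (nat_lit 0) (nat_lit 0x5e0000bc0001824bb30446e) b62684 (.tok (nat_lit 6) (nat_lit 0x5e0000bc000182df2b06196) (.hit (nat_lit 21) (nat_lit 7) (nat_lit 0x5e0000bc0001818c7303655) b62685 (.hit (nat_lit 24) (nat_lit 15) (nat_lit 0x5e0000bc0001814dab02eef) b62688 (.tok (nat_lit 14) (nat_lit 0x5e0000bc000182df2b06196) (.hit (nat_lit 22) (nat_lit 11) (nat_lit 0x5e0000bc0001823ffb043c1)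 b62686 (.hit (nat_lit 25) (nat_lit 17) (nat_lit 0x5e0000bc000181aadb02ca2) b62689 (.one (nat_lit 9) (nat_lit 23) (nat_lit 12) (nat_lit 0x5e0000bc000182df2b06196) b62687 (.nil)))) (.nil)))) (.nil))) (.nil))
noncomputable def r91_7 : Rw Blk := .tok (nat_lit 6) (nat_lit 0x5e0000bc00017f9c7afff19) (.hit (nat_lit 0) (nat_lit 0) (nat_lit 0x5e0000bc00017e5a52fdd4c) b62690 (.tok (nat_lit 14) (nat_lit 0x5e0000bc00017f9c7afff19) (.hit (nat_lit 21) (nat_lit 61) (nat_lit 0x5e0000bc00017f2a7afe85d) b62691 (.one (nat_lit 3) (nat_lit 22) (nat_lit 62) (nat_lit 0x5e0000bc00017ebf2afde88) b62692 (.tok (nat_lit 6) (nat_lit 0x5e0000bc00017ec2dafe8ee) (.hit (nat_lit 25) (nat_lit 65) (nat_lit 0x5e0000bc00017e2c9afe5a9) b62695 (.hit (nat_lit 26) (nat_lit 66) (nat_lit 0x5e0000bc00017ec2dafe8ee) b62696 (.nil))) (.tok (nat_lit 9) (nat_lit 0x5e0000bc00017f9c7afff19) (.hit (nat_lit 23) (nat_lit 63) (nat_lit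 0x5e0000bc00017f9c7afff19) b62693 (.hit (nat_lit 24) (nat_lit 64) (nat_lit 0x5e0000bc00017ee6d2fe642) b62694 (.nil))) (.nil))))) (.one (nat_lit 17) (nat_lit 27) (nat_lit 67) (nat_lit 0x5e0000bc00017e6feafd3f7) b62697 (.tok (nat_lit 20) (nat_lit 0x5e0000bc00017eb80afe57e) (.hit (nat_lit 28) (nat_lit 68) (nat_lit 0x5e0000bc00017eb80afe57e) b62698 (.hit (nat_lit 29) (nat_lit 69) (nat_lit 0x5e0000bc00017e567afd265) b62699 (.nil))) (.tok (nat_lit 23) (nat_lit 0x5e0000bc00017e6e9afde2a) (.hit (nat_lit 30) (nat_lit 70) (nat_lit 0x5e0000bc00017df0a2fde2a) b62700 (.hit (nat_lit 31) (nat_lit 71) (nat_lit 0x5e0000bc00017e6e9afd263) b62701 (.nil))) (.one (nat_lit 26) (nat_lit 32) (nat_lit 72) (nat_lit 0x5e0000bc00017e334afc275) b62702 (.one (nat_lit 29) (nat_lit 33) (nat_lit 73) (nat_lit 0x5e0000bc00017e25f2fc2c6) b62703 (.one (nat_lit 32) (nat_lit 34) (nat_lit 74) (nat_lit 0x5e0000bc00017de5b2fc5e2)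 b62704 (.one (nat_lit 35) (nat_lit 35) (nat_lit 75) (nat_lit 0x5e0000bc00017e61dafc83b) b62705 (.one (nat_lit 50) (nat_lit 43) (nat_lit 83) (nat_lit 0x5e0000bc00017e9e3afcfbe) b62706 (.tok (nat_lit 53) (nat_lit 0x5e0000bc00017ead82fdef1) (.hit (nat_lit 44) (nat_lit 84) (nat_lit 0x5e0000bc00017ead82fdef1) b62707 (.hit (nat_lit 45) (nat_lit 85) (nat_lit 0x5e0000bc00017e89e2fcda7) b62708 (.nil))) (.tok (nat_lit 56) (nat_lit 0x5e0000bc00017f5e22fed47) (.hit (nat_lit 46) (nat_lit 86) (nat_lit 0x5e0000bc00017f1b72fea27) b62709 (.one (nat_lit 3) (nat_lit 50) (nat_lit 90) (nat_lit 0x5e0000bc00017ec70afd754) b62713 (.tok (nat_lit 6) (nat_lit 0x5e0000bc00017f5e22fed47) (.hit (nat_lit 48) (nat_lit 88) (nat_lit 0x5e0000bc00017f5e22fed47) b62711 (.hit (nat_lit 49) (nat_lit 89) (nat_lit 0x5e0000bc00017ebe8afd6f5) b62712 (.nil))) (.one (nat_lit 9) (nat_lit 47) (nat_lit 87) (nat_lit 0x5e0000bc00017f430afec9a)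 b62710 (.nil))))) (.one (nat_lit 59) (nat_lit 51) (nat_lit 91) (nat_lit 0x5e0000bc00017e6152fc81f) b62714 (.one (nat_lit 62) (nat_lit 52) (nat_lit 92) (nat_lit 0x5e0000bc00017e422afcda5) b62715 (.tok (nat_lit 65) (nat_lit 0x5e0000bc00017e28f2fd458) (.hit (nat_lit 53) (nat_lit 93) (nat_lit 0x5e0000bc00017e024afd458) b62716 (.hit (nat_lit 54) (nat_lit 94) (nat_lit 0x5e0000bc00017e28f2fc642) b62717 (.nil))) (.tok (nat_lit 68) (nat_lit 0x5e0000bc00017e6132fe709) (.hit (nat_lit 55) (nat_lit 95) (nat_lit 0x5e0000bc00017e6132fe709) b62718 (.one (nat_lit 3) (nat_lit 59) (nat_lit 99) (nat_lit 0x5e0000bc00017de1fafdc55) b62722 (.one (nat_lit 6) (nat_lit 56) (nat_lit 96) (nat_lit 0x5e0000bc00017dd6f2fdaf4) b62719 (.tok (nat_lit 9) (nat_lit 0x5e0000bc00017dfb6afdf83) (.hit (nat_lit 57) (nat_lit 97) (nat_lit 0x5e0000bc00017dfb6afdf83) b62720 (.hit (nat_lit 58) (nat_lit 98) (nat_lit 0x5e0000bc00017de8dafdd31)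 b62721 (.nil))) (.nil))))) (.one (nat_lit 71) (nat_lit 60) (nat_lit 100) (nat_lit 0x5e0000bc00017e4272fc482) b62723 (.nil)))))))))))))))))) (.tok (nat_lit 52) (nat_lit 0x5e0000bc00017f56ab008cb) (.hit (nat_lit 176) (nat_lit 0) (nat_lit 0x5e0000bc00017f475b008cb) b62724 (.tok (nat_lit 6) (nat_lit 0x5e0000bc00017f56ab007c6) (.hit (nat_lit 177) (nat_lit 7) (nat_lit 0x5e0000bc00017f56ab007c6) b62725 (.hit (nat_lit 178) (nat_lit 15) (nat_lit 0x5e0000bc00017ed5a2ff813) b62726 (.nil))) (.tok (nat_lit 9) (nat_lit 0x5e0000bc00017f177affb1c) (.hit (nat_lit 179) (nat_lit 20) (nat_lit 0x5e0000bc00017ea582ff53d) b62727 (.hit (nat_lit 180) (nat_lit 28) (nat_lit 0x5e0000bc00017f177affb1c) b62728 (.nil))) (.nil)))) (.tok (nat_lit 55) (nat_lit 0x5e0000bc00017f708b004c4) (.hit (nat_lit 187) (nat_lit 0) (nat_lit 0x5e0000bc00017f708aff84d) b62729 (.tok (nat_lit 3) (nat_lit 0x5e0000bc00017ed83affb94)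 (.hit (nat_lit 188) (nat_lit 1) (nat_lit 0x5e0000bc00017e6e12fee4f) b62730 (.one (nat_lit 67) (nat_lit 189) (nat_lit 2) (nat_lit 0x5e0000bc00017ed83affb94) b62731 (.nil))) (.tok (nat_lit 6) (nat_lit 0x5e0000bc00017f21bb004c4) (.hit (nat_lit 190) (nat_lit 7) (nat_lit 0x5e0000bc00017e550afeb2e) b62732 (.hit (nat_lit 193) (nat_lit 15) (nat_lit 0x5e0000bc00017e6eaafee62) b62735 (.tok (nat_lit 55) (nat_lit 0x5e0000bc00017f21bb004c4) (.hit (nat_lit 191) (nat_lit 8) (nat_lit 0x5e0000bc00017ed102ffaad) b62733 (.hit (nat_lit 194) (nat_lit 16) (nat_lit 0x5e0000bc00017ee65affd58) b62736 (.one (nat_lit 6) (nat_lit 192) (nat_lit 9) (nat_lit 0x5e0000bc00017f21bb004c4) b62734 (.nil)))) (.nil)))) (.nil)))) (.tok (nat_lit 58) (nat_lit 0x5e0000bc00018000030208d) (.hit (nat_lit 201) (nat_lit 0) (nat_lit 0x5e0000bc00017f084aff595) b62737 (.tok (nat_lit 3) (nat_lit 0x5e0000bc00017f3bab00802) (.hit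 (nat_lit 202) (nat_lit 1) (nat_lit 0x5e0000bc00017e7772fef7b) b62738 (.one (nat_lit 55) (nat_lit 203) (nat_lit 3) (nat_lit 0x5e0000bc00017f3bab00802) b62739 (.nil))) (.tok (nat_lit 9) (nat_lit 0x5e0000bc00018000030208d) (.hit (nat_lit 204) (nat_lit 20) (nat_lit 0x5e0000bc00017eb25aff6d8) b62740 (.hit (nat_lit 207) (nat_lit 28) (nat_lit 0x5e0000bc00017e6812fed8f) b62743 (.tok (nat_lit 67) (nat_lit 0x5e0000bc00018000030208d) (.hit (nat_lit 205) (nat_lit 21) (nat_lit 0x5e0000bc00017f17830037d) b62741 (.hit (nat_lit 208) (nat_lit 29) (nat_lit 0x5e0000bc00017f360b0074e) b62744 (.one (nat_lit 9) (nat_lit 206) (nat_lit 22) (nat_lit 0x5e0000bc00018000030208d) b62742 (.nil)))) (.nil)))) (.nil)))) (.nil))))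
noncomputable def r91_8 : Rw Blk := .tok (nat_lit 3) (nat_lit 0x5e0000bc000180a443021ef) (.hit (nat_lit 15) (nat_lit 0) (nat_lit 0x5e0000bc00017f087afee25) b62756 (.tok (nat_lit 9) (nat_lit 0x5e0000bc00017ead8aff102) (.hit (nat_lit 16) (nat_lit 20) (nat_lit 0x5e0000bc00017dfee2fdb2d) b62757 (.hit (nat_lit 21) (nat_lit 28) (nat_lit 0x5e0000bc00017cf91afba74) b62760 (.one (nat_lit 56) (nat_lit 23) (nat_lit 31) (nat_lit 0x5e0000bc00017e40dafe36c) b62761 (.tok (nat_lit 68) (nat_lit 0x5e0000bc00017ead8aff102) (.hit (nat_lit 19) (nat_lit 26) (nat_lit 0x5e0000bc00017e5c1afe6d4) b62758 (.hit (nat_lit 24) (nat_lit 32) (nat_lit 0x5e0000bc00017e1ce2fdeed) b62762 (.one (nat_lit 9) (nat_lit 20) (nat_lit 27) (nat_lit 0x5e0000bc00017ead8aff102) b62759 (.nil)))) (.nil))))) (.tok (nat_lit 64) (nat_lit 0x5e0000bc00017e8feafed4e) (.hit (nat_lit 25) (nat_lit 50) (nat_lit 0x5e0000bc00017e8feafed4e)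 b62763 (.hit (nat_lit 26) (nat_lit 51) (nat_lit 0x5e0000bc00017e6cb2fe8e7) b62764 (.nil))) (.tok (nat_lit 67) (nat_lit 0x5e0000bc000180a443021ef) (.hit (nat_lit 27) (nat_lit 52) (nat_lit 0x5e0000bc000180a443021ef) b62765 (.one (nat_lit 3) (nat_lit 33) (nat_lit 58) (nat_lit 0x5e0000bc00017ec912ff473) b62771 (.tok (nat_lit 9) (nat_lit 0x5e0000bc00017efceaffaee) (.hit (nat_lit 28) (nat_lit 53) (nat_lit 0x5e0000bc00017e7b92feac3) b62766 (.hit (nat_lit 31) (nat_lit 56) (nat_lit 0x5e0000bc00017e6702fe831) b62769 (.tok (nat_lit 67) (nat_lit 0x5e0000bc00017efceaffaee) (.hit (nat_lit 29) (nat_lit 54) (nat_lit 0x5e0000bc00017efceaffaee) b62767 (.hit (nat_lit 32) (nat_lit 57) (nat_lit 0x5e0000bc00017ec732ff437) b62770 (.one (nat_lit 9) (nat_lit 30) (nat_lit 55) (nat_lit 0x5e0000bc00017e881afec54) b62768 (.nil)))) (.nil)))) (.nil)))) (.one (nat_lit 70) (nat_lit 35) (nat_lit 60) (nat_lit 0x5e0000bc00017eeb9aff8c4)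 b62772 (.nil)))))) (.tok (nat_lit 6) (nat_lit 0x5e0000bc000181428302b3e) (.hit (nat_lit 0) (nat_lit 0) (nat_lit 0x5e0000bc00017f638aff891) b62745 (.tok (nat_lit 6) (nat_lit 0x5e0000bc00017f40f2febab) (.hit (nat_lit 1) (nat_lit 7) (nat_lit 0x5e0000bc00017f0fd2fe89b) b62746 (.hit (nat_lit 4) (nat_lit 15) (nat_lit 0x5e0000bc00017e50cafdb96) b62747 (.one (nat_lit 68) (nat_lit 6) (nat_lit 18) (nat_lit 0x5e0000bc00017f40f2febab) b62748 (.nil)))) (.tok (nat_lit 52) (nat_lit 0x5e0000bc00017ffdfb0030f) (.hit (nat_lit 7) (nat_lit 39) (nat_lit 0x5e0000bc00017ffdfb0030f) b62749 (.hit (nat_lit 8) (nat_lit 40) (nat_lit 0x5e0000bc00017f5232ff70b) b62750 (.nil))) (.tok (nat_lit 55) (nat_lit 0x5e0000bc000181428302b3e) (.hit (nat_lit 9) (nat_lit 41) (nat_lit 0x5e0000bc000181428302b3e) b62751 (.one (nat_lit 3) (nat_lit 12) (nat_lit 47) (nat_lit 0x5e0000bc00017fc6a2fff68) b62754 (.tok (nat_lit 6)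 (nat_lit 0x5e0000bc000180234b009e8) (.hit (nat_lit 10) (nat_lit 42) (nat_lit 0x5e0000bc000180234b009e8) b62752 (.hit (nat_lit 11) (nat_lit 45) (nat_lit 0x5e0000bc00017faf82ffc12) b62753 (.nil))) (.nil)))) (.one (nat_lit 58) (nat_lit 14) (nat_lit 49) (nat_lit 0x5e0000bc00017f073aff55c) b62755 (.nil)))))) (.nil))
noncomputable def r91_9 : Rw Blk := .tok (nat_lit 3) (nat_lit 0xbfd7fd7f2ddaff4945fee80bfeae57f8b6aff7825fd8f8bfea857f9652ff1775fe9dabfd3b57fc202ff7e2) (.hit (nat_lit 0) (nat_lit 0) (nat_lit 0xbf45557e5052fd2155fbb56bf57b97ec44afd5925fab1cbf5dad7ed27afce9f5fa9ecbf6b157efb9afdb88) b62773 (.tok (nat_lit 6) (nat_lit 0xbf48ed7e38dafece25fccf0bf72017efe0afd8135faf8abf7bc17ebd1afd4de5fb49ebf82997f29aafed5c) (.hit (nat_lit 1) (nat_lit 7) (nat_lit 0xbef7897d9612fd7345fa43ebf209d7e5b42fc3ba5f86d8bf2a5d7e1a52fc0855f8becbf152d7e233afd847) b62774 (.hit (nat_lit 6) (nat_lit 15) (nat_lit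 0xbeedcd7d829afcbbe5f9f60bf16e17e47cafc14b5f81fabf20a17e06dafbe165f870ebf57ed7ed4d2fd8b3) b62779 (.tok (nat_lit 14) (nat_lit 0xbf43797e2df2fe9205fca36bf6c8d7ef322fd6b65facd0bf764d7eb232fd3815fb1e4bf82997f29aafe99e) (.hit (nat_lit 2) (nat_lit 11) (nat_lit 0xbf11f97dcaf2fdf435fb176bf3b0d7e9022fca565f9410bf44cd7e4f32fc7215f9924bf2f9d7e581afdd33) b62775 (.hit (nat_lit 7) (nat_lit 17) (nat_lit 0xbf0e057dc30afd4f25faf7cbf37197e883afc9595f9216bf40d97e474afc6245f972abf82997f29aafe21c) b62780 (.one (nat_lit 9) (nat_lit 3) (nat_lit 12) (nat_lit 0xbf43797e2df2fe9205fca36bf6c8d7ef322fd6b65facd0bf764d7eb232fd3815fb1e4bf611d7ebb1afe99e) b62776 (.nil)))) (.tok (nat_lit 56) (nat_lit 0xbf48ed7e38dafece25fccf0bf72017efe0afd8135faf8abf7bc17ebd1afd4de5fb49ebf6e797f0172fed5c) (.hit (nat_lit 4) (nat_lit 13) (nat_lit 0xbf284d7df79afe1845fbca0bf51617ebccafcfeb5f9f3abf5b217e7bdafccb65fa44ebf45f17e9caafe3fe)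 b62777 (.hit (nat_lit 9) (nat_lit 19) (nat_lit 0xbf17dd7dd6bafd6885fb468bf40f17e9beafcbcf5f9702bf4ab17e5afafc89a5f9c16bf6e797f0172fdc39) b62781 (.one (nat_lit 6) (nat_lit 5) (nat_lit 14) (nat_lit 0xbf48ed7e38dafece25fccf0bf72017efe0afd8135faf8abf7bc17ebd1afd4de5fb49ebf66917ec602fed5c) b62778 (.nil)))) (.nil))))) (.tok (nat_lit 52) (nat_lit 0xbf1dc57de28afdd595fb75cbf46d97ea7bafcd495f99f6bf50997e66cafca145f9f0abf86bd7f3a42fe24b) (.hit (nat_lit 19) (nat_lit 39) (nat_lit 0xbf111d7dc93afd01a5fb108bf3a317e8e6afca1f5f93a2bf43f17e4d7afc6ea5f98b6bf81997f27b2fe101) b62782 (.hit (nat_lit 20) (nat_lit 40) (nat_lit 0xbf1dc57de28afdd595fb75cbf46d97ea7bafcd495f99f6bf50997e66cafca145f9f0abf86bd7f3a42fe24b) b62783 (.nil))) (.tok (nat_lit 55) (nat_lit 0xbfd7fd7f2ddaff4945fee80bfeae57f8b6aff7825fd8f8bfea857f9652ff1775fe9dabfd3b57fc202ff7e2) (.hit (nat_lit 21) (nat_lit 41) (nat_lit 0xbfd7fd7f1542ff2bc5fe1febfeae57f5f6aff7825fd8f8bfea857f9652ff1775fe9dabfd3b57fc202ff7e2)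 b62784 (.tok (nat_lit 3) (nat_lit 0xbf60417e6782ff4945fd89abf89557f2cb2fdde85fbb34bf93157eebc2fdab35fc048bf7de57efccaff4ca) (.hit (nat_lit 27) (nat_lit 47) (nat_lit 0xbf41a57e2a4afe8205fc94cbf6ab97eef7afd6415fabe6bf74797eae8afd30c5fb0fabf5f497ec0c2fecf2) b62790 (.one (nat_lit 67) (nat_lit 28) (nat_lit 48) (nat_lit 0xbf60417e6782ff4945fd89abf89557f2cb2fdde85fbb34bf93157eebc2fdab35fc048bf7de57efccaff4ca) b62791 (.nil))) (.tok (nat_lit 6) (nat_lit 0xbfa52d7f2ddafed2a5fee80bfd0657f8b6afe4e95fc936bfaf197f23cafe1b45fce4abf99e97f2cb2ff2ce) (.hit (nat_lit 22) (nat_lit 42) (nat_lit 0xbf6c997eae62fe4f95fdff2bfa6757f570afdb685fb634bf89157ed7c2fd8335fbb48bf73e57ee0aafec0c) b62785 (.hit (nat_lit 25) (nat_lit 45) (nat_lit 0xbf43097e2d12fe3ed5fc9febf6c1d7ef242fd69a5fac98bf75dd7eb152fd3655fb1acbf60ad7eba3afeb08) b62788 (.tok (nat_lit 55) (nat_lit 0xbfa52d7f2ddafed2a5fee80bfd0657f8b6afe4e95fc936bfaf197f23cafe1b45fce4abf99e97f2cb2ff2ce)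 (.hit (nat_lit 23) (nat_lit 43) (nat_lit 0xbfa52d7f2ddafe5ef5fee80bfd0657f8b6afe4e95fc936bfaf197f23cafe1b45fce4abf99e97f2cb2fef59) b62786 (.hit (nat_lit 26) (nat_lit 46) (nat_lit 0xbf6d317e8162fed2a5fdf12bf96457f4692fe1245fc1acbfa0057f05a2fddef5fc6c0bf8ad57f0e8aff2ce) b62789 (.one (nat_lit 6) (nat_lit 24) (nat_lit 44) (nat_lit 0xbf66d57e74aafe5085fdbe4bf8fe97f39dafdf8d5fbe7ebf99a97ef8eafdc585fc392bf84797f01d2fedbd) b62787 (.nil)))) (.nil)))) (.nil)))) (.one (nat_lit 58) (nat_lit 29) (nat_lit 49) (nat_lit 0xbf3e857e240afe4155fc7bcbf67997ee93afd5795faa56bf71597ea84afd2445faf6abfc39d7fb3eaff180) b62792 (.nil)))))) (.tok (nat_lit 9) (nat_lit 0xc0000180000300000600000c0000180000300000600000c0000180000300000600000c0000180000300000) (.hit (nat_lit 157) (nat_lit 0) (nat_lit 0xbf96697f24e2fddf35fdc64bf9d9d7f4872feb605fca9abfa7b97f4ca2fe7c05fd3e6bf9eb57f4fa2fe56b) b62793 (.tok (nat_lit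 9) (nat_lit 0xc0000180000300000600000c0000180000300000600000c0000180000300000600000c0000180000300000) (.hit (nat_lit 163) (nat_lit 20) (nat_lit 0xbf6f497ec51afd6035fbaa2bf8d3d7ee5b2fdbba5fb7d0bf6ba57ed43afdb675fb6dcbf69cd7ed86afdaf6) b62794 (.hit (nat_lit 171) (nat_lit 28) (nat_lit 0xbf38d97df11afd30d5f8682bf49297dea0afc86b5f9aacbf36f57e775afdcbe5fba5ebf5d7d7ec072fd71f) b62799 (.tok (nat_lit 14) (nat_lit 0xc0000180000300000600000c0000180000300000600000c0000180000300000600000c0000180000300000) (.hit (nat_lit 167) (nat_lit 24) (nat_lit 0xbff2b17fdda2ffeae5ffc46bfe2f17fdc12ffd6e5ffa02bff23d7fd892ff8c75ff3bebfe4557fc8faffa76) b62795 (.hit (nat_lit 173) (nat_lit 30) (nat_lit 0xbfaac97ece4aff3195fbfb8bfb9a57ecdeafe2f35fc9d8bf9db17f5442ff1cb5fe46cbfbeb57f6d42fe844) b62800 (.one (nat_lit 6) (nat_lit 168) (nat_lit 25) (nat_lit 0xc0000180000300000600000c0000180000300000600000c0000180000300000600000c0000180000300000)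 b62796 (.nil)))) (.one (nat_lit 56) (nat_lit 174) (nat_lit 31) (nat_lit 0xbf8b357e9c6afe4955fb1b8bf9ec57e95eafdbf35fbbd8bf70e17ef942ff0475fe5aebfa5e57f41eafe430) b62801 (.tok (nat_lit 68) (nat_lit 0xbfd5897fb72aff0395fec40bfcb297faf22ff1255fde2ebfd11d7fb892fec135fd922bfb0f57f60aafffbe) (.hit (nat_lit 169) (nat_lit 26) (nat_lit 0xbfd5897f7bb2fef8b5fec40bfcb297faf22ff1255fde2ebfc2357f871afe9da5fd8a8bfb0f57f60aafee92) b62797 (.hit (nat_lit 175) (nat_lit 32) (nat_lit 0xbf8c757e9872fdcb15fb0a4bf9b597e9142fdb5e5fbaaebf7a197f0c9afec135fd922bf9cb97f2832fdf4e) b62802 (.one (nat_lit 9) (nat_lit 170) (nat_lit 27) (nat_lit 0xbfadd57fb72aff0395fddf4bfbf4d7f421afe5915fd4f6bfd11d7fb892fe4235fd138bf96b57f3c52fffbe) b62798 (.nil)))) (.nil)))))) (.nil))) (.nil))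
noncomputable def r91_10 : Rw Blk := .tok (nat_lit 6) (nat_lit 0x5e0000bc00017f9b92ff80a) (.hit (nat_lit 51) (nat_lit 0) (nat_lit 0x5e0000bc00017ee012fe3ba) b62803 (.tok (nat_lit 14) (nat_lit 0x5e0000bc00017f3e4afebe3) (.hit (nat_lit 62) (nat_lit 61) (nat_lit 0x5e0000bc00017f3e4afea6f) b62804 (.one (nat_lit 3) (nat_lit 63) (nat_lit 62) (nat_lit 0x5e0000bc00017f31a2fe0d7) b62805 (.tok (nat_lit 6) (nat_lit 0x5e0000bc00017eeb42fe9ab) (.hit (nat_lit 66) (nat_lit 65) (nat_lit 0x5e0000bc00017e9972fe9ab) b62808 (.hit (nat_lit 67) (nat_lit 66) (nat_lit 0x5e0000bc00017eeb42fe7ed) b62809 (.nil))) (.tok (nat_lit 9) (nat_lit 0x5e0000bc00017f2252febe3) (.hit (nat_lit 64) (nat_lit 63) (nat_lit 0x5e0000bc00017f2252febe3) b62806 (.hit (nat_lit 65) (nat_lit 64) (nat_lit 0x5e0000bc00017ef67afe9a1) b62807 (.nil))) (.nil))))) (.one (nat_lit 17) (nat_lit 68) (nat_lit 67) (nat_lit 0x5e0000bc00017ee172fd646)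 b62810 (.tok (nat_lit 20) (nat_lit 0x5e0000bc00017f89fafefa5) (.hit (nat_lit 69) (nat_lit 68) (nat_lit 0x5e0000bc00017f89fafefa5) b62811 (.hit (nat_lit 70) (nat_lit 69) (nat_lit 0x5e0000bc00017eeceafd4b2) b62812 (.nil))) (.tok (nat_lit 23) (nat_lit 0x5e0000bc00017ed752fd5b2) (.hit (nat_lit 71) (nat_lit 70) (nat_lit 0x5e0000bc00017df9aafd5b2) b62813 (.hit (nat_lit 72) (nat_lit 71) (nat_lit 0x5e0000bc00017ed752fd4b2) b62814 (.nil))) (.one (nat_lit 26) (nat_lit 73) (nat_lit 72) (nat_lit 0x5e0000bc00017e5f62fc242) b62815 (.one (nat_lit 29) (nat_lit 74) (nat_lit 73) (nat_lit 0x5e0000bc00017e5882fc554) b62816 (.one (nat_lit 32) (nat_lit 75) (nat_lit 74) (nat_lit 0x5e0000bc00017e4caafc831) b62817 (.one (nat_lit 35) (nat_lit 76) (nat_lit 75) (nat_lit 0x5e0000bc00017ea122fc831) b62818 (.one (nat_lit 38) (nat_lit 77) (nat_lit 76) (nat_lit 0x5e0000bc00017ed3aafd686) b62819 (.tok (nat_lit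 41) (nat_lit 0x5e0000bc00017ee8fafcc31) (.hit (nat_lit 78) (nat_lit 77) (nat_lit 0x5e0000bc00017ea56afc254) b62820 (.hit (nat_lit 79) (nat_lit 78) (nat_lit 0x5e0000bc00017ee8fafcc31) b62821 (.nil))) (.tok (nat_lit 44) (nat_lit 0x5e0000bc00017efb6afcdf2) (.hit (nat_lit 80) (nat_lit 79) (nat_lit 0x5e0000bc00017efb6afcdf2) b62822 (.hit (nat_lit 81) (nat_lit 80) (nat_lit 0x5e0000bc00017e9972fcb86) b62823 (.nil))) (.tok (nat_lit 47) (nat_lit 0x5e0000bc00017efe42fcd66) (.hit (nat_lit 82) (nat_lit 81) (nat_lit 0x5e0000bc00017d532afc0e2) b62824 (.hit (nat_lit 83) (nat_lit 82) (nat_lit 0x5e0000bc00017efe42fcd66) b62825 (.nil))) (.one (nat_lit 50) (nat_lit 84) (nat_lit 83) (nat_lit 0x5e0000bc00017ed40afcff4) b62826 (.tok (nat_lit 53) (nat_lit 0x5e0000bc00017edb3afd884) (.hit (nat_lit 85) (nat_lit 84) (nat_lit 0x5e0000bc00017e11aafd884) b62827 (.hit (nat_lit 86) (nat_lit 85) (nat_lit 0x5e0000bc00017edb3afcdbe)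 b62828 (.nil))) (.tok (nat_lit 56) (nat_lit 0x5e0000bc00017f9b92ff80a) (.hit (nat_lit 87) (nat_lit 86) (nat_lit 0x5e0000bc00017f96daff6c1) b62829 (.one (nat_lit 3) (nat_lit 91) (nat_lit 90) (nat_lit 0x5e0000bc00017f9b92feb92) b62833 (.tok (nat_lit 6) (nat_lit 0x5e0000bc00017f57b2fe658) (.hit (nat_lit 89) (nat_lit 88) (nat_lit 0x5e0000bc00017f57b2fe658) b62831 (.hit (nat_lit 90) (nat_lit 89) (nat_lit 0x5e0000bc00017eff52fd942) b62832 (.nil))) (.one (nat_lit 9) (nat_lit 88) (nat_lit 87) (nat_lit 0x5e0000bc00017f450aff80a) b62830 (.nil))))) (.one (nat_lit 59) (nat_lit 92) (nat_lit 91) (nat_lit 0x5e0000bc00017e9ff2fc24a) b62834 (.nil)))))))))))))))))) (.tok (nat_lit 52) (nat_lit 0x5e0000bc00018000030131a) (.hit (nat_lit 225) (nat_lit 0) (nat_lit 0x5e0000bc00017fe7630131a) b62835 (.tok (nat_lit 6) (nat_lit 0x5e0000bc000180000300ead) (.hit (nat_lit 226) (nat_lit 7) (nat_lit 0x5e0000bc000180000300ead)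 b62836 (.hit (nat_lit 227) (nat_lit 15) (nat_lit 0x5e0000bc00017f4752ffb37) b62837 (.nil))) (.tok (nat_lit 9) (nat_lit 0x5e0000bc00017f1d4aff92f) (.hit (nat_lit 228) (nat_lit 20) (nat_lit 0x5e0000bc00017e6ec2ff1bc) b62838 (.hit (nat_lit 229) (nat_lit 28) (nat_lit 0x5e0000bc00017f1d4aff92f) b62839 (.nil))) (.nil)))) (.tok (nat_lit 55) (nat_lit 0x5e0000bc00017f661b006b5) (.hit (nat_lit 250) (nat_lit 0) (nat_lit 0x5e0000bc00017f661aff2cc) b62845 (.tok (nat_lit 3) (nat_lit 0x5e0000bc00017f168b006b5) (.hit (nat_lit 251) (nat_lit 1) (nat_lit 0x5e0000bc00017e3e12feba6) b62846 (.one (nat_lit 67) (nat_lit 252) (nat_lit 2) (nat_lit 0x5e0000bc00017f168b006b5) b62847 (.nil))) (.tok (nat_lit 6) (nat_lit 0x5e0000bc00017ed372ffe52) (.hit (nat_lit 253) (nat_lit 7) (nat_lit 0x5e0000bc00017e6e2aff1a9) b62848 (.hit (nat_lit 256) (nat_lit 15) (nat_lit 0x5e0000bc00017e357afea93) b62851 (.tok (nat_lit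 55) (nat_lit 0x5e0000bc00017ed372ffe52) (.hit (nat_lit 254) (nat_lit 8) (nat_lit 0x5e0000bc00017e8cc2ff57c) b62849 (.hit (nat_lit 257) (nat_lit 16) (nat_lit 0x5e0000bc00017ed372ffe52) b62852 (.one (nat_lit 6) (nat_lit 255) (nat_lit 9) (nat_lit 0x5e0000bc00017ebf22ffbc8) b62850 (.nil)))) (.nil)))) (.nil)))) (.tok (nat_lit 58) (nat_lit 0x5e0000bc00017fb04b00d39) (.hit (nat_lit 236) (nat_lit 0) (nat_lit 0x5e0000bc00017fb04aff8d8) b62840 (.tok (nat_lit 3) (nat_lit 0x5e0000bc00017f4aab00d39) (.hit (nat_lit 237) (nat_lit 1) (nat_lit 0x5e0000bc00017e3ac2feb3c) b62841 (.one (nat_lit 55) (nat_lit 238) (nat_lit 3) (nat_lit 0x5e0000bc00017f4aab00d39) b62842 (.nil))) (.tok (nat_lit 9) (nat_lit 0x5e0000bc00017ea44aff86d) (.hit (nat_lit 239) (nat_lit 20) (nat_lit 0x5e0000bc00017ea44aff86d) b62843 (.hit (nat_lit 242) (nat_lit 28) (nat_lit 0x5e0000bc00017e6a32ff12a) b62844 (.nil))) (.nil))))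 (.nil))))
noncomputable def r91_11 : Rw Blk := .tok (nat_lit 3) (nat_lit 0x5e0000bc00018017d300a3a) (.hit (nat_lit 15) (nat_lit 0) (nat_lit 0x5e0000bc00017efc9aff72d) b62868 (.tok (nat_lit 9) (nat_lit 0x5e0000bc00017e30fafe49c) (.hit (nat_lit 16) (nat_lit 20) (nat_lit 0x5e0000bc00017dd582fd92d) b62869 (.hit (nat_lit 21) (nat_lit 28) (nat_lit 0x5e0000bc00017d1772fc16b) b62872 (.tok (nat_lit 14) (nat_lit 0x5e0000bc00017e30fafe49c) (.hit (nat_lit 17) (nat_lit 24) (nat_lit 0x5e0000bc00017dbfc2fd675) b62870 (.hit (nat_lit 22) (nat_lit 30) (nat_lit 0x5e0000bc00017e1a7afe1cc) b62873 (.one (nat_lit 6) (nat_lit 18) (nat_lit 25) (nat_lit 0x5e0000bc00017e30fafe49c) b62871 (.nil)))) (.one (nat_lit 56) (nat_lit 23) (nat_lit 31) (nat_lit 0x5e0000bc00017e0ccafe016) b62874 (.nil))))) (.tok (nat_lit 64) (nat_lit 0x5e0000bc00017e7302fecdd) (.hit (nat_lit 25) (nat_lit 50) (nat_lit 0x5e0000bc00017e09d2fdfb7)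 b62875 (.hit (nat_lit 26) (nat_lit 51) (nat_lit 0x5e0000bc00017e7302fecdd) b62876 (.nil))) (.tok (nat_lit 67) (nat_lit 0x5e0000bc00018017d300a3a) (.hit (nat_lit 27) (nat_lit 52) (nat_lit 0x5e0000bc00018017d300a3a) b62877 (.tok (nat_lit 3) (nat_lit 0x5e0000bc00017eb4c2ff515) (.hit (nat_lit 33) (nat_lit 58) (nat_lit 0x5e0000bc00017e73cafecf6) b62880 (.one (nat_lit 55) (nat_lit 34) (nat_lit 59) (nat_lit 0x5e0000bc00017eb4c2ff515) b62881 (.nil))) (.tok (nat_lit 9) (nat_lit 0x5e0000bc00017e527afe8cc) (.hit (nat_lit 28) (nat_lit 53) (nat_lit 0x5e0000bc00017e38c2fe595) b62878 (.hit (nat_lit 31) (nat_lit 56) (nat_lit 0x5e0000bc00017e527afe8cc) b62879 (.nil))) (.nil)))) (.one (nat_lit 70) (nat_lit 35) (nat_lit 60) (nat_lit 0x5e0000bc00017e6a2afebc2) b62882 (.nil)))))) (.tok (nat_lit 6) (nat_lit 0x5e0000bc000180b5b30343a) (.hit (nat_lit 0) (nat_lit 0) (nat_lit 0x5e0000bc00017f9b3b01006)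 b62853 (.tok (nat_lit 6) (nat_lit 0x5e0000bc00017fe5fb00e6e) (.hit (nat_lit 1) (nat_lit 7) (nat_lit 0x5e0000bc00017ee6dafea61) b62854 (.hit (nat_lit 4) (nat_lit 15) (nat_lit 0x5e0000bc00017e8b72fde2e) b62857 (.tok (nat_lit 14) (nat_lit 0x5e0000bc00017fe5fb00e6e) (.hit (nat_lit 2) (nat_lit 11) (nat_lit 0x5e0000bc00017fb6830093d) b62855 (.hit (nat_lit 5) (nat_lit 17) (nat_lit 0x5e0000bc00017ee172fe705) b62858 (.one (nat_lit 9) (nat_lit 3) (nat_lit 12) (nat_lit 0x5e0000bc00017fe5fb00e6e) b62856 (.nil)))) (.one (nat_lit 68) (nat_lit 6) (nat_lit 18) (nat_lit 0x5e0000bc00017f8d52ff8ce) b62859 (.nil))))) (.tok (nat_lit 52) (nat_lit 0x5e0000bc0001802e3b01645) (.hit (nat_lit 7) (nat_lit 39) (nat_lit 0x5e0000bc00017fe9e30152b) b62860 (.hit (nat_lit 8) (nat_lit 40) (nat_lit 0x5e0000bc0001802e3b01645) b62861 (.nil))) (.tok (nat_lit 55) (nat_lit 0x5e0000bc000180356b01e1b) (.hit (nat_lit 9)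 (nat_lit 41) (nat_lit 0x5e0000bc0001800513017dd) b62862 (.tok (nat_lit 3) (nat_lit 0x5e0000bc000180356b01e1b) (.hit (nat_lit 12) (nat_lit 47) (nat_lit 0x5e0000bc00017fc8d301409) b62865 (.one (nat_lit 67) (nat_lit 13) (nat_lit 48) (nat_lit 0x5e0000bc000180356b01e1b) b62866 (.nil))) (.tok (nat_lit 6) (nat_lit 0x5e0000bc00017fa57b00af3) (.hit (nat_lit 10) (nat_lit 42) (nat_lit 0x5e0000bc00017f3b0b00af3) b62863 (.hit (nat_lit 11) (nat_lit 45) (nat_lit 0x5e0000bc00017fa57b00350) b62864 (.nil))) (.nil)))) (.one (nat_lit 58) (nat_lit 14) (nat_lit 49) (nat_lit 0x5e0000bc000180b5b30343a) b62867 (.nil)))))) (.nil))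
noncomputable def r91_12 : Rw Blk := .tok (nat_lit 9) (nat_lit 0x1780002f0000600000c06d2180924b004e9) (.hit (nat_lit 0) (nat_lit 0) (nat_lit 0x1780002f00005fb17abf806d7ec27afd7b9) b62883 (.tok (nat_lit 14) (nat_lit 0x1780002f00005ffa7cbfbf3d7f410affb92) (.hit (nat_lit 21) (nat_lit 61) (nat_lit 0x1780002f00005fe1dcbf921d7f0522fe3d6) b62884 (.one (nat_lit 3) (nat_lit 22) (nat_lit 62) (nat_lit 0x1780002f00005fea86bf69f57ea1cafe81c) b62885 (.tok (nat_lit 6) (nat_lit 0x1780002f00005ffa7cbfbf3d7f410affb92) (.hit (nat_lit 25) (nat_lit 65) (nat_lit 0x1780002f00005ffa7cbfbf3d7f410affb92) b62888 (.hit (nat_lit 26) (nat_lit 66) (nat_lit 0x1780002f00005fbe8ebf741d7ec922fd86b) b62889 (.nil))) (.tok (nat_lit 9) (nat_lit 0x1780002f00005fc190bf7ee17ed6b2fdcd7) (.hit (nat_lit 23) (nat_lit 63) (nat_lit 0x1780002f00005f7adcbf7ae57ed6b2fda1d) b62886 (.hit (nat_lit 24) (nat_lit 64) (nat_lit 0x1780002f00005fc190bf7ee17ecf9afdcd7)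 b62887 (.nil))) (.nil))))) (.one (nat_lit 17) (nat_lit 27) (nat_lit 67) (nat_lit 0x1780002f00005fd004bf5d6d7e8bcafd4e2) b62890 (.tok (nat_lit 20) (nat_lit 0x1780002f00005fb044bf37f17e50cafc960) (.hit (nat_lit 28) (nat_lit 68) (nat_lit 0x1780002f00005f5962bf37f17e50cafc960) b62891 (.hit (nat_lit 29) (nat_lit 69) (nat_lit 0x1780002f00005fb044bf2c4d7e2a52fc81a) b62892 (.nil))) (.tok (nat_lit 23) (nat_lit 0x1780002f0000600000c06d2180924b004e9) (.hit (nat_lit 30) (nat_lit 70) (nat_lit 0x1780002f0000600000c06d2180924b004e9) b62893 (.hit (nat_lit 31) (nat_lit 71) (nat_lit 0x1780002f00005fb608bf34717e52bafca6d) b62894 (.nil))) (.one (nat_lit 38) (nat_lit 36) (nat_lit 76) (nat_lit 0x1780002f00005fad1ebf40397e615afcb72) b62895 (.tok (nat_lit 41) (nat_lit 0x1780002f00005fa504bf3c857e58f2fcd33) (.hit (nat_lit 37) (nat_lit 77) (nat_lit 0x1780002f00005f9866bef3857dc622fc56f) b62896 (.hit (nat_lit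 38) (nat_lit 78) (nat_lit 0x1780002f00005fa504bf3c857e58f2fcd33) b62897 (.nil))) (.tok (nat_lit 44) (nat_lit 0x1780002f00005fd746bf4fa97e7952fda8b) (.hit (nat_lit 39) (nat_lit 79) (nat_lit 0x1780002f00005f4a90bf1a4d7e1582fc1f7) b62898 (.hit (nat_lit 40) (nat_lit 80) (nat_lit 0x1780002f00005fd746bf4fa97e7952fda8b) b62899 (.nil))) (.tok (nat_lit 47) (nat_lit 0x1780002f00005fc3d4bf5cc17e6912fd6c0) (.hit (nat_lit 41) (nat_lit 81) (nat_lit 0x1780002f00005fc3d4bf5cc17e6912fd6c0) b62900 (.hit (nat_lit 42) (nat_lit 82) (nat_lit 0x1780002f00005fac58befa5d7de782fc540) b62901 (.nil))) (.one (nat_lit 50) (nat_lit 43) (nat_lit 83) (nat_lit 0x1780002f00005fa1f4bf295d7e33a2fc5bb) b62902 (.tok (nat_lit 53) (nat_lit 0x1780002f00005fb994bf33617e47aafccc5) (.hit (nat_lit 44) (nat_lit 84) (nat_lit 0x1780002f00005fb994bf33617e47aafccc5) b62903 (.hit (nat_lit 45) (nat_lit 85) (nat_lit 0x1780002f00005f8f2cbf2ca97e32fafc568)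 b62904 (.nil))) (.tok (nat_lit 56) (nat_lit 0x1780002f00005f9ee2bf7e397edd5afdaf2) (.hit (nat_lit 46) (nat_lit 86) (nat_lit 0x1780002f00005f9ee2bf7bad7ecf2afd754) b62905 (.one (nat_lit 3) (nat_lit 50) (nat_lit 90) (nat_lit 0x1780002f00005f5868bf35fd7e4ce2fc8e3) b62909 (.tok (nat_lit 6) (nat_lit 0x1780002f00005f7c86bf7e397edd5afdaf2) (.hit (nat_lit 48) (nat_lit 88) (nat_lit 0x1780002f00005f7c86bf7e397edd5afdaf2) b62907 (.hit (nat_lit 49) (nat_lit 89) (nat_lit 0x1780002f00005f6be2bf5cf17e9acafd2a0) b62908 (.nil))) (.one (nat_lit 9) (nat_lit 47) (nat_lit 87) (nat_lit 0x1780002f00005f60aebf46897e6dfafcd06) b62906 (.nil))))) (.one (nat_lit 59) (nat_lit 51) (nat_lit 91) (nat_lit 0x1780002f00005faf42bf1f157e1b8afc74f) b62910 (.one (nat_lit 62) (nat_lit 52) (nat_lit 92) (nat_lit 0x1780002f00005fbfbabf302d7e4ab2fce65) b62911 (.tok (nat_lit 65) (nat_lit 0x1780002f00005fd5a6bf82557f0cdafe6a8)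 (.hit (nat_lit 53) (nat_lit 93) (nat_lit 0x1780002f00005fd5a6bf82557f0cdafe6a8) b62912 (.hit (nat_lit 54) (nat_lit 94) (nat_lit 0x1780002f00005fbd8abf40417e6602fd270) b62913 (.nil))) (.tok (nat_lit 68) (nat_lit 0x1780002f00005fe00ebfd7e57f758afe6ee) (.hit (nat_lit 55) (nat_lit 95) (nat_lit 0x1780002f00005fd992bfb0457f13f2fe017) b62914 (.one (nat_lit 3) (nat_lit 59) (nat_lit 99) (nat_lit 0x1780002f00005fc096bf7ffd7ec87afcf30) b62918 (.one (nat_lit 6) (nat_lit 56) (nat_lit 96) (nat_lit 0x1780002f00005fe00ebfd7e57f758afe6ee) b62915 (.tok (nat_lit 9) (nat_lit 0x1780002f00005fd978bf73257ed5f2fe25d) (.hit (nat_lit 57) (nat_lit 97) (nat_lit 0x1780002f00005fd978bf73257ed5f2fe25d) b62916 (.hit (nat_lit 58) (nat_lit 98) (nat_lit 0x1780002f00005fcdaabf49d17e70dafd748) b62917 (.nil))) (.nil))))) (.one (nat_lit 71) (nat_lit 60) (nat_lit 100) (nat_lit 0x1780002f00005fb452bf19117e1822fc82f)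 b62919 (.nil)))))))))))))))))) (.nil)
noncomputable def r91_13 : Rw Blk := .tok (nat_lit 9) (nat_lit 0x5e0000bc000180000300000) (.hit (nat_lit 0) (nat_lit 0) (nat_lit 0x5e0000bc00017ebddafde76) b62920 (.tok (nat_lit 14) (nat_lit 0x5e0000bc000180000300000) (.hit (nat_lit 21) (nat_lit 61) (nat_lit 0x5e0000bc00017f8e02fe9ca) b62921 (.one (nat_lit 3) (nat_lit 22) (nat_lit 62) (nat_lit 0x5e0000bc00017f22b2fdff5) b62922 (.tok (nat_lit 6) (nat_lit 0x5e0000bc000180000300000) (.hit (nat_lit 25) (nat_lit 65) (nat_lit 0x5e0000bc000180000300000) b62925 (.hit (nat_lit 26) (nat_lit 66) (nat_lit 0x5e0000bc00017f4a5afe7af) b62926 (.nil))) (.tok (nat_lit 9) (nat_lit 0x5e0000bc00017f2662fea5b) (.hit (nat_lit 23) (nat_lit 63) (nat_lit 0x5e0000bc00017e9022fe716) b62923 (.hit (nat_lit 24) (nat_lit 64) (nat_lit 0x5e0000bc00017f2662fea5b) b62924 (.nil))) (.nil))))) (.one (nat_lit 17) (nat_lit 27) (nat_lit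 67) (nat_lit 0x5e0000bc00017ed372fd564) b62927 (.tok (nat_lit 20) (nat_lit 0x5e0000bc00017ed222fdf97) (.hit (nat_lit 28) (nat_lit 68) (nat_lit 0x5e0000bc00017e542afdf97) b62928 (.hit (nat_lit 29) (nat_lit 69) (nat_lit 0x5e0000bc00017ed222fd3d0) b62929 (.nil))) (.tok (nat_lit 23) (nat_lit 0x5e0000bc00017f1b92fe687) (.hit (nat_lit 30) (nat_lit 70) (nat_lit 0x5e0000bc00017f1b92fe687) b62930 (.hit (nat_lit 31) (nat_lit 71) (nat_lit 0x5e0000bc00017eba02fd3d2) b62931 (.nil))) (.one (nat_lit 38) (nat_lit 36) (nat_lit 76) (nat_lit 0x5e0000bc00017eb12afd5a4) b62932 (.tok (nat_lit 41) (nat_lit 0x5e0000bc00017e9e3afccaf) (.hit (nat_lit 37) (nat_lit 77) (nat_lit 0x5e0000bc00017e9e3afc697) b62933 (.hit (nat_lit 38) (nat_lit 78) (nat_lit 0x5e0000bc00017e85aafccaf) b62934 (.nil))) (.tok (nat_lit 44) (nat_lit 0x5e0000bc00017edb8afcc25) (.hit (nat_lit 39) (nat_lit 79) (nat_lit 0x5e0000bc00017d41cafbd4b)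 b62935 (.hit (nat_lit 40) (nat_lit 80) (nat_lit 0x5e0000bc00017edb8afcc25) b62936 (.nil))) (.tok (nat_lit 47) (nat_lit 0x5e0000bc00017eea6afcf13) (.hit (nat_lit 41) (nat_lit 81) (nat_lit 0x5e0000bc00017eea6afcf13) b62937 (.hit (nat_lit 42) (nat_lit 82) (nat_lit 0x5e0000bc00017ea65afc98e) b62938 (.nil))) (.one (nat_lit 50) (nat_lit 43) (nat_lit 83) (nat_lit 0x5e0000bc00017ea5b2fcf12) b62939 (.tok (nat_lit 53) (nat_lit 0x5e0000bc00017e8c7afd5c5) (.hit (nat_lit 44) (nat_lit 84) (nat_lit 0x5e0000bc00017e65d2fd5c5) b62940 (.hit (nat_lit 45) (nat_lit 85) (nat_lit 0x5e0000bc00017e8c7afc779) b62941 (.nil))) (.tok (nat_lit 56) (nat_lit 0x5e0000bc00017ec4bafe833) (.hit (nat_lit 46) (nat_lit 86) (nat_lit 0x5e0000bc00017ec4bafe833) b62942 (.one (nat_lit 3) (nat_lit 50) (nat_lit 90) (nat_lit 0x5e0000bc00017e4582fddc2) b62946 (.tok (nat_lit 6) (nat_lit 0x5e0000bc00017e5ef2fe0f0) (.hit (nat_lit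 48) (nat_lit 88) (nat_lit 0x5e0000bc00017e5ef2fe0f0) b62944 (.hit (nat_lit 49) (nat_lit 89) (nat_lit 0x5e0000bc00017e4c62fde9e) b62945 (.nil))) (.one (nat_lit 9) (nat_lit 47) (nat_lit 87) (nat_lit 0x5e0000bc00017e3a7afdc61) b62943 (.nil))))) (.one (nat_lit 59) (nat_lit 51) (nat_lit 91) (nat_lit 0x5e0000bc00017ea5fafc5b0) b62947 (.one (nat_lit 62) (nat_lit 52) (nat_lit 92) (nat_lit 0x5e0000bc00017f01c2fd0e8) b62948 (.tok (nat_lit 65) (nat_lit 0x5e0000bc00017f110afe05e) (.hit (nat_lit 53) (nat_lit 93) (nat_lit 0x5e0000bc00017f110afe05e) b62949 (.hit (nat_lit 54) (nat_lit 94) (nat_lit 0x5e0000bc00017eed6afced1) b62950 (.nil))) (.tok (nat_lit 68) (nat_lit 0x5e0000bc00017fc1aafee4f) (.hit (nat_lit 55) (nat_lit 95) (nat_lit 0x5e0000bc00017f7efafeb51) b62951 (.one (nat_lit 3) (nat_lit 59) (nat_lit 99) (nat_lit 0x5e0000bc00017f2a92fd87a) b62955 (.one (nat_lit 6) (nat_lit 56) (nat_lit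 96) (nat_lit 0x5e0000bc00017fa692fedbf) b62952 (.tok (nat_lit 9) (nat_lit 0x5e0000bc00017fc1aafee4f) (.hit (nat_lit 57) (nat_lit 97) (nat_lit 0x5e0000bc00017fc1aafee4f) b62953 (.hit (nat_lit 58) (nat_lit 98) (nat_lit 0x5e0000bc00017f2212fd862) b62954 (.nil))) (.nil))))) (.one (nat_lit 71) (nat_lit 60) (nat_lit 100) (nat_lit 0x5e0000bc00017ec4dafc943) b62956 (.nil)))))))))))))))))) (.nil)
noncomputable def r91_14 : Rw Blk := .tok (nat_lit 6) (nat_lit 0x2feb0b5fdbe0bfd9517fc362fe1c65fd432c000017fb92afe9da) (.hit (nat_lit 81) (nat_lit 0) (nat_lit 0x2fe4b85fd5d4bf98697fc362fe1c65fd432bfbfe57fb92afe078) b62957 (.tok (nat_lit 3) (nat_lit 0x2feb0b5fdbe0bfd9517f9be2fd9ff5fca52c000017f91aafe9da) (.hit (nat_lit 82) (nat_lit 1) (nat_lit 0x2fcbb35f88b0bf69c97e95e2fb93f5f88d2bf61917e8baafcbb3) b62958 (.one (nat_lit 14) (nat_lit 84) (nat_lit 4) (nat_lit 0x2fe8a95fdbe0bfbe497f5b9afc3c35fa19ebff5fd7f4402fe778)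 b62959 (.one (nat_lit 56) (nat_lit 86) (nat_lit 6) (nat_lit 0x2fde885fbe9cbf85197f2acafcb9c5fad8cbfbfa57f1e92fe175) b62961 (.one (nat_lit 68) (nat_lit 85) (nat_lit 5) (nat_lit 0x2feb0b5fd3a2bfd9517f9be2fd9ff5fca52c000017f91aafe9da) b62960 (.nil))))) (.nil))) (.tok (nat_lit 9) (nat_lit 0x300000600000c0000180000300000600000bfd58980000300000) (.hit (nat_lit 157) (nat_lit 0) (nat_lit 0x2fe4b85fd5d4bf98697fc362fdfac5fd432bfc1197fb92afe051) b62962 (.tok (nat_lit 3) (nat_lit 0x2feb0b5fdbe0bfd9517f9be2ff1805fca52bfa3797f91aafe9da) (.hit (nat_lit 158) (nat_lit 1) (nat_lit 0x2fcbb35f88b0bf69c97e95e2fc9e35f88d2bf20797e8baafcbb3) b62963 (.one (nat_lit 14) (nat_lit 160) (nat_lit 4) (nat_lit 0x2fe8a95fdbe0bfbe497ef912feebd5fb9e2bf4a897f42f2fe778) b62964 (.one (nat_lit 56) (nat_lit 162) (nat_lit 6) (nat_lit 0x2feb0b5fd3a2bfd9517f9be2ff1805fca52bfa3797f91aafe9da) b62966 (.one (nat_lit 68) (nat_lit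 161) (nat_lit 5) (nat_lit 0x2fde885fbe9cbf85197f28cafe16c5fadb2bf69ed7f1e92fe175) b62965 (.nil))))) (.tok (nat_lit 40) (nat_lit 0x2fe7215fd042bfb9597f3beafe90b5fc636bf737d7f40d2fe807) (.hit (nat_lit 176) (nat_lit 33) (nat_lit 0x2fe7215fd042bfb9597f3beafe90b5fb978bf737d7f40d2fe807) b62967 (.hit (nat_lit 177) (nat_lit 34) (nat_lit 0x2fe2775fb726bf90d17f0a1afe6b05fc636bf5a957f164afe321) b62968 (.nil))) (.tok (nat_lit 43) (nat_lit 0x3000005ff54cc0000180000300000600000bfd58980000300000) (.hit (nat_lit 178) (nat_lit 35) (nat_lit 0x2fe23a5fbc94bfed7d800002fe6835fe35abfd5897ff5cafe881) b62969 (.hit (nat_lit 179) (nat_lit 36) (nat_lit 0x3000005ff54cc000017fb41300000600000bfadd580000300000) b62970 (.nil))) (.tok (nat_lit 46) (nat_lit 0x2fecc7600000bfc0317fd0e2fff125fd792bfbdf97fe4e2ff02b) (.hit (nat_lit 180) (nat_lit 37) (nat_lit 0x2fecc7600000bfc0317fd0e2fff125fd792bfbdf97fe4e2ff02b) b62971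 (.hit (nat_lit 181) (nat_lit 38) (nat_lit 0x2fe7225fd476bfbc317f843afe6405fd1c6bf97a57f7a02fe8e9) b62972 (.nil))) (.nil)))))) (.nil))
noncomputable def r91_15 : Rw Blk := .tok (nat_lit 3) (nat_lit 0xbc000178000300000) (.hit (nat_lit 61) (nat_lit 0) (nat_lit 0xbc0001780002fed3f) b12933 (.tok (nat_lit 14) (nat_lit 0xbc000178000300000) (.hit (nat_lit 82) (nat_lit 61) (nat_lit 0xbc000178000300000) b12934 (.one (nat_lit 3) (nat_lit 83) (nat_lit 62) (nat_lit 0xbc0001780002fda5e) b12935 (.tok (nat_lit 6) (nat_lit 0xbc0001780002fdee9) (.hit (nat_lit 86) (nat_lit 65) (nat_lit 0xbc0001780002fde0e) b12938 (.hit (nat_lit 87) (nat_lit 66) (nat_lit 0xbc0001780002fdee9) b12939 (.nil))) (.tok (nat_lit 9) (nat_lit 0xbc0001780002ffe02) (.hit (nat_lit 84) (nat_lit 63) (nat_lit 0xbc0001780002ffe02) b12936 (.hit (nat_lit 85) (nat_lit 64) (nat_lit 0xbc0001780002fdd1b) b12937 (.nil))) (.nil))))) (.one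 (nat_lit 17) (nat_lit 88) (nat_lit 67) (nat_lit 0xbc0001780002fd600) b12940 (.tok (nat_lit 20) (nat_lit 0xbc0001780002fdc29) (.hit (nat_lit 89) (nat_lit 68) (nat_lit 0xbc0001780002fdc29) b12941 (.hit (nat_lit 90) (nat_lit 69) (nat_lit 0xbc0001780002fd409) b12942 (.nil))) (.tok (nat_lit 23) (nat_lit 0xbc0001780002fe24e) (.hit (nat_lit 91) (nat_lit 70) (nat_lit 0xbc0001780002fe24e) b12943 (.hit (nat_lit 92) (nat_lit 71) (nat_lit 0xbc0001780002fd429) b12944 (.nil))) (.one (nat_lit 38) (nat_lit 97) (nat_lit 76) (nat_lit 0xbc0001780002fd320) b12945 (.tok (nat_lit 41) (nat_lit 0xbc0001780002fd15b) (.hit (nat_lit 98) (nat_lit 77) (nat_lit 0xbc0001780002fbadf) b12946 (.hit (nat_lit 99) (nat_lit 78) (nat_lit 0xbc0001780002fd15b) b12947 (.nil))) (.tok (nat_lit 44) (nat_lit 0xbc0001780002fcb88) (.hit (nat_lit 100) (nat_lit 79) (nat_lit 0xbc0001780002fbef3) b12948 (.hit (nat_lit 101) (nat_lit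 80) (nat_lit 0xbc0001780002fcb88) b12949 (.nil))) (.tok (nat_lit 47) (nat_lit 0xbc0001780002fcc75) (.hit (nat_lit 102) (nat_lit 81) (nat_lit 0xbc0001780002fcb7b) b12950 (.hit (nat_lit 103) (nat_lit 82) (nat_lit 0xbc0001780002fcc75) b12951 (.nil))) (.one (nat_lit 50) (nat_lit 104) (nat_lit 83) (nat_lit 0xbc0001780002fd3a2) b12952 (.tok (nat_lit 53) (nat_lit 0xbc0001780002fd6ed) (.hit (nat_lit 105) (nat_lit 84) (nat_lit 0xbc0001780002fd6ed) b12953 (.hit (nat_lit 106) (nat_lit 85) (nat_lit 0xbc0001780002fd015) b12954 (.nil))) (.tok (nat_lit 56) (nat_lit 0xbc0001780002ff0b0) (.hit (nat_lit 107) (nat_lit 86) (nat_lit 0xbc0001780002ff0b0) b12955 (.one (nat_lit 3) (nat_lit 111) (nat_lit 90) (nat_lit 0xbc0001780002fdebc) b12959 (.tok (nat_lit 6) (nat_lit 0xbc0001780002ff0a7) (.hit (nat_lit 109) (nat_lit 88) (nat_lit 0xbc0001780002ff0a7) b12957 (.hit (nat_lit 110) (nat_lit 89) (nat_lit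 0xbc0001780002fdef0) b12958 (.nil))) (.one (nat_lit 9) (nat_lit 108) (nat_lit 87) (nat_lit 0xbc0001780002fe1c3) b12956 (.nil))))) (.one (nat_lit 59) (nat_lit 112) (nat_lit 91) (nat_lit 0xbc0001780002fbf53) b12960 (.one (nat_lit 62) (nat_lit 113) (nat_lit 92) (nat_lit 0xbc0001780002fda6b) b12961 (.tok (nat_lit 65) (nat_lit 0xbc0001780002fe024) (.hit (nat_lit 114) (nat_lit 93) (nat_lit 0xbc0001780002fe024) b12962 (.hit (nat_lit 115) (nat_lit 94) (nat_lit 0xbc0001780002fd028) b12963 (.nil))) (.tok (nat_lit 68) (nat_lit 0xbc0001780002fff17) (.hit (nat_lit 116) (nat_lit 95) (nat_lit 0xbc0001780002fff17) b12964 (.one (nat_lit 3) (nat_lit 120) (nat_lit 99) (nat_lit 0xbc0001780002fe5aa) b12968 (.one (nat_lit 6) (nat_lit 117) (nat_lit 96) (nat_lit 0xbc0001780002fe8b1) b12965 (.tok (nat_lit 9) (nat_lit 0xbc0001780002feda6) (.hit (nat_lit 118) (nat_lit 97) (nat_lit 0xbc0001780002fe911) b12966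 (.hit (nat_lit 119) (nat_lit 98) (nat_lit 0xbc0001780002feda6) b12967 (.nil))) (.nil))))) (.one (nat_lit 71) (nat_lit 121) (nat_lit 100) (nat_lit 0xbc0001780002fbf33) b12969 (.nil)))))))))))))))))) (.nil)
noncomputable def r91_16 : Rw Blk := .tok (nat_lit 3) (nat_lit 0xbc000178000300000) (.hit (nat_lit 61) (nat_lit 0) (nat_lit 0xbc0001780002feaa6) b12970 (.tok (nat_lit 14) (nat_lit 0xbc0001780002fff4f) (.hit (nat_lit 82) (nat_lit 61) (nat_lit 0xbc0001780002ffc17) b12971 (.one (nat_lit 3) (nat_lit 83) (nat_lit 62) (nat_lit 0xbc0001780002feeb2) b12972 (.tok (nat_lit 6) (nat_lit 0xbc0001780002fff4f) (.hit (nat_lit 86) (nat_lit 65) (nat_lit 0xbc0001780002fff4f) b12975 (.hit (nat_lit 87) (nat_lit 66) (nat_lit 0xbc0001780002fe88d) b12976 (.nil))) (.tok (nat_lit 9) (nat_lit 0xbc0001780002ffdfe) (.hit (nat_lit 84) (nat_lit 63) (nat_lit 0xbc0001780002ffdfe) b12973 (.hit (nat_lit 85) (nat_lit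 64) (nat_lit 0xbc0001780002ff83a) b12974 (.nil))) (.nil))))) (.one (nat_lit 17) (nat_lit 88) (nat_lit 67) (nat_lit 0xbc0001780002fe79e) b12977 (.tok (nat_lit 20) (nat_lit 0xbc0001780002fe1f4) (.hit (nat_lit 89) (nat_lit 68) (nat_lit 0xbc0001780002fe1f4) b12978 (.hit (nat_lit 90) (nat_lit 69) (nat_lit 0xbc0001780002fd9ab) b12979 (.nil))) (.tok (nat_lit 23) (nat_lit 0xbc0001780002fe0ee) (.hit (nat_lit 91) (nat_lit 70) (nat_lit 0xbc0001780002fe0ee) b12980 (.hit (nat_lit 92) (nat_lit 71) (nat_lit 0xbc0001780002fd9ab) b12979 (.nil))) (.one (nat_lit 38) (nat_lit 97) (nat_lit 76) (nat_lit 0xbc0001780002fdad4) b12981 (.tok (nat_lit 41) (nat_lit 0xbc0001780002fe302) (.hit (nat_lit 98) (nat_lit 77) (nat_lit 0xbc0001780002fbfc2) b12982 (.hit (nat_lit 99) (nat_lit 78) (nat_lit 0xbc0001780002fe302) b12983 (.nil))) (.tok (nat_lit 44) (nat_lit 0xbc0001780002fd459) (.hit (nat_lit 100) (nat_lit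 79) (nat_lit 0xbc0001780002fc9a3) b12984 (.hit (nat_lit 101) (nat_lit 80) (nat_lit 0xbc0001780002fd459) b12985 (.nil))) (.tok (nat_lit 47) (nat_lit 0xbc0001780002fdaf4) (.hit (nat_lit 102) (nat_lit 81) (nat_lit 0xbc0001780002fcf25) b12986 (.hit (nat_lit 103) (nat_lit 82) (nat_lit 0xbc0001780002fdaf4) b12987 (.nil))) (.one (nat_lit 50) (nat_lit 104) (nat_lit 83) (nat_lit 0xbc0001780002fd84c) b12988 (.tok (nat_lit 53) (nat_lit 0xbc0001780002fe1e7) (.hit (nat_lit 105) (nat_lit 84) (nat_lit 0xbc0001780002fdbd2) b12989 (.hit (nat_lit 106) (nat_lit 85) (nat_lit 0xbc0001780002fe1e7) b12990 (.nil))) (.tok (nat_lit 56) (nat_lit 0xbc0001780002ff32e) (.hit (nat_lit 107) (nat_lit 86) (nat_lit 0xbc0001780002ff259) b12991 (.one (nat_lit 3) (nat_lit 111) (nat_lit 90) (nat_lit 0xbc0001780002feacd) b12995 (.tok (nat_lit 6) (nat_lit 0xbc0001780002ff32e) (.hit (nat_lit 109) (nat_lit 88) (nat_lit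 0xbc0001780002ff32e) b12993 (.hit (nat_lit 110) (nat_lit 89) (nat_lit 0xbc0001780002fe197) b12994 (.nil))) (.one (nat_lit 9) (nat_lit 108) (nat_lit 87) (nat_lit 0xbc0001780002fea6a) b12992 (.nil))))) (.one (nat_lit 59) (nat_lit 112) (nat_lit 91) (nat_lit 0xbc0001780002fc5ac) b12996 (.one (nat_lit 62) (nat_lit 113) (nat_lit 92) (nat_lit 0xbc0001780002fdc9a) b12997 (.tok (nat_lit 65) (nat_lit 0xbc0001780002fede6) (.hit (nat_lit 114) (nat_lit 93) (nat_lit 0xbc0001780002fede6) b12998 (.hit (nat_lit 115) (nat_lit 94) (nat_lit 0xbc0001780002fde04) b12999 (.nil))) (.tok (nat_lit 68) (nat_lit 0xbc000178000300000) (.hit (nat_lit 116) (nat_lit 95) (nat_lit 0xbc0001780002ffc6b) b13000 (.one (nat_lit 3) (nat_lit 120) (nat_lit 99) (nat_lit 0xbc0001780002fe0d0) b13004 (.one (nat_lit 6) (nat_lit 117) (nat_lit 96) (nat_lit 0xbc0001780002ff7d2) b13001 (.tok (nat_lit 9) (nat_lit 0xbc000178000300000)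 (.hit (nat_lit 118) (nat_lit 97) (nat_lit 0xbc000178000300000) b13002 (.hit (nat_lit 119) (nat_lit 98) (nat_lit 0xbc0001780002fda2d) b13003 (.nil))) (.nil))))) (.one (nat_lit 71) (nat_lit 121) (nat_lit 100) (nat_lit 0xbc0001780002fc599) b13005 (.nil)))))))))))))))))) (.nil)
noncomputable def r91_17 : Rw Blk := .tok (nat_lit 3) (nat_lit 0xbc0001780002fe263) (.hit (nat_lit 61) (nat_lit 0) (nat_lit 0xbc0001780002fcfa2) b62973 (.tok (nat_lit 14) (nat_lit 0xbc0001780002fe263) (.hit (nat_lit 82) (nat_lit 61) (nat_lit 0xbc0001780002fe263) b62974 (.one (nat_lit 3) (nat_lit 83) (nat_lit 62) (nat_lit 0xbc0001780002fbcc1) b62975 (.tok (nat_lit 6) (nat_lit 0xbc0001780002fe065) (.hit (nat_lit 86) (nat_lit 65) (nat_lit 0xbc0001780002fe065) b62978 (.hit (nat_lit 87) (nat_lit 66) (nat_lit 0xbc0001780002fbf7e) b62979 (.nil))) (.tok (nat_lit 9) (nat_lit 0xbc0001780002fc14c) (.hit (nat_lit 84) (nat_lit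 63) (nat_lit 0xbc0001780002fc071) b62976 (.hit (nat_lit 85) (nat_lit 64) (nat_lit 0xbc0001780002fc14c) b62977 (.nil))) (.nil))))) (.one (nat_lit 17) (nat_lit 88) (nat_lit 67) (nat_lit 0xbc0001780002fb863) b62980 (.tok (nat_lit 20) (nat_lit 0xbc0001780002fc4b1) (.hit (nat_lit 89) (nat_lit 68) (nat_lit 0xbc0001780002fc4b1) b62981 (.hit (nat_lit 90) (nat_lit 69) (nat_lit 0xbc0001780002fb68c) b62982 (.nil))) (.tok (nat_lit 23) (nat_lit 0xbc0001780002fbe8c) (.hit (nat_lit 91) (nat_lit 70) (nat_lit 0xbc0001780002fbe8c) b62983 (.hit (nat_lit 92) (nat_lit 71) (nat_lit 0xbc0001780002fb66c) b62984 (.nil))) (.one (nat_lit 26) (nat_lit 93) (nat_lit 72) (nat_lit 0xbc0001780002fa3f1) b62985 (.one (nat_lit 29) (nat_lit 94) (nat_lit 73) (nat_lit 0xbc0001780002fa67c) b62986 (.one (nat_lit 32) (nat_lit 95) (nat_lit 74) (nat_lit 0xbc0001780002faa9d) b62987 (.one (nat_lit 35) (nat_lit 96) (nat_lit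 75) (nat_lit 0xbc0001780002fafab) b62988 (.one (nat_lit 50) (nat_lit 104) (nat_lit 83) (nat_lit 0xbc0001780002fbcce) b62989 (.tok (nat_lit 53) (nat_lit 0xbc0001780002fc287) (.hit (nat_lit 105) (nat_lit 84) (nat_lit 0xbc0001780002fc287) b62990 (.hit (nat_lit 106) (nat_lit 85) (nat_lit 0xbc0001780002fb28b) b62991 (.nil))) (.tok (nat_lit 56) (nat_lit 0xbc0001780002fe17a) (.hit (nat_lit 107) (nat_lit 86) (nat_lit 0xbc0001780002fe17a) b62992 (.one (nat_lit 3) (nat_lit 111) (nat_lit 90) (nat_lit 0xbc0001780002fc80d) b62996 (.tok (nat_lit 6) (nat_lit 0xbc0001780002fd009) (.hit (nat_lit 109) (nat_lit 88) (nat_lit 0xbc0001780002fcb74) b62994 (.hit (nat_lit 110) (nat_lit 89) (nat_lit 0xbc0001780002fd009) b62995 (.nil))) (.one (nat_lit 9) (nat_lit 108) (nat_lit 87) (nat_lit 0xbc0001780002fcb14) b62993 (.nil))))) (.one (nat_lit 59) (nat_lit 112) (nat_lit 91) (nat_lit 0xbc0001780002fa196)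 b62997 (.one (nat_lit 62) (nat_lit 113) (nat_lit 92) (nat_lit 0xbc0001780002fb605) b62998 (.tok (nat_lit 65) (nat_lit 0xbc0001780002fb950) (.hit (nat_lit 114) (nat_lit 93) (nat_lit 0xbc0001780002fb950) b62999 (.hit (nat_lit 115) (nat_lit 94) (nat_lit 0xbc0001780002fb278) b63000 (.nil))) (.tok (nat_lit 68) (nat_lit 0xbc0001780002fd313) (.hit (nat_lit 116) (nat_lit 95) (nat_lit 0xbc0001780002fd313) b63001 (.one (nat_lit 3) (nat_lit 120) (nat_lit 99) (nat_lit 0xbc0001780002fc11f) b63005 (.one (nat_lit 6) (nat_lit 117) (nat_lit 96) (nat_lit 0xbc0001780002fc426) b63002 (.tok (nat_lit 9) (nat_lit 0xbc0001780002fd30a) (.hit (nat_lit 118) (nat_lit 97) (nat_lit 0xbc0001780002fd30a) b63003 (.hit (nat_lit 119) (nat_lit 98) (nat_lit 0xbc0001780002fc153) b63004 (.nil))) (.nil))))) (.one (nat_lit 71) (nat_lit 121) (nat_lit 100) (nat_lit 0xbc0001780002fa1b6) b63006 (.nil)))))))))))))))))) (.tok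 (nat_lit 40) (nat_lit 0xbc000178000303aab) (.hit (nat_lit 221) (nat_lit 0) (nat_lit 0xbc000178000300af5) b63007 (.tok (nat_lit 6) (nat_lit 0xbc0001780002ff7dd) (.hit (nat_lit 222) (nat_lit 7) (nat_lit 0xbc0001780002ff7dd) b63008 (.hit (nat_lit 223) (nat_lit 15) (nat_lit 0xbc0001780002fe2b0) b63009 (.nil))) (.tok (nat_lit 9) (nat_lit 0xbc000178000303aab) (.hit (nat_lit 224) (nat_lit 20) (nat_lit 0xbc000178000303aab) b63010 (.hit (nat_lit 225) (nat_lit 28) (nat_lit 0xbc0001780002ff383) b63011 (.nil))) (.nil)))) (.tok (nat_lit 43) (nat_lit 0xbc0001780003007d8) (.hit (nat_lit 232) (nat_lit 0) (nat_lit 0xbc0001780003007d8) b63012 (.tok (nat_lit 3) (nat_lit 0xbc0001780002fe905) (.hit (nat_lit 233) (nat_lit 1) (nat_lit 0xbc0001780002fd114) b63013 (.one (nat_lit 67) (nat_lit 234) (nat_lit 2) (nat_lit 0xbc0001780002fe905) b63014 (.nil))) (.tok (nat_lit 6) (nat_lit 0xbc0001780002ff5ea)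 (.hit (nat_lit 235) (nat_lit 7) (nat_lit 0xbc0001780002fd8de) b63015 (.hit (nat_lit 238) (nat_lit 15) (nat_lit 0xbc0001780002fd3af) b63018 (.tok (nat_lit 55) (nat_lit 0xbc0001780002ff5ea) (.hit (nat_lit 236) (nat_lit 8) (nat_lit 0xbc0001780002fef26) b63016 (.hit (nat_lit 239) (nat_lit 16) (nat_lit 0xbc0001780002ff5ea) b63019 (.one (nat_lit 6) (nat_lit 237) (nat_lit 9) (nat_lit 0xbc0001780002ff34d) b63017 (.nil)))) (.nil)))) (.nil)))) (.tok (nat_lit 46) (nat_lit 0xbc0001780003029a4) (.hit (nat_lit 246) (nat_lit 0) (nat_lit 0xbc0001780002ffb7b) b63020 (.tok (nat_lit 3) (nat_lit 0xbc0001780003029a4) (.hit (nat_lit 247) (nat_lit 1) (nat_lit 0xbc0001780002ff2bf) b63021 (.one (nat_lit 55) (nat_lit 248) (nat_lit 3) (nat_lit 0xbc0001780003029a4) b63022 (.nil))) (.tok (nat_lit 9) (nat_lit 0xbc000178000301276) (.hit (nat_lit 249) (nat_lit 20) (nat_lit 0xbc0001780002fe59f) b63023 (.hit (nat_lit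 252) (nat_lit 28) (nat_lit 0xbc0001780002fea46) b63026 (.tok (nat_lit 67) (nat_lit 0xbc000178000301276) (.hit (nat_lit 250) (nat_lit 21) (nat_lit 0xbc0001780002ff2d9) b63024 (.hit (nat_lit 253) (nat_lit 29) (nat_lit 0xbc000178000301276) b63027 (.one (nat_lit 9) (nat_lit 251) (nat_lit 22) (nat_lit 0xbc000178000300f01) b63025 (.nil)))) (.nil)))) (.nil)))) (.nil))))
noncomputable def r91_18 : Rw Blk := .tok (nat_lit 3) (nat_lit 0xbc0001780002fd626) (.hit (nat_lit 61) (nat_lit 0) (nat_lit 0xbc0001780002fc0cc) b63028 (.tok (nat_lit 14) (nat_lit 0xbc0001780002fd575) (.hit (nat_lit 82) (nat_lit 61) (nat_lit 0xbc0001780002fd23d) b63029 (.one (nat_lit 3) (nat_lit 83) (nat_lit 62) (nat_lit 0xbc0001780002fc4d8) b63030 (.tok (nat_lit 6) (nat_lit 0xbc0001780002fd424) (.hit (nat_lit 86) (nat_lit 65) (nat_lit 0xbc0001780002fd424) b63033 (.hit (nat_lit 87) (nat_lit 66) (nat_lit 0xbc0001780002fce60)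 b63034 (.nil))) (.tok (nat_lit 9) (nat_lit 0xbc0001780002fd575) (.hit (nat_lit 84) (nat_lit 63) (nat_lit 0xbc0001780002fd575) b63031 (.hit (nat_lit 85) (nat_lit 64) (nat_lit 0xbc0001780002fbeb3) b63032 (.nil))) (.nil))))) (.one (nat_lit 17) (nat_lit 88) (nat_lit 67) (nat_lit 0xbc0001780002fbdc4) b63035 (.tok (nat_lit 20) (nat_lit 0xbc0001780002fb714) (.hit (nat_lit 89) (nat_lit 68) (nat_lit 0xbc0001780002fb714) b63036 (.hit (nat_lit 90) (nat_lit 69) (nat_lit 0xbc0001780002fafd1) b63037 (.nil))) (.tok (nat_lit 23) (nat_lit 0xbc0001780002fb81a) (.hit (nat_lit 91) (nat_lit 70) (nat_lit 0xbc0001780002fb81a) b63038 (.hit (nat_lit 92) (nat_lit 71) (nat_lit 0xbc0001780002fafd1) b63037 (.nil))) (.one (nat_lit 26) (nat_lit 93) (nat_lit 72) (nat_lit 0xbc0001780002fa459) b63039 (.one (nat_lit 29) (nat_lit 94) (nat_lit 73) (nat_lit 0xbc0001780002fa515) b63040 (.one (nat_lit 32) (nat_lit 95)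 (nat_lit 74) (nat_lit 0xbc0001780002fa04a) b63041 (.one (nat_lit 35) (nat_lit 96) (nat_lit 75) (nat_lit 0xbc0001780002faa02) b63042 (.one (nat_lit 50) (nat_lit 104) (nat_lit 83) (nat_lit 0xbc0001780002fb2c0) b63043 (.tok (nat_lit 53) (nat_lit 0xbc0001780002fc40c) (.hit (nat_lit 105) (nat_lit 84) (nat_lit 0xbc0001780002fc40c) b63044 (.hit (nat_lit 106) (nat_lit 85) (nat_lit 0xbc0001780002fb42a) b63045 (.nil))) (.tok (nat_lit 56) (nat_lit 0xbc0001780002fd626) (.hit (nat_lit 107) (nat_lit 86) (nat_lit 0xbc0001780002fd291) b63046 (.one (nat_lit 3) (nat_lit 111) (nat_lit 90) (nat_lit 0xbc0001780002fb6f6) b63050 (.tok (nat_lit 6) (nat_lit 0xbc0001780002fd626) (.hit (nat_lit 109) (nat_lit 88) (nat_lit 0xbc0001780002fd626) b63048 (.hit (nat_lit 110) (nat_lit 89) (nat_lit 0xbc0001780002fb053) b63049 (.nil))) (.one (nat_lit 9) (nat_lit 108) (nat_lit 87) (nat_lit 0xbc0001780002fcdf8) b63047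 (.nil))))) (.one (nat_lit 59) (nat_lit 112) (nat_lit 91) (nat_lit 0xbc0001780002f9bbf) b63051 (.one (nat_lit 62) (nat_lit 113) (nat_lit 92) (nat_lit 0xbc0001780002fae72) b63052 (.tok (nat_lit 65) (nat_lit 0xbc0001780002fb80d) (.hit (nat_lit 114) (nat_lit 93) (nat_lit 0xbc0001780002fb1f8) b63053 (.hit (nat_lit 115) (nat_lit 94) (nat_lit 0xbc0001780002fb80d) b63054 (.nil))) (.tok (nat_lit 68) (nat_lit 0xbc0001780002fc954) (.hit (nat_lit 116) (nat_lit 95) (nat_lit 0xbc0001780002fc87f) b63055 (.one (nat_lit 3) (nat_lit 120) (nat_lit 99) (nat_lit 0xbc0001780002fc0f3) b63059 (.one (nat_lit 6) (nat_lit 117) (nat_lit 96) (nat_lit 0xbc0001780002fc090) b63056 (.tok (nat_lit 9) (nat_lit 0xbc0001780002fc954) (.hit (nat_lit 118) (nat_lit 97) (nat_lit 0xbc0001780002fc954) b63057 (.hit (nat_lit 119) (nat_lit 98) (nat_lit 0xbc0001780002fb7bd) b63058 (.nil))) (.nil))))) (.one (nat_lit 71) (nat_lit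 121) (nat_lit 100) (nat_lit 0xbc0001780002f9bd2) b63060 (.nil)))))))))))))))))) (.tok (nat_lit 40) (nat_lit 0xbc0001780002ff37a) (.hit (nat_lit 221) (nat_lit 0) (nat_lit 0xbc0001780002ff37a) b63061 (.tok (nat_lit 6) (nat_lit 0xbc0001780002fe1ad) (.hit (nat_lit 222) (nat_lit 7) (nat_lit 0xbc0001780002fe1ad) b63062 (.hit (nat_lit 223) (nat_lit 15) (nat_lit 0xbc0001780002fdb8e) b63063 (.nil))) (.tok (nat_lit 9) (nat_lit 0xbc0001780002ff2aa) (.hit (nat_lit 224) (nat_lit 20) (nat_lit 0xbc0001780002ff2aa) b63064 (.hit (nat_lit 225) (nat_lit 28) (nat_lit 0xbc0001780002fe658) b63065 (.nil))) (.nil)))) (.tok (nat_lit 43) (nat_lit 0xbc00017800030074c) (.hit (nat_lit 232) (nat_lit 0) (nat_lit 0xbc0001780002ff1e8) b63066 (.tok (nat_lit 3) (nat_lit 0xbc0001780002fff1a) (.hit (nat_lit 233) (nat_lit 1) (nat_lit 0xbc0001780002fdde7) b63067 (.one (nat_lit 67) (nat_lit 234) (nat_lit 2) (nat_lit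 0xbc0001780002fff1a) b63068 (.nil))) (.tok (nat_lit 6) (nat_lit 0xbc00017800030074c) (.hit (nat_lit 235) (nat_lit 7) (nat_lit 0xbc0001780002ffa10) b63069 (.hit (nat_lit 238) (nat_lit 15) (nat_lit 0xbc0001780002fee9b) b63072 (.tok (nat_lit 55) (nat_lit 0xbc00017800030074c) (.hit (nat_lit 236) (nat_lit 8) (nat_lit 0xbc000178000300383) b63070 (.hit (nat_lit 239) (nat_lit 16) (nat_lit 0xbc00017800030058f) b63073 (.one (nat_lit 6) (nat_lit 237) (nat_lit 9) (nat_lit 0xbc00017800030074c) b63071 (.nil)))) (.nil)))) (.nil)))) (.tok (nat_lit 46) (nat_lit 0xbc000178000301344) (.hit (nat_lit 246) (nat_lit 0) (nat_lit 0xbc0001780002fee22) b63074 (.tok (nat_lit 3) (nat_lit 0xbc000178000301344) (.hit (nat_lit 247) (nat_lit 1) (nat_lit 0xbc0001780002fdf9e) b63075 (.one (nat_lit 55) (nat_lit 248) (nat_lit 3) (nat_lit 0xbc000178000301344) b63076 (.nil))) (.tok (nat_lit 9) (nat_lit 0xbc0001780002ff9b7)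 (.hit (nat_lit 249) (nat_lit 20) (nat_lit 0xbc0001780002fe1da) b63077 (.hit (nat_lit 252) (nat_lit 28) (nat_lit 0xbc0001780002fd8af) b63080 (.tok (nat_lit 67) (nat_lit 0xbc0001780002ff9b7) (.hit (nat_lit 250) (nat_lit 21) (nat_lit 0xbc0001780002ff1bc) b63078 (.hit (nat_lit 253) (nat_lit 29) (nat_lit 0xbc0001780002ff066) b63081 (.one (nat_lit 9) (nat_lit 251) (nat_lit 22) (nat_lit 0xbc0001780002ff9b7) b63079 (.nil)))) (.nil)))) (.nil)))) (.nil))))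
noncomputable def r92_0 : Rw Blk := .tok (nat_lit 6) (nat_lit 0x300000600000c000017f8d7300000600000bf92c97fffeb00000) (.hit (nat_lit 81) (nat_lit 0) (nat_lit 0x2fe4b85fd5d4bf98697f50d2fdf075fd432bf87157fb94afe040) b56087 (.tok (nat_lit 3) (nat_lit 0x2fe8a95fdbe0bfbe497eb63afeebc5fb9eabf272d7f42dafe778) (.hit (nat_lit 82) (nat_lit 1) (nat_lit 0x2fcbb35f88b0bf69c97e2352fc9e35f888abeddb97e8bcafcbb3) b56088 (.one (nat_lit 14) (nat_lit 84) (nat_lit 4) (nat_lit 0x2fe8a95fdbe0bfbe497e86a2feebc5fb9eabf07c97f42dafe778) b56089 (.one (nat_lit 56) (nat_lit 86) (nat_lit 6) (nat_lit 0x2fde885fbe9cbf85197eb63afe16c5fadc4bf272d7f1eb2fe175) b56090 (.nil)))) (.tok (nat_lit 40) (nat_lit 0x2fe7215fd042bfb9597ec95afe9085fc636bf30bd7f40f2fe807) (.hit (nat_lit 100) (nat_lit 33) (nat_lit 0x2fe7215fd042bfb9597ec95afe9085fba38bf30bd7f40f2fe807) b56091 (.hit (nat_lit 101) (nat_lit 34) (nat_lit 0x2fe2775fb726bf90d17e978afe6b05fc636bf17d57f1612fe321)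 b56092 (.nil))) (.tok (nat_lit 43) (nat_lit 0x2fecc7600000bfc0317f5e52ff1155fd74abf7b397fe372fea15) (.hit (nat_lit 102) (nat_lit 35) (nat_lit 0x2fecc7600000bfc0317f5e52ff1155fd74abf7b397fe372fea15) b56094 (.hit (nat_lit 103) (nat_lit 36) (nat_lit 0x2fe7225fd476bfbc317f11aafe62e5fd1c6bf54e57f7a22fe8c3) b56095 (.nil))) (.tok (nat_lit 46) (nat_lit 0x3000005ff54cc000017f8d7300000600000bf92c97fffeb00000) (.hit (nat_lit 104) (nat_lit 37) (nat_lit 0x2fe23a5fbc94bfed7d7f8d72fe64b5fe312bf92c97ff5eafe87d) b56085 (.hit (nat_lit 105) (nat_lit 38) (nat_lit 0x3000005ff54cc000017f41a300000600000bf6b157fffeb00000) b56093 (.nil))) (.nil)))))) (.tok (nat_lit 9) (nat_lit 0x300000600000c00001800002fe64b5fe312c0000180000300000) (.hit (nat_lit 157) (nat_lit 0) (nat_lit 0x2fe4b85fd5d4bf98697f50d2fe1c65fd488bf7fd97fb94afe051) b56077 (.tok (nat_lit 3) (nat_lit 0x2fe8a95fdbe0bfbe497ee77afcb645fad44bfbaed7f4312fe778)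 (.hit (nat_lit 158) (nat_lit 1) (nat_lit 0x2fcbb35f88b0bf69c97e2352fb9075f888abf27897e8bcafcbb3) b56078 (.one (nat_lit 14) (nat_lit 160) (nat_lit 4) (nat_lit 0x2fe8a95fdbe0bfbe497ee77afc38b5fa1a8bfbaed7f4312fe778) b56079 (.one (nat_lit 68) (nat_lit 161) (nat_lit 5) (nat_lit 0x2fde885fbe9cbf85197eb6aafcb645fad44bf85ad7f1eb2fe175) b56080 (.nil)))) (.tok (nat_lit 40) (nat_lit 0x2fe7215fd042bfb9597f18dafcdc85fb20cbfa41d7f40f2fe807) (.hit (nat_lit 176) (nat_lit 33) (nat_lit 0x2fe7215fd042bfb9597ee8b2fcdc85fb20cbfa41d7f40f2fe807) b56081 (.hit (nat_lit 177) (nat_lit 34) (nat_lit 0x2fe2775fb726bf90d17f18dafc78e5fa598bf9abd7f166afe321) b56082 (.nil))) (.tok (nat_lit 43) (nat_lit 0x3000005ff54cc00001800002fe64b5fe312c0000180000300000) (.hit (nat_lit 178) (nat_lit 35) (nat_lit 0x2fe23a5fbc94bfed7d7f8d72fe64b5fe312bf92c97ff5eafe87d) b56085 (.hit (nat_lit 179) (nat_lit 36) (nat_lit 0x3000005ff54cc00001800002fdc5e5fd066c0000180000300000)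 b56086 (.nil))) (.tok (nat_lit 46) (nat_lit 0x2fecc7600000bfc0317f5e52fe0675fd74abffaad7fe502ff028) (.hit (nat_lit 180) (nat_lit 37) (nat_lit 0x2fecc7600000bfc0317f5e52fe0675fd74abffaad7fe502ff028) b56083 (.hit (nat_lit 181) (nat_lit 38) (nat_lit 0x2fe7225fd476bfbc317f471afd6d25fc420bf98fd7f7a22fe8e9) b56084 (.nil))) (.nil)))))) (.nil))
noncomputable def r92_1 : Rw Blk := .tok (nat_lit 3) (nat_lit 0xbc0001780002fe5a6) (.hit (nat_lit 61) (nat_lit 0) (nat_lit 0xbc0001780002fd2e5) b56195 (.tok (nat_lit 14) (nat_lit 0xbc0001780002fe5a6) (.hit (nat_lit 82) (nat_lit 61) (nat_lit 0xbc0001780002fe5a6) b56196 (.one (nat_lit 3) (nat_lit 83) (nat_lit 62) (nat_lit 0xbc0001780002fc004) b56197 (.tok (nat_lit 6) (nat_lit 0xbc0001780002fc48f) (.hit (nat_lit 86) (nat_lit 65) (nat_lit 0xbc0001780002fc3b4) b56198 (.hit (nat_lit 87) (nat_lit 66) (nat_lit 0xbc0001780002fc48f) b56199 (.nil))) (.tok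 (nat_lit 9) (nat_lit 0xbc0001780002fe3a8) (.hit (nat_lit 84) (nat_lit 63) (nat_lit 0xbc0001780002fe3a8) b56200 (.hit (nat_lit 85) (nat_lit 64) (nat_lit 0xbc0001780002fc2c1) b56201 (.nil))) (.nil))))) (.one (nat_lit 17) (nat_lit 88) (nat_lit 67) (nat_lit 0xbc0001780002fbba6) b56202 (.tok (nat_lit 20) (nat_lit 0xbc0001780002fc1cf) (.hit (nat_lit 89) (nat_lit 68) (nat_lit 0xbc0001780002fc1cf) b56205 (.hit (nat_lit 90) (nat_lit 69) (nat_lit 0xbc0001780002fb9af) b56206 (.nil))) (.tok (nat_lit 23) (nat_lit 0xbc0001780002fc7f4) (.hit (nat_lit 91) (nat_lit 70) (nat_lit 0xbc0001780002fc7f4) b56203 (.hit (nat_lit 92) (nat_lit 71) (nat_lit 0xbc0001780002fb9cf) b56204 (.nil))) (.one (nat_lit 26) (nat_lit 93) (nat_lit 72) (nat_lit 0xbc0001780002fa734) b56207 (.one (nat_lit 29) (nat_lit 94) (nat_lit 73) (nat_lit 0xbc0001780002fa9bf) b56208 (.one (nat_lit 32) (nat_lit 95) (nat_lit 74) (nat_lit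 0xbc0001780002fb2ee) b56210 (.one (nat_lit 35) (nat_lit 96) (nat_lit 75) (nat_lit 0xbc0001780002fade0) b56209 (.one (nat_lit 38) (nat_lit 97) (nat_lit 76) (nat_lit 0xbc0001780002fb8c6) b56211 (.tok (nat_lit 41) (nat_lit 0xbc0001780002fb701) (.hit (nat_lit 98) (nat_lit 77) (nat_lit 0xbc0001780002fa085) b56212 (.hit (nat_lit 99) (nat_lit 78) (nat_lit 0xbc0001780002fb701) b56213 (.nil))) (.tok (nat_lit 44) (nat_lit 0xbc0001780002fb12e) (.hit (nat_lit 100) (nat_lit 79) (nat_lit 0xbc0001780002fa499) b56216 (.hit (nat_lit 101) (nat_lit 80) (nat_lit 0xbc0001780002fb12e) b56217 (.nil))) (.tok (nat_lit 47) (nat_lit 0xbc0001780002fb21b) (.hit (nat_lit 102) (nat_lit 81) (nat_lit 0xbc0001780002fb121) b56214 (.hit (nat_lit 103) (nat_lit 82) (nat_lit 0xbc0001780002fb21b) b56215 (.nil))) (.one (nat_lit 50) (nat_lit 104) (nat_lit 83) (nat_lit 0xbc0001780002fb948) b56218 (.tok (nat_lit 53) (nat_lit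 0xbc0001780002fbc93) (.hit (nat_lit 105) (nat_lit 84) (nat_lit 0xbc0001780002fbc93) b56219 (.hit (nat_lit 106) (nat_lit 85) (nat_lit 0xbc0001780002fb5bb) b56220 (.nil))) (.tok (nat_lit 56) (nat_lit 0xbc0001780002fd656) (.hit (nat_lit 107) (nat_lit 86) (nat_lit 0xbc0001780002fd656) b56221 (.one (nat_lit 3) (nat_lit 111) (nat_lit 90) (nat_lit 0xbc0001780002fc462) b56225 (.tok (nat_lit 6) (nat_lit 0xbc0001780002fd64d) (.hit (nat_lit 109) (nat_lit 88) (nat_lit 0xbc0001780002fd64d) b56223 (.hit (nat_lit 110) (nat_lit 89) (nat_lit 0xbc0001780002fc496) b56224 (.nil))) (.one (nat_lit 9) (nat_lit 108) (nat_lit 87) (nat_lit 0xbc0001780002fc769) b56222 (.nil))))) (.one (nat_lit 59) (nat_lit 112) (nat_lit 91) (nat_lit 0xbc0001780002fa4f9) b56226 (.nil)))))))))))))))))) (.tok (nat_lit 40) (nat_lit 0xbc000178000303dee) (.hit (nat_lit 245) (nat_lit 0) (nat_lit 0xbc000178000300e38) b56227 (.tok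 (nat_lit 6) (nat_lit 0xbc000178000303dee) (.hit (nat_lit 246) (nat_lit 7) (nat_lit 0xbc000178000303dee) b56230 (.hit (nat_lit 247) (nat_lit 15) (nat_lit 0xbc0001780002ff6c6) b56231 (.nil))) (.tok (nat_lit 9) (nat_lit 0xbc0001780002ffb20) (.hit (nat_lit 248) (nat_lit 20) (nat_lit 0xbc0001780002ffb20) b56228 (.hit (nat_lit 249) (nat_lit 28) (nat_lit 0xbc0001780002fe5f3) b56229 (.nil))) (.nil)))) (.tok (nat_lit 43) (nat_lit 0xbc000178000302ce7) (.hit (nat_lit 270) (nat_lit 0) (nat_lit 0xbc0001780002ffebe) b56237 (.tok (nat_lit 3) (nat_lit 0xbc000178000302ce7) (.hit (nat_lit 271) (nat_lit 1) (nat_lit 0xbc0001780002ff602) b56238 (.one (nat_lit 67) (nat_lit 272) (nat_lit 2) (nat_lit 0xbc000178000302ce7) b56239 (.nil))) (.tok (nat_lit 6) (nat_lit 0xbc0001780003015b9) (.hit (nat_lit 273) (nat_lit 7) (nat_lit 0xbc0001780002fe8e2) b56240 (.hit (nat_lit 276) (nat_lit 15) (nat_lit 0xbc0001780002fed89)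 b56243 (.tok (nat_lit 55) (nat_lit 0xbc0001780003015b9) (.hit (nat_lit 274) (nat_lit 8) (nat_lit 0xbc0001780002ff61c) b56241 (.hit (nat_lit 277) (nat_lit 16) (nat_lit 0xbc0001780003015b9) b56244 (.one (nat_lit 6) (nat_lit 275) (nat_lit 9) (nat_lit 0xbc000178000301244) b56242 (.nil)))) (.nil)))) (.nil)))) (.tok (nat_lit 46) (nat_lit 0xbc000178000300b1b) (.hit (nat_lit 256) (nat_lit 0) (nat_lit 0xbc000178000300b1b) b56232 (.tok (nat_lit 3) (nat_lit 0xbc0001780002fec48) (.hit (nat_lit 257) (nat_lit 1) (nat_lit 0xbc0001780002fd457) b56233 (.one (nat_lit 55) (nat_lit 258) (nat_lit 3) (nat_lit 0xbc0001780002fec48) b56234 (.nil))) (.tok (nat_lit 9) (nat_lit 0xbc0001780002fdc21) (.hit (nat_lit 259) (nat_lit 20) (nat_lit 0xbc0001780002fdc21) b56235 (.hit (nat_lit 262) (nat_lit 28) (nat_lit 0xbc0001780002fd6f2) b56236 (.nil))) (.nil)))) (.nil))))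
noncomputable def r92_2 : Rw Blk := .tok (nat_lit 3) (nat_lit 0xbc0001780002fd8c9) (.hit (nat_lit 61) (nat_lit 0) (nat_lit 0xbc0001780002fc420) b56245 (.tok (nat_lit 14) (nat_lit 0xbc0001780002fd8c9) (.hit (nat_lit 82) (nat_lit 61) (nat_lit 0xbc0001780002fd591) b56246 (.one (nat_lit 3) (nat_lit 83) (nat_lit 62) (nat_lit 0xbc0001780002fc82c) b56247 (.tok (nat_lit 6) (nat_lit 0xbc0001780002fd8c9) (.hit (nat_lit 86) (nat_lit 65) (nat_lit 0xbc0001780002fd8c9) b56248 (.hit (nat_lit 87) (nat_lit 66) (nat_lit 0xbc0001780002fc207) b56249 (.nil))) (.tok (nat_lit 9) (nat_lit 0xbc0001780002fd778) (.hit (nat_lit 84) (nat_lit 63) (nat_lit 0xbc0001780002fd778) b56250 (.hit (nat_lit 85) (nat_lit 64) (nat_lit 0xbc0001780002fd1b4) b56251 (.nil))) (.nil))))) (.one (nat_lit 17) (nat_lit 88) (nat_lit 67) (nat_lit 0xbc0001780002fc118) b56252 (.tok (nat_lit 20) (nat_lit 0xbc0001780002fbb6e) (.hit (nat_lit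 89) (nat_lit 68) (nat_lit 0xbc0001780002fbb6e) b56255 (.hit (nat_lit 90) (nat_lit 69) (nat_lit 0xbc0001780002fb325) b56254 (.nil))) (.tok (nat_lit 23) (nat_lit 0xbc0001780002fba68) (.hit (nat_lit 91) (nat_lit 70) (nat_lit 0xbc0001780002fba68) b56253 (.hit (nat_lit 92) (nat_lit 71) (nat_lit 0xbc0001780002fb325) b56254 (.nil))) (.one (nat_lit 26) (nat_lit 93) (nat_lit 72) (nat_lit 0xbc0001780002fa7ad) b56256 (.one (nat_lit 29) (nat_lit 94) (nat_lit 73) (nat_lit 0xbc0001780002fa869) b56257 (.one (nat_lit 32) (nat_lit 95) (nat_lit 74) (nat_lit 0xbc0001780002fad56) b56259 (.one (nat_lit 35) (nat_lit 96) (nat_lit 75) (nat_lit 0xbc0001780002fa39e) b56258 (.one (nat_lit 38) (nat_lit 97) (nat_lit 76) (nat_lit 0xbc0001780002fb44e) b56260 (.tok (nat_lit 41) (nat_lit 0xbc0001780002fbc7c) (.hit (nat_lit 98) (nat_lit 77) (nat_lit 0xbc0001780002f993c) b56261 (.hit (nat_lit 99) (nat_lit 78) (nat_lit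 0xbc0001780002fbc7c) b56262 (.nil))) (.tok (nat_lit 44) (nat_lit 0xbc0001780002fadd3) (.hit (nat_lit 100) (nat_lit 79) (nat_lit 0xbc0001780002fa31d) b56265 (.hit (nat_lit 101) (nat_lit 80) (nat_lit 0xbc0001780002fadd3) b56266 (.nil))) (.tok (nat_lit 47) (nat_lit 0xbc0001780002fb46e) (.hit (nat_lit 102) (nat_lit 81) (nat_lit 0xbc0001780002fa89f) b56263 (.hit (nat_lit 103) (nat_lit 82) (nat_lit 0xbc0001780002fb46e) b56264 (.nil))) (.one (nat_lit 50) (nat_lit 104) (nat_lit 83) (nat_lit 0xbc0001780002fb1c6) b56267 (.tok (nat_lit 53) (nat_lit 0xbc0001780002fbb61) (.hit (nat_lit 105) (nat_lit 84) (nat_lit 0xbc0001780002fb54c) b56268 (.hit (nat_lit 106) (nat_lit 85) (nat_lit 0xbc0001780002fbb61) b56269 (.nil))) (.tok (nat_lit 56) (nat_lit 0xbc0001780002fcca8) (.hit (nat_lit 107) (nat_lit 86) (nat_lit 0xbc0001780002fcbd3) b56270 (.one (nat_lit 3) (nat_lit 111) (nat_lit 90) (nat_lit 0xbc0001780002fc447)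 b56274 (.tok (nat_lit 6) (nat_lit 0xbc0001780002fcca8) (.hit (nat_lit 109) (nat_lit 88) (nat_lit 0xbc0001780002fcca8) b56272 (.hit (nat_lit 110) (nat_lit 89) (nat_lit 0xbc0001780002fbb11) b56273 (.nil))) (.one (nat_lit 9) (nat_lit 108) (nat_lit 87) (nat_lit 0xbc0001780002fc3e4) b56271 (.nil))))) (.one (nat_lit 59) (nat_lit 112) (nat_lit 91) (nat_lit 0xbc0001780002f9f26) b56275 (.nil)))))))))))))))))) (.tok (nat_lit 40) (nat_lit 0xbc0001780002ff6ce) (.hit (nat_lit 245) (nat_lit 0) (nat_lit 0xbc0001780002ff6ce) b56276 (.tok (nat_lit 6) (nat_lit 0xbc0001780002ff5fe) (.hit (nat_lit 246) (nat_lit 7) (nat_lit 0xbc0001780002ff5fe) b56279 (.hit (nat_lit 247) (nat_lit 15) (nat_lit 0xbc0001780002fe9ac) b56280 (.nil))) (.tok (nat_lit 9) (nat_lit 0xbc0001780002fe501) (.hit (nat_lit 248) (nat_lit 20) (nat_lit 0xbc0001780002fe501) b56277 (.hit (nat_lit 249) (nat_lit 28) (nat_lit 0xbc0001780002fdee2)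 b56278 (.nil))) (.nil)))) (.tok (nat_lit 43) (nat_lit 0xbc000178000301698) (.hit (nat_lit 270) (nat_lit 0) (nat_lit 0xbc0001780002ff176) b56286 (.tok (nat_lit 3) (nat_lit 0xbc000178000301698) (.hit (nat_lit 271) (nat_lit 1) (nat_lit 0xbc0001780002fe2f2) b56287 (.one (nat_lit 67) (nat_lit 272) (nat_lit 2) (nat_lit 0xbc000178000301698) b56288 (.nil))) (.tok (nat_lit 6) (nat_lit 0xbc0001780002ffd0b) (.hit (nat_lit 273) (nat_lit 7) (nat_lit 0xbc0001780002fe52e) b56289 (.hit (nat_lit 276) (nat_lit 15) (nat_lit 0xbc0001780002fdc03) b56292 (.tok (nat_lit 55) (nat_lit 0xbc0001780002ffd0b) (.hit (nat_lit 274) (nat_lit 8) (nat_lit 0xbc0001780002ff510) b56290 (.hit (nat_lit 277) (nat_lit 16) (nat_lit 0xbc0001780002ff3ba) b56293 (.one (nat_lit 6) (nat_lit 275) (nat_lit 9) (nat_lit 0xbc0001780002ffd0b) b56291 (.nil)))) (.nil)))) (.nil)))) (.tok (nat_lit 46) (nat_lit 0xbc00017800030026e) (.hit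 (nat_lit 256) (nat_lit 0) (nat_lit 0xbc0001780002ff53c) b56281 (.tok (nat_lit 3) (nat_lit 0xbc00017800030026e) (.hit (nat_lit 257) (nat_lit 1) (nat_lit 0xbc0001780002fe13b) b56282 (.one (nat_lit 55) (nat_lit 258) (nat_lit 3) (nat_lit 0xbc00017800030026e) b56283 (.nil))) (.tok (nat_lit 9) (nat_lit 0xbc0001780002ffd64) (.hit (nat_lit 259) (nat_lit 20) (nat_lit 0xbc0001780002ffd64) b56284 (.hit (nat_lit 262) (nat_lit 28) (nat_lit 0xbc0001780002ff1ef) b56285 (.nil))) (.nil)))) (.nil))))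

end

end Pool.Agent.Lib.MP_5854e1_co.Cz
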