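import Pool.Agent.Lib.MP_5854e1_co.RwD
import Pool.Agent.Lib.MP_5854e1_co.Cz.R00
import Pool.Agent.Lib.MP_5854e1_co.Cz.R01
import Pool.Agent.Lib.MP_5854e1_co.Cz.R02
import Pool.Agent.Lib.MP_5854e1_co.Cz.R03
import Pool.Agent.Lib.MP_5854e1_co.Cz.R04
import Pool.Agent.Lib.MP_5854e1_co.Cz.R05
import Pool.Agent.Lib.MP_5854e1_co.Cz.R06
import Pool.Agent.Lib.MP_5854e1_co.Cz.R07
import Pool.Agent.Lib.MP_5854e1_co.Cz.R08
import Pool.Agent.Lib.MP_5854e1_co.Cz.R09
import Pool.Agent.Lib.MP_5854e1_co.Cz.R10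

/-!
# The tables
-/

set_option autoImplicit false
set_option maxRecDepth 100000

namespace Pool.Agent.Lib.MP_5854e1_co.Cz

open PB

noncomputable section

noncomputable def rt0 : Ix (Rw Blk) := (.node (.node (.node (.node (.node (.node (.node (.node 
(.node (.leaf r0_0) (.leaf r0_256)) (.node (.leaf r0_128) (.leaf r0_384))) (.node (.node 
(.leaf r0_64) (.leaf r0_320)) (.leaf r0_192))) (.node (.node (.node (.leaf r0_32) (.leaf r0_288)) 
(.leaf r0_160)) (.node (.node (.leaf r0_96) (.leaf r0_352)) (.leaf r0_224)))) (.node (.node (.node 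
(.node (.leaf r0_16) (.leaf r0_272)) (.node (.leaf r0_144) (.leaf r0_400))) (.node (.node 
(.leaf r0_80) (.leaf r0_336)) (.leaf r0_208))) (.node (.node (.node (.leaf r0_48) (.leaf r0_304)) 
(.leaf r0_176)) (.node (.node (.leaf r0_112) (.leaf r0_368)) (.leaf r0_240))))) (.node (.node 
(.node (.node (.node (.leaf r0_8) (.leaf r0_264)) (.node (.leaf r0_136) (.leaf r0_392))) (.node 
(.node (.leaf r0_72) (.leaf r0_328)) (.leaf r0_200))) (.node (.node (.node (.leaf r0_40) 
(.leaf r0_296)) (.leaf r0_168)) (.node (.node (.leaf r0_104) (.leaf r0_360)) (.leaf r0_232)))) 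
(.node (.node (.node (.node (.leaf r0_24) (.leaf r0_280)) (.node (.leaf r0_152) (.leaf r0_408))) 
(.node (.node (.leaf r0_88) (.leaf r0_344)) (.leaf r0_216))) (.node (.node (.node (.leaf r0_56) 
(.leaf r0_312)) (.leaf r0_184)) (.node (.node (.leaf r0_120) (.leaf r0_376)) (.leaf r0_248)))))) 
(.node (.node (.node (.node (.node (.node (.leaf r0_4) (.leaf r0_260)) (.node (.leaf r0_132) 
(.leaf r0_388))) (.node (.node (.leaf r0_68) (.leaf r0_324)) (.leaf r0_196))) (.node (.node (.node 
(.leaf r0_36) (.leaf r0_292)) (.leaf r0_164)) (.node (.node (.leaf r0_100) (.leaf r0_356)) 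
(.leaf r0_228)))) (.node (.node (.node (.node (.leaf r0_20) (.leaf r0_276)) (.node (.leaf r0_148) 
(.leaf r0_404))) (.node (.node (.leaf r0_84) (.leaf r0_340)) (.leaf r0_212))) (.node (.node (.node 
(.leaf r0_52) (.leaf r0_308)) (.leaf r0_180)) (.node (.node (.leaf r0_116) (.leaf r0_372)) 
(.leaf r0_244))))) (.node (.node (.node (.node (.node (.leaf r0_12) (.leaf r0_268)) (.node 
(.leaf r0_140) (.leaf r0_396))) (.node (.node (.leaf r0_76) (.leaf r0_332)) (.leaf r0_204))) (.node 
(.node (.node (.leaf r0_44) (.leaf r0_300)) (.leaf r0_172)) (.node (.node (.leaf r0_108) 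
(.leaf r0_364)) (.leaf r0_236)))) (.node (.node (.node (.node (.leaf r0_28) (.leaf r0_284)) (.node 
(.leaf r0_156) (.leaf r0_412))) (.node (.node (.leaf r0_92) (.leaf r0_348)) (.leaf r0_220))) (.node 
(.node (.node (.leaf r0_60) (.leaf r0_316)) (.leaf r0_188)) (.node (.node (.leaf r0_124) 
(.leaf r0_380)) (.leaf r0_252))))))) (.node (.node (.node (.node (.node (.node (.node (.leaf r0_2) 
(.leaf r0_258)) (.node (.leaf r0_130) (.leaf r0_386))) (.node (.node (.leaf r0_66) (.leaf r0_322)) 
(.leaf r0_194))) (.node (.node (.node (.leaf r0_34) (.leaf r0_290)) (.leaf r0_162)) (.node (.node 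
(.leaf r0_98) (.leaf r0_354)) (.leaf r0_226)))) (.node (.node (.node (.node (.leaf r0_18) 
(.leaf r0_274)) (.node (.leaf r0_146) (.leaf r0_402))) (.node (.node (.leaf r0_82) (.leaf r0_338)) 
(.leaf r0_210))) (.node (.node (.node (.leaf r0_50) (.leaf r0_306)) (.leaf r0_178)) (.node (.node 
(.leaf r0_114) (.leaf r0_370)) (.leaf r0_242))))) (.node (.node (.node (.node (.node (.leaf r0_10) 
(.leaf r0_266)) (.node (.leaf r0_138) (.leaf r0_394))) (.node (.node (.leaf r0_74) (.leaf r0_330)) 
(.leaf r0_202))) (.node (.node (.node (.leaf r0_42) (.leaf r0_298)) (.leaf r0_170)) (.node (.node 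
(.leaf r0_106) (.leaf r0_362)) (.leaf r0_234)))) (.node (.node (.node (.node (.leaf r0_26) 
(.leaf r0_282)) (.node (.leaf r0_154) (.leaf r0_410))) (.node (.node (.leaf r0_90) (.leaf r0_346)) 
(.leaf r0_218))) (.node (.node (.node (.leaf r0_58) (.leaf r0_314)) (.leaf r0_186)) (.node (.node 
(.leaf r0_122) (.leaf r0_378)) (.leaf r0_250)))))) (.node (.node (.node (.node (.node (.node 
(.leaf r0_6) (.leaf r0_262)) (.node (.leaf r0_134) (.leaf r0_390))) (.node (.node (.leaf r0_70) 
(.leaf r0_326)) (.leaf r0_198))) (.node (.node (.node (.leaf r0_38) (.leaf r0_294)) (.leaf r0_166)) 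
(.node (.node (.leaf r0_102) (.leaf r0_358)) (.leaf r0_230)))) (.node (.node (.node (.node 
(.leaf r0_22) (.leaf r0_278)) (.node (.leaf r0_150) (.leaf r0_406))) (.node (.node (.leaf r0_86) 
(.leaf r0_342)) (.leaf r0_214))) (.node (.node (.node (.leaf r0_54) (.leaf r0_310)) (.leaf r0_182)) 
(.node (.node (.leaf r0_118) (.leaf r0_374)) (.leaf r0_246))))) (.node (.node (.node (.node (.node 
(.leaf r0_14) (.leaf r0_270)) (.node (.leaf r0_142) (.leaf r0_398))) (.node (.node (.leaf r0_78) 
(.leaf r0_334)) (.leaf r0_206))) (.node (.node (.node (.leaf r0_46) (.leaf r0_302)) (.leaf r0_174)) 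
(.node (.node (.leaf r0_110) (.leaf r0_366)) (.leaf r0_238)))) (.node (.node (.node (.node 
(.leaf r0_30) (.leaf r0_286)) (.node (.leaf r0_158) (.leaf r0_414))) (.node (.node (.leaf r0_94) 
(.leaf r0_350)) (.leaf r0_222))) (.node (.node (.node (.leaf r0_62) (.leaf r0_318)) (.leaf r0_190)) 
(.node (.node (.leaf r0_126) (.leaf r0_382)) (.leaf r0_254)))))))) (.node (.node (.node (.node 
(.node (.node (.node (.node (.leaf r0_1) (.leaf r0_257)) (.node (.leaf r0_129) (.leaf r0_385))) 
(.node (.node (.leaf r0_65) (.leaf r0_321)) (.leaf r0_193))) (.node (.node (.node (.leaf r0_33) 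
(.leaf r0_289)) (.leaf r0_161)) (.node (.node (.leaf r0_97) (.leaf r0_353)) (.leaf r0_225)))) 
(.node (.node (.node (.node (.leaf r0_17) (.leaf r0_273)) (.node (.leaf r0_145) (.leaf r0_401))) 
(.node (.node (.leaf r0_81) (.leaf r0_337)) (.leaf r0_209))) (.node (.node (.node (.leaf r0_49) 
(.leaf r0_305)) (.leaf r0_177)) (.node (.node (.leaf r0_113) (.leaf r0_369)) (.leaf r0_241))))) 
(.node (.node (.node (.node (.node (.leaf r0_9) (.leaf r0_265)) (.node (.leaf r0_137) 
(.leaf r0_393))) (.node (.node (.leaf r0_73) (.leaf r0_329)) (.leaf r0_201))) (.node (.node (.node 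
(.leaf r0_41) (.leaf r0_297)) (.leaf r0_169)) (.node (.node (.leaf r0_105) (.leaf r0_361)) 
(.leaf r0_233)))) (.node (.node (.node (.node (.leaf r0_25) (.leaf r0_281)) (.node (.leaf r0_153) 
(.leaf r0_409))) (.node (.node (.leaf r0_89) (.leaf r0_345)) (.leaf r0_217))) (.node (.node (.node 
(.leaf r0_57) (.leaf r0_313)) (.leaf r0_185)) (.node (.node (.leaf r0_121) (.leaf r0_377)) 
(.leaf r0_249)))))) (.node (.node (.node (.node (.node (.node (.leaf r0_5) (.leaf r0_261)) (.node 
(.leaf r0_133) (.leaf r0_389))) (.node (.node (.leaf r0_69) (.leaf r0_325)) (.leaf r0_197))) (.node 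
(.node (.node (.leaf r0_37) (.leaf r0_293)) (.leaf r0_165)) (.node (.node (.leaf r0_101) 
(.leaf r0_357)) (.leaf r0_229)))) (.node (.node (.node (.node (.leaf r0_21) (.leaf r0_277)) (.node 
(.leaf r0_149) (.leaf r0_405))) (.node (.node (.leaf r0_85) (.leaf r0_341)) (.leaf r0_213))) (.node 
(.node (.node (.leaf r0_53) (.leaf r0_309)) (.leaf r0_181)) (.node (.node (.leaf r0_117) 
(.leaf r0_373)) (.leaf r0_245))))) (.node (.node (.node (.node (.node (.leaf r0_13) (.leaf r0_269)) 
(.node (.leaf r0_141) (.leaf r0_397))) (.node (.node (.leaf r0_77) (.leaf r0_333)) (.leaf r0_205))) 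
(.node (.node (.node (.leaf r0_45) (.leaf r0_301)) (.leaf r0_173)) (.node (.node (.leaf r0_109) 
(.leaf r0_365)) (.leaf r0_237)))) (.node (.node (.node (.node (.leaf r0_29) (.leaf r0_285)) (.node 
(.leaf r0_157) (.leaf r0_413))) (.node (.node (.leaf r0_93) (.leaf r0_349)) (.leaf r0_221))) (.node 
(.node (.node (.leaf r0_61) (.leaf r0_317)) (.leaf r0_189)) (.node (.node (.leaf r0_125) 
(.leaf r0_381)) (.leaf r0_253))))))) (.node (.node (.node (.node (.node (.node (.node (.leaf r0_3) 
(.leaf r0_259)) (.node (.leaf r0_131) (.leaf r0_387))) (.node (.node (.leaf r0_67) (.leaf r0_323)) 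
(.leaf r0_195))) (.node (.node (.node (.leaf r0_35) (.leaf r0_291)) (.leaf r0_163)) (.node (.node 
(.leaf r0_99) (.leaf r0_355)) (.leaf r0_227)))) (.node (.node (.node (.node (.leaf r0_19) 
(.leaf r0_275)) (.node (.leaf r0_147) (.leaf r0_403))) (.node (.node (.leaf r0_83) (.leaf r0_339)) 
(.leaf r0_211))) (.node (.node (.node (.leaf r0_51) (.leaf r0_307)) (.leaf r0_179)) (.node (.node 
(.leaf r0_115) (.leaf r0_371)) (.leaf r0_243))))) (.node (.node (.node (.node (.node (.leaf r0_11) 
(.leaf r0_267)) (.node (.leaf r0_139) (.leaf r0_395))) (.node (.node (.leaf r0_75) (.leaf r0_331)) 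
(.leaf r0_203))) (.node (.node (.node (.leaf r0_43) (.leaf r0_299)) (.leaf r0_171)) (.node (.node 
(.leaf r0_107) (.leaf r0_363)) (.leaf r0_235)))) (.node (.node (.node (.node (.leaf r0_27) 
(.leaf r0_283)) (.node (.leaf r0_155) (.leaf r0_411))) (.node (.node (.leaf r0_91) (.leaf r0_347)) 
(.leaf r0_219))) (.node (.node (.node (.leaf r0_59) (.leaf r0_315)) (.leaf r0_187)) (.node (.node 
(.leaf r0_123) (.leaf r0_379)) (.leaf r0_251)))))) (.node (.node (.node (.node (.node (.node 
(.leaf r0_7) (.leaf r0_263)) (.node (.leaf r0_135) (.leaf r0_391))) (.node (.node (.leaf r0_71) 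
(.leaf r0_327)) (.leaf r0_199))) (.node (.node (.node (.leaf r0_39) (.leaf r0_295)) (.leaf r0_167)) 
(.node (.node (.leaf r0_103) (.leaf r0_359)) (.leaf r0_231)))) (.node (.node (.node (.node 
(.leaf r0_23) (.leaf r0_279)) (.node (.leaf r0_151) (.leaf r0_407))) (.node (.node (.leaf r0_87) 
(.leaf r0_343)) (.leaf r0_215))) (.node (.node (.node (.leaf r0_55) (.leaf r0_311)) (.leaf r0_183)) 
(.node (.node (.leaf r0_119) (.leaf r0_375)) (.leaf r0_247))))) (.node (.node (.node (.node (.node 
(.leaf r0_15) (.leaf r0_271)) (.node (.leaf r0_143) (.leaf r0_399))) (.node (.node (.leaf r0_79) 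
(.leaf r0_335)) (.leaf r0_207))) (.node (.node (.node (.leaf r0_47) (.leaf r0_303)) (.leaf r0_175)) 
(.node (.node (.leaf r0_111) (.leaf r0_367)) (.leaf r0_239)))) (.node (.node (.node (.node 
(.leaf r0_31) (.leaf r0_287)) (.node (.leaf r0_159) (.leaf r0_415))) (.node (.node (.leaf r0_95) 
(.leaf r0_351)) (.leaf r0_223))) (.node (.node (.node (.leaf r0_63) (.leaf r0_319)) (.leaf r0_191)) 
(.node (.node (.leaf r0_127) (.leaf r0_383)) (.leaf r0_255)))))))))
noncomputable def rt1 : Ix (Rw Blk) := (.node (.node (.node (.node (.node (.node (.node (.node 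
(.node (.leaf r1_0) (.leaf r1_256)) (.leaf r1_128)) (.node (.leaf r1_64) (.leaf r1_192))) (.node 
(.node (.leaf r1_32) (.leaf r1_160)) (.node (.leaf r1_96) (.leaf r1_224)))) (.node (.node (.node 
(.leaf r1_16) (.leaf r1_144)) (.node (.leaf r1_80) (.leaf r1_208))) (.node (.node (.leaf r1_48) 
(.leaf r1_176)) (.node (.leaf r1_112) (.leaf r1_240))))) (.node (.node (.node (.node (.leaf r1_8) 
(.leaf r1_136)) (.node (.leaf r1_72) (.leaf r1_200))) (.node (.node (.leaf r1_40) (.leaf r1_168)) 
(.node (.leaf r1_104) (.leaf r1_232)))) (.node (.node (.node (.leaf r1_24) (.leaf r1_152)) (.node 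
(.leaf r1_88) (.leaf r1_216))) (.node (.node (.leaf r1_56) (.leaf r1_184)) (.node (.leaf r1_120) 
(.leaf r1_248)))))) (.node (.node (.node (.node (.node (.node (.leaf r1_4) (.leaf r1_260)) 
(.leaf r1_132)) (.node (.leaf r1_68) (.leaf r1_196))) (.node (.node (.leaf r1_36) (.leaf r1_164)) 
(.node (.leaf r1_100) (.leaf r1_228)))) (.node (.node (.node (.leaf r1_20) (.leaf r1_148)) (.node 
(.leaf r1_84) (.leaf r1_212))) (.node (.node (.leaf r1_52) (.leaf r1_180)) (.node (.leaf r1_116) 
(.leaf r1_244))))) (.node (.node (.node (.node (.leaf r1_12) (.leaf r1_140)) (.node (.leaf r1_76) 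
(.leaf r1_204))) (.node (.node (.leaf r1_44) (.leaf r1_172)) (.node (.leaf r1_108) 
(.leaf r1_236)))) (.node (.node (.node (.leaf r1_28) (.leaf r1_156)) (.node (.leaf r1_92) 
(.leaf r1_220))) (.node (.node (.leaf r1_60) (.leaf r1_188)) (.node (.leaf r1_124) 
(.leaf r1_252))))))) (.node (.node (.node (.node (.node (.node (.node (.leaf r1_2) (.leaf r1_258)) 
(.leaf r1_130)) (.node (.leaf r1_66) (.leaf r1_194))) (.node (.node (.leaf r1_34) (.leaf r1_162)) 
(.node (.leaf r1_98) (.leaf r1_226)))) (.node (.node (.node (.leaf r1_18) (.leaf r1_146)) (.node 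
(.leaf r1_82) (.leaf r1_210))) (.node (.node (.leaf r1_50) (.leaf r1_178)) (.node (.leaf r1_114) 
(.leaf r1_242))))) (.node (.node (.node (.node (.leaf r1_10) (.leaf r1_138)) (.node (.leaf r1_74) 
(.leaf r1_202))) (.node (.node (.leaf r1_42) (.leaf r1_170)) (.node (.leaf r1_106) 
(.leaf r1_234)))) (.node (.node (.node (.leaf r1_26) (.leaf r1_154)) (.node (.leaf r1_90) 
(.leaf r1_218))) (.node (.node (.leaf r1_58) (.leaf r1_186)) (.node (.leaf r1_122) 
(.leaf r1_250)))))) (.node (.node (.node (.node (.node (.node (.leaf r1_6) (.leaf r1_262)) 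
(.leaf r1_134)) (.node (.leaf r1_70) (.leaf r1_198))) (.node (.node (.leaf r1_38) (.leaf r1_166)) 
(.node (.leaf r1_102) (.leaf r1_230)))) (.node (.node (.node (.leaf r1_22) (.leaf r1_150)) (.node 
(.leaf r1_86) (.leaf r1_214))) (.node (.node (.leaf r1_54) (.leaf r1_182)) (.node (.leaf r1_118) 
(.leaf r1_246))))) (.node (.node (.node (.node (.leaf r1_14) (.leaf r1_142)) (.node (.leaf r1_78) 
(.leaf r1_206))) (.node (.node (.leaf r1_46) (.leaf r1_174)) (.node (.leaf r1_110) 
(.leaf r1_238)))) (.node (.node (.node (.leaf r1_30) (.leaf r1_158)) (.node (.leaf r1_94) 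
(.leaf r1_222))) (.node (.node (.leaf r1_62) (.leaf r1_190)) (.node (.leaf r1_126) 
(.leaf r1_254)))))))) (.node (.node (.node (.node (.node (.node (.node (.node (.leaf r1_1) 
(.leaf r1_257)) (.leaf r1_129)) (.node (.leaf r1_65) (.leaf r1_193))) (.node (.node (.leaf r1_33) 
(.leaf r1_161)) (.node (.leaf r1_97) (.leaf r1_225)))) (.node (.node (.node (.leaf r1_17) 
(.leaf r1_145)) (.node (.leaf r1_81) (.leaf r1_209))) (.node (.node (.leaf r1_49) (.leaf r1_177)) 
(.node (.leaf r1_113) (.leaf r1_241))))) (.node (.node (.node (.node (.leaf r1_9) (.leaf r1_137)) 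
(.node (.leaf r1_73) (.leaf r1_201))) (.node (.node (.leaf r1_41) (.leaf r1_169)) (.node 
(.leaf r1_105) (.leaf r1_233)))) (.node (.node (.node (.leaf r1_25) (.leaf r1_153)) (.node 
(.leaf r1_89) (.leaf r1_217))) (.node (.node (.leaf r1_57) (.leaf r1_185)) (.node (.leaf r1_121) 
(.leaf r1_249)))))) (.node (.node (.node (.node (.node (.node (.leaf r1_5) (.leaf r1_261)) 
(.leaf r1_133)) (.node (.leaf r1_69) (.leaf r1_197))) (.node (.node (.leaf r1_37) (.leaf r1_165)) 
(.node (.leaf r1_101) (.leaf r1_229)))) (.node (.node (.node (.leaf r1_21) (.leaf r1_149)) (.node 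
(.leaf r1_85) (.leaf r1_213))) (.node (.node (.leaf r1_53) (.leaf r1_181)) (.node (.leaf r1_117) 
(.leaf r1_245))))) (.node (.node (.node (.node (.leaf r1_13) (.leaf r1_141)) (.node (.leaf r1_77) 
(.leaf r1_205))) (.node (.node (.leaf r1_45) (.leaf r1_173)) (.node (.leaf r1_109) 
(.leaf r1_237)))) (.node (.node (.node (.leaf r1_29) (.leaf r1_157)) (.node (.leaf r1_93) 
(.leaf r1_221))) (.node (.node (.leaf r1_61) (.leaf r1_189)) (.node (.leaf r1_125) 
(.leaf r1_253))))))) (.node (.node (.node (.node (.node (.node (.node (.leaf r1_3) (.leaf r1_259)) 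
(.leaf r1_131)) (.node (.leaf r1_67) (.leaf r1_195))) (.node (.node (.leaf r1_35) (.leaf r1_163)) 
(.node (.leaf r1_99) (.leaf r1_227)))) (.node (.node (.node (.leaf r1_19) (.leaf r1_147)) (.node 
(.leaf r1_83) (.leaf r1_211))) (.node (.node (.leaf r1_51) (.leaf r1_179)) (.node (.leaf r1_115) 
(.leaf r1_243))))) (.node (.node (.node (.node (.leaf r1_11) (.leaf r1_139)) (.node (.leaf r1_75) 
(.leaf r1_203))) (.node (.node (.leaf r1_43) (.leaf r1_171)) (.node (.leaf r1_107) 
(.leaf r1_235)))) (.node (.node (.node (.leaf r1_27) (.leaf r1_155)) (.node (.leaf r1_91) 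
(.leaf r1_219))) (.node (.node (.leaf r1_59) (.leaf r1_187)) (.node (.leaf r1_123) 
(.leaf r1_251)))))) (.node (.node (.node (.node (.node (.node (.leaf r1_7) (.leaf r1_263)) 
(.leaf r1_135)) (.node (.leaf r1_71) (.leaf r1_199))) (.node (.node (.leaf r1_39) (.leaf r1_167)) 
(.node (.leaf r1_103) (.leaf r1_231)))) (.node (.node (.node (.leaf r1_23) (.leaf r1_151)) (.node 
(.leaf r1_87) (.leaf r1_215))) (.node (.node (.leaf r1_55) (.leaf r1_183)) (.node (.leaf r1_119) 
(.leaf r1_247))))) (.node (.node (.node (.node (.leaf r1_15) (.leaf r1_143)) (.node (.leaf r1_79) 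
(.leaf r1_207))) (.node (.node (.leaf r1_47) (.leaf r1_175)) (.node (.leaf r1_111) 
(.leaf r1_239)))) (.node (.node (.node (.leaf r1_31) (.leaf r1_159)) (.node (.leaf r1_95) 
(.leaf r1_223))) (.node (.node (.leaf r1_63) (.leaf r1_191)) (.node (.leaf r1_127) 
(.leaf r1_255)))))))))
noncomputable def rt2 : Ix (Rw Blk) := (.node (.node (.node (.node (.node (.node (.leaf r2_0) 
(.leaf r2_32)) (.leaf r2_16)) (.node (.leaf r2_8) (.leaf r2_24))) (.node (.node (.leaf r2_4) 
(.leaf r2_20)) (.node (.leaf r2_12) (.leaf r2_28)))) (.node (.node (.node (.node (.leaf r2_2) 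
(.leaf r2_34)) (.leaf r2_18)) (.node (.leaf r2_10) (.leaf r2_26))) (.node (.node (.leaf r2_6) 
(.leaf r2_22)) (.node (.leaf r2_14) (.leaf r2_30))))) (.node (.node (.node (.node (.node 
(.leaf r2_1) (.leaf r2_33)) (.leaf r2_17)) (.node (.leaf r2_9) (.leaf r2_25))) (.node (.node 
(.leaf r2_5) (.leaf r2_21)) (.node (.leaf r2_13) (.leaf r2_29)))) (.node (.node (.node (.node 
(.leaf r2_3) (.leaf r2_35)) (.leaf r2_19)) (.node (.leaf r2_11) (.leaf r2_27))) (.node (.node 
(.leaf r2_7) (.leaf r2_23)) (.node (.leaf r2_15) (.leaf r2_31))))))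
noncomputable def rt3 : Ix (Rw Blk) := (.node (.node (.node (.node (.node (.node (.leaf r3_0) 
(.leaf r3_32)) (.leaf r3_16)) (.node (.leaf r3_8) (.leaf r3_24))) (.node (.node (.leaf r3_4) 
(.leaf r3_20)) (.node (.leaf r3_12) (.leaf r3_28)))) (.node (.node (.node (.node (.leaf r3_2) 
(.leaf r3_34)) (.leaf r3_18)) (.node (.leaf r3_10) (.leaf r3_26))) (.node (.node (.leaf r3_6) 
(.leaf r3_22)) (.node (.leaf r3_14) (.leaf r3_30))))) (.node (.node (.node (.node (.node 
(.leaf r3_1) (.leaf r3_33)) (.leaf r3_17)) (.node (.leaf r3_9) (.leaf r3_25))) (.node (.node 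
(.leaf r3_5) (.leaf r3_21)) (.node (.leaf r3_13) (.leaf r3_29)))) (.node (.node (.node (.node 
(.leaf r3_3) (.leaf r3_35)) (.leaf r3_19)) (.node (.leaf r3_11) (.leaf r3_27))) (.node (.node 
(.leaf r3_7) (.leaf r3_23)) (.node (.leaf r3_15) (.leaf r3_31))))))
noncomputable def rt4 : Ix (Rw Blk) := (.node (.node (.node (.node (.node (.leaf r4_0) 
(.leaf r4_16)) (.leaf r4_8)) (.node (.node (.leaf r4_4) (.leaf r4_20)) (.leaf r4_12))) (.node 
(.node (.node (.leaf r4_2) (.leaf r4_18)) (.leaf r4_10)) (.node (.node (.leaf r4_6) (.leaf r4_22)) 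
(.leaf r4_14)))) (.node (.node (.node (.node (.leaf r4_1) (.leaf r4_17)) (.leaf r4_9)) (.node 
(.node (.leaf r4_5) (.leaf r4_21)) (.leaf r4_13))) (.node (.node (.node (.leaf r4_3) (.leaf r4_19)) 
(.leaf r4_11)) (.node (.leaf r4_7) (.leaf r4_15)))))
noncomputable def rt5 : Ix (Rw Blk) := (.node (.node (.node (.node (.node (.leaf r5_0) 
(.leaf r5_16)) (.leaf r5_8)) (.node (.leaf r5_4) (.leaf r5_12))) (.node (.node (.node (.leaf r5_2) 
(.leaf r5_18)) (.leaf r5_10)) (.node (.leaf r5_6) (.leaf r5_14)))) (.node (.node (.node (.node 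
(.leaf r5_1) (.leaf r5_17)) (.leaf r5_9)) (.node (.leaf r5_5) (.leaf r5_13))) (.node (.node 
(.leaf r5_3) (.leaf r5_11)) (.node (.leaf r5_7) (.leaf r5_15)))))
noncomputable def rt6 : Ix (Rw Blk) := (.node (.node (.node (.node (.node (.leaf r6_0) 
(.leaf r6_16)) (.leaf r6_8)) (.node (.leaf r6_4) (.leaf r6_12))) (.node (.node (.node (.leaf r6_2) 
(.leaf r6_18)) (.leaf r6_10)) (.node (.leaf r6_6) (.leaf r6_14)))) (.node (.node (.node (.node 
(.leaf r6_1) (.leaf r6_17)) (.leaf r6_9)) (.node (.leaf r6_5) (.leaf r6_13))) (.node (.node 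
(.leaf r6_3) (.leaf r6_11)) (.node (.leaf r6_7) (.leaf r6_15)))))
noncomputable def rt7 : Ix (Rw Blk) := (.node (.node (.node (.node (.node (.node (.node (.node 
(.node (.leaf r7_0) (.leaf r7_256)) (.leaf r7_128)) (.node (.leaf r7_64) (.leaf r7_192))) (.node 
(.node (.leaf r7_32) (.leaf r7_160)) (.node (.leaf r7_96) (.leaf r7_224)))) (.node (.node (.node 
(.node (.leaf r7_16) (.leaf r7_272)) (.leaf r7_144)) (.node (.leaf r7_80) (.leaf r7_208))) (.node 
(.node (.leaf r7_48) (.leaf r7_176)) (.node (.leaf r7_112) (.leaf r7_240))))) (.node (.node (.node 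
(.node (.node (.leaf r7_8) (.leaf r7_264)) (.leaf r7_136)) (.node (.leaf r7_72) (.leaf r7_200))) 
(.node (.node (.leaf r7_40) (.leaf r7_168)) (.node (.leaf r7_104) (.leaf r7_232)))) (.node (.node 
(.node (.node (.leaf r7_24) (.leaf r7_280)) (.leaf r7_152)) (.node (.leaf r7_88) (.leaf r7_216))) 
(.node (.node (.leaf r7_56) (.leaf r7_184)) (.node (.leaf r7_120) (.leaf r7_248)))))) (.node (.node 
(.node (.node (.node (.node (.leaf r7_4) (.leaf r7_260)) (.leaf r7_132)) (.node (.leaf r7_68) 
(.leaf r7_196))) (.node (.node (.leaf r7_36) (.leaf r7_164)) (.node (.leaf r7_100) 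
(.leaf r7_228)))) (.node (.node (.node (.node (.leaf r7_20) (.leaf r7_276)) (.leaf r7_148)) (.node 
(.leaf r7_84) (.leaf r7_212))) (.node (.node (.leaf r7_52) (.leaf r7_180)) (.node (.leaf r7_116) 
(.leaf r7_244))))) (.node (.node (.node (.node (.node (.leaf r7_12) (.leaf r7_268)) (.leaf r7_140)) 
(.node (.leaf r7_76) (.leaf r7_204))) (.node (.node (.leaf r7_44) (.leaf r7_172)) (.node 
(.leaf r7_108) (.leaf r7_236)))) (.node (.node (.node (.leaf r7_28) (.leaf r7_156)) (.node 
(.leaf r7_92) (.leaf r7_220))) (.node (.node (.leaf r7_60) (.leaf r7_188)) (.node (.leaf r7_124) 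
(.leaf r7_252))))))) (.node (.node (.node (.node (.node (.node (.node (.leaf r7_2) (.leaf r7_258)) 
(.leaf r7_130)) (.node (.leaf r7_66) (.leaf r7_194))) (.node (.node (.leaf r7_34) (.leaf r7_162)) 
(.node (.leaf r7_98) (.leaf r7_226)))) (.node (.node (.node (.node (.leaf r7_18) (.leaf r7_274)) 
(.leaf r7_146)) (.node (.leaf r7_82) (.leaf r7_210))) (.node (.node (.leaf r7_50) (.leaf r7_178)) 
(.node (.leaf r7_114) (.leaf r7_242))))) (.node (.node (.node (.node (.node (.leaf r7_10) 
(.leaf r7_266)) (.leaf r7_138)) (.node (.leaf r7_74) (.leaf r7_202))) (.node (.node (.leaf r7_42) 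
(.leaf r7_170)) (.node (.leaf r7_106) (.leaf r7_234)))) (.node (.node (.node (.node (.leaf r7_26) 
(.leaf r7_282)) (.leaf r7_154)) (.node (.leaf r7_90) (.leaf r7_218))) (.node (.node (.leaf r7_58) 
(.leaf r7_186)) (.node (.leaf r7_122) (.leaf r7_250)))))) (.node (.node (.node (.node (.node (.node 
(.leaf r7_6) (.leaf r7_262)) (.leaf r7_134)) (.node (.leaf r7_70) (.leaf r7_198))) (.node (.node 
(.leaf r7_38) (.leaf r7_166)) (.node (.leaf r7_102) (.leaf r7_230)))) (.node (.node (.node (.node 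
(.leaf r7_22) (.leaf r7_278)) (.leaf r7_150)) (.node (.leaf r7_86) (.leaf r7_214))) (.node (.node 
(.leaf r7_54) (.leaf r7_182)) (.node (.leaf r7_118) (.leaf r7_246))))) (.node (.node (.node (.node 
(.node (.leaf r7_14) (.leaf r7_270)) (.leaf r7_142)) (.node (.leaf r7_78) (.leaf r7_206))) (.node 
(.node (.leaf r7_46) (.leaf r7_174)) (.node (.leaf r7_110) (.leaf r7_238)))) (.node (.node (.node 
(.leaf r7_30) (.leaf r7_158)) (.node (.leaf r7_94) (.leaf r7_222))) (.node (.node (.leaf r7_62) 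
(.leaf r7_190)) (.node (.leaf r7_126) (.leaf r7_254)))))))) (.node (.node (.node (.node (.node 
(.node (.node (.node (.leaf r7_1) (.leaf r7_257)) (.leaf r7_129)) (.node (.leaf r7_65) 
(.leaf r7_193))) (.node (.node (.leaf r7_33) (.leaf r7_161)) (.node (.leaf r7_97) (.leaf r7_225)))) 
(.node (.node (.node (.node (.leaf r7_17) (.leaf r7_273)) (.leaf r7_145)) (.node (.leaf r7_81) 
(.leaf r7_209))) (.node (.node (.leaf r7_49) (.leaf r7_177)) (.node (.leaf r7_113) 
(.leaf r7_241))))) (.node (.node (.node (.node (.node (.leaf r7_9) (.leaf r7_265)) (.leaf r7_137)) 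
(.node (.leaf r7_73) (.leaf r7_201))) (.node (.node (.leaf r7_41) (.leaf r7_169)) (.node 
(.leaf r7_105) (.leaf r7_233)))) (.node (.node (.node (.node (.leaf r7_25) (.leaf r7_281)) 
(.leaf r7_153)) (.node (.leaf r7_89) (.leaf r7_217))) (.node (.node (.leaf r7_57) (.leaf r7_185)) 
(.node (.leaf r7_121) (.leaf r7_249)))))) (.node (.node (.node (.node (.node (.node (.leaf r7_5) 
(.leaf r7_261)) (.leaf r7_133)) (.node (.leaf r7_69) (.leaf r7_197))) (.node (.node (.leaf r7_37) 
(.leaf r7_165)) (.node (.leaf r7_101) (.leaf r7_229)))) (.node (.node (.node (.node (.leaf r7_21) 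
(.leaf r7_277)) (.leaf r7_149)) (.node (.leaf r7_85) (.leaf r7_213))) (.node (.node (.leaf r7_53) 
(.leaf r7_181)) (.node (.leaf r7_117) (.leaf r7_245))))) (.node (.node (.node (.node (.node 
(.leaf r7_13) (.leaf r7_269)) (.leaf r7_141)) (.node (.leaf r7_77) (.leaf r7_205))) (.node (.node 
(.leaf r7_45) (.leaf r7_173)) (.node (.leaf r7_109) (.leaf r7_237)))) (.node (.node (.node 
(.leaf r7_29) (.leaf r7_157)) (.node (.leaf r7_93) (.leaf r7_221))) (.node (.node (.leaf r7_61) 
(.leaf r7_189)) (.node (.leaf r7_125) (.leaf r7_253))))))) (.node (.node (.node (.node (.node 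
(.node (.node (.leaf r7_3) (.leaf r7_259)) (.leaf r7_131)) (.node (.leaf r7_67) (.leaf r7_195))) 
(.node (.node (.leaf r7_35) (.leaf r7_163)) (.node (.leaf r7_99) (.leaf r7_227)))) (.node (.node 
(.node (.node (.leaf r7_19) (.leaf r7_275)) (.leaf r7_147)) (.node (.leaf r7_83) (.leaf r7_211))) 
(.node (.node (.leaf r7_51) (.leaf r7_179)) (.node (.leaf r7_115) (.leaf r7_243))))) (.node (.node 
(.node (.node (.node (.leaf r7_11) (.leaf r7_267)) (.leaf r7_139)) (.node (.leaf r7_75) 
(.leaf r7_203))) (.node (.node (.leaf r7_43) (.leaf r7_171)) (.node (.leaf r7_107) 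
(.leaf r7_235)))) (.node (.node (.node (.node (.leaf r7_27) (.leaf r7_283)) (.leaf r7_155)) (.node 
(.leaf r7_91) (.leaf r7_219))) (.node (.node (.leaf r7_59) (.leaf r7_187)) (.node (.leaf r7_123) 
(.leaf r7_251)))))) (.node (.node (.node (.node (.node (.node (.leaf r7_7) (.leaf r7_263)) 
(.leaf r7_135)) (.node (.leaf r7_71) (.leaf r7_199))) (.node (.node (.leaf r7_39) (.leaf r7_167)) 
(.node (.leaf r7_103) (.leaf r7_231)))) (.node (.node (.node (.node (.leaf r7_23) (.leaf r7_279)) 
(.leaf r7_151)) (.node (.leaf r7_87) (.leaf r7_215))) (.node (.node (.leaf r7_55) (.leaf r7_183)) 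
(.node (.leaf r7_119) (.leaf r7_247))))) (.node (.node (.node (.node (.node (.leaf r7_15) 
(.leaf r7_271)) (.leaf r7_143)) (.node (.leaf r7_79) (.leaf r7_207))) (.node (.node (.leaf r7_47) 
(.leaf r7_175)) (.node (.leaf r7_111) (.leaf r7_239)))) (.node (.node (.node (.leaf r7_31) 
(.leaf r7_159)) (.node (.leaf r7_95) (.leaf r7_223))) (.node (.node (.leaf r7_63) (.leaf r7_191)) 
(.node (.leaf r7_127) (.leaf r7_255)))))))))
noncomputable def rt8 : Ix (Rw Blk) := (.node (.node (.node (.node (.node (.node (.leaf r8_0) 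
(.leaf r8_32)) (.leaf r8_16)) (.node (.leaf r8_8) (.leaf r8_24))) (.node (.node (.leaf r8_4) 
(.leaf r8_20)) (.node (.leaf r8_12) (.leaf r8_28)))) (.node (.node (.node (.node (.leaf r8_2) 
(.leaf r8_34)) (.leaf r8_18)) (.node (.leaf r8_10) (.leaf r8_26))) (.node (.node (.leaf r8_6) 
(.leaf r8_22)) (.node (.leaf r8_14) (.leaf r8_30))))) (.node (.node (.node (.node (.node 
(.leaf r8_1) (.leaf r8_33)) (.leaf r8_17)) (.node (.leaf r8_9) (.leaf r8_25))) (.node (.node 
(.leaf r8_5) (.leaf r8_21)) (.node (.leaf r8_13) (.leaf r8_29)))) (.node (.node (.node (.node 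
(.leaf r8_3) (.leaf r8_35)) (.leaf r8_19)) (.node (.leaf r8_11) (.leaf r8_27))) (.node (.node 
(.leaf r8_7) (.leaf r8_23)) (.node (.leaf r8_15) (.leaf r8_31))))))
noncomputable def rt9 : Ix (Rw Blk) := (.node (.node (.node (.node (.node (.node (.leaf r9_0) 
(.leaf r9_32)) (.node (.leaf r9_16) (.leaf r9_48))) (.node (.node (.leaf r9_8) (.leaf r9_40)) 
(.leaf r9_24))) (.node (.node (.node (.leaf r9_4) (.leaf r9_36)) (.leaf r9_20)) (.node (.node 
(.leaf r9_12) (.leaf r9_44)) (.leaf r9_28)))) (.node (.node (.node (.node (.leaf r9_2) 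
(.leaf r9_34)) (.leaf r9_18)) (.node (.node (.leaf r9_10) (.leaf r9_42)) (.leaf r9_26))) (.node 
(.node (.node (.leaf r9_6) (.leaf r9_38)) (.leaf r9_22)) (.node (.node (.leaf r9_14) (.leaf r9_46)) 
(.leaf r9_30))))) (.node (.node (.node (.node (.node (.leaf r9_1) (.leaf r9_33)) (.node 
(.leaf r9_17) (.leaf r9_49))) (.node (.node (.leaf r9_9) (.leaf r9_41)) (.leaf r9_25))) (.node 
(.node (.node (.leaf r9_5) (.leaf r9_37)) (.leaf r9_21)) (.node (.node (.leaf r9_13) (.leaf r9_45)) 
(.leaf r9_29)))) (.node (.node (.node (.node (.leaf r9_3) (.leaf r9_35)) (.leaf r9_19)) (.node 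
(.node (.leaf r9_11) (.leaf r9_43)) (.leaf r9_27))) (.node (.node (.node (.leaf r9_7) 
(.leaf r9_39)) (.leaf r9_23)) (.node (.node (.leaf r9_15) (.leaf r9_47)) (.leaf r9_31))))))
noncomputable def rt10 : Ix (Rw Blk) := (.node (.node (.node (.node (.node (.leaf r10_0) 
(.leaf r10_16)) (.node (.leaf r10_8) (.leaf r10_24))) (.node (.node (.leaf r10_4) (.leaf r10_20)) 
(.leaf r10_12))) (.node (.node (.node (.leaf r10_2) (.leaf r10_18)) (.node (.leaf r10_10) 
(.leaf r10_26))) (.node (.node (.leaf r10_6) (.leaf r10_22)) (.leaf r10_14)))) (.node (.node (.node 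
(.node (.leaf r10_1) (.leaf r10_17)) (.node (.leaf r10_9) (.leaf r10_25))) (.node (.node 
(.leaf r10_5) (.leaf r10_21)) (.leaf r10_13))) (.node (.node (.node (.leaf r10_3) (.leaf r10_19)) 
(.leaf r10_11)) (.node (.node (.leaf r10_7) (.leaf r10_23)) (.leaf r10_15)))))
noncomputable def rt11 : Ix (Rw Blk) := (.node (.node (.node (.node (.node (.leaf r11_0) 
(.leaf r11_16)) (.leaf r11_8)) (.node (.node (.leaf r11_4) (.leaf r11_20)) (.leaf r11_12))) (.node 
(.node (.node (.leaf r11_2) (.leaf r11_18)) (.leaf r11_10)) (.node (.node (.leaf r11_6) 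
(.leaf r11_22)) (.leaf r11_14)))) (.node (.node (.node (.node (.leaf r11_1) (.leaf r11_17)) 
(.leaf r11_9)) (.node (.node (.leaf r11_5) (.leaf r11_21)) (.leaf r11_13))) (.node (.node (.node 
(.leaf r11_3) (.leaf r11_19)) (.leaf r11_11)) (.node (.leaf r11_7) (.leaf r11_15)))))
noncomputable def rt12 : Ix (Rw Blk) := (.node (.node (.node (.node (.node (.node (.leaf r12_0) 
(.leaf r12_32)) (.leaf r12_16)) (.node (.leaf r12_8) (.leaf r12_24))) (.node (.node (.leaf r12_4) 
(.leaf r12_20)) (.node (.leaf r12_12) (.leaf r12_28)))) (.node (.node (.node (.leaf r12_2) 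
(.leaf r12_18)) (.node (.leaf r12_10) (.leaf r12_26))) (.node (.node (.leaf r12_6) (.leaf r12_22)) 
(.node (.leaf r12_14) (.leaf r12_30))))) (.node (.node (.node (.node (.node (.leaf r12_1) 
(.leaf r12_33)) (.leaf r12_17)) (.node (.leaf r12_9) (.leaf r12_25))) (.node (.node (.leaf r12_5) 
(.leaf r12_21)) (.node (.leaf r12_13) (.leaf r12_29)))) (.node (.node (.node (.leaf r12_3) 
(.leaf r12_19)) (.node (.leaf r12_11) (.leaf r12_27))) (.node (.node (.leaf r12_7) (.leaf r12_23)) 
(.node (.leaf r12_15) (.leaf r12_31))))))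
noncomputable def rt13 : Ix (Rw Blk) := (.node (.node (.node (.node (.node (.leaf r13_0) 
(.leaf r13_16)) (.leaf r13_8)) (.node (.leaf r13_4) (.leaf r13_12))) (.node (.node (.node 
(.leaf r13_2) (.leaf r13_18)) (.leaf r13_10)) (.node (.leaf r13_6) (.leaf r13_14)))) (.node (.node 
(.node (.node (.leaf r13_1) (.leaf r13_17)) (.leaf r13_9)) (.node (.leaf r13_5) (.leaf r13_13))) 
(.node (.node (.leaf r13_3) (.leaf r13_11)) (.node (.leaf r13_7) (.leaf r13_15)))))
noncomputable def rt14 : Ix (Rw Blk) := (.node (.node (.node (.node (.node (.leaf r14_0) 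
(.leaf r14_16)) (.node (.leaf r14_8) (.leaf r14_24))) (.node (.node (.leaf r14_4) (.leaf r14_20)) 
(.node (.leaf r14_12) (.leaf r14_28)))) (.node (.node (.node (.leaf r14_2) (.leaf r14_18)) (.node 
(.leaf r14_10) (.leaf r14_26))) (.node (.node (.leaf r14_6) (.leaf r14_22)) (.leaf r14_14)))) 
(.node (.node (.node (.node (.leaf r14_1) (.leaf r14_17)) (.node (.leaf r14_9) (.leaf r14_25))) 
(.node (.node (.leaf r14_5) (.leaf r14_21)) (.node (.leaf r14_13) (.leaf r14_29)))) (.node (.node 
(.node (.leaf r14_3) (.leaf r14_19)) (.node (.leaf r14_11) (.leaf r14_27))) (.node (.node 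
(.leaf r14_7) (.leaf r14_23)) (.leaf r14_15)))))
noncomputable def rt15 : Ix (Rw Blk) := (.node (.node (.node (.node (.node (.node (.node (.node 
(.node (.leaf r15_0) (.leaf r15_256)) (.leaf r15_128)) (.node (.leaf r15_64) (.leaf r15_192))) 
(.node (.node (.leaf r15_32) (.leaf r15_160)) (.node (.leaf r15_96) (.leaf r15_224)))) (.node 
(.node (.node (.node (.leaf r15_16) (.leaf r15_272)) (.leaf r15_144)) (.node (.leaf r15_80) 
(.leaf r15_208))) (.node (.node (.leaf r15_48) (.leaf r15_176)) (.node (.leaf r15_112) 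
(.leaf r15_240))))) (.node (.node (.node (.node (.node (.leaf r15_8) (.leaf r15_264)) 
(.leaf r15_136)) (.node (.leaf r15_72) (.leaf r15_200))) (.node (.node (.leaf r15_40) 
(.leaf r15_168)) (.node (.leaf r15_104) (.leaf r15_232)))) (.node (.node (.node (.node 
(.leaf r15_24) (.leaf r15_280)) (.leaf r15_152)) (.node (.leaf r15_88) (.leaf r15_216))) (.node 
(.node (.leaf r15_56) (.leaf r15_184)) (.node (.leaf r15_120) (.leaf r15_248)))))) (.node (.node 
(.node (.node (.node (.node (.leaf r15_4) (.leaf r15_260)) (.leaf r15_132)) (.node (.leaf r15_68) 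
(.leaf r15_196))) (.node (.node (.leaf r15_36) (.leaf r15_164)) (.node (.leaf r15_100) 
(.leaf r15_228)))) (.node (.node (.node (.node (.leaf r15_20) (.leaf r15_276)) (.leaf r15_148)) 
(.node (.leaf r15_84) (.leaf r15_212))) (.node (.node (.leaf r15_52) (.leaf r15_180)) (.node 
(.leaf r15_116) (.leaf r15_244))))) (.node (.node (.node (.node (.node (.leaf r15_12) 
(.leaf r15_268)) (.leaf r15_140)) (.node (.leaf r15_76) (.leaf r15_204))) (.node (.node 
(.leaf r15_44) (.leaf r15_172)) (.node (.leaf r15_108) (.leaf r15_236)))) (.node (.node (.node 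
(.leaf r15_28) (.leaf r15_156)) (.node (.leaf r15_92) (.leaf r15_220))) (.node (.node 
(.leaf r15_60) (.leaf r15_188)) (.node (.leaf r15_124) (.leaf r15_252))))))) (.node (.node (.node 
(.node (.node (.node (.node (.leaf r15_2) (.leaf r15_258)) (.leaf r15_130)) (.node (.leaf r15_66) 
(.leaf r15_194))) (.node (.node (.leaf r15_34) (.leaf r15_162)) (.node (.leaf r15_98) 
(.leaf r15_226)))) (.node (.node (.node (.node (.leaf r15_18) (.leaf r15_274)) (.leaf r15_146)) 
(.node (.leaf r15_82) (.leaf r15_210))) (.node (.node (.leaf r15_50) (.leaf r15_178)) (.node 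
(.leaf r15_114) (.leaf r15_242))))) (.node (.node (.node (.node (.node (.leaf r15_10) 
(.leaf r15_266)) (.leaf r15_138)) (.node (.leaf r15_74) (.leaf r15_202))) (.node (.node 
(.leaf r15_42) (.leaf r15_170)) (.node (.leaf r15_106) (.leaf r15_234)))) (.node (.node (.node 
(.node (.leaf r15_26) (.leaf r15_282)) (.leaf r15_154)) (.node (.leaf r15_90) (.leaf r15_218))) 
(.node (.node (.leaf r15_58) (.leaf r15_186)) (.node (.leaf r15_122) (.leaf r15_250)))))) (.node 
(.node (.node (.node (.node (.node (.leaf r15_6) (.leaf r15_262)) (.leaf r15_134)) (.node 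
(.leaf r15_70) (.leaf r15_198))) (.node (.node (.leaf r15_38) (.leaf r15_166)) (.node 
(.leaf r15_102) (.leaf r15_230)))) (.node (.node (.node (.node (.leaf r15_22) (.leaf r15_278)) 
(.leaf r15_150)) (.node (.leaf r15_86) (.leaf r15_214))) (.node (.node (.leaf r15_54) 
(.leaf r15_182)) (.node (.leaf r15_118) (.leaf r15_246))))) (.node (.node (.node (.node (.node 
(.leaf r15_14) (.leaf r15_270)) (.leaf r15_142)) (.node (.leaf r15_78) (.leaf r15_206))) (.node 
(.node (.leaf r15_46) (.leaf r15_174)) (.node (.leaf r15_110) (.leaf r15_238)))) (.node (.node 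
(.node (.leaf r15_30) (.leaf r15_158)) (.node (.leaf r15_94) (.leaf r15_222))) (.node (.node 
(.leaf r15_62) (.leaf r15_190)) (.node (.leaf r15_126) (.leaf r15_254)))))))) (.node (.node (.node 
(.node (.node (.node (.node (.node (.leaf r15_1) (.leaf r15_257)) (.leaf r15_129)) (.node 
(.leaf r15_65) (.leaf r15_193))) (.node (.node (.leaf r15_33) (.leaf r15_161)) (.node 
(.leaf r15_97) (.leaf r15_225)))) (.node (.node (.node (.node (.leaf r15_17) (.leaf r15_273)) 
(.leaf r15_145)) (.node (.leaf r15_81) (.leaf r15_209))) (.node (.node (.leaf r15_49) 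
(.leaf r15_177)) (.node (.leaf r15_113) (.leaf r15_241))))) (.node (.node (.node (.node (.node 
(.leaf r15_9) (.leaf r15_265)) (.leaf r15_137)) (.node (.leaf r15_73) (.leaf r15_201))) (.node 
(.node (.leaf r15_41) (.leaf r15_169)) (.node (.leaf r15_105) (.leaf r15_233)))) (.node (.node 
(.node (.node (.leaf r15_25) (.leaf r15_281)) (.leaf r15_153)) (.node (.leaf r15_89) 
(.leaf r15_217))) (.node (.node (.leaf r15_57) (.leaf r15_185)) (.node (.leaf r15_121) 
(.leaf r15_249)))))) (.node (.node (.node (.node (.node (.node (.leaf r15_5) (.leaf r15_261)) 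
(.leaf r15_133)) (.node (.leaf r15_69) (.leaf r15_197))) (.node (.node (.leaf r15_37) 
(.leaf r15_165)) (.node (.leaf r15_101) (.leaf r15_229)))) (.node (.node (.node (.node 
(.leaf r15_21) (.leaf r15_277)) (.leaf r15_149)) (.node (.leaf r15_85) (.leaf r15_213))) (.node 
(.node (.leaf r15_53) (.leaf r15_181)) (.node (.leaf r15_117) (.leaf r15_245))))) (.node (.node 
(.node (.node (.node (.leaf r15_13) (.leaf r15_269)) (.leaf r15_141)) (.node (.leaf r15_77) 
(.leaf r15_205))) (.node (.node (.leaf r15_45) (.leaf r15_173)) (.node (.leaf r15_109) 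
(.leaf r15_237)))) (.node (.node (.node (.leaf r15_29) (.leaf r15_157)) (.node (.leaf r15_93) 
(.leaf r15_221))) (.node (.node (.leaf r15_61) (.leaf r15_189)) (.node (.leaf r15_125) 
(.leaf r15_253))))))) (.node (.node (.node (.node (.node (.node (.node (.leaf r15_3) 
(.leaf r15_259)) (.leaf r15_131)) (.node (.leaf r15_67) (.leaf r15_195))) (.node (.node 
(.leaf r15_35) (.leaf r15_163)) (.node (.leaf r15_99) (.leaf r15_227)))) (.node (.node (.node 
(.node (.leaf r15_19) (.leaf r15_275)) (.leaf r15_147)) (.node (.leaf r15_83) (.leaf r15_211))) 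
(.node (.node (.leaf r15_51) (.leaf r15_179)) (.node (.leaf r15_115) (.leaf r15_243))))) (.node 
(.node (.node (.node (.node (.leaf r15_11) (.leaf r15_267)) (.leaf r15_139)) (.node (.leaf r15_75) 
(.leaf r15_203))) (.node (.node (.leaf r15_43) (.leaf r15_171)) (.node (.leaf r15_107) 
(.leaf r15_235)))) (.node (.node (.node (.node (.leaf r15_27) (.leaf r15_283)) (.leaf r15_155)) 
(.node (.leaf r15_91) (.leaf r15_219))) (.node (.node (.leaf r15_59) (.leaf r15_187)) (.node 
(.leaf r15_123) (.leaf r15_251)))))) (.node (.node (.node (.node (.node (.node (.leaf r15_7) 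
(.leaf r15_263)) (.leaf r15_135)) (.node (.leaf r15_71) (.leaf r15_199))) (.node (.node 
(.leaf r15_39) (.leaf r15_167)) (.node (.leaf r15_103) (.leaf r15_231)))) (.node (.node (.node 
(.node (.leaf r15_23) (.leaf r15_279)) (.leaf r15_151)) (.node (.leaf r15_87) (.leaf r15_215))) 
(.node (.node (.leaf r15_55) (.leaf r15_183)) (.node (.leaf r15_119) (.leaf r15_247))))) (.node 
(.node (.node (.node (.node (.leaf r15_15) (.leaf r15_271)) (.leaf r15_143)) (.node (.leaf r15_79) 
(.leaf r15_207))) (.node (.node (.leaf r15_47) (.leaf r15_175)) (.node (.leaf r15_111) 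
(.leaf r15_239)))) (.node (.node (.node (.leaf r15_31) (.leaf r15_159)) (.node (.leaf r15_95) 
(.leaf r15_223))) (.node (.node (.leaf r15_63) (.leaf r15_191)) (.node (.leaf r15_127) 
(.leaf r15_255)))))))))
noncomputable def rt16 : Ix (Rw Blk) := (.node (.node (.node (.node (.node (.node (.leaf r16_0) 
(.leaf r16_32)) (.leaf r16_16)) (.node (.leaf r16_8) (.leaf r16_24))) (.node (.node (.leaf r16_4) 
(.leaf r16_20)) (.node (.leaf r16_12) (.leaf r16_28)))) (.node (.node (.node (.node (.leaf r16_2) 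
(.leaf r16_34)) (.leaf r16_18)) (.node (.leaf r16_10) (.leaf r16_26))) (.node (.node (.leaf r16_6) 
(.leaf r16_22)) (.node (.leaf r16_14) (.leaf r16_30))))) (.node (.node (.node (.node (.node 
(.leaf r16_1) (.leaf r16_33)) (.leaf r16_17)) (.node (.leaf r16_9) (.leaf r16_25))) (.node (.node 
(.leaf r16_5) (.leaf r16_21)) (.node (.leaf r16_13) (.leaf r16_29)))) (.node (.node (.node (.node 
(.leaf r16_3) (.leaf r16_35)) (.leaf r16_19)) (.node (.leaf r16_11) (.leaf r16_27))) (.node (.node 
(.leaf r16_7) (.leaf r16_23)) (.node (.leaf r16_15) (.leaf r16_31))))))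
noncomputable def rt17 : Ix (Rw Blk) := (.node (.node (.node (.node (.node (.leaf r17_0) 
(.leaf r17_16)) (.leaf r17_8)) (.node (.node (.leaf r17_4) (.leaf r17_20)) (.leaf r17_12))) (.node 
(.node (.node (.leaf r17_2) (.leaf r17_18)) (.leaf r17_10)) (.node (.node (.leaf r17_6) 
(.leaf r17_22)) (.leaf r17_14)))) (.node (.node (.node (.node (.leaf r17_1) (.leaf r17_17)) 
(.leaf r17_9)) (.node (.node (.leaf r17_5) (.leaf r17_21)) (.leaf r17_13))) (.node (.node (.node 
(.leaf r17_3) (.leaf r17_19)) (.leaf r17_11)) (.node (.leaf r17_7) (.leaf r17_15)))))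
noncomputable def rt18 : Ix (Rw Blk) := (.node (.node (.node (.node (.node (.leaf r18_0) 
(.leaf r18_16)) (.leaf r18_8)) (.node (.leaf r18_4) (.leaf r18_12))) (.node (.node (.node 
(.leaf r18_2) (.leaf r18_18)) (.leaf r18_10)) (.node (.leaf r18_6) (.leaf r18_14)))) (.node (.node 
(.node (.node (.leaf r18_1) (.leaf r18_17)) (.leaf r18_9)) (.node (.leaf r18_5) (.leaf r18_13))) 
(.node (.node (.leaf r18_3) (.leaf r18_11)) (.node (.leaf r18_7) (.leaf r18_15)))))
noncomputable def rt19 : Ix (Rw Blk) := (.node (.node (.node (.node (.node (.leaf r19_0) 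
(.leaf r19_16)) (.leaf r19_8)) (.node (.leaf r19_4) (.leaf r19_12))) (.node (.node (.node 
(.leaf r19_2) (.leaf r19_18)) (.leaf r19_10)) (.node (.leaf r19_6) (.leaf r19_14)))) (.node (.node 
(.node (.node (.leaf r19_1) (.leaf r19_17)) (.leaf r19_9)) (.node (.leaf r19_5) (.leaf r19_13))) 
(.node (.node (.leaf r19_3) (.leaf r19_11)) (.node (.leaf r19_7) (.leaf r19_15)))))
noncomputable def rt20 : Ix (Rw Blk) := (.node (.node (.node (.node (.node (.node (.node (.node 
(.node (.leaf r20_0) (.leaf r20_256)) (.leaf r20_128)) (.node (.leaf r20_64) (.leaf r20_192))) 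
(.node (.node (.leaf r20_32) (.leaf r20_160)) (.node (.leaf r20_96) (.leaf r20_224)))) (.node 
(.node (.node (.node (.leaf r20_16) (.leaf r20_272)) (.leaf r20_144)) (.node (.leaf r20_80) 
(.leaf r20_208))) (.node (.node (.leaf r20_48) (.leaf r20_176)) (.node (.leaf r20_112) 
(.leaf r20_240))))) (.node (.node (.node (.node (.node (.leaf r20_8) (.leaf r20_264)) 
(.leaf r20_136)) (.node (.leaf r20_72) (.leaf r20_200))) (.node (.node (.leaf r20_40) 
(.leaf r20_168)) (.node (.leaf r20_104) (.leaf r20_232)))) (.node (.node (.node (.node 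
(.leaf r20_24) (.leaf r20_280)) (.leaf r20_152)) (.node (.leaf r20_88) (.leaf r20_216))) (.node 
(.node (.leaf r20_56) (.leaf r20_184)) (.node (.leaf r20_120) (.leaf r20_248)))))) (.node (.node 
(.node (.node (.node (.node (.leaf r20_4) (.leaf r20_260)) (.leaf r20_132)) (.node (.leaf r20_68) 
(.leaf r20_196))) (.node (.node (.leaf r20_36) (.leaf r20_164)) (.node (.leaf r20_100) 
(.leaf r20_228)))) (.node (.node (.node (.node (.leaf r20_20) (.leaf r20_276)) (.leaf r20_148)) 
(.node (.leaf r20_84) (.leaf r20_212))) (.node (.node (.leaf r20_52) (.leaf r20_180)) (.node 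
(.leaf r20_116) (.leaf r20_244))))) (.node (.node (.node (.node (.node (.leaf r20_12) 
(.leaf r20_268)) (.leaf r20_140)) (.node (.leaf r20_76) (.leaf r20_204))) (.node (.node 
(.leaf r20_44) (.leaf r20_172)) (.node (.leaf r20_108) (.leaf r20_236)))) (.node (.node (.node 
(.leaf r20_28) (.leaf r20_156)) (.node (.leaf r20_92) (.leaf r20_220))) (.node (.node 
(.leaf r20_60) (.leaf r20_188)) (.node (.leaf r20_124) (.leaf r20_252))))))) (.node (.node (.node 
(.node (.node (.node (.node (.leaf r20_2) (.leaf r20_258)) (.leaf r20_130)) (.node (.leaf r20_66) 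
(.leaf r20_194))) (.node (.node (.leaf r20_34) (.leaf r20_162)) (.node (.leaf r20_98) 
(.leaf r20_226)))) (.node (.node (.node (.node (.leaf r20_18) (.leaf r20_274)) (.leaf r20_146)) 
(.node (.leaf r20_82) (.leaf r20_210))) (.node (.node (.leaf r20_50) (.leaf r20_178)) (.node 
(.leaf r20_114) (.leaf r20_242))))) (.node (.node (.node (.node (.node (.leaf r20_10) 
(.leaf r20_266)) (.leaf r20_138)) (.node (.leaf r20_74) (.leaf r20_202))) (.node (.node 
(.leaf r20_42) (.leaf r20_170)) (.node (.leaf r20_106) (.leaf r20_234)))) (.node (.node (.node 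
(.node (.leaf r20_26) (.leaf r20_282)) (.leaf r20_154)) (.node (.leaf r20_90) (.leaf r20_218))) 
(.node (.node (.leaf r20_58) (.leaf r20_186)) (.node (.leaf r20_122) (.leaf r20_250)))))) (.node 
(.node (.node (.node (.node (.node (.leaf r20_6) (.leaf r20_262)) (.leaf r20_134)) (.node 
(.leaf r20_70) (.leaf r20_198))) (.node (.node (.leaf r20_38) (.leaf r20_166)) (.node 
(.leaf r20_102) (.leaf r20_230)))) (.node (.node (.node (.node (.leaf r20_22) (.leaf r20_278)) 
(.leaf r20_150)) (.node (.leaf r20_86) (.leaf r20_214))) (.node (.node (.leaf r20_54) 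
(.leaf r20_182)) (.node (.leaf r20_118) (.leaf r20_246))))) (.node (.node (.node (.node (.node 
(.leaf r20_14) (.leaf r20_270)) (.leaf r20_142)) (.node (.leaf r20_78) (.leaf r20_206))) (.node 
(.node (.leaf r20_46) (.leaf r20_174)) (.node (.leaf r20_110) (.leaf r20_238)))) (.node (.node 
(.node (.leaf r20_30) (.leaf r20_158)) (.node (.leaf r20_94) (.leaf r20_222))) (.node (.node 
(.leaf r20_62) (.leaf r20_190)) (.node (.leaf r20_126) (.leaf r20_254)))))))) (.node (.node (.node 
(.node (.node (.node (.node (.node (.leaf r20_1) (.leaf r20_257)) (.leaf r20_129)) (.node 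
(.leaf r20_65) (.leaf r20_193))) (.node (.node (.leaf r20_33) (.leaf r20_161)) (.node 
(.leaf r20_97) (.leaf r20_225)))) (.node (.node (.node (.node (.leaf r20_17) (.leaf r20_273)) 
(.leaf r20_145)) (.node (.leaf r20_81) (.leaf r20_209))) (.node (.node (.leaf r20_49) 
(.leaf r20_177)) (.node (.leaf r20_113) (.leaf r20_241))))) (.node (.node (.node (.node (.node 
(.leaf r20_9) (.leaf r20_265)) (.leaf r20_137)) (.node (.leaf r20_73) (.leaf r20_201))) (.node 
(.node (.leaf r20_41) (.leaf r20_169)) (.node (.leaf r20_105) (.leaf r20_233)))) (.node (.node 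
(.node (.node (.leaf r20_25) (.leaf r20_281)) (.leaf r20_153)) (.node (.leaf r20_89) 
(.leaf r20_217))) (.node (.node (.leaf r20_57) (.leaf r20_185)) (.node (.leaf r20_121) 
(.leaf r20_249)))))) (.node (.node (.node (.node (.node (.node (.leaf r20_5) (.leaf r20_261)) 
(.leaf r20_133)) (.node (.leaf r20_69) (.leaf r20_197))) (.node (.node (.leaf r20_37) 
(.leaf r20_165)) (.node (.leaf r20_101) (.leaf r20_229)))) (.node (.node (.node (.node 
(.leaf r20_21) (.leaf r20_277)) (.leaf r20_149)) (.node (.leaf r20_85) (.leaf r20_213))) (.node 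
(.node (.leaf r20_53) (.leaf r20_181)) (.node (.leaf r20_117) (.leaf r20_245))))) (.node (.node 
(.node (.node (.node (.leaf r20_13) (.leaf r20_269)) (.leaf r20_141)) (.node (.leaf r20_77) 
(.leaf r20_205))) (.node (.node (.leaf r20_45) (.leaf r20_173)) (.node (.leaf r20_109) 
(.leaf r20_237)))) (.node (.node (.node (.leaf r20_29) (.leaf r20_157)) (.node (.leaf r20_93) 
(.leaf r20_221))) (.node (.node (.leaf r20_61) (.leaf r20_189)) (.node (.leaf r20_125) 
(.leaf r20_253))))))) (.node (.node (.node (.node (.node (.node (.node (.leaf r20_3) 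
(.leaf r20_259)) (.leaf r20_131)) (.node (.leaf r20_67) (.leaf r20_195))) (.node (.node 
(.leaf r20_35) (.leaf r20_163)) (.node (.leaf r20_99) (.leaf r20_227)))) (.node (.node (.node 
(.node (.leaf r20_19) (.leaf r20_275)) (.leaf r20_147)) (.node (.leaf r20_83) (.leaf r20_211))) 
(.node (.node (.leaf r20_51) (.leaf r20_179)) (.node (.leaf r20_115) (.leaf r20_243))))) (.node 
(.node (.node (.node (.node (.leaf r20_11) (.leaf r20_267)) (.leaf r20_139)) (.node (.leaf r20_75) 
(.leaf r20_203))) (.node (.node (.leaf r20_43) (.leaf r20_171)) (.node (.leaf r20_107) 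
(.leaf r20_235)))) (.node (.node (.node (.node (.leaf r20_27) (.leaf r20_283)) (.leaf r20_155)) 
(.node (.leaf r20_91) (.leaf r20_219))) (.node (.node (.leaf r20_59) (.leaf r20_187)) (.node 
(.leaf r20_123) (.leaf r20_251)))))) (.node (.node (.node (.node (.node (.node (.leaf r20_7) 
(.leaf r20_263)) (.leaf r20_135)) (.node (.leaf r20_71) (.leaf r20_199))) (.node (.node 
(.leaf r20_39) (.leaf r20_167)) (.node (.leaf r20_103) (.leaf r20_231)))) (.node (.node (.node 
(.node (.leaf r20_23) (.leaf r20_279)) (.leaf r20_151)) (.node (.leaf r20_87) (.leaf r20_215))) 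
(.node (.node (.leaf r20_55) (.leaf r20_183)) (.node (.leaf r20_119) (.leaf r20_247))))) (.node 
(.node (.node (.node (.node (.leaf r20_15) (.leaf r20_271)) (.leaf r20_143)) (.node (.leaf r20_79) 
(.leaf r20_207))) (.node (.node (.leaf r20_47) (.leaf r20_175)) (.node (.leaf r20_111) 
(.leaf r20_239)))) (.node (.node (.node (.leaf r20_31) (.leaf r20_159)) (.node (.leaf r20_95) 
(.leaf r20_223))) (.node (.node (.leaf r20_63) (.leaf r20_191)) (.node (.leaf r20_127) 
(.leaf r20_255)))))))))
noncomputable def rt21 : Ix (Rw Blk) := (.node (.node (.node (.node (.node (.node (.leaf r21_0) 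
(.leaf r21_32)) (.leaf r21_16)) (.node (.leaf r21_8) (.leaf r21_24))) (.node (.node (.leaf r21_4) 
(.leaf r21_20)) (.node (.leaf r21_12) (.leaf r21_28)))) (.node (.node (.node (.node (.leaf r21_2) 
(.leaf r21_34)) (.leaf r21_18)) (.node (.leaf r21_10) (.leaf r21_26))) (.node (.node (.leaf r21_6) 
(.leaf r21_22)) (.node (.leaf r21_14) (.leaf r21_30))))) (.node (.node (.node (.node (.node 
(.leaf r21_1) (.leaf r21_33)) (.leaf r21_17)) (.node (.leaf r21_9) (.leaf r21_25))) (.node (.node 
(.leaf r21_5) (.leaf r21_21)) (.node (.leaf r21_13) (.leaf r21_29)))) (.node (.node (.node (.node 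
(.leaf r21_3) (.leaf r21_35)) (.leaf r21_19)) (.node (.leaf r21_11) (.leaf r21_27))) (.node (.node 
(.leaf r21_7) (.leaf r21_23)) (.node (.leaf r21_15) (.leaf r21_31))))))
noncomputable def rt22 : Ix (Rw Blk) := (.node (.node (.node (.node (.node (.node (.leaf r22_0) 
(.leaf r22_32)) (.node (.leaf r22_16) (.leaf r22_48))) (.node (.node (.leaf r22_8) (.leaf r22_40)) 
(.leaf r22_24))) (.node (.node (.node (.leaf r22_4) (.leaf r22_36)) (.leaf r22_20)) (.node (.node 
(.leaf r22_12) (.leaf r22_44)) (.leaf r22_28)))) (.node (.node (.node (.node (.leaf r22_2) 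
(.leaf r22_34)) (.leaf r22_18)) (.node (.node (.leaf r22_10) (.leaf r22_42)) (.leaf r22_26))) 
(.node (.node (.node (.leaf r22_6) (.leaf r22_38)) (.leaf r22_22)) (.node (.node (.leaf r22_14) 
(.leaf r22_46)) (.leaf r22_30))))) (.node (.node (.node (.node (.node (.leaf r22_1) (.leaf r22_33)) 
(.node (.leaf r22_17) (.leaf r22_49))) (.node (.node (.leaf r22_9) (.leaf r22_41)) (.leaf r22_25))) 
(.node (.node (.node (.leaf r22_5) (.leaf r22_37)) (.leaf r22_21)) (.node (.node (.leaf r22_13) 
(.leaf r22_45)) (.leaf r22_29)))) (.node (.node (.node (.node (.leaf r22_3) (.leaf r22_35)) 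
(.leaf r22_19)) (.node (.node (.leaf r22_11) (.leaf r22_43)) (.leaf r22_27))) (.node (.node (.node 
(.leaf r22_7) (.leaf r22_39)) (.leaf r22_23)) (.node (.node (.leaf r22_15) (.leaf r22_47)) 
(.leaf r22_31))))))
noncomputable def rt23 : Ix (Rw Blk) := (.node (.node (.node (.node (.node (.leaf r23_0) 
(.leaf r23_16)) (.node (.leaf r23_8) (.leaf r23_24))) (.node (.node (.leaf r23_4) (.leaf r23_20)) 
(.leaf r23_12))) (.node (.node (.node (.leaf r23_2) (.leaf r23_18)) (.node (.leaf r23_10) 
(.leaf r23_26))) (.node (.node (.leaf r23_6) (.leaf r23_22)) (.leaf r23_14)))) (.node (.node (.node 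
(.node (.leaf r23_1) (.leaf r23_17)) (.node (.leaf r23_9) (.leaf r23_25))) (.node (.node 
(.leaf r23_5) (.leaf r23_21)) (.leaf r23_13))) (.node (.node (.node (.leaf r23_3) (.leaf r23_19)) 
(.leaf r23_11)) (.node (.node (.leaf r23_7) (.leaf r23_23)) (.leaf r23_15)))))
noncomputable def rt24 : Ix (Rw Blk) := (.node (.node (.node (.node (.node (.leaf r24_0) 
(.leaf r24_16)) (.leaf r24_8)) (.node (.node (.leaf r24_4) (.leaf r24_20)) (.leaf r24_12))) (.node 
(.node (.node (.leaf r24_2) (.leaf r24_18)) (.leaf r24_10)) (.node (.node (.leaf r24_6) 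
(.leaf r24_22)) (.leaf r24_14)))) (.node (.node (.node (.node (.leaf r24_1) (.leaf r24_17)) 
(.leaf r24_9)) (.node (.node (.leaf r24_5) (.leaf r24_21)) (.leaf r24_13))) (.node (.node (.node 
(.leaf r24_3) (.leaf r24_19)) (.leaf r24_11)) (.node (.leaf r24_7) (.leaf r24_15)))))
noncomputable def rt25 : Ix (Rw Blk) := (.node (.node (.node (.node (.node (.node (.leaf r25_0) 
(.leaf r25_32)) (.leaf r25_16)) (.node (.leaf r25_8) (.leaf r25_24))) (.node (.node (.leaf r25_4) 
(.leaf r25_20)) (.node (.leaf r25_12) (.leaf r25_28)))) (.node (.node (.node (.leaf r25_2) 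
(.leaf r25_18)) (.node (.leaf r25_10) (.leaf r25_26))) (.node (.node (.leaf r25_6) (.leaf r25_22)) 
(.node (.leaf r25_14) (.leaf r25_30))))) (.node (.node (.node (.node (.node (.leaf r25_1) 
(.leaf r25_33)) (.leaf r25_17)) (.node (.leaf r25_9) (.leaf r25_25))) (.node (.node (.leaf r25_5) 
(.leaf r25_21)) (.node (.leaf r25_13) (.leaf r25_29)))) (.node (.node (.node (.leaf r25_3) 
(.leaf r25_19)) (.node (.leaf r25_11) (.leaf r25_27))) (.node (.node (.leaf r25_7) (.leaf r25_23)) 
(.node (.leaf r25_15) (.leaf r25_31))))))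
noncomputable def rt26 : Ix (Rw Blk) := (.node (.node (.node (.node (.node (.leaf r26_0) 
(.leaf r26_16)) (.leaf r26_8)) (.node (.leaf r26_4) (.leaf r26_12))) (.node (.node (.node 
(.leaf r26_2) (.leaf r26_18)) (.leaf r26_10)) (.node (.leaf r26_6) (.leaf r26_14)))) (.node (.node 
(.node (.node (.leaf r26_1) (.leaf r26_17)) (.leaf r26_9)) (.node (.leaf r26_5) (.leaf r26_13))) 
(.node (.node (.leaf r26_3) (.leaf r26_11)) (.node (.leaf r26_7) (.leaf r26_15)))))
noncomputable def rt27 : Ix (Rw Blk) := (.node (.node (.node (.node (.node (.leaf r27_0) 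
(.leaf r27_16)) (.node (.leaf r27_8) (.leaf r27_24))) (.node (.node (.leaf r27_4) (.leaf r27_20)) 
(.node (.leaf r27_12) (.leaf r27_28)))) (.node (.node (.node (.leaf r27_2) (.leaf r27_18)) (.node 
(.leaf r27_10) (.leaf r27_26))) (.node (.node (.leaf r27_6) (.leaf r27_22)) (.leaf r27_14)))) 
(.node (.node (.node (.node (.leaf r27_1) (.leaf r27_17)) (.node (.leaf r27_9) (.leaf r27_25))) 
(.node (.node (.leaf r27_5) (.leaf r27_21)) (.node (.leaf r27_13) (.leaf r27_29)))) (.node (.node 
(.node (.leaf r27_3) (.leaf r27_19)) (.node (.leaf r27_11) (.leaf r27_27))) (.node (.node 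
(.leaf r27_7) (.leaf r27_23)) (.leaf r27_15)))))
noncomputable def rt28 : Ix (Rw Blk) := (.node (.node (.node (.node (.node (.node (.node (.node 
(.node (.leaf r28_0) (.leaf r28_256)) (.leaf r28_128)) (.node (.leaf r28_64) (.leaf r28_192))) 
(.node (.node (.leaf r28_32) (.leaf r28_160)) (.node (.leaf r28_96) (.leaf r28_224)))) (.node 
(.node (.node (.node (.leaf r28_16) (.leaf r28_272)) (.leaf r28_144)) (.node (.leaf r28_80) 
(.leaf r28_208))) (.node (.node (.leaf r28_48) (.leaf r28_176)) (.node (.leaf r28_112) 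
(.leaf r28_240))))) (.node (.node (.node (.node (.node (.leaf r28_8) (.leaf r28_264)) 
(.leaf r28_136)) (.node (.leaf r28_72) (.leaf r28_200))) (.node (.node (.leaf r28_40) 
(.leaf r28_168)) (.node (.leaf r28_104) (.leaf r28_232)))) (.node (.node (.node (.node 
(.leaf r28_24) (.leaf r28_280)) (.leaf r28_152)) (.node (.leaf r28_88) (.leaf r28_216))) (.node 
(.node (.leaf r28_56) (.leaf r28_184)) (.node (.leaf r28_120) (.leaf r28_248)))))) (.node (.node 
(.node (.node (.node (.node (.leaf r28_4) (.leaf r28_260)) (.leaf r28_132)) (.node (.leaf r28_68) 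
(.leaf r28_196))) (.node (.node (.leaf r28_36) (.leaf r28_164)) (.node (.leaf r28_100) 
(.leaf r28_228)))) (.node (.node (.node (.node (.leaf r28_20) (.leaf r28_276)) (.leaf r28_148)) 
(.node (.leaf r28_84) (.leaf r28_212))) (.node (.node (.leaf r28_52) (.leaf r28_180)) (.node 
(.leaf r28_116) (.leaf r28_244))))) (.node (.node (.node (.node (.node (.leaf r28_12) 
(.leaf r28_268)) (.leaf r28_140)) (.node (.leaf r28_76) (.leaf r28_204))) (.node (.node 
(.leaf r28_44) (.leaf r28_172)) (.node (.leaf r28_108) (.leaf r28_236)))) (.node (.node (.node 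
(.leaf r28_28) (.leaf r28_156)) (.node (.leaf r28_92) (.leaf r28_220))) (.node (.node 
(.leaf r28_60) (.leaf r28_188)) (.node (.leaf r28_124) (.leaf r28_252))))))) (.node (.node (.node 
(.node (.node (.node (.node (.leaf r28_2) (.leaf r28_258)) (.leaf r28_130)) (.node (.leaf r28_66) 
(.leaf r28_194))) (.node (.node (.leaf r28_34) (.leaf r28_162)) (.node (.leaf r28_98) 
(.leaf r28_226)))) (.node (.node (.node (.node (.leaf r28_18) (.leaf r28_274)) (.leaf r28_146)) 
(.node (.leaf r28_82) (.leaf r28_210))) (.node (.node (.leaf r28_50) (.leaf r28_178)) (.node 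
(.leaf r28_114) (.leaf r28_242))))) (.node (.node (.node (.node (.node (.leaf r28_10) 
(.leaf r28_266)) (.leaf r28_138)) (.node (.leaf r28_74) (.leaf r28_202))) (.node (.node 
(.leaf r28_42) (.leaf r28_170)) (.node (.leaf r28_106) (.leaf r28_234)))) (.node (.node (.node 
(.node (.leaf r28_26) (.leaf r28_282)) (.leaf r28_154)) (.node (.leaf r28_90) (.leaf r28_218))) 
(.node (.node (.leaf r28_58) (.leaf r28_186)) (.node (.leaf r28_122) (.leaf r28_250)))))) (.node 
(.node (.node (.node (.node (.node (.leaf r28_6) (.leaf r28_262)) (.leaf r28_134)) (.node 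
(.leaf r28_70) (.leaf r28_198))) (.node (.node (.leaf r28_38) (.leaf r28_166)) (.node 
(.leaf r28_102) (.leaf r28_230)))) (.node (.node (.node (.node (.leaf r28_22) (.leaf r28_278)) 
(.leaf r28_150)) (.node (.leaf r28_86) (.leaf r28_214))) (.node (.node (.leaf r28_54) 
(.leaf r28_182)) (.node (.leaf r28_118) (.leaf r28_246))))) (.node (.node (.node (.node (.node 
(.leaf r28_14) (.leaf r28_270)) (.leaf r28_142)) (.node (.leaf r28_78) (.leaf r28_206))) (.node 
(.node (.leaf r28_46) (.leaf r28_174)) (.node (.leaf r28_110) (.leaf r28_238)))) (.node (.node 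
(.node (.leaf r28_30) (.leaf r28_158)) (.node (.leaf r28_94) (.leaf r28_222))) (.node (.node 
(.leaf r28_62) (.leaf r28_190)) (.node (.leaf r28_126) (.leaf r28_254)))))))) (.node (.node (.node 
(.node (.node (.node (.node (.node (.leaf r28_1) (.leaf r28_257)) (.leaf r28_129)) (.node 
(.leaf r28_65) (.leaf r28_193))) (.node (.node (.leaf r28_33) (.leaf r28_161)) (.node 
(.leaf r28_97) (.leaf r28_225)))) (.node (.node (.node (.node (.leaf r28_17) (.leaf r28_273)) 
(.leaf r28_145)) (.node (.leaf r28_81) (.leaf r28_209))) (.node (.node (.leaf r28_49) 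
(.leaf r28_177)) (.node (.leaf r28_113) (.leaf r28_241))))) (.node (.node (.node (.node (.node 
(.leaf r28_9) (.leaf r28_265)) (.leaf r28_137)) (.node (.leaf r28_73) (.leaf r28_201))) (.node 
(.node (.leaf r28_41) (.leaf r28_169)) (.node (.leaf r28_105) (.leaf r28_233)))) (.node (.node 
(.node (.node (.leaf r28_25) (.leaf r28_281)) (.leaf r28_153)) (.node (.leaf r28_89) 
(.leaf r28_217))) (.node (.node (.leaf r28_57) (.leaf r28_185)) (.node (.leaf r28_121) 
(.leaf r28_249)))))) (.node (.node (.node (.node (.node (.node (.leaf r28_5) (.leaf r28_261)) 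
(.leaf r28_133)) (.node (.leaf r28_69) (.leaf r28_197))) (.node (.node (.leaf r28_37) 
(.leaf r28_165)) (.node (.leaf r28_101) (.leaf r28_229)))) (.node (.node (.node (.node 
(.leaf r28_21) (.leaf r28_277)) (.leaf r28_149)) (.node (.leaf r28_85) (.leaf r28_213))) (.node 
(.node (.leaf r28_53) (.leaf r28_181)) (.node (.leaf r28_117) (.leaf r28_245))))) (.node (.node 
(.node (.node (.node (.leaf r28_13) (.leaf r28_269)) (.leaf r28_141)) (.node (.leaf r28_77) 
(.leaf r28_205))) (.node (.node (.leaf r28_45) (.leaf r28_173)) (.node (.leaf r28_109) 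
(.leaf r28_237)))) (.node (.node (.node (.leaf r28_29) (.leaf r28_157)) (.node (.leaf r28_93) 
(.leaf r28_221))) (.node (.node (.leaf r28_61) (.leaf r28_189)) (.node (.leaf r28_125) 
(.leaf r28_253))))))) (.node (.node (.node (.node (.node (.node (.node (.leaf r28_3) 
(.leaf r28_259)) (.leaf r28_131)) (.node (.leaf r28_67) (.leaf r28_195))) (.node (.node 
(.leaf r28_35) (.leaf r28_163)) (.node (.leaf r28_99) (.leaf r28_227)))) (.node (.node (.node 
(.node (.leaf r28_19) (.leaf r28_275)) (.leaf r28_147)) (.node (.leaf r28_83) (.leaf r28_211))) 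
(.node (.node (.leaf r28_51) (.leaf r28_179)) (.node (.leaf r28_115) (.leaf r28_243))))) (.node 
(.node (.node (.node (.node (.leaf r28_11) (.leaf r28_267)) (.leaf r28_139)) (.node (.leaf r28_75) 
(.leaf r28_203))) (.node (.node (.leaf r28_43) (.leaf r28_171)) (.node (.leaf r28_107) 
(.leaf r28_235)))) (.node (.node (.node (.node (.leaf r28_27) (.leaf r28_283)) (.leaf r28_155)) 
(.node (.leaf r28_91) (.leaf r28_219))) (.node (.node (.leaf r28_59) (.leaf r28_187)) (.node 
(.leaf r28_123) (.leaf r28_251)))))) (.node (.node (.node (.node (.node (.node (.leaf r28_7) 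
(.leaf r28_263)) (.leaf r28_135)) (.node (.leaf r28_71) (.leaf r28_199))) (.node (.node 
(.leaf r28_39) (.leaf r28_167)) (.node (.leaf r28_103) (.leaf r28_231)))) (.node (.node (.node 
(.node (.leaf r28_23) (.leaf r28_279)) (.leaf r28_151)) (.node (.leaf r28_87) (.leaf r28_215))) 
(.node (.node (.leaf r28_55) (.leaf r28_183)) (.node (.leaf r28_119) (.leaf r28_247))))) (.node 
(.node (.node (.node (.node (.leaf r28_15) (.leaf r28_271)) (.leaf r28_143)) (.node (.leaf r28_79) 
(.leaf r28_207))) (.node (.node (.leaf r28_47) (.leaf r28_175)) (.node (.leaf r28_111) 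
(.leaf r28_239)))) (.node (.node (.node (.leaf r28_31) (.leaf r28_159)) (.node (.leaf r28_95) 
(.leaf r28_223))) (.node (.node (.leaf r28_63) (.leaf r28_191)) (.node (.leaf r28_127) 
(.leaf r28_255)))))))))
noncomputable def rt29 : Ix (Rw Blk) := (.node (.node (.node (.node (.node (.node (.leaf r29_0) 
(.leaf r29_32)) (.leaf r29_16)) (.node (.leaf r29_8) (.leaf r29_24))) (.node (.node (.leaf r29_4) 
(.leaf r29_20)) (.node (.leaf r29_12) (.leaf r29_28)))) (.node (.node (.node (.node (.leaf r29_2) 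
(.leaf r29_34)) (.leaf r29_18)) (.node (.leaf r29_10) (.leaf r29_26))) (.node (.node (.leaf r29_6) 
(.leaf r29_22)) (.node (.leaf r29_14) (.leaf r29_30))))) (.node (.node (.node (.node (.node 
(.leaf r29_1) (.leaf r29_33)) (.leaf r29_17)) (.node (.leaf r29_9) (.leaf r29_25))) (.node (.node 
(.leaf r29_5) (.leaf r29_21)) (.node (.leaf r29_13) (.leaf r29_29)))) (.node (.node (.node (.node 
(.leaf r29_3) (.leaf r29_35)) (.leaf r29_19)) (.node (.leaf r29_11) (.leaf r29_27))) (.node (.node 
(.leaf r29_7) (.leaf r29_23)) (.node (.leaf r29_15) (.leaf r29_31))))))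
noncomputable def rt30 : Ix (Rw Blk) := (.node (.node (.node (.node (.node (.leaf r30_0) 
(.leaf r30_16)) (.leaf r30_8)) (.node (.node (.leaf r30_4) (.leaf r30_20)) (.leaf r30_12))) (.node 
(.node (.node (.leaf r30_2) (.leaf r30_18)) (.leaf r30_10)) (.node (.node (.leaf r30_6) 
(.leaf r30_22)) (.leaf r30_14)))) (.node (.node (.node (.node (.leaf r30_1) (.leaf r30_17)) 
(.leaf r30_9)) (.node (.node (.leaf r30_5) (.leaf r30_21)) (.leaf r30_13))) (.node (.node (.node 
(.leaf r30_3) (.leaf r30_19)) (.leaf r30_11)) (.node (.leaf r30_7) (.leaf r30_15)))))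
noncomputable def rt31 : Ix (Rw Blk) := (.node (.node (.node (.node (.node (.leaf r31_0) 
(.leaf r31_16)) (.leaf r31_8)) (.node (.leaf r31_4) (.leaf r31_12))) (.node (.node (.node 
(.leaf r31_2) (.leaf r31_18)) (.leaf r31_10)) (.node (.leaf r31_6) (.leaf r31_14)))) (.node (.node 
(.node (.node (.leaf r31_1) (.leaf r31_17)) (.leaf r31_9)) (.node (.leaf r31_5) (.leaf r31_13))) 
(.node (.node (.leaf r31_3) (.leaf r31_11)) (.node (.leaf r31_7) (.leaf r31_15)))))
noncomputable def rt32 : Ix (Rw Blk) := (.node (.node (.node (.node (.node (.leaf r32_0) 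
(.leaf r32_16)) (.leaf r32_8)) (.node (.leaf r32_4) (.leaf r32_12))) (.node (.node (.node 
(.leaf r32_2) (.leaf r32_18)) (.leaf r32_10)) (.node (.leaf r32_6) (.leaf r32_14)))) (.node (.node 
(.node (.node (.leaf r32_1) (.leaf r32_17)) (.leaf r32_9)) (.node (.leaf r32_5) (.leaf r32_13))) 
(.node (.node (.leaf r32_3) (.leaf r32_11)) (.node (.leaf r32_7) (.leaf r32_15)))))
noncomputable def rt33 : Ix (Rw Blk) := (.node (.node (.node (.node (.node (.leaf r33_0) 
(.leaf r33_16)) (.leaf r33_8)) (.node (.leaf r33_4) (.leaf r33_12))) (.node (.node (.node 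
(.leaf r33_2) (.leaf r33_18)) (.leaf r33_10)) (.node (.leaf r33_6) (.leaf r33_14)))) (.node (.node 
(.node (.node (.leaf r33_1) (.leaf r33_17)) (.leaf r33_9)) (.node (.leaf r33_5) (.leaf r33_13))) 
(.node (.node (.node (.leaf r33_3) (.leaf r33_19)) (.leaf r33_11)) (.node (.leaf r33_7) 
(.leaf r33_15)))))
noncomputable def rt34 : Ix (Rw Blk) := (.node (.node (.node (.node (.node (.leaf r34_0) 
(.leaf r34_16)) (.leaf r34_8)) (.node (.leaf r34_4) (.leaf r34_12))) (.node (.node (.node 
(.leaf r34_2) (.leaf r34_18)) (.leaf r34_10)) (.node (.leaf r34_6) (.leaf r34_14)))) (.node (.node 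
(.node (.node (.leaf r34_1) (.leaf r34_17)) (.leaf r34_9)) (.node (.leaf r34_5) (.leaf r34_13))) 
(.node (.node (.node (.leaf r34_3) (.leaf r34_19)) (.leaf r34_11)) (.node (.leaf r34_7) 
(.leaf r34_15)))))
noncomputable def rt35 : Ix (Rw Blk) := (.node (.node (.node (.node (.node (.node (.leaf r35_0) 
(.leaf r35_32)) (.leaf r35_16)) (.node (.leaf r35_8) (.leaf r35_24))) (.node (.node (.leaf r35_4) 
(.leaf r35_20)) (.node (.leaf r35_12) (.leaf r35_28)))) (.node (.node (.node (.node (.leaf r35_2) 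
(.leaf r35_34)) (.leaf r35_18)) (.node (.leaf r35_10) (.leaf r35_26))) (.node (.node (.leaf r35_6) 
(.leaf r35_22)) (.node (.leaf r35_14) (.leaf r35_30))))) (.node (.node (.node (.node (.node 
(.leaf r35_1) (.leaf r35_33)) (.leaf r35_17)) (.node (.leaf r35_9) (.leaf r35_25))) (.node (.node 
(.leaf r35_5) (.leaf r35_21)) (.node (.leaf r35_13) (.leaf r35_29)))) (.node (.node (.node (.node 
(.leaf r35_3) (.leaf r35_35)) (.leaf r35_19)) (.node (.leaf r35_11) (.leaf r35_27))) (.node (.node 
(.leaf r35_7) (.leaf r35_23)) (.node (.leaf r35_15) (.leaf r35_31))))))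
noncomputable def rt36 : Ix (Rw Blk) := (.node (.node (.node (.node (.node (.node (.leaf r36_0) 
(.leaf r36_32)) (.leaf r36_16)) (.node (.leaf r36_8) (.leaf r36_24))) (.node (.node (.leaf r36_4) 
(.leaf r36_20)) (.node (.leaf r36_12) (.leaf r36_28)))) (.node (.node (.node (.node (.leaf r36_2) 
(.leaf r36_34)) (.leaf r36_18)) (.node (.leaf r36_10) (.leaf r36_26))) (.node (.node (.leaf r36_6) 
(.leaf r36_22)) (.node (.leaf r36_14) (.leaf r36_30))))) (.node (.node (.node (.node (.node 
(.leaf r36_1) (.leaf r36_33)) (.leaf r36_17)) (.node (.leaf r36_9) (.leaf r36_25))) (.node (.node 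
(.leaf r36_5) (.leaf r36_21)) (.node (.leaf r36_13) (.leaf r36_29)))) (.node (.node (.node (.node 
(.leaf r36_3) (.leaf r36_35)) (.leaf r36_19)) (.node (.leaf r36_11) (.leaf r36_27))) (.node (.node 
(.leaf r36_7) (.leaf r36_23)) (.node (.leaf r36_15) (.leaf r36_31))))))
noncomputable def rt37 : Ix (Rw Blk) := (.node (.node (.node (.node (.node (.node (.leaf r37_0) 
(.leaf r37_32)) (.leaf r37_16)) (.node (.leaf r37_8) (.leaf r37_24))) (.node (.node (.leaf r37_4) 
(.leaf r37_20)) (.node (.leaf r37_12) (.leaf r37_28)))) (.node (.node (.node (.node (.leaf r37_2) 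
(.leaf r37_34)) (.leaf r37_18)) (.node (.leaf r37_10) (.leaf r37_26))) (.node (.node (.leaf r37_6) 
(.leaf r37_22)) (.node (.leaf r37_14) (.leaf r37_30))))) (.node (.node (.node (.node (.node 
(.leaf r37_1) (.leaf r37_33)) (.leaf r37_17)) (.node (.leaf r37_9) (.leaf r37_25))) (.node (.node 
(.leaf r37_5) (.leaf r37_21)) (.node (.leaf r37_13) (.leaf r37_29)))) (.node (.node (.node (.node 
(.leaf r37_3) (.leaf r37_35)) (.leaf r37_19)) (.node (.leaf r37_11) (.leaf r37_27))) (.node (.node 
(.leaf r37_7) (.leaf r37_23)) (.node (.leaf r37_15) (.leaf r37_31))))))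
noncomputable def rt38 : Ix (Rw Blk) := (.node (.node (.node (.node (.node (.node (.leaf r38_0) 
(.leaf r38_32)) (.leaf r38_16)) (.node (.leaf r38_8) (.leaf r38_24))) (.node (.node (.leaf r38_4) 
(.leaf r38_20)) (.node (.leaf r38_12) (.leaf r38_28)))) (.node (.node (.node (.node (.leaf r38_2) 
(.leaf r38_34)) (.leaf r38_18)) (.node (.leaf r38_10) (.leaf r38_26))) (.node (.node (.leaf r38_6) 
(.leaf r38_22)) (.node (.leaf r38_14) (.leaf r38_30))))) (.node (.node (.node (.node (.node 
(.leaf r38_1) (.leaf r38_33)) (.leaf r38_17)) (.node (.leaf r38_9) (.leaf r38_25))) (.node (.node 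
(.leaf r38_5) (.leaf r38_21)) (.node (.leaf r38_13) (.leaf r38_29)))) (.node (.node (.node (.node 
(.leaf r38_3) (.leaf r38_35)) (.leaf r38_19)) (.node (.leaf r38_11) (.leaf r38_27))) (.node (.node 
(.leaf r38_7) (.leaf r38_23)) (.node (.leaf r38_15) (.leaf r38_31))))))
noncomputable def rt39 : Ix (Rw Blk) := (.node (.node (.node (.node (.node (.leaf r39_0) 
(.leaf r39_16)) (.leaf r39_8)) (.node (.leaf r39_4) (.leaf r39_12))) (.node (.node (.node 
(.leaf r39_2) (.leaf r39_18)) (.leaf r39_10)) (.node (.leaf r39_6) (.leaf r39_14)))) (.node (.node 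
(.node (.node (.leaf r39_1) (.leaf r39_17)) (.leaf r39_9)) (.node (.leaf r39_5) (.leaf r39_13))) 
(.node (.node (.node (.leaf r39_3) (.leaf r39_19)) (.leaf r39_11)) (.node (.leaf r39_7) 
(.leaf r39_15)))))
noncomputable def rt40 : Ix (Rw Blk) := (.node (.node (.node (.node (.node (.leaf r40_0) 
(.leaf r40_16)) (.leaf r40_8)) (.node (.leaf r40_4) (.leaf r40_12))) (.node (.node (.node 
(.leaf r40_2) (.leaf r40_18)) (.leaf r40_10)) (.node (.leaf r40_6) (.leaf r40_14)))) (.node (.node 
(.node (.node (.leaf r40_1) (.leaf r40_17)) (.leaf r40_9)) (.node (.leaf r40_5) (.leaf r40_13))) 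
(.node (.node (.node (.leaf r40_3) (.leaf r40_19)) (.leaf r40_11)) (.node (.leaf r40_7) 
(.leaf r40_15)))))
noncomputable def rt41 : Ix (Rw Blk) := (.node (.node (.node (.node (.node (.node (.leaf r41_0) 
(.leaf r41_32)) (.leaf r41_16)) (.node (.leaf r41_8) (.leaf r41_24))) (.node (.node (.leaf r41_4) 
(.leaf r41_20)) (.node (.leaf r41_12) (.leaf r41_28)))) (.node (.node (.node (.node (.leaf r41_2) 
(.leaf r41_34)) (.leaf r41_18)) (.node (.leaf r41_10) (.leaf r41_26))) (.node (.node (.leaf r41_6) 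
(.leaf r41_22)) (.node (.leaf r41_14) (.leaf r41_30))))) (.node (.node (.node (.node (.node 
(.leaf r41_1) (.leaf r41_33)) (.leaf r41_17)) (.node (.leaf r41_9) (.leaf r41_25))) (.node (.node 
(.leaf r41_5) (.leaf r41_21)) (.node (.leaf r41_13) (.leaf r41_29)))) (.node (.node (.node (.node 
(.leaf r41_3) (.leaf r41_35)) (.leaf r41_19)) (.node (.leaf r41_11) (.leaf r41_27))) (.node (.node 
(.leaf r41_7) (.leaf r41_23)) (.node (.leaf r41_15) (.leaf r41_31))))))
noncomputable def rt42 : Ix (Rw Blk) := (.node (.node (.node (.node (.node (.node (.leaf r42_0) 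
(.leaf r42_32)) (.node (.leaf r42_16) (.leaf r42_48))) (.node (.node (.leaf r42_8) (.leaf r42_40)) 
(.leaf r42_24))) (.node (.node (.node (.leaf r42_4) (.leaf r42_36)) (.leaf r42_20)) (.node (.node 
(.leaf r42_12) (.leaf r42_44)) (.leaf r42_28)))) (.node (.node (.node (.node (.leaf r42_2) 
(.leaf r42_34)) (.leaf r42_18)) (.node (.node (.leaf r42_10) (.leaf r42_42)) (.leaf r42_26))) 
(.node (.node (.node (.leaf r42_6) (.leaf r42_38)) (.leaf r42_22)) (.node (.node (.leaf r42_14) 
(.leaf r42_46)) (.leaf r42_30))))) (.node (.node (.node (.node (.node (.leaf r42_1) (.leaf r42_33)) 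
(.node (.leaf r42_17) (.leaf r42_49))) (.node (.node (.leaf r42_9) (.leaf r42_41)) (.leaf r42_25))) 
(.node (.node (.node (.leaf r42_5) (.leaf r42_37)) (.leaf r42_21)) (.node (.node (.leaf r42_13) 
(.leaf r42_45)) (.leaf r42_29)))) (.node (.node (.node (.node (.leaf r42_3) (.leaf r42_35)) 
(.leaf r42_19)) (.node (.node (.leaf r42_11) (.leaf r42_43)) (.leaf r42_27))) (.node (.node (.node 
(.leaf r42_7) (.leaf r42_39)) (.leaf r42_23)) (.node (.node (.leaf r42_15) (.leaf r42_47)) 
(.leaf r42_31))))))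
noncomputable def rt43 : Ix (Rw Blk) := (.node (.node (.node (.node (.node (.leaf r43_0) 
(.leaf r43_16)) (.node (.leaf r43_8) (.leaf r43_24))) (.node (.node (.leaf r43_4) (.leaf r43_20)) 
(.leaf r43_12))) (.node (.node (.node (.leaf r43_2) (.leaf r43_18)) (.node (.leaf r43_10) 
(.leaf r43_26))) (.node (.node (.leaf r43_6) (.leaf r43_22)) (.leaf r43_14)))) (.node (.node (.node 
(.node (.leaf r43_1) (.leaf r43_17)) (.node (.leaf r43_9) (.leaf r43_25))) (.node (.node 
(.leaf r43_5) (.leaf r43_21)) (.leaf r43_13))) (.node (.node (.node (.leaf r43_3) (.leaf r43_19)) 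
(.leaf r43_11)) (.node (.node (.leaf r43_7) (.leaf r43_23)) (.leaf r43_15)))))
noncomputable def rt44 : Ix (Rw Blk) := (.node (.node (.node (.node (.node (.leaf r44_0) 
(.leaf r44_16)) (.node (.leaf r44_8) (.leaf r44_24))) (.node (.node (.leaf r44_4) (.leaf r44_20)) 
(.leaf r44_12))) (.node (.node (.node (.leaf r44_2) (.leaf r44_18)) (.node (.leaf r44_10) 
(.leaf r44_26))) (.node (.node (.leaf r44_6) (.leaf r44_22)) (.leaf r44_14)))) (.node (.node (.node 
(.node (.leaf r44_1) (.leaf r44_17)) (.node (.leaf r44_9) (.leaf r44_25))) (.node (.node 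
(.leaf r44_5) (.leaf r44_21)) (.leaf r44_13))) (.node (.node (.node (.leaf r44_3) (.leaf r44_19)) 
(.node (.leaf r44_11) (.leaf r44_27))) (.node (.node (.leaf r44_7) (.leaf r44_23)) 
(.leaf r44_15)))))
noncomputable def rt45 : Ix (Rw Blk) := (.node (.node (.node (.node (.node (.node (.leaf r45_0) 
(.leaf r45_32)) (.node (.leaf r45_16) (.leaf r45_48))) (.node (.node (.leaf r45_8) (.leaf r45_40)) 
(.leaf r45_24))) (.node (.node (.node (.leaf r45_4) (.leaf r45_36)) (.leaf r45_20)) (.node (.node 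
(.leaf r45_12) (.leaf r45_44)) (.leaf r45_28)))) (.node (.node (.node (.node (.leaf r45_2) 
(.leaf r45_34)) (.leaf r45_18)) (.node (.node (.leaf r45_10) (.leaf r45_42)) (.leaf r45_26))) 
(.node (.node (.node (.leaf r45_6) (.leaf r45_38)) (.leaf r45_22)) (.node (.node (.leaf r45_14) 
(.leaf r45_46)) (.leaf r45_30))))) (.node (.node (.node (.node (.node (.leaf r45_1) (.leaf r45_33)) 
(.node (.leaf r45_17) (.leaf r45_49))) (.node (.node (.leaf r45_9) (.leaf r45_41)) (.leaf r45_25))) 
(.node (.node (.node (.leaf r45_5) (.leaf r45_37)) (.leaf r45_21)) (.node (.node (.leaf r45_13) 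
(.leaf r45_45)) (.leaf r45_29)))) (.node (.node (.node (.node (.leaf r45_3) (.leaf r45_35)) 
(.leaf r45_19)) (.node (.node (.leaf r45_11) (.leaf r45_43)) (.leaf r45_27))) (.node (.node (.node 
(.leaf r45_7) (.leaf r45_39)) (.leaf r45_23)) (.node (.node (.leaf r45_15) (.leaf r45_47)) 
(.leaf r45_31))))))
noncomputable def rt46 : Ix (Rw Blk) := (.node (.node (.node (.node (.node (.leaf r46_0) 
(.leaf r46_16)) (.node (.leaf r46_8) (.leaf r46_24))) (.node (.node (.leaf r46_4) (.leaf r46_20)) 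
(.leaf r46_12))) (.node (.node (.node (.leaf r46_2) (.leaf r46_18)) (.node (.leaf r46_10) 
(.leaf r46_26))) (.node (.node (.leaf r46_6) (.leaf r46_22)) (.leaf r46_14)))) (.node (.node (.node 
(.node (.leaf r46_1) (.leaf r46_17)) (.node (.leaf r46_9) (.leaf r46_25))) (.node (.node 
(.leaf r46_5) (.leaf r46_21)) (.leaf r46_13))) (.node (.node (.node (.leaf r46_3) (.leaf r46_19)) 
(.leaf r46_11)) (.node (.node (.leaf r46_7) (.leaf r46_23)) (.leaf r46_15)))))
noncomputable def rt47 : Ix (Rw Blk) := (.node (.node (.node (.node (.node (.node (.leaf r47_0) 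
(.leaf r47_32)) (.node (.leaf r47_16) (.leaf r47_48))) (.node (.node (.leaf r47_8) (.leaf r47_40)) 
(.leaf r47_24))) (.node (.node (.node (.leaf r47_4) (.leaf r47_36)) (.node (.leaf r47_20) 
(.leaf r47_52))) (.node (.node (.leaf r47_12) (.leaf r47_44)) (.leaf r47_28)))) (.node (.node 
(.node (.node (.leaf r47_2) (.leaf r47_34)) (.node (.leaf r47_18) (.leaf r47_50))) (.node (.node 
(.leaf r47_10) (.leaf r47_42)) (.leaf r47_26))) (.node (.node (.node (.leaf r47_6) (.leaf r47_38)) 
(.node (.leaf r47_22) (.leaf r47_54))) (.node (.node (.leaf r47_14) (.leaf r47_46)) 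
(.leaf r47_30))))) (.node (.node (.node (.node (.node (.leaf r47_1) (.leaf r47_33)) (.node 
(.leaf r47_17) (.leaf r47_49))) (.node (.node (.leaf r47_9) (.leaf r47_41)) (.leaf r47_25))) (.node 
(.node (.node (.leaf r47_5) (.leaf r47_37)) (.node (.leaf r47_21) (.leaf r47_53))) (.node (.node 
(.leaf r47_13) (.leaf r47_45)) (.leaf r47_29)))) (.node (.node (.node (.node (.leaf r47_3) 
(.leaf r47_35)) (.node (.leaf r47_19) (.leaf r47_51))) (.node (.node (.leaf r47_11) (.leaf r47_43)) 
(.leaf r47_27))) (.node (.node (.node (.leaf r47_7) (.leaf r47_39)) (.leaf r47_23)) (.node (.node 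
(.leaf r47_15) (.leaf r47_47)) (.leaf r47_31))))))
noncomputable def rt48 : Ix (Rw Blk) := (.node (.node (.node (.node (.node (.leaf r48_0) 
(.leaf r48_16)) (.node (.leaf r48_8) (.leaf r48_24))) (.node (.node (.leaf r48_4) (.leaf r48_20)) 
(.leaf r48_12))) (.node (.node (.node (.leaf r48_2) (.leaf r48_18)) (.node (.leaf r48_10) 
(.leaf r48_26))) (.node (.node (.leaf r48_6) (.leaf r48_22)) (.leaf r48_14)))) (.node (.node (.node 
(.node (.leaf r48_1) (.leaf r48_17)) (.node (.leaf r48_9) (.leaf r48_25))) (.node (.node 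
(.leaf r48_5) (.leaf r48_21)) (.leaf r48_13))) (.node (.node (.node (.leaf r48_3) (.leaf r48_19)) 
(.node (.leaf r48_11) (.leaf r48_27))) (.node (.node (.leaf r48_7) (.leaf r48_23)) 
(.leaf r48_15)))))
noncomputable def rt49 : Ix (Rw Blk) := (.node (.node (.node (.node (.node (.node (.leaf r49_0) 
(.leaf r49_32)) (.leaf r49_16)) (.node (.leaf r49_8) (.leaf r49_24))) (.node (.node (.leaf r49_4) 
(.leaf r49_20)) (.node (.leaf r49_12) (.leaf r49_28)))) (.node (.node (.node (.node (.leaf r49_2) 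
(.leaf r49_34)) (.leaf r49_18)) (.node (.leaf r49_10) (.leaf r49_26))) (.node (.node (.leaf r49_6) 
(.leaf r49_22)) (.node (.leaf r49_14) (.leaf r49_30))))) (.node (.node (.node (.node (.node 
(.leaf r49_1) (.leaf r49_33)) (.leaf r49_17)) (.node (.leaf r49_9) (.leaf r49_25))) (.node (.node 
(.leaf r49_5) (.leaf r49_21)) (.node (.leaf r49_13) (.leaf r49_29)))) (.node (.node (.node (.node 
(.leaf r49_3) (.leaf r49_35)) (.leaf r49_19)) (.node (.leaf r49_11) (.leaf r49_27))) (.node (.node 
(.leaf r49_7) (.leaf r49_23)) (.node (.leaf r49_15) (.leaf r49_31))))))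
noncomputable def rt50 : Ix (Rw Blk) := (.node (.node (.node (.node (.node (.leaf r50_0) 
(.leaf r50_16)) (.leaf r50_8)) (.node (.leaf r50_4) (.leaf r50_12))) (.node (.node (.node 
(.leaf r50_2) (.leaf r50_18)) (.leaf r50_10)) (.node (.leaf r50_6) (.leaf r50_14)))) (.node (.node 
(.node (.node (.leaf r50_1) (.leaf r50_17)) (.leaf r50_9)) (.node (.leaf r50_5) (.leaf r50_13))) 
(.node (.node (.node (.leaf r50_3) (.leaf r50_19)) (.leaf r50_11)) (.node (.leaf r50_7) 
(.leaf r50_15)))))
noncomputable def rt51 : Ix (Rw Blk) := (.node (.node (.node (.node (.node (.leaf r51_0) 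
(.leaf r51_16)) (.leaf r51_8)) (.node (.leaf r51_4) (.leaf r51_12))) (.node (.node (.node 
(.leaf r51_2) (.leaf r51_18)) (.leaf r51_10)) (.node (.leaf r51_6) (.leaf r51_14)))) (.node (.node 
(.node (.node (.leaf r51_1) (.leaf r51_17)) (.leaf r51_9)) (.node (.leaf r51_5) (.leaf r51_13))) 
(.node (.node (.node (.leaf r51_3) (.leaf r51_19)) (.leaf r51_11)) (.node (.leaf r51_7) 
(.leaf r51_15)))))
noncomputable def rt52 : Ix (Rw Blk) := (.node (.node (.node (.node (.node (.node (.leaf r52_0) 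
(.leaf r52_32)) (.leaf r52_16)) (.node (.leaf r52_8) (.leaf r52_24))) (.node (.node (.leaf r52_4) 
(.leaf r52_20)) (.node (.leaf r52_12) (.leaf r52_28)))) (.node (.node (.node (.node (.leaf r52_2) 
(.leaf r52_34)) (.leaf r52_18)) (.node (.leaf r52_10) (.leaf r52_26))) (.node (.node (.leaf r52_6) 
(.leaf r52_22)) (.node (.leaf r52_14) (.leaf r52_30))))) (.node (.node (.node (.node (.node 
(.leaf r52_1) (.leaf r52_33)) (.leaf r52_17)) (.node (.leaf r52_9) (.leaf r52_25))) (.node (.node 
(.leaf r52_5) (.leaf r52_21)) (.node (.leaf r52_13) (.leaf r52_29)))) (.node (.node (.node (.node 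
(.leaf r52_3) (.leaf r52_35)) (.leaf r52_19)) (.node (.leaf r52_11) (.leaf r52_27))) (.node (.node 
(.leaf r52_7) (.leaf r52_23)) (.node (.leaf r52_15) (.leaf r52_31))))))
noncomputable def rt53 : Ix (Rw Blk) := (.node (.node (.node (.node (.node (.node (.leaf r53_0) 
(.leaf r53_32)) (.node (.leaf r53_16) (.leaf r53_48))) (.node (.node (.leaf r53_8) (.leaf r53_40)) 
(.leaf r53_24))) (.node (.node (.node (.leaf r53_4) (.leaf r53_36)) (.leaf r53_20)) (.node (.node 
(.leaf r53_12) (.leaf r53_44)) (.leaf r53_28)))) (.node (.node (.node (.node (.leaf r53_2) 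
(.leaf r53_34)) (.leaf r53_18)) (.node (.node (.leaf r53_10) (.leaf r53_42)) (.leaf r53_26))) 
(.node (.node (.node (.leaf r53_6) (.leaf r53_38)) (.leaf r53_22)) (.node (.node (.leaf r53_14) 
(.leaf r53_46)) (.leaf r53_30))))) (.node (.node (.node (.node (.node (.leaf r53_1) (.leaf r53_33)) 
(.node (.leaf r53_17) (.leaf r53_49))) (.node (.node (.leaf r53_9) (.leaf r53_41)) (.leaf r53_25))) 
(.node (.node (.node (.leaf r53_5) (.leaf r53_37)) (.leaf r53_21)) (.node (.node (.leaf r53_13) 
(.leaf r53_45)) (.leaf r53_29)))) (.node (.node (.node (.node (.leaf r53_3) (.leaf r53_35)) 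
(.leaf r53_19)) (.node (.node (.leaf r53_11) (.leaf r53_43)) (.leaf r53_27))) (.node (.node (.node 
(.leaf r53_7) (.leaf r53_39)) (.leaf r53_23)) (.node (.node (.leaf r53_15) (.leaf r53_47)) 
(.leaf r53_31))))))
noncomputable def rt54 : Ix (Rw Blk) := (.node (.node (.node (.node (.node (.leaf r54_0) 
(.leaf r54_16)) (.node (.leaf r54_8) (.leaf r54_24))) (.node (.node (.leaf r54_4) (.leaf r54_20)) 
(.leaf r54_12))) (.node (.node (.node (.leaf r54_2) (.leaf r54_18)) (.node (.leaf r54_10) 
(.leaf r54_26))) (.node (.node (.leaf r54_6) (.leaf r54_22)) (.leaf r54_14)))) (.node (.node (.node 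
(.node (.leaf r54_1) (.leaf r54_17)) (.node (.leaf r54_9) (.leaf r54_25))) (.node (.node 
(.leaf r54_5) (.leaf r54_21)) (.leaf r54_13))) (.node (.node (.node (.leaf r54_3) (.leaf r54_19)) 
(.leaf r54_11)) (.node (.node (.leaf r54_7) (.leaf r54_23)) (.leaf r54_15)))))
noncomputable def rt55 : Ix (Rw Blk) := (.node (.node (.node (.node (.node (.leaf r55_0) 
(.leaf r55_16)) (.node (.leaf r55_8) (.leaf r55_24))) (.node (.node (.leaf r55_4) (.leaf r55_20)) 
(.leaf r55_12))) (.node (.node (.node (.leaf r55_2) (.leaf r55_18)) (.node (.leaf r55_10) 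
(.leaf r55_26))) (.node (.node (.leaf r55_6) (.leaf r55_22)) (.leaf r55_14)))) (.node (.node (.node 
(.node (.leaf r55_1) (.leaf r55_17)) (.node (.leaf r55_9) (.leaf r55_25))) (.node (.node 
(.leaf r55_5) (.leaf r55_21)) (.leaf r55_13))) (.node (.node (.node (.leaf r55_3) (.leaf r55_19)) 
(.node (.leaf r55_11) (.leaf r55_27))) (.node (.node (.leaf r55_7) (.leaf r55_23)) 
(.leaf r55_15)))))
noncomputable def rt56 : Ix (Rw Blk) := (.node (.node (.node (.node (.node (.node (.leaf r56_0) 
(.leaf r56_32)) (.node (.leaf r56_16) (.leaf r56_48))) (.node (.node (.leaf r56_8) (.leaf r56_40)) 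
(.leaf r56_24))) (.node (.node (.node (.leaf r56_4) (.leaf r56_36)) (.leaf r56_20)) (.node (.node 
(.leaf r56_12) (.leaf r56_44)) (.leaf r56_28)))) (.node (.node (.node (.node (.leaf r56_2) 
(.leaf r56_34)) (.leaf r56_18)) (.node (.node (.leaf r56_10) (.leaf r56_42)) (.leaf r56_26))) 
(.node (.node (.node (.leaf r56_6) (.leaf r56_38)) (.leaf r56_22)) (.node (.node (.leaf r56_14) 
(.leaf r56_46)) (.leaf r56_30))))) (.node (.node (.node (.node (.node (.leaf r56_1) (.leaf r56_33)) 
(.node (.leaf r56_17) (.leaf r56_49))) (.node (.node (.leaf r56_9) (.leaf r56_41)) (.leaf r56_25))) 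
(.node (.node (.node (.leaf r56_5) (.leaf r56_37)) (.leaf r56_21)) (.node (.node (.leaf r56_13) 
(.leaf r56_45)) (.leaf r56_29)))) (.node (.node (.node (.node (.leaf r56_3) (.leaf r56_35)) 
(.leaf r56_19)) (.node (.node (.leaf r56_11) (.leaf r56_43)) (.leaf r56_27))) (.node (.node (.node 
(.leaf r56_7) (.leaf r56_39)) (.leaf r56_23)) (.node (.node (.leaf r56_15) (.leaf r56_47)) 
(.leaf r56_31))))))
noncomputable def rt57 : Ix (Rw Blk) := (.node (.node (.node (.node (.node (.leaf r57_0) 
(.leaf r57_16)) (.node (.leaf r57_8) (.leaf r57_24))) (.node (.node (.leaf r57_4) (.leaf r57_20)) 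
(.leaf r57_12))) (.node (.node (.node (.leaf r57_2) (.leaf r57_18)) (.node (.leaf r57_10) 
(.leaf r57_26))) (.node (.node (.leaf r57_6) (.leaf r57_22)) (.leaf r57_14)))) (.node (.node (.node 
(.node (.leaf r57_1) (.leaf r57_17)) (.node (.leaf r57_9) (.leaf r57_25))) (.node (.node 
(.leaf r57_5) (.leaf r57_21)) (.leaf r57_13))) (.node (.node (.node (.leaf r57_3) (.leaf r57_19)) 
(.leaf r57_11)) (.node (.node (.leaf r57_7) (.leaf r57_23)) (.leaf r57_15)))))
noncomputable def rt58 : Ix (Rw Blk) := (.node (.node (.node (.node (.node (.node (.leaf r58_0) 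
(.leaf r58_32)) (.node (.leaf r58_16) (.leaf r58_48))) (.node (.node (.leaf r58_8) (.leaf r58_40)) 
(.leaf r58_24))) (.node (.node (.node (.leaf r58_4) (.leaf r58_36)) (.node (.leaf r58_20) 
(.leaf r58_52))) (.node (.node (.leaf r58_12) (.leaf r58_44)) (.leaf r58_28)))) (.node (.node 
(.node (.node (.leaf r58_2) (.leaf r58_34)) (.node (.leaf r58_18) (.leaf r58_50))) (.node (.node 
(.leaf r58_10) (.leaf r58_42)) (.leaf r58_26))) (.node (.node (.node (.leaf r58_6) (.leaf r58_38)) 
(.node (.leaf r58_22) (.leaf r58_54))) (.node (.node (.leaf r58_14) (.leaf r58_46)) 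
(.leaf r58_30))))) (.node (.node (.node (.node (.node (.leaf r58_1) (.leaf r58_33)) (.node 
(.leaf r58_17) (.leaf r58_49))) (.node (.node (.leaf r58_9) (.leaf r58_41)) (.leaf r58_25))) (.node 
(.node (.node (.leaf r58_5) (.leaf r58_37)) (.node (.leaf r58_21) (.leaf r58_53))) (.node (.node 
(.leaf r58_13) (.leaf r58_45)) (.leaf r58_29)))) (.node (.node (.node (.node (.leaf r58_3) 
(.leaf r58_35)) (.node (.leaf r58_19) (.leaf r58_51))) (.node (.node (.leaf r58_11) (.leaf r58_43)) 
(.leaf r58_27))) (.node (.node (.node (.leaf r58_7) (.leaf r58_39)) (.leaf r58_23)) (.node (.node 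
(.leaf r58_15) (.leaf r58_47)) (.leaf r58_31))))))
noncomputable def rt59 : Ix (Rw Blk) := (.node (.node (.node (.node (.node (.leaf r59_0) 
(.leaf r59_16)) (.node (.leaf r59_8) (.leaf r59_24))) (.node (.node (.leaf r59_4) (.leaf r59_20)) 
(.leaf r59_12))) (.node (.node (.node (.leaf r59_2) (.leaf r59_18)) (.node (.leaf r59_10) 
(.leaf r59_26))) (.node (.node (.leaf r59_6) (.leaf r59_22)) (.leaf r59_14)))) (.node (.node (.node 
(.node (.leaf r59_1) (.leaf r59_17)) (.node (.leaf r59_9) (.leaf r59_25))) (.node (.node 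
(.leaf r59_5) (.leaf r59_21)) (.leaf r59_13))) (.node (.node (.node (.leaf r59_3) (.leaf r59_19)) 
(.node (.leaf r59_11) (.leaf r59_27))) (.node (.node (.leaf r59_7) (.leaf r59_23)) 
(.leaf r59_15)))))
noncomputable def rt60 : Ix (Rw Blk) := (.node (.node (.node (.node (.node (.node (.leaf r60_0) 
(.leaf r60_32)) (.leaf r60_16)) (.node (.leaf r60_8) (.leaf r60_24))) (.node (.node (.leaf r60_4) 
(.leaf r60_20)) (.node (.leaf r60_12) (.leaf r60_28)))) (.node (.node (.node (.node (.leaf r60_2) 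
(.leaf r60_34)) (.leaf r60_18)) (.node (.leaf r60_10) (.leaf r60_26))) (.node (.node (.leaf r60_6) 
(.leaf r60_22)) (.node (.leaf r60_14) (.leaf r60_30))))) (.node (.node (.node (.node (.node 
(.leaf r60_1) (.leaf r60_33)) (.leaf r60_17)) (.node (.leaf r60_9) (.leaf r60_25))) (.node (.node 
(.leaf r60_5) (.leaf r60_21)) (.node (.leaf r60_13) (.leaf r60_29)))) (.node (.node (.node (.node 
(.leaf r60_3) (.leaf r60_35)) (.leaf r60_19)) (.node (.leaf r60_11) (.leaf r60_27))) (.node (.node 
(.leaf r60_7) (.leaf r60_23)) (.node (.leaf r60_15) (.leaf r60_31))))))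
noncomputable def rt61 : Ix (Rw Blk) := (.node (.node (.node (.node (.node (.leaf r61_0) 
(.leaf r61_16)) (.leaf r61_8)) (.node (.node (.leaf r61_4) (.leaf r61_20)) (.leaf r61_12))) (.node 
(.node (.node (.leaf r61_2) (.leaf r61_18)) (.leaf r61_10)) (.node (.node (.leaf r61_6) 
(.leaf r61_22)) (.leaf r61_14)))) (.node (.node (.node (.node (.leaf r61_1) (.leaf r61_17)) 
(.leaf r61_9)) (.node (.node (.leaf r61_5) (.leaf r61_21)) (.leaf r61_13))) (.node (.node (.node 
(.leaf r61_3) (.leaf r61_19)) (.leaf r61_11)) (.node (.leaf r61_7) (.leaf r61_15)))))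
noncomputable def rt62 : Ix (Rw Blk) := (.node (.node (.node (.node (.node (.leaf r62_0) 
(.leaf r62_16)) (.leaf r62_8)) (.node (.leaf r62_4) (.leaf r62_12))) (.node (.node (.node 
(.leaf r62_2) (.leaf r62_18)) (.leaf r62_10)) (.node (.leaf r62_6) (.leaf r62_14)))) (.node (.node 
(.node (.node (.leaf r62_1) (.leaf r62_17)) (.leaf r62_9)) (.node (.leaf r62_5) (.leaf r62_13))) 
(.node (.node (.node (.leaf r62_3) (.leaf r62_19)) (.leaf r62_11)) (.node (.leaf r62_7) 
(.leaf r62_15)))))
noncomputable def rt63 : Ix (Rw Blk) := (.node (.node (.node (.node (.node (.node (.leaf r63_0) 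
(.leaf r63_32)) (.leaf r63_16)) (.node (.leaf r63_8) (.leaf r63_24))) (.node (.node (.leaf r63_4) 
(.leaf r63_20)) (.node (.leaf r63_12) (.leaf r63_28)))) (.node (.node (.node (.leaf r63_2) 
(.leaf r63_18)) (.node (.leaf r63_10) (.leaf r63_26))) (.node (.node (.leaf r63_6) (.leaf r63_22)) 
(.node (.leaf r63_14) (.leaf r63_30))))) (.node (.node (.node (.node (.node (.leaf r63_1) 
(.leaf r63_33)) (.leaf r63_17)) (.node (.leaf r63_9) (.leaf r63_25))) (.node (.node (.leaf r63_5) 
(.leaf r63_21)) (.node (.leaf r63_13) (.leaf r63_29)))) (.node (.node (.node (.leaf r63_3) 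
(.leaf r63_19)) (.node (.leaf r63_11) (.leaf r63_27))) (.node (.node (.leaf r63_7) (.leaf r63_23)) 
(.node (.leaf r63_15) (.leaf r63_31))))))
noncomputable def rt64 : Ix (Rw Blk) := (.node (.node (.node (.node (.node (.node (.leaf r64_0) 
(.leaf r64_32)) (.leaf r64_16)) (.node (.leaf r64_8) (.leaf r64_24))) (.node (.node (.leaf r64_4) 
(.leaf r64_20)) (.node (.leaf r64_12) (.leaf r64_28)))) (.node (.node (.node (.leaf r64_2) 
(.leaf r64_18)) (.node (.leaf r64_10) (.leaf r64_26))) (.node (.node (.leaf r64_6) (.leaf r64_22)) 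
(.node (.leaf r64_14) (.leaf r64_30))))) (.node (.node (.node (.node (.node (.leaf r64_1) 
(.leaf r64_33)) (.leaf r64_17)) (.node (.leaf r64_9) (.leaf r64_25))) (.node (.node (.leaf r64_5) 
(.leaf r64_21)) (.node (.leaf r64_13) (.leaf r64_29)))) (.node (.node (.node (.leaf r64_3) 
(.leaf r64_19)) (.node (.leaf r64_11) (.leaf r64_27))) (.node (.node (.leaf r64_7) (.leaf r64_23)) 
(.node (.leaf r64_15) (.leaf r64_31))))))
noncomputable def rt65 : Ix (Rw Blk) := (.node (.node (.node (.node (.node (.node (.leaf r65_0) 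
(.leaf r65_32)) (.leaf r65_16)) (.node (.leaf r65_8) (.leaf r65_24))) (.node (.node (.leaf r65_4) 
(.leaf r65_20)) (.node (.leaf r65_12) (.leaf r65_28)))) (.node (.node (.node (.leaf r65_2) 
(.leaf r65_18)) (.node (.leaf r65_10) (.leaf r65_26))) (.node (.node (.leaf r65_6) (.leaf r65_22)) 
(.node (.leaf r65_14) (.leaf r65_30))))) (.node (.node (.node (.node (.node (.leaf r65_1) 
(.leaf r65_33)) (.leaf r65_17)) (.node (.leaf r65_9) (.leaf r65_25))) (.node (.node (.leaf r65_5) 
(.leaf r65_21)) (.node (.leaf r65_13) (.leaf r65_29)))) (.node (.node (.node (.leaf r65_3) 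
(.leaf r65_19)) (.node (.leaf r65_11) (.leaf r65_27))) (.node (.node (.leaf r65_7) (.leaf r65_23)) 
(.node (.leaf r65_15) (.leaf r65_31))))))
noncomputable def rt66 : Ix (Rw Blk) := (.node (.node (.node (.node (.node (.node (.leaf r66_0) 
(.leaf r66_32)) (.leaf r66_16)) (.node (.leaf r66_8) (.leaf r66_24))) (.node (.node (.leaf r66_4) 
(.leaf r66_20)) (.node (.leaf r66_12) (.leaf r66_28)))) (.node (.node (.node (.leaf r66_2) 
(.leaf r66_18)) (.node (.leaf r66_10) (.leaf r66_26))) (.node (.node (.leaf r66_6) (.leaf r66_22)) 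
(.node (.leaf r66_14) (.leaf r66_30))))) (.node (.node (.node (.node (.node (.leaf r66_1) 
(.leaf r66_33)) (.leaf r66_17)) (.node (.leaf r66_9) (.leaf r66_25))) (.node (.node (.leaf r66_5) 
(.leaf r66_21)) (.node (.leaf r66_13) (.leaf r66_29)))) (.node (.node (.node (.leaf r66_3) 
(.leaf r66_19)) (.node (.leaf r66_11) (.leaf r66_27))) (.node (.node (.leaf r66_7) (.leaf r66_23)) 
(.node (.leaf r66_15) (.leaf r66_31))))))
noncomputable def rt67 : Ix (Rw Blk) := (.node (.node (.node (.node (.node (.leaf r67_0) 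
(.leaf r67_16)) (.leaf r67_8)) (.node (.node (.leaf r67_4) (.leaf r67_20)) (.leaf r67_12))) (.node 
(.node (.node (.leaf r67_2) (.leaf r67_18)) (.leaf r67_10)) (.node (.node (.leaf r67_6) 
(.leaf r67_22)) (.leaf r67_14)))) (.node (.node (.node (.node (.leaf r67_1) (.leaf r67_17)) 
(.leaf r67_9)) (.node (.node (.leaf r67_5) (.leaf r67_21)) (.leaf r67_13))) (.node (.node (.node 
(.leaf r67_3) (.leaf r67_19)) (.leaf r67_11)) (.node (.leaf r67_7) (.leaf r67_15)))))
noncomputable def rt68 : Ix (Rw Blk) := (.node (.node (.node (.node (.node (.leaf r68_0) 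
(.leaf r68_16)) (.leaf r68_8)) (.node (.node (.leaf r68_4) (.leaf r68_20)) (.leaf r68_12))) (.node 
(.node (.node (.leaf r68_2) (.leaf r68_18)) (.leaf r68_10)) (.node (.node (.leaf r68_6) 
(.leaf r68_22)) (.leaf r68_14)))) (.node (.node (.node (.node (.leaf r68_1) (.leaf r68_17)) 
(.leaf r68_9)) (.node (.node (.leaf r68_5) (.leaf r68_21)) (.leaf r68_13))) (.node (.node (.node 
(.leaf r68_3) (.leaf r68_19)) (.leaf r68_11)) (.node (.leaf r68_7) (.leaf r68_15)))))
noncomputable def rt69 : Ix (Rw Blk) := (.node (.node (.node (.node (.node (.leaf r69_0) 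
(.leaf r69_16)) (.leaf r69_8)) (.node (.node (.leaf r69_4) (.leaf r69_20)) (.leaf r69_12))) (.node 
(.node (.node (.leaf r69_2) (.leaf r69_18)) (.leaf r69_10)) (.node (.node (.leaf r69_6) 
(.leaf r69_22)) (.leaf r69_14)))) (.node (.node (.node (.node (.leaf r69_1) (.leaf r69_17)) 
(.leaf r69_9)) (.node (.node (.leaf r69_5) (.leaf r69_21)) (.leaf r69_13))) (.node (.node (.node 
(.leaf r69_3) (.leaf r69_19)) (.leaf r69_11)) (.node (.leaf r69_7) (.leaf r69_15)))))
noncomputable def rt70 : Ix (Rw Blk) := (.node (.node (.node (.node (.node (.leaf r70_0) 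
(.leaf r70_16)) (.leaf r70_8)) (.node (.node (.leaf r70_4) (.leaf r70_20)) (.leaf r70_12))) (.node 
(.node (.node (.leaf r70_2) (.leaf r70_18)) (.leaf r70_10)) (.node (.node (.leaf r70_6) 
(.leaf r70_22)) (.leaf r70_14)))) (.node (.node (.node (.node (.leaf r70_1) (.leaf r70_17)) 
(.leaf r70_9)) (.node (.node (.leaf r70_5) (.leaf r70_21)) (.leaf r70_13))) (.node (.node (.node 
(.leaf r70_3) (.leaf r70_19)) (.leaf r70_11)) (.node (.leaf r70_7) (.leaf r70_15)))))
noncomputable def rt71 : Ix (Rw Blk) := (.node (.node (.node (.node (.node (.leaf r71_0) 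
(.leaf r71_16)) (.leaf r71_8)) (.node (.node (.leaf r71_4) (.leaf r71_20)) (.leaf r71_12))) (.node 
(.node (.node (.leaf r71_2) (.leaf r71_18)) (.leaf r71_10)) (.node (.node (.leaf r71_6) 
(.leaf r71_22)) (.leaf r71_14)))) (.node (.node (.node (.node (.leaf r71_1) (.leaf r71_17)) 
(.leaf r71_9)) (.node (.node (.leaf r71_5) (.leaf r71_21)) (.leaf r71_13))) (.node (.node (.node 
(.leaf r71_3) (.leaf r71_19)) (.leaf r71_11)) (.node (.leaf r71_7) (.leaf r71_15)))))
noncomputable def rt72 : Ix (Rw Blk) := (.node (.node (.node (.node (.node (.leaf r72_0) 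
(.leaf r72_16)) (.leaf r72_8)) (.node (.node (.leaf r72_4) (.leaf r72_20)) (.leaf r72_12))) (.node 
(.node (.node (.leaf r72_2) (.leaf r72_18)) (.leaf r72_10)) (.node (.leaf r72_6) (.leaf r72_14)))) 
(.node (.node (.node (.node (.leaf r72_1) (.leaf r72_17)) (.leaf r72_9)) (.node (.leaf r72_5) 
(.leaf r72_13))) (.node (.node (.node (.leaf r72_3) (.leaf r72_19)) (.leaf r72_11)) (.node 
(.leaf r72_7) (.leaf r72_15)))))
noncomputable def rt73 : Ix (Rw Blk) := (.node (.node (.node (.node (.node (.leaf r73_0) 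
(.leaf r73_16)) (.leaf r73_8)) (.node (.node (.leaf r73_4) (.leaf r73_20)) (.leaf r73_12))) (.node 
(.node (.node (.leaf r73_2) (.leaf r73_18)) (.leaf r73_10)) (.node (.leaf r73_6) (.leaf r73_14)))) 
(.node (.node (.node (.node (.leaf r73_1) (.leaf r73_17)) (.leaf r73_9)) (.node (.leaf r73_5) 
(.leaf r73_13))) (.node (.node (.node (.leaf r73_3) (.leaf r73_19)) (.leaf r73_11)) (.node 
(.leaf r73_7) (.leaf r73_15)))))
noncomputable def rt74 : Ix (Rw Blk) := (.node (.node (.node (.node (.node (.leaf r74_0) 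
(.leaf r74_16)) (.leaf r74_8)) (.node (.leaf r74_4) (.leaf r74_12))) (.node (.node (.node 
(.leaf r74_2) (.leaf r74_18)) (.leaf r74_10)) (.node (.leaf r74_6) (.leaf r74_14)))) (.node (.node 
(.node (.node (.leaf r74_1) (.leaf r74_17)) (.leaf r74_9)) (.node (.leaf r74_5) (.leaf r74_13))) 
(.node (.node (.leaf r74_3) (.leaf r74_11)) (.node (.leaf r74_7) (.leaf r74_15)))))
noncomputable def rt75 : Ix (Rw Blk) := (.node (.node (.node (.node (.node (.leaf r75_0) 
(.leaf r75_16)) (.leaf r75_8)) (.node (.leaf r75_4) (.leaf r75_12))) (.node (.node (.node 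
(.leaf r75_2) (.leaf r75_18)) (.leaf r75_10)) (.node (.leaf r75_6) (.leaf r75_14)))) (.node (.node 
(.node (.node (.leaf r75_1) (.leaf r75_17)) (.leaf r75_9)) (.node (.leaf r75_5) (.leaf r75_13))) 
(.node (.node (.leaf r75_3) (.leaf r75_11)) (.node (.leaf r75_7) (.leaf r75_15)))))
noncomputable def rt76 : Ix (Rw Blk) := (.node (.node (.node (.node (.node (.leaf r76_0) 
(.leaf r76_16)) (.leaf r76_8)) (.node (.node (.leaf r76_4) (.leaf r76_20)) (.leaf r76_12))) (.node 
(.node (.node (.leaf r76_2) (.leaf r76_18)) (.leaf r76_10)) (.node (.leaf r76_6) (.leaf r76_14)))) 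
(.node (.node (.node (.node (.leaf r76_1) (.leaf r76_17)) (.leaf r76_9)) (.node (.leaf r76_5) 
(.leaf r76_13))) (.node (.node (.node (.leaf r76_3) (.leaf r76_19)) (.leaf r76_11)) (.node 
(.leaf r76_7) (.leaf r76_15)))))
noncomputable def rt77 : Ix (Rw Blk) := (.node (.node (.node (.node (.node (.leaf r77_0) 
(.leaf r77_16)) (.leaf r77_8)) (.node (.node (.leaf r77_4) (.leaf r77_20)) (.leaf r77_12))) (.node 
(.node (.node (.leaf r77_2) (.leaf r77_18)) (.leaf r77_10)) (.node (.leaf r77_6) (.leaf r77_14)))) 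
(.node (.node (.node (.node (.leaf r77_1) (.leaf r77_17)) (.leaf r77_9)) (.node (.leaf r77_5) 
(.leaf r77_13))) (.node (.node (.node (.leaf r77_3) (.leaf r77_19)) (.leaf r77_11)) (.node 
(.leaf r77_7) (.leaf r77_15)))))
noncomputable def rt78 : Ix (Rw Blk) := (.node (.node (.node (.node (.node (.leaf r78_0) 
(.leaf r78_16)) (.leaf r78_8)) (.node (.node (.leaf r78_4) (.leaf r78_20)) (.leaf r78_12))) (.node 
(.node (.node (.leaf r78_2) (.leaf r78_18)) (.leaf r78_10)) (.node (.leaf r78_6) (.leaf r78_14)))) 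
(.node (.node (.node (.node (.leaf r78_1) (.leaf r78_17)) (.leaf r78_9)) (.node (.leaf r78_5) 
(.leaf r78_13))) (.node (.node (.node (.leaf r78_3) (.leaf r78_19)) (.leaf r78_11)) (.node 
(.leaf r78_7) (.leaf r78_15)))))
noncomputable def rt79 : Ix (Rw Blk) := (.node (.node (.node (.node (.node (.leaf r79_0) 
(.leaf r79_16)) (.leaf r79_8)) (.node (.leaf r79_4) (.leaf r79_12))) (.node (.node (.node 
(.leaf r79_2) (.leaf r79_18)) (.leaf r79_10)) (.node (.leaf r79_6) (.leaf r79_14)))) (.node (.node 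
(.node (.node (.leaf r79_1) (.leaf r79_17)) (.leaf r79_9)) (.node (.leaf r79_5) (.leaf r79_13))) 
(.node (.node (.leaf r79_3) (.leaf r79_11)) (.node (.leaf r79_7) (.leaf r79_15)))))
noncomputable def rt80 : Ix (Rw Blk) := (.node (.node (.node (.node (.node (.leaf r80_0) 
(.leaf r80_16)) (.leaf r80_8)) (.node (.leaf r80_4) (.leaf r80_12))) (.node (.node (.node 
(.leaf r80_2) (.leaf r80_18)) (.leaf r80_10)) (.node (.leaf r80_6) (.leaf r80_14)))) (.node (.node 
(.node (.node (.leaf r80_1) (.leaf r80_17)) (.leaf r80_9)) (.node (.leaf r80_5) (.leaf r80_13))) 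
(.node (.node (.leaf r80_3) (.leaf r80_11)) (.node (.leaf r80_7) (.leaf r80_15)))))
noncomputable def rt81 : Ix (Rw Blk) := (.node (.node (.node (.node (.node (.leaf r81_0) 
(.leaf r81_16)) (.leaf r81_8)) (.node (.leaf r81_4) (.leaf r81_12))) (.node (.node (.node 
(.leaf r81_2) (.leaf r81_18)) (.leaf r81_10)) (.node (.leaf r81_6) (.leaf r81_14)))) (.node (.node 
(.node (.node (.leaf r81_1) (.leaf r81_17)) (.leaf r81_9)) (.node (.leaf r81_5) (.leaf r81_13))) 
(.node (.node (.leaf r81_3) (.leaf r81_11)) (.node (.leaf r81_7) (.leaf r81_15)))))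
noncomputable def rt82 : Ix (Rw Blk) := (.node (.node (.node (.node (.node (.leaf r82_0) 
(.leaf r82_16)) (.leaf r82_8)) (.node (.leaf r82_4) (.leaf r82_12))) (.node (.node (.node 
(.leaf r82_2) (.leaf r82_18)) (.leaf r82_10)) (.node (.leaf r82_6) (.leaf r82_14)))) (.node (.node 
(.node (.node (.leaf r82_1) (.leaf r82_17)) (.leaf r82_9)) (.node (.leaf r82_5) (.leaf r82_13))) 
(.node (.node (.leaf r82_3) (.leaf r82_11)) (.node (.leaf r82_7) (.leaf r82_15)))))
noncomputable def rt83 : Ix (Rw Blk) := (.node (.node (.node (.node (.node (.leaf r83_0) 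
(.leaf r83_16)) (.leaf r83_8)) (.node (.node (.leaf r83_4) (.leaf r83_20)) (.leaf r83_12))) (.node 
(.node (.node (.leaf r83_2) (.leaf r83_18)) (.leaf r83_10)) (.node (.leaf r83_6) (.leaf r83_14)))) 
(.node (.node (.node (.node (.leaf r83_1) (.leaf r83_17)) (.leaf r83_9)) (.node (.leaf r83_5) 
(.leaf r83_13))) (.node (.node (.node (.leaf r83_3) (.leaf r83_19)) (.leaf r83_11)) (.node 
(.leaf r83_7) (.leaf r83_15)))))
noncomputable def rt84 : Ix (Rw Blk) := (.node (.node (.node (.node (.node (.leaf r84_0) 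
(.leaf r84_16)) (.leaf r84_8)) (.node (.node (.leaf r84_4) (.leaf r84_20)) (.leaf r84_12))) (.node 
(.node (.node (.leaf r84_2) (.leaf r84_18)) (.leaf r84_10)) (.node (.leaf r84_6) (.leaf r84_14)))) 
(.node (.node (.node (.node (.leaf r84_1) (.leaf r84_17)) (.leaf r84_9)) (.node (.leaf r84_5) 
(.leaf r84_13))) (.node (.node (.node (.leaf r84_3) (.leaf r84_19)) (.leaf r84_11)) (.node 
(.leaf r84_7) (.leaf r84_15)))))
noncomputable def rt85 : Ix (Rw Blk) := (.node (.node (.node (.node (.node (.leaf r85_0) 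
(.leaf r85_16)) (.leaf r85_8)) (.node (.node (.leaf r85_4) (.leaf r85_20)) (.leaf r85_12))) (.node 
(.node (.node (.leaf r85_2) (.leaf r85_18)) (.leaf r85_10)) (.node (.leaf r85_6) (.leaf r85_14)))) 
(.node (.node (.node (.node (.leaf r85_1) (.leaf r85_17)) (.leaf r85_9)) (.node (.leaf r85_5) 
(.leaf r85_13))) (.node (.node (.node (.leaf r85_3) (.leaf r85_19)) (.leaf r85_11)) (.node 
(.leaf r85_7) (.leaf r85_15)))))
noncomputable def rt86 : Ix (Rw Blk) := (.node (.node (.node (.node (.node (.leaf r86_0) 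
(.leaf r86_16)) (.leaf r86_8)) (.node (.leaf r86_4) (.leaf r86_12))) (.node (.node (.node 
(.leaf r86_2) (.leaf r86_18)) (.leaf r86_10)) (.node (.leaf r86_6) (.leaf r86_14)))) (.node (.node 
(.node (.node (.leaf r86_1) (.leaf r86_17)) (.leaf r86_9)) (.node (.leaf r86_5) (.leaf r86_13))) 
(.node (.node (.leaf r86_3) (.leaf r86_11)) (.node (.leaf r86_7) (.leaf r86_15)))))
noncomputable def rt87 : Ix (Rw Blk) := (.node (.node (.node (.node (.node (.node (.leaf r87_0) 
(.leaf r87_32)) (.leaf r87_16)) (.node (.leaf r87_8) (.leaf r87_24))) (.node (.node (.leaf r87_4) 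
(.leaf r87_20)) (.node (.leaf r87_12) (.leaf r87_28)))) (.node (.node (.node (.node (.leaf r87_2) 
(.leaf r87_34)) (.leaf r87_18)) (.node (.leaf r87_10) (.leaf r87_26))) (.node (.node (.leaf r87_6) 
(.leaf r87_22)) (.node (.leaf r87_14) (.leaf r87_30))))) (.node (.node (.node (.node (.node 
(.leaf r87_1) (.leaf r87_33)) (.leaf r87_17)) (.node (.leaf r87_9) (.leaf r87_25))) (.node (.node 
(.leaf r87_5) (.leaf r87_21)) (.node (.leaf r87_13) (.leaf r87_29)))) (.node (.node (.node (.node 
(.leaf r87_3) (.leaf r87_35)) (.leaf r87_19)) (.node (.leaf r87_11) (.leaf r87_27))) (.node (.node 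
(.leaf r87_7) (.leaf r87_23)) (.node (.leaf r87_15) (.leaf r87_31))))))
noncomputable def rt88 : Ix (Rw Blk) := (.node (.node (.node (.node (.node (.leaf r88_0) 
(.leaf r88_16)) (.node (.leaf r88_8) (.leaf r88_24))) (.node (.node (.leaf r88_4) (.leaf r88_20)) 
(.node (.leaf r88_12) (.leaf r88_28)))) (.node (.node (.node (.leaf r88_2) (.leaf r88_18)) (.node 
(.leaf r88_10) (.leaf r88_26))) (.node (.node (.leaf r88_6) (.leaf r88_22)) (.leaf r88_14)))) 
(.node (.node (.node (.node (.leaf r88_1) (.leaf r88_17)) (.node (.leaf r88_9) (.leaf r88_25))) 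
(.node (.node (.leaf r88_5) (.leaf r88_21)) (.node (.leaf r88_13) (.leaf r88_29)))) (.node (.node 
(.node (.leaf r88_3) (.leaf r88_19)) (.node (.leaf r88_11) (.leaf r88_27))) (.node (.node 
(.leaf r88_7) (.leaf r88_23)) (.leaf r88_15)))))
noncomputable def rt89 : Ix (Rw Blk) := (.node (.node (.node (.node (.node (.leaf r89_0) 
(.leaf r89_16)) (.node (.leaf r89_8) (.leaf r89_24))) (.node (.node (.leaf r89_4) (.leaf r89_20)) 
(.node (.leaf r89_12) (.leaf r89_28)))) (.node (.node (.node (.leaf r89_2) (.leaf r89_18)) (.node 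
(.leaf r89_10) (.leaf r89_26))) (.node (.node (.leaf r89_6) (.leaf r89_22)) (.leaf r89_14)))) 
(.node (.node (.node (.node (.leaf r89_1) (.leaf r89_17)) (.node (.leaf r89_9) (.leaf r89_25))) 
(.node (.node (.leaf r89_5) (.leaf r89_21)) (.node (.leaf r89_13) (.leaf r89_29)))) (.node (.node 
(.node (.leaf r89_3) (.leaf r89_19)) (.node (.leaf r89_11) (.leaf r89_27))) (.node (.node 
(.leaf r89_7) (.leaf r89_23)) (.leaf r89_15)))))
noncomputable def rt90 : Ix (Rw Blk) := (.node (.node (.node (.node (.leaf r90_0) (.leaf r90_8)) (.node (.leaf r90_4) (.leaf r90_12))) (.node (.node (.leaf r90_2) (.leaf r90_10)) (.node (.leaf r90_6) (.leaf r90_14)))) (.node (.node (.node (.leaf r90_1) (.leaf r90_9)) (.node (.leaf r90_5) (.leaf r90_13))) (.node (.node (.leaf r90_3) (.leaf r90_11)) (.node (.leaf r90_7) (.leaf r90_15)))))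
noncomputable def rt91 : Ix (Rw Blk) := (.node (.node (.node (.node (.node (.leaf r91_0) 
(.leaf r91_16)) (.leaf r91_8)) (.node (.leaf r91_4) (.leaf r91_12))) (.node (.node (.node 
(.leaf r91_2) (.leaf r91_18)) (.leaf r91_10)) (.node (.leaf r91_6) (.leaf r91_14)))) (.node (.node 
(.node (.node (.leaf r91_1) (.leaf r91_17)) (.leaf r91_9)) (.node (.leaf r91_5) (.leaf r91_13))) 
(.node (.node (.leaf r91_3) (.leaf r91_11)) (.node (.leaf r91_7) (.leaf r91_15)))))
noncomputable def rt92 : Ix (Rw Blk) := (.node (.node (.node (.node (.node (.leaf r92_0) 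
(.leaf r92_16)) (.leaf r92_8)) (.node (.node (.leaf r92_4) (.leaf r92_20)) (.leaf r92_12))) (.node 
(.node (.node (.leaf r92_2) (.leaf r92_18)) (.leaf r92_10)) (.node (.leaf r92_6) (.leaf r92_14)))) 
(.node (.node (.node (.node (.leaf r92_1) (.leaf r92_17)) (.leaf r92_9)) (.node (.leaf r92_5) 
(.leaf r92_13))) (.node (.node (.node (.leaf r92_3) (.leaf r92_19)) (.leaf r92_11)) (.node 
(.leaf r92_7) (.leaf r92_15)))))
noncomputable def rt93 : Ix (Rw Blk) := (.node (.node (.node (.node (.node (.leaf r93_0) 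
(.leaf r93_16)) (.leaf r93_8)) (.node (.node (.leaf r93_4) (.leaf r93_20)) (.leaf r93_12))) (.node 
(.node (.node (.leaf r93_2) (.leaf r93_18)) (.leaf r93_10)) (.node (.leaf r93_6) (.leaf r93_14)))) 
(.node (.node (.node (.node (.leaf r93_1) (.leaf r93_17)) (.leaf r93_9)) (.node (.leaf r93_5) 
(.leaf r93_13))) (.node (.node (.node (.leaf r93_3) (.leaf r93_19)) (.leaf r93_11)) (.node 
(.leaf r93_7) (.leaf r93_15)))))
noncomputable def rt94 : Ix (Rw Blk) := (.node (.node (.node (.node (.node (.leaf r94_0) 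
(.leaf r94_16)) (.leaf r94_8)) (.node (.node (.leaf r94_4) (.leaf r94_20)) (.leaf r94_12))) (.node 
(.node (.node (.leaf r94_2) (.leaf r94_18)) (.leaf r94_10)) (.node (.leaf r94_6) (.leaf r94_14)))) 
(.node (.node (.node (.node (.leaf r94_1) (.leaf r94_17)) (.leaf r94_9)) (.node (.leaf r94_5) 
(.leaf r94_13))) (.node (.node (.node (.leaf r94_3) (.leaf r94_19)) (.leaf r94_11)) (.node 
(.leaf r94_7) (.leaf r94_15)))))
noncomputable def rt95 : Ix (Rw Blk) := (.node (.node (.node (.node (.node (.leaf r95_0) 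
(.leaf r95_16)) (.leaf r95_8)) (.node (.leaf r95_4) (.leaf r95_12))) (.node (.node (.node 
(.leaf r95_2) (.leaf r95_18)) (.leaf r95_10)) (.node (.leaf r95_6) (.leaf r95_14)))) (.node (.node 
(.node (.node (.leaf r95_1) (.leaf r95_17)) (.leaf r95_9)) (.node (.leaf r95_5) (.leaf r95_13))) 
(.node (.node (.leaf r95_3) (.leaf r95_11)) (.node (.leaf r95_7) (.leaf r95_15)))))
noncomputable def rt96 : Ix (Rw Blk) := (.node (.node (.node (.node (.node (.node (.leaf r96_0) 
(.leaf r96_32)) (.leaf r96_16)) (.node (.leaf r96_8) (.leaf r96_24))) (.node (.node (.leaf r96_4) 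
(.leaf r96_20)) (.node (.leaf r96_12) (.leaf r96_28)))) (.node (.node (.node (.node (.leaf r96_2) 
(.leaf r96_34)) (.leaf r96_18)) (.node (.leaf r96_10) (.leaf r96_26))) (.node (.node (.leaf r96_6) 
(.leaf r96_22)) (.node (.leaf r96_14) (.leaf r96_30))))) (.node (.node (.node (.node (.node 
(.leaf r96_1) (.leaf r96_33)) (.leaf r96_17)) (.node (.leaf r96_9) (.leaf r96_25))) (.node (.node 
(.leaf r96_5) (.leaf r96_21)) (.node (.leaf r96_13) (.leaf r96_29)))) (.node (.node (.node (.node 
(.leaf r96_3) (.leaf r96_35)) (.leaf r96_19)) (.node (.leaf r96_11) (.leaf r96_27))) (.node (.node 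
(.leaf r96_7) (.leaf r96_23)) (.node (.leaf r96_15) (.leaf r96_31))))))
noncomputable def rt97 : Ix (Rw Blk) := (.node (.node (.node (.node (.node (.leaf r97_0) 
(.leaf r97_16)) (.node (.leaf r97_8) (.leaf r97_24))) (.node (.node (.leaf r97_4) (.leaf r97_20)) 
(.node (.leaf r97_12) (.leaf r97_28)))) (.node (.node (.node (.leaf r97_2) (.leaf r97_18)) (.node 
(.leaf r97_10) (.leaf r97_26))) (.node (.node (.leaf r97_6) (.leaf r97_22)) (.leaf r97_14)))) 
(.node (.node (.node (.node (.leaf r97_1) (.leaf r97_17)) (.node (.leaf r97_9) (.leaf r97_25))) 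
(.node (.node (.leaf r97_5) (.leaf r97_21)) (.node (.leaf r97_13) (.leaf r97_29)))) (.node (.node 
(.node (.leaf r97_3) (.leaf r97_19)) (.node (.leaf r97_11) (.leaf r97_27))) (.node (.node 
(.leaf r97_7) (.leaf r97_23)) (.leaf r97_15)))))
noncomputable def rt98 : Ix (Rw Blk) := (.node (.node (.node (.node (.node (.leaf r98_0) 
(.leaf r98_16)) (.node (.leaf r98_8) (.leaf r98_24))) (.node (.node (.leaf r98_4) (.leaf r98_20)) 
(.node (.leaf r98_12) (.leaf r98_28)))) (.node (.node (.node (.leaf r98_2) (.leaf r98_18)) (.node 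
(.leaf r98_10) (.leaf r98_26))) (.node (.node (.leaf r98_6) (.leaf r98_22)) (.leaf r98_14)))) 
(.node (.node (.node (.node (.leaf r98_1) (.leaf r98_17)) (.node (.leaf r98_9) (.leaf r98_25))) 
(.node (.node (.leaf r98_5) (.leaf r98_21)) (.node (.leaf r98_13) (.leaf r98_29)))) (.node (.node 
(.node (.leaf r98_3) (.leaf r98_19)) (.node (.leaf r98_11) (.leaf r98_27))) (.node (.node 
(.leaf r98_7) (.leaf r98_23)) (.leaf r98_15)))))
noncomputable def rt99 : Ix (Rw Blk) := (.node (.node (.node (.node (.leaf r99_0) (.leaf r99_8)) (.node (.leaf r99_4) (.leaf r99_12))) (.node (.node (.leaf r99_2) (.leaf r99_10)) (.node (.leaf r99_6) (.leaf r99_14)))) (.node (.node (.node (.leaf r99_1) (.leaf r99_9)) (.node (.leaf r99_5) (.leaf r99_13))) (.node (.node (.leaf r99_3) (.leaf r99_11)) (.node (.leaf r99_7) (.leaf r99_15)))))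
noncomputable def rt100 : Ix (Rw Blk) := (.node (.node (.node (.node (.node (.leaf r100_0) 
(.leaf r100_16)) (.leaf r100_8)) (.node (.leaf r100_4) (.leaf r100_12))) (.node (.node (.node 
(.leaf r100_2) (.leaf r100_18)) (.leaf r100_10)) (.node (.leaf r100_6) (.leaf r100_14)))) (.node 
(.node (.node (.node (.leaf r100_1) (.leaf r100_17)) (.leaf r100_9)) (.node (.leaf r100_5) 
(.leaf r100_13))) (.node (.node (.leaf r100_3) (.leaf r100_11)) (.node (.leaf r100_7) 
(.leaf r100_15)))))

noncomputable def rtx : Ix (Ix (Rw Blk)) := (.node (.node (.node (.node (.node (.node (.node 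
(.leaf rt0) (.leaf rt64)) (.node (.leaf rt32) (.leaf rt96))) (.node (.node (.leaf rt16) 
(.leaf rt80)) (.leaf rt48))) (.node (.node (.node (.leaf rt8) (.leaf rt72)) (.leaf rt40)) (.node 
(.node (.leaf rt24) (.leaf rt88)) (.leaf rt56)))) (.node (.node (.node (.node (.leaf rt4) 
(.leaf rt68)) (.node (.leaf rt36) (.leaf rt100))) (.node (.node (.leaf rt20) (.leaf rt84)) 
(.leaf rt52))) (.node (.node (.node (.leaf rt12) (.leaf rt76)) (.leaf rt44)) (.node (.node 
(.leaf rt28) (.leaf rt92)) (.leaf rt60))))) (.node (.node (.node (.node (.node (.leaf rt2) 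
(.leaf rt66)) (.node (.leaf rt34) (.leaf rt98))) (.node (.node (.leaf rt18) (.leaf rt82)) 
(.leaf rt50))) (.node (.node (.node (.leaf rt10) (.leaf rt74)) (.leaf rt42)) (.node (.node 
(.leaf rt26) (.leaf rt90)) (.leaf rt58)))) (.node (.node (.node (.node (.leaf rt6) (.leaf rt70)) 
(.leaf rt38)) (.node (.node (.leaf rt22) (.leaf rt86)) (.leaf rt54))) (.node (.node (.node 
(.leaf rt14) (.leaf rt78)) (.leaf rt46)) (.node (.node (.leaf rt30) (.leaf rt94)) (.leaf rt62)))))) 
(.node (.node (.node (.node (.node (.node (.leaf rt1) (.leaf rt65)) (.node (.leaf rt33) 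
(.leaf rt97))) (.node (.node (.leaf rt17) (.leaf rt81)) (.leaf rt49))) (.node (.node (.node 
(.leaf rt9) (.leaf rt73)) (.leaf rt41)) (.node (.node (.leaf rt25) (.leaf rt89)) (.leaf rt57)))) 
(.node (.node (.node (.node (.leaf rt5) (.leaf rt69)) (.leaf rt37)) (.node (.node (.leaf rt21) 
(.leaf rt85)) (.leaf rt53))) (.node (.node (.node (.leaf rt13) (.leaf rt77)) (.leaf rt45)) (.node 
(.node (.leaf rt29) (.leaf rt93)) (.leaf rt61))))) (.node (.node (.node (.node (.node (.leaf rt3) 
(.leaf rt67)) (.node (.leaf rt35) (.leaf rt99))) (.node (.node (.leaf rt19) (.leaf rt83)) 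
(.leaf rt51))) (.node (.node (.node (.leaf rt11) (.leaf rt75)) (.leaf rt43)) (.node (.node 
(.leaf rt27) (.leaf rt91)) (.leaf rt59)))) (.node (.node (.node (.node (.leaf rt7) (.leaf rt71)) 
(.leaf rt39)) (.node (.node (.leaf rt23) (.leaf rt87)) (.leaf rt55))) (.node (.node (.node 
(.leaf rt15) (.leaf rt79)) (.leaf rt47)) (.node (.node (.leaf rt31) (.leaf rt95)) (.leaf rt63)))))))

noncomputable def rowT (k o : Nat) : Rw Blk := (Ix.get rtx k).get o

noncomputable def pt0 : Ix (Nat) := (.node (.node (.node (.node (.node (.node (.node (.node (.node 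
(.leaf (nat_lit 0x1cc100000000000000f0800191a00000000000000e3a00000000000000000000000000000000000000000000000000000000000074b800f0800191a00000000000000e3a00000000000000000000000000000000000000000000000000000000000074b800e428000000042ce00901400e428000000042ce0090140000000000000000000000000000000000004432003cb00110c800f2c000000006f2400e0000000000380000000000e79001d49003a9200774800ec580000000000000000000000000e100000000000000000000000000000000000000000000000001c20000000000000000000000000069a401198801a69004662006b0c0000000000000000000000000000000000)) 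
(.leaf (nat_lit 0x3a980075300002f400765c009c1800000000000006b6400000000000))) (.node 
(.leaf (nat_lit 0x3a9800753000452c00777c012c30017c5003a320062b000dd28024b5000484008174011cf001d33)) 
(.leaf (nat_lit 0x1d4c003a98000f3500000000000000d4c00203b002f52000000007c780164d)))) (.node (.node 
(.leaf (nat_lit 0x1d4c003a9800000000000000000000000000000)) 
(.leaf (nat_lit 0xb7b400997801f0b00551400adc001888802f5200616000ad0800000000c190000000000000000000120d002af800000001a110018dd00697400927c00992800a4a00699200b6b8018778020de00632c00b918010cb00172400632e00ab980150c00295600568a00aa6c015a6002b0a00569a00c8440189900335500669c00c7e0019ae802dac005a5c00b21c0173a002e82004b8e00c5a40174e802aed005baa008000006630019740032ae00488400e68001bb700445400703000b59001c4b0046e8006fcc011ee001f490040140081e800fbb0020db0040f000813400fd8801ee400404c0076c4010a30012770042a8008360011108020c10041ca007d98010b88020d70043360083f0010ad8020e00043460067380104f801da900437a00729000fa4801d310034f2006ed400e2a80192a003968006e900000000192000000000122800c570012c90039f6000270010d5001e3400316c008b8800d35001920003d3e00832800d7f80193e00437a00704000e61000f36)))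 
(.leaf (nat_lit 0x1d4c003a98000000000000000000000000000000000000000000000000000000000000000000000000000)))) 
(.node (.node (.node (.leaf (nat_lit 0x0)) 
(.leaf (nat_lit 0x1d4c003a980000000000000000000000000000000000000000000000000000000000000000000000000000000000000000000000000000000000000000000000000))) 
(.leaf (nat_lit 0x1d4c003a980006ee00031e0000000044100000000000000000000000000000001a300000000078e000000))) 
(.node (.node (.leaf (nat_lit 0x1d4c003a980000000000000000000000000000000000000000000000000000)) 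
(.leaf (nat_lit 0x3a9800753000593c00c5900140180318b))) 
(.leaf (nat_lit 0x3a98007530002cd60045000083d8008060000000018000036680131f0000000068a400cf6800000))))) 
(.node (.node (.node (.node (.leaf (nat_lit 0x753000ea60001df000ee2000d4c003aa6002d3800f1f00025c)) 
(.leaf (nat_lit 0x1d4c003a9800000000288a0015c80000000054b))) (.node 
(.leaf (nat_lit 0x3a9800000000000000000000000000000000000000000000000000000000000000000000000000000000000000000000000000000000000000000000000000000000000000000000000000000000000000000000000)) 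
(.leaf (nat_lit 0x1d4c003a9800101a0025d400000000000000000)))) (.node (.node 
(.leaf (nat_lit 0x753000ea60009db801301002160004da800535401326801625)) 
(.leaf (nat_lit 0x1d4c003a98000000000000000000000000000000000000000000000000000000000000000000000000000))) 
(.leaf (nat_lit 0x3a9800753000000000420000f61801aca001a100042240013000000000314200000000df5001a50)))) 
(.node (.node (.node 
(.leaf (nat_lit 0x1d4c003a980000000000000000000000000000000000000000000000000000)) 
(.leaf (nat_lit 0x3a980075300000000000000000000000000000000000000000000000))) 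
(.leaf (nat_lit 0x753000ea60000000000000000000000000000000000000000000000000000000000000000))) 
(.node (.node 
(.leaf (nat_lit 0xea6001d4c000000000000000000000000000000000000000000000000000000000000000000000000000000000)) 
(.leaf (nat_lit 0xea6001d4c0000430015da000000003fb0006040013e2))) 
(.leaf (nat_lit 0xea6001d4c001571801dbe00129c0076f8004a7002015)))))) (.node (.node (.node (.node 
(.node (.leaf (nat_lit 0x753000ea600000000064f000182001a2c000d0c00000000000)) 
(.leaf (nat_lit 0xea6001d4c0015f200254200019400950800065002406))) (.node 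
(.leaf (nat_lit 0x1d4c003a98000d1c002afc00000000b570005e700000000693c00000000c8f)) 
(.leaf (nat_lit 0x1d4c003a9800000000000000000000000000000)))) (.node (.node 
(.leaf (nat_lit 0x753000ea60003f7c00e9b001cf700395e00883800d10000ede)) 
(.leaf (nat_lit 0x1d4c003a9800097d000eee0032ec00bde0005cd0038ca000000009a8001b77))) 
(.leaf (nat_lit 0x1d4c003a980000000000000000000000000000000000000000000000000000)))) (.node (.node 
(.node (.leaf (nat_lit 0x753000ea600000000000000000000000000000000000000000)) 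
(.leaf (nat_lit 0x1d4c003a98001547002442000000004b9000dde00238c0002a400a22800000002e7c00563800a7d0000000018a6000000000d9000e1b00000000460000bfe001896))) 
(.leaf (nat_lit 0x753000ea6000000000000000000000000000000000000000000000000000000000000000000000000000000000000000))) 
(.node (.node (.leaf (nat_lit 0x1d4c003a980000000000000000000000000000000000000000000000000000)) 
(.leaf (nat_lit 0x753000ea600000000000000000000000000000000000000000))) 
(.leaf (nat_lit 0x1d4c003a980025cc00469c007ad800ba5801ed20000000019fc00e198018e3001f3c007928001a60023ad))))) 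
(.node (.node (.node (.node (.leaf (nat_lit 0xea6001d4c00000000000000000000000000000000000)) 
(.leaf (nat_lit 0x1d4c003a9800000000288a0015c80000000054b))) (.node 
(.leaf (nat_lit 0x3a980075300000000000000000000000000000000000000000000000)) 
(.leaf (nat_lit 0xea6001d4c00000000000000000000000000503800000)))) (.node (.node 
(.leaf (nat_lit 0x753000ea600000000000000000000000000000000000000000000000000000000000000000000000000000000000000000000000000000000000000)) 
(.leaf (nat_lit 0x3a9800753000000000000000000000000))) 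
(.leaf (nat_lit 0x753000ea60000000000000000000000000000000000000000000000000000000000000000)))) 
(.node (.node (.node (.leaf (nat_lit 0x753000ea60000000010870019b900421c0066e4010bc80243e)) 
(.leaf (nat_lit 0x5b8800b2f000f85002f8c0069000101e801834003e6e00521400a9e801cd4001252003ca800e4580001f0037dc00081c01084801a41003eda00000000d7a800f8f003970005b900127a802108004b06008060010c08016f7004b26007fc00085b00187c00394c008e9400f68802673002df40095940121780246c004bee007f64012fb00202f003a700038640113a00179a00271c001db40036e800f14002d0e00605400a30001b5d0034aa001b8400dbc80117f00417800883800f3c001d1e0036ee0072c800c16801df000432c0014700051600224a002e38004618008c0000ce50006fe004cf400abe000000002f6400062400c74000df0003296003b7800bbb0016c1002174005a5800bb48018850031cc000a6800db8800000002506001fc4008b7800b70002cee00575800b4f001bb30033580068dc00c7180186e0026de004d7400a8080124100263c0056e400b79001266002e8e00718000eb1001cb5003b32007f0000d95801ed2003e7800774000f63001894))) 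
(.leaf (nat_lit 0x0))) (.node (.node 
(.leaf (nat_lit 0x753000ea600000000000000000000000000000000000000000)) 
(.leaf (nat_lit 0x3a98007530004dc200bc2800b58002b00))) 
(.leaf (nat_lit 0x3a980075300002f400765c009c1800000000000006b6400000000000))))))) (.node (.node 
(.node (.node (.node (.node 
(.leaf (nat_lit 0x1d4c003a98000000000000000000000000000000000000000000040f000b46)) 
(.leaf (nat_lit 0xea6001d4c00120d002dd7005dba00223c01762000763))) (.node 
(.leaf (nat_lit 0x3a9800753000000000420000f61801aca001a100042240013000000000314200000000df5001a50)) 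
(.leaf (nat_lit 0x990000000000000005b8c00e1a801789002fb4007bc800c64001949000000004c4c00a8b801fdc001f42006180008398015790000000088dc011430019f20037320090d800fad8021b30036ac00791400ae9800000000e9e004f38004de0017cc004146004f2400eec00048900000000706000de50000000044ec00866c0115f0021a7003a6800803000ec6801eca0033b0003f7800810001e9200104c00075000506800c82002be000647400cc3801d59003c3000667000c60001a28002e08006f6800bf7001823000ef600348000cab001bee)))) 
(.node (.node 
(.leaf (nat_lit 0x1d4c000000000000000000000000000000000000000000000000000000000000000000000000000000000)) 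
(.leaf (nat_lit 0x753000ea6000427400000000d470000000000000000000000000000000000000403800c50))) 
(.leaf (nat_lit 0x3a98007530000000000000000000000000000000000000000000000000000000000000000000000)))) 
(.node (.node (.node (.leaf (nat_lit 0x753000ea600000000000000000000000000000000000000000)) 
(.leaf (nat_lit 0x5d4a0050680102b802e43005d7c00ba7c017dd0028be000000000000004de800f4c00000000cf6000c0280347a0027da00cccc017ac002e9f005c8600baf8017dd0028be000000000000004de800f4c00000000cf6000c0280347a0027da00cccc017ac0030d100556200c344015588032560056a400c45c01a4380328200690e00ca0801a330033420064ba00bd20014ec802f480053b200bcf4011c7000000003672004da8009b80020ad0033d8007cfc00e2b8006c1000000006ce4009b500238e0026e00082b400cf6001f3f0038ae001b04012950021270041800083b400f8a002524004a620094a8010938020c00041da007c5001292002531004bda007d44012f6801f51004b12009648012ec8025d9004b02009624012f0801fce004bc2007f38012c50019f600359600476c000000017c7001f7c0075b800cfb001acb0023b600000000be3800fbe003adc007af800f1d001eac0045da00000000b79001691002a1800668c00f5f001e3a003d58008bb4000000016f2002d2200543000cd180218e)))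 
(.leaf (nat_lit 0x753000ea600000000000000000000000000000000000000000000000000000000000000000000000000000000000000000000000000000000000000))) 
(.node (.node 
(.leaf (nat_lit 0x753000ea60000000000000000000000000000000000000000000000000000000000000000)) 
(.leaf (nat_lit 0x3a98007530000000005680000000010ea))) 
(.leaf (nat_lit 0x1d4c003a98000000000000000000000000000000000000000000000000000000000000000000000000000000000000000000000000000000000000000000000000000000000000000000000000))))) 
(.node (.node (.node (.node (.leaf (nat_lit 0x753000ea60000000001f30000000021fa000000006bc800000)) 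
(.leaf (nat_lit 0x1d4c003a98002b460057cc00a1b401684802fca))) (.node 
(.leaf (nat_lit 0x3a98007530001ab20035cc00d28001721000000005e0000b5c0000000037220000000080900113c)) 
(.leaf (nat_lit 0xea6001d4c00000000000000000000000000000000000)))) (.node (.node 
(.leaf (nat_lit 0x1d4c003a980006ee00031e0000000044100000000000000000000000000000001a300000000078e000000)) 
(.leaf (nat_lit 0x1d4c003a980003860027140000000000000000000246200000000000000fbf))) 
(.leaf (nat_lit 0x1d4c003a9800171100312c003f5400d9980005e002c7200000000000000fca0001ac00783c00e87800023)))) 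
(.node (.node (.node (.leaf (nat_lit 0x753000ea6000977c015b58012f70056d6004bdc01636802a2a)) 
(.leaf (nat_lit 0x753000ea6000427400000000d470000000000000000000000000000000000000403800c50))) 
(.leaf (nat_lit 0x753000ea600000000000000000000000000000000000000000000000000000000000000000000000000000000000000000000000000000000000000))) 
(.node (.node 
(.leaf (nat_lit 0x1d4c003a98000000000000000000000000000000000000000000000000000000000000000000000000000)) 
(.leaf (nat_lit 0x3a9800753000597400cfa401b57801d57))) 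
(.leaf (nat_lit 0xea6001d4c000000001f08003a060010b000a92000c83)))))) (.node (.node (.node (.node 
(.node (.leaf (nat_lit 0x1d4c003a980000000000000000000000000000000000000000000000000000)) 
(.leaf (nat_lit 0xea6001d4c000000000fdf00266a00000000870800000))) (.node 
(.leaf (nat_lit 0x753000ea60000000000000000000000000000000000000000000000000000000000000000)) 
(.leaf (nat_lit 0x174e800fd000421c00d1a00177f000b8300000000d114017a200115300000000cce4007620030e4005ac600b6380130e0030440054cc00c4d8011368021a5003ed400c44c015a0002674000d6800b658012c70029350052a200a28000da2802ab600545e00a704014c60027b9003b340096640130f801e2300628a00c34c019630031ce005aa200bcd801360802db90050ba00b16c01640002de5005c5a00a32c016fb0028fd00410a0056c400d95001fde0034a40085080139c8020de0050ea008f840113f0022c50046260090c800a278025fb)))) 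
(.node (.node (.leaf (nat_lit 0x1d4c003a980000000000000000000000000000000000000000000000000000)) 
(.leaf (nat_lit 0x642800b3e000930004a680093e400c8f000000004dfc0085c0004ba000000004cbc0025bc012a900260c00498a003c9001376800bf0004cc20037d80125580244a00388c00956800e510024fd0049d4007d4000e70001e7f0034bc00749800c3b0026c100407a00928401275802d6f004ba800ae7c0145e802a8100494800bbe00173300245a0052f200a78c0146a802a490049c2004788002e080059a001342001e70006fa0000000000000035b4004c8000914002d44007b6800cd20019d60035220063b000f37001e9c001226000000007b680031600288800480400d95801e45003cd600786000647800000002b9a00211800715801b6e002b800067ec00e1c001d26003126008e8800aaf00000000279e00214800cc0801f720036ac007e6c00de2002141003b8800761800c7e001d380020b600707400d15801a2f0026ba00a4f000c7200250c002e2c000000009ef8012c400281c00512c0089f8014a9002a4e004224002480000000011f800126800bdf801684))) 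
(.leaf (nat_lit 0x3a9800753000452c00777c012c30017c5003a320062b000dd28024b5000484008174011cf001d33)))) 
(.node (.node (.node (.leaf (nat_lit 0x1d4c003a9800000000000000000000000000000)) 
(.leaf (nat_lit 0x3a980075300000000000000000000000000000000000000000000000))) 
(.leaf (nat_lit 0x1d4c003a980000000000000000000000000000000000000000000000000000))) (.node (.node 
(.leaf (nat_lit 0x0)) (.leaf (nat_lit 0xea6001d4c00000000000000000000000000000000000))) 
(.leaf (nat_lit 0x3a9800753000000000712000dcf000b8d))))) (.node (.node (.node (.node 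
(.leaf (nat_lit 0x1d4c003a980000000000000000000000000000000000000000000000000000)) 
(.leaf (nat_lit 0x1d4c003a98002350005ef400461c01776800dfd))) (.node 
(.leaf (nat_lit 0x1d4c003a980021080042160085e400fd200111c0049e800000000858001b9600428c008ce40125a800e02)) 
(.leaf (nat_lit 0x753000ea6000000000902800a070003e200000000165000d20)))) (.node (.node 
(.leaf (nat_lit 0x753000ea6000000000000000000000000000000000000000000000000000000000000000000000000000000000000000)) 
(.leaf (nat_lit 0x3a9800753000000000000000000000000))) 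
(.leaf (nat_lit 0x1d4c0000000000000000000000000000000000000000000000000000000000)))) (.node (.node 
(.node (.leaf (nat_lit 0x753000ea600062c800e96801275003b4e001cbc00eb3800000)) 
(.leaf (nat_lit 0x753000ea60000000000000000000000000000000000000000000000000000000000000000))) 
(.leaf (nat_lit 0xea6001d4c000000000000000000000000000000000000000000000000000000000000000000000000000000000))) 
(.node (.node 
(.leaf (nat_lit 0x753000ea600000000000000000000000000000000000000000000000000000000000000000000000000000000000000000000000000000000000000)) 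
(.leaf (nat_lit 0x1d4c003a9800000000000000000000000000000000000000000000000000000000000000000000000000000000000000000000000000))) 
(.leaf (nat_lit 0x3a980075300055bc007038006e38016ea00081a00678c001ec801fdd)))))))) (.node (.node 
(.node (.node (.node (.node (.node 
(.leaf (nat_lit 0x1d4c003a980000000000000000000000000000000000000000000000000000)) 
(.leaf (nat_lit 0xea6001d4c00164580364e002f2800d93800bca00354f))) (.node 
(.leaf (nat_lit 0x1d4c003a980019a400451a0006240133d801f9700055e009854013090022bc)) 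
(.leaf (nat_lit 0x1d4c003a98001201003438005a6c008b08009900000000000000054b80000000202800582800b0a00000000000000000000000000000)))) 
(.node (.node 
(.leaf (nat_lit 0x2ae4008318013fe000ffc000000009b78017e400091a00000000dbe001b7d000000000000004c2800000000ce800000000bfb8016c800312200548c00ae30005370015d600000000529800fb00013c200815000dbf800a40001c88008388007b1801e15003e4400748800f6e0018f3002bd0002bf8002270000e700403a0010c4000000006ad0014ee0005d800000000a89000000001684000000000000000000000b8007aa8029350020480060580088c001365003be600543800ace800d5400307e001e2c00ccc000cd0000836006eb000763801ef8)) 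
(.leaf (nat_lit 0x1d4c003a98001329000000000a6c008ba800ab500268c00032c0001c00053f00044a0000000064e0000000034d600451400b2b8000000000000000000000000021d000000004f9000c98001825))) 
(.leaf (nat_lit 0x753000ea60001190000000000000000740000000000000000000000000000000000000000)))) 
(.node (.node (.node 
(.leaf (nat_lit 0x1d4c000000000000000000000000000000000000000000000000000000000000000000000000000000000)) 
(.leaf (nat_lit 0x1d4c003a980000000000000000000000000000000000000000000000000000000000000000000000000000000000000000000000000000000000000000000000000))) 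
(.leaf (nat_lit 0x1d4c003a98000000000000000628000000000000000000000000000000000000000000000000000000000))) 
(.node (.node (.leaf (nat_lit 0x1d4c003a98000336001dc000000000adf000f180000000057d000000000000)) 
(.leaf (nat_lit 0x3a980075300054aa00826800fb2800ebe))) 
(.leaf (nat_lit 0x3a98007530002cec00000000bca0000000007fc0050740034580183500000000555000b66000ad9))))) 
(.node (.node (.node (.node (.leaf (nat_lit 0x753000ea6000000000ab2001016003b9c0011e000eeb800000)) 
(.leaf (nat_lit 0x1d4c003a98002770003f42007b8c00c58800a9b))) (.node 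
(.leaf (nat_lit 0x1d4c003a98000a5500000000144800333800dd20000000000000061b00000000000000000000000000e810000000043c4007590016d90027300053a80078e800dfa)) 
(.leaf (nat_lit 0x9df8013970000000093ac01170001d140042a8009368011958022710047460097bc012188000000015f80064f0011f00015d700363600841800000001d290043b60069b001119800dc200344200000001096000df30000000094c80112b001f3f003cae000000011d9802142004846004c1c007bf801d0e002cf600859800ebd8022150033400086cc0124e802498004d280083540108c001fc300422200734c0118c8023850044da00821800e1480199c0036be006b0800d02801d9300412a00820000d99001bbb0039c4008abc011eb80227d0048d200753000e0880032f00335200705800fb700225b003a080047f40116e8011b7)))) 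
(.node (.node 
(.leaf (nat_lit 0x1d4c003a98000000000000000000000000000000000000000000000000000000000000000000000000000)) 
(.leaf (nat_lit 0x1d4c003a98002b4000434800876800230801dfd003a62007b64001f780219400215a0090f8012cd800069))) 
(.leaf (nat_lit 0x3a980075300026200007f8009a2000000000000000000000000011070000000007ac0099c0007bc)))) 
(.node (.node (.node 
(.leaf (nat_lit 0x1d4c003a980000000000000000000000000000000000000000000000000000)) 
(.leaf (nat_lit 0xb7b400997801f0b00551400adc001888802f5200616000ad0800000000c190000000000000000000120d002af800000001a110018dd00697400927c00992800a4a00699200b6b8018778020de00632c00b918010cb00172400632e00ab980150c00295600568a00aa6c015a6002b0a00569a00c8440189900335500669c00c7e0019ae802dac005a5c00b21c0173a002e82004b8e00c5a40174e802aed005baa008000006630019740032ae00488400e68001bb700445400703000b59001c4b0046e8006fcc011ee001f490040140081e800fbb0020db0040f000813400fd8801ee400404c0076c4010a30012770042a8008360011108020c10041ca007d98010b88020d70043360083f0010ad8020e00043460067380104f801da900437a00729000fa4801d310034f2006ed400e2a80192a003968006e900000000192000000000122800c570012c90039f6000270010d5001e3400316c008b8800d35001920003d3e00832800d7f80193e00437a00704000e61000f36)))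 
(.leaf (nat_lit 0x1d4c003a980000000000000000000000000000000000000000000000000000))) (.node (.node 
(.leaf (nat_lit 0x1d4c003a980000000000000000000000000000000000000000000000000000000000000000000000000000000000000000000000000000000000000000000000000)) 
(.leaf (nat_lit 0xea6001d4c00144980207d0008a60080d800aad001ec4))) 
(.leaf (nat_lit 0xea6001d4c000000001f08003a060010b000a92000c83)))))) (.node (.node (.node (.node 
(.node (.leaf (nat_lit 0x1d4c003a980000000000000000000000000000000000000000000000000000)) 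
(.leaf (nat_lit 0xea6001d4c000000000fdf00266a00000000870800000))) (.node 
(.leaf (nat_lit 0x1d4c003a9800171100312c003f5400d9980005e002c7200000000000000fca0001ac00783c00e87800023)) 
(.leaf (nat_lit 0x3a9800753000000000000000000000000)))) (.node (.node 
(.leaf (nat_lit 0x753000ea60005c9000abe800000001bba00636c008ae001c24)) 
(.leaf (nat_lit 0x3a9800753000232e00385800e7c0000c5))) 
(.leaf (nat_lit 0x753000ea600000000000000000000000000000000000000000000000000000000000000000000000000000000000000000000000000000000000000)))) 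
(.node (.node (.node (.leaf (nat_lit 0x1d4c003a9800000000000000000000000000000)) 
(.leaf (nat_lit 0x5b8800b2f000f85002f8c0069000101e801834003e6e00521400a9e801cd4001252003ca800e4580001f0037dc00081c01084801a41003eda00000000d7a800f8f003970005b900127a802108004b06008060010c08016f7004b26007fc00085b00187c00394c008e9400f68802673002df40095940121780246c004bee007f64012fb00202f003a700038640113a00179a00271c001db40036e800f14002d0e00605400a30001b5d0034aa001b8400dbc80117f00417800883800f3c001d1e0036ee0072c800c16801df000432c0014700051600224a002e38004618008c0000ce50006fe004cf400abe000000002f6400062400c74000df0003296003b7800bbb0016c1002174005a5800bb48018850031cc000a6800db8800000002506001fc4008b7800b70002cee00575800b4f001bb30033580068dc00c7180186e0026de004d7400a8080124100263c0056e400b79001266002e8e00718000eb1001cb5003b32007f0000d95801ed2003e7800774000f63001894))) 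
(.leaf (nat_lit 0x753000ea60000000000000000000000000000000000000000000000000000000000000000))) 
(.node (.node 
(.leaf (nat_lit 0x753000ea60000000000000000000000000000000000000000000000000000000000000000)) 
(.leaf (nat_lit 0xea6001d4c00000000000000000000000000000000000))) 
(.leaf (nat_lit 0x3a9800753000592c006d1800da3002259))))) (.node (.node (.node (.node 
(.leaf (nat_lit 0x753000ea600000000000000000000000000000000000000000)) 
(.leaf (nat_lit 0x1d4c003a98002b57006e1e00661c01b87801987))) (.node 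
(.leaf (nat_lit 0x3a98007530000000000000000e300000000000000000000000000000)) 
(.leaf (nat_lit 0x175b00137e00414200c4d8016d20022070040c600c44c0160e80269e001bba00c04401a34002c8d0000000045dc01a22802f32002bf400000001847802d5300608a00bc3c01822002b0f0036360000000000000000000000000cd1c0155a802a3c00526c00a54c013ec8028bf00559e009648015310029c800426200b4a001323802cb60050a600a730019630031450062b600b4e8017b2802bbd005b4e00a534018ef002de50058cc00b874016fb802733003876006e8401313801ef300328c006d5800ffc00244a003c26007d1000fe3001bd0003ebe008b30011618022700048a2008c3c00dc2000000004516004c90012d1001df0)))) 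
(.node (.node 
(.leaf (nat_lit 0x753000ea60000000000000000000000000000000000000000000000000000000000000000)) 
(.leaf (nat_lit 0x1d4c003a9800000000000000000000000000000))) 
(.leaf (nat_lit 0x5f10013dc0000000019e80056f000580001d800000000000000179a00000000000000000000000000000000000023ed00293800882c00fb0800e230010dc0045ac000398001c600000000542800bd78003a00000000059a00051080163b0030a2001c80002108019e20038d20024cc00718001c700030ee000c280000000019b00006600000000000000000000000000000000000000000000000000000062d8021710012200084ac00457800f84002e000037c00087c000ad8000168002f400094b0002cf000ebe0021bc00000000ae5)))) 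
(.node (.node (.node (.leaf (nat_lit 0x753000ea60005a080042d8000000010b600000000c6d8013d4)) 
(.leaf (nat_lit 0x3a980075300000000000000000000000000000000000000000000000))) 
(.leaf (nat_lit 0x3a9800000000000000000000000000000000000000000000000000000000000000000000000000000000000000000000000000000000000000000000000000000000000000000000000000000000000000000000000))) 
(.node (.node 
(.leaf (nat_lit 0x3a98007530000000000000000000000000000000000000000000000000000000000000000000000)) 
(.leaf (nat_lit 0x1d4c003a980000000000000000000000000000000000000000000000000000))) 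
(.leaf (nat_lit 0x753000ea6000000000e300008e700190c00000000000001256))))))) (.node (.node (.node 
(.node (.node (.node (.leaf (nat_lit 0x753000ea600000000000000000000000000000000000000000)) 
(.leaf (nat_lit 0xea6001d4c00120d002dd7005dba00223c01762000763))) (.node 
(.leaf (nat_lit 0x3a980075300026200007f8009a2000000000000000000000000011070000000007ac0099c0007bc)) 
(.leaf (nat_lit 0x3a9800753000000000000000000000000)))) (.node (.node 
(.leaf (nat_lit 0x1d4c003a98000f390000000000000008a0000000000000036980031d8013fb)) 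
(.leaf (nat_lit 0x17f40021e200594e00c0300095c802fe90025c800b934008a6002fd500601800ab3800621800000005fd000aa90009530000000057ae00af28006dc800fdd005f0e0092a00106f00227a004646007cc0013320025f6004a7a0088dc0110380125f00425600772c01365002896004c660087cc0145c80284a004f6600ae100171b802bb300584600a44c0186680302800602c00c6d8014b000253f0051d8009938014678023e10057ac00b42c004a5002ce70046d6006b0c00a70801bbb00331c006e0000f3a002396003d62008e6c00d5e002403003a08000000000000016140000000058a000e73001390))) 
(.leaf (nat_lit 0x753000ea600000000000000000000000000000000000000000)))) (.node (.node (.node 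
(.leaf (nat_lit 0x1d4c003a980000000000000000000000000000000000000000000000000000)) 
(.leaf (nat_lit 0x1d4c003a98001547002442000000004b9000dde00238c0002a400a22800000002e7c00563800a7d0000000018a6000000000d9000e1b00000000460000bfe001896))) 
(.leaf (nat_lit 0x753000ea60000000000000000000000000000000000000000000000000000000000000000))) 
(.node (.node 
(.leaf (nat_lit 0x753000ea600000000000000000000000000000000000000000000000000000000000000000000000000000000000000000000000000000000000000)) 
(.leaf (nat_lit 0xea6001d4c00000000000000000000000000000000000))) 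
(.leaf (nat_lit 0xea6001d4c00059c0015de002996005b0c00aa60006100018cc002c5000b91801561001882000000007968015ec))))) 
(.node (.node (.node (.node 
(.leaf (nat_lit 0x1d4c000000000000000000000000000000000000000000000000000000000000000000000000000000000)) 
(.leaf (nat_lit 0x1d4c003a98002770003f42007b8c00c58800a9b))) (.node 
(.leaf (nat_lit 0x3a9800753000221200309c0000000160c000000000000000000016b60033ba000000008ec801363)) 
(.leaf (nat_lit 0x753000ea600000000000000000000000000000000000000000)))) (.node (.node 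
(.leaf (nat_lit 0x1d4c003a98000000000000000000000000013830006920000000000000003400000000000000000000000)) 
(.leaf (nat_lit 0x1d4c003a980004110026f60055d0009ae0000000009f400000000000000000000000008a000086a800000))) 
(.leaf (nat_lit 0x1d4c003a98000d1c002afc00000000b570005e700000000693c00000000c8f)))) (.node (.node 
(.node (.leaf (nat_lit 0x753000ea60008488014bc0019180053a40065bc0149f800f5d)) 
(.leaf (nat_lit 0x1d4c003a98001329000000000a6c008ba800ab500268c00032c0001c00053f00044a0000000064e0000000034d600451400b2b8000000000000000000000000021d000000004f9000c98001825))) 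
(.leaf (nat_lit 0x753000ea60000000000000000000000000000000000000000000000000000000000000000))) 
(.node (.node 
(.leaf (nat_lit 0x753000ea60001190000000000000000740000000000000000000000000000000000000000)) 
(.leaf (nat_lit 0x3a98007530004a0c00b99000a3e802597))) 
(.leaf (nat_lit 0x3a980075300055bc007038006e38016ea00081a00678c001ec801fdd)))))) (.node (.node 
(.node (.node (.node (.leaf (nat_lit 0x753000ea600000000000000000000000000000000000000000)) 
(.leaf (nat_lit 0x1d4c003a98002b460057cc00a1b401684802fca))) (.node 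
(.leaf (nat_lit 0xfc8003858007f68003bd000000001db4000000000000000000044c400ba880021d000e72000bec00b3300185900000000101800c4980069c0000000064c400d2a0003470000000026d0004a20007c800109e002a1000f0e000d5d0038ec00340400f06000d72003d860000000003500033b00004a0000000002d800000000000000000000000000000000000012140000000000000000000445800c4e80104d002e6400703c008f4001c1a00207e004e5c00bf40007d60012920000000034c80079d00005600013c0000000000000000000183000000000730000f24002074000000000000004ca00016400346000761000cba001ad8003f88006bb0000000024dc004c28000000000000019d8002a2800d0500000000000000000000000000000000000000000000000000000023e8003dc000f1f001c6c003f0c007fa000a1200190600207c0062a000436)) 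
(.leaf (nat_lit 0x1d4c003a980014b8002b9000548000000000da4)))) (.node (.node 
(.leaf (nat_lit 0x753000ea600041ac006e2800ddb000000002b30003a980133c)) 
(.leaf (nat_lit 0x1d4c003a980000000000000000000000000000000000000000000000000000))) 
(.leaf (nat_lit 0x1d4c003a98001c5600480c004f94011da801138003026000000006b8000000001f40004ee800c848003d3)))) 
(.node (.node (.node (.leaf (nat_lit 0x1d4c003a9800000000000000000000000000000)) 
(.leaf (nat_lit 0x753000ea60000000000000000000000000000000000000000000000000000000000000000))) 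
(.leaf (nat_lit 0x1d4c003a98000336001dc000000000adf000f180000000057d000000000000))) (.node (.node 
(.leaf (nat_lit 0x3a9800000000000000000000000000000000000000000000000000000000000000000000000000000000000000000000000000000000000000000000000000000000000000000000000000000000000000000000000)) 
(.leaf (nat_lit 0xea6001d4c001572802beb005fba00c5ac018d780191d))) 
(.leaf (nat_lit 0x3a9800753000000000712000dcf000b8d))))) (.node (.node (.node (.node 
(.leaf (nat_lit 0x1d4c003a9800000000000000000000000000000)) 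
(.leaf (nat_lit 0x1d4c003a98002350005ef400461c01776800dfd))) (.node 
(.leaf (nat_lit 0x1d4c003a98000000000000000000000000000000000000000000000000000000000000000000000000000)) 
(.leaf (nat_lit 0x1d4c003a9800116d00324a00000000b34800000001da80047500033b000ee9)))) (.node (.node 
(.leaf (nat_lit 0x753000ea60000000000000000000000000000000000000000000000000000000000000000)) 
(.leaf (nat_lit 0x3a9800753000000000000000000000000))) 
(.leaf (nat_lit 0x1d4c003a9800000000000000000000000000000000000000e0400000000000)))) (.node (.node 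
(.node (.leaf (nat_lit 0x753000ea600062c800e96801275003b4e001cbc00eb3800000)) 
(.leaf (nat_lit 0x3a980075300000000000000000000000000000000000000000000000))) 
(.leaf (nat_lit 0x1d4c003a980000000000000000000000000000000000000000000000000000000000000000000000000000000000000000000000000000000000000000000000000))) 
(.node (.node (.leaf (nat_lit 0x1d4c003a980000000000000000000000000000000000000000000000000000)) 
(.leaf (nat_lit 0xbc6c009b300201800686400bcb40000000073500680000bc380115a8000000067ee00849801936003288006844003838019ff8018170067d800581401936802e3500530200bb58015d8002c9e0059ca00a65c012700023df00492400908c010900031ca00557000c0ec0166780330a005d7200c220016f0802f1500599400cfc801938803287005b9000bbc80155e002ed4005456008b4c01298802813004c000090e400d350002c30025e8000dc800a0e001a400021b2008d1000f2b801e2c003e80007c7801157002342003726003cbc0099e000e2a002a7a00644000d0f8016a000260200602400f830000000039c600635400eae801924003f8a00784c00ee3801f87003bca0084c40129b0011090016ea0016640123d001d36003abc00743400de38021ac002e8c006200009fe00176b0000000000480069d000e7a003b8e00a9d4011a98026b00049b8000000012ad801c7b004b7a00832000fda0026170042be0063a000000000b5e00390e00464c0146e0023bb)))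 
(.leaf (nat_lit 0x753000ea6000000000e300008e700190c00000000000001256))))))))) (.node (.node (.node 
(.node (.node (.node (.node (.node 
(.leaf (nat_lit 0x1d4c003a980000000000000000000000000000000000000000000000000000)) 
(.leaf (nat_lit 0xbfa40115d802db4005d4e003ce4014890020ef00532600aa540118c8010ea0000000000e80000000000000000000000000000002d9b00544e0049900087a002f95005d4e003ce4014c98029120041de00aa540118c8010ea0000000000e80000000000000000000000000000002d9b00544e0049900087a002f95004f400083bc014bd8022bc004f400083bc014bd8022bc004b860093b801424802775004ee600c690018d2002fc60062ee00b308012e9002cc2004ba400aea0014988025ae0052620096b80120580240100190a006684004a4801b76002bd60073d800b188000000026a200675000000001c3f000000006dd8006428019a10012920057ac00e7b001631000000004d4400cea00000000387e0000000111780222f00446c0059b000b36001bd0))) 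
(.node 
(.leaf (nat_lit 0x3a980075300040900087d00003c801f6c0001560018dc00a13001982003de00040c4011c300187a)) 
(.leaf (nat_lit 0x1d4c003a980004110026f60055d0009ae0000000009f400000000000000000000000008a000086a800000)))) 
(.node (.node (.leaf (nat_lit 0x753000ea60005c9000abe800000001bba00636c008ae001c24)) 
(.leaf (nat_lit 0x3a980075300056ea00c824017c0002ec30050b000aecc00ff1800455))) 
(.leaf (nat_lit 0x125b000000000000008ed0000000021a4000000008820000000024f40044d4000000010960023940000000000000104d002358000000000000011d9001aa20042d40085f0012450023e40036ec00dd600171a0036f600674000ddb0019fd00406e00811000ec58021a20036aa00739400f7e0023b1003c500062a40129a8025e4004870006c84000000000000000000000000000000000000000000000000000000000000000000000000000000000000000000000000000000000000000000000000000000000000000000000000000000000000000000000000000000000000000000000000797000000000d7000000001350000000000188002f8000000000000000000004a1800000)))) 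
(.node (.node (.node 
(.leaf (nat_lit 0x1d4c000000000000000000000000000000000000000000000000000000000000000000000000000000000)) 
(.leaf (nat_lit 0xea6001d4c0000000000000000000000000000000000000000000000000000000000))) 
(.leaf (nat_lit 0x1d4c003a98000000000000000000000000013830006920000000000000003400000000000000000000000))) 
(.node (.node (.leaf (nat_lit 0x1d4c003a98000b18003b460033a0003f1800000000000002ad800000001bf2)) 
(.leaf (nat_lit 0x1d4c003a9800101a0025d400000000000000000))) 
(.leaf (nat_lit 0x753000ea60000000000000000000000000000000000000000000000000000000000000000))))) 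
(.node (.node (.node (.node (.leaf (nat_lit 0x753000ea600000000064f000182001a2c000d0c00000000000)) 
(.leaf (nat_lit 0x1d4c003a98001280001c0e000000000000008bb))) (.node 
(.leaf (nat_lit 0xea6001d4c00059c0015de002996005b0c00aa60006100018cc002c5000b91801561001882000000007968015ec)) 
(.leaf (nat_lit 0x3a980075300054aa00826800fb2800ebe)))) (.node (.node (.leaf (nat_lit 0x0)) 
(.leaf (nat_lit 0xbc6c009b300201800686400bcb40000000073500680000bc380115a8000000067ee00849801936003288006844003838019ff8018170067d800581401936802e3500530200bb58015d8002c9e0059ca00a65c012700023df00492400908c010900031ca00557000c0ec0166780330a005d7200c220016f0802f1500599400cfc801938803287005b9000bbc80155e002ed4005456008b4c01298802813004c000090e400d350002c30025e8000dc800a0e001a400021b2008d1000f2b801e2c003e80007c7801157002342003726003cbc0099e000e2a002a7a00644000d0f8016a000260200602400f830000000039c600635400eae801924003f8a00784c00ee3801f87003bca0084c40129b0011090016ea0016640123d001d36003abc00743400de38021ac002e8c006200009fe00176b0000000000480069d000e7a003b8e00a9d4011a98026b00049b8000000012ad801c7b004b7a00832000fda0026170042be0063a000000000b5e00390e00464c0146e0023bb)))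 
(.leaf (nat_lit 0x753000ea6000a3a000f53001c9a000144007acc00a040001500000000079dc00e6300201e)))) 
(.node (.node (.node (.leaf (nat_lit 0x753000ea60004ff401068001ee30040200012b4010998005e3)) 
(.leaf (nat_lit 0x3a980075300000000000000000000000000000000000000000000000))) 
(.leaf (nat_lit 0x3a98007530000000000000000000000000000000000000000000000000000000000000000000000))) 
(.node (.node 
(.leaf (nat_lit 0xea6001d4c000000000000000000000000000000000000000000000000000000000000000000000000000000000)) 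
(.leaf (nat_lit 0x753000ea6000000000902800a070003e200000000165000d20))) 
(.leaf (nat_lit 0x753000ea6000244c00f66801abd002f120027b80108f001c03)))))) (.node (.node (.node 
(.node (.node (.leaf (nat_lit 0x753000ea6000000000ab2001016003b9c0011e000eeb800000)) 
(.leaf (nat_lit 0x3a980075300027ac004b40002c78000000027e400000000a09000000))) (.node 
(.leaf (nat_lit 0x1d4c003a98000a7f00274000000000c2a0000000035ca00000001027802093)) 
(.leaf (nat_lit 0x3a9800753000000000000000000000000)))) (.node (.node 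
(.leaf (nat_lit 0x1d4c003a9800000000000000000000000000000)) 
(.leaf (nat_lit 0x3a98007530004dc200bc2800b58002b00))) 
(.leaf (nat_lit 0x1d4c003a98000e970039da005b3800e248010db003b0000000000c0100193200418400687c00e650003f2)))) 
(.node (.node (.node 
(.leaf (nat_lit 0x17d400000000000000b05800000002b7200574400000000000002b3000607400aa580158c0021ac000000000000000000000000056c000b05800000002b720057440000000000000303a00552c00acc00158c0021ac000000000000000000000000056c000b348013b4002cd2004ed000b910025c60043ae009718010eb802295003896008a5400e258022bc0038ba00947401577802aef00557a00aa0000000000000000000000000008240000000000000000000000000000000000000412000000000000)) 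
(.leaf (nat_lit 0xea6001d4c0001650000000000000000000000000000000279c00000000972000292))) 
(.leaf (nat_lit 0x753000ea600000000000000000000000000000000000000000000000000000000000000000000000000000000000000000000000000000000000000))) 
(.node (.node 
(.leaf (nat_lit 0x1d4c003a98000000000000000000000000000000000000000000000000000000000000000000000000000)) 
(.leaf (nat_lit 0x753000ea600000000000000000000000000000000000000000))) 
(.leaf (nat_lit 0x2e890020340083c001a2b8013aa00648000bab000ac900000000627a0064b8018b4002eeb00593800b5980142c80345700275400c9000175600159200000000c4f400c97002c9c0062d000bbac016b3002859005dc000ac0801644000f80005dc000ac0801644000f80005afe00aed401a4d00300900693400c024019c980316200309c00c58800c270030fc0057da00c7b8016fb8031ee005bee00c420017e6802f6f004fa4007fd800fc9802315004cbc007fd8013e9001f9300462a009978013e68027cd005056004b0800961002936))))) 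
(.node (.node (.node (.node (.leaf (nat_lit 0x753000ea600000000000000000000000000000000000000000)) 
(.leaf (nat_lit 0x5ed00089e40169e0027290058e800a7d4015b480263e000000001468000000000000000000001e40041d000000005f90004ac0017828023750023a800432001832002c740053ea009ca4015b480263e000000001468000000000000000000001e40041d000000005f90004ac0017828023750023a80043200183200284a00544c00a128015130027000052f400a10801922002c9600648800b2580188000301f00648c00b59400f89002d65003e2400a0d40120180283500480600a500011c2002cb70032cc005d7000e18801714002f6c0076380071f001b58003a82005d9c00bae001c31002e2800659800bdb001d8e001c7c006d6000ea0801767))) 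
(.node (.leaf (nat_lit 0x1d4c0000000000000000000000000000000000000000000000000000000000)) 
(.leaf (nat_lit 0xea6001d4c00000000000000000000000000000000000)))) (.node (.node 
(.leaf (nat_lit 0x753000ea60000000000000000000000000000000000000000000000000000000000000000)) 
(.leaf (nat_lit 0x3a9800753000000000000000000000000))) 
(.leaf (nat_lit 0x3a9800753000221200309c0000000160c000000000000000000016b60033ba000000008ec801363)))) 
(.node (.node (.node (.leaf (nat_lit 0x1d4c003a98002bb8004b2c00403c012cb00100f)) 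
(.leaf (nat_lit 0x3a98007530000000003eac0082200000000000000000000000000000))) 
(.leaf (nat_lit 0x3a9800000000000000000000000000000000000000000000000000000000000000000000000000000000000000000000000000000000000000000000000000000000000000000000000000000000000000000000000))) 
(.node (.node 
(.leaf (nat_lit 0xea60000000000000000000000000000000000000000000000000000000000000000)) 
(.leaf (nat_lit 0x642800b3e000930004a680093e400c8f000000004dfc0085c0004ba000000004cbc0025bc012a900260c00498a003c9001376800bf0004cc20037d80125580244a00388c00956800e510024fd0049d4007d4000e70001e7f0034bc00749800c3b0026c100407a00928401275802d6f004ba800ae7c0145e802a8100494800bbe00173300245a0052f200a78c0146a802a490049c2004788002e080059a001342001e70006fa0000000000000035b4004c8000914002d44007b6800cd20019d60035220063b000f37001e9c001226000000007b680031600288800480400d95801e45003cd600786000647800000002b9a00211800715801b6e002b800067ec00e1c001d26003126008e8800aaf00000000279e00214800cc0801f720036ac007e6c00de2002141003b8800761800c7e001d380020b600707400d15801a2f0026ba00a4f000c7200250c002e2c000000009ef8012c400281c00512c0089f8014a9002a4e004224002480000000011f800126800bdf801684)))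 
(.leaf (nat_lit 0xea6001d4c0008f2001c30003768000c1c00e4980185c00041c0045f000000000766))))))) (.node 
(.node (.node (.node (.node (.node 
(.leaf (nat_lit 0x753000ea600000000000000000000000000000000000000000)) 
(.leaf (nat_lit 0x3a9800753000137000582c00afc800000003c8e00000001080800000))) (.node 
(.leaf (nat_lit 0x753000ea6000a3a000f53001c9a000144007acc00a040001500000000079dc00e6300201e)) 
(.leaf (nat_lit 0x3a9800753000000000000000000000000)))) (.node (.node 
(.leaf (nat_lit 0x753000ea600041ac006e2800ddb000000002b30003a980133c)) 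
(.leaf (nat_lit 0x3a980075300047f60023a000e08800d810003a400869c00e4f80235e))) 
(.leaf (nat_lit 0x75300000000000000000000000000000000000000000000000000000000000000000000000000000000000000000000000000000000000000000000000000000000000000000000000000000000000000000000000000000000000000000)))) 
(.node (.node (.node (.leaf (nat_lit 0x753000ea600000000000000000000000000000000000000000)) 
(.leaf (nat_lit 0xea6001d4c0015988025e6000dd200979800374802092000b52008248002d4800bed))) 
(.leaf (nat_lit 0x753000ea60000000000000000000000000000000000000000000000000000000000000000))) 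
(.node (.node 
(.leaf (nat_lit 0x3a98007530000000000000000000000000000000000000000000000000000000000000000000000)) 
(.leaf (nat_lit 0x9df8013970000000093ac01170001d140042a8009368011958022710047460097bc012188000000015f80064f0011f00015d700363600841800000001d290043b60069b001119800dc200344200000001096000df30000000094c80112b001f3f003cae000000011d9802142004846004c1c007bf801d0e002cf600859800ebd8022150033400086cc0124e802498004d280083540108c001fc300422200734c0118c8023850044da00821800e1480199c0036be006b0800d02801d9300412a00820000d99001bbb0039c4008abc011eb80227d0048d200753000e0880032f00335200705800fb700225b003a080047f40116e8011b7))) 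
(.leaf (nat_lit 0x3a9800000000000000000000000000000000000000000000000000000000000000000000000000000000000000000000000000000000000000000000000000000000000000000000000000000000000000000000000))))) 
(.node (.node (.node (.node (.leaf (nat_lit 0x0)) 
(.leaf (nat_lit 0x1d4c003a98001280001c0e000000000000008bb))) (.node 
(.leaf (nat_lit 0x753000ea60000000000000000000000000000000000000000000000000000000000000000)) 
(.leaf (nat_lit 0x753000ea600000000000000000000000000000000000000000)))) (.node (.node 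
(.leaf (nat_lit 0x1d4c003a98000000000000000628000000000000000000000000000000000000000000000000000000000)) 
(.leaf (nat_lit 0x1d4c003a98000f3500000000000000d4c00203b002f52000000007c780164d))) 
(.leaf (nat_lit 0x753000ea600084c4000000013b900000000492c00000001181002250001dac000000012220010f6003c7400897000445000000000000005cf001030)))) 
(.node (.node (.node (.leaf (nat_lit 0x753000ea60008fdc014bb000f710052ec003dc4014a40024ce)) 
(.leaf (nat_lit 0x3a980075300047f60023a000e08800d810003a400869c00e4f80235e))) 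
(.leaf (nat_lit 0x1d4c003a980000000000000000000000000000000000000000000000000000))) (.node (.node 
(.leaf (nat_lit 0x125b000000000000008ed0000000021a4000000008820000000024f40044d4000000010960023940000000000000104d002358000000000000011d9001aa20042d40085f0012450023e40036ec00dd600171a0036f600674000ddb0019fd00406e00811000ec58021a20036aa00739400f7e0023b1003c500062a40129a8025e4004870006c84000000000000000000000000000000000000000000000000000000000000000000000000000000000000000000000000000000000000000000000000000000000000000000000000000000000000000000000000000000000000000000000000797000000000d7000000001350000000000188002f8000000000000000000004a1800000)) 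
(.leaf (nat_lit 0x3a9800753000232e00385800e7c0000c5))) 
(.leaf (nat_lit 0x5d08004c48010a380345700000000c9200000000347a0020cc00d1ec018b28002ec00647e00c7b000d180018420064ea00b99c00a26801bc30068f600c0c8016fd002b63005da400a34c0164e8028c8005db200a820018af0028870062ae00ada001881802a6d00675e00d238015d380349a005b7600bafc01479802c3d005a2e00a4d80188a0031db005f60008fa4011a800231100340c008d7000c920010da0023d200000000000000dc000318600000000acb000ec600360400153400a24000eaa00302000638800d4500131e002de200706800e940005b2000e3600000000d7b800000000000004a1800a0f0019210025b2001fec01261801c290045bc00790000fbd801b1d0043d00000000112700274b004496007f2c011bc8029df00138800773000f5e801e940043120078b4013e68027cf005048007d1c00cf38028d0)))))) 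
(.node (.node (.node (.node (.node 
(.leaf (nat_lit 0x1d4c003a98000000000000000000000000000000000000000000040f000b46)) 
(.leaf (nat_lit 0x174d8012c7003db000bf38011410030ec00461e008b1c003940030eb0051ba00cc0c000000030b3005d6000c2e40169200304500583a0081f800bea8008ac0023520000000000000000000000000d074016d300153000000000d074016bf0027ec00535c00a310013f7002759004e0400aa4c011f6802a5100471400aa8400ef78032860061aa00cac801959802da50057e600ac5c0165c8029f0004fd0009fac012908022ca0044220074c000e758023570044a40054a400e1800200f003e9c000d9000d67801b12002e0200670800f63001a2400305c000000010bc002113004326006650011900023d7))) 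
(.node 
(.leaf (nat_lit 0x3a98007530002cec00000000bca0000000007fc0050740034580183500000000555000b66000ad9)) 
(.leaf (nat_lit 0x3a9800753000593c00c5900140180318b)))) (.node (.node 
(.leaf (nat_lit 0x1d4c000000000000000000000000000000000000000000000000000000000000000000000000000000000)) 
(.leaf (nat_lit 0x1d4c003a9800000000000000000000000000000000000000000000000000000000000000000000000000000000000000000000000000))) 
(.leaf (nat_lit 0x3a980075300040900087d00003c801f6c0001560018dc00a13001982003de00040c4011c300187a)))) 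
(.node (.node (.node 
(.leaf (nat_lit 0x753000000000000000000000000000000000000000000000000000000000000000000000000000000000000000000000)) 
(.leaf (nat_lit 0x753000ea60000000000000002200000000000000009e0000b800000000000000000000d5b))) 
(.leaf (nat_lit 0x1d4c003a98000b18003b460033a0003f1800000000000002ad800000001bf2))) (.node (.node 
(.leaf (nat_lit 0x3a9800000000000000000000000000000000000000000000000000000000000000000000000000000000000000000000000000000000000000000000000000000000000000000000000000000000000000000000000)) 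
(.leaf (nat_lit 0x175b00137e00414200c4d8016d20022070040c600c44c0160e80269e001bba00c04401a34002c8d0000000045dc01a22802f32002bf400000001847802d5300608a00bc3c01822002b0f0036360000000000000000000000000cd1c0155a802a3c00526c00a54c013ec8028bf00559e009648015310029c800426200b4a001323802cb60050a600a730019630031450062b600b4e8017b2802bbd005b4e00a534018ef002de50058cc00b874016fb802733003876006e8401313801ef300328c006d5800ffc00244a003c26007d1000fe3001bd0003ebe008b30011618022700048a2008c3c00dc2000000004516004c90012d1001df0))) 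
(.leaf (nat_lit 0x1d4c003a980005b4002b30007dc800a6a002098))))) (.node (.node (.node (.node 
(.leaf (nat_lit 0x753000ea600000000000000000000000000000000000000000)) 
(.leaf (nat_lit 0x3a98007530001d94005b9800a25000000))) (.node (.leaf (nat_lit 0x0)) 
(.leaf (nat_lit 0xea6001d4c00144980207d0008a60080d800aad001ec4)))) (.node (.node 
(.leaf (nat_lit 0x753000ea600000000000000000000000000000000000000000000000000000000000000000000000000000000000000000000000000000000000000)) 
(.leaf (nat_lit 0x3a9800753000000000000000000000000))) 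
(.leaf (nat_lit 0x3a98007530000000000000000e300000000000000000000000000000)))) (.node (.node (.node 
(.leaf (nat_lit 0x1d4c003a980024cd00000000000000e72001a84003a4200620000f8e0020b6)) 
(.leaf (nat_lit 0x1d4c003a980000000000000000000000000000000000000000000000000000))) 
(.leaf (nat_lit 0xea6001d4c000000000000000000000000000000000000000000000000000000000000000000000000000000000))) 
(.node (.node (.leaf (nat_lit 0x1d4c003a98000f220038ae004fa800e0e800f900000000066280062e801b8d)) 
(.leaf (nat_lit 0x1d4c003a980000000000000000000000000000000000000000000000000000))) 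
(.leaf (nat_lit 0xea6001d4c0008f2001c30003768000c1c00e4980185c00041c0045f000000000766)))))))) 
(.node (.node (.node (.node (.node (.node (.node 
(.leaf (nat_lit 0x1d4c003a980000000000000000000000000000000000000000000000000000)) 
(.leaf (nat_lit 0x3a9800753000137000582c00afc800000003c8e00000001080800000))) (.node 
(.leaf (nat_lit 0x1d4c003a98001c5600480c004f94011da801138003026000000006b8000000001f40004ee800c848003d3)) 
(.leaf (nat_lit 0x1d4c003a980003860027140000000000000000000246200000000000000fbf)))) (.node (.node 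
(.leaf (nat_lit 0x1d4c003a980000000000000000000000000000000000000000000000000000)) 
(.leaf (nat_lit 0x3a9800753000000000000000000000000000000003ae000ac3001320))) 
(.leaf (nat_lit 0xea60000000000000000000000000000000000000000000000000000000000000000)))) (.node 
(.node (.node (.leaf (nat_lit 0xea6001d4c00000000000000000000000000000000000)) 
(.leaf (nat_lit 0xea6001d4c0000000000000000000000000000000000000000000000000000000000))) 
(.leaf (nat_lit 0x753000ea600000000000000000000000000000000000000000000000000000000000000000000000000000000000000000000000000000000000000))) 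
(.node (.node (.leaf (nat_lit 0x1d4c003a98000c4000322000246400a888011e7000000005aac00000001bfa)) 
(.leaf (nat_lit 0x1d4c003a980014b8002b9000548000000000da4))) 
(.leaf (nat_lit 0xfc8003858007f68003bd000000001db4000000000000000000044c400ba880021d000e72000bec00b3300185900000000101800c4980069c0000000064c400d2a0003470000000026d0004a20007c800109e002a1000f0e000d5d0038ec00340400f06000d72003d860000000003500033b00004a0000000002d800000000000000000000000000000000000012140000000000000000000445800c4e80104d002e6400703c008f4001c1a00207e004e5c00bf40007d60012920000000034c80079d00005600013c0000000000000000000183000000000730000f24002074000000000000004ca00016400346000761000cba001ad8003f88006bb0000000024dc004c28000000000000019d8002a2800d0500000000000000000000000000000000000000000000000000000023e8003dc000f1f001c6c003f0c007fa000a1200190600207c0062a000436))))) 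
(.node (.node (.node (.node (.leaf (nat_lit 0x1d4c003a9800000000000000000000000000000)) 
(.leaf (nat_lit 0x174d8012c7003db000bf38011410030ec00461e008b1c003940030eb0051ba00cc0c000000030b3005d6000c2e40169200304500583a0081f800bea8008ac0023520000000000000000000000000d074016d300153000000000d074016bf0027ec00535c00a310013f7002759004e0400aa4c011f6802a5100471400aa8400ef78032860061aa00cac801959802da50057e600ac5c0165c8029f0004fd0009fac012908022ca0044220074c000e758023570044a40054a400e1800200f003e9c000d9000d67801b12002e0200670800f63001a2400305c000000010bc002113004326006650011900023d7))) 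
(.node 
(.leaf (nat_lit 0x1d4c003a980025cc00469c007ad800ba5801ed20000000019fc00e198018e3001f3c007928001a60023ad)) 
(.leaf (nat_lit 0xea6001d4c00000000000000000000000000000000000)))) (.node (.node 
(.leaf (nat_lit 0x1d4c003a98000000000000000000000000000000000000000000000000000000000000000000000000000)) 
(.leaf (nat_lit 0x1d4c003a98001201003438005a6c008b08009900000000000000054b80000000202800582800b0a00000000000000000000000000000))) 
(.leaf (nat_lit 0x1d4c003a98000a7f00274000000000c2a0000000035ca00000001027802093)))) (.node (.node 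
(.node (.leaf (nat_lit 0x753000ea60004ff401068001ee30040200012b4010998005e3)) 
(.leaf (nat_lit 0x3a980075300056ea00c824017c0002ec30050b000aecc00ff1800455))) 
(.leaf (nat_lit 0x1d4c003a98000000000000000000000000000000000000000000000000000000000000000000000000000))) 
(.node (.node 
(.leaf (nat_lit 0x1d4c003a980000000000000000000000000000000000000000000000000000000000000000000000000000000000000000000000000000000000000000000000000)) 
(.leaf (nat_lit 0x17f40021e200594e00c0300095c802fe90025c800b934008a6002fd500601800ab3800621800000005fd000aa90009530000000057ae00af28006dc800fdd005f0e0092a00106f00227a004646007cc0013320025f6004a7a0088dc0110380125f00425600772c01365002896004c660087cc0145c80284a004f6600ae100171b802bb300584600a44c0186680302800602c00c6d8014b000253f0051d8009938014678023e10057ac00b42c004a5002ce70046d6006b0c00a70801bbb00331c006e0000f3a002396003d62008e6c00d5e002403003a08000000000000016140000000058a000e73001390))) 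
(.leaf (nat_lit 0x753000ea6000244c00f66801abd002f120027b80108f001c03)))))) (.node (.node (.node 
(.node (.node (.leaf (nat_lit 0x1d4c003a980000000000000000000000000000000000000000000000000000)) 
(.leaf (nat_lit 0x3a980075300027ac004b40002c78000000027e400000000a09000000))) (.node 
(.leaf (nat_lit 0x3a98007530002cd60045000083d8008060000000018000036680131f0000000068a400cf6800000)) 
(.leaf (nat_lit 0x3a9800753000000000000000000000000)))) (.node (.node 
(.leaf (nat_lit 0x2ae4008318013fe000ffc000000009b78017e400091a00000000dbe001b7d000000000000004c2800000000ce800000000bfb8016c800312200548c00ae30005370015d600000000529800fb00013c200815000dbf800a40001c88008388007b1801e15003e4400748800f6e0018f3002bd0002bf8002270000e700403a0010c4000000006ad0014ee0005d800000000a89000000001684000000000000000000000b8007aa8029350020480060580088c001365003be600543800ace800d5400307e001e2c00ccc000cd0000836006eb000763801ef8)) 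
(.leaf (nat_lit 0x3a98007530004a0c00b99000a3e802597))) 
(.leaf (nat_lit 0x1d4c003a98000f220038ae004fa800e0e800f900000000066280062e801b8d)))) (.node (.node 
(.node 
(.leaf (nat_lit 0x753000000000000000000000000000000000000000000000000000000000000000000000000000000000000000000000)) 
(.leaf (nat_lit 0x3a98007530000000003eac0082200000000000000000000000000000))) 
(.leaf (nat_lit 0x1d4c003a980000000000000000000000000000000000000000000000000000))) (.node (.node 
(.leaf (nat_lit 0x3a98007530000000000000006da80000000000000000000000000000000000002f200062f000000)) 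
(.leaf (nat_lit 0xea6001d4c00000000000000000000000000503800000))) 
(.leaf (nat_lit 0x1d4c003a980005b4002b30007dc800a6a002098))))) (.node (.node (.node (.node 
(.leaf (nat_lit 0x1d4c003a980000000000000000000000000000000000000000000000000000)) 
(.leaf (nat_lit 0x3a98007530001d94005b9800a25000000))) (.node 
(.leaf (nat_lit 0x1d4c003a9800000000000000000000000000000000000000e0400000000000)) 
(.leaf (nat_lit 0xea6001d4c001572802beb005fba00c5ac018d780191d)))) (.node (.node 
(.leaf (nat_lit 0x753000ea600000000000000000000000000000000000000000000000000000000000000000000000000000000000000000000000000000000000000)) 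
(.leaf (nat_lit 0x1d4c003a9800000000000000000000000000000))) 
(.leaf (nat_lit 0x3a980075300000000000000000000000000000000000000000000000)))) (.node (.node (.node 
(.leaf (nat_lit 0x1d4c003a980024cd00000000000000e72001a84003a4200620000f8e0020b6)) 
(.leaf (nat_lit 0x753000ea60000000000000002200000000000000009e0000b800000000000000000000d5b))) 
(.leaf (nat_lit 0x1d4c003a980000000000000000000000000000000000000000000000000000000000000000000000000000000000000000000000000000000000000000000000000))) 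
(.node (.node 
(.leaf (nat_lit 0x1d4c003a980008fb001a24000000008c100000000000000000000582800000001e2c0000000097a0000f7)) 
(.leaf (nat_lit 0x1d4c003a98000000000000000000000000000000000000000000000000000000000000000000000000000))) 
(.leaf (nat_lit 0x5d08004c48010a380345700000000c9200000000347a0020cc00d1ec018b28002ec00647e00c7b000d180018420064ea00b99c00a26801bc30068f600c0c8016fd002b63005da400a34c0164e8028c8005db200a820018af0028870062ae00ada001881802a6d00675e00d238015d380349a005b7600bafc01479802c3d005a2e00a4d80188a0031db005f60008fa4011a800231100340c008d7000c920010da0023d200000000000000dc000318600000000acb000ec600360400153400a24000eaa00302000638800d4500131e002de200706800e940005b2000e3600000000d7b800000000000004a1800a0f0019210025b2001fec01261801c290045bc00790000fbd801b1d0043d00000000112700274b004496007f2c011bc8029df00138800773000f5e801e940043120078b4013e68027cf005048007d1c00cf38028d0))))))) 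
(.node (.node (.node (.node (.node (.node 
(.leaf (nat_lit 0x753000ea60001df000ee2000d4c003aa6002d3800f1f00025c)) 
(.leaf (nat_lit 0x5e5e004edc0104a0032c400000000b8b4018088031d9005d7e00b81801047802197000000000dfc00a1e0033b30032d600c7ec0179a8032c400000000c044018ec802e2d005d7e00b81801047802197000000000dfc00a1e0033b30032d600c7ec0179a802daa0056160096cc011c0802daa0056160096cc011c08031790054f400bf64017880033df0067be00cec801901002ea400597e00ba900165f802d6300342a00953c010c5001c62000000007e74010a7000000003ecc0080f0008b6801de100000000718800d0a80254f00431400000000fce80214e000000007d980101e00116d003bc20000000121a002434004924007da000fb4002820))) 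
(.node 
(.leaf (nat_lit 0x753000ea600084c4000000013b900000000492c00000001181002250001dac000000012220010f6003c7400897000445000000000000005cf001030)) 
(.leaf (nat_lit 0x1d4c003a9800000000000000000000000000000)))) (.node (.node 
(.leaf (nat_lit 0x753000ea60009db801301002160004da800535401326801625)) 
(.leaf (nat_lit 0x3a9800753000597400cfa401b57801d57))) 
(.leaf (nat_lit 0x1d4c003a980008fb001a24000000008c100000000000000000000582800000001e2c0000000097a0000f7)))) 
(.node (.node (.node 
(.leaf (nat_lit 0x1d4c003a980000000000000000000000000000000000000000000000000000)) 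
(.leaf (nat_lit 0xea6001d4c0001650000000000000000000000000000000279c00000000972000292))) 
(.leaf (nat_lit 0x753000ea600000000000000000000000000000000000000000000000000000000000000000000000000000000000000000000000000000000000000))) 
(.node (.node (.leaf (nat_lit 0x1d4c003a980000000000000000000000000000000000000000000000000000)) 
(.leaf (nat_lit 0xea6001d4c00000000000000000000000000000000000))) 
(.leaf (nat_lit 0x1d4c003a98000a5500000000144800333800dd20000000000000061b00000000000000000000000000e810000000043c4007590016d90027300053a80078e800dfa))))) 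
(.node (.node (.node (.node 
(.leaf (nat_lit 0x1d4c000000000000000000000000000000000000000000000000000000000000000000000000000000000)) 
(.leaf (nat_lit 0x3a980075300016ee005c140075000066d002c5800378400000000000))) (.node 
(.leaf (nat_lit 0x5f10013dc0000000019e80056f000580001d800000000000000179a00000000000000000000000000000000000023ed00293800882c00fb0800e230010dc0045ac000398001c600000000542800bd78003a00000000059a00051080163b0030a2001c80002108019e20038d20024cc00718001c700030ee000c280000000019b00006600000000000000000000000000000000000000000000000000000062d8021710012200084ac00457800f84002e000037c00087c000ad8000168002f400094b0002cf000ebe0021bc00000000ae5)) 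
(.leaf (nat_lit 0xea6001d4c00000000000000000000000000000000000)))) (.node (.node 
(.leaf (nat_lit 0x753000ea600000000000000000000000000000000000000000000000000000000000000000000000000000000000000000000000000000000000000)) 
(.leaf (nat_lit 0x990000000000000005b8c00e1a801789002fb4007bc800c64001949000000004c4c00a8b801fdc001f42006180008398015790000000088dc011430019f20037320090d800fad8021b30036ac00791400ae9800000000e9e004f38004de0017cc004146004f2400eec00048900000000706000de50000000044ec00866c0115f0021a7003a6800803000ec6801eca0033b0003f7800810001e9200104c00075000506800c82002be000647400cc3801d59003c3000667000c60001a28002e08006f6800bf7001823000ef600348000cab001bee))) 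
(.leaf (nat_lit 0x3a98007530001ab20035cc00d28001721000000005e0000b5c0000000037220000000080900113c)))) 
(.node (.node (.node (.leaf (nat_lit 0x753000ea60008488014bc0019180053a40065bc0149f800f5d)) 
(.leaf (nat_lit 0x3a9800753000000000000000000000000000000003ae000ac3001320))) 
(.leaf (nat_lit 0x3a98007530000000000000006da80000000000000000000000000000000000002f200062f000000))) 
(.node (.node 
(.leaf (nat_lit 0x75300000000000000000000000000000000000000000000000000000000000000000000000000000000000000000000000000000000000000000000000000000000000000000000000000000000000000000000000000000000000000000)) 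
(.leaf (nat_lit 0x1d4c003a9800097d000eee0032ec00bde0005cd0038ca000000009a8001b77))) 
(.leaf (nat_lit 0x1d4c003a9800108e001564007f3000ce7001dd1)))))) (.node (.node (.node (.node (.node 
(.leaf (nat_lit 0x753000ea600000000000000000000000000000000000000000)) 
(.leaf (nat_lit 0x3a980075300016ee005c140075000066d002c5800378400000000000))) (.node 
(.leaf (nat_lit 0x1d4c003a98000000000000000000000000000000000000000000000000000000000000000000000000000000000000000000000000000000000000000000000000000000000000000000000000)) 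
(.leaf (nat_lit 0x3a98007530000000005680000000010ea)))) (.node (.node 
(.leaf (nat_lit 0x1d4c003a98000f390000000000000008a0000000000000036980031d8013fb)) 
(.leaf (nat_lit 0x1d4c003a980000000000000000000000000000000000000000000000000000))) 
(.leaf (nat_lit 0x1d4c003a980019a400451a0006240133d801f9700055e009854013090022bc)))) (.node (.node 
(.node (.leaf (nat_lit 0x753000ea6000466c0082280000000208a00000000ba5001489)) 
(.leaf (nat_lit 0x1d4c003a980000000000000000000000000000000000000000000000000000))) 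
(.leaf (nat_lit 0x1d4c003a98000c4000322000246400a888011e7000000005aac00000001bfa))) (.node (.node 
(.leaf (nat_lit 0x1d4c003a980000000000000000000000000000000000000000000000000000000000000000000000000000000000000000000000000000000000000000000000000)) 
(.leaf (nat_lit 0x1d4c003a9800116d00324a00000000b34800000001da80047500033b000ee9))) 
(.leaf (nat_lit 0xbafc00a260021ca00679c0030c8019af80326700448e0077c40195f803551005b8400cbf4014918000000038b40000000000000341200679c0030c8019af80326700448e0077c401aa8802dc200657e00cbf401491801c5a00000000000000000003412005d6800ad6c016590028d5005d6800ad6c016590028d5005c1c00d258018ec8034960063b200d0380175480340e005d5200d054016c800359300645c00c8b80193580314c0050f60092cc0102700053e003f4400961000e798027120036f00081380029f00287b004966007e88012c2001cf3004e24006de00141a8028350050fa008610010c2002a0b))))) 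
(.node (.node (.node (.node (.leaf (nat_lit 0x753000ea60000000001f30000000021fa000000006bc800000)) 
(.leaf (nat_lit 0x3888006ee40074f00256b00428c0088e00119f001f6400027e001a3c00000000000000000009ecc004310029030017c2009f440135b802238004ad60085180119f001f6400027e001a3c00000000000000000009ecc004310029030017c2009f440135b8028c40043f400a310010fd00297400457200a124018dd802bf000637600afc0018460030d1005cba00ab7c0146b802adf0051ae00a93c00aed80000000164c000d2800000000afc0000000039380066d000000000000002c98001a50015db000000002bf000000000e4e0019b400000000fec801df90039f000752000d39801f5e003e58007f6400efc801cf8003a900069cc00faf001f2c004018006ef001006001bbc00409000813c0101a8020350040840081200105e80193600417a0064d801022800b7f000bb800155400000000096000000002d7c005bf8005dc000aaa0000000004b0000000016be005ee800b45001bd500439400228000723800f0b0026a2005b0c00bdd00168a0037aa00872800450000e47001e16004d4400b61801818))) 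
(.node 
(.leaf (nat_lit 0x1d4c003a98000000000000000000000000000000000000000000000000000000000000000000000000000)) 
(.leaf (nat_lit 0xea6001d4c0000430015da000000003fb0006040013e2)))) (.node (.node 
(.leaf (nat_lit 0x1d4c003a980000000000000000000000000000000000000000000000000000)) 
(.leaf (nat_lit 0x174e800fd000421c00d1a00177f000b8300000000d114017a200115300000000cce4007620030e4005ac600b6380130e0030440054cc00c4d8011368021a5003ed400c44c015a0002674000d6800b658012c70029350052a200a28000da2802ab600545e00a704014c60027b9003b340096640130f801e2300628a00c34c019630031ce005aa200bcd801360802db90050ba00b16c01640002de5005c5a00a32c016fb0028fd00410a0056c400d95001fde0034a40085080139c8020de0050ea008f840113f0022c50046260090c800a278025fb))) 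
(.leaf (nat_lit 0x1d4c003a980021080042160085e400fd200111c0049e800000000858001b9600428c008ce40125a800e02)))) 
(.node (.node (.node (.leaf (nat_lit 0x753000ea60003f7c00e9b001cf700395e00883800d10000ede)) 
(.leaf (nat_lit 0x3a980075300000000000000000000000000000000000000000000000))) 
(.leaf (nat_lit 0x1d4c003a980000000000000000000000000000000000000000000000000000000000000000000000000000000000000000000000000000000000000000000000000))) 
(.node (.node 
(.leaf (nat_lit 0x1d4c003a98000e970039da005b3800e248010db003b0000000000c0100193200418400687c00e650003f2)) 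
(.leaf (nat_lit 0x1d4c003a98002b4000434800876800230801dfd003a62007b64001f780219400215a0090f8012cd800069))) 
(.leaf (nat_lit 0x1d4c003a9800108e001564007f3000ce7001dd1))))))))))
noncomputable def pt1 : Ix (Nat) := (.node (.node (.node (.node (.node (.node (.node (.node (.node 
(.leaf (nat_lit 0x9b400000000000000000000000000000000000000000000000000000000000000000000000000000000)) 
(.leaf (nat_lit 0x1d4c003a98000000))) (.leaf (nat_lit 0x1d4c003a980013f0))) (.node 
(.leaf (nat_lit 0xea600000000000000000000000000000000000000000)) 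
(.leaf (nat_lit 0x1d4c003a98000000)))) (.node (.node (.leaf (nat_lit 0xea6001d4c000e2f00170e)) 
(.leaf (nat_lit 0x1d4c003a98000d84))) (.node (.leaf (nat_lit 0x7450012a0002e4000000000000000000)) 
(.leaf (nat_lit 0x1d4c003a980029ac))))) (.node (.node (.node 
(.leaf (nat_lit 0xea6001d4c000000000000)) 
(.leaf (nat_lit 0xcc3800c08002550006046000000014a1001e56003b700063bc00ebc00000000000000070400c1d801eeb))) 
(.node (.leaf (nat_lit 0x3a980075300050f800459c00aa60002e6)) (.leaf (nat_lit 0x1d4c003a98000000)))) 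
(.node (.node (.leaf (nat_lit 0xea6001d4c000861000000)) (.leaf (nat_lit 0x1d4c003a980014fb))) 
(.node (.leaf (nat_lit 0x1d4c003a98001408)) (.leaf (nat_lit 0x1d4c003a98000000)))))) (.node (.node 
(.node (.node (.leaf (nat_lit 0xea6001d4c000000000000)) 
(.leaf (nat_lit 0x753000ea600063b000000000000))) (.node (.leaf (nat_lit 0xea6001d4c000a98000c4a)) 
(.leaf (nat_lit 0x1d4c003a98002fa3)))) (.node (.node (.leaf (nat_lit 0x1d4c003a98000c59)) 
(.leaf (nat_lit 0x19810017a1004e3400c7fc0000000292b))) (.node (.leaf (nat_lit 0x1d4c003a980017b4)) 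
(.leaf (nat_lit 0x753000ea600064f4000000000d3))))) (.node (.node (.node 
(.leaf (nat_lit 0xea6001d4c0010e8000e17)) (.leaf (nat_lit 0x1d4c003a98001305))) (.node 
(.leaf (nat_lit 0xea6001d4c00000000000000000000000000000000000)) 
(.leaf (nat_lit 0x1d4c003a98000000)))) (.node (.node (.leaf (nat_lit 0xea6001d4c000000000000)) 
(.leaf (nat_lit 0xea6001d4c000000000000))) (.node 
(.leaf (nat_lit 0x1abb0017c1004dbc00bac40164e800000000e3800000000ae4800000)) 
(.leaf (nat_lit 0x1d4c003a980005e0))))))) (.node (.node (.node (.node (.node (.node 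
(.leaf (nat_lit 0xea6001d4c0000e1800000)) (.leaf (nat_lit 0x1d4c003a980012bd))) 
(.leaf (nat_lit 0x6ad200645801328002fec00000000bfb000000001f38003e70001ce80039d002165))) (.node 
(.leaf (nat_lit 0xea6001d4c0009ba000000)) (.leaf (nat_lit 0x1d4c003a98000000)))) (.node (.node 
(.leaf (nat_lit 0x7450012a0002e4000000000000000000)) (.leaf (nat_lit 0x1d4c003a98000eac))) (.node 
(.leaf (nat_lit 0x1d4c003a98000c59)) (.leaf (nat_lit 0x1d4c003a98000000))))) (.node (.node (.node 
(.leaf (nat_lit 0x3a9800753000000000000000000000000)) 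
(.leaf (nat_lit 0xea6001d4c000c86000000001552004bdc0044c000000))) (.node 
(.leaf (nat_lit 0xea6001d4c000cd6800000)) (.leaf (nat_lit 0x1d4c003a98000000)))) (.node (.node 
(.leaf (nat_lit 0xea6001d4c0012fb800000)) 
(.leaf (nat_lit 0xf0f801b560022fa0089e800e0f002b5a002f9400000000a7e00038d))) (.node 
(.leaf (nat_lit 0xea6001d4c000c5f000000)) 
(.leaf (nat_lit 0x66d4006148012db0031ad000000009eec01392802fb7)))))) (.node (.node (.node (.node 
(.leaf (nat_lit 0xea6001d4c0004df000000)) 
(.leaf (nat_lit 0xea6001d4c000c86000000001552004bdc0044c000000))) (.node 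
(.leaf (nat_lit 0xea6001d4c0010e8000e17)) (.leaf (nat_lit 0x1d4c003a98000000)))) (.node (.node 
(.leaf (nat_lit 0xea6001d4c000df7000000)) (.leaf (nat_lit 0x1d4c003a98000eac))) (.node 
(.leaf (nat_lit 0x19de0019e500508800a8680150d0028dd)) 
(.leaf (nat_lit 0x30fe00603400000000dad0000000057dc00ce0802026))))) (.node (.node (.node 
(.leaf (nat_lit 0xea6001d4c000cfc000000)) 
(.leaf (nat_lit 0xce8800d49802664006376000000018dd800000))) (.node 
(.leaf (nat_lit 0xea6001d4c0014b7000c40)) (.leaf (nat_lit 0x1d4c003a98002fa0)))) (.node (.node 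
(.leaf (nat_lit 0x1d4c003a98000000)) (.leaf (nat_lit 0xea6001d4c00030e000000))) (.node 
(.leaf (nat_lit 0xea6001d4c000c5f000000)) (.leaf (nat_lit 0x1d4c003a98000000)))))))) (.node (.node 
(.node (.node (.node (.node (.node (.leaf (nat_lit 0xea6001d4c0008a5000000)) 
(.leaf (nat_lit 0x1a920015e5004ff200c6a8010e6002f67))) (.leaf (nat_lit 0x1d4c003a980013f0))) (.node 
(.leaf (nat_lit 0x1d4c000000000000)) (.leaf (nat_lit 0x1d4c003a98000000)))) (.node (.node 
(.leaf (nat_lit 0xea6001d4c000000000000)) (.leaf (nat_lit 0x19810017a1004e3400c7fc0000000292b))) 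
(.node (.leaf (nat_lit 0x1d4c000000000000)) (.leaf (nat_lit 0x753000ea6000000000000000000))))) 
(.node (.node (.node (.leaf (nat_lit 0x1d4c003a98000000)) 
(.leaf (nat_lit 0xea6001d4c000b88000000))) (.node (.leaf (nat_lit 0x1d4c003a98002515)) 
(.leaf (nat_lit 0x1d4c003a98000000)))) (.node (.node (.leaf (nat_lit 0xea6001d4c0014b7000c40)) 
(.leaf (nat_lit 0x1d4c003a98000fa3))) (.node 
(.leaf (nat_lit 0x1abb0017c1004dbc00bac40164e800000000e3800000000ae4800000)) 
(.leaf (nat_lit 0x1d4c003a98000000)))))) (.node (.node (.node (.node 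
(.leaf (nat_lit 0xea6001d4c000000000000)) 
(.leaf (nat_lit 0xcc3800c08002550006046000000014a1001e56003b700063bc00ebc00000000000000070400c1d801eeb))) 
(.node (.leaf (nat_lit 0xea6001d4c0012760013e3)) (.leaf (nat_lit 0x1d4c003a98002c16)))) (.node 
(.node (.leaf (nat_lit 0xea6001d4c000cd6800000)) (.leaf (nat_lit 0x1d4c003a98001829))) (.node 
(.leaf (nat_lit 0x1d4c003a980017b4)) (.leaf (nat_lit 0x1d4c003a98000cae))))) (.node (.node (.node 
(.leaf (nat_lit 0xea6001d4c00070c000f50)) (.leaf (nat_lit 0x1d4c003a98001305))) (.node 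
(.leaf (nat_lit 0xea6001d4c000861000000)) (.leaf (nat_lit 0x1d4c003a98002fc9)))) (.node (.node 
(.leaf (nat_lit 0x3a9800753000000000000000000000000)) (.leaf (nat_lit 0xea6001d4c0018308019bf))) 
(.node (.leaf (nat_lit 0x1d4c003a980012c0)) 
(.leaf (nat_lit 0xcb10018cf000000003fb40000000207c))))))) (.node (.node (.node (.node (.node (.node 
(.leaf (nat_lit 0xea6001d4c000000000000)) (.leaf (nat_lit 0x1d4c003a980014e9))) 
(.leaf (nat_lit 0x753000ea600063b000000000000))) (.node (.leaf (nat_lit 0xea6001d4c000aa680057e)) 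
(.leaf (nat_lit 0x1d4c003a98000000)))) (.node (.node (.leaf (nat_lit 0x1d4c000000000000)) 
(.leaf (nat_lit 0x1d4c003a98001829))) (.node 
(.leaf (nat_lit 0x677800646801325802a8200087a00aa080021e802f68)) 
(.leaf (nat_lit 0x19ff001a70004e8400bb640149b00316a004944009040007e1000b48))))) (.node (.node 
(.node (.leaf (nat_lit 0xea6001d4c0013c8801582)) 
(.leaf (nat_lit 0x68bc00a67c01a240029f600000000a7d800000002a9d))) (.node 
(.leaf (nat_lit 0xea6001d4c000df7000000)) (.leaf (nat_lit 0x1d4c003a98002ffc)))) (.node (.node 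
(.leaf (nat_lit 0xea6001d4c0000e1800000)) (.leaf (nat_lit 0xea6001d4c000000000000))) (.node 
(.leaf (nat_lit 0x1d4c003a980012c0)) (.leaf (nat_lit 0x1d4c003a980019ae)))))) (.node (.node (.node 
(.node (.leaf (nat_lit 0xea6001d4c000000000000)) (.leaf (nat_lit 0xea6001d4c000b88000000))) (.node 
(.leaf (nat_lit 0xea6001d4c00172e801499)) (.leaf (nat_lit 0x1d4c003a98000000)))) (.node (.node 
(.leaf (nat_lit 0xea6001d4c00000000000000000000000000000000000)) 
(.leaf (nat_lit 0xda00014c08033c80047d4006b5001717002a4b))) (.node 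
(.leaf (nat_lit 0x1d4c003a98001408)) (.leaf (nat_lit 0x1d4c003a98000000))))) (.node (.node (.node 
(.leaf (nat_lit 0xea6001d4c000ee9800025)) (.leaf (nat_lit 0x1d4c003a98000d84))) (.node 
(.leaf (nat_lit 0xea6001d4c000000000000)) (.leaf (nat_lit 0x1d4c003a980029e4)))) (.node (.node 
(.leaf (nat_lit 0xd1d80000000000000796c00d3500000000000000000000000000000)) 
(.leaf (nat_lit 0xea6001d4c0003b4800000))) (.node 
(.leaf (nat_lit 0x6c4800a08c019d6802bc900000000af24000000028da)) 
(.leaf (nat_lit 0x1d4c003a98000000))))))))) (.node (.node (.node (.node (.node (.node (.node (.node 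
(.leaf (nat_lit 0xea6001d4c0012fb800000)) (.leaf (nat_lit 0x1d4c003a98000000))) 
(.leaf (nat_lit 0x1d4c003a98002726))) (.node (.leaf (nat_lit 0xea6001d4c000000000000)) 
(.leaf (nat_lit 0x1d4c003a98000000)))) (.node (.node (.leaf (nat_lit 0xea6001d4c000bf2800ff7)) 
(.leaf (nat_lit 0x1d4c003a98000000))) (.node (.leaf (nat_lit 0x1d4c003a98000000)) 
(.leaf (nat_lit 0xf0f801b560022fa0089e800e0f002b5a002f9400000000a7e00038d))))) (.node (.node (.node 
(.leaf (nat_lit 0xea6001d4c0009ba000000)) (.leaf (nat_lit 0xea6001d4c0017d500196d))) (.node 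
(.leaf (nat_lit 0xea6001d4c000e2f00170e)) (.leaf (nat_lit 0x1d4c003a98000000)))) (.node (.node 
(.leaf (nat_lit 0xea6001d4c0008f700000000000000000000000001067)) 
(.leaf (nat_lit 0x1d4c003a980029ac))) (.node (.leaf (nat_lit 0x1d4c003a98000788)) 
(.leaf (nat_lit 0x1d4c003a98000000)))))) (.node (.node (.node (.node 
(.leaf (nat_lit 0x3a9800753000000000000000000000000)) (.leaf (nat_lit 0xea6001d4c000329800000))) 
(.node (.leaf (nat_lit 0xea6001d4c0013c8801582)) (.leaf (nat_lit 0x1d4c003a980005e0)))) (.node 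
(.node (.leaf (nat_lit 0xea6001d4c001527800f3b)) (.leaf (nat_lit 0x1d4c003a98002d3f))) (.node 
(.leaf (nat_lit 0x1d4c003a98000000)) (.leaf (nat_lit 0xea6001d4c0003b4800000))))) (.node (.node 
(.node (.leaf (nat_lit 0xea6001d4c00107b0020f7)) (.leaf (nat_lit 0x1d4c003a980024d3))) (.node 
(.leaf (nat_lit 0x3a9800000000000000000000000000000)) (.leaf (nat_lit 0x1d4c003a980012bd)))) (.node 
(.node (.leaf (nat_lit 0xea6001d4c000000000000)) 
(.leaf (nat_lit 0x19ff001a70004e8400bb640149b00316a004944009040007e1000b48))) (.node 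
(.leaf (nat_lit 0xea6001d4c0017f8800bf2)) (.leaf (nat_lit 0x1d4c003a98002c16))))))) (.node (.node 
(.node (.node (.node (.node (.leaf (nat_lit 0xea6001d4c000000000000)) 
(.leaf (nat_lit 0x1d4c003a98002fc9))) (.leaf (nat_lit 0xea6001d4c00180d000d17))) (.node 
(.leaf (nat_lit 0x3a9800753000000000000000000000000)) (.leaf (nat_lit 0x1d4c003a98000000)))) (.node 
(.node (.leaf (nat_lit 0x1d4c003a98000000)) (.leaf (nat_lit 0x1d4c003a98002c91))) (.node 
(.leaf (nat_lit 0xea6001d4c001527800f3b)) (.leaf (nat_lit 0xea6001d4c000000000000))))) (.node 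
(.node (.node (.leaf (nat_lit 0xea6001d4c000aa680057e)) (.leaf (nat_lit 0xea6001d4c0003aa800000))) 
(.node (.leaf (nat_lit 0xea6001d4c000000000000)) 
(.leaf (nat_lit 0x1a920015e5004ff200c6a8010e6002f67)))) (.node (.node 
(.leaf (nat_lit 0xea6001d4c0008a5000000)) (.leaf (nat_lit 0x1d4c003a98000000))) (.node 
(.leaf (nat_lit 0xea6001d4c0003ac000000)) (.leaf (nat_lit 0x1d4c003a98002fa3)))))) (.node (.node 
(.node (.node (.leaf (nat_lit 0x1d4c000000000000)) (.leaf (nat_lit 0xea6001d4c0003aa800000))) 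
(.node (.leaf (nat_lit 0xea6001d4c00070c000f50)) 
(.leaf (nat_lit 0xcb10018cf000000003fb40000000207c)))) (.node (.node 
(.leaf (nat_lit 0x2f580091c0015d2000000000000000000000c3000a800000000029700000000000000000000000000097)) 
(.leaf (nat_lit 0x1d4c003a98002c91))) (.node (.leaf (nat_lit 0x1d4c003a98002f35)) 
(.leaf (nat_lit 0x1d4c003a98000000))))) (.node (.node (.node (.leaf (nat_lit 0x1d4c003a98002515)) 
(.leaf (nat_lit 0x1d4c003a98002dc9))) (.node (.leaf (nat_lit 0xea6001d4c000bf2800ff7)) 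
(.leaf (nat_lit 0x1d4c003a98000fa3)))) (.node (.node (.leaf (nat_lit 0xea6001d4c000000000000)) 
(.leaf (nat_lit 0x753000ea600064f4000000000d3))) (.node (.leaf (nat_lit 0xea6001d4c0003ac000000)) 
(.leaf (nat_lit 0x1d4c003a98000000)))))))) (.node (.node (.node (.node (.node (.node (.node 
(.leaf (nat_lit 0xea6001d4c000178800000)) (.leaf (nat_lit 0x1d4c003a98002ffc))) 
(.leaf (nat_lit 0x1d4c003a98002726))) (.node (.leaf (nat_lit 0xea6001d4c000000000000)) 
(.leaf (nat_lit 0x1d4c003a98000000)))) (.node (.node (.leaf (nat_lit 0xea6001d4c000cba800000)) 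
(.leaf (nat_lit 0x1d4c003a98002d3f))) (.node (.leaf (nat_lit 0x1d4c003a9800099b)) 
(.leaf (nat_lit 0xea6001d4c000000000000))))) (.node (.node (.node 
(.leaf (nat_lit 0xea6001d4c000a98000c4a)) (.leaf (nat_lit 0xea6001d4c0017cc80097e))) (.node 
(.leaf (nat_lit 0xea6001d4c000ee9800025)) (.leaf (nat_lit 0x1d4c003a98000000)))) (.node (.node 
(.leaf (nat_lit 0x9b400000000000000000000000000000000000000000000000000000000000000000000000000000000)) 
(.leaf (nat_lit 0x1d4c003a980029e4))) (.node (.leaf (nat_lit 0xea6001d4c0017f8800bf2)) 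
(.leaf (nat_lit 0x1d4c003a98000000)))))) (.node (.node (.node (.node 
(.leaf (nat_lit 0xd1d80000000000000796c00d3500000000000000000000000000000)) 
(.leaf (nat_lit 0xea6001d4c0017d500196d))) (.node (.leaf (nat_lit 0xea6001d4c00107b0020f7)) 
(.leaf (nat_lit 0x1d4c003a980019ae)))) (.node (.node (.leaf (nat_lit 0xea6001d4c000000000000)) 
(.leaf (nat_lit 0x1d4c003a98000000))) (.node (.leaf (nat_lit 0x1d4c003a98000000)) 
(.leaf (nat_lit 0xea6001d4c00030e000000))))) (.node (.node (.node 
(.leaf (nat_lit 0xea6001d4c00172e801499)) (.leaf (nat_lit 0x1d4c003a980024d3))) (.node 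
(.leaf (nat_lit 0xea6001d4c0008f700000000000000000000000001067)) 
(.leaf (nat_lit 0xda00014c08033c80047d4006b5001717002a4b)))) (.node (.node 
(.leaf (nat_lit 0xea6001d4c000000000000)) (.leaf (nat_lit 0x1d4c003a98000cae))) (.node 
(.leaf (nat_lit 0xea6001d4c000392800000)) (.leaf (nat_lit 0x1d4c003a98000000))))))) (.node (.node 
(.node (.node (.node (.node (.leaf (nat_lit 0x1d4c003a98000000)) 
(.leaf (nat_lit 0x1d4c003a98000000))) (.leaf (nat_lit 0xea6001d4c000329800000))) (.node 
(.leaf (nat_lit 0x1d4c003a98000000)) 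
(.leaf (nat_lit 0x66d4006148012db0031ad000000009eec01392802fb7)))) (.node (.node 
(.leaf (nat_lit 0x1d4c003a9800099b)) (.leaf (nat_lit 0x1d4c003a98000000))) (.node 
(.leaf (nat_lit 0x1d4c003a98002e47)) (.leaf (nat_lit 0xea6001d4c0018308019bf))))) (.node (.node 
(.node (.leaf (nat_lit 0xea6001d4c0012760013e3)) (.leaf (nat_lit 0x1d4c003a98002dd5))) (.node 
(.leaf (nat_lit 0x2f580091c0015d2000000000000000000000c3000a800000000029700000000000000000000000000097)) 
(.leaf (nat_lit 0x1d4c003a980014e9)))) (.node (.node (.leaf (nat_lit 0xea6001d4c000178800000)) 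
(.leaf (nat_lit 0x753000ea6000000000000000000))) (.node (.leaf (nat_lit 0xea6001d4c000392800000)) 
(.leaf (nat_lit 0x1d4c003a98000000)))))) (.node (.node (.node (.node 
(.leaf (nat_lit 0xea600000000000000000000000000000000000000000)) 
(.leaf (nat_lit 0xea6001d4c0017cc80097e))) (.node (.leaf (nat_lit 0xea6001d4c000cfc000000)) 
(.leaf (nat_lit 0x1d4c003a98000000)))) (.node (.node 
(.leaf (nat_lit 0x3a9800000000000000000000000000000)) (.leaf (nat_lit 0x1d4c003a98002fa0))) (.node 
(.leaf (nat_lit 0x1d4c003a98000788)) (.leaf (nat_lit 0x1d4c003a98000000))))) (.node (.node (.node 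
(.leaf (nat_lit 0x3a980075300050f800459c00aa60002e6)) (.leaf (nat_lit 0x1d4c003a98000000))) (.node 
(.leaf (nat_lit 0xea6001d4c000cba800000)) (.leaf (nat_lit 0x1d4c003a980014fb)))) (.node (.node 
(.leaf (nat_lit 0xea6001d4c0004df000000)) 
(.leaf (nat_lit 0x30fe00603400000000dad0000000057dc00ce0802026))) (.node 
(.leaf (nat_lit 0x1d4c003a98002f5d)) (.leaf (nat_lit 0x1d4c003a98000000))))))))))
noncomputable def pt2 : Ix (Nat) := (.node (.node (.node (.node (.node (.node 
(.leaf (nat_lit 0x6924004b90004b2003a400060e800d8e8012b10023e20063a000b48000f40003a160070a800dfb8000000038de00835c0108a800000000e02000000006a28002d3)) 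
(.leaf (nat_lit 0x1d4c003a98000000))) (.leaf (nat_lit 0x1d4c003a98000000))) (.node 
(.leaf (nat_lit 0xea6001d4c0001e580000000015800028800000000761)) 
(.leaf (nat_lit 0x1d4c003a98000000)))) (.node (.node 
(.leaf (nat_lit 0x753000ea6000713000000800bc5)) (.leaf (nat_lit 0x1d4c003a98000000))) (.node 
(.leaf (nat_lit 0x3a980075300000000000000000000000000000000000000000000000)) 
(.leaf (nat_lit 0x1d4c000000000000))))) (.node (.node (.node (.node 
(.leaf (nat_lit 0xea6001d4c00000000000000000000000000000000000)) 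
(.leaf (nat_lit 0x1d4c003a98000000))) (.leaf (nat_lit 0x1d4c003a98000000))) (.node 
(.leaf (nat_lit 0x3a9800000000000000000000000000000)) (.leaf (nat_lit 0x1d4c003a98000000)))) (.node 
(.node (.leaf (nat_lit 0x753000ea60001a1000000000000)) (.leaf (nat_lit 0x1d4c003a98000585))) (.node 
(.leaf (nat_lit 0xea6001d4c00000000000000000000000000000000000)) 
(.leaf (nat_lit 0x1d4c003a98000000)))))) (.node (.node (.node (.node (.node 
(.leaf (nat_lit 0xea6001d4c000b1000000000000000000000000000000)) 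
(.leaf (nat_lit 0x1d4c003a98000000))) (.leaf (nat_lit 0x1d4c003a98000000))) (.node 
(.leaf (nat_lit 0x0)) (.leaf (nat_lit 0x1d4c003a98000000)))) (.node (.node 
(.leaf (nat_lit 0x753000ea6000576400ba600146c)) (.leaf (nat_lit 0x1d4c003a980022b6))) (.node 
(.leaf (nat_lit 0x3a980075300000000000000000000000000000000000000000000000)) 
(.leaf (nat_lit 0x1d4c000000000000))))) (.node (.node (.node (.node 
(.leaf (nat_lit 0x1d4c003a9800000000000000000000000000000)) (.leaf (nat_lit 0x1d4c003a98000000))) 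
(.leaf (nat_lit 0x1d4c003a9800050f))) (.node 
(.leaf (nat_lit 0xea6001d4c00000000000000000000000000000000000)) (.leaf (nat_lit 0x0)))) (.node 
(.node (.leaf (nat_lit 0x753000ea6000000000000000000)) (.leaf (nat_lit 0x1d4c003a98000243))) (.node 
(.leaf (nat_lit 0x76b800000000000000d660061700000000000000141200132000f0b80037c)) 
(.leaf (nat_lit 0x1d4c003a98000000)))))))
noncomputable def pt3 : Ix (Nat) := (.node (.node (.node (.node (.node (.node 
(.leaf (nat_lit 0x6924004b90004b2003a400060e800d8e8012b10023e20063a000b48000f40003a160070a800dfb8000000038de00835c0108a800000000e02000000006a28002d3)) 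
(.leaf (nat_lit 0x1d4c003a98000000))) (.leaf (nat_lit 0x1d4c003a98000000))) (.node 
(.leaf (nat_lit 0xea6001d4c0001e580000000015800028800000000761)) 
(.leaf (nat_lit 0x1d4c003a98000000)))) (.node (.node 
(.leaf (nat_lit 0x753000ea6000713000000800bc5)) (.leaf (nat_lit 0x1d4c003a98000000))) (.node 
(.leaf (nat_lit 0x3a980075300000000000000000000000000000000000000000000000)) 
(.leaf (nat_lit 0x1d4c000000000000))))) (.node (.node (.node (.node 
(.leaf (nat_lit 0xea6001d4c00000000000000000000000000000000000)) 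
(.leaf (nat_lit 0x1d4c003a98000000))) (.leaf (nat_lit 0x1d4c003a98000000))) (.node 
(.leaf (nat_lit 0x3a9800000000000000000000000000000)) (.leaf (nat_lit 0x1d4c003a98000000)))) (.node 
(.node (.leaf (nat_lit 0x753000ea60001a1000000000000)) (.leaf (nat_lit 0x1d4c003a98000585))) (.node 
(.leaf (nat_lit 0xea6001d4c00000000000000000000000000000000000)) 
(.leaf (nat_lit 0x1d4c003a98000000)))))) (.node (.node (.node (.node (.node 
(.leaf (nat_lit 0xea6001d4c000b1000000000000000000000000000000)) 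
(.leaf (nat_lit 0x1d4c003a98000000))) (.leaf (nat_lit 0x1d4c003a98000000))) (.node 
(.leaf (nat_lit 0x0)) (.leaf (nat_lit 0x1d4c003a98000000)))) (.node (.node 
(.leaf (nat_lit 0x753000ea6000576400ba600146c)) (.leaf (nat_lit 0x1d4c003a980022b6))) (.node 
(.leaf (nat_lit 0x3a980075300000000000000000000000000000000000000000000000)) 
(.leaf (nat_lit 0x1d4c000000000000))))) (.node (.node (.node (.node 
(.leaf (nat_lit 0x1d4c003a9800000000000000000000000000000)) (.leaf (nat_lit 0x1d4c003a98000000))) 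
(.leaf (nat_lit 0x1d4c003a9800050f))) (.node 
(.leaf (nat_lit 0xea6001d4c00000000000000000000000000000000000)) (.leaf (nat_lit 0x0)))) (.node 
(.node (.leaf (nat_lit 0x753000ea6000000000000000000)) (.leaf (nat_lit 0x1d4c003a98000243))) (.node 
(.leaf (nat_lit 0x76b800000000000000d660061700000000000000141200132000f0b80037c)) 
(.leaf (nat_lit 0x1d4c003a98000000)))))))
noncomputable def pt4 : Ix (Nat) := (.node (.node (.node (.node (.node 
(.leaf (nat_lit 0x91b400fae801f3e004b980028cc012e6000a33)) 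
(.leaf (nat_lit 0xea6001d4c000000000000))) (.leaf (nat_lit 0x753000ea60003ccc00000000000))) (.node 
(.node (.leaf (nat_lit 0x1d4c003a98000000)) (.leaf (nat_lit 0xea6001d4c000000000000))) 
(.leaf (nat_lit 0xea6001d4c0003cd800000)))) (.node (.node (.node 
(.leaf (nat_lit 0x1d4c003a98000000)) (.leaf (nat_lit 0x753000ea6000000000000000000))) 
(.leaf (nat_lit 0xea6001d4c000000000000))) (.node (.node (.leaf (nat_lit 0xea6001d4c000a5c000000)) 
(.leaf (nat_lit 0xea6001d4c000000000000))) 
(.leaf (nat_lit 0x166c002774005748010ef800eb800398e00288c00a93001c50003bd8000000010aa001e51))))) 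
(.node (.node (.node (.node (.leaf (nat_lit 0x1d4c003a98000000)) 
(.leaf (nat_lit 0x753000ea60003ccc00000000000))) (.leaf (nat_lit 0x753000ea6000000000000000000))) 
(.node (.node 
(.leaf (nat_lit 0x166c002774005748010ef800eb800398e00288c00a93001c50003bd8000000010aa001e51)) 
(.leaf (nat_lit 0xea6001d4c0003cd800000))) (.leaf (nat_lit 0xea6001d4c000000000000)))) (.node 
(.node (.node (.leaf (nat_lit 0x1d4c003a98000000)) (.leaf (nat_lit 0xea6001d4c000000000000))) 
(.leaf (nat_lit 0xea6001d4c000000000000))) (.node (.leaf (nat_lit 0xea6001d4c000000000000)) 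
(.leaf (nat_lit 0xea6001d4c000a5c000000))))))
noncomputable def pt5 : Ix (Nat) := (.node (.node (.node (.node (.node 
(.leaf (nat_lit 0x458400a1d800f5b00398c0000000000000000000000000516800dff80052f)) 
(.leaf (nat_lit 0x1d4c003a9800317a))) (.leaf (nat_lit 0x1d4c003a98000000))) (.node 
(.leaf (nat_lit 0x1d4c003a98000000)) 
(.leaf (nat_lit 0xea6001d4c000a398005bd00000000000000056800c21)))) (.node (.node (.node 
(.leaf (nat_lit 0x1d4c003a98000000)) (.leaf (nat_lit 0x1d4c003a98000000))) 
(.leaf (nat_lit 0xea6001d4c000af28000000000000000000000000168e))) (.node 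
(.leaf (nat_lit 0x1d4c003a98000000)) 
(.leaf (nat_lit 0x921400ee90020c3005fba00c6000053f801dde003a5800ba6c0097e0021ca))))) (.node (.node 
(.node (.node (.leaf (nat_lit 0x1d4c003a98000a8e)) (.leaf (nat_lit 0x1d4c003a98000000))) 
(.leaf (nat_lit 0x99f000a89001ab8002ea600accc0112e8020c1003c1e0099000124b8024b500469e0091b4011b70000000046f4009bb0012908017d800445c008fec00326802277))) 
(.node (.leaf (nat_lit 0x1d4c003a98000000)) (.leaf (nat_lit 0x753000ea60005ccc00000002126)))) 
(.node (.node (.leaf (nat_lit 0x1d4c003a98000000)) 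
(.leaf (nat_lit 0xea6001d4c00000000000000000000000000000000000))) (.node 
(.leaf (nat_lit 0x1d4c003a98000000)) (.leaf (nat_lit 0x1d4c003a980025c2))))))
noncomputable def pt6 : Ix (Nat) := (.node (.node (.node (.node (.node 
(.leaf (nat_lit 0x458400a1d800f5b00398c0000000000000000000000000516800dff80052f)) 
(.leaf (nat_lit 0x1d4c003a98000000))) (.leaf (nat_lit 0x1d4c003a98000000))) (.node 
(.leaf (nat_lit 0x1d4c003a98000000)) 
(.leaf (nat_lit 0xea6001d4c000a398005bd00000000000000056800c21)))) (.node (.node (.node 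
(.leaf (nat_lit 0x1d4c003a98000000)) (.leaf (nat_lit 0x1d4c003a9800317a))) 
(.leaf (nat_lit 0xea6001d4c000af28000000000000000000000000168e))) (.node 
(.leaf (nat_lit 0x1d4c003a98000000)) 
(.leaf (nat_lit 0x921400ee90020c3005fba00c6000053f801dde003a5800ba6c0097e0021ca))))) (.node (.node 
(.node (.node (.leaf (nat_lit 0x1d4c003a98000a8e)) (.leaf (nat_lit 0x1d4c003a980025c2))) 
(.leaf (nat_lit 0x99f000a89001ab8002ea600accc0112e8020c1003c1e0099000124b8024b500469e0091b4011b70000000046f4009bb0012908017d800445c008fec00326802277))) 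
(.node (.leaf (nat_lit 0x1d4c003a98000000)) (.leaf (nat_lit 0x753000ea60005ccc00000002126)))) 
(.node (.node (.leaf (nat_lit 0x1d4c003a98000000)) 
(.leaf (nat_lit 0xea6001d4c00000000000000000000000000000000000))) (.node 
(.leaf (nat_lit 0x1d4c003a98000000)) (.leaf (nat_lit 0x1d4c003a98000000))))))
noncomputable def pt7 : Ix (Nat) := (.node (.node (.node (.node (.node (.node (.node (.node (.node 
(.leaf (nat_lit 0x1ea30000000000000000000000000000000478000000001296000000000000000000000000000000000000114080000000000000000000000000000)) 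
(.leaf (nat_lit 0x5dd000ad8800e97002d2c005694000000007cf001c12002d7c005cd0011a7))) 
(.leaf (nat_lit 0x5f6e005074011a3802da8005b220028cc000000000f5001e400000000101b000000))) (.node 
(.leaf (nat_lit 0x1d4c003a98000000)) (.leaf (nat_lit 0x1d4c003a98000000)))) (.node (.node 
(.leaf (nat_lit 0x3a98007530004fa200119c012c58011fa)) (.leaf (nat_lit 0x1d4c003a980002b6))) (.node 
(.leaf (nat_lit 0x1d4c003a98001b50)) (.leaf (nat_lit 0x1d4c003a98000000))))) (.node (.node (.node 
(.node (.leaf (nat_lit 0xea6001d4c00000000000000000000000000000000000)) 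
(.leaf (nat_lit 0x753000ea6000000000000000000))) (.leaf (nat_lit 0x1d4c003a98000dfe))) (.node 
(.leaf (nat_lit 0x1d4c003a98000000)) (.leaf (nat_lit 0x1d4c003a98000000)))) (.node (.node 
(.leaf (nat_lit 0x3a9800000000000000000000000000000)) 
(.leaf (nat_lit 0x1df300364c00473c015280028a6000000000000005dd800f5e00000000000000804000e1b))) 
(.node (.leaf (nat_lit 0x1d4c003a98002470)) (.leaf (nat_lit 0x1d4c003a98002041)))))) (.node (.node 
(.node (.node (.node (.leaf (nat_lit 0x753000ea60002cc000022000000)) 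
(.leaf (nat_lit 0xb73800a0e801f350059f400b54800000000000000000000000011cb0026a4))) 
(.leaf (nat_lit 0x1d4c003a9800098f))) (.node (.leaf (nat_lit 0x1d4c003a98000000)) 
(.leaf (nat_lit 0x1d4c003a98000000)))) (.node (.node 
(.leaf (nat_lit 0x753000ea600073f000003801659)) (.leaf (nat_lit 0x1d4c003a980005f3))) (.node 
(.leaf (nat_lit 0x1d4c003a98000a7f)) (.leaf (nat_lit 0x1d4c003a98000000))))) (.node (.node (.node 
(.node (.leaf (nat_lit 0xea6001d4c000000000000)) (.leaf (nat_lit 0xea6001d4c000991000000))) 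
(.leaf (nat_lit 0xb8fc00a9d0021370047ae00abf8011be801ce80031b400738c00e7c0000000030a800419c0110c8000000046a0009028005c6801cd40037520079c800fb480000000169a00000000293000034))) 
(.node (.leaf (nat_lit 0x1d4c003a980003c4)) (.leaf (nat_lit 0x1d4c003a9800292c)))) (.node (.node 
(.leaf (nat_lit 0x1d4c003a98000000)) (.leaf (nat_lit 0xea6001d4c0002a0800000))) (.node 
(.leaf (nat_lit 0x1d4c003a98000ba5)) (.leaf (nat_lit 0xea6001d4c000000000000))))))) (.node (.node 
(.node (.node (.node (.node 
(.leaf (nat_lit 0x3a980075300007900000000000000000000000000000000126001177)) 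
(.leaf (nat_lit 0x1d4c003a98000000))) (.leaf (nat_lit 0xea6001d4c000af40000ef))) (.node 
(.leaf (nat_lit 0x1d4c003a9800089a)) (.leaf (nat_lit 0x1d4c003a98002b11)))) (.node (.node 
(.leaf (nat_lit 0x3a9800753000000000645800b460003d9)) 
(.leaf (nat_lit 0xb84c009b980202a00600800ad400000000000000466e008fc0013a50027d6))) (.node 
(.leaf (nat_lit 0x1d4c003a98002085)) (.leaf (nat_lit 0x1d4c003a980021f2))))) (.node (.node (.node 
(.node (.leaf (nat_lit 0x3a9800753000000000000000000000000)) 
(.leaf (nat_lit 0x753000ea600049b000000000000))) (.leaf (nat_lit 0x1d4c003a98000634))) (.node 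
(.leaf (nat_lit 0x753000000000000000000000000)) (.leaf (nat_lit 0x1d4c003a98000000)))) (.node 
(.node (.leaf (nat_lit 0x3a98007530002bc000626000c3b800000)) 
(.leaf (nat_lit 0xea6001d4c000000000000))) (.node 
(.leaf (nat_lit 0xf67002ade00528400000000000003446006d1400000000000)) 
(.leaf (nat_lit 0x1d4c003a98001dd2)))))) (.node (.node (.node (.node (.node (.leaf (nat_lit 0x0)) 
(.leaf (nat_lit 0x1d4c003a98000a8b))) 
(.leaf (nat_lit 0x2f55002c0c008480015fe002a7c00000000000001706802acf))) (.node 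
(.leaf (nat_lit 0x1d4c003a98000000)) (.leaf (nat_lit 0x1d4c003a98000000)))) (.node (.node 
(.leaf (nat_lit 0x753000ea6000000000000000000)) (.leaf (nat_lit 0x1d4c003a980006bd))) (.node 
(.leaf (nat_lit 0x1d4c003a98000000)) (.leaf (nat_lit 0x1d4c003a98000000))))) (.node (.node (.node 
(.leaf (nat_lit 0x3a980075300000000000000000000000000000000000000000000000)) 
(.leaf (nat_lit 0x1d4c003a9800183b00000000000000500800b22000000000000002d3000000))) (.node 
(.leaf (nat_lit 0x1d4c003a98000e04)) (.leaf (nat_lit 0x1d4c003a98001bc5)))) (.node (.node 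
(.leaf (nat_lit 0x3a9800753000512a00000001063000a84)) (.leaf (nat_lit 0x1d4c003a98000000))) (.node 
(.leaf (nat_lit 0x1d4c003a98000b66)) 
(.leaf (nat_lit 0x3a98007530002cc600685c000730000000000000031a40000000001f001a3c0000000069f800482)))))))) 
(.node (.node (.node (.node (.node (.node (.node 
(.leaf (nat_lit 0x3a980075300000000000000000000000000000000000000000000000)) 
(.leaf (nat_lit 0x1d4c003a98000000))) (.leaf (nat_lit 0x1d4c003a98000b37))) (.node 
(.leaf (nat_lit 0x1d4c003a98000000)) (.leaf (nat_lit 0x1d4c003a98000000)))) (.node (.node 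
(.leaf (nat_lit 0x753000ea6000838400f4b001d62)) (.leaf (nat_lit 0x1d4c003a980007ce))) (.node 
(.leaf (nat_lit 0x1d4c003a98002776)) (.leaf (nat_lit 0x1d4c003a98000000))))) (.node (.node (.node 
(.node (.leaf (nat_lit 0xea6001d4c00000000000000000000000000000000000)) 
(.leaf (nat_lit 0xea6001d4c000000000000))) 
(.leaf (nat_lit 0x17f4002266005bbc0028a000f590018210043820040c800bb600251d))) (.node 
(.leaf (nat_lit 0x1903000000000000007dc800bf500000000000000b820019a2)) 
(.leaf (nat_lit 0x1d4c003a98001f4d)))) (.node (.node 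
(.leaf (nat_lit 0xea6001d4c000892000000000000004e8c0000000053b)) 
(.leaf (nat_lit 0xea6001d4c000000000000))) (.node (.leaf (nat_lit 0x1d4c003a98000000)) 
(.leaf (nat_lit 0x1d4c003a9800201e)))))) (.node (.node (.node (.node (.node 
(.leaf (nat_lit 0x753000ea6000000000000000000)) (.leaf (nat_lit 0x1d4c003a98000000))) 
(.leaf (nat_lit 0x1d4c003a98000911))) (.node (.leaf (nat_lit 0x1d4c000000000000)) 
(.leaf (nat_lit 0x1d4c003a98000000)))) (.node (.node 
(.leaf (nat_lit 0x3a9800753000392000000000000000000)) 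
(.leaf (nat_lit 0xc8480127080321a00554400a9200064d800200))) (.node 
(.leaf (nat_lit 0x1d4c003a98000551)) (.leaf (nat_lit 0x1d4c003a980026d5))))) (.node (.node (.node 
(.node (.leaf (nat_lit 0x753000ea6000000000000000000)) 
(.leaf (nat_lit 0x1d4c003a9800187a00000000122000000000d6300000000000000478800513))) 
(.leaf (nat_lit 0x1d4c003a98000000))) (.node (.leaf (nat_lit 0x1d4c003a98000cb1)) 
(.leaf (nat_lit 0x1d4c003a9800279d)))) (.node (.node (.leaf (nat_lit 0x1d4c003a98000000)) 
(.leaf (nat_lit 0xea6001d4c000036000000))) (.node 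
(.leaf (nat_lit 0xbc540041500247e002f4c00b010014fd802b4c)) 
(.leaf (nat_lit 0xbcdc00aca8023f1005afa00b508000000024040033800076880110e0023f200405600572c00dc580000000000000807000c7a80213a0028080080fc00d0f801fae))))))) 
(.node (.node (.node (.node (.node (.node (.leaf (nat_lit 0x753000ea6000847000000000000)) 
(.leaf (nat_lit 0x1d4c003a98000000))) (.leaf (nat_lit 0xbf08000000023130058d600b65400d21802b2a))) 
(.node (.leaf (nat_lit 0x1d4c003a980008f7)) (.leaf (nat_lit 0x1d4c003a98002b5d)))) (.node (.node 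
(.leaf (nat_lit 0x3a9800753000316c000000000000001af)) (.leaf (nat_lit 0x1d4c003a98000000))) (.node 
(.leaf (nat_lit 0x1d4c003a98001089)) (.leaf (nat_lit 0x1d4c003a980012e7))))) (.node (.node (.node 
(.node (.leaf (nat_lit 0x753000ea6000298800000000000)) 
(.leaf (nat_lit 0xba4800a0d801f5f00534200acfc000000017b8001f4c006cfc00dfa8002f700208400000000000001e940014de000b88001e2001abc))) 
(.leaf (nat_lit 0x1d4c003a98000000))) (.node (.leaf (nat_lit 0x1d4c000000000000)) 
(.leaf (nat_lit 0x1d4c003a98000e06)))) (.node (.node 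
(.leaf (nat_lit 0x3a980075300037f000000001291000000)) (.leaf (nat_lit 0xea6001d4c001726800000))) 
(.node (.leaf (nat_lit 0x1d4c000000000000)) 
(.leaf (nat_lit 0x3a98007530000000000000000000000000000000000000000000000000000000000000000000000)))))) 
(.node (.node (.node (.node (.node (.leaf (nat_lit 0x3a9800000000000000000000000000000)) 
(.leaf (nat_lit 0x5ce800cc2801264003512006248002e4001608000000005f2400d2e8000520014360067dc00000001a290025a200319400cd4801c20))) 
(.leaf (nat_lit 0x1d4c003a98000cba))) (.node (.leaf (nat_lit 0x1d4c003a98000000)) 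
(.leaf (nat_lit 0x1d4c003a98000000)))) (.node (.node 
(.leaf (nat_lit 0x20f80092f8013ab00000000006800000000950000d08001e70000000000000000000000000000000000000000000000000000000000)) 
(.leaf (nat_lit 0x1d4c003a98001692))) (.node (.leaf (nat_lit 0x1d4c003a98000000)) 
(.leaf (nat_lit 0x1d4c003a98002b95))))) (.node (.node (.node (.leaf (nat_lit 0x1d4c003a98000000)) 
(.leaf (nat_lit 0xba58007048022300048c400a7ec0002f8011c6))) (.node 
(.leaf (nat_lit 0x1d4c003a98002137)) (.leaf (nat_lit 0x1d4c003a980027df)))) (.node (.node 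
(.leaf (nat_lit 0x1d4c003a98000000)) (.leaf (nat_lit 0x1d4c003a98000000))) (.node 
(.leaf (nat_lit 0x1d4c003a98000bb2)) (.leaf (nat_lit 0xea6001d4c000a990001ca))))))))) (.node (.node 
(.node (.node (.node (.node (.node (.node 
(.leaf (nat_lit 0x3a98007530002fe80000000000000000000000000000000000000000)) 
(.leaf (nat_lit 0x1d4c003a98000000))) (.leaf (nat_lit 0xea6001d4c001657800000))) (.node 
(.leaf (nat_lit 0x1d4c003a98000000)) (.leaf (nat_lit 0x1d4c003a98000000)))) (.node (.node 
(.leaf (nat_lit 0x3a98007530004c9800000000f3b00111b)) (.leaf (nat_lit 0x1d4c003a98000000))) (.node 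
(.leaf (nat_lit 0x1d4c003a98000000)) (.leaf (nat_lit 0x1d4c003a98000621))))) (.node (.node (.node 
(.node (.leaf (nat_lit 0xea6001d4c00000000000000000000000000000000000)) 
(.leaf (nat_lit 0xea6001d4c000000000000))) (.leaf (nat_lit 0x1d4c003a98000000))) (.node 
(.leaf (nat_lit 0x1d4c003a98000000)) 
(.leaf (nat_lit 0x30c9002ade005a1c016c3002aa6000000000000015728028ac)))) (.node (.node 
(.leaf (nat_lit 0xea6001d4c00091b80012f000000002304008ca000000)) 
(.leaf (nat_lit 0xea6001d4c000000000000))) (.node (.leaf (nat_lit 0x1d4c003a9800162a)) 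
(.leaf (nat_lit 0x1d4c003a98000c78)))))) (.node (.node (.node (.node (.node 
(.leaf (nat_lit 0x753000ea60005ba800000000c55)) (.leaf (nat_lit 0x1d4c003a98001b95))) 
(.leaf (nat_lit 0x1d4c003a98000000))) (.node (.leaf (nat_lit 0x0)) 
(.leaf (nat_lit 0x18a60031d6002d840033680050c00000000000001044802003)))) (.node (.node 
(.leaf (nat_lit 0x1d4c003a9800104e)) (.leaf (nat_lit 0x1d4c003a98000000))) (.node 
(.leaf (nat_lit 0x1d4c003a98000000)) (.leaf (nat_lit 0x17a080116c00459200bb4401759800000))))) 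
(.node (.node (.node (.node (.leaf (nat_lit 0x1d4c000000000000)) 
(.leaf (nat_lit 0x753000ea6000aeb000680000a3f))) 
(.leaf (nat_lit 0xea6001d4c0016098000ac000d3e007b3800ded001b8e))) (.node 
(.leaf (nat_lit 0x1d4c003a98000000)) (.leaf (nat_lit 0x1d4c003a98000000)))) (.node (.node 
(.leaf (nat_lit 0x1d4c000000000000)) (.leaf (nat_lit 0x1d4c003a9800130a))) (.node 
(.leaf (nat_lit 0x1d4c003a98002bef)) (.leaf (nat_lit 0x753000ea6000000000000000000))))))) (.node 
(.node (.node (.node (.node (.node (.leaf (nat_lit 0x1d4c003a9800000000000000000000000000000)) 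
(.leaf (nat_lit 0x1d4c003a98000000))) (.leaf (nat_lit 0xea6001d4c000127000000))) (.node 
(.leaf (nat_lit 0x1d4c003a98000000)) (.leaf (nat_lit 0x1d4c003a9800070b)))) (.node (.node 
(.leaf (nat_lit 0x753000ea6000b4cc000000018f6)) (.leaf (nat_lit 0x1d4c003a980029e5))) (.node 
(.leaf (nat_lit 0x1d4c003a980011f9)) (.leaf (nat_lit 0x1d4c003a980001c8))))) (.node (.node (.node 
(.node (.leaf (nat_lit 0x2e5e0000000000000118300396e0000000000000000000000000000000597800000)) 
(.leaf (nat_lit 0x753000ea6000000000000000000))) (.leaf (nat_lit 0x1d4c003a98001c3c))) (.node 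
(.leaf (nat_lit 0x1d4c003a98000000)) (.leaf (nat_lit 0x1d4c003a98000705)))) (.node (.node 
(.leaf (nat_lit 0x753000ea6000000000000000000)) 
(.leaf (nat_lit 0x3148002b500094e801826802ffb00000000000000000000000000000000000007a9800000))) 
(.node (.leaf (nat_lit 0x1d4c003a98000000)) 
(.leaf (nat_lit 0x72f400e6c001077003c22008060001118018c000322a0065ec00c6a8016d1002d32000000000c1000b67000000000e54003a080101200136a003b1c00a4d801682)))))) 
(.node (.node (.node (.node (.node (.leaf (nat_lit 0x3a9800000000000000000000000000000)) 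
(.leaf (nat_lit 0x1d4c003a9800233b))) (.leaf (nat_lit 0x1d4c003a98002b64))) (.node 
(.leaf (nat_lit 0x1d4c003a98000000)) (.leaf (nat_lit 0x1d4c003a98000000)))) (.node (.node 
(.leaf (nat_lit 0x3a9800753000383800000000584000401)) (.leaf (nat_lit 0x1d4c003a98002438))) (.node 
(.leaf (nat_lit 0x753000000000000000000000000)) (.leaf (nat_lit 0x1d4c003a980010f0))))) (.node 
(.node (.node (.leaf (nat_lit 0x753000ea600057bc00bfb000000)) 
(.leaf (nat_lit 0x753000ea600011b400000000000))) (.node (.leaf (nat_lit 0x1d4c003a9800226b)) 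
(.leaf (nat_lit 0x17ec00179a0049be00c52001899800000)))) (.node (.node 
(.leaf (nat_lit 0x882c00000000000001c600003140000000000000000000000000b3a000000)) 
(.leaf (nat_lit 0x1d4c003a98000000))) (.node (.leaf (nat_lit 0x1d4c003a98000000)) 
(.leaf (nat_lit 0x753000ea60000c2400000000000)))))))) (.node (.node (.node (.node (.node (.node 
(.node (.leaf (nat_lit 0x1d4c003a9800000000000000000000000000000)) 
(.leaf (nat_lit 0x1d4c003a98000000))) (.leaf (nat_lit 0xea6001d4c0000e1000000))) (.node 
(.leaf (nat_lit 0x1d4c003a98000000)) (.leaf (nat_lit 0xc2f00019a0024840058d200ad940050b002b39)))) 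
(.node (.node (.leaf (nat_lit 0x3a980075300043ba00000000777800d66)) 
(.leaf (nat_lit 0x1d4c003a9800260e))) (.node (.leaf (nat_lit 0x1d4c003a9800088e)) 
(.leaf (nat_lit 0xbd50009d2001fa70058e800b64800000000840000000000000012540026d0))))) (.node (.node 
(.node (.node (.leaf (nat_lit 0xea6001d4c00000000000000000000000000000000000)) 
(.leaf (nat_lit 0xea6001d4c000000000000))) (.leaf (nat_lit 0x1d4c003a98002a3d))) (.node 
(.leaf (nat_lit 0x1d4c003a98000000)) (.leaf (nat_lit 0x1d4c003a98000000)))) (.node (.node 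
(.leaf (nat_lit 0x3a9800753000521c00000000e7d801025)) (.leaf (nat_lit 0x1d4c003a98000000))) (.node 
(.leaf (nat_lit 0x1d4c003a98001a6e)) (.leaf (nat_lit 0x1d4c003a98000000)))))) (.node (.node (.node 
(.node (.node (.leaf (nat_lit 0x3a980075300003fa00000000000000000)) 
(.leaf (nat_lit 0x1d4c003a98000000))) (.leaf (nat_lit 0x1d4c003a98000000))) (.node 
(.leaf (nat_lit 0x1d4c000000000000)) (.leaf (nat_lit 0x1d4c003a98000000)))) (.node (.node 
(.leaf (nat_lit 0x3a980075300032f200000000341800000)) (.leaf (nat_lit 0x1d4c003a98002bac))) (.node 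
(.leaf (nat_lit 0x2d4000900801404000000000000008bb8012e3002fe0005ec800313001324)) 
(.leaf (nat_lit 0x1d4c003a9800094d))))) (.node (.node (.node (.node 
(.leaf (nat_lit 0x3a9800753000281600000000870800000)) 
(.leaf (nat_lit 0x753000ea6000000000000000000))) 
(.leaf (nat_lit 0xea6001d4c00024d00000000000000000000000000000))) (.node 
(.leaf (nat_lit 0x1d4c003a98000000)) (.leaf (nat_lit 0x1d4c003a98001096)))) (.node (.node 
(.leaf (nat_lit 0x1d4c003a98000000)) (.leaf (nat_lit 0x5f680073b800000000f12002c70007a2001dcc))) 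
(.node (.leaf (nat_lit 0x1d4c003a98002812)) (.leaf (nat_lit 0x753000ea6000b0c8000c60006a6))))))) 
(.node (.node (.node (.node (.node (.node (.leaf (nat_lit 0x753000ea60004d5800000000000)) 
(.leaf (nat_lit 0x1d4c003a98000000))) (.leaf (nat_lit 0x1d4c003a98002923))) (.node 
(.leaf (nat_lit 0x1d4c003a98000000)) (.leaf (nat_lit 0x1d4c003a9800110b)))) (.node (.node 
(.leaf (nat_lit 0x3a98007530004e8a00296800fc98021ee00000000000000f9b00141a)) 
(.leaf (nat_lit 0x1d4c003a98002023))) (.node (.leaf (nat_lit 0x1d4c003a98000e99)) 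
(.leaf (nat_lit 0x1d4c003a98000000))))) (.node (.node (.node (.node 
(.leaf (nat_lit 0xea600000000000000000000000000000000000000000)) 
(.leaf (nat_lit 0x753000ea6000af2c00858801bda))) (.leaf (nat_lit 0x1d4c003a98002605))) (.node 
(.leaf (nat_lit 0x1d4c003a98000000)) 
(.leaf (nat_lit 0x1849802409005dd2009c8c01429800000000000000000012ef8025e6)))) (.node (.node 
(.leaf (nat_lit 0x62f000d9c0027fc0000000000000155f)) (.leaf (nat_lit 0xea6001d4c000b8c800000))) 
(.node (.leaf (nat_lit 0x1d4c003a98000466)) (.leaf (nat_lit 0x753000ea6000000000000000000)))))) 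
(.node (.node (.node (.node (.node (.leaf (nat_lit 0x3a9800753000000000000000000000000)) 
(.leaf (nat_lit 0x753000ea6000438c00000000000))) (.leaf (nat_lit 0x1d4c003a98000000))) (.node 
(.leaf (nat_lit 0x1d4c003a98000000)) (.leaf (nat_lit 0x1d4c003a98000000)))) (.node (.node 
(.leaf (nat_lit 0x1d4c003a980000000000000000000000000000000000000000000000000000)) 
(.leaf (nat_lit 0x1d4c003a98002586))) (.node (.leaf (nat_lit 0x1d4c003a98000000)) 
(.leaf (nat_lit 0x17f90023f3005e4800a5940143580000000000000000000f6c001d77))))) (.node (.node 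
(.node (.leaf (nat_lit 0x3a98007530002c2a000c7800f4c801281)) (.leaf (nat_lit 0x1d4c003a98002482))) 
(.node (.leaf (nat_lit 0x1d4c003a98001a37)) (.leaf (nat_lit 0x1d4c003a98001307)))) (.node (.node 
(.leaf (nat_lit 0x1d4c003a98000000)) (.leaf (nat_lit 0x1d4c003a98000000))) (.node 
(.leaf (nat_lit 0x1d4c003a98000000)) (.leaf (nat_lit 0x753000ea6000000000000000000))))))))))
noncomputable def pt8 : Ix (Nat) := (.node (.node (.node (.node (.node (.node 
(.leaf (nat_lit 0xb660007890003160064f400abe80193f000850002bd400c72001667002aac005e2000be8000c26003088005e2c0044100183a0030020051e0006ba800c8f00000000000000455800000000000003b08004fc000c1d)) 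
(.leaf (nat_lit 0x1d4c003a98000000))) (.leaf (nat_lit 0x1d4c003a98000000))) (.node 
(.leaf (nat_lit 0x753000ea600001a8002db80004b)) (.leaf (nat_lit 0xea6001d4c0000bd000000)))) (.node 
(.node (.leaf (nat_lit 0x3a9800753000339a0000000141f000000)) (.leaf (nat_lit 0x1d4c003a98000000))) 
(.node (.leaf (nat_lit 0x3a9800753000000000000000000000000)) 
(.leaf (nat_lit 0x1d4c000000000000))))) (.node (.node (.node (.node 
(.leaf (nat_lit 0x3a9800753000000000000000000000000)) (.leaf (nat_lit 0x1d4c003a98000000))) 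
(.leaf (nat_lit 0x1d4c003a98000000))) (.node 
(.leaf (nat_lit 0x1d4c000000000000000000000000000000000000000000000000000000000000000000000000000000000)) 
(.leaf (nat_lit 0xea6001d4c000000000000)))) (.node (.node 
(.leaf (nat_lit 0x3a9800753000096800029400c7280010e)) (.leaf (nat_lit 0xea6001d4c00052f000000))) 
(.node (.leaf (nat_lit 0x3a9800753000000000000000000000000)) 
(.leaf (nat_lit 0x1d4c003a98000000)))))) (.node (.node (.node (.node (.node 
(.leaf (nat_lit 0x3a98007530001d1600000000000000000)) (.leaf (nat_lit 0x1d4c003a98000000))) 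
(.leaf (nat_lit 0x1d4c003a98000000))) (.node (.leaf (nat_lit 0x0)) 
(.leaf (nat_lit 0xea6001d4c000000000000)))) (.node (.node 
(.leaf (nat_lit 0x3a9800753000256600000000dd680160f)) (.leaf (nat_lit 0xea6001d4c0017be800007))) 
(.node (.leaf (nat_lit 0x3a9800753000000000000000000000000)) 
(.leaf (nat_lit 0x1d4c000000000000))))) (.node (.node (.node (.node 
(.leaf (nat_lit 0x3a9800753000000000000000000000000)) (.leaf (nat_lit 0xea6001d4c000000000000))) 
(.leaf (nat_lit 0x1d4c003a98000000))) (.node (.leaf (nat_lit 0xea6001d4c000000000000)) 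
(.leaf (nat_lit 0x0)))) (.node (.node 
(.leaf (nat_lit 0x753000ea600000000000000000000000000000000000000000)) 
(.leaf (nat_lit 0xea6001d4c0004a3000224))) (.node 
(.leaf (nat_lit 0x693c004ed0003cc001e96006688011398000000000000083e8012958014ca00000000000000000000000)) 
(.leaf (nat_lit 0x1d4c003a98000000)))))))
noncomputable def pt9 : Ix (Nat) := (.node (.node (.node (.node (.node (.node 
(.leaf (nat_lit 0x2e3d003846009278012b9001d5e00543c004bc00055d000ea2000544004b9800000001d15)) 
(.leaf (nat_lit 0x27a2005050006698015ab001f5000404c006a3802154))) (.node 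
(.leaf (nat_lit 0xea6001d4c0006a4800000)) (.leaf (nat_lit 0x1d4c003a98001376)))) (.node (.node 
(.leaf (nat_lit 0x1d4c003a9800000000000000000000000000000)) 
(.leaf (nat_lit 0x10278019c5003bc6009d54012cf0026ee))) (.leaf (nat_lit 0xea6001d4c000000000000)))) 
(.node (.node (.node (.leaf (nat_lit 0xea6001d4c000000000000)) 
(.leaf (nat_lit 0x1d4c003a98000000))) (.leaf (nat_lit 0xea6001d4c000dc4800a6b))) (.node (.node 
(.leaf (nat_lit 0xea6001d4c0011680001a5)) (.leaf (nat_lit 0x1d4c003a98000e34))) 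
(.leaf (nat_lit 0x1d4c000000000000))))) (.node (.node (.node (.node 
(.leaf (nat_lit 0xea6001d4c000317000000)) (.leaf (nat_lit 0x1d4c003a98000000))) 
(.leaf (nat_lit 0xea6001d4c0009a3800000))) (.node (.node (.leaf (nat_lit 0x1d4c003a98000000)) 
(.leaf (nat_lit 0x1d4c003a98000000))) (.leaf (nat_lit 0x290000b22001d4200000000000001c4d)))) (.node 
(.node (.node (.leaf (nat_lit 0xea6001d4c000aeb00078f)) (.leaf (nat_lit 0x1d4c003a98000c6c))) 
(.leaf (nat_lit 0xea6001d4c000b60800000))) (.node (.node (.leaf (nat_lit 0xea6001d4c001096001926)) 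
(.leaf (nat_lit 0xea6001d4c000000000000))) (.leaf (nat_lit 0x1d4c003a98000000)))))) (.node (.node 
(.node (.node (.node (.leaf (nat_lit 0xf48000000000000006868014dd00000000000000000000000)) 
(.leaf (nat_lit 0x1d4c003a980008fd))) (.node (.leaf (nat_lit 0xea6001d4c001486800000)) 
(.leaf (nat_lit 0xea6001d4c0011d100255b)))) (.node (.node (.leaf (nat_lit 0xea6001d4c000e650008c8)) 
(.leaf (nat_lit 0x1d4c003a9800052f))) (.leaf (nat_lit 0xea6001d4c000b14000000)))) (.node (.node 
(.node (.leaf (nat_lit 0x1d4c000000000000)) (.leaf (nat_lit 0x1d4c003a98000000))) 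
(.leaf (nat_lit 0x1d4c003a980008f8))) (.node (.node (.leaf (nat_lit 0xea6001d4c00100000049e)) 
(.leaf (nat_lit 0x60c0009d3000b36004b0c000000001430012120004a0000be000af600130b))) 
(.leaf (nat_lit 0x1d4c003a98000d00))))) (.node (.node (.node (.node 
(.leaf (nat_lit 0x1d4c00000000000000000000000000000000000)) (.leaf (nat_lit 0x1d4c003a98000000))) 
(.leaf (nat_lit 0x1d4c003a980021180009580070b0007b6001ce1))) (.node (.node 
(.leaf (nat_lit 0xea6001d4c0008d7800097)) (.leaf (nat_lit 0x1d4c003a98000000))) 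
(.leaf (nat_lit 0x1d4c003a98000000)))) (.node (.node (.node 
(.leaf (nat_lit 0xea6001d4c0007da000000)) (.leaf (nat_lit 0x1d4c003a98000000))) 
(.leaf (nat_lit 0xea6001d4c00099a800000))) (.node (.node (.leaf (nat_lit 0xea6001d4c000e9d000000)) 
(.leaf (nat_lit 0xea6001d4c000000000000))) (.leaf (nat_lit 0xea6001d4c0011ea800c08)))))))
noncomputable def pt10 : Ix (Nat) := (.node (.node (.node (.node (.node 
(.leaf (nat_lit 0x2fcc0021180000000146e002c5c007b00000110000a7)) 
(.leaf (nat_lit 0x1d4c003a98000000))) (.node (.leaf (nat_lit 0x1d4c003a98000c18)) 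
(.leaf (nat_lit 0x3a9800753000324800496001357801dca)))) (.node (.node 
(.leaf (nat_lit 0x1d4c003a98001137)) 
(.leaf (nat_lit 0x467c00cc40020b60028b80064dc00ac1800bec0036cc00073800afd000ad2004b8000959c00dce00198300497a00929400f6d0021ff003dac0092b40143d80131b))) 
(.leaf (nat_lit 0x1d4c000000000000)))) (.node (.node (.node (.leaf (nat_lit 0x1d4c003a98000000)) 
(.leaf (nat_lit 0x1d4c003a98000000))) (.node (.leaf (nat_lit 0x1d4c003a98000000)) 
(.leaf (nat_lit 0x3a980075300002200000000075c800000)))) (.node (.node 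
(.leaf (nat_lit 0x1d4c003a98001db2)) (.leaf (nat_lit 0x3a9800753000000000000000000000000))) 
(.leaf (nat_lit 0x1d4c003a98000000))))) (.node (.node (.node (.node 
(.leaf (nat_lit 0x1d4c003a980017ea)) (.leaf (nat_lit 0x1d4c003a98000000))) (.node 
(.leaf (nat_lit 0x1d4c003a98000000)) (.leaf (nat_lit 0x3a98007530001ed600311800ec000124d)))) (.node 
(.node (.leaf (nat_lit 0x1d4c003a98000000)) (.leaf (nat_lit 0x3a98007530002402000000000000009d8))) 
(.leaf (nat_lit 0x1d4c000000000000)))) (.node (.node (.node (.leaf (nat_lit 0x1d4c003a98000000)) 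
(.leaf (nat_lit 0x1d4c003a98000f55))) (.leaf (nat_lit 0x0))) (.node (.node 
(.leaf (nat_lit 0x1d4c003a980005c2)) (.leaf (nat_lit 0x3a9800753000000000000000000000000))) 
(.leaf (nat_lit 0x1d4c003a98000000))))))
noncomputable def pt11 : Ix (Nat) := (.node (.node (.node (.node (.node 
(.leaf (nat_lit 0x12f8000000014080000000032e4004900000000002b6008acc00ae9002132)) 
(.leaf (nat_lit 0x1d4c003a9800040b002d0800000000b16000000))) (.leaf (nat_lit 0x1d4c003a98000000))) 
(.node (.node (.leaf (nat_lit 0x1d4c003a98000000)) (.leaf (nat_lit 0xea6001d4c000000000000))) 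
(.leaf (nat_lit 0xea6001d4c000579800749002e1a003650006d7800f7b)))) (.node (.node (.node 
(.leaf (nat_lit 0x1d4c003a98000000)) 
(.leaf (nat_lit 0x1ecd003260006fb000ddc802af90051b600a62800000001e150039ca00a948015b3002eb7003e5e00000000ea2000000))) 
(.leaf (nat_lit 0xea6001d4c00075580000000000000000000000000fef))) (.node (.node 
(.leaf (nat_lit 0x1d4c003a98000000)) (.leaf (nat_lit 0xea6001d4c000000000000))) 
(.leaf (nat_lit 0x1d4c003a9800000000000000000000000000000))))) (.node (.node (.node (.node 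
(.leaf (nat_lit 0x1d4c003a98000000)) (.leaf (nat_lit 0x1d4c003a9800000000000000000000000000000))) 
(.leaf (nat_lit 0x116500212e0041640105c80159000426600697800bfd001a510034d600000000ee300108a002d3800643400cef00180b0038b0006c50000000000000042f800608400341000000000000007e1400d4c001329003e0800a16800fe3002003))) 
(.node (.node (.leaf (nat_lit 0x1d4c003a98000000)) (.leaf (nat_lit 0x753000ea6000000000000000000))) 
(.leaf (nat_lit 0xea6001d4c00000000000000000000000000000000000)))) (.node (.node (.node 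
(.leaf (nat_lit 0x1d4c003a98000000)) (.leaf (nat_lit 0x1d4c003a98000000))) 
(.leaf (nat_lit 0xea6001d4c00000000000000000000000000000000000))) (.node 
(.leaf (nat_lit 0x1d4c003a98000000)) (.leaf (nat_lit 0x1d4c003a9800000000000000000000000000000))))))
noncomputable def pt12 : Ix (Nat) := (.node (.node (.node (.node (.node (.node 
(.leaf (nat_lit 0x7e6000000000000001576005e700000000000000000000761400b96001d1f)) 
(.leaf (nat_lit 0x1d4c003a9800000000000000000000000000000))) (.leaf (nat_lit 0x1d4c003a98000000))) 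
(.node (.leaf (nat_lit 0x1d4c003a98000000)) (.leaf (nat_lit 0x753000ea6000000000000000000)))) 
(.node (.node (.leaf (nat_lit 0x1d4c003a98000000)) 
(.leaf (nat_lit 0x3a9800753000000000000000000000000))) (.node (.leaf (nat_lit 0x1d4c003a98000000)) 
(.leaf (nat_lit 0x3a9800000000000000000000000000000))))) (.node (.node (.node 
(.leaf (nat_lit 0x1d4c003a98000000)) (.leaf (nat_lit 0x1d4c003a98001356000000000000000000015d6))) 
(.node (.leaf (nat_lit 0x1d4c000000000000)) (.leaf (nat_lit 0x0)))) (.node (.node 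
(.leaf (nat_lit 0x1d4c003a9800047b)) (.leaf (nat_lit 0x753000ea6000126c00000000000))) (.node 
(.leaf (nat_lit 0x1d4c003a98000000)) 
(.leaf (nat_lit 0x1d4c003a9800000000000000000000000000000)))))) (.node (.node (.node (.node (.node 
(.leaf (nat_lit 0x1d4c003a98000000)) (.leaf (nat_lit 0x3a9800753000000000000000000000000))) 
(.leaf (nat_lit 0x1f4400129a0009d800de20014c4002f700068c000b618022a8000e84003c0c00000001f3f0023f8000c280072e00104a))) 
(.node (.leaf (nat_lit 0x0)) (.leaf (nat_lit 0x3a9800753000000000000000000000000)))) (.node (.node 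
(.leaf (nat_lit 0x1d4c003a98000000)) (.leaf (nat_lit 0x753000ea600067dc00000000556))) (.node 
(.leaf (nat_lit 0x1d4c003a98000000)) (.leaf (nat_lit 0x3a9800753000000000000000000000000))))) 
(.node (.node (.node (.leaf (nat_lit 0x1d4c003a98000000)) 
(.leaf (nat_lit 0x1d4c003a98000000000000000000004b280126b))) (.node 
(.leaf (nat_lit 0x1d4c000000000000)) (.leaf (nat_lit 0x3a9800000000000000000000000000000)))) (.node 
(.node (.leaf (nat_lit 0x1d4c003a98000000)) (.leaf (nat_lit 0x753000ea60004c18000000012de))) (.node 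
(.leaf (nat_lit 0x1d4c003a98000000)) 
(.leaf (nat_lit 0x1d4c003a9800000000000000000000000000000)))))))
noncomputable def pt13 : Ix (Nat) := (.node (.node (.node (.node (.node 
(.leaf (nat_lit 0x35140052400126f003f600093d000d5800000000000000540000a68800000)) 
(.leaf (nat_lit 0xea6001d4c000000000000))) (.leaf (nat_lit 0x1d4c003a98000000))) (.node 
(.leaf (nat_lit 0x1d4c003a98000000)) (.leaf (nat_lit 0x3a980075300027a400000000000000000)))) (.node 
(.node (.node (.leaf (nat_lit 0x1d4c003a98000000)) (.leaf (nat_lit 0xea6001d4c001502000a57))) 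
(.leaf (nat_lit 0x3a980075300023fe00000000000000000))) (.node (.leaf (nat_lit 0x1d4c003a98000000)) 
(.leaf (nat_lit 0x824c00d41001cdc0063c800c868019208010000029c80039340165c802fa50035d60085b0011248000c5))))) 
(.node (.node (.node (.node (.leaf (nat_lit 0x1d4c003a98000000)) 
(.leaf (nat_lit 0x1d4c003a98002048))) 
(.leaf (nat_lit 0x10958014490031c200b6d0015710034bb003e76004458010ab8023dc0027e6008fc000e638001eb0042140072b000018001ccc004af2007cf8010bb80245a00489600a204010b700271a004f0e00c048014fc80031c))) 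
(.node (.leaf (nat_lit 0x1d4c003a98000000)) (.leaf (nat_lit 0x3a9800753000251e0000000147880223f)))) 
(.node (.node (.leaf (nat_lit 0x1d4c003a98000000)) 
(.leaf (nat_lit 0x3a9800753000000000000000000000000))) (.node (.leaf (nat_lit 0x1d4c003a98000000)) 
(.leaf (nat_lit 0x753000ea6000000000000000000))))))
noncomputable def pt14 : Ix (Nat) := (.node (.node (.node (.node (.node 
(.leaf (nat_lit 0x1d50001b0600000000b74800000000000000000000f0801508)) 
(.leaf (nat_lit 0x1d4c003a98000000))) (.node (.leaf (nat_lit 0x1d4c003a98000914)) 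
(.leaf (nat_lit 0x1d4c003a98000000000000000000000000001c7)))) (.node (.node 
(.leaf (nat_lit 0x1d4c003a98000000)) 
(.leaf (nat_lit 0x1c0a00401800957c011db002b4c003ad6004d8400dfb001fb7000000000000000000019d5))) 
(.node (.leaf (nat_lit 0x1d4c000000000000)) (.leaf (nat_lit 0xea6001d4c00042f000000))))) (.node 
(.node (.node (.leaf (nat_lit 0x1d4c003a98000000)) (.leaf (nat_lit 0x1d4c003a98000000))) (.node 
(.leaf (nat_lit 0x1d4c003a98000000)) (.leaf (nat_lit 0xea6001d4c000ecd000000)))) (.node (.node 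
(.leaf (nat_lit 0x1d4c003a98000ee3)) (.leaf (nat_lit 0x1d4c003a9800000000000000000000000000000))) 
(.leaf (nat_lit 0x1d4c003a98000000))))) (.node (.node (.node (.node 
(.leaf (nat_lit 0x1d4c003a98000000)) (.leaf (nat_lit 0x1d4c003a98000000))) (.node 
(.leaf (nat_lit 0x1d4c003a98000000)) (.leaf (nat_lit 0xea6001d4c000000000000)))) (.node (.node 
(.leaf (nat_lit 0x1d4c003a98000000)) (.leaf (nat_lit 0x1d4c003a9800173400000000000000000000ed7))) 
(.node (.leaf (nat_lit 0x1d4c000000000000)) (.leaf (nat_lit 0xea6001d4c0009e98002ac))))) (.node 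
(.node (.node (.leaf (nat_lit 0x1d4c003a98000000)) (.leaf (nat_lit 0x1d4c003a980007cf))) (.node 
(.leaf (nat_lit 0x0)) (.leaf (nat_lit 0xea6001d4c000a2380003d)))) (.node (.node 
(.leaf (nat_lit 0x1d4c003a980008d1)) (.leaf (nat_lit 0x3a9800753000000000000000000000000))) 
(.leaf (nat_lit 0x1d4c003a98000000))))))
noncomputable def pt15 : Ix (Nat) := (.node (.node (.node (.node (.node (.node (.node (.node (.node 
(.leaf (nat_lit 0x83b40000000000000351400000000d5280000000000000210000000000000)) 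
(.leaf (nat_lit 0x671800b4c00130900192e00496400552000d4f001eda0042240061e80019b0021b200348c0080c80188d))) 
(.leaf (nat_lit 0x300d0025f60091280175e802c3e001cf000000000b0c800000))) (.node 
(.leaf (nat_lit 0x1d4c003a98000000)) (.leaf (nat_lit 0x1d4c003a98000000)))) (.node (.node 
(.leaf (nat_lit 0xea6001d4c001412800c74)) (.leaf (nat_lit 0x1d4c003a98000c4c))) (.node 
(.leaf (nat_lit 0x1d4c003a980021ac)) (.leaf (nat_lit 0x1d4c003a98000000))))) (.node (.node (.node 
(.node (.leaf (nat_lit 0xea6001d4c000000000000)) (.leaf (nat_lit 0xea6001d4c000000000000))) 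
(.leaf (nat_lit 0x1d4c003a98001477))) (.node (.leaf (nat_lit 0x1d4c003a98000000)) 
(.leaf (nat_lit 0x1d4c003a98000000)))) (.node (.node 
(.leaf (nat_lit 0x3a9800000000000000000000000000000)) 
(.leaf (nat_lit 0x1046001b77002290008a3400e18002b8c0000000071940052300007a))) (.node 
(.leaf (nat_lit 0x1d4c003a9800281d)) (.leaf (nat_lit 0x1d4c003a9800294e)))))) (.node (.node (.node 
(.node (.node (.leaf (nat_lit 0xea6001d4c0004b9000000)) 
(.leaf (nat_lit 0xbda800b718024aa005f3200446001448001f17003b64007c7400f2f800000004ac8004250000000020bf))) 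
(.leaf (nat_lit 0x1d4c003a98000fac))) (.node (.leaf (nat_lit 0x1d4c003a98000000)) 
(.leaf (nat_lit 0x1d4c003a98000000)))) (.node (.node (.leaf (nat_lit 0xea6001d4c000e48000b10)) 
(.leaf (nat_lit 0x1d4c003a98000ed2))) (.node (.leaf (nat_lit 0x1d4c003a98001325)) 
(.leaf (nat_lit 0x1d4c003a98000000))))) (.node (.node (.node (.node 
(.leaf (nat_lit 0xea6001d4c000000000000)) (.leaf (nat_lit 0xea6001d4c000a37800000))) 
(.leaf (nat_lit 0x17f600159800447200ab64012ac802f99003f7c00124c00cf2800000))) (.node 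
(.leaf (nat_lit 0x1d4c003a98000242)) (.leaf (nat_lit 0x1d4c003a980029fe)))) (.node (.node 
(.leaf (nat_lit 0x1d4c003a98000000)) (.leaf (nat_lit 0xea6001d4c000256800000))) (.node 
(.leaf (nat_lit 0x1d4c003a9800142d)) (.leaf (nat_lit 0x753000ea6000000000000000000))))))) (.node 
(.node (.node (.node (.node (.node (.leaf (nat_lit 0x753000ea6000000000000000000)) 
(.leaf (nat_lit 0xea6001d4c000000000000))) (.leaf (nat_lit 0xea6001d4c000b59800000))) (.node 
(.leaf (nat_lit 0x1d4c003a98001017)) (.leaf (nat_lit 0x1d4c003a98002de2)))) (.node (.node 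
(.leaf (nat_lit 0xea6001d4c000800800000)) 
(.leaf (nat_lit 0x5ea200458c0121f80307600000000950c01624802c55))) (.node 
(.leaf (nat_lit 0x1d4c003a98002320)) (.leaf (nat_lit 0x1d4c003a98002c38))))) (.node (.node (.node 
(.node (.leaf (nat_lit 0xea6001d4c000000000000)) (.leaf (nat_lit 0xea6001d4c000960000000))) 
(.leaf (nat_lit 0x1d4c003a980014f0))) (.node (.leaf (nat_lit 0xea6000000000000000000)) 
(.leaf (nat_lit 0x1d4c003a98000000)))) (.node (.node (.leaf (nat_lit 0xea6001d4c000b4f800d20)) 
(.leaf (nat_lit 0xea6001d4c000000000000))) (.node 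
(.leaf (nat_lit 0x21ea00534c00cc50000000035de00703000202000000)) 
(.leaf (nat_lit 0x1d4c003a980023d9)))))) (.node (.node (.node (.node (.node (.leaf (nat_lit 0x0)) 
(.leaf (nat_lit 0xea6001d4c000a37800000))) 
(.leaf (nat_lit 0x615e005c7801121802c5b00000000928400b100030cf))) (.node 
(.leaf (nat_lit 0x1d4c003a98000000)) (.leaf (nat_lit 0x1d4c003a98000000)))) (.node (.node 
(.leaf (nat_lit 0xea6001d4c000000000000)) (.leaf (nat_lit 0x1d4c003a98000000))) (.node 
(.leaf (nat_lit 0x1d4c003a98000000)) (.leaf (nat_lit 0x1d4c003a98000000))))) (.node (.node (.node 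
(.leaf (nat_lit 0x753000ea6000000000000000000)) (.leaf (nat_lit 0x753000ea60005a4400000000768))) 
(.node (.leaf (nat_lit 0x1d4c003a9800135f)) (.leaf (nat_lit 0x1d4c003a9800228f)))) (.node (.node 
(.leaf (nat_lit 0xea6001d4c001488800f63)) (.leaf (nat_lit 0x1d4c003a98000000))) (.node 
(.leaf (nat_lit 0xea6001d4c000b510004bf)) (.leaf (nat_lit 0x753000ea6000592c00000000000)))))))) 
(.node (.node (.node (.node (.node (.node (.node (.leaf (nat_lit 0x753000ea6000000000000000000)) 
(.leaf (nat_lit 0xea6001d4c000000000000))) (.leaf (nat_lit 0x1d4c003a98000ec2))) (.node 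
(.leaf (nat_lit 0x1d4c003a98000000)) (.leaf (nat_lit 0x1d4c003a98000000)))) (.node (.node 
(.leaf (nat_lit 0xea6001d4c00105c001ef9)) (.leaf (nat_lit 0x1d4c003a98000bab))) (.node 
(.leaf (nat_lit 0x1d4c003a98002ba5)) (.leaf (nat_lit 0x1d4c003a98000000))))) (.node (.node (.node 
(.node (.leaf (nat_lit 0x753000ea6000000000000000000)) (.leaf (nat_lit 0xea6001d4c000000000000))) 
(.leaf (nat_lit 0xc2a00111780317a004476001e6801696002751))) (.node 
(.leaf (nat_lit 0x353a000000000000008ad00000000000000000001b6c)) 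
(.leaf (nat_lit 0x1d4c003a980028b3)))) (.node (.node 
(.leaf (nat_lit 0x753000ea6000494000000001650)) (.leaf (nat_lit 0xea6001d4c000000000000))) (.node 
(.leaf (nat_lit 0x1d4c003a98000000)) (.leaf (nat_lit 0x1d4c003a98002212)))))) (.node (.node (.node 
(.node (.node (.leaf (nat_lit 0xea6001d4c000000000000)) 
(.leaf (nat_lit 0xea6001d4c000bea800e9a000000003cd400000000000))) 
(.leaf (nat_lit 0x1d4c003a9800130f))) (.node (.leaf (nat_lit 0xea6000000000000000000)) 
(.leaf (nat_lit 0x1d4c003a98000000)))) (.node (.node (.leaf (nat_lit 0xea6001d4c000e8f800000)) 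
(.leaf (nat_lit 0xca64010af00313b0040c20021f80168a802827))) (.node 
(.leaf (nat_lit 0x1d4c003a98000634)) (.leaf (nat_lit 0x1d4c003a98002c26))))) (.node (.node (.node 
(.node (.leaf (nat_lit 0xea6001d4c000000000000)) (.leaf (nat_lit 0x753000ea60005e9c00000000000))) 
(.leaf (nat_lit 0x1d4c003a9800045a))) (.node (.leaf (nat_lit 0x1d4c003a980012cb)) 
(.leaf (nat_lit 0x1d4c003a980016f7)))) (.node (.node (.leaf (nat_lit 0x1d4c003a98000065)) 
(.leaf (nat_lit 0xea6001d4c00034e800000))) (.node 
(.leaf (nat_lit 0x18090016cf004bb800bbbc016388000000005c00052fc00a79800000)) 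
(.leaf (nat_lit 0x603e0059d80122980305d001dfc00bd9800000001c3200379a00000000b25801f22))))))) (.node 
(.node (.node (.node (.node (.node (.leaf (nat_lit 0xea6001d4c000f07800000)) 
(.leaf (nat_lit 0xea6001d4c000a2a800000))) (.leaf (nat_lit 0x17fe001288004acc0097040173f002f26))) 
(.node (.leaf (nat_lit 0x1d4c003a980008ab)) (.leaf (nat_lit 0x1d4c003a98002e42)))) (.node (.node 
(.leaf (nat_lit 0xea6001d4c000c66800000)) (.leaf (nat_lit 0x1d4c003a98000c5a))) (.node 
(.leaf (nat_lit 0x1d4c003a98001d9e)) (.leaf (nat_lit 0x1d4c003a98002c08))))) (.node (.node (.node 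
(.node (.leaf (nat_lit 0xea6001d4c000517000000)) 
(.leaf (nat_lit 0xbda000a4b8024aa005e8000000001159801c7900295c0070ac00000001b71))) 
(.leaf (nat_lit 0x1d4c003a98001041))) (.node (.leaf (nat_lit 0xea6000000000000000000)) 
(.leaf (nat_lit 0x1d4c003a98002f4e)))) (.node (.node (.leaf (nat_lit 0xea6001d4c000d6e800000)) 
(.leaf (nat_lit 0xea6001d4c0017d0000c8f))) (.node (.leaf (nat_lit 0xea6000000000000000000)) 
(.leaf (nat_lit 0x753000ea6000000000000000000)))))) (.node (.node (.node (.node (.node 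
(.leaf (nat_lit 0x3a9800000000000000000000000000000)) 
(.leaf (nat_lit 0x66e000d460014aa00363c00053c00d920017680008c60041b800000000000))) 
(.leaf (nat_lit 0x1d4c003a98000c52))) (.node (.leaf (nat_lit 0x1d4c003a98000000)) 
(.leaf (nat_lit 0x1d4c003a98000000)))) (.node (.node 
(.leaf (nat_lit 0x36980098080166b000902000000000000004350000000027dc00000000000)) 
(.leaf (nat_lit 0x1d4c003a980014ab))) (.node (.leaf (nat_lit 0x1d4c003a980009f4)) 
(.leaf (nat_lit 0x1d4c003a98002baf))))) (.node (.node (.node (.leaf (nat_lit 0x1d4c003a98000000)) 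
(.leaf (nat_lit 0x179d800cd50046e800bbb800de5002ba2))) (.node (.leaf (nat_lit 0x1d4c003a980022e0)) 
(.leaf (nat_lit 0x1d4c003a98002b84)))) (.node (.node (.leaf (nat_lit 0x1d4c003a98000000)) 
(.leaf (nat_lit 0x1d4c003a98000000))) (.node (.leaf (nat_lit 0x1d4c003a98001076)) 
(.leaf (nat_lit 0x753000ea600059a000000000000))))))))) (.node (.node (.node (.node (.node (.node 
(.node (.node (.leaf (nat_lit 0x753000ea60003e1c00000000000)) 
(.leaf (nat_lit 0xea6001d4c000992800000))) (.leaf (nat_lit 0xea6001d4c0016b0800806))) (.node 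
(.leaf (nat_lit 0x1d4c003a98000000)) (.leaf (nat_lit 0x1d4c003a98000000)))) (.node (.node 
(.leaf (nat_lit 0xea6001d4c00130900103b)) (.leaf (nat_lit 0x1d4c003a98000000))) (.node 
(.leaf (nat_lit 0x1d4c003a9800097d)) (.leaf (nat_lit 0x1d4c003a98000f72))))) (.node (.node (.node 
(.node (.leaf (nat_lit 0xea6001d4c000000000000)) (.leaf (nat_lit 0xea6001d4c000000000000))) 
(.leaf (nat_lit 0x1d4c003a98000000))) (.node (.leaf (nat_lit 0x1d4c003a98000000)) 
(.leaf (nat_lit 0x634600594401168802fac0000000095180129f002d86)))) (.node (.node 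
(.leaf (nat_lit 0xea6001d4c000859800000)) (.leaf (nat_lit 0x753000ea6000000000000000000))) (.node 
(.leaf (nat_lit 0x1d4c003a98001b3b)) (.leaf (nat_lit 0x1d4c003a980011b0)))))) (.node (.node (.node 
(.node (.node (.leaf (nat_lit 0xea6001d4c000af9800000)) (.leaf (nat_lit 0xea6001d4c001691801207))) 
(.leaf (nat_lit 0x1d4c003a98000000))) (.node (.leaf (nat_lit 0x0)) 
(.leaf (nat_lit 0x346a0068d800000000f9b0000000074580106000189b)))) (.node (.node 
(.leaf (nat_lit 0x1d4c003a980023db)) (.leaf (nat_lit 0x1d4c003a9800011f))) (.node 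
(.leaf (nat_lit 0x1d4c003a98000000)) (.leaf (nat_lit 0x18188005af004af000c60000000002495))))) 
(.node (.node (.node (.node (.leaf (nat_lit 0x1d4c000000000000)) 
(.leaf (nat_lit 0xea6001d4c00167c800b0f))) (.leaf (nat_lit 0xea6001d4c00169d800bed))) (.node 
(.leaf (nat_lit 0x1d4c003a98000000)) (.leaf (nat_lit 0x1d4c003a9800180a)))) (.node (.node 
(.leaf (nat_lit 0x1d4c000000000000)) (.leaf (nat_lit 0x1d4c003a98000dc9))) (.node 
(.leaf (nat_lit 0x1d4c003a98002daf)) (.leaf (nat_lit 0xea6001d4c000000000000))))))) (.node (.node 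
(.node (.node (.node (.node (.leaf (nat_lit 0xea6001d4c000000000000)) 
(.leaf (nat_lit 0xea6001d4c000000000000))) (.leaf (nat_lit 0xea6001d4c00012d800000))) (.node 
(.leaf (nat_lit 0x1d4c003a98000000)) (.leaf (nat_lit 0x1d4c003a9800106e)))) (.node (.node 
(.leaf (nat_lit 0xea6001d4c0016d3000b1c)) (.leaf (nat_lit 0x1d4c003a9800290c))) (.node 
(.leaf (nat_lit 0x1d4c003a98001757)) (.leaf (nat_lit 0x1d4c003a98000cc8))))) (.node (.node (.node 
(.node (.leaf (nat_lit 0x1b2900000000000000eeb00182800000000000000000000000)) 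
(.leaf (nat_lit 0xea6001d4c000000000000))) (.leaf (nat_lit 0x1d4c003a98002465))) (.node 
(.leaf (nat_lit 0x1d4c003a98000000)) (.leaf (nat_lit 0x1d4c003a98000000)))) (.node (.node 
(.leaf (nat_lit 0xea6001d4c000000000000)) 
(.leaf (nat_lit 0x1907000ebd0048e800b21401304002f7000000000800c005a4800000))) (.node 
(.leaf (nat_lit 0x1d4c003a98000000)) 
(.leaf (nat_lit 0x3f06007bf0008e000211e00000000846c0000000198c00328a00490400000001c0e)))))) (.node 
(.node (.node (.node (.node (.leaf (nat_lit 0x3a9800000000000000000000000000000)) 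
(.leaf (nat_lit 0xea6001d4c00167c801196))) (.leaf (nat_lit 0x1d4c003a98002a89))) (.node 
(.leaf (nat_lit 0x1d4c003a98000000)) (.leaf (nat_lit 0x1d4c003a98000000)))) (.node (.node 
(.leaf (nat_lit 0xea6001d4c000de40002d6)) (.leaf (nat_lit 0x1d4c003a980026bc))) (.node 
(.leaf (nat_lit 0xea6000000000000000000)) (.leaf (nat_lit 0x1d4c003a98000e42))))) (.node (.node 
(.node (.leaf (nat_lit 0xea6001d4c0009f8000fb6)) (.leaf (nat_lit 0xea6001d4c00006b800000))) (.node 
(.leaf (nat_lit 0x1d4c003a980023d2)) (.leaf (nat_lit 0xc3b0009388023f3005eca001194017b2000000)))) 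
(.node (.node (.leaf (nat_lit 0x20df0020780000000000000000000000000000000000000000)) 
(.leaf (nat_lit 0x1d4c003a98000000))) (.node (.leaf (nat_lit 0xea6001d4c0001ad800000)) 
(.leaf (nat_lit 0xea6001d4c000000000000)))))))) (.node (.node (.node (.node (.node (.node (.node 
(.leaf (nat_lit 0x753000ea6000000000000000000)) (.leaf (nat_lit 0xea6001d4c000000000000))) 
(.leaf (nat_lit 0xea6001d4c000197000000))) (.node (.leaf (nat_lit 0x1d4c003a98000e72)) 
(.leaf (nat_lit 0x18b180028c004bfc00beac00e35802e1c)))) (.node (.node 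
(.leaf (nat_lit 0xea6001d4c001117800a9a)) (.leaf (nat_lit 0x1d4c003a98002a5e))) (.node 
(.leaf (nat_lit 0x1d4c003a9800072f)) (.leaf (nat_lit 0x17d38017ad004af000be8c0000000288c))))) 
(.node (.node (.node (.node (.leaf (nat_lit 0x753000ea6000000000000000000)) 
(.leaf (nat_lit 0xea6001d4c000000000000))) (.leaf (nat_lit 0x1d4c003a98002843))) (.node 
(.leaf (nat_lit 0x1d4c003a98000000)) (.leaf (nat_lit 0x1d4c003a980005b7)))) (.node (.node 
(.leaf (nat_lit 0xea6001d4c0014fe8011c1)) (.leaf (nat_lit 0x1d4c003a98000000))) (.node 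
(.leaf (nat_lit 0x1d4c003a98001ab7)) (.leaf (nat_lit 0x1d4c003a98000b74)))))) (.node (.node (.node 
(.node (.node (.leaf (nat_lit 0xea6001d4c000000000000)) (.leaf (nat_lit 0xea6001d4c00041c800000))) 
(.leaf (nat_lit 0x1d4c003a980003e5))) (.node (.leaf (nat_lit 0xea6000000000000000000)) 
(.leaf (nat_lit 0x1d4c003a98000000)))) (.node (.node (.leaf (nat_lit 0xea6001d4c000d33000000)) 
(.leaf (nat_lit 0x1d4c003a98002c76))) (.node 
(.leaf (nat_lit 0x18fa00500800a818000000034fc005d500019e000000)) 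
(.leaf (nat_lit 0x1d4c003a98000d59))))) (.node (.node (.node (.node 
(.leaf (nat_lit 0xea6001d4c0009ec000000)) (.leaf (nat_lit 0xea6001d4c000000000000))) 
(.leaf (nat_lit 0xea6001d4c0003c3800000))) (.node (.leaf (nat_lit 0x1d4c003a98000000)) 
(.leaf (nat_lit 0x1d4c003a98000a51)))) (.node (.node (.leaf (nat_lit 0x1d4c003a980000cb)) 
(.leaf (nat_lit 0xcfe000981002aac003eb800000001fe6))) (.node 
(.leaf (nat_lit 0xea6001d4c0016b0800afa)) (.leaf (nat_lit 0xea6001d4c0016ba800fef))))))) (.node 
(.node (.node (.node (.node (.node (.leaf (nat_lit 0xea6001d4c0009c6000000)) 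
(.leaf (nat_lit 0xea6001d4c000000000000))) (.leaf (nat_lit 0x1d4c003a98002ec1))) (.node 
(.leaf (nat_lit 0x1d4c003a98000000)) (.leaf (nat_lit 0x1d4c003a98001091)))) (.node (.node 
(.leaf (nat_lit 0x753000ea60009fd00000000047b)) (.leaf (nat_lit 0x1d4c003a9800277f))) (.node 
(.leaf (nat_lit 0x1d4c003a98000fc2)) (.leaf (nat_lit 0x1d4c003a98001827))))) (.node (.node (.node 
(.node (.leaf (nat_lit 0x1d4c00000000000000000000000000000000000)) 
(.leaf (nat_lit 0xea6001d4c0016bd802133))) (.leaf (nat_lit 0x1d4c003a9800248e))) (.node 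
(.leaf (nat_lit 0x1d4c003a98000000)) 
(.leaf (nat_lit 0x63b800930c0187580279800124c00a23800000002833)))) (.node (.node 
(.leaf (nat_lit 0x68c800b12002c7200000000000000000)) 
(.leaf (nat_lit 0x753000ea600061b400000000000))) (.node (.leaf (nat_lit 0x1d4c003a98001762)) 
(.leaf (nat_lit 0xea6001d4c000000000000)))))) (.node (.node (.node (.node (.node 
(.leaf (nat_lit 0x3a9800753000000000000000000000000)) (.leaf (nat_lit 0xea6001d4c0007dd800000))) 
(.leaf (nat_lit 0x1d4c003a98000000))) (.node (.leaf (nat_lit 0x1d4c003a98000000)) 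
(.leaf (nat_lit 0x1d4c003a98000000)))) (.node (.node 
(.leaf (nat_lit 0x753000ea6000000000000000000)) (.leaf (nat_lit 0x1d4c003a9800266d))) (.node 
(.leaf (nat_lit 0x1d4c003a9800036e)) 
(.leaf (nat_lit 0x61b400960c01761802aef00000000ab2c001a70027b0))))) (.node (.node (.node 
(.leaf (nat_lit 0xea6001d4c000a9b000ce4)) (.leaf (nat_lit 0x1d4c003a980028c2))) (.node 
(.leaf (nat_lit 0x1d4c003a98001eaf)) (.leaf (nat_lit 0x1d4c003a98001196)))) (.node (.node 
(.leaf (nat_lit 0x1d4c003a98000000)) (.leaf (nat_lit 0x1d4c003a98000000))) (.node 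
(.leaf (nat_lit 0xea6001d4c000404800000)) (.leaf (nat_lit 0xea6001d4c00024000004d))))))))))
noncomputable def pt16 : Ix (Nat) := (.node (.node (.node (.node (.node (.node 
(.leaf (nat_lit 0x3502000000000000000000006b2000000001c3000000000000006040000000015bc00384c006c2000b24800000)) 
(.leaf (nat_lit 0x1d4c003a98000000))) (.leaf (nat_lit 0x1d4c003a98000363))) (.node 
(.leaf (nat_lit 0xea6001d4c00014d800000)) (.leaf (nat_lit 0x1d4c003a9800082a)))) (.node (.node 
(.leaf (nat_lit 0xea6001d4c000b52800000)) (.leaf (nat_lit 0x1d4c003a98000000))) (.node 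
(.leaf (nat_lit 0xea6001d4c00000000000000000000000000000000000)) 
(.leaf (nat_lit 0x1d4c000000000000))))) (.node (.node (.node (.node 
(.leaf (nat_lit 0xea6001d4c00000000000000000000000000000000000)) 
(.leaf (nat_lit 0x1d4c003a98000000))) (.leaf (nat_lit 0x1d4c003a98000000))) (.node 
(.leaf (nat_lit 0xea6000000000000000000)) (.leaf (nat_lit 0x1d4c003a98000000)))) (.node (.node 
(.leaf (nat_lit 0xea6001d4c00036e800000)) (.leaf (nat_lit 0x1d4c003a98000adc))) (.node 
(.leaf (nat_lit 0xea6001d4c000000000000)) (.leaf (nat_lit 0x1d4c003a98000000)))))) (.node (.node 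
(.node (.node (.node (.leaf (nat_lit 0xea6001d4c000a4c00000000000000000000000000000)) 
(.leaf (nat_lit 0x1d4c003a98000000))) (.leaf (nat_lit 0x1d4c003a98000000))) (.node 
(.leaf (nat_lit 0x0)) (.leaf (nat_lit 0x1d4c003a98000000)))) (.node (.node 
(.leaf (nat_lit 0xea6001d4c0009d8000d56)) (.leaf (nat_lit 0x1d4c003a98002f5a))) (.node 
(.leaf (nat_lit 0xea6001d4c00000000000000000000000000000000000)) 
(.leaf (nat_lit 0x1d4c000000000000))))) (.node (.node (.node (.node 
(.leaf (nat_lit 0x1d4c003a9800000000000000000000000000000)) (.leaf (nat_lit 0x1d4c003a98000000))) 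
(.leaf (nat_lit 0x1d4c003a98000601))) (.node (.leaf (nat_lit 0xea6001d4c000000000000)) 
(.leaf (nat_lit 0x0)))) (.node (.node (.leaf (nat_lit 0xea6001d4c000000000000)) 
(.leaf (nat_lit 0x1d4c003a98001046))) (.node 
(.leaf (nat_lit 0x1c620018920000000082000000000000000000800f04800000)) 
(.leaf (nat_lit 0x1d4c003a98000000)))))))
noncomputable def pt17 : Ix (Nat) := (.node (.node (.node (.node (.node 
(.leaf (nat_lit 0x9d4000f5d00266a007c4c00000001a30001206006af400d018013d800306a000000000d480181e)) 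
(.leaf (nat_lit 0xea6001d4c00038a000000))) (.leaf (nat_lit 0xea6001d4c000000000000))) (.node (.node 
(.leaf (nat_lit 0x753000ea6000000000000000000)) (.leaf (nat_lit 0x1d4c003a98000000))) 
(.leaf (nat_lit 0xea6001d4c00061f000000)))) (.node (.node (.node 
(.leaf (nat_lit 0xea6001d4c000000000000)) 
(.leaf (nat_lit 0x831400eb3801d600043c4001bd40105480095f))) 
(.leaf (nat_lit 0xea6001d4c0008ab800000))) (.node (.node (.leaf (nat_lit 0xea6001d4c000000000000)) 
(.leaf (nat_lit 0x1d4c003a98000000))) (.leaf (nat_lit 0xea6001d4c000000000000))))) (.node (.node 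
(.node (.node (.leaf (nat_lit 0xea6001d4c000943000000)) (.leaf (nat_lit 0xea6001d4c000000000000))) 
(.leaf (nat_lit 0x13b100219c004d7800fd38000000033c000661800af380125a))) (.node (.node 
(.leaf (nat_lit 0xea6001d4c000000000000)) (.leaf (nat_lit 0x1d4c003a98000000))) 
(.leaf (nat_lit 0xea6001d4c000000000000)))) (.node (.node (.node 
(.leaf (nat_lit 0x753000ea6000367400000000000)) (.leaf (nat_lit 0x1d4c003a98000000))) 
(.leaf (nat_lit 0xea6001d4c000000000000))) (.node (.leaf (nat_lit 0xea6001d4c0001ab800000)) 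
(.leaf (nat_lit 0xea6001d4c000000000000))))))
noncomputable def pt18 : Ix (Nat) := (.node (.node (.node (.node (.node 
(.leaf (nat_lit 0x67b801095000a08005f3400427000000000000000000004338017db)) 
(.leaf (nat_lit 0x1d4c003a98001900))) (.leaf (nat_lit 0x1d4c003a98000000))) (.node 
(.leaf (nat_lit 0x1d4c003a98000000)) 
(.leaf (nat_lit 0x1d4c003a980010170000000000000000000000000000000000000000000000)))) (.node (.node 
(.node (.leaf (nat_lit 0x1d4c003a98000000)) (.leaf (nat_lit 0x1d4c003a98000000))) 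
(.leaf (nat_lit 0xea6001d4c0008ed80000000000000000000000000518))) (.node 
(.leaf (nat_lit 0x1d4c003a98000000)) 
(.leaf (nat_lit 0x7eb000da0001bb5006b8000d9600000000087d005c7000b41400dce0019c2))))) (.node (.node 
(.node (.node (.leaf (nat_lit 0x1d4c003a98000000)) (.leaf (nat_lit 0x1d4c003a98000000))) 
(.leaf (nat_lit 0x80b400a448017430049c4009dc801071001abf0031b60055e00101b8020b0002e22005124009c2001f26003f96007c980022c001fcd004404006f60010ea000c6300000000547800076800000))) 
(.node (.leaf (nat_lit 0x1d4c003a98000000)) (.leaf (nat_lit 0x753000ea60004d3000000000000)))) 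
(.node (.node (.leaf (nat_lit 0x1d4c003a98000000)) 
(.leaf (nat_lit 0xea6001d4c00000000000000000000000000000000000))) (.node 
(.leaf (nat_lit 0x1d4c003a98000000)) (.leaf (nat_lit 0x1d4c003a98001d77))))))
noncomputable def pt19 : Ix (Nat) := (.node (.node (.node (.node (.node 
(.leaf (nat_lit 0x834001402001ce40050f40000000000000000000000000000000ac0)) 
(.leaf (nat_lit 0x1d4c003a98000000))) (.leaf (nat_lit 0x1d4c003a98000000))) (.node 
(.leaf (nat_lit 0x1d4c003a98000000)) 
(.leaf (nat_lit 0xea6001d4c0009ce0000000000000000000000000038f)))) (.node (.node (.node 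
(.leaf (nat_lit 0x1d4c003a98000000)) (.leaf (nat_lit 0x1d4c003a980031d8))) 
(.leaf (nat_lit 0xea6001d4c000a66000000))) (.node (.leaf (nat_lit 0x1d4c003a98000000)) 
(.leaf (nat_lit 0x2352003a8800811801ca10018d6000c0e00ba18013eb8020a2))))) (.node (.node (.node 
(.node (.leaf (nat_lit 0x1d4c003a98000000)) (.leaf (nat_lit 0x1d4c003a980016d7))) 
(.leaf (nat_lit 0x4a58004adc00d81800000005482009628010898020bd003bfe00949c00295801fa000433c0089140104100273a))) 
(.node (.leaf (nat_lit 0x1d4c003a98000000)) (.leaf (nat_lit 0xea6001d4c000b0f80046b)))) (.node 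
(.node (.leaf (nat_lit 0x1d4c003a98000000)) (.leaf (nat_lit 0xea6001d4c000000000000))) (.node 
(.leaf (nat_lit 0x1d4c003a98000000)) (.leaf (nat_lit 0x1d4c003a98000000))))))
noncomputable def pt20 : Ix (Nat) := (.node (.node (.node (.node (.node (.node (.node (.node (.node 
(.leaf (nat_lit 0x1ea30000000000000000000000000000000478000000001296000000000000000000000000000000000000114080000000000000000000000000000)) 
(.leaf (nat_lit 0x1d4c003a9800187a00000000122000000000d6300000000000000478800513))) 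
(.leaf (nat_lit 0x5f6e005074011a3802da8005b220028cc000000000f5001e400000000101b000000))) (.node 
(.leaf (nat_lit 0x1d4c003a98000000)) (.leaf (nat_lit 0x1d4c003a98000000)))) (.node (.node 
(.leaf (nat_lit 0x3a98007530004fa200119c012c58011fa)) (.leaf (nat_lit 0x1d4c003a980005f3))) (.node 
(.leaf (nat_lit 0x1d4c003a98001a37)) 
(.leaf (nat_lit 0x3a98007530000000000000000000000000000000000000000000000000000000000000000000000))))) 
(.node (.node (.node (.node (.leaf (nat_lit 0xea6001d4c00000000000000000000000000000000000)) 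
(.leaf (nat_lit 0xbd50009d2001fa70058e800b64800000000840000000000000012540026d0))) 
(.leaf (nat_lit 0x1d4c003a9800098f))) (.node (.leaf (nat_lit 0x1d4c003a98000000)) 
(.leaf (nat_lit 0x1d4c003a98000000)))) (.node (.node (.leaf (nat_lit 0x1d4c000000000000)) 
(.leaf (nat_lit 0x1df300364c00473c015280028a6000000000000005dd800f5e00000000000000804000e1b))) 
(.node (.leaf (nat_lit 0x1d4c003a98002bef)) 
(.leaf (nat_lit 0xb73800a0e801f350059f400b54800000000000000000000000011cb0026a4)))))) (.node (.node 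
(.node (.node (.node (.leaf (nat_lit 0x753000ea60002cc000022000000)) 
(.leaf (nat_lit 0x1d4c003a98000000))) (.leaf (nat_lit 0x1d4c003a98000dfe))) (.node 
(.leaf (nat_lit 0x1d4c003a98000000)) (.leaf (nat_lit 0x1d4c003a98000000)))) (.node (.node 
(.leaf (nat_lit 0x3a9800753000392000000000000000000)) (.leaf (nat_lit 0x1d4c003a980002b6))) (.node 
(.leaf (nat_lit 0x1d4c003a9800162a)) 
(.leaf (nat_lit 0x5dd000ad8800e97002d2c005694000000007cf001c12002d7c005cd0011a7))))) (.node (.node 
(.node (.node (.leaf (nat_lit 0x753000ea6000000000000000000)) (.leaf (nat_lit 0x1d4c003a980010f0))) 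
(.leaf (nat_lit 0xb8fc00a9d0021370047ae00abf8011be801ce80031b400738c00e7c0000000030a800419c0110c8000000046a0009028005c6801cd40037520079c800fb480000000169a00000000293000034))) 
(.node (.leaf (nat_lit 0x1d4c003a980003c4)) (.leaf (nat_lit 0x1d4c003a98002041)))) (.node (.node 
(.leaf (nat_lit 0x1d4c003a980000000000000000000000000000000000000000000000000000)) 
(.leaf (nat_lit 0xea6001d4c000036000000))) (.node (.leaf (nat_lit 0x1d4c003a98000000)) 
(.leaf (nat_lit 0x753000ea6000000000000000000))))))) (.node (.node (.node (.node (.node (.node 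
(.leaf (nat_lit 0x3a980075300007900000000000000000000000000000000126001177)) 
(.leaf (nat_lit 0x1849802409005dd2009c8c01429800000000000000000012ef8025e6))) 
(.leaf (nat_lit 0x1d4c003a98000b37))) (.node (.leaf (nat_lit 0x1d4c003a9800089a)) 
(.leaf (nat_lit 0x1d4c003a98001f4d)))) (.node (.node 
(.leaf (nat_lit 0x3a9800753000000000645800b460003d9)) 
(.leaf (nat_lit 0xba58007048022300048c400a7ec0002f8011c6))) (.node 
(.leaf (nat_lit 0x1d4c003a98001089)) (.leaf (nat_lit 0xea6001d4c000a990001ca))))) (.node (.node 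
(.node (.node (.leaf (nat_lit 0x3a9800753000000000000000000000000)) 
(.leaf (nat_lit 0x1d4c003a980001c8))) (.leaf (nat_lit 0x1d4c003a98000000))) (.node 
(.leaf (nat_lit 0x1d4c000000000000)) (.leaf (nat_lit 0x1d4c003a98000000)))) (.node (.node 
(.leaf (nat_lit 0x3a980075300032f200000000341800000)) (.leaf (nat_lit 0xea6001d4c000000000000))) 
(.node (.leaf (nat_lit 0x2d4000900801404000000000000008bb8012e3002fe0005ec800313001324)) 
(.leaf (nat_lit 0x1d4c003a98000000)))))) (.node (.node (.node (.node (.node (.leaf (nat_lit 0x0)) 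
(.leaf (nat_lit 0x1d4c003a98000621))) (.leaf (nat_lit 0xbf08000000023130058d600b65400d21802b2a))) 
(.node (.leaf (nat_lit 0x1d4c003a98000000)) (.leaf (nat_lit 0x1d4c003a98000000)))) (.node (.node 
(.leaf (nat_lit 0x753000ea6000000000000000000)) (.leaf (nat_lit 0x1d4c003a98001692))) (.node 
(.leaf (nat_lit 0x1d4c003a98000000)) (.leaf (nat_lit 0x1d4c003a98000000))))) (.node (.node (.node 
(.leaf (nat_lit 0x1d4c003a98000000)) (.leaf (nat_lit 0x1d4c003a98000000))) (.node 
(.leaf (nat_lit 0x1d4c003a98000cb1)) (.leaf (nat_lit 0x1d4c003a9800201e)))) (.node (.node 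
(.leaf (nat_lit 0x3a9800753000521c00000000e7d801025)) (.leaf (nat_lit 0x1d4c003a98000000))) (.node 
(.leaf (nat_lit 0x1d4c003a98000bb2)) (.leaf (nat_lit 0x753000ea600049b000000000000)))))))) (.node 
(.node (.node (.node (.node (.node (.node 
(.leaf (nat_lit 0x3a980075300000000000000000000000000000000000000000000000)) 
(.leaf (nat_lit 0xea6001d4c000991000000))) (.leaf (nat_lit 0xea6001d4c000af40000ef))) (.node 
(.leaf (nat_lit 0x1d4c003a98000000)) (.leaf (nat_lit 0x1d4c003a98000000)))) (.node (.node 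
(.leaf (nat_lit 0x3a980075300043ba00000000777800d66)) (.leaf (nat_lit 0x1d4c003a98000000))) (.node 
(.leaf (nat_lit 0x1d4c003a98002776)) 
(.leaf (nat_lit 0xbcdc00aca8023f1005afa00b508000000024040033800076880110e0023f200405600572c00dc580000000000000807000c7a80213a0028080080fc00d0f801fae))))) 
(.node (.node (.node (.node (.leaf (nat_lit 0xea6001d4c00000000000000000000000000000000000)) 
(.leaf (nat_lit 0x1d4c003a98000000))) 
(.leaf (nat_lit 0x17f4002266005bbc0028a000f590018210043820040c800bb600251d))) (.node 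
(.leaf (nat_lit 0x1903000000000000007dc800bf500000000000000b820019a2)) 
(.leaf (nat_lit 0x1d4c003a98002b11)))) (.node (.node (.leaf (nat_lit 0x1d4c003a98000000)) 
(.leaf (nat_lit 0xea6001d4c000000000000))) (.node (.leaf (nat_lit 0x1d4c003a98000000)) 
(.leaf (nat_lit 0x1d4c003a98000a8b)))))) (.node (.node (.node (.node (.node 
(.leaf (nat_lit 0x753000ea6000000000000000000)) 
(.leaf (nat_lit 0x17ec00179a0049be00c52001899800000))) (.leaf (nat_lit 0x1d4c003a98000cba))) (.node 
(.leaf (nat_lit 0x1d4c000000000000)) (.leaf (nat_lit 0x1d4c003a98000000)))) (.node (.node 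
(.leaf (nat_lit 0x753000ea600073f000003801659)) 
(.leaf (nat_lit 0xc8480127080321a00554400a9200064d800200))) (.node 
(.leaf (nat_lit 0x1d4c003a98001a6e)) (.leaf (nat_lit 0x1d4c003a98000000))))) (.node (.node (.node 
(.node (.leaf (nat_lit 0xea6001d4c000000000000)) (.leaf (nat_lit 0x1d4c003a9800094d))) 
(.leaf (nat_lit 0x1d4c003a9800183b00000000000000500800b22000000000000002d3000000))) (.node 
(.leaf (nat_lit 0x1d4c003a98000e04)) (.leaf (nat_lit 0x1d4c003a98001dd2)))) (.node (.node 
(.leaf (nat_lit 0xea6001d4c00091b80012f000000002304008ca000000)) 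
(.leaf (nat_lit 0xea6001d4c0002a0800000))) (.node 
(.leaf (nat_lit 0xbc540041500247e002f4c00b010014fd802b4c)) 
(.leaf (nat_lit 0xea6001d4c000000000000))))))) (.node (.node (.node (.node (.node (.node 
(.leaf (nat_lit 0x753000ea6000847000000000000)) (.leaf (nat_lit 0x1d4c003a98001096))) 
(.leaf (nat_lit 0x2f55002c0c008480015fe002a7c00000000000001706802acf))) (.node 
(.leaf (nat_lit 0x1d4c003a980008f7)) (.leaf (nat_lit 0x1d4c003a98000e06)))) (.node (.node 
(.leaf (nat_lit 0x3a9800753000316c000000000000001af)) (.leaf (nat_lit 0x1d4c003a980007ce))) (.node 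
(.leaf (nat_lit 0x1d4c003a98002085)) 
(.leaf (nat_lit 0x3a98007530002cc600685c000730000000000000031a40000000001f001a3c0000000069f800482))))) 
(.node (.node (.node (.node (.leaf (nat_lit 0x753000ea6000298800000000000)) 
(.leaf (nat_lit 0x17a080116c00459200bb4401759800000))) (.leaf (nat_lit 0x1d4c003a98000634))) (.node 
(.leaf (nat_lit 0x753000000000000000000000000)) (.leaf (nat_lit 0x1d4c003a98002b5d)))) (.node 
(.node (.leaf (nat_lit 0x3a9800753000383800000000584000401)) 
(.leaf (nat_lit 0xea6001d4c001726800000))) (.node (.leaf (nat_lit 0x753000000000000000000000000)) 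
(.leaf (nat_lit 0x5ce800cc2801264003512006248002e4001608000000005f2400d2e8000520014360067dc00000001a290025a200319400cd4801c20)))))) 
(.node (.node (.node (.node (.node (.leaf (nat_lit 0x3a9800000000000000000000000000000)) 
(.leaf (nat_lit 0x1d4c003a98001307))) (.leaf (nat_lit 0x1d4c003a98000911))) (.node 
(.leaf (nat_lit 0x1d4c003a98000000)) (.leaf (nat_lit 0x1d4c003a98000000)))) (.node (.node 
(.leaf (nat_lit 0x62f000d9c0027fc0000000000000155f)) (.leaf (nat_lit 0x1d4c003a980006bd))) (.node 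
(.leaf (nat_lit 0x1d4c003a98000466)) (.leaf (nat_lit 0x1d4c003a98000000))))) (.node (.node (.node 
(.leaf (nat_lit 0x3a980075300000000000000000000000000000000000000000000000)) 
(.leaf (nat_lit 0xb84c009b980202a00600800ad400000000000000466e008fc0013a50027d6))) (.node 
(.leaf (nat_lit 0x1d4c003a98002137)) (.leaf (nat_lit 0xea6001d4c000000000000)))) (.node (.node 
(.leaf (nat_lit 0x1d4c003a98000000)) (.leaf (nat_lit 0x1d4c003a98000000))) (.node 
(.leaf (nat_lit 0x1d4c003a98000b66)) 
(.leaf (nat_lit 0xba4800a0d801f5f00534200acfc000000017b8001f4c006cfc00dfa8002f700208400000000000001e940014de000b88001e2001abc))))))))) 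
(.node (.node (.node (.node (.node (.node (.node (.node 
(.leaf (nat_lit 0x3a98007530002fe80000000000000000000000000000000000000000)) 
(.leaf (nat_lit 0x753000ea6000000000000000000))) (.leaf (nat_lit 0xea6001d4c001657800000))) (.node 
(.leaf (nat_lit 0x1d4c003a98000000)) (.leaf (nat_lit 0x1d4c003a98000000)))) (.node (.node 
(.leaf (nat_lit 0x3a98007530004c9800000000f3b00111b)) (.leaf (nat_lit 0x1d4c003a98000000))) (.node 
(.leaf (nat_lit 0x1d4c003a98000000)) (.leaf (nat_lit 0x753000ea6000000000000000000))))) (.node 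
(.node (.node (.node (.leaf (nat_lit 0xea6001d4c00000000000000000000000000000000000)) 
(.leaf (nat_lit 0x1d4c003a980021f2))) (.leaf (nat_lit 0x1d4c003a98000000))) (.node 
(.leaf (nat_lit 0x1d4c003a98000000)) (.leaf (nat_lit 0xc2f00019a0024840058d200ad940050b002b39)))) 
(.node (.node (.leaf (nat_lit 0x1d4c003a98000000)) (.leaf (nat_lit 0x1d4c003a98000000))) (.node 
(.leaf (nat_lit 0x1d4c003a98000a7f)) (.leaf (nat_lit 0x1d4c003a98001b95)))))) (.node (.node (.node 
(.node (.node (.leaf (nat_lit 0x753000ea60005ba800000000c55)) (.leaf (nat_lit 0x1d4c003a9800279d))) 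
(.leaf (nat_lit 0x1d4c003a98000000))) (.node (.leaf (nat_lit 0x0)) 
(.leaf (nat_lit 0x5f680073b800000000f12002c70007a2001dcc)))) (.node (.node 
(.leaf (nat_lit 0x3a98007530004e8a00296800fc98021ee00000000000000f9b00141a)) 
(.leaf (nat_lit 0x1d4c003a98000000))) (.node (.leaf (nat_lit 0x1d4c003a98000000)) 
(.leaf (nat_lit 0x1d4c003a98000000))))) (.node (.node (.node (.node 
(.leaf (nat_lit 0xea600000000000000000000000000000000000000000)) 
(.leaf (nat_lit 0x1d4c003a98002b95))) 
(.leaf (nat_lit 0xea6001d4c0016098000ac000d3e007b3800ded001b8e))) (.node 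
(.leaf (nat_lit 0x1d4c003a98000000)) (.leaf (nat_lit 0x1d4c003a98000000)))) (.node (.node 
(.leaf (nat_lit 0x3a9800000000000000000000000000000)) (.leaf (nat_lit 0xea6001d4c000b8c800000))) 
(.node (.leaf (nat_lit 0x1d4c003a98002470)) (.leaf (nat_lit 0xea6001d4c000000000000))))))) (.node 
(.node (.node (.node (.node (.node (.leaf (nat_lit 0x1d4c003a9800000000000000000000000000000)) 
(.leaf (nat_lit 0x1d4c003a9800292c))) (.leaf (nat_lit 0xea6001d4c0000e1000000))) (.node 
(.leaf (nat_lit 0x1d4c003a98000000)) (.leaf (nat_lit 0x1d4c003a98000705)))) (.node (.node 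
(.leaf (nat_lit 0x753000ea6000b4cc000000018f6)) (.leaf (nat_lit 0x1d4c003a98002482))) (.node 
(.leaf (nat_lit 0x1d4c003a98000e99)) (.leaf (nat_lit 0x753000ea6000000000000000000))))) (.node 
(.node (.node (.node 
(.leaf (nat_lit 0x2e5e0000000000000118300396e0000000000000000000000000000000597800000)) 
(.leaf (nat_lit 0x1d4c003a980012e7))) (.leaf (nat_lit 0x1d4c003a98002605))) (.node 
(.leaf (nat_lit 0x1d4c003a98000000)) (.leaf (nat_lit 0x1d4c003a9800070b)))) (.node (.node 
(.leaf (nat_lit 0x753000ea6000000000000000000)) 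
(.leaf (nat_lit 0x3148002b500094e801826802ffb00000000000000000000000000000000000007a9800000))) 
(.node (.leaf (nat_lit 0x1d4c003a98000000)) (.leaf (nat_lit 0x1d4c003a98000000)))))) (.node (.node 
(.node (.node (.node (.leaf (nat_lit 0x3a9800000000000000000000000000000)) 
(.leaf (nat_lit 0x1d4c003a98000000))) (.leaf (nat_lit 0x1d4c003a98002923))) (.node 
(.leaf (nat_lit 0x1d4c003a98000000)) (.leaf (nat_lit 0x1d4c003a98000000)))) (.node (.node 
(.leaf (nat_lit 0x3a980075300037f000000001291000000)) (.leaf (nat_lit 0x1d4c003a98002586))) (.node 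
(.leaf (nat_lit 0x1d4c000000000000)) (.leaf (nat_lit 0x1d4c003a98000000))))) (.node (.node (.node 
(.leaf (nat_lit 0x3a98007530002c2a000c7800f4c801281)) 
(.leaf (nat_lit 0xea6001d4c00024d00000000000000000000000000000))) (.node 
(.leaf (nat_lit 0x1d4c003a9800226b)) 
(.leaf (nat_lit 0x72f400e6c001077003c22008060001118018c000322a0065ec00c6a8016d1002d32000000000c1000b67000000000e54003a080101200136a003b1c00a4d801682)))) 
(.node (.node (.leaf (nat_lit 0x882c00000000000001c600003140000000000000000000000000b3a000000)) 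
(.leaf (nat_lit 0x1d4c003a98000000))) (.node (.leaf (nat_lit 0x1d4c003a98000000)) 
(.leaf (nat_lit 0x753000ea6000000000000000000)))))))) (.node (.node (.node (.node (.node (.node 
(.node (.leaf (nat_lit 0x1d4c003a9800000000000000000000000000000)) 
(.leaf (nat_lit 0x753000ea6000aeb000680000a3f))) (.leaf (nat_lit 0xea6001d4c000127000000))) (.node 
(.leaf (nat_lit 0x1d4c003a98000000)) 
(.leaf (nat_lit 0x30c9002ade005a1c016c3002aa6000000000000015728028ac)))) (.node (.node 
(.leaf (nat_lit 0x753000ea6000838400f4b001d62)) (.leaf (nat_lit 0x1d4c003a98002023))) (.node 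
(.leaf (nat_lit 0x1d4c003a9800088e)) (.leaf (nat_lit 0x753000ea6000b0c8000c60006a6))))) (.node 
(.node (.node (.node (.leaf (nat_lit 0xea6001d4c00000000000000000000000000000000000)) 
(.leaf (nat_lit 0x1d4c003a98000000))) (.leaf (nat_lit 0x1d4c003a98002a3d))) (.node 
(.leaf (nat_lit 0x1d4c003a98000000)) (.leaf (nat_lit 0x1d4c003a9800110b)))) (.node (.node 
(.leaf (nat_lit 0x3a9800753000512a00000001063000a84)) (.leaf (nat_lit 0xea6001d4c000000000000))) 
(.node (.leaf (nat_lit 0x1d4c003a98000551)) (.leaf (nat_lit 0x1d4c003a9800233b)))))) (.node (.node 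
(.node (.node (.node (.leaf (nat_lit 0x3a980075300003fa00000000000000000)) 
(.leaf (nat_lit 0x1d4c003a980027df))) (.leaf (nat_lit 0x1d4c003a98000000))) (.node 
(.leaf (nat_lit 0x1d4c000000000000)) (.leaf (nat_lit 0x1d4c003a98000000)))) (.node (.node 
(.leaf (nat_lit 0x3a98007530002bc000626000c3b800000)) (.leaf (nat_lit 0x1d4c003a98002bac))) (.node 
(.leaf (nat_lit 0xf67002ade00528400000000000003446006d1400000000000)) 
(.leaf (nat_lit 0x1d4c003a98000000))))) (.node (.node (.node (.node 
(.leaf (nat_lit 0x3a9800753000281600000000870800000)) (.leaf (nat_lit 0x1d4c003a98000000))) 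
(.leaf (nat_lit 0x753000ea600011b400000000000))) (.node (.leaf (nat_lit 0x1d4c003a98000000)) 
(.leaf (nat_lit 0x1d4c003a98000c78)))) (.node (.node 
(.leaf (nat_lit 0xea6001d4c000892000000000000004e8c0000000053b)) 
(.leaf (nat_lit 0x18a60031d6002d840033680050c00000000000001044802003))) (.node 
(.leaf (nat_lit 0x1d4c003a98002812)) (.leaf (nat_lit 0xea6001d4c000000000000))))))) (.node (.node 
(.node (.node (.node (.node (.leaf (nat_lit 0x753000ea60004d5800000000000)) 
(.leaf (nat_lit 0x1d4c003a98001bc5))) (.leaf (nat_lit 0x1d4c003a98002b64))) (.node 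
(.leaf (nat_lit 0x1d4c003a98000000)) (.leaf (nat_lit 0x1d4c003a98000000)))) (.node (.node 
(.leaf (nat_lit 0x1d4c003a9800104e)) (.leaf (nat_lit 0x1d4c003a9800260e))) (.node 
(.leaf (nat_lit 0x1d4c003a980011f9)) (.leaf (nat_lit 0x753000ea60000c2400000000000))))) (.node 
(.node (.node (.node (.leaf (nat_lit 0x1d4c000000000000)) (.leaf (nat_lit 0x1d4c003a980026d5))) 
(.leaf (nat_lit 0x1d4c003a98001c3c))) (.node (.leaf (nat_lit 0x1d4c003a98000000)) 
(.leaf (nat_lit 0x17f90023f3005e4800a5940143580000000000000000000f6c001d77)))) (.node (.node 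
(.leaf (nat_lit 0x20f80092f8013ab00000000006800000000950000d08001e70000000000000000000000000000000000000000000000000000000000)) 
(.leaf (nat_lit 0x1d4c003a9800130a))) (.node (.leaf (nat_lit 0x1d4c003a98000000)) 
(.leaf (nat_lit 0x753000ea6000438c00000000000)))))) (.node (.node (.node (.node (.node 
(.leaf (nat_lit 0x3a9800753000000000000000000000000)) (.leaf (nat_lit 0x1d4c003a98000000))) 
(.leaf (nat_lit 0x1d4c003a98000000))) (.node (.leaf (nat_lit 0x1d4c003a98000000)) 
(.leaf (nat_lit 0x1d4c003a98000000)))) (.node (.node (.leaf (nat_lit 0x1d4c003a98000000)) 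
(.leaf (nat_lit 0x1d4c003a98002438))) (.node (.leaf (nat_lit 0x1d4c003a98000ba5)) 
(.leaf (nat_lit 0x1d4c003a98000000))))) (.node (.node (.node 
(.leaf (nat_lit 0x753000ea600057bc00bfb000000)) (.leaf (nat_lit 0x1d4c003a980029e5))) (.node 
(.leaf (nat_lit 0x1d4c003a98001b50)) (.leaf (nat_lit 0x753000ea6000000000000000000)))) (.node 
(.node (.leaf (nat_lit 0x1d4c003a98000000)) (.leaf (nat_lit 0x1d4c003a98000000))) (.node 
(.leaf (nat_lit 0x1d4c003a98000000)) (.leaf (nat_lit 0x753000ea6000af2c00858801bda))))))))))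
noncomputable def pt21 : Ix (Nat) := (.node (.node (.node (.node (.node (.node 
(.leaf (nat_lit 0xb660007890003160064f400abe80193f000850002bd400c72001667002aac005e2000be8000c26003088005e2c0044100183a0030020051e0006ba800c8f00000000000000455800000000000003b08004fc000c1d)) 
(.leaf (nat_lit 0x1d4c003a98000000))) (.leaf (nat_lit 0x1d4c003a98000000))) (.node 
(.leaf (nat_lit 0x753000ea600001a8002db80004b)) (.leaf (nat_lit 0xea6001d4c0000bd000000)))) (.node 
(.node (.leaf (nat_lit 0x3a9800753000339a0000000141f000000)) (.leaf (nat_lit 0x1d4c003a98000000))) 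
(.node (.leaf (nat_lit 0x3a9800753000000000000000000000000)) 
(.leaf (nat_lit 0x1d4c000000000000))))) (.node (.node (.node (.node 
(.leaf (nat_lit 0x3a9800753000000000000000000000000)) (.leaf (nat_lit 0x1d4c003a98000000))) 
(.leaf (nat_lit 0x1d4c003a98000000))) (.node 
(.leaf (nat_lit 0x1d4c000000000000000000000000000000000000000000000000000000000000000000000000000000000)) 
(.leaf (nat_lit 0xea6001d4c000000000000)))) (.node (.node 
(.leaf (nat_lit 0x3a9800753000096800029400c7280010e)) (.leaf (nat_lit 0xea6001d4c00052f000000))) 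
(.node (.leaf (nat_lit 0x3a9800753000000000000000000000000)) 
(.leaf (nat_lit 0x1d4c003a98000000)))))) (.node (.node (.node (.node (.node 
(.leaf (nat_lit 0x3a98007530001d1600000000000000000)) (.leaf (nat_lit 0x1d4c003a98000000))) 
(.leaf (nat_lit 0x1d4c003a98000000))) (.node (.leaf (nat_lit 0x0)) 
(.leaf (nat_lit 0xea6001d4c000000000000)))) (.node (.node 
(.leaf (nat_lit 0x3a9800753000256600000000dd680160f)) (.leaf (nat_lit 0xea6001d4c0017be800007))) 
(.node (.leaf (nat_lit 0x3a9800753000000000000000000000000)) 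
(.leaf (nat_lit 0x1d4c000000000000))))) (.node (.node (.node (.node 
(.leaf (nat_lit 0x3a9800753000000000000000000000000)) (.leaf (nat_lit 0xea6001d4c000000000000))) 
(.leaf (nat_lit 0x1d4c003a98000000))) (.node (.leaf (nat_lit 0xea6001d4c000000000000)) 
(.leaf (nat_lit 0x0)))) (.node (.node 
(.leaf (nat_lit 0x753000ea600000000000000000000000000000000000000000)) 
(.leaf (nat_lit 0xea6001d4c0004a3000224))) (.node 
(.leaf (nat_lit 0x693c004ed0003cc001e96006688011398000000000000083e8012958014ca00000000000000000000000)) 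
(.leaf (nat_lit 0x1d4c003a98000000)))))))
noncomputable def pt22 : Ix (Nat) := (.node (.node (.node (.node (.node (.node 
(.leaf (nat_lit 0x2e3d003846009278012b9001d5e00543c004bc00055d000ea2000544004b9800000001d15)) 
(.leaf (nat_lit 0x27a2005050006698015ab001f5000404c006a3802154))) (.node 
(.leaf (nat_lit 0xea6001d4c0006a4800000)) (.leaf (nat_lit 0xea6001d4c000000000000)))) (.node (.node 
(.leaf (nat_lit 0x1d4c003a98000000)) (.leaf (nat_lit 0x10278019c5003bc6009d54012cf0026ee))) 
(.leaf (nat_lit 0xea6001d4c000000000000)))) (.node (.node (.node 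
(.leaf (nat_lit 0xea6001d4c000aeb00078f)) (.leaf (nat_lit 0x1d4c003a98000000))) 
(.leaf (nat_lit 0xea6001d4c000b60800000))) (.node (.node (.leaf (nat_lit 0xea6001d4c0011680001a5)) 
(.leaf (nat_lit 0x1d4c003a98000e34))) (.leaf (nat_lit 0x1d4c000000000000))))) (.node (.node (.node 
(.node (.leaf (nat_lit 0xea6001d4c000317000000)) (.leaf (nat_lit 0x1d4c003a98000000))) 
(.leaf (nat_lit 0xea6001d4c0009a3800000))) (.node (.node 
(.leaf (nat_lit 0x1d4c003a9800000000000000000000000000000)) (.leaf (nat_lit 0x1d4c003a98000000))) 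
(.leaf (nat_lit 0x290000b22001d4200000000000001c4d)))) (.node (.node (.node 
(.leaf (nat_lit 0xea6001d4c000000000000)) (.leaf (nat_lit 0x1d4c003a98000c6c))) 
(.leaf (nat_lit 0xea6001d4c000dc4800a6b))) (.node (.node (.leaf (nat_lit 0xea6001d4c000e9d000000)) 
(.leaf (nat_lit 0x1d4c003a98001376))) (.leaf (nat_lit 0x1d4c003a98000000)))))) (.node (.node (.node 
(.node (.node (.leaf (nat_lit 0xf48000000000000006868014dd00000000000000000000000)) 
(.leaf (nat_lit 0x1d4c003a980008fd))) (.node (.leaf (nat_lit 0xea6001d4c001486800000)) 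
(.leaf (nat_lit 0xea6001d4c000000000000)))) (.node (.node (.leaf (nat_lit 0xea6001d4c0008d7800097)) 
(.leaf (nat_lit 0x1d4c003a9800052f))) (.leaf (nat_lit 0xea6001d4c000b14000000)))) (.node (.node 
(.node (.leaf (nat_lit 0x1d4c00000000000000000000000000000000000)) 
(.leaf (nat_lit 0x1d4c003a98000000))) (.leaf (nat_lit 0x1d4c003a980021180009580070b0007b6001ce1))) 
(.node (.node (.leaf (nat_lit 0xea6001d4c00100000049e)) 
(.leaf (nat_lit 0x60c0009d3000b36004b0c000000001430012120004a0000be000af600130b))) 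
(.leaf (nat_lit 0x1d4c003a98000d00))))) (.node (.node (.node (.node 
(.leaf (nat_lit 0x1d4c000000000000)) (.leaf (nat_lit 0x1d4c003a98000000))) 
(.leaf (nat_lit 0x1d4c003a980008f8))) (.node (.node (.leaf (nat_lit 0xea6001d4c000e650008c8)) 
(.leaf (nat_lit 0x1d4c003a98000000))) (.leaf (nat_lit 0x1d4c003a98000000)))) (.node (.node (.node 
(.leaf (nat_lit 0xea6001d4c0007da000000)) (.leaf (nat_lit 0x1d4c003a98000000))) 
(.leaf (nat_lit 0xea6001d4c00099a800000))) (.node (.node (.leaf (nat_lit 0xea6001d4c001096001926)) 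
(.leaf (nat_lit 0xea6001d4c0011d100255b))) (.leaf (nat_lit 0xea6001d4c0011ea800c08)))))))
noncomputable def pt23 : Ix (Nat) := (.node (.node (.node (.node (.node 
(.leaf (nat_lit 0x2fcc0021180000000146e002c5c007b00000110000a7)) 
(.leaf (nat_lit 0x1d4c003a98000000))) (.node (.leaf (nat_lit 0x1d4c003a98000c18)) 
(.leaf (nat_lit 0x3a9800753000324800496001357801dca)))) (.node (.node 
(.leaf (nat_lit 0x1d4c003a98001137)) 
(.leaf (nat_lit 0x467c00cc40020b60028b80064dc00ac1800bec0036cc00073800afd000ad2004b8000959c00dce00198300497a00929400f6d0021ff003dac0092b40143d80131b))) 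
(.leaf (nat_lit 0x1d4c000000000000)))) (.node (.node (.node (.leaf (nat_lit 0x1d4c003a98000000)) 
(.leaf (nat_lit 0x1d4c003a98000000))) (.node (.leaf (nat_lit 0x1d4c003a98000000)) 
(.leaf (nat_lit 0x3a980075300002200000000075c800000)))) (.node (.node 
(.leaf (nat_lit 0x1d4c003a98001db2)) (.leaf (nat_lit 0x3a9800753000000000000000000000000))) 
(.leaf (nat_lit 0x1d4c003a98000000))))) (.node (.node (.node (.node 
(.leaf (nat_lit 0x1d4c003a980017ea)) (.leaf (nat_lit 0x1d4c003a98000000))) (.node 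
(.leaf (nat_lit 0x1d4c003a98000000)) (.leaf (nat_lit 0x3a98007530001ed600311800ec000124d)))) (.node 
(.node (.leaf (nat_lit 0x1d4c003a98000000)) (.leaf (nat_lit 0x3a98007530002402000000000000009d8))) 
(.leaf (nat_lit 0x1d4c000000000000)))) (.node (.node (.node (.leaf (nat_lit 0x1d4c003a98000000)) 
(.leaf (nat_lit 0x1d4c003a98000f55))) (.leaf (nat_lit 0x0))) (.node (.node 
(.leaf (nat_lit 0x1d4c003a980005c2)) (.leaf (nat_lit 0x3a9800753000000000000000000000000))) 
(.leaf (nat_lit 0x1d4c003a98000000))))))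
noncomputable def pt24 : Ix (Nat) := (.node (.node (.node (.node (.node 
(.leaf (nat_lit 0x12f8000000014080000000032e4004900000000002b6008acc00ae9002132)) 
(.leaf (nat_lit 0x1d4c003a9800040b002d0800000000b16000000))) (.leaf (nat_lit 0x1d4c003a98000000))) 
(.node (.node (.leaf (nat_lit 0x1d4c003a98000000)) (.leaf (nat_lit 0xea6001d4c000000000000))) 
(.leaf (nat_lit 0xea6001d4c000579800749002e1a003650006d7800f7b)))) (.node (.node (.node 
(.leaf (nat_lit 0x1d4c003a98000000)) 
(.leaf (nat_lit 0x1ecd003260006fb000ddc802af90051b600a62800000001e150039ca00a948015b3002eb7003e5e00000000ea2000000))) 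
(.leaf (nat_lit 0xea6001d4c00075580000000000000000000000000fef))) (.node (.node 
(.leaf (nat_lit 0x1d4c003a98000000)) (.leaf (nat_lit 0xea6001d4c000000000000))) 
(.leaf (nat_lit 0x1d4c003a9800000000000000000000000000000))))) (.node (.node (.node (.node 
(.leaf (nat_lit 0x1d4c003a98000000)) (.leaf (nat_lit 0x1d4c003a9800000000000000000000000000000))) 
(.leaf (nat_lit 0x116500212e0041640105c80159000426600697800bfd001a510034d600000000ee300108a002d3800643400cef00180b0038b0006c50000000000000042f800608400341000000000000007e1400d4c001329003e0800a16800fe3002003))) 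
(.node (.node (.leaf (nat_lit 0x1d4c003a98000000)) (.leaf (nat_lit 0x1d4c003a98000000))) 
(.leaf (nat_lit 0xea6001d4c00000000000000000000000000000000000)))) (.node (.node (.node 
(.leaf (nat_lit 0x1d4c003a98000000)) (.leaf (nat_lit 0x753000ea6000000000000000000))) 
(.leaf (nat_lit 0xea6001d4c00000000000000000000000000000000000))) (.node 
(.leaf (nat_lit 0x1d4c003a98000000)) (.leaf (nat_lit 0x1d4c003a9800000000000000000000000000000))))))
noncomputable def pt25 : Ix (Nat) := (.node (.node (.node (.node (.node (.node 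
(.leaf (nat_lit 0x7e6000000000000001576005e700000000000000000000761400b96001d1f)) 
(.leaf (nat_lit 0x1d4c003a9800000000000000000000000000000))) (.leaf (nat_lit 0x1d4c003a98000000))) 
(.node (.leaf (nat_lit 0x1d4c003a98000000)) (.leaf (nat_lit 0x753000ea6000000000000000000)))) 
(.node (.node (.leaf (nat_lit 0x1d4c003a98000000)) 
(.leaf (nat_lit 0x3a9800753000000000000000000000000))) (.node (.leaf (nat_lit 0x1d4c003a98000000)) 
(.leaf (nat_lit 0x3a9800000000000000000000000000000))))) (.node (.node (.node 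
(.leaf (nat_lit 0x1d4c003a98000000)) (.leaf (nat_lit 0x1d4c003a98001356000000000000000000015d6))) 
(.node (.leaf (nat_lit 0x1d4c000000000000)) (.leaf (nat_lit 0x0)))) (.node (.node 
(.leaf (nat_lit 0x1d4c003a9800047b)) (.leaf (nat_lit 0x753000ea6000126c00000000000))) (.node 
(.leaf (nat_lit 0x1d4c003a98000000)) 
(.leaf (nat_lit 0x1d4c003a9800000000000000000000000000000)))))) (.node (.node (.node (.node (.node 
(.leaf (nat_lit 0x1d4c003a98000000)) (.leaf (nat_lit 0x3a9800753000000000000000000000000))) 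
(.leaf (nat_lit 0x1f4400129a0009d800de20014c4002f700068c000b618022a8000e84003c0c00000001f3f0023f8000c280072e00104a))) 
(.node (.leaf (nat_lit 0x0)) (.leaf (nat_lit 0x3a9800753000000000000000000000000)))) (.node (.node 
(.leaf (nat_lit 0x1d4c003a98000000)) (.leaf (nat_lit 0x753000ea600067dc00000000556))) (.node 
(.leaf (nat_lit 0x1d4c003a98000000)) (.leaf (nat_lit 0x3a9800753000000000000000000000000))))) 
(.node (.node (.node (.leaf (nat_lit 0x1d4c003a98000000)) 
(.leaf (nat_lit 0x1d4c003a98000000000000000000004b280126b))) (.node 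
(.leaf (nat_lit 0x1d4c000000000000)) (.leaf (nat_lit 0x3a9800000000000000000000000000000)))) (.node 
(.node (.leaf (nat_lit 0x1d4c003a98000000)) (.leaf (nat_lit 0x753000ea60004c18000000012de))) (.node 
(.leaf (nat_lit 0x1d4c003a98000000)) 
(.leaf (nat_lit 0x1d4c003a9800000000000000000000000000000)))))))
noncomputable def pt26 : Ix (Nat) := (.node (.node (.node (.node (.node 
(.leaf (nat_lit 0x35140052400126f003f600093d000d5800000000000000540000a68800000)) 
(.leaf (nat_lit 0xea6001d4c001502000a57))) (.leaf (nat_lit 0x1d4c003a98000000))) (.node 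
(.leaf (nat_lit 0x1d4c003a98000000)) (.leaf (nat_lit 0x3a980075300027a400000000000000000)))) (.node 
(.node (.node (.leaf (nat_lit 0x1d4c003a98000000)) (.leaf (nat_lit 0xea6001d4c000000000000))) 
(.leaf (nat_lit 0x3a980075300023fe00000000000000000))) (.node (.leaf (nat_lit 0x1d4c003a98000000)) 
(.leaf (nat_lit 0x824c00d41001cdc0063c800c868019208010000029c80039340165c802fa50035d60085b0011248000c5))))) 
(.node (.node (.node (.node (.leaf (nat_lit 0x1d4c003a98000000)) 
(.leaf (nat_lit 0x753000ea6000000000000000000))) 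
(.leaf (nat_lit 0x10958014490031c200b6d0015710034bb003e76004458010ab8023dc0027e6008fc000e638001eb0042140072b000018001ccc004af2007cf8010bb80245a00489600a204010b700271a004f0e00c048014fc80031c))) 
(.node (.leaf (nat_lit 0x1d4c003a98000000)) (.leaf (nat_lit 0x3a9800753000251e0000000147880223f)))) 
(.node (.node (.leaf (nat_lit 0x1d4c003a98000000)) 
(.leaf (nat_lit 0x3a9800753000000000000000000000000))) (.node (.leaf (nat_lit 0x1d4c003a98000000)) 
(.leaf (nat_lit 0x1d4c003a98002048))))))
noncomputable def pt27 : Ix (Nat) := (.node (.node (.node (.node (.node 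
(.leaf (nat_lit 0x1d50001b0600000000b74800000000000000000000f0801508)) 
(.leaf (nat_lit 0x1d4c003a98000000))) (.node (.leaf (nat_lit 0x1d4c003a98000914)) 
(.leaf (nat_lit 0x1d4c003a98000000000000000000000000001c7)))) (.node (.node 
(.leaf (nat_lit 0x1d4c003a98000000)) 
(.leaf (nat_lit 0x1c0a00401800957c011db002b4c003ad6004d8400dfb001fb7000000000000000000019d5))) 
(.node (.leaf (nat_lit 0x1d4c000000000000)) (.leaf (nat_lit 0xea6001d4c00042f000000))))) (.node 
(.node (.node (.leaf (nat_lit 0x1d4c003a98000000)) (.leaf (nat_lit 0x1d4c003a98000000))) (.node 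
(.leaf (nat_lit 0x1d4c003a98000000)) (.leaf (nat_lit 0xea6001d4c000ecd000000)))) (.node (.node 
(.leaf (nat_lit 0x1d4c003a98000ee3)) (.leaf (nat_lit 0x1d4c003a9800000000000000000000000000000))) 
(.leaf (nat_lit 0x1d4c003a98000000))))) (.node (.node (.node (.node 
(.leaf (nat_lit 0x1d4c003a98000000)) (.leaf (nat_lit 0x1d4c003a98000000))) (.node 
(.leaf (nat_lit 0x1d4c003a98000000)) (.leaf (nat_lit 0xea6001d4c000000000000)))) (.node (.node 
(.leaf (nat_lit 0x1d4c003a98000000)) (.leaf (nat_lit 0x1d4c003a9800173400000000000000000000ed7))) 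
(.node (.leaf (nat_lit 0x1d4c000000000000)) (.leaf (nat_lit 0xea6001d4c0009e98002ac))))) (.node 
(.node (.node (.leaf (nat_lit 0x1d4c003a98000000)) (.leaf (nat_lit 0x1d4c003a980007cf))) (.node 
(.leaf (nat_lit 0x0)) (.leaf (nat_lit 0xea6001d4c000a2380003d)))) (.node (.node 
(.leaf (nat_lit 0x1d4c003a980008d1)) (.leaf (nat_lit 0x3a9800753000000000000000000000000))) 
(.leaf (nat_lit 0x1d4c003a98000000))))))
noncomputable def pt28 : Ix (Nat) := (.node (.node (.node (.node (.node (.node (.node (.node (.node 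
(.leaf (nat_lit 0x83b40000000000000351400000000d5280000000000000210000000000000)) 
(.leaf (nat_lit 0x753000ea60005e9c00000000000))) 
(.leaf (nat_lit 0x300d0025f60091280175e802c3e001cf000000000b0c800000))) (.node 
(.leaf (nat_lit 0x1d4c003a98000000)) (.leaf (nat_lit 0x1d4c003a98000000)))) (.node (.node 
(.leaf (nat_lit 0xea6001d4c001412800c74)) (.leaf (nat_lit 0x1d4c003a98000ed2))) (.node 
(.leaf (nat_lit 0x1d4c003a98001eaf)) (.leaf (nat_lit 0x753000ea6000000000000000000))))) (.node 
(.node (.node (.node (.leaf (nat_lit 0xea6001d4c000000000000)) 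
(.leaf (nat_lit 0x17d38017ad004af000be8c0000000288c))) (.leaf (nat_lit 0x1d4c003a98000fac))) (.node 
(.leaf (nat_lit 0x1d4c003a98000000)) (.leaf (nat_lit 0x1d4c003a98000000)))) (.node (.node 
(.leaf (nat_lit 0x1d4c000000000000)) 
(.leaf (nat_lit 0x1046001b77002290008a3400e18002b8c0000000071940052300007a))) (.node 
(.leaf (nat_lit 0x1d4c003a98002daf)) 
(.leaf (nat_lit 0xbda800b718024aa005f3200446001448001f17003b64007c7400f2f800000004ac8004250000000020bf)))))) 
(.node (.node (.node (.node (.node (.leaf (nat_lit 0xea6001d4c0004b9000000)) 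
(.leaf (nat_lit 0x1d4c003a9800180a))) (.leaf (nat_lit 0x1d4c003a98001477))) (.node 
(.leaf (nat_lit 0x1d4c003a98000000)) (.leaf (nat_lit 0x1d4c003a98000000)))) (.node (.node 
(.leaf (nat_lit 0xea6001d4c000e8f800000)) (.leaf (nat_lit 0x1d4c003a98000c4c))) (.node 
(.leaf (nat_lit 0x1d4c003a98001b3b)) 
(.leaf (nat_lit 0x671800b4c00130900192e00496400552000d4f001eda0042240061e80019b0021b200348c0080c80188d))))) 
(.node (.node (.node (.node (.leaf (nat_lit 0xea6001d4c000000000000)) 
(.leaf (nat_lit 0x1d4c003a98000e42))) 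
(.leaf (nat_lit 0x17f600159800447200ab64012ac802f99003f7c00124c00cf2800000))) (.node 
(.leaf (nat_lit 0x1d4c003a98000242)) (.leaf (nat_lit 0x1d4c003a9800294e)))) (.node (.node 
(.leaf (nat_lit 0x753000ea6000000000000000000)) (.leaf (nat_lit 0xea6001d4c00034e800000))) (.node 
(.leaf (nat_lit 0x1d4c003a9800036e)) (.leaf (nat_lit 0xea6001d4c000000000000))))))) (.node (.node 
(.node (.node (.node (.node (.leaf (nat_lit 0x753000ea6000000000000000000)) 
(.leaf (nat_lit 0x63b800930c0187580279800124c00a23800000002833))) 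
(.leaf (nat_lit 0x1d4c003a98000ec2))) (.node (.leaf (nat_lit 0x1d4c003a98001017)) 
(.leaf (nat_lit 0x1d4c003a980028b3)))) (.node (.node (.leaf (nat_lit 0xea6001d4c000800800000)) 
(.leaf (nat_lit 0x179d800cd50046e800bbb800de5002ba2))) (.node (.leaf (nat_lit 0x1d4c003a98001d9e)) 
(.leaf (nat_lit 0x753000ea600059a000000000000))))) (.node (.node (.node (.node 
(.leaf (nat_lit 0xea6001d4c000000000000)) (.leaf (nat_lit 0x1d4c003a98000cc8))) 
(.leaf (nat_lit 0x1d4c003a98001041))) (.node (.leaf (nat_lit 0xea6000000000000000000)) 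
(.leaf (nat_lit 0x1d4c003a98000000)))) (.node (.node (.leaf (nat_lit 0xea6001d4c000d33000000)) 
(.leaf (nat_lit 0xea6001d4c000000000000))) (.node 
(.leaf (nat_lit 0x18fa00500800a818000000034fc005d500019e000000)) 
(.leaf (nat_lit 0xea6001d4c000bea800e9a000000003cd400000000000)))))) (.node (.node (.node (.node 
(.node (.leaf (nat_lit 0x0)) (.leaf (nat_lit 0x1d4c003a98000f72))) 
(.leaf (nat_lit 0x17fe001288004acc0097040173f002f26))) (.node (.leaf (nat_lit 0x1d4c003a98000000)) 
(.leaf (nat_lit 0x1d4c003a98000000)))) (.node (.node (.leaf (nat_lit 0xea6001d4c000000000000)) 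
(.leaf (nat_lit 0x1d4c003a980014ab))) (.node (.leaf (nat_lit 0x1d4c003a98000000)) 
(.leaf (nat_lit 0xea6001d4c000000000000))))) (.node (.node (.node 
(.leaf (nat_lit 0x1d4c003a98000000)) (.leaf (nat_lit 0x1d4c003a9800045a))) (.node 
(.leaf (nat_lit 0x1d4c003a980012cb)) (.leaf (nat_lit 0x1d4c003a98002212)))) (.node (.node 
(.leaf (nat_lit 0xea6001d4c0014fe8011c1)) (.leaf (nat_lit 0x1d4c003a98000000))) (.node 
(.leaf (nat_lit 0x1d4c003a98001076)) (.leaf (nat_lit 0xea6001d4c000960000000)))))))) (.node (.node 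
(.node (.node (.node (.node (.node (.leaf (nat_lit 0x753000ea6000000000000000000)) 
(.leaf (nat_lit 0xea6001d4c000a37800000))) (.leaf (nat_lit 0xea6001d4c000b59800000))) (.node 
(.leaf (nat_lit 0x1d4c003a98000000)) (.leaf (nat_lit 0x1d4c003a98000000)))) (.node (.node 
(.leaf (nat_lit 0xea6001d4c001117800a9a)) (.leaf (nat_lit 0x1d4c003a98000c5a))) (.node 
(.leaf (nat_lit 0x1d4c003a98002ba5)) 
(.leaf (nat_lit 0x603e0059d80122980305d001dfc00bd9800000001c3200379a00000000b25801f22))))) (.node 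
(.node (.node (.node (.leaf (nat_lit 0x753000ea6000000000000000000)) 
(.leaf (nat_lit 0x1d4c003a98001827))) (.leaf (nat_lit 0xc2a00111780317a004476001e6801696002751))) 
(.node (.leaf (nat_lit 0x353a000000000000008ad00000000000000000001b6c)) 
(.leaf (nat_lit 0x1d4c003a98002de2)))) (.node (.node (.leaf (nat_lit 0x1d4c003a980000cb)) 
(.leaf (nat_lit 0xea6001d4c000000000000))) (.node (.leaf (nat_lit 0x1d4c003a98000000)) 
(.leaf (nat_lit 0xea6001d4c000a37800000)))))) (.node (.node (.node (.node (.node 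
(.leaf (nat_lit 0xea6001d4c000000000000)) 
(.leaf (nat_lit 0xc3b0009388023f3005eca001194017b2000000))) (.leaf (nat_lit 0x1d4c003a98000c52))) 
(.node (.leaf (nat_lit 0xea6000000000000000000)) (.leaf (nat_lit 0x1d4c003a98000000)))) (.node 
(.node (.leaf (nat_lit 0xea6001d4c000e48000b10)) 
(.leaf (nat_lit 0xca64010af00313b0040c20021f80168a802827))) (.node 
(.leaf (nat_lit 0x1d4c003a98001ab7)) (.leaf (nat_lit 0xea6001d4c000000000000))))) (.node (.node 
(.node (.node (.leaf (nat_lit 0xea6001d4c000000000000)) (.leaf (nat_lit 0x1d4c003a98000d59))) 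
(.leaf (nat_lit 0x753000ea60005a4400000000768))) (.node (.leaf (nat_lit 0x1d4c003a9800135f)) 
(.leaf (nat_lit 0x1d4c003a980023d9)))) (.node (.node (.leaf (nat_lit 0xea6001d4c000859800000)) 
(.leaf (nat_lit 0xea6001d4c000256800000))) (.node 
(.leaf (nat_lit 0x18090016cf004bb800bbbc016388000000005c00052fc00a79800000)) 
(.leaf (nat_lit 0xea6001d4c000000000000))))))) (.node (.node (.node (.node (.node (.node 
(.leaf (nat_lit 0xea6001d4c000f07800000)) (.leaf (nat_lit 0x1d4c003a98000a51))) 
(.leaf (nat_lit 0x615e005c7801121802c5b00000000928400b100030cf))) (.node 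
(.leaf (nat_lit 0x1d4c003a980008ab)) (.leaf (nat_lit 0x1d4c003a98002f4e)))) (.node (.node 
(.leaf (nat_lit 0xea6001d4c000c66800000)) (.leaf (nat_lit 0x1d4c003a98000bab))) (.node 
(.leaf (nat_lit 0x1d4c003a98002320)) (.leaf (nat_lit 0x753000ea6000592c00000000000))))) (.node 
(.node (.node (.node (.leaf (nat_lit 0xea6001d4c000517000000)) 
(.leaf (nat_lit 0x18188005af004af000c60000000002495))) (.leaf (nat_lit 0x1d4c003a980014f0))) (.node 
(.leaf (nat_lit 0xea6000000000000000000)) (.leaf (nat_lit 0x1d4c003a98002e42)))) (.node (.node 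
(.leaf (nat_lit 0xea6001d4c000de40002d6)) (.leaf (nat_lit 0xea6001d4c0017d0000c8f))) (.node 
(.leaf (nat_lit 0xea6000000000000000000)) 
(.leaf (nat_lit 0x66e000d460014aa00363c00053c00d920017680008c60041b800000000000)))))) (.node (.node 
(.node (.node (.node (.leaf (nat_lit 0x3a9800000000000000000000000000000)) 
(.leaf (nat_lit 0x1d4c003a98001196))) (.leaf (nat_lit 0x1d4c003a9800130f))) (.node 
(.leaf (nat_lit 0x1d4c003a98000000)) (.leaf (nat_lit 0x1d4c003a98000000)))) (.node (.node 
(.leaf (nat_lit 0x68c800b12002c7200000000000000000)) (.leaf (nat_lit 0x1d4c003a98000000))) (.node 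
(.leaf (nat_lit 0x1d4c003a98001762)) (.leaf (nat_lit 0xea6001d4c000a2a800000))))) (.node (.node 
(.node (.leaf (nat_lit 0x753000ea6000000000000000000)) 
(.leaf (nat_lit 0x5ea200458c0121f80307600000000950c01624802c55))) (.node 
(.leaf (nat_lit 0x1d4c003a980022e0)) (.leaf (nat_lit 0x753000ea6000000000000000000)))) (.node 
(.node (.leaf (nat_lit 0x1d4c003a98000000)) (.leaf (nat_lit 0x1d4c003a98000000))) (.node 
(.leaf (nat_lit 0xea6001d4c000b510004bf)) 
(.leaf (nat_lit 0xbda000a4b8024aa005e8000000001159801c7900295c0070ac00000001b71))))))))) (.node 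
(.node (.node (.node (.node (.node (.node (.node (.leaf (nat_lit 0x753000ea60003e1c00000000000)) 
(.leaf (nat_lit 0xea6001d4c000000000000))) (.leaf (nat_lit 0xea6001d4c0016b0800806))) (.node 
(.leaf (nat_lit 0x1d4c003a98000000)) (.leaf (nat_lit 0x1d4c003a98000000)))) (.node (.node 
(.leaf (nat_lit 0xea6001d4c00130900103b)) (.leaf (nat_lit 0x1d4c003a9800011f))) (.node 
(.leaf (nat_lit 0x1d4c003a9800097d)) (.leaf (nat_lit 0xea6001d4c000000000000))))) (.node (.node 
(.node (.node (.leaf (nat_lit 0xea6001d4c000000000000)) (.leaf (nat_lit 0x1d4c003a98002c38))) 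
(.leaf (nat_lit 0x1d4c003a98000000))) (.node (.leaf (nat_lit 0x1d4c003a98000000)) 
(.leaf (nat_lit 0x18b180028c004bfc00beac00e35802e1c)))) (.node (.node 
(.leaf (nat_lit 0x1d4c003a98000065)) (.leaf (nat_lit 0x1d4c003a98000000))) (.node 
(.leaf (nat_lit 0x1d4c003a98001325)) (.leaf (nat_lit 0xea6001d4c001691801207)))))) (.node (.node 
(.node (.node (.node (.leaf (nat_lit 0xea6001d4c000af9800000)) 
(.leaf (nat_lit 0x1d4c003a980016f7))) (.leaf (nat_lit 0x1d4c003a98000000))) (.node 
(.leaf (nat_lit 0x0)) (.leaf (nat_lit 0xcfe000981002aac003eb800000001fe6)))) (.node (.node 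
(.leaf (nat_lit 0x753000ea60009fd00000000047b)) (.leaf (nat_lit 0x1d4c003a98000000))) (.node 
(.leaf (nat_lit 0x1d4c003a98000000)) (.leaf (nat_lit 0xea6001d4c000992800000))))) (.node (.node 
(.node (.node (.leaf (nat_lit 0x1d4c00000000000000000000000000000000000)) 
(.leaf (nat_lit 0x1d4c003a98002baf))) (.leaf (nat_lit 0xea6001d4c00169d800bed))) (.node 
(.leaf (nat_lit 0x1d4c003a98000000)) (.leaf (nat_lit 0x1d4c003a98000b74)))) (.node (.node 
(.leaf (nat_lit 0x3a9800000000000000000000000000000)) 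
(.leaf (nat_lit 0x753000ea600061b400000000000))) (.node (.leaf (nat_lit 0x1d4c003a9800281d)) 
(.leaf (nat_lit 0xea6001d4c000000000000))))))) (.node (.node (.node (.node (.node (.node 
(.leaf (nat_lit 0xea6001d4c000000000000)) (.leaf (nat_lit 0x1d4c003a980029fe))) 
(.leaf (nat_lit 0xea6001d4c000197000000))) (.node (.leaf (nat_lit 0x1d4c003a98000000)) 
(.leaf (nat_lit 0x1d4c003a98000000)))) (.node (.node (.leaf (nat_lit 0xea6001d4c0016d3000b1c)) 
(.leaf (nat_lit 0x1d4c003a980028c2))) (.node (.leaf (nat_lit 0x1d4c003a98000fc2)) 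
(.leaf (nat_lit 0xea6001d4c00024000004d))))) (.node (.node (.node (.node 
(.leaf (nat_lit 0x1b2900000000000000eeb00182800000000000000000000000)) 
(.leaf (nat_lit 0x1d4c003a98002c08))) (.leaf (nat_lit 0x1d4c003a9800248e))) (.node 
(.leaf (nat_lit 0x1d4c003a98000000)) (.leaf (nat_lit 0x1d4c003a9800106e)))) (.node (.node 
(.leaf (nat_lit 0xea6001d4c000000000000)) 
(.leaf (nat_lit 0x1907000ebd0048e800b21401304002f7000000000800c005a4800000))) (.node 
(.leaf (nat_lit 0x1d4c003a98000000)) (.leaf (nat_lit 0xea6001d4c00041c800000)))))) (.node (.node 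
(.node (.node (.node (.leaf (nat_lit 0x3a9800000000000000000000000000000)) 
(.leaf (nat_lit 0x1d4c003a98000000))) (.leaf (nat_lit 0x1d4c003a98002ec1))) (.node 
(.leaf (nat_lit 0x1d4c003a98000000)) (.leaf (nat_lit 0x1d4c003a98000000)))) (.node (.node 
(.leaf (nat_lit 0xea6001d4c000d6e800000)) (.leaf (nat_lit 0x1d4c003a9800266d))) (.node 
(.leaf (nat_lit 0xea6000000000000000000)) (.leaf (nat_lit 0xea6001d4c000000000000))))) (.node 
(.node (.node (.leaf (nat_lit 0xea6001d4c000a9b000ce4)) (.leaf (nat_lit 0xea6001d4c0003c3800000))) 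
(.node (.leaf (nat_lit 0x1d4c003a980023d2)) 
(.leaf (nat_lit 0x3f06007bf0008e000211e00000000846c0000000198c00328a00490400000001c0e)))) (.node 
(.node (.leaf (nat_lit 0x20df0020780000000000000000000000000000000000000000)) 
(.leaf (nat_lit 0x1d4c003a98000000))) (.node (.leaf (nat_lit 0xea6001d4c000404800000)) 
(.leaf (nat_lit 0xea6001d4c000000000000)))))))) (.node (.node (.node (.node (.node (.node (.node 
(.leaf (nat_lit 0x753000ea6000000000000000000)) (.leaf (nat_lit 0xea6001d4c00167c800b0f))) 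
(.leaf (nat_lit 0xea6001d4c00012d800000))) (.node (.leaf (nat_lit 0x1d4c003a98000e72)) 
(.leaf (nat_lit 0x634600594401168802fac0000000095180129f002d86)))) (.node (.node 
(.leaf (nat_lit 0xea6001d4c00105c001ef9)) (.leaf (nat_lit 0x1d4c003a9800277f))) (.node 
(.leaf (nat_lit 0x1d4c003a9800072f)) (.leaf (nat_lit 0xea6001d4c0016ba800fef))))) (.node (.node 
(.node (.node (.leaf (nat_lit 0x753000ea6000000000000000000)) (.leaf (nat_lit 0x1d4c003a98000000))) 
(.leaf (nat_lit 0x1d4c003a98002843))) (.node (.leaf (nat_lit 0x1d4c003a98000000)) 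
(.leaf (nat_lit 0x1d4c003a98001091)))) (.node (.node (.leaf (nat_lit 0xea6001d4c001488800f63)) 
(.leaf (nat_lit 0x753000ea6000000000000000000))) (.node (.leaf (nat_lit 0x1d4c003a98000634)) 
(.leaf (nat_lit 0xea6001d4c00167c801196)))))) (.node (.node (.node (.node (.node 
(.leaf (nat_lit 0xea6001d4c000000000000)) (.leaf (nat_lit 0x1d4c003a98002b84))) 
(.leaf (nat_lit 0x1d4c003a98000000))) (.node (.leaf (nat_lit 0xea6000000000000000000)) 
(.leaf (nat_lit 0x1d4c003a98000000)))) (.node (.node (.leaf (nat_lit 0xea6001d4c000b4f800d20)) 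
(.leaf (nat_lit 0x1d4c003a98002c76))) (.node 
(.leaf (nat_lit 0x21ea00534c00cc50000000035de00703000202000000)) 
(.leaf (nat_lit 0xea6001d4c000000000000))))) (.node (.node (.node (.node 
(.leaf (nat_lit 0xea6001d4c0009ec000000)) (.leaf (nat_lit 0x1d4c003a98000000))) 
(.leaf (nat_lit 0xea6001d4c00006b800000))) (.node (.leaf (nat_lit 0x1d4c003a98000000)) 
(.leaf (nat_lit 0x1d4c003a980011b0)))) (.node (.node 
(.leaf (nat_lit 0x753000ea6000494000000001650)) 
(.leaf (nat_lit 0x346a0068d800000000f9b0000000074580106000189b))) (.node 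
(.leaf (nat_lit 0xea6001d4c0016b0800afa)) (.leaf (nat_lit 0xea6001d4c000000000000))))))) (.node 
(.node (.node (.node (.node (.node (.leaf (nat_lit 0xea6001d4c0009c6000000)) 
(.leaf (nat_lit 0x1d4c003a9800228f))) (.leaf (nat_lit 0x1d4c003a98002a89))) (.node 
(.leaf (nat_lit 0x1d4c003a98000000)) (.leaf (nat_lit 0x1d4c003a980005b7)))) (.node (.node 
(.leaf (nat_lit 0x1d4c003a980023db)) (.leaf (nat_lit 0x1d4c003a98002a5e))) (.node 
(.leaf (nat_lit 0x1d4c003a98001757)) (.leaf (nat_lit 0xea6001d4c000000000000))))) (.node (.node 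
(.node (.node (.leaf (nat_lit 0x1d4c000000000000)) (.leaf (nat_lit 0x1d4c003a98002c26))) 
(.leaf (nat_lit 0x1d4c003a98002465))) (.node (.leaf (nat_lit 0x1d4c003a98000000)) 
(.leaf (nat_lit 0x61b400960c01761802aef00000000ab2c001a70027b0)))) (.node (.node 
(.leaf (nat_lit 0x36980098080166b000902000000000000004350000000027dc00000000000)) 
(.leaf (nat_lit 0x1d4c003a98000dc9))) (.node (.leaf (nat_lit 0x1d4c003a980009f4)) 
(.leaf (nat_lit 0xea6001d4c0007dd800000)))))) (.node (.node (.node (.node (.node 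
(.leaf (nat_lit 0x3a9800753000000000000000000000000)) (.leaf (nat_lit 0x1d4c003a98000000))) 
(.leaf (nat_lit 0x1d4c003a980003e5))) (.node (.leaf (nat_lit 0x1d4c003a98000000)) 
(.leaf (nat_lit 0x1d4c003a98000000)))) (.node (.node (.leaf (nat_lit 0x1d4c003a98000000)) 
(.leaf (nat_lit 0x1d4c003a980026bc))) (.node (.leaf (nat_lit 0x1d4c003a9800142d)) 
(.leaf (nat_lit 0xea6001d4c000000000000))))) (.node (.node (.node 
(.leaf (nat_lit 0xea6001d4c0009f8000fb6)) (.leaf (nat_lit 0x1d4c003a9800290c))) (.node 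
(.leaf (nat_lit 0x1d4c003a980021ac)) (.leaf (nat_lit 0xea6001d4c000000000000)))) (.node (.node 
(.leaf (nat_lit 0x1d4c003a98000000)) (.leaf (nat_lit 0x1d4c003a98000000))) (.node 
(.leaf (nat_lit 0xea6001d4c0001ad800000)) (.leaf (nat_lit 0xea6001d4c0016bd802133))))))))))
noncomputable def pt29 : Ix (Nat) := (.node (.node (.node (.node (.node (.node 
(.leaf (nat_lit 0x3502000000000000000000006b2000000001c3000000000000006040000000015bc00384c006c2000b24800000)) 
(.leaf (nat_lit 0x1d4c003a98000000))) (.leaf (nat_lit 0x1d4c003a98000363))) (.node 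
(.leaf (nat_lit 0xea6001d4c00014d800000)) (.leaf (nat_lit 0x1d4c003a9800082a)))) (.node (.node 
(.leaf (nat_lit 0xea6001d4c000b52800000)) (.leaf (nat_lit 0x1d4c003a98000000))) (.node 
(.leaf (nat_lit 0xea6001d4c00000000000000000000000000000000000)) 
(.leaf (nat_lit 0x1d4c000000000000))))) (.node (.node (.node (.node 
(.leaf (nat_lit 0xea6001d4c00000000000000000000000000000000000)) 
(.leaf (nat_lit 0x1d4c003a98000000))) (.leaf (nat_lit 0x1d4c003a98000000))) (.node 
(.leaf (nat_lit 0xea6000000000000000000)) (.leaf (nat_lit 0x1d4c003a98000000)))) (.node (.node 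
(.leaf (nat_lit 0xea6001d4c00036e800000)) (.leaf (nat_lit 0x1d4c003a98000adc))) (.node 
(.leaf (nat_lit 0xea6001d4c000000000000)) (.leaf (nat_lit 0x1d4c003a98000000)))))) (.node (.node 
(.node (.node (.node (.leaf (nat_lit 0xea6001d4c000a4c00000000000000000000000000000)) 
(.leaf (nat_lit 0x1d4c003a98000000))) (.leaf (nat_lit 0x1d4c003a98000000))) (.node 
(.leaf (nat_lit 0x0)) (.leaf (nat_lit 0x1d4c003a98000000)))) (.node (.node 
(.leaf (nat_lit 0xea6001d4c0009d8000d56)) (.leaf (nat_lit 0x1d4c003a98002f5a))) (.node 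
(.leaf (nat_lit 0xea6001d4c00000000000000000000000000000000000)) 
(.leaf (nat_lit 0x1d4c000000000000))))) (.node (.node (.node (.node 
(.leaf (nat_lit 0x1d4c003a9800000000000000000000000000000)) (.leaf (nat_lit 0x1d4c003a98000000))) 
(.leaf (nat_lit 0x1d4c003a98000601))) (.node (.leaf (nat_lit 0xea6001d4c000000000000)) 
(.leaf (nat_lit 0x0)))) (.node (.node (.leaf (nat_lit 0xea6001d4c000000000000)) 
(.leaf (nat_lit 0x1d4c003a98001046))) (.node 
(.leaf (nat_lit 0x1c620018920000000082000000000000000000800f04800000)) 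
(.leaf (nat_lit 0x1d4c003a98000000)))))))
noncomputable def pt30 : Ix (Nat) := (.node (.node (.node (.node (.node 
(.leaf (nat_lit 0x9d4000f5d00266a007c4c00000001a30001206006af400d018013d800306a000000000d480181e)) 
(.leaf (nat_lit 0xea6001d4c00038a000000))) (.leaf (nat_lit 0xea6001d4c000000000000))) (.node (.node 
(.leaf (nat_lit 0x753000ea6000000000000000000)) (.leaf (nat_lit 0x1d4c003a98000000))) 
(.leaf (nat_lit 0xea6001d4c00061f000000)))) (.node (.node (.node 
(.leaf (nat_lit 0xea6001d4c000000000000)) 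
(.leaf (nat_lit 0x831400eb3801d600043c4001bd40105480095f))) 
(.leaf (nat_lit 0xea6001d4c0008ab800000))) (.node (.node (.leaf (nat_lit 0xea6001d4c000000000000)) 
(.leaf (nat_lit 0x1d4c003a98000000))) (.leaf (nat_lit 0xea6001d4c000000000000))))) (.node (.node 
(.node (.node (.leaf (nat_lit 0xea6001d4c000943000000)) (.leaf (nat_lit 0xea6001d4c000000000000))) 
(.leaf (nat_lit 0x13b100219c004d7800fd38000000033c000661800af380125a))) (.node (.node 
(.leaf (nat_lit 0xea6001d4c000000000000)) (.leaf (nat_lit 0x1d4c003a98000000))) 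
(.leaf (nat_lit 0xea6001d4c000000000000)))) (.node (.node (.node 
(.leaf (nat_lit 0x753000ea6000367400000000000)) (.leaf (nat_lit 0x1d4c003a98000000))) 
(.leaf (nat_lit 0xea6001d4c000000000000))) (.node (.leaf (nat_lit 0xea6001d4c0001ab800000)) 
(.leaf (nat_lit 0xea6001d4c000000000000))))))
noncomputable def pt31 : Ix (Nat) := (.node (.node (.node (.node (.node 
(.leaf (nat_lit 0x67b801095000a08005f3400427000000000000000000004338017db)) 
(.leaf (nat_lit 0x1d4c003a98000000))) (.leaf (nat_lit 0x1d4c003a98000000))) (.node 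
(.leaf (nat_lit 0x1d4c003a98000000)) 
(.leaf (nat_lit 0x1d4c003a980010170000000000000000000000000000000000000000000000)))) (.node (.node 
(.node (.leaf (nat_lit 0x1d4c003a98000000)) (.leaf (nat_lit 0x1d4c003a98001900))) 
(.leaf (nat_lit 0xea6001d4c0008ed80000000000000000000000000518))) (.node 
(.leaf (nat_lit 0x1d4c003a98000000)) 
(.leaf (nat_lit 0x7eb000da0001bb5006b8000d9600000000087d005c7000b41400dce0019c2))))) (.node (.node 
(.node (.node (.leaf (nat_lit 0x1d4c003a98000000)) (.leaf (nat_lit 0x1d4c003a98001d77))) 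
(.leaf (nat_lit 0x80b400a448017430049c4009dc801071001abf0031b60055e00101b8020b0002e22005124009c2001f26003f96007c980022c001fcd004404006f60010ea000c6300000000547800076800000))) 
(.node (.leaf (nat_lit 0x1d4c003a98000000)) (.leaf (nat_lit 0x753000ea60004d3000000000000)))) 
(.node (.node (.leaf (nat_lit 0x1d4c003a98000000)) 
(.leaf (nat_lit 0xea6001d4c00000000000000000000000000000000000))) (.node 
(.leaf (nat_lit 0x1d4c003a98000000)) (.leaf (nat_lit 0x1d4c003a98000000))))))
noncomputable def pt32 : Ix (Nat) := (.node (.node (.node (.node (.node 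
(.leaf (nat_lit 0x834001402001ce40050f40000000000000000000000000000000ac0)) 
(.leaf (nat_lit 0x1d4c003a980031d8))) (.leaf (nat_lit 0x1d4c003a98000000))) (.node 
(.leaf (nat_lit 0x1d4c003a98000000)) 
(.leaf (nat_lit 0xea6001d4c0009ce0000000000000000000000000038f)))) (.node (.node (.node 
(.leaf (nat_lit 0x1d4c003a98000000)) (.leaf (nat_lit 0x1d4c003a98000000))) 
(.leaf (nat_lit 0xea6001d4c000a66000000))) (.node (.leaf (nat_lit 0x1d4c003a98000000)) 
(.leaf (nat_lit 0x2352003a8800811801ca10018d6000c0e00ba18013eb8020a2))))) (.node (.node (.node 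
(.node (.leaf (nat_lit 0x1d4c003a98000000)) (.leaf (nat_lit 0x1d4c003a98000000))) 
(.leaf (nat_lit 0x4a58004adc00d81800000005482009628010898020bd003bfe00949c00295801fa000433c0089140104100273a))) 
(.node (.leaf (nat_lit 0x1d4c003a98000000)) (.leaf (nat_lit 0xea6001d4c000b0f80046b)))) (.node 
(.node (.leaf (nat_lit 0x1d4c003a98000000)) (.leaf (nat_lit 0xea6001d4c000000000000))) (.node 
(.leaf (nat_lit 0x1d4c003a98000000)) (.leaf (nat_lit 0x1d4c003a980016d7))))))
noncomputable def pt33 : Ix (Nat) := (.node (.node (.node (.node (.node (.leaf (nat_lit 0x0)) 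
(.leaf (nat_lit 0x753000ea6000000000000000000))) (.leaf (nat_lit 0x753000ea6000000000000000000))) 
(.node (.leaf (nat_lit 0x753000ea6000000000000000000)) (.leaf (nat_lit 0xea6001d4c0008408001d3)))) 
(.node (.node (.node (.leaf (nat_lit 0xea6001d4c0008408001d3)) 
(.leaf (nat_lit 0x1d4c003a98000000))) (.leaf (nat_lit 0x0))) (.node 
(.leaf (nat_lit 0x1d4c003a98000000)) (.leaf (nat_lit 0x753000ea6000000000000000000))))) (.node 
(.node (.node (.node (.leaf (nat_lit 0xea6001d4c001205000000)) 
(.leaf (nat_lit 0xea6001d4c000000000000))) (.leaf (nat_lit 0xea6001d4c000000000000))) (.node 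
(.leaf (nat_lit 0xea6001d4c000000000000)) (.leaf (nat_lit 0xea6001d4c0002f1000000)))) (.node (.node 
(.node (.leaf (nat_lit 0xea6001d4c0002f1000000)) (.leaf (nat_lit 0xea6001d4c0005ec80017b))) 
(.leaf (nat_lit 0xea6001d4c001205000000))) (.node (.leaf (nat_lit 0xea6001d4c0005ec80017b)) 
(.leaf (nat_lit 0xea6001d4c000000000000))))))
noncomputable def pt34 : Ix (Nat) := (.node (.node (.node (.node (.node (.leaf (nat_lit 0x0)) 
(.leaf (nat_lit 0x3a9800753000000000000000000000000))) 
(.leaf (nat_lit 0x3a9800753000000000000000000000000))) (.node 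
(.leaf (nat_lit 0xea6001d4c000000000000)) (.leaf (nat_lit 0xea6001d4c0007cc800000)))) (.node (.node 
(.node (.leaf (nat_lit 0xea6001d4c0007cc800000)) (.leaf (nat_lit 0x1d4c003a98000000))) 
(.leaf (nat_lit 0x0))) (.node (.leaf (nat_lit 0x1d4c003a98000000)) 
(.leaf (nat_lit 0xea6001d4c000000000000))))) (.node (.node (.node (.node 
(.leaf (nat_lit 0xea6001d4c0011cb000000)) (.leaf (nat_lit 0xea6001d4c000000000000))) 
(.leaf (nat_lit 0xea6001d4c000000000000))) (.node (.leaf (nat_lit 0xea6001d4c000000000000)) 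
(.leaf (nat_lit 0xea6001d4c000172800000)))) (.node (.node (.node 
(.leaf (nat_lit 0xea6001d4c000172800000)) (.leaf (nat_lit 0xea6001d4c0005ad800000))) 
(.leaf (nat_lit 0xea6001d4c0011cb000000))) (.node (.leaf (nat_lit 0xea6001d4c0005ad800000)) 
(.leaf (nat_lit 0xea6001d4c000000000000))))))
noncomputable def pt35 : Ix (Nat) := (.node (.node (.node (.node (.node (.node 
(.leaf (nat_lit 0x1f17001baa0025e000ced800000000000000000000000000000037ce00000000000000eed)) 
(.leaf (nat_lit 0x1d4c003a98000000))) (.leaf (nat_lit 0x1d4c003a98001b5a))) (.node 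
(.leaf (nat_lit 0xea6001d4c000257800000)) (.leaf (nat_lit 0x1d4c003a98000a94)))) (.node (.node 
(.leaf (nat_lit 0xea6001d4c000ffc800000)) (.leaf (nat_lit 0x1d4c003a98000000))) (.node 
(.leaf (nat_lit 0x753000ea6000000000000000000)) (.leaf (nat_lit 0xea6000000000000000000))))) (.node 
(.node (.node (.node (.leaf (nat_lit 0x753000ea6000000000000000000)) 
(.leaf (nat_lit 0x1d4c003a98000000))) (.leaf (nat_lit 0x1d4c003a98000000))) (.node 
(.leaf (nat_lit 0x75300000000000000000000000000000000000000000000000)) 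
(.leaf (nat_lit 0x1d4c003a98000000)))) (.node (.node (.leaf (nat_lit 0xea6001d4c000532000000)) 
(.leaf (nat_lit 0x1d4c003a98000cb2))) (.node (.leaf (nat_lit 0xea6001d4c000000000000)) 
(.leaf (nat_lit 0x1d4c003a98000000)))))) (.node (.node (.node (.node (.node 
(.leaf (nat_lit 0x753000ea60005d6800000000000)) (.leaf (nat_lit 0x1d4c003a98000000))) 
(.leaf (nat_lit 0x1d4c003a98000000))) (.node (.leaf (nat_lit 0x0)) 
(.leaf (nat_lit 0x1d4c003a98000000)))) (.node (.node (.leaf (nat_lit 0xea6001d4c000d5e000da1)) 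
(.leaf (nat_lit 0x1d4c003a98002ef2))) (.node (.leaf (nat_lit 0x753000ea6000000000000000000)) 
(.leaf (nat_lit 0xea6000000000000000000))))) (.node (.node (.node (.node 
(.leaf (nat_lit 0x753000ea6000000000000000000)) (.leaf (nat_lit 0x1d4c003a98000000))) 
(.leaf (nat_lit 0x1d4c003a9800146f))) (.node (.leaf (nat_lit 0xea6001d4c000000000000)) 
(.leaf (nat_lit 0x0)))) (.node (.node (.leaf (nat_lit 0x753000ea6000000000000000000)) 
(.leaf (nat_lit 0x1d4c003a980000da))) (.node 
(.leaf (nat_lit 0x83d000800000000003f6200000000cd0800000)) (.leaf (nat_lit 0x1d4c003a98000000)))))))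
noncomputable def pt36 : Ix (Nat) := (.node (.node (.node (.node (.node (.node 
(.leaf (nat_lit 0xf35800000000dfa006314005ac801e240019400043f400bc78014950015da00000000a82800000)) 
(.leaf (nat_lit 0x1d4c003a98000000))) (.leaf (nat_lit 0x1d4c003a98001685))) (.node 
(.leaf (nat_lit 0xea6001d4c0002f48005c9)) (.leaf (nat_lit 0x1d4c003a98000eb9)))) (.node (.node 
(.leaf (nat_lit 0xea6001d4c000f16001351)) (.leaf (nat_lit 0x1d4c003a98000000))) (.node 
(.leaf (nat_lit 0xea6001d4c00000000000000000000000000000000000)) 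
(.leaf (nat_lit 0xea6000000000000000000))))) (.node (.node (.node (.node 
(.leaf (nat_lit 0x3a9800753000000000000000000000000)) (.leaf (nat_lit 0x1d4c003a98000000))) 
(.leaf (nat_lit 0x1d4c003a98000000))) (.node (.leaf (nat_lit 0x753000000000000000000000000)) 
(.leaf (nat_lit 0x1d4c003a98000000)))) (.node (.node (.leaf (nat_lit 0xea6001d4c00058e00070d)) 
(.leaf (nat_lit 0x1d4c003a98001150))) (.node (.leaf (nat_lit 0xea6001d4c000000000000)) 
(.leaf (nat_lit 0x1d4c003a98000000)))))) (.node (.node (.node (.node (.node 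
(.leaf (nat_lit 0x3a98007530002fb800000000000000000)) (.leaf (nat_lit 0x1d4c003a98000000))) 
(.leaf (nat_lit 0x1d4c003a98000000))) (.node (.leaf (nat_lit 0x0)) 
(.leaf (nat_lit 0x1d4c003a98000000)))) (.node (.node (.leaf (nat_lit 0xea6001d4c000bbb801876)) 
(.leaf (nat_lit 0x1d4c003a98002eb2))) (.node 
(.leaf (nat_lit 0xea6001d4c00000000000000000000000000000000000)) 
(.leaf (nat_lit 0xea6000000000000000000))))) (.node (.node (.node (.node 
(.leaf (nat_lit 0x3a9800753000000000000000000000000)) (.leaf (nat_lit 0x1d4c003a98000000))) 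
(.leaf (nat_lit 0x1d4c003a98001413))) (.node (.leaf (nat_lit 0xea6001d4c000000000000)) 
(.leaf (nat_lit 0x0)))) (.node (.node (.leaf (nat_lit 0xea6001d4c000000000000)) 
(.leaf (nat_lit 0x1d4c003a98001456))) (.node 
(.leaf (nat_lit 0x1f8a00233600000000ee6000bd50033ba0000000090b801b01)) 
(.leaf (nat_lit 0x1d4c003a98000000)))))))
noncomputable def pt37 : Ix (Nat) := (.node (.node (.node (.node (.node (.node 
(.leaf (nat_lit 0x1f17001baa0025e000ced800000000000000000000000000000037ce00000000000000eed)) 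
(.leaf (nat_lit 0x1d4c003a98000000))) (.leaf (nat_lit 0x1d4c003a98001b5a))) (.node 
(.leaf (nat_lit 0xea6001d4c000257800000)) (.leaf (nat_lit 0x1d4c003a98000a94)))) (.node (.node 
(.leaf (nat_lit 0xea6001d4c000ffc800000)) (.leaf (nat_lit 0x1d4c003a98000000))) (.node 
(.leaf (nat_lit 0x753000ea6000000000000000000)) (.leaf (nat_lit 0xea6000000000000000000))))) (.node 
(.node (.node (.node (.leaf (nat_lit 0x753000ea6000000000000000000)) 
(.leaf (nat_lit 0x1d4c003a98000000))) (.leaf (nat_lit 0x1d4c003a98000000))) (.node 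
(.leaf (nat_lit 0x75300000000000000000000000000000000000000000000000)) 
(.leaf (nat_lit 0x1d4c003a98000000)))) (.node (.node (.leaf (nat_lit 0xea6001d4c000532000000)) 
(.leaf (nat_lit 0x1d4c003a98000cb2))) (.node (.leaf (nat_lit 0xea6001d4c000000000000)) 
(.leaf (nat_lit 0x1d4c003a98000000)))))) (.node (.node (.node (.node (.node 
(.leaf (nat_lit 0x753000ea60005d6800000000000)) (.leaf (nat_lit 0x1d4c003a98000000))) 
(.leaf (nat_lit 0x1d4c003a98000000))) (.node (.leaf (nat_lit 0x0)) 
(.leaf (nat_lit 0x1d4c003a98000000)))) (.node (.node (.leaf (nat_lit 0xea6001d4c000d5e000da1)) 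
(.leaf (nat_lit 0x1d4c003a98002ef2))) (.node (.leaf (nat_lit 0x753000ea6000000000000000000)) 
(.leaf (nat_lit 0xea6000000000000000000))))) (.node (.node (.node (.node 
(.leaf (nat_lit 0x753000ea6000000000000000000)) (.leaf (nat_lit 0x1d4c003a98000000))) 
(.leaf (nat_lit 0x1d4c003a9800146f))) (.node (.leaf (nat_lit 0xea6001d4c000000000000)) 
(.leaf (nat_lit 0x0)))) (.node (.node (.leaf (nat_lit 0x753000ea6000000000000000000)) 
(.leaf (nat_lit 0x1d4c003a980000da))) (.node 
(.leaf (nat_lit 0x83d000800000000003f6200000000cd0800000)) (.leaf (nat_lit 0x1d4c003a98000000)))))))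
noncomputable def pt38 : Ix (Nat) := (.node (.node (.node (.node (.node (.node 
(.leaf (nat_lit 0xf35800000000dfa006314005ac801e240019400043f400bc78014950015da00000000a82800000)) 
(.leaf (nat_lit 0x1d4c003a98000000))) (.leaf (nat_lit 0x1d4c003a98001685))) (.node 
(.leaf (nat_lit 0xea6001d4c0002f48005c9)) (.leaf (nat_lit 0x1d4c003a98000eb9)))) (.node (.node 
(.leaf (nat_lit 0xea6001d4c000f16001351)) (.leaf (nat_lit 0x1d4c003a98000000))) (.node 
(.leaf (nat_lit 0xea6001d4c00000000000000000000000000000000000)) 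
(.leaf (nat_lit 0xea6000000000000000000))))) (.node (.node (.node (.node 
(.leaf (nat_lit 0x3a9800753000000000000000000000000)) (.leaf (nat_lit 0x1d4c003a98000000))) 
(.leaf (nat_lit 0x1d4c003a98000000))) (.node (.leaf (nat_lit 0x753000000000000000000000000)) 
(.leaf (nat_lit 0x1d4c003a98000000)))) (.node (.node (.leaf (nat_lit 0xea6001d4c00058e00070d)) 
(.leaf (nat_lit 0x1d4c003a98001150))) (.node (.leaf (nat_lit 0xea6001d4c000000000000)) 
(.leaf (nat_lit 0x1d4c003a98000000)))))) (.node (.node (.node (.node (.node 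
(.leaf (nat_lit 0x3a98007530002fb800000000000000000)) (.leaf (nat_lit 0x1d4c003a98000000))) 
(.leaf (nat_lit 0x1d4c003a98000000))) (.node (.leaf (nat_lit 0x0)) 
(.leaf (nat_lit 0x1d4c003a98000000)))) (.node (.node (.leaf (nat_lit 0xea6001d4c000bbb801876)) 
(.leaf (nat_lit 0x1d4c003a98002eb2))) (.node 
(.leaf (nat_lit 0xea6001d4c00000000000000000000000000000000000)) 
(.leaf (nat_lit 0xea6000000000000000000))))) (.node (.node (.node (.node 
(.leaf (nat_lit 0x3a9800753000000000000000000000000)) (.leaf (nat_lit 0x1d4c003a98000000))) 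
(.leaf (nat_lit 0x1d4c003a98001413))) (.node (.leaf (nat_lit 0xea6001d4c000000000000)) 
(.leaf (nat_lit 0x0)))) (.node (.node (.leaf (nat_lit 0xea6001d4c000000000000)) 
(.leaf (nat_lit 0x1d4c003a98001456))) (.node 
(.leaf (nat_lit 0x1f8a00233600000000ee6000bd50033ba0000000090b801b01)) 
(.leaf (nat_lit 0x1d4c003a98000000)))))))
noncomputable def pt39 : Ix (Nat) := (.node (.node (.node (.node (.node 
(.leaf (nat_lit 0x3a0000000000000000000000000000000000000000)) 
(.leaf (nat_lit 0x3a980075300000000000000000000000000000000000000000000000))) 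
(.leaf (nat_lit 0x1d4c003a98000000))) (.node (.leaf (nat_lit 0x1d4c003a98000000)) 
(.leaf (nat_lit 0x3a98007530001ee200000000e0b8012e0)))) (.node (.node (.node 
(.leaf (nat_lit 0x1d4c003a980002c2)) (.leaf (nat_lit 0x1d4c003a98000000))) 
(.leaf (nat_lit 0x28000000000000000000000000000000000000000000000000000000000000153c000000000000000000040f000000000000))) 
(.node (.leaf (nat_lit 0x1d4c003a98000000)) (.leaf (nat_lit 0x753000ea6000000000000000000))))) 
(.node (.node (.node (.node (.leaf (nat_lit 0x1d4c003a98000913)) 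
(.leaf (nat_lit 0x753000ea6000000000000000000))) (.leaf (nat_lit 0x1d4c003a98000000))) (.node 
(.leaf (nat_lit 0x1d4c003a98000000)) (.leaf (nat_lit 0x3a9800753000069200355800000000000)))) (.node 
(.node (.node (.leaf (nat_lit 0x1d4c003a98000000)) 
(.leaf (nat_lit 0x3a980075300016fa000000001a48000e6))) 
(.leaf (nat_lit 0x3a980075300048e600000000000000000))) (.node (.leaf (nat_lit 0x1d4c003a98000000)) 
(.leaf (nat_lit 0x3a9800753000000000000000000000000))))))
noncomputable def pt40 : Ix (Nat) := (.node (.node (.node (.node (.node (.leaf (nat_lit 0x0)) 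
(.leaf (nat_lit 0x753000ea6000000000000000000))) 
(.leaf (nat_lit 0x3a9800753000000000000000000000000))) (.node 
(.leaf (nat_lit 0xea6001d4c000000000000)) (.leaf (nat_lit 0xea6001d4c00075b0001ca)))) (.node (.node 
(.node (.leaf (nat_lit 0xea6001d4c0005e5800000)) (.leaf (nat_lit 0x1d4c003a98000000))) 
(.leaf (nat_lit 0x0))) (.node (.leaf (nat_lit 0x1d4c003a98000000)) 
(.leaf (nat_lit 0xea6001d4c000000000000))))) (.node (.node (.node (.node 
(.leaf (nat_lit 0xea6001d4c0010d6800000)) (.leaf (nat_lit 0xea6001d4c000000000000))) 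
(.leaf (nat_lit 0xea6001d4c000000000000))) (.node (.leaf (nat_lit 0xea6001d4c000000000000)) 
(.leaf (nat_lit 0xea6001d4c000089800000)))) (.node (.node (.node 
(.leaf (nat_lit 0xea6001d4c000000000000)) (.leaf (nat_lit 0xea6001d4c00049c000000))) 
(.leaf (nat_lit 0xea6001d4c00109a800000))) (.node (.leaf (nat_lit 0xea6001d4c0005e2000000)) 
(.leaf (nat_lit 0xea6001d4c000000000000))))))
noncomputable def pt41 : Ix (Nat) := (.node (.node (.node (.node (.node (.node 
(.leaf (nat_lit 0x2958001050000000014b80031200000000041300182c000000005e3c00000001aa2002cf4005d8c008be80190f0032fc005cc800c01001970002fa8005a4800cd980132a0032fa00677400a8a801995001f5a003f3c00941001468002e88005dec00d028016420023b200480000a37001069002ef6005de4009ad0018120008aa0018a400282000000000000003edc0084e0016c6002a2600221c00471800919002a40002f8800aab001584002bf6004af80018700160b002b70005610006218015dd002c5a00579800a6100167c0023020051780084b001c5800306400610800ba0000000000ad60000000000000198300322c00628000701801792002d940070c000f2f801f110000000000000058d000e9d0000000000000000000142e00137c002de4009c18010b900285e004920007a4001457002d420023680000000096300000000000000000000000))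 
(.leaf (nat_lit 0xea6001d4c00000000000000000000000000000000000))) 
(.leaf (nat_lit 0x753000ea60005a6800000000000003a4000000000000001cd4))) (.node 
(.leaf (nat_lit 0x3a98007530000000000000005c10000d70001f80000000013b0008a7000000002b94004e6000000)) 
(.leaf (nat_lit 0xea6001d4c00055a0024ad001310001ad8011a8000f41)))) (.node (.node 
(.leaf (nat_lit 0x1d4c003a9800196c0052700000000172400000000000000b298003b2002979)) 
(.leaf (nat_lit 0xea6001d4c00000000000000000000000000000000000))) (.node 
(.leaf (nat_lit 0x1d4c003a9800000000000000000000000000000000000000000000000000000000000000000000000000000000000000000000000000)) 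
(.leaf (nat_lit 0x75300000000000000000000000000000000000000000000000))))) (.node (.node (.node 
(.node 
(.leaf (nat_lit 0x1d4c003a9800000000000000000000000000000000000000000000000000000000000000000000000000000000000000000000000000)) 
(.leaf (nat_lit 0x753000ea600000000000000000000000000000000000000000))) 
(.leaf (nat_lit 0x753000ea600000000000000000000000000000000000000000))) (.node 
(.leaf (nat_lit 0x1d4c0000000000000000000000000000000000000000000000000000000000000000000000000000000000000000000000000000000000000000000000000000000)) 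
(.leaf (nat_lit 0xea6001d4c000000000000001c1200000000519000000)))) (.node (.node 
(.leaf (nat_lit 0x1d4c003a980000b200190400126c00a83000000000000004ea4004510000ad)) 
(.leaf (nat_lit 0xea6001d4c000403801c76000594006ef400e21800035))) (.node 
(.leaf (nat_lit 0x1d4c003a98000000000000000000000000000000000000000000000000000000000000000000000000000)) 
(.leaf (nat_lit 0x3a9800753000000000000000000000000)))))) (.node (.node (.node (.node (.node 
(.leaf (nat_lit 0x1d4c003a98000f0e00000000659800000000000000000000000007800000d0002c22003f4000ac80016dc000000000b0c00000000743)) 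
(.leaf (nat_lit 0x753000ea600000000000000000000000000000000000000000))) 
(.leaf (nat_lit 0x753000ea600000000000000000000000000000000000000000))) (.node 
(.leaf (nat_lit 0x0)) (.leaf (nat_lit 0x3a9800753000000000000000000000000)))) (.node (.node 
(.leaf (nat_lit 0x1d4c003a98000e9c003128002020006d40019df0000ca0043c4006780018a3)) 
(.leaf (nat_lit 0xea6001d4c0016bd0036b300084600c7cc0195e000967))) (.node 
(.leaf (nat_lit 0x1d4c003a9800000000000000000000000000000000000000000000000000000000000000000000000000000000000000000000000000)) 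
(.leaf (nat_lit 0x75300000000000000000000000000000000000000000000000))))) (.node (.node (.node 
(.node 
(.leaf (nat_lit 0x1d4c003a98000000000000000000000000000000000000000000000000000000000000000000000000000)) 
(.leaf (nat_lit 0xea6001d4c00000000000000000000000000000000000))) 
(.leaf (nat_lit 0x753000ea6000309800000000000002f5a00391c00c380023ac))) (.node 
(.leaf (nat_lit 0xea6001d4c000000000000000000000000000000000000000000000000000000000000000000000000000000000)) 
(.leaf (nat_lit 0x0)))) (.node (.node 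
(.leaf (nat_lit 0xea6001d4c0000000000000000000000000000000000000000000000000000000000)) 
(.leaf (nat_lit 0xea6001d4c000046801e17002b660045c0010758001da))) (.node 
(.leaf (nat_lit 0x601c003fb800000003186005d2400c76801896003194006dac00d1a0019cd003a16000000000000019680000000066f800c9b8020f00031760071200000000000000000000000000db48019b300414a00693800ea30019210049de002f60010ea8006e300376200791000ecc00215b00371c007cb000d8c801220002aaa0042080093480181e0035bc00626400c8d00148a0012d80058fc009ab8000000008e80000000022280000000157a0000000000000000000000000561800de900146400384c005420000000000000030c60068d000000000000)) 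
(.leaf (nat_lit 0xea6001d4c00000000000000000000000000000000000)))))))
noncomputable def pt42 : Ix (Nat) := (.node (.node (.node (.node (.node (.node 
(.leaf (nat_lit 0x145300285c00316400f6300164d001b6200369c01291001f9d)) 
(.leaf (nat_lit 0x753000ea6000898400f5680172a))) (.node (.leaf (nat_lit 0x1d4c003a98001262)) 
(.leaf (nat_lit 0x1d4c003a98000000)))) (.node (.node 
(.leaf (nat_lit 0x82a400a1f801ef6005620009a8800dbc002721)) 
(.leaf (nat_lit 0x3a9800753000314a0000000037f800aa3))) 
(.leaf (nat_lit 0x753000ea60005160006e70004c6)))) (.node (.node (.node 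
(.leaf (nat_lit 0x1d4c003a98000000)) (.leaf (nat_lit 0x3a980075300022720025bc001a18003ed))) 
(.leaf (nat_lit 0x753000ea60001be0004ab00034c))) (.node (.node (.leaf (nat_lit 0x1d4c003a98000989)) 
(.leaf (nat_lit 0x108800a6d0019f800000000000001193))) (.leaf (nat_lit 0x1d4c003a98000000))))) 
(.node (.node (.node (.node (.leaf (nat_lit 0x1d4c003a98000000)) 
(.leaf (nat_lit 0x3a98007530001d1400000000871000463))) 
(.leaf (nat_lit 0x2f6600390a0093c4015a8802446004e960078bc00cf28018ab003f080000000000000000000244200722c00f7e800bc80004800089e800d8200182d))) 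
(.node (.node (.leaf (nat_lit 0x1d4c003a98000000)) (.leaf (nat_lit 0x753000ea6000000000000000000))) 
(.leaf (nat_lit 0x3a980075300000000000000000000000000000000000000000000000)))) (.node (.node (.node 
(.leaf (nat_lit 0x1d4c003a980006ec)) (.leaf (nat_lit 0x753000ea600074e400000000d7a))) 
(.leaf (nat_lit 0xea6001d4c000000000000))) (.node (.node (.leaf (nat_lit 0xea6001d4c000000000000)) 
(.leaf (nat_lit 0x1d4c000000000000))) (.leaf (nat_lit 0x3a98007530004644001d1c0107e000b1b)))))) 
(.node (.node (.node (.node (.node (.leaf (nat_lit 0x1d4c003a98000520)) 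
(.leaf (nat_lit 0x3a98007530003b18000000004f4800c92))) (.node 
(.leaf (nat_lit 0xea6001d4c0011f9001c66)) (.leaf (nat_lit 0x3a980075300046a0002b48010a40018c9)))) 
(.node (.node (.leaf (nat_lit 0x1d4c003a98000000)) 
(.leaf (nat_lit 0x3a9800753000277400249c0098780059c))) 
(.leaf (nat_lit 0x3a98007530001f5400000000da1000cf0)))) (.node (.node (.node 
(.leaf (nat_lit 0x1d4c003a98000000)) 
(.leaf (nat_lit 0x3a98007530004188006f3c010708027620023ea00000000da9801a02))) 
(.leaf (nat_lit 0xea600000000000000000000000000000000000000000))) (.node (.node 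
(.leaf (nat_lit 0x187b002b2c0031a00134100263e00027a000edc00571801299000e9000158000b78001278)) 
(.leaf (nat_lit 0x1d4c003a98000000))) (.leaf (nat_lit 0x3a9800753000217a00000000c49000edc))))) 
(.node (.node (.node (.node (.leaf (nat_lit 0x1d4c003a98000000)) 
(.leaf (nat_lit 0x753000ea6000999800000000d1c))) 
(.leaf (nat_lit 0x20320000000000000113b002aee0000000000000000000000000000000000000000))) (.node 
(.node (.leaf (nat_lit 0x1d4c003a98000000)) (.leaf (nat_lit 0x3a98007530002bbe00000000db48002c3))) 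
(.leaf (nat_lit 0x753000ea600073ac00cd8001052)))) (.node (.node (.node 
(.leaf (nat_lit 0x1d4c003a98000000)) (.leaf (nat_lit 0x1d4c003a98000570))) 
(.leaf (nat_lit 0x1d4c000000000000))) (.node (.node (.leaf (nat_lit 0xea6001d4c000000000000)) 
(.leaf (nat_lit 0x1d4c003a98000b2b))) (.leaf (nat_lit 0x3a980075300040a200049c00b7f000bc4)))))))
noncomputable def pt43 : Ix (Nat) := (.node (.node (.node (.node (.node 
(.leaf (nat_lit 0x5c9c00315800000002272004a7800b5e00000000000000601000df7000d080000000000000000000048a)) 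
(.leaf (nat_lit 0x1d4c003a98000000))) (.node (.leaf (nat_lit 0xea6001d4c00059d801b2e)) 
(.leaf (nat_lit 0x3a98007530002f08007014014a8002306)))) (.node (.node 
(.leaf (nat_lit 0x1d4c003a98000d26)) 
(.leaf (nat_lit 0x99a801891003cfa00a24800d5d002d950022be001640009ac0010c70010d2004768008328000000025160046bc0019d00128a003a040071900044300149a00484400910c00ebb8018d20041780089a401326800f5b))) 
(.leaf (nat_lit 0x1d4c000000000000)))) (.node (.node (.node (.leaf (nat_lit 0x1d4c003a98000000)) 
(.leaf (nat_lit 0x1d4c003a98000000))) (.node (.leaf (nat_lit 0xea6001d4c000000000304)) 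
(.leaf (nat_lit 0x3a9800753000015400078c006f300000c)))) (.node (.node 
(.leaf (nat_lit 0xea6001d4c0011b4801d08)) (.leaf (nat_lit 0x3a9800753000000000000000000000000))) 
(.leaf (nat_lit 0x1d4c003a98000000))))) (.node (.node (.node (.node 
(.leaf (nat_lit 0x1d4c003a98000f47)) (.leaf (nat_lit 0x1d4c003a98000000))) (.node 
(.leaf (nat_lit 0xea6001d4c000000000000)) (.leaf (nat_lit 0x3a98007530001cc2004b34009c700103d)))) 
(.node (.node (.leaf (nat_lit 0x1d4c003a98000000)) 
(.leaf (nat_lit 0x3a98007530001e98002a54009da8012a1))) (.leaf (nat_lit 0x1d4c000000000000)))) 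
(.node (.node (.node (.leaf (nat_lit 0x1d4c003a98000000)) 
(.leaf (nat_lit 0xea6001d4c000953000fc6))) (.leaf (nat_lit 0x0))) (.node (.node 
(.leaf (nat_lit 0xea6001d4c0003ef800c38)) (.leaf (nat_lit 0x3a9800753000000000000000000000000))) 
(.leaf (nat_lit 0x1d4c003a98000000))))))
noncomputable def pt44 : Ix (Nat) := (.node (.node (.node (.node (.node 
(.leaf (nat_lit 0x2ae200301a008050010c900257e004e72006b5c00561000c410017fe003d90005cb001eb1)) 
(.leaf (nat_lit 0xea6001d4c000c96001288))) (.node 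
(.leaf (nat_lit 0x1d4c003a980000000000000006e800000000000)) (.leaf (nat_lit 0x1d4c00077d80110d)))) 
(.node (.node (.leaf (nat_lit 0xea6001d4c0003e8000e56)) (.leaf (nat_lit 0xea6001d4c000c6b801aa2))) 
(.leaf (nat_lit 0xea6001d4c00052e00089a)))) (.node (.node (.node 
(.leaf (nat_lit 0xea6001d4c0000d38000c3)) (.leaf (nat_lit 0xea6001d4c000aa2801858))) (.node 
(.leaf (nat_lit 0x1d4c003a980007dd)) (.leaf (nat_lit 0x1d4c003a98000638)))) (.node (.node 
(.leaf (nat_lit 0xea6001d4c000883801734)) (.leaf (nat_lit 0x9b000d7600156800000000000001884))) 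
(.leaf (nat_lit 0xea6001d4c0007cf800dbd))))) (.node (.node (.node (.node 
(.leaf (nat_lit 0x109e00000000000000a4980175800000000000000000000000)) 
(.leaf (nat_lit 0x1d4c003a98001d14))) (.node (.leaf (nat_lit 0xea6001d4c000cbc8015c4)) 
(.leaf (nat_lit 0x1d4c003a98001754)))) (.node (.node (.leaf (nat_lit 0x1d4c000000000000)) 
(.leaf (nat_lit 0xea6001d4c0008bd800c04))) (.leaf (nat_lit 0xea6001d4c0011dd001ea5)))) (.node 
(.node (.node (.leaf (nat_lit 0x1d4c00000000000000000000000000000000000)) 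
(.leaf (nat_lit 0xea6001d4c00080b0006a1))) (.node (.leaf (nat_lit 0xea6001d4c000657801a5f)) 
(.leaf (nat_lit 0xea6001d4c0010de0020d6)))) (.node (.node (.leaf (nat_lit 0xea6001d4c000586800980)) 
(.leaf (nat_lit 0x1d4c003a98000000))) 
(.leaf (nat_lit 0x1d4c003a98001f1a003afa00849c00fbe801328))))))
noncomputable def pt45 : Ix (Nat) := (.node (.node (.node (.node (.node (.node 
(.leaf (nat_lit 0x2e5e0057580037f801e38002906007b9800d4700242c)) 
(.leaf (nat_lit 0xea6001d4c0011c98019e3))) (.node (.leaf (nat_lit 0x1d4c003a98001271)) 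
(.leaf (nat_lit 0x1d4c003a980008a1)))) (.node (.node 
(.leaf (nat_lit 0x11f68010a40046b2009d9c00bb0802ebd)) (.leaf (nat_lit 0xea6001d4c000cc3800000))) 
(.leaf (nat_lit 0xea6001d4c000a6f80066f)))) (.node (.node (.node 
(.leaf (nat_lit 0x1d4c003a98000000)) (.leaf (nat_lit 0xea6001d4c00098f000000))) 
(.leaf (nat_lit 0xea6001d4c000330000000))) (.node (.node (.leaf (nat_lit 0x1d4c003a98000dc3)) 
(.leaf (nat_lit 0x37680039100237c000000008ea800000))) (.leaf (nat_lit 0x1d4c003a98000000))))) 
(.node (.node (.node (.node (.leaf (nat_lit 0x1d4c003a98000000)) 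
(.leaf (nat_lit 0xea6001d4c00082f800000))) 
(.leaf (nat_lit 0xc3a400ec000286c00543600b7e001644001df400000000660400000000000))) (.node (.node 
(.leaf (nat_lit 0x1d4c003a98000000)) (.leaf (nat_lit 0xea6001d4c000000000000))) 
(.leaf (nat_lit 0x753000ea6000000000000000000)))) (.node (.node (.node 
(.leaf (nat_lit 0x1d4c003a980005c5)) (.leaf (nat_lit 0xea6001d4c000f97800632))) 
(.leaf (nat_lit 0xea6001d4c000000000000))) (.node (.node 
(.leaf (nat_lit 0x753000ea6000000000000000000)) (.leaf (nat_lit 0x1d4c000000000000))) 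
(.leaf (nat_lit 0xea6001d4c001229800cc9)))))) (.node (.node (.node (.node (.node 
(.leaf (nat_lit 0x1d4c003a98000273)) (.leaf (nat_lit 0xea6001d4c000f5e8007b4))) (.node 
(.leaf (nat_lit 0xea6001d4c0012e40019c9)) (.leaf (nat_lit 0xea6001d4c0013f0801679)))) (.node (.node 
(.leaf (nat_lit 0x1d4c003a980000ae)) (.leaf (nat_lit 0xea6001d4c000a78000e5b))) 
(.leaf (nat_lit 0xea6001d4c000851000000)))) (.node (.node (.node 
(.leaf (nat_lit 0x1d4c003a98000000)) (.leaf (nat_lit 0x753000ea600091800054e801328))) 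
(.leaf (nat_lit 0x1d4c00000000000000000000000000000000000))) (.node (.node 
(.leaf (nat_lit 0xd77801572001710007c9400cb000278f001f8e005eac00cd4800fd6)) 
(.leaf (nat_lit 0x1d4c003a98000000))) (.leaf (nat_lit 0xea6001d4c00099a8000ea))))) (.node (.node 
(.node (.node (.leaf (nat_lit 0x1d4c003a98000000)) (.leaf (nat_lit 0xea6001d4c0013b9000990))) 
(.leaf (nat_lit 0x117300000000000000b72001bfc00000000000000000000000))) (.node (.node 
(.leaf (nat_lit 0x1d4c003a98000000)) (.leaf (nat_lit 0xea6001d4c000bc6800000))) 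
(.leaf (nat_lit 0xea6001d4c000efe800f0f)))) (.node (.node (.node 
(.leaf (nat_lit 0x1d4c003a98000000)) (.leaf (nat_lit 0x1d4c003a98001a01))) 
(.leaf (nat_lit 0x1d4c000000000000))) (.node (.node (.leaf (nat_lit 0xea6001d4c000000000000)) 
(.leaf (nat_lit 0x1d4c003a980019bb))) (.leaf (nat_lit 0xea6001d4c0010c1800666)))))))
noncomputable def pt46 : Ix (Nat) := (.node (.node (.node (.node (.node 
(.leaf (nat_lit 0x1822000fda00000000c230002f200314000485400d5b80168d)) 
(.leaf (nat_lit 0x1d4c003a98000000))) (.node (.leaf (nat_lit 0x1d4c003a98000ac1)) 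
(.leaf (nat_lit 0xea6001d4c000a4d80220b)))) (.node (.node (.leaf (nat_lit 0x1d4c003a980010a4)) 
(.leaf (nat_lit 0x28b00068c800f56001ce20047f40062040083900101b00226400483000b5b800e28002ca000564c007e90014c5))) 
(.leaf (nat_lit 0x1d4c000000000000)))) (.node (.node (.node (.leaf (nat_lit 0x1d4c003a98000000)) 
(.leaf (nat_lit 0x1d4c003a98000000))) (.node (.leaf (nat_lit 0x1d4c003a98000000)) 
(.leaf (nat_lit 0xea6001d4c000083800813)))) (.node (.node (.leaf (nat_lit 0x1d4c003a98001c95)) 
(.leaf (nat_lit 0xea6001d4c00000000000000000000000000000000000))) 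
(.leaf (nat_lit 0x1d4c003a98000000))))) (.node (.node (.node (.node 
(.leaf (nat_lit 0x1d4c003a9800127f)) (.leaf (nat_lit 0x1d4c003a98000000))) (.node 
(.leaf (nat_lit 0x1d4c003a98000000)) (.leaf (nat_lit 0xea6001d4c0007a40012e1)))) (.node (.node 
(.leaf (nat_lit 0x1d4c003a98000000)) 
(.leaf (nat_lit 0xea6001d4c0008b600000000153400317000000001309))) 
(.leaf (nat_lit 0x1d4c000000000000)))) (.node (.node (.node (.leaf (nat_lit 0x1d4c003a98000000)) 
(.leaf (nat_lit 0x1d4c003a9800135e))) (.leaf (nat_lit 0x0))) (.node (.node 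
(.leaf (nat_lit 0x1d4c003a980007e9)) (.leaf (nat_lit 0x1d4c003a9800000000000000000000000000000))) 
(.leaf (nat_lit 0x1d4c003a98000000))))))
noncomputable def pt47 : Ix (Nat) := (.node (.node (.node (.node (.node (.node 
(.leaf (nat_lit 0x272e0049a8005dc8016b3001354005d5800c9d801ed4)) 
(.leaf (nat_lit 0xea6001d4c000f1f800c9f))) (.node 
(.leaf (nat_lit 0xca58017850019320072f000b368024fd002bd800095000a8d800992)) 
(.leaf (nat_lit 0xea6001d4c000f9480071f)))) (.node (.node 
(.leaf (nat_lit 0x9608010ad001c54005af00072a8019da)) 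
(.leaf (nat_lit 0xb0500000000250a00109800844001af6))) (.leaf (nat_lit 0x1d4c000000000000)))) (.node 
(.node (.node (.leaf (nat_lit 0x1d4c003a98000000)) (.leaf (nat_lit 0xea6001d4c000f79001bec))) 
(.node (.leaf (nat_lit 0xea6001d4c00001b000157)) (.leaf (nat_lit 0xea6001d4c00074680046b)))) (.node 
(.node (.leaf (nat_lit 0x1d4c003a98000000)) (.leaf (nat_lit 0x1d4c003a98000672))) 
(.leaf (nat_lit 0xea6001d4c0007e2800000))))) (.node (.node (.node (.node 
(.leaf (nat_lit 0x1d4c003a98000000)) (.leaf (nat_lit 0xea6001d4c00123a000786))) (.node 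
(.leaf (nat_lit 0xea6001d4c0000fd0007fd)) 
(.leaf (nat_lit 0xea6001d4c00000000000000000000000000000000000)))) (.node (.node 
(.leaf (nat_lit 0x1d4c003a98000000)) (.leaf (nat_lit 0x1d4c000000000000))) 
(.leaf (nat_lit 0xea600000000000000000000000000000000000000000)))) (.node (.node (.node 
(.leaf (nat_lit 0x1d4c003a98000541)) (.leaf (nat_lit 0xea6001d4c000000000000))) (.node 
(.leaf (nat_lit 0x9c600000000000000609000ca880000000000000000000000000000)) 
(.leaf (nat_lit 0xea6001d4c0013800006e6)))) (.node (.node (.leaf (nat_lit 0x1d4c003a98000656)) 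
(.leaf (nat_lit 0xea6001d4c00109d800000))) (.leaf (nat_lit 0xea6001d4c000f1280008c)))))) (.node 
(.node (.node (.node (.node (.leaf (nat_lit 0x1d4c003a98000632)) 
(.leaf (nat_lit 0xea6001d4c0012550009db))) (.node (.leaf (nat_lit 0x1d4c003a98000000)) 
(.leaf (nat_lit 0x5150006bf0010fd002ef4003d84009790013470026d400384800948000000000000001d3c00255000b38)))) 
(.node (.node (.leaf (nat_lit 0x1d4c003a98000034)) (.leaf (nat_lit 0x1d4c003a98000000))) 
(.leaf (nat_lit 0xea6001d4c000000000000)))) (.node (.node (.node 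
(.leaf (nat_lit 0x1d4c003a98000000)) (.leaf (nat_lit 0xea6001d4c001080000e49))) (.node 
(.leaf (nat_lit 0xcf0c00ffd802c7a00686a00bd9001ad10000000023a00000000108e000000003eb600000000788800f9a)) 
(.leaf (nat_lit 0xea6001d4c0007de0000000002de0027fc007e500101f)))) (.node (.node 
(.leaf (nat_lit 0x1d4c003a98000000)) (.leaf (nat_lit 0xea6001d4c0013460006f1))) 
(.leaf (nat_lit 0x1d4c003a98000000))))) (.node (.node (.node (.node 
(.leaf (nat_lit 0x1d4c003a98000000)) (.leaf (nat_lit 0xea6001d4c000f5b800000))) (.node 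
(.leaf (nat_lit 0x753000ea6000000000000000000)) 
(.leaf (nat_lit 0x3a9800000000000000000000000000000)))) (.node (.node 
(.leaf (nat_lit 0x1d4c003a98000000)) (.leaf (nat_lit 0x1d4c003a9800018e))) 
(.leaf (nat_lit 0xea6001d4c000000000000)))) (.node (.node (.node 
(.leaf (nat_lit 0x1d4c003a98000000)) (.leaf (nat_lit 0xea6001d4c0010840001f5))) 
(.leaf (nat_lit 0xea6001d4c00038c000000))) (.node (.node (.leaf (nat_lit 0x1d4c003a98000000)) 
(.leaf (nat_lit 0xea6001d4c000000000000))) 
(.leaf (nat_lit 0x3a9800753000000000000000000000000)))))))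
noncomputable def pt48 : Ix (Nat) := (.node (.node (.node (.node (.node 
(.leaf (nat_lit 0x714400258800000003a560074c00001d00094700428a00771800f37001d3a)) 
(.leaf (nat_lit 0x1d4c003a98000000))) (.node (.leaf (nat_lit 0x1d4c003a98000017)) 
(.leaf (nat_lit 0x3a9800000000000000000000000000000)))) (.node (.node 
(.leaf (nat_lit 0x1d4c003a98001f23)) (.leaf (nat_lit 0x753000ea60000000000588006ea))) 
(.leaf (nat_lit 0x1d4c003a98000000)))) (.node (.node (.node (.leaf (nat_lit 0x1d4c003a9800161e)) 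
(.leaf (nat_lit 0xea6001d4c00084100043300051c00040000000001344))) (.node 
(.leaf (nat_lit 0x1d4c000000000000)) 
(.leaf (nat_lit 0x3a980075300000000000000000000000000000000000000000000000)))) (.node (.node 
(.leaf (nat_lit 0x1d4c003a98000acb)) 
(.leaf (nat_lit 0xea6001d4c00000000054000140800000000000000248))) 
(.leaf (nat_lit 0x1d4c003a98000000))))) (.node (.node (.node (.node 
(.leaf (nat_lit 0x1d4c003a9800164c)) 
(.leaf (nat_lit 0x65dc006888000000034d600488001087000aa80018420046a800994001628003aae00536800a420009ca003e5400977c00d2a800889001058002b7c0074c8004c7))) 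
(.node (.leaf (nat_lit 0x0)) (.leaf (nat_lit 0xea6001d4c00000000000000000000000000000000000)))) 
(.node (.node (.leaf (nat_lit 0x1d4c003a98000a7e)) (.leaf (nat_lit 0x753000ea6000000000000000000))) 
(.leaf (nat_lit 0x1d4c003a98000000)))) (.node (.node (.node (.leaf (nat_lit 0x1d4c003a98000000)) 
(.leaf (nat_lit 0x753000ea6000675c00f9b001eec))) (.node (.leaf (nat_lit 0x1d4c000000000000)) 
(.leaf (nat_lit 0xea6001d4c0000000001d400000000000000000000000)))) (.node (.node 
(.leaf (nat_lit 0x1d4c003a98000000)) (.leaf (nat_lit 0x0))) (.leaf (nat_lit 0x1d4c003a98000000))))))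
noncomputable def pt49 : Ix (Nat) := (.node (.node (.node (.node (.node (.node 
(.leaf (nat_lit 0x73a0004f60008d5003618006e5000c1d00148f002eda0000000004c8000000035ac00000000f22000000)) 
(.leaf (nat_lit 0x1d4c003a98000000))) (.leaf (nat_lit 0x1d4c003a980018c8))) (.node 
(.leaf (nat_lit 0xea6001d4c0001ad800000)) (.leaf (nat_lit 0x1d4c003a98000e1c)))) (.node (.node 
(.leaf (nat_lit 0xea6001d4c000fab000000)) (.leaf (nat_lit 0x1d4c003a98000000))) (.node 
(.leaf (nat_lit 0xea6001d4c00000000000000000000000000000000000)) 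
(.leaf (nat_lit 0xea6000000000000000000))))) (.node (.node (.node (.node 
(.leaf (nat_lit 0x3a9800753000000000000000000000000)) (.leaf (nat_lit 0x1d4c003a98000000))) 
(.leaf (nat_lit 0x1d4c003a98000000))) (.node (.leaf (nat_lit 0x3a9800000000000000000000000000000)) 
(.leaf (nat_lit 0x1d4c003a98000000)))) (.node (.node (.leaf (nat_lit 0xea6001d4c000480800000)) 
(.leaf (nat_lit 0x1d4c003a9800070e))) (.node (.leaf (nat_lit 0xea6001d4c000000000000)) 
(.leaf (nat_lit 0x1d4c003a98000000)))))) (.node (.node (.node (.node (.node 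
(.leaf (nat_lit 0x3a9800753000332000000000000000000)) (.leaf (nat_lit 0x1d4c003a98000000))) 
(.leaf (nat_lit 0x1d4c003a98000000))) (.node (.leaf (nat_lit 0x0)) 
(.leaf (nat_lit 0x1d4c003a98000000)))) (.node (.node (.leaf (nat_lit 0xea6001d4c000b5a001577)) 
(.leaf (nat_lit 0x1d4c003a980030b1))) (.node 
(.leaf (nat_lit 0xea6001d4c00000000000000000000000000000000000)) 
(.leaf (nat_lit 0xea6000000000000000000))))) (.node (.node (.node (.node 
(.leaf (nat_lit 0x3a9800753000000000000000000000000)) (.leaf (nat_lit 0x1d4c003a98000000))) 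
(.leaf (nat_lit 0x1d4c003a980016dd))) (.node (.leaf (nat_lit 0xea6001d4c000000000000)) 
(.leaf (nat_lit 0x0)))) (.node (.node (.leaf (nat_lit 0xea6001d4c000000000000)) 
(.leaf (nat_lit 0x1d4c003a98000b1f))) (.node 
(.leaf (nat_lit 0x1ede001dde00000000ec2000000002b0800000000f1600150a)) 
(.leaf (nat_lit 0x1d4c003a98000000)))))))
noncomputable def pt50 : Ix (Nat) := (.node (.node (.node (.node (.node 
(.leaf (nat_lit 0x3a0000000000000000000000000000000000000000)) 
(.leaf (nat_lit 0x1d4c003a98000000))) (.leaf (nat_lit 0x1d4c003a98000000))) (.node 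
(.leaf (nat_lit 0x1d4c003a98000000)) (.leaf (nat_lit 0x3a98007530001ee200000000e0b8012e0)))) (.node 
(.node (.node (.leaf (nat_lit 0x1d4c003a980002c2)) 
(.leaf (nat_lit 0x3a980075300000000000000000000000000000000000000000000000))) 
(.leaf (nat_lit 0x28000000000000000000000000000000000000000000000000000000000000153c000000000000000000040f000000000000))) 
(.node (.leaf (nat_lit 0x1d4c003a98000000)) (.leaf (nat_lit 0x753000ea6000000000000000000))))) 
(.node (.node (.node (.node (.leaf (nat_lit 0x1d4c003a98000913)) 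
(.leaf (nat_lit 0x3a980075300016fa000000001a48000e6))) (.leaf (nat_lit 0x1d4c003a98000000))) (.node 
(.leaf (nat_lit 0x1d4c003a98000000)) (.leaf (nat_lit 0x3a9800753000069200355800000000000)))) (.node 
(.node (.node (.leaf (nat_lit 0x1d4c003a98000000)) (.leaf (nat_lit 0x753000ea6000000000000000000))) 
(.leaf (nat_lit 0x3a980075300048e600000000000000000))) (.node (.leaf (nat_lit 0x1d4c003a98000000)) 
(.leaf (nat_lit 0x3a9800753000000000000000000000000))))))
noncomputable def pt51 : Ix (Nat) := (.node (.node (.node (.node (.node (.leaf (nat_lit 0x0)) 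
(.leaf (nat_lit 0x1d4c003a98000000))) (.leaf (nat_lit 0x1d4c003a98000000))) (.node 
(.leaf (nat_lit 0xea6001d4c000000000000)) (.leaf (nat_lit 0xea6001d4c00075b0001ca)))) (.node (.node 
(.node (.leaf (nat_lit 0xea6001d4c0005e5800000)) (.leaf (nat_lit 0x753000ea6000000000000000000))) 
(.leaf (nat_lit 0x0))) (.node (.leaf (nat_lit 0x3a9800753000000000000000000000000)) 
(.leaf (nat_lit 0xea6001d4c000000000000))))) (.node (.node (.node (.node 
(.leaf (nat_lit 0xea6001d4c0010d6800000)) (.leaf (nat_lit 0xea6001d4c00049c000000))) 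
(.leaf (nat_lit 0xea6001d4c0005e2000000))) (.node (.leaf (nat_lit 0xea6001d4c000000000000)) 
(.leaf (nat_lit 0xea6001d4c000089800000)))) (.node (.node (.node 
(.leaf (nat_lit 0xea6001d4c000000000000)) (.leaf (nat_lit 0xea6001d4c000000000000))) 
(.leaf (nat_lit 0xea6001d4c00109a800000))) (.node (.leaf (nat_lit 0xea6001d4c000000000000)) 
(.leaf (nat_lit 0xea6001d4c000000000000))))))
noncomputable def pt52 : Ix (Nat) := (.node (.node (.node (.node (.node (.node 
(.leaf (nat_lit 0x2958001050000000014b80031200000000041300182c000000005e3c00000001aa2002cf4005d8c008be80190f0032fc005cc800c01001970002fa8005a4800cd980132a0032fa00677400a8a801995001f5a003f3c00941001468002e88005dec00d028016420023b200480000a37001069002ef6005de4009ad0018120008aa0018a400282000000000000003edc0084e0016c6002a2600221c00471800919002a40002f8800aab001584002bf6004af80018700160b002b70005610006218015dd002c5a00579800a6100167c0023020051780084b001c5800306400610800ba0000000000ad60000000000000198300322c00628000701801792002d940070c000f2f801f110000000000000058d000e9d0000000000000000000142e00137c002de4009c18010b900285e004920007a4001457002d420023680000000096300000000000000000000000))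 
(.leaf (nat_lit 0xea6001d4c00000000000000000000000000000000000))) 
(.leaf (nat_lit 0x753000ea60005a6800000000000003a4000000000000001cd4))) (.node 
(.leaf (nat_lit 0x3a98007530000000000000005c10000d70001f80000000013b0008a7000000002b94004e6000000)) 
(.leaf (nat_lit 0xea6001d4c00055a0024ad001310001ad8011a8000f41)))) (.node (.node 
(.leaf (nat_lit 0x1d4c003a9800196c0052700000000172400000000000000b298003b2002979)) 
(.leaf (nat_lit 0xea6001d4c00000000000000000000000000000000000))) (.node 
(.leaf (nat_lit 0x1d4c003a9800000000000000000000000000000000000000000000000000000000000000000000000000000000000000000000000000)) 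
(.leaf (nat_lit 0x75300000000000000000000000000000000000000000000000))))) (.node (.node (.node 
(.node 
(.leaf (nat_lit 0x1d4c003a9800000000000000000000000000000000000000000000000000000000000000000000000000000000000000000000000000)) 
(.leaf (nat_lit 0x753000ea600000000000000000000000000000000000000000))) 
(.leaf (nat_lit 0x753000ea600000000000000000000000000000000000000000))) (.node 
(.leaf (nat_lit 0x1d4c0000000000000000000000000000000000000000000000000000000000000000000000000000000000000000000000000000000000000000000000000000000)) 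
(.leaf (nat_lit 0xea6001d4c000000000000001c1200000000519000000)))) (.node (.node 
(.leaf (nat_lit 0x1d4c003a980000b200190400126c00a83000000000000004ea4004510000ad)) 
(.leaf (nat_lit 0xea6001d4c000403801c76000594006ef400e21800035))) (.node 
(.leaf (nat_lit 0x1d4c003a98000000000000000000000000000000000000000000000000000000000000000000000000000)) 
(.leaf (nat_lit 0x3a9800753000000000000000000000000)))))) (.node (.node (.node (.node (.node 
(.leaf (nat_lit 0x1d4c003a98000f0e00000000659800000000000000000000000007800000d0002c22003f4000ac80016dc000000000b0c00000000743)) 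
(.leaf (nat_lit 0x753000ea600000000000000000000000000000000000000000))) 
(.leaf (nat_lit 0x753000ea600000000000000000000000000000000000000000))) (.node 
(.leaf (nat_lit 0x0)) (.leaf (nat_lit 0x3a9800753000000000000000000000000)))) (.node (.node 
(.leaf (nat_lit 0x1d4c003a98000e9c003128002020006d40019df0000ca0043c4006780018a3)) 
(.leaf (nat_lit 0xea6001d4c0016bd0036b300084600c7cc0195e000967))) (.node 
(.leaf (nat_lit 0x1d4c003a9800000000000000000000000000000000000000000000000000000000000000000000000000000000000000000000000000)) 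
(.leaf (nat_lit 0x75300000000000000000000000000000000000000000000000))))) (.node (.node (.node 
(.node 
(.leaf (nat_lit 0x1d4c003a98000000000000000000000000000000000000000000000000000000000000000000000000000)) 
(.leaf (nat_lit 0xea6001d4c00000000000000000000000000000000000))) 
(.leaf (nat_lit 0x753000ea6000309800000000000002f5a00391c00c380023ac))) (.node 
(.leaf (nat_lit 0xea6001d4c000000000000000000000000000000000000000000000000000000000000000000000000000000000)) 
(.leaf (nat_lit 0x0)))) (.node (.node 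
(.leaf (nat_lit 0xea6001d4c0000000000000000000000000000000000000000000000000000000000)) 
(.leaf (nat_lit 0xea6001d4c000046801e17002b660045c0010758001da))) (.node 
(.leaf (nat_lit 0x601c003fb800000003186005d2400c76801896003194006dac00d1a0019cd003a16000000000000019680000000066f800c9b8020f00031760071200000000000000000000000000db48019b300414a00693800ea30019210049de002f60010ea8006e300376200791000ecc00215b00371c007cb000d8c801220002aaa0042080093480181e0035bc00626400c8d00148a0012d80058fc009ab8000000008e80000000022280000000157a0000000000000000000000000561800de900146400384c005420000000000000030c60068d000000000000)) 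
(.leaf (nat_lit 0xea6001d4c00000000000000000000000000000000000)))))))
noncomputable def pt53 : Ix (Nat) := (.node (.node (.node (.node (.node (.node 
(.leaf (nat_lit 0x145300285c00316400f6300164d001b6200369c01291001f9d)) 
(.leaf (nat_lit 0x3a98007530003b18000000004f4800c92))) (.node 
(.leaf (nat_lit 0xea6001d4c000000000000)) (.leaf (nat_lit 0x1d4c003a98000000)))) (.node (.node 
(.leaf (nat_lit 0x82a400a1f801ef6005620009a8800dbc002721)) 
(.leaf (nat_lit 0x753000ea600074e400000000d7a))) (.leaf (nat_lit 0xea6001d4c000000000000)))) (.node 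
(.node (.node (.leaf (nat_lit 0x1d4c003a98000000)) 
(.leaf (nat_lit 0x3a980075300022720025bc001a18003ed))) 
(.leaf (nat_lit 0x753000ea60001be0004ab00034c))) (.node (.node (.leaf (nat_lit 0x1d4c003a98000989)) 
(.leaf (nat_lit 0x108800a6d0019f800000000000001193))) 
(.leaf (nat_lit 0x3a980075300000000000000000000000000000000000000000000000))))) (.node (.node 
(.node (.node (.leaf (nat_lit 0x1d4c003a98000000)) 
(.leaf (nat_lit 0x3a98007530001d1400000000871000463))) 
(.leaf (nat_lit 0x2f6600390a0093c4015a8802446004e960078bc00cf28018ab003f080000000000000000000244200722c00f7e800bc80004800089e800d8200182d))) 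
(.node (.node (.leaf (nat_lit 0x1d4c003a98000000)) (.leaf (nat_lit 0x753000ea6000000000000000000))) 
(.leaf (nat_lit 0x1d4c003a98000000)))) (.node (.node (.node (.leaf (nat_lit 0x1d4c003a980006ec)) 
(.leaf (nat_lit 0x3a9800753000314a0000000037f800aa3))) 
(.leaf (nat_lit 0x753000ea60005160006e70004c6))) (.node (.node (.leaf (nat_lit 0x1d4c003a98001262)) 
(.leaf (nat_lit 0x1d4c000000000000))) (.leaf (nat_lit 0x3a98007530004644001d1c0107e000b1b)))))) 
(.node (.node (.node (.node (.node (.leaf (nat_lit 0x1d4c003a98000520)) 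
(.leaf (nat_lit 0x753000ea6000898400f5680172a))) (.node (.leaf (nat_lit 0xea6001d4c000000000000)) 
(.leaf (nat_lit 0x3a980075300046a0002b48010a40018c9)))) (.node (.node 
(.leaf (nat_lit 0x1d4c003a98000000)) (.leaf (nat_lit 0x3a9800753000277400249c0098780059c))) 
(.leaf (nat_lit 0x3a98007530001f5400000000da1000cf0)))) (.node (.node (.node 
(.leaf (nat_lit 0x1d4c003a98000000)) (.leaf (nat_lit 0x1d4c003a98000570))) 
(.leaf (nat_lit 0x1d4c000000000000))) (.node (.node 
(.leaf (nat_lit 0x187b002b2c0031a00134100263e00027a000edc00571801299000e9000158000b78001278)) 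
(.leaf (nat_lit 0x1d4c003a98000000))) (.leaf (nat_lit 0x753000ea600073ac00cd8001052))))) (.node 
(.node (.node (.node (.leaf (nat_lit 0x1d4c003a98000000)) 
(.leaf (nat_lit 0x753000ea6000999800000000d1c))) 
(.leaf (nat_lit 0x20320000000000000113b002aee0000000000000000000000000000000000000000))) (.node 
(.node (.leaf (nat_lit 0x1d4c003a98000000)) (.leaf (nat_lit 0x3a98007530002bbe00000000db48002c3))) 
(.leaf (nat_lit 0x3a9800753000217a00000000c49000edc)))) (.node (.node (.node 
(.leaf (nat_lit 0x1d4c003a98000000)) 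
(.leaf (nat_lit 0x3a98007530004188006f3c010708027620023ea00000000da9801a02))) 
(.leaf (nat_lit 0xea600000000000000000000000000000000000000000))) (.node (.node 
(.leaf (nat_lit 0xea6001d4c0011f9001c66)) (.leaf (nat_lit 0x1d4c003a98000b2b))) 
(.leaf (nat_lit 0x3a980075300040a200049c00b7f000bc4)))))))
noncomputable def pt54 : Ix (Nat) := (.node (.node (.node (.node (.node 
(.leaf (nat_lit 0x5c9c00315800000002272004a7800b5e00000000000000601000df7000d080000000000000000000048a)) 
(.leaf (nat_lit 0x1d4c003a98000000))) (.node (.leaf (nat_lit 0xea6001d4c00059d801b2e)) 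
(.leaf (nat_lit 0x3a98007530002f08007014014a8002306)))) (.node (.node 
(.leaf (nat_lit 0x1d4c003a98000d26)) 
(.leaf (nat_lit 0x99a801891003cfa00a24800d5d002d950022be001640009ac0010c70010d2004768008328000000025160046bc0019d00128a003a040071900044300149a00484400910c00ebb8018d20041780089a401326800f5b))) 
(.leaf (nat_lit 0x1d4c000000000000)))) (.node (.node (.node (.leaf (nat_lit 0x1d4c003a98000000)) 
(.leaf (nat_lit 0x1d4c003a98000000))) (.node (.leaf (nat_lit 0xea6001d4c000000000304)) 
(.leaf (nat_lit 0x3a9800753000015400078c006f300000c)))) (.node (.node 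
(.leaf (nat_lit 0xea6001d4c0011b4801d08)) (.leaf (nat_lit 0x3a9800753000000000000000000000000))) 
(.leaf (nat_lit 0x1d4c003a98000000))))) (.node (.node (.node (.node 
(.leaf (nat_lit 0x1d4c003a98000f47)) (.leaf (nat_lit 0x1d4c003a98000000))) (.node 
(.leaf (nat_lit 0xea6001d4c000000000000)) (.leaf (nat_lit 0x3a98007530001cc2004b34009c700103d)))) 
(.node (.node (.leaf (nat_lit 0x1d4c003a98000000)) 
(.leaf (nat_lit 0x3a98007530001e98002a54009da8012a1))) (.leaf (nat_lit 0x1d4c000000000000)))) 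
(.node (.node (.node (.leaf (nat_lit 0x1d4c003a98000000)) 
(.leaf (nat_lit 0xea6001d4c000953000fc6))) (.leaf (nat_lit 0x0))) (.node (.node 
(.leaf (nat_lit 0xea6001d4c0003ef800c38)) (.leaf (nat_lit 0x3a9800753000000000000000000000000))) 
(.leaf (nat_lit 0x1d4c003a98000000))))))
noncomputable def pt55 : Ix (Nat) := (.node (.node (.node (.node (.node 
(.leaf (nat_lit 0x2ae200301a008050010c900257e004e72006b5c00561000c410017fe003d90005cb001eb1)) 
(.leaf (nat_lit 0xea6001d4c000aa2801858))) (.node (.leaf (nat_lit 0x1d4c003a980007dd)) 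
(.leaf (nat_lit 0x1d4c00077d80110d)))) (.node (.node (.leaf (nat_lit 0xea6001d4c000883801734)) 
(.leaf (nat_lit 0xea6001d4c000c6b801aa2))) (.leaf (nat_lit 0xea6001d4c00052e00089a)))) (.node 
(.node (.node (.leaf (nat_lit 0xea6001d4c0000d38000c3)) (.leaf (nat_lit 0xea6001d4c000c96001288))) 
(.node (.leaf (nat_lit 0x1d4c003a980000000000000006e800000000000)) 
(.leaf (nat_lit 0x1d4c003a98000638)))) (.node (.node (.leaf (nat_lit 0xea6001d4c0003e8000e56)) 
(.leaf (nat_lit 0x9b000d7600156800000000000001884))) (.leaf (nat_lit 0xea6001d4c0007cf800dbd))))) 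
(.node (.node (.node (.node (.leaf (nat_lit 0x109e00000000000000a4980175800000000000000000000000)) 
(.leaf (nat_lit 0x1d4c003a98001f1a003afa00849c00fbe801328))) (.node 
(.leaf (nat_lit 0xea6001d4c000657801a5f)) (.leaf (nat_lit 0x1d4c003a98001754)))) (.node (.node 
(.leaf (nat_lit 0x1d4c00000000000000000000000000000000000)) 
(.leaf (nat_lit 0xea6001d4c0008bd800c04))) (.leaf (nat_lit 0xea6001d4c0011dd001ea5)))) (.node 
(.node (.node (.leaf (nat_lit 0x1d4c000000000000)) (.leaf (nat_lit 0xea6001d4c00080b0006a1))) 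
(.node (.leaf (nat_lit 0xea6001d4c000cbc8015c4)) (.leaf (nat_lit 0xea6001d4c0010de0020d6)))) (.node 
(.node (.leaf (nat_lit 0xea6001d4c000586800980)) (.leaf (nat_lit 0x1d4c003a98000000))) 
(.leaf (nat_lit 0x1d4c003a98001d14))))))
noncomputable def pt56 : Ix (Nat) := (.node (.node (.node (.node (.node (.node 
(.leaf (nat_lit 0x2e5e0057580037f801e38002906007b9800d4700242c)) 
(.leaf (nat_lit 0xea6001d4c000f5e8007b4))) (.node (.leaf (nat_lit 0x753000ea6000000000000000000)) 
(.leaf (nat_lit 0x1d4c003a980008a1)))) (.node (.node 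
(.leaf (nat_lit 0x11f68010a40046b2009d9c00bb0802ebd)) (.leaf (nat_lit 0xea6001d4c000f97800632))) 
(.leaf (nat_lit 0xea6001d4c000000000000)))) (.node (.node (.node 
(.leaf (nat_lit 0x1d4c003a98000000)) (.leaf (nat_lit 0xea6001d4c00098f000000))) 
(.leaf (nat_lit 0xea6001d4c000330000000))) (.node (.node (.leaf (nat_lit 0x1d4c003a98000dc3)) 
(.leaf (nat_lit 0x37680039100237c000000008ea800000))) 
(.leaf (nat_lit 0x753000ea6000000000000000000))))) (.node (.node (.node (.node 
(.leaf (nat_lit 0x1d4c003a98000000)) (.leaf (nat_lit 0xea6001d4c00082f800000))) 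
(.leaf (nat_lit 0xc3a400ec000286c00543600b7e001644001df400000000660400000000000))) (.node (.node 
(.leaf (nat_lit 0x1d4c003a98000000)) (.leaf (nat_lit 0xea6001d4c000000000000))) 
(.leaf (nat_lit 0x1d4c003a98000000)))) (.node (.node (.node (.leaf (nat_lit 0x1d4c003a980005c5)) 
(.leaf (nat_lit 0xea6001d4c000cc3800000))) (.leaf (nat_lit 0xea6001d4c000a6f80066f))) (.node (.node 
(.leaf (nat_lit 0x1d4c003a98001271)) (.leaf (nat_lit 0x1d4c000000000000))) 
(.leaf (nat_lit 0xea6001d4c001229800cc9)))))) (.node (.node (.node (.node (.node 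
(.leaf (nat_lit 0x1d4c003a98000273)) (.leaf (nat_lit 0xea6001d4c0011c98019e3))) (.node 
(.leaf (nat_lit 0xea6001d4c000000000000)) (.leaf (nat_lit 0xea6001d4c0013f0801679)))) (.node (.node 
(.leaf (nat_lit 0x1d4c003a980000ae)) (.leaf (nat_lit 0xea6001d4c000a78000e5b))) 
(.leaf (nat_lit 0xea6001d4c000851000000)))) (.node (.node (.node 
(.leaf (nat_lit 0x1d4c003a98000000)) (.leaf (nat_lit 0x1d4c003a98001a01))) 
(.leaf (nat_lit 0x1d4c000000000000))) (.node (.node 
(.leaf (nat_lit 0xd77801572001710007c9400cb000278f001f8e005eac00cd4800fd6)) 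
(.leaf (nat_lit 0x1d4c003a98000000))) (.leaf (nat_lit 0xea6001d4c000efe800f0f))))) (.node (.node 
(.node (.node (.leaf (nat_lit 0x1d4c003a98000000)) (.leaf (nat_lit 0xea6001d4c0013b9000990))) 
(.leaf (nat_lit 0x117300000000000000b72001bfc00000000000000000000000))) (.node (.node 
(.leaf (nat_lit 0x1d4c003a98000000)) (.leaf (nat_lit 0xea6001d4c000bc6800000))) 
(.leaf (nat_lit 0xea6001d4c00099a8000ea)))) (.node (.node (.node 
(.leaf (nat_lit 0x1d4c003a98000000)) (.leaf (nat_lit 0x753000ea600091800054e801328))) 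
(.leaf (nat_lit 0x1d4c00000000000000000000000000000000000))) (.node (.node 
(.leaf (nat_lit 0xea6001d4c0012e40019c9)) (.leaf (nat_lit 0x1d4c003a980019bb))) 
(.leaf (nat_lit 0xea6001d4c0010c1800666)))))))
noncomputable def pt57 : Ix (Nat) := (.node (.node (.node (.node (.node 
(.leaf (nat_lit 0x1822000fda00000000c230002f200314000485400d5b80168d)) 
(.leaf (nat_lit 0x1d4c003a98000000))) (.node (.leaf (nat_lit 0x1d4c003a98000ac1)) 
(.leaf (nat_lit 0xea6001d4c000a4d80220b)))) (.node (.node (.leaf (nat_lit 0x1d4c003a980010a4)) 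
(.leaf (nat_lit 0x28b00068c800f56001ce20047f40062040083900101b00226400483000b5b800e28002ca000564c007e90014c5))) 
(.leaf (nat_lit 0x1d4c000000000000)))) (.node (.node (.node (.leaf (nat_lit 0x1d4c003a98000000)) 
(.leaf (nat_lit 0x1d4c003a98000000))) (.node (.leaf (nat_lit 0x1d4c003a98000000)) 
(.leaf (nat_lit 0xea6001d4c000083800813)))) (.node (.node (.leaf (nat_lit 0x1d4c003a98001c95)) 
(.leaf (nat_lit 0xea6001d4c00000000000000000000000000000000000))) 
(.leaf (nat_lit 0x1d4c003a98000000))))) (.node (.node (.node (.node 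
(.leaf (nat_lit 0x1d4c003a9800127f)) (.leaf (nat_lit 0x1d4c003a98000000))) (.node 
(.leaf (nat_lit 0x1d4c003a98000000)) (.leaf (nat_lit 0xea6001d4c0007a40012e1)))) (.node (.node 
(.leaf (nat_lit 0x1d4c003a98000000)) 
(.leaf (nat_lit 0xea6001d4c0008b600000000153400317000000001309))) 
(.leaf (nat_lit 0x1d4c000000000000)))) (.node (.node (.node (.leaf (nat_lit 0x1d4c003a98000000)) 
(.leaf (nat_lit 0x1d4c003a9800135e))) (.leaf (nat_lit 0x0))) (.node (.node 
(.leaf (nat_lit 0x1d4c003a980007e9)) (.leaf (nat_lit 0x1d4c003a9800000000000000000000000000000))) 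
(.leaf (nat_lit 0x1d4c003a98000000))))))
noncomputable def pt58 : Ix (Nat) := (.node (.node (.node (.node (.node (.node 
(.leaf (nat_lit 0x272e0049a8005dc8016b3001354005d5800c9d801ed4)) 
(.leaf (nat_lit 0xea6001d4c000f1280008c))) (.node 
(.leaf (nat_lit 0xca58017850019320072f000b368024fd002bd800095000a8d800992)) 
(.leaf (nat_lit 0xea6001d4c0010840001f5)))) (.node (.node 
(.leaf (nat_lit 0x9608010ad001c54005af00072a8019da)) 
(.leaf (nat_lit 0x5150006bf0010fd002ef4003d84009790013470026d400384800948000000000000001d3c00255000b38))) 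
(.leaf (nat_lit 0xea600000000000000000000000000000000000000000)))) (.node (.node (.node 
(.leaf (nat_lit 0x1d4c003a98000000)) (.leaf (nat_lit 0xea6001d4c000f5b800000))) (.node 
(.leaf (nat_lit 0xea6001d4c0000fd0007fd)) (.leaf (nat_lit 0x1d4c003a9800018e)))) (.node (.node 
(.leaf (nat_lit 0x1d4c003a98000000)) 
(.leaf (nat_lit 0xea6001d4c0007de0000000002de0027fc007e500101f))) 
(.leaf (nat_lit 0xea6001d4c0007e2800000))))) (.node (.node (.node (.node 
(.leaf (nat_lit 0x1d4c003a98000000)) (.leaf (nat_lit 0xea6001d4c00123a000786))) (.node 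
(.leaf (nat_lit 0xea6001d4c00001b000157)) (.leaf (nat_lit 0x1d4c003a98000000)))) (.node (.node 
(.leaf (nat_lit 0x1d4c003a98000000)) (.leaf (nat_lit 0x3a9800000000000000000000000000000))) 
(.leaf (nat_lit 0x1d4c000000000000)))) (.node (.node (.node (.leaf (nat_lit 0x1d4c003a98000541)) 
(.leaf (nat_lit 0xea6001d4c000000000000))) (.node 
(.leaf (nat_lit 0x9c600000000000000609000ca880000000000000000000000000000)) 
(.leaf (nat_lit 0xea6001d4c0013460006f1)))) (.node (.node (.leaf (nat_lit 0x1d4c003a98000656)) 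
(.leaf (nat_lit 0xea6001d4c001080000e49))) (.leaf (nat_lit 0xea6001d4c000f1f800c9f)))))) (.node 
(.node (.node (.node (.node (.leaf (nat_lit 0x1d4c003a98000632)) 
(.leaf (nat_lit 0xea6001d4c0012550009db))) (.node (.leaf (nat_lit 0x753000ea6000000000000000000)) 
(.leaf (nat_lit 0xb0500000000250a00109800844001af6)))) (.node (.node 
(.leaf (nat_lit 0x1d4c003a98000034)) 
(.leaf (nat_lit 0xea6001d4c00000000000000000000000000000000000))) 
(.leaf (nat_lit 0xea6001d4c000000000000)))) (.node (.node (.node 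
(.leaf (nat_lit 0x1d4c003a98000000)) (.leaf (nat_lit 0xea6001d4c00109d800000))) (.node 
(.leaf (nat_lit 0xcf0c00ffd802c7a00686a00bd9001ad10000000023a00000000108e000000003eb600000000788800f9a)) 
(.leaf (nat_lit 0x1d4c003a98000672)))) (.node (.node (.leaf (nat_lit 0x1d4c003a98000000)) 
(.leaf (nat_lit 0xea6001d4c0013800006e6))) (.leaf (nat_lit 0x3a9800753000000000000000000000000))))) 
(.node (.node (.node (.node (.leaf (nat_lit 0x1d4c003a98000000)) 
(.leaf (nat_lit 0xea6001d4c000f79001bec))) (.node (.leaf (nat_lit 0x1d4c003a98000000)) 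
(.leaf (nat_lit 0x1d4c000000000000)))) (.node (.node (.leaf (nat_lit 0x1d4c003a98000000)) 
(.leaf (nat_lit 0xea6001d4c00074680046b))) (.leaf (nat_lit 0xea6001d4c000000000000)))) (.node 
(.node (.node (.leaf (nat_lit 0x1d4c003a98000000)) (.leaf (nat_lit 0xea6001d4c000f9480071f))) 
(.leaf (nat_lit 0xea6001d4c00038c000000))) (.node (.node (.leaf (nat_lit 0x1d4c003a98000000)) 
(.leaf (nat_lit 0xea6001d4c000000000000))) (.leaf (nat_lit 0x1d4c003a98000000)))))))
noncomputable def pt59 : Ix (Nat) := (.node (.node (.node (.node (.node 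
(.leaf (nat_lit 0x714400258800000003a560074c00001d00094700428a00771800f37001d3a)) 
(.leaf (nat_lit 0x1d4c003a98000000))) (.node (.leaf (nat_lit 0x1d4c003a98000017)) 
(.leaf (nat_lit 0x3a9800000000000000000000000000000)))) (.node (.node 
(.leaf (nat_lit 0x1d4c003a98001f23)) (.leaf (nat_lit 0x753000ea60000000000588006ea))) 
(.leaf (nat_lit 0x1d4c003a98000000)))) (.node (.node (.node (.leaf (nat_lit 0x1d4c003a9800161e)) 
(.leaf (nat_lit 0xea6001d4c00084100043300051c00040000000001344))) (.node 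
(.leaf (nat_lit 0x1d4c000000000000)) 
(.leaf (nat_lit 0x3a980075300000000000000000000000000000000000000000000000)))) (.node (.node 
(.leaf (nat_lit 0x1d4c003a98000acb)) 
(.leaf (nat_lit 0xea6001d4c00000000054000140800000000000000248))) 
(.leaf (nat_lit 0x1d4c003a98000000))))) (.node (.node (.node (.node 
(.leaf (nat_lit 0x1d4c003a9800164c)) 
(.leaf (nat_lit 0x65dc006888000000034d600488001087000aa80018420046a800994001628003aae00536800a420009ca003e5400977c00d2a800889001058002b7c0074c8004c7))) 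
(.node (.leaf (nat_lit 0x0)) (.leaf (nat_lit 0xea6001d4c00000000000000000000000000000000000)))) 
(.node (.node (.leaf (nat_lit 0x1d4c003a98000a7e)) (.leaf (nat_lit 0x753000ea6000000000000000000))) 
(.leaf (nat_lit 0x1d4c003a98000000)))) (.node (.node (.node (.leaf (nat_lit 0x1d4c003a98000000)) 
(.leaf (nat_lit 0x753000ea6000675c00f9b001eec))) (.node (.leaf (nat_lit 0x1d4c000000000000)) 
(.leaf (nat_lit 0xea6001d4c0000000001d400000000000000000000000)))) (.node (.node 
(.leaf (nat_lit 0x1d4c003a98000000)) (.leaf (nat_lit 0x0))) (.leaf (nat_lit 0x1d4c003a98000000))))))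
noncomputable def pt60 : Ix (Nat) := (.node (.node (.node (.node (.node (.node 
(.leaf (nat_lit 0x73a0004f60008d5003618006e5000c1d00148f002eda0000000004c8000000035ac00000000f22000000)) 
(.leaf (nat_lit 0x1d4c003a98000000))) (.leaf (nat_lit 0x1d4c003a980018c8))) (.node 
(.leaf (nat_lit 0xea6001d4c0001ad800000)) (.leaf (nat_lit 0x1d4c003a98000e1c)))) (.node (.node 
(.leaf (nat_lit 0xea6001d4c000fab000000)) (.leaf (nat_lit 0x1d4c003a98000000))) (.node 
(.leaf (nat_lit 0xea6001d4c00000000000000000000000000000000000)) 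
(.leaf (nat_lit 0xea6000000000000000000))))) (.node (.node (.node (.node 
(.leaf (nat_lit 0x3a9800753000000000000000000000000)) (.leaf (nat_lit 0x1d4c003a98000000))) 
(.leaf (nat_lit 0x1d4c003a98000000))) (.node (.leaf (nat_lit 0x3a9800000000000000000000000000000)) 
(.leaf (nat_lit 0x1d4c003a98000000)))) (.node (.node (.leaf (nat_lit 0xea6001d4c000480800000)) 
(.leaf (nat_lit 0x1d4c003a9800070e))) (.node (.leaf (nat_lit 0xea6001d4c000000000000)) 
(.leaf (nat_lit 0x1d4c003a98000000)))))) (.node (.node (.node (.node (.node 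
(.leaf (nat_lit 0x3a9800753000332000000000000000000)) (.leaf (nat_lit 0x1d4c003a98000000))) 
(.leaf (nat_lit 0x1d4c003a98000000))) (.node (.leaf (nat_lit 0x0)) 
(.leaf (nat_lit 0x1d4c003a98000000)))) (.node (.node (.leaf (nat_lit 0xea6001d4c000b5a001577)) 
(.leaf (nat_lit 0x1d4c003a980030b1))) (.node 
(.leaf (nat_lit 0xea6001d4c00000000000000000000000000000000000)) 
(.leaf (nat_lit 0xea6000000000000000000))))) (.node (.node (.node (.node 
(.leaf (nat_lit 0x3a9800753000000000000000000000000)) (.leaf (nat_lit 0x1d4c003a98000000))) 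
(.leaf (nat_lit 0x1d4c003a980016dd))) (.node (.leaf (nat_lit 0xea6001d4c000000000000)) 
(.leaf (nat_lit 0x0)))) (.node (.node (.leaf (nat_lit 0xea6001d4c000000000000)) 
(.leaf (nat_lit 0x1d4c003a98000b1f))) (.node 
(.leaf (nat_lit 0x1ede001dde00000000ec2000000002b0800000000f1600150a)) 
(.leaf (nat_lit 0x1d4c003a98000000)))))))
noncomputable def pt61 : Ix (Nat) := (.node (.node (.node (.node (.node 
(.leaf (nat_lit 0x200300360a006dec014a70018f0004e1c007cf4013ed002a1a0052be0084a400e54802032002df400aa30014a70018f0004e1c007cf40150d0027da0052be0084a401019001ca9002df400aa3001b41802f09005fe000aee401b41802f09005fe000aee401c680035d30060a600d74c018298037c5006e0e00dc1c01c168035f500464e008c1800af000000000300c00864800faf0017d700044c0057800000000232700460c006018010c9001f5e002fae000898014ad80295b00543e00501c00a038023f1)) 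
(.leaf (nat_lit 0x3a980075300000000000000000000000000000000000000000000000))) 
(.leaf (nat_lit 0xea6001d4c0000000000000013520000000000000000000000000000000000000000))) (.node 
(.node (.leaf (nat_lit 0xea6001d4c00000000000000000000000000000000000)) 
(.leaf (nat_lit 0x753000ea600000000000000000000000000000000000000000))) 
(.leaf (nat_lit 0x753000ea600000000000000000000000000000000000000000)))) (.node (.node (.node 
(.leaf (nat_lit 0xea6001d4c00000000000000000000000000000000000)) 
(.leaf (nat_lit 0xea6001d4c0000000000000000000000000000000000000000000000000000000000))) 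
(.leaf (nat_lit 0x753000ea600000000000000000000000000000000000000000))) (.node (.node 
(.leaf (nat_lit 0x3a980075300008ec003f5c0000000023500000000000000000000557)) 
(.leaf (nat_lit 0x753000ea600000000000000000000000000000000000000000))) 
(.leaf (nat_lit 0x1268001ef40000000135b00141c004714005bdc0132c001799004d4c0093c400f698025a100393a0098ec00f5d801ce20031a6009ab80101b801bc8002394006a1400e9f00131d001c40006b84002a68027f4004b94000000012e98022a0003f36006cc800e6a801966003df2006e5400c50001ab3002d50006c6c00cc68015ce002c2000000000af2000da7002b78000000003018015c1002ae80055d400ad280159000336e00683400ceb801499002c2e00441400d4f8004520034d600000000000001b45003ae4007ae800cae80036800307a00000000ce0001a3e0040560080980140c00210500000000815000f93001f770051f60092a8009c700000000244200a32400d118014ca))))) 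
(.node (.node (.node (.node (.leaf (nat_lit 0x753000ea600000000000000000000000000000000000000000)) 
(.leaf (nat_lit 0xea6001d4c0000000000000013520000000000000000000000000000000000000000))) 
(.leaf (nat_lit 0xea6001d4c0000000000000000000000000000000000000000000000000000000000))) (.node 
(.node 
(.leaf (nat_lit 0x1268001ef40000000135b00141c004714005bdc0132c001799004d4c0093c400f698025a100393a0098ec00f5d801ce20031a6009ab80101b801bc8002394006a1400e9f00131d001c40006b84002a68027f4004b94000000012e98022a0003f36006cc800e6a801966003df2006e5400c50001ab3002d50006c6c00cc68015ce002c2000000000af2000da7002b78000000003018015c1002ae80055d400ad280159000336e00683400ceb801499002c2e00441400d4f8004520034d600000000000001b45003ae4007ae800cae80036800307a00000000ce0001a3e0040560080980140c00210500000000815000f93001f770051f60092a8009c700000000244200a32400d118014ca)) 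
(.leaf (nat_lit 0x753000ea600000000000000000000000000000000000000000))) 
(.leaf (nat_lit 0x753000ea600000000000000000000000000000000000000000)))) (.node (.node (.node 
(.leaf (nat_lit 0x753000ea600000000000000000000000000000000000000000)) 
(.leaf (nat_lit 0x753000ea600000000000000000000000000000000000000000))) 
(.leaf (nat_lit 0x753000ea600000000000000000000000000000000000000000))) (.node 
(.leaf (nat_lit 0x3a980075300000000000000000000000000000000000000000000000)) 
(.leaf (nat_lit 0x3a980075300008ec003f5c0000000023500000000000000000000557))))))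
noncomputable def pt62 : Ix (Nat) := (.node (.node (.node (.node (.node (.leaf (nat_lit 0x0)) 
(.leaf (nat_lit 0x1d4c003a98000000))) (.leaf (nat_lit 0x1d4c003a98000000))) (.node 
(.leaf (nat_lit 0xea6001d4c000000000000)) (.leaf (nat_lit 0xea6001d4c0002b0800000)))) (.node (.node 
(.node (.leaf (nat_lit 0xea6001d4c000210800000)) 
(.leaf (nat_lit 0x3a9800753000000000000000000000000))) (.leaf (nat_lit 0x0))) (.node 
(.leaf (nat_lit 0x3a9800753000000000000000000000000)) (.leaf (nat_lit 0xea6001d4c000000000000))))) 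
(.node (.node (.node (.node (.leaf (nat_lit 0xea6001d4c0012ad800000)) 
(.leaf (nat_lit 0xea6001d4c000000000000))) (.leaf (nat_lit 0xea6001d4c000000000000))) (.node 
(.leaf (nat_lit 0xea6001d4c000000000000)) (.leaf (nat_lit 0xea6001d4c000210800000)))) (.node (.node 
(.node (.leaf (nat_lit 0xea6001d4c0002b0800000)) (.leaf (nat_lit 0xea6001d4c000000000000))) 
(.leaf (nat_lit 0xea6001d4c0012ad800000))) (.node (.leaf (nat_lit 0xea6001d4c000000000000)) 
(.leaf (nat_lit 0xea6001d4c000000000000))))))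
noncomputable def pt63 : Ix (Nat) := (.node (.node (.node (.node (.node (.node 
(.leaf (nat_lit 0x2197001878001b3800b43801a250040020077a800e6b801c7a0043da00000000000000000001e7600000001099800000000142000000006a70017a0)) 
(.leaf (nat_lit 0x1d4c003a98000000))) (.leaf (nat_lit 0x3a9800753000000000000000000000000))) (.node 
(.leaf (nat_lit 0x3a98007530000550000000000000002d1)) (.leaf (nat_lit 0x1d4c003a98000000)))) (.node 
(.node (.leaf (nat_lit 0x753000ea6000750000000000864)) (.leaf (nat_lit 0x1d4c003a98000000))) (.node 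
(.leaf (nat_lit 0x3a9800753000000000000000000000000)) (.leaf (nat_lit 0x1d4c000000000000))))) 
(.node (.node (.node (.leaf (nat_lit 0x3a9800753000008600000000000000000000000000000000000009f8)) 
(.leaf (nat_lit 0x1d4c003a98000000))) (.node (.leaf (nat_lit 0x3a9800000000000000000000000000000)) 
(.leaf (nat_lit 0x0)))) (.node (.node (.leaf (nat_lit 0x753000ea60004c90000bc800dae)) 
(.leaf (nat_lit 0x1d4c003a98000000))) (.node 
(.leaf (nat_lit 0xea6001d4c00000000000000000000000000000000000)) 
(.leaf (nat_lit 0x1d4c003a98000000)))))) (.node (.node (.node (.node (.node 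
(.leaf (nat_lit 0x3a980075300029a60000000016e0000000000000000000000000176c)) 
(.leaf (nat_lit 0x1d4c003a98000000))) 
(.leaf (nat_lit 0x88d0006b8000000002094007af80000000000000133c0067d800954801add))) (.node 
(.leaf (nat_lit 0x0)) (.leaf (nat_lit 0x1d4c003a98000000)))) (.node (.node 
(.leaf (nat_lit 0x753000ea60001b080000000050a)) (.leaf (nat_lit 0x1d4c003a98000081))) (.node 
(.leaf (nat_lit 0xea6001d4c00000000000000000000000000000000000)) 
(.leaf (nat_lit 0x1d4c003a98000000))))) (.node (.node (.node 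
(.leaf (nat_lit 0x1d4c003a9800000000000000000000000000000)) (.leaf (nat_lit 0x1d4c003a98000000))) 
(.node (.leaf (nat_lit 0x3a9800000000000000000000000000000)) (.leaf (nat_lit 0x1d4c000000000000)))) 
(.node (.node (.leaf (nat_lit 0x753000ea6000000000000000000)) (.leaf (nat_lit 0x1d4c003a980005a6))) 
(.node (.leaf (nat_lit 0xea6001d4c00000000048500000000000000000000000)) 
(.leaf (nat_lit 0x1d4c003a98000000)))))))
noncomputable def pt64 : Ix (Nat) := (.node (.node (.node (.node (.node (.node 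
(.leaf (nat_lit 0x9688002a0000b2f003aa600715800d23001e6500000000720400000000000)) 
(.leaf (nat_lit 0x1d4c003a98000000))) (.leaf (nat_lit 0xea6001d4c000000000000))) (.node 
(.leaf (nat_lit 0xea6001d4c0001aa000000)) (.leaf (nat_lit 0x1d4c003a98000000)))) (.node (.node 
(.leaf (nat_lit 0xea6001d4c0010a8800a87)) (.leaf (nat_lit 0x1d4c003a98000000))) (.node 
(.leaf (nat_lit 0x3a9800753000000000000000000000000)) (.leaf (nat_lit 0xea6000000000000000000))))) 
(.node (.node (.node (.leaf (nat_lit 0x753000ea600009dc00000000000)) 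
(.leaf (nat_lit 0x1d4c003a98000000))) (.node (.leaf (nat_lit 0x3a9800000000000000000000000000000)) 
(.leaf (nat_lit 0x0)))) (.node (.node (.leaf (nat_lit 0xea6001d4c000b57000921)) 
(.leaf (nat_lit 0x1d4c003a9800052d))) (.node (.leaf (nat_lit 0xea6001d4c000000000000)) 
(.leaf (nat_lit 0x1d4c003a98000000)))))) (.node (.node (.node (.node (.node 
(.leaf (nat_lit 0x753000ea6000625c00000000000)) (.leaf (nat_lit 0x1d4c003a98000000))) 
(.leaf (nat_lit 0x2806001f7c00000000f7b800000003cea00000000f4a001f09))) (.node 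
(.leaf (nat_lit 0x0)) (.leaf (nat_lit 0x1d4c003a98000000)))) (.node (.node 
(.leaf (nat_lit 0xea6001d4c000548000162)) (.leaf (nat_lit 0x1d4c003a98001810))) (.node 
(.leaf (nat_lit 0xea6001d4c000000000000)) (.leaf (nat_lit 0x1d4c003a98000000))))) (.node (.node 
(.node (.leaf (nat_lit 0xea6001d4c000000000000)) (.leaf (nat_lit 0x1d4c003a98000000))) (.node 
(.leaf (nat_lit 0x3a9800000000000000000000000000000)) (.leaf (nat_lit 0xea6000000000000000000)))) 
(.node (.node (.leaf (nat_lit 0xea6001d4c000000000000)) (.leaf (nat_lit 0x1d4c003a980012c9))) 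
(.node (.leaf (nat_lit 0x753000ea6000000000000000000)) (.leaf (nat_lit 0x1d4c003a98000000)))))))
noncomputable def pt65 : Ix (Nat) := (.node (.node (.node (.node (.node (.node 
(.leaf (nat_lit 0x2197001878001b3800b43801a250040020077a800e6b801c7a0043da00000000000000000001e7600000001099800000000142000000006a70017a0)) 
(.leaf (nat_lit 0x1d4c003a98000000))) (.leaf (nat_lit 0x3a9800753000000000000000000000000))) (.node 
(.leaf (nat_lit 0x3a98007530000550000000000000002d1)) (.leaf (nat_lit 0x1d4c003a98000000)))) (.node 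
(.node (.leaf (nat_lit 0x753000ea6000750000000000864)) (.leaf (nat_lit 0x1d4c003a98000000))) (.node 
(.leaf (nat_lit 0x3a9800753000000000000000000000000)) (.leaf (nat_lit 0x1d4c000000000000))))) 
(.node (.node (.node (.leaf (nat_lit 0x3a9800753000008600000000000000000000000000000000000009f8)) 
(.leaf (nat_lit 0x1d4c003a98000000))) (.node (.leaf (nat_lit 0x3a9800000000000000000000000000000)) 
(.leaf (nat_lit 0x0)))) (.node (.node (.leaf (nat_lit 0x753000ea60004c90000bc800dae)) 
(.leaf (nat_lit 0x1d4c003a98000000))) (.node 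
(.leaf (nat_lit 0xea6001d4c00000000000000000000000000000000000)) 
(.leaf (nat_lit 0x1d4c003a98000000)))))) (.node (.node (.node (.node (.node 
(.leaf (nat_lit 0x3a980075300029a60000000016e0000000000000000000000000176c)) 
(.leaf (nat_lit 0x1d4c003a98000000))) 
(.leaf (nat_lit 0x88d0006b8000000002094007af80000000000000133c0067d800954801add))) (.node 
(.leaf (nat_lit 0x0)) (.leaf (nat_lit 0x1d4c003a98000000)))) (.node (.node 
(.leaf (nat_lit 0x753000ea60001b080000000050a)) (.leaf (nat_lit 0x1d4c003a98000081))) (.node 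
(.leaf (nat_lit 0xea6001d4c00000000000000000000000000000000000)) 
(.leaf (nat_lit 0x1d4c003a98000000))))) (.node (.node (.node 
(.leaf (nat_lit 0x1d4c003a9800000000000000000000000000000)) (.leaf (nat_lit 0x1d4c003a98000000))) 
(.node (.leaf (nat_lit 0x3a9800000000000000000000000000000)) (.leaf (nat_lit 0x1d4c000000000000)))) 
(.node (.node (.leaf (nat_lit 0x753000ea6000000000000000000)) (.leaf (nat_lit 0x1d4c003a980005a6))) 
(.node (.leaf (nat_lit 0xea6001d4c00000000048500000000000000000000000)) 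
(.leaf (nat_lit 0x1d4c003a98000000)))))))
noncomputable def pt66 : Ix (Nat) := (.node (.node (.node (.node (.node (.node 
(.leaf (nat_lit 0x9688002a0000b2f003aa600715800d23001e6500000000720400000000000)) 
(.leaf (nat_lit 0x1d4c003a98000000))) (.leaf (nat_lit 0xea6001d4c000000000000))) (.node 
(.leaf (nat_lit 0xea6001d4c0001aa000000)) (.leaf (nat_lit 0x1d4c003a98000000)))) (.node (.node 
(.leaf (nat_lit 0xea6001d4c0010a8800a87)) (.leaf (nat_lit 0x1d4c003a98000000))) (.node 
(.leaf (nat_lit 0x3a9800753000000000000000000000000)) (.leaf (nat_lit 0xea6000000000000000000))))) 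
(.node (.node (.node (.leaf (nat_lit 0x753000ea600009dc00000000000)) 
(.leaf (nat_lit 0x1d4c003a98000000))) (.node (.leaf (nat_lit 0x3a9800000000000000000000000000000)) 
(.leaf (nat_lit 0x0)))) (.node (.node (.leaf (nat_lit 0xea6001d4c000b57000921)) 
(.leaf (nat_lit 0x1d4c003a9800052d))) (.node (.leaf (nat_lit 0xea6001d4c000000000000)) 
(.leaf (nat_lit 0x1d4c003a98000000)))))) (.node (.node (.node (.node (.node 
(.leaf (nat_lit 0x753000ea6000625c00000000000)) (.leaf (nat_lit 0x1d4c003a98000000))) 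
(.leaf (nat_lit 0x2806001f7c00000000f7b800000003cea00000000f4a001f09))) (.node 
(.leaf (nat_lit 0x0)) (.leaf (nat_lit 0x1d4c003a98000000)))) (.node (.node 
(.leaf (nat_lit 0xea6001d4c000548000162)) (.leaf (nat_lit 0x1d4c003a98001810))) (.node 
(.leaf (nat_lit 0xea6001d4c000000000000)) (.leaf (nat_lit 0x1d4c003a98000000))))) (.node (.node 
(.node (.leaf (nat_lit 0xea6001d4c000000000000)) (.leaf (nat_lit 0x1d4c003a98000000))) (.node 
(.leaf (nat_lit 0x3a9800000000000000000000000000000)) (.leaf (nat_lit 0xea6000000000000000000)))) 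
(.node (.node (.leaf (nat_lit 0xea6001d4c000000000000)) (.leaf (nat_lit 0x1d4c003a980012c9))) 
(.node (.leaf (nat_lit 0x753000ea6000000000000000000)) (.leaf (nat_lit 0x1d4c003a98000000)))))))
noncomputable def pt67 : Ix (Nat) := (.node (.node (.node (.node (.node 
(.leaf (nat_lit 0x268f0043bc008800013b7800000004ede00000001a54002251)) 
(.leaf (nat_lit 0xea6001d4c000000000000))) (.leaf (nat_lit 0x3a9800753000212c00000000000000000))) 
(.node (.node (.leaf (nat_lit 0x1d4c003a98000000)) (.leaf (nat_lit 0xea6001d4c000000000000))) 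
(.leaf (nat_lit 0xea6001d4c000430000000)))) (.node (.node (.node 
(.leaf (nat_lit 0x1d4c003a98000000)) (.leaf (nat_lit 0x3a9800753000000000000000000000000))) 
(.leaf (nat_lit 0xea6001d4c000000000000))) (.node (.node (.leaf (nat_lit 0xea6001d4c000adb800000)) 
(.leaf (nat_lit 0xea6001d4c000000000000))) 
(.leaf (nat_lit 0x60b800a130016520038f0005bb800e700014b5003be60064740102a00000000000000150c008ba000b5e))))) 
(.node (.node (.node (.node (.leaf (nat_lit 0x1d4c003a98000000)) 
(.leaf (nat_lit 0x3a9800753000212c00000000000000000))) 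
(.leaf (nat_lit 0x3a9800753000000000000000000000000))) (.node (.node 
(.leaf (nat_lit 0x60b800a130016520038f0005bb800e700014b5003be60064740102a00000000000000150c008ba000b5e)) 
(.leaf (nat_lit 0xea6001d4c000430000000))) (.leaf (nat_lit 0xea6001d4c000000000000)))) (.node 
(.node (.node (.leaf (nat_lit 0x1d4c003a98000000)) (.leaf (nat_lit 0xea6001d4c000000000000))) 
(.leaf (nat_lit 0xea6001d4c000000000000))) (.node (.leaf (nat_lit 0xea6001d4c000000000000)) 
(.leaf (nat_lit 0xea6001d4c000adb800000))))))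
noncomputable def pt68 : Ix (Nat) := (.node (.node (.node (.node (.node 
(.leaf (nat_lit 0x3024000b90000000045aa0001b000000000000002654003f9c000bb802352)) 
(.leaf (nat_lit 0x753000ea6000193c00000000000))) (.leaf (nat_lit 0x1d4c003a98000000))) (.node 
(.node (.leaf (nat_lit 0x1d4c003a98000000)) (.leaf (nat_lit 0x1d4c003a98000000))) 
(.leaf (nat_lit 0x3a98007530001ba80000000000000000000000000000000000000000)))) (.node (.node (.node 
(.leaf (nat_lit 0x1d4c003a98000000)) 
(.leaf (nat_lit 0x7ecc00e4a00121200399200930c00000001d7e0050b200bbf40005c801f82))) 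
(.leaf (nat_lit 0x3a980075300027ec00000000000000000))) (.node (.node 
(.leaf (nat_lit 0x1d4c003a98000000)) (.leaf (nat_lit 0x1d4c003a98000000))) 
(.leaf (nat_lit 0x1d4c003a9800000000000000000000000000000))))) (.node (.node (.node (.node 
(.leaf (nat_lit 0x1d4c003a98000000)) (.leaf (nat_lit 0x753000ea6000000000000000000))) 
(.leaf (nat_lit 0x142700231200497000afd001e4c0021f8005ca400ac8000e750022c2005228000000010a5002ba60023a800b2a800000000000000000000000011cf))) 
(.node (.node (.leaf (nat_lit 0x1d4c003a98000000)) (.leaf (nat_lit 0x1d4c003a98000000))) 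
(.leaf (nat_lit 0x3a980075300000000000000000000000000000000000000000000000)))) (.node (.node (.node 
(.leaf (nat_lit 0x1d4c003a98000000)) (.leaf (nat_lit 0x1d4c003a98000000))) 
(.leaf (nat_lit 0x3a9800753000000000000000000000000))) (.node (.leaf (nat_lit 0x1d4c003a98000000)) 
(.leaf (nat_lit 0x1d4c003a9800000000000000000000000000000))))))
noncomputable def pt69 : Ix (Nat) := (.node (.node (.node (.node (.node 
(.leaf (nat_lit 0x5d2000a7280168e0034a8005da000ea10017f2003390007ac000fa0000000000000006b2c0044200064a)) 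
(.leaf (nat_lit 0xea6001d4c0004ae000000))) (.leaf (nat_lit 0xea6001d4c000000000000))) (.node (.node 
(.leaf (nat_lit 0x3a9800753000000000000000000000000)) (.leaf (nat_lit 0x1d4c003a98000000))) 
(.leaf (nat_lit 0x753000ea6000419000000000000)))) (.node (.node (.node 
(.leaf (nat_lit 0xea6001d4c000000000000)) 
(.leaf (nat_lit 0x2694003eae008928013dc801b90004f7400000001a9c8020b7))) 
(.leaf (nat_lit 0xea6001d4c000ad3800000))) (.node (.node (.leaf (nat_lit 0xea6001d4c000000000000)) 
(.leaf (nat_lit 0x1d4c003a98000000))) (.leaf (nat_lit 0xea6001d4c000000000000))))) (.node (.node 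
(.node (.node (.leaf (nat_lit 0xea6001d4c000ad3800000)) (.leaf (nat_lit 0xea6001d4c000000000000))) 
(.leaf (nat_lit 0x5c44009f100168b00332e00000000dc5001b2400000000701400000000aaa))) (.node (.node 
(.leaf (nat_lit 0xea6001d4c000000000000)) (.leaf (nat_lit 0x1d4c003a98000000))) 
(.leaf (nat_lit 0x753000ea6000000000000000000)))) (.node (.node (.node 
(.leaf (nat_lit 0x3a9800753000211200000000000000000)) (.leaf (nat_lit 0x1d4c003a98000000))) 
(.leaf (nat_lit 0xea6001d4c000000000000))) (.node (.leaf (nat_lit 0xea6001d4c00054b800000)) 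
(.leaf (nat_lit 0xea6001d4c000000000000))))))
noncomputable def pt70 : Ix (Nat) := (.node (.node (.node (.node (.node 
(.leaf (nat_lit 0x3024000b90000000045aa0001b000000000000002654003f9c000bb802352)) 
(.leaf (nat_lit 0x753000ea6000193c00000000000))) (.leaf (nat_lit 0x1d4c003a98000000))) (.node 
(.node (.leaf (nat_lit 0x1d4c003a98000000)) (.leaf (nat_lit 0x1d4c003a98000000))) 
(.leaf (nat_lit 0x3a98007530001ba80000000000000000000000000000000000000000)))) (.node (.node (.node 
(.leaf (nat_lit 0x1d4c003a98000000)) 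
(.leaf (nat_lit 0x7ecc00e4a00121200399200930c00000001d7e0050b200bbf40005c801f82))) 
(.leaf (nat_lit 0x3a980075300027ec00000000000000000))) (.node (.node 
(.leaf (nat_lit 0x1d4c003a98000000)) (.leaf (nat_lit 0x1d4c003a98000000))) 
(.leaf (nat_lit 0x1d4c003a9800000000000000000000000000000))))) (.node (.node (.node (.node 
(.leaf (nat_lit 0x1d4c003a98000000)) (.leaf (nat_lit 0x753000ea6000000000000000000))) 
(.leaf (nat_lit 0x142700231200497000afd001e4c0021f8005ca400ac8000e750022c2005228000000010a5002ba60023a800b2a800000000000000000000000011cf))) 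
(.node (.node (.leaf (nat_lit 0x1d4c003a98000000)) (.leaf (nat_lit 0x1d4c003a98000000))) 
(.leaf (nat_lit 0x3a980075300000000000000000000000000000000000000000000000)))) (.node (.node (.node 
(.leaf (nat_lit 0x1d4c003a98000000)) (.leaf (nat_lit 0x1d4c003a98000000))) 
(.leaf (nat_lit 0x3a9800753000000000000000000000000))) (.node (.leaf (nat_lit 0x1d4c003a98000000)) 
(.leaf (nat_lit 0x1d4c003a9800000000000000000000000000000))))))
noncomputable def pt71 : Ix (Nat) := (.node (.node (.node (.node (.node 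
(.leaf (nat_lit 0x5d2000a7280168e0034a8005da000ea10017f2003390007ac000fa0000000000000006b2c0044200064a)) 
(.leaf (nat_lit 0xea6001d4c0004ae000000))) (.leaf (nat_lit 0xea6001d4c000000000000))) (.node (.node 
(.leaf (nat_lit 0x3a9800753000000000000000000000000)) (.leaf (nat_lit 0x1d4c003a98000000))) 
(.leaf (nat_lit 0x753000ea6000419000000000000)))) (.node (.node (.node 
(.leaf (nat_lit 0xea6001d4c000000000000)) 
(.leaf (nat_lit 0x2694003eae008928013dc801b90004f7400000001a9c8020b7))) 
(.leaf (nat_lit 0xea6001d4c000ad3800000))) (.node (.node (.leaf (nat_lit 0xea6001d4c000000000000)) 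
(.leaf (nat_lit 0x1d4c003a98000000))) (.leaf (nat_lit 0xea6001d4c000000000000))))) (.node (.node 
(.node (.node (.leaf (nat_lit 0xea6001d4c000ad3800000)) (.leaf (nat_lit 0xea6001d4c000000000000))) 
(.leaf (nat_lit 0x5c44009f100168b00332e00000000dc5001b2400000000701400000000aaa))) (.node (.node 
(.leaf (nat_lit 0xea6001d4c000000000000)) (.leaf (nat_lit 0x1d4c003a98000000))) 
(.leaf (nat_lit 0x753000ea6000000000000000000)))) (.node (.node (.node 
(.leaf (nat_lit 0x3a9800753000211200000000000000000)) (.leaf (nat_lit 0x1d4c003a98000000))) 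
(.leaf (nat_lit 0xea6001d4c000000000000))) (.node (.leaf (nat_lit 0xea6001d4c00054b800000)) 
(.leaf (nat_lit 0xea6001d4c000000000000))))))
noncomputable def pt72 : Ix (Nat) := (.node (.node (.node (.node (.node 
(.leaf (nat_lit 0x26660041e0008968013ea000da6004fa800369801aaa002127)) 
(.leaf (nat_lit 0x3a980075300021c000000000000000000))) 
(.leaf (nat_lit 0x3a980075300021c000000000000000000))) (.node (.node 
(.leaf (nat_lit 0x1d4c003a98000000)) (.leaf (nat_lit 0xea6001d4c000000000000))) 
(.leaf (nat_lit 0xea6001d4c000000000000)))) (.node (.node (.node 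
(.leaf (nat_lit 0x1d4c003a98000000)) (.leaf (nat_lit 0xea6001d4c000000000000))) 
(.leaf (nat_lit 0xea6001d4c000000000000))) (.node (.leaf (nat_lit 0xea6001d4c000b7b000000)) 
(.leaf (nat_lit 0xea6001d4c000b7b000000))))) (.node (.node (.node (.node 
(.leaf (nat_lit 0x1d4c003a98000000)) (.leaf (nat_lit 0x3a9800753000000000000000000000000))) 
(.leaf (nat_lit 0x3a9800753000000000000000000000000))) (.node 
(.leaf (nat_lit 0x8bc8018b5003754004f1400a5e8014d7000000006b7000e9e00208900239e00885800864802048)) 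
(.leaf (nat_lit 0x8bc8018b5003754004f1400a5e8014d7000000006b7000e9e00208900239e00885800864802048)))) 
(.node (.node (.node (.leaf (nat_lit 0x1d4c003a98000000)) 
(.leaf (nat_lit 0xea6001d4c0005cb000000))) (.leaf (nat_lit 0xea6001d4c0005cb000000))) (.node 
(.leaf (nat_lit 0xea6001d4c000000000000)) (.leaf (nat_lit 0xea6001d4c000000000000))))))
noncomputable def pt73 : Ix (Nat) := (.node (.node (.node (.node (.node 
(.leaf (nat_lit 0x263700401e000000013e4001729004f90005ca401abb00220f)) 
(.leaf (nat_lit 0x3a9800753000000000000000000000000))) 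
(.leaf (nat_lit 0x3a9800753000000000000000000000000))) (.node (.node 
(.leaf (nat_lit 0x1d4c003a98000000)) (.leaf (nat_lit 0xea6001d4c000000000000))) 
(.leaf (nat_lit 0xea6001d4c000000000000)))) (.node (.node (.node 
(.leaf (nat_lit 0x1d4c003a98000000)) (.leaf (nat_lit 0xea6001d4c000000000000))) 
(.leaf (nat_lit 0xea6001d4c000000000000))) (.node (.leaf (nat_lit 0xea6001d4c001131801951)) 
(.leaf (nat_lit 0xea6001d4c001131801951))))) (.node (.node (.node (.node 
(.leaf (nat_lit 0x1d4c003a98000000)) (.leaf (nat_lit 0xea6001d4c000000000000))) 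
(.leaf (nat_lit 0xea6001d4c000000000000))) (.node 
(.leaf (nat_lit 0x90c800000002950004f740090800111800372c0065a800000001da500000000570400000000000)) 
(.leaf (nat_lit 0x90c800000002950004f740090800111800372c0065a800000001da500000000570400000000000)))) 
(.node (.node (.node (.leaf (nat_lit 0x1d4c003a98000000)) 
(.leaf (nat_lit 0xea6001d4c000bdc800000))) (.leaf (nat_lit 0xea6001d4c000bdc800000))) (.node 
(.leaf (nat_lit 0x3a9800753000000000000000000000000)) 
(.leaf (nat_lit 0x3a9800753000000000000000000000000))))))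
noncomputable def pt74 : Ix (Nat) := (.node (.node (.node (.node (.node 
(.leaf (nat_lit 0x99a800aae002db800660400000000f84002ad8006c58007f8001d6a000000004e2400000000cb9)) 
(.leaf (nat_lit 0x1d4c003a98003112))) (.leaf (nat_lit 0xea6001d4c000000000000))) (.node 
(.leaf (nat_lit 0x3a9800753000000000000000000000000)) 
(.leaf (nat_lit 0x3a98007530002b9c00000000000000000)))) (.node (.node (.node 
(.leaf (nat_lit 0xea6001d4c000000000000)) (.leaf (nat_lit 0x1d4c003a98000000))) 
(.leaf (nat_lit 0xea6001d4c000b1f000000))) (.node (.leaf (nat_lit 0xea6001d4c000000000000)) 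
(.leaf (nat_lit 0x263500411000781001a83800fb9004d2800b45001a3d801cbc))))) (.node (.node (.node 
(.node (.leaf (nat_lit 0xea6001d4c000a29800000)) (.leaf (nat_lit 0x1d4c003a98000000))) 
(.leaf (nat_lit 0x143e8012b1003bee00acb0013a5002abc003d7000859c0041d0022ea0040dc0047000118a800dd5))) 
(.node (.leaf (nat_lit 0xea6001d4c000000000000)) (.leaf (nat_lit 0xea6001d4c000c29000387)))) (.node 
(.node (.leaf (nat_lit 0x3a9800753000187e00000000000000000)) 
(.leaf (nat_lit 0xea6001d4c000000000000))) (.node (.leaf (nat_lit 0xea6001d4c0004aa800000)) 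
(.leaf (nat_lit 0x1d4c003a98002850))))))
noncomputable def pt75 : Ix (Nat) := (.node (.node (.node (.node (.node 
(.leaf (nat_lit 0x99a800aae002db800660400000000f84002ad8006c58007f8001d6a000000004e2400000000cb9)) 
(.leaf (nat_lit 0x1d4c003a98000000))) (.leaf (nat_lit 0xea6001d4c000000000000))) (.node 
(.leaf (nat_lit 0x3a9800753000000000000000000000000)) 
(.leaf (nat_lit 0x3a98007530002b9c00000000000000000)))) (.node (.node (.node 
(.leaf (nat_lit 0xea6001d4c000000000000)) (.leaf (nat_lit 0x1d4c003a98003112))) 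
(.leaf (nat_lit 0xea6001d4c000b1f000000))) (.node (.leaf (nat_lit 0xea6001d4c000000000000)) 
(.leaf (nat_lit 0x263500411000781001a83800fb9004d2800b45001a3d801cbc))))) (.node (.node (.node 
(.node (.leaf (nat_lit 0xea6001d4c000a29800000)) (.leaf (nat_lit 0x1d4c003a98002850))) 
(.leaf (nat_lit 0x143e8012b1003bee00acb0013a5002abc003d7000859c0041d0022ea0040dc0047000118a800dd5))) 
(.node (.leaf (nat_lit 0xea6001d4c000000000000)) (.leaf (nat_lit 0xea6001d4c000c29000387)))) (.node 
(.node (.leaf (nat_lit 0x3a9800753000187e00000000000000000)) 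
(.leaf (nat_lit 0xea6001d4c000000000000))) (.node (.leaf (nat_lit 0xea6001d4c0004aa800000)) 
(.leaf (nat_lit 0x1d4c003a98000000))))))
noncomputable def pt76 : Ix (Nat) := (.node (.node (.node (.node (.node 
(.leaf (nat_lit 0x274900414e008a440139d000441004e7400110401a59801fe0)) 
(.leaf (nat_lit 0x3a9800753000237e00000000000000000))) 
(.leaf (nat_lit 0x3a9800753000237e00000000000000000))) (.node (.node 
(.leaf (nat_lit 0x1d4c003a98000000)) (.leaf (nat_lit 0xea6001d4c000000000000))) 
(.leaf (nat_lit 0xea6001d4c000000000000)))) (.node (.node (.node 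
(.leaf (nat_lit 0x1d4c003a98000000)) (.leaf (nat_lit 0xea6001d4c000000000000))) 
(.leaf (nat_lit 0xea6001d4c000000000000))) (.node (.leaf (nat_lit 0xea6001d4c000b49000000)) 
(.leaf (nat_lit 0xea6001d4c000b49000000))))) (.node (.node (.node (.node 
(.leaf (nat_lit 0x1d4c003a98000000)) (.leaf (nat_lit 0x3a9800753000000000000000000000000))) 
(.leaf (nat_lit 0x3a9800753000000000000000000000000))) (.node 
(.leaf (nat_lit 0x8790018ab00383c00695c00af300148a0000000064c0010588004af001afc00686800de6001c6f)) 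
(.leaf (nat_lit 0x8790018ab00383c00695c00af300148a0000000064c0010588004af001afc00686800de6001c6f)))) 
(.node (.node (.node (.leaf (nat_lit 0x1d4c003a98000000)) 
(.leaf (nat_lit 0xea6001d4c000590000000))) (.leaf (nat_lit 0xea6001d4c000590000000))) (.node 
(.leaf (nat_lit 0xea6001d4c000000000000)) (.leaf (nat_lit 0xea6001d4c000000000000))))))
noncomputable def pt77 : Ix (Nat) := (.node (.node (.node (.node (.node 
(.leaf (nat_lit 0x9a28010978022c00059d40031b801675000c6e)) 
(.leaf (nat_lit 0x753000ea6000000000000000000))) (.leaf (nat_lit 0x753000ea6000000000000000000))) 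
(.node (.node (.leaf (nat_lit 0x1d4c003a98000000)) (.leaf (nat_lit 0xea6001d4c000000000000))) 
(.leaf (nat_lit 0xea6001d4c000000000000)))) (.node (.node (.node 
(.leaf (nat_lit 0x1d4c003a98000000)) (.leaf (nat_lit 0xea6001d4c000000000000))) 
(.leaf (nat_lit 0xea6001d4c000000000000))) (.node (.leaf (nat_lit 0xea6001d4c0011b480204a)) 
(.leaf (nat_lit 0xea6001d4c0011b480204a))))) (.node (.node (.node (.node 
(.leaf (nat_lit 0x1d4c003a98000000)) (.leaf (nat_lit 0xea6001d4c000000000000))) 
(.leaf (nat_lit 0xea6001d4c000000000000))) (.node 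
(.leaf (nat_lit 0x1408002ea8005f4800dae00180c002e60003a9400000000000003d6800000001053801afa)) 
(.leaf (nat_lit 0x1408002ea8005f4800dae00180c002e60003a9400000000000003d6800000001053801afa)))) 
(.node (.node (.node (.leaf (nat_lit 0x1d4c003a98000000)) 
(.leaf (nat_lit 0xea6001d4c000ccd800000))) (.leaf (nat_lit 0xea6001d4c000ccd800000))) (.node 
(.leaf (nat_lit 0x753000ea600049d400000000000)) (.leaf (nat_lit 0x753000ea600049d400000000000))))))
noncomputable def pt78 : Ix (Nat) := (.node (.node (.node (.node (.node 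
(.leaf (nat_lit 0x259f0040a400888001368000000004da000000001a610020ad)) 
(.leaf (nat_lit 0x3a9800753000000000000000000000000))) 
(.leaf (nat_lit 0x3a9800753000000000000000000000000))) (.node (.node 
(.leaf (nat_lit 0x1d4c003a98000000)) (.leaf (nat_lit 0xea6001d4c000000000000))) 
(.leaf (nat_lit 0xea6001d4c000000000000)))) (.node (.node (.node 
(.leaf (nat_lit 0x1d4c003a98000000)) (.leaf (nat_lit 0xea6001d4c000000000000))) 
(.leaf (nat_lit 0xea6001d4c000000000000))) (.node (.leaf (nat_lit 0xea6001d4c0011c7800a40)) 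
(.leaf (nat_lit 0xea6001d4c0011c7800a40))))) (.node (.node (.node (.node 
(.leaf (nat_lit 0x1d4c003a98000000)) (.leaf (nat_lit 0xea6001d4c000000000000))) 
(.leaf (nat_lit 0xea6001d4c000000000000))) (.node 
(.leaf (nat_lit 0x939001504002e8c00621c007b58017b0002504006b8800f1900000000000000578400000000101)) 
(.leaf (nat_lit 0x939001504002e8c00621c007b58017b0002504006b8800f1900000000000000578400000000101)))) 
(.node (.node (.node (.leaf (nat_lit 0x1d4c003a98000000)) 
(.leaf (nat_lit 0xea6001d4c000cb2800000))) (.leaf (nat_lit 0xea6001d4c000cb2800000))) (.node 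
(.leaf (nat_lit 0x3a980075300024fa00000000000000000)) 
(.leaf (nat_lit 0x3a980075300024fa00000000000000000))))))
noncomputable def pt79 : Ix (Nat) := (.node (.node (.node (.node (.node 
(.leaf (nat_lit 0xec30020220054b800000001e82003adc006bb400efc0014f600000000000001195801a38)) 
(.leaf (nat_lit 0x1d4c003a98000000))) (.leaf (nat_lit 0xea6001d4c000000000000))) (.node 
(.leaf (nat_lit 0x753000ea6000000000000000000)) (.leaf (nat_lit 0x753000ea6000526400000000000)))) 
(.node (.node (.node (.leaf (nat_lit 0xea6001d4c000000000000)) 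
(.leaf (nat_lit 0x1d4c003a980029ff))) (.leaf (nat_lit 0xea6001d4c000aa3800000))) (.node 
(.leaf (nat_lit 0xea6001d4c000000000000)) 
(.leaf (nat_lit 0x869000eb900195f00500200c3ec01b3e800326))))) (.node (.node (.node (.node 
(.leaf (nat_lit 0xea6001d4c000a02800000)) (.leaf (nat_lit 0x1d4c003a980025b3))) 
(.leaf (nat_lit 0x231a0021c6006aa00183c800095000696006c7c00de200215c00470e0027dc00ea6002252))) 
(.node (.leaf (nat_lit 0xea6001d4c000000000000)) (.leaf (nat_lit 0xea6001d4c000b13800000)))) (.node 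
(.node (.leaf (nat_lit 0x753000ea600044c400000000000)) (.leaf (nat_lit 0xea6001d4c000000000000))) 
(.node (.leaf (nat_lit 0xea6001d4c000285800000)) (.leaf (nat_lit 0x1d4c003a98000000))))))
noncomputable def pt80 : Ix (Nat) := (.node (.node (.node (.node (.node 
(.leaf (nat_lit 0x9248014f3002e3a002f080070080103a00000000692000fab00000000053600626400509800e54)) 
(.leaf (nat_lit 0x1d4c003a98000000))) (.leaf (nat_lit 0xea6001d4c000000000000))) (.node 
(.leaf (nat_lit 0x3a9800753000000000000000000000000)) 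
(.leaf (nat_lit 0x3a98007530002ebe00000000000000000)))) (.node (.node (.node 
(.leaf (nat_lit 0xea6001d4c000000000000)) (.leaf (nat_lit 0x1d4c003a98002cf2))) 
(.leaf (nat_lit 0xea6001d4c000bed000000))) (.node (.leaf (nat_lit 0xea6001d4c000000000000)) 
(.leaf (nat_lit 0x22fd00401c008418012a800291d00760e000828019d0002a65))))) (.node (.node (.node 
(.node (.leaf (nat_lit 0xea6001d4c000a20000000)) (.leaf (nat_lit 0x1d4c003a980029d0))) 
(.leaf (nat_lit 0x129f8018500039d200b820013b9802c800005b0007d4c0113b00000700299800740c010b8002580))) 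
(.node (.leaf (nat_lit 0xea6001d4c000000000000)) (.leaf (nat_lit 0xea6001d4c000c4f80016c)))) (.node 
(.node (.leaf (nat_lit 0x3a980075300027a200000000000000000)) 
(.leaf (nat_lit 0xea6001d4c000000000000))) (.node (.leaf (nat_lit 0xea6001d4c000521000000)) 
(.leaf (nat_lit 0x1d4c003a98000000))))))
noncomputable def pt81 : Ix (Nat) := (.node (.node (.node (.node (.node 
(.leaf (nat_lit 0xec30020220054b800000001e82003adc006bb400efc0014f600000000000001195801a38)) 
(.leaf (nat_lit 0x1d4c003a980029ff))) (.leaf (nat_lit 0xea6001d4c000000000000))) (.node 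
(.leaf (nat_lit 0x753000ea6000000000000000000)) (.leaf (nat_lit 0x753000ea6000526400000000000)))) 
(.node (.node (.node (.leaf (nat_lit 0xea6001d4c000000000000)) 
(.leaf (nat_lit 0x1d4c003a98000000))) (.leaf (nat_lit 0xea6001d4c000aa3800000))) (.node 
(.leaf (nat_lit 0xea6001d4c000000000000)) 
(.leaf (nat_lit 0x869000eb900195f00500200c3ec01b3e800326))))) (.node (.node (.node (.node 
(.leaf (nat_lit 0xea6001d4c000a02800000)) (.leaf (nat_lit 0x1d4c003a98000000))) 
(.leaf (nat_lit 0x231a0021c6006aa00183c800095000696006c7c00de200215c00470e0027dc00ea6002252))) 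
(.node (.leaf (nat_lit 0xea6001d4c000000000000)) (.leaf (nat_lit 0xea6001d4c000b13800000)))) (.node 
(.node (.leaf (nat_lit 0x753000ea600044c400000000000)) (.leaf (nat_lit 0xea6001d4c000000000000))) 
(.node (.leaf (nat_lit 0xea6001d4c000285800000)) (.leaf (nat_lit 0x1d4c003a980025b3))))))
noncomputable def pt82 : Ix (Nat) := (.node (.node (.node (.node (.node 
(.leaf (nat_lit 0x9248014f3002e3a002f080070080103a00000000692000fab00000000053600626400509800e54)) 
(.leaf (nat_lit 0x1d4c003a98002cf2))) (.leaf (nat_lit 0xea6001d4c000000000000))) (.node 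
(.leaf (nat_lit 0x3a9800753000000000000000000000000)) 
(.leaf (nat_lit 0x3a98007530002ebe00000000000000000)))) (.node (.node (.node 
(.leaf (nat_lit 0xea6001d4c000000000000)) (.leaf (nat_lit 0x1d4c003a98000000))) 
(.leaf (nat_lit 0xea6001d4c000bed000000))) (.node (.leaf (nat_lit 0xea6001d4c000000000000)) 
(.leaf (nat_lit 0x22fd00401c008418012a800291d00760e000828019d0002a65))))) (.node (.node (.node 
(.node (.leaf (nat_lit 0xea6001d4c000a20000000)) (.leaf (nat_lit 0x1d4c003a98000000))) 
(.leaf (nat_lit 0x129f8018500039d200b820013b9802c800005b0007d4c0113b00000700299800740c010b8002580))) 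
(.node (.leaf (nat_lit 0xea6001d4c000000000000)) (.leaf (nat_lit 0xea6001d4c000c4f80016c)))) (.node 
(.node (.leaf (nat_lit 0x3a980075300027a200000000000000000)) 
(.leaf (nat_lit 0xea6001d4c000000000000))) (.node (.leaf (nat_lit 0xea6001d4c000521000000)) 
(.leaf (nat_lit 0x1d4c003a980029d0))))))
noncomputable def pt83 : Ix (Nat) := (.node (.node (.node (.node (.node 
(.leaf (nat_lit 0x2670004586008d8401431800f2b004fa40054f001afc001fda)) 
(.leaf (nat_lit 0x753000ea600043ac00000000000))) 
(.leaf (nat_lit 0x3a980075300021d600000000000000000))) (.node (.node 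
(.leaf (nat_lit 0x1d4c003a98000000)) (.leaf (nat_lit 0xea6001d4c000000000000))) 
(.leaf (nat_lit 0xea6001d4c000000000000)))) (.node (.node (.node 
(.leaf (nat_lit 0x1d4c003a98000000)) (.leaf (nat_lit 0xea6001d4c000000000000))) 
(.leaf (nat_lit 0xea6001d4c000000000000))) (.node (.leaf (nat_lit 0xea6001d4c000b80800000)) 
(.leaf (nat_lit 0xea6001d4c000b80800000))))) (.node (.node (.node (.node 
(.leaf (nat_lit 0x1d4c003a98000000)) (.leaf (nat_lit 0x753000ea6000000000000000000))) 
(.leaf (nat_lit 0x3a9800753000000000000000000000000))) (.node 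
(.leaf (nat_lit 0x49d400ba4801d250029d600508c00a7a0000000031400072fc00f9700000000278a003ba800cfb801b32)) 
(.leaf (nat_lit 0x49ec00cc7001c0500213e00028c00852801ae80000000083a400e41001ef9)))) (.node (.node 
(.node (.leaf (nat_lit 0x1d4c003a98000000)) (.leaf (nat_lit 0xea6001d4c000596800000))) 
(.leaf (nat_lit 0xea6001d4c0005ef800000))) (.node (.leaf (nat_lit 0xea6001d4c000000000000)) 
(.leaf (nat_lit 0xea6001d4c000000000000))))))
noncomputable def pt84 : Ix (Nat) := (.node (.node (.node (.node (.node 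
(.leaf (nat_lit 0xa09c010dc80242300579000c2300006b802470005d8200cda400ee08026df)) 
(.leaf (nat_lit 0x3a980075300000000000000000000000000000000000000000000000))) 
(.leaf (nat_lit 0x1d4c003a98000000))) (.node (.node (.leaf (nat_lit 0x1d4c003a98000000)) 
(.leaf (nat_lit 0x753000ea6000000000000000000))) (.leaf (nat_lit 0x1d4c003a98000000)))) (.node 
(.node (.node (.leaf (nat_lit 0x1d4c003a98000000)) 
(.leaf (nat_lit 0x1d4c003a9800000000000000000000000000000))) (.leaf (nat_lit 0x1d4c003a98000000))) 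
(.node (.leaf (nat_lit 0x1d4c003a98002060)) 
(.leaf (nat_lit 0x3a980075300049a000bfa401a14800b0b))))) (.node (.node (.node (.node 
(.leaf (nat_lit 0x1d4c003a98000000)) (.leaf (nat_lit 0x1d4c003a9800000000000000000000000000000))) 
(.leaf (nat_lit 0x1d4c003a98000000))) (.node 
(.leaf (nat_lit 0x51dc00b758013be00328600039c0077600007e00000000000000c65001a31)) 
(.leaf (nat_lit 0x14a1002cec005e34007d4001c17002eb6007c2c005f8000000002fc40000000000000031500356e008f3000ee58008f7002c8e00000000dbf80163b)))) 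
(.node (.node (.node (.leaf (nat_lit 0x1d4c003a98000000)) 
(.leaf (nat_lit 0x753000ea60006cc000000000000))) (.leaf (nat_lit 0x1d4c003a98001542))) (.node 
(.leaf (nat_lit 0x1d4c003a98000000)) 
(.leaf (nat_lit 0x3a9800753000279c00000000000000000000000002aa00008c00092f))))))
noncomputable def pt85 : Ix (Nat) := (.node (.node (.node (.node (.node 
(.leaf (nat_lit 0x26d000468c008d98014f7800055005ca600847c01ae8003041)) 
(.leaf (nat_lit 0x753000ea6000000000000000000))) 
(.leaf (nat_lit 0x3a9800753000000000000000000000000))) (.node (.node 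
(.leaf (nat_lit 0x1d4c003a98000000)) (.leaf (nat_lit 0xea6001d4c000000000000))) 
(.leaf (nat_lit 0xea6001d4c000000000000)))) (.node (.node (.node 
(.leaf (nat_lit 0x1d4c003a98000000)) (.leaf (nat_lit 0xea6001d4c000000000000))) 
(.leaf (nat_lit 0xea6001d4c000000000000))) (.node (.leaf (nat_lit 0xea6001d4c00120800188f)) 
(.leaf (nat_lit 0xea6001d4c001208002242))))) (.node (.node (.node (.node 
(.leaf (nat_lit 0x1d4c003a98000000)) (.leaf (nat_lit 0xea6001d4c000000000000))) 
(.leaf (nat_lit 0xea6001d4c000000000000))) (.node 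
(.leaf (nat_lit 0x4ab400b7700173b002824006d940091d001991003466006bb00107c000000000000003a6c0046e000000)) 
(.leaf (nat_lit 0x4ec4009c58018b400368e00000000e0e001ba80036d2007ca000000000f6d)))) (.node (.node 
(.node (.leaf (nat_lit 0x1d4c003a98000000)) (.leaf (nat_lit 0xea6001d4c000d2a000329))) 
(.leaf (nat_lit 0xea6001d4c000d12000000))) (.node 
(.leaf (nat_lit 0x3a980075300025aa00000000000000000)) 
(.leaf (nat_lit 0x753000ea60004d3800000000000))))))
noncomputable def pt86 : Ix (Nat) := (.node (.node (.node (.node (.node 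
(.leaf (nat_lit 0xdd8002228003b7401256000c36004630004f54013a98014f5004a240059f800a51801db6004882006904010588019de002bb40077740105d0019dc00296e0017cc005df000000000000003d04006ac000000001580000780002338000000000000000000076100185c0029de004f0c00350801298004de0009b1800ad68025fe001f400059c800000001616000000003f8c0089380000000162c008f7800fee0021e9004c8a007fa0006d30011660024b200000000000001199001d4c009fe801199802584003982005a9800000001154)) 
(.leaf (nat_lit 0xea6001d4c00000000000000000000000000000000000))) 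
(.leaf (nat_lit 0x3a9800753000000000000000000000000))) (.node 
(.leaf (nat_lit 0x3a9800753000000000000000000000000)) 
(.leaf (nat_lit 0x1d4c003a98000f1400078a0002cc00000000000000000000000000000000000027fa0048f00088800000000000000000000000000000)))) 
(.node (.node (.node (.leaf (nat_lit 0x3a9800753000000000000000000000000)) 
(.leaf (nat_lit 0xea6001d4c0016ff002b6d003efe006fc801343002a98))) 
(.leaf (nat_lit 0x1d4c003a980011ba000000001750000000000000000000000000000000068b00000000000000000000000))) 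
(.node (.leaf (nat_lit 0x3a9800753000000000000000000000000)) 
(.leaf (nat_lit 0x82c000d62001ce5004cfe0098a000ffd002862004c8c00a270012ff00344f00677200000000c870033fb003af600c4c8018f180367f00653000c4cc00ee280166c001c5a0071f001a9d8033d3005a3000dca4017b7003050005a8400c4f401364002d860065d200b534011aa80201a003b940076a401a1f00332e006cb600cbd8019a3803458006f0a00d51401a7780360b00410600aa540172f8020da002f900053140124c001fda0032240088d00104c001099000b300099c800f6400272f003fcc009d9000000000000004e02009a440109d00231f))))) 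
(.node (.node (.node (.node (.leaf (nat_lit 0x3a9800753000222600000000000000000)) 
(.leaf (nat_lit 0x753000ea60009df401149001163004b66009298010ca000f4b))) 
(.leaf (nat_lit 0x465a004d6c0094500306f005cb8007bd401249002ef0005b2600c0a401428003082005ed200c1d000e8e803044003ed400bd54009720032cc0053d600bc2c015b100252400550600a664011bd8026f1003a0e00871c00c91801e7f0052ec00bd04017c3002a6000604e00bf740197a802fac0059a400a4b0013bb002a2f005c9800abfc015808025080035180084e8010e180232e00452c004c4400a78801f05003d2e0084a8011490022df0045a00053f400e34802405003ee6005f1c00201801ed600444c0086a80082200208e0044180073ec00e98801f11003f74007d10011b5002425003d8200800401243001fdd00213c00820c013ae80257e002c5600669800000001adf0000c000438801002000000003916009df400f77002f180045a60054b00164780267a005b7600a5d0012f88029a2004ed4000240012b4002415004f0e00000000fb8801a19))) 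
(.node (.leaf (nat_lit 0x3a9800753000000000000000000000000)) 
(.leaf (nat_lit 0x1d4c003a9800136a005c58000000011b480000000369e00942000d58802424)))) (.node (.node 
(.leaf (nat_lit 0x3a980075300000c200000000000000000)) 
(.leaf (nat_lit 0x1d4c003a98000000000000000000000000000000000000000000000000000000000000000000000000000))) 
(.node (.leaf (nat_lit 0x3a9800753000000000000000000000000)) 
(.leaf (nat_lit 0x1d4c003a980000000000000000000000000000000000000000000000000000))))))
noncomputable def pt87 : Ix (Nat) := (.node (.node (.node (.node (.node (.node 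
(.leaf (nat_lit 0x218100219200000000fa2000000003bd200000000f6d802108)) 
(.leaf (nat_lit 0xea6001d4c000000000000))) (.leaf (nat_lit 0x753000ea6000a3bc000000028a5))) (.node 
(.leaf (nat_lit 0x1d4c003a980001ab)) (.leaf (nat_lit 0xea6001d4c000bb9800de0)))) (.node (.node 
(.leaf (nat_lit 0x1d4c003a980016c5)) (.leaf (nat_lit 0xea6001d4c000000000000))) (.node 
(.leaf (nat_lit 0x1d4c003a98000000)) (.leaf (nat_lit 0x3a9800000000000000000000000000000))))) 
(.node (.node (.node (.node (.leaf (nat_lit 0x1d4c003a98000000)) 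
(.leaf (nat_lit 0x753000ea6000000000000000000))) (.leaf (nat_lit 0x753000ea6000000000000000000))) 
(.node (.leaf (nat_lit 0xea6000000000000000000)) (.leaf (nat_lit 0xea6001d4c0002b7800000)))) (.node 
(.node (.leaf (nat_lit 0x1d4c003a980005cd)) (.leaf (nat_lit 0xea6001d4c000a950009e3))) (.node 
(.leaf (nat_lit 0x1d4c003a98000000)) (.leaf (nat_lit 0x3a9800753000000000000000000000000)))))) 
(.node (.node (.node (.node (.node (.leaf (nat_lit 0x1d4c003a98000000)) 
(.leaf (nat_lit 0x753000ea6000000000000000000))) (.leaf (nat_lit 0x753000ea6000000000000000000))) 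
(.node (.leaf (nat_lit 0x0)) (.leaf (nat_lit 0xea6001d4c000000000000)))) (.node (.node 
(.leaf (nat_lit 0x1d4c003a98001490)) (.leaf (nat_lit 0xea6001d4c001b8b802214))) (.node 
(.leaf (nat_lit 0x1d4c003a98000000)) (.leaf (nat_lit 0x3a9800000000000000000000000000000))))) 
(.node (.node (.node (.node (.leaf (nat_lit 0x1d4c003a98000000)) 
(.leaf (nat_lit 0xea6001d4c000000000000))) (.leaf (nat_lit 0x753000ea60006e3c003eb000720))) (.node 
(.leaf (nat_lit 0x1d4c003a98000000)) (.leaf (nat_lit 0x0)))) (.node (.node 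
(.leaf (nat_lit 0x1d4c003a98000000)) (.leaf (nat_lit 0xea6001d4c000c1d001ddf))) (.node 
(.leaf (nat_lit 0x89b00084b000d38003b3e00077000b5f8020ec0000000072d400b6b800000)) 
(.leaf (nat_lit 0xea6001d4c000000000000)))))))
noncomputable def pt88 : Ix (Nat) := (.node (.node (.node (.node (.node 
(.leaf (nat_lit 0x85d4005dd000000002ecc004f3800000000000000db60060d80077b801f84)) 
(.leaf (nat_lit 0x1d4c003a98000000))) (.node (.leaf (nat_lit 0x1d4c003a98001030)) 
(.leaf (nat_lit 0x3a980075300003c8000000000000000000000000009e800000000516)))) (.node (.node 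
(.leaf (nat_lit 0x1d4c003a98000000)) 
(.leaf (nat_lit 0x1e8600447000a01800d01802c740023aa0062ec00ade00216b003c68007fa40000f8000000035e600ae30011d700000000270200b2b800eca801f3d))) 
(.node (.leaf (nat_lit 0x1d4c000000000000)) (.leaf (nat_lit 0x753000ea600026fc00000000000))))) 
(.node (.node (.node (.leaf (nat_lit 0x1d4c003a98000000)) (.leaf (nat_lit 0x1d4c003a98000000))) 
(.node (.leaf (nat_lit 0x1d4c003a98000000)) (.leaf (nat_lit 0x753000ea60008410018a7800000)))) 
(.node (.node (.leaf (nat_lit 0x1d4c003a98000d81)) 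
(.leaf (nat_lit 0x3a980075300000000000000000000000000000000000000000000000))) 
(.leaf (nat_lit 0x1d4c003a98000000))))) (.node (.node (.node (.node 
(.leaf (nat_lit 0x1d4c003a98000000)) (.leaf (nat_lit 0x1d4c003a98000000))) (.node 
(.leaf (nat_lit 0x1d4c003a98000000)) (.leaf (nat_lit 0x1d4c003a9800000000000000000000000000000)))) 
(.node (.node (.leaf (nat_lit 0x1d4c003a98000000)) 
(.leaf (nat_lit 0x3a980075300033060000000000000000000000000000000000001a86))) (.node 
(.leaf (nat_lit 0x1d4c000000000000)) (.leaf (nat_lit 0x753000ea600058a000a9c000000))))) (.node 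
(.node (.node (.leaf (nat_lit 0x1d4c003a98000000)) (.leaf (nat_lit 0x1d4c003a980010a5))) (.node 
(.leaf (nat_lit 0x0)) (.leaf (nat_lit 0x753000ea60005b4400336800000)))) (.node (.node 
(.leaf (nat_lit 0x1d4c003a98000f1c)) (.leaf (nat_lit 0x1d4c003a9800000000000000000000000000000))) 
(.leaf (nat_lit 0x1d4c003a98000000))))))
noncomputable def pt89 : Ix (Nat) := (.node (.node (.node (.node (.node 
(.leaf (nat_lit 0x223900232000000000ecf000c7a0037260000000075b801f8a)) 
(.leaf (nat_lit 0x1d4c003a98000000))) (.node (.leaf (nat_lit 0x1d4c003a98001247)) 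
(.leaf (nat_lit 0x753000ea6000042400000000000)))) (.node (.node 
(.leaf (nat_lit 0x1d4c003a98000000)) 
(.leaf (nat_lit 0x807000f84802b32005eee00457c0160d80185c0000000056bc0103f000526))) (.node 
(.leaf (nat_lit 0xea6000000000000000000)) (.leaf (nat_lit 0xea6001d4c000486000000))))) (.node 
(.node (.node (.leaf (nat_lit 0x1d4c003a98000000)) (.leaf (nat_lit 0x1d4c003a98000000))) (.node 
(.leaf (nat_lit 0x1d4c003a98000000)) (.leaf (nat_lit 0xea6001d4c001000801205)))) (.node (.node 
(.leaf (nat_lit 0x1d4c003a98001180)) (.leaf (nat_lit 0x753000ea6000000000000000000))) 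
(.leaf (nat_lit 0x1d4c003a98000000))))) (.node (.node (.node (.node 
(.leaf (nat_lit 0x1d4c003a98000000)) (.leaf (nat_lit 0x1d4c003a98000000))) (.node 
(.leaf (nat_lit 0x1d4c003a98000000)) (.leaf (nat_lit 0xea6001d4c000000000000)))) (.node (.node 
(.leaf (nat_lit 0x1d4c003a98000000)) (.leaf (nat_lit 0x753000ea60004c38000000009b0))) (.node 
(.leaf (nat_lit 0xea6000000000000000000)) (.leaf (nat_lit 0xea6001d4c000b5c000847))))) (.node 
(.node (.node (.leaf (nat_lit 0x1d4c003a98000000)) (.leaf (nat_lit 0x1d4c003a98000d28))) (.node 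
(.leaf (nat_lit 0x0)) (.leaf (nat_lit 0xea6001d4c000bfd80036a)))) (.node (.node 
(.leaf (nat_lit 0x1d4c003a98001060)) (.leaf (nat_lit 0x753000ea6000000000000000000))) 
(.leaf (nat_lit 0x1d4c003a98000000))))))
noncomputable def pt90 : Ix (Nat) := (.node (.node (.node (.node (.leaf (nat_lit 0x0)) 
(.leaf (nat_lit 0xea6001d4c000000000000))) (.node (.leaf (nat_lit 0xea6001d4c000349800000)) 
(.leaf (nat_lit 0xea6001d4c0012be800000)))) (.node (.node (.leaf (nat_lit 0xea6001d4c00091f000000)) 
(.leaf (nat_lit 0xea6001d4c000000000000))) (.node (.leaf (nat_lit 0xea6001d4c000000000000)) 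
(.leaf (nat_lit 0xea6001d4c0001dd000000))))) (.node (.node (.node 
(.leaf (nat_lit 0xea6001d4c0018ab0006ce)) (.leaf (nat_lit 0x1d4c003a98000000))) (.node 
(.leaf (nat_lit 0xea6001d4c000000000000)) (.leaf (nat_lit 0xea6001d4c000844800000)))) (.node (.node 
(.leaf (nat_lit 0xea6001d4c0001c1000000)) 
(.leaf (nat_lit 0xc00401927002d450060fc0095a40187e802ba1005b34009f80015a6800cad0001bc00762800347002260))) 
(.node (.leaf (nat_lit 0x3a9800753000000000000000000000000)) 
(.leaf (nat_lit 0xea6001d4c000365000000))))))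
noncomputable def pt91 : Ix (Nat) := (.node (.node (.node (.node (.node 
(.leaf (nat_lit 0x500c00a8d8018040016860059740096c80178f0034e2006e1400fef8000000000000061d000a27801331)) 
(.leaf (nat_lit 0x1d4c003a98003342))) (.leaf (nat_lit 0xea6001d4c000000000000))) (.node 
(.leaf (nat_lit 0x3a9800753000000000000000000000000)) 
(.leaf (nat_lit 0x3a98007530002c4000000000000000000)))) (.node (.node (.node 
(.leaf (nat_lit 0xea6001d4c000000000000)) (.leaf (nat_lit 0x1d4c003a98000000))) 
(.leaf (nat_lit 0xea6001d4c000bab800000))) (.node (.leaf (nat_lit 0xea6001d4c000000000000)) 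
(.leaf (nat_lit 0x26550044600088b401a9f8008da004ece00a22001a608020c3))))) (.node (.node (.node 
(.node (.leaf (nat_lit 0xea6001d4c000b45000000)) (.leaf (nat_lit 0x1d4c003a98000000))) 
(.leaf (nat_lit 0xa3e000af3801ed0005c14009a840148380194a0043f8001bc8011690004530043fc007ad8011c88021b5))) 
(.node (.leaf (nat_lit 0xea6001d4c000000000000)) (.leaf (nat_lit 0xea6001d4c000c51800fc3)))) (.node 
(.node (.leaf (nat_lit 0x3a9800753000247800000000000000000)) 
(.leaf (nat_lit 0xea6001d4c000000000000))) (.node (.leaf (nat_lit 0xea6001d4c000640000000)) 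
(.leaf (nat_lit 0x1d4c003a98002fad))))))
noncomputable def pt92 : Ix (Nat) := (.node (.node (.node (.node (.node 
(.leaf (nat_lit 0x2670004586008d8401431800f2b004fa40054f001afc001fda)) 
(.leaf (nat_lit 0x753000ea600043ac00000000000))) 
(.leaf (nat_lit 0x3a980075300021d600000000000000000))) (.node (.node 
(.leaf (nat_lit 0x1d4c003a98000000)) (.leaf (nat_lit 0xea6001d4c000000000000))) 
(.leaf (nat_lit 0xea6001d4c000000000000)))) (.node (.node (.node 
(.leaf (nat_lit 0x1d4c003a98000000)) (.leaf (nat_lit 0xea6001d4c000000000000))) 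
(.leaf (nat_lit 0xea6001d4c000000000000))) (.node (.leaf (nat_lit 0xea6001d4c000b80800000)) 
(.leaf (nat_lit 0xea6001d4c000b80800000))))) (.node (.node (.node (.node 
(.leaf (nat_lit 0x1d4c003a98000000)) (.leaf (nat_lit 0x753000ea6000000000000000000))) 
(.leaf (nat_lit 0x3a9800753000000000000000000000000))) (.node 
(.leaf (nat_lit 0x49d400ba4801d250029d600508c00a7a0000000031400072fc00f9700000000278a003ba800cfb801b32)) 
(.leaf (nat_lit 0x49ec00cc7001c0500213e00028c00852801ae80000000083a400e41001ef9)))) (.node (.node 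
(.node (.leaf (nat_lit 0x1d4c003a98000000)) (.leaf (nat_lit 0xea6001d4c000596800000))) 
(.leaf (nat_lit 0xea6001d4c0005ef800000))) (.node (.leaf (nat_lit 0xea6001d4c000000000000)) 
(.leaf (nat_lit 0xea6001d4c000000000000))))))
noncomputable def pt93 : Ix (Nat) := (.node (.node (.node (.node (.node 
(.leaf (nat_lit 0xa09c010dc80242300579000c2300006b802470005d8200cda400ee08026df)) 
(.leaf (nat_lit 0x3a980075300000000000000000000000000000000000000000000000))) 
(.leaf (nat_lit 0x1d4c003a98000000))) (.node (.node (.leaf (nat_lit 0x1d4c003a98000000)) 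
(.leaf (nat_lit 0x753000ea6000000000000000000))) (.leaf (nat_lit 0x1d4c003a98000000)))) (.node 
(.node (.node (.leaf (nat_lit 0x1d4c003a98000000)) 
(.leaf (nat_lit 0x1d4c003a9800000000000000000000000000000))) (.leaf (nat_lit 0x1d4c003a98000000))) 
(.node (.leaf (nat_lit 0x1d4c003a98002060)) 
(.leaf (nat_lit 0x3a980075300049a000bfa401a14800b0b))))) (.node (.node (.node (.node 
(.leaf (nat_lit 0x1d4c003a98000000)) (.leaf (nat_lit 0x1d4c003a9800000000000000000000000000000))) 
(.leaf (nat_lit 0x1d4c003a98000000))) (.node 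
(.leaf (nat_lit 0x51dc00b758013be00328600039c0077600007e00000000000000c65001a31)) 
(.leaf (nat_lit 0x14a1002cec005e34007d4001c17002eb6007c2c005f8000000002fc40000000000000031500356e008f3000ee58008f7002c8e00000000dbf80163b)))) 
(.node (.node (.node (.leaf (nat_lit 0x1d4c003a98000000)) 
(.leaf (nat_lit 0x753000ea60006cc000000000000))) (.leaf (nat_lit 0x1d4c003a98001542))) (.node 
(.leaf (nat_lit 0x1d4c003a98000000)) 
(.leaf (nat_lit 0x3a9800753000279c00000000000000000000000002aa00008c00092f))))))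
noncomputable def pt94 : Ix (Nat) := (.node (.node (.node (.node (.node 
(.leaf (nat_lit 0x26d000468c008d98014f7800055005ca600847c01ae8003041)) 
(.leaf (nat_lit 0x753000ea6000000000000000000))) 
(.leaf (nat_lit 0x3a9800753000000000000000000000000))) (.node (.node 
(.leaf (nat_lit 0x1d4c003a98000000)) (.leaf (nat_lit 0xea6001d4c000000000000))) 
(.leaf (nat_lit 0xea6001d4c000000000000)))) (.node (.node (.node 
(.leaf (nat_lit 0x1d4c003a98000000)) (.leaf (nat_lit 0xea6001d4c000000000000))) 
(.leaf (nat_lit 0xea6001d4c000000000000))) (.node (.leaf (nat_lit 0xea6001d4c00120800188f)) 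
(.leaf (nat_lit 0xea6001d4c001208002242))))) (.node (.node (.node (.node 
(.leaf (nat_lit 0x1d4c003a98000000)) (.leaf (nat_lit 0xea6001d4c000000000000))) 
(.leaf (nat_lit 0xea6001d4c000000000000))) (.node 
(.leaf (nat_lit 0x4ab400b7700173b002824006d940091d001991003466006bb00107c000000000000003a6c0046e000000)) 
(.leaf (nat_lit 0x4ec4009c58018b400368e00000000e0e001ba80036d2007ca000000000f6d)))) (.node (.node 
(.node (.leaf (nat_lit 0x1d4c003a98000000)) (.leaf (nat_lit 0xea6001d4c000d2a000329))) 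
(.leaf (nat_lit 0xea6001d4c000d12000000))) (.node 
(.leaf (nat_lit 0x3a980075300025aa00000000000000000)) 
(.leaf (nat_lit 0x753000ea60004d3800000000000))))))
noncomputable def pt95 : Ix (Nat) := (.node (.node (.node (.node (.node 
(.leaf (nat_lit 0xdd8002228003b7401256000c36004630004f54013a98014f5004a240059f800a51801db6004882006904010588019de002bb40077740105d0019dc00296e0017cc005df000000000000003d04006ac000000001580000780002338000000000000000000076100185c0029de004f0c00350801298004de0009b1800ad68025fe001f400059c800000001616000000003f8c0089380000000162c008f7800fee0021e9004c8a007fa0006d30011660024b200000000000001199001d4c009fe801199802584003982005a9800000001154)) 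
(.leaf (nat_lit 0xea6001d4c0016ff002b6d003efe006fc801343002a98))) 
(.leaf (nat_lit 0x3a9800753000000000000000000000000))) (.node 
(.leaf (nat_lit 0x3a9800753000000000000000000000000)) 
(.leaf (nat_lit 0x1d4c003a98000f1400078a0002cc00000000000000000000000000000000000027fa0048f00088800000000000000000000000000000)))) 
(.node (.node (.node (.leaf (nat_lit 0x3a9800753000000000000000000000000)) 
(.leaf (nat_lit 0xea6001d4c00000000000000000000000000000000000))) 
(.leaf (nat_lit 0x1d4c003a980011ba000000001750000000000000000000000000000000068b00000000000000000000000))) 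
(.node (.leaf (nat_lit 0x3a9800753000000000000000000000000)) 
(.leaf (nat_lit 0x82c000d62001ce5004cfe0098a000ffd002862004c8c00a270012ff00344f00677200000000c870033fb003af600c4c8018f180367f00653000c4cc00ee280166c001c5a0071f001a9d8033d3005a3000dca4017b7003050005a8400c4f401364002d860065d200b534011aa80201a003b940076a401a1f00332e006cb600cbd8019a3803458006f0a00d51401a7780360b00410600aa540172f8020da002f900053140124c001fda0032240088d00104c001099000b300099c800f6400272f003fcc009d9000000000000004e02009a440109d00231f))))) 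
(.node (.node (.node (.node (.leaf (nat_lit 0x3a9800753000222600000000000000000)) 
(.leaf (nat_lit 0x1d4c003a980000000000000000000000000000000000000000000000000000))) 
(.leaf (nat_lit 0x465a004d6c0094500306f005cb8007bd401249002ef0005b2600c0a401428003082005ed200c1d000e8e803044003ed400bd54009720032cc0053d600bc2c015b100252400550600a664011bd8026f1003a0e00871c00c91801e7f0052ec00bd04017c3002a6000604e00bf740197a802fac0059a400a4b0013bb002a2f005c9800abfc015808025080035180084e8010e180232e00452c004c4400a78801f05003d2e0084a8011490022df0045a00053f400e34802405003ee6005f1c00201801ed600444c0086a80082200208e0044180073ec00e98801f11003f74007d10011b5002425003d8200800401243001fdd00213c00820c013ae80257e002c5600669800000001adf0000c000438801002000000003916009df400f77002f180045a60054b00164780267a005b7600a5d0012f88029a2004ed4000240012b4002415004f0e00000000fb8801a19))) 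
(.node (.leaf (nat_lit 0x3a9800753000000000000000000000000)) 
(.leaf (nat_lit 0x1d4c003a9800136a005c58000000011b480000000369e00942000d58802424)))) (.node (.node 
(.leaf (nat_lit 0x3a980075300000c200000000000000000)) 
(.leaf (nat_lit 0x1d4c003a98000000000000000000000000000000000000000000000000000000000000000000000000000))) 
(.node (.leaf (nat_lit 0x3a9800753000000000000000000000000)) 
(.leaf (nat_lit 0x753000ea60009df401149001163004b66009298010ca000f4b))))))
noncomputable def pt96 : Ix (Nat) := (.node (.node (.node (.node (.node (.node 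
(.leaf (nat_lit 0x218100219200000000fa2000000003bd200000000f6d802108)) 
(.leaf (nat_lit 0xea6001d4c000000000000))) (.leaf (nat_lit 0x753000ea6000a3bc000000028a5))) (.node 
(.leaf (nat_lit 0x1d4c003a980001ab)) (.leaf (nat_lit 0xea6001d4c000bb9800de0)))) (.node (.node 
(.leaf (nat_lit 0x1d4c003a980016c5)) (.leaf (nat_lit 0xea6001d4c000000000000))) (.node 
(.leaf (nat_lit 0x1d4c003a98000000)) (.leaf (nat_lit 0x3a9800000000000000000000000000000))))) 
(.node (.node (.node (.node (.leaf (nat_lit 0x1d4c003a98000000)) 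
(.leaf (nat_lit 0x753000ea6000000000000000000))) (.leaf (nat_lit 0x753000ea6000000000000000000))) 
(.node (.leaf (nat_lit 0xea6000000000000000000)) (.leaf (nat_lit 0xea6001d4c0002b7800000)))) (.node 
(.node (.leaf (nat_lit 0x1d4c003a980005cd)) (.leaf (nat_lit 0xea6001d4c000a950009e3))) (.node 
(.leaf (nat_lit 0x1d4c003a98000000)) (.leaf (nat_lit 0x3a9800753000000000000000000000000)))))) 
(.node (.node (.node (.node (.node (.leaf (nat_lit 0x1d4c003a98000000)) 
(.leaf (nat_lit 0x753000ea6000000000000000000))) (.leaf (nat_lit 0x753000ea6000000000000000000))) 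
(.node (.leaf (nat_lit 0x0)) (.leaf (nat_lit 0xea6001d4c000000000000)))) (.node (.node 
(.leaf (nat_lit 0x1d4c003a98001490)) (.leaf (nat_lit 0xea6001d4c001b8b802214))) (.node 
(.leaf (nat_lit 0x1d4c003a98000000)) (.leaf (nat_lit 0x3a9800000000000000000000000000000))))) 
(.node (.node (.node (.node (.leaf (nat_lit 0x1d4c003a98000000)) 
(.leaf (nat_lit 0xea6001d4c000000000000))) (.leaf (nat_lit 0x753000ea60006e3c003eb000720))) (.node 
(.leaf (nat_lit 0x1d4c003a98000000)) (.leaf (nat_lit 0x0)))) (.node (.node 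
(.leaf (nat_lit 0x1d4c003a98000000)) (.leaf (nat_lit 0xea6001d4c000c1d001ddf))) (.node 
(.leaf (nat_lit 0x89b00084b000d38003b3e00077000b5f8020ec0000000072d400b6b800000)) 
(.leaf (nat_lit 0xea6001d4c000000000000)))))))
noncomputable def pt97 : Ix (Nat) := (.node (.node (.node (.node (.node 
(.leaf (nat_lit 0x85d4005dd000000002ecc004f3800000000000000db60060d80077b801f84)) 
(.leaf (nat_lit 0x1d4c003a98000000))) (.node (.leaf (nat_lit 0x1d4c003a98001030)) 
(.leaf (nat_lit 0x3a980075300003c8000000000000000000000000009e800000000516)))) (.node (.node 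
(.leaf (nat_lit 0x1d4c003a98000000)) 
(.leaf (nat_lit 0x1e8600447000a01800d01802c740023aa0062ec00ade00216b003c68007fa40000f8000000035e600ae30011d700000000270200b2b800eca801f3d))) 
(.node (.leaf (nat_lit 0x1d4c000000000000)) (.leaf (nat_lit 0x753000ea600026fc00000000000))))) 
(.node (.node (.node (.leaf (nat_lit 0x1d4c003a98000000)) (.leaf (nat_lit 0x1d4c003a98000000))) 
(.node (.leaf (nat_lit 0x1d4c003a98000000)) (.leaf (nat_lit 0x753000ea60008410018a7800000)))) 
(.node (.node (.leaf (nat_lit 0x1d4c003a98000d81)) 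
(.leaf (nat_lit 0x3a980075300000000000000000000000000000000000000000000000))) 
(.leaf (nat_lit 0x1d4c003a98000000))))) (.node (.node (.node (.node 
(.leaf (nat_lit 0x1d4c003a98000000)) (.leaf (nat_lit 0x1d4c003a98000000))) (.node 
(.leaf (nat_lit 0x1d4c003a98000000)) (.leaf (nat_lit 0x1d4c003a9800000000000000000000000000000)))) 
(.node (.node (.leaf (nat_lit 0x1d4c003a98000000)) 
(.leaf (nat_lit 0x3a980075300033060000000000000000000000000000000000001a86))) (.node 
(.leaf (nat_lit 0x1d4c000000000000)) (.leaf (nat_lit 0x753000ea600058a000a9c000000))))) (.node 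
(.node (.node (.leaf (nat_lit 0x1d4c003a98000000)) (.leaf (nat_lit 0x1d4c003a980010a5))) (.node 
(.leaf (nat_lit 0x0)) (.leaf (nat_lit 0x753000ea60005b4400336800000)))) (.node (.node 
(.leaf (nat_lit 0x1d4c003a98000f1c)) (.leaf (nat_lit 0x1d4c003a9800000000000000000000000000000))) 
(.leaf (nat_lit 0x1d4c003a98000000))))))
noncomputable def pt98 : Ix (Nat) := (.node (.node (.node (.node (.node 
(.leaf (nat_lit 0x223900232000000000ecf000c7a0037260000000075b801f8a)) 
(.leaf (nat_lit 0x1d4c003a98000000))) (.node (.leaf (nat_lit 0x1d4c003a98001247)) 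
(.leaf (nat_lit 0x753000ea6000042400000000000)))) (.node (.node 
(.leaf (nat_lit 0x1d4c003a98000000)) 
(.leaf (nat_lit 0x807000f84802b32005eee00457c0160d80185c0000000056bc0103f000526))) (.node 
(.leaf (nat_lit 0xea6000000000000000000)) (.leaf (nat_lit 0xea6001d4c000486000000))))) (.node 
(.node (.node (.leaf (nat_lit 0x1d4c003a98000000)) (.leaf (nat_lit 0x1d4c003a98000000))) (.node 
(.leaf (nat_lit 0x1d4c003a98000000)) (.leaf (nat_lit 0xea6001d4c001000801205)))) (.node (.node 
(.leaf (nat_lit 0x1d4c003a98001180)) (.leaf (nat_lit 0x753000ea6000000000000000000))) 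
(.leaf (nat_lit 0x1d4c003a98000000))))) (.node (.node (.node (.node 
(.leaf (nat_lit 0x1d4c003a98000000)) (.leaf (nat_lit 0x1d4c003a98000000))) (.node 
(.leaf (nat_lit 0x1d4c003a98000000)) (.leaf (nat_lit 0xea6001d4c000000000000)))) (.node (.node 
(.leaf (nat_lit 0x1d4c003a98000000)) (.leaf (nat_lit 0x753000ea60004c38000000009b0))) (.node 
(.leaf (nat_lit 0xea6000000000000000000)) (.leaf (nat_lit 0xea6001d4c000b5c000847))))) (.node 
(.node (.node (.leaf (nat_lit 0x1d4c003a98000000)) (.leaf (nat_lit 0x1d4c003a98000d28))) (.node 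
(.leaf (nat_lit 0x0)) (.leaf (nat_lit 0xea6001d4c000bfd80036a)))) (.node (.node 
(.leaf (nat_lit 0x1d4c003a98001060)) (.leaf (nat_lit 0x753000ea6000000000000000000))) 
(.leaf (nat_lit 0x1d4c003a98000000))))))
noncomputable def pt99 : Ix (Nat) := (.node (.node (.node (.node (.leaf (nat_lit 0x0)) 
(.leaf (nat_lit 0xea6001d4c000000000000))) (.node (.leaf (nat_lit 0xea6001d4c0001c1000000)) 
(.leaf (nat_lit 0xea6001d4c0012be800000)))) (.node (.node (.leaf (nat_lit 0xea6001d4c00091f000000)) 
(.leaf (nat_lit 0xea6001d4c000000000000))) (.node (.leaf (nat_lit 0xea6001d4c000000000000)) 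
(.leaf (nat_lit 0xea6001d4c000365000000))))) (.node (.node (.node 
(.leaf (nat_lit 0xea6001d4c0018ab0006ce)) (.leaf (nat_lit 0x3a9800753000000000000000000000000))) 
(.node (.leaf (nat_lit 0xea6001d4c000000000000)) (.leaf (nat_lit 0xea6001d4c000844800000)))) (.node 
(.node (.leaf (nat_lit 0xea6001d4c000349800000)) 
(.leaf (nat_lit 0xc00401927002d450060fc0095a40187e802ba1005b34009f80015a6800cad0001bc00762800347002260))) 
(.node (.leaf (nat_lit 0x1d4c003a98000000)) (.leaf (nat_lit 0xea6001d4c0001dd000000))))))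
noncomputable def pt100 : Ix (Nat) := (.node (.node (.node (.node (.node 
(.leaf (nat_lit 0x500c00a8d8018040016860059740096c80178f0034e2006e1400fef8000000000000061d000a27801331)) 
(.leaf (nat_lit 0x1d4c003a98000000))) (.leaf (nat_lit 0xea6001d4c000000000000))) (.node 
(.leaf (nat_lit 0x3a9800753000000000000000000000000)) 
(.leaf (nat_lit 0x3a98007530002c4000000000000000000)))) (.node (.node (.node 
(.leaf (nat_lit 0xea6001d4c000000000000)) (.leaf (nat_lit 0x1d4c003a98003342))) 
(.leaf (nat_lit 0xea6001d4c000bab800000))) (.node (.leaf (nat_lit 0xea6001d4c000000000000)) 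
(.leaf (nat_lit 0x26550044600088b401a9f8008da004ece00a22001a608020c3))))) (.node (.node (.node 
(.node (.leaf (nat_lit 0xea6001d4c000b45000000)) (.leaf (nat_lit 0x1d4c003a98002fad))) 
(.leaf (nat_lit 0xa3e000af3801ed0005c14009a840148380194a0043f8001bc8011690004530043fc007ad8011c88021b5))) 
(.node (.leaf (nat_lit 0xea6001d4c000000000000)) (.leaf (nat_lit 0xea6001d4c000c51800fc3)))) (.node 
(.node (.leaf (nat_lit 0x3a9800753000247800000000000000000)) 
(.leaf (nat_lit 0xea6001d4c000000000000))) (.node (.leaf (nat_lit 0xea6001d4c000640000000)) 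
(.leaf (nat_lit 0x1d4c003a98000000))))))

noncomputable def ptx : Ix (Ix (Nat)) := (.node (.node (.node (.node (.node (.node (.node 
(.leaf pt0) (.leaf pt64)) (.node (.leaf pt32) (.leaf pt96))) (.node (.node (.leaf pt16) 
(.leaf pt80)) (.leaf pt48))) (.node (.node (.node (.leaf pt8) (.leaf pt72)) (.leaf pt40)) (.node 
(.node (.leaf pt24) (.leaf pt88)) (.leaf pt56)))) (.node (.node (.node (.node (.leaf pt4) 
(.leaf pt68)) (.node (.leaf pt36) (.leaf pt100))) (.node (.node (.leaf pt20) (.leaf pt84)) 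
(.leaf pt52))) (.node (.node (.node (.leaf pt12) (.leaf pt76)) (.leaf pt44)) (.node (.node 
(.leaf pt28) (.leaf pt92)) (.leaf pt60))))) (.node (.node (.node (.node (.node (.leaf pt2) 
(.leaf pt66)) (.node (.leaf pt34) (.leaf pt98))) (.node (.node (.leaf pt18) (.leaf pt82)) 
(.leaf pt50))) (.node (.node (.node (.leaf pt10) (.leaf pt74)) (.leaf pt42)) (.node (.node 
(.leaf pt26) (.leaf pt90)) (.leaf pt58)))) (.node (.node (.node (.node (.leaf pt6) (.leaf pt70)) 
(.leaf pt38)) (.node (.node (.leaf pt22) (.leaf pt86)) (.leaf pt54))) (.node (.node (.node 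
(.leaf pt14) (.leaf pt78)) (.leaf pt46)) (.node (.node (.leaf pt30) (.leaf pt94)) (.leaf pt62)))))) 
(.node (.node (.node (.node (.node (.node (.leaf pt1) (.leaf pt65)) (.node (.leaf pt33) 
(.leaf pt97))) (.node (.node (.leaf pt17) (.leaf pt81)) (.leaf pt49))) (.node (.node (.node 
(.leaf pt9) (.leaf pt73)) (.leaf pt41)) (.node (.node (.leaf pt25) (.leaf pt89)) (.leaf pt57)))) 
(.node (.node (.node (.node (.leaf pt5) (.leaf pt69)) (.leaf pt37)) (.node (.node (.leaf pt21) 
(.leaf pt85)) (.leaf pt53))) (.node (.node (.node (.leaf pt13) (.leaf pt77)) (.leaf pt45)) (.node 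
(.node (.leaf pt29) (.leaf pt93)) (.leaf pt61))))) (.node (.node (.node (.node (.node (.leaf pt3) 
(.leaf pt67)) (.node (.leaf pt35) (.leaf pt99))) (.node (.node (.leaf pt19) (.leaf pt83)) 
(.leaf pt51))) (.node (.node (.node (.leaf pt11) (.leaf pt75)) (.leaf pt43)) (.node (.node 
(.leaf pt27) (.leaf pt91)) (.leaf pt59)))) (.node (.node (.node (.node (.leaf pt7) (.leaf pt71)) 
(.leaf pt39)) (.node (.node (.leaf pt23) (.leaf pt87)) (.leaf pt55))) (.node (.node (.node 
(.leaf pt15) (.leaf pt79)) (.leaf pt47)) (.node (.node (.leaf pt31) (.leaf pt95)) (.leaf pt63)))))))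

noncomputable def PnT (k o : Nat) : Nat := (Ix.get ptx k).get o

noncomputable def gt0 : Ix (Nat) := (.node (.node (.node (.node (.node (.node (.node (.node (.node 
(.leaf (nat_lit 0x3c71008d1601301401c9a803e2b009be40152c401d68804bda00c2ca0193a4030ad00611900c9c2015a3002b91005be900c13000e85c01c9a803e2b009be40152c401d68804bda00c2b40185940327480611900c9c2016fa402b4600572200c13000e85c01d60005f1600755000f89001d60005f1600755000f890030b800668b00c2e0019a2c030aa806555007436013a6001d0d804e9800c3a000edf001da2805a0600768a01681801d298039fc0073f800e5cc01cdd0049c400b24801208402b26003b9e00915601514002541805166009042015930024e200592400773c0122ac02a28004a8300a2cc00d8a001d0e80362800743a00d7380242480557c0090920155f0026a3805144)) 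
(.leaf (nat_lit 0x27ad004f5a006ea200d19c01c1480536b009ae200eed8024ae805938))) (.node 
(.leaf (nat_lit 0x27ad004f5a00766a0104c801cf380479f0084ac011af8021bc803ab800b2a400f51c01de6004238)) 
(.leaf (nat_lit 0x13d68027ad003a31009006011c0c0194b802b580065ca00f8cc01c7080344e)))) (.node (.node 
(.leaf (nat_lit 0x13d68027ad0041ee005f6a00f9cc019f78040f3)) 
(.leaf (nat_lit 0xf69c01cae003883007a3001061c01ec2004149007bca010e5402821803eb700aa7401433c02977803c5700724a014ea001d398035e40073b60101bc01a3480440a00739800fea401d2700360900734e00fa1801a67803f6100734c00fcec01cae0039ba00705800e20c01c1280384e00704800eb8401de20039a100734e00fd2801ccc803f4900741000eb2801c61003c53007d4a00f99801ea08042ad0072a400dfe401a9c0035b9006d5e00e4d401b2700376e006c4e00cb20019c300342a006cc200d204019e580311f00766e00eec001d99003b6500759000f40801e7a003d4a007b8800fc4401dac0040a300760400edb001cb8803bc700768800ed1c01d7a803b5a0072f000ecb401d72803b3f0072e001123801d56003ba600709000f06c01dc3003e30007afa00ff0801cba803c8a00757400ea8802908003ad400940c0122c801e0700411f007532013ef801c4a803d4f00857200de3c01d19003db3006f4a00d84801c42803a4600726400e7a401ca2804ab7)))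 
(.leaf (nat_lit 0x13d68027ad0037c800655600e86401f1f8037fb007c6e00e79401f74003ca8006c7000e9880206900346e)))) 
(.node (.node (.node 
(.leaf (nat_lit 0xf6f001a1e8039eb005f4c00f1c401b09004188005d9600e3080189d003bfa0083e600fdd801cab8042f300764c00f2d00208b0041e30074180116f8025fe002fe200601c00e214017a8003a600060d000c83c019cf0038ae0064d400c7bc0174d00393e00819c0119c802063803be3006da400fca80206000493f00657c00bb0c01914002ebb0074d600f53001c10803b8700708a00bd8801796802f01005f3800b9c8018f7803ceb00687600fda4017bd003356006f2a00b1ac01a3d00246800736000b6a801ddd802ea900598a00e3d0016800030de)) 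
(.leaf (nat_lit 0x13d68027ad003e3b006a70006a840172f00335400748600fa9801d0c003b91007e6600f56401d88002463007b9a00b36801f4b803cca00859c00f51801d08804965))) 
(.leaf (nat_lit 0x13d68027ad003e28007a020119b001d0e003bd400834000f0940233d00446500735a011ea001c2180460b))) 
(.node (.node (.leaf (nat_lit 0x13d68027ad002ff700701600d3840219700476d008a2c010bd8023c88036af)) 
(.leaf (nat_lit 0x27ad004f5a00702400deb402087003786))) 
(.leaf (nat_lit 0x27ad004f5a00735c00ef6401c9080417300951e010e740226980367d009bfe00d18401a4e804a09))))) 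
(.node (.node (.node (.node (.leaf (nat_lit 0x4f5a009eb400fe8401b0b003c91006cd200fab401ace0047ad)) 
(.leaf (nat_lit 0x13d68027ad003f06006b7801126c0296f8043f4))) (.node 
(.leaf (nat_lit 0x27ad00368f0069ea00c51001a220037d900650600bda8018df00373e00747e00d668017da80329900636800ccdc019f400308400613400f0b0017a500402200683800cfd801e2680399900703e00c720018b900321d)) 
(.leaf (nat_lit 0x13d68027ad00398f00667c010e3001eb200433d)))) (.node (.node 
(.leaf (nat_lit 0x4f5a009eb400e234019330034f90063280103e00190d803c91)) 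
(.leaf (nat_lit 0x13d68027ad00499e009426012b6c02659004a310090740134ac0249a80498f008ed801351c025ea00575e))) 
(.leaf (nat_lit 0x27ad004f5a00a86400fe3001e21803cc1008b4a0113280279d0054570078ea015b6001c5b003fb3)))) 
(.node (.node (.node 
(.leaf (nat_lit 0x13d68027ad004921007b9e011c8801f210047350074f00115d401e538045c0)) 
(.leaf (nat_lit 0x27ad004f5a00ac80013a48024d5004f2000a6460108f802420004f11))) 
(.leaf (nat_lit 0x4f5a009eb401016401f4d003f3b0080c200f330023030036ec00735000f2980238a8040fc))) 
(.node (.node 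
(.leaf (nat_lit 0x9eb4013d6801df9803920006a1a00d29c019ab00365700698600c1c801be28037dd007e80008e980177b8034ec)) 
(.leaf (nat_lit 0x9eb4013d6801c2280341e00b31000fa2401f6c0035cf))) 
(.leaf (nat_lit 0x9eb4013d6801ce680372d00973a00dcb4025ce8034d6)))))) (.node (.node (.node (.node 
(.node (.leaf (nat_lit 0x4f5a009eb4010eb001b8a80443f006bd600ff1802076804045)) 
(.leaf (nat_lit 0x9eb4013d6801c6600363f00b57000d8fc02d5c00377b))) (.node 
(.leaf (nat_lit 0x13d68027ad00476b00764001503c0200600503000ae2600f4d002b0b8042ed)) 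
(.leaf (nat_lit 0x13d68027ad00439a00667600f3d801db8003735)))) (.node (.node 
(.leaf (nat_lit 0x4f5a009eb40100e8018aa003b8c0063b600d86401997003fdc)) 
(.leaf (nat_lit 0x13d68027ad003fe9007fc200f51801ac400437100665c011c5801cc2003473))) 
(.leaf (nat_lit 0x13d68027ad0047a200ac5601484c01ec3805003007e5e0139fc01f05803de5)))) (.node (.node 
(.node (.leaf (nat_lit 0x4f5a009eb401015001a6c8035da006e4800d89001a5c803a7f)) 
(.leaf (nat_lit 0x13d68027ad00341f006e7e0104a801c230039560071b4010ffc01b3c00460e00700c00d55801b47803a86005da200fc4401c848037f700979000ce7c01949003841))) 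
(.leaf (nat_lit 0x4f5a009eb40108c4019648032ac00606000e2680199c802f3e0074a200e11401c8300438700778800b46c01b430037fd))) 
(.node (.node (.leaf (nat_lit 0x13d68027ad003adb006aee00d2ec01b060034fb006a7c00bf9801b9580355c)) 
(.leaf (nat_lit 0x4f5a009eb4014aa002a7b00556c00adb40159080248b804912))) 
(.leaf (nat_lit 0x13d68027ad003a2f006a3400de7c01d92003636009f72010c5801c47803c25008ad400daf802899803496))))) 
(.node (.node (.node (.node (.leaf (nat_lit 0x9eb4013d6801e86802e0d0061b800c3fc01917802f5b)) 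
(.leaf (nat_lit 0x13d68027ad003f06006b7801126c0296f8043f4))) (.node 
(.leaf (nat_lit 0x27ad004f5a008bb400e4d001dae00407f0075ca011e9c01e7e0041f3)) 
(.leaf (nat_lit 0x9eb4013d6802cc200507c00af64014a600224b0051f5)))) (.node (.node 
(.leaf (nat_lit 0x4f5a009eb400f76c0193400375c00734e00e5d401ca5003a3f00742a00f72401ee1003bd600889001026001e84003e50007c6a00f1100206c004638)) 
(.leaf (nat_lit 0x27ad004f5a00aa5c01494c02d1900551c))) 
(.leaf (nat_lit 0x4f5a009eb4011ab0020b2804bbc009bc6012c8c0249d004a4d0091700125e802414804e90)))) 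
(.node (.node (.node (.leaf (nat_lit 0x4f5a009eb40150d00193d803b260064f600ec980198b00360c)) 
(.leaf (nat_lit 0xfb3001e3e003a88007fd601121c0200c80446b00817601149402026804057009e80012d38022430044900082b00142b401e67803d9e00788201223801e41802d2800785801140801f688039ee007c86010ec401c04803ea4007c660111c401e06003d5500771400f1a001e2b003cff00787800f90001fbb003ce7007b5c010f3801ed78043ca00778e00f05c01d52803dec00856a0115dc021028043ba00778400f3a001e35803c98007bc800f4f801e3e003d3400734800dbc001bfd8037540071cc00df0001b3e8033d4007d7e0128bc02188003e0e007a6200f3c001e93803f6200887e01043c01e938044500079360124a801da2803d0d007bb000f72c01e6a003d7d0075fc00f6cc01e70803db000768e01261401eeb8043a10070ee00fde801f0b0040cf0076da00f79401e50803bb10075a800eee801e03003bb1007b3200f6f001ed1803e8100763800f59001cdf003ca30073de00dcc401c530039530070de00d5e001e2a803cc50078fc00f41801c54803bcf))) 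
(.leaf (nat_lit 0x6d4400d4c401a1680350800641000d66c01a6000372b006aa000e78c01c2380327800680e00ae1801bfd803455006a8200ba4401806802f1900654e00bdb4019aa002e9200680a00bcd00176280323e005e0200d4f0018b3002fe100626a00a5a401897802a3a00631000b7c0016fc002e19005c2600c800016c800327900604000b654017470031e9006aa200cdf4019ce8032d9005d2200c29801b34802e2300865400eae80173580419e00706e00b06c0201d8031270065de00cb0801afa802f1600613a00c2c4016048033a600641000bb180139b00321e0062d400c9bc017e9802dc7005e1200cf24017ab002db200651a00bfe801a7e002d5000628e00c3600193b8034d10059a800d8380190d0032af0054ea00a9a001776002f4700591e00a698017e900297b00615e00b3a401704002f8900612e00b7480184b80307c0062fe00d18801a38803600))) 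
(.node (.node (.leaf (nat_lit 0x4f5a009eb400d90001dc5002e9500748c00e2c8022528037e6)) 
(.leaf (nat_lit 0x27ad004f5a006ae000d3b0026a30038f5))) 
(.leaf (nat_lit 0x27ad004f5a006ea200d19c01c1480536b009ae200eed8024ae805938))))))) (.node (.node 
(.node (.node (.node (.node 
(.leaf (nat_lit 0x13d68027ad004762007a5a0116d401f680045b4007ba001339001b6d003a83)) 
(.leaf (nat_lit 0x9eb4013d6801c1b803650006a7a0173f001aa5805d2a))) (.node 
(.leaf (nat_lit 0x27ad004f5a00a86400fe3001e21803cc1008b4a0113280279d0054570078ea015b6001c5b003fb3)) 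
(.leaf (nat_lit 0x21470053e800a27c00fec801fca803ff3007fae00f6d0021b7803e2f00baea0104c00210300422900aac2010c200240f8044f600b89c010644020a3003d490068c000fe480226f003a9900828a01122c01eda804d220085d20100e002592003e1a007e7a0108c40212780481d00a7c20100b40205e00504c00825e01029401fcd0041fe008c4c010ee0023790045070093c400fe7801f2a003d64007e880128c0021078048500080cc00fd6401f67003cfd0075cc00eb6401dda803a5d0075e200df9c01f19003cb000809600ec2401de8803930)))) 
(.node (.node 
(.leaf (nat_lit 0x13d6801a7500392b005ec800f490016e000320c0074c000f78401b9f003bf7008f7a00b4fc01ad38031c1)) 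
(.leaf (nat_lit 0x4f5a009eb400e430023be003b1b009cb20107180240a8048df007f0a01322c01c0a803454))) 
(.leaf (nat_lit 0x27ad004f5a00739e00db1001c1d803a7b0079c200e27001d1200378a006e3a00d98801b55803ebb)))) 
(.node (.node (.node (.leaf (nat_lit 0x4f5a009eb400fe0801d318038760064f600e6b401cd2803899)) 
(.leaf (nat_lit 0x79de00e1c401b9b803d7900805800fd5c01f6d80439b009c6a0131140220a803b9500aadc00eaf401aa4803a1b00687800ed8801e25803f57007af20100b001f6d80439b009c6a0131140220a803b9500aadc00eaf401aa4803a1b00687800ed8801e258038d80070ca00e36001c328038e700702800e89801d0600400f00741801003c01d0a803b5300787000e62401f87803989007e1e00e8c801b768053f90069e200edf801e9d00356e0075a800d180018658043b300a7f200d3c401dbf0036ed007a7400d5b801d6a003460006196010ecc01d58003d87007bdc00f20801fcb003ab600755200eac001ec3803dee00790400fe5801d5b003aa90073ba00f4ac01cee803d2b0074a200e92001cf88039f10074b200e94401cf4803d420073d200f50801d280038220074ac00fa18027ab003a55008ab800ddec01c11003a56007d0c013d5801d2a80455c006ef600dab401c22003718006a0a015dc801d34003fc100789200e9c801b56803844006e3000d41402bb9003a68007f8200f12401d39003a57)))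 
(.leaf (nat_lit 0x4f5a009eb400f76c0193400375c00734e00e5d401ca5003a3f00742a00f72401ee1003bd600889001026001e84003e50007c6a00f1100206c004638))) 
(.node (.node 
(.leaf (nat_lit 0x4f5a009eb401016401f4d003f3b0080c200f330023030036ec00735000f2980238a8040fc)) 
(.leaf (nat_lit 0x27ad004f5a0079ae00d1a0026ef003744))) 
(.leaf (nat_lit 0x13d68027ad0035f6006b0e00eac401c49003b77006cc200e54c019de003b4600765c00d56401e0900341900684800d06401893803c0a00715800f66c01e3c0039710071ce00c220017f4003966))))) 
(.node (.node (.node (.node (.leaf (nat_lit 0x4f5a009eb4010a2401e0f8043d7006ad4012cb001b8f00420d)) 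
(.leaf (nat_lit 0x13d68027ad00396a007a5601029001e04003947))) (.node 
(.leaf (nat_lit 0x27ad004f5a00858001045c01f7f803c3000a6c4010420020238059cd0079a80166e801f238043d4)) 
(.leaf (nat_lit 0x9eb4013d6801e60003c6200878e00f02801ea4803bfd)))) (.node (.node 
(.leaf (nat_lit 0x13d68027ad003e28007a020119b001d0e003bd400834000f0940233d00446500735a011ea001c2180460b)) 
(.leaf (nat_lit 0x13d68027ad003545006944015f0002539004f860074d40129b402b720036fc))) 
(.leaf (nat_lit 0x13d68027ad003d760072e201171c01d3c804d780075740152940275f003e99009a5800f5c801e0f005256)))) 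
(.node (.node (.node (.leaf (nat_lit 0x4f5a009eb400dfb0019400046e5006500011b940197d00353d)) 
(.leaf (nat_lit 0x4f5a009eb400e430023be003b1b009cb20107180240a8048df007f0a01322c01c0a803454))) 
(.leaf (nat_lit 0x4f5a009eb400e1900183c00356b006e120102c001dcd003b4e00755200f39401df0003ab800845600f07401c3d8038220077de00e10002000003fcb))) 
(.node (.node 
(.leaf (nat_lit 0x13d68027ad0037c800655600e86401f1f8037fb007c6e00e79401f74003ca8006c7000e9880206900346e)) 
(.leaf (nat_lit 0x27ad004f5a006fec00e9c401bd5804dc7))) 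
(.leaf (nat_lit 0x9eb4013d6801fd500344b006cbe012ba001c350046e3)))))) (.node (.node (.node (.node 
(.node (.leaf (nat_lit 0x13d68027ad00423a006c96011be001d89804345006da600feb001e9500413d)) 
(.leaf (nat_lit 0x9eb4013d68021bb8038490069ec017b2c01afb8054b4))) (.node 
(.leaf (nat_lit 0x4f5a009eb400e8b8019500036880077ce00da280210d003629006d1200e2f00214d0036ef)) 
(.leaf (nat_lit 0x1e7b803cbb006d0000e8b401fcb80367100a61c00e94001fa880355700af1e00ed7001b4c003db100829200f7e802047003e5100867000e81c01f94803532007a8200e8a801f8480357900a20000ec9801b2c003a3c00743c00e9a001d190038bb0071de00e6a801ce6003bb6007dda00f76001ea900412c00776200ee2001d18003b17007f4a00f65002024803f3d0085a200eb6c01d5b00395100721200f9ac01c9f803e3600718600da3401b938037890067a800d35001b7400353700690e00c6e001b65003683006c6a00cd1801a9b00314d)))) 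
(.node (.node (.leaf (nat_lit 0x13d68027ad003f09005ca600ff700167f003995005e9e00e340018498038bf)) 
(.leaf (nat_lit 0x11cd0022ea0042c2008694010cb0014438047dd00824e011f1801de8804d1100839000ef500219a8042910086c000f9cc0209c003b9500838800ef74021bd0043dc008744010b2c0231500431a008678012348021b58041eb00869a010ac8023f200416500803a010e10021420044f00090ae011b08024c48047e00097a6010aa8021fd004328008852010af8021088040a1008d7c01070801fce004036007c1200f10c02103804cef0099b601125c0257100458e00847c0111bc0239e804707008ca8012910022618044f80083c00158780214e8049770083da010848020dc00432f0085e4010b9c0207380539500850e01164c020e9004223008972010d94021f080436b008ed0010cc8020a300598200643a0118f00211100429d008660010cec0208c003ee800879e01103c022a9004464008682010a10021520041c9008588011c00020e28042eb007e8c01445c01fe0803f6b007f3000fdc80206b803ef7007cf200edb001db600412c0076f800f66801d4c803bd4))) 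
(.leaf (nat_lit 0x27ad004f5a00766a0104c801cf380479f0084ac011af8021bc803ab800b2a400f51c01de6004238)))) 
(.node (.node (.node (.leaf (nat_lit 0x13d68027ad003ca5006b5e00f2e001ac20041e1)) 
(.leaf (nat_lit 0x27ad004f5a00778200c68401a248032c00079d200cf6c01d19003ecb))) 
(.leaf (nat_lit 0x13d68027ad002ff700701600d3840219700476d008a2c010bd8023c88036af))) (.node (.node 
(.leaf (nat_lit 0x6d4400d4c401a1680350800641000d66c01a6000372b006aa000e78c01c2380327800680e00ae1801bfd803455006a8200ba4401806802f1900654e00bdb4019aa002e9200680a00bcd00176280323e005e0200d4f0018b3002fe100626a00a5a401897802a3a00631000b7c0016fc002e19005c2600c800016c800327900604000b654017470031e9006aa200cdf4019ce8032d9005d2200c29801b34802e2300865400eae80173580419e00706e00b06c0201d8031270065de00cb0801afa802f1600613a00c2c4016048033a600641000bb180139b00321e0062d400c9bc017e9802dc7005e1200cf24017ab002db200651a00bfe801a7e002d5000628e00c3600193b8034d10059a800d8380190d0032af0054ea00a9a001776002f4700591e00a698017e900297b00615e00b3a401704002f8900612e00b7480184b80307c0062fe00d18801a38803600))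 
(.leaf (nat_lit 0x9eb4013d68020ca80421a008fde01021801fc88040e7))) 
(.leaf (nat_lit 0x27ad004f5a00789800d19001b3080407a))))) (.node (.node (.node (.node 
(.leaf (nat_lit 0x13d68027ad0038b80051f800d444015ed00331a0050e600a0f401541002e0b)) 
(.leaf (nat_lit 0x13d68027ad00390100692801538c01a6e8058a6))) (.node 
(.leaf (nat_lit 0x13d68027ad003ef300725a00fc1401d3f004b4000757201673402468803f7e007f3800fd2c01e26004ffe)) 
(.leaf (nat_lit 0x4f5a009eb4014224019e1004155007d6a0127f001dd30033b4)))) (.node (.node 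
(.leaf (nat_lit 0x4f5a009eb40108c4019648032ac00606000e2680199c802f3e0074a200e11401c8300438700778800b46c01b430037fd)) 
(.leaf (nat_lit 0x27ad004f5a007c7200d69801811803696))) 
(.leaf (nat_lit 0x13d6801fd300416200707c00f53801bae803a86007b5e00e06c01e30803825)))) (.node (.node 
(.node (.leaf (nat_lit 0x4f5a009eb400ef54019b7003a9a0065ee01178001985804de1)) 
(.leaf (nat_lit 0x4f5a009eb400ef20018918029a1004e9c009d8401c7480271500710600a434019f5803363))) 
(.leaf (nat_lit 0x9eb4013d6801df9803920006a1a00d29c019ab00365700698600c1c801be28037dd007e80008e980177b8034ec))) 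
(.node (.node 
(.leaf (nat_lit 0x4f5a009eb400f9e401d4f803a1700962800e8b8018bd00300f007b94010a7801d5a803e2c0076f201075001e4d00442c00795800f26802240804008)) 
(.leaf (nat_lit 0x13d68027ad003ee60081ea0114d80206d803c3a006f0400f7cc01e68804895007e8201126c01ecb003d0d00796400fb2402156005073))) 
(.leaf (nat_lit 0x27ad004f5a0073a400e3740259a003e7b00a2c800eda402a5300350e)))))))) (.node (.node 
(.node (.node (.node (.node (.node 
(.leaf (nat_lit 0x13d68027ad004b94007be001306402282804a0600763a013ce401f04804b17)) 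
(.leaf (nat_lit 0x9eb4013d6801c1280380c00ad8c00e03002b6300390b))) (.node 
(.leaf (nat_lit 0x13d68027ad003e380074fc0146ac01dbf00426200ae3800ef9002069803a4f)) 
(.leaf (nat_lit 0x13d68027ad0037650065a000cd8802023003f6f008c4e01193401f220045fb00751600e02401b44004c6d0089ba0125b40247b00513c)))) 
(.node (.node 
(.leaf (nat_lit 0xe66401b538035db0061d20130c00180780352a0062d200ef4c018b00033cc007e1a01216001abd0044c500702200f864019d800375b00692a00dc7401d7d80324900614201094c0189d80340400635600d03401a6680319900633400cdfc01832803a21006d1600e3a401cad003b6e0073e600dcc001f4100496d00688800c32c01a5980304600686200f4b80209580385700871400c424018d20031a200633600c738019148037b20062b000d53801833002ff20069dc00b2d801928002ed8006fe000c28801c50802f66005c9a00d478015d7803466)) 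
(.leaf (nat_lit 0x13d68027ad00363d009ada00fb1801c36003dd8007152013a28022cb0046cb0087ba0111680202a004508006fbc00de9001ad3004085007fea01087002200803ed9008e1c00d210019df003496))) 
(.leaf (nat_lit 0x4f5a009eb400eb4801e6b0043b7007b5200f6d802267004420007f920108b801faa804439)))) 
(.node (.node (.node 
(.leaf (nat_lit 0x13d6801a370033de0068c200d86401aed80422800564600cc20018c8802b6a005bfe00ab68017b10031fd)) 
(.leaf (nat_lit 0x13d68027ad003e3b006a70006a840172f00335400748600fa9801d0c003b91007e6600f56401d88002463007b9a00b36801f4b803cca00859c00f51801d08804965))) 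
(.leaf (nat_lit 0x13d68027ad0038f8006d8c00d9b801db9003486006be400e38001bea003d980074fc00d95802305003770))) 
(.node (.node (.leaf (nat_lit 0x13d68027ad003be1006db20127d001d3980432d0098f800f2a0027538040a0)) 
(.leaf (nat_lit 0x27ad004f5a0071da00d40c01b0e004752))) 
(.leaf (nat_lit 0x27ad004f5a00703001273801a8500477c007c0200dbf80211700358d00a16400cec4019e0803e15))))) 
(.node (.node (.node (.node (.leaf (nat_lit 0x4f5a009eb401316401ab0803fe1006bb401114401acc804f4c)) 
(.leaf (nat_lit 0x13d68027ad003bd2006d3800dc7c01ef0004c75))) (.node 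
(.leaf (nat_lit 0x13d68027ad003cc3006de400d63c01ffa80395f00875e012eb001bb900481a00818a012564024e60037ef00961400d52801c8200367200731a00e11001f2a803f51)) 
(.leaf (nat_lit 0x20f7803f4300a32c010750020c8003be800778800fe40022b8803a630080be010b7401fd98055910090380100b801eba004b08007c4a01100002edd0049850086a60110ec021b9804f440085ec019c24021f480529000c1a601058001f10003e1d007f700133bc020e4004014007f30011cf0022490040480091c200ffac021ed00408500942001040001fd000412700838401195c0227700489a008b1601220802113003d3b007d0800f89401e47803b3200738c00e7e401c710037ca007f6600fc2c01ff2004044007e9a00f2b401dfc00399500729000f0c001e25004a36007b3a00f12801db4803bd800716800f72c01c6b004452)))) 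
(.node (.node 
(.leaf (nat_lit 0x13d68027ad00550b00bf600173d00314680613a00c8e001943c02c8f005b6700ca1c01553002a49804c1a)) 
(.leaf (nat_lit 0x13d68027ad0039700073ba00e69c02537803d0d00792200f0c4027ce0039ed00950000dcfc01af3004e5b))) 
(.leaf (nat_lit 0x27ad004f5a0075dc012c8c01cc5804aa70091dc01246c0252b003c5000a3e001134c01c2a0044a4)))) 
(.node (.node (.node 
(.leaf (nat_lit 0x13d68027ad004921007b9e011c8801f210047350074f00115d401e538045c0)) 
(.leaf (nat_lit 0xf69c01cae003883007a3001061c01ec2004149007bca010e5402821803eb700aa7401433c02977803c5700724a014ea001d398035e40073b60101bc01a3480440a00739800fea401d2700360900734e00fa1801a67803f6100734c00fcec01cae0039ba00705800e20c01c1280384e00704800eb8401de20039a100734e00fd2801ccc803f4900741000eb2801c61003c53007d4a00f99801ea08042ad0072a400dfe401a9c0035b9006d5e00e4d401b2700376e006c4e00cb20019c300342a006cc200d204019e580311f00766e00eec001d99003b6500759000f40801e7a003d4a007b8800fc4401dac0040a300760400edb001cb8803bc700768800ed1c01d7a803b5a0072f000ecb401d72803b3f0072e001123801d56003ba600709000f06c01dc3003e30007afa00ff0801cba803c8a00757400ea8802908003ad400940c0122c801e0700411f007532013ef801c4a803d4f00857200de3c01d19003db3006f4a00d84801c42803a4600726400e7a401ca2804ab7)))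 
(.leaf (nat_lit 0x13d68027ad003adb006aee00d2ec01b060034fb006a7c00bf9801b9580355c))) (.node (.node 
(.leaf (nat_lit 0x13d68027ad003ad9006b6200cae001c65003e0000694c00dd9801aff0032f20066e600c1dc01ac8803c5f005cea00d90001a7100363b00711600e0b401bf7003e73)) 
(.leaf (nat_lit 0x9eb4013d6801d5780350400a67c00d52c020138036bd))) 
(.leaf (nat_lit 0x9eb4013d6801fd500344b006cbe012ba001c350046e3)))))) (.node (.node (.node (.node 
(.node (.leaf (nat_lit 0x13d68027ad005a79009bb8014368027858050f700a7da015d1802a4c005382)) 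
(.leaf (nat_lit 0x9eb4013d68021bb8038490069ec017b2c01afb8054b4))) (.node 
(.leaf (nat_lit 0x13d68027ad003d760072e201171c01d3c804d780075740152940275f003e99009a5800f5c801e0f005256)) 
(.leaf (nat_lit 0x27ad004f5a00affc01569c02a318057d3)))) (.node (.node 
(.leaf (nat_lit 0x4f5a009eb400dda8017e2804f9d006f1800de0c019fc00342b)) 
(.leaf (nat_lit 0x27ad004f5a006f9e00f3f801947804ffd))) 
(.leaf (nat_lit 0x4f5a009eb400f9e401d4f803a1700962800e8b8018bd00300f007b94010a7801d5a803e2c0076f201075001e4d00442c00795800f26802240804008)))) 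
(.node (.node (.node (.leaf (nat_lit 0x13d68027ad0042f2006f5001094c01bd4004253)) 
(.leaf (nat_lit 0xfb3001e3e003a88007fd601121c0200c80446b00817601149402026804057009e80012d38022430044900082b00142b401e67803d9e00788201223801e41802d2800785801140801f688039ee007c86010ec401c04803ea4007c660111c401e06003d5500771400f1a001e2b003cff00787800f90001fbb003ce7007b5c010f3801ed78043ca00778e00f05c01d52803dec00856a0115dc021028043ba00778400f3a001e35803c98007bc800f4f801e3e003d3400734800dbc001bfd8037540071cc00df0001b3e8033d4007d7e0128bc02188003e0e007a6200f3c001e93803f6200887e01043c01e938044500079360124a801da2803d0d007bb000f72c01e6a003d7d0075fc00f6cc01e70803db000768e01261401eeb8043a10070ee00fde801f0b0040cf0076da00f79401e50803bb10075a800eee801e03003bb1007b3200f6f001ed1803e8100763800f59001cdf003ca30073de00dcc401c530039530070de00d5e001e2a803cc50078fc00f41801c54803bcf))) 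
(.leaf (nat_lit 0x4f5a009eb400fbec020ea804213007ac200d9d001e0b803c5b008c6a00d7b801962804161))) 
(.node (.node 
(.leaf (nat_lit 0x4f5a009eb400eb9c01f92803c0f0079b400fabc023b080415f007e5601111402323803d5e)) 
(.leaf (nat_lit 0x9eb4013d6801d4380382a006036007a9801f22003c06))) 
(.leaf (nat_lit 0x27ad004f5a00703400f34401e68803733))))) (.node (.node (.node (.node 
(.leaf (nat_lit 0x4f5a009eb400d578017ea8032b800537e00c900019e4803164)) 
(.leaf (nat_lit 0x13d68027ad003959006e9601534c01ba58054d3))) (.node 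
(.leaf (nat_lit 0x27ad004f5a00941400f198021a900412300785e01090001e208048f9)) 
(.leaf (nat_lit 0x1e6f00390d006dda00e81c01f960035220077a600e8a801f90003562009cb200eca401d16804069007e260107b401d28003f63006d5a01574c01ed3004142007ca001043401f288043440071b0016078029ac0056a400b22400ed3801c5e0038dd00747800e87c01d32803a4900776800f6f001ef4003d5000828a00ef5c01ef3003dff00826800e69401d18003bb100773600fef001ec700402c007e9e010af401d8c0039510075a000e46401c9f8036ee00697800d49401a378031cc006e6e00d9e801c648038b4006e3200dbd401b678034950066c000d9f001e168036d80077a800d8e4019b280580a00669a011fe4018a1003cd0)))) 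
(.node (.node 
(.leaf (nat_lit 0x4f5a009eb400a7c801fc2003992007bca00a2a0016f0802f990078820082f401266002f13)) 
(.leaf (nat_lit 0x13d68027ad00553b00a324013a38028e5004f40))) 
(.leaf (nat_lit 0x3e61007a3801329001d298038010077f000d7bc02375803df6006e6e01273802a150040dd008b340110d8024db0040de00781200f3ac01ed38040f3007dd600ecbc0290b00380b00829800df4801a968035fd00979000e36801bd0003a9100782000e42801cf8003a7f006ff000dd7c01a6f0037f1007a6400d7bc01e1a803782006f5600db1001ff5803dc20076b800f7ac022ee003c8b00780601160401b28003f760071f600fef00248080372300785a01047001e4180387f00915400cf4801d8800370f006ad800da0001caa8034b2)))) 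
(.node (.node (.node (.leaf (nat_lit 0x4f5a009eb400ddf001cd0804e5c007342013970019310037b9)) 
(.leaf (nat_lit 0x27ad004f5a00778200c68401a248032c00079d200cf6c01d19003ecb))) 
(.leaf (nat_lit 0x27ad002d92005db0008c7401329002b1600512400933801063802f24004a4a00a4b8015ae8025220045b20098580161e00289000584c00b2b0013dc802740005424008ce40127a001fd8003ffe0078f40133d0028f6))) 
(.node (.node 
(.leaf (nat_lit 0x27ad004f5a00739e00db1001c1d803a7b0079c200e27001d1200378a006e3a00d98801b55803ebb)) 
(.leaf (nat_lit 0x13d68027ad004ce6007fca00f51c02157803d50008ae8011dfc02389004b4b))) 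
(.leaf (nat_lit 0x4f5a009eb400fe7001a4e0043bf0088ac01371802d768037a5))))))) (.node (.node (.node 
(.node (.node (.node (.leaf (nat_lit 0x4f5a009eb40153b80298200534600ac6c0151e402bc0805563)) 
(.leaf (nat_lit 0x9eb4013d6801c1b803650006a7a0173f001aa5805d2a))) (.node 
(.leaf (nat_lit 0x27ad004f5a0075dc012c8c01cc5804aa70091dc01246c0252b003c5000a3e001134c01c2a0044a4)) 
(.leaf (nat_lit 0x27ad004f5a007b1200eef801c8b803eea)))) (.node (.node 
(.leaf (nat_lit 0x13d68027ad0037df0069a40104cc01a21804135006d7a00fcfc0178e003506)) 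
(.leaf (nat_lit 0x1e74003ae200712a00e7b8019af803a1100672800ee9401a7e803a250073dc00fcb001bcd804a5200742400fd58019cf804adf00773000edf001c2a00357000744800ed2401e9d803d8e0079ca0102c801da9803a7c00791c00fdf801e4e8044c30077ea01035401c9f0038730073aa00e74801c890038fa0070aa0100bc01ebe004000007f20010a8001d73003b8b00772c00e7f401e448040aa0079fa00fe6c01e8d00420800742600e3780255e003902007c4600d53801b9e003640006a9a00ca1801c6c0036a500772a00da8001d218036380076f6012dac0250c0033340094e400cb7801890003a8d))) 
(.leaf (nat_lit 0x4f5a009eb400d90001dc5002e9500748c00e2c8022528037e6)))) (.node (.node (.node 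
(.leaf (nat_lit 0x13d68027ad0047ba0067ce00db7801b4b8037c80069b000ea6c01aa500372f)) 
(.leaf (nat_lit 0x13d68027ad00341f006e7e0104a801c230039560071b4010ffc01b3c00460e00700c00d55801b47803a86005da200fc4401c848037f700979000ce7c01949003841))) 
(.leaf (nat_lit 0x4f5a009eb400a7c801fc2003992007bca00a2a0016f0802f990078820082f401266002f13))) 
(.node (.node 
(.leaf (nat_lit 0x4f5a009eb400e1900183c00356b006e120102c001dcd003b4e00755200f39401df0003ab800845600f07401c3d8038220077de00e10002000003fcb)) 
(.leaf (nat_lit 0x9eb4013d6802c00004c93009e420130cc0286c805e1e))) 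
(.leaf (nat_lit 0x9eb4013d6801dc9803429006ce000d1cc01a90003e1b0076600105b801c0800373000876400cb30018e78034cd))))) 
(.node (.node (.node (.node 
(.leaf (nat_lit 0x13d6801e950038e20064d200d0100182780349300754800df9c01d76803fe60098a600b62001ab3803bb6)) 
(.leaf (nat_lit 0x13d68027ad003bd2006d3800dc7c01ef0004c75))) (.node 
(.leaf (nat_lit 0x27ad004f5a007b0a00f67c0263c803a1f009b00013890026ff003e3700783c0152a001ca0003dbc)) 
(.leaf (nat_lit 0x4f5a009eb4010f6801d900039e8008f38010f0401cf3003d4d)))) (.node (.node 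
(.leaf (nat_lit 0x13d68027ad004228008194010dfc0206a0039aa007e780113ac022148047be00977c01180c02142804dad)) 
(.leaf (nat_lit 0x13d68027ad0034ba00693c00f97401b280048cd0082f601469c029fd004cd400a54e00e3d801c4b005634))) 
(.leaf (nat_lit 0x13d68027ad00476b00764001503c0200600503000ae2600f4d002b0b8042ed)))) (.node (.node 
(.node (.leaf (nat_lit 0x4f5a009eb400dae8019c9803a1100667200efd0019e60043b0)) 
(.leaf (nat_lit 0x13d68027ad00363d009ada00fb1801c36003dd8007152013a28022cb0046cb0087ba0111680202a004508006fbc00de9001ad3004085007fea01087002200803ed9008e1c00d210019df003496))) 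
(.leaf (nat_lit 0x4f5a009eb400eb9c01f92803c0f0079b400fabc023b080415f007e5601111402323803d5e))) 
(.node (.node 
(.leaf (nat_lit 0x4f5a009eb400eb4801e6b0043b7007b5200f6d802267004420007f920108b801faa804439)) 
(.leaf (nat_lit 0x27ad004f5a006e9600d648027e5003a27))) 
(.leaf (nat_lit 0x27ad004f5a0073a400e3740259a003e7b00a2c800eda402a5300350e)))))) (.node (.node 
(.node (.node (.node (.leaf (nat_lit 0x4f5a009eb40112cc01cb4003df8006e6000ef8001d1d803b43)) 
(.leaf (nat_lit 0x13d68027ad00396a007a5601029001e04003947))) (.node 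
(.leaf (nat_lit 0x78dc00e3d001cf6003a4b00a09e00d6a802082003a2e00866200d37401a52803dc6007b3800f47001ad98034cd0089ca00d4e801a2480340300713400ceb401a9380334f007c4400cf58019df8033c400667a00df2001b22803340006ba600cb1c01b2b00332a006b3e00d0e0019b180335a0068f600d90801964803d0a00676800d6c4019c98037b600820000d98001bdb80405100697200d04c01a50003281006c5600dbd40199180371200618e00bc40019f780343f0069a000f22401ab380345a007a7600f80801b6900446300774000d3bc0212f0034cd0069c800cec001dfa803ed90072ec00f2d401ac300346e006b6200d55001ac000350b00797a00d3d001bce80374a006cb400dffc01c90803422007b0000f6c801ff2803e5c007e4c00e5bc01df1803fc200794200e23801acf0035230065ac00cc8401a740034c5006d6a00e02c01aa0803aa2)) 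
(.leaf (nat_lit 0x13d68027ad0034ae006b1000d0b80259d803bb6)))) (.node (.node 
(.leaf (nat_lit 0x4f5a009eb400d9800170980378b00712c00e54c01a4280322a)) 
(.leaf (nat_lit 0x13d68027ad004452009aa80150dc027c700576b00a1400140ac02e03805126))) 
(.leaf (nat_lit 0x13d68027ad003b8600720a00fca001cab0041d60075f401526c0206d004d4b007d1200fd4801d02004f35)))) 
(.node (.node (.node (.leaf (nat_lit 0x13d68027ad003ca5006b5e00f2e001ac20041e1)) 
(.leaf (nat_lit 0x4f5a009eb400ef20018918029a1004e9c009d8401c7480271500710600a434019f5803363))) 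
(.leaf (nat_lit 0x13d68027ad003be1006db20127d001d3980432d0098f800f2a0027538040a0))) (.node (.node 
(.leaf (nat_lit 0x27ad002d92005db0008c7401329002b1600512400933801063802f24004a4a00a4b8015ae8025220045b20098580161e00289000584c00b2b0013dc802740005424008ce40127a001fd8003ffe0078f40133d0028f6)) 
(.leaf (nat_lit 0x9eb4013d6801ce5803d2600726800de9801bb1004ff4))) 
(.leaf (nat_lit 0x27ad004f5a00789800d19001b3080407a))))) (.node (.node (.node (.node 
(.leaf (nat_lit 0x13d68027ad0047d4008eec012360020348050af)) 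
(.leaf (nat_lit 0x13d68027ad00390100692801538c01a6e8058a6))) (.node 
(.leaf (nat_lit 0x13d68027ad00550b00bf600173d00314680613a00c8e001943c02c8f005b6700ca1c01553002a49804c1a)) 
(.leaf (nat_lit 0x13d68027ad0037f90064fe014bc0019718053df0072b600d9580216f803a6a)))) (.node (.node 
(.leaf (nat_lit 0x4f5a009eb400fbec020ea804213007ac200d9d001e0b803c5b008c6a00d7b801962804161)) 
(.leaf (nat_lit 0x27ad004f5a00805400f56801f59803cc0))) 
(.leaf (nat_lit 0x13d68027ad0055e30095800127a00205e804d080083900112e40201880403d)))) (.node (.node 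
(.node (.leaf (nat_lit 0x4f5a009eb400ef54019b7003a9a0065ee01178001985804de1)) 
(.leaf (nat_lit 0x27ad004f5a00ac80013a48024d5004f2000a6460108f802420004f11))) 
(.leaf (nat_lit 0x13d68027ad003ad9006b6200cae001c65003e0000694c00dd9801aff0032f20066e600c1dc01ac8803c5f005cea00d90001a7100363b00711600e0b401bf7003e73))) 
(.node (.node (.leaf (nat_lit 0x13d68027ad0047a200ac5601484c01ec3805003007e5e0139fc01f05803de5)) 
(.leaf (nat_lit 0xf1e401c928037760074c600ff440252b804f4500752a00fe6401af180571e00753c00d48001e14803c0d0074e600d30801d4b00354b00755200d44c01e14003a5600734a00f1a801f3b003e9b007c060106a801f98803db9007b7200f3dc0208380397300714800ec1801d5b803b8b00806800f8340205a003fd900871600ea8c01e12003be200761400e77801f388039fe007e5e00e0dc01b25003733006c2000c7a401caa004a3b00785a01261001eac80397200778800eca801e74003dab0077de00fa3001d94003b220071a801039c01cdc803c8c0072a400e59401c9080398d00733a00e6b401ca78051ca00738c00eea001cf2003c7100782400ee4401e1e803b8c0078ec00e40001cb4004c77008fd8014d7001cb7003791006ed200df0001ba700359f007c2800e88c01e1c803a2d00a9ce0143e801f6c0040e10073be00f10801c960038d1006d5601459801ba9803c38006de200f17801d6c80369700771e00cd40029098048d7006674010c680187380372a)))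 
(.leaf (nat_lit 0x4f5a009eb400fe7001a4e0043bf0088ac01371802d768037a5))))))))) (.node (.node (.node 
(.node (.node (.node (.node (.node 
(.leaf (nat_lit 0x13d68027ad005a79009bb8014368027858050f700a7da015d1802a4c005382)) 
(.leaf (nat_lit 0xf39c01d048037880076a600d1f401f0200408b0080e800fdb80215f803c7b008f6a0128e0024b4804a15009978012d18026fa803c150079ba00d5d001b3c803a650076a600d1f40203a003e0400811600fdb80215f803c7b008f6a0128e0024b4804a15009978012d18026fa803c150079ba00d5d001b3c803a650070d000fc6401bd9003e840070d000fc6401bd9003e8400748a00ec6801cc1003a5600712a00e83c01d07803bed00747800e49c0200b80392700802e00e90401e5c00403b0079700100ec01e648042110080f200d9fc0234400349f0074cc00d41401de7804fa60075d600d4ec026b00031d9009e5c00d27c0203c80367f008d1000e99801a82803bcf009f4c00ebac01a9d804d600063b2013cb801c0600380c00700a00d19c01a3380328d))) 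
(.node 
(.leaf (nat_lit 0x27ad004f5a0074e200e5a80293780397300aa2c012df801ff8003dfc0073d401270401c1500405b)) 
(.leaf (nat_lit 0x13d68027ad0034ba00693c00f97401b280048cd0082f601469c029fd004cd400a54e00e3d801c4b005634)))) 
(.node (.node (.leaf (nat_lit 0x4f5a009eb400dda8017e2804f9d006f1800de0c019fc00342b)) 
(.leaf (nat_lit 0x27ad004f5a00727600dc2001cc8803a4e00805a00ee64021c1806473))) 
(.leaf (nat_lit 0x402c00828000e4e001bd300350200701e00f54c01c3e803433006e1000de8001d3d80384100757400d38001e22003888006e5c00d4d401e2880370100771200ddd001bb58035e7006c6e00e98401f2880403b007d0400f15c01f238040e500738a00e6e401c4d00385b0079a400e3d401e54003a0100728200fad001d848039fd0075be00f4b401c678039c7006f3800dbe001b1480405f0083d000e35c02171003d97006c8200cc4401b2380366d006bb201015801b3d00367d006e0600d94401d3c8037ef006c7200dc0401d780042d800706200e0c801c1580364f00707600e25c01dcd80347c0090f400daf001c2600393d0075b400f3c801b93803d2c0072d400d4fc01a4b803823)))) 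
(.node (.node (.node 
(.leaf (nat_lit 0x13d6801e950038e20064d200d0100182780349300754800df9c01d76803fe60098a600b62001ab3803bb6)) 
(.leaf (nat_lit 0x9eb4013d68023a4804588009d8201173c02736805243008236016e4c0208d805b1c))) 
(.leaf (nat_lit 0x13d68027ad004228008194010dfc0206a0039aa007e780113ac022148047be00977c01180c02142804dad))) 
(.node (.node (.leaf (nat_lit 0x13d68027ad003c05006c6e00ea4401dc3804919008ae800fca80241800368b)) 
(.leaf (nat_lit 0x13d68027ad00398f00667c010e3001eb200433d))) 
(.leaf (nat_lit 0x4f5a009eb400e8b8019500036880077ce00da280210d003629006d1200e2f00214d0036ef))))) 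
(.node (.node (.node (.node (.leaf (nat_lit 0x4f5a009eb4010eb001b8a80443f006bd600ff1802076804045)) 
(.leaf (nat_lit 0x13d68027ad003729007160010354020d980379e))) (.node 
(.leaf (nat_lit 0x9eb4013d6801dc9803429006ce000d1cc01a90003e1b0076600105b801c0800373000876400cb30018e78034cd)) 
(.leaf (nat_lit 0x27ad004f5a0071da00d40c01b0e004752)))) (.node (.node 
(.leaf (nat_lit 0x900a011e840267880472d008bc4012c38024eb80460c008ef401236402b3b8048d300ae1a0122fc02a230046080093b80117f8022ee8048e80091140124e40291a8053e300b4b80172bc02e73805fa200b1ae017b7802776004a970099980139f0026a48046920094600144a8024f7805a890090d40160880246a80591800a72c01240c02c7d0048cc00a8de01460802f74805f2200be080178f002eb900491e009a300118f4022a10044d20088ec010f9002828004f4f00a99e014eb0026e9804ede00a5de013f680264a80543500a6c0013d7c02877004ed800a408013c400293d804e0500ab580144a8026ea80512800a494013718027b4804df800a7ea015ba002a1480526b009b3c0157d802948804f6c00a0520144e802853004f2b009784012bf8027e0804f9500a08c0140ac029a880571e00ad36014400029e5004e44009a7e01390802cba804ea9009e8c01490402aa100549900aff8014b400293c8052fe00a61a015b1802c87005e7500b1480148fc02271804b68008998013924026810045d400a9fa010f4002ab280502e00882e0142cc0223200501a))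 
(.leaf (nat_lit 0xf1e401c928037760074c600ff440252b804f4500752a00fe6401af180571e00753c00d48001e14803c0d0074e600d30801d4b00354b00755200d44c01e14003a5600734a00f1a801f3b003e9b007c060106a801f98803db9007b7200f3dc0208380397300714800ec1801d5b803b8b00806800f8340205a003fd900871600ea8c01e12003be200761400e77801f388039fe007e5e00e0dc01b25003733006c2000c7a401caa004a3b00785a01261001eac80397200778800eca801e74003dab0077de00fa3001d94003b220071a801039c01cdc803c8c0072a400e59401c9080398d00733a00e6b401ca78051ca00738c00eea001cf2003c7100782400ee4401e1e803b8c0078ec00e40001cb4004c77008fd8014d7001cb7003791006ed200df0001ba700359f007c2800e88c01e1c803a2d00a9ce0143e801f6c0040e10073be00f10801c960038d1006d5601459801ba9803c38006de200f17801d6c80369700771e00cd40029098048d7006674010c680187380372a))) 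
(.leaf (nat_lit 0x4f5a009eb400eb7c01e0b803c0300a9be00f1e00200e004e3700977a00e9d401f8a80375d)))) 
(.node (.node (.node (.leaf (nat_lit 0x4f5a009eb400dd780195e0034aa006488011cbc01924004920)) 
(.leaf (nat_lit 0x27ad004f5a00789200df50017bc802e0d00770200cf9401aee0036d4))) 
(.leaf (nat_lit 0x27ad004f5a008c42012de802141804446008c5c011cac025498044f5009afc0104700208b004974))) 
(.node (.node 
(.leaf (nat_lit 0x9eb4013d6801808002a4b00525c00a26c01517002ae200597800888c013f1002812005ff4007060013f0002eb5)) 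
(.leaf (nat_lit 0x4f5a009eb4014224019e1004155007d6a0127f001dd30033b4))) 
(.leaf (nat_lit 0x4f5a009eb401025801a400038fb0073c201281001a44003da4)))))) (.node (.node (.node 
(.node (.node (.leaf (nat_lit 0x4f5a009eb401316401ab0803fe1006bb401114401acc804f4c)) 
(.leaf (nat_lit 0x27ad004f5a006b2000da1402193004b3c0068fc0134e401b3e004e15))) (.node 
(.leaf (nat_lit 0x13d68027ad0055790081d40148f801bda00533f006fdc0150f001c9b8037fb)) 
(.leaf (nat_lit 0x27ad004f5a007c7200d69801811803696)))) (.node (.node 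
(.leaf (nat_lit 0x13d68027ad0041ee005f6a00f9cc019f78040f3)) 
(.leaf (nat_lit 0x27ad004f5a006ae000d3b0026a30038f5))) 
(.leaf (nat_lit 0x13d68027ad003cc4006ea601029801bf000444100762401550402051003cfd007b6200f4a401d3c805013)))) 
(.node (.node (.node 
(.leaf (nat_lit 0x3ab3006b5c00e160019718031380066d200d0f001c1e803012006fcc00d58401c198037f200748800dda001b19803ec900963600ce64019718031380066d200d0f001c1e803012006ac200e0cc01bf30037f200748800d8cc01f6480376800963600ce64018f90035120063e400d4480194580343700703600d0dc01c0d80378b00765800de2c01d960037a700779600d38001abd00357a006a6c00d7a0017fd003cd7005ffa0108e401787802f3e006ed000bff40211c802ffa0079ae00bc3c0179f003768)) 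
(.leaf (nat_lit 0x9eb4013d6801b00804a5900a78001293802a400059750068780159ac01a26004e9d))) 
(.leaf (nat_lit 0x4f5a009eb401030401df8003526008d5e012218022e08041b000831a00fb24022030043710089a80116a4022be003ef60089260111d80213e0042cc))) 
(.node (.node 
(.leaf (nat_lit 0x13d68027ad0031d0005e8800c6dc019ad0030c3005a5c00d0ac013ec002e1900605400cfe801a9a0030ae)) 
(.leaf (nat_lit 0x4f5a009eb4010f6801d900039e8008f38010f0401cf3003d4d))) 
(.leaf (nat_lit 0x3d0b0078e200da7801d1f0036820078aa00f25801f318052b60075ec00dc1401e96803fab007dfa00fb4c021e5003a3e006d0400f15401e4b003e6300a56c00ebd801b82803efd007a5a00feac01f698043ca00700000ef7801bea0048e900700000ef7801bea0048e90072c200e29c01cfd803e200073f600f88001d80003d3300957600f4cc0255d803d9900855000e53c01ea300394f007a8c00e52001df3003bcf006e5e00d54c01ac98035170063b200d54c01b97803593006a2e00c76401b9a003734006dac00f1c401e388031d5))))) 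
(.node (.node (.node (.node (.leaf (nat_lit 0x4f5a009eb400fe0801d318038760064f600e6b401cd2803899)) 
(.leaf (nat_lit 0x7ad000e92c01c00003f35007b0c01001401f48804359008c8c0103c40218d80493e00917201218801f3d004a1e00746400ce5401d7a803b6500687600d50001ccb003d8600800a00fcd401f48804359008c8c0103c40218d80493e00917201218801f3d004a1e00746400ce5401d7a803b6500687600d50001ccb0037be006f1400def801bc50039080070a200df1801cb7803f1d0072de00fc7401d59803b940072da00e21001f94003884007e5000f1840200f803c6100803e00f2a402133803932006bb000d9c8019f780390c0072d200d1e8021de80338400618a00daf801b390033ef00721800d76001cb480347a00877a00ce10018628036be))) 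
(.node (.leaf (nat_lit 0x13d6801fd300416200707c00f53801bae803a86007b5e00e06c01e30803825)) 
(.leaf (nat_lit 0x9eb4013d68020ca80421a008fde01021801fc88040e7)))) (.node (.node 
(.leaf (nat_lit 0x4f5a009eb400e9e4022de00453f008e4200e19001d71003e440091fc00d7b401b4f003c05)) 
(.leaf (nat_lit 0x27ad004f5a007b1200eef801c8b803eea))) 
(.leaf (nat_lit 0x27ad004f5a007b0a00f67c0263c803a1f009b00013890026ff003e3700783c0152a001ca0003dbc)))) 
(.node (.node (.node (.leaf (nat_lit 0x13d68027ad00380f0063ca010bc4018f28042f1)) 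
(.leaf (nat_lit 0x27ad004f5a00a9f000e78001e1c004dd80099e601296c027b10056b6))) 
(.leaf (nat_lit 0x27ad0038c6006ff600e1ec0188f003638006ff400cf4401a53803c42006dc400f178019038034fa0066ca00e03001b4580382b00645800f24401977003ff000785800d43801ea40036be0067da00b8e401715003311))) 
(.node (.node 
(.leaf (nat_lit 0x9eb401101801ca800389900798600e43401c4e003cb700754400ebb001e8a004348)) 
(.leaf (nat_lit 0x11cd0022ea0042c2008694010cb0014438047dd00824e011f1801de8804d1100839000ef500219a8042910086c000f9cc0209c003b9500838800ef74021bd0043dc008744010b2c0231500431a008678012348021b58041eb00869a010ac8023f200416500803a010e10021420044f00090ae011b08024c48047e00097a6010aa8021fd004328008852010af8021088040a1008d7c01070801fce004036007c1200f10c02103804cef0099b601125c0257100458e00847c0111bc0239e804707008ca8012910022618044f80083c00158780214e8049770083da010848020dc00432f0085e4010b9c0207380539500850e01164c020e9004223008972010d94021f080436b008ed0010cc8020a300598200643a0118f00211100429d008660010cec0208c003ee800879e01103c022a9004464008682010a10021520041c9008588011c00020e28042eb007e8c01445c01fe0803f6b007f3000fdc80206b803ef7007cf200edb001db600412c0076f800f66801d4c803bd4)))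 
(.leaf (nat_lit 0x9eb4013d6801be280331a0068540126e801d29803cdc009b9a010190026ac004ef5))))))) (.node 
(.node (.node (.node (.node (.node 
(.leaf (nat_lit 0x4f5a009eb40112cc01cb4003df8006e6000ef8001d1d803b43)) 
(.leaf (nat_lit 0x27ad004f5a007f5c00ec1001da00053e8006cf4015524019bc00567a))) (.node 
(.leaf (nat_lit 0x4f5a009eb400eb7c01e0b803c0300a9be00f1e00200e004e3700977a00e9d401f8a80375d)) 
(.leaf (nat_lit 0x27ad004f5a00aa5c01494c02d1900551c)))) (.node (.node 
(.leaf (nat_lit 0x4f5a009eb400d9800170980378b00712c00e54c01a4280322a)) 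
(.leaf (nat_lit 0x27ad004f5a007e8e01383c01d800049b900bac600d2b801d5c0037f0))) 
(.leaf (nat_lit 0x4f5a00739a00c90c01d77803d260071c800edf001a0800322f0074bc00abf40206480375500735a00cfc401d0980395a0077b000e8d401dfa803869006f7c00ea9801c27003944006e6e00afb401c9580364f0076f201034c01c29803de3)))) 
(.node (.node (.node (.leaf (nat_lit 0x4f5a009eb400d578017ea8032b800537e00c900019e4803164)) 
(.leaf (nat_lit 0x9eb4013d6801cbf80359a00a93000d66802a4c00393c00a52800e4f00294a00506f))) 
(.leaf (nat_lit 0x4f5a009eb400e9e4022de00453f008e4200e19001d71003e440091fc00d7b401b4f003c05))) 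
(.node (.node 
(.leaf (nat_lit 0x27ad004f5a008c42012de802141804446008c5c011cac025498044f5009afc0104700208b004974)) 
(.leaf (nat_lit 0x20f7803f4300a32c010750020c8003be800778800fe40022b8803a630080be010b7401fd98055910090380100b801eba004b08007c4a01100002edd0049850086a60110ec021b9804f440085ec019c24021f480529000c1a601058001f10003e1d007f700133bc020e4004014007f30011cf0022490040480091c200ffac021ed00408500942001040001fd000412700838401195c0227700489a008b1601220802113003d3b007d0800f89401e47803b3200738c00e7e401c710037ca007f6600fc2c01ff2004044007e9a00f2b401dfc00399500729000f0c001e25004a36007b3a00f12801db4803bd800716800f72c01c6b004452))) 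
(.leaf (nat_lit 0x27ad00368f0069ea00c51001a220037d900650600bda8018df00373e00747e00d668017da80329900636800ccdc019f400308400613400f0b0017a500402200683800cfd801e2680399900703e00c720018b900321d))))) 
(.node (.node (.node (.node 
(.leaf (nat_lit 0xf6f001a1e8039eb005f4c00f1c401b09004188005d9600e3080189d003bfa0083e600fdd801cab8042f300764c00f2d00208b0041e30074180116f8025fe002fe200601c00e214017a8003a600060d000c83c019cf0038ae0064d400c7bc0174d00393e00819c0119c802063803be3006da400fca80206000493f00657c00bb0c01914002ebb0074d600f53001c10803b8700708a00bd8801796802f01005f3800b9c8018f7803ceb00687600fda4017bd003356006f2a00b1ac01a3d00246800736000b6a801ddd802ea900598a00e3d0016800030de)) 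
(.leaf (nat_lit 0x13d68027ad003729007160010354020d980379e))) (.node 
(.leaf (nat_lit 0x4f5a009eb4011ab0020b2804bbc009bc6012c8c0249d004a4d0091700125e802414804e90)) 
(.leaf (nat_lit 0x4f5a009eb4014aa002a7b00556c00adb40159080248b804912)))) (.node (.node 
(.leaf (nat_lit 0x13d68027ad0038f8006d8c00d9b801db9003486006be400e38001bea003d980074fc00d95802305003770)) 
(.leaf (nat_lit 0x13d68027ad003a31009006011c0c0194b802b580065ca00f8cc01c7080344e))) 
(.leaf (nat_lit 0x4f5a009eb400fb1c020d0803790009f2a00fc4802927003fa5007fe00118e8029bc004068008e4e00f91401e2e0048d3009a9e0139e4021a5004068)))) 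
(.node (.node (.node (.leaf (nat_lit 0x4f5a009eb400db08018e48043af006392010ebc019220033de)) 
(.leaf (nat_lit 0x27ad004f5a007e8e01383c01d800049b900bac600d2b801d5c0037f0))) 
(.leaf (nat_lit 0x13d68027ad0037620073c200db6401dfd804bb200836600f7400240e8039e0))) (.node (.node 
(.leaf (nat_lit 0x402c00828000e4e001bd300350200701e00f54c01c3e803433006e1000de8001d3d80384100757400d38001e22003888006e5c00d4d401e2880370100771200ddd001bb58035e7006c6e00e98401f2880403b007d0400f15c01f238040e500738a00e6e401c4d00385b0079a400e3d401e54003a0100728200fad001d848039fd0075be00f4b401c678039c7006f3800dbe001b1480405f0083d000e35c02171003d97006c8200cc4401b2380366d006bb201015801b3d00367d006e0600d94401d3c8037ef006c7200dc0401d780042d800706200e0c801c1580364f00707600e25c01dcd80347c0090f400daf001c2600393d0075b400f3c801b93803d2c0072d400d4fc01a4b803823)) 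
(.leaf (nat_lit 0x27ad004f5a006f9e00f3f801947804ffd))) 
(.leaf (nat_lit 0x7a2000e5e401b23803a3e007f6200f13402727803a1b006ba200e86801d19003d740078ac00f2a401c6f00391700743800f95401af3803b5c00743400f98c01c730038f900701c00f07001bdf803b9400700e00f0b001e9b804052007a6801018001ec90042e90075cc00e81c020b00039fb007da200f1f401f4c803e9c007bca01081c01d148039620076f800ef2c01dee803c260075fe00ee9801cd9003b210076460131f8026428043240074ba01356801cc8003d5b0070ae0118a001d29003c9c00737a00eb9c01c68803af300747000eadc01c4b80473c00930001354801b7f0051c30097bc0107c8020b18040a50078b20133d801cc8003b8f0076b600e93401cd4003c380073dc015b2401b6e803e1a0075f000f65401d1700371b00848400d75001bf6803678006c2000cac401b9a003732006dba00d0ac01a1d80323b)))))) 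
(.node (.node (.node (.node (.node 
(.leaf (nat_lit 0x13d68027ad004762007a5a0116d401f680045b4007ba001339001b6d003a83)) 
(.leaf (nat_lit 0x1e7c8039c400716c00edbc01b7b003a5100819e00d6a002a2b003a520081f000ee480258e803de200834800f774020b5803e510086de00ef2401c8c004eec0093120161f8026ce804da200af4200e9e0020a500353c00ae6000e9e00208b8038f00072e000eab401dc1803b2000774e00e37801fc1003907007f5000e3400258d003a7000784200e91001d2180399100768600f07c01d3e803d46007e9c00fd1401f19804201006e7200d34001a808034bd00640400dbdc01c9c00393a00742e010f6001bc480388b0072f600dde801bb980382200683c011be401be8003835006f6a00d3a401a69003296))) 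
(.node 
(.leaf (nat_lit 0x27ad004f5a00703001273801a8500477c007c0200dbf80211700358d00a16400cec4019e0803e15)) 
(.leaf (nat_lit 0x27ad004f5a00702400deb402087003786)))) (.node (.node 
(.leaf (nat_lit 0x13d6801a7500392b005ec800f490016e000320c0074c000f78401b9f003bf7008f7a00b4fc01ad38031c1)) 
(.leaf (nat_lit 0x13d68027ad003ee60081ea0114d80206d803c3a006f0400f7cc01e68804895007e8201126c01ecb003d0d00796400fb2402156005073))) 
(.leaf (nat_lit 0x27ad004f5a0074e200e5a80293780397300aa2c012df801ff8003dfc0073d401270401c1500405b)))) 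
(.node (.node (.node 
(.leaf (nat_lit 0x4f5a00866600d9bc01a6a803b1a006c3200fd60018d580319f006b6600cc8001adb003c360082ee00c6f001dd5803979)) 
(.leaf (nat_lit 0x4f5a009eb4011e0801e8b803db00095bc00c3fc01dca003ad00073c2013a5801f7a80370f))) 
(.leaf (nat_lit 0x13d68027ad003c05006c6e00ea4401dc3804919008ae800fca80241800368b))) (.node (.node 
(.leaf (nat_lit 0x27ad0038c6006ff600e1ec0188f003638006ff400cf4401a53803c42006dc400f178019038034fa0066ca00e03001b4580382b00645800f24401977003ff000785800d43801ea40036be0067da00b8e401715003311)) 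
(.leaf (nat_lit 0x1e6f00390d006dda00e81c01f960035220077a600e8a801f90003562009cb200eca401d16804069007e260107b401d28003f63006d5a01574c01ed3004142007ca001043401f288043440071b0016078029ac0056a400b22400ed3801c5e0038dd00747800e87c01d32803a4900776800f6f001ef4003d5000828a00ef5c01ef3003dff00826800e69401d18003bb100773600fef001ec700402c007e9e010af401d8c0039510075a000e46401c9f8036ee00697800d49401a378031cc006e6e00d9e801c648038b4006e3200dbd401b678034950066c000d9f001e168036d80077a800d8e4019b280580a00669a011fe4018a1003cd0))) 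
(.leaf (nat_lit 0x13d68027ad0043f500758e00cfe801c938033ce))))) (.node (.node (.node (.node 
(.leaf (nat_lit 0x4f5a009eb401015001a6c8035da006e4800d89001a5c803a7f)) 
(.leaf (nat_lit 0x27ad004f5a00753800dff001dd30055ed))) (.node 
(.leaf (nat_lit 0x900a011e840267880472d008bc4012c38024eb80460c008ef401236402b3b8048d300ae1a0122fc02a230046080093b80117f8022ee8048e80091140124e40291a8053e300b4b80172bc02e73805fa200b1ae017b7802776004a970099980139f0026a48046920094600144a8024f7805a890090d40160880246a80591800a72c01240c02c7d0048cc00a8de01460802f74805f2200be080178f002eb900491e009a300118f4022a10044d20088ec010f9002828004f4f00a99e014eb0026e9804ede00a5de013f680264a80543500a6c0013d7c02877004ed800a408013c400293d804e0500ab580144a8026ea80512800a494013718027b4804df800a7ea015ba002a1480526b009b3c0157d802948804f6c00a0520144e802853004f2b009784012bf8027e0804f9500a08c0140ac029a880571e00ad36014400029e5004e44009a7e01390802cba804ea9009e8c01490402aa100549900aff8014b400293c8052fe00a61a015b1802c87005e7500b1480148fc02271804b68008998013924026810045d400a9fa010f4002ab280502e00882e0142cc0223200501a))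 
(.leaf (nat_lit 0x9eb4013d6801d5780350400a67c00d52c020138036bd)))) (.node (.node 
(.leaf (nat_lit 0x4f5a009eb401030401df8003526008d5e012218022e08041b000831a00fb24022030043710089a80116a4022be003ef60089260111d80213e0042cc)) 
(.leaf (nat_lit 0x27ad004f5a00affc01569c02a318057d3))) 
(.leaf (nat_lit 0x27ad004f5a00941400f198021a900412300785e01090001e208048f9)))) (.node (.node (.node 
(.leaf (nat_lit 0x13d68027ad003b2b0085d4012b3c0194e803a0b006532010650018f0803799)) 
(.leaf (nat_lit 0x13d68027ad003e990063ca0096cc004590026c20055680061d0019f0802df2))) 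
(.leaf (nat_lit 0x9eb4013d6801808002a4b00525c00a26c01517002ae200597800888c013f1002812005ff4007060013f0002eb5))) 
(.node (.node (.leaf (nat_lit 0x13d68027ad003c39006e6c00fb8801cc20043350090f200ed1402308003821)) 
(.leaf (nat_lit 0x13d68027ad004452009aa80150dc027c700576b00a1400140ac02e03805126))) 
(.leaf (nat_lit 0x9eb4013d6801be280331a0068540126e801d29803cdc009b9a010190026ac004ef5)))))))) 
(.node (.node (.node (.node (.node (.node (.node 
(.leaf (nat_lit 0x13d68027ad00423a006c96011be001d89804345006da600feb001e9500413d)) 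
(.leaf (nat_lit 0x27ad004f5a007f5c00ec1001da00053e8006cf4015524019bc00567a))) (.node 
(.leaf (nat_lit 0x13d68027ad003b8600720a00fca001cab0041d60075f401526c0206d004d4b007d1200fd4801d02004f35)) 
(.leaf (nat_lit 0x13d68027ad003545006944015f0002539004f860074d40129b402b720036fc)))) (.node (.node 
(.leaf (nat_lit 0x13d68027ad003f09005ca600ff700167f003995005e9e00e340018498038bf)) 
(.leaf (nat_lit 0x27ad004f5a0082c8014e400294880529900b8f600ed2801cf6003448))) 
(.leaf (nat_lit 0x9eb401101801ca800389900798600e43401c4e003cb700754400ebb001e8a004348)))) (.node 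
(.node (.node (.leaf (nat_lit 0x9eb4013d6801e86802e0d0061b800c3fc01917802f5b)) 
(.leaf (nat_lit 0x9eb4013d68023a4804588009d8201173c02736805243008236016e4c0208d805b1c))) 
(.leaf (nat_lit 0x4f5a009eb401485402aba0057d800a4460161b402e5e80583800b4600161b802bdc005bdf00a97a0164dc02cf4005d6f00bbfe01755402d4e005d7c))) 
(.node (.node (.leaf (nat_lit 0x13d68027ad003f490067c401101401c66803df9009ab200e3c80276800344e)) 
(.leaf (nat_lit 0x13d68027ad0034ae006b1000d0b80259d803bb6))) 
(.leaf (nat_lit 0x78dc00e3d001cf6003a4b00a09e00d6a802082003a2e00866200d37401a52803dc6007b3800f47001ad98034cd0089ca00d4e801a2480340300713400ceb401a9380334f007c4400cf58019df8033c400667a00df2001b22803340006ba600cb1c01b2b00332a006b3e00d0e0019b180335a0068f600d90801964803d0a00676800d6c4019c98037b600820000d98001bdb80405100697200d04c01a50003281006c5600dbd40199180371200618e00bc40019f780343f0069a000f22401ab380345a007a7600f80801b6900446300774000d3bc0212f0034cd0069c800cec001dfa803ed90072ec00f2d401ac300346e006b6200d55001ac000350b00797a00d3d001bce80374a006cb400dffc01c90803422007b0000f6c801ff2803e5c007e4c00e5bc01df1803fc200794200e23801acf0035230065ac00cc8401a740034c5006d6a00e02c01aa0803aa2)))))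 
(.node (.node (.node (.node (.leaf (nat_lit 0x13d68027ad0047d4008eec012360020348050af)) 
(.leaf (nat_lit 0x1e7c8039c400716c00edbc01b7b003a5100819e00d6a002a2b003a520081f000ee480258e803de200834800f774020b5803e510086de00ef2401c8c004eec0093120161f8026ce804da200af4200e9e0020a500353c00ae6000e9e00208b8038f00072e000eab401dc1803b2000774e00e37801fc1003907007f5000e3400258d003a7000784200e91001d2180399100768600f07c01d3e803d46007e9c00fd1401f19804201006e7200d34001a808034bd00640400dbdc01c9c00393a00742e010f6001bc480388b0072f600dde801bb980382200683c011be401be8003835006f6a00d3a401a69003296))) 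
(.node 
(.leaf (nat_lit 0x13d68027ad003a2f006a3400de7c01d92003636009f72010c5801c47803c25008ad400daf802899803496)) 
(.leaf (nat_lit 0x9eb4013d6802c00004c93009e420130cc0286c805e1e)))) (.node (.node 
(.leaf (nat_lit 0x13d68027ad003c6e0066a000dbc00229b80462b0077ce00f5140205680464f0089120118e4024ae803216)) 
(.leaf (nat_lit 0x13d68027ad0037650065a000cd8802023003f6f008c4e01193401f220045fb00751600e02401b44004c6d0089ba0125b40247b00513c))) 
(.leaf (nat_lit 0x13d68027ad0055790081d40148f801bda00533f006fdc0150f001c9b8037fb)))) (.node (.node 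
(.node (.leaf (nat_lit 0x4f5a009eb400dd780195e0034aa006488011cbc01924004920)) 
(.leaf (nat_lit 0x27ad004f5a00727600dc2001cc8803a4e00805a00ee64021c1806473))) 
(.leaf (nat_lit 0x13d68027ad0031d0005e8800c6dc019ad0030c3005a5c00d0ac013ec002e1900605400cfe801a9a0030ae))) 
(.node (.node 
(.leaf (nat_lit 0x13d68027ad0031c90053060088fc01404802944004482009154013038027b10053dc00a3880134b0026d20053d800c5b8017fe002da100618a008b680138e802ae5)) 
(.leaf (nat_lit 0x1e74003ae200712a00e7b8019af803a1100672800ee9401a7e803a250073dc00fcb001bcd804a5200742400fd58019cf804adf00773000edf001c2a00357000744800ed2401e9d803d8e0079ca0102c801da9803a7c00791c00fdf801e4e8044c30077ea01035401c9f0038730073aa00e74801c890038fa0070aa0100bc01ebe004000007f20010a8001d73003b8b00772c00e7f401e448040aa0079fa00fe6c01e8d00420800742600e3780255e003902007c4600d53801b9e003640006a9a00ca1801c6c0036a500772a00da8001d218036380076f6012dac0250c0033340094e400cb7801890003a8d))) 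
(.leaf (nat_lit 0x4f5a009eb401025801a400038fb0073c201281001a44003da4)))))) (.node (.node (.node 
(.node (.node (.leaf (nat_lit 0x13d68027ad004b94007be001306402282804a0600763a013ce401f04804b17)) 
(.leaf (nat_lit 0x27ad004f5a006b2000da1402193004b3c0068fc0134e401b3e004e15))) (.node 
(.leaf (nat_lit 0x27ad004f5a00735c00ef6401c9080417300951e010e740226980367d009bfe00d18401a4e804a09)) 
(.leaf (nat_lit 0x27ad004f5a00805400f56801f59803cc0)))) (.node (.node 
(.leaf (nat_lit 0xe66401b538035db0061d20130c00180780352a0062d200ef4c018b00033cc007e1a01216001abd0044c500702200f864019d800375b00692a00dc7401d7d80324900614201094c0189d80340400635600d03401a6680319900633400cdfc01832803a21006d1600e3a401cad003b6e0073e600dcc001f4100496d00688800c32c01a5980304600686200f4b80209580385700871400c424018d20031a200633600c738019148037b20062b000d53801833002ff20069dc00b2d801928002ed8006fe000c28801c50802f66005c9a00d478015d7803466)) 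
(.leaf (nat_lit 0x27ad004f5a006e9600d648027e5003a27))) 
(.leaf (nat_lit 0x13d68027ad003c39006e6c00fb8801cc20043350090f200ed1402308003821)))) (.node (.node 
(.node 
(.leaf (nat_lit 0x4f5a00866600d9bc01a6a803b1a006c3200fd60018d580319f006b6600cc8001adb003c360082ee00c6f001dd5803979)) 
(.leaf (nat_lit 0x27ad004f5a00a9f000e78001e1c004dd80099e601296c027b10056b6))) 
(.leaf (nat_lit 0x13d68027ad0052b600aee20153cc0303200637d00bf30017bc4031a80058a2))) (.node (.node 
(.leaf (nat_lit 0x27ad004f5a00814e010be401b47803a450078c401063c02058004b0b00923c00d42c01ab68042cd)) 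
(.leaf (nat_lit 0x9eb4013d6802cc200507c00af64014a600224b0051f5))) 
(.leaf (nat_lit 0x13d68027ad0043f500758e00cfe801c938033ce))))) (.node (.node (.node (.node 
(.leaf (nat_lit 0x13d68027ad0047ba0067ce00db7801b4b8037c80069b000ea6c01aa500372f)) 
(.leaf (nat_lit 0x27ad004f5a00753800dff001dd30055ed))) (.node 
(.leaf (nat_lit 0x13d68027ad0055e30095800127a00205e804d080083900112e40201880403d)) 
(.leaf (nat_lit 0x9eb4013d6801ce5803d2600726800de9801bb1004ff4)))) (.node (.node 
(.leaf (nat_lit 0x4f5a009eb400ed34019a000381e007d6c00f0ec01fd580351300746600ea2001d79003900007f0a00f66c01f1c803908008f40012ca00227e0042fd)) 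
(.leaf (nat_lit 0x13d68027ad00439a00667600f3d801db8003735))) 
(.leaf (nat_lit 0x27ad004f5a008bb400e4d001dae00407f0075ca011e9c01e7e0041f3)))) (.node (.node (.node 
(.leaf (nat_lit 0x13d68027ad003b2b0085d4012b3c0194e803a0b006532010650018f0803799)) 
(.leaf (nat_lit 0x4f5a009eb4011e0801e8b803db00095bc00c3fc01dca003ad00073c2013a5801f7a80370f))) 
(.leaf (nat_lit 0x13d68027ad00393a004592007ff80103000266700435e00820c014c300228c0044580090e4010fc8022a3004ee40088b80133f001ee2003a4c008dc800f1a8021bc))) 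
(.node (.node 
(.leaf (nat_lit 0x13d68027ad0040cc007068012ef401c22804a8d009d5801323001f61004e2f0075620146ec01b6900466c)) 
(.leaf (nat_lit 0x13d68027ad00499e009426012b6c02659004a310090740134ac0249a80498f008ed801351c025ea00575e))) 
(.leaf (nat_lit 0x7a2000e5e401b23803a3e007f6200f13402727803a1b006ba200e86801d19003d740078ac00f2a401c6f00391700743800f95401af3803b5c00743400f98c01c730038f900701c00f07001bdf803b9400700e00f0b001e9b804052007a6801018001ec90042e90075cc00e81c020b00039fb007da200f1f401f4c803e9c007bca01081c01d148039620076f800ef2c01dee803c260075fe00ee9801cd9003b210076460131f8026428043240074ba01356801cc8003d5b0070ae0118a001d29003c9c00737a00eb9c01c68803af300747000eadc01c4b80473c00930001354801b7f0051c30097bc0107c8020b18040a50078b20133d801cc8003b8f0076b600e93401cd4003c380073dc015b2401b6e803e1a0075f000f65401d1700371b00848400d75001bf6803678006c2000cac401b9a003732006dba00d0ac01a1d80323b))))))) 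
(.node (.node (.node (.node (.node (.node 
(.leaf (nat_lit 0x4f5a009eb400fe8401b0b003c91006cd200fab401ace0047ad)) 
(.leaf (nat_lit 0x78ca00e35001b7d003bd100915c0101a001f42004117007fac010e9001f66803b8400a55201297c0230b803ae2006aaa00f26801e9a803bd100915c00fa100208b804068007fac010e9001f66803b8400a55201297c0230b803ae2006aaa00f26801e9a80396a00806400e51401fbf00396a00806400e51401fbf0039b80071c400ed9001e16803ab600756c00eb8c01e49803a2c0081a800e8b00206a003b3a00821200dd7c01f0b00356b00b0d800d86001e6d0060fe007c2400d3c8026a60031a800bab800d5ac0208480375f007c2c0161b001b0c003cda00c1fc00f84801a79004d4c00635001757001c3d00387a00703800d30401a60803277))) 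
(.node 
(.leaf (nat_lit 0x4f5a009eb400fb1c020d0803790009f2a00fc4802927003fa5007fe00118e8029bc004068008e4e00f91401e2e0048d3009a9e0139e4021a5004068)) 
(.leaf (nat_lit 0x13d68027ad00553b00a324013a38028e5004f40)))) (.node (.node 
(.leaf (nat_lit 0x4f5a009eb400e234019330034f90063280103e00190d803c91)) 
(.leaf (nat_lit 0x27ad004f5a006fec00e9c401bd5804dc7))) 
(.leaf (nat_lit 0x13d68027ad0040cc007068012ef401c22804a8d009d5801323001f61004e2f0075620146ec01b6900466c)))) 
(.node (.node (.node 
(.leaf (nat_lit 0x13d68027ad0038b80051f800d444015ed00331a0050e600a0f401541002e0b)) 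
(.leaf (nat_lit 0x9eb4013d6801b00804a5900a78001293802a400059750068780159ac01a26004e9d))) 
(.leaf (nat_lit 0x4f5a009eb400ed34019a000381e007d6c00f0ec01fd580351300746600ea2001d79003900007f0a00f66c01f1c803908008f40012ca00227e0042fd))) 
(.node (.node (.leaf (nat_lit 0x13d68027ad0037620073c200db6401dfd804bb200836600f7400240e8039e0)) 
(.leaf (nat_lit 0x9eb4013d6801e60003c6200878e00f02801ea4803bfd))) 
(.leaf (nat_lit 0x13d68027ad003cc3006de400d63c01ffa80395f00875e012eb001bb900481a00818a012564024e60037ef00961400d52801c8200367200731a00e11001f2a803f51))))) 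
(.node (.node (.node (.node 
(.leaf (nat_lit 0x13d6801a370033de0068c200d86401aed80422800564600cc20018c8802b6a005bfe00ab68017b10031fd)) 
(.leaf (nat_lit 0x27ad004f5a007bde00dae001cc40046e5006d9200faf8025f48050f9))) (.node 
(.leaf (nat_lit 0x3e61007a3801329001d298038010077f000d7bc02375803df6006e6e01273802a150040dd008b340110d8024db0040de00781200f3ac01ed38040f3007dd600ecbc0290b00380b00829800df4801a968035fd00979000e36801bd0003a9100782000e42801cf8003a7f006ff000dd7c01a6f0037f1007a6400d7bc01e1a803782006f5600db1001ff5803dc20076b800f7ac022ee003c8b00780601160401b28003f760071f600fef00248080372300785a01047001e4180387f00915400cf4801d8800370f006ad800da0001caa8034b2)) 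
(.leaf (nat_lit 0x9eb4013d6801d4380382a006036007a9801f22003c06)))) (.node (.node 
(.leaf (nat_lit 0x4f5a009eb401485402aba0057d800a4460161b402e5e80583800b4600161b802bdc005bdf00a97a0164dc02cf4005d6f00bbfe01755402d4e005d7c)) 
(.leaf (nat_lit 0x21470053e800a27c00fec801fca803ff3007fae00f6d0021b7803e2f00baea0104c00210300422900aac2010c200240f8044f600b89c010644020a3003d490068c000fe480226f003a9900828a01122c01eda804d220085d20100e002592003e1a007e7a0108c40212780481d00a7c20100b40205e00504c00825e01029401fcd0041fe008c4c010ee0023790045070093c400fe7801f2a003d64007e880128c0021078048500080cc00fd6401f67003cfd0075cc00eb6401dda803a5d0075e200df9c01f19003cb000809600ec2401de8803930))) 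
(.leaf (nat_lit 0x27ad004f5a00858001045c01f7f803c3000a6c4010420020238059cd0079a80166e801f238043d4)))) 
(.node (.node (.node (.leaf (nat_lit 0x4f5a009eb400dae8019c9803a1100667200efd0019e60043b0)) 
(.leaf (nat_lit 0x27ad004f5a0082c8014e400294880529900b8f600ed2801cf6003448))) 
(.leaf (nat_lit 0x27ad004f5a00814e010be401b47803a450078c401063c02058004b0b00923c00d42c01ab68042cd))) 
(.node (.node 
(.leaf (nat_lit 0x4f5a00739a00c90c01d77803d260071c800edf001a0800322f0074bc00abf40206480375500735a00cfc401d0980395a0077b000e8d401dfa803869006f7c00ea9801c27003944006e6e00afb401c9580364f0076f201034c01c29803de3)) 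
(.leaf (nat_lit 0x13d68027ad003fe9007fc200f51801ac400437100665c011c5801cc2003473))) 
(.leaf (nat_lit 0x13d68027ad00391b008fb400ce5401d64003695)))))) (.node (.node (.node (.node (.node 
(.leaf (nat_lit 0x4f5a009eb40153b80298200534600ac6c0151e402bc0805563)) 
(.leaf (nat_lit 0x27ad004f5a007bde00dae001cc40046e5006d9200faf8025f48050f9))) (.node 
(.leaf (nat_lit 0x13d68027ad0035f6006b0e00eac401c49003b77006cc200e54c019de003b4600765c00d56401e0900341900684800d06401893803c0a00715800f66c01e3c0039710071ce00c220017f4003966)) 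
(.leaf (nat_lit 0x27ad004f5a0079ae00d1a0026ef003744)))) (.node (.node 
(.leaf (nat_lit 0x13d68027ad0037df0069a40104cc01a21804135006d7a00fcfc0178e003506)) 
(.leaf (nat_lit 0x13d68027ad004ce6007fca00f51c02157803d50008ae8011dfc02389004b4b))) 
(.leaf (nat_lit 0x13d68027ad003e380074fc0146ac01dbf00426200ae3800ef9002069803a4f)))) (.node (.node 
(.node (.leaf (nat_lit 0x4f5a009eb400e0b001b300044f6006cc00113d80193d80353c)) 
(.leaf (nat_lit 0x13d68027ad003e990063ca0096cc004590026c20055680061d0019f0802df2))) 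
(.leaf (nat_lit 0x13d68027ad003f490067c401101401c66803df9009ab200e3c80276800344e))) (.node (.node 
(.leaf (nat_lit 0x13d68027ad00393a004592007ff80103000266700435e00820c014c300228c0044580090e4010fc8022a3004ee40088b80133f001ee2003a4c008dc800f1a8021bc)) 
(.leaf (nat_lit 0x13d68027ad0037f90064fe014bc0019718053df0072b600d9580216f803a6a))) 
(.leaf (nat_lit 0xf35401c1f8035c400747600decc01e51803cbd0071c200e3bc01fd0003d97007f2c00fbd4021160058d00074740147f002bc4803b1900747600decc01e51803cbd0071c200e3bc01ecb803f96007f4000fbd402116003a3a00a3f801634002bc4803b1900705800ee1401bd5803b8700705800ee1401bd5803b870071c000e7fc01fd58039ff007f5600f5d80208c003d7600823000f70c0215b803b0500725a00e4b401ca3803b85006da600e95c01a5a004f30006ac000d42001e71803260007c0400d2d0027980036d30074ae00d58001a84003ce30064c000f80801b7e0036fc006d6800cdec019bd8031cb))))) 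
(.node (.node (.node (.node (.leaf (nat_lit 0x4f5a009eb4010a2401e0f8043d7006ad4012cb001b8f00420d)) 
(.leaf (nat_lit 0x87f401025c01eaa0042b1008d2a011450022740048c1008c2e00fce402411804606009b600101c801ec1003f220072b6010150020b7004514008562011a54022740048c1008c2e00fce402411804606009b600101c801ec1003f220072b6010150020b7003f62007cc000fd8801f30003eb2007b4200ff74020420046690081080119a401fe70040f900844400fd0c02281003f43008a0400ff6c01ee0004576007554010a5c023a5803ad4008aa200e52c01b910044ae008aec00eaa80214b803dc0008e9600eb50022a880394b006e440112b80203280423400866a010748022e58040e00082240101940211a0043350083a401172c0207000411200806401115402019004455007fec00ffbc02001804003007ff800ffd801fc08044b5007f020112d401ffc803b9e007d6600f8d4021ca803fbc008cf800eeb801dcf003eb3007c6a010e5401fde00467c00775c00f61801f5d803df7007526011dfc022178043b900850a00fe7c01ec3003ebb007bee00ea4c023bf80442f008772010a1401fcf804015))) 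
(.node 
(.leaf (nat_lit 0x13d68027ad003c6e0066a000dbc00229b80462b0077ce00f5140205680464f0089120118e4024ae803216)) 
(.leaf (nat_lit 0x9eb4013d6801c2280341e00b31000fa2401f6c0035cf)))) (.node (.node 
(.leaf (nat_lit 0x13d68027ad0052b600aee20153cc0303200637d00bf30017bc4031a80058a2)) 
(.leaf (nat_lit 0x1e7b803cbb006d0000e8b401fcb80367100a61c00e94001fa880355700af1e00ed7001b4c003db100829200f7e802047003e5100867000e81c01f94803532007a8200e8a801f8480357900a20000ec9801b2c003a3c00743c00e9a001d190038bb0071de00e6a801ce6003bb6007dda00f76001ea900412c00776200ee2001d18003b17007f4a00f65002024803f3d0085a200eb6c01d5b00395100721200f9ac01c9f803e3600718600da3401b938037890067a800d35001b7400353700690e00c6e001b65003683006c6a00cd1801a9b00314d))) 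
(.leaf (nat_lit 0x13d68027ad003ef300725a00fc1401d3f004b4000757201673402468803f7e007f3800fd2c01e26004ffe)))) 
(.node (.node (.node (.leaf (nat_lit 0x4f5a009eb40100e8018aa003b8c0063b600d86401997003fdc)) 
(.leaf (nat_lit 0x27ad004f5a00789200df50017bc802e0d00770200cf9401aee0036d4))) 
(.leaf (nat_lit 0x13d68027ad0031c90053060088fc01404802944004482009154013038027b10053dc00a3880134b0026d20053d800c5b8017fe002da100618a008b680138e802ae5))) 
(.node (.node 
(.leaf (nat_lit 0x13d68027ad003cc4006ea601029801bf000444100762401550402051003cfd007b6200f4a401d3c805013)) 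
(.leaf (nat_lit 0x13d68027ad0039700073ba00e69c02537803d0d00792200f0c4027ce0039ed00950000dcfc01af3004e5b))) 
(.leaf (nat_lit 0x13d68027ad00391b008fb400ce5401d64003695))))))))))
noncomputable def gt1 : Ix (Nat) := (.node (.node (.node (.node (.node (.node (.node (.node (.node 
(.leaf (nat_lit 0xd6e0027e1803f7a00aa9c01697c02a520050d800a14c01420802892804b5a009bec013b8802706804f57)) 
(.leaf (nat_lit 0x13d68027ad00564d))) (.leaf (nat_lit 0x13d68027ad003576))) (.node 
(.leaf (nat_lit 0x9eb400cec00198f8031460072e400d60001ca780383a)) 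
(.leaf (nat_lit 0x13d68027ad00558a)))) (.node (.node (.leaf (nat_lit 0x9eb4013d6801c14803f54)) 
(.leaf (nat_lit 0x13d68027ad003be2))) (.node (.leaf (nat_lit 0x1ae400346a00657201254c02bba804b26)) 
(.leaf (nat_lit 0x13d68027ad0032a5))))) (.node (.node (.node 
(.leaf (nat_lit 0x9eb4013d6801b36003ff2)) 
(.leaf (nat_lit 0xe21801a3d80323e007ce40113ac01e91003aa50075b600f1b801d4c004e9f009bba011f0001c25003562))) 
(.node (.leaf (nat_lit 0x27ad004f5a006ef800eea401be200492e)) (.leaf (nat_lit 0x13d68027ad004d3f)))) 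
(.node (.node (.leaf (nat_lit 0x9eb4013d6801b048049b2)) (.leaf (nat_lit 0x13d68027ad00346b))) 
(.node (.leaf (nat_lit 0x13d68027ad0035a1)) (.leaf (nat_lit 0x13d68027ad0044a5)))))) (.node (.node 
(.node (.node (.leaf (nat_lit 0x9eb4013d68017c0803ebd)) 
(.leaf (nat_lit 0x4f5a009eb400c1e802501804ac5))) (.node (.leaf (nat_lit 0x9eb4013d6801b15804277)) 
(.leaf (nat_lit 0x13d68027ad00350d)))) (.node (.node (.leaf (nat_lit 0x13d68027ad003abf)) 
(.leaf (nat_lit 0x1c490034ea0060e800f25802c7c803b40))) (.node (.leaf (nat_lit 0x13d68027ad0031f5)) 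
(.leaf (nat_lit 0x4f5a009eb400c0a4023748044d8))))) (.node (.node (.node 
(.leaf (nat_lit 0x9eb4013d6801b06004568)) (.leaf (nat_lit 0x13d68027ad003661))) (.node 
(.leaf (nat_lit 0x9eb4013d68018680023e600605e00b2f801724003079)) 
(.leaf (nat_lit 0x13d68027ad0039d0)))) (.node (.node (.leaf (nat_lit 0x9eb4013d6801c68804c9d)) 
(.leaf (nat_lit 0x9eb4013d6802425805c3b))) (.node 
(.leaf (nat_lit 0x1b0f0034ca00616000fec001f63005305008fc6014e800201c004ff0)) 
(.leaf (nat_lit 0x13d68027ad0043c9))))))) (.node (.node (.node (.node (.node (.node 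
(.leaf (nat_lit 0x9eb4013d6801b70005186)) (.leaf (nat_lit 0x13d68027ad0036ec))) 
(.leaf (nat_lit 0x6c5600cdd40189f003ea900a60600faa402981803b770076ee01404c028098034e7))) (.node 
(.leaf (nat_lit 0x9eb4013d6801b29804d94)) (.leaf (nat_lit 0x13d68027ad0036d3)))) (.node (.node 
(.leaf (nat_lit 0x1ae400346a00657201254c02bba804b26)) (.leaf (nat_lit 0x13d68027ad003afd))) (.node 
(.leaf (nat_lit 0x13d68027ad003abf)) (.leaf (nat_lit 0x13d68027ad004da6))))) (.node (.node (.node 
(.leaf (nat_lit 0x27ad004f5a0068be00b4980164d803954)) 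
(.leaf (nat_lit 0x9eb4013d680182d00439000761000d86001eae80448f))) (.node 
(.leaf (nat_lit 0x9eb4013d6801b36004eff)) (.leaf (nat_lit 0x13d68027ad003efe)))) (.node (.node 
(.leaf (nat_lit 0x9eb4013d6801a428067e7)) 
(.leaf (nat_lit 0x210f8040fa0074ea01169802242004703009172015c78024d9804627))) (.node 
(.leaf (nat_lit 0x9eb4013d68018758054c2)) 
(.leaf (nat_lit 0x705400d0e4018ec003ce800a93800eda801dc0803ca8)))))) (.node (.node (.node (.node 
(.leaf (nat_lit 0x9eb4013d6801abc0042fe)) 
(.leaf (nat_lit 0x9eb4013d680182d00439000761000d86001eae80448f))) (.node 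
(.leaf (nat_lit 0x9eb4013d6801b06004568)) (.leaf (nat_lit 0x13d68027ad003987)))) (.node (.node 
(.leaf (nat_lit 0x9eb4013d6801950004967)) (.leaf (nat_lit 0x13d68027ad003afd))) (.node 
(.leaf (nat_lit 0x1bec0032a6005e940119500232a0046ab)) 
(.leaf (nat_lit 0x7a5e00eb34028af0046fa00af020109c00219c00440d))))) (.node (.node (.node 
(.leaf (nat_lit 0x9eb4013d6801a03004c3d)) 
(.leaf (nat_lit 0xdfc8018fc00312a0079b4013cd001e6d004f34))) (.node 
(.leaf (nat_lit 0x9eb4013d6801b46804882)) (.leaf (nat_lit 0x13d68027ad003510)))) (.node (.node 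
(.leaf (nat_lit 0x13d68027ad003574)) (.leaf (nat_lit 0x9eb4013d6801957804ff3))) (.node 
(.leaf (nat_lit 0x9eb4013d68018758054c2)) (.leaf (nat_lit 0x13d68027ad003ae0)))))))) (.node (.node 
(.node (.node (.node (.node (.node (.leaf (nat_lit 0x9eb4013d68019e60045e5)) 
(.leaf (nat_lit 0x1b380036a6005f2a00f3a8020e2803ca7))) (.leaf (nat_lit 0x13d68027ad003576))) (.node 
(.leaf (nat_lit 0x13d680214a8033ca)) (.leaf (nat_lit 0x13d68027ad004ee4)))) (.node (.node 
(.leaf (nat_lit 0x9eb4013d6801b3d004d28)) (.leaf (nat_lit 0x1c490034ea0060e800f25802c7c803b40))) 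
(.node (.leaf (nat_lit 0x13d6801cab803c63)) (.leaf (nat_lit 0x4f5a009eb400df44025b90053e2))))) 
(.node (.node (.node (.leaf (nat_lit 0x13d68027ad004583)) 
(.leaf (nat_lit 0x9eb4013d680194c804591))) (.node (.leaf (nat_lit 0x13d68027ad003ae3)) 
(.leaf (nat_lit 0x13d68027ad003ea4)))) (.node (.node (.leaf (nat_lit 0x9eb4013d6801b46804882)) 
(.leaf (nat_lit 0x13d68027ad0039c3))) (.node 
(.leaf (nat_lit 0x1b0f0034ca00616000fec001f63005305008fc6014e800201c004ff0)) 
(.leaf (nat_lit 0x13d68027ad0059f2)))))) (.node (.node (.node (.node 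
(.leaf (nat_lit 0x9eb4013d68017ff804529)) 
(.leaf (nat_lit 0xe21801a3d80323e007ce40113ac01e91003aa50075b600f1b801d4c004e9f009bba011f0001c25003562))) 
(.node (.leaf (nat_lit 0x9eb4013d6801ae6804725)) (.leaf (nat_lit 0x13d68027ad00372c)))) (.node 
(.node (.leaf (nat_lit 0x9eb4013d6801b36004eff)) (.leaf (nat_lit 0x13d68027ad00313d))) (.node 
(.leaf (nat_lit 0x13d68027ad0031f5)) (.leaf (nat_lit 0x13d68027ad003cb8))))) (.node (.node (.node 
(.leaf (nat_lit 0x9eb4013d6801db7804166)) (.leaf (nat_lit 0x13d68027ad003661))) (.node 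
(.leaf (nat_lit 0x9eb4013d6801b048049b2)) (.leaf (nat_lit 0x13d68027ad003379)))) (.node (.node 
(.leaf (nat_lit 0x27ad004f5a00586e00f2ac0217c804749)) (.leaf (nat_lit 0x9eb4013d6801a278041a5))) 
(.node (.leaf (nat_lit 0x13d68027ad0036e9)) 
(.leaf (nat_lit 0x1e26003a0b00a158012de402e93004420))))))) (.node (.node (.node (.node (.node 
(.node (.leaf (nat_lit 0x9eb4013d6801d48004ff1)) (.leaf (nat_lit 0x13d68027ad00347d))) 
(.leaf (nat_lit 0x4f5a009eb400c1e802501804ac5))) (.node (.leaf (nat_lit 0x9eb4013d6801b0700467f)) 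
(.leaf (nat_lit 0x13d68027ad003e64)))) (.node (.node (.leaf (nat_lit 0x13d6801cab803c63)) 
(.leaf (nat_lit 0x13d68027ad00313d))) (.node 
(.leaf (nat_lit 0x6fb000cdc4018a1803f7200ac5200fdc802b14803f79)) 
(.leaf (nat_lit 0x1bcb00321b00609800ef7401d90003d2b00744200e2640263880483e))))) (.node (.node 
(.node (.leaf (nat_lit 0x9eb4013d6801b1d00466b)) 
(.leaf (nat_lit 0x70e400cc940187a003c4300919a00f10c02466803b4c))) (.node 
(.leaf (nat_lit 0x9eb4013d6801950004967)) (.leaf (nat_lit 0x13d68027ad0034b4)))) (.node (.node 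
(.leaf (nat_lit 0x9eb4013d6801b70005186)) (.leaf (nat_lit 0x9eb4013d6802078005e49))) (.node 
(.leaf (nat_lit 0x13d68027ad0036e9)) (.leaf (nat_lit 0x13d68027ad002fb8)))))) (.node (.node (.node 
(.node (.leaf (nat_lit 0x9eb4013d68018df003d1f)) (.leaf (nat_lit 0x9eb4013d680194c804591))) (.node 
(.leaf (nat_lit 0x9eb4013d6801ab5004013)) (.leaf (nat_lit 0x13d68027ad00553a)))) (.node (.node 
(.leaf (nat_lit 0x9eb4013d68018680023e600605e00b2f801724003079)) 
(.leaf (nat_lit 0xd940019a18031740077da010fb001da2003b9e))) (.node 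
(.leaf (nat_lit 0x13d68027ad0035a1)) (.leaf (nat_lit 0x13d68027ad003e20))))) (.node (.node (.node 
(.leaf (nat_lit 0x9eb4013d6801b5a004a3f)) (.leaf (nat_lit 0x13d68027ad003be2))) (.node 
(.leaf (nat_lit 0x9eb4013d6801b3d004d28)) (.leaf (nat_lit 0x13d68027ad00326d)))) (.node (.node 
(.leaf (nat_lit 0x1c26003f8e006b3c00ee9801e2b003eae00782a010ae801e8c003bbe)) 
(.leaf (nat_lit 0x9eb4013d68018b1004be9))) (.node 
(.leaf (nat_lit 0x6d5800d284018c7803e31009a6a00f8c40269a803d0f)) 
(.leaf (nat_lit 0x13d68027ad0044a1))))))))) (.node (.node (.node (.node (.node (.node (.node (.node 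
(.leaf (nat_lit 0x9eb4013d6801a428067e7)) (.leaf (nat_lit 0x13d68027ad003efe))) 
(.leaf (nat_lit 0x13d68027ad00352b))) (.node (.leaf (nat_lit 0x9eb4013d6801b36003ff2)) 
(.leaf (nat_lit 0x13d68027ad003e20)))) (.node (.node (.leaf (nat_lit 0x9eb4013d6801c1a004790)) 
(.leaf (nat_lit 0x13d68027ad003e98))) (.node (.leaf (nat_lit 0x13d68027ad003f12)) 
(.leaf (nat_lit 0x210f8040fa0074ea01169802242004703009172015c78024d9804627))))) (.node (.node 
(.node (.leaf (nat_lit 0x9eb4013d6801b29804d94)) (.leaf (nat_lit 0x9eb4013d6801a830047e5))) (.node 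
(.leaf (nat_lit 0x9eb4013d6801c14803f54)) (.leaf (nat_lit 0x13d68027ad0044a1)))) (.node (.node 
(.leaf (nat_lit 0x9eb4013d6801a950033370079f200f4b801f80803865)) 
(.leaf (nat_lit 0x13d68027ad0032a5))) (.node (.leaf (nat_lit 0x13d68027ad003143)) 
(.leaf (nat_lit 0x13d68027ad0036d3)))))) (.node (.node (.node (.node 
(.leaf (nat_lit 0x27ad004f5a00586e00f2ac0217c804749)) (.leaf (nat_lit 0x9eb4013d680193c0058a7))) 
(.node (.leaf (nat_lit 0x9eb4013d6801b1d00466b)) (.leaf (nat_lit 0x13d68027ad0043c9)))) (.node 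
(.node (.leaf (nat_lit 0x9eb4013d6801ad60046d2)) (.leaf (nat_lit 0x13d68027ad003771))) (.node 
(.leaf (nat_lit 0x13d68027ad003929)) (.leaf (nat_lit 0x9eb4013d68018b1004be9))))) (.node (.node 
(.node (.leaf (nat_lit 0x9eb4013d6801b73004102)) (.leaf (nat_lit 0x13d68027ad00377e))) (.node 
(.leaf (nat_lit 0x27ad0037bd00737000f1c401e770036c0)) (.leaf (nat_lit 0x13d68027ad0036ec)))) (.node 
(.node (.leaf (nat_lit 0x9eb4013d6801d48004ff1)) 
(.leaf (nat_lit 0x1bcb00321b00609800ef7401d90003d2b00744200e2640263880483e))) (.node 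
(.leaf (nat_lit 0x9eb4013d6801a5f804f4f)) (.leaf (nat_lit 0x13d68027ad00372c))))))) (.node (.node 
(.node (.node (.node (.node (.leaf (nat_lit 0x9eb4013d6801c68804c9d)) 
(.leaf (nat_lit 0x13d68027ad003379))) (.leaf (nat_lit 0x9eb4013d6801a4b004e61))) (.node 
(.leaf (nat_lit 0x27ad004f5a0068be00b4980164d803954)) (.leaf (nat_lit 0x13d68027ad0059f2)))) (.node 
(.node (.leaf (nat_lit 0x13d68027ad003f12)) (.leaf (nat_lit 0x13d68027ad0036b1))) (.node 
(.leaf (nat_lit 0x9eb4013d6801ad60046d2)) (.leaf (nat_lit 0x9eb4013d6802078005e49))))) (.node 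
(.node (.node (.leaf (nat_lit 0x9eb4013d6801b0700467f)) (.leaf (nat_lit 0x9eb4013d68018bb004f01))) 
(.node (.leaf (nat_lit 0x9eb4013d6801c948044f3)) 
(.leaf (nat_lit 0x1b380036a6005f2a00f3a8020e2803ca7)))) (.node (.node 
(.leaf (nat_lit 0x9eb4013d68019e60045e5)) (.leaf (nat_lit 0x13d68027ad004da6))) (.node 
(.leaf (nat_lit 0x9eb4013d68018b98057a3)) (.leaf (nat_lit 0x13d68027ad00350d)))))) (.node (.node 
(.node (.node (.leaf (nat_lit 0x13d680214a8033ca)) (.leaf (nat_lit 0x9eb4013d68018bb004f01))) 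
(.node (.leaf (nat_lit 0x9eb4013d6801db7804166)) 
(.leaf (nat_lit 0x1e26003a0b00a158012de402e93004420)))) (.node (.node 
(.leaf (nat_lit 0xe1f001a69003407007624012ee801dc8803a00006cf200f11c01b548035b400732800e04801b508036ef)) 
(.leaf (nat_lit 0x13d68027ad0036b1))) (.node (.leaf (nat_lit 0x13d68027ad00357b)) 
(.leaf (nat_lit 0x13d68027ad00558a))))) (.node (.node (.node (.leaf (nat_lit 0x13d68027ad003ae3)) 
(.leaf (nat_lit 0x13d68027ad0036e7))) (.node (.leaf (nat_lit 0x9eb4013d6801c1a004790)) 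
(.leaf (nat_lit 0x13d68027ad0039c3)))) (.node (.node (.leaf (nat_lit 0x9eb4013d68017c0803ebd)) 
(.leaf (nat_lit 0x4f5a009eb400c0a4023748044d8))) (.node (.leaf (nat_lit 0x9eb4013d68018b98057a3)) 
(.leaf (nat_lit 0x13d68027ad004d3f)))))))) (.node (.node (.node (.node (.node (.node (.node 
(.leaf (nat_lit 0x9eb4013d6801ad9004d83)) (.leaf (nat_lit 0x13d68027ad0034b4))) 
(.leaf (nat_lit 0x13d68027ad00352b))) (.node (.leaf (nat_lit 0x9eb4013d68018df003d1f)) 
(.leaf (nat_lit 0x13d68027ad0044a5)))) (.node (.node (.leaf (nat_lit 0x9eb4013d6801a8c804e49)) 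
(.leaf (nat_lit 0x13d68027ad003771))) (.node (.leaf (nat_lit 0x13d68027ad003d30)) 
(.leaf (nat_lit 0x9eb4013d6802425805c3b))))) (.node (.node (.node 
(.leaf (nat_lit 0x9eb4013d6801b15804277)) (.leaf (nat_lit 0x9eb4013d68019d4804d93))) (.node 
(.leaf (nat_lit 0x9eb4013d6801b5a004a3f)) (.leaf (nat_lit 0x13d68027ad00564d)))) (.node (.node 
(.leaf (nat_lit 0xd6e0027e1803f7a00aa9c01697c02a520050d800a14c01420802892804b5a009bec013b8802706804f57)) 
(.leaf (nat_lit 0x13d68027ad00326d))) (.node (.leaf (nat_lit 0x9eb4013d6801a5f804f4f)) 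
(.leaf (nat_lit 0x13d68027ad003e64)))))) (.node (.node (.node (.node 
(.leaf (nat_lit 0x1c26003f8e006b3c00ee9801e2b003eae00782a010ae801e8c003bbe)) 
(.leaf (nat_lit 0x9eb4013d6801a830047e5))) (.node (.leaf (nat_lit 0x9eb4013d6801b73004102)) 
(.leaf (nat_lit 0x13d68027ad002fb8)))) (.node (.node (.leaf (nat_lit 0x9eb4013d6801c948044f3)) 
(.leaf (nat_lit 0x13d68027ad003fef))) (.node (.leaf (nat_lit 0x13d68027ad003929)) 
(.leaf (nat_lit 0x9eb4013d6801957804ff3))))) (.node (.node (.node 
(.leaf (nat_lit 0x9eb4013d6801ab5004013)) (.leaf (nat_lit 0x13d68027ad00377e))) (.node 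
(.leaf (nat_lit 0x9eb4013d6801a950033370079f200f4b801f80803865)) 
(.leaf (nat_lit 0xd940019a18031740077da010fb001da2003b9e)))) (.node (.node 
(.leaf (nat_lit 0x9eb4013d68017ff804529)) (.leaf (nat_lit 0x13d68027ad003cb8))) (.node 
(.leaf (nat_lit 0x9eb4013d68018d30058cb)) (.leaf (nat_lit 0x13d68027ad00553a))))))) (.node (.node 
(.node (.node (.node (.node (.leaf (nat_lit 0x13d68027ad003574)) 
(.leaf (nat_lit 0x13d68027ad0039d0))) (.leaf (nat_lit 0x9eb4013d680193c0058a7))) (.node 
(.leaf (nat_lit 0x13d68027ad004583)) 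
(.leaf (nat_lit 0x705400d0e4018ec003ce800a93800eda801dc0803ca8)))) (.node (.node 
(.leaf (nat_lit 0x13d68027ad003d30)) (.leaf (nat_lit 0x13d68027ad003fef))) (.node 
(.leaf (nat_lit 0x13d68027ad003669)) (.leaf (nat_lit 0x9eb4013d6801a278041a5))))) (.node (.node 
(.node (.leaf (nat_lit 0x9eb4013d6801ae6804725)) (.leaf (nat_lit 0x13d68027ad0036db))) (.node 
(.leaf (nat_lit 0xe1f001a69003407007624012ee801dc8803a00006cf200f11c01b548035b400732800e04801b508036ef)) 
(.leaf (nat_lit 0x13d68027ad00347d)))) (.node (.node (.leaf (nat_lit 0x9eb4013d6801ad9004d83)) 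
(.leaf (nat_lit 0x4f5a009eb400df44025b90053e2))) (.node (.leaf (nat_lit 0x9eb4013d68018d30058cb)) 
(.leaf (nat_lit 0x13d68027ad003987)))))) (.node (.node (.node (.node 
(.leaf (nat_lit 0x9eb400cec00198f8031460072e400d60001ca780383a)) 
(.leaf (nat_lit 0x9eb4013d68019d4804d93))) (.node (.leaf (nat_lit 0x9eb4013d6801a03004c3d)) 
(.leaf (nat_lit 0x13d68027ad003ae0)))) (.node (.node 
(.leaf (nat_lit 0x27ad0037bd00737000f1c401e770036c0)) (.leaf (nat_lit 0x13d68027ad003510))) (.node 
(.leaf (nat_lit 0x13d68027ad003143)) (.leaf (nat_lit 0x13d68027ad004ee4))))) (.node (.node (.node 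
(.leaf (nat_lit 0x27ad004f5a006ef800eea401be200492e)) (.leaf (nat_lit 0x13d68027ad003e98))) (.node 
(.leaf (nat_lit 0x9eb4013d6801a8c804e49)) (.leaf (nat_lit 0x13d68027ad00346b)))) (.node (.node 
(.leaf (nat_lit 0x9eb4013d6801abc0042fe)) 
(.leaf (nat_lit 0x7a5e00eb34028af0046fa00af020109c00219c00440d))) (.node 
(.leaf (nat_lit 0x13d68027ad003553)) (.leaf (nat_lit 0x13d68027ad003ea4))))))))))
noncomputable def gt2 : Ix (Nat) := (.node (.node (.node (.node (.node (.node 
(.leaf (nat_lit 0xfba401de60035d3008c900113140222380446e0089ce010ab4021c50042cc00824e01007c02022004ba00084720107b4021668051820085520132a401fea803f4f)) 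
(.leaf (nat_lit 0x13d68027ad0034e9))) (.leaf (nat_lit 0x13d68027ad0062cd))) (.node 
(.leaf (nat_lit 0x9eb4013d6801b60802cf3005c8600c12001ef5003fc1)) 
(.leaf (nat_lit 0x13d68027ad004d28)))) (.node (.node 
(.leaf (nat_lit 0x4f5a009eb400e784034fe805d16)) (.leaf (nat_lit 0x13d68027ad0046db))) (.node 
(.leaf (nat_lit 0x27ad004f5a00650400e44401bbe8035b10065d600f25c01adf803982)) 
(.leaf (nat_lit 0x13d68021e50039e0))))) (.node (.node (.node (.node 
(.leaf (nat_lit 0x9eb4013d6801819003bdd0078dc011050022ad80432d)) 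
(.leaf (nat_lit 0x13d68027ad003882))) (.leaf (nat_lit 0x13d68027ad0042d0))) (.node 
(.leaf (nat_lit 0x27ad0031c7005f2e01184801f1d003c6d)) (.leaf (nat_lit 0x13d68027ad0041ea)))) (.node 
(.node (.leaf (nat_lit 0x4f5a009eb400e24c026810048e4)) (.leaf (nat_lit 0x13d68027ad004198))) (.node 
(.leaf (nat_lit 0x9eb4013d68019268021b8007dac00be14020e1003c44)) 
(.leaf (nat_lit 0x13d68027ad003ca6)))))) (.node (.node (.node (.node (.node 
(.leaf (nat_lit 0x9eb4013d6801ba5805c4200c212016bd402ed8805e6b)) 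
(.leaf (nat_lit 0x13d68027ad004889))) (.leaf (nat_lit 0x13d68027ad004b87))) (.node 
(.leaf (nat_lit 0xe21401a0f8030df00818e00f2580208f803a260074ee00e5d001f48803ad200462600bec8015da00353f00733800e74001d08803491)) 
(.leaf (nat_lit 0x13d68027ad004b58)))) (.node (.node 
(.leaf (nat_lit 0x4f5a009eb400e0f80230a00462d)) (.leaf (nat_lit 0x13d68027ad004904))) (.node 
(.leaf (nat_lit 0x27ad004f5a0052fa00a4c00175f001dfb005db000cfc001ac68032b1)) 
(.leaf (nat_lit 0x13d6801ce50031b8))))) (.node (.node (.node (.node 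
(.leaf (nat_lit 0x13d68027ad00307c00718800f1e4021b8003c6e)) (.leaf (nat_lit 0x13d68027ad00468c))) 
(.leaf (nat_lit 0x13d68027ad004a67))) (.node 
(.leaf (nat_lit 0x9eb4013d6801a698041bc0087aa010268021d2003c45)) 
(.leaf (nat_lit 0x357100718200c09802138803b7b0081140110940201080397c)))) (.node (.node 
(.leaf (nat_lit 0x4f5a009eb400db2001dc5803b36)) (.leaf (nat_lit 0x13d68027ad004a5a))) (.node 
(.leaf (nat_lit 0xee10025210047d100ad30010eb002ef300619300b3880159780235e005b3f)) 
(.leaf (nat_lit 0x13d68027ad003f6e)))))))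
noncomputable def gt3 : Ix (Nat) := (.node (.node (.node (.node (.node (.node 
(.leaf (nat_lit 0xfba401de60035d3008c900113140222380446e0089ce010ab4021c50042cc00824e01007c02022004ba00084720107b4021668051820085520132a401fea803f4f)) 
(.leaf (nat_lit 0x13d68027ad0034e9))) (.leaf (nat_lit 0x13d68027ad0062cd))) (.node 
(.leaf (nat_lit 0x9eb4013d6801b60802cf3005c8600c12001ef5003fc1)) 
(.leaf (nat_lit 0x13d68027ad004d28)))) (.node (.node 
(.leaf (nat_lit 0x4f5a009eb400e784034fe805d16)) (.leaf (nat_lit 0x13d68027ad0046db))) (.node 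
(.leaf (nat_lit 0x27ad004f5a00650400e44401bbe8035b10065d600f25c01adf803982)) 
(.leaf (nat_lit 0x13d68021e50039e0))))) (.node (.node (.node (.node 
(.leaf (nat_lit 0x9eb4013d6801819003bdd0078dc011050022ad80432d)) 
(.leaf (nat_lit 0x13d68027ad003882))) (.leaf (nat_lit 0x13d68027ad0042d0))) (.node 
(.leaf (nat_lit 0x27ad0031c7005f2e01184801f1d003c6d)) (.leaf (nat_lit 0x13d68027ad0041ea)))) (.node 
(.node (.leaf (nat_lit 0x4f5a009eb400e24c026810048e4)) (.leaf (nat_lit 0x13d68027ad004198))) (.node 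
(.leaf (nat_lit 0x9eb4013d68019268021b8007dac00be14020e1003c44)) 
(.leaf (nat_lit 0x13d68027ad003ca6)))))) (.node (.node (.node (.node (.node 
(.leaf (nat_lit 0x9eb4013d6801ba5805c4200c212016bd402ed8805e6b)) 
(.leaf (nat_lit 0x13d68027ad004889))) (.leaf (nat_lit 0x13d68027ad004b87))) (.node 
(.leaf (nat_lit 0xe21401a0f8030df00818e00f2580208f803a260074ee00e5d001f48803ad200462600bec8015da00353f00733800e74001d08803491)) 
(.leaf (nat_lit 0x13d68027ad004b58)))) (.node (.node 
(.leaf (nat_lit 0x4f5a009eb400e0f80230a00462d)) (.leaf (nat_lit 0x13d68027ad004904))) (.node 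
(.leaf (nat_lit 0x27ad004f5a0052fa00a4c00175f001dfb005db000cfc001ac68032b1)) 
(.leaf (nat_lit 0x13d6801ce50031b8))))) (.node (.node (.node (.node 
(.leaf (nat_lit 0x13d68027ad00307c00718800f1e4021b8003c6e)) (.leaf (nat_lit 0x13d68027ad00468c))) 
(.leaf (nat_lit 0x13d68027ad004a67))) (.node 
(.leaf (nat_lit 0x9eb4013d6801a698041bc0087aa010268021d2003c45)) 
(.leaf (nat_lit 0x357100718200c09802138803b7b0081140110940201080397c)))) (.node (.node 
(.leaf (nat_lit 0x4f5a009eb400db2001dc5803b36)) (.leaf (nat_lit 0x13d68027ad004a5a))) (.node 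
(.leaf (nat_lit 0xee10025210047d100ad30010eb002ef300619300b3880159780235e005b3f)) 
(.leaf (nat_lit 0x13d68027ad003f6e)))))))
noncomputable def gt4 : Ix (Nat) := (.node (.node (.node (.node (.node 
(.leaf (nat_lit 0xef4401bfd80371000896a0160a80225a80582a)) 
(.leaf (nat_lit 0x9eb4013d680182200472e))) (.leaf (nat_lit 0x4f5a009eb400d13403472805ed9))) (.node 
(.node (.leaf (nat_lit 0x13d68027ad00543c)) (.leaf (nat_lit 0x9eb4013d68011e5802ed0))) 
(.leaf (nat_lit 0x9eb4013d6801b9e8063ff)))) (.node (.node (.node 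
(.leaf (nat_lit 0x13d68027ad00543c)) (.leaf (nat_lit 0x4f5a009eb400a9d001d66803950))) 
(.leaf (nat_lit 0x9eb4013d680149a804046))) (.node (.node (.leaf (nat_lit 0x9eb4013d6801a6c00624d)) 
(.leaf (nat_lit 0x9eb4013d68015ff004047))) 
(.leaf (nat_lit 0x368f006aa600bb8c01fe78046f3007a3e011e08021e1003d7f00764c01458c01e2c00381e))))) 
(.node (.node (.node (.node (.leaf (nat_lit 0x13d68027ad005260)) 
(.leaf (nat_lit 0x4f5a009eb400d13403472805ed9))) (.leaf (nat_lit 0x4f5a009eb400a9d001d66803950))) 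
(.node (.node 
(.leaf (nat_lit 0x368f006aa600bb8c01fe78046f3007a3e011e08021e1003d7f00764c01458c01e2c00381e)) 
(.leaf (nat_lit 0x9eb4013d6801b9e8063ff))) (.leaf (nat_lit 0x9eb4013d68015ff004047)))) (.node 
(.node (.node (.leaf (nat_lit 0x13d68027ad005260)) (.leaf (nat_lit 0x9eb4013d680149a804046))) 
(.leaf (nat_lit 0x9eb4013d68011e5802ed0))) (.node (.leaf (nat_lit 0x9eb4013d680182200472e)) 
(.leaf (nat_lit 0x9eb4013d6801a6c00624d))))))
noncomputable def gt5 : Ix (Nat) := (.node (.node (.node (.node (.node 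
(.leaf (nat_lit 0xd4a001a6900355a00838601685402bc880554200a4f400e6100201780521e)) 
(.leaf (nat_lit 0x13d68027ad00381a))) (.leaf (nat_lit 0x13d68027ad002aaf))) (.node 
(.leaf (nat_lit 0x13d68027ad003ef2)) 
(.leaf (nat_lit 0x9eb4013d68019be803bc8008e66011674016c4003b41)))) (.node (.node (.node 
(.leaf (nat_lit 0x13d68027ad003798)) (.leaf (nat_lit 0x13d68027ad004f16))) 
(.leaf (nat_lit 0x9eb4013d68019d580657200b31601636c02a0c803c53))) (.node 
(.leaf (nat_lit 0x13d68027ad002a19)) 
(.leaf (nat_lit 0xeee401cc300358b008fc20118f40274400411c00aa84011764028a18041b4))))) (.node (.node 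
(.node (.node (.leaf (nat_lit 0x13d68027ad003f02)) (.leaf (nat_lit 0x13d68027ad005808))) 
(.leaf (nat_lit 0xea9001dfc00336f00aa2c010d2401fd5003f2c007dae00f79401f67803eb6007ba200f1a801e20005dc3007c8c00f7ec01ecc8045260078aa00eac0026978038e7))) 
(.node (.leaf (nat_lit 0x13d68027ad003881)) (.leaf (nat_lit 0x4f5a009eb400d05802ebf003d2c)))) 
(.node (.node (.leaf (nat_lit 0x13d68027ad00520e)) 
(.leaf (nat_lit 0x9eb4013d6801625803c0000842e00c7cc01cd6803725))) (.node 
(.leaf (nat_lit 0x13d68027ad0046f1)) (.leaf (nat_lit 0x13d68027ad0043d6))))))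
noncomputable def gt6 : Ix (Nat) := (.node (.node (.node (.node (.node 
(.leaf (nat_lit 0xd4a001a6900355a00838601685402bc880554200a4f400e6100201780521e)) 
(.leaf (nat_lit 0x13d68027ad004f16))) (.leaf (nat_lit 0x13d68027ad002aaf))) (.node 
(.leaf (nat_lit 0x13d68027ad003ef2)) 
(.leaf (nat_lit 0x9eb4013d68019be803bc8008e66011674016c4003b41)))) (.node (.node (.node 
(.leaf (nat_lit 0x13d68027ad003798)) (.leaf (nat_lit 0x13d68027ad00381a))) 
(.leaf (nat_lit 0x9eb4013d68019d580657200b31601636c02a0c803c53))) (.node 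
(.leaf (nat_lit 0x13d68027ad002a19)) 
(.leaf (nat_lit 0xeee401cc300358b008fc20118f40274400411c00aa84011764028a18041b4))))) (.node (.node 
(.node (.node (.leaf (nat_lit 0x13d68027ad003f02)) (.leaf (nat_lit 0x13d68027ad0043d6))) 
(.leaf (nat_lit 0xea9001dfc00336f00aa2c010d2401fd5003f2c007dae00f79401f67803eb6007ba200f1a801e20005dc3007c8c00f7ec01ecc8045260078aa00eac0026978038e7))) 
(.node (.leaf (nat_lit 0x13d68027ad003881)) (.leaf (nat_lit 0x4f5a009eb400d05802ebf003d2c)))) 
(.node (.node (.leaf (nat_lit 0x13d68027ad00520e)) 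
(.leaf (nat_lit 0x9eb4013d6801625803c0000842e00c7cc01cd6803725))) (.node 
(.leaf (nat_lit 0x13d68027ad0046f1)) (.leaf (nat_lit 0x13d68027ad005808))))))
noncomputable def gt7 : Ix (Nat) := (.node (.node (.node (.node (.node (.node (.node (.node (.node 
(.leaf (nat_lit 0x3a8f00955c012c6c02f5680593f00b09001024c02a15003ede009ca4014964027dd004dda00a516015afc01cc3804f1d00a8a8014b6002a16004db2)) 
(.leaf (nat_lit 0xf8e801e94803b76008cbe01142802abe004ff4009e88011df8023260042a7))) 
(.leaf (nat_lit 0x77ba00e1b801a238040ed00820600f39c0272e8049b700804601455801d4b0049b4))) (.node 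
(.leaf (nat_lit 0x13d68027ad0040f1)) (.leaf (nat_lit 0x13d68027ad003e51)))) (.node (.node 
(.leaf (nat_lit 0x27ad004f5a006bf401586801cee804961)) (.leaf (nat_lit 0x13d68027ad0046b0))) (.node 
(.leaf (nat_lit 0x13d68027ad003c8c)) (.leaf (nat_lit 0x13d68027ad003d9b))))) (.node (.node (.node 
(.node (.leaf (nat_lit 0x9eb4013d68016bc803c36006c9a00ef9401bd7803c3c)) 
(.leaf (nat_lit 0x4f5a009eb400d3f000a638033de))) (.leaf (nat_lit 0x13d68027ad003bab))) (.node 
(.leaf (nat_lit 0x13d68027ad003831)) (.leaf (nat_lit 0x13d68027ad003f14)))) (.node (.node 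
(.leaf (nat_lit 0x27ad003088005da400e51801c37803982)) 
(.leaf (nat_lit 0x424b00825400e88c02402004828008e5201232c021f780459b009d120136c4024748042df))) 
(.node (.leaf (nat_lit 0x13d68027ad003b8b)) (.leaf (nat_lit 0x13d68027ad00446f)))))) (.node (.node 
(.node (.node (.node (.leaf (nat_lit 0x4f5a009eb400cf9c0280f804cd3)) 
(.leaf (nat_lit 0xf71801c3700385900833601050c0272d00441e00a74c0136c401f8e803fee))) 
(.leaf (nat_lit 0x13d68027ad00401a))) (.node (.leaf (nat_lit 0x13d68027ad0041c5)) 
(.leaf (nat_lit 0x13d68027ad0041ec)))) (.node (.node 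
(.leaf (nat_lit 0x4f5a009eb400de2c028eb8043fc)) (.leaf (nat_lit 0x13d68027ad004373))) (.node 
(.leaf (nat_lit 0x13d68027ad00459a)) (.leaf (nat_lit 0x13d68027ad0042e9))))) (.node (.node (.node 
(.node (.leaf (nat_lit 0x9eb4013d68018f680496f)) (.leaf (nat_lit 0x9eb4013d6801b43804c36))) 
(.leaf (nat_lit 0xf55401ba8803657007f8001017401fd2803e2c007d6e00f14801f4e005358007be60138f001f6a0056d6007ee000faa0023b0803c7f0077d600f5a401e16804d5a008f7e0127b002737004917))) 
(.node (.leaf (nat_lit 0x13d68027ad004603)) (.leaf (nat_lit 0x13d68027ad003b84)))) (.node (.node 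
(.leaf (nat_lit 0x13d68027ad004585)) (.leaf (nat_lit 0x9eb4013d68019c500599c))) (.node 
(.leaf (nat_lit 0x13d68027ad003b73)) (.leaf (nat_lit 0x9eb4013d68020c2004b4d))))))) (.node (.node 
(.node (.node (.node (.node 
(.leaf (nat_lit 0x27ad004f5a0065b8010268020560045c8009470012560023838038ce)) 
(.leaf (nat_lit 0x13d68027ad0039b8))) (.leaf (nat_lit 0x9eb4013d68019e0804ff3))) (.node 
(.leaf (nat_lit 0x13d68027ad003e83)) (.leaf (nat_lit 0x13d68027ad00399f)))) (.node (.node 
(.leaf (nat_lit 0x27ad004f5a009d2e01092c01ffa004e0e)) 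
(.leaf (nat_lit 0xf60401c8c0037640084120106140298000545a007e4c00ff0c01fbd003fdc))) (.node 
(.leaf (nat_lit 0x13d68027ad003f73)) (.leaf (nat_lit 0x13d68027ad0042be))))) (.node (.node (.node 
(.node (.leaf (nat_lit 0x27ad004f5a005cf200f65401ef3803b1f)) 
(.leaf (nat_lit 0x4f5a009eb400f29002a2d8058f5))) (.leaf (nat_lit 0x13d68027ad004332))) (.node 
(.leaf (nat_lit 0x4f5a00614800d1a40204e003f1b)) (.leaf (nat_lit 0x13d68027ad00410d)))) (.node 
(.node (.leaf (nat_lit 0x27ad004f5a007472010fc002006805711)) 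
(.leaf (nat_lit 0x9eb4013d68025eb805a90))) (.node 
(.leaf (nat_lit 0x34eb00633600d4e0025008046500078c800e7b002302804576)) 
(.leaf (nat_lit 0x13d68027ad003e7f)))))) (.node (.node (.node (.node (.node 
(.leaf (nat_lit 0xc45801751802c2500814e00dbe802210003792007d5400c23c017d6002ece005f3400b9c4018cd002ecd00633200cdd4019d3802dcc)) 
(.leaf (nat_lit 0x13d68027ad003f1e))) 
(.leaf (nat_lit 0x3c3f006d0a00d9b8020130040b500b1d00168d80207c804026))) (.node 
(.leaf (nat_lit 0x13d68027ad003318)) (.leaf (nat_lit 0x13d68027ad004ff3)))) (.node (.node 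
(.leaf (nat_lit 0x4f5a009eb400c01801cb0003a4c)) (.leaf (nat_lit 0x13d68027ad0042a9))) (.node 
(.leaf (nat_lit 0x13d68027ad0041d3)) (.leaf (nat_lit 0x13d68027ad003c5c))))) (.node (.node (.node 
(.leaf (nat_lit 0x27ad004f5a00635600691000f42801d65004af200a4e80194f002fee)) 
(.leaf (nat_lit 0x13d68027ad00312b00852001175c01f2e003de20089a801104c01ccc004492))) (.node 
(.leaf (nat_lit 0x13d68027ad003d57)) (.leaf (nat_lit 0x13d68027ad00408c)))) (.node (.node 
(.leaf (nat_lit 0x27ad004f5a006ecc014e1001d70804969)) (.leaf (nat_lit 0x13d68027ad0058f4))) (.node 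
(.leaf (nat_lit 0x13d68027ad003e43)) 
(.leaf (nat_lit 0x27ad004f5a0066060076cc01dd3803ee900818a00e8b001e4e8033fb0057b200e64801cee003aef)))))))) 
(.node (.node (.node (.node (.node (.node (.node 
(.leaf (nat_lit 0x27ad004f5a00610600bb44016720036b0007fda011e700256c003686)) 
(.leaf (nat_lit 0x13d68027ad003ec0))) (.leaf (nat_lit 0x13d68027ad003e72))) (.node 
(.leaf (nat_lit 0x13d68027ad004553)) (.leaf (nat_lit 0x13d68027ad004199)))) (.node (.node 
(.leaf (nat_lit 0x4f5a009eb400dbec021b0804497)) (.leaf (nat_lit 0x13d68027ad0041db))) (.node 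
(.leaf (nat_lit 0x13d68027ad003c51)) (.leaf (nat_lit 0x13d68027ad0046b5))))) (.node (.node (.node 
(.node (.leaf (nat_lit 0x9eb4013d68017608035e400721800ee6401cb5003787)) 
(.leaf (nat_lit 0x9eb4013d6801b378041fd))) 
(.leaf (nat_lit 0x1e74003a5e006ebc014ac8020ab004b1b0081540144a80273e8040cc))) (.node 
(.leaf (nat_lit 0x3984006c8a00eb2401ee300418900919e01412001ffc803e5e)) 
(.leaf (nat_lit 0x13d68027ad004563)))) (.node (.node 
(.leaf (nat_lit 0x9eb4013d6801afa00538a00a69200e534025568047a7)) 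
(.leaf (nat_lit 0x9eb4013d680217a8064cf))) (.node (.leaf (nat_lit 0x13d68027ad003a0f)) 
(.leaf (nat_lit 0x13d68027ad003c33)))))) (.node (.node (.node (.node (.node 
(.leaf (nat_lit 0x4f5a009eb400d3140238b0048c3)) (.leaf (nat_lit 0x13d68027ad0050a9))) 
(.leaf (nat_lit 0x13d68027ad004098))) (.node (.leaf (nat_lit 0x13d6801eca0036a3)) 
(.leaf (nat_lit 0x13d68027ad005960)))) (.node (.node 
(.leaf (nat_lit 0x27ad004f5a006fee010b3c01f11804866)) 
(.leaf (nat_lit 0xeaf801bf18033220082220105ac02ca70063e9))) (.node 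
(.leaf (nat_lit 0x13d68027ad00493d)) (.leaf (nat_lit 0x13d68027ad003ddb))))) (.node (.node (.node 
(.node (.leaf (nat_lit 0x4f5a009eb400c09001d5e803ecc)) 
(.leaf (nat_lit 0x13d68027ad0030ec00839e01030c0228c8037560080120107ac01ce4803c6b))) 
(.leaf (nat_lit 0x13d68027ad005040))) (.node (.leaf (nat_lit 0x13d68027ad003eaa)) 
(.leaf (nat_lit 0x13d68027ad0034b4)))) (.node (.node (.leaf (nat_lit 0x13d68027ad0049bf)) 
(.leaf (nat_lit 0x9eb4013d6801c2f805aef))) (.node 
(.leaf (nat_lit 0xf1fc0223080331000a852010250020a1003ff1)) 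
(.leaf (nat_lit 0xf17401b7b00339d0081b60105e80247e803f2d007c4800f0cc01f3f803ea7007d0a01067001ebd80511e00a83e00f37c01ecf803ba10084be00f11001e620039d2))))))) 
(.node (.node (.node (.node (.node (.node (.leaf (nat_lit 0x4f5a009eb400d444038a08063e2)) 
(.leaf (nat_lit 0x13d68027ad00583b))) (.leaf (nat_lit 0xef480283480347b0082c80103ac027048040c6))) 
(.node (.leaf (nat_lit 0x13d68027ad004292)) (.leaf (nat_lit 0x13d68027ad0037e5)))) (.node (.node 
(.leaf (nat_lit 0x27ad004f5a006a90014b780267c004ac2)) (.leaf (nat_lit 0x13d68027ad0052b3))) (.node 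
(.leaf (nat_lit 0x13d68027ad004f6f)) (.leaf (nat_lit 0x13d68027ad00505b))))) (.node (.node (.node 
(.node (.leaf (nat_lit 0x4f5a009eb400d35001807804747)) 
(.leaf (nat_lit 0xf40801c3800382f0082f801073c02a6e803dd7008bfa00f70801e3080562c008b22015050029a68039c20096200147a40276b00388c))) 
(.leaf (nat_lit 0x13d68027ad004d14))) (.node (.leaf (nat_lit 0x13d680210480392c)) 
(.leaf (nat_lit 0x13d68027ad00553c)))) (.node (.node 
(.leaf (nat_lit 0x27ad004f5a00652c016c5c01d798052a7)) (.leaf (nat_lit 0x9eb4013d6801b31805bdc))) 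
(.node (.leaf (nat_lit 0x13d6801a490032db)) 
(.leaf (nat_lit 0x27ad004f5a0074cc007ce8010a1002ffc005a0e00df8800dff003261006e0200a88002032003ff2)))))) 
(.node (.node (.node (.node (.node (.leaf (nat_lit 0x27ad0026d700506800c1cc01820802d89)) 
(.leaf (nat_lit 0xf9d001caa8037a9008cfc01128c028c30041dd00a544010d30021e60054fc00971001026402b1a8042a4008b720136fc01f93803cb1))) 
(.leaf (nat_lit 0x13d68027ad003cef))) (.node (.leaf (nat_lit 0x13d68027ad00319c)) 
(.leaf (nat_lit 0x13d68027ad003889)))) (.node (.node 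
(.leaf (nat_lit 0xf05001a5580362e009a82011de00295380370000720e00dae801c90803d1f007c780101640204b0039e7007f5a00f51401cae803a51)) 
(.leaf (nat_lit 0x13d68027ad0032d4))) (.node (.leaf (nat_lit 0x13d68027ad0047b5)) 
(.leaf (nat_lit 0x13d68027ad0037ad))))) (.node (.node (.node (.leaf (nat_lit 0x13d68027ad00482d)) 
(.leaf (nat_lit 0xf3f801f4100355e008b3801075402ca9004c4d))) (.node 
(.leaf (nat_lit 0x13d68027ad003982)) (.leaf (nat_lit 0x13d68027ad003cd1)))) (.node (.node 
(.leaf (nat_lit 0x13d68027ad0060a0)) (.leaf (nat_lit 0x13d68027ad004f52))) (.node 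
(.leaf (nat_lit 0x13d68027ad003df7)) (.leaf (nat_lit 0x9eb4013d6801a1a0046e2))))))))) (.node (.node 
(.node (.node (.node (.node (.node (.node 
(.leaf (nat_lit 0x27ad004f5a006aee01454c02a638056f300c7080187ec02f46005aed)) 
(.leaf (nat_lit 0x13d68027ad005622))) (.leaf (nat_lit 0x9eb4013d6801c008056b8))) (.node 
(.leaf (nat_lit 0x13d68027ad004965)) (.leaf (nat_lit 0x13d68027ad005a16)))) (.node (.node 
(.leaf (nat_lit 0x27ad004f5a0068da01330401c1e004114)) (.leaf (nat_lit 0x13d68027ad004c38))) (.node 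
(.leaf (nat_lit 0x13d68027ad004cc0)) (.leaf (nat_lit 0x13d68027ad004345))))) (.node (.node (.node 
(.node (.leaf (nat_lit 0x9eb4013d680136a002e7b0057ea00b5d801859002dc9)) 
(.leaf (nat_lit 0x9eb4013d68023da005992))) (.leaf (nat_lit 0x13d68027ad003c37))) (.node 
(.leaf (nat_lit 0x13d68027ad003c5e)) 
(.leaf (nat_lit 0x3acb006e3801041c0208780418e00aa620161d802061804142)))) (.node (.node 
(.leaf (nat_lit 0x9eb4013d6801a4a00444600937600fb6c01b408049c3)) 
(.leaf (nat_lit 0x9eb4013d6801d50005521))) (.node (.leaf (nat_lit 0x13d68027ad0039ef)) 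
(.leaf (nat_lit 0x13d68027ad003cee)))))) (.node (.node (.node (.node (.node 
(.leaf (nat_lit 0x4f5a009eb400d27c02a51004785)) (.leaf (nat_lit 0x13d68027ad00491b))) 
(.leaf (nat_lit 0x13d68027ad004426))) (.node 
(.leaf (nat_lit 0x2e750063aa00bcb8020440041f1008eea012b4401df1803ddd)) 
(.leaf (nat_lit 0x3d080073de00fab002ae480564500b89a015fd0022ab00456f)))) (.node (.node 
(.leaf (nat_lit 0x13d68027ad004faa)) (.leaf (nat_lit 0x13d68027ad004835))) (.node 
(.leaf (nat_lit 0x13d68027ad0049a8)) (.leaf (nat_lit 0x1e29803b1f00698a010614020d1805045))))) 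
(.node (.node (.node (.node (.leaf (nat_lit 0x13d68021be803446)) 
(.leaf (nat_lit 0x4f5a009eb400de58028b700514e))) 
(.leaf (nat_lit 0x9eb4013d6801c4e804e92009c7a00f7e801fd3803ff3))) (.node 
(.leaf (nat_lit 0x13d68027ad004633)) (.leaf (nat_lit 0x13d68027ad004ba9)))) (.node (.node 
(.leaf (nat_lit 0x13d680208500309c)) (.leaf (nat_lit 0x13d68027ad00365c))) (.node 
(.leaf (nat_lit 0x13d68027ad00340c)) (.leaf (nat_lit 0x4f5a009eb401181002a70805893))))))) (.node 
(.node (.node (.node (.node (.node (.leaf (nat_lit 0x13d68027ad002f6f005d9000d4b801be28036dc)) 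
(.leaf (nat_lit 0x13d68027ad0036b4))) (.leaf (nat_lit 0x9eb4013d6801b3e8051f1))) (.node 
(.leaf (nat_lit 0x13d68027ad0044d2)) (.leaf (nat_lit 0x13d68027ad00429e)))) (.node (.node 
(.leaf (nat_lit 0x4f5a009eb400da5002bae0042e5)) (.leaf (nat_lit 0x13d68027ad003acb))) (.node 
(.leaf (nat_lit 0x13d68027ad00428e)) (.leaf (nat_lit 0x13d68027ad0047e1))))) (.node (.node (.node 
(.node (.leaf (nat_lit 0x76b0010edc01989804544007ad60101ec020ca80421f006d9000db5001c22803db9)) 
(.leaf (nat_lit 0x4f5a009eb400e8300153a003e38))) (.leaf (nat_lit 0x13d68027ad004015))) (.node 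
(.leaf (nat_lit 0x13d68027ad004019)) (.leaf (nat_lit 0x13d68027ad0042a4)))) (.node (.node 
(.leaf (nat_lit 0x4f5a009eb400dabc02946005286)) 
(.leaf (nat_lit 0x3a4c006dc600c950020c080422900a56a015fd0028f50056ae00a798016640026648050fa))) 
(.node (.leaf (nat_lit 0x13d68027ad003cb8)) 
(.leaf (nat_lit 0x10e0401fbc003b7b00930001202c0211c004773008e3c011a68023b480493b00927201183c022e7803925008ec8010dcc024fd80463d009118011c10021dd004321)))))) 
(.node (.node (.node (.node (.node (.leaf (nat_lit 0x27ad002ede0059e0013ef402959003bc1)) 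
(.leaf (nat_lit 0x13d68027ad004007))) (.leaf (nat_lit 0x13d68027ad00394c))) (.node 
(.leaf (nat_lit 0x13d68027ad003d1c)) (.leaf (nat_lit 0x13d68027ad0044a0)))) (.node (.node 
(.leaf (nat_lit 0x27ad004f5a0064e401245401dc380475a)) (.leaf (nat_lit 0x13d68027ad003819))) (.node 
(.leaf (nat_lit 0x4f5a0062d400fa04024e5004cd0)) (.leaf (nat_lit 0x13d68027ad0038b9))))) (.node 
(.node (.node (.leaf (nat_lit 0x4f5a009eb400d5b001d8e804cec)) 
(.leaf (nat_lit 0x4f5a009eb400d17802516804c5e))) (.node (.leaf (nat_lit 0x13d68027ad003b60)) 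
(.leaf (nat_lit 0x1dde0034f100655e010704020e48059b5)))) (.node (.node 
(.leaf (nat_lit 0xdc9c0258a004d39009bb2016d1002c0c005e6800c6c4018958025a2805ea4)) 
(.leaf (nat_lit 0x13d68027ad003d23))) (.node (.leaf (nat_lit 0x13d68027ad004550)) 
(.leaf (nat_lit 0x4f5a009eb400d708029a280523a)))))))) (.node (.node (.node (.node (.node (.node 
(.node (.leaf (nat_lit 0x13d68027ad002ea800650e00e184023de003a5b)) 
(.leaf (nat_lit 0x13d68027ad00518a))) (.leaf (nat_lit 0x9eb4013d6801b8480530d))) (.node 
(.leaf (nat_lit 0x13d68027ad005bc7)) (.leaf (nat_lit 0xeb60024ab80330a008502010cd802e1900418f)))) 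
(.node (.node (.leaf (nat_lit 0x27ad004f5a006bfe012bf801d3d8045a7)) 
(.leaf (nat_lit 0x13d68027ad003d34))) (.node (.leaf (nat_lit 0x13d68027ad004570)) 
(.leaf (nat_lit 0xf10001c738037e70083980103b0029ce804ad200a77801384401fa0803fe1))))) (.node (.node 
(.node (.node (.leaf (nat_lit 0x9eb4013d680136180240d005bc200af8c01301802bd1)) 
(.leaf (nat_lit 0x9eb4013d6801aaa001d9b))) (.leaf (nat_lit 0x13d68027ad003a73))) (.node 
(.leaf (nat_lit 0x13d68027ad004562)) (.leaf (nat_lit 0x13d68027ad004af9)))) (.node (.node 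
(.leaf (nat_lit 0x27ad004f5a006dda01474801c0680442b)) (.leaf (nat_lit 0x13d68027ad004c9a))) (.node 
(.leaf (nat_lit 0x13d68027ad003420)) (.leaf (nat_lit 0x13d68027ad004b0e)))))) (.node (.node (.node 
(.node (.node (.leaf (nat_lit 0x27ad004f5a0068dc01009801e9c003f0c)) 
(.leaf (nat_lit 0x13d68027ad004a84))) (.leaf (nat_lit 0x13d68027ad003e4a))) (.node 
(.leaf (nat_lit 0x13d6801838802d0a)) (.leaf (nat_lit 0x13d68027ad003bf7)))) (.node (.node 
(.leaf (nat_lit 0x27ad004f5a006d400139d002188004df8)) (.leaf (nat_lit 0x13d68027ad003904))) (.node 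
(.leaf (nat_lit 0xe40801a848035d500a1a20139ec0212a004663007a2c00fb6802894004411)) 
(.leaf (nat_lit 0x13d68027ad004019))))) (.node (.node (.node (.node 
(.leaf (nat_lit 0x27ad004f5a006b78011b6c01c71804638)) 
(.leaf (nat_lit 0x4f5a009eb400f4dc02cf70058ed))) 
(.leaf (nat_lit 0x9eb4013d6801a18804f25009fbc0127ec0266f005317))) (.node 
(.leaf (nat_lit 0x13d68027ad004aac)) (.leaf (nat_lit 0x13d68027ad0038d0)))) (.node (.node 
(.leaf (nat_lit 0x13d68027ad00537f)) (.leaf (nat_lit 0xf7500223180548a00bb3201598402a208045f7))) 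
(.node (.leaf (nat_lit 0x13d68027ad003c9e)) (.leaf (nat_lit 0x4f5a009eb400e1f80295b8050fd))))))) 
(.node (.node (.node (.node (.node (.node (.leaf (nat_lit 0x4f5a009eb400cf1c028bc004330)) 
(.leaf (nat_lit 0x13d68027ad003c09))) (.leaf (nat_lit 0x13d68027ad003b8d))) (.node 
(.leaf (nat_lit 0x13d68027ad0041a2)) (.leaf (nat_lit 0x13d68027ad00385b)))) (.node (.node 
(.leaf (nat_lit 0x27ad004f5a007166013be001fa2003d8100a342013bbc01ef8003cd6)) 
(.leaf (nat_lit 0x13d68027ad00431f))) (.node (.leaf (nat_lit 0x13d68027ad0045ee)) 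
(.leaf (nat_lit 0x13d68027ad004fc2))))) (.node (.node (.node (.node 
(.leaf (nat_lit 0x9eb400c45c01783803448006cea00d574011178036ac)) 
(.leaf (nat_lit 0x4f5a009eb400e39402b54004d66))) (.leaf (nat_lit 0x13d68027ad00364c))) (.node 
(.leaf (nat_lit 0x13d68027ad003fd6)) 
(.leaf (nat_lit 0x1e1e8038bb006ca601000402055804abd009a8001328c02005004003)))) (.node (.node 
(.leaf (nat_lit 0x1bfa00396e006bb6014d2c025978043ca)) (.leaf (nat_lit 0x9eb4013d680192680543e))) 
(.node (.leaf (nat_lit 0x13d68027ad004265)) (.leaf (nat_lit 0x4f5a009eb4010ce002bed005a14)))))) 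
(.node (.node (.node (.node (.node (.leaf (nat_lit 0x27ad004f5a004b680105f801e4580288d)) 
(.leaf (nat_lit 0x4f5a009eb400e7b402893805346))) (.leaf (nat_lit 0x13d68027ad004929))) (.node 
(.leaf (nat_lit 0x13d68027ad0048c7)) (.leaf (nat_lit 0x13d68027ad005916)))) (.node (.node 
(.leaf (nat_lit 0x13d68027ad0031ec0086b200f9cc0214d003857006d9400d51401a6a8033a3)) 
(.leaf (nat_lit 0x13d68027ad0036cb))) (.node (.leaf (nat_lit 0x13d68027ad0047f5)) 
(.leaf (nat_lit 0x1e6f0038d1006c30010254020a780445e0094dc0124500202e003fd5))))) (.node (.node 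
(.node (.leaf (nat_lit 0x27ad004f5a006a8c013ee001cb4004071)) (.leaf (nat_lit 0x13d68027ad00402e))) 
(.node (.leaf (nat_lit 0x13d68027ad003da5)) (.leaf (nat_lit 0x13d68027ad00365f)))) (.node (.node 
(.leaf (nat_lit 0x13d68027ad004a8f)) (.leaf (nat_lit 0x13d68027ad00452b))) (.node 
(.leaf (nat_lit 0x13d68027ad0042c8)) (.leaf (nat_lit 0x4f5a009eb400f80c02a96005ad6))))))))))
noncomputable def gt8 : Ix (Nat) := (.node (.node (.node (.node (.node (.node 
(.leaf (nat_lit 0x2133003db50071f4011c040253500470100915c0111e80219300458f008c76011180022128044940087640111ac022838043bc0087ea0110fc0218a8042c90092940118bc02080804566008fa2010ca40217b0040be)) 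
(.leaf (nat_lit 0x13d68027ad0035cf))) (.leaf (nat_lit 0x13d68027ad006158))) (.node 
(.leaf (nat_lit 0x4f5a009eb400e888022a78042fe)) (.leaf (nat_lit 0x9eb4013d68025078058de)))) (.node 
(.node (.leaf (nat_lit 0x27ad004f5a0078c001acf4022c680724b)) (.leaf (nat_lit 0x13d68027ad004605))) 
(.node (.leaf (nat_lit 0x27ad004f5a0064d600e9540204c803e79)) 
(.leaf (nat_lit 0x13d680224800353d))))) (.node (.node (.node (.node 
(.leaf (nat_lit 0x27ad004f5a0071de00fd14020af0055d3)) (.leaf (nat_lit 0x13d68027ad003804))) 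
(.leaf (nat_lit 0x13d68027ad004289))) (.node 
(.leaf (nat_lit 0x13d6801b538033710075aa00705401c85802c1600743e00dea401d9a003c5b0073dc00e588001fc003a07)) 
(.leaf (nat_lit 0x9eb4013d6801dcb004b7c)))) (.node (.node 
(.leaf (nat_lit 0x27ad004f5a0074c6010cc0022fe80434a)) (.leaf (nat_lit 0x9eb4013d6801e5f80503e))) 
(.node (.leaf (nat_lit 0x27ad004f5a00690e0029c001954802a1e)) 
(.leaf (nat_lit 0x13d68027ad003c09)))))) (.node (.node (.node (.node (.node 
(.leaf (nat_lit 0x27ad004f5a007dc0016c0402ef28072db)) (.leaf (nat_lit 0x13d68027ad0048f6))) 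
(.leaf (nat_lit 0x13d68027ad00474e))) (.node 
(.leaf (nat_lit 0xe7b401c1d003188004c2400eb7001d53803d75004d8800ed9c01eb5803daa00776e00f2c801371003b42007a0e00f24c01de2003d75007c4400dd88018b40038ed)) 
(.leaf (nat_lit 0x9eb4013d68022b5004e9a)))) (.node (.node 
(.leaf (nat_lit 0x27ad004f5a0076c80153d002440004489)) (.leaf (nat_lit 0x9eb4013d6801e1e806c98))) 
(.node (.leaf (nat_lit 0x27ad004f5a00575800d194018dd8036b1)) 
(.leaf (nat_lit 0x13d6801d1500312f))))) (.node (.node (.node (.node 
(.leaf (nat_lit 0x27ad004f5a0063fe0058680139c003656)) (.leaf (nat_lit 0x9eb4013d6801f72002583))) 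
(.leaf (nat_lit 0x13d68027ad005478))) (.node (.leaf (nat_lit 0x9eb4013d6801c3c804c71)) 
(.leaf (nat_lit 0x3814006a9e00c27801dcf0032ce00789800dcac01e9a00393e)))) (.node (.node 
(.leaf (nat_lit 0x4f5a009eb400e1e0004a0003c3f007cc6005c1001f2f003dd4)) 
(.leaf (nat_lit 0x9eb4013d68021ab8050df))) (.node 
(.leaf (nat_lit 0xfb8c01db20036b9009f820115ac0226b0057ad00a36e011df80234e00471c008d36011b74023bb803fb9)) 
(.leaf (nat_lit 0x13d68027ad004009)))))))
noncomputable def gt9 : Ix (Nat) := (.node (.node (.node (.node (.node (.node 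
(.leaf (nat_lit 0x42b7007e1800ea6c0237600474a00896c00fd0c021ba0040f9009bd600ff7802acd803a9d)) 
(.leaf (nat_lit 0x83ba00fb1801e9d004b360092b6012bc4024d500498b))) (.node 
(.leaf (nat_lit 0x9eb4013d6801e1f005cfb)) (.leaf (nat_lit 0x13d68027ad004b64)))) (.node (.node 
(.leaf (nat_lit 0x13d68027ad00384900175e00268000cee802c02)) 
(.leaf (nat_lit 0x23210047d3007fd801378002611004ab7))) (.leaf (nat_lit 0x9eb4013d6801cfb80508a)))) 
(.node (.node (.node (.leaf (nat_lit 0x9eb4013d6801a4b80455c)) 
(.leaf (nat_lit 0x13d68027ad003a91))) (.leaf (nat_lit 0x9eb4013d6801eca005af5))) (.node (.node 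
(.leaf (nat_lit 0x9eb4013d6801d7d805b94)) (.leaf (nat_lit 0x13d68027ad004c23))) 
(.leaf (nat_lit 0x13d68023db00377e))))) (.node (.node (.node (.node 
(.leaf (nat_lit 0x9eb4013d6801c84003de5)) (.leaf (nat_lit 0x13d68027ad0033d1))) 
(.leaf (nat_lit 0x9eb4013d6801d5b805924))) (.node (.node (.leaf (nat_lit 0x13d68027ad0046c9)) 
(.leaf (nat_lit 0x13d68027ad003818))) (.leaf (nat_lit 0x1f99003be8007670010d64021810041ab)))) 
(.node (.node (.node (.leaf (nat_lit 0x9eb4013d6801c34004980)) 
(.leaf (nat_lit 0x13d68027ad0042a4))) (.leaf (nat_lit 0x9eb4013d6801ee3005b74))) (.node (.node 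
(.leaf (nat_lit 0x9eb4013d6801dd5004a8e)) (.leaf (nat_lit 0x9eb4013d6801e6b00469a))) 
(.leaf (nat_lit 0x13d68027ad004acf)))))) (.node (.node (.node (.node (.node 
(.leaf (nat_lit 0x433f007c6000e0f40244780457f0073b200e9a801ea6003d50)) 
(.leaf (nat_lit 0x13d68027ad0041d3))) (.node (.leaf (nat_lit 0x9eb4013d6801d5d005947)) 
(.leaf (nat_lit 0x9eb4013d6802189804afd)))) (.node (.node (.leaf (nat_lit 0x9eb4013d6801e28805361)) 
(.leaf (nat_lit 0x13d68027ad0045a1))) (.leaf (nat_lit 0x9eb4013d6801c33005c5c)))) (.node (.node 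
(.node (.leaf (nat_lit 0x13d6802758003c74)) (.leaf (nat_lit 0x13d68027ad003c54))) 
(.leaf (nat_lit 0x13d68027ad005941))) (.node (.node (.leaf (nat_lit 0x9eb4013d6801d5c804dcb)) 
(.leaf (nat_lit 0x12038024550040bc0099b4012bd8024cf804b08009724012c3c0257e0047c3))) 
(.leaf (nat_lit 0x13d68027ad004adb))))) (.node (.node (.node (.node 
(.leaf (nat_lit 0x13d6801ae280330e00132a00770400ca90038a4)) (.leaf (nat_lit 0x13d68027ad003f8e))) 
(.leaf (nat_lit 0x13d68027ad003ee000b572011ff8028a100432a))) (.node (.node 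
(.leaf (nat_lit 0x9eb4013d6801cd6005413)) (.leaf (nat_lit 0x13d68027ad0040f4))) 
(.leaf (nat_lit 0x13d68027ad004241)))) (.node (.node (.node 
(.leaf (nat_lit 0x9eb4013d6801d098058d1)) (.leaf (nat_lit 0x13d68027ad003d72))) 
(.leaf (nat_lit 0x9eb4013d6801e720050a1))) (.node (.node (.leaf (nat_lit 0x9eb4013d6801d51005462)) 
(.leaf (nat_lit 0x9eb4013d6801f4e00475e))) (.leaf (nat_lit 0x9eb4013d6801e13005302)))))))
noncomputable def gt10 : Ix (Nat) := (.node (.node (.node (.node (.node 
(.leaf (nat_lit 0x829800f3e001de3004a9e0091bc0129780245d804a05)) 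
(.leaf (nat_lit 0x13d68027ad0032c8))) (.node (.leaf (nat_lit 0x13d68027ad003f71)) 
(.leaf (nat_lit 0x27ad004f5a007a12012e7802673804ce5)))) (.node (.node 
(.leaf (nat_lit 0x13d68027ad003e3f)) 
(.leaf (nat_lit 0x11e4c02165803bf7009a1000aa6802714804dae0099e4012d9c02624004be900997001365c024f9804889009a9e012f700259a804de40097d00135200260b004926))) 
(.leaf (nat_lit 0x13d6801b828034d1)))) (.node (.node (.node (.leaf (nat_lit 0x13d68027ad003aca)) 
(.leaf (nat_lit 0x13d68027ad0035ab))) (.node (.leaf (nat_lit 0x13d68027ad003aaf)) 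
(.leaf (nat_lit 0x27ad004f5a007c0e0123c8027cf004ae7)))) (.node (.node 
(.leaf (nat_lit 0x13d68027ad004e08)) (.leaf (nat_lit 0x27ad004f5a006f7c00da5c010d700472a))) 
(.leaf (nat_lit 0x13d68027ad003054))))) (.node (.node (.node (.node 
(.leaf (nat_lit 0x13d68027ad004eda)) (.leaf (nat_lit 0x13d68027ad003a83))) (.node 
(.leaf (nat_lit 0x13d68027ad003fea)) (.leaf (nat_lit 0x27ad004f5a007ea80133a8028c6804c60)))) (.node 
(.node (.leaf (nat_lit 0x13d68027ad003e69)) (.leaf (nat_lit 0x27ad004f5a0076d4010ca8020b3004a43))) 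
(.leaf (nat_lit 0x13d68018f28030d7)))) (.node (.node (.node (.leaf (nat_lit 0x13d68027ad003ce7)) 
(.leaf (nat_lit 0x13d68027ad004334))) (.leaf (nat_lit 0x1da800390b0069a201048801f50003983))) (.node 
(.node (.leaf (nat_lit 0x13d68027ad00415b)) (.leaf (nat_lit 0x27ad004f5a006d5e00491801553804585))) 
(.leaf (nat_lit 0x13d68027ad0036e1))))))
noncomputable def gt11 : Ix (Nat) := (.node (.node (.node (.node (.node 
(.leaf (nat_lit 0x9b2c01113c02773004a6f00b64e0143e002886805e6500bbdc010758025e28042e9)) 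
(.leaf (nat_lit 0x13d68027ad003acd008794016584021ff80531a))) (.leaf (nat_lit 0x13d68027ad003036))) 
(.node (.node (.leaf (nat_lit 0x13d68027ad003ec9)) (.leaf (nat_lit 0x9eb4013d68026df005847))) 
(.leaf (nat_lit 0x9eb4013d6801c468052de0086f6010f1c0223a00422b)))) (.node (.node (.node 
(.leaf (nat_lit 0x13d68027ad00425e)) 
(.leaf (nat_lit 0x4171007c5000e9880281900468a00918001212002ffb0042140089ae011ea4023bf0048af008b0c0156840224100555d))) 
(.leaf (nat_lit 0x9eb4013d6801d72806ced00ba7a01a9d402f72804983))) (.node (.node 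
(.leaf (nat_lit 0x13d68027ad002bc7)) (.leaf (nat_lit 0x9eb4013d6802a17805b0d))) 
(.leaf (nat_lit 0x13d68027ad002eb7007b2600f6f001981003b02))))) (.node (.node (.node (.node 
(.leaf (nat_lit 0x13d68027ad005606)) (.leaf (nat_lit 0x13d68027ad002b9c00798c007ebc01e68803d96))) 
(.leaf (nat_lit 0x3b960070ec00d170021668042ff008582010df80219d8040fe0081300169f801f5b004bce008b80010448020570043b5007ee601041c02fff00664000819c00fd0c0298100596500d3e200f86002260804c820083f401138402131003d9e))) 
(.node (.node (.leaf (nat_lit 0x13d68027ad003afe)) (.leaf (nat_lit 0x4f5a009eb40164fc029ab0055f8))) 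
(.leaf (nat_lit 0x9eb4013d68018080020fd006e5800f58001ce7803bdb)))) (.node (.node (.node 
(.leaf (nat_lit 0x13d68027ad00580d)) (.leaf (nat_lit 0x13d68027ad0059e6))) 
(.leaf (nat_lit 0x9eb4013d680192a003fcc007aba00c27801f18803dd5))) (.node 
(.leaf (nat_lit 0x13d68027ad005307)) (.leaf (nat_lit 0x13d68027ad00284200729200dd6c01b800034cc))))))
noncomputable def gt12 : Ix (Nat) := (.node (.node (.node (.node (.node (.node 
(.leaf (nat_lit 0xfd9002523004b6100b74e01264002f93805fc300d806010e68024fe804204)) 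
(.leaf (nat_lit 0x13d68027ad0036310075a600f3c0016a000398e))) (.leaf (nat_lit 0x13d68027ad004821))) 
(.node (.leaf (nat_lit 0x13d68027ad004268)) (.leaf (nat_lit 0x4f5a009eb400d47c01b7100365d)))) 
(.node (.node (.leaf (nat_lit 0x13d68027ad005c8e)) 
(.leaf (nat_lit 0x27ad004f5a0069e000b7c002082003e8a))) (.node (.leaf (nat_lit 0x13d68027ad00335f)) 
(.leaf (nat_lit 0x27ad002bc60055da00bc9000ced8021d9))))) (.node (.node (.node 
(.leaf (nat_lit 0x13d68027ad00464d)) (.leaf (nat_lit 0x13d68027ad003a15008a20013978027870040f9))) 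
(.node (.leaf (nat_lit 0x13d680234080302b)) 
(.leaf (nat_lit 0xdbdc01aa100326e00683c00e45801dc4803a9d006cc000d59800d73802fc2006c7c0050fc01c9e8032fc)))) 
(.node (.node (.leaf (nat_lit 0x13d68027ad00470e)) (.leaf (nat_lit 0x4f5a009eb400e9f0026f3803f12))) 
(.node (.leaf (nat_lit 0x13d68027ad0032f0)) 
(.leaf (nat_lit 0x13d68027ad003449007240008a4801828003a8f)))))) (.node (.node (.node (.node (.node 
(.leaf (nat_lit 0x13d68027ad005f6e)) (.leaf (nat_lit 0x27ad004f5a0068da00da8c0218f803cb0))) 
(.leaf (nat_lit 0x3fb80077e200e03c022fa8042ca0084800109800208f00437600a06400f98c0244580429e008cb0011a8c020e9003d0d))) 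
(.node (.leaf (nat_lit 0x34e9006cda00c4c001ef38038fe0078f800ef7c0189a0038cb)) 
(.leaf (nat_lit 0x27ad004f5a006d0200e5fc019ca803e40)))) (.node (.node 
(.leaf (nat_lit 0x13d68027ad004944)) (.leaf (nat_lit 0x4f5a009eb400f0d803b7f805bd3))) (.node 
(.leaf (nat_lit 0x13d68027ad00400e)) (.leaf (nat_lit 0x27ad004f5a00555800dd0001a30001e48))))) 
(.node (.node (.node (.leaf (nat_lit 0x13d68027ad0044d2)) 
(.leaf (nat_lit 0x13d68027ad00375f007cf8012b88021e1803ed8))) (.node 
(.leaf (nat_lit 0x13d6801c2380289e)) (.leaf (nat_lit 0x27ad0031130060260134f40263d003933)))) (.node 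
(.node (.leaf (nat_lit 0x13d68027ad004c21)) (.leaf (nat_lit 0x4f5a009eb400e20c02e650040c9))) (.node 
(.leaf (nat_lit 0x13d68027ad004966)) 
(.leaf (nat_lit 0x13d68027ad002b5f00621000c6d40173800333b)))))))
noncomputable def gt13 : Ix (Nat) := (.node (.node (.node (.node (.node 
(.leaf (nat_lit 0xe51001f62803246008208010cb402503005f7400ba8801294c0247680640c)) 
(.leaf (nat_lit 0x9eb4013d68025a780570d))) (.leaf (nat_lit 0x13d68027ad003048))) (.node 
(.leaf (nat_lit 0x13d68027ad003ec2)) (.leaf (nat_lit 0x27ad004f5a00683c018ee4031bc806756)))) (.node 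
(.node (.node (.leaf (nat_lit 0x13d68027ad003c1b)) (.leaf (nat_lit 0x9eb4013d6801fc8005f21))) 
(.leaf (nat_lit 0x27ad004f5a006f2201893c030080065cc))) (.node (.leaf (nat_lit 0x13d68027ad002550)) 
(.leaf (nat_lit 0xfeac01e6b003972008fb801212802524004e36009aec0183380239c0047ca0081ac01111c020c180531b))))) 
(.node (.node (.node (.node (.leaf (nat_lit 0x13d68027ad005529)) 
(.leaf (nat_lit 0x13d68027ad004950))) 
(.leaf (nat_lit 0x1ffa803cc1006a8c011368022ed80453f008816014118020f78044e8009fbc010d08023400056a500847a010b10029e300422100868801237c02127004305008b72010a84020488044ea00835e010d6402023805975))) 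
(.node (.leaf (nat_lit 0x13d68027ad003a31)) (.leaf (nat_lit 0x27ad004f5a00717401a71c02176004b1e)))) 
(.node (.node (.leaf (nat_lit 0x13d68027ad0051b0)) 
(.leaf (nat_lit 0x27ad004f5a00601000f67801eb8804a76))) (.node (.leaf (nat_lit 0x13d68027ad004b30)) 
(.leaf (nat_lit 0x4f5a009eb40157c002c3180530c))))))
noncomputable def gt14 : Ix (Nat) := (.node (.node (.node (.node (.node 
(.leaf (nat_lit 0x3be2006f76011c200228f805b2300c754017ce802b708046cb)) 
(.leaf (nat_lit 0x13d68027ad0035e0))) (.node (.leaf (nat_lit 0x13d68027ad004275)) 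
(.leaf (nat_lit 0x13d68027ad00376200797800e9d001d72803dc1)))) (.node (.node 
(.leaf (nat_lit 0x13d68027ad0048ab)) 
(.leaf (nat_lit 0x3d2800761800dd38022460044a2007f6e0111b001f7600406800b6060166e802ca7003eb3))) 
(.node (.leaf (nat_lit 0x13d680206e003b04)) (.leaf (nat_lit 0x9eb4013d6801b5c804d15))))) (.node 
(.node (.node (.leaf (nat_lit 0x13d68027ad00471c)) (.leaf (nat_lit 0x13d68027ad003908))) (.node 
(.leaf (nat_lit 0x13d68027ad004186)) (.leaf (nat_lit 0x9eb4013d6801c49806f01)))) (.node (.node 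
(.leaf (nat_lit 0x13d68027ad00474a)) (.leaf (nat_lit 0x13d68027ad0031f8004ad0002f9800ffd003a4b))) 
(.leaf (nat_lit 0x13d68027ad003c5b))))) (.node (.node (.node (.node 
(.leaf (nat_lit 0x13d68027ad006321)) (.leaf (nat_lit 0x13d68027ad0048c9))) (.node 
(.leaf (nat_lit 0x13d68027ad0045e7)) (.leaf (nat_lit 0x9eb4013d6801a0c80457d)))) (.node (.node 
(.leaf (nat_lit 0x13d68027ad0044ed)) (.leaf (nat_lit 0x13d68027ad00363700b69e0162d802dcb8046d5))) 
(.node (.leaf (nat_lit 0x13d68019b5003477)) (.leaf (nat_lit 0x9eb4013d6801bdb0054ae))))) (.node 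
(.node (.node (.leaf (nat_lit 0x13d68027ad004738)) (.leaf (nat_lit 0x13d68027ad004046))) (.node 
(.leaf (nat_lit 0x60fa00c4c001769803df2007d1a0117a8022f9003818)) 
(.leaf (nat_lit 0x9eb4013d6801ba2004bce)))) (.node (.node (.leaf (nat_lit 0x13d68027ad003e4c)) 
(.leaf (nat_lit 0x27ad004f5a006302004dec00838003a11))) (.leaf (nat_lit 0x13d68027ad003fb4))))))
noncomputable def gt15 : Ix (Nat) := (.node (.node (.node (.node (.node (.node (.node (.node (.node 
(.leaf (nat_lit 0xe114027cb803cc2007976017e5c01e5000523600a54e012180029118051d0)) 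
(.leaf (nat_lit 0xefa001e2100370400857c010b380210c0045320089a80107c802401804fac008fca0123f802422803c38))) 
(.leaf (nat_lit 0x3b8700732000cd1001fd1803edd007e36015cf401e29804fda))) (.node 
(.leaf (nat_lit 0x13d68027ad0041c3)) (.leaf (nat_lit 0x13d68027ad0038cf)))) (.node (.node 
(.leaf (nat_lit 0x9eb4013d6801ad3004e57)) (.leaf (nat_lit 0x13d68027ad003d1a))) (.node 
(.leaf (nat_lit 0x13d68027ad003630)) (.leaf (nat_lit 0x13d68027ad00419e))))) (.node (.node (.node 
(.node (.leaf (nat_lit 0x9eb4013d6801b22003cfb)) (.leaf (nat_lit 0x9eb4013d68019b0002c0c))) 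
(.leaf (nat_lit 0x13d68027ad003532))) (.node (.leaf (nat_lit 0x13d68027ad0032df)) 
(.leaf (nat_lit 0x13d68027ad003ff6)))) (.node (.node 
(.leaf (nat_lit 0x27ad0033b6006a9200dcd001bd780323b)) 
(.leaf (nat_lit 0x1fd90040d9007554011650022378046d500b490011d9002c02005407))) (.node 
(.leaf (nat_lit 0x13d68027ad0037de)) (.leaf (nat_lit 0x13d68027ad003b62)))))) (.node (.node (.node 
(.node (.node (.leaf (nat_lit 0x9eb4013d6801ad2804c46)) 
(.leaf (nat_lit 0xf0a801ad40032e4007eb800e3dc01f03003c8f00789c00ecd001dd08047e00042c400de040235a0036e2))) 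
(.leaf (nat_lit 0x13d68027ad0039fd))) (.node (.leaf (nat_lit 0x13d68027ad0040b6)) 
(.leaf (nat_lit 0x13d68027ad003dad)))) (.node (.node (.leaf (nat_lit 0x9eb4013d6801bfb804b8a)) 
(.leaf (nat_lit 0x13d68027ad003a94))) (.node (.leaf (nat_lit 0x13d68027ad003cf4)) 
(.leaf (nat_lit 0x13d68027ad00404d))))) (.node (.node (.node (.node 
(.leaf (nat_lit 0x9eb4013d6801a2f0041fc)) (.leaf (nat_lit 0x9eb4013d6801a9d0045af))) 
(.leaf (nat_lit 0x1dd40036f3006aaa00fa5401ede004006007b8e0137b8022f60052d4))) (.node 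
(.leaf (nat_lit 0x13d68027ad004785)) (.leaf (nat_lit 0x13d68027ad003ab2)))) (.node (.node 
(.leaf (nat_lit 0x13d68027ad004582)) (.leaf (nat_lit 0x9eb4013d6801a0f00577b))) (.node 
(.leaf (nat_lit 0x13d68027ad0032eb)) (.leaf (nat_lit 0x4f5a009eb400f31c026e7804b58))))))) (.node 
(.node (.node (.node (.node (.node (.leaf (nat_lit 0x4f5a009eb400dbe4024d4804a12)) 
(.leaf (nat_lit 0x9eb4013d680188f00347d))) (.leaf (nat_lit 0x9eb4013d680197b005032))) (.node 
(.leaf (nat_lit 0x13d68027ad003706)) (.leaf (nat_lit 0x13d68027ad0036ce)))) (.node (.node 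
(.leaf (nat_lit 0x9eb4013d6801cc3005765)) 
(.leaf (nat_lit 0x788600eca0019a7803fdd00ad4400f9e001f39003f46))) (.node 
(.leaf (nat_lit 0x13d68027ad003cd8)) (.leaf (nat_lit 0x13d68027ad003878))))) (.node (.node (.node 
(.node (.leaf (nat_lit 0x9eb4013d6801a16803eec)) (.leaf (nat_lit 0x9eb4013d6801e28005d86))) 
(.leaf (nat_lit 0x13d68027ad003476))) (.node (.leaf (nat_lit 0x9eb400cc9801a23004606)) 
(.leaf (nat_lit 0x13d68027ad00449a)))) (.node (.node (.leaf (nat_lit 0x9eb4013d6801cbd004ada)) 
(.leaf (nat_lit 0x9eb4013d6802172805b64))) (.node 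
(.leaf (nat_lit 0x66ba00c8dc0182780464e0070d600e61002493004668)) 
(.leaf (nat_lit 0x13d68027ad003878)))))) (.node (.node (.node (.node (.node 
(.leaf (nat_lit 0xbb68017f180294d006b8a01130401ac600329e00712200cc2001607003030)) 
(.leaf (nat_lit 0x9eb4013d6801a9d004227))) 
(.leaf (nat_lit 0x75ca00d5b401aa5803f9200b43e00fd000201e003f8a))) (.node 
(.leaf (nat_lit 0x13d68027ad003a63)) (.leaf (nat_lit 0x13d68027ad004f70)))) (.node (.node 
(.leaf (nat_lit 0x9eb4013d6801a3c803cdc)) (.leaf (nat_lit 0x13d68027ad005006))) (.node 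
(.leaf (nat_lit 0x13d68027ad004457)) (.leaf (nat_lit 0x13d68027ad00402f))))) (.node (.node (.node 
(.leaf (nat_lit 0x4f5a009eb400e1a0019cf003c16)) (.leaf (nat_lit 0x4f5a009eb400cb54027df00455f))) 
(.node (.leaf (nat_lit 0x13d68027ad0037fc)) (.leaf (nat_lit 0x13d68027ad0039c2)))) (.node (.node 
(.leaf (nat_lit 0x9eb4013d6801b75004991)) (.leaf (nat_lit 0x13d68027ad004fb2))) (.node 
(.leaf (nat_lit 0x9eb4013d6801983804db1)) (.leaf (nat_lit 0x4f5a009eb400cc6c02596004930)))))))) 
(.node (.node (.node (.node (.node (.node (.node (.leaf (nat_lit 0x4f5a009eb400e53001c2f8049d1)) 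
(.leaf (nat_lit 0x9eb4013d68018ce0040d0))) (.leaf (nat_lit 0x13d68027ad003ae7))) (.node 
(.leaf (nat_lit 0x13d68027ad003c17)) (.leaf (nat_lit 0x13d68027ad0040a9)))) (.node (.node 
(.leaf (nat_lit 0x9eb4013d6801b92004300)) (.leaf (nat_lit 0x13d68027ad003dfe))) (.node 
(.leaf (nat_lit 0x13d68027ad003822)) (.leaf (nat_lit 0x13d68027ad00406e))))) (.node (.node (.node 
(.node (.leaf (nat_lit 0x4f5a009eb400d0e801f65803f07)) (.leaf (nat_lit 0x9eb4013d6801a2c8040a7))) 
(.leaf (nat_lit 0xf0a001d4a8033c2007b9a0153dc01f43803e4b))) (.node 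
(.leaf (nat_lit 0x6fd400c488019388044d100a052013ca002944003e90)) 
(.leaf (nat_lit 0x13d68027ad003bfd)))) (.node (.node 
(.leaf (nat_lit 0x4f5a009eb400d320021f08036a0)) (.leaf (nat_lit 0x9eb4013d6802342805db4))) (.node 
(.leaf (nat_lit 0x13d68027ad00392a)) (.leaf (nat_lit 0x13d68027ad003a3f)))))) (.node (.node (.node 
(.node (.node (.leaf (nat_lit 0x9eb4013d6801ebb804034)) 
(.leaf (nat_lit 0x9eb4013d68018c88037ab00852800e3680210c803ecb))) 
(.leaf (nat_lit 0x13d68027ad00369a))) (.node (.leaf (nat_lit 0x9eb400c3c8016c2004749)) 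
(.leaf (nat_lit 0x13d68027ad0058c2)))) (.node (.node (.leaf (nat_lit 0x9eb4013d6801bb4005069)) 
(.leaf (nat_lit 0xe8dc01db3003401007ef20155b001f4f003dc2))) (.node 
(.leaf (nat_lit 0x13d68027ad00485a)) (.leaf (nat_lit 0x13d68027ad00388a))))) (.node (.node (.node 
(.node (.leaf (nat_lit 0x9eb4013d6801a68003b73)) (.leaf (nat_lit 0x4f5a009eb400c6fc022e6004392))) 
(.leaf (nat_lit 0x13d68027ad00450c))) (.node (.leaf (nat_lit 0x13d68027ad003890)) 
(.leaf (nat_lit 0x13d68027ad00455a)))) (.node (.node (.leaf (nat_lit 0x13d68027ad004666)) 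
(.leaf (nat_lit 0x9eb4013d6801917004d17))) (.node 
(.leaf (nat_lit 0x1dc10035bc00636400fdac01f66004efb0091a000eadc01e2c004aa2)) 
(.leaf (nat_lit 0x76ea00d8540199d803fd0007f5600fe94028f7803cca007a5e016028022960036a5))))))) (.node 
(.node (.node (.node (.node (.node (.leaf (nat_lit 0x9eb4013d6801c0f0065e7)) 
(.leaf (nat_lit 0x9eb4013d6801d5d805026))) (.leaf (nat_lit 0x1dcc003a030064500116840200b803f6f))) 
(.node (.leaf (nat_lit 0x13d68027ad0042de)) (.leaf (nat_lit 0x13d68027ad003500)))) (.node (.node 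
(.leaf (nat_lit 0x9eb4013d6801a988053fb)) (.leaf (nat_lit 0x13d68027ad003d4f))) (.node 
(.leaf (nat_lit 0x13d68027ad00425a)) (.leaf (nat_lit 0x13d68027ad00373a))))) (.node (.node (.node 
(.node (.leaf (nat_lit 0x9eb4013d6801a8400469f)) 
(.leaf (nat_lit 0xf0b001bfa0032e4007eaa01135c01f26803c1a00809c00ef480275d0038dc))) 
(.leaf (nat_lit 0x13d68027ad003925))) (.node (.leaf (nat_lit 0x9eb400b8a401aa8804a9e)) 
(.leaf (nat_lit 0x13d68027ad0033f4)))) (.node (.node (.leaf (nat_lit 0x9eb4013d68019d880549d)) 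
(.leaf (nat_lit 0x9eb4013d6801a88004ef2))) (.node (.leaf (nat_lit 0x9eb400baa801bea80497a)) 
(.leaf (nat_lit 0x4f5a009eb400ecf802855804ae4)))))) (.node (.node (.node (.node (.node 
(.leaf (nat_lit 0x27ad0028f9004eb80052f000fb0801ec9)) 
(.leaf (nat_lit 0xefd801c2700356300858a0152f4020b08041e700a494011fac02a360052a4))) 
(.leaf (nat_lit 0x13d68027ad003d57))) (.node (.leaf (nat_lit 0x13d68027ad003026)) 
(.leaf (nat_lit 0x13d68027ad002d00)))) (.node (.node 
(.leaf (nat_lit 0xdab001a0480336e006e50014aac01d1f80367c007d5200d27401c8f803b30)) 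
(.leaf (nat_lit 0x13d68027ad0034bb))) (.node (.leaf (nat_lit 0x13d68027ad003cd7)) 
(.leaf (nat_lit 0x13d68027ad003793))))) (.node (.node (.node (.leaf (nat_lit 0x13d68027ad004361)) 
(.leaf (nat_lit 0x1e2c803fb600683400fe9c023e3803fb6))) (.node (.leaf (nat_lit 0x13d68027ad0037d9)) 
(.leaf (nat_lit 0x13d68027ad00392c)))) (.node (.node (.leaf (nat_lit 0x13d68027ad0061a1)) 
(.leaf (nat_lit 0x13d68027ad0052d3))) (.node (.leaf (nat_lit 0x13d68027ad003933)) 
(.leaf (nat_lit 0x4f5a009eb400cbf8024e1004940))))))))) (.node (.node (.node (.node (.node (.node 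
(.node (.node (.leaf (nat_lit 0x4f5a009eb400f79002c41806184)) 
(.leaf (nat_lit 0x9eb4013d6801bd5805f2f))) (.leaf (nat_lit 0x9eb4013d6801ba7804cd6))) (.node 
(.leaf (nat_lit 0x13d68027ad0049ff)) (.leaf (nat_lit 0x13d68027ad004f9f)))) (.node (.node 
(.leaf (nat_lit 0x9eb4013d6801a5380481d)) (.leaf (nat_lit 0x13d68027ad004086))) (.node 
(.leaf (nat_lit 0x13d68027ad00400a)) (.leaf (nat_lit 0x13d68027ad0039f4))))) (.node (.node (.node 
(.node (.leaf (nat_lit 0x9eb4013d680156100314d)) (.leaf (nat_lit 0x9eb4013d6801f4000558f))) 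
(.leaf (nat_lit 0x13d68027ad004a60))) (.node (.leaf (nat_lit 0x13d68027ad00371f)) 
(.leaf (nat_lit 0x73e200d8e801a5e803ee900b17c00f65801eb4003ea4)))) (.node (.node 
(.leaf (nat_lit 0x9eb4013d6801b0c0046d9)) (.leaf (nat_lit 0x4f5a009eb400e48002866805422))) (.node 
(.leaf (nat_lit 0x13d68027ad0034de)) (.leaf (nat_lit 0x13d68027ad0037b6)))))) (.node (.node (.node 
(.node (.node (.leaf (nat_lit 0x9eb4013d6801acb004d41)) (.leaf (nat_lit 0x9eb4013d6801bc6804d93))) 
(.leaf (nat_lit 0x13d68027ad003ee8))) (.node 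
(.leaf (nat_lit 0x5e4000c64c014bd00386c0097280114b40224900349c)) 
(.leaf (nat_lit 0x76f200e2900295d8048dd00ba000104b402121804c06)))) (.node (.node 
(.leaf (nat_lit 0x13d68027ad003c1d)) (.leaf (nat_lit 0x13d68027ad0037ac))) (.node 
(.leaf (nat_lit 0x13d68027ad0047e4)) (.leaf (nat_lit 0x1db18046dc00642c00fb5802ba1803dab))))) 
(.node (.node (.node (.node (.leaf (nat_lit 0x13d68020210033aa)) 
(.leaf (nat_lit 0x9eb4013d6801b24804ba6))) (.leaf (nat_lit 0x9eb4013d6801bba804f94))) (.node 
(.leaf (nat_lit 0x13d68027ad0047a3)) (.leaf (nat_lit 0x13d68027ad00315c)))) (.node (.node 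
(.leaf (nat_lit 0x13d6801f96003a25)) (.leaf (nat_lit 0x13d68027ad003b9d))) (.node 
(.leaf (nat_lit 0x13d68027ad00324c)) (.leaf (nat_lit 0x9eb4013d6802164005a5a))))))) (.node (.node 
(.node (.node (.node (.node (.leaf (nat_lit 0x9eb4013d6801a74004607)) 
(.leaf (nat_lit 0x9eb4013d680180100324e))) (.leaf (nat_lit 0x9eb4013d6801b38004cf1))) (.node 
(.leaf (nat_lit 0x13d68027ad00407b)) (.leaf (nat_lit 0x13d68027ad00393b)))) (.node (.node 
(.leaf (nat_lit 0x9eb4013d6801b10804a3a)) (.leaf (nat_lit 0x13d68027ad003ba4))) (.node 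
(.leaf (nat_lit 0x13d68027ad003d30)) (.leaf (nat_lit 0x13d68027ad003ce1))))) (.node (.node (.node 
(.node (.leaf (nat_lit 0x375e006f8a00d58401e13803cae00731201086401d9e003b62)) 
(.leaf (nat_lit 0x9eb4013d6801dda804114))) (.leaf (nat_lit 0x13d68027ad0037ec))) (.node 
(.leaf (nat_lit 0x13d68027ad004088)) (.leaf (nat_lit 0x13d68027ad004f20)))) (.node (.node 
(.leaf (nat_lit 0x9eb4013d6801e4a004ed1)) 
(.leaf (nat_lit 0x1cc3003dce00663400f73c01e87003f2500a2fa00ef88026100052f6))) (.node 
(.leaf (nat_lit 0x13d68027ad0045ab)) 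
(.leaf (nat_lit 0x817600f55001d19004705008f7e011c24021808046b2008df201152802bd0004040)))))) (.node 
(.node (.node (.node (.node (.leaf (nat_lit 0x27ad003120005c1000e94801a4a803831)) 
(.leaf (nat_lit 0x9eb4013d6801b24804848))) (.leaf (nat_lit 0x13d68027ad003a27))) (.node 
(.leaf (nat_lit 0x13d68027ad003189)) (.leaf (nat_lit 0x13d68027ad004358)))) (.node (.node 
(.leaf (nat_lit 0x9eb4013d6801963004a7e)) (.leaf (nat_lit 0x13d68027ad003595))) (.node 
(.leaf (nat_lit 0x9eb400d07c01baf804d93)) (.leaf (nat_lit 0x13d68027ad003b67))))) (.node (.node 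
(.node (.leaf (nat_lit 0x9eb4013d6801bb580445b)) (.leaf (nat_lit 0x9eb4013d6801bfa0052cc))) (.node 
(.leaf (nat_lit 0x13d68027ad0039f9)) (.leaf (nat_lit 0xeaa001d0d00339b007e6001386c01f9d805706)))) 
(.node (.node (.leaf (nat_lit 0x3853006a040122dc02f75805fd600bdd60188100317600614f)) 
(.leaf (nat_lit 0x13d68027ad003601))) (.node (.leaf (nat_lit 0x9eb4013d6801ab8005007)) 
(.leaf (nat_lit 0x9eb4013d6801cb48050f9)))))))) (.node (.node (.node (.node (.node (.node (.node 
(.leaf (nat_lit 0x4f5a009eb400d20c0189f0041ce)) (.leaf (nat_lit 0x9eb4013d6801cc0004340))) 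
(.leaf (nat_lit 0x9eb4013d6801ace804f66))) (.node (.leaf (nat_lit 0x13d68027ad0047bb)) 
(.leaf (nat_lit 0x1d188049ff00632000fba402399803ea8)))) (.node (.node 
(.leaf (nat_lit 0x9eb4013d6801ad6804873)) (.leaf (nat_lit 0x13d68027ad0038e4))) (.node 
(.leaf (nat_lit 0x13d68027ad0046cf)) (.leaf (nat_lit 0x1df68034de00642c00fbc802b35803ddc))))) 
(.node (.node (.node (.node (.leaf (nat_lit 0x4f5a009eb4009534012df002c98)) 
(.leaf (nat_lit 0x9eb4013d6801a2780321a))) (.leaf (nat_lit 0x13d68027ad003c6d))) (.node 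
(.leaf (nat_lit 0x13d68027ad004710)) (.leaf (nat_lit 0x13d68027ad0043af)))) (.node (.node 
(.leaf (nat_lit 0x9eb4013d6801aff004332)) (.leaf (nat_lit 0x13d68027ad004bfa))) (.node 
(.leaf (nat_lit 0x13d68027ad0033d7)) (.leaf (nat_lit 0x13d68027ad003df2)))))) (.node (.node (.node 
(.node (.node (.leaf (nat_lit 0x9eb4013d6801c008046ae)) (.leaf (nat_lit 0x9eb4013d68018490053f7))) 
(.leaf (nat_lit 0x13d68027ad0034e6))) (.node (.leaf (nat_lit 0x9eb400a1d401681003d42)) 
(.leaf (nat_lit 0x13d68027ad003db6)))) (.node (.node (.leaf (nat_lit 0x9eb4013d6801ad9804e5e)) 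
(.leaf (nat_lit 0x13d68027ad00383a))) (.node 
(.leaf (nat_lit 0x6faa00cc2001a6b005116007e7000f9b802908804f7d)) 
(.leaf (nat_lit 0x13d68027ad003c0d))))) (.node (.node (.node (.node 
(.leaf (nat_lit 0x9eb4013d6801af78050de)) (.leaf (nat_lit 0x9eb4013d6801d128054fa))) 
(.leaf (nat_lit 0x9eb4013d68018a2005643))) (.node (.leaf (nat_lit 0x13d68027ad00493f)) 
(.leaf (nat_lit 0x13d68027ad003f15)))) (.node (.node (.leaf (nat_lit 0x13d68027ad00464d)) 
(.leaf (nat_lit 0x1dd900495900696e010ab40270f8043be))) (.node 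
(.leaf (nat_lit 0x9eb4013d6801ba7804b84)) (.leaf (nat_lit 0x9eb4013d6801b9d804b89))))))) (.node 
(.node (.node (.node (.node (.node (.leaf (nat_lit 0x9eb4013d68019c8804662)) 
(.leaf (nat_lit 0x9eb4013d680192e003996))) (.leaf (nat_lit 0x13d68027ad0035ef))) (.node 
(.leaf (nat_lit 0x13d68027ad0042b6)) (.leaf (nat_lit 0x13d68027ad0038d5)))) (.node (.node 
(.leaf (nat_lit 0x4f5a009eb400e0100268e00487b)) (.leaf (nat_lit 0x13d68027ad003bc3))) (.node 
(.leaf (nat_lit 0x13d68027ad0044c5)) (.leaf (nat_lit 0x13d68027ad00313f))))) (.node (.node (.node 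
(.node (.leaf (nat_lit 0x13d68018c280300b006ba600c54801b780036fe)) 
(.leaf (nat_lit 0x9eb4013d6801b9a8047de))) (.leaf (nat_lit 0x13d68027ad0037c3))) (.node 
(.leaf (nat_lit 0x13d68027ad003a84)) 
(.leaf (nat_lit 0x75e800e00401a28803e9f00882400fab402601003da5)))) (.node (.node 
(.leaf (nat_lit 0x1b9c803bf80067400119a002ae280471f)) 
(.leaf (nat_lit 0x4f5a009eb400c3e402560804ed6))) (.node (.leaf (nat_lit 0x13d68027ad002f69)) 
(.leaf (nat_lit 0x9eb4013d6801f930058d3)))))) (.node (.node (.node (.node (.node 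
(.leaf (nat_lit 0x27ad004f5a004d64005da000dd9801d1e)) (.leaf (nat_lit 0x9eb4013d6801d8a8059e3))) 
(.leaf (nat_lit 0x13d68027ad003a61))) (.node (.leaf (nat_lit 0x13d68027ad003fbb)) 
(.leaf (nat_lit 0x13d68027ad005918)))) (.node (.node 
(.leaf (nat_lit 0x4f5a009eb400c8f4017a2003534)) (.leaf (nat_lit 0x13d68027ad0035e4))) (.node 
(.leaf (nat_lit 0x13d68027ad0043aa)) 
(.leaf (nat_lit 0x77ec00dd0401b3c803f0b008ee000fcbc020f4803e39))))) (.node (.node (.node 
(.leaf (nat_lit 0x9eb4013d6801b12804402)) (.leaf (nat_lit 0x13d68027ad003bee))) (.node 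
(.leaf (nat_lit 0x13d68027ad00392d)) (.leaf (nat_lit 0x13d68027ad0037d0)))) (.node (.node 
(.leaf (nat_lit 0x13d68027ad004345)) (.leaf (nat_lit 0x13d68027ad004354))) (.node 
(.leaf (nat_lit 0x9eb4013d6801861004e21)) (.leaf (nat_lit 0x9eb4013d6801a25804f1d))))))))))
noncomputable def gt16 : Ix (Nat) := (.node (.node (.node (.node (.node (.node 
(.leaf (nat_lit 0x7d620123e40212400619f00a618017794025048055d0009c20010a84030ab0040f600821e01026c0213a00505b)) 
(.leaf (nat_lit 0x13d68027ad003362))) (.leaf (nat_lit 0x13d68027ad005a8a))) (.node 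
(.leaf (nat_lit 0x9eb4013d6801bf8805091)) (.leaf (nat_lit 0x13d68027ad00435f)))) (.node (.node 
(.leaf (nat_lit 0x9eb4013d6801fc4006f78)) (.leaf (nat_lit 0x13d68027ad004580))) (.node 
(.leaf (nat_lit 0x9eb4013d680192c803943007a2a00d96c019b5003a70)) 
(.leaf (nat_lit 0x13d68021db80379e))))) (.node (.node (.node (.node 
(.leaf (nat_lit 0x9eb4013d6801ae200304600807a01017c016648040b2)) 
(.leaf (nat_lit 0x13d68027ad003923))) (.leaf (nat_lit 0x13d68027ad004178))) (.node 
(.leaf (nat_lit 0x9eb400d298018a38032b6)) (.leaf (nat_lit 0x13d68027ad00415c)))) (.node (.node 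
(.leaf (nat_lit 0x9eb4013d6801c1d00512f)) (.leaf (nat_lit 0x13d68027ad003c41))) (.node 
(.leaf (nat_lit 0x9eb4013d6801a7b8047b2)) (.leaf (nat_lit 0x13d68027ad003c03)))))) (.node (.node 
(.node (.node (.node (.leaf (nat_lit 0x9eb4013d6801c698062b100c0640171dc031af0056c4)) 
(.leaf (nat_lit 0x13d68027ad004447))) (.leaf (nat_lit 0x13d68027ad004369))) (.node 
(.leaf (nat_lit 0x6d7e00cefc0178400302c0075820110e401c880039080070d400e0400088a00250e00487a00a1f0009a60035c9)) 
(.leaf (nat_lit 0x13d68027ad004b4f)))) (.node (.node (.leaf (nat_lit 0x9eb4013d6801d33804d43)) 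
(.leaf (nat_lit 0x13d68027ad003c60))) (.node 
(.leaf (nat_lit 0x9eb4013d68014be801ffe004f7400994400efa003342)) 
(.leaf (nat_lit 0x13d6801a680030d0))))) (.node (.node (.node (.node 
(.leaf (nat_lit 0x13d68027ad0033a0006d3600e88001abf003cad)) (.leaf (nat_lit 0x13d68027ad00422c))) 
(.leaf (nat_lit 0x13d68027ad004975))) (.node (.leaf (nat_lit 0x9eb4013d6801ac68043dd)) 
(.leaf (nat_lit 0x6c6800cdcc0183f8034a900805e00ee0402050803bbd)))) (.node (.node 
(.leaf (nat_lit 0x9eb4013d6801b0f803823)) (.leaf (nat_lit 0x13d68027ad003c57))) (.node 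
(.leaf (nat_lit 0x3cd00071ea0123740260700651300cd4401706002370006440)) 
(.leaf (nat_lit 0x13d68027ad003e13)))))))
noncomputable def gt17 : Ix (Nat) := (.node (.node (.node (.node (.node 
(.leaf (nat_lit 0x1ca98039b000630001037402b258040df00988600f5a401f2f004454007db4015dbc028f2803bbd)) 
(.leaf (nat_lit 0x9eb4013d6801be2005a2f))) (.leaf (nat_lit 0x9eb4013d68016f5803fcf))) (.node (.node 
(.leaf (nat_lit 0x4f5a009eb400b768022d60037a7)) (.leaf (nat_lit 0x13d68027ad0046a5))) 
(.leaf (nat_lit 0x9eb4013d6801ba1005b60)))) (.node (.node (.node 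
(.leaf (nat_lit 0x9eb4013d6801844004629)) 
(.leaf (nat_lit 0xfde401cf88038ee008d3a0164140239f8056e8))) 
(.leaf (nat_lit 0x9eb4013d6801c1c805ca2))) (.node (.node (.leaf (nat_lit 0x9eb4013d6801277003082)) 
(.leaf (nat_lit 0x13d68027ad005675))) (.leaf (nat_lit 0x9eb4013d680164880401f))))) (.node (.node 
(.node (.node (.leaf (nat_lit 0x9eb4013d6801b850064b2)) (.leaf (nat_lit 0x9eb4013d68016b300412f))) 
(.leaf (nat_lit 0x394a00707e00c55c020cd80545f007d3c00f7d401fe5803efa))) (.node (.node 
(.leaf (nat_lit 0x9eb4013d68015130038fd)) (.leaf (nat_lit 0x13d68027ad0051e7))) 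
(.leaf (nat_lit 0x9eb4013d6801736003d38)))) (.node (.node (.node 
(.leaf (nat_lit 0x4f5a009eb400d78c0324b005d1e)) (.leaf (nat_lit 0x13d68027ad0053d4))) 
(.leaf (nat_lit 0x9eb4013d68019ca0047fc))) (.node (.leaf (nat_lit 0x9eb4013d6801dc080619a)) 
(.leaf (nat_lit 0x9eb4013d6801320003544))))))
noncomputable def gt18 : Ix (Nat) := (.node (.node (.node (.node (.node 
(.leaf (nat_lit 0x1cc9003878007f62010b08026fb005444009ba801487402a6c8041a1)) 
(.leaf (nat_lit 0x13d68027ad005094))) (.leaf (nat_lit 0x13d68027ad002d04))) (.node 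
(.leaf (nat_lit 0x13d68027ad003d70)) 
(.leaf (nat_lit 0x13d68027ad0037d900a99c0150c40275e804eca009e520135180264380532b)))) (.node (.node 
(.node (.leaf (nat_lit 0x13d68027ad003bc1)) (.leaf (nat_lit 0x13d68027ad00540e))) 
(.leaf (nat_lit 0x9eb4013d6801bda806a0f00c02201937c02e06804dc1))) (.node 
(.leaf (nat_lit 0x13d68027ad002a22)) 
(.leaf (nat_lit 0x1024801e0c003a9900932201241c03085805844008fbe011fc80226d0046d7))))) (.node (.node 
(.node (.node (.leaf (nat_lit 0x13d68027ad004c31)) (.leaf (nat_lit 0x13d68027ad00581f))) 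
(.leaf (nat_lit 0x103cc01e408036e4008bc401193802233004551008e6a0120b8021ff8043cb008cb8011db4022c000425f00821801053802efb0042810085ce0111dc020fc0058f700ba56011fc802d628051b2))) 
(.node (.leaf (nat_lit 0x13d68027ad003a7d)) (.leaf (nat_lit 0x4f5a009eb400dff402ccd00554f)))) 
(.node (.node (.leaf (nat_lit 0x13d68027ad005270)) 
(.leaf (nat_lit 0x9eb4013d68018b8004381008ece00e26c01edc803510))) (.node 
(.leaf (nat_lit 0x13d68027ad004e03)) (.leaf (nat_lit 0x13d68027ad004c21))))))
noncomputable def gt19 : Ix (Nat) := (.node (.node (.node (.node (.node 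
(.leaf (nat_lit 0x1b1080350b006c8601230c02b5b8058b700ac8801562402774004b7c)) 
(.leaf (nat_lit 0x13d68027ad004b80))) (.leaf (nat_lit 0x13d68027ad002a52))) (.node 
(.leaf (nat_lit 0x13d68027ad003e2f)) 
(.leaf (nat_lit 0x9eb4013d6801a2a004f8c00963e0142e00254100444c)))) (.node (.node (.node 
(.leaf (nat_lit 0x13d68027ad003be8)) (.leaf (nat_lit 0x13d68027ad0037bc))) 
(.leaf (nat_lit 0x9eb4013d6801a6200610b))) (.node (.leaf (nat_lit 0x13d68027ad0029f9)) 
(.leaf (nat_lit 0x3cec00742800d8200230e80492700d5d401153c02187004217))))) (.node (.node (.node 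
(.node (.leaf (nat_lit 0x13d68027ad004b1c)) (.leaf (nat_lit 0x13d68027ad0052c1))) 
(.leaf (nat_lit 0x77e800f94c019920068fb0086d80102d001fc4003fe3007f0c00fc3c02b51003da600809200fa4801ef88039d9))) 
(.node (.leaf (nat_lit 0x13d68027ad003b4a)) (.leaf (nat_lit 0x9eb4013d6801a95005958)))) (.node 
(.node (.leaf (nat_lit 0x13d68027ad005479)) (.leaf (nat_lit 0x9eb4013d680169f0037f3))) (.node 
(.leaf (nat_lit 0x13d68027ad004e22)) (.leaf (nat_lit 0x13d68027ad0056e8))))))
noncomputable def gt20 : Ix (Nat) := (.node (.node (.node (.node (.node (.node (.node (.node (.node 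
(.leaf (nat_lit 0x3a8f00955c012c6c02f5680593f00b09001024c02a15003ede009ca4014964027dd004dda00a516015afc01cc3804f1d00a8a8014b6002a16004db2)) 
(.leaf (nat_lit 0x13d68027ad0030ec00839e01030c0228c8037560080120107ac01ce4803c6b))) 
(.leaf (nat_lit 0x77ba00e1b801a238040ed00820600f39c0272e8049b700804601455801d4b0049b4))) (.node 
(.leaf (nat_lit 0x13d68027ad0040f1)) (.leaf (nat_lit 0x13d68027ad003889)))) (.node (.node 
(.leaf (nat_lit 0x27ad004f5a006bf401586801cee804961)) (.leaf (nat_lit 0x13d68027ad004373))) (.node 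
(.leaf (nat_lit 0x13d68027ad003da5)) 
(.leaf (nat_lit 0x27ad004f5a0074cc007ce8010a1002ffc005a0e00df8800dff003261006e0200a88002032003ff2))))) 
(.node (.node (.node (.node (.leaf (nat_lit 0x9eb4013d68016bc803c36006c9a00ef9401bd7803c3c)) 
(.leaf (nat_lit 0xf10001c738037e70083980103b0029ce804ad200a77801384401fa0803fe1))) 
(.leaf (nat_lit 0x13d68027ad00401a))) (.node (.leaf (nat_lit 0x13d68027ad003831)) 
(.leaf (nat_lit 0x13d68027ad004199)))) (.node (.node (.leaf (nat_lit 0x13d680208500309c)) 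
(.leaf (nat_lit 0x424b00825400e88c02402004828008e5201232c021f780459b009d120136c4024748042df))) 
(.node (.leaf (nat_lit 0x13d68027ad00340c)) 
(.leaf (nat_lit 0xf71801c3700385900833601050c0272d00441e00a74c0136c401f8e803fee)))))) (.node (.node 
(.node (.node (.node (.leaf (nat_lit 0x4f5a009eb400cf9c0280f804cd3)) 
(.leaf (nat_lit 0x13d68027ad004ba9))) (.leaf (nat_lit 0x13d68027ad003bab))) (.node 
(.leaf (nat_lit 0x13d68027ad0041c5)) (.leaf (nat_lit 0x13d68027ad00410d)))) (.node (.node 
(.leaf (nat_lit 0x27ad004f5a006fee010b3c01f11804866)) (.leaf (nat_lit 0x13d68027ad0046b0))) (.node 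
(.leaf (nat_lit 0x13d68027ad0039ef)) 
(.leaf (nat_lit 0xf8e801e94803b76008cbe01142802abe004ff4009e88011df8023260042a7))))) (.node (.node 
(.node (.node (.leaf (nat_lit 0x4f5a009eb400c09001d5e803ecc)) (.leaf (nat_lit 0x13d68027ad0038b9))) 
(.leaf (nat_lit 0xf55401ba8803657007f8001017401fd2803e2c007d6e00f14801f4e005358007be60138f001f6a0056d6007ee000faa0023b0803c7f0077d600f5a401e16804d5a008f7e0127b002737004917))) 
(.node (.leaf (nat_lit 0x13d68027ad004603)) (.leaf (nat_lit 0x13d68027ad00446f)))) (.node (.node 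
(.leaf (nat_lit 0x13d68027ad0031ec0086b200f9cc0214d003857006d9400d51401a6a8033a3)) 
(.leaf (nat_lit 0x9eb4013d6801c2f805aef))) (.node (.leaf (nat_lit 0x13d68027ad0047f5)) 
(.leaf (nat_lit 0x4f5a009eb400d3f000a638033de))))))) (.node (.node (.node (.node (.node (.node 
(.leaf (nat_lit 0x27ad004f5a0065b8010268020560045c8009470012560023838038ce)) 
(.leaf (nat_lit 0x1e1e8038bb006ca601000402055804abd009a8001328c02005004003))) 
(.leaf (nat_lit 0x13d68027ad003e72))) (.node (.leaf (nat_lit 0x13d68027ad003e83)) 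
(.leaf (nat_lit 0x13d68027ad004563)))) (.node (.node 
(.leaf (nat_lit 0x27ad004f5a009d2e01092c01ffa004e0e)) 
(.leaf (nat_lit 0xf3f801f4100355e008b3801075402ca9004c4d))) (.node 
(.leaf (nat_lit 0x13d68027ad004f6f)) (.leaf (nat_lit 0x9eb4013d6801a1a0046e2))))) (.node (.node 
(.node (.node (.leaf (nat_lit 0x27ad004f5a005cf200f65401ef3803b1f)) 
(.leaf (nat_lit 0x13d68027ad0047e1))) (.leaf (nat_lit 0x13d68027ad004d14))) (.node 
(.leaf (nat_lit 0x13d680210480392c)) (.leaf (nat_lit 0x13d68027ad0041ec)))) (.node (.node 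
(.leaf (nat_lit 0x27ad004f5a006d400139d002188004df8)) (.leaf (nat_lit 0x9eb4013d680217a8064cf))) 
(.node (.leaf (nat_lit 0xe40801a848035d500a1a20139ec0212a004663007a2c00fb6802894004411)) 
(.leaf (nat_lit 0x13d68027ad0050a9)))))) (.node (.node (.node (.node (.node 
(.leaf (nat_lit 0xc45801751802c2500814e00dbe802210003792007d5400c23c017d6002ece005f3400b9c4018cd002ecd00633200cdd4019d3802dcc)) 
(.leaf (nat_lit 0x13d68027ad004345))) (.leaf (nat_lit 0xef480283480347b0082c80103ac027048040c6))) 
(.node (.leaf (nat_lit 0x13d68027ad003318)) (.leaf (nat_lit 0x13d68027ad004f52)))) (.node (.node 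
(.leaf (nat_lit 0x4f5a009eb400dabc02946005286)) (.leaf (nat_lit 0x13d68027ad0032d4))) (.node 
(.leaf (nat_lit 0x13d68027ad003cb8)) (.leaf (nat_lit 0x13d68027ad0039b8))))) (.node (.node (.node 
(.leaf (nat_lit 0x13d68027ad00482d)) (.leaf (nat_lit 0x13d68027ad005040))) (.node 
(.leaf (nat_lit 0x13d68027ad003eaa)) (.leaf (nat_lit 0x13d68027ad003c33)))) (.node (.node 
(.leaf (nat_lit 0x27ad004f5a006dda01474801c0680442b)) (.leaf (nat_lit 0x13d68027ad005960))) (.node 
(.leaf (nat_lit 0x13d68027ad003df7)) (.leaf (nat_lit 0x4f5a009eb400f29002a2d8058f5)))))))) (.node 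
(.node (.node (.node (.node (.node (.node 
(.leaf (nat_lit 0x27ad004f5a00610600bb44016720036b0007fda011e700256c003686)) 
(.leaf (nat_lit 0x9eb4013d6801b43804c36))) (.leaf (nat_lit 0x9eb4013d68019e0804ff3))) (.node 
(.leaf (nat_lit 0x13d68027ad004553)) (.leaf (nat_lit 0x13d68027ad003f14)))) (.node (.node 
(.leaf (nat_lit 0x27ad004f5a006bfe012bf801d3d8045a7)) (.leaf (nat_lit 0x13d68027ad0052b3))) (.node 
(.leaf (nat_lit 0x13d68027ad003c51)) 
(.leaf (nat_lit 0xf17401b7b00339d0081b60105e80247e803f2d007c4800f0cc01f3f803ea7007d0a01067001ebd80511e00a83e00f37c01ecf803ba10084be00f11001e620039d2))))) 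
(.node (.node (.node (.node (.leaf (nat_lit 0x9eb4013d68017608035e400721800ee6401cb5003787)) 
(.leaf (nat_lit 0x13d68027ad004fc2))) 
(.leaf (nat_lit 0x1e74003a5e006ebc014ac8020ab004b1b0081540144a80273e8040cc))) (.node 
(.leaf (nat_lit 0x3984006c8a00eb2401ee300418900919e01412001ffc803e5e)) 
(.leaf (nat_lit 0x13d68027ad00399f)))) (.node (.node (.leaf (nat_lit 0x13d68027ad00537f)) 
(.leaf (nat_lit 0x9eb4013d68025eb805a90))) (.node (.leaf (nat_lit 0x13d68027ad0049a8)) 
(.leaf (nat_lit 0x13d68027ad003f1e)))))) (.node (.node (.node (.node (.node 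
(.leaf (nat_lit 0x4f5a009eb400d3140238b0048c3)) 
(.leaf (nat_lit 0x1dde0034f100655e010704020e48059b5))) (.leaf (nat_lit 0x13d68027ad003cef))) (.node 
(.leaf (nat_lit 0x13d6801eca0036a3)) (.leaf (nat_lit 0x13d68027ad0058f4)))) (.node (.node 
(.leaf (nat_lit 0x4f5a009eb400de2c028eb8043fc)) 
(.leaf (nat_lit 0xeaf801bf18033220082220105ac02ca70063e9))) (.node 
(.leaf (nat_lit 0x13d68027ad003420)) (.leaf (nat_lit 0x13d68027ad003ec0))))) (.node (.node (.node 
(.node (.leaf (nat_lit 0x9eb4013d68018f680496f)) (.leaf (nat_lit 0x13d68027ad004019))) 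
(.leaf (nat_lit 0x13d68027ad00312b00852001175c01f2e003de20089a801104c01ccc004492))) (.node 
(.leaf (nat_lit 0x13d68027ad003d57)) (.leaf (nat_lit 0x13d68027ad003e7f)))) (.node (.node 
(.leaf (nat_lit 0x9eb4013d6801a4a00444600937600fb6c01b408049c3)) 
(.leaf (nat_lit 0x9eb4013d68019c500599c))) (.node 
(.leaf (nat_lit 0xf1fc0223080331000a852010250020a1003ff1)) 
(.leaf (nat_lit 0x9eb4013d6801b378041fd))))))) (.node (.node (.node (.node (.node (.node 
(.leaf (nat_lit 0x4f5a009eb400d444038a08063e2)) (.leaf (nat_lit 0x13d68027ad0038d0))) 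
(.leaf (nat_lit 0x3c3f006d0a00d9b8020130040b500b1d00168d80207c804026))) (.node 
(.leaf (nat_lit 0x13d68027ad004292)) (.leaf (nat_lit 0x13d68027ad00553c)))) (.node (.node 
(.leaf (nat_lit 0x27ad004f5a006a90014b780267c004ac2)) (.leaf (nat_lit 0x13d68027ad0041db))) (.node 
(.leaf (nat_lit 0x13d68027ad003f73)) 
(.leaf (nat_lit 0x27ad004f5a0066060076cc01dd3803ee900818a00e8b001e4e8033fb0057b200e64801cee003aef))))) 
(.node (.node (.node (.node (.leaf (nat_lit 0x4f5a009eb400d35001807804747)) 
(.leaf (nat_lit 0x1e29803b1f00698a010614020d1805045))) (.leaf (nat_lit 0x13d68027ad004332))) (.node 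
(.leaf (nat_lit 0x4f5a00614800d1a40204e003f1b)) (.leaf (nat_lit 0x13d68027ad0037e5)))) (.node 
(.node (.leaf (nat_lit 0x27ad004f5a0064e401245401dc380475a)) 
(.leaf (nat_lit 0x9eb4013d6801b31805bdc))) (.node (.leaf (nat_lit 0x4f5a0062d400fa04024e5004cd0)) 
(.leaf (nat_lit 0xf9d001caa8037a9008cfc01128c028c30041dd00a544010d30021e60054fc00971001026402b1a8042a4008b720136fc01f93803cb1)))))) 
(.node (.node (.node (.node (.node (.leaf (nat_lit 0x27ad0026d700506800c1cc01820802d89)) 
(.leaf (nat_lit 0x13d68027ad00365f))) (.leaf (nat_lit 0x13d68027ad004098))) (.node 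
(.leaf (nat_lit 0x13d68027ad00319c)) (.leaf (nat_lit 0x13d68027ad003e51)))) (.node (.node 
(.leaf (nat_lit 0x1bfa00396e006bb6014d2c025978043ca)) (.leaf (nat_lit 0x13d68027ad0042a9))) (.node 
(.leaf (nat_lit 0x13d68027ad004265)) (.leaf (nat_lit 0x13d68027ad00583b))))) (.node (.node (.node 
(.leaf (nat_lit 0x27ad004f5a00635600691000f42801d65004af200a4e80194f002fee)) 
(.leaf (nat_lit 0xf60401c8c0037640084120106140298000545a007e4c00ff0c01fbd003fdc))) (.node 
(.leaf (nat_lit 0x13d68027ad003982)) (.leaf (nat_lit 0x9eb4013d68020c2004b4d)))) (.node (.node 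
(.leaf (nat_lit 0x13d68027ad0060a0)) (.leaf (nat_lit 0x13d68027ad004ff3))) (.node 
(.leaf (nat_lit 0x13d68027ad003e43)) 
(.leaf (nat_lit 0xf40801c3800382f0082f801073c02a6e803dd7008bfa00f70801e3080562c008b22015050029a68039c20096200147a40276b00388c))))))))) 
(.node (.node (.node (.node (.node (.node (.node (.node 
(.leaf (nat_lit 0x27ad004f5a006aee01454c02a638056f300c7080187ec02f46005aed)) 
(.leaf (nat_lit 0x4f5a009eb400f4dc02cf70058ed))) (.leaf (nat_lit 0x9eb4013d6801c008056b8))) (.node 
(.leaf (nat_lit 0x13d68027ad004965)) (.leaf (nat_lit 0x13d68027ad005916)))) (.node (.node 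
(.leaf (nat_lit 0x27ad004f5a0068da01330401c1e004114)) (.leaf (nat_lit 0x13d68027ad004835))) (.node 
(.leaf (nat_lit 0x13d68027ad004cc0)) (.leaf (nat_lit 0x4f5a009eb4010ce002bed005a14))))) (.node 
(.node (.node (.node (.leaf (nat_lit 0x9eb4013d680136a002e7b0057ea00b5d801859002dc9)) 
(.leaf (nat_lit 0x13d68027ad0042be))) (.leaf (nat_lit 0x13d68027ad004426))) (.node 
(.leaf (nat_lit 0x13d68027ad003c5e)) (.leaf (nat_lit 0xeb60024ab80330a008502010cd802e1900418f)))) 
(.node (.node (.leaf (nat_lit 0x13d68027ad0049bf)) (.leaf (nat_lit 0x13d68027ad004c9a))) (.node 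
(.leaf (nat_lit 0x13d68027ad00459a)) (.leaf (nat_lit 0x13d68027ad00491b)))))) (.node (.node (.node 
(.node (.node (.leaf (nat_lit 0x4f5a009eb400d27c02a51004785)) (.leaf (nat_lit 0x13d68027ad0034b4))) 
(.leaf (nat_lit 0x13d68027ad003c37))) (.node 
(.leaf (nat_lit 0x2e750063aa00bcb8020440041f1008eea012b4401df1803ddd)) 
(.leaf (nat_lit 0xf7500223180548a00bb3201598402a208045f7)))) (.node (.node 
(.leaf (nat_lit 0x27ad004f5a007166013be001fa2003d8100a342013bbc01ef8003cd6)) 
(.leaf (nat_lit 0x13d68027ad004c38))) (.node (.leaf (nat_lit 0x13d68027ad003a0f)) 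
(.leaf (nat_lit 0x13d68027ad005622))))) (.node (.node (.node (.node 
(.leaf (nat_lit 0x9eb400c45c01783803448006cea00d574011178036ac)) 
(.leaf (nat_lit 0x13d68027ad0037ad))) 
(.leaf (nat_lit 0x9eb4013d6801c4e804e92009c7a00f7e801fd3803ff3))) (.node 
(.leaf (nat_lit 0x13d68027ad004aac)) (.leaf (nat_lit 0x13d68027ad004b0e)))) (.node (.node 
(.leaf (nat_lit 0x27ad003088005da400e51801c37803982)) (.leaf (nat_lit 0x9eb4013d680192680543e))) 
(.node (.leaf (nat_lit 0x13d68027ad003b8b)) (.leaf (nat_lit 0x9eb4013d68023da005992))))))) (.node 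
(.node (.node (.node (.node (.node (.leaf (nat_lit 0x13d68027ad002f6f005d9000d4b801be28036dc)) 
(.leaf (nat_lit 0x13d68027ad003b84))) (.leaf (nat_lit 0x9eb4013d6801b8480530d))) (.node 
(.leaf (nat_lit 0x13d68027ad0044d2)) (.leaf (nat_lit 0x13d68027ad0042a4)))) (.node (.node 
(.leaf (nat_lit 0x4f5a009eb400da5002bae0042e5)) (.leaf (nat_lit 0x13d68027ad00402e))) (.node 
(.leaf (nat_lit 0x13d68027ad0045ee)) (.leaf (nat_lit 0x4f5a009eb400f80c02a96005ad6))))) (.node 
(.node (.node (.node 
(.leaf (nat_lit 0x76b0010edc01989804544007ad60101ec020ca80421f006d9000db5001c22803db9)) 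
(.leaf (nat_lit 0x13d68027ad00505b))) (.leaf (nat_lit 0x13d68027ad00364c))) (.node 
(.leaf (nat_lit 0x13d68027ad003fd6)) (.leaf (nat_lit 0x13d68027ad00429e)))) (.node (.node 
(.leaf (nat_lit 0x4f5a009eb400c01801cb0003a4c)) 
(.leaf (nat_lit 0x3a4c006dc600c950020c080422900a56a015fd0028f50056ae00a798016640026648050fa))) 
(.node (.leaf (nat_lit 0x13d68027ad0041d3)) (.leaf (nat_lit 0x13d68027ad004a84)))))) (.node (.node 
(.node (.node (.node (.leaf (nat_lit 0x27ad002ede0059e0013ef402959003bc1)) 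
(.leaf (nat_lit 0x13d68027ad0046b5))) (.leaf (nat_lit 0x13d68027ad003b8d))) (.node 
(.leaf (nat_lit 0x13d68027ad003d1c)) (.leaf (nat_lit 0x13d68027ad00452b)))) (.node (.node 
(.leaf (nat_lit 0x27ad004f5a00652c016c5c01d798052a7)) (.leaf (nat_lit 0x13d68027ad0036cb))) (.node 
(.leaf (nat_lit 0x13d6801a490032db)) (.leaf (nat_lit 0x13d68027ad0036b4))))) (.node (.node (.node 
(.leaf (nat_lit 0x27ad004f5a006a8c013ee001cb4004071)) 
(.leaf (nat_lit 0x9eb4013d6801a18804f25009fbc0127ec0266f005317))) (.node 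
(.leaf (nat_lit 0x13d68027ad003b60)) 
(.leaf (nat_lit 0x10e0401fbc003b7b00930001202c0211c004773008e3c011a68023b480493b00927201183c022e7803925008ec8010dcc024fd80463d009118011c10021dd004321)))) 
(.node (.node (.leaf (nat_lit 0xdc9c0258a004d39009bb2016d1002c0c005e6800c6c4018958025a2805ea4)) 
(.leaf (nat_lit 0x13d68027ad003bf7))) (.node (.leaf (nat_lit 0x13d68027ad0042c8)) 
(.leaf (nat_lit 0x4f5a009eb400e8300153a003e38)))))))) (.node (.node (.node (.node (.node (.node 
(.node (.leaf (nat_lit 0x13d68027ad002ea800650e00e184023de003a5b)) 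
(.leaf (nat_lit 0x4f5a009eb400de58028b700514e))) (.leaf (nat_lit 0x9eb4013d6801b3e8051f1))) (.node 
(.leaf (nat_lit 0x13d68027ad005bc7)) 
(.leaf (nat_lit 0x3acb006e3801041c0208780418e00aa620161d802061804142)))) (.node (.node 
(.leaf (nat_lit 0x4f5a009eb400dbec021b0804497)) (.leaf (nat_lit 0x13d68027ad00431f))) (.node 
(.leaf (nat_lit 0x13d68027ad004570)) (.leaf (nat_lit 0x4f5a009eb400e1f80295b8050fd))))) (.node 
(.node (.node (.node (.leaf (nat_lit 0x9eb4013d680136180240d005bc200af8c01301802bd1)) 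
(.leaf (nat_lit 0x13d68027ad0042e9))) (.leaf (nat_lit 0x13d68027ad003a73))) (.node 
(.leaf (nat_lit 0x13d68027ad004562)) (.leaf (nat_lit 0x13d68027ad00385b)))) (.node (.node 
(.leaf (nat_lit 0x27ad004f5a006ecc014e1001d70804969)) (.leaf (nat_lit 0x9eb4013d6801d50005521))) 
(.node (.leaf (nat_lit 0x13d68027ad00493d)) (.leaf (nat_lit 0x13d68027ad004007)))))) (.node (.node 
(.node (.node (.node (.leaf (nat_lit 0x27ad004f5a0068dc01009801e9c003f0c)) 
(.leaf (nat_lit 0x13d68027ad003cd1))) (.leaf (nat_lit 0x13d68027ad004929))) (.node 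
(.leaf (nat_lit 0x13d6801838802d0a)) (.leaf (nat_lit 0x13d68027ad003d23)))) (.node (.node 
(.leaf (nat_lit 0x27ad004f5a007472010fc002006805711)) (.leaf (nat_lit 0x13d68027ad003904))) (.node 
(.leaf (nat_lit 0x34eb00633600d4e0025008046500078c800e7b002302804576)) 
(.leaf (nat_lit 0x13d68027ad00518a))))) (.node (.node (.node (.node 
(.leaf (nat_lit 0x27ad004f5a006b78011b6c01c71804638)) (.leaf (nat_lit 0x13d68027ad003c5c))) 
(.leaf (nat_lit 0x4f5a009eb400d17802516804c5e))) (.node (.leaf (nat_lit 0x13d68027ad004633)) 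
(.leaf (nat_lit 0x13d68027ad003cee)))) (.node (.node 
(.leaf (nat_lit 0x9eb4013d6801afa00538a00a69200e534025568047a7)) 
(.leaf (nat_lit 0x3d080073de00fab002ae480564500b89a015fd0022ab00456f))) (.node 
(.leaf (nat_lit 0x13d68027ad003c9e)) (.leaf (nat_lit 0x9eb4013d6801aaa001d9b))))))) (.node (.node 
(.node (.node (.node (.node (.leaf (nat_lit 0x4f5a009eb400cf1c028bc004330)) 
(.leaf (nat_lit 0x13d68027ad00408c))) (.leaf (nat_lit 0x13d68027ad00394c))) (.node 
(.leaf (nat_lit 0x13d68027ad0041a2)) (.leaf (nat_lit 0x13d68027ad004af9)))) (.node (.node 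
(.leaf (nat_lit 0x13d68027ad004faa)) (.leaf (nat_lit 0x13d68027ad003d34))) (.node 
(.leaf (nat_lit 0x13d68027ad00428e)) (.leaf (nat_lit 0x4f5a009eb400d708029a280523a))))) (.node 
(.node (.node (.node (.leaf (nat_lit 0x13d68021be803446)) (.leaf (nat_lit 0x13d68027ad003ddb))) 
(.leaf (nat_lit 0x13d68027ad004015))) (.node (.leaf (nat_lit 0x13d68027ad004019)) 
(.leaf (nat_lit 0x1e6f0038d1006c30010254020a780445e0094dc0124500202e003fd5)))) (.node (.node 
(.leaf (nat_lit 0xf05001a5580362e009a82011de00295380370000720e00dae801c90803d1f007c780101640204b0039e7007f5a00f51401cae803a51)) 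
(.leaf (nat_lit 0x13d68027ad00365c))) (.node (.leaf (nat_lit 0x13d68027ad0047b5)) 
(.leaf (nat_lit 0x4f5a009eb400e7b402893805346)))))) (.node (.node (.node (.node (.node 
(.leaf (nat_lit 0x27ad004f5a004b680105f801e4580288d)) (.leaf (nat_lit 0x13d68027ad003d9b))) 
(.leaf (nat_lit 0x13d68027ad003e4a))) (.node (.leaf (nat_lit 0x13d68027ad0048c7)) 
(.leaf (nat_lit 0x13d68027ad005a16)))) (.node (.node (.leaf (nat_lit 0x13d68027ad004585)) 
(.leaf (nat_lit 0x13d68027ad003819))) (.node (.leaf (nat_lit 0x13d68027ad003b73)) 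
(.leaf (nat_lit 0x13d68027ad003c09))))) (.node (.node (.node 
(.leaf (nat_lit 0x4f5a009eb400d5b001d8e804cec)) (.leaf (nat_lit 0x13d68027ad003acb))) (.node 
(.leaf (nat_lit 0x13d68027ad003c8c)) (.leaf (nat_lit 0x4f5a009eb401181002a70805893)))) (.node 
(.node (.leaf (nat_lit 0x13d68027ad004a8f)) (.leaf (nat_lit 0x13d68027ad0044a0))) (.node 
(.leaf (nat_lit 0x13d68027ad004550)) (.leaf (nat_lit 0x4f5a009eb400e39402b54004d66))))))))))
noncomputable def gt21 : Ix (Nat) := (.node (.node (.node (.node (.node (.node 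
(.leaf (nat_lit 0x2133003db50071f4011c040253500470100915c0111e80219300458f008c76011180022128044940087640111ac022838043bc0087ea0110fc0218a8042c90092940118bc02080804566008fa2010ca40217b0040be)) 
(.leaf (nat_lit 0x13d68027ad0035cf))) (.leaf (nat_lit 0x13d68027ad006158))) (.node 
(.leaf (nat_lit 0x4f5a009eb400e888022a78042fe)) (.leaf (nat_lit 0x9eb4013d68025078058de)))) (.node 
(.node (.leaf (nat_lit 0x27ad004f5a0078c001acf4022c680724b)) (.leaf (nat_lit 0x13d68027ad004605))) 
(.node (.leaf (nat_lit 0x27ad004f5a0064d600e9540204c803e79)) 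
(.leaf (nat_lit 0x13d680224800353d))))) (.node (.node (.node (.node 
(.leaf (nat_lit 0x27ad004f5a0071de00fd14020af0055d3)) (.leaf (nat_lit 0x13d68027ad003804))) 
(.leaf (nat_lit 0x13d68027ad004289))) (.node 
(.leaf (nat_lit 0x13d6801b538033710075aa00705401c85802c1600743e00dea401d9a003c5b0073dc00e588001fc003a07)) 
(.leaf (nat_lit 0x9eb4013d6801dcb004b7c)))) (.node (.node 
(.leaf (nat_lit 0x27ad004f5a0074c6010cc0022fe80434a)) (.leaf (nat_lit 0x9eb4013d6801e5f80503e))) 
(.node (.leaf (nat_lit 0x27ad004f5a00690e0029c001954802a1e)) 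
(.leaf (nat_lit 0x13d68027ad003c09)))))) (.node (.node (.node (.node (.node 
(.leaf (nat_lit 0x27ad004f5a007dc0016c0402ef28072db)) (.leaf (nat_lit 0x13d68027ad0048f6))) 
(.leaf (nat_lit 0x13d68027ad00474e))) (.node 
(.leaf (nat_lit 0xe7b401c1d003188004c2400eb7001d53803d75004d8800ed9c01eb5803daa00776e00f2c801371003b42007a0e00f24c01de2003d75007c4400dd88018b40038ed)) 
(.leaf (nat_lit 0x9eb4013d68022b5004e9a)))) (.node (.node 
(.leaf (nat_lit 0x27ad004f5a0076c80153d002440004489)) (.leaf (nat_lit 0x9eb4013d6801e1e806c98))) 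
(.node (.leaf (nat_lit 0x27ad004f5a00575800d194018dd8036b1)) 
(.leaf (nat_lit 0x13d6801d1500312f))))) (.node (.node (.node (.node 
(.leaf (nat_lit 0x27ad004f5a0063fe0058680139c003656)) (.leaf (nat_lit 0x9eb4013d6801f72002583))) 
(.leaf (nat_lit 0x13d68027ad005478))) (.node (.leaf (nat_lit 0x9eb4013d6801c3c804c71)) 
(.leaf (nat_lit 0x3814006a9e00c27801dcf0032ce00789800dcac01e9a00393e)))) (.node (.node 
(.leaf (nat_lit 0x4f5a009eb400e1e0004a0003c3f007cc6005c1001f2f003dd4)) 
(.leaf (nat_lit 0x9eb4013d68021ab8050df))) (.node 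
(.leaf (nat_lit 0xfb8c01db20036b9009f820115ac0226b0057ad00a36e011df80234e00471c008d36011b74023bb803fb9)) 
(.leaf (nat_lit 0x13d68027ad004009)))))))
noncomputable def gt22 : Ix (Nat) := (.node (.node (.node (.node (.node (.node 
(.leaf (nat_lit 0x42b7007e1800ea6c0237600474a00896c00fd0c021ba0040f9009bd600ff7802acd803a9d)) 
(.leaf (nat_lit 0x83ba00fb1801e9d004b360092b6012bc4024d500498b))) (.node 
(.leaf (nat_lit 0x9eb4013d6801e1f005cfb)) (.leaf (nat_lit 0x9eb4013d6801e6b00469a)))) (.node (.node 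
(.leaf (nat_lit 0x13d68027ad0046c9)) (.leaf (nat_lit 0x23210047d3007fd801378002611004ab7))) 
(.leaf (nat_lit 0x9eb4013d6801cfb80508a)))) (.node (.node (.node 
(.leaf (nat_lit 0x9eb4013d6801c34004980)) (.leaf (nat_lit 0x13d68027ad003a91))) 
(.leaf (nat_lit 0x9eb4013d6801ee3005b74))) (.node (.node (.leaf (nat_lit 0x9eb4013d6801d7d805b94)) 
(.leaf (nat_lit 0x13d68027ad004c23))) (.leaf (nat_lit 0x13d68023db00377e))))) (.node (.node (.node 
(.node (.leaf (nat_lit 0x9eb4013d6801c84003de5)) (.leaf (nat_lit 0x13d68027ad0033d1))) 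
(.leaf (nat_lit 0x9eb4013d6801d5b805924))) (.node (.node 
(.leaf (nat_lit 0x13d68027ad00384900175e00268000cee802c02)) (.leaf (nat_lit 0x13d68027ad003818))) 
(.leaf (nat_lit 0x1f99003be8007670010d64021810041ab)))) (.node (.node (.node 
(.leaf (nat_lit 0x9eb4013d6801a4b80455c)) (.leaf (nat_lit 0x13d68027ad0042a4))) 
(.leaf (nat_lit 0x9eb4013d6801eca005af5))) (.node (.node (.leaf (nat_lit 0x9eb4013d6801d51005462)) 
(.leaf (nat_lit 0x13d68027ad004b64))) (.leaf (nat_lit 0x13d68027ad004acf)))))) (.node (.node (.node 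
(.node (.node (.leaf (nat_lit 0x433f007c6000e0f40244780457f0073b200e9a801ea6003d50)) 
(.leaf (nat_lit 0x13d68027ad0041d3))) (.node (.leaf (nat_lit 0x9eb4013d6801d5d005947)) 
(.leaf (nat_lit 0x9eb4013d6801f4e00475e)))) (.node (.node (.leaf (nat_lit 0x9eb4013d6801cd6005413)) 
(.leaf (nat_lit 0x13d68027ad0045a1))) (.leaf (nat_lit 0x9eb4013d6801c33005c5c)))) (.node (.node 
(.node (.leaf (nat_lit 0x13d6801ae280330e00132a00770400ca90038a4)) 
(.leaf (nat_lit 0x13d68027ad003c54))) (.leaf (nat_lit 0x13d68027ad003ee000b572011ff8028a100432a))) 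
(.node (.node (.leaf (nat_lit 0x9eb4013d6801d5c804dcb)) 
(.leaf (nat_lit 0x12038024550040bc0099b4012bd8024cf804b08009724012c3c0257e0047c3))) 
(.leaf (nat_lit 0x13d68027ad004adb))))) (.node (.node (.node (.node 
(.leaf (nat_lit 0x13d6802758003c74)) (.leaf (nat_lit 0x13d68027ad003f8e))) 
(.leaf (nat_lit 0x13d68027ad005941))) (.node (.node (.leaf (nat_lit 0x9eb4013d6801e28805361)) 
(.leaf (nat_lit 0x13d68027ad0040f4))) (.leaf (nat_lit 0x13d68027ad004241)))) (.node (.node (.node 
(.leaf (nat_lit 0x9eb4013d6801d098058d1)) (.leaf (nat_lit 0x13d68027ad003d72))) 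
(.leaf (nat_lit 0x9eb4013d6801e720050a1))) (.node (.node (.leaf (nat_lit 0x9eb4013d6801dd5004a8e)) 
(.leaf (nat_lit 0x9eb4013d6802189804afd))) (.leaf (nat_lit 0x9eb4013d6801e13005302)))))))
noncomputable def gt23 : Ix (Nat) := (.node (.node (.node (.node (.node 
(.leaf (nat_lit 0x829800f3e001de3004a9e0091bc0129780245d804a05)) 
(.leaf (nat_lit 0x13d68027ad0032c8))) (.node (.leaf (nat_lit 0x13d68027ad003f71)) 
(.leaf (nat_lit 0x27ad004f5a007a12012e7802673804ce5)))) (.node (.node 
(.leaf (nat_lit 0x13d68027ad003e3f)) 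
(.leaf (nat_lit 0x11e4c02165803bf7009a1000aa6802714804dae0099e4012d9c02624004be900997001365c024f9804889009a9e012f700259a804de40097d00135200260b004926))) 
(.leaf (nat_lit 0x13d6801b828034d1)))) (.node (.node (.node (.leaf (nat_lit 0x13d68027ad003aca)) 
(.leaf (nat_lit 0x13d68027ad0035ab))) (.node (.leaf (nat_lit 0x13d68027ad003aaf)) 
(.leaf (nat_lit 0x27ad004f5a007c0e0123c8027cf004ae7)))) (.node (.node 
(.leaf (nat_lit 0x13d68027ad004e08)) (.leaf (nat_lit 0x27ad004f5a006f7c00da5c010d700472a))) 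
(.leaf (nat_lit 0x13d68027ad003054))))) (.node (.node (.node (.node 
(.leaf (nat_lit 0x13d68027ad004eda)) (.leaf (nat_lit 0x13d68027ad003a83))) (.node 
(.leaf (nat_lit 0x13d68027ad003fea)) (.leaf (nat_lit 0x27ad004f5a007ea80133a8028c6804c60)))) (.node 
(.node (.leaf (nat_lit 0x13d68027ad003e69)) (.leaf (nat_lit 0x27ad004f5a0076d4010ca8020b3004a43))) 
(.leaf (nat_lit 0x13d68018f28030d7)))) (.node (.node (.node (.leaf (nat_lit 0x13d68027ad003ce7)) 
(.leaf (nat_lit 0x13d68027ad004334))) (.leaf (nat_lit 0x1da800390b0069a201048801f50003983))) (.node 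
(.node (.leaf (nat_lit 0x13d68027ad00415b)) (.leaf (nat_lit 0x27ad004f5a006d5e00491801553804585))) 
(.leaf (nat_lit 0x13d68027ad0036e1))))))
noncomputable def gt24 : Ix (Nat) := (.node (.node (.node (.node (.node 
(.leaf (nat_lit 0x9b2c01113c02773004a6f00b64e0143e002886805e6500bbdc010758025e28042e9)) 
(.leaf (nat_lit 0x13d68027ad003acd008794016584021ff80531a))) (.leaf (nat_lit 0x13d68027ad003036))) 
(.node (.node (.leaf (nat_lit 0x13d68027ad003ec9)) (.leaf (nat_lit 0x9eb4013d6802a17805b0d))) 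
(.leaf (nat_lit 0x9eb4013d6801c468052de0086f6010f1c0223a00422b)))) (.node (.node (.node 
(.leaf (nat_lit 0x13d68027ad00425e)) 
(.leaf (nat_lit 0x4171007c5000e9880281900468a00918001212002ffb0042140089ae011ea4023bf0048af008b0c0156840224100555d))) 
(.leaf (nat_lit 0x9eb4013d6801d72806ced00ba7a01a9d402f72804983))) (.node (.node 
(.leaf (nat_lit 0x13d68027ad002bc7)) (.leaf (nat_lit 0x9eb4013d68026df005847))) 
(.leaf (nat_lit 0x13d68027ad002eb7007b2600f6f001981003b02))))) (.node (.node (.node (.node 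
(.leaf (nat_lit 0x13d68027ad005606)) (.leaf (nat_lit 0x13d68027ad002b9c00798c007ebc01e68803d96))) 
(.leaf (nat_lit 0x3b960070ec00d170021668042ff008582010df80219d8040fe0081300169f801f5b004bce008b80010448020570043b5007ee601041c02fff00664000819c00fd0c0298100596500d3e200f86002260804c820083f401138402131003d9e))) 
(.node (.node (.leaf (nat_lit 0x13d68027ad003afe)) (.leaf (nat_lit 0x13d68027ad0059e6))) 
(.leaf (nat_lit 0x9eb4013d68018080020fd006e5800f58001ce7803bdb)))) (.node (.node (.node 
(.leaf (nat_lit 0x13d68027ad00580d)) (.leaf (nat_lit 0x4f5a009eb40164fc029ab0055f8))) 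
(.leaf (nat_lit 0x9eb4013d680192a003fcc007aba00c27801f18803dd5))) (.node 
(.leaf (nat_lit 0x13d68027ad005307)) (.leaf (nat_lit 0x13d68027ad00284200729200dd6c01b800034cc))))))
noncomputable def gt25 : Ix (Nat) := (.node (.node (.node (.node (.node (.node 
(.leaf (nat_lit 0xfd9002523004b6100b74e01264002f93805fc300d806010e68024fe804204)) 
(.leaf (nat_lit 0x13d68027ad0036310075a600f3c0016a000398e))) (.leaf (nat_lit 0x13d68027ad004821))) 
(.node (.leaf (nat_lit 0x13d68027ad004268)) (.leaf (nat_lit 0x4f5a009eb400d47c01b7100365d)))) 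
(.node (.node (.leaf (nat_lit 0x13d68027ad005c8e)) 
(.leaf (nat_lit 0x27ad004f5a0069e000b7c002082003e8a))) (.node (.leaf (nat_lit 0x13d68027ad00335f)) 
(.leaf (nat_lit 0x27ad002bc60055da00bc9000ced8021d9))))) (.node (.node (.node 
(.leaf (nat_lit 0x13d68027ad00464d)) (.leaf (nat_lit 0x13d68027ad003a15008a20013978027870040f9))) 
(.node (.leaf (nat_lit 0x13d680234080302b)) 
(.leaf (nat_lit 0xdbdc01aa100326e00683c00e45801dc4803a9d006cc000d59800d73802fc2006c7c0050fc01c9e8032fc)))) 
(.node (.node (.leaf (nat_lit 0x13d68027ad00470e)) (.leaf (nat_lit 0x4f5a009eb400e9f0026f3803f12))) 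
(.node (.leaf (nat_lit 0x13d68027ad0032f0)) 
(.leaf (nat_lit 0x13d68027ad003449007240008a4801828003a8f)))))) (.node (.node (.node (.node (.node 
(.leaf (nat_lit 0x13d68027ad005f6e)) (.leaf (nat_lit 0x27ad004f5a0068da00da8c0218f803cb0))) 
(.leaf (nat_lit 0x3fb80077e200e03c022fa8042ca0084800109800208f00437600a06400f98c0244580429e008cb0011a8c020e9003d0d))) 
(.node (.leaf (nat_lit 0x34e9006cda00c4c001ef38038fe0078f800ef7c0189a0038cb)) 
(.leaf (nat_lit 0x27ad004f5a006d0200e5fc019ca803e40)))) (.node (.node 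
(.leaf (nat_lit 0x13d68027ad004944)) (.leaf (nat_lit 0x4f5a009eb400f0d803b7f805bd3))) (.node 
(.leaf (nat_lit 0x13d68027ad00400e)) (.leaf (nat_lit 0x27ad004f5a00555800dd0001a30001e48))))) 
(.node (.node (.node (.leaf (nat_lit 0x13d68027ad0044d2)) 
(.leaf (nat_lit 0x13d68027ad00375f007cf8012b88021e1803ed8))) (.node 
(.leaf (nat_lit 0x13d6801c2380289e)) (.leaf (nat_lit 0x27ad0031130060260134f40263d003933)))) (.node 
(.node (.leaf (nat_lit 0x13d68027ad004c21)) (.leaf (nat_lit 0x4f5a009eb400e20c02e650040c9))) (.node 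
(.leaf (nat_lit 0x13d68027ad004966)) 
(.leaf (nat_lit 0x13d68027ad002b5f00621000c6d40173800333b)))))))
noncomputable def gt26 : Ix (Nat) := (.node (.node (.node (.node (.node 
(.leaf (nat_lit 0xe51001f62803246008208010cb402503005f7400ba8801294c0247680640c)) 
(.leaf (nat_lit 0x9eb4013d6801fc8005f21))) (.leaf (nat_lit 0x13d68027ad003048))) (.node 
(.leaf (nat_lit 0x13d68027ad003ec2)) (.leaf (nat_lit 0x27ad004f5a00683c018ee4031bc806756)))) (.node 
(.node (.node (.leaf (nat_lit 0x13d68027ad003c1b)) (.leaf (nat_lit 0x9eb4013d68025a780570d))) 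
(.leaf (nat_lit 0x27ad004f5a006f2201893c030080065cc))) (.node (.leaf (nat_lit 0x13d68027ad002550)) 
(.leaf (nat_lit 0xfeac01e6b003972008fb801212802524004e36009aec0183380239c0047ca0081ac01111c020c180531b))))) 
(.node (.node (.node (.node (.leaf (nat_lit 0x13d68027ad005529)) 
(.leaf (nat_lit 0x4f5a009eb40157c002c3180530c))) 
(.leaf (nat_lit 0x1ffa803cc1006a8c011368022ed80453f008816014118020f78044e8009fbc010d08023400056a500847a010b10029e300422100868801237c02127004305008b72010a84020488044ea00835e010d6402023805975))) 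
(.node (.leaf (nat_lit 0x13d68027ad003a31)) (.leaf (nat_lit 0x27ad004f5a00717401a71c02176004b1e)))) 
(.node (.node (.leaf (nat_lit 0x13d68027ad0051b0)) 
(.leaf (nat_lit 0x27ad004f5a00601000f67801eb8804a76))) (.node (.leaf (nat_lit 0x13d68027ad004b30)) 
(.leaf (nat_lit 0x13d68027ad004950))))))
noncomputable def gt27 : Ix (Nat) := (.node (.node (.node (.node (.node 
(.leaf (nat_lit 0x3be2006f76011c200228f805b2300c754017ce802b708046cb)) 
(.leaf (nat_lit 0x13d68027ad0035e0))) (.node (.leaf (nat_lit 0x13d68027ad004275)) 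
(.leaf (nat_lit 0x13d68027ad00376200797800e9d001d72803dc1)))) (.node (.node 
(.leaf (nat_lit 0x13d68027ad0048ab)) 
(.leaf (nat_lit 0x3d2800761800dd38022460044a2007f6e0111b001f7600406800b6060166e802ca7003eb3))) 
(.node (.leaf (nat_lit 0x13d680206e003b04)) (.leaf (nat_lit 0x9eb4013d6801b5c804d15))))) (.node 
(.node (.node (.leaf (nat_lit 0x13d68027ad00471c)) (.leaf (nat_lit 0x13d68027ad003908))) (.node 
(.leaf (nat_lit 0x13d68027ad004186)) (.leaf (nat_lit 0x9eb4013d6801c49806f01)))) (.node (.node 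
(.leaf (nat_lit 0x13d68027ad00474a)) (.leaf (nat_lit 0x13d68027ad0031f8004ad0002f9800ffd003a4b))) 
(.leaf (nat_lit 0x13d68027ad003c5b))))) (.node (.node (.node (.node 
(.leaf (nat_lit 0x13d68027ad006321)) (.leaf (nat_lit 0x13d68027ad0048c9))) (.node 
(.leaf (nat_lit 0x13d68027ad0045e7)) (.leaf (nat_lit 0x9eb4013d6801a0c80457d)))) (.node (.node 
(.leaf (nat_lit 0x13d68027ad0044ed)) (.leaf (nat_lit 0x13d68027ad00363700b69e0162d802dcb8046d5))) 
(.node (.leaf (nat_lit 0x13d68019b5003477)) (.leaf (nat_lit 0x9eb4013d6801bdb0054ae))))) (.node 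
(.node (.node (.leaf (nat_lit 0x13d68027ad004738)) (.leaf (nat_lit 0x13d68027ad004046))) (.node 
(.leaf (nat_lit 0x60fa00c4c001769803df2007d1a0117a8022f9003818)) 
(.leaf (nat_lit 0x9eb4013d6801ba2004bce)))) (.node (.node (.leaf (nat_lit 0x13d68027ad003e4c)) 
(.leaf (nat_lit 0x27ad004f5a006302004dec00838003a11))) (.leaf (nat_lit 0x13d68027ad003fb4))))))
noncomputable def gt28 : Ix (Nat) := (.node (.node (.node (.node (.node (.node (.node (.node (.node 
(.leaf (nat_lit 0xe114027cb803cc2007976017e5c01e5000523600a54e012180029118051d0)) 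
(.leaf (nat_lit 0x4f5a009eb400c6fc022e6004392))) 
(.leaf (nat_lit 0x3b8700732000cd1001fd1803edd007e36015cf401e29804fda))) (.node 
(.leaf (nat_lit 0x13d68027ad0041c3)) (.leaf (nat_lit 0x13d68027ad002d00)))) (.node (.node 
(.leaf (nat_lit 0x9eb4013d6801ad3004e57)) (.leaf (nat_lit 0x13d68027ad003a94))) (.node 
(.leaf (nat_lit 0x13d68027ad00392d)) (.leaf (nat_lit 0x4f5a009eb400ecf802855804ae4))))) (.node 
(.node (.node (.node (.leaf (nat_lit 0x9eb4013d6801b22003cfb)) 
(.leaf (nat_lit 0x1df68034de00642c00fbc802b35803ddc))) (.leaf (nat_lit 0x13d68027ad0039fd))) (.node 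
(.leaf (nat_lit 0x13d68027ad0032df)) (.leaf (nat_lit 0x13d68027ad0040a9)))) (.node (.node 
(.leaf (nat_lit 0x13d6801f96003a25)) 
(.leaf (nat_lit 0x1fd90040d9007554011650022378046d500b490011d9002c02005407))) (.node 
(.leaf (nat_lit 0x13d68027ad00324c)) 
(.leaf (nat_lit 0xf0a801ad40032e4007eb800e3dc01f03003c8f00789c00ecd001dd08047e00042c400de040235a0036e2)))))) 
(.node (.node (.node (.node (.node (.leaf (nat_lit 0x9eb4013d6801ad2804c46)) 
(.leaf (nat_lit 0x13d68027ad00315c))) (.leaf (nat_lit 0x13d68027ad003532))) (.node 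
(.leaf (nat_lit 0x13d68027ad0040b6)) (.leaf (nat_lit 0x13d68027ad00449a)))) (.node (.node 
(.leaf (nat_lit 0x9eb4013d6801bb4005069)) (.leaf (nat_lit 0x13d68027ad003d1a))) (.node 
(.leaf (nat_lit 0x13d68027ad0034de)) 
(.leaf (nat_lit 0xefa001e2100370400857c010b380210c0045320089a80107c802401804fac008fca0123f802422803c38))))) 
(.node (.node (.node (.node (.leaf (nat_lit 0x9eb4013d6801a68003b73)) 
(.leaf (nat_lit 0x13d68027ad003b67))) 
(.leaf (nat_lit 0x1dd40036f3006aaa00fa5401ede004006007b8e0137b8022f60052d4))) (.node 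
(.leaf (nat_lit 0x13d68027ad004785)) (.leaf (nat_lit 0x13d68027ad003b62)))) (.node (.node 
(.leaf (nat_lit 0x4f5a009eb400c8f4017a2003534)) (.leaf (nat_lit 0x9eb4013d6801917004d17))) (.node 
(.leaf (nat_lit 0x13d68027ad0043aa)) (.leaf (nat_lit 0x9eb4013d68019b0002c0c))))))) (.node (.node 
(.node (.node (.node (.node (.leaf (nat_lit 0x4f5a009eb400dbe4024d4804a12)) 
(.leaf (nat_lit 0x75e800e00401a28803e9f00882400fab402601003da5))) 
(.leaf (nat_lit 0x13d68027ad003ae7))) (.node (.leaf (nat_lit 0x13d68027ad003706)) 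
(.leaf (nat_lit 0x13d68027ad003bfd)))) (.node (.node (.leaf (nat_lit 0x9eb4013d6801cc3005765)) 
(.leaf (nat_lit 0x1e2c803fb600683400fe9c023e3803fb6))) (.node (.leaf (nat_lit 0x13d68027ad00425a)) 
(.leaf (nat_lit 0x4f5a009eb400cbf8024e1004940))))) (.node (.node (.node (.node 
(.leaf (nat_lit 0x9eb4013d6801a16803eec)) (.leaf (nat_lit 0x13d68027ad003ce1))) 
(.leaf (nat_lit 0x13d68027ad003925))) (.node (.leaf (nat_lit 0x9eb400b8a401aa8804a9e)) 
(.leaf (nat_lit 0x13d68027ad003dad)))) (.node (.node (.leaf (nat_lit 0x9eb4013d6801ad9804e5e)) 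
(.leaf (nat_lit 0x9eb4013d6802342805db4))) (.node 
(.leaf (nat_lit 0x6faa00cc2001a6b005116007e7000f9b802908804f7d)) 
(.leaf (nat_lit 0x9eb4013d68018c88037ab00852800e3680210c803ecb)))))) (.node (.node (.node (.node 
(.node (.leaf (nat_lit 0xbb68017f180294d006b8a01130401ac600329e00712200cc2001607003030)) 
(.leaf (nat_lit 0x13d68027ad0039f4))) (.leaf (nat_lit 0x1dcc003a030064500116840200b803f6f))) (.node 
(.leaf (nat_lit 0x13d68027ad003a63)) (.leaf (nat_lit 0x13d68027ad0052d3)))) (.node (.node 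
(.leaf (nat_lit 0x9eb4013d6801e4a004ed1)) (.leaf (nat_lit 0x13d68027ad0034bb))) (.node 
(.leaf (nat_lit 0x13d68027ad0045ab)) (.leaf (nat_lit 0x9eb4013d680188f00347d))))) (.node (.node 
(.node (.leaf (nat_lit 0x13d68027ad004361)) (.leaf (nat_lit 0x13d68027ad00450c))) (.node 
(.leaf (nat_lit 0x13d68027ad003890)) (.leaf (nat_lit 0x13d68027ad003a3f)))) (.node (.node 
(.leaf (nat_lit 0x9eb4013d6801aff004332)) (.leaf (nat_lit 0x13d68027ad0058c2))) (.node 
(.leaf (nat_lit 0x13d68027ad003933)) (.leaf (nat_lit 0x9eb4013d6801e28005d86)))))))) (.node (.node 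
(.node (.node (.node (.node (.node (.leaf (nat_lit 0x4f5a009eb400e53001c2f8049d1)) 
(.leaf (nat_lit 0x9eb4013d6801a9d0045af))) (.leaf (nat_lit 0x9eb4013d680197b005032))) (.node 
(.leaf (nat_lit 0x13d68027ad003c17)) (.leaf (nat_lit 0x13d68027ad003ff6)))) (.node (.node 
(.leaf (nat_lit 0x9eb4013d6801ad6804873)) (.leaf (nat_lit 0x13d68027ad003d4f))) (.node 
(.leaf (nat_lit 0x13d68027ad003822)) 
(.leaf (nat_lit 0x76ea00d8540199d803fd0007f5600fe94028f7803cca007a5e016028022960036a5))))) (.node 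
(.node (.node (.node (.leaf (nat_lit 0x4f5a009eb400d0e801f65803f07)) 
(.leaf (nat_lit 0x13d68027ad00313f))) (.leaf (nat_lit 0xf0a001d4a8033c2007b9a0153dc01f43803e4b))) 
(.node (.leaf (nat_lit 0x6fd400c488019388044d100a052013ca002944003e90)) 
(.leaf (nat_lit 0x13d68027ad0036ce)))) (.node (.node (.leaf (nat_lit 0x13d68027ad00464d)) 
(.leaf (nat_lit 0x9eb4013d6802172805b64))) (.node (.leaf (nat_lit 0x13d68027ad0047e4)) 
(.leaf (nat_lit 0x9eb4013d6801a9d004227)))))) (.node (.node (.node (.node (.node 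
(.leaf (nat_lit 0x9eb4013d6801ebb804034)) 
(.leaf (nat_lit 0xeaa001d0d00339b007e6001386c01f9d805706))) (.leaf (nat_lit 0x13d68027ad003d57))) 
(.node (.leaf (nat_lit 0x9eb400c3c8016c2004749)) (.leaf (nat_lit 0x13d68027ad004fb2)))) (.node 
(.node (.leaf (nat_lit 0x9eb4013d6801bfb804b8a)) 
(.leaf (nat_lit 0xe8dc01db3003401007ef20155b001f4f003dc2))) (.node 
(.leaf (nat_lit 0x13d68027ad0033d7)) (.leaf (nat_lit 0x9eb4013d68018ce0040d0))))) (.node (.node 
(.node (.node (.leaf (nat_lit 0x9eb4013d6801a2f0041fc)) (.leaf (nat_lit 0x13d68027ad003c0d))) 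
(.leaf (nat_lit 0x4f5a009eb400cb54027df00455f))) (.node (.leaf (nat_lit 0x13d68027ad0037fc)) 
(.leaf (nat_lit 0x13d68027ad003878)))) (.node (.node (.leaf (nat_lit 0x9eb4013d6801b0c0046d9)) 
(.leaf (nat_lit 0x9eb4013d6801a0f00577b))) (.node 
(.leaf (nat_lit 0x1dc10035bc00636400fdac01f66004efb0091a000eadc01e2c004aa2)) 
(.leaf (nat_lit 0x9eb4013d6801a2c8040a7))))))) (.node (.node (.node (.node (.node (.node 
(.leaf (nat_lit 0x9eb4013d6801c0f0065e7)) (.leaf (nat_lit 0x13d68027ad003f15))) 
(.leaf (nat_lit 0x75ca00d5b401aa5803f9200b43e00fd000201e003f8a))) (.node 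
(.leaf (nat_lit 0x13d68027ad0042de)) (.leaf (nat_lit 0x13d68027ad0033f4)))) (.node (.node 
(.leaf (nat_lit 0x9eb4013d6801a988053fb)) (.leaf (nat_lit 0x13d68027ad003dfe))) (.node 
(.leaf (nat_lit 0x13d68027ad003cd8)) (.leaf (nat_lit 0x4f5a009eb400cc6c02596004930))))) (.node 
(.node (.node (.node (.leaf (nat_lit 0x9eb4013d6801a8400469f)) 
(.leaf (nat_lit 0x1db18046dc00642c00fb5802ba1803dab))) (.leaf (nat_lit 0x13d68027ad003476))) (.node 
(.leaf (nat_lit 0x9eb400cc9801a23004606)) (.leaf (nat_lit 0x13d68027ad003500)))) (.node (.node 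
(.leaf (nat_lit 0x9eb4013d6801963004a7e)) (.leaf (nat_lit 0x9eb4013d6801a88004ef2))) (.node 
(.leaf (nat_lit 0x9eb400d07c01baf804d93)) 
(.leaf (nat_lit 0xefd801c2700356300858a0152f4020b08041e700a494011fac02a360052a4)))))) (.node (.node 
(.node (.node (.node (.leaf (nat_lit 0x27ad0028f9004eb80052f000fb0801ec9)) 
(.leaf (nat_lit 0x13d68027ad0037d0))) (.leaf (nat_lit 0x13d68027ad00369a))) (.node 
(.leaf (nat_lit 0x13d68027ad003026)) (.leaf (nat_lit 0x13d68027ad0038cf)))) (.node (.node 
(.leaf (nat_lit 0x1b9c803bf80067400119a002ae280471f)) (.leaf (nat_lit 0x13d68027ad005006))) (.node 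
(.leaf (nat_lit 0x13d68027ad002f69)) (.leaf (nat_lit 0x9eb4013d6801d5d805026))))) (.node (.node 
(.node (.leaf (nat_lit 0x4f5a009eb400e1a0019cf003c16)) 
(.leaf (nat_lit 0x788600eca0019a7803fdd00ad4400f9e001f39003f46))) (.node 
(.leaf (nat_lit 0x13d68027ad0037d9)) (.leaf (nat_lit 0x4f5a009eb400f31c026e7804b58)))) (.node 
(.node (.leaf (nat_lit 0x13d68027ad0061a1)) (.leaf (nat_lit 0x13d68027ad004f70))) (.node 
(.leaf (nat_lit 0x9eb4013d6801983804db1)) 
(.leaf (nat_lit 0xf0b001bfa0032e4007eaa01135c01f26803c1a00809c00ef480275d0038dc))))))))) (.node 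
(.node (.node (.node (.node (.node (.node (.node (.leaf (nat_lit 0x4f5a009eb400f79002c41806184)) 
(.leaf (nat_lit 0x9eb4013d6801d128054fa))) (.leaf (nat_lit 0x9eb4013d6801ba7804cd6))) (.node 
(.leaf (nat_lit 0x13d68027ad0049ff)) (.leaf (nat_lit 0x13d68027ad005918)))) (.node (.node 
(.leaf (nat_lit 0x9eb4013d6801a5380481d)) (.leaf (nat_lit 0x13d68027ad0037ac))) (.node 
(.leaf (nat_lit 0x13d68027ad00400a)) (.leaf (nat_lit 0x9eb4013d6801f930058d3))))) (.node (.node 
(.node (.node (.leaf (nat_lit 0x9eb4013d680156100314d)) (.leaf (nat_lit 0x13d68027ad003878))) 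
(.leaf (nat_lit 0x13d68027ad003ee8))) (.node (.leaf (nat_lit 0x13d68027ad00371f)) 
(.leaf (nat_lit 0x1d188049ff00632000fba402399803ea8)))) (.node (.node 
(.leaf (nat_lit 0x13d68027ad004666)) (.leaf (nat_lit 0x13d68027ad004bfa))) (.node 
(.leaf (nat_lit 0x13d68027ad003cf4)) (.leaf (nat_lit 0x9eb4013d6801bc6804d93)))))) (.node (.node 
(.node (.node (.node (.leaf (nat_lit 0x9eb4013d6801acb004d41)) 
(.leaf (nat_lit 0x13d68027ad00455a))) (.leaf (nat_lit 0x13d68027ad004a60))) (.node 
(.leaf (nat_lit 0x5e4000c64c014bd00386c0097280114b40224900349c)) 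
(.leaf (nat_lit 0x1dd900495900696e010ab40270f8043be)))) (.node (.node 
(.leaf (nat_lit 0x4f5a009eb400e0100268e00487b)) (.leaf (nat_lit 0x13d68027ad004086))) (.node 
(.leaf (nat_lit 0x13d68027ad00392a)) (.leaf (nat_lit 0x9eb4013d6801bd5805f2f))))) (.node (.node 
(.node (.node (.leaf (nat_lit 0x13d68018c280300b006ba600c54801b780036fe)) 
(.leaf (nat_lit 0x13d68027ad003793))) (.leaf (nat_lit 0x9eb4013d6801bba804f94))) (.node 
(.leaf (nat_lit 0x13d68027ad00493f)) (.leaf (nat_lit 0x13d68027ad003df2)))) (.node (.node 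
(.leaf (nat_lit 0x27ad0033b6006a9200dcd001bd780323b)) 
(.leaf (nat_lit 0x4f5a009eb400c3e402560804ed6))) (.node (.leaf (nat_lit 0x13d68027ad0037de)) 
(.leaf (nat_lit 0x9eb4013d6801f4000558f))))))) (.node (.node (.node (.node (.node (.node 
(.leaf (nat_lit 0x9eb4013d6801a74004607)) (.leaf (nat_lit 0x13d68027ad003ab2))) 
(.leaf (nat_lit 0x9eb4013d6801ace804f66))) (.node (.leaf (nat_lit 0x13d68027ad00407b)) 
(.leaf (nat_lit 0x13d68027ad004f20)))) (.node (.node (.leaf (nat_lit 0x9eb4013d6801b10804a3a)) 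
(.leaf (nat_lit 0x13d68027ad003bee))) (.node (.leaf (nat_lit 0x13d68027ad0044c5)) 
(.leaf (nat_lit 0x9eb4013d6801a25804f1d))))) (.node (.node (.node (.node 
(.leaf (nat_lit 0x375e006f8a00d58401e13803cae00731201086401d9e003b62)) 
(.leaf (nat_lit 0x13d68027ad00373a))) (.leaf (nat_lit 0x13d68027ad0037c3))) (.node 
(.leaf (nat_lit 0x13d68027ad003a84)) (.leaf (nat_lit 0x13d68027ad00393b)))) (.node (.node 
(.leaf (nat_lit 0x9eb4013d6801a3c803cdc)) 
(.leaf (nat_lit 0x1cc3003dce00663400f73c01e87003f2500a2fa00ef88026100052f6))) (.node 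
(.leaf (nat_lit 0x13d68027ad004457)) (.leaf (nat_lit 0x9eb4013d68018490053f7)))))) (.node (.node 
(.node (.node (.node (.leaf (nat_lit 0x27ad003120005c1000e94801a4a803831)) 
(.leaf (nat_lit 0x13d68027ad00406e))) (.leaf (nat_lit 0x13d68027ad0035ef))) (.node 
(.leaf (nat_lit 0x13d68027ad003189)) (.leaf (nat_lit 0x13d68027ad004354)))) (.node (.node 
(.leaf (nat_lit 0x9eb4013d68019d880549d)) (.leaf (nat_lit 0x13d68027ad0035e4))) (.node 
(.leaf (nat_lit 0x9eb400baa801bea80497a)) (.leaf (nat_lit 0x9eb4013d680180100324e))))) (.node 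
(.node (.node (.leaf (nat_lit 0x9eb4013d6801b12804402)) (.leaf (nat_lit 0x9eb4013d68018a2005643))) 
(.node (.leaf (nat_lit 0x13d68027ad0039f9)) 
(.leaf (nat_lit 0x817600f55001d19004705008f7e011c24021808046b2008df201152802bd0004040)))) (.node 
(.node (.leaf (nat_lit 0x3853006a040122dc02f75805fd600bdd60188100317600614f)) 
(.leaf (nat_lit 0x13d68027ad003db6))) (.node (.leaf (nat_lit 0x9eb4013d6801861004e21)) 
(.leaf (nat_lit 0x9eb4013d6801dda804114)))))))) (.node (.node (.node (.node (.node (.node (.node 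
(.leaf (nat_lit 0x4f5a009eb400d20c0189f0041ce)) (.leaf (nat_lit 0x9eb4013d6801b24804ba6))) 
(.leaf (nat_lit 0x9eb4013d6801b38004cf1))) (.node (.leaf (nat_lit 0x13d68027ad0047bb)) 
(.leaf (nat_lit 0x73e200d8e801a5e803ee900b17c00f65801eb4003ea4)))) (.node (.node 
(.leaf (nat_lit 0x9eb4013d6801b92004300)) (.leaf (nat_lit 0x13d68027ad003bc3))) (.node 
(.leaf (nat_lit 0x13d68027ad0046cf)) (.leaf (nat_lit 0x9eb4013d6801b9d804b89))))) (.node (.node 
(.node (.node (.leaf (nat_lit 0x4f5a009eb4009534012df002c98)) (.leaf (nat_lit 0x13d68027ad00404d))) 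
(.leaf (nat_lit 0x13d68027ad003c6d))) (.node (.leaf (nat_lit 0x13d68027ad004710)) 
(.leaf (nat_lit 0x13d68027ad0038d5)))) (.node (.node (.leaf (nat_lit 0x9eb4013d6801b75004991)) 
(.leaf (nat_lit 0x4f5a009eb400e48002866805422))) (.node (.leaf (nat_lit 0x13d68027ad00485a)) 
(.leaf (nat_lit 0x9eb4013d6801b24804848)))))) (.node (.node (.node (.node (.node 
(.leaf (nat_lit 0x9eb4013d6801c008046ae)) (.leaf (nat_lit 0x13d68027ad00392c))) 
(.leaf (nat_lit 0x13d68027ad003a61))) (.node (.leaf (nat_lit 0x9eb400a1d401681003d42)) 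
(.leaf (nat_lit 0x13d68027ad003601)))) (.node (.node (.leaf (nat_lit 0x9eb4013d6801cbd004ada)) 
(.leaf (nat_lit 0x13d68027ad00383a))) (.node 
(.leaf (nat_lit 0x66ba00c8dc0182780464e0070d600e61002493004668)) 
(.leaf (nat_lit 0x9eb4013d6801cc0004340))))) (.node (.node (.node (.node 
(.leaf (nat_lit 0x9eb4013d6801af78050de)) (.leaf (nat_lit 0x13d68027ad00402f))) 
(.leaf (nat_lit 0x9eb4013d6801bfa0052cc))) (.node (.leaf (nat_lit 0x13d68027ad0047a3)) 
(.leaf (nat_lit 0x13d68027ad0037b6)))) (.node (.node 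
(.leaf (nat_lit 0x4f5a009eb400d320021f08036a0)) 
(.leaf (nat_lit 0x76f200e2900295d8048dd00ba000104b402121804c06))) (.node 
(.leaf (nat_lit 0x9eb4013d6801ba7804b84)) (.leaf (nat_lit 0x9eb4013d6801a2780321a))))))) (.node 
(.node (.node (.node (.node (.node (.leaf (nat_lit 0x9eb4013d68019c8804662)) 
(.leaf (nat_lit 0x13d68027ad0039c2))) (.leaf (nat_lit 0x13d68027ad003a27))) (.node 
(.leaf (nat_lit 0x13d68027ad0042b6)) (.leaf (nat_lit 0x13d68027ad0043af)))) (.node (.node 
(.leaf (nat_lit 0x13d68027ad003c1d)) (.leaf (nat_lit 0x13d68027ad0038e4))) (.node 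
(.leaf (nat_lit 0x13d68027ad003d30)) (.leaf (nat_lit 0x9eb4013d6801cb48050f9))))) (.node (.node 
(.node (.node (.leaf (nat_lit 0x13d68020210033aa)) (.leaf (nat_lit 0x13d68027ad00388a))) 
(.leaf (nat_lit 0x13d68027ad0037ec))) (.node (.leaf (nat_lit 0x13d68027ad004088)) 
(.leaf (nat_lit 0x77ec00dd0401b3c803f0b008ee000fcbc020f4803e39)))) (.node (.node 
(.leaf (nat_lit 0xdab001a0480336e006e50014aac01d1f80367c007d5200d27401c8f803b30)) 
(.leaf (nat_lit 0x13d68027ad003b9d))) (.node (.leaf (nat_lit 0x13d68027ad003cd7)) 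
(.leaf (nat_lit 0x9eb4013d6801d8a8059e3)))))) (.node (.node (.node (.node (.node 
(.leaf (nat_lit 0x27ad004f5a004d64005da000dd9801d1e)) (.leaf (nat_lit 0x13d68027ad00419e))) 
(.leaf (nat_lit 0x13d68027ad0034e6))) (.node (.leaf (nat_lit 0x13d68027ad003fbb)) 
(.leaf (nat_lit 0x13d68027ad004f9f)))) (.node (.node (.leaf (nat_lit 0x13d68027ad004582)) 
(.leaf (nat_lit 0x13d68027ad003595))) (.node (.leaf (nat_lit 0x13d68027ad0032eb)) 
(.leaf (nat_lit 0x9eb4013d680192e003996))))) (.node (.node (.node 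
(.leaf (nat_lit 0x9eb4013d6801bb580445b)) (.leaf (nat_lit 0x13d68027ad003ba4))) (.node 
(.leaf (nat_lit 0x13d68027ad003630)) (.leaf (nat_lit 0x9eb4013d6802164005a5a)))) (.node (.node 
(.leaf (nat_lit 0x13d68027ad004345)) (.leaf (nat_lit 0x13d68027ad004358))) (.node 
(.leaf (nat_lit 0x9eb4013d6801ab8005007)) (.leaf (nat_lit 0x9eb4013d6801b9a8047de))))))))))
noncomputable def gt29 : Ix (Nat) := (.node (.node (.node (.node (.node (.node 
(.leaf (nat_lit 0x7d620123e40212400619f00a618017794025048055d0009c20010a84030ab0040f600821e01026c0213a00505b)) 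
(.leaf (nat_lit 0x13d68027ad003362))) (.leaf (nat_lit 0x13d68027ad005a8a))) (.node 
(.leaf (nat_lit 0x9eb4013d6801bf8805091)) (.leaf (nat_lit 0x13d68027ad00435f)))) (.node (.node 
(.leaf (nat_lit 0x9eb4013d6801fc4006f78)) (.leaf (nat_lit 0x13d68027ad004580))) (.node 
(.leaf (nat_lit 0x9eb4013d680192c803943007a2a00d96c019b5003a70)) 
(.leaf (nat_lit 0x13d68021db80379e))))) (.node (.node (.node (.node 
(.leaf (nat_lit 0x9eb4013d6801ae200304600807a01017c016648040b2)) 
(.leaf (nat_lit 0x13d68027ad003923))) (.leaf (nat_lit 0x13d68027ad004178))) (.node 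
(.leaf (nat_lit 0x9eb400d298018a38032b6)) (.leaf (nat_lit 0x13d68027ad00415c)))) (.node (.node 
(.leaf (nat_lit 0x9eb4013d6801c1d00512f)) (.leaf (nat_lit 0x13d68027ad003c41))) (.node 
(.leaf (nat_lit 0x9eb4013d6801a7b8047b2)) (.leaf (nat_lit 0x13d68027ad003c03)))))) (.node (.node 
(.node (.node (.node (.leaf (nat_lit 0x9eb4013d6801c698062b100c0640171dc031af0056c4)) 
(.leaf (nat_lit 0x13d68027ad004447))) (.leaf (nat_lit 0x13d68027ad004369))) (.node 
(.leaf (nat_lit 0x6d7e00cefc0178400302c0075820110e401c880039080070d400e0400088a00250e00487a00a1f0009a60035c9)) 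
(.leaf (nat_lit 0x13d68027ad004b4f)))) (.node (.node (.leaf (nat_lit 0x9eb4013d6801d33804d43)) 
(.leaf (nat_lit 0x13d68027ad003c60))) (.node 
(.leaf (nat_lit 0x9eb4013d68014be801ffe004f7400994400efa003342)) 
(.leaf (nat_lit 0x13d6801a680030d0))))) (.node (.node (.node (.node 
(.leaf (nat_lit 0x13d68027ad0033a0006d3600e88001abf003cad)) (.leaf (nat_lit 0x13d68027ad00422c))) 
(.leaf (nat_lit 0x13d68027ad004975))) (.node (.leaf (nat_lit 0x9eb4013d6801ac68043dd)) 
(.leaf (nat_lit 0x6c6800cdcc0183f8034a900805e00ee0402050803bbd)))) (.node (.node 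
(.leaf (nat_lit 0x9eb4013d6801b0f803823)) (.leaf (nat_lit 0x13d68027ad003c57))) (.node 
(.leaf (nat_lit 0x3cd00071ea0123740260700651300cd4401706002370006440)) 
(.leaf (nat_lit 0x13d68027ad003e13)))))))
noncomputable def gt30 : Ix (Nat) := (.node (.node (.node (.node (.node 
(.leaf (nat_lit 0x1ca98039b000630001037402b258040df00988600f5a401f2f004454007db4015dbc028f2803bbd)) 
(.leaf (nat_lit 0x9eb4013d6801be2005a2f))) (.leaf (nat_lit 0x9eb4013d68016f5803fcf))) (.node (.node 
(.leaf (nat_lit 0x4f5a009eb400b768022d60037a7)) (.leaf (nat_lit 0x13d68027ad005675))) 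
(.leaf (nat_lit 0x9eb4013d6801ba1005b60)))) (.node (.node (.node 
(.leaf (nat_lit 0x9eb4013d6801844004629)) 
(.leaf (nat_lit 0xfde401cf88038ee008d3a0164140239f8056e8))) 
(.leaf (nat_lit 0x9eb4013d6801c1c805ca2))) (.node (.node (.leaf (nat_lit 0x9eb4013d6801277003082)) 
(.leaf (nat_lit 0x13d68027ad0046a5))) (.leaf (nat_lit 0x9eb4013d680164880401f))))) (.node (.node 
(.node (.node (.leaf (nat_lit 0x9eb4013d6801b850064b2)) (.leaf (nat_lit 0x9eb4013d68016b300412f))) 
(.leaf (nat_lit 0x394a00707e00c55c020cd80545f007d3c00f7d401fe5803efa))) (.node (.node 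
(.leaf (nat_lit 0x9eb4013d68015130038fd)) (.leaf (nat_lit 0x13d68027ad0053d4))) 
(.leaf (nat_lit 0x9eb4013d6801736003d38)))) (.node (.node (.node 
(.leaf (nat_lit 0x4f5a009eb400d78c0324b005d1e)) (.leaf (nat_lit 0x13d68027ad0051e7))) 
(.leaf (nat_lit 0x9eb4013d68019ca0047fc))) (.node (.leaf (nat_lit 0x9eb4013d6801dc080619a)) 
(.leaf (nat_lit 0x9eb4013d6801320003544))))))
noncomputable def gt31 : Ix (Nat) := (.node (.node (.node (.node (.node 
(.leaf (nat_lit 0x1cc9003878007f62010b08026fb005444009ba801487402a6c8041a1)) 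
(.leaf (nat_lit 0x13d68027ad00540e))) (.leaf (nat_lit 0x13d68027ad002d04))) (.node 
(.leaf (nat_lit 0x13d68027ad003d70)) 
(.leaf (nat_lit 0x13d68027ad0037d900a99c0150c40275e804eca009e520135180264380532b)))) (.node (.node 
(.node (.leaf (nat_lit 0x13d68027ad003bc1)) (.leaf (nat_lit 0x13d68027ad005094))) 
(.leaf (nat_lit 0x9eb4013d6801bda806a0f00c02201937c02e06804dc1))) (.node 
(.leaf (nat_lit 0x13d68027ad002a22)) 
(.leaf (nat_lit 0x1024801e0c003a9900932201241c03085805844008fbe011fc80226d0046d7))))) (.node (.node 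
(.node (.node (.leaf (nat_lit 0x13d68027ad004c31)) (.leaf (nat_lit 0x13d68027ad004c21))) 
(.leaf (nat_lit 0x103cc01e408036e4008bc401193802233004551008e6a0120b8021ff8043cb008cb8011db4022c000425f00821801053802efb0042810085ce0111dc020fc0058f700ba56011fc802d628051b2))) 
(.node (.leaf (nat_lit 0x13d68027ad003a7d)) (.leaf (nat_lit 0x4f5a009eb400dff402ccd00554f)))) 
(.node (.node (.leaf (nat_lit 0x13d68027ad005270)) 
(.leaf (nat_lit 0x9eb4013d68018b8004381008ece00e26c01edc803510))) (.node 
(.leaf (nat_lit 0x13d68027ad004e03)) (.leaf (nat_lit 0x13d68027ad00581f))))))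
noncomputable def gt32 : Ix (Nat) := (.node (.node (.node (.node (.node 
(.leaf (nat_lit 0x1b1080350b006c8601230c02b5b8058b700ac8801562402774004b7c)) 
(.leaf (nat_lit 0x13d68027ad0037bc))) (.leaf (nat_lit 0x13d68027ad002a52))) (.node 
(.leaf (nat_lit 0x13d68027ad003e2f)) 
(.leaf (nat_lit 0x9eb4013d6801a2a004f8c00963e0142e00254100444c)))) (.node (.node (.node 
(.leaf (nat_lit 0x13d68027ad003be8)) (.leaf (nat_lit 0x13d68027ad004b80))) 
(.leaf (nat_lit 0x9eb4013d6801a6200610b))) (.node (.leaf (nat_lit 0x13d68027ad0029f9)) 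
(.leaf (nat_lit 0x3cec00742800d8200230e80492700d5d401153c02187004217))))) (.node (.node (.node 
(.node (.leaf (nat_lit 0x13d68027ad004b1c)) (.leaf (nat_lit 0x13d68027ad0056e8))) 
(.leaf (nat_lit 0x77e800f94c019920068fb0086d80102d001fc4003fe3007f0c00fc3c02b51003da600809200fa4801ef88039d9))) 
(.node (.leaf (nat_lit 0x13d68027ad003b4a)) (.leaf (nat_lit 0x9eb4013d6801a95005958)))) (.node 
(.node (.leaf (nat_lit 0x13d68027ad005479)) (.leaf (nat_lit 0x9eb4013d680169f0037f3))) (.node 
(.leaf (nat_lit 0x13d68027ad004e22)) (.leaf (nat_lit 0x13d68027ad0052c1))))))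
noncomputable def gt33 : Ix (Nat) := (.node (.node (.node (.node (.node 
(.leaf (nat_lit 0x3963007b6e00c57402103804575007fa4010284025e680469a0082ae0128f002209804161)) 
(.leaf (nat_lit 0x4f5a009eb400c12801c64004071))) (.leaf (nat_lit 0x4f5a009eb400c12801c64004071))) 
(.node (.leaf (nat_lit 0x4f5a009eb400d4d0026a30049bd)) (.leaf (nat_lit 0x9eb4013d6801a4a804cf5)))) 
(.node (.node (.node (.leaf (nat_lit 0x9eb4013d6801a4a804cf5)) 
(.leaf (nat_lit 0x13d68027ad003cad))) 
(.leaf (nat_lit 0x3963007b6e00c57402103804575007fa4010284025e680469a0082ae0128f002209804161))) 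
(.node (.leaf (nat_lit 0x13d68027ad003cad)) (.leaf (nat_lit 0x4f5a009eb400d4d0026a30049bd))))) 
(.node (.node (.node (.node (.leaf (nat_lit 0x9eb4013d6801b390064fb)) 
(.leaf (nat_lit 0x9eb4013d6801966004935))) (.leaf (nat_lit 0x9eb4013d6801966004935))) (.node 
(.leaf (nat_lit 0x9eb4013d6801c43805405)) (.leaf (nat_lit 0x9eb4013d6801960804e02)))) (.node (.node 
(.node (.leaf (nat_lit 0x9eb4013d6801960804e02)) (.leaf (nat_lit 0x9eb4013d6801a17802ac5))) 
(.leaf (nat_lit 0x9eb4013d6801b390064fb))) (.node (.leaf (nat_lit 0x9eb4013d6801a17802ac5)) 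
(.leaf (nat_lit 0x9eb4013d6801c43805405))))))
noncomputable def gt34 : Ix (Nat) := (.node (.node (.node (.node (.node 
(.leaf (nat_lit 0x1d15803bb400637a010a000227e0042bc00816a0103680205c004856008ee8011a60023540040e1)) 
(.leaf (nat_lit 0x27ad004f5a0060680114d0022cd803d69))) 
(.leaf (nat_lit 0x27ad004f5a0060680114d0022cd803d69))) (.node 
(.leaf (nat_lit 0x9eb4013d6801b28004694)) (.leaf (nat_lit 0x9eb4013d6801abe804fc6)))) (.node (.node 
(.node (.leaf (nat_lit 0x9eb4013d6801abe804fc6)) (.leaf (nat_lit 0x13d68027ad003ef5))) 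
(.leaf (nat_lit 0x1d15803bb400637a010a000227e0042bc00816a0103680205c004856008ee8011a60023540040e1))) 
(.node (.leaf (nat_lit 0x13d68027ad003ef5)) (.leaf (nat_lit 0x9eb4013d6801b28004694))))) (.node 
(.node (.node (.node (.leaf (nat_lit 0x9eb4013d6801b730067da)) 
(.leaf (nat_lit 0x9eb4013d68017d6004aed))) (.leaf (nat_lit 0x9eb4013d68017d6004aed))) (.node 
(.leaf (nat_lit 0x9eb4013d6801c21004f05)) (.leaf (nat_lit 0x9eb4013d6801adf004c49)))) (.node (.node 
(.node (.leaf (nat_lit 0x9eb4013d6801adf004c49)) (.leaf (nat_lit 0x9eb4013d6801a56802e8a))) 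
(.leaf (nat_lit 0x9eb4013d6801b730067da))) (.node (.leaf (nat_lit 0x9eb4013d6801a56802e8a)) 
(.leaf (nat_lit 0x9eb4013d6801c21004f05))))))
noncomputable def gt35 : Ix (Nat) := (.node (.node (.node (.node (.node (.node 
(.leaf (nat_lit 0x3a1b006ed200c434020b680518900b1d60131f4029a580531500801e0172c002990803d81)) 
(.leaf (nat_lit 0x13d68027ad003421))) (.leaf (nat_lit 0x13d68027ad004293))) (.node 
(.leaf (nat_lit 0x9eb4013d6801aee80518e)) (.leaf (nat_lit 0x13d68027ad0040f5)))) (.node (.node 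
(.leaf (nat_lit 0x9eb4013d6801b1a006359)) (.leaf (nat_lit 0x13d68027ad003e85))) (.node 
(.leaf (nat_lit 0x4f5a009eb400c664009a9802aa9)) (.leaf (nat_lit 0x9eb400b66801b6d005375))))) (.node 
(.node (.node (.node (.leaf (nat_lit 0x4f5a009eb400bba4021bc804768)) 
(.leaf (nat_lit 0x13d68027ad003904))) (.leaf (nat_lit 0x13d68027ad004306))) (.node 
(.leaf (nat_lit 0x4f5a00645e00c2b801b778039750067ba00cba801af800328a)) 
(.leaf (nat_lit 0x13d68027ad0041f2)))) (.node (.node (.leaf (nat_lit 0x9eb4013d6801a5980507e)) 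
(.leaf (nat_lit 0x13d68027ad003a6b))) (.node (.leaf (nat_lit 0x9eb4013d6801873804131)) 
(.leaf (nat_lit 0x13d68027ad003c8a)))))) (.node (.node (.node (.node (.node 
(.leaf (nat_lit 0x4f5a009eb400d84402d0f005feb)) (.leaf (nat_lit 0x13d68027ad00441f))) 
(.leaf (nat_lit 0x13d68027ad004591))) (.node 
(.leaf (nat_lit 0x6e6600c8880175e8039e2005294006ef800e75802bd1006f8e00e6e401500002a75)) 
(.leaf (nat_lit 0x13d68027ad004bfe)))) (.node (.node (.leaf (nat_lit 0x9eb4013d68019ad8050aa)) 
(.leaf (nat_lit 0x13d68027ad003cc8))) (.node (.leaf (nat_lit 0x4f5a009eb400a6cc008a300338a)) 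
(.leaf (nat_lit 0x9eb400af1c016a580429c))))) (.node (.node (.node (.node 
(.leaf (nat_lit 0x4f5a009eb400b3800171f803bc8)) (.leaf (nat_lit 0x13d68027ad004212))) 
(.leaf (nat_lit 0x13d68027ad003b07))) (.node (.leaf (nat_lit 0x9eb4013d68019a1804ad8)) 
(.leaf (nat_lit 0x1c6080329f006f2201069c02007003c1c)))) (.node (.node 
(.leaf (nat_lit 0x4f5a009eb400d25802672004a34)) (.leaf (nat_lit 0x13d68027ad004bc3))) (.node 
(.leaf (nat_lit 0xe0f801a9f0047cb008dca018f3c025bb806379)) (.leaf (nat_lit 0x13d68027ad003ffc)))))))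
noncomputable def gt36 : Ix (Nat) := (.node (.node (.node (.node (.node (.node 
(.leaf (nat_lit 0x1d63804b7c0067100105a0028aa803e85008c5c01070801de300448300a15c0157c4021c080516f)) 
(.leaf (nat_lit 0x13d68027ad003332))) (.leaf (nat_lit 0x13d68027ad004768))) (.node 
(.leaf (nat_lit 0x9eb4013d6801a518040ce)) (.leaf (nat_lit 0x13d68027ad003cd0)))) (.node (.node 
(.leaf (nat_lit 0x9eb4013d6801c0080520e)) (.leaf (nat_lit 0x13d68027ad003f10))) (.node 
(.leaf (nat_lit 0x9eb4013d6801769804298006eac00f988019e28033b8)) 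
(.leaf (nat_lit 0x9eb400b54801b00805060))))) (.node (.node (.node (.node 
(.leaf (nat_lit 0x27ad004f5a005cc80126b0022228048a9)) (.leaf (nat_lit 0x13d68027ad003810))) 
(.leaf (nat_lit 0x13d68027ad00424b))) (.node (.leaf (nat_lit 0x4f5a00619200bd20016f8003778)) 
(.leaf (nat_lit 0x13d68027ad003de8)))) (.node (.node (.leaf (nat_lit 0x9eb4013d68019fd8047a4)) 
(.leaf (nat_lit 0x13d68027ad0035cd))) (.node (.leaf (nat_lit 0x9eb4013d6801976004592)) 
(.leaf (nat_lit 0x13d68027ad003c94)))))) (.node (.node (.node (.node (.node 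
(.leaf (nat_lit 0x27ad004f5a006b1e018510033670058e5)) (.leaf (nat_lit 0x13d68027ad004870))) 
(.leaf (nat_lit 0x13d68027ad004087))) (.node 
(.leaf (nat_lit 0x1a2d803067005c3600d93801de48036b4006d4200d2bc017fd003def00512600e5300132e8022cd)) 
(.leaf (nat_lit 0x13d68027ad00482e)))) (.node (.node (.leaf (nat_lit 0x9eb4013d6801b50004258)) 
(.leaf (nat_lit 0x13d68027ad003d08))) (.node 
(.leaf (nat_lit 0x9eb4013d680142d0037b9004c0a00cec800b95802f2e)) 
(.leaf (nat_lit 0x9eb400a94c0153e0038f0))))) (.node (.node (.node (.node 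
(.leaf (nat_lit 0x27ad004f5a005a8400eac801e6c803db6)) (.leaf (nat_lit 0x13d68027ad003ec8))) 
(.leaf (nat_lit 0x13d68027ad003b63))) (.node (.leaf (nat_lit 0x9eb4013d68018e4003d56)) 
(.leaf (nat_lit 0x61ee00c378018168041a1008e8a010ee002425804002)))) (.node (.node 
(.leaf (nat_lit 0x9eb4013d68019d6003e6e)) (.leaf (nat_lit 0x13d68027ad003847))) (.node 
(.leaf (nat_lit 0x39a80067460114c001f7800511e00865001828c0253e0048b2)) 
(.leaf (nat_lit 0x13d68027ad0036e7)))))))
noncomputable def gt37 : Ix (Nat) := (.node (.node (.node (.node (.node (.node 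
(.leaf (nat_lit 0x3a1b006ed200c434020b680518900b1d60131f4029a580531500801e0172c002990803d81)) 
(.leaf (nat_lit 0x13d68027ad003421))) (.leaf (nat_lit 0x13d68027ad004293))) (.node 
(.leaf (nat_lit 0x9eb4013d6801aee80518e)) (.leaf (nat_lit 0x13d68027ad0040f5)))) (.node (.node 
(.leaf (nat_lit 0x9eb4013d6801b1a006359)) (.leaf (nat_lit 0x13d68027ad003e85))) (.node 
(.leaf (nat_lit 0x4f5a009eb400c664009a9802aa9)) (.leaf (nat_lit 0x9eb400b66801b6d005375))))) (.node 
(.node (.node (.node (.leaf (nat_lit 0x4f5a009eb400bba4021bc804768)) 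
(.leaf (nat_lit 0x13d68027ad003904))) (.leaf (nat_lit 0x13d68027ad004306))) (.node 
(.leaf (nat_lit 0x4f5a00645e00c2b801b778039750067ba00cba801af800328a)) 
(.leaf (nat_lit 0x13d68027ad0041f2)))) (.node (.node (.leaf (nat_lit 0x9eb4013d6801a5980507e)) 
(.leaf (nat_lit 0x13d68027ad003a6b))) (.node (.leaf (nat_lit 0x9eb4013d6801873804131)) 
(.leaf (nat_lit 0x13d68027ad003c8a)))))) (.node (.node (.node (.node (.node 
(.leaf (nat_lit 0x4f5a009eb400d84402d0f005feb)) (.leaf (nat_lit 0x13d68027ad00441f))) 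
(.leaf (nat_lit 0x13d68027ad004591))) (.node 
(.leaf (nat_lit 0x6e6600c8880175e8039e2005294006ef800e75802bd1006f8e00e6e401500002a75)) 
(.leaf (nat_lit 0x13d68027ad004bfe)))) (.node (.node (.leaf (nat_lit 0x9eb4013d68019ad8050aa)) 
(.leaf (nat_lit 0x13d68027ad003cc8))) (.node (.leaf (nat_lit 0x4f5a009eb400a6cc008a300338a)) 
(.leaf (nat_lit 0x9eb400af1c016a580429c))))) (.node (.node (.node (.node 
(.leaf (nat_lit 0x4f5a009eb400b3800171f803bc8)) (.leaf (nat_lit 0x13d68027ad004212))) 
(.leaf (nat_lit 0x13d68027ad003b07))) (.node (.leaf (nat_lit 0x9eb4013d68019a1804ad8)) 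
(.leaf (nat_lit 0x1c6080329f006f2201069c02007003c1c)))) (.node (.node 
(.leaf (nat_lit 0x4f5a009eb400d25802672004a34)) (.leaf (nat_lit 0x13d68027ad004bc3))) (.node 
(.leaf (nat_lit 0xe0f801a9f0047cb008dca018f3c025bb806379)) (.leaf (nat_lit 0x13d68027ad003ffc)))))))
noncomputable def gt38 : Ix (Nat) := (.node (.node (.node (.node (.node (.node 
(.leaf (nat_lit 0x1d63804b7c0067100105a0028aa803e85008c5c01070801de300448300a15c0157c4021c080516f)) 
(.leaf (nat_lit 0x13d68027ad003332))) (.leaf (nat_lit 0x13d68027ad004768))) (.node 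
(.leaf (nat_lit 0x9eb4013d6801a518040ce)) (.leaf (nat_lit 0x13d68027ad003cd0)))) (.node (.node 
(.leaf (nat_lit 0x9eb4013d6801c0080520e)) (.leaf (nat_lit 0x13d68027ad003f10))) (.node 
(.leaf (nat_lit 0x9eb4013d6801769804298006eac00f988019e28033b8)) 
(.leaf (nat_lit 0x9eb400b54801b00805060))))) (.node (.node (.node (.node 
(.leaf (nat_lit 0x27ad004f5a005cc80126b0022228048a9)) (.leaf (nat_lit 0x13d68027ad003810))) 
(.leaf (nat_lit 0x13d68027ad00424b))) (.node (.leaf (nat_lit 0x4f5a00619200bd20016f8003778)) 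
(.leaf (nat_lit 0x13d68027ad003de8)))) (.node (.node (.leaf (nat_lit 0x9eb4013d68019fd8047a4)) 
(.leaf (nat_lit 0x13d68027ad0035cd))) (.node (.leaf (nat_lit 0x9eb4013d6801976004592)) 
(.leaf (nat_lit 0x13d68027ad003c94)))))) (.node (.node (.node (.node (.node 
(.leaf (nat_lit 0x27ad004f5a006b1e018510033670058e5)) (.leaf (nat_lit 0x13d68027ad004870))) 
(.leaf (nat_lit 0x13d68027ad004087))) (.node 
(.leaf (nat_lit 0x1a2d803067005c3600d93801de48036b4006d4200d2bc017fd003def00512600e5300132e8022cd)) 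
(.leaf (nat_lit 0x13d68027ad00482e)))) (.node (.node (.leaf (nat_lit 0x9eb4013d6801b50004258)) 
(.leaf (nat_lit 0x13d68027ad003d08))) (.node 
(.leaf (nat_lit 0x9eb4013d680142d0037b9004c0a00cec800b95802f2e)) 
(.leaf (nat_lit 0x9eb400a94c0153e0038f0))))) (.node (.node (.node (.node 
(.leaf (nat_lit 0x27ad004f5a005a8400eac801e6c803db6)) (.leaf (nat_lit 0x13d68027ad003ec8))) 
(.leaf (nat_lit 0x13d68027ad003b63))) (.node (.leaf (nat_lit 0x9eb4013d68018e4003d56)) 
(.leaf (nat_lit 0x61ee00c378018168041a1008e8a010ee002425804002)))) (.node (.node 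
(.leaf (nat_lit 0x9eb4013d68019d6003e6e)) (.leaf (nat_lit 0x13d68027ad003847))) (.node 
(.leaf (nat_lit 0x39a80067460114c001f7800511e00865001828c0253e0048b2)) 
(.leaf (nat_lit 0x13d68027ad0036e7)))))))
noncomputable def gt39 : Ix (Nat) := (.node (.node (.node (.node (.node 
(.leaf (nat_lit 0x10434020dc8045fd008f2e01289c023ac80492e009eee013dec025c5804a16)) 
(.leaf (nat_lit 0x27ad004f5a006a82003de400d3d003968004160005d8801d55802ed7))) 
(.leaf (nat_lit 0x13d68027ad003a88))) (.node (.leaf (nat_lit 0x13d68027ad004818)) 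
(.leaf (nat_lit 0x27ad004f5a006b4a01152802009803d9b)))) (.node (.node (.node 
(.leaf (nat_lit 0x13d68027ad004254)) (.leaf (nat_lit 0x13d68027ad004263))) 
(.leaf (nat_lit 0x3c7700756e00d8e4022b30041440081ec00fa74022b3803db2007cda00fbb0019778040890078ce00f73801e63003eb600796600f5a801d948039c2))) 
(.node (.leaf (nat_lit 0x13d68027ad004271)) (.leaf (nat_lit 0x4f5a009eb400e6dc02413004aa7))))) 
(.node (.node (.node (.node (.leaf (nat_lit 0x13d68027ad005169)) 
(.leaf (nat_lit 0x4f5a009eb400c43002470804939))) (.leaf (nat_lit 0x13d68027ad0037a8))) (.node 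
(.leaf (nat_lit 0x13d68027ad00453e)) (.leaf (nat_lit 0x27ad004f5a006ab4010e7002372803fae)))) (.node 
(.node (.node (.leaf (nat_lit 0x13d68027ad00451e)) 
(.leaf (nat_lit 0x27ad004f5a00691600f9bc017da002cb4))) 
(.leaf (nat_lit 0x27ad004f5a006c12017ccc02da4805bd6))) (.node (.leaf (nat_lit 0x13d68027ad0047b9)) 
(.leaf (nat_lit 0x27ad004f5a006c7c012448021d90046d3))))))
noncomputable def gt40 : Ix (Nat) := (.node (.node (.node (.node (.node 
(.leaf (nat_lit 0xf04c02239003489008f6c01489c023b2004e97009808012d44025d5004f920098380135ec02560805191)) 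
(.leaf (nat_lit 0x4f5a009eb400c71c01aa68035a0))) 
(.leaf (nat_lit 0x27ad004f5a005c8a010b2401f558041e9))) (.node 
(.leaf (nat_lit 0x9eb4013d6801a5c0046d4)) (.leaf (nat_lit 0x9eb4013d6801b30004a55)))) (.node (.node 
(.node (.leaf (nat_lit 0x9eb4013d6801ca5804156)) (.leaf (nat_lit 0x13d68027ad0040c5))) 
(.leaf (nat_lit 0xf19802366003a8d00a6d80169bc02a2b8052f400a5b20143dc026c700519d))) (.node 
(.leaf (nat_lit 0x13d68027ad004203)) (.leaf (nat_lit 0x9eb4013d6801d42804779))))) (.node (.node 
(.node (.node (.leaf (nat_lit 0x9eb4013d6801c67806cbb)) (.leaf (nat_lit 0x9eb4013d6801aa3804b59))) 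
(.leaf (nat_lit 0x9eb4013d68017f0004b52))) (.node (.leaf (nat_lit 0x9eb4013d6801a17004c0a)) 
(.leaf (nat_lit 0x9eb4013d6801bc80049c5)))) (.node (.node (.node 
(.leaf (nat_lit 0x9eb4013d6801ced005498)) (.leaf (nat_lit 0x9eb4013d6801b68003766))) 
(.leaf (nat_lit 0x9eb4013d6801ca3806c69))) (.node (.leaf (nat_lit 0x9eb4013d6801a22003d3b)) 
(.leaf (nat_lit 0x9eb4013d6801ebd804f05))))))
noncomputable def gt41 : Ix (Nat) := (.node (.node (.node (.node (.node (.node 
(.leaf (nat_lit 0x890c0104a801e0580450000894a0119080210b80450a008fd20116c00238e004293008d64011748021e40045d60085fa01182c021f68043c5008ac2011a400219a80461c008bc8011668023e08043af008490010b5c020f30044b4008bf2011708021980046a7008ad80116880216b8046dc008a5c0114c0022148044990084f0010b28022fb803fd5008780011540022ee804540008dc6011e58023b180454d008d50011c8402348804609008bf601190c02322804539008c7c0119140233b0045a7008b92011840022e300457a00892c0114200220900448800882e010fec0227e804780008c46013bb8021548043b20087940110cc01f1880430b00897a011428023048045dd009eae013acc021a280434900861c011fac021810044e3008680010c1c021bf8042c20085aa010dd0021760042ab0087a0012080021450027430088a00108780232e003d01))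 
(.leaf (nat_lit 0x9eb4013d68019d48035b8002a7600cf4c01a39803807))) 
(.leaf (nat_lit 0x4f5a009eb4011d4c02b908060d90083da01721003131004556))) (.node 
(.leaf (nat_lit 0x27ad004f5a007a4e010f8401fc200292a00621400c7c401d2d0042600088a200ff900207e803ef7)) 
(.leaf (nat_lit 0x9eb4013d680206a80460300a3ec017e1802054004c09)))) (.node (.node 
(.leaf (nat_lit 0x13d68027ad003cc1008ef001835c0239000710e00d900011a5803387004653)) 
(.leaf (nat_lit 0x9eb4013d68020b70046e70096cc010b5802386804134))) (.node 
(.leaf (nat_lit 0x13d68027ad003a310069fe00df9401c7c803f2d0071d400c23801d1a8039c80072be00e60401c91003a59005aa800fc5001fef003eba)) 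
(.leaf (nat_lit 0x4f5a0072d000d85001bfa803945007a0200ea5c020da80476a))))) (.node (.node (.node 
(.node 
(.leaf (nat_lit 0x13d68027ad00395c009604010b1002657804432007b1200f87401efa003cc000891000f60c01e628044910062b800f8a801fae004be7)) 
(.leaf (nat_lit 0x4f5a009eb400ca1c017a080351700542e00c9b801a03802d78))) 
(.leaf (nat_lit 0x4f5a009eb401096001fe2803ccb00717c0108b801f618043ba))) (.node 
(.leaf (nat_lit 0x13d6801bbc003539006b2a00e18001bf20026820070bc012e680162f002b9400728000e26801c9600389f006e2200dbd80255b803805007e3400ef4802049803c7c)) 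
(.leaf (nat_lit 0x9eb4013d6801e9300496d007980010f7c0204b80431f)))) (.node (.node 
(.leaf (nat_lit 0x13d68027ad003e6500822e00b5a4022590049a600907e01109c0241d004651)) 
(.leaf (nat_lit 0x9eb4013d6801f8b0044ec009302011b8402017004ac8))) (.node 
(.leaf (nat_lit 0x13d68027ad00387900824400f39801faf803e8e005ce800f90c019de80441600842600fe5c02033803d66)) 
(.leaf (nat_lit 0x27ad004f5a00787000aa9401a3000360c)))))) (.node (.node (.node (.node (.node 
(.leaf (nat_lit 0x13d68027ad003e5d00b56401010802be10066d000a186014aac0223e0048e400908601050c0208f80440d00a136011cc0026f28055bb)) 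
(.leaf (nat_lit 0x4f5a009eb400ebd801bf600386a0074f400e22001dd9003c8c))) 
(.leaf (nat_lit 0x4f5a009eb400f64802681004f430098ae013ba402540004e25))) (.node 
(.leaf (nat_lit 0x1e39003a9b006bde00e8b001b6b003e7a00770000fdac01fc68023830076ae00cdcc01ee48039410072ee00eb9001d0380387800746200e3a401ceb00373c00738a00f29c01d6d003d0800760400f3d001d78803a130072ec00eac801d64003a3c006e8400e74c01d9d003b330076d400e89c01d17003a48006e5c00ef4001d320037550076a400d61c01ae580371c00744600e7d401d190039d900780200f0e4018fc0038de0074a000e87001d6e0039b3007ce400517c01cfe0039be00749c00e5ec01d06003ad50074aa00ef0c01d3e0032a700403e0061e801425802ca8005f8600be0001c1c8039aa00705e00e3d001a8d803caf0079ee00f18801e94003a83)) 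
(.leaf (nat_lit 0x27ad004f5a00965c0143bc0222e804f82)))) (.node (.node 
(.leaf (nat_lit 0x13d68027ad003f7b008b120133080246c00455400a4c801163c026d480457a)) 
(.leaf (nat_lit 0x9eb4013d6801f2000493a00cc1c013fdc0203f006360))) (.node 
(.leaf (nat_lit 0x13d68027ad0030a10062c60084cc016fe80304a005f4800c51401b2d0033f90075b400aba801a908035ed0071a8008c9c018ef00313f)) 
(.leaf (nat_lit 0x4f5a00713c00cff801a4980357f00769800ad88019c5803137))))) (.node (.node (.node 
(.node 
(.leaf (nat_lit 0x13d68027ad0037e900654400edcc01ddb803b74007bf600e7d801f9b803db70080e800454401d70002f86)) 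
(.leaf (nat_lit 0x9eb4013d6802197003f3d0081fe0118e401dcb0035b9))) 
(.leaf (nat_lit 0x4f5a009eb4010d4002ad2004e7500863e01109c0266e0041be))) (.node 
(.leaf (nat_lit 0x9eb4013d6801c97803acf0076ba00eb2401e1d8041b80084940108c0020310046df007f96007d4801cb08036c1)) 
(.leaf (nat_lit 0x353f0070c800d19801d5d8038ba007a0000eb0001d37803b6300707e00fb9c01cb1803ca40073e000d4f001e35003b9a007b8a00dd0c01ee5803c4300809800ea0801dd30037d100782800edbc01c8e8038c100786800e67801cf18032e30067e800f23801c72803ca5007c8200e85001cd40039cb00747600e04001c4e003c8a0074de00f63401c7e8037f800717400dbe001afd0036af0031d800daf801ba5803686)))) 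
(.node (.node 
(.leaf (nat_lit 0x9eb4013d6801fb60019b00065fe0074b801c86003185007b1c00eb7801eef0048b2)) 
(.leaf (nat_lit 0x9eb4013d68026080042db008f9401367801e4a804efd))) (.node 
(.leaf (nat_lit 0x104ac01ea3804348008a3c01107c021c70043e70088ea010440022ab804441008a1e01444402aa90043ed00a80601281802354004774008c940121b80281a0045a200c3b00166c40222d004512008cf60106f0023cd804300008ccc013494022e60056fc00896e011f1401ee08043700083f0011844022578045250083e0011b0c0226e00448b008258011040021c780426c0090f40102dc0203e00569d007dd00130b801f5e804e69007dec010f1802813004559009c4a0105cc020a30042950083480107c4029b3805643007f2200f744028e1004f1f)) 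
(.leaf (nat_lit 0x9eb4013d6801bce803a1900682600fe4401d110039e5)))))))
noncomputable def gt42 : Ix (Nat) := (.node (.node (.node (.node (.node (.node 
(.leaf (nat_lit 0x415b007d5800f6d0025870047c0009e600125cc0251f80484e)) 
(.leaf (nat_lit 0x4f5a009eb400e9d402398004c24))) (.node (.leaf (nat_lit 0x13d68027ad004c78)) 
(.leaf (nat_lit 0x13d68027ad004af5)))) (.node (.node 
(.leaf (nat_lit 0x117a0026ac803ed90099de01292c029a4804a39)) 
(.leaf (nat_lit 0x27ad004f5a0077c4014a300235b804974))) 
(.leaf (nat_lit 0x4f5a009eb400e79801b6e004575)))) (.node (.node (.node 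
(.leaf (nat_lit 0x13d68027ad003cfe)) (.leaf (nat_lit 0x27ad004f5a00798a01076c01b4480483e))) 
(.leaf (nat_lit 0x4f5a009eb400e0f8019128043ea))) (.node (.node (.leaf (nat_lit 0x13d68027ad0050ce)) 
(.leaf (nat_lit 0x2120803c9d0079ba0137d002752004309))) (.leaf (nat_lit 0x13d68027ad0046e6))))) 
(.node (.node (.node (.node (.leaf (nat_lit 0x13d68027ad00320f)) 
(.leaf (nat_lit 0x27ad004f5a0075fa016fd4023448052f3))) 
(.leaf (nat_lit 0x418e007d5400e92002432004757008a780102a40218b004114008398015e2802809004f850080b200f9880208e004aa200a60a00f94801f41803b21))) 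
(.node (.node (.leaf (nat_lit 0x13d68027ad0038bd)) (.leaf (nat_lit 0x4f5a009eb400d76c029d5804cc1))) 
(.leaf (nat_lit 0x27ad004f5a0071f600698001240002da10019ee0090fc019828013a9)))) (.node (.node (.node 
(.leaf (nat_lit 0x13d68027ad004824)) (.leaf (nat_lit 0x4f5a009eb400ef900293b004c90))) 
(.leaf (nat_lit 0x9eb4013d6801a33004698))) (.node (.node (.leaf (nat_lit 0x9eb4013d6801e2d80447a)) 
(.leaf (nat_lit 0x13d68026ae003959))) (.leaf (nat_lit 0x27ad004f5a00755201548401faf0052ec)))))) 
(.node (.node (.node (.node (.node (.leaf (nat_lit 0x13d68027ad0045b0)) 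
(.leaf (nat_lit 0x27ad004f5a0074a0011d0001f2d004723))) (.node 
(.leaf (nat_lit 0x9eb4013d680216180514b)) (.leaf (nat_lit 0x27ad004f5a007956014c3402071804780)))) 
(.node (.node (.leaf (nat_lit 0x13d68027ad004f8d)) 
(.leaf (nat_lit 0x27ad004f5a0078be01361c02134804c45))) 
(.leaf (nat_lit 0x27ad004f5a00743a0131980209b00464a)))) (.node (.node (.node 
(.leaf (nat_lit 0x13d68027ad003c9a)) 
(.leaf (nat_lit 0x27ad004f5a007e680153fc02852004c07008dc20163780233b00438b))) 
(.leaf (nat_lit 0x9eb400d3e801937001f00006398008e6001b0a003723))) (.node (.node 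
(.leaf (nat_lit 0x47c3008d7400fe28025e5804c250095360127e4023b580497800945a0127840253e804643)) 
(.leaf (nat_lit 0x13d68027ad00460f))) (.leaf (nat_lit 0x27ad004f5a00753c0158e4020088046a7))))) 
(.node (.node (.node (.node (.leaf (nat_lit 0x13d68027ad0048e9)) 
(.leaf (nat_lit 0x4f5a009eb400f58402cab805040))) 
(.leaf (nat_lit 0x84dc00f61001bc60045810089c200e96001bca0040040073e000b68401e30003a67))) (.node 
(.node (.leaf (nat_lit 0x13d68027ad00493d)) (.leaf (nat_lit 0x27ad004f5a00715e013fc802060004d33))) 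
(.leaf (nat_lit 0x4f5a009eb400f0c0022f3004b0f)))) (.node (.node (.node 
(.leaf (nat_lit 0x13d68027ad003e34)) (.leaf (nat_lit 0x13d68027ad005cc9))) 
(.leaf (nat_lit 0x13d680272e003a19))) (.node (.node (.leaf (nat_lit 0x9eb4013d6801eb9003db7)) 
(.leaf (nat_lit 0x13d68027ad004cb0))) (.leaf (nat_lit 0x27ad004f5a0074d001245801e4e0045b4)))))))
noncomputable def gt43 : Ix (Nat) := (.node (.node (.node (.node (.node 
(.leaf (nat_lit 0x1082c01f89803bf000971801289c024e50045660092080129f002509804a3d008cf2010f0002104003e93)) 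
(.leaf (nat_lit 0x13d68027ad003290))) (.node (.leaf (nat_lit 0x9eb4013d6802027004380)) 
(.leaf (nat_lit 0x27ad004f5a007d52012f50025d7804c4c)))) (.node (.node 
(.leaf (nat_lit 0x13d68027ad004250)) 
(.leaf (nat_lit 0x22fe8043c2007c6001329002721004d9200971c012d5c024a9004cd2009954012d7c025ac804b78009298012bc4025b88049ad00969c013180024dd0049570099b80132a40257d804de0009876013470025738047db))) 
(.leaf (nat_lit 0x13d6801c8580359b)))) (.node (.node (.node (.leaf (nat_lit 0x13d68027ad003d6d)) 
(.leaf (nat_lit 0x13d68027ad00392e))) (.node (.leaf (nat_lit 0x9eb4013d6801e4a803f61)) 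
(.leaf (nat_lit 0x27ad004f5a007cda0128a80251d804764)))) (.node (.node 
(.leaf (nat_lit 0x9eb4013d68024288054ca)) (.leaf (nat_lit 0x27ad004f5a007394010f0802103804551))) 
(.leaf (nat_lit 0x13d68027ad0033f0))))) (.node (.node (.node (.node 
(.leaf (nat_lit 0x13d68027ad00577d)) (.leaf (nat_lit 0x13d68027ad003b87))) (.node 
(.leaf (nat_lit 0x9eb4013d6801f0380404f)) (.leaf (nat_lit 0x27ad004f5a0080bc013448026b6004a92)))) 
(.node (.node (.leaf (nat_lit 0x13d68027ad003fd1)) 
(.leaf (nat_lit 0x27ad004f5a007c3e012284023960049a7))) (.leaf (nat_lit 0x13d680168200313d)))) 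
(.node (.node (.node (.leaf (nat_lit 0x13d68027ad004044)) 
(.leaf (nat_lit 0x9eb4013d6801ff18040cf))) 
(.leaf (nat_lit 0x365b0072f600d45001fda003eb600821601008401faf804000))) (.node (.node 
(.leaf (nat_lit 0x9eb4013d6801f9f004486)) (.leaf (nat_lit 0x27ad004f5a006f3200e1b802097004484))) 
(.leaf (nat_lit 0x13d68027ad0037d4))))))
noncomputable def gt44 : Ix (Nat) := (.node (.node (.node (.node (.node 
(.leaf (nat_lit 0x461200864400fc940270c004c630092ec010b2c021660043b2008aa201121802224803f22)) 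
(.leaf (nat_lit 0x9eb4013d6801ff8804510))) (.node 
(.leaf (nat_lit 0x13d68027ad003cb600789800f300023ab803f05)) (.leaf (nat_lit 0x13d6801f8c003dc5)))) 
(.node (.node (.leaf (nat_lit 0x9eb4013d6801d7f004391)) (.leaf (nat_lit 0x9eb4013d6801e68004243))) 
(.leaf (nat_lit 0x9eb4013d6801f958044c9)))) (.node (.node (.node 
(.leaf (nat_lit 0x9eb4013d6801ec7803d51)) (.leaf (nat_lit 0x9eb4013d6801fa10044af))) (.node 
(.leaf (nat_lit 0x13d68027ad003f38)) (.leaf (nat_lit 0x13d68027ad0040e0)))) (.node (.node 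
(.leaf (nat_lit 0x9eb4013d6801e9b8044c0)) (.leaf (nat_lit 0x218e003994007e4a012094023af0046f2))) 
(.leaf (nat_lit 0x9eb4013d6801f2f8044a8))))) (.node (.node (.node (.node 
(.leaf (nat_lit 0x476a00833000f4b002654004c8b0047b40097500209a803e6c)) 
(.leaf (nat_lit 0x13d68027ad004525))) (.node (.leaf (nat_lit 0x9eb4013d6801fd1004502)) 
(.leaf (nat_lit 0x13d68027ad004087)))) (.node (.node (.leaf (nat_lit 0x13d6802101003ce1)) 
(.leaf (nat_lit 0x9eb4013d6801e89804487))) (.leaf (nat_lit 0x9eb4013d6802006804577)))) (.node 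
(.node (.node (.leaf (nat_lit 0x13d6801da000393d005e640085fc008f6803ead)) 
(.leaf (nat_lit 0x9eb4013d68020018044f0))) (.node (.leaf (nat_lit 0x9eb4013d6801f560044f0)) 
(.leaf (nat_lit 0x9eb4013d6801f6b80447f)))) (.node (.node (.leaf (nat_lit 0x9eb4013d6801f5d0045e2)) 
(.leaf (nat_lit 0x13d68027ad003d1c))) 
(.leaf (nat_lit 0x13d68027ad0040de009f5e013c400281b004689))))))
noncomputable def gt45 : Ix (Nat) := (.node (.node (.node (.node (.node (.node 
(.leaf (nat_lit 0x7cfe00f410021870044750093c00114c8022e680455e)) 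
(.leaf (nat_lit 0x9eb4013d6801ca180491e))) (.node (.leaf (nat_lit 0x13d68027ad004c69)) 
(.leaf (nat_lit 0x13d68027ad003e77)))) (.node (.node 
(.leaf (nat_lit 0x21520050f40074ec012214029e5004959)) (.leaf (nat_lit 0x9eb4013d6801d800058b5))) 
(.leaf (nat_lit 0x9eb4013d6801caf804c1e)))) (.node (.node (.node 
(.leaf (nat_lit 0x13d68027ad0039ea)) (.leaf (nat_lit 0x9eb4013d6801d70005297))) 
(.leaf (nat_lit 0x9eb4013d6801c6b004616))) (.node (.node (.leaf (nat_lit 0x13d68027ad004c94)) 
(.leaf (nat_lit 0x1eb28043790070360121cc0211900488f))) (.leaf (nat_lit 0x13d68027ad004666))))) 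
(.node (.node (.node (.node (.leaf (nat_lit 0x13d68027ad00399c)) 
(.leaf (nat_lit 0x9eb4013d6801c94005537))) 
(.leaf (nat_lit 0x1002c01ed78036cd0086b4011108021da003dd000adca00fac002bd78055c8))) (.node (.node 
(.leaf (nat_lit 0x13d68027ad003728)) (.leaf (nat_lit 0x9eb4013d6801b7e804fd7))) 
(.leaf (nat_lit 0x4f5a009eb400df98011b2004161)))) (.node (.node (.node 
(.leaf (nat_lit 0x13d68027ad00494b)) (.leaf (nat_lit 0x9eb4013d6801cf7005414))) 
(.leaf (nat_lit 0x9eb4013d6801a99804121))) (.node (.node 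
(.leaf (nat_lit 0x4f5a009eb400f454021a2804248)) (.leaf (nat_lit 0x13d680228c0038ac))) 
(.leaf (nat_lit 0x9eb4013d6801cbc005056)))))) (.node (.node (.node (.node (.node 
(.leaf (nat_lit 0x13d68027ad00485d)) (.leaf (nat_lit 0x9eb4013d6801c8f804b1c))) (.node 
(.leaf (nat_lit 0x9eb4013d6802076805215)) (.leaf (nat_lit 0x9eb4013d6801c0d004985)))) (.node (.node 
(.leaf (nat_lit 0x13d68027ad004a22)) (.leaf (nat_lit 0x9eb4013d6801d948049ba))) 
(.leaf (nat_lit 0x9eb4013d6801c92805346)))) (.node (.node (.node 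
(.leaf (nat_lit 0x13d68027ad003b4d)) (.leaf (nat_lit 0x4f5a009eb400ee6002a848049cf))) 
(.leaf (nat_lit 0x13d6801ac7803358007a78002c4c01d95003cc8))) (.node (.node 
(.leaf (nat_lit 0x22a78046de0080d401257c0243b804ad5009060012f3c024a00044a3)) 
(.leaf (nat_lit 0x13d68027ad003d9d))) (.leaf (nat_lit 0x9eb4013d6801c13004bbe))))) (.node (.node 
(.node (.node (.leaf (nat_lit 0x13d68027ad004122)) (.leaf (nat_lit 0x9eb4013d6801e2a805067))) 
(.leaf (nat_lit 0x4114007bb600df700218c80444d0077d200fd5401db7003812))) (.node (.node 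
(.leaf (nat_lit 0x13d68027ad004dfa)) (.leaf (nat_lit 0x9eb4013d6801b80805132))) 
(.leaf (nat_lit 0x9eb4013d6801d8f004c9d)))) (.node (.node (.node 
(.leaf (nat_lit 0x13d68027ad003b2e)) (.leaf (nat_lit 0x13d68027ad004838))) 
(.leaf (nat_lit 0x13d68026a100378e))) (.node (.node (.leaf (nat_lit 0x9eb4013d6801f438036c6)) 
(.leaf (nat_lit 0x13d68027ad003e20))) (.leaf (nat_lit 0x9eb4013d6801c9b004a9c)))))))
noncomputable def gt46 : Ix (Nat) := (.node (.node (.node (.node (.node 
(.leaf (nat_lit 0x4110007aa200eb18023d380474e00965a011f200243d0047e2)) 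
(.leaf (nat_lit 0x13d68027ad003255))) (.node (.leaf (nat_lit 0x13d68027ad0040c8)) 
(.leaf (nat_lit 0x9eb4013d68020c9004a3b)))) (.node (.node (.leaf (nat_lit 0x13d68027ad003ed2)) 
(.leaf (nat_lit 0x89b401088401f00804e3200971a0122e0025550049b2009434012a64024d480477e008e88011a24023a1004496))) 
(.leaf (nat_lit 0x13d6801baa0035cf)))) (.node (.node (.node (.leaf (nat_lit 0x13d68027ad003a32)) 
(.leaf (nat_lit 0x13d68027ad003694))) (.node (.leaf (nat_lit 0x13d68027ad003b1e)) 
(.leaf (nat_lit 0x9eb4013d6801f08004547)))) (.node (.node (.leaf (nat_lit 0x13d68027ad004f25)) 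
(.leaf (nat_lit 0x9eb4013d6801cc60024ba0082c201001800da280425b))) 
(.leaf (nat_lit 0x13d68027ad003282))))) (.node (.node (.node (.node 
(.leaf (nat_lit 0x13d68027ad005445)) (.leaf (nat_lit 0x13d68027ad003a5d))) (.node 
(.leaf (nat_lit 0x13d68027ad003e32)) (.leaf (nat_lit 0x9eb4013d6801fbb8047bc)))) (.node (.node 
(.leaf (nat_lit 0x13d68027ad003e33)) 
(.leaf (nat_lit 0x9eb4013d6801dff80489f008ea40115a4023500045b5))) 
(.leaf (nat_lit 0x13d68019a38031f3)))) (.node (.node (.node (.leaf (nat_lit 0x13d68027ad003c2c)) 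
(.leaf (nat_lit 0x13d68027ad003f2b))) 
(.leaf (nat_lit 0x73e600df0c01a3c803ce3006f040106c402088803d9d))) (.node (.node 
(.leaf (nat_lit 0x13d68027ad003f34)) (.leaf (nat_lit 0x13d68027ad0036f3006d8c00fd6401dfa004087))) 
(.leaf (nat_lit 0x13d68027ad00363d))))))
noncomputable def gt47 : Ix (Nat) := (.node (.node (.node (.node (.node (.node 
(.leaf (nat_lit 0x842e0101c001f2a0048d90096fc01254c024cf004a4c)) 
(.leaf (nat_lit 0x9eb4013d6801d0f004f63))) (.node 
(.leaf (nat_lit 0x23798044cb007eb2012da802542004d490099e6012a140252d00451f)) 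
(.leaf (nat_lit 0x9eb4013d6801d30805955)))) (.node (.node 
(.leaf (nat_lit 0x217680422d0077c601252c02509004a70)) 
(.leaf (nat_lit 0x1f2c804779006ea80146ec0214b803f5b))) (.leaf (nat_lit 0x13d68021e70039b6)))) 
(.node (.node (.node (.leaf (nat_lit 0x13d68027ad003b29)) 
(.leaf (nat_lit 0x9eb4013d6801c75004929))) (.node (.leaf (nat_lit 0x9eb4013d6801f098044df)) 
(.leaf (nat_lit 0x9eb4013d6801c1f005445)))) (.node (.node (.leaf (nat_lit 0x13d68027ad00424b)) 
(.leaf (nat_lit 0x13d68027ad0040a6))) (.leaf (nat_lit 0x9eb4013d6801d01004ccb))))) (.node (.node 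
(.node (.node (.leaf (nat_lit 0x13d68027ad003b05)) (.leaf (nat_lit 0x9eb4013d6801b22804e0d))) 
(.node (.leaf (nat_lit 0x9eb4013d6801e27804526)) 
(.leaf (nat_lit 0x9eb4013d6801a2400318c0055b800e7b801c14003c63)))) (.node (.node 
(.leaf (nat_lit 0x13d68027ad003b86)) (.leaf (nat_lit 0x13d6801f49803811))) 
(.leaf (nat_lit 0x9eb400cf080185800294e00709a00980c01afe803627)))) (.node (.node (.node 
(.leaf (nat_lit 0x13d68027ad0049cf)) (.leaf (nat_lit 0x9eb4013d6801ace8051c0))) (.node 
(.leaf (nat_lit 0x1f7d8039e1006ab80108080215f003dc20076f400eb2801de4803c3e)) 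
(.leaf (nat_lit 0x9eb4013d6801c7d8057d5)))) (.node (.node (.leaf (nat_lit 0x13d68027ad0048ba)) 
(.leaf (nat_lit 0x9eb4013d6801c93005e27))) (.leaf (nat_lit 0x9eb4013d6801d1c0048d5)))))) (.node 
(.node (.node (.node (.node (.leaf (nat_lit 0x13d68027ad00449e)) 
(.leaf (nat_lit 0x9eb4013d6801c9080526e))) (.node (.leaf (nat_lit 0x13d68027ad004e04)) 
(.leaf (nat_lit 0x1003c01cc60038dc00829201006402082803e79007b540100c801ec180306000785c00f10801dc3803b34)))) 
(.node (.node (.leaf (nat_lit 0x13d68027ad004a9c)) (.leaf (nat_lit 0x13d68027ad00412a))) 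
(.leaf (nat_lit 0x9eb4013d680196e0048a1)))) (.node (.node (.node 
(.leaf (nat_lit 0x13d68027ad003976)) (.leaf (nat_lit 0x9eb4013d6801cb0805399))) (.node 
(.leaf (nat_lit 0x1078c01eb200356f008b120114f0022ec00506c008ee60148e001f7200617f0083fa015f3c022ff8040ee)) 
(.leaf (nat_lit 0x9eb4013d6801bae0042da00769800fe3c01eb080418e)))) (.node (.node 
(.leaf (nat_lit 0x13d68027ad003bc9)) (.leaf (nat_lit 0x9eb4013d6801cb780525c))) 
(.leaf (nat_lit 0x13d68027ad0044f4))))) (.node (.node (.node (.node 
(.leaf (nat_lit 0x13d68027ad0044de)) (.leaf (nat_lit 0x9eb4013d6801c92805282))) (.node 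
(.leaf (nat_lit 0x4f5a009eb400f234022f280451f)) 
(.leaf (nat_lit 0x27ad0035e300679001033001eff003d56)))) (.node (.node 
(.leaf (nat_lit 0x13d68027ad0049bb)) (.leaf (nat_lit 0x13d68027ad00453d))) 
(.leaf (nat_lit 0x9eb4013d6801b568041b6)))) (.node (.node (.node 
(.leaf (nat_lit 0x13d68027ad003ba6)) (.leaf (nat_lit 0x9eb4013d6801c410059ea))) 
(.leaf (nat_lit 0x9eb4013d6801c0f0046b6))) (.node (.node (.leaf (nat_lit 0x13d68027ad003f8c)) 
(.leaf (nat_lit 0x9eb4013d68019d78042a8))) 
(.leaf (nat_lit 0x27ad004f5a0065c20130a4012f080433e)))))))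
noncomputable def gt48 : Ix (Nat) := (.node (.node (.node (.node (.node 
(.leaf (nat_lit 0x10aac02046803b7a0098f0012c58024378048d30098e6012d70025f6004bd0)) 
(.leaf (nat_lit 0x13d68027ad003e51))) (.node (.leaf (nat_lit 0x13d68027ad003654)) 
(.leaf (nat_lit 0x27ad0038e2006d0c0103f801aa4003f02)))) (.node (.node 
(.leaf (nat_lit 0x13d68027ad004c97)) (.leaf (nat_lit 0x4f5a009eb400fc64022850044c9))) 
(.leaf (nat_lit 0x13d68027ad0030e5)))) (.node (.node (.node (.leaf (nat_lit 0x13d68027ad004110)) 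
(.leaf (nat_lit 0x9eb4013d6801e748048a80092c60127a00249c80489c))) (.node 
(.leaf (nat_lit 0x13d68019210036ff)) 
(.leaf (nat_lit 0x27ad004f5a00736a00ee7801fd4003bd90089f401146c022e0004123)))) (.node (.node 
(.leaf (nat_lit 0x13d68027ad0040be)) 
(.leaf (nat_lit 0x9eb4013d6801ed28022c90044f000d3b00207a8043fa))) 
(.leaf (nat_lit 0x13d68027ad0031f7))))) (.node (.node (.node (.node 
(.leaf (nat_lit 0x13d68027ad0047a1)) 
(.leaf (nat_lit 0x1161401c16803bf7009cc20131900260d804c170098480129e802547004a6e009132011ee80241e0032b20094360128c4025ca803a67008f2c0121180239800445b))) 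
(.node (.leaf (nat_lit 0x3aba00771400dc2c019c800403e00889e01130801ff38036e8)) 
(.leaf (nat_lit 0x9eb4013d6801d098044510089ce0114e80233f80416a)))) (.node (.node 
(.leaf (nat_lit 0x13d68027ad00421f)) (.leaf (nat_lit 0x4f5a009eb400f05c018530040ff))) 
(.leaf (nat_lit 0x13d68027ad0034c3)))) (.node (.node (.node (.leaf (nat_lit 0x13d68027ad003e7c)) 
(.leaf (nat_lit 0x4f5a009eb400f158026f6804a5e))) (.node (.leaf (nat_lit 0x13d6801a1a803052)) 
(.leaf (nat_lit 0x9eb4013d6801c91801d2b008e4600c9ec024c3804188)))) (.node (.node 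
(.leaf (nat_lit 0x13d68027ad003e6b)) 
(.leaf (nat_lit 0xfe0001e1e803923007da20109200223c00390f007ca400e77802128003c1a0059a600ea28012438043e500879800c17c02262003c96))) 
(.leaf (nat_lit 0x13d68027ad003e9d))))))
noncomputable def gt49 : Ix (Nat) := (.node (.node (.node (.node (.node (.node 
(.leaf (nat_lit 0xf12801da90031b00088fa0118a80225680410c008166014e78026ee00564000813a0149b801f0400502d)) 
(.leaf (nat_lit 0x13d68027ad002ced))) (.leaf (nat_lit 0x13d68027ad004525))) (.node 
(.leaf (nat_lit 0x9eb4013d6801b9880514d)) (.leaf (nat_lit 0x13d68027ad003d6d)))) (.node (.node 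
(.leaf (nat_lit 0x9eb4013d6801b6b8067ea)) (.leaf (nat_lit 0x13d68027ad004207))) (.node 
(.leaf (nat_lit 0x9eb4013d68017a1804238006d9200eb5801b36003a58)) 
(.leaf (nat_lit 0x9eb400c0480197c805286))))) (.node (.node (.node (.node 
(.leaf (nat_lit 0x27ad004f5a005f4e00f40c01d790043ef)) (.leaf (nat_lit 0x13d68027ad0034eb))) 
(.leaf (nat_lit 0x13d68027ad0042f3))) (.node (.leaf (nat_lit 0x27ad002fdd005df0011c1401995003ec1)) 
(.leaf (nat_lit 0x13d68027ad003b4e)))) (.node (.node (.leaf (nat_lit 0x9eb4013d6801b0b004965)) 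
(.leaf (nat_lit 0x13d68027ad00400f))) (.node (.leaf (nat_lit 0x9eb4013d6801889004795)) 
(.leaf (nat_lit 0x13d68027ad003c54)))))) (.node (.node (.node (.node (.node 
(.leaf (nat_lit 0x27ad004f5a0067b6017d6802f828063c5)) (.leaf (nat_lit 0x13d68027ad003acd))) 
(.leaf (nat_lit 0x13d68027ad00497f))) (.node 
(.leaf (nat_lit 0xd7a0018ec002dc60072820101b001d45003606006b8600832001775804182005ab200e994011f6801ab6)) 
(.leaf (nat_lit 0x13d68027ad004374)))) (.node (.node (.leaf (nat_lit 0x9eb4013d6801bb180479c)) 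
(.leaf (nat_lit 0x13d68027ad003b09))) (.node 
(.leaf (nat_lit 0x9eb4013d680145e8023f400412400cab000ffa0032cc)) 
(.leaf (nat_lit 0x9eb400a490015e8803f0c))))) (.node (.node (.node (.node 
(.leaf (nat_lit 0x27ad004f5a005b5c00f04401e108043f8)) (.leaf (nat_lit 0x13d68027ad003d02))) 
(.leaf (nat_lit 0x13d68027ad003899))) (.node (.leaf (nat_lit 0x9eb4013d680194f8045cd)) 
(.leaf (nat_lit 0x64e600bf6c01733003f9800a37a01040002221004036)))) (.node (.node 
(.leaf (nat_lit 0x9eb4013d680198580445b)) (.leaf (nat_lit 0x13d68027ad00417e))) (.node 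
(.leaf (nat_lit 0x3a54006c9e00f7940216980623d0095a2015b3c0219f804d23)) 
(.leaf (nat_lit 0x13d68027ad0035c2)))))))
noncomputable def gt50 : Ix (Nat) := (.node (.node (.node (.node (.node 
(.leaf (nat_lit 0x10434020dc8045fd008f2e01289c023ac80492e009eee013dec025c5804a16)) 
(.leaf (nat_lit 0x13d68027ad004263))) (.leaf (nat_lit 0x13d68027ad004271))) (.node 
(.leaf (nat_lit 0x13d68027ad004818)) (.leaf (nat_lit 0x27ad004f5a006b4a01152802009803d9b)))) (.node 
(.node (.node (.leaf (nat_lit 0x13d68027ad004254)) 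
(.leaf (nat_lit 0x27ad004f5a006a82003de400d3d003968004160005d8801d55802ed7))) 
(.leaf (nat_lit 0x3c7700756e00d8e4022b30041440081ec00fa74022b3803db2007cda00fbb0019778040890078ce00f73801e63003eb600796600f5a801d948039c2))) 
(.node (.leaf (nat_lit 0x13d68027ad003a88)) (.leaf (nat_lit 0x4f5a009eb400e6dc02413004aa7))))) 
(.node (.node (.node (.node (.leaf (nat_lit 0x13d68027ad005169)) 
(.leaf (nat_lit 0x27ad004f5a00691600f9bc017da002cb4))) (.leaf (nat_lit 0x13d68027ad0047b9))) (.node 
(.leaf (nat_lit 0x13d68027ad00453e)) (.leaf (nat_lit 0x27ad004f5a006ab4010e7002372803fae)))) (.node 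
(.node (.node (.leaf (nat_lit 0x13d68027ad00451e)) (.leaf (nat_lit 0x4f5a009eb400c43002470804939))) 
(.leaf (nat_lit 0x27ad004f5a006c12017ccc02da4805bd6))) (.node (.leaf (nat_lit 0x13d68027ad0037a8)) 
(.leaf (nat_lit 0x27ad004f5a006c7c012448021d90046d3))))))
noncomputable def gt51 : Ix (Nat) := (.node (.node (.node (.node (.node 
(.leaf (nat_lit 0xf04c02239003489008f6c01489c023b2004e97009808012d44025d5004f920098380135ec02560805191)) 
(.leaf (nat_lit 0x13d68027ad0040c5))) (.leaf (nat_lit 0x13d68027ad004203))) (.node 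
(.leaf (nat_lit 0x9eb4013d6801a5c0046d4)) (.leaf (nat_lit 0x9eb4013d6801b30004a55)))) (.node (.node 
(.node (.leaf (nat_lit 0x9eb4013d6801ca5804156)) (.leaf (nat_lit 0x4f5a009eb400c71c01aa68035a0))) 
(.leaf (nat_lit 0xf19802366003a8d00a6d80169bc02a2b8052f400a5b20143dc026c700519d))) (.node 
(.leaf (nat_lit 0x27ad004f5a005c8a010b2401f558041e9)) (.leaf (nat_lit 0x9eb4013d6801d42804779))))) 
(.node (.node (.node (.node (.leaf (nat_lit 0x9eb4013d6801c67806cbb)) 
(.leaf (nat_lit 0x9eb4013d6801b68003766))) (.leaf (nat_lit 0x9eb4013d6801a22003d3b))) (.node 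
(.leaf (nat_lit 0x9eb4013d6801a17004c0a)) (.leaf (nat_lit 0x9eb4013d6801bc80049c5)))) (.node (.node 
(.node (.leaf (nat_lit 0x9eb4013d6801ced005498)) (.leaf (nat_lit 0x9eb4013d6801aa3804b59))) 
(.leaf (nat_lit 0x9eb4013d6801ca3806c69))) (.node (.leaf (nat_lit 0x9eb4013d68017f0004b52)) 
(.leaf (nat_lit 0x9eb4013d6801ebd804f05))))))
noncomputable def gt52 : Ix (Nat) := (.node (.node (.node (.node (.node (.node 
(.leaf (nat_lit 0x890c0104a801e0580450000894a0119080210b80450a008fd20116c00238e004293008d64011748021e40045d60085fa01182c021f68043c5008ac2011a400219a80461c008bc8011668023e08043af008490010b5c020f30044b4008bf2011708021980046a7008ad80116880216b8046dc008a5c0114c0022148044990084f0010b28022fb803fd5008780011540022ee804540008dc6011e58023b180454d008d50011c8402348804609008bf601190c02322804539008c7c0119140233b0045a7008b92011840022e300457a00892c0114200220900448800882e010fec0227e804780008c46013bb8021548043b20087940110cc01f1880430b00897a011428023048045dd009eae013acc021a280434900861c011fac021810044e3008680010c1c021bf8042c20085aa010dd0021760042ab0087a0012080021450027430088a00108780232e003d01))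 
(.leaf (nat_lit 0x9eb4013d68019d48035b8002a7600cf4c01a39803807))) 
(.leaf (nat_lit 0x4f5a009eb4011d4c02b908060d90083da01721003131004556))) (.node 
(.leaf (nat_lit 0x27ad004f5a007a4e010f8401fc200292a00621400c7c401d2d0042600088a200ff900207e803ef7)) 
(.leaf (nat_lit 0x9eb4013d680206a80460300a3ec017e1802054004c09)))) (.node (.node 
(.leaf (nat_lit 0x13d68027ad003cc1008ef001835c0239000710e00d900011a5803387004653)) 
(.leaf (nat_lit 0x9eb4013d68020b70046e70096cc010b5802386804134))) (.node 
(.leaf (nat_lit 0x13d68027ad003a310069fe00df9401c7c803f2d0071d400c23801d1a8039c80072be00e60401c91003a59005aa800fc5001fef003eba)) 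
(.leaf (nat_lit 0x4f5a0072d000d85001bfa803945007a0200ea5c020da80476a))))) (.node (.node (.node 
(.node 
(.leaf (nat_lit 0x13d68027ad00395c009604010b1002657804432007b1200f87401efa003cc000891000f60c01e628044910062b800f8a801fae004be7)) 
(.leaf (nat_lit 0x4f5a009eb400ca1c017a080351700542e00c9b801a03802d78))) 
(.leaf (nat_lit 0x4f5a009eb401096001fe2803ccb00717c0108b801f618043ba))) (.node 
(.leaf (nat_lit 0x13d6801bbc003539006b2a00e18001bf20026820070bc012e680162f002b9400728000e26801c9600389f006e2200dbd80255b803805007e3400ef4802049803c7c)) 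
(.leaf (nat_lit 0x9eb4013d6801e9300496d007980010f7c0204b80431f)))) (.node (.node 
(.leaf (nat_lit 0x13d68027ad003e6500822e00b5a4022590049a600907e01109c0241d004651)) 
(.leaf (nat_lit 0x9eb4013d6801f8b0044ec009302011b8402017004ac8))) (.node 
(.leaf (nat_lit 0x13d68027ad00387900824400f39801faf803e8e005ce800f90c019de80441600842600fe5c02033803d66)) 
(.leaf (nat_lit 0x27ad004f5a00787000aa9401a3000360c)))))) (.node (.node (.node (.node (.node 
(.leaf (nat_lit 0x13d68027ad003e5d00b56401010802be10066d000a186014aac0223e0048e400908601050c0208f80440d00a136011cc0026f28055bb)) 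
(.leaf (nat_lit 0x4f5a009eb400ebd801bf600386a0074f400e22001dd9003c8c))) 
(.leaf (nat_lit 0x4f5a009eb400f64802681004f430098ae013ba402540004e25))) (.node 
(.leaf (nat_lit 0x1e39003a9b006bde00e8b001b6b003e7a00770000fdac01fc68023830076ae00cdcc01ee48039410072ee00eb9001d0380387800746200e3a401ceb00373c00738a00f29c01d6d003d0800760400f3d001d78803a130072ec00eac801d64003a3c006e8400e74c01d9d003b330076d400e89c01d17003a48006e5c00ef4001d320037550076a400d61c01ae580371c00744600e7d401d190039d900780200f0e4018fc0038de0074a000e87001d6e0039b3007ce400517c01cfe0039be00749c00e5ec01d06003ad50074aa00ef0c01d3e0032a700403e0061e801425802ca8005f8600be0001c1c8039aa00705e00e3d001a8d803caf0079ee00f18801e94003a83)) 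
(.leaf (nat_lit 0x27ad004f5a00965c0143bc0222e804f82)))) (.node (.node 
(.leaf (nat_lit 0x13d68027ad003f7b008b120133080246c00455400a4c801163c026d480457a)) 
(.leaf (nat_lit 0x9eb4013d6801f2000493a00cc1c013fdc0203f006360))) (.node 
(.leaf (nat_lit 0x13d68027ad0030a10062c60084cc016fe80304a005f4800c51401b2d0033f90075b400aba801a908035ed0071a8008c9c018ef00313f)) 
(.leaf (nat_lit 0x4f5a00713c00cff801a4980357f00769800ad88019c5803137))))) (.node (.node (.node 
(.node 
(.leaf (nat_lit 0x13d68027ad0037e900654400edcc01ddb803b74007bf600e7d801f9b803db70080e800454401d70002f86)) 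
(.leaf (nat_lit 0x9eb4013d6802197003f3d0081fe0118e401dcb0035b9))) 
(.leaf (nat_lit 0x4f5a009eb4010d4002ad2004e7500863e01109c0266e0041be))) (.node 
(.leaf (nat_lit 0x9eb4013d6801c97803acf0076ba00eb2401e1d8041b80084940108c0020310046df007f96007d4801cb08036c1)) 
(.leaf (nat_lit 0x353f0070c800d19801d5d8038ba007a0000eb0001d37803b6300707e00fb9c01cb1803ca40073e000d4f001e35003b9a007b8a00dd0c01ee5803c4300809800ea0801dd30037d100782800edbc01c8e8038c100786800e67801cf18032e30067e800f23801c72803ca5007c8200e85001cd40039cb00747600e04001c4e003c8a0074de00f63401c7e8037f800717400dbe001afd0036af0031d800daf801ba5803686)))) 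
(.node (.node 
(.leaf (nat_lit 0x9eb4013d6801fb60019b00065fe0074b801c86003185007b1c00eb7801eef0048b2)) 
(.leaf (nat_lit 0x9eb4013d68026080042db008f9401367801e4a804efd))) (.node 
(.leaf (nat_lit 0x104ac01ea3804348008a3c01107c021c70043e70088ea010440022ab804441008a1e01444402aa90043ed00a80601281802354004774008c940121b80281a0045a200c3b00166c40222d004512008cf60106f0023cd804300008ccc013494022e60056fc00896e011f1401ee08043700083f0011844022578045250083e0011b0c0226e00448b008258011040021c780426c0090f40102dc0203e00569d007dd00130b801f5e804e69007dec010f1802813004559009c4a0105cc020a30042950083480107c4029b3805643007f2200f744028e1004f1f)) 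
(.leaf (nat_lit 0x9eb4013d6801bce803a1900682600fe4401d110039e5)))))))
noncomputable def gt53 : Ix (Nat) := (.node (.node (.node (.node (.node (.node 
(.leaf (nat_lit 0x415b007d5800f6d0025870047c0009e600125cc0251f80484e)) 
(.leaf (nat_lit 0x27ad004f5a0074a0011d0001f2d004723))) (.node 
(.leaf (nat_lit 0x9eb4013d6801e2d80447a)) (.leaf (nat_lit 0x13d68027ad004af5)))) (.node (.node 
(.leaf (nat_lit 0x117a0026ac803ed90099de01292c029a4804a39)) 
(.leaf (nat_lit 0x4f5a009eb400ef900293b004c90))) (.leaf (nat_lit 0x9eb4013d6801a33004698)))) (.node 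
(.node (.node (.leaf (nat_lit 0x13d68027ad003cfe)) 
(.leaf (nat_lit 0x27ad004f5a00798a01076c01b4480483e))) 
(.leaf (nat_lit 0x4f5a009eb400e0f8019128043ea))) (.node (.node (.leaf (nat_lit 0x13d68027ad0050ce)) 
(.leaf (nat_lit 0x2120803c9d0079ba0137d002752004309))) 
(.leaf (nat_lit 0x27ad004f5a0071f600698001240002da10019ee0090fc019828013a9))))) (.node (.node 
(.node (.node (.leaf (nat_lit 0x13d68027ad00320f)) 
(.leaf (nat_lit 0x27ad004f5a0075fa016fd4023448052f3))) 
(.leaf (nat_lit 0x418e007d5400e92002432004757008a780102a40218b004114008398015e2802809004f850080b200f9880208e004aa200a60a00f94801f41803b21))) 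
(.node (.node (.leaf (nat_lit 0x13d68027ad0038bd)) (.leaf (nat_lit 0x4f5a009eb400d76c029d5804cc1))) 
(.leaf (nat_lit 0x13d68027ad0046e6)))) (.node (.node (.node (.leaf (nat_lit 0x13d68027ad004824)) 
(.leaf (nat_lit 0x27ad004f5a0077c4014a300235b804974))) 
(.leaf (nat_lit 0x4f5a009eb400e79801b6e004575))) (.node (.node (.leaf (nat_lit 0x13d68027ad004c78)) 
(.leaf (nat_lit 0x13d68026ae003959))) (.leaf (nat_lit 0x27ad004f5a00755201548401faf0052ec)))))) 
(.node (.node (.node (.node (.node (.leaf (nat_lit 0x13d68027ad0045b0)) 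
(.leaf (nat_lit 0x4f5a009eb400e9d402398004c24))) (.node (.leaf (nat_lit 0x9eb4013d6801eb9003db7)) 
(.leaf (nat_lit 0x27ad004f5a007956014c3402071804780)))) (.node (.node 
(.leaf (nat_lit 0x13d68027ad004f8d)) (.leaf (nat_lit 0x27ad004f5a0078be01361c02134804c45))) 
(.leaf (nat_lit 0x27ad004f5a00743a0131980209b00464a)))) (.node (.node (.node 
(.leaf (nat_lit 0x13d68027ad003c9a)) (.leaf (nat_lit 0x13d68027ad005cc9))) 
(.leaf (nat_lit 0x13d680272e003a19))) (.node (.node 
(.leaf (nat_lit 0x47c3008d7400fe28025e5804c250095360127e4023b580497800945a0127840253e804643)) 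
(.leaf (nat_lit 0x13d68027ad00460f))) (.leaf (nat_lit 0x4f5a009eb400f0c0022f3004b0f))))) (.node 
(.node (.node (.node (.leaf (nat_lit 0x13d68027ad0048e9)) 
(.leaf (nat_lit 0x4f5a009eb400f58402cab805040))) 
(.leaf (nat_lit 0x84dc00f61001bc60045810089c200e96001bca0040040073e000b68401e30003a67))) (.node 
(.node (.leaf (nat_lit 0x13d68027ad00493d)) (.leaf (nat_lit 0x27ad004f5a00715e013fc802060004d33))) 
(.leaf (nat_lit 0x27ad004f5a00753c0158e4020088046a7)))) (.node (.node (.node 
(.leaf (nat_lit 0x13d68027ad003e34)) 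
(.leaf (nat_lit 0x27ad004f5a007e680153fc02852004c07008dc20163780233b00438b))) 
(.leaf (nat_lit 0x9eb400d3e801937001f00006398008e6001b0a003723))) (.node (.node 
(.leaf (nat_lit 0x9eb4013d680216180514b)) (.leaf (nat_lit 0x13d68027ad004cb0))) 
(.leaf (nat_lit 0x27ad004f5a0074d001245801e4e0045b4)))))))
noncomputable def gt54 : Ix (Nat) := (.node (.node (.node (.node (.node 
(.leaf (nat_lit 0x1082c01f89803bf000971801289c024e50045660092080129f002509804a3d008cf2010f0002104003e93)) 
(.leaf (nat_lit 0x13d68027ad003290))) (.node (.leaf (nat_lit 0x9eb4013d6802027004380)) 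
(.leaf (nat_lit 0x27ad004f5a007d52012f50025d7804c4c)))) (.node (.node 
(.leaf (nat_lit 0x13d68027ad004250)) 
(.leaf (nat_lit 0x22fe8043c2007c6001329002721004d9200971c012d5c024a9004cd2009954012d7c025ac804b78009298012bc4025b88049ad00969c013180024dd0049570099b80132a40257d804de0009876013470025738047db))) 
(.leaf (nat_lit 0x13d6801c8580359b)))) (.node (.node (.node (.leaf (nat_lit 0x13d68027ad003d6d)) 
(.leaf (nat_lit 0x13d68027ad00392e))) (.node (.leaf (nat_lit 0x9eb4013d6801e4a803f61)) 
(.leaf (nat_lit 0x27ad004f5a007cda0128a80251d804764)))) (.node (.node 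
(.leaf (nat_lit 0x9eb4013d68024288054ca)) (.leaf (nat_lit 0x27ad004f5a007394010f0802103804551))) 
(.leaf (nat_lit 0x13d68027ad0033f0))))) (.node (.node (.node (.node 
(.leaf (nat_lit 0x13d68027ad00577d)) (.leaf (nat_lit 0x13d68027ad003b87))) (.node 
(.leaf (nat_lit 0x9eb4013d6801f0380404f)) (.leaf (nat_lit 0x27ad004f5a0080bc013448026b6004a92)))) 
(.node (.node (.leaf (nat_lit 0x13d68027ad003fd1)) 
(.leaf (nat_lit 0x27ad004f5a007c3e012284023960049a7))) (.leaf (nat_lit 0x13d680168200313d)))) 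
(.node (.node (.node (.leaf (nat_lit 0x13d68027ad004044)) 
(.leaf (nat_lit 0x9eb4013d6801ff18040cf))) 
(.leaf (nat_lit 0x365b0072f600d45001fda003eb600821601008401faf804000))) (.node (.node 
(.leaf (nat_lit 0x9eb4013d6801f9f004486)) (.leaf (nat_lit 0x27ad004f5a006f3200e1b802097004484))) 
(.leaf (nat_lit 0x13d68027ad0037d4))))))
noncomputable def gt55 : Ix (Nat) := (.node (.node (.node (.node (.node 
(.leaf (nat_lit 0x461200864400fc940270c004c630092ec010b2c021660043b2008aa201121802224803f22)) 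
(.leaf (nat_lit 0x9eb4013d6801fa10044af))) (.node (.leaf (nat_lit 0x13d68027ad003f38)) 
(.leaf (nat_lit 0x13d6801f8c003dc5)))) (.node (.node (.leaf (nat_lit 0x9eb4013d6801e9b8044c0)) 
(.leaf (nat_lit 0x9eb4013d6801e68004243))) (.leaf (nat_lit 0x9eb4013d6801f958044c9)))) (.node 
(.node (.node (.leaf (nat_lit 0x9eb4013d6801ec7803d51)) (.leaf (nat_lit 0x9eb4013d6801ff8804510))) 
(.node (.leaf (nat_lit 0x13d68027ad003cb600789800f300023ab803f05)) 
(.leaf (nat_lit 0x13d68027ad0040e0)))) (.node (.node (.leaf (nat_lit 0x9eb4013d6801d7f004391)) 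
(.leaf (nat_lit 0x218e003994007e4a012094023af0046f2))) (.leaf (nat_lit 0x9eb4013d6801f2f8044a8))))) 
(.node (.node (.node (.node (.leaf (nat_lit 0x476a00833000f4b002654004c8b0047b40097500209a803e6c)) 
(.leaf (nat_lit 0x13d68027ad0040de009f5e013c400281b004689))) (.node 
(.leaf (nat_lit 0x9eb4013d6801f560044f0)) (.leaf (nat_lit 0x13d68027ad004087)))) (.node (.node 
(.leaf (nat_lit 0x13d6801da000393d005e640085fc008f6803ead)) 
(.leaf (nat_lit 0x9eb4013d6801e89804487))) (.leaf (nat_lit 0x9eb4013d6802006804577)))) (.node 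
(.node (.node (.leaf (nat_lit 0x13d6802101003ce1)) (.leaf (nat_lit 0x9eb4013d68020018044f0))) 
(.node (.leaf (nat_lit 0x9eb4013d6801fd1004502)) (.leaf (nat_lit 0x9eb4013d6801f6b80447f)))) (.node 
(.node (.leaf (nat_lit 0x9eb4013d6801f5d0045e2)) (.leaf (nat_lit 0x13d68027ad003d1c))) 
(.leaf (nat_lit 0x13d68027ad004525))))))
noncomputable def gt56 : Ix (Nat) := (.node (.node (.node (.node (.node (.node 
(.leaf (nat_lit 0x7cfe00f410021870044750093c00114c8022e680455e)) 
(.leaf (nat_lit 0x9eb4013d6801c8f804b1c))) (.node (.leaf (nat_lit 0x4f5a009eb400f454021a2804248)) 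
(.leaf (nat_lit 0x13d68027ad003e77)))) (.node (.node 
(.leaf (nat_lit 0x21520050f40074ec012214029e5004959)) (.leaf (nat_lit 0x9eb4013d6801cf7005414))) 
(.leaf (nat_lit 0x9eb4013d6801a99804121)))) (.node (.node (.node 
(.leaf (nat_lit 0x13d68027ad0039ea)) (.leaf (nat_lit 0x9eb4013d6801d70005297))) 
(.leaf (nat_lit 0x9eb4013d6801c6b004616))) (.node (.node (.leaf (nat_lit 0x13d68027ad004c94)) 
(.leaf (nat_lit 0x1eb28043790070360121cc0211900488f))) 
(.leaf (nat_lit 0x4f5a009eb400df98011b2004161))))) (.node (.node (.node (.node 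
(.leaf (nat_lit 0x13d68027ad00399c)) (.leaf (nat_lit 0x9eb4013d6801c94005537))) 
(.leaf (nat_lit 0x1002c01ed78036cd0086b4011108021da003dd000adca00fac002bd78055c8))) (.node (.node 
(.leaf (nat_lit 0x13d68027ad003728)) (.leaf (nat_lit 0x9eb4013d6801b7e804fd7))) 
(.leaf (nat_lit 0x13d68027ad004666)))) (.node (.node (.node (.leaf (nat_lit 0x13d68027ad00494b)) 
(.leaf (nat_lit 0x9eb4013d6801d800058b5))) (.leaf (nat_lit 0x9eb4013d6801caf804c1e))) (.node (.node 
(.leaf (nat_lit 0x13d68027ad004c69)) (.leaf (nat_lit 0x13d680228c0038ac))) 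
(.leaf (nat_lit 0x9eb4013d6801cbc005056)))))) (.node (.node (.node (.node (.node 
(.leaf (nat_lit 0x13d68027ad00485d)) (.leaf (nat_lit 0x9eb4013d6801ca180491e))) (.node 
(.leaf (nat_lit 0x9eb4013d6801f438036c6)) (.leaf (nat_lit 0x9eb4013d6801c0d004985)))) (.node (.node 
(.leaf (nat_lit 0x13d68027ad004a22)) (.leaf (nat_lit 0x9eb4013d6801d948049ba))) 
(.leaf (nat_lit 0x9eb4013d6801c92805346)))) (.node (.node (.node 
(.leaf (nat_lit 0x13d68027ad003b4d)) (.leaf (nat_lit 0x13d68027ad004838))) 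
(.leaf (nat_lit 0x13d68026a100378e))) (.node (.node 
(.leaf (nat_lit 0x22a78046de0080d401257c0243b804ad5009060012f3c024a00044a3)) 
(.leaf (nat_lit 0x13d68027ad003d9d))) (.leaf (nat_lit 0x9eb4013d6801d8f004c9d))))) (.node (.node 
(.node (.node (.leaf (nat_lit 0x13d68027ad004122)) (.leaf (nat_lit 0x9eb4013d6801e2a805067))) 
(.leaf (nat_lit 0x4114007bb600df700218c80444d0077d200fd5401db7003812))) (.node (.node 
(.leaf (nat_lit 0x13d68027ad004dfa)) (.leaf (nat_lit 0x9eb4013d6801b80805132))) 
(.leaf (nat_lit 0x9eb4013d6801c13004bbe)))) (.node (.node (.node 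
(.leaf (nat_lit 0x13d68027ad003b2e)) (.leaf (nat_lit 0x4f5a009eb400ee6002a848049cf))) 
(.leaf (nat_lit 0x13d6801ac7803358007a78002c4c01d95003cc8))) (.node (.node 
(.leaf (nat_lit 0x9eb4013d6802076805215)) (.leaf (nat_lit 0x13d68027ad003e20))) 
(.leaf (nat_lit 0x9eb4013d6801c9b004a9c)))))))
noncomputable def gt57 : Ix (Nat) := (.node (.node (.node (.node (.node 
(.leaf (nat_lit 0x4110007aa200eb18023d380474e00965a011f200243d0047e2)) 
(.leaf (nat_lit 0x13d68027ad003255))) (.node (.leaf (nat_lit 0x13d68027ad0040c8)) 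
(.leaf (nat_lit 0x9eb4013d68020c9004a3b)))) (.node (.node (.leaf (nat_lit 0x13d68027ad003ed2)) 
(.leaf (nat_lit 0x89b401088401f00804e3200971a0122e0025550049b2009434012a64024d480477e008e88011a24023a1004496))) 
(.leaf (nat_lit 0x13d6801baa0035cf)))) (.node (.node (.node (.leaf (nat_lit 0x13d68027ad003a32)) 
(.leaf (nat_lit 0x13d68027ad003694))) (.node (.leaf (nat_lit 0x13d68027ad003b1e)) 
(.leaf (nat_lit 0x9eb4013d6801f08004547)))) (.node (.node (.leaf (nat_lit 0x13d68027ad004f25)) 
(.leaf (nat_lit 0x9eb4013d6801cc60024ba0082c201001800da280425b))) 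
(.leaf (nat_lit 0x13d68027ad003282))))) (.node (.node (.node (.node 
(.leaf (nat_lit 0x13d68027ad005445)) (.leaf (nat_lit 0x13d68027ad003a5d))) (.node 
(.leaf (nat_lit 0x13d68027ad003e32)) (.leaf (nat_lit 0x9eb4013d6801fbb8047bc)))) (.node (.node 
(.leaf (nat_lit 0x13d68027ad003e33)) 
(.leaf (nat_lit 0x9eb4013d6801dff80489f008ea40115a4023500045b5))) 
(.leaf (nat_lit 0x13d68019a38031f3)))) (.node (.node (.node (.leaf (nat_lit 0x13d68027ad003c2c)) 
(.leaf (nat_lit 0x13d68027ad003f2b))) 
(.leaf (nat_lit 0x73e600df0c01a3c803ce3006f040106c402088803d9d))) (.node (.node 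
(.leaf (nat_lit 0x13d68027ad003f34)) (.leaf (nat_lit 0x13d68027ad0036f3006d8c00fd6401dfa004087))) 
(.leaf (nat_lit 0x13d68027ad00363d))))))
noncomputable def gt58 : Ix (Nat) := (.node (.node (.node (.node (.node (.node 
(.leaf (nat_lit 0x842e0101c001f2a0048d90096fc01254c024cf004a4c)) 
(.leaf (nat_lit 0x9eb4013d6801d1c0048d5))) (.node 
(.leaf (nat_lit 0x23798044cb007eb2012da802542004d490099e6012a140252d00451f)) 
(.leaf (nat_lit 0x9eb4013d6801c410059ea)))) (.node (.node 
(.leaf (nat_lit 0x217680422d0077c601252c02509004a70)) 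
(.leaf (nat_lit 0x1003c01cc60038dc00829201006402082803e79007b540100c801ec180306000785c00f10801dc3803b34))) 
(.leaf (nat_lit 0x9eb400cf080185800294e00709a00980c01afe803627)))) (.node (.node (.node 
(.leaf (nat_lit 0x13d68027ad003b29)) (.leaf (nat_lit 0x9eb4013d6801c92805282))) (.node 
(.leaf (nat_lit 0x9eb4013d6801e27804526)) (.leaf (nat_lit 0x13d68027ad00453d)))) (.node (.node 
(.leaf (nat_lit 0x13d68027ad00424b)) 
(.leaf (nat_lit 0x9eb4013d6801bae0042da00769800fe3c01eb080418e))) 
(.leaf (nat_lit 0x9eb4013d6801d01004ccb))))) (.node (.node (.node (.node 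
(.leaf (nat_lit 0x13d68027ad003b05)) (.leaf (nat_lit 0x9eb4013d6801b22804e0d))) (.node 
(.leaf (nat_lit 0x9eb4013d6801f098044df)) (.leaf (nat_lit 0x13d68027ad00412a)))) (.node (.node 
(.leaf (nat_lit 0x13d68027ad003b86)) (.leaf (nat_lit 0x27ad0035e300679001033001eff003d56))) 
(.leaf (nat_lit 0x13d68021e70039b6)))) (.node (.node (.node (.leaf (nat_lit 0x13d68027ad0049cf)) 
(.leaf (nat_lit 0x9eb4013d68019d78042a8))) (.node 
(.leaf (nat_lit 0x1f7d8039e1006ab80108080215f003dc20076f400eb2801de4803c3e)) 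
(.leaf (nat_lit 0x9eb4013d6801cb780525c)))) (.node (.node (.leaf (nat_lit 0x13d68027ad0048ba)) 
(.leaf (nat_lit 0x9eb4013d6801cb0805399))) (.leaf (nat_lit 0x9eb4013d6801d0f004f63)))))) (.node 
(.node (.node (.node (.node (.leaf (nat_lit 0x13d68027ad00449e)) 
(.leaf (nat_lit 0x9eb4013d6801c9080526e))) (.node (.leaf (nat_lit 0x4f5a009eb400f234022f280451f)) 
(.leaf (nat_lit 0x1f2c804779006ea80146ec0214b803f5b)))) (.node (.node 
(.leaf (nat_lit 0x13d68027ad004a9c)) 
(.leaf (nat_lit 0x9eb4013d6801a2400318c0055b800e7b801c14003c63))) 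
(.leaf (nat_lit 0x9eb4013d6801b568041b6)))) (.node (.node (.node 
(.leaf (nat_lit 0x13d68027ad003976)) (.leaf (nat_lit 0x9eb4013d6801c93005e27))) (.node 
(.leaf (nat_lit 0x1078c01eb200356f008b120114f0022ec00506c008ee60148e001f7200617f0083fa015f3c022ff8040ee)) 
(.leaf (nat_lit 0x13d68027ad0040a6)))) (.node (.node (.leaf (nat_lit 0x13d68027ad003bc9)) 
(.leaf (nat_lit 0x9eb4013d6801c7d8057d5))) (.leaf (nat_lit 0x27ad004f5a0065c20130a4012f080433e))))) 
(.node (.node (.node (.node (.leaf (nat_lit 0x13d68027ad0044de)) 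
(.leaf (nat_lit 0x9eb4013d6801c75004929))) (.node (.leaf (nat_lit 0x13d68027ad004e04)) 
(.leaf (nat_lit 0x13d6801f49803811)))) (.node (.node (.leaf (nat_lit 0x13d68027ad0049bb)) 
(.leaf (nat_lit 0x9eb4013d6801c1f005445))) (.leaf (nat_lit 0x9eb4013d680196e0048a1)))) (.node 
(.node (.node (.leaf (nat_lit 0x13d68027ad003ba6)) (.leaf (nat_lit 0x9eb4013d6801d30805955))) 
(.leaf (nat_lit 0x9eb4013d6801c0f0046b6))) (.node (.node (.leaf (nat_lit 0x13d68027ad003f8c)) 
(.leaf (nat_lit 0x9eb4013d6801ace8051c0))) (.leaf (nat_lit 0x13d68027ad0044f4)))))))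
noncomputable def gt59 : Ix (Nat) := (.node (.node (.node (.node (.node 
(.leaf (nat_lit 0x10aac02046803b7a0098f0012c58024378048d30098e6012d70025f6004bd0)) 
(.leaf (nat_lit 0x13d68027ad003e51))) (.node (.leaf (nat_lit 0x13d68027ad003654)) 
(.leaf (nat_lit 0x27ad0038e2006d0c0103f801aa4003f02)))) (.node (.node 
(.leaf (nat_lit 0x13d68027ad004c97)) (.leaf (nat_lit 0x4f5a009eb400fc64022850044c9))) 
(.leaf (nat_lit 0x13d68027ad0030e5)))) (.node (.node (.node (.leaf (nat_lit 0x13d68027ad004110)) 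
(.leaf (nat_lit 0x9eb4013d6801e748048a80092c60127a00249c80489c))) (.node 
(.leaf (nat_lit 0x13d68019210036ff)) 
(.leaf (nat_lit 0x27ad004f5a00736a00ee7801fd4003bd90089f401146c022e0004123)))) (.node (.node 
(.leaf (nat_lit 0x13d68027ad0040be)) 
(.leaf (nat_lit 0x9eb4013d6801ed28022c90044f000d3b00207a8043fa))) 
(.leaf (nat_lit 0x13d68027ad0031f7))))) (.node (.node (.node (.node 
(.leaf (nat_lit 0x13d68027ad0047a1)) 
(.leaf (nat_lit 0x1161401c16803bf7009cc20131900260d804c170098480129e802547004a6e009132011ee80241e0032b20094360128c4025ca803a67008f2c0121180239800445b))) 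
(.node (.leaf (nat_lit 0x3aba00771400dc2c019c800403e00889e01130801ff38036e8)) 
(.leaf (nat_lit 0x9eb4013d6801d098044510089ce0114e80233f80416a)))) (.node (.node 
(.leaf (nat_lit 0x13d68027ad00421f)) (.leaf (nat_lit 0x4f5a009eb400f05c018530040ff))) 
(.leaf (nat_lit 0x13d68027ad0034c3)))) (.node (.node (.node (.leaf (nat_lit 0x13d68027ad003e7c)) 
(.leaf (nat_lit 0x4f5a009eb400f158026f6804a5e))) (.node (.leaf (nat_lit 0x13d6801a1a803052)) 
(.leaf (nat_lit 0x9eb4013d6801c91801d2b008e4600c9ec024c3804188)))) (.node (.node 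
(.leaf (nat_lit 0x13d68027ad003e6b)) 
(.leaf (nat_lit 0xfe0001e1e803923007da20109200223c00390f007ca400e77802128003c1a0059a600ea28012438043e500879800c17c02262003c96))) 
(.leaf (nat_lit 0x13d68027ad003e9d))))))
noncomputable def gt60 : Ix (Nat) := (.node (.node (.node (.node (.node (.node 
(.leaf (nat_lit 0xf12801da90031b00088fa0118a80225680410c008166014e78026ee00564000813a0149b801f0400502d)) 
(.leaf (nat_lit 0x13d68027ad002ced))) (.leaf (nat_lit 0x13d68027ad004525))) (.node 
(.leaf (nat_lit 0x9eb4013d6801b9880514d)) (.leaf (nat_lit 0x13d68027ad003d6d)))) (.node (.node 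
(.leaf (nat_lit 0x9eb4013d6801b6b8067ea)) (.leaf (nat_lit 0x13d68027ad004207))) (.node 
(.leaf (nat_lit 0x9eb4013d68017a1804238006d9200eb5801b36003a58)) 
(.leaf (nat_lit 0x9eb400c0480197c805286))))) (.node (.node (.node (.node 
(.leaf (nat_lit 0x27ad004f5a005f4e00f40c01d790043ef)) (.leaf (nat_lit 0x13d68027ad0034eb))) 
(.leaf (nat_lit 0x13d68027ad0042f3))) (.node (.leaf (nat_lit 0x27ad002fdd005df0011c1401995003ec1)) 
(.leaf (nat_lit 0x13d68027ad003b4e)))) (.node (.node (.leaf (nat_lit 0x9eb4013d6801b0b004965)) 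
(.leaf (nat_lit 0x13d68027ad00400f))) (.node (.leaf (nat_lit 0x9eb4013d6801889004795)) 
(.leaf (nat_lit 0x13d68027ad003c54)))))) (.node (.node (.node (.node (.node 
(.leaf (nat_lit 0x27ad004f5a0067b6017d6802f828063c5)) (.leaf (nat_lit 0x13d68027ad003acd))) 
(.leaf (nat_lit 0x13d68027ad00497f))) (.node 
(.leaf (nat_lit 0xd7a0018ec002dc60072820101b001d45003606006b8600832001775804182005ab200e994011f6801ab6)) 
(.leaf (nat_lit 0x13d68027ad004374)))) (.node (.node (.leaf (nat_lit 0x9eb4013d6801bb180479c)) 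
(.leaf (nat_lit 0x13d68027ad003b09))) (.node 
(.leaf (nat_lit 0x9eb4013d680145e8023f400412400cab000ffa0032cc)) 
(.leaf (nat_lit 0x9eb400a490015e8803f0c))))) (.node (.node (.node (.node 
(.leaf (nat_lit 0x27ad004f5a005b5c00f04401e108043f8)) (.leaf (nat_lit 0x13d68027ad003d02))) 
(.leaf (nat_lit 0x13d68027ad003899))) (.node (.leaf (nat_lit 0x9eb4013d680194f8045cd)) 
(.leaf (nat_lit 0x64e600bf6c01733003f9800a37a01040002221004036)))) (.node (.node 
(.leaf (nat_lit 0x9eb4013d680198580445b)) (.leaf (nat_lit 0x13d68027ad00417e))) (.node 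
(.leaf (nat_lit 0x3a54006c9e00f7940216980623d0095a2015b3c0219f804d23)) 
(.leaf (nat_lit 0x13d68027ad0035c2)))))))
noncomputable def gt61 : Ix (Nat) := (.node (.node (.node (.node (.node 
(.leaf (nat_lit 0x403b0078a600eb4c02017003e2e0084dc00fe6c022f100448c008a94011db401f1c003d66008d4600fbc002017003e2e0084dc00fe6c022460045e2008a94011db401eb3003e38008d4600fbc00207c8045b00080820113840207c8045b000808201138401f5a804177008dda0105dc02376803f4800819a01033401fc80041df007e5201084801f4780595100790e00f31c02090803da9009d4e00fa3c02ca8803f2900842400f21c01e63804121007b52013a9c01ed9803db30079de00f01c01e0380393d)) 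
(.leaf (nat_lit 0x27ad004f5a007e8c00d56801d5a803aed0070b400fd6c01f8d8034dc))) 
(.leaf (nat_lit 0x9eb4013d680265e8043680079e80191e002ced80565c00a8b2013f7c0270680585d))) (.node 
(.node (.leaf (nat_lit 0x9eb4013d680210900473c00a0c601551402a2f8053e8)) 
(.leaf (nat_lit 0x4f5a009eb400af30021ca00476100732400ebe400bda801f6c))) 
(.leaf (nat_lit 0x4f5a009eb400ff900220780589e00c47a01612c02e33804042)))) (.node (.node (.node 
(.leaf (nat_lit 0x9eb4013d680210900473c00a0c601551402a2f8053e8)) 
(.leaf (nat_lit 0x9eb4013d6801d34802c9e0063c60100d80231c00428f0095e4011cbc01c8f00447f))) 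
(.leaf (nat_lit 0x4f5a009eb400e44802445804cf3008112011a6001733803501))) (.node (.node 
(.leaf (nat_lit 0x27ad004f5a008a3400e0e8030448052db00c65801557002d390042ba)) 
(.leaf (nat_lit 0x4f5a009eb400c23c01949803df1003fb600e640020e4002fab))) 
(.leaf (nat_lit 0x3a93007326013e2401e040037d1007bd800eb6c01ea60038b3007a2200ea1001de3803ccd007cec00ef4802030003d7a00858400eee4020170039f5006fbe00f2b8020940039690091fa00f1d802742003a5b0079040175a401e3e0040f8007e1e01068801fcc0041d300726600e9dc01e6d803fdf0080620100d00202c003d66007ba201580001ef8804491007a30014c5c0244a003e15007cd200f57c01f1e803e46007cd400f53c01ed9803da90078400104bc01e9700514b0077f0015dd402fde0041a7007f5200f8cc01d8f0051770076040162c001df400425f007d4a00faa002057003d9400a74800e91401db4003b2200701000d7b801ad0004097006bc600e0d401a43803419))))) 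
(.node (.node (.node (.node (.leaf (nat_lit 0x4f5a009eb4013624021c70040b5009b80011f8c0267d805075)) 
(.leaf (nat_lit 0x9eb4013d680265e8043680079e80191e002ced80565c00a8b2013f7c0270680585d))) 
(.leaf (nat_lit 0x9eb4013d6801d34802c9e0063c60100d80231c00428f0095e4011cbc01c8f00447f))) (.node 
(.node 
(.leaf (nat_lit 0x3a93007326013e2401e040037d1007bd800eb6c01ea60038b3007a2200ea1001de3803ccd007cec00ef4802030003d7a00858400eee4020170039f5006fbe00f2b8020940039690091fa00f1d802742003a5b0079040175a401e3e0040f8007e1e01068801fcc0041d300726600e9dc01e6d803fdf0080620100d00202c003d66007ba201580001ef8804491007a30014c5c0244a003e15007cd200f57c01f1e803e46007cd400f53c01ed9803da90078400104bc01e9700514b0077f0015dd402fde0041a7007f5200f8cc01d8f0051770076040162c001df400425f007d4a00faa002057003d9400a74800e91401db4003b2200701000d7b801ad0004097006bc600e0d401a43803419)) 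
(.leaf (nat_lit 0x4f5a009eb400ff900220780589e00c47a01612c02e33804042))) 
(.leaf (nat_lit 0x4f5a009eb400c23c01949803df1003fb600e640020e4002fab)))) (.node (.node (.node 
(.leaf (nat_lit 0x4f5a009eb4013624021c70040b5009b80011f8c0267d805075)) 
(.leaf (nat_lit 0x4f5a009eb400e44802445804cf3008112011a6001733803501))) 
(.leaf (nat_lit 0x4f5a009eb400af30021ca00476100732400ebe400bda801f6c))) (.node 
(.leaf (nat_lit 0x27ad004f5a007e8c00d56801d5a803aed0070b400fd6c01f8d8034dc)) 
(.leaf (nat_lit 0x27ad004f5a008a3400e0e8030448052db00c65801557002d390042ba))))))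
noncomputable def gt62 : Ix (Nat) := (.node (.node (.node (.node (.node 
(.leaf (nat_lit 0xe8dc01f35802ed400885601225c02684004f9b008bf80155f4022cd80553e00a208015e7002889804a04)) 
(.leaf (nat_lit 0x13d68027ad003912))) (.leaf (nat_lit 0x13d68027ad003912))) (.node 
(.leaf (nat_lit 0x9eb4013d68018e8804fc9)) (.leaf (nat_lit 0x9eb4013d68019a1005249)))) (.node (.node 
(.node (.leaf (nat_lit 0x9eb4013d6801a41004a9d)) 
(.leaf (nat_lit 0x27ad004f5a005922010b3401e90804480))) 
(.leaf (nat_lit 0xe8dc01f35802ed400885601225c02684004f9b008bf80155f4022cd80553e00a208015e7002889804a04))) 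
(.node (.leaf (nat_lit 0x27ad004f5a005922010b3401e90804480)) 
(.leaf (nat_lit 0x9eb4013d68018e8804fc9))))) (.node (.node (.node (.node 
(.leaf (nat_lit 0x9eb4013d6801a908065f5)) (.leaf (nat_lit 0x9eb4013d68017d7002e29))) 
(.leaf (nat_lit 0x9eb4013d68017d7002e29))) (.node (.leaf (nat_lit 0x9eb4013d68018dd0052b1)) 
(.leaf (nat_lit 0x9eb4013d6801a41004a9d)))) (.node (.node (.node 
(.leaf (nat_lit 0x9eb4013d68019a1005249)) (.leaf (nat_lit 0x9eb4013d68016420047e4))) 
(.leaf (nat_lit 0x9eb4013d6801a908065f5))) (.node (.leaf (nat_lit 0x9eb4013d68016420047e4)) 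
(.leaf (nat_lit 0x9eb4013d68018dd0052b1))))))
noncomputable def gt63 : Ix (Nat) := (.node (.node (.node (.node (.node (.node 
(.leaf (nat_lit 0x3d6500720400cedc0246c00411e007d8e01006c01fc8803f47008082017d200233e80453500792e01416801fcd004df2009cf2015c8402423003aac)) 
(.leaf (nat_lit 0x13d68027ad004950))) (.leaf (nat_lit 0x27ad004f5a00650c00fbe4020ca803724))) (.node 
(.leaf (nat_lit 0x27ad004f5a00678600f85401eeb003c03)) (.leaf (nat_lit 0x13d68027ad004d20)))) (.node 
(.node (.leaf (nat_lit 0x4f5a009eb400e3b403973805937)) (.leaf (nat_lit 0x13d68027ad004598))) (.node 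
(.leaf (nat_lit 0x27ad004f5a00528c00d604018b10020a2)) (.leaf (nat_lit 0x13d6801c4c002d81))))) 
(.node (.node (.node (.leaf (nat_lit 0x27ad004f5a006cc200faa401ff7003e690094aa012814024e1803d09)) 
(.leaf (nat_lit 0x13d68027ad005f7d))) (.node (.leaf (nat_lit 0x27ad00326c00607a0145e002879803901)) 
(.leaf (nat_lit 0x332600665e00ba30021ff80372a00804000e4e001a7d003752)))) (.node (.node 
(.leaf (nat_lit 0x4f5a009eb400e19402bb80041e2)) (.leaf (nat_lit 0x13d68027ad00466a))) (.node 
(.leaf (nat_lit 0x9eb4013d68015c1803277004f8400b2c0015058030ec)) 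
(.leaf (nat_lit 0x13d68027ad004039)))))) (.node (.node (.node (.node (.node 
(.leaf (nat_lit 0x27ad004f5a00713000ebcc01cf58045af00933e015a0002d74003eb6)) 
(.leaf (nat_lit 0x13d68027ad00472d))) 
(.leaf (nat_lit 0xf32001be7004aff00aafe01085002dc480592100b7ec011218023fa80418a))) (.node 
(.leaf (nat_lit 0xd3d80197d802f890070a000db9c01b91003777006e3600d4c001856801f190054e400c95801b130037a9004558009b5801c180029b7)) 
(.leaf (nat_lit 0x13d68027ad00423b)))) (.node (.node 
(.leaf (nat_lit 0x4f5a009eb400e15402c6900403a)) (.leaf (nat_lit 0x13d68027ad0055ac))) (.node 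
(.leaf (nat_lit 0x9eb4013d68019468038b4002b2600bf38019690033bb)) 
(.leaf (nat_lit 0x13d68027ad003469))))) (.node (.node (.node 
(.leaf (nat_lit 0x13d68027ad0032f700575e00f66401f7e003d16)) (.leaf (nat_lit 0x13d68027ad004488))) 
(.node (.leaf (nat_lit 0x27ad002afe0055c800c7b800ed70023c8)) (.leaf (nat_lit 0x13d68022d28039ca)))) 
(.node (.node (.leaf (nat_lit 0x4f5a009eb400cd1c02411804798)) (.leaf (nat_lit 0x13d68027ad0045e3))) 
(.node (.leaf (nat_lit 0x9eb4013d68019038019a100724000ef1001b5d003187)) 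
(.leaf (nat_lit 0x13d68027ad00337f)))))))
noncomputable def gt64 : Ix (Nat) := (.node (.node (.node (.node (.node (.node 
(.leaf (nat_lit 0xe56801fff002f56007a1600fc9801e7f803d9200b3cc00ec54029d90054ae)) 
(.leaf (nat_lit 0x13d68027ad003e5e))) (.leaf (nat_lit 0x9eb4013d6801985003d0e))) (.node 
(.leaf (nat_lit 0x9eb4013d680198b803d51)) (.leaf (nat_lit 0x13d68027ad0042ac)))) (.node (.node 
(.leaf (nat_lit 0x9eb4013d6801a6e0059f3)) (.leaf (nat_lit 0x13d68027ad003992))) (.node 
(.leaf (nat_lit 0x27ad004f5a005004000000005700018a3)) (.leaf (nat_lit 0x9eb400a38401493003985))))) 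
(.node (.node (.node (.leaf (nat_lit 0x4f5a009eb400d0b4020b4804191)) 
(.leaf (nat_lit 0x13d68027ad004efc))) (.node (.leaf (nat_lit 0x27ad002c9e005bf400f0e4016b18033ed)) 
(.leaf (nat_lit 0x5d7000d0f4016fc80345f00891c00f7e80235680320b)))) (.node (.node 
(.leaf (nat_lit 0x9eb4013d6801a6d803fd2)) (.leaf (nat_lit 0x13d68027ad0039ea))) (.node 
(.leaf (nat_lit 0x9eb4013d6801467802d01)) (.leaf (nat_lit 0x13d68027ad00370a)))))) (.node (.node 
(.node (.node (.node (.leaf (nat_lit 0x4f5a009eb400d35002bb50059ab)) 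
(.leaf (nat_lit 0x13d68027ad003fbe))) 
(.leaf (nat_lit 0x36f6006b0000ebe001e88805a19007b26016bd801eba003d06))) (.node 
(.leaf (nat_lit 0xc46c01722002e2500668800f90401ad00030f50069f200c4b401c38802c80)) 
(.leaf (nat_lit 0x13d68027ad0038dc)))) (.node (.node (.leaf (nat_lit 0x9eb4013d6801a438048e3)) 
(.leaf (nat_lit 0x13d68027ad003e1d))) (.node (.leaf (nat_lit 0x9eb4013d6801741803d18)) 
(.leaf (nat_lit 0x13d68027ad003cab))))) (.node (.node (.node 
(.leaf (nat_lit 0x9eb4013d68018da804697)) (.leaf (nat_lit 0x13d68027ad003c6b))) (.node 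
(.leaf (nat_lit 0x27ad00291d00511600602800e628022ae)) (.leaf (nat_lit 0x9eb400c4a801bb6804c66)))) 
(.node (.node (.leaf (nat_lit 0x9eb4013d68017f2804845)) (.leaf (nat_lit 0x13d68027ad0038c0))) 
(.node (.leaf (nat_lit 0x4f5a009eb400c71c01ed1803b6d)) (.leaf (nat_lit 0x13d68027ad002dd1)))))))
noncomputable def gt65 : Ix (Nat) := (.node (.node (.node (.node (.node (.node 
(.leaf (nat_lit 0x3d6500720400cedc0246c00411e007d8e01006c01fc8803f47008082017d200233e80453500792e01416801fcd004df2009cf2015c8402423003aac)) 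
(.leaf (nat_lit 0x13d68027ad004950))) (.leaf (nat_lit 0x27ad004f5a00650c00fbe4020ca803724))) (.node 
(.leaf (nat_lit 0x27ad004f5a00678600f85401eeb003c03)) (.leaf (nat_lit 0x13d68027ad004d20)))) (.node 
(.node (.leaf (nat_lit 0x4f5a009eb400e3b403973805937)) (.leaf (nat_lit 0x13d68027ad004598))) (.node 
(.leaf (nat_lit 0x27ad004f5a00528c00d604018b10020a2)) (.leaf (nat_lit 0x13d6801c4c002d81))))) 
(.node (.node (.node (.leaf (nat_lit 0x27ad004f5a006cc200faa401ff7003e690094aa012814024e1803d09)) 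
(.leaf (nat_lit 0x13d68027ad005f7d))) (.node (.leaf (nat_lit 0x27ad00326c00607a0145e002879803901)) 
(.leaf (nat_lit 0x332600665e00ba30021ff80372a00804000e4e001a7d003752)))) (.node (.node 
(.leaf (nat_lit 0x4f5a009eb400e19402bb80041e2)) (.leaf (nat_lit 0x13d68027ad00466a))) (.node 
(.leaf (nat_lit 0x9eb4013d68015c1803277004f8400b2c0015058030ec)) 
(.leaf (nat_lit 0x13d68027ad004039)))))) (.node (.node (.node (.node (.node 
(.leaf (nat_lit 0x27ad004f5a00713000ebcc01cf58045af00933e015a0002d74003eb6)) 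
(.leaf (nat_lit 0x13d68027ad00472d))) 
(.leaf (nat_lit 0xf32001be7004aff00aafe01085002dc480592100b7ec011218023fa80418a))) (.node 
(.leaf (nat_lit 0xd3d80197d802f890070a000db9c01b91003777006e3600d4c001856801f190054e400c95801b130037a9004558009b5801c180029b7)) 
(.leaf (nat_lit 0x13d68027ad00423b)))) (.node (.node 
(.leaf (nat_lit 0x4f5a009eb400e15402c6900403a)) (.leaf (nat_lit 0x13d68027ad0055ac))) (.node 
(.leaf (nat_lit 0x9eb4013d68019468038b4002b2600bf38019690033bb)) 
(.leaf (nat_lit 0x13d68027ad003469))))) (.node (.node (.node 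
(.leaf (nat_lit 0x13d68027ad0032f700575e00f66401f7e003d16)) (.leaf (nat_lit 0x13d68027ad004488))) 
(.node (.leaf (nat_lit 0x27ad002afe0055c800c7b800ed70023c8)) (.leaf (nat_lit 0x13d68022d28039ca)))) 
(.node (.node (.leaf (nat_lit 0x4f5a009eb400cd1c02411804798)) (.leaf (nat_lit 0x13d68027ad0045e3))) 
(.node (.leaf (nat_lit 0x9eb4013d68019038019a100724000ef1001b5d003187)) 
(.leaf (nat_lit 0x13d68027ad00337f)))))))
noncomputable def gt66 : Ix (Nat) := (.node (.node (.node (.node (.node (.node 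
(.leaf (nat_lit 0xe56801fff002f56007a1600fc9801e7f803d9200b3cc00ec54029d90054ae)) 
(.leaf (nat_lit 0x13d68027ad003e5e))) (.leaf (nat_lit 0x9eb4013d6801985003d0e))) (.node 
(.leaf (nat_lit 0x9eb4013d680198b803d51)) (.leaf (nat_lit 0x13d68027ad0042ac)))) (.node (.node 
(.leaf (nat_lit 0x9eb4013d6801a6e0059f3)) (.leaf (nat_lit 0x13d68027ad003992))) (.node 
(.leaf (nat_lit 0x27ad004f5a005004000000005700018a3)) (.leaf (nat_lit 0x9eb400a38401493003985))))) 
(.node (.node (.node (.leaf (nat_lit 0x4f5a009eb400d0b4020b4804191)) 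
(.leaf (nat_lit 0x13d68027ad004efc))) (.node (.leaf (nat_lit 0x27ad002c9e005bf400f0e4016b18033ed)) 
(.leaf (nat_lit 0x5d7000d0f4016fc80345f00891c00f7e80235680320b)))) (.node (.node 
(.leaf (nat_lit 0x9eb4013d6801a6d803fd2)) (.leaf (nat_lit 0x13d68027ad0039ea))) (.node 
(.leaf (nat_lit 0x9eb4013d6801467802d01)) (.leaf (nat_lit 0x13d68027ad00370a)))))) (.node (.node 
(.node (.node (.node (.leaf (nat_lit 0x4f5a009eb400d35002bb50059ab)) 
(.leaf (nat_lit 0x13d68027ad003fbe))) 
(.leaf (nat_lit 0x36f6006b0000ebe001e88805a19007b26016bd801eba003d06))) (.node 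
(.leaf (nat_lit 0xc46c01722002e2500668800f90401ad00030f50069f200c4b401c38802c80)) 
(.leaf (nat_lit 0x13d68027ad0038dc)))) (.node (.node (.leaf (nat_lit 0x9eb4013d6801a438048e3)) 
(.leaf (nat_lit 0x13d68027ad003e1d))) (.node (.leaf (nat_lit 0x9eb4013d6801741803d18)) 
(.leaf (nat_lit 0x13d68027ad003cab))))) (.node (.node (.node 
(.leaf (nat_lit 0x9eb4013d68018da804697)) (.leaf (nat_lit 0x13d68027ad003c6b))) (.node 
(.leaf (nat_lit 0x27ad00291d00511600602800e628022ae)) (.leaf (nat_lit 0x9eb400c4a801bb6804c66)))) 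
(.node (.node (.leaf (nat_lit 0x9eb4013d68017f2804845)) (.leaf (nat_lit 0x13d68027ad0038c0))) 
(.node (.leaf (nat_lit 0x4f5a009eb400c71c01ed1803b6d)) (.leaf (nat_lit 0x13d68027ad002dd1)))))))
noncomputable def gt67 : Ix (Nat) := (.node (.node (.node (.node (.node 
(.leaf (nat_lit 0x39af006af400d13802126005766008498015d98020e7803fb9)) 
(.leaf (nat_lit 0x9eb4013d680178e804386))) (.leaf (nat_lit 0x27ad004f5a0065d40157d00297880538f))) 
(.node (.node (.leaf (nat_lit 0x13d68027ad0050c3)) (.leaf (nat_lit 0x9eb4013d68011628032c8))) 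
(.leaf (nat_lit 0x9eb4013d6801b3c005e62)))) (.node (.node (.node 
(.leaf (nat_lit 0x13d68027ad0050c3)) (.leaf (nat_lit 0x27ad004f5a00547200b8a401a6c0035ea))) 
(.leaf (nat_lit 0x9eb4013d680144c0043e4))) (.node (.node (.leaf (nat_lit 0x9eb4013d68019ec805f9f)) 
(.leaf (nat_lit 0x9eb4013d68015190046e6))) 
(.leaf (nat_lit 0xd33401a73802e63007a3a00f12401e7d003b470077b600e7c401ccc00522d009a700125d001d5d003f90))))) 
(.node (.node (.node (.node (.leaf (nat_lit 0x13d68027ad0054ca)) 
(.leaf (nat_lit 0x27ad004f5a0065d40157d00297880538f))) 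
(.leaf (nat_lit 0x27ad004f5a00547200b8a401a6c0035ea))) (.node (.node 
(.leaf (nat_lit 0xd33401a73802e63007a3a00f12401e7d003b470077b600e7c401ccc00522d009a700125d001d5d003f90)) 
(.leaf (nat_lit 0x9eb4013d6801b3c005e62))) (.leaf (nat_lit 0x9eb4013d68015190046e6)))) (.node 
(.node (.node (.leaf (nat_lit 0x13d68027ad0054ca)) (.leaf (nat_lit 0x9eb4013d680144c0043e4))) 
(.leaf (nat_lit 0x9eb4013d68011628032c8))) (.node (.leaf (nat_lit 0x9eb4013d680178e804386)) 
(.leaf (nat_lit 0x9eb4013d68019ec805f9f))))))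
noncomputable def gt68 : Ix (Nat) := (.node (.node (.node (.node (.node 
(.leaf (nat_lit 0x103c8023cd804e730083c2017c8002af18054c500850600f47802f04004151)) 
(.leaf (nat_lit 0x4f5a009eb400e2240339c006479))) (.leaf (nat_lit 0x13d68027ad002cbc))) (.node 
(.node (.leaf (nat_lit 0x13d68027ad003dfe)) (.leaf (nat_lit 0x13d68027ad0056d0))) 
(.leaf (nat_lit 0x27ad004f5a006b58013f4402c4e80507300af22014ac802a910047da)))) (.node (.node (.node 
(.leaf (nat_lit 0x13d68027ad004177)) 
(.leaf (nat_lit 0x1022c01d6200443c009f420127c802c168042290094b60115d002fe80040e9))) 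
(.leaf (nat_lit 0x27ad004f5a006b3401b5f0036a80066c3))) (.node (.node 
(.leaf (nat_lit 0x13d68027ad002707)) (.leaf (nat_lit 0x13d68027ad005687))) 
(.leaf (nat_lit 0x13d68027ad002bf9003070008b7001000803891))))) (.node (.node (.node (.node 
(.leaf (nat_lit 0x13d68027ad0054a0)) (.leaf (nat_lit 0x4f5a009eb400ba480227a803fd3))) 
(.leaf (nat_lit 0x38d4006f0800c9640221e00413d00748600fadc01f1f003ef6007b2a00fbf80270e0045ff00752e01584801d9e804ade00875c015d1002c8f8039a9))) 
(.node (.node (.leaf (nat_lit 0x13d68027ad003aff)) (.leaf (nat_lit 0x13d68027ad0059f6))) 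
(.leaf (nat_lit 0x27ad004f5a005d6a008e48005690033b80044f0006064011c30038e2)))) (.node (.node (.node 
(.leaf (nat_lit 0x13d68027ad005aeb)) (.leaf (nat_lit 0x13d68027ad005965))) 
(.leaf (nat_lit 0x27ad004f5a005db6005b9c021b50038b1))) (.node (.leaf (nat_lit 0x13d68027ad005481)) 
(.leaf (nat_lit 0x13d68027ad0024bb0005d00006680087d802ab1))))))
noncomputable def gt69 : Ix (Nat) := (.node (.node (.node (.node (.node 
(.leaf (nat_lit 0xd6cc01a14002e2700793e00e74001dfd003b9e00788200e46001cd3004d0600971200dedc02055804500)) 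
(.leaf (nat_lit 0x9eb4013d6801abe00566f))) (.leaf (nat_lit 0x9eb4013d680155b0049c2))) (.node (.node 
(.leaf (nat_lit 0x27ad004f5a00587a01038002074804436)) (.leaf (nat_lit 0x13d68027ad0042e9))) 
(.leaf (nat_lit 0x4f5a009eb400cc7002788804f0e)))) (.node (.node (.node 
(.leaf (nat_lit 0x9eb4013d680171b004895)) 
(.leaf (nat_lit 0x39aa00700200d010020d9004233008360016f08020a0803f87))) 
(.leaf (nat_lit 0x9eb4013d68019f480582e))) (.node (.node (.leaf (nat_lit 0x9eb4013d680119b803455)) 
(.leaf (nat_lit 0x13d68027ad004393))) (.leaf (nat_lit 0x9eb4013d68016c18044f4))))) (.node (.node 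
(.node (.node (.leaf (nat_lit 0x9eb4013d68019f4805e2f)) (.leaf (nat_lit 0x9eb4013d68016438042ef))) 
(.leaf (nat_lit 0xd7a801a95802e2a007944013e8001e00803ab700a8b200e2480263e8040aa))) (.node (.node 
(.leaf (nat_lit 0x9eb4013d68015f20048d8)) (.leaf (nat_lit 0x13d68027ad005307))) 
(.leaf (nat_lit 0x4f5a009eb400b78401fbe80429f)))) (.node (.node (.node 
(.leaf (nat_lit 0x27ad004f5a0065ee014edc0282b80538e)) (.leaf (nat_lit 0x13d68027ad004e2e))) 
(.leaf (nat_lit 0x9eb4013d6801860804281))) (.node (.leaf (nat_lit 0x9eb4013d6801a20805d92)) 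
(.leaf (nat_lit 0x9eb4013d68011b5803776))))))
noncomputable def gt70 : Ix (Nat) := (.node (.node (.node (.node (.node 
(.leaf (nat_lit 0x103c8023cd804e730083c2017c8002af18054c500850600f47802f04004151)) 
(.leaf (nat_lit 0x4f5a009eb400e2240339c006479))) (.leaf (nat_lit 0x13d68027ad002cbc))) (.node 
(.node (.leaf (nat_lit 0x13d68027ad003dfe)) (.leaf (nat_lit 0x13d68027ad005687))) 
(.leaf (nat_lit 0x27ad004f5a006b58013f4402c4e80507300af22014ac802a910047da)))) (.node (.node (.node 
(.leaf (nat_lit 0x13d68027ad004177)) 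
(.leaf (nat_lit 0x1022c01d6200443c009f420127c802c168042290094b60115d002fe80040e9))) 
(.leaf (nat_lit 0x27ad004f5a006b3401b5f0036a80066c3))) (.node (.node 
(.leaf (nat_lit 0x13d68027ad002707)) (.leaf (nat_lit 0x13d68027ad0056d0))) 
(.leaf (nat_lit 0x13d68027ad002bf9003070008b7001000803891))))) (.node (.node (.node (.node 
(.leaf (nat_lit 0x13d68027ad0054a0)) (.leaf (nat_lit 0x4f5a009eb400ba480227a803fd3))) 
(.leaf (nat_lit 0x38d4006f0800c9640221e00413d00748600fadc01f1f003ef6007b2a00fbf80270e0045ff00752e01584801d9e804ade00875c015d1002c8f8039a9))) 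
(.node (.node (.leaf (nat_lit 0x13d68027ad003aff)) (.leaf (nat_lit 0x13d68027ad005965))) 
(.leaf (nat_lit 0x27ad004f5a005d6a008e48005690033b80044f0006064011c30038e2)))) (.node (.node (.node 
(.leaf (nat_lit 0x13d68027ad005aeb)) (.leaf (nat_lit 0x13d68027ad0059f6))) 
(.leaf (nat_lit 0x27ad004f5a005db6005b9c021b50038b1))) (.node (.leaf (nat_lit 0x13d68027ad005481)) 
(.leaf (nat_lit 0x13d68027ad0024bb0005d00006680087d802ab1))))))
noncomputable def gt71 : Ix (Nat) := (.node (.node (.node (.node (.node 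
(.leaf (nat_lit 0xd6cc01a14002e2700793e00e74001dfd003b9e00788200e46001cd3004d0600971200dedc02055804500)) 
(.leaf (nat_lit 0x9eb4013d6801abe00566f))) (.leaf (nat_lit 0x9eb4013d680155b0049c2))) (.node (.node 
(.leaf (nat_lit 0x27ad004f5a00587a01038002074804436)) (.leaf (nat_lit 0x13d68027ad004393))) 
(.leaf (nat_lit 0x4f5a009eb400cc7002788804f0e)))) (.node (.node (.node 
(.leaf (nat_lit 0x9eb4013d680171b004895)) 
(.leaf (nat_lit 0x39aa00700200d010020d9004233008360016f08020a0803f87))) 
(.leaf (nat_lit 0x9eb4013d68019f480582e))) (.node (.node (.leaf (nat_lit 0x9eb4013d680119b803455)) 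
(.leaf (nat_lit 0x13d68027ad0042e9))) (.leaf (nat_lit 0x9eb4013d68016c18044f4))))) (.node (.node 
(.node (.node (.leaf (nat_lit 0x9eb4013d68019f4805e2f)) (.leaf (nat_lit 0x9eb4013d68016438042ef))) 
(.leaf (nat_lit 0xd7a801a95802e2a007944013e8001e00803ab700a8b200e2480263e8040aa))) (.node (.node 
(.leaf (nat_lit 0x9eb4013d68015f20048d8)) (.leaf (nat_lit 0x13d68027ad004e2e))) 
(.leaf (nat_lit 0x4f5a009eb400b78401fbe80429f)))) (.node (.node (.node 
(.leaf (nat_lit 0x27ad004f5a0065ee014edc0282b80538e)) (.leaf (nat_lit 0x13d68027ad005307))) 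
(.leaf (nat_lit 0x9eb4013d6801860804281))) (.node (.leaf (nat_lit 0x9eb4013d6801a20805d92)) 
(.leaf (nat_lit 0x9eb4013d68011b5803776))))))
noncomputable def gt72 : Ix (Nat) := (.node (.node (.node (.node (.node 
(.leaf (nat_lit 0x39d8006cd000cfd0020cb004fd900832c013f6402091803f17)) 
(.leaf (nat_lit 0x27ad004f5a00654001501802a5b005782))) 
(.leaf (nat_lit 0x27ad004f5a00654001501802a5b005782))) (.node (.node 
(.leaf (nat_lit 0x13d68027ad004609)) (.leaf (nat_lit 0x9eb4013d680176d804570))) 
(.leaf (nat_lit 0x9eb4013d680176d804570)))) (.node (.node (.node 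
(.leaf (nat_lit 0x13d68027ad004609)) (.leaf (nat_lit 0x9eb4013d6801689004477))) 
(.leaf (nat_lit 0x9eb4013d6801689004477))) (.node (.leaf (nat_lit 0x9eb4013d680194d005e74)) 
(.leaf (nat_lit 0x9eb4013d680194d005e74))))) (.node (.node (.node (.node 
(.leaf (nat_lit 0x13d68027ad004d39)) (.leaf (nat_lit 0x27ad004f5a005c580100d8020fd00432b))) 
(.leaf (nat_lit 0x27ad004f5a005c580100d8020fd00432b))) (.node 
(.leaf (nat_lit 0x1a88003481005e1000f73401fe1803d48009fb200e92801cce00396400871000e094022360036c9)) 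
(.leaf (nat_lit 0x1a88003481005e1000f73401fe1803d48009fb200e92801cce00396400871000e094022360036c9)))) 
(.node (.node (.node (.leaf (nat_lit 0x13d68027ad004d39)) 
(.leaf (nat_lit 0x9eb4013d68019a1005ef5))) (.leaf (nat_lit 0x9eb4013d68019a1005ef5))) (.node 
(.leaf (nat_lit 0x9eb4013d68017ac004281)) (.leaf (nat_lit 0x9eb4013d68017ac004281))))))
noncomputable def gt73 : Ix (Nat) := (.node (.node (.node (.node (.node 
(.leaf (nat_lit 0x3a07006e92016b08020d20044e400834801139002080803e33)) 
(.leaf (nat_lit 0x27ad004f5a00545400ff8c021c180449e))) 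
(.leaf (nat_lit 0x27ad004f5a00545400ff8c021c180449e))) (.node (.node 
(.leaf (nat_lit 0x13d68027ad0047c9)) (.leaf (nat_lit 0x9eb4013d68014a2004030))) 
(.leaf (nat_lit 0x9eb4013d68014a2004030)))) (.node (.node (.node 
(.leaf (nat_lit 0x13d68027ad0047c9)) (.leaf (nat_lit 0x9eb4013d6801241803926))) 
(.leaf (nat_lit 0x9eb4013d6801241803926))) (.node (.leaf (nat_lit 0x9eb4013d68019dd804c9c)) 
(.leaf (nat_lit 0x9eb4013d68019dd804c9c))))) (.node (.node (.node (.node 
(.leaf (nat_lit 0x13d68027ad0055ef)) (.leaf (nat_lit 0x9eb4013d6801470004491))) 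
(.leaf (nat_lit 0x9eb4013d6801470004491))) (.node 
(.leaf (nat_lit 0x1a38004f8b00601a00f3d801cc780406300701000e44002b4300378000955000d2f8025d880523b)) 
(.leaf (nat_lit 0x1a38004f8b00601a00f3d801cc780406300701000e44002b4300378000955000d2f8025d880523b)))) 
(.node (.node (.node (.leaf (nat_lit 0x13d68027ad0055ef)) 
(.leaf (nat_lit 0x9eb4013d68019c800613f))) (.leaf (nat_lit 0x9eb4013d68019c800613f))) (.node 
(.leaf (nat_lit 0x27ad004f5a00892e013fd8028a90053bf)) 
(.leaf (nat_lit 0x27ad004f5a00892e013fd8028a90053bf))))))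
noncomputable def gt74 : Ix (Nat) := (.node (.node (.node (.node (.node 
(.leaf (nat_lit 0x19aa003e5f005bb200ef200278500413600708600e2e001e8f00372d00973600d7c8024df003bd4)) 
(.leaf (nat_lit 0x13d68027ad003882))) (.leaf (nat_lit 0x9eb4013d680170e803eaf))) (.node 
(.leaf (nat_lit 0x27ad004f5a005cfe00eda401dd5803f3d)) 
(.leaf (nat_lit 0x27ad004f5a0064440158d402b64005604)))) (.node (.node (.node 
(.leaf (nat_lit 0x9eb4013d680183c004041)) (.leaf (nat_lit 0x13d68027ad0045a6))) 
(.leaf (nat_lit 0x9eb4013d68019a9006034))) (.node (.leaf (nat_lit 0x9eb4013d68012d8003416)) 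
(.leaf (nat_lit 0x3a09006da000e1280215b004c650085ac00fc04020fd804382))))) (.node (.node (.node 
(.node (.leaf (nat_lit 0x9eb4013d6801a9e8056f5)) (.leaf (nat_lit 0x13d68027ad00536b))) 
(.leaf (nat_lit 0x1c51803e5900606000fe7801f2a003fad007f8a00fd8802a87803dbb007ed401274001e57004f2c))) 
(.node (.leaf (nat_lit 0x9eb4013d6801647804602)) (.leaf (nat_lit 0x9eb4013d680197b805bab)))) (.node 
(.node (.leaf (nat_lit 0x27ad004f5a006e8201357c026b0804fff)) 
(.leaf (nat_lit 0x9eb4013d68016778042f9))) (.node (.leaf (nat_lit 0x9eb4013d6801ac18059ac)) 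
(.leaf (nat_lit 0x13d68027ad004148))))))
noncomputable def gt75 : Ix (Nat) := (.node (.node (.node (.node (.node 
(.leaf (nat_lit 0x19aa003e5f005bb200ef200278500413600708600e2e001e8f00372d00973600d7c8024df003bd4)) 
(.leaf (nat_lit 0x13d68027ad0045a6))) (.leaf (nat_lit 0x9eb4013d680170e803eaf))) (.node 
(.leaf (nat_lit 0x27ad004f5a005cfe00eda401dd5803f3d)) 
(.leaf (nat_lit 0x27ad004f5a0064440158d402b64005604)))) (.node (.node (.node 
(.leaf (nat_lit 0x9eb4013d680183c004041)) (.leaf (nat_lit 0x13d68027ad003882))) 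
(.leaf (nat_lit 0x9eb4013d68019a9006034))) (.node (.leaf (nat_lit 0x9eb4013d68012d8003416)) 
(.leaf (nat_lit 0x3a09006da000e1280215b004c650085ac00fc04020fd804382))))) (.node (.node (.node 
(.node (.leaf (nat_lit 0x9eb4013d6801a9e8056f5)) (.leaf (nat_lit 0x13d68027ad004148))) 
(.leaf (nat_lit 0x1c51803e5900606000fe7801f2a003fad007f8a00fd8802a87803dbb007ed401274001e57004f2c))) 
(.node (.leaf (nat_lit 0x9eb4013d6801647804602)) (.leaf (nat_lit 0x9eb4013d680197b805bab)))) (.node 
(.node (.leaf (nat_lit 0x27ad004f5a006e8201357c026b0804fff)) 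
(.leaf (nat_lit 0x9eb4013d68016778042f9))) (.node (.leaf (nat_lit 0x9eb4013d6801ac18059ac)) 
(.leaf (nat_lit 0x13d68027ad00536b))))))
noncomputable def gt76 : Ix (Nat) := (.node (.node (.node (.node (.node 
(.leaf (nat_lit 0x38f5006d6200cef40211c8057ed008472015fb4020e200405e)) 
(.leaf (nat_lit 0x27ad004f5a0063820144280285c0052c0))) 
(.leaf (nat_lit 0x27ad004f5a0063820144280285c0052c0))) (.node (.node 
(.leaf (nat_lit 0x13d68027ad0048b3)) (.leaf (nat_lit 0x9eb4013d6801780004119))) 
(.leaf (nat_lit 0x9eb4013d6801780004119)))) (.node (.node (.node 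
(.leaf (nat_lit 0x13d68027ad0048b3)) (.leaf (nat_lit 0x9eb4013d680169b804462))) 
(.leaf (nat_lit 0x9eb4013d680169b804462))) (.node (.leaf (nat_lit 0x9eb4013d680197f006791)) 
(.leaf (nat_lit 0x9eb4013d680197f006791))))) (.node (.node (.node (.node 
(.leaf (nat_lit 0x13d68027ad00503c)) (.leaf (nat_lit 0x27ad004f5a005ca200f12401f5a003b11))) 
(.leaf (nat_lit 0x27ad004f5a005ca200f12401f5a003b11))) (.node 
(.leaf (nat_lit 0x1acb80348b005d2800f13401e7a803c26008a0600ed1801d310047e50086c400e9f801cbe803706)) 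
(.leaf (nat_lit 0x1acb80348b005d2800f13401e7a803c26008a0600ed1801d310047e50086c400e9f801cbe803706)))) 
(.node (.node (.node (.leaf (nat_lit 0x13d68027ad00503c)) 
(.leaf (nat_lit 0x9eb4013d68019dc00609d))) (.leaf (nat_lit 0x9eb4013d68019dc00609d))) (.node 
(.leaf (nat_lit 0x9eb4013d68016d1004bee)) (.leaf (nat_lit 0x9eb4013d68016d1004bee))))))
noncomputable def gt77 : Ix (Nat) := (.node (.node (.node (.node (.node 
(.leaf (nat_lit 0xe6d001b1480338e008454014ce002115005338)) 
(.leaf (nat_lit 0x4f5a009eb400ad7802053803fd0))) (.leaf (nat_lit 0x4f5a009eb400ad7802053803fd0))) 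
(.node (.node (.leaf (nat_lit 0x13d68027ad004447)) (.leaf (nat_lit 0x9eb4013d68015af8042b6))) 
(.leaf (nat_lit 0x9eb4013d68015af8042b6)))) (.node (.node (.node 
(.leaf (nat_lit 0x13d68027ad004447)) (.leaf (nat_lit 0x9eb4013d68012048036bf))) 
(.leaf (nat_lit 0x9eb4013d68012048036bf))) (.node (.leaf (nat_lit 0x9eb4013d680195a804f8e)) 
(.leaf (nat_lit 0x9eb4013d680195a804f8e))))) (.node (.node (.node (.node 
(.leaf (nat_lit 0x13d68027ad005064)) (.leaf (nat_lit 0x9eb4013d680132e80432b))) 
(.leaf (nat_lit 0x9eb4013d680132e80432b))) (.node 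
(.leaf (nat_lit 0x328100637200b38c01e53003da500757e01038c02e3500555000733e0161a401d75003758)) 
(.leaf (nat_lit 0x328100637200b38c01e53003da500757e01038c02e3500555000733e0161a401d75003758)))) 
(.node (.node (.node (.leaf (nat_lit 0x13d68027ad005064)) 
(.leaf (nat_lit 0x9eb4013d68018d700617d))) (.leaf (nat_lit 0x9eb4013d68018d700617d))) (.node 
(.leaf (nat_lit 0x4f5a009eb400c42c02c3c005a6d)) (.leaf (nat_lit 0x4f5a009eb400c42c02c3c005a6d))))))
noncomputable def gt78 : Ix (Nat) := (.node (.node (.node (.node (.node 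
(.leaf (nat_lit 0x3a9f006e0c00d0b8021520058290085480160a4020da803fa1)) 
(.leaf (nat_lit 0x27ad004f5a0057c600e78c01816803550))) 
(.leaf (nat_lit 0x27ad004f5a0057c600e78c01816803550))) (.node (.node 
(.leaf (nat_lit 0x13d68027ad005351)) (.leaf (nat_lit 0x9eb4013d68015850047fb))) 
(.leaf (nat_lit 0x9eb4013d68015850047fb)))) (.node (.node (.node 
(.leaf (nat_lit 0x13d68027ad005351)) (.leaf (nat_lit 0x9eb4013d68011bd80359c))) 
(.leaf (nat_lit 0x9eb4013d68011bd80359c))) (.node (.leaf (nat_lit 0x9eb4013d6801947805b9c)) 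
(.leaf (nat_lit 0x9eb4013d6801947805b9c))))) (.node (.node (.node (.node 
(.leaf (nat_lit 0x13d68027ad005563)) (.leaf (nat_lit 0x9eb4013d68013be004000))) 
(.leaf (nat_lit 0x9eb4013d68013be004000))) (.node 
(.leaf (nat_lit 0x1a0b803409005ade00f0d001d4d803cf400742800ea5001c708051fe009dba00e250027c1804980)) 
(.leaf (nat_lit 0x1a0b803409005ade00f0d001d4d803cf400742800ea5001c708051fe009dba00e250027c1804980)))) 
(.node (.node (.node (.leaf (nat_lit 0x13d68027ad005563)) 
(.leaf (nat_lit 0x9eb4013d68018f2006149))) (.leaf (nat_lit 0x9eb4013d68018f2006149))) (.node 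
(.leaf (nat_lit 0x27ad004f5a00620601562802fb280575b)) 
(.leaf (nat_lit 0x27ad004f5a00620601562802fb280575b))))))
noncomputable def gt79 : Ix (Nat) := (.node (.node (.node (.node (.node 
(.leaf (nat_lit 0x37c60071f800be1c02ee9803bd000720a00e56001dfd8040dc00b1c4014d5c01d898039d5)) 
(.leaf (nat_lit 0x13d68027ad0054cb))) (.leaf (nat_lit 0x9eb4013d680176b0047a1))) (.node 
(.leaf (nat_lit 0x4f5a009eb400b6340201c0046a2)) (.leaf (nat_lit 0x4f5a009eb400cd5c02d5b8059b9)))) 
(.node (.node (.node (.leaf (nat_lit 0x9eb4013d6801886804d4f)) 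
(.leaf (nat_lit 0x13d68027ad003f95))) (.leaf (nat_lit 0x9eb4013d6801a24806e8c))) (.node 
(.leaf (nat_lit 0x9eb4013d6801299803b35)) 
(.leaf (nat_lit 0xfa6801cf3003cef008f860114540247480613a))))) (.node (.node (.node (.node 
(.leaf (nat_lit 0x9eb4013d6801ac58066e6)) (.leaf (nat_lit 0x13d68027ad0043e5))) 
(.leaf (nat_lit 0x3e0600804e00cdfc0227a805e4d00c09a011ee80251200453d0085a8016cb00214a003f66))) 
(.node (.leaf (nat_lit 0x9eb4013d680164e804ad8)) (.leaf (nat_lit 0x9eb4013d6801a91006703)))) (.node 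
(.node (.leaf (nat_lit 0x4f5a009eb400c93c02cc3805cb9)) (.leaf (nat_lit 0x9eb4013d680174500528f))) 
(.node (.leaf (nat_lit 0x9eb4013d6801ce680692a)) (.leaf (nat_lit 0x13d68027ad00582c))))))
noncomputable def gt80 : Ix (Nat) := (.node (.node (.node (.node (.node 
(.leaf (nat_lit 0x1a2000341a005b30010f5002252803fee009e4e00e83001c24804f7c008f2e00ddac01fb9003c1a)) 
(.leaf (nat_lit 0x13d68027ad005423))) (.leaf (nat_lit 0x9eb4013d68015e48041c7))) (.node 
(.leaf (nat_lit 0x27ad004f5a00564a00ea8801e05803e91)) 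
(.leaf (nat_lit 0x27ad004f5a006122014ecc02b1f80589b)))) (.node (.node (.node 
(.leaf (nat_lit 0x9eb4013d68017f9803f1c)) (.leaf (nat_lit 0x13d68027ad003ca2))) 
(.leaf (nat_lit 0x9eb4013d68018db00603b))) (.node (.leaf (nat_lit 0x9eb4013d6801207002f19)) 
(.leaf (nat_lit 0x3d41006e9400d520023b00045620088940186cc0216b0040db))))) (.node (.node (.node 
(.node (.leaf (nat_lit 0x9eb4013d6801aa80060fb)) (.leaf (nat_lit 0x13d68027ad003fc8))) 
(.leaf (nat_lit 0x1df08038ba00627c01012c01fb400406300b27a01077401f488058db009b5a0102280208c803984))) 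
(.node (.leaf (nat_lit 0x9eb4013d68014a4004abe)) (.leaf (nat_lit 0x9eb4013d6801955005d76)))) (.node 
(.node (.leaf (nat_lit 0x27ad004f5a005f5e0142a002860805a91)) 
(.leaf (nat_lit 0x9eb4013d68017d0804841))) (.node (.leaf (nat_lit 0x9eb4013d6801a4b00619e)) 
(.leaf (nat_lit 0x13d68027ad005899))))))
noncomputable def gt81 : Ix (Nat) := (.node (.node (.node (.node (.node 
(.leaf (nat_lit 0x37c60071f800be1c02ee9803bd000720a00e56001dfd8040dc00b1c4014d5c01d898039d5)) 
(.leaf (nat_lit 0x13d68027ad003f95))) (.leaf (nat_lit 0x9eb4013d680176b0047a1))) (.node 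
(.leaf (nat_lit 0x4f5a009eb400b6340201c0046a2)) (.leaf (nat_lit 0x4f5a009eb400cd5c02d5b8059b9)))) 
(.node (.node (.node (.leaf (nat_lit 0x9eb4013d6801886804d4f)) 
(.leaf (nat_lit 0x13d68027ad0054cb))) (.leaf (nat_lit 0x9eb4013d6801a24806e8c))) (.node 
(.leaf (nat_lit 0x9eb4013d6801299803b35)) 
(.leaf (nat_lit 0xfa6801cf3003cef008f860114540247480613a))))) (.node (.node (.node (.node 
(.leaf (nat_lit 0x9eb4013d6801ac58066e6)) (.leaf (nat_lit 0x13d68027ad00582c))) 
(.leaf (nat_lit 0x3e0600804e00cdfc0227a805e4d00c09a011ee80251200453d0085a8016cb00214a003f66))) 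
(.node (.leaf (nat_lit 0x9eb4013d680164e804ad8)) (.leaf (nat_lit 0x9eb4013d6801a91006703)))) (.node 
(.node (.leaf (nat_lit 0x4f5a009eb400c93c02cc3805cb9)) (.leaf (nat_lit 0x9eb4013d680174500528f))) 
(.node (.leaf (nat_lit 0x9eb4013d6801ce680692a)) (.leaf (nat_lit 0x13d68027ad0043e5))))))
noncomputable def gt82 : Ix (Nat) := (.node (.node (.node (.node (.node 
(.leaf (nat_lit 0x1a2000341a005b30010f5002252803fee009e4e00e83001c24804f7c008f2e00ddac01fb9003c1a)) 
(.leaf (nat_lit 0x13d68027ad003ca2))) (.leaf (nat_lit 0x9eb4013d68015e48041c7))) (.node 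
(.leaf (nat_lit 0x27ad004f5a00564a00ea8801e05803e91)) 
(.leaf (nat_lit 0x27ad004f5a006122014ecc02b1f80589b)))) (.node (.node (.node 
(.leaf (nat_lit 0x9eb4013d68017f9803f1c)) (.leaf (nat_lit 0x13d68027ad005423))) 
(.leaf (nat_lit 0x9eb4013d68018db00603b))) (.node (.leaf (nat_lit 0x9eb4013d6801207002f19)) 
(.leaf (nat_lit 0x3d41006e9400d520023b00045620088940186cc0216b0040db))))) (.node (.node (.node 
(.node (.leaf (nat_lit 0x9eb4013d6801aa80060fb)) (.leaf (nat_lit 0x13d68027ad005899))) 
(.leaf (nat_lit 0x1df08038ba00627c01012c01fb400406300b27a01077401f488058db009b5a0102280208c803984))) 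
(.node (.leaf (nat_lit 0x9eb4013d68014a4004abe)) (.leaf (nat_lit 0x9eb4013d6801955005d76)))) (.node 
(.node (.leaf (nat_lit 0x27ad004f5a005f5e0142a002860805a91)) 
(.leaf (nat_lit 0x9eb4013d68017d0804841))) (.node (.leaf (nat_lit 0x9eb4013d6801a4b00619e)) 
(.leaf (nat_lit 0x13d68027ad003fc8))))))
noncomputable def gt83 : Ix (Nat) := (.node (.node (.node (.node (.node 
(.leaf (nat_lit 0x39ce00692a00cbb402084004e6a00833001216002041004064)) 
(.leaf (nat_lit 0x4f5a009eb400ca5402785005264))) 
(.leaf (nat_lit 0x27ad004f5a00652a0139fc028f1805290))) (.node (.node 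
(.leaf (nat_lit 0x13d68027ad00430e)) (.leaf (nat_lit 0x9eb4013d6801787003e24))) 
(.leaf (nat_lit 0x9eb4013d68017968042c2)))) (.node (.node (.node 
(.leaf (nat_lit 0x13d68027ad003d8d)) (.leaf (nat_lit 0x9eb4013d68016cf803fc3))) 
(.leaf (nat_lit 0x9eb4013d68016cd804680))) (.node (.leaf (nat_lit 0x9eb4013d6801947806019)) 
(.leaf (nat_lit 0x9eb4013d68019478055f3))))) (.node (.node (.node (.node 
(.leaf (nat_lit 0x13d68027ad004c29)) (.leaf (nat_lit 0x4f5a009eb400b97c01f3a803fde))) 
(.leaf (nat_lit 0x27ad004f5a005cfc00e85801ed7003c05))) (.node 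
(.leaf (nat_lit 0xd05001af6802d8d00763a00f7a801d8080512a00765800e51c01d13004ec1007f2e010a5c01ce28038c4)) 
(.leaf (nat_lit 0xd038019d4002ead007ede01402001f6d0038e300a8a600e0a401bad8034ba)))) (.node (.node 
(.node (.leaf (nat_lit 0x13d68027ad004f3e)) (.leaf (nat_lit 0x9eb4013d68019d5805303))) 
(.leaf (nat_lit 0x9eb4013d680197c805ff1))) (.node (.leaf (nat_lit 0x9eb4013d68017a60041f6)) 
(.leaf (nat_lit 0x9eb4013d680180b8044ee))))))
noncomputable def gt84 : Ix (Nat) := (.node (.node (.node (.node (.node 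
(.leaf (nat_lit 0xe05c01acf80322b008338010904025d4003cb200859401064c0249a003d8a)) 
(.leaf (nat_lit 0x27ad004f5a0054cc007bfc010ab001a7f000e42006478011da00337e))) 
(.leaf (nat_lit 0x13d68027ad003e5f))) (.node (.node (.leaf (nat_lit 0x13d68027ad0049e0)) 
(.leaf (nat_lit 0x4f5a009eb4009f5c01ea6004345))) (.leaf (nat_lit 0x13d68027ad00304d)))) (.node 
(.node (.node (.leaf (nat_lit 0x13d68027ad004422)) 
(.leaf (nat_lit 0x13d68027ad002221001d8a00358c00a33002fa2))) (.leaf (nat_lit 0x13d68027ad00288c))) 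
(.node (.leaf (nat_lit 0x13d68027ad0035be)) 
(.leaf (nat_lit 0x27ad004f5a00629c00efbc01dd8805b6e))))) (.node (.node (.node (.node 
(.leaf (nat_lit 0x13d68027ad004c73)) (.leaf (nat_lit 0x13d68027ad002860005bbc00befc019ab003b7a))) 
(.leaf (nat_lit 0x13d68027ad003ad0))) (.node 
(.leaf (nat_lit 0xc848019110030f700799a01414002017804c33009266011fb001d71003c17)) 
(.leaf (nat_lit 0x31e800652e00b4a0023d6803c630071b800e47802216804b3b006cd0012d140287c804b6d006b7800e31001a280041da0068c801309c019c900368b)))) 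
(.node (.node (.node (.leaf (nat_lit 0x13d68027ad005a00)) 
(.leaf (nat_lit 0x4f5a009eb400c06402c4c005881))) (.leaf (nat_lit 0x13d68027ad003607))) (.node 
(.leaf (nat_lit 0x13d68027ad00532d)) 
(.leaf (nat_lit 0x27ad004f5a005f640133740290f80439100a3de00e9b4021ff8040b9))))))
noncomputable def gt85 : Ix (Nat) := (.node (.node (.node (.node (.node 
(.leaf (nat_lit 0x396e00682400cba00209b80588d00823800f63402056803eca)) 
(.leaf (nat_lit 0x4f5a009eb400a35801ffa004127))) 
(.leaf (nat_lit 0x27ad004f5a00519600d4f401c8c003c1e))) (.node (.node 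
(.leaf (nat_lit 0x13d68027ad00469c)) (.leaf (nat_lit 0x9eb4013d68013f600424d))) 
(.leaf (nat_lit 0x9eb4013d680147a803ef3)))) (.node (.node (.node 
(.leaf (nat_lit 0x13d68027ad0040b8)) (.leaf (nat_lit 0x9eb4013d68011708037a2))) 
(.leaf (nat_lit 0x9eb4013d6801114803db9))) (.node (.leaf (nat_lit 0x9eb4013d680190700512a)) 
(.leaf (nat_lit 0x9eb4013d68019070043eb))))) (.node (.node (.node (.node 
(.leaf (nat_lit 0x13d68027ad004b0c)) (.leaf (nat_lit 0x9eb4013d68014570045ae))) 
(.leaf (nat_lit 0x9eb4013d680142600447c))) (.node 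
(.leaf (nat_lit 0xcf700190f802d7a00757000e07001d178039e800736400dbb401bfb004c05009e5a00f83402221804d62)) 
(.leaf (nat_lit 0xcb6001ac1002c01007618014dc801d73803896006e2c00daf802715803d47)))) (.node (.node 
(.node (.leaf (nat_lit 0x13d68027ad004d5c)) (.leaf (nat_lit 0x9eb4013d680187a80520d))) 
(.leaf (nat_lit 0x9eb4013d680189280603d))) (.node 
(.leaf (nat_lit 0x27ad004f5a00615601651402dac0056ce)) 
(.leaf (nat_lit 0x4f5a009eb400c0c802a6f805124))))))
noncomputable def gt86 : Ix (Nat) := (.node (.node (.node (.node (.node 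
(.leaf (nat_lit 0x38b1006ff200d76001f46004063007cba00f6d801e2880372d007ef400f13401e66803fb1007ee400f32402146003a13007ad000f22801fe9803d52007fc40140980225e8050a600b13000d3c001a7c804873007090010aac022ae0048b0008edc012e4802101803a85007bde00e0dc022fe003ee3007b7400ee1401ec0803e8e008ff000fd0c02d35003e3b00af3600f0b801ded80516e0082ee00fa1801f5b803ef400754600e3740199e0037c90071140122d8029988037f9007b1200e01801bb4003b660076cc00d5dc0246a003a06)) 
(.leaf (nat_lit 0x9eb4013d680216700544200a580014e900278e80558d))) 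
(.leaf (nat_lit 0x27ad004f5a00606c00eac801b85803807))) (.node 
(.leaf (nat_lit 0x27ad004f5a0076d400d89401beb00347d)) 
(.leaf (nat_lit 0x13d68027ad0038dc0091380109fc0245100543400a4bc013b0c02770004e5c007f4a00f69401ebb804e8d009e5201386c028cf804cb2)))) 
(.node (.node (.node (.leaf (nat_lit 0x27ad004f5a00745400fcbc01ec7003f8c)) 
(.leaf (nat_lit 0x9eb4013d6801dcb0040540093da013f34021b9803ed9))) 
(.leaf (nat_lit 0x13d68027ad0037d600a8c4011fdc0317b805f3e00bb52017be002c5a00474000b0ac015374027d3805052))) 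
(.node (.leaf (nat_lit 0x27ad004f5a00540200934001379002da0)) 
(.leaf (nat_lit 0xfe3801e4a0039690085fa010d50024ac00411000866c010384021bf00436e00896a01566c021260043c2007fa801192c02303804878008a4a0122f801f3c003c0c0099de010464021f00043a90087420101a802244803fe500868a010cd8026b20048ac00886a011f0c01e748040240084e8010a54021a500441d0081da011134021e800436b0080700109e0021670041b20081ea00fd3c01fcb8040d700792600f50001f1e8040620076ba00f02c01f1d004454009170010270020c2003fdf0080b000fea802b9f805b25007b6800f83801dfb003a0f))))) 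
(.node (.node (.node (.node (.leaf (nat_lit 0x27ad004f5a0070fa01704c02f2e804f85)) 
(.leaf (nat_lit 0x4f5a009eb401086c02080004ca20078f400ef100214f005458))) 
(.leaf (nat_lit 0x7be600f6bc01dce8040430081b600fc2801fb780408b0081360104e00205f003df70082bc0103a801ec1804162007b9801082802117803e9300818c0102540201d80451d008404010894023be80400c007d2c00f62801f478040c40083b801056001f0280415600827401061401f368041b60081100101400206200407600803200f88401f98003a5c00814e00fcd801ff4803f440080ba012860024e1803fc70082b80103c802025803feb007f9c011ee40204f803f6800806c00ff4402742803f710080d00100d80266b803fbf007e260101e401fda8040ac00800800ffb001fca003e9b0083a2010b3401f1d003de40089ec00f8b801eb8003c7200894a0104ac02e408040c400bbf801333801f1b005b83007a5601065401e98003f94007848010ea801fd4803fbe007dfa0101d001f86803f0e00801801290802021003f470074a80180f001cf8803ba4))) 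
(.node (.leaf (nat_lit 0x27ad004f5a006dd400f23c020e20041b4)) 
(.leaf (nat_lit 0x13d68027ad0037df0079b0015fa8020378060d90092f800fe8802472004320)))) (.node (.node 
(.leaf (nat_lit 0x27ad004f5a00863e013340029e1804c8b)) 
(.leaf (nat_lit 0x13d68027ad0036e100702600f6ec01be380396f0063ca00d7dc01a15803c070075ba00e7e801d9b003a11))) 
(.node (.leaf (nat_lit 0x27ad004f5a0084e8017c3c02ab9805cf3)) 
(.leaf (nat_lit 0x13d68027ad0046be009e0e013e8c027ce004ec4009b8401374c026c6004a28))))))
noncomputable def gt87 : Ix (Nat) := (.node (.node (.node (.node (.node (.node 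
(.leaf (nat_lit 0x37b10068ea0103e801ef880547a007e98013a6401f2d003c2d)) 
(.leaf (nat_lit 0x9eb4013d680151a002dc7))) (.leaf (nat_lit 0x4f5a009eb400d3f802d3c003e89))) (.node 
(.leaf (nat_lit 0x13d68027ad0038e1)) (.leaf (nat_lit 0x9eb4013d6801a0b004680)))) (.node (.node 
(.leaf (nat_lit 0x13d68027ad003f68)) (.leaf (nat_lit 0x9eb4013d680194c00492d))) (.node 
(.leaf (nat_lit 0x13d68027ad003dbb)) (.leaf (nat_lit 0x27ad002c3e005bd8007ff8016cc003278))))) 
(.node (.node (.node (.node (.leaf (nat_lit 0x13d68027ad004315)) 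
(.leaf (nat_lit 0x4f5a009eb400a5c001af6003546))) (.leaf (nat_lit 0x4f5a009eb400bbb001a5c8042a7))) 
(.node (.leaf (nat_lit 0x9eb400be9001bfb00425e)) (.leaf (nat_lit 0x9eb4013d680187e004274)))) (.node 
(.node (.leaf (nat_lit 0x13d68027ad00394a)) (.leaf (nat_lit 0x9eb4013d68018f980440b))) (.node 
(.leaf (nat_lit 0x13d68027ad003d07)) (.leaf (nat_lit 0x27ad004f5a0050e60002100068b8015be)))))) 
(.node (.node (.node (.node (.node (.leaf (nat_lit 0x13d68027ad005211)) 
(.leaf (nat_lit 0x4f5a009eb400bf100229580410f))) (.leaf (nat_lit 0x4f5a009eb400d38802144005135))) 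
(.node (.leaf (nat_lit 0x623a00c85401b66003a8e007fda00f60002480003445)) 
(.leaf (nat_lit 0x9eb4013d68018fe803f24)))) (.node (.node (.leaf (nat_lit 0x13d68027ad003987)) 
(.leaf (nat_lit 0x9eb4013d6801a51804af9))) (.node (.leaf (nat_lit 0x13d68027ad003381)) 
(.leaf (nat_lit 0x27ad002aa90053a6003e7c00fa98027f0))))) (.node (.node (.node (.node 
(.leaf (nat_lit 0x13d68027ad0042ea)) (.leaf (nat_lit 0x9eb4013d680194f803d62))) 
(.leaf (nat_lit 0x4f5a009eb400cf9c0225580463b))) (.node (.leaf (nat_lit 0x13d68027ad0033c3)) 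
(.leaf (nat_lit 0xc8d4016e5002cd2006b2e010bac01af4003566006ac000c9ec01dac003353)))) (.node (.node 
(.leaf (nat_lit 0x13d68027ad004aee)) (.leaf (nat_lit 0x9eb4013d6801a31803e89))) (.node 
(.leaf (nat_lit 0xdb1801a54002d4d00798a01475c02043003b0a00b30400e49001e46005471)) 
(.leaf (nat_lit 0x9eb4013d68016848040b1)))))))
noncomputable def gt88 : Ix (Nat) := (.node (.node (.node (.node (.node 
(.leaf (nat_lit 0xdef401cc200406a0089440120e8029d300555f00ba3c010b24027fe003dbd)) 
(.leaf (nat_lit 0x13d68027ad0035d4))) (.node (.leaf (nat_lit 0x13d68027ad003b59)) 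
(.leaf (nat_lit 0x27ad004f5a00698000c22401746002d8300796e00ee9c01e6e803a6f)))) (.node (.node 
(.leaf (nat_lit 0x13d68027ad0043b8)) 
(.leaf (nat_lit 0x3aac0071c000d29c023c88041b6008c5200f77802075803e930076e000f90c029f60055130076e600f1d001cf30053df008c2c00f1bc01ef00039d8))) 
(.node (.leaf (nat_lit 0x13d68021fa80349a)) (.leaf (nat_lit 0x4f5a009eb400d560024d4804b81))))) 
(.node (.node (.node (.leaf (nat_lit 0x13d68027ad003b67)) (.leaf (nat_lit 0x13d68027ad00348d))) 
(.node (.leaf (nat_lit 0x13d68027ad003c9e)) (.leaf (nat_lit 0x4f5a009eb400d4a401e4380669d)))) 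
(.node (.node (.leaf (nat_lit 0x13d68027ad0048ac)) 
(.leaf (nat_lit 0x27ad004f5a005f8e00349c00d558013d400461600818c01d09803765))) 
(.leaf (nat_lit 0x13d68027ad0033b7))))) (.node (.node (.node (.node 
(.leaf (nat_lit 0x13d68027ad005ecc)) (.leaf (nat_lit 0x13d68027ad003ef9))) (.node 
(.leaf (nat_lit 0x13d68027ad003f9f)) (.leaf (nat_lit 0x13d68027ad00317600438000bb48017ce004050)))) 
(.node (.node (.leaf (nat_lit 0x13d68027ad0041a4)) 
(.leaf (nat_lit 0x27ad004f5a0067d00156ec02aa000532400bbfc017cd802e79803bac))) (.node 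
(.leaf (nat_lit 0x13d6801c52002df6)) (.leaf (nat_lit 0x4f5a009eb400d58401f1b005586))))) (.node 
(.node (.node (.leaf (nat_lit 0x13d68027ad004103)) (.leaf (nat_lit 0x13d68027ad003770))) (.node 
(.leaf (nat_lit 0x2ebe0063b600b1740216a003f8600918401125801ead003b54)) 
(.leaf (nat_lit 0x4f5a009eb400d2e801fa5804288)))) (.node (.node 
(.leaf (nat_lit 0x13d68027ad003801)) (.leaf (nat_lit 0x13d68027ad002e5500477c00a28801e8f803577))) 
(.leaf (nat_lit 0x13d68027ad003d10))))))
noncomputable def gt89 : Ix (Nat) := (.node (.node (.node (.node (.node 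
(.leaf (nat_lit 0x36f900675c0129f401f35004ab90080ea016d200270d803c7e)) 
(.leaf (nat_lit 0x13d68027ad003098))) (.node (.leaf (nat_lit 0x13d68027ad003942)) 
(.leaf (nat_lit 0x4f5a009eb400d66c022d1004676)))) (.node (.node 
(.leaf (nat_lit 0x13d68027ad003b9c)) 
(.leaf (nat_lit 0xe45801e0780317b0080a801248001fc280401a00b48801006c01d25804fb2))) (.node 
(.leaf (nat_lit 0x9eb400bf4401c36804c53)) (.leaf (nat_lit 0x9eb4013d6801b05804c34))))) (.node 
(.node (.node (.leaf (nat_lit 0x13d68027ad003e8d)) (.leaf (nat_lit 0x13d68027ad00318d))) (.node 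
(.leaf (nat_lit 0x13d68027ad003ed0)) (.leaf (nat_lit 0x9eb4013d6801b16005292)))) (.node (.node 
(.leaf (nat_lit 0x13d68027ad0044ad)) (.leaf (nat_lit 0x4f5a009eb400ce7401cc6804609))) 
(.leaf (nat_lit 0x13d68027ad00395c))))) (.node (.node (.node (.node 
(.leaf (nat_lit 0x13d68027ad005539)) (.leaf (nat_lit 0x13d68027ad003f92))) (.node 
(.leaf (nat_lit 0x13d68027ad0045aa)) (.leaf (nat_lit 0x9eb4013d68019af80456c)))) (.node (.node 
(.leaf (nat_lit 0x13d68027ad003879)) (.leaf (nat_lit 0x4f5a009eb400e97402ce3804d79))) (.node 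
(.leaf (nat_lit 0x9eb400a3ac01542803e3b)) (.leaf (nat_lit 0x9eb4013d6801a68804a04))))) (.node 
(.node (.node (.leaf (nat_lit 0x13d68027ad0044bf)) (.leaf (nat_lit 0x13d68027ad003aed))) (.node 
(.leaf (nat_lit 0x5b5000bc2c0175f0033da0083fa00ea1401f898038d5)) 
(.leaf (nat_lit 0x9eb4013d68019c8004402)))) (.node (.node (.leaf (nat_lit 0x13d68027ad0036bd)) 
(.leaf (nat_lit 0x4f5a009eb400c5e801b53003f82))) (.leaf (nat_lit 0x13d68027ad003705))))))
noncomputable def gt90 : Ix (Nat) := (.node (.node (.node (.node 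
(.leaf (nat_lit 0xe25c01c98002f650090fa012c840243e804ca0008ad2014f4802288004cbd0096220149c8023900047f4)) 
(.leaf (nat_lit 0x9eb4013d68017d58049a9))) (.node (.leaf (nat_lit 0x9eb4013d6801a710050a0)) 
(.leaf (nat_lit 0x9eb4013d6801a7f80669b)))) (.node (.node (.leaf (nat_lit 0x9eb4013d680196c004c08)) 
(.leaf (nat_lit 0x9eb4013d680189a00395a))) (.node (.leaf (nat_lit 0x9eb4013d6801a43005273)) 
(.leaf (nat_lit 0x9eb4013d6801a74804f6e))))) (.node (.node (.node 
(.leaf (nat_lit 0x9eb4013d6801af2806188)) (.leaf (nat_lit 0x13d68027ad00388c))) (.node 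
(.leaf (nat_lit 0x9eb4013d68018210051ed)) (.leaf (nat_lit 0x9eb4013d6801a468045fc)))) (.node (.node 
(.leaf (nat_lit 0x9eb4013d6801bf980515c)) 
(.leaf (nat_lit 0xf86001dea00332000854e0102f00210d00415b0083a40100140206c8059c700bf8e011b4c02ca9804149))) 
(.node (.leaf (nat_lit 0x27ad004f5a005c6201002401f6a0044a0)) 
(.leaf (nat_lit 0x9eb4013d68018ec8054cc))))))
noncomputable def gt91 : Ix (Nat) := (.node (.node (.node (.node (.node 
(.leaf (nat_lit 0xca18019f9002cb100888e00e26001ecc80390700735000d94c01bdf0050a1009be200dbf401c73803968)) 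
(.leaf (nat_lit 0x13d68027ad003652))) (.leaf (nat_lit 0x9eb4013d68014d38042dc))) (.node 
(.leaf (nat_lit 0x27ad004f5a0057cc00fe3c01ec0803fde)) 
(.leaf (nat_lit 0x27ad004f5a0063a001454c0287b0050c2)))) (.node (.node (.node 
(.leaf (nat_lit 0x9eb4013d680178d004401)) (.leaf (nat_lit 0x13d68027ad003fba))) 
(.leaf (nat_lit 0x9eb4013d680191c8060e0))) (.node (.leaf (nat_lit 0x9eb4013d68011ba0036c6)) 
(.leaf (nat_lit 0x39e9006a5000d0840213f0054bb008406010e34020da803f7b))))) (.node (.node (.node 
(.node (.leaf (nat_lit 0x9eb4013d6801983005cac)) (.leaf (nat_lit 0x13d68027ad004bfb))) 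
(.leaf (nat_lit 0xe0a001d91802f57007ef200f8d801fac0041f3007c8801513401eb78053ab007a5a00f2a001e2e803a44))) 
(.node (.leaf (nat_lit 0x9eb4013d68014d00047bc)) (.leaf (nat_lit 0x9eb4013d6801953004f68)))) (.node 
(.node (.leaf (nat_lit 0x27ad004f5a006288013dc402981805612)) 
(.leaf (nat_lit 0x9eb4013d68015980048e7))) (.node (.leaf (nat_lit 0x9eb4013d680192c005e01)) 
(.leaf (nat_lit 0x13d68027ad0039eb))))))
noncomputable def gt92 : Ix (Nat) := (.node (.node (.node (.node (.node 
(.leaf (nat_lit 0x39ce00692a00cbb402084004e6a00833001216002041004064)) 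
(.leaf (nat_lit 0x4f5a009eb400ca5402785005264))) 
(.leaf (nat_lit 0x27ad004f5a00652a0139fc028f1805290))) (.node (.node 
(.leaf (nat_lit 0x13d68027ad003d8d)) (.leaf (nat_lit 0x9eb4013d6801787003e24))) 
(.leaf (nat_lit 0x9eb4013d68017968042c2)))) (.node (.node (.node 
(.leaf (nat_lit 0x13d68027ad00430e)) (.leaf (nat_lit 0x9eb4013d68016cf803fc3))) 
(.leaf (nat_lit 0x9eb4013d68016cd804680))) (.node (.leaf (nat_lit 0x9eb4013d6801947806019)) 
(.leaf (nat_lit 0x9eb4013d68019478055f3))))) (.node (.node (.node (.node 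
(.leaf (nat_lit 0x13d68027ad004f3e)) (.leaf (nat_lit 0x4f5a009eb400b97c01f3a803fde))) 
(.leaf (nat_lit 0x27ad004f5a005cfc00e85801ed7003c05))) (.node 
(.leaf (nat_lit 0xd05001af6802d8d00763a00f7a801d8080512a00765800e51c01d13004ec1007f2e010a5c01ce28038c4)) 
(.leaf (nat_lit 0xd038019d4002ead007ede01402001f6d0038e300a8a600e0a401bad8034ba)))) (.node (.node 
(.node (.leaf (nat_lit 0x13d68027ad004c29)) (.leaf (nat_lit 0x9eb4013d68019d5805303))) 
(.leaf (nat_lit 0x9eb4013d680197c805ff1))) (.node (.leaf (nat_lit 0x9eb4013d68017a60041f6)) 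
(.leaf (nat_lit 0x9eb4013d680180b8044ee))))))
noncomputable def gt93 : Ix (Nat) := (.node (.node (.node (.node (.node 
(.leaf (nat_lit 0xe05c01acf80322b008338010904025d4003cb200859401064c0249a003d8a)) 
(.leaf (nat_lit 0x27ad004f5a0054cc007bfc010ab001a7f000e42006478011da00337e))) 
(.leaf (nat_lit 0x13d68027ad003e5f))) (.node (.node (.leaf (nat_lit 0x13d68027ad004422)) 
(.leaf (nat_lit 0x4f5a009eb4009f5c01ea6004345))) (.leaf (nat_lit 0x13d68027ad00304d)))) (.node 
(.node (.node (.leaf (nat_lit 0x13d68027ad0049e0)) 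
(.leaf (nat_lit 0x13d68027ad002221001d8a00358c00a33002fa2))) (.leaf (nat_lit 0x13d68027ad00288c))) 
(.node (.leaf (nat_lit 0x13d68027ad0035be)) 
(.leaf (nat_lit 0x27ad004f5a00629c00efbc01dd8805b6e))))) (.node (.node (.node (.node 
(.leaf (nat_lit 0x13d68027ad005a00)) (.leaf (nat_lit 0x13d68027ad002860005bbc00befc019ab003b7a))) 
(.leaf (nat_lit 0x13d68027ad003ad0))) (.node 
(.leaf (nat_lit 0xc848019110030f700799a01414002017804c33009266011fb001d71003c17)) 
(.leaf (nat_lit 0x31e800652e00b4a0023d6803c630071b800e47802216804b3b006cd0012d140287c804b6d006b7800e31001a280041da0068c801309c019c900368b)))) 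
(.node (.node (.node (.leaf (nat_lit 0x13d68027ad004c73)) 
(.leaf (nat_lit 0x4f5a009eb400c06402c4c005881))) (.leaf (nat_lit 0x13d68027ad003607))) (.node 
(.leaf (nat_lit 0x13d68027ad00532d)) 
(.leaf (nat_lit 0x27ad004f5a005f640133740290f80439100a3de00e9b4021ff8040b9))))))
noncomputable def gt94 : Ix (Nat) := (.node (.node (.node (.node (.node 
(.leaf (nat_lit 0x396e00682400cba00209b80588d00823800f63402056803eca)) 
(.leaf (nat_lit 0x4f5a009eb400a35801ffa004127))) 
(.leaf (nat_lit 0x27ad004f5a00519600d4f401c8c003c1e))) (.node (.node 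
(.leaf (nat_lit 0x13d68027ad0040b8)) (.leaf (nat_lit 0x9eb4013d68013f600424d))) 
(.leaf (nat_lit 0x9eb4013d680147a803ef3)))) (.node (.node (.node 
(.leaf (nat_lit 0x13d68027ad00469c)) (.leaf (nat_lit 0x9eb4013d68011708037a2))) 
(.leaf (nat_lit 0x9eb4013d6801114803db9))) (.node (.leaf (nat_lit 0x9eb4013d680190700512a)) 
(.leaf (nat_lit 0x9eb4013d68019070043eb))))) (.node (.node (.node (.node 
(.leaf (nat_lit 0x13d68027ad004d5c)) (.leaf (nat_lit 0x9eb4013d68014570045ae))) 
(.leaf (nat_lit 0x9eb4013d680142600447c))) (.node 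
(.leaf (nat_lit 0xcf700190f802d7a00757000e07001d178039e800736400dbb401bfb004c05009e5a00f83402221804d62)) 
(.leaf (nat_lit 0xcb6001ac1002c01007618014dc801d73803896006e2c00daf802715803d47)))) (.node (.node 
(.node (.leaf (nat_lit 0x13d68027ad004b0c)) (.leaf (nat_lit 0x9eb4013d680187a80520d))) 
(.leaf (nat_lit 0x9eb4013d680189280603d))) (.node 
(.leaf (nat_lit 0x27ad004f5a00615601651402dac0056ce)) 
(.leaf (nat_lit 0x4f5a009eb400c0c802a6f805124))))))
noncomputable def gt95 : Ix (Nat) := (.node (.node (.node (.node (.node 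
(.leaf (nat_lit 0x38b1006ff200d76001f46004063007cba00f6d801e2880372d007ef400f13401e66803fb1007ee400f32402146003a13007ad000f22801fe9803d52007fc40140980225e8050a600b13000d3c001a7c804873007090010aac022ae0048b0008edc012e4802101803a85007bde00e0dc022fe003ee3007b7400ee1401ec0803e8e008ff000fd0c02d35003e3b00af3600f0b801ded80516e0082ee00fa1801f5b803ef400754600e3740199e0037c90071140122d8029988037f9007b1200e01801bb4003b660076cc00d5dc0246a003a06)) 
(.leaf (nat_lit 0x9eb4013d6801dcb0040540093da013f34021b9803ed9))) 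
(.leaf (nat_lit 0x27ad004f5a00606c00eac801b85803807))) (.node 
(.leaf (nat_lit 0x27ad004f5a0076d400d89401beb00347d)) 
(.leaf (nat_lit 0x13d68027ad0038dc0091380109fc0245100543400a4bc013b0c02770004e5c007f4a00f69401ebb804e8d009e5201386c028cf804cb2)))) 
(.node (.node (.node (.leaf (nat_lit 0x27ad004f5a00745400fcbc01ec7003f8c)) 
(.leaf (nat_lit 0x9eb4013d680216700544200a580014e900278e80558d))) 
(.leaf (nat_lit 0x13d68027ad0037d600a8c4011fdc0317b805f3e00bb52017be002c5a00474000b0ac015374027d3805052))) 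
(.node (.leaf (nat_lit 0x27ad004f5a00540200934001379002da0)) 
(.leaf (nat_lit 0xfe3801e4a0039690085fa010d50024ac00411000866c010384021bf00436e00896a01566c021260043c2007fa801192c02303804878008a4a0122f801f3c003c0c0099de010464021f00043a90087420101a802244803fe500868a010cd8026b20048ac00886a011f0c01e748040240084e8010a54021a500441d0081da011134021e800436b0080700109e0021670041b20081ea00fd3c01fcb8040d700792600f50001f1e8040620076ba00f02c01f1d004454009170010270020c2003fdf0080b000fea802b9f805b25007b6800f83801dfb003a0f))))) 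
(.node (.node (.node (.node (.leaf (nat_lit 0x27ad004f5a0070fa01704c02f2e804f85)) 
(.leaf (nat_lit 0x13d68027ad0046be009e0e013e8c027ce004ec4009b8401374c026c6004a28))) 
(.leaf (nat_lit 0x7be600f6bc01dce8040430081b600fc2801fb780408b0081360104e00205f003df70082bc0103a801ec1804162007b9801082802117803e9300818c0102540201d80451d008404010894023be80400c007d2c00f62801f478040c40083b801056001f0280415600827401061401f368041b60081100101400206200407600803200f88401f98003a5c00814e00fcd801ff4803f440080ba012860024e1803fc70082b80103c802025803feb007f9c011ee40204f803f6800806c00ff4402742803f710080d00100d80266b803fbf007e260101e401fda8040ac00800800ffb001fca003e9b0083a2010b3401f1d003de40089ec00f8b801eb8003c7200894a0104ac02e408040c400bbf801333801f1b005b83007a5601065401e98003f94007848010ea801fd4803fbe007dfa0101d001f86803f0e00801801290802021003f470074a80180f001cf8803ba4))) 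
(.node (.leaf (nat_lit 0x27ad004f5a006dd400f23c020e20041b4)) 
(.leaf (nat_lit 0x13d68027ad0037df0079b0015fa8020378060d90092f800fe8802472004320)))) (.node (.node 
(.leaf (nat_lit 0x27ad004f5a00863e013340029e1804c8b)) 
(.leaf (nat_lit 0x13d68027ad0036e100702600f6ec01be380396f0063ca00d7dc01a15803c070075ba00e7e801d9b003a11))) 
(.node (.leaf (nat_lit 0x27ad004f5a0084e8017c3c02ab9805cf3)) 
(.leaf (nat_lit 0x4f5a009eb401086c02080004ca20078f400ef100214f005458))))))
noncomputable def gt96 : Ix (Nat) := (.node (.node (.node (.node (.node (.node 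
(.leaf (nat_lit 0x37b10068ea0103e801ef880547a007e98013a6401f2d003c2d)) 
(.leaf (nat_lit 0x9eb4013d680151a002dc7))) (.leaf (nat_lit 0x4f5a009eb400d3f802d3c003e89))) (.node 
(.leaf (nat_lit 0x13d68027ad0038e1)) (.leaf (nat_lit 0x9eb4013d6801a0b004680)))) (.node (.node 
(.leaf (nat_lit 0x13d68027ad003f68)) (.leaf (nat_lit 0x9eb4013d680194c00492d))) (.node 
(.leaf (nat_lit 0x13d68027ad003dbb)) (.leaf (nat_lit 0x27ad002c3e005bd8007ff8016cc003278))))) 
(.node (.node (.node (.node (.leaf (nat_lit 0x13d68027ad004315)) 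
(.leaf (nat_lit 0x4f5a009eb400a5c001af6003546))) (.leaf (nat_lit 0x4f5a009eb400bbb001a5c8042a7))) 
(.node (.leaf (nat_lit 0x9eb400be9001bfb00425e)) (.leaf (nat_lit 0x9eb4013d680187e004274)))) (.node 
(.node (.leaf (nat_lit 0x13d68027ad00394a)) (.leaf (nat_lit 0x9eb4013d68018f980440b))) (.node 
(.leaf (nat_lit 0x13d68027ad003d07)) (.leaf (nat_lit 0x27ad004f5a0050e60002100068b8015be)))))) 
(.node (.node (.node (.node (.node (.leaf (nat_lit 0x13d68027ad005211)) 
(.leaf (nat_lit 0x4f5a009eb400bf100229580410f))) (.leaf (nat_lit 0x4f5a009eb400d38802144005135))) 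
(.node (.leaf (nat_lit 0x623a00c85401b66003a8e007fda00f60002480003445)) 
(.leaf (nat_lit 0x9eb4013d68018fe803f24)))) (.node (.node (.leaf (nat_lit 0x13d68027ad003987)) 
(.leaf (nat_lit 0x9eb4013d6801a51804af9))) (.node (.leaf (nat_lit 0x13d68027ad003381)) 
(.leaf (nat_lit 0x27ad002aa90053a6003e7c00fa98027f0))))) (.node (.node (.node (.node 
(.leaf (nat_lit 0x13d68027ad0042ea)) (.leaf (nat_lit 0x9eb4013d680194f803d62))) 
(.leaf (nat_lit 0x4f5a009eb400cf9c0225580463b))) (.node (.leaf (nat_lit 0x13d68027ad0033c3)) 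
(.leaf (nat_lit 0xc8d4016e5002cd2006b2e010bac01af4003566006ac000c9ec01dac003353)))) (.node (.node 
(.leaf (nat_lit 0x13d68027ad004aee)) (.leaf (nat_lit 0x9eb4013d6801a31803e89))) (.node 
(.leaf (nat_lit 0xdb1801a54002d4d00798a01475c02043003b0a00b30400e49001e46005471)) 
(.leaf (nat_lit 0x9eb4013d68016848040b1)))))))
noncomputable def gt97 : Ix (Nat) := (.node (.node (.node (.node (.node 
(.leaf (nat_lit 0xdef401cc200406a0089440120e8029d300555f00ba3c010b24027fe003dbd)) 
(.leaf (nat_lit 0x13d68027ad0035d4))) (.node (.leaf (nat_lit 0x13d68027ad003b59)) 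
(.leaf (nat_lit 0x27ad004f5a00698000c22401746002d8300796e00ee9c01e6e803a6f)))) (.node (.node 
(.leaf (nat_lit 0x13d68027ad0043b8)) 
(.leaf (nat_lit 0x3aac0071c000d29c023c88041b6008c5200f77802075803e930076e000f90c029f60055130076e600f1d001cf30053df008c2c00f1bc01ef00039d8))) 
(.node (.leaf (nat_lit 0x13d68021fa80349a)) (.leaf (nat_lit 0x4f5a009eb400d560024d4804b81))))) 
(.node (.node (.node (.leaf (nat_lit 0x13d68027ad003b67)) (.leaf (nat_lit 0x13d68027ad00348d))) 
(.node (.leaf (nat_lit 0x13d68027ad003c9e)) (.leaf (nat_lit 0x4f5a009eb400d4a401e4380669d)))) 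
(.node (.node (.leaf (nat_lit 0x13d68027ad0048ac)) 
(.leaf (nat_lit 0x27ad004f5a005f8e00349c00d558013d400461600818c01d09803765))) 
(.leaf (nat_lit 0x13d68027ad0033b7))))) (.node (.node (.node (.node 
(.leaf (nat_lit 0x13d68027ad005ecc)) (.leaf (nat_lit 0x13d68027ad003ef9))) (.node 
(.leaf (nat_lit 0x13d68027ad003f9f)) (.leaf (nat_lit 0x13d68027ad00317600438000bb48017ce004050)))) 
(.node (.node (.leaf (nat_lit 0x13d68027ad0041a4)) 
(.leaf (nat_lit 0x27ad004f5a0067d00156ec02aa000532400bbfc017cd802e79803bac))) (.node 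
(.leaf (nat_lit 0x13d6801c52002df6)) (.leaf (nat_lit 0x4f5a009eb400d58401f1b005586))))) (.node 
(.node (.node (.leaf (nat_lit 0x13d68027ad004103)) (.leaf (nat_lit 0x13d68027ad003770))) (.node 
(.leaf (nat_lit 0x2ebe0063b600b1740216a003f8600918401125801ead003b54)) 
(.leaf (nat_lit 0x4f5a009eb400d2e801fa5804288)))) (.node (.node 
(.leaf (nat_lit 0x13d68027ad003801)) (.leaf (nat_lit 0x13d68027ad002e5500477c00a28801e8f803577))) 
(.leaf (nat_lit 0x13d68027ad003d10))))))
noncomputable def gt98 : Ix (Nat) := (.node (.node (.node (.node (.node 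
(.leaf (nat_lit 0x36f900675c0129f401f35004ab90080ea016d200270d803c7e)) 
(.leaf (nat_lit 0x13d68027ad003098))) (.node (.leaf (nat_lit 0x13d68027ad003942)) 
(.leaf (nat_lit 0x4f5a009eb400d66c022d1004676)))) (.node (.node 
(.leaf (nat_lit 0x13d68027ad003b9c)) 
(.leaf (nat_lit 0xe45801e0780317b0080a801248001fc280401a00b48801006c01d25804fb2))) (.node 
(.leaf (nat_lit 0x9eb400bf4401c36804c53)) (.leaf (nat_lit 0x9eb4013d6801b05804c34))))) (.node 
(.node (.node (.leaf (nat_lit 0x13d68027ad003e8d)) (.leaf (nat_lit 0x13d68027ad00318d))) (.node 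
(.leaf (nat_lit 0x13d68027ad003ed0)) (.leaf (nat_lit 0x9eb4013d6801b16005292)))) (.node (.node 
(.leaf (nat_lit 0x13d68027ad0044ad)) (.leaf (nat_lit 0x4f5a009eb400ce7401cc6804609))) 
(.leaf (nat_lit 0x13d68027ad00395c))))) (.node (.node (.node (.node 
(.leaf (nat_lit 0x13d68027ad005539)) (.leaf (nat_lit 0x13d68027ad003f92))) (.node 
(.leaf (nat_lit 0x13d68027ad0045aa)) (.leaf (nat_lit 0x9eb4013d68019af80456c)))) (.node (.node 
(.leaf (nat_lit 0x13d68027ad003879)) (.leaf (nat_lit 0x4f5a009eb400e97402ce3804d79))) (.node 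
(.leaf (nat_lit 0x9eb400a3ac01542803e3b)) (.leaf (nat_lit 0x9eb4013d6801a68804a04))))) (.node 
(.node (.node (.leaf (nat_lit 0x13d68027ad0044bf)) (.leaf (nat_lit 0x13d68027ad003aed))) (.node 
(.leaf (nat_lit 0x5b5000bc2c0175f0033da0083fa00ea1401f898038d5)) 
(.leaf (nat_lit 0x9eb4013d68019c8004402)))) (.node (.node (.leaf (nat_lit 0x13d68027ad0036bd)) 
(.leaf (nat_lit 0x4f5a009eb400c5e801b53003f82))) (.leaf (nat_lit 0x13d68027ad003705))))))
noncomputable def gt99 : Ix (Nat) := (.node (.node (.node (.node 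
(.leaf (nat_lit 0xe25c01c98002f650090fa012c840243e804ca0008ad2014f4802288004cbd0096220149c8023900047f4)) 
(.leaf (nat_lit 0x9eb4013d680189a00395a))) (.node (.leaf (nat_lit 0x9eb4013d6801bf980515c)) 
(.leaf (nat_lit 0x9eb4013d6801a7f80669b)))) (.node (.node (.leaf (nat_lit 0x9eb4013d680196c004c08)) 
(.leaf (nat_lit 0x9eb4013d68017d58049a9))) (.node (.leaf (nat_lit 0x9eb4013d6801a43005273)) 
(.leaf (nat_lit 0x9eb4013d68018ec8054cc))))) (.node (.node (.node 
(.leaf (nat_lit 0x9eb4013d6801af2806188)) (.leaf (nat_lit 0x27ad004f5a005c6201002401f6a0044a0))) 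
(.node (.leaf (nat_lit 0x9eb4013d68018210051ed)) (.leaf (nat_lit 0x9eb4013d6801a468045fc)))) (.node 
(.node (.leaf (nat_lit 0x9eb4013d6801a710050a0)) 
(.leaf (nat_lit 0xf86001dea00332000854e0102f00210d00415b0083a40100140206c8059c700bf8e011b4c02ca9804149))) 
(.node (.leaf (nat_lit 0x13d68027ad00388c)) (.leaf (nat_lit 0x9eb4013d6801a74804f6e))))))
noncomputable def gt100 : Ix (Nat) := (.node (.node (.node (.node (.node 
(.leaf (nat_lit 0xca18019f9002cb100888e00e26001ecc80390700735000d94c01bdf0050a1009be200dbf401c73803968)) 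
(.leaf (nat_lit 0x13d68027ad003fba))) (.leaf (nat_lit 0x9eb4013d68014d38042dc))) (.node 
(.leaf (nat_lit 0x27ad004f5a0057cc00fe3c01ec0803fde)) 
(.leaf (nat_lit 0x27ad004f5a0063a001454c0287b0050c2)))) (.node (.node (.node 
(.leaf (nat_lit 0x9eb4013d680178d004401)) (.leaf (nat_lit 0x13d68027ad003652))) 
(.leaf (nat_lit 0x9eb4013d680191c8060e0))) (.node (.leaf (nat_lit 0x9eb4013d68011ba0036c6)) 
(.leaf (nat_lit 0x39e9006a5000d0840213f0054bb008406010e34020da803f7b))))) (.node (.node (.node 
(.node (.leaf (nat_lit 0x9eb4013d6801983005cac)) (.leaf (nat_lit 0x13d68027ad0039eb))) 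
(.leaf (nat_lit 0xe0a001d91802f57007ef200f8d801fac0041f3007c8801513401eb78053ab007a5a00f2a001e2e803a44))) 
(.node (.leaf (nat_lit 0x9eb4013d68014d00047bc)) (.leaf (nat_lit 0x9eb4013d6801953004f68)))) (.node 
(.node (.leaf (nat_lit 0x27ad004f5a006288013dc402981805612)) 
(.leaf (nat_lit 0x9eb4013d68015980048e7))) (.node (.leaf (nat_lit 0x9eb4013d680192c005e01)) 
(.leaf (nat_lit 0x13d68027ad004bfb))))))

noncomputable def gtx : Ix (Ix (Nat)) := (.node (.node (.node (.node (.node (.node (.node 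
(.leaf gt0) (.leaf gt64)) (.node (.leaf gt32) (.leaf gt96))) (.node (.node (.leaf gt16) 
(.leaf gt80)) (.leaf gt48))) (.node (.node (.node (.leaf gt8) (.leaf gt72)) (.leaf gt40)) (.node 
(.node (.leaf gt24) (.leaf gt88)) (.leaf gt56)))) (.node (.node (.node (.node (.leaf gt4) 
(.leaf gt68)) (.node (.leaf gt36) (.leaf gt100))) (.node (.node (.leaf gt20) (.leaf gt84)) 
(.leaf gt52))) (.node (.node (.node (.leaf gt12) (.leaf gt76)) (.leaf gt44)) (.node (.node 
(.leaf gt28) (.leaf gt92)) (.leaf gt60))))) (.node (.node (.node (.node (.node (.leaf gt2) 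
(.leaf gt66)) (.node (.leaf gt34) (.leaf gt98))) (.node (.node (.leaf gt18) (.leaf gt82)) 
(.leaf gt50))) (.node (.node (.node (.leaf gt10) (.leaf gt74)) (.leaf gt42)) (.node (.node 
(.leaf gt26) (.leaf gt90)) (.leaf gt58)))) (.node (.node (.node (.node (.leaf gt6) (.leaf gt70)) 
(.leaf gt38)) (.node (.node (.leaf gt22) (.leaf gt86)) (.leaf gt54))) (.node (.node (.node 
(.leaf gt14) (.leaf gt78)) (.leaf gt46)) (.node (.node (.leaf gt30) (.leaf gt94)) (.leaf gt62)))))) 
(.node (.node (.node (.node (.node (.node (.leaf gt1) (.leaf gt65)) (.node (.leaf gt33) 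
(.leaf gt97))) (.node (.node (.leaf gt17) (.leaf gt81)) (.leaf gt49))) (.node (.node (.node 
(.leaf gt9) (.leaf gt73)) (.leaf gt41)) (.node (.node (.leaf gt25) (.leaf gt89)) (.leaf gt57)))) 
(.node (.node (.node (.node (.leaf gt5) (.leaf gt69)) (.leaf gt37)) (.node (.node (.leaf gt21) 
(.leaf gt85)) (.leaf gt53))) (.node (.node (.node (.leaf gt13) (.leaf gt77)) (.leaf gt45)) (.node 
(.node (.leaf gt29) (.leaf gt93)) (.leaf gt61))))) (.node (.node (.node (.node (.node (.leaf gt3) 
(.leaf gt67)) (.node (.leaf gt35) (.leaf gt99))) (.node (.node (.leaf gt19) (.leaf gt83)) 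
(.leaf gt51))) (.node (.node (.node (.leaf gt11) (.leaf gt75)) (.leaf gt43)) (.node (.node 
(.leaf gt27) (.leaf gt91)) (.leaf gt59)))) (.node (.node (.node (.node (.leaf gt7) (.leaf gt71)) 
(.leaf gt39)) (.node (.node (.leaf gt23) (.leaf gt87)) (.leaf gt55))) (.node (.node (.node 
(.leaf gt15) (.leaf gt79)) (.leaf gt47)) (.node (.node (.leaf gt31) (.leaf gt95)) (.leaf gt63)))))))

noncomputable def PGT (k o : Nat) : Nat := (Ix.get gtx k).get o

noncomputable def vt0 : Ix (Nat) := (.node (.node (.node (.node (.node (.node (.node (.node (.node 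
(.leaf (nat_lit 0x0)) (.leaf (nat_lit 0x0))) (.node (.leaf (nat_lit 0x0)) 
(.leaf (nat_lit 0x200632400900000000000000000004022ac00000000000)))) (.node (.node 
(.leaf (nat_lit 0x0)) 
(.leaf (nat_lit 0x400a28801998000000000000000000000000000000000000000000000000000000000000000000000000000000000000000000000000000000000000000000000000000000000000000000000000000000000000000000000000000000000000000000000000000000000000000000000000000000000000000000000000000000000000000000000000000000000000000000000000000000000000000000000000000000000000000000000000000000000000000000000000000000000000000000000000000000000000000000000000000000000000000000000000000000000000000000000000000000000000000000000000000000000000000000000000000000000000000000000000000000000000000000000000000002006780000000000000000000000000000000000000000000000000000000000000000000000000000000000000000000000000000000000000))) 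
(.leaf (nat_lit 0x20018e00000000000000000201a9640151400000000000)))) (.node (.node (.node 
(.leaf (nat_lit 0x80042800000000000000000000000000000000000000000000000000000000000000000000000000000000000000000000000000000000000000000000000000000000000000000000000)) 
(.leaf (nat_lit 0x2030ce40cd58812c2101fda20234e404ca880c7d1013fe2027b6403c44807ac903d7e203e5640cf6480caa101b7b2019e4403b948064410182f))) 
(.leaf (nat_lit 0x0))) (.node (.node (.leaf (nat_lit 0x2006ba4000d800000000000)) 
(.leaf (nat_lit 0x0))) (.leaf (nat_lit 0x0))))) (.node (.node (.node (.node (.leaf (nat_lit 0x0)) 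
(.leaf (nat_lit 0x0))) (.node 
(.leaf (nat_lit 0x400d48000000000000000000000008003400000000000000000000000000000000000000000000000000000000000000000000000000000000000000000000000000)) 
(.leaf (nat_lit 0x0)))) (.node (.node (.leaf (nat_lit 0x0)) 
(.leaf (nat_lit 0x1004822002b0402310804dd100afa2016080000008003d000000))) (.leaf (nat_lit 0x0)))) 
(.node (.node (.node (.leaf (nat_lit 0x0)) (.leaf (nat_lit 0x801d41000d3))) (.leaf (nat_lit 0x0))) 
(.node (.node (.leaf (nat_lit 0x402fc80000010009f)) (.leaf (nat_lit 0x0))) 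
(.leaf (nat_lit 0x0)))))) (.node (.node (.node (.node (.node (.leaf (nat_lit 0x0)) 
(.leaf (nat_lit 0x0))) (.node (.leaf (nat_lit 0x0)) 
(.leaf (nat_lit 0x1009c2201e464016ec8069f100a3c)))) (.node (.node (.leaf (nat_lit 0x0)) 
(.leaf (nat_lit 0x0))) (.leaf (nat_lit 0x0)))) (.node (.node (.node (.leaf (nat_lit 0x0)) 
(.leaf (nat_lit 0x400df08000d800000000000400f68000000000000000000000000000010162d20260c402cac8045900000000000000000000000000000))) 
(.leaf (nat_lit 0x800281000c0000000000000000000000000000004002a40000010003b))) (.node (.node 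
(.leaf (nat_lit 0x2001660000000000000000000000040031800000000000)) (.leaf (nat_lit 0x0))) 
(.leaf (nat_lit 0x0))))) (.node (.node (.node (.node (.leaf (nat_lit 0x0)) (.leaf (nat_lit 0x0))) 
(.node (.leaf (nat_lit 0x0)) (.leaf (nat_lit 0x0)))) (.node (.node 
(.leaf (nat_lit 0x401c448031b900853000000000000801bd9002e800000000000080011000000200e8e401e94800c2000000)) 
(.leaf (nat_lit 0x0))) (.leaf (nat_lit 0x0)))) (.node (.node (.node (.leaf (nat_lit 0x0)) 
(.leaf (nat_lit 0x2015e6400264000001000f1000000400050803320000002018c0402fa880119901cd120030240256800000000000000000405848000001025f6000000400908000000000000000000000000000010070a00000000000000000000000000000000000000000000000000000000000000000000000000000000000000000000000000400eac0000000000020104040383c804f910050b00000000000000000000000000000406f84000001001c20000000000000000000000000000000000000000000000000000000000800d500000000000000000000000100a81201f8a00000000000101b6a00000000000000000100a53000000400158000000000000000000000000000000000000000040281000000100e700000004020dc8014a9003d1000000000000801ef80000000000000000000000000000200ce64015148011d9003a500000040208c000001000dc000000000000000000000000000000000000000000000000000000000000000000000)))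 
(.leaf (nat_lit 0x20058e000000000000000000000000000000000000000020041e401cf400000000000200a3e0000000000000000000000000000000000000000000000000000000000000000000000000000000000000000000000000000000000000000000000000000000000000000000000000000000000000000000000000000000000000000000000000000000000000000000000000000000000000000000000000000000000000000000000000000000000000000000000000000000000000000000000000000000000000000800f9000000000000000000000000000000000000000000000000000000000000000000000000000000000000000000000000000000000000000000000000000000000000000000000000000000401198000001000d0000000000000000000000000000000000000000000000000000000000000000000000))) 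
(.node (.node (.leaf (nat_lit 0x1010e200000000000000000000000)) (.leaf (nat_lit 0x0))) 
(.leaf (nat_lit 0x0))))))) (.node (.node (.node (.node (.node (.node (.leaf (nat_lit 0x0)) 
(.leaf (nat_lit 0x0))) (.node (.leaf (nat_lit 0x0)) 
(.leaf (nat_lit 0x2007600000000000000000020098c00000000000000000000000000000000000000000000000000000000000000000000000000000000100001000000000000000000000000000000000000000010032c20069e000000000001002bd0000000000000000000000000000000000000000000000000000000000000000000000000000000000000010023800000000000000000000000000000000000000000000000000000000000000000000000000000000000000000000)))) 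
(.node (.node (.leaf (nat_lit 0x0)) (.leaf (nat_lit 0x0))) 
(.leaf (nat_lit 0x8004900000020008a0000000000000000000000040030c00000000000)))) (.node (.node 
(.node (.leaf (nat_lit 0x0)) (.leaf (nat_lit 0x0))) 
(.leaf (nat_lit 0x401c448031b900853000000000000801bd9002e800000000000080011000000200e8e401e94800c2000000))) 
(.node (.node (.leaf (nat_lit 0x0)) (.leaf (nat_lit 0x0))) 
(.leaf (nat_lit 0x4004e4800940000000000000000008001b80000000000000000000000000000000000000000000000000002000a04001880000000000000000000000000000000000))))) 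
(.node (.node (.node (.node (.leaf (nat_lit 0x0)) (.leaf (nat_lit 0x0))) (.node 
(.leaf (nat_lit 0x0)) (.leaf (nat_lit 0x8013d1006ee200f3240287c802351009d4)))) (.node (.node 
(.leaf (nat_lit 0x0)) (.leaf (nat_lit 0x0))) (.leaf (nat_lit 0x0)))) (.node (.node (.node 
(.leaf (nat_lit 0x0)) (.leaf (nat_lit 0x0))) 
(.leaf (nat_lit 0x8008880000000000000000000000000000000000000000000000000002006184016e000000000000))) 
(.node (.node (.leaf (nat_lit 0x20018e00000000000000000201a9640151400000000000)) 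
(.leaf (nat_lit 0x0))) (.leaf (nat_lit 0x0)))))) (.node (.node (.node (.node (.node 
(.leaf (nat_lit 0x0)) (.leaf (nat_lit 0x0))) (.node 
(.leaf (nat_lit 0x8002b90005b0000000000000000000000000000000000000000000000)) 
(.leaf (nat_lit 0x0)))) (.node (.node (.leaf (nat_lit 0x0)) 
(.leaf (nat_lit 0x10009b000000000000806c810170e00000000000000000100a19000000000000000000000000000000000000000000000000000000000000000000000000000000000000000000000000000000000000000000000000000000000000000000000000000000000000000000000000000000000000000000000000000000000000000000000000000000000000000000000000008043690043e200366401f100000010082a20186c40040880212900c080000000000000000000000000000000000000000000000201a92401a1800000100e5a00000000000000000000000000000000000000001000430000004038d40000000000020070c40043c00000000000000000000000000001009ea2027a24065d40000000000000000000000000000000000000000000000802f5800000200f660000008001f000000200dc200000000000000000000000401a4000000000000000000000000804d300000000000000000080762100a2f000000401d4000000000000)))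 
(.leaf (nat_lit 0x0)))) (.node (.node (.node (.leaf (nat_lit 0x0)) 
(.leaf (nat_lit 0x2002fc4053d8806f09014d020207a403fa48054a900bc8))) 
(.leaf (nat_lit 0x2006ba4000d800000000000))) (.node (.node 
(.leaf (nat_lit 0x20058e000000000000000000000000000000000000000020041e401cf400000000000200a3e0000000000000000000000000000000000000000000000000000000000000000000000000000000000000000000000000000000000000000000000000000000000000000000000000000000000000000000000000000000000000000000000000000000000000000000000000000000000000000000000000000000000000000000000000000000000000000000000000000000000000000000000000000000000000000800f9000000000000000000000000000000000000000000000000000000000000000000000000000000000000000000000000000000000000000000000000000000000000000000000000000000401198000001000d0000000000000000000000000000000000000000000000000000000000000000000000)) 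
(.leaf (nat_lit 0x8017200000020073e40183c80127900670))) (.leaf (nat_lit 0x0))))) (.node (.node 
(.node (.node (.leaf (nat_lit 0x20006e00000000000000000)) (.leaf (nat_lit 0x0))) (.node 
(.leaf (nat_lit 0x0)) (.leaf (nat_lit 0x0)))) (.node (.node 
(.leaf (nat_lit 0x800281000c0000000000000000000000000000004002a40000010003b)) 
(.leaf (nat_lit 0x201860402f1880910100b5b))) (.leaf (nat_lit 0x0)))) (.node (.node (.node 
(.leaf (nat_lit 0x0)) 
(.leaf (nat_lit 0x402c0080d4f90230b2048e04090d080b52102814201744409d4c80626900cb6))) 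
(.leaf (nat_lit 0x402fc80000010009f))) (.node (.node 
(.leaf (nat_lit 0x8038310054c000000000000000000000000000000000000000000000000000000000000000000000)) 
(.leaf (nat_lit 0x2002760000008066190138620401840676480b16100ef02017e04022388061c900ccc2046f0404d9c80c5110069a))) 
(.leaf (nat_lit 0x0)))))))) (.node (.node (.node (.node (.node (.node (.node (.leaf (nat_lit 0x0)) 
(.leaf (nat_lit 0x0))) (.node (.leaf (nat_lit 0x0)) (.leaf (nat_lit 0x200c3000000000000000000)))) 
(.node (.node (.leaf (nat_lit 0x0)) 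
(.leaf (nat_lit 0x4006b80000010039a2005ba000000000000000000000000000000000010059420075c4016508006a10035d2001e800000000000000000))) 
(.leaf (nat_lit 0x4019d00000000000000000000000000000000000)))) (.node (.node (.node 
(.leaf (nat_lit 0x800738000000000000000000000000000020052600000000000000000)) 
(.leaf (nat_lit 0x2030ce40cd58812c2101fda20234e404ca880c7d1013fe2027b6403c44807ac903d7e203e5640cf6480caa101b7b2019e4403b948064410182f))) 
(.leaf (nat_lit 0x0))) (.node (.node (.leaf (nat_lit 0x0)) (.leaf (nat_lit 0x0))) 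
(.leaf (nat_lit 0x0))))) (.node (.node (.node (.node (.leaf (nat_lit 0x0)) (.leaf (nat_lit 0x0))) 
(.node (.leaf (nat_lit 0x0)) 
(.leaf (nat_lit 0x1001b3000000000000000000000000000000000000000000000000000000000000000000000000000000000000000000000000000000000000000000000000000000000000000000000000000000000000000000000000000000000000000000000000000000000000000000000000000000000000000000000000000000000000000000000000000000000000000000000000000000000000000000000000000000000000000000000000000000000000000000000000000000000000000000000000000000000000000000000000000000)))) 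
(.node (.node (.leaf (nat_lit 0x0)) (.leaf (nat_lit 0x0))) (.leaf (nat_lit 0x0)))) (.node (.node 
(.node (.leaf (nat_lit 0x0)) 
(.leaf (nat_lit 0x400a28801998000000000000000000000000000000000000000000000000000000000000000000000000000000000000000000000000000000000000000000000000000000000000000000000000000000000000000000000000000000000000000000000000000000000000000000000000000000000000000000000000000000000000000000000000000000000000000000000000000000000000000000000000000000000000000000000000000000000000000000000000000000000000000000000000000000000000000000000000000000000000000000000000000000000000000000000000000000000000000000000000000000000000000000000000000000000000000000000000000000000000000000000000000002006780000000000000000000000000000000000000000000000000000000000000000000000000000000000000000000000000000000000000))) 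
(.leaf (nat_lit 0x2001660000000000000000000000040031800000000000))) (.node (.node 
(.leaf (nat_lit 0x2013ec0000000000000000000000000000000000000000)) (.leaf (nat_lit 0x0))) 
(.leaf (nat_lit 0x0)))))) (.node (.node (.node (.node (.node (.leaf (nat_lit 0x0)) 
(.leaf (nat_lit 0x0))) (.node (.leaf (nat_lit 0x0)) (.leaf (nat_lit 0x0)))) (.node (.node 
(.leaf (nat_lit 0x0)) (.leaf (nat_lit 0x0))) 
(.leaf (nat_lit 0x8038310054c000000000000000000000000000000000000000000000000000000000000000000000)))) 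
(.node (.node (.node (.leaf (nat_lit 0x0)) 
(.leaf (nat_lit 0x2015e6400264000001000f1000000400050803320000002018c0402fa880119901cd120030240256800000000000000000405848000001025f6000000400908000000000000000000000000000010070a00000000000000000000000000000000000000000000000000000000000000000000000000000000000000000000000000400eac0000000000020104040383c804f910050b00000000000000000000000000000406f84000001001c20000000000000000000000000000000000000000000000000000000000800d500000000000000000000000100a81201f8a00000000000101b6a00000000000000000100a53000000400158000000000000000000000000000000000000000040281000000100e700000004020dc8014a9003d1000000000000801ef80000000000000000000000000000200ce64015148011d9003a500000040208c000001000dc000000000000000000000000000000000000000000000000000000000000000000000))) 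
(.leaf (nat_lit 0x0))) (.node (.node (.leaf (nat_lit 0x20026400000000000000000)) 
(.leaf (nat_lit 0x806779009b32030804096fc80711100b07))) (.leaf (nat_lit 0x0))))) (.node (.node 
(.node (.node (.leaf (nat_lit 0x0)) (.leaf (nat_lit 0x0))) (.node (.leaf (nat_lit 0x0)) 
(.leaf (nat_lit 0x0)))) (.node (.node 
(.leaf (nat_lit 0x8001e9005f420090a405ac880888101095200388401bf080147800000)) 
(.leaf (nat_lit 0x0))) (.leaf (nat_lit 0x0)))) (.node (.node (.node (.leaf (nat_lit 0x0)) 
(.leaf (nat_lit 0x2002fc4053d8806f09014d020207a403fa48054a900bc8))) 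
(.leaf (nat_lit 0x401048802309001de20069a4011480000010082920091c40163800000000000000000000000801d490005b200b484014c480396900dcc200e56402c3c00000000000))) 
(.node (.node (.leaf (nat_lit 0x8004900000020008a0000000000000000000000040030c00000000000)) 
(.leaf (nat_lit 0x20256640328c00000100a8c000000401d648013410016c))) (.leaf (nat_lit 0x0))))))) 
(.node (.node (.node (.node (.node (.node (.leaf (nat_lit 0x0)) (.leaf (nat_lit 0x0))) (.node 
(.leaf (nat_lit 0x0)) (.leaf (nat_lit 0x2008b24016b880427100541)))) (.node (.node 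
(.leaf (nat_lit 0x0)) (.leaf (nat_lit 0x0))) (.leaf (nat_lit 0x1010e200000000000000000000000)))) 
(.node (.node (.node (.leaf (nat_lit 0x0)) 
(.leaf (nat_lit 0x400df08000d800000000000400f68000000000000000000000000000010162d20260c402cac8045900000000000000000000000000000))) 
(.leaf (nat_lit 0x8001e9005f420090a405ac880888101095200388401bf080147800000))) (.node (.node 
(.leaf (nat_lit 0x8008880000000000000000000000000000000000000000000000000002006184016e000000000000)) 
(.leaf (nat_lit 0x0))) (.leaf (nat_lit 0x0))))) (.node (.node (.node (.node (.leaf (nat_lit 0x0)) 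
(.leaf (nat_lit 0x0))) (.node (.leaf (nat_lit 0x0)) 
(.leaf (nat_lit 0x80455100b1c200610401ca080453100418)))) (.node (.node (.leaf (nat_lit 0x0)) 
(.leaf (nat_lit 0x10014a20074c400db40000010039e20096800000080020000000))) (.leaf (nat_lit 0x0)))) 
(.node (.node (.node (.leaf (nat_lit 0x0)) 
(.leaf (nat_lit 0x4006b80000010039a2005ba000000000000000000000000000000000010059420075c4016508006a10035d2001e800000000000000000))) 
(.leaf (nat_lit 0x20026400000000000000000))) (.node (.node 
(.leaf (nat_lit 0x4019d00000000000000000000000000000000000)) (.leaf (nat_lit 0x0))) 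
(.leaf (nat_lit 0x0)))))) (.node (.node (.node (.node (.node (.leaf (nat_lit 0x0)) 
(.leaf (nat_lit 0x0))) (.node (.leaf (nat_lit 0x0)) (.leaf (nat_lit 0x0)))) (.node (.node 
(.leaf (nat_lit 0x0)) (.leaf (nat_lit 0x0))) (.leaf (nat_lit 0x0)))) (.node (.node (.node 
(.leaf (nat_lit 0x0)) 
(.leaf (nat_lit 0x402c0080d4f90230b2048e04090d080b52102814201744409d4c80626900cb6))) 
(.leaf (nat_lit 0x0))) (.node (.node 
(.leaf (nat_lit 0x401048802309001de20069a4011480000010082920091c40163800000000000000000000000801d490005b200b484014c480396900dcc200e56402c3c00000000000)) 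
(.leaf (nat_lit 0x0))) (.leaf (nat_lit 0x0))))) (.node (.node (.node (.node (.leaf (nat_lit 0x0)) 
(.leaf (nat_lit 0x0))) (.node (.leaf (nat_lit 0x0)) (.leaf (nat_lit 0x0)))) (.node (.node 
(.leaf (nat_lit 0x0)) (.leaf (nat_lit 0x200d5040128c8025990078a))) (.leaf (nat_lit 0x0)))) (.node 
(.node (.node (.leaf (nat_lit 0x0)) (.leaf (nat_lit 0x801d41000d3))) 
(.leaf (nat_lit 0x2013ec0000000000000000000000000000000000000000))) (.node (.node 
(.leaf (nat_lit 0x0)) 
(.leaf (nat_lit 0x2001cc000000000000000000000000000000000000000000000000000000000000000000000000000000000000000000000000000000000000000000000000000000000000000000000000000000000000000000000000000000000000000000000000000000000))) 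
(.leaf (nat_lit 0x0))))))))) (.node (.node (.node (.node (.node (.node (.node (.node 
(.leaf (nat_lit 0x0)) 
(.leaf (nat_lit 0x4003348006f9000f120006e000000000000000000000000000000000000000000000000000000000000000000000000000000000000000000004003348006f9000f120006e0000000000000000000000000000000000000000000000000000000000000000000000000000000000000000000000000000000000000000000000000000000000000000000000000000000000000000000000000000000000000000000000000000000000000000000000000000000000000000000000000000000000000000000000000000000000000000000000000000000000000000000000000000000000000000000000000000000000000000000000000000000000000000000000000))) 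
(.node (.leaf (nat_lit 0x0)) 
(.leaf (nat_lit 0x10014a20074c400db40000010039e20096800000080020000000)))) (.node (.node 
(.leaf (nat_lit 0x0)) (.leaf (nat_lit 0x0))) 
(.leaf (nat_lit 0x400d9c00000000000000000000000000000000000000000000000000000000000000000000000000000000000000000000000000000000000000000008000c800000000000000000000000000000000000000000000000000000000000000000000000000)))) 
(.node (.node (.node (.leaf (nat_lit 0x0)) 
(.leaf (nat_lit 0x1004b50000004012c800000000000200ae8401a6880338100346))) (.leaf (nat_lit 0x0))) 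
(.node (.node (.leaf (nat_lit 0x0)) (.leaf (nat_lit 0x0))) 
(.leaf (nat_lit 0x8002b90005b0000000000000000000000000000000000000000000000))))) (.node (.node 
(.node (.node (.leaf (nat_lit 0x0)) (.leaf (nat_lit 0x0))) (.node (.leaf (nat_lit 0x0)) 
(.leaf (nat_lit 0x0)))) (.node (.node (.leaf (nat_lit 0x0)) 
(.leaf (nat_lit 0x2001cc000000000000000000000000000000000000000000000000000000000000000000000000000000000000000000000000000000000000000000000000000000000000000000000000000000000000000000000000000000000000000000000000000000000))) 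
(.leaf (nat_lit 0x0)))) (.node (.node (.node (.leaf (nat_lit 0x0)) 
(.leaf (nat_lit 0x202bbe4034a480ae8101a5b20296440320080f69101f16))) (.leaf (nat_lit 0x0))) (.node 
(.node (.leaf (nat_lit 0x2000ee400348000001002410000004024388026a100712000000403c60000001001a7)) 
(.leaf (nat_lit 0x0))) (.leaf (nat_lit 0x0)))))) (.node (.node (.node (.node (.node 
(.leaf (nat_lit 0x0)) (.leaf (nat_lit 0x10045c0000004008c00000010017b))) (.node 
(.leaf (nat_lit 0x0)) (.leaf (nat_lit 0x201860402f1880910100b5b)))) (.node (.node 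
(.leaf (nat_lit 0x0)) (.leaf (nat_lit 0x0))) (.leaf (nat_lit 0x0)))) (.node (.node (.node 
(.leaf (nat_lit 0x0)) (.leaf (nat_lit 0x0))) (.leaf (nat_lit 0x0))) (.node (.node 
(.leaf (nat_lit 0x1007950000004003cc805d71007582007ca00000000000100247)) 
(.leaf (nat_lit 0x80455100b1c200610401ca080453100418))) (.leaf (nat_lit 0x0))))) (.node (.node 
(.node (.node (.leaf (nat_lit 0x0)) 
(.leaf (nat_lit 0x800df80000000000000000000000000000000000000000000000000000000000000000000000000000000000000000000000000000000000000800df8000000000000000000000000000000000000000000000000000000000000000000000000000000000000000000000000000000000000000000000000000000000000000000000000000000000000000000000000000000000000000000000000000000000000000000000000000000000000000000000000000000000000000000000000000000000000000000000000000000000000000000000000000000000000000))) 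
(.node (.leaf (nat_lit 0x0)) (.leaf (nat_lit 0x8017200000020073e40183c80127900670)))) (.node (.node 
(.leaf (nat_lit 0x401c488026510037e00000000000080026800000)) 
(.leaf (nat_lit 0x2008b24016b880427100541))) (.leaf (nat_lit 0x0)))) (.node (.node (.node 
(.leaf (nat_lit 0x0)) (.leaf (nat_lit 0x0))) (.leaf (nat_lit 0x0))) (.node (.node 
(.leaf (nat_lit 0x0)) 
(.leaf (nat_lit 0x10009b000000000000806c810170e00000000000000000100a19000000000000000000000000000000000000000000000000000000000000000000000000000000000000000000000000000000000000000000000000000000000000000000000000000000000000000000000000000000000000000000000000000000000000000000000000000000000000000000000000008043690043e200366401f100000010082a20186c40040880212900c080000000000000000000000000000000000000000000000201a92401a1800000100e5a00000000000000000000000000000000000000001000430000004038d40000000000020070c40043c00000000000000000000000000001009ea2027a24065d40000000000000000000000000000000000000000000000802f5800000200f660000008001f000000200dc200000000000000000000000401a4000000000000000000000000804d300000000000000000080762100a2f000000401d4000000000000)))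 
(.leaf (nat_lit 0x0))))))) (.node (.node (.node (.node (.node (.node (.leaf (nat_lit 0x0)) 
(.leaf (nat_lit 0x0))) (.node (.leaf (nat_lit 0x0)) (.leaf (nat_lit 0x0)))) (.node (.node 
(.leaf (nat_lit 0x0)) (.leaf (nat_lit 0x0))) 
(.leaf (nat_lit 0x4000c8000000000000000004008880000000000000000000000000000000000000000000000000000000000000000000000000000000000000000000000000000000)))) 
(.node (.node (.node (.leaf (nat_lit 0x0)) (.leaf (nat_lit 0x0))) 
(.leaf (nat_lit 0x401c488026510037e00000000000080026800000))) (.node (.node (.leaf (nat_lit 0x0)) 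
(.leaf (nat_lit 0x1001b3000000000000000000000000000000000000000000000000000000000000000000000000000000000000000000000000000000000000000000000000000000000000000000000000000000000000000000000000000000000000000000000000000000000000000000000000000000000000000000000000000000000000000000000000000000000000000000000000000000000000000000000000000000000000000000000000000000000000000000000000000000000000000000000000000000000000000000000000000000))) 
(.leaf (nat_lit 0x400d48000000000000000000000008003400000000000000000000000000000000000000000000000000000000000000000000000000000000000000000000000000))))) 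
(.node (.node (.node (.node 
(.leaf (nat_lit 0x80042800000000000000000000000000000000000000000000000000000000000000000000000000000000000000000000000000000000000000000000000000000000000000000000000)) 
(.leaf (nat_lit 0x0))) (.node (.leaf (nat_lit 0x0)) (.leaf (nat_lit 0x0)))) (.node (.node 
(.leaf (nat_lit 0x0)) (.leaf (nat_lit 0x200632400900000000000000000004022ac00000000000))) 
(.leaf (nat_lit 0x0)))) (.node (.node (.node (.leaf (nat_lit 0x0)) (.leaf (nat_lit 0x0))) 
(.leaf (nat_lit 0x0))) (.node (.node 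
(.leaf (nat_lit 0x400d9c00000000000000000000000000000000000000000000000000000000000000000000000000000000000000000000000000000000000000000008000c800000000000000000000000000000000000000000000000000000000000000000000000000)) 
(.leaf (nat_lit 0x0))) (.leaf (nat_lit 0x0)))))) (.node (.node (.node (.node (.node 
(.leaf (nat_lit 0x0)) (.leaf (nat_lit 0x0))) (.node (.leaf (nat_lit 0x0)) (.leaf (nat_lit 0x0)))) 
(.node (.node (.leaf (nat_lit 0x0)) 
(.leaf (nat_lit 0x2002760000008066190138620401840676480b16100ef02017e04022388061c900ccc2046f0404d9c80c5110069a))) 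
(.leaf (nat_lit 0x0)))) (.node (.node (.node (.leaf (nat_lit 0x0)) 
(.leaf (nat_lit 0x809109014a22013da408104807b690166f2017924001e080199800000))) 
(.leaf (nat_lit 0x0))) (.node (.node (.leaf (nat_lit 0x0)) (.leaf (nat_lit 0x0))) 
(.leaf (nat_lit 0x0))))) (.node (.node (.node (.node (.leaf (nat_lit 0x0)) (.leaf (nat_lit 0x0))) 
(.node (.leaf (nat_lit 0x0)) (.leaf (nat_lit 0x0)))) (.node (.node (.leaf (nat_lit 0x0)) 
(.leaf (nat_lit 0x0))) (.leaf (nat_lit 0x0)))) (.node (.node (.node (.leaf (nat_lit 0x0)) 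
(.leaf (nat_lit 0x101177201cf040a1708245c102763204d1240d26c80754902185))) 
(.leaf (nat_lit 0x2000ee400348000001002410000004024388026a100712000000403c60000001001a7))) (.node 
(.node (.leaf (nat_lit 0x0)) (.leaf (nat_lit 0x0))) (.leaf (nat_lit 0x0)))))))) (.node (.node 
(.node (.node (.node (.node (.node (.leaf (nat_lit 0x0)) (.leaf (nat_lit 0x0))) (.node 
(.leaf (nat_lit 0x0)) (.leaf (nat_lit 0x0)))) (.node (.node (.leaf (nat_lit 0x0)) 
(.leaf (nat_lit 0x0))) (.leaf (nat_lit 0x0)))) (.node (.node (.node (.leaf (nat_lit 0x0)) 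
(.leaf (nat_lit 0x1004b50000004012c800000000000200ae8401a6880338100346))) (.leaf (nat_lit 0x0))) 
(.node (.node (.leaf (nat_lit 0x0)) (.leaf (nat_lit 0x0))) (.leaf (nat_lit 0x0))))) (.node (.node 
(.node (.node (.leaf (nat_lit 0x0)) (.leaf (nat_lit 0x0))) (.node (.leaf (nat_lit 0x0)) 
(.leaf (nat_lit 0x0)))) (.node (.node 
(.leaf (nat_lit 0x8010e0000002004b60000008021f8000002007ee00000000000000000)) 
(.leaf (nat_lit 0x200c3000000000000000000))) (.leaf (nat_lit 0x0)))) (.node (.node (.node 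
(.leaf (nat_lit 0x0)) (.leaf (nat_lit 0x0))) 
(.leaf (nat_lit 0x1007950000004003cc805d71007582007ca00000000000100247))) (.node (.node 
(.leaf (nat_lit 0x2006084013a0802f390006e2017264011e8801011000b82002e0401cd0800c48000000000004002000000010055200000000000000000000000)) 
(.leaf (nat_lit 0x0))) (.leaf (nat_lit 0x0)))))) (.node (.node (.node (.node (.node 
(.leaf (nat_lit 0x0)) (.leaf (nat_lit 0x10045c0000004008c00000010017b))) (.node 
(.leaf (nat_lit 0x0)) (.leaf (nat_lit 0x200d5040128c8025990078a)))) (.node (.node 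
(.leaf (nat_lit 0x0)) (.leaf (nat_lit 0x0))) (.leaf (nat_lit 0x0)))) (.node (.node (.node 
(.leaf (nat_lit 0x0)) (.leaf (nat_lit 0x0))) (.leaf (nat_lit 0x0))) (.node (.node 
(.leaf (nat_lit 0x0)) (.leaf (nat_lit 0x0))) (.leaf (nat_lit 0x0))))) (.node (.node (.node (.node 
(.leaf (nat_lit 0x0)) (.leaf (nat_lit 0x0))) (.node (.leaf (nat_lit 0x0)) (.leaf (nat_lit 0x0)))) 
(.node (.node (.leaf (nat_lit 0x0)) (.leaf (nat_lit 0x1009c2201e464016ec8069f100a3c))) 
(.leaf (nat_lit 0x0)))) (.node (.node (.node (.leaf (nat_lit 0x0)) 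
(.leaf (nat_lit 0x809109014a22013da408104807b690166f2017924001e080199800000))) 
(.leaf (nat_lit 0x201088402fe4804e390060d201aca40258480192100729200dc0000000806548000002010b64035e8802ae1007d5201292402e04800d49002d0))) 
(.node (.node (.leaf (nat_lit 0x0)) 
(.leaf (nat_lit 0x1004822002b0402310804dd100afa2016080000008003d000000))) 
(.leaf (nat_lit 0x0))))))) (.node (.node (.node (.node (.node (.node (.leaf (nat_lit 0x0)) 
(.leaf (nat_lit 0x0))) (.node (.leaf (nat_lit 0x0)) (.leaf (nat_lit 0x0)))) (.node (.node 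
(.leaf (nat_lit 0x0)) (.leaf (nat_lit 0x0))) (.leaf (nat_lit 0x0)))) (.node (.node (.node 
(.leaf (nat_lit 0x20006e00000000000000000)) (.leaf (nat_lit 0x0))) (.leaf (nat_lit 0x0))) (.node 
(.node (.leaf (nat_lit 0x0)) (.leaf (nat_lit 0x8013d1006ee200f3240287c802351009d4))) 
(.leaf (nat_lit 0x0))))) (.node (.node (.node (.node 
(.leaf (nat_lit 0x800738000000000000000000000000000020052600000000000000000)) 
(.leaf (nat_lit 0x0))) (.node (.leaf (nat_lit 0x0)) 
(.leaf (nat_lit 0x806779009b32030804096fc80711100b07)))) (.node (.node (.leaf (nat_lit 0x0)) 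
(.leaf (nat_lit 0x2007600000000000000000020098c00000000000000000000000000000000000000000000000000000000000000000000000000000000100001000000000000000000000000000000000000000010032c20069e000000000001002bd0000000000000000000000000000000000000000000000000000000000000000000000000000000000000010023800000000000000000000000000000000000000000000000000000000000000000000000000000000000000000000))) 
(.leaf (nat_lit 0x0)))) (.node (.node (.node (.leaf (nat_lit 0x0)) (.leaf (nat_lit 0x0))) 
(.leaf (nat_lit 0x0))) (.node (.node 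
(.leaf (nat_lit 0x4000c8000000000000000004008880000000000000000000000000000000000000000000000000000000000000000000000000000000000000000000000000000000)) 
(.leaf (nat_lit 0x0))) (.leaf (nat_lit 0x0)))))) (.node (.node (.node (.node (.node 
(.leaf (nat_lit 0x0)) (.leaf (nat_lit 0x0))) (.node 
(.leaf (nat_lit 0x4004e4800940000000000000000008001b80000000000000000000000000000000000000000000000000002000a04001880000000000000000000000000000000000)) 
(.leaf (nat_lit 0x0)))) (.node (.node (.leaf (nat_lit 0x0)) 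
(.leaf (nat_lit 0x20256640328c00000100a8c000000401d648013410016c))) (.leaf (nat_lit 0x0)))) (.node 
(.node (.node (.leaf (nat_lit 0x0)) 
(.leaf (nat_lit 0x101177201cf040a1708245c102763204d1240d26c80754902185))) (.leaf (nat_lit 0x0))) 
(.node (.node 
(.leaf (nat_lit 0x201088402fe4804e390060d201aca40258480192100729200dc0000000806548000002010b64035e8802ae1007d5201292402e04800d49002d0)) 
(.leaf (nat_lit 0x0))) (.leaf (nat_lit 0x0))))) (.node (.node (.node (.node (.leaf (nat_lit 0x0)) 
(.leaf (nat_lit 0x202066403da8808a1100dd7201b320000008039a0000000000000000000000000000000000000000000000000000202066403da8808a1100dd7201b320000008039a00000000000000000000000000000000000000000000000000000000000000000000000000000000000000000000000000000000000000000000000000000000000000000010139b20017e4063988093d1000bf2033fa400088801611016a12027364002fc80c730000002024f44002fc80cfe900022200584405a84000000000000000000000000000000000000000000000000000000000000000000000000000000000000000000000000000000000000000000000000000000000000000000000001001480000004005200000010080f20113a4028788089110100e201824401cac8040790089d20143c40448880807100c12200e56000000801430000000000004046a08064d900f3c200ecc40178000000100286000000000000808d4100c9b201e78401d98802f0000000)))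 
(.node (.leaf (nat_lit 0x8010e0000002004b60000008021f8000002007ee00000000000000000)) 
(.leaf (nat_lit 0x0)))) (.node (.node (.leaf (nat_lit 0x0)) (.leaf (nat_lit 0x0))) 
(.leaf (nat_lit 0x0)))) (.node (.node (.node (.leaf (nat_lit 0x0)) 
(.leaf (nat_lit 0x202bbe4034a480ae8101a5b20296440320080f69101f16))) 
(.leaf (nat_lit 0x2006084013a0802f390006e2017264011e8801011000b82002e0401cd0800c48000000000004002000000010055200000000000000000000000))) 
(.node (.node (.leaf (nat_lit 0x0)) (.leaf (nat_lit 0x0))) (.leaf (nat_lit 0x0))))))))))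
noncomputable def vt1 : Ix (Nat) := (.node (.node (.node (.node (.node (.node (.node (.node (.node 
(.leaf (nat_lit 0x0)) (.leaf (nat_lit 0x0))) (.leaf (nat_lit 0x0))) (.node (.leaf (nat_lit 0x0)) 
(.leaf (nat_lit 0x0)))) (.node (.node (.leaf (nat_lit 0x0)) (.leaf (nat_lit 0x0))) (.node 
(.leaf (nat_lit 0x0)) (.leaf (nat_lit 0x0))))) (.node (.node (.node (.leaf (nat_lit 0x0)) 
(.leaf (nat_lit 0x40202800000000000000000000000000001005462003f440153c00000000000))) (.node 
(.leaf (nat_lit 0x0)) (.leaf (nat_lit 0x0)))) (.node (.node (.leaf (nat_lit 0x0)) 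
(.leaf (nat_lit 0x0))) (.node (.leaf (nat_lit 0x0)) (.leaf (nat_lit 0x10038e)))))) (.node (.node 
(.node (.node (.leaf (nat_lit 0x0)) (.leaf (nat_lit 0x801e2000000))) (.node (.leaf (nat_lit 0x0)) 
(.leaf (nat_lit 0x0)))) (.node (.node (.leaf (nat_lit 0x0)) (.leaf (nat_lit 0x0))) (.node 
(.leaf (nat_lit 0x0)) (.leaf (nat_lit 0x0))))) (.node (.node (.node (.leaf (nat_lit 0x0)) 
(.leaf (nat_lit 0x0))) (.node (.leaf (nat_lit 0x1008332004c44008f080212100876)) 
(.leaf (nat_lit 0x0)))) (.node (.node (.leaf (nat_lit 0x0)) (.leaf (nat_lit 0x100405))) (.node 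
(.leaf (nat_lit 0x2007a000000000000100016)) (.leaf (nat_lit 0x0))))))) (.node (.node (.node (.node 
(.node (.node (.leaf (nat_lit 0x0)) (.leaf (nat_lit 0x0))) (.leaf (nat_lit 0x0))) (.node 
(.leaf (nat_lit 0x0)) (.leaf (nat_lit 0x1018dd)))) (.node (.node (.leaf (nat_lit 0x0)) 
(.leaf (nat_lit 0x0))) (.node (.leaf (nat_lit 0x0)) (.leaf (nat_lit 0x0))))) (.node (.node (.node 
(.leaf (nat_lit 0x40044800000000000)) (.leaf (nat_lit 0x101177201fcc400ab4804f0900340))) (.node 
(.leaf (nat_lit 0x0)) (.leaf (nat_lit 0x0)))) (.node (.node (.leaf (nat_lit 0x0)) 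
(.leaf (nat_lit 0x2009d2404fd480380901b9b))) (.node (.leaf (nat_lit 0x0)) (.leaf (nat_lit 0x0)))))) 
(.node (.node (.node (.node (.leaf (nat_lit 0x0)) 
(.leaf (nat_lit 0x101177201fcc400ab4804f0900340))) (.node (.leaf (nat_lit 0x0)) 
(.leaf (nat_lit 0x0)))) (.node (.node (.leaf (nat_lit 0x0)) (.leaf (nat_lit 0x0))) (.node 
(.leaf (nat_lit 0x0)) (.leaf (nat_lit 0x100317200d1c00000000000000000))))) (.node (.node (.node 
(.leaf (nat_lit 0x0)) (.leaf (nat_lit 0x0))) (.node (.leaf (nat_lit 0x0)) (.leaf (nat_lit 0x0)))) 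
(.node (.node (.leaf (nat_lit 0x0)) (.leaf (nat_lit 0x0))) (.node (.leaf (nat_lit 0x0)) 
(.leaf (nat_lit 0x1006df)))))))) (.node (.node (.node (.node (.node (.node (.node 
(.leaf (nat_lit 0x0)) (.leaf (nat_lit 0x0))) (.leaf (nat_lit 0x0))) (.node (.leaf (nat_lit 0x0)) 
(.leaf (nat_lit 0x0)))) (.node (.node (.leaf (nat_lit 0x0)) (.leaf (nat_lit 0x0))) (.node 
(.leaf (nat_lit 0x0)) (.leaf (nat_lit 0x40099480e07900e71))))) (.node (.node (.node 
(.leaf (nat_lit 0x0)) (.leaf (nat_lit 0x1002ab))) (.node (.leaf (nat_lit 0x0)) 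
(.leaf (nat_lit 0x0)))) (.node (.node (.leaf (nat_lit 0x0)) (.leaf (nat_lit 0x0))) (.node 
(.leaf (nat_lit 0x2007a000000000000100016)) (.leaf (nat_lit 0x0)))))) (.node (.node (.node (.node 
(.leaf (nat_lit 0x0)) 
(.leaf (nat_lit 0x40202800000000000000000000000000001005462003f440153c00000000000))) (.node 
(.leaf (nat_lit 0x0)) (.leaf (nat_lit 0x0)))) (.node (.node (.leaf (nat_lit 0x0)) 
(.leaf (nat_lit 0x0))) (.node (.leaf (nat_lit 0x0)) (.leaf (nat_lit 0x0))))) (.node (.node (.node 
(.leaf (nat_lit 0x0)) (.leaf (nat_lit 0x0))) (.node (.leaf (nat_lit 0x0)) (.leaf (nat_lit 0x0)))) 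
(.node (.node (.leaf (nat_lit 0x40057000000000000)) (.leaf (nat_lit 0x0))) (.node 
(.leaf (nat_lit 0x0)) (.leaf (nat_lit 0x0))))))) (.node (.node (.node (.node (.node (.node 
(.leaf (nat_lit 0x0)) (.leaf (nat_lit 0x0))) (.leaf (nat_lit 0x801e2000000))) (.node 
(.leaf (nat_lit 0x0)) (.leaf (nat_lit 0x100839)))) (.node (.node (.leaf (nat_lit 0x0)) 
(.leaf (nat_lit 0x0))) (.node (.leaf (nat_lit 0x0)) (.leaf (nat_lit 0x0))))) (.node (.node (.node 
(.leaf (nat_lit 0x0)) (.leaf (nat_lit 0x0))) (.node (.leaf (nat_lit 0x0)) (.leaf (nat_lit 0x0)))) 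
(.node (.node (.leaf (nat_lit 0x0)) (.leaf (nat_lit 0x10001b))) (.node (.leaf (nat_lit 0x0)) 
(.leaf (nat_lit 0x0)))))) (.node (.node (.node (.node (.leaf (nat_lit 0x0)) 
(.leaf (nat_lit 0x1002ab))) (.node (.leaf (nat_lit 0x0)) (.leaf (nat_lit 0x0)))) (.node (.node 
(.leaf (nat_lit 0x1008332004c44008f080212100876)) (.leaf (nat_lit 0x0))) (.node 
(.leaf (nat_lit 0x0)) (.leaf (nat_lit 0x100d63))))) (.node (.node (.node (.leaf (nat_lit 0x0)) 
(.leaf (nat_lit 0x0))) (.node (.leaf (nat_lit 0x0)) (.leaf (nat_lit 0x0)))) (.node (.node 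
(.leaf (nat_lit 0x0)) (.leaf (nat_lit 0x0))) (.node (.leaf (nat_lit 0x0)) 
(.leaf (nat_lit 0x0))))))))) (.node (.node (.node (.node (.node (.node (.node (.node 
(.leaf (nat_lit 0x0)) (.leaf (nat_lit 0x0))) (.leaf (nat_lit 0x0))) (.node (.leaf (nat_lit 0x0)) 
(.leaf (nat_lit 0x100d63)))) (.node (.node (.leaf (nat_lit 0x0)) (.leaf (nat_lit 0x0))) (.node 
(.leaf (nat_lit 0x0)) (.leaf (nat_lit 0x2009d2404fd480380901b9b))))) (.node (.node (.node 
(.leaf (nat_lit 0x0)) (.leaf (nat_lit 0x0))) (.node (.leaf (nat_lit 0x0)) (.leaf (nat_lit 0x0)))) 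
(.node (.node (.leaf (nat_lit 0x0)) (.leaf (nat_lit 0x0))) (.node (.leaf (nat_lit 0x0)) 
(.leaf (nat_lit 0x1018dd)))))) (.node (.node (.node (.node (.leaf (nat_lit 0x40057000000000000)) 
(.leaf (nat_lit 0x0))) (.node (.leaf (nat_lit 0x0)) (.leaf (nat_lit 0x0)))) (.node (.node 
(.leaf (nat_lit 0x0)) (.leaf (nat_lit 0x0))) (.node (.leaf (nat_lit 0x0)) (.leaf (nat_lit 0x0))))) 
(.node (.node (.node (.leaf (nat_lit 0x0)) (.leaf (nat_lit 0x0))) (.node (.leaf (nat_lit 0x0)) 
(.leaf (nat_lit 0x0)))) (.node (.node (.leaf (nat_lit 0x0)) (.leaf (nat_lit 0x0))) (.node 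
(.leaf (nat_lit 0x0)) (.leaf (nat_lit 0x0))))))) (.node (.node (.node (.node (.node (.node 
(.leaf (nat_lit 0x0)) (.leaf (nat_lit 0x0))) (.leaf (nat_lit 0x0))) (.node 
(.leaf (nat_lit 0x40044800000000000)) (.leaf (nat_lit 0x0)))) (.node (.node (.leaf (nat_lit 0x0)) 
(.leaf (nat_lit 0x0))) (.node (.leaf (nat_lit 0x0)) (.leaf (nat_lit 0x10001b))))) (.node (.node 
(.node (.leaf (nat_lit 0x0)) (.leaf (nat_lit 0x0))) (.node (.leaf (nat_lit 0x0)) 
(.leaf (nat_lit 0x0)))) (.node (.node (.leaf (nat_lit 0x0)) (.leaf (nat_lit 0x0))) (.node 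
(.leaf (nat_lit 0x0)) (.leaf (nat_lit 0x0)))))) (.node (.node (.node (.node (.leaf (nat_lit 0x0)) 
(.leaf (nat_lit 0x0))) (.node (.leaf (nat_lit 0x0)) (.leaf (nat_lit 0x0)))) (.node (.node 
(.leaf (nat_lit 0x200838000000801f6800000000000000000000001001ca000000400e0080131800000)) 
(.leaf (nat_lit 0x0))) (.node (.leaf (nat_lit 0x0)) (.leaf (nat_lit 0x0))))) (.node (.node (.node 
(.leaf (nat_lit 0x0)) (.leaf (nat_lit 0x0))) (.node (.leaf (nat_lit 0x0)) (.leaf (nat_lit 0x0)))) 
(.node (.node (.leaf (nat_lit 0x0)) (.leaf (nat_lit 0x0))) (.node (.leaf (nat_lit 0x0)) 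
(.leaf (nat_lit 0x0)))))))) (.node (.node (.node (.node (.node (.node (.node (.leaf (nat_lit 0x0)) 
(.leaf (nat_lit 0x0))) (.leaf (nat_lit 0x0))) (.node (.leaf (nat_lit 0x0)) 
(.leaf (nat_lit 0x10038e)))) (.node (.node (.leaf (nat_lit 0x0)) (.leaf (nat_lit 0x0))) (.node 
(.leaf (nat_lit 0x0)) (.leaf (nat_lit 0x100405))))) (.node (.node (.node (.leaf (nat_lit 0x0)) 
(.leaf (nat_lit 0x0))) (.node (.leaf (nat_lit 0x0)) (.leaf (nat_lit 0x0)))) (.node (.node 
(.leaf (nat_lit 0x0)) (.leaf (nat_lit 0x0))) (.node (.leaf (nat_lit 0x0)) 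
(.leaf (nat_lit 0x100839)))))) (.node (.node (.node (.node (.leaf (nat_lit 0x0)) 
(.leaf (nat_lit 0x0))) (.node (.leaf (nat_lit 0x0)) (.leaf (nat_lit 0x0)))) (.node (.node 
(.leaf (nat_lit 0x0)) (.leaf (nat_lit 0x0))) (.node (.leaf (nat_lit 0x0)) (.leaf (nat_lit 0x0))))) 
(.node (.node (.node (.leaf (nat_lit 0x0)) (.leaf (nat_lit 0x0))) (.node (.leaf (nat_lit 0x0)) 
(.leaf (nat_lit 0x0)))) (.node (.node (.leaf (nat_lit 0x0)) (.leaf (nat_lit 0x0))) (.node 
(.leaf (nat_lit 0x0)) (.leaf (nat_lit 0x0))))))) (.node (.node (.node (.node (.node (.node 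
(.leaf (nat_lit 0x0)) (.leaf (nat_lit 0x0))) (.leaf (nat_lit 0x0))) (.node (.leaf (nat_lit 0x0)) 
(.leaf (nat_lit 0x0)))) (.node (.node (.leaf (nat_lit 0x0)) (.leaf (nat_lit 0x0))) (.node 
(.leaf (nat_lit 0x0)) (.leaf (nat_lit 0x0))))) (.node (.node (.node (.leaf (nat_lit 0x0)) 
(.leaf (nat_lit 0x0))) (.node 
(.leaf (nat_lit 0x200838000000801f6800000000000000000000001001ca000000400e0080131800000)) 
(.leaf (nat_lit 0x0)))) (.node (.node (.leaf (nat_lit 0x0)) (.leaf (nat_lit 0x40099480e07900e71))) 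
(.node (.leaf (nat_lit 0x0)) (.leaf (nat_lit 0x0)))))) (.node (.node (.node (.node 
(.leaf (nat_lit 0x0)) (.leaf (nat_lit 0x0))) (.node (.leaf (nat_lit 0x0)) 
(.leaf (nat_lit 0x1006df)))) (.node (.node (.leaf (nat_lit 0x0)) (.leaf (nat_lit 0x0))) (.node 
(.leaf (nat_lit 0x0)) (.leaf (nat_lit 0x0))))) (.node (.node (.node (.leaf (nat_lit 0x0)) 
(.leaf (nat_lit 0x0))) (.node (.leaf (nat_lit 0x0)) (.leaf (nat_lit 0x0)))) (.node (.node 
(.leaf (nat_lit 0x0)) (.leaf (nat_lit 0x100317200d1c00000000000000000))) (.node 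
(.leaf (nat_lit 0x0)) (.leaf (nat_lit 0x0))))))))))
noncomputable def vt2 : Ix (Nat) := (.node (.node (.node (.node (.node (.node 
(.leaf (nat_lit 0x10042f200934000000000001007f30000000000000000010191800000000000000000101588201a644032948049c100afd)) 
(.leaf (nat_lit 0x0))) (.leaf (nat_lit 0x0))) (.node 
(.leaf (nat_lit 0x101d2c203eca40507480a6e100cd8)) (.leaf (nat_lit 0x0)))) (.node (.node 
(.leaf (nat_lit 0x0)) (.leaf (nat_lit 0x0))) (.node 
(.leaf (nat_lit 0x403d0080522101025203a22403e7480e16100eb2)) (.leaf (nat_lit 0x0))))) (.node (.node 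
(.node (.node (.leaf (nat_lit 0x100e88201bfa401f5c806bc100d02)) (.leaf (nat_lit 0x100267))) 
(.leaf (nat_lit 0x0))) (.node (.leaf (nat_lit 0x40117c80a4d100846)) (.leaf (nat_lit 0x0)))) (.node 
(.node (.leaf (nat_lit 0x800c61002e7)) (.leaf (nat_lit 0x0))) (.node 
(.leaf (nat_lit 0x1035cb2028564045e880e2a100a70)) (.leaf (nat_lit 0x0)))))) (.node (.node (.node 
(.node (.node (.leaf (nat_lit 0x0)) (.leaf (nat_lit 0x0))) (.leaf (nat_lit 0x0))) (.node 
(.leaf (nat_lit 0x401f4000000000000202572402ee48089e1007d7201afe401d8c804a7100da4204ea240395480d981021bc2024a040649880827100a4a)) 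
(.leaf (nat_lit 0x0)))) (.node (.node (.leaf (nat_lit 0x0)) (.leaf (nat_lit 0x0))) (.node 
(.leaf (nat_lit 0x4061788068590266e2040d2405ac080f0e100f93)) (.leaf (nat_lit 0x0))))) (.node (.node 
(.node (.node (.leaf (nat_lit 0x20248240539c809f6100ffb)) (.leaf (nat_lit 0x0))) 
(.leaf (nat_lit 0x0))) (.node (.leaf (nat_lit 0x100d212012f2402be480613100bdc)) 
(.leaf (nat_lit 0x1000b220097c4004448083e100f6620286e403bfc8071b9010fa)))) (.node (.node 
(.leaf (nat_lit 0x8114e9012de)) (.leaf (nat_lit 0x0))) (.node (.leaf (nat_lit 0x0)) 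
(.leaf (nat_lit 0x0)))))))
noncomputable def vt3 : Ix (Nat) := (.node (.node (.node (.node (.node (.node 
(.leaf (nat_lit 0x10042f200934000000000001007f30000000000000000010191800000000000000000101588201a644032948049c100afd)) 
(.leaf (nat_lit 0x0))) (.leaf (nat_lit 0x0))) (.node 
(.leaf (nat_lit 0x101d2c203eca40507480a6e100cd8)) (.leaf (nat_lit 0x0)))) (.node (.node 
(.leaf (nat_lit 0x0)) (.leaf (nat_lit 0x0))) (.node 
(.leaf (nat_lit 0x403d0080522101025203a22403e7480e16100eb2)) (.leaf (nat_lit 0x0))))) (.node (.node 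
(.node (.node (.leaf (nat_lit 0x100e88201bfa401f5c806bc100d02)) (.leaf (nat_lit 0x100267))) 
(.leaf (nat_lit 0x0))) (.node (.leaf (nat_lit 0x40117c80a4d100846)) (.leaf (nat_lit 0x0)))) (.node 
(.node (.leaf (nat_lit 0x800c61002e7)) (.leaf (nat_lit 0x0))) (.node 
(.leaf (nat_lit 0x1035cb2028564045e880e2a100a70)) (.leaf (nat_lit 0x0)))))) (.node (.node (.node 
(.node (.node (.leaf (nat_lit 0x0)) (.leaf (nat_lit 0x0))) (.leaf (nat_lit 0x0))) (.node 
(.leaf (nat_lit 0x401f4000000000000202572402ee48089e1007d7201afe401d8c804a7100da4204ea240395480d981021bc2024a040649880827100a4a)) 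
(.leaf (nat_lit 0x0)))) (.node (.node (.leaf (nat_lit 0x0)) (.leaf (nat_lit 0x0))) (.node 
(.leaf (nat_lit 0x4061788068590266e2040d2405ac080f0e100f93)) (.leaf (nat_lit 0x0))))) (.node (.node 
(.node (.node (.leaf (nat_lit 0x20248240539c809f6100ffb)) (.leaf (nat_lit 0x0))) 
(.leaf (nat_lit 0x0))) (.node (.leaf (nat_lit 0x100d212012f2402be480613100bdc)) 
(.leaf (nat_lit 0x1000b220097c4004448083e100f6620286e403bfc8071b9010fa)))) (.node (.node 
(.leaf (nat_lit 0x8114e9012de)) (.leaf (nat_lit 0x0))) (.node (.leaf (nat_lit 0x0)) 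
(.leaf (nat_lit 0x0)))))))
noncomputable def vt4 : Ix (Nat) := (.node (.node (.node (.node (.node (.leaf (nat_lit 0x0)) 
(.leaf (nat_lit 0x0))) (.leaf (nat_lit 0x0))) (.node (.node (.leaf (nat_lit 0x0)) 
(.leaf (nat_lit 0x10069a))) (.leaf (nat_lit 0x0)))) (.node (.node (.node (.leaf (nat_lit 0x0)) 
(.leaf (nat_lit 0x8061f800000))) (.leaf (nat_lit 0x0))) (.node (.node (.leaf (nat_lit 0x0)) 
(.leaf (nat_lit 0x0))) (.leaf (nat_lit 0x0))))) (.node (.node (.node (.node (.leaf (nat_lit 0x0)) 
(.leaf (nat_lit 0x0))) (.leaf (nat_lit 0x8061f800000))) (.node (.node (.leaf (nat_lit 0x0)) 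
(.leaf (nat_lit 0x0))) (.leaf (nat_lit 0x0)))) (.node (.node (.node (.leaf (nat_lit 0x0)) 
(.leaf (nat_lit 0x0))) (.leaf (nat_lit 0x10069a))) (.node (.leaf (nat_lit 0x0)) 
(.leaf (nat_lit 0x0))))))
noncomputable def vt5 : Ix (Nat) := (.node (.node (.node (.node (.node (.leaf (nat_lit 0x10011b)) 
(.leaf (nat_lit 0x0))) (.leaf (nat_lit 0x0))) (.node (.leaf (nat_lit 0x0)) 
(.leaf (nat_lit 0x100bd22010d240224081047100379)))) (.node (.node (.node (.leaf (nat_lit 0x0)) 
(.leaf (nat_lit 0x0))) (.leaf (nat_lit 0x20015c40160080277800000))) (.node (.leaf (nat_lit 0x0)) 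
(.leaf (nat_lit 0x0))))) (.node (.node (.node (.node (.leaf (nat_lit 0x0)) (.leaf (nat_lit 0x0))) 
(.leaf (nat_lit 0x0))) (.node (.leaf (nat_lit 0x0)) (.leaf (nat_lit 0x0)))) (.node (.node 
(.leaf (nat_lit 0x0)) (.leaf (nat_lit 0x1013eb201de240507c804ec9007b8))) (.node 
(.leaf (nat_lit 0x0)) (.leaf (nat_lit 0x0))))))
noncomputable def vt6 : Ix (Nat) := (.node (.node (.node (.node (.node (.leaf (nat_lit 0x10011b)) 
(.leaf (nat_lit 0x0))) (.leaf (nat_lit 0x0))) (.node (.leaf (nat_lit 0x0)) 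
(.leaf (nat_lit 0x100bd22010d240224081047100379)))) (.node (.node (.node (.leaf (nat_lit 0x0)) 
(.leaf (nat_lit 0x0))) (.leaf (nat_lit 0x20015c40160080277800000))) (.node (.leaf (nat_lit 0x0)) 
(.leaf (nat_lit 0x0))))) (.node (.node (.node (.node (.leaf (nat_lit 0x0)) (.leaf (nat_lit 0x0))) 
(.leaf (nat_lit 0x0))) (.node (.leaf (nat_lit 0x0)) (.leaf (nat_lit 0x0)))) (.node (.node 
(.leaf (nat_lit 0x0)) (.leaf (nat_lit 0x1013eb201de240507c804ec9007b8))) (.node 
(.leaf (nat_lit 0x0)) (.leaf (nat_lit 0x0))))))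
noncomputable def vt7 : Ix (Nat) := (.node (.node (.node (.node (.node (.node (.node (.node (.node 
(.leaf (nat_lit 0x0)) (.leaf (nat_lit 0x1001ef00000000000080b2a900a9420045e40242880421000000))) 
(.leaf (nat_lit 0x0))) (.node (.leaf (nat_lit 0x0)) (.leaf (nat_lit 0x100772)))) (.node (.node 
(.leaf (nat_lit 0x0)) (.leaf (nat_lit 0x0))) (.node (.leaf (nat_lit 0x0)) (.leaf (nat_lit 0x0))))) 
(.node (.node (.node (.node (.leaf (nat_lit 0x0)) (.leaf (nat_lit 0x81e40901de6))) 
(.leaf (nat_lit 0x0))) (.node (.leaf (nat_lit 0x0)) (.leaf (nat_lit 0x100c28)))) (.node (.node 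
(.leaf (nat_lit 0x0)) (.leaf (nat_lit 0x203e60408808807ae100a1420320e4078948062f101278))) (.node 
(.leaf (nat_lit 0x0)) (.leaf (nat_lit 0x0)))))) (.node (.node (.node (.node (.node 
(.leaf (nat_lit 0x0)) (.leaf (nat_lit 0x101198200f9a402b0400000000000))) (.leaf (nat_lit 0x0))) 
(.node (.leaf (nat_lit 0x0)) (.leaf (nat_lit 0x0)))) (.node (.node (.leaf (nat_lit 0x0)) 
(.leaf (nat_lit 0x0))) (.node (.leaf (nat_lit 0x0)) (.leaf (nat_lit 0x0))))) (.node (.node (.node 
(.node (.leaf (nat_lit 0x0)) (.leaf (nat_lit 0x0))) (.leaf (nat_lit 0x0))) (.node 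
(.leaf (nat_lit 0x0)) (.leaf (nat_lit 0x0)))) (.node (.node (.leaf (nat_lit 0x0)) 
(.leaf (nat_lit 0x0))) (.node (.leaf (nat_lit 0x0)) (.leaf (nat_lit 0x100af2))))))) (.node (.node 
(.node (.node (.node (.node (.leaf (nat_lit 0x0)) (.leaf (nat_lit 0x100019))) 
(.leaf (nat_lit 0x0))) (.node (.leaf (nat_lit 0x0)) (.leaf (nat_lit 0x0)))) (.node (.node 
(.leaf (nat_lit 0x0)) (.leaf (nat_lit 0x0))) (.node (.leaf (nat_lit 0x0)) (.leaf (nat_lit 0x0))))) 
(.node (.node (.node (.node (.leaf (nat_lit 0x0)) (.leaf (nat_lit 0x800fa000000))) 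
(.leaf (nat_lit 0x0))) (.node (.leaf (nat_lit 0x0)) (.leaf (nat_lit 0x0)))) (.node (.node 
(.leaf (nat_lit 0x0)) (.leaf (nat_lit 0x100305))) (.node (.leaf (nat_lit 0x0)) 
(.leaf (nat_lit 0x0)))))) (.node (.node (.node (.node (.node (.leaf (nat_lit 0x0)) 
(.leaf (nat_lit 0x0))) (.leaf (nat_lit 0x0))) (.node (.leaf (nat_lit 0x0)) (.leaf (nat_lit 0x0)))) 
(.node (.node (.leaf (nat_lit 0x0)) (.leaf (nat_lit 0x0))) (.node (.leaf (nat_lit 0x0)) 
(.leaf (nat_lit 0x0))))) (.node (.node (.node 
(.leaf (nat_lit 0x407ac480c719021cd202fb4404fd480301100635)) 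
(.leaf (nat_lit 0x201dd4402e60802cf1004e22019104026c08076e100416))) (.node (.leaf (nat_lit 0x0)) 
(.leaf (nat_lit 0x0)))) (.node (.node (.leaf (nat_lit 0x0)) (.leaf (nat_lit 0x0))) (.node 
(.leaf (nat_lit 0x0)) 
(.leaf (nat_lit 0x40898c80c441015db2027c8401a6880e729026cd20407e4069a080453101187)))))))) (.node 
(.node (.node (.node (.node (.node (.node 
(.leaf (nat_lit 0x401c6c802d610030620065e40097c00000000000)) (.leaf (nat_lit 0x0))) 
(.leaf (nat_lit 0x0))) (.node (.leaf (nat_lit 0x0)) (.leaf (nat_lit 0x100123)))) (.node (.node 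
(.leaf (nat_lit 0x0)) (.leaf (nat_lit 0x0))) (.node (.leaf (nat_lit 0x0)) (.leaf (nat_lit 0x0))))) 
(.node (.node (.node (.node (.leaf (nat_lit 0x0)) (.leaf (nat_lit 0x101420))) 
(.leaf (nat_lit 0x0))) (.node (.leaf (nat_lit 0x0)) (.leaf (nat_lit 0x0)))) (.node (.node 
(.leaf (nat_lit 0x0)) (.leaf (nat_lit 0x0))) (.node (.leaf (nat_lit 0x0)) (.leaf (nat_lit 0x0)))))) 
(.node (.node (.node (.node (.node (.leaf (nat_lit 0x0)) (.leaf (nat_lit 0x0))) 
(.leaf (nat_lit 0x0))) (.node (.leaf (nat_lit 0x0)) (.leaf (nat_lit 0x0)))) (.node (.node 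
(.leaf (nat_lit 0x0)) (.leaf (nat_lit 0x0))) (.node (.leaf (nat_lit 0x0)) (.leaf (nat_lit 0x0))))) 
(.node (.node (.node (.node (.leaf (nat_lit 0x0)) 
(.leaf (nat_lit 0x201ede401ef4803c40000002027824030d88006b90064a))) (.leaf (nat_lit 0x0))) (.node 
(.leaf (nat_lit 0x0)) (.leaf (nat_lit 0x0)))) (.node (.node (.leaf (nat_lit 0x0)) 
(.leaf (nat_lit 0x0))) (.node (.leaf (nat_lit 0x0)) 
(.leaf (nat_lit 0x10035b0000000000000000000000000000000000000000000000))))))) (.node (.node (.node 
(.node (.node (.node (.leaf (nat_lit 0x0)) (.leaf (nat_lit 0x0))) (.leaf (nat_lit 0x0))) (.node 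
(.leaf (nat_lit 0x0)) (.leaf (nat_lit 0x0)))) (.node (.node (.leaf (nat_lit 0x0)) 
(.leaf (nat_lit 0x0))) (.node (.leaf (nat_lit 0x0)) (.leaf (nat_lit 0x0))))) (.node (.node (.node 
(.node (.leaf (nat_lit 0x8012b800000)) (.leaf (nat_lit 0x0))) (.leaf (nat_lit 0x0))) (.node 
(.leaf (nat_lit 0x0)) (.leaf (nat_lit 0x0)))) (.node (.node (.leaf (nat_lit 0x0)) 
(.leaf (nat_lit 0x0))) (.node (.leaf (nat_lit 0x0)) 
(.leaf (nat_lit 0x2002e840e96081d44102fb3205e964082608249410306920554c40f20080d4e101ea9)))))) 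
(.node (.node (.node (.node (.node (.leaf (nat_lit 0x0)) 
(.leaf (nat_lit 0x8002a000000200aa600000000000101370201efa0000008045e0000002009fc402254800df1001cd))) 
(.leaf (nat_lit 0x0))) (.node (.leaf (nat_lit 0x0)) (.leaf (nat_lit 0x10128b)))) (.node (.node 
(.leaf (nat_lit 0x0)) (.leaf (nat_lit 0x0))) (.node (.leaf (nat_lit 0x0)) (.leaf (nat_lit 0x0))))) 
(.node (.node (.node (.leaf (nat_lit 0x0)) (.leaf (nat_lit 0x0))) (.node (.leaf (nat_lit 0x0)) 
(.leaf (nat_lit 0x0)))) (.node (.node (.leaf (nat_lit 0x0)) (.leaf (nat_lit 0x0))) (.node 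
(.leaf (nat_lit 0x0)) (.leaf (nat_lit 0x10013a))))))))) (.node (.node (.node (.node (.node (.node 
(.node (.node (.leaf (nat_lit 0x0)) (.leaf (nat_lit 0x0))) (.leaf (nat_lit 0x0))) (.node 
(.leaf (nat_lit 0x0)) (.leaf (nat_lit 0x0)))) (.node (.node (.leaf (nat_lit 0x0)) 
(.leaf (nat_lit 0x0))) (.node (.leaf (nat_lit 0x0)) (.leaf (nat_lit 0x0))))) (.node (.node (.node 
(.node (.leaf (nat_lit 0x2007864000f880153000000)) (.leaf (nat_lit 0x0))) (.leaf (nat_lit 0x0))) 
(.node (.leaf (nat_lit 0x0)) (.leaf (nat_lit 0x0)))) (.node (.node (.leaf (nat_lit 0x0)) 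
(.leaf (nat_lit 0x100f5b))) (.node (.leaf (nat_lit 0x0)) (.leaf (nat_lit 0x0)))))) (.node (.node 
(.node (.node (.node (.leaf (nat_lit 0x0)) (.leaf (nat_lit 0x0))) (.leaf (nat_lit 0x0))) (.node 
(.leaf (nat_lit 0x0)) (.leaf (nat_lit 0x804d29001de2010e040145000000000000)))) (.node (.node 
(.leaf (nat_lit 0x0)) (.leaf (nat_lit 0x0))) (.node (.leaf (nat_lit 0x0)) (.leaf (nat_lit 0x0))))) 
(.node (.node (.node (.node (.leaf (nat_lit 0x0)) (.leaf (nat_lit 0x0))) 
(.leaf (nat_lit 0x10012800000000000000000000000))) (.node (.leaf (nat_lit 0x0)) 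
(.leaf (nat_lit 0x0)))) (.node (.node (.leaf (nat_lit 0x0)) (.leaf (nat_lit 0x0))) (.node 
(.leaf (nat_lit 0x0)) (.leaf (nat_lit 0x80103000000))))))) (.node (.node (.node (.node (.node 
(.node (.leaf (nat_lit 0x2014b8401e7c803f8900200)) (.leaf (nat_lit 0x100440))) 
(.leaf (nat_lit 0x0))) (.node (.leaf (nat_lit 0x0)) (.leaf (nat_lit 0x0)))) (.node (.node 
(.leaf (nat_lit 0x0)) (.leaf (nat_lit 0x0))) (.node (.leaf (nat_lit 0x0)) (.leaf (nat_lit 0x0))))) 
(.node (.node (.node (.node (.leaf (nat_lit 0x40019800000000000)) 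
(.leaf (nat_lit 0x4027d0814ae101663))) (.leaf (nat_lit 0x0))) (.node (.leaf (nat_lit 0x0)) 
(.leaf (nat_lit 0x0)))) (.node (.node (.leaf (nat_lit 0x0)) (.leaf (nat_lit 0x0))) (.node 
(.leaf (nat_lit 0x0)) 
(.leaf (nat_lit 0x809620000000000000000000000010028d200dba405b30809b8901d7e2021e44044cc809ce100fe92022a24046ec8055a800000)))))) 
(.node (.node (.node (.node (.node (.leaf (nat_lit 0x0)) (.leaf (nat_lit 0x0))) 
(.leaf (nat_lit 0x0))) (.node (.leaf (nat_lit 0x0)) (.leaf (nat_lit 0x0)))) (.node (.node 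
(.leaf (nat_lit 0x0)) (.leaf (nat_lit 0x0))) (.node (.leaf (nat_lit 0x0)) (.leaf (nat_lit 0x0))))) 
(.node (.node (.node (.leaf (nat_lit 0x0)) (.leaf (nat_lit 0x80428800000))) (.node 
(.leaf (nat_lit 0x0)) (.leaf (nat_lit 0x0)))) (.node (.node (.leaf (nat_lit 0x0)) 
(.leaf (nat_lit 0x0))) (.node (.leaf (nat_lit 0x0)) (.leaf (nat_lit 0x0)))))))) (.node (.node 
(.node (.node (.node (.node (.node (.leaf (nat_lit 0x20023e00000000000000000)) 
(.leaf (nat_lit 0x0))) (.leaf (nat_lit 0x0))) (.node (.leaf (nat_lit 0x0)) (.leaf (nat_lit 0x0)))) 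
(.node (.node (.leaf (nat_lit 0x0)) (.leaf (nat_lit 0x0))) (.node (.leaf (nat_lit 0x0)) 
(.leaf (nat_lit 0x0))))) (.node (.node (.node (.node 
(.leaf (nat_lit 0x1007422009d00000008036f000000)) (.leaf (nat_lit 0x800721036a0))) 
(.leaf (nat_lit 0x0))) (.node (.leaf (nat_lit 0x0)) (.leaf (nat_lit 0x0)))) (.node (.node 
(.leaf (nat_lit 0x0)) (.leaf (nat_lit 0x0))) (.node (.leaf (nat_lit 0x0)) (.leaf (nat_lit 0x0)))))) 
(.node (.node (.node (.node (.node (.leaf (nat_lit 0x0)) (.leaf (nat_lit 0x0))) 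
(.leaf (nat_lit 0x0))) (.node (.leaf (nat_lit 0x0)) (.leaf (nat_lit 0x100964)))) (.node (.node 
(.leaf (nat_lit 0x0)) (.leaf (nat_lit 0x0))) (.node (.leaf (nat_lit 0x0)) (.leaf (nat_lit 0x0))))) 
(.node (.node (.node (.node (.leaf (nat_lit 0x0)) (.leaf (nat_lit 0x0))) 
(.leaf (nat_lit 0x1005130000004018748050c800000))) (.node (.leaf (nat_lit 0x0)) 
(.leaf (nat_lit 0x0)))) (.node (.node (.leaf (nat_lit 0x0)) (.leaf (nat_lit 0x40017400000000000))) 
(.node (.leaf (nat_lit 0x0)) (.leaf (nat_lit 0x0))))))) (.node (.node (.node (.node (.node (.node 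
(.leaf (nat_lit 0x0)) (.leaf (nat_lit 0x1006dd))) (.leaf (nat_lit 0x0))) (.node 
(.leaf (nat_lit 0x0)) (.leaf (nat_lit 0x0)))) (.node (.node (.leaf (nat_lit 0x0)) 
(.leaf (nat_lit 0x0))) (.node (.leaf (nat_lit 0x0)) (.leaf (nat_lit 0x0))))) (.node (.node (.node 
(.node (.leaf (nat_lit 0x40186c80505800000)) (.leaf (nat_lit 0x0))) (.leaf (nat_lit 0x0))) (.node 
(.leaf (nat_lit 0x0)) (.leaf (nat_lit 0x0)))) (.node (.node (.leaf (nat_lit 0x0)) 
(.leaf (nat_lit 0x0))) (.node (.leaf (nat_lit 0x0)) (.leaf (nat_lit 0x80100100000)))))) (.node 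
(.node (.node (.node (.node (.leaf (nat_lit 0x800d7000000)) (.leaf (nat_lit 0x801f210051c))) 
(.leaf (nat_lit 0x0))) (.node (.leaf (nat_lit 0x0)) (.leaf (nat_lit 0x0)))) (.node (.node 
(.leaf (nat_lit 0x20023440186480085900301200432400a2c800f79001a1)) (.leaf (nat_lit 0x0))) (.node 
(.leaf (nat_lit 0x0)) (.leaf (nat_lit 0x1001e000000000000000000000000))))) (.node (.node (.node 
(.leaf (nat_lit 0x0)) (.leaf (nat_lit 0x0))) (.node (.leaf (nat_lit 0x0)) (.leaf (nat_lit 0x0)))) 
(.node (.node (.leaf (nat_lit 0x0)) (.leaf (nat_lit 0x10013d))) (.node (.leaf (nat_lit 0x0)) 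
(.leaf (nat_lit 0x0))))))))))
noncomputable def vt8 : Ix (Nat) := (.node (.node (.node (.node (.node (.node 
(.leaf (nat_lit 0x10003c2010144009a0805911002e0202238404fc4000001001612012200000008041a90100220041a40005480bf50000002009b2404478806d590132f20350e4070ec80a7c101a90202fde40526480d579014fb)) 
(.leaf (nat_lit 0x100432))) (.leaf (nat_lit 0x0))) (.node (.leaf (nat_lit 0x400b9880b1210209e)) 
(.leaf (nat_lit 0x0)))) (.node (.node (.leaf (nat_lit 0x0)) (.leaf (nat_lit 0x0))) (.node 
(.leaf (nat_lit 0x4074f8809569018d4)) (.leaf (nat_lit 0x0))))) (.node (.node (.node (.node 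
(.leaf (nat_lit 0x40255080532900548)) (.leaf (nat_lit 0x1007b9))) (.leaf (nat_lit 0x0))) (.node 
(.leaf (nat_lit 0x8071810097f203b22411e7c8102c1032232039084072e080e5b10222c203604407f9082dcc101d22)) 
(.leaf (nat_lit 0x100402)))) (.node (.node (.leaf (nat_lit 0x40a6d480163101b79)) 
(.leaf (nat_lit 0x0))) (.node (.leaf (nat_lit 0x413758815ca9030d9)) (.leaf (nat_lit 0x0)))))) 
(.node (.node (.node (.node (.node (.leaf (nat_lit 0x0)) (.leaf (nat_lit 0x0))) 
(.leaf (nat_lit 0x0))) (.node 
(.leaf (nat_lit 0x403a4c8085b100a562066124059d480bb6101e65207a324076c480f3510214d2039f64082f081d62101d1f203dbe407ef880e66902098203dc8405c8c80ec4101b6a)) 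
(.leaf (nat_lit 0x0)))) (.node (.node (.leaf (nat_lit 0x402b6c80262100477)) (.leaf (nat_lit 0x0))) 
(.node (.leaf (nat_lit 0x40692480d76901a0f)) (.leaf (nat_lit 0x8025d900279))))) (.node (.node 
(.node (.node (.leaf (nat_lit 0x40d00c8111e90238e)) (.leaf (nat_lit 0x802c110268d))) 
(.leaf (nat_lit 0x0))) (.node (.leaf (nat_lit 0x802b2100be4)) 
(.leaf (nat_lit 0x100ef82016de40143480bb49024d5203c604091a080c3f9012ce)))) (.node (.node 
(.leaf (nat_lit 0x4013e882834101d65204336411c8c80e1a901e70)) (.leaf (nat_lit 0x10046f))) (.node 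
(.leaf (nat_lit 0x1003262011ae00000000000100a6720092c4000ac00000100278201ca4407f6480cdc9014b3)) 
(.leaf (nat_lit 0x0)))))))
noncomputable def vt9 : Ix (Nat) := (.node (.node (.node (.node (.node (.node 
(.leaf (nat_lit 0x1001a70000004019b48081e100ec120299a404628807b91001dc)) 
(.leaf (nat_lit 0x2015ca4023908105a9027512051c8409684812bf9008fe))) (.node (.leaf (nat_lit 0x0)) 
(.leaf (nat_lit 0x0)))) (.node (.node (.leaf (nat_lit 0x1002d120b8de416d588258010266d)) 
(.leaf (nat_lit 0x800b490120c2023a4406aec805c490090c))) (.leaf (nat_lit 0x10021c)))) (.node (.node 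
(.node (.leaf (nat_lit 0x101279)) (.leaf (nat_lit 0x102cde))) (.leaf (nat_lit 0x0))) (.node (.node 
(.leaf (nat_lit 0x1003bb)) (.leaf (nat_lit 0x1002ab))) (.leaf (nat_lit 0x801241001bb))))) (.node 
(.node (.node (.node (.leaf (nat_lit 0x101e40)) (.leaf (nat_lit 0x103498))) 
(.leaf (nat_lit 0x100163))) (.node (.node (.leaf (nat_lit 0x0)) (.leaf (nat_lit 0x101ae2))) 
(.leaf (nat_lit 0x80570900359200940409164813301004f3)))) (.node (.node (.node 
(.leaf (nat_lit 0x10121a)) (.leaf (nat_lit 0x101dec))) (.leaf (nat_lit 0x10022b))) (.node (.node 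
(.leaf (nat_lit 0x0)) (.leaf (nat_lit 0x80e95903c53))) (.leaf (nat_lit 0x1004af)))))) (.node (.node 
(.node (.node (.node (.leaf (nat_lit 0x1009c72028e64026b480af1100abd2028a040587080be5101501)) 
(.leaf (nat_lit 0x102162))) (.node (.leaf (nat_lit 0x1002bd)) (.leaf (nat_lit 0x101027)))) (.node 
(.node (.leaf (nat_lit 0x0)) (.leaf (nat_lit 0x100c2c))) (.leaf (nat_lit 0x0)))) (.node (.node 
(.node (.leaf (nat_lit 0x802eb1001c9)) (.leaf (nat_lit 0x103348))) (.leaf (nat_lit 0x0))) (.node 
(.node (.leaf (nat_lit 0x1009c7)) 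
(.leaf (nat_lit 0x401f108114b901e3320129c4102008203890265b2083aa40fde8813d9902cbd))) 
(.leaf (nat_lit 0x0))))) (.node (.node (.node (.node 
(.leaf (nat_lit 0x80191000000208a5240d0648218e101478)) (.leaf (nat_lit 0x10263a))) 
(.leaf (nat_lit 0x201bfc401b2480395800000))) (.node (.node (.leaf (nat_lit 0x1003c4)) 
(.leaf (nat_lit 0x101f83))) (.leaf (nat_lit 0x0)))) (.node (.node (.node (.leaf (nat_lit 0x1001bc)) 
(.leaf (nat_lit 0x1031c6))) (.leaf (nat_lit 0x100c09))) (.node (.node (.leaf (nat_lit 0x10053c)) 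
(.leaf (nat_lit 0x80e8a103b1b))) (.leaf (nat_lit 0x0)))))))
noncomputable def vt10 : Ix (Nat) := (.node (.node (.node (.node (.node 
(.leaf (nat_lit 0x20053a4041c0815f7102a9c2032c2407cc881f1310400b)) (.leaf (nat_lit 0x1022cc))) 
(.node (.leaf (nat_lit 0x101daa)) (.leaf (nat_lit 0x40e7bc80d6b902c85)))) (.node (.node 
(.leaf (nat_lit 0x100b25)) 
(.leaf (nat_lit 0x406a0c80578000000206996414ca481681103b592061a2411898818201038a92045184094ec81406102b8c2051584090548149a9017162055da40a3b881012903a58))) 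
(.leaf (nat_lit 0x80e529013c7)))) (.node (.node (.node (.leaf (nat_lit 0x101608)) 
(.leaf (nat_lit 0x1020dd))) (.node (.leaf (nat_lit 0x102f5c)) 
(.leaf (nat_lit 0x203362415a6482052904f92)))) (.node (.node (.leaf (nat_lit 0x0)) 
(.leaf (nat_lit 0x2021b4411aec82934104b3e))) (.leaf (nat_lit 0x101a4e))))) (.node (.node (.node 
(.node (.leaf (nat_lit 0x0)) (.leaf (nat_lit 0x1021bd))) (.node (.leaf (nat_lit 0x102a13)) 
(.leaf (nat_lit 0x201a02410acc81bc6103e5d)))) (.node (.node (.leaf (nat_lit 0x1028f7)) 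
(.leaf (nat_lit 0x40d950817841039eb))) (.leaf (nat_lit 0x80fbb901d31)))) (.node (.node (.node 
(.leaf (nat_lit 0x1013a3)) (.leaf (nat_lit 0x102625))) 
(.leaf (nat_lit 0x8125c10241d203c9841067c81ba810420c))) (.node (.node (.leaf (nat_lit 0x10272f)) 
(.leaf (nat_lit 0x2026ba41a1ec825fa104d74))) (.leaf (nat_lit 0x101baa))))))
noncomputable def vt11 : Ix (Nat) := (.node (.node (.node (.node (.node (.leaf (nat_lit 0x0)) 
(.leaf (nat_lit 0x403560000001002b8))) (.leaf (nat_lit 0x100a52))) (.node (.node 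
(.leaf (nat_lit 0x0)) (.leaf (nat_lit 0x0))) (.leaf (nat_lit 0x1021e620125e40169c804e7800000)))) 
(.node (.node (.node (.leaf (nat_lit 0x0)) (.leaf (nat_lit 0x4000bc00000000000))) 
(.leaf (nat_lit 0x0))) (.node (.node (.leaf (nat_lit 0x100aa3)) (.leaf (nat_lit 0x0))) 
(.leaf (nat_lit 0x203fce405f3c8141f901116))))) (.node (.node (.node (.node (.leaf (nat_lit 0x0)) 
(.leaf (nat_lit 0x202a5240fc5c80ad0101302))) 
(.leaf (nat_lit 0x1004030000000000008006d0000000000000000000000000000000000000000000000000000))) 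
(.node (.node (.leaf (nat_lit 0x1000d8)) (.leaf (nat_lit 0x80066800000))) 
(.leaf (nat_lit 0x1031322045e2405ccc80e221014a4)))) (.node (.node (.node (.leaf (nat_lit 0x0)) 
(.leaf (nat_lit 0x0))) (.leaf (nat_lit 0x10279d202a7c40b89c80c5290125a))) (.node 
(.leaf (nat_lit 0x0)) (.leaf (nat_lit 0x204a20406af481533101a40))))))
noncomputable def vt12 : Ix (Nat) := (.node (.node (.node (.node (.node (.node 
(.leaf (nat_lit 0x0)) (.leaf (nat_lit 0x10000a203b2a404b18812c610109d))) (.leaf (nat_lit 0x0))) 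
(.node (.leaf (nat_lit 0x100142)) (.leaf (nat_lit 0x810b79013a9)))) (.node (.node 
(.leaf (nat_lit 0x0)) (.leaf (nat_lit 0x2001a240acac80e23901311))) (.node (.leaf (nat_lit 0x0)) 
(.leaf (nat_lit 0x4059dc819cc90245b))))) (.node (.node (.node (.leaf (nat_lit 0x0)) 
(.leaf (nat_lit 0x20245040584c80a82000000))) (.node (.leaf (nat_lit 0x0)) 
(.leaf (nat_lit 0x4040548049010098e2048bc402a408091c1015052020fc403fe881bfc90237520234040db508081a1010c5)))) 
(.node (.node (.leaf (nat_lit 0x0)) (.leaf (nat_lit 0x8085e900e08))) (.node (.leaf (nat_lit 0x0)) 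
(.leaf (nat_lit 0x1006e22020ae40996c80ba8901155)))))) (.node (.node (.node (.node (.node 
(.leaf (nat_lit 0x0)) (.leaf (nat_lit 0x4088e880bdc900def))) 
(.leaf (nat_lit 0x200292403bdc00000000000000000000000000001001f920223c401670809b990072b201ffc40544880aee10038b))) 
(.node (.leaf (nat_lit 0x10073a201e4e40123081199100ca22024a04027608119590098c)) 
(.leaf (nat_lit 0x40751481809101808)))) (.node (.node (.leaf (nat_lit 0x0)) (.leaf (nat_lit 0x0))) 
(.node (.leaf (nat_lit 0x0)) (.leaf (nat_lit 0x408160819c8902ade))))) (.node (.node (.node 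
(.leaf (nat_lit 0x0)) (.leaf (nat_lit 0x20208a405d8080a0c100131))) (.node 
(.leaf (nat_lit 0x80166000000)) (.leaf (nat_lit 0x4028bc808c6100de1)))) (.node (.node 
(.leaf (nat_lit 0x0)) (.leaf (nat_lit 0x0))) (.node (.leaf (nat_lit 0x0)) 
(.leaf (nat_lit 0x20231a40569080b74100eb0)))))))
noncomputable def vt13 : Ix (Nat) := (.node (.node (.node (.node (.node (.leaf (nat_lit 0x0)) 
(.leaf (nat_lit 0x0))) (.leaf (nat_lit 0x0))) (.node (.leaf (nat_lit 0x0)) (.leaf (nat_lit 0x0)))) 
(.node (.node (.node (.leaf (nat_lit 0x0)) (.leaf (nat_lit 0x0))) (.leaf (nat_lit 0x0))) (.node 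
(.leaf (nat_lit 0x100543)) (.leaf (nat_lit 0x0))))) (.node (.node (.node (.node 
(.leaf (nat_lit 0x0)) (.leaf (nat_lit 0x0))) 
(.leaf (nat_lit 0x4000d400000000000000000000000000000000000000000000008041b000000000000000000000000000000000000000000000000000000000000000000000000000))) 
(.node (.leaf (nat_lit 0x0)) (.leaf (nat_lit 0x0)))) (.node (.node (.leaf (nat_lit 0x0)) 
(.leaf (nat_lit 0x404d6880711900b10))) (.node (.leaf (nat_lit 0x0)) (.leaf (nat_lit 0x0))))))
noncomputable def vt14 : Ix (Nat) := (.node (.node (.node (.node (.node (.leaf (nat_lit 0x0)) 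
(.leaf (nat_lit 0x0))) (.node (.leaf (nat_lit 0x0)) (.leaf (nat_lit 0x2024f0404eb0808ab9006a6)))) 
(.node (.node (.leaf (nat_lit 0x0)) (.leaf (nat_lit 0x0))) (.node (.leaf (nat_lit 0x0)) 
(.leaf (nat_lit 0x0))))) (.node (.node (.node (.leaf (nat_lit 0x0)) (.leaf (nat_lit 0x0))) (.node 
(.leaf (nat_lit 0x0)) (.leaf (nat_lit 0x0)))) (.node (.node (.leaf (nat_lit 0x0)) 
(.leaf (nat_lit 0x204d4040f428813fe900bcc))) (.leaf (nat_lit 0x0))))) (.node (.node (.node (.node 
(.leaf (nat_lit 0x0)) (.leaf (nat_lit 0x0))) (.node (.leaf (nat_lit 0x0)) 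
(.leaf (nat_lit 0x100098)))) (.node (.node (.leaf (nat_lit 0x0)) (.leaf (nat_lit 0x0))) (.node 
(.leaf (nat_lit 0x0)) (.leaf (nat_lit 0x0))))) (.node (.node (.node (.leaf (nat_lit 0x0)) 
(.leaf (nat_lit 0x0))) (.node (.leaf (nat_lit 0x10068f200a4600000000000100821)) 
(.leaf (nat_lit 0x100146)))) (.node (.node (.leaf (nat_lit 0x0)) 
(.leaf (nat_lit 0x40dae081a90900c72))) (.leaf (nat_lit 0x0))))))
noncomputable def vt15 : Ix (Nat) := (.node (.node (.node (.node (.node (.node (.node (.node (.node 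
(.leaf (nat_lit 0x0)) 
(.leaf (nat_lit 0x201570401334806a7900fbc2017744020a0805c2101241201a524030308060d100652))) 
(.leaf (nat_lit 0x0))) (.node (.leaf (nat_lit 0x0)) (.leaf (nat_lit 0x100831)))) (.node (.node 
(.leaf (nat_lit 0x0)) (.leaf (nat_lit 0x0))) (.node (.leaf (nat_lit 0x0)) (.leaf (nat_lit 0x0))))) 
(.node (.node (.node (.node (.leaf (nat_lit 0x0)) (.leaf (nat_lit 0x80089902958))) 
(.leaf (nat_lit 0x0))) (.node (.leaf (nat_lit 0x0)) (.leaf (nat_lit 0x100ad6)))) (.node (.node 
(.leaf (nat_lit 0x10016c)) (.leaf (nat_lit 0x2007c6000000000000000002016fa40080080212100e9c))) 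
(.node (.leaf (nat_lit 0x0)) (.leaf (nat_lit 0x0)))))) (.node (.node (.node (.node (.node 
(.leaf (nat_lit 0x0)) (.leaf (nat_lit 0x1008ba20116e40251480686800000))) (.leaf (nat_lit 0x0))) 
(.node (.leaf (nat_lit 0x0)) (.leaf (nat_lit 0x0)))) (.node (.node (.leaf (nat_lit 0x0)) 
(.leaf (nat_lit 0x0))) (.node (.leaf (nat_lit 0x0)) (.leaf (nat_lit 0x0))))) (.node (.node (.node 
(.node (.leaf (nat_lit 0x0)) (.leaf (nat_lit 0x0))) (.leaf (nat_lit 0x0))) (.node 
(.leaf (nat_lit 0x0)) (.leaf (nat_lit 0x0)))) (.node (.node (.leaf (nat_lit 0x0)) 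
(.leaf (nat_lit 0x0))) (.node (.leaf (nat_lit 0x0)) (.leaf (nat_lit 0x8073f900c9d))))))) (.node 
(.node (.node (.node (.node (.node (.leaf (nat_lit 0x0)) (.leaf (nat_lit 0x8049c10207b))) 
(.leaf (nat_lit 0x0))) (.node (.leaf (nat_lit 0x0)) (.leaf (nat_lit 0x0)))) (.node (.node 
(.leaf (nat_lit 0x0)) (.leaf (nat_lit 0x0))) (.node (.leaf (nat_lit 0x0)) (.leaf (nat_lit 0x0))))) 
(.node (.node (.node (.node (.leaf (nat_lit 0x0)) (.leaf (nat_lit 0x0))) (.leaf (nat_lit 0x0))) 
(.node (.leaf (nat_lit 0x0)) (.leaf (nat_lit 0x0)))) (.node (.node (.leaf (nat_lit 0x0)) 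
(.leaf (nat_lit 0x10063e))) (.node (.leaf (nat_lit 0x0)) (.leaf (nat_lit 0x0)))))) (.node (.node 
(.node (.node (.node (.leaf (nat_lit 0x0)) (.leaf (nat_lit 0x0))) (.leaf (nat_lit 0x0))) (.node 
(.leaf (nat_lit 0x0)) (.leaf (nat_lit 0x0)))) (.node (.node (.leaf (nat_lit 0x0)) 
(.leaf (nat_lit 0x0))) (.node (.leaf (nat_lit 0x0)) (.leaf (nat_lit 0x0))))) (.node (.node (.node 
(.leaf (nat_lit 0x0)) (.leaf (nat_lit 0x0))) (.node (.leaf (nat_lit 0x0)) (.leaf (nat_lit 0x0)))) 
(.node (.node (.leaf (nat_lit 0x0)) (.leaf (nat_lit 0x0))) (.node (.leaf (nat_lit 0x0)) 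
(.leaf (nat_lit 0x0)))))))) (.node (.node (.node (.node (.node (.node (.node (.leaf (nat_lit 0x0)) 
(.leaf (nat_lit 0x101668))) (.leaf (nat_lit 0x0))) (.node (.leaf (nat_lit 0x0)) 
(.leaf (nat_lit 0x1000c5)))) (.node (.node (.leaf (nat_lit 0x0)) (.leaf (nat_lit 0x0))) (.node 
(.leaf (nat_lit 0x0)) (.leaf (nat_lit 0x0))))) (.node (.node (.node (.node (.leaf (nat_lit 0x0)) 
(.leaf (nat_lit 0x101395))) (.leaf (nat_lit 0x0))) (.node (.leaf (nat_lit 0x0)) 
(.leaf (nat_lit 0x0)))) (.node (.node (.leaf (nat_lit 0x0)) (.leaf (nat_lit 0x100550))) (.node 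
(.leaf (nat_lit 0x0)) (.leaf (nat_lit 0x0)))))) (.node (.node (.node (.node (.node 
(.leaf (nat_lit 0x0)) (.leaf (nat_lit 0x100cf2202070401bc4805d51005c9))) (.leaf (nat_lit 0x0))) 
(.node (.leaf (nat_lit 0x0)) (.leaf (nat_lit 0x0)))) (.node (.node (.leaf (nat_lit 0x0)) 
(.leaf (nat_lit 0x0))) (.node (.leaf (nat_lit 0x0)) (.leaf (nat_lit 0x0))))) (.node (.node (.node 
(.node (.leaf (nat_lit 0x0)) (.leaf (nat_lit 0x0))) (.leaf (nat_lit 0x0))) (.node 
(.leaf (nat_lit 0x0)) (.leaf (nat_lit 0x0)))) (.node (.node (.leaf (nat_lit 0x0)) 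
(.leaf (nat_lit 0x100025))) (.node (.leaf (nat_lit 0x0)) (.leaf (nat_lit 0x0))))))) (.node (.node 
(.node (.node (.node (.node (.leaf (nat_lit 0x0)) (.leaf (nat_lit 0x100857))) 
(.leaf (nat_lit 0x0))) (.node (.leaf (nat_lit 0x0)) (.leaf (nat_lit 0x0)))) (.node (.node 
(.leaf (nat_lit 0x0)) (.leaf (nat_lit 0x0))) (.node (.leaf (nat_lit 0x0)) (.leaf (nat_lit 0x0))))) 
(.node (.node (.node (.node (.leaf (nat_lit 0x0)) (.leaf (nat_lit 0x0))) (.leaf (nat_lit 0x0))) 
(.node (.leaf (nat_lit 0x0)) (.leaf (nat_lit 0x0)))) (.node (.node (.leaf (nat_lit 0x0)) 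
(.leaf (nat_lit 0x0))) (.node (.leaf (nat_lit 0x0)) (.leaf (nat_lit 0x400c4880566900f62)))))) 
(.node (.node (.node (.node (.node (.leaf (nat_lit 0x405bbc802b19004e2)) 
(.leaf (nat_lit 0x4014b0000000000002014ca400068802eb900537))) (.leaf (nat_lit 0x0))) (.node 
(.leaf (nat_lit 0x0)) (.leaf (nat_lit 0x102415)))) (.node (.node (.leaf (nat_lit 0x0)) 
(.leaf (nat_lit 0x0))) (.node (.leaf (nat_lit 0x0)) (.leaf (nat_lit 0x0))))) (.node (.node (.node 
(.leaf (nat_lit 0x0)) (.leaf (nat_lit 0x0))) (.node (.leaf (nat_lit 0x0)) (.leaf (nat_lit 0x0)))) 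
(.node (.node (.leaf (nat_lit 0x0)) (.leaf (nat_lit 0x0))) (.node (.leaf (nat_lit 0x0)) 
(.leaf (nat_lit 0x0))))))))) (.node (.node (.node (.node (.node (.node (.node (.node 
(.leaf (nat_lit 0x0)) (.leaf (nat_lit 0x0))) (.leaf (nat_lit 0x0))) (.node (.leaf (nat_lit 0x0)) 
(.leaf (nat_lit 0x0)))) (.node (.node (.leaf (nat_lit 0x0)) (.leaf (nat_lit 0x0))) (.node 
(.leaf (nat_lit 0x0)) (.leaf (nat_lit 0x0))))) (.node (.node (.node (.node (.leaf (nat_lit 0x0)) 
(.leaf (nat_lit 0x100161))) (.leaf (nat_lit 0x0))) (.node (.leaf (nat_lit 0x0)) 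
(.leaf (nat_lit 0x0)))) (.node (.node (.leaf (nat_lit 0x0)) (.leaf (nat_lit 0x4018ec80a63900ed9))) 
(.node (.leaf (nat_lit 0x0)) (.leaf (nat_lit 0x0)))))) (.node (.node (.node (.node (.node 
(.leaf (nat_lit 0x0)) (.leaf (nat_lit 0x0))) (.leaf (nat_lit 0x0))) (.node (.leaf (nat_lit 0x0)) 
(.leaf (nat_lit 0x0)))) (.node (.node (.leaf (nat_lit 0x0)) (.leaf (nat_lit 0x0))) (.node 
(.leaf (nat_lit 0x0)) (.leaf (nat_lit 0x0))))) (.node (.node (.node (.node (.leaf (nat_lit 0x0)) 
(.leaf (nat_lit 0x0))) (.leaf (nat_lit 0x0))) (.node (.leaf (nat_lit 0x0)) (.leaf (nat_lit 0x0)))) 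
(.node (.node (.leaf (nat_lit 0x0)) (.leaf (nat_lit 0x0))) (.node (.leaf (nat_lit 0x0)) 
(.leaf (nat_lit 0x0))))))) (.node (.node (.node (.node (.node (.node (.leaf (nat_lit 0x0)) 
(.leaf (nat_lit 0x8052a10226d))) (.leaf (nat_lit 0x0))) (.node (.leaf (nat_lit 0x0)) 
(.leaf (nat_lit 0x0)))) (.node (.node (.leaf (nat_lit 0x0)) (.leaf (nat_lit 0x0))) (.node 
(.leaf (nat_lit 0x0)) (.leaf (nat_lit 0x0))))) (.node (.node (.node (.node (.leaf (nat_lit 0x0)) 
(.leaf (nat_lit 0x8049e9016d1))) (.leaf (nat_lit 0x0))) (.node (.leaf (nat_lit 0x0)) 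
(.leaf (nat_lit 0x1000de)))) (.node (.node (.leaf (nat_lit 0x0)) (.leaf (nat_lit 0x0))) (.node 
(.leaf (nat_lit 0x0)) (.leaf (nat_lit 0x201f7400000080af480000020079c40168c8058010008d)))))) (.node 
(.node (.node (.node (.node (.leaf (nat_lit 0x0)) (.leaf (nat_lit 0x0))) (.leaf (nat_lit 0x0))) 
(.node (.leaf (nat_lit 0x0)) (.leaf (nat_lit 0x100705)))) (.node (.node (.leaf (nat_lit 0x0)) 
(.leaf (nat_lit 0x0))) (.node (.leaf (nat_lit 0x0)) (.leaf (nat_lit 0x0))))) (.node (.node (.node 
(.leaf (nat_lit 0x0)) (.leaf (nat_lit 0x0))) (.node (.leaf (nat_lit 0x0)) (.leaf (nat_lit 0x0)))) 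
(.node (.node (.leaf (nat_lit 0x0)) (.leaf (nat_lit 0x0))) (.node (.leaf (nat_lit 0x0)) 
(.leaf (nat_lit 0x0)))))))) (.node (.node (.node (.node (.node (.node (.node (.leaf (nat_lit 0x0)) 
(.leaf (nat_lit 0x800a51016ad))) (.leaf (nat_lit 0x0))) (.node (.leaf (nat_lit 0x0)) 
(.leaf (nat_lit 0x0)))) (.node (.node (.leaf (nat_lit 0x0)) (.leaf (nat_lit 0x0))) (.node 
(.leaf (nat_lit 0x0)) (.leaf (nat_lit 0x0))))) (.node (.node (.node (.node (.leaf (nat_lit 0x0)) 
(.leaf (nat_lit 0x8025d9023a5))) (.leaf (nat_lit 0x0))) (.node (.leaf (nat_lit 0x0)) 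
(.leaf (nat_lit 0x0)))) (.node (.node (.leaf (nat_lit 0x0)) (.leaf (nat_lit 0x0))) (.node 
(.leaf (nat_lit 0x0)) (.leaf (nat_lit 0x0)))))) (.node (.node (.node (.node (.node 
(.leaf (nat_lit 0x0)) (.leaf (nat_lit 0x0))) (.leaf (nat_lit 0x0))) (.node (.leaf (nat_lit 0x0)) 
(.leaf (nat_lit 0x100b8a)))) (.node (.node (.leaf (nat_lit 0x0)) (.leaf (nat_lit 0x0))) (.node 
(.leaf (nat_lit 0x0)) (.leaf (nat_lit 0x0))))) (.node (.node (.node (.node (.leaf (nat_lit 0x0)) 
(.leaf (nat_lit 0x0))) (.leaf (nat_lit 0x0))) (.node (.leaf (nat_lit 0x0)) (.leaf (nat_lit 0x0)))) 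
(.node (.node (.leaf (nat_lit 0x0)) (.leaf (nat_lit 0x401f7880605800000))) (.node 
(.leaf (nat_lit 0x0)) (.leaf (nat_lit 0x0))))))) (.node (.node (.node (.node (.node (.node 
(.leaf (nat_lit 0x0)) (.leaf (nat_lit 0x803fd101d1d))) (.leaf (nat_lit 0x0))) (.node 
(.leaf (nat_lit 0x0)) (.leaf (nat_lit 0x0)))) (.node (.node (.leaf (nat_lit 0x0)) 
(.leaf (nat_lit 0x0))) (.node (.leaf (nat_lit 0x0)) (.leaf (nat_lit 0x0))))) (.node (.node (.node 
(.node (.leaf (nat_lit 0x2001ca401db000000000000)) (.leaf (nat_lit 0x0))) (.leaf (nat_lit 0x0))) 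
(.node (.leaf (nat_lit 0x0)) (.leaf (nat_lit 0x0)))) (.node (.node (.leaf (nat_lit 0x0)) 
(.leaf (nat_lit 0x80021800000))) (.node (.leaf (nat_lit 0x0)) (.leaf (nat_lit 0x10030a)))))) (.node 
(.node (.node (.node (.node (.leaf (nat_lit 0x4066008034a900c6f)) (.leaf (nat_lit 0x0))) 
(.leaf (nat_lit 0x0))) (.node (.leaf (nat_lit 0x0)) (.leaf (nat_lit 0x0)))) (.node (.node 
(.leaf (nat_lit 0x8013f9000bf)) (.leaf (nat_lit 0x0))) (.node (.leaf (nat_lit 0x0)) 
(.leaf (nat_lit 0x0))))) (.node (.node (.node (.leaf (nat_lit 0x0)) (.leaf (nat_lit 0x0))) (.node 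
(.leaf (nat_lit 0x0)) (.leaf (nat_lit 0x0)))) (.node (.node (.leaf (nat_lit 0x0)) 
(.leaf (nat_lit 0x0))) (.node (.leaf (nat_lit 0x0)) (.leaf (nat_lit 0x0))))))))))
noncomputable def vt16 : Ix (Nat) := (.node (.node (.node (.node (.node (.node 
(.leaf (nat_lit 0x100f18000000000000801e900000020114e0000000000000000000000000000000000000000)) 
(.leaf (nat_lit 0x0))) (.leaf (nat_lit 0x0))) (.node (.leaf (nat_lit 0x0)) (.leaf (nat_lit 0x0)))) 
(.node (.node (.leaf (nat_lit 0x0)) (.leaf (nat_lit 0x0))) (.node 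
(.leaf (nat_lit 0x1006a4200646402a188035c90078c)) (.leaf (nat_lit 0x0))))) (.node (.node (.node 
(.node (.leaf (nat_lit 0x101f85201dfc402be88107f900dbc)) (.leaf (nat_lit 0x0))) 
(.leaf (nat_lit 0x0))) (.node (.leaf (nat_lit 0x101126)) (.leaf (nat_lit 0x0)))) (.node (.node 
(.leaf (nat_lit 0x0)) (.leaf (nat_lit 0x0))) (.node (.leaf (nat_lit 0x0)) (.leaf (nat_lit 0x0)))))) 
(.node (.node (.node (.node (.node (.leaf (nat_lit 0x0)) (.leaf (nat_lit 0x0))) 
(.leaf (nat_lit 0x0))) (.node 
(.leaf (nat_lit 0x200d2240090400000102f3720250c403d048056f900de920170a403498819d4101a702036ac405120815dc900e7b)) 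
(.leaf (nat_lit 0x0)))) (.node (.node (.leaf (nat_lit 0x0)) (.leaf (nat_lit 0x0))) (.node 
(.leaf (nat_lit 0x101f2d2031d0405e5c80eb09010d4)) (.leaf (nat_lit 0x0))))) (.node (.node (.node 
(.node (.leaf (nat_lit 0x10009c202be0403e9480bc0900e24)) (.leaf (nat_lit 0x0))) 
(.leaf (nat_lit 0x0))) (.node (.leaf (nat_lit 0x1005cb)) 
(.leaf (nat_lit 0x2001c4000000000001022c3201942403ecc80a229010d7)))) (.node (.node 
(.leaf (nat_lit 0x100bf8)) (.leaf (nat_lit 0x0))) (.node (.leaf (nat_lit 0x0)) 
(.leaf (nat_lit 0x0)))))))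
noncomputable def vt17 : Ix (Nat) := (.node (.node (.node (.node (.node (.leaf (nat_lit 0x0)) 
(.leaf (nat_lit 0x0))) (.leaf (nat_lit 0x100042))) (.node (.node (.leaf (nat_lit 0x800b210032a)) 
(.leaf (nat_lit 0x0))) (.leaf (nat_lit 0x0)))) (.node (.node (.node (.leaf (nat_lit 0x0)) 
(.leaf (nat_lit 0x0))) (.leaf (nat_lit 0x0))) (.node (.node (.leaf (nat_lit 0x100450)) 
(.leaf (nat_lit 0x0))) (.leaf (nat_lit 0x0))))) (.node (.node (.node (.node (.leaf (nat_lit 0x0)) 
(.leaf (nat_lit 0x0))) (.leaf (nat_lit 0x0))) (.node (.node (.leaf (nat_lit 0x0)) 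
(.leaf (nat_lit 0x0))) (.leaf (nat_lit 0x0)))) (.node (.node (.node (.leaf (nat_lit 0x0)) 
(.leaf (nat_lit 0x0))) (.leaf (nat_lit 0x0))) (.node (.leaf (nat_lit 0x0)) 
(.leaf (nat_lit 0x100031))))))
noncomputable def vt18 : Ix (Nat) := (.node (.node (.node (.node (.node (.leaf (nat_lit 0x0)) 
(.leaf (nat_lit 0x0))) (.leaf (nat_lit 0x0))) (.node (.leaf (nat_lit 0x0)) 
(.leaf (nat_lit 0x2003ca40008c0000000000000000000000000000000000)))) (.node (.node (.node 
(.leaf (nat_lit 0x0)) (.leaf (nat_lit 0x0))) (.leaf (nat_lit 0x0))) (.node (.leaf (nat_lit 0x0)) 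
(.leaf (nat_lit 0x0))))) (.node (.node (.node (.node (.leaf (nat_lit 0x0)) (.leaf (nat_lit 0x0))) 
(.leaf (nat_lit 0x0))) (.node (.leaf (nat_lit 0x0)) (.leaf (nat_lit 0x0)))) (.node (.node 
(.leaf (nat_lit 0x0)) (.leaf (nat_lit 0x10058820155a4043608068c9008fd))) (.node 
(.leaf (nat_lit 0x0)) (.leaf (nat_lit 0x0))))))
noncomputable def vt19 : Ix (Nat) := (.node (.node (.node (.node (.node (.leaf (nat_lit 0x100016)) 
(.leaf (nat_lit 0x0))) (.leaf (nat_lit 0x0))) (.node (.leaf (nat_lit 0x0)) 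
(.leaf (nat_lit 0x1003cb2006fc4004f4805209003e6)))) (.node (.node (.node (.leaf (nat_lit 0x0)) 
(.leaf (nat_lit 0x0))) (.leaf (nat_lit 0x0))) (.node (.leaf (nat_lit 0x1001d4)) 
(.leaf (nat_lit 0x0))))) (.node (.node (.node (.node (.leaf (nat_lit 0x0)) (.leaf (nat_lit 0x0))) 
(.leaf (nat_lit 0x10019e000000000000000000000000000000000000000000000000000000000000000000000))) 
(.node (.leaf (nat_lit 0x0)) (.leaf (nat_lit 0x0)))) (.node (.node (.leaf (nat_lit 0x0)) 
(.leaf (nat_lit 0x1005b6))) (.node (.leaf (nat_lit 0x0)) (.leaf (nat_lit 0x0))))))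
noncomputable def vt20 : Ix (Nat) := (.node (.node (.node (.node (.node (.node (.node (.node (.node 
(.leaf (nat_lit 0x0)) (.leaf (nat_lit 0x201ede401ef4803c40000002027824030d88006b90064a))) 
(.leaf (nat_lit 0x0))) (.node (.leaf (nat_lit 0x0)) (.leaf (nat_lit 0x10128b)))) (.node (.node 
(.leaf (nat_lit 0x0)) (.leaf (nat_lit 0x0))) (.node (.leaf (nat_lit 0x0)) 
(.leaf (nat_lit 0x2002e840e96081d44102fb3205e964082608249410306920554c40f20080d4e101ea9))))) (.node 
(.node (.node (.node (.leaf (nat_lit 0x0)) (.leaf (nat_lit 0x0))) (.leaf (nat_lit 0x0))) (.node 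
(.leaf (nat_lit 0x0)) (.leaf (nat_lit 0x100123)))) (.node (.node (.leaf (nat_lit 0x0)) 
(.leaf (nat_lit 0x203e60408808807ae100a1420320e4078948062f101278))) (.node (.leaf (nat_lit 0x0)) 
(.leaf (nat_lit 0x101198200f9a402b0400000000000)))))) (.node (.node (.node (.node (.node 
(.leaf (nat_lit 0x0)) (.leaf (nat_lit 0x0))) (.leaf (nat_lit 0x0))) (.node (.leaf (nat_lit 0x0)) 
(.leaf (nat_lit 0x0)))) (.node (.node (.leaf (nat_lit 0x0)) (.leaf (nat_lit 0x0))) (.node 
(.leaf (nat_lit 0x0)) (.leaf (nat_lit 0x1001ef00000000000080b2a900a9420045e40242880421000000))))) 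
(.node (.node (.node (.node (.leaf (nat_lit 0x0)) (.leaf (nat_lit 0x0))) (.leaf (nat_lit 0x0))) 
(.node (.leaf (nat_lit 0x0)) (.leaf (nat_lit 0x0)))) (.node (.node 
(.leaf (nat_lit 0x20023440186480085900301200432400a2c800f79001a1)) (.leaf (nat_lit 0x0))) (.node 
(.leaf (nat_lit 0x0)) (.leaf (nat_lit 0x81e40901de6))))))) (.node (.node (.node (.node (.node 
(.node (.leaf (nat_lit 0x0)) (.leaf (nat_lit 0x0))) (.leaf (nat_lit 0x0))) (.node 
(.leaf (nat_lit 0x0)) (.leaf (nat_lit 0x0)))) (.node (.node (.leaf (nat_lit 0x0)) 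
(.leaf (nat_lit 0x0))) (.node (.leaf (nat_lit 0x0)) (.leaf (nat_lit 0x10013a))))) (.node (.node 
(.node (.node (.leaf (nat_lit 0x0)) (.leaf (nat_lit 0x0))) (.leaf (nat_lit 0x0))) (.node 
(.leaf (nat_lit 0x0)) (.leaf (nat_lit 0x0)))) (.node (.node (.leaf (nat_lit 0x0)) 
(.leaf (nat_lit 0x0))) (.node (.leaf (nat_lit 0x0)) (.leaf (nat_lit 0x0)))))) (.node (.node (.node 
(.node (.node (.leaf (nat_lit 0x0)) (.leaf (nat_lit 0x0))) (.leaf (nat_lit 0x0))) (.node 
(.leaf (nat_lit 0x0)) (.leaf (nat_lit 0x0)))) (.node (.node (.leaf (nat_lit 0x0)) 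
(.leaf (nat_lit 0x0))) (.node (.leaf (nat_lit 0x0)) (.leaf (nat_lit 0x100019))))) (.node (.node 
(.node (.leaf (nat_lit 0x0)) (.leaf (nat_lit 0x0))) (.node (.leaf (nat_lit 0x0)) 
(.leaf (nat_lit 0x0)))) (.node (.node (.leaf (nat_lit 0x0)) (.leaf (nat_lit 0x0))) (.node 
(.leaf (nat_lit 0x0)) (.leaf (nat_lit 0x800fa000000)))))))) (.node (.node (.node (.node (.node 
(.node (.node (.leaf (nat_lit 0x401c6c802d610030620065e40097c00000000000)) (.leaf (nat_lit 0x0))) 
(.leaf (nat_lit 0x0))) (.node (.leaf (nat_lit 0x0)) (.leaf (nat_lit 0x100c28)))) (.node (.node 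
(.leaf (nat_lit 0x0)) (.leaf (nat_lit 0x0))) (.node (.leaf (nat_lit 0x0)) 
(.leaf (nat_lit 0x10035b0000000000000000000000000000000000000000000000))))) (.node (.node (.node 
(.node (.leaf (nat_lit 0x0)) (.leaf (nat_lit 0x0))) (.leaf (nat_lit 0x0))) (.node 
(.leaf (nat_lit 0x0)) (.leaf (nat_lit 0x0)))) (.node (.node (.leaf (nat_lit 0x0)) 
(.leaf (nat_lit 0x100305))) (.node (.leaf (nat_lit 0x0)) (.leaf (nat_lit 0x0)))))) (.node (.node 
(.node (.node (.node (.leaf (nat_lit 0x0)) (.leaf (nat_lit 0x0))) (.leaf (nat_lit 0x0))) (.node 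
(.leaf (nat_lit 0x0)) (.leaf (nat_lit 0x0)))) (.node (.node (.leaf (nat_lit 0x0)) 
(.leaf (nat_lit 0x0))) (.node (.leaf (nat_lit 0x0)) (.leaf (nat_lit 0x0))))) (.node (.node (.node 
(.node (.leaf (nat_lit 0x0)) (.leaf (nat_lit 0x0))) 
(.leaf (nat_lit 0x201dd4402e60802cf1004e22019104026c08076e100416))) (.node (.leaf (nat_lit 0x0)) 
(.leaf (nat_lit 0x0)))) (.node (.node (.leaf (nat_lit 0x0)) (.leaf (nat_lit 0x0))) (.node 
(.leaf (nat_lit 0x0)) (.leaf (nat_lit 0x101420))))))) (.node (.node (.node (.node (.node (.node 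
(.leaf (nat_lit 0x0)) (.leaf (nat_lit 0x0))) (.leaf (nat_lit 0x0))) (.node (.leaf (nat_lit 0x0)) 
(.leaf (nat_lit 0x0)))) (.node (.node (.leaf (nat_lit 0x0)) (.leaf (nat_lit 0x0))) (.node 
(.leaf (nat_lit 0x0)) 
(.leaf (nat_lit 0x40898c80c441015db2027c8401a6880e729026cd20407e4069a080453101187))))) (.node 
(.node (.node (.node (.leaf (nat_lit 0x8012b800000)) (.leaf (nat_lit 0x0))) (.leaf (nat_lit 0x0))) 
(.node (.leaf (nat_lit 0x0)) (.leaf (nat_lit 0x0)))) (.node (.node (.leaf (nat_lit 0x0)) 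
(.leaf (nat_lit 0x0))) (.node (.leaf (nat_lit 0x0)) 
(.leaf (nat_lit 0x8002a000000200aa600000000000101370201efa0000008045e0000002009fc402254800df1001cd)))))) 
(.node (.node (.node (.node (.node (.leaf (nat_lit 0x0)) (.leaf (nat_lit 0x0))) 
(.leaf (nat_lit 0x0))) (.node (.leaf (nat_lit 0x0)) (.leaf (nat_lit 0x100772)))) (.node (.node 
(.leaf (nat_lit 0x0)) (.leaf (nat_lit 0x0))) (.node (.leaf (nat_lit 0x0)) (.leaf (nat_lit 0x0))))) 
(.node (.node (.node (.leaf (nat_lit 0x407ac480c719021cd202fb4404fd480301100635)) 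
(.leaf (nat_lit 0x0))) (.node (.leaf (nat_lit 0x0)) (.leaf (nat_lit 0x100af2)))) (.node (.node 
(.leaf (nat_lit 0x0)) (.leaf (nat_lit 0x0))) (.node (.leaf (nat_lit 0x0)) 
(.leaf (nat_lit 0x0))))))))) (.node (.node (.node (.node (.node (.node (.node (.node 
(.leaf (nat_lit 0x0)) (.leaf (nat_lit 0x0))) (.leaf (nat_lit 0x0))) (.node (.leaf (nat_lit 0x0)) 
(.leaf (nat_lit 0x0)))) (.node (.node (.leaf (nat_lit 0x0)) (.leaf (nat_lit 0x0))) (.node 
(.leaf (nat_lit 0x0)) (.leaf (nat_lit 0x80100100000))))) (.node (.node (.node (.node 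
(.leaf (nat_lit 0x2007864000f880153000000)) (.leaf (nat_lit 0x0))) (.leaf (nat_lit 0x0))) (.node 
(.leaf (nat_lit 0x0)) (.leaf (nat_lit 0x0)))) (.node (.node (.leaf (nat_lit 0x0)) 
(.leaf (nat_lit 0x0))) (.node (.leaf (nat_lit 0x0)) (.leaf (nat_lit 0x0)))))) (.node (.node (.node 
(.node (.node (.leaf (nat_lit 0x0)) (.leaf (nat_lit 0x0))) (.leaf (nat_lit 0x0))) (.node 
(.leaf (nat_lit 0x0)) (.leaf (nat_lit 0x40017400000000000)))) (.node (.node (.leaf (nat_lit 0x0)) 
(.leaf (nat_lit 0x0))) (.node (.leaf (nat_lit 0x0)) (.leaf (nat_lit 0x0))))) (.node (.node (.node 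
(.node (.leaf (nat_lit 0x40186c80505800000)) (.leaf (nat_lit 0x0))) 
(.leaf (nat_lit 0x10012800000000000000000000000))) (.node (.leaf (nat_lit 0x0)) 
(.leaf (nat_lit 0x0)))) (.node (.node (.leaf (nat_lit 0x0)) (.leaf (nat_lit 0x0))) (.node 
(.leaf (nat_lit 0x0)) (.leaf (nat_lit 0x0))))))) (.node (.node (.node (.node (.node (.node 
(.leaf (nat_lit 0x2014b8401e7c803f8900200)) (.leaf (nat_lit 0x0))) (.leaf (nat_lit 0x0))) (.node 
(.leaf (nat_lit 0x0)) (.leaf (nat_lit 0x0)))) (.node (.node (.leaf (nat_lit 0x0)) 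
(.leaf (nat_lit 0x0))) (.node (.leaf (nat_lit 0x0)) (.leaf (nat_lit 0x0))))) (.node (.node (.node 
(.node (.leaf (nat_lit 0x40019800000000000)) (.leaf (nat_lit 0x0))) (.leaf (nat_lit 0x0))) (.node 
(.leaf (nat_lit 0x0)) (.leaf (nat_lit 0x0)))) (.node (.node (.leaf (nat_lit 0x0)) 
(.leaf (nat_lit 0x0))) (.node (.leaf (nat_lit 0x0)) (.leaf (nat_lit 0x0)))))) (.node (.node (.node 
(.node (.node (.leaf (nat_lit 0x0)) (.leaf (nat_lit 0x0))) (.leaf (nat_lit 0x0))) (.node 
(.leaf (nat_lit 0x0)) (.leaf (nat_lit 0x10013d)))) (.node (.node (.leaf (nat_lit 0x0)) 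
(.leaf (nat_lit 0x0))) (.node (.leaf (nat_lit 0x0)) (.leaf (nat_lit 0x100440))))) (.node (.node 
(.node (.leaf (nat_lit 0x0)) (.leaf (nat_lit 0x1005130000004018748050c800000))) (.node 
(.leaf (nat_lit 0x0)) 
(.leaf (nat_lit 0x809620000000000000000000000010028d200dba405b30809b8901d7e2021e44044cc809ce100fe92022a24046ec8055a800000)))) 
(.node (.node (.leaf (nat_lit 0x0)) (.leaf (nat_lit 0x100964))) (.node (.leaf (nat_lit 0x0)) 
(.leaf (nat_lit 0x4027d0814ae101663)))))))) (.node (.node (.node (.node (.node (.node (.node 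
(.leaf (nat_lit 0x20023e00000000000000000)) (.leaf (nat_lit 0x0))) (.leaf (nat_lit 0x0))) (.node 
(.leaf (nat_lit 0x0)) (.leaf (nat_lit 0x0)))) (.node (.node (.leaf (nat_lit 0x0)) 
(.leaf (nat_lit 0x0))) (.node (.leaf (nat_lit 0x0)) (.leaf (nat_lit 0x0))))) (.node (.node (.node 
(.node (.leaf (nat_lit 0x1007422009d00000008036f000000)) (.leaf (nat_lit 0x0))) 
(.leaf (nat_lit 0x0))) (.node (.leaf (nat_lit 0x0)) (.leaf (nat_lit 0x0)))) (.node (.node 
(.leaf (nat_lit 0x0)) (.leaf (nat_lit 0x100f5b))) (.node (.leaf (nat_lit 0x0)) 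
(.leaf (nat_lit 0x0)))))) (.node (.node (.node (.node (.node (.leaf (nat_lit 0x0)) 
(.leaf (nat_lit 0x0))) (.leaf (nat_lit 0x0))) (.node (.leaf (nat_lit 0x0)) (.leaf (nat_lit 0x0)))) 
(.node (.node (.leaf (nat_lit 0x0)) (.leaf (nat_lit 0x0))) (.node (.leaf (nat_lit 0x0)) 
(.leaf (nat_lit 0x0))))) (.node (.node (.node (.node (.leaf (nat_lit 0x0)) (.leaf (nat_lit 0x0))) 
(.leaf (nat_lit 0x80428800000))) (.node (.leaf (nat_lit 0x0)) (.leaf (nat_lit 0x0)))) (.node (.node 
(.leaf (nat_lit 0x0)) (.leaf (nat_lit 0x804d29001de2010e040145000000000000))) (.node 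
(.leaf (nat_lit 0x0)) (.leaf (nat_lit 0x800721036a0))))))) (.node (.node (.node (.node (.node 
(.node (.leaf (nat_lit 0x0)) (.leaf (nat_lit 0x0))) (.leaf (nat_lit 0x0))) (.node 
(.leaf (nat_lit 0x0)) (.leaf (nat_lit 0x0)))) (.node (.node (.leaf (nat_lit 0x0)) 
(.leaf (nat_lit 0x0))) (.node (.leaf (nat_lit 0x0)) (.leaf (nat_lit 0x0))))) (.node (.node (.node 
(.node (.leaf (nat_lit 0x0)) (.leaf (nat_lit 0x0))) (.leaf (nat_lit 0x0))) (.node 
(.leaf (nat_lit 0x0)) (.leaf (nat_lit 0x1001e000000000000000000000000)))) (.node (.node 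
(.leaf (nat_lit 0x0)) (.leaf (nat_lit 0x0))) (.node (.leaf (nat_lit 0x0)) 
(.leaf (nat_lit 0x801f210051c)))))) (.node (.node (.node (.node (.node 
(.leaf (nat_lit 0x800d7000000)) (.leaf (nat_lit 0x0))) (.leaf (nat_lit 0x0))) (.node 
(.leaf (nat_lit 0x0)) (.leaf (nat_lit 0x0)))) (.node (.node (.leaf (nat_lit 0x0)) 
(.leaf (nat_lit 0x0))) (.node (.leaf (nat_lit 0x0)) (.leaf (nat_lit 0x1006dd))))) (.node (.node 
(.node (.leaf (nat_lit 0x0)) (.leaf (nat_lit 0x0))) (.node (.leaf (nat_lit 0x0)) 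
(.leaf (nat_lit 0x80103000000)))) (.node (.node (.leaf (nat_lit 0x0)) (.leaf (nat_lit 0x0))) (.node 
(.leaf (nat_lit 0x0)) (.leaf (nat_lit 0x0))))))))))
noncomputable def vt21 : Ix (Nat) := (.node (.node (.node (.node (.node (.node 
(.leaf (nat_lit 0x10003c2010144009a0805911002e0202238404fc4000001001612012200000008041a90100220041a40005480bf50000002009b2404478806d590132f20350e4070ec80a7c101a90202fde40526480d579014fb)) 
(.leaf (nat_lit 0x100432))) (.leaf (nat_lit 0x0))) (.node (.leaf (nat_lit 0x400b9880b1210209e)) 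
(.leaf (nat_lit 0x0)))) (.node (.node (.leaf (nat_lit 0x0)) (.leaf (nat_lit 0x0))) (.node 
(.leaf (nat_lit 0x4074f8809569018d4)) (.leaf (nat_lit 0x0))))) (.node (.node (.node (.node 
(.leaf (nat_lit 0x40255080532900548)) (.leaf (nat_lit 0x1007b9))) (.leaf (nat_lit 0x0))) (.node 
(.leaf (nat_lit 0x8071810097f203b22411e7c8102c1032232039084072e080e5b10222c203604407f9082dcc101d22)) 
(.leaf (nat_lit 0x100402)))) (.node (.node (.leaf (nat_lit 0x40a6d480163101b79)) 
(.leaf (nat_lit 0x0))) (.node (.leaf (nat_lit 0x413758815ca9030d9)) (.leaf (nat_lit 0x0)))))) 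
(.node (.node (.node (.node (.node (.leaf (nat_lit 0x0)) (.leaf (nat_lit 0x0))) 
(.leaf (nat_lit 0x0))) (.node 
(.leaf (nat_lit 0x403a4c8085b100a562066124059d480bb6101e65207a324076c480f3510214d2039f64082f081d62101d1f203dbe407ef880e66902098203dc8405c8c80ec4101b6a)) 
(.leaf (nat_lit 0x0)))) (.node (.node (.leaf (nat_lit 0x402b6c80262100477)) (.leaf (nat_lit 0x0))) 
(.node (.leaf (nat_lit 0x40692480d76901a0f)) (.leaf (nat_lit 0x8025d900279))))) (.node (.node 
(.node (.node (.leaf (nat_lit 0x40d00c8111e90238e)) (.leaf (nat_lit 0x802c110268d))) 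
(.leaf (nat_lit 0x0))) (.node (.leaf (nat_lit 0x802b2100be4)) 
(.leaf (nat_lit 0x100ef82016de40143480bb49024d5203c604091a080c3f9012ce)))) (.node (.node 
(.leaf (nat_lit 0x4013e882834101d65204336411c8c80e1a901e70)) (.leaf (nat_lit 0x10046f))) (.node 
(.leaf (nat_lit 0x1003262011ae00000000000100a6720092c4000ac00000100278201ca4407f6480cdc9014b3)) 
(.leaf (nat_lit 0x0)))))))
noncomputable def vt22 : Ix (Nat) := (.node (.node (.node (.node (.node (.node 
(.leaf (nat_lit 0x1001a70000004019b48081e100ec120299a404628807b91001dc)) 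
(.leaf (nat_lit 0x2015ca4023908105a9027512051c8409684812bf9008fe))) (.node (.leaf (nat_lit 0x0)) 
(.leaf (nat_lit 0x80e95903c53)))) (.node (.node (.leaf (nat_lit 0x0)) 
(.leaf (nat_lit 0x800b490120c2023a4406aec805c490090c))) (.leaf (nat_lit 0x10021c)))) (.node (.node 
(.node (.leaf (nat_lit 0x10121a)) (.leaf (nat_lit 0x102cde))) (.leaf (nat_lit 0x10022b))) (.node 
(.node (.leaf (nat_lit 0x1003bb)) (.leaf (nat_lit 0x1002ab))) (.leaf (nat_lit 0x801241001bb))))) 
(.node (.node (.node (.node (.leaf (nat_lit 0x101e40)) (.leaf (nat_lit 0x103498))) 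
(.leaf (nat_lit 0x100163))) (.node (.node (.leaf (nat_lit 0x1002d120b8de416d588258010266d)) 
(.leaf (nat_lit 0x101ae2))) (.leaf (nat_lit 0x80570900359200940409164813301004f3)))) (.node (.node 
(.node (.leaf (nat_lit 0x101279)) (.leaf (nat_lit 0x101dec))) (.leaf (nat_lit 0x0))) (.node (.node 
(.leaf (nat_lit 0x10053c)) (.leaf (nat_lit 0x0))) (.leaf (nat_lit 0x1004af)))))) (.node (.node 
(.node (.node (.node (.leaf (nat_lit 0x1009c72028e64026b480af1100abd2028a040587080be5101501)) 
(.leaf (nat_lit 0x102162))) (.node (.leaf (nat_lit 0x1002bd)) (.leaf (nat_lit 0x80e8a103b1b)))) 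
(.node (.node (.leaf (nat_lit 0x1003c4)) (.leaf (nat_lit 0x100c2c))) (.leaf (nat_lit 0x0)))) (.node 
(.node (.node (.leaf (nat_lit 0x80191000000208a5240d0648218e101478)) (.leaf (nat_lit 0x103348))) 
(.leaf (nat_lit 0x201bfc401b2480395800000))) (.node (.node (.leaf (nat_lit 0x1009c7)) 
(.leaf (nat_lit 0x401f108114b901e3320129c4102008203890265b2083aa40fde8813d9902cbd))) 
(.leaf (nat_lit 0x0))))) (.node (.node (.node (.node (.leaf (nat_lit 0x802eb1001c9)) 
(.leaf (nat_lit 0x10263a))) (.leaf (nat_lit 0x0))) (.node (.node (.leaf (nat_lit 0x0)) 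
(.leaf (nat_lit 0x101f83))) (.leaf (nat_lit 0x0)))) (.node (.node (.node (.leaf (nat_lit 0x1001bc)) 
(.leaf (nat_lit 0x1031c6))) (.leaf (nat_lit 0x100c09))) (.node (.node (.leaf (nat_lit 0x0)) 
(.leaf (nat_lit 0x101027))) (.leaf (nat_lit 0x0)))))))
noncomputable def vt23 : Ix (Nat) := (.node (.node (.node (.node (.node 
(.leaf (nat_lit 0x20053a4041c0815f7102a9c2032c2407cc881f1310400b)) (.leaf (nat_lit 0x1022cc))) 
(.node (.leaf (nat_lit 0x101daa)) (.leaf (nat_lit 0x40e7bc80d6b902c85)))) (.node (.node 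
(.leaf (nat_lit 0x100b25)) 
(.leaf (nat_lit 0x406a0c80578000000206996414ca481681103b592061a2411898818201038a92045184094ec81406102b8c2051584090548149a9017162055da40a3b881012903a58))) 
(.leaf (nat_lit 0x80e529013c7)))) (.node (.node (.node (.leaf (nat_lit 0x101608)) 
(.leaf (nat_lit 0x1020dd))) (.node (.leaf (nat_lit 0x102f5c)) 
(.leaf (nat_lit 0x203362415a6482052904f92)))) (.node (.node (.leaf (nat_lit 0x0)) 
(.leaf (nat_lit 0x2021b4411aec82934104b3e))) (.leaf (nat_lit 0x101a4e))))) (.node (.node (.node 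
(.node (.leaf (nat_lit 0x0)) (.leaf (nat_lit 0x1021bd))) (.node (.leaf (nat_lit 0x102a13)) 
(.leaf (nat_lit 0x201a02410acc81bc6103e5d)))) (.node (.node (.leaf (nat_lit 0x1028f7)) 
(.leaf (nat_lit 0x40d950817841039eb))) (.leaf (nat_lit 0x80fbb901d31)))) (.node (.node (.node 
(.leaf (nat_lit 0x1013a3)) (.leaf (nat_lit 0x102625))) 
(.leaf (nat_lit 0x8125c10241d203c9841067c81ba810420c))) (.node (.node (.leaf (nat_lit 0x10272f)) 
(.leaf (nat_lit 0x2026ba41a1ec825fa104d74))) (.leaf (nat_lit 0x101baa))))))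
noncomputable def vt24 : Ix (Nat) := (.node (.node (.node (.node (.node (.leaf (nat_lit 0x0)) 
(.leaf (nat_lit 0x403560000001002b8))) (.leaf (nat_lit 0x100a52))) (.node (.node 
(.leaf (nat_lit 0x0)) (.leaf (nat_lit 0x0))) (.leaf (nat_lit 0x1021e620125e40169c804e7800000)))) 
(.node (.node (.node (.leaf (nat_lit 0x0)) (.leaf (nat_lit 0x4000bc00000000000))) 
(.leaf (nat_lit 0x0))) (.node (.node (.leaf (nat_lit 0x100aa3)) (.leaf (nat_lit 0x0))) 
(.leaf (nat_lit 0x203fce405f3c8141f901116))))) (.node (.node (.node (.node (.leaf (nat_lit 0x0)) 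
(.leaf (nat_lit 0x202a5240fc5c80ad0101302))) 
(.leaf (nat_lit 0x1004030000000000008006d0000000000000000000000000000000000000000000000000000))) 
(.node (.node (.leaf (nat_lit 0x1000d8)) (.leaf (nat_lit 0x0))) 
(.leaf (nat_lit 0x1031322045e2405ccc80e221014a4)))) (.node (.node (.node (.leaf (nat_lit 0x0)) 
(.leaf (nat_lit 0x80066800000))) (.leaf (nat_lit 0x10279d202a7c40b89c80c5290125a))) (.node 
(.leaf (nat_lit 0x0)) (.leaf (nat_lit 0x204a20406af481533101a40))))))
noncomputable def vt25 : Ix (Nat) := (.node (.node (.node (.node (.node (.node 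
(.leaf (nat_lit 0x0)) (.leaf (nat_lit 0x10000a203b2a404b18812c610109d))) (.leaf (nat_lit 0x0))) 
(.node (.leaf (nat_lit 0x100142)) (.leaf (nat_lit 0x810b79013a9)))) (.node (.node 
(.leaf (nat_lit 0x0)) (.leaf (nat_lit 0x2001a240acac80e23901311))) (.node (.leaf (nat_lit 0x0)) 
(.leaf (nat_lit 0x4059dc819cc90245b))))) (.node (.node (.node (.leaf (nat_lit 0x0)) 
(.leaf (nat_lit 0x20245040584c80a82000000))) (.node (.leaf (nat_lit 0x0)) 
(.leaf (nat_lit 0x4040548049010098e2048bc402a408091c1015052020fc403fe881bfc90237520234040db508081a1010c5)))) 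
(.node (.node (.leaf (nat_lit 0x0)) (.leaf (nat_lit 0x8085e900e08))) (.node (.leaf (nat_lit 0x0)) 
(.leaf (nat_lit 0x1006e22020ae40996c80ba8901155)))))) (.node (.node (.node (.node (.node 
(.leaf (nat_lit 0x0)) (.leaf (nat_lit 0x4088e880bdc900def))) 
(.leaf (nat_lit 0x200292403bdc00000000000000000000000000001001f920223c401670809b990072b201ffc40544880aee10038b))) 
(.node (.leaf (nat_lit 0x10073a201e4e40123081199100ca22024a04027608119590098c)) 
(.leaf (nat_lit 0x40751481809101808)))) (.node (.node (.leaf (nat_lit 0x0)) (.leaf (nat_lit 0x0))) 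
(.node (.leaf (nat_lit 0x0)) (.leaf (nat_lit 0x408160819c8902ade))))) (.node (.node (.node 
(.leaf (nat_lit 0x0)) (.leaf (nat_lit 0x20208a405d8080a0c100131))) (.node 
(.leaf (nat_lit 0x80166000000)) (.leaf (nat_lit 0x4028bc808c6100de1)))) (.node (.node 
(.leaf (nat_lit 0x0)) (.leaf (nat_lit 0x0))) (.node (.leaf (nat_lit 0x0)) 
(.leaf (nat_lit 0x20231a40569080b74100eb0)))))))
noncomputable def vt26 : Ix (Nat) := (.node (.node (.node (.node (.node (.leaf (nat_lit 0x0)) 
(.leaf (nat_lit 0x0))) (.leaf (nat_lit 0x0))) (.node (.leaf (nat_lit 0x0)) (.leaf (nat_lit 0x0)))) 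
(.node (.node (.node (.leaf (nat_lit 0x0)) (.leaf (nat_lit 0x0))) (.leaf (nat_lit 0x0))) (.node 
(.leaf (nat_lit 0x100543)) (.leaf (nat_lit 0x0))))) (.node (.node (.node (.node 
(.leaf (nat_lit 0x0)) (.leaf (nat_lit 0x0))) 
(.leaf (nat_lit 0x4000d400000000000000000000000000000000000000000000008041b000000000000000000000000000000000000000000000000000000000000000000000000000))) 
(.node (.leaf (nat_lit 0x0)) (.leaf (nat_lit 0x0)))) (.node (.node (.leaf (nat_lit 0x0)) 
(.leaf (nat_lit 0x404d6880711900b10))) (.node (.leaf (nat_lit 0x0)) (.leaf (nat_lit 0x0))))))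
noncomputable def vt27 : Ix (Nat) := (.node (.node (.node (.node (.node (.leaf (nat_lit 0x0)) 
(.leaf (nat_lit 0x0))) (.node (.leaf (nat_lit 0x0)) (.leaf (nat_lit 0x2024f0404eb0808ab9006a6)))) 
(.node (.node (.leaf (nat_lit 0x0)) (.leaf (nat_lit 0x0))) (.node (.leaf (nat_lit 0x0)) 
(.leaf (nat_lit 0x0))))) (.node (.node (.node (.leaf (nat_lit 0x0)) (.leaf (nat_lit 0x0))) (.node 
(.leaf (nat_lit 0x0)) (.leaf (nat_lit 0x0)))) (.node (.node (.leaf (nat_lit 0x0)) 
(.leaf (nat_lit 0x204d4040f428813fe900bcc))) (.leaf (nat_lit 0x0))))) (.node (.node (.node (.node 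
(.leaf (nat_lit 0x0)) (.leaf (nat_lit 0x0))) (.node (.leaf (nat_lit 0x0)) 
(.leaf (nat_lit 0x100098)))) (.node (.node (.leaf (nat_lit 0x0)) (.leaf (nat_lit 0x0))) (.node 
(.leaf (nat_lit 0x0)) (.leaf (nat_lit 0x0))))) (.node (.node (.node (.leaf (nat_lit 0x0)) 
(.leaf (nat_lit 0x0))) (.node (.leaf (nat_lit 0x10068f200a4600000000000100821)) 
(.leaf (nat_lit 0x100146)))) (.node (.node (.leaf (nat_lit 0x0)) 
(.leaf (nat_lit 0x40dae081a90900c72))) (.leaf (nat_lit 0x0))))))
noncomputable def vt28 : Ix (Nat) := (.node (.node (.node (.node (.node (.node (.node (.node (.node 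
(.leaf (nat_lit 0x0)) (.leaf (nat_lit 0x0))) (.leaf (nat_lit 0x0))) (.node (.leaf (nat_lit 0x0)) 
(.leaf (nat_lit 0x102415)))) (.node (.node (.leaf (nat_lit 0x0)) (.leaf (nat_lit 0x0))) (.node 
(.leaf (nat_lit 0x0)) (.leaf (nat_lit 0x400c4880566900f62))))) (.node (.node (.node (.node 
(.leaf (nat_lit 0x0)) (.leaf (nat_lit 0x0))) (.leaf (nat_lit 0x0))) (.node (.leaf (nat_lit 0x0)) 
(.leaf (nat_lit 0x1000c5)))) (.node (.node (.leaf (nat_lit 0x0)) 
(.leaf (nat_lit 0x2007c6000000000000000002016fa40080080212100e9c))) (.node (.leaf (nat_lit 0x0)) 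
(.leaf (nat_lit 0x1008ba20116e40251480686800000)))))) (.node (.node (.node (.node (.node 
(.leaf (nat_lit 0x0)) (.leaf (nat_lit 0x0))) (.leaf (nat_lit 0x0))) (.node (.leaf (nat_lit 0x0)) 
(.leaf (nat_lit 0x0)))) (.node (.node (.leaf (nat_lit 0x0)) (.leaf (nat_lit 0x0))) (.node 
(.leaf (nat_lit 0x0)) 
(.leaf (nat_lit 0x201570401334806a7900fbc2017744020a0805c2101241201a524030308060d100652))))) (.node 
(.node (.node (.node (.leaf (nat_lit 0x0)) (.leaf (nat_lit 0x0))) (.leaf (nat_lit 0x0))) (.node 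
(.leaf (nat_lit 0x0)) (.leaf (nat_lit 0x0)))) (.node (.node (.leaf (nat_lit 0x8013f9000bf)) 
(.leaf (nat_lit 0x100025))) (.node (.leaf (nat_lit 0x0)) (.leaf (nat_lit 0x80089902958))))))) 
(.node (.node (.node (.node (.node (.node (.leaf (nat_lit 0x0)) (.leaf (nat_lit 0x0))) 
(.leaf (nat_lit 0x0))) (.node (.leaf (nat_lit 0x0)) (.leaf (nat_lit 0x0)))) (.node (.node 
(.leaf (nat_lit 0x0)) (.leaf (nat_lit 0x0))) (.node (.leaf (nat_lit 0x0)) (.leaf (nat_lit 0x0))))) 
(.node (.node (.node (.node (.leaf (nat_lit 0x0)) (.leaf (nat_lit 0x0))) (.leaf (nat_lit 0x0))) 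
(.node (.leaf (nat_lit 0x0)) (.leaf (nat_lit 0x0)))) (.node (.node (.leaf (nat_lit 0x0)) 
(.leaf (nat_lit 0x100550))) (.node (.leaf (nat_lit 0x0)) 
(.leaf (nat_lit 0x100cf2202070401bc4805d51005c9)))))) (.node (.node (.node (.node (.node 
(.leaf (nat_lit 0x0)) (.leaf (nat_lit 0x0))) (.leaf (nat_lit 0x0))) (.node (.leaf (nat_lit 0x0)) 
(.leaf (nat_lit 0x0)))) (.node (.node (.leaf (nat_lit 0x0)) (.leaf (nat_lit 0x0))) (.node 
(.leaf (nat_lit 0x0)) (.leaf (nat_lit 0x8049c10207b))))) (.node (.node (.node (.leaf (nat_lit 0x0)) 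
(.leaf (nat_lit 0x0))) (.node (.leaf (nat_lit 0x0)) (.leaf (nat_lit 0x0)))) (.node (.node 
(.leaf (nat_lit 0x0)) (.leaf (nat_lit 0x0))) (.node (.leaf (nat_lit 0x0)) 
(.leaf (nat_lit 0x0)))))))) (.node (.node (.node (.node (.node (.node (.node (.leaf (nat_lit 0x0)) 
(.leaf (nat_lit 0x0))) (.leaf (nat_lit 0x0))) (.node (.leaf (nat_lit 0x0)) 
(.leaf (nat_lit 0x100ad6)))) (.node (.node (.leaf (nat_lit 0x0)) (.leaf (nat_lit 0x0))) (.node 
(.leaf (nat_lit 0x0)) (.leaf (nat_lit 0x0))))) (.node (.node (.node (.node (.leaf (nat_lit 0x0)) 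
(.leaf (nat_lit 0x0))) (.leaf (nat_lit 0x0))) (.node (.leaf (nat_lit 0x0)) (.leaf (nat_lit 0x0)))) 
(.node (.node (.leaf (nat_lit 0x0)) (.leaf (nat_lit 0x10063e))) (.node (.leaf (nat_lit 0x0)) 
(.leaf (nat_lit 0x0)))))) (.node (.node (.node (.node (.node (.leaf (nat_lit 0x0)) 
(.leaf (nat_lit 0x0))) (.leaf (nat_lit 0x0))) (.node (.leaf (nat_lit 0x0)) (.leaf (nat_lit 0x0)))) 
(.node (.node (.leaf (nat_lit 0x0)) (.leaf (nat_lit 0x0))) (.node (.leaf (nat_lit 0x0)) 
(.leaf (nat_lit 0x101668))))) (.node (.node (.node (.node (.leaf (nat_lit 0x0)) 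
(.leaf (nat_lit 0x0))) (.leaf (nat_lit 0x0))) (.node (.leaf (nat_lit 0x0)) (.leaf (nat_lit 0x0)))) 
(.node (.node (.leaf (nat_lit 0x0)) (.leaf (nat_lit 0x0))) (.node (.leaf (nat_lit 0x0)) 
(.leaf (nat_lit 0x101395))))))) (.node (.node (.node (.node (.node (.node (.leaf (nat_lit 0x0)) 
(.leaf (nat_lit 0x0))) (.leaf (nat_lit 0x0))) (.node (.leaf (nat_lit 0x0)) (.leaf (nat_lit 0x0)))) 
(.node (.node (.leaf (nat_lit 0x0)) (.leaf (nat_lit 0x0))) (.node (.leaf (nat_lit 0x0)) 
(.leaf (nat_lit 0x0))))) (.node (.node (.node (.node (.leaf (nat_lit 0x0)) (.leaf (nat_lit 0x0))) 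
(.leaf (nat_lit 0x0))) (.node (.leaf (nat_lit 0x0)) (.leaf (nat_lit 0x0)))) (.node (.node 
(.leaf (nat_lit 0x0)) (.leaf (nat_lit 0x0))) (.node (.leaf (nat_lit 0x0)) 
(.leaf (nat_lit 0x4014b0000000000002014ca400068802eb900537)))))) (.node (.node (.node (.node (.node 
(.leaf (nat_lit 0x405bbc802b19004e2)) (.leaf (nat_lit 0x0))) (.leaf (nat_lit 0x0))) (.node 
(.leaf (nat_lit 0x0)) (.leaf (nat_lit 0x100831)))) (.node (.node (.leaf (nat_lit 0x0)) 
(.leaf (nat_lit 0x0))) (.node (.leaf (nat_lit 0x0)) (.leaf (nat_lit 0x100857))))) (.node (.node 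
(.node (.leaf (nat_lit 0x0)) (.leaf (nat_lit 0x0))) (.node (.leaf (nat_lit 0x0)) 
(.leaf (nat_lit 0x8073f900c9d)))) (.node (.node (.leaf (nat_lit 0x0)) (.leaf (nat_lit 0x0))) (.node 
(.leaf (nat_lit 0x0)) (.leaf (nat_lit 0x0))))))))) (.node (.node (.node (.node (.node (.node (.node 
(.node (.leaf (nat_lit 0x0)) (.leaf (nat_lit 0x0))) (.leaf (nat_lit 0x0))) (.node 
(.leaf (nat_lit 0x0)) (.leaf (nat_lit 0x0)))) (.node (.node (.leaf (nat_lit 0x0)) 
(.leaf (nat_lit 0x0))) (.node (.leaf (nat_lit 0x0)) (.leaf (nat_lit 0x10030a))))) (.node (.node 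
(.node (.node (.leaf (nat_lit 0x0)) (.leaf (nat_lit 0x0))) (.leaf (nat_lit 0x0))) (.node 
(.leaf (nat_lit 0x0)) (.leaf (nat_lit 0x0)))) (.node (.node (.leaf (nat_lit 0x0)) 
(.leaf (nat_lit 0x0))) (.node (.leaf (nat_lit 0x0)) (.leaf (nat_lit 0x0)))))) (.node (.node (.node 
(.node (.node (.leaf (nat_lit 0x0)) (.leaf (nat_lit 0x0))) (.leaf (nat_lit 0x0))) (.node 
(.leaf (nat_lit 0x0)) (.leaf (nat_lit 0x401f7880605800000)))) (.node (.node (.leaf (nat_lit 0x0)) 
(.leaf (nat_lit 0x0))) (.node (.leaf (nat_lit 0x0)) (.leaf (nat_lit 0x0))))) (.node (.node (.node 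
(.node (.leaf (nat_lit 0x2001ca401db000000000000)) (.leaf (nat_lit 0x0))) (.leaf (nat_lit 0x0))) 
(.node (.leaf (nat_lit 0x0)) (.leaf (nat_lit 0x0)))) (.node (.node (.leaf (nat_lit 0x10016c)) 
(.leaf (nat_lit 0x80021800000))) (.node (.leaf (nat_lit 0x0)) (.leaf (nat_lit 0x100161))))))) 
(.node (.node (.node (.node (.node (.node (.leaf (nat_lit 0x0)) (.leaf (nat_lit 0x0))) 
(.leaf (nat_lit 0x0))) (.node (.leaf (nat_lit 0x0)) (.leaf (nat_lit 0x1000de)))) (.node (.node 
(.leaf (nat_lit 0x0)) (.leaf (nat_lit 0x0))) (.node (.leaf (nat_lit 0x0)) (.leaf (nat_lit 0x0))))) 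
(.node (.node (.node (.node (.leaf (nat_lit 0x0)) (.leaf (nat_lit 0x0))) (.leaf (nat_lit 0x0))) 
(.node (.leaf (nat_lit 0x0)) (.leaf (nat_lit 0x0)))) (.node (.node (.leaf (nat_lit 0x0)) 
(.leaf (nat_lit 0x0))) (.node (.leaf (nat_lit 0x0)) (.leaf (nat_lit 0x0)))))) (.node (.node (.node 
(.node (.node (.leaf (nat_lit 0x0)) (.leaf (nat_lit 0x0))) (.leaf (nat_lit 0x0))) (.node 
(.leaf (nat_lit 0x0)) (.leaf (nat_lit 0x0)))) (.node (.node (.leaf (nat_lit 0x0)) 
(.leaf (nat_lit 0x0))) (.node (.leaf (nat_lit 0x0)) (.leaf (nat_lit 0x8052a10226d))))) (.node 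
(.node (.node (.leaf (nat_lit 0x0)) (.leaf (nat_lit 0x0))) (.node (.leaf (nat_lit 0x0)) 
(.leaf (nat_lit 0x201f7400000080af480000020079c40168c8058010008d)))) (.node (.node 
(.leaf (nat_lit 0x0)) (.leaf (nat_lit 0x100b8a))) (.node (.leaf (nat_lit 0x0)) 
(.leaf (nat_lit 0x8049e9016d1)))))))) (.node (.node (.node (.node (.node (.node (.node 
(.leaf (nat_lit 0x0)) (.leaf (nat_lit 0x0))) (.leaf (nat_lit 0x0))) (.node (.leaf (nat_lit 0x0)) 
(.leaf (nat_lit 0x0)))) (.node (.node (.leaf (nat_lit 0x0)) (.leaf (nat_lit 0x0))) (.node 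
(.leaf (nat_lit 0x0)) (.leaf (nat_lit 0x0))))) (.node (.node (.node (.node (.leaf (nat_lit 0x0)) 
(.leaf (nat_lit 0x0))) (.leaf (nat_lit 0x0))) (.node (.leaf (nat_lit 0x0)) (.leaf (nat_lit 0x0)))) 
(.node (.node (.leaf (nat_lit 0x0)) (.leaf (nat_lit 0x4018ec80a63900ed9))) (.node 
(.leaf (nat_lit 0x0)) (.leaf (nat_lit 0x0)))))) (.node (.node (.node (.node (.node 
(.leaf (nat_lit 0x0)) (.leaf (nat_lit 0x0))) (.leaf (nat_lit 0x0))) (.node (.leaf (nat_lit 0x0)) 
(.leaf (nat_lit 0x0)))) (.node (.node (.leaf (nat_lit 0x0)) (.leaf (nat_lit 0x0))) (.node 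
(.leaf (nat_lit 0x0)) (.leaf (nat_lit 0x800a51016ad))))) (.node (.node (.node (.node 
(.leaf (nat_lit 0x0)) (.leaf (nat_lit 0x0))) (.leaf (nat_lit 0x0))) (.node (.leaf (nat_lit 0x0)) 
(.leaf (nat_lit 0x0)))) (.node (.node (.leaf (nat_lit 0x0)) (.leaf (nat_lit 0x0))) (.node 
(.leaf (nat_lit 0x0)) (.leaf (nat_lit 0x8025d9023a5))))))) (.node (.node (.node (.node (.node 
(.node (.leaf (nat_lit 0x0)) (.leaf (nat_lit 0x0))) (.leaf (nat_lit 0x0))) (.node 
(.leaf (nat_lit 0x0)) (.leaf (nat_lit 0x0)))) (.node (.node (.leaf (nat_lit 0x0)) 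
(.leaf (nat_lit 0x0))) (.node (.leaf (nat_lit 0x0)) (.leaf (nat_lit 0x0))))) (.node (.node (.node 
(.node (.leaf (nat_lit 0x0)) (.leaf (nat_lit 0x0))) (.leaf (nat_lit 0x0))) (.node 
(.leaf (nat_lit 0x0)) (.leaf (nat_lit 0x0)))) (.node (.node (.leaf (nat_lit 0x0)) 
(.leaf (nat_lit 0x0))) (.node (.leaf (nat_lit 0x0)) (.leaf (nat_lit 0x0)))))) (.node (.node (.node 
(.node (.node (.leaf (nat_lit 0x4066008034a900c6f)) (.leaf (nat_lit 0x0))) (.leaf (nat_lit 0x0))) 
(.node (.leaf (nat_lit 0x0)) (.leaf (nat_lit 0x0)))) (.node (.node (.leaf (nat_lit 0x0)) 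
(.leaf (nat_lit 0x0))) (.node (.leaf (nat_lit 0x0)) (.leaf (nat_lit 0x803fd101d1d))))) (.node 
(.node (.node (.leaf (nat_lit 0x0)) (.leaf (nat_lit 0x0))) (.node (.leaf (nat_lit 0x0)) 
(.leaf (nat_lit 0x0)))) (.node (.node (.leaf (nat_lit 0x0)) (.leaf (nat_lit 0x100705))) (.node 
(.leaf (nat_lit 0x0)) (.leaf (nat_lit 0x0))))))))))
noncomputable def vt29 : Ix (Nat) := (.node (.node (.node (.node (.node (.node 
(.leaf (nat_lit 0x100f18000000000000801e900000020114e0000000000000000000000000000000000000000)) 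
(.leaf (nat_lit 0x0))) (.leaf (nat_lit 0x0))) (.node (.leaf (nat_lit 0x0)) (.leaf (nat_lit 0x0)))) 
(.node (.node (.leaf (nat_lit 0x0)) (.leaf (nat_lit 0x0))) (.node 
(.leaf (nat_lit 0x1006a4200646402a188035c90078c)) (.leaf (nat_lit 0x0))))) (.node (.node (.node 
(.node (.leaf (nat_lit 0x101f85201dfc402be88107f900dbc)) (.leaf (nat_lit 0x0))) 
(.leaf (nat_lit 0x0))) (.node (.leaf (nat_lit 0x101126)) (.leaf (nat_lit 0x0)))) (.node (.node 
(.leaf (nat_lit 0x0)) (.leaf (nat_lit 0x0))) (.node (.leaf (nat_lit 0x0)) (.leaf (nat_lit 0x0)))))) 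
(.node (.node (.node (.node (.node (.leaf (nat_lit 0x0)) (.leaf (nat_lit 0x0))) 
(.leaf (nat_lit 0x0))) (.node 
(.leaf (nat_lit 0x200d2240090400000102f3720250c403d048056f900de920170a403498819d4101a702036ac405120815dc900e7b)) 
(.leaf (nat_lit 0x0)))) (.node (.node (.leaf (nat_lit 0x0)) (.leaf (nat_lit 0x0))) (.node 
(.leaf (nat_lit 0x101f2d2031d0405e5c80eb09010d4)) (.leaf (nat_lit 0x0))))) (.node (.node (.node 
(.node (.leaf (nat_lit 0x10009c202be0403e9480bc0900e24)) (.leaf (nat_lit 0x0))) 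
(.leaf (nat_lit 0x0))) (.node (.leaf (nat_lit 0x1005cb)) 
(.leaf (nat_lit 0x2001c4000000000001022c3201942403ecc80a229010d7)))) (.node (.node 
(.leaf (nat_lit 0x100bf8)) (.leaf (nat_lit 0x0))) (.node (.leaf (nat_lit 0x0)) 
(.leaf (nat_lit 0x0)))))))
noncomputable def vt30 : Ix (Nat) := (.node (.node (.node (.node (.node (.leaf (nat_lit 0x0)) 
(.leaf (nat_lit 0x0))) (.leaf (nat_lit 0x100042))) (.node (.node (.leaf (nat_lit 0x800b210032a)) 
(.leaf (nat_lit 0x0))) (.leaf (nat_lit 0x0)))) (.node (.node (.node (.leaf (nat_lit 0x0)) 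
(.leaf (nat_lit 0x0))) (.leaf (nat_lit 0x0))) (.node (.node (.leaf (nat_lit 0x100450)) 
(.leaf (nat_lit 0x0))) (.leaf (nat_lit 0x0))))) (.node (.node (.node (.node (.leaf (nat_lit 0x0)) 
(.leaf (nat_lit 0x0))) (.leaf (nat_lit 0x0))) (.node (.node (.leaf (nat_lit 0x0)) 
(.leaf (nat_lit 0x0))) (.leaf (nat_lit 0x0)))) (.node (.node (.node (.leaf (nat_lit 0x0)) 
(.leaf (nat_lit 0x0))) (.leaf (nat_lit 0x0))) (.node (.leaf (nat_lit 0x0)) 
(.leaf (nat_lit 0x100031))))))
noncomputable def vt31 : Ix (Nat) := (.node (.node (.node (.node (.node (.leaf (nat_lit 0x0)) 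
(.leaf (nat_lit 0x0))) (.leaf (nat_lit 0x0))) (.node (.leaf (nat_lit 0x0)) 
(.leaf (nat_lit 0x2003ca40008c0000000000000000000000000000000000)))) (.node (.node (.node 
(.leaf (nat_lit 0x0)) (.leaf (nat_lit 0x0))) (.leaf (nat_lit 0x0))) (.node (.leaf (nat_lit 0x0)) 
(.leaf (nat_lit 0x0))))) (.node (.node (.node (.node (.leaf (nat_lit 0x0)) (.leaf (nat_lit 0x0))) 
(.leaf (nat_lit 0x0))) (.node (.leaf (nat_lit 0x0)) (.leaf (nat_lit 0x0)))) (.node (.node 
(.leaf (nat_lit 0x0)) (.leaf (nat_lit 0x10058820155a4043608068c9008fd))) (.node 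
(.leaf (nat_lit 0x0)) (.leaf (nat_lit 0x0))))))
noncomputable def vt32 : Ix (Nat) := (.node (.node (.node (.node (.node (.leaf (nat_lit 0x100016)) 
(.leaf (nat_lit 0x0))) (.leaf (nat_lit 0x0))) (.node (.leaf (nat_lit 0x0)) 
(.leaf (nat_lit 0x1003cb2006fc4004f4805209003e6)))) (.node (.node (.node (.leaf (nat_lit 0x0)) 
(.leaf (nat_lit 0x0))) (.leaf (nat_lit 0x0))) (.node (.leaf (nat_lit 0x1001d4)) 
(.leaf (nat_lit 0x0))))) (.node (.node (.node (.node (.leaf (nat_lit 0x0)) (.leaf (nat_lit 0x0))) 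
(.leaf (nat_lit 0x10019e000000000000000000000000000000000000000000000000000000000000000000000))) 
(.node (.leaf (nat_lit 0x0)) (.leaf (nat_lit 0x0)))) (.node (.node (.leaf (nat_lit 0x0)) 
(.leaf (nat_lit 0x1005b6))) (.node (.leaf (nat_lit 0x0)) (.leaf (nat_lit 0x0))))))
noncomputable def vt33 : Ix (Nat) := (.node (.node (.node (.node (.node 
(.leaf (nat_lit 0x20033c0000008073490123a202afa4065b480a5c90186f201aaa40342080895900bf3)) 
(.leaf (nat_lit 0x80b2a100e5c))) (.leaf (nat_lit 0x80b2a100e5c))) (.node 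
(.leaf (nat_lit 0x800a09002bd)) (.leaf (nat_lit 0x0)))) (.node (.node (.node (.leaf (nat_lit 0x0)) 
(.leaf (nat_lit 0x0))) 
(.leaf (nat_lit 0x20033c0000008073490123a202afa4065b480a5c90186f201aaa40342080895900bf3))) (.node 
(.leaf (nat_lit 0x0)) (.leaf (nat_lit 0x800a09002bd))))) (.node (.node (.node (.node 
(.leaf (nat_lit 0x0)) (.leaf (nat_lit 0x100595))) (.leaf (nat_lit 0x100595))) (.node 
(.leaf (nat_lit 0x0)) (.leaf (nat_lit 0x0)))) (.node (.node (.node (.leaf (nat_lit 0x0)) 
(.leaf (nat_lit 0x1023ab))) (.leaf (nat_lit 0x0))) (.node (.leaf (nat_lit 0x1023ab)) 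
(.leaf (nat_lit 0x0))))))
noncomputable def vt34 : Ix (Nat) := (.node (.node (.node (.node (.node 
(.leaf (nat_lit 0x80119100f4a2007224039688077b900e1d201d324032ec80595901056201cfc4035b08060f100c1b)) 
(.leaf (nat_lit 0x402a908060b100cb0))) (.leaf (nat_lit 0x402a908060b100cb0))) (.node 
(.leaf (nat_lit 0x1003aa)) (.leaf (nat_lit 0x0)))) (.node (.node (.node (.leaf (nat_lit 0x0)) 
(.leaf (nat_lit 0x0))) 
(.leaf (nat_lit 0x80119100f4a2007224039688077b900e1d201d324032ec80595901056201cfc4035b08060f100c1b))) 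
(.node (.leaf (nat_lit 0x0)) (.leaf (nat_lit 0x1003aa))))) (.node (.node (.node (.node 
(.leaf (nat_lit 0x0)) (.leaf (nat_lit 0x100112))) (.leaf (nat_lit 0x100112))) (.node 
(.leaf (nat_lit 0x0)) (.leaf (nat_lit 0x0)))) (.node (.node (.node (.leaf (nat_lit 0x0)) 
(.leaf (nat_lit 0x101dde))) (.leaf (nat_lit 0x0))) (.node (.leaf (nat_lit 0x101dde)) 
(.leaf (nat_lit 0x0))))))
noncomputable def vt35 : Ix (Nat) := (.node (.node (.node (.node (.node (.node 
(.leaf (nat_lit 0x10056a2011ac4017b00000010063100000000000000000100209)) (.leaf (nat_lit 0x0))) 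
(.leaf (nat_lit 0x0))) (.node (.leaf (nat_lit 0x0)) (.leaf (nat_lit 0x0)))) (.node (.node 
(.leaf (nat_lit 0x0)) (.leaf (nat_lit 0x0))) (.node (.leaf (nat_lit 0x81ce0101ee6)) 
(.leaf (nat_lit 0x0))))) (.node (.node (.node (.node (.leaf (nat_lit 0x80612900d24)) 
(.leaf (nat_lit 0x0))) (.leaf (nat_lit 0x0))) (.node 
(.leaf (nat_lit 0x80d2410143720292c406f64807b81013ea)) (.leaf (nat_lit 0x0)))) (.node (.node 
(.leaf (nat_lit 0x0)) (.leaf (nat_lit 0x0))) (.node (.leaf (nat_lit 0x100502)) 
(.leaf (nat_lit 0x0)))))) (.node (.node (.node (.node (.node (.leaf (nat_lit 0x0)) 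
(.leaf (nat_lit 0x0))) (.leaf (nat_lit 0x0))) (.node 
(.leaf (nat_lit 0x2009e00000000000010092b2055e240ee0c8192f90254720208040363c814e7901f36)) 
(.leaf (nat_lit 0x0)))) (.node (.node (.leaf (nat_lit 0x0)) (.leaf (nat_lit 0x0))) (.node 
(.leaf (nat_lit 0x81bf6101554)) (.leaf (nat_lit 0x10077b))))) (.node (.node (.node (.node 
(.leaf (nat_lit 0x81361101aa5)) (.leaf (nat_lit 0x0))) (.leaf (nat_lit 0x0))) (.node 
(.leaf (nat_lit 0x0)) (.leaf (nat_lit 0x4005dc803fe100a91)))) (.node (.node 
(.leaf (nat_lit 0x80063800000)) (.leaf (nat_lit 0x0))) (.node (.leaf (nat_lit 0x0)) 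
(.leaf (nat_lit 0x0)))))))
noncomputable def vt36 : Ix (Nat) := (.node (.node (.node (.node (.node (.node 
(.leaf (nat_lit 0x0)) (.leaf (nat_lit 0x0))) (.leaf (nat_lit 0x0))) (.node (.leaf (nat_lit 0x0)) 
(.leaf (nat_lit 0x0)))) (.node (.node (.leaf (nat_lit 0x0)) (.leaf (nat_lit 0x0))) (.node 
(.leaf (nat_lit 0x10100820153c40401c8046c10070a)) (.leaf (nat_lit 0x0))))) (.node (.node (.node 
(.node (.leaf (nat_lit 0x80055800000)) (.leaf (nat_lit 0x0))) (.leaf (nat_lit 0x0))) (.node 
(.leaf (nat_lit 0x804029006d5)) (.leaf (nat_lit 0x0)))) (.node (.node (.leaf (nat_lit 0x0)) 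
(.leaf (nat_lit 0x0))) (.node (.leaf (nat_lit 0x0)) (.leaf (nat_lit 0x0)))))) (.node (.node (.node 
(.node (.node (.leaf (nat_lit 0x0)) (.leaf (nat_lit 0x0))) (.leaf (nat_lit 0x0))) (.node 
(.leaf (nat_lit 0x4004608076590014d201d66400a4c804711013a6202f084057b880c0b101811)) 
(.leaf (nat_lit 0x0)))) (.node (.node (.leaf (nat_lit 0x0)) (.leaf (nat_lit 0x0))) (.node 
(.leaf (nat_lit 0x101e7a203eae4061d4811de10077b)) (.leaf (nat_lit 0x101155))))) (.node (.node 
(.node (.node (.leaf (nat_lit 0x40084880246900321)) (.leaf (nat_lit 0x0))) (.leaf (nat_lit 0x0))) 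
(.node (.leaf (nat_lit 0x0)) (.leaf (nat_lit 0x80076800000)))) (.node (.node (.leaf (nat_lit 0x0)) 
(.leaf (nat_lit 0x0))) (.node (.leaf (nat_lit 0x0)) (.leaf (nat_lit 0x0)))))))
noncomputable def vt37 : Ix (Nat) := (.node (.node (.node (.node (.node (.node 
(.leaf (nat_lit 0x10056a2011ac4017b00000010063100000000000000000100209)) (.leaf (nat_lit 0x0))) 
(.leaf (nat_lit 0x0))) (.node (.leaf (nat_lit 0x0)) (.leaf (nat_lit 0x0)))) (.node (.node 
(.leaf (nat_lit 0x0)) (.leaf (nat_lit 0x0))) (.node (.leaf (nat_lit 0x81ce0101ee6)) 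
(.leaf (nat_lit 0x0))))) (.node (.node (.node (.node (.leaf (nat_lit 0x80612900d24)) 
(.leaf (nat_lit 0x0))) (.leaf (nat_lit 0x0))) (.node 
(.leaf (nat_lit 0x80d2410143720292c406f64807b81013ea)) (.leaf (nat_lit 0x0)))) (.node (.node 
(.leaf (nat_lit 0x0)) (.leaf (nat_lit 0x0))) (.node (.leaf (nat_lit 0x100502)) 
(.leaf (nat_lit 0x0)))))) (.node (.node (.node (.node (.node (.leaf (nat_lit 0x0)) 
(.leaf (nat_lit 0x0))) (.leaf (nat_lit 0x0))) (.node 
(.leaf (nat_lit 0x2009e00000000000010092b2055e240ee0c8192f90254720208040363c814e7901f36)) 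
(.leaf (nat_lit 0x0)))) (.node (.node (.leaf (nat_lit 0x0)) (.leaf (nat_lit 0x0))) (.node 
(.leaf (nat_lit 0x81bf6101554)) (.leaf (nat_lit 0x10077b))))) (.node (.node (.node (.node 
(.leaf (nat_lit 0x81361101aa5)) (.leaf (nat_lit 0x0))) (.leaf (nat_lit 0x0))) (.node 
(.leaf (nat_lit 0x0)) (.leaf (nat_lit 0x4005dc803fe100a91)))) (.node (.node 
(.leaf (nat_lit 0x80063800000)) (.leaf (nat_lit 0x0))) (.node (.leaf (nat_lit 0x0)) 
(.leaf (nat_lit 0x0)))))))
noncomputable def vt38 : Ix (Nat) := (.node (.node (.node (.node (.node (.node 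
(.leaf (nat_lit 0x0)) (.leaf (nat_lit 0x0))) (.leaf (nat_lit 0x0))) (.node (.leaf (nat_lit 0x0)) 
(.leaf (nat_lit 0x0)))) (.node (.node (.leaf (nat_lit 0x0)) (.leaf (nat_lit 0x0))) (.node 
(.leaf (nat_lit 0x10100820153c40401c8046c10070a)) (.leaf (nat_lit 0x0))))) (.node (.node (.node 
(.node (.leaf (nat_lit 0x80055800000)) (.leaf (nat_lit 0x0))) (.leaf (nat_lit 0x0))) (.node 
(.leaf (nat_lit 0x804029006d5)) (.leaf (nat_lit 0x0)))) (.node (.node (.leaf (nat_lit 0x0)) 
(.leaf (nat_lit 0x0))) (.node (.leaf (nat_lit 0x0)) (.leaf (nat_lit 0x0)))))) (.node (.node (.node 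
(.node (.node (.leaf (nat_lit 0x0)) (.leaf (nat_lit 0x0))) (.leaf (nat_lit 0x0))) (.node 
(.leaf (nat_lit 0x4004608076590014d201d66400a4c804711013a6202f084057b880c0b101811)) 
(.leaf (nat_lit 0x0)))) (.node (.node (.leaf (nat_lit 0x0)) (.leaf (nat_lit 0x0))) (.node 
(.leaf (nat_lit 0x101e7a203eae4061d4811de10077b)) (.leaf (nat_lit 0x101155))))) (.node (.node 
(.node (.node (.leaf (nat_lit 0x40084880246900321)) (.leaf (nat_lit 0x0))) (.leaf (nat_lit 0x0))) 
(.node (.leaf (nat_lit 0x0)) (.leaf (nat_lit 0x80076800000)))) (.node (.node (.leaf (nat_lit 0x0)) 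
(.leaf (nat_lit 0x0))) (.node (.leaf (nat_lit 0x0)) (.leaf (nat_lit 0x0)))))))
noncomputable def vt39 : Ix (Nat) := (.node (.node (.node (.node (.node 
(.leaf (nat_lit 0x401768802ee9005ca201c0e401a48805801010562020a240418c802c910069b)) 
(.leaf (nat_lit 0x200f944125b08221c9017f0207b0840f70c80c53901c88))) (.leaf (nat_lit 0x100280))) 
(.node (.leaf (nat_lit 0x0)) (.leaf (nat_lit 0x40489c00000100511)))) (.node (.node (.node 
(.leaf (nat_lit 0x0)) (.leaf (nat_lit 0x0))) 
(.leaf (nat_lit 0x1001c82018644034cc810a4900ffa20238a405ba080b84101126202cc0406f5c8139f102285202b8840490480aeb101cbf20286640272080b5f9015ff))) 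
(.node (.leaf (nat_lit 0x1001a9)) (.leaf (nat_lit 0x805be900615))))) (.node (.node (.node (.node 
(.leaf (nat_lit 0x0)) (.leaf (nat_lit 0x80597900565))) (.leaf (nat_lit 0x0))) (.node 
(.leaf (nat_lit 0x0)) (.leaf (nat_lit 0x401c888066c901013)))) (.node (.node (.node 
(.leaf (nat_lit 0x0)) (.leaf (nat_lit 0x40649080fbb902466))) (.leaf (nat_lit 0x0))) (.node 
(.leaf (nat_lit 0x0)) (.leaf (nat_lit 0x402094804861006a5))))))
noncomputable def vt40 : Ix (Nat) := (.node (.node (.node (.node (.node 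
(.leaf (nat_lit 0x200656000000801928000000000000000000000010010020009000000000000000000)) 
(.leaf (nat_lit 0x8075b10065d))) (.leaf (nat_lit 0x4018f480629900ee3))) (.node 
(.leaf (nat_lit 0x100543)) (.leaf (nat_lit 0x0)))) (.node (.node (.node (.leaf (nat_lit 0x100e5c)) 
(.leaf (nat_lit 0x0))) (.leaf (nat_lit 0x0))) (.node (.leaf (nat_lit 0x0)) (.leaf (nat_lit 0x0))))) 
(.node (.node (.node (.node (.leaf (nat_lit 0x0)) (.leaf (nat_lit 0x0))) (.leaf (nat_lit 0x0))) 
(.node (.leaf (nat_lit 0x1002ca)) (.leaf (nat_lit 0x0)))) (.node (.node (.node 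
(.leaf (nat_lit 0x0)) (.leaf (nat_lit 0x1010be))) (.leaf (nat_lit 0x0))) (.node 
(.leaf (nat_lit 0x100c1d)) (.leaf (nat_lit 0x0))))))
noncomputable def vt41 : Ix (Nat) := (.node (.node (.node (.node (.node (.node 
(.leaf (nat_lit 0x400dbc804bc8000000000004032788076a0000002015f200000080414800000200252000000000000000000000000000000000000000000000000000000000000000000000000000000000000000000004001c40000000000000000000000000000000000000000000000000001007bb000000000000000000000002012c6401f6c80015100bda20189c00000000000000000000000401a288032b9003650000004010580000010017d00000000000080734000000000000000000801910000000000000000008008200000020032600000000000000000000000000000000001011b7203cd04024a080aca0000000000000000008084d00000000000000000000000000000201f3a404a18803da100ae720210e4035f8807b71002f320131c401d8c000000000000000000000008027f00000020031a400b6c80dbd902538200ac84090248022890213e)) 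
(.leaf (nat_lit 0x101008205d204047688079c100cfa))) (.leaf (nat_lit 0x0))) (.node 
(.leaf (nat_lit 0x403ee880392101b48204862403bf480cb290129f2027d240008000000100c4f)) 
(.leaf (nat_lit 0x0)))) (.node (.node (.leaf (nat_lit 0x0)) 
(.leaf (nat_lit 0x10044620028040316c80087100ac5))) (.node 
(.leaf (nat_lit 0x202444402650806009012842020f440608c8033d9006dd202478404f808099d101427204e52404c6880d40901274)) 
(.leaf (nat_lit 0x80a8a900bb520229a4038548086a1009d0))))) (.node (.node (.node (.node 
(.leaf (nat_lit 0x4004e080107101c4e20307a4077bc809a29015912027a44035208063f100c8c204c6a404bb880ccd1005a8)) 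
(.leaf (nat_lit 0x400e2080cdf100e9c20308e40412480662101073))) 
(.leaf (nat_lit 0x8041a100610201912401a74802a9900549))) (.node 
(.leaf (nat_lit 0x8037c900c2c202e3e40513080a61102837202c40400b008106910271e202ce440598c80a96101647202b364059d4000001012dd2022704035c8803219020b4)) 
(.leaf (nat_lit 0x1006d6000000401b3400000000000)))) (.node (.node 
(.leaf (nat_lit 0x40913000000100693202dca00000080395900382)) (.leaf (nat_lit 0x0))) (.node 
(.leaf (nat_lit 0x2002b0404b7080a22101318202e82407410807071015fe2049b24083d880c40900aed)) 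
(.leaf (nat_lit 0x405eb4806e71013f9)))))) (.node (.node (.node (.node (.node 
(.leaf (nat_lit 0x202332402b9080240100aea00000000000000000000000201fb8403ef88059a000000)) 
(.leaf (nat_lit 0x4012ec80785100fe620172640285080891100cfe))) (.leaf (nat_lit 0x0))) (.node 
(.leaf (nat_lit 0x8045f900d122011ae405dc4810be101522203036403a5880bc990288b202f584077d4808f3100ff0201d7a40301080631100bc1201f8e40259c806a1101109201dc0402f9480781100bfb2017fa4025d4805bc100b0d20177640415c805cf900c79201462403c3c805ec90108d20187a4020a88059b1018c0201be8407b1c80c6690150b203b8a406fcc806e31012c3202ad64055dc80b039015b5200ea0400e9c8074e100dc62028d040571480b4d9015d020260c4106e480ac610168b202a8840531880ac09014c7202a8e405b4080a91101ca420577040b34880deb90152820293040776080b7910158e202df6405ad88115b10161c2040b440657c80b7110151b)) 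
(.leaf (nat_lit 0x0)))) (.node (.node (.leaf (nat_lit 0x800fb8000002013984004d000000000000)) 
(.leaf (nat_lit 0x0))) (.node 
(.leaf (nat_lit 0x10053e20374640956080a60900e6d201922406a9480bed1018da20295040be6480eae1026402028e8408bb48080990147d)) 
(.leaf (nat_lit 0x80a85101322202358406a38808391014c4))))) (.node (.node (.node (.node 
(.leaf (nat_lit 0x10013b204b4840744480ad21016cd203048404370808c8901f3820251840f000802e990218f)) 
(.leaf (nat_lit 0x1006d320033a40249c803521014f0))) (.leaf (nat_lit 0x0))) (.node 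
(.leaf (nat_lit 0x1014692027b64051c080a901014f02024ca408b1880d991015492023b040d5f88068b1011cd)) 
(.leaf (nat_lit 0x1010c12010ca000000805b7100a202023004024f4805cc9014da201376404224805c1100f50202e42405f0880dab101531202272402ea0808c1101313201bfc402680804fe10106520144a4043748091890133820105440480c805e8101b44204e2a404c5480b50901317201f0040286080646100b69201714403384807c390132d2016284041e8805e9900a6c201ee6402ee48076d100fb72068f440327080a80100e86)))) 
(.node (.node (.leaf (nat_lit 0x103a0220598640d2a480bd8102aea202a26405208808c4100050)) 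
(.leaf (nat_lit 0x0))) (.node 
(.leaf (nat_lit 0x402220000000000000000000000008017a900a4000000000000000000000000000000000000000000000000000004001580000000000000000000000000000000000000000000000000000000000000004001a800000000000000000000000000000000000000000000000000000000000000040111c000001003e60000004009cc8000a000000000000000000000000000000000000000000000000000000000000000000000000000)) 
(.leaf (nat_lit 0x101073202e8a402f1c80587900982)))))))
noncomputable def vt42 : Ix (Nat) := (.node (.node (.node (.node (.node (.node 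
(.leaf (nat_lit 0x100663200d704058ac80b419018492048a040833c80434900667)) (.leaf (nat_lit 0x0))) 
(.node (.leaf (nat_lit 0x0)) (.leaf (nat_lit 0x0)))) (.node (.node 
(.leaf (nat_lit 0x808eb900c2a2022fa40202880560100492)) (.leaf (nat_lit 0x405114808e4100aa6))) 
(.leaf (nat_lit 0x806c490130c)))) (.node (.node (.node (.leaf (nat_lit 0x101f30)) 
(.leaf (nat_lit 0x404ec481364101135))) (.leaf (nat_lit 0x80eff101758))) (.node (.node 
(.leaf (nat_lit 0x0)) (.leaf (nat_lit 0x802240000002005ca40792c80a2a9012a3))) 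
(.leaf (nat_lit 0x0))))) (.node (.node (.node (.node (.leaf (nat_lit 0x102aa8)) 
(.leaf (nat_lit 0x0))) 
(.leaf (nat_lit 0x4006ac8028210045600000040216c808c9900ca22016b6000000000001008fb201e2a000000800d01004d6))) 
(.node (.node (.leaf (nat_lit 0x1013fd)) (.leaf (nat_lit 0x8017b9008cb))) 
(.leaf (nat_lit 0x41452c82556903c8e20a6024101e08165b1041bd)))) (.node (.node (.node 
(.leaf (nat_lit 0x1013ce)) (.leaf (nat_lit 0x801e590011f))) (.leaf (nat_lit 0x100cf2))) (.node 
(.node (.leaf (nat_lit 0x80ca8103565)) (.leaf (nat_lit 0x0))) (.leaf (nat_lit 0x0)))))) (.node 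
(.node (.node (.node (.node (.leaf (nat_lit 0x10167f)) (.leaf (nat_lit 0x4055748071d900738))) 
(.node (.leaf (nat_lit 0x101336)) (.leaf (nat_lit 0x4002fc00000000000)))) (.node (.node 
(.leaf (nat_lit 0x1003ba)) (.leaf (nat_lit 0x400b380000010098b))) 
(.leaf (nat_lit 0x407f0800000100a3d)))) (.node (.node (.node (.leaf (nat_lit 0x10276f)) 
(.leaf (nat_lit 0x4016848011400000020212640463c804c0800000))) 
(.leaf (nat_lit 0x1037a82056b440dca8817fb101898))) (.node (.node 
(.leaf (nat_lit 0x100483202bd240570c802c590030b2078ea40f670816359021522070cc40dc5c814c5902a09)) 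
(.leaf (nat_lit 0x0))) (.leaf (nat_lit 0x4015f400000100112))))) (.node (.node (.node (.node 
(.leaf (nat_lit 0x1011bc)) (.leaf (nat_lit 0x0))) 
(.leaf (nat_lit 0x402db00000010164b200bce40492c80c23901561201ee2409e888094f1018c6))) (.node (.node 
(.leaf (nat_lit 0x101479)) (.leaf (nat_lit 0x405c3800000100f8f))) (.leaf (nat_lit 0x0)))) (.node 
(.node (.node (.leaf (nat_lit 0x1026fe)) (.leaf (nat_lit 0x0))) (.leaf (nat_lit 0x0))) (.node 
(.node (.leaf (nat_lit 0x80b00103e9f)) (.leaf (nat_lit 0x0))) 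
(.leaf (nat_lit 0x405800800ed900770)))))))
noncomputable def vt43 : Ix (Nat) := (.node (.node (.node (.node (.node 
(.leaf (nat_lit 0x401d9c80cb1902e5b2058464085f880c6d904162206f8a408ca080e6d102b2620688440e22481b12102f97)) 
(.leaf (nat_lit 0x102891))) (.node (.leaf (nat_lit 0x8095510129c)) 
(.leaf (nat_lit 0x20037440ae5080970901e89)))) (.node (.node (.leaf (nat_lit 0x1012dd)) 
(.leaf (nat_lit 0x808361011f020095c404b4081151100dc420591e40f6d081618902c502069ac40b24081b26104468205af240ad8881d6f102cfc20479240a56c81c2c102db82045d4407d6c81126102b7f20558e408d8880dd91031df))) 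
(.leaf (nat_lit 0x81188901967)))) (.node (.node (.node (.leaf (nat_lit 0x101a92)) 
(.leaf (nat_lit 0x102d07))) (.node (.leaf (nat_lit 0x80f35902e9e)) 
(.leaf (nat_lit 0x2040a241156081d111043b1)))) (.node (.node (.leaf (nat_lit 0x10068b)) 
(.leaf (nat_lit 0x20377641041c81c2e9041ba))) (.leaf (nat_lit 0x10225c))))) (.node (.node (.node 
(.node (.leaf (nat_lit 0x0)) (.leaf (nat_lit 0x102785))) (.node (.leaf (nat_lit 0x813a6103367)) 
(.leaf (nat_lit 0x2026ec40dcec819b59034bb)))) (.node (.node (.leaf (nat_lit 0x102a48)) 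
(.leaf (nat_lit 0x201a2040c21c8107b102d88))) (.leaf (nat_lit 0x815e1101ffc)))) (.node (.node (.node 
(.leaf (nat_lit 0x1024cf)) (.leaf (nat_lit 0x80b9a902217))) 
(.leaf (nat_lit 0x102df0205364408c9481ffd103fa2206ff2410bf481e6c103bc6))) (.node (.node 
(.leaf (nat_lit 0x80c10102391)) (.leaf (nat_lit 0x202f2441295c81c08904574))) 
(.leaf (nat_lit 0x1020fc))))))
noncomputable def vt44 : Ix (Nat) := (.node (.node (.node (.node (.node 
(.leaf (nat_lit 0x100325203984406744812f4101d382027644067f0815ae902bf2206b5440c6188189c901977)) 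
(.leaf (nat_lit 0x8034f1020d7))) (.node (.leaf (nat_lit 0x101ed220cab641a8f882c5d90479e)) 
(.leaf (nat_lit 0x810851019ee)))) (.node (.node (.leaf (nat_lit 0x80c20903013)) 
(.leaf (nat_lit 0x803b2901af4))) (.leaf (nat_lit 0x80be790307d)))) (.node (.node (.node 
(.leaf (nat_lit 0x80da3104144)) (.leaf (nat_lit 0x803a010203e))) (.node (.leaf (nat_lit 0x1020ea)) 
(.leaf (nat_lit 0x102847)))) (.node (.node (.leaf (nat_lit 0x807fa902a4c)) 
(.leaf (nat_lit 0x817dd1028a22050e24112f08214410269c))) (.leaf (nat_lit 0x80777102d47))))) (.node 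
(.node (.node (.node (.leaf (nat_lit 0x10269e20681040ab8081c5c1033d1208bfc41212481e4b10373d)) 
(.leaf (nat_lit 0x10114f))) (.node (.leaf (nat_lit 0x8037b102599)) (.leaf (nat_lit 0x101b05)))) 
(.node (.node (.leaf (nat_lit 0x81ad2902755)) (.leaf (nat_lit 0x805f690277c))) 
(.leaf (nat_lit 0x101cc1)))) (.node (.node (.node 
(.leaf (nat_lit 0x8110910213f209a1c41738c839f9103931)) (.leaf (nat_lit 0x80a3d9030ed))) (.node 
(.leaf (nat_lit 0x808ca101ece)) (.leaf (nat_lit 0x10151e)))) (.node (.node 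
(.leaf (nat_lit 0x808dd10318c)) (.leaf (nat_lit 0x102ba5))) 
(.leaf (nat_lit 0x1000242065aa40c51481b5c102a13))))))
noncomputable def vt45 : Ix (Nat) := (.node (.node (.node (.node (.node (.node 
(.leaf (nat_lit 0x808fc800000201718000000800fa800000)) (.leaf (nat_lit 0x0))) (.node 
(.leaf (nat_lit 0x0)) (.leaf (nat_lit 0x0)))) (.node (.node 
(.leaf (nat_lit 0x1002f400000040063080229000000)) (.leaf (nat_lit 0x0))) (.leaf (nat_lit 0x0)))) 
(.node (.node (.node (.leaf (nat_lit 0x1022ef)) (.leaf (nat_lit 0x0))) (.leaf (nat_lit 0x10024f))) 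
(.node (.node (.leaf (nat_lit 0x0)) (.leaf (nat_lit 0x1005af000000401e188022590068b))) 
(.leaf (nat_lit 0x0))))) (.node (.node (.node (.node (.leaf (nat_lit 0x101d7f)) 
(.leaf (nat_lit 0x0))) (.leaf (nat_lit 0x0))) (.node (.node (.leaf (nat_lit 0x101911)) 
(.leaf (nat_lit 0x0))) (.leaf (nat_lit 0x81074100c04)))) (.node (.node (.node 
(.leaf (nat_lit 0x100be4)) (.leaf (nat_lit 0x0))) (.leaf (nat_lit 0x100385))) (.node (.node 
(.leaf (nat_lit 0x407bd481a36902cc2)) (.leaf (nat_lit 0x0))) (.leaf (nat_lit 0x0)))))) (.node 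
(.node (.node (.node (.node (.leaf (nat_lit 0x100c90)) (.leaf (nat_lit 0x0))) (.node 
(.leaf (nat_lit 0x100a86)) (.leaf (nat_lit 0x0)))) (.node (.node (.leaf (nat_lit 0x100351)) 
(.leaf (nat_lit 0x0))) (.leaf (nat_lit 0x0)))) (.node (.node (.node (.leaf (nat_lit 0x10282c)) 
(.leaf (nat_lit 0x0))) (.leaf (nat_lit 0x2011644131f8804fe100a9e))) (.node (.node 
(.leaf (nat_lit 0x1018f02039fe4018b4806868000002031b4406e4080cf290229a)) (.leaf (nat_lit 0x0))) 
(.leaf (nat_lit 0x0))))) (.node (.node (.node (.node (.leaf (nat_lit 0x10190f)) 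
(.leaf (nat_lit 0x0))) (.leaf (nat_lit 0x201718400b80000000000002018d8403f60806a7900f44))) (.node 
(.node (.leaf (nat_lit 0x1003b7)) (.leaf (nat_lit 0x0))) (.leaf (nat_lit 0x0)))) (.node (.node 
(.node (.leaf (nat_lit 0x101cf1)) (.leaf (nat_lit 0x0))) (.leaf (nat_lit 0x0))) (.node (.node 
(.leaf (nat_lit 0x80ea9103610)) (.leaf (nat_lit 0x0))) (.leaf (nat_lit 0x0)))))))
noncomputable def vt46 : Ix (Nat) := (.node (.node (.node (.node (.node 
(.leaf (nat_lit 0x201d22408d6880b5b902de3203b3c407a6080b8e901b46)) (.leaf (nat_lit 0x101bea))) 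
(.node (.leaf (nat_lit 0x100539)) (.leaf (nat_lit 0x8012a900ec0)))) (.node (.node 
(.leaf (nat_lit 0x100d0d)) 
(.leaf (nat_lit 0x200e2e400d24801019026e3201a2c40727c8131f10249c204b2840967481535102aff2046dc40886481602902305))) 
(.leaf (nat_lit 0x80df6901649)))) (.node (.node (.node (.leaf (nat_lit 0x101364)) 
(.leaf (nat_lit 0x102150))) (.node (.leaf (nat_lit 0x10123d)) (.leaf (nat_lit 0x80bdb103323)))) 
(.node (.node (.leaf (nat_lit 0x0)) (.leaf (nat_lit 0x80aac105d7320784e40e6a8831b01037ed))) 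
(.leaf (nat_lit 0x101fd3))))) (.node (.node (.node (.node (.leaf (nat_lit 0x0)) 
(.leaf (nat_lit 0x101eda))) (.node (.leaf (nat_lit 0x101fce)) (.leaf (nat_lit 0x804da902179)))) 
(.node (.node (.leaf (nat_lit 0x10210b)) (.leaf (nat_lit 0x103d5c20623240993c81c3f101c0f))) 
(.leaf (nat_lit 0x8109f101dab)))) (.node (.node (.node (.leaf (nat_lit 0x10173e)) 
(.leaf (nat_lit 0x100522))) (.leaf (nat_lit 0x203830406f9080d401048d7207c3a40d730819f99034a5))) 
(.node (.node (.leaf (nat_lit 0x1008a3)) (.leaf (nat_lit 0x101097208b8240e27c8209e10342f))) 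
(.leaf (nat_lit 0x101677))))))
noncomputable def vt47 : Ix (Nat) := (.node (.node (.node (.node (.node (.node 
(.leaf (nat_lit 0x20008a401ed08080e900fcc2033e0403a9880633900611)) (.leaf (nat_lit 0x0))) (.node 
(.leaf (nat_lit 0x10076a2022a2401a70806c10000002028a640b13880c6210210b)) (.leaf (nat_lit 0x0)))) 
(.node (.node (.leaf (nat_lit 0x8028710102520203a40603480f0410149b)) 
(.leaf (nat_lit 0x100458000000400b0000000000000))) (.leaf (nat_lit 0x0)))) (.node (.node (.node 
(.leaf (nat_lit 0x101c98)) (.leaf (nat_lit 0x0))) (.node (.leaf (nat_lit 0x8083a1027c4)) 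
(.leaf (nat_lit 0x0)))) (.node (.node (.leaf (nat_lit 0x100579)) (.leaf (nat_lit 0x0))) 
(.leaf (nat_lit 0x100306))))) (.node (.node (.node (.node (.leaf (nat_lit 0x101b1f)) 
(.leaf (nat_lit 0x0))) (.node (.leaf (nat_lit 0x803301022b4)) 
(.leaf (nat_lit 0x101998203d54405c78807cf90129b)))) (.node (.node (.leaf (nat_lit 0x100ecd)) 
(.leaf (nat_lit 0x0))) (.leaf (nat_lit 0x102023201aec4071948054390092a)))) (.node (.node (.node 
(.leaf (nat_lit 0x100dbb)) (.leaf (nat_lit 0x0))) (.node 
(.leaf (nat_lit 0x10014d000000000000000001005fe201254402fa4804bf100845)) (.leaf (nat_lit 0x0)))) 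
(.node (.node (.leaf (nat_lit 0x0)) (.leaf (nat_lit 0x0))) (.leaf (nat_lit 0x100774)))))) (.node 
(.node (.node (.node (.node (.leaf (nat_lit 0x1014bd)) (.leaf (nat_lit 0x0))) (.node 
(.leaf (nat_lit 0x100621)) 
(.leaf (nat_lit 0x4000140000000000000000000000000000102124202722403880806cc10001a)))) (.node (.node 
(.leaf (nat_lit 0x100af9)) (.leaf (nat_lit 0x0))) (.leaf (nat_lit 0x0)))) (.node (.node (.node 
(.leaf (nat_lit 0x102697)) (.leaf (nat_lit 0x0))) (.node (.leaf (nat_lit 0x0)) 
(.leaf (nat_lit 0x100bdc201de640104800000000000)))) (.node (.node (.leaf (nat_lit 0x100ed5)) 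
(.leaf (nat_lit 0x0))) (.leaf (nat_lit 0x0))))) (.node (.node (.node (.node 
(.leaf (nat_lit 0x1012d5)) (.leaf (nat_lit 0x1004f5))) (.node (.leaf (nat_lit 0x4049a481966902c47)) 
(.leaf (nat_lit 0x403dec801cf100622)))) (.node (.node (.leaf (nat_lit 0x100434)) 
(.leaf (nat_lit 0x0))) (.leaf (nat_lit 0x100450)))) (.node (.node (.node (.leaf (nat_lit 0x101ed8)) 
(.leaf (nat_lit 0x0))) (.leaf (nat_lit 0x100043))) (.node (.node (.leaf (nat_lit 0x101410)) 
(.leaf (nat_lit 0x0))) (.leaf (nat_lit 0x40460880bfb900149)))))))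
noncomputable def vt48 : Ix (Nat) := (.node (.node (.node (.node (.node 
(.leaf (nat_lit 0x80ca69020a520308640543881b8490299520291c4050c480bed9011bf)) 
(.leaf (nat_lit 0x1018b9))) (.node (.leaf (nat_lit 0x101d3f)) 
(.leaf (nat_lit 0x100d9b2018ee40d6a48207c902fa2)))) (.node (.node (.leaf (nat_lit 0x0)) 
(.leaf (nat_lit 0x405be481b3a902a0a))) (.leaf (nat_lit 0x101fcb)))) (.node (.node (.node 
(.leaf (nat_lit 0x100bbb)) (.leaf (nat_lit 0x10353b20774241109c821139023fe))) (.node 
(.leaf (nat_lit 0x816fc1013f9)) 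
(.leaf (nat_lit 0x201aac410a7081a929035b4207d5c40d69081d8d903255)))) (.node (.node 
(.leaf (nat_lit 0x100657)) (.leaf (nat_lit 0x8089210535020a74041164c822251037e4))) 
(.leaf (nat_lit 0x10252e))))) (.node (.node (.node (.node (.leaf (nat_lit 0x100ced)) 
(.leaf (nat_lit 0x80f58901dbc203d40407bbc80856902d98205932408ab08132b1023ee202bde4081d0810bf104f6d2037ac4052608124a104dfe20706c40dfec816db9034b8))) 
(.node (.leaf (nat_lit 0x10183a204a2640719c826c4103116206fce40cc2081ed690393c)) 
(.leaf (nat_lit 0x80764103c4a206fe840da3481bc11031b2)))) (.node (.node (.leaf (nat_lit 0x100d91)) 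
(.leaf (nat_lit 0x4047e0830241034f4))) (.leaf (nat_lit 0x102190)))) (.node (.node (.node 
(.leaf (nat_lit 0x102876)) (.leaf (nat_lit 0x80d6e10170a))) (.node (.leaf (nat_lit 0x816a5101d8a)) 
(.leaf (nat_lit 0x804ed10651a208c1a4139a88205b902fd1)))) (.node (.node (.leaf (nat_lit 0x101cf3)) 
(.leaf (nat_lit 0x408e7080be99018642075ba40bab481a9790374820625040c484819b91039e320a30640f138826ce903b10206bb841563481c4e102ec0))) 
(.leaf (nat_lit 0x1023d6))))))
noncomputable def vt49 : Ix (Nat) := (.node (.node (.node (.node (.node (.node 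
(.leaf (nat_lit 0x0)) (.leaf (nat_lit 0x0))) (.leaf (nat_lit 0x0))) (.node (.leaf (nat_lit 0x0)) 
(.leaf (nat_lit 0x0)))) (.node (.node (.leaf (nat_lit 0x0)) (.leaf (nat_lit 0x0))) (.node 
(.leaf (nat_lit 0x1020c8200b124027dc801f410054f)) (.leaf (nat_lit 0x0))))) (.node (.node (.node 
(.node (.leaf (nat_lit 0x40012c00000000000)) (.leaf (nat_lit 0x0))) (.leaf (nat_lit 0x0))) (.node 
(.leaf (nat_lit 0x40285c800399003c5)) (.leaf (nat_lit 0x0)))) (.node (.node (.leaf (nat_lit 0x0)) 
(.leaf (nat_lit 0x0))) (.node (.leaf (nat_lit 0x0)) (.leaf (nat_lit 0x0)))))) (.node (.node (.node 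
(.node (.node (.leaf (nat_lit 0x0)) (.leaf (nat_lit 0x0))) (.leaf (nat_lit 0x0))) (.node 
(.leaf (nat_lit 0x20028a400e7c8009b90005d00000040414c802a59006032013a84037d88066b9019cf)) 
(.leaf (nat_lit 0x0)))) (.node (.node (.leaf (nat_lit 0x0)) (.leaf (nat_lit 0x0))) (.node 
(.leaf (nat_lit 0x1029c0203b2c4054c0809409003b6)) (.leaf (nat_lit 0x100026))))) (.node (.node 
(.node (.node (.leaf (nat_lit 0x0)) (.leaf (nat_lit 0x0))) (.leaf (nat_lit 0x0))) (.node 
(.leaf (nat_lit 0x0)) (.leaf (nat_lit 0x0)))) (.node (.node (.leaf (nat_lit 0x0)) 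
(.leaf (nat_lit 0x0))) (.node (.leaf (nat_lit 0x0)) (.leaf (nat_lit 0x0)))))))
noncomputable def vt50 : Ix (Nat) := (.node (.node (.node (.node (.node 
(.leaf (nat_lit 0x401768802ee9005ca201c0e401a48805801010562020a240418c802c910069b)) 
(.leaf (nat_lit 0x0))) (.leaf (nat_lit 0x1001a9))) (.node (.leaf (nat_lit 0x0)) 
(.leaf (nat_lit 0x40489c00000100511)))) (.node (.node (.node (.leaf (nat_lit 0x0)) 
(.leaf (nat_lit 0x200f944125b08221c9017f0207b0840f70c80c53901c88))) 
(.leaf (nat_lit 0x1001c82018644034cc810a4900ffa20238a405ba080b84101126202cc0406f5c8139f102285202b8840490480aeb101cbf20286640272080b5f9015ff))) 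
(.node (.leaf (nat_lit 0x100280)) (.leaf (nat_lit 0x805be900615))))) (.node (.node (.node (.node 
(.leaf (nat_lit 0x0)) (.leaf (nat_lit 0x40649080fbb902466))) (.leaf (nat_lit 0x0))) (.node 
(.leaf (nat_lit 0x0)) (.leaf (nat_lit 0x401c888066c901013)))) (.node (.node (.node 
(.leaf (nat_lit 0x0)) (.leaf (nat_lit 0x80597900565))) (.leaf (nat_lit 0x0))) (.node 
(.leaf (nat_lit 0x0)) (.leaf (nat_lit 0x402094804861006a5))))))
noncomputable def vt51 : Ix (Nat) := (.node (.node (.node (.node (.node 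
(.leaf (nat_lit 0x200656000000801928000000000000000000000010010020009000000000000000000)) 
(.leaf (nat_lit 0x0))) (.leaf (nat_lit 0x0))) (.node (.leaf (nat_lit 0x100543)) 
(.leaf (nat_lit 0x0)))) (.node (.node (.node (.leaf (nat_lit 0x100e5c)) 
(.leaf (nat_lit 0x8075b10065d))) (.leaf (nat_lit 0x0))) (.node 
(.leaf (nat_lit 0x4018f480629900ee3)) (.leaf (nat_lit 0x0))))) (.node (.node (.node (.node 
(.leaf (nat_lit 0x0)) (.leaf (nat_lit 0x1010be))) (.leaf (nat_lit 0x100c1d))) (.node 
(.leaf (nat_lit 0x1002ca)) (.leaf (nat_lit 0x0)))) (.node (.node (.node (.leaf (nat_lit 0x0)) 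
(.leaf (nat_lit 0x0))) (.leaf (nat_lit 0x0))) (.node (.leaf (nat_lit 0x0)) (.leaf (nat_lit 0x0))))))
noncomputable def vt52 : Ix (Nat) := (.node (.node (.node (.node (.node (.node 
(.leaf (nat_lit 0x400dbc804bc8000000000004032788076a0000002015f200000080414800000200252000000000000000000000000000000000000000000000000000000000000000000000000000000000000000000004001c40000000000000000000000000000000000000000000000000001007bb000000000000000000000002012c6401f6c80015100bda20189c00000000000000000000000401a288032b9003650000004010580000010017d00000000000080734000000000000000000801910000000000000000008008200000020032600000000000000000000000000000000001011b7203cd04024a080aca0000000000000000008084d00000000000000000000000000000201f3a404a18803da100ae720210e4035f8807b71002f320131c401d8c000000000000000000000008027f00000020031a400b6c80dbd902538200ac84090248022890213e)) 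
(.leaf (nat_lit 0x101008205d204047688079c100cfa))) (.leaf (nat_lit 0x0))) (.node 
(.leaf (nat_lit 0x403ee880392101b48204862403bf480cb290129f2027d240008000000100c4f)) 
(.leaf (nat_lit 0x0)))) (.node (.node (.leaf (nat_lit 0x0)) 
(.leaf (nat_lit 0x10044620028040316c80087100ac5))) (.node 
(.leaf (nat_lit 0x202444402650806009012842020f440608c8033d9006dd202478404f808099d101427204e52404c6880d40901274)) 
(.leaf (nat_lit 0x80a8a900bb520229a4038548086a1009d0))))) (.node (.node (.node (.node 
(.leaf (nat_lit 0x4004e080107101c4e20307a4077bc809a29015912027a44035208063f100c8c204c6a404bb880ccd1005a8)) 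
(.leaf (nat_lit 0x400e2080cdf100e9c20308e40412480662101073))) 
(.leaf (nat_lit 0x8041a100610201912401a74802a9900549))) (.node 
(.leaf (nat_lit 0x8037c900c2c202e3e40513080a61102837202c40400b008106910271e202ce440598c80a96101647202b364059d4000001012dd2022704035c8803219020b4)) 
(.leaf (nat_lit 0x1006d6000000401b3400000000000)))) (.node (.node 
(.leaf (nat_lit 0x40913000000100693202dca00000080395900382)) (.leaf (nat_lit 0x0))) (.node 
(.leaf (nat_lit 0x2002b0404b7080a22101318202e82407410807071015fe2049b24083d880c40900aed)) 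
(.leaf (nat_lit 0x405eb4806e71013f9)))))) (.node (.node (.node (.node (.node 
(.leaf (nat_lit 0x202332402b9080240100aea00000000000000000000000201fb8403ef88059a000000)) 
(.leaf (nat_lit 0x4012ec80785100fe620172640285080891100cfe))) (.leaf (nat_lit 0x0))) (.node 
(.leaf (nat_lit 0x8045f900d122011ae405dc4810be101522203036403a5880bc990288b202f584077d4808f3100ff0201d7a40301080631100bc1201f8e40259c806a1101109201dc0402f9480781100bfb2017fa4025d4805bc100b0d20177640415c805cf900c79201462403c3c805ec90108d20187a4020a88059b1018c0201be8407b1c80c6690150b203b8a406fcc806e31012c3202ad64055dc80b039015b5200ea0400e9c8074e100dc62028d040571480b4d9015d020260c4106e480ac610168b202a8840531880ac09014c7202a8e405b4080a91101ca420577040b34880deb90152820293040776080b7910158e202df6405ad88115b10161c2040b440657c80b7110151b)) 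
(.leaf (nat_lit 0x0)))) (.node (.node (.leaf (nat_lit 0x800fb8000002013984004d000000000000)) 
(.leaf (nat_lit 0x0))) (.node 
(.leaf (nat_lit 0x10053e20374640956080a60900e6d201922406a9480bed1018da20295040be6480eae1026402028e8408bb48080990147d)) 
(.leaf (nat_lit 0x80a85101322202358406a38808391014c4))))) (.node (.node (.node (.node 
(.leaf (nat_lit 0x10013b204b4840744480ad21016cd203048404370808c8901f3820251840f000802e990218f)) 
(.leaf (nat_lit 0x1006d320033a40249c803521014f0))) (.leaf (nat_lit 0x0))) (.node 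
(.leaf (nat_lit 0x1014692027b64051c080a901014f02024ca408b1880d991015492023b040d5f88068b1011cd)) 
(.leaf (nat_lit 0x1010c12010ca000000805b7100a202023004024f4805cc9014da201376404224805c1100f50202e42405f0880dab101531202272402ea0808c1101313201bfc402680804fe10106520144a4043748091890133820105440480c805e8101b44204e2a404c5480b50901317201f0040286080646100b69201714403384807c390132d2016284041e8805e9900a6c201ee6402ee48076d100fb72068f440327080a80100e86)))) 
(.node (.node (.leaf (nat_lit 0x103a0220598640d2a480bd8102aea202a26405208808c4100050)) 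
(.leaf (nat_lit 0x0))) (.node 
(.leaf (nat_lit 0x402220000000000000000000000008017a900a4000000000000000000000000000000000000000000000000000004001580000000000000000000000000000000000000000000000000000000000000004001a800000000000000000000000000000000000000000000000000000000000000040111c000001003e60000004009cc8000a000000000000000000000000000000000000000000000000000000000000000000000000000)) 
(.leaf (nat_lit 0x101073202e8a402f1c80587900982)))))))
noncomputable def vt53 : Ix (Nat) := (.node (.node (.node (.node (.node (.node 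
(.leaf (nat_lit 0x100663200d704058ac80b419018492048a040833c80434900667)) 
(.leaf (nat_lit 0x4055748071d900738))) (.node (.leaf (nat_lit 0x80ca8103565)) 
(.leaf (nat_lit 0x0)))) (.node (.node (.leaf (nat_lit 0x808eb900c2a2022fa40202880560100492)) 
(.leaf (nat_lit 0x801e590011f))) (.leaf (nat_lit 0x100cf2)))) (.node (.node (.node 
(.leaf (nat_lit 0x101f30)) (.leaf (nat_lit 0x404ec481364101135))) (.leaf (nat_lit 0x80eff101758))) 
(.node (.node (.leaf (nat_lit 0x0)) (.leaf (nat_lit 0x802240000002005ca40792c80a2a9012a3))) 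
(.leaf (nat_lit 0x41452c82556903c8e20a6024101e08165b1041bd))))) (.node (.node (.node (.node 
(.leaf (nat_lit 0x102aa8)) (.leaf (nat_lit 0x0))) 
(.leaf (nat_lit 0x4006ac8028210045600000040216c808c9900ca22016b6000000000001008fb201e2a000000800d01004d6))) 
(.node (.node (.leaf (nat_lit 0x1013fd)) (.leaf (nat_lit 0x8017b9008cb))) (.leaf (nat_lit 0x0)))) 
(.node (.node (.node (.leaf (nat_lit 0x1013ce)) (.leaf (nat_lit 0x405114808e4100aa6))) 
(.leaf (nat_lit 0x806c490130c))) (.node (.node (.leaf (nat_lit 0x0)) (.leaf (nat_lit 0x0))) 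
(.leaf (nat_lit 0x0)))))) (.node (.node (.node (.node (.node (.leaf (nat_lit 0x10167f)) 
(.leaf (nat_lit 0x0))) (.node (.leaf (nat_lit 0x80b00103e9f)) 
(.leaf (nat_lit 0x4002fc00000000000)))) (.node (.node (.leaf (nat_lit 0x1003ba)) 
(.leaf (nat_lit 0x400b380000010098b))) (.leaf (nat_lit 0x407f0800000100a3d)))) (.node (.node (.node 
(.leaf (nat_lit 0x10276f)) (.leaf (nat_lit 0x0))) (.leaf (nat_lit 0x0))) (.node (.node 
(.leaf (nat_lit 0x100483202bd240570c802c590030b2078ea40f670816359021522070cc40dc5c814c5902a09)) 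
(.leaf (nat_lit 0x0))) (.leaf (nat_lit 0x0))))) (.node (.node (.node (.node 
(.leaf (nat_lit 0x1011bc)) (.leaf (nat_lit 0x0))) 
(.leaf (nat_lit 0x402db00000010164b200bce40492c80c23901561201ee2409e888094f1018c6))) (.node (.node 
(.leaf (nat_lit 0x101479)) (.leaf (nat_lit 0x405c3800000100f8f))) 
(.leaf (nat_lit 0x4015f400000100112)))) (.node (.node (.node (.leaf (nat_lit 0x1026fe)) 
(.leaf (nat_lit 0x4016848011400000020212640463c804c0800000))) 
(.leaf (nat_lit 0x1037a82056b440dca8817fb101898))) (.node (.node (.leaf (nat_lit 0x101336)) 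
(.leaf (nat_lit 0x0))) (.leaf (nat_lit 0x405800800ed900770)))))))
noncomputable def vt54 : Ix (Nat) := (.node (.node (.node (.node (.node 
(.leaf (nat_lit 0x401d9c80cb1902e5b2058464085f880c6d904162206f8a408ca080e6d102b2620688440e22481b12102f97)) 
(.leaf (nat_lit 0x102891))) (.node (.leaf (nat_lit 0x8095510129c)) 
(.leaf (nat_lit 0x20037440ae5080970901e89)))) (.node (.node (.leaf (nat_lit 0x1012dd)) 
(.leaf (nat_lit 0x808361011f020095c404b4081151100dc420591e40f6d081618902c502069ac40b24081b26104468205af240ad8881d6f102cfc20479240a56c81c2c102db82045d4407d6c81126102b7f20558e408d8880dd91031df))) 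
(.leaf (nat_lit 0x81188901967)))) (.node (.node (.node (.leaf (nat_lit 0x101a92)) 
(.leaf (nat_lit 0x102d07))) (.node (.leaf (nat_lit 0x80f35902e9e)) 
(.leaf (nat_lit 0x2040a241156081d111043b1)))) (.node (.node (.leaf (nat_lit 0x10068b)) 
(.leaf (nat_lit 0x20377641041c81c2e9041ba))) (.leaf (nat_lit 0x10225c))))) (.node (.node (.node 
(.node (.leaf (nat_lit 0x0)) (.leaf (nat_lit 0x102785))) (.node (.leaf (nat_lit 0x813a6103367)) 
(.leaf (nat_lit 0x2026ec40dcec819b59034bb)))) (.node (.node (.leaf (nat_lit 0x102a48)) 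
(.leaf (nat_lit 0x201a2040c21c8107b102d88))) (.leaf (nat_lit 0x815e1101ffc)))) (.node (.node (.node 
(.leaf (nat_lit 0x1024cf)) (.leaf (nat_lit 0x80b9a902217))) 
(.leaf (nat_lit 0x102df0205364408c9481ffd103fa2206ff2410bf481e6c103bc6))) (.node (.node 
(.leaf (nat_lit 0x80c10102391)) (.leaf (nat_lit 0x202f2441295c81c08904574))) 
(.leaf (nat_lit 0x1020fc))))))
noncomputable def vt55 : Ix (Nat) := (.node (.node (.node (.node (.node 
(.leaf (nat_lit 0x100325203984406744812f4101d382027644067f0815ae902bf2206b5440c6188189c901977)) 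
(.leaf (nat_lit 0x803a010203e))) (.node (.leaf (nat_lit 0x1020ea)) 
(.leaf (nat_lit 0x810851019ee)))) (.node (.node (.leaf (nat_lit 0x807fa902a4c)) 
(.leaf (nat_lit 0x803b2901af4))) (.leaf (nat_lit 0x80be790307d)))) (.node (.node (.node 
(.leaf (nat_lit 0x80da3104144)) (.leaf (nat_lit 0x8034f1020d7))) (.node 
(.leaf (nat_lit 0x101ed220cab641a8f882c5d90479e)) (.leaf (nat_lit 0x102847)))) (.node (.node 
(.leaf (nat_lit 0x80c20903013)) (.leaf (nat_lit 0x817dd1028a22050e24112f08214410269c))) 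
(.leaf (nat_lit 0x80777102d47))))) (.node (.node (.node (.node 
(.leaf (nat_lit 0x10269e20681040ab8081c5c1033d1208bfc41212481e4b10373d)) 
(.leaf (nat_lit 0x1000242065aa40c51481b5c102a13))) (.node (.leaf (nat_lit 0x808ca101ece)) 
(.leaf (nat_lit 0x101b05)))) (.node (.node (.leaf (nat_lit 0x8110910213f209a1c41738c839f9103931)) 
(.leaf (nat_lit 0x805f690277c))) (.leaf (nat_lit 0x101cc1)))) (.node (.node (.node 
(.leaf (nat_lit 0x81ad2902755)) (.leaf (nat_lit 0x80a3d9030ed))) (.node 
(.leaf (nat_lit 0x8037b102599)) (.leaf (nat_lit 0x10151e)))) (.node (.node 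
(.leaf (nat_lit 0x808dd10318c)) (.leaf (nat_lit 0x102ba5))) (.leaf (nat_lit 0x10114f))))))
noncomputable def vt56 : Ix (Nat) := (.node (.node (.node (.node (.node (.node 
(.leaf (nat_lit 0x808fc800000201718000000800fa800000)) (.leaf (nat_lit 0x0))) (.node 
(.leaf (nat_lit 0x407bd481a36902cc2)) (.leaf (nat_lit 0x0)))) (.node (.node 
(.leaf (nat_lit 0x1002f400000040063080229000000)) (.leaf (nat_lit 0x0))) 
(.leaf (nat_lit 0x100385)))) (.node (.node (.node (.leaf (nat_lit 0x1022ef)) (.leaf (nat_lit 0x0))) 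
(.leaf (nat_lit 0x10024f))) (.node (.node (.leaf (nat_lit 0x0)) 
(.leaf (nat_lit 0x1005af000000401e188022590068b))) (.leaf (nat_lit 0x81074100c04))))) (.node (.node 
(.node (.node (.leaf (nat_lit 0x101d7f)) (.leaf (nat_lit 0x0))) (.leaf (nat_lit 0x0))) (.node 
(.node (.leaf (nat_lit 0x101911)) (.leaf (nat_lit 0x0))) (.leaf (nat_lit 0x0)))) (.node (.node 
(.node (.leaf (nat_lit 0x100be4)) (.leaf (nat_lit 0x0))) (.leaf (nat_lit 0x0))) (.node (.node 
(.leaf (nat_lit 0x0)) (.leaf (nat_lit 0x0))) (.leaf (nat_lit 0x0)))))) (.node (.node (.node (.node 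
(.node (.leaf (nat_lit 0x100c90)) (.leaf (nat_lit 0x0))) (.node (.leaf (nat_lit 0x80ea9103610)) 
(.leaf (nat_lit 0x0)))) (.node (.node (.leaf (nat_lit 0x100351)) (.leaf (nat_lit 0x0))) 
(.leaf (nat_lit 0x0)))) (.node (.node (.node (.leaf (nat_lit 0x10282c)) (.leaf (nat_lit 0x0))) 
(.leaf (nat_lit 0x0))) (.node (.node 
(.leaf (nat_lit 0x1018f02039fe4018b4806868000002031b4406e4080cf290229a)) (.leaf (nat_lit 0x0))) 
(.leaf (nat_lit 0x0))))) (.node (.node (.node (.node (.leaf (nat_lit 0x10190f)) 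
(.leaf (nat_lit 0x0))) (.leaf (nat_lit 0x201718400b80000000000002018d8403f60806a7900f44))) (.node 
(.node (.leaf (nat_lit 0x1003b7)) (.leaf (nat_lit 0x0))) (.leaf (nat_lit 0x0)))) (.node (.node 
(.node (.leaf (nat_lit 0x101cf1)) (.leaf (nat_lit 0x0))) 
(.leaf (nat_lit 0x2011644131f8804fe100a9e))) (.node (.node (.leaf (nat_lit 0x100a86)) 
(.leaf (nat_lit 0x0))) (.leaf (nat_lit 0x0)))))))
noncomputable def vt57 : Ix (Nat) := (.node (.node (.node (.node (.node 
(.leaf (nat_lit 0x201d22408d6880b5b902de3203b3c407a6080b8e901b46)) (.leaf (nat_lit 0x101bea))) 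
(.node (.leaf (nat_lit 0x100539)) (.leaf (nat_lit 0x8012a900ec0)))) (.node (.node 
(.leaf (nat_lit 0x100d0d)) 
(.leaf (nat_lit 0x200e2e400d24801019026e3201a2c40727c8131f10249c204b2840967481535102aff2046dc40886481602902305))) 
(.leaf (nat_lit 0x80df6901649)))) (.node (.node (.node (.leaf (nat_lit 0x101364)) 
(.leaf (nat_lit 0x102150))) (.node (.leaf (nat_lit 0x10123d)) (.leaf (nat_lit 0x80bdb103323)))) 
(.node (.node (.leaf (nat_lit 0x0)) (.leaf (nat_lit 0x80aac105d7320784e40e6a8831b01037ed))) 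
(.leaf (nat_lit 0x101fd3))))) (.node (.node (.node (.node (.leaf (nat_lit 0x0)) 
(.leaf (nat_lit 0x101eda))) (.node (.leaf (nat_lit 0x101fce)) (.leaf (nat_lit 0x804da902179)))) 
(.node (.node (.leaf (nat_lit 0x10210b)) (.leaf (nat_lit 0x103d5c20623240993c81c3f101c0f))) 
(.leaf (nat_lit 0x8109f101dab)))) (.node (.node (.node (.leaf (nat_lit 0x10173e)) 
(.leaf (nat_lit 0x100522))) (.leaf (nat_lit 0x203830406f9080d401048d7207c3a40d730819f99034a5))) 
(.node (.node (.leaf (nat_lit 0x1008a3)) (.leaf (nat_lit 0x101097208b8240e27c8209e10342f))) 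
(.leaf (nat_lit 0x101677))))))
noncomputable def vt58 : Ix (Nat) := (.node (.node (.node (.node (.node (.node 
(.leaf (nat_lit 0x20008a401ed08080e900fcc2033e0403a9880633900611)) (.leaf (nat_lit 0x100774))) 
(.node (.leaf (nat_lit 0x10076a2022a2401a70806c10000002028a640b13880c6210210b)) 
(.leaf (nat_lit 0x0)))) (.node (.node (.leaf (nat_lit 0x8028710102520203a40603480f0410149b)) 
(.leaf (nat_lit 0x4000140000000000000000000000000000102124202722403880806cc10001a))) 
(.leaf (nat_lit 0x102023201aec4071948054390092a)))) (.node (.node (.node (.leaf (nat_lit 0x101c98)) 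
(.leaf (nat_lit 0x1004f5))) (.node (.leaf (nat_lit 0x803301022b4)) (.leaf (nat_lit 0x0)))) (.node 
(.node (.leaf (nat_lit 0x100579)) (.leaf (nat_lit 0x100bdc201de640104800000000000))) 
(.leaf (nat_lit 0x100306))))) (.node (.node (.node (.node (.leaf (nat_lit 0x101b1f)) 
(.leaf (nat_lit 0x0))) (.node (.leaf (nat_lit 0x8083a1027c4)) (.leaf (nat_lit 0x0)))) (.node (.node 
(.leaf (nat_lit 0x100ecd)) (.leaf (nat_lit 0x403dec801cf100622))) (.leaf (nat_lit 0x0)))) (.node 
(.node (.node (.leaf (nat_lit 0x100dbb)) (.leaf (nat_lit 0x0))) (.node 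
(.leaf (nat_lit 0x10014d000000000000000001005fe201254402fa4804bf100845)) (.leaf (nat_lit 0x0)))) 
(.node (.node (.leaf (nat_lit 0x0)) (.leaf (nat_lit 0x0))) (.leaf (nat_lit 0x0)))))) (.node (.node 
(.node (.node (.node (.leaf (nat_lit 0x1014bd)) (.leaf (nat_lit 0x0))) (.node 
(.leaf (nat_lit 0x4049a481966902c47)) (.leaf (nat_lit 0x100458000000400b0000000000000)))) (.node 
(.node (.leaf (nat_lit 0x100af9)) (.leaf (nat_lit 0x101998203d54405c78807cf90129b))) 
(.leaf (nat_lit 0x100450)))) (.node (.node (.node (.leaf (nat_lit 0x102697)) (.leaf (nat_lit 0x0))) 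
(.node (.leaf (nat_lit 0x0)) (.leaf (nat_lit 0x0)))) (.node (.node (.leaf (nat_lit 0x100ed5)) 
(.leaf (nat_lit 0x0))) (.leaf (nat_lit 0x40460880bfb900149))))) (.node (.node (.node (.node 
(.leaf (nat_lit 0x1012d5)) (.leaf (nat_lit 0x0))) (.node (.leaf (nat_lit 0x100621)) 
(.leaf (nat_lit 0x0)))) (.node (.node (.leaf (nat_lit 0x100434)) (.leaf (nat_lit 0x0))) 
(.leaf (nat_lit 0x0)))) (.node (.node (.node (.leaf (nat_lit 0x101ed8)) (.leaf (nat_lit 0x0))) 
(.leaf (nat_lit 0x100043))) (.node (.node (.leaf (nat_lit 0x101410)) (.leaf (nat_lit 0x0))) 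
(.leaf (nat_lit 0x0)))))))
noncomputable def vt59 : Ix (Nat) := (.node (.node (.node (.node (.node 
(.leaf (nat_lit 0x80ca69020a520308640543881b8490299520291c4050c480bed9011bf)) 
(.leaf (nat_lit 0x1018b9))) (.node (.leaf (nat_lit 0x101d3f)) 
(.leaf (nat_lit 0x100d9b2018ee40d6a48207c902fa2)))) (.node (.node (.leaf (nat_lit 0x0)) 
(.leaf (nat_lit 0x405be481b3a902a0a))) (.leaf (nat_lit 0x101fcb)))) (.node (.node (.node 
(.leaf (nat_lit 0x100bbb)) (.leaf (nat_lit 0x10353b20774241109c821139023fe))) (.node 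
(.leaf (nat_lit 0x816fc1013f9)) 
(.leaf (nat_lit 0x201aac410a7081a929035b4207d5c40d69081d8d903255)))) (.node (.node 
(.leaf (nat_lit 0x100657)) (.leaf (nat_lit 0x8089210535020a74041164c822251037e4))) 
(.leaf (nat_lit 0x10252e))))) (.node (.node (.node (.node (.leaf (nat_lit 0x100ced)) 
(.leaf (nat_lit 0x80f58901dbc203d40407bbc80856902d98205932408ab08132b1023ee202bde4081d0810bf104f6d2037ac4052608124a104dfe20706c40dfec816db9034b8))) 
(.node (.leaf (nat_lit 0x10183a204a2640719c826c4103116206fce40cc2081ed690393c)) 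
(.leaf (nat_lit 0x80764103c4a206fe840da3481bc11031b2)))) (.node (.node (.leaf (nat_lit 0x100d91)) 
(.leaf (nat_lit 0x4047e0830241034f4))) (.leaf (nat_lit 0x102190)))) (.node (.node (.node 
(.leaf (nat_lit 0x102876)) (.leaf (nat_lit 0x80d6e10170a))) (.node (.leaf (nat_lit 0x816a5101d8a)) 
(.leaf (nat_lit 0x804ed10651a208c1a4139a88205b902fd1)))) (.node (.node (.leaf (nat_lit 0x101cf3)) 
(.leaf (nat_lit 0x408e7080be99018642075ba40bab481a9790374820625040c484819b91039e320a30640f138826ce903b10206bb841563481c4e102ec0))) 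
(.leaf (nat_lit 0x1023d6))))))
noncomputable def vt60 : Ix (Nat) := (.node (.node (.node (.node (.node (.node 
(.leaf (nat_lit 0x0)) (.leaf (nat_lit 0x0))) (.leaf (nat_lit 0x0))) (.node (.leaf (nat_lit 0x0)) 
(.leaf (nat_lit 0x0)))) (.node (.node (.leaf (nat_lit 0x0)) (.leaf (nat_lit 0x0))) (.node 
(.leaf (nat_lit 0x1020c8200b124027dc801f410054f)) (.leaf (nat_lit 0x0))))) (.node (.node (.node 
(.node (.leaf (nat_lit 0x40012c00000000000)) (.leaf (nat_lit 0x0))) (.leaf (nat_lit 0x0))) (.node 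
(.leaf (nat_lit 0x40285c800399003c5)) (.leaf (nat_lit 0x0)))) (.node (.node (.leaf (nat_lit 0x0)) 
(.leaf (nat_lit 0x0))) (.node (.leaf (nat_lit 0x0)) (.leaf (nat_lit 0x0)))))) (.node (.node (.node 
(.node (.node (.leaf (nat_lit 0x0)) (.leaf (nat_lit 0x0))) (.leaf (nat_lit 0x0))) (.node 
(.leaf (nat_lit 0x20028a400e7c8009b90005d00000040414c802a59006032013a84037d88066b9019cf)) 
(.leaf (nat_lit 0x0)))) (.node (.node (.leaf (nat_lit 0x0)) (.leaf (nat_lit 0x0))) (.node 
(.leaf (nat_lit 0x1029c0203b2c4054c0809409003b6)) (.leaf (nat_lit 0x100026))))) (.node (.node 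
(.node (.node (.leaf (nat_lit 0x0)) (.leaf (nat_lit 0x0))) (.leaf (nat_lit 0x0))) (.node 
(.leaf (nat_lit 0x0)) (.leaf (nat_lit 0x0)))) (.node (.node (.leaf (nat_lit 0x0)) 
(.leaf (nat_lit 0x0))) (.node (.leaf (nat_lit 0x0)) (.leaf (nat_lit 0x0)))))))
noncomputable def vt61 : Ix (Nat) := (.node (.node (.node (.node (.node (.leaf (nat_lit 0x0)) 
(.leaf (nat_lit 0x80961900f04201bc0401f20805d1800000))) (.leaf (nat_lit 0x0))) (.node (.node 
(.leaf (nat_lit 0x0)) (.leaf (nat_lit 0x806589005c5200c66401d54806719008d6))) 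
(.leaf (nat_lit 0x0)))) (.node (.node (.node (.leaf (nat_lit 0x0)) 
(.leaf (nat_lit 0x4043f48019590069820036a4014f880217100473))) (.leaf (nat_lit 0x0))) (.node (.node 
(.leaf (nat_lit 0x0)) (.leaf (nat_lit 0x400a6400000100a05204a50402e5c8039d000000))) 
(.leaf (nat_lit 0x0))))) (.node (.node (.node (.node (.leaf (nat_lit 0x0)) (.leaf (nat_lit 0x0))) 
(.leaf (nat_lit 0x4043f48019590069820036a4014f880217100473))) (.node (.node (.leaf (nat_lit 0x0)) 
(.leaf (nat_lit 0x0))) (.leaf (nat_lit 0x400a6400000100a05204a50402e5c8039d000000)))) (.node (.node 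
(.node (.leaf (nat_lit 0x0)) (.leaf (nat_lit 0x0))) 
(.leaf (nat_lit 0x806589005c5200c66401d54806719008d6))) (.node 
(.leaf (nat_lit 0x80961900f04201bc0401f20805d1800000)) (.leaf (nat_lit 0x0))))))
noncomputable def vt62 : Ix (Nat) := (.node (.node (.node (.node (.node (.leaf (nat_lit 0x0)) 
(.leaf (nat_lit 0x0))) (.leaf (nat_lit 0x0))) (.node (.leaf (nat_lit 0x0)) (.leaf (nat_lit 0x0)))) 
(.node (.node (.node (.leaf (nat_lit 0x0)) (.leaf (nat_lit 0x4009e000000000000))) 
(.leaf (nat_lit 0x0))) (.node (.leaf (nat_lit 0x4009e000000000000)) (.leaf (nat_lit 0x0))))) (.node 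
(.node (.node (.node (.leaf (nat_lit 0x0)) (.leaf (nat_lit 0x1008e1))) (.leaf (nat_lit 0x1008e1))) 
(.node (.leaf (nat_lit 0x0)) (.leaf (nat_lit 0x0)))) (.node (.node (.node (.leaf (nat_lit 0x0)) 
(.leaf (nat_lit 0x0))) (.leaf (nat_lit 0x0))) (.node (.leaf (nat_lit 0x0)) (.leaf (nat_lit 0x0))))))
noncomputable def vt63 : Ix (Nat) := (.node (.node (.node (.node (.node (.node 
(.leaf (nat_lit 0x40150c80053100148000000400a84000001008522012824024b88054c000000)) 
(.leaf (nat_lit 0x0))) (.leaf (nat_lit 0x408d748096c90090a))) (.node 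
(.leaf (nat_lit 0x405004809ac1000d2)) (.leaf (nat_lit 0x0)))) (.node (.node (.leaf (nat_lit 0x0)) 
(.leaf (nat_lit 0x0))) (.node (.leaf (nat_lit 0x407468813f310192b)) (.leaf (nat_lit 0x0))))) (.node 
(.node (.node (.leaf (nat_lit 0x405cf480b1e100ae7202f48406d1480aa79007c7)) (.leaf (nat_lit 0x0))) 
(.node (.leaf (nat_lit 0x8032d100188)) (.leaf (nat_lit 0x800b11002cf200430400a7080ae7900190)))) 
(.node (.node (.leaf (nat_lit 0x0)) (.leaf (nat_lit 0x0))) (.node 
(.leaf (nat_lit 0x1011af2044864071f881017900945)) (.leaf (nat_lit 0x0)))))) (.node (.node (.node 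
(.node (.node (.leaf (nat_lit 0x4060ec80d2d90058d203388403c388033b000000)) (.leaf (nat_lit 0x0))) 
(.leaf (nat_lit 0x0))) (.node 
(.leaf (nat_lit 0x20229c40100080099100dd8201c08402250808739031bc20369e40459080874900f512058c4408cc48073e9010fd)) 
(.leaf (nat_lit 0x0)))) (.node (.node (.leaf (nat_lit 0x0)) (.leaf (nat_lit 0x0))) (.node 
(.leaf (nat_lit 0x10132c2063bc406b1480b729009d0)) (.leaf (nat_lit 0x0))))) (.node (.node (.node 
(.leaf (nat_lit 0x2059d6406d3c80eca901115)) (.leaf (nat_lit 0x0))) (.node 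
(.leaf (nat_lit 0x403db0815951014fb)) (.leaf (nat_lit 0x0)))) (.node (.node 
(.leaf (nat_lit 0x805da800000)) (.leaf (nat_lit 0x0))) (.node 
(.leaf (nat_lit 0x10294f2022d4404e8480d93100d60)) (.leaf (nat_lit 0x0)))))))
noncomputable def vt64 : Ix (Nat) := (.node (.node (.node (.node (.node (.node 
(.leaf (nat_lit 0x0)) (.leaf (nat_lit 0x0))) (.leaf (nat_lit 0x0))) (.node (.leaf (nat_lit 0x0)) 
(.leaf (nat_lit 0x0)))) (.node (.node (.leaf (nat_lit 0x0)) (.leaf (nat_lit 0x0))) (.node 
(.leaf (nat_lit 0x40a72c807e190124c)) (.leaf (nat_lit 0x0))))) (.node (.node (.node 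
(.leaf (nat_lit 0x0)) (.leaf (nat_lit 0x0))) (.node (.leaf (nat_lit 0x0)) (.leaf (nat_lit 0x0)))) 
(.node (.node (.leaf (nat_lit 0x0)) (.leaf (nat_lit 0x0))) (.node (.leaf (nat_lit 0x0)) 
(.leaf (nat_lit 0x0)))))) (.node (.node (.node (.node (.node (.leaf (nat_lit 0x0)) 
(.leaf (nat_lit 0x0))) (.leaf (nat_lit 0x0))) (.node (.leaf (nat_lit 0x0)) (.leaf (nat_lit 0x0)))) 
(.node (.node (.leaf (nat_lit 0x0)) (.leaf (nat_lit 0x0))) (.node (.leaf (nat_lit 0x0)) 
(.leaf (nat_lit 0x0))))) (.node (.node (.node (.leaf (nat_lit 0x0)) (.leaf (nat_lit 0x0))) (.node 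
(.leaf (nat_lit 0x4030e0802c890068a)) (.leaf (nat_lit 0x0)))) (.node (.node (.leaf (nat_lit 0x0)) 
(.leaf (nat_lit 0x0))) (.node (.leaf (nat_lit 0x0)) (.leaf (nat_lit 0x0)))))))
noncomputable def vt65 : Ix (Nat) := (.node (.node (.node (.node (.node (.node 
(.leaf (nat_lit 0x40150c80053100148000000400a84000001008522012824024b88054c000000)) 
(.leaf (nat_lit 0x0))) (.leaf (nat_lit 0x408d748096c90090a))) (.node 
(.leaf (nat_lit 0x405004809ac1000d2)) (.leaf (nat_lit 0x0)))) (.node (.node (.leaf (nat_lit 0x0)) 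
(.leaf (nat_lit 0x0))) (.node (.leaf (nat_lit 0x407468813f310192b)) (.leaf (nat_lit 0x0))))) (.node 
(.node (.node (.leaf (nat_lit 0x405cf480b1e100ae7202f48406d1480aa79007c7)) (.leaf (nat_lit 0x0))) 
(.node (.leaf (nat_lit 0x8032d100188)) (.leaf (nat_lit 0x800b11002cf200430400a7080ae7900190)))) 
(.node (.node (.leaf (nat_lit 0x0)) (.leaf (nat_lit 0x0))) (.node 
(.leaf (nat_lit 0x1011af2044864071f881017900945)) (.leaf (nat_lit 0x0)))))) (.node (.node (.node 
(.node (.node (.leaf (nat_lit 0x4060ec80d2d90058d203388403c388033b000000)) (.leaf (nat_lit 0x0))) 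
(.leaf (nat_lit 0x0))) (.node 
(.leaf (nat_lit 0x20229c40100080099100dd8201c08402250808739031bc20369e40459080874900f512058c4408cc48073e9010fd)) 
(.leaf (nat_lit 0x0)))) (.node (.node (.leaf (nat_lit 0x0)) (.leaf (nat_lit 0x0))) (.node 
(.leaf (nat_lit 0x10132c2063bc406b1480b729009d0)) (.leaf (nat_lit 0x0))))) (.node (.node (.node 
(.leaf (nat_lit 0x2059d6406d3c80eca901115)) (.leaf (nat_lit 0x0))) (.node 
(.leaf (nat_lit 0x403db0815951014fb)) (.leaf (nat_lit 0x0)))) (.node (.node 
(.leaf (nat_lit 0x805da800000)) (.leaf (nat_lit 0x0))) (.node 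
(.leaf (nat_lit 0x10294f2022d4404e8480d93100d60)) (.leaf (nat_lit 0x0)))))))
noncomputable def vt66 : Ix (Nat) := (.node (.node (.node (.node (.node (.node 
(.leaf (nat_lit 0x0)) (.leaf (nat_lit 0x0))) (.leaf (nat_lit 0x0))) (.node (.leaf (nat_lit 0x0)) 
(.leaf (nat_lit 0x0)))) (.node (.node (.leaf (nat_lit 0x0)) (.leaf (nat_lit 0x0))) (.node 
(.leaf (nat_lit 0x40a72c807e190124c)) (.leaf (nat_lit 0x0))))) (.node (.node (.node 
(.leaf (nat_lit 0x0)) (.leaf (nat_lit 0x0))) (.node (.leaf (nat_lit 0x0)) (.leaf (nat_lit 0x0)))) 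
(.node (.node (.leaf (nat_lit 0x0)) (.leaf (nat_lit 0x0))) (.node (.leaf (nat_lit 0x0)) 
(.leaf (nat_lit 0x0)))))) (.node (.node (.node (.node (.node (.leaf (nat_lit 0x0)) 
(.leaf (nat_lit 0x0))) (.leaf (nat_lit 0x0))) (.node (.leaf (nat_lit 0x0)) (.leaf (nat_lit 0x0)))) 
(.node (.node (.leaf (nat_lit 0x0)) (.leaf (nat_lit 0x0))) (.node (.leaf (nat_lit 0x0)) 
(.leaf (nat_lit 0x0))))) (.node (.node (.node (.leaf (nat_lit 0x0)) (.leaf (nat_lit 0x0))) (.node 
(.leaf (nat_lit 0x4030e0802c890068a)) (.leaf (nat_lit 0x0)))) (.node (.node (.leaf (nat_lit 0x0)) 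
(.leaf (nat_lit 0x0))) (.node (.leaf (nat_lit 0x0)) (.leaf (nat_lit 0x0)))))))
noncomputable def vt67 : Ix (Nat) := (.node (.node (.node (.node (.node (.leaf (nat_lit 0x0)) 
(.leaf (nat_lit 0x0))) (.leaf (nat_lit 0x0))) (.node (.node (.leaf (nat_lit 0x0)) 
(.leaf (nat_lit 0x100185))) (.leaf (nat_lit 0x0)))) (.node (.node (.node (.leaf (nat_lit 0x0)) 
(.leaf (nat_lit 0x404030802eb800000))) (.leaf (nat_lit 0x0))) (.node (.node (.leaf (nat_lit 0x0)) 
(.leaf (nat_lit 0x0))) (.leaf (nat_lit 0x0))))) (.node (.node (.node (.node (.leaf (nat_lit 0x0)) 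
(.leaf (nat_lit 0x0))) (.leaf (nat_lit 0x404030802eb800000))) (.node (.node (.leaf (nat_lit 0x0)) 
(.leaf (nat_lit 0x0))) (.leaf (nat_lit 0x0)))) (.node (.node (.node (.leaf (nat_lit 0x0)) 
(.leaf (nat_lit 0x0))) (.leaf (nat_lit 0x100185))) (.node (.leaf (nat_lit 0x0)) 
(.leaf (nat_lit 0x0))))))
noncomputable def vt68 : Ix (Nat) := (.node (.node (.node (.node (.node (.leaf (nat_lit 0x0)) 
(.leaf (nat_lit 0x0))) (.leaf (nat_lit 0x0))) (.node (.node (.leaf (nat_lit 0x0)) 
(.leaf (nat_lit 0x0))) (.leaf (nat_lit 0x803a80000000000004017e8000001008c2)))) (.node (.node 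
(.node (.leaf (nat_lit 0x0)) (.leaf (nat_lit 0x0))) (.leaf (nat_lit 0x0))) (.node (.node 
(.leaf (nat_lit 0x0)) (.leaf (nat_lit 0x0))) (.leaf (nat_lit 0x2059b4407bbc812b390125f))))) (.node 
(.node (.node (.node (.leaf (nat_lit 0x0)) (.leaf (nat_lit 0x806139007a7))) 
(.leaf (nat_lit 0x4001e0000000000000000000000000000000000020058a000000801cb000000))) (.node (.node 
(.leaf (nat_lit 0x0)) (.leaf (nat_lit 0x0))) 
(.leaf (nat_lit 0x407a1081d2e100e222036dc4080b480a22100d4f)))) (.node (.node (.node 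
(.leaf (nat_lit 0x0)) (.leaf (nat_lit 0x0))) (.leaf (nat_lit 0x40b85480dc210134e))) (.node 
(.leaf (nat_lit 0x0)) (.leaf (nat_lit 0x206c2240c86c811df101283))))))
noncomputable def vt69 : Ix (Nat) := (.node (.node (.node (.node (.node (.leaf (nat_lit 0x0)) 
(.leaf (nat_lit 0x0))) (.leaf (nat_lit 0x0))) (.node (.node (.leaf (nat_lit 0x0)) 
(.leaf (nat_lit 0x0))) (.leaf (nat_lit 0x0)))) (.node (.node (.node (.leaf (nat_lit 0x0)) 
(.leaf (nat_lit 0x0))) (.leaf (nat_lit 0x0))) (.node (.node (.leaf (nat_lit 0x100681)) 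
(.leaf (nat_lit 0x0))) (.leaf (nat_lit 0x0))))) (.node (.node (.node (.node (.leaf (nat_lit 0x0)) 
(.leaf (nat_lit 0x0))) (.leaf (nat_lit 0x0))) (.node (.node (.leaf (nat_lit 0x0)) 
(.leaf (nat_lit 0x0))) (.leaf (nat_lit 0x0)))) (.node (.node (.node (.leaf (nat_lit 0x0)) 
(.leaf (nat_lit 0x0))) (.leaf (nat_lit 0x0))) (.node (.leaf (nat_lit 0x0)) (.leaf (nat_lit 0x0))))))
noncomputable def vt70 : Ix (Nat) := (.node (.node (.node (.node (.node (.leaf (nat_lit 0x0)) 
(.leaf (nat_lit 0x0))) (.leaf (nat_lit 0x0))) (.node (.node (.leaf (nat_lit 0x0)) 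
(.leaf (nat_lit 0x0))) (.leaf (nat_lit 0x803a80000000000004017e8000001008c2)))) (.node (.node 
(.node (.leaf (nat_lit 0x0)) (.leaf (nat_lit 0x0))) (.leaf (nat_lit 0x0))) (.node (.node 
(.leaf (nat_lit 0x0)) (.leaf (nat_lit 0x0))) (.leaf (nat_lit 0x2059b4407bbc812b390125f))))) (.node 
(.node (.node (.node (.leaf (nat_lit 0x0)) (.leaf (nat_lit 0x806139007a7))) 
(.leaf (nat_lit 0x4001e0000000000000000000000000000000000020058a000000801cb000000))) (.node (.node 
(.leaf (nat_lit 0x0)) (.leaf (nat_lit 0x0))) 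
(.leaf (nat_lit 0x407a1081d2e100e222036dc4080b480a22100d4f)))) (.node (.node (.node 
(.leaf (nat_lit 0x0)) (.leaf (nat_lit 0x0))) (.leaf (nat_lit 0x40b85480dc210134e))) (.node 
(.leaf (nat_lit 0x0)) (.leaf (nat_lit 0x206c2240c86c811df101283))))))
noncomputable def vt71 : Ix (Nat) := (.node (.node (.node (.node (.node (.leaf (nat_lit 0x0)) 
(.leaf (nat_lit 0x0))) (.leaf (nat_lit 0x0))) (.node (.node (.leaf (nat_lit 0x0)) 
(.leaf (nat_lit 0x0))) (.leaf (nat_lit 0x0)))) (.node (.node (.node (.leaf (nat_lit 0x0)) 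
(.leaf (nat_lit 0x0))) (.leaf (nat_lit 0x0))) (.node (.node (.leaf (nat_lit 0x100681)) 
(.leaf (nat_lit 0x0))) (.leaf (nat_lit 0x0))))) (.node (.node (.node (.node (.leaf (nat_lit 0x0)) 
(.leaf (nat_lit 0x0))) (.leaf (nat_lit 0x0))) (.node (.node (.leaf (nat_lit 0x0)) 
(.leaf (nat_lit 0x0))) (.leaf (nat_lit 0x0)))) (.node (.node (.node (.leaf (nat_lit 0x0)) 
(.leaf (nat_lit 0x0))) (.leaf (nat_lit 0x0))) (.node (.leaf (nat_lit 0x0)) (.leaf (nat_lit 0x0))))))
noncomputable def vt72 : Ix (Nat) := (.node (.node (.node (.node (.node (.leaf (nat_lit 0x0)) 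
(.leaf (nat_lit 0x0))) (.leaf (nat_lit 0x0))) (.node (.node (.leaf (nat_lit 0x0)) 
(.leaf (nat_lit 0x0))) (.leaf (nat_lit 0x0)))) (.node (.node (.node (.leaf (nat_lit 0x0)) 
(.leaf (nat_lit 0x0))) (.leaf (nat_lit 0x0))) (.node (.leaf (nat_lit 0x0)) (.leaf (nat_lit 0x0))))) 
(.node (.node (.node (.node (.leaf (nat_lit 0x0)) (.leaf (nat_lit 0x0))) (.leaf (nat_lit 0x0))) 
(.node (.leaf (nat_lit 0x0)) (.leaf (nat_lit 0x0)))) (.node (.node (.node (.leaf (nat_lit 0x0)) 
(.leaf (nat_lit 0x0))) (.leaf (nat_lit 0x0))) (.node (.leaf (nat_lit 0x0)) (.leaf (nat_lit 0x0))))))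
noncomputable def vt73 : Ix (Nat) := (.node (.node (.node (.node (.node (.leaf (nat_lit 0x0)) 
(.leaf (nat_lit 0x0))) (.leaf (nat_lit 0x0))) (.node (.node (.leaf (nat_lit 0x0)) 
(.leaf (nat_lit 0x0))) (.leaf (nat_lit 0x0)))) (.node (.node (.node (.leaf (nat_lit 0x0)) 
(.leaf (nat_lit 0x100088))) (.leaf (nat_lit 0x100088))) (.node (.leaf (nat_lit 0x0)) 
(.leaf (nat_lit 0x0))))) (.node (.node (.node (.node (.leaf (nat_lit 0x0)) (.leaf (nat_lit 0x0))) 
(.leaf (nat_lit 0x0))) (.node (.leaf (nat_lit 0x0)) (.leaf (nat_lit 0x0)))) (.node (.node (.node 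
(.leaf (nat_lit 0x0)) (.leaf (nat_lit 0x0))) (.leaf (nat_lit 0x0))) (.node (.leaf (nat_lit 0x0)) 
(.leaf (nat_lit 0x0))))))
noncomputable def vt74 : Ix (Nat) := (.node (.node (.node (.node (.node (.leaf (nat_lit 0x0)) 
(.leaf (nat_lit 0x0))) (.leaf (nat_lit 0x0))) (.node (.leaf (nat_lit 0x0)) (.leaf (nat_lit 0x0)))) 
(.node (.node (.node (.leaf (nat_lit 0x0)) (.leaf (nat_lit 0x0))) (.leaf (nat_lit 0x0))) (.node 
(.leaf (nat_lit 0x1002cb)) (.leaf (nat_lit 0x0))))) (.node (.node (.node (.node 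
(.leaf (nat_lit 0x0)) (.leaf (nat_lit 0x0))) (.leaf (nat_lit 0x0))) (.node (.leaf (nat_lit 0x0)) 
(.leaf (nat_lit 0x0)))) (.node (.node (.leaf (nat_lit 0x0)) (.leaf (nat_lit 0x0))) (.node 
(.leaf (nat_lit 0x0)) (.leaf (nat_lit 0x0))))))
noncomputable def vt75 : Ix (Nat) := (.node (.node (.node (.node (.node (.leaf (nat_lit 0x0)) 
(.leaf (nat_lit 0x0))) (.leaf (nat_lit 0x0))) (.node (.leaf (nat_lit 0x0)) (.leaf (nat_lit 0x0)))) 
(.node (.node (.node (.leaf (nat_lit 0x0)) (.leaf (nat_lit 0x0))) (.leaf (nat_lit 0x0))) (.node 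
(.leaf (nat_lit 0x1002cb)) (.leaf (nat_lit 0x0))))) (.node (.node (.node (.node 
(.leaf (nat_lit 0x0)) (.leaf (nat_lit 0x0))) (.leaf (nat_lit 0x0))) (.node (.leaf (nat_lit 0x0)) 
(.leaf (nat_lit 0x0)))) (.node (.node (.leaf (nat_lit 0x0)) (.leaf (nat_lit 0x0))) (.node 
(.leaf (nat_lit 0x0)) (.leaf (nat_lit 0x0))))))
noncomputable def vt76 : Ix (Nat) := (.node (.node (.node (.node (.node (.leaf (nat_lit 0x0)) 
(.leaf (nat_lit 0x0))) (.leaf (nat_lit 0x0))) (.node (.node (.leaf (nat_lit 0x0)) 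
(.leaf (nat_lit 0x0))) (.leaf (nat_lit 0x0)))) (.node (.node (.node (.leaf (nat_lit 0x0)) 
(.leaf (nat_lit 0x0))) (.leaf (nat_lit 0x0))) (.node (.leaf (nat_lit 0x0)) (.leaf (nat_lit 0x0))))) 
(.node (.node (.node (.node (.leaf (nat_lit 0x0)) (.leaf (nat_lit 0x402d6880128100741))) 
(.leaf (nat_lit 0x402d6880128100741))) (.node (.leaf (nat_lit 0x0)) (.leaf (nat_lit 0x0)))) (.node 
(.node (.node (.leaf (nat_lit 0x0)) (.leaf (nat_lit 0x0))) (.leaf (nat_lit 0x0))) (.node 
(.leaf (nat_lit 0x0)) (.leaf (nat_lit 0x0))))))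
noncomputable def vt77 : Ix (Nat) := (.node (.node (.node (.node (.node (.leaf (nat_lit 0x0)) 
(.leaf (nat_lit 0x8001b000000))) (.leaf (nat_lit 0x8001b000000))) (.node (.node 
(.leaf (nat_lit 0x0)) (.leaf (nat_lit 0x0))) (.leaf (nat_lit 0x0)))) (.node (.node (.node 
(.leaf (nat_lit 0x0)) (.leaf (nat_lit 0x1001d2))) (.leaf (nat_lit 0x1001d2))) (.node 
(.leaf (nat_lit 0x0)) (.leaf (nat_lit 0x0))))) (.node (.node (.node (.node (.leaf (nat_lit 0x0)) 
(.leaf (nat_lit 0x0))) (.leaf (nat_lit 0x0))) (.node (.leaf (nat_lit 0x0)) (.leaf (nat_lit 0x0)))) 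
(.node (.node (.node (.leaf (nat_lit 0x0)) (.leaf (nat_lit 0x0))) (.leaf (nat_lit 0x0))) (.node 
(.leaf (nat_lit 0x0)) (.leaf (nat_lit 0x0))))))
noncomputable def vt78 : Ix (Nat) := (.node (.node (.node (.node (.node (.leaf (nat_lit 0x0)) 
(.leaf (nat_lit 0x400084805c2800000))) (.leaf (nat_lit 0x400084805c2800000))) (.node (.node 
(.leaf (nat_lit 0x0)) (.leaf (nat_lit 0x0))) (.leaf (nat_lit 0x0)))) (.node (.node (.node 
(.leaf (nat_lit 0x0)) (.leaf (nat_lit 0x10020d))) (.leaf (nat_lit 0x10020d))) (.node 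
(.leaf (nat_lit 0x0)) (.leaf (nat_lit 0x0))))) (.node (.node (.node (.node (.leaf (nat_lit 0x0)) 
(.leaf (nat_lit 0x0))) (.leaf (nat_lit 0x0))) (.node (.leaf (nat_lit 0x0)) (.leaf (nat_lit 0x0)))) 
(.node (.node (.node (.leaf (nat_lit 0x0)) (.leaf (nat_lit 0x0))) (.leaf (nat_lit 0x0))) (.node 
(.leaf (nat_lit 0x0)) (.leaf (nat_lit 0x0))))))
noncomputable def vt79 : Ix (Nat) := (.node (.node (.node (.node (.node 
(.leaf (nat_lit 0x400b8800000000000)) (.leaf (nat_lit 0x0))) (.leaf (nat_lit 0x0))) (.node 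
(.leaf (nat_lit 0x801cc800000)) (.leaf (nat_lit 0x10011e)))) (.node (.node (.node 
(.leaf (nat_lit 0x0)) (.leaf (nat_lit 0x0))) (.leaf (nat_lit 0x0))) (.node 
(.leaf (nat_lit 0x100260)) (.leaf (nat_lit 0x0))))) (.node (.node (.node (.node 
(.leaf (nat_lit 0x0)) (.leaf (nat_lit 0x0))) (.leaf (nat_lit 0x0))) (.node (.leaf (nat_lit 0x0)) 
(.leaf (nat_lit 0x0)))) (.node (.node (.leaf (nat_lit 0x0)) (.leaf (nat_lit 0x0))) (.node 
(.leaf (nat_lit 0x0)) (.leaf (nat_lit 0x0))))))
noncomputable def vt80 : Ix (Nat) := (.node (.node (.node (.node (.node (.leaf (nat_lit 0x0)) 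
(.leaf (nat_lit 0x0))) (.leaf (nat_lit 0x0))) (.node (.leaf (nat_lit 0x40042800000000000)) 
(.leaf (nat_lit 0x0)))) (.node (.node (.node (.leaf (nat_lit 0x1005b4)) (.leaf (nat_lit 0x0))) 
(.leaf (nat_lit 0x0))) (.node (.leaf (nat_lit 0x100dea)) (.leaf (nat_lit 0x0))))) (.node (.node 
(.node (.node (.leaf (nat_lit 0x0)) (.leaf (nat_lit 0x0))) (.leaf (nat_lit 0x0))) (.node 
(.leaf (nat_lit 0x0)) (.leaf (nat_lit 0x0)))) (.node (.node (.leaf (nat_lit 0x0)) 
(.leaf (nat_lit 0x0))) (.node (.leaf (nat_lit 0x0)) (.leaf (nat_lit 0x0))))))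
noncomputable def vt81 : Ix (Nat) := (.node (.node (.node (.node (.node 
(.leaf (nat_lit 0x400b8800000000000)) (.leaf (nat_lit 0x0))) (.leaf (nat_lit 0x0))) (.node 
(.leaf (nat_lit 0x801cc800000)) (.leaf (nat_lit 0x10011e)))) (.node (.node (.node 
(.leaf (nat_lit 0x0)) (.leaf (nat_lit 0x0))) (.leaf (nat_lit 0x0))) (.node 
(.leaf (nat_lit 0x100260)) (.leaf (nat_lit 0x0))))) (.node (.node (.node (.node 
(.leaf (nat_lit 0x0)) (.leaf (nat_lit 0x0))) (.leaf (nat_lit 0x0))) (.node (.leaf (nat_lit 0x0)) 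
(.leaf (nat_lit 0x0)))) (.node (.node (.leaf (nat_lit 0x0)) (.leaf (nat_lit 0x0))) (.node 
(.leaf (nat_lit 0x0)) (.leaf (nat_lit 0x0))))))
noncomputable def vt82 : Ix (Nat) := (.node (.node (.node (.node (.node (.leaf (nat_lit 0x0)) 
(.leaf (nat_lit 0x0))) (.leaf (nat_lit 0x0))) (.node (.leaf (nat_lit 0x40042800000000000)) 
(.leaf (nat_lit 0x0)))) (.node (.node (.node (.leaf (nat_lit 0x1005b4)) (.leaf (nat_lit 0x0))) 
(.leaf (nat_lit 0x0))) (.node (.leaf (nat_lit 0x100dea)) (.leaf (nat_lit 0x0))))) (.node (.node 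
(.node (.node (.leaf (nat_lit 0x0)) (.leaf (nat_lit 0x0))) (.leaf (nat_lit 0x0))) (.node 
(.leaf (nat_lit 0x0)) (.leaf (nat_lit 0x0)))) (.node (.node (.leaf (nat_lit 0x0)) 
(.leaf (nat_lit 0x0))) (.node (.leaf (nat_lit 0x0)) (.leaf (nat_lit 0x0))))))
noncomputable def vt83 : Ix (Nat) := (.node (.node (.node (.node (.node (.leaf (nat_lit 0x0)) 
(.leaf (nat_lit 0x0))) (.leaf (nat_lit 0x0))) (.node (.node (.leaf (nat_lit 0x0)) 
(.leaf (nat_lit 0x10003d))) (.leaf (nat_lit 0x0)))) (.node (.node (.node (.leaf (nat_lit 0x0)) 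
(.leaf (nat_lit 0x0))) (.leaf (nat_lit 0x0))) (.node (.leaf (nat_lit 0x0)) (.leaf (nat_lit 0x0))))) 
(.node (.node (.node (.node (.leaf (nat_lit 0x0)) (.leaf (nat_lit 0x0))) 
(.leaf (nat_lit 0x401588800fd90025e))) (.node (.leaf (nat_lit 0x0)) (.leaf (nat_lit 0x0)))) (.node 
(.node (.node (.leaf (nat_lit 0x0)) (.leaf (nat_lit 0x0))) (.leaf (nat_lit 0x0))) (.node 
(.leaf (nat_lit 0x0)) (.leaf (nat_lit 0x0))))))
noncomputable def vt84 : Ix (Nat) := (.node (.node (.node (.node (.node (.leaf (nat_lit 0x0)) 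
(.leaf (nat_lit 0x4076e08100f901a9f20408e4032d000000100511))) (.leaf (nat_lit 0x0))) (.node (.node 
(.leaf (nat_lit 0x0)) (.leaf (nat_lit 0x0))) (.leaf (nat_lit 0x0)))) (.node (.node (.node 
(.leaf (nat_lit 0x0)) (.leaf (nat_lit 0x202e3a405614808d81009fd))) (.leaf (nat_lit 0x0))) (.node 
(.leaf (nat_lit 0x0)) (.leaf (nat_lit 0x0))))) (.node (.node (.node (.node (.leaf (nat_lit 0x0)) 
(.leaf (nat_lit 0x200a8640072800000000000))) (.leaf (nat_lit 0x0))) (.node 
(.leaf (nat_lit 0x2006664009c800000000000)) (.leaf (nat_lit 0x0)))) (.node (.node (.node 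
(.leaf (nat_lit 0x0)) (.leaf (nat_lit 0x0))) (.leaf (nat_lit 0x0))) (.node (.leaf (nat_lit 0x0)) 
(.leaf (nat_lit 0x0))))))
noncomputable def vt85 : Ix (Nat) := (.node (.node (.node (.node (.node (.leaf (nat_lit 0x0)) 
(.leaf (nat_lit 0x0))) (.leaf (nat_lit 0x403a74806b8800000))) (.node (.node (.leaf (nat_lit 0x0)) 
(.leaf (nat_lit 0x0))) (.leaf (nat_lit 0x100113)))) (.node (.node (.node (.leaf (nat_lit 0x0)) 
(.leaf (nat_lit 0x0))) (.leaf (nat_lit 0x100379))) (.node (.leaf (nat_lit 0x0)) 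
(.leaf (nat_lit 0x0))))) (.node (.node (.node (.node (.leaf (nat_lit 0x0)) (.leaf (nat_lit 0x0))) 
(.leaf (nat_lit 0x0))) (.node (.leaf (nat_lit 0x0)) (.leaf (nat_lit 0x0)))) (.node (.node (.node 
(.leaf (nat_lit 0x0)) (.leaf (nat_lit 0x0))) (.leaf (nat_lit 0x0))) (.node (.leaf (nat_lit 0x0)) 
(.leaf (nat_lit 0x0))))))
noncomputable def vt86 : Ix (Nat) := (.node (.node (.node (.node (.node (.leaf (nat_lit 0x0)) 
(.leaf (nat_lit 0x0))) (.leaf (nat_lit 0x2000dc000000800339002ca))) (.node 
(.leaf (nat_lit 0x10006b)) 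
(.leaf (nat_lit 0x201358402db48056e900b3800000000000000000000000201e5240171c801fe000000)))) (.node 
(.node (.node (.leaf (nat_lit 0x400b6c00000000000)) (.leaf (nat_lit 0x0))) (.leaf (nat_lit 0x0))) 
(.node (.leaf (nat_lit 0x40444c8085e900c1a)) (.leaf (nat_lit 0x0))))) (.node (.node (.node (.node 
(.leaf (nat_lit 0x0)) (.leaf (nat_lit 0x0))) 
(.leaf (nat_lit 0x400b680000000000000000000000000000000000))) (.node 
(.leaf (nat_lit 0x80007000000)) (.leaf (nat_lit 0x0)))) (.node (.node (.leaf (nat_lit 0x0)) 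
(.leaf (nat_lit 0x20038c400170801e61003de202f704045748091c10085a0000004010808037e90035e))) (.node 
(.leaf (nat_lit 0x0)) (.leaf (nat_lit 0x0))))))
noncomputable def vt87 : Ix (Nat) := (.node (.node (.node (.node (.node (.node 
(.leaf (nat_lit 0x0)) (.leaf (nat_lit 0x100691))) (.leaf (nat_lit 0x0))) (.node 
(.leaf (nat_lit 0x0)) (.leaf (nat_lit 0x0)))) (.node (.node (.leaf (nat_lit 0x0)) 
(.leaf (nat_lit 0x0))) (.node (.leaf (nat_lit 0x0)) (.leaf (nat_lit 0x407208000001008a3))))) (.node 
(.node (.node (.node (.leaf (nat_lit 0x0)) (.leaf (nat_lit 0x80150000000))) (.leaf (nat_lit 0x0))) 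
(.node (.leaf (nat_lit 0x100267)) (.leaf (nat_lit 0x0)))) (.node (.node (.leaf (nat_lit 0x0)) 
(.leaf (nat_lit 0x0))) (.node (.leaf (nat_lit 0x0)) (.leaf (nat_lit 0x40ca9880b86901ab3)))))) 
(.node (.node (.node (.node (.node (.leaf (nat_lit 0x0)) (.leaf (nat_lit 0x0))) 
(.leaf (nat_lit 0x0))) (.node (.leaf (nat_lit 0x0)) (.leaf (nat_lit 0x0)))) (.node (.node 
(.leaf (nat_lit 0x0)) (.leaf (nat_lit 0x0))) (.node (.leaf (nat_lit 0x0)) 
(.leaf (nat_lit 0x4093ec806f3101168))))) (.node (.node (.node (.node (.leaf (nat_lit 0x0)) 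
(.leaf (nat_lit 0x0))) (.leaf (nat_lit 0x0))) (.node (.leaf (nat_lit 0x0)) 
(.leaf (nat_lit 0x400f740000000000020007a00000000000000000)))) (.node (.node (.leaf (nat_lit 0x0)) 
(.leaf (nat_lit 0x0))) (.node (.leaf (nat_lit 0x0)) (.leaf (nat_lit 0x0)))))))
noncomputable def vt88 : Ix (Nat) := (.node (.node (.node (.node (.node (.leaf (nat_lit 0x0)) 
(.leaf (nat_lit 0x0))) (.node (.leaf (nat_lit 0x0)) 
(.leaf (nat_lit 0x40569080afd9016cc20270c404c08809a19000f9)))) (.node (.node (.leaf (nat_lit 0x0)) 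
(.leaf (nat_lit 0x0))) (.node (.leaf (nat_lit 0x0)) (.leaf (nat_lit 0x0))))) (.node (.node (.node 
(.leaf (nat_lit 0x0)) (.leaf (nat_lit 0x0))) (.node (.leaf (nat_lit 0x0)) (.leaf (nat_lit 0x0)))) 
(.node (.node (.leaf (nat_lit 0x0)) (.leaf (nat_lit 0x40da6081318902efc2051a840a5688089e100947))) 
(.leaf (nat_lit 0x0))))) (.node (.node (.node (.node (.leaf (nat_lit 0x0)) (.leaf (nat_lit 0x0))) 
(.node (.leaf (nat_lit 0x0)) (.leaf (nat_lit 0x205288407a7480e43900068)))) (.node (.node 
(.leaf (nat_lit 0x0)) (.leaf (nat_lit 0x0))) (.node (.leaf (nat_lit 0x0)) (.leaf (nat_lit 0x0))))) 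
(.node (.node (.node (.leaf (nat_lit 0x0)) (.leaf (nat_lit 0x0))) (.node (.leaf (nat_lit 0x0)) 
(.leaf (nat_lit 0x100123)))) (.node (.node (.leaf (nat_lit 0x0)) 
(.leaf (nat_lit 0x20391e4056c08089b900ab1))) (.leaf (nat_lit 0x0))))))
noncomputable def vt89 : Ix (Nat) := (.node (.node (.node (.node (.node (.leaf (nat_lit 0x0)) 
(.leaf (nat_lit 0x0))) (.node (.leaf (nat_lit 0x0)) (.leaf (nat_lit 0x0)))) (.node (.node 
(.leaf (nat_lit 0x0)) (.leaf (nat_lit 0x0))) (.node (.leaf (nat_lit 0x0)) (.leaf (nat_lit 0x0))))) 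
(.node (.node (.node (.leaf (nat_lit 0x0)) (.leaf (nat_lit 0x0))) (.node (.leaf (nat_lit 0x0)) 
(.leaf (nat_lit 0x0)))) (.node (.node (.leaf (nat_lit 0x0)) (.leaf (nat_lit 0x801d1900206))) 
(.leaf (nat_lit 0x10045c))))) (.node (.node (.node (.node (.leaf (nat_lit 0x0)) 
(.leaf (nat_lit 0x0))) (.node (.leaf (nat_lit 0x0)) (.leaf (nat_lit 0x0)))) (.node (.node 
(.leaf (nat_lit 0x0)) (.leaf (nat_lit 0x0))) (.node (.leaf (nat_lit 0x8000f800000)) 
(.leaf (nat_lit 0x0))))) (.node (.node (.node (.leaf (nat_lit 0x0)) (.leaf (nat_lit 0x0))) (.node 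
(.leaf (nat_lit 0x0)) (.leaf (nat_lit 0x0)))) (.node (.node (.leaf (nat_lit 0x0)) 
(.leaf (nat_lit 0x8026d1005fe))) (.leaf (nat_lit 0x0))))))
noncomputable def vt90 : Ix (Nat) := (.node (.node (.node (.node 
(.leaf (nat_lit 0x4003fc802998000002003d4401850800f49000a7200848400d5c8023d1005172010284000b0803d6900110)) 
(.leaf (nat_lit 0x1000f9))) (.node (.leaf (nat_lit 0x0)) (.leaf (nat_lit 0x0)))) (.node (.node 
(.leaf (nat_lit 0x0)) (.leaf (nat_lit 0x100ef8))) (.node (.leaf (nat_lit 0x0)) 
(.leaf (nat_lit 0x0))))) (.node (.node (.node (.leaf (nat_lit 0x0)) (.leaf (nat_lit 0x0))) (.node 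
(.leaf (nat_lit 0x0)) (.leaf (nat_lit 0x100911)))) (.node (.node (.leaf (nat_lit 0x0)) 
(.leaf (nat_lit 0x100606200c444016ac801c8800000))) (.node (.leaf (nat_lit 0x4001748019d1003ee)) 
(.leaf (nat_lit 0x0))))))
noncomputable def vt91 : Ix (Nat) := (.node (.node (.node (.node (.node (.leaf (nat_lit 0x0)) 
(.leaf (nat_lit 0x0))) (.leaf (nat_lit 0x0))) (.node (.leaf (nat_lit 0x0)) (.leaf (nat_lit 0x0)))) 
(.node (.node (.node (.leaf (nat_lit 0x0)) (.leaf (nat_lit 0x0))) (.leaf (nat_lit 0x0))) (.node 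
(.leaf (nat_lit 0x100246)) (.leaf (nat_lit 0x0))))) (.node (.node (.node (.node 
(.leaf (nat_lit 0x0)) (.leaf (nat_lit 0x0))) (.leaf (nat_lit 0x0))) (.node (.leaf (nat_lit 0x0)) 
(.leaf (nat_lit 0x0)))) (.node (.node (.leaf (nat_lit 0x0)) (.leaf (nat_lit 0x0))) (.node 
(.leaf (nat_lit 0x0)) (.leaf (nat_lit 0x0))))))
noncomputable def vt92 : Ix (Nat) := (.node (.node (.node (.node (.node (.leaf (nat_lit 0x0)) 
(.leaf (nat_lit 0x0))) (.leaf (nat_lit 0x0))) (.node (.node (.leaf (nat_lit 0x0)) 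
(.leaf (nat_lit 0x10003d))) (.leaf (nat_lit 0x0)))) (.node (.node (.node (.leaf (nat_lit 0x0)) 
(.leaf (nat_lit 0x0))) (.leaf (nat_lit 0x0))) (.node (.leaf (nat_lit 0x0)) (.leaf (nat_lit 0x0))))) 
(.node (.node (.node (.node (.leaf (nat_lit 0x0)) (.leaf (nat_lit 0x0))) 
(.leaf (nat_lit 0x401588800fd90025e))) (.node (.leaf (nat_lit 0x0)) (.leaf (nat_lit 0x0)))) (.node 
(.node (.node (.leaf (nat_lit 0x0)) (.leaf (nat_lit 0x0))) (.leaf (nat_lit 0x0))) (.node 
(.leaf (nat_lit 0x0)) (.leaf (nat_lit 0x0))))))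
noncomputable def vt93 : Ix (Nat) := (.node (.node (.node (.node (.node (.leaf (nat_lit 0x0)) 
(.leaf (nat_lit 0x4076e08100f901a9f20408e4032d000000100511))) (.leaf (nat_lit 0x0))) (.node (.node 
(.leaf (nat_lit 0x0)) (.leaf (nat_lit 0x0))) (.leaf (nat_lit 0x0)))) (.node (.node (.node 
(.leaf (nat_lit 0x0)) (.leaf (nat_lit 0x202e3a405614808d81009fd))) (.leaf (nat_lit 0x0))) (.node 
(.leaf (nat_lit 0x0)) (.leaf (nat_lit 0x0))))) (.node (.node (.node (.node (.leaf (nat_lit 0x0)) 
(.leaf (nat_lit 0x200a8640072800000000000))) (.leaf (nat_lit 0x0))) (.node 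
(.leaf (nat_lit 0x2006664009c800000000000)) (.leaf (nat_lit 0x0)))) (.node (.node (.node 
(.leaf (nat_lit 0x0)) (.leaf (nat_lit 0x0))) (.leaf (nat_lit 0x0))) (.node (.leaf (nat_lit 0x0)) 
(.leaf (nat_lit 0x0))))))
noncomputable def vt94 : Ix (Nat) := (.node (.node (.node (.node (.node (.leaf (nat_lit 0x0)) 
(.leaf (nat_lit 0x0))) (.leaf (nat_lit 0x403a74806b8800000))) (.node (.node (.leaf (nat_lit 0x0)) 
(.leaf (nat_lit 0x0))) (.leaf (nat_lit 0x100113)))) (.node (.node (.node (.leaf (nat_lit 0x0)) 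
(.leaf (nat_lit 0x0))) (.leaf (nat_lit 0x100379))) (.node (.leaf (nat_lit 0x0)) 
(.leaf (nat_lit 0x0))))) (.node (.node (.node (.node (.leaf (nat_lit 0x0)) (.leaf (nat_lit 0x0))) 
(.leaf (nat_lit 0x0))) (.node (.leaf (nat_lit 0x0)) (.leaf (nat_lit 0x0)))) (.node (.node (.node 
(.leaf (nat_lit 0x0)) (.leaf (nat_lit 0x0))) (.leaf (nat_lit 0x0))) (.node (.leaf (nat_lit 0x0)) 
(.leaf (nat_lit 0x0))))))
noncomputable def vt95 : Ix (Nat) := (.node (.node (.node (.node (.node (.leaf (nat_lit 0x0)) 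
(.leaf (nat_lit 0x0))) (.leaf (nat_lit 0x2000dc000000800339002ca))) (.node 
(.leaf (nat_lit 0x10006b)) 
(.leaf (nat_lit 0x201358402db48056e900b3800000000000000000000000201e5240171c801fe000000)))) (.node 
(.node (.node (.leaf (nat_lit 0x400b6c00000000000)) (.leaf (nat_lit 0x0))) (.leaf (nat_lit 0x0))) 
(.node (.leaf (nat_lit 0x40444c8085e900c1a)) (.leaf (nat_lit 0x0))))) (.node (.node (.node (.node 
(.leaf (nat_lit 0x0)) (.leaf (nat_lit 0x0))) 
(.leaf (nat_lit 0x400b680000000000000000000000000000000000))) (.node 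
(.leaf (nat_lit 0x80007000000)) (.leaf (nat_lit 0x0)))) (.node (.node (.leaf (nat_lit 0x0)) 
(.leaf (nat_lit 0x20038c400170801e61003de202f704045748091c10085a0000004010808037e90035e))) (.node 
(.leaf (nat_lit 0x0)) (.leaf (nat_lit 0x0))))))
noncomputable def vt96 : Ix (Nat) := (.node (.node (.node (.node (.node (.node 
(.leaf (nat_lit 0x0)) (.leaf (nat_lit 0x100691))) (.leaf (nat_lit 0x0))) (.node 
(.leaf (nat_lit 0x0)) (.leaf (nat_lit 0x0)))) (.node (.node (.leaf (nat_lit 0x0)) 
(.leaf (nat_lit 0x0))) (.node (.leaf (nat_lit 0x0)) (.leaf (nat_lit 0x407208000001008a3))))) (.node 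
(.node (.node (.node (.leaf (nat_lit 0x0)) (.leaf (nat_lit 0x80150000000))) (.leaf (nat_lit 0x0))) 
(.node (.leaf (nat_lit 0x100267)) (.leaf (nat_lit 0x0)))) (.node (.node (.leaf (nat_lit 0x0)) 
(.leaf (nat_lit 0x0))) (.node (.leaf (nat_lit 0x0)) (.leaf (nat_lit 0x40ca9880b86901ab3)))))) 
(.node (.node (.node (.node (.node (.leaf (nat_lit 0x0)) (.leaf (nat_lit 0x0))) 
(.leaf (nat_lit 0x0))) (.node (.leaf (nat_lit 0x0)) (.leaf (nat_lit 0x0)))) (.node (.node 
(.leaf (nat_lit 0x0)) (.leaf (nat_lit 0x0))) (.node (.leaf (nat_lit 0x0)) 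
(.leaf (nat_lit 0x4093ec806f3101168))))) (.node (.node (.node (.node (.leaf (nat_lit 0x0)) 
(.leaf (nat_lit 0x0))) (.leaf (nat_lit 0x0))) (.node (.leaf (nat_lit 0x0)) 
(.leaf (nat_lit 0x400f740000000000020007a00000000000000000)))) (.node (.node (.leaf (nat_lit 0x0)) 
(.leaf (nat_lit 0x0))) (.node (.leaf (nat_lit 0x0)) (.leaf (nat_lit 0x0)))))))
noncomputable def vt97 : Ix (Nat) := (.node (.node (.node (.node (.node (.leaf (nat_lit 0x0)) 
(.leaf (nat_lit 0x0))) (.node (.leaf (nat_lit 0x0)) 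
(.leaf (nat_lit 0x40569080afd9016cc20270c404c08809a19000f9)))) (.node (.node (.leaf (nat_lit 0x0)) 
(.leaf (nat_lit 0x0))) (.node (.leaf (nat_lit 0x0)) (.leaf (nat_lit 0x0))))) (.node (.node (.node 
(.leaf (nat_lit 0x0)) (.leaf (nat_lit 0x0))) (.node (.leaf (nat_lit 0x0)) (.leaf (nat_lit 0x0)))) 
(.node (.node (.leaf (nat_lit 0x0)) (.leaf (nat_lit 0x40da6081318902efc2051a840a5688089e100947))) 
(.leaf (nat_lit 0x0))))) (.node (.node (.node (.node (.leaf (nat_lit 0x0)) (.leaf (nat_lit 0x0))) 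
(.node (.leaf (nat_lit 0x0)) (.leaf (nat_lit 0x205288407a7480e43900068)))) (.node (.node 
(.leaf (nat_lit 0x0)) (.leaf (nat_lit 0x0))) (.node (.leaf (nat_lit 0x0)) (.leaf (nat_lit 0x0))))) 
(.node (.node (.node (.leaf (nat_lit 0x0)) (.leaf (nat_lit 0x0))) (.node (.leaf (nat_lit 0x0)) 
(.leaf (nat_lit 0x100123)))) (.node (.node (.leaf (nat_lit 0x0)) 
(.leaf (nat_lit 0x20391e4056c08089b900ab1))) (.leaf (nat_lit 0x0))))))
noncomputable def vt98 : Ix (Nat) := (.node (.node (.node (.node (.node (.leaf (nat_lit 0x0)) 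
(.leaf (nat_lit 0x0))) (.node (.leaf (nat_lit 0x0)) (.leaf (nat_lit 0x0)))) (.node (.node 
(.leaf (nat_lit 0x0)) (.leaf (nat_lit 0x0))) (.node (.leaf (nat_lit 0x0)) (.leaf (nat_lit 0x0))))) 
(.node (.node (.node (.leaf (nat_lit 0x0)) (.leaf (nat_lit 0x0))) (.node (.leaf (nat_lit 0x0)) 
(.leaf (nat_lit 0x0)))) (.node (.node (.leaf (nat_lit 0x0)) (.leaf (nat_lit 0x801d1900206))) 
(.leaf (nat_lit 0x10045c))))) (.node (.node (.node (.node (.leaf (nat_lit 0x0)) 
(.leaf (nat_lit 0x0))) (.node (.leaf (nat_lit 0x0)) (.leaf (nat_lit 0x0)))) (.node (.node 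
(.leaf (nat_lit 0x0)) (.leaf (nat_lit 0x0))) (.node (.leaf (nat_lit 0x8000f800000)) 
(.leaf (nat_lit 0x0))))) (.node (.node (.node (.leaf (nat_lit 0x0)) (.leaf (nat_lit 0x0))) (.node 
(.leaf (nat_lit 0x0)) (.leaf (nat_lit 0x0)))) (.node (.node (.leaf (nat_lit 0x0)) 
(.leaf (nat_lit 0x8026d1005fe))) (.leaf (nat_lit 0x0))))))
noncomputable def vt99 : Ix (Nat) := (.node (.node (.node (.node 
(.leaf (nat_lit 0x4003fc802998000002003d4401850800f49000a7200848400d5c8023d1005172010284000b0803d6900110)) 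
(.leaf (nat_lit 0x100ef8))) (.node (.leaf (nat_lit 0x0)) (.leaf (nat_lit 0x0)))) (.node (.node 
(.leaf (nat_lit 0x0)) (.leaf (nat_lit 0x1000f9))) (.node (.leaf (nat_lit 0x0)) 
(.leaf (nat_lit 0x0))))) (.node (.node (.node (.leaf (nat_lit 0x0)) 
(.leaf (nat_lit 0x4001748019d1003ee))) (.node (.leaf (nat_lit 0x0)) (.leaf (nat_lit 0x100911)))) 
(.node (.node (.leaf (nat_lit 0x0)) (.leaf (nat_lit 0x100606200c444016ac801c8800000))) (.node 
(.leaf (nat_lit 0x0)) (.leaf (nat_lit 0x0))))))
noncomputable def vt100 : Ix (Nat) := (.node (.node (.node (.node (.node (.leaf (nat_lit 0x0)) 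
(.leaf (nat_lit 0x0))) (.leaf (nat_lit 0x0))) (.node (.leaf (nat_lit 0x0)) (.leaf (nat_lit 0x0)))) 
(.node (.node (.node (.leaf (nat_lit 0x0)) (.leaf (nat_lit 0x0))) (.leaf (nat_lit 0x0))) (.node 
(.leaf (nat_lit 0x100246)) (.leaf (nat_lit 0x0))))) (.node (.node (.node (.node 
(.leaf (nat_lit 0x0)) (.leaf (nat_lit 0x0))) (.leaf (nat_lit 0x0))) (.node (.leaf (nat_lit 0x0)) 
(.leaf (nat_lit 0x0)))) (.node (.node (.leaf (nat_lit 0x0)) (.leaf (nat_lit 0x0))) (.node 
(.leaf (nat_lit 0x0)) (.leaf (nat_lit 0x0))))))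

noncomputable def vtx : Ix (Ix (Nat)) := (.node (.node (.node (.node (.node (.node (.node 
(.leaf vt0) (.leaf vt64)) (.node (.leaf vt32) (.leaf vt96))) (.node (.node (.leaf vt16) 
(.leaf vt80)) (.leaf vt48))) (.node (.node (.node (.leaf vt8) (.leaf vt72)) (.leaf vt40)) (.node 
(.node (.leaf vt24) (.leaf vt88)) (.leaf vt56)))) (.node (.node (.node (.node (.leaf vt4) 
(.leaf vt68)) (.node (.leaf vt36) (.leaf vt100))) (.node (.node (.leaf vt20) (.leaf vt84)) 
(.leaf vt52))) (.node (.node (.node (.leaf vt12) (.leaf vt76)) (.leaf vt44)) (.node (.node 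
(.leaf vt28) (.leaf vt92)) (.leaf vt60))))) (.node (.node (.node (.node (.node (.leaf vt2) 
(.leaf vt66)) (.node (.leaf vt34) (.leaf vt98))) (.node (.node (.leaf vt18) (.leaf vt82)) 
(.leaf vt50))) (.node (.node (.node (.leaf vt10) (.leaf vt74)) (.leaf vt42)) (.node (.node 
(.leaf vt26) (.leaf vt90)) (.leaf vt58)))) (.node (.node (.node (.node (.leaf vt6) (.leaf vt70)) 
(.leaf vt38)) (.node (.node (.leaf vt22) (.leaf vt86)) (.leaf vt54))) (.node (.node (.node 
(.leaf vt14) (.leaf vt78)) (.leaf vt46)) (.node (.node (.leaf vt30) (.leaf vt94)) (.leaf vt62)))))) 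
(.node (.node (.node (.node (.node (.node (.leaf vt1) (.leaf vt65)) (.node (.leaf vt33) 
(.leaf vt97))) (.node (.node (.leaf vt17) (.leaf vt81)) (.leaf vt49))) (.node (.node (.node 
(.leaf vt9) (.leaf vt73)) (.leaf vt41)) (.node (.node (.leaf vt25) (.leaf vt89)) (.leaf vt57)))) 
(.node (.node (.node (.node (.leaf vt5) (.leaf vt69)) (.leaf vt37)) (.node (.node (.leaf vt21) 
(.leaf vt85)) (.leaf vt53))) (.node (.node (.node (.leaf vt13) (.leaf vt77)) (.leaf vt45)) (.node 
(.node (.leaf vt29) (.leaf vt93)) (.leaf vt61))))) (.node (.node (.node (.node (.node (.leaf vt3) 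
(.leaf vt67)) (.node (.leaf vt35) (.leaf vt99))) (.node (.node (.leaf vt19) (.leaf vt83)) 
(.leaf vt51))) (.node (.node (.node (.leaf vt11) (.leaf vt75)) (.leaf vt43)) (.node (.node 
(.leaf vt27) (.leaf vt91)) (.leaf vt59)))) (.node (.node (.node (.node (.leaf vt7) (.leaf vt71)) 
(.leaf vt39)) (.node (.node (.leaf vt23) (.leaf vt87)) (.leaf vt55))) (.node (.node (.node 
(.leaf vt15) (.leaf vt79)) (.leaf vt47)) (.node (.node (.leaf vt31) (.leaf vt95)) (.leaf vt63)))))))

noncomputable def RvT (k o : Nat) : Nat := (Ix.get vtx k).get o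


end

end Pool.Agent.Lib.MP_5854e1_co.Cz
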