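import Pool.Agent.Lib.MP_5854e1_co.Cz.Th00
import Pool.Agent.Lib.MP_5854e1_co.Cz.Th01
import Pool.Agent.Lib.MP_5854e1_co.Cz.Th02
import Pool.Agent.Lib.MP_5854e1_co.Cz.Th03
import Pool.Agent.Lib.MP_5854e1_co.Cz.Th04
import Pool.Agent.Lib.MP_5854e1_co.Cz.Th05
import Pool.Agent.Lib.MP_5854e1_co.Cz.Th06
import Pool.Agent.Lib.MP_5854e1_co.Cz.Th07
import Pool.Agent.Lib.MP_5854e1_co.Cz.Th08
import Pool.Agent.Lib.MP_5854e1_co.Cz.Th09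
import Pool.Agent.Lib.MP_5854e1_co.Cz.Th10
import Pool.Agent.Lib.MP_5854e1_co.Cz.Th11
import Pool.Agent.Lib.MP_5854e1_co.Cz.Th12
import Pool.Agent.Lib.MP_5854e1_co.Cz.Th13
import Pool.Agent.Lib.MP_5854e1_co.Cz.Th14
import Pool.Agent.Lib.MP_5854e1_co.Cz.Th15
import Pool.Agent.Lib.MP_5854e1_co.Cz.Th16
import Pool.Agent.Lib.MP_5854e1_co.Cz.Th17
import Pool.Agent.Lib.MP_5854e1_co.Cz.Th18

/-!
# Hints for the rings
-/

set_option autoImplicit false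
set_option maxRecDepth 100000
set_option deprecated.oldSectionVars true

namespace Pool.Agent.Lib.MP_5854e1_co.Cz

open Pool.Agent.Lib.MP_5854e1_co

noncomputable section

noncomputable def th : DT := (.nd (nat_lit 0) (.nd (nat_lit 1) (.nd (nat_lit 2) (.nd (nat_lit 3) 
(.nd (nat_lit 4) (.nd (nat_lit 5) (.nd (nat_lit 6) (.nd (nat_lit 7) th0000 th0001) 
(.nd (nat_lit 7) th0002 th0003)) (.nd (nat_lit 6) (.nd (nat_lit 7) th0004 th0005) 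
(.nd (nat_lit 7) th0006 th0007))) (.nd (nat_lit 5) (.nd (nat_lit 6) (.nd (nat_lit 7) th0008 th0009) 
(.nd (nat_lit 7) th0010 th0011)) (.nd (nat_lit 6) (.nd (nat_lit 7) th0012 th0013) 
(.nd (nat_lit 7) th0014 th0015)))) (.nd (nat_lit 4) (.nd (nat_lit 5) (.nd (nat_lit 6) 
(.nd (nat_lit 7) th0016 th0017) (.nd (nat_lit 7) th0018 th0019)) (.nd (nat_lit 6) 
(.nd (nat_lit 7) th0020 th0021) (.nd (nat_lit 7) th0022 th0023))) (.nd (nat_lit 5) (.nd (nat_lit 6) 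
(.nd (nat_lit 7) th0024 th0025) (.nd (nat_lit 7) th0026 th0027)) (.nd (nat_lit 6) 
(.nd (nat_lit 7) th0028 th0029) (.nd (nat_lit 7) th0030 th0031))))) (.nd (nat_lit 3) 
(.nd (nat_lit 4) (.nd (nat_lit 5) (.nd (nat_lit 6) (.nd (nat_lit 7) th0032 th0033) 
(.nd (nat_lit 7) th0034 th0035)) (.nd (nat_lit 6) (.nd (nat_lit 7) th0036 th0037) 
(.nd (nat_lit 7) th0038 th0039))) (.nd (nat_lit 5) (.nd (nat_lit 6) (.nd (nat_lit 7) th0040 th0041) 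
(.nd (nat_lit 7) th0042 th0043)) (.nd (nat_lit 6) (.nd (nat_lit 7) th0044 th0045) 
(.nd (nat_lit 7) th0046 th0047)))) (.nd (nat_lit 4) (.nd (nat_lit 5) (.nd (nat_lit 6) 
(.nd (nat_lit 7) th0048 th0049) (.nd (nat_lit 7) th0050 th0051)) (.nd (nat_lit 6) 
(.nd (nat_lit 7) th0052 th0053) (.nd (nat_lit 7) th0054 th0055))) (.nd (nat_lit 5) (.nd (nat_lit 6) 
(.nd (nat_lit 7) th0056 th0057) (.nd (nat_lit 7) th0058 th0059)) (.nd (nat_lit 6) 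
(.nd (nat_lit 7) th0060 th0061) (.nd (nat_lit 7) th0062 th0063)))))) (.nd (nat_lit 2) 
(.nd (nat_lit 3) (.nd (nat_lit 4) (.nd (nat_lit 5) (.nd (nat_lit 6) (.nd (nat_lit 7) th0064 th0065) 
(.nd (nat_lit 7) th0066 th0067)) (.nd (nat_lit 6) (.nd (nat_lit 7) th0068 th0069) 
(.nd (nat_lit 7) th0070 th0071))) (.nd (nat_lit 5) (.nd (nat_lit 6) (.nd (nat_lit 7) th0072 th0073) 
(.nd (nat_lit 7) th0074 th0075)) (.nd (nat_lit 6) (.nd (nat_lit 7) th0076 th0077) 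
(.nd (nat_lit 7) th0078 th0079)))) (.nd (nat_lit 4) (.nd (nat_lit 5) (.nd (nat_lit 6) 
(.nd (nat_lit 7) th0080 th0081) (.nd (nat_lit 7) th0082 th0083)) (.nd (nat_lit 6) 
(.nd (nat_lit 7) th0084 th0085) (.nd (nat_lit 7) th0086 th0087))) (.nd (nat_lit 5) (.nd (nat_lit 6) 
(.nd (nat_lit 7) th0088 th0089) (.nd (nat_lit 7) th0090 th0091)) (.nd (nat_lit 6) 
(.nd (nat_lit 7) th0092 th0093) (.nd (nat_lit 7) th0094 th0095))))) (.nd (nat_lit 3) 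
(.nd (nat_lit 4) (.nd (nat_lit 5) (.nd (nat_lit 6) (.nd (nat_lit 7) th0096 th0097) 
(.nd (nat_lit 7) th0098 th0099)) (.nd (nat_lit 6) (.nd (nat_lit 7) th0100 th0101) 
(.nd (nat_lit 7) th0102 th0103))) (.nd (nat_lit 5) (.nd (nat_lit 6) (.nd (nat_lit 7) th0104 th0105) 
(.nd (nat_lit 7) th0106 th0107)) (.nd (nat_lit 6) (.nd (nat_lit 7) th0108 th0109) 
(.nd (nat_lit 7) th0110 th0111)))) (.nd (nat_lit 4) (.nd (nat_lit 5) (.nd (nat_lit 6) 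
(.nd (nat_lit 7) th0112 th0113) (.nd (nat_lit 7) th0114 th0115)) (.nd (nat_lit 6) 
(.nd (nat_lit 7) th0116 th0117) (.nd (nat_lit 7) th0118 th0119))) (.nd (nat_lit 5) (.nd (nat_lit 6) 
(.nd (nat_lit 7) th0120 th0121) (.nd (nat_lit 7) th0122 th0123)) (.nd (nat_lit 6) 
(.nd (nat_lit 7) th0124 th0125) (.nd (nat_lit 7) th0126 th0127))))))) (.nd (nat_lit 1) 
(.nd (nat_lit 2) (.nd (nat_lit 3) (.nd (nat_lit 4) (.nd (nat_lit 5) (.nd (nat_lit 6) 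
(.nd (nat_lit 7) th0128 th0129) (.nd (nat_lit 7) th0130 th0131)) (.nd (nat_lit 6) 
(.nd (nat_lit 7) th0132 th0133) (.nd (nat_lit 7) th0134 th0135))) (.nd (nat_lit 5) (.nd (nat_lit 6) 
(.nd (nat_lit 7) th0136 th0137) (.nd (nat_lit 7) th0138 th0139)) (.nd (nat_lit 6) 
(.nd (nat_lit 7) th0140 th0141) (.nd (nat_lit 7) th0142 th0143)))) (.nd (nat_lit 4) 
(.nd (nat_lit 5) (.nd (nat_lit 6) (.nd (nat_lit 7) th0144 th0145) (.nd (nat_lit 7) th0146 th0147)) 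
(.nd (nat_lit 6) (.nd (nat_lit 7) th0148 th0149) (.nd (nat_lit 7) th0150 th0151))) (.nd (nat_lit 5) 
(.nd (nat_lit 6) (.nd (nat_lit 7) th0152 th0153) (.nd (nat_lit 7) th0154 th0155)) (.nd (nat_lit 6) 
(.nd (nat_lit 7) th0156 th0157) (.nd (nat_lit 7) th0158 th0159))))) (.nd (nat_lit 3) 
(.nd (nat_lit 4) (.nd (nat_lit 5) (.nd (nat_lit 6) (.nd (nat_lit 7) th0160 th0161) 
(.nd (nat_lit 7) th0162 th0163)) (.nd (nat_lit 6) (.nd (nat_lit 7) th0164 th0165) 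
(.nd (nat_lit 7) th0166 th0167))) (.nd (nat_lit 5) (.nd (nat_lit 6) (.nd (nat_lit 7) th0168 th0169) 
(.nd (nat_lit 7) th0170 th0171)) (.nd (nat_lit 6) (.nd (nat_lit 7) th0172 th0173) 
(.nd (nat_lit 7) th0174 th0175)))) (.nd (nat_lit 4) (.nd (nat_lit 5) (.nd (nat_lit 6) 
(.nd (nat_lit 7) th0176 th0177) (.nd (nat_lit 7) th0178 th0179)) (.nd (nat_lit 6) 
(.nd (nat_lit 7) th0180 th0181) (.nd (nat_lit 7) th0182 th0183))) (.nd (nat_lit 5) (.nd (nat_lit 6) 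
(.nd (nat_lit 7) th0184 th0185) (.nd (nat_lit 7) th0186 th0187)) (.nd (nat_lit 6) 
(.nd (nat_lit 7) th0188 th0189) (.nd (nat_lit 7) th0190 th0191)))))) (.nd (nat_lit 2) 
(.nd (nat_lit 3) (.nd (nat_lit 4) (.nd (nat_lit 5) (.nd (nat_lit 6) (.nd (nat_lit 7) th0192 th0193) 
(.nd (nat_lit 7) th0194 th0195)) (.nd (nat_lit 6) (.nd (nat_lit 7) th0196 th0197) 
(.nd (nat_lit 7) th0198 th0199))) (.nd (nat_lit 5) (.nd (nat_lit 6) (.nd (nat_lit 7) th0200 th0201) 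
(.nd (nat_lit 7) th0202 th0203)) (.nd (nat_lit 6) (.nd (nat_lit 7) th0204 th0205) 
(.nd (nat_lit 7) th0206 th0207)))) (.nd (nat_lit 4) (.nd (nat_lit 5) (.nd (nat_lit 6) 
(.nd (nat_lit 7) th0208 th0209) (.nd (nat_lit 7) th0210 th0211)) (.nd (nat_lit 6) 
(.nd (nat_lit 7) th0212 th0213) (.nd (nat_lit 7) th0214 th0215))) (.nd (nat_lit 5) (.nd (nat_lit 6) 
(.nd (nat_lit 7) th0216 th0217) (.nd (nat_lit 7) th0218 th0219)) (.nd (nat_lit 6) 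
(.nd (nat_lit 7) th0220 th0221) (.nd (nat_lit 7) th0222 th0223))))) (.nd (nat_lit 3) 
(.nd (nat_lit 4) (.nd (nat_lit 5) (.nd (nat_lit 6) (.nd (nat_lit 7) th0224 th0225) 
(.nd (nat_lit 7) th0226 th0227)) (.nd (nat_lit 6) (.nd (nat_lit 7) th0228 th0229) 
(.nd (nat_lit 7) th0230 th0231))) (.nd (nat_lit 5) (.nd (nat_lit 6) (.nd (nat_lit 7) th0232 th0233) 
(.nd (nat_lit 7) th0234 th0235)) (.nd (nat_lit 6) (.nd (nat_lit 7) th0236 th0237) 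
(.nd (nat_lit 7) th0238 th0239)))) (.nd (nat_lit 4) (.nd (nat_lit 5) (.nd (nat_lit 6) 
(.nd (nat_lit 7) th0240 th0241) (.nd (nat_lit 7) th0242 th0243)) (.nd (nat_lit 6) 
(.nd (nat_lit 7) th0244 th0245) (.nd (nat_lit 7) th0246 th0247))) (.nd (nat_lit 5) (.nd (nat_lit 6) 
(.nd (nat_lit 7) th0248 th0249) (.nd (nat_lit 7) th0250 th0251)) (.nd (nat_lit 6) 
(.nd (nat_lit 7) th0252 th0253) (.nd (nat_lit 7) th0254 th0255))))))))

end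

end Pool.Agent.Lib.MP_5854e1_co.Cz
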