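import Pool.Agent.Lib.MP_5854e1_co.Cz.Tj00
import Pool.Agent.Lib.MP_5854e1_co.Cz.Tj17
import Pool.Agent.Lib.MP_5854e1_co.Cz.Tj34
import Pool.Agent.Lib.MP_5854e1_co.Cz.Tj49
import Pool.Agent.Lib.MP_5854e1_co.Cz.Tj64
import Pool.Agent.Lib.MP_5854e1_co.Cz.Tj79
import Pool.Agent.Lib.MP_5854e1_co.Cz.Tj95
import Pool.Agent.Lib.MP_5854e1_co.Cz.Tj111
import Pool.Agent.Lib.MP_5854e1_co.Cz.Tj126
import Pool.Agent.Lib.MP_5854e1_co.Cz.Tj142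
import Pool.Agent.Lib.MP_5854e1_co.Cz.Tj158
import Pool.Agent.Lib.MP_5854e1_co.Cz.Tj174
import Pool.Agent.Lib.MP_5854e1_co.Cz.Tj190
import Pool.Agent.Lib.MP_5854e1_co.Cz.Tj206
import Pool.Agent.Lib.MP_5854e1_co.Cz.Tj221
import Pool.Agent.Lib.MP_5854e1_co.Cz.Tj237
import Pool.Agent.Lib.MP_5854e1_co.Cz.Tj256
import Pool.Agent.Lib.MP_5854e1_co.Cz.Tj270
import Pool.Agent.Lib.MP_5854e1_co.Cz.Tj286
import Pool.Agent.Lib.MP_5854e1_co.Cz.Tj302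
import Pool.Agent.Lib.MP_5854e1_co.Cz.Tj317
import Pool.Agent.Lib.MP_5854e1_co.Cz.Tj334
import Pool.Agent.Lib.MP_5854e1_co.Cz.Tj350
import Pool.Agent.Lib.MP_5854e1_co.Cz.Tj364
import Pool.Agent.Lib.MP_5854e1_co.Cz.Tj378
import Pool.Agent.Lib.MP_5854e1_co.Cz.Tj393
import Pool.Agent.Lib.MP_5854e1_co.Cz.Tj408
import Pool.Agent.Lib.MP_5854e1_co.Cz.Tj424
import Pool.Agent.Lib.MP_5854e1_co.Cz.Tj439
import Pool.Agent.Lib.MP_5854e1_co.Cz.Tj455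
import Pool.Agent.Lib.MP_5854e1_co.Cz.Tj471
import Pool.Agent.Lib.MP_5854e1_co.Cz.Tj487
import Pool.Agent.Lib.MP_5854e1_co.Cz.Tj504
import Pool.Agent.Lib.MP_5854e1_co.Cz.Tj520
import Pool.Agent.Lib.MP_5854e1_co.Cz.Tj535
import Pool.Agent.Lib.MP_5854e1_co.Cz.Tj552
import Pool.Agent.Lib.MP_5854e1_co.Cz.Tj567
import Pool.Agent.Lib.MP_5854e1_co.Cz.Tj583
import Pool.Agent.Lib.MP_5854e1_co.Cz.Tj598

/-!
# Listed shares of the regions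
-/

set_option autoImplicit false
set_option maxRecDepth 100000

namespace Pool.Agent.Lib.MP_5854e1_co.Cz

open Pool.Agent.Lib.MP_5854e1_co

noncomputable section

noncomputable def tj : DT := (.nd (nat_lit 1) (.nd (nat_lit 14) (.nd (nat_lit 4) (.nd (nat_lit 0) 
(.nd (nat_lit 3) (.nd (nat_lit 15) (.nd (nat_lit 17) (.nd (nat_lit 18) (.nd (nat_lit 13) tj00 tj01) 
(.nd (nat_lit 6) (.nd (nat_lit 28) tj02 tj03) tj04)) (.nd (nat_lit 13) (.nd (nat_lit 6) 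
(.nd (nat_lit 2) tj05 tj06) tj07) (.nd (nat_lit 2) tj08 (.nd (nat_lit 6) tj09 tj10)))) 
(.nd (nat_lit 13) (.nd (nat_lit 6) (.nd (nat_lit 2) tj11 (.nd (nat_lit 5) tj12 tj13)) 
(.nd (nat_lit 2) tj14 (.nd (nat_lit 17) tj15 tj16))) (.nd (nat_lit 17) (.nd (nat_lit 18) tj17 
(.nd (nat_lit 28) tj18 tj19)) (.nd (nat_lit 2) tj20 (.nd (nat_lit 16) 
(.nd (nat_lit 28) tj21 tj22) tj23))))) (.nd (nat_lit 2) (.nd (nat_lit 5) (.nd (nat_lit 13) 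
(.nd (nat_lit 15) tj24 tj25) (.nd (nat_lit 18) tj26 tj27)) (.nd (nat_lit 13) 
(.nd (nat_lit 15) tj28 tj29) (.nd (nat_lit 15) tj30 (.nd (nat_lit 17) tj31 tj32)))) 
(.nd (nat_lit 17) (.nd (nat_lit 16) (.nd (nat_lit 15) tj33 tj34) (.nd (nat_lit 15) tj35 tj36)) 
(.nd (nat_lit 5) (.nd (nat_lit 13) tj37 tj38) (.nd (nat_lit 13) tj39 tj40))))) (.nd (nat_lit 2) 
(.nd (nat_lit 15) (.nd (nat_lit 13) (.nd (nat_lit 17) (.nd (nat_lit 5) tj41 tj42) 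
(.nd (nat_lit 3) tj43 tj44)) (.nd (nat_lit 18) (.nd (nat_lit 3) tj45 tj46) (.nd (nat_lit 5) 
(.nd (nat_lit 6) tj47 tj48) tj49))) (.nd (nat_lit 3) (.nd (nat_lit 28) (.nd (nat_lit 5) tj50 tj51) 
(.nd (nat_lit 16) (.nd (nat_lit 17) tj52 tj53) tj54)) (.nd (nat_lit 16) (.nd (nat_lit 5) tj55 
(.nd (nat_lit 28) tj56 tj57)) (.nd (nat_lit 13) tj58 tj59)))) (.nd (nat_lit 13) (.nd (nat_lit 17) 
(.nd (nat_lit 15) (.nd (nat_lit 16) tj60 (.nd (nat_lit 18) tj61 tj62)) (.nd (nat_lit 3) tj63 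
(.nd (nat_lit 5) tj64 tj65))) (.nd (nat_lit 3) (.nd (nat_lit 18) (.nd (nat_lit 5) tj66 tj67) tj68) 
(.nd (nat_lit 15) tj69 tj70))) (.nd (nat_lit 17) (.nd (nat_lit 3) (.nd (nat_lit 15) tj71 
(.nd (nat_lit 6) tj72 tj73)) (.nd (nat_lit 18) tj74 (.nd (nat_lit 15) tj75 tj76))) (.nd (nat_lit 3) 
(.nd (nat_lit 5) tj77 tj78) (.nd (nat_lit 15) tj79 tj80)))))) (.nd (nat_lit 15) (.nd (nat_lit 17) 
(.nd (nat_lit 16) (.nd (nat_lit 2) (.nd (nat_lit 0) (.nd (nat_lit 5) tj81 tj82) 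
(.nd (nat_lit 18) tj83 tj84)) (.nd (nat_lit 3) (.nd (nat_lit 28) (.nd (nat_lit 26) tj85 tj86) 
(.nd (nat_lit 26) tj87 tj88)) (.nd (nat_lit 5) tj89 tj90))) (.nd (nat_lit 2) (.nd (nat_lit 5) 
(.nd (nat_lit 3) (.nd (nat_lit 0) tj91 tj92) tj93) (.nd (nat_lit 0) tj94 tj95)) (.nd (nat_lit 13) 
(.nd (nat_lit 3) tj96 tj97) (.nd (nat_lit 0) tj98 (.nd (nat_lit 27) tj99 tj100))))) 
(.nd (nat_lit 13) (.nd (nat_lit 0) (.nd (nat_lit 3) (.nd (nat_lit 16) 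
(.nd (nat_lit 2) tj101 tj102) tj103) (.nd (nat_lit 2) tj104 tj105)) (.nd (nat_lit 16) 
(.nd (nat_lit 3) (.nd (nat_lit 5) tj106 tj107) tj108) (.nd (nat_lit 28) tj109 tj110))) 
(.nd (nat_lit 2) (.nd (nat_lit 0) (.nd (nat_lit 16) tj111 tj112) (.nd (nat_lit 18) tj113 tj114)) 
(.nd (nat_lit 5) (.nd (nat_lit 0) tj115 tj116) (.nd (nat_lit 3) tj117 tj118))))) (.nd (nat_lit 16) 
(.nd (nat_lit 2) (.nd (nat_lit 0) (.nd (nat_lit 13) (.nd (nat_lit 17) 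
(.nd (nat_lit 5) tj119 tj120) tj121) (.nd (nat_lit 17) tj122 (.nd (nat_lit 26) tj123 tj124))) 
(.nd (nat_lit 13) (.nd (nat_lit 3) tj125 tj126) (.nd (nat_lit 18) tj127 tj128))) (.nd (nat_lit 3) 
(.nd (nat_lit 13) (.nd (nat_lit 0) tj129 (.nd (nat_lit 18) tj130 tj131)) (.nd (nat_lit 18) tj132 
(.nd (nat_lit 29) tj133 tj134))) (.nd (nat_lit 13) (.nd (nat_lit 0) 
(.nd (nat_lit 18) tj135 tj136) tj137) (.nd (nat_lit 17) tj138 tj139)))) (.nd (nat_lit 13) 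
(.nd (nat_lit 17) (.nd (nat_lit 0) (.nd (nat_lit 2) tj140 tj141) (.nd (nat_lit 5) tj142 tj143)) 
(.nd (nat_lit 3) (.nd (nat_lit 0) (.nd (nat_lit 5) tj144 tj145) tj146) 
(.nd (nat_lit 2) tj147 tj148))) (.nd (nat_lit 2) (.nd (nat_lit 0) (.nd (nat_lit 5) 
(.nd (nat_lit 3) tj149 tj150) tj151) (.nd (nat_lit 5) tj152 tj153)) (.nd (nat_lit 17) 
(.nd (nat_lit 0) tj154 tj155) (.nd (nat_lit 3) tj156 tj157))))))) (.nd (nat_lit 2) (.nd (nat_lit 0) 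
(.nd (nat_lit 13) (.nd (nat_lit 15) (.nd (nat_lit 3) (.nd (nat_lit 18) 
(.nd (nat_lit 17) tj158 tj159) (.nd (nat_lit 28) tj160 tj161)) (.nd (nat_lit 5) 
(.nd (nat_lit 18) tj162 tj163) (.nd (nat_lit 16) tj164 tj165))) (.nd (nat_lit 16) (.nd (nat_lit 17) 
(.nd (nat_lit 5) tj166 tj167) (.nd (nat_lit 6) tj168 (.nd (nat_lit 8) tj169 tj170))) 
(.nd (nat_lit 4) (.nd (nat_lit 18) tj171 (.nd (nat_lit 3) tj172 tj173)) 
(.nd (nat_lit 17) tj174 tj175)))) (.nd (nat_lit 17) (.nd (nat_lit 4) (.nd (nat_lit 3) 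
(.nd (nat_lit 18) tj176 tj177) (.nd (nat_lit 18) tj178 tj179)) (.nd (nat_lit 5) 
(.nd (nat_lit 6) tj180 tj181) (.nd (nat_lit 16) tj182 tj183))) (.nd (nat_lit 15) (.nd (nat_lit 4) 
(.nd (nat_lit 5) tj184 tj185) (.nd (nat_lit 16) (.nd (nat_lit 26) tj186 tj187) tj188)) 
(.nd (nat_lit 28) (.nd (nat_lit 5) tj189 tj190) (.nd (nat_lit 4) 
(.nd (nat_lit 6) tj191 tj192) tj193))))) (.nd (nat_lit 17) (.nd (nat_lit 4) (.nd (nat_lit 13) 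
(.nd (nat_lit 5) (.nd (nat_lit 18) tj194 tj195) (.nd (nat_lit 15) (.nd (nat_lit 3) tj196 tj197) 
(.nd (nat_lit 30) tj198 tj199))) (.nd (nat_lit 5) (.nd (nat_lit 18) tj200 tj201) 
(.nd (nat_lit 16) tj202 tj203))) (.nd (nat_lit 13) (.nd (nat_lit 16) (.nd (nat_lit 15) tj204 tj205) 
(.nd (nat_lit 15) tj206 tj207)) (.nd (nat_lit 18) (.nd (nat_lit 16) tj208 tj209) 
(.nd (nat_lit 15) tj210 tj211)))) (.nd (nat_lit 4) (.nd (nat_lit 16) (.nd (nat_lit 5) 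
(.nd (nat_lit 15) (.nd (nat_lit 3) tj212 tj213) (.nd (nat_lit 26) tj214 tj215)) 
(.nd (nat_lit 13) tj216 tj217)) (.nd (nat_lit 15) (.nd (nat_lit 13) tj218 tj219) 
(.nd (nat_lit 5) tj220 tj221))) (.nd (nat_lit 15) (.nd (nat_lit 16) (.nd (nat_lit 26) tj222 
(.nd (nat_lit 28) tj223 tj224)) (.nd (nat_lit 28) (.nd (nat_lit 13) tj225 tj226) tj227)) 
(.nd (nat_lit 13) (.nd (nat_lit 5) (.nd (nat_lit 16) tj228 tj229) tj230) 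
(.nd (nat_lit 28) tj231 tj232)))))) (.nd (nat_lit 13) (.nd (nat_lit 3) (.nd (nat_lit 16) 
(.nd (nat_lit 0) (.nd (nat_lit 17) (.nd (nat_lit 4) (.nd (nat_lit 6) tj233 tj234) tj235) 
(.nd (nat_lit 6) (.nd (nat_lit 4) tj236 tj237) tj238)) (.nd (nat_lit 17) (.nd (nat_lit 28) 
(.nd (nat_lit 4) tj239 tj240) tj241) (.nd (nat_lit 15) (.nd (nat_lit 30) tj242 tj243) 
(.nd (nat_lit 6) tj244 tj245)))) (.nd (nat_lit 15) (.nd (nat_lit 4) (.nd (nat_lit 5) 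
(.nd (nat_lit 17) tj246 tj247) tj248) (.nd (nat_lit 0) tj249 (.nd (nat_lit 18) tj250 tj251))) 
(.nd (nat_lit 18) (.nd (nat_lit 17) (.nd (nat_lit 0) tj252 tj253) (.nd (nat_lit 4) tj254 tj255)) 
(.nd (nat_lit 4) tj256 tj257)))) (.nd (nat_lit 16) (.nd (nat_lit 4) (.nd (nat_lit 0) 
(.nd (nat_lit 15) tj258 tj259) (.nd (nat_lit 17) tj260 tj261)) (.nd (nat_lit 17) 
(.nd (nat_lit 18) tj262 tj263) (.nd (nat_lit 5) tj264 tj265))) (.nd (nat_lit 0) (.nd (nat_lit 15) 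
(.nd (nat_lit 28) tj266 tj267) (.nd (nat_lit 4) tj268 tj269)) (.nd (nat_lit 15) 
(.nd (nat_lit 28) tj270 tj271) (.nd (nat_lit 18) tj272 tj273))))) (.nd (nat_lit 17) 
(.nd (nat_lit 18) (.nd (nat_lit 3) (.nd (nat_lit 16) (.nd (nat_lit 28) tj274 
(.nd (nat_lit 4) tj275 tj276)) (.nd (nat_lit 15) tj277 (.nd (nat_lit 4) tj278 tj279))) 
(.nd (nat_lit 0) (.nd (nat_lit 16) tj280 tj281) (.nd (nat_lit 15) tj282 tj283))) (.nd (nat_lit 3) 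
(.nd (nat_lit 0) (.nd (nat_lit 4) tj284 tj285) (.nd (nat_lit 4) tj286 tj287)) (.nd (nat_lit 4) 
(.nd (nat_lit 0) (.nd (nat_lit 26) tj288 tj289) tj290) (.nd (nat_lit 15) tj291 tj292)))) 
(.nd (nat_lit 3) (.nd (nat_lit 15) (.nd (nat_lit 0) (.nd (nat_lit 6) 
(.nd (nat_lit 5) tj293 tj294) tj295) (.nd (nat_lit 28) (.nd (nat_lit 4) tj296 tj297) 
(.nd (nat_lit 31) tj298 tj299))) (.nd (nat_lit 16) (.nd (nat_lit 26) 
(.nd (nat_lit 0) tj300 tj301) tj302) (.nd (nat_lit 0) tj303 tj304))) (.nd (nat_lit 0) 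
(.nd (nat_lit 5) (.nd (nat_lit 4) tj305 tj306) (.nd (nat_lit 16) tj307 tj308)) (.nd (nat_lit 16) 
(.nd (nat_lit 15) tj309 tj310) (.nd (nat_lit 15) tj311 tj312)))))))) (.nd (nat_lit 0) 
(.nd (nat_lit 14) (.nd (nat_lit 3) (.nd (nat_lit 15) (.nd (nat_lit 13) (.nd (nat_lit 17) 
(.nd (nat_lit 4) (.nd (nat_lit 2) tj313 tj314) (.nd (nat_lit 18) tj315 tj316)) (.nd (nat_lit 4) 
(.nd (nat_lit 5) tj317 tj318) (.nd (nat_lit 2) tj319 tj320))) (.nd (nat_lit 18) (.nd (nat_lit 5) 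
(.nd (nat_lit 4) (.nd (nat_lit 6) tj321 tj322) (.nd (nat_lit 2) tj323 tj324)) 
(.nd (nat_lit 17) tj325 tj326)) (.nd (nat_lit 2) (.nd (nat_lit 17) 
(.nd (nat_lit 5) tj327 tj328) tj329) (.nd (nat_lit 17) tj330 tj331)))) (.nd (nat_lit 4) 
(.nd (nat_lit 17) (.nd (nat_lit 13) (.nd (nat_lit 5) tj332 tj333) (.nd (nat_lit 18) tj334 tj335)) 
(.nd (nat_lit 6) (.nd (nat_lit 5) tj336 (.nd (nat_lit 2) tj337 tj338)) 
(.nd (nat_lit 13) tj339 tj340))) (.nd (nat_lit 16) (.nd (nat_lit 13) (.nd (nat_lit 2) 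
(.nd (nat_lit 17) (.nd (nat_lit 26) tj341 tj342) tj343) tj344) (.nd (nat_lit 18) tj345 tj346)) 
(.nd (nat_lit 2) (.nd (nat_lit 17) tj347 tj348) (.nd (nat_lit 13) tj349 tj350))))) (.nd (nat_lit 4) 
(.nd (nat_lit 2) (.nd (nat_lit 17) (.nd (nat_lit 16) (.nd (nat_lit 5) tj351 tj352) 
(.nd (nat_lit 13) tj353 (.nd (nat_lit 28) tj354 tj355))) (.nd (nat_lit 5) 
(.nd (nat_lit 13) tj356 tj357) (.nd (nat_lit 13) tj358 tj359))) (.nd (nat_lit 15) (.nd (nat_lit 17) 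
(.nd (nat_lit 5) tj360 tj361) (.nd (nat_lit 13) tj362 tj363)) (.nd (nat_lit 13) 
(.nd (nat_lit 5) tj364 (.nd (nat_lit 30) tj365 tj366)) (.nd (nat_lit 16) tj367 tj368)))) 
(.nd (nat_lit 17) (.nd (nat_lit 16) (.nd (nat_lit 15) (.nd (nat_lit 18) tj369 tj370) 
(.nd (nat_lit 2) tj371 (.nd (nat_lit 5) tj372 tj373))) (.nd (nat_lit 2) 
(.nd (nat_lit 5) tj374 tj375) (.nd (nat_lit 15) tj376 tj377))) (.nd (nat_lit 2) (.nd (nat_lit 13) 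
(.nd (nat_lit 5) tj378 tj379) (.nd (nat_lit 16) tj380 tj381)) (.nd (nat_lit 13) 
(.nd (nat_lit 5) tj382 (.nd (nat_lit 15) tj383 tj384)) (.nd (nat_lit 5) tj385 tj386)))))) 
(.nd (nat_lit 13) (.nd (nat_lit 16) (.nd (nat_lit 4) (.nd (nat_lit 17) (.nd (nat_lit 18) 
(.nd (nat_lit 5) tj387 tj388) (.nd (nat_lit 5) tj389 (.nd (nat_lit 15) tj390 tj391))) 
(.nd (nat_lit 15) (.nd (nat_lit 2) tj392 tj393) (.nd (nat_lit 2) tj394 tj395))) (.nd (nat_lit 3) 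
(.nd (nat_lit 17) (.nd (nat_lit 18) tj396 tj397) (.nd (nat_lit 5) tj398 tj399)) (.nd (nat_lit 15) 
(.nd (nat_lit 5) tj400 tj401) (.nd (nat_lit 17) tj402 tj403)))) (.nd (nat_lit 2) (.nd (nat_lit 15) 
(.nd (nat_lit 3) (.nd (nat_lit 4) tj404 tj405) (.nd (nat_lit 5) tj406 tj407)) (.nd (nat_lit 18) 
(.nd (nat_lit 5) tj408 tj409) (.nd (nat_lit 4) tj410 tj411))) (.nd (nat_lit 3) (.nd (nat_lit 17) 
(.nd (nat_lit 4) tj412 tj413) (.nd (nat_lit 15) tj414 tj415)) (.nd (nat_lit 4) 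
(.nd (nat_lit 28) tj416 tj417) (.nd (nat_lit 5) (.nd (nat_lit 18) tj418 tj419) 
(.nd (nat_lit 15) tj420 tj421)))))) (.nd (nat_lit 2) (.nd (nat_lit 17) (.nd (nat_lit 16) 
(.nd (nat_lit 5) (.nd (nat_lit 18) tj422 tj423) (.nd (nat_lit 18) tj424 tj425)) (.nd (nat_lit 15) 
(.nd (nat_lit 4) tj426 tj427) (.nd (nat_lit 3) tj428 tj429))) (.nd (nat_lit 5) (.nd (nat_lit 4) 
(.nd (nat_lit 3) tj430 tj431) (.nd (nat_lit 16) tj432 tj433)) (.nd (nat_lit 15) (.nd (nat_lit 3) 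
(.nd (nat_lit 4) tj434 tj435) tj436) (.nd (nat_lit 3) tj437 tj438)))) (.nd (nat_lit 17) 
(.nd (nat_lit 4) (.nd (nat_lit 5) (.nd (nat_lit 3) tj439 tj440) (.nd (nat_lit 3) tj441 tj442)) 
(.nd (nat_lit 3) (.nd (nat_lit 16) tj443 tj444) (.nd (nat_lit 28) tj445 tj446))) (.nd (nat_lit 3) 
(.nd (nat_lit 15) (.nd (nat_lit 4) tj447 (.nd (nat_lit 16) tj448 tj449)) 
(.nd (nat_lit 18) tj450 tj451)) (.nd (nat_lit 5) (.nd (nat_lit 16) tj452 tj453) (.nd (nat_lit 4) 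
(.nd (nat_lit 28) tj454 tj455) tj456))))))) (.nd (nat_lit 14) (.nd (nat_lit 17) (.nd (nat_lit 15) 
(.nd (nat_lit 3) (.nd (nat_lit 13) (.nd (nat_lit 2) (.nd (nat_lit 4) tj457 tj458) 
(.nd (nat_lit 16) tj459 tj460)) (.nd (nat_lit 18) (.nd (nat_lit 6) tj461 tj462) (.nd (nat_lit 28) 
(.nd (nat_lit 2) tj463 tj464) tj465))) (.nd (nat_lit 16) (.nd (nat_lit 2) 
(.nd (nat_lit 5) tj466 tj467) (.nd (nat_lit 4) tj468 tj469)) (.nd (nat_lit 4) 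
(.nd (nat_lit 18) tj470 tj471) (.nd (nat_lit 2) tj472 tj473)))) (.nd (nat_lit 4) (.nd (nat_lit 3) 
(.nd (nat_lit 16) (.nd (nat_lit 5) tj474 (.nd (nat_lit 2) tj475 tj476)) 
(.nd (nat_lit 13) tj477 tj478)) (.nd (nat_lit 16) (.nd (nat_lit 2) 
(.nd (nat_lit 26) tj479 tj480) tj481) (.nd (nat_lit 13) tj482 tj483))) (.nd (nat_lit 16) 
(.nd (nat_lit 3) (.nd (nat_lit 18) (.nd (nat_lit 2) (.nd (nat_lit 26) tj484 tj485) tj486) 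
(.nd (nat_lit 5) tj487 tj488)) (.nd (nat_lit 28) (.nd (nat_lit 5) tj489 tj490) 
(.nd (nat_lit 26) tj491 tj492))) (.nd (nat_lit 13) (.nd (nat_lit 2) tj493 tj494) 
(.nd (nat_lit 2) tj495 tj496))))) (.nd (nat_lit 3) (.nd (nat_lit 13) (.nd (nat_lit 15) 
(.nd (nat_lit 4) (.nd (nat_lit 5) (.nd (nat_lit 6) tj497 tj498) tj499) (.nd (nat_lit 16) 
(.nd (nat_lit 2) tj500 tj501) tj502)) (.nd (nat_lit 5) (.nd (nat_lit 6) tj503 tj504) 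
(.nd (nat_lit 4) tj505 tj506))) (.nd (nat_lit 4) (.nd (nat_lit 2) (.nd (nat_lit 5) tj507 tj508) 
(.nd (nat_lit 15) tj509 tj510)) (.nd (nat_lit 15) (.nd (nat_lit 18) 
(.nd (nat_lit 26) tj511 tj512) tj513) (.nd (nat_lit 16) (.nd (nat_lit 27) tj514 tj515) tj516)))) 
(.nd (nat_lit 4) (.nd (nat_lit 13) (.nd (nat_lit 5) (.nd (nat_lit 15) tj517 tj518) tj519) 
(.nd (nat_lit 15) (.nd (nat_lit 5) tj520 tj521) (.nd (nat_lit 2) tj522 tj523))) (.nd (nat_lit 15) 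
(.nd (nat_lit 13) (.nd (nat_lit 2) tj524 tj525) (.nd (nat_lit 16) tj526 tj527)) (.nd (nat_lit 13) 
(.nd (nat_lit 16) tj528 tj529) (.nd (nat_lit 16) tj530 tj531)))))) (.nd (nat_lit 13) 
(.nd (nat_lit 3) (.nd (nat_lit 16) (.nd (nat_lit 17) (.nd (nat_lit 18) 
(.nd (nat_lit 2) tj532 tj533) (.nd (nat_lit 4) tj534 tj535)) (.nd (nat_lit 15) 
(.nd (nat_lit 5) tj536 tj537) (.nd (nat_lit 26) (.nd (nat_lit 18) tj538 tj539) tj540))) 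
(.nd (nat_lit 15) (.nd (nat_lit 2) (.nd (nat_lit 4) tj541 tj542) (.nd (nat_lit 18) 
(.nd (nat_lit 5) tj543 tj544) tj545)) (.nd (nat_lit 18) (.nd (nat_lit 2) 
(.nd (nat_lit 19) tj546 tj547) tj548) (.nd (nat_lit 4) tj549 (.nd (nat_lit 17) tj550 tj551))))) 
(.nd (nat_lit 4) (.nd (nat_lit 15) (.nd (nat_lit 2) (.nd (nat_lit 17) tj552 tj553) 
(.nd (nat_lit 18) tj554 tj555)) (.nd (nat_lit 16) (.nd (nat_lit 17) tj556 tj557) 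
(.nd (nat_lit 2) tj558 tj559))) (.nd (nat_lit 15) (.nd (nat_lit 16) (.nd (nat_lit 2) tj560 tj561) 
(.nd (nat_lit 17) tj562 tj563)) (.nd (nat_lit 18) (.nd (nat_lit 17) tj564 tj565) 
(.nd (nat_lit 16) tj566 tj567))))) (.nd (nat_lit 17) (.nd (nat_lit 3) (.nd (nat_lit 4) 
(.nd (nat_lit 28) (.nd (nat_lit 16) tj568 tj569) (.nd (nat_lit 18) tj570 
(.nd (nat_lit 2) tj571 tj572))) (.nd (nat_lit 16) (.nd (nat_lit 18) tj573 tj574) 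
(.nd (nat_lit 2) tj575 tj576))) (.nd (nat_lit 4) (.nd (nat_lit 2) (.nd (nat_lit 16) tj577 tj578) 
(.nd (nat_lit 15) tj579 tj580)) (.nd (nat_lit 28) (.nd (nat_lit 18) tj581 tj582) 
(.nd (nat_lit 26) tj583 tj584)))) (.nd (nat_lit 5) (.nd (nat_lit 3) (.nd (nat_lit 6) 
(.nd (nat_lit 16) (.nd (nat_lit 18) tj585 tj586) tj587) (.nd (nat_lit 15) 
(.nd (nat_lit 28) tj588 tj589) tj590)) (.nd (nat_lit 4) (.nd (nat_lit 15) tj591 tj592) 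
(.nd (nat_lit 16) tj593 tj594))) (.nd (nat_lit 4) (.nd (nat_lit 2) (.nd (nat_lit 3) tj595 tj596) 
(.nd (nat_lit 15) tj597 tj598)) (.nd (nat_lit 15) (.nd (nat_lit 3) tj599 tj600) 
(.nd (nat_lit 2) tj601 tj602)))))))))

end

end Pool.Agent.Lib.MP_5854e1_co.Cz
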