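import Pool.Agent.Lib.MP_5854e1_co.Cz.Tk00

/-!
# Further shares of the triangles
-/

set_option autoImplicit false
set_option maxRecDepth 100000
set_option deprecated.oldSectionVars true

namespace Pool.Agent.Lib.MP_5854e1_co.Cz

open Pool.Agent.Lib.MP_5854e1_co

noncomputable section

noncomputable def tk : DT := (.nd (nat_lit 4) (.nd (nat_lit 0) tk000 tk001) (.nd (nat_lit 1) tk002 tk003))

end

end Pool.Agent.Lib.MP_5854e1_co.Cz
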