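import Pool.Agent.Lib.MP_5854e1_co.Cz.Tp00
import Pool.Agent.Lib.MP_5854e1_co.Cz.Tp16
import Pool.Agent.Lib.MP_5854e1_co.Cz.Tp33
import Pool.Agent.Lib.MP_5854e1_co.Cz.Tp52
import Pool.Agent.Lib.MP_5854e1_co.Cz.Tp69
import Pool.Agent.Lib.MP_5854e1_co.Cz.Tp87
import Pool.Agent.Lib.MP_5854e1_co.Cz.Tp103
import Pool.Agent.Lib.MP_5854e1_co.Cz.Tp122
import Pool.Agent.Lib.MP_5854e1_co.Cz.Tp140
import Pool.Agent.Lib.MP_5854e1_co.Cz.Tp156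
import Pool.Agent.Lib.MP_5854e1_co.Cz.Tp174
import Pool.Agent.Lib.MP_5854e1_co.Cz.Tp192
import Pool.Agent.Lib.MP_5854e1_co.Cz.Tp208
import Pool.Agent.Lib.MP_5854e1_co.Cz.Tp225
import Pool.Agent.Lib.MP_5854e1_co.Cz.Tp242
import Pool.Agent.Lib.MP_5854e1_co.Cz.Tp258

/-!
# Listed shares of the triangles
-/

set_option autoImplicit false
set_option maxRecDepth 100000

namespace Pool.Agent.Lib.MP_5854e1_co.Cz

open Pool.Agent.Lib.MP_5854e1_co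

noncomputable section

noncomputable def tp : DT := (.nd (nat_lit 0) (.nd (nat_lit 1) (.nd (nat_lit 2) (.nd (nat_lit 3) 
(.nd (nat_lit 4) (.nd (nat_lit 5) (.nd (nat_lit 15) (.nd (nat_lit 6) tp00 tp01) tp02) 
(.nd (nat_lit 15) (.nd (nat_lit 6) tp03 tp04) (.nd (nat_lit 14) tp05 tp06))) (.nd (nat_lit 5) 
(.nd (nat_lit 6) (.nd (nat_lit 15) (.nd (nat_lit 16) tp07 tp08) tp09) (.nd (nat_lit 8) tp10 tp11)) 
(.nd (nat_lit 8) (.nd (nat_lit 15) (.nd (nat_lit 7) 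
(.nd (nat_lit 13) tp12 tp13) tp14) tp15) tp16))) (.nd (nat_lit 4) (.nd (nat_lit 5) 
(.nd (nat_lit 13) (.nd (nat_lit 6) tp17 tp18) (.nd (nat_lit 16) tp19 tp20)) (.nd (nat_lit 15) 
(.nd (nat_lit 8) (.nd (nat_lit 16) tp21 tp22) tp23) (.nd (nat_lit 13) tp24 tp25))) (.nd (nat_lit 5) 
(.nd (nat_lit 6) (.nd (nat_lit 13) tp26 tp27) tp28) (.nd (nat_lit 6) 
(.nd (nat_lit 15) tp29 tp30) tp31)))) (.nd (nat_lit 3) (.nd (nat_lit 4) (.nd (nat_lit 5) 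
(.nd (nat_lit 15) (.nd (nat_lit 6) (.nd (nat_lit 13) tp32 tp33) (.nd (nat_lit 7) tp34 tp35)) 
(.nd (nat_lit 13) (.nd (nat_lit 18) tp36 tp37) tp38)) (.nd (nat_lit 13) (.nd (nat_lit 8) 
(.nd (nat_lit 17) tp39 tp40) tp41) (.nd (nat_lit 16) tp42 tp43))) (.nd (nat_lit 5) 
(.nd (nat_lit 15) (.nd (nat_lit 6) (.nd (nat_lit 13) (.nd (nat_lit 7) tp44 tp45) tp46) tp47) 
(.nd (nat_lit 13) tp48 tp49)) (.nd (nat_lit 6) (.nd (nat_lit 15) tp50 tp51) tp52))) 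
(.nd (nat_lit 4) (.nd (nat_lit 5) (.nd (nat_lit 15) (.nd (nat_lit 6) tp53 tp54) 
(.nd (nat_lit 14) tp55 tp56)) (.nd (nat_lit 15) (.nd (nat_lit 6) tp57 tp58) 
(.nd (nat_lit 13) tp59 tp60))) (.nd (nat_lit 5) (.nd (nat_lit 15) (.nd (nat_lit 7) tp61 tp62) 
(.nd (nat_lit 14) tp63 tp64)) (.nd (nat_lit 7) (.nd (nat_lit 15) tp65 tp66) tp67))))) 
(.nd (nat_lit 3) (.nd (nat_lit 2) (.nd (nat_lit 4) (.nd (nat_lit 5) (.nd (nat_lit 15) 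
(.nd (nat_lit 6) tp68 (.nd (nat_lit 8) tp69 tp70)) (.nd (nat_lit 14) tp71 tp72)) (.nd (nat_lit 15) 
(.nd (nat_lit 6) tp73 tp74) (.nd (nat_lit 14) tp75 tp76))) (.nd (nat_lit 5) (.nd (nat_lit 15) 
(.nd (nat_lit 6) (.nd (nat_lit 13) (.nd (nat_lit 8) tp77 tp78) tp79) tp80) tp81) (.nd (nat_lit 6) 
(.nd (nat_lit 13) tp82 (.nd (nat_lit 15) tp83 tp84)) tp85))) (.nd (nat_lit 4) (.nd (nat_lit 5) 
(.nd (nat_lit 15) (.nd (nat_lit 6) tp86 tp87) (.nd (nat_lit 13) tp88 tp89)) (.nd (nat_lit 15) 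
(.nd (nat_lit 6) tp90 tp91) tp92)) (.nd (nat_lit 5) (.nd (nat_lit 15) (.nd (nat_lit 8) 
(.nd (nat_lit 13) tp93 tp94) tp95) (.nd (nat_lit 13) tp96 tp97)) (.nd (nat_lit 6) 
(.nd (nat_lit 15) tp98 tp99) tp100)))) (.nd (nat_lit 4) (.nd (nat_lit 2) (.nd (nat_lit 5) 
(.nd (nat_lit 15) (.nd (nat_lit 6) tp101 tp102) (.nd (nat_lit 13) tp103 tp104)) (.nd (nat_lit 15) 
(.nd (nat_lit 7) tp105 tp106) (.nd (nat_lit 13) tp107 tp108))) (.nd (nat_lit 5) (.nd (nat_lit 6) 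
(.nd (nat_lit 15) tp109 tp110) (.nd (nat_lit 8) tp111 tp112)) (.nd (nat_lit 15) (.nd (nat_lit 6) 
(.nd (nat_lit 7) (.nd (nat_lit 13) tp113 tp114) tp115) tp116) (.nd (nat_lit 13) tp117 tp118)))) 
(.nd (nat_lit 2) (.nd (nat_lit 5) (.nd (nat_lit 15) (.nd (nat_lit 6) tp119 tp120) 
(.nd (nat_lit 13) tp121 tp122)) (.nd (nat_lit 8) (.nd (nat_lit 17) tp123 tp124) tp125)) 
(.nd (nat_lit 5) (.nd (nat_lit 15) (.nd (nat_lit 6) tp126 tp127) (.nd (nat_lit 13) tp128 tp129)) 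
(.nd (nat_lit 8) (.nd (nat_lit 15) (.nd (nat_lit 6) 
(.nd (nat_lit 16) tp130 tp131) tp132) tp133) tp134)))))) (.nd (nat_lit 1) (.nd (nat_lit 2) 
(.nd (nat_lit 4) (.nd (nat_lit 3) (.nd (nat_lit 5) (.nd (nat_lit 6) (.nd (nat_lit 17) tp135 tp136) 
(.nd (nat_lit 8) (.nd (nat_lit 13) tp137 tp138) tp139)) (.nd (nat_lit 15) 
(.nd (nat_lit 6) tp140 tp141) (.nd (nat_lit 13) tp142 tp143))) (.nd (nat_lit 5) (.nd (nat_lit 15) 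
(.nd (nat_lit 6) tp144 tp145) (.nd (nat_lit 14) tp146 tp147)) (.nd (nat_lit 15) (.nd (nat_lit 7) 
(.nd (nat_lit 6) tp148 tp149) tp150) tp151))) (.nd (nat_lit 3) (.nd (nat_lit 5) (.nd (nat_lit 6) 
(.nd (nat_lit 15) (.nd (nat_lit 13) tp152 tp153) tp154) (.nd (nat_lit 8) tp155 tp156)) 
(.nd (nat_lit 15) (.nd (nat_lit 8) (.nd (nat_lit 6) (.nd (nat_lit 16) tp157 tp158) tp159) tp160) 
(.nd (nat_lit 13) tp161 tp162))) (.nd (nat_lit 5) (.nd (nat_lit 15) 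
(.nd (nat_lit 6) tp163 tp164) tp165) (.nd (nat_lit 15) tp166 tp167)))) (.nd (nat_lit 3) 
(.nd (nat_lit 4) (.nd (nat_lit 5) (.nd (nat_lit 6) (.nd (nat_lit 13) tp168 tp169) (.nd (nat_lit 8) 
(.nd (nat_lit 15) tp170 tp171) tp172)) (.nd (nat_lit 15) (.nd (nat_lit 6) 
(.nd (nat_lit 16) tp173 tp174) tp175) (.nd (nat_lit 13) tp176 tp177))) (.nd (nat_lit 5) 
(.nd (nat_lit 6) (.nd (nat_lit 17) (.nd (nat_lit 13) tp178 tp179) tp180) 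
(.nd (nat_lit 8) tp181 tp182)) (.nd (nat_lit 6) (.nd (nat_lit 15) 
(.nd (nat_lit 7) tp183 tp184) tp185) tp186))) (.nd (nat_lit 4) (.nd (nat_lit 5) (.nd (nat_lit 15) 
(.nd (nat_lit 6) (.nd (nat_lit 13) tp187 tp188) tp189) (.nd (nat_lit 13) tp190 tp191)) 
(.nd (nat_lit 15) (.nd (nat_lit 6) tp192 tp193) (.nd (nat_lit 13) tp194 tp195))) (.nd (nat_lit 5) 
(.nd (nat_lit 15) (.nd (nat_lit 6) tp196 tp197) tp198) (.nd (nat_lit 6) 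
(.nd (nat_lit 15) tp199 tp200) tp201))))) (.nd (nat_lit 2) (.nd (nat_lit 3) (.nd (nat_lit 4) 
(.nd (nat_lit 5) (.nd (nat_lit 6) (.nd (nat_lit 14) tp202 tp203) (.nd (nat_lit 8) tp204 tp205)) 
(.nd (nat_lit 13) (.nd (nat_lit 6) tp206 tp207) (.nd (nat_lit 16) tp208 tp209))) (.nd (nat_lit 5) 
(.nd (nat_lit 15) (.nd (nat_lit 6) (.nd (nat_lit 13) tp210 tp211) (.nd (nat_lit 8) tp212 tp213)) 
(.nd (nat_lit 13) (.nd (nat_lit 18) tp214 tp215) tp216)) (.nd (nat_lit 6) 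
(.nd (nat_lit 15) tp217 tp218) tp219))) (.nd (nat_lit 4) (.nd (nat_lit 5) (.nd (nat_lit 15) 
(.nd (nat_lit 6) (.nd (nat_lit 13) tp220 tp221) tp222) (.nd (nat_lit 14) tp223 tp224)) 
(.nd (nat_lit 15) (.nd (nat_lit 7) tp225 tp226) tp227)) (.nd (nat_lit 5) (.nd (nat_lit 15) 
(.nd (nat_lit 6) (.nd (nat_lit 13) tp228 tp229) tp230) (.nd (nat_lit 13) tp231 tp232)) 
(.nd (nat_lit 8) (.nd (nat_lit 15) (.nd (nat_lit 6) tp233 tp234) tp235) tp236)))) (.nd (nat_lit 3) 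
(.nd (nat_lit 4) (.nd (nat_lit 5) (.nd (nat_lit 15) tp237 tp238) (.nd (nat_lit 15) 
(.nd (nat_lit 6) tp239 tp240) (.nd (nat_lit 14) tp241 tp242))) (.nd (nat_lit 5) (.nd (nat_lit 15) 
(.nd (nat_lit 6) tp243 tp244) (.nd (nat_lit 14) tp245 tp246)) (.nd (nat_lit 6) 
(.nd (nat_lit 15) tp247 tp248) tp249))) (.nd (nat_lit 4) (.nd (nat_lit 5) (.nd (nat_lit 6) 
(.nd (nat_lit 15) tp250 tp251) (.nd (nat_lit 8) tp252 tp253)) (.nd (nat_lit 6) 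
(.nd (nat_lit 15) tp254 tp255) tp256)) (.nd (nat_lit 5) (.nd (nat_lit 15) 
(.nd (nat_lit 6) tp257 tp258) (.nd (nat_lit 13) tp259 tp260)) (.nd (nat_lit 8) (.nd (nat_lit 6) 
(.nd (nat_lit 15) tp261 tp262) tp263) tp264)))))))

end

end Pool.Agent.Lib.MP_5854e1_co.Cz
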