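import Pool.Agent.Lib.MP_5854e1_co.Cz.Tq00
import Pool.Agent.Lib.MP_5854e1_co.Cz.Tq01
import Pool.Agent.Lib.MP_5854e1_co.Cz.Tq02
import Pool.Agent.Lib.MP_5854e1_co.Cz.Tq03

/-!
# Sparse corrections: the trie
-/

set_option autoImplicit false
set_option maxRecDepth 100000

namespace Pool.Agent.Lib.MP_5854e1_co.Cz

noncomputable section

noncomputable def tq : DT := (.nd (nat_lit 4) (.nd (nat_lit 5) tq00 tq01) (.nd (nat_lit 7) tq02 tq03))

end

end Pool.Agent.Lib.MP_5854e1_co.Cz
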