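import Pool.Agent.Lib.MP_5854e1_co.Cz.Tr00
import Pool.Agent.Lib.MP_5854e1_co.Cz.Tr01
import Pool.Agent.Lib.MP_5854e1_co.Cz.Tr02
import Pool.Agent.Lib.MP_5854e1_co.Cz.Tr03
import Pool.Agent.Lib.MP_5854e1_co.Cz.Tr04
import Pool.Agent.Lib.MP_5854e1_co.Cz.Tr05
import Pool.Agent.Lib.MP_5854e1_co.Cz.Tr06
import Pool.Agent.Lib.MP_5854e1_co.Cz.Tr07
import Pool.Agent.Lib.MP_5854e1_co.Cz.Tr08
import Pool.Agent.Lib.MP_5854e1_co.Cz.Tr09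
import Pool.Agent.Lib.MP_5854e1_co.Cz.Tr10
import Pool.Agent.Lib.MP_5854e1_co.Cz.Tr11
import Pool.Agent.Lib.MP_5854e1_co.Cz.Tr12
import Pool.Agent.Lib.MP_5854e1_co.Cz.Tr13
import Pool.Agent.Lib.MP_5854e1_co.Cz.Tr14
import Pool.Agent.Lib.MP_5854e1_co.Cz.Tr15
import Pool.Agent.Lib.MP_5854e1_co.Cz.Tr16
import Pool.Agent.Lib.MP_5854e1_co.Cz.Tr17
import Pool.Agent.Lib.MP_5854e1_co.Cz.Tr18
import Pool.Agent.Lib.MP_5854e1_co.Cz.Tr19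
import Pool.Agent.Lib.MP_5854e1_co.Cz.Tr20
import Pool.Agent.Lib.MP_5854e1_co.Cz.Tr21

/-!
# Sparse corrections: the trie
-/

set_option autoImplicit false
set_option maxRecDepth 100000

namespace Pool.Agent.Lib.MP_5854e1_co.Cz

noncomputable section

noncomputable def tr : DT := (.nd (nat_lit 0) (.nd (nat_lit 1) (.nd (nat_lit 2) (.nd (nat_lit 3) 
(.nd (nat_lit 4) tr00 tr01) tr02) (.nd (nat_lit 3) (.nd (nat_lit 4) tr03 tr04) tr05)) 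
(.nd (nat_lit 2) (.nd (nat_lit 3) (.nd (nat_lit 4) tr06 tr07) tr08) (.nd (nat_lit 3) tr09 tr10))) 
(.nd (nat_lit 1) (.nd (nat_lit 2) (.nd (nat_lit 3) (.nd (nat_lit 4) tr11 tr12) tr13) 
(.nd (nat_lit 3) tr14 tr15)) (.nd (nat_lit 2) (.nd (nat_lit 3) (.nd (nat_lit 4) tr16 tr17) tr18) 
(.nd (nat_lit 3) (.nd (nat_lit 4) tr19 tr20) tr21))))

end

end Pool.Agent.Lib.MP_5854e1_co.Cz
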