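import Pool.Agent.Lib.MP_5854e1_co.Cz.Tt00
import Pool.Agent.Lib.MP_5854e1_co.Cz.Tt01
import Pool.Agent.Lib.MP_5854e1_co.Cz.Tt02
import Pool.Agent.Lib.MP_5854e1_co.Cz.Tt03
import Pool.Agent.Lib.MP_5854e1_co.Cz.Tt04
import Pool.Agent.Lib.MP_5854e1_co.Cz.Tt05
import Pool.Agent.Lib.MP_5854e1_co.Cz.Tt06
import Pool.Agent.Lib.MP_5854e1_co.Cz.Tt07
import Pool.Agent.Lib.MP_5854e1_co.Cz.Tt08
import Pool.Agent.Lib.MP_5854e1_co.Cz.Tt09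
import Pool.Agent.Lib.MP_5854e1_co.Cz.Tt10
import Pool.Agent.Lib.MP_5854e1_co.Cz.Tt11
import Pool.Agent.Lib.MP_5854e1_co.Cz.Tt12
import Pool.Agent.Lib.MP_5854e1_co.Cz.Tt13
import Pool.Agent.Lib.MP_5854e1_co.Cz.Tt14

/-!
# Sparse corrections: the trie
-/

set_option autoImplicit false
set_option maxRecDepth 100000

namespace Pool.Agent.Lib.MP_5854e1_co.Cz

noncomputable section

noncomputable def tt : DT := (.nd (nat_lit 1) (.nd (nat_lit 2) (.nd (nat_lit 0) (.nd (nat_lit 3) tt00 tt01) (.nd (nat_lit 4) tt02 tt03)) (.nd (nat_lit 0) (.nd (nat_lit 4) tt04 tt05) tt06)) (.nd (nat_lit 0) (.nd (nat_lit 2) (.nd (nat_lit 3) tt07 tt08) (.nd (nat_lit 4) tt09 tt10)) (.nd (nat_lit 2) (.nd (nat_lit 4) tt11 tt12) (.nd (nat_lit 4) tt13 tt14))))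

end

end Pool.Agent.Lib.MP_5854e1_co.Cz
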