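import Pool.Agent.Lib.MP_5854e1_co.Cz.Tu00

/-!
# Cells with further shares
-/

set_option autoImplicit false
set_option maxRecDepth 100000
set_option deprecated.oldSectionVars true

namespace Pool.Agent.Lib.MP_5854e1_co.Cz

open Pool.Agent.Lib.MP_5854e1_co

noncomputable section

noncomputable def tu : DT := (.nd (nat_lit 9) (.nd (nat_lit 8) (.nd (nat_lit 7) (.nd (nat_lit 6) 
(.nd (nat_lit 5) (.nd (nat_lit 4) (.nd (nat_lit 3) tu000 tu001) (.nd (nat_lit 3) tu002 tu003)) 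
(.nd (nat_lit 4) (.nd (nat_lit 3) tu004 (.nd (nat_lit 2) tu005 tu006)) 
(.nd (nat_lit 3) tu007 tu008))) (.nd (nat_lit 5) (.nd (nat_lit 4) 
(.nd (nat_lit 3) tu009 tu010) tu011) (.nd (nat_lit 4) (.nd (nat_lit 3) tu012 tu013) 
(.nd (nat_lit 3) (.nd (nat_lit 2) tu014 (.nd (nat_lit 1) tu015 tu016)) (.nd (nat_lit 2) tu017 
(.nd (nat_lit 1) tu018 tu019)))))) (.nd (nat_lit 6) (.nd (nat_lit 5) (.nd (nat_lit 4) 
(.nd (nat_lit 3) (.nd (nat_lit 2) tu020 tu021) tu022) (.nd (nat_lit 3) tu023 tu024)) 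
(.nd (nat_lit 4) (.nd (nat_lit 3) tu025 (.nd (nat_lit 2) tu026 tu027)) 
(.nd (nat_lit 3) tu028 tu029))) (.nd (nat_lit 5) (.nd (nat_lit 4) (.nd (nat_lit 3) tu030 
(.nd (nat_lit 2) tu031 tu032)) (.nd (nat_lit 3) tu033 tu034)) (.nd (nat_lit 4) 
(.nd (nat_lit 3) tu035 tu036) tu037)))) (.nd (nat_lit 7) (.nd (nat_lit 6) (.nd (nat_lit 5) 
(.nd (nat_lit 4) tu038 tu039) (.nd (nat_lit 4) tu040 tu041)) (.nd (nat_lit 5) 
(.nd (nat_lit 4) tu042 tu043) (.nd (nat_lit 4) (.nd (nat_lit 3) tu044 tu045) 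
(.nd (nat_lit 3) tu046 tu047)))) (.nd (nat_lit 6) (.nd (nat_lit 5) (.nd (nat_lit 4) 
(.nd (nat_lit 3) tu048 tu049) (.nd (nat_lit 3) tu050 tu051)) (.nd (nat_lit 4) 
(.nd (nat_lit 3) tu052 (.nd (nat_lit 2) tu053 (.nd (nat_lit 1) tu054 tu055))) (.nd (nat_lit 3) 
(.nd (nat_lit 2) tu056 tu057) tu058))) (.nd (nat_lit 5) (.nd (nat_lit 4) (.nd (nat_lit 3) 
(.nd (nat_lit 2) tu059 tu060) (.nd (nat_lit 2) (.nd (nat_lit 1) tu061 tu062) tu063)) tu064) 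
(.nd (nat_lit 4) (.nd (nat_lit 3) (.nd (nat_lit 2) tu065 tu066) tu067) 
(.nd (nat_lit 3) tu068 tu069)))))) (.nd (nat_lit 8) (.nd (nat_lit 7) (.nd (nat_lit 6) 
(.nd (nat_lit 5) (.nd (nat_lit 4) (.nd (nat_lit 3) tu070 tu071) (.nd (nat_lit 3) tu072 tu073)) 
(.nd (nat_lit 4) tu074 (.nd (nat_lit 3) (.nd (nat_lit 2) tu075 
(.nd (nat_lit 1) tu076 tu077)) tu078))) (.nd (nat_lit 5) (.nd (nat_lit 4) 
(.nd (nat_lit 3) tu079 tu080) tu081) (.nd (nat_lit 4) (.nd (nat_lit 3) tu082 tu083) tu084))) 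
(.nd (nat_lit 6) (.nd (nat_lit 5) (.nd (nat_lit 4) (.nd (nat_lit 3) tu085 tu086) 
(.nd (nat_lit 3) tu087 tu088)) (.nd (nat_lit 4) (.nd (nat_lit 3) tu089 tu090) (.nd (nat_lit 3) 
(.nd (nat_lit 2) tu091 tu092) tu093))) (.nd (nat_lit 5) (.nd (nat_lit 4) (.nd (nat_lit 3) 
(.nd (nat_lit 2) tu094 (.nd (nat_lit 1) tu095 tu096)) (.nd (nat_lit 2) (.nd (nat_lit 1) 
(.nd (nat_lit 0) tu097 tu098) tu099) tu100)) (.nd (nat_lit 3) (.nd (nat_lit 2) tu101 tu102) tu103)) 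
(.nd (nat_lit 4) (.nd (nat_lit 3) (.nd (nat_lit 2) tu104 tu105) tu106) (.nd (nat_lit 3) tu107 
(.nd (nat_lit 2) tu108 (.nd (nat_lit 1) tu109 tu110))))))) (.nd (nat_lit 7) (.nd (nat_lit 6) 
(.nd (nat_lit 5) (.nd (nat_lit 4) (.nd (nat_lit 3) tu111 (.nd (nat_lit 2) tu112 
(.nd (nat_lit 1) tu113 (.nd (nat_lit 0) tu114 tu115)))) (.nd (nat_lit 3) (.nd (nat_lit 2) 
(.nd (nat_lit 1) (.nd (nat_lit 0) tu116 tu117) tu118) tu119) (.nd (nat_lit 2) tu120 tu121))) 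
(.nd (nat_lit 4) (.nd (nat_lit 3) tu122 (.nd (nat_lit 2) tu123 (.nd (nat_lit 1) 
(.nd (nat_lit 0) tu124 tu125) (.nd (nat_lit 0) tu126 tu127)))) (.nd (nat_lit 3) 
(.nd (nat_lit 2) tu128 tu129) tu130))) (.nd (nat_lit 5) (.nd (nat_lit 4) 
(.nd (nat_lit 3) tu131 tu132) (.nd (nat_lit 3) (.nd (nat_lit 2) tu133 tu134) tu135)) 
(.nd (nat_lit 4) tu136 (.nd (nat_lit 3) tu137 tu138)))) tu139)))

end

end Pool.Agent.Lib.MP_5854e1_co.Cz
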