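import Pool.Agent.Lib.MP_5854e1_co.Cz.Tw00
import Pool.Agent.Lib.MP_5854e1_co.Cz.Tw01
import Pool.Agent.Lib.MP_5854e1_co.Cz.Tw02
import Pool.Agent.Lib.MP_5854e1_co.Cz.Tw03
import Pool.Agent.Lib.MP_5854e1_co.Cz.Tw04
import Pool.Agent.Lib.MP_5854e1_co.Cz.Tw05
import Pool.Agent.Lib.MP_5854e1_co.Cz.Tw06
import Pool.Agent.Lib.MP_5854e1_co.Cz.Tw07
import Pool.Agent.Lib.MP_5854e1_co.Cz.Tw08
import Pool.Agent.Lib.MP_5854e1_co.Cz.Tw09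
import Pool.Agent.Lib.MP_5854e1_co.Cz.Tw10
import Pool.Agent.Lib.MP_5854e1_co.Cz.Tw11
import Pool.Agent.Lib.MP_5854e1_co.Cz.Tw12
import Pool.Agent.Lib.MP_5854e1_co.Cz.Tw13
import Pool.Agent.Lib.MP_5854e1_co.Cz.Tw14
import Pool.Agent.Lib.MP_5854e1_co.Cz.Tw15

/-!
# Sparse corrections: the trie
-/

set_option autoImplicit false
set_option maxRecDepth 100000

namespace Pool.Agent.Lib.MP_5854e1_co.Cz

noncomputable section

noncomputable def tw : DT := (.nd (nat_lit 1) (.nd (nat_lit 0) (.nd (nat_lit 2) (.nd (nat_lit 3) tw00 tw01) (.nd (nat_lit 4) tw02 tw03)) (.nd (nat_lit 2) (.nd (nat_lit 4) tw04 tw05) (.nd (nat_lit 3) tw06 tw07))) (.nd (nat_lit 0) (.nd (nat_lit 2) (.nd (nat_lit 3) tw08 tw09) (.nd (nat_lit 4) tw10 tw11)) (.nd (nat_lit 2) (.nd (nat_lit 4) tw12 tw13) (.nd (nat_lit 4) tw14 tw15))))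

end

end Pool.Agent.Lib.MP_5854e1_co.Cz
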