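import Pool.Agent.Lib.MP_5854e1_co.DecRow

/-!
# Sparse corrections
-/

set_option autoImplicit false
set_option maxRecDepth 100000

namespace Pool.Agent.Lib.MP_5854e1_co.Cz

noncomputable section

noncomputable def tz103 : DT := (.nd (nat_lit 0) (.nd (nat_lit 6) (.nd (nat_lit 15) 
(.nd (nat_lit 18) (.nd (nat_lit 3) (.nd (nat_lit 29) (.nd (nat_lit 20) (.nd (nat_lit 8) 
(.nd (nat_lit 19) (.nd (nat_lit 9) (.nd (nat_lit 27) 
(.lf (nat_lit 268525616) (dlOf (nat_lit 1) (nat_lit 0x8008001800200140008050003))) 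
(.lf (nat_lit 6576758832) (dlOf (nat_lit 1) (nat_lit 0x400180c0981)))) 
(.lf (nat_lit 42035760) (dlOf (nat_lit 2) (nat_lit 0x612b40011604003400400220009245182)))) 
(.nd (nat_lit 26) (.nd (nat_lit 21) 
(.lf (nat_lit 134832176) (dlOf (nat_lit 4) (nat_lit 0xa203b0001701001f01d8000b40803080ec0005604020c004007400080c0e82))) 
(.lf (nat_lit 3492372528) (dlOf (nat_lit 5) (nat_lit 0x141fa00220f18000b81002a87e800103c60002d04000e1fa00230f1800b0000000560c00c43cc0000002002800280c0e81)))) 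
(.nd (nat_lit 27) (.lf (nat_lit 3557384240) (dlOf (nat_lit 1) (nat_lit 0x200181e0981))) 
(.lf (nat_lit 201941040) (dlOf (nat_lit 4) (nat_lit 0x480760002d02005003b0001581004901d8000a80801c00080014002004600080c0f83)))))) 
(.nd (nat_lit 9) (.nd (nat_lit 7) 
(.lf (nat_lit 1342271792) (dlOf (nat_lit 1) (nat_lit 0x800200020008008082))) 
(.lf (nat_lit 8480176) (dlOf (nat_lit 1) (nat_lit 0x400200020008513602)))) (.nd (nat_lit 11) 
(.lf (nat_lit 6643872688) (dlOf (nat_lit 1) (nat_lit 0x8008000400200020008009183))) 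
(.lf (nat_lit 97200) (dlOf (nat_lit 2) (nat_lit 0x64e9000a181800bd80)))))) (.nd (nat_lit 23) 
(.nd (nat_lit 7) (.nd (nat_lit 9) 
(.lf (nat_lit 1343316016) (dlOf (nat_lit 4) (nat_lit 0x50c1c80001c0202960e40000d8100f20720000540800b800801ec002004600081e0703))) 
(.lf (nat_lit 3491324464) (dlOf (nat_lit 2) (nat_lit 0xa23200000018090f00)))) (.nd (nat_lit 11) 
(.lf (nat_lit 36791472) (dlOf (nat_lit 1) (nat_lit 0x2c002000c0009072c02))) 
(.lf (nat_lit 20016304) (dlOf (nat_lit 1) (nat_lit 0x4004000200089d6282))))) (.nd (nat_lit 19) 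
(.nd (nat_lit 22) (.lf (nat_lit 9527344) (dlOf (nat_lit 1) (nat_lit 0x400200020008560702))) 
(.lf (nat_lit 13721648) (dlOf (nat_lit 2) (nat_lit 0x884e900012018740680)))) (.nd (nat_lit 24) 
(.lf (nat_lit 10051632) (dlOf (nat_lit 1) (nat_lit 0x600285b0581))) 
(.lf (nat_lit 26828848) (dlOf (nat_lit 1) (nat_lit 0x10008000400200020008c80703))))))) 
(.nd (nat_lit 8) (.nd (nat_lit 19) (.nd (nat_lit 7) (.nd (nat_lit 9) 
(.lf (nat_lit 5972779056) (dlOf (nat_lit 1) (nat_lit 0x400180c0981))) 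
(.lf (nat_lit 2885774896) (dlOf (nat_lit 4) (nat_lit 0x3cc088005e04300f101f006300f0049406e01a603501090000001543807b8110042808601ee03e010601e009100dc041806a022c0000002a07014e01b8001440800d8008013c002000c0008007183)))) 
(.lf (nat_lit 3825298608) (dlOf (nat_lit 1) (nat_lit 0x60028146281)))) (.nd (nat_lit 21) 
(.nd (nat_lit 9) 
(.lf (nat_lit 3892928560) (dlOf (nat_lit 13) (nat_lit 0x118180049c0b402ba055001502680af00d0007c05000ac01400f50018000fc400bf8168002405e01f80030001b0300a502d0000d40803401680005a0401080b40002c02012805a0000f81012802d006b800c0003a0800dc0b4000190201b402c0000781000f02c808000b001280560000706025202c0000301012601600000008003000800ec00200220008290e83))) 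
(.lf (nat_lit 2753126960) (dlOf (nat_lit 2) (nat_lit 0xa24a00000018090f00)))) (.nd (nat_lit 26) 
(.lf (nat_lit 1881759792) (dlOf (nat_lit 1) (nat_lit 0x1660009000301))) 
(.lf (nat_lit 2754175024) (dlOf (nat_lit 4) (nat_lit 0x9083c0005a04004441e00541f50001502003a0fc0000000800180080024002001200080c0f83)))))) 
(.nd (nat_lit 7) (.nd (nat_lit 9) (.nd (nat_lit 11) 
(.lf (nat_lit 1611228464) (dlOf (nat_lit 1) (nat_lit 0x160002003a0008123202))) 
(.lf (nat_lit 1812032816) (dlOf (nat_lit 1) (nat_lit 0x2a0028146881)))) (.nd (nat_lit 27) 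
(.lf (nat_lit 536962864) (dlOf (nat_lit 1) (nat_lit 0x400200020008003d82))) 
(.lf (nat_lit 3087099696) (dlOf (nat_lit 1) (nat_lit 0x400400020008143d82))))) (.nd (nat_lit 10) 
(.lf (nat_lit 4227951024) (dlOf (nat_lit 1) (nat_lit 0x720028004e81))) (.nd (nat_lit 26) 
(.lf (nat_lit 6308324784) (dlOf (nat_lit 1) (nat_lit 0x8008000c00200060008053603))) 
(.lf (nat_lit 4899038640) (dlOf (nat_lit 2) (nat_lit 0x201b0001009000600000011c0c000400200020008053602)))))))) 
(.nd (nat_lit 8) (.nd (nat_lit 7) (.nd (nat_lit 19) (.nd (nat_lit 10) (.nd (nat_lit 27) 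
(.nd (nat_lit 28) (.lf (nat_lit 2147573816) (dlOf (nat_lit 1) (nat_lit 0x100028090001))) 
(.lf (nat_lit 4563492920) (dlOf (nat_lit 1) (nat_lit 0x120028090001)))) 
(.lf (nat_lit 6576758840) (dlOf (nat_lit 1) (nat_lit 0xc002000e00080c0a82)))) (.nd (nat_lit 9) 
(.nd (nat_lit 11) 
(.lf (nat_lit 1342272568) (dlOf (nat_lit 2) (nat_lit 0x682380093804004000400420008009202))) 
(.lf (nat_lit 134310968) (dlOf (nat_lit 1) (nat_lit 0x40028006081)))) 
(.lf (nat_lit 4697712184) (dlOf (nat_lit 2) (nat_lit 0xb80220001302005c0028093781))))) 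
(.nd (nat_lit 20) (.nd (nat_lit 21) (.nd (nat_lit 22) 
(.lf (nat_lit 3892928568) (dlOf (nat_lit 2) (nat_lit 0x5c02b00000018291100))) 
(.lf (nat_lit 474570808) (dlOf (nat_lit 6) (nat_lit 0xc2b0000a000000190200080ac00018514000620800380000002f02000c16600020000000b010002856000022040154004002c00091a0502)))) 
(.lf (nat_lit 1881759800) (dlOf (nat_lit 1) (nat_lit 0x50008008c00200300009000503)))) 
(.nd (nat_lit 9) 
(.lf (nat_lit 3760184) (dlOf (nat_lit 4) (nat_lit 0x44a220003b0200444b20001b010003000000000080030008003c00200080008220b03))) 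
(.lf (nat_lit 1345940024) (dlOf (nat_lit 2) (nat_lit 0x303640000004000800200020008e25202)))))) 
(.nd (nat_lit 10) (.nd (nat_lit 9) (.nd (nat_lit 19) 
(.lf (nat_lit 872505528) (dlOf (nat_lit 1) (nat_lit 0x20028090701))) 
(.lf (nat_lit 28926136) (dlOf (nat_lit 1) (nat_lit 0x180018da0481)))) 
(.lf (nat_lit 94904) (dlOf (nat_lit 1) (nat_lit 0x20018008c81)))) (.nd (nat_lit 11) 
(.nd (nat_lit 21) (.lf (nat_lit 55665848) (dlOf (nat_lit 1) (nat_lit 0x4002000200096d2c82))) 
(.lf (nat_lit 49374392) (dlOf (nat_lit 1) (nat_lit 0x200009462c81)))) (.nd (nat_lit 12) 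
(.lf (nat_lit 20016312) (dlOf (nat_lit 1) (nat_lit 0x400189d6281))) 
(.lf (nat_lit 97464) (dlOf (nat_lit 1) (nat_lit 0x2002800c201))))))) (.nd (nat_lit 10) 
(.nd (nat_lit 7) (.nd (nat_lit 11) (.nd (nat_lit 26) 
(.lf (nat_lit 1208049976) (dlOf (nat_lit 2) (nat_lit 0xb6027005d005000000100238008004800200100008090b83))) 
(.lf (nat_lit 738287928) (dlOf (nat_lit 2) (nat_lit 0x2014c003406a000000400100028090b81)))) 
(.nd (nat_lit 9) (.lf (nat_lit 939616568) (dlOf (nat_lit 1) (nat_lit 0x20028144c01))) 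
(.lf (nat_lit 20015928) (dlOf (nat_lit 1) (nat_lit 0x200189d5c01))))) (.nd (nat_lit 19) 
(.lf (nat_lit 2080465336) (dlOf (nat_lit 2) (nat_lit 0x2801c8005800800380080020002000a0008091003))) 
(.nd (nat_lit 26) (.lf (nat_lit 3491324344) (dlOf (nat_lit 1) (nat_lit 0x680028090801))) 
(.lf (nat_lit 2753126840) (dlOf (nat_lit 1) (nat_lit 0x680028090801)))))) (.nd (nat_lit 12) 
(.nd (nat_lit 11) (.lf (nat_lit 5773550904) (dlOf (nat_lit 1) (nat_lit 0x800180e3281))) 
(.nd (nat_lit 28) (.lf (nat_lit 1812032824) (dlOf (nat_lit 1) (nat_lit 0x1c0028146901))) 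
(.lf (nat_lit 1543597368) (dlOf (nat_lit 1) (nat_lit 0x1400200080008146902))))) (.nd (nat_lit 7) 
(.nd (nat_lit 9) (.lf (nat_lit 8484152) (dlOf (nat_lit 1) (nat_lit 0x400200020008519902))) 
(.lf (nat_lit 20543288) (dlOf (nat_lit 3) (nat_lit 0x155dc00068020008aee000210189da100)))) 
(.lf (nat_lit 20019128) (dlOf (nat_lit 1) (nat_lit 0x4002000200089da502)))))))) (.nd (nat_lit 28) 
(.nd (nat_lit 21) (.nd (nat_lit 31) (.nd (nat_lit 3) (.nd (nat_lit 32) (.nd (nat_lit 9) 
(.nd (nat_lit 19) (.lf (nat_lit 30761008) (dlOf (nat_lit 1) (nat_lit 0x800018e50b81))) 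
(.lf (nat_lit 21848112) (dlOf (nat_lit 5) (nat_lit 0x1530000041020098e160001f81006f4bf8000f408028260000352fe000350400020008a70581)))) 
(.lf (nat_lit 1925680) (dlOf (nat_lit 1) (nat_lit 0x7a0008150f01)))) (.nd (nat_lit 9) 
(.nd (nat_lit 26) 
(.lf (nat_lit 5905932336) (dlOf (nat_lit 4) (nat_lit 0x5c04a0004502002e0250002201000e0128000f40800a0008003000200140008160583))) 
(.lf (nat_lit 4362428464) (dlOf (nat_lit 3) (nat_lit 0x3702e0000500808c80cc0002204005400400560008070882)))) 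
(.lf (nat_lit 4429540912) (dlOf (nat_lit 1) (nat_lit 0x20008117181))))) (.nd (nat_lit 9) 
(.nd (nat_lit 25) 
(.lf (nat_lit 671440952) (dlOf (nat_lit 2) (nat_lit 0x1aa00e002be008021000801ec002000400081a0703))) 
(.lf (nat_lit 33906744) (dlOf (nat_lit 1) (nat_lit 0x400400020018f70502)))) 
(.lf (nat_lit 38627896) (dlOf (nat_lit 1) (nat_lit 0x1e0009135201))))) (.nd (nat_lit 27) 
(.nd (nat_lit 26) (.lf (nat_lit 3221577776) (dlOf (nat_lit 1) (nat_lit 0xc00400080008150902))) 
(.nd (nat_lit 30) 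
(.lf (nat_lit 6509912112) (dlOf (nat_lit 4) (nat_lit 0x5c04c0004502002e0260002201000e0130000f40800a0008003000200140008160583))) 
(.lf (nat_lit 3288686640) (dlOf (nat_lit 9) (nat_lit 0x7f01980ca00b80544050000360602e202e0001a8101930170000d00801600b800066041c1805a0002e020dc202d000168107010168000ac0809200b4000540401a0004021200180c0e82))))) 
(.nd (nat_lit 3) (.nd (nat_lit 7) 
(.lf (nat_lit 3355795504) (dlOf (nat_lit 1) (nat_lit 0x20028120d81))) 
(.lf (nat_lit 2349169584) (dlOf (nat_lit 1) (nat_lit 0x200080fbd81)))) 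
(.lf (nat_lit 2349169592) (dlOf (nat_lit 2) (nat_lit 0x60070008680800080080090002002200080fbe03)))))) 
(.nd (nat_lit 22) (.nd (nat_lit 3) (.nd (nat_lit 7) (.nd (nat_lit 12) 
(.lf (nat_lit 2754437168) (dlOf (nat_lit 8) (nat_lit 0xa4440000510200442200002801011711000013c0804288800009c0404a44400004c020256220000258101340000000b40800280080034002007600080e0683))) 
(.lf (nat_lit 19755056) (dlOf (nat_lit 1) (nat_lit 0x600289d7c01)))) 
(.lf (nat_lit 36530608) (dlOf (nat_lit 1) (nat_lit 0x20019074e81)))) (.nd (nat_lit 9) 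
(.nd (nat_lit 20) 
(.lf (nat_lit 44392504) (dlOf (nat_lit 3) (nat_lit 0xf382800144080021c140006604005000200020009300b82))) 
(.lf (nat_lit 62218296) (dlOf (nat_lit 2) (nat_lit 0x3577800090080020008001000200060009980b83)))) 
(.lf (nat_lit 45443640) (dlOf (nat_lit 2) (nat_lit 0x32cea000565b00017c100140008001400200160009325203))))) 
(.nd (nat_lit 3) (.nd (nat_lit 9) 
(.lf (nat_lit 16080944) (dlOf (nat_lit 1) (nat_lit 0x4f8008003800200200008860983))) 
(.lf (nat_lit 8223280) (dlOf (nat_lit 1) (nat_lit 0x1a001851b381)))) (.nd (nat_lit 19) 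
(.nd (nat_lit 20) 
(.lf (nat_lit 6643768) (dlOf (nat_lit 1) (nat_lit 0x100008002400200080008440c03))) 
(.nd (nat_lit 24) 
(.lf (nat_lit 7692344) (dlOf (nat_lit 1) (nat_lit 0x1000080024002000800084d0c03))) 
(.lf (nat_lit 24469560) (dlOf (nat_lit 1) (nat_lit 0x4000400020008ba0b02))))) 
(.lf (nat_lit 16605240) (dlOf (nat_lit 2) (nat_lit 0x90000000000800300080004002000600088c0903))))))) 
(.nd (nat_lit 26) (.nd (nat_lit 30) (.nd (nat_lit 32) (.nd (nat_lit 27) (.nd (nat_lit 31) 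
(.lf (nat_lit 268787760) (dlOf (nat_lit 1) (nat_lit 0x8008000c00200040008160603))) 
(.lf (nat_lit 2416271408) (dlOf (nat_lit 1) (nat_lit 0x4002000200080c0f82)))) 
(.lf (nat_lit 2550489136) (dlOf (nat_lit 2) (nat_lit 0x1e027002901300078084004002a0003608003a00280c0e81)))) 
(.nd (nat_lit 7) (.nd (nat_lit 27) 
(.lf (nat_lit 4563755056) (dlOf (nat_lit 1) (nat_lit 0x18004000a00080d0382))) 
(.lf (nat_lit 4697972784) (dlOf (nat_lit 1) (nat_lit 0x18004000a00080d0382)))) 
(.lf (nat_lit 5100626096) (dlOf (nat_lit 1) (nat_lit 0x400200060008101602))))) (.nd (nat_lit 31) 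
(.nd (nat_lit 3) (.nd (nat_lit 7) 
(.lf (nat_lit 1343053872) (dlOf (nat_lit 1) (nat_lit 0x20008140681))) 
(.lf (nat_lit 5637497008) (dlOf (nat_lit 2) (nat_lit 0x46026002400d0000c81001980080128002001600080f1603)))) 
(.lf (nat_lit 1346199608) (dlOf (nat_lit 1) (nat_lit 0x11800400600008e60502)))) (.nd (nat_lit 7) 
(.nd (nat_lit 19) 
(.lf (nat_lit 4026884144) (dlOf (nat_lit 8) (nat_lit 0x5602e00570140000d81007b80b8006c050000350400f602e0001a0104780168000b80824a80b40005a0411f405a0002b0209d002d000150180c0f80))) 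
(.lf (nat_lit 3492634672) (dlOf (nat_lit 8) (nat_lit 0xa44160005102004420b0002801011710580013c08042882c0009c0404a44160004c02025620b000258101340000000b40800280080034002007600080e0683)))) 
(.lf (nat_lit 3491586224) (dlOf (nat_lit 1) (nat_lit 0x60018090301)))))) (.nd (nat_lit 3) 
(.nd (nat_lit 29) (.nd (nat_lit 9) (.nd (nat_lit 19) 
(.lf (nat_lit 2617598000) (dlOf (nat_lit 2) (nat_lit 0x8e00000000018100d80))) 
(.lf (nat_lit 470638640) (dlOf (nat_lit 1) (nat_lit 0x20008140681)))) 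
(.lf (nat_lit 472738352) (dlOf (nat_lit 1) (nat_lit 0x20028aa5181)))) (.nd (nat_lit 7) 
(.nd (nat_lit 30) 
(.lf (nat_lit 1006985264) (dlOf (nat_lit 1) (nat_lit 0x8008000400200020008120f83))) 
(.lf (nat_lit 4228210736) (dlOf (nat_lit 13) (nat_lit 0x2cc098000120204ec055006c02a001c014007e809a054804c01b202580fc0128134c08000f203f009301d005c00c002e405800e8018019a0000000407003f8158057c0aa004005400bf02980828140046c09a04b804c018b02580fa01280220090054804000db01f802700f803dc074002e039000101b022d00c8038c060012002e0154016004e0060003c02c037200000007970033029800600f817440640018030001100b0000382802d815405200a6023a04c00e70258095012800a8080007e03e000101b826780c800d40620056030004f00b0000346000301340410098000090402be04c0000301000a02a8003813400680980016040000028400a0026000010080dd815404e80980000304036a05501170260000041003a015401f8098002804a000502000000020228800808f400209fc0008070903)))) 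
(.lf (nat_lit 4096091568) (dlOf (nat_lit 1) (nat_lit 0x800280e3601))))) (.nd (nat_lit 8) 
(.nd (nat_lit 7) (.nd (nat_lit 22) 
(.lf (nat_lit 1543856184) (dlOf (nat_lit 2) (nat_lit 0x1aa00d00153c08021000801ec002000400081a0703))) 
(.lf (nat_lit 474308664) (dlOf (nat_lit 1) (nat_lit 0x8008000400200040009140b83)))) 
(.lf (nat_lit 2080727224) (dlOf (nat_lit 1) (nat_lit 0x2600280c1701)))) (.nd (nat_lit 12) 
(.lf (nat_lit 2483382072) (dlOf (nat_lit 2) (nat_lit 0xc0310001a8180f3e00))) 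
(.lf (nat_lit 471693112) (dlOf (nat_lit 1) (nat_lit 0x10a00083da101))))))))) (.nd (nat_lit 26) 
(.nd (nat_lit 19) (.nd (nat_lit 30) (.nd (nat_lit 9) (.nd (nat_lit 3) (.nd (nat_lit 18) 
(.nd (nat_lit 10) (.lf (nat_lit 13754416) (dlOf (nat_lit 1) (nat_lit 0x60028750001))) 
(.lf (nat_lit 43115568) (dlOf (nat_lit 1) (nat_lit 0x14004000c00092a2882)))) (.nd (nat_lit 7) 
(.lf (nat_lit 537255984) (dlOf (nat_lit 2) (nat_lit 0x1d01f8000c8080438008009800200380008070883))) 
(.lf (nat_lit 134602928) (dlOf (nat_lit 3) (nat_lit 0x403f0000601000801e80002c0800800080004002000e0008090303))))) 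
(.nd (nat_lit 7) (.nd (nat_lit 18) 
(.lf (nat_lit 4563525688) (dlOf (nat_lit 1) (nat_lit 0x2000801bc00200c00008090003))) 
(.lf (nat_lit 6442836024) (dlOf (nat_lit 2) (nat_lit 0x13800000000040084002000200081d0b02)))) 
(.nd (nat_lit 8) (.lf (nat_lit 20050104) (dlOf (nat_lit 1) (nat_lit 0x400289d7e81))) 
(.lf (nat_lit 134603192) (dlOf (nat_lit 1) (nat_lit 0x18c00200d80008090802)))))) (.nd (nat_lit 8) 
(.nd (nat_lit 23) (.nd (nat_lit 3) 
(.lf (nat_lit 36825648) (dlOf (nat_lit 1) (nat_lit 0x8008000800200020009075183))) 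
(.lf (nat_lit 36825656) (dlOf (nat_lit 1) (nat_lit 0x1a00080004002002c0009075203)))) 
(.nd (nat_lit 11) 
(.lf (nat_lit 11657776) (dlOf (nat_lit 2) (nat_lit 0x191688000280800f000800b8002002e00086c0f03))) 
(.lf (nat_lit 42068528) (dlOf (nat_lit 2) (nat_lit 0x709ca0008b02000e0029245181))))) 
(.nd (nat_lit 3) (.nd (nat_lit 7) 
(.lf (nat_lit 6442575664) (dlOf (nat_lit 1) (nat_lit 0x600180f3d81))) 
(.lf (nat_lit 129968) (dlOf (nat_lit 1) (nat_lit 0x12a001800bd81)))) (.nd (nat_lit 31) 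
(.lf (nat_lit 124728) (dlOf (nat_lit 2) (nat_lit 0xc000000350200020018003e01))) 
(.lf (nat_lit 6442575672) (dlOf (nat_lit 5) (nat_lit 0x30068000d408001009c0006804000405c0006027000150200010170000300801a00080004002000800080f3e03))))))) 
(.nd (nat_lit 18) (.nd (nat_lit 7) (.nd (nat_lit 8) (.nd (nat_lit 10) 
(.lf (nat_lit 2013388848) (dlOf (nat_lit 1) (nat_lit 0x10008000400200020008040383))) 
(.lf (nat_lit 1881269296) (dlOf (nat_lit 1) (nat_lit 0x1f80008e82881)))) (.nd (nat_lit 3) 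
(.lf (nat_lit 3221351728) (dlOf (nat_lit 1) (nat_lit 0x20008116881))) 
(.lf (nat_lit 1342306104) (dlOf (nat_lit 3) (nat_lit 0x10594000460400342ca0001e020014001800a101))))) 
(.nd (nat_lit 8) (.nd (nat_lit 27) 
(.lf (nat_lit 5368832176) (dlOf (nat_lit 1) (nat_lit 0x340008031601))) 
(.lf (nat_lit 5503049904) (dlOf (nat_lit 3) (nat_lit 0xa08026000330207fc01301440080000c81000d8008002c002000a0008031603)))) 
(.lf (nat_lit 1881268656) (dlOf (nat_lit 1) (nat_lit 0x8004000c0008e81002))))) (.nd (nat_lit 28) 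
(.nd (nat_lit 27) (.nd (nat_lit 29) 
(.lf (nat_lit 1074126896) (dlOf (nat_lit 1) (nat_lit 0x200180c0f81))) 
(.lf (nat_lit 1610997808) (dlOf (nat_lit 2) (nat_lit 0xa2053004e01080091c100148008002c002004200080b0483)))) 
(.nd (nat_lit 29) (.lf (nat_lit 3355828272) (dlOf (nat_lit 1) (nat_lit 0x20028120d81))) 
(.lf (nat_lit 3892699184) (dlOf (nat_lit 4) (nat_lit 0x5702d0000f40800600500006e0400080b40000002004e00181d0701))))) 
(.nd (nat_lit 3) (.nd (nat_lit 7) 
(.lf (nat_lit 4026916912) (dlOf (nat_lit 3) (nat_lit 0x140350000e01000b01a800000080030008000c002002800080d0b03))) 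
(.lf (nat_lit 3490049200) (dlOf (nat_lit 1) (nat_lit 0x400400020008006282)))) 
(.lf (nat_lit 1346756664) (dlOf (nat_lit 3) (nat_lit 0x2c12c0002f02005e09600017019000500))))))) 
(.nd (nat_lit 3) (.nd (nat_lit 18) (.nd (nat_lit 10) (.nd (nat_lit 20) (.nd (nat_lit 21) 
(.lf (nat_lit 134864944) (dlOf (nat_lit 2) (nat_lit 0x8c08400060390000d0280d0b00))) 
(.lf (nat_lit 3492405296) (dlOf (nat_lit 1) (nat_lit 0x4004000200080c0e82)))) (.nd (nat_lit 9) 
(.lf (nat_lit 26861616) (dlOf (nat_lit 2) (nat_lit 0xabb80003a04004400400160008c80702))) 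
(.lf (nat_lit 1880746544) (dlOf (nat_lit 1) (nat_lit 0x200028b55181))))) (.nd (nat_lit 8) 
(.nd (nat_lit 11) (.lf (nat_lit 61465648) (dlOf (nat_lit 1) (nat_lit 0x20019922881))) 
(.lf (nat_lit 650288) (dlOf (nat_lit 1) (nat_lit 0x20018006081)))) 
(.lf (nat_lit 9041712) (dlOf (nat_lit 1) (nat_lit 0x12002851a101))))) (.nd (nat_lit 20) 
(.nd (nat_lit 7) (.nd (nat_lit 22) 
(.lf (nat_lit 537780272) (dlOf (nat_lit 1) (nat_lit 0x14002000a0008190902))) 
(.lf (nat_lit 21880880) (dlOf (nat_lit 1) (nat_lit 0x60018a70581)))) 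
(.lf (nat_lit 36563376) (dlOf (nat_lit 1) (nat_lit 0x20009074e81)))) (.nd (nat_lit 9) 
(.lf (nat_lit 10346544) (dlOf (nat_lit 1) (nat_lit 0x1600085d0701))) 
(.lf (nat_lit 3493716528) (dlOf (nat_lit 2) (nat_lit 0x801a000440840016023000b00f0000542002380080020002000200081b0f03)))))) 
(.nd (nat_lit 18) (.nd (nat_lit 20) (.nd (nat_lit 21) (.nd (nat_lit 27) 
(.lf (nat_lit 537518136) (dlOf (nat_lit 1) (nat_lit 0x400180a0a81))) 
(.lf (nat_lit 134864952) (dlOf (nat_lit 2) (nat_lit 0x49018800744080128008002c002006600080d0b83)))) 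
(.lf (nat_lit 6938680) (dlOf (nat_lit 1) (nat_lit 0x3c00200020008490902)))) (.nd (nat_lit 10) 
(.lf (nat_lit 5890104) (dlOf (nat_lit 1) (nat_lit 0x3c00200020008400902))) 
(.lf (nat_lit 49931320) (dlOf (nat_lit 1) (nat_lit 0xe00294c2881))))) (.nd (nat_lit 23) 
(.nd (nat_lit 7) (.nd (nat_lit 21) 
(.lf (nat_lit 51243576) (dlOf (nat_lit 1) (nat_lit 0x20019515201))) 
(.lf (nat_lit 36563512) (dlOf (nat_lit 1) (nat_lit 0x20009075201)))) 
(.lf (nat_lit 8250808) (dlOf (nat_lit 1) (nat_lit 0x400200020008513602)))) (.nd (nat_lit 21) 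
(.lf (nat_lit 27123768) (dlOf (nat_lit 1) (nat_lit 0x400200020008ca0882))) (.nd (nat_lit 22) 
(.lf (nat_lit 45998136) (dlOf (nat_lit 1) (nat_lit 0x180029380001))) 
(.lf (nat_lit 16638008) (dlOf (nat_lit 2) (nat_lit 0x2e000000000040004002004e00088c0902))))))))) 
(.nd (nat_lit 27) (.nd (nat_lit 28) (.nd (nat_lit 11) (.nd (nat_lit 30) (.nd (nat_lit 7) 
(.nd (nat_lit 8) 
(.lf (nat_lit 2755519024) (dlOf (nat_lit 2) (nat_lit 0x801a000440840016023000b00f0000502002380080020002000200081b0f03))) 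
(.lf (nat_lit 4362461488) (dlOf (nat_lit 2) (nat_lit 0x3e800000021818090500)))) 
(.lf (nat_lit 2753421488) (dlOf (nat_lit 1) (nat_lit 0xc0028090301)))) (.nd (nat_lit 18) 
(.nd (nat_lit 32) 
(.lf (nat_lit 1140973616) (dlOf (nat_lit 1) (nat_lit 0x10008000400200020008040383))) 
(.lf (nat_lit 5435940912) (dlOf (nat_lit 2) (nat_lit 0x1301f800200f8002c074003a035000b0000000d028010000800fc002001c0008040383)))) 
(.lf (nat_lit 3288719408) (dlOf (nat_lit 3) (nat_lit 0x140350000e01000b01a800000080030008000c002002800080d0b03))))) 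
(.nd (nat_lit 3) (.nd (nat_lit 9) (.nd (nat_lit 12) 
(.lf (nat_lit 1677846576) (dlOf (nat_lit 1) (nat_lit 0x1c002001c0008114702))) 
(.lf (nat_lit 1677850672) (dlOf (nat_lit 1) (nat_lit 0x300040004001811a602)))) 
(.lf (nat_lit 2751593008) (dlOf (nat_lit 1) (nat_lit 0x40040002000800b382)))) (.nd (nat_lit 8) 
(.nd (nat_lit 9) (.lf (nat_lit 1677846584) (dlOf (nat_lit 1) (nat_lit 0xac002001a0008114702))) 
(.lf (nat_lit 1677851192) (dlOf (nat_lit 1) (nat_lit 0x3c004000a000811b402)))) 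
(.lf (nat_lit 1677850936) (dlOf (nat_lit 1) (nat_lit 0x20008027c0020056000811ab83)))))) 
(.nd (nat_lit 8) (.nd (nat_lit 3) (.nd (nat_lit 18) (.nd (nat_lit 19) 
(.lf (nat_lit 2483150896) (dlOf (nat_lit 2) (nat_lit 0xd1015000a00a000024080010004002c0008030c82))) 
(.lf (nat_lit 3557417008) (dlOf (nat_lit 1) (nat_lit 0x400281f0981)))) 
(.lf (nat_lit 1409671216) (dlOf (nat_lit 2) (nat_lit 0x5902c003f8150000440800a0004000c0008070902)))) 
(.nd (nat_lit 7) 
(.lf (nat_lit 2483150904) (dlOf (nat_lit 5) (nat_lit 0x1401e0016502001400e0009901002c0140003bc0800280a0001c604000800400020008030d02))) 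
(.lf (nat_lit 872538296) (dlOf (nat_lit 2) (nat_lit 0x100cc0003004000800400140018090702))))) 
(.nd (nat_lit 7) (.nd (nat_lit 3) 
(.lf (nat_lit 872801584) (dlOf (nat_lit 1) (nat_lit 0x1200280e3201))) 
(.lf (nat_lit 872801592) (dlOf (nat_lit 1) (nat_lit 0x2a00280e3281)))) (.nd (nat_lit 10) 
(.lf (nat_lit 4094288304) (dlOf (nat_lit 1) (nat_lit 0x20008036e81))) 
(.lf (nat_lit 6241248688) (dlOf (nat_lit 1) (nat_lit 0xc00200060008053602))))))) (.nd (nat_lit 28) 
(.nd (nat_lit 3) (.nd (nat_lit 7) (.nd (nat_lit 18) (.nd (nat_lit 19) 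
(.lf (nat_lit 2348933168) (dlOf (nat_lit 2) (nat_lit 0xd1015000a00a00002c080010004002c0008030c82))) 
(.lf (nat_lit 201973808) (dlOf (nat_lit 2) (nat_lit 0x8c08400060390000d0280d0b00)))) 
(.lf (nat_lit 738582576) (dlOf (nat_lit 2) (nat_lit 0xa2053004e01080091c100148008002c002004200080b0483)))) 
(.nd (nat_lit 8) 
(.lf (nat_lit 201711792) (dlOf (nat_lit 3) (nat_lit 0x403f0000601000801e80002c0800800080004002000e0008090303))) 
(.lf (nat_lit 1812064688) (dlOf (nat_lit 1) (nat_lit 0x400400020008144e82))))) (.nd (nat_lit 8) 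
(.nd (nat_lit 9) (.nd (nat_lit 19) 
(.lf (nat_lit 2348933176) (dlOf (nat_lit 5) (nat_lit 0x1401e0016502001400e0009901002c0140003a00800280a0001c604000800400020008030d02))) 
(.lf (nat_lit 201973816) (dlOf (nat_lit 2) (nat_lit 0x49018800744080128008002c002006600080d0b83)))) 
(.lf (nat_lit 3959552568) (dlOf (nat_lit 1) (nat_lit 0x40040002001811b402)))) (.nd (nat_lit 7) 
(.nd (nat_lit 9) 
(.lf (nat_lit 738320696) (dlOf (nat_lit 2) (nat_lit 0x300a60004035001c0108000001800780080090002000a0008090b83))) 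
(.lf (nat_lit 2886068024) (dlOf (nat_lit 2) (nat_lit 0xa806c0004004007400400880018143e02)))) 
(.lf (nat_lit 201712056) (dlOf (nat_lit 1) (nat_lit 0x18c00200d80008090802)))))) (.nd (nat_lit 30) 
(.nd (nat_lit 10) (.nd (nat_lit 18) 
(.lf (nat_lit 5301723184) (dlOf (nat_lit 2) (nat_lit 0x1301f800200f8002c074003a037000b0000000ac28010000800fc002001c0008040383))) 
(.lf (nat_lit 2617630768) (dlOf (nat_lit 3) (nat_lit 0x358060018400600dc0000001683001a00c003080000002e08000800400580008110682)))) 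
(.nd (nat_lit 3) (.nd (nat_lit 7) 
(.lf (nat_lit 469890096) (dlOf (nat_lit 2) (nat_lit 0x482380146804000400400020008009202))) 
(.lf (nat_lit 474080432) (dlOf (nat_lit 4) (nat_lit 0x105a000302cc00180170002f83000800b8001740800085a0000b204004c00400400009082c02)))) 
(.lf (nat_lit 469890872) (dlOf (nat_lit 1) (nat_lit 0x800800040020002000800a103))))) 
(.nd (nat_lit 7) (.nd (nat_lit 3) 
(.lf (nat_lit 6376778288) (dlOf (nat_lit 1) (nat_lit 0x180008095181))) 
(.lf (nat_lit 5838856248) (dlOf (nat_lit 2) (nat_lit 0x13800000000040084002000200081d0b02)))) 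
(.nd (nat_lit 11) (.lf (nat_lit 6375465392) (dlOf (nat_lit 1) (nat_lit 0x3c0018001001))) 
(.lf (nat_lit 5838596528) (dlOf (nat_lit 1) (nat_lit 0x100080010002000e00080f4e83)))))))))) 
(.nd (nat_lit 18) (.nd (nat_lit 7) (.nd (nat_lit 11) (.nd (nat_lit 3) (.nd (nat_lit 19) 
(.nd (nat_lit 15) (.nd (nat_lit 8) 
(.lf (nat_lit 47276144) (dlOf (nat_lit 5) (nat_lit 0x3b4980025a08000abf6000050600076930004b410001d7ec000080c001ed26000968c0009b410003d7ec0000610001ad26000568c0008b410003d7ec0000410000c002000400093c0d02))) 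
(.nd (nat_lit 26) (.lf (nat_lit 402743664) (dlOf (nat_lit 1) (nat_lit 0x20018090f81))) 
(.lf (nat_lit 2080465264) (dlOf (nat_lit 1) (nat_lit 0x1000400040008090f82))))) (.nd (nat_lit 27) 
(.lf (nat_lit 5368832368) (dlOf (nat_lit 2) (nat_lit 0xea013802c10080008008001000200040008035803))) 
(.lf (nat_lit 5503050096) (dlOf (nat_lit 2) (nat_lit 0xea01380156c080008008001000200040008035803))))) 
(.nd (nat_lit 15) (.nd (nat_lit 9) (.nd (nat_lit 26) 
(.lf (nat_lit 3491324272) (dlOf (nat_lit 1) (nat_lit 0x8004002e0008090782))) 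
(.lf (nat_lit 2753126768) (dlOf (nat_lit 2) (nat_lit 0x981260033b80802100080020002003e0008090783)))) 
(.lf (nat_lit 7960432) (dlOf (nat_lit 1) (nat_lit 0x2001851a301)))) (.nd (nat_lit 8) 
(.lf (nat_lit 54124656) (dlOf (nat_lit 1) (nat_lit 0x260029622481))) 
(.lf (nat_lit 23716208) (dlOf (nat_lit 1) (nat_lit 0x40018b80781)))))) (.nd (nat_lit 8) 
(.nd (nat_lit 28) (.nd (nat_lit 10) (.nd (nat_lit 15) 
(.lf (nat_lit 3355533944) (dlOf (nat_lit 9) (nat_lit 0x2da0200001b0100c10100000d4080ea8080000680405100400002e0202520200001681013f0100000ac0800480800004e04003c0400002402000600280a1901))) 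
(.lf (nat_lit 3355566712) (dlOf (nat_lit 2) (nat_lit 0x807c0006c04000c004000c00080a1902)))) 
(.lf (nat_lit 7988856) (dlOf (nat_lit 3) (nat_lit 0xe955000014040098aa8000000200080008513981)))) 
(.nd (nat_lit 9) (.nd (nat_lit 26) 
(.lf (nat_lit 2952913016) (dlOf (nat_lit 1) (nat_lit 0x500080020002001a0008010283))) 
(.lf (nat_lit 5167505528) (dlOf (nat_lit 1) (nat_lit 0x5000806ec00204f00008070c03)))) 
(.lf (nat_lit 6241216120) (dlOf (nat_lit 6) (nat_lit 0x680240000e0200340120000601000300900002c08017004c00940240000a0400a8013001f009000000100120008004c002000e0008053983))))) 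
(.nd (nat_lit 9) (.nd (nat_lit 15) (.nd (nat_lit 20) 
(.lf (nat_lit 1476485496) (dlOf (nat_lit 1) (nat_lit 0x80008010b01))) 
(.lf (nat_lit 43082104) (dlOf (nat_lit 1) (nat_lit 0x100080008002000a00092a1003)))) 
(.lf (nat_lit 6377038200) (dlOf (nat_lit 2) (nat_lit 0x5043800cf8040004002000200080a7d02)))) 
(.nd (nat_lit 15) (.lf (nat_lit 92024) (dlOf (nat_lit 1) (nat_lit 0x8008000400200020008004083))) 
(.lf (nat_lit 1677846392) (dlOf (nat_lit 1) (nat_lit 0x1000400060008114082))))))) (.nd (nat_lit 15) 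
(.nd (nat_lit 28) (.nd (nat_lit 30) (.nd (nat_lit 20) 
(.lf (nat_lit 4831930736) (dlOf (nat_lit 1) (nat_lit 0x20028054e81))) (.nd (nat_lit 21) 
(.lf (nat_lit 34695536) (dlOf (nat_lit 1) (nat_lit 0x8008000400200020008fb4e83))) 
(.lf (nat_lit 49375600) (dlOf (nat_lit 1) (nat_lit 0x20009464e81))))) (.nd (nat_lit 8) 
(.nd (nat_lit 10) 
(.lf (nat_lit 1744923248) (dlOf (nat_lit 2) (nat_lit 0x2016800000080010008000400200040008095403))) 
(.lf (nat_lit 1812033136) (dlOf (nat_lit 1) (nat_lit 0x20028147181)))) 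
(.lf (nat_lit 3825298800) (dlOf (nat_lit 1) (nat_lit 0x160018146b01))))) (.nd (nat_lit 32) 
(.nd (nat_lit 3) (.nd (nat_lit 8) 
(.lf (nat_lit 3623970928) (dlOf (nat_lit 2) (nat_lit 0xc0360001a018004780))) 
(.lf (nat_lit 1880189296) (dlOf (nat_lit 2) (nat_lit 0x1807b0054b8187a4e80)))) 
(.lf (nat_lit 1409378680) (dlOf (nat_lit 1) (nat_lit 0x400200020008004e82)))) (.nd (nat_lit 9) 
(.nd (nat_lit 27) (.lf (nat_lit 4563495280) (dlOf (nat_lit 1) (nat_lit 0x80028094e81))) 
(.lf (nat_lit 5771454832) (dlOf (nat_lit 1) (nat_lit 0xc0018004e81)))) 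
(.lf (nat_lit 4563495792) (dlOf (nat_lit 1) (nat_lit 0x100028095c01)))))) (.nd (nat_lit 3) 
(.nd (nat_lit 19) (.nd (nat_lit 8) 
(.lf (nat_lit 1744956016) (dlOf (nat_lit 1) (nat_lit 0x40018095401))) 
(.lf (nat_lit 2751592816) (dlOf (nat_lit 1) (nat_lit 0x2002800ad01)))) (.nd (nat_lit 20) 
(.nd (nat_lit 21) (.lf (nat_lit 738847088) (dlOf (nat_lit 1) (nat_lit 0x20018124e81))) 
(.lf (nat_lit 40495472) (dlOf (nat_lit 1) (nat_lit 0x300080004002000800091f4e83)))) 
(.lf (nat_lit 39446896) (dlOf (nat_lit 1) (nat_lit 0x1800200020009194e82))))) (.nd (nat_lit 26) 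
(.nd (nat_lit 8) (.nd (nat_lit 9) 
(.lf (nat_lit 5905705080) (dlOf (nat_lit 1) (nat_lit 0x400200020008144782))) 
(.lf (nat_lit 20048504) (dlOf (nat_lit 1) (nat_lit 0x4002000200089d5402)))) 
(.lf (nat_lit 3489791352) (dlOf (nat_lit 1) (nat_lit 0x40020002000800c902)))) (.nd (nat_lit 9) 
(.nd (nat_lit 12) (.lf (nat_lit 6376515960) (dlOf (nat_lit 1) (nat_lit 0x1c0018094e81))) 
(.lf (nat_lit 1677851000) (dlOf (nat_lit 1) (nat_lit 0x880080004002001c000811ae03)))) 
(.lf (nat_lit 5704379256) (dlOf (nat_lit 1) (nat_lit 0x400200020008055c02)))))))) (.nd (nat_lit 30) 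
(.nd (nat_lit 3) (.nd (nat_lit 10) (.nd (nat_lit 15) (.nd (nat_lit 8) 
(.lf (nat_lit 23683312) (dlOf (nat_lit 1) (nat_lit 0x20028b80481))) (.nd (nat_lit 11) 
(.lf (nat_lit 43082224) (dlOf (nat_lit 6) (nat_lit 0x1ea260004a02000600000020010005a898000c40800159dc000c4a800025040005677000412a0000901000b8008003c002000800092a1383))) 
(.lf (nat_lit 50424304) (dlOf (nat_lit 1) (nat_lit 0x1000294c4f01))))) (.nd (nat_lit 9) 
(.nd (nat_lit 19) (.lf (nat_lit 11657712) (dlOf (nat_lit 1) (nat_lit 0x4002000400086c0d82))) 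
(.lf (nat_lit 61465072) (dlOf (nat_lit 1) (nat_lit 0xc00200060009921382)))) (.nd (nat_lit 19) 
(.lf (nat_lit 474080240) (dlOf (nat_lit 1) (nat_lit 0x9c00402040009082882))) 
(.lf (nat_lit 38396912) (dlOf (nat_lit 1) (nat_lit 0x20009132881)))))) (.nd (nat_lit 11) 
(.nd (nat_lit 15) (.nd (nat_lit 19) 
(.lf (nat_lit 8480240) (dlOf (nat_lit 1) (nat_lit 0x400200020008513602))) 
(.lf (nat_lit 9004528) (dlOf (nat_lit 1) (nat_lit 0x400200020008513602)))) 
(.lf (nat_lit 8513008) (dlOf (nat_lit 1) (nat_lit 0x8008000400200020008513603)))) (.nd (nat_lit 8) 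
(.nd (nat_lit 12) (.lf (nat_lit 93424) (dlOf (nat_lit 1) (nat_lit 0x320018006501))) 
(.lf (nat_lit 97520) (dlOf (nat_lit 1) (nat_lit 0x2c001800c601)))) 
(.lf (nat_lit 805432816) (dlOf (nat_lit 1) (nat_lit 0x8008004c002001c0008116f03)))))) 
(.nd (nat_lit 8) (.nd (nat_lit 11) (.nd (nat_lit 15) (.nd (nat_lit 19) 
(.lf (nat_lit 20013304) (dlOf (nat_lit 1) (nat_lit 0x4002000200089d0a82))) 
(.lf (nat_lit 25780472) (dlOf (nat_lit 1) (nat_lit 0x20028c10701)))) 
(.lf (nat_lit 20046072) (dlOf (nat_lit 1) (nat_lit 0x4002000200089d0a82)))) (.nd (nat_lit 9) 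
(.lf (nat_lit 92408) (dlOf (nat_lit 1) (nat_lit 0xa40008004b81))) 
(.lf (nat_lit 617208) (dlOf (nat_lit 1) (nat_lit 0x120028005a01))))) (.nd (nat_lit 27) 
(.nd (nat_lit 9) (.lf (nat_lit 537000440) (dlOf (nat_lit 1) (nat_lit 0x40040002000800b282))) 
(.nd (nat_lit 10) (.lf (nat_lit 69823480) (dlOf (nat_lit 1) (nat_lit 0x20018cd5f01))) 
(.lf (nat_lit 8480760) (dlOf (nat_lit 1) (nat_lit 0x400200020008514682))))) (.nd (nat_lit 9) 
(.lf (nat_lit 2348900856) (dlOf (nat_lit 1) (nat_lit 0x20008001400200020008017e03))) 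
(.nd (nat_lit 10) (.lf (nat_lit 3087131640) (dlOf (nat_lit 1) (nat_lit 0x300028142881))) 
(.lf (nat_lit 939616248) (dlOf (nat_lit 2) (nat_lit 0x4030000190200020008144681)))))))) 
(.nd (nat_lit 27) (.nd (nat_lit 3) (.nd (nat_lit 9) (.nd (nat_lit 10) (.nd (nat_lit 12) 
(.lf (nat_lit 1346988528) (dlOf (nat_lit 1) (nat_lit 0x4004000a0019164f02))) 
(.lf (nat_lit 1677851120) (dlOf (nat_lit 1) (nat_lit 0x9000800140020006000811b283)))) 
(.lf (nat_lit 3221351920) (dlOf (nat_lit 1) (nat_lit 0x5d00080004002005c0008116f03)))) 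
(.nd (nat_lit 15) (.lf (nat_lit 1611228144) (dlOf (nat_lit 1) (nat_lit 0x80018122881))) 
(.lf (nat_lit 1345446896) (dlOf (nat_lit 1) (nat_lit 0x400200060008bb2882))))) (.nd (nat_lit 8) 
(.nd (nat_lit 9) (.lf (nat_lit 5905670392) (dlOf (nat_lit 1) (nat_lit 0xc00080b0481))) 
(.lf (nat_lit 3758189304) (dlOf (nat_lit 1) (nat_lit 0x4002000200080d5a02)))) (.nd (nat_lit 15) 
(.nd (nat_lit 26) (.lf (nat_lit 1342270968) (dlOf (nat_lit 1) (nat_lit 0x400018006f81))) 
(.lf (nat_lit 3825298936) (dlOf (nat_lit 1) (nat_lit 0x400400020008146f82)))) 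
(.lf (nat_lit 1409412600) (dlOf (nat_lit 1) (nat_lit 0x8008000400201cc0008006f83)))))) 
(.nd (nat_lit 8) (.nd (nat_lit 3) (.nd (nat_lit 31) (.nd (nat_lit 19) 
(.lf (nat_lit 1476485360) (dlOf (nat_lit 2) (nat_lit 0x80220068a0200020028010701))) 
(.lf (nat_lit 6378053872) (dlOf (nat_lit 1) (nat_lit 0x1a00080f1e81)))) (.nd (nat_lit 15) 
(.lf (nat_lit 3691077872) (dlOf (nat_lit 1) (nat_lit 0x18008000400200020008010703))) 
(.lf (nat_lit 3691110640) (dlOf (nat_lit 2) (nat_lit 0x12026000c00e8015d01001580080010002000e0008010703))))) 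
(.nd (nat_lit 9) (.lf (nat_lit 3959513336) (dlOf (nat_lit 1) (nat_lit 0xc002001c0008090482))) 
(.lf (nat_lit 3623970552) (dlOf (nat_lit 3) (nat_lit 0x4000000058080068000000280400b0002002a0008003b82))))) 
(.nd (nat_lit 3) (.nd (nat_lit 9) 
(.lf (nat_lit 6308324848) (dlOf (nat_lit 1) (nat_lit 0x400200020008053602))) (.nd (nat_lit 15) 
(.lf (nat_lit 3892405232) (dlOf (nat_lit 1) (nat_lit 0x800200020008102882))) 
(.lf (nat_lit 5773583344) (dlOf (nat_lit 1) (nat_lit 0x1bc00280e2881))))) (.nd (nat_lit 28) 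
(.lf (nat_lit 1812033016) (dlOf (nat_lit 1) (nat_lit 0x400400020008146f82))) 
(.lf (nat_lit 4227952120) (dlOf (nat_lit 1) (nat_lit 0x5a0018006f81))))))))) (.nd (nat_lit 15) 
(.nd (nat_lit 11) (.nd (nat_lit 3) (.nd (nat_lit 9) (.nd (nat_lit 7) (.nd (nat_lit 22) 
(.nd (nat_lit 27) (.lf (nat_lit 5100626032) (dlOf (nat_lit 1) (nat_lit 0x400200020008100a82))) 
(.lf (nat_lit 5234843760) (dlOf (nat_lit 1) (nat_lit 0x12400400860008100d02)))) 
(.lf (nat_lit 29712496) (dlOf (nat_lit 1) (nat_lit 0x400400020018e30482)))) (.nd (nat_lit 8) 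
(.nd (nat_lit 19) 
(.lf (nat_lit 3557122288) (dlOf (nat_lit 4) (nat_lit 0x20000031101000700000186008001000000bea04010c00200560008130702))) 
(.lf (nat_lit 1346199792) (dlOf (nat_lit 1) (nat_lit 0x380080024002007a0008e61e83)))) 
(.lf (nat_lit 8218096) (dlOf (nat_lit 1) (nat_lit 0x8008000400200020008513603))))) 
(.nd (nat_lit 26) (.nd (nat_lit 19) 
(.lf (nat_lit 6711239664) (dlOf (nat_lit 1) (nat_lit 0x800800e0002000200080e2883))) 
(.nd (nat_lit 22) (.lf (nat_lit 60646384) (dlOf (nat_lit 1) (nat_lit 0x200298c2881))) 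
(.lf (nat_lit 56452080) (dlOf (nat_lit 1) (nat_lit 0xa0029732881))))) (.nd (nat_lit 27) 
(.lf (nat_lit 4630864880) (dlOf (nat_lit 1) (nat_lit 0x800800e000200020008122883))) 
(.nd (nat_lit 28) 
(.lf (nat_lit 6107259888) (dlOf (nat_lit 1) (nat_lit 0x800800ec002000200080e2883))) 
(.lf (nat_lit 4765082608) (dlOf (nat_lit 1) (nat_lit 0x800800ec00200020008122883))))))) 
(.nd (nat_lit 8) (.nd (nat_lit 20) (.nd (nat_lit 21) (.nd (nat_lit 26) 
(.lf (nat_lit 2953142392) (dlOf (nat_lit 4) (nat_lit 0x300b00024056000e02a00100148007006800240300020013000f00880050020003800a001a0020008000000514600068008001c0000014304000802a000f000000508100010008008000200040008160483))) 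
(.lf (nat_lit 2080727160) (dlOf (nat_lit 2) (nat_lit 0x10014000c8040008004001600180c0b82)))) 
(.lf (nat_lit 19226744) (dlOf (nat_lit 1) (nat_lit 0x20008970481)))) (.nd (nat_lit 21) 
(.nd (nat_lit 9) 
(.lf (nat_lit 5773287544) (dlOf (nat_lit 1) (nat_lit 0x80080004002000200080c0b83))) 
(.lf (nat_lit 43345528) (dlOf (nat_lit 2) (nat_lit 0x863e000098192a3980)))) (.nd (nat_lit 7) 
(.lf (nat_lit 28663928) (dlOf (nat_lit 1) (nat_lit 0x10008000400200020008da0483))) 
(.lf (nat_lit 32858360) (dlOf (nat_lit 1) (nat_lit 0x400400020008f32482)))))) (.nd (nat_lit 7) 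
(.nd (nat_lit 21) (.lf (nat_lit 738550136) (dlOf (nat_lit 1) (nat_lit 0x48002002200080a7d02))) 
(.lf (nat_lit 23421304) (dlOf (nat_lit 1) (nat_lit 0x40028b80781)))) (.nd (nat_lit 10) 
(.lf (nat_lit 38102008) (dlOf (nat_lit 1) (nat_lit 0x20019132881))) 
(.lf (nat_lit 2483386360) (dlOf (nat_lit 1) (nat_lit 0x1800800a4002001c00080fa603))))))) 
(.nd (nat_lit 21) (.nd (nat_lit 28) (.nd (nat_lit 22) (.nd (nat_lit 23) 
(.lf (nat_lit 6107261296) (dlOf (nat_lit 1) (nat_lit 0x1200180e4e81))) (.nd (nat_lit 24) 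
(.lf (nat_lit 42297712) (dlOf (nat_lit 1) (nat_lit 0x20009244e81))) 
(.lf (nat_lit 59074928) (dlOf (nat_lit 1) (nat_lit 0x800197e4e81))))) (.nd (nat_lit 3) 
(.lf (nat_lit 38627824) (dlOf (nat_lit 1) (nat_lit 0x800200040009134f02))) 
(.lf (nat_lit 46492536) (dlOf (nat_lit 1) (nat_lit 0x8008000400200020009385c03))))) 
(.nd (nat_lit 26) (.nd (nat_lit 3) (.nd (nat_lit 19) 
(.lf (nat_lit 6711241072) (dlOf (nat_lit 1) (nat_lit 0xe00180e4e81))) 
(.lf (nat_lit 3490539888) (dlOf (nat_lit 1) (nat_lit 0x20018004e81)))) 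
(.lf (nat_lit 3624234488) (dlOf (nat_lit 1) (nat_lit 0x160028146f81)))) (.nd (nat_lit 20) 
(.lf (nat_lit 4765084016) (dlOf (nat_lit 1) (nat_lit 0x180018124e81))) 
(.lf (nat_lit 4095043952) (dlOf (nat_lit 1) (nat_lit 0x20028054e81)))))) (.nd (nat_lit 24) 
(.nd (nat_lit 20) (.nd (nat_lit 22) (.nd (nat_lit 25) 
(.lf (nat_lit 472738160) (dlOf (nat_lit 1) (nat_lit 0x38800200300008aa4e82))) 
(.lf (nat_lit 36530544) (dlOf (nat_lit 1) (nat_lit 0x20019074e81)))) 
(.lf (nat_lit 40724848) (dlOf (nat_lit 1) (nat_lit 0x200291f4e81)))) (.nd (nat_lit 22) 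
(.lf (nat_lit 37579120) (dlOf (nat_lit 1) (nat_lit 0x200190d4e81))) 
(.lf (nat_lit 41773424) (dlOf (nat_lit 1) (nat_lit 0xe0029244e81))))) (.nd (nat_lit 3) 
(.nd (nat_lit 7) (.lf (nat_lit 32336240) (dlOf (nat_lit 1) (nat_lit 0x400400020008ef4e82))) 
(.lf (nat_lit 19754480) (dlOf (nat_lit 1) (nat_lit 0xe00189d6f01)))) (.nd (nat_lit 9) 
(.lf (nat_lit 19758456) (dlOf (nat_lit 1) (nat_lit 0x10002000400089dc902))) 
(.lf (nat_lit 54356856) (dlOf (nat_lit 2) (nat_lit 0x124c6000b8019655c00)))))))) (.nd (nat_lit 28) 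
(.nd (nat_lit 7) (.nd (nat_lit 8) (.nd (nat_lit 19) (.nd (nat_lit 20) 
(.lf (nat_lit 604364920) (dlOf (nat_lit 8) (nat_lit 0x700b0004ec080060060002802c0014015000a0088005004000280060016002000e0000004e44000080580025004005002c0011502000a0160008a01000e00b0003801c001ee08007002c000e902002400281a0481))) 
(.lf (nat_lit 28696696) (dlOf (nat_lit 1) (nat_lit 0x10008000400200020008da0483)))) 
(.nd (nat_lit 3) 
(.lf (nat_lit 2755518576) (dlOf (nat_lit 1) (nat_lit 0x800800bc002004200081b0003))) 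
(.lf (nat_lit 61728376) (dlOf (nat_lit 7) (nat_lit 0x545778001580802dabbc000aa0401395de000540200d2aef00029810011577800148080052bbc00026040144004002c0009923982))))) 
(.nd (nat_lit 11) (.nd (nat_lit 27) 
(.lf (nat_lit 4362461552) (dlOf (nat_lit 1) (nat_lit 0x120004003e0008090782))) 
(.lf (nat_lit 201711984) (dlOf (nat_lit 1) (nat_lit 0xf0008003800200040008090783)))) 
(.nd (nat_lit 19) (.lf (nat_lit 45476208) (dlOf (nat_lit 1) (nat_lit 0xe0019324e81))) 
(.nd (nat_lit 20) (.lf (nat_lit 36563312) (dlOf (nat_lit 1) (nat_lit 0x20009074e81))) 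
(.lf (nat_lit 37611888) (dlOf (nat_lit 1) (nat_lit 0x200190d4e81))))))) (.nd (nat_lit 8) 
(.nd (nat_lit 11) (.nd (nat_lit 3) (.nd (nat_lit 19) 
(.lf (nat_lit 28696816) (dlOf (nat_lit 1) (nat_lit 0x10008000400200020008da0603))) 
(.lf (nat_lit 20832496) (dlOf (nat_lit 1) (nat_lit 0x80080010002000200089e4503)))) 
(.lf (nat_lit 39706872) (dlOf (nat_lit 1) (nat_lit 0x200191d2481)))) (.nd (nat_lit 3) 
(.nd (nat_lit 9) (.lf (nat_lit 20314352) (dlOf (nat_lit 1) (nat_lit 0x7e00089da901))) 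
(.lf (nat_lit 19790576) (dlOf (nat_lit 1) (nat_lit 0x4002000200089db982)))) 
(.lf (nat_lit 40758008) (dlOf (nat_lit 1) (nat_lit 0x80080004002000200091f5a03))))) 
(.nd (nat_lit 9) (.nd (nat_lit 3) 
(.lf (nat_lit 2755518960) (dlOf (nat_lit 1) (nat_lit 0x100080008002000400081b0d83))) 
(.lf (nat_lit 12444152) (dlOf (nat_lit 1) (nat_lit 0x600186c0d81)))) (.nd (nat_lit 22) 
(.lf (nat_lit 2751849456) (dlOf (nat_lit 1) (nat_lit 0x40018002881))) 
(.lf (nat_lit 38134768) (dlOf (nat_lit 1) (nat_lit 0x2b800200b40009132882))))))) (.nd (nat_lit 3) 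
(.nd (nat_lit 11) (.nd (nat_lit 7) (.nd (nat_lit 19) 
(.lf (nat_lit 4228243824) (dlOf (nat_lit 1) (nat_lit 0x20018090781))) 
(.lf (nat_lit 3493716336) (dlOf (nat_lit 2) (nat_lit 0xe039006bf0181b0780)))) (.nd (nat_lit 8) 
(.lf (nat_lit 1343086832) (dlOf (nat_lit 1) (nat_lit 0x400200020008150702))) (.nd (nat_lit 9) 
(.lf (nat_lit 3493716464) (dlOf (nat_lit 1) (nat_lit 0x100080008002000400081b0d83))) 
(.lf (nat_lit 872801264) (dlOf (nat_lit 1) (nat_lit 0x100080004002000200080e2883)))))) 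
(.nd (nat_lit 27) (.nd (nat_lit 26) 
(.lf (nat_lit 3490048368) (dlOf (nat_lit 1) (nat_lit 0x20028004e81))) 
(.lf (nat_lit 335931760) (dlOf (nat_lit 1) (nat_lit 0x800280e4e81)))) (.nd (nat_lit 20) 
(.lf (nat_lit 474343792) (dlOf (nat_lit 1) (nat_lit 0x400200020009164e82))) 
(.lf (nat_lit 6376778096) (dlOf (nat_lit 1) (nat_lit 0x20008094e81)))))) (.nd (nat_lit 7) 
(.nd (nat_lit 8) (.nd (nat_lit 10) 
(.lf (nat_lit 1476780152) (dlOf (nat_lit 3) (nat_lit 0xc402e0018c02005e017000c48181a0480))) 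
(.lf (nat_lit 872801400) (dlOf (nat_lit 1) (nat_lit 0x3400180e2a01)))) (.nd (nat_lit 9) 
(.nd (nat_lit 26) (.lf (nat_lit 1879433592) (dlOf (nat_lit 1) (nat_lit 0x20018150b01))) 
(.lf (nat_lit 3557155192) (dlOf (nat_lit 1) (nat_lit 0x20018130b01)))) 
(.lf (nat_lit 5771750264) (dlOf (nat_lit 1) (nat_lit 0x400200020008005c02))))) (.nd (nat_lit 8) 
(.nd (nat_lit 9) (.lf (nat_lit 1881530616) (dlOf (nat_lit 1) (nat_lit 0xc00200080008f42482))) 
(.lf (nat_lit 1345186552) (dlOf (nat_lit 2) (nat_lit 0x705940001e04004800200060008b05a02)))) 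
(.nd (nat_lit 11) (.lf (nat_lit 872801272) (dlOf (nat_lit 1) (nat_lit 0xf800280e2881))) 
(.lf (nat_lit 5771750392) (dlOf (nat_lit 1) (nat_lit 0x360028005f01))))))))))) (.nd (nat_lit 3) 
(.nd (nat_lit 30) (.nd (nat_lit 6) (.nd (nat_lit 15) (.nd (nat_lit 19) (.nd (nat_lit 8) 
(.nd (nat_lit 18) (.nd (nat_lit 9) (.nd (nat_lit 22) (.nd (nat_lit 20) 
(.lf (nat_lit 6442541105) (dlOf (nat_lit 1) (nat_lit 0x200180a0981))) 
(.lf (nat_lit 26304561) (dlOf (nat_lit 2) (nat_lit 0xc000001bd02002c0018c30481)))) 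
(.nd (nat_lit 21) 
(.lf (nat_lit 13721649) (dlOf (nat_lit 2) (nat_lit 0xec9be000560200020018740681))) 
(.lf (nat_lit 7430193) (dlOf (nat_lit 1) (nat_lit 0xc00184b0001))))) (.nd (nat_lit 7) 
(.nd (nat_lit 23) (.lf (nat_lit 2483118641) (dlOf (nat_lit 1) (nat_lit 0x2000200180008018002))) 
(.lf (nat_lit 8479281) (dlOf (nat_lit 1) (nat_lit 0x400200020008511482)))) (.nd (nat_lit 10) 
(.lf (nat_lit 20017841) (dlOf (nat_lit 1) (nat_lit 0x80080004002000200089d8c83))) 
(.lf (nat_lit 2754703025) (dlOf (nat_lit 1) (nat_lit 0x230004000200080f7282)))))) (.nd (nat_lit 28) 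
(.nd (nat_lit 20) (.nd (nat_lit 21) 
(.lf (nat_lit 4362428465) (dlOf (nat_lit 3) (nat_lit 0x18144000c08a00180330000a03000402d80010148007c08c0001106001a0018070981))) 
(.lf (nat_lit 15032369) (dlOf (nat_lit 1) (nat_lit 0x4004000200087b0902)))) 
(.lf (nat_lit 62218289) (dlOf (nat_lit 1) (nat_lit 0x20029980a81)))) (.nd (nat_lit 26) 
(.nd (nat_lit 27) 
(.lf (nat_lit 2416271409) (dlOf (nat_lit 2) (nat_lit 0x1e025002901200078084004002a0003608003a00280c0f81))) 
(.lf (nat_lit 2550489137) (dlOf (nat_lit 1) (nat_lit 0x500080004002000c00080c0e83)))) 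
(.lf (nat_lit 3154468913) (dlOf (nat_lit 1) (nat_lit 0x600181a0481)))))) (.nd (nat_lit 10) 
(.nd (nat_lit 7) (.nd (nat_lit 9) (.nd (nat_lit 11) 
(.lf (nat_lit 2755748145) (dlOf (nat_lit 1) (nat_lit 0xc0002002a00081b0502))) 
(.lf (nat_lit 3087100209) (dlOf (nat_lit 1) (nat_lit 0x1a0018144b81)))) 
(.lf (nat_lit 97073) (dlOf (nat_lit 1) (nat_lit 0x2c0020016000800bc82)))) (.nd (nat_lit 9) 
(.nd (nat_lit 12) (.lf (nat_lit 805396913) (dlOf (nat_lit 1) (nat_lit 0x1a0008090781))) 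
(.lf (nat_lit 94641) (dlOf (nat_lit 1) (nat_lit 0x20018008481)))) 
(.lf (nat_lit 97201) (dlOf (nat_lit 2) (nat_lit 0x44e9000a681800bd80))))) (.nd (nat_lit 9) 
(.nd (nat_lit 12) (.nd (nat_lit 20) 
(.lf (nat_lit 134311217) (dlOf (nat_lit 1) (nat_lit 0x98004008a0008006882))) 
(.lf (nat_lit 20016433) (dlOf (nat_lit 1) (nat_lit 0x8004000400089d6882)))) 
(.lf (nat_lit 97585) (dlOf (nat_lit 1) (nat_lit 0x40040002000800c702)))) (.nd (nat_lit 23) 
(.nd (nat_lit 29) (.lf (nat_lit 91953) (dlOf (nat_lit 1) (nat_lit 0xea0018003d81))) 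
(.lf (nat_lit 536962865) (dlOf (nat_lit 1) (nat_lit 0x400200020008003d82)))) 
(.lf (nat_lit 8480561) (dlOf (nat_lit 1) (nat_lit 0x20018513d81))))))) (.nd (nat_lit 20) 
(.nd (nat_lit 18) (.nd (nat_lit 26) (.nd (nat_lit 22) 
(.lf (nat_lit 134832177) (dlOf (nat_lit 6) (nat_lit 0x92020004900f0020c06e00c400a0001b04000300b8000d00822a80ec00e806c05d80170001703040c01d814c00d80b9c02e0002d06048003b01000178000ac1008c80080a240020b0400080c0e83))) 
(.lf (nat_lit 13197361) (dlOf (nat_lit 1) (nat_lit 0x400400020008701102)))) (.nd (nat_lit 21) 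
(.nd (nat_lit 27) 
(.lf (nat_lit 4362690609) (dlOf (nat_lit 3) (nat_lit 0x4047000070100010238000000801d00080104002002000080d1103))) 
(.lf (nat_lit 201941041) (dlOf (nat_lit 4) (nat_lit 0xa203b0001701001f01d8000b40803080ec0005604020c004007400080c0f82)))) 
(.lf (nat_lit 2754175025) (dlOf (nat_lit 5) (nat_lit 0x1420f00220fa8000b81002a883c00103ea0002d04000e20f00230fa800b0000000560c00c43f00000002002800280c0f81))))) 
(.nd (nat_lit 21) 
(.lf (nat_lit 470638641) (dlOf (nat_lit 2) (nat_lit 0x7188c0014c44e00cc20f0002b038140680))) 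
(.nd (nat_lit 23) 
(.lf (nat_lit 2754437169) (dlOf (nat_lit 10) (nat_lit 0x43112014e082009403a004921bc01d5000000158280d60880000a204069c44000050020426220000278101a7110000138080d40880000980408e84400004b020302209008b00000004c100158880000000400d4002004c00080e0682))) 
(.lf (nat_lit 11362353) (dlOf (nat_lit 1) (nat_lit 0x40008000400200040008690703)))))) 
(.nd (nat_lit 21) (.nd (nat_lit 18) (.nd (nat_lit 23) 
(.lf (nat_lit 471425073) (dlOf (nat_lit 1) (nat_lit 0x200282f0f01))) 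
(.lf (nat_lit 26828849) (dlOf (nat_lit 1) (nat_lit 0x400200020008c80702)))) (.nd (nat_lit 7) 
(.lf (nat_lit 27090993) (dlOf (nat_lit 8) (nat_lit 0x4b00000006e040248000000360200300000001a8100800000000d008027eda400df6ce0008edc000f6c4800235840009a7a002c9ae0000e0700034cd8000100805480000000004001800400ec0008ca0702))) 
(.lf (nat_lit 60646577) (dlOf (nat_lit 1) (nat_lit 0x80080008002000200098c2c03))))) 
(.nd (nat_lit 7) (.nd (nat_lit 23) 
(.lf (nat_lit 2755223601) (dlOf (nat_lit 1) (nat_lit 0x1a0018130701))) 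
(.lf (nat_lit 28926001) (dlOf (nat_lit 1) (nat_lit 0x800400040008da0002)))) (.nd (nat_lit 8) 
(.lf (nat_lit 37315761) (dlOf (nat_lit 2) (nat_lit 0x4aec0002f8190d2c00))) 
(.lf (nat_lit 12411313) (dlOf (nat_lit 4) (nat_lit 0x237500011ba600676820006dd30033b0080066ea0002774c00ce304004c00286c0781)))))))) 
(.nd (nat_lit 18) (.nd (nat_lit 26) (.nd (nat_lit 8) (.nd (nat_lit 19) (.nd (nat_lit 9) 
(.lf (nat_lit 13754417) (dlOf (nat_lit 1) (nat_lit 0x80028750001))) 
(.lf (nat_lit 11657777) (dlOf (nat_lit 2) (nat_lit 0x316880009808000800800ec002000200086c0f03)))) 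
(.nd (nat_lit 7) (.lf (nat_lit 805953585) (dlOf (nat_lit 1) (nat_lit 0x3c00400300008200e82))) 
(.lf (nat_lit 41542833) (dlOf (nat_lit 2) (nat_lit 0x1498e00029019242c00))))) (.nd (nat_lit 9) 
(.nd (nat_lit 7) (.lf (nat_lit 20049201) (dlOf (nat_lit 1) (nat_lit 0x600289d6881))) 
(.lf (nat_lit 8512945) (dlOf (nat_lit 1) (nat_lit 0x400200020008513602)))) (.nd (nat_lit 10) 
(.lf (nat_lit 8516401) (dlOf (nat_lit 1) (nat_lit 0x3800018518f81))) 
(.lf (nat_lit 536995633) (dlOf (nat_lit 1) (nat_lit 0x4c00200f00008003d82)))))) (.nd (nat_lit 19) 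
(.nd (nat_lit 27) 
(.lf (nat_lit 2483150897) (dlOf (nat_lit 7) (nat_lit 0xf000f006d0070037803401200100001508002c02e0003008007c803c027c01c01b400d0000a050013017007d803c002401c01ae00d0096004000680000002618003005c05a802a02d701400ca8060035402001bc00e00e100600bc000c0002420030001c0000402020c00f00bf00680000810044800803b400206000008030c83))) 
(.nd (nat_lit 28) 
(.lf (nat_lit 2348933169) (dlOf (nat_lit 7) (nat_lit 0x1802c02d4015016b80a0065403001aa01000de0070070803005e0006000161000f000f006d0070037803401200120001408002c02c0003008007c803c027c01c01b400d00009850013016007d803c002401c01ae00d0096004800680000002418030001c0000402020c00f00bf00680000810044800803b400206000008030c83))) 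
(.lf (nat_lit 5301723185) (dlOf (nat_lit 2) (nat_lit 0xe00fc007007c002403a001201b8000ac2000c000800bc00200160008040383))))) 
(.nd (nat_lit 21) 
(.lf (nat_lit 3154763825) (dlOf (nat_lit 4) (nat_lit 0x180c80000a02000e06400004810007032000000080018008002000200140008320f03))) 
(.lf (nat_lit 2754207793) (dlOf (nat_lit 1) (nat_lit 0x4004000200080c0f82)))))) (.nd (nat_lit 21) 
(.nd (nat_lit 8) (.nd (nat_lit 19) (.nd (nat_lit 26) 
(.lf (nat_lit 537255985) (dlOf (nat_lit 1) (nat_lit 0x360008070981))) 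
(.lf (nat_lit 738582577) (dlOf (nat_lit 3) (nat_lit 0x33d02981a40084004920802880a600be035009f01080091c1802080080028002003e00080b0483)))) 
(.lf (nat_lit 537780273) (dlOf (nat_lit 1) (nat_lit 0x40008002800200040008190903)))) 
(.nd (nat_lit 27) 
(.lf (nat_lit 2751850289) (dlOf (nat_lit 1) (nat_lit 0x8008000400200020008003d83))) 
(.lf (nat_lit 2886068017) (dlOf (nat_lit 1) (nat_lit 0x6000200280008143d82))))) (.nd (nat_lit 19) 
(.nd (nat_lit 7) (.nd (nat_lit 20) 
(.lf (nat_lit 6676529) (dlOf (nat_lit 1) (nat_lit 0xc00400040008440b82))) 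
(.lf (nat_lit 7725105) (dlOf (nat_lit 1) (nat_lit 0xc004000400084d0b82)))) 
(.lf (nat_lit 1009116337) (dlOf (nat_lit 3) (nat_lit 0x1107180016408035038c0009604025800400780009082c02)))) 
(.nd (nat_lit 7) (.nd (nat_lit 23) 
(.lf (nat_lit 25026609) (dlOf (nat_lit 3) (nat_lit 0x679130033c368001c6d400cc0000003608009d9c4001cc888022dd8c01140000002d08000a0018be0e81))) 
(.lf (nat_lit 16638001) (dlOf (nat_lit 9) (nat_lit 0x1cc1ab00630d2804d80ac0020000000520801a21ab003c0d2805780ac03e40000004b08000c52703e328f8003141c078c9e602d24ea02e6272817e937c0ab09a602e24ca02f524d814212480c9882205843d701fc0d5817886240b2c07804c003100c60000000cc9003c0000000620402049ca00464df000b2698023926c033882200ba3d700cb0d5800580f0019006201e8000000180a007524f004480000004808014093c008800000011020022274000392780003e0800ec00406ea00188c0802)))) 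
(.lf (nat_lit 36563377) (dlOf (nat_lit 1) (nat_lit 0x20009074e81)))))))) (.nd (nat_lit 7) 
(.nd (nat_lit 8) (.nd (nat_lit 15) (.nd (nat_lit 18) (.nd (nat_lit 19) (.nd (nat_lit 9) 
(.nd (nat_lit 22) (.lf (nat_lit 2952880241) (dlOf (nat_lit 1) (nat_lit 0x40028010281))) 
(.lf (nat_lit 63004785) (dlOf (nat_lit 1) (nat_lit 0x200199b1d01)))) 
(.lf (nat_lit 335637105) (dlOf (nat_lit 1) (nat_lit 0x20008001800200040008095403)))) 
(.nd (nat_lit 21) 
(.lf (nat_lit 537485425) (dlOf (nat_lit 8) (nat_lit 0x800a8002a0450000d82003c02a00048114000320801300a800100450000c02002302a00100114000160800240a80000a0200140540000481004a02a0000200800e00080064002001e00080a1583))) 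
(.lf (nat_lit 472473713) (dlOf (nat_lit 1) (nat_lit 0x1000800ec00200120008991d03))))) 
(.nd (nat_lit 29) (.nd (nat_lit 19) 
(.lf (nat_lit 6442803313) (dlOf (nat_lit 2) (nat_lit 0x62032000158181c1580))) 
(.lf (nat_lit 30236785) (dlOf (nat_lit 1) (nat_lit 0xc0018e30481)))) (.nd (nat_lit 27) 
(.lf (nat_lit 5100626033) (dlOf (nat_lit 1) (nat_lit 0x10004009e0008100a82))) 
(.lf (nat_lit 2818924657) (dlOf (nat_lit 4) (nat_lit 0x101b0025840800100d8012bc04000c0e0000000200160028130281)))))) 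
(.nd (nat_lit 18) (.nd (nat_lit 22) (.nd (nat_lit 19) 
(.lf (nat_lit 5301723249) (dlOf (nat_lit 1) (nat_lit 0x280080030002001c0008040d83))) 
(.lf (nat_lit 472506481) (dlOf (nat_lit 1) (nat_lit 0x5000200020008991d02)))) (.nd (nat_lit 20) 
(.lf (nat_lit 56746097) (dlOf (nat_lit 4) (nat_lit 0x935000289380002a04000649c0001481000624d8000400800c8008001800200080009741d03))) 
(.lf (nat_lit 24240241) (dlOf (nat_lit 3) (nat_lit 0x1bc6a20000b02000435100004018b91580))))) 
(.nd (nat_lit 9) (.nd (nat_lit 22) 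
(.lf (nat_lit 604364913) (dlOf (nat_lit 2) (nat_lit 0x580160007d8181a0480))) 
(.lf (nat_lit 21356657) (dlOf (nat_lit 1) (nat_lit 0x60018a30a81)))) 
(.lf (nat_lit 8250993) (dlOf (nat_lit 1) (nat_lit 0x20028513981)))))) (.nd (nat_lit 10) 
(.nd (nat_lit 9) (.nd (nat_lit 15) (.nd (nat_lit 18) 
(.lf (nat_lit 43082097) (dlOf (nat_lit 2) (nat_lit 0x9aff00059408005800800a8002005400092a1003))) 
(.lf (nat_lit 12411249) (dlOf (nat_lit 3) (nat_lit 0x1bbaa00dd581000aec78005b718037320800d0004000200186c0782)))) 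
(.lf (nat_lit 12444017) (dlOf (nat_lit 1) (nat_lit 0x40004001200086c0782)))) (.nd (nat_lit 11) 
(.lf (nat_lit 8479601) (dlOf (nat_lit 1) (nat_lit 0x60008512581))) 
(.lf (nat_lit 738290545) (dlOf (nat_lit 1) (nat_lit 0x80028095c01))))) (.nd (nat_lit 9) 
(.nd (nat_lit 11) (.lf (nat_lit 4899038577) (dlOf (nat_lit 1) (nat_lit 0xc0018053501))) 
(.nd (nat_lit 18) (.lf (nat_lit 97649) (dlOf (nat_lit 1) (nat_lit 0x2001800c901))) 
(.lf (nat_lit 19758449) (dlOf (nat_lit 1) (nat_lit 0x80080004002000200089dc903))))) 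
(.nd (nat_lit 28) (.lf (nat_lit 201418609) (dlOf (nat_lit 1) (nat_lit 0x120018004081))) 
(.lf (nat_lit 469854065) (dlOf (nat_lit 1) (nat_lit 0x420028004081))))))) (.nd (nat_lit 19) 
(.nd (nat_lit 21) (.nd (nat_lit 26) (.nd (nat_lit 10) (.nd (nat_lit 27) 
(.lf (nat_lit 805396721) (dlOf (nat_lit 1) (nat_lit 0x80018090481))) 
(.lf (nat_lit 2281791729) (dlOf (nat_lit 1) (nat_lit 0x180008014501)))) 
(.lf (nat_lit 4697711857) (dlOf (nat_lit 1) (nat_lit 0x20028092e81)))) (.nd (nat_lit 8) 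
(.lf (nat_lit 6509650161) (dlOf (nat_lit 1) (nat_lit 0x58004000a00080b0482))) 
(.lf (nat_lit 201712113) (dlOf (nat_lit 2) (nat_lit 0x1d2042000901f0002f8100098008004800200a40008090d83))))) 
(.nd (nat_lit 8) (.nd (nat_lit 9) (.nd (nat_lit 15) 
(.lf (nat_lit 18964721) (dlOf (nat_lit 1) (nat_lit 0x400200020008970602))) 
(.lf (nat_lit 28696817) (dlOf (nat_lit 1) (nat_lit 0x10008000800200020008da0603)))) 
(.lf (nat_lit 39971569) (dlOf (nat_lit 1) (nat_lit 0x4002000200091f5a02)))) (.nd (nat_lit 15) 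
(.lf (nat_lit 11624945) (dlOf (nat_lit 1) (nat_lit 0x200286c0d81))) 
(.lf (nat_lit 11657713) (dlOf (nat_lit 2) (nat_lit 0x1c330000d1688002f81000a00080008002001400086c0d83)))))) 
(.nd (nat_lit 8) (.nd (nat_lit 11) (.nd (nat_lit 18) 
(.lf (nat_lit 28958961) (dlOf (nat_lit 1) (nat_lit 0xb20028da0601))) (.nd (nat_lit 20) 
(.lf (nat_lit 7201009) (dlOf (nat_lit 1) (nat_lit 0x200184b0601))) 
(.lf (nat_lit 6152433) (dlOf (nat_lit 1) (nat_lit 0x20018420601))))) (.nd (nat_lit 9) 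
(.lf (nat_lit 620785) (dlOf (nat_lit 1) (nat_lit 0x18001800a901))) 
(.lf (nat_lit 738814705) (dlOf (nat_lit 1) (nat_lit 0x8008000400200020008125a03))))) 
(.nd (nat_lit 9) (.nd (nat_lit 15) (.nd (nat_lit 18) 
(.lf (nat_lit 2753126897) (dlOf (nat_lit 2) (nat_lit 0x90c48a000be0200020018090d81))) 
(.lf (nat_lit 1925617) (dlOf (nat_lit 2) (nat_lit 0x400000017c04000c00200040008150d82)))) 
(.lf (nat_lit 2755518961) (dlOf (nat_lit 1) (nat_lit 0x180080014002000a00081b0d83)))) 
(.nd (nat_lit 18) (.lf (nat_lit 2752078833) (dlOf (nat_lit 1) (nat_lit 0x400200020008002882))) 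
(.lf (nat_lit 56452081) (dlOf (nat_lit 1) (nat_lit 0xa0029732881))))))))) (.nd (nat_lit 26) 
(.nd (nat_lit 31) (.nd (nat_lit 18) (.nd (nat_lit 27) (.nd (nat_lit 7) (.nd (nat_lit 8) 
(.nd (nat_lit 9) 
(.lf (nat_lit 1343316017) (dlOf (nat_lit 13) (nat_lit 0x2483c401fc19d00890000000a4180040788003433a000280400be1ab00030d38045058c02502b8002015500910a4806304cc015425c0014124000d076003683a40a8c1c801140d4005d065004882ec002813e0040079002a01d8042809c00ec0280001c28010a15c006b0a4802204b80cf01c8011c0d4004a065004102ec00780f200ac027001400a00006c5000c0390000340407681c80001502001a19d0000501001d0ce80001c0802f06740000804003433a0000302004619d000008100020ce8000000805d800802a8002016a00081e0703))) 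
(.lf (nat_lit 1880189489) (dlOf (nat_lit 1) (nat_lit 0x400287a5181)))) 
(.lf (nat_lit 5637237553) (dlOf (nat_lit 2) (nat_lit 0x4015000ad018055c00)))) (.nd (nat_lit 6) 
(.lf (nat_lit 1881235889) (dlOf (nat_lit 1) (nat_lit 0x10008000800200040008e81003))) 
(.lf (nat_lit 5905670385) (dlOf (nat_lit 1) (nat_lit 0x58004000a00080b0482))))) (.nd (nat_lit 8) 
(.nd (nat_lit 7) (.nd (nat_lit 19) 
(.lf (nat_lit 2013388849) (dlOf (nat_lit 1) (nat_lit 0x20028040381))) 
(.lf (nat_lit 5772009521) (dlOf (nat_lit 1) (nat_lit 0xa40008040381)))) 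
(.lf (nat_lit 1208052401) (dlOf (nat_lit 1) (nat_lit 0x20018095681)))) (.nd (nat_lit 6) 
(.lf (nat_lit 5773550897) (dlOf (nat_lit 1) (nat_lit 0x3400280e3201))) 
(.lf (nat_lit 6308324721) (dlOf (nat_lit 1) (nat_lit 0x40018053501)))))) (.nd (nat_lit 15) 
(.nd (nat_lit 19) (.nd (nat_lit 8) (.nd (nat_lit 32) 
(.lf (nat_lit 1879400497) (dlOf (nat_lit 1) (nat_lit 0x100018120e81))) 
(.lf (nat_lit 6174367793) (dlOf (nat_lit 1) (nat_lit 0x25800202340008120f82)))) 
(.lf (nat_lit 5771717425) (dlOf (nat_lit 1) (nat_lit 0xd00018005c01)))) (.nd (nat_lit 7) 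
(.lf (nat_lit 1343053873) (dlOf (nat_lit 2) (nat_lit 0x7188c0014c44e00cc20b0002b038140680))) 
(.lf (nat_lit 5773287601) (dlOf (nat_lit 1) (nat_lit 0x180080004002000400080c1603))))) 
(.nd (nat_lit 7) (.nd (nat_lit 6) 
(.lf (nat_lit 1610997809) (dlOf (nat_lit 3) (nat_lit 0x33d02981a40084004920802880a600be035009f01080091c1802080080028002003e00080b0483))) 
(.lf (nat_lit 5637529713) (dlOf (nat_lit 1) (nat_lit 0x18008001400200060008100d83)))) 
(.nd (nat_lit 8) 
(.lf (nat_lit 1345710833) (dlOf (nat_lit 2) (nat_lit 0x84500000004007000400140008dd5a02))) 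
(.lf (nat_lit 5772796913) (dlOf (nat_lit 1) (nat_lit 0x20008092881))))))) (.nd (nat_lit 28) 
(.nd (nat_lit 18) (.nd (nat_lit 6) (.nd (nat_lit 15) (.nd (nat_lit 27) 
(.lf (nat_lit 3221839921) (dlOf (nat_lit 2) (nat_lit 0x1a000000120181a0e80))) 
(.lf (nat_lit 3892928561) (dlOf (nat_lit 11) (nat_lit 0x1ba016002f00ac000480800f00580002302044e05a010902a80e700bc000c05803cc014020b001800088300fd8190095c0c003e205a023802a801b013408d0068002602c0236014012e0050076c0060000a14047806401ee03001118168083c0aa002a04d020e01a010500a007f0028042000300004890009032008b816803540aa01ac034004a017000180b0018c0500052014003f001800020480e88168021005e03780030000303022e02d00e480bc08540060000506009805a008d01600000810118019008240b40086059017502a800500d0070005e010802e0015016002400ac061c05003d401402040018000006000c8008003400200060008290f03)))) 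
(.lf (nat_lit 3221872689) (dlOf (nat_lit 5) (nat_lit 0x2b8000000270200c80000001301009200000009008046000000044040060002001c00081a0e82)))) 
(.nd (nat_lit 7) (.lf (nat_lit 3355571057) (dlOf (nat_lit 1) (nat_lit 0x600280a8f81))) 
(.lf (nat_lit 3221315825) (dlOf (nat_lit 2) (nat_lit 0x5010000714080008008002400200080008090483))))) 
(.nd (nat_lit 27) (.nd (nat_lit 29) 
(.lf (nat_lit 3221577777) (dlOf (nat_lit 1) (nat_lit 0x18004001e0008150902))) 
(.lf (nat_lit 3758448689) (dlOf (nat_lit 1) (nat_lit 0x80080004002000200081c0703)))) 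
(.nd (nat_lit 15) (.lf (nat_lit 3892666417) (dlOf (nat_lit 1) (nat_lit 0x20002000c0008180482))) 
(.lf (nat_lit 3892699185) (dlOf (nat_lit 2) (nat_lit 0x1c02d000e00500006c0800e0004001c00081d0702)))))) 
(.nd (nat_lit 15) (.nd (nat_lit 8) (.nd (nat_lit 18) 
(.lf (nat_lit 3492372529) (dlOf (nat_lit 3) (nat_lit 0x740f18000b8080ea07e806743c60002d04000200080c0e81))) 
(.nd (nat_lit 19) 
(.lf (nat_lit 4026884145) (dlOf (nat_lit 9) (nat_lit 0x7f01980ca00b80544050000360602e202e0001a8101930170000d00801600b800066041c1805a0002e020dc202d000168107010168000ac0809200b4000540401a0004021200180c0f82))) 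
(.lf (nat_lit 3492634673) (dlOf (nat_lit 10) (nat_lit 0x43107814e07cc094037c04921a701d5000000158280d6082c000a204069c4160005002042620b000278101a7105800138080d4082c000980408e84160004b0203021f4008b00000004c10015882c000000400d4002004c00080e0682))))) 
(.nd (nat_lit 6) (.lf (nat_lit 3490016561) (dlOf (nat_lit 1) (nat_lit 0x400400020008006882))) 
(.nd (nat_lit 9) (.lf (nat_lit 3491324401) (dlOf (nat_lit 2) (nat_lit 0x17223400102818090d80))) 
(.lf (nat_lit 3493159921) (dlOf (nat_lit 1) (nat_lit 0x200180f2881)))))) (.nd (nat_lit 6) 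
(.nd (nat_lit 18) (.lf (nat_lit 3492405297) (dlOf (nat_lit 2) (nat_lit 0x4044000168180c0e80))) 
(.nd (nat_lit 21) 
(.lf (nat_lit 4026916913) (dlOf (nat_lit 2) (nat_lit 0x5801a8000740800100080018002001000080d0b03))) 
(.lf (nat_lit 3492143153) (dlOf (nat_lit 1) (nat_lit 0x24004000c00080a0982))))) (.nd (nat_lit 7) 
(.lf (nat_lit 3492143217) (dlOf (nat_lit 2) (nat_lit 0x2d056c00036040004004000200180a1582))) 
(.lf (nat_lit 3493716465) (dlOf (nat_lit 4) (nat_lit 0x403c000da0204040000005f01000201f80008070000fc080050002000600081b0d82)))))))) 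
(.nd (nat_lit 6) (.nd (nat_lit 15) (.nd (nat_lit 31) (.nd (nat_lit 8) (.nd (nat_lit 9) 
(.nd (nat_lit 18) (.lf (nat_lit 5838561329) (dlOf (nat_lit 1) (nat_lit 0x200180a0981))) 
(.lf (nat_lit 5570388017) (dlOf (nat_lit 1) (nat_lit 0x25800202340008120f82)))) 
(.lf (nat_lit 6241216049) (dlOf (nat_lit 1) (nat_lit 0x20018053781)))) (.nd (nat_lit 7) 
(.lf (nat_lit 1812032817) (dlOf (nat_lit 1) (nat_lit 0x8008001400200040008146883))) 
(.lf (nat_lit 2080465329) (dlOf (nat_lit 1) (nat_lit 0xb8008003400200160008091003))))) 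
(.nd (nat_lit 18) (.nd (nat_lit 8) (.nd (nat_lit 21) 
(.lf (nat_lit 4228472881) (dlOf (nat_lit 3) (nat_lit 0x4040000120100010200000000801d00080104002002000080d1103))) 
(.lf (nat_lit 4096352305) (dlOf (nat_lit 2) (nat_lit 0x19c0610011f818100480)))) 
(.lf (nat_lit 3825298737) (dlOf (nat_lit 1) (nat_lit 0x180018146881)))) (.nd (nat_lit 27) 
(.lf (nat_lit 3288686641) (dlOf (nat_lit 15) (nat_lit 0x480b80007404040c0820eda03f034901c803f80dc41c8066018802f1cad01700ce80b444280501b1202706b501085fe807804800361e98012018900481b400042f28000000362200160331402017009c809c001402400035080cee03f005c0198e5600b8069805a01280280e8c013850980783ccc024000a0110074004809e00042060000000341822d602e011d0138000cc101f300b868c805a175c026007600f0335804820000220320000000170700e001e808380ec681005a10ee02600e300c84350044036c00e0342000000168806fb0168000b0082ae00b83ff805a0044027015a013000e807816e0024012a01100480000000ac408c200b40005404016405a000290224c002d00014010064017000500b40001a081fec05c000000200b400080c0e81)))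 
(.lf (nat_lit 4228210737) (dlOf (nat_lit 11) (nat_lit 0x1a0098000120205e405500f002a004581400af009a063004c010002580d281280c78080022a03f018601d00d280c002a4058022801801c9000000040701c2015407400a600aa0500318026811201300664094009a048004f02201cb8100002007c029a03a02bd019008a80c0005405c031e02c002f00e003d006006d40000000f240002056008802a8077814c01000a2005c0500006026808b01300394094001e0480307019000380c40390060007e014000070d01ca0298088013002c8094039a03e04cc019000480c003d402c0000d0e024604d004a026000024100d9815404dc09a00a604c00050250000202017c015400006040b680aa005e04c000008201a802a8000000825b000806f00020b780008070903)))))) 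
(.nd (nat_lit 18) (.nd (nat_lit 19) (.nd (nat_lit 9) (.nd (nat_lit 32) 
(.lf (nat_lit 1140973617) (dlOf (nat_lit 1) (nat_lit 0x20028040381))) 
(.lf (nat_lit 5435940913) (dlOf (nat_lit 2) (nat_lit 0xe00fc007007c002403a001201a8000d02000c000800bc00200160008040383)))) 
(.lf (nat_lit 5838597681) (dlOf (nat_lit 1) (nat_lit 0x200180f7181)))) (.nd (nat_lit 21) 
(.lf (nat_lit 6375989297) (dlOf (nat_lit 1) (nat_lit 0xa40008040381))) 
(.lf (nat_lit 4096385073) (dlOf (nat_lit 2) (nat_lit 0x3004100124818100480))))) (.nd (nat_lit 29) 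
(.nd (nat_lit 28) 
(.lf (nat_lit 3288719409) (dlOf (nat_lit 2) (nat_lit 0x5801a8000740800100080018002001000080d0b03))) 
(.lf (nat_lit 1409671217) (dlOf (nat_lit 2) (nat_lit 0x640a8000250200020028070901)))) 
(.nd (nat_lit 19) 
(.lf (nat_lit 1946542129) (dlOf (nat_lit 3) (nat_lit 0x910148000c80800f00a400060040004004000400080c0e82))) 
(.lf (nat_lit 4094550065) (dlOf (nat_lit 1) (nat_lit 0xc0018050001))))))) (.nd (nat_lit 7) 
(.nd (nat_lit 8) (.nd (nat_lit 15) (.nd (nat_lit 18) 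
(.lf (nat_lit 1409900657) (dlOf (nat_lit 8) (nat_lit 0x800a8002a0420000d82003c02a00048108000320801300a800100420000c02002302a00100108000160800240a80000a0200140540000481004a02a0000200800e00080064002001e00080a1583))) 
(.lf (nat_lit 5838823537) (dlOf (nat_lit 2) (nat_lit 0x62032000158181c1580)))) (.nd (nat_lit 11) 
(.nd (nat_lit 18) 
(.lf (nat_lit 5435940977) (dlOf (nat_lit 1) (nat_lit 0x280080030002001c0008040d83))) 
(.lf (nat_lit 6241509489) (dlOf (nat_lit 1) (nat_lit 0x18008001400200060008100d83)))) 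
(.lf (nat_lit 5972813937) (dlOf (nat_lit 1) (nat_lit 0x400200020008144782))))) (.nd (nat_lit 31) 
(.nd (nat_lit 10) 
(.lf (nat_lit 1677850993) (dlOf (nat_lit 1) (nat_lit 0x780080004002000a000811ad03))) 
(.nd (nat_lit 27) (.lf (nat_lit 6241215857) (dlOf (nat_lit 1) (nat_lit 0x20028053501))) 
(.lf (nat_lit 6375433585) (dlOf (nat_lit 1) (nat_lit 0x340028003501))))) (.nd (nat_lit 9) 
(.nd (nat_lit 10) (.lf (nat_lit 3557122417) (dlOf (nat_lit 1) (nat_lit 0x50002000c0008130a82))) 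
(.lf (nat_lit 4096091505) (dlOf (nat_lit 1) (nat_lit 0x400280e3501)))) 
(.lf (nat_lit 3959547761) (dlOf (nat_lit 1) (nat_lit 0x400400020018114082)))))) (.nd (nat_lit 11) 
(.nd (nat_lit 8) (.nd (nat_lit 27) 
(.lf (nat_lit 1677811953) (dlOf (nat_lit 1) (nat_lit 0x80018090481))) 
(.lf (nat_lit 3959513329) (dlOf (nat_lit 2) (nat_lit 0x5010000714080008008002400200080008090483)))) 
(.nd (nat_lit 9) (.lf (nat_lit 2080465393) (dlOf (nat_lit 2) (nat_lit 0x202500000018091380))) 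
(.lf (nat_lit 4096091121) (dlOf (nat_lit 1) (nat_lit 0x200280e2881))))) (.nd (nat_lit 10) 
(.nd (nat_lit 8) (.lf (nat_lit 4093766385) (dlOf (nat_lit 1) (nat_lit 0x400400020008005a02))) 
(.lf (nat_lit 4093766129) (dlOf (nat_lit 1) (nat_lit 0x1b60018004f01)))) (.nd (nat_lit 15) 
(.lf (nat_lit 1543597553) (dlOf (nat_lit 1) (nat_lit 0x28008000c00200080008146f03))) 
(.lf (nat_lit 1543630321) (dlOf (nat_lit 1) (nat_lit 0x40008001c00200140008146f03)))))))))) 
(.nd (nat_lit 6) (.nd (nat_lit 15) (.nd (nat_lit 18) (.nd (nat_lit 27) (.nd (nat_lit 20) 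
(.nd (nat_lit 8) (.nd (nat_lit 19) (.nd (nat_lit 10) (.nd (nat_lit 26) 
(.lf (nat_lit 1879138361) (dlOf (nat_lit 1) (nat_lit 0x140018020681))) 
(.lf (nat_lit 5972779065) (dlOf (nat_lit 1) (nat_lit 0x400280c0b81)))) 
(.lf (nat_lit 8485945) (dlOf (nat_lit 1) (nat_lit 0x2000851bf01)))) (.nd (nat_lit 10) 
(.nd (nat_lit 22) (.lf (nat_lit 3221839929) (dlOf (nat_lit 2) (nat_lit 0x4056000160181a1300))) 
(.lf (nat_lit 21585977) (dlOf (nat_lit 1) (nat_lit 0x20018a51401)))) 
(.lf (nat_lit 1611228217) (dlOf (nat_lit 1) (nat_lit 0x18400400620018122882))))) (.nd (nat_lit 26) 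
(.nd (nat_lit 10) (.lf (nat_lit 2416009529) (dlOf (nat_lit 1) (nat_lit 0x800400020008014c02))) 
(.lf (nat_lit 8484153) (dlOf (nat_lit 1) (nat_lit 0x400200020008519902)))) (.nd (nat_lit 7) 
(.lf (nat_lit 2483118393) (dlOf (nat_lit 1) (nat_lit 0xc00080008002000e0008014c03))) 
(.lf (nat_lit 872505785) (dlOf (nat_lit 1) (nat_lit 0x11400201340008091082)))))) (.nd (nat_lit 21) 
(.nd (nat_lit 26) (.nd (nat_lit 31) 
(.lf (nat_lit 1343316025) (dlOf (nat_lit 2) (nat_lit 0x2b86b40004c040058004000200081e0882))) 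
(.lf (nat_lit 3490799673) (dlOf (nat_lit 2) (nat_lit 0x1c1d20002c018020680)))) 
(.lf (nat_lit 2752602169) (dlOf (nat_lit 2) (nat_lit 0x1c1e70002c018020680)))) (.nd (nat_lit 7) 
(.nd (nat_lit 8) 
(.lf (nat_lit 3760185) (dlOf (nat_lit 16) (nat_lit 0x2512c8000ac04001c964000550200505110002901002a2888001440800d1444000780400c8a220003802001c5110001b8100222888000d80801594440006a040080a220003402001c5110001981004b2590000580800212c8000240401009640001102008a4b200008018220b80))) 
(.lf (nat_lit 20015929) (dlOf (nat_lit 1) (nat_lit 0x4002000200089d5c02)))) 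
(.lf (nat_lit 20019897) (dlOf (nat_lit 1) (nat_lit 0x200189db881)))))) (.nd (nat_lit 28) 
(.nd (nat_lit 19) (.nd (nat_lit 8) (.nd (nat_lit 10) 
(.lf (nat_lit 6576758841) (dlOf (nat_lit 2) (nat_lit 0x1000000046040020002001e00080c0b02))) 
(.lf (nat_lit 2818663481) (dlOf (nat_lit 1) (nat_lit 0x4004000200080d2882)))) (.nd (nat_lit 26) 
(.lf (nat_lit 1744920889) (dlOf (nat_lit 1) (nat_lit 0x320008090b81))) 
(.lf (nat_lit 2348900665) (dlOf (nat_lit 1) (nat_lit 0xc00080008002000e0008014c03))))) 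
(.nd (nat_lit 10) (.nd (nat_lit 29) 
(.lf (nat_lit 134832185) (dlOf (nat_lit 1) (nat_lit 0x600080010002000200080c1303))) 
(.lf (nat_lit 3892928569) (dlOf (nat_lit 2) (nat_lit 0x1c056000000200220018291101)))) 
(.lf (nat_lit 738812985) (dlOf (nat_lit 1) (nat_lit 0x20028122881))))) (.nd (nat_lit 7) 
(.nd (nat_lit 10) (.nd (nat_lit 8) 
(.lf (nat_lit 1006723129) (dlOf (nat_lit 1) (nat_lit 0x140018020681))) 
(.lf (nat_lit 2550227257) (dlOf (nat_lit 1) (nat_lit 0x800400020008014c02)))) (.nd (nat_lit 9) 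
(.lf (nat_lit 939615289) (dlOf (nat_lit 1) (nat_lit 0x80018142881))) 
(.lf (nat_lit 6308324921) (dlOf (nat_lit 1) (nat_lit 0x400200020008053782))))) (.nd (nat_lit 8) 
(.nd (nat_lit 11) (.lf (nat_lit 402743481) (dlOf (nat_lit 1) (nat_lit 0x400400020008090702))) 
(.lf (nat_lit 3623971001) (dlOf (nat_lit 1) (nat_lit 0x1980080118002005e0008004903)))) 
(.lf (nat_lit 1007774137) (dlOf (nat_lit 1) (nat_lit 0x1800287a4e81))))))) (.nd (nat_lit 11) 
(.nd (nat_lit 31) (.nd (nat_lit 19) (.nd (nat_lit 7) (.nd (nat_lit 20) 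
(.lf (nat_lit 1610965049) (dlOf (nat_lit 2) (nat_lit 0x50290000d40801380080018002001600080a1103))) 
(.lf (nat_lit 24469561) (dlOf (nat_lit 1) (nat_lit 0x3e0028ba0b81)))) 
(.lf (nat_lit 2080727225) (dlOf (nat_lit 1) (nat_lit 0x200180c1701)))) (.nd (nat_lit 7) 
(.nd (nat_lit 12) (.lf (nat_lit 16605241) (dlOf (nat_lit 1) (nat_lit 0x1800088c0901))) 
(.lf (nat_lit 19755065) (dlOf (nat_lit 1) (nat_lit 0x4c002001a00089d7c82)))) 
(.lf (nat_lit 34432185) (dlOf (nat_lit 1) (nat_lit 0x400400020008fb2c82))))) (.nd (nat_lit 26) 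
(.nd (nat_lit 27) (.lf (nat_lit 3758448697) (dlOf (nat_lit 1) (nat_lit 0x2bc002010200081c0882))) 
(.nd (nat_lit 28) (.lf (nat_lit 2818924601) (dlOf (nat_lit 1) (nat_lit 0x24002000e0008130002))) 
(.lf (nat_lit 2550489145) (dlOf (nat_lit 1) (nat_lit 0x400280c1301))))) (.nd (nat_lit 8) 
(.lf (nat_lit 3288686649) (dlOf (nat_lit 2) (nat_lit 0x36003c00064040004002000200080c1302))) 
(.lf (nat_lit 2483382073) (dlOf (nat_lit 4) (nat_lit 0x2280d0017c06600ac031004c016000080000006a14011806800be033005b018802880b00006810011406800ba0330059018802680b000054100064004001000080f3e02)))))) 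
(.nd (nat_lit 19) (.nd (nat_lit 8) (.nd (nat_lit 7) 
(.lf (nat_lit 45443641) (dlOf (nat_lit 2) (nat_lit 0x2b675000832d8000be08008400400060009325202))) 
(.lf (nat_lit 3493161145) (dlOf (nat_lit 1) (nat_lit 0x800280f4901)))) (.nd (nat_lit 9) 
(.lf (nat_lit 1880451513) (dlOf (nat_lit 1) (nat_lit 0x8400200460008984e82))) 
(.lf (nat_lit 2349169593) (dlOf (nat_lit 1) (nat_lit 0x200280fbe01))))) (.nd (nat_lit 20) 
(.nd (nat_lit 21) (.lf (nat_lit 38627897) (dlOf (nat_lit 1) (nat_lit 0x1a0009135201))) 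
(.lf (nat_lit 36530745) (dlOf (nat_lit 1) (nat_lit 0x1800200040009075202)))) (.nd (nat_lit 9) 
(.lf (nat_lit 8218681) (dlOf (nat_lit 1) (nat_lit 0x20018514701))) 
(.lf (nat_lit 33385017) (dlOf (nat_lit 1) (nat_lit 0x8008000400200020008f55203)))))))) 
(.nd (nat_lit 26) (.nd (nat_lit 18) (.nd (nat_lit 23) (.nd (nat_lit 27) (.nd (nat_lit 19) 
(.nd (nat_lit 8) (.nd (nat_lit 20) 
(.lf (nat_lit 4026654777) (dlOf (nat_lit 1) (nat_lit 0x20028020681))) 
(.lf (nat_lit 3490832441) (dlOf (nat_lit 2) (nat_lit 0x2003f00000018020680)))) 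
(.lf (nat_lit 20048697) (dlOf (nat_lit 1) (nat_lit 0x4002000200089d5c02)))) (.nd (nat_lit 20) 
(.lf (nat_lit 1342824505) (dlOf (nat_lit 1) (nat_lit 0x800080e0b81))) 
(.lf (nat_lit 3792953) (dlOf (nat_lit 2) (nat_lit 0xbd968000000800400080010002004e0008220b83))))) 
(.nd (nat_lit 8) (.nd (nat_lit 10) 
(.lf (nat_lit 134864953) (dlOf (nat_lit 3) (nat_lit 0x206031000e881009701880073c0806980080698002005200080d0b83))) 
(.lf (nat_lit 671212601) (dlOf (nat_lit 1) (nat_lit 0x400400020008142882)))) (.nd (nat_lit 7) 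
(.lf (nat_lit 1744953657) (dlOf (nat_lit 1) (nat_lit 0x1e0008090b81))) 
(.lf (nat_lit 939648953) (dlOf (nat_lit 1) (nat_lit 0x400400020008144382)))))) (.nd (nat_lit 22) 
(.nd (nat_lit 9) 
(.lf (nat_lit 25288761) (dlOf (nat_lit 2) (nat_lit 0x464580039a04003800400040008bf0b82))) 
(.lf (nat_lit 58845753) (dlOf (nat_lit 1) (nat_lit 0x200097e5201)))) (.nd (nat_lit 10) 
(.nd (nat_lit 24) 
(.lf (nat_lit 12705849) (dlOf (nat_lit 1) (nat_lit 0x1000080018002001e00086d0b03))) 
(.lf (nat_lit 29483065) (dlOf (nat_lit 1) (nat_lit 0x800400040008e10902)))) 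
(.lf (nat_lit 49931321) (dlOf (nat_lit 1) (nat_lit 0x1400294c2881)))))) (.nd (nat_lit 19) 
(.nd (nat_lit 7) (.nd (nat_lit 21) 
(.lf (nat_lit 6442836025) (dlOf (nat_lit 1) (nat_lit 0x200081d0b81))) 
(.lf (nat_lit 3492143161) (dlOf (nat_lit 2) (nat_lit 0x2142000190180a0b80)))) (.nd (nat_lit 27) 
(.lf (nat_lit 4295352505) (dlOf (nat_lit 1) (nat_lit 0x3b0002004c00081a0382))) 
(.lf (nat_lit 4429570233) (dlOf (nat_lit 1) (nat_lit 0x3b0002004c00081a0382))))) (.nd (nat_lit 8) 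
(.nd (nat_lit 7) (.lf (nat_lit 17686585) (dlOf (nat_lit 1) (nat_lit 0x180080004002000a00088f1103))) 
(.lf (nat_lit 60679353) (dlOf (nat_lit 1) (nat_lit 0x4002000200098c2c82)))) (.nd (nat_lit 10) 
(.lf (nat_lit 12444089) (dlOf (nat_lit 1) (nat_lit 0x4e00186c0801))) 
(.lf (nat_lit 8250809) (dlOf (nat_lit 1) (nat_lit 0x400200020008513602))))))) (.nd (nat_lit 28) 
(.nd (nat_lit 8) (.nd (nat_lit 27) (.nd (nat_lit 20) 
(.lf (nat_lit 3288457273) (dlOf (nat_lit 1) (nat_lit 0x20028020681))) 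
(.lf (nat_lit 2752634937) (dlOf (nat_lit 2) (nat_lit 0x2003f00000018020680)))) (.nd (nat_lit 19) 
(.lf (nat_lit 2348933177) (dlOf (nat_lit 3) (nat_lit 0x60040001801c0013304000a00e00092818030d00))) 
(.lf (nat_lit 201973817) (dlOf (nat_lit 3) (nat_lit 0x206031000e881009701880073c0806980080698002005200080d0b83))))) 
(.nd (nat_lit 7) (.lf (nat_lit 2886068025) (dlOf (nat_lit 1) (nat_lit 0x800400020008143e02))) 
(.lf (nat_lit 201451449) (dlOf (nat_lit 1) (nat_lit 0x8008000400200020008004383))))) 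
(.nd (nat_lit 19) (.nd (nat_lit 10) (.nd (nat_lit 18) 
(.lf (nat_lit 2483150905) (dlOf (nat_lit 3) (nat_lit 0x60040001801c0013304000a00e00092818030d00))) 
(.lf (nat_lit 5838856249) (dlOf (nat_lit 1) (nat_lit 0x200081d0b81)))) (.nd (nat_lit 7) 
(.lf (nat_lit 872801593) (dlOf (nat_lit 1) (nat_lit 0x2c00280e3281))) 
(.lf (nat_lit 474080441) (dlOf (nat_lit 9) (nat_lit 0x3a0170002201001c00b80010c0800185a0000820402342d001540170001f02001d00b8000f00800905a000042cc002a017000100a8000dc2000485a0008c02e00035040032168001b00b800000100ce0008017000200020009082c83))))) 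
(.nd (nat_lit 7) (.nd (nat_lit 29) 
(.lf (nat_lit 470409273) (dlOf (nat_lit 1) (nat_lit 0x800080e0b81))) 
(.lf (nat_lit 3154763833) (dlOf (nat_lit 2) (nat_lit 0xc0a6000204600000028321100)))) 
(.lf (nat_lit 4094288313) (dlOf (nat_lit 2) (nat_lit 0x180000043a04002800200180008036f02)))))))) 
(.nd (nat_lit 8) (.nd (nat_lit 18) (.nd (nat_lit 7) (.nd (nat_lit 22) (.nd (nat_lit 29) 
(.nd (nat_lit 10) (.lf (nat_lit 1208049785) (dlOf (nat_lit 1) (nat_lit 0x21400401bc0008090202))) 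
(.lf (nat_lit 91257) (dlOf (nat_lit 1) (nat_lit 0xc0028002a81)))) (.nd (nat_lit 11) 
(.lf (nat_lit 604070009) (dlOf (nat_lit 2) (nat_lit 0x180440183e04000800400060008010282))) 
(.lf (nat_lit 5905705081) (dlOf (nat_lit 1) (nat_lit 0x400200020008144782))))) (.nd (nat_lit 9) 
(.nd (nat_lit 15) 
(.lf (nat_lit 3493945465) (dlOf (nat_lit 1) (nat_lit 0x20008000c002000200081b0083))) 
(.lf (nat_lit 2755780729) (dlOf (nat_lit 1) (nat_lit 0x20008000c002000200081b0083)))) 
(.lf (nat_lit 54618745) (dlOf (nat_lit 1) (nat_lit 0x400400020019655402))))) (.nd (nat_lit 21) 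
(.nd (nat_lit 26) (.nd (nat_lit 28) 
(.lf (nat_lit 3221315833) (dlOf (nat_lit 2) (nat_lit 0x200a6000203700080120004800000388100124002003a0008090482))) 
(.nd (nat_lit 29) 
(.lf (nat_lit 4563493113) (dlOf (nat_lit 3) (nat_lit 0x20034000b30100060090005340802b0008000800200020008090a83))) 
(.lf (nat_lit 805396729) (dlOf (nat_lit 2) (nat_lit 0x1809e000e038000d013000400000048c10015000200020008090482))))) 
(.nd (nat_lit 15) (.nd (nat_lit 27) 
(.lf (nat_lit 6509650169) (dlOf (nat_lit 2) (nat_lit 0x7009000400000046c08002400400b800180b0482))) 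
(.lf (nat_lit 3691077881) (dlOf (nat_lit 2) (nat_lit 0x2001000af2040070004002c0018010702)))) 
(.lf (nat_lit 738320633) (dlOf (nat_lit 2) (nat_lit 0xc01a80050084002b008001000400080018090a82))))) 
(.nd (nat_lit 12) (.nd (nat_lit 15) (.nd (nat_lit 20) 
(.lf (nat_lit 10576121) (dlOf (nat_lit 1) (nat_lit 0xc002000200085f7782))) 
(.lf (nat_lit 20013305) (dlOf (nat_lit 1) (nat_lit 0x4002000200089d0a82)))) 
(.lf (nat_lit 20046073) (dlOf (nat_lit 1) (nat_lit 0x4002000200089d0a82)))) 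
(.lf (nat_lit 20017401) (dlOf (nat_lit 1) (nat_lit 0x4600289d8081)))))) (.nd (nat_lit 28) 
(.nd (nat_lit 15) (.nd (nat_lit 24) (.nd (nat_lit 7) 
(.lf (nat_lit 4832190585) (dlOf (nat_lit 1) (nat_lit 0x8008000400200020008100b83))) 
(.lf (nat_lit 69561081) (dlOf (nat_lit 1) (nat_lit 0x400400020018b45a02)))) (.nd (nat_lit 19) 
(.lf (nat_lit 28663929) (dlOf (nat_lit 1) (nat_lit 0x400200020008da0482))) 
(.lf (nat_lit 23945337) (dlOf (nat_lit 1) (nat_lit 0x40028b80081))))) (.nd (nat_lit 9) 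
(.nd (nat_lit 20) 
(.lf (nat_lit 604364921) (dlOf (nat_lit 14) (nat_lit 0x4e00c0054981006000000053c080390058000400e00da0030009d8300c400c00728058039402a01ca01100e500800678038025c00e009c00600e400180728008009c00201ce0000009c8c000200c001d8058000802a00040100012003800100000026c18015002c004e0070009402002b00b002a801c0022a08018002c001140200220160008581002d00b0001801c0020008009802c000ff02009401600220038003dc1004b005800e800e000e904002000281a0481))) 
(.lf (nat_lit 28696697) (dlOf (nat_lit 1) (nat_lit 0x18008000400200020008da0483)))) 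
(.lf (nat_lit 20310649) (dlOf (nat_lit 1) (nat_lit 0x8004000200089d5402))))) (.nd (nat_lit 29) 
(.nd (nat_lit 26) (.nd (nat_lit 15) 
(.lf (nat_lit 5637496953) (dlOf (nat_lit 3) (nat_lit 0x5007400280280020000000120300090000000880800100080138002001e00080f0b83))) 
(.lf (nat_lit 1476780153) (dlOf (nat_lit 3) (nat_lit 0x64017000c601003400b8006240800400080014002000a00081a0483)))) 
(.nd (nat_lit 7) (.lf (nat_lit 3691339897) (dlOf (nat_lit 1) (nat_lit 0x60002005e0008160482))) 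
(.lf (nat_lit 3557122297) (dlOf (nat_lit 2) (nat_lit 0x100fc00af204003800200100008130702))))) 
(.nd (nat_lit 15) (.nd (nat_lit 31) 
(.lf (nat_lit 5100626041) (dlOf (nat_lit 1) (nat_lit 0x400200020008100c82))) 
(.lf (nat_lit 2953142393) (dlOf (nat_lit 7) (nat_lit 0x5c00a0014f02009602c004d015802600a80158052006601a002200c001d804c010c02200b40050055001002600000028a2c00080040014302000c02e003f016002100ac01000540094029001d00d000880600094026005c011004e002802480080104000001421800080000009d8100050000004e4080018008009c002000a0008160483)))) 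
(.nd (nat_lit 26) (.lf (nat_lit 1879957625) (dlOf (nat_lit 1) (nat_lit 0x60028490081))) 
(.lf (nat_lit 1007542393) (dlOf (nat_lit 1) (nat_lit 0x60028490081)))))))) (.nd (nat_lit 7) 
(.nd (nat_lit 15) (.nd (nat_lit 21) (.nd (nat_lit 26) (.nd (nat_lit 10) 
(.lf (nat_lit 1476485497) (dlOf (nat_lit 1) (nat_lit 0x80018010b01))) 
(.lf (nat_lit 4697711993) (dlOf (nat_lit 1) (nat_lit 0x20028093501)))) (.nd (nat_lit 11) 
(.lf (nat_lit 2080465273) (dlOf (nat_lit 2) (nat_lit 0x2801c800584080038008001c00200080008091003))) 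
(.lf (nat_lit 1409378681) (dlOf (nat_lit 1) (nat_lit 0x400200020008004e82))))) (.nd (nat_lit 11) 
(.nd (nat_lit 9) (.nd (nat_lit 10) 
(.lf (nat_lit 1881235833) (dlOf (nat_lit 1) (nat_lit 0x8008000400200020008e81003))) 
(.lf (nat_lit 8222073) (dlOf (nat_lit 1) (nat_lit 0x80018519901)))) 
(.lf (nat_lit 20013945) (dlOf (nat_lit 1) (nat_lit 0x4004000200089d2582)))) (.nd (nat_lit 18) 
(.lf (nat_lit 62482809) (dlOf (nat_lit 1) (nat_lit 0x4004000200099a4e82))) 
(.lf (nat_lit 36530553) (dlOf (nat_lit 1) (nat_lit 0x20019074e81)))))) (.nd (nat_lit 10) 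
(.nd (nat_lit 11) (.nd (nat_lit 18) 
(.lf (nat_lit 5503050105) (dlOf (nat_lit 1) (nat_lit 0x228008000c00201cc0008035883))) 
(.lf (nat_lit 134603129) (dlOf (nat_lit 2) (nat_lit 0x2c0760074502004e0028090781)))) 
(.nd (nat_lit 9) (.lf (nat_lit 1677851001) (dlOf (nat_lit 1) (nat_lit 0x2002811ae01))) 
(.lf (nat_lit 805436281) (dlOf (nat_lit 1) (nat_lit 0x4000800040020002000811bc83))))) 
(.nd (nat_lit 18) (.nd (nat_lit 27) 
(.lf (nat_lit 1610737017) (dlOf (nat_lit 2) (nat_lit 0x4405200016018093500))) 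
(.lf (nat_lit 4697744761) (dlOf (nat_lit 1) (nat_lit 0x400200020008093502)))) 
(.lf (nat_lit 8250745) (dlOf (nat_lit 1) (nat_lit 0x400200020008513502)))))) (.nd (nat_lit 9) 
(.nd (nat_lit 10) (.nd (nat_lit 15) (.nd (nat_lit 27) 
(.lf (nat_lit 2483118585) (dlOf (nat_lit 1) (nat_lit 0xc00200040008017802))) 
(.lf (nat_lit 2348900857) (dlOf (nat_lit 3) (nat_lit 0x3740000002f0201e600000016818017e00)))) 
(.lf (nat_lit 134603257) (dlOf (nat_lit 1) (nat_lit 0x1c0008090d81)))) (.nd (nat_lit 18) 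
(.nd (nat_lit 26) (.lf (nat_lit 4697712121) (dlOf (nat_lit 1) (nat_lit 0x20028093681))) 
(.lf (nat_lit 6241215993) (dlOf (nat_lit 2) (nat_lit 0x10098000d8080088008000c00200120008053683)))) 
(.nd (nat_lit 11) (.lf (nat_lit 4096091641) (dlOf (nat_lit 1) (nat_lit 0x200280e3681))) 
(.lf (nat_lit 3490573817) (dlOf (nat_lit 1) (nat_lit 0x400400020008006f82)))))) (.nd (nat_lit 10) 
(.nd (nat_lit 19) (.nd (nat_lit 20) 
(.lf (nat_lit 2751554553) (dlOf (nat_lit 1) (nat_lit 0x400200020008002882))) 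
(.lf (nat_lit 1345414137) (dlOf (nat_lit 1) (nat_lit 0x400200140008bb2882)))) (.nd (nat_lit 11) 
(.lf (nat_lit 38396921) (dlOf (nat_lit 1) (nat_lit 0x20009132881))) 
(.lf (nat_lit 69823481) (dlOf (nat_lit 1) (nat_lit 0x20018cd5f01))))) (.nd (nat_lit 15) 
(.nd (nat_lit 23) (.lf (nat_lit 939616249) (dlOf (nat_lit 1) (nat_lit 0x60008144681))) 
(.lf (nat_lit 8480761) (dlOf (nat_lit 1) (nat_lit 0x2800200040008514682)))) 
(.lf (nat_lit 124921) (dlOf (nat_lit 1) (nat_lit 0x180018004681)))))))))))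

end

end Pool.Agent.Lib.MP_5854e1_co.Cz

namespace Pool.Agent.Lib.MP_5854e1_co.Cz

noncomputable section

noncomputable def tz104 : DT := (.nd (nat_lit 18) (.nd (nat_lit 5) (.nd (nat_lit 4) 
(.nd (nat_lit 6) (.nd (nat_lit 26) (.nd (nat_lit 21) (.nd (nat_lit 15) (.nd (nat_lit 10) 
(.nd (nat_lit 20) 
(.lf (nat_lit 55074820) (dlOf (nat_lit 5) (nat_lit 0x104f8001025a0012102000501e8064742000404f8002025a0016102000501e8064702000504f8002825a0016102000a01e80646c2000504f8002825a0014102000901e8064682000500080008002000400096a0003))) 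
(.nd (nat_lit 23) (.lf (nat_lit 3491258372) (dlOf (nat_lit 1) (nat_lit 0xec0018080001))) 
(.lf (nat_lit 9986052) (dlOf (nat_lit 7) (nat_lit 0xfa430008d1d8004e77001d4a0c003f486001ba3f0004ced003a9018003691400234820013a3b000ccee0038c4200066914001f4820011a3b0009cee0038c02000a691400234820015a3b000bcee0038bc2000b6914001f4820015a3b000bcee0038b82000400080010002005c00085a0003))))) 
(.nd (nat_lit 7) (.nd (nat_lit 12) 
(.lf (nat_lit 28164) (dlOf (nat_lit 1) (nat_lit 0x400400020008007002))) 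
(.lf (nat_lit 2952822276) (dlOf (nat_lit 2) (nat_lit 0x260130052d81800cd00)))) 
(.lf (nat_lit 1342205060) (dlOf (nat_lit 1) (nat_lit 0x60008006101))))) (.nd (nat_lit 9) 
(.nd (nat_lit 19) (.nd (nat_lit 7) 
(.lf (nat_lit 21028868) (dlOf (nat_lit 1) (nat_lit 0xa8008000400200020008a00283))) 
(.lf (nat_lit 134277508) (dlOf (nat_lit 1) (nat_lit 0x820018004e81)))) (.nd (nat_lit 23) 
(.lf (nat_lit 1611194372) (dlOf (nat_lit 1) (nat_lit 0xa0028110001))) 
(.lf (nat_lit 42524676) (dlOf (nat_lit 1) (nat_lit 0x40019260001))))) (.nd (nat_lit 10) 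
(.lf (nat_lit 671146500) (dlOf (nat_lit 5) (nat_lit 0x280a0000fa0400140500007c0200140280003a8100090140001cc0800100080130002000200080b0d83))) 
(.nd (nat_lit 27) (.lf (nat_lit 5100332548) (dlOf (nat_lit 1) (nat_lit 0x20028053681))) 
(.lf (nat_lit 6308292100) (dlOf (nat_lit 3) (nat_lit 0x100c80011808000806000074040008004000e0008053682))))))) 
(.nd (nat_lit 19) (.nd (nat_lit 23) (.nd (nat_lit 7) 
(.lf (nat_lit 40919300) (dlOf (nat_lit 1) (nat_lit 0xe0029203581))) (.nd (nat_lit 20) 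
(.lf (nat_lit 3491782788) (dlOf (nat_lit 1) (nat_lit 0x400400020008090102))) 
(.lf (nat_lit 24141956) (dlOf (nat_lit 1) (nat_lit 0x20008b80101))))) (.nd (nat_lit 15) 
(.nd (nat_lit 22) (.lf (nat_lit 27287556) (dlOf (nat_lit 1) (nat_lit 0x4000400100018cc0002))) 
(.lf (nat_lit 14704644) (dlOf (nat_lit 1) (nat_lit 0x400200020008770002)))) 
(.lf (nat_lit 14737412) (dlOf (nat_lit 1) (nat_lit 0x400200020008770002))))) (.nd (nat_lit 15) 
(.nd (nat_lit 20) (.nd (nat_lit 10) 
(.lf (nat_lit 2646020) (dlOf (nat_lit 6) (nat_lit 0x40e880018654000409e01c6a0600061d100060e000030654000809e01c690800021d1000e0e000060654003009e01c680800061d100010e000060654003009e01c670800021d500050e4805c501000c00080084002000e0008180003))) 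
(.lf (nat_lit 1881695236) (dlOf (nat_lit 1) (nat_lit 0x10008000400200020008fe2883)))) 
(.nd (nat_lit 9) (.lf (nat_lit 33054724) (dlOf (nat_lit 1) (nat_lit 0x20028f50001))) 
(.lf (nat_lit 58221060) (dlOf (nat_lit 1) (nat_lit 0x200297c7b01))))) (.nd (nat_lit 7) 
(.nd (nat_lit 22) 
(.lf (nat_lit 3493388292) (dlOf (nat_lit 1) (nat_lit 0x20008000800200040008130003))) 
(.lf (nat_lit 24698884) (dlOf (nat_lit 1) (nat_lit 0x80028bb0001)))) 
(.lf (nat_lit 1345904772) (dlOf (nat_lit 1) (nat_lit 0x140028e13a01))))))) (.nd (nat_lit 28) 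
(.nd (nat_lit 10) (.nd (nat_lit 15) (.nd (nat_lit 7) (.nd (nat_lit 8) 
(.lf (nat_lit 2753060868) (dlOf (nat_lit 1) (nat_lit 0xec0018080001))) 
(.lf (nat_lit 604008708) (dlOf (nat_lit 1) (nat_lit 0x120018008081)))) 
(.lf (nat_lit 2753585284) (dlOf (nat_lit 1) (nat_lit 0x400400020008090102)))) (.nd (nat_lit 7) 
(.nd (nat_lit 20) (.lf (nat_lit 738779140) (dlOf (nat_lit 1) (nat_lit 0xa0028110001))) 
(.lf (nat_lit 2755190788) (dlOf (nat_lit 1) (nat_lit 0x20008000800200040008130003)))) 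
(.lf (nat_lit 5972746628) (dlOf (nat_lit 1) (nat_lit 0x4004000200080b0782))))) (.nd (nat_lit 11) 
(.nd (nat_lit 27) (.lf (nat_lit 4899005956) (dlOf (nat_lit 1) (nat_lit 0x20028053681))) 
(.lf (nat_lit 4496352772) (dlOf (nat_lit 1) (nat_lit 0x20028053681)))) (.nd (nat_lit 7) 
(.nd (nat_lit 15) 
(.lf (nat_lit 5972717060) (dlOf (nat_lit 1) (nat_lit 0x10008000400200020008007003))) 
(.lf (nat_lit 1677782532) (dlOf (nat_lit 1) (nat_lit 0x60028007001)))) 
(.lf (nat_lit 3288399236) (dlOf (nat_lit 1) (nat_lit 0xc00020012000800c902)))))) (.nd (nat_lit 8) 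
(.nd (nat_lit 9) (.nd (nat_lit 7) (.nd (nat_lit 19) 
(.lf (nat_lit 470867972) (dlOf (nat_lit 3) (nat_lit 0x8c02b60063e02003e15b003190181c0000))) 
(.lf (nat_lit 474537988) (dlOf (nat_lit 1) (nat_lit 0x200091a0001)))) 
(.lf (nat_lit 1409867908) (dlOf (nat_lit 1) (nat_lit 0x400400020018090102)))) (.nd (nat_lit 27) 
(.nd (nat_lit 29) (.lf (nat_lit 1409868292) (dlOf (nat_lit 1) (nat_lit 0x14400400260008090d82))) 
(.lf (nat_lit 4094222852) (dlOf (nat_lit 1) (nat_lit 0x400400020008018002)))) 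
(.lf (nat_lit 470344196) (dlOf (nat_lit 1) (nat_lit 0x4002005400080c0d82))))) (.nd (nat_lit 7) 
(.nd (nat_lit 9) (.nd (nat_lit 12) 
(.lf (nat_lit 474013956) (dlOf (nat_lit 1) (nat_lit 0x40029000a81))) 
(.lf (nat_lit 469790980) (dlOf (nat_lit 1) (nat_lit 0x400400040018008082)))) 
(.lf (nat_lit 4093700868) (dlOf (nat_lit 1) (nat_lit 0x400400020008005a82)))) (.nd (nat_lit 9) 
(.lf (nat_lit 470311300) (dlOf (nat_lit 1) (nat_lit 0x200080c0781))) 
(.lf (nat_lit 474016644) (dlOf (nat_lit 1) (nat_lit 0x400200020009005c02)))))))) (.nd (nat_lit 8) 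
(.nd (nat_lit 19) (.nd (nat_lit 15) (.nd (nat_lit 7) (.nd (nat_lit 9) (.nd (nat_lit 10) 
(.nd (nat_lit 22) (.lf (nat_lit 16801860) (dlOf (nat_lit 1) (nat_lit 0x8002000200088e0002))) 
(.lf (nat_lit 12607556) (dlOf (nat_lit 1) (nat_lit 0x3880080048002005000086d0d03)))) 
(.lf (nat_lit 2952821828) (dlOf (nat_lit 4) (nat_lit 0x264026004c60200380130026281002700980131008022000800d4002005a000800bf03)))) 
(.nd (nat_lit 10) (.nd (nat_lit 11) 
(.lf (nat_lit 3422577220) (dlOf (nat_lit 7) (nat_lit 0x8037001001a8000541000080dc0002804001006e00200350000602001001d800200dc004006a0000b0600080370000201000a01b800800d40000008001c00400060008001582))) 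
(.lf (nat_lit 201357892) (dlOf (nat_lit 1) (nat_lit 0x180020006000800b502)))) 
(.lf (nat_lit 5435844164) (dlOf (nat_lit 1) (nat_lit 0x800400020008003802))))) (.nd (nat_lit 10) 
(.nd (nat_lit 9) (.nd (nat_lit 20) 
(.lf (nat_lit 3493880004) (dlOf (nat_lit 2) (nat_lit 0x5030000000040018002001200081b0402))) 
(.lf (nat_lit 30433476) (dlOf (nat_lit 1) (nat_lit 0x280080004002000c0008e30483)))) 
(.lf (nat_lit 29380) (dlOf (nat_lit 1) (nat_lit 0x400400020008008c82)))) (.nd (nat_lit 11) 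
(.lf (nat_lit 32531652) (dlOf (nat_lit 2) (nat_lit 0xc8a9a00203f200012828ef2d00))) 
(.lf (nat_lit 1946184900) (dlOf (nat_lit 1) (nat_lit 0x8008000400200020008006383)))))) 
(.nd (nat_lit 23) (.nd (nat_lit 7) (.nd (nat_lit 24) 
(.lf (nat_lit 671146052) (dlOf (nat_lit 1) (nat_lit 0xc004000600080b0002))) 
(.lf (nat_lit 16834628) (dlOf (nat_lit 1) (nat_lit 0x80080004002000200088e0003)))) (.nd (nat_lit 9) 
(.nd (nat_lit 26) (.lf (nat_lit 671146180) (dlOf (nat_lit 1) (nat_lit 0x400280b0401))) 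
(.lf (nat_lit 1543561412) (dlOf (nat_lit 1) (nat_lit 0x400280b0401)))) 
(.lf (nat_lit 1342238404) (dlOf (nat_lit 1) (nat_lit 0x8008000800200060008007283))))) 
(.nd (nat_lit 20) (.nd (nat_lit 21) 
(.lf (nat_lit 12640324) (dlOf (nat_lit 4) (nat_lit 0x44e9000170100022748000b40800195f800022040038002000400086d0d02))) 
(.lf (nat_lit 14737476) (dlOf (nat_lit 2) (nat_lit 0x51fbc0007804003800200040008770582)))) 
(.nd (nat_lit 7) (.nd (nat_lit 9) 
(.lf (nat_lit 26271812) (dlOf (nat_lit 1) (nat_lit 0x10008000400200aa0008c30583))) 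
(.lf (nat_lit 11592260) (dlOf (nat_lit 1) (nat_lit 0x4002000200086c1102)))) 
(.lf (nat_lit 32564420) (dlOf (nat_lit 2) (nat_lit 0x38fc80004a0400a000400280018ef2d02))))))) 
(.nd (nat_lit 21) (.nd (nat_lit 26) (.nd (nat_lit 9) (.nd (nat_lit 15) 
(.lf (nat_lit 3221774404) (dlOf (nat_lit 1) (nat_lit 0x280080038002000e0008180e03))) 
(.lf (nat_lit 35184708) (dlOf (nat_lit 1) (nat_lit 0x20028ff0601)))) 
(.lf (nat_lit 1342726724) (dlOf (nat_lit 8) (nat_lit 0x30e280013c0800e0714000980400302a800044020028154000210100140aa00010008002855000102a20003b0400241540001c0180c1100)))) 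
(.nd (nat_lit 9) (.nd (nat_lit 27) 
(.lf (nat_lit 4362625092) (dlOf (nat_lit 4) (nat_lit 0x2a0000001c8100030000000e00803c000000000040004004002200180b0d02))) 
(.lf (nat_lit 4228407364) (dlOf (nat_lit 4) (nat_lit 0x2a0000001c8100030000000e00803c000000000040004004002200180b0d02)))) 
(.lf (nat_lit 470311492) (dlOf (nat_lit 8) (nat_lit 0x30e280013c0800e0714000980400302a800044020028154000210100140aa00010008002855000102a20003b0400241540001c0180c1100))))) 
(.nd (nat_lit 31) (.nd (nat_lit 7) 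
(.lf (nat_lit 3694660) (dlOf (nat_lit 3) (nat_lit 0x140000003002000800000015018210e00))) 
(.nd (nat_lit 9) 
(.lf (nat_lit 1344824516) (dlOf (nat_lit 2) (nat_lit 0x3859c0005c04001400200060008982d02))) 
(.lf (nat_lit 49834692) (dlOf (nat_lit 1) (nat_lit 0x8002000400094c5802))))) (.nd (nat_lit 20) 
(.lf (nat_lit 2754109508) (dlOf (nat_lit 2) (nat_lit 0x60844000a8040058004002e00180c1882))) 
(.nd (nat_lit 26) 
(.lf (nat_lit 3493355588) (dlOf (nat_lit 2) (nat_lit 0x7c38a00121ae00002828120e80))) 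
(.lf (nat_lit 2755158084) (dlOf (nat_lit 2) (nat_lit 0x7c3ae00121c300002828120e80)))))))) 
(.nd (nat_lit 9) (.nd (nat_lit 15) (.nd (nat_lit 7) (.nd (nat_lit 29) (.nd (nat_lit 10) 
(.nd (nat_lit 11) 
(.lf (nat_lit 3493880132) (dlOf (nat_lit 5) (nat_lit 0x3b40c00002e8101660600001600800282e0000560400081800000002000200281b0601))) 
(.lf (nat_lit 31044) (dlOf (nat_lit 1) (nat_lit 0x200040004001800ab82)))) 
(.lf (nat_lit 50357572) (dlOf (nat_lit 1) (nat_lit 0x80080014002000600094c3303)))) 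
(.nd (nat_lit 10) (.nd (nat_lit 11) 
(.lf (nat_lit 2755682628) (dlOf (nat_lit 1) (nat_lit 0x200181b0601))) 
(.lf (nat_lit 536897860) (dlOf (nat_lit 1) (nat_lit 0xa0018004d01)))) 
(.lf (nat_lit 604009796) (dlOf (nat_lit 1) (nat_lit 0x60028009901))))) (.nd (nat_lit 20) 
(.nd (nat_lit 26) 
(.lf (nat_lit 1342726596) (dlOf (nat_lit 18) (nat_lit 0x60855000c82a20004f04032c15400320a8800138100cb055000c82a20004d04026e15400320a88001301009c8550000880406642a80004302033e154000210101990aa001905440007a08050c2a80003c0202741540001d01009c0aa0000e40809b0550000700406702a8008c1510001b8200050aa0000d00808a855000c82a20003304003a15400320a88000441003b8550000000400a8004009000180c0902))) 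
(.lf (nat_lit 470311364) (dlOf (nat_lit 18) (nat_lit 0x60855000c82a20004f04032c15400320a8800138100cb055000c82a20004d04026e15400320a88001301009c8550000880406642a80004302033e154000210101990aa001905440007a08050c2a80003c0202741540001d01009c0aa0000e40809b0550000700406702a8008c1510001b8200050aa0000d00808a855000c82a20003304003a15400320a88000441003b8550000000400a8004009000180c0902)))) 
(.lf (nat_lit 58220996) (dlOf (nat_lit 1) (nat_lit 0x400197c7001))))) (.nd (nat_lit 27) 
(.nd (nat_lit 7) (.nd (nat_lit 10) 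
(.lf (nat_lit 3493912900) (dlOf (nat_lit 3) (nat_lit 0x1010000011808012883c0005604002c002002e00081b0602))) 
(.lf (nat_lit 4093699396) (dlOf (nat_lit 1) (nat_lit 0x20028003301)))) 
(.lf (nat_lit 50913732) (dlOf (nat_lit 1) (nat_lit 0x1000194d7a81)))) (.nd (nat_lit 26) 
(.nd (nat_lit 29) 
(.lf (nat_lit 1208017220) (dlOf (nat_lit 2) (nat_lit 0x700a40000004000c002000a0008090c02))) 
(.lf (nat_lit 671146308) (dlOf (nat_lit 3) (nat_lit 0xe00260002781006a013000134080028008007c002001a00080b0603)))) 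
(.lf (nat_lit 1543561540) (dlOf (nat_lit 3) (nat_lit 0xe00260002b01006a013000150080028008007c002001a00080b0603)))))) 
(.nd (nat_lit 7) (.nd (nat_lit 30) (.nd (nat_lit 10) (.nd (nat_lit 12) 
(.lf (nat_lit 6710913860) (dlOf (nat_lit 1) (nat_lit 0x1c00400200008005c02))) 
(.lf (nat_lit 19954500) (dlOf (nat_lit 1) (nat_lit 0x1800189dbc81)))) 
(.lf (nat_lit 201385796) (dlOf (nat_lit 1) (nat_lit 0x60028003e01)))) (.nd (nat_lit 10) 
(.nd (nat_lit 15) 
(.lf (nat_lit 5368736580) (dlOf (nat_lit 2) (nat_lit 0x8040002c804000400400160008005c02))) 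
(.lf (nat_lit 5704313668) (dlOf (nat_lit 4) (nat_lit 0x14032000400a000f004800584180038060001c0100009d04000c0180002004000238100018008000800200040008055c03)))) 
(.lf (nat_lit 1073768260) (dlOf (nat_lit 1) (nat_lit 0x10008000400200020008003e03))))) 
(.nd (nat_lit 10) (.nd (nat_lit 12) (.nd (nat_lit 19) 
(.lf (nat_lit 1275096004) (dlOf (nat_lit 1) (nat_lit 0x40018005d81))) 
(.lf (nat_lit 20474820) (dlOf (nat_lit 1) (nat_lit 0x200189d5d81)))) 
(.lf (nat_lit 3489692612) (dlOf (nat_lit 1) (nat_lit 0x800800040020002000800be03)))) 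
(.nd (nat_lit 19) (.lf (nat_lit 201357252) (dlOf (nat_lit 1) (nat_lit 0x4004000c000800a602))) 
(.lf (nat_lit 2752018372) (dlOf (nat_lit 1) (nat_lit 0x6c004004e000800a602))))))))) 
(.nd (nat_lit 15) (.nd (nat_lit 7) (.nd (nat_lit 19) (.nd (nat_lit 27) (.nd (nat_lit 6) 
(.nd (nat_lit 8) 
(.lf (nat_lit 13656084) (dlOf (nat_lit 3) (nat_lit 0xb2f47c0008c0405c3a3e0004502001a0018740181))) 
(.nd (nat_lit 9) 
(.lf (nat_lit 1342208276) (dlOf (nat_lit 8) (nat_lit 0xe0180003301001204e800402380009c08008813a002608e0002682000504e800118080098274003011c0004504001609d0001f81002204e800582380007a0800040020016000800aa82))) 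
(.lf (nat_lit 4026558228) (dlOf (nat_lit 2) (nat_lit 0x4806201e402300011828003c00))))) 
(.nd (nat_lit 9) (.nd (nat_lit 23) 
(.lf (nat_lit 16801876) (dlOf (nat_lit 1) (nat_lit 0x8002000400088e0282))) 
(.lf (nat_lit 25190484) (dlOf (nat_lit 3) (nat_lit 0x5442f00019810021000000094080010008000c00200040008bf0d83)))) 
(.nd (nat_lit 26) 
(.lf (nat_lit 2684379732) (dlOf (nat_lit 7) (nat_lit 0x8037001001a8000541000080dc0002804001006e00200350000602001001d800200dc004006a0000b0600080370000201000a01b800800d40000008001c00400060008001682))) 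
(.lf (nat_lit 67134036) (dlOf (nat_lit 2) (nat_lit 0x30154000380200040008001681)))))) 
(.nd (nat_lit 8) (.nd (nat_lit 6) (.nd (nat_lit 9) (.nd (nat_lit 10) 
(.lf (nat_lit 470835220) (dlOf (nat_lit 2) (nat_lit 0x10d4002e0c0800180080010002000800081c0483))) 
(.lf (nat_lit 5301627924) (dlOf (nat_lit 2) (nat_lit 0x301800005c080088008002400200180008005f83)))) 
(.lf (nat_lit 738223636) (dlOf (nat_lit 1) (nat_lit 0x20008003701)))) (.nd (nat_lit 26) 
(.lf (nat_lit 1476426324) (dlOf (nat_lit 2) (nat_lit 0x8000009640400780020076000800b682))) 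
(.lf (nat_lit 3691018836) (dlOf (nat_lit 6) (nat_lit 0x2800c00131c0800a80740097e04002403a004bd0200380000025901001000b0000000802b000800b0002001c000800b683))))) 
(.nd (nat_lit 10) (.nd (nat_lit 26) 
(.lf (nat_lit 1476426004) (dlOf (nat_lit 11) (nat_lit 0xf001c00300000005d040026017000b0038004001800940000005c080024017000100b0001001c002800c0012002000900080100000000a21c005c02e000c01600080080004801c004400c001000400080010005800400a00000005012001e017001300380013010007805c001000e00045040022017000b00380010810009805c005c00e0003f04000e01700090038000f41000d000000008040138002012a000800aa82))) 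
(.lf (nat_lit 3691018516) (dlOf (nat_lit 17) (nat_lit 0x8700a00017c0801e806003e0028001a013001e0088001742005f8050000b804008c03001ea0140002a82004301580d7806c009403200dc018007f00a0008003c01b8000000540e003402b017000d8002806400c40300106014001f0088009803c006800a005c000000298900a900a0001480800f806003b00280012011003d007800144200368050000a0040558036003e01800f000a000580440008a1004040280003f02018e0140001c81004400a0000e00802400740005c04001403a0002d02000201d002900a0000101004c00080c40002013c000800aa83)))) 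
(.lf (nat_lit 4160779540) (dlOf (nat_lit 2) (nat_lit 0x6c028000000200080008009681)))))) 
(.nd (nat_lit 21) (.nd (nat_lit 27) (.nd (nat_lit 6) (.nd (nat_lit 20) 
(.lf (nat_lit 4362625044) (dlOf (nat_lit 1) (nat_lit 0x110002008e00080b0582))) 
(.lf (nat_lit 5791764) (dlOf (nat_lit 1) (nat_lit 0x4004000200083e0302)))) 
(.lf (nat_lit 67657812) (dlOf (nat_lit 1) (nat_lit 0x200282d0281)))) (.nd (nat_lit 6) 
(.nd (nat_lit 26) (.lf (nat_lit 2819121172) (dlOf (nat_lit 2) (nat_lit 0x24036000000181a0480))) 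
(.lf (nat_lit 4228407316) (dlOf (nat_lit 1) (nat_lit 0x1cc002004600080b0582)))) 
(.lf (nat_lit 3154665556) (dlOf (nat_lit 2) (nat_lit 0x400510005012000180740006c0c002c004003e0018310282))))) 
(.nd (nat_lit 20) (.nd (nat_lit 22) (.nd (nat_lit 23) 
(.lf (nat_lit 2646036) (dlOf (nat_lit 1) (nat_lit 0x5e0008180181))) 
(.lf (nat_lit 44589076) (dlOf (nat_lit 1) (nat_lit 0x8008000c00200060009320003)))) (.nd (nat_lit 9) 
(.lf (nat_lit 23617556) (dlOf (nat_lit 1) (nat_lit 0x80018b80001))) 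
(.lf (nat_lit 40397332) (dlOf (nat_lit 2) (nat_lit 0x257ee0002202000200191f5081))))) 
(.nd (nat_lit 9) (.nd (nat_lit 26) 
(.lf (nat_lit 3493355540) (dlOf (nat_lit 1) (nat_lit 0x20018120881))) 
(.lf (nat_lit 2755158036) (dlOf (nat_lit 1) (nat_lit 0x20018120881)))) 
(.lf (nat_lit 1345872404) (dlOf (nat_lit 4) (nat_lit 0x1022e000770200021170003b01000508b8000000800e80080018002000a0008e07d03))))))) 
(.nd (nat_lit 6) (.nd (nat_lit 9) (.nd (nat_lit 10) (.nd (nat_lit 8) (.nd (nat_lit 21) 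
(.lf (nat_lit 29909140) (dlOf (nat_lit 1) (nat_lit 0xa0028e30481))) 
(.lf (nat_lit 23617684) (dlOf (nat_lit 1) (nat_lit 0x20018b80181)))) 
(.lf (nat_lit 37251476) (dlOf (nat_lit 1) (nat_lit 0x4002003200090d4e82)))) (.nd (nat_lit 8) 
(.nd (nat_lit 19) 
(.lf (nat_lit 472933524) (dlOf (nat_lit 1) (nat_lit 0x9b000803f4002008c0008b52b83))) 
(.lf (nat_lit 39347348) (dlOf (nat_lit 2) (nat_lit 0x16bbe000790200020029192b81)))) 
(.lf (nat_lit 69756308) (dlOf (nat_lit 1) (nat_lit 0x20028bf3601))))) (.nd (nat_lit 8) 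
(.nd (nat_lit 26) (.nd (nat_lit 27) 
(.lf (nat_lit 2684384916) (dlOf (nat_lit 7) (nat_lit 0xc00e00050000000c0100070038001c0000002e04001a00e00070000000b41000500380000804002c00000003020008010000500700010000000000c000800400100018009e82))) 
(.lf (nat_lit 2281731732) (dlOf (nat_lit 3) (nat_lit 0x1404e001602600012820005013800580980004808004800400320018009e82)))) 
(.lf (nat_lit 6643807892) (dlOf (nat_lit 4) (nat_lit 0xd806a000e034000c0000000641801a00d4001406800120000000903002f01a800080d00014000000000600020028009e81)))) 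
(.nd (nat_lit 26) (.lf (nat_lit 31636) (dlOf (nat_lit 1) (nat_lit 0x4002800bc81))) 
(.lf (nat_lit 4227890068) (dlOf (nat_lit 2) (nat_lit 0x1280c80139c0400200040010001800bc82)))))) 
(.nd (nat_lit 28) (.nd (nat_lit 8) (.nd (nat_lit 10) 
(.lf (nat_lit 1073364) (dlOf (nat_lit 1) (nat_lit 0x860018065b81))) 
(.lf (nat_lit 134249684) (dlOf (nat_lit 1) (nat_lit 0x800800100020002000800c383)))) 
(.nd (nat_lit 10) (.nd (nat_lit 12) 
(.lf (nat_lit 5368736724) (dlOf (nat_lit 1) (nat_lit 0x58008000c00200080008005d83))) 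
(.lf (nat_lit 604011476) (dlOf (nat_lit 4) (nat_lit 0x2802c000a0070004000001444180168058008000e004b2040004016000500380000010009000800380020072000800bf03)))) 
(.lf (nat_lit 4429211604) (dlOf (nat_lit 1) (nat_lit 0xc00400060018004502))))) (.nd (nat_lit 8) 
(.nd (nat_lit 11) (.lf (nat_lit 3493880020) (dlOf (nat_lit 2) (nat_lit 0x260c0000038181b0480))) 
(.lf (nat_lit 1006659796) (dlOf (nat_lit 1) (nat_lit 0x20018004a01)))) (.nd (nat_lit 12) 
(.lf (nat_lit 6710914004) (dlOf (nat_lit 4) (nat_lit 0x28058001800a0001904000c016000100a80030014000240c001802c000401500070028000001800800080020002000a0008005d83))) 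
(.nd (nat_lit 26) 
(.lf (nat_lit 2952821716) (dlOf (nat_lit 11) (nat_lit 0x42002600511020174013002648100af0098013200800380600408026004c7040214013002618100030170004807805c40340086018003900b8079004c00b8022005600c0037002801a000800964280004026004aa0201e001300252010055009800fe408006006002dc026004e00f00350000000002003e80080ba8002004c000800bf03))) 
(.lf (nat_lit 469793748) (dlOf (nat_lit 3) (nat_lit 0x1409d0008047000701f800a220c00bc13a005608e0025902800bf00))))))))) 
(.nd (nat_lit 28) (.nd (nat_lit 6) (.nd (nat_lit 11) (.nd (nat_lit 19) (.nd (nat_lit 8) 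
(.lf (nat_lit 15786004) (dlOf (nat_lit 2) (nat_lit 0x7a37c0005004000800400080008830302))) 
(.nd (nat_lit 12) 
(.lf (nat_lit 201385748) (dlOf (nat_lit 2) (nat_lit 0x7800f4000c074018603800e301980008c200018008001400200020008003c03))) 
(.lf (nat_lit 19986196) (dlOf (nat_lit 1) (nat_lit 0x400289da001))))) (.nd (nat_lit 7) 
(.nd (nat_lit 21) (.lf (nat_lit 1630228) (dlOf (nat_lit 1) (nat_lit 0x11c00200040008100402))) 
(.lf (nat_lit 3727380) (dlOf (nat_lit 1) (nat_lit 0xc00400080008220582)))) 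
(.lf (nat_lit 23650452) (dlOf (nat_lit 4) (nat_lit 0x9eb41806457f00008c080262d06015f5fc00022820098b41805757f00007008006c00200200008b80182))))) 
(.nd (nat_lit 7) (.nd (nat_lit 9) (.nd (nat_lit 12) 
(.lf (nat_lit 5033225236) (dlOf (nat_lit 1) (nat_lit 0x400400020008005f82))) 
(.lf (nat_lit 67173396) (dlOf (nat_lit 2) (nat_lit 0x102c400a34020002000800bf01)))) 
(.nd (nat_lit 26) 
(.lf (nat_lit 536934932) (dlOf (nat_lit 1) (nat_lit 0x2800800180020004000800b283))) 
(.lf (nat_lit 2348874260) (dlOf (nat_lit 3) (nat_lit 0x7c020000c00e005fe020008008002fec0800f0008006c0020070000800b283))))) 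
(.nd (nat_lit 8) (.lf (nat_lit 2147543700) (dlOf (nat_lit 1) (nat_lit 0x400400020008095502))) 
(.nd (nat_lit 20) (.lf (nat_lit 69790100) (dlOf (nat_lit 1) (nat_lit 0x80018c74e81))) 
(.lf (nat_lit 37284244) (dlOf (nat_lit 1) (nat_lit 0x4002004000090d4e82))))))) (.nd (nat_lit 8) 
(.nd (nat_lit 19) (.nd (nat_lit 20) (.nd (nat_lit 23) 
(.lf (nat_lit 16834644) (dlOf (nat_lit 2) (nat_lit 0x4cbea0003602000a00288e0281))) 
(.lf (nat_lit 25223252) (dlOf (nat_lit 2) (nat_lit 0x83b16000310200020018bf0d81)))) 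
(.nd (nat_lit 7) (.lf (nat_lit 43049044) (dlOf (nat_lit 1) (nat_lit 0x3200292a0001))) 
(.lf (nat_lit 7397588) (dlOf (nat_lit 1) (nat_lit 0x1000084b0501))))) (.nd (nat_lit 26) 
(.lf (nat_lit 134799444) (dlOf (nat_lit 1) (nat_lit 0x5000400dc00080c1602))) 
(.lf (nat_lit 201908308) (dlOf (nat_lit 1) (nat_lit 0x1600180c1981))))) (.nd (nat_lit 7) 
(.nd (nat_lit 21) (.nd (nat_lit 22) 
(.lf (nat_lit 25747796) (dlOf (nat_lit 1) (nat_lit 0x8008000400200020008c10883))) 
(.lf (nat_lit 29942100) (dlOf (nat_lit 1) (nat_lit 0x800200020008e30882)))) (.nd (nat_lit 9) 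
(.lf (nat_lit 23650644) (dlOf (nat_lit 9) (nat_lit 0x39ed0601c15fc0002b0200d6b41806b57f0000aa08035ed0601ad5fc0002a020033afe00014c0806bda0c035abf8000130401af68300d6afe0000481003e5a0c01f2bf8000110401b568300d7afe00004010002000800b800200280008b80683))) 
(.lf (nat_lit 19983188) (dlOf (nat_lit 1) (nat_lit 0x300080018002000800089d5c03))))) 
(.nd (nat_lit 9) (.nd (nat_lit 11) 
(.lf (nat_lit 8975828) (dlOf (nat_lit 1) (nat_lit 0x20028519b01))) 
(.lf (nat_lit 19983828) (dlOf (nat_lit 1) (nat_lit 0x100080004002000200089d6d03)))) 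
(.lf (nat_lit 8972244) (dlOf (nat_lit 1) (nat_lit 0x108002003a0008514502))))))) (.nd (nat_lit 11) 
(.nd (nat_lit 26) (.nd (nat_lit 20) (.nd (nat_lit 8) 
(.lf (nat_lit 3493912596) (dlOf (nat_lit 2) (nat_lit 0x1620800d208181b0000))) (.nd (nat_lit 31) 
(.lf (nat_lit 939581716) (dlOf (nat_lit 2) (nat_lit 0x4024000400f8008ec1000680080054002001a00080b0483))) 
(.lf (nat_lit 3087065364) (dlOf (nat_lit 2) (nat_lit 0x80000007f02001000080b0481))))) 
(.nd (nat_lit 6) (.nd (nat_lit 31) 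
(.lf (nat_lit 1343283220) (dlOf (nat_lit 2) (nat_lit 0xd00d68017d40802280080014002004800081e0483))) 
(.lf (nat_lit 3490766868) (dlOf (nat_lit 1) (nat_lit 0x40018020481)))) 
(.lf (nat_lit 1343807572) (dlOf (nat_lit 1) (nat_lit 0x400200020008370282))))) (.nd (nat_lit 19) 
(.nd (nat_lit 8) 
(.lf (nat_lit 1543561236) (dlOf (nat_lit 3) (nat_lit 0x1404c00680190035001801a00000348a1000d00320068003003800000690c1800580080078002000e00080b0003))) 
(.lf (nat_lit 469821204) (dlOf (nat_lit 1) (nat_lit 0x800200060008003c02)))) (.nd (nat_lit 7) 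
(.nd (nat_lit 30) (.lf (nat_lit 1007214612) (dlOf (nat_lit 1) (nat_lit 0x60008260381))) 
(.lf (nat_lit 4228440084) (dlOf (nat_lit 2) (nat_lit 0x4502880180140017409000fc03100660180000b02800300080004002005a00080c0283)))) 
(.lf (nat_lit 1409867924) (dlOf (nat_lit 1) (nat_lit 0x8008000400200040008090183)))))) 
(.nd (nat_lit 7) (.nd (nat_lit 8) (.nd (nat_lit 9) 
(.lf (nat_lit 5301660692) (dlOf (nat_lit 1) (nat_lit 0x1e000800ac002009e0008005f83))) 
(.nd (nat_lit 29) (.lf (nat_lit 2415983124) (dlOf (nat_lit 1) (nat_lit 0x2002800b281))) 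
(.lf (nat_lit 4026595860) (dlOf (nat_lit 1) (nat_lit 0x50001800b281))))) (.nd (nat_lit 10) 
(.lf (nat_lit 1342241044) (dlOf (nat_lit 11) (nat_lit 0x8584000c13a0005804000209d0002b81000104700013c0800e8584007013a004008e000270300200b080108274008c11c0004d06001208e0002381000104e8001180800d8584007017c003609d001e0470001142000882740007e04007c2c2004009d00230470000f4180058008000c0020016000800aa83))) 
(.lf (nat_lit 2483088660) (dlOf (nat_lit 2) (nat_lit 0x900a80002a040028004002e0008006702))))) 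
(.nd (nat_lit 6) (.nd (nat_lit 8) 
(.lf (nat_lit 5301660308) (dlOf (nat_lit 1) (nat_lit 0x800400020008005502))) 
(.lf (nat_lit 5704313748) (dlOf (nat_lit 2) (nat_lit 0x680600038010000380400040018055c81)))) 
(.nd (nat_lit 12) (.lf (nat_lit 5704313812) (dlOf (nat_lit 1) (nat_lit 0x400400020018055d82))) 
(.lf (nat_lit 469826516) (dlOf (nat_lit 3) (nat_lit 0x104e8014440800c8584007c17a003009d001c0470012c820002800800100020004000800bf03)))))))))) 
(.nd (nat_lit 7) (.nd (nat_lit 28) (.nd (nat_lit 19) (.nd (nat_lit 4) (.nd (nat_lit 10) 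
(.nd (nat_lit 8) (.nd (nat_lit 9) (.nd (nat_lit 15) 
(.lf (nat_lit 59793444) (dlOf (nat_lit 1) (nat_lit 0x3c002001e0009830702))) (.nd (nat_lit 22) 
(.lf (nat_lit 9494564) (dlOf (nat_lit 5) (nat_lit 0x605c80013c08008077c0006a0400143be0003402000664e00021e4800000100098008000400200060008560583))) 
(.lf (nat_lit 13688868) (dlOf (nat_lit 2) (nat_lit 0x20938a800688080040008003800200100008740483))))) 
(.nd (nat_lit 6) (.lf (nat_lit 1811997220) (dlOf (nat_lit 1) (nat_lit 0x13200080b0e01))) 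
(.lf (nat_lit 604009060) (dlOf (nat_lit 2) (nat_lit 0x701d802914080048008008400200260008008983))))) 
(.nd (nat_lit 6) (.nd (nat_lit 12) 
(.lf (nat_lit 536897828) (dlOf (nat_lit 1) (nat_lit 0x400200020008004b82))) 
(.lf (nat_lit 201357604) (dlOf (nat_lit 1) (nat_lit 0x4c0040014000800ab82)))) 
(.lf (nat_lit 2122084) (dlOf (nat_lit 1) (nat_lit 0x140018150701))))) (.nd (nat_lit 8) 
(.nd (nat_lit 26) (.nd (nat_lit 6) 
(.lf (nat_lit 3355506212) (dlOf (nat_lit 1) (nat_lit 0x20028009c01))) 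
(.lf (nat_lit 3892373092) (dlOf (nat_lit 1) (nat_lit 0x20018083901)))) (.nd (nat_lit 15) 
(.lf (nat_lit 6106932772) (dlOf (nat_lit 2) (nat_lit 0x400b0000000800300080020002002c0008003703))) 
(.lf (nat_lit 4899005988) (dlOf (nat_lit 1) (nat_lit 0x20018053701))))) (.nd (nat_lit 6) 
(.nd (nat_lit 26) 
(.lf (nat_lit 6039827748) (dlOf (nat_lit 5) (nat_lit 0x4001a800800d000580000001e0600360350000d01003d01a800880d0004c00000017060066035000101a00048000000000c0008004000c0008009782))) 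
(.lf (nat_lit 3422582052) (dlOf (nat_lit 9) (nat_lit 0x78038001c01800180000001803000a007000300000005e08005801c001e00000017020013007000680000005a08004401c001800000002820006007000a0000000040800180000000102002400e000d00000000010002800800b000200060008009783)))) 
(.nd (nat_lit 9) (.lf (nat_lit 3959487844) (dlOf (nat_lit 1) (nat_lit 0x1a002800c901))) 
(.lf (nat_lit 536897380) (dlOf (nat_lit 1) (nat_lit 0x20028004001))))))) (.nd (nat_lit 6) 
(.nd (nat_lit 24) (.nd (nat_lit 8) (.nd (nat_lit 12) 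
(.lf (nat_lit 13656116) (dlOf (nat_lit 1) (nat_lit 0x20018740701))) 
(.lf (nat_lit 604008500) (dlOf (nat_lit 1) (nat_lit 0x400200020008007c82)))) 
(.lf (nat_lit 201353524) (dlOf (nat_lit 1) (nat_lit 0x400400020008004c02)))) (.nd (nat_lit 15) 
(.nd (nat_lit 20) (.nd (nat_lit 21) 
(.lf (nat_lit 25190452) (dlOf (nat_lit 2) (nat_lit 0x15c000001cd0200020018bf0b81))) 
(.lf (nat_lit 23093300) (dlOf (nat_lit 1) (nat_lit 0x120028b50781)))) 
(.lf (nat_lit 17850420) (dlOf (nat_lit 1) (nat_lit 0x4004000200088f0f82)))) 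
(.lf (nat_lit 16834612) (dlOf (nat_lit 1) (nat_lit 0x4002000200088e0002))))) (.nd (nat_lit 8) 
(.nd (nat_lit 9) (.nd (nat_lit 15) 
(.lf (nat_lit 2755682420) (dlOf (nat_lit 10) (nat_lit 0x421fa01e20aa80f384e0004680c00742aa002330202d821201930aa8008c4100f3884807b43f403c815501e809c0008c0201248848093c3f4049a155024e09c0008bc200c2084806802aa0022e04029621201630aa8008b41002d084801643f4001c16900690aa0003053c008426e001ed0c0002212000f58181b0080))) 
(.lf (nat_lit 671146100) (dlOf (nat_lit 1) (nat_lit 0x10008000c002001600080b0083)))) 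
(.lf (nat_lit 5435844212) (dlOf (nat_lit 1) (nat_lit 0x10004000e0008003982)))) (.nd (nat_lit 9) 
(.lf (nat_lit 3288361332) (dlOf (nat_lit 1) (nat_lit 0xa40018004e81))) 
(.lf (nat_lit 4429211508) (dlOf (nat_lit 1) (nat_lit 0x1ec00400a80008004082))))))) 
(.nd (nat_lit 15) (.nd (nat_lit 20) (.nd (nat_lit 26) (.nd (nat_lit 6) (.nd (nat_lit 4) 
(.nd (nat_lit 21) (.lf (nat_lit 13131812) (dlOf (nat_lit 1) (nat_lit 0x800400060008700a82))) 
(.lf (nat_lit 11034660) (dlOf (nat_lit 1) (nat_lit 0x2c0008660501)))) 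
(.lf (nat_lit 15228980) (dlOf (nat_lit 2) (nat_lit 0x51a19001dd09802200000004a0c0218002003a00087c0782)))) 
(.nd (nat_lit 8) 
(.lf (nat_lit 3221774436) (dlOf (nat_lit 5) (nat_lit 0x26811c0001c0400d805e000a01400004820035017801780500000808004805e000030200020028181381))) 
(.lf (nat_lit 23617892) (dlOf (nat_lit 2) (nat_lit 0x5b458000d0080068008001c00200020008b80703))))) 
(.nd (nat_lit 27) (.nd (nat_lit 4) (.nd (nat_lit 29) 
(.lf (nat_lit 4362625060) (dlOf (nat_lit 2) (nat_lit 0x2800000e7204000c002000c00080b0a02))) 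
(.lf (nat_lit 1678270500) (dlOf (nat_lit 1) (nat_lit 0x200281c0a01)))) 
(.lf (nat_lit 2756206644) (dlOf (nat_lit 2) (nat_lit 0x2d8868016c3ae001c70400020028220b81)))) 
(.nd (nat_lit 6) 
(.lf (nat_lit 201875492) (dlOf (nat_lit 15) (nat_lit 0x5c01d800e005c000b4080104094008e02f0002b8200ab025005980bc000ac0802f8094017202f0002a820011025000680bc000a808004c094003202f0001b82000b025000180bc0006c080230094012802f0001a8200bc025005b80bc00068080014094000202f0001982002a025001000bc00062080160076000030200ac03b0000101002d0000000000802c00080068002000e00080b0a83))) 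
(.lf (nat_lit 3959971940) (dlOf (nat_lit 2) (nat_lit 0x560178033005000008080078002000a0008181282)))))) 
(.nd (nat_lit 21) (.nd (nat_lit 23) (.nd (nat_lit 25) 
(.lf (nat_lit 2753060900) (dlOf (nat_lit 2) (nat_lit 0x12e1fa00006018080800))) 
(.lf (nat_lit 35151908) (dlOf (nat_lit 1) (nat_lit 0x20008fe0701)))) (.nd (nat_lit 4) 
(.lf (nat_lit 9986084) (dlOf (nat_lit 6) (nat_lit 0x18f2c20005602064195100017810002cee0000ac0801168a40003e0400934520001e02000400285a0b81))) 
(.lf (nat_lit 30957620) (dlOf (nat_lit 1) (nat_lit 0x20018e50c01))))) (.nd (nat_lit 4) 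
(.nd (nat_lit 10) (.lf (nat_lit 16277540) (dlOf (nat_lit 1) (nat_lit 0x340008880601))) 
(.lf (nat_lit 54027300) (dlOf (nat_lit 1) (nat_lit 0x4004000200195f2882)))) 
(.lf (nat_lit 2755158068) (dlOf (nat_lit 3) (nat_lit 0x308700050204001c704003021c0004081000704000038a0c000400200060008120d02)))))) 
(.nd (nat_lit 21) (.nd (nat_lit 26) (.nd (nat_lit 4) (.nd (nat_lit 20) 
(.lf (nat_lit 13164580) (dlOf (nat_lit 1) (nat_lit 0x400200020008700a82))) 
(.lf (nat_lit 10018852) (dlOf (nat_lit 5) (nat_lit 0x64516016a22100348684028804e0005608000c52600062830001541000607c800043cc0000a04003a0a4000000185a0b80)))) 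
(.lf (nat_lit 3221807156) (dlOf (nat_lit 2) (nat_lit 0x2023000048080248008004000200460008191303)))) 
(.nd (nat_lit 4) (.nd (nat_lit 27) 
(.lf (nat_lit 1678303268) (dlOf (nat_lit 2) (nat_lit 0x100000006402000a00181e0a81))) 
(.lf (nat_lit 3960004644) (dlOf (nat_lit 17) (nat_lit 0xe406e000650200b20370003201003901b80018c0803500f0000c00400480780005d02013c03b0001401001101d80009c0803a80f801f001c0001904004803e002b007000a8000000300c02b407c016a00e0000b82007d01f003a803801d401800ce0000000b0400cb01f006080380248000000140600a800000005010006000000014080018000000040401d409800d003c00c0000000000180030008009000200200008190a83)))) 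
(.lf (nat_lit 2756239412) (dlOf (nat_lit 2) (nat_lit 0xc808c0038e04000400400060018220b82))))) 
(.nd (nat_lit 23) (.nd (nat_lit 8) (.nd (nat_lit 20) 
(.lf (nat_lit 23650340) (dlOf (nat_lit 2) (nat_lit 0x402d06020d5fc0065f828b80000))) 
(.lf (nat_lit 24698916) (dlOf (nat_lit 2) (nat_lit 0x45db800080080040008008400200260008bb0883)))) 
(.nd (nat_lit 6) (.lf (nat_lit 23650596) (dlOf (nat_lit 1) (nat_lit 0x14002000a0008b80502))) 
(.lf (nat_lit 23650660) (dlOf (nat_lit 2) (nat_lit 0xeaf88000d0080010008000c00200100008b80703))))) 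
(.nd (nat_lit 4) (.lf (nat_lit 11067428) (dlOf (nat_lit 2) (nat_lit 0x180000001a018660500))) 
(.nd (nat_lit 9) 
(.lf (nat_lit 15261748) (dlOf (nat_lit 2) (nat_lit 0x544e7003b27340004a080100004002600087c0782))) 
(.lf (nat_lit 44624436) (dlOf (nat_lit 2) (nat_lit 0x2af00005c40800c0008000800200220009325183))))))))) 
(.nd (nat_lit 26) (.nd (nat_lit 31) (.nd (nat_lit 4) (.nd (nat_lit 8) (.nd (nat_lit 9) 
(.nd (nat_lit 15) (.lf (nat_lit 805855268) (dlOf (nat_lit 1) (nat_lit 0x200281c0a01))) 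
(.lf (nat_lit 1881202724) (dlOf (nat_lit 2) (nat_lit 0x441c4000360200120008e50701)))) 
(.lf (nat_lit 939581988) (dlOf (nat_lit 1) (nat_lit 0x13200080b0e01)))) (.nd (nat_lit 6) 
(.nd (nat_lit 15) 
(.lf (nat_lit 4697647908) (dlOf (nat_lit 2) (nat_lit 0x800000037a040030002000a0008005c02))) 
(.lf (nat_lit 1346431780) (dlOf (nat_lit 2) (nat_lit 0x705c0004620400c000200320008f65c02)))) 
(.nd (nat_lit 10) 
(.lf (nat_lit 1342759268) (dlOf (nat_lit 2) (nat_lit 0x11198000d00800180080014002000400080c0703))) 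
(.lf (nat_lit 939556196) (dlOf (nat_lit 1) (nat_lit 0x6c000800c901)))))) (.nd (nat_lit 10) 
(.nd (nat_lit 6) (.nd (nat_lit 19) 
(.lf (nat_lit 1343283252) (dlOf (nat_lit 6) (nat_lit 0x2435a0002b02018e20400f10d6806c06a0035015e01ba09500e4041002c81c8037c07801d80000001289000d10200008c080078810002035a00101a8001d057800602540054104001a03c000110700100d580007c080560008015400200be00081e0783))) 
(.lf (nat_lit 805888052) (dlOf (nat_lit 2) (nat_lit 0x40ac0001002000200181e1301)))) 
(.lf (nat_lit 1342238836) (dlOf (nat_lit 1) (nat_lit 0x20008007d81)))) (.nd (nat_lit 8) 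
(.lf (nat_lit 1342239796) (dlOf (nat_lit 1) (nat_lit 0x1400400180018009202))) 
(.lf (nat_lit 1342207796) (dlOf (nat_lit 4) (nat_lit 0x1811c0002002000208e0000f8100030470000700800b00080008002001a000800a103)))))) 
(.nd (nat_lit 4) (.nd (nat_lit 6) (.nd (nat_lit 8) (.nd (nat_lit 10) 
(.lf (nat_lit 3491258404) (dlOf (nat_lit 4) (nat_lit 0x4a07ac000500401e83d00000c0200a415c00000018080900))) 
(.lf (nat_lit 2952819748) (dlOf (nat_lit 2) (nat_lit 0x8030000000200020028009201)))) 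
(.lf (nat_lit 4160779556) (dlOf (nat_lit 5) (nat_lit 0x340050000d01000700a001480140003008002404800400040000982001e00200004408002800800cc002002e0008009783)))) 
(.nd (nat_lit 8) (.nd (nat_lit 12) 
(.lf (nat_lit 3623905380) (dlOf (nat_lit 4) (nat_lit 0xc02e000b01680050018002c00400056080020031000501780028000000a60c0018062000500200140028004701))) 
(.lf (nat_lit 3623909476) (dlOf (nat_lit 3) (nat_lit 0x1018000100b8000405a000a01400040028002000800280180004000000f6020016002800a801)))) 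
(.lf (nat_lit 3490213220) (dlOf (nat_lit 1) (nat_lit 0x400200020008006a82))))) (.nd (nat_lit 6) 
(.nd (nat_lit 15) (.nd (nat_lit 20) 
(.lf (nat_lit 3494404148) (dlOf (nat_lit 2) (nat_lit 0x2d8814016c38a001c70400020028220b81))) 
(.lf (nat_lit 3493355572) (dlOf (nat_lit 3) (nat_lit 0x3081c0050210001c70400302070004084000704000038a0c000400200060008120d02)))) 
(.lf (nat_lit 3494436916) (dlOf (nat_lit 2) (nat_lit 0xc808c0038e04000400400060018220b82)))) 
(.nd (nat_lit 10) 
(.lf (nat_lit 3493912692) (dlOf (nat_lit 3) (nat_lit 0x4b0fa801b8708004900801883ea00a81c2001238281b0080))) 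
(.lf (nat_lit 2952819828) (dlOf (nat_lit 2) (nat_lit 0x180600058026000280400060028009481))))))) 
(.nd (nat_lit 4) (.nd (nat_lit 15) (.nd (nat_lit 10) (.nd (nat_lit 6) (.nd (nat_lit 11) 
(.nd (nat_lit 19) (.lf (nat_lit 473980964) (dlOf (nat_lit 2) (nat_lit 0x301680001b018ff0700))) 
(.lf (nat_lit 4228407332) (dlOf (nat_lit 2) (nat_lit 0x28000019c404000c002000c00080b0a02)))) 
(.lf (nat_lit 469788708) (dlOf (nat_lit 2) (nat_lit 0xae2470006f818004700)))) 
(.lf (nat_lit 469791332) (dlOf (nat_lit 2) (nat_lit 0x4c33600a460205400028008981)))) 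
(.nd (nat_lit 6) (.nd (nat_lit 8) 
(.lf (nat_lit 472409124) (dlOf (nat_lit 1) (nat_lit 0x5f0008018000202420008982883))) 
(.lf (nat_lit 3691018020) (dlOf (nat_lit 3) (nat_lit 0xa00a800058080048054000280400240020030000800a082)))) 
(.lf (nat_lit 6241150308) (dlOf (nat_lit 1) (nat_lit 0x1000400100018003482))))) (.nd (nat_lit 6) 
(.nd (nat_lit 10) (.nd (nat_lit 11) 
(.lf (nat_lit 471392292) (dlOf (nat_lit 5) (nat_lit 0x18130000a0780011e02000604c000301e000466080018130000c0780011882000504c000281e00045e080004004001400182f0d82))) 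
(.lf (nat_lit 469821476) (dlOf (nat_lit 1) (nat_lit 0x400200060008004702)))) 
(.lf (nat_lit 469824548) (dlOf (nat_lit 1) (nat_lit 0x1400400180018009202)))) (.nd (nat_lit 8) 
(.lf (nat_lit 469824100) (dlOf (nat_lit 1) (nat_lit 0x80018008981))) (.nd (nat_lit 12) 
(.lf (nat_lit 470344036) (dlOf (nat_lit 2) (nat_lit 0x11198000d00800180080014002000400080c0703))) 
(.lf (nat_lit 469823844) (dlOf (nat_lit 1) (nat_lit 0x40018008381))))))) (.nd (nat_lit 30) 
(.nd (nat_lit 6) (.nd (nat_lit 10) (.nd (nat_lit 15) 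
(.lf (nat_lit 470835252) (dlOf (nat_lit 2) (nat_lit 0x270000000940800180080038002001600081c0783))) 
(.lf (nat_lit 470868020) (dlOf (nat_lit 3) (nat_lit 0x216131000128100ab098800088080168008006000200e200081c0783)))) 
(.lf (nat_lit 2483088436) (dlOf (nat_lit 2) (nat_lit 0x260150000000803380080054002005a0008006083)))) 
(.nd (nat_lit 8) (.nd (nat_lit 9) 
(.lf (nat_lit 469824628) (dlOf (nat_lit 1) (nat_lit 0x40028009481))) 
(.lf (nat_lit 5301627508) (dlOf (nat_lit 1) (nat_lit 0x30008002800200080008005403)))) 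
(.lf (nat_lit 1006659444) (dlOf (nat_lit 1) (nat_lit 0x1000400020008004082))))) (.nd (nat_lit 11) 
(.nd (nat_lit 6) 
(.lf (nat_lit 3691017268) (dlOf (nat_lit 2) (nat_lit 0x8030000000200020028009201))) 
(.nd (nat_lit 12) 
(.lf (nat_lit 1543561332) (dlOf (nat_lit 1) (nat_lit 0x10008000c002001600080b0083))) 
(.lf (nat_lit 3691016308) (dlOf (nat_lit 1) (nat_lit 0x28004000e0008007d82))))) (.nd (nat_lit 6) 
(.lf (nat_lit 5704313396) (dlOf (nat_lit 1) (nat_lit 0xc0018055181))) (.nd (nat_lit 8) 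
(.lf (nat_lit 3691018356) (dlOf (nat_lit 2) (nat_lit 0x580140052c01800a880))) 
(.lf (nat_lit 4227890548) (dlOf (nat_lit 1) (nat_lit 0x300080018002000c000800c903)))))))))) 
(.nd (nat_lit 6) (.nd (nat_lit 11) (.nd (nat_lit 9) (.nd (nat_lit 4) (.nd (nat_lit 26) 
(.nd (nat_lit 8) 
(.lf (nat_lit 32564388) (dlOf (nat_lit 2) (nat_lit 0x11fa00017c080028008001800200180008ef2c03))) 
(.nd (nat_lit 15) 
(.lf (nat_lit 5502952868) (dlOf (nat_lit 2) (nat_lit 0x1008000594080038008000c00200080008003603))) 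
(.lf (nat_lit 6308292004) (dlOf (nat_lit 5) (nat_lit 0x18064002c204000c0320015c020006019000aa81000500c000238080078008001c00200240008053603))))) 
(.nd (nat_lit 30) (.lf (nat_lit 4496352676) (dlOf (nat_lit 1) (nat_lit 0x20028053601))) 
(.lf (nat_lit 5570094500) (dlOf (nat_lit 1) (nat_lit 0x23c00400e20008053602))))) (.nd (nat_lit 12) 
(.nd (nat_lit 8) (.lf (nat_lit 1344299188) (dlOf (nat_lit 1) (nat_lit 0x600186b0481))) 
(.nd (nat_lit 15) (.lf (nat_lit 8414644) (dlOf (nat_lit 1) (nat_lit 0x400200020008513602))) 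
(.lf (nat_lit 8447412) (dlOf (nat_lit 1) (nat_lit 0x400200020008513602))))) (.nd (nat_lit 8) 
(.lf (nat_lit 1476423860) (dlOf (nat_lit 1) (nat_lit 0x400200020008007e02))) (.nd (nat_lit 15) 
(.lf (nat_lit 1476424116) (dlOf (nat_lit 2) (nat_lit 0xc03c00000018008500))) 
(.lf (nat_lit 1342239156) (dlOf (nat_lit 1) (nat_lit 0x800200020008008502))))))) (.nd (nat_lit 28) 
(.nd (nat_lit 15) (.nd (nat_lit 20) 
(.lf (nat_lit 8417956) (dlOf (nat_lit 1) (nat_lit 0x8008000400200020008518c83))) 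
(.lf (nat_lit 19952292) (dlOf (nat_lit 1) (nat_lit 0x4002000200089d8c82)))) (.nd (nat_lit 19) 
(.nd (nat_lit 20) (.lf (nat_lit 8450724) (dlOf (nat_lit 1) (nat_lit 0x400200020008518c82))) 
(.lf (nat_lit 19985060) (dlOf (nat_lit 1) (nat_lit 0x200189d8c81)))) 
(.lf (nat_lit 8975012) (dlOf (nat_lit 1) (nat_lit 0x28008000800200020008518c83))))) 
(.nd (nat_lit 10) (.nd (nat_lit 26) 
(.lf (nat_lit 1879077540) (dlOf (nat_lit 1) (nat_lit 0x20008008c81))) 
(.lf (nat_lit 1006662308) (dlOf (nat_lit 1) (nat_lit 0x20008008c81)))) (.nd (nat_lit 29) 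
(.nd (nat_lit 4) 
(.lf (nat_lit 3691017892) (dlOf (nat_lit 6) (nat_lit 0x1400a8001600800b0054000a004002802a000400200140150001281000a00a80008c08001000800300020040000800a003))) 
(.lf (nat_lit 1342207924) (dlOf (nat_lit 1) (nat_lit 0x40040004000800a402)))) (.nd (nat_lit 12) 
(.lf (nat_lit 4026558116) (dlOf (nat_lit 1) (nat_lit 0x20018003a81))) 
(.lf (nat_lit 1879078564) (dlOf (nat_lit 1) (nat_lit 0x24002800a001)))))))) (.nd (nat_lit 29) 
(.nd (nat_lit 4) (.nd (nat_lit 9) (.nd (nat_lit 8) 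
(.lf (nat_lit 4429211812) (dlOf (nat_lit 1) (nat_lit 0xc00400020008004882))) (.nd (nat_lit 12) 
(.lf (nat_lit 3489688996) (dlOf (nat_lit 1) (nat_lit 0x400401120008006d02))) 
(.lf (nat_lit 3489693092) (dlOf (nat_lit 8) (nat_lit 0x1c41e001a1f400070f98001d818002883c00303e8000a0000003a83000c0fa0001c40800707d0000e00400483e80006202001a1f40003081000110a0003083c00443e800041bc00060dd000500000000018000c0040014001800cb02))))) 
(.nd (nat_lit 8) (.lf (nat_lit 4295028388) (dlOf (nat_lit 1) (nat_lit 0x400400060008007202))) 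
(.nd (nat_lit 15) (.lf (nat_lit 5368736676) (dlOf (nat_lit 1) (nat_lit 0x20018005c81))) 
(.lf (nat_lit 5704313764) (dlOf (nat_lit 2) (nat_lit 0xa00c000580200007008000400400140018055c82)))))) 
(.nd (nat_lit 26) (.nd (nat_lit 9) (.nd (nat_lit 10) 
(.lf (nat_lit 59572) (dlOf (nat_lit 1) (nat_lit 0xc0018004901))) 
(.lf (nat_lit 6442482868) (dlOf (nat_lit 1) (nat_lit 0x32001800c201)))) 
(.lf (nat_lit 1342238388) (dlOf (nat_lit 1) (nat_lit 0x8008000800200060008007283)))) 
(.nd (nat_lit 28) (.lf (nat_lit 3288394932) (dlOf (nat_lit 2) (nat_lit 0x1402300023818006280))) 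
(.lf (nat_lit 2483088564) (dlOf (nat_lit 1) (nat_lit 0x180008017c002009a0008006283)))))) 
(.nd (nat_lit 27) (.nd (nat_lit 9) (.nd (nat_lit 4) 
(.lf (nat_lit 2754636196) (dlOf (nat_lit 1) (nat_lit 0x4002000200080f4e82))) 
(.lf (nat_lit 1879080116) (dlOf (nat_lit 2) (nat_lit 0x2202a0030440800a8008000c002002a000800c203)))) 
(.nd (nat_lit 32) (.nd (nat_lit 15) 
(.lf (nat_lit 1677749924) (dlOf (nat_lit 2) (nat_lit 0x560000000c818007200))) 
(.lf (nat_lit 2754670244) (dlOf (nat_lit 2) (nat_lit 0x14022000170180f7200)))) (.nd (nat_lit 26) 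
(.lf (nat_lit 5905608356) (dlOf (nat_lit 1) (nat_lit 0x12800400f20008007202))) 
(.lf (nat_lit 5972717220) (dlOf (nat_lit 1) (nat_lit 0x800400020008007202)))))) (.nd (nat_lit 15) 
(.nd (nat_lit 26) 
(.lf (nat_lit 3087036068) (dlOf (nat_lit 6) (nat_lit 0x1f00f800200780078036003e0170001a04002300f8001007800900360046017000190400260000000b80801300000005804018c0000002a0200560018007201))) 
(.lf (nat_lit 3959451300) (dlOf (nat_lit 2) (nat_lit 0x1800000008018007200)))) (.nd (nat_lit 4) 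
(.nd (nat_lit 8) (.lf (nat_lit 3959484068) (dlOf (nat_lit 2) (nat_lit 0x200000008018007200))) 
(.lf (nat_lit 5234551716) (dlOf (nat_lit 1) (nat_lit 0x20018055c81)))) 
(.lf (nat_lit 3959487668) (dlOf (nat_lit 1) (nat_lit 0x18002800c201)))))))) (.nd (nat_lit 8) 
(.nd (nat_lit 15) (.nd (nat_lit 4) (.nd (nat_lit 10) (.nd (nat_lit 11) 
(.lf (nat_lit 3493880036) (dlOf (nat_lit 4) (nat_lit 0x683000013e0400b0180000350200340c00000f0181b0480))) 
(.lf (nat_lit 4026558692) (dlOf (nat_lit 1) (nat_lit 0x20018004b01)))) (.nd (nat_lit 11) 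
(.nd (nat_lit 19) 
(.lf (nat_lit 61891812) (dlOf (nat_lit 1) (nat_lit 0x18008000400200040009922e03))) 
(.lf (nat_lit 5772960996) (dlOf (nat_lit 1) (nat_lit 0x20018092e01)))) 
(.lf (nat_lit 27876) (dlOf (nat_lit 1) (nat_lit 0x1c0018006501))))) (.nd (nat_lit 11) 
(.nd (nat_lit 9) (.lf (nat_lit 30433524) (dlOf (nat_lit 1) (nat_lit 0x40018e30601))) 
(.nd (nat_lit 26) (.lf (nat_lit 2952820468) (dlOf (nat_lit 1) (nat_lit 0x2001800a001))) 
(.lf (nat_lit 604010228) (dlOf (nat_lit 1) (nat_lit 0x40020002000800a002))))) (.nd (nat_lit 12) 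
(.nd (nat_lit 19) (.lf (nat_lit 6241151732) (dlOf (nat_lit 1) (nat_lit 0x20018005a01))) 
(.lf (nat_lit 40397556) (dlOf (nat_lit 1) (nat_lit 0x400191f5a01)))) 
(.lf (nat_lit 604011252) (dlOf (nat_lit 1) (nat_lit 0x2002800b981)))))) (.nd (nat_lit 29) 
(.nd (nat_lit 4) (.nd (nat_lit 10) (.nd (nat_lit 11) 
(.lf (nat_lit 1543561444) (dlOf (nat_lit 2) (nat_lit 0x1c809800000040030004002800080b0482))) 
(.lf (nat_lit 2348869860) (dlOf (nat_lit 1) (nat_lit 0x30002000e0008004b02)))) 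
(.lf (nat_lit 5435876580) (dlOf (nat_lit 1) (nat_lit 0x380080008002000a0008002e03)))) 
(.nd (nat_lit 20) 
(.lf (nat_lit 474538228) (dlOf (nat_lit 3) (nat_lit 0x807d0004e010004046801881f400240f80008d06000200091a2481))) 
(.lf (nat_lit 28893428) (dlOf (nat_lit 1) (nat_lit 0x25400400020008da0602))))) (.nd (nat_lit 10) 
(.nd (nat_lit 4) (.lf (nat_lit 5972746468) (dlOf (nat_lit 1) (nat_lit 0x1800180b0481))) 
(.nd (nat_lit 26) (.lf (nat_lit 939581684) (dlOf (nat_lit 1) (nat_lit 0x28004003c00180b0482))) 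
(.lf (nat_lit 1811996916) (dlOf (nat_lit 1) (nat_lit 0x28004003c00180b0482))))) (.nd (nat_lit 26) 
(.nd (nat_lit 30) (.lf (nat_lit 2818630884) (dlOf (nat_lit 1) (nat_lit 0x100028082e01))) 
(.lf (nat_lit 1744889060) (dlOf (nat_lit 1) (nat_lit 0x400200020008002e02)))) 
(.lf (nat_lit 6106965220) (dlOf (nat_lit 1) (nat_lit 0x400200020008002e02))))))) (.nd (nat_lit 10) 
(.nd (nat_lit 26) (.nd (nat_lit 20) (.nd (nat_lit 11) (.nd (nat_lit 27) 
(.lf (nat_lit 1342726644) (dlOf (nat_lit 1) (nat_lit 0x24004000a00080c0d82))) 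
(.lf (nat_lit 1476944372) (dlOf (nat_lit 2) (nat_lit 0xe03d000801a000480a80020040000c00c000700480048000003a01c0008004000a0018307402)))) 
(.lf (nat_lit 34105844) (dlOf (nat_lit 1) (nat_lit 0xa0018fb4f01)))) (.nd (nat_lit 11) 
(.nd (nat_lit 22) (.lf (nat_lit 1345872372) (dlOf (nat_lit 1) (nat_lit 0x40028e07401))) 
(.lf (nat_lit 58221044) (dlOf (nat_lit 1) (nat_lit 0xe80080064002006e00097c7403)))) 
(.lf (nat_lit 37251572) (dlOf (nat_lit 1) (nat_lit 0x8002000200090d4f02))))) (.nd (nat_lit 4) 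
(.nd (nat_lit 9) (.nd (nat_lit 12) 
(.lf (nat_lit 4093700580) (dlOf (nat_lit 1) (nat_lit 0x400400020008004e82))) 
(.lf (nat_lit 201357796) (dlOf (nat_lit 1) (nat_lit 0x28000800b281)))) 
(.lf (nat_lit 469787620) (dlOf (nat_lit 1) (nat_lit 0xc002001c0008002882)))) (.nd (nat_lit 12) 
(.lf (nat_lit 470311412) (dlOf (nat_lit 1) (nat_lit 0x24004000a00080c0d82))) 
(.lf (nat_lit 604008948) (dlOf (nat_lit 2) (nat_lit 0xa03c001fe018008680)))))) (.nd (nat_lit 11) 
(.nd (nat_lit 15) (.nd (nat_lit 9) (.nd (nat_lit 23) 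
(.lf (nat_lit 5435844084) (dlOf (nat_lit 2) (nat_lit 0xf0180001cc080090008001000200120008003603))) 
(.lf (nat_lit 8414708) (dlOf (nat_lit 1) (nat_lit 0x800200020008513602)))) 
(.lf (nat_lit 3825231860) (dlOf (nat_lit 1) (nat_lit 0x20028004681)))) (.nd (nat_lit 9) 
(.nd (nat_lit 26) 
(.lf (nat_lit 5502985716) (dlOf (nat_lit 2) (nat_lit 0x2a00280050c080288008002800200040008003603))) 
(.lf (nat_lit 5435876852) (dlOf (nat_lit 2) (nat_lit 0x280000028604001400200020008003602)))) 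
(.lf (nat_lit 469821428) (dlOf (nat_lit 1) (nat_lit 0x8008000c00200060008004683))))) 
(.nd (nat_lit 4) (.nd (nat_lit 9) 
(.lf (nat_lit 604012004) (dlOf (nat_lit 1) (nat_lit 0x40020002000800cd02))) 
(.lf (nat_lit 469823460) (dlOf (nat_lit 1) (nat_lit 0x2e0008007a81)))) (.nd (nat_lit 15) 
(.nd (nat_lit 20) 
(.lf (nat_lit 1409314292) (dlOf (nat_lit 2) (nat_lit 0x381740002e04000c00200020008006f02))) 
(.lf (nat_lit 19951092) (dlOf (nat_lit 1) (nat_lit 0x18002001400089d6f02)))) 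
(.lf (nat_lit 1409347060) (dlOf (nat_lit 2) (nat_lit 0x1c0ba000170200020028006f01))))))))))) 
(.nd (nat_lit 4) (.nd (nat_lit 15) (.nd (nat_lit 6) (.nd (nat_lit 5) (.nd (nat_lit 28) 
(.nd (nat_lit 21) (.nd (nat_lit 26) (.nd (nat_lit 7) (.nd (nat_lit 8) (.nd (nat_lit 12) 
(.lf (nat_lit 537157636) (dlOf (nat_lit 2) (nat_lit 0x140be018420200020018030001))) 
(.lf (nat_lit 2818863108) (dlOf (nat_lit 1) (nat_lit 0x10008001c00200040008127a83)))) 
(.lf (nat_lit 29647108) (dlOf (nat_lit 1) (nat_lit 0x960018e30701)))) (.nd (nat_lit 8) 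
(.lf (nat_lit 1745117316) (dlOf (nat_lit 1) (nat_lit 0x100080008002000400080a2283))) 
(.lf (nat_lit 1074028932) (dlOf (nat_lit 1) (nat_lit 0x1000400100008090782))))) (.nd (nat_lit 9) 
(.nd (nat_lit 7) (.lf (nat_lit 604266500) (dlOf (nat_lit 1) (nat_lit 0x60028110281))) 
(.lf (nat_lit 4362887300) (dlOf (nat_lit 5) (nat_lit 0xc0510018019800180b4000620c02e00a2000404f0065020805a80cc02d405a0002f0a004a052000160100140290000a80800900080134002000800081a0103)))) 
(.nd (nat_lit 19) (.lf (nat_lit 3288621572) (dlOf (nat_lit 1) (nat_lit 0x10400400180008090d82))) 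
(.lf (nat_lit 2753323524) (dlOf (nat_lit 2) (nat_lit 0x15044000000080150008001c002001c0008090d83)))))) 
(.nd (nat_lit 10) (.nd (nat_lit 19) (.nd (nat_lit 20) 
(.lf (nat_lit 44326916) (dlOf (nat_lit 6) (nat_lit 0x55240002a8e8004d44c001692e01c6a08000b5240005a8e8003544c002292e01c690800135240009a8e8003544c002e92e01c680800135240009a8e8003544c002e92e01c6708000351d00df60192f0000))) 
(.lf (nat_lit 62152708) (dlOf (nat_lit 1) (nat_lit 0x608008014000200c20009960003)))) 
(.nd (nat_lit 7) 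
(.lf (nat_lit 2755420164) (dlOf (nat_lit 1) (nat_lit 0x80008008400200120008180003))) 
(.lf (nat_lit 23879812) (dlOf (nat_lit 1) (nat_lit 0x80008b80101))))) (.nd (nat_lit 8) 
(.nd (nat_lit 19) 
(.lf (nat_lit 2754899460) (dlOf (nat_lit 1) (nat_lit 0x80080004002000200080f7003))) 
(.lf (nat_lit 20737540) (dlOf (nat_lit 1) (nat_lit 0x4004000c00089d7002)))) 
(.lf (nat_lit 8152324) (dlOf (nat_lit 1) (nat_lit 0x4400400200008512f02)))))) (.nd (nat_lit 30) 
(.nd (nat_lit 27) (.nd (nat_lit 31) (.nd (nat_lit 26) 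
(.lf (nat_lit 4563689476) (dlOf (nat_lit 4) (nat_lit 0x6805e0191602009a02f00c3801000101a000180bc030de080154004006a00080c0002))) 
(.lf (nat_lit 335831044) (dlOf (nat_lit 1) (nat_lit 0x400180b0001)))) (.nd (nat_lit 7) 
(.lf (nat_lit 2953076740) (dlOf (nat_lit 1) (nat_lit 0xc004000800080f0002))) 
(.lf (nat_lit 2416205956) (dlOf (nat_lit 1) (nat_lit 0x400400020008090102))))) (.nd (nat_lit 7) 
(.nd (nat_lit 32) (.lf (nat_lit 402939908) (dlOf (nat_lit 1) (nat_lit 0x400180b0001))) 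
(.lf (nat_lit 4697907204) (dlOf (nat_lit 4) (nat_lit 0x6805e01c6302009a02f00deb01000101a000180bc037aa080154004006a00080c0002)))) 
(.lf (nat_lit 2550423684) (dlOf (nat_lit 1) (nat_lit 0x400400020008090102))))) (.nd (nat_lit 19) 
(.nd (nat_lit 7) (.nd (nat_lit 20) 
(.lf (nat_lit 1409572868) (dlOf (nat_lit 2) (nat_lit 0x140be01bbb0200020018030001))) 
(.lf (nat_lit 1343512580) (dlOf (nat_lit 6) (nat_lit 0x704e802f82380155c08001013a011e08e0053682000404700299c080008238014be0400b411c009930200820018280001)))) 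
(.lf (nat_lit 3489950084) (dlOf (nat_lit 1) (nat_lit 0x400200020008004e82)))) (.nd (nat_lit 7) 
(.nd (nat_lit 21) 
(.lf (nat_lit 1344036868) (dlOf (nat_lit 1) (nat_lit 0x80080004002000200083b0003))) 
(.lf (nat_lit 3493617668) (dlOf (nat_lit 1) (nat_lit 0x80008008400200120008180003)))) 
(.lf (nat_lit 4228669572) (dlOf (nat_lit 5) (nat_lit 0xc04a0018019000180b0000620c02e00940004048006501d005a80c802d40580002f0a004a04b000160100140258000a80800900080134002000800081a0103))))))) 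
(.nd (nat_lit 27) (.nd (nat_lit 24) (.nd (nat_lit 31) (.nd (nat_lit 20) (.nd (nat_lit 21) 
(.lf (nat_lit 1342464036) (dlOf (nat_lit 5) (nat_lit 0x16a151000100100c90a88000740806005440003804034c2a20001b0200460028030a01))) 
(.lf (nat_lit 44326948) (dlOf (nat_lit 1) (nat_lit 0x200192f0901)))) (.nd (nat_lit 7) 
(.lf (nat_lit 1343512612) (dlOf (nat_lit 1) (nat_lit 0x1400200660008280602))) 
(.lf (nat_lit 8152484) (dlOf (nat_lit 1) (nat_lit 0x400200020008513602))))) (.nd (nat_lit 7) 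
(.nd (nat_lit 26) (.lf (nat_lit 2953076772) (dlOf (nat_lit 1) (nat_lit 0x4002000200080f0702))) 
(.lf (nat_lit 2483314724) (dlOf (nat_lit 1) (nat_lit 0x10004000e00080a0902)))) (.nd (nat_lit 10) 
(.lf (nat_lit 3557061284) (dlOf (nat_lit 1) (nat_lit 0x778008000400200940008128c83))) 
(.lf (nat_lit 2754899620) (dlOf (nat_lit 2) (nat_lit 0x46086000150180f7200)))))) (.nd (nat_lit 7) 
(.nd (nat_lit 21) (.nd (nat_lit 19) 
(.lf (nat_lit 63201316) (dlOf (nat_lit 2) (nat_lit 0x12730000380800080080004002000400099f0703))) 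
(.nd (nat_lit 20) (.lf (nat_lit 59531300) (dlOf (nat_lit 2) (nat_lit 0x1e3f300008819810700))) 
(.lf (nat_lit 27025444) (dlOf (nat_lit 2) (nat_lit 0x107d80039c080020008001800200060008ca0603))))) 
(.nd (nat_lit 10) (.lf (nat_lit 19689508) (dlOf (nat_lit 1) (nat_lit 0x200189d7b01))) 
(.lf (nat_lit 57435172) (dlOf (nat_lit 1) (nat_lit 0x400400020009792882))))) (.nd (nat_lit 9) 
(.nd (nat_lit 8) (.lf (nat_lit 51668132) (dlOf (nat_lit 1) (nat_lit 0x20009512c01))) 
(.lf (nat_lit 54815140) (dlOf (nat_lit 1) (nat_lit 0x20019654e81)))) (.nd (nat_lit 10) 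
(.lf (nat_lit 20214436) (dlOf (nat_lit 1) (nat_lit 0x80080004002000200089d8c83))) 
(.lf (nat_lit 20215460) (dlOf (nat_lit 1) (nat_lit 0x4002000200089da002))))))) (.nd (nat_lit 30) 
(.nd (nat_lit 28) (.nd (nat_lit 7) (.nd (nat_lit 26) 
(.lf (nat_lit 4429471780) (dlOf (nat_lit 1) (nat_lit 0x100080004002000600080d0a83))) 
(.lf (nat_lit 2349096996) (dlOf (nat_lit 1) (nat_lit 0x10004000e00080a0902)))) 
(.lf (nat_lit 2818863780) (dlOf (nat_lit 1) (nat_lit 0x778008000400200940008128c83)))) 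
(.nd (nat_lit 7) (.nd (nat_lit 26) 
(.lf (nat_lit 939810852) (dlOf (nat_lit 3) (nat_lit 0x401f000158100160018000000800c0008000400200600008180503))) 
(.lf (nat_lit 470048804) (dlOf (nat_lit 5) (nat_lit 0x16a151000100100c90a88000740806005440003804034c2a20001b0200460028030a01)))) 
(.lf (nat_lit 4697907364) (dlOf (nat_lit 2) (nat_lit 0x4007c00038040010004004200080c1382))))) 
(.nd (nat_lit 29) (.nd (nat_lit 26) (.nd (nat_lit 28) 
(.lf (nat_lit 3355729956) (dlOf (nat_lit 5) (nat_lit 0x480a00004804003c04e0001c02000c0250000a8100060120000080800600080060002000200080e0803))) 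
(.lf (nat_lit 1476681764) (dlOf (nat_lit 2) (nat_lit 0x2018001600880020038000640c0040004002e0018110802)))) 
(.lf (nat_lit 3691274276) (dlOf (nat_lit 1) (nat_lit 0x540028110701)))) (.nd (nat_lit 8) 
(.nd (nat_lit 26) 
(.lf (nat_lit 4161036324) (dlOf (nat_lit 2) (nat_lit 0x1805000000040004004000400180c0582))) 
(.lf (nat_lit 1812226084) (dlOf (nat_lit 3) (nat_lit 0x401f000438100160018000000800c0008000400200600008180503)))) 
(.lf (nat_lit 6308522788) (dlOf (nat_lit 1) (nat_lit 0x4002002000080d5c02)))))))) (.nd (nat_lit 26) 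
(.nd (nat_lit 21) (.nd (nat_lit 30) (.nd (nat_lit 19) (.nd (nat_lit 5) (.nd (nat_lit 20) 
(.lf (nat_lit 537157700) (dlOf (nat_lit 7) (nat_lit 0x10b8150025408a0001d04034a0540000e0100a3034811f01740b380a80592045011300b806e8000000361802440a80001a020100067006f02e810d816c07100b40432058021f02b80430158086c09c046604a007201e006980dc087006c043002302a901100620080089403e037e01c021b00700050004000284c01080b00036051006301f802280c8011405c008a0280014012802280740010022008a007000b00000000058071800802cc00207700008030e83))) 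
(.nd (nat_lit 22) (.lf (nat_lit 9723972) (dlOf (nat_lit 1) (nat_lit 0x800200020008580482))) 
(.lf (nat_lit 22306884) (dlOf (nat_lit 3) (nat_lit 0x10be5001020100095f2800000080058008003c00200060008ac0d83))))) 
(.nd (nat_lit 7) (.nd (nat_lit 10) 
(.lf (nat_lit 6442738020) (dlOf (nat_lit 3) (nat_lit 0x240310001a0100040080000c40800f00080030002001200081b0703))) 
(.lf (nat_lit 288100) (dlOf (nat_lit 1) (nat_lit 0x20028003481)))) (.nd (nat_lit 11) 
(.lf (nat_lit 4697907428) (dlOf (nat_lit 14) (nat_lit 0x40005e0001d0207000340380019000700bc01c405a06cc01f001600a8000643005000d0028c06401cc02f008200f8000602000200bc0002c04007805e0001502008c02f000078100df0178000380804300d0024806401a402f008700f80002c201c080d00df8064000c02f007601681b4807c001002a0000a0c05e803402f4019001600b40b5403e0000908014a03400a8019007980bc021c03e000080800a202f0000381000901780000008230000807b4002017c00080c1b03))) 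
(.lf (nat_lit 288996) (dlOf (nat_lit 1) (nat_lit 0x20028004b01)))))) (.nd (nat_lit 22) 
(.nd (nat_lit 8) (.nd (nat_lit 20) 
(.lf (nat_lit 42754116) (dlOf (nat_lit 1) (nat_lit 0x60009280601))) 
(.lf (nat_lit 10248260) (dlOf (nat_lit 1) (nat_lit 0x80080004002000200085c0e83)))) 
(.lf (nat_lit 135029060) (dlOf (nat_lit 4) (nat_lit 0xb200000014010006000000080080370000000000401a8004001600181b0602)))) 
(.nd (nat_lit 7) (.lf (nat_lit 13393988) (dlOf (nat_lit 2) (nat_lit 0x879300027018721880))) 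
(.lf (nat_lit 55338180) (dlOf (nat_lit 1) (nat_lit 0x280080004002000200096d2d03)))))) 
(.nd (nat_lit 8) (.nd (nat_lit 9) (.nd (nat_lit 29) 
(.lf (nat_lit 1342464068) (dlOf (nat_lit 6) (nat_lit 0x9a0000000d0101140d8801e86c0048420a020c06600eb00000004c2800c05e4000060401803a400b21c6005e0bc80000818079079003c83a400181c8005a0e3002c85e4033c204000000c004c0018030e81))) 
(.lf (nat_lit 1879334980) (dlOf (nat_lit 1) (nat_lit 0x80080004002000200080e0d03)))) 
(.nd (nat_lit 10) 
(.lf (nat_lit 5905867332) (dlOf (nat_lit 1) (nat_lit 0x28008003800200080008158d03))) 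
(.lf (nat_lit 1610901060) (dlOf (nat_lit 1) (nat_lit 0xe0028093801))))) (.nd (nat_lit 7) 
(.lf (nat_lit 5905867076) (dlOf (nat_lit 1) (nat_lit 0x40018154c01))) 
(.lf (nat_lit 1074028996) (dlOf (nat_lit 3) (nat_lit 0xfc05200820260001382001d014800f8098002c0140002606000e0008090901)))))) 
(.nd (nat_lit 19) (.nd (nat_lit 7) (.nd (nat_lit 20) (.nd (nat_lit 9) 
(.lf (nat_lit 3492044868) (dlOf (nat_lit 2) (nat_lit 0x1c0aa00cf0458000801001180080120002000200080a0e03))) 
(.lf (nat_lit 23355972) (dlOf (nat_lit 1) (nat_lit 0x400200020008b81102)))) (.nd (nat_lit 5) 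
(.lf (nat_lit 24404036) (dlOf (nat_lit 1) (nat_lit 0x160008b90e01))) 
(.lf (nat_lit 62152804) (dlOf (nat_lit 2) (nat_lit 0x1aa46000b51a00339c1000680080018002001e0009960783))))) 
(.nd (nat_lit 5) (.nd (nat_lit 8) 
(.lf (nat_lit 31745220) (dlOf (nat_lit 2) (nat_lit 0x2429600004a040008004000a0008e92d02))) 
(.lf (nat_lit 23355844) (dlOf (nat_lit 2) (nat_lit 0x1955c000200200040018b80901)))) 
(.lf (nat_lit 20216548) (dlOf (nat_lit 1) (nat_lit 0x400080004002000c00089db983))))) 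
(.nd (nat_lit 5) (.nd (nat_lit 10) (.nd (nat_lit 9) 
(.lf (nat_lit 29122628) (dlOf (nat_lit 1) (nat_lit 0x28008000c00200060008dc0e83))) 
(.lf (nat_lit 8151620) (dlOf (nat_lit 1) (nat_lit 0x400200020008511582)))) (.nd (nat_lit 7) 
(.lf (nat_lit 40658244) (dlOf (nat_lit 2) (nat_lit 0x8632000e30b8000a81000380080010002000200091f3303))) 
(.lf (nat_lit 1345086660) (dlOf (nat_lit 2) (nat_lit 0x4096000110189e2d00))))) (.nd (nat_lit 9) 
(.nd (nat_lit 7) (.lf (nat_lit 54288484) (dlOf (nat_lit 1) (nat_lit 0x8008000400200020009650103))) 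
(.lf (nat_lit 53241060) (dlOf (nat_lit 1) (nat_lit 0x20029572e01)))) (.nd (nat_lit 10) 
(.lf (nat_lit 19685988) (dlOf (nat_lit 1) (nat_lit 0x1800289d1781))) 
(.lf (nat_lit 19689060) (dlOf (nat_lit 1) (nat_lit 0x4002000200089d7182)))))))) (.nd (nat_lit 8) 
(.nd (nat_lit 29) (.nd (nat_lit 5) (.nd (nat_lit 19) (.nd (nat_lit 27) 
(.lf (nat_lit 1409572932) (dlOf (nat_lit 7) (nat_lit 0x10b815002540840001c04034a0540000d8100a3034811f01740b380a80592042011300a006e8000000341802440a800019020100067006f02e810d816c07100b40432058021f02b80430158086c09c046604a007201e006980dc087006c043002302a901100620080089403e037e01c021b00700050004000264c01080b00036051006301f802280c8011405c008a0280014012802280740010022008a007000b00000000058071800802cc00207700008030e83))) 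
(.lf (nat_lit 470048836) (dlOf (nat_lit 6) (nat_lit 0x9a0000000d8101140d5001e86a40484206020c06d00eb0000000502800c0608000060401803a400b21c6005e0c100000818079079003c83a400181c8005a0e3002c8608033c204000000c004c0018030e81)))) 
(.nd (nat_lit 27) (.lf (nat_lit 4362887236) (dlOf (nat_lit 1) (nat_lit 0x800081a0001))) 
(.lf (nat_lit 470573124) (dlOf (nat_lit 1) (nat_lit 0x18008006400200020008121883))))) 
(.nd (nat_lit 7) (.nd (nat_lit 9) 
(.lf (nat_lit 2483314788) (dlOf (nat_lit 2) (nat_lit 0x200e000110180a1380))) 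
(.lf (nat_lit 474244708) (dlOf (nat_lit 1) (nat_lit 0x200080024002002a00090e3903)))) 
(.lf (nat_lit 474244324) (dlOf (nat_lit 1) (nat_lit 0x200190e2e01))))) (.nd (nat_lit 30) 
(.nd (nat_lit 27) (.lf (nat_lit 872702020) (dlOf (nat_lit 1) (nat_lit 0x400280a1681))) 
(.nd (nat_lit 31) 
(.lf (nat_lit 1006919748) (dlOf (nat_lit 1) (nat_lit 0x80080004002000200080e0d03))) 
(.lf (nat_lit 3154403396) (dlOf (nat_lit 1) (nat_lit 0xe0008160081))))) (.nd (nat_lit 5) 
(.lf (nat_lit 3959710276) (dlOf (nat_lit 4) (nat_lit 0x3e00e0001201001f0070000880800f80380004004010c00200940008128d02))) 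
(.lf (nat_lit 4228669668) (dlOf (nat_lit 2) (nat_lit 0x5800000494040018002002200081a0482)))))) 
(.nd (nat_lit 27) (.nd (nat_lit 29) (.nd (nat_lit 10) (.nd (nat_lit 19) 
(.lf (nat_lit 6509846852) (dlOf (nat_lit 1) (nat_lit 0x40018154c01))) 
(.lf (nat_lit 4362887492) (dlOf (nat_lit 2) (nat_lit 0x2c0000000002000800081a0601)))) 
(.lf (nat_lit 1141138756) (dlOf (nat_lit 2) (nat_lit 0x4804c001602100300068000a0180080008009400200020008123303)))) 
(.nd (nat_lit 7) 
(.lf (nat_lit 2751752516) (dlOf (nat_lit 2) (nat_lit 0x882140000004001000200020008004d02))) 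
(.lf (nat_lit 1946444228) (dlOf (nat_lit 3) (nat_lit 0xfc05200820260001382001d014800f8098002c0140002606000e0008090901))))) 
(.nd (nat_lit 19) (.nd (nat_lit 5) 
(.lf (nat_lit 5301888324) (dlOf (nat_lit 2) (nat_lit 0x400c400050040018004000e00080e3302))) 
(.lf (nat_lit 5838758244) (dlOf (nat_lit 3) (nat_lit 0x240310001a0100040080000c40800f00080030002001200081b0703)))) 
(.nd (nat_lit 28) 
(.lf (nat_lit 202137924) (dlOf (nat_lit 4) (nat_lit 0xb200000017010006000000080080370000000000401a8004001600181b0602))) 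
(.lf (nat_lit 4228669764) (dlOf (nat_lit 2) (nat_lit 0x2c0000000002000800081a0601))))))))) 
(.nd (nat_lit 5) (.nd (nat_lit 19) (.nd (nat_lit 28) (.nd (nat_lit 20) (.nd (nat_lit 26) 
(.nd (nat_lit 9) (.nd (nat_lit 10) (.nd (nat_lit 30) 
(.lf (nat_lit 134537220) (dlOf (nat_lit 1) (nat_lit 0x60028060001))) 
(.lf (nat_lit 1208279044) (dlOf (nat_lit 4) (nat_lit 0xd403900cb781008c01c8065b40802100e400e3c0400a0004007200080b0002)))) 
(.lf (nat_lit 56943620) (dlOf (nat_lit 1) (nat_lit 0x8008000400200020009792883)))) (.nd (nat_lit 6) 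
(.nd (nat_lit 10) (.lf (nat_lit 1074061828) (dlOf (nat_lit 1) (nat_lit 0x4004005e0018090d82))) 
(.lf (nat_lit 323076) (dlOf (nat_lit 1) (nat_lit 0x400200020008007002)))) 
(.lf (nat_lit 23388740) (dlOf (nat_lit 1) (nat_lit 0x1180080150002008c0008b81103))))) 
(.nd (nat_lit 6) (.nd (nat_lit 29) (.nd (nat_lit 31) 
(.lf (nat_lit 201646084) (dlOf (nat_lit 1) (nat_lit 0x60028060001))) 
(.lf (nat_lit 2349129732) (dlOf (nat_lit 1) (nat_lit 0x18002000c00080c0002)))) (.nd (nat_lit 22) 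
(.lf (nat_lit 1812258820) (dlOf (nat_lit 1) (nat_lit 0x100080004002000200081c0003))) 
(.lf (nat_lit 2755977220) (dlOf (nat_lit 2) (nat_lit 0x600e400cce040070004002400081c0002))))) 
(.nd (nat_lit 27) (.lf (nat_lit 3288653892) (dlOf (nat_lit 1) (nat_lit 0x20002000c00080a0e02))) 
(.lf (nat_lit 2349129796) (dlOf (nat_lit 3) (nat_lit 0x8c00e000278100110070001380802580080168002000600080c1883)))))) 
(.nd (nat_lit 11) (.nd (nat_lit 21) (.nd (nat_lit 22) 
(.lf (nat_lit 26533892) (dlOf (nat_lit 1) (nat_lit 0x400200020008c50002))) 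
(.lf (nat_lit 55894020) (dlOf (nat_lit 1) (nat_lit 0x800196e0001)))) (.nd (nat_lit 6) 
(.lf (nat_lit 37019652) (dlOf (nat_lit 1) (nat_lit 0x20019080001))) 
(.lf (nat_lit 24436804) (dlOf (nat_lit 1) (nat_lit 0x60018ba0d01))))) (.nd (nat_lit 6) 
(.nd (nat_lit 7) (.lf (nat_lit 2754932228) (dlOf (nat_lit 1) (nat_lit 0x4c002003e00080f7002))) 
(.lf (nat_lit 47507844) (dlOf (nat_lit 1) (nat_lit 0x20029404e81)))) 
(.lf (nat_lit 45410884) (dlOf (nat_lit 2) (nat_lit 0x240000004b02000a0009325201)))))) 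
(.nd (nat_lit 27) (.nd (nat_lit 31) (.nd (nat_lit 7) (.nd (nat_lit 29) 
(.lf (nat_lit 268754948) (dlOf (nat_lit 2) (nat_lit 0x30148001809c00000080038004001a0008120002))) 
(.lf (nat_lit 1879367684) (dlOf (nat_lit 3) (nat_lit 0xe02780647008008813c03234040008002002200080f0002)))) 
(.nd (nat_lit 29) 
(.lf (nat_lit 5637464196) (dlOf (nat_lit 2) (nat_lit 0xc00d0000a8080038008002c002002a00080f0e03))) 
(.lf (nat_lit 6174335108) (dlOf (nat_lit 1) (nat_lit 0x400400020008100e02))))) (.nd (nat_lit 6) 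
(.nd (nat_lit 22) (.lf (nat_lit 2483347460) (dlOf (nat_lit 1) (nat_lit 0x18002000c00080c0002))) 
(.lf (nat_lit 3494174724) (dlOf (nat_lit 2) (nat_lit 0x600e4017f8040070004002400081c0002)))) 
(.lf (nat_lit 3492077636) (dlOf (nat_lit 2) (nat_lit 0x641b40056009000100280a0e00))))) 
(.nd (nat_lit 26) (.nd (nat_lit 29) (.nd (nat_lit 6) 
(.lf (nat_lit 1476714500) (dlOf (nat_lit 2) (nat_lit 0x100d0009a604004000400060008150002))) 
(.lf (nat_lit 4697940036) (dlOf (nat_lit 1) (nat_lit 0x3580080038002000c00080d0483)))) 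
(.nd (nat_lit 30) 
(.lf (nat_lit 939843588) (dlOf (nat_lit 1) (nat_lit 0x100080004002000200081c0003))) 
(.lf (nat_lit 4161069060) (dlOf (nat_lit 1) (nat_lit 0x760018110001))))) (.nd (nat_lit 29) 
(.lf (nat_lit 2617565188) (dlOf (nat_lit 6) (nat_lit 0x701a000480a00020046000e02000b4a84000401a000680a00024046000602000b4a04000a01a000200a0000c046000c02000b4904000901a000400a0000c046001002000b488400020090000000800e00080014002000400080f0003))) 
(.nd (nat_lit 30) 
(.lf (nat_lit 1006952452) (dlOf (nat_lit 3) (nat_lit 0xe0278071a408008813c038ce040008002002200080f0002))) 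
(.lf (nat_lit 2080694276) (dlOf (nat_lit 4) (nat_lit 0xd403900e6a01008c01c8073480802100e4019200400a0004007200080b0002)))))))) 
(.nd (nat_lit 6) (.nd (nat_lit 20) (.nd (nat_lit 21) (.nd (nat_lit 7) (.nd (nat_lit 9) 
(.lf (nat_lit 3557613572) (dlOf (nat_lit 3) (nat_lit 0xe005002c581000100000134c080010008000800200440008270003))) 
(.lf (nat_lit 202170884) (dlOf (nat_lit 1) (nat_lit 0x200281b0d81)))) 
(.lf (nat_lit 537718404) (dlOf (nat_lit 2) (nat_lit 0x1102f8001340800400080014002000600080f7183)))) 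
(.nd (nat_lit 22) (.nd (nat_lit 26) 
(.lf (nat_lit 2940932) (dlOf (nat_lit 3) (nat_lit 0xe68200062748002936002a260c0014d04000a4e9000126c00525c1803f80081e64002015a00081e0003))) 
(.lf (nat_lit 4096581636) (dlOf (nat_lit 1) (nat_lit 0x20008130001)))) 
(.lf (nat_lit 15523844) (dlOf (nat_lit 1) (nat_lit 0x8e0018800001))))) (.nd (nat_lit 7) 
(.nd (nat_lit 21) (.lf (nat_lit 39641092) (dlOf (nat_lit 1) (nat_lit 0x1800191a0001))) 
(.nd (nat_lit 23) (.lf (nat_lit 1346166788) (dlOf (nat_lit 1) (nat_lit 0x4400400480008e60002))) 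
(.lf (nat_lit 29155332) (dlOf (nat_lit 1) (nat_lit 0x180028dd0001))))) (.nd (nat_lit 8) 
(.lf (nat_lit 5773254788) (dlOf (nat_lit 1) (nat_lit 0x4004000600080c0e02))) 
(.lf (nat_lit 8188292) (dlOf (nat_lit 1) (nat_lit 0x1000400040018518382)))))) (.nd (nat_lit 26) 
(.nd (nat_lit 20) (.nd (nat_lit 8) (.nd (nat_lit 22) 
(.lf (nat_lit 1343021124) (dlOf (nat_lit 2) (nat_lit 0x50e3000118080048008006400200ce0008130c03))) 
(.lf (nat_lit 13426756) (dlOf (nat_lit 1) (nat_lit 0x10008000c00200060008721883)))) 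
(.lf (nat_lit 135061828) (dlOf (nat_lit 5) (nat_lit 0x2e0000001401003702d80009c08021016c000440400980000002002012a00181b0601)))) 
(.nd (nat_lit 9) (.nd (nat_lit 10) 
(.lf (nat_lit 10281028) (dlOf (nat_lit 7) (nat_lit 0x40000001601001acb10028a46400490b0002a403002400000006c2801260e4014912e009c825005140f80299034012480e000140c006c0000000201008c00000000808021a38402200000000004002400185c0e81))) 
(.lf (nat_lit 8191044) (dlOf (nat_lit 1) (nat_lit 0xc001851bf01)))) 
(.lf (nat_lit 33352260) (dlOf (nat_lit 2) (nat_lit 0x88b3a0004b0200020018f55201))))) 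
(.nd (nat_lit 8) (.nd (nat_lit 9) 
(.lf (nat_lit 470605892) (dlOf (nat_lit 2) (nat_lit 0x50e3000124080048008006400200ce0008130c03))) 
(.lf (nat_lit 472705604) (dlOf (nat_lit 3) (nat_lit 0x2831c000a404004c2d2005c168000d0b30001831c005418c00020bc0004051000a805c0009620006800400040018a45202)))) 
(.nd (nat_lit 27) 
(.lf (nat_lit 4362920260) (dlOf (nat_lit 2) (nat_lit 0x240000000000800780080084002003600081a0603))) 
(.nd (nat_lit 28) 
(.lf (nat_lit 202170692) (dlOf (nat_lit 5) (nat_lit 0x2e0000001701003702e00009c080210170000440400980000002002012a00181b0601))) 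
(.lf (nat_lit 4228702532) (dlOf (nat_lit 2) (nat_lit 0x240000000000800780080084002003600081a0603))))))))) 
(.nd (nat_lit 28) (.nd (nat_lit 21) (.nd (nat_lit 6) (.nd (nat_lit 23) (.nd (nat_lit 9) 
(.nd (nat_lit 26) 
(.lf (nat_lit 2282020900) (dlOf (nat_lit 3) (nat_lit 0x1800a800f00500078026000401100020080001782800800540058028002a013000200800016c2000500080004002000c0008100503))) 
(.nd (nat_lit 27) 
(.lf (nat_lit 4362395684) (dlOf (nat_lit 2) (nat_lit 0x180000000004000400200100008050582))) 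
(.lf (nat_lit 1812258852) (dlOf (nat_lit 1) (nat_lit 0x200181c0581))))) (.nd (nat_lit 7) 
(.lf (nat_lit 321316) (dlOf (nat_lit 1) (nat_lit 0x60018003d01))) 
(.lf (nat_lit 2818896548) (dlOf (nat_lit 1) (nat_lit 0x400400020018128c82))))) (.nd (nat_lit 7) 
(.nd (nat_lit 20) (.nd (nat_lit 24) 
(.lf (nat_lit 9232420) (dlOf (nat_lit 1) (nat_lit 0x80018530281))) 
(.lf (nat_lit 59564068) (dlOf (nat_lit 17) (nat_lit 0xbd0180004502000a80c0001b01000a4060000d408000a0300006004002d0180002f02001080c0001301000a40600007c0800520300003c0400090160001702003880b001740500005810006a02c0002a04022d0160001102000a80b0000801000540580000c08007a02c00004040081016000000200460029810701)))) 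
(.lf (nat_lit 10280996) (dlOf (nat_lit 1) (nat_lit 0x2200085c0a01)))) 
(.lf (nat_lit 8712868) (dlOf (nat_lit 1) (nat_lit 0x400200020008518c82))))) (.nd (nat_lit 8) 
(.nd (nat_lit 7) (.nd (nat_lit 22) 
(.lf (nat_lit 1208279140) (dlOf (nat_lit 1) (nat_lit 0xc00180b0d81))) 
(.lf (nat_lit 2755977316) (dlOf (nat_lit 2) (nat_lit 0x2c0980002202000800081c1381)))) 
(.lf (nat_lit 43836644) (dlOf (nat_lit 1) (nat_lit 0x600292a2e01)))) (.nd (nat_lit 19) 
(.lf (nat_lit 6442770788) (dlOf (nat_lit 2) (nat_lit 0x80e400068040038004000200181b0702))) 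
(.lf (nat_lit 1892708) (dlOf (nat_lit 1) (nat_lit 0x60028150701)))))) (.nd (nat_lit 6) 
(.nd (nat_lit 19) (.nd (nat_lit 7) 
(.lf (nat_lit 32825380) (dlOf (nat_lit 1) (nat_lit 0xc00400180018f20702))) (.nd (nat_lit 10) 
(.lf (nat_lit 20247204) (dlOf (nat_lit 1) (nat_lit 0x4002000200089d8c82))) 
(.lf (nat_lit 2754932388) (dlOf (nat_lit 9) (nat_lit 0x620b20001a0100250430000a80803102c80002604044c164000100201e00b2000078100f10590000380807e82c80001a04041c164000000203be00180f7201))))) 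
(.nd (nat_lit 7) 
(.lf (nat_lit 2754404388) (dlOf (nat_lit 10) (nat_lit 0x3de2110011b01013a1088008d008108884402743f20144169001128300eb108800864080198844006042000208040308211000d90100230a90005c0080bd084800f840801e61fa00150b4800b855c05102a8021e1520005a07016d108800a0548000000802b0004001e00080e0482))) 
(.nd (nat_lit 10) (.lf (nat_lit 36498084) (dlOf (nat_lit 1) (nat_lit 0x120009075601))) 
(.lf (nat_lit 19723940) (dlOf (nat_lit 1) (nat_lit 0x80080014002000800089da003)))))) 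
(.nd (nat_lit 11) (.nd (nat_lit 10) (.nd (nat_lit 12) 
(.lf (nat_lit 11854180) (dlOf (nat_lit 1) (nat_lit 0x2e80080044002000200086c0703))) 
(.lf (nat_lit 8188260) (dlOf (nat_lit 1) (nat_lit 0x28008000c00200020008518383)))) 
(.lf (nat_lit 56943972) (dlOf (nat_lit 1) (nat_lit 0x8008000400200020009793483)))) (.nd (nat_lit 7) 
(.lf (nat_lit 2754936164) (dlOf (nat_lit 2) (nat_lit 0xc0b2000000180fc900))) (.nd (nat_lit 9) 
(.lf (nat_lit 8186084) (dlOf (nat_lit 1) (nat_lit 0x160028514b01))) 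
(.lf (nat_lit 20249316) (dlOf (nat_lit 1) (nat_lit 0x4002000200089db982)))))))) (.nd (nat_lit 27) 
(.nd (nat_lit 26) (.nd (nat_lit 31) (.nd (nat_lit 29) (.nd (nat_lit 32) 
(.lf (nat_lit 268754980) (dlOf (nat_lit 1) (nat_lit 0x40018120201))) 
(.lf (nat_lit 4563722276) (dlOf (nat_lit 1) (nat_lit 0x200280d0201)))) 
(.lf (nat_lit 1879367716) (dlOf (nat_lit 1) (nat_lit 0x188008015c00200c800080f0883)))) 
(.nd (nat_lit 6) 
(.lf (nat_lit 3492601892) (dlOf (nat_lit 10) (nat_lit 0x3de1fc0011b01013a0fe0008d00810887f002743ce0144165001128300eb0fe00084c0801987f000603f6002070403081fc000d58100230ae0005c8080bd07f403cc3d0007c1e200150b280a20578043c2b8002e1520005a07016d0fe000a0570000000802b0004001e00080e0482))) 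
(.nd (nat_lit 11) (.lf (nat_lit 3494174820) (dlOf (nat_lit 1) (nat_lit 0x4002000200081c1282))) 
(.lf (nat_lit 3493128292) (dlOf (nat_lit 4) (nat_lit 0x50224000a60400401120005002002c08c000d045800134100050008002c002000a00080f4703)))))) 
(.nd (nat_lit 7) (.nd (nat_lit 6) 
(.lf (nat_lit 4630831140) (dlOf (nat_lit 2) (nat_lit 0x8807c000ac04000c002000600080f0b82))) 
(.lf (nat_lit 1410132068) (dlOf (nat_lit 2) (nat_lit 0x1102f8001340800400080014002000600080f4703)))) 
(.nd (nat_lit 9) 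
(.lf (nat_lit 6241444004) (dlOf (nat_lit 1) (nat_lit 0x80080160002005c00080f1483))) 
(.lf (nat_lit 3557094052) (dlOf (nat_lit 1) (nat_lit 0x400400020018128c82)))))) (.nd (nat_lit 29) 
(.nd (nat_lit 6) (.nd (nat_lit 7) (.nd (nat_lit 26) 
(.lf (nat_lit 4697940004) (dlOf (nat_lit 1) (nat_lit 0x200280d0201))) 
(.lf (nat_lit 4765048868) (dlOf (nat_lit 2) (nat_lit 0x8807c000ac04000c002000600080f0b82)))) 
(.lf (nat_lit 471654564) (dlOf (nat_lit 1) (nat_lit 0x18008000c00200160008370483)))) 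
(.nd (nat_lit 7) 
(.lf (nat_lit 5838791012) (dlOf (nat_lit 2) (nat_lit 0x80e400068040038004000200181b0702))) 
(.lf (nat_lit 5838790884) (dlOf (nat_lit 1) (nat_lit 0x400281b0481))))) (.nd (nat_lit 30) 
(.nd (nat_lit 26) (.lf (nat_lit 939843620) (dlOf (nat_lit 1) (nat_lit 0x200181c0581))) 
(.nd (nat_lit 31) 
(.lf (nat_lit 1006952484) (dlOf (nat_lit 4) (nat_lit 0x4029e00041050001022800080180028534000407a0001c04001215800080a680005c1000100080100002007600080f0783))) 
(.lf (nat_lit 3154436132) (dlOf (nat_lit 1) (nat_lit 0x40028190701))))) (.nd (nat_lit 6) 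
(.lf (nat_lit 4228177956) (dlOf (nat_lit 2) (nat_lit 0x180000000004000400200100008050582))) 
(.lf (nat_lit 2080694372) (dlOf (nat_lit 1) (nat_lit 0xc00180b0d81)))))))))) (.nd (nat_lit 5) 
(.nd (nat_lit 6) (.nd (nat_lit 28) (.nd (nat_lit 15) (.nd (nat_lit 19) (.nd (nat_lit 21) 
(.nd (nat_lit 26) (.nd (nat_lit 29) 
(.lf (nat_lit 3355729940) (dlOf (nat_lit 1) (nat_lit 0x1300080050002001000080e0503))) 
(.lf (nat_lit 3892600852) (dlOf (nat_lit 1) (nat_lit 0x4004000e0008160002)))) (.nd (nat_lit 8) 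
(.nd (nat_lit 9) 
(.lf (nat_lit 4362362900) (dlOf (nat_lit 2) (nat_lit 0x9a8148060008c003402d00384838030a00))) 
(.lf (nat_lit 2751756820) (dlOf (nat_lit 2) (nat_lit 0x2c1ce00c13020006002800b281)))) 
(.lf (nat_lit 2752798996) (dlOf (nat_lit 2) (nat_lit 0x87480004404000400400020018047e02))))) 
(.nd (nat_lit 9) (.nd (nat_lit 7) (.nd (nat_lit 20) 
(.lf (nat_lit 10772500) (dlOf (nat_lit 2) (nat_lit 0xb055100091818620480))) 
(.lf (nat_lit 16015380) (dlOf (nat_lit 1) (nat_lit 0xe0028860381)))) 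
(.lf (nat_lit 52715924) (dlOf (nat_lit 1) (nat_lit 0x18008000c00200020009571003)))) 
(.nd (nat_lit 10) (.lf (nat_lit 41181716) (dlOf (nat_lit 1) (nat_lit 0xc0029227d01))) 
(.lf (nat_lit 20213268) (dlOf (nat_lit 2) (nat_lit 0x579e0003202000400189d7081)))))) 
(.nd (nat_lit 7) (.nd (nat_lit 8) (.nd (nat_lit 20) 
(.lf (nat_lit 2754371604) (dlOf (nat_lit 2) (nat_lit 0x174195000230180e0180))) 
(.lf (nat_lit 45899796) (dlOf (nat_lit 1) (nat_lit 0x90008000c00200040009360083)))) 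
(.lf (nat_lit 19690772) (dlOf (nat_lit 2) (nat_lit 0x315b80007702001000289d9681)))) 
(.nd (nat_lit 21) (.nd (nat_lit 8) 
(.lf (nat_lit 2753323156) (dlOf (nat_lit 1) (nat_lit 0x8008000400200020008090183))) 
(.lf (nat_lit 2752276372) (dlOf (nat_lit 1) (nat_lit 0x20018004201)))) (.nd (nat_lit 25) 
(.lf (nat_lit 70018196) (dlOf (nat_lit 1) (nat_lit 0x400400020008e62b82))) 
(.lf (nat_lit 36463764) (dlOf (nat_lit 1) (nat_lit 0x10008002800200160009072b83))))))) 
(.nd (nat_lit 21) (.nd (nat_lit 29) (.nd (nat_lit 19) (.nd (nat_lit 22) 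
(.lf (nat_lit 2282020884) (dlOf (nat_lit 5) (nat_lit 0x3004c000500400180260002702000c013000128100050098000900800100080040002001e0008100383))) 
(.lf (nat_lit 12902420) (dlOf (nat_lit 6) (nat_lit 0x531f800218a0002d8080010c7e000a628000a308000396e40000e100014c7e000a6280009308000496e40000c100018c7e000e6280002308000716e400008100014c7e00086280007308000416e400002100014004000800086e0582)))) 
(.lf (nat_lit 59564052) (dlOf (nat_lit 1) (nat_lit 0x7800400300009810482)))) (.nd (nat_lit 8) 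
(.nd (nat_lit 19) 
(.lf (nat_lit 3892633620) (dlOf (nat_lit 2) (nat_lit 0x300a8001ea0200020018180081))) 
(.lf (nat_lit 2819416084) (dlOf (nat_lit 2) (nat_lit 0x600200000018280300)))) 
(.lf (nat_lit 671408404) (dlOf (nat_lit 1) (nat_lit 0x800400240008187e02))))) (.nd (nat_lit 23) 
(.nd (nat_lit 9) (.nd (nat_lit 19) 
(.lf (nat_lit 37019668) (dlOf (nat_lit 1) (nat_lit 0x1800400060009080482))) 
(.lf (nat_lit 2754404372) (dlOf (nat_lit 3) (nat_lit 0x14e083c060c3ea030a1510002303020210780011408001000800f4002009400080e0183)))) 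
(.nd (nat_lit 10) 
(.lf (nat_lit 57991700) (dlOf (nat_lit 4) (nat_lit 0x18bda000c5ec003410200082f48013a40800717a4009b0040028004000200197a8702))) 
(.lf (nat_lit 20246036) (dlOf (nat_lit 2) (nat_lit 0x3c0a40003202000400189d7081))))) 
(.nd (nat_lit 19) (.nd (nat_lit 22) 
(.lf (nat_lit 62185492) (dlOf (nat_lit 2) (nat_lit 0x1d48c000070200420009970181))) 
(.lf (nat_lit 16048148) (dlOf (nat_lit 1) (nat_lit 0x8008000400200020008860383)))) 
(.lf (nat_lit 11329556) (dlOf (nat_lit 1) (nat_lit 0x20008690201))))))) (.nd (nat_lit 26) 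
(.nd (nat_lit 19) (.nd (nat_lit 15) (.nd (nat_lit 30) (.nd (nat_lit 10) 
(.lf (nat_lit 2953076756) (dlOf (nat_lit 1) (nat_lit 0x10008000c002000800080f0483))) 
(.lf (nat_lit 5100563476) (dlOf (nat_lit 2) (nat_lit 0x600f8000b40800280080020002000600080d5f83)))) 
(.nd (nat_lit 20) 
(.lf (nat_lit 1879334932) (dlOf (nat_lit 1) (nat_lit 0x700080018002002000080e0583))) 
(.lf (nat_lit 1343512596) (dlOf (nat_lit 2) (nat_lit 0x40818001812e000250400bc0018280301))))) 
(.nd (nat_lit 20) 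
(.lf (nat_lit 1879367700) (dlOf (nat_lit 2) (nat_lit 0x60000000cc0800600080024002001a00080f0283))) 
(.lf (nat_lit 1343545364) (dlOf (nat_lit 1) (nat_lit 0xa0002004c0008290482))))) (.nd (nat_lit 7) 
(.nd (nat_lit 15) (.lf (nat_lit 3492569108) (dlOf (nat_lit 2) (nat_lit 0x17418d000230180e0180))) 
(.lf (nat_lit 3492601876) (dlOf (nat_lit 3) (nat_lit 0x14e07e8060c3c6030a15b000230302020fd00011408001000800f4002009400080e0183)))) 
(.nd (nat_lit 8) 
(.lf (nat_lit 3491520660) (dlOf (nat_lit 1) (nat_lit 0x8008000400200020008090183))) 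
(.lf (nat_lit 5772173716) (dlOf (nat_lit 2) (nat_lit 0x808e000238080020008000800200080008091003)))))) 
(.nd (nat_lit 29) (.nd (nat_lit 19) (.nd (nat_lit 7) (.nd (nat_lit 15) 
(.lf (nat_lit 471097364) (dlOf (nat_lit 1) (nat_lit 0x600080058002000c0008270483))) 
(.lf (nat_lit 471130132) (dlOf (nat_lit 2) (nat_lit 0x411c001ed0200020018270481)))) 
(.lf (nat_lit 474244500) (dlOf (nat_lit 2) (nat_lit 0x290a78007c80800980080018002000e00090e3603)))) 
(.nd (nat_lit 15) (.nd (nat_lit 20) 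
(.lf (nat_lit 3557580820) (dlOf (nat_lit 9) (nat_lit 0x9c81bc006806800ab904000206f0055b81004e037802acc0800601bc012ec0401480de0096402009806f004b18100600378025840801301bc012bc04002800200300008270482))) 
(.lf (nat_lit 471621652) (dlOf (nat_lit 1) (nat_lit 0x400200020008360382)))) 
(.lf (nat_lit 3557613588) (dlOf (nat_lit 1) (nat_lit 0x18008001000200060008270483))))) 
(.nd (nat_lit 30) (.nd (nat_lit 15) (.nd (nat_lit 27) 
(.lf (nat_lit 3020185620) (dlOf (nat_lit 1) (nat_lit 0xc0028150081))) 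
(.lf (nat_lit 1006919700) (dlOf (nat_lit 1) (nat_lit 0x68008001c002002000080e0583)))) 
(.lf (nat_lit 1006952468) (dlOf (nat_lit 2) (nat_lit 0x20088001500801c0008014000200cc00080f0183)))) 
(.nd (nat_lit 8) (.nd (nat_lit 19) 
(.lf (nat_lit 4228145172) (dlOf (nat_lit 2) (nat_lit 0x9a812c060007e003402c0065b038030a00))) 
(.lf (nat_lit 4228669460) (dlOf (nat_lit 1) (nat_lit 0x18004000800081a0002)))) 
(.lf (nat_lit 4094454548) (dlOf (nat_lit 1) (nat_lit 0x400400020008055b82)))))))) (.nd (nat_lit 27) 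
(.nd (nat_lit 15) (.nd (nat_lit 8) (.nd (nat_lit 30) (.nd (nat_lit 23) (.nd (nat_lit 26) 
(.nd (nat_lit 28) 
(.lf (nat_lit 537157716) (dlOf (nat_lit 2) (nat_lit 0x1406d00110000000a4100058008009800200be0008031083))) 
(.lf (nat_lit 268722260) (dlOf (nat_lit 2) (nat_lit 0x9001000003018100680)))) 
(.lf (nat_lit 335831124) (dlOf (nat_lit 3) (nat_lit 0x30098001c036000c00e000d006800300200024004000c00100060000000b440002006c0002e040008004000600080b0682)))) 
(.nd (nat_lit 19) (.lf (nat_lit 29646932) (dlOf (nat_lit 1) (nat_lit 0x4004000e0008e30282))) 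
(.lf (nat_lit 9199700) (dlOf (nat_lit 2) (nat_lit 0x3035c000e03400016828530680))))) 
(.nd (nat_lit 26) (.nd (nat_lit 9) 
(.lf (nat_lit 5368995924) (dlOf (nat_lit 1) (nat_lit 0x4004000200080b0682))) 
(.lf (nat_lit 1610901076) (dlOf (nat_lit 1) (nat_lit 0x400200020008093882)))) (.nd (nat_lit 28) 
(.lf (nat_lit 3825492052) (dlOf (nat_lit 1) (nat_lit 0x20008000c00200380008171083))) 
(.lf (nat_lit 1409572948) (dlOf (nat_lit 2) (nat_lit 0x1406d00110000000a4100058008009800200be0008031083)))))) 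
(.nd (nat_lit 21) (.nd (nat_lit 9) 
(.lf (nat_lit 25452884) (dlOf (nat_lit 1) (nat_lit 0x10008000800200040008c10883))) 
(.lf (nat_lit 2751752020) (dlOf (nat_lit 1) (nat_lit 0x20008003f01)))) (.nd (nat_lit 7) 
(.lf (nat_lit 11821396) (dlOf (nat_lit 1) (nat_lit 0x200186c0681))) 
(.lf (nat_lit 52715988) (dlOf (nat_lit 1) (nat_lit 0x400400020009571182)))))) (.nd (nat_lit 19) 
(.nd (nat_lit 22) (.nd (nat_lit 26) 
(.lf (nat_lit 268755028) (dlOf (nat_lit 3) (nat_lit 0x8c015004700a4033805000de0270001f84007f0140000d008013000800c8002001e0008120503))) 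
(.lf (nat_lit 2483347540) (dlOf (nat_lit 19) (nat_lit 0xe500b81048054060e02803e600c020780400ec801c066c00c042b001808600000004e24006c020000220200de02a00d900800260038000401801120030001005003600800007c0800280a8005c0200001e0400140100000e8100fa015000880600578020024600e005e0060086000c000361806440540028028000100c00af0040020c01c00e200c01100018000683808b00a8008405001e2010000100700190030041c006000190c000202e013e015001f00a001d803002c001001110070039003005880060001810021a01000c80070000301007d0040020801c0018000000058300680080015003800014080418020022000e0000382005b00800001808021804000fc01c000020400e00100029007000004100de00a8035c0500266018011e00800500038023801802a200300030000000004008a000807d000207d800080c1603)))) 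
(.nd (nat_lit 7) 
(.lf (nat_lit 29679700) (dlOf (nat_lit 2) (nat_lit 0x608e8000d8080008008000c00200060008e30283))) 
(.lf (nat_lit 21291476) (dlOf (nat_lit 1) (nat_lit 0x1c0028a37101))))) (.nd (nat_lit 20) 
(.nd (nat_lit 8) 
(.lf (nat_lit 1343021140) (dlOf (nat_lit 2) (nat_lit 0x383e0008c1c70001c028130d80))) 
(.lf (nat_lit 4362920276) (dlOf (nat_lit 2) (nat_lit 0x8c012000030181a0680)))) (.nd (nat_lit 21) 
(.lf (nat_lit 10281044) (dlOf (nat_lit 1) (nat_lit 0x200285c1081))) 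
(.lf (nat_lit 3989588) (dlOf (nat_lit 1) (nat_lit 0x400400020008261602))))))) (.nd (nat_lit 28) 
(.nd (nat_lit 26) (.nd (nat_lit 29) (.nd (nat_lit 15) 
(.lf (nat_lit 5503213652) (dlOf (nat_lit 1) (nat_lit 0x4004000200080b0682))) 
(.lf (nat_lit 1208279124) (dlOf (nat_lit 8) (nat_lit 0x1d401c8001500805800e4000a6040428072000520200ec0180074008803a80200005a0c00140140001e020002039002a01380070044005801e005600a0000b8500030050000500801b80080018002002600080b0683)))) 
(.nd (nat_lit 32) (.lf (nat_lit 671375444) (dlOf (nat_lit 1) (nat_lit 0x800200040008171082))) 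
(.lf (nat_lit 4966342740) (dlOf (nat_lit 1) (nat_lit 0x180080050002001000080b0683))))) 
(.nd (nat_lit 8) (.nd (nat_lit 15) 
(.lf (nat_lit 5033451604) (dlOf (nat_lit 1) (nat_lit 0x180080050002001000080b0683))) 
(.lf (nat_lit 2349129812) (dlOf (nat_lit 2) (nat_lit 0x5e0030001e8180c1980)))) (.nd (nat_lit 11) 
(.lf (nat_lit 3959710036) (dlOf (nat_lit 2) (nat_lit 0xb604500011018124d80))) (.nd (nat_lit 15) 
(.lf (nat_lit 2885970260) (dlOf (nat_lit 1) (nat_lit 0x3c0028144e01))) 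
(.lf (nat_lit 2886003028) (dlOf (nat_lit 1) (nat_lit 0xc400400400008144e02))))))) (.nd (nat_lit 29) 
(.nd (nat_lit 19) (.nd (nat_lit 26) 
(.lf (nat_lit 402939988) (dlOf (nat_lit 3) (nat_lit 0x30090001c036000c00e000d006800300200024004000c00100060000000b440002006c0002e040008004000600080b0682))) 
(.lf (nat_lit 1543790676) (dlOf (nat_lit 1) (nat_lit 0x800200040008171082)))) (.nd (nat_lit 7) 
(.lf (nat_lit 470605908) (dlOf (nat_lit 2) (nat_lit 0x383e0008c1c70001d028130d80))) 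
(.lf (nat_lit 5772173780) (dlOf (nat_lit 8) (nat_lit 0x608f8000b008003847c0005604002423e0002a02001011f0001481000608f80001408003047c0000404000823e000000200160018091181))))) 
(.nd (nat_lit 15) (.nd (nat_lit 26) 
(.lf (nat_lit 3087294548) (dlOf (nat_lit 1) (nat_lit 0x20008000c00200380008171083))) 
(.lf (nat_lit 2080661588) (dlOf (nat_lit 2) (nat_lit 0xc00c0001b0180a1780)))) (.nd (nat_lit 8) 
(.lf (nat_lit 2080694356) (dlOf (nat_lit 8) (nat_lit 0x1d401c8001500805800e4000a6040428072000520200ec0180074008803a80200005a0c00140140001e020002039002a01380070044005801e005600a0000b8500030050000500801b80080018002002600080b0683))) 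
(.lf (nat_lit 4228702548) (dlOf (nat_lit 2) (nat_lit 0x8c011000030181a0680))))))))) 
(.nd (nat_lit 15) (.nd (nat_lit 26) (.nd (nat_lit 6) (.nd (nat_lit 28) (.nd (nat_lit 20) 
(.nd (nat_lit 27) (.nd (nat_lit 8) 
(.lf (nat_lit 537157684) (dlOf (nat_lit 1) (nat_lit 0xbc00200100008030d02))) 
(.lf (nat_lit 3221512500) (dlOf (nat_lit 8) (nat_lit 0xf01140097e04008c08a004be02000204600330228012e01002680280096a0400040140041f020018045001f3810009005000f440800c8008006c00200260008124c03)))) 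
(.nd (nat_lit 7) (.lf (nat_lit 671375412) (dlOf (nat_lit 1) (nat_lit 0x80080018002000a0008170d03))) 
(.lf (nat_lit 134504628) (dlOf (nat_lit 1) (nat_lit 0x20028044f01))))) (.nd (nat_lit 19) 
(.nd (nat_lit 23) (.lf (nat_lit 22306868) (dlOf (nat_lit 1) (nat_lit 0x88002001e0008ac0682))) 
(.lf (nat_lit 30695476) (dlOf (nat_lit 1) (nat_lit 0x20028e40f81)))) (.nd (nat_lit 10) 
(.lf (nat_lit 29122612) (dlOf (nat_lit 1) (nat_lit 0x400400020018dc0c02))) 
(.lf (nat_lit 35415092) (dlOf (nat_lit 1) (nat_lit 0x400400020009012882)))))) (.nd (nat_lit 27) 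
(.nd (nat_lit 7) (.nd (nat_lit 30) 
(.lf (nat_lit 268722228) (dlOf (nat_lit 2) (nat_lit 0x1803c000940200140018100481))) 
(.lf (nat_lit 1342464052) (dlOf (nat_lit 3) (nat_lit 0x101c7009000000071c10016071c0037a0400bc002005e0008030d02)))) 
(.lf (nat_lit 4563689652) (dlOf (nat_lit 14) (nat_lit 0x40005e0001d0207000340380019000700bc01c405a06cc01f001600a8000643005000d0028c06401cc02f008200f8000602000200bc0002c04007805e0001502008c02f000078100df0178000380804300d0024806401a402f008700f80002c201c080d00df8064000c02f007601681b4807c001002a0000a0c05e803402f4019001600b40b5403e0000908014a03400a8019007980bc021c03e000080800a202f0000381000901780000008230000807b4002017c00080c1683)))) 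
(.nd (nat_lit 19) (.nd (nat_lit 29) 
(.lf (nat_lit 402939956) (dlOf (nat_lit 2) (nat_lit 0x5380340046e040004002000200080b0482))) 
(.lf (nat_lit 3087294516) (dlOf (nat_lit 4) (nat_lit 0xc010001d202000400a000a00400088000003a20c003c0140026008001d00000073c1800b800800f8002006e0008170d03)))) 
(.lf (nat_lit 5773221940) (dlOf (nat_lit 2) (nat_lit 0x202a800880000046e08000c002000400080b0482)))))) 
(.nd (nat_lit 7) (.nd (nat_lit 19) (.nd (nat_lit 20) (.nd (nat_lit 27) 
(.lf (nat_lit 2416205940) (dlOf (nat_lit 1) (nat_lit 0x400400040008090082))) 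
(.lf (nat_lit 2550423668) (dlOf (nat_lit 1) (nat_lit 0x400400040008090082)))) 
(.lf (nat_lit 62152820) (dlOf (nat_lit 5) (nat_lit 0x251e000228a8002d808001149e00007020008a4f0000301000252c8000040802a8008003400200180009960d83)))) 
(.nd (nat_lit 10) (.nd (nat_lit 20) 
(.lf (nat_lit 135028852) (dlOf (nat_lit 2) (nat_lit 0x840000009200800080080080002001000081b0083))) 
(.lf (nat_lit 54288500) (dlOf (nat_lit 1) (nat_lit 0x8008000400200020009650203)))) 
(.lf (nat_lit 19690612) (dlOf (nat_lit 1) (nat_lit 0x100080010002000400089d9483))))) 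
(.nd (nat_lit 8) (.nd (nat_lit 20) 
(.lf (nat_lit 17588468) (dlOf (nat_lit 1) (nat_lit 0x400188e0601))) 
(.lf (nat_lit 45900020) (dlOf (nat_lit 1) (nat_lit 0x1400200160009362482)))) (.nd (nat_lit 10) 
(.nd (nat_lit 19) (.lf (nat_lit 4832125940) (dlOf (nat_lit 1) (nat_lit 0x200180d2881))) 
(.lf (nat_lit 36463604) (dlOf (nat_lit 1) (nat_lit 0x20019072881)))) 
(.lf (nat_lit 288756) (dlOf (nat_lit 1) (nat_lit 0x20028004681))))))) (.nd (nat_lit 30) 
(.nd (nat_lit 6) (.nd (nat_lit 27) (.nd (nat_lit 9) (.nd (nat_lit 29) 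
(.lf (nat_lit 335831092) (dlOf (nat_lit 2) (nat_lit 0x5380340046e040004002000200080b0482))) 
(.lf (nat_lit 872702004) (dlOf (nat_lit 1) (nat_lit 0x280080010002000600080a0f83)))) 
(.lf (nat_lit 6509847092) (dlOf (nat_lit 1) (nat_lit 0x80018158081)))) (.nd (nat_lit 8) 
(.nd (nat_lit 28) 
(.lf (nat_lit 2349097012) (dlOf (nat_lit 1) (nat_lit 0x80080004002000200080a0a83))) 
(.lf (nat_lit 470048820) (dlOf (nat_lit 3) (nat_lit 0x101c7009000000071c10016071c0037a0400bc002005e0008030d02)))) 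
(.lf (nat_lit 5301888308) (dlOf (nat_lit 1) (nat_lit 0x600080e3201))))) (.nd (nat_lit 19) 
(.nd (nat_lit 7) (.lf (nat_lit 2755944564) (dlOf (nat_lit 2) (nat_lit 0x260f9001180181b0080))) 
(.lf (nat_lit 2751752436) (dlOf (nat_lit 2) (nat_lit 0x340f2000dc0200260008004b81)))) 
(.nd (nat_lit 27) 
(.lf (nat_lit 4362887284) (dlOf (nat_lit 4) (nat_lit 0x67814c032008e019003300c80168008d0200ef814c077408e03c203301e00168008c0200c4014c060c08e02f6033017c0168008bc20001000800a8002000e00081a0083))) 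
(.lf (nat_lit 202137716) (dlOf (nat_lit 2) (nat_lit 0x840000008c00800080080080002001000081b0083)))))) 
(.nd (nat_lit 28) (.nd (nat_lit 8) (.nd (nat_lit 9) (.nd (nat_lit 27) 
(.lf (nat_lit 3825492020) (dlOf (nat_lit 4) (nat_lit 0xc010001d202000400a000a00400088000003a20c003c0140026008001d00000073c1800b800800f8002006e0008170d03))) 
(.lf (nat_lit 3422838836) (dlOf (nat_lit 2) (nat_lit 0x403b000501b806d341000e8008003c00200140008110783)))) 
(.lf (nat_lit 3959710260) (dlOf (nat_lit 1) (nat_lit 0x20028128b01)))) (.nd (nat_lit 6) 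
(.lf (nat_lit 3959710004) (dlOf (nat_lit 8) (nat_lit 0xf0114014a804008c08a00a53020002046003302280293410026802801494040004014009b4020018045004c08100090050025980800c8008006c00200260008124c03))) 
(.lf (nat_lit 3959710196) (dlOf (nat_lit 3) (nat_lit 0x3001c0002202000600e0000e018127e00))))) 
(.nd (nat_lit 19) (.nd (nat_lit 27) 
(.lf (nat_lit 1409572916) (dlOf (nat_lit 1) (nat_lit 0xbc00200100008030d02))) 
(.lf (nat_lit 1543790644) (dlOf (nat_lit 1) (nat_lit 0x80080018002000a0008170d03)))) 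
(.nd (nat_lit 6) (.nd (nat_lit 8) 
(.lf (nat_lit 6377201716) (dlOf (nat_lit 2) (nat_lit 0x202e000880000046e08000c002000400080b0482))) 
(.lf (nat_lit 6376153396) (dlOf (nat_lit 1) (nat_lit 0x20008090b81)))) 
(.lf (nat_lit 4228669556) (dlOf (nat_lit 4) (nat_lit 0x6781300320080019003200c8016000930200ef8130077408003c203201e0016000920200c40130060c08002f6032017c01600091c20001000800a8002000e00081a0083)))))))) 
(.nd (nat_lit 19) (.nd (nat_lit 28) (.nd (nat_lit 30) (.nd (nat_lit 6) (.nd (nat_lit 8) 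
(.lf (nat_lit 20245556) (dlOf (nat_lit 1) (nat_lit 0x14002001400089d6082))) 
(.lf (nat_lit 671408436) (dlOf (nat_lit 2) (nat_lit 0x3808c0000004000800400220008188402)))) 
(.nd (nat_lit 7) (.nd (nat_lit 23) 
(.lf (nat_lit 3465332) (dlOf (nat_lit 2) (nat_lit 0x5255800118018200080))) 
(.lf (nat_lit 28631156) (dlOf (nat_lit 1) (nat_lit 0x400400040008da0482)))) 
(.lf (nat_lit 23388660) (dlOf (nat_lit 1) (nat_lit 0x1200080040002005c0008b80d83))))) 
(.nd (nat_lit 27) (.nd (nat_lit 7) (.nd (nat_lit 8) 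
(.lf (nat_lit 1610932276) (dlOf (nat_lit 1) (nat_lit 0x4004000200080a0f82))) 
(.lf (nat_lit 1610932532) (dlOf (nat_lit 1) (nat_lit 0x4002000200080a5c02)))) 
(.lf (nat_lit 3221545140) (dlOf (nat_lit 1) (nat_lit 0x400200020008134f02)))) (.nd (nat_lit 29) 
(.lf (nat_lit 1208279092) (dlOf (nat_lit 5) (nat_lit 0x1e5013814580280046e0804680720022602012802900c50060002041000e00a401f80180000704002200180b0481))) 
(.lf (nat_lit 1745150004) (dlOf (nat_lit 2) (nat_lit 0x1600d802d40440023c04001e00280b0481)))))) 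
(.nd (nat_lit 26) (.nd (nat_lit 27) (.nd (nat_lit 6) (.nd (nat_lit 31) 
(.lf (nat_lit 4563722292) (dlOf (nat_lit 1) (nat_lit 0x200280d0401))) 
(.lf (nat_lit 2416238644) (dlOf (nat_lit 1) (nat_lit 0x200180c1081)))) 
(.lf (nat_lit 3489983988) (dlOf (nat_lit 1) (nat_lit 0x40018006f01)))) (.nd (nat_lit 31) 
(.lf (nat_lit 4697940020) (dlOf (nat_lit 1) (nat_lit 0x200280d0401))) 
(.lf (nat_lit 2550456372) (dlOf (nat_lit 1) (nat_lit 0x200180c1081))))) (.nd (nat_lit 30) 
(.nd (nat_lit 21) 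
(.lf (nat_lit 872734772) (dlOf (nat_lit 2) (nat_lit 0x1600d802d40440023c04001e00280b0481))) 
(.lf (nat_lit 1009049652) (dlOf (nat_lit 1) (nat_lit 0x8008000400200040009020483)))) 
(.nd (nat_lit 7) 
(.lf (nat_lit 2080694324) (dlOf (nat_lit 5) (nat_lit 0x1e5013814580280046e0804680720022602012802900c50060002041000e00a401f80180000304002200180b0481))) 
(.lf (nat_lit 1543823540) (dlOf (nat_lit 2) (nat_lit 0xa00d00000018184f00))))))) (.nd (nat_lit 21) 
(.nd (nat_lit 6) (.nd (nat_lit 20) (.nd (nat_lit 26) 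
(.lf (nat_lit 1343021108) (dlOf (nat_lit 1) (nat_lit 0x20028130b81))) 
(.lf (nat_lit 470605876) (dlOf (nat_lit 1) (nat_lit 0x20028130b81)))) (.nd (nat_lit 23) 
(.lf (nat_lit 4095533108) (dlOf (nat_lit 2) (nat_lit 0x800000000040008002000800080d0682))) 
(.lf (nat_lit 10281012) (dlOf (nat_lit 2) (nat_lit 0xa4779000e38185c0d00))))) (.nd (nat_lit 26) 
(.lf (nat_lit 135061620) (dlOf (nat_lit 1) (nat_lit 0x1a400200aa00081b0082))) (.nd (nat_lit 27) 
(.lf (nat_lit 4362920052) (dlOf (nat_lit 1) (nat_lit 0x380080004002001000081a0083))) 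
(.nd (nat_lit 28) (.lf (nat_lit 202170484) (dlOf (nat_lit 1) (nat_lit 0x1a400200aa00081b0082))) 
(.lf (nat_lit 4228702324) (dlOf (nat_lit 1) (nat_lit 0x380080004002001000081a0083))))))) 
(.nd (nat_lit 31) (.nd (nat_lit 6) (.nd (nat_lit 9) 
(.lf (nat_lit 11329588) (dlOf (nat_lit 5) (nat_lit 0x14f9a000a7cb003a20200083e680069f2c00e86080018f9a000c7cb0039d0200023e680011f2c00e7208001400400020018690782))) 
(.lf (nat_lit 36497972) (dlOf (nat_lit 1) (nat_lit 0x20019075181)))) (.nd (nat_lit 8) 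
(.lf (nat_lit 19725044) (dlOf (nat_lit 1) (nat_lit 0x4002000200089db982))) 
(.lf (nat_lit 8188404) (dlOf (nat_lit 1) (nat_lit 0x60028518681))))) (.nd (nat_lit 26) 
(.lf (nat_lit 3492601908) (dlOf (nat_lit 2) (nat_lit 0x705700000004001c004003000080e0702))) 
(.nd (nat_lit 28) 
(.lf (nat_lit 2754404404) (dlOf (nat_lit 2) (nat_lit 0x705480000004001c004003000080e0702))) 
(.lf (nat_lit 4096581684) (dlOf (nat_lit 1) (nat_lit 0x38008003400200200008131003))))))))))))

end

end Pool.Agent.Lib.MP_5854e1_co.Cz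

namespace Pool.Agent.Lib.MP_5854e1_co.Cz

noncomputable section

noncomputable def tz105 : DT := (.nd (nat_lit 4) (.nd (nat_lit 5) (.nd (nat_lit 15) 
(.nd (nat_lit 6) (.nd (nat_lit 18) (.nd (nat_lit 19) (.nd (nat_lit 8) (.nd (nat_lit 20) 
(.nd (nat_lit 10) (.nd (nat_lit 21) 
(.lf (nat_lit 6509649924) (dlOf (nat_lit 2) (nat_lit 0x80000000002000200180b0001))) 
(.lf (nat_lit 14770180) (dlOf (nat_lit 1) (nat_lit 0x400200020008770002)))) 
(.lf (nat_lit 939615236) (dlOf (nat_lit 1) (nat_lit 0x100028142881)))) (.nd (nat_lit 23) 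
(.nd (nat_lit 26) 
(.lf (nat_lit 3490799620) (dlOf (nat_lit 2) (nat_lit 0x215800090ab8000001000b0008005000200280008020003))) 
(.lf (nat_lit 2752602116) (dlOf (nat_lit 2) (nat_lit 0x215d00090ae0000001000b0008005000200280008020003)))) 
(.lf (nat_lit 9527300) (dlOf (nat_lit 7) (nat_lit 0x2254400212a0000694800043e800061f3c0010eb00002757005e98700034a88003a540000d29000087d0000c3e780021d600178a1800252a2000e94800093e800049d60017881000112a2000894800043e800021d60017781000112a2000694800053e800021d60017541000292a20012948000a3e800051d600175210001800400080008560002))))) 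
(.nd (nat_lit 7) (.nd (nat_lit 9) (.nd (nat_lit 10) 
(.lf (nat_lit 96516) (dlOf (nat_lit 1) (nat_lit 0x800800040020002000800a983))) 
(.lf (nat_lit 4697711876) (dlOf (nat_lit 1) (nat_lit 0xc0008092f01)))) 
(.lf (nat_lit 96004) (dlOf (nat_lit 1) (nat_lit 0x2c001800a001)))) (.nd (nat_lit 12) 
(.nd (nat_lit 11) 
(.lf (nat_lit 2080465284) (dlOf (nat_lit 2) (nat_lit 0x401c800578080020008000800200040008091003))) 
(.lf (nat_lit 4563495300) (dlOf (nat_lit 3) (nat_lit 0x101a0037ac0800380d001bd204009000400540008094e82)))) 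
(.nd (nat_lit 9) (.lf (nat_lit 1409383812) (dlOf (nat_lit 1) (nat_lit 0x3800200e6000800c902))) 
(.lf (nat_lit 97156) (dlOf (nat_lit 2) (nat_lit 0xe27480152808002800800240020012000800bc83))))))) 
(.nd (nat_lit 28) (.nd (nat_lit 29) (.nd (nat_lit 9) (.nd (nat_lit 21) 
(.lf (nat_lit 42557444) (dlOf (nat_lit 1) (nat_lit 0x50004003c0009260002))) 
(.lf (nat_lit 27877380) (dlOf (nat_lit 1) (nat_lit 0x3c004000a0018d40002)))) 
(.lf (nat_lit 617988) (dlOf (nat_lit 1) (nat_lit 0x400200020008007002)))) (.nd (nat_lit 22) 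
(.nd (nat_lit 26) (.lf (nat_lit 2819186692) (dlOf (nat_lit 1) (nat_lit 0x4004000200081e0002))) 
(.lf (nat_lit 1678336004) (dlOf (nat_lit 1) (nat_lit 0x4002002200081f0002)))) 
(.lf (nat_lit 2756272132) (dlOf (nat_lit 1) (nat_lit 0x40008230001))))) (.nd (nat_lit 7) 
(.nd (nat_lit 9) (.nd (nat_lit 21) (.nd (nat_lit 22) 
(.lf (nat_lit 805920772) (dlOf (nat_lit 1) (nat_lit 0x4002002200081f0002))) 
(.lf (nat_lit 3494469636) (dlOf (nat_lit 1) (nat_lit 0x40008230001)))) 
(.lf (nat_lit 1344888836) (dlOf (nat_lit 1) (nat_lit 0x20018990001)))) 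
(.lf (nat_lit 1342792196) (dlOf (nat_lit 1) (nat_lit 0x2c004000e00080c0d82)))) (.nd (nat_lit 26) 
(.lf (nat_lit 1342791812) (dlOf (nat_lit 2) (nat_lit 0x582a2000212100010408001041800600080028002001400080c0103))) 
(.lf (nat_lit 470376580) (dlOf (nat_lit 2) (nat_lit 0x582a2000212100010408001041800600080028002001400080c0103))))))) 
(.nd (nat_lit 27) (.nd (nat_lit 21) (.nd (nat_lit 20) (.nd (nat_lit 7) (.nd (nat_lit 10) 
(.nd (nat_lit 26) (.lf (nat_lit 3758448644) (dlOf (nat_lit 1) (nat_lit 0x200181c0001))) 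
(.lf (nat_lit 4362428420) (dlOf (nat_lit 2) (nat_lit 0x200c802d04040038004003a0008070002)))) 
(.lf (nat_lit 38102020) (dlOf (nat_lit 1) (nat_lit 0x800200080009132882)))) (.nd (nat_lit 26) 
(.lf (nat_lit 1074094212) (dlOf (nat_lit 1) (nat_lit 0x20028090101))) 
(.lf (nat_lit 1946509444) (dlOf (nat_lit 1) (nat_lit 0x20028090101))))) (.nd (nat_lit 9) 
(.nd (nat_lit 10) (.lf (nat_lit 10313732) (dlOf (nat_lit 1) (nat_lit 0x200285d0001))) 
(.lf (nat_lit 47539204) (dlOf (nat_lit 1) (nat_lit 0x8008000400200020009402883)))) 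
(.lf (nat_lit 2753389060) (dlOf (nat_lit 1) (nat_lit 0x640008090d81))))) (.nd (nat_lit 19) 
(.nd (nat_lit 7) (.nd (nat_lit 20) 
(.lf (nat_lit 23420932) (dlOf (nat_lit 1) (nat_lit 0x140028b80001))) 
(.lf (nat_lit 37052420) (dlOf (nat_lit 1) (nat_lit 0x20019090001)))) 
(.lf (nat_lit 3498116) (dlOf (nat_lit 2) (nat_lit 0xbc48300025018200100)))) (.nd (nat_lit 8) 
(.nd (nat_lit 23) (.nd (nat_lit 26) 
(.lf (nat_lit 3493683204) (dlOf (nat_lit 4) (nat_lit 0x60a700b4a81001103d805a340800a01ec02bf804004c004000600081a0002))) 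
(.lf (nat_lit 2755485700) (dlOf (nat_lit 4) (nat_lit 0x60a400a9301001103c8054780800a01e40293004004c004000600081a0002)))) 
(.lf (nat_lit 12410884) (dlOf (nat_lit 1) (nat_lit 0x12800800fc00201e400086c0003)))) 
(.nd (nat_lit 7) (.lf (nat_lit 8221956) (dlOf (nat_lit 1) (nat_lit 0x400200020008519602))) 
(.lf (nat_lit 54356868) (dlOf (nat_lit 1) (nat_lit 0x10c00200620009655c02))))))) (.nd (nat_lit 26) 
(.nd (nat_lit 29) (.nd (nat_lit 9) (.nd (nat_lit 28) 
(.lf (nat_lit 134569988) (dlOf (nat_lit 1) (nat_lit 0xe800200020008080002))) 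
(.lf (nat_lit 1476747268) (dlOf (nat_lit 2) (nat_lit 0x9801c015dc04000800400040008170002)))) 
(.lf (nat_lit 4429540868) (dlOf (nat_lit 1) (nat_lit 0x800400020008117002)))) (.nd (nat_lit 31) 
(.nd (nat_lit 28) (.lf (nat_lit 671440900) (dlOf (nat_lit 1) (nat_lit 0x14004000800081a0002))) 
(.lf (nat_lit 5234843652) (dlOf (nat_lit 1) (nat_lit 0x1400200040008100002)))) (.nd (nat_lit 7) 
(.lf (nat_lit 3892666372) (dlOf (nat_lit 4) (nat_lit 0x28168014002800eae0400de060000d00a00388810026019001c2c040028004000a0008180002))) 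
(.lf (nat_lit 2818924676) (dlOf (nat_lit 1) (nat_lit 0x80018130281)))))) (.nd (nat_lit 29) 
(.nd (nat_lit 22) (.nd (nat_lit 28) 
(.lf (nat_lit 201678852) (dlOf (nat_lit 1) (nat_lit 0xe800200020008080002))) (.nd (nat_lit 30) 
(.lf (nat_lit 2617597956) (dlOf (nat_lit 2) (nat_lit 0xbe03400000018100000))) 
(.lf (nat_lit 1543856132) (dlOf (nat_lit 1) (nat_lit 0x14004000800081a0002))))) 
(.lf (nat_lit 474308612) (dlOf (nat_lit 1) (nat_lit 0x40029140001)))) (.nd (nat_lit 8) 
(.nd (nat_lit 30) (.lf (nat_lit 3154468868) (dlOf (nat_lit 1) (nat_lit 0xc004000200081a0002))) 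
(.lf (nat_lit 4228210692) (dlOf (nat_lit 2) (nat_lit 0x200c402a26040038004003a0008070002)))) 
(.lf (nat_lit 6376218884) (dlOf (nat_lit 1) (nat_lit 0x60018090a81)))))))) (.nd (nat_lit 8) 
(.nd (nat_lit 21) (.nd (nat_lit 19) (.nd (nat_lit 7) (.nd (nat_lit 27) (.nd (nat_lit 26) 
(.lf (nat_lit 4563755076) (dlOf (nat_lit 1) (nat_lit 0x200280d0481))) 
(.lf (nat_lit 3557122116) (dlOf (nat_lit 1) (nat_lit 0x20018130081)))) (.nd (nat_lit 18) 
(.lf (nat_lit 402743364) (dlOf (nat_lit 1) (nat_lit 0x8004002c0018090002))) 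
(.lf (nat_lit 3892666436) (dlOf (nat_lit 3) (nat_lit 0x100158000600800380ac0000404000400400020008180582))))) 
(.nd (nat_lit 10) (.nd (nat_lit 18) 
(.lf (nat_lit 1275158724) (dlOf (nat_lit 1) (nat_lit 0x20018090801))) 
(.lf (nat_lit 1208312004) (dlOf (nat_lit 1) (nat_lit 0x200180c1b81)))) 
(.lf (nat_lit 134311108) (dlOf (nat_lit 1) (nat_lit 0x400400020008006382))))) (.nd (nat_lit 26) 
(.nd (nat_lit 22) (.nd (nat_lit 29) 
(.lf (nat_lit 3221839940) (dlOf (nat_lit 5) (nat_lit 0xc00a0003d01009d0050001d8080378118000560403fc08c0182045000000281a1400))) 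
(.lf (nat_lit 537485380) (dlOf (nat_lit 1) (nat_lit 0x80080004002000200080a0d03)))) 
(.lf (nat_lit 55140420) (dlOf (nat_lit 3) (nat_lit 0x6546000b40100022a30005980800280080008002000800096c0d83)))) 
(.nd (nat_lit 7) (.nd (nat_lit 27) 
(.lf (nat_lit 1409900612) (dlOf (nat_lit 2) (nat_lit 0x340258000800800980080010002000800080a0e03))) 
(.lf (nat_lit 3960037444) (dlOf (nat_lit 3) (nat_lit 0x1ec08a00240420002a0200b20230001440800e00080010002008600081a1883)))) 
(.lf (nat_lit 738814660) (dlOf (nat_lit 1) (nat_lit 0x160002003a0008125802)))))) (.nd (nat_lit 9) 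
(.nd (nat_lit 28) (.nd (nat_lit 18) (.nd (nat_lit 20) 
(.lf (nat_lit 2754175044) (dlOf (nat_lit 2) (nat_lit 0x1f0844000a804006c004003c00180c1882))) 
(.lf (nat_lit 3760196) (dlOf (nat_lit 4) (nat_lit 0x2c99200424c8000148200012648000a00800e1324007898e0000c0400120028220d01)))) 
(.lf (nat_lit 48586820) (dlOf (nat_lit 1) (nat_lit 0x80029420601)))) (.nd (nat_lit 18) 
(.nd (nat_lit 19) (.lf (nat_lit 1881235524) (dlOf (nat_lit 1) (nat_lit 0x3a0018e80001))) 
(.lf (nat_lit 3492372548) (dlOf (nat_lit 2) (nat_lit 0x41e80003b0180c1400)))) 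
(.lf (nat_lit 1346199620) (dlOf (nat_lit 2) (nat_lit 0x1b05740017c04018000400a00008e60602))))) 
(.nd (nat_lit 18) (.nd (nat_lit 11) (.nd (nat_lit 7) 
(.lf (nat_lit 11625028) (dlOf (nat_lit 1) (nat_lit 0x4002000200086c1102))) 
(.lf (nat_lit 20017860) (dlOf (nat_lit 1) (nat_lit 0x80080004002000200089d8c83)))) 
(.nd (nat_lit 20) 
(.lf (nat_lit 56715844) (dlOf (nat_lit 2) (nat_lit 0x649ca0006b02001e0029735201))) 
(.lf (nat_lit 32598596) (dlOf (nat_lit 1) (nat_lit 0x260018ef5201))))) (.nd (nat_lit 24) 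
(.nd (nat_lit 20) (.lf (nat_lit 36006468) (dlOf (nat_lit 1) (nat_lit 0x400200020009015202))) 
(.lf (nat_lit 45443652) (dlOf (nat_lit 6) (nat_lit 0x766e0024cea000265b00017c1801033a800040000005d0400480000002c81002367500014808002b3a80009604006c00200240009325202)))) 
(.nd (nat_lit 7) (.lf (nat_lit 23421508) (dlOf (nat_lit 1) (nat_lit 0x400200020008b81102))) 
(.lf (nat_lit 19757764) (dlOf (nat_lit 1) (nat_lit 0x4002000200089db982)))))))) (.nd (nat_lit 26) 
(.nd (nat_lit 9) (.nd (nat_lit 7) (.nd (nat_lit 11) (.nd (nat_lit 19) 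
(.lf (nat_lit 1208049988) (dlOf (nat_lit 9) (nat_lit 0x400a0001c0160002c04001800b00015810013014800b0030000540800280180002902002e029000a014000b80300000a0c000c050000030200140290014014000a0030000040c0010050000c00c0006005800000180150008016400200020008090c03))) 
(.lf (nat_lit 12149060) (dlOf (nat_lit 1) (nat_lit 0x4004000200086c0602)))) 
(.lf (nat_lit 671181124) (dlOf (nat_lit 2) (nat_lit 0x3800000000040018002002c0008144d02)))) 
(.nd (nat_lit 18) 
(.lf (nat_lit 3491324356) (dlOf (nat_lit 15) (nat_lit 0x16c4680002d0203c4234000138101ef11a0000980808988d00004a04066c468000240202662340001181017211a0000880804008d0000420402d83f601841ef00cb0f30017079003083c401841df00c20e68052872c00542ca018415a00c40aa00618548030829a019013a00c209a8000807800d88d00002a0403984680001202003c2340000881000e11a0000400801288d0000000400a000200980008090902))) 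
(.lf (nat_lit 23421380) (dlOf (nat_lit 2) (nat_lit 0xb67a800080080018008000800200040008b80903))))) 
(.nd (nat_lit 10) (.nd (nat_lit 18) 
(.lf (nat_lit 5637237700) (dlOf (nat_lit 1) (nat_lit 0x20018055d81))) 
(.lf (nat_lit 5771717572) (dlOf (nat_lit 1) (nat_lit 0x3c0018005d81)))) (.nd (nat_lit 31) 
(.lf (nat_lit 939616196) (dlOf (nat_lit 1) (nat_lit 0x400400020008144402))) 
(.lf (nat_lit 3087099844) (dlOf (nat_lit 1) (nat_lit 0x400400020008144402)))))) (.nd (nat_lit 7) 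
(.nd (nat_lit 10) (.nd (nat_lit 27) 
(.lf (nat_lit 335634756) (dlOf (nat_lit 2) (nat_lit 0x3800000058040014002000c0008090c02))) 
(.lf (nat_lit 738287940) (dlOf (nat_lit 2) (nat_lit 0x180aa000a03700009828090c00)))) 
(.nd (nat_lit 9) (.nd (nat_lit 18) 
(.lf (nat_lit 473523524) (dlOf (nat_lit 1) (nat_lit 0x20008f53301))) 
(.lf (nat_lit 4093994308) (dlOf (nat_lit 2) (nat_lit 0x610500014018003300)))) 
(.lf (nat_lit 201418564) (dlOf (nat_lit 1) (nat_lit 0x400400020008003e02))))) (.nd (nat_lit 9) 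
(.nd (nat_lit 19) 
(.lf (nat_lit 2080465348) (dlOf (nat_lit 2) (nat_lit 0x48027001d005000114100010008000400200040008091083))) 
(.lf (nat_lit 2753126852) (dlOf (nat_lit 15) (nat_lit 0x16c4980002d0203c424c000138101ef1260000980808989300004a04066c4980002402026624c00011810172126000088080400930000420402d8420018420400c2100806587e000b83ec01841f400c20f10052878000542d2018415f00c40ac8061855c030829a019013a00c209a8000807800d89300002a0403984980001202003c24c0000881000e126000040080128930000000400a000200980008090902)))) 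
(.nd (nat_lit 27) (.lf (nat_lit 4362168260) (dlOf (nat_lit 1) (nat_lit 0x480018004401))) 
(.lf (nat_lit 469854148) (dlOf (nat_lit 1) (nat_lit 0x400018004401))))))))) (.nd (nat_lit 6) 
(.nd (nat_lit 18) (.nd (nat_lit 26) (.nd (nat_lit 23) (.nd (nat_lit 7) (.nd (nat_lit 19) 
(.nd (nat_lit 28) (.lf (nat_lit 1744953348) (dlOf (nat_lit 1) (nat_lit 0x3400400020018090002))) 
(.lf (nat_lit 3624001540) (dlOf (nat_lit 2) (nat_lit 0xc0300006017800380b8001805a000c00500060010003000002d261c000400400180018090002)))) 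
(.lf (nat_lit 19521540) (dlOf (nat_lit 8) (nat_lit 0x215ac0010ad4000848c0004245800491d800288ea016950c000856b00042b50002123000149160012476000a23a805a503000195ac0010ad4000648c0003245800391d800248ea016920c000856b00042b50001923000109160012476000a23a805a443000095ac02d1c040030ad6001848c00b468200082b58003923002d12080008002000c00089b0002)))) 
(.nd (nat_lit 11) 
(.lf (nat_lit 1610737028) (dlOf (nat_lit 1) (nat_lit 0x8008000800200020008093583))) 
(.nd (nat_lit 12) (.lf (nat_lit 805432708) (dlOf (nat_lit 1) (nat_lit 0x1a0028116c01))) 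
(.lf (nat_lit 134348164) (dlOf (nat_lit 1) (nat_lit 0xe2001800c901)))))) (.nd (nat_lit 19) 
(.nd (nat_lit 20) (.lf (nat_lit 44163076) (dlOf (nat_lit 1) (nat_lit 0x200192d0001))) 
(.lf (nat_lit 9560068) (dlOf (nat_lit 1) (nat_lit 0x20028560001)))) (.nd (nat_lit 7) 
(.nd (nat_lit 21) 
(.lf (nat_lit 59367428) (dlOf (nat_lit 3) (nat_lit 0x244d400a6601000226a0053280800580080008002001400097f0003))) 
(.lf (nat_lit 27910148) (dlOf (nat_lit 9) (nat_lit 0x5b548017aa0400e1aa400bd4020010d52005e78100036a9002f3808004b54801792040065aa400bc8020002d52005de8100016a9002eb4080008008006800200100008d40003)))) 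
(.lf (nat_lit 32104580) (dlOf (nat_lit 1) (nat_lit 0x1c0028ef0301)))))) (.nd (nat_lit 27) 
(.nd (nat_lit 11) (.nd (nat_lit 19) (.nd (nat_lit 30) 
(.lf (nat_lit 2214715396) (dlOf (nat_lit 1) (nat_lit 0x1f4004009c0008050002))) 
(.lf (nat_lit 5435940868) (dlOf (nat_lit 1) (nat_lit 0x40018040001)))) 
(.lf (nat_lit 4362723332) (dlOf (nat_lit 1) (nat_lit 0x28008000c002000200080e0003)))) 
(.nd (nat_lit 7) (.lf (nat_lit 6509686276) (dlOf (nat_lit 1) (nat_lit 0x60018147001))) 
(.nd (nat_lit 8) (.lf (nat_lit 1677846660) (dlOf (nat_lit 1) (nat_lit 0x1e0028114781))) 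
(.lf (nat_lit 6509685124) (dlOf (nat_lit 1) (nat_lit 0xc0018144e81)))))) (.nd (nat_lit 19) 
(.nd (nat_lit 8) (.nd (nat_lit 28) 
(.lf (nat_lit 2885804036) (dlOf (nat_lit 2) (nat_lit 0xc0300006017800380b8001805a000c00500060010003000002a481c000400400180018090002))) 
(.lf (nat_lit 5301723140) (dlOf (nat_lit 2) (nat_lit 0xa00000de5818040000)))) 
(.lf (nat_lit 3691110660) (dlOf (nat_lit 1) (nat_lit 0x500080020002001a0008010703)))) 
(.nd (nat_lit 21) (.nd (nat_lit 31) 
(.lf (nat_lit 6375989252) (dlOf (nat_lit 1) (nat_lit 0x110008004400200180008040003))) 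
(.lf (nat_lit 4228505604) (dlOf (nat_lit 1) (nat_lit 0x28008000c002000200080e0003)))) 
(.lf (nat_lit 1009377284) (dlOf (nat_lit 1) (nat_lit 0x100029140001))))))) (.nd (nat_lit 28) 
(.nd (nat_lit 19) (.nd (nat_lit 29) (.nd (nat_lit 10) (.nd (nat_lit 7) 
(.lf (nat_lit 2482180) (dlOf (nat_lit 2) (nat_lit 0x185a8002c00000c130400260008160001))) 
(.lf (nat_lit 28696708) (dlOf (nat_lit 1) (nat_lit 0x20018da0481)))) (.nd (nat_lit 20) 
(.lf (nat_lit 38134788) (dlOf (nat_lit 1) (nat_lit 0x4002000c0009132882))) 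
(.lf (nat_lit 47571972) (dlOf (nat_lit 1) (nat_lit 0x800200020009402882))))) (.nd (nat_lit 9) 
(.nd (nat_lit 26) 
(.lf (nat_lit 1610997764) (dlOf (nat_lit 5) (nat_lit 0x401540398a0400140a4009e9020012052004e481001b0290026d8080160008001c002002a00080b0003))) 
(.lf (nat_lit 738582532) (dlOf (nat_lit 5) (nat_lit 0x40154032a00400140a4004480200120520022101001b029001084080160008001c002002a00080b0003)))) 
(.lf (nat_lit 1745218052) (dlOf (nat_lit 1) (nat_lit 0x3400180e5001))))) (.nd (nat_lit 20) 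
(.nd (nat_lit 24) (.nd (nat_lit 26) 
(.lf (nat_lit 537780228) (dlOf (nat_lit 3) (nat_lit 0x2076000103a800181c400080e0000206200010308001000002a3a1c000c0ec0149702000a0008190001))) 
(.lf (nat_lit 68018180) (dlOf (nat_lit 1) (nat_lit 0x80080004002000200083a0003)))) 
(.nd (nat_lit 21) 
(.lf (nat_lit 17686532) (dlOf (nat_lit 1) (nat_lit 0x500080004002000c00088f0003))) 
(.lf (nat_lit 28172292) (dlOf (nat_lit 2) (nat_lit 0x884a005740200020028d60001))))) 
(.nd (nat_lit 21) (.nd (nat_lit 10) 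
(.lf (nat_lit 1957892) (dlOf (nat_lit 1) (nat_lit 0x10380080460002022a0008150003))) 
(.lf (nat_lit 69067780) (dlOf (nat_lit 1) (nat_lit 0x4002000200088a2882)))) (.nd (nat_lit 7) 
(.lf (nat_lit 2755518468) (dlOf (nat_lit 1) (nat_lit 0xe00081b0001))) 
(.lf (nat_lit 8253828) (dlOf (nat_lit 1) (nat_lit 0x20018518381))))))) (.nd (nat_lit 27) 
(.nd (nat_lit 31) (.nd (nat_lit 19) (.nd (nat_lit 20) 
(.lf (nat_lit 1346756612) (dlOf (nat_lit 1) (nat_lit 0x20009000001))) 
(.lf (nat_lit 1343610884) (dlOf (nat_lit 2) (nat_lit 0x48274015dc04001c004003600182b0002)))) 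
(.lf (nat_lit 1410195460) (dlOf (nat_lit 3) (nat_lit 0x2077000103b000181c400080e0000206300010308001000002d181c000c0ee015fb02000a0008190001)))) 
(.nd (nat_lit 7) (.lf (nat_lit 2416304132) (dlOf (nat_lit 1) (nat_lit 0xe00080d0001))) 
(.lf (nat_lit 3490048388) (dlOf (nat_lit 1) (nat_lit 0x20028004e81))))) (.nd (nat_lit 26) 
(.nd (nat_lit 7) (.lf (nat_lit 2550521860) (dlOf (nat_lit 1) (nat_lit 0xe00080d0001))) 
(.lf (nat_lit 1476780164) (dlOf (nat_lit 2) (nat_lit 0x5a017000c48181a0480)))) (.nd (nat_lit 8) 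
(.nd (nat_lit 30) (.lf (nat_lit 3154501636) (dlOf (nat_lit 1) (nat_lit 0x400081e0001))) 
(.lf (nat_lit 4228243460) (dlOf (nat_lit 1) (nat_lit 0x24004000c0008090002)))) 
(.lf (nat_lit 6376775940) (dlOf (nat_lit 1) (nat_lit 0x20008090a81)))))))) (.nd (nat_lit 30) 
(.nd (nat_lit 21) (.nd (nat_lit 29) (.nd (nat_lit 18) (.nd (nat_lit 27) (.nd (nat_lit 24) 
(.lf (nat_lit 2483150916) (dlOf (nat_lit 12) (nat_lit 0x2a001a0001c020030025000300e8005803c0ed001a0001a08003402e057a015025580a0034c030017600c010a0000000543015700b822080540df4028003c00f01a3806004e0020010c00e0563006002f80240a7400607ea0000000a0b056f017000100ac0c2c054015a02901c101401720080145003c001001801cb00b81548050213c0200cce00f0881007044a003413a0018007400b068c0048132800c06a400206040000000994000a015002b00a000024080010048001a01c000c00a8000441812e80a80b1c050000100406c602a02ff01400003c1006a80a8054c050001200e0000603025301500b380a0016c0280154010006300780000028166000803740020b340008030e83))) 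
(.lf (nat_lit 16900164) (dlOf (nat_lit 1) (nat_lit 0x80080004002000200088e0003)))) (.nd (nat_lit 7) 
(.lf (nat_lit 2348933188) (dlOf (nat_lit 12) (nat_lit 0x2a001a0001d020030025000300f0005803c0ed001a0001b08003402c057a015025580a0034c030017600c010a0000000583015700b022080540df4028003c00e81a3806004e0020010c00e0563006002f80200a7400607ea0000000a8b056f016000100ac0c2c054015a02901c101401720080145003a001001801cb00b81548050213c0200cce00f0881007044a003413a0018007400b068c0040132800c06a400206040000000a14000a015002b00a000026080010048001a01c000c00a8000441812e80a80b1c050000100406c602a02ff01400003c1006a80a8054c050001200e0000603025301500b380a0016c0280154010006300780000028166000803740020b340008030e83))) 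
(.lf (nat_lit 474080452) (dlOf (nat_lit 5) (nat_lit 0x100300002802015216900ac0b3005280600003e0c001c2d20014166000800c00004c1800085a40020030000050400380019082d01))))) 
(.nd (nat_lit 22) (.nd (nat_lit 7) 
(.lf (nat_lit 4563787844) (dlOf (nat_lit 1) (nat_lit 0xc80080040002004400080e1883))) 
(.lf (nat_lit 4362461636) (dlOf (nat_lit 1) (nat_lit 0x20028090901)))) (.nd (nat_lit 9) 
(.lf (nat_lit 55959620) (dlOf (nat_lit 1) (nat_lit 0xa58008006000202ac00096f0603))) 
(.lf (nat_lit 38660676) (dlOf (nat_lit 1) (nat_lit 0x800200020009135202)))))) (.nd (nat_lit 8) 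
(.nd (nat_lit 7) (.nd (nat_lit 19) 
(.lf (nat_lit 5301723204) (dlOf (nat_lit 2) (nat_lit 0x101f80028408001000800f800200100008040483))) 
(.lf (nat_lit 537518148) (dlOf (nat_lit 2) (nat_lit 0x405a0002602000200280a0d01)))) 
(.lf (nat_lit 805433028) (dlOf (nat_lit 2) (nat_lit 0x2800000014040020002000e0008117282)))) 
(.nd (nat_lit 9) (.nd (nat_lit 11) 
(.lf (nat_lit 738320708) (dlOf (nat_lit 2) (nat_lit 0x681500004044000130400160018090c01))) 
(.lf (nat_lit 671213892) (dlOf (nat_lit 2) (nat_lit 0x1013000080000000008000c00200220008144d02)))) 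
(.nd (nat_lit 7) (.lf (nat_lit 3087132484) (dlOf (nat_lit 1) (nat_lit 0x400200020008143e02))) 
(.lf (nat_lit 536995780) (dlOf (nat_lit 1) (nat_lit 0x400400020008004402))))))) (.nd (nat_lit 19) 
(.nd (nat_lit 7) (.nd (nat_lit 8) 
(.lf (nat_lit 11657796) (dlOf (nat_lit 1) (nat_lit 0x200086c1101))) (.nd (nat_lit 9) 
(.lf (nat_lit 58057028) (dlOf (nat_lit 1) (nat_lit 0x400080078002004400097b8703))) 
(.lf (nat_lit 20048708) (dlOf (nat_lit 1) (nat_lit 0x380080004002000600089d5c03))))) 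
(.nd (nat_lit 8) (.nd (nat_lit 9) 
(.lf (nat_lit 20049092) (dlOf (nat_lit 1) (nat_lit 0x600189d6381))) 
(.lf (nat_lit 20050628) (dlOf (nat_lit 1) (nat_lit 0x80080004002000200089d8c83)))) 
(.lf (nat_lit 11657668) (dlOf (nat_lit 1) (nat_lit 0xc00086c0901))))) (.nd (nat_lit 10) 
(.nd (nat_lit 9) (.lf (nat_lit 3792964) (dlOf (nat_lit 1) (nat_lit 0xc002001c0008220d02))) 
(.nd (nat_lit 11) (.lf (nat_lit 23716420) (dlOf (nat_lit 1) (nat_lit 0x20008b81101))) 
(.lf (nat_lit 36563524) (dlOf (nat_lit 1) (nat_lit 0x64002015a0009075202))))) (.nd (nat_lit 7) 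
(.nd (nat_lit 12) 
(.lf (nat_lit 472769860) (dlOf (nat_lit 2) (nat_lit 0x85940001c04001000200080008b03302))) 
(.lf (nat_lit 8254788) (dlOf (nat_lit 1) (nat_lit 0x400200020008519902)))) 
(.lf (nat_lit 37348548) (dlOf (nat_lit 1) (nat_lit 0x80080018002000200090d2d03))))))) 
(.nd (nat_lit 18) (.nd (nat_lit 9) (.nd (nat_lit 19) (.nd (nat_lit 7) 
(.lf (nat_lit 5435940932) (dlOf (nat_lit 2) (nat_lit 0x900fc004007c000803a001501a8001f82000080080140002002e0008040483))) 
(.nd (nat_lit 10) (.lf (nat_lit 5503049924) (dlOf (nat_lit 1) (nat_lit 0x1d20008031701))) 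
(.lf (nat_lit 3221355716) (dlOf (nat_lit 1) (nat_lit 0x2002811c201))))) (.nd (nat_lit 27) 
(.nd (nat_lit 28) 
(.lf (nat_lit 1678368836) (dlOf (nat_lit 2) (nat_lit 0x1405600010298001381004400080014002001e0008201883))) 
(.lf (nat_lit 1409933380) (dlOf (nat_lit 1) (nat_lit 0x80080008002000200080a0e03)))) 
(.lf (nat_lit 3960070212) (dlOf (nat_lit 1) (nat_lit 0x200080004002000200081a1883))))) 
(.nd (nat_lit 12) (.nd (nat_lit 7) 
(.lf (nat_lit 5905704772) (dlOf (nat_lit 2) (nat_lit 0x1004a000000200020018143e01))) 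
(.lf (nat_lit 6377564868) (dlOf (nat_lit 1) (nat_lit 0xf000280e5801)))) (.nd (nat_lit 27) 
(.lf (nat_lit 1677851204) (dlOf (nat_lit 6) (nat_lit 0x402a80048138002406e000e012000d008000100280003a18000409c00040120000e02002102a800d0138007006e00140120012008000b0028000361800380ac00080130000c02000102a0000500802980080050002000a000811b503))) 
(.lf (nat_lit 3959552580) (dlOf (nat_lit 7) (nat_lit 0x1001a800c009c002c046000801f000180400050270000bc080130158007c0220002e0400160560016008800010100108158006802200360100000103000801300000008001800800200020002000811b503)))))) 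
(.nd (nat_lit 29) (.nd (nat_lit 10) (.nd (nat_lit 19) (.nd (nat_lit 26) 
(.lf (nat_lit 5637529668) (dlOf (nat_lit 1) (nat_lit 0x28008004c00200140008100483))) 
(.lf (nat_lit 3288719428) (dlOf (nat_lit 3) (nat_lit 0x40080000d40400200400006902000200180d0c01)))) 
(.lf (nat_lit 3493716036) (dlOf (nat_lit 1) (nat_lit 0x200281b0001)))) (.nd (nat_lit 7) 
(.lf (nat_lit 1345184836) (dlOf (nat_lit 1) (nat_lit 0x8008000400200020008b02883))) 
(.lf (nat_lit 3492669124) (dlOf (nat_lit 1) (nat_lit 0x1e00180f3a81))))) (.nd (nat_lit 7) 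
(.nd (nat_lit 21) 
(.lf (nat_lit 4026916932) (dlOf (nat_lit 3) (nat_lit 0x40080000c20400200400006002000200180d0c01))) 
(.lf (nat_lit 1881530436) (dlOf (nat_lit 1) (nat_lit 0x18008000800200040008f40603)))) 
(.nd (nat_lit 8) (.nd (nat_lit 9) 
(.lf (nat_lit 2080760004) (dlOf (nat_lit 2) (nat_lit 0x60188003ac0800200080008002000200080c1703))) 
(.lf (nat_lit 1745218244) (dlOf (nat_lit 1) (nat_lit 0x1200280e5801)))) 
(.lf (nat_lit 4228243908) (dlOf (nat_lit 1) (nat_lit 0x20028090901)))))))))) (.nd (nat_lit 15) 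
(.nd (nat_lit 18) (.nd (nat_lit 6) (.nd (nat_lit 8) (.nd (nat_lit 19) (.nd (nat_lit 10) 
(.nd (nat_lit 20) (.nd (nat_lit 7) 
(.lf (nat_lit 23158820) (dlOf (nat_lit 1) (nat_lit 0x360028b60701))) 
(.lf (nat_lit 8483492) (dlOf (nat_lit 1) (nat_lit 0x8008000400200020008518c83)))) (.nd (nat_lit 22) 
(.lf (nat_lit 17915940) (dlOf (nat_lit 1) (nat_lit 0x20028900a81))) (.nd (nat_lit 23) 
(.lf (nat_lit 38887460) (dlOf (nat_lit 1) (nat_lit 0x8008000400200020009180703))) 
(.lf (nat_lit 47276068) (dlOf (nat_lit 1) (nat_lit 0x680080084002006800093c0203)))))) 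
(.nd (nat_lit 7) (.nd (nat_lit 9) (.nd (nat_lit 12) 
(.lf (nat_lit 1880187940) (dlOf (nat_lit 1) (nat_lit 0x1800287a2881))) 
(.lf (nat_lit 95268) (dlOf (nat_lit 1) (nat_lit 0x18008002000200080008009203)))) 
(.lf (nat_lit 4697712164) (dlOf (nat_lit 1) (nat_lit 0x220028093701)))) (.nd (nat_lit 9) 
(.lf (nat_lit 3825298596) (dlOf (nat_lit 1) (nat_lit 0x60028146281))) (.nd (nat_lit 11) 
(.lf (nat_lit 20018852) (dlOf (nat_lit 1) (nat_lit 0x200289da001))) 
(.lf (nat_lit 2885775012) (dlOf (nat_lit 3) (nat_lit 0x5b0000000b80802e8000000580401b800200300008007202))))))) 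
(.nd (nat_lit 26) (.nd (nat_lit 7) (.nd (nat_lit 21) 
(.lf (nat_lit 805920804) (dlOf (nat_lit 2) (nat_lit 0x200b4001802e0002f04006800281f0b81))) 
(.lf (nat_lit 11100196) (dlOf (nat_lit 2) (nat_lit 0x1e0000001a018660500)))) 
(.lf (nat_lit 9007780) (dlOf (nat_lit 1) (nat_lit 0x400200020008518c82)))) (.nd (nat_lit 30) 
(.nd (nat_lit 20) 
(.lf (nat_lit 4362690596) (dlOf (nat_lit 4) (nat_lit 0x38158000480400100ac000402b0001102000702b0000740800280080010002002800080d0a83))) 
(.lf (nat_lit 68771876) (dlOf (nat_lit 2) (nat_lit 0x180ca0001e018750700)))) (.nd (nat_lit 28) 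
(.lf (nat_lit 1678336036) (dlOf (nat_lit 2) (nat_lit 0x200b4001802e0002f04006800281f0b81))) 
(.lf (nat_lit 3557384228) (dlOf (nat_lit 1) (nat_lit 0x800281e0681))))))) (.nd (nat_lit 7) 
(.nd (nat_lit 9) (.nd (nat_lit 10) 
(.lf (nat_lit 7430436) (dlOf (nat_lit 1) (nat_lit 0x1400184b0701))) 
(.lf (nat_lit 2617341220) (dlOf (nat_lit 1) (nat_lit 0x4004002800180a9782)))) (.nd (nat_lit 11) 
(.nd (nat_lit 10) 
(.lf (nat_lit 2617336612) (dlOf (nat_lit 5) (nat_lit 0x1020100000d00807e80800006404037c04000031020210020000178180a2180))) 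
(.lf (nat_lit 20543268) (dlOf (nat_lit 1) (nat_lit 0x4004000200189da082)))) (.nd (nat_lit 22) 
(.lf (nat_lit 5637237540) (dlOf (nat_lit 1) (nat_lit 0x78004000c0008055c02))) 
(.lf (nat_lit 1346464548) (dlOf (nat_lit 1) (nat_lit 0x4800400020018f65c02)))))) (.nd (nat_lit 9) 
(.nd (nat_lit 10) (.nd (nat_lit 26) 
(.lf (nat_lit 1342269860) (dlOf (nat_lit 1) (nat_lit 0x60028004e81))) 
(.lf (nat_lit 4227951012) (dlOf (nat_lit 1) (nat_lit 0x860028004e81)))) 
(.lf (nat_lit 97700) (dlOf (nat_lit 1) (nat_lit 0xf8000800cb01)))) (.nd (nat_lit 11) 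
(.lf (nat_lit 3355534244) (dlOf (nat_lit 5) (nat_lit 0x1020100000d00807e80800006404037c04000031020210020000178180a2600))) 
(.lf (nat_lit 4563495844) (dlOf (nat_lit 1) (nat_lit 0x20028095c81))))))) (.nd (nat_lit 8) 
(.nd (nat_lit 19) (.nd (nat_lit 9) (.nd (nat_lit 11) 
(.lf (nat_lit 1208049892) (dlOf (nat_lit 1) (nat_lit 0x380080020002000a0008090a83))) 
(.lf (nat_lit 201418980) (dlOf (nat_lit 1) (nat_lit 0x160018004b01)))) (.nd (nat_lit 11) 
(.nd (nat_lit 31) (.lf (nat_lit 939615972) (dlOf (nat_lit 1) (nat_lit 0x400400020008143a82))) 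
(.lf (nat_lit 3087099620) (dlOf (nat_lit 1) (nat_lit 0x8008000400200020008143a83)))) 
(.lf (nat_lit 1812033252) (dlOf (nat_lit 1) (nat_lit 0x400400020008147382))))) (.nd (nat_lit 7) 
(.nd (nat_lit 12) (.nd (nat_lit 22) 
(.lf (nat_lit 1409900644) (dlOf (nat_lit 1) (nat_lit 0x600080028002000e00080a1383))) 
(.lf (nat_lit 474570852) (dlOf (nat_lit 2) (nat_lit 0x14156000210191a0980)))) (.nd (nat_lit 10) 
(.lf (nat_lit 620644) (dlOf (nat_lit 1) (nat_lit 0x1000800080020002000800a803))) 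
(.lf (nat_lit 619620) (dlOf (nat_lit 1) (nat_lit 0x6c0018009401))))) (.nd (nat_lit 9) 
(.nd (nat_lit 20) (.lf (nat_lit 29974756) (dlOf (nat_lit 1) (nat_lit 0x20018e30581))) 
(.lf (nat_lit 1343840484) (dlOf (nat_lit 1) (nat_lit 0x160028370581)))) 
(.lf (nat_lit 738814692) (dlOf (nat_lit 1) (nat_lit 0x40018125981)))))) (.nd (nat_lit 11) 
(.nd (nat_lit 21) (.nd (nat_lit 28) (.nd (nat_lit 7) 
(.lf (nat_lit 2755748196) (dlOf (nat_lit 5) (nat_lit 0xc02a0005814c001c0a2000e050000502700048134004008a001603d0001a08000c02a000801140060016000320600100550001781000d02a0006014c00080a2000e050000b026800600f40003e180638004002400181b0702))) 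
(.lf (nat_lit 43082212) (dlOf (nat_lit 1) (nat_lit 0x200192a1301)))) (.nd (nat_lit 10) 
(.lf (nat_lit 2483118436) (dlOf (nat_lit 2) (nat_lit 0x34058004b002002e0028014f01))) 
(.lf (nat_lit 4093732196) (dlOf (nat_lit 1) (nat_lit 0x60008003481))))) (.nd (nat_lit 9) 
(.nd (nat_lit 19) (.lf (nat_lit 2187620) (dlOf (nat_lit 2) (nat_lit 0xc55f4000150200480028150701))) 
(.lf (nat_lit 23683428) (dlOf (nat_lit 2) (nat_lit 0x198d0000c86700064140000680c0004004001a0018b80702)))) 
(.lf (nat_lit 7960420) (dlOf (nat_lit 1) (nat_lit 0x2001851a301))))) (.nd (nat_lit 10) 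
(.nd (nat_lit 7) (.nd (nat_lit 27) 
(.lf (nat_lit 3556862308) (dlOf (nat_lit 1) (nat_lit 0x1200080d4e81))) 
(.lf (nat_lit 1812031844) (dlOf (nat_lit 1) (nat_lit 0x8008000400200020008144e83)))) 
(.lf (nat_lit 5773552100) (dlOf (nat_lit 1) (nat_lit 0x4004000200080e4e82)))) (.nd (nat_lit 27) 
(.lf (nat_lit 3825298788) (dlOf (nat_lit 1) (nat_lit 0x400400020008146a82))) (.nd (nat_lit 28) 
(.lf (nat_lit 1812032868) (dlOf (nat_lit 1) (nat_lit 0x400400020008146a82))) 
(.lf (nat_lit 4227951972) (dlOf (nat_lit 1) (nat_lit 0x400400020008006a82))))))))) 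
(.nd (nat_lit 19) (.nd (nat_lit 27) (.nd (nat_lit 6) (.nd (nat_lit 7) (.nd (nat_lit 21) 
(.nd (nat_lit 26) 
(.lf (nat_lit 3221577764) (dlOf (nat_lit 2) (nat_lit 0x2013800034080018008000400200040008150703))) 
(.lf (nat_lit 4362428452) (dlOf (nat_lit 2) (nat_lit 0x7c019800030080080008003c002003e0008070703)))) 
(.lf (nat_lit 3492110372) (dlOf (nat_lit 1) (nat_lit 0x4004000200080a0902)))) (.nd (nat_lit 8) 
(.lf (nat_lit 20279972) (dlOf (nat_lit 1) (nat_lit 0x80080004002000200089d8c83))) 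
(.lf (nat_lit 21324196) (dlOf (nat_lit 1) (nat_lit 0x20018a36b81))))) (.nd (nat_lit 21) 
(.nd (nat_lit 7) (.lf (nat_lit 50685284) (dlOf (nat_lit 1) (nat_lit 0x200094c3481))) 
(.lf (nat_lit 38101988) (dlOf (nat_lit 1) (nat_lit 0x2e0009132881)))) (.nd (nat_lit 8) 
(.lf (nat_lit 2449508) (dlOf (nat_lit 1) (nat_lit 0x8008000400200020008161283))) 
(.lf (nat_lit 11886948) (dlOf (nat_lit 1) (nat_lit 0x4004003800086c0702)))))) (.nd (nat_lit 28) 
(.nd (nat_lit 26) (.nd (nat_lit 7) (.nd (nat_lit 29) 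
(.lf (nat_lit 134570020) (dlOf (nat_lit 2) (nat_lit 0xba03100014018080900))) 
(.lf (nat_lit 671440932) (dlOf (nat_lit 9) (nat_lit 0x60000001680800880180004006000470400020060002301001d003000a800c008c0000003f0600040060001e81001d0030005000c0006a0800b800c00140030001a0200070000000b80800600080174002006c00081a0583)))) 
(.lf (nat_lit 4429541028) (dlOf (nat_lit 1) (nat_lit 0x20008117201)))) (.nd (nat_lit 6) 
(.lf (nat_lit 3959775268) (dlOf (nat_lit 2) (nat_lit 0x2013800084080018008000400200040008150703))) 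
(.lf (nat_lit 738549860) (dlOf (nat_lit 1) (nat_lit 0x74004000800080a1982))))) (.nd (nat_lit 6) 
(.nd (nat_lit 29) (.nd (nat_lit 30) 
(.lf (nat_lit 2617597988) (dlOf (nat_lit 22) (nat_lit 0x40000000ea0418600680006a020c02034000348106bb01a02a380cc0bac056037a028015301381a18094032004805cc020010b00e8228804c011001800cc00b00430050001846813c009407e8048010c01e027c009800178201c6804c000ba0403500680492025013a01201b2804c000b61004c80260005a02003000f0002c8100b30128059003c000b0080bcc068000290201440340001401003501a0000940800600d0000480419380680a2e033003b0070000881800500d00003e0409f40680001e02049403400050158000804c000360c00540680001a0200200340000c01001c01a0000000813900081a0c00205000008100503))) 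
(.lf (nat_lit 1543856164) (dlOf (nat_lit 9) (nat_lit 0x60000001680800880180004006000470400020060002301001d003000a800c008c0000003f0600040060001e81001d0030005000c0006a0800b800c00140030001a0200070000000b80800600080174002006c00081a0583)))) 
(.lf (nat_lit 4228210724) (dlOf (nat_lit 2) (nat_lit 0x7c019000080080080008003c002003e0008070703)))) 
(.nd (nat_lit 7) (.lf (nat_lit 474308708) (dlOf (nat_lit 1) (nat_lit 0x800400620009141b82))) 
(.lf (nat_lit 2080727268) (dlOf (nat_lit 2) (nat_lit 0x300a400032040004002000200080c1b02))))))) 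
(.nd (nat_lit 21) (.nd (nat_lit 7) (.nd (nat_lit 10) (.nd (nat_lit 20) (.nd (nat_lit 23) 
(.lf (nat_lit 67985444) (dlOf (nat_lit 1) (nat_lit 0x40018360581))) 
(.lf (nat_lit 59596836) (dlOf (nat_lit 2) (nat_lit 0x1a3f300008819810700)))) 
(.lf (nat_lit 27090980) (dlOf (nat_lit 2) (nat_lit 0x373638000000400c4004008a0008ca0602)))) 
(.nd (nat_lit 8) (.nd (nat_lit 22) 
(.lf (nat_lit 2752341028) (dlOf (nat_lit 1) (nat_lit 0x20028002881))) 
(.lf (nat_lit 38626340) (dlOf (nat_lit 1) (nat_lit 0x400200020009132882)))) 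
(.lf (nat_lit 1344108324) (dlOf (nat_lit 1) (nat_lit 0xe00183da081))))) (.nd (nat_lit 6) 
(.nd (nat_lit 8) (.nd (nat_lit 9) 
(.lf (nat_lit 34432164) (dlOf (nat_lit 1) (nat_lit 0x400400020008fb2c02))) 
(.lf (nat_lit 1344108196) (dlOf (nat_lit 1) (nat_lit 0xa00183da001)))) 
(.lf (nat_lit 3490539940) (dlOf (nat_lit 1) (nat_lit 0x800200020008004e82)))) (.nd (nat_lit 8) 
(.lf (nat_lit 43869412) (dlOf (nat_lit 2) (nat_lit 0x9303800020040030002000600092a2e02))) 
(.lf (nat_lit 60646372) (dlOf (nat_lit 1) (nat_lit 0x400080018002000c00098c2883)))))) 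
(.nd (nat_lit 20) (.nd (nat_lit 26) (.nd (nat_lit 7) (.nd (nat_lit 22) (.nd (nat_lit 23) 
(.lf (nat_lit 3492634660) (dlOf (nat_lit 3) (nat_lit 0x2d44160022e02016a1f50005a0180e0480))) 
(.lf (nat_lit 11362340) (dlOf (nat_lit 1) (nat_lit 0x20028690501)))) 
(.lf (nat_lit 15556644) (dlOf (nat_lit 1) (nat_lit 0x80018800681)))) (.nd (nat_lit 8) 
(.lf (nat_lit 19755684) (dlOf (nat_lit 1) (nat_lit 0x200189d8c81))) 
(.lf (nat_lit 36530596) (dlOf (nat_lit 1) (nat_lit 0x20019074e81))))) (.nd (nat_lit 28) 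
(.nd (nat_lit 29) 
(.lf (nat_lit 70082596) (dlOf (nat_lit 1) (nat_lit 0x28008000400200020008eb0703))) 
(.lf (nat_lit 2754437156) (dlOf (nat_lit 3) (nat_lit 0x2d44400022e02016a20a0005a0180e0480)))) 
(.lf (nat_lit 4096614436) (dlOf (nat_lit 2) (nat_lit 0x200502220026051201000370008000bc2000180080008002000a0008140b83))))) 
(.nd (nat_lit 7) (.nd (nat_lit 9) (.nd (nat_lit 22) 
(.lf (nat_lit 3493683236) (dlOf (nat_lit 1) (nat_lit 0x8800081a0801))) 
(.lf (nat_lit 24993828) (dlOf (nat_lit 1) (nat_lit 0x400400020008bd0b82)))) 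
(.lf (nat_lit 12411428) (dlOf (nat_lit 10) (nat_lit 0x9dd500005c080046ea80002c0400237540000e020007baa00006810006dd500003008004eea8003374c000db2900003030001dd500001408002eea80000804001b7540000002002800286c0e01)))) 
(.nd (nat_lit 6) (.lf (nat_lit 8221348) (dlOf (nat_lit 1) (nat_lit 0x400200020008518c82))) 
(.lf (nat_lit 8223716) (dlOf (nat_lit 2) (nat_lit 0xa37c0154604000c004000e001851bf02))))))))) 
(.nd (nat_lit 18) (.nd (nat_lit 6) (.nd (nat_lit 26) (.nd (nat_lit 23) (.nd (nat_lit 8) 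
(.nd (nat_lit 20) (.nd (nat_lit 19) 
(.lf (nat_lit 4563525668) (dlOf (nat_lit 1) (nat_lit 0x1000800c800200820008090003))) 
(.lf (nat_lit 2744356) (dlOf (nat_lit 1) (nat_lit 0x800181a0b81)))) (.nd (nat_lit 7) 
(.lf (nat_lit 1880219684) (dlOf (nat_lit 2) (nat_lit 0x40e30001b0187d0700))) 
(.lf (nat_lit 20051620) (dlOf (nat_lit 1) (nat_lit 0x4002000200089da002))))) (.nd (nat_lit 7) 
(.nd (nat_lit 19) (.lf (nat_lit 5771485476) (dlOf (nat_lit 1) (nat_lit 0x3c0018000a81))) 
(.lf (nat_lit 5774106916) (dlOf (nat_lit 1) (nat_lit 0x400400020008108002)))) 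
(.lf (nat_lit 20048804) (dlOf (nat_lit 1) (nat_lit 0x4002000200089d5c82))))) (.nd (nat_lit 19) 
(.nd (nat_lit 7) (.lf (nat_lit 27385892) (dlOf (nat_lit 1) (nat_lit 0x8008000400200020008ce0603))) 
(.nd (nat_lit 9) (.lf (nat_lit 44163236) (dlOf (nat_lit 1) (nat_lit 0x200192d1381))) 
(.lf (nat_lit 8516260) (dlOf (nat_lit 1) (nat_lit 0x400200020008518c82))))) (.nd (nat_lit 21) 
(.lf (nat_lit 13230116) (dlOf (nat_lit 4) (nat_lit 0x8511000178100122888000b80800514440002804007000400060008710b82))) 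
(.nd (nat_lit 24) 
(.lf (nat_lit 11132964) (dlOf (nat_lit 7) (nat_lit 0x7384b000bbf58001e010004df88000d4040032fc4000690200077ce00150000000fc1000221a4007c0000003404003d84b0002bf580006c1002780080070002000a0008660503))) 
(.lf (nat_lit 27910180) (dlOf (nat_lit 1) (nat_lit 0x400400020008d40602))))))) (.nd (nat_lit 11) 
(.nd (nat_lit 28) (.nd (nat_lit 19) (.nd (nat_lit 27) 
(.lf (nat_lit 67231780) (dlOf (nat_lit 1) (nat_lit 0x40018040581))) 
(.lf (nat_lit 738320420) (dlOf (nat_lit 1) (nat_lit 0x180080054002002a0008090003)))) 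
(.lf (nat_lit 4362723364) (dlOf (nat_lit 2) (nat_lit 0x10019000580c40005e08002c004000200180e0b82)))) 
(.nd (nat_lit 7) 
(.lf (nat_lit 4228505636) (dlOf (nat_lit 2) (nat_lit 0x10018800580c00005e08002c004000200180e0b82))) 
(.nd (nat_lit 21) 
(.lf (nat_lit 474080420) (dlOf (nat_lit 2) (nat_lit 0x505a000142cc0032017000900a80017c2000f8008009400200220009082c03))) 
(.lf (nat_lit 1008854180) (dlOf (nat_lit 1) (nat_lit 0x140028fa2c01)))))) (.nd (nat_lit 7) 
(.nd (nat_lit 8) (.lf (nat_lit 1677846564) (dlOf (nat_lit 1) (nat_lit 0x18002001e0008114702))) 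
(.nd (nat_lit 27) 
(.lf (nat_lit 1677850916) (dlOf (nat_lit 1) (nat_lit 0x18008000c0020016000811ab83))) 
(.lf (nat_lit 3959552292) (dlOf (nat_lit 1) (nat_lit 0x1280040016000811ab82))))) (.nd (nat_lit 8) 
(.lf (nat_lit 3825331364) (dlOf (nat_lit 1) (nat_lit 0x400200020008146282))) 
(.lf (nat_lit 5838596516) (dlOf (nat_lit 1) (nat_lit 0x200080018002001800080f4e83))))))) 
(.nd (nat_lit 7) (.nd (nat_lit 20) (.nd (nat_lit 10) (.nd (nat_lit 9) 
(.lf (nat_lit 1946280292) (dlOf (nat_lit 1) (nat_lit 0x400200020008014f02))) 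
(.lf (nat_lit 2617373540) (dlOf (nat_lit 1) (nat_lit 0x54004000400080a8f82)))) (.nd (nat_lit 19) 
(.lf (nat_lit 2818696548) (dlOf (nat_lit 1) (nat_lit 0x2a00280d3481))) (.nd (nat_lit 21) 
(.lf (nat_lit 1611261284) (dlOf (nat_lit 1) (nat_lit 0x8008000400200020008123483))) 
(.lf (nat_lit 40494436) (dlOf (nat_lit 1) (nat_lit 0x180080004002000400091f3483)))))) 
(.nd (nat_lit 9) (.nd (nat_lit 8) (.nd (nat_lit 10) 
(.lf (nat_lit 24240228) (dlOf (nat_lit 1) (nat_lit 0x8008000400200020008b91383))) 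
(.lf (nat_lit 38921316) (dlOf (nat_lit 2) (nat_lit 0xd8260004e02001c0029192981)))) 
(.lf (nat_lit 2754739556) (dlOf (nat_lit 1) (nat_lit 0x3200280fc901)))) (.nd (nat_lit 19) 
(.lf (nat_lit 1345447524) (dlOf (nat_lit 2) (nat_lit 0x130b28000cc0800d8008007c00200280008bb3903))) 
(.lf (nat_lit 43640420) (dlOf (nat_lit 1) (nat_lit 0x200192a3901)))))) (.nd (nat_lit 10) 
(.nd (nat_lit 9) (.nd (nat_lit 8) 
(.lf (nat_lit 5905705188) (dlOf (nat_lit 1) (nat_lit 0xa0018144b01))) (.nd (nat_lit 12) 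
(.lf (nat_lit 38922724) (dlOf (nat_lit 1) (nat_lit 0x8008001400200020009194e83))) 
(.lf (nat_lit 1677851108) (dlOf (nat_lit 1) (nat_lit 0xc80080080002001e000811b283))))) 
(.nd (nat_lit 11) (.lf (nat_lit 1677845476) (dlOf (nat_lit 1) (nat_lit 0x1c00400200008112882))) 
(.lf (nat_lit 738323428) (dlOf (nat_lit 1) (nat_lit 0x20018095e81))))) (.nd (nat_lit 8) 
(.nd (nat_lit 19) (.nd (nat_lit 20) 
(.lf (nat_lit 8512740) (dlOf (nat_lit 1) (nat_lit 0xa80080008002000a0008512e03))) 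
(.lf (nat_lit 1345447140) (dlOf (nat_lit 1) (nat_lit 0x400200060008bb2e02)))) 
(.lf (nat_lit 43640036) (dlOf (nat_lit 1) (nat_lit 0x4004000200192a2e02)))) (.nd (nat_lit 19) 
(.nd (nat_lit 20) (.lf (nat_lit 1881269732) (dlOf (nat_lit 1) (nat_lit 0xa00008e83601))) 
(.lf (nat_lit 43116004) (dlOf (nat_lit 1) (nat_lit 0x4004000400092a3602)))) 
(.lf (nat_lit 61466084) (dlOf (nat_lit 1) (nat_lit 0x20019923601)))))))) (.nd (nat_lit 7) 
(.nd (nat_lit 31) (.nd (nat_lit 21) (.nd (nat_lit 26) (.nd (nat_lit 32) (.nd (nat_lit 6) 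
(.lf (nat_lit 537255972) (dlOf (nat_lit 3) (nat_lit 0x1440a2000803f005401900004c1800481440002404016400400520008070702))) 
(.lf (nat_lit 38134884) (dlOf (nat_lit 1) (nat_lit 0x80080004002005c0009132983)))) 
(.nd (nat_lit 28) (.lf (nat_lit 4832223268) (dlOf (nat_lit 1) (nat_lit 0x400400020008120902))) 
(.lf (nat_lit 5100658724) (dlOf (nat_lit 1) (nat_lit 0x400400020008120902))))) (.nd (nat_lit 30) 
(.nd (nat_lit 8) 
(.lf (nat_lit 4362461220) (dlOf (nat_lit 1) (nat_lit 0x8400080004002010a0008090003))) 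
(.lf (nat_lit 4362461476) (dlOf (nat_lit 2) (nat_lit 0x30000000420200100008090501)))) 
(.nd (nat_lit 28) (.lf (nat_lit 1678106660) (dlOf (nat_lit 1) (nat_lit 0x40028190801))) 
(.lf (nat_lit 1409671204) (dlOf (nat_lit 3) (nat_lit 0x1440a2000803f00540190000981800481440004a04016400400520008070702)))))) 
(.nd (nat_lit 6) (.nd (nat_lit 8) (.nd (nat_lit 19) 
(.lf (nat_lit 32890916) (dlOf (nat_lit 2) (nat_lit 0x31822000ab280001e028f40700))) 
(.lf (nat_lit 28172324) (dlOf (nat_lit 1) (nat_lit 0x80008009400200340008d60603)))) 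
(.lf (nat_lit 8254756) (dlOf (nat_lit 1) (nat_lit 0x60008519781)))) (.nd (nat_lit 8) 
(.lf (nat_lit 1009116260) (dlOf (nat_lit 1) (nat_lit 0xb8008005000200960009082983))) 
(.nd (nat_lit 12) (.lf (nat_lit 11919716) (dlOf (nat_lit 1) (nat_lit 0x200286c0701))) 
(.lf (nat_lit 8253796) (dlOf (nat_lit 1) (nat_lit 0x800200020008518382))))))) (.nd (nat_lit 26) 
(.nd (nat_lit 21) (.nd (nat_lit 27) (.nd (nat_lit 28) 
(.lf (nat_lit 3221610532) (dlOf (nat_lit 1) (nat_lit 0x80080008002000c0008160903))) 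
(.nd (nat_lit 29) (.lf (nat_lit 2416304164) (dlOf (nat_lit 1) (nat_lit 0x1400080d0901))) 
(.lf (nat_lit 4026916900) (dlOf (nat_lit 1) (nat_lit 0xc00180d0901))))) (.nd (nat_lit 28) 
(.lf (nat_lit 3355828260) (dlOf (nat_lit 2) (nat_lit 0x1602e00032018120500))) 
(.lf (nat_lit 2550521892) (dlOf (nat_lit 1) (nat_lit 0x1400080d0901))))) (.nd (nat_lit 11) 
(.nd (nat_lit 6) (.lf (nat_lit 3492143140) (dlOf (nat_lit 1) (nat_lit 0x200080a0901))) 
(.lf (nat_lit 3492143204) (dlOf (nat_lit 2) (nat_lit 0x80ae00000c08011000800b0002000600080a1383)))) 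
(.nd (nat_lit 12) 
(.lf (nat_lit 3493193828) (dlOf (nat_lit 1) (nat_lit 0x600080034002001400080f4703))) 
(.lf (nat_lit 3493197924) (dlOf (nat_lit 1) (nat_lit 0x4002000200080fa802)))))) (.nd (nat_lit 27) 
(.nd (nat_lit 19) (.lf (nat_lit 3288719396) (dlOf (nat_lit 1) (nat_lit 0xc00180d0901))) 
(.lf (nat_lit 2753421348) (dlOf (nat_lit 1) (nat_lit 0x100028090001)))) (.nd (nat_lit 8) 
(.nd (nat_lit 28) (.lf (nat_lit 3959808036) (dlOf (nat_lit 2) (nat_lit 0x3e02f00000018160800))) 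
(.lf (nat_lit 4228243492) (dlOf (nat_lit 1) (nat_lit 0x748008000400201200008090003)))) 
(.lf (nat_lit 4228243748) (dlOf (nat_lit 2) (nat_lit 0x30000000450200100008090501))))))) 
(.nd (nat_lit 6) (.nd (nat_lit 8) (.nd (nat_lit 9) (.nd (nat_lit 27) (.nd (nat_lit 29) 
(.lf (nat_lit 4362461348) (dlOf (nat_lit 1) (nat_lit 0x8008000400200020008090203))) 
(.lf (nat_lit 604364964) (dlOf (nat_lit 3) (nat_lit 0x1002c0011d0200500160007c0181a0480)))) 
(.lf (nat_lit 4228243620) (dlOf (nat_lit 1) (nat_lit 0x8008000400200020008090203)))) 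
(.nd (nat_lit 19) (.lf (nat_lit 20312740) (dlOf (nat_lit 1) (nat_lit 0x4002000200089d8c82))) 
(.lf (nat_lit 19788452) (dlOf (nat_lit 1) (nat_lit 0x4002000200089d8c82))))) (.nd (nat_lit 11) 
(.nd (nat_lit 10) (.lf (nat_lit 4295352740) (dlOf (nat_lit 1) (nat_lit 0x1400181a0781))) 
(.lf (nat_lit 8250788) (dlOf (nat_lit 1) (nat_lit 0x400200020008513602)))) (.nd (nat_lit 19) 
(.lf (nat_lit 2754996644) (dlOf (nat_lit 1) (nat_lit 0x4002000200080f4e82))) 
(.lf (nat_lit 3490572708) (dlOf (nat_lit 1) (nat_lit 0x800200020008004e82)))))) (.nd (nat_lit 9) 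
(.nd (nat_lit 11) (.nd (nat_lit 19) (.nd (nat_lit 24) 
(.lf (nat_lit 2483413220) (dlOf (nat_lit 1) (nat_lit 0x1a00281b0481))) 
(.lf (nat_lit 17162468) (dlOf (nat_lit 1) (nat_lit 0x200188e0581)))) 
(.lf (nat_lit 20832484) (dlOf (nat_lit 2) (nat_lit 0x4b72801316040008002000200089e4202)))) 
(.nd (nat_lit 8) (.lf (nat_lit 8251620) (dlOf (nat_lit 1) (nat_lit 0x400200020008514b02))) 
(.lf (nat_lit 472771044) (dlOf (nat_lit 1) (nat_lit 0x8008000400200020008b04e83))))) 
(.nd (nat_lit 8) (.nd (nat_lit 19) 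
(.lf (nat_lit 1745218276) (dlOf (nat_lit 1) (nat_lit 0x600180e5981))) 
(.lf (nat_lit 1345186532) (dlOf (nat_lit 1) (nat_lit 0x20028b05981)))) (.nd (nat_lit 22) 
(.lf (nat_lit 872801252) (dlOf (nat_lit 1) (nat_lit 0x5000280e2881))) 
(.lf (nat_lit 38134756) (dlOf (nat_lit 1) (nat_lit 0x2c0009132881))))))))))) (.nd (nat_lit 15) 
(.nd (nat_lit 18) (.nd (nat_lit 8) (.nd (nat_lit 19) (.nd (nat_lit 6) (.nd (nat_lit 20) 
(.nd (nat_lit 28) (.nd (nat_lit 5) (.nd (nat_lit 9) 
(.lf (nat_lit 604069908) (dlOf (nat_lit 1) (nat_lit 0x60008001000200160008010003))) 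
(.lf (nat_lit 50424340) (dlOf (nat_lit 2) (nat_lit 0x2c98a0001c02000e00194c5081)))) 
(.nd (nat_lit 7) (.nd (nat_lit 10) 
(.lf (nat_lit 1275158580) (dlOf (nat_lit 1) (nat_lit 0x100028090001))) 
(.lf (nat_lit 2818663476) (dlOf (nat_lit 1) (nat_lit 0x900080008002000200080d2883)))) 
(.lf (nat_lit 3825298612) (dlOf (nat_lit 1) (nat_lit 0x60028146281))))) (.nd (nat_lit 27) 
(.nd (nat_lit 7) (.nd (nat_lit 29) 
(.lf (nat_lit 4563492884) (dlOf (nat_lit 2) (nat_lit 0x40090061740802b0008011400200720008090003))) 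
(.lf (nat_lit 2952880148) (dlOf (nat_lit 1) (nat_lit 0x3c00200040008010002)))) 
(.lf (nat_lit 2952880276) (dlOf (nat_lit 1) (nat_lit 0x800200040008010282)))) (.nd (nat_lit 5) 
(.lf (nat_lit 4227952148) (dlOf (nat_lit 1) (nat_lit 0x4c00400e80008007082))) 
(.lf (nat_lit 4697710644) (dlOf (nat_lit 1) (nat_lit 0x120028090001)))))) (.nd (nat_lit 21) 
(.nd (nat_lit 5) (.nd (nat_lit 23) 
(.lf (nat_lit 3490799636) (dlOf (nat_lit 1) (nat_lit 0x20008003000200020008020483))) 
(.nd (nat_lit 24) 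
(.lf (nat_lit 43081748) (dlOf (nat_lit 2) (nat_lit 0x6b10800557f8001e95c000b48c0006000006d38280048008002c002003600092a0003))) 
(.lf (nat_lit 26304532) (dlOf (nat_lit 1) (nat_lit 0x18008000400200040008c30083))))) 
(.nd (nat_lit 24) 
(.lf (nat_lit 1343316020) (dlOf (nat_lit 20) (nat_lit 0xd383900005c04043c1c80002d02083a1ad027e0d40060058c09842aa0482142000209780c004ac028024800d40e5011707080898328042417802f80b701da04f813882540a140e4038c03c006b01c00f380a006e402805040000001295029a09780008c081ed04bc0004404093825e000200200641ab000609980007c1001683900002804051c1c8000130204b012f0000901018a072000038080a403900001a0406d01c80000c02031e0e40000581018a0720000280802e84bc02881c80000904012c0e40000401012a07200001c0801b057004b8292001612e00a3072000c835006a4176000a07901a60138000004001500081600002084600081e0783))) 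
(.lf (nat_lit 17915956) (dlOf (nat_lit 1) (nat_lit 0x8008002400200020008900c03))))) 
(.nd (nat_lit 7) (.nd (nat_lit 5) 
(.lf (nat_lit 40985108) (dlOf (nat_lit 1) (nat_lit 0x5c00400040009208702))) 
(.lf (nat_lit 53568564) (dlOf (nat_lit 1) (nat_lit 0x4004000200095f2882)))) (.nd (nat_lit 9) 
(.lf (nat_lit 36791444) (dlOf (nat_lit 1) (nat_lit 0x80080020002000a0009072b83))) 
(.lf (nat_lit 20017812) (dlOf (nat_lit 1) (nat_lit 0x80080004002000200089d8c83))))))) 
(.nd (nat_lit 29) (.nd (nat_lit 9) (.nd (nat_lit 26) (.nd (nat_lit 10) 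
(.lf (nat_lit 16867412) (dlOf (nat_lit 8) (nat_lit 0x49e34801c5c500008a0800938d2000440200bbc690051b8a0001001001d71a400076040023bfe0071df9001de8b800171c401278d200a3c67001be2a80036fac000f7d2001371b0028b8a0008dc4c0056e2400093c0001384900083dac0006c400012e260002d0200c7c69005bb8a00285130000000c00d4002000800088e0282))) 
(.lf (nat_lit 8483924) (dlOf (nat_lit 1) (nat_lit 0x20018519301)))) (.nd (nat_lit 28) 
(.lf (nat_lit 6509650004) (dlOf (nat_lit 1) (nat_lit 0x20002000600080b0002))) 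
(.lf (nat_lit 335634516) (dlOf (nat_lit 1) (nat_lit 0x8004002c0018090002))))) (.nd (nat_lit 5) 
(.lf (nat_lit 20013652) (dlOf (nat_lit 1) (nat_lit 0x4004000200089d1682))) 
(.lf (nat_lit 8480372) (dlOf (nat_lit 2) (nat_lit 0x73280000000800f8008003400200140008513983))))) 
(.nd (nat_lit 5) (.nd (nat_lit 7) (.nd (nat_lit 9) 
(.lf (nat_lit 1006723156) (dlOf (nat_lit 1) (nat_lit 0x1160008020901))) 
(.lf (nat_lit 4899038804) (dlOf (nat_lit 1) (nat_lit 0xa0018053881)))) 
(.lf (nat_lit 5100365012) (dlOf (nat_lit 1) (nat_lit 0x20018052d81)))) (.nd (nat_lit 9) 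
(.lf (nat_lit 3825298548) (dlOf (nat_lit 1) (nat_lit 0x140018146081))) (.nd (nat_lit 11) 
(.lf (nat_lit 4899038836) (dlOf (nat_lit 1) (nat_lit 0x400400020008053982))) 
(.lf (nat_lit 1812033140) (dlOf (nat_lit 1) (nat_lit 0x400400020008147182)))))))) (.nd (nat_lit 26) 
(.nd (nat_lit 22) (.nd (nat_lit 30) (.nd (nat_lit 5) (.nd (nat_lit 6) (.nd (nat_lit 10) 
(.lf (nat_lit 50946580) (dlOf (nat_lit 1) (nat_lit 0x400094d8701))) 
(.lf (nat_lit 618004) (dlOf (nat_lit 2) (nat_lit 0x370d40033712000320400040018007081)))) 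
(.lf (nat_lit 42557524) (dlOf (nat_lit 2) (nat_lit 0x1b00000004204007000200200009260782)))) 
(.nd (nat_lit 7) 
(.lf (nat_lit 26828852) (dlOf (nat_lit 2) (nat_lit 0x2280000002502002e0018c80781))) 
(.nd (nat_lit 10) (.lf (nat_lit 28926132) (dlOf (nat_lit 1) (nat_lit 0x8008002000200020008da0483))) 
(.lf (nat_lit 617652) (dlOf (nat_lit 1) (nat_lit 0x10400200ba0008006282)))))) (.nd (nat_lit 6) 
(.nd (nat_lit 21) (.nd (nat_lit 27) 
(.lf (nat_lit 3221839892) (dlOf (nat_lit 3) (nat_lit 0x1d408c019c00201dc04600bce0181a0a80))) 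
(.lf (nat_lit 3892928532) (dlOf (nat_lit 2) (nat_lit 0x1c0580017f0200040028290801)))) 
(.lf (nat_lit 3492372500) (dlOf (nat_lit 1) (nat_lit 0x4002000200080c0a82)))) (.nd (nat_lit 5) 
(.lf (nat_lit 3221839956) (dlOf (nat_lit 3) (nat_lit 0x13202f00020170000441001380bc0001604005c004001400081a1602))) 
(.nd (nat_lit 7) 
(.lf (nat_lit 1342791796) (dlOf (nat_lit 1) (nat_lit 0x500080068002002000080c0083))) 
(.lf (nat_lit 1881759988) (dlOf (nat_lit 1) (nat_lit 0x400400560009002482))))))) (.nd (nat_lit 21) 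
(.nd (nat_lit 24) (.nd (nat_lit 5) 
(.lf (nat_lit 13197332) (dlOf (nat_lit 1) (nat_lit 0x20028700901))) 
(.lf (nat_lit 3494469684) (dlOf (nat_lit 1) (nat_lit 0x8008000400200020008230703)))) 
(.nd (nat_lit 25) 
(.lf (nat_lit 21585940) (dlOf (nat_lit 1) (nat_lit 0x580080078002001e0008a50283))) 
(.lf (nat_lit 55140372) (dlOf (nat_lit 1) (nat_lit 0x200196c0101))))) (.nd (nat_lit 9) 
(.nd (nat_lit 20) (.lf (nat_lit 15294484) (dlOf (nat_lit 1) (nat_lit 0x78002000a00087d0282))) 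
(.lf (nat_lit 24731668) (dlOf (nat_lit 2) (nat_lit 0xb06c0005804006800200100008bb0282)))) 
(.lf (nat_lit 7960084) (dlOf (nat_lit 1) (nat_lit 0x250002008a0008519c02)))))) (.nd (nat_lit 28) 
(.nd (nat_lit 6) (.nd (nat_lit 5) (.nd (nat_lit 21) (.nd (nat_lit 27) 
(.lf (nat_lit 4362690580) (dlOf (nat_lit 1) (nat_lit 0x200080d0901))) 
(.lf (nat_lit 3960037396) (dlOf (nat_lit 3) (nat_lit 0x1d408c01d1b0201dc04600d840181a0a80)))) 
(.lf (nat_lit 2754174996) (dlOf (nat_lit 1) (nat_lit 0x4002000200080c0a82)))) (.nd (nat_lit 22) 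
(.lf (nat_lit 4362690612) (dlOf (nat_lit 1) (nat_lit 0x10002000200080d1282))) 
(.lf (nat_lit 2756272180) (dlOf (nat_lit 1) (nat_lit 0x8008000400200020008230703))))) 
(.nd (nat_lit 21) (.nd (nat_lit 29) 
(.lf (nat_lit 201941076) (dlOf (nat_lit 1) (nat_lit 0x200180c1981))) 
(.lf (nat_lit 3960037460) (dlOf (nat_lit 4) (nat_lit 0x2dc0140002402002e00a0001181018f0050000880800180080098002000400081a1983)))) 
(.lf (nat_lit 2754175060) (dlOf (nat_lit 1) (nat_lit 0x34002000200080c1982))))) (.nd (nat_lit 5) 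
(.nd (nat_lit 29) (.nd (nat_lit 22) 
(.lf (nat_lit 470376468) (dlOf (nat_lit 1) (nat_lit 0x2800080c0001))) 
(.lf (nat_lit 474570772) (dlOf (nat_lit 1) (nat_lit 0x8002002000091a0082)))) (.nd (nat_lit 6) 
(.lf (nat_lit 4228472852) (dlOf (nat_lit 1) (nat_lit 0x200080d0901))) 
(.lf (nat_lit 4096352340) (dlOf (nat_lit 1) (nat_lit 0x60008001000200020008100683))))) 
(.nd (nat_lit 6) (.nd (nat_lit 27) 
(.lf (nat_lit 1409900596) (dlOf (nat_lit 1) (nat_lit 0x280080004002000c00080a0b03))) 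
(.lf (nat_lit 4228472884) (dlOf (nat_lit 4) (nat_lit 0x180580002502000a02c000110100050160000800800080080010002000400080d1303)))) 
(.nd (nat_lit 7) 
(.lf (nat_lit 470376564) (dlOf (nat_lit 1) (nat_lit 0x500080068002002000080c0083))) 
(.lf (nat_lit 474570996) (dlOf (nat_lit 2) (nat_lit 0x60d9000468191a2480))))))))) (.nd (nat_lit 6) 
(.nd (nat_lit 5) (.nd (nat_lit 26) (.nd (nat_lit 7) (.nd (nat_lit 27) (.nd (nat_lit 12) 
(.lf (nat_lit 5905670420) (dlOf (nat_lit 8) (nat_lit 0x500440020000002360400100000011a01000100000087808000800000410040004000001ea0200020000005a0100040000001fc08025000801e8002001000080b0483))) 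
(.lf (nat_lit 94484) (dlOf (nat_lit 1) (nat_lit 0x1000018008081)))) (.nd (nat_lit 9) 
(.lf (nat_lit 1208049940) (dlOf (nat_lit 2) (nat_lit 0xa013800364080018008001400200060008090a83))) 
(.lf (nat_lit 3087099668) (dlOf (nat_lit 1) (nat_lit 0x60028143c01))))) (.nd (nat_lit 9) 
(.nd (nat_lit 10) (.lf (nat_lit 59861396) (dlOf (nat_lit 1) (nat_lit 0x400200020009844e82))) 
(.lf (nat_lit 43607444) (dlOf (nat_lit 1) (nat_lit 0x4002000200092a3602)))) 
(.lf (nat_lit 9009044) (dlOf (nat_lit 1) (nat_lit 0x1c0040006000851a302))))) (.nd (nat_lit 31) 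
(.nd (nat_lit 9) (.nd (nat_lit 12) 
(.lf (nat_lit 1677811988) (dlOf (nat_lit 5) (nat_lit 0xb027800300e0004404c002200000123040002013000910080010098003ec0400180a2000c03a000601c8005009c00124100158002003a0008090482))) 
(.lf (nat_lit 469856532) (dlOf (nat_lit 1) (nat_lit 0x800200020008008082)))) 
(.lf (nat_lit 201418516) (dlOf (nat_lit 2) (nat_lit 0x1402a801180f4024c0700002306001c0028003c01)))) 
(.nd (nat_lit 27) (.lf (nat_lit 2483118356) (dlOf (nat_lit 1) (nat_lit 0x400200020008013d02))) 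
(.nd (nat_lit 29) (.lf (nat_lit 2348900628) (dlOf (nat_lit 1) (nat_lit 0x400200020008013d02))) 
(.lf (nat_lit 3959513364) (dlOf (nat_lit 8) (nat_lit 0x10053000801b8004009000340400016000000e20500030000007080800180000038004000c04000172020006020000b701000e029800680dc00180480026020000600a8002482800100b8000100401bc00200260008090482))))))) 
(.nd (nat_lit 28) (.nd (nat_lit 9) (.nd (nat_lit 7) 
(.lf (nat_lit 2348900660) (dlOf (nat_lit 1) (nat_lit 0x1c800800b8002001a0008014c03))) 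
(.nd (nat_lit 10) 
(.lf (nat_lit 20017588) (dlOf (nat_lit 1) (nat_lit 0x100080008002000200089d8503))) 
(.lf (nat_lit 8480180) (dlOf (nat_lit 1) (nat_lit 0x400200020008513602))))) (.nd (nat_lit 10) 
(.nd (nat_lit 12) (.lf (nat_lit 20015924) (dlOf (nat_lit 1) (nat_lit 0x4002000200089d5c02))) 
(.lf (nat_lit 97076) (dlOf (nat_lit 1) (nat_lit 0x800800080020006000800bc83)))) 
(.lf (nat_lit 91956) (dlOf (nat_lit 1) (nat_lit 0x20018003d81))))) (.nd (nat_lit 7) 
(.nd (nat_lit 26) (.nd (nat_lit 27) 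
(.lf (nat_lit 2416009524) (dlOf (nat_lit 1) (nat_lit 0x400400020008014c02))) 
(.lf (nat_lit 2550227252) (dlOf (nat_lit 1) (nat_lit 0x400400020008014c02)))) 
(.lf (nat_lit 2483118388) (dlOf (nat_lit 1) (nat_lit 0x1c800800b8002001a0008014c03)))) 
(.nd (nat_lit 9) 
(.lf (nat_lit 2080465332) (dlOf (nat_lit 3) (nat_lit 0x40720016002000c0270018005000364100020008001400200060008091003))) 
(.nd (nat_lit 10) (.lf (nat_lit 4563495860) (dlOf (nat_lit 1) (nat_lit 0x500008095d01))) 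
(.lf (nat_lit 3087099828) (dlOf (nat_lit 1) (nat_lit 0x40002008e0008144382)))))))) (.nd (nat_lit 7) 
(.nd (nat_lit 26) (.nd (nat_lit 29) (.nd (nat_lit 5) (.nd (nat_lit 24) 
(.lf (nat_lit 1208050004) (dlOf (nat_lit 1) (nat_lit 0x320008090d81))) 
(.lf (nat_lit 16867668) (dlOf (nat_lit 1) (nat_lit 0x200188e0881)))) 
(.lf (nat_lit 8480628) (dlOf (nat_lit 1) (nat_lit 0x400200020008514082)))) (.nd (nat_lit 9) 
(.nd (nat_lit 31) (.lf (nat_lit 939616596) (dlOf (nat_lit 1) (nat_lit 0x400400020008144e02))) 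
(.lf (nat_lit 3087100244) (dlOf (nat_lit 1) (nat_lit 0x400400020008144e02)))) 
(.lf (nat_lit 671180628) (dlOf (nat_lit 2) (nat_lit 0x700a0000000801600080034002005c0008143f03))))) 
(.nd (nat_lit 5) (.nd (nat_lit 11) 
(.lf (nat_lit 2348900692) (dlOf (nat_lit 3) (nat_lit 0x1000000012810003017000074080030008006800200220008014d83))) 
(.nd (nat_lit 27) (.lf (nat_lit 4362168660) (dlOf (nat_lit 1) (nat_lit 0x5a0018004e01))) 
(.lf (nat_lit 469854548) (dlOf (nat_lit 1) (nat_lit 0x400018004e01))))) (.nd (nat_lit 27) 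
(.lf (nat_lit 4362168180) (dlOf (nat_lit 1) (nat_lit 0x20018004081))) 
(.lf (nat_lit 469854068) (dlOf (nat_lit 1) (nat_lit 0x10008001800200020008004083)))))) 
(.nd (nat_lit 10) (.nd (nat_lit 9) (.nd (nat_lit 5) (.nd (nat_lit 11) 
(.lf (nat_lit 1881235924) (dlOf (nat_lit 1) (nat_lit 0x20018e81181))) 
(.lf (nat_lit 2818664916) (dlOf (nat_lit 1) (nat_lit 0x4004000400180d4e82)))) 
(.lf (nat_lit 39938548) (dlOf (nat_lit 1) (nat_lit 0x400291f4f01)))) (.nd (nat_lit 19) 
(.nd (nat_lit 11) (.lf (nat_lit 671179732) (dlOf (nat_lit 1) (nat_lit 0x400400020018142882))) 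
(.lf (nat_lit 20016084) (dlOf (nat_lit 1) (nat_lit 0x200289d5d81)))) (.nd (nat_lit 26) 
(.lf (nat_lit 1611228116) (dlOf (nat_lit 1) (nat_lit 0x1000400040008122882))) 
(.lf (nat_lit 738812884) (dlOf (nat_lit 1) (nat_lit 0x20028122881)))))) (.nd (nat_lit 26) 
(.nd (nat_lit 5) (.nd (nat_lit 9) 
(.lf (nat_lit 1610704340) (dlOf (nat_lit 1) (nat_lit 0x48008001800200040008093603))) 
(.lf (nat_lit 3087099860) (dlOf (nat_lit 1) (nat_lit 0x400400020008144502)))) 
(.lf (nat_lit 268527092) (dlOf (nat_lit 1) (nat_lit 0x1a0008053601)))) (.nd (nat_lit 11) 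
(.nd (nat_lit 27) 
(.lf (nat_lit 4899038708) (dlOf (nat_lit 2) (nat_lit 0x14060001560200020008053601))) 
(.lf (nat_lit 4496385524) (dlOf (nat_lit 1) (nat_lit 0x220028053601)))) 
(.lf (nat_lit 1543597556) (dlOf (nat_lit 4) (nat_lit 0x40340001502001401a0000281000a00d000010080130008004000200140008146f03))))))))) 
(.nd (nat_lit 5) (.nd (nat_lit 28) (.nd (nat_lit 21) (.nd (nat_lit 31) (.nd (nat_lit 19) 
(.nd (nat_lit 29) (.nd (nat_lit 22) (.nd (nat_lit 25) 
(.lf (nat_lit 4362428436) (dlOf (nat_lit 2) (nat_lit 0x5403300a3f018070500))) 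
(.lf (nat_lit 33906708) (dlOf (nat_lit 1) (nat_lit 0x3c00400020018f70082)))) 
(.lf (nat_lit 4546580) (dlOf (nat_lit 1) (nat_lit 0x20018290001)))) (.nd (nat_lit 6) 
(.lf (nat_lit 537223188) (dlOf (nat_lit 1) (nat_lit 0x40008060481))) 
(.lf (nat_lit 1610965076) (dlOf (nat_lit 1) (nat_lit 0x80080004002000200080a1783))))) 
(.nd (nat_lit 20) (.nd (nat_lit 6) 
(.lf (nat_lit 537747604) (dlOf (nat_lit 1) (nat_lit 0x80008154001))) 
(.lf (nat_lit 13459540) (dlOf (nat_lit 1) (nat_lit 0x300028721981)))) (.nd (nat_lit 23) 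
(.lf (nat_lit 18702356) (dlOf (nat_lit 2) (nat_lit 0x3624f0002240803a800800f8002001a0008960383))) 
(.lf (nat_lit 27090964) (dlOf (nat_lit 2) (nat_lit 0x3bb6380035604007000400740008ca0482)))))) 
(.nd (nat_lit 27) (.nd (nat_lit 32) (.nd (nat_lit 8) 
(.lf (nat_lit 3288686612) (dlOf (nat_lit 2) (nat_lit 0x6e02d007f10180c0a80))) 
(.lf (nat_lit 2751817492) (dlOf (nat_lit 2) (nat_lit 0x4505d803cc1d201360e70120071808002c403d415601de09f00f5049007a80040004624004c00400540018003c02)))) 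
(.nd (nat_lit 6) 
(.lf (nat_lit 6509912084) (dlOf (nat_lit 1) (nat_lit 0xc00080010002001c0008160483))) 
(.lf (nat_lit 6442803284) (dlOf (nat_lit 1) (nat_lit 0x8002000200081c1082))))) (.nd (nat_lit 30) 
(.nd (nat_lit 6) 
(.lf (nat_lit 2818924564) (dlOf (nat_lit 1) (nat_lit 0xd0008006000200340008130003))) 
(.lf (nat_lit 2818924756) (dlOf (nat_lit 1) (nat_lit 0x10008009000200200008130503)))) 
(.nd (nat_lit 29) (.lf (nat_lit 3355795476) (dlOf (nat_lit 1) (nat_lit 0x2c00400040008120382))) 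
(.lf (nat_lit 3892666388) (dlOf (nat_lit 1) (nat_lit 0x800200300008180082))))))) (.nd (nat_lit 19) 
(.nd (nat_lit 7) (.nd (nat_lit 10) (.nd (nat_lit 20) 
(.lf (nat_lit 2449428) (dlOf (nat_lit 1) (nat_lit 0x10008000800200040008160703))) 
(.lf (nat_lit 16080916) (dlOf (nat_lit 3) (nat_lit 0x21ce800047c40008c04002c7d100033d380049ce8001160c0034004001c0008860382)))) 
(.lf (nat_lit 20282388) (dlOf (nat_lit 1) (nat_lit 0x4004000a00089dbf02)))) (.nd (nat_lit 6) 
(.nd (nat_lit 11) (.nd (nat_lit 23) 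
(.lf (nat_lit 3498132) (dlOf (nat_lit 1) (nat_lit 0x150002007a0008200182))) 
(.lf (nat_lit 28663956) (dlOf (nat_lit 1) (nat_lit 0x400200020008da0482)))) 
(.lf (nat_lit 20281492) (dlOf (nat_lit 1) (nat_lit 0x200189da881)))) 
(.lf (nat_lit 52782292) (dlOf (nat_lit 1) (nat_lit 0x400400020009572d82))))) (.nd (nat_lit 22) 
(.nd (nat_lit 6) (.nd (nat_lit 20) 
(.lf (nat_lit 2754437140) (dlOf (nat_lit 3) (nat_lit 0x35088c0a1040e04f61d501da0e7802d0720030c38204680000002307003f1118114881c07040000004506004c00180e0181))) 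
(.lf (nat_lit 2755485716) (dlOf (nat_lit 2) (nat_lit 0x781e40005c040034002003e00081a0382)))) 
(.lf (nat_lit 4022356) (dlOf (nat_lit 2) (nat_lit 0x5000000000018270d80)))) (.nd (nat_lit 8) 
(.lf (nat_lit 8223252) (dlOf (nat_lit 1) (nat_lit 0x3000800180020004000851b283))) 
(.lf (nat_lit 58549524) (dlOf (nat_lit 4) (nat_lit 0x90e800001b0200487400000d0100243a00000640800780080004002004e00097e3003))))))) 
(.nd (nat_lit 26) (.nd (nat_lit 19) (.nd (nat_lit 6) (.nd (nat_lit 7) 
(.lf (nat_lit 4026884116) (dlOf (nat_lit 2) (nat_lit 0x6e02d008358180c0a80))) (.nd (nat_lit 8) 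
(.lf (nat_lit 1880450196) (dlOf (nat_lit 1) (nat_lit 0x400400020008982b82))) 
(.lf (nat_lit 5637497236) (dlOf (nat_lit 1) (nat_lit 0x480080034002000400080f6483))))) 
(.nd (nat_lit 32) (.nd (nat_lit 29) 
(.lf (nat_lit 2416271444) (dlOf (nat_lit 1) (nat_lit 0xc00180c1981))) 
(.lf (nat_lit 1879400532) (dlOf (nat_lit 1) (nat_lit 0x20008121601)))) (.nd (nat_lit 27) 
(.lf (nat_lit 4563755092) (dlOf (nat_lit 1) (nat_lit 0x8002000800080d0502))) 
(.lf (nat_lit 4697972820) (dlOf (nat_lit 1) (nat_lit 0x8002000800080d0502)))))) (.nd (nat_lit 20) 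
(.nd (nat_lit 10) (.nd (nat_lit 21) 
(.lf (nat_lit 1343053844) (dlOf (nat_lit 2) (nat_lit 0x9044e000e20b00023028140180))) 
(.lf (nat_lit 3492634644) (dlOf (nat_lit 3) (nat_lit 0x3508380a103e404f61c301da0de802d06cc030c35804680000002307003f107011487c807040000004506004c00180e0181)))) 
(.lf (nat_lit 1879931924) (dlOf (nat_lit 1) (nat_lit 0x4002000200083dbf02)))) (.nd (nat_lit 31) 
(.lf (nat_lit 1346199572) (dlOf (nat_lit 2) (nat_lit 0x60b3000748080008008002c00200140008e60083))) 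
(.lf (nat_lit 3493683220) (dlOf (nat_lit 3) (nat_lit 0x2c07b0001501000c03d8000a40800180080004002000200081a0403)))))) 
(.nd (nat_lit 30) (.nd (nat_lit 31) (.nd (nat_lit 19) 
(.lf (nat_lit 471162900) (dlOf (nat_lit 2) (nat_lit 0x11e024000128182a0300))) 
(.lf (nat_lit 470638612) (dlOf (nat_lit 2) (nat_lit 0x9044e000e20f00023028140180)))) 
(.nd (nat_lit 9) (.nd (nat_lit 29) 
(.lf (nat_lit 2617597972) (dlOf (nat_lit 3) (nat_lit 0x400d000068040028068000000200100008100381))) 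
(.lf (nat_lit 3154468884) (dlOf (nat_lit 3) (nat_lit 0x1400a2010404f000ff8200280278007f40800b80080030002001000081a0083)))) 
(.lf (nat_lit 2483386900) (dlOf (nat_lit 2) (nat_lit 0xa0100060c8180fb280))))) (.nd (nat_lit 7) 
(.nd (nat_lit 19) (.nd (nat_lit 27) 
(.lf (nat_lit 1409638420) (dlOf (nat_lit 1) (nat_lit 0x40008060481))) 
(.lf (nat_lit 4228210708) (dlOf (nat_lit 2) (nat_lit 0x5403200af6818070500)))) 
(.lf (nat_lit 4096614420) (dlOf (nat_lit 1) (nat_lit 0x4004001a0018140a02)))) (.nd (nat_lit 19) 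
(.lf (nat_lit 3691339924) (dlOf (nat_lit 1) (nat_lit 0x40018160481))) 
(.lf (nat_lit 1410162836) (dlOf (nat_lit 1) (nat_lit 0x80008154001)))))))) (.nd (nat_lit 20) 
(.nd (nat_lit 27) (.nd (nat_lit 24) (.nd (nat_lit 6) (.nd (nat_lit 19) 
(.lf (nat_lit 2753912884) (dlOf (nat_lit 1) (nat_lit 0x500080028002001400080a0a83))) 
(.lf (nat_lit 1343053876) (dlOf (nat_lit 1) (nat_lit 0x400400020018140702)))) (.nd (nat_lit 8) 
(.lf (nat_lit 5100626036) (dlOf (nat_lit 1) (nat_lit 0x400200020008100a82))) 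
(.lf (nat_lit 2483382132) (dlOf (nat_lit 1) (nat_lit 0x4004000200180f4082))))) (.nd (nat_lit 19) 
(.nd (nat_lit 7) (.lf (nat_lit 25518132) (dlOf (nat_lit 1) (nat_lit 0x560018c10001))) 
(.lf (nat_lit 21323956) (dlOf (nat_lit 1) (nat_lit 0x20800400720008a31682)))) (.nd (nat_lit 12) 
(.lf (nat_lit 21848116) (dlOf (nat_lit 1) (nat_lit 0x1000400060008a70602))) 
(.lf (nat_lit 19755060) (dlOf (nat_lit 1) (nat_lit 0x400189d7c81)))))) (.nd (nat_lit 7) 
(.nd (nat_lit 6) (.nd (nat_lit 19) 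
(.lf (nat_lit 3892666420) (dlOf (nat_lit 1) (nat_lit 0x20008180481))) 
(.lf (nat_lit 470638644) (dlOf (nat_lit 1) (nat_lit 0x400400020018140702)))) (.nd (nat_lit 26) 
(.lf (nat_lit 5234843764) (dlOf (nat_lit 1) (nat_lit 0x400400020008100d82))) 
(.lf (nat_lit 3691339892) (dlOf (nat_lit 7) (nat_lit 0x5c00a001e002009602c004d015802600a80158052006601b002200c001d8050010c02200b4005005500100260000003ac2c0008004001d402000c02e003f016002100ac01000540094029001d00d800880600094028005c011004e002802480080104000001d3180008000000e6010005000000728080018008009c002000a0008160483))))) 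
(.nd (nat_lit 10) (.nd (nat_lit 26) 
(.lf (nat_lit 1208311988) (dlOf (nat_lit 2) (nat_lit 0x300a400032040004002000200080c1682))) 
(.lf (nat_lit 738549940) (dlOf (nat_lit 2) (nat_lit 0x50290000d40801380080018002001600080a2f03)))) 
(.lf (nat_lit 4429544628) (dlOf (nat_lit 1) (nat_lit 0x72001811c201)))))) (.nd (nat_lit 19) 
(.nd (nat_lit 6) (.nd (nat_lit 7) (.nd (nat_lit 26) 
(.lf (nat_lit 1400884) (dlOf (nat_lit 3) (nat_lit 0x5f00000071c0800f80000037a0400b0002005400080c0d02))) 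
(.lf (nat_lit 68509748) (dlOf (nat_lit 1) (nat_lit 0x800400080008590c02)))) (.nd (nat_lit 12) 
(.lf (nat_lit 20278452) (dlOf (nat_lit 1) (nat_lit 0x58008000c002000600089d6283))) 
(.lf (nat_lit 20282548) (dlOf (nat_lit 1) (nat_lit 0x200289dc201))))) (.nd (nat_lit 7) 
(.nd (nat_lit 23) (.lf (nat_lit 3498100) (dlOf (nat_lit 2) (nat_lit 0x1c45b00118018200080))) 
(.lf (nat_lit 28663924) (dlOf (nat_lit 1) (nat_lit 0x8008000400200020008da0483)))) 
(.lf (nat_lit 51733492) (dlOf (nat_lit 1) (nat_lit 0x20019512881))))) (.nd (nat_lit 6) 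
(.nd (nat_lit 22) (.nd (nat_lit 21) 
(.lf (nat_lit 27090996) (dlOf (nat_lit 1) (nat_lit 0x800200060008ca0782))) 
(.lf (nat_lit 4022324) (dlOf (nat_lit 2) (nat_lit 0x7980000037a040044002000a0008270b82)))) 
(.nd (nat_lit 7) (.lf (nat_lit 16605236) (dlOf (nat_lit 1) (nat_lit 0x10004000400088c0882))) 
(.lf (nat_lit 58549428) (dlOf (nat_lit 7) (nat_lit 0x50e820005b02000480a00183a0800168100061d0000066040090e80000230200387400001101001c3a000007c0800300080010002000800097e2c03))))) 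
(.nd (nat_lit 7) (.lf (nat_lit 8222580) (dlOf (nat_lit 1) (nat_lit 0x800800040020002000851a303))) 
(.nd (nat_lit 8) (.lf (nat_lit 12411124) (dlOf (nat_lit 1) (nat_lit 0x400286c0481))) 
(.lf (nat_lit 60646388) (dlOf (nat_lit 1) (nat_lit 0x200298c2881)))))))))) (.nd (nat_lit 5) 
(.nd (nat_lit 6) (.nd (nat_lit 28) (.nd (nat_lit 20) (.nd (nat_lit 19) (.nd (nat_lit 11) 
(.nd (nat_lit 18) (.nd (nat_lit 22) (.nd (nat_lit 31) 
(.lf (nat_lit 5435940884) (dlOf (nat_lit 1) (nat_lit 0x9800200420008040002))) 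
(.lf (nat_lit 3288457236) (dlOf (nat_lit 1) (nat_lit 0x60004001c0008020482)))) 
(.lf (nat_lit 12705812) (dlOf (nat_lit 1) (nat_lit 0x2400186d0701)))) (.nd (nat_lit 7) 
(.lf (nat_lit 12967956) (dlOf (nat_lit 1) (nat_lit 0x400086f0181))) 
(.lf (nat_lit 23453844) (dlOf (nat_lit 1) (nat_lit 0x400200020008b80182))))) (.nd (nat_lit 7) 
(.nd (nat_lit 9) 
(.lf (nat_lit 1677850644) (dlOf (nat_lit 1) (nat_lit 0x4000800040020002000811a603))) 
(.lf (nat_lit 6576795156) (dlOf (nat_lit 2) (nat_lit 0x200400010018147080)))) (.nd (nat_lit 8) 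
(.lf (nat_lit 6509686420) (dlOf (nat_lit 1) (nat_lit 0x20028147201))) 
(.lf (nat_lit 3221355412) (dlOf (nat_lit 1) (nat_lit 0x800800040020002000811bc83)))))) 
(.nd (nat_lit 21) (.nd (nat_lit 7) (.nd (nat_lit 18) 
(.lf (nat_lit 2819219476) (dlOf (nat_lit 1) (nat_lit 0x4004000200181f0382))) 
(.lf (nat_lit 42852372) (dlOf (nat_lit 1) (nat_lit 0x40009280081)))) 
(.lf (nat_lit 9041812) (dlOf (nat_lit 1) (nat_lit 0x40020002000851a302)))) (.nd (nat_lit 18) 
(.nd (nat_lit 24) 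
(.lf (nat_lit 11132948) (dlOf (nat_lit 2) (nat_lit 0x8c22800048080008008000c00200040008660383))) 
(.lf (nat_lit 27910164) (dlOf (nat_lit 20) (nat_lit 0x5fb54800050040359aa40002602002ad520000f81001b6a900007408014b5480009a800001a040090d520000c81000e6a90000600801535480002e040109aa400014020010d520000981000a6a90000400801735480001e0400c1aa40000d020006d52000060100456a90000140800ab54800006040169aa400002020032d52000008100406a9000000080010008004c00200020008d40303)))) 
(.lf (nat_lit 3006484) (dlOf (nat_lit 3) (nat_lit 0x206c8000c40800283640006004000c004001800181f0382)))))) 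
(.nd (nat_lit 7) (.nd (nat_lit 18) (.nd (nat_lit 19) (.nd (nat_lit 21) 
(.lf (nat_lit 47308820) (dlOf (nat_lit 1) (nat_lit 0x80080008002000800093d0283))) 
(.lf (nat_lit 28434452) (dlOf (nat_lit 2) (nat_lit 0x365198002300803a800800f8002001a0008d90383)))) 
(.lf (nat_lit 24764436) (dlOf (nat_lit 2) (nat_lit 0x2d29000667a8000b0100118008000400200020008bb0283)))) 
(.nd (nat_lit 8) (.nd (nat_lit 9) 
(.lf (nat_lit 54389780) (dlOf (nat_lit 1) (nat_lit 0x80029655f81))) 
(.lf (nat_lit 2755518996) (dlOf (nat_lit 1) (nat_lit 0xc00181b0d81)))) 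
(.lf (nat_lit 20832532) (dlOf (nat_lit 1) (nat_lit 0x200289e4a01))))) (.nd (nat_lit 8) 
(.nd (nat_lit 21) (.nd (nat_lit 19) 
(.lf (nat_lit 51766420) (dlOf (nat_lit 1) (nat_lit 0x400400020009512b82))) 
(.lf (nat_lit 60679316) (dlOf (nat_lit 1) (nat_lit 0x4004000200098c2b82)))) (.nd (nat_lit 10) 
(.lf (nat_lit 28696724) (dlOf (nat_lit 1) (nat_lit 0x8008002800200040008da0483))) 
(.lf (nat_lit 53863572) (dlOf (nat_lit 2) (nat_lit 0x25fa0005a8195f2b80))))) (.nd (nat_lit 9) 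
(.nd (nat_lit 19) (.lf (nat_lit 61990292) (dlOf (nat_lit 1) (nat_lit 0x80029923601))) 
(.lf (nat_lit 43640212) (dlOf (nat_lit 1) (nat_lit 0x10008000c002000400092a3603)))) 
(.lf (nat_lit 20048788) (dlOf (nat_lit 1) (nat_lit 0x4002000200089d5c82))))))) (.nd (nat_lit 27) 
(.nd (nat_lit 7) (.nd (nat_lit 18) (.nd (nat_lit 9) 
(.lf (nat_lit 1881268244) (dlOf (nat_lit 1) (nat_lit 0x800400040008e80002))) 
(.lf (nat_lit 4094288404) (dlOf (nat_lit 1) (nat_lit 0x8008000400200020008037d03)))) 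
(.nd (nat_lit 20) (.nd (nat_lit 29) 
(.lf (nat_lit 4563787796) (dlOf (nat_lit 12) (nat_lit 0x801900058078006803a005001c005800a8011805001080240046011000320800220198001800802d00cc00032040084066000801e0000c0200a4019800800780002c0800c406600015020022033001600f0000501004380cc0000a040008066000040200680330000101003d01980000008000800800a8002000200080e0283))) 
(.lf (nat_lit 805691412) (dlOf (nat_lit 1) (nat_lit 0x380028190381)))) 
(.lf (nat_lit 1343610900) (dlOf (nat_lit 1) (nat_lit 0x200182b0401))))) (.nd (nat_lit 26) 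
(.nd (nat_lit 8) 
(.lf (nat_lit 805432980) (dlOf (nat_lit 1) (nat_lit 0x13000800a800200260008117203))) 
(.nd (nat_lit 10) 
(.lf (nat_lit 1881268628) (dlOf (nat_lit 2) (nat_lit 0xa0320008017c002ca08001000400280018e81002))) 
(.lf (nat_lit 1345447316) (dlOf (nat_lit 2) (nat_lit 0x830b28006cc080080008000400200160008bb3603))))) 
(.nd (nat_lit 8) (.lf (nat_lit 4095861908) (dlOf (nat_lit 1) (nat_lit 0x200280e2b81))) 
(.nd (nat_lit 18) (.lf (nat_lit 6241248660) (dlOf (nat_lit 2) (nat_lit 0x26014000aa018053600))) 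
(.lf (nat_lit 4096124308) (dlOf (nat_lit 1) (nat_lit 0x4004000200080e3602))))))) (.nd (nat_lit 10) 
(.nd (nat_lit 19) (.nd (nat_lit 18) (.nd (nat_lit 26) 
(.lf (nat_lit 2550259732) (dlOf (nat_lit 1) (nat_lit 0x80008004c00200180008020483))) 
(.lf (nat_lit 5301723156) (dlOf (nat_lit 2) (nat_lit 0xa00000de4818040000)))) (.nd (nat_lit 7) 
(.lf (nat_lit 4228243476) (dlOf (nat_lit 1) (nat_lit 0x890008000400201340008090003))) 
(.lf (nat_lit 1476780180) (dlOf (nat_lit 2) (nat_lit 0x14017000c58181a0480))))) (.nd (nat_lit 9) 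
(.nd (nat_lit 20) 
(.lf (nat_lit 470409236) (dlOf (nat_lit 6) (nat_lit 0x8247000911e000308dc00042e2000fb08000a22f000211300028830001c3660000708001022f00041130002883000183660000608001222f000b11300030830000c3660000408001222f0006113000488300018366000010800d600080e0581))) 
(.lf (nat_lit 471457812) (dlOf (nat_lit 1) (nat_lit 0xd60018300a01)))) 
(.lf (nat_lit 473555476) (dlOf (nat_lit 1) (nat_lit 0x20028f68701))))) (.nd (nat_lit 9) 
(.nd (nat_lit 11) 
(.lf (nat_lit 2617373972) (dlOf (nat_lit 2) (nat_lit 0xc058000e202000200080a9681))) 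
(.lf (nat_lit 5838597396) (dlOf (nat_lit 1) (nat_lit 0x200280f6701)))) (.nd (nat_lit 8) 
(.lf (nat_lit 5838597652) (dlOf (nat_lit 2) (nat_lit 0xb0068005a032000d018800c80bc00c805c004e02c0017012000c003400064200080004002000180f7082))) 
(.lf (nat_lit 3087132436) (dlOf (nat_lit 1) (nat_lit 0x1c0018143c01)))))))) (.nd (nat_lit 18) 
(.nd (nat_lit 7) (.nd (nat_lit 26) (.nd (nat_lit 24) (.nd (nat_lit 8) (.nd (nat_lit 19) 
(.lf (nat_lit 268558420) (dlOf (nat_lit 2) (nat_lit 0x9002400003018070680))) 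
(.lf (nat_lit 134864980) (dlOf (nat_lit 5) (nat_lit 0x35020803f80e002240600002906011403000013810093021802b00fc0004a08007408600a803a001c00980006c180138008004c002001400080d0d83)))) 
(.lf (nat_lit 536996180) (dlOf (nat_lit 1) (nat_lit 0x8008000400201cc0008004e03)))) 
(.nd (nat_lit 9) (.nd (nat_lit 23) 
(.lf (nat_lit 16900180) (dlOf (nat_lit 2) (nat_lit 0x8a1b0003c87e0003604000600188e0281))) 
(.lf (nat_lit 25288788) (dlOf (nat_lit 1) (nat_lit 0x60008bf0d81)))) 
(.lf (nat_lit 32107092) (dlOf (nat_lit 1) (nat_lit 0x400400040008ef5302))))) (.nd (nat_lit 27) 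
(.nd (nat_lit 10) 
(.lf (nat_lit 5435940948) (dlOf (nat_lit 2) (nat_lit 0xe01f800680f80034074003203500070000001a82800f800800e0002000c0008040503))) 
(.lf (nat_lit 1677845588) (dlOf (nat_lit 1) (nat_lit 0x18008028000200620008112883)))) 
(.nd (nat_lit 19) 
(.lf (nat_lit 5301723220) (dlOf (nat_lit 2) (nat_lit 0xe01f800680f80034074003203700070000001842800f800800e0002000c0008040503))) 
(.lf (nat_lit 201973844) (dlOf (nat_lit 5) (nat_lit 0x35020803f80e002240600002906011403000013810093021802b00fc0004a08007408600a803a001c00980006c180138008004c002001400080d0d83)))))) 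
(.nd (nat_lit 8) (.nd (nat_lit 12) (.nd (nat_lit 10) 
(.lf (nat_lit 4317396) (dlOf (nat_lit 1) (nat_lit 0x20028290501))) 
(.lf (nat_lit 3825331412) (dlOf (nat_lit 1) (nat_lit 0x40018146481)))) (.nd (nat_lit 28) 
(.lf (nat_lit 3221355732) (dlOf (nat_lit 1) (nat_lit 0x2002811c381))) 
(.lf (nat_lit 805436628) (dlOf (nat_lit 1) (nat_lit 0x40040002001811c382))))) (.nd (nat_lit 9) 
(.nd (nat_lit 21) (.lf (nat_lit 3020022228) (dlOf (nat_lit 1) (nat_lit 0x4e00280e7b01))) 
(.lf (nat_lit 1881268692) (dlOf (nat_lit 5) (nat_lit 0x280ca000220200100650000481000403280001408001019400000040010004001a0018e81182)))) 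
(.lf (nat_lit 49931220) (dlOf (nat_lit 1) (nat_lit 0x1000294c2881)))))) (.nd (nat_lit 29) 
(.nd (nat_lit 19) (.nd (nat_lit 32) (.nd (nat_lit 30) (.nd (nat_lit 20) 
(.lf (nat_lit 29745236) (dlOf (nat_lit 1) (nat_lit 0xc00200020008e30282))) 
(.lf (nat_lit 1433684) (dlOf (nat_lit 1) (nat_lit 0x400180c1081)))) (.nd (nat_lit 26) 
(.lf (nat_lit 1074126932) (dlOf (nat_lit 1) (nat_lit 0x2400180c1981))) 
(.lf (nat_lit 3288719444) (dlOf (nat_lit 6) (nat_lit 0x100120000cc0800e00d80006404013c06c0056032001c015800080900006210009406c006e0320001802000501b000080ac000000801b0004000400180d0d82))))) 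
(.nd (nat_lit 8) 
(.lf (nat_lit 6509944916) (dlOf (nat_lit 2) (nat_lit 0x74058000340200020018171081))) 
(.nd (nat_lit 27) (.lf (nat_lit 4295352660) (dlOf (nat_lit 1) (nat_lit 0x200281a0681))) 
(.lf (nat_lit 4429570388) (dlOf (nat_lit 1) (nat_lit 0x200281a0681)))))) (.nd (nat_lit 28) 
(.nd (nat_lit 20) (.lf (nat_lit 13492308) (dlOf (nat_lit 2) (nat_lit 0x1e00000012818730d80))) 
(.lf (nat_lit 4055124) (dlOf (nat_lit 1) (nat_lit 0x400400020008270d82)))) (.nd (nat_lit 8) 
(.lf (nat_lit 3492673620) (dlOf (nat_lit 1) (nat_lit 0x8a00180fa701))) 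
(.lf (nat_lit 472769876) (dlOf (nat_lit 2) (nat_lit 0x150b2800044080058008001c00200460008b03383)))))) 
(.nd (nat_lit 7) (.nd (nat_lit 26) (.nd (nat_lit 28) (.nd (nat_lit 32) 
(.lf (nat_lit 1610997844) (dlOf (nat_lit 4) (nat_lit 0x25c0a60016035009801080003818043814c02000420000a04002805300130108000241007000080060002002600080b0683))) 
(.lf (nat_lit 5905965140) (dlOf (nat_lit 2) (nat_lit 0x74056000340200020018171081)))) 
(.lf (nat_lit 4026916948) (dlOf (nat_lit 6) (nat_lit 0x100120000cc0800e00d80006404013c06c0056032001c015800080900006210009406c006e0320001802000501b000080ac000000801b0004000400180d0d82)))) 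
(.lf (nat_lit 738582612) (dlOf (nat_lit 4) (nat_lit 0x25c0a60016035009801080003818043814c02000420000a04002805300130108000241007000080060002002600080b0683)))) 
(.nd (nat_lit 19) (.nd (nat_lit 9) 
(.lf (nat_lit 604365012) (dlOf (nat_lit 1) (nat_lit 0x10002000800081a0502))) 
(.lf (nat_lit 1745218260) (dlOf (nat_lit 1) (nat_lit 0x1a00280e5881)))) (.nd (nat_lit 26) 
(.lf (nat_lit 1879957716) (dlOf (nat_lit 1) (nat_lit 0x5c00400020008490482))) 
(.lf (nat_lit 1007542484) (dlOf (nat_lit 1) (nat_lit 0x5c00400020008490482))))))))) 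
(.nd (nat_lit 18) (.nd (nat_lit 11) (.nd (nat_lit 19) (.nd (nat_lit 6) (.nd (nat_lit 23) 
(.nd (nat_lit 26) (.nd (nat_lit 24) (.nd (nat_lit 27) 
(.lf (nat_lit 268558388) (dlOf (nat_lit 2) (nat_lit 0x18012000940200140018070481))) 
(.lf (nat_lit 4697743412) (dlOf (nat_lit 1) (nat_lit 0x2000801bc00200c00008090003)))) 
(.lf (nat_lit 16900148) (dlOf (nat_lit 1) (nat_lit 0x200088e0001)))) (.nd (nat_lit 27) 
(.lf (nat_lit 2483150900) (dlOf (nat_lit 9) (nat_lit 0x80b8048405400100280007008000700380044018001210c00be02a00089810006015000080a0000c020001000e0008784004201500041c0800380a800040500008010000900700040c2000480b80144054000202800040060001000000204140018012000f40200020100001007000000100140008007000200880008030d03))) 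
(.lf (nat_lit 2348933172) (dlOf (nat_lit 9) (nat_lit 0x80b0048405400100280007008000700380044018001210c000c02a000101400018040002001c0011f0800be02a0008781004201500041c0800380a80004050000801000090070004142000480b00144054000202800040060001000000204140018010000f40200020100001007000000100140008007000200880008030d03))))) 
(.nd (nat_lit 7) (.nd (nat_lit 22) 
(.lf (nat_lit 25288756) (dlOf (nat_lit 1) (nat_lit 0x8008000800200020008bf0b83))) 
(.lf (nat_lit 29483060) (dlOf (nat_lit 1) (nat_lit 0x58008000400200020008e10883)))) 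
(.lf (nat_lit 8512948) (dlOf (nat_lit 1) (nat_lit 0x400200020008513602))))) (.nd (nat_lit 27) 
(.nd (nat_lit 7) 
(.lf (nat_lit 6442575732) (dlOf (nat_lit 1) (nat_lit 0x620008000c00200e800080f4083))) 
(.nd (nat_lit 10) (.lf (nat_lit 1881268724) (dlOf (nat_lit 1) (nat_lit 0x20018e81401))) 
(.lf (nat_lit 8513012) (dlOf (nat_lit 2) (nat_lit 0x13a62000850200220028513601))))) 
(.nd (nat_lit 8) (.lf (nat_lit 2818696308) (dlOf (nat_lit 1) (nat_lit 0x400180d2a01))) 
(.nd (nat_lit 9) 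
(.lf (nat_lit 4697744756) (dlOf (nat_lit 1) (nat_lit 0x88008003000200020008093503))) 
(.lf (nat_lit 3355571060) (dlOf (nat_lit 1) (nat_lit 0x54004000400080a8f82))))))) (.nd (nat_lit 24) 
(.nd (nat_lit 26) (.nd (nat_lit 28) (.nd (nat_lit 20) 
(.lf (nat_lit 134864948) (dlOf (nat_lit 2) (nat_lit 0x5e00c4003a20400b4004004200080d0b82))) 
(.lf (nat_lit 3792948) (dlOf (nat_lit 2) (nat_lit 0xf6a4000bb4a0005d9f0002ea10007f0200028008000800200140008220a83)))) 
(.nd (nat_lit 6) (.lf (nat_lit 1342824500) (dlOf (nat_lit 1) (nat_lit 0x4c004004000080e0a82))) 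
(.lf (nat_lit 1879695476) (dlOf (nat_lit 1) (nat_lit 0x200282e0481))))) (.nd (nat_lit 27) 
(.lf (nat_lit 1409933364) (dlOf (nat_lit 1) (nat_lit 0x2400280a0b01))) (.nd (nat_lit 28) 
(.lf (nat_lit 201973812) (dlOf (nat_lit 2) (nat_lit 0x5e00c4003a20400b4004004200080d0b82))) 
(.lf (nat_lit 470409268) (dlOf (nat_lit 1) (nat_lit 0x4c004004000080e0a82)))))) (.nd (nat_lit 7) 
(.nd (nat_lit 20) (.lf (nat_lit 21618740) (dlOf (nat_lit 1) (nat_lit 0x8008005c00200080008a51003))) 
(.lf (nat_lit 26861620) (dlOf (nat_lit 3) (nat_lit 0x42000000094080262bb80003e04009800400080008c80782)))) 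
(.nd (nat_lit 6) (.lf (nat_lit 32105652) (dlOf (nat_lit 1) (nat_lit 0x10008000800200020008ef2c03))) 
(.lf (nat_lit 23716084) (dlOf (nat_lit 1) (nat_lit 0x8008000400200020008b80483))))))) 
(.nd (nat_lit 30) (.nd (nat_lit 10) (.nd (nat_lit 7) (.nd (nat_lit 8) 
(.lf (nat_lit 56224308) (dlOf (nat_lit 2) (nat_lit 0x895c001900200220009735181))) 
(.lf (nat_lit 20048692) (dlOf (nat_lit 1) (nat_lit 0x4002000200089d5c02)))) (.nd (nat_lit 6) 
(.lf (nat_lit 335669940) (dlOf (nat_lit 1) (nat_lit 0x17000400020008095702))) 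
(.lf (nat_lit 738323444) (dlOf (nat_lit 2) (nat_lit 0xc05a00020018095f00))))) (.nd (nat_lit 6) 
(.nd (nat_lit 9) (.lf (nat_lit 654516) (dlOf (nat_lit 1) (nat_lit 0x4002800c201))) 
(.lf (nat_lit 805433012) (dlOf (nat_lit 1) (nat_lit 0xc00200160008117282)))) 
(.lf (nat_lit 6509686004) (dlOf (nat_lit 2) (nat_lit 0x480980002c04000800200040008146582))))) 
(.nd (nat_lit 6) (.nd (nat_lit 7) (.nd (nat_lit 8) 
(.lf (nat_lit 3959552052) (dlOf (nat_lit 1) (nat_lit 0x44001811a601))) 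
(.lf (nat_lit 1677846836) (dlOf (nat_lit 1) (nat_lit 0x2400200060008114c02)))) (.nd (nat_lit 8) 
(.lf (nat_lit 3492931764) (dlOf (nat_lit 2) (nat_lit 0x142a80001c02000400180f4901))) 
(.lf (nat_lit 3221355956) (dlOf (nat_lit 1) (nat_lit 0x40040002001811cc82))))) (.nd (nat_lit 7) 
(.nd (nat_lit 8) (.lf (nat_lit 5972813940) (dlOf (nat_lit 1) (nat_lit 0x400200020008144782))) 
(.lf (nat_lit 3825331572) (dlOf (nat_lit 1) (nat_lit 0x40018146b81)))) 
(.lf (nat_lit 1543630324) (dlOf (nat_lit 5) (nat_lit 0xec034000150200040000000981000100d0000803400040000000506000201a000100680008000000080c00ac00400020018146f02))))))) 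
(.nd (nat_lit 6) (.nd (nat_lit 29) (.nd (nat_lit 9) (.nd (nat_lit 19) (.nd (nat_lit 30) 
(.nd (nat_lit 27) 
(.lf (nat_lit 4563787828) (dlOf (nat_lit 3) (nat_lit 0x6018000700ac00140520010027000600c8010d82800300c00038056000602900070138002806400866140098002000800080e1002))) 
(.lf (nat_lit 4698005556) (dlOf (nat_lit 3) (nat_lit 0x6018000700ac00140520010027000600c8027342800300c00038056000602900070138002806401394140098002000800080e1002)))) 
(.nd (nat_lit 7) (.lf (nat_lit 3288719412) (dlOf (nat_lit 1) (nat_lit 0x4004000200180d0b82))) 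
(.lf (nat_lit 1342562484) (dlOf (nat_lit 1) (nat_lit 0x400400020008064f02))))) (.nd (nat_lit 21) 
(.nd (nat_lit 20) 
(.lf (nat_lit 5103668) (dlOf (nat_lit 3) (nat_lit 0x1c49240001302002249200000018300780))) 
(.lf (nat_lit 27123764) (dlOf (nat_lit 2) (nat_lit 0x2c43600012818ca0780)))) (.nd (nat_lit 22) 
(.lf (nat_lit 4055092) (dlOf (nat_lit 2) (nat_lit 0x248000001bd0200180018270b81))) 
(.lf (nat_lit 16638004) (dlOf (nat_lit 1) (nat_lit 0x10004001600088c0882)))))) (.nd (nat_lit 11) 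
(.nd (nat_lit 26) (.lf (nat_lit 134603316) (dlOf (nat_lit 1) (nat_lit 0x800400420008090f82))) 
(.lf (nat_lit 201712180) (dlOf (nat_lit 1) (nat_lit 0x800400420008090f82)))) (.nd (nat_lit 10) 
(.nd (nat_lit 19) (.lf (nat_lit 474343988) (dlOf (nat_lit 1) (nat_lit 0x800400040019165182))) 
(.lf (nat_lit 51243572) (dlOf (nat_lit 2) (nat_lit 0x2a9ec0000004007c00400380009515182)))) 
(.lf (nat_lit 20311604) (dlOf (nat_lit 1) (nat_lit 0x4004000200189d7182)))))) (.nd (nat_lit 26) 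
(.nd (nat_lit 27) (.nd (nat_lit 28) 
(.lf (nat_lit 1610997812) (dlOf (nat_lit 3) (nat_lit 0x680a6003c035001701080091c1800801540012804002c004002a00080b0482))) 
(.lf (nat_lit 4026916916) (dlOf (nat_lit 1) (nat_lit 0x4004000200180d0b82)))) (.nd (nat_lit 10) 
(.lf (nat_lit 3892699188) (dlOf (nat_lit 4) (nat_lit 0x1801c0000ac08072811c03ac08c019a0440063021806f80e00004060010800b000128700110238015811800b8086028a02c002b0158018001c0004418025c004002800081d0782))) 
(.lf (nat_lit 1745216564) (dlOf (nat_lit 1) (nat_lit 0x18004000200080e2882))))) (.nd (nat_lit 10) 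
(.nd (nat_lit 7) 
(.lf (nat_lit 738582580) (dlOf (nat_lit 3) (nat_lit 0x680a6003c035001701080091c1800801540012804002c004002a00080b0482))) 
(.lf (nat_lit 604364980) (dlOf (nat_lit 2) (nat_lit 0x5a0160007c0181a0480)))) (.nd (nat_lit 8) 
(.lf (nat_lit 872801332) (dlOf (nat_lit 1) (nat_lit 0x1000180e2881))) 
(.lf (nat_lit 872801588) (dlOf (nat_lit 1) (nat_lit 0x13200280e3201))))))) (.nd (nat_lit 21) 
(.nd (nat_lit 7) (.nd (nat_lit 27) (.nd (nat_lit 8) 
(.lf (nat_lit 2483413108) (dlOf (nat_lit 1) (nat_lit 0x100080008002000200081b0083))) 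
(.lf (nat_lit 2751850356) (dlOf (nat_lit 1) (nat_lit 0x8008000400200020008004083)))) 
(.nd (nat_lit 26) 
(.lf (nat_lit 1476780148) (dlOf (nat_lit 14) (nat_lit 0x4e00c0027f01006000000078008039005c000400e00da004000e60300c400c0072805c039402c01ca01100e500800678038025c00e009c00600e400200728008009c00201ce000000e50c000200c001d805c000802c00040100012003800100000038e18018002e001b90200a801700270038006d010015805c015400e001a1040022017000d001002d00b8001801c0032208009802e0018f02009401700220038006201004b005c00e800e0017804002000281a0481))) 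
(.lf (nat_lit 2349195380) (dlOf (nat_lit 1) (nat_lit 0x100080008002000200081b0083))))) 
(.nd (nat_lit 8) (.nd (nat_lit 9) 
(.lf (nat_lit 1346756852) (dlOf (nat_lit 3) (nat_lit 0x807d0004e010004046801881f400240f80008d0600020009002481))) 
(.lf (nat_lit 335932148) (dlOf (nat_lit 1) (nat_lit 0x800080e5a01)))) (.nd (nat_lit 28) 
(.lf (nat_lit 2751849460) (dlOf (nat_lit 1) (nat_lit 0x20018002881))) 
(.lf (nat_lit 872801268) (dlOf (nat_lit 1) (nat_lit 0xf800280e2881)))))) (.nd (nat_lit 19) 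
(.nd (nat_lit 20) (.nd (nat_lit 26) 
(.lf (nat_lit 3492143220) (dlOf (nat_lit 1) (nat_lit 0x28004000800080a1602))) 
(.lf (nat_lit 2753945716) (dlOf (nat_lit 1) (nat_lit 0x200080a1601)))) 
(.lf (nat_lit 28696692) (dlOf (nat_lit 1) (nat_lit 0x400200020008da0482)))) (.nd (nat_lit 7) 
(.nd (nat_lit 8) (.lf (nat_lit 50193524) (dlOf (nat_lit 1) (nat_lit 0x1000094c2a01))) 
(.lf (nat_lit 12444020) (dlOf (nat_lit 1) (nat_lit 0x400186c0781)))) (.nd (nat_lit 12) 
(.lf (nat_lit 1345186548) (dlOf (nat_lit 1) (nat_lit 0xe0008b05a01))) 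
(.lf (nat_lit 19790580) (dlOf (nat_lit 1) (nat_lit 0x4002000200089db982))))))))))))

end

end Pool.Agent.Lib.MP_5854e1_co.Cz

namespace Pool.Agent.Lib.MP_5854e1_co.Cz

noncomputable section

noncomputable def tz106 : DT := (.nd (nat_lit 18) (.nd (nat_lit 16) (.nd (nat_lit 5) 
(.nd (nat_lit 6) (.nd (nat_lit 15) (.nd (nat_lit 8) (.nd (nat_lit 19) (.nd (nat_lit 7) 
(.nd (nat_lit 10) (.nd (nat_lit 21) 
(.lf (nat_lit 59793420) (dlOf (nat_lit 1) (nat_lit 0x8008000400200020009830183))) 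
(.lf (nat_lit 28336140) (dlOf (nat_lit 5) (nat_lit 0x32dfc002a6fd8016b638000db1a0004d7900076a880123500008da7e000ed2c000668b000334340081a18000ed01000766d000eb36400459920038cc800024bd002f4c9000ab7f00009bf6004ad8e00186a0000434fc00119b200bc50c000edfc00166c7000335480055a80000cd1600066868002b42800199b4000ecc9005e2090012685802ef00804e00080294002011a0008d80283)))) 
(.lf (nat_lit 4362101772) (dlOf (nat_lit 5) (nat_lit 0x806601c7b02000603300e3d0100020198071e00800080b4038e4040030004000e0008002882)))) 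
(.nd (nat_lit 26) 
(.lf (nat_lit 2684384908) (dlOf (nat_lit 8) (nat_lit 0xa003400640180007704001400d0003b01000a0068001c4080048034000e004001c01a0006302000e00d0003081000600680000008008000800d000200060008009e03))) 
(.lf (nat_lit 6643807884) (dlOf (nat_lit 3) (nat_lit 0x1f80d400440680006d040080035000601a000000100028008003000200180008009e03))))) 
(.nd (nat_lit 23) (.nd (nat_lit 9) (.nd (nat_lit 21) 
(.lf (nat_lit 2819121164) (dlOf (nat_lit 2) (nat_lit 0x3501b0000000801980080024002004600081a0483))) 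
(.lf (nat_lit 19423244) (dlOf (nat_lit 1) (nat_lit 0x4002000200089a0682)))) 
(.lf (nat_lit 58221068) (dlOf (nat_lit 2) (nat_lit 0x15778000f40800680080014002004400097c7b03)))) 
(.nd (nat_lit 24) (.lf (nat_lit 11034636) (dlOf (nat_lit 2) (nat_lit 0xa07cb0001d818660100))) 
(.lf (nat_lit 27811852) (dlOf (nat_lit 1) (nat_lit 0x400200060008d30182)))))) (.nd (nat_lit 7) 
(.nd (nat_lit 9) (.nd (nat_lit 11) (.nd (nat_lit 20) 
(.lf (nat_lit 1476944140) (dlOf (nat_lit 3) (nat_lit 0x5803a0005602000402d00020000000001001f8008001c00200020008303a03))) 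
(.lf (nat_lit 58220812) (dlOf (nat_lit 1) (nat_lit 0x200197c3a01)))) (.nd (nat_lit 10) 
(.lf (nat_lit 1476425996) (dlOf (nat_lit 1) (nat_lit 0x6001800aa01))) 
(.lf (nat_lit 4294995212) (dlOf (nat_lit 1) (nat_lit 0x20028006681))))) (.nd (nat_lit 26) 
(.nd (nat_lit 28) 
(.lf (nat_lit 5368736524) (dlOf (nat_lit 3) (nat_lit 0x140138005807c0005e08000c020000000202420028005b01))) 
(.lf (nat_lit 6710913804) (dlOf (nat_lit 2) (nat_lit 0x1201500090094009803800240120012000800480000005e18008800400380008005b02)))) 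
(.lf (nat_lit 4764756748) (dlOf (nat_lit 1) (nat_lit 0x8000400020008005b02))))) (.nd (nat_lit 11) 
(.nd (nat_lit 9) (.nd (nat_lit 26) 
(.lf (nat_lit 5502951820) (dlOf (nat_lit 1) (nat_lit 0x60018001001))) 
(.lf (nat_lit 4630536588) (dlOf (nat_lit 1) (nat_lit 0x460018001001)))) 
(.lf (nat_lit 19948428) (dlOf (nat_lit 1) (nat_lit 0x30002002400089d2582)))) (.nd (nat_lit 19) 
(.lf (nat_lit 5905607052) (dlOf (nat_lit 1) (nat_lit 0x80028004e81))) 
(.lf (nat_lit 551308) (dlOf (nat_lit 1) (nat_lit 0xc0018004e81))))))) (.nd (nat_lit 23) 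
(.nd (nat_lit 7) (.nd (nat_lit 26) (.nd (nat_lit 19) (.nd (nat_lit 8) 
(.lf (nat_lit 21028876) (dlOf (nat_lit 1) (nat_lit 0x60008a00281))) 
(.lf (nat_lit 2684416780) (dlOf (nat_lit 1) (nat_lit 0x780018008f81)))) (.nd (nat_lit 21) 
(.lf (nat_lit 3892895756) (dlOf (nat_lit 2) (nat_lit 0x1012006d380800a0008003c002000e0008290783))) 
(.lf (nat_lit 19456012) (dlOf (nat_lit 13) (nat_lit 0x62b5000094fc000c9160008475000228400022b5000111d400086080018ad600064760001b0200042b58001122c00088ec0003406000454000032460000c01000095ac0010a80001048c000223b0000a820000950000209180002904000256b00032a00003123000088ec0002308000656a000329f8003922c00088ea0002008000256a000429f8001922c0003e0c0004ad4000853f00052458000781800295a80020a7e001248b000523a800070200018008000c002000c00089a0683))))) 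
(.nd (nat_lit 10) (.nd (nat_lit 20) 
(.lf (nat_lit 1811996684) (dlOf (nat_lit 1) (nat_lit 0x2a8002038800080b0002))) 
(.lf (nat_lit 470867980) (dlOf (nat_lit 2) (nat_lit 0x7c26200bba02000e00281c0481)))) 
(.nd (nat_lit 8) (.lf (nat_lit 67173388) (dlOf (nat_lit 2) (nat_lit 0x1c1620051a01800bf00))) 
(.lf (nat_lit 2483088652) (dlOf (nat_lit 1) (nat_lit 0x980080068002003e0008006683)))))) 
(.nd (nat_lit 9) (.nd (nat_lit 8) (.nd (nat_lit 20) 
(.lf (nat_lit 2154636) (dlOf (nat_lit 1) (nat_lit 0x400400060008150102))) 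
(.lf (nat_lit 24174732) (dlOf (nat_lit 1) (nat_lit 0x400200020008b80102)))) (.nd (nat_lit 10) 
(.lf (nat_lit 2080432524) (dlOf (nat_lit 10) (nat_lit 0x2c04e0016026000b002001201380030098001c01400158060006027000a0130005581000100a40026004000c052001270200060270006c81000c012800080200013808000404a00140080004d020002004000230080068008005400205b00008091003))) 
(.lf (nat_lit 2483088780) (dlOf (nat_lit 4) (nat_lit 0x1602a000170100140150000a80800180000003004002c00200040008006c82))))) 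
(.nd (nat_lit 11) (.lf (nat_lit 19985036) (dlOf (nat_lit 1) (nat_lit 0x200089d8c01))) 
(.nd (nat_lit 26) (.lf (nat_lit 5234551436) (dlOf (nat_lit 1) (nat_lit 0xdc0008055481))) 
(.lf (nat_lit 5704313484) (dlOf (nat_lit 1) (nat_lit 0xc0018055481))))))) (.nd (nat_lit 24) 
(.nd (nat_lit 21) (.nd (nat_lit 20) 
(.lf (nat_lit 12640268) (dlOf (nat_lit 1) (nat_lit 0x480080014002000800086d0683))) 
(.lf (nat_lit 9494540) (dlOf (nat_lit 2) (nat_lit 0xd0000002f004012400200060008560482)))) 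
(.nd (nat_lit 19) (.lf (nat_lit 44097548) (dlOf (nat_lit 1) (nat_lit 0x400292c0001))) 
(.lf (nat_lit 11067404) (dlOf (nat_lit 1) (nat_lit 0xa0018660101))))) (.nd (nat_lit 19) 
(.nd (nat_lit 20) (.lf (nat_lit 25223180) (dlOf (nat_lit 1) (nat_lit 0x4000200140008bf0482))) 
(.lf (nat_lit 59826188) (dlOf (nat_lit 1) (nat_lit 0xa0029840001)))) (.nd (nat_lit 20) 
(.lf (nat_lit 27844620) (dlOf (nat_lit 4) (nat_lit 0xab0200055720003ab8c00155a2000297800044bb800230300022c0800215c60006977000458300055810002ab90001d5c6000cad100024bc000225dc00112180030002001c0008d30182))) 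
(.lf (nat_lit 30990348) (dlOf (nat_lit 1) (nat_lit 0x108008004000200120008e60683)))))))) 
(.nd (nat_lit 7) (.nd (nat_lit 28) (.nd (nat_lit 8) (.nd (nat_lit 21) (.nd (nat_lit 11) 
(.nd (nat_lit 20) (.lf (nat_lit 5368733772) (dlOf (nat_lit 1) (nat_lit 0x40018000001))) 
(.lf (nat_lit 30433356) (dlOf (nat_lit 5) (nat_lit 0x3f0c6001d86200044820010c318006e188001100800370c6001786200043020001c31800214080008008003000200080008e30183)))) 
(.nd (nat_lit 10) (.lf (nat_lit 201357388) (dlOf (nat_lit 1) (nat_lit 0xc004000a000800a682))) 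
(.lf (nat_lit 3288362060) (dlOf (nat_lit 1) (nat_lit 0x20018006081))))) (.nd (nat_lit 15) 
(.lf (nat_lit 2755158092) (dlOf (nat_lit 2) (nat_lit 0x500000001604002400200040008120f82))) 
(.nd (nat_lit 22) (.lf (nat_lit 44097612) (dlOf (nat_lit 1) (nat_lit 0x800192c0601))) 
(.lf (nat_lit 14737484) (dlOf (nat_lit 1) (nat_lit 0x800400060008770682)))))) (.nd (nat_lit 15) 
(.nd (nat_lit 19) (.nd (nat_lit 20) 
(.lf (nat_lit 2755682636) (dlOf (nat_lit 4) (nat_lit 0x821100130fc800c054c004429c002a136000190500021088000b008036884401682d2005415300420a90000a82000100080030002001400081b0603))) 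
(.lf (nat_lit 24142156) (dlOf (nat_lit 2) (nat_lit 0x3aa1100019018b80600)))) 
(.lf (nat_lit 1074291020) (dlOf (nat_lit 2) (nat_lit 0x92000000200181b0600)))) (.nd (nat_lit 9) 
(.nd (nat_lit 10) (.lf (nat_lit 3203404) (dlOf (nat_lit 2) (nat_lit 0x4a4b200019018200600))) 
(.lf (nat_lit 8975692) (dlOf (nat_lit 1) (nat_lit 0x20018519901)))) 
(.lf (nat_lit 5033225036) (dlOf (nat_lit 1) (nat_lit 0x400400020008005c02)))))) (.nd (nat_lit 15) 
(.nd (nat_lit 8) (.nd (nat_lit 19) 
(.lf (nat_lit 1344299084) (dlOf (nat_lit 1) (nat_lit 0xc00286b0181))) (.nd (nat_lit 20) 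
(.lf (nat_lit 3492307020) (dlOf (nat_lit 3) (nat_lit 0x387a00004c0400083d00002202001600180c1501))) 
(.lf (nat_lit 3493355596) (dlOf (nat_lit 2) (nat_lit 0x500000001604002400200040008120f82))))) 
(.nd (nat_lit 9) (.nd (nat_lit 19) 
(.lf (nat_lit 3493880140) (dlOf (nat_lit 3) (nat_lit 0x941800005c0200e40c00002c0181b0600))) 
(.lf (nat_lit 1946706252) (dlOf (nat_lit 2) (nat_lit 0x92000000238181b0600)))) (.nd (nat_lit 27) 
(.lf (nat_lit 1879078732) (dlOf (nat_lit 1) (nat_lit 0x6002800a201))) 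
(.lf (nat_lit 1476425548) (dlOf (nat_lit 2) (nat_lit 0xc07200019020004000800a201)))))) 
(.nd (nat_lit 11) (.nd (nat_lit 8) (.nd (nat_lit 19) 
(.lf (nat_lit 5234548812) (dlOf (nat_lit 1) (nat_lit 0x40028050001))) 
(.lf (nat_lit 3492339788) (dlOf (nat_lit 1) (nat_lit 0x20004000c00180c1502)))) 
(.lf (nat_lit 3493912908) (dlOf (nat_lit 2) (nat_lit 0x8c42801c6200000238281b0600)))) 
(.nd (nat_lit 9) (.lf (nat_lit 1342237772) (dlOf (nat_lit 1) (nat_lit 0x20028006081))) 
(.nd (nat_lit 10) (.lf (nat_lit 1007741516) (dlOf (nat_lit 1) (nat_lit 0x4004000200187a5282))) 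
(.lf (nat_lit 1342238284) (dlOf (nat_lit 1) (nat_lit 0x400200060008007182)))))))) (.nd (nat_lit 29) 
(.nd (nat_lit 8) (.nd (nat_lit 22) (.nd (nat_lit 30) (.nd (nat_lit 10) 
(.lf (nat_lit 1073356) (dlOf (nat_lit 1) (nat_lit 0x820018065a81))) 
(.lf (nat_lit 8414412) (dlOf (nat_lit 1) (nat_lit 0x3800400040008512d82)))) (.nd (nat_lit 15) 
(.lf (nat_lit 1074290892) (dlOf (nat_lit 2) (nat_lit 0xc0000000e68181b0480))) 
(.lf (nat_lit 1543561420) (dlOf (nat_lit 2) (nat_lit 0x2400f000e88180b0480))))) (.nd (nat_lit 15) 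
(.nd (nat_lit 20) (.lf (nat_lit 3493880012) (dlOf (nat_lit 2) (nat_lit 0xb00bf000e68181b0480))) 
(.lf (nat_lit 24142028) (dlOf (nat_lit 1) (nat_lit 0x18008000400200040008b80483)))) 
(.nd (nat_lit 20) 
(.lf (nat_lit 3493912780) (dlOf (nat_lit 4) (nat_lit 0x4e8844003a20401d0400001cd02005c20f000e28181b0480))) 
(.lf (nat_lit 24174796) (dlOf (nat_lit 1) (nat_lit 0xc0028b80481)))))) (.nd (nat_lit 27) 
(.nd (nat_lit 9) (.nd (nat_lit 11) 
(.lf (nat_lit 11592140) (dlOf (nat_lit 2) (nat_lit 0x4238a8000000800400080040002000600086c0983))) 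
(.lf (nat_lit 50358732) (dlOf (nat_lit 1) (nat_lit 0x8002000600094c4e82)))) (.nd (nat_lit 10) 
(.lf (nat_lit 33055692) (dlOf (nat_lit 1) (nat_lit 0x8008000400200020008f52883))) 
(.lf (nat_lit 554956) (dlOf (nat_lit 2) (nat_lit 0x2828c00ab60400080040004001800a602))))) 
(.nd (nat_lit 11) (.nd (nat_lit 9) 
(.lf (nat_lit 1275126220) (dlOf (nat_lit 1) (nat_lit 0x400400020008091102))) 
(.lf (nat_lit 2348873676) (dlOf (nat_lit 1) (nat_lit 0x4000800780020050000800a603)))) 
(.nd (nat_lit 26) (.lf (nat_lit 4697648076) (dlOf (nat_lit 1) (nat_lit 0xe0008005d81))) 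
(.lf (nat_lit 1275096012) (dlOf (nat_lit 2) (nat_lit 0x500000000004006c00200120008005d82))))))) 
(.nd (nat_lit 26) (.nd (nat_lit 9) (.nd (nat_lit 8) 
(.lf (nat_lit 671146188) (dlOf (nat_lit 2) (nat_lit 0x2400f000e88180b0480))) (.nd (nat_lit 15) 
(.lf (nat_lit 2818599372) (dlOf (nat_lit 2) (nat_lit 0xa005000500180090000019640c002400200100008004e82))) 
(.lf (nat_lit 1610672588) (dlOf (nat_lit 2) (nat_lit 0x80ae009890200020018004e81))))) 
(.nd (nat_lit 10) 
(.lf (nat_lit 536896460) (dlOf (nat_lit 1) (nat_lit 0x48008000400200040008002883))) 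
(.nd (nat_lit 15) 
(.lf (nat_lit 536897484) (dlOf (nat_lit 3) (nat_lit 0x40be0000e02000205f00006818004480))) 
(.lf (nat_lit 536930252) (dlOf (nat_lit 3) (nat_lit 0x2a05f0000701001102f8000340800a8008002c00200100008004483)))))) 
(.nd (nat_lit 28) (.nd (nat_lit 8) 
(.lf (nat_lit 2755682508) (dlOf (nat_lit 3) (nat_lit 0x2c408001c702000a211000b0a98007141000780080044002001a00081b0483))) 
(.nd (nat_lit 9) (.lf (nat_lit 604009932) (dlOf (nat_lit 1) (nat_lit 0x400200020008009a82))) 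
(.lf (nat_lit 2752014284) (dlOf (nat_lit 3) (nat_lit 0x802c0001002000202800007818004480))))) 
(.nd (nat_lit 11) (.nd (nat_lit 8) 
(.lf (nat_lit 1946706124) (dlOf (nat_lit 2) (nat_lit 0xc0000000e68181b0480))) 
(.lf (nat_lit 2080432588) (dlOf (nat_lit 1) (nat_lit 0x40008091101)))) (.nd (nat_lit 15) 
(.lf (nat_lit 3019925964) (dlOf (nat_lit 1) (nat_lit 0x20028004e81))) 
(.lf (nat_lit 1007741388) (dlOf (nat_lit 1) (nat_lit 0x80080004002000200087a4e83)))))))))) 
(.nd (nat_lit 15) (.nd (nat_lit 26) (.nd (nat_lit 6) (.nd (nat_lit 22) (.nd (nat_lit 8) 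
(.nd (nat_lit 7) (.nd (nat_lit 10) 
(.lf (nat_lit 52453420) (dlOf (nat_lit 2) (nat_lit 0x6ec1300000019530280))) 
(.lf (nat_lit 51405868) (dlOf (nat_lit 1) (nat_lit 0x20019512881)))) (.nd (nat_lit 11) 
(.lf (nat_lit 2952819372) (dlOf (nat_lit 1) (nat_lit 0xa400200480008008c82))) 
(.lf (nat_lit 1342208684) (dlOf (nat_lit 1) (nat_lit 0x4002800b781))))) (.nd (nat_lit 9) 
(.nd (nat_lit 7) 
(.lf (nat_lit 3892338988) (dlOf (nat_lit 1) (nat_lit 0x30008000400200020008000b03))) 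
(.lf (nat_lit 1879078316) (dlOf (nat_lit 1) (nat_lit 0x9e0008000400203ae0008009903)))) 
(.nd (nat_lit 28) 
(.lf (nat_lit 5368736684) (dlOf (nat_lit 1) (nat_lit 0x80080034002000e0008005d03))) 
(.lf (nat_lit 6710913964) (dlOf (nat_lit 2) (nat_lit 0x100540001c04006000400280008005d02)))))) 
(.nd (nat_lit 23) (.nd (nat_lit 8) (.nd (nat_lit 19) 
(.lf (nat_lit 23093292) (dlOf (nat_lit 2) (nat_lit 0x320000002b018b50680))) 
(.lf (nat_lit 55074860) (dlOf (nat_lit 5) (nat_lit 0x1027c000812d0007081000380f40001c10000427c000612d0006081000300f40001a10001027c000812d0008081000400f40001810000c27c000612d0009081000400f400016100004004000600096a0c02)))) 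
(.lf (nat_lit 23617836) (dlOf (nat_lit 1) (nat_lit 0x10008002000200080008b80503)))) 
(.nd (nat_lit 19) (.lf (nat_lit 13656108) (dlOf (nat_lit 2) (nat_lit 0x13068600019018740600))) 
(.nd (nat_lit 25) (.lf (nat_lit 15228972) (dlOf (nat_lit 2) (nat_lit 0x27a19000290187c0680))) 
(.lf (nat_lit 48783404) (dlOf (nat_lit 1) (nat_lit 0x400400020009430982))))))) (.nd (nat_lit 7) 
(.nd (nat_lit 9) (.nd (nat_lit 8) (.nd (nat_lit 27) 
(.lf (nat_lit 1342208108) (dlOf (nat_lit 2) (nat_lit 0x804e802582380148e080018004000c000800a882))) 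
(.lf (nat_lit 1476425836) (dlOf (nat_lit 4) (nat_lit 0xa2018005100b80288038027800e00a5c08008a017004100380291c100110000000000400fc0040028000800a882)))) 
(.lf (nat_lit 3489693036) (dlOf (nat_lit 2) (nat_lit 0x130dd0019f80801f00080038002002a000800c903)))) 
(.nd (nat_lit 10) (.lf (nat_lit 5368736364) (dlOf (nat_lit 1) (nat_lit 0x3800400100008005382))) 
(.lf (nat_lit 3355473516) (dlOf (nat_lit 1) (nat_lit 0x8008000400200020008009c83))))) 
(.nd (nat_lit 9) (.nd (nat_lit 11) 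
(.lf (nat_lit 1342206444) (dlOf (nat_lit 1) (nat_lit 0x800200160008008682))) (.nd (nat_lit 19) 
(.lf (nat_lit 27116) (dlOf (nat_lit 1) (nat_lit 0x20028004f01))) 
(.lf (nat_lit 37251564) (dlOf (nat_lit 1) (nat_lit 0x8002000200090d4f02))))) (.nd (nat_lit 8) 
(.lf (nat_lit 2952821484) (dlOf (nat_lit 1) (nat_lit 0x2002800b981))) 
(.lf (nat_lit 39871468) (dlOf (nat_lit 1) (nat_lit 0x4004000200091f2882))))))) (.nd (nat_lit 27) 
(.nd (nat_lit 6) (.nd (nat_lit 19) (.nd (nat_lit 10) 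
(.lf (nat_lit 604008492) (dlOf (nat_lit 1) (nat_lit 0x20028007c01))) 
(.lf (nat_lit 4362101804) (dlOf (nat_lit 1) (nat_lit 0x8008000400200020008002883)))) 
(.nd (nat_lit 8) (.nd (nat_lit 21) 
(.lf (nat_lit 4362625068) (dlOf (nat_lit 1) (nat_lit 0x600180b0a01))) 
(.lf (nat_lit 2754109484) (dlOf (nat_lit 5) (nat_lit 0x590fc0000640803607e0000300401383f0000160200681f80000a0180c0d00)))) 
(.lf (nat_lit 2752014636) (dlOf (nat_lit 1) (nat_lit 0x20018004b81))))) (.nd (nat_lit 7) 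
(.nd (nat_lit 8) (.nd (nat_lit 9) 
(.lf (nat_lit 604528748) (dlOf (nat_lit 1) (nat_lit 0x21200082f1e81))) 
(.lf (nat_lit 67139180) (dlOf (nat_lit 1) (nat_lit 0xfc0018009c81)))) 
(.lf (nat_lit 1946185068) (dlOf (nat_lit 1) (nat_lit 0x8008000400200020008006b03)))) 
(.nd (nat_lit 8) (.lf (nat_lit 604011244) (dlOf (nat_lit 1) (nat_lit 0x40040004001800b982))) 
(.nd (nat_lit 10) (.lf (nat_lit 4898974188) (dlOf (nat_lit 1) (nat_lit 0x20018004f01))) 
(.lf (nat_lit 3556795884) (dlOf (nat_lit 5) (nat_lit 0xc01600080000008d810005005c001402c000800e000500600020018001000800100000011287000500300082c0800300000000004001c004000e0018003602))))))) 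
(.nd (nat_lit 11) (.nd (nat_lit 7) (.nd (nat_lit 19) (.nd (nat_lit 20) 
(.lf (nat_lit 471883820) (dlOf (nat_lit 1) (nat_lit 0xa00080004002000200086b0003))) 
(.lf (nat_lit 470835244) (dlOf (nat_lit 2) (nat_lit 0x1321a8000258181c0680)))) 
(.lf (nat_lit 4228407340) (dlOf (nat_lit 4) (nat_lit 0x400000ced020004000006718100150000033880801e00080028002005000080b0a03)))) 
(.nd (nat_lit 6) 
(.lf (nat_lit 1009279148) (dlOf (nat_lit 1) (nat_lit 0x500080028002002000090e0603))) 
(.lf (nat_lit 2617275884) (dlOf (nat_lit 1) (nat_lit 0xc00200060008009c02))))) (.nd (nat_lit 6) 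
(.nd (nat_lit 7) (.lf (nat_lit 201357356) (dlOf (nat_lit 1) (nat_lit 0x8008001c0020002000800a603))) 
(.nd (nat_lit 8) 
(.lf (nat_lit 3691018924) (dlOf (nat_lit 4) (nat_lit 0x8070000402c0005c04000a01c0002201000400b0001000801b000800bc0020014000800b783))) 
(.lf (nat_lit 4764756908) (dlOf (nat_lit 1) (nat_lit 0x800400020008005d02))))) (.nd (nat_lit 8) 
(.nd (nat_lit 9) 
(.lf (nat_lit 3691018348) (dlOf (nat_lit 5) (nat_lit 0x1403201bc018019f00a0053003c014b810002002800a5802036c01b00bf00a00291c1004e80500000004015c0040018000800a882))) 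
(.lf (nat_lit 6376417900) (dlOf (nat_lit 1) (nat_lit 0x80028095381)))) 
(.lf (nat_lit 3691016044) (dlOf (nat_lit 2) (nat_lit 0x100e8029380801f0008009800200300008007783)))))))) 
(.nd (nat_lit 28) (.nd (nat_lit 9) (.nd (nat_lit 19) (.nd (nat_lit 7) (.nd (nat_lit 20) 
(.nd (nat_lit 21) (.lf (nat_lit 1140908076) (dlOf (nat_lit 1) (nat_lit 0x20018000001))) 
(.lf (nat_lit 27320364) (dlOf (nat_lit 1) (nat_lit 0x4002000a0008cd0802)))) (.nd (nat_lit 22) 
(.lf (nat_lit 9494572) (dlOf (nat_lit 1) (nat_lit 0x400200020008560682))) 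
(.lf (nat_lit 13688876) (dlOf (nat_lit 3) (nat_lit 0x634715000190101c538a8000c4080120008005000200240008740603))))) 
(.nd (nat_lit 8) (.lf (nat_lit 60875948) (dlOf (nat_lit 1) (nat_lit 0x4002000200098c2c02))) 
(.nd (nat_lit 10) (.lf (nat_lit 1811997100) (dlOf (nat_lit 1) (nat_lit 0x2c00400de00180b0782))) 
(.lf (nat_lit 4899005868) (dlOf (nat_lit 1) (nat_lit 0x20018053601)))))) (.nd (nat_lit 6) 
(.nd (nat_lit 7) (.nd (nat_lit 22) 
(.lf (nat_lit 201908268) (dlOf (nat_lit 1) (nat_lit 0x200080c0d01))) 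
(.lf (nat_lit 2756239404) (dlOf (nat_lit 3) (nat_lit 0x200000000240400b8000000110200040018220a81)))) 
(.lf (nat_lit 23650732) (dlOf (nat_lit 4) (nat_lit 0x80000101804008456a001621200a3000001d041800380e40000004058c002005e0008b80782)))) 
(.nd (nat_lit 7) (.nd (nat_lit 8) 
(.lf (nat_lit 21553260) (dlOf (nat_lit 1) (nat_lit 0x1800200020008a40b02))) 
(.lf (nat_lit 14213484) (dlOf (nat_lit 1) (nat_lit 0xc00400020008750a02)))) 
(.lf (nat_lit 37284332) (dlOf (nat_lit 1) (nat_lit 0x4002000200090d4f02)))))) (.nd (nat_lit 26) 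
(.nd (nat_lit 6) (.nd (nat_lit 8) 
(.lf (nat_lit 11592236) (dlOf (nat_lit 2) (nat_lit 0x8000000038186c0e80))) 
(.lf (nat_lit 1073801004) (dlOf (nat_lit 1) (nat_lit 0x1c002000c0008003d82)))) (.nd (nat_lit 11) 
(.nd (nat_lit 7) (.lf (nat_lit 19980908) (dlOf (nat_lit 1) (nat_lit 0x7c004007e00089d1802))) 
(.lf (nat_lit 59116) (dlOf (nat_lit 1) (nat_lit 0x180018003b01)))) (.nd (nat_lit 27) 
(.lf (nat_lit 2147543660) (dlOf (nat_lit 1) (nat_lit 0x3800200660008095382))) 
(.lf (nat_lit 1208019564) (dlOf (nat_lit 1) (nat_lit 0xcc002007c0008095382)))))) (.nd (nat_lit 27) 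
(.nd (nat_lit 6) (.nd (nat_lit 29) 
(.lf (nat_lit 5435876908) (dlOf (nat_lit 1) (nat_lit 0xc00400020008003782))) 
(.lf (nat_lit 4899005996) (dlOf (nat_lit 1) (nat_lit 0x20018053781)))) 
(.lf (nat_lit 2751522540) (dlOf (nat_lit 1) (nat_lit 0x400400020008003b02)))) (.nd (nat_lit 8) 
(.lf (nat_lit 4496352812) (dlOf (nat_lit 1) (nat_lit 0x20028053781))) (.nd (nat_lit 10) 
(.lf (nat_lit 5033225004) (dlOf (nat_lit 1) (nat_lit 0x600018005c01))) 
(.lf (nat_lit 2348869420) (dlOf (nat_lit 1) (nat_lit 0xe800800f000200600008003d83)))))))) 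
(.nd (nat_lit 27) (.nd (nat_lit 7) (.nd (nat_lit 19) (.nd (nat_lit 6) (.nd (nat_lit 8) 
(.lf (nat_lit 1343283244) (dlOf (nat_lit 2) (nat_lit 0x561ad000258181e0680))) 
(.lf (nat_lit 2415978284) (dlOf (nat_lit 1) (nat_lit 0x80028003d81)))) 
(.lf (nat_lit 1342240876) (dlOf (nat_lit 2) (nat_lit 0x142c200080be000604e800502380148e10000c0020008000800a882)))) 
(.nd (nat_lit 22) (.nd (nat_lit 26) 
(.lf (nat_lit 1879629868) (dlOf (nat_lit 2) (nat_lit 0xc00000004804000800200260008260802))) 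
(.lf (nat_lit 3557351468) (dlOf (nat_lit 8) (nat_lit 0x3e012400e40420006b04008e048003801d8006805800e400a000240800a804900e3024004f80ec000c00000022080004057000d0248000841000b0120001400a0001f04015a0050000901000402480000008019800801b4002003000081c0683)))) 
(.lf (nat_lit 3494436908) (dlOf (nat_lit 3) (nat_lit 0x200000000240400b8000000110200040018220a81))))) 
(.nd (nat_lit 6) (.nd (nat_lit 8) 
(.lf (nat_lit 1346954412) (dlOf (nat_lit 1) (nat_lit 0x140009102c01))) 
(.lf (nat_lit 5704313772) (dlOf (nat_lit 4) (nat_lit 0x120190006005000400240002e0c001c032001200a00008820004005000000080030008003000200080008055d03)))) 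
(.nd (nat_lit 8) (.lf (nat_lit 2483088620) (dlOf (nat_lit 1) (nat_lit 0x1400200020008006502))) 
(.lf (nat_lit 1342242284) (dlOf (nat_lit 1) (nat_lit 0x40020002000800cd02)))))) (.nd (nat_lit 26) 
(.nd (nat_lit 7) (.nd (nat_lit 6) (.nd (nat_lit 9) 
(.lf (nat_lit 2013323308) (dlOf (nat_lit 1) (nat_lit 0x20018000001))) 
(.lf (nat_lit 6308292140) (dlOf (nat_lit 2) (nat_lit 0x1006400004040010002000a0008053782)))) 
(.lf (nat_lit 5234551404) (dlOf (nat_lit 1) (nat_lit 0xc8008001000200040008055383)))) 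
(.nd (nat_lit 6) (.nd (nat_lit 9) 
(.lf (nat_lit 5234551212) (dlOf (nat_lit 1) (nat_lit 0x400400020008054e82))) 
(.lf (nat_lit 5234551724) (dlOf (nat_lit 1) (nat_lit 0x400400060008055d02)))) 
(.lf (nat_lit 2550197484) (dlOf (nat_lit 1) (nat_lit 0x400400020008006502))))) (.nd (nat_lit 19) 
(.nd (nat_lit 8) (.nd (nat_lit 11) 
(.lf (nat_lit 470868012) (dlOf (nat_lit 6) (nat_lit 0x28524001825c0005a0401dc15500010a10043032801080e4024400f0002905009e0d4001c068c00682c604c615500150a1033a84c406c01ce02c60be003904f80e2825400501040096072017e01c8067809400340000004b1e000c00000012010001000000088082ad00082fdc0021cfa00081c0683))) 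
(.lf (nat_lit 469821484) (dlOf (nat_lit 1) (nat_lit 0x400200060008004702)))) 
(.lf (nat_lit 474013996) (dlOf (nat_lit 8) (nat_lit 0x600140002c04003400a0001502001a0050000701000d0028000300800405b0004000a00040010000303000e0028000100800700140000004006c00400040019000b02)))) 
(.nd (nat_lit 9) (.nd (nat_lit 20) 
(.lf (nat_lit 474538028) (dlOf (nat_lit 2) (nat_lit 0x26800000040040010002001800091a0282))) 
(.lf (nat_lit 471392300) (dlOf (nat_lit 1) (nat_lit 0x600282f0e01)))) 
(.lf (nat_lit 1008263724) (dlOf (nat_lit 2) (nat_lit 0x306f8000e4080018008000400200060008b18a03)))))))))) 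
(.nd (nat_lit 6) (.nd (nat_lit 15) (.nd (nat_lit 5) (.nd (nat_lit 27) (.nd (nat_lit 20) 
(.nd (nat_lit 7) (.nd (nat_lit 8) (.nd (nat_lit 9) 
(.lf (nat_lit 2214682636) (dlOf (nat_lit 1) (nat_lit 0x260008020281))) 
(.lf (nat_lit 39938572) (dlOf (nat_lit 1) (nat_lit 0x2800191f5001)))) 
(.lf (nat_lit 4563495692) (dlOf (nat_lit 1) (nat_lit 0x20028095b01)))) (.nd (nat_lit 8) 
(.nd (nat_lit 19) (.lf (nat_lit 2753650828) (dlOf (nat_lit 1) (nat_lit 0x400400020008090102))) 
(.lf (nat_lit 1342791820) (dlOf (nat_lit 2) (nat_lit 0x790a880118484000c1020004106000e00180c0101)))) 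
(.lf (nat_lit 9009036) (dlOf (nat_lit 1) (nat_lit 0x800800040020002000851a303))))) 
(.nd (nat_lit 19) (.nd (nat_lit 7) (.nd (nat_lit 24) 
(.lf (nat_lit 1343315980) (dlOf (nat_lit 5) (nat_lit 0x106b400c7e04001c35a0063702001a1ad0031b0102af0150006bc0801f00080150002000e00081e0483))) 
(.lf (nat_lit 17915916) (dlOf (nat_lit 1) (nat_lit 0x400400020018900582)))) 
(.lf (nat_lit 3235980) (dlOf (nat_lit 2) (nat_lit 0xc06300008204001800400140008200102)))) 
(.nd (nat_lit 21) 
(.lf (nat_lit 26828812) (dlOf (nat_lit 2) (nat_lit 0x129680173a04008000400320018c80482))) 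
(.lf (nat_lit 16343052) (dlOf (nat_lit 1) (nat_lit 0x400200020008890182)))))) (.nd (nat_lit 28) 
(.nd (nat_lit 19) (.nd (nat_lit 8) 
(.lf (nat_lit 1208049676) (dlOf (nat_lit 1) (nat_lit 0x9400400460008090002))) 
(.lf (nat_lit 1208049932) (dlOf (nat_lit 2) (nat_lit 0x2100e4002c20400e000400200008090a82)))) 
(.nd (nat_lit 30) (.lf (nat_lit 2819186700) (dlOf (nat_lit 1) (nat_lit 0x1400281e0281))) 
(.lf (nat_lit 3892928524) (dlOf (nat_lit 3) (nat_lit 0x19002c0070b0100060160038540800380080064002003c0008290783))))) 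
(.nd (nat_lit 9) (.nd (nat_lit 8) 
(.lf (nat_lit 470376588) (dlOf (nat_lit 2) (nat_lit 0x790a880118484000c1020004106000e00180c0101))) 
(.lf (nat_lit 4697710988) (dlOf (nat_lit 3) (nat_lit 0x20034000b30100060090005340802b0008000800200020008091003)))) 
(.nd (nat_lit 7) (.lf (nat_lit 4697712140) (dlOf (nat_lit 1) (nat_lit 0x4004000c0008093682))) 
(.lf (nat_lit 2617336460) (dlOf (nat_lit 1) (nat_lit 0x200280a1a81))))))) (.nd (nat_lit 19) 
(.nd (nat_lit 8) (.nd (nat_lit 10) (.nd (nat_lit 20) (.nd (nat_lit 21) 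
(.lf (nat_lit 25255980) (dlOf (nat_lit 1) (nat_lit 0x20018bf0a81))) 
(.lf (nat_lit 27353132) (dlOf (nat_lit 2) (nat_lit 0x35b08000330200040028cd0801)))) 
(.nd (nat_lit 7) 
(.lf (nat_lit 1343316012) (dlOf (nat_lit 2) (nat_lit 0x1b035a0004b02002e00181e0681))) 
(.lf (nat_lit 43081900) (dlOf (nat_lit 1) (nat_lit 0x400292a0601))))) (.nd (nat_lit 27) 
(.nd (nat_lit 7) 
(.lf (nat_lit 6241216044) (dlOf (nat_lit 1) (nat_lit 0x48008001400200100008053783))) 
(.lf (nat_lit 60908716) (dlOf (nat_lit 1) (nat_lit 0x18002002000098c2c02)))) (.nd (nat_lit 28) 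
(.lf (nat_lit 4496385580) (dlOf (nat_lit 1) (nat_lit 0x260028053781))) 
(.lf (nat_lit 6375433772) (dlOf (nat_lit 1) (nat_lit 0x20018003781)))))) (.nd (nat_lit 7) 
(.nd (nat_lit 9) (.nd (nat_lit 21) 
(.lf (nat_lit 2755748140) (dlOf (nat_lit 1) (nat_lit 0x2d0002010600081b0502))) 
(.lf (nat_lit 2187564) (dlOf (nat_lit 1) (nat_lit 0x20018150501)))) 
(.lf (nat_lit 97068) (dlOf (nat_lit 2) (nat_lit 0x3274801528080010008000c002000a000800bc83)))) 
(.nd (nat_lit 9) (.nd (nat_lit 10) 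
(.lf (nat_lit 4697711020) (dlOf (nat_lit 7) (nat_lit 0x1301a0007005400300240016c06000401500080090003ec100050054001402400007040022015000c0090000181000a0054002402400004040024015001300900000410017000804f0002006c0008091003))) 
(.lf (nat_lit 1812032940) (dlOf (nat_lit 1) (nat_lit 0x10008000400200020008146d03)))) 
(.nd (nat_lit 10) (.lf (nat_lit 20016044) (dlOf (nat_lit 1) (nat_lit 0x200289d5d01))) 
(.lf (nat_lit 939616172) (dlOf (nat_lit 1) (nat_lit 0x280028144301))))))) (.nd (nat_lit 31) 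
(.nd (nat_lit 26) (.nd (nat_lit 7) 
(.lf (nat_lit 42557484) (dlOf (nat_lit 4) (nat_lit 0x255100014a80c00903a080509c240001610013510000a880c005a3a0802b9c24000141000b9100004a80c0030384800000180360008000c00200380009260283))) 
(.nd (nat_lit 10) (.lf (nat_lit 7961260) (dlOf (nat_lit 1) (nat_lit 0xac0020090000851b782))) 
(.lf (nat_lit 620204) (dlOf (nat_lit 1) (nat_lit 0x2002800a001))))) (.nd (nat_lit 22) 
(.nd (nat_lit 28) 
(.lf (nat_lit 201941036) (dlOf (nat_lit 5) (nat_lit 0x1a20000000c8100110000000600805a00000002c0400100000001402001c00080c0d01))) 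
(.lf (nat_lit 1007247404) (dlOf (nat_lit 1) (nat_lit 0x4004000600082a0702)))) 
(.lf (nat_lit 474570796) (dlOf (nat_lit 1) (nat_lit 0x900080030002002200091a0283))))) 
(.nd (nat_lit 9) (.nd (nat_lit 27) (.nd (nat_lit 21) 
(.lf (nat_lit 3557384236) (dlOf (nat_lit 1) (nat_lit 0x8008014c002000200081e0883))) 
(.lf (nat_lit 2754175020) (dlOf (nat_lit 9) (nat_lit 0x28987e0000320414683f00001802099c1f80000b0100910fc0000540827f87e0000280400503f00001302007c1f8000058100050fc0000000804300080170002000200080c0d03)))) 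
(.nd (nat_lit 26) 
(.lf (nat_lit 3892928556) (dlOf (nat_lit 1) (nat_lit 0x1e8008001400200680008290e03))) 
(.lf (nat_lit 3960037420) (dlOf (nat_lit 5) (nat_lit 0x18d01f00d2003801bc01800140040011000000064280c700f8069c01c00080040036000000060200d280f8066001c015c00c004b000000058200c280f8065c01c000a004001b0000000502001200080328002005600081a0d03))))) 
(.nd (nat_lit 26) 
(.lf (nat_lit 3491324460) (dlOf (nat_lit 2) (nat_lit 0x6908c80000004000400400040008090e82))) 
(.lf (nat_lit 2753126956) (dlOf (nat_lit 2) (nat_lit 0x6909280000004000400400040008090e82)))))))) 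
(.nd (nat_lit 5) (.nd (nat_lit 11) (.nd (nat_lit 19) (.nd (nat_lit 31) (.nd (nat_lit 7) 
(.nd (nat_lit 20) 
(.lf (nat_lit 12705804) (dlOf (nat_lit 1) (nat_lit 0xa80080004002003000086d0683))) 
(.lf (nat_lit 9560076) (dlOf (nat_lit 2) (nat_lit 0x2e50c8007300800c0008000800200020008560483)))) 
(.lf (nat_lit 1610736012) (dlOf (nat_lit 2) (nat_lit 0xc01a80050084002b008001000400080018091002)))) 
(.nd (nat_lit 7) (.nd (nat_lit 27) 
(.lf (nat_lit 2483150860) (dlOf (nat_lit 1) (nat_lit 0x90008009c00200900008030483))) 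
(.lf (nat_lit 2348933132) (dlOf (nat_lit 1) (nat_lit 0x90008009c00200900008030483)))) 
(.lf (nat_lit 3355571852) (dlOf (nat_lit 1) (nat_lit 0x200080a9e01))))) (.nd (nat_lit 23) 
(.nd (nat_lit 21) (.nd (nat_lit 22) 
(.lf (nat_lit 3154763788) (dlOf (nat_lit 3) (nat_lit 0xe0120060f008005009002fc404002400400160018320782))) 
(.lf (nat_lit 21618700) (dlOf (nat_lit 1) (nat_lit 0x8008000400200020008a50083)))) 
(.nd (nat_lit 26) 
(.lf (nat_lit 1344921612) (dlOf (nat_lit 1) (nat_lit 0x628008025c002006a0008990083))) 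
(.lf (nat_lit 472506380) (dlOf (nat_lit 1) (nat_lit 0xc00400020008990082))))) (.nd (nat_lit 22) 
(.nd (nat_lit 8) 
(.lf (nat_lit 11132940) (dlOf (nat_lit 2) (nat_lit 0x2f3f800b0943005f47980099f7401a0f9600443c900610000000ec3801780080250002000c0008660103))) 
(.lf (nat_lit 9040652) (dlOf (nat_lit 1) (nat_lit 0x1000200020008518f82)))) (.nd (nat_lit 20) 
(.lf (nat_lit 32104460) (dlOf (nat_lit 1) (nat_lit 0x40018ef0001))) 
(.lf (nat_lit 16375820) (dlOf (nat_lit 4) (nat_lit 0x44ad2001a568000829f000914f40004912001e474000923980040f7800112200044ad2001c568000529f000114f400288e8000a47300051ef0002203800895a40034ad0000e53e000b29e80009224003c8e8001847300071ef000218400180008006c00200040008890183))))))) 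
(.nd (nat_lit 8) (.nd (nat_lit 30) (.nd (nat_lit 9) 
(.lf (nat_lit 6442575884) (dlOf (nat_lit 1) (nat_lit 0x200180f4701))) 
(.lf (nat_lit 39971340) (dlOf (nat_lit 1) (nat_lit 0x400291f5001)))) (.nd (nat_lit 7) 
(.lf (nat_lit 1677851148) (dlOf (nat_lit 1) (nat_lit 0x40040006001811b282))) 
(.lf (nat_lit 1208085132) (dlOf (nat_lit 1) (nat_lit 0x400200020008095482))))) (.nd (nat_lit 9) 
(.nd (nat_lit 7) 
(.lf (nat_lit 5838597388) (dlOf (nat_lit 2) (nat_lit 0x9804000018040008004000400080f6682))) 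
(.lf (nat_lit 36825484) (dlOf (nat_lit 1) (nat_lit 0x8008000400200020009074e83)))) 
(.nd (nat_lit 26) (.lf (nat_lit 4563528460) (dlOf (nat_lit 1) (nat_lit 0x400200020008095b02))) 
(.lf (nat_lit 738323212) (dlOf (nat_lit 2) (nat_lit 0x4405200017818095b00))))))) (.nd (nat_lit 26) 
(.nd (nat_lit 20) (.nd (nat_lit 8) (.nd (nat_lit 19) (.nd (nat_lit 21) 
(.lf (nat_lit 25288748) (dlOf (nat_lit 2) (nat_lit 0x24e454011f0de000340400020018bf0a81))) 
(.lf (nat_lit 27385900) (dlOf (nat_lit 1) (nat_lit 0x400400020008ce0702)))) (.nd (nat_lit 23) 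
(.lf (nat_lit 17424428) (dlOf (nat_lit 1) (nat_lit 0xc00188e0001))) 
(.lf (nat_lit 42590252) (dlOf (nat_lit 3) (nat_lit 0x1400000005810006000000000080050008000400200280009260283))))) 
(.nd (nat_lit 7) (.lf (nat_lit 5905704748) (dlOf (nat_lit 1) (nat_lit 0x60018143d81))) 
(.nd (nat_lit 9) (.lf (nat_lit 57272748) (dlOf (nat_lit 1) (nat_lit 0x20009794e81))) 
(.lf (nat_lit 3355567020) (dlOf (nat_lit 1) (nat_lit 0x600280a2681)))))) (.nd (nat_lit 9) 
(.nd (nat_lit 19) (.nd (nat_lit 23) 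
(.lf (nat_lit 5365804) (dlOf (nat_lit 1) (nat_lit 0x400400020008350802))) 
(.lf (nat_lit 47308844) (dlOf (nat_lit 1) (nat_lit 0x400293d0c01)))) 
(.lf (nat_lit 3792940) (dlOf (nat_lit 1) (nat_lit 0x3e0018220a01)))) (.nd (nat_lit 7) 
(.lf (nat_lit 11657772) (dlOf (nat_lit 3) (nat_lit 0xec0000000702019826b000000186c0e80))) 
(.lf (nat_lit 20046764) (dlOf (nat_lit 1) (nat_lit 0xe00289d2681)))))) (.nd (nat_lit 19) 
(.nd (nat_lit 9) (.nd (nat_lit 7) (.nd (nat_lit 11) 
(.lf (nat_lit 1007804460) (dlOf (nat_lit 2) (nat_lit 0x5707180248388013c0ec0000b06000200087c0281))) 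
(.lf (nat_lit 1677846572) (dlOf (nat_lit 1) (nat_lit 0x14002001c0008114702)))) 
(.lf (nat_lit 474080428) (dlOf (nat_lit 1) (nat_lit 0x20029082c01)))) (.nd (nat_lit 10) 
(.lf (nat_lit 1677851180) (dlOf (nat_lit 1) (nat_lit 0x200080020002000a000811b303))) 
(.lf (nat_lit 6509686316) (dlOf (nat_lit 1) (nat_lit 0x400200020008147182))))) (.nd (nat_lit 27) 
(.nd (nat_lit 7) (.nd (nat_lit 21) 
(.lf (nat_lit 1678368812) (dlOf (nat_lit 3) (nat_lit 0x801c0005402000400e000b0000000cc100050008000c002000a0008200d03))) 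
(.lf (nat_lit 2754207788) (dlOf (nat_lit 3) (nat_lit 0xe044000120100040220000880800180080008002000200080c0d03)))) 
(.lf (nat_lit 4094288300) (dlOf (nat_lit 1) (nat_lit 0x1000400020008036e82)))) (.nd (nat_lit 20) 
(.lf (nat_lit 3960070188) (dlOf (nat_lit 4) (nat_lit 0x72007003280300003208001c01c0001802001a00e00050060000581000b000800cc002005200081a0d03))) 
(.lf (nat_lit 471457836) (dlOf (nat_lit 1) (nat_lit 0x20018300b01))))))))) (.nd (nat_lit 7) 
(.nd (nat_lit 8) (.nd (nat_lit 19) (.nd (nat_lit 15) (.nd (nat_lit 27) (.nd (nat_lit 5) 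
(.lf (nat_lit 20013132) (dlOf (nat_lit 1) (nat_lit 0x200089d0001))) (.nd (nat_lit 9) 
(.lf (nat_lit 2952880236) (dlOf (nat_lit 2) (nat_lit 0x200100161e040070004002c0018010282))) 
(.lf (nat_lit 20015724) (dlOf (nat_lit 1) (nat_lit 0x4002000400089d5382))))) (.nd (nat_lit 9) 
(.nd (nat_lit 11) (.lf (nat_lit 3087098956) (dlOf (nat_lit 1) (nat_lit 0x180018142881))) 
(.lf (nat_lit 134310988) (dlOf (nat_lit 1) (nat_lit 0x40028006081)))) 
(.lf (nat_lit 3355533900) (dlOf (nat_lit 1) (nat_lit 0x4002000400080a1602))))) (.nd (nat_lit 26) 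
(.nd (nat_lit 5) (.nd (nat_lit 9) 
(.lf (nat_lit 12705868) (dlOf (nat_lit 1) (nat_lit 0x200186d0f01))) 
(.lf (nat_lit 805432908) (dlOf (nat_lit 1) (nat_lit 0x1c002001c0008117182)))) 
(.lf (nat_lit 3355571820) (dlOf (nat_lit 1) (nat_lit 0xa00280a9c81)))) (.nd (nat_lit 11) 
(.nd (nat_lit 27) 
(.lf (nat_lit 2483150924) (dlOf (nat_lit 10) (nat_lit 0x78050016a01000770070000981804a00a800780500002504000e010002000700008000000480c00240200002302001202a00011010094015002280a00004008000405400440280000c02000f0080000580800f80a80078050016c0100001007803c80380000014000400400280008030f82))) 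
(.lf (nat_lit 2348933196) (dlOf (nat_lit 10) (nat_lit 0x78050016a01000770070000981804a00a800780500002504000e010002000700008000000480c00240200002302001202a00011010094015002280a00004008000405400440280000c02000f0080000580800f80a80078050016c0100001007803c80380000014000400400280008030f82)))) 
(.lf (nat_lit 1677850700) (dlOf (nat_lit 1) (nat_lit 0x800800040020002000811a683)))))) 
(.nd (nat_lit 15) (.nd (nat_lit 26) (.nd (nat_lit 21) 
(.lf (nat_lit 3221839948) (dlOf (nat_lit 7) (nat_lit 0x2d400500009c0818200280004c040bf40140002402061400a000118103090050000880804600280004204026400200ce00081a1502))) 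
(.lf (nat_lit 3492372556) (dlOf (nat_lit 4) (nat_lit 0x20f40000980800287a0000460400083d00002202002000280c1501)))) 
(.nd (nat_lit 5) (.nd (nat_lit 22) 
(.lf (nat_lit 3960037452) (dlOf (nat_lit 7) (nat_lit 0x32600a0007a8100440050002dc0806f8028000be04001008a000530200e60460002801007d0230000000801380080030002002e00081a1883))) 
(.lf (nat_lit 474570828) (dlOf (nat_lit 1) (nat_lit 0x80080004002000200091a0683)))) 
(.lf (nat_lit 4095303788) (dlOf (nat_lit 1) (nat_lit 0x400200020008090b02))))) (.nd (nat_lit 25) 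
(.nd (nat_lit 27) (.nd (nat_lit 9) 
(.lf (nat_lit 3221872716) (dlOf (nat_lit 1) (nat_lit 0x34002003c00081a1502))) 
(.lf (nat_lit 32107084) (dlOf (nat_lit 2) (nat_lit 0x4608800000080008008000400200020008ef5283)))) 
(.nd (nat_lit 26) 
(.lf (nat_lit 134864972) (dlOf (nat_lit 1) (nat_lit 0x1000080034002008200080d0d03))) 
(.lf (nat_lit 201973836) (dlOf (nat_lit 1) (nat_lit 0x1000080034002008200080d0d03))))) 
(.nd (nat_lit 5) (.nd (nat_lit 9) 
(.lf (nat_lit 42590284) (dlOf (nat_lit 1) (nat_lit 0x60019260681))) 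
(.lf (nat_lit 34204236) (dlOf (nat_lit 2) (nat_lit 0x5609000048080048008000c002000c0008fb5283)))) 
(.lf (nat_lit 34202732) (dlOf (nat_lit 2) (nat_lit 0x429ec000ae04000c00400020018fb2982))))))) 
(.nd (nat_lit 10) (.nd (nat_lit 26) (.nd (nat_lit 19) (.nd (nat_lit 20) (.nd (nat_lit 21) 
(.nd (nat_lit 22) (.lf (nat_lit 2952913228) (dlOf (nat_lit 1) (nat_lit 0x40008010801))) 
(.lf (nat_lit 3493978444) (dlOf (nat_lit 2) (nat_lit 0xb2050000238181b0600)))) 
(.lf (nat_lit 2220364) (dlOf (nat_lit 2) (nat_lit 0x12ca4700019818150600)))) (.nd (nat_lit 15) 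
(.lf (nat_lit 3236172) (dlOf (nat_lit 1) (nat_lit 0x18008000400200080008200603))) 
(.lf (nat_lit 3268940) (dlOf (nat_lit 2) (nat_lit 0x10c96400063f900019028200600))))) 
(.nd (nat_lit 5) (.nd (nat_lit 20) 
(.lf (nat_lit 50979148) (dlOf (nat_lit 2) (nat_lit 0x39d10000f2040050004008c00194e8882))) 
(.lf (nat_lit 5773058380) (dlOf (nat_lit 1) (nat_lit 0x44004000600080a6682)))) 
(.lf (nat_lit 25780588) (dlOf (nat_lit 1) (nat_lit 0x60028c10a01))))) (.nd (nat_lit 28) 
(.nd (nat_lit 11) (.lf (nat_lit 2348900684) (dlOf (nat_lit 1) (nat_lit 0x4400400080008014c82))) 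
(.nd (nat_lit 27) 
(.lf (nat_lit 1677846860) (dlOf (nat_lit 1) (nat_lit 0x8008004c002001c0008114d83))) 
(.lf (nat_lit 3959548236) (dlOf (nat_lit 1) (nat_lit 0x5d00080004002005c0008114d83))))) 
(.nd (nat_lit 15) (.lf (nat_lit 2483118412) (dlOf (nat_lit 1) (nat_lit 0x4400400080008014c82))) 
(.nd (nat_lit 19) (.lf (nat_lit 3691110732) (dlOf (nat_lit 1) (nat_lit 0x30004004a0008010802))) 
(.lf (nat_lit 1007280460) (dlOf (nat_lit 1) (nat_lit 0x10600182e0781))))))) (.nd (nat_lit 9) 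
(.nd (nat_lit 5) (.nd (nat_lit 11) 
(.lf (nat_lit 57795916) (dlOf (nat_lit 1) (nat_lit 0x400200020009793302))) (.nd (nat_lit 28) 
(.lf (nat_lit 3221355852) (dlOf (nat_lit 1) (nat_lit 0x280040010000811c902))) 
(.lf (nat_lit 805436748) (dlOf (nat_lit 1) (nat_lit 0xd0008001c002001a000811c903))))) 
(.nd (nat_lit 12) (.lf (nat_lit 20049260) (dlOf (nat_lit 1) (nat_lit 0x600189d6b01))) 
(.lf (nat_lit 97644) (dlOf (nat_lit 1) (nat_lit 0x40040002000800c902))))) (.nd (nat_lit 27) 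
(.nd (nat_lit 12) (.lf (nat_lit 536995660) (dlOf (nat_lit 1) (nat_lit 0x400400020008003e82))) 
(.lf (nat_lit 7960396) (dlOf (nat_lit 1) (nat_lit 0x2001851a201)))) (.nd (nat_lit 26) 
(.nd (nat_lit 31) (.lf (nat_lit 939616076) (dlOf (nat_lit 1) (nat_lit 0x400400020008143e82))) 
(.lf (nat_lit 3087099724) (dlOf (nat_lit 1) (nat_lit 0x400400020008143e82)))) 
(.lf (nat_lit 469854028) (dlOf (nat_lit 1) (nat_lit 0x420018003e81)))))))) (.nd (nat_lit 8) 
(.nd (nat_lit 21) (.nd (nat_lit 11) (.nd (nat_lit 15) (.nd (nat_lit 26) 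
(.lf (nat_lit 1342791884) (dlOf (nat_lit 8) (nat_lit 0x3623c0011e8100a911e00120734004780801c045e0023702010c23c0011681008611e0008b00804488f00045604014c466007a22d001c1150007341802e00080190002006800080c0483))) 
(.lf (nat_lit 470376652) (dlOf (nat_lit 8) (nat_lit 0x3623c0011e8100a911e00120734004780801c045e0023702010c23c0011681008611e0008b00804488f00045604014c466007a22d001c1150007341802e00080190002006800080c0483)))) 
(.nd (nat_lit 5) (.nd (nat_lit 20) 
(.lf (nat_lit 5503049932) (dlOf (nat_lit 1) (nat_lit 0x38008006c00200360008031783))) 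
(.lf (nat_lit 43114700) (dlOf (nat_lit 1) (nat_lit 0x800092a0881)))) 
(.lf (nat_lit 1343873260) (dlOf (nat_lit 1) (nat_lit 0x40028370601))))) (.nd (nat_lit 5) 
(.nd (nat_lit 9) (.nd (nat_lit 27) 
(.lf (nat_lit 3825298636) (dlOf (nat_lit 1) (nat_lit 0x20018146401))) 
(.lf (nat_lit 1812032716) (dlOf (nat_lit 1) (nat_lit 0x20018146401)))) 
(.lf (nat_lit 3556862668) (dlOf (nat_lit 1) (nat_lit 0xc000080d5881)))) (.nd (nat_lit 15) 
(.lf (nat_lit 617708) (dlOf (nat_lit 4) (nat_lit 0x17e090002ed48006769c001fb4a001bda30011ece800376640023a840003d3e0013e2280116e64003614c00182d10001b0d0002ea10000d008001f6940005604000800200040008006502))) 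
(.lf (nat_lit 134343916) (dlOf (nat_lit 1) (nat_lit 0x400200020008006502)))))) (.nd (nat_lit 12) 
(.nd (nat_lit 5) (.nd (nat_lit 15) 
(.lf (nat_lit 3236044) (dlOf (nat_lit 2) (nat_lit 0x3014a402aca42015851900123838200480))) 
(.nd (nat_lit 28) (.lf (nat_lit 2220236) (dlOf (nat_lit 1) (nat_lit 0x20028150481))) 
(.lf (nat_lit 1881268428) (dlOf (nat_lit 1) (nat_lit 0x1c00200640008e80882))))) (.nd (nat_lit 20) 
(.lf (nat_lit 10576108) (dlOf (nat_lit 1) (nat_lit 0x4002000600085f6e82))) 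
(.lf (nat_lit 3236076) (dlOf (nat_lit 1) (nat_lit 0x1660008200481))))) (.nd (nat_lit 15) 
(.nd (nat_lit 19) (.lf (nat_lit 20017868) (dlOf (nat_lit 1) (nat_lit 0x4002000200089d8c82))) 
(.lf (nat_lit 7959244) (dlOf (nat_lit 1) (nat_lit 0x20018518c81)))) (.nd (nat_lit 9) 
(.lf (nat_lit 20052172) (dlOf (nat_lit 1) (nat_lit 0x1400289da881))) 
(.lf (nat_lit 20050636) (dlOf (nat_lit 1) (nat_lit 0x80080004002000200089d8c83))))))) 
(.nd (nat_lit 27) (.nd (nat_lit 5) (.nd (nat_lit 31) (.nd (nat_lit 11) (.nd (nat_lit 10) 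
(.lf (nat_lit 872506316) (dlOf (nat_lit 1) (nat_lit 0x60028092881))) 
(.lf (nat_lit 620492) (dlOf (nat_lit 2) (nat_lit 0x11a880156c08016000800dc0020016000800a603)))) 
(.nd (nat_lit 9) (.lf (nat_lit 38922700) (dlOf (nat_lit 1) (nat_lit 0x400400020009194e82))) 
(.lf (nat_lit 5637237708) (dlOf (nat_lit 2) (nat_lit 0x80540005404008c00400180018055d82))))) 
(.nd (nat_lit 9) (.nd (nat_lit 26) 
(.lf (nat_lit 3491324364) (dlOf (nat_lit 3) (nat_lit 0x170f38000f40803b08c800bc39c001813b005d09b000000200178008007000200100008090983))) 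
(.lf (nat_lit 2753126860) (dlOf (nat_lit 3) (nat_lit 0x170fc8000f80803b092800bc3c6001813b005d09b000000200178008007000200100008090983)))) 
(.nd (nat_lit 10) (.lf (nat_lit 2751587276) (dlOf (nat_lit 1) (nat_lit 0x800200020008002882))) 
(.lf (nat_lit 6442579916) (dlOf (nat_lit 1) (nat_lit 0x9800080fa601)))))) (.nd (nat_lit 10) 
(.nd (nat_lit 26) (.nd (nat_lit 19) 
(.lf (nat_lit 50424300) (dlOf (nat_lit 1) (nat_lit 0x4c004003200194c4f02))) 
(.lf (nat_lit 1346988524) (dlOf (nat_lit 1) (nat_lit 0x4004000a0019164f02)))) (.nd (nat_lit 11) 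
(.lf (nat_lit 872505836) (dlOf (nat_lit 1) (nat_lit 0xc00400080008091382))) 
(.lf (nat_lit 1677851116) (dlOf (nat_lit 1) (nat_lit 0x3800800080020004000811b283))))) 
(.nd (nat_lit 11) (.nd (nat_lit 12) 
(.lf (nat_lit 9004524) (dlOf (nat_lit 1) (nat_lit 0x40008000800200060008513603))) 
(.lf (nat_lit 7960044) (dlOf (nat_lit 1) (nat_lit 0x400200020008519c02)))) 
(.lf (nat_lit 20020716) (dlOf (nat_lit 2) (nat_lit 0x7c8d00118c0800280080054002006800089dcd03)))))) 
(.nd (nat_lit 9) (.nd (nat_lit 11) (.nd (nat_lit 5) (.nd (nat_lit 31) 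
(.lf (nat_lit 402743756) (dlOf (nat_lit 1) (nat_lit 0x260008091101))) 
(.lf (nat_lit 2550227404) (dlOf (nat_lit 1) (nat_lit 0x10008000400200020008017103)))) 
(.lf (nat_lit 2550227436) (dlOf (nat_lit 1) (nat_lit 0x20028017301)))) (.nd (nat_lit 19) 
(.nd (nat_lit 5) 
(.lf (nat_lit 3892406732) (dlOf (nat_lit 2) (nat_lit 0x808e000603800b10828104e80))) 
(.lf (nat_lit 3959552492) (dlOf (nat_lit 1) (nat_lit 0x48008001c0020012000811b283)))) 
(.nd (nat_lit 21) 
(.lf (nat_lit 1008298444) (dlOf (nat_lit 1) (nat_lit 0x8008000400200020008b54e83))) 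
(.lf (nat_lit 473524684) (dlOf (nat_lit 1) (nat_lit 0x100018f54e81)))))) (.nd (nat_lit 15) 
(.nd (nat_lit 10) (.nd (nat_lit 5) 
(.lf (nat_lit 671179724) (dlOf (nat_lit 2) (nat_lit 0x3805c0286604002c00200240008142882))) 
(.lf (nat_lit 4697711596) (dlOf (nat_lit 1) (nat_lit 0x120028092881)))) (.nd (nat_lit 28) 
(.lf (nat_lit 671180748) (dlOf (nat_lit 1) (nat_lit 0xc00200080008144482))) 
(.lf (nat_lit 3087099852) (dlOf (nat_lit 2) (nat_lit 0x1002c0002204000800200040008144482))))) 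
(.nd (nat_lit 5) (.nd (nat_lit 10) 
(.lf (nat_lit 671212492) (dlOf (nat_lit 1) (nat_lit 0xa800400060018142882))) 
(.lf (nat_lit 671213516) (dlOf (nat_lit 3) (nat_lit 0x68098005803a003e0180017008005400140020004001600000009070008013000b0074008c030001a0100098002800040280140008009c00200220008144483)))) 
(.nd (nat_lit 11) (.lf (nat_lit 3959546860) (dlOf (nat_lit 1) (nat_lit 0x20018112881))) 
(.lf (nat_lit 738323436) (dlOf (nat_lit 1) (nat_lit 0x400200020008095e82)))))))))))) 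
(.nd (nat_lit 15) (.nd (nat_lit 16) (.nd (nat_lit 6) (.nd (nat_lit 5) (.nd (nat_lit 26) 
(.nd (nat_lit 21) (.nd (nat_lit 29) (.nd (nat_lit 20) (.nd (nat_lit 27) (.nd (nat_lit 30) 
(.lf (nat_lit 4563689484) (dlOf (nat_lit 6) (nat_lit 0x801a000500c8002403e0191d06001203400090190005807c032380c00200680012032000a00f80646c1800480d0002c064001601f00c8d03000100f8062080800500080044002002600080c0003))) 
(.lf (nat_lit 1342464012) (dlOf (nat_lit 5) (nat_lit 0x643a20015802002e1d1000ab81000a0e880033c0800a87440019c04002800400680008030482)))) 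
(.lf (nat_lit 4697907212) (dlOf (nat_lit 6) (nat_lit 0x801a000500c8002403e01c6a06001203400090190005807c038d20c00200680012032000a00f8071a01800480d0002c064001601f00e3383000100f806fb00800500080044002002600080c0003)))) 
(.nd (nat_lit 19) 
(.lf (nat_lit 30695436) (dlOf (nat_lit 2) (nat_lit 0x22c8d001fc00802d00080034002003c0008e40783))) 
(.lf (nat_lit 10248204) (dlOf (nat_lit 1) (nat_lit 0x200185c0481))))) (.nd (nat_lit 28) 
(.nd (nat_lit 31) (.lf (nat_lit 537157644) (dlOf (nat_lit 1) (nat_lit 0x17400400fa0008030482))) 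
(.lf (nat_lit 2684641292) (dlOf (nat_lit 2) (nat_lit 0x14580c8000760400e0004000e0008100102)))) 
(.nd (nat_lit 27) (.nd (nat_lit 31) 
(.lf (nat_lit 805593100) (dlOf (nat_lit 1) (nat_lit 0x18008002000200080008130483))) 
(.lf (nat_lit 2953076748) (dlOf (nat_lit 1) (nat_lit 0x200180f0181)))) 
(.lf (nat_lit 3087294476) (dlOf (nat_lit 5) (nat_lit 0x20058001f408001002c000f80400080160007502000400b00039818170480)))))) 
(.nd (nat_lit 24) (.nd (nat_lit 20) (.nd (nat_lit 19) 
(.lf (nat_lit 10772492) (dlOf (nat_lit 1) (nat_lit 0x680080058002003e0008620483))) 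
(.lf (nat_lit 11296780) (dlOf (nat_lit 2) (nat_lit 0x1f15840006c04000400400020008680102)))) 
(.nd (nat_lit 7) (.lf (nat_lit 3493617676) (dlOf (nat_lit 1) (nat_lit 0x40008180481))) 
(.lf (nat_lit 8151436) (dlOf (nat_lit 1) (nat_lit 0x20018511001))))) (.nd (nat_lit 7) 
(.nd (nat_lit 8) (.lf (nat_lit 24403980) (dlOf (nat_lit 1) (nat_lit 0x18008000800200040008b90683))) 
(.lf (nat_lit 20213004) (dlOf (nat_lit 1) (nat_lit 0x4002000200089d6682)))) (.nd (nat_lit 8) 
(.lf (nat_lit 23879820) (dlOf (nat_lit 1) (nat_lit 0x400200020008b80102))) 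
(.lf (nat_lit 54291340) (dlOf (nat_lit 1) (nat_lit 0x140019655c81))))))) (.nd (nat_lit 19) 
(.nd (nat_lit 27) (.nd (nat_lit 28) (.nd (nat_lit 30) 
(.lf (nat_lit 604266508) (dlOf (nat_lit 1) (nat_lit 0x60028110281))) (.nd (nat_lit 31) 
(.lf (nat_lit 1678008332) (dlOf (nat_lit 1) (nat_lit 0x8008001400200020008130483))) 
(.lf (nat_lit 3825491980) (dlOf (nat_lit 5) (nat_lit 0x20058001f408001002c000f80400080160007502000400b00039818170480))))) 
(.lf (nat_lit 1409572876) (dlOf (nat_lit 1) (nat_lit 0x17400400fa0008030482)))) (.nd (nat_lit 8) 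
(.nd (nat_lit 28) (.lf (nat_lit 1812226060) (dlOf (nat_lit 1) (nat_lit 0x8800400260008180482))) 
(.lf (nat_lit 470048780) (dlOf (nat_lit 5) (nat_lit 0x643a20015802002e1d1000ab81000a0e880033c0800a87440019c04002800400680008030482)))) 
(.lf (nat_lit 6644064524) (dlOf (nat_lit 1) (nat_lit 0x4004000200080c4802))))) (.nd (nat_lit 29) 
(.nd (nat_lit 7) (.nd (nat_lit 20) 
(.lf (nat_lit 3557580812) (dlOf (nat_lit 2) (nat_lit 0x102300010070002e208002c00200160008270182))) 
(.lf (nat_lit 471621644) (dlOf (nat_lit 1) (nat_lit 0x400400060018360282)))) 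
(.lf (nat_lit 4362887308) (dlOf (nat_lit 13) (nat_lit 0x50290000cc08115014400c8082044203302210168000c42009281440484066024002d00018030024028800081040064066003a02d0001784009d028804a80cc025805a0002e06030e0520001601001b0290000ac0806a8148000540403140a4000030201d8052000010100eb02900000408083014802780000000004000c00281a0101)))) 
(.nd (nat_lit 7) (.nd (nat_lit 8) 
(.lf (nat_lit 2755420172) (dlOf (nat_lit 1) (nat_lit 0x40008180481))) 
(.lf (nat_lit 4094454540) (dlOf (nat_lit 2) (nat_lit 0xa822c0002f0200060028055b01)))) 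
(.lf (nat_lit 4228669580) (dlOf (nat_lit 13) (nat_lit 0x50258000cc08115012800c8074044203202210160000c42009281280484064024002c00018030024025000080e80064064003a02c0001784009d025004a80c802580580002e06030e04b0001601001b0258000ac0806a812c00054040314096000040201d804b000010100eb02580000408083012c02780000000004000c00281a0101))))))) 
(.nd (nat_lit 9) (.nd (nat_lit 28) (.nd (nat_lit 21) (.nd (nat_lit 22) (.nd (nat_lit 7) 
(.nd (nat_lit 26) (.lf (nat_lit 5905867052) (dlOf (nat_lit 1) (nat_lit 0x400400020018154902))) 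
(.lf (nat_lit 6509846828) (dlOf (nat_lit 1) (nat_lit 0x400400020018154902)))) 
(.lf (nat_lit 1745117356) (dlOf (nat_lit 1) (nat_lit 0x80080004002000200080a2d03)))) 
(.nd (nat_lit 19) (.nd (nat_lit 20) 
(.lf (nat_lit 38035500) (dlOf (nat_lit 1) (nat_lit 0x400400020009110282))) 
(.lf (nat_lit 22306860) (dlOf (nat_lit 1) (nat_lit 0x40028ac0481)))) 
(.lf (nat_lit 13393964) (dlOf (nat_lit 1) (nat_lit 0xc00400020018720d02))))) (.nd (nat_lit 19) 
(.nd (nat_lit 20) (.nd (nat_lit 25) 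
(.lf (nat_lit 10772524) (dlOf (nat_lit 1) (nat_lit 0x20028620601))) 
(.lf (nat_lit 44326956) (dlOf (nat_lit 6) (nat_lit 0x36a48000751d0007a898002525c0001c10000ea48000751d0006a898003525c0001a10001aa48000d51d0009a898004525c00018100022a48001151d0007a898003d25c0001610001aa3a0000002000200092f0c01)))) 
(.nd (nat_lit 24) (.lf (nat_lit 45375532) (dlOf (nat_lit 1) (nat_lit 0x800400040019320002))) 
(.lf (nat_lit 62152748) (dlOf (nat_lit 7) (nat_lit 0x24a5b0001401000200000009c0800328f0000945400025040004a5b0000c01000352d80004408001a93c00018040130004004a0019960302))))) 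
(.nd (nat_lit 7) (.lf (nat_lit 29122604) (dlOf (nat_lit 1) (nat_lit 0xc00400020008dc0b02))) 
(.nd (nat_lit 8) (.lf (nat_lit 36463788) (dlOf (nat_lit 1) (nat_lit 0x20019072c01))) 
(.lf (nat_lit 8152492) (dlOf (nat_lit 1) (nat_lit 0x400200020008513602))))))) (.nd (nat_lit 7) 
(.nd (nat_lit 27) (.nd (nat_lit 29) 
(.lf (nat_lit 335831084) (dlOf (nat_lit 1) (nat_lit 0xc00180b0401))) 
(.lf (nat_lit 3020185644) (dlOf (nat_lit 1) (nat_lit 0x80018150401)))) (.nd (nat_lit 19) 
(.lf (nat_lit 402939948) (dlOf (nat_lit 1) (nat_lit 0xc00180b0401))) 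
(.lf (nat_lit 470573100) (dlOf (nat_lit 10) (nat_lit 0x9c0550053c2a2002c137010a04a00188204000a21400202a20005002006e154002c0a8801402500009e0c01042a80004e02001015400070a8800182040007e0c00082a20003802004015400050a8800102500006e0c00582a8000c1510001b0200050aa000205440006608007800400180008120d02))))) 
(.nd (nat_lit 8) (.nd (nat_lit 10) (.nd (nat_lit 27) 
(.lf (nat_lit 4563689644) (dlOf (nat_lit 2) (nat_lit 0x400660000902005000280c1501))) 
(.lf (nat_lit 4697907372) (dlOf (nat_lit 8) (nat_lit 0x8006600010020078033000070100010198000240801e80cc000100400fc066000050200760330000181003b019800004080008008002c002002000080c1503)))) 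
(.lf (nat_lit 1007969452) (dlOf (nat_lit 1) (nat_lit 0x400288c2c01)))) (.nd (nat_lit 10) 
(.lf (nat_lit 3489950124) (dlOf (nat_lit 1) (nat_lit 0x20008004e81))) 
(.lf (nat_lit 3557062060) (dlOf (nat_lit 2) (nat_lit 0x8092000404800519828129900))))))) 
(.nd (nat_lit 8) (.nd (nat_lit 10) (.nd (nat_lit 26) (.nd (nat_lit 31) 
(.lf (nat_lit 1074029100) (dlOf (nat_lit 2) (nat_lit 0x19402700000018090e80))) 
(.lf (nat_lit 3221512748) (dlOf (nat_lit 4) (nat_lit 0x3e00e0001201001f0070000880800f80380004004010c00200940008128002)))) 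
(.nd (nat_lit 28) 
(.lf (nat_lit 6509847084) (dlOf (nat_lit 1) (nat_lit 0x28008003800200080008158003))) 
(.lf (nat_lit 1946444332) (dlOf (nat_lit 2) (nat_lit 0x19402700000018090e80))))) (.nd (nat_lit 7) 
(.nd (nat_lit 23) (.lf (nat_lit 5234779692) (dlOf (nat_lit 1) (nat_lit 0x5b800201b800080d3782))) 
(.lf (nat_lit 8676908) (dlOf (nat_lit 1) (nat_lit 0x40028513781)))) 
(.lf (nat_lit 20215468) (dlOf (nat_lit 1) (nat_lit 0x4002000200089da002))))) (.nd (nat_lit 7) 
(.nd (nat_lit 10) (.nd (nat_lit 12) 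
(.lf (nat_lit 4899236652) (dlOf (nat_lit 1) (nat_lit 0x800180d5c01))) 
(.lf (nat_lit 19692332) (dlOf (nat_lit 1) (nat_lit 0x480080038002001200089dbc83)))) 
(.lf (nat_lit 2885969708) (dlOf (nat_lit 1) (nat_lit 0xe0028143d81)))) (.nd (nat_lit 11) 
(.lf (nat_lit 19690412) (dlOf (nat_lit 1) (nat_lit 0x180080018002000600089d9183))) 
(.lf (nat_lit 4094454700) (dlOf (nat_lit 2) (nat_lit 0x4021c0000004000400400040008055d02)))))))) 
(.nd (nat_lit 8) (.nd (nat_lit 7) (.nd (nat_lit 19) (.nd (nat_lit 28) (.nd (nat_lit 5) 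
(.nd (nat_lit 9) (.lf (nat_lit 537157708) (dlOf (nat_lit 2) (nat_lit 0x1a05400000018030f80))) 
(.lf (nat_lit 5905867340) (dlOf (nat_lit 1) (nat_lit 0x80018158d81)))) 
(.lf (nat_lit 24404076) (dlOf (nat_lit 1) (nat_lit 0x40018b91481)))) (.nd (nat_lit 26) 
(.lf (nat_lit 1342464076) (dlOf (nat_lit 5) (nat_lit 0x121c70000581000b0e3800206f40001208001037a0000802002e1c7000e0de800000100168008005800200280008030f83))) 
(.nd (nat_lit 27) (.lf (nat_lit 1409572940) (dlOf (nat_lit 2) (nat_lit 0x1a05400000018030f80))) 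
(.lf (nat_lit 470048844) (dlOf (nat_lit 5) (nat_lit 0x121c70000581000b0e3800206f40001208001037a0000802002e1c7000e0de800000100168008005800200280008030f83)))))) 
(.nd (nat_lit 21) (.nd (nat_lit 20) 
(.lf (nat_lit 17588300) (dlOf (nat_lit 5) (nat_lit 0x3f760001dbaf00046020010dd80006eebc001160800377600017baf00044820001dd80002200800080080030002000800088e0183))) 
(.nd (nat_lit 23) (.lf (nat_lit 35414092) (dlOf (nat_lit 1) (nat_lit 0x80019010001))) 
(.lf (nat_lit 10248268) (dlOf (nat_lit 1) (nat_lit 0x80080004002000200085c0f83))))) 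
(.nd (nat_lit 5) (.nd (nat_lit 23) 
(.lf (nat_lit 3956812) (dlOf (nat_lit 2) (nat_lit 0xc51100012018261500))) 
(.lf (nat_lit 45899852) (dlOf (nat_lit 1) (nat_lit 0x20009360681)))) 
(.lf (nat_lit 54288492) (dlOf (nat_lit 1) (nat_lit 0x108008008c00200320009650183)))))) 
(.nd (nat_lit 27) (.nd (nat_lit 5) (.nd (nat_lit 19) 
(.lf (nat_lit 3494142156) (dlOf (nat_lit 2) (nat_lit 0xe03f000e88181b0480))) (.nd (nat_lit 21) 
(.lf (nat_lit 4362887372) (dlOf (nat_lit 4) (nat_lit 0xc0320012381003400000090c0800800000047e040288002002400081a0482))) 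
(.lf (nat_lit 23879884) (dlOf (nat_lit 1) (nat_lit 0x180008b80481))))) (.nd (nat_lit 9) 
(.lf (nat_lit 54288620) (dlOf (nat_lit 1) (nat_lit 0x1f800200020009650a82))) 
(.lf (nat_lit 57436908) (dlOf (nat_lit 1) (nat_lit 0x400400200009795a02))))) (.nd (nat_lit 19) 
(.nd (nat_lit 26) (.lf (nat_lit 4697907404) (dlOf (nat_lit 2) (nat_lit 0x40310000d0180c1780))) 
(.lf (nat_lit 6644064460) (dlOf (nat_lit 2) (nat_lit 0x4023000140180c3b80)))) (.nd (nat_lit 26) 
(.lf (nat_lit 135028940) (dlOf (nat_lit 2) (nat_lit 0x5a000000704080008008027c002000a00081b0483))) 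
(.nd (nat_lit 28) 
(.lf (nat_lit 202137804) (dlOf (nat_lit 2) (nat_lit 0x5a000000704080008008027c002000a00081b0483))) 
(.lf (nat_lit 4228669644) (dlOf (nat_lit 4) (nat_lit 0xc0310012381003400000090c0800800000047e040288002002400081a0482)))))))) 
(.nd (nat_lit 31) (.nd (nat_lit 19) (.nd (nat_lit 9) (.nd (nat_lit 21) (.nd (nat_lit 23) 
(.lf (nat_lit 134504780) (dlOf (nat_lit 1) (nat_lit 0x400200020008048002))) 
(.lf (nat_lit 25452876) (dlOf (nat_lit 1) (nat_lit 0x400200020008c10802)))) 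
(.lf (nat_lit 2384204) (dlOf (nat_lit 2) (nat_lit 0x2aa8d40006604000800200060008150602)))) 
(.nd (nat_lit 20) 
(.lf (nat_lit 5100563276) (dlOf (nat_lit 1) (nat_lit 0x188008000c00200fa00080d5c03))) 
(.lf (nat_lit 20212556) (dlOf (nat_lit 1) (nat_lit 0x4002000200089d5c02))))) (.nd (nat_lit 21) 
(.nd (nat_lit 26) 
(.lf (nat_lit 135029068) (dlOf (nat_lit 2) (nat_lit 0x4816c02b80000002204004a00181b0601))) 
(.nd (nat_lit 27) 
(.lf (nat_lit 4362887500) (dlOf (nat_lit 4) (nat_lit 0x170190000c80800380000000604002c0000000102000400081a0601))) 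
(.lf (nat_lit 202137932) (dlOf (nat_lit 2) (nat_lit 0x4817002b80000002204004a00181b0601))))) 
(.nd (nat_lit 5) (.nd (nat_lit 7) 
(.lf (nat_lit 54288716) (dlOf (nat_lit 1) (nat_lit 0x380019650d01))) 
(.lf (nat_lit 40659404) (dlOf (nat_lit 1) (nat_lit 0x44002000e00091f4e82)))) 
(.lf (nat_lit 54291308) (dlOf (nat_lit 1) (nat_lit 0x8008000400200020009655c03)))))) 
(.nd (nat_lit 7) (.nd (nat_lit 27) (.nd (nat_lit 5) (.nd (nat_lit 22) 
(.lf (nat_lit 3221512524) (dlOf (nat_lit 1) (nat_lit 0xc00400040008124c82))) 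
(.lf (nat_lit 2755944780) (dlOf (nat_lit 2) (nat_lit 0x30014000080040008002000200081b0602)))) 
(.lf (nat_lit 4094454636) (dlOf (nat_lit 1) (nat_lit 0x400400020008055c02)))) (.nd (nat_lit 5) 
(.nd (nat_lit 19) (.lf (nat_lit 3959710028) (dlOf (nat_lit 1) (nat_lit 0xc00400040008124c82))) 
(.lf (nat_lit 4228669772) (dlOf (nat_lit 4) (nat_lit 0x170188000cc0800380000000604002c0000000102000400081a0601)))) 
(.lf (nat_lit 3154403692) (dlOf (nat_lit 1) (nat_lit 0x78008000400200400008160a03))))) 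
(.nd (nat_lit 5) (.nd (nat_lit 9) (.nd (nat_lit 11) 
(.lf (nat_lit 3221512652) (dlOf (nat_lit 3) (nat_lit 0x5408a0042402002a04500211018127100))) 
(.lf (nat_lit 4094978508) (dlOf (nat_lit 1) (nat_lit 0x650008055000200520008054e83)))) 
(.lf (nat_lit 2751752140) (dlOf (nat_lit 6) (nat_lit 0x1520c900a605c805602940144140016008600a300280004430000839002cc19201620b900ad052802e8280000411c015608d00b104300008210029000a0002000000080b00a3064805282e4028014a015808600a400280003c2800e036802b01a2015a0cd00ac063005602f402b017801580b60031059005582a0000c14e01580a200b5044805c82200124106012e00a007c0048003000400080000000e2400420da00b5066805602f4012417801700a80002053805b822402c4110013400a007f0048000345006c800804dc00204360008004483)))) 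
(.nd (nat_lit 26) 
(.lf (nat_lit 3221512684) (dlOf (nat_lit 6) (nat_lit 0x6101f000480f001f001c001000c000c00000008c2803d00f8027001c005a00c002e0000000882005080f800ec03801a400e004c001003000000003c14013007c00b000e0000e02004801f002e00380003608012000400540018127302))) 
(.lf (nat_lit 6509847020) (dlOf (nat_lit 7) (nat_lit 0xb60130055005c000ba0802e804c013a0170002e0200a3013000c805c000a008028c04c0004702019802600d200b8001081003480980007a0400a8004006a0008157302))))))))) 
(.nd (nat_lit 5) (.nd (nat_lit 6) (.nd (nat_lit 26) (.nd (nat_lit 20) (.nd (nat_lit 28) 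
(.nd (nat_lit 27) (.nd (nat_lit 19) 
(.lf (nat_lit 3221577740) (dlOf (nat_lit 1) (nat_lit 0x568008006000200460008150503))) 
(.lf (nat_lit 15556620) (dlOf (nat_lit 1) (nat_lit 0x20028800281)))) (.nd (nat_lit 30) 
(.lf (nat_lit 134569996) (dlOf (nat_lit 1) (nat_lit 0x20028080081))) 
(.lf (nat_lit 3355795468) (dlOf (nat_lit 3) (nat_lit 0xa0190001040800800c400076040028004000a0008120102))))) 
(.nd (nat_lit 7) (.nd (nat_lit 29) 
(.lf (nat_lit 268787724) (dlOf (nat_lit 1) (nat_lit 0x2e0018160001))) 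
(.lf (nat_lit 805658636) (dlOf (nat_lit 1) (nat_lit 0x20008001000200080008170483)))) 
(.nd (nat_lit 29) 
(.lf (nat_lit 5637497228) (dlOf (nat_lit 1) (nat_lit 0x480080010002000200080f5d83))) 
(.lf (nat_lit 5100626316) (dlOf (nat_lit 1) (nat_lit 0x400400020018105d82)))))) (.nd (nat_lit 19) 
(.nd (nat_lit 8) (.lf (nat_lit 22372364) (dlOf (nat_lit 1) (nat_lit 0x90004001a0008ad0102))) 
(.lf (nat_lit 41246988) (dlOf (nat_lit 1) (nat_lit 0x40009223a01)))) (.nd (nat_lit 21) 
(.lf (nat_lit 27090956) (dlOf (nat_lit 1) (nat_lit 0x900008ca0481))) 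
(.lf (nat_lit 29188108) (dlOf (nat_lit 13) (nat_lit 0x65728000ab4c000d4280008a0b000228400025728001282c000860800195cc0006a0c0001b02000457300012850000941800034060004ad4000350a8000b410000ab9800115a80010a1500025060000a820000ab50002142a00029040002ae6000356a00032854000941800023080006ae500035698003a850000941600020080002ae500045698001a8500003e0c00055ca0008ad3000550a00007418002ab9400215a60012a140005505800070200018008000c002000c0008dd0683)))))) 
(.nd (nat_lit 28) (.nd (nat_lit 27) (.nd (nat_lit 20) (.nd (nat_lit 29) 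
(.lf (nat_lit 4362428428) (dlOf (nat_lit 1) (nat_lit 0x60018070501))) 
(.lf (nat_lit 1678073868) (dlOf (nat_lit 1) (nat_lit 0x20008001000200080008170483)))) 
(.lf (nat_lit 68509708) (dlOf (nat_lit 1) (nat_lit 0xa0008003400200240008590583)))) 
(.nd (nat_lit 7) (.nd (nat_lit 29) 
(.lf (nat_lit 201678860) (dlOf (nat_lit 1) (nat_lit 0x20028080081))) 
(.lf (nat_lit 3959775244) (dlOf (nat_lit 1) (nat_lit 0x568008006000200460008150503)))) 
(.lf (nat_lit 5033519500) (dlOf (nat_lit 1) (nat_lit 0xc00080e4e81))))) (.nd (nat_lit 30) 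
(.nd (nat_lit 7) (.nd (nat_lit 20) 
(.lf (nat_lit 2617597964) (dlOf (nat_lit 6) (nat_lit 0x58c05e043801200025020070009000124081bb00bc05c002400041040c4402e005a00b800580481dd80220003b08007202f000600900000010083000817140020a1e0008100103))) 
(.lf (nat_lit 471162892) (dlOf (nat_lit 1) (nat_lit 0xc004000200182a0102)))) 
(.lf (nat_lit 1007515788) (dlOf (nat_lit 1) (nat_lit 0xc002000200083da882)))) (.nd (nat_lit 7) 
(.nd (nat_lit 8) (.lf (nat_lit 4228210700) (dlOf (nat_lit 1) (nat_lit 0x60018070501))) 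
(.lf (nat_lit 4094520076) (dlOf (nat_lit 2) (nat_lit 0x23059001182b8004c13a004806200017848055b00)))) 
(.lf (nat_lit 6241477004) (dlOf (nat_lit 1) (nat_lit 0x480080034002000400080f5d83))))))) 
(.nd (nat_lit 7) (.nd (nat_lit 8) (.nd (nat_lit 19) (.nd (nat_lit 20) (.nd (nat_lit 29) 
(.lf (nat_lit 2550489164) (dlOf (nat_lit 2) (nat_lit 0xaa0260001e0180c1500))) 
(.lf (nat_lit 5234843724) (dlOf (nat_lit 1) (nat_lit 0x8008000400200020008100503)))) 
(.lf (nat_lit 1400908) (dlOf (nat_lit 1) (nat_lit 0x600180c0f81)))) (.nd (nat_lit 9) 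
(.nd (nat_lit 20) (.lf (nat_lit 13459532) (dlOf (nat_lit 1) (nat_lit 0x40018721881))) 
(.lf (nat_lit 69034060) (dlOf (nat_lit 1) (nat_lit 0xc00200020008880682)))) 
(.lf (nat_lit 58550860) (dlOf (nat_lit 1) (nat_lit 0x200197e5281))))) (.nd (nat_lit 9) 
(.nd (nat_lit 20) (.lf (nat_lit 1610965324) (dlOf (nat_lit 1) (nat_lit 0x50004000200080a6682))) 
(.nd (nat_lit 22) (.lf (nat_lit 3498316) (dlOf (nat_lit 2) (nat_lit 0xda3f900019018200600))) 
(.lf (nat_lit 58024268) (dlOf (nat_lit 2) (nat_lit 0x228c80007902000c00197b8881))))) 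
(.nd (nat_lit 10) 
(.lf (nat_lit 2349169484) (dlOf (nat_lit 6) (nat_lit 0x8058000e02a0006014000300600014020000e00e00010060003000c000400000b0412000a02a000800800028020015f60c001c05c0016000002ad8200080000015480800080b0001c054000c028000600c00030040001c01c000c00800050018000004000b0008003c002003400080fbc83))) 
(.lf (nat_lit 1344108364) (dlOf (nat_lit 1) (nat_lit 0xa00183da201)))))) (.nd (nat_lit 26) 
(.nd (nat_lit 19) (.nd (nat_lit 8) (.nd (nat_lit 20) 
(.lf (nat_lit 2818924748) (dlOf (nat_lit 1) (nat_lit 0x70008001400200380008130483))) 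
(.lf (nat_lit 3498188) (dlOf (nat_lit 2) (nat_lit 0x22c8fa000c3d900123828200480)))) 
(.lf (nat_lit 23421388) (dlOf (nat_lit 1) (nat_lit 0x18008001400200040008b80983)))) 
(.nd (nat_lit 10) 
(.lf (nat_lit 537747660) (dlOf (nat_lit 1) (nat_lit 0x8008000400200020008155a83))) 
(.lf (nat_lit 19754188) (dlOf (nat_lit 1) (nat_lit 0x4c004001a00089d6402))))) (.nd (nat_lit 8) 
(.nd (nat_lit 19) 
(.lf (nat_lit 872767692) (dlOf (nat_lit 3) (nat_lit 0x40260001d01000100a0000680800100080018002000a00080c1783))) 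
(.lf (nat_lit 1410162892) (dlOf (nat_lit 1) (nat_lit 0x8008000400200020008155a83)))) 
(.nd (nat_lit 9) 
(.lf (nat_lit 2349165004) (dlOf (nat_lit 2) (nat_lit 0x2015003f9c0800b8008002c002002200080f4e83))) 
(.lf (nat_lit 2483386316) (dlOf (nat_lit 2) (nat_lit 0x1201400156c08012800801b400200be00080fa603)))))))) 
(.nd (nat_lit 28) (.nd (nat_lit 21) (.nd (nat_lit 6) (.nd (nat_lit 19) (.nd (nat_lit 26) 
(.nd (nat_lit 27) (.lf (nat_lit 3758448684) (dlOf (nat_lit 2) (nat_lit 0x2e032000358181c0680))) 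
(.lf (nat_lit 671440940) (dlOf (nat_lit 1) (nat_lit 0x1000081a0601)))) 
(.lf (nat_lit 4362428460) (dlOf (nat_lit 6) (nat_lit 0xc102e0061015003d00a600100520130023800401180020000000100e018405c00a602a00ee011c00440820014033000c016800200000001e1c08400660000e0202a00330000681007602e00000c0802b8008018800200900008070803)))) 
(.nd (nat_lit 20) (.nd (nat_lit 23) 
(.lf (nat_lit 5070892) (dlOf (nat_lit 2) (nat_lit 0x29299600025818300680))) 
(.lf (nat_lit 13459500) (dlOf (nat_lit 2) (nat_lit 0x22565001029d800811c000488b2000510800060018720d01)))) 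
(.lf (nat_lit 27090988) (dlOf (nat_lit 8) (nat_lit 0x7b0a05160000002f820030000000174080050000000ae041a0fb0a03f8e8a03966e90187275003e4000000520a00e5d850032ebf8018f2dc00e779200a9bb8002ddb0801c6d2c002f66e005aed3002c76480163a5800c9ca40084dd200dd6c4800bb5f40111ac200d0d3b0041697803026bc0011316000a9710002595003e6c20000940805eed5c0000004105800200660008ca0682))))) 
(.nd (nat_lit 7) (.nd (nat_lit 24) (.nd (nat_lit 29) 
(.lf (nat_lit 1208311916) (dlOf (nat_lit 1) (nat_lit 0x80080008002000200080c0a83))) 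
(.lf (nat_lit 2818924652) (dlOf (nat_lit 2) (nat_lit 0x100fc0161e04003800200100008130282)))) 
(.lf (nat_lit 17129580) (dlOf (nat_lit 1) (nat_lit 0x200188e0481)))) (.nd (nat_lit 9) 
(.nd (nat_lit 19) (.lf (nat_lit 42297836) (dlOf (nat_lit 1) (nat_lit 0x20009244f01))) 
(.lf (nat_lit 38627820) (dlOf (nat_lit 1) (nat_lit 0x800200020009134f02)))) (.nd (nat_lit 8) 
(.lf (nat_lit 354028) (dlOf (nat_lit 1) (nat_lit 0x3e0008003b01))) 
(.lf (nat_lit 38101996) (dlOf (nat_lit 1) (nat_lit 0x180009132881))))))) (.nd (nat_lit 20) 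
(.nd (nat_lit 8) (.nd (nat_lit 7) (.nd (nat_lit 9) 
(.lf (nat_lit 6643756) (dlOf (nat_lit 1) (nat_lit 0x8008000400200020008440b03))) 
(.lf (nat_lit 23421484) (dlOf (nat_lit 2) (nat_lit 0x78000000070200040018b80e81)))) 
(.lf (nat_lit 31810732) (dlOf (nat_lit 1) (nat_lit 0xc00200020008e92c02)))) (.nd (nat_lit 6) 
(.lf (nat_lit 69560748) (dlOf (nat_lit 1) (nat_lit 0x20028b44e81))) (.nd (nat_lit 11) 
(.lf (nat_lit 19751788) (dlOf (nat_lit 1) (nat_lit 0x200289d2581))) 
(.lf (nat_lit 19753836) (dlOf (nat_lit 1) (nat_lit 0x200289d5c01)))))) (.nd (nat_lit 7) 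
(.nd (nat_lit 22) (.nd (nat_lit 19) 
(.lf (nat_lit 37052460) (dlOf (nat_lit 1) (nat_lit 0x400400020009090282))) 
(.lf (nat_lit 4022316) (dlOf (nat_lit 3) (nat_lit 0x1080000001202011600000008818270a80)))) 
(.nd (nat_lit 23) (.lf (nat_lit 7692332) (dlOf (nat_lit 1) (nat_lit 0x80080004002000200084d0b03))) 
(.lf (nat_lit 16080940) (dlOf (nat_lit 2) (nat_lit 0x20e140005c0200080018860801))))) 
(.nd (nat_lit 6) 
(.lf (nat_lit 12411308) (dlOf (nat_lit 2) (nat_lit 0x9dd400056e98003364e00cea06005000286c0781))) 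
(.nd (nat_lit 8) (.lf (nat_lit 20278508) (dlOf (nat_lit 2) (nat_lit 0xabe20003602000400089d6501))) 
(.lf (nat_lit 20280812) (dlOf (nat_lit 1) (nat_lit 0x8004000200089d9c02)))))))) (.nd (nat_lit 26) 
(.nd (nat_lit 6) (.nd (nat_lit 30) (.nd (nat_lit 31) 
(.lf (nat_lit 268787756) (dlOf (nat_lit 2) (nat_lit 0x8000000850200020018160481))) 
(.lf (nat_lit 2416271404) (dlOf (nat_lit 1) (nat_lit 0x80080004002000400080c0d03)))) 
(.nd (nat_lit 7) (.nd (nat_lit 19) 
(.lf (nat_lit 6308585516) (dlOf (nat_lit 1) (nat_lit 0x20018120d01))) 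
(.lf (nat_lit 1346199596) (dlOf (nat_lit 7) (nat_lit 0x610560003028a01700cf003800e00002c2000c0560007819e0000a040132158001d0a28053833c000120c00fc2b00000802002e158000038100920ac0056833c000000803d400400020008e60282)))) 
(.lf (nat_lit 3490015660) (dlOf (nat_lit 1) (nat_lit 0x400400020008004e82))))) (.nd (nat_lit 29) 
(.nd (nat_lit 8) (.lf (nat_lit 5637496940) (dlOf (nat_lit 1) (nat_lit 0x200280f0a81))) 
(.lf (nat_lit 3490016620) (dlOf (nat_lit 1) (nat_lit 0x400200020008006b02)))) (.nd (nat_lit 27) 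
(.lf (nat_lit 5100626028) (dlOf (nat_lit 1) (nat_lit 0x20008100a81))) 
(.lf (nat_lit 5234843756) (dlOf (nat_lit 1) (nat_lit 0x2ec004007c0008100b02)))))) (.nd (nat_lit 27) 
(.nd (nat_lit 6) (.nd (nat_lit 9) (.nd (nat_lit 31) 
(.lf (nat_lit 5704605740) (dlOf (nat_lit 1) (nat_lit 0x20018120d01))) 
(.lf (nat_lit 3557122092) (dlOf (nat_lit 1) (nat_lit 0x24002000e0008130002)))) 
(.lf (nat_lit 4096091692) (dlOf (nat_lit 1) (nat_lit 0x200280e3781)))) (.nd (nat_lit 8) 
(.lf (nat_lit 6241476716) (dlOf (nat_lit 1) (nat_lit 0x200280f0a81))) 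
(.lf (nat_lit 3557122412) (dlOf (nat_lit 1) (nat_lit 0x48008002c00200120008130a03))))) 
(.nd (nat_lit 29) (.nd (nat_lit 30) 
(.lf (nat_lit 2617597996) (dlOf (nat_lit 2) (nat_lit 0x114068000202f00000028100780))) 
(.lf (nat_lit 1543856172) (dlOf (nat_lit 1) (nat_lit 0x1000081a0601)))) (.nd (nat_lit 6) 
(.nd (nat_lit 30) 
(.lf (nat_lit 1006985260) (dlOf (nat_lit 1) (nat_lit 0x10008000400200040008120d03))) 
(.lf (nat_lit 4228210732) (dlOf (nat_lit 6) (nat_lit 0x2a0154030409a018004c004e0258007012805f0080008603f000e0190023006001180000001014000e0400000781019f019000038080aa80c80001a0402680aa005004c00001828070900)))) 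
(.lf (nat_lit 2080727148) (dlOf (nat_lit 1) (nat_lit 0x80080008002000200080c0a83)))))))))) 
(.nd (nat_lit 5) (.nd (nat_lit 6) (.nd (nat_lit 16) (.nd (nat_lit 26) (.nd (nat_lit 7) 
(.nd (nat_lit 19) (.nd (nat_lit 27) (.nd (nat_lit 20) 
(.lf (nat_lit 537190412) (dlOf (nat_lit 1) (nat_lit 0x7400400280018050102))) 
(.lf (nat_lit 1343545356) (dlOf (nat_lit 2) (nat_lit 0x701f8000f204001000400240008290182)))) 
(.nd (nat_lit 8) (.nd (nat_lit 29) 
(.lf (nat_lit 2282020876) (dlOf (nat_lit 2) (nat_lit 0x30048000ec080010008000400200020008100103))) 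
(.lf (nat_lit 1745149964) (dlOf (nat_lit 1) (nat_lit 0xd8008006c002007000080b0003)))) 
(.lf (nat_lit 671408396) (dlOf (nat_lit 2) (nat_lit 0x1a02400000018187d00))))) (.nd (nat_lit 20) 
(.nd (nat_lit 23) 
(.lf (nat_lit 1343021068) (dlOf (nat_lit 1) (nat_lit 0xb80080004002001e0008130483))) 
(.lf (nat_lit 59564044) (dlOf (nat_lit 1) (nat_lit 0x88008000400200160009810183)))) 
(.lf (nat_lit 29155340) (dlOf (nat_lit 1) (nat_lit 0x400200020008dd0682))))) (.nd (nat_lit 11) 
(.nd (nat_lit 8) (.nd (nat_lit 19) 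
(.lf (nat_lit 671408268) (dlOf (nat_lit 1) (nat_lit 0x800400220008183d02))) 
(.lf (nat_lit 23912588) (dlOf (nat_lit 1) (nat_lit 0x400200020008b80102)))) 
(.lf (nat_lit 8184204) (dlOf (nat_lit 1) (nat_lit 0x400200020008511002)))) (.nd (nat_lit 10) 
(.nd (nat_lit 20) (.lf (nat_lit 31779212) (dlOf (nat_lit 1) (nat_lit 0xc0028e94e81))) 
(.lf (nat_lit 60090764) (dlOf (nat_lit 1) (nat_lit 0x20029844e81)))) 
(.lf (nat_lit 20245900) (dlOf (nat_lit 1) (nat_lit 0x4004000200089d6c82)))))) (.nd (nat_lit 19) 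
(.nd (nat_lit 27) (.nd (nat_lit 28) (.nd (nat_lit 20) 
(.lf (nat_lit 2214912012) (dlOf (nat_lit 1) (nat_lit 0x10e0028130081))) 
(.lf (nat_lit 68476940) (dlOf (nat_lit 1) (nat_lit 0x20008580781)))) (.nd (nat_lit 29) 
(.lf (nat_lit 1409605644) (dlOf (nat_lit 1) (nat_lit 0x7400400280018050102))) 
(.lf (nat_lit 872734732) (dlOf (nat_lit 1) (nat_lit 0xd8008006c002007000080b0003))))) 
(.nd (nat_lit 7) 
(.lf (nat_lit 2617565196) (dlOf (nat_lit 3) (nat_lit 0x402f000150100010170000a00800b00080064002001800080f0103))) 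
(.lf (nat_lit 1543823500) (dlOf (nat_lit 1) (nat_lit 0x800400220008183d02))))) (.nd (nat_lit 7) 
(.nd (nat_lit 27) 
(.lf (nat_lit 3557613580) (dlOf (nat_lit 1) (nat_lit 0x880080098002002a0008270183))) 
(.lf (nat_lit 470605836) (dlOf (nat_lit 1) (nat_lit 0xb80080004002001e0008130483)))) 
(.nd (nat_lit 20) (.nd (nat_lit 27) 
(.lf (nat_lit 4362920076) (dlOf (nat_lit 1) (nat_lit 0x1c002002400081a0102))) 
(.lf (nat_lit 4228702348) (dlOf (nat_lit 1) (nat_lit 0x1c002002400081a0102)))) 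
(.lf (nat_lit 471654540) (dlOf (nat_lit 2) (nat_lit 0x10a700048c0800080080004002001c0008370483))))))) 
(.nd (nat_lit 27) (.nd (nat_lit 7) (.nd (nat_lit 28) (.nd (nat_lit 19) (.nd (nat_lit 21) 
(.nd (nat_lit 29) 
(.lf (nat_lit 3221610508) (dlOf (nat_lit 5) (nat_lit 0x3408c0010d02000a0460008481000202300041c0801101180020c0400dc00400b00018160082))) 
(.lf (nat_lit 537255948) (dlOf (nat_lit 1) (nat_lit 0x40008070501)))) 
(.lf (nat_lit 44425228) (dlOf (nat_lit 1) (nat_lit 0x20008000400200040009310003)))) 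
(.lf (nat_lit 22929420) (dlOf (nat_lit 2) (nat_lit 0x6c95e0001d818b40100)))) (.nd (nat_lit 9) 
(.nd (nat_lit 26) 
(.lf (nat_lit 4563787788) (dlOf (nat_lit 2) (nat_lit 0x500f0005440801300080064002007a00080e0083))) 
(.lf (nat_lit 1409671180) (dlOf (nat_lit 1) (nat_lit 0x40008070501)))) 
(.lf (nat_lit 1345710604) (dlOf (nat_lit 1) (nat_lit 0x10008000800200040008dd5003))))) 
(.nd (nat_lit 8) (.nd (nat_lit 19) 
(.lf (nat_lit 604364940) (dlOf (nat_lit 2) (nat_lit 0x5a0160007c0181a0480))) (.nd (nat_lit 21) 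
(.lf (nat_lit 1879957644) (dlOf (nat_lit 2) (nat_lit 0x100000000410200260018490101))) 
(.lf (nat_lit 7200908) (dlOf (nat_lit 1) (nat_lit 0x400184b0481))))) (.nd (nat_lit 11) 
(.lf (nat_lit 8249740) (dlOf (nat_lit 1) (nat_lit 0x400200020008511002))) 
(.lf (nat_lit 49146252) (dlOf (nat_lit 1) (nat_lit 0xa0029464e81)))))) (.nd (nat_lit 28) 
(.nd (nat_lit 26) (.nd (nat_lit 7) 
(.lf (nat_lit 3355828236) (dlOf (nat_lit 6) (nat_lit 0x240190001280807f00c8000820400a0064000400201ee03100710088000ec1001300c80000004015c002001e0008120102))) 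
(.lf (nat_lit 1208344716) (dlOf (nat_lit 1) (nat_lit 0x1a00180c0f81)))) (.nd (nat_lit 29) 
(.lf (nat_lit 4496678924) (dlOf (nat_lit 1) (nat_lit 0x8008000400200020008120003))) 
(.lf (nat_lit 3959808012) (dlOf (nat_lit 5) (nat_lit 0x3408c000f802000a0460007a0100020230003c8080110118001e20400dc00400b00018160082))))) 
(.nd (nat_lit 7) (.nd (nat_lit 8) (.nd (nat_lit 26) 
(.lf (nat_lit 4698005516) (dlOf (nat_lit 2) (nat_lit 0x500f0002fc0801300080064002007a00080e0083))) 
(.lf (nat_lit 2617630732) (dlOf (nat_lit 2) (nat_lit 0x6c0580014002000e0028110081)))) 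
(.lf (nat_lit 470147340) (dlOf (nat_lit 1) (nat_lit 0x200028067d01)))) 
(.lf (nat_lit 1007542412) (dlOf (nat_lit 2) (nat_lit 0x100000000410200260018490101))))))) 
(.nd (nat_lit 26) (.nd (nat_lit 19) (.nd (nat_lit 20) (.nd (nat_lit 8) (.nd (nat_lit 7) 
(.nd (nat_lit 16) 
(.lf (nat_lit 2550456396) (dlOf (nat_lit 1) (nat_lit 0x220008033c002002c00080c1503))) 
(.lf (nat_lit 1881530444) (dlOf (nat_lit 1) (nat_lit 0x60028f40681)))) 
(.lf (nat_lit 2416844) (dlOf (nat_lit 1) (nat_lit 0x400400020008150482)))) (.nd (nat_lit 16) 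
(.nd (nat_lit 21) (.lf (nat_lit 3221545292) (dlOf (nat_lit 1) (nat_lit 0x20028138001))) 
(.lf (nat_lit 2416972) (dlOf (nat_lit 2) (nat_lit 0xb148e002899300019828150600)))) 
(.lf (nat_lit 25551180) (dlOf (nat_lit 1) (nat_lit 0x8008000400200020008c10803))))) 
(.nd (nat_lit 16) (.nd (nat_lit 7) (.nd (nat_lit 9) 
(.lf (nat_lit 3465548) (dlOf (nat_lit 2) (nat_lit 0x44aa200643f900019028200600))) 
(.lf (nat_lit 20245324) (dlOf (nat_lit 1) (nat_lit 0x4002000200089d5c02)))) 
(.lf (nat_lit 3465420) (dlOf (nat_lit 2) (nat_lit 0x14ace013047d00123828200480)))) (.nd (nat_lit 9) 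
(.nd (nat_lit 22) 
(.lf (nat_lit 3531084) (dlOf (nat_lit 2) (nat_lit 0x2a92800006404000800200060008200602))) 
(.lf (nat_lit 58057036) (dlOf (nat_lit 2) (nat_lit 0x8a180000f2040058004000800197b8882)))) 
(.lf (nat_lit 20310860) (dlOf (nat_lit 1) (nat_lit 0x4002000200089d5c02)))))) (.nd (nat_lit 7) 
(.nd (nat_lit 8) (.nd (nat_lit 16) 
(.lf (nat_lit 35446860) (dlOf (nat_lit 1) (nat_lit 0xd40019010001))) 
(.lf (nat_lit 25026636) (dlOf (nat_lit 1) (nat_lit 0x18008000400200040008be1503)))) 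
(.nd (nat_lit 9) (.nd (nat_lit 16) 
(.lf (nat_lit 135061836) (dlOf (nat_lit 2) (nat_lit 0x13602d8000880801180080668002008800081b0603))) 
(.lf (nat_lit 1879957836) (dlOf (nat_lit 1) (nat_lit 0x60018490601)))) 
(.lf (nat_lit 537721676) (dlOf (nat_lit 1) (nat_lit 0x200180fbc81))))) (.nd (nat_lit 8) 
(.nd (nat_lit 16) (.nd (nat_lit 20) 
(.lf (nat_lit 135061708) (dlOf (nat_lit 3) (nat_lit 0x3640b6001c000000e08200450000006fc080208008037c002008e00081b0483))) 
(.lf (nat_lit 5773254860) (dlOf (nat_lit 1) (nat_lit 0x4200080c1781)))) 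
(.lf (nat_lit 5773320396) (dlOf (nat_lit 1) (nat_lit 0x4004000400080c1782)))) (.nd (nat_lit 10) 
(.lf (nat_lit 3490507212) (dlOf (nat_lit 1) (nat_lit 0x400200020008004e82))) 
(.lf (nat_lit 537718220) (dlOf (nat_lit 1) (nat_lit 0xc00080f6d01))))))) (.nd (nat_lit 16) 
(.nd (nat_lit 8) (.nd (nat_lit 7) (.nd (nat_lit 27) 
(.lf (nat_lit 2483347532) (dlOf (nat_lit 25) (nat_lit 0xb80a80008a040040054001c003000220200ee01701f080a80ac0050077a01803f80080095003c0ed001c017000d02bd00600f780240fe400600d00000001e8c015301701f100a80b7c050077601804070080045803c0f3001c01ae00d02d90060215000c02800000003c16024e02e038a015001e80a0089403007c601003a40070056003402b401204800030001d89003d0080000e80809380b80f4c0540562028005e00f01d480600fc0020079800e02be006005280240fbc0060003914025002e02f5015011580a0017403c030601001b3007015a0030077801201e20030001c0901a501500a380400b2c01c0003706021402e03c1015014680a00e6003007a001003bf007015e80300f70006000361007a802a021c01401df80380e700060003508025a02a00cd0080170803803940180003408009a02a0010014000e00600134020002000e001c0060025000c000661c0088020001000e00011820010015002300400003808007c01c0001a02001e02a004000800d28038000320c02b405400480100000c020133015000880380002a0809e002007a800e000098202380070000480806a80a8000220406d401c0001002000c0100004007000000100678008050c002071200080c1503)))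 
(.nd (nat_lit 29) 
(.lf (nat_lit 2349129804) (dlOf (nat_lit 2) (nat_lit 0x178020000200e000268280c1880))) 
(.lf (nat_lit 5033484364) (dlOf (nat_lit 1) (nat_lit 0x4002000200080d1582))))) (.nd (nat_lit 27) 
(.lf (nat_lit 4362920140) (dlOf (nat_lit 4) (nat_lit 0x3980480324000002430400e4000001208100b20000008fc0800180080318002000600081a0483))) 
(.nd (nat_lit 28) 
(.lf (nat_lit 202170572) (dlOf (nat_lit 3) (nat_lit 0x3640b8001c000000e08200450000006fc080208008037c002008e00081b0483))) 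
(.lf (nat_lit 4228702412) (dlOf (nat_lit 4) (nat_lit 0x3980440324000002430400e4000001208100b20000008fc0800180080318002000600081a0483)))))) 
(.nd (nat_lit 19) (.nd (nat_lit 9) 
(.lf (nat_lit 1543823692) (dlOf (nat_lit 5) (nat_lit 0x800a0006b02001e00800080028001a81000080200009c04004002c000390200260008188001))) 
(.lf (nat_lit 2886002508) (dlOf (nat_lit 1) (nat_lit 0xec004003c0008143e82)))) (.nd (nat_lit 27) 
(.lf (nat_lit 4362920268) (dlOf (nat_lit 1) (nat_lit 0xc0002003a00081a0602))) (.nd (nat_lit 28) 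
(.lf (nat_lit 202170700) (dlOf (nat_lit 2) (nat_lit 0x13602e0000880801180080668002008800081b0603))) 
(.lf (nat_lit 4228702540) (dlOf (nat_lit 1) (nat_lit 0xc0002003a00081a0602))))))) (.nd (nat_lit 7) 
(.nd (nat_lit 8) (.nd (nat_lit 27) 
(.lf (nat_lit 1946542156) (dlOf (nat_lit 1) (nat_lit 0x800801bc002009000080c1503))) 
(.lf (nat_lit 4496678988) (dlOf (nat_lit 1) (nat_lit 0x80080198002008e0008120503)))) 
(.nd (nat_lit 19) (.nd (nat_lit 27) 
(.lf (nat_lit 2483413324) (dlOf (nat_lit 1) (nat_lit 0x180080004002000200081b0603))) 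
(.lf (nat_lit 2349195596) (dlOf (nat_lit 1) (nat_lit 0x180080004002000200081b0603)))) 
(.lf (nat_lit 1007542604) (dlOf (nat_lit 1) (nat_lit 0x60018490601))))) (.nd (nat_lit 11) 
(.nd (nat_lit 8) 
(.lf (nat_lit 2080760012) (dlOf (nat_lit 5) (nat_lit 0x806200040300001d020002018800100c00004a08000805a000402b0000d020002016800180ac00030080040004009e00180c1782))) 
(.nd (nat_lit 27) 
(.lf (nat_lit 4362461644) (dlOf (nat_lit 2) (nat_lit 0xc30198000000800080080020002000a0008090983))) 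
(.lf (nat_lit 4228243916) (dlOf (nat_lit 2) (nat_lit 0xc30190000000800080080020002000a0008090983))))) 
(.nd (nat_lit 20) (.nd (nat_lit 21) 
(.lf (nat_lit 6376253900) (dlOf (nat_lit 1) (nat_lit 0x20008094e81))) 
(.lf (nat_lit 472771020) (dlOf (nat_lit 1) (nat_lit 0x400400020008b04e82)))) 
(.lf (nat_lit 473819596) (dlOf (nat_lit 1) (nat_lit 0x120018fa4e81))))))))) (.nd (nat_lit 16) 
(.nd (nat_lit 21) (.nd (nat_lit 27) (.nd (nat_lit 6) (.nd (nat_lit 19) (.nd (nat_lit 26) 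
(.nd (nat_lit 7) (.nd (nat_lit 28) 
(.lf (nat_lit 4295286828) (dlOf (nat_lit 1) (nat_lit 0x80018100601))) 
(.lf (nat_lit 1879367724) (dlOf (nat_lit 7) (nat_lit 0x816000040ae0016055001002a00050148001809e004004e000800000038c40006015c006c09e003e04e0007103000702700038408005015400440a8003a051000e0270001d8200040144003c09c0007504000a05100010270001cc1004280080614002004a00080f0b03)))) 
(.lf (nat_lit 3221545132) (dlOf (nat_lit 1) (nat_lit 0x20008134c01)))) (.nd (nat_lit 20) 
(.nd (nat_lit 28) 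
(.lf (nat_lit 4362395692) (dlOf (nat_lit 4) (nat_lit 0xc0530006023800380cc001805a000d708000c0530006023800300cc001805a000d60800060520002019800220100060008000400200020008050603))) 
(.lf (nat_lit 872734764) (dlOf (nat_lit 1) (nat_lit 0xa00280b0401)))) 
(.lf (nat_lit 68476972) (dlOf (nat_lit 1) (nat_lit 0xc0018580e01))))) (.nd (nat_lit 23) 
(.lf (nat_lit 1343021100) (dlOf (nat_lit 2) (nat_lit 0x4a00000008818130a80))) (.nd (nat_lit 24) 
(.lf (nat_lit 42786860) (dlOf (nat_lit 3) (nat_lit 0x5c67500002c08019b3a800014040128004000e0009280282))) 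
(.lf (nat_lit 59564076) (dlOf (nat_lit 1) (nat_lit 0xe00080008002001a0009810983)))))) 
(.nd (nat_lit 7) (.nd (nat_lit 8) (.nd (nat_lit 26) 
(.lf (nat_lit 4026851436) (dlOf (nat_lit 1) (nat_lit 0xec004005200080a1482))) 
(.lf (nat_lit 3288653932) (dlOf (nat_lit 1) (nat_lit 0xec004005200080a1482)))) 
(.lf (nat_lit 3489987436) (dlOf (nat_lit 1) (nat_lit 0x2000800bc81)))) (.nd (nat_lit 9) 
(.nd (nat_lit 11) (.lf (nat_lit 21291500) (dlOf (nat_lit 2) (nat_lit 0x2d8500017018a37300))) 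
(.lf (nat_lit 47507948) (dlOf (nat_lit 1) (nat_lit 0x400200040009404f02)))) 
(.lf (nat_lit 321516) (dlOf (nat_lit 1) (nat_lit 0xc0018004601)))))) (.nd (nat_lit 31) 
(.nd (nat_lit 26) (.nd (nat_lit 28) (.nd (nat_lit 29) 
(.lf (nat_lit 4429504556) (dlOf (nat_lit 1) (nat_lit 0x80018100601))) 
(.lf (nat_lit 1745149996) (dlOf (nat_lit 1) (nat_lit 0xa00280b0401)))) 
(.lf (nat_lit 939843628) (dlOf (nat_lit 1) (nat_lit 0x800801a4002006c00081c0603)))) 
(.nd (nat_lit 30) (.nd (nat_lit 19) 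
(.lf (nat_lit 1006952492) (dlOf (nat_lit 7) (nat_lit 0x816000040ae0016055001002a00050148001809e004004e000800000038c40006015c006c09e003e04e0007103000702700038408005015400440a8003a051000e0270001ec200040144003c09c0007a04000a05100010270001e01004280080614002004a00080f0b03))) 
(.lf (nat_lit 470605868) (dlOf (nat_lit 2) (nat_lit 0x4a00000008818130a80)))) (.nd (nat_lit 9) 
(.lf (nat_lit 1812258860) (dlOf (nat_lit 1) (nat_lit 0x800801a4002006c00081c0603))) 
(.lf (nat_lit 6375663148) (dlOf (nat_lit 1) (nat_lit 0x20028003781)))))) (.nd (nat_lit 26) 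
(.nd (nat_lit 19) (.lf (nat_lit 2282020908) (dlOf (nat_lit 1) (nat_lit 0x20018100781))) 
(.lf (nat_lit 2819416108) (dlOf (nat_lit 1) (nat_lit 0x1ce0018280701)))) (.nd (nat_lit 30) 
(.nd (nat_lit 8) 
(.lf (nat_lit 2349129772) (dlOf (nat_lit 4) (nat_lit 0x15805c01e600f008d0068000901801900b8030001e00c000d0001103005c007800980340002c08002c004001000080c0d02))) 
(.lf (nat_lit 2886002476) (dlOf (nat_lit 1) (nat_lit 0x40028143d81)))) (.nd (nat_lit 7) 
(.lf (nat_lit 4228177964) (dlOf (nat_lit 4) (nat_lit 0xc04c0006020000380c80018058000c908000c04c0006020000300c80018058000c808000604b0002019000214100060008000400200020008050603))) 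
(.lf (nat_lit 3959742636) (dlOf (nat_lit 1) (nat_lit 0x20008134c01)))))))) (.nd (nat_lit 19) 
(.nd (nat_lit 6) (.nd (nat_lit 7) (.nd (nat_lit 9) 
(.lf (nat_lit 62185516) (dlOf (nat_lit 6) (nat_lit 0xa96c00094740000e040002a51000152780003010002a96c00054a20000b040012a5b0000201000952d80000c080028008002800200280009970c03))) 
(.lf (nat_lit 23388716) (dlOf (nat_lit 4) (nat_lit 0x1c3800003c0801fe45800db0e00000704000b9160005c38000000100078008002800200100008b80e83)))) 
(.lf (nat_lit 473228460) (dlOf (nat_lit 2) (nat_lit 0x4138000220200100028dd2c01)))) 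
(.nd (nat_lit 11) (.nd (nat_lit 7) 
(.lf (nat_lit 28631148) (dlOf (nat_lit 1) (nat_lit 0x420018da0481))) 
(.lf (nat_lit 20248044) (dlOf (nat_lit 1) (nat_lit 0x8008000c002000200089d9c03)))) (.nd (nat_lit 9) 
(.lf (nat_lit 20245740) (dlOf (nat_lit 2) (nat_lit 0x2b490000d80800300080014002001600089d6503))) 
(.lf (nat_lit 20246252) (dlOf (nat_lit 1) (nat_lit 0x4004000200089d7402)))))) (.nd (nat_lit 28) 
(.nd (nat_lit 6) (.nd (nat_lit 7) 
(.lf (nat_lit 2754404396) (dlOf (nat_lit 3) (nat_lit 0x15c2110000981001d0a90000000802700080024002003600080e0603))) 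
(.lf (nat_lit 8189100) (dlOf (nat_lit 1) (nat_lit 0xa0018519501)))) (.nd (nat_lit 7) 
(.lf (nat_lit 8188268) (dlOf (nat_lit 1) (nat_lit 0xa0028518381))) 
(.lf (nat_lit 19725036) (dlOf (nat_lit 1) (nat_lit 0x4002000200089db982))))) (.nd (nat_lit 31) 
(.nd (nat_lit 10) 
(.lf (nat_lit 1346166828) (dlOf (nat_lit 6) (nat_lit 0x24c102812586a408942d0043614500230a18113833c09301640468073022800e00050068000162807f840a04061a901de0b400e98514075019e03d20b201da03980f000700001420012440a038c16801c20a280e0033c0708038000090a013e145008806780f781cc0000e0c078040a03d81a900850b480e285a005002ce036414501b1067809a0318060817a01b80b701da03980e180700000030059c00404180008e60282))) 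
(.lf (nat_lit 473752620) (dlOf (nat_lit 2) (nat_lit 0x3836400b2804000400200020008fa2882)))) 
(.nd (nat_lit 20) 
(.lf (nat_lit 3492601900) (dlOf (nat_lit 3) (nat_lit 0x15c1fc0000801001d0ae0000000802700080024002003600080e0603))) 
(.lf (nat_lit 3493650476) (dlOf (nat_lit 1) (nat_lit 0x10008000400200020008190803)))))))) 
(.nd (nat_lit 19) (.nd (nat_lit 27) (.nd (nat_lit 28) (.nd (nat_lit 8) (.nd (nat_lit 20) 
(.nd (nat_lit 26) 
(.lf (nat_lit 1074126892) (dlOf (nat_lit 1) (nat_lit 0x8008000c002000600080c0d03))) 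
(.lf (nat_lit 3288719404) (dlOf (nat_lit 3) (nat_lit 0x5e80d40002404131c06a0001102015800180d0a81)))) 
(.lf (nat_lit 9822252) (dlOf (nat_lit 2) (nat_lit 0x1514600043cf00000028580300)))) (.nd (nat_lit 6) 
(.lf (nat_lit 23453996) (dlOf (nat_lit 1) (nat_lit 0x8008000400200020008b80503))) (.nd (nat_lit 9) 
(.lf (nat_lit 21357036) (dlOf (nat_lit 1) (nat_lit 0x20018a37301))) 
(.lf (nat_lit 38134764) (dlOf (nat_lit 1) (nat_lit 0x1c0009132881)))))) (.nd (nat_lit 6) 
(.nd (nat_lit 31) (.nd (nat_lit 22) 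
(.lf (nat_lit 1409671212) (dlOf (nat_lit 1) (nat_lit 0x20018070901))) 
(.lf (nat_lit 1346756652) (dlOf (nat_lit 2) (nat_lit 0x2680000004004001000200180009000282)))) 
(.nd (nat_lit 29) 
(.lf (nat_lit 2416304172) (dlOf (nat_lit 9) (nat_lit 0x90020003700a00238044018801e01700040019000806e0000000641c0018022007800f000100500188010000800200440000001886000600b8000bc0800080100005c04004c0080030000000160203b30000000ac0800200740003004012403e0018017000088280d0a80))) 
(.lf (nat_lit 4026916908) (dlOf (nat_lit 3) (nat_lit 0x5e80d40002404131c06a0001102015800180d0a81))))) 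
(.nd (nat_lit 26) (.lf (nat_lit 5637529708) (dlOf (nat_lit 1) (nat_lit 0xc0018100b01))) 
(.lf (nat_lit 6241509484) (dlOf (nat_lit 1) (nat_lit 0xc0018100b01)))))) (.nd (nat_lit 26) 
(.nd (nat_lit 28) (.nd (nat_lit 7) (.nd (nat_lit 9) 
(.lf (nat_lit 3892699180) (dlOf (nat_lit 3) (nat_lit 0x86e05004d502782a5008c1434044030601c044c00a800a0050000a41c005409e001c047000b0230010810c0174070021402300d501100638070000962001c800400a000181d0682))) 
(.lf (nat_lit 134603308) (dlOf (nat_lit 1) (nat_lit 0x28008001000200120008090e83)))) 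
(.lf (nat_lit 134603180) (dlOf (nat_lit 2) (nat_lit 0x4d01d801d040801c8008003000200280008090783)))) 
(.nd (nat_lit 6) 
(.lf (nat_lit 2550521900) (dlOf (nat_lit 9) (nat_lit 0x7660000001a010048010001b8050011c02200c400f00b8002000c800403700000002f0e000c011003c0078000802800c4008000400100220000000b830003005c000580400040080002b02002600400180000000a41000200700003004012403e0018017000088280d0a80))) 
(.lf (nat_lit 1476780140) (dlOf (nat_lit 2) (nat_lit 0x58017000c58181a0480))))) (.nd (nat_lit 31) 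
(.nd (nat_lit 6) 
(.lf (nat_lit 201712172) (dlOf (nat_lit 1) (nat_lit 0x28008001000200120008090e83))) 
(.lf (nat_lit 4496679020) (dlOf (nat_lit 1) (nat_lit 0x11b0008041400202960008120b03)))) 
(.nd (nat_lit 28) 
(.lf (nat_lit 2349195308) (dlOf (nat_lit 1) (nat_lit 0x8008001c002000200081b0003))) 
(.lf (nat_lit 3154501676) (dlOf (nat_lit 1) (nat_lit 0x800181e0901))))))) (.nd (nat_lit 9) 
(.nd (nat_lit 8) (.nd (nat_lit 7) (.nd (nat_lit 21) 
(.lf (nat_lit 27123756) (dlOf (nat_lit 2) (nat_lit 0x9c43800025818ca0680))) 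
(.lf (nat_lit 4055084) (dlOf (nat_lit 1) (nat_lit 0xc00200040008270a82)))) 
(.lf (nat_lit 53338284) (dlOf (nat_lit 1) (nat_lit 0x280080014002000200095a1503)))) 
(.nd (nat_lit 6) (.lf (nat_lit 8250796) (dlOf (nat_lit 1) (nat_lit 0x400200020008513602))) 
(.nd (nat_lit 11) (.lf (nat_lit 5772272108) (dlOf (nat_lit 1) (nat_lit 0x1000200040008091382))) 
(.lf (nat_lit 38660588) (dlOf (nat_lit 1) (nat_lit 0x8008000800200020009134f03)))))) 
(.nd (nat_lit 7) (.nd (nat_lit 11) (.nd (nat_lit 26) 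
(.lf (nat_lit 3493716524) (dlOf (nat_lit 5) (nat_lit 0x10a0680084021004c808c025003c0000708003801e0000301007800f0000140806201a00320084018802300bc00f0000002001700080068002000800081b0e83))) 
(.lf (nat_lit 2755519020) (dlOf (nat_lit 5) (nat_lit 0x10a0680084021004c808c025003c0000708003801e0000301007800f0000140806201a00320084018802300bc00f0000002001700080068002000800081b0e83)))) 
(.lf (nat_lit 58583596) (dlOf (nat_lit 1) (nat_lit 0x4002000200097e5182)))) (.nd (nat_lit 6) 
(.lf (nat_lit 8254124) (dlOf (nat_lit 1) (nat_lit 0x400200020008518c82))) (.nd (nat_lit 8) 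
(.lf (nat_lit 19790572) (dlOf (nat_lit 1) (nat_lit 0x4002000200089db982))) 
(.lf (nat_lit 472769516) (dlOf (nat_lit 1) (nat_lit 0x400400020008b02882))))))))))))

end

end Pool.Agent.Lib.MP_5854e1_co.Cz

namespace Pool.Agent.Lib.MP_5854e1_co.Cz

noncomputable section

noncomputable def tz107 : DT := (.nd (nat_lit 18) (.nd (nat_lit 5) (.nd (nat_lit 28) 
(.nd (nat_lit 15) (.nd (nat_lit 6) (.nd (nat_lit 19) (.nd (nat_lit 9) (.nd (nat_lit 21) 
(.nd (nat_lit 8) (.nd (nat_lit 10) 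
(.lf (nat_lit 2755682332) (dlOf (nat_lit 1) (nat_lit 0x10002000200081b0002))) 
(.lf (nat_lit 8420380) (dlOf (nat_lit 1) (nat_lit 0x4002851bf01)))) (.nd (nat_lit 10) 
(.lf (nat_lit 2755748124) (dlOf (nat_lit 1) (nat_lit 0x200181b0481))) 
(.lf (nat_lit 3355473180) (dlOf (nat_lit 9) (nat_lit 0x1200280088010000ec08005000a0007502002c005000388100180028001c00800a0014000c404006000a0006102000400600007010012002800000080008008001c00200020008009703))))) 
(.nd (nat_lit 7) (.nd (nat_lit 23) 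
(.lf (nat_lit 23093276) (dlOf (nat_lit 2) (nat_lit 0x24ada0011e018b50480))) 
(.lf (nat_lit 14704668) (dlOf (nat_lit 1) (nat_lit 0x20028770101)))) 
(.lf (nat_lit 2187420) (dlOf (nat_lit 2) (nat_lit 0xd5e0000460200020018150181))))) 
(.nd (nat_lit 11) (.nd (nat_lit 7) (.nd (nat_lit 16) 
(.lf (nat_lit 2684379676) (dlOf (nat_lit 2) (nat_lit 0x1701b800100d4002b208000400400140008001482))) 
(.lf (nat_lit 2187804) (dlOf (nat_lit 1) (nat_lit 0x40018150d81)))) 
(.lf (nat_lit 604009116) (dlOf (nat_lit 1) (nat_lit 0x20028008c81)))) (.nd (nat_lit 7) 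
(.nd (nat_lit 8) 
(.lf (nat_lit 4362107420) (dlOf (nat_lit 2) (nat_lit 0x2019802ff00802800080140002009e000800b283))) 
(.lf (nat_lit 604011292) (dlOf (nat_lit 1) (nat_lit 0x2002800bb81)))) 
(.lf (nat_lit 134249372) (dlOf (nat_lit 1) (nat_lit 0x2002800bc81)))))) (.nd (nat_lit 22) 
(.nd (nat_lit 29) (.nd (nat_lit 16) (.nd (nat_lit 20) (.nd (nat_lit 31) 
(.lf (nat_lit 1074290716) (dlOf (nat_lit 1) (nat_lit 0x400081b0001))) 
(.lf (nat_lit 3221774364) (dlOf (nat_lit 2) (nat_lit 0x1002f00ba1818180900)))) (.nd (nat_lit 7) 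
(.lf (nat_lit 9986076) (dlOf (nat_lit 5) (nat_lit 0x8d228003690c0013482000ba3f0007d1d8003e8e4001f3b8002120e001fa450010d2180056904003347e0019a3b000cd1c8006e78400373b80021110001fa450011d218005e904002f47e001ba3b000cd1c80076770004201c003348a0021a43000ad208002e8fc00334760019a39000dcee00083c3801180080014002001c00085a0a83))) 
(.lf (nat_lit 37251484) (dlOf (nat_lit 1) (nat_lit 0x4002001000090d4e82))))) (.nd (nat_lit 7) 
(.nd (nat_lit 9) 
(.lf (nat_lit 42557468) (dlOf (nat_lit 4) (nat_lit 0x990fc004e741005c3848000c418005a2e000bd0fc002e87100223f480089d040044e120002f0c001a87d005a3a0000044100300008006c002000c0009260103))) 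
(.lf (nat_lit 50946588) (dlOf (nat_lit 2) (nat_lit 0x56f20067902000400094d8701)))) 
(.lf (nat_lit 9008028) (dlOf (nat_lit 1) (nat_lit 0x80008519101))))) (.nd (nat_lit 26) 
(.nd (nat_lit 7) (.lf (nat_lit 537420316) (dlOf (nat_lit 1) (nat_lit 0x400200020008090d82))) 
(.lf (nat_lit 537419932) (dlOf (nat_lit 2) (nat_lit 0x1f0168003009c002c0060002f0600040018090181)))) 
(.nd (nat_lit 8) (.nd (nat_lit 16) 
(.lf (nat_lit 3959971868) (dlOf (nat_lit 2) (nat_lit 0x1002f00af2818180900))) 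
(.lf (nat_lit 1678336028) (dlOf (nat_lit 1) (nat_lit 0x280080008002000800081f0a83)))) 
(.lf (nat_lit 604528924) (dlOf (nat_lit 2) (nat_lit 0x12043000701e800400d000280540010020000500a00020030001401200140000009f8982f8000)))))) 
(.nd (nat_lit 7) (.nd (nat_lit 21) (.nd (nat_lit 16) 
(.lf (nat_lit 55074844) (dlOf (nat_lit 1) (nat_lit 0x20004000200096a0502))) 
(.lf (nat_lit 21585948) (dlOf (nat_lit 3) (nat_lit 0x11313080944982000320400044c200012018a50500)))) 
(.nd (nat_lit 20) (.lf (nat_lit 15228956) (dlOf (nat_lit 1) (nat_lit 0x200187c0501))) 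
(.lf (nat_lit 24666140) (dlOf (nat_lit 4) (nat_lit 0x76b450024d7c00004808005ad140002202000960e00010018bb0500))))) 
(.nd (nat_lit 8) (.nd (nat_lit 16) 
(.lf (nat_lit 23617692) (dlOf (nat_lit 4) (nat_lit 0x4da500026d1a00116830009afe000118200055a50002ad1a00136830009afe000114200055a50002ad1a00156830002afe0000e0200060008001800200020008b80183))) 
(.lf (nat_lit 23683228) (dlOf (nat_lit 1) (nat_lit 0x1000200040008b80182)))) 
(.lf (nat_lit 23617948) (dlOf (nat_lit 1) (nat_lit 0x20018b80781))))))) (.nd (nat_lit 16) 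
(.nd (nat_lit 11) (.nd (nat_lit 19) (.nd (nat_lit 7) (.nd (nat_lit 10) 
(.lf (nat_lit 51404892) (dlOf (nat_lit 1) (nat_lit 0x8008004400200020009510083))) 
(.lf (nat_lit 50357340) (dlOf (nat_lit 1) (nat_lit 0x200094c2901)))) 
(.lf (nat_lit 18899164) (dlOf (nat_lit 1) (nat_lit 0x30008000400200020008970583)))) 
(.nd (nat_lit 20) (.nd (nat_lit 26) 
(.lf (nat_lit 3221774428) (dlOf (nat_lit 7) (nat_lit 0x400640002b02000804e0000a010010027000081280001e08003409c0000e0200180270000581000e01380000c0806b800800b000200380008181203))) 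
(.lf (nat_lit 3959971932) (dlOf (nat_lit 7) (nat_lit 0x1009c0002a02002004e00010250000941000681380004804003004e000210200200320000a81000e0138000140806b800800b000200380008181203)))) 
(.nd (nat_lit 10) (.lf (nat_lit 41443420) (dlOf (nat_lit 1) (nat_lit 0x20029240081))) 
(.lf (nat_lit 39347292) (dlOf (nat_lit 1) (nat_lit 0x20029192901)))))) (.nd (nat_lit 8) 
(.nd (nat_lit 7) (.nd (nat_lit 9) 
(.lf (nat_lit 2751494236) (dlOf (nat_lit 1) (nat_lit 0x1800800400020006000800a783))) 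
(.lf (nat_lit 69233244) (dlOf (nat_lit 1) (nat_lit 0x80018905301)))) 
(.lf (nat_lit 19954396) (dlOf (nat_lit 1) (nat_lit 0x4002000200089db982)))) (.nd (nat_lit 9) 
(.lf (nat_lit 2751494620) (dlOf (nat_lit 1) (nat_lit 0x1000800040020002000800b283))) 
(.nd (nat_lit 10) (.lf (nat_lit 604011484) (dlOf (nat_lit 2) (nat_lit 0x120000000001800bf00))) 
(.lf (nat_lit 604008412) (dlOf (nat_lit 1) (nat_lit 0x540018007a81))))))) (.nd (nat_lit 27) 
(.nd (nat_lit 10) (.nd (nat_lit 8) (.nd (nat_lit 7) 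
(.lf (nat_lit 537485404) (dlOf (nat_lit 2) (nat_lit 0x1002880005c0800a800800a8002002200080a1203))) 
(.lf (nat_lit 8483548) (dlOf (nat_lit 1) (nat_lit 0x8008000400200020008518c83)))) (.nd (nat_lit 12) 
(.lf (nat_lit 12149084) (dlOf (nat_lit 1) (nat_lit 0x4002000200086c0682))) 
(.lf (nat_lit 20017500) (dlOf (nat_lit 1) (nat_lit 0x1c00289d8381))))) (.nd (nat_lit 7) 
(.nd (nat_lit 9) (.lf (nat_lit 619612) (dlOf (nat_lit 1) (nat_lit 0xa40018009381))) 
(.lf (nat_lit 4899038812) (dlOf (nat_lit 1) (nat_lit 0x60018053901)))) 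
(.lf (nat_lit 97500) (dlOf (nat_lit 1) (nat_lit 0x40040002000800c482))))) (.nd (nat_lit 7) 
(.nd (nat_lit 8) (.nd (nat_lit 9) 
(.lf (nat_lit 3960037468) (dlOf (nat_lit 2) (nat_lit 0xf00bc0000a040018004000800081a1b02))) 
(.lf (nat_lit 3355533916) (dlOf (nat_lit 2) (nat_lit 0x40100000640801200080098002003800080a1683)))) 
(.nd (nat_lit 26) (.lf (nat_lit 1208050012) (dlOf (nat_lit 2) (nat_lit 0x1802500000018090e00))) 
(.lf (nat_lit 2348900700) (dlOf (nat_lit 2) (nat_lit 0x16010002f0070001101001300080008002000a0008014e03))))) 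
(.nd (nat_lit 8) (.lf (nat_lit 2885775068) (dlOf (nat_lit 1) (nat_lit 0x8004000e0008007382))) 
(.nd (nat_lit 10) (.lf (nat_lit 1208052188) (dlOf (nat_lit 1) (nat_lit 0x20004000a0008094e82))) 
(.lf (nat_lit 1812032988) (dlOf (nat_lit 1) (nat_lit 0x20028146d81))))))))) (.nd (nat_lit 16) 
(.nd (nat_lit 19) (.nd (nat_lit 7) (.nd (nat_lit 23) (.nd (nat_lit 8) (.nd (nat_lit 9) 
(.lf (nat_lit 671146012) (dlOf (nat_lit 3) (nat_lit 0xb0026005600d8030000c016800001daa0800d0026005800d802e000c018000001da808004800180b0001))) 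
(.nd (nat_lit 10) (.lf (nat_lit 4362140188) (dlOf (nat_lit 1) (nat_lit 0x40040002000800b282))) 
(.lf (nat_lit 4496352796) (dlOf (nat_lit 1) (nat_lit 0x40028053701))))) (.nd (nat_lit 27) 
(.lf (nat_lit 2147541276) (dlOf (nat_lit 1) (nat_lit 0x400400020008090a82))) 
(.lf (nat_lit 1208017180) (dlOf (nat_lit 1) (nat_lit 0x400400020008090a82))))) (.nd (nat_lit 20) 
(.nd (nat_lit 6) (.lf (nat_lit 27320348) (dlOf (nat_lit 1) (nat_lit 0x40028cd0681))) 
(.lf (nat_lit 12640348) (dlOf (nat_lit 1) (nat_lit 0x200186d1201)))) (.nd (nat_lit 22) 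
(.nd (nat_lit 25) (.lf (nat_lit 9494556) (dlOf (nat_lit 1) (nat_lit 0x20008560501))) 
(.lf (nat_lit 43048988) (dlOf (nat_lit 1) (nat_lit 0x2a00292a0001)))) 
(.lf (nat_lit 13688860) (dlOf (nat_lit 2) (nat_lit 0x1af38a80068c080078008003c002001a0008740483)))))) 
(.nd (nat_lit 6) (.nd (nat_lit 8) (.nd (nat_lit 26) 
(.lf (nat_lit 6576726172) (dlOf (nat_lit 2) (nat_lit 0x1c0000004602001800180b0181))) 
(.lf (nat_lit 5972746396) (dlOf (nat_lit 2) (nat_lit 0x1c0000004602001800180b0181)))) 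
(.lf (nat_lit 5972746652) (dlOf (nat_lit 1) (nat_lit 0x34002000a00080b0782)))) (.nd (nat_lit 8) 
(.nd (nat_lit 9) 
(.lf (nat_lit 671146204) (dlOf (nat_lit 2) (nat_lit 0x3b01300000008006000800f4002002800080b0483))) 
(.lf (nat_lit 8450780) (dlOf (nat_lit 1) (nat_lit 0x400200020008518c82)))) (.nd (nat_lit 10) 
(.lf (nat_lit 1275126748) (dlOf (nat_lit 1) (nat_lit 0x400400020008092882))) 
(.lf (nat_lit 536934364) (dlOf (nat_lit 1) (nat_lit 0x8002002c000800a602))))))) (.nd (nat_lit 6) 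
(.nd (nat_lit 24) (.nd (nat_lit 21) 
(.lf (nat_lit 3892895772) (dlOf (nat_lit 1) (nat_lit 0x40018290a01))) (.nd (nat_lit 22) 
(.lf (nat_lit 2678812) (dlOf (nat_lit 1) (nat_lit 0xa40008190981))) 
(.lf (nat_lit 48816156) (dlOf (nat_lit 1) (nat_lit 0x40019430601))))) (.nd (nat_lit 7) 
(.lf (nat_lit 24698908) (dlOf (nat_lit 13) (nat_lit 0x1f62f2408c975c00deb96000200302285e480022eb80007e0804d157c0234ab6013a54f009d25cc00048100db12ec000230204b4c00008f5f30024af6408a5790010cbc202415d680262e9c03ed72a048cb1b025e5848090aad8014d528008aa7f021451a8022a89c00153320004972000101101125e400892eb401ed72a0001f060178bc800be5d680003c10167af200b5175a0000d040098bc8004c5d68000301012caf2009d175a0000b04003abc8001d5d6800028100012f24000000400a800400c80018bb0502))) 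
(.nd (nat_lit 8) 
(.lf (nat_lit 23650460) (dlOf (nat_lit 4) (nat_lit 0xeda3404e2d06027d5fc00023030127b41809d57f00008a08000ad1a02696830134afe0000e01800180080090002000c0008b80183))) 
(.lf (nat_lit 57207196) (dlOf (nat_lit 1) (nat_lit 0xc0029794e81)))))) (.nd (nat_lit 8) 
(.nd (nat_lit 10) (.lf (nat_lit 42524764) (dlOf (nat_lit 1) (nat_lit 0x2c0009260881))) 
(.lf (nat_lit 39380060) (dlOf (nat_lit 1) (nat_lit 0xc0019192901)))) (.nd (nat_lit 7) 
(.nd (nat_lit 9) (.lf (nat_lit 12116316) (dlOf (nat_lit 1) (nat_lit 0x10002000200086c0682))) 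
(.lf (nat_lit 8972124) (dlOf (nat_lit 1) (nat_lit 0x4b000401800008513f82)))) 
(.lf (nat_lit 8975836) (dlOf (nat_lit 1) (nat_lit 0x20028519b01))))))) (.nd (nat_lit 26) 
(.nd (nat_lit 19) (.nd (nat_lit 9) (.nd (nat_lit 20) 
(.lf (nat_lit 23191580) (dlOf (nat_lit 2) (nat_lit 0x6b0100b41018b70500))) 
(.lf (nat_lit 47308828) (dlOf (nat_lit 1) (nat_lit 0x200093d0501)))) (.nd (nat_lit 6) 
(.lf (nat_lit 3892437532) (dlOf (nat_lit 1) (nat_lit 0x400200020008118702))) 
(.lf (nat_lit 536994780) (dlOf (nat_lit 1) (nat_lit 0x400400020008002882))))) (.nd (nat_lit 23) 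
(.nd (nat_lit 6) (.nd (nat_lit 8) 
(.lf (nat_lit 3792924) (dlOf (nat_lit 3) (nat_lit 0xf6a4000fb4e0005da50004ed18003767c0013b3a0009d42006a5870003ed28035280800700080040002003a0008220a03))) 
(.lf (nat_lit 50979100) (dlOf (nat_lit 4) (nat_lit 0xe39d0004b8080079ce800206040010e8800067430001f0294e8000)))) 
(.lf (nat_lit 537518172) (dlOf (nat_lit 1) (nat_lit 0x4002000200080a1202)))) (.nd (nat_lit 22) 
(.lf (nat_lit 42590236) (dlOf (nat_lit 3) (nat_lit 0xd40000000bc0805300000000004005000400100009260102))) 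
(.lf (nat_lit 13230108) (dlOf (nat_lit 5) (nat_lit 0x90300049804000881200203020004409001010100032048007a4080010008002400200320008710a83)))))) 
(.nd (nat_lit 30) (.nd (nat_lit 7) (.nd (nat_lit 20) 
(.lf (nat_lit 4362723356) (dlOf (nat_lit 1) (nat_lit 0x80080030002001000080e0a83))) 
(.lf (nat_lit 2755256348) (dlOf (nat_lit 3) (nat_lit 0x21020001781000210e000044080060008002000200080008140b03)))) 
(.nd (nat_lit 8) (.lf (nat_lit 6509686428) (dlOf (nat_lit 1) (nat_lit 0x400200020008147202))) 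
(.nd (nat_lit 9) (.lf (nat_lit 4496418204) (dlOf (nat_lit 1) (nat_lit 0x400400060008053602))) 
(.lf (nat_lit 738323356) (dlOf (nat_lit 1) (nat_lit 0x1000200020008095c82)))))) (.nd (nat_lit 29) 
(.nd (nat_lit 6) (.nd (nat_lit 31) 
(.lf (nat_lit 5435940892) (dlOf (nat_lit 1) (nat_lit 0x400400220008040082))) 
(.lf (nat_lit 3288457244) (dlOf (nat_lit 1) (nat_lit 0x9700080004002019c0008020483)))) 
(.lf (nat_lit 5435940956) (dlOf (nat_lit 8) (nat_lit 0x801f800780f8003007a000203a000101b000680d4000406800020330001005800080280006828001007e000203e000c01d000a80d40014000000330a000803f000101f000380e8004406a0003208000c03f000401f000300e8003806a0002508001803f000501f000380e8008006a003c0000000f85000101f800e80f800c8074008203500140000000782800680fc003407c001403a001301a800480000003a1400a800401040018040702)))) 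
(.nd (nat_lit 7) (.lf (nat_lit 1677846556) (dlOf (nat_lit 1) (nat_lit 0x3000200140008114702))) 
(.lf (nat_lit 3959547804) (dlOf (nat_lit 1) (nat_lit 0x20008114281))))))))) (.nd (nat_lit 16) 
(.nd (nat_lit 15) (.nd (nat_lit 8) (.nd (nat_lit 7) (.nd (nat_lit 9) (.nd (nat_lit 10) 
(.nd (nat_lit 19) (.lf (nat_lit 473980956) (dlOf (nat_lit 1) (nat_lit 0x400400020008ff0602))) 
(.lf (nat_lit 4228407324) (dlOf (nat_lit 1) (nat_lit 0x1c0008010c002001800080b0a03)))) 
(.lf (nat_lit 5301627932) (dlOf (nat_lit 1) (nat_lit 0x28008000c00200080008006003)))) 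
(.nd (nat_lit 11) 
(.lf (nat_lit 2617275932) (dlOf (nat_lit 1) (nat_lit 0x28008000400200060008009c03))) 
(.nd (nat_lit 26) 
(.lf (nat_lit 2952822300) (dlOf (nat_lit 4) (nat_lit 0x806c000402a0005c04000a01b0002201000400a8001000801b000800bc0020014000800cf03))) 
(.lf (nat_lit 469794332) (dlOf (nat_lit 1) (nat_lit 0x4002800cf01)))))) (.nd (nat_lit 6) 
(.nd (nat_lit 26) 
(.lf (nat_lit 2952819356) (dlOf (nat_lit 4) (nat_lit 0x14014004ff01000d00a0027f4080280050013f004003000200420008008c82))) 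
(.lf (nat_lit 469791388) (dlOf (nat_lit 1) (nat_lit 0x20018008c81)))) (.nd (nat_lit 9) 
(.lf (nat_lit 469790940) (dlOf (nat_lit 1) (nat_lit 0x400400040018008082))) (.nd (nat_lit 10) 
(.lf (nat_lit 1006662364) (dlOf (nat_lit 1) (nat_lit 0x400200020008008c82))) 
(.lf (nat_lit 3087036124) (dlOf (nat_lit 1) (nat_lit 0x3c0018007381))))))) (.nd (nat_lit 7) 
(.nd (nat_lit 10) (.nd (nat_lit 9) (.nd (nat_lit 11) 
(.lf (nat_lit 5301625116) (dlOf (nat_lit 2) (nat_lit 0x403100490160001cc100008008000400200020008000a83))) 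
(.lf (nat_lit 1879079196) (dlOf (nat_lit 1) (nat_lit 0x16002800ab01)))) 
(.lf (nat_lit 2952821532) (dlOf (nat_lit 5) (nat_lit 0x1401c0007a8100220098000e40800b004c0001604004002600002020002000800bb81)))) 
(.nd (nat_lit 9) (.nd (nat_lit 26) 
(.lf (nat_lit 2550164764) (dlOf (nat_lit 1) (nat_lit 0x40018006781))) 
(.lf (nat_lit 4227886364) (dlOf (nat_lit 1) (nat_lit 0x30002000e0008006782)))) 
(.lf (nat_lit 3691015964) (dlOf (nat_lit 4) (nat_lit 0x33403a003f40200da01d001f981008000e800fc8080b3800800d8002004c0008007483))))) 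
(.nd (nat_lit 9) (.nd (nat_lit 10) (.nd (nat_lit 11) 
(.lf (nat_lit 470311324) (dlOf (nat_lit 2) (nat_lit 0x50154006590180c0780))) 
(.lf (nat_lit 4227885468) (dlOf (nat_lit 1) (nat_lit 0x300080018002000c0008004e83)))) 
(.lf (nat_lit 3489693084) (dlOf (nat_lit 2) (nat_lit 0xb107000107c8000f20800540040006001800ca82)))) 
(.nd (nat_lit 6) 
(.lf (nat_lit 2415945628) (dlOf (nat_lit 2) (nat_lit 0xd00800004c0800380080004002000a0008004283))) 
(.lf (nat_lit 2952821724) (dlOf (nat_lit 4) (nat_lit 0x294026004c30201480130025201008e00980000008004800800200020094000800bf03))))))) 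
(.nd (nat_lit 30) (.nd (nat_lit 9) (.nd (nat_lit 6) (.nd (nat_lit 7) 
(.lf (nat_lit 474538012) (dlOf (nat_lit 10) (nat_lit 0xd704b006f821403640ea01aa0730002504004604b000124080280258015810a0090075005f03980010c2000c821400240ea0004204042209601d804280fe01d4087c0e601e001a0002085002104e002f82340064118016a07d007303e0000fc280208270025c11a0004085012a03e803181f003180ea003c02b0001e87004704b002201cc0007408022c12c008e08d007703e801101f001f80e6000380a001800291a0101))) 
(.nd (nat_lit 11) (.lf (nat_lit 470343836) (dlOf (nat_lit 1) (nat_lit 0xc004000600180c0182))) 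
(.lf (nat_lit 469821596) (dlOf (nat_lit 1) (nat_lit 0x8008000800200060008004803))))) 
(.nd (nat_lit 12) (.lf (nat_lit 471916764) (dlOf (nat_lit 1) (nat_lit 0x200086b0581))) 
(.lf (nat_lit 469823708) (dlOf (nat_lit 1) (nat_lit 0xc0028008081))))) (.nd (nat_lit 7) 
(.nd (nat_lit 8) (.nd (nat_lit 11) 
(.lf (nat_lit 1008263708) (dlOf (nat_lit 1) (nat_lit 0x400400020008b18702))) 
(.lf (nat_lit 469826076) (dlOf (nat_lit 1) (nat_lit 0x2001800b281)))) 
(.lf (nat_lit 469826332) (dlOf (nat_lit 1) (nat_lit 0x12001800bb81)))) (.nd (nat_lit 6) 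
(.lf (nat_lit 5234551708) (dlOf (nat_lit 1) (nat_lit 0x80080044002000c0008055c83))) 
(.lf (nat_lit 469826524) (dlOf (nat_lit 1) (nat_lit 0x2001800bf01)))))) (.nd (nat_lit 27) 
(.nd (nat_lit 19) (.nd (nat_lit 21) 
(.lf (nat_lit 1343283228) (dlOf (nat_lit 1) (nat_lit 0x108008006c002002e00081e0503))) 
(.lf (nat_lit 1345380380) (dlOf (nat_lit 1) (nat_lit 0x1c0018b80601)))) (.nd (nat_lit 7) 
(.nd (nat_lit 8) (.lf (nat_lit 4094222876) (dlOf (nat_lit 1) (nat_lit 0x400200020008018702))) 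
(.lf (nat_lit 1880678684) (dlOf (nat_lit 1) (nat_lit 0x800400020008b28002)))) 
(.lf (nat_lit 1342759068) (dlOf (nat_lit 1) (nat_lit 0xc004000600180c0182))))) (.nd (nat_lit 9) 
(.nd (nat_lit 6) (.nd (nat_lit 10) 
(.lf (nat_lit 2080432156) (dlOf (nat_lit 1) (nat_lit 0x20018090001))) 
(.lf (nat_lit 2013326364) (dlOf (nat_lit 1) (nat_lit 0x800400020008006002)))) 
(.lf (nat_lit 1543561308) (dlOf (nat_lit 1) (nat_lit 0x4004001000080b0002)))) (.nd (nat_lit 6) 
(.nd (nat_lit 10) 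
(.lf (nat_lit 5774041628) (dlOf (nat_lit 1) (nat_lit 0x100080004002000200080f8703))) 
(.lf (nat_lit 6308292124) (dlOf (nat_lit 1) (nat_lit 0x1000200140008053702)))) 
(.lf (nat_lit 2080433116) (dlOf (nat_lit 1) (nat_lit 0x20028092881)))))))) (.nd (nat_lit 6) 
(.nd (nat_lit 15) (.nd (nat_lit 10) (.nd (nat_lit 19) (.nd (nat_lit 7) (.nd (nat_lit 8) 
(.lf (nat_lit 1343315996) (dlOf (nat_lit 1) (nat_lit 0x3c004000600081e0502))) 
(.lf (nat_lit 805396764) (dlOf (nat_lit 1) (nat_lit 0x400200020008090482)))) 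
(.lf (nat_lit 4563495836) (dlOf (nat_lit 1) (nat_lit 0x4000400580008095c82)))) (.nd (nat_lit 9) 
(.nd (nat_lit 21) 
(.lf (nat_lit 805920796) (dlOf (nat_lit 1) (nat_lit 0x280080008002000800081f0a83))) 
(.lf (nat_lit 1881759772) (dlOf (nat_lit 3) (nat_lit 0x2075802603840008208005811c0003d0200180019000101)))) 
(.lf (nat_lit 5774074396) (dlOf (nat_lit 1) (nat_lit 0x100080004002000400080f8703))))) 
(.nd (nat_lit 7) (.nd (nat_lit 8) (.nd (nat_lit 9) 
(.lf (nat_lit 5704346652) (dlOf (nat_lit 1) (nat_lit 0x40018056001))) 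
(.lf (nat_lit 4227952156) (dlOf (nat_lit 1) (nat_lit 0x600018007101)))) 
(.lf (nat_lit 2080466204) (dlOf (nat_lit 1) (nat_lit 0x20018093081)))) (.nd (nat_lit 8) 
(.nd (nat_lit 20) (.lf (nat_lit 268526748) (dlOf (nat_lit 1) (nat_lit 0x20008052b81))) 
(.lf (nat_lit 1007772828) (dlOf (nat_lit 1) (nat_lit 0x400287a2b81)))) 
(.lf (nat_lit 939616156) (dlOf (nat_lit 1) (nat_lit 0x2a0028144281)))))) (.nd (nat_lit 26) 
(.nd (nat_lit 7) (.nd (nat_lit 8) (.nd (nat_lit 20) 
(.lf (nat_lit 5772009500) (dlOf (nat_lit 1) (nat_lit 0x640008040081))) 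
(.lf (nat_lit 3493453852) (dlOf (nat_lit 3) (nat_lit 0x210800017810002103800044080060008002000200080008140b03)))) 
(.lf (nat_lit 5774106908) (dlOf (nat_lit 1) (nat_lit 0x400200020008108002)))) (.nd (nat_lit 8) 
(.lf (nat_lit 805436572) (dlOf (nat_lit 1) (nat_lit 0x20008027c0020056000811c203))) 
(.lf (nat_lit 4563528604) (dlOf (nat_lit 1) (nat_lit 0x800801e400200800008095c83))))) 
(.nd (nat_lit 30) (.nd (nat_lit 8) (.nd (nat_lit 9) 
(.lf (nat_lit 5301723164) (dlOf (nat_lit 1) (nat_lit 0x400400220008040082))) 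
(.lf (nat_lit 473555484) (dlOf (nat_lit 1) (nat_lit 0x1e0028f68701)))) 
(.lf (nat_lit 3154239772) (dlOf (nat_lit 1) (nat_lit 0x8008000400200020008128003)))) 
(.nd (nat_lit 27) (.lf (nat_lit 3557416988) (dlOf (nat_lit 1) (nat_lit 0x10004000200081f0682))) 
(.nd (nat_lit 31) (.lf (nat_lit 6375989276) (dlOf (nat_lit 1) (nat_lit 0x640008040081))) 
(.lf (nat_lit 4228505628) (dlOf (nat_lit 1) (nat_lit 0x80080030002001000080e0a83)))))))) 
(.nd (nat_lit 7) (.nd (nat_lit 27) (.nd (nat_lit 15) (.nd (nat_lit 19) 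
(.lf (nat_lit 1344364636) (dlOf (nat_lit 1) (nat_lit 0x5a0028740401))) 
(.lf (nat_lit 1409900636) (dlOf (nat_lit 2) (nat_lit 0x100288000b40800a800800a8002002200080a1203)))) 
(.nd (nat_lit 8) (.nd (nat_lit 20) 
(.lf (nat_lit 1409933404) (dlOf (nat_lit 1) (nat_lit 0x4002000200080a1202))) 
(.lf (nat_lit 4095336540) (dlOf (nat_lit 2) (nat_lit 0xd04b8000480800380080030002005e0008090703)))) 
(.lf (nat_lit 805436764) (dlOf (nat_lit 1) (nat_lit 0xd0008001c002001a000811c903))))) 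
(.nd (nat_lit 8) (.nd (nat_lit 9) (.nd (nat_lit 15) 
(.lf (nat_lit 474570844) (dlOf (nat_lit 2) (nat_lit 0x2815f00070a60004835c000440c0018004000c00091a0882))) 
(.lf (nat_lit 5301723228) (dlOf (nat_lit 8) (nat_lit 0x801f800780f8003007a000203a000101c000680dc000406800020330001005800080280006828001007e000203e000c01d000a80dc0014000000330a000803f000101f000380e8004406e0003208000c03f000401f000300e8003806e0002508001803f000501f000380e8008006e003c0000000f85000101f800e80f800c8074008203700140000000782800680fc003407c001403a001301b800480000003a1400a800401040018040702)))) 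
(.lf (nat_lit 1008822876) (dlOf (nat_lit 1) (nat_lit 0x3400400060008fa5302)))) (.nd (nat_lit 30) 
(.lf (nat_lit 2550227292) (dlOf (nat_lit 1) (nat_lit 0x8008000400200020008014e83))) 
(.lf (nat_lit 1476485468) (dlOf (nat_lit 1) (nat_lit 0x8008000400200020008010903)))))) 
(.nd (nat_lit 8) (.nd (nat_lit 19) (.nd (nat_lit 9) (.nd (nat_lit 10) 
(.lf (nat_lit 4563493084) (dlOf (nat_lit 5) (nat_lit 0x6805400040240000504001001500040090000101000500540010024000030400140150007009000008100008008009000200400008090a03))) 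
(.lf (nat_lit 402744540) (dlOf (nat_lit 1) (nat_lit 0x20008001800200040008092e03)))) 
(.lf (nat_lit 469856988) (dlOf (nat_lit 1) (nat_lit 0x4002004a0008008c82)))) (.nd (nat_lit 15) 
(.lf (nat_lit 1343840476) (dlOf (nat_lit 1) (nat_lit 0x18008002c00200020008370583))) 
(.lf (nat_lit 1879695580) (dlOf (nat_lit 1) (nat_lit 0x600182e0581))))) (.nd (nat_lit 26) 
(.nd (nat_lit 31) (.lf (nat_lit 939615196) (dlOf (nat_lit 1) (nat_lit 0x400400020008142882))) 
(.lf (nat_lit 3087098844) (dlOf (nat_lit 1) (nat_lit 0x400400020008142882)))) (.nd (nat_lit 9) 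
(.lf (nat_lit 872505820) (dlOf (nat_lit 1) (nat_lit 0x8008000400200020008091283))) 
(.nd (nat_lit 15) (.lf (nat_lit 469853148) (dlOf (nat_lit 1) (nat_lit 0x520018002881))) 
(.lf (nat_lit 474080220) (dlOf (nat_lit 1) (nat_lit 0x20029082881))))))))))) (.nd (nat_lit 16) 
(.nd (nat_lit 28) (.nd (nat_lit 6) (.nd (nat_lit 15) (.nd (nat_lit 20) (.nd (nat_lit 8) 
(.nd (nat_lit 22) (.nd (nat_lit 10) 
(.lf (nat_lit 2818596924) (dlOf (nat_lit 1) (nat_lit 0x51a0008000001))) 
(.lf (nat_lit 3288362044) (dlOf (nat_lit 1) (nat_lit 0x20018006081)))) (.nd (nat_lit 7) 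
(.lf (nat_lit 12607548) (dlOf (nat_lit 1) (nat_lit 0x2a80080004002006c00086d0c83))) 
(.lf (nat_lit 4219068) (dlOf (nat_lit 1) (nat_lit 0x1c0018290381))))) (.nd (nat_lit 11) 
(.nd (nat_lit 27) (.lf (nat_lit 1610637628) (dlOf (nat_lit 1) (nat_lit 0x400400060008000b82))) 
(.lf (nat_lit 3892339004) (dlOf (nat_lit 3) (nat_lit 0x10238000f008001811c0007404000800400280018000b82)))) 
(.nd (nat_lit 7) (.lf (nat_lit 2752014652) (dlOf (nat_lit 1) (nat_lit 0x20018004c81))) 
(.lf (nat_lit 5368736700) (dlOf (nat_lit 1) (nat_lit 0x58008004c00200140008005d03)))))) 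
(.nd (nat_lit 7) (.nd (nat_lit 10) (.nd (nat_lit 19) 
(.lf (nat_lit 2752536636) (dlOf (nat_lit 1) (nat_lit 0xc00200080008020702))) 
(.lf (nat_lit 39346236) (dlOf (nat_lit 1) (nat_lit 0x8800807a0002001c0009190003)))) 
(.lf (nat_lit 54027324) (dlOf (nat_lit 1) (nat_lit 0x4004000200195f2882)))) (.nd (nat_lit 8) 
(.nd (nat_lit 10) (.lf (nat_lit 3170492) (dlOf (nat_lit 1) (nat_lit 0x1000200100008200382))) 
(.lf (nat_lit 41444540) (dlOf (nat_lit 1) (nat_lit 0xca0019242c81)))) 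
(.lf (nat_lit 58220988) (dlOf (nat_lit 1) (nat_lit 0x30002000a00097c7002)))))) (.nd (nat_lit 29) 
(.nd (nat_lit 8) (.nd (nat_lit 10) (.nd (nat_lit 20) 
(.lf (nat_lit 1140908092) (dlOf (nat_lit 1) (nat_lit 0x1000200160008000002))) 
(.lf (nat_lit 13688892) (dlOf (nat_lit 1) (nat_lit 0x20018740d81)))) 
(.lf (nat_lit 134278204) (dlOf (nat_lit 1) (nat_lit 0x18004006a0018006082)))) (.nd (nat_lit 7) 
(.lf (nat_lit 58253628) (dlOf (nat_lit 1) (nat_lit 0x8002000200097d7c02))) (.nd (nat_lit 11) 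
(.lf (nat_lit 11592124) (dlOf (nat_lit 1) (nat_lit 0x200286c0881))) 
(.lf (nat_lit 57207228) (dlOf (nat_lit 1) (nat_lit 0x100029794e81)))))) (.nd (nat_lit 26) 
(.nd (nat_lit 7) (.nd (nat_lit 27) 
(.lf (nat_lit 1610670140) (dlOf (nat_lit 2) (nat_lit 0x4815c00fde04000400400060018000002))) 
(.lf (nat_lit 671146044) (dlOf (nat_lit 2) (nat_lit 0x2009800000040004004001200080b0002)))) 
(.lf (nat_lit 671146172) (dlOf (nat_lit 4) (nat_lit 0x38032000310200080030000c01000b00d8005800c00000080008002000a00080b0382)))) 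
(.nd (nat_lit 10) (.lf (nat_lit 2752569404) (dlOf (nat_lit 1) (nat_lit 0x400200020008020702))) 
(.lf (nat_lit 2752046140) (dlOf (nat_lit 1) (nat_lit 0x400200020008002882))))))) (.nd (nat_lit 9) 
(.nd (nat_lit 26) (.nd (nat_lit 11) (.nd (nat_lit 19) (.nd (nat_lit 29) 
(.lf (nat_lit 1208017020) (dlOf (nat_lit 1) (nat_lit 0x10008000c00200020008090283))) 
(.lf (nat_lit 671146108) (dlOf (nat_lit 2) (nat_lit 0x110140005600800480080008002001a00080b0083)))) 
(.lf (nat_lit 537452668) (dlOf (nat_lit 1) (nat_lit 0x28008000400200020008090083)))) 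
(.nd (nat_lit 8) (.nd (nat_lit 15) 
(.lf (nat_lit 3221252220) (dlOf (nat_lit 1) (nat_lit 0x320008004781))) 
(.lf (nat_lit 3221284988) (dlOf (nat_lit 2) (nat_lit 0x100000002004000400400020018004782)))) 
(.lf (nat_lit 28028) (dlOf (nat_lit 1) (nat_lit 0x20028006c01))))) (.nd (nat_lit 8) 
(.nd (nat_lit 11) (.nd (nat_lit 19) (.nd (nat_lit 21) 
(.lf (nat_lit 2755682428) (dlOf (nat_lit 10) (nat_lit 0x7dc42403fa1fa02140aa810a84e0004681005e02aa01ee13800119820110109008c87e804b82aa025a138001190400d41090073855400a42700022d0600221fa00111010005109000287e8008c2a8001ed06000e212000a0fd00138550003d80c049c42400ee21001330fd00a78550000c29e000e14d000309b8007ac3805a08480284420017a1fa00db0aa0002053c003d414002c002000200081b0082))) 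
(.lf (nat_lit 2753585276) (dlOf (nat_lit 1) (nat_lit 0x60008090081)))) 
(.lf (nat_lit 604528764) (dlOf (nat_lit 1) (nat_lit 0x3d80080314002018c00082f3583)))) 
(.lf (nat_lit 3825231996) (dlOf (nat_lit 4) (nat_lit 0x1402e000340200020170001901000100b8000c4080090008007c00200220008004783)))) 
(.nd (nat_lit 7) (.lf (nat_lit 2754636156) (dlOf (nat_lit 1) (nat_lit 0x4002000200080f4e82))) 
(.lf (nat_lit 738223612) (dlOf (nat_lit 1) (nat_lit 0xe0008003681)))))) (.nd (nat_lit 8) 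
(.nd (nat_lit 7) (.nd (nat_lit 12) (.nd (nat_lit 15) 
(.lf (nat_lit 61892220) (dlOf (nat_lit 3) (nat_lit 0xa57780014c080032bbc000a4040010004000a0009923982))) 
(.lf (nat_lit 61924988) (dlOf (nat_lit 2) (nat_lit 0x16aef00029019923980)))) 
(.lf (nat_lit 2214622844) (dlOf (nat_lit 1) (nat_lit 0x40018009d81)))) (.nd (nat_lit 15) 
(.lf (nat_lit 8414972) (dlOf (nat_lit 1) (nat_lit 0x400200020008513b82))) (.nd (nat_lit 19) 
(.lf (nat_lit 8447740) (dlOf (nat_lit 1) (nat_lit 0x40008513b81))) 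
(.lf (nat_lit 583420) (dlOf (nat_lit 1) (nat_lit 0x18008008800200060008003b83)))))) 
(.nd (nat_lit 15) (.nd (nat_lit 7) 
(.lf (nat_lit 2818599804) (dlOf (nat_lit 5) (nat_lit 0xc01500080000008d8100050058001402a000800e00050060002001800100080010000001128700050030008340800300000000004001c004000e0018005c02))) 
(.nd (nat_lit 10) (.lf (nat_lit 61367292) (dlOf (nat_lit 1) (nat_lit 0x140029922881))) 
(.lf (nat_lit 6576699388) (dlOf (nat_lit 1) (nat_lit 0x800800040020002000800a603))))) 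
(.nd (nat_lit 21) (.nd (nat_lit 10) 
(.lf (nat_lit 5368769532) (dlOf (nat_lit 1) (nat_lit 0x8008000400200020008005f03))) 
(.lf (nat_lit 2752051196) (dlOf (nat_lit 1) (nat_lit 0x1bc000800a601)))) (.nd (nat_lit 20) 
(.lf (nat_lit 61400060) (dlOf (nat_lit 1) (nat_lit 0x20009922881))) 
(.lf (nat_lit 49865724) (dlOf (nat_lit 1) (nat_lit 0x1600294c2881))))))))) (.nd (nat_lit 8) 
(.nd (nat_lit 26) (.nd (nat_lit 19) (.nd (nat_lit 11) (.nd (nat_lit 15) (.nd (nat_lit 20) 
(.lf (nat_lit 3493879868) (dlOf (nat_lit 1) (nat_lit 0x58004004400081b0002))) 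
(.lf (nat_lit 3490734140) (dlOf (nat_lit 1) (nat_lit 0xc00200080008020702)))) 
(.lf (nat_lit 3490766908) (dlOf (nat_lit 1) (nat_lit 0x400200020008020702)))) (.nd (nat_lit 6) 
(.lf (nat_lit 1342204988) (dlOf (nat_lit 1) (nat_lit 0x4800400200008006082))) (.nd (nat_lit 9) 
(.lf (nat_lit 2952821884) (dlOf (nat_lit 3) (nat_lit 0x3c02a0002e02001e0150001681800c100))) 
(.lf (nat_lit 6710946428) (dlOf (nat_lit 1) (nat_lit 0x400200020008005402)))))) (.nd (nat_lit 6) 
(.nd (nat_lit 7) (.nd (nat_lit 15) 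
(.lf (nat_lit 3492307004) (dlOf (nat_lit 1) (nat_lit 0x8004000800080c1402))) 
(.lf (nat_lit 3493388348) (dlOf (nat_lit 2) (nat_lit 0x2022000ea018130780)))) 
(.lf (nat_lit 1881695420) (dlOf (nat_lit 1) (nat_lit 0x800400040008fe2c82)))) (.nd (nat_lit 15) 
(.lf (nat_lit 1345872124) (dlOf (nat_lit 2) (nat_lit 0x8152000707b800402480029e0c0140004001e0008e02902))) 
(.lf (nat_lit 5774041340) (dlOf (nat_lit 1) (nat_lit 0x100080010002000200080f2903)))))) 
(.nd (nat_lit 6) (.nd (nat_lit 29) (.nd (nat_lit 7) (.nd (nat_lit 22) 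
(.lf (nat_lit 1543561276) (dlOf (nat_lit 1) (nat_lit 0xc004000600080b0002))) 
(.lf (nat_lit 474013756) (dlOf (nat_lit 4) (nat_lit 0x50018002000400e880800282d800120030004000801d0c18003800c00e74040020004000a0019000002)))) 
(.lf (nat_lit 470343868) (dlOf (nat_lit 3) (nat_lit 0x1c23c0001781000411e0000b808004000800d4002000400080c0383)))) 
(.nd (nat_lit 7) (.nd (nat_lit 20) 
(.lf (nat_lit 2080432188) (dlOf (nat_lit 1) (nat_lit 0x28004002a0008090002))) 
(.lf (nat_lit 1007738940) (dlOf (nat_lit 1) (nat_lit 0x80080008002000200087a0003)))) 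
(.lf (nat_lit 4227890364) (dlOf (nat_lit 1) (nat_lit 0x300080018002000c000800c203))))) 
(.nd (nat_lit 10) (.nd (nat_lit 9) (.nd (nat_lit 19) 
(.lf (nat_lit 1543561340) (dlOf (nat_lit 2) (nat_lit 0x110140005740800480080008002001a00080b0083))) 
(.lf (nat_lit 1409867900) (dlOf (nat_lit 1) (nat_lit 0x40018090081)))) 
(.lf (nat_lit 5301660284) (dlOf (nat_lit 4) (nat_lit 0x20130002001000e009800680340007e0800080280003e0200160028005401)))) 
(.nd (nat_lit 7) (.nd (nat_lit 12) 
(.lf (nat_lit 335603324) (dlOf (nat_lit 1) (nat_lit 0x20018003981))) 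
(.lf (nat_lit 2617276028) (dlOf (nat_lit 1) (nat_lit 0x3800200260008009d82)))) 
(.lf (nat_lit 1006659324) (dlOf (nat_lit 1) (nat_lit 0x60028003b81))))))) (.nd (nat_lit 26) 
(.nd (nat_lit 7) (.nd (nat_lit 15) (.nd (nat_lit 6) (.nd (nat_lit 22) 
(.lf (nat_lit 4697645372) (dlOf (nat_lit 1) (nat_lit 0xa0018000b81))) 
(.lf (nat_lit 3493880124) (dlOf (nat_lit 5) (nat_lit 0x4703000006e040004180000190201140c00000b810015060000000080028008019c002008800081b0583)))) 
(.lf (nat_lit 1342726524) (dlOf (nat_lit 1) (nat_lit 0x200080c0781)))) (.nd (nat_lit 6) 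
(.nd (nat_lit 19) (.lf (nat_lit 3493912892) (dlOf (nat_lit 1) (nat_lit 0x200281b0581))) 
(.lf (nat_lit 1345904956) (dlOf (nat_lit 1) (nat_lit 0x140008e17c01)))) 
(.lf (nat_lit 3489721724) (dlOf (nat_lit 1) (nat_lit 0x40008006c01))))) (.nd (nat_lit 9) 
(.nd (nat_lit 10) 
(.lf (nat_lit 1342726588) (dlOf (nat_lit 5) (nat_lit 0xf0055005f02a20190094000250301df0aa00c40544033c128000430603ba15401830a880640250000820c07842a802f615100c804a0000ec1804e000807840020cbc00080c0883))) 
(.lf (nat_lit 2952822204) (dlOf (nat_lit 1) (nat_lit 0x880020012000800cd02)))) (.nd (nat_lit 6) 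
(.nd (nat_lit 15) 
(.lf (nat_lit 6710913980) (dlOf (nat_lit 3) (nat_lit 0x700b00040054003c0280000e060054016001400a800000100058008000c00200120008005d03))) 
(.lf (nat_lit 5234551740) (dlOf (nat_lit 1) (nat_lit 0x20018055d01)))) 
(.lf (nat_lit 2013326332) (dlOf (nat_lit 1) (nat_lit 0x2a800801ac00200fa0008005f03)))))) 
(.nd (nat_lit 6) (.nd (nat_lit 9) (.nd (nat_lit 19) (.nd (nat_lit 27) 
(.lf (nat_lit 3556794812) (dlOf (nat_lit 1) (nat_lit 0x20028001081))) 
(.lf (nat_lit 3154141628) (dlOf (nat_lit 1) (nat_lit 0x400200020008001082)))) 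
(.lf (nat_lit 470311356) (dlOf (nat_lit 5) (nat_lit 0xf0055005f02a20190094000250301df0aa00c40544033c128000430603ba15401830a880640250000820c07842a802f615100c804a0000ec1804e000807840020cbc00080c0883)))) 
(.nd (nat_lit 7) (.lf (nat_lit 5704313660) (dlOf (nat_lit 1) (nat_lit 0x20028055c01))) 
(.nd (nat_lit 15) 
(.lf (nat_lit 4764756924) (dlOf (nat_lit 2) (nat_lit 0x200580003004000c00400040008005d02))) 
(.lf (nat_lit 5704313788) (dlOf (nat_lit 9) (nat_lit 0x540190023005001380240002e0c009c032004800a0000b02002c00c801b8028000220800a4032004800a0000802000e00c800b002800008080078032004a00a0000102000500c8000040801400280000004003400200040008055d02)))))) 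
(.nd (nat_lit 7) (.nd (nat_lit 15) 
(.lf (nat_lit 4227886460) (dlOf (nat_lit 3) (nat_lit 0x60320001b0100010190000c0080018008000800200060008006c03))) 
(.lf (nat_lit 2483088764) (dlOf (nat_lit 1) (nat_lit 0x20028006c01)))) (.nd (nat_lit 12) 
(.nd (nat_lit 15) 
(.lf (nat_lit 469788668) (dlOf (nat_lit 2) (nat_lit 0x1848e000623c0006f828004700))) 
(.lf (nat_lit 469821436) (dlOf (nat_lit 2) (nat_lit 0x3091c001be04000400200100008004702)))) 
(.lf (nat_lit 5838501884) (dlOf (nat_lit 1) (nat_lit 0x800800040020002000800a603))))))))) 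
(.nd (nat_lit 15) (.nd (nat_lit 6) (.nd (nat_lit 28) (.nd (nat_lit 7) (.nd (nat_lit 11) 
(.nd (nat_lit 20) (.nd (nat_lit 19) 
(.lf (nat_lit 4899037244) (dlOf (nat_lit 1) (nat_lit 0x20028050001))) 
(.lf (nat_lit 3221839932) (dlOf (nat_lit 4) (nat_lit 0x48114000aa04019c08a00054020146046000288181a1400)))) 
(.nd (nat_lit 21) 
(.lf (nat_lit 10051644) (dlOf (nat_lit 4) (nat_lit 0x14a0000001f0100330000000dc08008800000000040014002000600085b0702))) 
(.lf (nat_lit 2755223612) (dlOf (nat_lit 1) (nat_lit 0x600008130881))))) (.nd (nat_lit 8) 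
(.lf (nat_lit 134310972) (dlOf (nat_lit 1) (nat_lit 0x40028006081))) (.nd (nat_lit 9) 
(.lf (nat_lit 3825298748) (dlOf (nat_lit 1) (nat_lit 0x400400020008146902))) 
(.lf (nat_lit 20015932) (dlOf (nat_lit 1) (nat_lit 0x4002000200089d5c02)))))) (.nd (nat_lit 8) 
(.nd (nat_lit 10) (.nd (nat_lit 21) 
(.lf (nat_lit 43081916) (dlOf (nat_lit 1) (nat_lit 0x200292a0701))) 
(.lf (nat_lit 3236028) (dlOf (nat_lit 2) (nat_lit 0x46274800044080118008002800200300008200383)))) 
(.lf (nat_lit 32072892) (dlOf (nat_lit 1) (nat_lit 0x4000400060018ef2c82)))) (.nd (nat_lit 12) 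
(.nd (nat_lit 20) 
(.lf (nat_lit 53043644) (dlOf (nat_lit 2) (nat_lit 0x149514000000400f400400840019571082))) 
(.lf (nat_lit 2753126844) (dlOf (nat_lit 5) (nat_lit 0x2ac4980004602017e24c0001b01004b1260000d40800889300002e04004c00400540008090882)))) 
(.lf (nat_lit 94652) (dlOf (nat_lit 1) (nat_lit 0x18008000c00200060008008583)))))) 
(.nd (nat_lit 19) (.nd (nat_lit 20) (.nd (nat_lit 7) (.nd (nat_lit 8) (.nd (nat_lit 26) 
(.lf (nat_lit 1879138364) (dlOf (nat_lit 1) (nat_lit 0x100028020701))) 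
(.lf (nat_lit 1006723132) (dlOf (nat_lit 1) (nat_lit 0x100028020701)))) 
(.lf (nat_lit 4563495740) (dlOf (nat_lit 1) (nat_lit 0x8000200420008095c02)))) 
(.lf (nat_lit 2952880316) (dlOf (nat_lit 1) (nat_lit 0x40028010381)))) (.nd (nat_lit 10) 
(.nd (nat_lit 26) (.lf (nat_lit 1343316028) (dlOf (nat_lit 1) (nat_lit 0x3800181e0901))) 
(.lf (nat_lit 1007771708) (dlOf (nat_lit 1) (nat_lit 0x400287a0001)))) 
(.lf (nat_lit 1880187964) (dlOf (nat_lit 1) (nat_lit 0x1400287a2881))))) (.nd (nat_lit 7) 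
(.nd (nat_lit 20) (.nd (nat_lit 26) 
(.lf (nat_lit 3492372540) (dlOf (nat_lit 1) (nat_lit 0x14002001e00080c1402))) 
(.lf (nat_lit 4096352316) (dlOf (nat_lit 1) (nat_lit 0x5f8008025c00200ae0008100483)))) 
(.lf (nat_lit 3493421116) (dlOf (nat_lit 8) (nat_lit 0x8718004380400044340002101000ec02000110d00075c0800088680004222001d604000221a000108080074c1000088680004202001d104000e000000e1818130780)))) 
(.nd (nat_lit 8) (.nd (nat_lit 10) 
(.lf (nat_lit 1342791868) (dlOf (nat_lit 2) (nat_lit 0x208f00006204001c004000200080c0382))) 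
(.lf (nat_lit 1008297148) (dlOf (nat_lit 1) (nat_lit 0x8008001000200020008b52c83)))) 
(.lf (nat_lit 3491324348) (dlOf (nat_lit 5) (nat_lit 0x2ac4680004602017e2340001b01004b11a0000d40800888d00002e04004c00400540008090882))))))) 
(.nd (nat_lit 29) (.nd (nat_lit 8) (.nd (nat_lit 19) (.nd (nat_lit 7) 
(.lf (nat_lit 61957756) (dlOf (nat_lit 1) (nat_lit 0x800400020009923982))) (.nd (nat_lit 11) 
(.lf (nat_lit 3422642940) (dlOf (nat_lit 1) (nat_lit 0x20028002101))) 
(.lf (nat_lit 92924) (dlOf (nat_lit 1) (nat_lit 0x8008000400200020008005a03))))) (.nd (nat_lit 9) 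
(.nd (nat_lit 26) (.lf (nat_lit 1342791804) (dlOf (nat_lit 1) (nat_lit 0xe00180c0081))) 
(.lf (nat_lit 470376572) (dlOf (nat_lit 1) (nat_lit 0xe00180c0081)))) 
(.lf (nat_lit 7960188) (dlOf (nat_lit 1) (nat_lit 0x400200020008519d82))))) (.nd (nat_lit 7) 
(.nd (nat_lit 9) (.nd (nat_lit 10) 
(.lf (nat_lit 1342269820) (dlOf (nat_lit 1) (nat_lit 0xa0028004e81))) 
(.lf (nat_lit 20016508) (dlOf (nat_lit 1) (nat_lit 0x200089d6c01)))) 
(.lf (nat_lit 9006972) (dlOf (nat_lit 1) (nat_lit 0x20008000400200040008517783)))) (.nd (nat_lit 9) 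
(.lf (nat_lit 2483118588) (dlOf (nat_lit 1) (nat_lit 0x28008001800200020008017803))) 
(.lf (nat_lit 49898492) (dlOf (nat_lit 1) (nat_lit 0xc004000200094c2882)))))) (.nd (nat_lit 10) 
(.nd (nat_lit 7) (.nd (nat_lit 8) (.nd (nat_lit 21) 
(.lf (nat_lit 1744920700) (dlOf (nat_lit 2) (nat_lit 0x80cc0002e04000800400120018090282))) 
(.lf (nat_lit 2753650812) (dlOf (nat_lit 1) (nat_lit 0x400400020008090082)))) 
(.lf (nat_lit 2684445564) (dlOf (nat_lit 1) (nat_lit 0x20028002581)))) (.nd (nat_lit 8) 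
(.lf (nat_lit 738814716) (dlOf (nat_lit 1) (nat_lit 0x20018125a01))) 
(.lf (nat_lit 2751554556) (dlOf (nat_lit 1) (nat_lit 0x400200020008002882))))) (.nd (nat_lit 7) 
(.nd (nat_lit 9) (.nd (nat_lit 27) 
(.lf (nat_lit 3825298556) (dlOf (nat_lit 1) (nat_lit 0x880018146081))) 
(.lf (nat_lit 1812032636) (dlOf (nat_lit 1) (nat_lit 0x280018146081)))) 
(.lf (nat_lit 6106998396) (dlOf (nat_lit 1) (nat_lit 0x400200020008003982)))) (.nd (nat_lit 27) 
(.lf (nat_lit 536962812) (dlOf (nat_lit 1) (nat_lit 0xa0028003b81))) 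
(.lf (nat_lit 3087099644) (dlOf (nat_lit 1) (nat_lit 0x40008143b81)))))))) (.nd (nat_lit 26) 
(.nd (nat_lit 21) (.nd (nat_lit 6) (.nd (nat_lit 28) (.nd (nat_lit 19) (.nd (nat_lit 7) 
(.lf (nat_lit 17948732) (dlOf (nat_lit 1) (nat_lit 0x400200020008900c82))) 
(.lf (nat_lit 3355567036) (dlOf (nat_lit 1) (nat_lit 0xa00080a2781)))) (.nd (nat_lit 22) 
(.lf (nat_lit 537518140) (dlOf (nat_lit 1) (nat_lit 0x270008000800200a600080a0c83))) 
(.lf (nat_lit 21618748) (dlOf (nat_lit 3) (nat_lit 0x2ecf002b98080027678015ca04000800400020008a51682))))) 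
(.nd (nat_lit 27) (.nd (nat_lit 29) (.nd (nat_lit 31) 
(.lf (nat_lit 268558396) (dlOf (nat_lit 1) (nat_lit 0x8008000400200020008070483))) 
(.lf (nat_lit 2416042044) (dlOf (nat_lit 3) (nat_lit 0x600740006a04003403a000000200160028020701)))) 
(.lf (nat_lit 4026654780) (dlOf (nat_lit 4) (nat_lit 0x1c402000c40058000f81000180a40006e040068014000000200020028020701)))) 
(.lf (nat_lit 2550259772) (dlOf (nat_lit 3) (nat_lit 0x600700006a040034038000000200160028020701))))) 
(.nd (nat_lit 7) (.nd (nat_lit 8) (.nd (nat_lit 9) 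
(.lf (nat_lit 1744953468) (dlOf (nat_lit 1) (nat_lit 0x40028090281))) 
(.lf (nat_lit 43640444) (dlOf (nat_lit 2) (nat_lit 0x454a000168192a3980)))) 
(.lf (nat_lit 54651772) (dlOf (nat_lit 1) (nat_lit 0x3400400040009655c02)))) (.nd (nat_lit 8) 
(.lf (nat_lit 6442575612) (dlOf (nat_lit 2) (nat_lit 0x180000004002000600080f3b81))) 
(.lf (nat_lit 805432828) (dlOf (nat_lit 1) (nat_lit 0x20018116f81)))))) (.nd (nat_lit 7) 
(.nd (nat_lit 6) (.nd (nat_lit 9) 
(.lf (nat_lit 3792956) (dlOf (nat_lit 6) (nat_lit 0x17b4a00131020003da90005ed28005f67c001ba8400123080003da90007ed28003767c001fa840012208000dda90004ed28003f67c0027a8400121080007da90006ed28003f67c0023a84001200800140028220c01))) 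
(.lf (nat_lit 11657788) (dlOf (nat_lit 1) (nat_lit 0x180080010002000600086c1003)))) 
(.nd (nat_lit 23) 
(.lf (nat_lit 1345447548) (dlOf (nat_lit 2) (nat_lit 0x180a7000098080110008004400200140008bb3983))) 
(.lf (nat_lit 61990524) (dlOf (nat_lit 1) (nat_lit 0x60029923981))))) (.nd (nat_lit 8) 
(.nd (nat_lit 12) (.lf (nat_lit 1881268412) (dlOf (nat_lit 1) (nat_lit 0x1000200060008e80702))) 
(.lf (nat_lit 20050108) (dlOf (nat_lit 1) (nat_lit 0x200289d7e81)))) (.nd (nat_lit 19) 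
(.nd (nat_lit 20) (.lf (nat_lit 1881268668) (dlOf (nat_lit 1) (nat_lit 0x20018e81081))) 
(.lf (nat_lit 11657660) (dlOf (nat_lit 3) (nat_lit 0x1a8f800fd4540007e0800b00000000002003000186c0881)))) 
(.lf (nat_lit 23716284) (dlOf (nat_lit 1) (nat_lit 0x400200020008b80882))))))) (.nd (nat_lit 6) 
(.nd (nat_lit 19) (.nd (nat_lit 27) (.nd (nat_lit 10) (.nd (nat_lit 28) 
(.lf (nat_lit 3288457276) (dlOf (nat_lit 4) (nat_lit 0x1c402000c40058000f81000180a40006e040068014000000200020028020701))) 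
(.lf (nat_lit 2483150908) (dlOf (nat_lit 4) (nat_lit 0x1e0150004ec0801380a0001b204005c054000d80200100008030d01)))) 
(.lf (nat_lit 6509685820) (dlOf (nat_lit 1) (nat_lit 0xa0018146081)))) (.nd (nat_lit 7) 
(.nd (nat_lit 8) 
(.lf (nat_lit 2348933180) (dlOf (nat_lit 4) (nat_lit 0x1e0150004ec0801380a0001b204005c054000d80200100008030d01))) 
(.lf (nat_lit 2617369404) (dlOf (nat_lit 1) (nat_lit 0xa00080a2301)))) 
(.lf (nat_lit 738322876) (dlOf (nat_lit 1) (nat_lit 0x10008001000200020008094e83))))) 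
(.nd (nat_lit 31) (.nd (nat_lit 27) 
(.lf (nat_lit 1409933372) (dlOf (nat_lit 1) (nat_lit 0x270008000800200a600080a0c83))) 
(.lf (nat_lit 1007280188) (dlOf (nat_lit 1) (nat_lit 0x200082e0001)))) (.nd (nat_lit 7) 
(.lf (nat_lit 4095336508) (dlOf (nat_lit 1) (nat_lit 0xb000200260008090482))) 
(.lf (nat_lit 4094288316) (dlOf (nat_lit 2) (nat_lit 0x207f00101018037000)))))) (.nd (nat_lit 11) 
(.nd (nat_lit 8) (.nd (nat_lit 21) (.nd (nat_lit 27) 
(.lf (nat_lit 5167505532) (dlOf (nat_lit 1) (nat_lit 0x20018070c81))) 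
(.lf (nat_lit 5033287804) (dlOf (nat_lit 1) (nat_lit 0x60018030c81)))) 
(.lf (nat_lit 2753683580) (dlOf (nat_lit 1) (nat_lit 0x400200020008090082)))) (.nd (nat_lit 7) 
(.lf (nat_lit 1677846396) (dlOf (nat_lit 1) (nat_lit 0x3400400020008114102))) 
(.lf (nat_lit 1677846524) (dlOf (nat_lit 2) (nat_lit 0x98000001be040008002000e0008114702))))) 
(.nd (nat_lit 7) (.nd (nat_lit 8) 
(.lf (nat_lit 5972813948) (dlOf (nat_lit 1) (nat_lit 0x400200020008144782))) 
(.lf (nat_lit 3825331580) (dlOf (nat_lit 1) (nat_lit 0x430008000800200020008146c03)))) 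
(.nd (nat_lit 9) (.lf (nat_lit 1677846780) (dlOf (nat_lit 1) (nat_lit 0x5400200060008114b82))) 
(.lf (nat_lit 4093766396) (dlOf (nat_lit 1) (nat_lit 0x40028005a01))))))))))) (.nd (nat_lit 15) 
(.nd (nat_lit 16) (.nd (nat_lit 26) (.nd (nat_lit 28) (.nd (nat_lit 5) (.nd (nat_lit 21) 
(.nd (nat_lit 6) (.nd (nat_lit 29) (.nd (nat_lit 9) (.nd (nat_lit 19) 
(.lf (nat_lit 38035484) (dlOf (nat_lit 1) (nat_lit 0x3400400040019110102))) 
(.lf (nat_lit 9199644) (dlOf (nat_lit 1) (nat_lit 0xac8008000400201680008530103)))) 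
(.lf (nat_lit 6442738204) (dlOf (nat_lit 1) (nat_lit 0x4004000200081b0d82)))) (.nd (nat_lit 27) 
(.lf (nat_lit 537157660) (dlOf (nat_lit 3) (nat_lit 0x1680be0015702002e05f0009e818030900))) 
(.lf (nat_lit 4966342684) (dlOf (nat_lit 2) (nat_lit 0x35006000082040008004005c00180b0102))))) 
(.nd (nat_lit 7) (.lf (nat_lit 3221512540) (dlOf (nat_lit 1) (nat_lit 0x400400020008124e82))) 
(.lf (nat_lit 34366428) (dlOf (nat_lit 1) (nat_lit 0x20018fb2881))))) (.nd (nat_lit 6) 
(.nd (nat_lit 9) (.lf (nat_lit 29122588) (dlOf (nat_lit 1) (nat_lit 0xc0028dc0a01))) 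
(.nd (nat_lit 22) (.lf (nat_lit 11821596) (dlOf (nat_lit 1) (nat_lit 0x8004000200086c0d82))) 
(.lf (nat_lit 57958940) (dlOf (nat_lit 1) (nat_lit 0x4002000200097a8702))))) (.nd (nat_lit 19) 
(.nd (nat_lit 23) (.lf (nat_lit 24404060) (dlOf (nat_lit 2) (nat_lit 0x627900016818b91200))) 
(.lf (nat_lit 32792668) (dlOf (nat_lit 1) (nat_lit 0x20008f10881)))) (.nd (nat_lit 7) 
(.lf (nat_lit 45899868) (dlOf (nat_lit 1) (nat_lit 0x8c00400220009360882))) 
(.lf (nat_lit 36463580) (dlOf (nat_lit 1) (nat_lit 0x80019072881))))))) (.nd (nat_lit 19) 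
(.nd (nat_lit 6) (.nd (nat_lit 8) (.nd (nat_lit 7) 
(.lf (nat_lit 24404028) (dlOf (nat_lit 1) (nat_lit 0x40028b90c81))) 
(.lf (nat_lit 6442737852) (dlOf (nat_lit 3) (nat_lit 0x20188000bc0800380d000022040010004001200181b0382)))) 
(.nd (nat_lit 9) 
(.lf (nat_lit 3221512508) (dlOf (nat_lit 8) (nat_lit 0x4008a004b602003000a0025981001b0050010e40800d80280086a04006c0140043402006200a001e901001b005000f40080130008004800200880008124c03))) 
(.lf (nat_lit 8681276) (dlOf (nat_lit 1) (nat_lit 0x40040002001851a102))))) (.nd (nat_lit 7) 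
(.lf (nat_lit 8676988) (dlOf (nat_lit 2) (nat_lit 0x600400007018513980))) (.nd (nat_lit 29) 
(.lf (nat_lit 3221512700) (dlOf (nat_lit 1) (nat_lit 0x400400020008127802))) 
(.lf (nat_lit 5905867260) (dlOf (nat_lit 10) (nat_lit 0xec025000500f002c005c000ba0c01bc04a00bc0170002e020073012802c005c000a20801a404a00ba0170002802006f01280698078016402e0004c060102025006e00b8001281003c009401a002e000480400fe025004900f003d805c000840c004c02e0003d0200020028157e01)))))) 
(.nd (nat_lit 23) (.nd (nat_lit 6) (.nd (nat_lit 8) 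
(.lf (nat_lit 22831164) (dlOf (nat_lit 2) (nat_lit 0x16a580050c080050008000c00200060008b30d83))) 
(.lf (nat_lit 8156476) (dlOf (nat_lit 1) (nat_lit 0x400200020008519902)))) (.nd (nat_lit 8) 
(.lf (nat_lit 135028860) (dlOf (nat_lit 2) (nat_lit 0xc0028007f00800080080074002000c00081b0083))) 
(.lf (nat_lit 20737404) (dlOf (nat_lit 1) (nat_lit 0x79400402f600089d6c02))))) (.nd (nat_lit 7) 
(.nd (nat_lit 8) 
(.lf (nat_lit 29122620) (dlOf (nat_lit 3) (nat_lit 0x194b60004a2a0001002000752d8000a7f00003a08003c004000e0018dc0c82))) 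
(.lf (nat_lit 30171452) (dlOf (nat_lit 1) (nat_lit 0xe0028e30701)))) (.nd (nat_lit 6) 
(.lf (nat_lit 43803068) (dlOf (nat_lit 1) (nat_lit 0x4004000200092a1082))) 
(.lf (nat_lit 43804156) (dlOf (nat_lit 1) (nat_lit 0x4004000200092a3682)))))))) (.nd (nat_lit 30) 
(.nd (nat_lit 32) (.nd (nat_lit 27) (.nd (nat_lit 5) (.nd (nat_lit 31) 
(.lf (nat_lit 805593116) (dlOf (nat_lit 1) (nat_lit 0xf80080084002002c0008130483))) 
(.lf (nat_lit 2953076764) (dlOf (nat_lit 1) (nat_lit 0x4004001000080f0482)))) 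
(.lf (nat_lit 268722236) (dlOf (nat_lit 1) (nat_lit 0x8008000400200020008100483)))) 
(.nd (nat_lit 5) (.nd (nat_lit 31) 
(.lf (nat_lit 402939932) (dlOf (nat_lit 1) (nat_lit 0x4004000200180b0102))) 
(.lf (nat_lit 2550423580) (dlOf (nat_lit 1) (nat_lit 0x400400020008090002)))) 
(.lf (nat_lit 402939964) (dlOf (nat_lit 1) (nat_lit 0x200180b0481))))) (.nd (nat_lit 6) 
(.nd (nat_lit 7) 
(.lf (nat_lit 5100560668) (dlOf (nat_lit 1) (nat_lit 0x200080010002000400080d0a83))) 
(.nd (nat_lit 27) 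
(.lf (nat_lit 4563689628) (dlOf (nat_lit 4) (nat_lit 0x100d00004c0400740660002302001a034000a00f8000701002080080054002003800080c1283))) 
(.lf (nat_lit 4697907356) (dlOf (nat_lit 4) (nat_lit 0x100d0000260400740660001002001a034000a00f8000241002080080054002003800080c1283))))) 
(.nd (nat_lit 5) 
(.lf (nat_lit 4563689692) (dlOf (nat_lit 4) (nat_lit 0x580c40005a0400b00620002c020154000000050180c1c80))) 
(.lf (nat_lit 5100563068) (dlOf (nat_lit 2) (nat_lit 0x88090002c03a0004504005400180d5401)))))) 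
(.nd (nat_lit 7) (.nd (nat_lit 19) (.nd (nat_lit 5) (.nd (nat_lit 6) 
(.lf (nat_lit 1476681756) (dlOf (nat_lit 1) (nat_lit 0xa0008110681))) 
(.lf (nat_lit 3492044892) (dlOf (nat_lit 1) (nat_lit 0x4002000200080a1202)))) 
(.lf (nat_lit 1879334972) (dlOf (nat_lit 1) (nat_lit 0x200080e0c01)))) (.nd (nat_lit 21) 
(.lf (nat_lit 5773221916) (dlOf (nat_lit 1) (nat_lit 0x4004000200080b0102))) 
(.lf (nat_lit 1346134044) (dlOf (nat_lit 2) (nat_lit 0x1828601120cd00017828e60100))))) 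
(.nd (nat_lit 8) (.nd (nat_lit 5) (.nd (nat_lit 19) 
(.lf (nat_lit 3490996380) (dlOf (nat_lit 1) (nat_lit 0x20028044301))) 
(.lf (nat_lit 3491520668) (dlOf (nat_lit 10) (nat_lit 0x8822c000800400c81160003f02003a08b000180103060460182022c0005e0801a01b600d20ab00a60460023822c01980140002e0a00ec08b0000b01005c04580005008004022c0001e0400dc1160000002003e0018090181)))) 
(.lf (nat_lit 3489955004) (dlOf (nat_lit 1) (nat_lit 0x40040002000800c202)))) (.nd (nat_lit 11) 
(.lf (nat_lit 3491520924) (dlOf (nat_lit 2) (nat_lit 0x1d045801c24080088008000c002000a0008090783))) 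
(.lf (nat_lit 3489950108) (dlOf (nat_lit 1) (nat_lit 0x20008004e81)))))))) (.nd (nat_lit 28) 
(.nd (nat_lit 6) (.nd (nat_lit 19) (.nd (nat_lit 8) (.nd (nat_lit 29) (.nd (nat_lit 30) 
(.lf (nat_lit 4362362908) (dlOf (nat_lit 27) (nat_lit 0xa0520028016800154100140134000940403340a4000470201f0052016b0230001181000301480008a0400140a4000440200a8050001e027800281340334094002c048005302200098104033408001f002c00060118002806c022c0000003f18001605d002402c8037816001dc0aa000a0540051028001d813c003c09801da04800980220027010c025c08202a2040016b016007f00a803d404201ac01401260000000f4900028140000809e0003a0400a80520005028802881180006a0c009008c000340200a605200980230000cc1003b8118000580400580a401da046000158200fe0230000a80807a8118000520403340a402a20460000e82000b023000068080098148025c08c0001604003c0520002028801d8118000260c01bc08c0001202000a0460000881004e0230000400806b01180001404003c08c00004020116052012602300000010008800800c0002000a0008030b03))) 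
(.lf (nat_lit 3288621084) (dlOf (nat_lit 1) (nat_lit 0xc002000a0008090002)))) (.nd (nat_lit 27) 
(.lf (nat_lit 604266524) (dlOf (nat_lit 1) (nat_lit 0xf000400a80008110682))) 
(.lf (nat_lit 5033451548) (dlOf (nat_lit 2) (nat_lit 0x35006000082040008004005c00180b0102))))) 
(.nd (nat_lit 5) 
(.lf (nat_lit 738484508) (dlOf (nat_lit 3) (nat_lit 0x2a053001801a80010084002ac0c00e006a007002100066828090a80))) 
(.nd (nat_lit 10) 
(.lf (nat_lit 3959710012) (dlOf (nat_lit 8) (nat_lit 0x4008a00a4b02003000a0052401001b0050027400800d80280139804006c014009cb02006200a004b381001b005002594080130008004800200880008124c03))) 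
(.lf (nat_lit 1141138748) (dlOf (nat_lit 1) (nat_lit 0xa000200020008123282)))))) (.nd (nat_lit 5) 
(.nd (nat_lit 7) (.nd (nat_lit 9) 
(.lf (nat_lit 4362887196) (dlOf (nat_lit 1) (nat_lit 0x70002003200081a0002))) 
(.lf (nat_lit 2753323548) (dlOf (nat_lit 1) (nat_lit 0x20028090d81)))) 
(.lf (nat_lit 2753323164) (dlOf (nat_lit 10) (nat_lit 0x88220000800400c81100003f02003a08800018010306044818202200005e0801a019a00d20a800a60448023822001980140002e0a00ec0880000b01005c0440000500800402200001e0400dc1100000002003e0018090181)))) 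
(.nd (nat_lit 7) (.nd (nat_lit 21) 
(.lf (nat_lit 4362887228) (dlOf (nat_lit 2) (nat_lit 0x29029003264080038008004c002002000081a0003))) 
(.lf (nat_lit 70017084) (dlOf (nat_lit 1) (nat_lit 0x40028e60001)))) (.nd (nat_lit 27) 
(.lf (nat_lit 4362887356) (dlOf (nat_lit 8) (nat_lit 0x3000000008c0801a000000044040160000000210200600000000c010030000000034080028000000180400e80000000002007000181a0381))) 
(.lf (nat_lit 202137788) (dlOf (nat_lit 3) (nat_lit 0x1b00000002404003c0000001102003000181b0381))))))) 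
(.nd (nat_lit 29) (.nd (nat_lit 19) (.nd (nat_lit 8) (.nd (nat_lit 10) 
(.lf (nat_lit 2349097052) (dlOf (nat_lit 2) (nat_lit 0x78090003c0380020015000f00100005c2000a8008005c002000800080a1203))) 
(.lf (nat_lit 1141138524) (dlOf (nat_lit 1) (nat_lit 0x180018122901)))) (.nd (nat_lit 7) 
(.lf (nat_lit 201613660) (dlOf (nat_lit 1) (nat_lit 0x400200020008048d02))) 
(.lf (nat_lit 1141138396) (dlOf (nat_lit 1) (nat_lit 0x60028122881))))) (.nd (nat_lit 5) 
(.lf (nat_lit 4362887388) (dlOf (nat_lit 1) (nat_lit 0x200081a0481))) (.nd (nat_lit 27) 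
(.lf (nat_lit 4362887292) (dlOf (nat_lit 5) (nat_lit 0xf8814c07e808e03f603301f90168008d020019814c00e005a0023304029a053014a02380a800cc054405a0023208000e033000f58181a0080))) 
(.lf (nat_lit 202137724) (dlOf (nat_lit 2) (nat_lit 0xc0028007a80800080080074002000c00081b0083)))))) 
(.nd (nat_lit 8) (.nd (nat_lit 5) 
(.lf (nat_lit 2753847388) (dlOf (nat_lit 1) (nat_lit 0x4002000200080a1202))) (.nd (nat_lit 7) 
(.lf (nat_lit 2755944572) (dlOf (nat_lit 1) (nat_lit 0x4004000400081b0082))) 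
(.lf (nat_lit 2752276220) (dlOf (nat_lit 1) (nat_lit 0x20028003b81))))) (.nd (nat_lit 7) 
(.nd (nat_lit 20) 
(.lf (nat_lit 3959710044) (dlOf (nat_lit 8) (nat_lit 0x72801400064020070031000900f00158044070401400063080004046001d0228001341005f815802cc0aa018605200d8026806c011c037408c00e404400c901b001000d0036806401b40310017017806c00b8015c05a002602b001600f006f804402d002003a800a007b00400248018000885400580ac00c0052006301b00018028000861003300ac016005500cf029001f813c033409a0016049008f023801b8110035006c000a03400cd018806680b8015005a001a02b00aa01480080078009c02601d201100b100800e0002801e001000700060002116001b02b0001014802ac08a0062036000600f000000280dd800807380020cea0008124e03))) 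
(.lf (nat_lit 2752799068) (dlOf (nat_lit 1) (nat_lit 0x240018048d01)))) 
(.lf (nat_lit 2752275420) (dlOf (nat_lit 1) (nat_lit 0x3c00080008002004e0008002883))))))) 
(.nd (nat_lit 27) (.nd (nat_lit 29) (.nd (nat_lit 30) (.nd (nat_lit 5) (.nd (nat_lit 6) 
(.lf (nat_lit 335831068) (dlOf (nat_lit 1) (nat_lit 0x4004000200180b0102))) 
(.lf (nat_lit 2483314780) (dlOf (nat_lit 2) (nat_lit 0x78090003c0380020015000f0010000b42000a8008005c002000800080a1203)))) 
(.lf (nat_lit 335831100) (dlOf (nat_lit 1) (nat_lit 0x200180b0481)))) (.nd (nat_lit 8) 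
(.nd (nat_lit 19) 
(.lf (nat_lit 1409572892) (dlOf (nat_lit 3) (nat_lit 0x1680be0015c02002e05f0009e818030900))) 
(.lf (nat_lit 3557580828) (dlOf (nat_lit 23) (nat_lit 0xc980de019c0340055a0200220100029b00803a81240140042000e020005340302e6037804080d001468080ab00de0016034005198201e30378028c80817a81bc011c06800a300405e206f004ea0102cb037800580d0013940800180de009b10207c606f004d78100060378026b80817e81bc008c068009920402e206f004c881016903780263c0814201bc01316040b080de00ba034004b88200e603900fe01bc034407e01960340008e840260037803200d00023608018c0e4007803f0008b82009b039005780fc0022c0800200e4018c06f0089024807c80fc01e006c01e803400440108000003802a0008015400200f20008270483)))) 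
(.lf (nat_lit 3557062940) (dlOf (nat_lit 4) (nat_lit 0x2c070000250200140380001181000d01c00006008006000800600020004000812ab03))))) 
(.nd (nat_lit 5) (.nd (nat_lit 8) 
(.lf (nat_lit 4094454812) (dlOf (nat_lit 1) (nat_lit 0xc8008000c00200140008056003))) 
(.lf (nat_lit 4094451996) (dlOf (nat_lit 1) (nat_lit 0xe80080090002001e0008050a83)))) 
(.nd (nat_lit 6) (.nd (nat_lit 7) 
(.lf (nat_lit 4094976060) (dlOf (nat_lit 1) (nat_lit 0x8008000400200020008050003))) 
(.lf (nat_lit 5167669436) (dlOf (nat_lit 1) (nat_lit 0x400180f1701)))) 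
(.lf (nat_lit 1946444156) (dlOf (nat_lit 1) (nat_lit 0x1000400100008090782)))))) (.nd (nat_lit 30) 
(.nd (nat_lit 5) (.nd (nat_lit 6) (.nd (nat_lit 19) 
(.lf (nat_lit 471097372) (dlOf (nat_lit 1) (nat_lit 0x2800200100008270482))) 
(.lf (nat_lit 471621660) (dlOf (nat_lit 3) (nat_lit 0x6209d0000d81000704e800068080100008002c00200100008360603)))) 
(.nd (nat_lit 8) (.lf (nat_lit 1007444188) (dlOf (nat_lit 1) (nat_lit 0x60018370581))) 
(.lf (nat_lit 5301887964) (dlOf (nat_lit 2) (nat_lit 0x8022002d102010e00280e2881))))) 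
(.nd (nat_lit 6) (.nd (nat_lit 8) 
(.lf (nat_lit 1006919740) (dlOf (nat_lit 1) (nat_lit 0x200080e0c01))) 
(.lf (nat_lit 5301888316) (dlOf (nat_lit 2) (nat_lit 0x12011000098180e3280)))) 
(.lf (nat_lit 474244732) (dlOf (nat_lit 1) (nat_lit 0x8002000200090e3982))))) (.nd (nat_lit 31) 
(.nd (nat_lit 8) (.nd (nat_lit 5) 
(.lf (nat_lit 6377201692) (dlOf (nat_lit 1) (nat_lit 0x4004000200080b0102))) 
(.lf (nat_lit 6375630460) (dlOf (nat_lit 1) (nat_lit 0x8008000400200020008003983)))) 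
(.nd (nat_lit 7) 
(.lf (nat_lit 6376677660) (dlOf (nat_lit 1) (nat_lit 0x18008000800200020008090a83))) 
(.lf (nat_lit 5838758300) (dlOf (nat_lit 1) (nat_lit 0x4004000200081b0782))))) (.nd (nat_lit 5) 
(.nd (nat_lit 29) 
(.lf (nat_lit 3691274268) (dlOf (nat_lit 2) (nat_lit 0x170000000000200300008110481))) 
(.lf (nat_lit 4228145180) (dlOf (nat_lit 27) (nat_lit 0xa04b002801600015010014011800094040334096000470201f004b016b01f80011810003012c0008a040014096000440200a8049001e024000281180334086002c041005301e800980e8033407201f002b00060118002806c022c0000003f18001605600240290037814401dc09c000a04d0051024801d8120003c08a01da041009801e802700f0025c07402a2039016b015807f00a403d404201ac01401260000000f490002812400080900003a0400a804b0005025002880fc0006a0c009007e000340200a604b009801f8000cc1003b80fc0005804005809601da03f000158200fe01f8000a80807a80fc0005204033409602a203f0000e02000b01f80006408009812c025c07e0001504003c04b0002025001d80fc000260c01bc07e0001202000a03f0000881004e01f8000400806b00fc0001404003c07e0000302011604b012601f80000010008800800c0002000a0008030b03))))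 
(.nd (nat_lit 6) (.lf (nat_lit 4228669500) (dlOf (nat_lit 1) (nat_lit 0x800081a0001))) 
(.lf (nat_lit 4228669564) (dlOf (nat_lit 5) (nat_lit 0xf8813007e808003f603201f901600093020019813000e00580024b04029a04c014a02000a800c805440580024a08000e032000fe8181a0080)))))))))) 
(.nd (nat_lit 5) (.nd (nat_lit 19) (.nd (nat_lit 27) (.nd (nat_lit 6) (.nd (nat_lit 20) 
(.nd (nat_lit 7) (.nd (nat_lit 21) 
(.lf (nat_lit 3221577756) (dlOf (nat_lit 2) (nat_lit 0x6023000488080010008000400200020008150583))) 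
(.lf (nat_lit 27615260) (dlOf (nat_lit 2) (nat_lit 0x4d4f00534018d00680)))) 
(.lf (nat_lit 69560732) (dlOf (nat_lit 1) (nat_lit 0x1f800800d800200540008b44e83)))) 
(.nd (nat_lit 21) (.nd (nat_lit 7) 
(.lf (nat_lit 1400860) (dlOf (nat_lit 1) (nat_lit 0x4004000200080c0902))) 
(.lf (nat_lit 51733660) (dlOf (nat_lit 1) (nat_lit 0x20019512b81)))) (.nd (nat_lit 8) 
(.lf (nat_lit 37052444) (dlOf (nat_lit 1) (nat_lit 0x10008004400200040009090103))) 
(.lf (nat_lit 58024220) (dlOf (nat_lit 1) (nat_lit 0x200197b8001)))))) (.nd (nat_lit 7) 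
(.nd (nat_lit 28) (.nd (nat_lit 25) 
(.lf (nat_lit 6442803292) (dlOf (nat_lit 1) (nat_lit 0x1000181c1201))) 
(.lf (nat_lit 33906780) (dlOf (nat_lit 1) (nat_lit 0x7800801cc00200840008f70883)))) 
(.nd (nat_lit 8) (.lf (nat_lit 4563755100) (dlOf (nat_lit 2) (nat_lit 0x2029000090180d0700))) 
(.lf (nat_lit 3557122396) (dlOf (nat_lit 1) (nat_lit 0x40008130901))))) (.nd (nat_lit 8) 
(.lf (nat_lit 19226844) (dlOf (nat_lit 1) (nat_lit 0x8008000400200080008970583))) 
(.lf (nat_lit 8746460) (dlOf (nat_lit 1) (nat_lit 0x10008000800200040008519b03)))))) 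
(.nd (nat_lit 26) (.nd (nat_lit 6) (.nd (nat_lit 7) (.nd (nat_lit 28) 
(.lf (nat_lit 3892666396) (dlOf (nat_lit 4) (nat_lit 0x300aa0014034000300a0000a41800c819000c40c0000e05a002702a801580d0002005e004a028002200a0013000c0004e24000c0aa0006034000600a000070180070008000c00200220008180103))) 
(.lf (nat_lit 4161101852) (dlOf (nat_lit 1) (nat_lit 0x8008002c00200020008130483)))) 
(.lf (nat_lit 1208311964) (dlOf (nat_lit 1) (nat_lit 0x80080008002000200080c1283)))) 
(.nd (nat_lit 7) (.lf (nat_lit 4697972828) (dlOf (nat_lit 2) (nat_lit 0x2029000090180d0700))) 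
(.lf (nat_lit 2818924764) (dlOf (nat_lit 1) (nat_lit 0x40018130581))))) (.nd (nat_lit 30) 
(.nd (nat_lit 6) (.nd (nat_lit 29) 
(.lf (nat_lit 2617597980) (dlOf (nat_lit 18) (nat_lit 0x78064002e02d00080148001806c0218030000a01600270080002000c0040c2002f4068019a03100dc015803a00a80098052002001300a90060006a03800b00000015e0404c0068000a30204740340005081018301a000280080f400d00013e0408dc068026a0330003f0201d801a000b00cc000f2080270068000780204340340003b81019401a000c80cc000ec0804c806800020330003902006301a0000900801280d000044040650068000140201a4034007301580090030000000c003000400a20008100482))) 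
(.lf (nat_lit 3154468892) (dlOf (nat_lit 4) (nat_lit 0x2c0a40002902004c0640001381005e023802e00e000000080094004002400081a0102)))) 
(.lf (nat_lit 738550108) (dlOf (nat_lit 1) (nat_lit 0x400080044002001e00080a7103)))) 
(.nd (nat_lit 6) (.nd (nat_lit 7) 
(.lf (nat_lit 3959775260) (dlOf (nat_lit 2) (nat_lit 0x6023000494080010008000400200020008150583))) 
(.lf (nat_lit 2080727196) (dlOf (nat_lit 1) (nat_lit 0x80080008002000200080c1283)))) 
(.lf (nat_lit 5838823516) (dlOf (nat_lit 1) (nat_lit 0x1000181c1201))))))) (.nd (nat_lit 21) 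
(.nd (nat_lit 28) (.nd (nat_lit 6) (.nd (nat_lit 20) 
(.lf (nat_lit 9265180) (dlOf (nat_lit 2) (nat_lit 0x18000000410200480018530101))) 
(.lf (nat_lit 27090972) (dlOf (nat_lit 2) (nat_lit 0x2836380000004025400400f40008ca0502)))) 
(.nd (nat_lit 7) (.lf (nat_lit 34432092) (dlOf (nat_lit 1) (nat_lit 0x40028fb2901))) 
(.lf (nat_lit 17653980) (dlOf (nat_lit 1) (nat_lit 0x8008000c002000400088e0583))))) 
(.nd (nat_lit 7) (.nd (nat_lit 6) (.nd (nat_lit 26) 
(.lf (nat_lit 1343053852) (dlOf (nat_lit 1) (nat_lit 0x4e0018140481))) 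
(.lf (nat_lit 470638620) (dlOf (nat_lit 1) (nat_lit 0x4e0018140481)))) 
(.lf (nat_lit 1344106588) (dlOf (nat_lit 1) (nat_lit 0x1400183d7d81)))) (.nd (nat_lit 8) 
(.lf (nat_lit 3491586204) (dlOf (nat_lit 3) (nat_lit 0x12c1180002f02005008c00017018090180))) 
(.lf (nat_lit 4094520220) (dlOf (nat_lit 1) (nat_lit 0x400200020008055c82)))))) (.nd (nat_lit 20) 
(.nd (nat_lit 6) (.nd (nat_lit 9) (.nd (nat_lit 26) 
(.lf (nat_lit 3492634652) (dlOf (nat_lit 2) (nat_lit 0xc03e800021c1001130280e0480))) 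
(.lf (nat_lit 2754437148) (dlOf (nat_lit 2) (nat_lit 0xc041200021d3001130280e0480)))) 
(.lf (nat_lit 19758620) (dlOf (nat_lit 1) (nat_lit 0x3a00189dcf01)))) (.nd (nat_lit 9) 
(.lf (nat_lit 19758300) (dlOf (nat_lit 1) (nat_lit 0x200289dc481))) 
(.lf (nat_lit 19755740) (dlOf (nat_lit 1) (nat_lit 0x200189d8c81))))) (.nd (nat_lit 6) 
(.nd (nat_lit 7) (.nd (nat_lit 10) 
(.lf (nat_lit 45965340) (dlOf (nat_lit 1) (nat_lit 0x40019370601))) 
(.lf (nat_lit 58549276) (dlOf (nat_lit 1) (nat_lit 0x30004000600097e2882)))) 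
(.lf (nat_lit 8216732) (dlOf (nat_lit 1) (nat_lit 0x7e0018510501)))) (.nd (nat_lit 8) 
(.lf (nat_lit 1346199644) (dlOf (nat_lit 4) (nat_lit 0x9415f00510a60026035c001c1ac0000b08008615f004406b80002410021857c01101ae0000004012a0028e60881))) 
(.lf (nat_lit 54356828) (dlOf (nat_lit 1) (nat_lit 0x108002005c0009655c02)))))))) (.nd (nat_lit 30) 
(.nd (nat_lit 19) (.nd (nat_lit 6) (.nd (nat_lit 31) (.nd (nat_lit 7) (.nd (nat_lit 21) 
(.lf (nat_lit 68509756) (dlOf (nat_lit 3) (nat_lit 0x280000000a040020000000030200060018590c81))) 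
(.lf (nat_lit 37052476) (dlOf (nat_lit 1) (nat_lit 0xc0009090601)))) 
(.lf (nat_lit 23421372) (dlOf (nat_lit 2) (nat_lit 0xdda640003f0200020028b80881)))) 
(.nd (nat_lit 8) (.nd (nat_lit 22) 
(.lf (nat_lit 6509912124) (dlOf (nat_lit 1) (nat_lit 0x1f8008004c00200100008160703))) 
(.lf (nat_lit 2756010044) (dlOf (nat_lit 1) (nat_lit 0x800181d0c01)))) 
(.lf (nat_lit 2349169468) (dlOf (nat_lit 1) (nat_lit 0x150008002c002005400080fbc83))))) 
(.nd (nat_lit 10) (.nd (nat_lit 9) 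
(.lf (nat_lit 5100626044) (dlOf (nat_lit 1) (nat_lit 0x20008100c81))) 
(.lf (nat_lit 20277884) (dlOf (nat_lit 1) (nat_lit 0x880080004002000200089d5403)))) 
(.nd (nat_lit 7) (.nd (nat_lit 12) 
(.lf (nat_lit 8742524) (dlOf (nat_lit 2) (nat_lit 0xcc98400284b500007028513980))) 
(.lf (nat_lit 20280956) (dlOf (nat_lit 1) (nat_lit 0x8004000200089d9d82)))) 
(.lf (nat_lit 4295325692) (dlOf (nat_lit 1) (nat_lit 0x6001811a601)))))) (.nd (nat_lit 20) 
(.nd (nat_lit 10) (.nd (nat_lit 6) (.nd (nat_lit 7) 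
(.lf (nat_lit 21848124) (dlOf (nat_lit 5) (nat_lit 0x3200000003e0200300000001b810018000000050080150000000000400ec00200040008a70702))) 
(.lf (nat_lit 537747644) (dlOf (nat_lit 1) (nat_lit 0x20018155501)))) 
(.lf (nat_lit 36530556) (dlOf (nat_lit 1) (nat_lit 0x40019074e81)))) (.nd (nat_lit 21) 
(.lf (nat_lit 38626364) (dlOf (nat_lit 1) (nat_lit 0x20009132881))) 
(.lf (nat_lit 57500732) (dlOf (nat_lit 1) (nat_lit 0xb20009792881))))) (.nd (nat_lit 8) 
(.nd (nat_lit 9) (.lf (nat_lit 54353980) (dlOf (nat_lit 1) (nat_lit 0x20019650001))) 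
(.lf (nat_lit 8221244) (dlOf (nat_lit 1) (nat_lit 0x18008004000200080008518983)))) (.nd (nat_lit 6) 
(.lf (nat_lit 43868604) (dlOf (nat_lit 1) (nat_lit 0x1b000800a8002002800092a1083))) 
(.lf (nat_lit 8216956) (dlOf (nat_lit 1) (nat_lit 0x840018511001))))))) (.nd (nat_lit 29) 
(.nd (nat_lit 6) (.nd (nat_lit 7) (.nd (nat_lit 21) 
(.lf (nat_lit 3494207548) (dlOf (nat_lit 1) (nat_lit 0x800181d0c01))) 
(.lf (nat_lit 3492110396) (dlOf (nat_lit 1) (nat_lit 0x4004000200080a0c82)))) 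
(.lf (nat_lit 1410162876) (dlOf (nat_lit 1) (nat_lit 0x20018155501)))) (.nd (nat_lit 8) 
(.lf (nat_lit 1074094204) (dlOf (nat_lit 1) (nat_lit 0x20028090081))) (.nd (nat_lit 10) 
(.lf (nat_lit 3490539900) (dlOf (nat_lit 1) (nat_lit 0x400200020008004e82))) 
(.lf (nat_lit 3624234364) (dlOf (nat_lit 1) (nat_lit 0x8008000400200020008146c03)))))) 
(.nd (nat_lit 26) (.nd (nat_lit 27) (.nd (nat_lit 20) 
(.lf (nat_lit 5905932348) (dlOf (nat_lit 1) (nat_lit 0x1f8008004c00200100008160703))) 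
(.lf (nat_lit 1880449084) (dlOf (nat_lit 1) (nat_lit 0x8008000400200020008980003)))) 
(.nd (nat_lit 6) (.lf (nat_lit 3892666428) (dlOf (nat_lit 2) (nat_lit 0x34037000e2018180480))) 
(.lf (nat_lit 1745182844) (dlOf (nat_lit 2) (nat_lit 0x301c8002806c00028080008002000200080c0c82))))) 
(.nd (nat_lit 6) (.nd (nat_lit 7) 
(.lf (nat_lit 6376218940) (dlOf (nat_lit 1) (nat_lit 0x4400400960008090b82))) 
(.lf (nat_lit 2080727228) (dlOf (nat_lit 1) (nat_lit 0x200180c1701)))) 
(.lf (nat_lit 1946509436) (dlOf (nat_lit 1) (nat_lit 0x20028090081))))))))) (.nd (nat_lit 16) 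
(.nd (nat_lit 26) (.nd (nat_lit 30) (.nd (nat_lit 19) (.nd (nat_lit 5) (.nd (nat_lit 6) 
(.nd (nat_lit 8) (.nd (nat_lit 9) (.nd (nat_lit 20) 
(.lf (nat_lit 27582492) (dlOf (nat_lit 2) (nat_lit 0x2a9f00534018d00680))) 
(.lf (nat_lit 26533916) (dlOf (nat_lit 1) (nat_lit 0x280018c50101)))) 
(.lf (nat_lit 57991708) (dlOf (nat_lit 4) (nat_lit 0x30bda000c5ec0033c8200122f480138c0800197a4009a2040054004000800197a8702)))) 
(.nd (nat_lit 7) (.lf (nat_lit 20242716) (dlOf (nat_lit 1) (nat_lit 0x200089d0a81))) 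
(.lf (nat_lit 8709532) (dlOf (nat_lit 1) (nat_lit 0x60028513601))))) (.nd (nat_lit 8) 
(.nd (nat_lit 31) 
(.lf (nat_lit 268755036) (dlOf (nat_lit 5) (nat_lit 0x18002a00be014807480a0014404e0001508018202a00c2014809880a002d804e0001208012a02a008b0148033009c000220c01a805400c0029005a0138000401800c0008001400200160008120703))) 
(.lf (nat_lit 2416238684) (dlOf (nat_lit 1) (nat_lit 0x200180c1b01)))) (.nd (nat_lit 22) 
(.lf (nat_lit 671408476) (dlOf (nat_lit 3) (nat_lit 0x5c01000140050003582002000400110014000d408005c004003a0008188d02))) 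
(.lf (nat_lit 21291356) (dlOf (nat_lit 1) (nat_lit 0x200028a34e81)))))) (.nd (nat_lit 7) 
(.nd (nat_lit 8) (.nd (nat_lit 6) (.nd (nat_lit 20) 
(.lf (nat_lit 268755004) (dlOf (nat_lit 1) (nat_lit 0x1c00200120008120482))) 
(.lf (nat_lit 24436796) (dlOf (nat_lit 1) (nat_lit 0x8008000400200020008ba0c03)))) 
(.lf (nat_lit 8709756) (dlOf (nat_lit 3) (nat_lit 0xd0ce2006866e0034321801996f40001c100050c86002a5bd00000028513980)))) 
(.nd (nat_lit 9) 
(.lf (nat_lit 671408444) (dlOf (nat_lit 3) (nat_lit 0x10118001500800b008c00300100032005001a0000001302001b00080048002005e0008188503))) 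
(.lf (nat_lit 8714044) (dlOf (nat_lit 1) (nat_lit 0x40020002000851a102))))) (.nd (nat_lit 6) 
(.nd (nat_lit 20) (.lf (nat_lit 6442770620) (dlOf (nat_lit 1) (nat_lit 0x200181b0381))) 
(.lf (nat_lit 11854012) (dlOf (nat_lit 1) (nat_lit 0x400186c0381)))) 
(.lf (nat_lit 21291516) (dlOf (nat_lit 1) (nat_lit 0x20028a37801)))))) (.nd (nat_lit 24) 
(.nd (nat_lit 9) (.nd (nat_lit 5) (.nd (nat_lit 7) 
(.lf (nat_lit 42786844) (dlOf (nat_lit 6) (nat_lit 0x3d675000cb3a40006208004d9d400030020028d8900896750000bc1005d33a400022040058000000000200360029280101))) 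
(.lf (nat_lit 1892508) (dlOf (nat_lit 4) (nat_lit 0x1c3a2001a1c0001c0ca8004013c0008c1000183a2001c1c0001b0ca8003813c0008a1000203a2001c1c0001b0ca8002813c00070100004004000c0018150182)))) 
(.nd (nat_lit 7) (.lf (nat_lit 48029756) (dlOf (nat_lit 1) (nat_lit 0x1680019400001))) 
(.lf (nat_lit 1892540) (dlOf (nat_lit 1) (nat_lit 0x540028150381))))) (.nd (nat_lit 6) 
(.nd (nat_lit 11) (.lf (nat_lit 8188572) (dlOf (nat_lit 1) (nat_lit 0x8008001400200020008518c83))) 
(.lf (nat_lit 36498076) (dlOf (nat_lit 1) (nat_lit 0x20019075581)))) 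
(.lf (nat_lit 48030684) (dlOf (nat_lit 1) (nat_lit 0x2540019402881))))) (.nd (nat_lit 5) 
(.nd (nat_lit 20) (.nd (nat_lit 8) 
(.lf (nat_lit 23912476) (dlOf (nat_lit 1) (nat_lit 0x40008b80001))) 
(.lf (nat_lit 19723548) (dlOf (nat_lit 1) (nat_lit 0xc004000200189d9702)))) (.nd (nat_lit 21) 
(.lf (nat_lit 22863900) (dlOf (nat_lit 1) (nat_lit 0x400400020018b30482))) 
(.lf (nat_lit 24961052) (dlOf (nat_lit 1) (nat_lit 0x800400040008bd0a82))))) (.nd (nat_lit 6) 
(.nd (nat_lit 7) 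
(.lf (nat_lit 21815356) (dlOf (nat_lit 3) (nat_lit 0x241c8b00f061c00007c0801b722c007b8700050c378000dc180f00008073400200120008a70703))) 
(.lf (nat_lit 60613820) (dlOf (nat_lit 1) (nat_lit 0x1f000800ac002000400098c2c83)))) 
(.lf (nat_lit 57469308) (dlOf (nat_lit 1) (nat_lit 0x20029794e81))))))) (.nd (nat_lit 31) 
(.nd (nat_lit 27) (.nd (nat_lit 7) (.nd (nat_lit 20) (.nd (nat_lit 5) 
(.lf (nat_lit 1879367708) (dlOf (nat_lit 7) (nat_lit 0xf065000c8000000800800e01f0007c0db009d05a003601c0027c0dc002606d00a101980230000000402001981f0007c0db007c05a00ad01b407fc0000001f0a04b60000000681002f00000002c0800d8000000140404dc002019200080f0502))) 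
(.lf (nat_lit 1342496828) (dlOf (nat_lit 1) (nat_lit 0x20028040881)))) (.nd (nat_lit 19) 
(.lf (nat_lit 1343545372) (dlOf (nat_lit 5) (nat_lit 0x1701f8014d80400240540011d0200a207e0008b81003c04e802c023802880fc0000006007c0018290481))) 
(.lf (nat_lit 1346166812) (dlOf (nat_lit 9) (nat_lit 0x2859c000c036001e01a0002a030078102805b06a400942ce0054166008c0a1804784ec022827202340cd002206600020310008017a004407d002203a801101d001b00e6000c030002200d00110000000624801e828601f40cd000180200330b301d6850c0f9827607b4139041d066804f032c01200fa00bc075000300f803e006800380000002f16005c0cd0001681001106680005c0803183340002a04003040400181a7000e0b18002850c00102840016138001506c80858334003019400180c2000905b800602bc00300fa0010030000400a000044782a38008015c00216da0008e60103))))) 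
(.nd (nat_lit 28) (.lf (nat_lit 1074061468) (dlOf (nat_lit 2) (nat_lit 0xa02600017818090180))) 
(.lf (nat_lit 5637464220) (dlOf (nat_lit 1) (nat_lit 0x1000801a8002006000080f1283))))) 
(.nd (nat_lit 5) (.nd (nat_lit 28) (.nd (nat_lit 29) 
(.lf (nat_lit 1208279068) (dlOf (nat_lit 4) (nat_lit 0x5e0000001e81000401d006580e0011c04a00ea00800710000000ec28000800000070040158002002800080b0102))) 
(.lf (nat_lit 1745149980) (dlOf (nat_lit 2) (nat_lit 0xba004c0004a02000c00080b0101)))) 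
(.lf (nat_lit 1476714524) (dlOf (nat_lit 1) (nat_lit 0xe0028150481)))) 
(.lf (nat_lit 1208279100) (dlOf (nat_lit 8) (nat_lit 0xb80e40044a040050072002180200060390010b81000301c8008580800e80e40040e04010805200d400c00010058001fc1801e80e400000040068002005200080b0482))))) 
(.nd (nat_lit 5) (.nd (nat_lit 6) (.nd (nat_lit 19) (.nd (nat_lit 28) 
(.lf (nat_lit 3355762716) (dlOf (nat_lit 1) (nat_lit 0x1000280f0501))) 
(.lf (nat_lit 4161069084) (dlOf (nat_lit 2) (nat_lit 0x2802b000100c800714100010008007400200020008110483)))) 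
(.nd (nat_lit 7) 
(.lf (nat_lit 3492601884) (dlOf (nat_lit 3) (nat_lit 0x5887f00046e0404a83f8009e1e7004a0b28008981803a0008015000200e000080e0483))) 
(.lf (nat_lit 3491553436) (dlOf (nat_lit 2) (nat_lit 0x240558013023000a4116003c00a00017848090180))))) 
(.nd (nat_lit 8) 
(.lf (nat_lit 3494174812) (dlOf (nat_lit 2) (nat_lit 0x180000002804006c002004600081c1202))) 
(.lf (nat_lit 3221545308) (dlOf (nat_lit 1) (nat_lit 0x20008138b01))))) (.nd (nat_lit 8) 
(.nd (nat_lit 19) 
(.lf (nat_lit 4026851388) (dlOf (nat_lit 1) (nat_lit 0x100080008002000400080a0c83))) 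
(.lf (nat_lit 3492601916) (dlOf (nat_lit 1) (nat_lit 0x4002000400080e0d82)))) 
(.lf (nat_lit 3624201532) (dlOf (nat_lit 1) (nat_lit 0x400200040008146902))))))) (.nd (nat_lit 28) 
(.nd (nat_lit 6) (.nd (nat_lit 7) (.nd (nat_lit 5) (.nd (nat_lit 19) 
(.lf (nat_lit 68476956) (dlOf (nat_lit 1) (nat_lit 0x3e0028580a01))) 
(.lf (nat_lit 2754404380) (dlOf (nat_lit 3) (nat_lit 0x5888440046e0404a8422009e1f9004a0b48008981803a0008015000200e000080e0483)))) 
(.nd (nat_lit 19) 
(.lf (nat_lit 3288653884) (dlOf (nat_lit 1) (nat_lit 0x100080008002000400080a0c83))) 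
(.nd (nat_lit 21) 
(.lf (nat_lit 4362919996) (dlOf (nat_lit 2) (nat_lit 0xb800000000040088002003c00081a0002))) 
(.lf (nat_lit 2754404412) (dlOf (nat_lit 1) (nat_lit 0x4002000400080e0d82)))))) (.nd (nat_lit 29) 
(.nd (nat_lit 27) (.lf (nat_lit 4362920124) (dlOf (nat_lit 1) (nat_lit 0x20600181a0381))) 
(.lf (nat_lit 202170556) (dlOf (nat_lit 1) (nat_lit 0x118002006000081b0382)))) (.nd (nat_lit 5) 
(.lf (nat_lit 2753355932) (dlOf (nat_lit 2) (nat_lit 0x1c822400501100002f0400120028090181))) 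
(.lf (nat_lit 2751784892) (dlOf (nat_lit 2) (nat_lit 0x43f0000220200020028004381)))))) 
(.nd (nat_lit 8) (.nd (nat_lit 7) (.nd (nat_lit 5) (.nd (nat_lit 22) 
(.lf (nat_lit 2349129820) (dlOf (nat_lit 2) (nat_lit 0x1c02a000138180c1b00))) 
(.lf (nat_lit 2755977308) (dlOf (nat_lit 2) (nat_lit 0x180000005404006c002004600081c1202)))) 
(.lf (nat_lit 4362920060) (dlOf (nat_lit 2) (nat_lit 0x18016801400a600a00470011a0381a0080)))) 
(.nd (nat_lit 9) 
(.lf (nat_lit 4362920156) (dlOf (nat_lit 2) (nat_lit 0x200000049404007c002003000081a0482))) 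
(.lf (nat_lit 2754932444) (dlOf (nat_lit 2) (nat_lit 0x1505900001c0801180080160002008200080f7383))))) 
(.nd (nat_lit 27) (.nd (nat_lit 19) 
(.lf (nat_lit 1678041436) (dlOf (nat_lit 2) (nat_lit 0x7028800074080060008002c00200080008158d03))) 
(.lf (nat_lit 4362920284) (dlOf (nat_lit 2) (nat_lit 0x13f009000018080090008018800200a400081a0683)))) 
(.nd (nat_lit 7) (.lf (nat_lit 3959742812) (dlOf (nat_lit 2) (nat_lit 0xc00e00010018138d00))) 
(.lf (nat_lit 2886001628) (dlOf (nat_lit 1) (nat_lit 0x13000400540008142882))))))) (.nd (nat_lit 5) 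
(.nd (nat_lit 27) (.nd (nat_lit 7) (.nd (nat_lit 19) (.nd (nat_lit 32) 
(.lf (nat_lit 872734748) (dlOf (nat_lit 2) (nat_lit 0xba004c0004a02000c00080b0101))) 
(.lf (nat_lit 5167702044) (dlOf (nat_lit 1) (nat_lit 0x8008000400200040008120a83)))) 
(.lf (nat_lit 3557613596) (dlOf (nat_lit 1) (nat_lit 0x10008002400200080008270483)))) 
(.nd (nat_lit 32) (.lf (nat_lit 1946476700) (dlOf (nat_lit 2) (nat_lit 0xa02600017818090180))) 
(.lf (nat_lit 6241443996) (dlOf (nat_lit 1) (nat_lit 0x1000801a8002006000080f1283))))) 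
(.nd (nat_lit 6) (.nd (nat_lit 20) (.nd (nat_lit 30) 
(.lf (nat_lit 3154436124) (dlOf (nat_lit 3) (nat_lit 0x1c0000004602003c02400210110000001001a000800f800200080008190503))) 
(.lf (nat_lit 2080694300) (dlOf (nat_lit 4) (nat_lit 0x5e0000001e81000401d006580e0011c04a00ea00800710000000ec28000800000070040158002002800080b0102)))) 
(.lf (nat_lit 471130140) (dlOf (nat_lit 1) (nat_lit 0x80080014002000c0008270483)))) 
(.nd (nat_lit 7) 
(.lf (nat_lit 4228702556) (dlOf (nat_lit 2) (nat_lit 0x13f008800018080090008018800200a400081a0683))) 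
(.lf (nat_lit 471654620) (dlOf (nat_lit 4) (nat_lit 0x814e000110100130a70000840800505380003c04005400200420008370582)))))) 
(.nd (nat_lit 6) (.nd (nat_lit 7) (.nd (nat_lit 21) (.nd (nat_lit 29) 
(.lf (nat_lit 470081596) (dlOf (nat_lit 1) (nat_lit 0x400400020018040782))) 
(.lf (nat_lit 2080694332) (dlOf (nat_lit 8) (nat_lit 0xb80e40044a0400500720021e0200060390010d81000301c8008680800e80e40041004010805200d400c00010058001fc1801e80e400000040068002005200080b0482)))) 
(.lf (nat_lit 1009049660) (dlOf (nat_lit 1) (nat_lit 0x120019020481)))) (.nd (nat_lit 10) 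
(.lf (nat_lit 335863996) (dlOf (nat_lit 1) (nat_lit 0x80080004002000200080c1a03))) 
(.lf (nat_lit 473752764) (dlOf (nat_lit 1) (nat_lit 0xb00008fa2c81))))) (.nd (nat_lit 7) 
(.nd (nat_lit 20) 
(.lf (nat_lit 4228702332) (dlOf (nat_lit 2) (nat_lit 0x18014c014009800a0040001260381a0080))) 
(.lf (nat_lit 471654524) (dlOf (nat_lit 2) (nat_lit 0x50a70003f0080010008000800200260008370483)))) 
(.lf (nat_lit 1543823612) (dlOf (nat_lit 2) (nat_lit 0x1a02400000018187100)))))))) 
(.nd (nat_lit 28) (.nd (nat_lit 26) (.nd (nat_lit 20) (.nd (nat_lit 25) (.nd (nat_lit 27) 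
(.nd (nat_lit 6) (.nd (nat_lit 29) (.nd (nat_lit 5) 
(.lf (nat_lit 3221610524) (dlOf (nat_lit 2) (nat_lit 0xc002802bf604002800200020008160502))) 
(.lf (nat_lit 6442836028) (dlOf (nat_lit 1) (nat_lit 0xa00080004002000200081d0c03)))) 
(.nd (nat_lit 30) 
(.lf (nat_lit 537255964) (dlOf (nat_lit 2) (nat_lit 0x28098000d002000a0028070581))) 
(.lf (nat_lit 5905965084) (dlOf (nat_lit 1) (nat_lit 0x8008000400200020008170903))))) 
(.nd (nat_lit 7) (.lf (nat_lit 21356892) (dlOf (nat_lit 1) (nat_lit 0x10008000c00200100008a34e83))) 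
(.lf (nat_lit 19788508) (dlOf (nat_lit 1) (nat_lit 0x4002000200089d8c82))))) (.nd (nat_lit 7) 
(.nd (nat_lit 5) (.lf (nat_lit 2819481628) (dlOf (nat_lit 1) (nat_lit 0x10002000200082b0602))) 
(.lf (nat_lit 1208344700) (dlOf (nat_lit 1) (nat_lit 0x600080c0c81)))) (.nd (nat_lit 8) 
(.nd (nat_lit 30) 
(.lf (nat_lit 134602908) (dlOf (nat_lit 4) (nat_lit 0x15e04a002a0178000e01009c80ec031806c01840170000b0300d00000000000807380080638002011a0008090183))) 
(.lf (nat_lit 1208344732) (dlOf (nat_lit 1) (nat_lit 0x80080004002000200080c1283)))) 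
(.lf (nat_lit 134603164) (dlOf (nat_lit 1) (nat_lit 0x6c00200060008090782)))))) (.nd (nat_lit 5) 
(.nd (nat_lit 9) (.nd (nat_lit 6) 
(.lf (nat_lit 44425244) (dlOf (nat_lit 1) (nat_lit 0x400400020009310282))) 
(.lf (nat_lit 38134876) (dlOf (nat_lit 1) (nat_lit 0x800200020009132902)))) (.nd (nat_lit 7) 
(.lf (nat_lit 51243612) (dlOf (nat_lit 2) (nat_lit 0x9826000ac11001c5348000b8180098008006400200280009515303))) 
(.lf (nat_lit 38134748) (dlOf (nat_lit 1) (nat_lit 0x58800201c60009132882))))) (.nd (nat_lit 9) 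
(.nd (nat_lit 10) (.lf (nat_lit 46522428) (dlOf (nat_lit 1) (nat_lit 0x8008000400200060009380003))) 
(.lf (nat_lit 36561980) (dlOf (nat_lit 1) (nat_lit 0x20009072881)))) 
(.lf (nat_lit 51243580) (dlOf (nat_lit 3) (nat_lit 0x4a680001201000253400008408016800800ac00200a80009515203)))))) 
(.nd (nat_lit 24) (.nd (nat_lit 19) (.nd (nat_lit 5) 
(.lf (nat_lit 9822300) (dlOf (nat_lit 10) (nat_lit 0x2b48a001ba430002d20800168fc005b3be00039dc0001c930000d038005690c002f48200033040005a4300019010002d218000c40800f691400a3486000da410003d1f800367700003e14003f48a0033a430000f020008d228006e90c000b3b80001d060003a450002d2180007010002e9140003604005800200080008580702))) 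
(.nd (nat_lit 7) (.lf (nat_lit 37085244) (dlOf (nat_lit 1) (nat_lit 0xc00080040002001c0009090603))) 
(.lf (nat_lit 11919548) (dlOf (nat_lit 1) (nat_lit 0x200286c0381))))) (.nd (nat_lit 21) 
(.nd (nat_lit 23) (.lf (nat_lit 39706652) (dlOf (nat_lit 2) (nat_lit 0x8422000208191d0100))) 
(.lf (nat_lit 14540828) (dlOf (nat_lit 1) (nat_lit 0x1980080014002007c0008760503)))) 
(.nd (nat_lit 7) (.lf (nat_lit 12443932) (dlOf (nat_lit 1) (nat_lit 0x4004000200086c0482))) 
(.lf (nat_lit 8254108) (dlOf (nat_lit 1) (nat_lit 0x400200020008518c82)))))) (.nd (nat_lit 5) 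
(.nd (nat_lit 7) (.nd (nat_lit 22) 
(.lf (nat_lit 20308252) (dlOf (nat_lit 1) (nat_lit 0x10004000200089d0a82))) 
(.lf (nat_lit 58056988) (dlOf (nat_lit 1) (nat_lit 0x80080004002000200097b8003)))) 
(.lf (nat_lit 20832412) (dlOf (nat_lit 1) (nat_lit 0x8008000c002000400089e2b83)))) (.nd (nat_lit 6) 
(.nd (nat_lit 22) (.lf (nat_lit 51765308) (dlOf (nat_lit 1) (nat_lit 0x400400020009510002))) 
(.lf (nat_lit 30793788) (dlOf (nat_lit 2) (nat_lit 0x673e000180200060008e50c81)))) 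
(.lf (nat_lit 20310652) (dlOf (nat_lit 1) (nat_lit 0x400289d5401))))))) (.nd (nat_lit 31) 
(.nd (nat_lit 7) (.nd (nat_lit 6) (.nd (nat_lit 9) (.nd (nat_lit 29) 
(.lf (nat_lit 4362461212) (dlOf (nat_lit 1) (nat_lit 0x600008000400201040008090003))) 
(.lf (nat_lit 1678106652) (dlOf (nat_lit 2) (nat_lit 0x300a6015130200100028190501)))) 
(.lf (nat_lit 201712156) (dlOf (nat_lit 1) (nat_lit 0x8e400200020008090d82)))) (.nd (nat_lit 5) 
(.lf (nat_lit 4496679004) (dlOf (nat_lit 1) (nat_lit 0x20028120701))) 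
(.lf (nat_lit 604364924) (dlOf (nat_lit 3) (nat_lit 0x3000b0003f0080168058001f0040010002000400081a0482))))) 
(.nd (nat_lit 5) (.nd (nat_lit 6) (.nd (nat_lit 27) 
(.lf (nat_lit 4362461340) (dlOf (nat_lit 2) (nat_lit 0x202b00000018090180))) 
(.lf (nat_lit 201711772) (dlOf (nat_lit 4) (nat_lit 0x15e04a002a0178000e01009c80ec031806c01840170000b0300d00000000000807380080638002011a0008090183)))) 
(.lf (nat_lit 604365020) (dlOf (nat_lit 3) (nat_lit 0x500b00014c0801800000006e040108002000c00081a0582)))) 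
(.nd (nat_lit 10) 
(.lf (nat_lit 4362461372) (dlOf (nat_lit 2) (nat_lit 0x3405a000120200040018090381))) 
(.lf (nat_lit 69067964) (dlOf (nat_lit 1) (nat_lit 0x8002000400088a2c82)))))) (.nd (nat_lit 5) 
(.nd (nat_lit 6) (.nd (nat_lit 7) (.nd (nat_lit 27) 
(.lf (nat_lit 6509944860) (dlOf (nat_lit 1) (nat_lit 0x8008000400200020008170903))) 
(.lf (nat_lit 3959808028) (dlOf (nat_lit 2) (nat_lit 0xc00280292e04002800200020008160502)))) 
(.lf (nat_lit 2753421468) (dlOf (nat_lit 2) (nat_lit 0x60448000b80800280080028002002c0008090183)))) 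
(.nd (nat_lit 7) (.lf (nat_lit 2886068060) (dlOf (nat_lit 1) (nat_lit 0xa0018143f81))) 
(.lf (nat_lit 2349195484) (dlOf (nat_lit 1) (nat_lit 0x90004000c00081b0482))))) (.nd (nat_lit 27) 
(.nd (nat_lit 6) (.lf (nat_lit 3288719420) (dlOf (nat_lit 1) (nat_lit 0x10004000c00080d0b82))) 
(.lf (nat_lit 2754996604) (dlOf (nat_lit 1) (nat_lit 0x4002000200080f4e82)))) (.nd (nat_lit 7) 
(.lf (nat_lit 2349195388) (dlOf (nat_lit 2) (nat_lit 0xc05400080280011a0281b0080))) 
(.lf (nat_lit 2886067964) (dlOf (nat_lit 2) (nat_lit 0xd00380002c0201860028143b81)))))))) 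
(.nd (nat_lit 5) (.nd (nat_lit 6) (.nd (nat_lit 26) (.nd (nat_lit 7) (.nd (nat_lit 22) 
(.nd (nat_lit 27) 
(.lf (nat_lit 805691420) (dlOf (nat_lit 2) (nat_lit 0x300a6016820200100028190501))) 
(.lf (nat_lit 5234876444) (dlOf (nat_lit 3) (nat_lit 0xc034001e602000201a000f0818120a80)))) 
(.lf (nat_lit 1346756636) (dlOf (nat_lit 10) (nat_lit 0xd704b006f821403640ea01aa0730002504004604b000124080280258015810a0090075005f03980010c2000c821400240ea0004204042209601d804280fe01d4087c0e601e001f0002085002104e002f82340064118016a07d007303e0000fc280208270025c11a0004085012a03e803181f003180ea003c0300001e87004704b002201cc0007408022c12c008e08d007703e801101f001f80e6000380a00180029000101)))) 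
(.nd (nat_lit 8) 
(.lf (nat_lit 1476780188) (dlOf (nat_lit 3) (nat_lit 0x1002e001ab020050017000c48181a0480))) 
(.lf (nat_lit 3493716380) (dlOf (nat_lit 1) (nat_lit 0x200081b0781))))) (.nd (nat_lit 31) 
(.nd (nat_lit 7) (.nd (nat_lit 27) 
(.lf (nat_lit 1409671196) (dlOf (nat_lit 2) (nat_lit 0x28098000c502000a0028070581))) 
(.lf (nat_lit 5838856220) (dlOf (nat_lit 1) (nat_lit 0x2d8004011000181d0a02)))) 
(.lf (nat_lit 2080759964) (dlOf (nat_lit 1) (nat_lit 0x80080004002000200080c1283)))) 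
(.nd (nat_lit 7) (.nd (nat_lit 19) 
(.lf (nat_lit 2617630748) (dlOf (nat_lit 2) (nat_lit 0x150168008f0080098008004c00200480008110483))) 
(.lf (nat_lit 3557679132) (dlOf (nat_lit 1) (nat_lit 0x10002000200082b0602)))) 
(.lf (nat_lit 4228243612) (dlOf (nat_lit 2) (nat_lit 0x202a00000018090180)))))) (.nd (nat_lit 8) 
(.nd (nat_lit 21) (.nd (nat_lit 7) (.nd (nat_lit 26) 
(.lf (nat_lit 5637529692) (dlOf (nat_lit 1) (nat_lit 0x40018100701))) 
(.lf (nat_lit 6241509468) (dlOf (nat_lit 1) (nat_lit 0x40018100701)))) 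
(.lf (nat_lit 1476780252) (dlOf (nat_lit 3) (nat_lit 0x500b80014c0801800000006e040108002000c00081a0582)))) 
(.nd (nat_lit 11) (.lf (nat_lit 1881530460) (dlOf (nat_lit 1) (nat_lit 0x20028f40881))) 
(.lf (nat_lit 3492673628) (dlOf (nat_lit 1) (nat_lit 0x600080fa781))))) (.nd (nat_lit 7) 
(.nd (nat_lit 29) (.lf (nat_lit 1342562652) (dlOf (nat_lit 1) (nat_lit 0x400400020008068b02))) 
(.lf (nat_lit 1879433564) (dlOf (nat_lit 1) (nat_lit 0x54002000c0008150902)))) 
(.lf (nat_lit 472769500) (dlOf (nat_lit 1) (nat_lit 0x400400020008b02882)))))) (.nd (nat_lit 26) 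
(.nd (nat_lit 19) (.nd (nat_lit 6) (.nd (nat_lit 29) (.nd (nat_lit 27) 
(.lf (nat_lit 4563787836) (dlOf (nat_lit 1) (nat_lit 0x4200080e1681))) 
(.lf (nat_lit 4698005564) (dlOf (nat_lit 1) (nat_lit 0x4200080e1681)))) (.nd (nat_lit 21) 
(.lf (nat_lit 4026916924) (dlOf (nat_lit 1) (nat_lit 0x10004000c00080d0b82))) 
(.lf (nat_lit 1881530428) (dlOf (nat_lit 1) (nat_lit 0x4004001c0008f40602))))) (.nd (nat_lit 7) 
(.lf (nat_lit 3624267132) (dlOf (nat_lit 1) (nat_lit 0x400200020008146c02))) 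
(.lf (nat_lit 1342562556) (dlOf (nat_lit 1) (nat_lit 0x200028067101))))) (.nd (nat_lit 8) 
(.nd (nat_lit 10) (.lf (nat_lit 3492669500) (dlOf (nat_lit 1) (nat_lit 0x1200280f4701))) 
(.lf (nat_lit 1345184828) (dlOf (nat_lit 1) (nat_lit 0x400400020008b02882)))) (.nd (nat_lit 6) 
(.lf (nat_lit 1346232764) (dlOf (nat_lit 1) (nat_lit 0x400400040008e81082))) 
(.lf (nat_lit 3490572668) (dlOf (nat_lit 1) (nat_lit 0x800200020008004e82)))))) (.nd (nat_lit 6) 
(.nd (nat_lit 7) (.nd (nat_lit 8) 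
(.lf (nat_lit 5838856252) (dlOf (nat_lit 1) (nat_lit 0xa00080004002000200081d0c03))) 
(.nd (nat_lit 10) (.lf (nat_lit 6376251708) (dlOf (nat_lit 1) (nat_lit 0x20008090b81))) 
(.lf (nat_lit 472769852) (dlOf (nat_lit 1) (nat_lit 0x5000200120008b03282))))) (.nd (nat_lit 10) 
(.lf (nat_lit 2080759996) (dlOf (nat_lit 1) (nat_lit 0x17c004000a00080c1702))) 
(.lf (nat_lit 1009116348) (dlOf (nat_lit 11) (nat_lit 0x7c0ea0004402003e0750002181002707100008360008c0ea0003e0600480750001e010004071000201d4000760800881c40044075000b0398000dc18001038800100ea000360400280e2002e03a8000d41000201d4000680400981c4005a0d8002703a8000001802f8008004800200400009082c83))))) 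
(.nd (nat_lit 9) (.nd (nat_lit 19) 
(.lf (nat_lit 2483413116) (dlOf (nat_lit 2) (nat_lit 0xc0540008028001260281b0080))) 
(.lf (nat_lit 4094550140) (dlOf (nat_lit 1) (nat_lit 0x400200020008050282)))) 
(.lf (nat_lit 6375728764) (dlOf (nat_lit 1) (nat_lit 0x400200020008003982)))))))))))

end

end Pool.Agent.Lib.MP_5854e1_co.Cz

namespace Pool.Agent.Lib.MP_5854e1_co.Cz

noncomputable section

noncomputable def tz108 : DT := (.nd (nat_lit 5) (.nd (nat_lit 15) (.nd (nat_lit 6) 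
(.nd (nat_lit 18) (.nd (nat_lit 7) (.nd (nat_lit 16) (.nd (nat_lit 26) (.nd (nat_lit 9) 
(.nd (nat_lit 20) (.nd (nat_lit 11) (.nd (nat_lit 19) 
(.lf (nat_lit 23093253) (dlOf (nat_lit 2) (nat_lit 0x12adc00653818b50000))) 
(.lf (nat_lit 3624427525) (dlOf (nat_lit 1) (nat_lit 0x3200281a0001)))) 
(.lf (nat_lit 4429215749) (dlOf (nat_lit 1) (nat_lit 0x180020008000800a602)))) (.nd (nat_lit 22) 
(.lf (nat_lit 59793413) (dlOf (nat_lit 1) (nat_lit 0x280019830001))) 
(.lf (nat_lit 22044677) (dlOf (nat_lit 1) (nat_lit 0x20008a90001))))) (.nd (nat_lit 10) 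
(.nd (nat_lit 8) (.lf (nat_lit 27141) (dlOf (nat_lit 1) (nat_lit 0x400400020008005002))) 
(.lf (nat_lit 19952389) (dlOf (nat_lit 1) (nat_lit 0x200189d8f81)))) (.nd (nat_lit 11) 
(.lf (nat_lit 4026558213) (dlOf (nat_lit 1) (nat_lit 0x140018003b81))) 
(.lf (nat_lit 2952818437) (dlOf (nat_lit 1) (nat_lit 0x5b8008004800200160008007483)))))) 
(.nd (nat_lit 27) (.nd (nat_lit 8) (.nd (nat_lit 9) 
(.lf (nat_lit 4362625029) (dlOf (nat_lit 3) (nat_lit 0x16041006738100080198032c8080078008001c002003400080b0003))) 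
(.lf (nat_lit 4898974213) (dlOf (nat_lit 1) (nat_lit 0x80018005001)))) 
(.lf (nat_lit 604011781) (dlOf (nat_lit 1) (nat_lit 0x2002800c601)))) (.nd (nat_lit 22) 
(.nd (nat_lit 28) (.lf (nat_lit 2886230021) (dlOf (nat_lit 1) (nat_lit 0x3200281a0001))) 
(.lf (nat_lit 4228407301) (dlOf (nat_lit 3) (nat_lit 0x1603a0039f010008019001c14080078008001c002003400080b0003)))) 
(.lf (nat_lit 474505221) (dlOf (nat_lit 1) (nat_lit 0x140019190001)))))) (.nd (nat_lit 20) 
(.nd (nat_lit 29) (.nd (nat_lit 30) (.nd (nat_lit 22) 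
(.lf (nat_lit 6509649925) (dlOf (nat_lit 1) (nat_lit 0x1400080b0001))) 
(.lf (nat_lit 12673029) (dlOf (nat_lit 1) (nat_lit 0x200286d0001)))) (.nd (nat_lit 27) 
(.lf (nat_lit 3221315589) (dlOf (nat_lit 2) (nat_lit 0x800002f90040010002001c0008090002))) 
(.lf (nat_lit 1208049669) (dlOf (nat_lit 2) (nat_lit 0x42029003f8018090000))))) (.nd (nat_lit 8) 
(.nd (nat_lit 19) 
(.lf (nat_lit 5905670149) (dlOf (nat_lit 2) (nat_lit 0x80000000002000200180b0001))) 
(.lf (nat_lit 1009344517) (dlOf (nat_lit 1) (nat_lit 0x400200020009100002)))) (.nd (nat_lit 9) 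
(.lf (nat_lit 1610704133) (dlOf (nat_lit 1) (nat_lit 0x20018092f81))) 
(.lf (nat_lit 3087099653) (dlOf (nat_lit 1) (nat_lit 0x60028143b81)))))) (.nd (nat_lit 26) 
(.nd (nat_lit 19) (.nd (nat_lit 23) 
(.lf (nat_lit 3490799621) (dlOf (nat_lit 3) (nat_lit 0x42b00022157000960200020ab800000080020008002c002008a0008020003))) 
(.lf (nat_lit 9527301) (dlOf (nat_lit 11) (nat_lit 0x695000013e800041f3c017a60c00092a000027d000013e7802f341800225400004fa000107cf00013ac002f14200032544001d290000e7d000063ac002f1020000a544000529000047d000013ac002ef020000a544000529000047d000013ac002ed820000a544000529000027d000023ac002ea820003a544001d29000107d000083ac002ea4200009f4001688040010fa000b3e02002a0028560001)))) 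
(.lf (nat_lit 35217413) (dlOf (nat_lit 1) (nat_lit 0x8008000400200020009000003)))) 
(.nd (nat_lit 29) 
(.lf (nat_lit 68247557) (dlOf (nat_lit 1) (nat_lit 0x28008000c002000200084b0003))) 
(.lf (nat_lit 2752602117) (dlOf (nat_lit 3) (nat_lit 0x42ba002215c000de8200020ae000000080020008002c002008a0008020003))))))) 
(.nd (nat_lit 11) (.nd (nat_lit 8) (.nd (nat_lit 9) (.nd (nat_lit 16) 
(.lf (nat_lit 23617669) (dlOf (nat_lit 1) (nat_lit 0x8008000400200500008b80103))) (.nd (nat_lit 19) 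
(.lf (nat_lit 44130437) (dlOf (nat_lit 1) (nat_lit 0x4004000200092d0e02))) 
(.lf (nat_lit 23683205) (dlOf (nat_lit 1) (nat_lit 0x400200020008b80102))))) (.nd (nat_lit 26) 
(.nd (nat_lit 29) (.lf (nat_lit 5502953093) (dlOf (nat_lit 1) (nat_lit 0x19400200080008003a02))) 
(.lf (nat_lit 4966082181) (dlOf (nat_lit 1) (nat_lit 0x100018003a01)))) 
(.lf (nat_lit 6106932869) (dlOf (nat_lit 1) (nat_lit 0x1860018003a01))))) (.nd (nat_lit 26) 
(.nd (nat_lit 10) (.lf (nat_lit 402743685) (dlOf (nat_lit 1) (nat_lit 0x400400020008091002))) 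
(.nd (nat_lit 16) (.lf (nat_lit 8414597) (dlOf (nat_lit 1) (nat_lit 0x400200020008513602))) 
(.lf (nat_lit 8480133) (dlOf (nat_lit 1) (nat_lit 0x400200020008513602))))) (.nd (nat_lit 9) 
(.nd (nat_lit 10) 
(.lf (nat_lit 2080465285) (dlOf (nat_lit 1) (nat_lit 0x18008001400200060008091003))) 
(.lf (nat_lit 6241215877) (dlOf (nat_lit 5) (nat_lit 0x1200a0008001000540060016106001c014000e00200055010008804c00440040009d04002601300240010002381000500080010002000e0008053603)))) 
(.nd (nat_lit 27) (.lf (nat_lit 4362168197) (dlOf (nat_lit 1) (nat_lit 0x560018004181))) 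
(.lf (nat_lit 469854085) (dlOf (nat_lit 1) (nat_lit 0x440018004181))))))) (.nd (nat_lit 10) 
(.nd (nat_lit 30) (.nd (nat_lit 9) (.nd (nat_lit 16) 
(.lf (nat_lit 37251461) (dlOf (nat_lit 1) (nat_lit 0xe00090d4e81))) 
(.lf (nat_lit 134310277) (dlOf (nat_lit 1) (nat_lit 0x10008021800200020008004e83)))) 
(.lf (nat_lit 19950469) (dlOf (nat_lit 1) (nat_lit 0x4002000200089d5c02)))) (.nd (nat_lit 26) 
(.lf (nat_lit 5368736133) (dlOf (nat_lit 1) (nat_lit 0x8008000400200020008004e83))) 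
(.nd (nat_lit 27) (.lf (nat_lit 3288361349) (dlOf (nat_lit 1) (nat_lit 0x400200020008004e82))) 
(.lf (nat_lit 4227885445) (dlOf (nat_lit 1) (nat_lit 0x10008000c00200060008004e83)))))) 
(.nd (nat_lit 31) (.nd (nat_lit 8) (.nd (nat_lit 12) 
(.lf (nat_lit 1879075973) (dlOf (nat_lit 1) (nat_lit 0xa0028006101))) 
(.lf (nat_lit 604011653) (dlOf (nat_lit 1) (nat_lit 0x6001800c181)))) 
(.lf (nat_lit 97669) (dlOf (nat_lit 1) (nat_lit 0x18004000c000800c902)))) (.nd (nat_lit 16) 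
(.nd (nat_lit 20) 
(.lf (nat_lit 2483055749) (dlOf (nat_lit 2) (nat_lit 0xb01a0000ac0800b0008000800200080008006103))) 
(.lf (nat_lit 2754636933) (dlOf (nat_lit 1) (nat_lit 0x80080004002000200080f6103)))) 
(.lf (nat_lit 3825298565) (dlOf (nat_lit 1) (nat_lit 0x28008000400200020008146103)))))))) 
(.nd (nat_lit 28) (.nd (nat_lit 20) (.nd (nat_lit 16) (.nd (nat_lit 27) (.nd (nat_lit 19) 
(.nd (nat_lit 26) 
(.lf (nat_lit 537157637) (dlOf (nat_lit 3) (nat_lit 0xa05f00c2481003102f8061080803080080028002008c0008030003))) 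
(.lf (nat_lit 3825491973) (dlOf (nat_lit 6) (nat_lit 0x8c01601bc302004200b00de10100050058016800003776080014016005a00000ddc820009005806d3408010000800c800200440008170003)))) 
(.nd (nat_lit 7) 
(.lf (nat_lit 11296773) (dlOf (nat_lit 3) (nat_lit 0x1e55f006a001000f2b08032180800600080030002000c0008680003))) 
(.lf (nat_lit 53241221) (dlOf (nat_lit 1) (nat_lit 0x820029573601))))) (.nd (nat_lit 30) 
(.nd (nat_lit 8) (.lf (nat_lit 671375365) (dlOf (nat_lit 1) (nat_lit 0x8008000800200020008170003))) 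
(.lf (nat_lit 6644064517) (dlOf (nat_lit 1) (nat_lit 0x3400180c4801)))) (.nd (nat_lit 7) 
(.lf (nat_lit 3355729925) (dlOf (nat_lit 1) (nat_lit 0x4002005800080e0002))) 
(.lf (nat_lit 1208246405) (dlOf (nat_lit 1) (nat_lit 0x1600080a2281)))))) (.nd (nat_lit 7) 
(.nd (nat_lit 32) (.nd (nat_lit 10) 
(.lf (nat_lit 2449413) (dlOf (nat_lit 3) (nat_lit 0x48d44002400000c1304002d7430053d818160000))) 
(.lf (nat_lit 38102021) (dlOf (nat_lit 1) (nat_lit 0x800200020009132882)))) (.nd (nat_lit 26) 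
(.lf (nat_lit 6442803205) (dlOf (nat_lit 2) (nat_lit 0x4004000000040040004000c00081c0002))) 
(.lf (nat_lit 5570387973) (dlOf (nat_lit 1) (nat_lit 0x39c002015a0008120002))))) (.nd (nat_lit 8) 
(.lf (nat_lit 50685061) (dlOf (nat_lit 1) (nat_lit 0x3f4004023e00094c2b02))) 
(.lf (nat_lit 69560709) (dlOf (nat_lit 1) (nat_lit 0x140018b44e81)))))) (.nd (nat_lit 22) 
(.nd (nat_lit 16) (.nd (nat_lit 7) (.nd (nat_lit 10) 
(.lf (nat_lit 18112517) (dlOf (nat_lit 1) (nat_lit 0x118008000400200380008910003))) 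
(.lf (nat_lit 54291461) (dlOf (nat_lit 2) (nat_lit 0x4a8c000530200160029655f81)))) 
(.lf (nat_lit 54291333) (dlOf (nat_lit 1) (nat_lit 0x11800801cc00202bc0009655c03)))) 
(.nd (nat_lit 7) (.nd (nat_lit 23) 
(.lf (nat_lit 18702341) (dlOf (nat_lit 1) (nat_lit 0x20018960001))) 
(.lf (nat_lit 10313733) (dlOf (nat_lit 1) (nat_lit 0x200185d0001)))) 
(.lf (nat_lit 11886725) (dlOf (nat_lit 1) (nat_lit 0x8008000c002000200086c0103))))) 
(.nd (nat_lit 10) (.nd (nat_lit 8) (.nd (nat_lit 21) 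
(.lf (nat_lit 30695429) (dlOf (nat_lit 1) (nat_lit 0x20028e40001))) 
(.lf (nat_lit 24403973) (dlOf (nat_lit 2) (nat_lit 0x12d160067e0200020018b90001)))) 
(.lf (nat_lit 8218885) (dlOf (nat_lit 2) (nat_lit 0x547000038c080008008000400200020008514b83)))) 
(.nd (nat_lit 7) (.lf (nat_lit 8158469) (dlOf (nat_lit 1) (nat_lit 0x40020002000851c602))) 
(.nd (nat_lit 9) (.lf (nat_lit 8152453) (dlOf (nat_lit 1) (nat_lit 0x400200020008513602))) 
(.lf (nat_lit 8222597) (dlOf (nat_lit 1) (nat_lit 0x40020002000851a302)))))))) (.nd (nat_lit 27) 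
(.nd (nat_lit 31) (.nd (nat_lit 32) (.nd (nat_lit 20) (.nd (nat_lit 26) 
(.lf (nat_lit 1342464005) (dlOf (nat_lit 2) (nat_lit 0xe1d100070e2806d341000880080090002009a0008030003))) 
(.lf (nat_lit 1409572869) (dlOf (nat_lit 3) (nat_lit 0xa05f00de101003102f806eec0803080080028002008c0008030003)))) 
(.lf (nat_lit 1343512581) (dlOf (nat_lit 2) (nat_lit 0x208e00534018280000)))) (.nd (nat_lit 16) 
(.lf (nat_lit 4563689477) (dlOf (nat_lit 2) (nat_lit 0x4068018ce02004c00280c0001))) 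
(.lf (nat_lit 6174367749) (dlOf (nat_lit 1) (nat_lit 0x39c002015a0008120002))))) (.nd (nat_lit 7) 
(.nd (nat_lit 9) 
(.lf (nat_lit 2953076741) (dlOf (nat_lit 3) (nat_lit 0x100500183204001c02000b0702000600080f0001))) 
(.lf (nat_lit 3491521029) (dlOf (nat_lit 2) (nat_lit 0x15045800000080150008001c002001c0008090d83)))) 
(.lf (nat_lit 3489950085) (dlOf (nat_lit 1) (nat_lit 0x400200020008004e82))))) (.nd (nat_lit 26) 
(.nd (nat_lit 30) (.nd (nat_lit 29) 
(.lf (nat_lit 4697907205) (dlOf (nat_lit 2) (nat_lit 0x406801c3502004c00280c0001))) 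
(.lf (nat_lit 3087294469) (dlOf (nat_lit 6) (nat_lit 0x8c0160184a02004200b00c248100050058016800003084080014016005a00000c20020009005805f8408010000800c800200440008170003)))) 
(.nd (nat_lit 7) (.lf (nat_lit 1476681733) (dlOf (nat_lit 1) (nat_lit 0xf00008110281))) 
(.lf (nat_lit 5773812869) (dlOf (nat_lit 1) (nat_lit 0x800180e2b01))))) (.nd (nat_lit 16) 
(.nd (nat_lit 29) (.nd (nat_lit 30) 
(.lf (nat_lit 470048773) (dlOf (nat_lit 2) (nat_lit 0xe1d100070e2805f841000880080090002009a0008030003))) 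
(.lf (nat_lit 1543790597) (dlOf (nat_lit 1) (nat_lit 0x8008000800200020008170003)))) 
(.lf (nat_lit 2080661509) (dlOf (nat_lit 2) (nat_lit 0x30148070340800200080004002000400080a0003)))) 
(.lf (nat_lit 5838823429) (dlOf (nat_lit 2) (nat_lit 0x4004000000040040004000c00081c0002)))))))) 
(.nd (nat_lit 16) (.nd (nat_lit 18) (.nd (nat_lit 7) (.nd (nat_lit 8) (.nd (nat_lit 19) 
(.nd (nat_lit 20) (.nd (nat_lit 9) 
(.lf (nat_lit 12607557) (dlOf (nat_lit 1) (nat_lit 0x1e80080004002004200086d0d03))) 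
(.lf (nat_lit 1342205509) (dlOf (nat_lit 1) (nat_lit 0x60004005a0008007182)))) (.nd (nat_lit 26) 
(.lf (nat_lit 3490734149) (dlOf (nat_lit 2) (nat_lit 0x2a117800000080310008011c00200380008020803))) 
(.lf (nat_lit 2752536645) (dlOf (nat_lit 2) (nat_lit 0x2a123800000080310008011c00200380008020803))))) 
(.nd (nat_lit 9) (.nd (nat_lit 21) 
(.lf (nat_lit 3959971909) (dlOf (nat_lit 2) (nat_lit 0x101b8000000800480080004002000c0008180d03))) 
(.lf (nat_lit 2754109509) (dlOf (nat_lit 2) (nat_lit 0xe010880015008009800800fc002001000080c1883)))) 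
(.lf (nat_lit 54028869) (dlOf (nat_lit 3) (nat_lit 0x160900015008000aff000057f40002b2a000138395f5200))))) 
(.nd (nat_lit 10) (.nd (nat_lit 9) (.nd (nat_lit 11) 
(.lf (nat_lit 1476424005) (dlOf (nat_lit 1) (nat_lit 0x80028008281))) 
(.lf (nat_lit 2752018757) (dlOf (nat_lit 1) (nat_lit 0x1800800040020002000800ab83)))) 
(.lf (nat_lit 19954501) (dlOf (nat_lit 1) (nat_lit 0x1a00189dbc81)))) (.nd (nat_lit 11) 
(.lf (nat_lit 554309) (dlOf (nat_lit 2) (nat_lit 0x598f80148e04000c00200020008009902))) 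
(.lf (nat_lit 1409314117) (dlOf (nat_lit 3) (nat_lit 0x5405f0000701001302f8000340801000080084002001e0008006983)))))) 
(.nd (nat_lit 8) (.nd (nat_lit 9) (.nd (nat_lit 10) 
(.lf (nat_lit 3493880005) (dlOf (nat_lit 3) (nat_lit 0x2bc0c0000120101910600000000800880080068002004000081b0403))) 
(.nd (nat_lit 19) (.lf (nat_lit 32531653) (dlOf (nat_lit 2) (nat_lit 0xd854d00012818ef2d00))) 
(.lf (nat_lit 1344824517) (dlOf (nat_lit 3) (nat_lit 0x27059c005c2c600ac127006101a0000b82000282dc0000e04003c00200080008982d02))))) 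
(.nd (nat_lit 11) (.lf (nat_lit 29381) (dlOf (nat_lit 1) (nat_lit 0x8008000400200020008008c83))) 
(.nd (nat_lit 12) (.lf (nat_lit 27333) (dlOf (nat_lit 1) (nat_lit 0x400400020008005802))) 
(.lf (nat_lit 469793477) (dlOf (nat_lit 1) (nat_lit 0xa001800b981)))))) (.nd (nat_lit 9) 
(.nd (nat_lit 11) (.nd (nat_lit 26) 
(.lf (nat_lit 1342726597) (dlOf (nat_lit 7) (nat_lit 0x15c154000270100ae0aa000134080598550000860402b82a8000420201761540001f0100450aa0001854400070080088002002200080c0902))) 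
(.lf (nat_lit 470311365) (dlOf (nat_lit 7) (nat_lit 0x15c154000270100ae0aa000134080598550000860402b82a8000420201761540001f0100450aa0001854400070080088002002200080c0902)))) 
(.nd (nat_lit 10) (.lf (nat_lit 41445829) (dlOf (nat_lit 1) (nat_lit 0x400200020009244e82))) 
(.lf (nat_lit 3489689029) (dlOf (nat_lit 1) (nat_lit 0x1100008006d01))))) (.nd (nat_lit 10) 
(.nd (nat_lit 12) (.lf (nat_lit 872442821) (dlOf (nat_lit 1) (nat_lit 0x400400040008005d82))) 
(.lf (nat_lit 134249413) (dlOf (nat_lit 1) (nat_lit 0xc004000a000800be02)))) 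
(.lf (nat_lit 604008389) (dlOf (nat_lit 1) (nat_lit 0x400200020008007a82))))))) (.nd (nat_lit 28) 
(.nd (nat_lit 26) (.nd (nat_lit 7) (.nd (nat_lit 9) (.nd (nat_lit 19) 
(.lf (nat_lit 537157701) (dlOf (nat_lit 6) (nat_lit 0x95034804a019c08a00ba00ac05b009702d009f8160029c0ae0062056029302a015d011402440500162025003d01100010070023802e00e80000000e9000fe0348058019c094c0ba006a057031702a01258114040c0500234025009400b805c8000000382802a40a80001b0203be0540098022800068100410160060c07e0022032004e010003d8074000402200640070026000800000400f1000807680020d380008030e83))) 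
(.lf (nat_lit 13393989) (dlOf (nat_lit 2) (nat_lit 0x1088d200c73c980401c540254dd6012669600027058721880)))) 
(.lf (nat_lit 1610901061) (dlOf (nat_lit 1) (nat_lit 0x140028093801)))) (.nd (nat_lit 8) 
(.lf (nat_lit 36463813) (dlOf (nat_lit 1) (nat_lit 0x20008000400200020009072d03))) (.nd (nat_lit 9) 
(.lf (nat_lit 19688901) (dlOf (nat_lit 2) (nat_lit 0xa620001c6040004002000400089d6d02))) 
(.lf (nat_lit 20736965) (dlOf (nat_lit 1) (nat_lit 0x4e00089d5d81)))))) (.nd (nat_lit 29) 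
(.nd (nat_lit 7) (.nd (nat_lit 8) 
(.lf (nat_lit 2349097029) (dlOf (nat_lit 4) (nat_lit 0x520220001001001f01100002c08007808800014040010004000400080a0d02))) 
(.lf (nat_lit 1141138757) (dlOf (nat_lit 3) (nat_lit 0xc02600030108000a0100118098004801a0001d0400080018123301)))) 
(.lf (nat_lit 4362887365) (dlOf (nat_lit 2) (nat_lit 0x40000002102000a00081a0401)))) 
(.nd (nat_lit 8) (.nd (nat_lit 9) 
(.lf (nat_lit 2753847365) (dlOf (nat_lit 1) (nat_lit 0x800280a0d01))) 
(.lf (nat_lit 3959710277) (dlOf (nat_lit 4) (nat_lit 0x2100380080000000240400ae00e00370000000801000f0038000380401d400200720008128d02)))) 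
(.lf (nat_lit 2751752005) (dlOf (nat_lit 1) (nat_lit 0x20018003e01)))))) (.nd (nat_lit 7) 
(.nd (nat_lit 27) (.nd (nat_lit 26) (.nd (nat_lit 21) 
(.lf (nat_lit 1342464069) (dlOf (nat_lit 7) (nat_lit 0x70718000580400783a400081c6004d0bc8000ac18041061c023824400f20000000e0300210e90030071800082f800c4179000018400220e3002685e4000040800103c800201d200010e3000385e40018204000000a00040018030e81))) 
(.lf (nat_lit 3492044869) (dlOf (nat_lit 2) (nat_lit 0xc822c00040040058004004e00080a0e02)))) 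
(.nd (nat_lit 30) 
(.lf (nat_lit 2483314757) (dlOf (nat_lit 2) (nat_lit 0xb00880004004000c004000400080a0e02))) 
(.lf (nat_lit 1409572933) (dlOf (nat_lit 6) (nat_lit 0x95034804a019c08a00ba00ac05b009702d009f8160029c0ae0062056029302a015d010802440500162025003d01100010070023802800e80000000e1000fe0348058019c094c0ba006a057031702a01258108040c0500234025009400a005c8000000362802a40a80001a0203be0540098021000064100410160060c07e0022032004e010003d8074000402200640070026000800000400f1000807680020d380008030e83))))) 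
(.nd (nat_lit 29) (.nd (nat_lit 19) 
(.lf (nat_lit 470048837) (dlOf (nat_lit 7) (nat_lit 0x70718000580400783a400081c6004d0c10000ac18041061c023824400f20000000e8300210e900300718000830c00c4182000018400220e300268608000040800103c800201d200010e3000386080018204000000a00040018030e81))) 
(.lf (nat_lit 470573125) (dlOf (nat_lit 1) (nat_lit 0x400400220018121882)))) (.nd (nat_lit 8) 
(.lf (nat_lit 2080661573) (dlOf (nat_lit 1) (nat_lit 0x80080050002000200080a1683))) 
(.lf (nat_lit 5301888325) (dlOf (nat_lit 7) (nat_lit 0xa30088000ac0815e80c4029c058004202a0024014004700780010038000801a002600a0021004800f002000d400f0010006000680140020006000281c014c011000128100210088000900800b004400042040a2806200aa02c00090088000741803980083174002009a00080e3303)))))) 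
(.nd (nat_lit 8) (.nd (nat_lit 10) (.nd (nat_lit 19) 
(.lf (nat_lit 4563689669) (dlOf (nat_lit 2) (nat_lit 0x2031000038180c1b80))) 
(.lf (nat_lit 4228669637) (dlOf (nat_lit 2) (nat_lit 0x40000002102000a00081a0401)))) 
(.lf (nat_lit 1345086661) (dlOf (nat_lit 3) (nat_lit 0x102ac00020cf000158200010678002825800044080004004000200089e2d02)))) 
(.nd (nat_lit 21) 
(.lf (nat_lit 5704541637) (dlOf (nat_lit 2) (nat_lit 0x806c002be040004002000200080d3602))) 
(.lf (nat_lit 4096026053) (dlOf (nat_lit 1) (nat_lit 0x1800180e3601)))))))) (.nd (nat_lit 26) 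
(.nd (nat_lit 18) (.nd (nat_lit 30) (.nd (nat_lit 7) (.nd (nat_lit 22) (.nd (nat_lit 10) 
(.nd (nat_lit 19) 
(.lf (nat_lit 6576758853) (dlOf (nat_lit 2) (nat_lit 0x7b006804a000000064080070004000400180c0d02))) 
(.lf (nat_lit 537485381) (dlOf (nat_lit 2) (nat_lit 0x260258000800800200080070002004400080a0d03)))) 
(.lf (nat_lit 402744389) (dlOf (nat_lit 1) (nat_lit 0x3c0018092881)))) (.nd (nat_lit 9) 
(.lf (nat_lit 12673093) (dlOf (nat_lit 1) (nat_lit 0x80080004002000200086d0d03))) 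
(.lf (nat_lit 32598597) (dlOf (nat_lit 1) (nat_lit 0x260018ef5201))))) (.nd (nat_lit 9) 
(.nd (nat_lit 10) (.lf (nat_lit 939616453) (dlOf (nat_lit 1) (nat_lit 0x400400020008144982))) 
(.lf (nat_lit 36791493) (dlOf (nat_lit 2) (nat_lit 0x14bc6000d5d58028265c0005c0c000c002000e0009072d02)))) 
(.lf (nat_lit 20017861) (dlOf (nat_lit 1) (nat_lit 0x80080004002000200089d8c83))))) 
(.nd (nat_lit 8) (.nd (nat_lit 10) (.nd (nat_lit 9) (.nd (nat_lit 19) 
(.lf (nat_lit 1879138373) (dlOf (nat_lit 1) (nat_lit 0x1ec0008020801))) 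
(.lf (nat_lit 3221839941) (dlOf (nat_lit 7) (nat_lit 0x32600a0007a8100440050002d40806f8028000be04001008a000530200e60460002801007d0230000000801380080030002002e00081a1403)))) 
(.lf (nat_lit 5905670725) (dlOf (nat_lit 1) (nat_lit 0x4000080b1101)))) (.nd (nat_lit 7) 
(.lf (nat_lit 3489754181) (dlOf (nat_lit 1) (nat_lit 0x20028006081))) 
(.lf (nat_lit 1342270661) (dlOf (nat_lit 1) (nat_lit 0x460018006381))))) (.nd (nat_lit 19) 
(.nd (nat_lit 21) (.lf (nat_lit 3892405573) (dlOf (nat_lit 1) (nat_lit 0x20028103301))) 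
(.lf (nat_lit 5773550917) (dlOf (nat_lit 1) (nat_lit 0x4004000200080e3302)))) (.nd (nat_lit 7) 
(.lf (nat_lit 1611228485) (dlOf (nat_lit 1) (nat_lit 0x20028123301))) 
(.lf (nat_lit 3491324357) (dlOf (nat_lit 3) (nat_lit 0x2922340001381014e11a000098080098008003400200380008090903))))))) 
(.nd (nat_lit 21) (.nd (nat_lit 10) (.nd (nat_lit 19) (.nd (nat_lit 28) 
(.lf (nat_lit 1610965061) (dlOf (nat_lit 1) (nat_lit 0x200280a1681))) 
(.lf (nat_lit 2416271429) (dlOf (nat_lit 1) (nat_lit 0x800080c1881)))) (.nd (nat_lit 9) 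
(.lf (nat_lit 13459525) (dlOf (nat_lit 2) (nat_lit 0x1fc55800fd244007f91c803f48b60004e0800040028721881))) 
(.lf (nat_lit 38627909) (dlOf (nat_lit 2) (nat_lit 0x67400002f819135200))))) (.nd (nat_lit 7) 
(.lf (nat_lit 8746309) (dlOf (nat_lit 1) (nat_lit 0x400200020008519902))) 
(.lf (nat_lit 1880450245) (dlOf (nat_lit 3) (nat_lit 0x4f0490000b808001821c0000e04001400200060008982d02))))) 
(.nd (nat_lit 9) (.nd (nat_lit 8) 
(.lf (nat_lit 2449477) (dlOf (nat_lit 2) (nat_lit 0x119ba00100000000600800dc00200600008160d02))) 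
(.lf (nat_lit 58024261) (dlOf (nat_lit 1) (nat_lit 0x8002000a00097b8702)))) (.nd (nat_lit 7) 
(.nd (nat_lit 11) (.lf (nat_lit 12411461) (dlOf (nat_lit 1) (nat_lit 0x200286c1101))) 
(.lf (nat_lit 45443653) (dlOf (nat_lit 5) (nat_lit 0x1fd9b8012b3a8003596c0002c4a001100000017c2800933a8000d96c00060000002e83001a6750001500800f33a80008404001c002000a0009325202)))) 
(.lf (nat_lit 19757765) (dlOf (nat_lit 1) (nat_lit 0x200189db981))))))) (.nd (nat_lit 27) 
(.nd (nat_lit 7) (.nd (nat_lit 8) (.nd (nat_lit 9) (.nd (nat_lit 21) 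
(.lf (nat_lit 1409900613) (dlOf (nat_lit 2) (nat_lit 0x3a0258000800801e80080074002000c00080a0e03))) 
(.lf (nat_lit 2754175045) (dlOf (nat_lit 3) (nat_lit 0x21f90002a81007c1088001500800c00080060002003800080c1883)))) 
(.lf (nat_lit 6509650501) (dlOf (nat_lit 1) (nat_lit 0x4000080b1101)))) (.nd (nat_lit 11) 
(.lf (nat_lit 4093994309) (dlOf (nat_lit 2) (nat_lit 0x584140005004002800400080008003302))) 
(.lf (nat_lit 3825298757) (dlOf (nat_lit 1) (nat_lit 0x1e0028146981))))) (.nd (nat_lit 8) 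
(.nd (nat_lit 10) (.lf (nat_lit 4362168517) (dlOf (nat_lit 1) (nat_lit 0x5a0018004981))) 
(.lf (nat_lit 3825298629) (dlOf (nat_lit 1) (nat_lit 0x400400020008146382)))) (.nd (nat_lit 9) 
(.nd (nat_lit 10) 
(.lf (nat_lit 2753126853) (dlOf (nat_lit 3) (nat_lit 0x29224c0001381014e126000098080098008003400200380008090903))) 
(.lf (nat_lit 6241215941) (dlOf (nat_lit 3) (nat_lit 0x40060015e020004014000ae818053600)))) 
(.lf (nat_lit 4095044549) (dlOf (nat_lit 1) (nat_lit 0x400400020008055d82)))))) (.nd (nat_lit 29) 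
(.nd (nat_lit 11) (.nd (nat_lit 9) (.nd (nat_lit 19) 
(.lf (nat_lit 5838561349) (dlOf (nat_lit 2) (nat_lit 0x1e03a000501c0000801000500080018002000200080a0d03))) 
(.lf (nat_lit 201941061) (dlOf (nat_lit 2) (nat_lit 0xc09c015a0000002a0280c1880)))) 
(.lf (nat_lit 2617336389) (dlOf (nat_lit 1) (nat_lit 0x200080008002000200080a1583)))) 
(.nd (nat_lit 7) (.nd (nat_lit 8) 
(.lf (nat_lit 473262661) (dlOf (nat_lit 3) (nat_lit 0x2c24c001602e0002f820001093000174080008008000c002000e0008e35203))) 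
(.lf (nat_lit 1543597381) (dlOf (nat_lit 3) (nat_lit 0xf01180070060001800a00012060012023001400c00058014000200c00c8002002a0008146982)))) 
(.lf (nat_lit 469854405) (dlOf (nat_lit 1) (nat_lit 0x4a0018004981))))) (.nd (nat_lit 7) 
(.nd (nat_lit 18) (.nd (nat_lit 19) 
(.lf (nat_lit 1006723141) (dlOf (nat_lit 1) (nat_lit 0x1ec0008020801))) 
(.lf (nat_lit 3960037445) (dlOf (nat_lit 4) (nat_lit 0x78c08a01fa0420048004800154181578114049008400740330002a0302490230000810c000a20801a8004003200081a1882)))) 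
(.lf (nat_lit 1006985285) (dlOf (nat_lit 1) (nat_lit 0x400400020008121882)))) (.nd (nat_lit 11) 
(.lf (nat_lit 1007772869) (dlOf (nat_lit 1) (nat_lit 0x400287a2d01))) 
(.lf (nat_lit 1812032709) (dlOf (nat_lit 1) (nat_lit 0x400400020008146382)))))))))) 
(.nd (nat_lit 18) (.nd (nat_lit 6) (.nd (nat_lit 16) (.nd (nat_lit 7) (.nd (nat_lit 20) 
(.nd (nat_lit 21) (.nd (nat_lit 8) (.nd (nat_lit 9) 
(.lf (nat_lit 2080432133) (dlOf (nat_lit 1) (nat_lit 0x60008090001))) 
(.lf (nat_lit 1342759429) (dlOf (nat_lit 1) (nat_lit 0x4002005400080c0d82)))) 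
(.lf (nat_lit 469826821) (dlOf (nat_lit 1) (nat_lit 0x1000800180020004000800c603)))) 
(.nd (nat_lit 19) (.nd (nat_lit 23) 
(.lf (nat_lit 23126021) (dlOf (nat_lit 2) (nat_lit 0x1d612015130200060018b60001))) 
(.lf (nat_lit 14737413) (dlOf (nat_lit 1) (nat_lit 0x400200020008770002)))) 
(.lf (nat_lit 15261701) (dlOf (nat_lit 2) (nat_lit 0x4c95e0063e0200f000187c0001))))) 
(.nd (nat_lit 19) (.nd (nat_lit 21) (.nd (nat_lit 22) 
(.lf (nat_lit 43048965) (dlOf (nat_lit 1) (nat_lit 0x3200292a0001))) 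
(.lf (nat_lit 13688837) (dlOf (nat_lit 1) (nat_lit 0x2e0018740001)))) 
(.lf (nat_lit 15785989) (dlOf (nat_lit 1) (nat_lit 0x10008000400200020008830003)))) 
(.nd (nat_lit 26) 
(.lf (nat_lit 3493388293) (dlOf (nat_lit 1) (nat_lit 0x20008000c00200040008130003))) 
(.lf (nat_lit 2755190789) (dlOf (nat_lit 1) (nat_lit 0x20008000c00200040008130003)))))) 
(.nd (nat_lit 8) (.nd (nat_lit 21) (.nd (nat_lit 9) 
(.lf (nat_lit 2483088517) (dlOf (nat_lit 3) (nat_lit 0x6602a000140100290150000640802700080044002004c0008006103))) 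
(.nd (nat_lit 27) (.lf (nat_lit 4899006085) (dlOf (nat_lit 1) (nat_lit 0x1c002000c0008053a02))) 
(.lf (nat_lit 5570094725) (dlOf (nat_lit 3) (nat_lit 0x802e000320200040190000a818053a00))))) 
(.nd (nat_lit 10) (.nd (nat_lit 19) 
(.lf (nat_lit 1344331909) (dlOf (nat_lit 1) (nat_lit 0x44c00400c40008740482))) 
(.lf (nat_lit 23650437) (dlOf (nat_lit 2) (nat_lit 0x41ad06020d5fc0001d828b80100)))) 
(.lf (nat_lit 473490565) (dlOf (nat_lit 1) (nat_lit 0xc0028f52b01))))) (.nd (nat_lit 26) 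
(.nd (nat_lit 19) (.nd (nat_lit 23) 
(.lf (nat_lit 6308291973) (dlOf (nat_lit 1) (nat_lit 0x1c00200060008053602))) 
(.lf (nat_lit 8447365) (dlOf (nat_lit 1) (nat_lit 0x400200020008513602)))) (.nd (nat_lit 10) 
(.lf (nat_lit 57207173) (dlOf (nat_lit 1) (nat_lit 0xa0029794e81))) 
(.lf (nat_lit 61400453) (dlOf (nat_lit 1) (nat_lit 0x80009923601))))) (.nd (nat_lit 10) 
(.nd (nat_lit 28) (.lf (nat_lit 1275126149) (dlOf (nat_lit 1) (nat_lit 0x400400020008091002))) 
(.lf (nat_lit 2080432517) (dlOf (nat_lit 1) (nat_lit 0x400400020008091002)))) (.nd (nat_lit 27) 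
(.lf (nat_lit 4899005829) (dlOf (nat_lit 1) (nat_lit 0x800800e4002005e0008053603))) 
(.lf (nat_lit 4496352645) (dlOf (nat_lit 1) (nat_lit 0xc00400020008053602)))))))) (.nd (nat_lit 30) 
(.nd (nat_lit 23) (.nd (nat_lit 19) (.nd (nat_lit 27) (.nd (nat_lit 7) (.nd (nat_lit 9) 
(.lf (nat_lit 5365765) (dlOf (nat_lit 1) (nat_lit 0x400400040008350002))) 
(.lf (nat_lit 50457093) (dlOf (nat_lit 1) (nat_lit 0x400194c5001)))) 
(.lf (nat_lit 4899071365) (dlOf (nat_lit 1) (nat_lit 0x1e0008053601)))) (.nd (nat_lit 7) 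
(.nd (nat_lit 28) 
(.lf (nat_lit 2885804037) (dlOf (nat_lit 2) (nat_lit 0x18060000c02f0007017000300b4001800a00080020006000005490380010008000c00200040008090003))) 
(.lf (nat_lit 5301723141) (dlOf (nat_lit 1) (nat_lit 0x40018040001)))) 
(.lf (nat_lit 4496418181) (dlOf (nat_lit 1) (nat_lit 0x20028053601))))) (.nd (nat_lit 26) 
(.lf (nat_lit 134864901) (dlOf (nat_lit 5) (nat_lit 0x1c80b8037860400e005c01bc202007002e00ddd810039017006ee408000800800f8002001a00080d0003))) 
(.nd (nat_lit 28) 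
(.lf (nat_lit 201973765) (dlOf (nat_lit 5) (nat_lit 0x1c80b8030940400e005c0184902007002e00c2101003901700610008000800800f8002001a00080d0003))) 
(.lf (nat_lit 470409221) (dlOf (nat_lit 4) (nat_lit 0x1c45a00ea002000421f0064b01000210f8032440800e8008002c002006000080e0003)))))) 
(.nd (nat_lit 19) (.nd (nat_lit 7) (.nd (nat_lit 8) (.nd (nat_lit 11) 
(.lf (nat_lit 47308805) (dlOf (nat_lit 1) (nat_lit 0x80080004002000200093d0003))) 
(.lf (nat_lit 8517637) (dlOf (nat_lit 1) (nat_lit 0x380001851a601)))) 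
(.lf (nat_lit 8518917) (dlOf (nat_lit 1) (nat_lit 0x300040004001851c602)))) (.nd (nat_lit 10) 
(.lf (nat_lit 11657605) (dlOf (nat_lit 1) (nat_lit 0x5400086c0781))) 
(.lf (nat_lit 8512901) (dlOf (nat_lit 1) (nat_lit 0x400200020008513602))))) (.nd (nat_lit 24) 
(.nd (nat_lit 22) (.lf (nat_lit 42590213) (dlOf (nat_lit 1) (nat_lit 0x60019260001))) 
(.lf (nat_lit 13230085) (dlOf (nat_lit 1) (nat_lit 0xe0018710001)))) (.nd (nat_lit 20) 
(.lf (nat_lit 59367429) (dlOf (nat_lit 1) (nat_lit 0x4004000200197f0002))) 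
(.lf (nat_lit 26861573) (dlOf (nat_lit 1) (nat_lit 0x20018c80001))))))) (.nd (nat_lit 28) 
(.nd (nat_lit 7) (.nd (nat_lit 8) (.nd (nat_lit 11) 
(.lf (nat_lit 5435940869) (dlOf (nat_lit 2) (nat_lit 0xa00000c29018040000))) 
(.lf (nat_lit 5905704965) (dlOf (nat_lit 1) (nat_lit 0x400200020008144702)))) 
(.lf (nat_lit 3892437253) (dlOf (nat_lit 1) (nat_lit 0x400400380018113582)))) (.nd (nat_lit 9) 
(.lf (nat_lit 5368832133) (dlOf (nat_lit 2) (nat_lit 0x804c0006a04007800200640008030f02))) 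
(.lf (nat_lit 1610737285) (dlOf (nat_lit 1) (nat_lit 0x60018093a01))))) (.nd (nat_lit 7) 
(.nd (nat_lit 19) 
(.lf (nat_lit 3624001541) (dlOf (nat_lit 2) (nat_lit 0x18060000c02f0007017000300b4001800a00080020006000005a4c380010008000c00200040008090003))) 
(.nd (nat_lit 27) 
(.lf (nat_lit 1342824453) (dlOf (nat_lit 4) (nat_lit 0x1c45a0087b02000422300392810002111801c800800e8008002c002006000080e0003))) 
(.lf (nat_lit 5772009477) (dlOf (nat_lit 1) (nat_lit 0x110008004400200180008040003))))) 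
(.nd (nat_lit 8) (.lf (nat_lit 1346494597) (dlOf (nat_lit 1) (nat_lit 0x1800200060008f72282))) 
(.lf (nat_lit 1345447301) (dlOf (nat_lit 1) (nat_lit 0x20018bb3601)))))))) (.nd (nat_lit 26) 
(.nd (nat_lit 16) (.nd (nat_lit 24) (.nd (nat_lit 10) (.nd (nat_lit 22) (.nd (nat_lit 7) 
(.lf (nat_lit 671146053) (dlOf (nat_lit 1) (nat_lit 0x4004000a00080b0002))) 
(.lf (nat_lit 671146181) (dlOf (nat_lit 1) (nat_lit 0x200080b0401)))) (.nd (nat_lit 21) 
(.lf (nat_lit 12640325) (dlOf (nat_lit 1) (nat_lit 0x100080008002000600086d0d03))) 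
(.lf (nat_lit 14737477) (dlOf (nat_lit 2) (nat_lit 0x23f780005008017000800a8002003e0008770603))))) 
(.nd (nat_lit 9) (.nd (nat_lit 12) 
(.lf (nat_lit 582981) (dlOf (nat_lit 2) (nat_lit 0x401a000280200060018003301))) 
(.lf (nat_lit 8975685) (dlOf (nat_lit 1) (nat_lit 0x20018519901)))) (.nd (nat_lit 8) 
(.lf (nat_lit 1342238277) (dlOf (nat_lit 1) (nat_lit 0x400200060008007182))) 
(.lf (nat_lit 536930117) (dlOf (nat_lit 1) (nat_lit 0x400400020008003e02)))))) (.nd (nat_lit 7) 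
(.nd (nat_lit 8) (.lf (nat_lit 26271813) (dlOf (nat_lit 1) (nat_lit 0xe40008c30601))) 
(.nd (nat_lit 11) (.lf (nat_lit 50390341) (dlOf (nat_lit 1) (nat_lit 0x80080014002000200094c3303))) 
(.lf (nat_lit 19983685) (dlOf (nat_lit 1) (nat_lit 0x180080048002000800089d6983))))) 
(.nd (nat_lit 9) (.nd (nat_lit 21) 
(.lf (nat_lit 55633093) (dlOf (nat_lit 1) (nat_lit 0x18004000400196d2d02))) 
(.lf (nat_lit 32564421) (dlOf (nat_lit 2) (nat_lit 0x8fcc0004a04010800400040008ef2d02)))) 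
(.lf (nat_lit 19984069) (dlOf (nat_lit 1) (nat_lit 0x1c00189d7301)))))) (.nd (nat_lit 19) 
(.nd (nat_lit 7) (.nd (nat_lit 8) (.nd (nat_lit 21) 
(.lf (nat_lit 3490832453) (dlOf (nat_lit 1) (nat_lit 0x20008020801))) 
(.lf (nat_lit 24240197) (dlOf (nat_lit 1) (nat_lit 0x20028b90e01)))) (.nd (nat_lit 9) 
(.lf (nat_lit 1744953669) (dlOf (nat_lit 1) (nat_lit 0x4004000c0018090c82))) 
(.lf (nat_lit 20048709) (dlOf (nat_lit 1) (nat_lit 0x4002000200089d5c02))))) (.nd (nat_lit 8) 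
(.nd (nat_lit 9) (.lf (nat_lit 48358597) (dlOf (nat_lit 2) (nat_lit 0x843f400014019402d00))) 
(.lf (nat_lit 20050629) (dlOf (nat_lit 1) (nat_lit 0x80080004002000200089d8c83)))) 
(.lf (nat_lit 805436357) (dlOf (nat_lit 1) (nat_lit 0x800800040020002000811be03))))) 
(.nd (nat_lit 24) (.nd (nat_lit 23) (.nd (nat_lit 27) 
(.lf (nat_lit 537518149) (dlOf (nat_lit 1) (nat_lit 0x1c00280a0d01))) 
(.lf (nat_lit 134864965) (dlOf (nat_lit 1) (nat_lit 0x800180d0c81)))) 
(.lf (nat_lit 42590277) (dlOf (nat_lit 1) (nat_lit 0x900019260601)))) (.nd (nat_lit 7) 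
(.lf (nat_lit 50979141) (dlOf (nat_lit 2) (nat_lit 0x84e86004d102009a00194e8701))) 
(.lf (nat_lit 57273029) (dlOf (nat_lit 1) (nat_lit 0x8008000400200020009795803))))))) 
(.nd (nat_lit 29) (.nd (nat_lit 10) (.nd (nat_lit 19) (.nd (nat_lit 7) (.nd (nat_lit 27) 
(.lf (nat_lit 2483150917) (dlOf (nat_lit 22) (nat_lit 0x7580c002c405e050002e00e1015802c80a80250052000e02500da01080020074006402e0042016016800a0029804c0e580200a2800f042a007020c003402d801203300080051002004200040b3c0000001c2c034802e0179015813b00940af003a03340140027007801e0038059c01004020000000d8904a6006800068080150038028c01a000190403b000d00b20000000601009b0040010801c0001604059802e076a015023800a009b803001b801000ca007002000340d4401800240090300001811f80000002a2c06a005c0b6802a03690140047807800b4030026e01000a500780388038039001a04ac00c00850048003000c0002830080405c086802a03650140046007805840300bd801002a6007823c0038139801a04c200c02f400480ad000c01fc000000131a000e02e009b0150067804005f801c02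c600d00eb00480004830000809000022041094054009e0280004008001b8038001c01a000100a074402a01f1014000f80540588020068800e000200680003c301a500a8038005005c601002f7007013200340001c1401ec054019c00e000068200d8015013380400c2801c024800d000060400f40150077004004a001c0000b0601d202a006100700200034000080c001c05c005a00e007e00680000c1800800a800b401c0000104006a02e04a901501b280a00140030003e01505e90080215803c14a001c0b1600d027b00600cb802c0aec01202b60030026000000000700250008052800205080008030e83))) 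
(.lf (nat_lit 2348933189) (dlOf (nat_lit 22) (nat_lit 0x7580c002c405a050002c00e1015802c80a80250052000e02500da01080020078006402e0042016016800a0029804c0e580200a2800f042a007020c00340660012016c0080051002004200040b3c0000001d2c034802c0179015813b00940af003c03340140027007801e0038059c01204020000000e0904a600680006c080150038028c01a0001a0403b000d00b20000000601009b0040010801c0001704059802c076a015023800a009b803001b801000ca007002000340d4401800240080300001811f80000002c2c06a00580b6802a03690140047807400b4030026e01000a500780388038039001a04ac00c00850040003000c0002a300804058086802a03650140046007405840300bd801002a6007823c0038139801a04c200c02f400400ad000c01fc000000141a000e02c009b0150067804005f801c02c600d00eb00400004c30000809000022041094054009e0280004008001b8038001c01a000100a074402a01f1014000f80540588020068800e000200680003c301a500a8038005005c601002f7007013200340001c1401ec054019c00e000068200d8015013380400c2801c024800d000060400f40150077004004a001c0000b0601d202a006100700200034000080c001c058005a00e007e00680000c1800800a800b401c0000104006a02c04a901501b280a00140030003e01505e90080215803c14a001c0b1600d027b00600cb802c0aec01002b60030026000000000700250008052800205080008030e83))))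 
(.lf (nat_lit 1543561413) (dlOf (nat_lit 1) (nat_lit 0x200080b0401)))) (.nd (nat_lit 16) 
(.lf (nat_lit 201908293) (dlOf (nat_lit 2) (nat_lit 0x11802401a80000005404000200080c1881))) 
(.nd (nat_lit 27) (.lf (nat_lit 1409933381) (dlOf (nat_lit 1) (nat_lit 0x200280a0e01))) 
(.lf (nat_lit 201973829) (dlOf (nat_lit 1) (nat_lit 0x800180d0c81)))))) (.nd (nat_lit 7) 
(.nd (nat_lit 16) 
(.lf (nat_lit 1409346885) (dlOf (nat_lit 3) (nat_lit 0x3605f0000701000c02f800034080048008005800200040008006983))) 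
(.lf (nat_lit 1543630149) (dlOf (nat_lit 4) (nat_lit 0x20026001800e80120060006c020014e005000b00100070000000241c001004c003401d002100c00098040027c00a000a0000000806005e00280003c08008000800d000200160008146983)))) 
(.nd (nat_lit 8) (.nd (nat_lit 11) 
(.lf (nat_lit 474080453) (dlOf (nat_lit 3) (nat_lit 0x82d20008168000a05e000e0060001002e000280a01d616900d10b3007980600003e0c0034004000a0009082d02))) 
(.lf (nat_lit 1409412293) (dlOf (nat_lit 1) (nat_lit 0x8008000400200fe0008006383)))) 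
(.lf (nat_lit 469824965) (dlOf (nat_lit 1) (nat_lit 0x1a0018009a01)))))) (.nd (nat_lit 8) 
(.nd (nat_lit 28) (.nd (nat_lit 19) 
(.lf (nat_lit 2752634949) (dlOf (nat_lit 1) (nat_lit 0x20008020801))) (.nd (nat_lit 27) 
(.lf (nat_lit 1678368837) (dlOf (nat_lit 2) (nat_lit 0xf0056005b0298034804c0009c0c004000400080008201882))) 
(.lf (nat_lit 3960070213) (dlOf (nat_lit 3) (nat_lit 0x2800a8013e03f00820198001501801e0100000a2040004004001600181a1882))))) 
(.nd (nat_lit 10) (.nd (nat_lit 7) 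
(.lf (nat_lit 5301723205) (dlOf (nat_lit 2) (nat_lit 0x100fc002406e000400000050838040480))) 
(.lf (nat_lit 2080432325) (dlOf (nat_lit 1) (nat_lit 0x60008090801)))) (.nd (nat_lit 16) 
(.lf (nat_lit 2080433221) (dlOf (nat_lit 1) (nat_lit 0x60018092881))) 
(.lf (nat_lit 6377563205) (dlOf (nat_lit 1) (nat_lit 0x3400180e2881)))))) (.nd (nat_lit 7) 
(.nd (nat_lit 10) (.lf (nat_lit 3154239813) (dlOf (nat_lit 1) (nat_lit 0x400400040008128702))) 
(.lf (nat_lit 4093699397) (dlOf (nat_lit 2) (nat_lit 0xe0390000a0080010008006400200120008003303)))) 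
(.nd (nat_lit 9) (.nd (nat_lit 10) 
(.lf (nat_lit 1008787909) (dlOf (nat_lit 2) (nat_lit 0x502b000444080018008004c00200020008f87003))) 
(.lf (nat_lit 4899071429) (dlOf (nat_lit 1) (nat_lit 0x120008053601)))) 
(.lf (nat_lit 3959547845) (dlOf (nat_lit 1) (nat_lit 0x80080038002001e0008114403))))))))) 
(.nd (nat_lit 28) (.nd (nat_lit 16) (.nd (nat_lit 6) (.nd (nat_lit 21) (.nd (nat_lit 22) 
(.nd (nat_lit 26) (.nd (nat_lit 7) (.nd (nat_lit 20) 
(.lf (nat_lit 3355762693) (dlOf (nat_lit 1) (nat_lit 0xc004000a00180f0002))) 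
(.lf (nat_lit 1368069) (dlOf (nat_lit 1) (nat_lit 0xf380080f8400206cc00080b0003)))) 
(.lf (nat_lit 1074061445) (dlOf (nat_lit 1) (nat_lit 0x20028090101)))) (.nd (nat_lit 27) 
(.lf (nat_lit 604299269) (dlOf (nat_lit 2) (nat_lit 0xe03a00534018130000))) 
(.lf (nat_lit 1812258821) (dlOf (nat_lit 2) (nat_lit 0x280000182604000c002000200081c0002))))) 
(.nd (nat_lit 7) (.nd (nat_lit 23) 
(.lf (nat_lit 2755977221) (dlOf (nat_lit 2) (nat_lit 0x3001c80199c0803a8008000c002005400081c0003))) 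
(.lf (nat_lit 12902405) (dlOf (nat_lit 2) (nat_lit 0x20c660014618000730000339c1800c00080028002002e00086e0003)))) 
(.lf (nat_lit 47507845) (dlOf (nat_lit 1) (nat_lit 0x20029404e81))))) (.nd (nat_lit 7) 
(.nd (nat_lit 19) (.nd (nat_lit 20) 
(.lf (nat_lit 10805253) (dlOf (nat_lit 2) (nat_lit 0x257900609818630000))) 
(.lf (nat_lit 62185477) (dlOf (nat_lit 5) (nat_lit 0x214b60008a3a00e3502000552d80062964003149e0012a3a00e3484000652d80042964001149e0006a2a00e3384000152d8071600800080080008002001c0009970003)))) 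
(.nd (nat_lit 9) (.nd (nat_lit 23) 
(.lf (nat_lit 2940933) (dlOf (nat_lit 3) (nat_lit 0xc68200062748004136002a260c0018d04000e4e9000826c00525c1801c80080058002001e00081e0003))) 
(.lf (nat_lit 11329541) (dlOf (nat_lit 2) (nat_lit 0x19f340190c04000400200020008690002)))) 
(.lf (nat_lit 40692229) (dlOf (nat_lit 1) (nat_lit 0x800291f5001))))) (.nd (nat_lit 22) 
(.nd (nat_lit 10) (.lf (nat_lit 11853957) (dlOf (nat_lit 1) (nat_lit 0xc002000200086c0102))) 
(.lf (nat_lit 20245637) (dlOf (nat_lit 2) (nat_lit 0x41d98000ac080008008000c002000200089d6103)))) 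
(.nd (nat_lit 9) (.lf (nat_lit 56943749) (dlOf (nat_lit 1) (nat_lit 0x20019792b01))) 
(.lf (nat_lit 8185477) (dlOf (nat_lit 3) (nat_lit 0x107340006404001039a000150200040008513a01))))))) 
(.nd (nat_lit 19) (.nd (nat_lit 26) (.nd (nat_lit 8) (.nd (nat_lit 9) 
(.lf (nat_lit 1208279109) (dlOf (nat_lit 2) (nat_lit 0x580a40030050001800c0000b8380b0580))) 
(.lf (nat_lit 45410885) (dlOf (nat_lit 3) (nat_lit 0x2dd100006c4a000b43400010000000be1000040000005402002e0009325201)))) 
(.lf (nat_lit 25485637) (dlOf (nat_lit 1) (nat_lit 0x20028c10781)))) (.nd (nat_lit 21) 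
(.nd (nat_lit 27) (.lf (nat_lit 3288653893) (dlOf (nat_lit 1) (nat_lit 0x2c004001a00080a0e02))) 
(.lf (nat_lit 2349129797) (dlOf (nat_lit 5) (nat_lit 0x2000a80078020001a00e0008783000d008003c00380009e080138020006600e000270200190078000000800f00080158002006800080c1883)))) 
(.lf (nat_lit 2753880133) (dlOf (nat_lit 1) (nat_lit 0x80080004002000200080a0d03))))) 
(.nd (nat_lit 23) (.nd (nat_lit 27) (.nd (nat_lit 7) 
(.lf (nat_lit 4362920005) (dlOf (nat_lit 2) (nat_lit 0x98000000000400b8002002e00081a0002))) 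
(.lf (nat_lit 4362920133) (dlOf (nat_lit 2) (nat_lit 0x2800000042040074002002400081a0402)))) 
(.nd (nat_lit 26) 
(.lf (nat_lit 135061701) (dlOf (nat_lit 1) (nat_lit 0x4800800a4002004e00081b0403))) 
(.lf (nat_lit 202170565) (dlOf (nat_lit 1) (nat_lit 0x4800800a4002004e00081b0403))))) 
(.nd (nat_lit 7) (.nd (nat_lit 20) 
(.lf (nat_lit 13426757) (dlOf (nat_lit 2) (nat_lit 0x646900161e4c0248e2a00f46eb002334b000138280008008000c00200060008721883))) 
(.lf (nat_lit 10281029) (dlOf (nat_lit 11) (nat_lit 0xe60000000b4080568000000580402e743a006da1b00eacb20075658802dd23200c085800c0216805c900c02a40000001d1200040000000e0100080000000600802300000002c04054c000000040201b0000000018100c40000000080800980000000004008c002010400085c0e82)))) 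
(.nd (nat_lit 10) (.lf (nat_lit 12378309) (dlOf (nat_lit 1) (nat_lit 0x1e00186c0401))) 
(.lf (nat_lit 48030917) (dlOf (nat_lit 2) (nat_lit 0x903f400014019402d00)))))))) (.nd (nat_lit 21) 
(.nd (nat_lit 27) (.nd (nat_lit 19) (.nd (nat_lit 20) (.nd (nat_lit 10) 
(.lf (nat_lit 67493893) (dlOf (nat_lit 1) (nat_lit 0x28008000c00200020008190003))) 
(.lf (nat_lit 38134789) (dlOf (nat_lit 1) (nat_lit 0x40009132881)))) (.nd (nat_lit 6) 
(.lf (nat_lit 18210821) (dlOf (nat_lit 1) (nat_lit 0x1000400040018920002))) 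
(.lf (nat_lit 1433669) (dlOf (nat_lit 2) (nat_lit 0x340000002e02000a00280c0e81))))) 
(.nd (nat_lit 6) (.nd (nat_lit 7) 
(.lf (nat_lit 537780229) (dlOf (nat_lit 3) (nat_lit 0x281d800180ea000e07100060380003019800180c4000e06100070000054744000201d80292e04002800400020008190002))) 
(.lf (nat_lit 18735237) (dlOf (nat_lit 1) (nat_lit 0x400200020008970482)))) 
(.lf (nat_lit 38660677) (dlOf (nat_lit 1) (nat_lit 0x400400020009135202))))) (.nd (nat_lit 26) 
(.nd (nat_lit 29) (.lf (nat_lit 3355828229) (dlOf (nat_lit 1) (nat_lit 0x3000400160018120002))) 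
(.lf (nat_lit 3892699141) (dlOf (nat_lit 1) (nat_lit 0x380080074002001000081d0003)))) 
(.nd (nat_lit 7) (.nd (nat_lit 9) 
(.lf (nat_lit 4496678917) (dlOf (nat_lit 1) (nat_lit 0x60008120001))) 
(.lf (nat_lit 201712133) (dlOf (nat_lit 2) (nat_lit 0x11807a0001d02005a0008090d81)))) 
(.lf (nat_lit 201712005) (dlOf (nat_lit 1) (nat_lit 0x1e800800a8002003c0008090783)))))) 
(.nd (nat_lit 7) (.nd (nat_lit 8) (.nd (nat_lit 6) 
(.lf (nat_lit 2482181) (dlOf (nat_lit 2) (nat_lit 0x282d400c1302000c0008160001))) (.nd (nat_lit 9) 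
(.lf (nat_lit 2482245) (dlOf (nat_lit 2) (nat_lit 0x1400000018018160d00))) 
(.lf (nat_lit 36563525) (dlOf (nat_lit 1) (nat_lit 0x400400da0009075202))))) (.nd (nat_lit 10) 
(.lf (nat_lit 58057029) (dlOf (nat_lit 2) (nat_lit 0xe4320019e40800800080024002000a00097b8703))) 
(.lf (nat_lit 19789125) (dlOf (nat_lit 1) (nat_lit 0x4002000200089d9902))))) (.nd (nat_lit 19) 
(.nd (nat_lit 20) (.lf (nat_lit 23453829) (dlOf (nat_lit 1) (nat_lit 0x8002005e0008b80102))) 
(.nd (nat_lit 24) (.lf (nat_lit 11919493) (dlOf (nat_lit 1) (nat_lit 0x8008000c002000200086c0103))) 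
(.lf (nat_lit 28696709) (dlOf (nat_lit 1) (nat_lit 0x20018da0481))))) (.nd (nat_lit 8) 
(.nd (nat_lit 9) (.lf (nat_lit 53338245) (dlOf (nat_lit 1) (nat_lit 0x200295a0e01))) 
(.lf (nat_lit 8251013) (dlOf (nat_lit 1) (nat_lit 0x400400060008513a02)))) 
(.lf (nat_lit 8250757) (dlOf (nat_lit 1) (nat_lit 0x400200020008513602)))))))) (.nd (nat_lit 26) 
(.nd (nat_lit 31) (.nd (nat_lit 7) (.nd (nat_lit 27) (.nd (nat_lit 19) (.nd (nat_lit 16) 
(.lf (nat_lit 1879367685) (dlOf (nat_lit 5) (nat_lit 0x1b02a000a81380323a08000c09c0191c02002604e00c8d01001d02a8062080800100080020002000600080f0003))) 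
(.lf (nat_lit 4563787781) (dlOf (nat_lit 3) (nat_lit 0xa8028004e01100ba1020006008805d000800e00080030002005200080e0003)))) 
(.nd (nat_lit 6) 
(.lf (nat_lit 1343021061) (dlOf (nat_lit 2) (nat_lit 0x1c48e00041c500da6828130000))) 
(.lf (nat_lit 1343021125) (dlOf (nat_lit 2) (nat_lit 0x824900012818130c80))))) (.nd (nat_lit 16) 
(.nd (nat_lit 29) 
(.lf (nat_lit 1476714501) (dlOf (nat_lit 1) (nat_lit 0x10008001400200020008150003))) 
(.lf (nat_lit 939843589) (dlOf (nat_lit 2) (nat_lit 0x2800000cfc04000c002000200081c0002)))) 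
(.lf (nat_lit 4698005509) (dlOf (nat_lit 3) (nat_lit 0xa8028004e01100af20200060088057880800e00080030002005200080e0003))))) 
(.nd (nat_lit 6) (.nd (nat_lit 16) 
(.lf (nat_lit 6174335109) (dlOf (nat_lit 1) (nat_lit 0x20028100e01))) 
(.lf (nat_lit 1476780165) (dlOf (nat_lit 2) (nat_lit 0x5a017000c48181a0480)))) (.nd (nat_lit 10) 
(.lf (nat_lit 5637464261) (dlOf (nat_lit 1) (nat_lit 0x80080004002000200080f1783))) 
(.lf (nat_lit 1346692293) (dlOf (nat_lit 2) (nat_lit 0x3c298001e0d700015828fe2d00)))))) 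
(.nd (nat_lit 11) (.nd (nat_lit 30) (.nd (nat_lit 27) 
(.lf (nat_lit 2416304133) (dlOf (nat_lit 2) (nat_lit 0x4c022017e102000800080d0001))) 
(.lf (nat_lit 2550521861) (dlOf (nat_lit 2) (nat_lit 0x4c02201b4d02000800080d0001)))) 
(.nd (nat_lit 6) 
(.lf (nat_lit 3494174725) (dlOf (nat_lit 2) (nat_lit 0x3001c802ff00803a8008000c002005400081c0003))) 
(.lf (nat_lit 3492143173) (dlOf (nat_lit 1) (nat_lit 0x600180a0e01))))) (.nd (nat_lit 6) 
(.nd (nat_lit 8) 
(.lf (nat_lit 3624201349) (dlOf (nat_lit 1) (nat_lit 0x20008000400200020008146103))) 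
(.lf (nat_lit 3490048389) (dlOf (nat_lit 1) (nat_lit 0x20028004e81)))) (.nd (nat_lit 7) 
(.lf (nat_lit 3489983813) (dlOf (nat_lit 6) (nat_lit 0x28112000110200100890000801000704480003c0800a823000041160000e04001408c0008045800034100048008006000200200008006983))) 
(.lf (nat_lit 3624201413) (dlOf (nat_lit 1) (nat_lit 0x8008000800200020008146383))))))) 
(.nd (nat_lit 27) (.nd (nat_lit 19) (.nd (nat_lit 30) (.nd (nat_lit 6) (.nd (nat_lit 29) 
(.lf (nat_lit 4630831109) (dlOf (nat_lit 1) (nat_lit 0x8004000200080f0582))) 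
(.lf (nat_lit 5167702021) (dlOf (nat_lit 1) (nat_lit 0x20018120581)))) 
(.lf (nat_lit 2483347525) (dlOf (nat_lit 2) (nat_lit 0x178020000200e000268280c1400)))) 
(.nd (nat_lit 7) (.lf (nat_lit 1946477061) (dlOf (nat_lit 1) (nat_lit 0x4004005e0018090d82))) 
(.nd (nat_lit 32) (.lf (nat_lit 1946476677) (dlOf (nat_lit 1) (nat_lit 0x20028090101))) 
(.lf (nat_lit 6241443973) (dlOf (nat_lit 1) (nat_lit 0x80080270002005a00080f0f03)))))) 
(.nd (nat_lit 16) 
(.lf (nat_lit 4095533061) (dlOf (nat_lit 1) (nat_lit 0x80080004002000200080d0003))) 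
(.nd (nat_lit 21) 
(.lf (nat_lit 1410195461) (dlOf (nat_lit 3) (nat_lit 0x281dc00180ec000e07100060380003019800180c6000e0610007000005a304000201dc02bf604002800400020008190002))) 
(.lf (nat_lit 4096647173) (dlOf (nat_lit 1) (nat_lit 0x20008140581)))))) (.nd (nat_lit 6) 
(.nd (nat_lit 8) (.nd (nat_lit 19) (.nd (nat_lit 29) 
(.lf (nat_lit 4765048837) (dlOf (nat_lit 1) (nat_lit 0x8004000200080f0582))) 
(.lf (nat_lit 1006952453) (dlOf (nat_lit 5) (nat_lit 0x1b02a000a8138038d408000c09c01c6902002604e00e3381001d02a806fb00800100080020002000600080f0003)))) 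
(.lf (nat_lit 470605829) (dlOf (nat_lit 2) (nat_lit 0x1c48e00041c500bf0828130000)))) 
(.nd (nat_lit 7) (.lf (nat_lit 1543823621) (dlOf (nat_lit 1) (nat_lit 0x800400220008187202))) 
(.lf (nat_lit 6375728517) (dlOf (nat_lit 1) (nat_lit 0x3c0018003601))))) (.nd (nat_lit 7) 
(.nd (nat_lit 9) (.nd (nat_lit 19) 
(.lf (nat_lit 2080694341) (dlOf (nat_lit 2) (nat_lit 0x580a40030050001800c0000b8380b0580))) 
(.lf (nat_lit 470605893) (dlOf (nat_lit 2) (nat_lit 0x824900013018130c80)))) 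
(.lf (nat_lit 472705605) (dlOf (nat_lit 1) (nat_lit 0x20018a45201)))) (.nd (nat_lit 10) 
(.lf (nat_lit 4228702405) (dlOf (nat_lit 2) (nat_lit 0x2800000042040074002002400081a0402))) 
(.lf (nat_lit 473818309) (dlOf (nat_lit 1) (nat_lit 0x6000400140008fa2d02))))))))))) 
(.nd (nat_lit 15) (.nd (nat_lit 18) (.nd (nat_lit 16) (.nd (nat_lit 30) (.nd (nat_lit 20) 
(.nd (nat_lit 26) (.nd (nat_lit 21) (.nd (nat_lit 27) (.nd (nat_lit 7) 
(.lf (nat_lit 25190437) (dlOf (nat_lit 1) (nat_lit 0x400400020008bf0902))) (.nd (nat_lit 8) 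
(.lf (nat_lit 2952818853) (dlOf (nat_lit 1) (nat_lit 0x10002002a0008007d82))) 
(.lf (nat_lit 6710913957) (dlOf (nat_lit 1) (nat_lit 0xa0028005c81))))) (.nd (nat_lit 8) 
(.nd (nat_lit 29) 
(.lf (nat_lit 134766629) (dlOf (nat_lit 15) (nat_lit 0x5c01d800e005c000b4080104094008e02f0002b8200ab025005980bc000ac0802f8094017202f0002a820011025000680bc000a808004c094003202f0001b82000b025000180bc0006c080230094012802f0001a8200bc025005b80bc00068080014094000202f0001982002a025001000bc00062080160076000030200ac03b0000101002d0000000000802c00080068002000e00080b0b83))) 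
(.lf (nat_lit 2819121189) (dlOf (nat_lit 1) (nat_lit 0x400281a0601)))) 
(.lf (nat_lit 134249253) (dlOf (nat_lit 1) (nat_lit 0x4004000c000800bc82))))) (.nd (nat_lit 24) 
(.nd (nat_lit 6) (.nd (nat_lit 7) 
(.lf (nat_lit 10510373) (dlOf (nat_lit 1) (nat_lit 0x4002000200085e0d02))) 
(.lf (nat_lit 44591781) (dlOf (nat_lit 1) (nat_lit 0x10008001000200020009325603)))) 
(.lf (nat_lit 14704741) (dlOf (nat_lit 1) (nat_lit 0x400400040018770d02)))) (.nd (nat_lit 6) 
(.nd (nat_lit 22) (.lf (nat_lit 27287589) (dlOf (nat_lit 1) (nat_lit 0x2000400200018cc0682))) 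
(.lf (nat_lit 23093285) (dlOf (nat_lit 1) (nat_lit 0x20028b50501)))) 
(.lf (nat_lit 52453477) (dlOf (nat_lit 2) (nat_lit 0xb5898006aad0005555800faa9c00464b8804383e00001c18000c00200060009530982)))))) 
(.nd (nat_lit 12) (.nd (nat_lit 19) (.nd (nat_lit 6) (.nd (nat_lit 8) 
(.lf (nat_lit 473980965) (dlOf (nat_lit 2) (nat_lit 0x214500000018ff0780))) 
(.lf (nat_lit 469788453) (dlOf (nat_lit 3) (nat_lit 0x211b8000840800987c80004004000c004001e0008003d02)))) 
(.nd (nat_lit 8) (.lf (nat_lit 738223717) (dlOf (nat_lit 1) (nat_lit 0x40008003901))) 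
(.lf (nat_lit 2755682661) (dlOf (nat_lit 1) (nat_lit 0x400181b0701))))) (.nd (nat_lit 22) 
(.nd (nat_lit 27) (.lf (nat_lit 4362625061) (dlOf (nat_lit 1) (nat_lit 0x30002006200080b0a02))) 
(.lf (nat_lit 2886230053) (dlOf (nat_lit 1) (nat_lit 0x200081a0581)))) 
(.lf (nat_lit 2756206629) (dlOf (nat_lit 1) (nat_lit 0x40018220901))))) (.nd (nat_lit 10) 
(.nd (nat_lit 6) (.nd (nat_lit 9) 
(.lf (nat_lit 604008485) (dlOf (nat_lit 1) (nat_lit 0x400200020008007b02))) 
(.lf (nat_lit 4362107429) (dlOf (nat_lit 1) (nat_lit 0x2000020064000800b282)))) 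
(.lf (nat_lit 2752018789) (dlOf (nat_lit 1) (nat_lit 0x84000800ab81)))) (.nd (nat_lit 27) 
(.lf (nat_lit 604009509) (dlOf (nat_lit 1) (nat_lit 0x20028009201))) 
(.lf (nat_lit 469791781) (dlOf (nat_lit 2) (nat_lit 0x10238014620400dc00400160008009202))))))) 
(.nd (nat_lit 19) (.nd (nat_lit 9) (.nd (nat_lit 6) (.nd (nat_lit 7) 
(.lf (nat_lit 13656101) (dlOf (nat_lit 1) (nat_lit 0x1a0018740481))) 
(.lf (nat_lit 47210661) (dlOf (nat_lit 1) (nat_lit 0x4004000800093b1482)))) (.nd (nat_lit 7) 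
(.lf (nat_lit 3170661) (dlOf (nat_lit 1) (nat_lit 0x20018200701))) 
(.lf (nat_lit 61891813) (dlOf (nat_lit 2) (nat_lit 0x6abb80008c04002c004001c0009922e02))))) 
(.nd (nat_lit 10) (.nd (nat_lit 7) 
(.lf (nat_lit 40919589) (dlOf (nat_lit 1) (nat_lit 0x7800400140019208782))) 
(.lf (nat_lit 19952293) (dlOf (nat_lit 1) (nat_lit 0x4002000200089d8c82)))) (.nd (nat_lit 6) 
(.lf (nat_lit 2754637349) (dlOf (nat_lit 1) (nat_lit 0x4004000600180f7182))) 
(.lf (nat_lit 61892197) (dlOf (nat_lit 1) (nat_lit 0x18008001c00200060009923903)))))) 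
(.nd (nat_lit 21) (.nd (nat_lit 25) (.nd (nat_lit 23) 
(.lf (nat_lit 2753060901) (dlOf (nat_lit 2) (nat_lit 0x1e1fa00006818080880))) 
(.lf (nat_lit 9986085) (dlOf (nat_lit 8) (nat_lit 0x3f48a0203a43009fd20805068fc034747201499dc0009f860054d228085e90c039b48201d5a3f004fd1d807368e4040f3b80013e0e002fa430009e0100f9d228080e90c03df48201cfa3f00e2d1d807ce8e4033f3b8001320e01fda45010ad218083690403ff47e0211a3b0107d1c80846770002621c043748a01f7a41010cd1d8086e7700026010041348a021da4300edd20806c68fc041f476021da3900fccee0004bc38031000801a800200b600085a0c03)))) 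
(.nd (nat_lit 6) (.lf (nat_lit 35151909) (dlOf (nat_lit 1) (nat_lit 0x400200020008fe0782))) 
(.lf (nat_lit 39347301) (dlOf (nat_lit 1) (nat_lit 0xa0029192981))))) (.nd (nat_lit 7) 
(.nd (nat_lit 6) (.nd (nat_lit 22) 
(.lf (nat_lit 2755158053) (dlOf (nat_lit 2) (nat_lit 0x1040400101fa0000b04001a0028120a01))) 
(.lf (nat_lit 16277541) (dlOf (nat_lit 1) (nat_lit 0x20018880601)))) 
(.lf (nat_lit 3694693) (dlOf (nat_lit 1) (nat_lit 0x640008211381)))) (.nd (nat_lit 6) 
(.nd (nat_lit 11) 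
(.lf (nat_lit 58220965) (dlOf (nat_lit 2) (nat_lit 0x15778028600800a80080068002007600097c6e83))) 
(.lf (nat_lit 37251493) (dlOf (nat_lit 1) (nat_lit 0x4002000c00090d4e82)))) 
(.lf (nat_lit 20474853) (dlOf (nat_lit 1) (nat_lit 0x1000189d5e81)))))))) (.nd (nat_lit 8) 
(.nd (nat_lit 19) (.nd (nat_lit 6) (.nd (nat_lit 7) (.nd (nat_lit 29) 
(.lf (nat_lit 1343250469) (dlOf (nat_lit 1) (nat_lit 0xa00281d0681))) 
(.lf (nat_lit 1880121381) (dlOf (nat_lit 1) (nat_lit 0xc0008740001)))) 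
(.lf (nat_lit 1476425381) (dlOf (nat_lit 1) (nat_lit 0x280020002000800a002)))) (.nd (nat_lit 7) 
(.nd (nat_lit 9) (.lf (nat_lit 1476423781) (dlOf (nat_lit 1) (nat_lit 0x540018007d81))) 
(.lf (nat_lit 2080402021) (dlOf (nat_lit 1) (nat_lit 0x20028005381)))) (.nd (nat_lit 27) 
(.lf (nat_lit 1342206181) (dlOf (nat_lit 1) (nat_lit 0x400400060018008082))) 
(.lf (nat_lit 1476423909) (dlOf (nat_lit 1) (nat_lit 0x34004000c0008008082)))))) (.nd (nat_lit 27) 
(.nd (nat_lit 20) (.nd (nat_lit 7) (.nd (nat_lit 22) 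
(.lf (nat_lit 3221774373) (dlOf (nat_lit 2) (nat_lit 0x8808e016b80200040008180901))) 
(.lf (nat_lit 3494404133) (dlOf (nat_lit 1) (nat_lit 0x40018220901)))) 
(.lf (nat_lit 1344824485) (dlOf (nat_lit 1) (nat_lit 0x20018982c01)))) (.nd (nat_lit 21) 
(.lf (nat_lit 3491258405) (dlOf (nat_lit 2) (nat_lit 0x12e1e800006018080900))) 
(.lf (nat_lit 3493355557) (dlOf (nat_lit 2) (nat_lit 0x1040400101fa0000b04001a0028120a01))))) 
(.nd (nat_lit 26) (.lf (nat_lit 3624427557) (dlOf (nat_lit 1) (nat_lit 0x200081a0581))) 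
(.nd (nat_lit 28) 
(.lf (nat_lit 3959971877) (dlOf (nat_lit 2) (nat_lit 0x8808e015460200040008180901))) 
(.lf (nat_lit 4228407333) (dlOf (nat_lit 1) (nat_lit 0x30002006200080b0a02))))))) (.nd (nat_lit 9) 
(.nd (nat_lit 12) (.nd (nat_lit 7) (.nd (nat_lit 6) 
(.lf (nat_lit 3493880101) (dlOf (nat_lit 6) (nat_lit 0xeb06000019c080058300000ca0400081800006202021e0c0000308100b90600001800800a80080050002002e00081b0503))) 
(.lf (nat_lit 3493880165) (dlOf (nat_lit 3) (nat_lit 0x530378000c80810403000005e040060004000c00081b0702)))) 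
(.nd (nat_lit 19) 
(.lf (nat_lit 3493880229) (dlOf (nat_lit 2) (nat_lit 0x1160600000000800200080038002003200081b0783))) 
(.lf (nat_lit 1476944293) (dlOf (nat_lit 2) (nat_lit 0x4052000201f002a8828306e80))))) 
(.nd (nat_lit 28) (.nd (nat_lit 26) 
(.lf (nat_lit 6039827749) (dlOf (nat_lit 4) (nat_lit 0xd806a000e034000c0000000781801a00d4001406800120000000b83002f01a800080d00014000000000600020028009781))) 
(.lf (nat_lit 3422582053) (dlOf (nat_lit 7) (nat_lit 0xc00e00050000000c0100070038001c0000002e04001a00e00070000000b41000500380000804002c00000003020008010000500700010000000000c000800400100018009782)))) 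
(.nd (nat_lit 10) (.lf (nat_lit 1476423973) (dlOf (nat_lit 1) (nat_lit 0x40028008081))) 
(.lf (nat_lit 4160779557) (dlOf (nat_lit 8) (nat_lit 0x1c0140006002800070100008050000360400040280001a02000e01400080028000601000600500002a0400040280001302000e014000a002000044100018008000400200040008009783)))))) 
(.nd (nat_lit 6) (.nd (nat_lit 10) 
(.lf (nat_lit 5368736549) (dlOf (nat_lit 1) (nat_lit 0x1c0018005c01))) (.nd (nat_lit 12) 
(.lf (nat_lit 4026558245) (dlOf (nat_lit 1) (nat_lit 0xe80018003d01))) 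
(.lf (nat_lit 1476425509) (dlOf (nat_lit 1) (nat_lit 0x40020002000800a082))))) (.nd (nat_lit 7) 
(.lf (nat_lit 6039827301) (dlOf (nat_lit 2) (nat_lit 0x260020015180802d0008008400200060008008f83))) 
(.nd (nat_lit 26) (.lf (nat_lit 1610640357) (dlOf (nat_lit 1) (nat_lit 0x3800200020008005e82))) 
(.lf (nat_lit 1275096037) (dlOf (nat_lit 1) (nat_lit 0x4c0018005e81))))))))) (.nd (nat_lit 6) 
(.nd (nat_lit 29) (.nd (nat_lit 8) (.nd (nat_lit 20) (.nd (nat_lit 19) (.nd (nat_lit 10) 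
(.lf (nat_lit 16867365) (dlOf (nat_lit 1) (nat_lit 0xd00080050002001e00088e0003))) 
(.lf (nat_lit 39937061) (dlOf (nat_lit 1) (nat_lit 0x1800191f2881)))) (.nd (nat_lit 21) 
(.lf (nat_lit 42557477) (dlOf (nat_lit 2) (nat_lit 0x10e82000870900014829260200))) 
(.lf (nat_lit 19488805) (dlOf (nat_lit 1) (nat_lit 0x12000289b0701))))) (.nd (nat_lit 22) 
(.nd (nat_lit 19) (.lf (nat_lit 1343316005) (dlOf (nat_lit 1) (nat_lit 0x200081e0601))) 
(.lf (nat_lit 35217445) (dlOf (nat_lit 1) (nat_lit 0x600029000781)))) (.nd (nat_lit 21) 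
(.lf (nat_lit 38887461) (dlOf (nat_lit 1) (nat_lit 0x400200940009180782))) 
(.lf (nat_lit 7430181) (dlOf (nat_lit 1) (nat_lit 0x1000184b0001)))))) (.nd (nat_lit 9) 
(.nd (nat_lit 19) 
(.lf (nat_lit 1208049957) (dlOf (nat_lit 1) (nat_lit 0xb8008003400200160008090a83))) 
(.lf (nat_lit 12149029) (dlOf (nat_lit 1) (nat_lit 0xc00286c0501)))) (.nd (nat_lit 7) 
(.nd (nat_lit 10) (.lf (nat_lit 4563495717) (dlOf (nat_lit 1) (nat_lit 0x20028095c01))) 
(.lf (nat_lit 93989) (dlOf (nat_lit 1) (nat_lit 0x160018007481)))) 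
(.lf (nat_lit 97189) (dlOf (nat_lit 1) (nat_lit 0x700080050002001a000800bd03)))))) (.nd (nat_lit 8) 
(.nd (nat_lit 27) (.nd (nat_lit 7) (.nd (nat_lit 26) 
(.lf (nat_lit 805920805) (dlOf (nat_lit 3) (nat_lit 0x100b40005e04033c05a0002e02004400281f0b81))) 
(.lf (nat_lit 1678336037) (dlOf (nat_lit 3) (nat_lit 0x100b40005e04033c05a0002e02004400281f0b81)))) 
(.lf (nat_lit 3825298597) (dlOf (nat_lit 1) (nat_lit 0x60028146281)))) (.nd (nat_lit 7) 
(.nd (nat_lit 26) (.lf (nat_lit 3892928549) (dlOf (nat_lit 2) (nat_lit 0x1e02c00097018290d80))) 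
(.lf (nat_lit 4228472869) (dlOf (nat_lit 4) (nat_lit 0x3813c0004804001009e000402a000110200070278000740800280080010002002800080d0b83)))) 
(.lf (nat_lit 1008822949) (dlOf (nat_lit 1) (nat_lit 0x8008000c00200020008fa5603))))) 
(.nd (nat_lit 9) (.nd (nat_lit 10) (.nd (nat_lit 31) 
(.lf (nat_lit 939616549) (dlOf (nat_lit 1) (nat_lit 0x60018144b81))) 
(.lf (nat_lit 3087100197) (dlOf (nat_lit 1) (nat_lit 0xe0018144b81)))) 
(.lf (nat_lit 2080466213) (dlOf (nat_lit 2) (nat_lit 0x603900000018093180)))) (.nd (nat_lit 31) 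
(.lf (nat_lit 939616037) (dlOf (nat_lit 1) (nat_lit 0x158008004000200100008143d03))) 
(.lf (nat_lit 3087099685) (dlOf (nat_lit 1) (nat_lit 0x60018143d01))))))) (.nd (nat_lit 7) 
(.nd (nat_lit 23) (.nd (nat_lit 28) (.nd (nat_lit 8) (.nd (nat_lit 21) 
(.lf (nat_lit 537485413) (dlOf (nat_lit 1) (nat_lit 0x180080004002000800080a1303))) 
(.lf (nat_lit 36266085) (dlOf (nat_lit 2) (nat_lit 0x912b8000a2040004004000c0019050982)))) 
(.nd (nat_lit 10) (.lf (nat_lit 1744920933) (dlOf (nat_lit 1) (nat_lit 0x400400020018090e82))) 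
(.lf (nat_lit 20542821) (dlOf (nat_lit 1) (nat_lit 0x300080004002000400089d9903))))) 
(.nd (nat_lit 9) (.nd (nat_lit 22) 
(.lf (nat_lit 1409900645) (dlOf (nat_lit 1) (nat_lit 0xc00180a1381))) 
(.lf (nat_lit 474570853) (dlOf (nat_lit 4) (nat_lit 0x90143000250100400b30091855804d8286023413a012f0660047832c010c12c0256084007f03a007301cc00b40320004216006415600010a18000dc100290008006c002004800091a0983)))) 
(.lf (nat_lit 5637237349) (dlOf (nat_lit 1) (nat_lit 0xc00400040008055382))))) (.nd (nat_lit 9) 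
(.nd (nat_lit 8) (.nd (nat_lit 19) 
(.lf (nat_lit 47276133) (dlOf (nat_lit 1) (nat_lit 0x1480080024002005c00093c0783))) 
(.lf (nat_lit 42557541) (dlOf (nat_lit 2) (nat_lit 0x7d0fa004087100193a00000381800a000800b400200600009260983)))) 
(.lf (nat_lit 12149093) (dlOf (nat_lit 1) (nat_lit 0x4004000200086c0702)))) (.nd (nat_lit 10) 
(.lf (nat_lit 46230117) (dlOf (nat_lit 2) (nat_lit 0x210740001d819385380))) 
(.lf (nat_lit 43607653) (dlOf (nat_lit 1) (nat_lit 0x1c00192a3901)))))) (.nd (nat_lit 8) 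
(.nd (nat_lit 9) (.nd (nat_lit 20) (.nd (nat_lit 11) 
(.lf (nat_lit 6106997989) (dlOf (nat_lit 1) (nat_lit 0x400400020008002e02))) 
(.lf (nat_lit 97509) (dlOf (nat_lit 1) (nat_lit 0x40040002000800c602)))) (.nd (nat_lit 10) 
(.lf (nat_lit 7430373) (dlOf (nat_lit 1) (nat_lit 0x800200b400084b0582))) 
(.lf (nat_lit 43607269) (dlOf (nat_lit 2) (nat_lit 0xf00000008c040030002001200092a2e02))))) 
(.nd (nat_lit 10) (.lf (nat_lit 738814693) (dlOf (nat_lit 1) (nat_lit 0x8004004a0018125982))) 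
(.nd (nat_lit 31) (.lf (nat_lit 939615973) (dlOf (nat_lit 1) (nat_lit 0x400400020008143a82))) 
(.lf (nat_lit 3087099621) (dlOf (nat_lit 1) (nat_lit 0x8008000400200020008143a83)))))) 
(.nd (nat_lit 11) (.nd (nat_lit 19) 
(.lf (nat_lit 2080465381) (dlOf (nat_lit 1) (nat_lit 0x320008091301))) (.nd (nat_lit 26) 
(.lf (nat_lit 3491324389) (dlOf (nat_lit 1) (nat_lit 0x440028090c01))) 
(.lf (nat_lit 2753126885) (dlOf (nat_lit 1) (nat_lit 0x440028090c01))))) (.nd (nat_lit 9) 
(.lf (nat_lit 5773552101) (dlOf (nat_lit 1) (nat_lit 0x4004000200080e4e82))) (.nd (nat_lit 12) 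
(.lf (nat_lit 5637237733) (dlOf (nat_lit 2) (nat_lit 0x200200002c080030008000400200060008055e83))) 
(.lf (nat_lit 97253) (dlOf (nat_lit 1) (nat_lit 0xc001800bf01)))))))))) (.nd (nat_lit 19) 
(.nd (nat_lit 28) (.nd (nat_lit 6) (.nd (nat_lit 24) (.nd (nat_lit 29) (.nd (nat_lit 30) 
(.nd (nat_lit 16) (.nd (nat_lit 21) 
(.lf (nat_lit 4295254053) (dlOf (nat_lit 1) (nat_lit 0x100080004002000600080d0b83))) 
(.lf (nat_lit 44326949) (dlOf (nat_lit 1) (nat_lit 0x3800092f0981)))) 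
(.lf (nat_lit 1400869) (dlOf (nat_lit 1) (nat_lit 0x1a0008007c002000200080c0a03)))) 
(.nd (nat_lit 9) (.lf (nat_lit 3355729957) (dlOf (nat_lit 1) (nat_lit 0xc004000200080e0802))) 
(.lf (nat_lit 1074029093) (dlOf (nat_lit 2) (nat_lit 0xb013800000080010008001000200160008090e03))))) 
(.nd (nat_lit 26) (.nd (nat_lit 16) 
(.lf (nat_lit 537157669) (dlOf (nat_lit 12) (nat_lit 0x1e00be000200200f205f004001380007c1003c817c0003c0401e40be0001c0200f005f0000d81008002f80068150002005400760270000a84003402f800050080090150000220400480a80000f02002405f000502a00003810004812c0000004003000400280008030a02))) 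
(.lf (nat_lit 671440933) (dlOf (nat_lit 2) (nat_lit 0xc0060007001800380000007e0c008c002005a00081a0582)))) 
(.nd (nat_lit 27) 
(.lf (nat_lit 1678008357) (dlOf (nat_lit 2) (nat_lit 0x10007000000080020008005400200060008130503))) 
(.lf (nat_lit 1812226085) (dlOf (nat_lit 2) (nat_lit 0x500b0004000c00000080004004000a0008180502)))))) 
(.nd (nat_lit 16) (.nd (nat_lit 8) (.nd (nat_lit 20) 
(.lf (nat_lit 21258277) (dlOf (nat_lit 1) (nat_lit 0x400400020018a20582))) 
(.lf (nat_lit 22306853) (dlOf (nat_lit 2) (nat_lit 0x4f5c40047804000c00400080008ac0482)))) 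
(.lf (nat_lit 19161381) (dlOf (nat_lit 1) (nat_lit 0x40018970701)))) (.nd (nat_lit 9) 
(.lf (nat_lit 22372389) (dlOf (nat_lit 1) (nat_lit 0x20008001000200080008ad0903))) 
(.lf (nat_lit 23421477) (dlOf (nat_lit 1) (nat_lit 0xc00400040008b80e02)))))) (.nd (nat_lit 8) 
(.nd (nat_lit 27) (.nd (nat_lit 21) (.nd (nat_lit 7) 
(.lf (nat_lit 46426725) (dlOf (nat_lit 2) (nat_lit 0x88339c000760400c000400360019385382))) 
(.lf (nat_lit 6442737893) (dlOf (nat_lit 1) (nat_lit 0x8004000800081b0482)))) (.nd (nat_lit 16) 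
(.lf (nat_lit 62152805) (dlOf (nat_lit 4) (nat_lit 0x45230001a9140015468000aa330067504001652300338008014296c000948c000000400020009960781))) 
(.lf (nat_lit 2449509) (dlOf (nat_lit 1) (nat_lit 0x70008001000200100008161303))))) 
(.nd (nat_lit 7) (.nd (nat_lit 26) 
(.lf (nat_lit 4966342757) (dlOf (nat_lit 1) (nat_lit 0x8004000200180b0d82))) 
(.lf (nat_lit 5033451621) (dlOf (nat_lit 1) (nat_lit 0x8004000200180b0d82)))) 
(.lf (nat_lit 2818924773) (dlOf (nat_lit 3) (nat_lit 0x1800000062040010000000240200440008130681))))) 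
(.nd (nat_lit 7) (.nd (nat_lit 21) (.nd (nat_lit 22) 
(.lf (nat_lit 6509846885) (dlOf (nat_lit 1) (nat_lit 0x400400020018154f02))) 
(.lf (nat_lit 2755944805) (dlOf (nat_lit 1) (nat_lit 0x35000201a000081b0702)))) 
(.lf (nat_lit 2384229) (dlOf (nat_lit 1) (nat_lit 0x400200020008150702)))) (.nd (nat_lit 9) 
(.nd (nat_lit 29) 
(.lf (nat_lit 3221512677) (dlOf (nat_lit 11) (nat_lit 0xff01f000500f004a001c017200c00bc0000000902806b00f8040401c007000c008800000008c2039a80f8033c078083201c07730070386003015a40080b80002070a0000000884005000f8007c038019200e005f006000f801001a4000000200c002c03e009300700007c1006c80f8040c01c0001e0401ec03e000701e0012007004d401c019a00c00430058014801003580000001d10005e00e0000e01072c01f013980701da401c06ca0040000d84000101e8000640803500080500002004a0008127303))) 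
(.lf (nat_lit 5905867237) (dlOf (nat_lit 2) (nat_lit 0x16025000800b8012c8100058008009c00200180008157d03)))) 
(.nd (nat_lit 11) (.lf (nat_lit 38101989) (dlOf (nat_lit 1) (nat_lit 0x880009132881))) 
(.lf (nat_lit 738487269) (dlOf (nat_lit 1) (nat_lit 0x400200020008095e82)))))))) (.nd (nat_lit 27) 
(.nd (nat_lit 29) (.nd (nat_lit 7) (.nd (nat_lit 6) (.nd (nat_lit 16) (.nd (nat_lit 26) 
(.lf (nat_lit 1342464037) (dlOf (nat_lit 6) (nat_lit 0x65874401b839a00b0173013e0aa00d8854405201e80006003000100700cd0e88003073401c82e601c0154014c0a880038540008026e01c00f400b300180007c48047874404b02a80360151013c09b802b83d001f812802a8081013b00180007440073855006c82a200f6094014a04080007020051074404b42a80498151015309b80a303d0022c1280298081014c00180006c400d30008034c00200520008030a03))) 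
(.lf (nat_lit 1409572901) (dlOf (nat_lit 12) (nat_lit 0x1e00be000200200f205f004001380007c1003c817c0003c0401e40be0001c0200f005f0000d81008002f80068150002005400760270000a84003402f800050080090150000220400480a80000f02002405f000502a00003810004812c0000004003000400280008030a02)))) 
(.lf (nat_lit 268787749) (dlOf (nat_lit 2) (nat_lit 0x280280004a018160480)))) 
(.lf (nat_lit 3494142309) (dlOf (nat_lit 1) (nat_lit 0x288002012c00081b0702)))) (.nd (nat_lit 8) 
(.nd (nat_lit 16) 
(.lf (nat_lit 4563689637) (dlOf (nat_lit 5) (nat_lit 0x5805e000170200a8033000048100290198000200801480cc00000040048004003e00080c1482))) 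
(.lf (nat_lit 3557122213) (dlOf (nat_lit 1) (nat_lit 0x38008000c002000a0008130283)))) 
(.lf (nat_lit 3489950117) (dlOf (nat_lit 1) (nat_lit 0x20008004e81))))) (.nd (nat_lit 30) 
(.nd (nat_lit 16) (.nd (nat_lit 31) 
(.lf (nat_lit 805593125) (dlOf (nat_lit 2) (nat_lit 0x10007000000080020008005400200060008130503))) 
(.lf (nat_lit 2953076773) (dlOf (nat_lit 1) (nat_lit 0x2800280f0701)))) 
(.lf (nat_lit 2953142309) (dlOf (nat_lit 2) (nat_lit 0x2201c00307818160000)))) (.nd (nat_lit 9) 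
(.lf (nat_lit 1879334949) (dlOf (nat_lit 1) (nat_lit 0x80080058002001800080e0a03))) 
(.lf (nat_lit 1946444325) (dlOf (nat_lit 2) (nat_lit 0xb013800000080010008001000200160008090e03)))))) 
(.nd (nat_lit 26) (.nd (nat_lit 29) (.nd (nat_lit 6) (.nd (nat_lit 7) 
(.lf (nat_lit 1476681765) (dlOf (nat_lit 5) (nat_lit 0x280600028022000800e000100380058000000661400180300012011000c007800300380006410000c030000c01100070078003803800062100014030001e011000500780028038003c000000300a003c0018110801))) 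
(.lf (nat_lit 4697907365) (dlOf (nat_lit 3) (nat_lit 0x1002f000100100340198000000800080080008002004200080c1383)))) 
(.lf (nat_lit 4697907429) (dlOf (nat_lit 7) (nat_lit 0x1806400c802f000600f8003981800300c80018a040010068000e032000800f8001941800200d0001c064000c01f0003203000601a000300c8001803e0006206000c03400070190003807c000be0c00cc004002c00080c1b82)))) 
(.nd (nat_lit 6) (.nd (nat_lit 30) 
(.lf (nat_lit 939810853) (dlOf (nat_lit 2) (nat_lit 0x500b0004000c00000080004004000a0008180502))) 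
(.lf (nat_lit 4161036325) (dlOf (nat_lit 1) (nat_lit 0xe00080c0581)))) 
(.lf (nat_lit 5234843749) (dlOf (nat_lit 1) (nat_lit 0x350004015a0008100782))))) (.nd (nat_lit 30) 
(.nd (nat_lit 6) (.nd (nat_lit 29) 
(.lf (nat_lit 470048805) (dlOf (nat_lit 6) (nat_lit 0x65874401b839a00b0171013e0aa00d8854405201e80006007000100700cd0e88003073401c82e201c0154014c0a880038540008026e01c00f400b300380007c48047874404b02a80360151013c09b802b83d001f812802a8081013b00380007440073855006c82a200f6094014a04080007020051074404b42a80498151015309b80a303d0022c1280298081014c00380006c400d30008034c00200520008030a03))) 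
(.lf (nat_lit 1006919717) (dlOf (nat_lit 1) (nat_lit 0x80080058002001800080e0a03)))) 
(.lf (nat_lit 474244325) (dlOf (nat_lit 3) (nat_lit 0x540f80002701000c0b60001180801b000800c8002001e00090e2e03)))) 
(.nd (nat_lit 16) 
(.lf (nat_lit 3691274277) (dlOf (nat_lit 2) (nat_lit 0x69003002bbc0800c8008006800200160008110703))) 
(.lf (nat_lit 1543856165) (dlOf (nat_lit 2) (nat_lit 0xc0060007001800380000007e0c008c002005a00081a0582)))))))) 
(.nd (nat_lit 16) (.nd (nat_lit 21) (.nd (nat_lit 8) (.nd (nat_lit 6) (.nd (nat_lit 20) 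
(.nd (nat_lit 23) 
(.lf (nat_lit 3557580837) (dlOf (nat_lit 22) (nat_lit 0x5381c8002008c007803f000100e002be4200a101c8002008c006803f0057c030047039001a8118014807e00af50602a8078003503900a381c4055c0da028e06c014703500a60178003c0ba029a059001002c0075812c01c008c02a60420147020808000fc053803400aef20001001c0056901000800e002b440800481180159e0400d408c00ac302007206f004ea0100520378026bc0805881bc0004042009920401aa06f00010108026441000081bc009c0680098b0401a406f004be0100d80378025ec0800081bc009c0680097704014a06f004b88100130378010dc0806081bc0086c04031c0de0043302000406f002101a00000010001000800a4002005e0008270703))) 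
(.lf (nat_lit 59531301) (dlOf (nat_lit 2) (nat_lit 0x215e000002819810780)))) 
(.lf (nat_lit 27025445) (dlOf (nat_lit 2) (nat_lit 0x6803ec001ce04001400400180018ca0602)))) 
(.nd (nat_lit 7) 
(.lf (nat_lit 42754149) (dlOf (nat_lit 2) (nat_lit 0x33a0000000080018008000400200020009280983))) 
(.lf (nat_lit 4362887397) (dlOf (nat_lit 2) (nat_lit 0x5800000494040018002002200081a0482))))) 
(.nd (nat_lit 26) (.nd (nat_lit 6) (.nd (nat_lit 22) 
(.lf (nat_lit 135029029) (dlOf (nat_lit 2) (nat_lit 0xf800000078040038002002400081b0502))) 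
(.lf (nat_lit 30171429) (dlOf (nat_lit 1) (nat_lit 0xa0028e30701)))) 
(.lf (nat_lit 135029093) (dlOf (nat_lit 2) (nat_lit 0x100000000004000c002000400081b0702)))) 
(.nd (nat_lit 6) (.nd (nat_lit 7) 
(.lf (nat_lit 4228669733) (dlOf (nat_lit 1) (nat_lit 0x40002001800081a0502))) 
(.lf (nat_lit 4228669861) (dlOf (nat_lit 1) (nat_lit 0x1c004000e00081a0782)))) 
(.lf (nat_lit 202137957) (dlOf (nat_lit 2) (nat_lit 0x100000000004000c002000400081b0702)))))) 
(.nd (nat_lit 6) (.nd (nat_lit 7) (.nd (nat_lit 8) (.nd (nat_lit 20) 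
(.lf (nat_lit 28074021) (dlOf (nat_lit 1) (nat_lit 0x800400020008d50702))) 
(.lf (nat_lit 24928293) (dlOf (nat_lit 1) (nat_lit 0x400400020008bd0b82)))) 
(.lf (nat_lit 8152869) (dlOf (nat_lit 1) (nat_lit 0x28008000400200040008513d03)))) (.nd (nat_lit 8) 
(.lf (nat_lit 36463781) (dlOf (nat_lit 1) (nat_lit 0x8008000800200020009072c03))) 
(.lf (nat_lit 8152485) (dlOf (nat_lit 1) (nat_lit 0x400200020008513602))))) (.nd (nat_lit 20) 
(.nd (nat_lit 9) (.lf (nat_lit 4096548965) (dlOf (nat_lit 1) (nat_lit 0x20008120781))) 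
(.lf (nat_lit 53241445) (dlOf (nat_lit 1) (nat_lit 0x20029573901)))) (.nd (nat_lit 23) 
(.lf (nat_lit 1346134117) (dlOf (nat_lit 2) (nat_lit 0x5c036402e80f80000e0400020008e60981))) 
(.lf (nat_lit 45899877) (dlOf (nat_lit 1) (nat_lit 0x38004001a0009360982))))))) (.nd (nat_lit 8) 
(.nd (nat_lit 21) (.nd (nat_lit 20) (.nd (nat_lit 6) (.nd (nat_lit 23) 
(.lf (nat_lit 67985445) (dlOf (nat_lit 3) (nat_lit 0x1417200040630000e82001606d000024080008008001400200020008360583))) 
(.lf (nat_lit 59596837) (dlOf (nat_lit 1) (nat_lit 0xe0019810781)))) 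
(.lf (nat_lit 6376221285) (dlOf (nat_lit 1) (nat_lit 0x400400020008095382)))) (.nd (nat_lit 6) 
(.nd (nat_lit 7) 
(.lf (nat_lit 27090981) (dlOf (nat_lit 5) (nat_lit 0x146d8e000740102376c70023b54804d9a80000e7060044d3f000540101366c7000000081c8000813fc00203ac0008ca0603))) 
(.lf (nat_lit 1925285) (dlOf (nat_lit 1) (nat_lit 0x800400020008150282)))) 
(.lf (nat_lit 43869413) (dlOf (nat_lit 3) (nat_lit 0xac0e000178100095fb8000b80800480080004002002000092a2e03))))) 
(.nd (nat_lit 28) (.nd (nat_lit 7) (.nd (nat_lit 23) 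
(.lf (nat_lit 2755485733) (dlOf (nat_lit 1) (nat_lit 0x8800081a0901))) 
(.lf (nat_lit 45965349) (dlOf (nat_lit 1) (nat_lit 0x400029370781)))) 
(.lf (nat_lit 8221349) (dlOf (nat_lit 1) (nat_lit 0x400200020008518c82)))) (.nd (nat_lit 6) 
(.lf (nat_lit 1346199589) (dlOf (nat_lit 1) (nat_lit 0xb0008000800200b00008e60203))) 
(.lf (nat_lit 1346199653) (dlOf (nat_lit 5) (nat_lit 0x2d0580011429a01e60d9001a06c001a8270001411a0006030000070700310b000640364000180804082c0008214d011806c804f8360023013800ae08d00d603e807201f00001420000c2c0012c0d900070180000001806f80080104002008e0008e60983)))))) 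
(.nd (nat_lit 7) (.nd (nat_lit 9) (.nd (nat_lit 6) 
(.lf (nat_lit 8218917) (dlOf (nat_lit 1) (nat_lit 0x3c0018514b81))) 
(.lf (nat_lit 1344107877) (dlOf (nat_lit 1) (nat_lit 0xe00183d9901)))) (.nd (nat_lit 10) 
(.lf (nat_lit 19757861) (dlOf (nat_lit 1) (nat_lit 0x3a00289dbc81))) 
(.lf (nat_lit 19754789) (dlOf (nat_lit 1) (nat_lit 0x600289d7481))))) (.nd (nat_lit 6) 
(.nd (nat_lit 11) (.lf (nat_lit 8221605) (dlOf (nat_lit 1) (nat_lit 0x70008000c00200020008519103))) 
(.lf (nat_lit 19757989) (dlOf (nat_lit 1) (nat_lit 0x600289dbd01)))) (.nd (nat_lit 10) 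
(.lf (nat_lit 8223205) (dlOf (nat_lit 1) (nat_lit 0x8c001851b281))) 
(.lf (nat_lit 19754469) (dlOf (nat_lit 1) (nat_lit 0x600189d6e01)))))))))) (.nd (nat_lit 18) 
(.nd (nat_lit 6) (.nd (nat_lit 16) (.nd (nat_lit 19) (.nd (nat_lit 9) (.nd (nat_lit 8) 
(.nd (nat_lit 21) (.nd (nat_lit 23) 
(.lf (nat_lit 470868005) (dlOf (nat_lit 2) (nat_lit 0xe0b580036c080058008001c002005200081c0603))) 
(.lf (nat_lit 9494565) (dlOf (nat_lit 4) (nat_lit 0x61df0001a8100060ef8000c80800a80000005404001800400300018560582)))) 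
(.lf (nat_lit 472965157) (dlOf (nat_lit 1) (nat_lit 0x1400200020008b70202)))) (.nd (nat_lit 7) 
(.nd (nat_lit 11) (.lf (nat_lit 3493912869) (dlOf (nat_lit 1) (nat_lit 0x4004000200181b0502))) 
(.lf (nat_lit 536930597) (dlOf (nat_lit 1) (nat_lit 0x100018004b81)))) (.nd (nat_lit 22) 
(.lf (nat_lit 1543561637) (dlOf (nat_lit 1) (nat_lit 0x700080030002001000080b0783))) 
(.lf (nat_lit 3493912997) (dlOf (nat_lit 1) (nat_lit 0xc002000a00081b0782)))))) (.nd (nat_lit 26) 
(.nd (nat_lit 10) (.nd (nat_lit 7) 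
(.lf (nat_lit 11592229) (dlOf (nat_lit 1) (nat_lit 0x4004000200186c0e02))) 
(.lf (nat_lit 19985061) (dlOf (nat_lit 1) (nat_lit 0x4002000200089d8c82)))) (.nd (nat_lit 8) 
(.nd (nat_lit 27) 
(.lf (nat_lit 2684417573) (dlOf (nat_lit 1) (nat_lit 0x8008000400200020008009c03))) 
(.lf (nat_lit 2281764389) (dlOf (nat_lit 1) (nat_lit 0x8008000400200020008009c03)))) 
(.lf (nat_lit 1342240549) (dlOf (nat_lit 1) (nat_lit 0x2000800a081))))) (.nd (nat_lit 8) 
(.nd (nat_lit 27) (.lf (nat_lit 67171877) (dlOf (nat_lit 1) (nat_lit 0x400400020008009c02))) 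
(.lf (nat_lit 6643840549) (dlOf (nat_lit 1) (nat_lit 0x400400020008009c02)))) 
(.lf (nat_lit 201385765) (dlOf (nat_lit 1) (nat_lit 0x8008001c00200020008003d03)))))) 
(.nd (nat_lit 29) (.nd (nat_lit 21) (.nd (nat_lit 30) (.nd (nat_lit 7) 
(.lf (nat_lit 18407461) (dlOf (nat_lit 1) (nat_lit 0x8008000400200020008930583))) 
(.lf (nat_lit 583845) (dlOf (nat_lit 1) (nat_lit 0x20028004881)))) (.nd (nat_lit 26) 
(.lf (nat_lit 3221807141) (dlOf (nat_lit 17) (nat_lit 0xe406e000650200b20370003201003901b80018c0803500f0000c00400480780005d02013c03b0001401001101d80009c0803a80f801f001c0001904004803e002b007000a8000000300c02b407c016a00e0000b82007d01f003a803801d401800ce0000000b0400cb01f006080380248000000140600a800000005010006000000014080018000000040401d409800d003c00c0000000000180030008009000200200008190b83))) 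
(.lf (nat_lit 3557351461) (dlOf (nat_lit 11) (nat_lit 0x8606100090300003a01000b818400480c00006059001002c000a80fc005803a000801a001800100039c40006818400300c0000e6040016061000603000038c1000300700014e0400700c200360600000702001103080058180000140800440c200140600000482000c03080020180000100800140c2000e06000060248000001800100080360002004400081c0603))))) 
(.nd (nat_lit 23) (.nd (nat_lit 20) 
(.lf (nat_lit 23650341) (dlOf (nat_lit 2) (nat_lit 0x41ad06020d5fc0065f828b80000))) 
(.lf (nat_lit 24698917) (dlOf (nat_lit 2) (nat_lit 0x14bce002d5db80008010021000803fc00201060008bb0883)))) 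
(.nd (nat_lit 7) (.lf (nat_lit 48816165) (dlOf (nat_lit 1) (nat_lit 0x400029430781))) 
(.lf (nat_lit 44624549) (dlOf (nat_lit 1) (nat_lit 0x520029325601)))))) (.nd (nat_lit 26) 
(.nd (nat_lit 7) (.nd (nat_lit 28) 
(.lf (nat_lit 1611194405) (dlOf (nat_lit 2) (nat_lit 0x2602a0004a018110480))) 
(.lf (nat_lit 805888037) (dlOf (nat_lit 2) (nat_lit 0x100000006402000a00181e0b81)))) 
(.lf (nat_lit 537452965) (dlOf (nat_lit 1) (nat_lit 0x360028090781)))) (.nd (nat_lit 9) 
(.nd (nat_lit 30) (.lf (nat_lit 738779173) (dlOf (nat_lit 2) (nat_lit 0x2602a0004a018110480))) 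
(.lf (nat_lit 3960004645) (dlOf (nat_lit 1) (nat_lit 0x40028190a81)))) 
(.lf (nat_lit 1008263717) (dlOf (nat_lit 1) (nat_lit 0x200008b18781))))))) (.nd (nat_lit 26) 
(.nd (nat_lit 8) (.nd (nat_lit 23) (.nd (nat_lit 20) 
(.lf (nat_lit 2684477477) (dlOf (nat_lit 1) (nat_lit 0x400400020008040802))) (.nd (nat_lit 21) 
(.lf (nat_lit 17948709) (dlOf (nat_lit 1) (nat_lit 0x400200020008900a82))) 
(.lf (nat_lit 7462949) (dlOf (nat_lit 1) (nat_lit 0x200284b0001))))) (.nd (nat_lit 9) 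
(.nd (nat_lit 19) 
(.lf (nat_lit 9560101) (dlOf (nat_lit 9) (nat_lit 0x1c45200029810001582000ba864000840800308a400035020004452000188100072290000c0080032864001c0000002a040018a190000481000f21a800000080048008008800200020008560583))) 
(.lf (nat_lit 13230117) (dlOf (nat_lit 6) (nat_lit 0xa1ff800158080539280000a8040078964000510201dc511000178101e92888000b808051000800a000202cc0008710b83)))) 
(.lf (nat_lit 11657765) (dlOf (nat_lit 2) (nat_lit 0x40b44000180400b8004000400086c0e02))))) 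
(.nd (nat_lit 12) (.nd (nat_lit 7) 
(.lf (nat_lit 3087132453) (dlOf (nat_lit 1) (nat_lit 0x98002008a0008143d02))) 
(.lf (nat_lit 805431717) (dlOf (nat_lit 1) (nat_lit 0x20018114e81)))) (.nd (nat_lit 28) 
(.lf (nat_lit 3221355941) (dlOf (nat_lit 5) (nat_lit 0x60460002020000600e0006c02c0007608001404600050218001d41000180bc000e204009008c004e045000802100000018000800800300020012000811cb03))) 
(.lf (nat_lit 805436837) (dlOf (nat_lit 4) (nat_lit 0x601580030026000660400380560003281001e02b000f004c00000080094004001c001811cb02)))))) 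
(.nd (nat_lit 27) (.nd (nat_lit 11) (.nd (nat_lit 19) (.nd (nat_lit 28) 
(.lf (nat_lit 67231781) (dlOf (nat_lit 3) (nat_lit 0x1428c000411e0000e8200160b6000024080008008001400200020008040583))) 
(.lf (nat_lit 2483150885) (dlOf (nat_lit 2) (nat_lit 0x3201000000018030a00)))) 
(.lf (nat_lit 4362723365) (dlOf (nat_lit 5) (nat_lit 0xc00c80007c040040064000320200bc04f000178100d90278000b80801400080004002007200080e0b83)))) 
(.nd (nat_lit 7) 
(.lf (nat_lit 1677850917) (dlOf (nat_lit 1) (nat_lit 0x8000800140020008000811ab83))) 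
(.lf (nat_lit 3825331365) (dlOf (nat_lit 1) (nat_lit 0x400200020008146282))))) (.nd (nat_lit 7) 
(.nd (nat_lit 19) (.lf (nat_lit 2348933157) (dlOf (nat_lit 2) (nat_lit 0x3201000000018030a00))) 
(.nd (nat_lit 20) 
(.lf (nat_lit 4228505637) (dlOf (nat_lit 5) (nat_lit 0xc00c40007c040040062000320200bc048000178100d90240000b80801400080004002007200080e0b83))) 
(.lf (nat_lit 471457829) (dlOf (nat_lit 1) (nat_lit 0x20018300a81))))) (.nd (nat_lit 9) 
(.nd (nat_lit 10) (.lf (nat_lit 6377037989) (dlOf (nat_lit 1) (nat_lit 0x3c002005200080a2c02))) 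
(.lf (nat_lit 474080421) (dlOf (nat_lit 7) (nat_lit 0x150b400070598004c02e001c0150002e84000b0b4800205a000200300005906001c169000b00c0001601000385a4002803000057040010169000b0b300020060000a80c00302d2000e166000600c0001141800f8008006c00200280009082c03)))) 
(.lf (nat_lit 1812065957) (dlOf (nat_lit 1) (nat_lit 0x400400020008147202)))))))) (.nd (nat_lit 8) 
(.nd (nat_lit 7) (.nd (nat_lit 16) (.nd (nat_lit 9) (.nd (nat_lit 19) 
(.lf (nat_lit 472965221) (dlOf (nat_lit 3) (nat_lit 0x5381f4000560400241b20000e0200020018b70981))) 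
(.nd (nat_lit 24) 
(.lf (nat_lit 474538085) (dlOf (nat_lit 5) (nat_lit 0x140460005102007a096000b03980012810096825804dc1080048083013703a009781cc0004032000420c004209600250398000dc1001c000800bc002004e00091a0983))) 
(.lf (nat_lit 21553253) (dlOf (nat_lit 1) (nat_lit 0x260008a40781))))) (.nd (nat_lit 22) 
(.lf (nat_lit 5771422309) (dlOf (nat_lit 1) (nat_lit 0x400400020008005382))) 
(.lf (nat_lit 1346431589) (dlOf (nat_lit 5) (nat_lit 0x440b800010c080368820015c368006c170000210300350b8000104080160894022841a04e0208025b0da0041068802902e0008616e030d05a008b82b005c0148036600101c10000000ec600108008045800200be0008f65383))))) 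
(.nd (nat_lit 19) (.nd (nat_lit 9) 
(.lf (nat_lit 24240229) (dlOf (nat_lit 1) (nat_lit 0x80028b91381))) (.nd (nat_lit 10) 
(.lf (nat_lit 46262885) (dlOf (nat_lit 2) (nat_lit 0x8532c80007604000c004000a0019385382))) 
(.lf (nat_lit 1345447525) (dlOf (nat_lit 3) (nat_lit 0x86165000198100180b28000c80800f800800e800200160008bb3903))))) 
(.nd (nat_lit 23) (.lf (nat_lit 537518181) (dlOf (nat_lit 1) (nat_lit 0x600280a1301))) 
(.nd (nat_lit 24) (.lf (nat_lit 42590309) (dlOf (nat_lit 1) (nat_lit 0x3c004001c0009260982))) 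
(.lf (nat_lit 25813093) (dlOf (nat_lit 1) (nat_lit 0xa0028c10281))))))) (.nd (nat_lit 10) 
(.nd (nat_lit 11) (.nd (nat_lit 19) 
(.lf (nat_lit 671146213) (dlOf (nat_lit 2) (nat_lit 0x1c809800000040030004002800080b0482))) 
(.nd (nat_lit 20) (.lf (nat_lit 470343909) (dlOf (nat_lit 1) (nat_lit 0x5c00080c0481))) 
(.lf (nat_lit 28893413) (dlOf (nat_lit 2) (nat_lit 0xcb854000aa040008004000a0008da0582))))) 
(.nd (nat_lit 9) (.lf (nat_lit 3087132901) (dlOf (nat_lit 1) (nat_lit 0x40018144b01))) 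
(.lf (nat_lit 3556895461) (dlOf (nat_lit 1) (nat_lit 0x58004000600180d5982))))) (.nd (nat_lit 20) 
(.nd (nat_lit 9) (.nd (nat_lit 16) 
(.lf (nat_lit 3019957477) (dlOf (nat_lit 1) (nat_lit 0x400200020008082e02))) 
(.lf (nat_lit 5570159845) (dlOf (nat_lit 1) (nat_lit 0x20028052e01)))) 
(.lf (nat_lit 805433061) (dlOf (nat_lit 1) (nat_lit 0x80080028002000e0008117383)))) 
(.nd (nat_lit 19) 
(.lf (nat_lit 1345447141) (dlOf (nat_lit 2) (nat_lit 0x7858c0008c04004c00200400008bb2e02))) 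
(.lf (nat_lit 43640037) (dlOf (nat_lit 1) (nat_lit 0x80080004002000200092a2e03))))))) 
(.nd (nat_lit 26) (.nd (nat_lit 21) (.nd (nat_lit 7) (.nd (nat_lit 10) (.nd (nat_lit 22) 
(.lf (nat_lit 671146341) (dlOf (nat_lit 2) (nat_lit 0x9c04c007c01b00270018000a41801100080070002000a00080b0703))) 
(.lf (nat_lit 3493912933) (dlOf (nat_lit 4) (nat_lit 0x2c214001c10400140800000680c007041000032020042214003110000007c1000680080054002002200081b0703)))) 
(.lf (nat_lit 2952852837) (dlOf (nat_lit 1) (nat_lit 0x1400400080018009902)))) (.nd (nat_lit 11) 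
(.lf (nat_lit 1610736613) (dlOf (nat_lit 1) (nat_lit 0x20018092881))) 
(.lf (nat_lit 5234551781) (dlOf (nat_lit 1) (nat_lit 0x400400020008055e82))))) (.nd (nat_lit 16) 
(.nd (nat_lit 7) (.lf (nat_lit 3203429) (dlOf (nat_lit 1) (nat_lit 0x20018200701))) 
(.lf (nat_lit 11592165) (dlOf (nat_lit 1) (nat_lit 0x38008003c002000600086c0c03)))) 
(.nd (nat_lit 19) (.nd (nat_lit 20) 
(.lf (nat_lit 2220389) (dlOf (nat_lit 1) (nat_lit 0x400200020008150702))) 
(.lf (nat_lit 3268965) (dlOf (nat_lit 1) (nat_lit 0x20018200701)))) 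
(.lf (nat_lit 12181861) (dlOf (nat_lit 1) (nat_lit 0x800186c0701)))))) (.nd (nat_lit 7) 
(.nd (nat_lit 10) (.nd (nat_lit 9) (.nd (nat_lit 22) 
(.lf (nat_lit 1543561573) (dlOf (nat_lit 2) (nat_lit 0x9c04c007c01900270018000a41801100080070002000a00080b0703))) 
(.lf (nat_lit 2755715429) (dlOf (nat_lit 1) (nat_lit 0xc0008052c00202ac00081b0703)))) 
(.lf (nat_lit 1409350501) (dlOf (nat_lit 1) (nat_lit 0x28008001c0020008000800bc83)))) 
(.nd (nat_lit 11) 
(.lf (nat_lit 3691050341) (dlOf (nat_lit 2) (nat_lit 0x600d8004800800000080004004000c0008009902))) 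
(.lf (nat_lit 2885746021) (dlOf (nat_lit 1) (nat_lit 0xc0020006000800c902))))) (.nd (nat_lit 28) 
(.nd (nat_lit 10) (.nd (nat_lit 11) 
(.lf (nat_lit 1677845477) (dlOf (nat_lit 1) (nat_lit 0x1000400060008112882))) 
(.lf (nat_lit 738323429) (dlOf (nat_lit 1) (nat_lit 0x400200020008095e82)))) 
(.lf (nat_lit 2752051173) (dlOf (nat_lit 1) (nat_lit 0x2000800a601)))) (.nd (nat_lit 9) 
(.lf (nat_lit 4093700581) (dlOf (nat_lit 1) (nat_lit 0x400400020008004e82))) (.nd (nat_lit 20) 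
(.lf (nat_lit 5704313829) (dlOf (nat_lit 1) (nat_lit 0x8008000c00200020008055e83))) 
(.lf (nat_lit 4094749669) (dlOf (nat_lit 1) (nat_lit 0x400400020008055e82)))))))))) 
(.nd (nat_lit 6) (.nd (nat_lit 19) (.nd (nat_lit 27) (.nd (nat_lit 20) (.nd (nat_lit 16) 
(.nd (nat_lit 8) (.nd (nat_lit 9) 
(.lf (nat_lit 1879367717) (dlOf (nat_lit 4) (nat_lit 0x402b40004103000101d00008018002856000040880001d04001015800090a580005c1000100080100002007600080f0883))) 
(.lf (nat_lit 23388709) (dlOf (nat_lit 9) (nat_lit 0x48c8a8000580801564540002a04008722a004d86f00007020066c8a8000300800ee454005f22200038eb0025c3780001820001e45400270de000050400259150000201000ec8a80000c0800f0008000400200040008b80e03)))) 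
(.lf (nat_lit 2751784741) (dlOf (nat_lit 1) (nat_lit 0x20018003d01)))) (.nd (nat_lit 32) 
(.nd (nat_lit 21) (.nd (nat_lit 28) 
(.lf (nat_lit 3221610533) (dlOf (nat_lit 2) (nat_lit 0x3e02f00000018160900))) 
(.lf (nat_lit 805691429) (dlOf (nat_lit 1) (nat_lit 0x40028190901)))) 
(.lf (nat_lit 6676517) (dlOf (nat_lit 1) (nat_lit 0x20008000400200040008440a83)))) 
(.nd (nat_lit 26) (.nd (nat_lit 28) 
(.lf (nat_lit 6442836005) (dlOf (nat_lit 1) (nat_lit 0x80080004002000a00081d0a03))) 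
(.lf (nat_lit 4563787813) (dlOf (nat_lit 1) (nat_lit 0x1580080054002007a00080e0a03)))) 
(.lf (nat_lit 4362461221) (dlOf (nat_lit 1) (nat_lit 0x628008000400200ec0008090003)))))) 
(.nd (nat_lit 21) (.nd (nat_lit 28) (.nd (nat_lit 22) 
(.lf (nat_lit 2752897061) (dlOf (nat_lit 1) (nat_lit 0x20008060581))) 
(.lf (nat_lit 30793765) (dlOf (nat_lit 1) (nat_lit 0x400200020008e50a82)))) (.nd (nat_lit 16) 
(.lf (nat_lit 1343545381) (dlOf (nat_lit 2) (nat_lit 0x52050802828080030008000400200140008290703))) 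
(.lf (nat_lit 3491094565) (dlOf (nat_lit 1) (nat_lit 0x20008060581))))) (.nd (nat_lit 7) 
(.nd (nat_lit 16) (.lf (nat_lit 24436773) (dlOf (nat_lit 1) (nat_lit 0x800800a4002002a0008ba0a03))) 
(.nd (nat_lit 23) (.lf (nat_lit 7725093) (dlOf (nat_lit 1) (nat_lit 0x200080004002000400084d0a83))) 
(.lf (nat_lit 32890917) (dlOf (nat_lit 3) (nat_lit 0x160880006c08010aca000e94d20001404001c0008f40781))))) 
(.nd (nat_lit 8) (.lf (nat_lit 20311717) (dlOf (nat_lit 1) (nat_lit 0x24004000200189d7202))) 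
(.lf (nat_lit 1345710501) (dlOf (nat_lit 1) (nat_lit 0x18004000a0008dd4e82))))))) (.nd (nat_lit 26) 
(.nd (nat_lit 16) (.nd (nat_lit 7) 
(.lf (nat_lit 3355762725) (dlOf (nat_lit 1) (nat_lit 0xc004000a00180f0802))) 
(.lf (nat_lit 671408293) (dlOf (nat_lit 1) (nat_lit 0x400200080008184902)))) (.nd (nat_lit 9) 
(.nd (nat_lit 28) (.lf (nat_lit 134602789) (dlOf (nat_lit 1) (nat_lit 0x40008090001))) 
(.lf (nat_lit 4698005541) (dlOf (nat_lit 2) (nat_lit 0x10190000400800900080004002000a00080e0983)))) 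
(.lf (nat_lit 134603301) (dlOf (nat_lit 2) (nat_lit 0xf201e8000000801a000801d400200840008090e03))))) 
(.nd (nat_lit 16) (.nd (nat_lit 7) 
(.lf (nat_lit 1543823653) (dlOf (nat_lit 2) (nat_lit 0x3808c0000004000800400220008187802))) 
(.lf (nat_lit 1543823525) (dlOf (nat_lit 1) (nat_lit 0x400200080008184902)))) (.nd (nat_lit 28) 
(.nd (nat_lit 9) 
(.lf (nat_lit 3959808037) (dlOf (nat_lit 1) (nat_lit 0x48008000800200080008160883))) 
(.lf (nat_lit 201712165) (dlOf (nat_lit 2) (nat_lit 0xf201e8000000801a000801d400200840008090e03)))) 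
(.nd (nat_lit 29) 
(.lf (nat_lit 5838856229) (dlOf (nat_lit 1) (nat_lit 0x80080004002000a00081d0a03))) 
(.lf (nat_lit 4228243493) (dlOf (nat_lit 1) (nat_lit 0x19400400500008090002)))))))) 
(.nd (nat_lit 16) (.nd (nat_lit 20) (.nd (nat_lit 28) (.nd (nat_lit 21) (.nd (nat_lit 22) 
(.lf (nat_lit 59564069) (dlOf (nat_lit 11) (nat_lit 0xa680c000168100594060000b008021a030000560401450180002a02009a80c0001481003c40600001808023a0300000a040079018000040200fe80c000010100364060000000800380080180002003a0009810783))) 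
(.lf (nat_lit 21815333) (dlOf (nat_lit 1) (nat_lit 0x8008000400200020008a70483)))) 
(.lf (nat_lit 15523877) (dlOf (nat_lit 1) (nat_lit 0x280018800681)))) (.nd (nat_lit 26) 
(.lf (nat_lit 1343021093) (dlOf (nat_lit 2) (nat_lit 0xb400a001540200020018130901))) 
(.nd (nat_lit 27) (.lf (nat_lit 3557613605) (dlOf (nat_lit 1) (nat_lit 0x2800400020008270702))) 
(.lf (nat_lit 470605861) (dlOf (nat_lit 2) (nat_lit 0xb40080015e0200020018130901)))))) 
(.nd (nat_lit 23) (.nd (nat_lit 21) (.nd (nat_lit 26) 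
(.lf (nat_lit 1344069669) (dlOf (nat_lit 1) (nat_lit 0xc004000400083b0702))) 
(.lf (nat_lit 4095533093) (dlOf (nat_lit 1) (nat_lit 0x4004004200080d0482)))) 
(.lf (nat_lit 1346166821) (dlOf (nat_lit 2) (nat_lit 0x9440a003a1a900170b400128514008c19e00160b20027039800e00700005220007400400300008e60202)))) 
(.nd (nat_lit 24) (.lf (nat_lit 10280997) (dlOf (nat_lit 1) (nat_lit 0x29c002015800085c0a02))) 
(.lf (nat_lit 27058213) (dlOf (nat_lit 1) (nat_lit 0x8008000400200020008ca0603)))))) 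
(.nd (nat_lit 9) (.nd (nat_lit 10) (.nd (nat_lit 7) (.nd (nat_lit 20) 
(.lf (nat_lit 3006501) (dlOf (nat_lit 1) (nat_lit 0x10008000c002000200081f0903))) 
(.lf (nat_lit 4055077) (dlOf (nat_lit 1) (nat_lit 0x8008000400200020008270903)))) 
(.lf (nat_lit 58583461) (dlOf (nat_lit 1) (nat_lit 0x200197e4e81)))) (.nd (nat_lit 20) 
(.lf (nat_lit 3492668453) (dlOf (nat_lit 1) (nat_lit 0x1200180f2881))) 
(.lf (nat_lit 58582053) (dlOf (nat_lit 1) (nat_lit 0x4004000200197e2882))))) (.nd (nat_lit 7) 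
(.nd (nat_lit 26) 
(.lf (nat_lit 3493716517) (dlOf (nat_lit 9) (nat_lit 0x6d00e0001a00802e8070000ce0401a8038000660200420220001481002101100009808008019800800c200340570001020801000fc00b4044006601c000b00d80009440003008800042040010082000e03f0001011000000180300008007c002001600081b0e03))) 
(.lf (nat_lit 2755519013) (dlOf (nat_lit 9) (nat_lit 0x6d00e0001940802e8070000c80401a8038000630200420220001481002101100009808008019800800c200340570001020801000fc00b4044006601c000b00d80009440003008800042040010082000e03f0001011000000180300008007c002001600081b0e03)))) 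
(.nd (nat_lit 8) (.nd (nat_lit 20) 
(.lf (nat_lit 51243685) (dlOf (nat_lit 18) (nat_lit 0x159824007cc11006459480422ca002294f60116a690001c86007b609003c2ca4000700800cd822011ab28006c53d8036a9a40006e100195824009ac1100745948047aca002494f6012ca6900064c60000d838004a9a40006a04015d82400eeb29002853d80009818035b04801d9652000240400cac12008359480008810078304000597f201e6b2700c953d0067a9a000a946000e498b0000d8700d96080070ac9c03014f401c0a68000751800006828076304002a57f201dab2700d853d007ca9a0039946001a698b0000c8700166080012ac9c01754f40001806010ac10008f593804ca9e802754d00001708013ec1000a85938054a9e8029d4d0006098b0000b0500a06080052ac9c02f54f40192a680000a8400a160800522c9c026d4f40140a68001c4c580005028000a9a00002604005800400180019515602))) 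
(.lf (nat_lit 58583717) (dlOf (nat_lit 3) (nat_lit 0x47400001c8100034388000e00800180080008002000800097e5603)))) 
(.lf (nat_lit 46001061) (dlOf (nat_lit 1) (nat_lit 0x40029385c81)))))))) (.nd (nat_lit 7) 
(.nd (nat_lit 19) (.nd (nat_lit 8) (.nd (nat_lit 22) (.nd (nat_lit 26) 
(.lf (nat_lit 5637529701) (dlOf (nat_lit 2) (nat_lit 0x30070032d8080030008000c002000c0008100783))) 
(.nd (nat_lit 27) 
(.lf (nat_lit 6241509477) (dlOf (nat_lit 2) (nat_lit 0x3007001c24080030008000c002000c0008100783))) 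
(.lf (nat_lit 201711717) (dlOf (nat_lit 1) (nat_lit 0x1000400020008090002))))) (.nd (nat_lit 10) 
(.nd (nat_lit 16) 
(.lf (nat_lit 474275941) (dlOf (nat_lit 3) (nat_lit 0x448c00020920008c820001049000460080020008000400200060009100d83))) 
(.lf (nat_lit 1346756709) (dlOf (nat_lit 5) (nat_lit 0x140520005102007a096000b03980012810096825804dc1080048083013703a009781cc000403c000420c004209600250398000dc1001c000800bc002004e0009000983)))) 
(.lf (nat_lit 38134885) (dlOf (nat_lit 1) (nat_lit 0xac0009132981))))) (.nd (nat_lit 21) 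
(.nd (nat_lit 11) (.nd (nat_lit 27) 
(.lf (nat_lit 2483413349) (dlOf (nat_lit 3) (nat_lit 0x560000001a01000e0000000cc0800380080020002001000081b0703))) 
(.lf (nat_lit 2349195621) (dlOf (nat_lit 3) (nat_lit 0x560000001a01000e0000000cc0800380080020002001000081b0703)))) 
(.lf (nat_lit 1745217893) (dlOf (nat_lit 1) (nat_lit 0x9800280e4e81)))) (.nd (nat_lit 16) 
(.lf (nat_lit 2416997) (dlOf (nat_lit 1) (nat_lit 0x400200020008150702))) 
(.lf (nat_lit 3531109) (dlOf (nat_lit 1) (nat_lit 0x400200020008200702)))))) (.nd (nat_lit 21) 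
(.nd (nat_lit 26) (.nd (nat_lit 8) (.nd (nat_lit 16) 
(.lf (nat_lit 42786917) (dlOf (nat_lit 2) (nat_lit 0x2ce900007019280980))) 
(.lf (nat_lit 59629669) (dlOf (nat_lit 2) (nat_lit 0xb3f000011f440008f84016e79100692b2800095580001c18000400200060009820982)))) 
(.lf (nat_lit 135061861) (dlOf (nat_lit 1) (nat_lit 0x18000200a000081b0702)))) (.nd (nat_lit 27) 
(.lf (nat_lit 4362920293) (dlOf (nat_lit 2) (nat_lit 0x2600000000008000800800c0002002e00081a0703))) 
(.nd (nat_lit 28) (.lf (nat_lit 202170725) (dlOf (nat_lit 1) (nat_lit 0x18000200a000081b0702))) 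
(.lf (nat_lit 4228702565) (dlOf (nat_lit 2) (nat_lit 0x2600000000008000800800c0002002e00081a0703)))))) 
(.nd (nat_lit 8) (.nd (nat_lit 16) 
(.lf (nat_lit 1346166885) (dlOf (nat_lit 6) (nat_lit 0xe685340d5c1b2035e0d8013d03e80a401f002100600000e0c05ec0d900d103e8000301000683640001604093c29a07cc0d9022706c00e101f407600f80000a0a05e00d900d003e8000001002e800800b8002003a0008e60983))) 
(.lf (nat_lit 3493716069) (dlOf (nat_lit 1) (nat_lit 0x80080504002011e00081b0003)))) 
(.nd (nat_lit 9) (.nd (nat_lit 10) 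
(.lf (nat_lit 12378469) (dlOf (nat_lit 1) (nat_lit 0x800186c0701))) 
(.lf (nat_lit 19723621) (dlOf (nat_lit 1) (nat_lit 0x4002000200089d9902)))) 
(.lf (nat_lit 8254309) (dlOf (nat_lit 1) (nat_lit 0x400200020008518f82))))))) (.nd (nat_lit 27) 
(.nd (nat_lit 19) (.nd (nat_lit 9) (.nd (nat_lit 16) 
(.lf (nat_lit 21291493) (dlOf (nat_lit 5) (nat_lit 0x44eb00004f28c004f7000088dfe00056fe8022364000cdb1e0088d7b00446bd002235bc0111aa80088d5300446a10022350400d5a5c0088d2d003a690802234600099a2e0032d0f00286870022340c0111a040088cf7004466e0022336c01119960048c9a00444d3001d260001192fe0005e3e000dd600007e51802e37f80029bfa00b8d90005c6c7802e35ec0171af40090d6f005c6aa002e354c0171a8400b8d41005c697002e34b40171a4200b8d18002268b800e34380171a060062d02005c67b802e337001719b600b8ccb004e64d002e2698018930000cc97f0002e1d000966580011008005b32c0008604013c00400040008a37302))) 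
(.nd (nat_lit 22) 
(.lf (nat_lit 4362461669) (dlOf (nat_lit 1) (nat_lit 0x80080020002000a0008090c03))) 
(.lf (nat_lit 21357029) (dlOf (nat_lit 2) (nat_lit 0x1b4bf80010c0800100080004002000e0008a37303))))) 
(.nd (nat_lit 20) (.lf (nat_lit 38134757) (dlOf (nat_lit 1) (nat_lit 0x8008000400200080009132883))) 
(.lf (nat_lit 47571941) (dlOf (nat_lit 1) (nat_lit 0x1c0029402881))))) (.nd (nat_lit 28) 
(.nd (nat_lit 8) (.nd (nat_lit 9) 
(.lf (nat_lit 43836645) (dlOf (nat_lit 2) (nat_lit 0x4c662000230192a2e00))) 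
(.lf (nat_lit 57469669) (dlOf (nat_lit 1) (nat_lit 0x14004000a0009795982)))) 
(.lf (nat_lit 2755518949) (dlOf (nat_lit 1) (nat_lit 0x200181b0c01)))) (.nd (nat_lit 8) 
(.nd (nat_lit 9) (.lf (nat_lit 1346233573) (dlOf (nat_lit 1) (nat_lit 0x260028e82e01))) 
(.lf (nat_lit 1345186533) (dlOf (nat_lit 2) (nat_lit 0x85940006e04005c00200040008b05982)))) 
(.lf (nat_lit 3493716453) (dlOf (nat_lit 1) (nat_lit 0x200181b0c01)))))) (.nd (nat_lit 28) 
(.nd (nat_lit 8) (.nd (nat_lit 9) 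
(.lf (nat_lit 2349195493) (dlOf (nat_lit 1) (nat_lit 0x1a00281b0481))) 
(.lf (nat_lit 1745218277) (dlOf (nat_lit 1) (nat_lit 0x4004000200080e5982)))) (.nd (nat_lit 26) 
(.lf (nat_lit 134603237) (dlOf (nat_lit 1) (nat_lit 0x1000400120018090c02))) 
(.lf (nat_lit 201712101) (dlOf (nat_lit 1) (nat_lit 0x1000400120018090c02))))) (.nd (nat_lit 21) 
(.nd (nat_lit 8) (.lf (nat_lit 5772797157) (dlOf (nat_lit 1) (nat_lit 0x400200da0008092e02))) 
(.lf (nat_lit 4228243941) (dlOf (nat_lit 1) (nat_lit 0x80080020002000a0008090c03)))) 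
(.nd (nat_lit 9) (.lf (nat_lit 472771045) (dlOf (nat_lit 1) (nat_lit 0x8008000400200020008b04e83))) 
(.lf (nat_lit 1009116133) (dlOf (nat_lit 1) (nat_lit 0xc8008000800200820009082883))))))))))))

end

end Pool.Agent.Lib.MP_5854e1_co.Cz

namespace Pool.Agent.Lib.MP_5854e1_co.Cz

noncomputable section

noncomputable def tz109 : DT := (.nd (nat_lit 16) (.nd (nat_lit 18) (.nd (nat_lit 5) 
(.nd (nat_lit 15) (.nd (nat_lit 6) (.nd (nat_lit 30) (.nd (nat_lit 20) (.nd (nat_lit 9) 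
(.nd (nat_lit 19) (.nd (nat_lit 22) 
(.lf (nat_lit 27287573) (dlOf (nat_lit 1) (nat_lit 0xe0018cc0401))) (.nd (nat_lit 23) 
(.lf (nat_lit 23093269) (dlOf (nat_lit 2) (nat_lit 0x2adc00000018b50280))) 
(.lf (nat_lit 14704661) (dlOf (nat_lit 2) (nat_lit 0x1f8bea00fc43f007e0d58011869401f8062005c02b000f5068770080))))) 
(.nd (nat_lit 26) 
(.lf (nat_lit 2819121173) (dlOf (nat_lit 2) (nat_lit 0x4c06c0000002000200181a0481))) 
(.nd (nat_lit 31) 
(.lf (nat_lit 4362625045) (dlOf (nat_lit 2) (nat_lit 0x52000000000040460002003a00080b0582))) 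
(.lf (nat_lit 6510108693) (dlOf (nat_lit 1) (nat_lit 0xa00281d0581)))))) (.nd (nat_lit 7) 
(.lf (nat_lit 28181) (dlOf (nat_lit 1) (nat_lit 0x60028007081))) (.nd (nat_lit 28) 
(.lf (nat_lit 671116949) (dlOf (nat_lit 4) (nat_lit 0x700000003402000a0230001901000a0118000c4080008008013c00200100008007203))) 
(.lf (nat_lit 3087036053) (dlOf (nat_lit 2) (nat_lit 0x3201f000500b8000d01000680080098002001c0008007203)))))) 
(.nd (nat_lit 19) (.nd (nat_lit 9) (.nd (nat_lit 7) 
(.lf (nat_lit 11558933) (dlOf (nat_lit 1) (nat_lit 0x200286b0481))) 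
(.lf (nat_lit 3170453) (dlOf (nat_lit 2) (nat_lit 0x11e46500005018200180)))) (.nd (nat_lit 8) 
(.lf (nat_lit 24142357) (dlOf (nat_lit 1) (nat_lit 0xe0028b80d81))) 
(.lf (nat_lit 19953429) (dlOf (nat_lit 1) (nat_lit 0x10002001c00089da002))))) (.nd (nat_lit 23) 
(.nd (nat_lit 7) (.lf (nat_lit 3694613) (dlOf (nat_lit 1) (nat_lit 0x80008001000200080008210803))) 
(.lf (nat_lit 37251477) (dlOf (nat_lit 1) (nat_lit 0x4002002c00090d4e82)))) (.nd (nat_lit 9) 
(.lf (nat_lit 9986069) (dlOf (nat_lit 1) (nat_lit 0x600185a0a01))) 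
(.lf (nat_lit 12083733) (dlOf (nat_lit 1) (nat_lit 0x4002000200086c0d82))))))) (.nd (nat_lit 11) 
(.nd (nat_lit 26) (.nd (nat_lit 22) (.nd (nat_lit 19) 
(.lf (nat_lit 1343250453) (dlOf (nat_lit 1) (nat_lit 0x4002000200081d0302))) 
(.lf (nat_lit 5906128917) (dlOf (nat_lit 1) (nat_lit 0xa00281d0581)))) (.nd (nat_lit 9) 
(.lf (nat_lit 3493879829) (dlOf (nat_lit 1) (nat_lit 0x800181b0001))) 
(.lf (nat_lit 3493880341) (dlOf (nat_lit 2) (nat_lit 0x1501800000002001e00081b0d81))))) 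
(.nd (nat_lit 7) (.lf (nat_lit 4228407317) (dlOf (nat_lit 1) (nat_lit 0x110002008e00080b0582))) 
(.nd (nat_lit 8) (.lf (nat_lit 3422581909) (dlOf (nat_lit 1) (nat_lit 0x400200020008009502))) 
(.lf (nat_lit 5435843989) (dlOf (nat_lit 1) (nat_lit 0x7c0008003601)))))) (.nd (nat_lit 8) 
(.nd (nat_lit 9) (.nd (nat_lit 26) 
(.lf (nat_lit 4026562581) (dlOf (nat_lit 1) (nat_lit 0xe001800a601))) 
(.lf (nat_lit 3825235989) (dlOf (nat_lit 1) (nat_lit 0x2002800a601)))) (.nd (nat_lit 7) 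
(.lf (nat_lit 1342205461) (dlOf (nat_lit 2) (nat_lit 0x18454000a22800019028007080))) 
(.lf (nat_lit 1342205589) (dlOf (nat_lit 1) (nat_lit 0x10008000400200020008007203))))) 
(.nd (nat_lit 26) (.nd (nat_lit 27) 
(.lf (nat_lit 1342208277) (dlOf (nat_lit 14) (nat_lit 0x800180003381005a00c00019808033027400c80fc0005804005a09d0002b81026104e812e023807080fc0004e0604be09d025b04700e081f80009a0c030c13a036208e014c03f000130180c58238000940403b413a02c608e0002402003404e801302380008c0800b413a000420204e609d026c04700ea81f80007a0c085813a042c08e022203f0000001803700080e2c00203de000800aa83))) 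
(.lf (nat_lit 1476426005) (dlOf (nat_lit 10) (nat_lit 0x16c02e00b20070035003001a0000000ba10012802e0092007003500300150000000b81000600300042017001c003800480180044000000510a004a018002f00b8014801c006c00c0080001001400000014030027805c013000e00620000002603004300b801f801c00880000004a060066017003300380012010013005c00a000e00700000002103000800b8026801c0007a080060004028c000800aa82)))) 
(.lf (nat_lit 3691018517) (dlOf (nat_lit 10) (nat_lit 0x3e0140002f81000900c005d0050000ba0802d80280005c02019c0140002a81000801700b1806c00b803201f001400080098009803c0014012000e008003a00100048000000a828000405c02a401b003d00c808d005001240240022011001800780130030002001000200050020001002d8000000a63002f00280005102016c014000280100c000a00013008074000801f8002064e000800aa83))))))) 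
(.nd (nat_lit 7) (.nd (nat_lit 20) (.nd (nat_lit 8) (.nd (nat_lit 12) 
(.lf (nat_lit 2754109525) (dlOf (nat_lit 5) (nat_lit 0x387e8000480400043f40002302000e1fa0001101000a0aa0000000800600080050002001400080c1983))) 
(.lf (nat_lit 3691016277) (dlOf (nat_lit 1) (nat_lit 0x2400400040008007d82)))) (.nd (nat_lit 10) 
(.nd (nat_lit 12) (.lf (nat_lit 4429211989) (dlOf (nat_lit 1) (nat_lit 0x40018004e01))) 
(.lf (nat_lit 31061) (dlOf (nat_lit 1) (nat_lit 0x12001800ab81)))) 
(.lf (nat_lit 5637170517) (dlOf (nat_lit 1) (nat_lit 0x40018003381))))) (.nd (nat_lit 19) 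
(.nd (nat_lit 8) 
(.lf (nat_lit 30433365) (dlOf (nat_lit 12) (nat_lit 0x7beb0000a00800661940004c04002b0ca0001f0200218650008beb0000741000161940003604003b0ca0001802001b8650000801000dc32800014080046194000efac0000304001d8650000101000ec328006df580000008000800400200018e30302))) 
(.lf (nat_lit 3170645) (dlOf (nat_lit 2) (nat_lit 0x14e46500005018200680)))) (.nd (nat_lit 10) 
(.nd (nat_lit 26) 
(.lf (nat_lit 3493355605) (dlOf (nat_lit 1) (nat_lit 0x80080034002001e0008121083))) 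
(.lf (nat_lit 2755158101) (dlOf (nat_lit 1) (nat_lit 0x80080034002001e0008121083)))) 
(.lf (nat_lit 33055829) (dlOf (nat_lit 1) (nat_lit 0x20028f52901)))))) (.nd (nat_lit 8) 
(.nd (nat_lit 9) (.nd (nat_lit 10) 
(.lf (nat_lit 3493880021) (dlOf (nat_lit 2) (nat_lit 0xa80c0000038181b0480))) (.nd (nat_lit 19) 
(.lf (nat_lit 8414421) (dlOf (nat_lit 1) (nat_lit 0x20028512d81))) 
(.lf (nat_lit 8938709) (dlOf (nat_lit 1) (nat_lit 0x180080004002000c0008512d83))))) 
(.nd (nat_lit 10) 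
(.lf (nat_lit 2952821461) (dlOf (nat_lit 1) (nat_lit 0x1000080038002000a000800b983))) 
(.nd (nat_lit 28) (.lf (nat_lit 4294995669) (dlOf (nat_lit 1) (nat_lit 0x400400020008007382))) 
(.lf (nat_lit 1879076565) (dlOf (nat_lit 1) (nat_lit 0x400400020008007382)))))) (.nd (nat_lit 26) 
(.nd (nat_lit 12) (.lf (nat_lit 19950549) (dlOf (nat_lit 1) (nat_lit 0x30002000200089d5e02))) 
(.lf (nat_lit 2952821717) (dlOf (nat_lit 9) (nat_lit 0x29c02600511020100018010400980058044001401e004c908019c01300020078013201004680600470026000e00f002638300b900980130c08006804c0097a0401a005c004a01e01c400d003a806001f402e029e0130029008803c8030012000a014c002002590a00090098012a80811280080164002065a000800bf03)))) 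
(.nd (nat_lit 9) 
(.lf (nat_lit 1006663125) (dlOf (nat_lit 4) (nat_lit 0x3a07a0000900801d83d000041aa001206f0001003000e07a0002835400180de0001d0600020028009b01))) 
(.nd (nat_lit 27) 
(.lf (nat_lit 604011477) (dlOf (nat_lit 5) (nat_lit 0x2400b0011001c003c0000051106002e018002900b0009804000a800e00200000026485002400b0002804000b400e001e0000026384005900b001e001c0096408006c0040252000800bf02))) 
(.lf (nat_lit 469793749) (dlOf (nat_lit 9) (nat_lit 0x26827400e411c00e007e0028883003104e8012fc080208274003c11c004bd04011a09d008b047001f81f800fc048004b208004a09d00260470012a81001282740095204009413a005208e0025402002804e80138238007f2080a040020138000800bf02))))))))) 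
(.nd (nat_lit 6) (.nd (nat_lit 26) (.nd (nat_lit 20) (.nd (nat_lit 8) (.nd (nat_lit 21) 
(.nd (nat_lit 7) (.nd (nat_lit 22) 
(.lf (nat_lit 16834581) (dlOf (nat_lit 1) (nat_lit 0x4002000200088e0002))) 
(.lf (nat_lit 12640277) (dlOf (nat_lit 1) (nat_lit 0x200186d0781)))) 
(.lf (nat_lit 1342238357) (dlOf (nat_lit 1) (nat_lit 0x23400201880008007202)))) (.nd (nat_lit 19) 
(.lf (nat_lit 14737429) (dlOf (nat_lit 2) (nat_lit 0xd0d800066cf000321f8007a8180058008000800200140008770083))) 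
(.lf (nat_lit 48816149) (dlOf (nat_lit 1) (nat_lit 0x40009430501))))) (.nd (nat_lit 7) 
(.nd (nat_lit 11) (.lf (nat_lit 939581717) (dlOf (nat_lit 1) (nat_lit 0x4004000800080b0482))) 
(.lf (nat_lit 1342241045) (dlOf (nat_lit 6) (nat_lit 0x82c2000209d0002b8200260b080010538009813a004a08e000270400290b08011053800a413a005608e000268400010b0800130080288584008c29c00a409d00540470000f42001e00080028002000a000800aa83)))) 
(.nd (nat_lit 10) (.lf (nat_lit 671146389) (dlOf (nat_lit 1) (nat_lit 0x200280b0781))) 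
(.lf (nat_lit 5502985621) (dlOf (nat_lit 1) (nat_lit 0x400200020008003602)))))) (.nd (nat_lit 24) 
(.nd (nat_lit 7) (.lf (nat_lit 1105941) (dlOf (nat_lit 1) (nat_lit 0x4c0018070481))) 
(.nd (nat_lit 8) (.lf (nat_lit 3203221) (dlOf (nat_lit 2) (nat_lit 0x8846500005018200180))) 
(.lf (nat_lit 37284245) (dlOf (nat_lit 1) (nat_lit 0x4002003c00090d4e82))))) (.nd (nat_lit 19) 
(.nd (nat_lit 21) (.lf (nat_lit 59826197) (dlOf (nat_lit 1) (nat_lit 0xa0029840001))) 
(.lf (nat_lit 28368917) (dlOf (nat_lit 1) (nat_lit 0xa0028d90381)))) 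
(.lf (nat_lit 24698901) (dlOf (nat_lit 2) (nat_lit 0x105e400016808008800801f800200740008bb0283)))))) 
(.nd (nat_lit 11) (.nd (nat_lit 30) (.nd (nat_lit 19) (.nd (nat_lit 27) 
(.lf (nat_lit 2752569365) (dlOf (nat_lit 1) (nat_lit 0x40018020481))) 
(.lf (nat_lit 470867989) (dlOf (nat_lit 1) (nat_lit 0xa00181c0481)))) 
(.lf (nat_lit 474538005) (dlOf (nat_lit 1) (nat_lit 0x60002000e00091a0082)))) (.nd (nat_lit 7) 
(.nd (nat_lit 9) 
(.lf (nat_lit 1543561237) (dlOf (nat_lit 3) (nat_lit 0x68098000c0320038003001900000691420005809800100320032003001600000690c2000180080054002000e00080b0003))) 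
(.lf (nat_lit 1543561749) (dlOf (nat_lit 1) (nat_lit 0x100080004002001200080b0d83)))) 
(.lf (nat_lit 1409867925) (dlOf (nat_lit 5) (nat_lit 0x10021000288100060168000bc0800180b40005c04001005a000000200360018090181))))) 
(.nd (nat_lit 7) (.nd (nat_lit 8) (.nd (nat_lit 10) 
(.lf (nat_lit 2348873749) (dlOf (nat_lit 1) (nat_lit 0x6000800a601))) 
(.lf (nat_lit 67173397) (dlOf (nat_lit 2) (nat_lit 0xe1620051a01800bf00)))) 
(.lf (nat_lit 2483088661) (dlOf (nat_lit 1) (nat_lit 0x40008004c002004c0008006703)))) 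
(.nd (nat_lit 9) (.lf (nat_lit 469821589) (dlOf (nat_lit 1) (nat_lit 0x8008000800200060008004803))) 
(.nd (nat_lit 10) (.lf (nat_lit 5167442581) (dlOf (nat_lit 1) (nat_lit 0x400400260008055502))) 
(.lf (nat_lit 3959484053) (dlOf (nat_lit 1) (nat_lit 0x20018007201)))))))) (.nd (nat_lit 8) 
(.nd (nat_lit 10) (.nd (nat_lit 19) (.nd (nat_lit 9) (.nd (nat_lit 21) 
(.lf (nat_lit 25223253) (dlOf (nat_lit 2) (nat_lit 0x15fb16000310200020018bf0d81))) 
(.lf (nat_lit 44097621) (dlOf (nat_lit 1) (nat_lit 0x400292c0701)))) (.nd (nat_lit 24) 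
(.lf (nat_lit 1007741525) (dlOf (nat_lit 1) (nat_lit 0x200187a5301))) 
(.lf (nat_lit 51440213) (dlOf (nat_lit 1) (nat_lit 0x20029515301))))) (.nd (nat_lit 20) 
(.nd (nat_lit 26) 
(.lf (nat_lit 3494436949) (dlOf (nat_lit 3) (nat_lit 0x230140000280400b40a0000130200020018220d81))) 
(.lf (nat_lit 2756239445) (dlOf (nat_lit 3) (nat_lit 0x230140000280400b40a0000130200020018220d81)))) 
(.lf (nat_lit 28893269) (dlOf (nat_lit 2) (nat_lit 0xcca700011018da0300))))) (.nd (nat_lit 26) 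
(.nd (nat_lit 7) (.lf (nat_lit 1342238293) (dlOf (nat_lit 1) (nat_lit 0x400200060008007182))) 
(.nd (nat_lit 19) (.lf (nat_lit 8447189) (dlOf (nat_lit 1) (nat_lit 0x800200020008512d82))) 
(.lf (nat_lit 8971477) (dlOf (nat_lit 1) (nat_lit 0x10008000c002000a0008512d83))))) 
(.nd (nat_lit 7) (.lf (nat_lit 1140909653) (dlOf (nat_lit 1) (nat_lit 0x20018003881))) 
(.nd (nat_lit 28) (.lf (nat_lit 1275126997) (dlOf (nat_lit 1) (nat_lit 0x800400020008092d82))) 
(.lf (nat_lit 2080433365) (dlOf (nat_lit 1) (nat_lit 0x1000400020008092d82))))))) (.nd (nat_lit 7) 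
(.nd (nat_lit 19) (.nd (nat_lit 10) 
(.lf (nat_lit 3203413) (dlOf (nat_lit 3) (nat_lit 0x325f8001540802494440128a120000a0400020018200681))) 
(.lf (nat_lit 2952852821) (dlOf (nat_lit 1) (nat_lit 0x1800400020008009902)))) (.nd (nat_lit 11) 
(.nd (nat_lit 20) (.lf (nat_lit 25747797) (dlOf (nat_lit 1) (nat_lit 0x8008000400200020008c10883))) 
(.lf (nat_lit 1343807829) (dlOf (nat_lit 1) (nat_lit 0x400400020008370882)))) 
(.lf (nat_lit 8972629) (dlOf (nat_lit 1) (nat_lit 0x2d800200300008514e02))))) (.nd (nat_lit 12) 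
(.nd (nat_lit 19) 
(.lf (nat_lit 2080432597) (dlOf (nat_lit 2) (nat_lit 0x700a40000004000c002000a0008091182))) 
(.nd (nat_lit 21) (.lf (nat_lit 50913749) (dlOf (nat_lit 1) (nat_lit 0x4004000200094d7b02))) 
(.lf (nat_lit 5774041557) (dlOf (nat_lit 1) (nat_lit 0x40004000e00180f7b02))))) (.nd (nat_lit 9) 
(.lf (nat_lit 8451541) (dlOf (nat_lit 3) (nat_lit 0xea9020002402007348100010018519b00))) 
(.lf (nat_lit 469826517) (dlOf (nat_lit 5) (nat_lit 0x5e16100130a70018027400ac11c005110800b8161005f0a7003002f4017413a00be08e002590500050470012a8080030584009520400680040014001800bf02))))))))) 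
(.nd (nat_lit 10) (.nd (nat_lit 27) (.nd (nat_lit 19) (.nd (nat_lit 6) (.nd (nat_lit 8) 
(.nd (nat_lit 7) (.nd (nat_lit 15) 
(.lf (nat_lit 17850421) (dlOf (nat_lit 1) (nat_lit 0x4004000200088f1002))) 
(.lf (nat_lit 5972746293) (dlOf (nat_lit 1) (nat_lit 0x200280b0001)))) 
(.lf (nat_lit 30433461) (dlOf (nat_lit 1) (nat_lit 0xe0008e30481)))) (.nd (nat_lit 7) 
(.nd (nat_lit 9) (.lf (nat_lit 536897845) (dlOf (nat_lit 1) (nat_lit 0xa0018004c01))) 
(.lf (nat_lit 5368736565) (dlOf (nat_lit 1) (nat_lit 0x160018005c01)))) 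
(.lf (nat_lit 1879077813) (dlOf (nat_lit 1) (nat_lit 0x140028009201))))) (.nd (nat_lit 7) 
(.nd (nat_lit 8) (.lf (nat_lit 12607605) (dlOf (nat_lit 1) (nat_lit 0x800286d1881))) 
(.lf (nat_lit 67138421) (dlOf (nat_lit 1) (nat_lit 0x400200020008008f82)))) (.nd (nat_lit 30) 
(.nd (nat_lit 8) (.lf (nat_lit 2147541237) (dlOf (nat_lit 1) (nat_lit 0x400400020008090a82))) 
(.lf (nat_lit 8446965) (dlOf (nat_lit 1) (nat_lit 0x700018512881)))) (.nd (nat_lit 26) 
(.lf (nat_lit 1073800181) (dlOf (nat_lit 1) (nat_lit 0xe0018002881))) 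
(.lf (nat_lit 1140909045) (dlOf (nat_lit 1) (nat_lit 0xd0008000c00200080008002883))))))) 
(.nd (nat_lit 21) (.nd (nat_lit 15) (.nd (nat_lit 6) (.nd (nat_lit 26) 
(.lf (nat_lit 3221774389) (dlOf (nat_lit 2) (nat_lit 0x1a01e0000d0080040008006000200300008180b03))) 
(.lf (nat_lit 4362625077) (dlOf (nat_lit 2) (nat_lit 0xe8000002360400c8002009a00080b0a82)))) 
(.lf (nat_lit 1342726517) (dlOf (nat_lit 2) (nat_lit 0x3c154003828180c0780)))) (.nd (nat_lit 20) 
(.lf (nat_lit 55107637) (dlOf (nat_lit 1) (nat_lit 0x4004000200096b0b02))) 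
(.lf (nat_lit 26796085) (dlOf (nat_lit 2) (nat_lit 0x46c70000d00800680080024002001a0008c70b03))))) 
(.nd (nat_lit 15) (.nd (nat_lit 20) 
(.lf (nat_lit 15228981) (dlOf (nat_lit 15) (nat_lit 0x28800000017010193d0c80bde84c05eaff202b57e3017b0000000ac280bb80000005004005b4320089a150010d0980076840000707e00458040027bfc8004df8c0032f9a0030927000f4728015236401310c0002a82900313f480049dc800048660060411002300000009498006e864000460400bb43200b7a130058c28002a60fc00feff200ab7e3001cbe68015a36400910fa006e86c000543000021fa4009c7e200d0000000110e000ed0c80040000000400802580000001a02000a0000000a01000e436007d800000026080058000000050202ec0000000201011500000000c080a1000000000040010004004a00187c0782))) 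
(.nd (nat_lit 26) (.lf (nat_lit 3493355573) (dlOf (nat_lit 1) (nat_lit 0xc0008120d01))) 
(.lf (nat_lit 2755158069) (dlOf (nat_lit 1) (nat_lit 0xc0008120d01))))) (.nd (nat_lit 6) 
(.lf (nat_lit 3727413) (dlOf (nat_lit 1) (nat_lit 0x40008004400200220008220a83))) 
(.lf (nat_lit 23650421) (dlOf (nat_lit 1) (nat_lit 0xe0028b80081))))))) (.nd (nat_lit 8) 
(.nd (nat_lit 15) (.nd (nat_lit 30) (.nd (nat_lit 6) (.nd (nat_lit 7) 
(.lf (nat_lit 470835253) (dlOf (nat_lit 3) (nat_lit 0x160000001281002d0000000880800080080010002000e00081c0783))) 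
(.lf (nat_lit 469788853) (dlOf (nat_lit 1) (nat_lit 0x3c004001a0008004902)))) 
(.lf (nat_lit 4429211765) (dlOf (nat_lit 1) (nat_lit 0x8008000400200020008004783)))) 
(.nd (nat_lit 7) (.nd (nat_lit 28) 
(.lf (nat_lit 3959971893) (dlOf (nat_lit 8) (nat_lit 0x2880dc0030048007e0200003203002401e0001800803680ec0005004014c07c008201c0041007002080100040000000150a00cc03e004300e00218038010c00800200000000a0507ea022800f00f800300660fc800000002040009000000000080090008041c002002c0008180a83))) 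
(.lf (nat_lit 4228407349) (dlOf (nat_lit 2) (nat_lit 0xe8000002360400c8002009a00080b0a82)))) 
(.lf (nat_lit 1476423861) (dlOf (nat_lit 2) (nat_lit 0xa03c00037018007e00))))) (.nd (nat_lit 19) 
(.nd (nat_lit 6) 
(.lf (nat_lit 470868021) (dlOf (nat_lit 19) (nat_lit 0x490a4801d84cc039025c00040e9001906a000901e4002c0760002e0e026c131000158100bd0988000a80804204c40005004014835001aa1a300650b1802e0554022c28406fa131006b096000c038800ac17c0152000000128a046409880008c0821704c4000440412482620002002032a1310000e0102530988000680814804c40002c0402f0262000140205a8131000098103fe0988000480809404c4000160402d42620000a0207b2131000048100730d20004858c05f02b8007215501780a480040508008c270007813100e7097001303a4001c1a800680ca011c05d801c02dc0008132008a089013303c805881c80038076001e0360007019001180980394044001400f0079000000000c8081000800a4002041c00081c0783))) 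
(.lf (nat_lit 1208017141) (dlOf (nat_lit 1) (nat_lit 0x400400020008090a82)))) (.nd (nat_lit 26) 
(.lf (nat_lit 134799413) (dlOf (nat_lit 1) (nat_lit 0x4700080118002003800080c1103))) 
(.nd (nat_lit 28) 
(.lf (nat_lit 201908277) (dlOf (nat_lit 1) (nat_lit 0x4700080118002003800080c1103))) 
(.lf (nat_lit 470343733) (dlOf (nat_lit 1) (nat_lit 0x4004000200180c0002))))))) (.nd (nat_lit 7) 
(.nd (nat_lit 6) (.nd (nat_lit 9) 
(.lf (nat_lit 1208017205) (dlOf (nat_lit 2) (nat_lit 0x10148000d8080020008001000200060008090b83))) 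
(.nd (nat_lit 12) (.lf (nat_lit 4764756789) (dlOf (nat_lit 1) (nat_lit 0x3c0018005c01))) 
(.lf (nat_lit 134249269) (dlOf (nat_lit 1) (nat_lit 0xa000800bc81))))) (.nd (nat_lit 9) 
(.nd (nat_lit 11) (.lf (nat_lit 470311285) (dlOf (nat_lit 2) (nat_lit 0x1c154006500180c0780))) 
(.lf (nat_lit 4764756341) (dlOf (nat_lit 1) (nat_lit 0x1a0018004e81)))) 
(.lf (nat_lit 6643807093) (dlOf (nat_lit 2) (nat_lit 0x26002002bbc0802d0008008400200060008008f83))))) 
(.nd (nat_lit 9) (.nd (nat_lit 11) 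
(.lf (nat_lit 1476944309) (dlOf (nat_lit 1) (nat_lit 0x200008306e81))) 
(.lf (nat_lit 1476426165) (dlOf (nat_lit 1) (nat_lit 0x14c0040038000800af82)))) (.nd (nat_lit 6) 
(.nd (nat_lit 11) (.lf (nat_lit 1006662581) (dlOf (nat_lit 1) (nat_lit 0x140028009201))) 
(.lf (nat_lit 4697648053) (dlOf (nat_lit 1) (nat_lit 0x20008005d01)))) 
(.lf (nat_lit 472933365) (dlOf (nat_lit 1) (nat_lit 0x20028b52881)))))))) (.nd (nat_lit 7) 
(.nd (nat_lit 29) (.nd (nat_lit 8) (.nd (nat_lit 9) (.nd (nat_lit 12) (.nd (nat_lit 23) 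
(.lf (nat_lit 3556795445) (dlOf (nat_lit 2) (nat_lit 0xa00500050018009000000e0a0c002400200100008002882))) 
(.lf (nat_lit 41968693) (dlOf (nat_lit 1) (nat_lit 0x1c0029242881)))) (.nd (nat_lit 27) 
(.lf (nat_lit 1342207029) (dlOf (nat_lit 2) (nat_lit 0x10238009380400dc00400160008009202))) 
(.lf (nat_lit 1476424757) (dlOf (nat_lit 1) (nat_lit 0x20028009201))))) (.nd (nat_lit 26) 
(.lf (nat_lit 5502953013) (dlOf (nat_lit 1) (nat_lit 0x1000400220008003782))) 
(.lf (nat_lit 4630537781) (dlOf (nat_lit 1) (nat_lit 0xc00400020008003782))))) (.nd (nat_lit 23) 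
(.nd (nat_lit 6) (.nd (nat_lit 9) 
(.lf (nat_lit 5773485365) (dlOf (nat_lit 1) (nat_lit 0x4002000200080e3202))) 
(.lf (nat_lit 1342207797) (dlOf (nat_lit 2) (nat_lit 0x82380003a04004c0040012000800a102)))) 
(.lf (nat_lit 2147509621) (dlOf (nat_lit 1) (nat_lit 0x8008000400200020008003503)))) 
(.nd (nat_lit 15) (.nd (nat_lit 19) 
(.lf (nat_lit 8418613) (dlOf (nat_lit 1) (nat_lit 0x10008000400200020008519903))) 
(.lf (nat_lit 8942901) (dlOf (nat_lit 1) (nat_lit 0x400200020008519902)))) 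
(.lf (nat_lit 8975669) (dlOf (nat_lit 1) (nat_lit 0x400400040018519902)))))) (.nd (nat_lit 27) 
(.nd (nat_lit 8) (.nd (nat_lit 11) (.nd (nat_lit 15) 
(.lf (nat_lit 3758122037) (dlOf (nat_lit 1) (nat_lit 0x20028002881))) 
(.lf (nat_lit 1880155189) (dlOf (nat_lit 1) (nat_lit 0x80080004002000200087a2883)))) 
(.lf (nat_lit 2952821813) (dlOf (nat_lit 2) (nat_lit 0x900130026181800bf00)))) (.nd (nat_lit 6) 
(.lf (nat_lit 2952820021) (dlOf (nat_lit 6) (nat_lit 0xa00a0001400800a005000090040058028000400200140140001281000a00a00008c080010008003000200400008009903))) 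
(.nd (nat_lit 9) 
(.lf (nat_lit 1946185077) (dlOf (nat_lit 1) (nat_lit 0x8008000400200020008006b83))) 
(.lf (nat_lit 2952818549) (dlOf (nat_lit 2) (nat_lit 0xd801c00255818007780)))))) (.nd (nat_lit 9) 
(.nd (nat_lit 8) (.lf (nat_lit 738255925) (dlOf (nat_lit 2) (nat_lit 0x80ae003ef0200020018002881))) 
(.lf (nat_lit 1006662965) (dlOf (nat_lit 1) (nat_lit 0x240028009901)))) (.nd (nat_lit 15) 
(.nd (nat_lit 26) (.lf (nat_lit 4966082101) (dlOf (nat_lit 1) (nat_lit 0x400400020008003782))) 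
(.lf (nat_lit 6106932789) (dlOf (nat_lit 5) (nat_lit 0x1200b00038054004c00a0001e0600300140000e01000800b00008054001c00a0001706000801600050028000001000980080020002000a0008003783)))) 
(.lf (nat_lit 6308292149) (dlOf (nat_lit 1) (nat_lit 0x58002000c0008053782))))))) (.nd (nat_lit 15) 
(.nd (nat_lit 29) (.nd (nat_lit 6) (.nd (nat_lit 9) (.nd (nat_lit 11) 
(.lf (nat_lit 33055925) (dlOf (nat_lit 1) (nat_lit 0x400200440008f52c82))) 
(.lf (nat_lit 6442478773) (dlOf (nat_lit 1) (nat_lit 0x1e0028006281)))) 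
(.lf (nat_lit 4294995637) (dlOf (nat_lit 1) (nat_lit 0x20018007281)))) (.nd (nat_lit 8) 
(.lf (nat_lit 8414453) (dlOf (nat_lit 1) (nat_lit 0x20028512e81))) 
(.lf (nat_lit 28149) (dlOf (nat_lit 1) (nat_lit 0x20028006f81))))) (.nd (nat_lit 8) 
(.nd (nat_lit 28) (.lf (nat_lit 671116469) (dlOf (nat_lit 1) (nat_lit 0x60028006281))) 
(.nd (nat_lit 31) 
(.lf (nat_lit 939551925) (dlOf (nat_lit 4) (nat_lit 0x388000000d0040194000000660200c800000000018006280))) 
(.lf (nat_lit 3087035573) (dlOf (nat_lit 13) (nat_lit 0xe4010005c0074012c038018e01900ea00c00009028000808c0390040017601d004900e0065006403a8030000220c01b601d00ec00c8000801006e007403b00320001f0400a001d006100c8000741002f007401c40320001b0400020190000d0100e9000000064080720000000300400a4040002801900dc0000000581806b8000000280400e80000000002003a0018006281))))) 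
(.nd (nat_lit 11) 
(.lf (nat_lit 2952820149) (dlOf (nat_lit 3) (nat_lit 0xa00a0001c8080048050000e004002400200300008009982))) 
(.nd (nat_lit 26) 
(.lf (nat_lit 2952822197) (dlOf (nat_lit 1) (nat_lit 0x20008003c0020034000800cd03))) 
(.lf (nat_lit 604011957) (dlOf (nat_lit 1) (nat_lit 0x24002002e000800cd02))))))) (.nd (nat_lit 26) 
(.nd (nat_lit 12) (.nd (nat_lit 6) (.nd (nat_lit 8) 
(.lf (nat_lit 1073800885) (dlOf (nat_lit 1) (nat_lit 0x400400020008003a82))) 
(.lf (nat_lit 59317) (dlOf (nat_lit 1) (nat_lit 0x60018004381)))) 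
(.lf (nat_lit 8447733) (dlOf (nat_lit 1) (nat_lit 0x400400020018513b82)))) (.nd (nat_lit 19) 
(.nd (nat_lit 27) 
(.lf (nat_lit 2952853173) (dlOf (nat_lit 2) (nat_lit 0x20270001001000d8000000000c0030002001c000800a002))) 
(.lf (nat_lit 1476458165) (dlOf (nat_lit 1) (nat_lit 0x2001800a001)))) 
(.lf (nat_lit 20510389) (dlOf (nat_lit 1) (nat_lit 0x4002000200089da002))))) (.nd (nat_lit 6) 
(.nd (nat_lit 8) 
(.lf (nat_lit 2754669749) (dlOf (nat_lit 2) (nat_lit 0x2817000140ae000a0400000c8380f6280))) 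
(.nd (nat_lit 9) (.lf (nat_lit 4899005877) (dlOf (nat_lit 1) (nat_lit 0x7800200260008053602))) 
(.lf (nat_lit 2751522741) (dlOf (nat_lit 1) (nat_lit 0x400200020008004382))))) (.nd (nat_lit 9) 
(.nd (nat_lit 28) (.lf (nat_lit 1140909301) (dlOf (nat_lit 1) (nat_lit 0x2000200080008002e82))) 
(.lf (nat_lit 4630570229) (dlOf (nat_lit 1) (nat_lit 0x40018002e81)))) 
(.lf (nat_lit 2348869365) (dlOf (nat_lit 1) (nat_lit 0x8002000a0008003b82)))))))))) 
(.nd (nat_lit 15) (.nd (nat_lit 29) (.nd (nat_lit 28) (.nd (nat_lit 19) (.nd (nat_lit 23) 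
(.nd (nat_lit 8) (.nd (nat_lit 31) (.nd (nat_lit 26) (.nd (nat_lit 5) 
(.lf (nat_lit 2384021) (dlOf (nat_lit 2) (nat_lit 0x309fa00005018150180))) 
(.lf (nat_lit 1335349) (dlOf (nat_lit 1) (nat_lit 0x4002000200080b0602)))) (.nd (nat_lit 32) 
(.lf (nat_lit 67395605) (dlOf (nat_lit 1) (nat_lit 0x200180f0081))) 
(.lf (nat_lit 4362362901) (dlOf (nat_lit 1) (nat_lit 0x20018030a81))))) (.nd (nat_lit 5) 
(.nd (nat_lit 7) (.lf (nat_lit 3288621589) (dlOf (nat_lit 1) (nat_lit 0x6800400040008090d82))) 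
(.lf (nat_lit 3288621205) (dlOf (nat_lit 1) (nat_lit 0x400400320018090182)))) 
(.lf (nat_lit 2349097013) (dlOf (nat_lit 3) (nat_lit 0x520220002d01005f01100000c0800300080010002000c00080a0a83))))) 
(.nd (nat_lit 26) (.nd (nat_lit 21) 
(.lf (nat_lit 288085) (dlOf (nat_lit 1) (nat_lit 0x20028003381))) 
(.lf (nat_lit 56911189) (dlOf (nat_lit 1) (nat_lit 0x400200020009793382)))) (.nd (nat_lit 6) 
(.lf (nat_lit 3288621461) (dlOf (nat_lit 1) (nat_lit 0x110008003000200020008090783))) 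
(.lf (nat_lit 1141138773) (dlOf (nat_lit 1) (nat_lit 0x40008000c002000c0008123383)))))) 
(.nd (nat_lit 5) (.nd (nat_lit 21) (.nd (nat_lit 6) 
(.lf (nat_lit 26501141) (dlOf (nat_lit 2) (nat_lit 0x21e315000fe018c50080))) 
(.lf (nat_lit 25452885) (dlOf (nat_lit 1) (nat_lit 0x8008000800200020008c10883)))) 
(.nd (nat_lit 25) 
(.lf (nat_lit 10772501) (dlOf (nat_lit 1) (nat_lit 0x28008002800200300008620483))) 
(.lf (nat_lit 44326933) (dlOf (nat_lit 1) (nat_lit 0x2400092f0201))))) (.nd (nat_lit 6) 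
(.nd (nat_lit 20) (.lf (nat_lit 12869685) (dlOf (nat_lit 1) (nat_lit 0x8002000c00086e0a82))) 
(.lf (nat_lit 30695477) (dlOf (nat_lit 2) (nat_lit 0x7723a002d88200000028e41000)))) 
(.lf (nat_lit 62152821) (dlOf (nat_lit 9) (nat_lit 0x852d8002296400754a2001ca4f000551e000528e800094540006a28000b488000152d80112944000545400168060006a5b00025288002a8a8002ce0c00154b60010a3c000251500059818000a96c00054b2001ca4f000951d000528a00003a1400254b60012a59000e5278004a8e8001d4500001c0a0004a5b000552c8005293c0011474000ea280000d85000152d8000a964002549e0018a3a00045140000682802c8008000800200060009960d83)))))) 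
(.nd (nat_lit 5) (.nd (nat_lit 26) (.nd (nat_lit 9) (.nd (nat_lit 6) 
(.lf (nat_lit 18636821) (dlOf (nat_lit 1) (nat_lit 0xa0028960381))) 
(.lf (nat_lit 17588309) (dlOf (nat_lit 12) (nat_lit 0x7da00000a0080066ec80004c04002b7640001f020021bb20008da0000074100016ec80003204003b7640001802001bbb20000801000ddd9000014080046ec8000f6800000304001dbb20000101000edd90006ed0000000080008004002000188e0302)))) 
(.nd (nat_lit 7) 
(.lf (nat_lit 135029269) (dlOf (nat_lit 1) (nat_lit 0x190008007c002000400081b0d83))) 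
(.lf (nat_lit 19686293) (dlOf (nat_lit 1) (nat_lit 0x8002000400089d2582))))) (.nd (nat_lit 7) 
(.nd (nat_lit 6) (.lf (nat_lit 202138133) (dlOf (nat_lit 1) (nat_lit 0xc8002000200081b0d82))) 
(.lf (nat_lit 4362887509) (dlOf (nat_lit 5) (nat_lit 0x200a00001c04038409e01b0031000050200080000000180800f000000008040118002004600081a0682)))) 
(.nd (nat_lit 8) 
(.lf (nat_lit 4362887317) (dlOf (nat_lit 6) (nat_lit 0x12028800880cc003c05a0000e060456051002c02780510104088c066044a02d00005050024029000010080008148000040400680a4000a051000401980000018010000800ec002000600081a0183))) 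
(.lf (nat_lit 4362887573) (dlOf (nat_lit 1) (nat_lit 0x800081a0781)))))) (.nd (nat_lit 7) 
(.nd (nat_lit 22) (.nd (nat_lit 21) 
(.lf (nat_lit 27025461) (dlOf (nat_lit 1) (nat_lit 0x400400020018ca0782))) 
(.lf (nat_lit 29122613) (dlOf (nat_lit 1) (nat_lit 0x1080080034002000c0008dc0c03)))) 
(.nd (nat_lit 8) (.lf (nat_lit 7102517) (dlOf (nat_lit 1) (nat_lit 0x4004000200084b0002))) 
(.lf (nat_lit 8156469) (dlOf (nat_lit 1) (nat_lit 0x400200020008519902))))) (.nd (nat_lit 6) 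
(.lf (nat_lit 8152501) (dlOf (nat_lit 1) (nat_lit 0x400200020008513602))) (.nd (nat_lit 9) 
(.lf (nat_lit 20737525) (dlOf (nat_lit 1) (nat_lit 0x600089d6f81))) 
(.lf (nat_lit 36463605) (dlOf (nat_lit 1) (nat_lit 0x20019072881)))))))) (.nd (nat_lit 26) 
(.nd (nat_lit 7) (.nd (nat_lit 5) (.nd (nat_lit 6) (.nd (nat_lit 19) 
(.lf (nat_lit 1343512597) (dlOf (nat_lit 2) (nat_lit 0x1047000000080040008001c00200120008280383))) 
(.lf (nat_lit 1344036885) (dlOf (nat_lit 1) (nat_lit 0xaa0004031600083b0482)))) 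
(.lf (nat_lit 1342464085) (dlOf (nat_lit 2) (nat_lit 0x44302000300200020008031081)))) 
(.nd (nat_lit 6) (.lf (nat_lit 3492044853) (dlOf (nat_lit 1) (nat_lit 0xc00080a0b01))) 
(.nd (nat_lit 27) 
(.lf (nat_lit 4563689845) (dlOf (nat_lit 2) (nat_lit 0x380cc015cc04005c004005200080c5802))) 
(.lf (nat_lit 4697907573) (dlOf (nat_lit 2) (nat_lit 0x380cc00ad604005c004005200080c5802)))))) 
(.nd (nat_lit 27) (.nd (nat_lit 5) (.nd (nat_lit 6) (.nd (nat_lit 31) 
(.lf (nat_lit 4563689621) (dlOf (nat_lit 1) (nat_lit 0xd80080010002000800080c1103))) 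
(.lf (nat_lit 2416205973) (dlOf (nat_lit 1) (nat_lit 0x800400040008090182)))) 
(.lf (nat_lit 4563689685) (dlOf (nat_lit 2) (nat_lit 0x80c400030040004002000800080c1c02)))) 
(.lf (nat_lit 4563689653) (dlOf (nat_lit 7) (nat_lit 0x1806400c802f000600f8003981800300c800198040010068000e032000800f8001901800200d0001c064000c01f0003183000601a000300c8001803e0006106000c03400070190003807c000be0c00cc004002c00080c1702)))) 
(.nd (nat_lit 8) (.lf (nat_lit 2550423701) (dlOf (nat_lit 1) (nat_lit 0x800400040008090182))) 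
(.lf (nat_lit 5773748629) (dlOf (nat_lit 1) (nat_lit 0xc00180e4e81)))))) (.nd (nat_lit 27) 
(.nd (nat_lit 31) (.nd (nat_lit 6) 
(.lf (nat_lit 1409572885) (dlOf (nat_lit 4) (nat_lit 0xc021004ac01000401080237c080030084011b204004c00400a40008030882))) 
(.lf (nat_lit 1409572949) (dlOf (nat_lit 4) (nat_lit 0x7ac06f002a03701ec81b40e980cc02cc063018e030805c018002cc09000e804103b60000000a4501d301bc00e00dc07ce06d03b6033003001800188090070c0000001387038100000006c080030008072c00205ca0008031083)))) 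
(.nd (nat_lit 5) (.nd (nat_lit 7) 
(.lf (nat_lit 3557580821) (dlOf (nat_lit 2) (nat_lit 0xfc0de009640200040028270481))) 
(.lf (nat_lit 3557062805) (dlOf (nat_lit 2) (nat_lit 0x100e0000ba040038004003c000812a882)))) 
(.lf (nat_lit 2483314741) (dlOf (nat_lit 3) (nat_lit 0x400230001a8100130118000000800f00080068002002600080a0b03))))) 
(.nd (nat_lit 6) (.nd (nat_lit 5) (.nd (nat_lit 31) 
(.lf (nat_lit 1543790613) (dlOf (nat_lit 3) (nat_lit 0xc600700bf18100110170000000800380080060002001a0008170883))) 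
(.lf (nat_lit 3691274261) (dlOf (nat_lit 2) (nat_lit 0xc00000000018110480)))) 
(.lf (nat_lit 1543790645) (dlOf (nat_lit 1) (nat_lit 0x8008000400200020008170d03)))) 
(.nd (nat_lit 30) 
(.lf (nat_lit 470048853) (dlOf (nat_lit 2) (nat_lit 0x442f8000300200020008031081))) 
(.lf (nat_lit 1543790677) (dlOf (nat_lit 3) (nat_lit 0xa804c000520400980260002802000c0008171081)))))))) 
(.nd (nat_lit 26) (.nd (nat_lit 27) (.nd (nat_lit 28) (.nd (nat_lit 6) (.nd (nat_lit 5) 
(.lf (nat_lit 537157653) (dlOf (nat_lit 4) (nat_lit 0xc021006fe01000401080361008003008401afa04004c00400a40008030882))) 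
(.nd (nat_lit 7) 
(.lf (nat_lit 3758383157) (dlOf (nat_lit 1) (nat_lit 0x8008000800200020008170483))) 
(.lf (nat_lit 5905867189) (dlOf (nat_lit 1) (nat_lit 0x280080030002000e0008157783))))) 
(.nd (nat_lit 7) (.nd (nat_lit 9) 
(.lf (nat_lit 537157717) (dlOf (nat_lit 4) (nat_lit 0x7ac06f002a03701ec81b40e980cc02cc062018e030805c018002cc09200e804403b60000000a4501d301bc00e00dc07ce06d03b6033003001800188092070c0000001387038100000006c080030008072c00205ca0008031083))) 
(.lf (nat_lit 1610901077) (dlOf (nat_lit 1) (nat_lit 0x400200020008093882)))) 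
(.lf (nat_lit 4832126165) (dlOf (nat_lit 1) (nat_lit 0x10008000c002000200080d2d83))))) 
(.nd (nat_lit 31) (.nd (nat_lit 5) (.nd (nat_lit 10) 
(.lf (nat_lit 1879334933) (dlOf (nat_lit 1) (nat_lit 0x68008001c002002000080e0583))) 
(.lf (nat_lit 5100563477) (dlOf (nat_lit 1) (nat_lit 0x2f800201bc00080d5f82)))) 
(.lf (nat_lit 1879334965) (dlOf (nat_lit 1) (nat_lit 0x1c002000200080e0a82)))) (.nd (nat_lit 7) 
(.lf (nat_lit 4026819093) (dlOf (nat_lit 1) (nat_lit 0x2c002000e0008090d82))) 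
(.lf (nat_lit 4026818709) (dlOf (nat_lit 1) (nat_lit 0x400400320018090182)))))) (.nd (nat_lit 6) 
(.nd (nat_lit 28) (.nd (nat_lit 5) (.nd (nat_lit 8) 
(.lf (nat_lit 671375381) (dlOf (nat_lit 3) (nat_lit 0xc600700da58100110170000000800380080060002001a0008170883))) 
(.lf (nat_lit 6040084757) (dlOf (nat_lit 2) (nat_lit 0x27011800150080018008000c002000600080c4a03)))) 
(.lf (nat_lit 671375413) (dlOf (nat_lit 1) (nat_lit 0x8008000400200020008170d03)))) 
(.nd (nat_lit 5) (.nd (nat_lit 7) 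
(.lf (nat_lit 939810837) (dlOf (nat_lit 2) (nat_lit 0x200240026b018180480))) 
(.lf (nat_lit 6308522389) (dlOf (nat_lit 1) (nat_lit 0x800280d4e81)))) 
(.lf (nat_lit 3087294517) (dlOf (nat_lit 3) (nat_lit 0xe00a000b004000b0000003a20c000c0140012008001200000073c180048008004800200460008170d03))))) 
(.nd (nat_lit 7) (.nd (nat_lit 10) (.nd (nat_lit 28) 
(.lf (nat_lit 671375445) (dlOf (nat_lit 3) (nat_lit 0xa804c000520400980260002802000c0008171081))) 
(.lf (nat_lit 3087294549) (dlOf (nat_lit 3) (nat_lit 0x1c0050018800000052080038014000a008001400000009c1800200080064002002c0008171083)))) 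
(.lf (nat_lit 2818866261) (dlOf (nat_lit 1) (nat_lit 0x2000812bf81)))) (.nd (nat_lit 31) 
(.lf (nat_lit 6040084693) (dlOf (nat_lit 2) (nat_lit 0x4023000140180c3d80))) 
(.lf (nat_lit 3892601045) (dlOf (nat_lit 2) (nat_lit 0x300000003604003c00200040008160502))))))) 
(.nd (nat_lit 27) (.nd (nat_lit 5) (.nd (nat_lit 8) (.nd (nat_lit 6) (.nd (nat_lit 9) 
(.lf (nat_lit 604266517) (dlOf (nat_lit 2) (nat_lit 0x1201b00000018110580))) 
(.lf (nat_lit 2751756821) (dlOf (nat_lit 1) (nat_lit 0x2a002800b281)))) (.nd (nat_lit 19) 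
(.lf (nat_lit 3825492053) (dlOf (nat_lit 3) (nat_lit 0x1c0050018800000052080038014000a008001400000009c1800200080064002002c0008171083))) 
(.lf (nat_lit 4096548949) (dlOf (nat_lit 1) (nat_lit 0x2000400480008120582))))) (.nd (nat_lit 7) 
(.nd (nat_lit 9) (.lf (nat_lit 2752798997) (dlOf (nat_lit 1) (nat_lit 0x400400020018047e02))) 
(.lf (nat_lit 4094454549) (dlOf (nat_lit 1) (nat_lit 0x800400020018055b82)))) 
(.lf (nat_lit 5167669653) (dlOf (nat_lit 1) (nat_lit 0xc000202b800080f6482))))) (.nd (nat_lit 19) 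
(.nd (nat_lit 8) (.nd (nat_lit 21) 
(.lf (nat_lit 3825492021) (dlOf (nat_lit 3) (nat_lit 0xe00a000b004000b0000003a20c000c0140012008001200000073c180048008004800200460008170d03))) 
(.lf (nat_lit 2753847349) (dlOf (nat_lit 5) (nat_lit 0x381420001c0100030a10000c8080048224000580400103f00001402000600180a0a81)))) 
(.lf (nat_lit 2751752501) (dlOf (nat_lit 1) (nat_lit 0x6000400020018004c02)))) (.nd (nat_lit 6) 
(.lf (nat_lit 2753323061) (dlOf (nat_lit 2) (nat_lit 0x1e0880039c818090000))) 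
(.lf (nat_lit 4094451957) (dlOf (nat_lit 1) (nat_lit 0x400400020008050a82)))))) (.nd (nat_lit 6) 
(.nd (nat_lit 5) (.nd (nat_lit 7) (.nd (nat_lit 28) 
(.lf (nat_lit 1812226069) (dlOf (nat_lit 2) (nat_lit 0x2002400535818180480))) 
(.lf (nat_lit 4228145173) (dlOf (nat_lit 1) (nat_lit 0x20018030a81)))) 
(.lf (nat_lit 4228669589) (dlOf (nat_lit 6) (nat_lit 0x12025000880c8003c0580000e06045604a002c024005100e8088c064044a02c0000505002402580001008000812c00004040068096000a04a000401900000018010000800ec002000600081a0183)))) 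
(.nd (nat_lit 9) (.lf (nat_lit 1006919733) (dlOf (nat_lit 1) (nat_lit 0x1c002000200080e0a82))) 
(.lf (nat_lit 3959710261) (dlOf (nat_lit 1) (nat_lit 0x800800d400200340008128b03))))) 
(.nd (nat_lit 7) (.nd (nat_lit 8) 
(.lf (nat_lit 2080661589) (dlOf (nat_lit 2) (nat_lit 0x3014000180300006c08000c004000400080a1782))) 
(.lf (nat_lit 4228669781) (dlOf (nat_lit 5) (nat_lit 0x200b80001c04038409001b0030000050200080000000180800f000000008040118002004600081a0682)))) 
(.nd (nat_lit 5) 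
(.lf (nat_lit 2885969877) (dlOf (nat_lit 2) (nat_lit 0x100000002804000c00200040008144502))) 
(.lf (nat_lit 3959710197) (dlOf (nat_lit 1) (nat_lit 0x20008127e01))))))))) (.nd (nat_lit 28) 
(.nd (nat_lit 19) (.nd (nat_lit 6) (.nd (nat_lit 5) (.nd (nat_lit 20) (.nd (nat_lit 7) 
(.nd (nat_lit 26) (.nd (nat_lit 22) 
(.lf (nat_lit 1208279061) (dlOf (nat_lit 1) (nat_lit 0x200180b0081))) 
(.lf (nat_lit 12902421) (dlOf (nat_lit 9) (nat_lit 0xb98a00074c2000365b900040000005a42000818a00068c2000305b9000b403001931f800c98a00080c2000425b9000b384000831400071840000cb720016606000c61000022dc8000741000318fc0030c50003261000182dc8000702000c98fc0040c500042610001b2dc80006c2000618fc0048c50003e610001e2dc8000682000100080068002000a00086e0583)))) 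
(.nd (nat_lit 11) (.lf (nat_lit 2349129749) (dlOf (nat_lit 1) (nat_lit 0x28004001600080c0a82))) 
(.lf (nat_lit 2751789077) (dlOf (nat_lit 1) (nat_lit 0x44001800a601))))) (.nd (nat_lit 10) 
(.lf (nat_lit 2416789) (dlOf (nat_lit 2) (nat_lit 0x1053f400409ef00005028150180))) 
(.lf (nat_lit 322709) (dlOf (nat_lit 1) (nat_lit 0x60018006201))))) (.nd (nat_lit 7) 
(.nd (nat_lit 21) (.nd (nat_lit 22) 
(.lf (nat_lit 26533909) (dlOf (nat_lit 2) (nat_lit 0x14d3a8032211d000fe028c50080))) 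
(.lf (nat_lit 55894037) (dlOf (nat_lit 1) (nat_lit 0x200196e0481)))) 
(.lf (nat_lit 24436757) (dlOf (nat_lit 1) (nat_lit 0x400200020008ba0582)))) (.nd (nat_lit 9) 
(.lf (nat_lit 3465365) (dlOf (nat_lit 2) (nat_lit 0xc091000d245b00005028200180))) (.nd (nat_lit 24) 
(.lf (nat_lit 2754932373) (dlOf (nat_lit 3) (nat_lit 0x17c0b20001a0100c7059000040080150008011c002007800080f7203))) 
(.lf (nat_lit 20246165) (dlOf (nat_lit 1) (nat_lit 0x200089d7201))))))) (.nd (nat_lit 31) 
(.nd (nat_lit 27) (.nd (nat_lit 7) 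
(.lf (nat_lit 5905899573) (dlOf (nat_lit 1) (nat_lit 0x80008160601))) 
(.lf (nat_lit 23388341) (dlOf (nat_lit 1) (nat_lit 0x40028b80381)))) (.nd (nat_lit 8) 
(.lf (nat_lit 1208279093) (dlOf (nat_lit 2) (nat_lit 0x7100720022602003400080b0481))) 
(.lf (nat_lit 671408437) (dlOf (nat_lit 1) (nat_lit 0x800400240008188402))))) (.nd (nat_lit 21) 
(.nd (nat_lit 26) 
(.lf (nat_lit 3892633653) (dlOf (nat_lit 1) (nat_lit 0x8008000400200020008180483))) 
(.lf (nat_lit 6509879349) (dlOf (nat_lit 1) (nat_lit 0x80008160601)))) (.nd (nat_lit 7) 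
(.lf (nat_lit 2753880117) (dlOf (nat_lit 2) (nat_lit 0x28022400058040010002000400080a0a82))) 
(.lf (nat_lit 2754931893) (dlOf (nat_lit 3) (nat_lit 0x608700028810002042000064080330008007800200a000080f6283))))))) 
(.nd (nat_lit 8) (.nd (nat_lit 24) (.nd (nat_lit 27) (.nd (nat_lit 5) 
(.lf (nat_lit 4832157781) (dlOf (nat_lit 1) (nat_lit 0x4004000200080e1782))) 
(.lf (nat_lit 1074061429) (dlOf (nat_lit 1) (nat_lit 0x20028090081)))) (.nd (nat_lit 26) 
(.lf (nat_lit 1208279125) (dlOf (nat_lit 1) (nat_lit 0x4a00080b0701))) 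
(.lf (nat_lit 2349129813) (dlOf (nat_lit 6) (nat_lit 0x12010000b0018000f410023004001640060003c04012c0100001d810055007002c800c0006c08001405401380100056007002c800c0006a100004004000400180c1982))))) 
(.nd (nat_lit 5) (.nd (nat_lit 9) 
(.lf (nat_lit 26533973) (dlOf (nat_lit 1) (nat_lit 0xc0018c50781))) 
(.lf (nat_lit 20243029) (dlOf (nat_lit 1) (nat_lit 0x3e00089d1681)))) 
(.lf (nat_lit 21291125) (dlOf (nat_lit 1) (nat_lit 0x20028a30b01))))) (.nd (nat_lit 21) 
(.nd (nat_lit 12) (.lf (nat_lit 50652501) (dlOf (nat_lit 1) (nat_lit 0x80080004002000200094c3383))) 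
(.lf (nat_lit 324949) (dlOf (nat_lit 1) (nat_lit 0xc0018009901)))) (.nd (nat_lit 10) 
(.lf (nat_lit 3465557) (dlOf (nat_lit 3) (nat_lit 0x22ac00003808008959c006c8fa00223d900005038200680))) 
(.nd (nat_lit 24) (.lf (nat_lit 40166741) (dlOf (nat_lit 1) (nat_lit 0x20002000800091f3382))) 
(.lf (nat_lit 56943957) (dlOf (nat_lit 1) (nat_lit 0x20019793381)))))))) (.nd (nat_lit 23) 
(.nd (nat_lit 6) (.nd (nat_lit 5) (.nd (nat_lit 7) (.nd (nat_lit 20) 
(.lf (nat_lit 70049813) (dlOf (nat_lit 1) (nat_lit 0x20028e70481))) 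
(.lf (nat_lit 39641109) (dlOf (nat_lit 1) (nat_lit 0xa00191a0481)))) 
(.lf (nat_lit 4362920085) (dlOf (nat_lit 2) (nat_lit 0x3605a0005028800d8104000140c0008004000800181a0182)))) 
(.nd (nat_lit 7) (.lf (nat_lit 21815349) (dlOf (nat_lit 1) (nat_lit 0x620008a70601))) 
(.lf (nat_lit 8185269) (dlOf (nat_lit 1) (nat_lit 0x400200020008513602))))) (.nd (nat_lit 27) 
(.nd (nat_lit 7) 
(.lf (nat_lit 4362920277) (dlOf (nat_lit 7) (nat_lit 0x6c0120000401025e009000018080a280480000a04010000000004020002000000010100100090000000800080080114002001200081a0683))) 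
(.lf (nat_lit 4362920149) (dlOf (nat_lit 2) (nat_lit 0xd804800486040018002003800081a0482)))) 
(.nd (nat_lit 26) 
(.lf (nat_lit 135061717) (dlOf (nat_lit 1) (nat_lit 0x10008005800200b000081b0483))) 
(.lf (nat_lit 202170581) (dlOf (nat_lit 1) (nat_lit 0x10008005800200b000081b0483)))))) 
(.nd (nat_lit 20) (.nd (nat_lit 21) (.nd (nat_lit 6) (.nd (nat_lit 24) 
(.lf (nat_lit 42786837) (dlOf (nat_lit 4) (nat_lit 0x6cea000f501002367500074808000b3a8003a20400dc00400340009280082))) 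
(.lf (nat_lit 59564053) (dlOf (nat_lit 1) (nat_lit 0x90008000800200140009810503)))) 
(.lf (nat_lit 9232469) (dlOf (nat_lit 1) (nat_lit 0x3e0008530701)))) (.nd (nat_lit 5) 
(.nd (nat_lit 22) (.lf (nat_lit 11329557) (dlOf (nat_lit 1) (nat_lit 0x20018690281))) 
(.lf (nat_lit 15523861) (dlOf (nat_lit 1) (nat_lit 0x8008031800200020008800403)))) 
(.lf (nat_lit 11329589) (dlOf (nat_lit 1) (nat_lit 0x20028690781))))) (.nd (nat_lit 5) 
(.nd (nat_lit 7) (.lf (nat_lit 10280981) (dlOf (nat_lit 2) (nat_lit 0x16779004ea0185c0880))) 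
(.lf (nat_lit 60613781) (dlOf (nat_lit 1) (nat_lit 0x1c80080138002001000098c2b83)))) 
(.nd (nat_lit 21) (.lf (nat_lit 10281013) (dlOf (nat_lit 2) (nat_lit 0x6779000e28185c0d00))) 
(.lf (nat_lit 16572469) (dlOf (nat_lit 1) (nat_lit 0x4c004014800088c0882)))))))) (.nd (nat_lit 26) 
(.nd (nat_lit 5) (.nd (nat_lit 6) (.nd (nat_lit 20) (.nd (nat_lit 29) 
(.lf (nat_lit 1342496789) (dlOf (nat_lit 1) (nat_lit 0x20008000c00200080008040483))) 
(.nd (nat_lit 30) 
(.lf (nat_lit 2953109525) (dlOf (nat_lit 1) (nat_lit 0x1c0008002c00200160008130403))) 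
(.lf (nat_lit 1879367701) (dlOf (nat_lit 2) (nat_lit 0x20088001500801c0008014000200cc00080f0283))))) 
(.nd (nat_lit 19) (.lf (nat_lit 1343545365) (dlOf (nat_lit 1) (nat_lit 0x1400400080008290482))) 
(.lf (nat_lit 1346166805) (dlOf (nat_lit 4) (nat_lit 0x405a4003da04001440a00520b2000900d0007481800382c8003a20400ec00400140008e60082))))) 
(.nd (nat_lit 27) (.nd (nat_lit 7) (.nd (nat_lit 19) 
(.lf (nat_lit 2416238677) (dlOf (nat_lit 1) (nat_lit 0x4002000200080c1982))) 
(.lf (nat_lit 1343021141) (dlOf (nat_lit 7) (nat_lit 0xa41bd0001c01002e0000000c40800888c000440000002904020e249001011880008718035037a000070801fc24900030f7004286f4000020c000c4640000002001c0008130d81)))) 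
(.lf (nat_lit 5637464277) (dlOf (nat_lit 1) (nat_lit 0x80080004002000200080f1903)))) 
(.nd (nat_lit 29) (.lf (nat_lit 2550456405) (dlOf (nat_lit 1) (nat_lit 0x200180c1681))) 
(.lf (nat_lit 5234810965) (dlOf (nat_lit 1) (nat_lit 0x80080004002000200080e1783)))))) 
(.nd (nat_lit 31) (.nd (nat_lit 32) (.nd (nat_lit 30) 
(.lf (nat_lit 268754997) (dlOf (nat_lit 3) (nat_lit 0x60054002a029000f01380068c1800080a8000804e0017c04000a0008120481))) 
(.lf (nat_lit 1342496821) (dlOf (nat_lit 1) (nat_lit 0x20028040701)))) (.nd (nat_lit 6) 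
(.lf (nat_lit 5637464245) (dlOf (nat_lit 1) (nat_lit 0x500080194002006600080f1703))) 
(.lf (nat_lit 5637464181) (dlOf (nat_lit 1) (nat_lit 0x80080004002000200080f0b03))))) 
(.nd (nat_lit 27) (.nd (nat_lit 29) 
(.lf (nat_lit 2416238645) (dlOf (nat_lit 1) (nat_lit 0x80080004002000200080c1103))) 
(.lf (nat_lit 4026851381) (dlOf (nat_lit 2) (nat_lit 0x1c00a0006402004600180a0a81)))) 
(.nd (nat_lit 6) 
(.lf (nat_lit 2550456373) (dlOf (nat_lit 1) (nat_lit 0x80080004002000200080c1103))) 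
(.lf (nat_lit 3624201461) (dlOf (nat_lit 1) (nat_lit 0xec004003c0008146582))))))) (.nd (nat_lit 30) 
(.nd (nat_lit 6) (.nd (nat_lit 5) (.nd (nat_lit 31) (.nd (nat_lit 20) 
(.lf (nat_lit 470081557) (dlOf (nat_lit 1) (nat_lit 0x20008000c00200080008040483))) 
(.lf (nat_lit 471130133) (dlOf (nat_lit 1) (nat_lit 0x80008270481)))) (.nd (nat_lit 27) 
(.lf (nat_lit 2483347477) (dlOf (nat_lit 1) (nat_lit 0x28004001600080c0a82))) 
(.lf (nat_lit 3154436117) (dlOf (nat_lit 1) (nat_lit 0x28008001400200040008190483))))) 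
(.nd (nat_lit 21) (.lf (nat_lit 470081589) (dlOf (nat_lit 1) (nat_lit 0x20028040701))) 
(.lf (nat_lit 1009049653) (dlOf (nat_lit 1) (nat_lit 0x10008000800200060009020483))))) 
(.nd (nat_lit 19) (.nd (nat_lit 21) 
(.lf (nat_lit 2483347541) (dlOf (nat_lit 2) (nat_lit 0x1c02a000138180c1680))) 
(.lf (nat_lit 1009049685) (dlOf (nat_lit 1) (nat_lit 0x28008000c002000a0009020703)))) 
(.lf (nat_lit 470605909) (dlOf (nat_lit 7) (nat_lit 0xa41bd0001d01002e0000000c40800888c000440000002904020e249001011880008718035037a000070801fc24900030f7004286f4000020c000c4640000002001c0008130d81))))) 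
(.nd (nat_lit 6) (.nd (nat_lit 19) (.nd (nat_lit 5) (.nd (nat_lit 29) 
(.lf (nat_lit 3691307029) (dlOf (nat_lit 1) (nat_lit 0x1c0008002c00200160008130403))) 
(.lf (nat_lit 2080694293) (dlOf (nat_lit 1) (nat_lit 0x200180b0081)))) 
(.lf (nat_lit 2080694325) (dlOf (nat_lit 2) (nat_lit 0x7100720022602003400080b0481)))) 
(.nd (nat_lit 7) 
(.lf (nat_lit 3557613589) (dlOf (nat_lit 1) (nat_lit 0x18008000c00200040008270483))) 
(.lf (nat_lit 4228702357) (dlOf (nat_lit 2) (nat_lit 0x360530005025000d80e8000140c0008004000800181a0182))))) 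
(.nd (nat_lit 5) (.nd (nat_lit 7) (.nd (nat_lit 8) 
(.lf (nat_lit 2080694357) (dlOf (nat_lit 1) (nat_lit 0x4a00080b0701))) 
(.lf (nat_lit 4228702549) (dlOf (nat_lit 7) (nat_lit 0x6c0110000401025e008800018080a280440000a04010000000004020002000000010100100088000000800080080114002001200081a0683)))) 
(.lf (nat_lit 4228702421) (dlOf (nat_lit 2) (nat_lit 0xd804400486040018002003800081a0482)))) 
(.nd (nat_lit 32) (.lf (nat_lit 1946476661) (dlOf (nat_lit 1) (nat_lit 0x20028090081))) 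
(.lf (nat_lit 6241443957) (dlOf (nat_lit 1) (nat_lit 0x80080004002000200080f0b03))))))))))) 
(.nd (nat_lit 15) (.nd (nat_lit 5) (.nd (nat_lit 18) (.nd (nat_lit 26) (.nd (nat_lit 6) 
(.nd (nat_lit 19) (.nd (nat_lit 7) (.nd (nat_lit 8) (.nd (nat_lit 9) (.nd (nat_lit 21) 
(.lf (nat_lit 6576758805) (dlOf (nat_lit 1) (nat_lit 0x14004000600080c0782))) 
(.lf (nat_lit 14770197) (dlOf (nat_lit 2) (nat_lit 0x32fa809986ac039034a003e03100860158007a8280040008008000200060008770083)))) 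
(.lf (nat_lit 39938581) (dlOf (nat_lit 1) (nat_lit 0x2400191f5081)))) (.nd (nat_lit 9) 
(.lf (nat_lit 5905670421) (dlOf (nat_lit 3) (nat_lit 0x20000008200801580000016804003000400aa00180b0482))) 
(.lf (nat_lit 6174108437) (dlOf (nat_lit 1) (nat_lit 0x40018055b81))))) (.nd (nat_lit 12) 
(.nd (nat_lit 10) 
(.lf (nat_lit 3235989) (dlOf (nat_lit 2) (nat_lit 0xa4521001d28480220f64000140c000800400020018200182))) 
(.lf (nat_lit 3489754261) (dlOf (nat_lit 1) (nat_lit 0x18008000800200040008006203)))) 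
(.nd (nat_lit 8) (.lf (nat_lit 1342273685) (dlOf (nat_lit 1) (nat_lit 0x32002800a881))) 
(.lf (nat_lit 97173) (dlOf (nat_lit 1) (nat_lit 0x16001800bc81)))))) (.nd (nat_lit 30) 
(.nd (nat_lit 22) (.nd (nat_lit 23) 
(.lf (nat_lit 134832149) (dlOf (nat_lit 2) (nat_lit 0x2043008b28180c0a80))) 
(.lf (nat_lit 42557461) (dlOf (nat_lit 5) (nat_lit 0xce82001fd020034741000fe0100543a080079c080049d04003cc04043800400080009260082)))) 
(.nd (nat_lit 21) (.lf (nat_lit 21585941) (dlOf (nat_lit 1) (nat_lit 0x100008a50281))) 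
(.lf (nat_lit 15294485) (dlOf (nat_lit 4) (nat_lit 0x1493a00be0000001282004600000008c08003165c00600000002204001600187d0301))))) 
(.nd (nat_lit 7) (.nd (nat_lit 9) (.nd (nat_lit 21) 
(.lf (nat_lit 3221839893) (dlOf (nat_lit 3) (nat_lit 0x26808c019c002010404600bce0181a0a80))) 
(.lf (nat_lit 1344888853) (dlOf (nat_lit 1) (nat_lit 0x1000800ec00200120008990483)))) 
(.lf (nat_lit 1342792213) (dlOf (nat_lit 1) (nat_lit 0x4004000200180c0d82)))) 
(.lf (nat_lit 1342791829) (dlOf (nat_lit 2) (nat_lit 0x120a88000f80800680080080002000600080c0183)))))) 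
(.nd (nat_lit 8) (.nd (nat_lit 7) (.nd (nat_lit 10) (.nd (nat_lit 19) 
(.lf (nat_lit 1344364629) (dlOf (nat_lit 1) (nat_lit 0x800080050002008e0008740303))) 
(.lf (nat_lit 3221839957) (dlOf (nat_lit 2) (nat_lit 0xf00bc0000a040018004000800081a1682)))) 
(.nd (nat_lit 12) 
(.lf (nat_lit 1611228245) (dlOf (nat_lit 1) (nat_lit 0xc80080030002003e0008122903))) 
(.lf (nat_lit 8483925) (dlOf (nat_lit 1) (nat_lit 0x20018519301))))) (.nd (nat_lit 9) 
(.nd (nat_lit 11) (.lf (nat_lit 8479957) (dlOf (nat_lit 1) (nat_lit 0x800200020008512d82))) 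
(.lf (nat_lit 20016341) (dlOf (nat_lit 1) (nat_lit 0x10004000c00089d6482)))) 
(.lf (nat_lit 39938773) (dlOf (nat_lit 1) (nat_lit 0x10004000200191f5882))))) (.nd (nat_lit 10) 
(.nd (nat_lit 7) (.nd (nat_lit 19) 
(.lf (nat_lit 3236181) (dlOf (nat_lit 3) (nat_lit 0x24a420004509000070200d7294806b94840360a3200fa50900005048200680))) 
(.lf (nat_lit 1342792021) (dlOf (nat_lit 13) (nat_lit 0x422f0002b010071117802f0898000aa08000845e000540202c423c006011b8001441001f88f0000a004040847800d82370002702001511e0001080806a88f0000800402fc478007a2370001d02007a121807f88f0012446e0003706002022f00011010073117802308980002408008800400ec00180c0682)))) 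
(.nd (nat_lit 21) (.nd (nat_lit 27) 
(.lf (nat_lit 1610703317) (dlOf (nat_lit 2) (nat_lit 0x180aa000a0370000a028091180))) 
(.lf (nat_lit 402743765) (dlOf (nat_lit 2) (nat_lit 0x3800000058040014002000c0008091182)))) 
(.lf (nat_lit 1881235925) (dlOf (nat_lit 1) (nat_lit 0x18008004000200060008e81183))))) 
(.nd (nat_lit 9) 
(.lf (nat_lit 8484309) (dlOf (nat_lit 3) (nat_lit 0x1799500080c8e00505890040281001413b400a092a00503e20001207002432a001216240090a04000c4cd001b24a8000802800e80080008002001a0008519b03))) 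
(.nd (nat_lit 29) (.lf (nat_lit 92117) (dlOf (nat_lit 1) (nat_lit 0xe20018004501))) 
(.lf (nat_lit 536963029) (dlOf (nat_lit 2) (nat_lit 0x2402d000501380128014008c006000100800120018004501)))))))) 
(.nd (nat_lit 28) (.nd (nat_lit 27) (.nd (nat_lit 29) (.nd (nat_lit 6) (.nd (nat_lit 19) 
(.lf (nat_lit 5435908117) (dlOf (nat_lit 1) (nat_lit 0x400400040008020082))) 
(.lf (nat_lit 4362690581) (dlOf (nat_lit 1) (nat_lit 0x600180d0901)))) 
(.lf (nat_lit 6509650005) (dlOf (nat_lit 1) (nat_lit 0x54002001200080b0002)))) (.nd (nat_lit 20) 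
(.nd (nat_lit 6) 
(.lf (nat_lit 1677811989) (dlOf (nat_lit 2) (nat_lit 0xf013000000080020008007800200060008090483))) 
(.lf (nat_lit 2754175061) (dlOf (nat_lit 7) (nat_lit 0x370fd000604e00004e0800dc3f4000260201261fa001809c0000901004b87e8004c270000230401381fa0001101001f1090006855000000080060004002200180c1982)))) 
(.nd (nat_lit 7) 
(.lf (nat_lit 2752602133) (dlOf (nat_lit 1) (nat_lit 0x20008003000200020008020483))) 
(.lf (nat_lit 2754702997) (dlOf (nat_lit 1) (nat_lit 0x400080f7201)))))) (.nd (nat_lit 19) 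
(.nd (nat_lit 7) 
(.lf (nat_lit 3959513365) (dlOf (nat_lit 2) (nat_lit 0x3000000010080018008006c00200340008090483))) 
(.nd (nat_lit 11) (.lf (nat_lit 201418389) (dlOf (nat_lit 1) (nat_lit 0x400400020008003a82))) 
(.lf (nat_lit 2885774997) (dlOf (nat_lit 2) (nat_lit 0xc0360001a018007200))))) (.nd (nat_lit 6) 
(.nd (nat_lit 29) (.lf (nat_lit 201941013) (dlOf (nat_lit 2) (nat_lit 0x2043008ac0180c0a80))) 
(.lf (nat_lit 3960037397) (dlOf (nat_lit 3) (nat_lit 0x26808c01d1b02010404600d840181a0a80)))) 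
(.nd (nat_lit 29) 
(.lf (nat_lit 201941077) (dlOf (nat_lit 4) (nat_lit 0x1d00c40007a0400480620003c020010031000000180c1980))) 
(.lf (nat_lit 3960037461) (dlOf (nat_lit 17) (nat_lit 0x37c0140003e020e5c00a000138106e30050000980838f80280004a041ff801400024020ff200a000118108010050000880834c8028000420403240140001e02006200a0000e81005100500006c0812b8028000320403d00140001302004800a0000901021b00500004408171015414000a209fe04e04fc02681eb81280f140920212045050101a81b300d0057406208d602b04ff01382810098124c0460a02022051700f827d007805fc024043c010052e003000000a000d0008015c002050a00081a1983))))))) 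
(.nd (nat_lit 8) (.nd (nat_lit 7) (.nd (nat_lit 19) (.nd (nat_lit 30) 
(.lf (nat_lit 5301690389) (dlOf (nat_lit 1) (nat_lit 0x400400040008020082))) 
(.lf (nat_lit 2080464917) (dlOf (nat_lit 1) (nat_lit 0x9400400460008090002)))) (.nd (nat_lit 29) 
(.lf (nat_lit 470376469) (dlOf (nat_lit 1) (nat_lit 0x60008007c002000400080c0003))) 
(.lf (nat_lit 4228472853) (dlOf (nat_lit 1) (nat_lit 0x600180d0901))))) (.nd (nat_lit 9) 
(.nd (nat_lit 10) 
(.lf (nat_lit 470376597) (dlOf (nat_lit 2) (nat_lit 0x120a88000f80800680080080002000600080c0183))) 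
(.lf (nat_lit 1008297109) (dlOf (nat_lit 1) (nat_lit 0x60018b52b81)))) 
(.lf (nat_lit 5167475349) (dlOf (nat_lit 1) (nat_lit 0x1e0028055501))))) (.nd (nat_lit 7) 
(.nd (nat_lit 10) (.nd (nat_lit 6) 
(.lf (nat_lit 5704346389) (dlOf (nat_lit 1) (nat_lit 0x40018055b81))) 
(.lf (nat_lit 470376789) (dlOf (nat_lit 13) (nat_lit 0x422f0002b010071117802f0898000aa08000845e000540202c423c006011b8001441001f88f0000a004040847800d82370002702001511e0001080806a88f0000800402fc478007a2370001d02007a121807f88f0012446e0003706002022f00011010073117802308980002408008800400ec00180c0682)))) 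
(.nd (nat_lit 11) 
(.lf (nat_lit 473523541) (dlOf (nat_lit 1) (nat_lit 0x8008000400200020008f53383))) 
(.lf (nat_lit 1543597397) (dlOf (nat_lit 1) (nat_lit 0x1c0018146a01))))) (.nd (nat_lit 10) 
(.nd (nat_lit 11) 
(.lf (nat_lit 2080465365) (dlOf (nat_lit 9) (nat_lit 0x400a0001c0160002c04001800b00015810013014800b0030000540800280180002902002e029000a014000b80300000a0c000c050000030200140290014014000a0030000040c0010050000c00c0006005800000180150008016400200020008091183))) 
(.lf (nat_lit 1007774165) (dlOf (nat_lit 1) (nat_lit 0x1400287a4e81)))) 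
(.lf (nat_lit 469857749) (dlOf (nat_lit 2) (nat_lit 0xa02380004004000c00200020008009b02)))))))) 
(.nd (nat_lit 21) (.nd (nat_lit 29) (.nd (nat_lit 26) (.nd (nat_lit 20) (.nd (nat_lit 22) 
(.nd (nat_lit 6) (.nd (nat_lit 7) 
(.lf (nat_lit 6442803221) (dlOf (nat_lit 1) (nat_lit 0x2400181c0781))) 
(.lf (nat_lit 5771717013) (dlOf (nat_lit 1) (nat_lit 0x900018004e81)))) 
(.lf (nat_lit 2416271445) (dlOf (nat_lit 4) (nat_lit 0x140120000f00800a00900007604002402e0003502000400180c1981)))) 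
(.nd (nat_lit 10) (.lf (nat_lit 29712405) (dlOf (nat_lit 1) (nat_lit 0x400200020008e30002))) 
(.lf (nat_lit 38102037) (dlOf (nat_lit 1) (nat_lit 0x800200020009132882))))) (.nd (nat_lit 19) 
(.nd (nat_lit 6) 
(.lf (nat_lit 1343578133) (dlOf (nat_lit 1) (nat_lit 0x180080048002000200082a0383))) 
(.lf (nat_lit 13983957) (dlOf (nat_lit 2) (nat_lit 0x66340001f018750500)))) (.nd (nat_lit 23) 
(.lf (nat_lit 18702357) (dlOf (nat_lit 2) (nat_lit 0xd24f000220080100008015000200120008960383))) 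
(.lf (nat_lit 27090965) (dlOf (nat_lit 2) (nat_lit 0x3636380035604007c00400700008ca0482)))))) 
(.nd (nat_lit 6) (.nd (nat_lit 27) (.nd (nat_lit 30) 
(.lf (nat_lit 4362428437) (dlOf (nat_lit 2) (nat_lit 0x1203300000018070500))) 
(.lf (nat_lit 3288686613) (dlOf (nat_lit 4) (nat_lit 0x80d80237804000806c011b802001802d007e48180c0a80)))) 
(.lf (nat_lit 1543856149) (dlOf (nat_lit 1) (nat_lit 0x200181a0481)))) (.nd (nat_lit 8) 
(.nd (nat_lit 28) (.lf (nat_lit 4496646229) (dlOf (nat_lit 1) (nat_lit 0x400400020008100702))) 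
(.lf (nat_lit 5838823509) (dlOf (nat_lit 1) (nat_lit 0x80080004002000200081c1083)))) 
(.lf (nat_lit 3557122389) (dlOf (nat_lit 1) (nat_lit 0x40018130881)))))) (.nd (nat_lit 30) 
(.nd (nat_lit 6) (.nd (nat_lit 28) (.nd (nat_lit 10) 
(.lf (nat_lit 671440917) (dlOf (nat_lit 1) (nat_lit 0x200181a0481))) 
(.lf (nat_lit 2751816725) (dlOf (nat_lit 1) (nat_lit 0x400200020008002882)))) (.nd (nat_lit 31) 
(.lf (nat_lit 1006985237) (dlOf (nat_lit 1) (nat_lit 0x20008120a81))) 
(.lf (nat_lit 3154468885) (dlOf (nat_lit 6) (nat_lit 0x1ae81440d5409e001ff04015805100a10278007f4100a50150022c0a2010804f014f02600a40128052808c021e033014601880ff8090052c044029e01d013600d80a50058050c0280252005000fe0f009002880079c0804e0144003cc0400d0004000200081a0082))))) 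
(.nd (nat_lit 7) (.nd (nat_lit 8) 
(.lf (nat_lit 2818924629) (dlOf (nat_lit 1) (nat_lit 0x14004001e0008130202))) 
(.lf (nat_lit 738550101) (dlOf (nat_lit 2) (nat_lit 0x1c0360055402000400180a7081)))) 
(.lf (nat_lit 2818924757) (dlOf (nat_lit 1) (nat_lit 0x800200120008130502))))) (.nd (nat_lit 28) 
(.nd (nat_lit 27) (.nd (nat_lit 31) 
(.lf (nat_lit 5905932309) (dlOf (nat_lit 1) (nat_lit 0xc00080010002001c0008160483))) 
(.lf (nat_lit 3758448661) (dlOf (nat_lit 1) (nat_lit 0x200181c0481)))) 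
(.lf (nat_lit 3892666389) (dlOf (nat_lit 11) (nat_lit 0xe018002780a80ea6051000802803b1013c05d0098039404a008a019806100c8013c06203ae02401c70110001007407240360038019006200b000d805002f400a008800200160000007b4a0019813c003d804084c0c00194054024002880070140090809e005804c0017023010d00cc011c06400600310221012000a008801b8032042e01600e600a006b0014003d64015400c00b8a054002a0260018811817940660586031059401201a180880de803a0b4a016056500a02b380140ad8004068e000000f50e00020278007a40800180cc002c0480002016000100280078c200010150003b20402740a803c4051010c01981160090011c03a009201900fd00b01110014003a42003200a2000e024000e882000102380068c081af000801840020d9e0008180083)))) 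
(.nd (nat_lit 6) (.nd (nat_lit 26) (.nd (nat_lit 31) 
(.lf (nat_lit 1879400469) (dlOf (nat_lit 1) (nat_lit 0x20008120a81))) 
(.lf (nat_lit 4026884117) (dlOf (nat_lit 4) (nat_lit 0x80d80236004000806c011ac02001802d008290180c0a80)))) 
(.lf (nat_lit 4228210709) (dlOf (nat_lit 2) (nat_lit 0x1203200000018070500)))) 
(.lf (nat_lit 4026884181) (dlOf (nat_lit 3) (nat_lit 0x806a0003d0200040350001d8180c1980))))))) 
(.nd (nat_lit 19) (.nd (nat_lit 10) (.nd (nat_lit 6) (.nd (nat_lit 7) (.nd (nat_lit 9) 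
(.lf (nat_lit 2449429) (dlOf (nat_lit 1) (nat_lit 0x10008000800200040008160783))) 
(.lf (nat_lit 41247253) (dlOf (nat_lit 1) (nat_lit 0x154002006c0009227d82)))) 
(.lf (nat_lit 3498133) (dlOf (nat_lit 2) (nat_lit 0x788e4009245b00005028200180)))) 
(.lf (nat_lit 3498325) (dlOf (nat_lit 2) (nat_lit 0x3bc8fa01de3d900005028200680)))) 
(.nd (nat_lit 7) (.nd (nat_lit 12) 
(.lf (nat_lit 20278293) (dlOf (nat_lit 1) (nat_lit 0x18002001200089d5f82))) 
(.lf (nat_lit 20282389) (dlOf (nat_lit 1) (nat_lit 0x200089dbf01)))) (.nd (nat_lit 6) 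
(.lf (nat_lit 52782485) (dlOf (nat_lit 1) (nat_lit 0x400400020009573602))) 
(.lf (nat_lit 52782293) (dlOf (nat_lit 1) (nat_lit 0x400200020009572d82)))))) (.nd (nat_lit 6) 
(.nd (nat_lit 20) (.nd (nat_lit 7) 
(.lf (nat_lit 11362325) (dlOf (nat_lit 1) (nat_lit 0x1500080004002000c0008690283))) 
(.lf (nat_lit 19754389) (dlOf (nat_lit 1) (nat_lit 0x600189d6d01)))) (.nd (nat_lit 23) 
(.lf (nat_lit 3493683221) (dlOf (nat_lit 2) (nat_lit 0x781ec0005c040034002003e00081a0482))) 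
(.lf (nat_lit 45965333) (dlOf (nat_lit 1) (nat_lit 0x40009370501))))) (.nd (nat_lit 7) 
(.nd (nat_lit 9) (.lf (nat_lit 4022357) (dlOf (nat_lit 2) (nat_lit 0x7e00000000018270d80))) 
(.lf (nat_lit 58550869) (dlOf (nat_lit 2) (nat_lit 0x33a0000020080010008000c002000200097e5303)))) 
(.nd (nat_lit 8) (.lf (nat_lit 19757781) (dlOf (nat_lit 1) (nat_lit 0x200189db981))) 
(.lf (nat_lit 58549205) (dlOf (nat_lit 1) (nat_lit 0xc004000400197e2882))))))))) (.nd (nat_lit 28) 
(.nd (nat_lit 6) (.nd (nat_lit 8) (.nd (nat_lit 18) (.nd (nat_lit 7) (.nd (nat_lit 19) 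
(.lf (nat_lit 2752602165) (dlOf (nat_lit 2) (nat_lit 0x5448e00022380016119001100000000010020c00200740008020602))) 
(.nd (nat_lit 20) (.lf (nat_lit 4362690613) (dlOf (nat_lit 1) (nat_lit 0x10002000200080d1282))) 
(.lf (nat_lit 3760181) (dlOf (nat_lit 3) (nat_lit 0xc4c7000af8100012648004e00800a8008000400200300008220a83))))) 
(.nd (nat_lit 9) (.nd (nat_lit 27) 
(.lf (nat_lit 3288427701) (dlOf (nat_lit 2) (nat_lit 0x1e035000f018000c808c0008e0c000800200060008006282))) 
(.lf (nat_lit 2885774517) (dlOf (nat_lit 5) (nat_lit 0x24c06e01980000000c82009701b806300000003008018406e016a0000000b02007001b805c8000000280802bc00202f20008006282)))) 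
(.nd (nat_lit 10) (.lf (nat_lit 2147576501) (dlOf (nat_lit 1) (nat_lit 0x20028095701))) 
(.lf (nat_lit 20543157) (dlOf (nat_lit 1) (nat_lit 0x4002000200089da002)))))) (.nd (nat_lit 19) 
(.nd (nat_lit 10) (.nd (nat_lit 20) 
(.lf (nat_lit 3892666421) (dlOf (nat_lit 4) (nat_lit 0xf6056007501a802900ac021802e0015408001402b000a881001401b0000000801880080184002000e0008180483))) 
(.lf (nat_lit 68509749) (dlOf (nat_lit 2) (nat_lit 0x103700000004000c00400200018590c02)))) 
(.lf (nat_lit 36004917) (dlOf (nat_lit 1) (nat_lit 0x20029012881)))) (.nd (nat_lit 20) 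
(.nd (nat_lit 10) 
(.lf (nat_lit 5070901) (dlOf (nat_lit 2) (nat_lit 0x84cb000094080010008001000200040008300783))) 
(.lf (nat_lit 2752341045) (dlOf (nat_lit 1) (nat_lit 0x400200020008002882)))) (.nd (nat_lit 9) 
(.lf (nat_lit 27090997) (dlOf (nat_lit 5) (nat_lit 0x1e9ec280f875fc00e796e0155bc901b8ddc00cfed84047f696036fb3700ef6e9002ab4bc081000000025160343bc9019dddc00706d2c033f66e0070d2f01be000000088300998000000260400240000000402012a0008ca0781))) 
(.lf (nat_lit 12411445) (dlOf (nat_lit 1) (nat_lit 0x38008007c002009600086c0f83))))))) 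
(.nd (nat_lit 11) (.nd (nat_lit 10) (.nd (nat_lit 26) 
(.lf (nat_lit 1208049973) (dlOf (nat_lit 1) (nat_lit 0x8800400080008090b82))) 
(.lf (nat_lit 2348900661) (dlOf (nat_lit 2) (nat_lit 0x3b00800295c0802e8008011c00200900008014c03)))) 
(.nd (nat_lit 18) (.lf (nat_lit 8484149) (dlOf (nat_lit 1) (nat_lit 0x400200020008519902))) 
(.lf (nat_lit 8746293) (dlOf (nat_lit 1) (nat_lit 0x400200020008519902))))) (.nd (nat_lit 20) 
(.nd (nat_lit 9) (.lf (nat_lit 1812032821) (dlOf (nat_lit 1) (nat_lit 0x5000400160008146882))) 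
(.lf (nat_lit 97077) (dlOf (nat_lit 1) (nat_lit 0x1000800080020008000800bc83)))) (.nd (nat_lit 7) 
(.lf (nat_lit 20015925) (dlOf (nat_lit 1) (nat_lit 0x4002000200089d5c02))) 
(.lf (nat_lit 20540341) (dlOf (nat_lit 1) (nat_lit 0x800289d5d01))))))) (.nd (nat_lit 7) 
(.nd (nat_lit 8) (.nd (nat_lit 32) (.nd (nat_lit 9) (.nd (nat_lit 10) 
(.lf (nat_lit 47276149) (dlOf (nat_lit 5) (nat_lit 0x16d26000368c0007b410001d7ec0000c10001ad26000768c0004b41000257ec0000a100026d26000b68c0009b41000457ec00006100026d26000968c000ab41000357ec00002100008002000600093c0d82))) 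
(.lf (nat_lit 50160757) (dlOf (nat_lit 1) (nat_lit 0x8004000400094c2a02)))) 
(.lf (nat_lit 93813) (dlOf (nat_lit 1) (nat_lit 0x2c0018007181)))) (.nd (nat_lit 18) 
(.nd (nat_lit 26) (.lf (nat_lit 6576758901) (dlOf (nat_lit 1) (nat_lit 0xd0004005400080c1882))) 
(.lf (nat_lit 5972779125) (dlOf (nat_lit 1) (nat_lit 0xd0004005400080c1882)))) 
(.lf (nat_lit 4899299445) (dlOf (nat_lit 1) (nat_lit 0x20028100d81))))) (.nd (nat_lit 18) 
(.nd (nat_lit 10) 
(.lf (nat_lit 20015477) (dlOf (nat_lit 1) (nat_lit 0x700080044002001400089d4e83))) 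
(.lf (nat_lit 134311285) (dlOf (nat_lit 1) (nat_lit 0x400400020008006b82)))) (.nd (nat_lit 11) 
(.lf (nat_lit 4832190837) (dlOf (nat_lit 1) (nat_lit 0x31800200ec0008105802))) 
(.lf (nat_lit 69560693) (dlOf (nat_lit 1) (nat_lit 0x120018b44e81)))))) (.nd (nat_lit 11) 
(.nd (nat_lit 8) (.nd (nat_lit 9) 
(.lf (nat_lit 1208049909) (dlOf (nat_lit 1) (nat_lit 0x18008001400200060008090a83))) 
(.lf (nat_lit 201418485) (dlOf (nat_lit 1) (nat_lit 0x7e0018003b81)))) (.nd (nat_lit 20) 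
(.lf (nat_lit 2886034421) (dlOf (nat_lit 1) (nat_lit 0xa0008142881))) 
(.lf (nat_lit 51733493) (dlOf (nat_lit 1) (nat_lit 0x20019512881))))) (.nd (nat_lit 9) 
(.nd (nat_lit 27) (.lf (nat_lit 3825298677) (dlOf (nat_lit 1) (nat_lit 0x400400020008146582))) 
(.lf (nat_lit 1812032757) (dlOf (nat_lit 1) (nat_lit 0x400400020008146582)))) (.nd (nat_lit 18) 
(.lf (nat_lit 40463093) (dlOf (nat_lit 1) (nat_lit 0x1000291f5a01))) 
(.lf (nat_lit 50686709) (dlOf (nat_lit 1) (nat_lit 0x400194c5a01)))))))) (.nd (nat_lit 26) 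
(.nd (nat_lit 7) (.nd (nat_lit 6) (.nd (nat_lit 20) (.nd (nat_lit 10) (.nd (nat_lit 11) 
(.lf (nat_lit 1879138357) (dlOf (nat_lit 2) (nat_lit 0x8800e000000200160008020601))) 
(.lf (nat_lit 939616309) (dlOf (nat_lit 1) (nat_lit 0x8008000400200020008144703)))) 
(.lf (nat_lit 1346987061) (dlOf (nat_lit 1) (nat_lit 0x20009162881)))) (.nd (nat_lit 10) 
(.nd (nat_lit 31) 
(.lf (nat_lit 1343316021) (dlOf (nat_lit 20) (nat_lit 0xb502b8066a149010e099819004b802401d80a280e4003706a002c03280a8c176003009f01d303c817100ec0b9c04e0002e1a00ea027000168107590d6804086a0071c2c6002e15501f00a100048328029c17804c209f00f2039013080a0008c02804cc000000158c00190d68000a80803006b4012435000ba163007e0aa801c8508002027009d012f0077095801a8490013c1ca00780e1005c065004482f001f413e00200950080039007280f001b8050004e01400c5000000094a00d206b40100284082012f005000000008c2004e86b40238350015a16300820aa8041050814b825e005a0ca00b305e0061827c006812a018c072012d01e005800a000a40280206000000110f013a0d6800406a0015c2c6009014202f8097801582f000bc13e002c0720097014002400000004028052c35a0001c0201101ad0000d0101570d68000580807c86b40002604018035a07de12f001e01e000b80a0000241000402b8006214902b0072001f01e402fc04e0000c0a07001ad000a09701178390002c04e0000b08019a1ad026d0720000281008e86b4000120400c41c80000702071a1ad021f0ae01620524002425c00480bb00f803c80c6809c05600000000010002600281e0781)))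 
(.lf (nat_lit 3490799669) (dlOf (nat_lit 2) (nat_lit 0x5445e0002223001610e801100000000010020c00200740008020602)))) 
(.lf (nat_lit 1880712245) (dlOf (nat_lit 1) (nat_lit 0x8008000400200020008b52883))))) 
(.nd (nat_lit 8) (.nd (nat_lit 21) 
(.lf (nat_lit 5637496949) (dlOf (nat_lit 1) (nat_lit 0x400080008002000200080f0b03))) 
(.lf (nat_lit 3492110453) (dlOf (nat_lit 1) (nat_lit 0x4004000200080a1882)))) 
(.lf (nat_lit 5637497205) (dlOf (nat_lit 1) (nat_lit 0xd00080018002000c00080f5803))))) 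
(.nd (nat_lit 6) (.nd (nat_lit 8) (.nd (nat_lit 9) 
(.lf (nat_lit 2952880309) (dlOf (nat_lit 1) (nat_lit 0x160008010301))) 
(.lf (nat_lit 1344108213) (dlOf (nat_lit 1) (nat_lit 0xa00183da001)))) (.nd (nat_lit 9) 
(.lf (nat_lit 4697711029) (dlOf (nat_lit 1) (nat_lit 0x100028091001))) 
(.lf (nat_lit 5637237685) (dlOf (nat_lit 2) (nat_lit 0xc0020000440801f80080038002000c0008055d03))))) 
(.nd (nat_lit 8) (.nd (nat_lit 9) 
(.lf (nat_lit 1342270709) (dlOf (nat_lit 1) (nat_lit 0x420018006581))) (.nd (nat_lit 29) 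
(.lf (nat_lit 3623970549) (dlOf (nat_lit 4) (nat_lit 0x100000000c8100030000000540800c00000002804018400200260008003b82))) 
(.lf (nat_lit 3087099637) (dlOf (nat_lit 1) (nat_lit 0x60028143b81))))) (.nd (nat_lit 21) 
(.lf (nat_lit 2416009717) (dlOf (nat_lit 1) (nat_lit 0x400400020008017e02))) 
(.lf (nat_lit 1881235957) (dlOf (nat_lit 1) (nat_lit 0x400200020008e81402))))))) (.nd (nat_lit 8) 
(.nd (nat_lit 7) (.nd (nat_lit 31) (.nd (nat_lit 6) (.nd (nat_lit 19) 
(.lf (nat_lit 1006723125) (dlOf (nat_lit 2) (nat_lit 0x88006000000200160008020601))) 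
(.lf (nat_lit 1409900597) (dlOf (nat_lit 3) (nat_lit 0x1604c0001a81000b0260000000800600080060002002000080a0b03)))) 
(.lf (nat_lit 6241476725) (dlOf (nat_lit 1) (nat_lit 0x400080008002000200080f0b03)))) 
(.nd (nat_lit 6) (.nd (nat_lit 10) 
(.lf (nat_lit 4228472885) (dlOf (nat_lit 1) (nat_lit 0x10002000200080d1382))) 
(.lf (nat_lit 3154207797) (dlOf (nat_lit 1) (nat_lit 0x40018102881)))) 
(.lf (nat_lit 3691339893) (dlOf (nat_lit 6) (nat_lit 0x2202a008200a004c80140094000001e008003002e00c5016006200ac031c05401ae02900b100d804600640244030016001400c2008804b8020034000a01a2002002500080608000003ac3c0280058014002b00a0015005900a4021803600f6018008600a0051804400a0010015600500ab001004f0000003a6300250058012c02a008700c003f0050025c00a011e000000e606008d00000072808072000800c000200040008160483))))) 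
(.nd (nat_lit 11) (.nd (nat_lit 6) 
(.lf (nat_lit 2080727221) (dlOf (nat_lit 1) (nat_lit 0x80080008002000200080c1703))) 
(.lf (nat_lit 335634677) (dlOf (nat_lit 1) (nat_lit 0x400400020008090a82)))) (.nd (nat_lit 9) 
(.lf (nat_lit 1946250421) (dlOf (nat_lit 1) (nat_lit 0x400400020008006282))) 
(.lf (nat_lit 6376483509) (dlOf (nat_lit 1) (nat_lit 0x400400020008095702)))))) (.nd (nat_lit 10) 
(.nd (nat_lit 6) (.nd (nat_lit 31) 
(.lf (nat_lit 335634741) (dlOf (nat_lit 1) (nat_lit 0x400400020018090b82))) 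
(.lf (nat_lit 2483118389) (dlOf (nat_lit 2) (nat_lit 0x3b0080013080802e8008011c00200900008014c03)))) 
(.nd (nat_lit 18) 
(.lf (nat_lit 2080465269) (dlOf (nat_lit 1) (nat_lit 0x380080020002000a0008091003))) 
(.lf (nat_lit 6241476981) (dlOf (nat_lit 1) (nat_lit 0xd00080018002000c00080f5803))))) 
(.nd (nat_lit 12) (.nd (nat_lit 6) 
(.lf (nat_lit 4227951925) (dlOf (nat_lit 1) (nat_lit 0x700028006881))) 
(.lf (nat_lit 469854069) (dlOf (nat_lit 1) (nat_lit 0x6c0028004081)))) (.nd (nat_lit 7) 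
(.lf (nat_lit 471692597) (dlOf (nat_lit 1) (nat_lit 0xa00183d9901))) 
(.lf (nat_lit 471692725) (dlOf (nat_lit 1) (nat_lit 0xe00183d9981)))))))))) (.nd (nat_lit 5) 
(.nd (nat_lit 18) (.nd (nat_lit 19) (.nd (nat_lit 26) (.nd (nat_lit 6) (.nd (nat_lit 23) 
(.nd (nat_lit 30) (.nd (nat_lit 28) (.nd (nat_lit 7) 
(.lf (nat_lit 16900117) (dlOf (nat_lit 1) (nat_lit 0x80080004002000200088e0003))) 
(.lf (nat_lit 2220181) (dlOf (nat_lit 2) (nat_lit 0xa69fa00005018150180)))) (.nd (nat_lit 9) 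
(.lf (nat_lit 2416042005) (dlOf (nat_lit 1) (nat_lit 0x80008004c00200180008020483))) 
(.lf (nat_lit 805432853) (dlOf (nat_lit 2) (nat_lit 0x1580000000004006800200300008117082))))) 
(.nd (nat_lit 7) (.nd (nat_lit 27) 
(.lf (nat_lit 4026654741) (dlOf (nat_lit 1) (nat_lit 0x60004001c0008020482))) 
(.lf (nat_lit 3624001557) (dlOf (nat_lit 1) (nat_lit 0x11800804a8002056e0008090503)))) 
(.nd (nat_lit 11) 
(.lf (nat_lit 5503050133) (dlOf (nat_lit 1) (nat_lit 0x4e80080018002023a0008036483))) 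
(.lf (nat_lit 1342302613) (dlOf (nat_lit 1) (nat_lit 0xf80080008002006c0008004e83)))))) 
(.nd (nat_lit 20) (.nd (nat_lit 8) (.nd (nat_lit 24) 
(.lf (nat_lit 12705813) (dlOf (nat_lit 1) (nat_lit 0x80080004002000200086d0783))) 
(.lf (nat_lit 63037461) (dlOf (nat_lit 1) (nat_lit 0x4004000a00199c0082)))) 
(.lf (nat_lit 8516373) (dlOf (nat_lit 1) (nat_lit 0x8008000400200020008518f83)))) (.nd (nat_lit 22) 
(.lf (nat_lit 28434453) (dlOf (nat_lit 2) (nat_lit 0xd51980022c080100008015000200120008d90383))) 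
(.lf (nat_lit 15851541) (dlOf (nat_lit 1) (nat_lit 0x400200020008840402)))))) (.nd (nat_lit 7) 
(.nd (nat_lit 8) (.nd (nat_lit 9) 
(.lf (nat_lit 25288789) (dlOf (nat_lit 7) (nat_lit 0x28c888005e1ac006237e004b15800018840006bd800035d8c001e5260002906019591500a1c37800094101bce4540e0b0de000210401c591500e3c3780007010004c140000260401e800400060018bf0d82))) 
(.lf (nat_lit 805432917) (dlOf (nat_lit 1) (nat_lit 0x14002001c0008117182)))) (.nd (nat_lit 20) 
(.lf (nat_lit 2220373) (dlOf (nat_lit 2) (nat_lit 0x28aa600005018150680))) 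
(.lf (nat_lit 3268949) (dlOf (nat_lit 2) (nat_lit 0x850900005018200680))))) (.nd (nat_lit 8) 
(.lf (nat_lit 7463125) (dlOf (nat_lit 1) (nat_lit 0x200284b0501))) (.nd (nat_lit 9) 
(.lf (nat_lit 1610736085) (dlOf (nat_lit 2) (nat_lit 0x681500004044000140400160018091181))) 
(.lf (nat_lit 536995797) (dlOf (nat_lit 2) (nat_lit 0x2000a002a00300008028004500))))))) 
(.nd (nat_lit 27) (.nd (nat_lit 11) (.nd (nat_lit 6) (.nd (nat_lit 7) 
(.lf (nat_lit 2483150869) (dlOf (nat_lit 4) (nat_lit 0x301500617c0805700a80060050017e304010c02a015b01400128034000000c0120004000e0008030882))) 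
(.lf (nat_lit 2753683605) (dlOf (nat_lit 1) (nat_lit 0x800200020008090182)))) 
(.lf (nat_lit 2483150933) (dlOf (nat_lit 4) (nat_lit 0xf40580002902001c02c000600000009c1000900cc00c40580001b0400160018031081)))) 
(.nd (nat_lit 7) (.nd (nat_lit 8) 
(.lf (nat_lit 6509686293) (dlOf (nat_lit 1) (nat_lit 0x20028147081))) 
(.lf (nat_lit 1677846805) (dlOf (nat_lit 1) (nat_lit 0x1800801e000200440008114b83)))) 
(.lf (nat_lit 2754734485) (dlOf (nat_lit 1) (nat_lit 0x400180f4e81))))) (.nd (nat_lit 28) 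
(.nd (nat_lit 6) (.nd (nat_lit 29) 
(.lf (nat_lit 2348933141) (dlOf (nat_lit 4) (nat_lit 0x3015006eb00805700a8006005001b4b04010c02a015b01400128034000000c0120004000e0008030882))) 
(.lf (nat_lit 2885804053) (dlOf (nat_lit 1) (nat_lit 0x11800804a8002056e0008090503)))) 
(.lf (nat_lit 2348933205) (dlOf (nat_lit 4) (nat_lit 0xf405c0002902001c02e000600000009c1000900cc00c405c0001b0400160018031081)))) 
(.nd (nat_lit 6) (.nd (nat_lit 7) 
(.lf (nat_lit 1007804437) (dlOf (nat_lit 1) (nat_lit 0x10004000200087c0082))) 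
(.lf (nat_lit 2080498837) (dlOf (nat_lit 1) (nat_lit 0x400400020008092b82)))) 
(.lf (nat_lit 469890389) (dlOf (nat_lit 1) (nat_lit 0xdc0018009901))))))) (.nd (nat_lit 21) 
(.nd (nat_lit 26) (.nd (nat_lit 27) (.nd (nat_lit 6) (.nd (nat_lit 28) 
(.lf (nat_lit 3221872661) (dlOf (nat_lit 1) (nat_lit 0x8004000200181a0a82))) 
(.lf (nat_lit 1342824469) (dlOf (nat_lit 6) (nat_lit 0x8247000911e000308dc00042e6000fa08000a22f000211300028838001c3460000608001022f00041130002883800183460000508001222f000b11300030838000c3460000308001222f0006113000488380018346000010800d600080e0581)))) 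
(.lf (nat_lit 42590293) (dlOf (nat_lit 1) (nat_lit 0x20029260801)))) (.nd (nat_lit 29) 
(.nd (nat_lit 6) 
(.lf (nat_lit 134864917) (dlOf (nat_lit 2) (nat_lit 0x16810c01f4082011e03a000000380d0880))) 
(.lf (nat_lit 134864981) (dlOf (nat_lit 3) (nat_lit 0x4a0082019803d00ba01c005c80cc000521001680820002702000400280d0d81)))) 
(.nd (nat_lit 30) (.lf (nat_lit 2819219477) (dlOf (nat_lit 1) (nat_lit 0x4004000200181f0402))) 
(.lf (nat_lit 3892961301) (dlOf (nat_lit 2) (nat_lit 0x40278007e00800080080004002000200082b0a83)))))) 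
(.nd (nat_lit 29) (.nd (nat_lit 6) (.nd (nat_lit 27) 
(.lf (nat_lit 4362723349) (dlOf (nat_lit 1) (nat_lit 0x3800080e0a01))) (.nd (nat_lit 28) 
(.lf (nat_lit 201973781) (dlOf (nat_lit 2) (nat_lit 0x16810c01f4082011e03a000000380d0880))) 
(.lf (nat_lit 470409237) (dlOf (nat_lit 10) (nat_lit 0x911780070898004041800161b3000b484000b11780080898004441800241b3000b404001011780090898004841800241b3000b3840009123800708f0004446e0014506000c247000e11e000788dc001038a000a1c100080b880033c3000988bc002044c001e20c000c0d98000742000488bc002044c002420c00120d98000702000888bc004044c002020c00100d980006c2000908bc004444c002020c00100d9800068200168008000c00200c400080e0583))))) 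
(.lf (nat_lit 201973845) (dlOf (nat_lit 3) (nat_lit 0x4a0082019803d00ba01c005c80cc000521001680820002702000400280d0d81)))) 
(.nd (nat_lit 6) (.nd (nat_lit 28) 
(.lf (nat_lit 3960070165) (dlOf (nat_lit 1) (nat_lit 0x8004000200181a0a82))) 
(.lf (nat_lit 4228505621) (dlOf (nat_lit 1) (nat_lit 0x3800080e0a01)))) 
(.lf (nat_lit 3960070229) (dlOf (nat_lit 3) (nat_lit 0x1800a0001181000a028800300d400000080038004000200081a1982)))))) 
(.nd (nat_lit 6) (.nd (nat_lit 20) (.nd (nat_lit 24) 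
(.lf (nat_lit 1344921621) (dlOf (nat_lit 1) (nat_lit 0x5000200020008990482))) 
(.lf (nat_lit 19521557) (dlOf (nat_lit 5) (nat_lit 0x1256b00052b50000941000295ac0038ad4000848c000120300082b5800615a800046080098ad6004c56a00012460000881801080080194002002a00089b0483)))) 
(.nd (nat_lit 22) (.nd (nat_lit 26) 
(.lf (nat_lit 3493453845) (dlOf (nat_lit 1) (nat_lit 0x114002003c0008140a82))) 
(.lf (nat_lit 2755256341) (dlOf (nat_lit 1) (nat_lit 0x114002003c0008140a82)))) (.nd (nat_lit 7) 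
(.lf (nat_lit 58318869) (dlOf (nat_lit 1) (nat_lit 0x200297e0001))) 
(.lf (nat_lit 41542805) (dlOf (nat_lit 2) (nat_lit 0x53160008802000c0009242b81)))))) 
(.nd (nat_lit 8) (.nd (nat_lit 9) (.nd (nat_lit 10) 
(.lf (nat_lit 2754207829) (dlOf (nat_lit 1) (nat_lit 0x4002000200080c1982))) 
(.lf (nat_lit 49931349) (dlOf (nat_lit 1) (nat_lit 0x5600294c2901)))) 
(.lf (nat_lit 32107093) (dlOf (nat_lit 2) (nat_lit 0xcc11001453480009410013000800b000200500008ef5303)))) 
(.nd (nat_lit 10) (.lf (nat_lit 12181845) (dlOf (nat_lit 1) (nat_lit 0xc00186c0681))) 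
(.lf (nat_lit 40494421) (dlOf (nat_lit 1) (nat_lit 0x80080004002000200091f3383)))))))) 
(.nd (nat_lit 30) (.nd (nat_lit 6) (.nd (nat_lit 19) (.nd (nat_lit 7) (.nd (nat_lit 10) 
(.nd (nat_lit 21) (.nd (nat_lit 23) 
(.lf (nat_lit 474341397) (dlOf (nat_lit 1) (nat_lit 0x1a0019160001))) 
(.lf (nat_lit 29745173) (dlOf (nat_lit 1) (nat_lit 0x8008000400200020008e30003)))) 
(.lf (nat_lit 2482197) (dlOf (nat_lit 1) (nat_lit 0x620028160781)))) 
(.lf (nat_lit 38134805) (dlOf (nat_lit 1) (nat_lit 0x40009132881)))) (.nd (nat_lit 8) 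
(.nd (nat_lit 10) (.lf (nat_lit 3530901) (dlOf (nat_lit 2) (nat_lit 0x3046500005018200180))) 
(.lf (nat_lit 1009116309) (dlOf (nat_lit 4) (nat_lit 0x20e1000a03a000501cc001120c002c0e600088020010074000c039800218100020008004400200540009082b83)))) 
(.lf (nat_lit 57010581) (dlOf (nat_lit 1) (nat_lit 0x80029794e81))))) (.nd (nat_lit 21) 
(.nd (nat_lit 22) (.nd (nat_lit 27) 
(.lf (nat_lit 537780245) (dlOf (nat_lit 1) (nat_lit 0x7f8008034c002085e0008190503))) 
(.lf (nat_lit 2819481621) (dlOf (nat_lit 2) (nat_lit 0x2901b0000000802300080030002001000082b0383)))) 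
(.lf (nat_lit 21880853) (dlOf (nat_lit 1) (nat_lit 0x1420008a70481)))) (.nd (nat_lit 8) 
(.nd (nat_lit 9) (.lf (nat_lit 15589397) (dlOf (nat_lit 1) (nat_lit 0x12a0028810401))) 
(.lf (nat_lit 2754473493) (dlOf (nat_lit 4) (nat_lit 0x2117800188a00010216000610100019840003117800508a00014216000c1010001904001a0838000b008018000800c0002001600080f7083)))) 
(.lf (nat_lit 20832533) (dlOf (nat_lit 1) (nat_lit 0x800289e4a01)))))) (.nd (nat_lit 8) 
(.nd (nat_lit 19) (.nd (nat_lit 7) (.nd (nat_lit 9) 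
(.lf (nat_lit 6509944917) (dlOf (nat_lit 3) (nat_lit 0x700580003302003802c00018818171080))) 
(.lf (nat_lit 38136405) (dlOf (nat_lit 1) (nat_lit 0x20019135301)))) 
(.lf (nat_lit 604365013) (dlOf (nat_lit 1) (nat_lit 0x18008001c002001200081a0503)))) 
(.nd (nat_lit 22) (.lf (nat_lit 909397) (dlOf (nat_lit 1) (nat_lit 0x20028031081))) 
(.lf (nat_lit 13492309) (dlOf (nat_lit 2) (nat_lit 0x40000000e018730d80))))) (.nd (nat_lit 9) 
(.nd (nat_lit 11) (.lf (nat_lit 21357013) (dlOf (nat_lit 1) (nat_lit 0x1c0028a37101))) 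
(.lf (nat_lit 472771029) (dlOf (nat_lit 1) (nat_lit 0x400400020008b04e82)))) (.nd (nat_lit 10) 
(.lf (nat_lit 872801237) (dlOf (nat_lit 1) (nat_lit 0xf200280e2881))) (.nd (nat_lit 27) 
(.lf (nat_lit 2751850453) (dlOf (nat_lit 2) (nat_lit 0xc08300008018004500))) 
(.lf (nat_lit 2886068181) (dlOf (nat_lit 3) (nat_lit 0x8010c005c07c001c0000000a03003501f00004c080018008002c00200120008144503)))))))) 
(.nd (nat_lit 26) (.nd (nat_lit 6) (.nd (nat_lit 20) (.nd (nat_lit 22) (.nd (nat_lit 28) 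
(.lf (nat_lit 1074126869) (dlOf (nat_lit 1) (nat_lit 0x100080008002000600080c0a83))) 
(.lf (nat_lit 4026916885) (dlOf (nat_lit 1) (nat_lit 0xf00080014002005000080d0883)))) 
(.lf (nat_lit 1346756629) (dlOf (nat_lit 1) (nat_lit 0x60002000e0009000082)))) (.nd (nat_lit 7) 
(.nd (nat_lit 8) (.lf (nat_lit 1343610901) (dlOf (nat_lit 1) (nat_lit 0x400182b0401))) 
(.lf (nat_lit 3493716245) (dlOf (nat_lit 1) (nat_lit 0x200281b0481)))) 
(.lf (nat_lit 5772796309) (dlOf (nat_lit 1) (nat_lit 0x20008091001))))) (.nd (nat_lit 7) 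
(.nd (nat_lit 28) 
(.lf (nat_lit 5905965141) (dlOf (nat_lit 3) (nat_lit 0x700560003302003802b00018818171080))) 
(.lf (nat_lit 4026916949) (dlOf (nat_lit 6) (nat_lit 0x7501b003e00c801c00560034024000188400b701b006000c802640560003006014c034007f0180000941020080d00ff4060080202900330110000842004880d80000004000c004000800180d0d82)))) 
(.nd (nat_lit 9) (.lf (nat_lit 1476780245) (dlOf (nat_lit 1) (nat_lit 0x10002000800081a0502))) 
(.lf (nat_lit 1745218261) (dlOf (nat_lit 1) (nat_lit 0x2800280e5881)))))) (.nd (nat_lit 28) 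
(.nd (nat_lit 6) (.nd (nat_lit 29) 
(.lf (nat_lit 3288719381) (dlOf (nat_lit 1) (nat_lit 0xf00080014002005000080d0883))) 
(.lf (nat_lit 1678106645) (dlOf (nat_lit 1) (nat_lit 0x380028190481)))) 
(.lf (nat_lit 3288719445) (dlOf (nat_lit 6) (nat_lit 0x7501b003e00c801c00560034024000188400b701b006000c802640560003006014c034007f0180000941020080d00ff4060080202900330110000842004880d80000004000c004000800180d0d82)))) 
(.nd (nat_lit 19) (.nd (nat_lit 7) 
(.lf (nat_lit 1946542101) (dlOf (nat_lit 1) (nat_lit 0x100080008002000600080c0a83))) 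
(.lf (nat_lit 4096123285) (dlOf (nat_lit 1) (nat_lit 0x200180e1001)))) (.nd (nat_lit 31) 
(.lf (nat_lit 1410195477) (dlOf (nat_lit 1) (nat_lit 0x7f8008034c002085e0008190503))) 
(.lf (nat_lit 3557679125) (dlOf (nat_lit 2) (nat_lit 0x2901c0000000802300080030002001000082b0383))))))))) 
(.nd (nat_lit 18) (.nd (nat_lit 26) (.nd (nat_lit 29) (.nd (nat_lit 20) (.nd (nat_lit 28) 
(.nd (nat_lit 6) (.nd (nat_lit 19) 
(.lf (nat_lit 12705845) (dlOf (nat_lit 5) (nat_lit 0x463f001a31400059840000900c0030c7e00106280005308000596e40008e100030c7e0012610000b2dc8001181800618fc0020c500002622000a308000316e400070140040004000400186d0a82))) 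
(.nd (nat_lit 22) 
(.lf (nat_lit 134864949) (dlOf (nat_lit 2) (nat_lit 0x301880074408012800800cc002003a00080d0b83))) 
(.lf (nat_lit 21618741) (dlOf (nat_lit 9) (nat_lit 0x87680006bb3c0021d430033f030008ed00003f50c00cfa08000bb3c000bd430033e020009ed000027678002ba860067b06000bda00002ea18016541000476800023a8600594040015da00009ea180164c10005f680001fa860059204000c0028a51001))))) 
(.nd (nat_lit 27) 
(.lf (nat_lit 5368832373) (dlOf (nat_lit 1) (nat_lit 0x8008000400200020008035803))) 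
(.lf (nat_lit 5503050101) (dlOf (nat_lit 1) (nat_lit 0x8008000400200020008035803))))) 
(.nd (nat_lit 30) (.nd (nat_lit 27) 
(.lf (nat_lit 2416042037) (dlOf (nat_lit 1) (nat_lit 0x19000200420008020602))) 
(.lf (nat_lit 2550259765) (dlOf (nat_lit 1) (nat_lit 0x19000200420008020602)))) (.nd (nat_lit 7) 
(.lf (nat_lit 1342824501) (dlOf (nat_lit 2) (nat_lit 0x403e6001fc02000200080e0a81))) 
(.lf (nat_lit 1342305973) (dlOf (nat_lit 1) (nat_lit 0xc0020002000800a002)))))) (.nd (nat_lit 8) 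
(.nd (nat_lit 7) (.nd (nat_lit 19) 
(.lf (nat_lit 17948725) (dlOf (nat_lit 1) (nat_lit 0x400200020008900c02))) 
(.lf (nat_lit 3792949) (dlOf (nat_lit 1) (nat_lit 0x10008000800200040008220a83)))) 
(.lf (nat_lit 20048565) (dlOf (nat_lit 1) (nat_lit 0x600189d5701)))) (.nd (nat_lit 6) 
(.lf (nat_lit 20048693) (dlOf (nat_lit 1) (nat_lit 0x4002000200089d5c02))) 
(.lf (nat_lit 20049269) (dlOf (nat_lit 1) (nat_lit 0x600189d6b81)))))) (.nd (nat_lit 6) 
(.nd (nat_lit 8) (.nd (nat_lit 9) (.nd (nat_lit 19) 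
(.lf (nat_lit 4026654773) (dlOf (nat_lit 4) (nat_lit 0x2a01b0003a00801c80d8001c804004006c000d30200020018020601))) 
(.lf (nat_lit 537518133) (dlOf (nat_lit 3) (nat_lit 0x380b40005804002c05a0002b02000e00080a0a81)))) 
(.nd (nat_lit 10) (.lf (nat_lit 1744955957) (dlOf (nat_lit 1) (nat_lit 0x800400020018095182))) 
(.lf (nat_lit 1610737205) (dlOf (nat_lit 2) (nat_lit 0x1201c0000e018093780))))) (.nd (nat_lit 7) 
(.lf (nat_lit 671213877) (dlOf (nat_lit 2) (nat_lit 0x602800011018144c00))) 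
(.lf (nat_lit 1610736053) (dlOf (nat_lit 1) (nat_lit 0x400400020008091002))))) (.nd (nat_lit 7) 
(.nd (nat_lit 10) (.nd (nat_lit 19) 
(.lf (nat_lit 2952913013) (dlOf (nat_lit 1) (nat_lit 0x4b80080314002006a0008010283))) 
(.lf (nat_lit 537518197) (dlOf (nat_lit 1) (nat_lit 0x1600180a1881)))) 
(.lf (nat_lit 2818696309) (dlOf (nat_lit 2) (nat_lit 0xe0230000500800600080018002000400080d2a03)))) 
(.nd (nat_lit 8) (.lf (nat_lit 3087132405) (dlOf (nat_lit 1) (nat_lit 0x400200020008143b82))) 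
(.lf (nat_lit 805432821) (dlOf (nat_lit 1) (nat_lit 0x20018116f81))))))) (.nd (nat_lit 27) 
(.nd (nat_lit 11) (.nd (nat_lit 19) (.nd (nat_lit 31) 
(.lf (nat_lit 5435940917) (dlOf (nat_lit 1) (nat_lit 0x30008003400200180008040483))) 
(.lf (nat_lit 3288457269) (dlOf (nat_lit 4) (nat_lit 0x2a01b0003680801c80d8001ac04004006c000c50200020018020601)))) 
(.nd (nat_lit 6) (.nd (nat_lit 20) 
(.lf (nat_lit 1409933365) (dlOf (nat_lit 1) (nat_lit 0x700080230002005000080a0b03))) 
(.lf (nat_lit 4095336501) (dlOf (nat_lit 1) (nat_lit 0x260028090481)))) 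
(.lf (nat_lit 1409933429) (dlOf (nat_lit 1) (nat_lit 0x1600180a1881))))) (.nd (nat_lit 6) 
(.nd (nat_lit 8) (.lf (nat_lit 6509686325) (dlOf (nat_lit 1) (nat_lit 0x400200020008147182))) 
(.lf (nat_lit 1677850933) (dlOf (nat_lit 1) (nat_lit 0x200080020002000a000811ab83)))) 
(.nd (nat_lit 7) (.lf (nat_lit 5972813941) (dlOf (nat_lit 1) (nat_lit 0x400200020008144782))) 
(.nd (nat_lit 8) (.lf (nat_lit 1409412341) (dlOf (nat_lit 1) (nat_lit 0x400400020008006582))) 
(.lf (nat_lit 6509686261) (dlOf (nat_lit 1) (nat_lit 0x60018146f81))))))) (.nd (nat_lit 7) 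
(.nd (nat_lit 19) (.nd (nat_lit 6) (.nd (nat_lit 8) 
(.lf (nat_lit 5301723189) (dlOf (nat_lit 1) (nat_lit 0x30008003400200180008040483))) 
(.lf (nat_lit 738320693) (dlOf (nat_lit 1) (nat_lit 0x20028090b81)))) 
(.lf (nat_lit 3691110517) (dlOf (nat_lit 1) (nat_lit 0xc00200020008010282)))) (.nd (nat_lit 28) 
(.lf (nat_lit 201973813) (dlOf (nat_lit 2) (nat_lit 0x301880074408012800800cc002003a00080d0b83))) 
(.lf (nat_lit 470409269) (dlOf (nat_lit 2) (nat_lit 0x403e40021102000200080e0a81))))) 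
(.nd (nat_lit 6) (.nd (nat_lit 11) 
(.lf (nat_lit 201451189) (dlOf (nat_lit 1) (nat_lit 0x8008000400200020008003a83))) 
(.lf (nat_lit 5838597813) (dlOf (nat_lit 1) (nat_lit 0x180080024002000400080f7283)))) 
(.nd (nat_lit 9) (.lf (nat_lit 3959548149) (dlOf (nat_lit 1) (nat_lit 0x3c004000a0008114b82))) 
(.lf (nat_lit 201451253) (dlOf (nat_lit 2) (nat_lit 0x404100023818003b80)))))))) (.nd (nat_lit 21) 
(.nd (nat_lit 30) (.nd (nat_lit 27) (.nd (nat_lit 20) (.nd (nat_lit 26) (.nd (nat_lit 28) 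
(.lf (nat_lit 6442836021) (dlOf (nat_lit 1) (nat_lit 0x58008000c002001000081d0a83))) 
(.lf (nat_lit 4563787829) (dlOf (nat_lit 4) (nat_lit 0x50148001009c009cc080014052000c027002728200080148004009c009a8080018004009600080e1002)))) 
(.nd (nat_lit 6) (.lf (nat_lit 2756042805) (dlOf (nat_lit 1) (nat_lit 0x200181d0a81))) 
(.lf (nat_lit 2751849461) (dlOf (nat_lit 1) (nat_lit 0x20018002881))))) (.nd (nat_lit 6) 
(.nd (nat_lit 19) (.lf (nat_lit 30793781) (dlOf (nat_lit 1) (nat_lit 0x40028e50c01))) 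
(.lf (nat_lit 27123765) (dlOf (nat_lit 2) (nat_lit 0x1521b000094080008008001800200060008ca0783)))) 
(.lf (nat_lit 6152309) (dlOf (nat_lit 2) (nat_lit 0xe8fc001780200020018420481))))) 
(.nd (nat_lit 29) (.nd (nat_lit 6) 
(.lf (nat_lit 4698005557) (dlOf (nat_lit 4) (nat_lit 0x50148001009c014f6080014052000c0270053d0200080148004009c014d2080018004009600080e1002))) 
(.lf (nat_lit 134603125) (dlOf (nat_lit 1) (nat_lit 0x4a0018090781)))) (.nd (nat_lit 7) 
(.lf (nat_lit 738582581) (dlOf (nat_lit 2) (nat_lit 0xa2053004f01080091c1001500080024002003e00080b0483))) 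
(.lf (nat_lit 2818957493) (dlOf (nat_lit 1) (nat_lit 0x400200020008130302)))))) (.nd (nat_lit 27) 
(.nd (nat_lit 28) (.nd (nat_lit 29) 
(.lf (nat_lit 1074126901) (dlOf (nat_lit 1) (nat_lit 0x200180c1101))) 
(.lf (nat_lit 1610997813) (dlOf (nat_lit 2) (nat_lit 0xa2053004f01080091c1001500080024002003e00080b0483)))) 
(.nd (nat_lit 6) (.nd (nat_lit 22) 
(.lf (nat_lit 1946542133) (dlOf (nat_lit 1) (nat_lit 0x200180c1101))) 
(.lf (nat_lit 3494240309) (dlOf (nat_lit 1) (nat_lit 0x200181d0a81)))) 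
(.lf (nat_lit 5637529717) (dlOf (nat_lit 2) (nat_lit 0x20025001200c000814100110008001c00200100008100d83))))) 
(.nd (nat_lit 6) (.nd (nat_lit 26) 
(.lf (nat_lit 3892699189) (dlOf (nat_lit 4) (nat_lit 0xd408e00d003800015820081023800381180044088011603800012840061023802a0118000440800cc004004e00081d0782))) 
(.lf (nat_lit 5838856245) (dlOf (nat_lit 1) (nat_lit 0x58008000c002001000081d0a83)))) 
(.lf (nat_lit 1476780149) (dlOf (nat_lit 18) (nat_lit 0x60017001700b00128000003c40c00c402e004a0100049000000780180148060012802e005601600550088004801c000800c006200400420000007304001a806001a402e0094016005a00880258040004400e0032006003b002002800080120000001ca140004020000900b8006ec10022805c0037204006c02e000a007000da02005d00b8002801c003640800e402e000a007000d082002e00b8001001c00240000019e060080017002100380010000003380c00ac02e000e007000c882004600b8005f00803b005c008400e0017804001e017000bb01004700b8005d408014005c002e604015c004015600081a0482)))))) 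
(.nd (nat_lit 8) (.nd (nat_lit 20) (.nd (nat_lit 28) (.nd (nat_lit 26) 
(.lf (nat_lit 2482229) (dlOf (nat_lit 1) (nat_lit 0x40018160a81))) 
(.lf (nat_lit 2753945653) (dlOf (nat_lit 3) (nat_lit 0x100224000580400201120002b02000400180a0a81)))) 
(.nd (nat_lit 10) 
(.lf (nat_lit 3492143157) (dlOf (nat_lit 3) (nat_lit 0x230a98000d008002855000008040010002000a00080a0b02))) 
(.lf (nat_lit 1345184821) (dlOf (nat_lit 1) (nat_lit 0x400400020008b02882))))) (.nd (nat_lit 6) 
(.nd (nat_lit 7) (.lf (nat_lit 12444213) (dlOf (nat_lit 1) (nat_lit 0x4c00186c0f81))) 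
(.lf (nat_lit 2754997941) (dlOf (nat_lit 1) (nat_lit 0x10008000c002000600080f7283)))) 
(.lf (nat_lit 28696693) (dlOf (nat_lit 1) (nat_lit 0xc00400040008da0482))))) (.nd (nat_lit 6) 
(.nd (nat_lit 7) (.lf (nat_lit 8254773) (dlOf (nat_lit 1) (nat_lit 0x400200020008519902))) 
(.nd (nat_lit 10) (.lf (nat_lit 8249781) (dlOf (nat_lit 1) (nat_lit 0x400200020008511002))) 
(.lf (nat_lit 8250805) (dlOf (nat_lit 1) (nat_lit 0x400200020008513602))))) (.nd (nat_lit 7) 
(.lf (nat_lit 1345186165) (dlOf (nat_lit 1) (nat_lit 0x400200020008b04e82))) 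
(.lf (nat_lit 12444149) (dlOf (nat_lit 1) (nat_lit 0xc00186c0d81)))))))))))

end

end Pool.Agent.Lib.MP_5854e1_co.Cz

namespace Pool.Agent.Lib.MP_5854e1_co.Cz

noncomputable section

noncomputable def tz110 : DT := (.nd (nat_lit 5) (.nd (nat_lit 16) (.nd (nat_lit 18) 
(.nd (nat_lit 6) (.nd (nat_lit 4) (.nd (nat_lit 10) (.nd (nat_lit 19) (.nd (nat_lit 7) 
(.nd (nat_lit 20) (.nd (nat_lit 8) 
(.lf (nat_lit 25190413) (dlOf (nat_lit 1) (nat_lit 0x400400020018bf0482))) 
(.lf (nat_lit 5301627661) (dlOf (nat_lit 9) (nat_lit 0x80c4000405e000201e00019030002018800080c00006208000c0620003002000603100030180000bc1000080c40005a04000c0620002c0200020310000c010002018800000080058008001000200080008005b03)))) 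
(.nd (nat_lit 22) 
(.lf (nat_lit 2752536589) (dlOf (nat_lit 1) (nat_lit 0x840008000400200e60008020483))) 
(.lf (nat_lit 47210509) (dlOf (nat_lit 1) (nat_lit 0x18000093b0001))))) (.nd (nat_lit 26) 
(.lf (nat_lit 6442477965) (dlOf (nat_lit 1) (nat_lit 0x20028004e81))) (.nd (nat_lit 27) 
(.lf (nat_lit 5704280461) (dlOf (nat_lit 1) (nat_lit 0x400400020008004e82))) 
(.lf (nat_lit 3959449997) (dlOf (nat_lit 1) (nat_lit 0x4004016e0008004e82)))))) (.nd (nat_lit 21) 
(.nd (nat_lit 20) (.nd (nat_lit 7) 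
(.lf (nat_lit 1342726669) (dlOf (nat_lit 2) (nat_lit 0x18a154000000180c0d80))) 
(.lf (nat_lit 537419917) (dlOf (nat_lit 2) (nat_lit 0x5803c000000200080028090101)))) 
(.nd (nat_lit 23) (.nd (nat_lit 26) 
(.lf (nat_lit 3491258381) (dlOf (nat_lit 2) (nat_lit 0xa1ed0000a018080100))) 
(.lf (nat_lit 2753060877) (dlOf (nat_lit 2) (nat_lit 0xa1ff00014018080100)))) 
(.lf (nat_lit 9986061) (dlOf (nat_lit 3) (nat_lit 0xf48a007d0020009a450003d20801f3c1000b80080004002003a00085a0a03))))) 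
(.nd (nat_lit 22) (.nd (nat_lit 23) 
(.lf (nat_lit 19423245) (dlOf (nat_lit 1) (nat_lit 0x40008015c00200d200089a0a03))) 
(.lf (nat_lit 11034637) (dlOf (nat_lit 1) (nat_lit 0x400400020008660102)))) (.nd (nat_lit 7) 
(.nd (nat_lit 9) (.lf (nat_lit 48783373) (dlOf (nat_lit 1) (nat_lit 0x8008000c00200020009430183))) 
(.lf (nat_lit 58221069) (dlOf (nat_lit 2) (nat_lit 0x2eaf9000957c0029a41000c80080098002002600097c7b03)))) 
(.lf (nat_lit 23617677) (dlOf (nat_lit 2) (nat_lit 0x3da50001ad1a00036870006b41800357f00007614003000400040008b80102))))))) 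
(.nd (nat_lit 9) (.nd (nat_lit 11) (.nd (nat_lit 8) (.nd (nat_lit 7) 
(.lf (nat_lit 36725773) (dlOf (nat_lit 1) (nat_lit 0x400200020009072882))) 
(.lf (nat_lit 473457805) (dlOf (nat_lit 1) (nat_lit 0x400200020008f52b02)))) (.nd (nat_lit 28) 
(.lf (nat_lit 3355473165) (dlOf (nat_lit 1) (nat_lit 0x3800200260008009682))) 
(.lf (nat_lit 4160779533) (dlOf (nat_lit 1) (nat_lit 0x8004000a0008009682))))) (.nd (nat_lit 7) 
(.nd (nat_lit 26) 
(.lf (nat_lit 402680845) (dlOf (nat_lit 2) (nat_lit 0x80180009404000400400080018005f82))) 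
(.nd (nat_lit 28) (.lf (nat_lit 1275096077) (dlOf (nat_lit 1) (nat_lit 0x400200020008005f82))) 
(.lf (nat_lit 2080402445) (dlOf (nat_lit 2) (nat_lit 0x601f00012018005f80))))) (.nd (nat_lit 8) 
(.lf (nat_lit 134249613) (dlOf (nat_lit 1) (nat_lit 0x40040002000800c202))) 
(.lf (nat_lit 4294995341) (dlOf (nat_lit 2) (nat_lit 0x3100100002c04000800400360018006c82)))))) 
(.nd (nat_lit 7) (.nd (nat_lit 27) (.nd (nat_lit 19) 
(.lf (nat_lit 28173) (dlOf (nat_lit 1) (nat_lit 0xe0028007081))) 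
(.lf (nat_lit 552461) (dlOf (nat_lit 1) (nat_lit 0x27000800c800200a80008007083)))) 
(.nd (nat_lit 26) 
(.lf (nat_lit 3087035917) (dlOf (nat_lit 2) (nat_lit 0x10000000660400c0002003a0008007082))) 
(.lf (nat_lit 3959451149) (dlOf (nat_lit 1) (nat_lit 0x70008002c00200100008007083))))) 
(.nd (nat_lit 26) (.nd (nat_lit 27) 
(.lf (nat_lit 2684384909) (dlOf (nat_lit 3) (nat_lit 0x400d0003b01000a006800000080040008005c00200040008009e03))) 
(.lf (nat_lit 2281731725) (dlOf (nat_lit 1) (nat_lit 0x8008000800200120008009e03)))) 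
(.nd (nat_lit 8) 
(.lf (nat_lit 6643807885) (dlOf (nat_lit 2) (nat_lit 0x80d400000040028004000e0008009e02))) 
(.lf (nat_lit 604008333) (dlOf (nat_lit 1) (nat_lit 0x400200020008007782)))))))) (.nd (nat_lit 19) 
(.nd (nat_lit 7) (.nd (nat_lit 8) (.nd (nat_lit 20) (.nd (nat_lit 9) 
(.lf (nat_lit 23093277) (dlOf (nat_lit 4) (nat_lit 0x3ab70004620400ac0000020e020060b04002057d8007cc100078008002c002003c0008b50483))) 
(.lf (nat_lit 67139101) (dlOf (nat_lit 1) (nat_lit 0x8008000400200020008009c03)))) 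
(.nd (nat_lit 21) 
(.lf (nat_lit 13656093) (dlOf (nat_lit 2) (nat_lit 0x6a1e4c0254e2a0060686000d1838740480))) 
(.lf (nat_lit 28336157) (dlOf (nat_lit 2) (nat_lit 0xa6c20004000000bea08005c00200220008d80682))))) 
(.nd (nat_lit 26) (.nd (nat_lit 28) 
(.lf (nat_lit 6039827741) (dlOf (nat_lit 3) (nat_lit 0x1f80d400440680006d040080035000601a000000100028008003000200180008009703))) 
(.lf (nat_lit 4160779549) (dlOf (nat_lit 4) (nat_lit 0x360140003301000c00a00019408001805000000040014004004c0008009702)))) 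
(.nd (nat_lit 10) (.lf (nat_lit 604008733) (dlOf (nat_lit 1) (nat_lit 0x400200020008008082))) 
(.lf (nat_lit 3422582045) (dlOf (nat_lit 8) (nat_lit 0xa003400640180007604001400d0003a81000a0068001c4080048034000e004001c01a0006202000e00d0003081000600680000008008000800d000200060008009703)))))) 
(.nd (nat_lit 8) (.nd (nat_lit 10) (.nd (nat_lit 9) 
(.lf (nat_lit 47210653) (dlOf (nat_lit 1) (nat_lit 0x8004001a00093b1282))) 
(.lf (nat_lit 5033192093) (dlOf (nat_lit 1) (nat_lit 0x8008000400200020008005583)))) 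
(.nd (nat_lit 12) (.nd (nat_lit 20) 
(.lf (nat_lit 8414365) (dlOf (nat_lit 1) (nat_lit 0x60008512b81))) 
(.lf (nat_lit 472933533) (dlOf (nat_lit 1) (nat_lit 0x760018b52b81)))) 
(.lf (nat_lit 3355473053) (dlOf (nat_lit 1) (nat_lit 0x20018009501))))) (.nd (nat_lit 9) 
(.lf (nat_lit 134249885) (dlOf (nat_lit 2) (nat_lit 0x23007600a8036004e00b8001e418008000800440020008000800ca83))) 
(.nd (nat_lit 10) 
(.lf (nat_lit 134249373) (dlOf (nat_lit 1) (nat_lit 0x8008001c0020002000800bc83))) 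
(.lf (nat_lit 1073768349) (dlOf (nat_lit 1) (nat_lit 0x800200020008004282))))))) (.nd (nat_lit 21) 
(.nd (nat_lit 26) (.nd (nat_lit 7) (.nd (nat_lit 29) 
(.lf (nat_lit 134766621) (dlOf (nat_lit 1) (nat_lit 0x20008002c002000a00080b0983))) 
(.lf (nat_lit 2819121181) (dlOf (nat_lit 2) (nat_lit 0x3301b0000d40800880080020002003e00081a0583)))) 
(.lf (nat_lit 5772960925) (dlOf (nat_lit 1) (nat_lit 0x1800400020018092b82)))) (.nd (nat_lit 8) 
(.nd (nat_lit 27) 
(.lf (nat_lit 4362625053) (dlOf (nat_lit 1) (nat_lit 0x1c0008010c002001800080b0a03))) 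
(.lf (nat_lit 201875485) (dlOf (nat_lit 1) (nat_lit 0x20008002c002000a00080b0983)))) 
(.lf (nat_lit 604528925) (dlOf (nat_lit 4) (nat_lit 0x3021800280f4000c068000a02a000401000051028002010c000407a00020340003015000100800014028000200c0001004800100000027e240014028000200c00010048002800000270100008004000200082f8002))))) 
(.nd (nat_lit 20) (.nd (nat_lit 7) (.nd (nat_lit 23) 
(.lf (nat_lit 2646045) (dlOf (nat_lit 1) (nat_lit 0x28008001000200140008180583))) 
(.lf (nat_lit 11034653) (dlOf (nat_lit 1) (nat_lit 0x20028660481)))) 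
(.lf (nat_lit 1344824477) (dlOf (nat_lit 2) (nat_lit 0xc29a000607c00044028982b80)))) 
(.nd (nat_lit 7) (.nd (nat_lit 26) 
(.lf (nat_lit 3493355549) (dlOf (nat_lit 4) (nat_lit 0x8202001ed02000e21a0006109800404440014202001e808000e21a000310980060444003cc0c008000400020018120902))) 
(.lf (nat_lit 2755158045) (dlOf (nat_lit 4) (nat_lit 0x8202001ff02000e22f00061140004042c0014202001fa08000e22f00031140006042c003f00c008000400020018120902)))) 
(.lf (nat_lit 37251485) (dlOf (nat_lit 1) (nat_lit 0x4002001000090d4e82)))))))) (.nd (nat_lit 26) 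
(.nd (nat_lit 9) (.nd (nat_lit 28) (.nd (nat_lit 8) (.nd (nat_lit 7) (.nd (nat_lit 21) 
(.lf (nat_lit 43540557) (dlOf (nat_lit 1) (nat_lit 0x200292a0001))) 
(.lf (nat_lit 54026317) (dlOf (nat_lit 1) (nat_lit 0x4002000600095f0002)))) 
(.lf (nat_lit 134249677) (dlOf (nat_lit 1) (nat_lit 0x2002800c201)))) (.nd (nat_lit 4) 
(.nd (nat_lit 20) (.lf (nat_lit 2122061) (dlOf (nat_lit 1) (nat_lit 0x180018150601))) 
(.lf (nat_lit 1073485) (dlOf (nat_lit 1) (nat_lit 0x400200020008068902)))) 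
(.lf (nat_lit 33057117) (dlOf (nat_lit 1) (nat_lit 0x1a0028f54e81))))) (.nd (nat_lit 12) 
(.nd (nat_lit 7) (.nd (nat_lit 20) 
(.lf (nat_lit 3494404173) (dlOf (nat_lit 1) (nat_lit 0x8008000800200020008220d03))) 
(.lf (nat_lit 3493355597) (dlOf (nat_lit 2) (nat_lit 0x200000005818120f80)))) 
(.lf (nat_lit 4563427789) (dlOf (nat_lit 1) (nat_lit 0xa0018001101)))) (.nd (nat_lit 4) 
(.lf (nat_lit 1476423885) (dlOf (nat_lit 1) (nat_lit 0x8008000400200020008008003))) 
(.nd (nat_lit 8) 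
(.lf (nat_lit 2952821853) (dlOf (nat_lit 16) (nat_lit 0x1b804c000be0403880260005e0201580130002e8100ba00980017008035804c000aa04057c03400020180098009800150180b00068000803001a2013000298300a50098001440804e804c000a004057803400c0013000228200340098000fc0803b804c000780400e40380002e02001601c0001681000200e00009c0804b0008016c0020006000800c003))) 
(.lf (nat_lit 2952820061) (dlOf (nat_lit 2) (nat_lit 0x6014004c4818009900))))))) (.nd (nat_lit 7) 
(.nd (nat_lit 8) (.nd (nat_lit 19) (.nd (nat_lit 10) 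
(.lf (nat_lit 36727373) (dlOf (nat_lit 1) (nat_lit 0x20019075281))) 
(.lf (nat_lit 1342205517) (dlOf (nat_lit 2) (nat_lit 0xae2470006f818007180)))) (.nd (nat_lit 4) 
(.lf (nat_lit 54028877) (dlOf (nat_lit 1) (nat_lit 0x80080004002000200095f5283))) 
(.lf (nat_lit 44591709) (dlOf (nat_lit 1) (nat_lit 0x220029325301))))) (.nd (nat_lit 11) 
(.nd (nat_lit 27) (.lf (nat_lit 1342207821) (dlOf (nat_lit 1) (nat_lit 0x2c002800a201))) 
(.lf (nat_lit 1476425549) (dlOf (nat_lit 1) (nat_lit 0x40020002000800a202)))) (.nd (nat_lit 4) 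
(.lf (nat_lit 19954509) (dlOf (nat_lit 2) (nat_lit 0x3b3f0004095400aa4080010002000200089dbc82))) 
(.lf (nat_lit 2952818525) (dlOf (nat_lit 1) (nat_lit 0x18000200020008007782)))))) (.nd (nat_lit 11) 
(.nd (nat_lit 8) (.nd (nat_lit 27) 
(.lf (nat_lit 1342206669) (dlOf (nat_lit 1) (nat_lit 0x20018008c81))) 
(.lf (nat_lit 1476424397) (dlOf (nat_lit 1) (nat_lit 0x400200020008008c82)))) 
(.lf (nat_lit 536896461) (dlOf (nat_lit 1) (nat_lit 0x3c00400060008002882)))) (.nd (nat_lit 8) 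
(.nd (nat_lit 28) 
(.lf (nat_lit 4294995661) (dlOf (nat_lit 1) (nat_lit 0x8008000400200020008007303))) 
(.lf (nat_lit 1879076557) (dlOf (nat_lit 1) (nat_lit 0x8008000400200020008007303)))) 
(.lf (nat_lit 6710913997) (dlOf (nat_lit 2) (nat_lit 0x1a016000300a80028014000320c002800400140008005d82))))))) 
(.nd (nat_lit 7) (.nd (nat_lit 4) (.nd (nat_lit 19) (.nd (nat_lit 8) (.nd (nat_lit 10) 
(.lf (nat_lit 3556794445) (dlOf (nat_lit 1) (nat_lit 0x51a0008000001))) 
(.lf (nat_lit 2751489101) (dlOf (nat_lit 1) (nat_lit 0x20028002881)))) 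
(.lf (nat_lit 1409317709) (dlOf (nat_lit 3) (nat_lit 0x18029002b70080688148015b40400240020008000800bc82)))) 
(.nd (nat_lit 20) (.nd (nat_lit 22) (.nd (nat_lit 27) 
(.lf (nat_lit 67657805) (dlOf (nat_lit 1) (nat_lit 0x200282d0181))) 
(.lf (nat_lit 3154665549) (dlOf (nat_lit 4) (nat_lit 0xe029801f0138004409200500370035010001f0068008c032007c0130004488000501b0003007c004803000240090004404002901b80148080008403e0052019001c005000218280040008002000200020008310183)))) 
(.lf (nat_lit 2756206669) (dlOf (nat_lit 1) (nat_lit 0x8008000800200020008220d03)))) 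
(.lf (nat_lit 2755158093) (dlOf (nat_lit 2) (nat_lit 0x200000005818120f80))))) (.nd (nat_lit 8) 
(.nd (nat_lit 11) (.lf (nat_lit 472933469) (dlOf (nat_lit 1) (nat_lit 0x20018b52901))) 
(.nd (nat_lit 27) 
(.lf (nat_lit 604011613) (dlOf (nat_lit 9) (nat_lit 0x2400e00200000002f02000800380008000000ba08001800e00220000002e02000100b0003801c007c0000005106000a01000060038003000c0018004000a001001c000000140300020058000400e00045040006007000200100050038000f408005800801040020036000800c003))) 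
(.lf (nat_lit 469793885) (dlOf (nat_lit 9) (nat_lit 0x40140003381000c04e800164080070274000411c0004e04002009d00020470001341001082740008c04003013a001408e0002282000204e800100080070274000811c0003d040004001800c001))))) 
(.nd (nat_lit 10) (.lf (nat_lit 1006664029) (dlOf (nat_lit 1) (nat_lit 0x40020002000800ab82))) 
(.nd (nat_lit 27) (.lf (nat_lit 3288366429) (dlOf (nat_lit 1) (nat_lit 0x8001800c901))) 
(.lf (nat_lit 4227890525) (dlOf (nat_lit 1) (nat_lit 0x4800800240020012000800c903))))))) 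
(.nd (nat_lit 8) (.nd (nat_lit 11) (.nd (nat_lit 9) (.nd (nat_lit 19) 
(.lf (nat_lit 2755682509) (dlOf (nat_lit 2) (nat_lit 0x30211000e28181b0480))) 
(.lf (nat_lit 67657933) (dlOf (nat_lit 1) (nat_lit 0x3cc00200c600082d0482)))) (.nd (nat_lit 4) 
(.lf (nat_lit 3691016909) (dlOf (nat_lit 1) (nat_lit 0x20018008c81))) 
(.lf (nat_lit 469791453) (dlOf (nat_lit 1) (nat_lit 0x20018008c81))))) (.nd (nat_lit 4) 
(.nd (nat_lit 10) (.lf (nat_lit 67139789) (dlOf (nat_lit 1) (nat_lit 0x40040002000800a882))) 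
(.lf (nat_lit 1409313997) (dlOf (nat_lit 2) (nat_lit 0x3c062000300200040018006401)))) 
(.lf (nat_lit 469788893) (dlOf (nat_lit 1) (nat_lit 0x60004001a0008004a82))))) (.nd (nat_lit 4) 
(.nd (nat_lit 9) (.nd (nat_lit 10) 
(.lf (nat_lit 3154141645) (dlOf (nat_lit 3) (nat_lit 0x10238000f008001811c0007404000800400280018001102))) 
(.lf (nat_lit 1409314253) (dlOf (nat_lit 1) (nat_lit 0x400200020008006d02)))) (.nd (nat_lit 11) 
(.lf (nat_lit 2752013261) (dlOf (nat_lit 1) (nat_lit 0x20018002881))) 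
(.lf (nat_lit 4764756941) (dlOf (nat_lit 1) (nat_lit 0x3000400020008005d82))))) (.nd (nat_lit 9) 
(.lf (nat_lit 201357789) (dlOf (nat_lit 1) (nat_lit 0x10000800b281))) (.nd (nat_lit 11) 
(.lf (nat_lit 68707293) (dlOf (nat_lit 1) (nat_lit 0x80018722881))) 
(.lf (nat_lit 5301627869) (dlOf (nat_lit 1) (nat_lit 0x800400020008005e02)))))))))) 
(.nd (nat_lit 4) (.nd (nat_lit 28) (.nd (nat_lit 6) (.nd (nat_lit 20) (.nd (nat_lit 26) 
(.nd (nat_lit 9) (.nd (nat_lit 10) 
(.lf (nat_lit 2684641293) (dlOf (nat_lit 5) (nat_lit 0x9080cc041c058000430403d403301250160001081008d80cc0510058000410407c60320001d818100100))) 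
(.lf (nat_lit 46427149) (dlOf (nat_lit 2) (nat_lit 0x2070700015808005000800ec00200100009385f83)))) 
(.lf (nat_lit 537685517) (dlOf (nat_lit 1) (nat_lit 0xe00080f7081)))) (.nd (nat_lit 29) 
(.lf (nat_lit 4362362893) (dlOf (nat_lit 5) (nat_lit 0x804600386010034023001c1008006011800df80400080a400760460037b028030a00))) 
(.nd (nat_lit 31) 
(.lf (nat_lit 1678008333) (dlOf (nat_lit 1) (nat_lit 0x18008002000200080008130483))) 
(.lf (nat_lit 3825491981) (dlOf (nat_lit 5) (nat_lit 0x18002c000fa0400f00160007c02009800b0003a8100560058001cc0802480080084002000e0008170483)))))) 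
(.nd (nat_lit 7) (.nd (nat_lit 22) (.nd (nat_lit 9) 
(.lf (nat_lit 3432461) (dlOf (nat_lit 1) (nat_lit 0x200018200001))) 
(.lf (nat_lit 20737549) (dlOf (nat_lit 1) (nat_lit 0x1c00089d7081)))) (.nd (nat_lit 21) 
(.lf (nat_lit 30695437) (dlOf (nat_lit 2) (nat_lit 0x9646800fe204006c00400540008e40782))) 
(.lf (nat_lit 24403981) (dlOf (nat_lit 1) (nat_lit 0x100080008002000c0008b90683))))) 
(.nd (nat_lit 8) (.nd (nat_lit 19) 
(.lf (nat_lit 11821197) (dlOf (nat_lit 2) (nat_lit 0x1a302803710100007608000c002000600086c0102))) 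
(.lf (nat_lit 2753323149) (dlOf (nat_lit 18) (nat_lit 0x50044000a0000000b608010011200ae0880002d02003804400013808003022400041100004c0401120880002501004c0440000f008026865c0184112018c0880001d8301a3044814702200006c08000c2e40003102001e08800012010017044800b82200004208004c1100001e0200680880000c0100d0044809502200002e0802e8112018a0880000982002b044800020080028658003031c003617a000b0b8001402c4004813e00a0089000303a800880480050000000001400140028090101)))) 
(.lf (nat_lit 20213133) (dlOf (nat_lit 3) (nat_lit 0x44587800829f8000320800194da0000a02002000289d6c81)))))) 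
(.nd (nat_lit 8) (.nd (nat_lit 19) (.nd (nat_lit 30) (.nd (nat_lit 7) (.nd (nat_lit 9) 
(.lf (nat_lit 537157709) (dlOf (nat_lit 2) (nat_lit 0xbf02a0000600800800080118002012c0008030f83))) 
(.lf (nat_lit 53766733) (dlOf (nat_lit 1) (nat_lit 0xc004000200195f5282)))) 
(.lf (nat_lit 4481229) (dlOf (nat_lit 1) (nat_lit 0xc00400060008290482)))) (.nd (nat_lit 27) 
(.lf (nat_lit 5368995917) (dlOf (nat_lit 1) (nat_lit 0x200280b0601))) 
(.lf (nat_lit 5503213645) (dlOf (nat_lit 1) (nat_lit 0x200280b0601))))) (.nd (nat_lit 7) 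
(.nd (nat_lit 20) (.lf (nat_lit 9199693) (dlOf (nat_lit 1) (nat_lit 0x8008000400200020008530603))) 
(.lf (nat_lit 33316941) (dlOf (nat_lit 1) (nat_lit 0x400400020008f50002)))) 
(.lf (nat_lit 4362887373) (dlOf (nat_lit 2) (nat_lit 0xd00640070028001238281a0480))))) 
(.nd (nat_lit 11) (.nd (nat_lit 20) 
(.lf (nat_lit 6442737997) (dlOf (nat_lit 4) (nat_lit 0x10064000530200080320002901000d01780011c0800c80080010002000200081b0603))) 
(.lf (nat_lit 11821389) (dlOf (nat_lit 1) (nat_lit 0x80080014002000200086c0603)))) (.nd (nat_lit 7) 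
(.nd (nat_lit 9) 
(.lf (nat_lit 2751752525) (dlOf (nat_lit 4) (nat_lit 0x14140000170200380a00000a81000a0508000140801000080008002001a0008004d83))) 
(.lf (nat_lit 20212557) (dlOf (nat_lit 1) (nat_lit 0x4002000200089d5c02)))) 
(.lf (nat_lit 1141139917) (dlOf (nat_lit 1) (nat_lit 0xa8002001a0008124e82))))))) (.nd (nat_lit 26) 
(.nd (nat_lit 27) (.nd (nat_lit 6) (.nd (nat_lit 7) (.nd (nat_lit 20) (.nd (nat_lit 29) 
(.lf (nat_lit 1342464013) (dlOf (nat_lit 11) (nat_lit 0x843a200681cf00710e68004871401942e6001600a00441d100060e780040714002be0c0e103a207341cf03b60e2800560180128744003c39e00521c5000ab8301af0e880e4873c074439a031c1c500760e080ec85cc002ac1800603a2008a1cd0006c82001e0e880018714001ae080e003a2077a1c5000678200580e8801087140019c08064c3a2014c1cf01c50e680b887140308382014e1bb00610b98003343800e000800bc00200020008030483))) 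
(.lf (nat_lit 805593101) (dlOf (nat_lit 1) (nat_lit 0x8008001400200020008130483)))) 
(.lf (nat_lit 1343512589) (dlOf (nat_lit 3) (nat_lit 0x208e0003c0100050470000000801400080218002002a0008280183)))) 
(.nd (nat_lit 8) 
(.lf (nat_lit 3491520653) (dlOf (nat_lit 18) (nat_lit 0x40046002b822c000ba08014011600280000002d02003804580013c08003023000041160004c04011208b0002501004c0458000f008026863c0184118018c08b0001d8301a30460147022c0006c08000c2e40003102002e08c001704580008c10007822c0004404004c1160001e02006808b0000c0100d00460095022c0002e0802e8118018a08b0000982002b046000020080060668001431c003617b000b0b8001402fc004813e00a008c000303a800880480050000000001400140028090101))) 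
(.lf (nat_lit 3490474381) (dlOf (nat_lit 1) (nat_lit 0x20018004e81))))) (.nd (nat_lit 9) 
(.nd (nat_lit 30) (.lf (nat_lit 268722253) (dlOf (nat_lit 1) (nat_lit 0x20008100601))) 
(.lf (nat_lit 1342464077) (dlOf (nat_lit 4) (nat_lit 0x141c700010de80002c10009071c000c37a000090400461c700190de8000001000f00080030002001c0008030f83)))) 
(.lf (nat_lit 1881434701) (dlOf (nat_lit 1) (nat_lit 0xe0028f05281))))) (.nd (nat_lit 7) 
(.nd (nat_lit 10) (.nd (nat_lit 31) 
(.lf (nat_lit 939810829) (dlOf (nat_lit 1) (nat_lit 0x8800400260008180482))) 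
(.lf (nat_lit 3087294477) (dlOf (nat_lit 5) (nat_lit 0x18002c000fa0400f00160007c02009800b0003a8100560058001cc0802480080084002000e0008170483)))) 
(.lf (nat_lit 6308523021) (dlOf (nat_lit 1) (nat_lit 0x180080014002000600080d5f83)))) 
(.nd (nat_lit 6) (.lf (nat_lit 3624168845) (dlOf (nat_lit 2) (nat_lit 0x200000005818146c80))) 
(.nd (nat_lit 8) 
(.lf (nat_lit 4697907405) (dlOf (nat_lit 3) (nat_lit 0x80c4000640402a0062004401c000168280c1800))) 
(.lf (nat_lit 5772173773) (dlOf (nat_lit 1) (nat_lit 0x44002007c0008091102))))))) (.nd (nat_lit 6) 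
(.nd (nat_lit 31) (.nd (nat_lit 7) (.nd (nat_lit 20) 
(.lf (nat_lit 470048781) (dlOf (nat_lit 11) (nat_lit 0x843a200681cf00710e68004871401942e2001600a00441d100060e780040714002be0c0e103a207341cf03b60e2800560180128744003c39e00521c5000ab8301af0e880e4873c074439a031c1c500760e080ec85c4002ac1800603a2008a1cd0006c82001e0e880018714001ae080e003a2077a1c5000678200580e8801087140019c08064c3a2014c1cf01c50e680b887140308382014e1bb00610b88003343800e000800bc00200020008030483))) 
(.lf (nat_lit 471097357) (dlOf (nat_lit 1) (nat_lit 0x1c0008270181)))) 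
(.lf (nat_lit 473196941) (dlOf (nat_lit 1) (nat_lit 0x40018d74e81)))) (.nd (nat_lit 19) 
(.nd (nat_lit 30) (.lf (nat_lit 3154403341) (dlOf (nat_lit 1) (nat_lit 0x4004000e0008160002))) 
(.lf (nat_lit 4228145165) (dlOf (nat_lit 5) (nat_lit 0x803f0065c81003401f8032c40800600fc0194a040008096007603f0064f828030a00)))) 
(.lf (nat_lit 3557580813) (dlOf (nat_lit 3) (nat_lit 0x1408c000a01c000b882000b010000000080038008005800200020008270183))))) 
(.nd (nat_lit 7) (.nd (nat_lit 8) (.nd (nat_lit 27) 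
(.lf (nat_lit 1409572941) (dlOf (nat_lit 2) (nat_lit 0xbf02a0000600800800080118002012c0008030f83))) 
(.lf (nat_lit 470048845) (dlOf (nat_lit 4) (nat_lit 0x141c700010de80002c10009071c000c37a000090400461c700190de8000001000f00080030002001c0008030f83)))) 
(.lf (nat_lit 5838758221) (dlOf (nat_lit 4) (nat_lit 0x100640004c0200080320002581000d0178001000800c80080010002000200081b0603)))) 
(.nd (nat_lit 8) (.nd (nat_lit 19) 
(.lf (nat_lit 4765016269) (dlOf (nat_lit 1) (nat_lit 0xc004000600180c1802))) 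
(.lf (nat_lit 4228669645) (dlOf (nat_lit 2) (nat_lit 0xd0062007002e001238281a0480)))) 
(.lf (nat_lit 5301889485) (dlOf (nat_lit 2) (nat_lit 0x680220037002000200080e4e81)))))))) 
(.nd (nat_lit 19) (.nd (nat_lit 28) (.nd (nat_lit 26) (.nd (nat_lit 24) (.nd (nat_lit 27) 
(.nd (nat_lit 9) 
(.lf (nat_lit 537157661) (dlOf (nat_lit 6) (nat_lit 0x10805f000ac01002f02f80055c08045817c01540540015404005c05f000a901000102f8004f4080340008008400200a60008030903))) 
(.lf (nat_lit 3221512733) (dlOf (nat_lit 2) (nat_lit 0x3600e00202018127f00)))) (.nd (nat_lit 6) 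
(.nd (nat_lit 32) 
(.lf (nat_lit 671375389) (dlOf (nat_lit 2) (nat_lit 0x4f0000002a804000400400020018170902))) 
(.lf (nat_lit 4966342685) (dlOf (nat_lit 1) (nat_lit 0xd8004000200080b0102)))) 
(.lf (nat_lit 1208246365) (dlOf (nat_lit 1) (nat_lit 0x100080004002000400080a1983))))) 
(.nd (nat_lit 20) (.nd (nat_lit 8) 
(.lf (nat_lit 17063965) (dlOf (nat_lit 1) (nat_lit 0x400188e0001))) 
(.lf (nat_lit 17064221) (dlOf (nat_lit 1) (nat_lit 0x200188e0701)))) (.nd (nat_lit 6) 
(.nd (nat_lit 9) 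
(.lf (nat_lit 62152733) (dlOf (nat_lit 1) (nat_lit 0x1f0008003800200300009960083))) 
(.lf (nat_lit 20213277) (dlOf (nat_lit 1) (nat_lit 0x4002000200089d7102)))) 
(.lf (nat_lit 24404061) (dlOf (nat_lit 2) (nat_lit 0x84f20002e0200020018b91201)))))) 
(.nd (nat_lit 6) (.nd (nat_lit 27) (.nd (nat_lit 29) 
(.lf (nat_lit 4362362909) (dlOf (nat_lit 3) (nat_lit 0xef02900f381180003e0805080a4001005101e2023001480b40003c10000c004001e0008030b82))) 
(.lf (nat_lit 3825491997) (dlOf (nat_lit 5) (nat_lit 0x2d802c013801200b2000000ae8300350058019002400d80040060000000ae0400be005805c802403a40000015906017400b00e900000055c1001e0008003800200260008170903)))) 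
(.lf (nat_lit 5033451549) (dlOf (nat_lit 1) (nat_lit 0xd8004000200080b0102)))) (.nd (nat_lit 7) 
(.nd (nat_lit 8) 
(.lf (nat_lit 2349097053) (dlOf (nat_lit 2) (nat_lit 0x400900028038000e01500090010000602000980080020002001000080a1203))) 
(.lf (nat_lit 201613661) (dlOf (nat_lit 1) (nat_lit 0x400200020008048d02)))) 
(.lf (nat_lit 1141138397) (dlOf (nat_lit 1) (nat_lit 0xe0018122881)))))) (.nd (nat_lit 26) 
(.nd (nat_lit 27) (.nd (nat_lit 30) (.nd (nat_lit 6) 
(.lf (nat_lit 4563689629) (dlOf (nat_lit 3) (nat_lit 0x160340000e8100100178000700800080080040002003200080c1283))) 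
(.lf (nat_lit 4563689693) (dlOf (nat_lit 2) (nat_lit 0x90031000168180c1c80)))) (.nd (nat_lit 7) 
(.lf (nat_lit 1342464029) (dlOf (nat_lit 3) (nat_lit 0x643a2003a1cf001240200530a88007e0080018008001800200840008030903))) 
(.lf (nat_lit 3489950109) (dlOf (nat_lit 1) (nat_lit 0x20008004e81))))) (.nd (nat_lit 6) 
(.nd (nat_lit 7) 
(.lf (nat_lit 3087294493) (dlOf (nat_lit 5) (nat_lit 0x2d802c013801200b2000000ac0300350058019002400d80040060000000ab8400be005805c802403a40000015406017400b00e90000005481001e0008003800200260008170903))) 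
(.lf (nat_lit 4697907357) (dlOf (nat_lit 3) (nat_lit 0x16034000050100100178000240800080080040002003200080c1283)))) 
(.lf (nat_lit 4697907421) (dlOf (nat_lit 1) (nat_lit 0x18004000a00080c1a02))))) (.nd (nat_lit 27) 
(.nd (nat_lit 6) 
(.lf (nat_lit 1409572893) (dlOf (nat_lit 6) (nat_lit 0x10805f000ae81002f02f80057008045817c01540540015904005c05f000ab81000102f8004f4080340008008400200a60008030903))) 
(.nd (nat_lit 29) 
(.lf (nat_lit 2483314781) (dlOf (nat_lit 2) (nat_lit 0x400900028038000e01500090010000b82000980080020002001000080a1203))) 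
(.lf (nat_lit 6241411165) (dlOf (nat_lit 1) (nat_lit 0x4004000200080e1982))))) (.nd (nat_lit 29) 
(.nd (nat_lit 30) 
(.lf (nat_lit 470048797) (dlOf (nat_lit 3) (nat_lit 0x643a2003a1cf001180200530a8800798080018008001800200840008030903))) 
(.lf (nat_lit 1543790621) (dlOf (nat_lit 2) (nat_lit 0x4f0000002b204000400400020018170902)))) 
(.lf (nat_lit 4228145181) (dlOf (nat_lit 3) (nat_lit 0xef02580f380fc0003e080508096001004a01e201f801480b00003c10000c004001e0008030b82))))))) 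
(.nd (nat_lit 20) (.nd (nat_lit 6) (.nd (nat_lit 10) (.nd (nat_lit 21) 
(.lf (nat_lit 9199645) (dlOf (nat_lit 1) (nat_lit 0x2b80080004002004e0008530103))) 
(.lf (nat_lit 2908189) (dlOf (nat_lit 1) (nat_lit 0x4200181d0481)))) (.nd (nat_lit 7) 
(.lf (nat_lit 4094454813) (dlOf (nat_lit 1) (nat_lit 0x20018056001))) 
(.lf (nat_lit 36463773) (dlOf (nat_lit 1) (nat_lit 0x40019072b81))))) (.nd (nat_lit 7) 
(.nd (nat_lit 8) (.lf (nat_lit 70018141) (dlOf (nat_lit 1) (nat_lit 0x8004000c0018e62902))) 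
(.lf (nat_lit 4094454109) (dlOf (nat_lit 1) (nat_lit 0x400400020008054e82)))) (.nd (nat_lit 8) 
(.lf (nat_lit 19690205) (dlOf (nat_lit 1) (nat_lit 0x200289d8c81))) 
(.lf (nat_lit 2752275421) (dlOf (nat_lit 1) (nat_lit 0x20018002881)))))) (.nd (nat_lit 21) 
(.nd (nat_lit 7) (.nd (nat_lit 22) (.nd (nat_lit 23) 
(.lf (nat_lit 2753323037) (dlOf (nat_lit 1) (nat_lit 0x2980080188002003c0008090003))) 
(.lf (nat_lit 10248221) (dlOf (nat_lit 2) (nat_lit 0x13e3e6001180185c0900)))) 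
(.lf (nat_lit 22831133) (dlOf (nat_lit 1) (nat_lit 0x400400020008b30482)))) 
(.lf (nat_lit 35416477) (dlOf (nat_lit 1) (nat_lit 0x20009014e81)))) (.nd (nat_lit 7) 
(.nd (nat_lit 22) (.nd (nat_lit 23) 
(.lf (nat_lit 1346134045) (dlOf (nat_lit 2) (nat_lit 0x6828600320cd00017828e60100))) 
(.lf (nat_lit 45899805) (dlOf (nat_lit 5) (nat_lit 0x143f00012808002e7dc00151ca000a8c300054448002a1f80014fea000a7e000053e880029e0c0014ee40004314000a82800013c8800110400007e0c00050fa0003d02001e0029360101)))) 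
(.lf (nat_lit 16539677) (dlOf (nat_lit 1) (nat_lit 0x4002000200088b0682)))) (.nd (nat_lit 6) 
(.lf (nat_lit 8152989) (dlOf (nat_lit 1) (nat_lit 0x8000800ac00200100008514283))) 
(.lf (nat_lit 8155869) (dlOf (nat_lit 1) (nat_lit 0x400200020008518c82)))))))))) (.nd (nat_lit 18) 
(.nd (nat_lit 6) (.nd (nat_lit 4) (.nd (nat_lit 10) (.nd (nat_lit 19) (.nd (nat_lit 27) 
(.nd (nat_lit 7) (.nd (nat_lit 8) 
(.lf (nat_lit 47276045) (dlOf (nat_lit 2) (nat_lit 0x56820007afd8036101000700080014002000400093c0003))) 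
(.lf (nat_lit 4831931149) (dlOf (nat_lit 1) (nat_lit 0x140028055b01)))) 
(.lf (nat_lit 2187405) (dlOf (nat_lit 2) (nat_lit 0x195e00003b0200040018150101)))) 
(.nd (nat_lit 26) (.nd (nat_lit 30) 
(.lf (nat_lit 4697710605) (dlOf (nat_lit 5) (nat_lit 0xa01f001000a80008048037560c001c03e00100150010009006ea8180080054000802401ba804001e0150002009006e981000080080564002007e0008090003))) 
(.lf (nat_lit 1476485133) (dlOf (nat_lit 1) (nat_lit 0x60008001000200160008010003)))) 
(.nd (nat_lit 7) (.lf (nat_lit 3691077645) (dlOf (nat_lit 1) (nat_lit 0x3c00200040008010002))) 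
(.lf (nat_lit 2885773709) (dlOf (nat_lit 1) (nat_lit 0x20028004e81)))))) (.nd (nat_lit 21) 
(.nd (nat_lit 22) (.nd (nat_lit 20) (.nd (nat_lit 30) 
(.lf (nat_lit 2819186701) (dlOf (nat_lit 1) (nat_lit 0x1600281e0281))) 
(.lf (nat_lit 3892928525) (dlOf (nat_lit 2) (nat_lit 0x5f00b001c2804002000200060008290782)))) 
(.lf (nat_lit 26828813) (dlOf (nat_lit 1) (nat_lit 0x4c0028c80481)))) (.nd (nat_lit 7) 
(.lf (nat_lit 4808717) (dlOf (nat_lit 1) (nat_lit 0x3400282b0001))) 
(.lf (nat_lit 46754189) (dlOf (nat_lit 1) (nat_lit 0x180019384e81))))) (.nd (nat_lit 22) 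
(.nd (nat_lit 24) (.lf (nat_lit 11100173) (dlOf (nat_lit 1) (nat_lit 0x400200020008660102))) 
(.lf (nat_lit 27877389) (dlOf (nat_lit 1) (nat_lit 0x400200020008d40182)))) (.nd (nat_lit 7) 
(.lf (nat_lit 58286349) (dlOf (nat_lit 1) (nat_lit 0x600097d7401))) 
(.lf (nat_lit 23683213) (dlOf (nat_lit 2) (nat_lit 0x652a000000200060008b80101))))))) 
(.nd (nat_lit 11) (.nd (nat_lit 28) (.nd (nat_lit 7) (.nd (nat_lit 19) 
(.lf (nat_lit 49374221) (dlOf (nat_lit 1) (nat_lit 0x20019462881))) 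
(.lf (nat_lit 56189965) (dlOf (nat_lit 1) (nat_lit 0x8008000400200020009732883)))) 
(.lf (nat_lit 9009037) (dlOf (nat_lit 1) (nat_lit 0x800800040020002000851a303)))) (.nd (nat_lit 9) 
(.nd (nat_lit 27) (.lf (nat_lit 6241215501) (dlOf (nat_lit 1) (nat_lit 0xe0028052881))) 
(.lf (nat_lit 6375433229) (dlOf (nat_lit 1) (nat_lit 0x1c00200020008002882)))) 
(.lf (nat_lit 4697712141) (dlOf (nat_lit 1) (nat_lit 0x20028093681))))) (.nd (nat_lit 7) 
(.nd (nat_lit 9) 
(.lf (nat_lit 5637237773) (dlOf (nat_lit 6) (nat_lit 0x680260000e0200340130000601000300980002c08017005000940260000a0400a8014001f009800000100120008004c002000e0008055f83))) 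
(.nd (nat_lit 20) 
(.lf (nat_lit 2885774861) (dlOf (nat_lit 2) (nat_lit 0x100000006604006800200060008007082))) 
(.lf (nat_lit 20016653) (dlOf (nat_lit 1) (nat_lit 0x200089d7081))))) (.nd (nat_lit 8) 
(.lf (nat_lit 97421) (dlOf (nat_lit 1) (nat_lit 0x800800040020002000800c203))) 
(.lf (nat_lit 4227952013) (dlOf (nat_lit 2) (nat_lit 0x194000000160200c80018006c81))))))) 
(.nd (nat_lit 30) (.nd (nat_lit 27) (.nd (nat_lit 20) (.nd (nat_lit 19) (.nd (nat_lit 21) 
(.lf (nat_lit 2214682653) (dlOf (nat_lit 1) (nat_lit 0xe0008020701))) 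
(.lf (nat_lit 27353117) (dlOf (nat_lit 3) (nat_lit 0x7676802e540800bb3b00168a04000400400140008cd0682)))) 
(.lf (nat_lit 36266013) (dlOf (nat_lit 1) (nat_lit 0x70008004800200020009050103)))) 
(.nd (nat_lit 21) (.lf (nat_lit 2752602141) (dlOf (nat_lit 2) (nat_lit 0x215d0007d818020480))) 
(.lf (nat_lit 28401693) (dlOf (nat_lit 1) (nat_lit 0x8008000400200020008d90683))))) 
(.nd (nat_lit 8) (.nd (nat_lit 7) (.nd (nat_lit 9) 
(.lf (nat_lit 474570781) (dlOf (nat_lit 12) (nat_lit 0x15a855802ac29a053614302a009d811e84e40a5819a045c0960301042811081d404d80e600ae000000250b03f30ab01f4850c0e6c276004a12403e6066804202580a940ea02d007300fd00d000c800000086280014276004c0cd0002102000f0b3020205580ff0286076a13b00e609780208490007c1ca07f40cd007604b000582140ab40ea02b0073010e00d0001046805d068004902c60140160020e0aa80f385340838284041c13801fc06c81070328065c18403400a700cb04f801f8270017811a007208c00fa03e802281f000600e4018002b00a00078000fca00048308001014e0003e0401b816301050aa80cc8534024828403660d9001f046805a01f400080f800f602b0001e8900190b000ff8558066029a03de143019806c80f50334052012c001a08d000c03e803d01cc000762805382ac0288143014a066802d0258000741002002ac00de1430001c8200640ab0000e0080508008021c00201f400091a0103)))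 
(.lf (nat_lit 2550227485) (dlOf (nat_lit 1) (nat_lit 0x38008000400200060008017f03)))) 
(.lf (nat_lit 402743453) (dlOf (nat_lit 1) (nat_lit 0x400400020008090502)))) (.nd (nat_lit 26) 
(.nd (nat_lit 31) 
(.lf (nat_lit 939616157) (dlOf (nat_lit 1) (nat_lit 0x8008001400200040008144283))) 
(.lf (nat_lit 3087099805) (dlOf (nat_lit 1) (nat_lit 0x180018144281)))) 
(.lf (nat_lit 201418653) (dlOf (nat_lit 1) (nat_lit 0x98004008a0008004282)))))) (.nd (nat_lit 26) 
(.nd (nat_lit 7) (.nd (nat_lit 20) (.nd (nat_lit 19) 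
(.lf (nat_lit 1476485149) (dlOf (nat_lit 1) (nat_lit 0x80018010001))) 
(.lf (nat_lit 3221839901) (dlOf (nat_lit 2) (nat_lit 0x18204600cd08181a0a80)))) (.nd (nat_lit 31) 
(.lf (nat_lit 1343315997) (dlOf (nat_lit 3) (nat_lit 0x7600a8000a40400100540005002000200081e0581))) 
(.lf (nat_lit 3490799645) (dlOf (nat_lit 2) (nat_lit 0x2158000c5818020480))))) (.nd (nat_lit 27) 
(.lf (nat_lit 5637237661) (dlOf (nat_lit 2) (nat_lit 0x40020001c018055c80))) 
(.lf (nat_lit 5771455389) (dlOf (nat_lit 1) (nat_lit 0x380018005c81))))) (.nd (nat_lit 31) 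
(.nd (nat_lit 7) 
(.lf (nat_lit 1812033053) (dlOf (nat_lit 2) (nat_lit 0x4030000190200020008147101))) 
(.nd (nat_lit 8) (.lf (nat_lit 6376483485) (dlOf (nat_lit 1) (nat_lit 0x400400020008095582))) 
(.lf (nat_lit 2080465309) (dlOf (nat_lit 1) (nat_lit 0x34004000e0008091002))))) (.nd (nat_lit 19) 
(.lf (nat_lit 3691077661) (dlOf (nat_lit 1) (nat_lit 0x170008007400200040008010003))) 
(.nd (nat_lit 20) (.lf (nat_lit 3960037405) (dlOf (nat_lit 2) (nat_lit 0x18204600e830181a0a80))) 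
(.lf (nat_lit 4095303709) (dlOf (nat_lit 1) (nat_lit 0x400200020008090082))))))))) (.nd (nat_lit 7) 
(.nd (nat_lit 8) (.nd (nat_lit 21) (.nd (nat_lit 30) (.nd (nat_lit 4) (.nd (nat_lit 19) 
(.nd (nat_lit 23) 
(.lf (nat_lit 16867405) (dlOf (nat_lit 6) (nat_lit 0x87e3380030008002f7fc022fbf20101d170007e420002f1c402c38d00139c670005e2b0014f15400937de0069bea005cdf4802f5c4c020ae2400f344b002a9e180033dac0021e1c0008c24004ddff0031efc804a745c0253908015dc6800a2e3380256fa800f37d2004d713008bb890010d6d000e5ed6013af0e000458d006deff8036f7e401fba2e0075c8400a2e34004cf19c00678ac001fc550050df50011efa400aee2600fb7120003a3e000f512c0179ed6010ef0e0004490004aefc8022f1a000df8ce0005bea0003b8980125c48001101803b8004006200188e0182))) 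
(.lf (nat_lit 25256013) (dlOf (nat_lit 2) (nat_lit 0xa00000026818bf0d00)))) 
(.lf (nat_lit 134832205) (dlOf (nat_lit 1) (nat_lit 0x200180c1501)))) (.nd (nat_lit 23) 
(.lf (nat_lit 537485405) (dlOf (nat_lit 5) (nat_lit 0x281440003404003c0a200018020026051000201900002c10005814400014040080002003000080a1202))) 
(.lf (nat_lit 42557533) (dlOf (nat_lit 1) (nat_lit 0x160008008400200300009260883))))) 
(.nd (nat_lit 26) (.nd (nat_lit 19) 
(.lf (nat_lit 1880186957) (dlOf (nat_lit 1) (nat_lit 0x400287a0001))) 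
(.lf (nat_lit 3221839949) (dlOf (nat_lit 4) (nat_lit 0x2dc0140002402002e00a0001181018f0050000880800180080098002000400081a1503)))) 
(.nd (nat_lit 4) 
(.lf (nat_lit 3960037453) (dlOf (nat_lit 3) (nat_lit 0x8028000fe04006c08c018e045000000281a1880))) 
(.lf (nat_lit 1409900637) (dlOf (nat_lit 5) (nat_lit 0x281440006004003c0a20002e020026051000201900008410005814400040040080002003000080a1202)))))) 
(.nd (nat_lit 9) (.nd (nat_lit 25) (.nd (nat_lit 26) 
(.lf (nat_lit 3492372557) (dlOf (nat_lit 1) (nat_lit 0x34002000200080c1502))) 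
(.lf (nat_lit 2754175053) (dlOf (nat_lit 2) (nat_lit 0x21fa0003f8180c1880)))) (.nd (nat_lit 19) 
(.lf (nat_lit 56713293) (dlOf (nat_lit 1) (nat_lit 0x300019730001))) 
(.lf (nat_lit 36266061) (dlOf (nat_lit 1) (nat_lit 0x20019050681))))) (.nd (nat_lit 4) 
(.nd (nat_lit 20) (.lf (nat_lit 31550029) (dlOf (nat_lit 1) (nat_lit 0x20018e95281))) 
(.lf (nat_lit 45181517) (dlOf (nat_lit 1) (nat_lit 0x2a0029325281)))) (.nd (nat_lit 20) 
(.lf (nat_lit 44657245) (dlOf (nat_lit 1) (nat_lit 0x400200020009325302))) 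
(.lf (nat_lit 1345940061) (dlOf (nat_lit 1) (nat_lit 0x150008017000200360008e25303))))))) 
(.nd (nat_lit 4) (.nd (nat_lit 26) (.nd (nat_lit 9) (.nd (nat_lit 11) 
(.lf (nat_lit 25780557) (dlOf (nat_lit 1) (nat_lit 0x400200020008c10802))) 
(.lf (nat_lit 671181133) (dlOf (nat_lit 1) (nat_lit 0x28008000c00200080008144d83)))) 
(.lf (nat_lit 97101) (dlOf (nat_lit 3) (nat_lit 0x70b4002bec0800393a400aa404000c0020008000800bc82)))) 
(.nd (nat_lit 28) (.nd (nat_lit 22) 
(.lf (nat_lit 2348900685) (dlOf (nat_lit 2) (nat_lit 0x3000000026040010002000e0008014c82))) 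
(.lf (nat_lit 2755748173) (dlOf (nat_lit 2) (nat_lit 0x50280001000800b000800d8002000400081b0603)))) 
(.nd (nat_lit 10) 
(.lf (nat_lit 2483118413) (dlOf (nat_lit 2) (nat_lit 0x30000000e8040010002000e0008014c82))) 
(.lf (nat_lit 4093732173) (dlOf (nat_lit 1) (nat_lit 0x800200020008003302)))))) (.nd (nat_lit 26) 
(.nd (nat_lit 9) (.nd (nat_lit 11) 
(.lf (nat_lit 1476485469) (dlOf (nat_lit 1) (nat_lit 0x8008004000200280008010903))) 
(.lf (nat_lit 1744922973) (dlOf (nat_lit 1) (nat_lit 0x120028094e81)))) 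
(.lf (nat_lit 7955293) (dlOf (nat_lit 1) (nat_lit 0x800400020018512582)))) (.nd (nat_lit 10) 
(.nd (nat_lit 27) 
(.lf (nat_lit 2483118429) (dlOf (nat_lit 3) (nat_lit 0x1580b000b40000002504002e02c0000d818014e80))) 
(.lf (nat_lit 2348900701) (dlOf (nat_lit 1) (nat_lit 0x40008009c002002e0008014e83)))) 
(.lf (nat_lit 3825298781) (dlOf (nat_lit 1) (nat_lit 0x40002008e0008146a82))))))) (.nd (nat_lit 8) 
(.nd (nat_lit 4) (.nd (nat_lit 19) (.nd (nat_lit 9) (.nd (nat_lit 11) 
(.lf (nat_lit 3355538637) (dlOf (nat_lit 1) (nat_lit 0x200180a9501))) 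
(.lf (nat_lit 1543597261) (dlOf (nat_lit 2) (nat_lit 0x80a00004604000800400100008146402)))) 
(.lf (nat_lit 20017869) (dlOf (nat_lit 1) (nat_lit 0x4002000200089d8c82)))) (.nd (nat_lit 20) 
(.nd (nat_lit 26) (.lf (nat_lit 1342791885) (dlOf (nat_lit 1) (nat_lit 0x2c004000400180c0482))) 
(.lf (nat_lit 470376653) (dlOf (nat_lit 1) (nat_lit 0x2c004000400180c0482)))) 
(.lf (nat_lit 14246093) (dlOf (nat_lit 1) (nat_lit 0x20018750481))))) (.nd (nat_lit 29) 
(.nd (nat_lit 11) 
(.lf (nat_lit 2617336541) (dlOf (nat_lit 1) (nat_lit 0x200080008002000200080a2103))) 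
(.nd (nat_lit 26) (.lf (nat_lit 92893) (dlOf (nat_lit 2) (nat_lit 0x616b00014018005900))) 
(.lf (nat_lit 3556862685) (dlOf (nat_lit 4) (nat_lit 0x28058000401c000400c0006003000180000006614001800c0003102000400e000100300018000000000c004c004001600180d5902))))) 
(.nd (nat_lit 19) (.nd (nat_lit 9) 
(.lf (nat_lit 604070109) (dlOf (nat_lit 1) (nat_lit 0x1e0028010581))) 
(.lf (nat_lit 2754703069) (dlOf (nat_lit 1) (nat_lit 0x3a00280f7381)))) (.nd (nat_lit 26) 
(.lf (nat_lit 1611229917) (dlOf (nat_lit 2) (nat_lit 0x404100014018125900))) 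
(.lf (nat_lit 738814685) (dlOf (nat_lit 1) (nat_lit 0x80080004002000c0008125903))))))) 
(.nd (nat_lit 9) (.nd (nat_lit 26) (.nd (nat_lit 11) (.nd (nat_lit 28) 
(.lf (nat_lit 3221316045) (dlOf (nat_lit 1) (nat_lit 0x800200040008090a02))) 
(.lf (nat_lit 805396941) (dlOf (nat_lit 2) (nat_lit 0x20130000c818090a00)))) 
(.lf (nat_lit 3892406733) (dlOf (nat_lit 2) (nat_lit 0x404700b10818104e80)))) (.nd (nat_lit 30) 
(.nd (nat_lit 4) (.lf (nat_lit 472998349) (dlOf (nat_lit 1) (nat_lit 0x20028bb1101))) 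
(.lf (nat_lit 738290141) (dlOf (nat_lit 2) (nat_lit 0x201480377604000800400260018094e82)))) 
(.nd (nat_lit 27) (.lf (nat_lit 1677812173) (dlOf (nat_lit 2) (nat_lit 0x20130000c818090a00))) 
(.lf (nat_lit 3959513549) (dlOf (nat_lit 1) (nat_lit 0x800200040008090a02)))))) (.nd (nat_lit 4) 
(.nd (nat_lit 11) (.nd (nat_lit 27) 
(.lf (nat_lit 91085) (dlOf (nat_lit 1) (nat_lit 0x200018002881))) 
(.lf (nat_lit 671179725) (dlOf (nat_lit 5) (nat_lit 0x201800ba181000300b8050cc08001005c0286404001402e014030200020008142881)))) 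
(.lf (nat_lit 4563495885) (dlOf (nat_lit 2) (nat_lit 0xb80220001402005c0028095d81)))) 
(.nd (nat_lit 11) (.nd (nat_lit 28) 
(.lf (nat_lit 3892405213) (dlOf (nat_lit 1) (nat_lit 0x9c002001a0008102882))) 
(.lf (nat_lit 6308324317) (dlOf (nat_lit 1) (nat_lit 0x40018052881)))) 
(.lf (nat_lit 4831931357) (dlOf (nat_lit 1) (nat_lit 0x400400020008055e02))))))))) 
(.nd (nat_lit 19) (.nd (nat_lit 4) (.nd (nat_lit 28) (.nd (nat_lit 6) (.nd (nat_lit 21) 
(.nd (nat_lit 26) (.nd (nat_lit 9) (.nd (nat_lit 27) 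
(.lf (nat_lit 5905932301) (dlOf (nat_lit 2) (nat_lit 0x9012800538080128008005800200080008160483))) 
(.lf (nat_lit 3355795469) (dlOf (nat_lit 12) (nat_lit 0x240640004a0203da032010801880010c100ba00c804c00580004204027803200970090001041001700c80007e0400f00640003d02020203202f7018802580480b040220003b08007e0320001d01002f019000054080bc80c8000220400e0064000000200440028120101)))) 
(.lf (nat_lit 355853) (dlOf (nat_lit 1) (nat_lit 0x100028007081)))) (.nd (nat_lit 30) 
(.lf (nat_lit 4362428429) (dlOf (nat_lit 2) (nat_lit 0x7a03300a45818070500))) 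
(.lf (nat_lit 3288686605) (dlOf (nat_lit 1) (nat_lit 0x1600080c0801))))) (.nd (nat_lit 7) 
(.nd (nat_lit 20) (.lf (nat_lit 2449421) (dlOf (nat_lit 1) (nat_lit 0x10008000800200040008160683))) 
(.lf (nat_lit 16080909) (dlOf (nat_lit 2) (nat_lit 0x13ea80009f50014d008000800400020018860282)))) 
(.nd (nat_lit 8) (.lf (nat_lit 11886733) (dlOf (nat_lit 1) (nat_lit 0xc002000600086c0102))) 
(.lf (nat_lit 2754968461) (dlOf (nat_lit 1) (nat_lit 0x200180fbc81)))))) (.nd (nat_lit 23) 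
(.nd (nat_lit 29) (.nd (nat_lit 20) 
(.lf (nat_lit 4496646221) (dlOf (nat_lit 1) (nat_lit 0x20028100601))) 
(.lf (nat_lit 37052493) (dlOf (nat_lit 1) (nat_lit 0x20019090681)))) (.nd (nat_lit 8) 
(.lf (nat_lit 5905932365) (dlOf (nat_lit 1) (nat_lit 0x80080014002003c0008160903))) 
(.lf (nat_lit 1610965325) (dlOf (nat_lit 1) (nat_lit 0x48002002200080a6682))))) (.nd (nat_lit 8) 
(.nd (nat_lit 9) (.lf (nat_lit 29712461) (dlOf (nat_lit 2) (nat_lit 0xf94f300044018e30180))) 
(.lf (nat_lit 42297933) (dlOf (nat_lit 1) (nat_lit 0x20009245281)))) 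
(.lf (nat_lit 11886925) (dlOf (nat_lit 1) (nat_lit 0x4002000200086c0602)))))) (.nd (nat_lit 27) 
(.nd (nat_lit 29) (.nd (nat_lit 22) (.nd (nat_lit 26) 
(.lf (nat_lit 4563755021) (dlOf (nat_lit 1) (nat_lit 0x4002000200080d0002))) 
(.lf (nat_lit 3557122061) (dlOf (nat_lit 1) (nat_lit 0xd0008006000200340008130003)))) 
(.lf (nat_lit 1346723853) (dlOf (nat_lit 1) (nat_lit 0x8008000800200020008ff0103)))) 
(.nd (nat_lit 7) (.lf (nat_lit 4026884109) (dlOf (nat_lit 1) (nat_lit 0x1600080c0801))) 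
(.lf (nat_lit 2953142413) (dlOf (nat_lit 2) (nat_lit 0x580000000004005c002007a0008160482))))) 
(.nd (nat_lit 26) (.nd (nat_lit 6) (.nd (nat_lit 7) 
(.lf (nat_lit 4697972749) (dlOf (nat_lit 1) (nat_lit 0x4002000200080d0002))) 
(.lf (nat_lit 3624234381) (dlOf (nat_lit 2) (nat_lit 0x1900a00006c080038008005000200200008146c83)))) 
(.lf (nat_lit 2550489165) (dlOf (nat_lit 1) (nat_lit 0xc00180c1501)))) (.nd (nat_lit 7) 
(.nd (nat_lit 29) 
(.lf (nat_lit 2617597965) (dlOf (nat_lit 27) (nat_lit 0x13c0240004b02015202f018f0090001281001780480009004014c06400940300318017808b00b801a002e0448012011000880178024000862006cc06405e402f0088017017c00a40e1002405b400901a80000001083818f00bc0e5c0240004104022802f007a0090001001008000bc0007e0403c005e0003e02022a02f0001e810307017015e804813300220003b06000a03201a5017807280b8066402401640110001d0500ef01700e8004807280220003906001001201cd0088000e01007a80440006e04001c05c0003602000202e0000d0101a5017807200b8045402400120110000b84018601780a680480002c08022c05e005c02e00550090000501800780b801340240001304008002e00009010137019009180c00af005e000c02e03180090000442800a80480001c0400fc05c0000a02039202f01b50090000001014180080fdc00206c60008100103)))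 
(.lf (nat_lit 4228210701) (dlOf (nat_lit 2) (nat_lit 0x7a03200af8818070500)))) 
(.lf (nat_lit 6377793933) (dlOf (nat_lit 1) (nat_lit 0x8004000200080e4e82))))))) (.nd (nat_lit 26) 
(.nd (nat_lit 6) (.nd (nat_lit 30) (.nd (nat_lit 8) 
(.lf (nat_lit 48586781) (dlOf (nat_lit 1) (nat_lit 0x4004000c0009420102))) (.nd (nat_lit 20) 
(.lf (nat_lit 25518365) (dlOf (nat_lit 1) (nat_lit 0x400400020018c10702))) 
(.lf (nat_lit 58024221) (dlOf (nat_lit 1) (nat_lit 0x80080004002000200097b8003))))) 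
(.nd (nat_lit 7) (.nd (nat_lit 27) 
(.lf (nat_lit 4026884125) (dlOf (nat_lit 2) (nat_lit 0x28202d0083a0180c0a80))) 
(.lf (nat_lit 3355795485) (dlOf (nat_lit 2) (nat_lit 0x7202e000d6818120480)))) 
(.lf (nat_lit 1208311965) (dlOf (nat_lit 1) (nat_lit 0x550002030800080c1282))))) (.nd (nat_lit 27) 
(.nd (nat_lit 22) (.nd (nat_lit 28) 
(.lf (nat_lit 6442803293) (dlOf (nat_lit 2) (nat_lit 0xe00c0000a0181c1200))) 
(.lf (nat_lit 4563755101) (dlOf (nat_lit 1) (nat_lit 0x400280d0701)))) 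
(.lf (nat_lit 29712477) (dlOf (nat_lit 1) (nat_lit 0x140028e30401)))) (.nd (nat_lit 7) 
(.nd (nat_lit 28) (.lf (nat_lit 3892666461) (dlOf (nat_lit 1) (nat_lit 0x800200020008180882))) 
(.lf (nat_lit 4697972829) (dlOf (nat_lit 1) (nat_lit 0x400280d0701)))) 
(.lf (nat_lit 2818924765) (dlOf (nat_lit 1) (nat_lit 0xa0018130581)))))) (.nd (nat_lit 27) 
(.nd (nat_lit 28) (.nd (nat_lit 20) (.nd (nat_lit 29) 
(.lf (nat_lit 3288686621) (dlOf (nat_lit 2) (nat_lit 0x28202d007f38180c0a80))) 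
(.lf (nat_lit 4899299357) (dlOf (nat_lit 1) (nat_lit 0x180018100081)))) 
(.lf (nat_lit 68509725) (dlOf (nat_lit 1) (nat_lit 0x2e0018590a01)))) (.nd (nat_lit 6) 
(.lf (nat_lit 3557122077) (dlOf (nat_lit 1) (nat_lit 0x50008006400200160008130003))) 
(.lf (nat_lit 3557122397) (dlOf (nat_lit 2) (nat_lit 0xc000000370200120008130901))))) 
(.nd (nat_lit 7) (.nd (nat_lit 6) 
(.lf (nat_lit 2617597981) (dlOf (nat_lit 3) (nat_lit 0x4e201a01d700cc019004a02cc0130003f04000101a0000900817b80080cc800201080008100483))) 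
(.lf (nat_lit 5838823517) (dlOf (nat_lit 2) (nat_lit 0xe00c000150181c1200)))) (.nd (nat_lit 28) 
(.lf (nat_lit 738549917) (dlOf (nat_lit 1) (nat_lit 0x80080004002000200080a2b83))) 
(.lf (nat_lit 2080727197) (dlOf (nat_lit 1) (nat_lit 0x550002030800080c1282)))))))) 
(.nd (nat_lit 20) (.nd (nat_lit 21) (.nd (nat_lit 23) (.nd (nat_lit 4) (.nd (nat_lit 6) 
(.lf (nat_lit 876557) (dlOf (nat_lit 1) (nat_lit 0x10008000400200020008030483))) 
(.lf (nat_lit 537747661) (dlOf (nat_lit 1) (nat_lit 0x20018155a81)))) (.nd (nat_lit 26) 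
(.lf (nat_lit 2819448861) (dlOf (nat_lit 1) (nat_lit 0x20018290681))) 
(.lf (nat_lit 3557646365) (dlOf (nat_lit 1) (nat_lit 0x20018290681))))) (.nd (nat_lit 24) 
(.nd (nat_lit 25) (.lf (nat_lit 9265181) (dlOf (nat_lit 1) (nat_lit 0x20018530101))) 
(.lf (nat_lit 42819613) (dlOf (nat_lit 2) (nat_lit 0x18a9a000c3f300000029280100)))) 
(.nd (nat_lit 4) (.lf (nat_lit 59596813) (dlOf (nat_lit 1) (nat_lit 0x100019810181))) 
(.lf (nat_lit 59596829) (dlOf (nat_lit 1) (nat_lit 0x40019810601)))))) (.nd (nat_lit 4) 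
(.nd (nat_lit 6) (.nd (nat_lit 7) 
(.lf (nat_lit 70082573) (dlOf (nat_lit 1) (nat_lit 0x20028eb0181))) 
(.lf (nat_lit 19757197) (dlOf (nat_lit 1) (nat_lit 0x80080004002000200089da883)))) 
(.lf (nat_lit 19756109) (dlOf (nat_lit 1) (nat_lit 0x18004000400089d9302)))) (.nd (nat_lit 24) 
(.nd (nat_lit 26) 
(.lf (nat_lit 3492634653) (dlOf (nat_lit 11) (nat_lit 0x3cc4160023c02013a1f40011b81017a1058008bc080a2082c0045a0400cc41e030820d02110fa00f7870404e835401d610d016d0000008983800a882c02883e80021f04003020f0010601003e1058007f008087882c008c3740028000000f90300171058007c00802080080010002000c00080e0483))) 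
(.lf (nat_lit 2754437149) (dlOf (nat_lit 11) (nat_lit 0x3cc4400023c02013a2090011b81017a1100008bc080a208800045a0400cc4480308222021110480f7874c04e837e01d6107016d0000008983800a88800288412002230400302240010701003e1100007e8080878880008c3b80028000000f98300171100007c00802080080010002000c00080e0483)))) 
(.nd (nat_lit 6) (.lf (nat_lit 19754141) (dlOf (nat_lit 1) (nat_lit 0x4004000200089d6282))) 
(.lf (nat_lit 19751517) (dlOf (nat_lit 1) (nat_lit 0x200080010002000c00089d1683))))))) 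
(.nd (nat_lit 7) (.nd (nat_lit 24) (.nd (nat_lit 6) (.nd (nat_lit 23) (.nd (nat_lit 4) 
(.lf (nat_lit 4022285) (dlOf (nat_lit 1) (nat_lit 0x8008000800200020008270483))) 
(.lf (nat_lit 1346199581) (dlOf (nat_lit 2) (nat_lit 0x5050c0005e0400d400400400008e60102)))) 
(.nd (nat_lit 22) (.lf (nat_lit 45965325) (dlOf (nat_lit 1) (nat_lit 0x400400020009370182))) 
(.lf (nat_lit 16605197) (dlOf (nat_lit 1) (nat_lit 0x200188c0281))))) (.nd (nat_lit 21) 
(.lf (nat_lit 69034061) (dlOf (nat_lit 1) (nat_lit 0xc00200020008880682))) (.nd (nat_lit 28) 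
(.lf (nat_lit 4022349) (dlOf (nat_lit 2) (nat_lit 0x5000000000018270d00))) 
(.lf (nat_lit 1346199629) (dlOf (nat_lit 1) (nat_lit 0x17c00400940008e60682)))))) (.nd (nat_lit 21) 
(.nd (nat_lit 4) (.nd (nat_lit 22) 
(.lf (nat_lit 27090957) (dlOf (nat_lit 2) (nat_lit 0x14363800318040058004003e0008ca0482))) 
(.lf (nat_lit 22896653) (dlOf (nat_lit 2) (nat_lit 0x2de70001d818b40100)))) 
(.lf (nat_lit 27090973) (dlOf (nat_lit 3) (nat_lit 0xf4d8e000270100406c700013008008000802a000201440008ca0583)))) 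
(.nd (nat_lit 8) (.lf (nat_lit 24993805) (dlOf (nat_lit 1) (nat_lit 0x18008000400200040008bd0a03))) 
(.lf (nat_lit 58549517) (dlOf (nat_lit 2) (nat_lit 0x70e800001a02000200297e3001)))))) 
(.nd (nat_lit 8) (.nd (nat_lit 12) (.nd (nat_lit 26) 
(.lf (nat_lit 3491586189) (dlOf (nat_lit 2) (nat_lit 0x40460000d8080010008000400200020008090103))) 
(.lf (nat_lit 2753388685) (dlOf (nat_lit 1) (nat_lit 0x8008000c00200060008090103)))) 
(.nd (nat_lit 4) (.lf (nat_lit 8222861) (dlOf (nat_lit 1) (nat_lit 0x7b000804200020082000851a883))) 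
(.lf (nat_lit 8222365) (dlOf (nat_lit 1) (nat_lit 0x1800200040008519f82))))) (.nd (nat_lit 6) 
(.lf (nat_lit 8216973) (dlOf (nat_lit 1) (nat_lit 0x400200020008511002))) (.nd (nat_lit 9) 
(.lf (nat_lit 12411341) (dlOf (nat_lit 1) (nat_lit 0x9600286c0a01))) 
(.lf (nat_lit 60646349) (dlOf (nat_lit 1) (nat_lit 0x80080004002000200098c2883))))))))))) 
(.nd (nat_lit 4) (.nd (nat_lit 18) (.nd (nat_lit 7) (.nd (nat_lit 16) (.nd (nat_lit 22) 
(.nd (nat_lit 27) (.nd (nat_lit 19) (.nd (nat_lit 21) (.nd (nat_lit 6) 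
(.lf (nat_lit 17850413) (dlOf (nat_lit 3) (nat_lit 0x121b0000887e0000504000395e000000188f0e00))) 
(.lf (nat_lit 2952821869) (dlOf (nat_lit 2) (nat_lit 0x42806800050040070004008c000800c082)))) 
(.nd (nat_lit 23) (.lf (nat_lit 52453421) (dlOf (nat_lit 2) (nat_lit 0xbcc1300000019530280))) 
(.lf (nat_lit 27287597) (dlOf (nat_lit 1) (nat_lit 0xe0028cc0881))))) (.nd (nat_lit 23) 
(.nd (nat_lit 21) (.lf (nat_lit 4362625069) (dlOf (nat_lit 1) (nat_lit 0x1000080b0a01))) 
(.nd (nat_lit 28) (.lf (nat_lit 2646061) (dlOf (nat_lit 2) (nat_lit 0x58000000140200080008180d81))) 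
(.lf (nat_lit 3492306989) (dlOf (nat_lit 1) (nat_lit 0xb00080094002000800080c0d83))))) 
(.nd (nat_lit 20) (.lf (nat_lit 11034669) (dlOf (nat_lit 1) (nat_lit 0x400200020008660782))) 
(.lf (nat_lit 45637677) (dlOf (nat_lit 1) (nat_lit 0xc002011e0009340282)))))) (.nd (nat_lit 9) 
(.nd (nat_lit 11) (.nd (nat_lit 19) 
(.lf (nat_lit 1007706157) (dlOf (nat_lit 1) (nat_lit 0x8008000400200020008740003))) 
(.lf (nat_lit 2819121197) (dlOf (nat_lit 1) (nat_lit 0x18002000a00081a0682)))) (.nd (nat_lit 8) 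
(.lf (nat_lit 201357357) (dlOf (nat_lit 1) (nat_lit 0x40040002000800a602))) 
(.lf (nat_lit 201357613) (dlOf (nat_lit 1) (nat_lit 0x40040002000800ab82))))) (.nd (nat_lit 8) 
(.nd (nat_lit 28) (.lf (nat_lit 671116845) (dlOf (nat_lit 1) (nat_lit 0x400200020008007182))) 
(.lf (nat_lit 3087035949) (dlOf (nat_lit 1) (nat_lit 0x10400200580008007182)))) (.nd (nat_lit 26) 
(.lf (nat_lit 1476423469) (dlOf (nat_lit 1) (nat_lit 0x400200020008007482))) 
(.lf (nat_lit 3691015981) (dlOf (nat_lit 1) (nat_lit 0x1800400040008007482))))))) (.nd (nat_lit 20) 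
(.nd (nat_lit 19) (.nd (nat_lit 8) (.nd (nat_lit 26) 
(.lf (nat_lit 3493879853) (dlOf (nat_lit 2) (nat_lit 0x883000343204005c004001a00081b0002))) 
(.lf (nat_lit 473980973) (dlOf (nat_lit 1) (nat_lit 0x20018ff0981)))) 
(.lf (nat_lit 46162221) (dlOf (nat_lit 1) (nat_lit 0x18008000c00200060009380b03)))) 
(.nd (nat_lit 6) (.nd (nat_lit 21) 
(.lf (nat_lit 55074861) (dlOf (nat_lit 6) (nat_lit 0x1a102000b01e80006c1000084f8002025a0014102000801e80002c2000404f8002025a0016102000601e8000282000404f8002025a0016102000501e8000242000384f8002025a0016102000201e8000202000080080004002000200096a0c83))) 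
(.lf (nat_lit 48783405) (dlOf (nat_lit 1) (nat_lit 0x400400020009430982)))) 
(.lf (nat_lit 474505325) (dlOf (nat_lit 2) (nat_lit 0x81f00013804000400200040009192482))))) 
(.nd (nat_lit 6) (.nd (nat_lit 9) (.nd (nat_lit 19) 
(.lf (nat_lit 13656109) (dlOf (nat_lit 2) (nat_lit 0x199a700009004000800200040008740602))) 
(.lf (nat_lit 24666157) (dlOf (nat_lit 4) (nat_lit 0xed2a000160200056950003b470000da100000a0c0006d2a0000402000a0018bb0d81)))) 
(.lf (nat_lit 40919597) (dlOf (nat_lit 1) (nat_lit 0x2a800403880009208a82)))) (.nd (nat_lit 23) 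
(.lf (nat_lit 38821997) (dlOf (nat_lit 1) (nat_lit 0x10008000800200020009162483))) 
(.lf (nat_lit 47210605) (dlOf (nat_lit 2) (nat_lit 0xafdc002d6040004004000200193b0a82))))))) 
(.nd (nat_lit 29) (.nd (nat_lit 28) (.nd (nat_lit 24) (.nd (nat_lit 6) (.nd (nat_lit 19) 
(.lf (nat_lit 6576758829) (dlOf (nat_lit 1) (nat_lit 0x3c800202f800080c0982))) 
(.lf (nat_lit 3221839917) (dlOf (nat_lit 1) (nat_lit 0x8002002400081a0d82)))) (.nd (nat_lit 19) 
(.lf (nat_lit 1208049773) (dlOf (nat_lit 2) (nat_lit 0x5601600000018090180))) 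
(.lf (nat_lit 45703277) (dlOf (nat_lit 1) (nat_lit 0x400400020009352482))))) (.nd (nat_lit 20) 
(.nd (nat_lit 22) 
(.lf (nat_lit 27353133) (dlOf (nat_lit 2) (nat_lit 0xd6c20000c0080080008000c002000c0008cd0803))) 
(.lf (nat_lit 23158829) (dlOf (nat_lit 1) (nat_lit 0x800400040008b60902)))) (.nd (nat_lit 6) 
(.lf (nat_lit 24731693) (dlOf (nat_lit 1) (nat_lit 0x40028bb0d81))) 
(.lf (nat_lit 20018797) (dlOf (nat_lit 1) (nat_lit 0x4004000200089d9c82)))))) (.nd (nat_lit 6) 
(.nd (nat_lit 19) (.nd (nat_lit 31) 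
(.lf (nat_lit 1343316013) (dlOf (nat_lit 3) (nat_lit 0x2025e0005402007c12f000228181e0680))) 
(.lf (nat_lit 3490799661) (dlOf (nat_lit 3) (nat_lit 0x1c1ed00070ac0000801000287b400602b00001b04002c0028020581)))) 
(.nd (nat_lit 26) 
(.lf (nat_lit 3494469677) (dlOf (nat_lit 2) (nat_lit 0x200000005c04000800400100018230602))) 
(.lf (nat_lit 474570797) (dlOf (nat_lit 5) (nat_lit 0xa80000004004037c29a0001d02019814d0000d81004006c8000600800f80080038002002a00091a0283))))) 
(.nd (nat_lit 10) 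
(.lf (nat_lit 4697710957) (dlOf (nat_lit 5) (nat_lit 0x6805400040240000504001001500040090000101000500540010024000030400140150007009000008100008008009000200400008090f83))) 
(.lf (nat_lit 1342270829) (dlOf (nat_lit 1) (nat_lit 0x400018006b01)))))) (.nd (nat_lit 6) 
(.nd (nat_lit 30) (.nd (nat_lit 9) (.nd (nat_lit 19) 
(.lf (nat_lit 2752602157) (dlOf (nat_lit 3) (nat_lit 0x1c1ff00070ae8000801000287fc00602ba0001b04002c0028020581))) 
(.lf (nat_lit 2756272173) (dlOf (nat_lit 2) (nat_lit 0x200000005004000800400100018230602)))) 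
(.lf (nat_lit 2885774893) (dlOf (nat_lit 3) (nat_lit 0x481100034086001e03e000f01e002380dc003006a00120000002a07004801b800144080190008014400200140008007183)))) 
(.nd (nat_lit 26) (.nd (nat_lit 10) 
(.lf (nat_lit 3892928557) (dlOf (nat_lit 3) (nat_lit 0x36019801a0058009400a0000506001206000d502a003401300200094014c033008301880308058003c028004600500250010000005003180080050002001e0008290e03))) 
(.lf (nat_lit 1610703917) (dlOf (nat_lit 1) (nat_lit 0x98008000800200020008092883)))) 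
(.nd (nat_lit 8) (.lf (nat_lit 5972779053) (dlOf (nat_lit 1) (nat_lit 0x3c800202f800080c0982))) 
(.lf (nat_lit 4094782253) (dlOf (nat_lit 1) (nat_lit 0x400400020008055c02)))))) (.nd (nat_lit 8) 
(.nd (nat_lit 27) 
(.lf (nat_lit 3825298541) (dlOf (nat_lit 1) (nat_lit 0x8008000400200020008146083))) 
(.lf (nat_lit 1812032621) (dlOf (nat_lit 1) (nat_lit 0x400400020008146082)))) (.nd (nat_lit 27) 
(.lf (nat_lit 3825298797) (dlOf (nat_lit 1) (nat_lit 0x400400020008146b02))) (.nd (nat_lit 28) 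
(.lf (nat_lit 1812032877) (dlOf (nat_lit 1) (nat_lit 0x400400020008146b02))) 
(.lf (nat_lit 4227951981) (dlOf (nat_lit 1) (nat_lit 0x480018006b01))))))))) (.nd (nat_lit 6) 
(.nd (nat_lit 10) (.nd (nat_lit 16) (.nd (nat_lit 9) (.nd (nat_lit 20) 
(.lf (nat_lit 4831865261) (dlOf (nat_lit 1) (nat_lit 0x100018004e81))) 
(.lf (nat_lit 2754636205) (dlOf (nat_lit 1) (nat_lit 0x200180f4e81)))) (.nd (nat_lit 26) 
(.lf (nat_lit 6710913965) (dlOf (nat_lit 3) (nat_lit 0x48058000402a0000e040010016000200a800000100060008002000200200008005d03))) 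
(.nd (nat_lit 28) (.lf (nat_lit 5033192365) (dlOf (nat_lit 1) (nat_lit 0x400400020008005d02))) 
(.lf (nat_lit 4764756909) (dlOf (nat_lit 1) (nat_lit 0x800400040008005d02)))))) (.nd (nat_lit 19) 
(.nd (nat_lit 8) 
(.lf (nat_lit 6376483501) (dlOf (nat_lit 1) (nat_lit 0x8008000400200020008095683))) 
(.nd (nat_lit 28) (.lf (nat_lit 1812031917) (dlOf (nat_lit 1) (nat_lit 0xc0028144e81))) 
(.lf (nat_lit 4227951021) (dlOf (nat_lit 1) (nat_lit 0x780028004e81))))) (.nd (nat_lit 20) 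
(.lf (nat_lit 69822893) (dlOf (nat_lit 1) (nat_lit 0x400400020008cd4e82))) 
(.lf (nat_lit 39414189) (dlOf (nat_lit 1) (nat_lit 0x20009194e81)))))) (.nd (nat_lit 11) 
(.nd (nat_lit 8) (.nd (nat_lit 12) 
(.lf (nat_lit 51930285) (dlOf (nat_lit 1) (nat_lit 0x20004000e0009512c02))) (.nd (nat_lit 16) 
(.lf (nat_lit 3355473069) (dlOf (nat_lit 13) (nat_lit 0x37005800600102754005131e0020997800c4d7c000006790c019200500a4002004e800000ce40c00e400c049600502290000019881819a00180c900000060f04057600602aa000001824100ad0018005c000005ff0407be00605b30000017f010005801800bf604000400a005af020df600506e600000164010020800c009c6040068006004d10200180028009501))) 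
(.lf (nat_lit 20542637) (dlOf (nat_lit 3) (nat_lit 0xd0000019e408002956c009c6040024004000200189d9502))))) 
(.nd (nat_lit 16) (.lf (nat_lit 4362102701) (dlOf (nat_lit 1) (nat_lit 0x3c0008004301))) 
(.lf (nat_lit 939616173) (dlOf (nat_lit 1) (nat_lit 0x340028144301))))) (.nd (nat_lit 28) 
(.nd (nat_lit 29) (.lf (nat_lit 28333) (dlOf (nat_lit 1) (nat_lit 0x400400020008007282))) 
(.lf (nat_lit 5905608365) (dlOf (nat_lit 1) (nat_lit 0x8008000400200020008007283)))) 
(.nd (nat_lit 27) (.nd (nat_lit 29) 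
(.lf (nat_lit 1342205613) (dlOf (nat_lit 2) (nat_lit 0x10247000211e000038100008008000400200040008007283))) 
(.lf (nat_lit 1879076525) (dlOf (nat_lit 1) (nat_lit 0x20028007281)))) 
(.lf (nat_lit 3087036077) (dlOf (nat_lit 2) (nat_lit 0x1100000004e04006c002005e0008007282))))))) 
(.nd (nat_lit 8) (.nd (nat_lit 10) (.nd (nat_lit 28) (.nd (nat_lit 9) 
(.lf (nat_lit 3892863213) (dlOf (nat_lit 2) (nat_lit 0x28064000f204000400400060018280602))) 
(.lf (nat_lit 617197) (dlOf (nat_lit 2) (nat_lit 0x563300015018005a00)))) (.nd (nat_lit 12) 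
(.nd (nat_lit 20) (.lf (nat_lit 4094189805) (dlOf (nat_lit 1) (nat_lit 0x2a0018011e81))) 
(.lf (nat_lit 1345872109) (dlOf (nat_lit 1) (nat_lit 0x20028e01e81)))) 
(.lf (nat_lit 1342206189) (dlOf (nat_lit 1) (nat_lit 0x400400040018008082))))) (.nd (nat_lit 9) 
(.nd (nat_lit 16) (.nd (nat_lit 26) 
(.lf (nat_lit 27885) (dlOf (nat_lit 2) (nat_lit 0x140260002e0200120018006501))) 
(.lf (nat_lit 1946184941) (dlOf (nat_lit 1) (nat_lit 0x10008000400200020008006503)))) 
(.lf (nat_lit 134311149) (dlOf (nat_lit 1) (nat_lit 0x400400020008006502)))) (.nd (nat_lit 26) 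
(.lf (nat_lit 2415945453) (dlOf (nat_lit 1) (nat_lit 0x20008000400200060008003b03))) 
(.lf (nat_lit 469788397) (dlOf (nat_lit 1) (nat_lit 0x2c00400100008003b02)))))) (.nd (nat_lit 9) 
(.nd (nat_lit 10) (.nd (nat_lit 11) 
(.lf (nat_lit 2080465389) (dlOf (nat_lit 2) (nat_lit 0x1802500000018091380))) 
(.lf (nat_lit 37251565) (dlOf (nat_lit 1) (nat_lit 0x200190d4f01)))) (.nd (nat_lit 12) 
(.lf (nat_lit 3556795885) (dlOf (nat_lit 5) (nat_lit 0x4005c000402c000200e000100600008018001c000002250c001c0000010981000100300082c0800280000000004002400200020008003602))) 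
(.lf (nat_lit 2684384749) (dlOf (nat_lit 1) (nat_lit 0x20028009c01))))) (.nd (nat_lit 26) 
(.nd (nat_lit 27) (.lf (nat_lit 4026557421) (dlOf (nat_lit 1) (nat_lit 0x400200020008002882))) 
(.lf (nat_lit 5502952429) (dlOf (nat_lit 1) (nat_lit 0x8008000400200020008002883)))) 
(.nd (nat_lit 10) (.nd (nat_lit 16) 
(.lf (nat_lit 4362101741) (dlOf (nat_lit 1) (nat_lit 0x10008000c00200060008002883))) 
(.lf (nat_lit 201417709) (dlOf (nat_lit 1) (nat_lit 0x10008021800200020008002883)))) 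
(.lf (nat_lit 469788653) (dlOf (nat_lit 3) (nat_lit 0xa1130000dc0800508dc0006c04004c00400240008004602))))))))) 
(.nd (nat_lit 7) (.nd (nat_lit 16) (.nd (nat_lit 19) (.nd (nat_lit 31) (.nd (nat_lit 21) 
(.nd (nat_lit 27) (.nd (nat_lit 6) (.nd (nat_lit 26) 
(.lf (nat_lit 537157677) (dlOf (nat_lit 3) (nat_lit 0xc0000000bc0801180000005c040020002008a0008030c02))) 
(.lf (nat_lit 1409572909) (dlOf (nat_lit 3) (nat_lit 0xc0000000b008011800000056040020002008a0008030c02)))) 
(.lf (nat_lit 25452909) (dlOf (nat_lit 1) (nat_lit 0x400400020008c10a02)))) (.nd (nat_lit 6) 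
(.nd (nat_lit 26) 
(.lf (nat_lit 671375405) (dlOf (nat_lit 4) (nat_lit 0x7d0170008001c0005e08039405c00ec0070001702000a0170000b408001800800c000200120008170c03))) 
(.lf (nat_lit 1543790637) (dlOf (nat_lit 4) (nat_lit 0x7d0170008001c0005808039405c00ec0070001582000a0170000a808001800800c000200120008170c03)))) 
(.lf (nat_lit 1208246637) (dlOf (nat_lit 1) (nat_lit 0x200080a7601))))) (.nd (nat_lit 20) 
(.nd (nat_lit 23) (.lf (nat_lit 19161133) (dlOf (nat_lit 1) (nat_lit 0x40018970001))) 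
(.lf (nat_lit 44326957) (dlOf (nat_lit 6) (nat_lit 0xb51d0000d810007a898003525c00016080012a48000b51d0007a898003d25c0001410001ea48000f51d0005a898003525c0001210001ea48001151d0007a898003d25c0001010002c004000200192f0c82)))) 
(.lf (nat_lit 32792621) (dlOf (nat_lit 2) (nat_lit 0xe40980001d0200020008f10281))))) 
(.nd (nat_lit 6) (.nd (nat_lit 30) (.nd (nat_lit 27) 
(.lf (nat_lit 2684641325) (dlOf (nat_lit 2) (nat_lit 0xe807601b4b0200040018100781))) 
(.lf (nat_lit 3087294509) (dlOf (nat_lit 3) (nat_lit 0x2024000700c8000bc1003a00900128046003c019007c003803880000005c14004400400240018170c02)))) 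
(.nd (nat_lit 9) 
(.lf (nat_lit 3825492013) (dlOf (nat_lit 3) (nat_lit 0x2024000700c8000b01003a00900128046003c019007c003803880000005614004400400240018170c02))) 
(.lf (nat_lit 3221512749) (dlOf (nat_lit 4) (nat_lit 0x2100380080000000240400ae00e00370000000801000f0038000380401d400200720008128002))))) 
(.nd (nat_lit 8) (.nd (nat_lit 27) 
(.lf (nat_lit 2483314797) (dlOf (nat_lit 1) (nat_lit 0x280080004002000a00080a1503))) 
(.lf (nat_lit 2349097069) (dlOf (nat_lit 1) (nat_lit 0x280080004002000a00080a1503)))) 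
(.lf (nat_lit 3154403693) (dlOf (nat_lit 1) (nat_lit 0xc00200020008160a02)))))) (.nd (nat_lit 9) 
(.nd (nat_lit 20) (.nd (nat_lit 23) 
(.lf (nat_lit 4228669485) (dlOf (nat_lit 2) (nat_lit 0x33025801c9c0800700080054002002e00081a0003))) 
(.nd (nat_lit 24) (.lf (nat_lit 9199661) (dlOf (nat_lit 1) (nat_lit 0xf80008530401))) 
(.lf (nat_lit 59531309) (dlOf (nat_lit 1) (nat_lit 0x800800c800200020009810983))))) 
(.nd (nat_lit 10) (.nd (nat_lit 21) 
(.lf (nat_lit 27025453) (dlOf (nat_lit 1) (nat_lit 0x960008009000200b80008ca0683))) 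
(.lf (nat_lit 1346134061) (dlOf (nat_lit 1) (nat_lit 0x40028e60281)))) 
(.lf (nat_lit 20737069) (dlOf (nat_lit 1) (nat_lit 0x4004000200089d6082))))) (.nd (nat_lit 6) 
(.nd (nat_lit 8) (.lf (nat_lit 41708077) (dlOf (nat_lit 1) (nat_lit 0xc0009245181))) 
(.lf (nat_lit 19686189) (dlOf (nat_lit 1) (nat_lit 0xa00189d2201)))) (.nd (nat_lit 8) 
(.lf (nat_lit 67924589) (dlOf (nat_lit 1) (nat_lit 0x400200020008338982))) 
(.lf (nat_lit 4094454637) (dlOf (nat_lit 1) (nat_lit 0x400400020008055c02))))))) (.nd (nat_lit 30) 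
(.nd (nat_lit 19) (.nd (nat_lit 6) (.nd (nat_lit 20) (.nd (nat_lit 27) 
(.lf (nat_lit 4362428461) (dlOf (nat_lit 13) (nat_lit 0x2cc0a6000120204ec05c006c02d801c015c07e80a8054805301b202900fc0144134c08e00f20460093020805c00c402e405a00e8018019a0000000407003f8174057c0b8004005b00bf02d0082815c046c0a804b8053018b02900fa0144022009e054804700db0230027011403dc082002e040000101b022d00cc038c06202a802d0090014004e0060003c02c03720000000797003302d0006011417440660018031001100b0000382802d817005200b4023a05300e70290095014400a808e007e045000101c026780cc00d40640056031004f00b00003460003015004100a6000080402be0530000301000a02e0003815000680a60016047000028400a0029800010080dd817004e80a60000304036a05c01170298000041003a017001f80a60028051000502380000020228800808f400209fc0008070803))) 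
(.lf (nat_lit 2617597997) (dlOf (nat_lit 3) (nat_lit 0xc00b00369604000805e0000002004e0028100781)))) 
(.nd (nat_lit 8) (.lf (nat_lit 1400877) (dlOf (nat_lit 1) (nat_lit 0x4004000200080c0c02))) 
(.lf (nat_lit 20278061) (dlOf (nat_lit 2) (nat_lit 0x200180048e040004002000200089d5c02))))) 
(.nd (nat_lit 21) (.lf (nat_lit 2818924653) (dlOf (nat_lit 1) (nat_lit 0x20018130281))) 
(.lf (nat_lit 2449517) (dlOf (nat_lit 1) (nat_lit 0x320028161501))))) (.nd (nat_lit 20) 
(.nd (nat_lit 21) (.lf (nat_lit 30236717) (dlOf (nat_lit 1) (nat_lit 0xc0028e30001))) 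
(.lf (nat_lit 2754437165) (dlOf (nat_lit 3) (nat_lit 0x80824000260403804400000702000600280e0601)))) 
(.nd (nat_lit 9) 
(.lf (nat_lit 27090989) (dlOf (nat_lit 5) (nat_lit 0xa000000017c080098000000ba04025bb0a0143d7f008cde48047eee002936c20131b4b00a3d9b805d37480051ba001749d400184d7803e8000000a830011fb0a00b5d7f003dde4801deee0013b6c20095b4b0045d9b800c37200008a2000040040f000018ca0682))) 
(.lf (nat_lit 12411437) (dlOf (nat_lit 12) (nat_lit 0x46eac0007e04000b6540003d020007bab0001d950000d8100046eac00076540003404000fbab00015010004dd580008c080036eac000400400137560001d02000fbab0005d9500003010003eeac0001204001f7560000002001600286c0e81)))))) 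
(.nd (nat_lit 26) (.nd (nat_lit 19) (.nd (nat_lit 27) 
(.lf (nat_lit 3221577773) (dlOf (nat_lit 8) (nat_lit 0xc200000018010117023809000bc015005c0002e0600ce0470001601003302b0059813c000809a017604700a2022003280c40074022018a00a00480030000304800081580004022000080400360560037019000d0044000060c007408e00d202f002b017001c0050000001002a400403020018150902))) 
(.nd (nat_lit 28) 
(.lf (nat_lit 3355795501) (dlOf (nat_lit 4) (nat_lit 0x4005e0184902001e02f00bf0810010017805f340801d8008013000200320008120783))) 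
(.lf (nat_lit 6308585517) (dlOf (nat_lit 3) (nat_lit 0x4806c0004e040010036000250200060008120d01))))) 
(.nd (nat_lit 20) 
(.lf (nat_lit 3492634669) (dlOf (nat_lit 3) (nat_lit 0x807d0000200403804160000702000600280e0601))) 
(.lf (nat_lit 1346199597) (dlOf (nat_lit 5) (nat_lit 0xe6158001b0a28039833c000160c004419e0000a02005a0cf000040100240ac0024833c0000008036400400180008e60282))))) 
(.nd (nat_lit 27) (.nd (nat_lit 6) (.nd (nat_lit 19) 
(.lf (nat_lit 5704605741) (dlOf (nat_lit 3) (nat_lit 0x4806c0004e040010036000250200060008120d01))) 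
(.lf (nat_lit 4096614445) (dlOf (nat_lit 2) (nat_lit 0xa06400000018140d00)))) 
(.lf (nat_lit 3557122413) (dlOf (nat_lit 1) (nat_lit 0xc00200040008130a02)))) (.nd (nat_lit 28) 
(.lf (nat_lit 3959775277) (dlOf (nat_lit 1) (nat_lit 0xc00400080008150802))) 
(.lf (nat_lit 4228210733) (dlOf (nat_lit 7) (nat_lit 0x29502a80d501500b8809a067a04c01a7025802381280850080035603f007501d000280c8046c058002201801220000000406800f80c80001e0400c00ac02f6051016c02800aa813005b009402ce048000e01d80ba80e800c806c000c033029b01900d500c000740280000e1a05140320000681007f0268061813001cc0640000906018005500cb02600000c100e1800800bc00200aa0008070903)))))))) 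
(.nd (nat_lit 10) (.nd (nat_lit 11) (.nd (nat_lit 6) (.nd (nat_lit 8) (.nd (nat_lit 27) 
(.lf (nat_lit 4563689645) (dlOf (nat_lit 1) (nat_lit 0x18004000a00080c1582))) 
(.lf (nat_lit 1745117357) (dlOf (nat_lit 1) (nat_lit 0x200280a2d81)))) (.nd (nat_lit 19) 
(.lf (nat_lit 3959710125) (dlOf (nat_lit 2) (nat_lit 0x5804600519818127180))) 
(.lf (nat_lit 4362887597) (dlOf (nat_lit 1) (nat_lit 0x1c004000e00081a0782))))) (.nd (nat_lit 8) 
(.nd (nat_lit 9) (.lf (nat_lit 6040084717) (dlOf (nat_lit 1) (nat_lit 0x4002000200080c4502))) 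
(.lf (nat_lit 19751661) (dlOf (nat_lit 1) (nat_lit 0x200289d2101)))) 
(.lf (nat_lit 5905867245) (dlOf (nat_lit 1) (nat_lit 0x20008000800200020008157d03))))) 
(.nd (nat_lit 16) (.nd (nat_lit 19) (.nd (nat_lit 20) 
(.lf (nat_lit 3624167853) (dlOf (nat_lit 1) (nat_lit 0x1c0028144e81))) 
(.lf (nat_lit 1345612205) (dlOf (nat_lit 1) (nat_lit 0x20008d74e81)))) (.nd (nat_lit 6) 
(.lf (nat_lit 46950829) (dlOf (nat_lit 1) (nat_lit 0x40029384e81))) 
(.lf (nat_lit 57436909) (dlOf (nat_lit 1) (nat_lit 0x400400020009795a02))))) (.nd (nat_lit 6) 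
(.nd (nat_lit 19) (.lf (nat_lit 5033519533) (dlOf (nat_lit 1) (nat_lit 0x1e00180e4e81))) 
(.lf (nat_lit 472738221) (dlOf (nat_lit 1) (nat_lit 0x14400200020008aa4e82)))) 
(.lf (nat_lit 1007515885) (dlOf (nat_lit 1) (nat_lit 0x2e00183da901)))))) (.nd (nat_lit 9) 
(.nd (nat_lit 25) (.nd (nat_lit 16) (.nd (nat_lit 20) (.nd (nat_lit 27) 
(.lf (nat_lit 69493933) (dlOf (nat_lit 1) (nat_lit 0x400200040008a82c02))) 
(.lf (nat_lit 472147117) (dlOf (nat_lit 1) (nat_lit 0x100028862c01)))) 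
(.lf (nat_lit 1007969453) (dlOf (nat_lit 1) (nat_lit 0x180080040002000400088c2c03)))) 
(.nd (nat_lit 22) (.lf (nat_lit 472736941) (dlOf (nat_lit 1) (nat_lit 0x20028aa2c01))) 
(.lf (nat_lit 32335021) (dlOf (nat_lit 1) (nat_lit 0x400200040008ef2c02))))) (.nd (nat_lit 22) 
(.nd (nat_lit 23) (.lf (nat_lit 35939501) (dlOf (nat_lit 1) (nat_lit 0x120009012c01))) 
(.lf (nat_lit 61105325) (dlOf (nat_lit 1) (nat_lit 0x1e00098c2c01)))) (.nd (nat_lit 19) 
(.lf (nat_lit 48522413) (dlOf (nat_lit 1) (nat_lit 0x1e0009402c01))) 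
(.lf (nat_lit 39609517) (dlOf (nat_lit 1) (nat_lit 0x3400400020019192c02)))))) (.nd (nat_lit 19) 
(.nd (nat_lit 11) (.lf (nat_lit 20215469) (dlOf (nat_lit 1) (nat_lit 0x4002000200089da002))) 
(.nd (nat_lit 16) (.lf (nat_lit 2754899629) (dlOf (nat_lit 1) (nat_lit 0x4004000200080f7282))) 
(.lf (nat_lit 4429541037) (dlOf (nat_lit 1) (nat_lit 0x1c0018117281))))) (.nd (nat_lit 20) 
(.nd (nat_lit 8) (.lf (nat_lit 537685677) (dlOf (nat_lit 1) (nat_lit 0x1e400280f7281))) 
(.lf (nat_lit 19754925) (dlOf (nat_lit 1) (nat_lit 0x1000189d7981)))) (.nd (nat_lit 6) 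
(.lf (nat_lit 20737709) (dlOf (nat_lit 1) (nat_lit 0x80080004002000800089d7283))) 
(.lf (nat_lit 8152813) (dlOf (nat_lit 1) (nat_lit 0x2a0018513b01)))))))))) (.nd (nat_lit 6) 
(.nd (nat_lit 30) (.nd (nat_lit 18) (.nd (nat_lit 7) (.nd (nat_lit 16) (.nd (nat_lit 9) 
(.nd (nat_lit 12) (.nd (nat_lit 19) 
(.lf (nat_lit 28336189) (dlOf (nat_lit 3) (nat_lit 0x14d84000130100076c2000088080018008003c002001a0008d80a03))) 
(.lf (nat_lit 805855293) (dlOf (nat_lit 1) (nat_lit 0x400081c0c01)))) (.nd (nat_lit 8) 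
(.lf (nat_lit 2952818749) (dlOf (nat_lit 2) (nat_lit 0xd801c00037818007d00))) 
(.lf (nat_lit 469793085) (dlOf (nat_lit 2) (nat_lit 0xa1130019f008003000800180020020000800ab83))))) 
(.nd (nat_lit 8) (.nd (nat_lit 10) 
(.lf (nat_lit 31293) (dlOf (nat_lit 1) (nat_lit 0x40020002000800b482))) 
(.lf (nat_lit 2147509821) (dlOf (nat_lit 2) (nat_lit 0xc000000050200040008003781)))) 
(.lf (nat_lit 554813) (dlOf (nat_lit 1) (nat_lit 0x40040006000800a102))))) (.nd (nat_lit 10) 
(.nd (nat_lit 8) (.nd (nat_lit 20) 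
(.lf (nat_lit 21585981) (dlOf (nat_lit 1) (nat_lit 0x8008004000200180008a51683))) 
(.lf (nat_lit 2755223613) (dlOf (nat_lit 8) (nat_lit 0x87600040e04000445e0002101000e30200011178007140800088bc0004216001c404000222f00010808007041000088bc0004202001bf04000e000000d7018130880)))) 
(.lf (nat_lit 58286397) (dlOf (nat_lit 1) (nat_lit 0x4600097d7c81)))) (.nd (nat_lit 11) 
(.lf (nat_lit 2818663485) (dlOf (nat_lit 1) (nat_lit 0x8004000600180d2882))) 
(.lf (nat_lit 134310973) (dlOf (nat_lit 1) (nat_lit 0x40028006081)))))) (.nd (nat_lit 8) 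
(.nd (nat_lit 9) (.nd (nat_lit 10) (.nd (nat_lit 16) 
(.lf (nat_lit 23617725) (dlOf (nat_lit 1) (nat_lit 0x58008001800200060008b80383))) 
(.lf (nat_lit 2187453) (dlOf (nat_lit 2) (nat_lit 0x135788000b0080058008002c002000c0008150383)))) 
(.lf (nat_lit 51406013) (dlOf (nat_lit 1) (nat_lit 0x3c00200060009512c82)))) (.nd (nat_lit 10) 
(.lf (nat_lit 19952317) (dlOf (nat_lit 1) (nat_lit 0x4002000200089d8c82))) 
(.lf (nat_lit 620221) (dlOf (nat_lit 1) (nat_lit 0x2002800a001))))) (.nd (nat_lit 16) 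
(.nd (nat_lit 9) (.nd (nat_lit 19) 
(.lf (nat_lit 40919485) (dlOf (nat_lit 1) (nat_lit 0x300009207a81))) 
(.lf (nat_lit 58220989) (dlOf (nat_lit 1) (nat_lit 0x114002001400097c7002)))) 
(.lf (nat_lit 6710913981) (dlOf (nat_lit 2) (nat_lit 0xb00b000000080038008002800200320008005d03)))) 
(.nd (nat_lit 9) (.nd (nat_lit 11) 
(.lf (nat_lit 6509650365) (dlOf (nat_lit 1) (nat_lit 0x100080008002000200080b0883))) 
(.lf (nat_lit 738290109) (dlOf (nat_lit 1) (nat_lit 0x40018094e81)))) 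
(.lf (nat_lit 95165) (dlOf (nat_lit 1) (nat_lit 0x2c0018009201))))))) (.nd (nat_lit 19) 
(.nd (nat_lit 29) (.nd (nat_lit 8) (.nd (nat_lit 7) (.nd (nat_lit 16) 
(.lf (nat_lit 470048829) (dlOf (nat_lit 8) (nat_lit 0x2b43a402241c700090de800560180668748045038e00501bd000ab83011d0e90079072405b438e02121c602280de802986dc013830c01e618300e80c100055848024040c01200da00900000009d83009a0f2005c877c003c3b402621d501190e900878724000439002cc1c701110e3011086f4005837801301b7006e0c3008d860c036030400c8000000669000810f20009877c003c3b4013e1d500df0e9007987240024390027e1c700f20e300fd06f4000837800b81b7004e0c3007c860c02e8304008800000066100021000000214080de800804dc00203a00008030d03))) 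
(.lf (nat_lit 68509757) (dlOf (nat_lit 1) (nat_lit 0x360018590d01)))) 
(.lf (nat_lit 6442737853) (dlOf (nat_lit 1) (nat_lit 0x80080010002000400081b0383)))) 
(.nd (nat_lit 10) 
(.lf (nat_lit 2349169469) (dlOf (nat_lit 1) (nat_lit 0xb00080058002001c00080fbc83))) 
(.lf (nat_lit 354109) (dlOf (nat_lit 1) (nat_lit 0x400200020008003e02))))) (.nd (nat_lit 28) 
(.nd (nat_lit 12) (.nd (nat_lit 27) 
(.lf (nat_lit 537157693) (dlOf (nat_lit 1) (nat_lit 0x20028030d01))) 
(.lf (nat_lit 671375421) (dlOf (nat_lit 2) (nat_lit 0x10000000750200080008170d01)))) 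
(.lf (nat_lit 2818863165) (dlOf (nat_lit 2) (nat_lit 0x280d8000e804003800400040008127d02)))) 
(.nd (nat_lit 8) 
(.lf (nat_lit 3087294525) (dlOf (nat_lit 2) (nat_lit 0x3401400400080048000000000180198008005c00200060008170d03))) 
(.lf (nat_lit 5301888317) (dlOf (nat_lit 2) (nat_lit 0x700880004c0801100080080002003000080e3283)))))) 
(.nd (nat_lit 16) (.nd (nat_lit 24) (.nd (nat_lit 21) 
(.lf (nat_lit 10248253) (dlOf (nat_lit 2) (nat_lit 0x86080009d8185c0d00))) 
(.lf (nat_lit 3956797) (dlOf (nat_lit 1) (nat_lit 0x20028261401)))) (.nd (nat_lit 8) 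
(.lf (nat_lit 22831165) (dlOf (nat_lit 12) (nat_lit 0x25a9400017020012d4a0000b0100066a500004808004b5280001c040011a940000d020012d4a000060100056a500002c08004b5280021a8c00006040008d4a000028100066a500001008005352800000040050004000c0018b30e02))) 
(.lf (nat_lit 51142973) (dlOf (nat_lit 2) (nat_lit 0x127400001ec080010008002000200080009507c83))))) 
(.nd (nat_lit 7) (.nd (nat_lit 21) 
(.lf (nat_lit 21848125) (dlOf (nat_lit 2) (nat_lit 0x580000000e018a70700))) (.nd (nat_lit 23) 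
(.lf (nat_lit 2754437181) (dlOf (nat_lit 1) (nat_lit 0x80080008002002c00080e0d83))) 
(.lf (nat_lit 11362365) (dlOf (nat_lit 1) (nat_lit 0x400200020008690e02))))) (.nd (nat_lit 10) 
(.lf (nat_lit 537747645) (dlOf (nat_lit 1) (nat_lit 0x20018155501))) 
(.lf (nat_lit 60646589) (dlOf (nat_lit 1) (nat_lit 0x80080004002000200098c2c83)))))))) 
(.nd (nat_lit 26) (.nd (nat_lit 31) (.nd (nat_lit 8) (.nd (nat_lit 9) (.nd (nat_lit 10) 
(.nd (nat_lit 19) 
(.lf (nat_lit 1342464061) (dlOf (nat_lit 8) (nat_lit 0x2b43a402241c700090de800560180668748045038e00501bd000ab83011d0e90079072405b438e02121c602280de802986dc01382f801e617a00e80bc80055848024041401200cc00900000009d83009a0f2005c877c003c3b402621d501190e900878724000439002cc1c701110e3011086f4005837801301b7006e0be008d85e803602f200c8000000669000810f20009877c003c3b4013e1d500df0e9007987240024390027e1c700f20e300fd06f4000837800b81b7004e0be007c85e802e82f2008800000066100021000000214080de800804dc00203a00008030d03)))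 
(.lf (nat_lit 1342988349) (dlOf (nat_lit 1) (nat_lit 0x18008006400200020008121403)))) 
(.lf (nat_lit 1342204989) (dlOf (nat_lit 1) (nat_lit 0x60008006081)))) (.nd (nat_lit 7) 
(.lf (nat_lit 1207985725) (dlOf (nat_lit 2) (nat_lit 0x601100009818003780))) 
(.lf (nat_lit 1342205629) (dlOf (nat_lit 1) (nat_lit 0x3400400220008007282))))) (.nd (nat_lit 9) 
(.nd (nat_lit 7) (.lf (nat_lit 1342270781) (dlOf (nat_lit 1) (nat_lit 0x60028006901))) 
(.lf (nat_lit 5905670589) (dlOf (nat_lit 1) (nat_lit 0x100080008002000200080b0883)))) 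
(.nd (nat_lit 27) 
(.lf (nat_lit 5637237565) (dlOf (nat_lit 3) (nat_lit 0x58050001c0040009d04000801400060010002381000d8008003c00200240008055c03))) 
(.lf (nat_lit 5771455293) (dlOf (nat_lit 1) (nat_lit 0x3a0018005c01)))))) (.nd (nat_lit 16) 
(.nd (nat_lit 8) (.nd (nat_lit 18) (.nd (nat_lit 19) 
(.lf (nat_lit 3493879869) (dlOf (nat_lit 2) (nat_lit 0xd830003432040094004002600081b0002))) 
(.lf (nat_lit 3492307005) (dlOf (nat_lit 2) (nat_lit 0x607f0000a8040058004002e00180c1402)))) 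
(.lf (nat_lit 3491520573) (dlOf (nat_lit 2) (nat_lit 0xd0458033880800b0008000400200120008090003)))) 
(.nd (nat_lit 10) 
(.lf (nat_lit 3892339005) (dlOf (nat_lit 4) (nat_lit 0x40238000f008002011c0007604002c08e0003a0200040008000b81))) 
(.lf (nat_lit 3489692989) (dlOf (nat_lit 2) (nat_lit 0x11000015e408017800800180020034000800c903))))) 
(.nd (nat_lit 18) (.nd (nat_lit 21) 
(.lf (nat_lit 3221839933) (dlOf (nat_lit 3) (nat_lit 0x1ec08a00240420002a0200b20230001440800e00080010002008600081a1403))) 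
(.lf (nat_lit 3492372541) (dlOf (nat_lit 2) (nat_lit 0x1f07f0000a804006c004003c00180c1402)))) 
(.lf (nat_lit 3492634685) (dlOf (nat_lit 1) (nat_lit 0x80080008002002c00080e0d83)))))) 
(.nd (nat_lit 18) (.nd (nat_lit 16) (.nd (nat_lit 7) (.nd (nat_lit 10) 
(.lf (nat_lit 1678270525) (dlOf (nat_lit 1) (nat_lit 0x400081c0c01))) 
(.lf (nat_lit 3288362045) (dlOf (nat_lit 1) (nat_lit 0x20018006081)))) (.nd (nat_lit 10) 
(.lf (nat_lit 6376417981) (dlOf (nat_lit 1) (nat_lit 0x400200020008095782))) 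
(.lf (nat_lit 4227886781) (dlOf (nat_lit 1) (nat_lit 0x3c0008007281))))) (.nd (nat_lit 8) 
(.nd (nat_lit 7) 
(.lf (nat_lit 6241216061) (dlOf (nat_lit 8) (nat_lit 0x4c005002a000a0002c0400100050001581002300a000f801400054080034028002e0050001482000800a000680140000a080058028002c0050000102000b0028000000800b0008006c002000a0008053783))) 
(.lf (nat_lit 2080465085) (dlOf (nat_lit 1) (nat_lit 0x20004000c0008090702)))) (.nd (nat_lit 28) 
(.lf (nat_lit 1812032829) (dlOf (nat_lit 1) (nat_lit 0x280028146901))) 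
(.lf (nat_lit 4227951933) (dlOf (nat_lit 1) (nat_lit 0x1260008006901)))))) (.nd (nat_lit 7) 
(.nd (nat_lit 27) (.nd (nat_lit 28) 
(.lf (nat_lit 3825492029) (dlOf (nat_lit 2) (nat_lit 0x3401400400080048000000000180198008005c00200060008170d03))) 
(.lf (nat_lit 1409572925) (dlOf (nat_lit 1) (nat_lit 0x20028030d01)))) (.nd (nat_lit 28) 
(.lf (nat_lit 3422838845) (dlOf (nat_lit 2) (nat_lit 0x30072000000200020028110e01))) 
(.lf (nat_lit 1543790653) (dlOf (nat_lit 2) (nat_lit 0x10000000750200080008170d01))))) 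
(.nd (nat_lit 16) 
(.lf (nat_lit 5838758077) (dlOf (nat_lit 3) (nat_lit 0x20188000c80800380d000022040010004001200181b0382))) 
(.nd (nat_lit 19) (.lf (nat_lit 2080727229) (dlOf (nat_lit 1) (nat_lit 0x200180c1701))) 
(.lf (nat_lit 1410162877) (dlOf (nat_lit 1) (nat_lit 0x20018155501))))))))) (.nd (nat_lit 8) 
(.nd (nat_lit 28) (.nd (nat_lit 10) (.nd (nat_lit 29) (.nd (nat_lit 11) (.nd (nat_lit 18) 
(.nd (nat_lit 7) (.lf (nat_lit 23617661) (dlOf (nat_lit 1) (nat_lit 0x20018b80081))) 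
(.lf (nat_lit 19947773) (dlOf (nat_lit 1) (nat_lit 0x4002000200089d0a82)))) (.nd (nat_lit 19) 
(.lf (nat_lit 6442737789) (dlOf (nat_lit 2) (nat_lit 0x800000498040004004000200181b0082))) 
(.lf (nat_lit 54288509) (dlOf (nat_lit 1) (nat_lit 0x120008014400203e00009650283))))) 
(.nd (nat_lit 9) 
(.lf (nat_lit 3221252221) (dlOf (nat_lit 2) (nat_lit 0x800000020040018002000a0008004782))) 
(.nd (nat_lit 20) (.lf (nat_lit 2147576445) (dlOf (nat_lit 1) (nat_lit 0x40028095401))) 
(.lf (nat_lit 20015741) (dlOf (nat_lit 1) (nat_lit 0x4002000400089d5402)))))) (.nd (nat_lit 30) 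
(.nd (nat_lit 16) (.nd (nat_lit 18) 
(.lf (nat_lit 537419901) (dlOf (nat_lit 1) (nat_lit 0x60028090081))) 
(.lf (nat_lit 2753323133) (dlOf (nat_lit 5) (nat_lit 0x88298012010e002110400840870010781000504380080808058821c002a4040004004003c0018090082)))) 
(.lf (nat_lit 2755747965) (dlOf (nat_lit 2) (nat_lit 0x1804c000f40181b0080)))) (.nd (nat_lit 11) 
(.lf (nat_lit 1745182845) (dlOf (nat_lit 2) (nat_lit 0x101c800080d00002808000c002000c00080c0c82))) 
(.nd (nat_lit 27) 
(.lf (nat_lit 3825231997) (dlOf (nat_lit 5) (nat_lit 0x1400f80088078001803600180170001a04001600f8004006c003c02e00032060010017000188100360000000b8080168008012800200020008004783))) 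
(.lf (nat_lit 1811966077) (dlOf (nat_lit 1) (nat_lit 0x10008000800200060008004783))))))) 
(.nd (nat_lit 9) (.nd (nat_lit 7) (.nd (nat_lit 19) 
(.lf (nat_lit 3355473021) (dlOf (nat_lit 1) (nat_lit 0xc00200060008009502))) 
(.lf (nat_lit 20477053) (dlOf (nat_lit 1) (nat_lit 0x10004000c00089d9502)))) (.nd (nat_lit 11) 
(.lf (nat_lit 8156413) (dlOf (nat_lit 1) (nat_lit 0x8008000400200020008519583))) 
(.lf (nat_lit 134311165) (dlOf (nat_lit 1) (nat_lit 0x400400020008006602))))) (.nd (nat_lit 16) 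
(.nd (nat_lit 18) 
(.lf (nat_lit 61892221) (dlOf (nat_lit 2) (nat_lit 0xa55dc0002d0200080019923981))) 
(.nd (nat_lit 19) 
(.lf (nat_lit 8676989) (dlOf (nat_lit 3) (nat_lit 0x12d3bc0002d02002606e00012818513980))) 
(.lf (nat_lit 61630077) (dlOf (nat_lit 2) (nat_lit 0xd14b40002d0200300019923981))))) 
(.nd (nat_lit 18) (.lf (nat_lit 43607677) (dlOf (nat_lit 2) (nat_lit 0x102000000168192a3980))) 
(.lf (nat_lit 43869821) (dlOf (nat_lit 2) (nat_lit 0x1580e0026bf000365c8001cacc000cd6360054b07003653a002ba65000d92e20002d12000a00192a3981))))))) 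
(.nd (nat_lit 26) (.nd (nat_lit 31) (.nd (nat_lit 11) (.nd (nat_lit 7) (.nd (nat_lit 29) 
(.lf (nat_lit 5637496957) (dlOf (nat_lit 2) (nat_lit 0x110138000840802000080054002002000080f0d03))) 
(.lf (nat_lit 5100626045) (dlOf (nat_lit 2) (nat_lit 0x8020000100e800144100038008001400200040008100c83)))) 
(.lf (nat_lit 1476944125) (dlOf (nat_lit 2) (nat_lit 0x403f00067018302900)))) (.nd (nat_lit 9) 
(.lf (nat_lit 805333117) (dlOf (nat_lit 1) (nat_lit 0x400400020018004782))) 
(.lf (nat_lit 1476426365) (dlOf (nat_lit 1) (nat_lit 0x40020002000800b682))))) (.nd (nat_lit 7) 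
(.nd (nat_lit 9) (.nd (nat_lit 16) 
(.lf (nat_lit 3491520637) (dlOf (nat_lit 5) (nat_lit 0x882a40120114001fc04008408a000fd010005045000780080588228002b8040004004003c0018090082))) 
(.lf (nat_lit 3491586173) (dlOf (nat_lit 2) (nat_lit 0x5808a000ae018090080)))) 
(.lf (nat_lit 6710913661) (dlOf (nat_lit 1) (nat_lit 0x800200020008005402)))) (.nd (nat_lit 9) 
(.lf (nat_lit 4160779517) (dlOf (nat_lit 1) (nat_lit 0x1c00008009581))) 
(.lf (nat_lit 3087099645) (dlOf (nat_lit 1) (nat_lit 0x60028143b81)))))) (.nd (nat_lit 7) 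
(.nd (nat_lit 10) (.nd (nat_lit 11) 
(.lf (nat_lit 5838758013) (dlOf (nat_lit 2) (nat_lit 0x800000468040004004000200181b0082))) 
(.lf (nat_lit 1543530621) (dlOf (nat_lit 1) (nat_lit 0x40028004781)))) (.nd (nat_lit 9) 
(.lf (nat_lit 5301888125) (dlOf (nat_lit 1) (nat_lit 0x3200280e2a81))) 
(.lf (nat_lit 474244733) (dlOf (nat_lit 2) (nat_lit 0x14a14f004c07a801101fc01840100002d08001400190e3981))))) 
(.nd (nat_lit 10) (.nd (nat_lit 18) 
(.lf (nat_lit 3691077885) (dlOf (nat_lit 1) (nat_lit 0x40028010701))) 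
(.lf (nat_lit 3557122301) (dlOf (nat_lit 4) (nat_lit 0x101c000f2c0800100e00079204000c0e0000000200160028130701)))) 
(.nd (nat_lit 11) (.nd (nat_lit 12) 
(.lf (nat_lit 2080466173) (dlOf (nat_lit 2) (nat_lit 0x3009c0003e04000800400020008092f02))) 
(.lf (nat_lit 2617275645) (dlOf (nat_lit 1) (nat_lit 0x8008000400200020008009583)))) 
(.lf (nat_lit 1946184957) (dlOf (nat_lit 1) (nat_lit 0x8008000400200020008006603)))))))) 
(.nd (nat_lit 28) (.nd (nat_lit 10) (.nd (nat_lit 18) (.nd (nat_lit 16) (.nd (nat_lit 9) 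
(.nd (nat_lit 20) (.lf (nat_lit 4294994301) (dlOf (nat_lit 1) (nat_lit 0x400400020008004e82))) 
(.lf (nat_lit 2754636157) (dlOf (nat_lit 1) (nat_lit 0x4002000200080f4e82)))) 
(.lf (nat_lit 2818599805) (dlOf (nat_lit 5) (nat_lit 0x40058000402a000200e000100600008018001c000002250c001c0000010c8100010030008340800280000000004002400200020008005c02)))) 
(.nd (nat_lit 7) (.lf (nat_lit 4831930749) (dlOf (nat_lit 1) (nat_lit 0x400400020008054e82))) 
(.lf (nat_lit 2348900861) (dlOf (nat_lit 1) (nat_lit 0x20008017e01))))) (.nd (nat_lit 7) 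
(.nd (nat_lit 9) (.lf (nat_lit 36530557) (dlOf (nat_lit 1) (nat_lit 0x40019074e81))) 
(.lf (nat_lit 54291325) (dlOf (nat_lit 1) (nat_lit 0x800400680009655c02)))) (.nd (nat_lit 11) 
(.nd (nat_lit 26) 
(.lf (nat_lit 5905867261) (dlOf (nat_lit 1) (nat_lit 0x8008001800200020008157e03))) 
(.lf (nat_lit 3959710205) (dlOf (nat_lit 4) (nat_lit 0x14c07c012000e0003006003200000004410023407c011000e0000e02006c01f002b00380003608004400200240008127e02)))) 
(.lf (nat_lit 35482109) (dlOf (nat_lit 1) (nat_lit 0x800400020019014f82)))))) (.nd (nat_lit 9) 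
(.nd (nat_lit 11) (.nd (nat_lit 16) (.nd (nat_lit 26) 
(.lf (nat_lit 2147509629) (dlOf (nat_lit 1) (nat_lit 0x560018003581))) 
(.lf (nat_lit 738223485) (dlOf (nat_lit 1) (nat_lit 0x540018003581)))) 
(.lf (nat_lit 4899038589) (dlOf (nat_lit 1) (nat_lit 0x400400020008053582)))) (.nd (nat_lit 16) 
(.lf (nat_lit 6442483069) (dlOf (nat_lit 1) (nat_lit 0x22001800c901))) 
(.lf (nat_lit 4429544829) (dlOf (nat_lit 1) (nat_lit 0x5c001811c901))))) (.nd (nat_lit 23) 
(.nd (nat_lit 12) 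
(.lf (nat_lit 1073768317) (dlOf (nat_lit 1) (nat_lit 0x8008000400200020008004103))) 
(.lf (nat_lit 8157053) (dlOf (nat_lit 1) (nat_lit 0x80020002000851a302)))) (.nd (nat_lit 16) 
(.lf (nat_lit 8419197) (dlOf (nat_lit 1) (nat_lit 0xc00080008002002a000851a303))) 
(.lf (nat_lit 8484733) (dlOf (nat_lit 1) (nat_lit 0x480080008002000c000851a303))))))) 
(.nd (nat_lit 26) (.nd (nat_lit 11) (.nd (nat_lit 19) (.nd (nat_lit 9) 
(.lf (nat_lit 2416009725) (dlOf (nat_lit 1) (nat_lit 0xa0008017e01))) 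
(.lf (nat_lit 1342206973) (dlOf (nat_lit 1) (nat_lit 0xc00400020008009202)))) (.nd (nat_lit 7) 
(.lf (nat_lit 3491520893) (dlOf (nat_lit 3) (nat_lit 0x208b00d1a0100050458068c4080100008000400200100008090783))) 
(.lf (nat_lit 1342726653) (dlOf (nat_lit 2) (nat_lit 0xc1540010c8180c0d80))))) (.nd (nat_lit 7) 
(.nd (nat_lit 16) (.lf (nat_lit 1879075197) (dlOf (nat_lit 1) (nat_lit 0x400400020008004e82))) 
(.lf (nat_lit 1342269821) (dlOf (nat_lit 1) (nat_lit 0x60028004e81)))) (.nd (nat_lit 10) 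
(.lf (nat_lit 5100563453) (dlOf (nat_lit 1) (nat_lit 0x200180d5f01))) 
(.lf (nat_lit 1476423677) (dlOf (nat_lit 1) (nat_lit 0x22000800a000200320008007a83)))))) 
(.nd (nat_lit 9) (.nd (nat_lit 7) (.nd (nat_lit 11) 
(.lf (nat_lit 4096091517) (dlOf (nat_lit 1) (nat_lit 0x200280e3581))) 
(.lf (nat_lit 2483060093) (dlOf (nat_lit 1) (nat_lit 0x40020002000800c902)))) (.nd (nat_lit 10) 
(.lf (nat_lit 470311421) (dlOf (nat_lit 2) (nat_lit 0xc1540010e0180c0d80))) 
(.lf (nat_lit 2617275901) (dlOf (nat_lit 4) (nat_lit 0xa000000b0010014000000194080010000000c604001c004005a0018009c02))))) 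
(.nd (nat_lit 18) (.nd (nat_lit 10) 
(.lf (nat_lit 3691017213) (dlOf (nat_lit 1) (nat_lit 0x40008009201))) 
(.lf (nat_lit 3691016189) (dlOf (nat_lit 2) (nat_lit 0x400000130c0801e800800b8002002e0008007a83)))) 
(.nd (nat_lit 21) (.lf (nat_lit 5704541181) (dlOf (nat_lit 1) (nat_lit 0x800280d2881))) 
(.lf (nat_lit 6377726973) (dlOf (nat_lit 1) (nat_lit 0x2200180e2881))))))))))))

end

end Pool.Agent.Lib.MP_5854e1_co.Cz
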